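import Pool.Agent.Work.MP_b30479_gt.TBS.G2.V3RXC
import Pool.Agent.Work.MP_b30479_gt.TBS.G2.MFB
import Pool.Agent.Work.MP_b30479_gt.TBS.G2.MPRun
import Pool.Agent.Work.MP_b30479_gt.TBS.G2.WLocX
import Pool.Agent.Work.MP_b30479_gt.TBS.G2.WMid
import Pool.Agent.Work.MP_b30479_gt.TBS.G2.V30K
import Pool.Agent.Work.MP_b30479_gt.TBS.G2.WLocF
import Pool.Agent.Work.MP_b30479_gt.TBS.G2.V2BMv
import Pool.Agent.Work.MP_b30479_gt.TBS.G2.WTab
import Pool.Agent.Work.MP_b30479_gt.TBS.G2.R32

section

/-!
# The left ramp of the hinge at slot `2` of an inner digit `3`: real statements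

`x`, `μ`: position and slope of the own hinge, `y`, `k`: position and height of the inner variable,
`t`: height of its path.
-/

namespace Pool.Agent.Work.MP_b30479_gtS.G2

open Real Set VOL NumIs

namespace ML

/-- the inner variable on its path -/
structure Kn (y t k : ℝ) : Prop where
  y0 : 0 ≤ y
  y1 : y ≤ 8 / 10
  l : y ≤ 5 / 100 → k = t * (20 * y)
  m : 5 / 100 ≤ y → y ≤ 75 / 100 → k = t
  r : 75 / 100 ≤ y → k = t * (20 * (8 / 10 - y))

/-- first-order conditions of the inner variable -/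
structure Fc (u : ℂ) (x μ y t k : ℝ) : Prop where
  fl : 5 / 100 < y → y ≤ 75 / 100 → 0 ≤ SM 0 u (lv y k) (lv x (x * μ))
  fr : 75 / 100 < y → 0 ≤ SM (-(20 * t)) u (lv y k) (lv x (x * μ))

variable {x μ y t k : ℝ} {u : ℂ}

theorem scale_bd {A B s : ℝ} (hA : A ≤ t) (hB : t ≤ B) (hA0 : A ≤ 0) (hB0 : 0 ≤ B) (h0 : 0 ≤ s)
    (h1 : s ≤ 1) : A ≤ t * s ∧ t * s ≤ B := by
  constructor
  · nlinarith only [hA, h0, hA0, h1, mul_le_mul_of_nonneg_right hA h0]
  · nlinarith only [hB, h0, hB0, h1, mul_le_mul_of_nonneg_right hB h0]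

theorem Kn.q0 {A B : ℝ} (H : Kn y t k) (hA : A ≤ t) (hB : t ≤ B) (hA0 : A ≤ 0) (hB0 : 0 ≤ B) :
    A ≤ k ∧ k ≤ B := by
  rcases le_total y (5 / 100) with h | h
  · rw [H.l h]
    exact scale_bd hA hB hA0 hB0 (by linarith only [H, H.y0]) (by linarith only [h])
  · rcases le_total y (75 / 100) with h' | h'
    · rw [H.m h h']
      exact ⟨hA, hB⟩
    · rw [H.r h']
      exact scale_bd hA hB hA0 hB0 (by linarith only [H, H.y1]) (by linarith only [h'])

theorem Kn.rr {A B : ℝ} (H : Kn y t k) (hA : A ≤ t) (hB : t ≤ B) (hy : 75 / 100 ≤ y) :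
    A * (20 * (8 / 10 - y)) ≤ k ∧ k ≤ B * (20 * (8 / 10 - y)) := by
  rw [H.r hy]
  have := H.y1
  exact ⟨mul_le_mul_of_nonneg_right hA (by linarith only [this]), mul_le_mul_of_nonneg_right hB (by linarith only [this])⟩

theorem Kn.ll {A B : ℝ} (H : Kn y t k) (hA : A ≤ t) (hB : t ≤ B) (hy : y ≤ 5 / 100) :
    A * (20 * y) ≤ k ∧ k ≤ B * (20 * y) := by
  rw [H.l hy]
  have := H.y0
  exact ⟨mul_le_mul_of_nonneg_right hA (by linarith only [this]), mul_le_mul_of_nonneg_right hB (by linarith only [this])⟩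

theorem fN0_not (v : List ℝ) : ¬ 0 < fN0.val v := by
  simp only [fN0, E.val]
  norm_num

variable {p ca cb e a b b' m0 m1 x0 x1 y0 y1 : ℤ} {T1 T2 T3 : Tr}

/-- a row without escape, heights between constants, all positions -/
theorem useQ0 (c : runT (rowS (cE p ca cb) e (kQ a) (kQ b') fN0) T1 (bx x0 x1 m0 m1 y0 y1) = true)
    (H : Kn y t k) (ha : (a : ℝ) / 1000 ≤ t) (hb : t ≤ (b' : ℝ) / 1000) (ha0 : (a : ℝ) ≤ 0)
    (hb0 : 0 ≤ (b' : ℝ)) (hx : (x0 : ℝ) / 1000 ≤ x ∧ x ≤ (x1 : ℝ) / 1000)
    (hm : (m0 : ℝ) / 10000 ≤ μ ∧ μ ≤ (m1 : ℝ) / 10000)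
    (hy : (y0 : ℝ) / 1000 ≤ y ∧ y ≤ (y1 : ℝ) / 1000) (h0 : 0 < x) (hs : x + y < 1) :
    (e : ℝ) / 1000 < sd 2 (cR p ca cb x) x μ y k := by
  obtain ⟨q1, q2⟩ := H.q0 ha hb (by linarith only [ha0]) (by linarith only [hb0])
  rcases rowS_of c hx hm hy h0 H.y0 hs (isK_Q _ _ _ _) (isK_Q _ _ _ _) q1 q2 with h | h
  · exact h
  · exact absurd h.1 (fN0_not _)

/-- a row without escape, level part of the inner variable -/
theorem useQ (c : runT (rowS (cE p ca cb) e (kQ a) (kQ b) fN0) T1 (bx x0 x1 m0 m1 y0 y1) = true)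
    (H : Kn y t k) (ha : (a : ℝ) / 1000 ≤ t) (hb : t ≤ (b : ℝ) / 1000)
    (hl : 5 / 100 ≤ y) (hr : y ≤ 75 / 100) (hx : (x0 : ℝ) / 1000 ≤ x ∧ x ≤ (x1 : ℝ) / 1000)
    (hm : (m0 : ℝ) / 10000 ≤ μ ∧ μ ≤ (m1 : ℝ) / 10000)
    (hy : (y0 : ℝ) / 1000 ≤ y ∧ y ≤ (y1 : ℝ) / 1000) (h0 : 0 < x) (hs : x + y < 1) :
    (e : ℝ) / 1000 < sd 2 (cR p ca cb x) x μ y k := by
  have e1 := H.m hl hr
  have ha' : (a : ℝ) / 1000 ≤ k := by rw [e1]; exact ha
  have hb' : k ≤ (b : ℝ) / 1000 := by rw [e1]; exact hb
  rcases rowS_of c hx hm hy h0 H.y0 hs (isK_Q _ _ _ _) (isK_Q _ _ _ _) ha' hb' with h | h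
  · exact h
  · exact absurd h.1 (fN0_not _)

/-- a row on the right ramp of the inner variable -/
theorem useR (c : runT (rowS (cE p ca cb) e (kR a) (kR b) fN0) T1 (bx x0 x1 m0 m1 y0 y1) = true)
    (H : Kn y t k) (ha : (a : ℝ) / 1000 ≤ t) (hb : t ≤ (b : ℝ) / 1000)
    (hr : 75 / 100 ≤ y) (hx : (x0 : ℝ) / 1000 ≤ x ∧ x ≤ (x1 : ℝ) / 1000)
    (hm : (m0 : ℝ) / 10000 ≤ μ ∧ μ ≤ (m1 : ℝ) / 10000)
    (hy : (y0 : ℝ) / 1000 ≤ y ∧ y ≤ (y1 : ℝ) / 1000) (h0 : 0 < x) (hs : x + y < 1) :
    (e : ℝ) / 1000 < sd 2 (cR p ca cb x) x μ y k := by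
  obtain ⟨q1, q2⟩ := H.rr ha hb hr
  rcases rowS_of c hx hm hy h0 H.y0 hs (isK_R _ _ _ _) (isK_R _ _ _ _) q1 q2 with h | h
  · exact h
  · exact absurd h.1 (fN0_not _)

/-- a row on the left ramp of the inner variable -/
theorem useL (c : runT (rowS (cE p ca cb) e (kL a) (kL b) fN0) T1 (bx x0 x1 m0 m1 y0 y1) = true)
    (H : Kn y t k) (ha : (a : ℝ) / 1000 ≤ t) (hb : t ≤ (b : ℝ) / 1000)
    (hl : y ≤ 5 / 100) (hx : (x0 : ℝ) / 1000 ≤ x ∧ x ≤ (x1 : ℝ) / 1000)
    (hm : (m0 : ℝ) / 10000 ≤ μ ∧ μ ≤ (m1 : ℝ) / 10000)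
    (hy : (y0 : ℝ) / 1000 ≤ y ∧ y ≤ (y1 : ℝ) / 1000) (h0 : 0 < x) (hs : x + y < 1) :
    (e : ℝ) / 1000 < sd 2 (cR p ca cb x) x μ y k := by
  obtain ⟨q1, q2⟩ := H.ll ha hb hl
  rcases rowS_of c hx hm hy h0 H.y0 hs (isK_L _ _ _ _) (isK_L _ _ _ _) q1 q2 with h | h
  · exact h
  · exact absurd h.1 (fN0_not _)

/-- a row with escape, level part of the inner variable -/
theorem useF {um Tm : ℤ}
    (c : runT (rowS (cE p ca cb) e (kQ a) (kQ b) (fF a um Tm)) T1 (bx x0 x1 m0 m1 y0 y1) = true)
    (H : Kn y t k) (hf : Fc u x μ y t k) (ha : (a : ℝ) / 1000 ≤ t) (hb : t ≤ (b : ℝ) / 1000)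
    (hl : 5 / 100 < y) (hr : y ≤ 75 / 100) (hx : (x0 : ℝ) / 1000 ≤ x ∧ x ≤ (x1 : ℝ) / 1000)
    (hm : (m0 : ℝ) / 10000 ≤ μ ∧ μ ≤ (m1 : ℝ) / 10000)
    (hy : (y0 : ℝ) / 1000 ≤ y ∧ y ≤ (y1 : ℝ) / 1000) (h0 : 0 < x) (hs : x + y < 1)
    (hu0 : 7 / 100 ≤ u.re) (hu1 : u.re ≤ (um : ℝ) / 100) (hum : (um : ℝ) / 100 ≤ 1 / 2)
    (hum' : 43 / 100 ≤ (um : ℝ) / 100) (hT : -((Tm : ℝ) / 10000) ≤ u.im)
    (hab : (a : ℝ) / 1000 + (b : ℝ) / 1000 + 2 * (x * μ) ≤ 0) :
    (e : ℝ) / 1000 < sd 2 (cR p ca cb x) x μ y k := by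
  have e1 := H.m hl.le hr
  have ha' : (a : ℝ) / 1000 ≤ k := by rw [e1]; exact ha
  have hb' : k ≤ (b : ℝ) / 1000 := by rw [e1]; exact hb
  rcases rowS_of c hx hm hy h0 H.y0 hs (isK_Q _ _ _ _) (isK_Q _ _ _ _) ha' hb' with h | h
  · exact h
  · exfalso
    obtain ⟨h1, h2⟩ := h
    have h3 := SM_neg (u := u) (k := k) h1 hu0 hu1 hT (by linarith only [h0, hs, h2]) (by linarith only [hr]) (by linarith only [hum, h2])
      (by linarith only [hr, hum']) h0 hs ha' (by
        rw [abs_of_nonpos (show x * μ + (a : ℝ) / 1000 ≤ 0 by linarith only [ha, hb, hab]), abs_le]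
        constructor <;> linarith only [ha, e1, hb, hab])
    have h4 := hf.fl hl hr
    linarith only [h3, h4]

theorem vim (H : Kn y t k) (hr : 75 / 100 ≤ y) : (lv y k).im = 20 * t * (8 / 10 - y) := by
  rw [lv_im, H.r hr]
  ring

/-! ### round `L0` -/

theorem gen0 (cw : runT (rowN 2 (cE p ca cb) e a) T1 (bx 0 20 m0 m1 0 800) = true)
    (cq : runT (rowS (cE p ca cb) e (kQ a) (kQ b') fN0) T2 (bx 20 70 m0 m1 0 750) = true)
    (cr : runT (rowS (cE p ca cb) e (kR a) (kR b) fN0) T3 (bx 20 70 m0 m1 750 800) = true)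
    (H : Kn y t k) (hm : (m0 : ℝ) / 10000 ≤ μ ∧ μ ≤ (m1 : ℝ) / 10000)
    (ha : (a : ℝ) / 1000 ≤ t) (hb : t ≤ (b : ℝ) / 1000) (ha0 : (a : ℝ) ≤ 0)
    (hb0 : 0 ≤ (b' : ℝ)) (hbb : (b : ℝ) ≤ b') (hm0 : -13200 ≤ (m0 : ℝ)) (hm1 : (m1 : ℝ) ≤ 13200)
    (h0 : 0 < x) (h1 : x ≤ 70 / 1000) : (e : ℝ) / 1000 < sd 2 (cR p ca cb x) x μ y k := by
  have hy0 := H.y0
  have hy1 := H.y1
  rcases le_total x (20 / 1000) with hx | hx
  · refine rowW_of cw h0 (by linarith only [hx]) ?_ hm ⟨by push_cast; linarith only [hy0], by push_cast; linarith only [hy1]⟩ hy0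
      (by linarith only [h0, hy1, hx]) (H.q0 ha (B := (b' : ℝ) / 1000) (by linarith only [hb, hbb]) (by linarith only [ha0]) (by linarith only [hb0])).1
    rw [abs_le]
    constructor <;> linarith only [hm, hm0, hm1, hm.1, hm.2]
  · rcases le_total y (75 / 100) with hy | hy
    · exact useQ0 cq H ha (by linarith only [hb, hbb]) ha0 hb0 ⟨by push_cast; linarith only [hx], by push_cast; linarith only [h1]⟩ hm
        ⟨by push_cast; linarith only [hy0], by push_cast; linarith only [hy]⟩ h0 (by linarith only [h0, h1, hy1])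
    · exact useR cr H ha hb hy ⟨by push_cast; linarith only [hx], by push_cast; linarith only [h1]⟩ hm
        ⟨by push_cast; linarith only [hy], by push_cast; linarith only [hy1]⟩ h0 (by linarith only [h0, h1, hy1])

open SR

/-- the shift -/
noncomputable def cS : Cl → ℝ → ℝ
  | .one => cR 2 0 4500
  | _ => cR 1 0 0

/-- window of the slope (in ten thousandths) -/
def wm : Cl → ℤ × ℤ
  | .one => (-7634, -1400)
  | .two => (-4385, 385)
  | .twoE => (-7539, -5846)
  | .three => (-1693, 1693)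
  | .threeE => (-2154, -384)
  | .ring => (-77, 4385)

/-- window of the height of the inner variable (in thousandths) -/
def wt : Cl → ℤ × ℤ
  | .one => (-123, -15)
  | .twoE => (-95, -5)
  | .ring => (-106, 0)
  | _ => (-116, 5)

/-- bounds of the side in the left rounds (in thousandths) -/
def e2 : ℕ → Cl → ℤ
  | 0, .one => -250
  | 0, .two => -100
  | 0, .twoE => 190
  | 0, .three => -50
  | 0, .threeE => 40
  | 0, .ring => 0
  | 1, .one => -440
  | 1, .two => -200
  | 1, .twoE => 190
  | 1, .three => -50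
  | 1, .threeE => 40
  | 1, .ring => 30
  | _, .one => -285
  | _, .two => -200
  | _, .twoE => 190
  | _, .three => -50
  | _, .threeE => 40
  | _, .ring => -100

/-- slope and height windows -/
structure Wd (K : Cl) (μ t : ℝ) : Prop where
  m0 : ((wm K).1 : ℝ) / 10000 ≤ μ
  m1 : μ ≤ ((wm K).2 : ℝ) / 10000
  t0 : ((wt K).1 : ℝ) / 1000 ≤ t
  t1 : t ≤ ((wt K).2 : ℝ) / 1000

/-- **The round `L0`**: no condition on the inner variable. -/
theorem s2_0 {K : Cl} (H : Kn y t k) (W : Wd K μ t) (h0 : 0 < x) (h1 : x ≤ 70 / 1000) :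
    (e2 0 K : ℝ) / 1000 < sd 2 (cS K x) x μ y k := by
  obtain ⟨hm0, hm1, ht0, ht1⟩ := W
  cases K <;> simp only [wm, wt] at hm0 hm1 ht0 ht1 <;> simp only [e2, cS]
  · exact gen0 c1_0w c1_0q c1_0r H ⟨hm0, hm1⟩ ht0 ht1 (by norm_num) (by norm_num) (by norm_num)
      (by norm_num) (by norm_num) h0 h1
  · exact gen0 c2_0w c2_0q c2_0r H ⟨hm0, hm1⟩ ht0 ht1 (by norm_num) (by norm_num) (by norm_num)
      (by norm_num) (by norm_num) h0 h1
  · exact gen0 c2e_0w c2e_0q c2e_0r H ⟨hm0, hm1⟩ ht0 ht1 (by norm_num) (by norm_num) (by norm_num)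
      (by norm_num) (by norm_num) h0 h1
  · exact gen0 c3_0w c3_0q c3_0r H ⟨hm0, hm1⟩ ht0 ht1 (by norm_num) (by norm_num) (by norm_num)
      (by norm_num) (by norm_num) h0 h1
  · exact gen0 c3e_0w c3e_0q c3e_0r H ⟨hm0, hm1⟩ ht0 ht1 (by norm_num) (by norm_num) (by norm_num)
      (by norm_num) (by norm_num) h0 h1
  · exact gen0 cZ_0w cZ_0q cZ_0r H ⟨hm0, hm1⟩ ht0 ht1 (by norm_num) (by norm_num) (by norm_num)
      (by norm_num) (by norm_num) h0 h1

/-! ### round `L1` -/

/-- **The round `L1`**: `7/100 ≤ x ≤ 11/100`. -/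
theorem s2_1 {K : Cl} (H : Kn y t k) (W : Wd K μ t) (hf : Fc u x μ y t k) (hu : VN.U65 u)
    (h0 : 70 / 1000 ≤ x) (h1 : x ≤ 110 / 1000) :
    (e2 1 K : ℝ) / 1000 < sd 2 (cS K x) x μ y k := by
  obtain ⟨hm0, hm1, ht0, ht1⟩ := W
  have hy0 := H.y0
  have hy1 := H.y1
  have hre : (lv y k).re = y := lv_re _ _
  have hwre : (lv x (x * μ)).re = x := lv_re _ _
  have hwim : (lv x (x * μ)).im = x * μ := lv_im _ _
  cases K <;> simp only [wm, wt] at hm0 hm1 ht0 ht1 <;> simp only [e2, cS]
  · rcases le_or_gt y (5 / 100) with hl | hl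
    · exact useL c1_1l H ht0 ht1 hl ⟨by push_cast; linarith only [h0], by push_cast; linarith only [h1]⟩ ⟨hm0, hm1⟩
        ⟨by push_cast; linarith only [hy0], by push_cast; linarith only [hl]⟩ (by linarith only [h0]) (by linarith only [h1, hy1])
    · rcases le_or_gt y (75 / 100) with hr | hr
      · exact useQ c1_1q H ht0 ht1 hl.le hr ⟨by push_cast; linarith only [h0], by push_cast; linarith only [h1]⟩
          ⟨hm0, hm1⟩ ⟨by push_cast; linarith only [hl], by push_cast; linarith only [hr]⟩ (by linarith only [h0]) (by linarith only [h1, hy1])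
      · exfalso
        have g := VN.rr_1 (w := lv x (x * μ)) hu hre (vim H hr.le) hwre hwim h0 (by linarith only [h1, hy1, hr])
          (by push_cast at hm0; linarith only [hm0]) (by push_cast at hm1; linarith only [hm1])
          (by push_cast at ht0; linarith only [ht0]) (by push_cast at ht1; linarith only [ht1]) hr.le (by linarith only [hy1])
        have := hf.fr hr
        linarith only [g, this]
  · rcases le_total y (75 / 100) with hr | hr
    · exact useQ0 c2_1q H ht0 ht1 (by norm_num) (by norm_num)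
        ⟨by push_cast; linarith only [h0], by push_cast; linarith only [h1]⟩ ⟨hm0, hm1⟩
        ⟨by push_cast; linarith only [hy0], by push_cast; linarith only [hr]⟩ (by linarith only [h0]) (by linarith only [h1, hy1])
    · exact useR c2_1r H ht0 ht1 hr ⟨by push_cast; linarith only [h0], by push_cast; linarith only [h1]⟩ ⟨hm0, hm1⟩
        ⟨by push_cast; linarith only [hr], by push_cast; linarith only [hy1]⟩ (by linarith only [h0]) (by linarith only [h1, hy1])
  · rcases le_or_gt y (75 / 100) with hr | hr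
    · exact useQ0 (b' := 0) c2e_1q H ht0 (by push_cast at ht1 ⊢; linarith only [ht1]) (by norm_num)
        (by norm_num) ⟨by push_cast; linarith only [h0], by push_cast; linarith only [h1]⟩ ⟨hm0, hm1⟩
        ⟨by push_cast; linarith only [hy0], by push_cast; linarith only [hr]⟩ (by linarith only [h0]) (by linarith only [h1, hy1])
    · exfalso
      have g := VN.rr_2e (w := lv x (x * μ)) hu hre (vim H hr.le) hwre hwim h0 (by linarith only [h1, hy1, hr])
        (by push_cast at hm0; linarith only [hm0]) (by push_cast at hm1; linarith only [hm1])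
        (by push_cast at ht0; linarith only [ht0]) (by push_cast at ht1; linarith only [ht1]) hr.le (by linarith only [hy1])
      have := hf.fr hr
      linarith only [g, this]
  · rcases le_total y (75 / 100) with hr | hr
    · exact useQ0 c3_1q H ht0 ht1 (by norm_num) (by norm_num)
        ⟨by push_cast; linarith only [h0], by push_cast; linarith only [h1]⟩ ⟨hm0, hm1⟩
        ⟨by push_cast; linarith only [hy0], by push_cast; linarith only [hr]⟩ (by linarith only [h0]) (by linarith only [h1, hy1])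
    · exact useR c3_1r H ht0 ht1 hr ⟨by push_cast; linarith only [h0], by push_cast; linarith only [h1]⟩ ⟨hm0, hm1⟩
        ⟨by push_cast; linarith only [hr], by push_cast; linarith only [hy1]⟩ (by linarith only [h0]) (by linarith only [h1, hy1])
  · rcases le_total y (75 / 100) with hr | hr
    · exact useQ0 c3e_1q H ht0 ht1 (by norm_num) (by norm_num)
        ⟨by push_cast; linarith only [h0], by push_cast; linarith only [h1]⟩ ⟨hm0, hm1⟩
        ⟨by push_cast; linarith only [hy0], by push_cast; linarith only [hr]⟩ (by linarith only [h0]) (by linarith only [h1, hy1])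
    · rcases le_total x (100 / 1000) with hx | hx
      · exact useR c3e_1r H ht0 ht1 hr ⟨by push_cast; linarith only [h0], by push_cast; linarith only [hx]⟩
          ⟨hm0, hm1⟩ ⟨by push_cast; linarith only [hr], by push_cast; linarith only [hy1]⟩ (by linarith only [h0]) (by linarith only [h1, hy1])
      · rcases le_or_gt y (78 / 100) with hs | hs
        · exact useR c3e_1s H ht0 ht1 hr ⟨by push_cast; linarith only [hx], by push_cast; linarith only [h1]⟩
            ⟨hm0, hm1⟩ ⟨by push_cast; linarith only [hr], by push_cast; linarith only [hs]⟩ (by linarith only [hx])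
            (by linarith only [h1, hy1])
        · exfalso
          have g := VN.rr_3e (w := lv x (x * μ)) hu hre (vim H hr) hwre hwim hx (by linarith only [h1])
            (by push_cast at hm0; linarith only [hm0]) (by push_cast at hm1; linarith only [hm1])
            (by push_cast at ht0; linarith only [ht0]) (by push_cast at ht1; linarith only [ht1]) hs.le (by linarith only [hy1])
          have := hf.fr (by linarith only [hs])
          linarith only [g, this]
  · rcases le_total y (75 / 100) with hr | hr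
    · exact useQ0 cZ_1q H ht0 ht1 (by norm_num) (by norm_num)
        ⟨by push_cast; linarith only [h0], by push_cast; linarith only [h1]⟩ ⟨hm0, hm1⟩
        ⟨by push_cast; linarith only [hy0], by push_cast; linarith only [hr]⟩ (by linarith only [h0]) (by linarith only [h1, hy1])
    · exact useR cZ_1r H ht0 ht1 hr ⟨by push_cast; linarith only [h0], by push_cast; linarith only [h1]⟩ ⟨hm0, hm1⟩
        ⟨by push_cast; linarith only [hr], by push_cast; linarith only [hy1]⟩ (by linarith only [h0]) (by linarith only [h1, hy1])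

/-! ### round `L2` -/

/-- the hinge at slot `0` at most `47/100` -/
structure U47 (u : ℂ) (t : ℝ) : Prop where
  u0 : 7 / 100 ≤ u.re
  u1 : u.re ≤ 47 / 100
  t0 : -(1145 / 10000) ≤ u.im
  t1 : u.im ≤ 57 / 1000
  tt : t < -(90 / 1000) → -(98 / 1000) ≤ u.im

theorem U47.u50 (H : U47 u t) : VN.U50 u := ⟨H.u0, by linarith only [H, H.u1], H.t0, H.t1⟩

theorem U47.u65 (H : U47 u t) : VN.U65 u :=
  ⟨H.u0, by linarith only [H, H.u1], fun _ => ⟨H.t0, H.t1⟩, fun h => absurd H.u1 (by linarith only [h])⟩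

/-- end of the range of `x` in the round `L2` -/
def xe : Cl → ℤ
  | .one => 150
  | _ => 130

/-- **The round `L2`**: `11/100 ≤ x`, hinge at slot `0` at most `47/100`. -/
theorem s2_2 {K : Cl} (H : Kn y t k) (W : Wd K μ t) (hf : Fc u x μ y t k) (hu : U47 u t)
    (h0 : 110 / 1000 ≤ x) (h1 : x ≤ (xe K : ℝ) / 1000) :
    (e2 2 K : ℝ) / 1000 < sd 2 (cS K x) x μ y k := by
  obtain ⟨hm0, hm1, ht0, ht1⟩ := W
  have hy0 := H.y0
  have hy1 := H.y1
  have hre : (lv y k).re = y := lv_re _ _
  have hwre : (lv x (x * μ)).re = x := lv_re _ _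
  have hwim : (lv x (x * μ)).im = x * μ := lv_im _ _
  have hT := hu.t0
  cases K <;> simp only [wm, wt] at hm0 hm1 ht0 ht1 <;> simp only [e2, cS] <;>
    simp only [xe] at h1 <;> push_cast at h1
  · have hxm : x * μ ≤ 0 :=
      mul_nonpos_of_nonneg_of_nonpos (by linarith only [h0]) (by push_cast at hm1; linarith only [hm1])
    rcases le_or_gt y (5 / 100) with hl | hl
    · exact useL c1_2l H ht0 ht1 hl ⟨by push_cast; linarith only [h0], by push_cast; linarith only [h1]⟩ ⟨hm0, hm1⟩
        ⟨by push_cast; linarith only [hy0], by push_cast; linarith only [hl]⟩ (by linarith only [h0]) (by linarith only [hy1, h1])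
    · rcases le_or_gt y (75 / 100) with hr | hr
      · have key : ∀ {a b Tm : ℤ} {T : Tr},
            runT (rowS (cE 2 0 4500) (-285) (kQ a) (kQ b) (fF a 47 Tm)) T
              (bx 110 150 (-7634) (-1400) 50 750) = true →
            (a : ℝ) / 1000 ≤ t → t ≤ (b : ℝ) / 1000 → -((Tm : ℝ) / 10000) ≤ u.im →
            (a : ℝ) / 1000 + (b : ℝ) / 1000 ≤ 0 →
            ((-285 : ℤ) : ℝ) / 1000 < sd 2 (cR 2 0 4500 x) x μ y k := by
          intro a b Tm T c h3 h4 h5 h6
          exact useF c H hf h3 h4 hl hr ⟨by push_cast; linarith only [h0], by push_cast; linarith only [h1]⟩ ⟨hm0, hm1⟩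
            ⟨by push_cast; linarith only [hl], by push_cast; linarith only [hr]⟩ (by linarith only [h0]) (by linarith only [hy1, h1]) hu.u0
            (by push_cast; exact hu.u1) (by norm_num) (by norm_num) h5 (by linarith only [hxm, h6])
        rcases lt_or_ge t (-(90 / 1000)) with q | q
        · have hT' := hu.tt q
          have hT2 : -(((980 : ℤ) : ℝ) / 10000) ≤ u.im := by push_cast; linarith only [hT']
          rcases le_total t (-(115 / 1000)) with r | r
          · exact key c1_2q0 ht0 (by push_cast; linarith only [r]) hT2 (by norm_num)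
          · rcases le_total t (-(108 / 1000)) with r | r
            · exact key c1_2q1 (by push_cast; linarith) (by push_cast; linarith only [r]) hT2 (by norm_num)
            · rcases le_total t (-(99 / 1000)) with r | r
              · exact key c1_2q2 (by push_cast; linarith) (by push_cast; linarith only [r]) hT2 (by norm_num)
              · exact key c1_2q3 (by push_cast; linarith only [r]) (by push_cast; linarith only [q]) hT2 (by norm_num)
        · have hT2 : -(((1145 : ℤ) : ℝ) / 10000) ≤ u.im := by push_cast; linarith only [hT]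
          rcases le_total t (-(82 / 1000)) with r | r
          · exact key c1_2q4 (by push_cast; linarith only [q]) (by push_cast; linarith only [r]) hT2 (by norm_num)
          · rcases le_total t (-(74 / 1000)) with r | r
            · exact key c1_2q5 (by push_cast; linarith) (by push_cast; linarith only [r]) hT2 (by norm_num)
            · rcases le_total t (-(66 / 1000)) with r | r
              · exact key c1_2q6 (by push_cast; linarith) (by push_cast; linarith only [r]) hT2 (by norm_num)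
              · rcases le_total t (-(54 / 1000)) with r | r
                · exact key c1_2q7 (by push_cast; linarith) (by push_cast; linarith only [r]) hT2 (by norm_num)
                · rcases le_total t (-(42 / 1000)) with r | r
                  · exact key c1_2q8 (by push_cast; linarith) (by push_cast; linarith only [r]) hT2 (by norm_num)
                  · exact key c1_2q9 (by push_cast; linarith only [r]) ht1 hT2 (by norm_num)
      · exfalso
        have g := VN.rr_1 (w := lv x (x * μ)) hu.u65 hre (vim H hr.le) hwre hwim (by linarith only [h0, hy1, hr])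
          (by linarith only [h1]) (by push_cast at hm0; linarith only [hm0]) (by push_cast at hm1; linarith only [hm1])
          (by push_cast at ht0; linarith only [ht0]) (by push_cast at ht1; linarith only [ht1]) hr.le (by linarith only [hy1])
        have := hf.fr hr
        linarith only [g, this]
  · rcases le_or_gt y (5 / 100) with hl | hl
    · exact useL c2_2l H ht0 ht1 hl ⟨by push_cast; linarith only [h0], by push_cast; linarith only [h1]⟩ ⟨hm0, hm1⟩
        ⟨by push_cast; linarith only [hy0], by push_cast; linarith only [hl]⟩ (by linarith only [h0]) (by linarith only [hy1, h1])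
    · rcases le_or_gt y (75 / 100) with hr | hr
      · exact useQ c2_2q H ht0 ht1 hl.le hr ⟨by push_cast; linarith only [h0], by push_cast; linarith only [h1]⟩
          ⟨hm0, hm1⟩ ⟨by push_cast; linarith only [hl], by push_cast; linarith only [hr]⟩ (by linarith only [h0]) (by linarith only [hy1, h1])
      · exfalso
        have g := VN.rr_r (w := lv x (x * μ)) hu.u50 hre (vim H hr.le) hwre hwim (by linarith only [h0, hy1, hr])
          (by linarith only [h1]) (by push_cast at hm0; linarith only [hm0]) (by push_cast at hm1; linarith only [hy1, hr, hm1])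
          (by push_cast at ht0; linarith only [ht0]) (by push_cast at ht1; linarith only [ht1]) hr.le (by linarith only [hy1])
        have := hf.fr hr
        linarith only [g, this]
  · have hxm : x * μ ≤ 0 :=
      mul_nonpos_of_nonneg_of_nonpos (by linarith only [h0]) (by push_cast at hm1; linarith only [hm1])
    rcases le_or_gt y (5 / 100) with hl | hl
    · exact useL c2e_2l H ht0 ht1 hl ⟨by push_cast; linarith only [h0], by push_cast; linarith only [h1]⟩ ⟨hm0, hm1⟩
        ⟨by push_cast; linarith only [hy0], by push_cast; linarith only [hl]⟩ (by linarith only [h0]) (by linarith only [hy1, h1])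
    · rcases le_or_gt y (75 / 100) with hr | hr
      · exact useF c2e_2q H hf ht0 ht1 hl hr
          ⟨by push_cast; linarith only [h0], by push_cast; linarith only [h1]⟩ ⟨hm0, hm1⟩
          ⟨by push_cast; linarith only [hl], by push_cast; linarith only [hr]⟩ (by linarith only [h0]) (by linarith only [hy1, h1]) hu.u0
          (by push_cast; exact hu.u1) (by norm_num) (by norm_num) (by push_cast; linarith only [hT])
          (by push_cast; linarith only [hxm])
      · exfalso
        have g := VN.rr_2e (w := lv x (x * μ)) hu.u65 hre (vim H hr.le) hwre hwim (by linarith only [h0, hy1, hr])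
          (by linarith only [h1]) (by push_cast at hm0; linarith only [hm0]) (by push_cast at hm1; linarith only [hm1])
          (by push_cast at ht0; linarith only [ht0]) (by push_cast at ht1; linarith only [ht1]) hr.le (by linarith only [hy1])
        have := hf.fr hr
        linarith only [g, this]
  · have hxm : x * μ ≤ 130 / 1000 * (1693 / 10000) := by
      push_cast at hm1
      have h3 : x * μ ≤ x * (1693 / 10000) := mul_le_mul_of_nonneg_left hm1 (by linarith only [h0])
      linarith only [h1, h3]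
    rcases le_or_gt y (5 / 100) with hl | hl
    · exact useL c3_2l H ht0 ht1 hl ⟨by push_cast; linarith only [h0], by push_cast; linarith only [h1]⟩ ⟨hm0, hm1⟩
        ⟨by push_cast; linarith only [hy0], by push_cast; linarith only [hl]⟩ (by linarith only [h0]) (by linarith only [hy1, h1])
    · rcases le_or_gt y (75 / 100) with hr | hr
      · exact useF c3_2q H hf ht0 ht1 hl hr
          ⟨by push_cast; linarith only [h0], by push_cast; linarith only [h1]⟩ ⟨hm0, hm1⟩
          ⟨by push_cast; linarith only [hl], by push_cast; linarith only [hr]⟩ (by linarith only [h0]) (by linarith only [hy1, h1]) hu.u0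
          (by push_cast; exact hu.u1) (by norm_num) (by norm_num) (by push_cast; linarith only [hT])
          (by push_cast; linarith only [hxm])
      · exfalso
        have g := VN.rr_r (w := lv x (x * μ)) hu.u50 hre (vim H hr.le) hwre hwim (by linarith only [h0, hy1, hr])
          (by linarith only [h1]) (by push_cast at hm0; linarith only [hy1, hr, hm0]) (by push_cast at hm1; linarith only [hy1, hr, hm1])
          (by push_cast at ht0; linarith only [ht0]) (by push_cast at ht1; linarith only [ht1]) hr.le (by linarith only [hy1])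
        have := hf.fr hr
        linarith only [g, this]
  · have hxm : x * μ ≤ 0 :=
      mul_nonpos_of_nonneg_of_nonpos (by linarith only [h0]) (by push_cast at hm1; linarith only [hm1])
    rcases le_or_gt y (5 / 100) with hl | hl
    · exact useL c3e_2l H ht0 ht1 hl ⟨by push_cast; linarith only [h0], by push_cast; linarith only [h1]⟩ ⟨hm0, hm1⟩
        ⟨by push_cast; linarith only [hy0], by push_cast; linarith only [hl]⟩ (by linarith only [h0]) (by linarith only [hy1, h1])
    · rcases le_or_gt y (75 / 100) with hr | hr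
      · exact useF c3e_2q H hf ht0 ht1 hl hr
          ⟨by push_cast; linarith only [h0], by push_cast; linarith only [h1]⟩ ⟨hm0, hm1⟩
          ⟨by push_cast; linarith only [hl], by push_cast; linarith only [hr]⟩ (by linarith only [h0]) (by linarith only [hy1, h1]) hu.u0
          (by push_cast; exact hu.u1) (by norm_num) (by norm_num) (by push_cast; linarith only [hT])
          (by push_cast; linarith only [hxm])
      · exfalso
        have g := VN.rr_r (w := lv x (x * μ)) hu.u50 hre (vim H hr.le) hwre hwim (by linarith only [h0, hy1, hr])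
          (by linarith only [h1]) (by push_cast at hm0; linarith only [hy1, hr, hm0]) (by push_cast at hm1; linarith only [hy1, hr, hm1])
          (by push_cast at ht0; linarith only [ht0]) (by push_cast at ht1; linarith only [ht1]) hr.le (by linarith only [hy1])
        have := hf.fr hr
        linarith only [g, this]
  · rcases le_or_gt y (5 / 100) with hl | hl
    · exact useL cZ_2l H ht0 ht1 hl ⟨by push_cast; linarith only [h0], by push_cast; linarith only [h1]⟩ ⟨hm0, hm1⟩
        ⟨by push_cast; linarith only [hy0], by push_cast; linarith only [hl]⟩ (by linarith only [h0]) (by linarith only [hy1, h1])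
    · rcases le_or_gt y (75 / 100) with hr | hr
      · exact useQ cZ_2q H ht0 ht1 hl.le hr ⟨by push_cast; linarith only [h0], by push_cast; linarith only [h1]⟩
          ⟨hm0, hm1⟩ ⟨by push_cast; linarith only [hl], by push_cast; linarith only [hr]⟩ (by linarith only [h0]) (by linarith only [hy1, h1])
      · exfalso
        have g := VN.rr_r (w := lv x (x * μ)) hu.u50 hre (vim H hr.le) hwre hwim (by linarith only [h0, hy1, hr])
          (by linarith only [h1]) (by push_cast at hm0; linarith only [hy1, hr, hm0]) (by push_cast at hm1; linarith only [hm1])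
          (by push_cast at ht0; linarith only [hy1, hr, ht0]) (by push_cast at ht1; linarith only [hy1, hr, ht1]) hr.le (by linarith only [hy1])
        have := hf.fr hr
        linarith only [g, this]

end ML

end Pool.Agent.Work.MP_b30479_gtS.G2

end

section

/-!
# The left rounds: the side of an inner digit `3` at its hinge in the slot `2`
-/

namespace Pool.Agent.Work.MP_b30479_gtS.G2

open Finset VOL Filter Topology

namespace SR

open ML

variable {M : ℕ} {b : Fin (M + 1) → ℤ} {zs : DD (tyW b) ⊕ ZZ (tyW b) → ℂ}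
variable {y : DD (tyW b) ⊕ ZZ (tyW b) → ℝ}
variable {h h' : Fin M} {i j j' : Fin (M + 1)} {p : Fin 3}

/-! ### the inner variable -/

/-- the inner variable of an interior region with three crossings -/
def m3 (b : Fin (M + 1) → ℤ) (hc : clsW b i = .three) :
    {i : Fin (M + 1) // (tyW b i).isMid = true} := ⟨i, tyW_isMid (Or.inl hc)⟩

/-- the height of its path in the own frame -/
noncomputable def t3 (zs : DD (tyW b) ⊕ ZZ (tyW b) → ℂ) (hc : clsW b i = .three) : ℝ :=
  ofs (b i) (zs (.inl (.inr (m3 b hc)))).im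

theorem pp_m3 (hc : clsW b i = .three) :
    (wpar b zs).XM (.inr (m3 b hc)) = 8 / 10 ∧ (wpar b zs).cl (.inr (m3 b hc)) = 5 / 100 ∧
      (wpar b zs).cr (.inr (m3 b hc)) = 5 / 100 := by
  refine ⟨?_, ?_, ?_⟩ <;> simp [wpar, par1, mp, m3, hc]

theorem re_m3 (hc : clsW b i = .three) : (Yw b zs y i 1).re = y (.inl (.inr (m3 b hc))) := by
  have := Yw_mid (zs := zs) (y := y) (m3 b hc)
  change Yw b zs y i 1 = _ at this
  rw [this, ofr_pp_re]

theorem lv_m3 (hc : clsW b i = .three) :
    Yw b zs y i 1 = lv (y (.inl (.inr (m3 b hc)))) (Yw b zs y i 1).im := by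
  apply Complex.ext
  · rw [lv_re, re_m3 hc]
  · rw [lv_im]

/-- the inner variable of a maximiser is on its path -/
theorem kn_m3 (hc : clsW b i = .three) (hy : Mx b zs y) :
    Kn (y (.inl (.inr (m3 b hc)))) (t3 zs hc) (Yw b zs y i 1).im := by
  have r := mid_RH hy (m3 b hc)
  obtain ⟨e1, e2, e3⟩ := pp_m3 (zs := zs) hc
  rw [e1, e2, e3] at r
  have e4 : Yw b zs y (m3 b hc).1 1 = Yw b zs y i 1 := rfl
  have e5 : ofs (b (m3 b hc).1) (zs (.inl (.inr (m3 b hc)))).im = t3 zs hc := rfl
  rw [e4, e5] at r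
  have e6 := re_m3 (zs := zs) (y := y) hc
  have r0 := r.re0
  have r1 := r.reM
  have r2 := r.im
  rw [e6] at r0 r1 r2
  refine ⟨r0, r1, ?_, ?_, ?_⟩
  · intro h1
    rw [r2, tr_a (by norm_num) (by norm_num) (by norm_num) r0 h1]
    ring
  · intro h1 h2
    rw [r2, tr_b (by norm_num) (by norm_num) h1 (by linarith only [hc, h2]), mul_one]
  · intro h1
    rw [r2, tr_c (by norm_num) (by norm_num) (by norm_num) (by linarith only [hc, h1]) r1]
    ring

theorem cl_m3 (A : Adj h i 2 j) (hc : clsW b i = .three) :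
    wcl b h = if clsW b j = .one then 15 / 100 else 13 / 100 := by
  rw [A.cl_eq b, hc, hpp, if_pos rfl]
  rcases hj : clsW b j <;> simp [hp]

/-! ### windows -/

theorem wd_m3 (A : Adj h i 2 j) (A' : Adj h' i 0 j') (hb : ClassW b) (hL : Loc b zs)
    (hX : LocX b zs) (hc : clsW b i = .three) :
    Wd (clsW b j) (ofs (b i) (zs (.inl (.inl h))).im / wcl b h) (t3 zs hc) := by
  obtain ⟨-, -, k1, k2⟩ := A.box hb hL
  obtain ⟨k3, k4, -, -⟩ := hX.mid (tyW_isMid (Or.inl hc)) A' A hc
  have k5 := fun hj => hX.three A hc hj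
  have hcl := cl_m3 A hc
  have e : ofs (b i) (zs (.inl (.inr ⟨i, tyW_isMid (Or.inl hc)⟩))).im = t3 zs hc := rfl
  rw [e] at k3 k4
  have ht : ((wt (clsW b j)).1 : ℝ) / 1000 ≤ t3 zs hc ∧ t3 zs hc ≤ ((wt (clsW b j)).2 : ℝ) / 1000 := by
    rcases hj : clsW b j <;> rcases hj' : clsW b j' <;> rw [hj, hj'] at k3 k4 <;>
      simp only [mw] at k3 k4 <;> simp only [wt] <;> push_cast <;> constructor <;> linarith only [hc, k3, k4]
  have hm : ((wm (clsW b j)).1 : ℝ) / 10000 * wcl b h ≤ ofs (b i) (zs (.inl (.inl h))).im ∧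
      ofs (b i) (zs (.inl (.inl h))).im ≤ ((wm (clsW b j)).2 : ℝ) / 10000 * wcl b h := by
    rw [hcl]
    rw [hc] at k1 k2
    rcases hj : clsW b j <;> rw [hj] at k1 k2 k5 <;> simp only [hbox] at k1 k2 <;>
      simp only [wm] <;> push_cast <;> norm_num at k5 ⊢ <;> constructor <;> linarith only [k1, k2, k5]
  have hp := wcl_pos (b := b) h
  exact ⟨(le_div_iff₀ hp).2 hm.1, (div_le_iff₀ hp).2 hm.2, ht.1, ht.2⟩

/-- height of the hinge in the slot `0` -/
theorem im0_m3 (A' : Adj h' i 0 j') (hb : ClassW b) (hL : Loc b zs) (hy : Mx b zs y)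
    (hc : clsW b i = .three) :
    -(1145 / 10000) ≤ (Yw b zs y i 0).im ∧ (Yw b zs y i 0).im ≤ 57 / 1000 ∧
      (clsW b j' ≠ .one → -(98 / 1000) ≤ (Yw b zs y i 0).im) := by
  obtain ⟨-, -, k1, k2⟩ := A'.box hb hL
  have r := A'.rh hy
  have h0 : 0 ≤ tr 0 (wXM b h') (wcl b h') (wcr b h') (Yw b zs y i 0).re := le_max_left _ _
  have h1 : tr 0 (wXM b h') (wcl b h') (wcr b h') (Yw b zs y i 0).re ≤ 1 :=
    max_le zero_le_one (min_le_left _ _)
  rw [r.im]
  have k3 : -(1145 / 10000) ≤ ofs (b i) (zs (.inl (.inl h'))).im ∧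
      ofs (b i) (zs (.inl (.inl h'))).im ≤ 57 / 1000 ∧
      (clsW b j' ≠ .one → -(98 / 1000) ≤ ofs (b i) (zs (.inl (.inl h'))).im) := by
    rw [hc] at k1 k2
    rcases hj : clsW b j' <;> rw [hj] at k1 k2 <;> simp only [hbox] at k1 k2 <;>
      refine ⟨by linarith only [k1], by linarith only [k2], fun hn => ?_⟩ <;>
      first | exact absurd rfl hn | linarith only [k1]
  obtain ⟨k4, k5, k6⟩ := k3
  generalize tr 0 (wXM b h') (wcl b h') (wcr b h') (Yw b zs y i 0).re = τ at h0 h1
  generalize ofs (b i) (zs (.inl (.inl h'))).im = T at k4 k5 k6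
  refine ⟨?_, ?_, fun hn => ?_⟩
  · exact (scale_bd k4 (le_max_left T 0) (by norm_num) (le_max_right _ _) h0 h1).1
  · exact (scale_bd (min_le_left T 0) k5 (min_le_right _ _) (by norm_num) h0 h1).2
  · exact (scale_bd (k6 hn) (le_max_left T 0) (by norm_num) (le_max_right _ _) h0 h1).1

/-- the side of the region at the hinge in the slot `2`, on the left ramp -/
theorem sd_m3 (A : Adj h i 2 j) (hb : ClassW b) (hy : Mx b zs y)
    (hpos : ∀ h : Fin M, 0 < y (.inl (.inl h))) (hc : clsW b i = .three)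
    (hx : y (.inl (.inl h)) ≤ wcl b h) (c : ℝ) :
    Yw b zs y i 2 = lv (y (.inl (.inl h))) (y (.inl (.inl h)) *
      (ofs (b i) (zs (.inl (.inl h))).im / wcl b h)) ∧
    Sw b zs y i 2 ((zs (.inl (.inl h))).im / wcl b h) +
      c * ofs (b i) ((zs (.inl (.inl h))).im / wcl b h) =
    sd 2 c (y (.inl (.inl h))) (ofs (b i) (zs (.inl (.inl h))).im / wcl b h)
      (y (.inl (.inr (m3 b hc)))) (Yw b zs y i 1).im := by
  have r := A.rh hy
  obtain ⟨g1, g2, g3⟩ := And.intro (wcl_pos (b := b) h) (And.intro (wcr_pos (b := b) h)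
    (w_sum (b := b) h))
  have e := A.re (zs := zs) (y := y)
  have e2 : Yw b zs y i 2 = lv (y (.inl (.inl h))) (y (.inl (.inl h)) *
      (ofs (b i) (zs (.inl (.inl h))).im / wcl b h)) := by
    apply Complex.ext
    · rw [lv_re, e]
    · rw [lv_im, r.im, e, tr_a g1 g2 g3 (by rw [← e]; exact r.re0) hx]
      ring
  refine ⟨e2, ?_⟩
  have K := kn_m3 hc hy
  have hcl : wcl b h ≤ 15 / 100 := by
    rw [cl_m3 A hc]
    split_ifs <;> norm_num
  rw [A.side_three_two hb hc, e2, lv_m3 hc, ofs_div, lv_im]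
  exact S2_sd0 c (hpos h) K.y0 (by linarith only [hc, hx, g1, hcl, K, K.y1])

/-- first-order conditions -/
theorem fc_m3 (A : Adj h i 2 j) (hb : ClassW b) (hy : Mx b zs y)
    (hpos : ∀ h : Fin M, 0 < y (.inl (.inl h))) (hc : clsW b i = .three)
    (hx : y (.inl (.inl h)) ≤ wcl b h) :
    Fc (Yw b zs y i 0) (y (.inl (.inl h))) (ofs (b i) (zs (.inl (.inl h))).im / wcl b h)
      (y (.inl (.inr (m3 b hc)))) (t3 zs hc) (Yw b zs y i 1).im := by
  have e := (sd_m3 A hb hy hpos hc hx 0).1
  have key : 0 < y (.inl (.inr (m3 b hc))) → FOC (Yw b zs y i 1) (t3 zs hc) (8 / 10) (5 / 100)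
      (5 / 100) (fun m => SM m (Yw b zs y i 0) (Yw b zs y i 1) (Yw b zs y i 2)) := by
    intro hm
    have f := mid_fc hb hy hpos (m3 b hc) hm
    obtain ⟨e1, e2, e3⟩ := pp_m3 (zs := zs) hc
    rw [e1, e2, e3] at f
    have e4 : OM b zs y (m3 b hc).1 = fun m => SM m (Yw b zs y i 0) (Yw b zs y i 1)
        (Yw b zs y i 2) := by
      funext m
      exact OM_three hc m
    rw [e4] at f
    exact f
  have e5 := re_m3 (zs := zs) (y := y) hc
  constructor
  · intro h1 h2
    have f := (key (by linarith only [hc, h1])).flat' (by rw [e5]; exact h1) (by rw [e5]; linarith only [hc, h2])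
    rw [← lv_m3 hc, ← e]
    exact f
  · intro h1
    have f := (key (by linarith only [hc, h1])).right' (by rw [e5]; linarith only [hc, h1])
    rw [← lv_m3 hc, ← e]
    have e6 : -(t3 zs hc / (5 / 100)) = -(20 * t3 zs hc) := by ring
    rw [e6] at f
    exact f

/-! ### the rounds -/

/-- **An interior region with three crossings at its hinge in the slot `2`, round `L0`**
(`y ≤ 7/100`). -/
theorem Adj.three2_L0 (A : Adj h i 2 j) (A' : Adj h' i 0 j') (hb : ClassW b) (hL : Loc b zs)
    (hX : LocX b zs) (hy : Mx b zs y) (hpos : ∀ h : Fin M, 0 < y (.inl (.inl h)))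
    (hc : clsW b i = .three) (hx : y (.inl (.inl h)) ≤ 70 / 1000) :
    (e2 0 (clsW b j) : ℝ) / 1000 < Sw b zs y i 2 ((zs (.inl (.inl h))).im / wcl b h) +
      cS (clsW b j) (y (.inl (.inl h))) * ofs (b i) ((zs (.inl (.inl h))).im / wcl b h) := by
  have hcl : y (.inl (.inl h)) ≤ wcl b h := by
    rw [cl_m3 A hc]
    split_ifs <;> linarith only [hx]
  rw [(sd_m3 A hb hy hpos hc hcl _).2]
  exact (s2_0 (kn_m3 hc hy) (wd_m3 A A' hb hL hX hc) (hpos h) hx)

/-- **Round `L1`** (`7/100 ≤ y ≤ 11/100`). -/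
theorem Adj.three2_L1 (A : Adj h i 2 j) (A' : Adj h' i 0 j') (hb : ClassW b) (hL : Loc b zs)
    (hX : LocX b zs) (hy : Mx b zs y) (hpos : ∀ h : Fin M, 0 < y (.inl (.inl h)))
    (hc : clsW b i = .three) (hx : 70 / 1000 ≤ y (.inl (.inl h)))
    (hx' : y (.inl (.inl h)) ≤ 110 / 1000) (hu : 70 / 1000 ≤ y (.inl (.inl h')))
    (hu' : clsW b j' ≠ .one → y (.inl (.inl h')) ≤ 1 / 2) :
    (e2 1 (clsW b j) : ℝ) / 1000 < Sw b zs y i 2 ((zs (.inl (.inl h))).im / wcl b h) +
      cS (clsW b j) (y (.inl (.inl h))) * ofs (b i) ((zs (.inl (.inl h))).im / wcl b h) := by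
  have hcl : y (.inl (.inl h)) ≤ wcl b h := by
    rw [cl_m3 A hc]
    split_ifs <;> linarith only [hx']
  have hU : VN.U65 (Yw b zs y i 0) := by
    have r := A'.rh hy
    have e := A'.re (zs := zs) (y := y)
    obtain ⟨k1, k2, -⟩ := im0_m3 A' hb hL hy hc
    have hw := A'.par b
    refine ⟨by rw [e]; linarith only [hu], ?_, fun _ => ⟨k1, k2⟩, ?_⟩
    · rcases eq_or_ne (clsW b j') .one with h1 | h1
      · have g : wXM b h' = 65 / 100 := by
          rw [A'.XM_eq b, hc, h1, hpp, if_neg (by decide)]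
          simp [hp, hp1]
        have := r.reM
        rwa [g] at this
      · rw [e]
        linarith only [hu', h1, hu' h1]
    · intro h2
      rw [e] at h2
      rcases eq_or_ne (clsW b j') .one with h1 | h1
      · have g : wXM b h' = 65 / 100 ∧ wcl b h' = 13 / 100 ∧ wcr b h' = 15 / 100 := by
          rw [A'.XM_eq b, A'.cl_eq b, A'.cr_eq b, hc, h1, hpp, if_neg (by decide)]
          simp [hp, hp1]
        obtain ⟨-, -, q1, q2⟩ := A'.box hb hL
        rw [hc, h1] at q1 q2
        simp only [hbox] at q1 q2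
        refine ⟨ofs (b i) (zs (.inl (.inl h'))).im, ?_, q1, q2⟩
        rw [r.im, g.1, g.2.1, g.2.2, tr_c (by norm_num) (by norm_num) (by norm_num)
          (by rw [e]; linarith only [h2]) (by rw [← g.1]; exact r.reM)]
      · exact absurd (hu' h1) (not_le.2 h2)
  rw [(sd_m3 A hb hy hpos hc hcl _).2]
  exact (s2_1 (kn_m3 hc hy) (wd_m3 A A' hb hL hX hc) (fc_m3 A hb hy hpos hc hcl) hU hx hx')

/-- **Round `L2`** (`11/100 ≤ y ≤ 13/100`, `15/100` next to a digit `1`); the hinge in the slot `0`
at most `47/100`. -/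
theorem Adj.three2_L2 (A : Adj h i 2 j) (A' : Adj h' i 0 j') (hb : ClassW b) (hL : Loc b zs)
    (hX : LocX b zs) (hy : Mx b zs y) (hpos : ∀ h : Fin M, 0 < y (.inl (.inl h)))
    (hc : clsW b i = .three) (hx : 110 / 1000 ≤ y (.inl (.inl h)))
    (hx' : y (.inl (.inl h)) ≤ (xe (clsW b j) : ℝ) / 1000) (hu : 70 / 1000 ≤ y (.inl (.inl h')))
    (hu' : y (.inl (.inl h')) ≤ 47 / 100) :
    (e2 2 (clsW b j) : ℝ) / 1000 < Sw b zs y i 2 ((zs (.inl (.inl h))).im / wcl b h) +
      cS (clsW b j) (y (.inl (.inl h))) * ofs (b i) ((zs (.inl (.inl h))).im / wcl b h) := by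
  have hcl : y (.inl (.inl h)) ≤ wcl b h := by
    rw [cl_m3 A hc]
    rcases hj : clsW b j <;> rw [hj] at hx' <;> simp only [xe] at hx' <;> push_cast at hx' <;>
      simp <;> linarith only [hx']
  have e := A'.re (zs := zs) (y := y)
  obtain ⟨k1, k2, k3⟩ := im0_m3 A' hb hL hy hc
  have hU : U47 (Yw b zs y i 0) (t3 zs hc) := by
    refine ⟨by rw [e]; linarith only [hu], by rw [e]; exact hu', k1, k2, fun ht => k3 fun h1 => ?_⟩
    obtain ⟨k3, -, -, -⟩ := hX.mid (tyW_isMid (Or.inl hc)) A' A hc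
    have e' : ofs (b i) (zs (.inl (.inr ⟨i, tyW_isMid (Or.inl hc)⟩))).im = t3 zs hc := rfl
    rw [e', h1] at k3
    rcases hj : clsW b j <;> rw [hj] at k3 <;> simp only [mw] at k3 <;> linarith only [hc, ht, k3]
  rw [(sd_m3 A hb hy hpos hc hcl _).2]
  exact (s2_2 (kn_m3 hc hy) (wd_m3 A A' hb hL hX hc) (fc_m3 A hb hy hpos hc hcl) hU hx hx')

end SR

end Pool.Agent.Work.MP_b30479_gtS.G2

end

section

/-!
# `1 | 3 | 2` with the `2` at an end, hinge of `1 | 3` in `(.40, .41]`

The inner variable of the `3` is not low, by its first-order condition.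
-/

set_option deprecated.oldSectionVars true

namespace Pool.Agent.Work.MP_b30479_gtS.G2

open Real VOL NumIs NumIs.E

namespace H2E

/-! ### rows: variables `v`, height `t` of `v`, height `T` of the hinge -/

/-- the side of the inner variable with the last hinge at distance `c / 100` -/
def fE (c : ℤ) (lu : E) : E :=
  sub (sub (add (mul E.pi (sub (sub (q (-98) 1000) (var 2)) (var 1)))
    (E.lnA (add (var 0) (q c 100)) (sub (var 1) (q 98 1000)))) lu) (E.lnA (var 0) (var 1))

/-- the side with the minimum over the height of the last hinge -/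
def fL (lu : E) : E :=
  sub (sub (sub (E.log (sinPi (q 36 100))) (mul E.pi (add (var 2) (mul (q 2 1) (var 1))))) lu)
    (E.lnA (var 0) (var 1))

def luA : E := E.lnA (sub (q 41 100) (var 0)) (sub (var 1) (var 2))
def luB : E := E.lnA (q 5 100) (sub (var 1) (var 2))

/-- the condition of monotonicity -/
def xE : E :=
  sub (E.exp (mul (mul (q 2 1) E.pi) (sub (var 1) (q 98 1000))))
    (cosPi (mul (q 2 1) (add (var 0) (q 13 100))))

def bE (v0 v1 t0 t1 T0 T1 : ℤ) : List V :=
  [V.of 10000 v0 v1 4, V.of 10000 t0 t1 4, V.of 10000 T0 T1 4]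

theorem e0_ok : runT [[fL luA]]
    .a
    (bE 500 650 (-620) (-50) (-1145) (-210)) = true := by decide +kernel

theorem e1a_ok : runT [[fE 13 luA, xE]]
    (.y (.z (.x (.x .a .a) (.x .a .a)) (.x (.x .a .a) (.x .a .a))) (.z (.y (.x (.x .a .a) (.x .a
    .a)) (.x (.x (.x .a .a) .a) (.x .a .a))) (.x (.x (.x .a .a) (.y .a (.z (.x .a .a) (.x .a
    .a)))) (.x (.y .a (.x (.z .a .a) .a)) (.x .a .a)))))
    (bE 650 2850 (-620) (-67) (-920) (-258)) = true := by decide +kernel

theorem e1b_ok : runT [[fE 13 luA, xE]]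
    (.y (.z (.x (.x .a .a) (.x .a .a)) (.x (.x .a .a) (.x .a .a))) (.y (.z (.x (.x .a .a) (.x .a
    .a)) (.x (.x .a .a) (.x .a .a))) (.z (.x (.x .a .a) (.x .a .a)) (.x (.x (.x .a .a) (.x .a .a))
    (.x (.x .a .a) .a)))))
    (bE 650 2850 (-620) (-50) (-1145) (-460)) = true := by decide +kernel

theorem e2_ok : runT [[fE 30 luA]]
    (.x (.y .a (.y .a (.x .a .a))) (.y (.x .a (.z .a .a)) (.z (.y .a .a) (.x .a (.y .a .a)))))
    (bE 2850 3700 (-620) (-50) (-1145) (-210)) = true := by decide +kernel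

theorem e3_ok : runT [[fE 30 luB]]
    (.y (.z .a .a) (.z (.y .a (.z .a .a)) .a))
    (bE 3700 4500 (-620) (-50) (-1145) (-210)) = true := by decide +kernel

set_option deprecated.oldSectionVars false
variable {v t T : ℝ} {c : ℤ}

theorem fE_val (lu : E) {l : ℝ} (hl : lu.val [v, t, T] = l) : (fE c lu).val [v, t, T] =
    π * (-(98 / 1000) - T - t) + NumIs.lnA (v + (c : ℝ) / 100) (t - 98 / 1000) - l - NumIs.lnA v t := by
  simp only [fE, val, lkR_zero, lkR_succ] at hl ⊢
  rw [hl]
  push_cast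
  ring

theorem fL_val (lu : E) {l : ℝ} (hl : lu.val [v, t, T] = l) : (fL lu).val [v, t, T] =
    Real.log (sin (π * (36 / 100))) - π * (T + 2 * t) - l - NumIs.lnA v t := by
  simp only [fL, val, lkR_zero, lkR_succ] at hl ⊢
  rw [hl]
  push_cast
  ring

theorem luA_val : luA.val [v, t, T] = NumIs.lnA (41 / 100 - v) (t - T) := by
  simp only [luA, val, lkR_zero, lkR_succ]
  push_cast
  rfl

theorem luB_val : luB.val [v, t, T] = NumIs.lnA (5 / 100) (t - T) := by
  simp only [luB, val, lkR_zero, lkR_succ]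
  push_cast
  rfl

theorem xE_val : xE.val [v, t, T] =
    Real.exp (2 * π * (t - 98 / 1000)) - cos (π * (2 * (v + 13 / 100))) := by
  simp only [xE, val, lkR_zero, lkR_succ]
  push_cast
  norm_num

theorem use {cs : List (List E)} {Tr' : Tr} {v0 v1 t0 t1 T0 T1 : ℤ}
    (h : runT cs Tr' (bE v0 v1 t0 t1 T0 T1) = true)
    (hv : (v0 : ℝ) / 10000 ≤ v ∧ v ≤ (v1 : ℝ) / 10000)
    (ht : (t0 : ℝ) / 10000 ≤ t ∧ t ≤ (t1 : ℝ) / 10000)
    (hT : (T0 : ℝ) / 10000 ≤ T ∧ T ≤ (T1 : ℝ) / 10000) :
    ∃ c ∈ cs, ∀ e ∈ c, 0 < e.val [v, t, T] :=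
  runT3 (N := 10000) h (by norm_num) (by exact_mod_cast hv.1) (by exact_mod_cast hv.2)
    (by exact_mod_cast ht.1) (by exact_mod_cast ht.2) (by exact_mod_cast hT.1)
    (by exact_mod_cast hT.2)

/-! ### monotonicity -/

theorem lnA_sq_mono {x x' t : ℝ} (h : sin (π * x) ^ 2 ≤ sin (π * x') ^ 2)
    (h0 : 0 < sin (π * x) ^ 2 + sinh (π * t) ^ 2) : NumIs.lnA x t ≤ NumIs.lnA x' t := by
  unfold NumIs.lnA
  apply div_le_div_of_nonneg_right _ (by norm_num)
  apply Real.log_le_log (by positivity)
  linarith only [h]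

theorem sq_mid {x x' : ℝ} (h0 : 0 ≤ x) (h1 : x ≤ x') (h2 : x' ≤ 1 - x) :
    sin (π * x) ^ 2 ≤ sin (π * x') ^ 2 := by
  have hpi := pi_pos
  have h3 : x ≤ 1 / 2 := by linarith only [h1, h2]
  have hs : 0 ≤ sin (π * x) := sin_nonneg_of_nonneg_of_le_pi (by positivity) (by nlinarith only [hpi, h1, h2])
  have := ML.sin_le_of_mid (z0 := π * x) (z := π * x') (by positivity)
    (mul_le_mul_of_nonneg_left h1 hpi.le) (by nlinarith only [h2, hpi]) (by nlinarith only [h1, hpi, h2])
  exact pow_le_pow_left₀ hs this 2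

theorem lnA_mid {x x' t : ℝ} (h0 : 0 < x) (h1 : x ≤ x') (h2 : x' ≤ 1 - x) (_ : x ≤ 1 / 2) :
    NumIs.lnA x t ≤ NumIs.lnA x' t := by
  apply lnA_sq_mono (sq_mid h0.le h1 h2)
  have : 0 < sin (π * x) := sin_pos_of_pos_of_lt_pi (by positivity) (by nlinarith only [h1, h2, pi_pos])
  positivity

theorem lnA_one_sub' (x t : ℝ) : NumIs.lnA (1 - x) t = NumIs.lnA x t := by
  unfold NumIs.lnA
  rw [show π * (1 - x) = π - π * x by ring, sin_pi_sub]

theorem lnA_neg' (x t : ℝ) : NumIs.lnA (-x) t = NumIs.lnA x t := by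
  unfold NumIs.lnA
  rw [mul_neg, sin_neg, neg_sq]

theorem LL_lnA2 (u : ℂ) : LL u = NumIs.lnA u.re u.im := by
  rw [LL_eq', NumIs.lnA]
  have := Num.den_eq u
  unfold MM at this
  congr 2
  linarith only [this]

theorem sinNe_pos {u : ℂ} (h : SinNe u) : 0 < sin (π * u.re) ^ 2 + sinh (π * u.im) ^ 2 := by
  have h1 := cosh_sub_cos_pos h
  have := Num.den_eq u
  unfold MM at this
  linarith only [h1, this]

/-- `LL (v - u)` for `|Re (v - u)| ≤ a` -/
theorem LL_sub_le {u v : ℂ} {a : ℝ} (hs : SinNe (v - u)) (h : |v.re - u.re| ≤ a) (ha : a ≤ 1 / 2) :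
    LL (v - u) ≤ NumIs.lnA a (v.im - u.im) := by
  rw [LL_lnA2, Complex.sub_re, Complex.sub_im]
  have h0 := sinNe_pos hs
  rw [Complex.sub_re, Complex.sub_im] at h0
  refine lnA_sq_mono ?_ h0
  have e : sin (π * (v.re - u.re)) ^ 2 = sin (π * |v.re - u.re|) ^ 2 := by
    rcases abs_choice (v.re - u.re) with h | h <;> rw [h]
    rw [mul_neg, sin_neg, neg_sq]
  rw [e]
  have := abs_nonneg (v.re - u.re)
  exact sq_mid this h (by linarith only [h, ha])

/-- **The inner variable of `3` is not low.** -/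
theorem sm_pos {u v w : ℂ} (hu0 : 40 / 100 ≤ u.re) (hu1 : u.re ≤ 41 / 100)
    (hv0 : 5 / 100 ≤ v.re) (hv1 : v.re ≤ u.re + 4 / 100) (hw0 : 13 / 100 ≤ w.re)
    (hw1 : w.re ≤ 30 / 100) (hwi : -(98 / 1000) ≤ w.im) (ht : -(62 / 1000) ≤ v.im)
    (hT : (v.im ≤ -(67 / 10000) ∧ -(92 / 1000) ≤ u.im ∧ u.im ≤ -(258 / 10000)) ∨
      (v.im ≤ -(5 / 1000) ∧ -(1145 / 10000) ≤ u.im ∧ u.im ≤ -(46 / 1000)))
    (hs : SinNe (v - u)) : 0 < SM 0 u v w := by
  have hpi := pi_pos
  have hv2 : v.im ≤ -(5 / 1000) := by rcases hT with h | h <;> linarith only [h, h.1]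
  have hu2 : -(1145 / 10000) ≤ u.im ∧ u.im ≤ -(21 / 1000) := by
    rcases hT with h | h <;> constructor <;> linarith only [h, h.2.1, h.2.2]
  have e1 : LL (v + w) = NumIs.lnA (v.re + w.re) (v.im + w.im) := by
    rw [LL_lnA2, Complex.add_re, Complex.add_im]
  have e2 : LL v = NumIs.lnA v.re v.im := LL_lnA2 v
  have key : SM 0 u v w = HH (v.re + w.re) (v.im + w.im) 0 - π * u.im - 2 * (π * v.im) -
      LL (v - u) - NumIs.lnA v.re v.im := by
    unfold SM HH
    rw [e1, e2]
    ring
  have hm : ∀ {a : ℝ}, 0 < a → a < 1 → cos (2 * π * a) ≤ Real.exp (2 * π * (v.im - 98 / 1000)) →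
      HH a (v.im - 98 / 1000) 0 ≤ HH a (v.im + w.im) 0 := fun h0 h1 h2 =>
    HH_mono 0 h0 h1 (by linarith only [hwi]) (by linarith only [h2])
  have hH : ∀ a b : ℝ, HH a b 0 = NumIs.lnA a b + π * b := fun a b => by
    unfold HH
    ring
  rcases le_total v.re (65 / 1000) with z0 | z0
  · -- the minimum over the height of the last hinge
    obtain ⟨c, hc, hp⟩ := use e0_ok (v := v.re) (t := v.im) (T := u.im)
      ⟨by push_cast; linarith only [hv0], by push_cast; linarith only [z0]⟩ ⟨by push_cast; linarith only [ht], by push_cast; linarith only [hv2]⟩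
      ⟨by push_cast; linarith only [hu2, hu2.1], by push_cast; linarith only [hu2, hu2.2]⟩
    rw [List.mem_singleton] at hc
    subst hc
    have h1 := hp _ List.mem_cons_self
    rw [fL_val _ luA_val] at h1
    have h2 := LL_sub_le (a := 41 / 100 - v.re) hs (by
      rw [abs_le]
      constructor <;> linarith only [hu1, hu0, z0]) (by linarith only [hv0])
    have h3 : NumIs.lnA (18 / 100) (v.im + w.im) ≤ NumIs.lnA (v.re + w.re) (v.im + w.im) :=
      lnA_mid (by norm_num) (by linarith only [hv0, hw0]) (by linarith only [hu1, hv1, hw1]) (by norm_num)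
    have h4 := HH_low (a := 18 / 100) (v.im + w.im) 0 (by norm_num) (by norm_num)
    have g : g0 0 = 0 := by simp [g0]
    rw [g, show 2 * π * (18 / 100 : ℝ) = π * (36 / 100) by ring] at h4
    rw [hH] at h4
    rw [key, hH]
    linarith only [h1, h2, h3, h4]
  rcases le_total v.re (285 / 1000) with z1 | z1
  · obtain ⟨c, hc, hp⟩ : ∃ c ∈ [[fE 13 luA, xE]], ∀ e ∈ c, 0 < e.val [v.re, v.im, u.im] := by
      rcases hT with h | h
      · exact use e1a_ok ⟨by push_cast; linarith only [z0], by push_cast; linarith only [z1]⟩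
          ⟨by push_cast; linarith only [ht], by push_cast; linarith only [h, h.1]⟩
          ⟨by push_cast; linarith only [h, h.2.1], by push_cast; linarith only [h, h.2.2]⟩
      · exact use e1b_ok ⟨by push_cast; linarith only [z0], by push_cast; linarith only [z1]⟩
          ⟨by push_cast; linarith only [ht], by push_cast; linarith only [hv2, h.1]⟩
          ⟨by push_cast; linarith only [hu2, h.2.1], by push_cast; linarith only [h, h.2.2]⟩
    rw [List.mem_singleton] at hc
    subst hc
    have h1 := hp _ List.mem_cons_self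
    have h0 := hp _ (List.mem_cons_of_mem _ List.mem_cons_self)
    rw [fE_val _ luA_val] at h1
    rw [xE_val] at h0
    push_cast at h1
    have h2 := LL_sub_le (a := 41 / 100 - v.re) hs (by
      rw [abs_le]
      constructor <;> linarith only [hu1, hu0, z1]) (by linarith only [z0])
    have h5 : cos (2 * π * (v.re + w.re)) ≤ cos (π * (2 * (v.re + 13 / 100))) := by
      rcases le_total (v.re + w.re) (1 / 2) with q | q
      · apply cos_le_cos_of_nonneg_of_le_pi
        · apply mul_nonneg hpi.le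
          linarith only [z0]
        · nlinarith only [hpi, q]
        · nlinarith only [hw0, hpi]
      · rw [← cos_two_pi_sub]
        apply cos_le_cos_of_nonneg_of_le_pi
        · apply mul_nonneg hpi.le
          linarith only [hw1, q]
        · nlinarith only [hpi, q]
        · nlinarith only [hw1, hpi, z1]
    have h3 := hm (a := v.re + w.re) (by linarith only [hw0, z0]) (by linarith only [hu1, hv1, hw1]) (by linarith only [h0, h5])
    have h4 : NumIs.lnA (v.re + 13 / 100) (v.im - 98 / 1000) ≤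
        NumIs.lnA (v.re + w.re) (v.im - 98 / 1000) :=
      lnA_mid (by linarith only [z0]) (by linarith only [hw0]) (by linarith only [hw1, z1]) (by linarith only [z1])
    rw [hH] at h3
    rw [key]
    linarith only [h1, h2, h3, h4]
  have hcos : ∀ {a : ℝ}, 1 / 4 ≤ a → a ≤ 3 / 4 →
      cos (2 * π * a) ≤ Real.exp (2 * π * (v.im - 98 / 1000)) := by
    intro a h0 h1
    refine le_trans (cos_nonpos_of_pi_div_two_le_of_le ?_ ?_) (exp_pos _).le
    · nlinarith only [hpi, h0]
    · nlinarith only [hpi, h1]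
  have h3 := hm (a := v.re + w.re) (by linarith only [hw0, z1]) (by linarith only [hu1, hv1, hw1]) (hcos (by linarith only [hw0, z1]) (by linarith only [hu1, hv1, hw1]))
  have h4 : NumIs.lnA (v.re + 30 / 100) (v.im - 98 / 1000) ≤
      NumIs.lnA (v.re + w.re) (v.im - 98 / 1000) := by
    rw [← lnA_one_sub' (v.re + 30 / 100)]
    rcases le_total (1 - (v.re + 30 / 100)) (1 / 2) with q | q
    · exact lnA_mid (by linarith only [hu1, hv1]) (by linarith only [hw0, z1]) (by linarith only [hw1]) q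
    · rw [lnA_one_sub', ← lnA_one_sub' (v.re + w.re)]
      exact lnA_mid (by linarith only [z1, q]) (by linarith only [z1, q]) (by linarith only [z1, q]) (by linarith only [z1, q])
  rw [hH] at h3
  rcases le_total v.re (370 / 1000) with z2 | z2
  · obtain ⟨c, hc, hp⟩ := use e2_ok (v := v.re) (t := v.im) (T := u.im)
      ⟨by push_cast; linarith only [z1], by push_cast; linarith only [z2]⟩ ⟨by push_cast; linarith only [ht], by push_cast; linarith only [hv2]⟩
      ⟨by push_cast; linarith only [hu2, hu2.1], by push_cast; linarith only [hu2, hu2.2]⟩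
    rw [List.mem_singleton] at hc
    subst hc
    have h1 := hp _ List.mem_cons_self
    rw [fE_val _ luA_val] at h1
    push_cast at h1
    have h2 := LL_sub_le (a := 41 / 100 - v.re) hs (by
      rw [abs_le]
      constructor <;> linarith only [hu1, hu0, z2]) (by linarith only [z1])
    rw [key]
    linarith only [h3, h4, h1, h2]
  · obtain ⟨c, hc, hp⟩ := use e3_ok (v := v.re) (t := v.im) (T := u.im)
      ⟨by push_cast; linarith only [z2], by push_cast; linarith only [hu1, hv1]⟩ ⟨by push_cast; linarith only [ht], by push_cast; linarith only [hv2]⟩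
      ⟨by push_cast; linarith only [hu2, hu2.1], by push_cast; linarith only [hu2, hu2.2]⟩
    rw [List.mem_singleton] at hc
    subst hc
    have h1 := hp _ List.mem_cons_self
    rw [fE_val _ luB_val] at h1
    push_cast at h1
    have h2 := LL_sub_le (a := 5 / 100) hs (by
      rw [abs_le]
      constructor <;> linarith only [hu1, z2, hv1]) (by norm_num)
    rw [key]
    linarith only [h3, h4, h1, h2]

end H2E

namespace SR

open H2E

set_option deprecated.oldSectionVars false
variable {M : ℕ} {b : Fin (M + 1) → ℤ} {zs : DD (tyW b) ⊕ ZZ (tyW b) → ℂ}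
set_option deprecated.oldSectionVars false
variable {y : DD (tyW b) ⊕ ZZ (tyW b) → ℝ} {h h' h2 : Fin M} {i j k r : Fin (M + 1)}

/-- **`1 | 3 | 2` with the `2` at an end**, hinge of `1 | 3` in `[.40, .41]`: the inner variable is
not low. -/
theorem s0_one_mid_twoE (hb : ClassW b) (hL : Loc b zs) (hX : LocX b zs) (hO : LocM2 b zs)
    (hy : IsMx (wdat (tyW b) b) (wpar b zs) zs y) (hpos : ∀ h : Fin M, 0 < y (.inl (.inl h)))
    (A : Adj h i 0 j) (A' : Adj h' i 2 k) (hi : clsW b i = .three) (hj : clsW b j = .one)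
    (hk : clsW b k = .twoE) (hw : 13 / 100 ≤ y (.inl (.inl h')))
    (hw' : y (.inl (.inl h')) ≤ 30 / 100) (hx : 40 / 100 ≤ y (.inl (.inl h)))
    (hx' : y (.inl (.inl h)) ≤ 41 / 100) :
    y (.inl (.inl h)) + 4 / 100 < (OY b zs y i 1).re := by
  by_contra hcon
  push Not at hcon
  have hty : tyW b i ≠ .ring := by
    rw [tyW_of_three hi]
    decide
  rw [OY_one hty] at hcon
  have hgt := mid_gt hb hL hX hy A A' hi (by rw [hj]; simp only [VL.cpL]; linarith only [hx'])
    (by rw [hk]; simp only [VL.cpR]; linarith only [hw'])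
  have hre : (Yw b zs y i 1).re = y (.inl (.inr (mT b hi))) := re_m3 hi
  have hm0 : 5 / 100 < (Yw b zs y i 1).re := by rw [hre]; exact hgt
  -- first-order condition
  have f := mid_fc hb hy hpos (m3 b hi) (by
    change 0 < y (.inl (.inr (mT b hi)))
    linarith only [hi, hgt])
  obtain ⟨e1, e2, e3⟩ := pp_m3 (zs := zs) hi
  rw [e1, e2, e3] at f
  have e4 : OM b zs y (m3 b hi).1 = fun m => SM m (Yw b zs y i 0) (Yw b zs y i 1)
      (Yw b zs y i 2) := by
    funext m
    exact OM_three hi m
  rw [e4] at f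
  have hle : (Yw b zs y i 1).re < 8 / 10 - 5 / 100 := by linarith only [hx', hcon]
  have f0 : SM 0 (Yw b zs y i 0) (Yw b zs y i 1) (Yw b zs y i 2) ≤ 0 :=
    f.flat (by exact hm0.le) (by exact hle)
  have hs := (sinNe_three hi hy hpos (by linarith only [hi, hgt])).2
  -- heights
  have K := kn_m3 hi hy
  have hvi : (Yw b zs y i 1).im = t3 zs hi := by
    refine K.m hgt.le ?_
    rw [← re_m3 (zs := zs) (y := y) hi]
    linarith only [hx', hcon]
  obtain ⟨h2, r, A3⟩ := A.symm.other_one hb hj
  have A4 : Adj h2 j 0 r := A3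
  obtain ⟨q1, q2, q3⟩ := A.par_s0_one hi hj
  have hui : (Yw b zs y i 0).im = ofs (b i) (zs (.inl (.inl h))).im :=
    A.h65f hy q1 q2 q3 (by linarith only [hx]) (by linarith only [hx'])
  have hur : (Yw b zs y i 0).re = y (.inl (.inl h)) := A.re
  have hwr : (Yw b zs y i 2).re = y (.inl (.inl h')) := A'.re
  have hwi : -(98 / 1000) ≤ (Yw b zs y i 2).im := by
    obtain ⟨-, -, k1, k2⟩ := A'.box hb hL
    rw [hi, hk] at k1 k2
    simp only [hbox] at k1 k2
    have R := A'.rh hy
    rw [R.im]
    have t0 : 0 ≤ tr 0 (wXM b h') (wcl b h') (wcr b h') (Yw b zs y i 2).re := le_max_left _ _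
    have t1 : tr 0 (wXM b h') (wcl b h') (wcr b h') (Yw b zs y i 2).re ≤ 1 :=
      max_le zero_le_one (min_le_left _ _)
    generalize tr 0 (wXM b h') (wcl b h') (wcr b h') (Yw b zs y i 2).re = τ at t0 t1
    generalize ofs (b i) (zs (.inl (.inl h'))).im = T at k1 k2
    nlinarith only [t1, t0, k1]
  have hT : -(1145 / 10000) ≤ ofs (b i) (zs (.inl (.inl h))).im ∧
      ofs (b i) (zs (.inl (.inl h))).im ≤ -(21 / 1000) := by
    obtain ⟨-, -, k1, k2⟩ := A.box hb hL
    rw [hi, hj] at k1 k2
    simp only [hbox] at k1 k2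
    constructor <;> linarith only [k1, k2]
  obtain ⟨k3, k4, -, -⟩ := hX.mid (tyW_isMid (Or.inl hi)) A A' hi
  have e' : ofs (b i) (zs (.inl (.inr ⟨i, tyW_isMid (Or.inl hi)⟩))).im = t3 zs hi := rfl
  rw [e', hj, hk] at k3 k4
  simp only [mw] at k3 k4
  have main : (t3 zs hi ≤ -(67 / 10000) ∧ -(92 / 1000) ≤ ofs (b i) (zs (.inl (.inl h))).im ∧
      ofs (b i) (zs (.inl (.inl h))).im ≤ -(258 / 10000)) ∨
      (t3 zs hi ≤ -(5 / 1000) ∧ -(1145 / 10000) ≤ ofs (b i) (zs (.inl (.inl h))).im ∧
      ofs (b i) (zs (.inl (.inl h))).im ≤ -(46 / 1000)) := by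
    have hop := A.opp hb (Or.inl (by rw [hi]; decide))
    have hTj : ofs (b j) (zs (.inl (.inl h))).im = -ofs (b i) (zs (.inl (.inl h))).im :=
      ofs_opp hop _
    obtain ⟨w1, w2, -, -⟩ := hX.win A.symm A4 hj
    rw [hi] at w1 w2
    have hok := okp_of hb A.symm A4 hj
    rw [hi] at hok
    rcases hok with hok | hok
    · simp at hok
    rcases hok with hr | hr | hr
    · left
      have := hO.one (tyW_isMid (Or.inl hi)) A A' A4 hi hj hr
      rw [hk] at this
      obtain ⟨-, g2, -, -, g5, g6⟩ := this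
      rw [e'] at g2
      simp only [mw3] at g2 g5 g6
      exact ⟨g2, by linarith only [g5], g6⟩
    · right
      rw [hr] at w1 w2
      simp only [cw] at w1 w2
      exact ⟨k4, hT.1, by linarith only [hTj, w1]⟩
    · right
      rw [hr] at w1 w2
      simp only [cw] at w1 w2
      exact ⟨k4, hT.1, by linarith only [hTj, w1]⟩
  have := sm_pos (u := Yw b zs y i 0) (v := Yw b zs y i 1) (w := Yw b zs y i 2)
    (by rw [hur]; exact hx) (by rw [hur]; exact hx') hm0.le (by rw [hur]; exact hcon)
    (by rw [hwr]; exact hw) (by rw [hwr]; exact hw') hwi (by rw [hvi]; exact k3)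
    (by rw [hvi, hui]; exact main) hs
  linarith only [f0, this]

/-- **`1 | 3 | 2` with the `2` at an end**, hinge of `1 | 3` in `[.40, .60]`, floors of the round
`L2`: the inner variable is not low. -/
theorem s0_mid_twoE (hb : ClassW b) (hL : Loc b zs) (hX : LocX b zs) (hO : LocM2 b zs)
    (hy : Mx b zs y) (hpos : ∀ h : Fin M, 0 < y (.inl (.inl h))) (hF : Flr b y F2)
    (hS : Sum1 b y (95 / 100)) (A : Adj h i 0 j) (A' : Adj h' i 2 k) (hi : clsW b i = .three)
    (hj : clsW b j = .one) (hk : clsW b k = .twoE) (hw : y (.inl (.inl h')) ≤ 30 / 100)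
    (hx : 40 / 100 ≤ y (.inl (.inl h))) (hx' : y (.inl (.inl h)) ≤ 60 / 100) :
    y (.inl (.inl h)) + 4 / 100 < (OY b zs y i 1).re := by
  rcases le_total (y (.inl (.inl h))) (41 / 100) with h1 | h1
  · refine s0_one_mid_twoE hb hL hX hO hy hpos A A' hi hj hk ?_ hw hx h1
    have := hF A'
    rw [hi, hk] at this
    simp only [F2, if_true] at this
    linarith only [this]
  · have hF1 : Flr b y F1 := by
      intro h i j p A
      exact (F1_le A.slot _ _).trans (hF A)
    exact s0_one_mid hb hL hX hy hF1 hS A A' hi hj (hw.trans (by norm_num)) h1 hx'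

end SR

end Pool.Agent.Work.MP_b30479_gtS.G2

end

section

/-!
# The left rounds: the side of an inner digit `3` at its hinge in the slot `2`, form of the rounds
-/

namespace Pool.Agent.Work.MP_b30479_gtS.G2

open Finset VOL Filter Topology

namespace SR

open ML

variable {M : ℕ} {b : Fin (M + 1) → ℤ} {zs : DD (tyW b) ⊕ ZZ (tyW b) → ℂ}
variable {y : DD (tyW b) ⊕ ZZ (tyW b) → ℝ}
variable {h h' : Fin M} {i j j' : Fin (M + 1)} {p : Fin 3}

theorem shL_cS (B : Cl) (x : ℝ) : shL .three B x = cS B x := by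
  rcases eq_or_ne B .one with rfl | h
  · simp only [shL, sh1, cS, cR]
    rw [if_neg (by decide), if_pos trivial]
    push_cast
    ring
  · have e : shL .three B x = Real.pi / 2 := by
      unfold shL
      rw [if_neg (by decide), if_neg h]
    rw [e]
    cases B <;> first
      | exact absurd rfl h
      | (simp only [cS, cR]; push_cast; ring)

/-- slot `2` of an interior region with three crossings, round `L0` -/
theorem three_side2_0 (hb : ClassW b) (hL : Loc b zs) (hX : LocX b zs) (hy : Mx b zs y)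
    (hpos : ∀ h : Fin M, 0 < y (.inl (.inl h))) (A : Adj h i 2 j) (hc : clsW b i = .three)
    (hx : y (.inl (.inl h)) < F0 2 .three (clsW b j)) :
    (e2 0 (clsW b j) : ℝ) / 1000 < Sw b zs y i 2 ((zs (.inl (.inl h))).im / wcl b h) +
      shL .three (clsW b j) (y (.inl (.inl h))) * ofs (b i) ((zs (.inl (.inl h))).im / wcl b h) := by
  obtain ⟨h', j', A'⟩ := A.other' b (clsW_inner hb (Or.inr (Or.inr hc)))
  rw [shL_cS]
  refine A.three2_L0 A' hb hL hX hy hpos hc ?_
  refine hx.le.trans ?_
  cases clsW b j <;> norm_num [F0]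

/-- slot `2` of an interior region with three crossings, round `L1` -/
theorem three_side2_1 (hb : ClassW b) (hL : Loc b zs) (hX : LocX b zs) (hy : Mx b zs y)
    (hpos : ∀ h : Fin M, 0 < y (.inl (.inl h))) (hF : Flr b y F0)
    (hC : ∀ {h : Fin M} {i j : Fin (M + 1)}, Adj h i 0 j → clsW b i = .three →
      clsW b j ≠ .one → y (.inl (.inl h)) ≤ 1 / 2) (A : Adj h i 2 j) (hc : clsW b i = .three)
    (hx : y (.inl (.inl h)) < F1 2 .three (clsW b j)) :
    (e2 1 (clsW b j) : ℝ) / 1000 < Sw b zs y i 2 ((zs (.inl (.inl h))).im / wcl b h) +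
      shL .three (clsW b j) (y (.inl (.inl h))) * ofs (b i) ((zs (.inl (.inl h))).im / wcl b h) := by
  obtain ⟨h', j', A'⟩ := A.other' b (clsW_inner hb (Or.inr (Or.inr hc)))
  have g1 := hF A
  have g2 := hF A'
  rw [hc] at g1 g2
  rw [shL_cS]
  refine A.three2_L1 A' hb hL hX hy hpos hc ?_ ?_ ?_ fun h1 => hC A' hc h1
  · refine le_trans ?_ g1
    cases clsW b j <;> norm_num [F0]
  · refine hx.le.trans ?_
    cases clsW b j <;> simp only [F1, if_true] <;> norm_num
  · refine le_trans ?_ g2
    cases clsW b j' <;> norm_num [F0]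

/-- slot `2` of an interior region with three crossings, round `L2` -/
theorem three_side2_2 (hb : ClassW b) (hL : Loc b zs) (hX : LocX b zs) (hy : Mx b zs y)
    (hpos : ∀ h : Fin M, 0 < y (.inl (.inl h))) (hF : Flr b y F1)
    (hC : ∀ {h : Fin M} {i j : Fin (M + 1)}, Adj h i 0 j → clsW b i = .three →
      y (.inl (.inl h)) ≤ 47 / 100) (A : Adj h i 2 j) (hc : clsW b i = .three)
    (hx : y (.inl (.inl h)) < F2 2 .three (clsW b j)) :
    (e2 2 (clsW b j) : ℝ) / 1000 < Sw b zs y i 2 ((zs (.inl (.inl h))).im / wcl b h) +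
      shL .three (clsW b j) (y (.inl (.inl h))) * ofs (b i) ((zs (.inl (.inl h))).im / wcl b h) := by
  obtain ⟨h', j', A'⟩ := A.other' b (clsW_inner hb (Or.inr (Or.inr hc)))
  have g1 := hF A
  have g2 := hF A'
  rw [hc] at g1 g2
  rw [shL_cS]
  refine A.three2_L2 A' hb hL hX hy hpos hc ?_ ?_ ?_ (hC A' hc)
  · refine le_trans ?_ g1
    cases clsW b j <;> simp only [F1, if_true] <;> norm_num
  · refine hx.le.trans ?_
    cases clsW b j <;> simp only [F2, xe, if_true] <;> norm_num
  · refine le_trans ?_ g2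
    cases clsW b j' <;> simp only [F1] <;> (try split_ifs) <;> norm_num

end SR

end Pool.Agent.Work.MP_b30479_gtS.G2

end

section

/-!
# The sides of the interior regions with three crossings in the left rounds
-/

namespace Pool.Agent.Work.MP_b30479_gtS.G2

open Finset VOL Filter Topology

namespace SR

open ML

variable {M : ℕ} {b : Fin (M + 1) → ℤ} {zs : DD (tyW b) ⊕ ZZ (tyW b) → ℂ}
variable {y : DD (tyW b) ⊕ ZZ (tyW b) → ℝ}
variable {h h' h1 h2 : Fin M} {i j j' j1 j2 k : Fin (M + 1)} {p : Fin 3}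

/-- the caps on the hinges at the slot `2` of the interior regions with three crossings -/
def Cap3 (b : Fin (M + 1) → ℤ) (y : DD (tyW b) ⊕ ZZ (tyW b) → ℝ) : Prop :=
  ∀ {h : Fin M} {i k : Fin (M + 1)}, Adj h i 2 k → clsW b i = .three →
    y (.inl (.inl h)) ≤ VL.cpR (clsW b k)

theorem e3T_two {n : ℕ} (hn : n ≤ 2) (B : Cl) : e3T n 2 B ≤ (e2 n B : ℝ) / 1000 := by
  interval_cases n <;> cases B <;> norm_num [e3T, e2]

/-- the sides at the slot `0` -/
theorem threeSd_zero (hb : ClassW b) (H : LocA b zs) (hy : Mx b zs y)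
    (hpos : ∀ h : Fin M, 0 < y (.inl (.inl h))) (hw : Cap3 b y) {n : ℕ}
    (A : Adj h i 0 j) (hc : clsW b i = .three) (hx : y (.inl (.inl h)) ≤ wcl b h)
    (h7 : n = 0 → y (.inl (.inl h)) ≤ 7 / 100) :
    e3T n 0 (clsW b j) < Sw b zs y i 0 ((zs (.inl (.inl h))).im / wcl b h) +
      shL .three (clsW b j) (y (.inl (.inl h))) * ofs (b i) ((zs (.inl (.inl h))).im / wcl b h) := by
  obtain ⟨h', k, A'⟩ := A.other' b (clsW_inner hb (Or.inr (Or.inr hc)))
  have := three_side0 hb H.L H.X hy hpos A A' hc hx (hw A' hc)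
  rw [shL_cS]
  by_cases h1 : clsW b j = .one
  · obtain ⟨u1, u2⟩ := this.2 h1
    rw [h1]
    have e : cS .one (y (.inl (.inl h))) = Real.pi - 9 / 2 * y (.inl (.inl h)) := by
      simp only [cS, cR]
      push_cast
      ring
    rw [e]
    rcases Nat.eq_zero_or_pos n with h0 | h0
    · subst h0
      refine lt_of_le_of_lt ?_ (u1 (h7 rfl))
      simp only [e3T]
      rw [if_neg (by decide), if_pos trivial]
      norm_num
    · refine lt_of_le_of_lt ?_ u2
      simp only [e3T]
      rw [if_neg (by decide), if_neg h0.ne']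
  · have e : cS (clsW b j) (y (.inl (.inl h))) = Real.pi / 2 := by
      rw [← shL_cS, shL_of_ne (by decide) h1]
    rw [e]
    refine lt_of_le_of_lt ?_ (this.1 h1)
    have e2 : ((0 : Fin 3) = 2) ↔ False := by decide
    rcases hj : clsW b j with _ | _ | _ | _ | _ | _ <;>
      first | exact absurd hj h1 | (simp only [e3T, e2, if_false, VL.S0.eT]; norm_num)

/-- **The round `L0`.** -/
theorem threeSd_0 (hb : ClassW b) (H : LocA b zs) (hy : Mx b zs y)
    (hpos : ∀ h : Fin M, 0 < y (.inl (.inl h))) (hw : Cap3 b y) : ThreeSd b zs y 0 F0 := by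
  intro h i j p A hc hx
  have h7 : y (.inl (.inl h)) < 7 / 100 := by
    refine hx.trans_le ?_
    cases clsW b j <;> simp only [F0] <;> norm_num
  rcases A.slot with rfl | rfl
  · refine threeSd_zero hb H hy hpos hw A hc ?_ fun _ => h7.le
    have := (F0_wcl (b := b) h)
    rw [← A.tab F0_sym b, hc] at this
    exact (hx.trans_le this).le
  · exact (e3T_two (by norm_num) _).trans_lt (three_side2_0 hb H.L H.X hy hpos A hc hx)

/-- **The round `L1`.** -/
theorem threeSd_1 (hb : ClassW b) (H : LocA b zs) (hy : Mx b zs y)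
    (hpos : ∀ h : Fin M, 0 < y (.inl (.inl h))) (hw : Cap3 b y) (hF : Flr b y F0)
    (hu : ∀ {h : Fin M} {i j : Fin (M + 1)}, Adj h i 0 j → clsW b i = .three → clsW b j ≠ .one →
      y (.inl (.inl h)) ≤ 1 / 2) : ThreeSd b zs y 1 F1 := by
  intro h i j p A hc hx
  rcases A.slot with rfl | rfl
  · refine threeSd_zero hb H hy hpos hw A hc ?_ fun h0 => absurd h0 (by norm_num)
    have := (F1_wcl (b := b) h)
    rw [← A.tab F1_sym b, hc] at this
    exact (hx.trans_le this).le
  · exact (e3T_two (by norm_num) _).trans_lt (three_side2_1 hb H.L H.X hy hpos hF hu A hc hx)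

/-- **The round `L2`.** -/
theorem threeSd_2 (hb : ClassW b) (H : LocA b zs) (hy : Mx b zs y)
    (hpos : ∀ h : Fin M, 0 < y (.inl (.inl h))) (hw : Cap3 b y) (hF : Flr b y F1)
    (hu : ∀ {h : Fin M} {i j : Fin (M + 1)}, Adj h i 0 j → clsW b i = .three →
      y (.inl (.inl h)) ≤ 47 / 100) : ThreeSd b zs y 2 F2 := by
  intro h i j p A hc hx
  rcases A.slot with rfl | rfl
  · refine threeSd_zero hb H hy hpos hw A hc ?_ fun h0 => absurd h0 (by norm_num)
    have := (F2_wcl (b := b) h)
    rw [← A.tab F2_sym b, hc] at this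
    exact (hx.trans_le this).le
  · exact (e3T_two (by norm_num) _).trans_lt (three_side2_2 hb H.L H.X hy hpos hF hu A hc hx)

end SR

end Pool.Agent.Work.MP_b30479_gtS.G2

end

section

/-!
# The caps at the slots `2` of the interior regions with three crossings, without floors
-/

namespace Pool.Agent.Work.MP_b30479_gtS.G2

open Finset VOL Filter Topology

namespace SR

variable {M : ℕ} {b : Fin (M + 1) → ℤ} {zs : DD (tyW b) ⊕ ZZ (tyW b) → ℂ}
variable {y : DD (tyW b) ⊕ ZZ (tyW b) → ℝ}
variable {h h' h1 h2 : Fin M} {i j j' j1 j2 k l : Fin (M + 1)} {p : Fin 3}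

theorem Adj.val_two (A : Adj h i 2 j) : i.val = h.val ∧ j.val = h.val + 1 := by
  generalize hp : (2 : Fin 3) = q at A
  cases A
  · exact ⟨rfl, rfl⟩
  · exact absurd hp (by decide)

/-- **The caps at the slots `2`**, by induction from the right. -/
theorem cap3_of (hb : ClassW b) (H : LocA b zs) (hy : Mx b zs y)
    (hpos : ∀ h : Fin M, 0 < y (.inl (.inl h)))
    (c33 : ∀ {h h' : Fin M} {i k l : Fin (M + 1)}, Adj h i 2 k → Adj h' k 2 l →
      clsW b i = .three → clsW b k = .three → y (.inl (.inl h')) ≤ VL.cpR (clsW b l) →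
      y (.inl (.inl h)) ≤ VL.cpR .three)
    (c3E : ∀ {h : Fin M} {i k : Fin (M + 1)}, Adj h i 2 k → clsW b i = .three →
      clsW b k = .threeE → y (.inl (.inl h)) ≤ VL.cpR .threeE)
    (c3Z : ∀ {h : Fin M} {i k : Fin (M + 1)}, Adj h i 2 k → clsW b i = .three →
      clsW b k = .ring → y (.inl (.inl h)) ≤ VL.cpR .ring) : Cap3 b y := by
  have key : ∀ (n : ℕ) {h : Fin M} {i k : Fin (M + 1)}, M - h.val ≤ n → Adj h i 2 k →
      clsW b i = .three → y (.inl (.inl h)) ≤ VL.cpR (clsW b k) := by
    intro n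
    induction n with
    | zero =>
      intro h i k hn
      have := h.2
      omega
    | succ n ih =>
      intro h i k hn A hi
      rcases hk : clsW b k with _ | _ | _ | _ | _ | _
      · obtain ⟨h', l, B⟩ := A.symm.other_one hb hk
        have := cap_three_one A B hb H.L H.X hy (hpos h) hi hk
        refine this.trans ?_
        cases clsW b l <;> norm_num [cap31, VL.cpR]
      · have := cap_three_two A hb H.L H.X hy (hpos h) hi hk
        norm_num [VL.cpR] at this ⊢
        linarith
      · have := cap_three_twoE A hb H.L H.X hy (hpos h) hi hk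
        norm_num [VL.cpR] at this ⊢
        linarith
      · obtain ⟨h', l, B⟩ := A.symm.other' b (clsW_inner hb (Or.inr (Or.inr hk)))
        have B' : Adj h' k 2 l := B
        refine c33 A B' hi hk (ih ?_ B' hk)
        have e1 := A.val_two
        have e2 := B'.val_two
        have := h'.2
        omega
      · exact c3E A hi hk
      · exact c3Z A hi hk
  intro h i k A hi
  exact key _ le_rfl A hi

end SR

end Pool.Agent.Work.MP_b30479_gtS.G2

end
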