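import Pool.Agent.Work.MP_b30479_gt.TBS.G2.MLevB
import Pool.Agent.Work.MP_b30479_gt.TBS.G2.WPush2
import Pool.Agent.Work.MP_b30479_gt.TBS.G2.TReg
import Pool.Agent.Work.MP_b30479_gt.TBS.G2.WExcZ
import Pool.Agent.Work.MP_b30479_gt.TBS.G2.RMon
import Pool.Agent.Work.MP_b30479_gt.TBS.G2.ML3j_1
import Pool.Agent.Work.MP_b30479_gt.TBS.G2.WLocF
import Pool.Agent.Work.MP_b30479_gt.TBS.G2.WMainS

section

/-!
# Push of a hinge `1 | 1` to the right of `1/2`

With `z = tan ^ 2 (π x / 2)` and `P` the product of the tangents of the half angles of the two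
hinges of the digit, everything is a rational function of `z` and `P`.
-/

namespace Pool.Agent.Work.MP_b30479_gtS.G2

open Real Set VOL NumIs NumIs.E

namespace MR

/-- tangent of the half angle -/
noncomputable def ht (x : ℝ) : ℝ := tan (π * x / 2)

theorem ht_pos {x : ℝ} (h0 : 0 < x) (h1 : x < 1) : 0 < ht x := by
  have hp := pi_pos
  exact tan_pos_of_pos_of_lt_pi_div_two (by positivity) (by nlinarith only [h1, hp])

theorem cos_half_pos {x : ℝ} (h0 : 0 < x) (h1 : x < 1) : 0 < cos (π * x / 2) := by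
  have hp := pi_pos
  exact cos_pos_of_mem_Ioo ⟨by nlinarith only [hp, h0], by nlinarith only [h1, hp]⟩

theorem sin_ht {x : ℝ} (h0 : 0 < x) (h1 : x < 1) : sin (π * x) = 2 * ht x / (1 + ht x ^ 2) := by
  have hc := cos_half_pos h0 h1
  have e : π * x = 2 * (π * x / 2) := by ring
  have h2 := sin_sq_add_cos_sq (π * x / 2)
  unfold ht
  rw [e, sin_two_mul, ← e, tan_eq_sin_div_cos]
  set s := sin (π * x / 2)
  set c := cos (π * x / 2)
  have h3 : 1 + (s / c) ^ 2 = 1 / c ^ 2 := by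
    field_simp
    linarith only [h2]
  rw [h3]
  field_simp

theorem cos_ht {x : ℝ} (h0 : 0 < x) (h1 : x < 1) :
    cos (π * x) = (1 - ht x ^ 2) / (1 + ht x ^ 2) := by
  have hc := cos_half_pos h0 h1
  have e : π * x = 2 * (π * x / 2) := by ring
  have h2 := sin_sq_add_cos_sq (π * x / 2)
  unfold ht
  rw [e, cos_two_mul, ← e, tan_eq_sin_div_cos]
  set s := sin (π * x / 2)
  set c := cos (π * x / 2)
  have h3 : 1 + (s / c) ^ 2 = 1 / c ^ 2 := by
    field_simp
    linarith only [h2]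
  rw [h3]
  field_simp
  linarith only [h2]

theorem sin_add_ht {x y : ℝ} (h0 : 0 < x) (h1 : x < 1) (h0' : 0 < y) (h1' : y < 1) :
    sin (π * (x + y)) = 2 * (ht x + ht y) * (1 - ht x * ht y) /
      ((1 + ht x ^ 2) * (1 + ht y ^ 2)) := by
  rw [mul_add, sin_add, sin_ht h0 h1, sin_ht h0' h1', cos_ht h0 h1, cos_ht h0' h1']
  have a1 : 0 < 1 + ht x ^ 2 := by positivity
  have a2 : 0 < 1 + ht y ^ 2 := by positivity
  field_simp
  ring

theorem gh_ht (x : ℝ) : gh x = Real.log (ht x) := rfl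

theorem ht_le {x y : ℝ} (h0 : 0 < x) (h1 : y < 1) (h : x ≤ y) : ht x ≤ ht y := by
  have hp := pi_pos
  rcases h.eq_or_lt with h | h
  · rw [h]
  · exact (tan_lt_tan_of_nonneg_of_lt_pi_div_two (by positivity) (by nlinarith only [h1, hp])
      (by nlinarith only [hp, h])).le

theorem ht_half : ht (1 / 2) = 1 := by
  unfold ht
  rw [show π * (1 / 2) / 2 = π / 4 by ring, tan_pi_div_four]

/-- dominance in terms of the product of the half angle tangents -/
theorem prod_le_of_dom {x y xs ys : ℝ} (hx : x ∈ Ioo (0 : ℝ) 1) (hy : y ∈ Ioo (0 : ℝ) 1)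
    (hxs : xs ∈ Ioo (0 : ℝ) 1) (hys : ys ∈ Ioo (0 : ℝ) 1)
    (hg : |gh y - gh ys| ≤ gh x - gh xs) : ht xs * ht ys ≤ ht x * ht y := by
  have a1 := ht_pos hx.1 hx.2
  have a2 := ht_pos hy.1 hy.2
  have a3 := ht_pos hxs.1 hxs.2
  have a4 := ht_pos hys.1 hys.2
  have h1 := (abs_le.1 hg).1
  rw [gh_ht, gh_ht, gh_ht, gh_ht] at h1
  rw [← Real.log_le_log_iff (by positivity) (by positivity), Real.log_mul a3.ne' a4.ne',
    Real.log_mul a1.ne' a2.ne']
  linarith only [h1]

theorem prod_lt_one {x y : ℝ} (hx : x ∈ Ioo (0 : ℝ) 1) (hy : y ∈ Ioo (0 : ℝ) 1) (h : x + y < 1) :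
    ht x * ht y < 1 := by
  have a1 := ht_pos hx.1 hx.2
  have a2 := ht_pos hy.1 hy.2
  have h1 := (add_lt_one_iff hx hy).1 h
  rw [gh_ht, gh_ht, ← Real.log_mul a1.ne' a2.ne'] at h1
  rwa [Real.log_neg_iff (by positivity)] at h1

/-! ### the algebra -/

/-- ratio of the sines -/
noncomputable def gz (z P : ℝ) : ℝ := (z + P) * (1 - P) / (z + P ^ 2)

/-- `sin π (x + y) / sin π x` -/
theorem ratio_ht {x y : ℝ} (h0 : 0 < x) (h1 : x < 1) (h0' : 0 < y) (h1' : y < 1) :
    sin (π * (x + y)) = sin (π * x) * gz (ht x ^ 2) (ht x * ht y) := by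
  rw [sin_add_ht h0 h1 h0' h1', sin_ht h0 h1]
  have a1 := ht_pos h0 h1
  have a2 := ht_pos h0' h1'
  have a3 : 0 < 1 + ht x ^ 2 := by positivity
  have a4 : 0 < 1 + ht y ^ 2 := by positivity
  unfold gz
  field_simp

theorem sin_sq_ht {x : ℝ} (h0 : 0 < x) (h1 : x < 1) :
    sin (π * x) ^ 2 = 4 * ht x ^ 2 / (1 + ht x ^ 2) ^ 2 := by
  rw [sin_ht h0 h1]
  have a3 : 0 < 1 + ht x ^ 2 := by positivity
  field_simp
  ring

theorem gz_anti {z P Q : ℝ} (hz : 1 ≤ z) (hP : 0 < P) (hPQ : P ≤ Q) (hQ : Q < 1) :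
    gz z Q ≤ gz z P := by
  have hz0 : 0 < z := by linarith only [hz, hP, hPQ, hQ]
  unfold gz
  rw [div_le_div_iff₀ (by positivity) (by positivity)]
  have h1 : 0 ≤ z * (z - 1) - (z - 1) * (P * Q) := by
    have : P * Q ≤ z := by nlinarith only [hz, hPQ, hQ, hP]
    nlinarith only [hz, this]
  have h2 : 0 ≤ z * (z - 1) + 2 * (z * (Q + P)) - (z - 1) * (P * Q) := by
    have : 0 ≤ z * (Q + P) := by
      have : 0 < Q := by linarith only [hP, hPQ]
      positivity
    linarith only [h1, this]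
  have h3 := mul_nonneg (sub_nonneg.2 hPQ) h2
  nlinarith only [h3]

theorem gz_ge {z P : ℝ} (hz : 0 < z) (hP : 0 < P) (hP1 : P < 1) : 1 - P ≤ gz z P := by
  unfold gz
  rw [le_div_iff₀ (by positivity)]
  have : P ^ 2 ≤ P := by nlinarith only [hP, hP1]
  nlinarith only [hP1, this]

theorem gz_le {z P : ℝ} (hz : 1 ≤ z) (hP : 0 < P) (hP1 : P < 1) : gz z P ≤ 1 := by
  unfold gz
  have hz0 : 0 < z := by linarith only [hz, hP, hP1]
  rw [div_le_one (by positivity)]
  nlinarith only [hz, hP]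

theorem gz_sub {z P : ℝ} (hz : 0 < z) (hP : 0 < P) :
    gz 1 P - gz z P = P * (1 - P) ^ 2 * (z - 1) / ((1 + P ^ 2) * (z + P ^ 2)) := by
  unfold gz
  field_simp
  ring

/-- the basic inequality, to the right -/
theorem core_r {z P H : ℝ} (hz : 1 < z) (hP : 0 < P) (hP1 : P < 1)
    (h : H * ((z - 1) * ((1 + P ^ 2) * (z + P ^ 2))) < 8 * z * (P * (1 - P) ^ 3)) :
    H * (z - 1) ^ 2 < 4 * z * (gz 1 P ^ 2 - gz z P ^ 2) := by
  have hz0 : 0 < z := by linarith only [hz, hP, hP1]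
  have e : gz 1 P ^ 2 - gz z P ^ 2 = (gz 1 P - gz z P) * (gz 1 P + gz z P) := by ring
  have g1 := gz_ge (z := 1) (by norm_num) hP hP1
  have g2 := gz_ge hz0 hP hP1
  have hd := gz_sub (z := z) hz0 hP
  have hD : 0 < (1 + P ^ 2) * (z + P ^ 2) := by positivity
  have hz1 : 0 < z - 1 := by linarith only [hz]
  have hq : 0 < 1 - P := by linarith only [hP1]
  have h1 : 0 < gz 1 P - gz z P := by rw [hd]; positivity
  have h2 : 4 * z * ((gz 1 P - gz z P) * (2 * (1 - P))) ≤
      4 * z * ((gz 1 P - gz z P) * (gz 1 P + gz z P)) := by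
    apply mul_le_mul_of_nonneg_left _ (by positivity)
    exact mul_le_mul_of_nonneg_left (by linarith only [g2, h1]) h1.le
  rw [e]
  refine lt_of_lt_of_le ?_ h2
  rw [hd]
  have e2 : 4 * z * (P * (1 - P) ^ 2 * (z - 1) / ((1 + P ^ 2) * (z + P ^ 2)) * (2 * (1 - P))) =
      (z - 1) * (8 * z * (P * (1 - P) ^ 3)) / ((1 + P ^ 2) * (z + P ^ 2)) := by
    field_simp
    ring
  rw [e2, lt_div_iff₀ hD]
  have := mul_lt_mul_of_pos_left h hz1
  linarith only [this]

/-- the basic inequality, to the left -/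
theorem core_l {z P H : ℝ} (hz0 : 0 < z) (hz : z ≤ 1) (hP : 0 < P) (hP1 : P < 1)
    (h : H * ((1 - z) * ((1 + P ^ 2) * (z + P ^ 2))) ≤ 8 * z * (P * (1 - P) ^ 3)) :
    H * (1 - z) ^ 2 ≤ 4 * z * (gz z P ^ 2 - gz 1 P ^ 2) := by
  have e : gz z P ^ 2 - gz 1 P ^ 2 = -(gz 1 P - gz z P) * (gz 1 P + gz z P) := by ring
  have g1 := gz_ge (z := 1) (by norm_num) hP hP1
  have g2 := gz_ge hz0 hP hP1
  have hd := gz_sub (z := z) hz0 hP
  have hD : 0 < (1 + P ^ 2) * (z + P ^ 2) := by positivity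
  have hz1 : 0 ≤ 1 - z := by linarith only [hz]
  have hq : 0 < 1 - P := by linarith only [hP1]
  have hd' : -(gz 1 P - gz z P) = P * (1 - P) ^ 2 * (1 - z) / ((1 + P ^ 2) * (z + P ^ 2)) := by
    rw [hd, ← neg_div]
    congr 1
    ring
  have h1 : 0 ≤ -(gz 1 P - gz z P) := by rw [hd']; positivity
  have h2 : 4 * z * (-(gz 1 P - gz z P) * (2 * (1 - P))) ≤
      4 * z * (-(gz 1 P - gz z P) * (gz 1 P + gz z P)) := by
    apply mul_le_mul_of_nonneg_left _ (by positivity)
    exact mul_le_mul_of_nonneg_left (by linarith only [g1, g2]) h1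
  rw [e]
  refine le_trans ?_ h2
  rw [hd']
  have e2 : 4 * z * (P * (1 - P) ^ 2 * (1 - z) / ((1 + P ^ 2) * (z + P ^ 2)) * (2 * (1 - P))) =
      (1 - z) * (8 * z * (P * (1 - P) ^ 3)) / ((1 + P ^ 2) * (z + P ^ 2)) := by
    field_simp
    ring
  rw [e2, le_div_iff₀ hD]
  have := mul_le_mul_of_nonneg_left h hz1
  linarith only [this]

theorem cub {P : ℝ} (h0 : 15 / 100 ≤ P) (h1 : P ≤ 528 / 1000) : 55 / 1000 ≤ P * (1 - P) ^ 3 := by
  have e : P * (1 - P) ^ 3 - 55 / 1000 = (P - 15 / 100) * (528 / 1000 - P) *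
      (P ^ 2 - 2322 / 1000 * P + 1346484 / 1000000) +
      ((1 - 1346484 / 1000000 * (678 / 1000) - 2322 / 1000 * (792 / 10000)) * P +
      (1346484 / 1000000 * (792 / 10000) - 55 / 1000)) := by
    ring
  have h2 : 0 ≤ P ^ 2 - 2322 / 1000 * P + 1346484 / 1000000 := by nlinarith only [h1, sq_nonneg P]
  have h3 := mul_nonneg (mul_nonneg (sub_nonneg.2 h0) (sub_nonneg.2 h1)) h2
  linarith only [h1, h3]

/-- the common right hand side -/
theorem aux_le {z P K w : ℝ} (hK : 0 ≤ K) (hw : 0 ≤ w) (hz : 0 < z) (h0 : 0 < P)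
    (h1 : P ≤ 528 / 1000) :
    K * (w * ((1 + P ^ 2) * (z + P ^ 2))) ≤ K * (w * (1279 / 1000 * (z + 279 / 1000))) := by
  have h2 : P ^ 2 ≤ 279 / 1000 := by nlinarith only [h1, h0]
  have h3 := sq_nonneg P
  apply mul_le_mul_of_nonneg_left _ hK
  apply mul_le_mul_of_nonneg_left _ hw
  apply mul_le_mul (by linarith only [h2]) (by linarith only [h2]) (by linarith only [hz, h3]) (by norm_num)

theorem num_a {z : ℝ} (h : 1 ≤ z) (hz : z ≤ 19 / 10) :
    22 / 100 * ((z - 1) * (1279 / 1000 * (z + 279 / 1000))) < 8 * z * (55 / 1000) := by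
  nlinarith only [hz, h, mul_nonneg (sub_nonneg.2 h) (sub_nonneg.2 hz)]

theorem num_b {z : ℝ} (h : 1 ≤ z) (hz : z ≤ 25 / 10) :
    13 / 100 * ((z - 1) * (1279 / 1000 * (z + 279 / 1000))) < 8 * z * (55 / 1000) := by
  nlinarith only [hz, h, mul_nonneg (sub_nonneg.2 h) (sub_nonneg.2 hz)]

theorem num_c {z : ℝ} (h : 2 / 10 ≤ z) (hz : z ≤ 1) :
    7 / 100 * ((1 - z) * (1279 / 1000 * (z + 279 / 1000))) ≤ 8 * z * (55 / 1000) := by
  nlinarith only [h, mul_nonneg (sub_nonneg.2 h) (sub_nonneg.2 hz)]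

/-- combination of the two comparisons, to the right -/
theorem comb_r {c H H' G G1 : ℝ} (c0 : 0 < c) (c1 : c ≤ 1) (hH : 0 ≤ H) (hH' : 0 ≤ H')
    (hG : 0 < G1) (R : H' * (1 - c) < c * (G1 ^ 2 - G ^ 2)) :
    (c * G ^ 2 + H') * (1 + H) < (G1 ^ 2 + H') * (c + H) := by
  have h0 : 0 ≤ H' * (1 - c) := mul_nonneg hH' (by linarith only [c1])
  have h1 : c * G ^ 2 ≤ G1 ^ 2 := by
    have : c * G1 ^ 2 ≤ 1 * G1 ^ 2 := mul_le_mul_of_nonneg_right c1 (sq_nonneg _)
    linarith only [R, h0, this]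
  have h2 : 0 ≤ H * (G1 ^ 2 - c * G ^ 2) := mul_nonneg hH (by linarith only [h1])
  linarith only [R, h2]

/-- combination of the two comparisons, to the left -/
theorem comb_l {c H H' G G1 : ℝ} (c0 : 0 < c) (c1 : c ≤ 1) (hH : 0 ≤ H) (hH' : 0 ≤ H')
    (hG : G1 ^ 2 ≤ 1) (L : H * (1 - c) ≤ c * (G ^ 2 - G1 ^ 2)) :
    (G1 ^ 2 + H') * (c + H) ≤ (c * G ^ 2 + H') * (1 + H) := by
  have h1 : 0 ≤ H' * (1 - c) := mul_nonneg hH' (by linarith only [c1])
  have h2 : 0 ≤ H * (1 - c) := mul_nonneg hH (by linarith only [c1])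
  have h3 : 0 ≤ H * (c * (G ^ 2 - G1 ^ 2)) := mul_nonneg hH (by linarith only [L, h2])
  have h4 : H * (1 - c) * G1 ^ 2 ≤ H * (1 - c) * 1 := mul_le_mul_of_nonneg_left hG h2
  linarith only [L, h1, h3, h4]

/-- **The comparison.** -/
theorem cmp {x x' a a' H H' : ℝ} (hx : 1 / 2 < x) (hx1 : x < 1) (ha : 0 < a) (ha1 : a ≤ 1 / 2)
    (hx' : 0 < x') (ha' : 0 < a') (hs : x + x' < 1) (hs' : a + a' < 1)
    (hP0 : 15 / 100 ≤ ht a * ht a') (hP1 : ht a * ht a' ≤ 528 / 1000)
    (hP : ht a * ht a' ≤ ht x * ht x') (hz0 : 2 / 10 ≤ ht a ^ 2) (hH0 : 0 ≤ H)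
    (hH : H ≤ 7 / 100) (hH0' : 0 ≤ H') (hz : ht x ^ 2 ≤ 19 / 10 ∧ H' ≤ 22 / 100 ∨
      ht x ^ 2 ≤ 25 / 10 ∧ H' ≤ 13 / 100) :
    (sin (π * (x + x')) ^ 2 + H') * (sin (π * a) ^ 2 + H) <
      (sin (π * (a + a')) ^ 2 + H') * (sin (π * x) ^ 2 + H) := by
  have x0 : 0 < x := by linarith only [hx, hx', hs]
  have hx1' : x' < 1 := by linarith only [hx, hx', hs]
  have ha1' : a' < 1 := by linarith only [ha, hs']
  have a1 : a < 1 := by linarith only [hx, ha1, hx', hs]
  have p1 := prod_lt_one ⟨x0, hx1⟩ ⟨hx', hx1'⟩ hs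
  have t1 : 1 < ht x := by
    have hp := pi_pos
    rw [← ht_half]
    unfold ht
    exact tan_lt_tan_of_nonneg_of_lt_pi_div_two (by positivity) (by nlinarith only [hx1, hp]) (by nlinarith only [hx, hp])
  have t2 : ht a ≤ 1 := by
    rw [← ht_half]
    exact ht_le ha (by norm_num) ha1
  have t3 := ht_pos ha a1
  set P := ht a * ht a' with hPd
  set z := ht x ^ 2 with hzd
  set z0 := ht a ^ 2 with hz0d
  have zl : 1 < z := by nlinarith only [hx, t1, hx', hs]
  have zl0 : z0 ≤ 1 := by nlinarith only [t2, t3]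
  have zp0 : 0 < z0 := by linarith only [hx, hx', hs, hz0]
  have Pp : 0 < P := by linarith only [hx, hx', hs, hP0]
  have P1 : P < 1 := by linarith only [hx, hx', hs, hP1]
  have hc := cub hP0 hP1
  -- the sines
  have sX := ratio_ht x0 hx1 hx' hx1'
  have sA := ratio_ht ha a1 ha' ha1'
  rw [← hzd] at sX
  rw [← hPd, ← hz0d] at sA
  have sx := sin_pi_pos x0 hx1
  have sa := sin_pi_pos ha a1
  have ss := sin_pi_pos (u := x + x') (by linarith only [hx, hx']) hs
  have g0 := gz_anti zl.le Pp hP p1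
  have g1 := gz_ge (z := z) (by linarith only [zl]) Pp P1
  have S1 : sin (π * (x + x')) ^ 2 ≤ sin (π * x) ^ 2 * gz z P ^ 2 := by
    have h1 : sin (π * (x + x')) ≤ sin (π * x) * gz z P := by
      rw [sX]
      exact mul_le_mul_of_nonneg_left g0 sx.le
    rw [← mul_pow]
    exact pow_le_pow_left₀ ss.le h1 2
  have S0 : sin (π * (a + a')) ^ 2 = sin (π * a) ^ 2 * gz z0 P ^ 2 := by
    rw [sA, mul_pow]
  have cX := sin_sq_ht x0 hx1
  have cA := sin_sq_ht ha a1
  rw [← hzd] at cX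
  rw [← hz0d] at cA
  have q1 := gz_ge (z := 1) (by norm_num) Pp P1
  have q2 := gz_le (z := 1) le_rfl Pp P1
  -- the two inequalities
  have R := core_r (H := H') zl Pp P1 (by
    rcases hz with ⟨hz, hH'⟩ | ⟨hz, hH'⟩
    · have h1 := aux_le (z := z) (w := z - 1) (K := H') hH0' (by linarith only [zl]) (by linarith only [zl]) Pp hP1
      have h2 : H' * ((z - 1) * (1279 / 1000 * (z + 279 / 1000))) ≤
          22 / 100 * ((z - 1) * (1279 / 1000 * (z + 279 / 1000))) :=
        mul_le_mul_of_nonneg_right hH' (mul_nonneg (by linarith only [zl]) (by linarith only [zl]))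
      have h3 := num_a zl.le hz
      have h4 : 8 * z * (55 / 1000) ≤ 8 * z * (P * (1 - P) ^ 3) :=
        mul_le_mul_of_nonneg_left hc (by linarith only [zl])
      linarith only [h1, h2, h3, h4]
    · have h1 := aux_le (z := z) (w := z - 1) (K := H') hH0' (by linarith only [zl]) (by linarith only [zl]) Pp hP1
      have h2 : H' * ((z - 1) * (1279 / 1000 * (z + 279 / 1000))) ≤
          13 / 100 * ((z - 1) * (1279 / 1000 * (z + 279 / 1000))) :=
        mul_le_mul_of_nonneg_right hH' (mul_nonneg (by linarith only [zl]) (by linarith only [zl]))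
      have h3 := num_b zl.le hz
      have h4 : 8 * z * (55 / 1000) ≤ 8 * z * (P * (1 - P) ^ 3) :=
        mul_le_mul_of_nonneg_left hc (by linarith only [zl])
      linarith only [h1, h2, h3, h4])
  have L := core_l (H := H) zp0 zl0 Pp P1 (by
    have h1 := aux_le (z := z0) (w := 1 - z0) (K := H) hH0 (by linarith only [zl0]) zp0 Pp hP1
    have h2 : H * ((1 - z0) * (1279 / 1000 * (z0 + 279 / 1000))) ≤
        7 / 100 * ((1 - z0) * (1279 / 1000 * (z0 + 279 / 1000))) :=
      mul_le_mul_of_nonneg_right hH (mul_nonneg (by linarith only [zl0]) (by linarith only [hz0]))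
    have h3 := num_c hz0 zl0
    have h4 : 8 * z0 * (55 / 1000) ≤ 8 * z0 * (P * (1 - P) ^ 3) :=
      mul_le_mul_of_nonneg_left hc (by linarith only [hz0])
    linarith only [h1, h2, h3, h4])
  set G := gz z P
  set G1 := gz 1 P
  set G0 := gz z0 P
  have b1 : 0 < (1 + z) ^ 2 := by positivity
  have b0 : 0 < (1 + z0) ^ 2 := by positivity
  set c := sin (π * x) ^ 2 with hcd
  set c0 := sin (π * a) ^ 2 with hc0d
  have cp : 0 < c := by positivity
  have c0p : 0 < c0 := by positivity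
  have hc1 : c ≤ 1 := sin_sq_le_one _
  have hc01 : c0 ≤ 1 := sin_sq_le_one _
  -- `H' (1 - c) < c (G1 ^ 2 - G ^ 2)`
  have R' : H' * (1 - c) < c * (G1 ^ 2 - G ^ 2) := by
    have e1 : H' * (1 - c) = H' * (z - 1) ^ 2 / (1 + z) ^ 2 := by
      rw [cX]
      field_simp
      ring
    have e2 : c * (G1 ^ 2 - G ^ 2) = 4 * z * (G1 ^ 2 - G ^ 2) / (1 + z) ^ 2 := by
      rw [cX]
      ring
    rw [e1, e2]
    exact div_lt_div_of_pos_right R b1
  have L' : H * (1 - c0) ≤ c0 * (G0 ^ 2 - G1 ^ 2) := by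
    have e1 : H * (1 - c0) = H * (1 - z0) ^ 2 / (1 + z0) ^ 2 := by
      rw [cA]
      field_simp
      ring
    have e2 : c0 * (G0 ^ 2 - G1 ^ 2) = 4 * z0 * (G0 ^ 2 - G1 ^ 2) / (1 + z0) ^ 2 := by
      rw [cA]
      ring
    rw [e1, e2]
    exact div_le_div_of_nonneg_right L b0.le
  have G1n : 0 < G1 := by linarith only [hx, hx', hs, hP1, q1]
  have G1q : G1 ^ 2 ≤ 1 := by nlinarith only [q2, hx, hx', hs, hP1, q1]
  have r1 := comb_r cp hc1 hH0 hH0' G1n R'
  have r2 := comb_l (H' := H') c0p hc01 hH0 hH0' G1q L'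
  have c0H : 0 < c0 + H := by linarith only [hH0, c0p]
  have cH : 0 < c + H := by linarith only [hH0, cp]
  have k1 : (sin (π * (x + x')) ^ 2 + H') * (c0 + H) ≤ (c * G ^ 2 + H') * (c0 + H) :=
    mul_le_mul_of_nonneg_right (by linarith only [S1]) c0H.le
  refine lt_of_le_of_lt k1 ?_
  rw [S0]
  have k2 := mul_lt_mul_of_pos_right r1 c0H
  have k3 := mul_le_mul_of_nonneg_right r2 cH.le
  have k4 : 0 < 1 + H := by linarith only [hH0]
  refine lt_of_mul_lt_mul_right ?_ k4.le
  linarith only [k2, k3]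

end MR

end Pool.Agent.Work.MP_b30479_gtS.G2

end

section

/-!
# Push of a digit `1` at a hinge `1 | 1`, all positions
-/

set_option deprecated.oldSectionVars true

namespace Pool.Agent.Work.MP_b30479_gtS.G2

open VOL NumIs NumIs.E

namespace MR

theorem ht_275 : (46 : ℝ) / 100 ≤ ht (275 / 1000) := by
  have h := chk0 (e := sub (sinPi (q 275 2000)) (mul (q 46 100) (cosPi (q 275 2000))))
    (by decide +kernel)
  simp only [val] at h
  push_cast at h
  have hc := cos_half_pos (x := 275 / 1000) (by norm_num) (by norm_num)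
  unfold ht
  rw [Real.tan_eq_sin_div_cos, le_div_iff₀ hc]
  have e : Real.pi * (275 / 1000) / 2 = Real.pi * (275 / 2000) := by ring
  rw [e]
  linarith only [h]

theorem ht_212 : (34 : ℝ) / 100 ≤ ht (212 / 1000) := by
  have h := chk0 (e := sub (sinPi (q 212 2000)) (mul (q 34 100) (cosPi (q 212 2000))))
    (by decide +kernel)
  simp only [val] at h
  push_cast at h
  have hc := cos_half_pos (x := 212 / 1000) (by norm_num) (by norm_num)
  unfold ht
  rw [Real.tan_eq_sin_div_cos, le_div_iff₀ hc]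
  have e : Real.pi * (212 / 1000) / 2 = Real.pi * (212 / 2000) := by ring
  rw [e]
  linarith only [h]

theorem ht_640 : ht (640 / 1000) ≤ (158 : ℝ) / 100 := by
  have h := chk0 (e := sub (mul (q 158 100) (cosPi (q 640 2000))) (sinPi (q 640 2000)))
    (by decide +kernel)
  simp only [val] at h
  push_cast at h
  have hc := cos_half_pos (x := 640 / 1000) (by norm_num) (by norm_num)
  unfold ht
  rw [Real.tan_eq_sin_div_cos, div_le_iff₀ hc]
  have e : Real.pi * (640 / 1000) / 2 = Real.pi * (640 / 2000) := by ring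
  rw [e]
  linarith only [h]

theorem ht_600 : ht (600 / 1000) ≤ (1378 : ℝ) / 1000 := by
  have h := chk0 (e := sub (mul (q 1378 1000) (cosPi (q 600 2000))) (sinPi (q 600 2000)))
    (by decide +kernel)
  simp only [val] at h
  push_cast at h
  have hc := cos_half_pos (x := 600 / 1000) (by norm_num) (by norm_num)
  unfold ht
  rw [Real.tan_eq_sin_div_cos, div_le_iff₀ hc]
  have e : Real.pi * (600 / 1000) / 2 = Real.pi * (600 / 2000) := by ring
  rw [e]
  linarith only [h]

/-- **Upward, to the right of `1/2`.** -/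
theorem up_right {x x' a a' t t' : ℝ} (hx : 1 / 2 < x) (hx' : 0 < x') (hs : x + x' ≤ 90 / 100)
    (ha : 275 / 1000 ≤ a) (ha1 : a ≤ 1 / 2) (ha' : 212 / 1000 ≤ a') (hsa : a + a' ≤ 80 / 100)
    (ht0 : |t| ≤ 80 / 1000)
    (h : x ≤ 600 / 1000 ∧ |t + t'| ≤ 144 / 1000 ∨ x ≤ 640 / 1000 ∧ |t + t'| ≤ 112 / 1000) :
    MQ.Up x x' a a' t t' := by
  intro _ hg
  have x0 : 0 < x := by linarith only [hx, hx', hs]
  have hx1 : x < 1 := by linarith only [hx, hx', hs]
  have hx1' : x' < 1 := by linarith only [hx, hx', hs]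
  have a0 : 0 < a := by linarith only [hx, hx', hs, ha]
  have a1 : a < 1 := by linarith only [hx, hx', hs, ha1]
  have a0' : 0 < a' := by linarith only [hx, hx', hs, ha']
  have a1' : a' < 1 := by linarith only [hx, hx', hs, ha, hsa]
  have p1 := prod_le_of_dom ⟨x0, hx1⟩ ⟨hx', hx1'⟩ ⟨a0, a1⟩ ⟨a0', a1'⟩ hg
  have q1 := ht_275.trans (ht_le (by norm_num) a1 ha)
  have q2 := ht_212.trans (ht_le (by norm_num) a1' ha')
  have p2 : ht a * ht a' ≤ 528 / 1000 := by
    have B : MQ.Bs a a' a a' := ⟨a0, a0', a0, a0', ha1, ha1, by linarith only [hx, hx', hs, hsa], hsa⟩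
    have h1 := B.P528
    rw [gh_ht, gh_ht, ← Real.log_mul (ht_pos a0 a1).ne' (ht_pos a0' a1').ne'] at h1
    have h2 := (Real.log_le_log_iff (mul_pos (ht_pos a0 a1) (ht_pos a0' a1')) (by norm_num)).1 h1
    push_cast at h2
    exact h2
  have p0 : 15 / 100 ≤ ht a * ht a' := by nlinarith only [q1, q2]
  have hH : Real.sinh (Real.pi * t) ^ 2 ≤ 7 / 100 := by
    have h2 := MQ.sinh_le_c (n := 80) (c := 7) (d := 1000) (e := 100) (by decide +kernel)
    push_cast at h2
    exact MQ.sinh_sq_le' ht0 h2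
  have hz : ht x ^ 2 ≤ 19 / 10 ∧ Real.sinh (Real.pi * (t + t')) ^ 2 ≤ 22 / 100 ∨
      ht x ^ 2 ≤ 25 / 10 ∧ Real.sinh (Real.pi * (t + t')) ^ 2 ≤ 13 / 100 := by
    have hp := ht_pos x0 hx1
    rcases h with ⟨h1, h2⟩ | ⟨h1, h2⟩
    · left
      constructor
      · have h3 := (ht_le x0 (by norm_num) h1).trans ht_600
        nlinarith only [h3, h1, hx, hx', hs, hp]
      · have h3 := MQ.sinh_le_c (n := 144) (c := 22) (d := 1000) (e := 100) (by decide +kernel)
        push_cast at h3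
        exact MQ.sinh_sq_le' h2 h3
    · right
      constructor
      · have h3 := (ht_le x0 (by norm_num) h1).trans ht_640
        nlinarith only [h3, hp]
      · have h3 := MQ.sinh_le_c (n := 112) (c := 13) (d := 1000) (e := 100) (by decide +kernel)
        push_cast at h3
        exact MQ.sinh_sq_le' h2 h3
  have key := cmp hx hx1 a0 ha1 hx' a0' (by linarith only [hs]) (by linarith only [hx, hx', hs, hsa]) p0 p2 p1 (by nlinarith only [q1])
    (sq_nonneg (Real.sinh (Real.pi * t))) hH (sq_nonneg (Real.sinh (Real.pi * (t + t')))) hz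
  rw [lv_add, lv_add, MQ.LLlv (by linarith only [hx, hx']) (by linarith only [hs]), MQ.LLlv x0 hx1,
    MQ.LLlv (by linarith only [ha, a0']) (by linarith only [hx, hx', hs, hsa]), MQ.LLlv a0 a1]
  have s1 := sin_pi_pos (u := x + x') (by linarith only [hx, hx']) (by linarith only [hs])
  have s2 := sin_pi_pos (u := x) (by linarith only [hx]) (by linarith only [hx', hs])
  have s3 := sin_pi_pos (u := a + a') (by linarith only [ha, a0']) (by linarith only [hx, hx', hs, hsa])
  have s4 := sin_pi_pos (u := a) (by linarith only [ha]) (by linarith only [ha1])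
  have b1 : 0 < Real.sin (Real.pi * (x + x')) ^ 2 + Real.sinh (Real.pi * (t + t')) ^ 2 := by
    positivity
  have b2 : 0 < Real.sin (Real.pi * x) ^ 2 + Real.sinh (Real.pi * t) ^ 2 := by positivity
  have b3 : 0 < Real.sin (Real.pi * (a + a')) ^ 2 + Real.sinh (Real.pi * (t + t')) ^ 2 := by
    positivity
  have b4 : 0 < Real.sin (Real.pi * a) ^ 2 + Real.sinh (Real.pi * t) ^ 2 := by positivity
  rw [Real.log_mul (by norm_num) b1.ne', Real.log_mul (by norm_num) b2.ne',
    Real.log_mul (by norm_num) b3.ne', Real.log_mul (by norm_num) b4.ne']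
  have h5 := Real.log_lt_log (by positivity) key
  rw [Real.log_mul b1.ne' b4.ne', Real.log_mul b3.ne' b2.ne'] at h5
  linarith only [h5]

end MR

namespace SR

open ML Finset

set_option deprecated.oldSectionVars false
variable {M : ℕ} {b : Fin (M + 1) → ℤ} {zs : DD (tyW b) ⊕ ZZ (tyW b) → ℂ}
set_option deprecated.oldSectionVars false
variable {y : DD (tyW b) ⊕ ZZ (tyW b) → ℝ}
set_option deprecated.oldSectionVars false
variable {h h' h'' : Fin M} {i j j' l : Fin (M + 1)} {p : Fin 3}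

/-- **Push of a digit `1`, hinge `1 | 1` to the right of `1/2`.** -/
theorem Adj.push1R (A : Adj h i p j) (hb : ClassW b) (hL : Loc b zs)
    (hX : LocX b zs) (hP : LocP b zs) (hS : LocS b zs) (hy : Mx b zs y) (hf : Flat b y)
    (h64 : ∀ {h : Fin M} {i j : Fin (M + 1)} {p : Fin 3}, Adj h i p j → clsW b i = .one →
      clsW b j = .one → y (.inl (.inl h)) ≤ 64 / 100)
    (hs : Sum1 b y (90 / 100)) (hc : clsW b i = .one) (hj : clsW b j = .one)
    (h5 : 1 / 2 < y (.inl (.inl h))) :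
    Push' (tyW b) b i p p.rev (Xw b zs y i) (xx (tyW b) i zs) := by
  obtain ⟨h', j', A'⟩ := A.other_one hb hc
  obtain ⟨h'', l, A''⟩ := A.symm.other_one hb hj
  rw [Fin.rev_rev] at A''
  have w := hP.pair A A' A'' hc hj
  have r := A.rz_box hb hL hc
  have r' := A'.rz_box hb hL hc
  rw [hj] at r
  have r0 : (212 : ℝ) / 1000 ≤ (zs (.inl (.inl h'))).re := by
    refine le_trans ?_ r'.1
    generalize clsW b j' = C
    cases C <;> simp only [MQ.rz] <;> norm_num
  simp only [MQ.rz] at r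
  push_cast at r
  have hlt : (zs (.inl (.inl h))).re < y (.inl (.inl h)) := (hL.half h).trans h5
  have up := MR.up_right (x := y (.inl (.inl h))) (x' := y (.inl (.inl h')))
    (a := (zs (.inl (.inl h))).re) (a' := (zs (.inl (.inl h'))).re)
    (t := ofs (b i) (zs (.inl (.inl h))).im) (t' := ofs (b i) (zs (.inl (.inl h'))).im)
    h5 ((wcl_pos h').trans_le (hf h').1) (hs A A' hc) r.1 (hL.half h).le r0 (hS.sum A A' hc)
    (hX.t11 hb A hc hj) (by
      by_cases hPQ : clsW b j' = .one ∨ clsW b l = .one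
      · left
        obtain ⟨-, u2, u3, -, -⟩ := pcw_X hPQ w
        refine ⟨?_, abs_le.2 ⟨u2, u3⟩⟩
        rcases hPQ with hq | hq
        · exact A.fe11 A' hf hc hj hq
        · exact A.symm.fe11 A''.rr hf hj hc hq
      · right
        push Not at hPQ
        have u : -(112 / 1000) ≤ ofs (b i) (zs (.inl (.inl h))).im +
            ofs (b i) (zs (.inl (.inl h'))).im ∧ ofs (b i) (zs (.inl (.inl h))).im +
            ofs (b i) (zs (.inl (.inl h'))).im ≤ 112 / 1000 := by
          rcases pcw_Y hPQ.1 hPQ.2 w with ⟨-, u2, u3, -, -⟩ | ⟨-, u2, u3, -, -⟩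
          · constructor <;> linarith only [u2, u3]
          · exact ⟨u2, u3⟩
        refine ⟨?_, abs_le.2 u⟩
        have := h64 A hc hj
        linarith only [this])
  apply A.push_one hb hc
  rw [A.Yw_flat hy hf, A'.Yw_flat hy hf, A.Ys_lv, A'.Ys_lv]
  unfold PushV S1
  simp only [lv_re, lv_im, zero_mul, add_zero, one_mul]
  constructor
  · intro h1 h2
    linarith only [up, h1, h2, up h1 h2]
  · intro h1 h2
    linarith only [hlt, h1]

/-- **Push of a digit `1`, all hinges.** -/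
theorem Adj.push1A (A : Adj h i p j) (hb : ClassW b) (hL : Loc b zs)
    (hX : LocX b zs) (hP : LocP b zs) (hS : LocS b zs) (hy : Mx b zs y) (hf : Flat b y)
    (h64 : ∀ {h : Fin M} {i j : Fin (M + 1)} {p : Fin 3}, Adj h i p j → clsW b i = .one →
      clsW b j = .one → y (.inl (.inl h)) ≤ 64 / 100)
    (hs : Sum1 b y (90 / 100)) (hc : clsW b i = .one)
    (hj : clsW b j = .one ∨ y (.inl (.inl h)) ≤ 1 / 2) :
    Push' (tyW b) b i p p.rev (Xw b zs y i) (xx (tyW b) i zs) := by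
  rcases le_or_gt (y (.inl (.inl h))) (1 / 2) with h5 | h5
  · exact A.push1 hb hL hX hP hS hy hf h64 hs hc h5
  · refine A.push1R hb hL hX hP hS hy hf h64 hs hc ?_ h5
    rcases hj with hj | hj
    · exact hj
    · linarith only [h5, hj]

end SR

end Pool.Agent.Work.MP_b30479_gtS.G2

end

section

/-!
# Tails, word level: the variable of an untouched ring with a real hinge

`Tl.ring_le`: its own real part is at most `1/8` (up to the symmetry at the end of the path), since
otherwise the opposite value is better.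
-/

namespace Pool.Agent.Work.MP_b30479_gtS.G2

open Finset VOL Filter Topology SR

/-- the opposite real part is the opposite height -/
theorem fR_mir (x T σ η : ℝ) : fR ⟨x, T⟩ ⟨-σ, η⟩ = fR ⟨x, -T⟩ ⟨σ, η⟩ := by
  unfold fR UU
  simp only [Complex.add_re, Complex.add_im, Complex.sub_re, Complex.sub_im]
  have e1 : ((1 / 2 : ℂ)).re = 1 / 2 := by norm_num
  have e2 : ((1 / 2 : ℂ)).im = 0 := by norm_num
  rw [e1, e2]
  have a1 : |T + 0 + η| = |-T + 0 - η| := by
    rw [show -T + 0 - η = -(T + 0 + η) by ring, abs_neg]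
  have a2 : |T + 0 - η| = |-T + 0 + η| := by
    rw [show -T + 0 + η = -(T + 0 - η) by ring, abs_neg]
  rw [a1, a2, show x + 1 / 2 + -σ = x + 1 / 2 - σ by ring, show x + 1 / 2 - -σ = x + 1 / 2 + σ by ring,
    abs_neg T]
  ring

/-- the loss of the opposite real part at one hinge -/
theorem fR_opp_le {x T σ η : ℝ} (hη : 0 ≤ η) (hσ : |σ| ≤ 1 / 2) :
    fR ⟨x, T⟩ ⟨σ, η⟩ - fR ⟨x, T⟩ ⟨-σ, η⟩ ≤ 2 * Real.pi * η := by
  obtain ⟨s0, s1⟩ := abs_le.1 hσ
  have hpi := Real.pi_pos
  rcases le_total 0 T with hT | hT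
  · have h := flip_le (x := x) (σ := -σ) hT hη (by linarith)
    rw [← fR_mir x T (-σ) η, neg_neg] at h
    refine h.trans ?_
    have h1 : T - η ≤ |η - T| := by
      rw [abs_sub_comm]
      exact le_abs_self _
    nlinarith
  · have h := flip_le (x := x) (T := -T) (σ := σ) (by linarith) hη s0
    rw [neg_neg, ← fR_mir x T σ η] at h
    refine h.trans ?_
    have h1 : -T - η ≤ |η - -T| := by
      rw [abs_sub_comm]
      exact le_abs_self _
    nlinarith

/-- nothing changes at a real hinge -/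
theorem fR_opp_real (x σ η : ℝ) : fR ⟨x, 0⟩ ⟨-σ, η⟩ = fR ⟨x, 0⟩ ⟨σ, η⟩ := by
  rw [fR_mir, neg_zero]

/-- the two ends of the path of a ring variable -/
theorem fR_ends (w : ℂ) (ρ : ℝ) : fR w (LT.zt ρ (1 / 2)) = fR w (LT.zt ρ (-(1 / 2))) := by
  rw [zt_half, fR_half, zt_neg_half, fR_neg_half]

/-- **The opposite ring variable is better**, one real hinge, `σ > 1/8` -/
theorem rg_opp {n ρ σ x : ℝ} {w' : ℂ} (hn : 4 ≤ n) (hρ : 0 < ρ) (h0 : 1 / 8 < σ) (h1 : σ < 1 / 2) :
    rg n ρ ⟨x, 0⟩ w' σ < rg n ρ ⟨x, 0⟩ w' (-σ) := by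
  have hpi := Real.pi_pos
  have hσ : |σ| < 1 / 2 := by
    rw [abs_of_pos (by linarith)]
    exact h1
  have ht : 0 < LT.th σ := th_pos hσ
  have hη : 0 < ρ * LT.th σ := mul_pos hρ ht
  unfold rg
  have e1 : LT.zt ρ σ = ⟨σ, ρ * LT.th σ⟩ := by
    apply Complex.ext
    · simp [LT.zt]
    · simp [LT.zt]
  have e2 : LT.zt ρ (-σ) = ⟨-σ, ρ * LT.th σ⟩ := by
    apply Complex.ext
    · simp [LT.zt]
    · simp [LT.zt, th_neg]
  rw [e1, e2, th_neg, fR_opp_real]
  have h2 := fR_opp_le (x := w'.re) (T := w'.im) hη.le hσ.le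
  rw [Complex.eta] at h2
  have h3 : 2 * Real.pi * (ρ * LT.th σ) < 4 * Real.pi * (ρ * LT.th σ) * (n * σ) := by
    have : 1 / 2 < n * σ := by nlinarith
    nlinarith [mul_pos hpi hη]
  linarith

namespace TL

variable {M : ℕ} {b : Fin (M + 1) → ℤ} {zs z : DD (tyW b) ⊕ ZZ (tyW b) → ℂ}
variable {R : Finset (DD (tyW b))} {h h' : Fin M} {i j j' k : Fin (M + 1)} {p q : Fin 3}

/-- **An untouched ring with a real hinge.** -/
theorem Tl.ring_le (H : Tl b zs R z) (v : ZZ (tyW b)) (A : Adj h v.1 q i) (hi : Tch b R i)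
    (hj : ¬ Tch b R v.1) : ∃ σ : ℝ, |σ| ≤ 1 / 2 ∧ σ ≤ 1 / 8 ∧
      ∀ w : ℂ, fR w (Oz b z v) = fR w (LT.zt (zs (.inr v)).im σ) := by
  have hv : Sum.inr v ∉ nbT b R := fun hv => hj ((tch_ring_iff v).1 hv)
  obtain ⟨σ0, h0, hz⟩ := H.mx.adm.onZ v hv
  have e0 : Oz b z v = LT.zt (zs (.inr v)).im (ofs (b v.1) σ0) := by
    unfold Oz
    rw [hz]
    exact ofz_zt _ _ _
  have hab : |ofs (b v.1) σ0| ≤ 1 / 2 := by
    rw [abs_ofs]
    exact h0
  rcases le_or_gt (ofs (b v.1) σ0) (1 / 8) with h1 | h1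
  · exact ⟨_, hab, h1, fun w => by rw [e0]⟩
  rcases ((abs_le.1 hab).2).eq_or_lt with h2 | h2
  · refine ⟨-(1 / 2), by rw [abs_neg, abs_of_pos] <;> norm_num, by norm_num, fun w => ?_⟩
    rw [e0, h2]
    exact fR_ends _ _
  exfalso
  have hb := H.hb
  have hc : clsW b v.1 = .ring := clsW_ring hb v
  have hρ : 0 < (zs (.inr v)).im := H.L.L.rpos v
  -- the new point
  let z' := Function.update z (.inr v) (LT.zt (zs (.inr v)).im (-σ0))
  have hmv : Mv b zs (nbT b R) z 0 z' 0 := by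
    refine ⟨fun u hu => ?_⟩
    by_cases huv : u = .inr v
    · subst huv
      refine ⟨hv, -σ0, by rwa [abs_neg], ?_⟩
      exact Function.update_self _ _ _
    · exfalso
      rcases hu with hu | hu
      · exact hu (Function.update_of_ne huv _ _)
      · exact hu rfl
  have key := H.mx.step hb (nbT_ok b R).ok.1 hmv {v.1} (fun k hk u hu q => by
    by_contra hcf
    have huv : u = .inr v := by
      by_contra hne
      exact hu (Function.update_of_ne hne _ _).symm
    subst huv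
    apply hk
    rw [Finset.mem_singleton]
    have : v.1 = k := by
      by_contra hcon
      apply hcf
      unfold cf
      simp only
      split_ifs <;> simp_all
    exact this.symm)
  rw [Finset.sum_singleton] at key
  have e1 : Ow b z' v.1 = Function.update (Ow b z v.1) 1 (LT.zt (zs (.inr v)).im
      (-(ofs (b v.1) σ0))) := by
    unfold Ow
    rw [xx_upd_ring, tyW_ring v.2, own_update_ring, ofz_zt, ofs_neg']
  have e2 : Ow b z v.1 1 = LT.zt (zs (.inr v)).im (ofs (b v.1) σ0) := by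
    rw [Ow_ring1, e0]
  rw [OV_ring hb hc (Ow_endOk z' _), OV_ring hb hc (Ow_endOk z _), e1, e2] at key
  rw [Function.update_self, Function.update_of_ne (by decide), Function.update_of_ne (by decide),
    VR_rg, VR_rg] at key
  have hsum : ∑ i, ((0 : DD (tyW b) → ℝ) i - (0 : DD (tyW b) → ℝ) i) = 0 := by simp
  rw [hsum, mul_zero] at key
  have h4 := ring_four hb (tyW_of_ring hb hc)
  have hn : (4 : ℝ) ≤ ((b v.1).natAbs : ℝ) := by exact_mod_cast h4
  have hre : Ow b z v.1 q = ⟨(z (.inl (.inl h))).re, 0⟩ := by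
    rw [A.Ow_slot z]
    exact H.Oh_nb ((nbH_iff A).2 (Or.inr hi)) _
  rcases A.slot with rfl | rfl
  · rw [hre] at key
    have := rg_opp (w' := Ow b z v.1 2) (x := (z (.inl (.inl h))).re) hn hρ h1 h2
    linarith
  · rw [hre] at key
    have := rg_opp (w' := Ow b z v.1 0) (x := (z (.inl (.inl h))).re) hn hρ h1 h2
    rw [rg_comm, rg_comm _ _ (-(ofs (b v.1) σ0))] at this
    linarith

end TL

end Pool.Agent.Work.MP_b30479_gtS.G2

end

section

/-!
# Tails: the gains of the untouched regions at an end and of the untouched rings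
-/

namespace Pool.Agent.Work.MP_b30479_gtS.G2

open Finset VOL Filter Topology SR

namespace TL

variable {M : ℕ} {b : Fin (M + 1) → ℤ} {zs z : DD (tyW b) ⊕ ZZ (tyW b) → ℂ}
variable {R : Finset (DD (tyW b))} {h h' : Fin M} {i j j' k : Fin (M + 1)} {p q : Fin 3}

/-- the window of the height of a hinge -/
theorem Th_box (hb : ClassW b) (hL : Loc b zs) (A : Adj h i p j)
    (hc : clsW b i ≠ .ring ∨ clsW b j ≠ .ring) :
    (hbox (clsW b i) (clsW b j) false).t0 ≤ Th b zs h i ∧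
      Th b zs h i ≤ (hbox (clsW b i) (clsW b j) false).t1 := by
  obtain ⟨-, -, h3, h4⟩ := A.box hb hL
  rw [A.ss (A.opp hb hc)] at h3 h4
  exact ⟨h3, h4⟩

/-- the window of the height of the inner variable at an end -/
theorem Tm_box (hL : Loc b zs) (m : {i : Fin (M + 1) // (tyW b i).isMid = true})
    (hc : clsW b m.1 = .threeE) :
    -(45 / 1000) ≤ SR.Tm b zs m ∧ SR.Tm b zs m ≤ 59 / 1000 := by
  obtain ⟨-, -, h3, h4⟩ := hL.midE m (clsW_end (Or.inr hc))
  rw [ofr_im] at h3 h4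
  exact ⟨h3, h4⟩

/-- the wall of a region with three crossings at an end with a real hinge -/
private theorem wallE' (H : Tl b zs R z) (m : {i : Fin (M + 1) // (tyW b i).isMid = true})
    (A : Adj h m.1 p j) (hn : nbH b R h) (hc : clsW b m.1 = .threeE) :
    (z (.inl (.inl h))).re ≤ (z (.inl (.inr m))).re := by
  have h3 := clsW_nat3 (Or.inr hc)
  have he := clsW_end (Or.inr hc)
  have hm : nbM b R m.1 := by
    rcases (nbH_iff A).1 hn with h1 | h1
    · exact Or.inl h1
    · exact Or.inr ⟨hc, h, p, j, A, h1⟩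
  have hr : ∀ v : ZZ (tyW b), v.1 ≠ m.1 := ring_ne (by rw [hc]; decide)
  have key : ∀ f : Fac, f ∈ facs (tyW b m.1) (decide (m.1 ≠ 0)) (decide (m.1 ≠ Fin.last M)) →
      (f.form (xx (tyW b) m.1 z)).re ≤ 1 := by
    intro f hf
    obtain ⟨n, hn', rfl⟩ := List.mem_iff_getElem.1 hf
    have h1 := H.mx.adm.wall ⟨m.1, ⟨n, hn'⟩⟩ ?_ ?_
    · rw [wdat_form] at h1
      exact h1
    · intro v
      simp only [wdat]
      refine Finset.sum_eq_zero fun q _ => ?_
      have : cf (tyW b) m.1 q (.inr v) = 0 := by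
        simp [cf, hr v]
      rw [this]
      simp
    · intro d hd
      simp only [wdat] at hd
      obtain ⟨q, -, hq⟩ := Finset.exists_ne_zero_of_sum_ne_zero hd
      have hq' : cf (tyW b) m.1 q (.inl d) ≠ 0 := by
        intro h0
        apply hq
        rw [h0]
        simp
      rcases d with h1 | m1
      · obtain ⟨k, A'⟩ := adj_of_cf hq'
        have e := A.slot_end A' he
        subst e
        obtain ⟨e, -⟩ := adj_uniq A A'
        subst e
        exact nbH_mem hn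
      · have e : m1 = m := by
          have := cf_inner_ne hq'
          exact Subtype.ext this
        subst e
        exact nbM_mem hm
  have e1 : xx (tyW b) m.1 z 1 = z (.inl (.inr m)) := xx_mid (tyW b) m.2 z
  obtain ⟨i, hi⟩ := m
  simp only at *
  cases A with
  | l =>
    have h0 : h.castSucc = 0 := by
      unfold isEnd at he
      rcases of_decide_eq_true he with h1 | h1
      · exact h1
      · exact absurd h1 (Fin.castSucc_lt_last h).ne
    have hty : tyW b h.castSucc = .threeR := by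
      unfold tyW
      rw [if_neg (by omega), if_neg (by omega), if_pos h3, if_pos h0]
    have h2 := key ⟨![0, -1, 1], 1, -(1 / 2)⟩ (by rw [hty]; simp [facs])
    have e2 : xx (tyW b) h.castSucc z 2 = z (.inl (.inl h)) := xx_right _ h z
    simp only [Fac.form, Fin.sum_univ_three, e1, e2] at h2
    simp at h2
    linarith
  | r =>
    have hty : tyW b h.succ = .threeL := by
      unfold tyW
      rw [if_neg (by omega), if_neg (by omega), if_pos h3, if_neg (Fin.succ_ne_zero h)]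
    have h2 := key ⟨![1, -1, 0], 1, -(1 / 2)⟩ (by rw [hty]; simp [facs])
    have e2 : xx (tyW b) h.succ z 0 = z (.inl (.inl h)) := xx_left _ h z
    simp only [Fac.form, Fin.sum_univ_three, e1, e2] at h2
    simp at h2
    linarith

theorem Tl.gain_twoE (H : Tl b zs R z) (A : Adj h j q i) (hi : Tch b R i) (hj : ¬ Tch b R j)
    (hc : clsW b j = .twoE) :
    Gn (clsW b i) (tgt b R h (z (.inl (.inl h))).re) (z (.inl (.inl h))).re (Th b zs h j) .twoE
      (pc b R zs z j q) := by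
  rw [pc_twoE H A hi hj hc]
  obtain ⟨h0, h1⟩ := Th_box H.hb H.L.L A (Or.inl (by rw [hc]; decide))
  rw [hc] at h0 h1
  exact .twoE h0 h1

theorem Tl.gain_threeE (H : Tl b zs R z) (A : Adj h j q i) (hi : Tch b R i) (hj : ¬ Tch b R j)
    (hc : clsW b j = .threeE) :
    Gn (clsW b i) (tgt b R h (z (.inl (.inl h))).re) (z (.inl (.inl h))).re (Th b zs h j) .threeE
      (pc b R zs z j q) := by
  have hn : nbH b R h := (nbH_iff A).2 (Or.inr hi)
  obtain ⟨m, rfl⟩ : ∃ m : {i : Fin (M + 1) // (tyW b i).isMid = true}, m.1 = j :=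
    ⟨⟨j, tyW_isMid (Or.inr hc)⟩, rfl⟩
  rw [pc_threeE H A hi hj hc m rfl]
  obtain ⟨h0, h1⟩ := Th_box H.hb H.L.L A (Or.inl (by rw [hc]; decide))
  rw [hc] at h0 h1
  obtain ⟨m0, m1⟩ := Tm_box H.L.L m hc
  have hnm : nbM b R m.1 := Or.inr ⟨hc, h, q, i, A, hi⟩
  exact .threeE h0 h1 m0 m1 (wallE' H m A hn hc) (H.mreal hnm).2.2

/-- the gain of an untouched ring, the ring variable is not far to the right -/
theorem Tl.gain_ring_of (H : Tl b zs R z) (A : Adj h j q i) (hi : Tch b R i) (hj : ¬ Tch b R j)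
    (v : ZZ (tyW b)) (hv : v.1 = j)
    (hσ : ∃ σ : ℝ, |σ| ≤ 1 / 2 ∧ σ ≤ 1 / 8 ∧
      ∀ w : ℂ, fR w (Oz b z v) = fR w (LT.zt (zs (.inr v)).im σ)) :
    Gn (clsW b i) (tgt b R h (z (.inl (.inl h))).re) (z (.inl (.inl h))).re (Th b zs h j) .ring
      (pc b R zs z j q) := by
  subst hv
  have hc : clsW b v.1 = .ring := by
    by_contra hc
    exact ring_ne hc v rfl
  obtain ⟨σ, s0, s1, hw⟩ := hσ
  rw [pc_ring H A hi hj v rfl, hw, hw]
  refine .ring ?_ ?_ ?_ (H.L.L.rpos v).le (Loc.ring_height H.hb H.L.L v) s0 s1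
  · intro hK
    have := (Th_box H.hb H.L.L A (Or.inr hK)).1
    rwa [hc] at this
  · intro hK
    have := (Th_box H.hb H.L.L A (Or.inr hK)).2
    rwa [hc] at this
  · intro hK
    unfold Th
    rw [abs_ofs]
    exact A.rr_height H.L.L hc hK

end TL

end Pool.Agent.Work.MP_b30479_gtS.G2

end

section

/-!
# Tails, word level: the gain of an untouched ring
-/

namespace Pool.Agent.Work.MP_b30479_gtS.G2

open Finset VOL Filter Topology SR

namespace TL

variable {M : ℕ} {b : Fin (M + 1) → ℤ} {zs z : DD (tyW b) ⊕ ZZ (tyW b) → ℂ}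
variable {R : Finset (DD (tyW b))} {h h' : Fin M} {i j j' k : Fin (M + 1)} {p q : Fin 3}

/-- **The gain of an untouched ring.** -/
theorem Tl.gain_ring (H : Tl b zs R z) (A : Adj h j q i) (hi : Tch b R i) (hj : ¬ Tch b R j)
    (hc : clsW b j = .ring) :
    Gn (clsW b i) (tgt b R h (z (.inl (.inl h))).re) (z (.inl (.inl h))).re (Th b zs h j) .ring
      (pc b R zs z j q) := by
  have hv : (tyW b j).isRing = true := by
    rw [tyW_of_ring H.hb hc]
    rfl
  exact H.gain_ring_of A hi hj ⟨j, hv⟩ rfl (H.ring_le ⟨j, hv⟩ A hi hj)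

end TL

end Pool.Agent.Work.MP_b30479_gtS.G2

end

section

/-!
# Push-back of the digits, uniqueness of the inner variables
-/

namespace Pool.Agent.Work.MP_b30479_gtS.G2

open Finset VOL Filter Topology

namespace SR

variable {M : ℕ} {b : Fin (M + 1) → ℤ} {zs : DD (tyW b) ⊕ ZZ (tyW b) → ℂ}
variable {y : DD (tyW b) ⊕ ZZ (tyW b) → ℝ}
variable {h h' : Fin M} {i j j' k : Fin (M + 1)} {p : Fin 3}

/-- what the push-back of the digits uses at a maximiser -/
structure PushIn (b : Fin (M + 1) → ℤ) (zs : DD (tyW b) ⊕ ZZ (tyW b) → ℂ)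
    (y : DD (tyW b) ⊕ ZZ (tyW b) → ℝ) : Prop where
  flat : Flat b y
  c64 : ∀ {h : Fin M} {i j : Fin (M + 1)} {p : Fin 3}, Adj h i p j → clsW b i = .one →
    clsW b j = .one → y (.inl (.inl h)) ≤ 64 / 100
  half : ∀ {h : Fin M} {i j : Fin (M + 1)} {p : Fin 3}, Adj h i p j →
    (clsW b i ≠ .one ∨ clsW b j ≠ .one) → y (.inl (.inl h)) < 1 / 2
  sum : Sum1 b y (90 / 100)
  v3 : ∀ {h h' : Fin M} {i j k : Fin (M + 1)}, Adj h i 0 j → Adj h' i 2 k → clsW b i = .three →
    y (.inl (.inl h)) ∈ Set.Icc (((M3.prm (clsW b j) (clsW b k)).vl : ℝ) / 10000)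
      (((M3.prm (clsW b j) (clsW b k)).vh : ℝ) / 10000)
  u3 : ∀ {h h' : Fin M} {i j k : Fin (M + 1)}, Adj h i 0 j → Adj h' i 2 k → clsW b i = .three →
    y (.inl (.inl h')) ∈ Set.Icc (((M3.prm (clsW b j) (clsW b k)).ul : ℝ) / 10000)
      (((M3.prm (clsW b j) (clsW b k)).uh : ℝ) / 10000)
  mid : ∀ {i : Fin (M + 1)} (hc : clsW b i = .three),
    5 / 100 < y (.inl (.inr (mI b hc))) ∧ y (.inl (.inr (mI b hc))) < 3 / 4

/-- the two hinges of an interior region -/
theorem Adj.both (A : Adj h i p j) (b : Fin (M + 1) → ℤ) (hi : isEnd i = false) :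
    ∃ (g g' : Fin M) (l l' : Fin (M + 1)), Adj g i 0 l ∧ Adj g' i 2 l' ∧
      ((p = 0 ∧ g = h ∧ l = j) ∨ (p = 2 ∧ g' = h ∧ l' = j)) := by
  obtain ⟨h1, j1, A1⟩ := A.other' b hi
  rcases A.slot with rfl | rfl
  · exact ⟨h, h1, j, j1, A, A1, Or.inl ⟨rfl, rfl, rfl⟩⟩
  · exact ⟨h1, h, j1, j, A1, A, Or.inr ⟨rfl, rfl, rfl⟩⟩

/-- **Push-back of the digits.** -/
theorem push_digit (hb : ClassW b) (H : LocA b zs) (hy : Mx b zs y)
    (hpos : ∀ h : Fin M, 0 < y (.inl (.inl h))) (I : PushIn b zs y) (A : Adj h i p j)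
    (hc : clsW b i ≠ .ring) : Push' (tyW b) b i p p.rev (Xw b zs y i) (xx (tyW b) i zs) := by
  rcases hi : clsW b i with _ | _ | _ | _ | _ | _
  · refine A.push1A hb H.L H.X H.P H.S hy I.flat I.c64 I.sum hi ?_
    by_cases hj : clsW b j = .one
    · exact Or.inl hj
    · exact Or.inr (I.half A (Or.inr hj)).le
  · refine A.push2 hb H.L hy I.flat hi (I.half A (Or.inl (by rw [hi]; decide))).le ?_
    intro h' j' A'
    linarith [I.half A (Or.inl (by rw [hi]; decide)), I.half A' (Or.inl (by rw [hi]; decide))]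
  · exact A.push2E hb H.L hy I.flat hi (I.half A (Or.inl (by rw [hi]; decide))).le
  · obtain ⟨g, g', l, l', B, B', hs⟩ := A.both b (clsW_inner hb (Or.inr (Or.inr hi)))
    have m := I.mid hi
    rcases hs with ⟨rfl, rfl, rfl⟩ | ⟨rfl, rfl, rfl⟩
    · exact push3_zero hb H.L H.X H.C hy hpos I.flat B B' hi (I.u3 B B' hi) (I.v3 B B' hi) m.1 m.2
    · exact push3_two hb H.L H.X H.C hy hpos I.flat B B' hi (I.u3 B B' hi) (I.v3 B B' hi) m.1 m.2
  · exact A.push3 hb H.L H.C hy hi (I.flat h).1 (I.flat h).2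
  · exact absurd hi hc

end SR

end Pool.Agent.Work.MP_b30479_gtS.G2

end

section

/-!
# The parts of the argument on the main paths, from the location of a maximiser
-/

namespace Pool.Agent.Work.MP_b30479_gtS.G2

open Finset VOL Filter Topology

namespace SR

variable {M : ℕ} {b : Fin (M + 1) → ℤ} {zs : DD (tyW b) ⊕ ZZ (tyW b) → ℂ}
variable {y : DD (tyW b) ⊕ ZZ (tyW b) → ℝ}
variable {h h' : Fin M} {i j j' k : Fin (M + 1)} {p : Fin 3}

/-- every region of a word with at least two regions has a hinge -/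
theorem exists_adj' (hM : 1 ≤ M) (i : Fin (M + 1)) :
    ∃ (h : Fin M) (p : Fin 3) (j : Fin (M + 1)), Adj h i p j := by
  rcases Fin.eq_castSucc_or_eq_last i with ⟨h, rfl⟩ | hi
  · exact ⟨h, 2, _, .l⟩
  · obtain ⟨m, rfl⟩ : ∃ m, M = m + 1 := ⟨M - 1, by omega⟩
    subst hi
    exact ⟨Fin.last m, 0, _, .r⟩

/-- **The parts of the argument on the main paths.** -/
theorem mainPartsS_of (hM : 1 ≤ M) (hb : ClassW b) (H : LocA b zs)
    (key : ∀ y, Mx b zs y → (∀ h : Fin M, 0 < y (.inl (.inl h))) → PushIn b zs y)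
    (hrin : ∀ y, Mx b zs y → PushIn b zs y →
      (∀ h : Fin M, y (.inl (.inl h)) = (zs (.inl (.inl h))).re) →
      ∀ v : ZZ (tyW b), y (.inr v) = (zs (.inr v)).re)
    (hq : ∀ y, Mx b zs y → PushIn b zs y → ∀ {h : Fin M} {i j : Fin (M + 1)} {p : Fin 3},
      Adj h i p j → clsW b i = .ring → PushS (tyW b) b (wpar b zs) zs y h) :
    MainPartsS b zs where
  ring y hy v := ring_lt_half hb H.L H.X H.R hy v
  left y hy hpos h := ((key y hy hpos).flat h).1
  right y hy hcl h := ((key y hy fun h => (wcl_pos h).trans_le (hcl h)).flat h).2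
  mid y hy hh m := by
    have hpos : ∀ h : Fin M, 0 < y (.inl (.inl h)) := fun h => by
      rw [hh h]
      exact (wcl_pos h).trans (H.L.flatD (.inl h)).1
    have I := key y hy hpos
    obtain ⟨h, p, j, A⟩ := exists_adj' hM m.1
    have hc := clsW_mid m.2
    split_ifs at hc with he
    · exact A.inner3 hb H.L H.C hy hc (I.flat h).1 (I.flat h).2 (hh h)
    · obtain ⟨g, g', l, l', B, B', -⟩ := A.both b (by simpa using he)
      exact inner3 hb H.L H.X H.C hy hpos I.flat B B' hc hh (I.mid hc).1 (I.mid hc).2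
  rin y hy hh := by
    have hpos : ∀ h : Fin M, 0 < y (.inl (.inl h)) := fun h => by
      rw [hh h]
      exact (wcl_pos h).trans (H.L.flatD (.inl h)).1
    exact hrin y hy (key y hy hpos) hh
  push y hy hf h := by
    have hpos : ∀ h : Fin M, 0 < y (.inl (.inl h)) := fun h => (wcl_pos h).trans_le (hf h).1
    have I := key y hy hpos
    by_cases h1 : clsW b h.castSucc = .ring
    · exact hq y hy I .l h1
    by_cases h2 : clsW b h.succ = .ring
    · exact hq y hy I .r h2
    exact PushS.of_push H.C.inn H.C.dT (push_digit hb H hy hpos I .l h1)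
      (push_digit hb H hy hpos I .r h2)

end SR

end Pool.Agent.Work.MP_b30479_gtS.G2

end

section

/-!
# Tails: the new point is admissible
-/

namespace Pool.Agent.Work.MP_b30479_gtS.G2

open Finset VOL Filter Topology SR

namespace TL

variable {M : ℕ} {b : Fin (M + 1) → ℤ} {zs z : DD (tyW b) ⊕ ZZ (tyW b) → ℂ}
variable {R : Finset (DD (tyW b))} {h h' : Fin M} {i j j' k : Fin (M + 1)} {p q : Fin 3}

/-- a point above the flat part of a path -/
theorem on_flat {D : Type} (P : Par D) {t c : ℝ} {i : D} (h0 : 0 < P.cl i) (h0' : 0 < P.cr i)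
    (h1 : P.cl i ≤ c) (h2 : c ≤ P.XM i - P.cr i) : P.On t i ⟨c, t⟩ 0 := by
  refine ⟨c, by linarith, by linarith, Or.inl ⟨?_, rfl⟩⟩
  apply Complex.ext
  · rw [ptm_re]
  · rw [ptm_im, tr_flat h0 h0' h1 h2, mul_one]

/-- the target of a hinge in the tail is on the flat part of the path -/
theorem flat_T (A : Adj h i p j) : wcl b h ≤ cT (clsW b i) (clsW b j) ∧
    cT (clsW b i) (clsW b j) ≤ wXM b h - wcr b h := by
  rw [A.cl_eq b, A.cr_eq b, A.XM_eq b]
  unfold hpp
  rcases clsW b i <;> rcases clsW b j <;> simp only [cT] <;> split_ifs <;>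
    simp only [hp, hp1] <;> (try split_ifs) <;> norm_num

theorem hp_flat (P A B Q : Cl) : (hp P A B Q).cl ≤ 16 / 100 ∧
    26 / 100 ≤ (hp P A B Q).XM - (hp P A B Q).cr ∧
    (A = .one ∨ B = .one → 35 / 100 ≤ (hp P A B Q).XM - (hp P A B Q).cr) ∧
    (A = .three ∨ B = .three → (hp P A B Q).cl ≤ 15 / 100) := by
  rcases A <;> rcases B <;> simp only [hp, hp1] <;> (try split_ifs) <;> norm_num <;> decide

/-- the targets of the real hinges are on the flat parts of the paths -/
theorem flat_C (A : Adj h i p j) {c : ℝ}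
    (h1 : 16 / 100 ≤ c ∨ (clsW b j = .three ∧ 15 / 100 ≤ c))
    (h2 : c ≤ 25 / 100 ∨ (clsW b j = .one ∧ c ≤ 28 / 100)) :
    wcl b h ≤ c ∧ c ≤ wXM b h - wcr b h := by
  rw [A.cl_eq b, A.cr_eq b, A.XM_eq b]
  unfold hpp
  have e1 := hp_flat (oc b i p.rev) (clsW b i) (clsW b j) (oc b j p)
  have e2 := hp_flat (oc b j p) (clsW b j) (clsW b i) (oc b i p.rev)
  constructor
  · rcases h1 with h1 | ⟨h3, h1⟩
    · split_ifs
      · linarith [e1.1]
      · linarith [e2.1]
    · split_ifs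
      · linarith [e1.2.2.2 (Or.inr h3)]
      · linarith [e2.2.2.2 (Or.inl h3)]
  · rcases h2 with h2 | ⟨h3, h2⟩
    · split_ifs
      · linarith [e1.2.1]
      · linarith [e2.2.1]
    · split_ifs
      · linarith [e1.2.2.1 (Or.inr h3)]
      · linarith [e2.2.2.1 (Or.inl h3)]

/-- the targets of the real hinges which are not in the tail: `C` is the kind of the region behind
the hinge -/
theorem tgK_mem (b : Fin (M + 1) → ℤ) (R : Finset (DD (tyW b))) (i j : Fin (M + 1)) (p : Fin 3)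
    (C : Ct) (hC : C.ok (clsW b j)) (x : ℝ) :
    (16 / 100 ≤ tgK b R i p C x ∨ (clsW b j = .three ∧ 15 / 100 ≤ tgK b R i p C x)) ∧
    (tgK b R i p C x ≤ 25 / 100 ∨ (clsW b j = .one ∧ tgK b R i p C x ≤ 28 / 100)) := by
  unfold tgK
  rcases C <;> simp only [Ct.ok] at hC <;> split_ifs <;> simp only [cZ, cN, cW, cU] <;>
    (try split_ifs) <;> norm_num [hC]

theorem flat_h (hn : nbH b R h) (x : ℝ) :
    wcl b h ≤ tgt b R h x ∧ tgt b R h x ≤ wXM b h - wcr b h := by
  by_cases ht : isT b R h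
  · rw [tgt_T (Adj.l (h := h)) ht]
    exact flat_T (Adj.l (h := h))
  · rcases hn with hn | hn
    · rw [tgt_nb (Adj.l (h := h)) hn ht]
      obtain ⟨e1, e2⟩ := tgK_mem b R h.castSucc h.succ 2 _ (kb_ok b R h.succ (Fin.rev 2)) x
      exact flat_C (Adj.l (h := h)) e1 e2
    · rw [tgt_nb (Adj.r (h := h)) hn ht]
      obtain ⟨e1, e2⟩ := tgK_mem b R h.succ h.castSucc 0 _ (kb_ok b R h.castSucc (Fin.rev 0)) x
      exact flat_C (Adj.r (h := h)) e1 e2

theorem flat_M (hM : 1 ≤ M) (m : {i : Fin (M + 1) // (tyW b i).isMid = true})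
    (hn : nbM b R m.1 ∨ mvM b R z m) (x : Fin M → ℝ) :
    (mp (clsW b m.1)).cl ≤ tmt b R m.1 x ∧
      tmt b R m.1 x ≤ (mp (clsW b m.1)).XM - (mp (clsW b m.1)).cr := by
  by_cases hc : clsW b m.1 = .threeE
  · obtain ⟨h, p, j, A⟩ := exists_adj' hM m.1
    have hh : nbH b R h := by
      rw [nbH_iff A]
      rcases hn with (h1 | ⟨-, h1, p1, j1, A1, h2⟩) | ⟨⟨h1, j1, A1, h2⟩, -⟩
      · exact Or.inl h1
      · have e0 := A.slot_end A1 (clsW_end (Or.inr hc))
        subst e0
        obtain ⟨rfl, rfl⟩ := adj_uniq A A1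
        exact Or.inr h2
      · have e0 := A.slot_end A1 (clsW_end (Or.inr hc))
        subst e0
        obtain ⟨rfl, rfl⟩ := adj_uniq A A1
        exact (nbH_iff A).1 h2
    obtain ⟨f1, f2⟩ := flat_h hh (x h)
    rw [tmt_threeE A hc, hc]
    have e1 : 1 / 10 ≤ wcl b h := by
      rw [A.cl_eq b, hc]
      unfold hpp
      split_ifs <;> rcases clsW b j <;> simp only [hp, hp1] <;> norm_num
    have e2 : wXM b h - wcr b h ≤ 35 / 100 := by
      rw [A.cr_eq b, A.XM_eq b, hc]
      unfold hpp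
      split_ifs <;> rcases clsW b j <;> simp only [hp, hp1] <;> norm_num
    have e3 : ∀ C : Ct, 0 ≤ dE C ∧ dE C ≤ 1 / 6 := by
      intro C
      rcases C <;> simp only [dE] <;> norm_num
    simp only [mp]
    constructor
    · split_ifs
      · linarith [(e3 (kb b R j p.rev)).1]
      · linarith
    · split_ifs
      · linarith [(e3 (kb b R j p.rev)).2]
      · linarith
  · have e1 : mp (clsW b m.1) = ⟨8 / 10, 5 / 100, 5 / 100⟩ := by
      rcases hc' : clsW b m.1 <;> first | rfl | exact absurd hc' hc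
    unfold tmt
    rw [if_neg hc, e1]
    split_ifs <;> norm_num

/-- **The new point is admissible.** -/
theorem Tl.adm (H : Tl b zs R z) (hM : 1 ≤ M) {c : ZZ (tyW b) → ℝ}
    (hc : ∀ v : ZZ (tyW b), Tch b R v.1 → |c v| ≤ 1 / 4) :
    Adm (wdat (tyW b) b) (wparM b zs) zs ∅ ∅ (zN b R zs z c) 0 := by
  refine ⟨?_, ?_, ?_, ?_, ?_, ?_⟩
  · exact fun i hi => absurd hi (Finset.notMem_empty i)
  · exact fun i _ hi => absurd hi (Finset.notMem_empty _)
  · exact fun v hv => absurd hv (Finset.notMem_empty _)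
  · intro d _
    have hg := par1_good b d
    rcases d with h | m
    · by_cases hn : nbH b R h
      · rw [zN_h b R zs z c hn]
        obtain ⟨f1, f2⟩ := flat_h hn (z (.inl (.inl h))).re
        exact on_flat (wparM b zs) hg.1 hg.2.1 f1 f2
      · rw [zN_h' b R zs z c hn]
        obtain ⟨e1, e2, e3⟩ := H.path hn
        refine ⟨_, e1, e2, Or.inl ⟨?_, rfl⟩⟩
        apply Complex.ext
        · rw [ptm_re]
        · rw [ptm_im]
          exact e3
    · by_cases hn : nbM b R m.1 ∨ mvM b R z m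
      · rw [zN_m b R zs z c m hn]
        obtain ⟨f1, f2⟩ := flat_M hM m hn fun h => (z (.inl (.inl h))).re
        exact on_flat (wparM b zs) hg.1 hg.2.1 f1 f2
      · rw [zN_m' b R zs z c m hn]
        obtain ⟨e1, e2, e3⟩ := H.mpath fun h1 => hn (Or.inl h1)
        refine ⟨_, e1, e2, Or.inl ⟨?_, rfl⟩⟩
        apply Complex.ext
        · rw [ptm_re]
        · rw [ptm_im]
          exact e3
  · intro v _
    by_cases hv : Tch b R v.1
    · rw [zN_z b R zs z c v hv]
      refine ⟨ofs (b v.1) (c v), ?_, ?_⟩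
      · rw [abs_ofs]
        linarith [hc v hv]
      · have e2 : LT.th (ofs (b v.1) (c v)) = 1 := by
          rw [th_ofs]
          exact th_of_le (hc v hv)
        rw [zt_eq, e2, mul_one]
        apply Complex.ext <;> simp
    · rw [zN_z' b R zs z c v hv]
      exact H.mx.adm.onZ v fun h1 => hv ((tch_ring_iff v).1 h1)
  · intro k hk hk'
    have h0 : ∀ j, (wdat (tyW b) b).A k j = 0 := by
      intro j
      rcases j with i | v
      · by_contra hne
        exact absurd (hk' i hne) (Finset.notMem_empty _)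
      · exact hk v
    have hf : ∀ z, (wdat (tyW b) b).form k z = (wdat (tyW b) b).a k := by
      intro z
      unfold Dat.form
      simp [h0]
    have := H.mx.adm.wall k hk fun i hi => absurd (h0 (.inl i)) hi
    rw [hf] at this ⊢
    exact this

end TL

end Pool.Agent.Work.MP_b30479_gtS.G2

end
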