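import Pool.Agent.Work.MP_b30479_gt.TBS.G2.H13

section

/-!
# Right side of the hinge `1 | 3` (slot `0`): inner variable on its right ramp

The hinge is on its ramp `[55/100, 65/100]`, the inner variable is `r + 20 t (8/10 - r) i`,
`75/100 ≤ r ≤ 8/10`: no first order condition is needed.
-/

set_option linter.unusedSimpArgs false

set_option deprecated.oldSectionVars true

namespace Pool.Agent.Work.MP_b30479_gtS.G2

open VOL NumIs

namespace HX

/-- certificate -/
def rRC (a b xc c x0 x1 T0 T1 t0 t1 s0 s1 : ℤ) : Bool :=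
  chk [E.neg (E.add (afE a b xc c (E.var 0) (E.var 1))
      (s3E (mrE (E.var 1)) (E.var 0) (hrE (E.var 0) (E.var 1)) (E.sub (E.q 8 10) (E.var 3))
        (E.mul (E.mul (E.q 20 1) (E.var 2)) (E.var 3)))),
      E.sub (E.add (E.var 2) (E.var 1)) (E.q s1 10000),
      E.sub (E.q s0 10000) (E.add (E.var 2) (E.var 1))] 22
      [V.of 10000 x0 x1, V.of 10000 T0 T1, V.of 10000 t0 t1, V.of 10000 0 500]

theorem rR_use {a b xc c x0 x1 T0 T1 t0 t1 s0 s1 : ℤ} {x T t r hh m τ : ℝ}
    (h : rRC a b xc c x0 x1 T0 T1 t0 t1 s0 s1 = true)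
    (hx : (x0 : ℝ) / 10000 ≤ x) (hx' : x ≤ (x1 : ℝ) / 10000) (hT : (T0 : ℝ) / 10000 ≤ T)
    (hT' : T ≤ (T1 : ℝ) / 10000) (ht : (t0 : ℝ) / 10000 ≤ t) (ht' : t ≤ (t1 : ℝ) / 10000)
    (hs : (s0 : ℝ) / 10000 ≤ t + T) (hs' : t + T ≤ (s1 : ℝ) / 10000)
    (hr : 75 / 100 ≤ r) (hr' : r ≤ 80 / 100) (hτ : τ = 20 * t * (8 / 10 - r))
    (hh' : hh = -(T * (20 / 3 * (65 / 100 - x)))) (hm : m = 20 / 3 * T) :
    s3 m x hh r τ < -(af a b xc c x T) := by
  obtain ⟨e, he, hp⟩ := chk4 h (by norm_num) (x := x) (y := T) (z := t) (w := 8 / 10 - r)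
    (by push_cast; exact hx) (by push_cast; exact hx') (by push_cast; exact hT)
    (by push_cast; exact hT') (by push_cast; exact ht) (by push_cast; exact ht')
    (by push_cast; linarith only [hr']) (by push_cast; linarith only [hr])
  have eh : (hrE (E.var 0) (E.var 1)).val [x, T, t, 8 / 10 - r] = hh := by
    rw [hh']
    simp only [hrE, E.val, lkR]
    push_cast
    ring
  have em : (mrE (E.var 1)).val [x, T, t, 8 / 10 - r] = m := by
    rw [hm]
    simp only [mrE, E.val, lkR]
    push_cast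
    ring
  have er : (E.sub (E.q 8 10) (E.var 3)).val [x, T, t, 8 / 10 - r] = r := by
    simp only [E.val, lkR]
    push_cast
    ring
  have et : (E.mul (E.mul (E.q 20 1) (E.var 2)) (E.var 3)).val [x, T, t, 8 / 10 - r] = τ := by
    rw [hτ]
    simp only [E.val, lkR]
    push_cast
    ring
  simp only [List.mem_cons, List.mem_nil_iff, or_false] at he
  rcases he with rfl | rfl | rfl
  · rw [E.val, E.val, s3E_val, afE_val (x := x) (T := T) a b xc c rfl rfl, eh, em, er, et] at hp
    simp only [E.val, lkR] at hp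
    linarith only [hp]
  · exfalso
    simp only [E.val, lkR] at hp
    push_cast at hp
    linarith only [hs', hp]
  · exfalso
    simp only [E.val, lkR] at hp
    push_cast at hp
    linarith only [hs, hp]

theorem cRa : rRC 10992 (-20587) 6000 144269 5500 6350 210 1145 (-820) 50 (-400) 840 = true := by
  decide +kernel

theorem cRb : rRC 10992 (-20587) 6000 144269 6350 6500 210 940 (-820) 50 (-400) 840 = true := by
  decide +kernel

/-- the side of the digit `3`, inner variable on its right ramp -/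
theorem three_R {u v : ℂ} {T t r m : ℝ} (h1 : v.re = r) (h2 : v.im = 20 * t * (8 / 10 - r))
    (hr : 75 / 100 ≤ r) (hr' : r ≤ 80 / 100) (hx : 55 / 100 ≤ u.re) (hx' : u.re ≤ 65 / 100)
    (hd : u.re ≤ 635 / 1000 ∨ T ≤ 94 / 1000) (hT : 21 / 1000 ≤ T) (hT' : T ≤ 1145 / 10000)
    (ht : -82 / 1000 ≤ t) (ht' : t ≤ 5 / 1000) (hs : -40 / 1000 ≤ t + T)
    (hs' : t + T ≤ 84 / 1000) (hu : u.im = -(T * (20 / 3 * (65 / 100 - u.re))))
    (hm : m = 20 / 3 * T) : S3 1 m u v < -fD u.re T := by
  rw [S3_eq (by linarith only [hx]) (by linarith only [hx']) (by linarith only [h1, hr, hx']) (by linarith only [h1, hr', hx]), h1]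
  unfold fD
  rcases le_or_gt u.re (635 / 1000) with h5 | h5
  · exact rR_use cRa (by push_cast; linarith only [hx]) (by push_cast; linarith only [h5]) (by push_cast; linarith only [hT])
      (by push_cast; linarith only [hT']) (by push_cast; linarith only [ht]) (by push_cast; linarith only [ht'])
      (by push_cast; linarith only [hs]) (by push_cast; linarith only [hs']) hr hr' h2 hu hm
  · have hT2 : T ≤ 94 / 1000 := hd.resolve_left (not_le.2 h5)
    exact rR_use cRb (by push_cast; linarith only [h5]) (by push_cast; linarith only [hx']) (by push_cast; linarith only [hT])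
      (by push_cast; linarith only [hT2]) (by push_cast; linarith only [ht]) (by push_cast; linarith only [ht'])
      (by push_cast; linarith only [hs]) (by push_cast; linarith only [hs']) hr hr' h2 hu hm

end HX

end Pool.Agent.Work.MP_b30479_gtS.G2

end

section

/-!
# Right side of the hinge `1 | 3` (slot `0`): `1 | 3 | 1`, hinge in `[47/100, 475/1000]`

No conditional floor of the hinge in the slot `2` is used.
-/

set_option deprecated.oldSectionVars true

namespace Pool.Agent.Work.MP_b30479_gtS.G2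

open VOL NumIs

namespace HX

theorem cSh :
    f3C 1847 (-5152) 4875 (-15169) 1100 (-150) 4700 4750 210 1145 400 2800 (-900) (-180) (-450)
      700 7500 0 = true := by
  decide +kernel

theorem cSl :
    f3C 1847 (-5152) 4875 (-15169) 1100 (-1145) 4700 4750 210 1145 400 2800 (-900) (-180) (-450)
      700 7500 0 = true := by
  decide +kernel

theorem cS1 :
    f1C 1847 (-5152) 4875 (-15169) 4700 4750 210 920 1879 4800 (-910) 490 (-220) 1110 = true := by
  decide +kernel

theorem cS2 :
    f1C 1847 (-5152) 4875 (-15169) 4700 4750 460 940 2282 4800 100 770 780 1480 = true := by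
  decide +kernel

theorem cSE :
    f1C 1847 (-5152) 4875 (-15169) 4700 4750 870 1145 2344 3500 (-450) (-250) 510 770 = true := by
  decide +kernel

set_option deprecated.oldSectionVars false
variable {u v w : ℂ} {P K : SR.Cl} {x T k κ : ℝ}

/-- the side of the digit `3`, `1 | 3 | 1`, `.47 ≤ x ≤ .475` -/
theorem three_S (H : In3 K u v w T) (hK : K = .one) (hx : 47 / 100 ≤ u.re)
    (hx' : u.re ≤ 475 / 1000) (hu : u.im = -T) : S3 1 0 u v < -(fB u.re T) := by
  subst hK
  have d := H.v1
  have d1 := H.w0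
  have hx0 : 45 / 100 ≤ u.re := by linarith only [hx]
  have e1 : ((4700 : ℤ) : ℝ) / 10000 ≤ u.re := by push_cast; linarith only [hx]
  have e2 : u.re ≤ ((4750 : ℤ) : ℝ) / 10000 := by push_cast; linarith only [hx']
  have e3 : v.re - u.re ≤ ((2800 : ℤ) : ℝ) / 10000 := by push_cast; linarith only [hx, d, H.v1]
  have e4 : ((400 : ℤ) : ℝ) / 10000 ≤ v.re - u.re := by push_cast; linarith only [H, H.p0]
  have e5 : ((0 : ℤ) : ℝ) / 10000 ≤ v.re := by push_cast; linarith only [hx, e4, H.p0]
  have e6 : v.re ≤ ((7500 : ℤ) : ℝ) / 10000 := by push_cast; linarith only [d, H.v1]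
  have e7 : ((1100 : ℤ) : ℝ) / 10000 = 11 / 100 := by norm_num
  exact flat3_k (K := .one) cSl cSh H hx0 e1 e2 e4 e3 e6 e5 hu (by rw [e7]; norm_num) e7.ge
    (by rw [e7]; linarith only [d]) (by rw [e7]; exact d1)

/-- the side of the digit `1`, `.47 ≤ x ≤ .475` -/
theorem one_S (H : In1 P x T k κ) (hx0 : 47 / 100 ≤ x) (hx : x ≤ 475 / 1000) :
    MR.s1 0 x T k κ < fB x T := by
  obtain ⟨hP, x0, x1, s, E, T0, T1, k0, k1, s0, s1, f⟩ := H
  unfold fB
  rcases hP with rfl | rfl | rfl
  · simp only [SR.cw] at T0 T1 k0 k1 s0 s1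
    have hf := f.1 hx
    refine flat1 cS1 ?_ ?_ ?_ ?_ ?_ ?_ ?_ ?_ ?_ ?_ s <;>
      first | linarith only [hx0, hx, T0, T1, hf, s, k0, k1, s0, s1] | (push_cast; linarith)
  · simp only [SR.cw] at T0 T1 k0 k1 s0 s1
    have hf := f.1 hx
    refine flat1 cS2 ?_ ?_ ?_ ?_ ?_ ?_ ?_ ?_ ?_ ?_ s <;>
      first | linarith only [hx0, hx, T0, T1, hf, s, k0, k1, s0, s1] | (push_cast; linarith)
  · simp only [SR.cw] at T0 T1 k0 k1 s0 s1
    have hf := f.1 hx
    have hE := E rfl
    refine flat1 cSE ?_ ?_ ?_ ?_ ?_ ?_ ?_ ?_ ?_ ?_ s <;>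
      first | linarith only [hx0, hx, T0, T1, hf, hE, k0, k1, s0, s1] | (push_cast; linarith)

end HX

end Pool.Agent.Work.MP_b30479_gtS.G2

end

section

/-!
# The hinge `1 | 3` (slot `0`) close to its end, other neighbour of the `1`: a `2` at an end

The hinge is in `[635/1000, 65/100]`.
-/

set_option linter.unusedSimpArgs false

set_option deprecated.oldSectionVars true

namespace Pool.Agent.Work.MP_b30479_gtS.G2

open Finset VOL Filter Topology

namespace HX

open SR NumIs

theorem eP : r1C 10727 0 6425 134000 6350 6500 870 1145 1594 3150 (-450) (-250) 510 770 = true := by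
  decide +kernel

theorem eK1l :
    r3C 10727 0 6425 134000 1100 (-1145) 6350 6500 870 1145 400 1150 (-800) (-180) (-450) 700 7500 = true := by
  decide +kernel

theorem eK1h :
    r3C 10727 0 6425 134000 1100 (-150) 6350 6500 870 1145 400 1150 (-800) (-180) (-450) 700 7500 = true := by
  decide +kernel

theorem eKOl :
    r3C 10727 0 6425 134000 1100 (-570) 6350 6500 870 1145 400 1150 (-820) 50 (-400) 840 7500 = true := by
  decide +kernel

theorem eKOh :
    r3C 10727 0 6425 134000 1100 220 6350 6500 870 1145 400 1150 (-820) 50 (-400) 840 7500 = true := by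
  decide +kernel

theorem eKZl :
    r3C 10727 0 6425 134000 1100 (-40) 6350 6500 870 1145 400 1150 (-720) 0 (-340) 800 7500 = true := by
  decide +kernel

theorem eKZh :
    r3C 10727 0 6425 134000 1100 570 6350 6500 870 1145 400 1150 (-720) 0 (-340) 800 7500 = true := by
  decide +kernel

theorem eKEl :
    r3C 10727 0 6425 134000 1100 (-980) 6350 6500 870 1145 400 1150 (-620) (-50) (-200) 750 7500 = true := by
  decide +kernel

theorem eKEh :
    r3C 10727 0 6425 134000 1100 (-640) 6350 6500 870 1145 400 1150 (-620) (-50) (-200) 750 7500 = true := by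
  decide +kernel

theorem eR : rRC 10727 0 6425 134000 6350 6500 870 1145 (-820) 50 (-400) 840 = true := by
  decide +kernel

/-- bounding function -/
noncomputable def fE (x T : ℝ) : ℝ := af 10727 0 6425 134000 x T

set_option deprecated.oldSectionVars false
variable {u v w : ℂ} {P K : Cl} {x T k κ hh m t r : ℝ}

/-- the side of the digit `3` -/
theorem three_E (H : In3 K u v w T) (hT : 87 / 1000 ≤ T) (h1 : K = .one → -80 / 1000 ≤ v.im)
    (hx : 635 / 1000 ≤ u.re) (hx1 : u.re ≤ 65 / 100)
    (hu : u.im = -(T * (20 / 3 * (65 / 100 - u.re)))) (hm : m = 20 / 3 * T) :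
    S3 1 m u v < -(fE u.re T) := by
  obtain ⟨T0, T1, p0, v1, m0, m1, s0, s1, w0, w1, h2, h3, n, f⟩ := H
  have e : ((1100 : ℤ) : ℝ) / 10000 = 11 / 100 := by norm_num
  have a1 : 1 / 2 ≤ v.re + ((1100 : ℤ) : ℝ) / 10000 := by rw [e]; linarith only [hx, p0]
  have a2 : v.re + ((1100 : ℤ) : ℝ) / 10000 < 1 := by rw [e]; linarith only [v1]
  have a3 : ((1100 : ℤ) : ℝ) / 10000 ≤ w.re := by rw [e]; linarith only [w0]
  have a4 : v.re + w.re ≤ 2 - (v.re + ((1100 : ℤ) : ℝ) / 10000) := by rw [e]; linarith only [v1, w1]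
  have b1 : ((6350 : ℤ) : ℝ) / 10000 ≤ u.re := by push_cast; linarith only [hx]
  have b2 : u.re ≤ ((6500 : ℤ) : ℝ) / 10000 := by push_cast; linarith only [hx1]
  have b3 : ((870 : ℤ) : ℝ) / 10000 ≤ T := by push_cast; linarith only [hT]
  have b4 : T ≤ ((1145 : ℤ) : ℝ) / 10000 := by push_cast; linarith only [T1]
  have b5 : ((400 : ℤ) : ℝ) / 10000 ≤ v.re - u.re := by push_cast; linarith only [p0]
  have b6 : v.re - u.re ≤ ((1150 : ℤ) : ℝ) / 10000 := by push_cast; linarith only [hx, v1]
  have b7 : v.re ≤ ((7500 : ℤ) : ℝ) / 10000 := by push_cast; linarith only [v1]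
  unfold fE
  cases K
  case one =>
    have q := h1 rfl
    exact ramp3_c eK1l eK1h (by linarith only [hx]) (by linarith only [hx1]) (by linarith only [p0]) (by linarith only [v1]) b1 b2 b3 b4
      b5 b6 (by push_cast; linarith only [q]) m1 s0 s1 b7 hu hm a1 a2 a3 a4 h2 h3 n f
  case two =>
    exact ramp3_c eKOl eKOh (by linarith only [hx]) (by linarith only [hx1]) (by linarith only [p0]) (by linarith only [v1]) b1 b2 b3 b4
      b5 b6 m0 m1 s0 s1 b7 hu hm a1 a2 a3 a4 h2 h3 n f
  case twoE =>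
    exact ramp3_c eKEl eKEh (by linarith only [hx]) (by linarith only [hx1]) (by linarith only [p0]) (by linarith only [v1]) b1 b2 b3 b4
      b5 b6 m0 m1 s0 s1 b7 hu hm a1 a2 a3 a4 h2 h3 n f
  case three =>
    exact ramp3_c eKOl eKOh (by linarith only [hx]) (by linarith only [hx1]) (by linarith only [p0]) (by linarith only [v1]) b1 b2 b3 b4
      b5 b6 m0 m1 s0 s1 b7 hu hm a1 a2 a3 a4 h2 h3 n f
  case threeE =>
    exact ramp3_c eKOl eKOh (by linarith only [hx]) (by linarith only [hx1]) (by linarith only [p0]) (by linarith only [v1]) b1 b2 b3 b4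
      b5 b6 m0 m1 s0 s1 b7 hu hm a1 a2 a3 a4 h2 h3 n f
  case ring =>
    exact ramp3_c eKZl eKZh (by linarith only [hx]) (by linarith only [hx1]) (by linarith only [p0]) (by linarith only [v1]) b1 b2 b3 b4
      b5 b6 m0 m1 s0 s1 b7 hu hm a1 a2 a3 a4 h2 h3 n f

/-- the side of the digit `3`, inner variable on its right ramp -/
theorem three_RE (h1 : v.re = r) (h2 : v.im = 20 * t * (8 / 10 - r))
    (hr : 75 / 100 ≤ r) (hr' : r ≤ 80 / 100) (hx : 635 / 1000 ≤ u.re) (hx' : u.re ≤ 65 / 100)
    (hT : 87 / 1000 ≤ T) (hT' : T ≤ 1145 / 10000)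
    (ht : -82 / 1000 ≤ t) (ht' : t ≤ 5 / 1000) (hs : -40 / 1000 ≤ t + T)
    (hs' : t + T ≤ 84 / 1000) (hu : u.im = -(T * (20 / 3 * (65 / 100 - u.re))))
    (hm : m = 20 / 3 * T) : S3 1 m u v < -fE u.re T := by
  rw [S3_eq (by linarith only [hx]) (by linarith only [hx']) (by linarith only [h1, hr, hx']) (by linarith only [h1, hr', hx]), h1]
  unfold fE
  exact rR_use eR (by push_cast; linarith only [hx]) (by push_cast; linarith only [hx']) (by push_cast; linarith only [hT])
      (by push_cast; linarith only [hT']) (by push_cast; linarith only [ht]) (by push_cast; linarith only [ht'])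
      (by push_cast; linarith only [hT, ht]) (by push_cast; linarith only [hs']) hr hr' h2 hu hm

/-- the side of the digit `1` -/
theorem one_E (hx0 : 635 / 1000 ≤ x) (hx : x ≤ 65 / 100) (hT : 87 / 1000 ≤ T)
    (hT' : T ≤ 1145 / 10000) (hk : 1594 / 10000 ≤ k) (hk0 : -(45 / 1000) ≤ κ)
    (hk1 : κ ≤ -(25 / 1000)) (hs0 : 51 / 1000 ≤ T + κ) (hs1 : T + κ ≤ 77 / 1000)
    (hxk : x + k ≤ 95 / 100) (hh' : hh = T * (20 / 3 * (65 / 100 - x)))
    (hm : m = -(20 / 3 * T)) : MR.s1 m x hh k κ < fE x T := by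
  unfold fE
  exact ramp1 eP (by push_cast; linarith only [hx0]) (by push_cast; linarith only [hx]) (by push_cast; linarith only [hT])
    (by push_cast; linarith only [hT']) (by push_cast; linarith only [hk]) (by push_cast; linarith only [hx0, hxk])
    (by push_cast; linarith only [hk0]) (by push_cast; linarith only [hk1]) (by push_cast; linarith only [hs0])
    (by push_cast; linarith only [hs1]) hxk hh' hm

end HX

end Pool.Agent.Work.MP_b30479_gtS.G2

end
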