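import Pool.Agent.Work.MP_b30479_gt.TBS.G2.MFB
import Pool.Agent.Work.MP_b30479_gt.TBS.G2.MLS
import Pool.Agent.Work.MP_b30479_gt.TBS.G2.WPush2
import Pool.Agent.Work.MP_b30479_gt.TBS.G2.WLocF

section

/-!
# Conditional floors: real inequalities

`x` is the hinge `1 | 3`, `w` the other hinge of the digit `1`.  Generated.
-/

namespace Pool.Agent.Work.MP_b30479_gtS.G2

open Real Set VOL NumIs NumIs.E

namespace MF

/-- the ranges of `x` -/
def xi : ℕ → ℤ
  | 0 => 4000
  | 1 => 4250
  | 2 => 4500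
  | 3 => 4750
  | 4 => 5000
  | 5 => 5250
  | 6 => 5500
  | 7 => 5750
  | 8 => 6000
  | 9 => 6250
  | _ => 6500

/-- conditional floors of `2 | 1` -/
def fl2 : ℕ → ℤ
  | 0 => 2341
  | 1 => 2313
  | 2 => 2282
  | 3 => 2248
  | 4 => 2187
  | 5 => 2117
  | 6 => 2048
  | 7 => 1975
  | 8 => 1900
  | _ => 1824

/-- conditional floors of `2 | 1`, the `2` at an end -/
def flE : ℕ → ℤ
  | 0 => 2466
  | 1 => 2407
  | 2 => 2344
  | 3 => 2277
  | 4 => 2145
  | 5 => 2021
  | 6 => 1904
  | 7 => 1794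
  | 8 => 1690
  | _ => 1594

/-- conditional floors of `1 | 1` -/
def fl1 : ℕ → ℤ
  | 0 => 1915
  | 1 => 1899
  | 2 => 1879
  | 3 => 1856
  | 4 => 1816
  | 5 => 1772
  | 6 => 1724
  | 7 => 1673
  | 8 => 1617
  | _ => 1558

/-- shifts (tenths of `π`) -/
def sh2 : ℕ → ℤ
  | 0 => 10
  | 1 => 10
  | 2 => 10
  | 3 => 10
  | 4 => 10
  | 5 => 10
  | 6 => 5
  | 7 => 5
  | 8 => 5
  | _ => 5

/-- bounds for the side of the `1` at `2 | 1` -/
def ea2 : ℕ → ℤ
  | 0 => 540
  | 1 => 511
  | 2 => 478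
  | 3 => 441
  | 4 => 375
  | 5 => 301
  | 6 => 204
  | 7 => 120
  | 8 => 31
  | _ => (-62)

/-- bounds for the side of the `1` at `2 | 1`, the `2` at an end -/
def eaE : ℕ → ℤ
  | 0 => 359
  | 1 => 341
  | 2 => 320
  | 3 => 298
  | 4 => 250
  | 5 => 202
  | 6 => 153
  | 7 => 104
  | 8 => 54
  | _ => 5

/-- bounds for the side of the `1` at `1 | 1`, far neighbour a `1` -/
def ea1 : ℕ → ℤ
  | 0 => 627
  | 1 => 606
  | 2 => 580
  | 3 => 550
  | 4 => 499
  | 5 => 444
  | 6 => 384
  | 7 => 320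
  | 8 => 252
  | _ => 179

/-- bounds for the side of the `1` at `1 | 1`, general -/
def eg1 : ℕ → ℤ
  | 0 => 385
  | 1 => 365
  | 2 => 341
  | 3 => 314
  | 4 => 274
  | 5 => 232
  | 6 => 186
  | 7 => 137
  | 8 => 83
  | _ => 25

/-- bounds for the side of the `1` at `1 | 1`, far neighbour a `2` at an end -/
def eh1 : ℕ → ℤ
  | 0 => 276
  | 1 => 261
  | 2 => 244
  | 3 => 223
  | 4 => 188
  | 5 => 152
  | 6 => 113
  | 7 => 72
  | 8 => 30
  | _ => (-12)

/-- the factor of the height of the hinge `1 | 3` on its path -/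
noncomputable def trx (k : ℕ) (x : ℝ) : ℝ := if k < 4 then 1 else (65 / 100 - x) / (15 / 100)

theorem trx_nonneg {k : ℕ} {x : ℝ} (hx : x ≤ 65 / 100) : 0 ≤ trx k x := by
  unfold trx
  split_ifs
  · norm_num
  · apply div_nonneg <;> linarith only [hx]

theorem trx_lo {k : ℕ} (hk : k < 4) (x : ℝ) : rTr 0 0 x = trx k x := by
  unfold trx rTr
  rw [if_pos hk]

theorem trx_hi {k : ℕ} (hk : ¬ k < 4) (x : ℝ) : rTr 650 150 x = trx k x := by
  unfold trx rTr
  rw [if_neg hk]
  push_cast
  ring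

theorem xi_le {k : ℕ} (hk : k < 10) {x : ℝ} (hx : x ≤ (xi (k + 1) : ℝ) / 10000) : x ≤ 65 / 100 := by
  refine hx.trans ?_
  interval_cases k <;> simp only [xi] <;> norm_num

theorem xi_pos {k : ℕ} (hk : k < 10) {x : ℝ} (hx : (xi k : ℝ) / 10000 ≤ x) : 40 / 100 ≤ x := by
  refine le_trans ?_ hx
  interval_cases k <;> simp only [xi] <;> norm_num

variable {k : ℕ} {w x T κ K v : ℝ}

theorem mulK {r κ a : ℝ} (hr : 0 ≤ r) (h : a ≤ κ) : a * r ≤ κ * r := mul_le_mul_of_nonneg_right h hr

/-- the side of the `1` at `2 | 1` -/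
theorem own2 (hk : k < 10) (hw : ((1600 : ℤ) : ℝ) / 10000 ≤ w ∧ w ≤ (fl2 k : ℝ) / 10000)
    (hx : (xi k : ℝ) / 10000 ≤ x ∧ x ≤ (xi (k + 1) : ℝ) / 10000)
    (hT : ((100 : ℤ) : ℝ) / 10000 ≤ T ∧ T ≤ ((770 : ℤ) : ℝ) / 10000)
    (hκ : ((460 : ℤ) : ℝ) / 10000 ≤ κ) (hS : ((780 : ℤ) : ℝ) / 10000 - T ≤ κ) (hs : w + x < 1) :
    (ea2 k : ℝ) / 1000 < fs 1 (sh2 k) w x T (κ * trx k x) := by
  have hw' : 0 < w := lt_of_lt_of_le (by norm_num) hw.1
  have hx' : 0 < x := lt_of_lt_of_le (by norm_num) (xi_pos hk hx.1)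
  have hr := trx_nonneg (k := k) (xi_le hk hx.2)
  have g1 := mulK hr hκ
  have g2 := mulK hr hS
  rcases Nat.lt_or_ge k 4 with h4 | h4
  · rw [← trx_lo h4] at g1 g2 ⊢
    interval_cases k
    · exact row_of a2_0 hw hx hT hw' hx' hs g1 g2
    · exact row_of a2_1 hw hx hT hw' hx' hs g1 g2
    · exact row_of a2_2 hw hx hT hw' hx' hs g1 g2
    · exact row_of a2_3 hw hx hT hw' hx' hs g1 g2
  · rw [← trx_hi (Nat.not_lt.2 h4)] at g1 g2 ⊢
    interval_cases k
    · exact row_of a2_4 hw hx hT hw' hx' hs g1 g2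
    · exact row_of a2_5 hw hx hT hw' hx' hs g1 g2
    · exact row_of a2_6 hw hx hT hw' hx' hs g1 g2
    · exact row_of a2_7 hw hx hT hw' hx' hs g1 g2
    · exact row_of a2_8 hw hx hT hw' hx' hs g1 g2
    · exact row_of a2_9 hw hx hT hw' hx' hs g1 g2

/-- the side of the `1` at `2 | 1`, the `2` at an end -/
theorem ownE (hk : k < 10) (hw : ((1400 : ℤ) : ℝ) / 10000 ≤ w ∧ w ≤ (flE k : ℝ) / 10000)
    (hx : (xi k : ℝ) / 10000 ≤ x ∧ x ≤ (xi (k + 1) : ℝ) / 10000)
    (hT : (((-450) : ℤ) : ℝ) / 10000 ≤ T ∧ T ≤ (((-250) : ℤ) : ℝ) / 10000)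
    (hκ : ((870 : ℤ) : ℝ) / 10000 ≤ κ) (hS : ((510 : ℤ) : ℝ) / 10000 - T ≤ κ) (hs : w + x < 1) :
    (eaE k : ℝ) / 1000 < fs 1 ((10 : ℤ) : ℝ) w x T (κ * trx k x) := by
  have hw' : 0 < w := lt_of_lt_of_le (by norm_num) hw.1
  have hx' : 0 < x := lt_of_lt_of_le (by norm_num) (xi_pos hk hx.1)
  have hr := trx_nonneg (k := k) (xi_le hk hx.2)
  have g1 := mulK hr hκ
  have g2 := mulK hr hS
  rcases Nat.lt_or_ge k 4 with h4 | h4
  · rw [← trx_lo h4] at g1 g2 ⊢
    interval_cases k
    · exact row_of aE_0 hw hx hT hw' hx' hs g1 g2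
    · exact row_of aE_1 hw hx hT hw' hx' hs g1 g2
    · exact row_of aE_2 hw hx hT hw' hx' hs g1 g2
    · exact row_of aE_3 hw hx hT hw' hx' hs g1 g2
  · rw [← trx_hi (Nat.not_lt.2 h4)] at g1 g2 ⊢
    interval_cases k
    · exact row_of aE_4 hw hx hT hw' hx' hs g1 g2
    · exact row_of aE_5 hw hx hT hw' hx' hs g1 g2
    · exact row_of aE_6 hw hx hT hw' hx' hs g1 g2
    · exact row_of aE_7 hw hx hT hw' hx' hs g1 g2
    · exact row_of aE_8 hw hx hT hw' hx' hs g1 g2
    · exact row_of aE_9 hw hx hT hw' hx' hs g1 g2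

/-- the side of the `1` at `1 | 1`, far neighbour a `1` -/
theorem own1 (hk : k < 10) (hw : ((1500 : ℤ) : ℝ) / 10000 ≤ w ∧ w ≤ (fl1 k : ℝ) / 10000)
    (hx : (xi k : ℝ) / 10000 ≤ x ∧ x ≤ (xi (k + 1) : ℝ) / 10000)
    (hT : (((-160) : ℤ) : ℝ) / 10000 ≤ T ∧ T ≤ ((500 : ℤ) : ℝ) / 10000)
    (hκ : ((390 : ℤ) : ℝ) / 10000 ≤ κ) (hS : ((420 : ℤ) : ℝ) / 10000 - T ≤ κ) (hs : w + x < 1) :
    (ea1 k : ℝ) / 1000 < fs 1 ((0 : ℤ) : ℝ) w x T (κ * trx k x) := by
  have hw' : 0 < w := lt_of_lt_of_le (by norm_num) hw.1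
  have hx' : 0 < x := lt_of_lt_of_le (by norm_num) (xi_pos hk hx.1)
  have hr := trx_nonneg (k := k) (xi_le hk hx.2)
  have g1 := mulK hr hκ
  have g2 := mulK hr hS
  rcases Nat.lt_or_ge k 4 with h4 | h4
  · rw [← trx_lo h4] at g1 g2 ⊢
    interval_cases k
    · exact row_of a1_0 hw hx hT hw' hx' hs g1 g2
    · exact row_of a1_1 hw hx hT hw' hx' hs g1 g2
    · exact row_of a1_2 hw hx hT hw' hx' hs g1 g2
    · exact row_of a1_3 hw hx hT hw' hx' hs g1 g2
  · rw [← trx_hi (Nat.not_lt.2 h4)] at g1 g2 ⊢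
    interval_cases k
    · exact row_of a1_4 hw hx hT hw' hx' hs g1 g2
    · exact row_of a1_5 hw hx hT hw' hx' hs g1 g2
    · exact row_of a1_6 hw hx hT hw' hx' hs g1 g2
    · exact row_of a1_7 hw hx hT hw' hx' hs g1 g2
    · exact row_of a1_8 hw hx hT hw' hx' hs g1 g2
    · exact row_of a1_9 hw hx hT hw' hx' hs g1 g2

/-- the side of the `1` at `1 | 1`, general -/
theorem own1g (hk : k < 10) (hw : ((1500 : ℤ) : ℝ) / 10000 ≤ w ∧ w ≤ (fl1 k : ℝ) / 10000)
    (hx : (xi k : ℝ) / 10000 ≤ x ∧ x ≤ (xi (k + 1) : ℝ) / 10000)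
    (hT : (((-360) : ℤ) : ℝ) / 10000 ≤ T ∧ T ≤ ((400 : ℤ) : ℝ) / 10000)
    (hκ : ((180 : ℤ) : ℝ) / 10000 ≤ κ) (hS : ((110 : ℤ) : ℝ) / 10000 - T ≤ κ) (hs : w + x < 1) :
    (eg1 k : ℝ) / 1000 < fs 1 ((0 : ℤ) : ℝ) w x T (κ * trx k x) := by
  have hw' : 0 < w := lt_of_lt_of_le (by norm_num) hw.1
  have hx' : 0 < x := lt_of_lt_of_le (by norm_num) (xi_pos hk hx.1)
  have hr := trx_nonneg (k := k) (xi_le hk hx.2)
  have g1 := mulK hr hκ
  have g2 := mulK hr hS
  rcases Nat.lt_or_ge k 4 with h4 | h4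
  · rw [← trx_lo h4] at g1 g2 ⊢
    interval_cases k
    · exact row_of g1_0 hw hx hT hw' hx' hs g1 g2
    · exact row_of g1_1 hw hx hT hw' hx' hs g1 g2
    · exact row_of g1_2 hw hx hT hw' hx' hs g1 g2
    · exact row_of g1_3 hw hx hT hw' hx' hs g1 g2
  · rw [← trx_hi (Nat.not_lt.2 h4)] at g1 g2 ⊢
    interval_cases k
    · exact row_of g1_4 hw hx hT hw' hx' hs g1 g2
    · exact row_of g1_5 hw hx hT hw' hx' hs g1 g2
    · exact row_of g1_6 hw hx hT hw' hx' hs g1 g2
    · exact row_of g1_7 hw hx hT hw' hx' hs g1 g2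
    · exact row_of g1_8 hw hx hT hw' hx' hs g1 g2
    · exact row_of g1_9 hw hx hT hw' hx' hs g1 g2

/-- the side of the `1` at `1 | 1`, far neighbour a `2` at an end -/
theorem own1h (hk : k < 10) (hw : ((1500 : ℤ) : ℝ) / 10000 ≤ w ∧ w ≤ (fl1 k : ℝ) / 10000)
    (hx : (xi k : ℝ) / 10000 ≤ x ∧ x ≤ (xi (k + 1) : ℝ) / 10000)
    (hT : (((-550) : ℤ) : ℝ) / 10000 ≤ T ∧ T ≤ (((-320) : ℤ) : ℝ) / 10000)
    (hκ : ((440 : ℤ) : ℝ) / 10000 ≤ κ) (hS : ((70 : ℤ) : ℝ) / 10000 - T ≤ κ) (hs : w + x < 1) :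
    (eh1 k : ℝ) / 1000 < fs 1 ((0 : ℤ) : ℝ) w x T (κ * trx k x) := by
  have hw' : 0 < w := lt_of_lt_of_le (by norm_num) hw.1
  have hx' : 0 < x := lt_of_lt_of_le (by norm_num) (xi_pos hk hx.1)
  have hr := trx_nonneg (k := k) (xi_le hk hx.2)
  have g1 := mulK hr hκ
  have g2 := mulK hr hS
  rcases Nat.lt_or_ge k 4 with h4 | h4
  · rw [← trx_lo h4] at g1 g2 ⊢
    interval_cases k
    · exact row_of h1_0 hw hx hT hw' hx' hs g1 g2
    · exact row_of h1_1 hw hx hT hw' hx' hs g1 g2
    · exact row_of h1_2 hw hx hT hw' hx' hs g1 g2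
    · exact row_of h1_3 hw hx hT hw' hx' hs g1 g2
  · rw [← trx_hi (Nat.not_lt.2 h4)] at g1 g2 ⊢
    interval_cases k
    · exact row_of h1_4 hw hx hT hw' hx' hs g1 g2
    · exact row_of h1_5 hw hx hT hw' hx' hs g1 g2
    · exact row_of h1_6 hw hx hT hw' hx' hs g1 g2
    · exact row_of h1_7 hw hx hT hw' hx' hs g1 g2
    · exact row_of h1_8 hw hx hT hw' hx' hs g1 g2
    · exact row_of h1_9 hw hx hT hw' hx' hs g1 g2

/-- the side of the `2` at `2 | 1` -/
theorem two2 (hk : k < 10) (hw : ((1600 : ℤ) : ℝ) / 10000 ≤ w ∧ w ≤ (fl2 k : ℝ) / 10000)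
    (hT : (((-770) : ℤ) : ℝ) / 10000 ≤ T ∧ T ≤ (((-100) : ℤ) : ℝ) / 10000) (hs : w + v < 1)
    (hv : 100 / 1000 ≤ v ∧ v ≤ 56 / 100) (h1 : v ≤ 51 / 100 → -(985 / 10000) ≤ K)
    (h2 : 51 / 100 ≤ v → -(985 / 10000) * rTr 800 290 v ≤ K)
    (h3 : 535 / 1000 < v → -(800 / 10000) * rTr 800 290 v ≤ K) :
    ((1 - ea2 k : ℤ) : ℝ) / 1000 < fs 2 ((sh2 k - 10 : ℤ) : ℝ) w v T K := by
  have hw' : 0 < w := lt_of_lt_of_le (by norm_num) hw.1
  have hv' : 0 < v := lt_of_lt_of_le (by norm_num) hv.1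
  obtain ⟨hT1, hT2⟩ := hT
  have hT1' : -(770 / 10000) ≤ T := by push_cast at hT1; linarith only [hT1]
  have hr : 0 ≤ rTr 800 290 v := by
    unfold rTr
    push_cast
    have := hv.2
    apply mul_nonneg <;> linarith only [hw, hs, hv]
  rcases le_total v (51 / 100) with c1 | c1
  · have g1 : (((-985) : ℤ) : ℝ) / 10000 * rTr 0 0 v ≤ K := by
      have := h1 c1
      unfold rTr
      push_cast
      linarith only [this]
    have g2 : ((((-9000) : ℤ) : ℝ) / 10000 - T) * rTr 0 0 v ≤ K := by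
      have := h1 c1
      unfold rTr
      push_cast
      linarith only [hT1, this]
    have hx : ((1000 : ℤ) : ℝ) / 10000 ≤ v ∧ v ≤ ((5100 : ℤ) : ℝ) / 10000 := by
      push_cast
      constructor <;> linarith only [hv, c1, hv.1]
    interval_cases k
    · exact row_of b2_0_0 hw hx ⟨hT1, hT2⟩ hw' hv' hs g1 g2
    · exact row_of b2_1_0 hw hx ⟨hT1, hT2⟩ hw' hv' hs g1 g2
    · exact row_of b2_2_0 hw hx ⟨hT1, hT2⟩ hw' hv' hs g1 g2
    · exact row_of b2_3_0 hw hx ⟨hT1, hT2⟩ hw' hv' hs g1 g2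
    · exact row_of b2_4_0 hw hx ⟨hT1, hT2⟩ hw' hv' hs g1 g2
    · exact row_of b2_5_0 hw hx ⟨hT1, hT2⟩ hw' hv' hs g1 g2
    · exact row_of b2_6_0 hw hx ⟨hT1, hT2⟩ hw' hv' hs g1 g2
    · exact row_of b2_7_0 hw hx ⟨hT1, hT2⟩ hw' hv' hs g1 g2
    · exact row_of b2_8_0 hw hx ⟨hT1, hT2⟩ hw' hv' hs g1 g2
    · exact row_of b2_9_0 hw hx ⟨hT1, hT2⟩ hw' hv' hs g1 g2
  rcases le_or_gt v (535 / 1000) with c2 | c2
  · have g0 := h2 c1
    have g1 : (((-985) : ℤ) : ℝ) / 10000 * rTr 800 290 v ≤ K := by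
      push_cast
      linarith only [g0]
    have g2 : ((((-9000) : ℤ) : ℝ) / 10000 - T) * rTr 800 290 v ≤ K := by
      refine (mul_le_mul_of_nonneg_right ?_ hr).trans g0
      push_cast
      linarith only [hs, hw', hT1, c1]
    have hx : ((5100 : ℤ) : ℝ) / 10000 ≤ v ∧ v ≤ ((5350 : ℤ) : ℝ) / 10000 := by
      push_cast
      constructor <;> linarith only [c1, c2]
    interval_cases k
    · exact row_of b2_0_1 hw hx ⟨hT1, hT2⟩ hw' hv' hs g1 g2
    · exact row_of b2_1_1 hw hx ⟨hT1, hT2⟩ hw' hv' hs g1 g2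
    · exact row_of b2_2_1 hw hx ⟨hT1, hT2⟩ hw' hv' hs g1 g2
    · exact row_of b2_3_1 hw hx ⟨hT1, hT2⟩ hw' hv' hs g1 g2
    · exact row_of b2_4_1 hw hx ⟨hT1, hT2⟩ hw' hv' hs g1 g2
    · exact row_of b2_5_1 hw hx ⟨hT1, hT2⟩ hw' hv' hs g1 g2
    · exact row_of b2_6_1 hw hx ⟨hT1, hT2⟩ hw' hv' hs g1 g2
    · exact row_of b2_7_1 hw hx ⟨hT1, hT2⟩ hw' hv' hs g1 g2
    · exact row_of b2_8_1 hw hx ⟨hT1, hT2⟩ hw' hv' hs g1 g2
    · exact row_of b2_9_1 hw hx ⟨hT1, hT2⟩ hw' hv' hs g1 g2
  · have g0 := h3 c2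
    have g1 : (((-800) : ℤ) : ℝ) / 10000 * rTr 800 290 v ≤ K := by
      push_cast
      linarith only [g0]
    have g2 : ((((-9000) : ℤ) : ℝ) / 10000 - T) * rTr 800 290 v ≤ K := by
      refine (mul_le_mul_of_nonneg_right ?_ hr).trans g0
      push_cast
      linarith only [hs, hw', hT1, c2]
    have hx : ((5350 : ℤ) : ℝ) / 10000 ≤ v ∧ v ≤ ((5600 : ℤ) : ℝ) / 10000 := by
      push_cast
      constructor <;> linarith only [c2, hv, hv.2]
    interval_cases k
    · exact row_of b2_0_2 hw hx ⟨hT1, hT2⟩ hw' hv' hs g1 g2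
    · exact row_of b2_1_2 hw hx ⟨hT1, hT2⟩ hw' hv' hs g1 g2
    · exact row_of b2_2_2 hw hx ⟨hT1, hT2⟩ hw' hv' hs g1 g2
    · exact row_of b2_3_2 hw hx ⟨hT1, hT2⟩ hw' hv' hs g1 g2
    · exact row_of b2_4_2 hw hx ⟨hT1, hT2⟩ hw' hv' hs g1 g2
    · exact row_of b2_5_2 hw hx ⟨hT1, hT2⟩ hw' hv' hs g1 g2
    · exact row_of b2_6_2 hw hx ⟨hT1, hT2⟩ hw' hv' hs g1 g2
    · exact row_of b2_7_2 hw hx ⟨hT1, hT2⟩ hw' hv' hs g1 g2
    · exact row_of b2_8_2 hw hx ⟨hT1, hT2⟩ hw' hv' hs g1 g2
    · exact row_of b2_9_2 hw hx ⟨hT1, hT2⟩ hw' hv' hs g1 g2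

/-- the side of a `2` at an end at `2 | 1` -/
theorem twoE2 (hk : k < 10) (hw : ((1400 : ℤ) : ℝ) / 10000 ≤ w ∧ w ≤ (flE k : ℝ) / 10000)
    (hT : ((250 : ℤ) : ℝ) / 10000 ≤ T ∧ T ≤ ((450 : ℤ) : ℝ) / 10000) :
    ((1 - eaE k : ℤ) : ℝ) / 1000 < π * (((0 : ℤ) : ℝ) / 10 * T) - lnA w T := by
  interval_cases k
  · exact rowE_of bE_0 hw hT
  · exact rowE_of bE_1 hw hT
  · exact rowE_of bE_2 hw hT
  · exact rowE_of bE_3 hw hT
  · exact rowE_of bE_4 hw hT
  · exact rowE_of bE_5 hw hT
  · exact rowE_of bE_6 hw hT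
  · exact rowE_of bE_7 hw hT
  · exact rowE_of bE_8 hw hT
  · exact rowE_of bE_9 hw hT

/-- the side of the other `1`, its other neighbour a `1` -/
theorem oth1 (hk : k < 10) (hw : ((1500 : ℤ) : ℝ) / 10000 ≤ w ∧ w ≤ (fl1 k : ℝ) / 10000)
    (hT : (((-500) : ℤ) : ℝ) / 10000 ≤ T ∧ T ≤ ((160 : ℤ) : ℝ) / 10000) (hs : w + v < 1)
    (hv : 125 / 1000 ≤ v ∧ v ≤ 70 / 100)
    (h1 : v ≤ 60 / 100 → -(690 / 10000) ≤ K ∧ -(670 / 10000) - T ≤ K)
    (h2 : 60 / 100 ≤ v → -(690 / 10000) * rTr 800 200 v ≤ K ∧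
      (-(670 / 10000) - T) * rTr 800 200 v ≤ K) :
    ((1 - ea1 k : ℤ) : ℝ) / 1000 < fs 1 ((0 : ℤ) : ℝ) w v T K := by
  have hw' : 0 < w := lt_of_lt_of_le (by norm_num) hw.1
  have hv' : 0 < v := lt_of_lt_of_le (by norm_num) hv.1
  rcases le_total v (60 / 100) with c1 | c1
  · obtain ⟨g1', g2'⟩ := h1 c1
    have g1 : (((-690) : ℤ) : ℝ) / 10000 * rTr 0 0 v ≤ K := by
      unfold rTr
      push_cast
      linarith only [g1']
    have g2 : ((((-670) : ℤ) : ℝ) / 10000 - T) * rTr 0 0 v ≤ K := by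
      unfold rTr
      push_cast
      linarith only [g2']
    have hx : ((1250 : ℤ) : ℝ) / 10000 ≤ v ∧ v ≤ ((6000 : ℤ) : ℝ) / 10000 := by
      push_cast
      constructor <;> linarith only [hv, c1, hv.1]
    interval_cases k
    · exact row_of b1_0_0 hw hx hT hw' hv' hs g1 g2
    · exact row_of b1_1_0 hw hx hT hw' hv' hs g1 g2
    · exact row_of b1_2_0 hw hx hT hw' hv' hs g1 g2
    · exact row_of b1_3_0 hw hx hT hw' hv' hs g1 g2
    · exact row_of b1_4_0 hw hx hT hw' hv' hs g1 g2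
    · exact row_of b1_5_0 hw hx hT hw' hv' hs g1 g2
    · exact row_of b1_6_0 hw hx hT hw' hv' hs g1 g2
    · exact row_of b1_7_0 hw hx hT hw' hv' hs g1 g2
    · exact row_of b1_8_0 hw hx hT hw' hv' hs g1 g2
    · exact row_of b1_9_0 hw hx hT hw' hv' hs g1 g2
  · obtain ⟨g1', g2'⟩ := h2 c1
    have g1 : (((-690) : ℤ) : ℝ) / 10000 * rTr 800 200 v ≤ K := by
      push_cast
      linarith only [g1']
    have g2 : ((((-670) : ℤ) : ℝ) / 10000 - T) * rTr 800 200 v ≤ K := by
      push_cast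
      linarith only [g2']
    have hx : ((6000 : ℤ) : ℝ) / 10000 ≤ v ∧ v ≤ ((7000 : ℤ) : ℝ) / 10000 := by
      push_cast
      constructor <;> linarith only [c1, hv, hv.2]
    interval_cases k
    · exact row_of b1_0_1 hw hx hT hw' hv' hs g1 g2
    · exact row_of b1_1_1 hw hx hT hw' hv' hs g1 g2
    · exact row_of b1_2_1 hw hx hT hw' hv' hs g1 g2
    · exact row_of b1_3_1 hw hx hT hw' hv' hs g1 g2
    · exact row_of b1_4_1 hw hx hT hw' hv' hs g1 g2
    · exact row_of b1_5_1 hw hx hT hw' hv' hs g1 g2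
    · exact row_of b1_6_1 hw hx hT hw' hv' hs g1 g2
    · exact row_of b1_7_1 hw hx hT hw' hv' hs g1 g2
    · exact row_of b1_8_1 hw hx hT hw' hv' hs g1 g2
    · exact row_of b1_9_1 hw hx hT hw' hv' hs g1 g2

/-- the side of the other `1`, general -/
theorem oth1g (hk : k < 10) (hw : ((1500 : ℤ) : ℝ) / 10000 ≤ w ∧ w ≤ (fl1 k : ℝ) / 10000)
    (hT : (((-400) : ℤ) : ℝ) / 10000 ≤ T ∧ T ≤ ((360 : ℤ) : ℝ) / 10000) (hs : w + v < 1)
    (hv : 110 / 1000 ≤ v ∧ v ≤ 65 / 100) (hK : -(60 / 10000) ≤ K) :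
    ((1 - eg1 k : ℤ) : ℝ) / 1000 < fs 1 ((0 : ℤ) : ℝ) w v T K := by
  have hw' : 0 < w := lt_of_lt_of_le (by norm_num) hw.1
  have hv' : 0 < v := lt_of_lt_of_le (by norm_num) hv.1
  have g1 : (((-60) : ℤ) : ℝ) / 10000 * rTr 0 0 v ≤ K := by
    unfold rTr
    push_cast
    linarith only [hK]
  have g2 : ((((-9000) : ℤ) : ℝ) / 10000 - T) * rTr 0 0 v ≤ K := by
    have := hT.1
    unfold rTr
    push_cast at *
    linarith only [hK, hT]
  have hx : ((1100 : ℤ) : ℝ) / 10000 ≤ v ∧ v ≤ ((6500 : ℤ) : ℝ) / 10000 := by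
    push_cast
    constructor <;> linarith only [hv, hv.1, hv.2]
  interval_cases k
  · exact row_of c1_0 hw hx hT hw' hv' hs g1 g2
  · exact row_of c1_1 hw hx hT hw' hv' hs g1 g2
  · exact row_of c1_2 hw hx hT hw' hv' hs g1 g2
  · exact row_of c1_3 hw hx hT hw' hv' hs g1 g2
  · exact row_of c1_4 hw hx hT hw' hv' hs g1 g2
  · exact row_of c1_5 hw hx hT hw' hv' hs g1 g2
  · exact row_of c1_6 hw hx hT hw' hv' hs g1 g2
  · exact row_of c1_7 hw hx hT hw' hv' hs g1 g2
  · exact row_of c1_8 hw hx hT hw' hv' hs g1 g2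
  · exact row_of c1_9 hw hx hT hw' hv' hs g1 g2

/-- the side of the other `1`, its other neighbour a `2` at an end -/
theorem oth1h (hk : k < 10) (hw : ((1500 : ℤ) : ℝ) / 10000 ≤ w ∧ w ≤ (fl1 k : ℝ) / 10000)
    (hT : ((320 : ℤ) : ℝ) / 10000 ≤ T ∧ T ≤ ((550 : ℤ) : ℝ) / 10000) (hs : w + v < 1)
    (hv : 125 / 1000 ≤ v ∧ v ≤ 37 / 100) (hK : -(600 / 10000) ≤ K) :
    ((1 - eh1 k : ℤ) : ℝ) / 1000 < fs 1 ((0 : ℤ) : ℝ) w v T K := by
  have hw' : 0 < w := lt_of_lt_of_le (by norm_num) hw.1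
  have hv' : 0 < v := lt_of_lt_of_le (by norm_num) hv.1
  have g1 : (((-600) : ℤ) : ℝ) / 10000 * rTr 0 0 v ≤ K := by
    unfold rTr
    push_cast
    linarith only [hK]
  have g2 : ((((-9000) : ℤ) : ℝ) / 10000 - T) * rTr 0 0 v ≤ K := by
    have := hT.1
    unfold rTr
    push_cast at *
    linarith only [hK, hT]
  have hx : ((1250 : ℤ) : ℝ) / 10000 ≤ v ∧ v ≤ ((3700 : ℤ) : ℝ) / 10000 := by
    push_cast
    constructor <;> linarith only [hv, hv.1, hv.2]
  interval_cases k
  · exact row_of d1_0 hw hx hT hw' hv' hs g1 g2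
  · exact row_of d1_1 hw hx hT hw' hv' hs g1 g2
  · exact row_of d1_2 hw hx hT hw' hv' hs g1 g2
  · exact row_of d1_3 hw hx hT hw' hv' hs g1 g2
  · exact row_of d1_4 hw hx hT hw' hv' hs g1 g2
  · exact row_of d1_5 hw hx hT hw' hv' hs g1 g2
  · exact row_of d1_6 hw hx hT hw' hv' hs g1 g2
  · exact row_of d1_7 hw hx hT hw' hv' hs g1 g2
  · exact row_of d1_8 hw hx hT hw' hv' hs g1 g2
  · exact row_of d1_9 hw hx hT hw' hv' hs g1 g2

end MF

end Pool.Agent.Work.MP_b30479_gtS.G2

end

section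

/-!
# The left ramps: bounds for the side of a digit `2`

Generated.
-/

namespace Pool.Agent.Work.MP_b30479_gtS.G2

open Real Set VOL NumIs SR

namespace ML

/-- windows of a hinge `2 | B` in the frame of the digit `2` (ten thousandths) -/
def tw : K7 → ℤ × ℤ
  | .one => (-800, 180)
  | .two => (-410, 410)
  | .twoE => (-850, -450)
  | .threeA => (-50, 570)
  | .threeB => (-50, 570)
  | .threeE => (-130, 260)
  | .ring => (100, 960)

/-- windows of a hinge `2 | B` of a digit `2` at an end (ten thousandths) -/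
def twE : K7 → ℤ × ℤ
  | .one => (-10, 660)
  | .two => (450, 850)
  | .twoE => (-10, 10)
  | .threeA => (760, 980)
  | .threeB => (760, 980)
  | .threeE => (650, 690)
  | .ring => (880, 1310)

/-- length of the left ramp of a hinge `2 | B` -/
def clz2 : K7 → ℤ
  | .one => 160
  | .two => 100
  | .twoE => 100
  | .threeA => 120
  | .threeB => 130
  | .threeE => 100
  | .ring => 125

/-- data -/
def dW (x0 x1 t0 t1 y0 y1 : ℤ) : Dat := ⟨x0, x1, t0, t1, -99, -300, y0, y1, 0, 1⟩

/-- bounds for the side of a digit `2` at an end, away from the digits `1` (thousandths) -/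
def eE2 : K7 → ℤ
  | .one => 0
  | .two => 200
  | .twoE => 400
  | .threeA => -80
  | .threeB => -190
  | .threeE => 200
  | .ring => -168

variable {B : K7} {C : Cl} {T x y k : ℝ}

theorem two_real0 (hB : B ≠ .one) (H : (dW 0 70 (tw B).1 (tw B).2 0 800).H T x y k) (h0 : 0 < x)
    (h0' : 0 < y) (hs : x + y < 1) :
    ((100 : ℤ) : ℝ) / 1000 < sd 2 (cR 1 0 0 x) x (T / ((clz2 B : ℝ) / 1000)) y k := by
  have hx0 := H.x0
  have hx1 := H.x1
  simp only [dW] at hx0 hx1
  push_cast at hx0 hx1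
  cases B
  case one => exact absurd rfl hB
  case two =>
    rcases le_total x (20 / 1000) with hx | hx
    · exact use_rowN (s := -10000) (ra := 0) (rb := 1) (Or.inr rfl) w0_2_0 _ (by decide) (by decide)
        (H.cut (u := 0) (v := 20) (by push_cast; linarith only [h0]) (by push_cast; linarith only [hx])) h0 h0' hs
    · exact use_row (Or.inr rfl) w0_2_1 _ (by decide)
        (H.cut (u := 20) (v := 70) (by push_cast; linarith only [hx]) (by push_cast; linarith only [hx1])) h0 h0' hs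
  case twoE =>
    rcases le_total x (20 / 1000) with hx | hx
    · exact use_rowN (s := -10000) (ra := 0) (rb := 1) (Or.inr rfl) w0_2e_0 _ (by decide) (by decide)
        (H.cut (u := 0) (v := 20) (by push_cast; linarith only [h0]) (by push_cast; linarith only [hx])) h0 h0' hs
    · exact use_row (Or.inr rfl) w0_2e_1 _ (by decide)
        (H.cut (u := 20) (v := 70) (by push_cast; linarith only [hx]) (by push_cast; linarith only [hx1])) h0 h0' hs
  case threeA =>
    rcases le_total x (20 / 1000) with hx | hx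
    · exact use_rowN (s := -10000) (ra := 0) (rb := 1) (Or.inr rfl) w0_3a_0 _ (by decide) (by decide)
        (H.cut (u := 0) (v := 20) (by push_cast; linarith only [h0]) (by push_cast; linarith only [hx])) h0 h0' hs
    · exact use_row (Or.inr rfl) w0_3a_1 _ (by decide)
        (H.cut (u := 20) (v := 70) (by push_cast; linarith only [hx]) (by push_cast; linarith only [hx1])) h0 h0' hs
  case threeB =>
    rcases le_total x (20 / 1000) with hx | hx
    · exact use_rowN (s := -10000) (ra := 0) (rb := 1) (Or.inr rfl) w0_3b_0 _ (by decide) (by decide)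
        (H.cut (u := 0) (v := 20) (by push_cast; linarith only [h0]) (by push_cast; linarith only [hx])) h0 h0' hs
    · exact use_row (Or.inr rfl) w0_3b_1 _ (by decide)
        (H.cut (u := 20) (v := 70) (by push_cast; linarith only [hx]) (by push_cast; linarith only [hx1])) h0 h0' hs
  case threeE =>
    rcases le_total x (20 / 1000) with hx | hx
    · exact use_rowN (s := -10000) (ra := 0) (rb := 1) (Or.inr rfl) w0_3e_0 _ (by decide) (by decide)
        (H.cut (u := 0) (v := 20) (by push_cast; linarith only [h0]) (by push_cast; linarith only [hx])) h0 h0' hs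
    · exact use_row (Or.inr rfl) w0_3e_1 _ (by decide)
        (H.cut (u := 20) (v := 70) (by push_cast; linarith only [hx]) (by push_cast; linarith only [hx1])) h0 h0' hs
  case ring =>
    rcases le_total x (20 / 1000) with hx | hx
    · exact use_rowN (s := -10000) (ra := 0) (rb := 1) (Or.inr rfl) w0_Z_0 _ (by decide) (by decide)
        (H.cut (u := 0) (v := 20) (by push_cast; linarith only [h0]) (by push_cast; linarith only [hx])) h0 h0' hs
    · exact use_row (Or.inr rfl) w0_Z_1 _ (by decide)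
        (H.cut (u := 20) (v := 70) (by push_cast; linarith only [hx]) (by push_cast; linarith only [hx1])) h0 h0' hs

theorem two_real1 (hB : B ≠ .one) (H : (dW 70 (clz2 B) (tw B).1 (tw B).2 70 560).H T x y k)
    (h0 : 0 < x) (h0' : 0 < y) (hs : x + y < 1) :
    ((200 : ℤ) : ℝ) / 1000 < sd 2 (cR 1 0 0 x) x (T / ((clz2 B : ℝ) / 1000)) y k := by
  cases B
  case one => exact absurd rfl hB
  case two => exact use_row (Or.inr rfl) w1_2_2 _ (by decide) H h0 h0' hs
  case twoE => exact use_row (Or.inr rfl) w1_2e_2 _ (by decide) H h0 h0' hs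
  case threeA => exact use_row (Or.inr rfl) w1_3a_2 _ (by decide) H h0 h0' hs
  case threeB => exact use_row (Or.inr rfl) w1_3b_2 _ (by decide) H h0 h0' hs
  case threeE => exact use_row (Or.inr rfl) w1_3e_2 _ (by decide) H h0 h0' hs
  case ring => exact use_row (Or.inr rfl) w1_Z_2 _ (by decide) H h0 h0' hs

theorem two_one0 (E : Bool) (H : (dW 0 70 (cond E (-985) (-800)) (cond E (-320) 180) 0 800).H T x y k)
    (h0 : 0 < x) (h0' : 0 < y) (hs : x + y < 1) :
    ((350 : ℤ) : ℝ) / 1000 < sd 2 (shO 0 .two x) x (T / (((160 : ℤ) : ℝ) / 1000)) y k := by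
  have hx0 := H.x0
  have hx1 := H.x1
  simp only [dW] at hx0 hx1
  push_cast at hx0 hx1
  cases E
  case false =>
    simp only [shO]
    split_ifs with hx
    · push_cast at hx
      rcases le_total x (20 / 1000) with hx' | hx'
      · exact use_rowN (s := -10000) (ra := 0) (rb := 1) (Or.inr rfl) w0_1_0 _ (by decide) (by decide)
          (H.cut (u := 0) (v := 20) (by push_cast; linarith only [h0]) (by push_cast; linarith only [hx'])) h0 h0' hs
      · exact use_row (Or.inr rfl) w0_1_1 _ (by decide)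
          (H.cut (u := 20) (v := 45) (by push_cast; linarith only [hx']) (by push_cast; linarith only [hx])) h0 h0' hs
    · push_cast at hx
      exact use_row (Or.inr rfl) w0_1_2 _ (by decide)
        (H.cut (u := 45) (v := 70) (by push_cast; linarith only [hx]) (by push_cast; linarith only [hx1])) h0 h0' hs
  case true =>
    simp only [shO]
    split_ifs with hx
    · push_cast at hx
      rcases le_total x (20 / 1000) with hx' | hx'
      · exact use_rowN (s := -10000) (ra := 0) (rb := 1) (Or.inr rfl) w0_1e_0 _ (by decide) (by decide)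
          (H.cut (u := 0) (v := 20) (by push_cast; linarith only [h0]) (by push_cast; linarith only [hx'])) h0 h0' hs
      · exact use_row (Or.inr rfl) w0_1e_1 _ (by decide)
          (H.cut (u := 20) (v := 45) (by push_cast; linarith only [hx']) (by push_cast; linarith only [hx])) h0 h0' hs
    · push_cast at hx
      exact use_row (Or.inr rfl) w0_1e_2 _ (by decide)
        (H.cut (u := 45) (v := 70) (by push_cast; linarith only [hx]) (by push_cast; linarith only [hx1])) h0 h0' hs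

theorem two_one1 (E : Bool) (H : (dW 70 150 (cond E (-985) (-800)) (cond E (-320) 180) 70 560).H T x y k)
    (h0 : 0 < x) (h0' : 0 < y) (hs : x + y < 1) :
    ((190 : ℤ) : ℝ) / 1000 < sd 2 (shO 1 .two x) x (T / (((160 : ℤ) : ℝ) / 1000)) y k := by
  have hx0 := H.x0
  have hx1 := H.x1
  simp only [dW] at hx0 hx1
  push_cast at hx0 hx1
  cases E
  case false =>
    simp only [shO]
    split_ifs with hx
    · push_cast at hx
      exact use_row (Or.inr rfl) w1_1_0 _ (by decide)
        (H.cut (u := 70) (v := 100) (by push_cast; linarith only [hx0]) (by push_cast; linarith only [hx])) h0 h0' hs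
    · push_cast at hx
      exact use_row (Or.inr rfl) w1_1_1 _ (by decide)
        (H.cut (u := 100) (v := 150) (by push_cast; linarith only [hx]) (by push_cast; linarith only [hx1])) h0 h0' hs
  case true =>
    simp only [shO]
    split_ifs with hx
    · push_cast at hx
      exact use_row (Or.inr rfl) w1_1e_0 _ (by decide)
        (H.cut (u := 70) (v := 100) (by push_cast; linarith only [hx0]) (by push_cast; linarith only [hx])) h0 h0' hs
    · push_cast at hx
      exact use_row (Or.inr rfl) w1_1e_1 _ (by decide)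
        (H.cut (u := 100) (v := 150) (by push_cast; linarith only [hx]) (by push_cast; linarith only [hx1])) h0 h0' hs

theorem two_one2 (E : Bool) (H : (dW 150 160 (cond E (-985) (-800)) (cond E (-320) 180) 100 560).H T x y k)
    (h0 : 0 < x) (h0' : 0 < y) (hs : x + y < 1) :
    ((100 : ℤ) : ℝ) / 1000 < sd 2 (shO 2 .two x) x (T / (((160 : ℤ) : ℝ) / 1000)) y k := by
  have hx0 := H.x0
  have hx1 := H.x1
  simp only [dW] at hx0 hx1
  push_cast at hx0 hx1
  cases E
  case false =>
    exact use_row (Or.inr rfl) w2_1_0 _ (by decide) H h0 h0' hs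
  case true =>
    exact use_row (Or.inr rfl) w2_1e_0 _ (by decide) H h0 h0' hs

theorem mu_box {t0 t1 m0 m1 cl : ℤ} (ht0 : (t0 : ℝ) / 10000 ≤ T) (ht1 : T ≤ (t1 : ℝ) / 10000)
    (h : (decide (m0 * cl ≤ 1000 * t0) && decide (1000 * t1 ≤ m1 * cl) && decide (0 < cl)) = true) :
    (m0 : ℝ) / 10000 ≤ T / ((cl : ℝ) / 1000) ∧ T / ((cl : ℝ) / 1000) ≤ (m1 : ℝ) / 10000 := by
  simp only [Bool.and_eq_true, decide_eq_true_eq] at h
  obtain ⟨⟨h1, h2⟩, h3⟩ := h
  have g1 : (m0 : ℝ) * cl ≤ 1000 * t0 := by exact_mod_cast h1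
  have g2 : (1000 : ℝ) * t1 ≤ m1 * cl := by exact_mod_cast h2
  have g3 : (0 : ℝ) < cl := by exact_mod_cast h3
  constructor
  · rw [le_div_iff₀ (by positivity)]
    have : (m0 : ℝ) / 10000 * (cl / 1000) = m0 * cl / 10000000 := by ring
    rw [this]
    linarith only [ht0, g1]
  · rw [div_le_iff₀ (by positivity)]
    have : (m1 : ℝ) / 10000 * (cl / 1000) = m1 * cl / 10000000 := by ring
    rw [this]
    linarith only [ht1, g2]

theorem twoE_real (hB : B ≠ .one) (ht0 : ((twE B).1 : ℝ) / 10000 ≤ T)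
    (ht1 : T ≤ ((twE B).2 : ℝ) / 10000) (h0 : 0 < x) (h1 : x ≤ (clz2 B : ℝ) / 1000) :
    (eE2 B : ℝ) / 1000 < sE (cR 1 0 0 x) x (T / ((clz2 B : ℝ) / 1000)) := by
  cases B
  case one => exact absurd rfl hB
  case two =>
    simp only [clz2] at h1
    push_cast at h1
    rcases le_total x (20 / 1000) with hx | hx
    · have hμ := mu_box (m0 := 4500) (m1 := 8500) (cl := 100) ht0 ht1 (by decide)
      have ha : |T / (((100 : ℤ) : ℝ) / 1000)| ≤ 132 / 100 :=
        abs_le.2 ⟨by linarith only [h0, hx, hμ, hμ.1], by linarith only [h0, hx, hμ, hμ.2]⟩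
      exact rowNE_of e_2_0 h0 (by linarith only [hx]) ha hμ
    · have hμ := mu_box (m0 := 4500) (m1 := 8500) (cl := 100) ht0 ht1 (by decide)
      exact rowE_of e_2_1 ⟨by push_cast; linarith only [hx], by push_cast; linarith only [h1]⟩ hμ
  case twoE =>
    simp only [clz2] at h1
    push_cast at h1
    rcases le_total x (20 / 1000) with hx | hx
    · have hμ := mu_box (m0 := -100) (m1 := 100) (cl := 100) ht0 ht1 (by decide)
      have ha : |T / (((100 : ℤ) : ℝ) / 1000)| ≤ 132 / 100 :=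
        abs_le.2 ⟨by linarith only [h0, hx, hμ, hμ.1], by linarith only [h0, hx, hμ, hμ.2]⟩
      exact rowNE_of e_2e_0 h0 (by linarith only [hx]) ha hμ
    · have hμ := mu_box (m0 := -100) (m1 := 100) (cl := 100) ht0 ht1 (by decide)
      exact rowE_of e_2e_1 ⟨by push_cast; linarith only [hx], by push_cast; linarith only [h1]⟩ hμ
  case threeA =>
    simp only [clz2] at h1
    push_cast at h1
    rcases le_total x (20 / 1000) with hx | hx
    · have hμ := mu_box (m0 := 6333) (m1 := 8167) (cl := 120) ht0 ht1 (by decide)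
      have ha : |T / (((120 : ℤ) : ℝ) / 1000)| ≤ 132 / 100 :=
        abs_le.2 ⟨by linarith only [h0, hx, hμ, hμ.1], by linarith only [h0, hx, hμ, hμ.2]⟩
      exact rowNE_of e_3a_0 h0 (by linarith only [hx]) ha hμ
    · have hμ := mu_box (m0 := 6333) (m1 := 8167) (cl := 120) ht0 ht1 (by decide)
      exact rowE_of e_3a_1 ⟨by push_cast; linarith only [hx], by push_cast; linarith only [h1]⟩ hμ
  case threeB =>
    simp only [clz2] at h1
    push_cast at h1
    rcases le_total x (20 / 1000) with hx | hx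
    · have hμ := mu_box (m0 := 5846) (m1 := 7539) (cl := 130) ht0 ht1 (by decide)
      have ha : |T / (((130 : ℤ) : ℝ) / 1000)| ≤ 132 / 100 :=
        abs_le.2 ⟨by linarith only [h0, hx, hμ, hμ.1], by linarith only [h0, hx, hμ, hμ.2]⟩
      exact rowNE_of e_3b_0 h0 (by linarith only [hx]) ha hμ
    · have hμ := mu_box (m0 := 5846) (m1 := 7539) (cl := 130) ht0 ht1 (by decide)
      exact rowE_of e_3b_1 ⟨by push_cast; linarith only [hx], by push_cast; linarith only [h1]⟩ hμ
  case threeE =>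
    simp only [clz2] at h1
    push_cast at h1
    rcases le_total x (20 / 1000) with hx | hx
    · have hμ := mu_box (m0 := 6500) (m1 := 6900) (cl := 100) ht0 ht1 (by decide)
      have ha : |T / (((100 : ℤ) : ℝ) / 1000)| ≤ 132 / 100 :=
        abs_le.2 ⟨by linarith only [h0, hx, hμ, hμ.1], by linarith only [h0, hx, hμ, hμ.2]⟩
      exact rowNE_of e_3e_0 h0 (by linarith only [hx]) ha hμ
    · have hμ := mu_box (m0 := 6500) (m1 := 6900) (cl := 100) ht0 ht1 (by decide)
      exact rowE_of e_3e_1 ⟨by push_cast; linarith only [hx], by push_cast; linarith only [h1]⟩ hμ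
  case ring =>
    simp only [clz2] at h1
    push_cast at h1
    rcases le_total x (20 / 1000) with hx | hx
    · have hμ := mu_box (m0 := 7040) (m1 := 10480) (cl := 125) ht0 ht1 (by decide)
      have ha : |T / (((125 : ℤ) : ℝ) / 1000)| ≤ 132 / 100 :=
        abs_le.2 ⟨by linarith only [h0, hx, hμ, hμ.1], by linarith only [h0, hx, hμ, hμ.2]⟩
      exact rowNE_of e_Z_0 h0 (by linarith only [hx]) ha hμ
    · have hμ := mu_box (m0 := 7040) (m1 := 10480) (cl := 125) ht0 ht1 (by decide)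
      exact rowE_of e_Z_1 ⟨by push_cast; linarith only [hx], by push_cast; linarith only [h1]⟩ hμ

theorem twoE_one0 (ht0 : ((-10 : ℤ) : ℝ) / 10000 ≤ T) (ht1 : T ≤ ((660 : ℤ) : ℝ) / 10000)
    (h0 : 0 < x) (h1 : x ≤ 70 / 1000) :
    ((350 : ℤ) : ℝ) / 1000 < sE (shO 0 .twoE x) x (T / (((140 : ℤ) : ℝ) / 1000)) := by
  rcases le_total x (20 / 1000) with hx | hx
  · have hμ := mu_box (m0 := -72) (m1 := 4715) (cl := 140) ht0 ht1 (by decide)
    have ha : |T / (((140 : ℤ) : ℝ) / 1000)| ≤ 132 / 100 :=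
      abs_le.2 ⟨by linarith only [ht0, h0, hx, hμ.1], by linarith only [ht1, h0, hx, hμ.2]⟩
    exact rowNE_of e0_1_0 h0 (by linarith only [hx]) ha hμ
  · have hμ := mu_box (m0 := -72) (m1 := 4715) (cl := 140) ht0 ht1 (by decide)
    exact rowE_of e0_1_1 ⟨by push_cast; linarith only [hx], by push_cast; linarith only [h1]⟩ hμ

theorem twoE_one1 (ht0 : ((-10 : ℤ) : ℝ) / 10000 ≤ T) (ht1 : T ≤ ((660 : ℤ) : ℝ) / 10000)
    (h0 : 70 / 1000 ≤ x) (h1 : x ≤ 125 / 1000) :
    ((0 : ℤ) : ℝ) / 1000 < sE (shO 1 .twoE x) x (T / (((140 : ℤ) : ℝ) / 1000)) := by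
  have hμ := mu_box (m0 := -72) (m1 := 4715) (cl := 140) ht0 ht1 (by decide)
  exact rowE_of e1_1 ⟨by push_cast; linarith only [h0], by push_cast; linarith only [h1]⟩ hμ

theorem twoE_one2 (ht0 : ((-10 : ℤ) : ℝ) / 10000 ≤ T) (ht1 : T ≤ ((660 : ℤ) : ℝ) / 10000)
    (h0 : 125 / 1000 ≤ x) (h1 : x ≤ 140 / 1000) :
    ((0 : ℤ) : ℝ) / 1000 < sE (shO 2 .twoE x) x (T / (((140 : ℤ) : ℝ) / 1000)) := by
  have hμ := mu_box (m0 := -72) (m1 := 4715) (cl := 140) ht0 ht1 (by decide)
  exact rowE_of e2_1 ⟨by push_cast; linarith only [h0], by push_cast; linarith only [h1]⟩ hμ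

end ML

end Pool.Agent.Work.MP_b30479_gtS.G2

end

section

/-!
# The left ramps: sides of the digit `2` in a word, steps at the hinges between small digits
-/

namespace Pool.Agent.Work.MP_b30479_gtS.G2

open Finset VOL Filter Topology

namespace SR

open ML

variable {M : ℕ} {b : Fin (M + 1) → ℤ} {zs : DD (tyW b) ⊕ ZZ (tyW b) → ℂ}
variable {y : DD (tyW b) ⊕ ZZ (tyW b) → ℝ}
variable {h h' : Fin M} {i j j' : Fin (M + 1)} {p : Fin 3}

theorem Adj.cl_two (A : Adj h i p j) (hc : clsW b i = .two) :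
    wcl b h = (clz2 (k7 p (clsW b j)) : ℝ) / 1000 := by
  have e1 : ¬ (0 : Fin 3) = 2 := by decide
  rw [A.cl_eq b, hc]
  generalize clsW b j = B
  unfold hpp
  rcases A.slot with rfl | rfl
  · rw [if_neg (by decide)]
    cases B <;> simp only [hp, hp1, k7, e1, if_false] <;> (try split_ifs) <;> simp only [clz2] <;>
      norm_num
  · rw [if_pos rfl]
    cases B <;> simp only [hp, hp1, k7, if_true] <;> (try split_ifs) <;> simp only [clz2] <;>
      norm_num

theorem Adj.cl_twoE (A : Adj h i p j) (hc : clsW b i = .twoE) (hj : clsW b j ≠ .one) :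
    wcl b h = (clz2 (k7 p (clsW b j)) : ℝ) / 1000 := by
  have e1 : ¬ (0 : Fin 3) = 2 := by decide
  rw [A.cl_eq b, hc]
  generalize clsW b j = B at hj
  unfold hpp
  rcases A.slot with rfl | rfl
  · rw [if_neg (by decide)]
    cases B <;> first | exact absurd rfl hj | skip
    all_goals simp only [hp, hp1, k7, e1, if_false] <;> (try split_ifs) <;> simp only [clz2] <;>
      norm_num
  · rw [if_pos rfl]
    cases B <;> first | exact absurd rfl hj | skip
    all_goals simp only [hp, hp1, k7, if_true] <;> (try split_ifs) <;> simp only [clz2] <;>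
      norm_num

theorem Adj.XM_two_le (A : Adj h i p j) (hc : clsW b i = .two) : wXM b h ≤ 80 / 100 := by
  rw [A.XM_eq b, hc]
  generalize clsW b j = B
  unfold hpp
  split_ifs <;> cases B <;> simp only [hp, hp1] <;> norm_num

theorem Adj.low_two (A : Adj h i p j) (hb : ClassW b) (hL : Loc b zs) (hy : Mx b zs y)
    (hc : clsW b i = .two) : -(99 / 1000) ≤ (Yw b zs y i p).im := by
  have hop := A.opp hb (Or.inl (by rw [hc]; decide))
  obtain ⟨-, -, h3, h4⟩ := A.box hb hL
  rw [hc, A.ss hop] at h3 h4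
  refine A.im_low hy (by norm_num) (le_trans ?_ h3)
  generalize clsW b j = B
  cases B <;> norm_num [hbox]

/-- the data of the side of a digit `2` -/
theorem Adj.two_H (A' : Adj h' i p.rev j') (hb : ClassW b) (hL : Loc b zs)
    (hy : Mx b zs y) (hc : clsW b i = .two) {x0 x1 t0 t1 y0 y1 : ℤ} {T x : ℝ} (ht : -2000 ≤ t0)
    (g0 : (t0 : ℝ) / 10000 ≤ T) (g1 : T ≤ (t1 : ℝ) / 10000)
    (k0 : (x0 : ℝ) / 1000 ≤ x) (k1 : x ≤ (x1 : ℝ) / 1000)
    (l0 : (y0 : ℝ) / 1000 ≤ y (.inl (.inl h'))) (l1 : y (.inl (.inl h')) ≤ (y1 : ℝ) / 1000) :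
    (dW x0 x1 t0 t1 y0 y1).H T x (y (.inl (.inl h'))) (Yw b zs y i p.rev).im := by
  have k := A'.low_two hb hL hy hc
  have ht' : (-2000 : ℝ) ≤ t0 := by exact_mod_cast ht
  have hp : 0 ≤ y (.inl (.inl h')) := by
    have := (A'.rh hy).re0
    rwa [A'.re] at this
  refine ⟨k0, k1, g0, g1, ?_, ?_, l0, l1, ?_⟩
  · simp only [dW]; push_cast; linarith only [k]
  · simp only [dW]; push_cast; linarith only [g0, k, ht']
  · simp only [dW]; push_cast; simpa using hp

/-! ### digit `2`, away from the digits `1` -/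

theorem tw_box (p : Fin 3) {B : Cl} (hB : B ≠ .one) {T : ℝ} (h3 : (hbox .two B false).t0 ≤ T)
    (h4 : T ≤ (hbox .two B false).t1) : ((tw (k7 p B)).1 : ℝ) / 10000 ≤ T ∧
      T ≤ ((tw (k7 p B)).2 : ℝ) / 10000 := by
  cases B <;> first | exact absurd rfl hB | skip
  all_goals
    simp only [hbox] at h3 h4
    simp only [k7]
    (try split_ifs) <;> simp only [tw] <;> push_cast <;> constructor <;> linarith only [h3, h4]

theorem k7_ne_one {p : Fin 3} {B : Cl} (hB : B ≠ .one) : k7 p B ≠ .one := by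
  cases B <;> first | exact absurd rfl hB | skip
  all_goals simp only [k7]; (try split_ifs) <;> decide

theorem tw_ge (K : K7) : -2000 ≤ (tw K).1 := by cases K <;> decide

/-- **A digit `2` away from the digits `1`, round `L0`.** -/
theorem Adj.two_L0 (A : Adj h i p j) (A' : Adj h' i p.rev j') (hb : ClassW b) (hL : Loc b zs)
    (hy : Mx b zs y) (hpos : ∀ h : Fin M, 0 < y (.inl (.inl h))) (hc : clsW b i = .two)
    (hj : clsW b j ≠ .one) (hx : y (.inl (.inl h)) ≤ 70 / 1000) :
    1 / 10 ≤ Sw b zs y i p ((zs (.inl (.inl h))).im / wcl b h) +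
      Real.pi / 2 * ofs (b i) ((zs (.inl (.inl h))).im / wcl b h) := by
  have hop := A.opp hb (Or.inl (by rw [hc]; decide))
  obtain ⟨-, -, h3, h4⟩ := A.box hb hL
  rw [hc, A.ss hop] at h3 h4
  obtain ⟨g0, g1⟩ := tw_box p hj h3 h4
  have hXM : y (.inl (.inl h')) ≤ 80 / 100 := by
    have := (A'.rh hy).reM
    rw [A'.re] at this
    exact this.trans (A'.XM_two_le hc)
  have hcl : y (.inl (.inl h)) ≤ wcl b h := by
    have h1 : (100 : ℤ) ≤ clz2 (k7 p (clsW b j)) := by
      generalize k7 p (clsW b j) = K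
      cases K <;> decide
    have h2 : (100 : ℝ) ≤ clz2 (k7 p (clsW b j)) := by exact_mod_cast h1
    rw [A.cl_two hc]
    linarith only [hx, h2]
  have H := A'.two_H hb hL hy hc (x0 := 0) (x1 := 70) (y0 := 0) (y1 := 800) (tw_ge _) g0 g1
    (x := y (.inl (.inl h))) (by push_cast; linarith only [hpos, hpos h]) (by push_cast; linarith only [hx])
    (by push_cast; linarith only [hpos, hpos h']) (by push_cast; linarith only [hXM])
  have := two_real0 (k7_ne_one hj) H (hpos h) (hpos h') (by linarith only [hx, hXM])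
  rw [← A.cl_two hc] at this
  rw [A.two_sd A' hb hy hc hcl (hpos h) (hpos h') (by linarith only [hx, hXM])]
  have e : cR 1 0 0 (y (.inl (.inl h))) = Real.pi / 2 := by unfold cR; push_cast; ring
  rw [e] at this
  push_cast at this
  linarith only [this]

/-- **A digit `2` away from the digits `1`, rounds `L1` and `L2`.** -/
theorem Adj.two_L1 (A : Adj h i p j) (A' : Adj h' i p.rev j') (hb : ClassW b) (hL : Loc b zs)
    (hy : Mx b zs y) (hpos : ∀ h : Fin M, 0 < y (.inl (.inl h))) (hc : clsW b i = .two)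
    (hj : clsW b j ≠ .one) (hx0 : 70 / 1000 ≤ y (.inl (.inl h))) (hx : y (.inl (.inl h)) ≤ wcl b h)
    (hy0 : 70 / 1000 ≤ y (.inl (.inl h'))) (hy1 : y (.inl (.inl h')) ≤ 56 / 100) :
    2 / 10 ≤ Sw b zs y i p ((zs (.inl (.inl h))).im / wcl b h) +
      Real.pi / 2 * ofs (b i) ((zs (.inl (.inl h))).im / wcl b h) := by
  have hop := A.opp hb (Or.inl (by rw [hc]; decide))
  obtain ⟨-, -, h3, h4⟩ := A.box hb hL
  rw [hc, A.ss hop] at h3 h4
  obtain ⟨g0, g1⟩ := tw_box p hj h3 h4
  have hcl := hx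
  rw [A.cl_two hc] at hcl
  have h13 : y (.inl (.inl h)) ≤ 16 / 100 := by
    have h1 : clz2 (k7 p (clsW b j)) ≤ (160 : ℤ) := by
      generalize k7 p (clsW b j) = K
      cases K <;> decide
    have h2 : (clz2 (k7 p (clsW b j)) : ℝ) ≤ 160 := by exact_mod_cast h1
    linarith only [hcl, h2]
  have H := A'.two_H hb hL hy hc (x0 := 70) (y0 := 70) (y1 := 560) (tw_ge _) g0 g1
    (x := y (.inl (.inl h))) (by push_cast; linarith only [hx0]) hcl
    (by push_cast; linarith only [hy0]) (by push_cast; linarith only [hy1])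
  have := two_real1 (k7_ne_one hj) H (hpos h) (hpos h') (by linarith only [hy1, h13])
  rw [← A.cl_two hc] at this
  rw [A.two_sd A' hb hy hc hx (hpos h) (hpos h') (by linarith only [hy1, h13])]
  have e : cR 1 0 0 (y (.inl (.inl h))) = Real.pi / 2 := by unfold cR; push_cast; ring
  rw [e] at this
  push_cast at this
  linarith only [this]

/-! ### digit `2` next to a digit `1` -/

/-- the window of a hinge `2 | 1` in the frame of the digit `2` -/
theorem Adj.two_win (A : Adj h i p j) (hb : ClassW b) (hX : LocX b zs) (hc : clsW b i = .two)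
    (hj : clsW b j = .one) : ∃ E : Bool,
    ((cond E (-985) (-800) : ℤ) : ℝ) / 10000 ≤ ofs (b i) (zs (.inl (.inl h))).im ∧
      ofs (b i) (zs (.inl (.inl h))).im ≤ ((cond E (-320) 180 : ℤ) : ℝ) / 10000 := by
  have hop := A.symm.opp hb (Or.inl (by rw [hj]; decide))
  obtain ⟨h1, j1, A1⟩ := A.symm.other_one hb hj
  obtain ⟨w1, w2, -, -⟩ := hX.win A.symm A1 hj
  rw [ofs_opp hop, hc] at *
  refine ⟨decide (clsW b j1 = .twoE ∨ clsW b j1 = .threeE), ?_⟩
  generalize clsW b j1 = C at w1 w2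
  cases C <;> simp only [cw] at w1 w2 <;> simp only [reduceCtorEq, or_false, false_or, or_self, decide_true, decide_false, cond_true, cond_false] <;>
    push_cast <;> constructor <;> linarith only [w2, w1]

theorem Adj.cl_two_one (A : Adj h i p j) (hc : clsW b i = .two) (hj : clsW b j = .one) :
    wcl b h = ((160 : ℤ) : ℝ) / 1000 := by
  rw [A.cl_two hc, hj]
  rfl

/-- **A digit `2` next to a digit `1`, round `L0`.** -/
theorem Adj.two_one_L0 (A : Adj h i p j) (A' : Adj h' i p.rev j') (hb : ClassW b) (hL : Loc b zs)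
    (hX : LocX b zs) (hy : Mx b zs y) (hpos : ∀ h : Fin M, 0 < y (.inl (.inl h)))
    (hc : clsW b i = .two) (hj : clsW b j = .one) (hx : y (.inl (.inl h)) ≤ 70 / 1000) :
    35 / 100 ≤ Sw b zs y i p ((zs (.inl (.inl h))).im / wcl b h) +
      shO 0 .two (y (.inl (.inl h))) * ofs (b i) ((zs (.inl (.inl h))).im / wcl b h) := by
  obtain ⟨E, g0, g1⟩ := A.two_win hb hX hc hj
  have hXM : y (.inl (.inl h')) ≤ 80 / 100 := by
    have := (A'.rh hy).reM
    rw [A'.re] at this
    exact this.trans (A'.XM_two_le hc)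
  have hcl : y (.inl (.inl h)) ≤ wcl b h := by
    rw [A.cl_two_one hc hj]; push_cast; linarith only [hx]
  have H := A'.two_H hb hL hy hc (x0 := 0) (x1 := 70) (y0 := 0) (y1 := 800)
    (by cases E <;> decide) g0 g1
    (x := y (.inl (.inl h))) (by push_cast; linarith only [hpos, hpos h]) (by push_cast; linarith only [hx])
    (by push_cast; linarith only [hpos, hpos h']) (by push_cast; linarith only [hXM])
  have := two_one0 E H (hpos h) (hpos h') (by linarith only [hx, hXM])
  rw [← A.cl_two_one hc hj] at this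
  rw [A.two_sd A' hb hy hc hcl (hpos h) (hpos h') (by linarith only [hx, hXM])]
  push_cast at this
  linarith only [this]

/-- **A digit `2` next to a digit `1`, round `L1`.** -/
theorem Adj.two_one_L1 (A : Adj h i p j) (A' : Adj h' i p.rev j') (hb : ClassW b) (hL : Loc b zs)
    (hX : LocX b zs) (hy : Mx b zs y) (hpos : ∀ h : Fin M, 0 < y (.inl (.inl h)))
    (hc : clsW b i = .two) (hj : clsW b j = .one) (hx0 : 70 / 1000 ≤ y (.inl (.inl h)))
    (hx : y (.inl (.inl h)) ≤ 150 / 1000) (hy0 : 70 / 1000 ≤ y (.inl (.inl h')))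
    (hy1 : y (.inl (.inl h')) ≤ 56 / 100) :
    19 / 100 ≤ Sw b zs y i p ((zs (.inl (.inl h))).im / wcl b h) +
      shO 1 .two (y (.inl (.inl h))) * ofs (b i) ((zs (.inl (.inl h))).im / wcl b h) := by
  obtain ⟨E, g0, g1⟩ := A.two_win hb hX hc hj
  have hcl : y (.inl (.inl h)) ≤ wcl b h := by
    rw [A.cl_two_one hc hj]; push_cast; linarith only [hx]
  have H := A'.two_H hb hL hy hc (x0 := 70) (x1 := 150) (y0 := 70) (y1 := 560)
    (by cases E <;> decide) g0 g1
    (x := y (.inl (.inl h))) (by push_cast; linarith only [hx0]) (by push_cast; linarith only [hx])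
    (by push_cast; linarith only [hy0]) (by push_cast; linarith only [hy1])
  have := two_one1 E H (hpos h) (hpos h') (by linarith only [hx, hy1])
  rw [← A.cl_two_one hc hj] at this
  rw [A.two_sd A' hb hy hc hcl (hpos h) (hpos h') (by linarith only [hx, hy1])]
  push_cast at this
  linarith only [this]

/-- **A digit `2` next to a digit `1`, round `L2`.** -/
theorem Adj.two_one_L2 (A : Adj h i p j) (A' : Adj h' i p.rev j') (hb : ClassW b) (hL : Loc b zs)
    (hX : LocX b zs) (hy : Mx b zs y) (hpos : ∀ h : Fin M, 0 < y (.inl (.inl h)))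
    (hc : clsW b i = .two) (hj : clsW b j = .one) (hx0 : 150 / 1000 ≤ y (.inl (.inl h)))
    (hx : y (.inl (.inl h)) ≤ 160 / 1000) (hy0 : 100 / 1000 ≤ y (.inl (.inl h')))
    (hy1 : y (.inl (.inl h')) ≤ 56 / 100) :
    10 / 100 ≤ Sw b zs y i p ((zs (.inl (.inl h))).im / wcl b h) +
      shO 2 .two (y (.inl (.inl h))) * ofs (b i) ((zs (.inl (.inl h))).im / wcl b h) := by
  obtain ⟨E, g0, g1⟩ := A.two_win hb hX hc hj
  have hcl : y (.inl (.inl h)) ≤ wcl b h := by
    rw [A.cl_two_one hc hj]; push_cast; linarith only [hx]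
  have H := A'.two_H hb hL hy hc (x0 := 150) (x1 := 160) (y0 := 100) (y1 := 560)
    (by cases E <;> decide) g0 g1
    (x := y (.inl (.inl h))) (by push_cast; linarith only [hx0]) (by push_cast; linarith only [hx])
    (by push_cast; linarith only [hy0]) (by push_cast; linarith only [hy1])
  have := two_one2 E H (hpos h) (hpos h') (by linarith only [hx, hy1])
  rw [← A.cl_two_one hc hj] at this
  rw [A.two_sd A' hb hy hc hcl (hpos h) (hpos h') (by linarith only [hx, hy1])]
  push_cast at this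
  linarith only [this]

/-! ### digit `2` at an end -/

theorem twE_box (p : Fin 3) (B : Cl) {T : ℝ} (h3 : (hbox .twoE B false).t0 ≤ T)
    (h4 : T ≤ (hbox .twoE B false).t1) : ((twE (k7 p B)).1 : ℝ) / 10000 ≤ T ∧
      T ≤ ((twE (k7 p B)).2 : ℝ) / 10000 := by
  cases B <;> simp only [hbox] at h3 h4 <;> simp only [k7] <;> (try split_ifs) <;>
    simp only [twE] <;> push_cast <;> constructor <;> linarith only [h3, h4]

/-- **A digit `2` at an end, away from the digits `1`.** -/
theorem Adj.twoE_L (A : Adj h i p j) (hb : ClassW b) (hL : Loc b zs)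
    (hy : Mx b zs y) (hpos : ∀ h : Fin M, 0 < y (.inl (.inl h))) (hc : clsW b i = .twoE)
    (hj : clsW b j ≠ .one) (hx : y (.inl (.inl h)) ≤ wcl b h) :
    (eE2 (k7 p (clsW b j)) : ℝ) / 1000 ≤ Sw b zs y i p ((zs (.inl (.inl h))).im / wcl b h) +
      Real.pi / 2 * ofs (b i) ((zs (.inl (.inl h))).im / wcl b h) := by
  have hop := A.opp hb (Or.inl (by rw [hc]; decide))
  obtain ⟨-, -, h3, h4⟩ := A.box hb hL
  rw [hc, A.ss hop] at h3 h4
  obtain ⟨g0, g1⟩ := twE_box p (clsW b j) h3 h4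
  have hcl := hx
  rw [A.cl_twoE hc hj] at hcl
  have h13 : y (.inl (.inl h)) < 1 := by
    have h1 : clz2 (k7 p (clsW b j)) ≤ (160 : ℤ) := by
      generalize k7 p (clsW b j) = K
      cases K <;> decide
    have h2 : (clz2 (k7 p (clsW b j)) : ℝ) ≤ 160 := by exact_mod_cast h1
    linarith only [hcl, h2]
  have := twoE_real (k7_ne_one hj) g0 g1 (hpos h) hcl
  rw [← A.cl_twoE hc hj] at this
  rw [A.twoE_sE hb hy hc hx (hpos h) h13]
  have e : cR 1 0 0 (y (.inl (.inl h))) = Real.pi / 2 := by unfold cR; push_cast; ring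
  rw [e] at this
  exact this.le

theorem Adj.cl_twoE_one (A : Adj h i p j) (hc : clsW b i = .twoE) (hj : clsW b j = .one) :
    wcl b h = ((140 : ℤ) : ℝ) / 1000 := by
  rw [A.symm.cl_one hj, hc]
  rfl

/-- **A digit `2` at an end, next to a digit `1`.** -/
theorem Adj.twoE_one_L (A : Adj h i p j) (hb : ClassW b) (hL : Loc b zs)
    (hy : Mx b zs y) (hpos : ∀ h : Fin M, 0 < y (.inl (.inl h))) (hc : clsW b i = .twoE)
    (hj : clsW b j = .one) {n : ℕ} {e : ℝ}
    (hn : (n = 0 ∧ e = 35 / 100 ∧ y (.inl (.inl h)) ≤ 70 / 1000) ∨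
      (n = 1 ∧ e = 0 ∧ 70 / 1000 ≤ y (.inl (.inl h)) ∧ y (.inl (.inl h)) ≤ 125 / 1000) ∨
      (n = 2 ∧ e = 0 ∧ 125 / 1000 ≤ y (.inl (.inl h)) ∧ y (.inl (.inl h)) ≤ 140 / 1000)) :
    e ≤ Sw b zs y i p ((zs (.inl (.inl h))).im / wcl b h) +
      shO n .twoE (y (.inl (.inl h))) * ofs (b i) ((zs (.inl (.inl h))).im / wcl b h) := by
  have hop := A.opp hb (Or.inl (by rw [hc]; decide))
  obtain ⟨-, -, h3, h4⟩ := A.box hb hL
  rw [hc, A.ss hop] at h3 h4
  obtain ⟨g0, g1⟩ := twE_box p (clsW b j) h3 h4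
  rw [hj] at g0 g1
  have hcl := A.cl_twoE_one hc hj
  rcases hn with ⟨rfl, rfl, hx⟩ | ⟨rfl, rfl, hx0, hx⟩ | ⟨rfl, rfl, hx0, hx⟩
  · have := twoE_one0 g0 g1 (hpos h) hx
    rw [← hcl] at this
    rw [A.twoE_sE hb hy hc (by rw [hcl]; push_cast; linarith only [hx]) (hpos h) (by linarith only [hx])]
    push_cast at this
    linarith only [this]
  · have := twoE_one1 g0 g1 hx0 hx
    rw [← hcl] at this
    rw [A.twoE_sE hb hy hc (by rw [hcl]; push_cast; linarith only [hx]) (hpos h) (by linarith only [hx])]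
    push_cast at this
    linarith only [this]
  · have := twoE_one2 g0 g1 hx0 hx
    rw [← hcl] at this
    rw [A.twoE_sE hb hy hc (by rw [hcl]; push_cast; linarith only [hx]) (hpos h) (by linarith only [hx])]
    push_cast at this
    linarith only [this]

end SR

end Pool.Agent.Work.MP_b30479_gtS.G2

end

section

/-!
# The left rounds: steps at the hinges between the digits `1` and `2`
-/

namespace Pool.Agent.Work.MP_b30479_gtS.G2

open Finset VOL Filter Topology

namespace SR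

open ML

variable {M : ℕ} {b : Fin (M + 1) → ℤ} {zs : DD (tyW b) ⊕ ZZ (tyW b) → ℂ}
variable {y : DD (tyW b) ⊕ ZZ (tyW b) → ℝ}
variable {h h' h1 h2 : Fin M} {i j j' j1 j2 : Fin (M + 1)} {p : Fin 3}

/-- the order of a left round with the table `T` at the hinge `h` -/
def Ord (b : Fin (M + 1) → ℤ) (y : DD (tyW b) ⊕ ZZ (tyW b) → ℝ) (T : Tab) (v : ℝ) : Prop :=
  ∀ {h' : Fin M} {i' j' : Fin (M + 1)} {p' : Fin 3}, Adj h' i' p' j' →
    v ≤ y (.inl (.inl h')) / T p' (clsW b i') (clsW b j')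

/-- a digit `1` or `2` -/
def Cl.small (A : Cl) : Prop := A = .one ∨ A = .two ∨ A = .twoE

/-- a step between regions of opposite signs -/
theorem LStep.opp (A : Adj h i p j) (hb : ClassW b) (hn : clsW b i ≠ .ring) {m c e1 e2 : ℝ}
    (he : 0 < e1 + e2) (k1 : e1 ≤ Sw b zs y i p m + c * ofs (b i) m)
    (k2 : e2 ≤ Sw b zs y j p.rev m + c * ofs (b j) m) : LStep b zs y h m :=
  LStep.of_adj A (fun h0 => absurd (A.opp hb (Or.inl hn)) (not_lt.2 h0.le)) he k1 k2

theorem Adj.tab_symm (A : Adj h i p j) {T : Tab} (hT : TSym T) (b : Fin (M + 1) → ℤ) :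
    T p.rev (clsW b j) (clsW b i) = T p (clsW b i) (clsW b j) := by
  rw [A.tab hT b, A.symm.tab hT b]

theorem F0_two (q : Fin 3) {B : Cl} (hB : B ≠ .one) : F0 q .two B = 70 / 1000 := by
  cases B <;> first | exact absurd rfl hB | simp only [F0]

/-- **The round `L0` between the digits `1` and `2`.** -/
theorem step_L0 (hb : ClassW b) (hL : Loc b zs) (hX : LocX b zs) (hy : Mx b zs y)
    (hpos : ∀ h : Fin M, 0 < y (.inl (.inl h))) (A : Adj h i p j)
    (hr : rkC (clsW b i) ≤ rkC (clsW b j)) (hj : (clsW b j).small)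
    (hx : y (.inl (.inl h)) < F0 p (clsW b i) (clsW b j))
    (ho : Ord b y F0 (y (.inl (.inl h)) / F0 p (clsW b i) (clsW b j))) :
    LStep b zs y h ((zs (.inl (.inl h))).im / wcl b h) := by
  have hx' : y (.inl (.inl h)) < F0 p.rev (clsW b j) (clsW b i) := by
    rwa [A.tab_symm F0_sym b]
  have ho' : Ord b y F0 (y (.inl (.inl h)) / F0 p.rev (clsW b j) (clsW b i)) := by
    rwa [A.tab_symm F0_sym b]
  have hcl : y (.inl (.inl h)) ≤ wcl b h := by
    have := F0_wcl (b := b) h
    rw [← A.tab F0_sym b] at this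
    exact (hx.trans_le this).le
  rcases hi : clsW b i with _ | _ | _ | _ | _ | _
  · -- digit `1`
    obtain ⟨h1, j1, A1⟩ := A.other_one hb hi
    have s1 := A.one_L0 A1 hb hX hy hpos hi hx (ho A1)
    rcases hj with hj | hj | hj
    · obtain ⟨h2, j2, A2⟩ := A.symm.other_one hb hj
      have s2 := A.symm.one_L0 A2 hb hX hy hpos hj hx' (ho' A2)
      rw [hj] at s1
      rw [hi] at s2
      exact LStep.opp A hb (by rw [hi]; decide) (by simp only [k7, eO]; norm_num) s1 s2
    · obtain ⟨h2, j2, A2⟩ := A.symm.other' b (clsW_inner hb (Or.inr (Or.inl hj)))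
      have s2 := A.symm.two_one_L0 A2 hb hL hX hy hpos hj hi (by
        rw [hj, hi] at hx'
        simp only [F0] at hx'
        exact hx'.le)
      rw [hj] at s1
      exact LStep.opp A hb (by rw [hi]; decide) (by simp only [k7, eO]; norm_num) s1 s2
    · have s2 := A.symm.twoE_one_L hb hL hy hpos hj hi (n := 0) (e := 35 / 100) (Or.inl ⟨rfl, rfl, by
        rw [hj, hi] at hx'
        simp only [F0] at hx'
        exact hx'.le⟩)
      rw [hj] at s1
      exact LStep.opp A hb (by rw [hi]; decide) (by simp only [k7, eO]; norm_num) s1 s2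
  · -- digit `2`
    obtain ⟨h1, j1, A1⟩ := A.other' b (clsW_inner hb (Or.inr (Or.inl hi)))
    have hj1 : clsW b j ≠ .one := by
      intro h0
      rw [hi, h0] at hr
      exact absurd hr (by decide)
    have s1 := A.two_L0 A1 hb hL hy hpos hi hj1 (by
      rw [hi, F0_two _ hj1] at hx
      exact hx.le)
    rcases hj with hj | hj | hj
    · exact absurd hj hj1
    · obtain ⟨h2, j2, A2⟩ := A.symm.other' b (clsW_inner hb (Or.inr (Or.inl hj)))
      have s2 := A.symm.two_L0 A2 hb hL hy hpos hj (by rw [hi]; decide) (by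
        rw [hj, F0_two _ (by rw [hi]; decide)] at hx'
        exact hx'.le)
      exact LStep.opp A hb (by rw [hi]; decide) (by norm_num) s1 s2
    · have s2 := A.symm.twoE_L hb hL hy hpos hj (by rw [hi]; decide) hcl
      rw [hi] at s2
      exact LStep.opp A hb (by rw [hi]; decide) (by simp only [k7, eE2]; norm_num) s1 s2
  · -- digit `2` at an end
    have hj1 : clsW b j = .twoE := by
      rcases hj with hj | hj | hj
      · rw [hi, hj] at hr; exact absurd hr (by decide)
      · rw [hi, hj] at hr; exact absurd hr (by decide)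
      · exact hj
    have s1 := A.twoE_L hb hL hy hpos hi (by rw [hj1]; decide) hcl
    have s2 := A.symm.twoE_L hb hL hy hpos hj1 (by rw [hi]; decide) hcl
    rw [hj1] at s1
    rw [hi] at s2
    exact LStep.opp A hb (by rw [hi]; decide) (by simp only [k7, eE2]; norm_num) s1 s2
  all_goals
    exfalso
    rcases hj with hj | hj | hj <;> rw [hi, hj] at hr <;> exact absurd hr (by decide)

/-- caps used in the round `L1` -/
noncomputable def C1 : Tab := fun _ A B =>
  match A, B with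
  | .one, .one => 70 / 100
  | .one, .two => 56 / 100
  | .two, .one => 56 / 100
  | .one, .twoE => 37 / 100
  | .twoE, .one => 37 / 100
  | .one, .three => 65 / 100
  | .three, .one => 65 / 100
  | .one, .threeE => 60 / 100
  | .threeE, .one => 60 / 100
  | .one, .ring => 65 / 100
  | .ring, .one => 65 / 100
  | .two, _ => 56 / 100
  | _, .two => 56 / 100
  | _, _ => 1

/-- caps used in the rounds `L2`, `L3` -/
noncomputable def C2 : Tab := fun _ A B =>
  match A, B with
  | .one, .one => 64 / 100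
  | .one, .threeE => 37 / 100
  | .threeE, .one => 37 / 100
  | A, B => C1 0 A B

theorem C1_one (q : Fin 3) (K : K7) (C : Cl) : C1 q .one C ≤ (cpz 1 K C : ℝ) / 1000 := by
  cases C <;> simp only [C1, cpz] <;> norm_num

theorem C2_one (q : Fin 3) (K : K7) (C : Cl) : C2 q .one C ≤ (cpz 2 K C : ℝ) / 1000 := by
  cases C <;> simp only [C2, C1, cpz] <;> norm_num

theorem C1_two (q : Fin 3) (C : Cl) : C1 q .two C = 56 / 100 := by
  cases C <;> simp only [C1]

theorem C2_two (q : Fin 3) (C : Cl) : C2 q .two C = 56 / 100 := by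
  cases C <;> simp only [C2, C1]

/-- **The round `L1` between the digits `1` and `2`.** -/
theorem step_L1 (hb : ClassW b) (hL : Loc b zs) (hX : LocX b zs) (hy : Mx b zs y)
    (hpos : ∀ h : Fin M, 0 < y (.inl (.inl h))) (hF : Flr b y F0) (hC : Cap b y C1)
    (A : Adj h i p j)
    (hr : rkC (clsW b i) ≤ rkC (clsW b j)) (hj : (clsW b j).small)
    (hx : y (.inl (.inl h)) < F1 p (clsW b i) (clsW b j))
    (ho : Ord b y F1 (y (.inl (.inl h)) / F1 p (clsW b i) (clsW b j))) :
    LStep b zs y h ((zs (.inl (.inl h))).im / wcl b h) := by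
  have hx' : y (.inl (.inl h)) < F1 p.rev (clsW b j) (clsW b i) := by
    rwa [A.tab_symm F1_sym b]
  have ho' : Ord b y F1 (y (.inl (.inl h)) / F1 p.rev (clsW b j) (clsW b i)) := by
    rwa [A.tab_symm F1_sym b]
  have hcl : y (.inl (.inl h)) ≤ wcl b h := by
    have := F1_wcl (b := b) h
    rw [← A.tab F1_sym b] at this
    exact (hx.trans_le this).le
  have f0 := hF A
  have two_y : ∀ {h' : Fin M} {i j' : Fin (M + 1)} {q : Fin 3}, Adj h' i q j' → clsW b i = .two →
      70 / 1000 ≤ y (.inl (.inl h')) ∧ y (.inl (.inl h')) ≤ 56 / 100 := by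
    intro h' i j' q A' hi
    have g1 := hF A'
    have g2 := hC A'
    rw [hi] at g1 g2
    rw [C1_two] at g2
    refine ⟨le_trans ?_ g1, g2⟩
    cases clsW b j' <;> simp only [F0] <;> norm_num
  rcases hi : clsW b i with _ | _ | _ | _ | _ | _
  · -- digit `1`
    obtain ⟨h1, j1, A1⟩ := A.other_one hb hi
    have c1 := hC A1
    rw [hi] at c1
    have s1 := A.one_L1 A1 hb hX hy hpos hF hi (c1.trans (C1_one _ _ _)) hx (ho A1)
    rcases hj with hj | hj | hj
    · obtain ⟨h2, j2, A2⟩ := A.symm.other_one hb hj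
      have c2 := hC A2
      rw [hj] at c2
      have s2 := A.symm.one_L1 A2 hb hX hy hpos hF hj (c2.trans (C1_one _ _ _)) hx' (ho' A2)
      rw [hj] at s1
      rw [hi] at s2
      exact LStep.opp A hb (by rw [hi]; decide) (by simp only [k7, eO]; norm_num) s1 s2
    · obtain ⟨h2, j2, A2⟩ := A.symm.other' b (clsW_inner hb (Or.inr (Or.inl hj)))
      rw [hj, hi] at hx'
      rw [hi, hj] at f0
      simp only [F0] at f0
      simp only [F1] at hx'
      have s2 := A.symm.two_one_L1 A2 hb hL hX hy hpos hj hi f0 hx'.le (two_y A2 hj).1 (two_y A2 hj).2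
      rw [hj] at s1
      exact LStep.opp A hb (by rw [hi]; decide) (by simp only [k7, eO]; norm_num) s1 s2
    · rw [hj, hi] at hx'
      rw [hi, hj] at f0
      simp only [F0] at f0
      simp only [F1] at hx'
      have s2 := A.symm.twoE_one_L hb hL hy hpos hj hi (n := 1) (e := 0)
        (Or.inr (Or.inl ⟨rfl, rfl, f0, hx'.le⟩))
      rw [hj] at s1
      exact LStep.opp A hb (by rw [hi]; decide) (by simp only [k7, eO]; norm_num) s1 s2
  · -- digit `2`
    obtain ⟨h1, j1, A1⟩ := A.other' b (clsW_inner hb (Or.inr (Or.inl hi)))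
    have hj1 : clsW b j ≠ .one := by
      intro h0
      rw [hi, h0] at hr
      exact absurd hr (by decide)
    have g0 := (two_y A hi).1
    have s1 := A.two_L1 A1 hb hL hy hpos hi hj1 g0 hcl (two_y A1 hi).1 (two_y A1 hi).2
    rcases hj with hj | hj | hj
    · exact absurd hj hj1
    · obtain ⟨h2, j2, A2⟩ := A.symm.other' b (clsW_inner hb (Or.inr (Or.inl hj)))
      have s2 := A.symm.two_L1 A2 hb hL hy hpos hj (by rw [hi]; decide) g0 hcl
        (two_y A2 hj).1 (two_y A2 hj).2
      exact LStep.opp A hb (by rw [hi]; decide) (by norm_num) s1 s2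
    · have s2 := A.symm.twoE_L hb hL hy hpos hj (by rw [hi]; decide) hcl
      rw [hi] at s2
      exact LStep.opp A hb (by rw [hi]; decide) (by simp only [k7, eE2]; norm_num) s1 s2
  · -- digit `2` at an end
    have hj1 : clsW b j = .twoE := by
      rcases hj with hj | hj | hj
      · rw [hi, hj] at hr; exact absurd hr (by decide)
      · rw [hi, hj] at hr; exact absurd hr (by decide)
      · exact hj
    have s1 := A.twoE_L hb hL hy hpos hi (by rw [hj1]; decide) hcl
    have s2 := A.symm.twoE_L hb hL hy hpos hj1 (by rw [hi]; decide) hcl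
    rw [hj1] at s1
    rw [hi] at s2
    exact LStep.opp A hb (by rw [hi]; decide) (by simp only [k7, eE2]; norm_num) s1 s2
  all_goals
    exfalso
    rcases hj with hj | hj | hj <;> rw [hi, hj] at hr <;> exact absurd hr (by decide)

/-- **The round `L2` between the digits `1` and `2`.** -/
theorem step_L2 (hb : ClassW b) (hL : Loc b zs) (hX : LocX b zs) (hy : Mx b zs y)
    (hpos : ∀ h : Fin M, 0 < y (.inl (.inl h))) (hF : Flr b y F1) (hC : Cap b y C2)
    (A : Adj h i p j)
    (hr : rkC (clsW b i) ≤ rkC (clsW b j)) (hj : (clsW b j).small)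
    (hx : y (.inl (.inl h)) < F2 p (clsW b i) (clsW b j))
    (ho : Ord b y F2 (y (.inl (.inl h)) / F2 p (clsW b i) (clsW b j))) :
    LStep b zs y h ((zs (.inl (.inl h))).im / wcl b h) := by
  have hx' : y (.inl (.inl h)) < F2 p.rev (clsW b j) (clsW b i) := by
    rwa [A.tab_symm F2_sym b]
  have ho' : Ord b y F2 (y (.inl (.inl h)) / F2 p.rev (clsW b j) (clsW b i)) := by
    rwa [A.tab_symm F2_sym b]
  have f0 := hF A
  rcases hi : clsW b i with _ | _ | _ | _ | _ | _
  · -- digit `1`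
    obtain ⟨h1, j1, A1⟩ := A.other_one hb hi
    have c1 := hC A1
    rw [hi] at c1
    have s1 := A.one_L2 A1 hb hX hy hpos hF hi (c1.trans (C2_one _ _ _)) hx (ho A1)
    rcases hj with hj | hj | hj
    · obtain ⟨h2, j2, A2⟩ := A.symm.other_one hb hj
      have c2 := hC A2
      rw [hj] at c2
      have s2 := A.symm.one_L2 A2 hb hX hy hpos hF hj (c2.trans (C2_one _ _ _)) hx' (ho' A2)
      have hop := A.opp hb (Or.inl (by rw [hi]; decide))
      rcases le_total 0 (ofs (b i) (zs (.inl (.inl h))).im) with hT | hT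
      · have s1' := A.one_L2p A1 hb hX hy hpos hF hi hj hT (c1.trans (C2_one _ _ _)) hx (ho A1)
        rw [hi] at s2
        exact LStep.opp A hb (by rw [hi]; decide) (by simp only [k7, eO]; norm_num) s1' s2
      · have hT' : 0 ≤ ofs (b j) (zs (.inl (.inl h))).im := by
          rw [ofs_opp hop]
          linarith only [hT]
        have s2' := A.symm.one_L2p A2 hb hX hy hpos hF hj hi hT' (c2.trans (C2_one _ _ _)) hx'
          (ho' A2)
        rw [hj] at s1
        exact LStep.opp A hb (by rw [hi]; decide) (by simp only [k7, eO]; norm_num) s1 s2'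
    · obtain ⟨h2, j2, A2⟩ := A.symm.other' b (clsW_inner hb (Or.inr (Or.inl hj)))
      rw [hj, hi] at hx'
      rw [hi, hj] at f0
      simp only [F1] at f0
      simp only [F2] at hx'
      have g1 := hF A2
      have g2 := hC A2
      rw [hj] at g1 g2
      rw [C2_two] at g2
      have g3 : (100 : ℝ) / 1000 ≤ y (.inl (.inl h2)) := by
        refine le_trans ?_ g1
        cases clsW b j2 <;> simp only [F1] <;> (try split_ifs) <;> norm_num
      have s2 := A.symm.two_one_L2 A2 hb hL hX hy hpos hj hi f0 hx'.le g3 g2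
      rw [hj] at s1
      exact LStep.opp A hb (by rw [hi]; decide) (by simp only [k7, eO]; norm_num) s1 s2
    · rw [hj, hi] at hx'
      rw [hi, hj] at f0
      simp only [F1] at f0
      simp only [F2] at hx'
      have s2 := A.symm.twoE_one_L hb hL hy hpos hj hi (n := 2) (e := 0)
        (Or.inr (Or.inr ⟨rfl, rfl, f0, hx'.le⟩))
      rw [hj] at s1
      exact LStep.opp A hb (by rw [hi]; decide) (by simp only [k7, eO]; norm_num) s1 s2
  all_goals
    exfalso
    rcases hj with hj | hj | hj <;> rw [hi, hj] at hr hx f0 <;>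
      first
      | exact absurd hr (by decide)
      | (simp only [F1] at f0; simp only [F2] at hx; linarith only [hx, f0])

/-! ### the additional round at the hinges `1 | 1` -/

theorem Adj.one_L0b (A : Adj h i p j) (A' : Adj h' i p.rev j') (hb : ClassW b) (hX : LocX b zs)
    (hy : Mx b zs y) (hpos : ∀ h : Fin M, 0 < y (.inl (.inl h))) (hF : Flr b y F0)
    (hc : clsW b i = .one) (hj : clsW b j = .one) (hn : clsW b j' ≠ .twoE)
    (hx : y (.inl (.inl h)) ≤ 85 / 1000) :
    (8 : ℝ) / 1000 ≤ Sw b zs y i p ((zs (.inl (.inl h))).im / wcl b h) +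
      shO 0 .one (y (.inl (.inl h))) * ofs (b i) ((zs (.inl (.inl h))).im / wcl b h) := by
  obtain ⟨w1, w2, w3, w4⟩ := A.ran A' hb hX hc
  have f1 := hF A
  have f2 := hF A'
  have hM := (A'.rh hy).reM
  rw [A'.re] at hM
  have hM' := hM.trans (A.XM_one A' hc)
  rw [hj] at w1 w2 w3 w4 hM'
  rw [hc, hj] at f1
  rw [hc] at f2
  have hk : k7 p .one = .one := rfl
  rw [hk] at hM'
  have f2' : (70 : ℝ) / 1000 ≤ y (.inl (.inl h')) := by
    refine le_trans ?_ f2
    cases clsW b j' <;> simp only [F0] <;> norm_num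
  have f1' : (70 : ℝ) / 1000 ≤ y (.inl (.inl h)) := by
    simpa only [F0] using f1
  have hM'' : y (.inl (.inl h')) ≤ 80 / 100 := by
    refine hM'.trans ?_
    cases clsW b j' <;> simp only [cpz] <;> norm_num
  have hcl : wcl b h = ((150 : ℤ) : ℝ) / 1000 := by
    rw [A.cl_one hc, hj]
    rfl
  have H : (dB (clsW b j')).H (ofs (b i) (zs (.inl (.inl h))).im)
      (y (.inl (.inl h))) (y (.inl (.inl h'))) (Yw b zs y i p.rev).im := by
    refine ⟨?_, ?_, w1, w2, ?_, ?_, ?_, hM', ?_⟩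
    · simp only [dB]; push_cast; linarith only [f1']
    · simp only [dB]; push_cast; linarith only [hx]
    · simp only [dB]
      refine A'.im_low hy ?_ w4
      have : (ka .one (clsW b j') : ℝ) ≤ 0 := by exact_mod_cast ka_nonpos _ _
      linarith only [this]
    · simp only [dB]
      have h1 : ((tz (clsW b j') .one).2.2 : ℝ) * 10 ≤ ((tz (clsW b j') .one).1 : ℝ) := by
        exact_mod_cast tz_s' _ _
      exact A'.im_low hy (by linarith only [w1, h1]) (by linarith only [w3])
    · simp only [dB]; push_cast; linarith only [f2']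
    · simp only [dB]; push_cast; linarith only [f2', hpos h']
  have := one_real4 hn H (hpos h) (hpos h') (by linarith only [hx, hM''])
  rw [← hcl] at this
  rw [A.one_sd A' hb hy hc (by rw [hcl]; push_cast; linarith only [hx]) (hpos h) (hpos h') (by linarith only [hx, hM''])]
  push_cast at this
  linarith only [this]

/-- **The hinges `1 | 1` whose outer neighbours are not a `2` at an end are at least `.085`.** -/
theorem floor_one_one (hb : ClassW b) (hX : LocX b zs)
    (hy : Mx b zs y) (hpos : ∀ h : Fin M, 0 < y (.inl (.inl h))) (hF : Flr b y F0)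
    (A : Adj h i p j) (hc : clsW b i = .one) (hj : clsW b j = .one)
    (A1 : Adj h1 i p.rev j1) (A2 : Adj h2 j p j2) (n1 : clsW b j1 ≠ .twoE)
    (n2 : clsW b j2 ≠ .twoE) : 85 / 1000 ≤ y (.inl (.inl h)) := by
  by_contra hcon
  push Not at hcon
  have A2' : Adj h2 j p.rev.rev j2 := by rw [Fin.rev_rev]; exact A2
  have s1 := A.one_L0b A1 hb hX hy hpos hF hc hj n1 hcon.le
  have s2 := A.symm.one_L0b A2' hb hX hy hpos hF hj hc n2 hcon.le
  have hcl : wcl b h = ((150 : ℤ) : ℝ) / 1000 := by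
    rw [A.cl_one hc, hj]
    rfl
  have hlt : y (.inl (.inl h)) < wcl b h := by rw [hcl]; push_cast; linarith only [hcon]
  obtain ⟨c, e1, e2, k1, k2, k3⟩ := LStep.opp (m := (zs (.inl (.inl h))).im / wcl b h) A hb
    (by rw [hc]; decide) (by norm_num) s1 s2
  rw [← w_sR_left (zs := zs) h hlt] at k3
  refine lside_false hb hy h (hpos h) ?_ k1 k2 k3
  have := w_sum (b := b) h
  have := wcr_pos (b := b) h
  linarith

end SR

end Pool.Agent.Work.MP_b30479_gtS.G2

end

section

/-!
# Conditional floors of the other hinge of a digit `1` next to a `3`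

The hinge `1 | 3` (the `3` on the right) is beyond `2 / 5`.
-/

namespace Pool.Agent.Work.MP_b30479_gtS.G2

open Finset VOL Filter Topology

namespace SR

open ML

variable {M : ℕ} {b : Fin (M + 1) → ℤ} {zs : DD (tyW b) ⊕ ZZ (tyW b) → ℂ}
variable {y : DD (tyW b) ⊕ ZZ (tyW b) → ℝ}
variable {h h' h'' : Fin M} {i j j' l : Fin (M + 1)} {p : Fin 3}

/-! ### paths -/

/-- a single hinge on its flat part -/
theorem Adj.Yw_fl (A : Adj h i p j) (hy : Mx b zs y) (h0 : wcl b h ≤ y (.inl (.inl h)))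
    (h1 : y (.inl (.inl h)) ≤ wXM b h - wcr b h) :
    Yw b zs y i p = lv (y (.inl (.inl h))) (ofs (b i) (zs (.inl (.inl h))).im) := by
  have q1 := wcr_pos (b := b) h
  have q3 := wcl_pos (b := b) h
  apply Complex.ext
  · rw [A.re, lv_re]
  · rw [(A.rh hy).im, A.re, tr_b q3 q1 h0 h1, mul_one, lv_im]

/-- the height on the right ramp -/
theorem Adj.im_ramp (A : Adj h i p j) (hy : Mx b zs y)
    (h0 : wXM b h - wcr b h ≤ y (.inl (.inl h))) :
    (Yw b zs y i p).im = ofs (b i) (zs (.inl (.inl h))).im *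
      ((wXM b h - y (.inl (.inl h))) / wcr b h) := by
  have r := A.rh hy
  obtain ⟨g1, g2, g3⟩ := A.good (b := b)
  have hM := r.reM
  rw [A.re] at hM
  rw [r.im, A.re, tr_c g1 g2 g3 h0 hM]

/-- exclusion on the left ramp -/
theorem Adj.ramp_false (_ : Adj h i p j) (hb : ClassW b) (hy : Mx b zs y)
    (h0 : 0 < y (.inl (.inl h))) (h1 : y (.inl (.inl h)) < wcl b h)
    (L : LStep b zs y h ((zs (.inl (.inl h))).im / wcl b h)) : False := by
  obtain ⟨c, e1, e2, hc, he, hs⟩ := L
  have hx' : y (.inl (.inl h)) < wXM b h := by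
    have := w_sum (b := b) h
    have := wcr_pos (b := b) h
    linarith
  rw [← w_sR_left (zs := zs) h h1] at hs
  exact lside_false hb hy h h0 hx' hc he hs

/-- the path of a hinge `1 | 3`, the `3` on the right -/
theorem Adj.par13 (A : Adj h i 2 j) (hc : clsW b i = .one) (hj : clsW b j = .three) :
    wXM b h = 65 / 100 ∧ wcl b h = 13 / 100 ∧ wcr b h = 15 / 100 := by
  rw [A.XM_eq b, A.cl_eq b, A.cr_eq b, hc, hj]
  unfold hpp
  rw [if_pos rfl]
  simp only [hp, hp1]
  norm_num

/-- its height -/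
theorem Adj.im13 (A : Adj h i 2 j) (hy : Mx b zs y) (hc : clsW b i = .one)
    (hj : clsW b j = .three) {k : ℕ} (hk : k < 10) (hx : (MF.xi k : ℝ) / 10000 ≤ y (.inl (.inl h)))
    (hx' : y (.inl (.inl h)) ≤ (MF.xi (k + 1) : ℝ) / 10000) :
    (Yw b zs y i 2).im = ofs (b i) (zs (.inl (.inl h))).im * MF.trx k (y (.inl (.inl h))) := by
  obtain ⟨hX, hl, hr⟩ := A.par13 hc hj
  unfold MF.trx
  split_ifs with h4
  · have h5 : y (.inl (.inl h)) ≤ 50 / 100 := by
      refine hx'.trans ?_
      interval_cases k <;> simp only [MF.xi] <;> norm_num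
    have h6 := MF.xi_pos hk hx
    rw [A.Yw_fl hy (by rw [hl]; linarith only [h6]) (by rw [hX, hr]; linarith only [h5]), lv_im, mul_one]
  · have h5 : 50 / 100 ≤ y (.inl (.inl h)) := by
      refine le_trans ?_ hx
      have : 4 ≤ k := Nat.not_lt.1 h4
      interval_cases k <;> simp only [MF.xi] <;> norm_num
    rw [A.im_ramp hy (by rw [hX, hr]; linarith only [h5]), hX, hr]

theorem trx_le_one {k : ℕ} {x : ℝ} (hx : ¬ k < 4 → 50 / 100 ≤ x) : MF.trx k x ≤ 1 := by
  unfold MF.trx
  split_ifs with h4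
  · exact le_rfl
  · rw [div_le_one (by norm_num)]
    linarith only [hx, h4, hx h4]

/-! ### the other hinge of a digit `2` -/

theorem mul_low {t t0 X x cr : ℝ} (ht : t0 ≤ t) (ht0 : t0 ≤ 0) (hcr : 0 < cr) (h : x ≤ X)
    (hx : 51 / 100 ≤ x) (hn : -(255 / 10000) * cr ≤ t0 * (X - 51 / 100)) :
    -(255 / 10000) ≤ t * ((X - x) / cr) := by
  rw [mul_div_assoc', le_div_iff₀ hcr]
  have h1 : t0 * (X - x) ≤ t * (X - x) := mul_le_mul_of_nonneg_right ht (by linarith only [h])
  have h2 : t0 * (X - 51 / 100) ≤ t0 * (X - x) := mul_le_mul_of_nonpos_left (by linarith only [hx]) ht0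
  linarith only [hn, h1, h2]

theorem k2_ne_one (p : Fin 3) (P Q : Cl) {B : Cl} (hB : B ≠ .one) {t x : ℝ}
    (ht : (hbox .two B false).t0 ≤ t) (hx : 51 / 100 ≤ x) (hx' : x ≤ (hpp p P .two B Q).XM) :
    -(255 / 10000) ≤ t * (((hpp p P .two B Q).XM - x) / (hpp p P .two B Q).cr) := by
  have h4 : t < 0 ∨ 0 ≤ t := lt_or_ge t 0
  unfold hpp at *
  by_cases hq : p = 2
  · rw [if_pos hq] at *
    cases B
    · exact absurd rfl hB
    all_goals
      simp only [hp, hbox] at *
      refine mul_low (t0 := min 0 _) ((min_le_right _ _).trans ht) (min_le_left _ _) (by norm_num) hx' hx ?_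
      norm_num
  · rw [if_neg hq] at *
    cases B
    · exact absurd rfl hB
    all_goals
      simp only [hp, hbox] at *
      refine mul_low (t0 := min 0 _) ((min_le_right _ _).trans ht) (min_le_left _ _) (by norm_num) hx' hx ?_
      norm_num

/-- **The height of the other hinge of a digit `2`.** -/
theorem Adj.two_K (A : Adj h i p j) (hb : ClassW b) (hL : Loc b zs) (hX : LocX b zs)
    (hy : Mx b zs y) (hc : clsW b i = .two)
    (h12 : ∀ {h h' : Fin M} {i j j' : Fin (M + 1)} {p : Fin 3}, Adj h i p j → Adj h' i p.rev j' →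
      clsW b i = .one → clsW b j = .two → clsW b j' ≠ .ring → y (.inl (.inl h)) ≤ 535 / 1000) :
    -(985 / 10000) ≤ (Yw b zs y i p).im ∧
    (51 / 100 ≤ y (.inl (.inl h)) → -(985 / 10000) * MF.rTr 800 290 (y (.inl (.inl h))) ≤
      (Yw b zs y i p).im) ∧
    (535 / 1000 < y (.inl (.inl h)) → -(800 / 10000) * MF.rTr 800 290 (y (.inl (.inl h))) ≤
      (Yw b zs y i p).im) := by
  have hop := A.opp hb (Or.inl (by rw [hc]; decide))
  have hM := (A.rh hy).reM
  rw [A.re] at hM
  obtain ⟨-, -, b3, -⟩ := A.box hb hL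
  rw [hc, A.ss hop] at b3
  have hlow : -(985 / 10000) ≤ (Yw b zs y i p).im := by
    refine A.im_low hy (by norm_num) (le_trans ?_ b3)
    generalize clsW b j = B
    cases B <;> simp only [hbox] <;> norm_num
  have e : ∀ x : ℝ, MF.rTr 800 290 x = 1000 / 290 * (800 / 1000 - x) := by
    intro x
    unfold MF.rTr
    push_cast
    norm_num
  refine ⟨hlow, ?_⟩
  by_cases hj : clsW b j = .one
  · have hpar : wXM b h = 80 / 100 ∧ wcr b h = 29 / 100 := by
      rw [A.XM_eq b, A.cr_eq b, hc, hj]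
      unfold hpp
      split_ifs <;> simp only [hp, hp1] <;> norm_num
    obtain ⟨p1, p2⟩ := hpar
    obtain ⟨h1, j1, A1⟩ := A.symm.other_one hb hj
    have w := (hX.win A.symm A1 hj).2.1
    rw [hc, ofs_opp hop] at w
    have hr : ∀ {v : ℝ}, v ≤ 80 / 100 → 0 ≤ MF.rTr 800 290 v := by
      intro v hv
      rw [e]
      linarith only [hv]
    have key : ∀ {c : ℝ}, c ≤ ofs (b i) (zs (.inl (.inl h))).im → 51 / 100 ≤ y (.inl (.inl h)) →
        c * MF.rTr 800 290 (y (.inl (.inl h))) ≤ (Yw b zs y i p).im := by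
      intro c hc' h51
      rw [A.im_ramp hy (by rw [p1, p2]; linarith only [h51]), p1, p2]
      have e2 : (80 / 100 - y (.inl (.inl h))) / (29 / 100) = MF.rTr 800 290 (y (.inl (.inl h))) := by
        rw [e]; ring
      rw [e2]
      exact mul_le_mul_of_nonneg_right hc' (hr (by rw [p1] at hM; exact hM))
    constructor
    · intro h51
      refine key ?_ h51
      generalize clsW b j1 = C at w
      cases C <;> simp only [cw] at w <;> linarith only [w]
    · intro h535
      refine key ?_ (by linarith only [h535])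
      by_cases hj1 : clsW b j1 = .ring
      · rw [hj1] at w
        simp only [cw] at w
        linarith only [w]
      · exact absurd (h12 A.symm A1 hj hc hj1) (not_le.2 h535)
  · have h8 : wXM b h = (hpp p (oc b i p.rev) .two (clsW b j) (oc b j p)).XM := by
      rw [A.XM_eq b, hc]
    have h9 : wcr b h = (hpp p (oc b i p.rev) .two (clsW b j) (oc b j p)).cr := by
      rw [A.cr_eq b, hc]
    have hX60 : wXM b h = 60 / 100 := by
      rw [h8]
      generalize clsW b j = B at *
      unfold hpp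
      split_ifs <;> cases B <;> first
        | exact absurd rfl hj
        | (simp only [hp])
    have hfl : wXM b h - wcr b h ≤ 33 / 100 := by
      have := fe2_tab p (oc b i p.rev) (oc b j p) hj
      rw [h8, h9]
      exact this
    have key : 51 / 100 ≤ y (.inl (.inl h)) → -(255 / 10000) ≤ (Yw b zs y i p).im := by
      intro h51
      rw [A.im_ramp hy (by linarith only [hfl, h51]), h8, h9]
      rw [h8] at hM
      exact k2_ne_one p _ _ hj b3 h51 hM
    constructor
    · intro h51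
      have := key h51
      rw [e]
      linarith only [hM, hX60, this]
    · intro h535
      have := key (by linarith only [h535])
      rw [e]
      linarith only [hM, hX60, this]

/-! ### the own side -/

/-- the own side at slope `0` -/
theorem Adj.cf_own (A : Adj h i 2 j) (A' : Adj h' i 0 j') (hb : ClassW b) (hy : Mx b zs y)
    (hi : clsW b i = .one) (hj : clsW b j = .three) {k : ℕ} (hk : k < 10)
    (hx : (MF.xi k : ℝ) / 10000 ≤ y (.inl (.inl h)))
    (hx' : y (.inl (.inl h)) ≤ (MF.xi (k + 1) : ℝ) / 10000)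
    (h0 : wcl b h' ≤ y (.inl (.inl h'))) (h1 : y (.inl (.inl h')) ≤ wXM b h' - wcr b h')
    (hs : y (.inl (.inl h')) + y (.inl (.inl h)) < 1) (n : ℝ) :
    Sw b zs y i 0 0 + n / 10 * Real.pi * ofs (b i) (zs (.inl (.inl h'))).im =
      MF.fs 1 n (y (.inl (.inl h'))) (y (.inl (.inl h))) (ofs (b i) (zs (.inl (.inl h'))).im)
        (ofs (b i) (zs (.inl (.inl h))).im * MF.trx k (y (.inl (.inl h)))) := by
  have hw : 0 < y (.inl (.inl h')) := (wcl_pos h').trans_le h0
  have hx0 : 0 < y (.inl (.inl h)) := lt_of_lt_of_le (by norm_num) (MF.xi_pos hk hx)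
  rw [A'.side_one hb hi, ofs_zero', A'.Yw_fl hy h0 h1, ← MF.S1_fs hw hx0 hs n]
  have e := A.Yw_lv (zs := zs) (y := y)
  rw [A.im13 hy hi hj hk hx hx'] at e
  rw [show (0 : Fin 3).rev = 2 from rfl, e]

/-- the own side of a ramp -/
theorem Adj.K13_nonneg (A : Adj h i 2 j) (hy : Mx b zs y) (hi : clsW b i = .one)
    (hj : clsW b j = .three) {k : ℕ} (hk : k < 10)
    (hx : (MF.xi k : ℝ) / 10000 ≤ y (.inl (.inl h)))
    (hx' : y (.inl (.inl h)) ≤ (MF.xi (k + 1) : ℝ) / 10000)
    (h0 : 0 ≤ ofs (b i) (zs (.inl (.inl h))).im) : 0 ≤ (Yw b zs y i 2).im := by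
  rw [A.im13 hy hi hj hk hx hx']
  exact mul_nonneg h0 (MF.trx_nonneg (MF.xi_le hk hx'))

theorem fl2_le {k : ℕ} (hk : k < 10) : (MF.fl2 k : ℝ) / 10000 ≤ 235 / 1000 := by
  interval_cases k <;> simp only [MF.fl2] <;> norm_num

theorem flE_le {k : ℕ} (hk : k < 10) : (MF.flE k : ℝ) / 10000 ≤ 247 / 1000 := by
  interval_cases k <;> simp only [MF.flE] <;> norm_num

theorem fl1_le {k : ℕ} (hk : k < 10) : (MF.fl1 k : ℝ) / 10000 ≤ 192 / 1000 := by
  interval_cases k <;> simp only [MF.fl1] <;> norm_num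

/-- **Conditional floor of a hinge `2 | 1`.** -/
theorem cf_two {k : ℕ} (hk : k < 10) (hb : ClassW b) (hL : Loc b zs) (hX : LocX b zs)
    (hy : Mx b zs y) (hpos : ∀ h : Fin M, 0 < y (.inl (.inl h))) (hF : Flr b y F1)
    (hC : Cap b y C1)
    (h12 : ∀ {h h' : Fin M} {i j j' : Fin (M + 1)} {p : Fin 3}, Adj h i p j → Adj h' i p.rev j' →
      clsW b i = .one → clsW b j = .two → clsW b j' ≠ .ring → y (.inl (.inl h)) ≤ 535 / 1000)
    (A : Adj h i 2 j) (A' : Adj h' i 0 j') (hi : clsW b i = .one) (hj : clsW b j = .three)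
    (hj' : clsW b j' = .two) (hx : (MF.xi k : ℝ) / 10000 ≤ y (.inl (.inl h)))
    (hx' : y (.inl (.inl h)) ≤ (MF.xi (k + 1) : ℝ) / 10000) :
    (MF.fl2 k : ℝ) / 10000 ≤ y (.inl (.inl h')) := by
  by_contra hcon
  push Not at hcon
  have hfl := fl2_le hk
  have hop := A'.opp hb (Or.inl (by rw [hi]; decide))
  obtain ⟨w1, w2, -, -⟩ := hX.win A' A hi
  obtain ⟨v1, -, v3, -⟩ := hX.win A A' hi
  rw [hj, hj'] at w1 w2 v1 v3
  simp only [cw] at w1 w2 v1 v3
  have hcl : wcl b h' = ((160 : ℤ) : ℝ) / 1000 := by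
    rw [A'.cl_one hi, hj']
    rfl
  have hF1 := hF A'
  rw [hi, hj'] at hF1
  simp only [F1] at hF1
  have x0 := MF.xi_pos hk hx
  have x1 := MF.xi_le hk hx'
  obtain ⟨h2, l, A2⟩ := A'.symm.other' b (clsW_inner hb (Or.inr (Or.inl hj')))
  have g1 := hF A2
  have g2 := hC A2
  rw [hj'] at g1 g2
  rw [C1_two] at g2
  have g3 : (100 : ℝ) / 1000 ≤ y (.inl (.inl h2)) := by
    refine le_trans ?_ g1
    cases clsW b l <;> simp only [F1] <;> (try split_ifs) <;> norm_num
  rcases lt_or_ge (y (.inl (.inl h'))) (wcl b h') with hw | hw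
  · -- left ramp
    have s2 := A'.symm.two_one_L2 A2 hb hL hX hy hpos hj' hi (by linarith only [hF1])
      (by rw [hcl] at hw; push_cast at hw; linarith only [hw]) g3 g2
    have hsum : y (.inl (.inl h')) + y (.inl (.inl h)) < 1 := by linarith only [hcl, hF1, x1, hw]
    have hK := A.K13_nonneg hy hi hj hk hx hx' (by linarith only [v1])
    have s1 := cf_own2 (T := ofs (b i) (zs (.inl (.inl h'))).im) (x := y (.inl (.inl h')))
      (y := y (.inl (.inl h))) (k := (Yw b zs y i 2).im)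
      ⟨by push_cast; linarith only [hF1], by rw [hcl] at hw; push_cast at hw ⊢; linarith only [hw],
        by push_cast; linarith only [w1], by push_cast; linarith only [w2], by push_cast; linarith only [hK],
        by push_cast; linarith only [w1, hK], by push_cast; linarith only [x0], by push_cast; linarith only [x1],
        by push_cast; linarith only [x0]⟩ (hpos h') (hpos h) hsum
    rw [← hcl] at s1
    have e1 := A'.one_sd A hb hy hi hw.le (hpos h') (hpos h) hsum (cR 0 2100 0 (y (.inl (.inl h'))))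
    rw [show (0 : Fin 3).rev = 2 from rfl] at e1
    rw [← e1] at s1
    refine A'.ramp_false hb hy (hpos h') hw ?_
    exact LStep.opp A' hb (by rw [hi]; decide) (c := cR 0 2100 0 (y (.inl (.inl h'))))
      (by push_cast; norm_num) s1.le s2
  · have hfe : y (.inl (.inl h')) ≤ wXM b h' - wcr b h' := by
      have := A'.fe_low hi
      linarith only [hcon, hfl, this]
    have hsum : y (.inl (.inl h')) + y (.inl (.inl h)) < 1 := by linarith only [hcon, hfl, x1]
    have hsum2 : y (.inl (.inl h')) + y (.inl (.inl h2)) < 1 := by linarith only [hcon, hfl, x0, g2, hsum]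
    have hw' : ((1600 : ℤ) : ℝ) / 10000 ≤ y (.inl (.inl h')) := by
      rw [hcl] at hw
      push_cast at hw ⊢
      linarith only [hw]
    have s1 := MF.own2 hk ⟨hw', hcon.le⟩ ⟨hx, hx'⟩
      (T := ofs (b i) (zs (.inl (.inl h'))).im) (κ := ofs (b i) (zs (.inl (.inl h))).im)
      ⟨by push_cast; linarith only [w1], by push_cast; linarith only [w2]⟩ (by push_cast; linarith only [v1])
      (by push_cast; linarith only [v3]) hsum
    rw [← A.cf_own A' hb hy hi hj hk hx hx' hw hfe hsum] at s1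
    obtain ⟨k1, k2, k3⟩ := A2.two_K hb hL hX hy hj' h12
    have hT2 : ofs (b j') (zs (.inl (.inl h'))).im = -ofs (b i) (zs (.inl (.inl h'))).im :=
      ofs_opp hop _
    rw [show (Fin.rev (Fin.rev (0 : Fin 3))) = 0 from rfl] at k1 k2 k3 A2
    have s2 := MF.two2 hk ⟨hw', hcon.le⟩ (T := ofs (b j') (zs (.inl (.inl h'))).im)
      (K := (Yw b zs y j' 0).im)
      ⟨by push_cast; linarith only [w2, hT2], by push_cast; linarith only [w1, hT2]⟩ hsum2 ⟨g3, g2⟩ (fun _ => k1) k2 k3
    refine A'.flat_left hy hw (lt_of_le_of_ne hfe ?_) ?_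
    · intro h5
      have := A'.fe_low hi
      linarith only [hcon, hfl, x0, hsum, h5, this]
    · have q1 := A'.symm.side_two hb (Or.inl hj') (zs := zs) (y := y) 0
      have q2 := A'.symm.Yw_fl hy hw hfe
      have q3 := A2.Yw_lv (zs := zs) (y := y)
      rw [show (0 : Fin 3).rev = 2 from rfl] at q1 q2 ⊢
      rw [show (2 : Fin 3).rev = 0 from rfl] at q1
      rw [ofs_zero', q2, q3] at q1
      have q4 := MF.S2_fs (w := y (.inl (.inl h'))) (x := y (.inl (.inl h2)))
        (T := ofs (b j') (zs (.inl (.inl h'))).im) (K := (Yw b zs y j' 0).im) (hpos h') (hpos h2)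
        hsum2 (((MF.sh2 k - 10 : ℤ) : ℝ))
      rw [← q1] at q4
      rw [← q4] at s2
      push_cast at s1 s2
      rw [hT2] at s2
      linarith only [s1, s2]

/-- **Conditional floor of a hinge `2 | 1`, the `2` at an end.** -/
theorem cf_twoE {k : ℕ} (hk : k < 10) (hb : ClassW b) (hL : Loc b zs) (hX : LocX b zs)
    (hy : Mx b zs y) (hpos : ∀ h : Fin M, 0 < y (.inl (.inl h))) (hF : Flr b y F1)
    (A : Adj h i 2 j) (A' : Adj h' i 0 j') (hi : clsW b i = .one) (hj : clsW b j = .three)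
    (hj' : clsW b j' = .twoE) (hx : (MF.xi k : ℝ) / 10000 ≤ y (.inl (.inl h)))
    (hx' : y (.inl (.inl h)) ≤ (MF.xi (k + 1) : ℝ) / 10000) :
    (MF.flE k : ℝ) / 10000 ≤ y (.inl (.inl h')) := by
  by_contra hcon
  push Not at hcon
  have hfl := flE_le hk
  have hop := A'.opp hb (Or.inl (by rw [hi]; decide))
  obtain ⟨w1, w2, -, -⟩ := hX.win A' A hi
  obtain ⟨v1, -, v3, -⟩ := hX.win A A' hi
  rw [hj, hj'] at w1 w2 v1 v3
  simp only [cw] at w1 w2 v1 v3
  have hcl : wcl b h' = ((140 : ℤ) : ℝ) / 1000 := by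
    rw [A'.cl_one hi, hj']
    rfl
  have hF1 := hF A'
  rw [hi, hj'] at hF1
  simp only [F1] at hF1
  have x0 := MF.xi_pos hk hx
  have x1 := MF.xi_le hk hx'
  have hsum : y (.inl (.inl h')) + y (.inl (.inl h)) < 1 := by linarith only [hcon, hfl, x1]
  rcases lt_or_ge (y (.inl (.inl h'))) (wcl b h') with hw | hw
  · -- left ramp
    have hw2 := hw
    rw [hcl] at hw2
    push_cast at hw2
    have s2 := A'.symm.twoE_one_L hb hL hy hpos hj' hi (n := 2) (e := 0)
      (Or.inr (Or.inr ⟨rfl, rfl, by linarith only [hF1], by linarith only [hcl, hw]⟩))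
    have hK := A.K13_nonneg hy hi hj hk hx hx' (by linarith only [v1, hcl, hF1, hw])
    have s1 := cf_ownE (T := ofs (b i) (zs (.inl (.inl h'))).im) (x := y (.inl (.inl h')))
      (y := y (.inl (.inl h))) (k := (Yw b zs y i 2).im)
      ⟨by push_cast; linarith only [hF1], by push_cast; linarith only [hcl, hw],
        by push_cast; linarith only [w1], by push_cast; linarith only [w2], by push_cast; linarith only [hK],
        by push_cast; linarith only [w1, hK], by push_cast; linarith only [x0], by push_cast; linarith only [x1],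
        by push_cast; linarith only [hcl, hF1, x0, hw]⟩ (hpos h') (hpos h) hsum
    rw [← hcl] at s1
    have e1 := A'.one_sd A hb hy hi hw.le (hpos h') (hpos h) hsum (cR 0 2100 0 (y (.inl (.inl h'))))
    rw [show (0 : Fin 3).rev = 2 from rfl] at e1
    rw [← e1] at s1
    refine A'.ramp_false hb hy (hpos h') hw ?_
    exact LStep.opp A' hb (by rw [hi]; decide) (c := cR 0 2100 0 (y (.inl (.inl h'))))
      (by push_cast; norm_num) s1.le s2
  · have hfe : y (.inl (.inl h')) ≤ wXM b h' - wcr b h' := by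
      have := A'.fe_low hi
      linarith only [hcon, hfl, x0, hsum, this]
    have hw' : ((1400 : ℤ) : ℝ) / 10000 ≤ y (.inl (.inl h')) := by
      rw [hcl] at hw
      push_cast at hw ⊢
      linarith only [hw]
    have s1 := MF.ownE hk ⟨hw', hcon.le⟩ ⟨hx, hx'⟩
      (T := ofs (b i) (zs (.inl (.inl h'))).im) (κ := ofs (b i) (zs (.inl (.inl h))).im)
      ⟨by push_cast; linarith only [w1], by push_cast; linarith only [w2]⟩ (by push_cast; linarith only [v1])
      (by push_cast; linarith only [v3]) hsum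
    rw [← A.cf_own A' hb hy hi hj hk hx hx' hw hfe hsum] at s1
    have hT2 : ofs (b j') (zs (.inl (.inl h'))).im = -ofs (b i) (zs (.inl (.inl h'))).im :=
      ofs_opp hop _
    have s2 := MF.twoE2 hk ⟨hw', hcon.le⟩ (T := ofs (b j') (zs (.inl (.inl h'))).im)
      ⟨by push_cast; linarith only [w2, hT2], by push_cast; linarith only [w1, hT2]⟩
    refine A'.flat_left hy hw (lt_of_le_of_ne hfe ?_) ?_
    · intro h5
      have := A'.fe_low hi
      linarith only [hcon, hfl, x0, hsum, h5, this]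
    · have h00 : Yw b zs y j' 0 = 0 := by
        rcases A'.symm.other b zs y with ⟨-, h0⟩ | ⟨he', -⟩
        · exact h0
        · rw [clsW_end (Or.inl hj')] at he'
          exact absurd he' (by decide)
      have q1 := A'.symm.side_two hb (Or.inr hj') (zs := zs) (y := y) 0
      have q2 := A'.symm.Yw_fl hy hw hfe
      rw [show (0 : Fin 3).rev = 2 from rfl] at q1 q2 ⊢
      rw [show (2 : Fin 3).rev = 0 from rfl] at q1
      rw [ofs_zero', q2, h00] at q1
      have q4 := MF.S2E_fs (w := y (.inl (.inl h')))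
        (T := ofs (b j') (zs (.inl (.inl h'))).im) (hpos h') (by linarith only [x0, hsum]) (((0 : ℤ) : ℝ))
      rw [← q1] at q4
      rw [← q4] at s2
      push_cast at s1 s2
      rw [hT2] at s2
      linarith only [s1, s2]

/-! ### `1 | 1` -/

/-- classes other than `one`, `twoE` -/
theorem pcw_G {Q : Cl} (h1 : Q ≠ .one) (h2 : Q ≠ .twoE) {T k r : ℝ} (w : (pcw .three Q).In T k r) :
    -(36 / 1000) ≤ T ∧ T ≤ 40 / 1000 ∧ 18 / 1000 ≤ k ∧ 11 / 1000 ≤ T + k ∧ -(6 / 1000) ≤ r := by
  obtain ⟨a1, a2, a3, -, a5, -, a7, -, -, -, -, -⟩ := w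
  cases Q <;> first
    | exact absurd rfl h1
    | exact absurd rfl h2
    | (simp only [pcw] at a1 a2 a3 a5 a7
       refine ⟨?_, ?_, ?_, ?_, ?_⟩ <;> linarith only [a1, a2, a3, a7, a5])

theorem F1_one_ge (q : Fin 3) (C : Cl) : (110 : ℝ) / 1000 ≤ F1 q .one C := by
  cases C <;> simp only [F1] <;> (try split_ifs) <;> norm_num

theorem C1_G (q : Fin 3) {Q : Cl} (h1 : Q ≠ .one) : C1 q .one Q ≤ 65 / 100 := by
  cases Q <;> first
    | exact absurd rfl h1
    | (simp only [C1]; norm_num)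

/-- **Conditional floor of a hinge `1 | 1`.** -/
theorem cf_one {k : ℕ} (hk : k < 10) (hb : ClassW b) (hP : LocP b zs) (hy : Mx b zs y) (hpos : ∀ h : Fin M, 0 < y (.inl (.inl h)))
    (hF : Flr b y F1) (hC : Cap b y C1)
    (A : Adj h i 2 j) (A' : Adj h' i 0 j') (hi : clsW b i = .one) (hj : clsW b j = .three)
    (hj' : clsW b j' = .one) (hx : (MF.xi k : ℝ) / 10000 ≤ y (.inl (.inl h)))
    (hx' : y (.inl (.inl h)) ≤ (MF.xi (k + 1) : ℝ) / 10000) :
    (MF.fl1 k : ℝ) / 10000 ≤ y (.inl (.inl h')) := by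
  by_contra hcon
  push Not at hcon
  have hfl := fl1_le hk
  have hop := A'.opp hb (Or.inl (by rw [hi]; decide))
  obtain ⟨h2, l, A2⟩ := A'.symm.other_one hb hj'
  rw [show (Fin.rev (Fin.rev (0 : Fin 3))) = 0 from rfl] at A2
  have w := hP.pair A' A A2 hi hj'
  rw [hj] at w
  have hcl : wcl b h' = ((150 : ℤ) : ℝ) / 1000 := by
    rw [A'.cl_one hi, hj']
    rfl
  have hF1 := hF A'
  rw [hi, hj'] at hF1
  simp only [F1] at hF1
  have x0 := MF.xi_pos hk hx
  have x1 := MF.xi_le hk hx'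
  have g1 := hF A2
  have g2 := hC A2
  rw [hj'] at g1 g2
  have hsum : y (.inl (.inl h')) + y (.inl (.inl h)) < 1 := by linarith only [hcon, hfl, x1]
  have g2' : y (.inl (.inl h2)) ≤ 70 / 100 := by
    refine g2.trans ?_
    cases clsW b l <;> simp only [C1] <;> norm_num
  have hsum2 : y (.inl (.inl h')) + y (.inl (.inl h2)) < 1 := by linarith only [hcon, hfl, x0, hsum, g2']
  have hT2 : ofs (b j') (zs (.inl (.inl h'))).im = -ofs (b i) (zs (.inl (.inl h'))).im :=
    ofs_opp hop _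
  -- the two sides as real functions
  have hcls : clsW b l = .one ∨ clsW b l = .twoE ∨ (clsW b l ≠ .one ∧ clsW b l ≠ .twoE) := by
    by_cases c1 : clsW b l = .one
    · exact Or.inl c1
    · by_cases c2 : clsW b l = .twoE
      · exact Or.inr (Or.inl c2)
      · exact Or.inr (Or.inr ⟨c1, c2⟩)
  rcases lt_or_ge (y (.inl (.inl h'))) (wcl b h') with hw | hw
  · -- left ramp
    have hw2 := hw
    rw [hcl] at hw2
    push_cast at hw2
    have hcw : -(80 / 1000) ≤ ofs (b i) (zs (.inl (.inl h'))).im ∧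
        ofs (b i) (zs (.inl (.inl h'))).im ≤ 50 / 1000 ∧
        0 ≤ ofs (b i) (zs (.inl (.inl h))).im := by
      obtain ⟨a1, a2, a3, -, -, -, -, -, -, -, -, -⟩ := w
      generalize clsW b l = Q at *
      clear hcls hF hC hP hb hy hF1 g1 g2
      cases Q <;> simp only [pcw] at a1 a2 a3 <;> refine ⟨?_, ?_, ?_⟩ <;> linarith only [a1, a2, a3]
    obtain ⟨b1, b2, b3⟩ := hcw
    have hK := A.K13_nonneg hy hi hj hk hx hx' b3
    have s1 := cf_own1 (T := ofs (b i) (zs (.inl (.inl h'))).im) (x := y (.inl (.inl h')))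
      (y := y (.inl (.inl h))) (k := (Yw b zs y i 2).im)
      ⟨by push_cast; linarith only [hF1], by push_cast; linarith only [hcl, hw],
        by push_cast; linarith only [b1], by push_cast; linarith only [b2], by push_cast; linarith only [hK],
        by push_cast; linarith only [b1, hK], by push_cast; linarith only [x0], by push_cast; linarith only [x1],
        by push_cast; linarith only [hcl, hF1, x0, hw]⟩ (hpos h') (hpos h) hsum
    rw [← hcl] at s1
    have e1 := A'.one_sd A hb hy hi hw.le (hpos h') (hpos h) hsum (cR 1 0 0 (y (.inl (.inl h'))))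
    have e2 := A'.symm.one_sd A2 hb hy hj' hw.le (hpos h') (hpos h2) hsum2
      (cR 1 0 0 (y (.inl (.inl h'))))
    rw [show (0 : Fin 3).rev = 2 from rfl] at e1 e2
    rw [show (2 : Fin 3).rev = 0 from rfl] at e2
    rw [← e1] at s1
    have s2 : (((-125) : ℤ) : ℝ) / 1000 < sd 1 (cR 1 0 0 (y (.inl (.inl h')))) (y (.inl (.inl h')))
        (ofs (b j') (zs (.inl (.inl h'))).im / wcl b h') (y (.inl (.inl h2)))
        (Yw b zs y j' 0).im := by
      rw [hcl]
      rcases hcls with hl | hl | ⟨hl, hl'⟩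
      · rw [hl] at w g1 g2
        simp only [F1, C1] at g1 g2
        obtain ⟨a1, a2, -, -, a5, -, -, -, a9, -, -, -⟩ := w
        simp only [pcw] at a1 a2 a5 a9
        have c1 : -(69 / 1000) ≤ (Yw b zs y j' 0).im := A2.im_low hy (by norm_num) (by linarith only [a5])
        have c2 : -(67 / 1000) - ofs (b j') (zs (.inl (.inl h'))).im ≤ (Yw b zs y j' 0).im :=
          A2.im_low hy (by linarith only [hcl, hF1, hT2, hw, b2]) (by linarith only [hT2, a9])
        exact cf_oth1 ⟨by push_cast; linarith only [hF1], by push_cast; linarith only [hcl, hw], by push_cast; linarith only [hT2, b2],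
          by push_cast; linarith only [hT2, a1], by push_cast; linarith only [c1], by push_cast; linarith only [c2],
          by push_cast; linarith only [g1], by push_cast; linarith only [g2], by push_cast; linarith only [hcl, hF1, g1, hw]⟩ (hpos h')
          (hpos h2) hsum2
      · rw [hl] at w g1 g2
        simp only [F1, C1] at g1 g2
        obtain ⟨a1, a2, -, -, a5, -, -, -, a9, -, -, -⟩ := w
        simp only [pcw] at a1 a2 a5 a9
        have c1 : -(60 / 1000) ≤ (Yw b zs y j' 0).im := A2.im_low hy (by norm_num) (by linarith only [a5])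
        have c2 : -(18 / 1000) - ofs (b j') (zs (.inl (.inl h'))).im ≤ (Yw b zs y j' 0).im :=
          A2.im_low hy (by linarith only [hcl, hF1, hT2, hw, a2]) (by linarith only [hT2, a9])
        refine lt_trans ?_ (cf_oth2e ⟨by push_cast; linarith only [hF1], by push_cast; linarith only [hcl, hw], by push_cast; linarith only [hT2, a2],
          by push_cast; linarith only [hT2, a1], by push_cast; linarith only [c1], by push_cast; linarith only [c2],
          by push_cast; linarith only [g1], by push_cast; linarith only [g2], by push_cast; linarith only [hcl, hF1, g1, hw]⟩ (hpos h')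
          (hpos h2) hsum2)
        norm_num
      · obtain ⟨a1, a2, a3, a4, a5⟩ := pcw_G hl hl' w
        have d1 := F1_one_ge 0 (clsW b l)
        have d2 := C1_G 0 hl
        have c1 : -(6 / 1000) ≤ (Yw b zs y j' 0).im := A2.im_low hy (by norm_num) (by linarith only [a5])
        refine lt_trans ?_ (cf_othG ⟨by push_cast; linarith only [hF1], by push_cast; linarith only [hcl, hw], by push_cast; linarith only [hT2, a2],
          by push_cast; linarith only [hT2, a1], by push_cast; linarith only [c1], by push_cast; linarith only [hT2, a2, c1],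
          by push_cast; linarith only [g1, d1], by push_cast; linarith only [g2, d2], by push_cast; linarith only [hcl, hF1, g1, hw, d1]⟩ (hpos h')
          (hpos h2) hsum2)
        norm_num
    rw [← e2] at s2
    refine A'.ramp_false hb hy (hpos h') hw ?_
    exact LStep.opp A' hb (by rw [hi]; decide) (c := cR 1 0 0 (y (.inl (.inl h'))))
      (by push_cast; norm_num) s1.le s2.le
  · have hfe : y (.inl (.inl h')) ≤ wXM b h' - wcr b h' := by
      have := A'.fe_low hi
      linarith only [hcon, hfl, this]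
    have hw' : ((1500 : ℤ) : ℝ) / 10000 ≤ y (.inl (.inl h')) := by
      rw [hcl] at hw
      push_cast at hw ⊢
      linarith only [hw]
    have q1 := A'.symm.side_one hb hj' (zs := zs) (y := y) 0
    have q2 := A'.symm.Yw_fl hy hw hfe
    have q3 := A2.Yw_lv (zs := zs) (y := y)
    rw [show (0 : Fin 3).rev = 2 from rfl] at q1 q2
    rw [show (2 : Fin 3).rev = 0 from rfl] at q1
    rw [ofs_zero', q2, q3] at q1
    have q4 := MF.S1_fs (w := y (.inl (.inl h'))) (x := y (.inl (.inl h2)))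
      (T := ofs (b j') (zs (.inl (.inl h'))).im) (K := (Yw b zs y j' 0).im) (hpos h') (hpos h2)
      hsum2 (((0 : ℤ) : ℝ))
    rw [← q1] at q4
    have e1 := A.cf_own A' hb hy hi hj hk hx hx' hw hfe hsum (((0 : ℤ) : ℝ))
    refine A'.flat_left hy hw (lt_of_le_of_ne hfe ?_) ?_
    · intro h5
      have := A'.fe_low hi
      linarith only [hcon, hfl, h5, this]
    rw [show (0 : Fin 3).rev = 2 from rfl]
    rcases hcls with hl | hl | ⟨hl, hl'⟩
    · rw [hl] at w g1 g2
      simp only [F1, C1] at g1 g2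
      obtain ⟨a1, a2, a3, -, a5, -, a7, -, a9, -, -, -⟩ := w
      simp only [pcw] at a1 a2 a3 a5 a7 a9
      have c1 : -(690 / 10000) ≤ (Yw b zs y j' 0).im := A2.im_low hy (by norm_num) (by linarith only [a5])
      have c2 : -(670 / 10000) - ofs (b j') (zs (.inl (.inl h'))).im ≤ (Yw b zs y j' 0).im :=
        A2.im_low hy (by linarith only [hcl, x0, hsum, hT2, hw, a2]) (by linarith only [hT2, a9])
      have hpar : wXM b h2 = 80 / 100 ∧ wcr b h2 = 20 / 100 := by
        have ho : oc b j' (Fin.rev 0) = .one := by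
          rw [A'.symm.oc_eq b]
          exact hi
        rw [A2.XM_eq b, A2.cr_eq b, hj', hl, ho]
        unfold hpp
        rw [if_neg (by decide)]
        simp only [hp, or_true, if_true]
        norm_num
      have s1 := MF.own1 hk ⟨hw', hcon.le⟩ ⟨hx, hx'⟩
        (T := ofs (b i) (zs (.inl (.inl h'))).im) (κ := ofs (b i) (zs (.inl (.inl h))).im)
        ⟨by push_cast; linarith only [a1], by push_cast; linarith only [a2]⟩ (by push_cast; linarith only [a3])
        (by push_cast; linarith only [a7]) hsum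
      have s2 := MF.oth1 hk ⟨hw', hcon.le⟩ (T := ofs (b j') (zs (.inl (.inl h'))).im)
        (K := (Yw b zs y j' 0).im)
        ⟨by push_cast; linarith only [hT2, a2], by push_cast; linarith only [hT2, a1]⟩ hsum2 ⟨g1, g2'⟩ (fun _ => ⟨c1, c2⟩)
        (by
          intro h6
          have hr : 0 ≤ MF.rTr 800 200 (y (.inl (.inl h2))) := by
            unfold MF.rTr
            push_cast
            apply mul_nonneg <;> linarith only [hcl, hsum2, hw, h6, g2]
          have e5 : (80 / 100 - y (.inl (.inl h2))) / (20 / 100) =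
              MF.rTr 800 200 (y (.inl (.inl h2))) := by
            unfold MF.rTr
            push_cast
            ring
          rw [A2.im_ramp hy (by rw [hpar.1, hpar.2]; linarith only [h6]), hpar.1, hpar.2, e5]
          exact ⟨mul_le_mul_of_nonneg_right (by linarith only [a5]) hr,
            mul_le_mul_of_nonneg_right (by linarith only [hT2, a9]) hr⟩)
      rw [← e1] at s1
      rw [← q4] at s2
      push_cast at s1 s2
      linarith only [hcl, x0, hsum, hw, s1, s2]
    · rw [hl] at w g1 g2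
      simp only [F1, C1] at g1 g2
      obtain ⟨a1, a2, a3, -, a5, -, a7, -, a9, -, -, -⟩ := w
      simp only [pcw] at a1 a2 a3 a5 a7 a9
      have c1 : -(600 / 10000) ≤ (Yw b zs y j' 0).im := A2.im_low hy (by norm_num) (by linarith only [a5])
      have s1 := MF.own1h hk ⟨hw', hcon.le⟩ ⟨hx, hx'⟩
        (T := ofs (b i) (zs (.inl (.inl h'))).im) (κ := ofs (b i) (zs (.inl (.inl h))).im)
        ⟨by push_cast; linarith only [a1], by push_cast; linarith only [a2]⟩ (by push_cast; linarith only [a3])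
        (by push_cast; linarith only [a7]) hsum
      have s2 := MF.oth1h hk ⟨hw', hcon.le⟩ (T := ofs (b j') (zs (.inl (.inl h'))).im)
        (K := (Yw b zs y j' 0).im)
        ⟨by push_cast; linarith only [hT2, a2], by push_cast; linarith only [hT2, a1]⟩ hsum2 ⟨g1, g2⟩ c1
      rw [← e1] at s1
      rw [← q4] at s2
      push_cast at s1 s2
      linarith only [hcl, x0, hsum, hw, s1, s2]
    · obtain ⟨a1, a2, a3, a4, a5⟩ := pcw_G hl hl' w
      have d1 := F1_one_ge 0 (clsW b l)
      have d2 := C1_G 0 hl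
      have c1 : -(60 / 10000) ≤ (Yw b zs y j' 0).im := A2.im_low hy (by norm_num) (by linarith only [a5])
      have s1 := MF.own1g hk ⟨hw', hcon.le⟩ ⟨hx, hx'⟩
        (T := ofs (b i) (zs (.inl (.inl h'))).im) (κ := ofs (b i) (zs (.inl (.inl h))).im)
        ⟨by push_cast; linarith only [a1], by push_cast; linarith only [a2]⟩ (by push_cast; linarith only [a3])
        (by push_cast; linarith only [a4]) hsum
      have s2 := MF.oth1g hk ⟨hw', hcon.le⟩ (T := ofs (b j') (zs (.inl (.inl h'))).im)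
        (K := (Yw b zs y j' 0).im)
        ⟨by push_cast; linarith only [hT2, a2], by push_cast; linarith only [hT2, a1]⟩ hsum2 ⟨d1.trans g1, g2.trans d2⟩ c1
      rw [← e1] at s1
      rw [← q4] at s2
      push_cast at s1 s2
      linarith only [s1, s2]

end SR

end Pool.Agent.Work.MP_b30479_gtS.G2

end

section

/-!
# The round `L3`: a digit `1` next to a ring

The hinge `1 | ring` is between `145 / 1000` and `160 / 1000`; floors of the round `L2`.  Rows
generated.
-/

set_option deprecated.oldSectionVars true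

namespace Pool.Agent.Work.MP_b30479_gtS.G2

open Real Set VOL NumIs NumIs.E SR

namespace ML

theorem oz_1 : runT (row 1 (cE 2 0 4000) 280 (-80) (-10) 160 0 1)
    (.y (.z (.z (.z (.z (.y .b (.z (.x .a (.y .a .a)) .a)) .b) .a) .a) (.z .a (.z .a .b))) (.z (.z (.z
    (.z (.y (.z (.x .a (.y .a .a)) .a) (.z (.x .a (.y .a .a)) .a)) .a) .a) .a) (.z .a .a)))
    (bx 145 160 2375 8500 150 640) = true := by decide +kernel

theorem oz_2 : runT (row 1 (cE 2 0 4000) 450 (-8) 63 160 0 1)
    (.z (.z (.z (.y (.y .a .a) (.x .a .a)) (.y .a .a)) .b) (.y .a .a))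
    (bx 145 160 3937 9063 160 560) = true := by decide +kernel

theorem oz_E : runT (row 1 (cE 2 0 4000) 280 (-61) 64 160 0 1)
    (.z (.z (.z (.y (.z (.x .a (.y .b (.x .a .a))) .a) (.z (.x .a (.x .a (.y .a .a))) .a)) .b) .a) .a)
    (bx 145 160 6250 9875 140 370) = true := by decide +kernel

set_option deprecated.oldSectionVars false
variable {T x y k : ℝ}

theorem lz_1 (H : (⟨145, 160, 380, 1360, -80, -10, 150, 640, 0, 1⟩ : Dat).H T x y k) (h0 : 0 < x) (h0' : 0 < y) (hs : x + y < 1) :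
    ((280 : ℤ) : ℝ) / 1000 < sd 1 (cR 2 0 4000 x) x (T / (((160 : ℤ) : ℝ) / 1000)) y k :=
  use_row (Or.inl rfl) oz_1 _ (by decide) H h0 h0' hs

theorem lz_2 (H : (⟨145, 160, 630, 1450, -8, 63, 160, 560, 0, 1⟩ : Dat).H T x y k) (h0 : 0 < x) (h0' : 0 < y) (hs : x + y < 1) :
    ((450 : ℤ) : ℝ) / 1000 < sd 1 (cR 2 0 4000 x) x (T / (((160 : ℤ) : ℝ) / 1000)) y k :=
  use_row (Or.inl rfl) oz_2 _ (by decide) H h0 h0' hs

theorem lz_E (H : (⟨145, 160, 1000, 1580, -61, 64, 140, 370, 0, 1⟩ : Dat).H T x y k) (h0 : 0 < x) (h0' : 0 < y) (hs : x + y < 1) :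
    ((280 : ℤ) : ℝ) / 1000 < sd 1 (cR 2 0 4000 x) x (T / (((160 : ℤ) : ℝ) / 1000)) y k :=
  use_row (Or.inl rfl) oz_E _ (by decide) H h0 h0' hs

end ML

open Finset VOL Filter Topology

namespace SR

open ML

set_option deprecated.oldSectionVars false
variable {M : ℕ} {b : Fin (M + 1) → ℤ} {zs : DD (tyW b) ⊕ ZZ (tyW b) → ℂ}
set_option deprecated.oldSectionVars false
variable {y : DD (tyW b) ⊕ ZZ (tyW b) → ℝ}
set_option deprecated.oldSectionVars false
variable {h h' : Fin M} {i j j' : Fin (M + 1)} {p : Fin 3}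

/-- **A digit `1` in the round `L3`** (next to a ring), with the floors of the round `L2`. -/
theorem Adj.one_L3b (A : Adj h i p j) (A' : Adj h' i p.rev j') (hb : ClassW b) (hX : LocX b zs)
    (hy : Mx b zs y) (hpos : ∀ h : Fin M, 0 < y (.inl (.inl h))) (hF : Flr b y F2)
    (hc : clsW b i = .one) (hj : clsW b j = .ring)
    (hx0 : 145 / 1000 ≤ y (.inl (.inl h))) (hx : y (.inl (.inl h)) ≤ 160 / 1000)
    (hcap : y (.inl (.inl h')) ≤ (cpz 2 .ring (clsW b j') : ℝ) / 1000) :
    (28 : ℝ) / 100 ≤ Sw b zs y i p ((zs (.inl (.inl h))).im / wcl b h) +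
      (Real.pi - 4 * y (.inl (.inl h))) * ofs (b i) ((zs (.inl (.inl h))).im / wcl b h) := by
  have hcl : wcl b h = ((160 : ℤ) : ℝ) / 1000 := by
    rw [A.cl_one hc, hj]
    rfl
  have ok := okp_of hb A A' hc
  have hF' := hF A'
  obtain ⟨w1, w2, w3, -⟩ := hX.win A A' hc
  obtain ⟨v1, -, -, -⟩ := hX.win A' A.rr hc
  have hs : y (.inl (.inl h)) + y (.inl (.inl h')) < 1 := by
    have : (cpz 2 .ring (clsW b j') : ℝ) ≤ 650 := by
      generalize clsW b j' = C
      cases C <;> simp only [cpz] <;> norm_num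
    linarith only [hx, hcap, this]
  have e1 := A.one_sd A' hb hy hc (by rw [hcl]; push_cast; linarith only [hx]) (hpos h) (hpos h') hs
    (Real.pi - 4 * y (.inl (.inl h)))
  rw [hj] at ok w1 w2 w3 v1
  rw [e1, hcl]
  have e2 : Real.pi - 4 * y (.inl (.inl h)) = cR 2 0 4000 (y (.inl (.inl h))) := by
    unfold cR
    push_cast
    ring
  rw [e2]
  have hk : ∀ {a s : ℝ}, a ≤ 0 → a ≤ ofs (b i) (zs (.inl (.inl h'))).im →
      s - ofs (b i) (zs (.inl (.inl h))).im ≤ 0 →
      s ≤ ofs (b i) (zs (.inl (.inl h))).im + ofs (b i) (zs (.inl (.inl h'))).im →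
      a ≤ (Yw b zs y i p.rev).im ∧
        s - ofs (b i) (zs (.inl (.inl h))).im ≤ (Yw b zs y i p.rev).im :=
    fun ha ha' hs1 hs2 => ⟨A'.im_low hy ha ha', A'.im_low hy hs1 (by linarith only [hs2])⟩
  have hv := (hpos h').le
  cases hj' : clsW b j'
  case one =>
    rw [hc, hj'] at hF'
    rw [hj'] at w1 w2 w3 v1 hcap
    simp only [cw, F2, cpz] at w1 w2 w3 v1 hF' hcap
    have t11 := (abs_le.1 (hX.t11 hb A' hc hj')).1
    obtain ⟨k1, k2⟩ := hk (a := -(80 / 1000)) (s := -(10 / 1000)) (by norm_num) t11 (by linarith only [hx0, hF', w1, hs]) w3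
    exact le_trans (by norm_num) (lz_1
      ⟨by push_cast; linarith only [hx0], by push_cast; linarith only [hx], by push_cast; linarith only [w1],
        by push_cast; linarith only [w2], by push_cast; linarith only [k1], by push_cast; linarith only [k2],
        by push_cast; linarith only [hF'], by push_cast at hcap ⊢; linarith only [hcap],
        by push_cast; linarith only [hx0, hF', hs]⟩ (hpos h) (hpos h') hs).le
  case two =>
    rw [hc, hj'] at hF'
    rw [hj'] at w1 w2 w3 v1 hcap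
    simp only [cw, F2, cpz] at w1 w2 w3 v1 hF' hcap
    obtain ⟨k1, k2⟩ := hk (a := -(8 / 1000)) (s := 63 / 1000) (by norm_num) (by linarith only [v1]) (by linarith only [w1])
      (by linarith only [hx0, hF', w3, hs])
    exact le_trans (by norm_num) (lz_2
      ⟨by push_cast; linarith only [hx0], by push_cast; linarith only [hx], by push_cast; linarith only [w1],
        by push_cast; linarith only [w2], by push_cast; linarith only [k1], by push_cast; linarith only [k2],
        by push_cast; linarith only [hF'], by push_cast at hcap ⊢; linarith only [hcap],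
        by push_cast; linarith only [hx0, hF', hs]⟩ (hpos h) (hpos h') hs).le
  case twoE =>
    rw [hc, hj'] at hF'
    rw [hj'] at w1 w2 w3 v1 hcap
    simp only [cw, F2, cpz] at w1 w2 w3 v1 hF' hcap
    obtain ⟨k1, k2⟩ := hk (a := -(61 / 1000)) (s := 64 / 1000) (by norm_num) (by linarith only [v1])
      (by linarith only [hx0, hF', w1, hs]) (by linarith only [w3])
    exact le_trans (by norm_num) (lz_E
      ⟨by push_cast; linarith only [hx0], by push_cast; linarith only [hx], by push_cast; linarith only [w1],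
        by push_cast; linarith only [w2], by push_cast; linarith only [k1], by push_cast; linarith only [k2],
        by push_cast; linarith only [hF'], by push_cast at hcap ⊢; linarith only [hcap],
        by push_cast; linarith only [hx0, hF', hs]⟩ (hpos h) (hpos h') hs).le
  all_goals exact absurd ok (by rw [hj']; simp [ML.okp])

end SR

end Pool.Agent.Work.MP_b30479_gtS.G2

end

section

/-!
# The round `L3`
-/

namespace Pool.Agent.Work.MP_b30479_gtS.G2

open Finset VOL Filter Topology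

namespace SR

open ML

variable {M : ℕ} {b : Fin (M + 1) → ℤ} {zs : DD (tyW b) ⊕ ZZ (tyW b) → ℂ}
variable {y : DD (tyW b) ⊕ ZZ (tyW b) → ℝ}
variable {h h' h1 h2 : Fin M} {i j j' j1 j2 : Fin (M + 1)} {p : Fin 3}

/-- **The round `L3`**: the hinges `1 | ring`. -/
theorem left_3 (hb : ClassW b) (H : LocA b zs) (hy : Mx b zs y)
    (hpos : ∀ h : Fin M, 0 < y (.inl (.inl h))) (hF : Flr b y F2) (hC : Cap b y C2)
    (hring : ∀ {h : Fin M} {i j : Fin (M + 1)} {p : Fin 3}, Adj h i p j → clsW b i = .ring →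
      clsW b j = .one → 145 / 1000 ≤ y (.inl (.inl h)) → y (.inl (.inl h)) ≤ 160 / 1000 →
      -(22 / 100) ≤ Sw b zs y i p ((zs (.inl (.inl h))).im / wcl b h) +
        (Real.pi - 4 * y (.inl (.inl h))) * ofs (b i) ((zs (.inl (.inl h))).im / wcl b h))
    (A : Adj h i p j) (hi : clsW b i = .one) (hj : clsW b j = .ring) :
    160 / 1000 ≤ y (.inl (.inl h)) := by
  by_contra hcon
  push Not at hcon
  obtain ⟨h1, j1, A1⟩ := A.other_one hb hi
  have c1 := hC A1
  have f0 := hF A
  rw [hi] at c1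
  rw [hi, hj] at f0
  simp only [F2] at f0
  have s1 := A.one_L3b A1 hb H.X hy hpos hF hi hj f0 hcon.le (c1.trans (C2_one _ _ _))
  have s2 := hring A.symm hj hi f0 hcon.le
  obtain ⟨-, e2, -⟩ := A.symm.par_ring_one hj hi
  have hlt : y (.inl (.inl h)) < wcl b h := by rw [e2]; linarith
  obtain ⟨c, e1, e2, k1, k2, k3⟩ := LStep.opp (m := (zs (.inl (.inl h))).im / wcl b h) A hb
    (by rw [hi]; decide) (by norm_num) s1 s2
  rw [← w_sR_left (zs := zs) h hlt] at k3
  refine lside_false hb hy h (hpos h) ?_ k1 k2 k3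
  have := w_sum (b := b) h
  have := wcr_pos (b := b) h
  linarith

end SR

end Pool.Agent.Work.MP_b30479_gtS.G2

end
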