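import Pool.Agent.Work.MP_b30479_gt.TBS.G2.H13W
import Pool.Agent.Work.MP_b30479_gt.TBS.G2.MLSE
import Pool.Agent.Work.MP_b30479_gt.TBS.G2.V2BMv
import Pool.Agent.Work.MP_b30479_gt.TBS.G2.MRBase
import Pool.Agent.Work.MP_b30479_gt.TBS.G2.V2Move
import Pool.Agent.Work.MP_b30479_gt.TBS.G2.V2BLo_0
import Pool.Agent.Work.MP_b30479_gt.TBS.G2.WTab
import Pool.Agent.Work.MP_b30479_gt.TBS.G2.V2BLk
import Pool.Agent.Work.MP_b30479_gt.TBS.G2.WLocF
import Pool.Agent.Work.MP_b30479_gt.TBS.G2.V2BLo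
import Pool.Agent.Work.MP_b30479_gt.TBS.G2.H13S

section

/-!
# The round `R1.1`: the hinge `1 | 3` (slot `0`) is at most `47/100`
-/

namespace Pool.Agent.Work.MP_b30479_gtS.G2

open Finset VOL Filter Topology

namespace HX

open SR

variable {M : ℕ} {b : Fin (M + 1) → ℤ} {zs : DD (tyW b) ⊕ ZZ (tyW b) → ℂ}
variable {y : DD (tyW b) ⊕ ZZ (tyW b) → ℝ}
variable {h h' h3 : Fin M} {i j j' k : Fin (M + 1)} {p : Fin 3}

/-- the thresholds of `K13` -/
def KT (x : ℝ) (n : ℕ) : Prop :=
  (x ≤ 475 / 1000 → 1879 ≤ MF.fl1 n ∧ 2282 ≤ MF.fl2 n ∧ 2344 ≤ MF.flE n) ∧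
  (x ≤ 1 / 2 → 1856 ≤ MF.fl1 n ∧ 2248 ≤ MF.fl2 n ∧ 2277 ≤ MF.flE n) ∧
  (x ≤ 55 / 100 → 1772 ≤ MF.fl1 n ∧ 2117 ≤ MF.fl2 n ∧ 2021 ≤ MF.flE n) ∧
  1558 ≤ MF.fl1 n ∧ 1824 ≤ MF.fl2 n ∧ 1594 ≤ MF.flE n

theorem ile {a c : ℤ} {q : ℝ} (h : a ≤ c) (h' : (c : ℝ) / 10000 ≤ q) : (a : ℝ) / 10000 ≤ q := by
  have : (a : ℝ) ≤ (c : ℝ) := by exact_mod_cast h
  linarith only [h', this]

theorem K13_mk {c : Cl} {x q : ℝ} {n : ℕ} (g : KT x n)
    (f1 : c = .one → (MF.fl1 n : ℝ) / 10000 ≤ q) (f2 : c = .two → (MF.fl2 n : ℝ) / 10000 ≤ q)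
    (f3 : c = .twoE → (MF.flE n : ℝ) / 10000 ≤ q) : K13 c x q := by
  obtain ⟨g1, g2, g3, g4⟩ := g
  cases c
  · have f := f1 rfl
    refine ⟨fun h => ?_, fun h => ?_, fun h => ?_, ?_⟩
    · simpa using ile (g1 h).1 f
    · simpa using ile (g2 h).1 f
    · simpa using ile (g3 h).1 f
    · simpa using ile g4.1 f
  · have f := f2 rfl
    refine ⟨fun h => ?_, fun h => ?_, fun h => ?_, ?_⟩
    · simpa using ile (g1 h).2.1 f
    · simpa using ile (g2 h).2.1 f
    · simpa using ile (g3 h).2.1 f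
    · simpa using ile g4.2.1 f
  · have f := f3 rfl
    refine ⟨fun h => ?_, fun h => ?_, fun h => ?_, ?_⟩
    · simpa using ile (g1 h).2.2 f
    · simpa using ile (g2 h).2.2 f
    · simpa using ile (g3 h).2.2 f
    · simpa using ile g4.2.2 f
  all_goals trivial

/-- the conditional floors of the other hinge of the digit `1` -/
theorem k13_all (hb : ClassW b) (hL : Loc b zs) (hX : LocX b zs) (hP : LocP b zs) (hy : Mx b zs y)
    (hpos : ∀ h : Fin M, 0 < y (.inl (.inl h))) (hF : Flr b y F1) (hC : Cap b y C1)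
    (h12 : ∀ {h h' : Fin M} {i j j' : Fin (M + 1)} {p : Fin 3}, Adj h i p j → Adj h' i p.rev j' →
      clsW b i = .one → clsW b j = .two → clsW b j' ≠ .ring → y (.inl (.inl h)) ≤ 535 / 1000)
    (A : Adj h i 2 j) (A' : Adj h' i 0 j') (hi : clsW b i = .one) (hj : clsW b j = .three)
    (hx : 45 / 100 ≤ y (.inl (.inl h))) (hx' : y (.inl (.inl h)) ≤ 65 / 100) :
    K13 (clsW b j') (y (.inl (.inl h))) (y (.inl (.inl h'))) := by
  have key : ∃ n : ℕ, n < 10 ∧ (MF.xi n : ℝ) / 10000 ≤ y (.inl (.inl h)) ∧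
      y (.inl (.inl h)) ≤ (MF.xi (n + 1) : ℝ) / 10000 ∧ KT (y (.inl (.inl h))) n := by
    generalize y (.inl (.inl h)) = x at *
    rcases le_or_gt x (475 / 1000) with h1 | h1
    · refine ⟨2, by norm_num, ?_, ?_, fun _ => by decide, fun _ => by decide,
        fun _ => by decide, by decide⟩ <;> simp only [MF.xi] <;> push_cast <;> linarith only [hx, h1]
    have n1 : ¬ x ≤ 475 / 1000 := not_le.2 h1
    rcases le_or_gt x (1 / 2) with h2 | h2
    · refine ⟨3, by norm_num, ?_, ?_, fun h => absurd h n1, fun _ => by decide,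
        fun _ => by decide, by decide⟩ <;> simp only [MF.xi] <;> push_cast <;> linarith only [h1, h2]
    have n2 : ¬ x ≤ 1 / 2 := not_le.2 h2
    rcases le_or_gt x (525 / 1000) with h3 | h3
    · refine ⟨4, by norm_num, ?_, ?_, fun h => absurd h n1, fun h => absurd h n2,
        fun _ => by decide, by decide⟩ <;> simp only [MF.xi] <;> push_cast <;> linarith only [h2, h3]
    rcases le_or_gt x (55 / 100) with h4 | h4
    · refine ⟨5, by norm_num, ?_, ?_, fun h => absurd h n1, fun h => absurd h n2,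
        fun _ => by decide, by decide⟩ <;> simp only [MF.xi] <;> push_cast <;> linarith only [h3, h4]
    have n3 : ¬ x ≤ 55 / 100 := not_le.2 h4
    rcases le_or_gt x (575 / 1000) with h5 | h5
    · refine ⟨6, by norm_num, ?_, ?_, fun h => absurd h n1, fun h => absurd h n2,
        fun h => absurd h n3, by decide⟩ <;> simp only [MF.xi] <;> push_cast <;> linarith only [h4, h5]
    rcases le_or_gt x (60 / 100) with h6 | h6
    · refine ⟨7, by norm_num, ?_, ?_, fun h => absurd h n1, fun h => absurd h n2,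
        fun h => absurd h n3, by decide⟩ <;> simp only [MF.xi] <;> push_cast <;> linarith only [h5, h6]
    rcases le_or_gt x (625 / 1000) with h7 | h7
    · refine ⟨8, by norm_num, ?_, ?_, fun h => absurd h n1, fun h => absurd h n2,
        fun h => absurd h n3, by decide⟩ <;> simp only [MF.xi] <;> push_cast <;> linarith only [h6, h7]
    · refine ⟨9, by norm_num, ?_, ?_, fun h => absurd h n1, fun h => absurd h n2,
        fun h => absurd h n3, by decide⟩ <;> simp only [MF.xi] <;> push_cast <;> linarith only [h7, hx']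
  obtain ⟨n, hn, x0, x1, f⟩ := key
  exact K13_mk f (fun hc => cf_one hn hb hP hy hpos hF hC A A' hi hj hc x0 x1)
    (fun hc => cf_two hn hb hL hX hy hpos hF hC h12 A A' hi hj hc x0 x1)
    (fun hc => cf_twoE hn hb hL hX hy hpos hF A A' hi hj hc x0 x1)

/-- **The round `R1.1`.**  `hlow`, `hE`: value moves for `x` close to the end `65/100`. -/
theorem cap13 (hb : ClassW b) (hL : Loc b zs) (hX : LocX b zs) (hP : LocP b zs) (hy : Mx b zs y)
    (hpos : ∀ h : Fin M, 0 < y (.inl (.inl h))) (hF : Flr b y F1) (hC : Cap b y C1)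
    (hS : Sum1 b y (95 / 100))
    (h12 : ∀ {h h' : Fin M} {i j j' : Fin (M + 1)} {p : Fin 3}, Adj h i p j → Adj h' i p.rev j' →
      clsW b i = .one → clsW b j = .two → clsW b j' ≠ .ring → y (.inl (.inl h)) ≤ 535 / 1000)
    (h2e : ∀ {h : Fin M} {i j : Fin (M + 1)} {p : Fin 3}, Adj h i p j → clsW b i = .one →
      clsW b j = .twoE → y (.inl (.inl h)) ≤ 35 / 100)
    (A : Adj h i 2 j) (A3 : Adj h3 j 2 k) (hi : clsW b i = .one) (hj : clsW b j = .three)
    (hw1 : y (.inl (.inl h3)) ≤ 39 / 100)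
    (hw2 : clsW b k ≠ .one → y (.inl (.inl h3)) ≤ 31 / 100)
    (hlow : 60 / 100 ≤ y (.inl (.inl h)) → 46 / 100 ≤ (OY b zs y j 1).re)
    (hE : ∀ {h' : Fin M} {j' : Fin (M + 1)}, Adj h' i 0 j' → clsW b j' = .twoE →
      y (.inl (.inl h)) ≤ 635 / 1000) :
    y (.inl (.inl h)) ≤ 47 / 100 ∧ (clsW b k ≠ .one → y (.inl (.inl h)) ≤ 46 / 100) := by
  obtain ⟨h', j', A'⟩ := A.other_one hb hi
  have A' : Adj h' i 0 j' := A'
  have hA3F := hF A3
  have hw0 : 11 / 100 ≤ y (.inl (.inl h3)) := by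
    rw [hj] at hA3F
    refine le_trans ?_ hA3F
    cases clsW b k <;> norm_num [F1]
  have main : 45 / 100 ≤ y (.inl (.inl h)) →
      (46 / 100 ≤ y (.inl (.inl h)) ∧ clsW b k ≠ .one ∨ clsW b k = .one ∧
        (131 / 1000 ≤ y (.inl (.inl h3)) ∨ 47 / 100 ≤ y (.inl (.inl h)))) → False := by
    intro hx0 hxK
    have G := geo13 hb hL hy A hi hj (by linarith only [hx0])
    have hne : tyW b j ≠ .ring := by rw [tyW_of_three hj]; decide
    have hmre : (OY b zs y j 1).re = y (.inl (.inr (mI b hj))) := by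
      rw [OY_one hne]
      show (Yw b zs y (mI b hj).1 1).re = _
      rw [Yw_mid (zs := zs) (y := y) (mI b hj), ofr_pp_re]
    have hm0 : y (.inl (.inl h)) + 4 / 100 ≤ y (.inl (.inr (mI b hj))) := by
      rw [← hmre]
      rcases le_total (y (.inl (.inl h))) (60 / 100) with h5 | h5
      · exact (s0_one_mid hb hL hX hy hF hS A.symm A3 hj hi hw1 (by linarith only [hx0]) h5).le
      · rcases s0_one_mid' hb hX hy hF hS A.symm A3 hj hi h5 with h6 | h6
        · exact absurd (hlow h5) (not_le.2 h6)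
        · exact h6.le
    exact coreX hb hL hX hy hpos A A' A3 hi hj hx0 hxK (hS A A' hi) (fun hc => h2e A' hi hc)
      (fun hc => hE A' hc) hw0 hw1 hw2 hm0
      (k13_all hb hL hX hP hy hpos hF hC h12 A A' hi hj hx0 G.xM)
  constructor
  · by_contra hcon
    have hcon := not_le.1 hcon
    by_cases hk1 : clsW b k = .one
    · exact main (by linarith) (Or.inr ⟨hk1, Or.inr hcon.le⟩)
    · exact main (by linarith) (Or.inl ⟨by linarith, hk1⟩)
  · intro hk1
    by_contra hcon
    have hcon := not_le.1 hcon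
    exact main (by linarith) (Or.inl ⟨hcon.le, hk1⟩)

end HX

end Pool.Agent.Work.MP_b30479_gtS.G2

end

section

/-!
# Part of `V2BL`
-/
namespace Pool.Agent.Work.MP_b30479_gtS.G2

open Finset VOL Filter Topology

namespace V2A.B

variable {w : ℂ} {T S XM : ℝ}

theorem tk_one (h : RH w S XM (15 / 100) (20 / 100)) (hX : 80 / 100 ≤ XM) (hT : 21 / 1000 ≤ T)
    (hT' : T ≤ 92 / 1000) (h2 : T + S ≤ 111 / 1000) (hk : 125 / 1000 ≤ w.re)
    (hk' : w.re ≤ 35 / 100) : 1000 * (T * w.re) + 150 * w.im ≤ 111 * w.re ∧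
    (S ≤ -(20 / 1000) → w.im ≤ -(166 / 10000)) ∧ (-(20 / 1000) ≤ S → -(20 / 1000) ≤ w.im) := by
  rcases le_total w.re (15 / 100) with h0 | h0
  · have e : w.im = S * (w.re / (15 / 100)) := by
      rw [MR.RH_left h (by norm_num) (by norm_num) (by linarith only [hX]) h0]
    have e' : 15 / 100 * w.im = S * w.re := by
      rw [e]
      ring
    have e1 := mul_le_mul_of_nonneg_right h2 (by linarith only [hk] : 0 ≤ w.re)
    refine ⟨by linarith only [e, e1], fun h3 => ?_, fun h3 => ?_⟩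
    · have := mul_le_mul_of_nonneg_right h3 (by linarith only [hk] : 0 ≤ w.re)
      linarith only [hk, e, this]
    · have := mul_le_mul_of_nonneg_right h3 (by linarith only [hk] : 0 ≤ w.re)
      linarith only [h0, e, this]
  · have e : w.im = S := MR.RH_flat h (by norm_num) (by norm_num) h0 (by linarith only [hX, hk'])
    rw [e]
    refine ⟨?_, fun h3 => by linarith only [h3], fun h3 => h3⟩
    have e1 := mul_le_mul_of_nonneg_right h2 (by linarith only [h0] : 0 ≤ w.re)
    rcases le_total S 0 with h4 | h4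
    · have e2 := mul_le_mul_of_nonneg_right hT' (by linarith only [h0] : 0 ≤ w.re)
      linarith only [h0, h4, e2]
    · have e2 := mul_le_mul_of_nonneg_left h0 h4
      linarith only [e1, e2]

end V2A.B

end Pool.Agent.Work.MP_b30479_gtS.G2

end

section

/-!
# Part of `V2BL`
-/
namespace Pool.Agent.Work.MP_b30479_gtS.G2

open Finset VOL Filter Topology

namespace V2A.B

variable {w : ℂ} {T S XM : ℝ}

theorem kb_of (h : RH w S (80 / 100) (16 / 100) (29 / 100)) (hT : 46 / 1000 ≤ T)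
    (hT' : T ≤ 94 / 1000) (hS : 10 / 1000 ≤ S) (hS' : S ≤ 77 / 1000) (h1 : 78 / 1000 ≤ T + S)
    (h2 : T + S ≤ 148 / 1000) (hk : 150 / 1000 ≤ w.re) (hk' : w.re ≤ 54 / 100) :
    KB T w.re w.im := by
  obtain ⟨-, c2⟩ := h.im_low (by norm_num) (by norm_num : (0 : ℝ) ≤ 0)
    (by norm_num : (0 : ℝ) ≤ 77 / 160) (by linarith only [hS]) (by linarith only [hS'])
  have r0 : 26 / 29 ≤ tr 0 (80 / 100) (16 / 100) (29 / 100) w.re :=
    tr_ge' (by norm_num) (by norm_num) (by norm_num) (by linarith only [hk]) (by linarith only [hk'])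
  have r1 : tr 0 (80 / 100) (16 / 100) (29 / 100) w.re ≤ 1 := tr_one'
  have e := h.im
  generalize tr 0 (80 / 100) (16 / 100) (29 / 100) w.re = r at *
  have e1 : 0 ≤ (r - 26 / 29) * S := mul_nonneg (by linarith only [r0]) (by linarith only [hS])
  have e2 : 0 ≤ (1 - r) * S := mul_nonneg (by linarith only [r1]) (by linarith only [hS])
  have e3 : 0 ≤ (1 - r) * (T - 46 / 1000) := mul_nonneg (by linarith only [r1]) (by linarith only [hT])
  have e4 : 0 ≤ r * (T + S - 78 / 1000) := mul_nonneg (by linarith only [r0]) (by linarith only [h1])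
  refine ⟨hT, hT', hk, ?_, ?_, by linarith only [c2], ?_, ?_⟩ <;> rw [e] <;> linarith only [hS, e1, hS', e2, hT, h1, h2]

theorem tk_two (h : RH w S (80 / 100) (16 / 100) (29 / 100)) (hk : 150 / 1000 ≤ w.re)
    (hk' : w.re ≤ 35 / 100) : (S ≤ 45 / 1000 → w.im ≤ 45 / 1000) ∧
    (45 / 1000 ≤ S → 421 / 10000 ≤ w.im) := by
  have r0 : 15 / 16 ≤ tr 0 (80 / 100) (16 / 100) (29 / 100) w.re :=
    tr_ge' (by norm_num) (by norm_num) (by norm_num) (by linarith only [hk]) (by linarith only [hk'])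
  have r1 : tr 0 (80 / 100) (16 / 100) (29 / 100) w.re ≤ 1 := tr_one'
  have e := h.im
  generalize tr 0 (80 / 100) (16 / 100) (29 / 100) w.re = r at *
  rw [e]
  constructor
  · intro h3
    rcases le_total S 0 with h4 | h4
    · have := mul_nonneg (by linarith only [h4] : 0 ≤ -S) (by linarith only [r0] : 0 ≤ r)
      linarith only [this]
    · have := mul_nonneg h4 (by linarith only [r1] : 0 ≤ 1 - r)
      linarith only [h3, this]
  · intro h3
    have := mul_nonneg (by linarith only [h3] : 0 ≤ S - 45 / 1000) (by linarith only [r0] : 0 ≤ r)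
    linarith only [r0, this]

end V2A.B

end Pool.Agent.Work.MP_b30479_gtS.G2

end

section

/-!
# Part of `V2BL`
-/
namespace Pool.Agent.Work.MP_b30479_gtS.G2

open Finset VOL Filter Topology

namespace SR

open V2A.B

variable {M : ℕ} {b : Fin (M + 1) → ℤ} {zs : DD (tyW b) ⊕ ZZ (tyW b) → ℂ}
variable {y : DD (tyW b) ⊕ ZZ (tyW b) → ℝ}
variable {h h' : Fin M} {i j k j' : Fin (M + 1)} {p : Fin 3}

/-- the hinge in the slot `2` of an inner digit `3` -/
theorem Adj.wol (A : Adj h i 2 j) (hb : ClassW b) (hL : Loc b zs) (hy : Mx b zs y)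
    (hF : Flr b y F1) (hi : clsW b i = .three) (hcap : y (.inl (.inl h)) ≤ 39 / 100) :
    WOl (Yw b zs y i 2).re (Yw b zs y i 2).im := by
  have hwok := A.wok hb hL hy hi hcap
  have hre := A.re (b := b) (zs := zs) (y := y)
  refine ⟨⟨?_, hwok.re1, hwok.im0, hwok.im1⟩, ?_⟩
  · rw [hre]
    have := hF A
    rw [hi] at this
    refine le_trans ?_ this
    generalize clsW b j = K
    cases K <;> norm_num [F1]
  · have hop := A.opp hb (Or.inl (by rw [hi]; decide))
    obtain ⟨-, -, h3, -⟩ := A.box hb hL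
    rw [hi, A.ss hop] at h3
    have hrh := A.rh hy
    have hw := hwok.re1
    by_cases hj : clsW b j = .one
    · have e2 : wcr b h = 29 / 100 := by
        rw [A.cr_eq b, hi, hj]
        unfold hpp
        rw [if_pos rfl]
        rfl
      have e3 : wXM b h = 65 / 100 := by
        rw [A.XM_eq b, hi, hj]
        unfold hpp
        rw [if_pos rfl]
        rfl
      rw [hj] at h3
      have t0 : -(1145 / 10000) ≤ ofs (b i) (zs (.inl (.inl h))).im :=
        le_trans (by norm_num [hbox]) h3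
      rw [e2, e3] at hrh
      have h4 : 0 ≤ tr 0 (65 / 100) (wcl b h) (29 / 100) (Yw b zs y i 2).re := le_max_left _ _
      have h5 := V2A.tr_le_right (cl := wcl b h) (by norm_num : (0 : ℝ) < 29 / 100) hrh.reM
      rw [le_div_iff₀ (by norm_num)] at h5
      rw [hrh.im]
      have h6 := mul_le_mul_of_nonneg_right t0 h4
      linarith only [h5, h6]
    · have t0 : -(98 / 1000) ≤ ofs (b i) (zs (.inl (.inl h))).im := by
        refine le_trans ?_ h3
        generalize clsW b j = B at hj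
        cases B <;> first | exact absurd rfl hj | norm_num [hbox]
      have t1 : ofs (b i) (zs (.inl (.inl h))).im ≤ 57 / 1000 := by
        obtain ⟨-, -, -, h4⟩ := A.box hb hL
        rw [hi, A.ss hop] at h4
        refine h4.trans ?_
        generalize clsW b j = B at hj
        cases B <;> norm_num [hbox]
      obtain ⟨c1, -⟩ := MR.RH_im_mem hrh (by norm_num : -(98 / 1000 : ℝ) ≤ 0)
        (by norm_num : (0 : ℝ) ≤ 57 / 1000) t0 t1
      linarith only [hcap, hre, c1]

end SR

end Pool.Agent.Work.MP_b30479_gtS.G2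

end

section

/-!
# The hinge `1 | 3` on the side `S3` of an inner digit `3`, `x ≥ .60`: the inner variable is not low
-/

namespace Pool.Agent.Work.MP_b30479_gtS.G2

open Finset VOL Filter Topology

namespace SR

open V2A.B

variable {M : ℕ} {b : Fin (M + 1) → ℤ} {zs : DD (tyW b) ⊕ ZZ (tyW b) → ℂ}
variable {y : DD (tyW b) ⊕ ZZ (tyW b) → ℝ}
variable {h h' : Fin M} {i j k j' : Fin (M + 1)} {p : Fin 3}

/-- **`1 | 3`, `x ≥ .60`.** The inner variable is not low. -/
theorem s0_one_low (hb : ClassW b) (hL : Loc b zs) (hX : LocX b zs) (hN : Mid13 b zs)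
    (hy : Mx b zs y) (hF : Flr b y F1) (hS : Sum1 b y (95 / 100)) (A : Adj h i 0 j)
    (A' : Adj h' i 2 k) (hi : clsW b i = .three) (hj : clsW b j = .one)
    (hcap : y (.inl (.inl h')) ≤ 39 / 100)
    (hE : ∀ {h2 : Fin M} {r : Fin (M + 1)}, Adj h2 j 0 r → clsW b r = .twoE →
      159 / 1000 ≤ y (.inl (.inl h2)))
    (hx : 60 / 100 ≤ y (.inl (.inl h))) :
    y (.inl (.inl h)) + 4 / 100 < (OY b zs y i 1).re := by
  rcases s0_one_mid' hb hX hy hF hS A A' hi hj hx with hcon | hcon
  swap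
  · exact hcon
  exfalso
  have hop := A.opp hb (Or.inl (by rw [hi]; decide))
  have A2 : Adj h j 2 i := A.symm
  obtain ⟨q1, q2, q3⟩ := A.par_s0_one hi hj
  have hTj : ofs (b j) (zs (.inl (.inl h))).im = -ofs (b i) (zs (.inl (.inl h))).im :=
    ofs_opp hop _
  have hneg : -ofs (b j) (zs (.inl (.inl h))).im = ofs (b i) (zs (.inl (.inl h))).im := by
    rw [hTj, neg_neg]
  have hre := A.re (b := b) (zs := zs) (y := y)
  have hre2 := A2.re (b := b) (zs := zs) (y := y)
  have hx' : y (.inl (.inl h)) ≤ 65 / 100 := by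
    have := (A.rh hy).reM
    rw [hre, q1] at this
    exact this
  obtain ⟨h2, r, A3⟩ := A2.other_one hb hj
  have A4 : Adj h2 j 0 r := A3
  have hre4 := A4.re (b := b) (zs := zs) (y := y)
  have hsum : y (.inl (.inl h)) + y (.inl (.inl h2)) ≤ 95 / 100 := hS A2 A4 hj
  have hK := A2.k13 hb hX hy hF A4 hi hj (by linarith only [hx, hsum])
  have hk35 : (Yw b zs y j 0).re ≤ 35 / 100 := by
    rw [hre4]
    linarith only [hx, hsum]
  have hT : -(1145 / 10000) ≤ ofs (b i) (zs (.inl (.inl h))).im ∧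
      ofs (b i) (zs (.inl (.inl h))).im ≤ -(21 / 1000) := by
    rw [← hneg]
    rcases hK with K | K | K
    · have := K.T0
      have := K.T1
      constructor <;> linarith
    · have := K.T0
      have := K.T1
      constructor <;> linarith
    · have := K.T0
      have := K.T1
      constructor <;> linarith
  have hM := mok_one hX A A' hi hj hT.1 hT.2
  have m1 := hM.t1
  have m2 := hM.s0
  have m3 := hM.s1
  have hW := A'.wol hb hL hy hF hi hcap
  have hv := rh_three hy hi
  have hdV : ∀ z : ℂ, OV b j (Function.update (OY b zs y j) (0 : Fin 3).rev z) -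
      OV b j (OY b zs y j) = V1 z (Yw b zs y j 0) - V1 (Yw b zs y j 2) (Yw b zs y j 0) := by
    intro z
    have e := dV_one hb A2 hj (OY b zs y j) z
    have e0 : OY b zs y j (2 : Fin 3).rev = Yw b zs y j 0 := OY_zero j
    rw [OY_two, e0] at e
    exact e
  have hk0 : (Yw b zs y j 2).re + (Yw b zs y j 0).re ≤ 95 / 100 := by
    rw [hre2, hre4]
    exact hsum
  have hpt : ∀ (s : ℤ) {c : ℝ}, 13 / 100 ≤ c → c ≤ 1 / 2 →
      (pw b zs s h c).re = c ∧ (pw b zs s h c).im = ofs s (zs (.inl (.inl h))).im :=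
    fun s c h0 h1 => pw_flat' (zs := zs) s h (by rw [q3]; exact h0) (by rw [q1, q2]; linarith only [h1])
  have hu := A.h65 hy q1 q2 q3 (by linarith only [hx])
  have hu2 := A2.h65 hy q1 q2 q3 (by linarith only [hx])
  obtain ⟨c1, c2⟩ := hpt (b i) (c := 28 / 100) (by norm_num) (by norm_num)
  obtain ⟨c3, c4⟩ := hpt (b j) (c := 28 / 100) (by norm_num) (by norm_num)
  -- next to `1` or `2`
  have finA : ∀ {τ : ℝ}, -(94 / 1000) ≤ ofs (b i) (zs (.inl (.inl h))).im →
      -(78 / 1000) ≤ tW zs (Or.inl hi) → τ ≤ 32 / 10 * (tW zs (Or.inl hi) + 78 / 1000) →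
      τ ≤ 864 / 10000 →
      gA (y (.inl (.inl h))) (-ofs (b j) (zs (.inl (.inl h))).im) - τ <
        dvB (28 / 100) (ofs (b j) (zs (.inl (.inl h))).im) (Yw b zs y j 2).re
          (V2A.B.h65 (Yw b zs y j 2).re (ofs (b j) (zs (.inl (.inl h))).im))
          (Yw b zs y j 0).re (Yw b zs y j 0).im → False := by
    intro τ a1 a2 a3 a4 a5
    have h3 := c_lo_A (u := Yw b zs y i 0) (v := OY b zs y i 1)
      (v' := vW zs (Or.inl hi) (42 / 100)) (w := Yw b zs y i 2)
      (by rw [hre]; linarith only [hx]) (by rw [hre]; exact hx') hu c2 c1 hv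
      ⟨a1, hT.2, a2, m1, m2, m3⟩ hW (vW_re (Or.inl hi) (42 / 100))
      (vW_three hi (by norm_num) (by norm_num)) hcon.le a3 a4
    have h4 := mopt_three (b := b) (zs := zs) hi (c := 42 / 100) (by norm_num) (by norm_num)
      (Function.update (OY b zs y i) 0 (pw b zs (b i) h (28 / 100)))
    have h6 := val_hm hb hy A (c := 28 / 100) (by norm_num) (by rw [q1]; norm_num) h4
      (MOpt.same _ _)
    have h7 := hdV (pw b zs (b j) h (28 / 100))
    rw [hneg, ← V1_dvB rfl hu2 c3 c4] at a5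
    rw [OV_move hb hi, OV_three hb hi, OY_zero, OY_two] at h6
    rw [hre] at h3
    linarith only [hi, a5, h3, h6, h7]
  have hok := okp_of hb A2 A4 hj
  rw [hi] at hok
  obtain ⟨t0, t1, s0, s1⟩ := hX.win A2 A4 hj
  obtain ⟨t2, t3, -, -⟩ := hX.win A4 A2 hj
  have hrh := A4.rh hy
  have hfl := hF A4
  have e1 := A4.XM_eq b
  have e2 := A4.cl_eq b
  have e3 := A4.cr_eq b
  unfold hpp at e1 e2 e3
  rw [if_neg (by decide), hj] at e1 e2 e3
  rw [hi] at t0 t1 s0 s1 t2 t3
  rw [hj] at hfl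
  rcases hok with hok | hok
  · simp at hok
  rcases hok with hc | hc | hc
  · -- `1`
    rw [hc] at t0 t1 s0 s1 t2 t3 e1 e2 e3 hfl
    have e1' : 80 / 100 ≤ wXM b h2 := by
      rw [e1]; unfold hp; dsimp only; split_ifs <;> norm_num
    have e2' : wcl b h2 = 15 / 100 := by
      rw [e2]; unfold hp; dsimp only; split_ifs <;> rfl
    have e3' : wcr b h2 = 20 / 100 := by
      rw [e3]; unfold hp; dsimp only; split_ifs <;> rfl
    rw [e2', e3'] at hrh
    have u0 : 21 / 1000 ≤ ofs (b j) (zs (.inl (.inl h))).im := le_trans (by norm_num [cw]) t0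
    have u1 : ofs (b j) (zs (.inl (.inl h))).im ≤ 92 / 1000 := t1.trans (by norm_num [cw])
    have u2 : ofs (b j) (zs (.inl (.inl h))).im + ofs (b j) (zs (.inl (.inl h2))).im ≤
        111 / 1000 := s1.trans (by norm_num [cw])
    have u3 : -(22 / 1000) ≤ ofs (b j) (zs (.inl (.inl h))).im +
        ofs (b j) (zs (.inl (.inl h2))).im := le_trans (by norm_num [cw]) s0
    have u4 : 125 / 1000 ≤ (Yw b zs y j 0).re := by
      rw [hre4]
      exact le_trans (by norm_num [F1]) hfl
    have u5 : -(91 / 1000) ≤ ofs (b j) (zs (.inl (.inl h2))).im := le_trans (by norm_num [cw]) t2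
    have u6 : ofs (b j) (zs (.inl (.inl h2))).im ≤ 49 / 1000 := t3.trans (by norm_num [cw])
    have K : KA (ofs (b j) (zs (.inl (.inl h))).im) (Yw b zs y j 0).re (Yw b zs y j 0).im := by
      obtain ⟨-, d2⟩ := hrh.im_low (by norm_num) (by norm_num : (0 : ℝ) ≤ 91 / 150)
        (by norm_num : (0 : ℝ) ≤ 49 / 150) (by linarith only [u5]) (by linarith only [u6])
      obtain ⟨d3, d4⟩ := MR.RH_im_mem hrh (by norm_num : -(91 / 1000 : ℝ) ≤ 0)
        (by norm_num : (0 : ℝ) ≤ 49 / 1000) u5 u6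
      have r0 : 0 ≤ tr 0 (wXM b h2) (15 / 100) (20 / 100) (Yw b zs y j 0).re := le_max_left _ _
      have r1 : tr 0 (wXM b h2) (15 / 100) (20 / 100) (Yw b zs y j 0).re ≤ 1 := tr_one'
      have e := hrh.im
      refine ⟨u0, u1, u4, d3, d4, by linarith only [d2], ?_, ?_⟩
      · rw [e]
        have f1 := mul_nonneg r0 (by linarith only [u3] : (0 : ℝ) ≤ ofs (b j) (zs (.inl (.inl h))).im +
          ofs (b j) (zs (.inl (.inl h2))).im + 22 / 1000)
        have f2 := mul_nonneg (by linarith only [r1] : (0 : ℝ) ≤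
          1 - tr 0 (wXM b h2) (15 / 100) (20 / 100) (Yw b zs y j 0).re)
          (by linarith only [hTj, hT] : (0 : ℝ) ≤ ofs (b j) (zs (.inl (.inl h))).im)
        linarith only [r1, f1, f2]
      · rw [e]
        have f1 := mul_nonneg r0 (by linarith only [u2] : (0 : ℝ) ≤ 111 / 1000 -
          (ofs (b j) (zs (.inl (.inl h))).im + ofs (b j) (zs (.inl (.inl h2))).im))
        have f2 := mul_nonneg (by linarith only [r1] : (0 : ℝ) ≤
          1 - tr 0 (wXM b h2) (15 / 100) (20 / 100) (Yw b zs y j 0).re)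
          (by linarith only [u1] : (0 : ℝ) ≤ 111 / 1000 - ofs (b j) (zs (.inl (.inl h))).im)
        linarith only [f1, f2]
    obtain ⟨v1, v2, v3⟩ := tk_one hrh e1' u0 u1 u2 u4 hk35
    have n0 : -(78 / 1000) ≤ tW zs (Or.inl hi) :=
      hN.one0 (tyW_isMid (Or.inl hi)) A A' A4 hi hj hc
    rcases le_total (ofs (b j) (zs (.inl (.inl h2))).im) (-(20 / 1000)) with h5 | h5
    · have := lk_a (x := (Yw b zs y j 2).re) (by rw [hre2]; linarith only [hx]) (by rw [hre2]; exact hx')
        K v1 hk0 (v2 h5)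
      rw [hre2] at this
      refine finA (τ := 0) (by linarith only [hTj, u1]) n0 (by linarith only [hi, n0]) (by norm_num) ?_
      rw [sub_zero, hre2]
      exact this
    · have := lk_b (x := (Yw b zs y j 2).re) (by rw [hre2]; linarith only [hx]) (by rw [hre2]; exact hx')
        K v1 hk0 (v3 h5)
      have n1 : -(69 / 1000) ≤ tW zs (Or.inl hi) :=
        hN.one1 (tyW_isMid (Or.inl hi)) A A' A4 hi hj hc h5
      rw [hre2] at this
      refine finA (τ := 288 / 10000) (by linarith only [hTj, u1]) n0 (by linarith only [hi, n1]) (by norm_num) ?_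
      rw [hre2]
      exact this
  · -- `2`
    rw [hc] at t0 t1 s0 s1 t2 t3 e1 e2 e3 hfl
    have e1' : wXM b h2 = 80 / 100 := by rw [e1]; rfl
    have e2' : wcl b h2 = 16 / 100 := by rw [e2]; rfl
    have e3' : wcr b h2 = 29 / 100 := by rw [e3]; rfl
    rw [e1', e2', e3'] at hrh
    have u0 : 46 / 1000 ≤ ofs (b j) (zs (.inl (.inl h))).im := le_trans (by norm_num [cw]) t0
    have u1 : ofs (b j) (zs (.inl (.inl h))).im ≤ 94 / 1000 := t1.trans (by norm_num [cw])
    have u4 : 150 / 1000 ≤ (Yw b zs y j 0).re := by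
      rw [hre4]
      exact le_trans (by norm_num [F1]) hfl
    have u5 : 10 / 1000 ≤ ofs (b j) (zs (.inl (.inl h2))).im := le_trans (by norm_num [cw]) t2
    have u6 : ofs (b j) (zs (.inl (.inl h2))).im ≤ 77 / 1000 := t3.trans (by norm_num [cw])
    have K : KB (ofs (b j) (zs (.inl (.inl h))).im) (Yw b zs y j 0).re (Yw b zs y j 0).im :=
      kb_of hrh u0 u1 u5 u6 (le_trans (by norm_num [cw]) s0) (s1.trans (by norm_num [cw])) u4
        (by linarith only [hx, hre4, hsum])
    obtain ⟨v1, v2⟩ := tk_two hrh u4 hk35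
    have n0 : -(58 / 1000) ≤ tW zs (Or.inl hi) :=
      hN.two0 (tyW_isMid (Or.inl hi)) A A' A4 hi hj hc
    rcases le_total (ofs (b j) (zs (.inl (.inl h2))).im) (45 / 1000) with h5 | h5
    · have := lk_c (x := (Yw b zs y j 2).re) (by rw [hre2]; linarith only [hx]) (by rw [hre2]; exact hx')
        K hk0 (v1 h5)
      rw [hre2] at this
      refine finA (τ := 64 / 1000) (by linarith only [hTj, u1]) (by linarith only [hi, n0]) (by linarith only [hi, n0]) (by norm_num) ?_
      rw [hre2]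
      exact this
    · have := lk_d (x := (Yw b zs y j 2).re) (by rw [hre2]; linarith only [hx]) (by rw [hre2]; exact hx')
        K hk0 (v2 h5)
      have n1 : -(51 / 1000) ≤ tW zs (Or.inl hi) :=
        hN.two1 (tyW_isMid (Or.inl hi)) A A' A4 hi hj hc h5
      rw [hre2] at this
      refine finA (τ := 864 / 10000) (by linarith only [hTj, u1]) (by linarith only [hi, n0]) (by linarith only [hi, n1]) le_rfl ?_
      rw [hre2]
      exact this
  · -- `2` at an end
    rw [hc] at t0 t1 s0 s1 t2 t3 e1 e2 e3 hfl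
    have e1' : wXM b h2 = 70 / 100 := by rw [e1]; rfl
    have e2' : wcl b h2 = 14 / 100 := by rw [e2]; rfl
    have e3' : wcr b h2 = 35 / 100 := by rw [e3]; rfl
    rw [e1', e2', e3'] at hrh
    have u4 : 159 / 1000 ≤ (Yw b zs y j 0).re := by
      rw [hre4]
      exact hE A4 hc
    have v1 := tk_twoE hrh (by linarith only [u4]) hk35
    obtain ⟨d1, d2⟩ := hpt (b i) (c := 26 / 100) (by norm_num) (by norm_num)
    obtain ⟨d3, d4⟩ := hpt (b j) (c := 26 / 100) (by norm_num) (by norm_num)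
    have u0 : 87 / 1000 ≤ ofs (b j) (zs (.inl (.inl h))).im := le_trans (by norm_num [cw]) t0
    have u1 : ofs (b j) (zs (.inl (.inl h))).im ≤ 1145 / 10000 := t1.trans (by norm_num [cw])
    have ho := lk_e (x := (Yw b zs y j 2).re) (h := (Yw b zs y j 0).im) (by rw [hre2]; linarith only [hx])
      (by rw [hre2]; exact hx') u0 u1 u4 hk0 (by rw [v1]; exact le_trans (by norm_num [cw]) t2)
      (by rw [v1]; exact t3.trans (by norm_num [cw]))
      (by rw [v1]; exact le_trans (by norm_num [cw]) s0)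
      (by rw [v1]; exact s1.trans (by norm_num [cw]))
    have m0 := hM.t0
    have h3 := c_lo_C (u := Yw b zs y i 0) (v := OY b zs y i 1)
      (v' := vW zs (Or.inl hi) (44 / 100)) (w := Yw b zs y i 2)
      (by rw [hre]; linarith only [hx]) (by rw [hre]; exact hx') hu d2 d1 hv
      ⟨hT.1, by linarith only [hTj, u0], m0, m1, m2, m3⟩ hW (vW_re (Or.inl hi) (44 / 100))
      (vW_three hi (by norm_num) (by norm_num)) hcon.le
    have h4 := mopt_three (b := b) (zs := zs) hi (c := 44 / 100) (by norm_num) (by norm_num)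
      (Function.update (OY b zs y i) 0 (pw b zs (b i) h (26 / 100)))
    have h6 := val_hm hb hy A (c := 26 / 100) (by norm_num) (by rw [q1]; norm_num) h4
      (MOpt.same _ _)
    have h7 := hdV (pw b zs (b j) h (26 / 100))
    rw [hneg, ← V1_dvB rfl hu2 d3 d4, hre2] at ho
    rw [OV_move hb hi, OV_three hb hi, OY_zero, OY_two] at h6
    rw [hre] at h3
    linarith only [hi, ho, h3, h6, h7]

end SR

end Pool.Agent.Work.MP_b30479_gtS.G2

end

section

/-!
# The round `R1.1` with the location fact `Mid13`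
-/

namespace Pool.Agent.Work.MP_b30479_gtS.G2

open Finset VOL Filter Topology

namespace HX

open SR

variable {M : ℕ} {b : Fin (M + 1) → ℤ} {zs : DD (tyW b) ⊕ ZZ (tyW b) → ℂ}
variable {y : DD (tyW b) ⊕ ZZ (tyW b) → ℝ}
variable {h h' h3 : Fin M} {i j j' k : Fin (M + 1)} {p : Fin 3}

/-- floor of the hinge `1 | 2`, the `2` at an end, if the other hinge `1 | 3` is at least
`60/100` -/
theorem floorE (hb : ClassW b) (hL : Loc b zs) (hX : LocX b zs)
    (hy : Mx b zs y) (hpos : ∀ h : Fin M, 0 < y (.inl (.inl h))) (hF : Flr b y F1)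
    (A : Adj h i 2 j) (hi : clsW b i = .one) (hj : clsW b j = .three)
    (hx : 60 / 100 ≤ y (.inl (.inl h))) (A' : Adj h' i 0 j') (hj' : clsW b j' = .twoE) :
    1594 / 10000 ≤ y (.inl (.inl h')) := by
  have G := geo13 hb hL hy A hi hj (by linarith only [hx])
  have hxM := G.xM
  rcases le_or_gt (y (.inl (.inl h))) (625 / 1000) with h6 | h6
  · have q := cf_twoE (k := 8) (by norm_num) hb hL hX hy hpos hF A A' hi hj hj'
      (by simp only [MF.xi]; push_cast; linarith only [hx]) (by simp only [MF.xi]; push_cast; linarith only [h6])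
    simp only [MF.flE] at q
    push_cast at q
    linarith only [q]
  · have q := cf_twoE (k := 9) (by norm_num) hb hL hX hy hpos hF A A' hi hj hj'
      (by simp only [MF.xi]; push_cast; linarith only [h6]) (by simp only [MF.xi]; push_cast; linarith only [hxM])
    simp only [MF.flE] at q
    push_cast at q
    linarith only [q]

/-- the inner variable is not low, `x ≥ 60/100` -/
theorem hlow13 (hb : ClassW b) (hL : Loc b zs) (hX : LocX b zs) (hN : Mid13 b zs)
    (hy : Mx b zs y) (hpos : ∀ h : Fin M, 0 < y (.inl (.inl h))) (hF : Flr b y F1)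
    (hS : Sum1 b y (95 / 100))
    (A : Adj h i 2 j) (A3 : Adj h3 j 2 k) (hi : clsW b i = .one) (hj : clsW b j = .three)
    (hw1 : y (.inl (.inl h3)) ≤ 39 / 100) (hx : 60 / 100 ≤ y (.inl (.inl h))) :
    y (.inl (.inl h)) + 4 / 100 < (OY b zs y j 1).re := by
  refine s0_one_low hb hL hX hN hy hF hS A.symm A3 hj hi hw1 ?_ hx
  intro h2 r A2 hr
  have := floorE hb hL hX hy hpos hF A hi hj hx A2 hr
  linarith only [this]

end HX

end Pool.Agent.Work.MP_b30479_gtS.G2

end

section

/-!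
# The round `R1.1` of the hinge `1 | 3` (slot `0`), complete
-/

namespace Pool.Agent.Work.MP_b30479_gtS.G2

open Finset VOL Filter Topology

namespace HX

open SR

variable {M : ℕ} {b : Fin (M + 1) → ℤ} {zs : DD (tyW b) ⊕ ZZ (tyW b) → ℂ}
variable {y : DD (tyW b) ⊕ ZZ (tyW b) → ℝ}
variable {h h' h3 : Fin M} {i j j' k : Fin (M + 1)} {p : Fin 3}

/-- the side of the digit `3` close to the end of the hinge -/
theorem sideE (hb : ClassW b) (hL : Loc b zs) (hX : LocX b zs) (hy : Mx b zs y)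
    (hpos : ∀ h : Fin M, 0 < y (.inl (.inl h)))
    (A : Adj h i 2 j) (A3 : Adj h3 j 2 k)
    (hi : clsW b i = .one) (hj : clsW b j = .three)
    (hT : 87 / 1000 ≤ ofs (b i) (zs (.inl (.inl h))).im)
    (ht : clsW b k = .one → -80 / 1000 ≤ hI zs hj)
    (hx0 : 635 / 1000 ≤ y (.inl (.inl h)))
    (hw0 : 11 / 100 ≤ y (.inl (.inl h3))) (hw1 : y (.inl (.inl h3)) ≤ 39 / 100)
    (hw2 : clsW b k ≠ .one → y (.inl (.inl h3)) ≤ 31 / 100)
    (hm0 : y (.inl (.inl h)) + 4 / 100 ≤ y (.inl (.inr (mI b hj)))) :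
    Sw b zs y j 0 (slL b zs y h) <
      -fE (y (.inl (.inl h))) (ofs (b i) (zs (.inl (.inl h))).im) := by
  have hop := A.opp hb (Or.inl (by rw [hi]; decide))
  have G := geo13 hb hL hy A hi hj (by linarith only [hx0])
  obtain ⟨hure, -, hu2⟩ := u13 hb A hi G
  obtain ⟨-, hs2⟩ := sd13 hb A hi hj G
  have hxM := G.xM
  have hT0 := G.T0
  have hT1 := G.T1
  have B : Adj h j 0 i := A.symm
  have hTj : ofs (b j) (zs (.inl (.inl h))).im = -ofs (b i) (zs (.inl (.inl h))).im :=
    ofs_opp hop _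
  set x := y (.inl (.inl h)) with hx
  set T := ofs (b i) (zs (.inl (.inl h))).im with hTdef
  obtain ⟨m0, m1, m2, m3⟩ := m_im hb hX B A3 hi hj
  rw [hTj, sub_neg_eq_add] at m2 m3
  rw [hs2 (by linarith only [hx0])]
  rcases le_or_gt (y (.inl (.inr (mI b hj)))) (75 / 100) with hm | hm
  · obtain ⟨w0, w1⟩ := w_im A3 hb hL hy hj hw0 hw1 hw2
    obtain ⟨p1, p2, p3⟩ := pp_mI (zs := zs) hj
    have hmpos : 0 < y (.inl (.inr (mI b hj))) := by linarith only [hj, hx0, hm0]
    have hR := mid_RH hy (mI b hj)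
    have hF := mid_fc hb hy hpos (mI b hj) hmpos
    rw [p1, p2, p3] at hR hF
    have hmre' : (Yw b zs y (mI b hj).1 1).re = y (.inl (.inr (mI b hj))) := by
      rw [Yw_mid (zs := zs) (y := y) (mI b hj), ofr_pp_re]
    have hmre : (Yw b zs y j 1).re = y (.inl (.inr (mI b hj))) := hmre'
    have hmim : (Yw b zs y j 1).im = hI zs hj := by
      show (Yw b zs y (mI b hj).1 1).im = _
      exact MR.RH_flat hR (by norm_num) (by norm_num) (by rw [hmre']; linarith only [hj, hx0, hm0, hmpos])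
        (by rw [hmre']; linarith only [hj, hm])
    have hfoc : 0 ≤ SM 0 (Yw b zs y j 0) (Yw b zs y j 1) (Yw b zs y j 2) := by
      rw [← OM_three hj]
      exact hF.flat' (by rw [hmre']; linarith only [hj, hx0, hm0, hmpos]) (by rw [hmre']; linarith only [hj, hm])
    have hn := MM_pos_of_sinNe (reg_three hj hy hpos hmpos).1
    rw [Complex.add_re, Complex.add_im] at hn
    have hwre := A3.re (b := b) (zs := zs) (y := y)
    have H3 : In3 (clsW b k) (Yw b zs y j 0) (Yw b zs y j 1) (Yw b zs y j 2) T := by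
      refine ⟨hT0, hT1, ?_, ?_, ?_, ?_, ?_, ?_, ?_, ?_, w0, w1, hn, hfoc⟩
      · rw [hmre, hure]; linarith only [hj, hm0]
      · rw [hmre]; exact hm
      · rw [hmim]; exact m0
      · rw [hmim]; exact m1
      · rw [hmim]; exact m2
      · rw [hmim]; exact m3
      · rw [hwre]; exact hw0
      · rw [hwre]; exact hw1
    have := three_E H3 hT (fun hk => by rw [hmim]; exact ht hk) (by rw [hure]; exact hx0)
      (by rw [hure]; exact hxM) (by rw [hure]; exact hu2 (by linarith only [hx0])) rfl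
    rwa [hure] at this
  · have hk : clsW b k ≠ .one := by
      intro hk
      have := mid_le hb hL hX hy hpos A A3 hi hj (by linarith only [hx0]) (fun h => absurd hk h) hw0 hw1 hw2
      linarith only [hj, hm, this]
    obtain ⟨k0, k1, k2, k3, -, -, -⟩ := kd_ne hk
    obtain ⟨hmre, hmim, hmM, -⟩ := mR_data hb hy hpos hj hm
    have := three_RE (u := Yw b zs y j 0) (v := Yw b zs y j 1)
      (T := T) (t := hI zs hj) hmre hmim hm.le hmM
      (by rw [hure]; exact hx0) (by rw [hure]; exact hxM) hT hT1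
      (by linarith only [hj, m0, k0]) (by linarith only [hj, m1, k1]) (by linarith only [hj, hT, m0, hm, k0, hmM]) (by linarith only [hj, m3, k3])
      (by rw [hure]; exact hu2 (by linarith only [hj, hx0, hm, hmM])) rfl
    rwa [hure] at this

/-- **The hinge `1 | 3` (slot `0`) is not close to its end, other neighbour of the `1`: a `2` at an
end.** -/
theorem endE (hb : ClassW b) (hL : Loc b zs) (hX : LocX b zs) (hN : Mid13 b zs) (hy : Mx b zs y)
    (hpos : ∀ h : Fin M, 0 < y (.inl (.inl h))) (hF : Flr b y F1) (hS : Sum1 b y (95 / 100))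
    (h2e : ∀ {h : Fin M} {i j : Fin (M + 1)} {p : Fin 3}, Adj h i p j → clsW b i = .one →
      clsW b j = .twoE → y (.inl (.inl h)) ≤ 35 / 100)
    (A : Adj h i 2 j) (A' : Adj h' i 0 j') (A3 : Adj h3 j 2 k)
    (hi : clsW b i = .one) (hj : clsW b j = .three) (hj' : clsW b j' = .twoE)
    (ht : clsW b k = .one → -80 / 1000 ≤ hI zs hj)
    (hw1 : y (.inl (.inl h3)) ≤ 39 / 100)
    (hw2 : clsW b k ≠ .one → y (.inl (.inl h3)) ≤ 31 / 100) :
    y (.inl (.inl h)) ≤ 635 / 1000 := by
  by_contra hcon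
  have hcon := not_le.1 hcon
  have hop := A.opp hb (Or.inl (by rw [hi]; decide))
  have G := geo13 hb hL hy A hi hj (by linarith)
  have hre := G.re
  have hxM := G.xM
  have hT1 := G.T1
  have hw0 : 11 / 100 ≤ y (.inl (.inl h3)) := by
    have fw := hF A3
    rw [hj] at fw
    refine le_trans ?_ fw
    cases clsW b k <;> norm_num [F1]
  have A2 : Adj h' i (2 : Fin 3).rev j' := A'
  have A1 : Adj h i (0 : Fin 3).rev j := A
  obtain ⟨a0, a1, a2, a3⟩ := hX.win A A2 hi
  obtain ⟨b0, b1, -, -⟩ := hX.win A' A1 hi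
  rw [hj, hj'] at a0 a1 a2 a3 b0 b1
  simp only [cw] at a0 a1 a2 a3 b0 b1
  have hk0 := floorE hb hL hX hy hpos hF A hi hj (by linarith) A' hj'
  have hk1 := h2e A' hi hj'
  have hsum := hS A A' hi
  have hkim := flatP A' hy hi (Or.inr (Or.inr hj')) (by linarith only [hk0]) (fun hc => by
    rw [hj'] at hc
    exact absurd hc (by decide)) (by linarith only [hk1]) (fun _ => hk1)
  have hkre := A'.re (b := b) (zs := zs) (y := y)
  have hlow := hlow13 hb hL hX hN hy hpos hF hS A A3 hi hj hw1 (by linarith)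
  have hne : tyW b j ≠ .ring := by rw [tyW_of_three hj]; decide
  have hmre : (OY b zs y j 1).re = y (.inl (.inr (mI b hj))) := by
    rw [OY_one hne]
    show (Yw b zs y (mI b hj).1 1).re = _
    rw [Yw_mid (zs := zs) (y := y) (mI b hj), ofr_pp_re]
  rw [hmre] at hlow
  have hs3 := sideE hb hL hX hy hpos A A3 hi hj (by linarith only [a0]) ht (by linarith) hw0 hw1 hw2 hlow.le
  obtain ⟨him, hm⟩ := G.rp (by linarith)
  have hstr : (Yw b zs y i 2) ∈ strip ∧ (Yw b zs y i 2) + (Yw b zs y i 0) ∈ strip := by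
    refine ⟨⟨by rw [hre]; linarith, by rw [hre]; linarith only [hxM]⟩, ⟨?_, ?_⟩⟩
    · rw [Complex.add_re, hre, hkre]; linarith
    · rw [Complex.add_re, hre, hkre]; linarith only [hsum]
  set x := y (.inl (.inl h)) with hx
  set T := ofs (b i) (zs (.inl (.inl h))).im with hTdef
  have e1 : Sw b zs y i 2 (slL b zs y h) =
      MR.s1 (-(20 / 3 * T)) x (T * (20 / 3 * (65 / 100 - x))) (Yw b zs y i 0).re
        (Yw b zs y i 0).im := by
    rw [A.side_one hb hi, hm, show (2 : Fin 3).rev = 0 from rfl,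
      MR.S1_eq _ hstr.1 hstr.2, him, hre]
  have hs1 : Sw b zs y i 2 (slL b zs y h) < fE x T := by
    rw [e1]
    exact one_E (by linarith) hxM (by linarith only [a0]) hT1 (by rw [hkre]; exact hk0)
      (by rw [hkim]; linarith only [b0]) (by rw [hkim]; linarith only [b1]) (by rw [hkim]; linarith only [a2])
      (by rw [hkim]; linarith only [a3]) (by rw [hkre]; exact hsum) rfl rfl
  exact rstep_false hb hy (hpos h) (RStep.of_adj A (c := 0) (fun h => absurd h (by omega))
    (e1 := Sw b zs y i 2 (slL b zs y h)) (e2 := Sw b zs y j 0 (slL b zs y h))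
    (by linarith only [hs3, hs1]) (by linarith only []) (by
      show Sw b zs y j 0 (slL b zs y h) + 0 * ofs (b j) (slL b zs y h) ≤ _
      linarith only []))

/-- **The round `R1.1`.** -/
theorem cap13_R1 (hb : ClassW b) (hL : Loc b zs) (hX : LocX b zs) (hP : LocP b zs)
    (hN : Mid13 b zs) (hy : Mx b zs y)
    (hpos : ∀ h : Fin M, 0 < y (.inl (.inl h))) (hF : Flr b y F1) (hC : Cap b y C1)
    (hS : Sum1 b y (95 / 100))
    (h12 : ∀ {h h' : Fin M} {i j j' : Fin (M + 1)} {p : Fin 3}, Adj h i p j → Adj h' i p.rev j' →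
      clsW b i = .one → clsW b j = .two → clsW b j' ≠ .ring → y (.inl (.inl h)) ≤ 535 / 1000)
    (h2e : ∀ {h : Fin M} {i j : Fin (M + 1)} {p : Fin 3}, Adj h i p j → clsW b i = .one →
      clsW b j = .twoE → y (.inl (.inl h)) ≤ 35 / 100)
    (A : Adj h i 2 j) (A3 : Adj h3 j 2 k) (hi : clsW b i = .one) (hj : clsW b j = .three)
    (hw1 : y (.inl (.inl h3)) ≤ 39 / 100)
    (hw2 : clsW b k ≠ .one → y (.inl (.inl h3)) ≤ 31 / 100)
    (htE : ∀ {h' : Fin M} {j' : Fin (M + 1)}, Adj h' i 0 j' → clsW b j' = .twoE →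
      clsW b k = .one → -80 / 1000 ≤ hI zs hj) :
    y (.inl (.inl h)) ≤ 47 / 100 ∧ (clsW b k ≠ .one → y (.inl (.inl h)) ≤ 46 / 100) :=
  cap13 hb hL hX hP hy hpos hF hC hS h12 h2e A A3 hi hj hw1 hw2
    (fun h5 => by
      have := hlow13 hb hL hX hN hy hpos hF hS A A3 hi hj hw1 h5
      linarith only [h5, this])
    (fun A' hj' => endE hb hL hX hN hy hpos hF hS h2e A A' A3 hi hj hj' (htE A' hj') hw1 hw2)

end HX

end Pool.Agent.Work.MP_b30479_gtS.G2

end
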