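import Pool.Agent.Work.MP_b30479_gt.TBS.G2.VC3a

/-!
# Values at a ring|ring hinge: expressions and elementary facts
-/

set_option linter.unusedSimpArgs false

namespace Pool.Agent.Work.MP_b30479_gtS.G2

open VOL NumUs

/-- `fR` in real variables -/
noncomputable def fu (x t σ η : ℝ) : ℝ :=
  uu (x + 1 / 2 + σ) (t + η) + uu (x + 1 / 2 - σ) (t - η) - 2 * uu x t

theorem fR_fu (w ζ : ℂ) : fR w ζ = fu w.re w.im ζ.re ζ.im := by
  unfold fR fu
  rw [UU_uu, UU_uu, UU_uu]
  simp

namespace RV

theorem anti0 {a b y : ℝ} (hab : a ≤ b) (h : ∀ s ∈ Set.Ioo a b, s ≠ 0 ∧ |s| ≤ 5 / 100)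
    (hy : |y| ≤ 11 / 100) : uu b y ≤ uu a y := by
  have hp := Real.pi_pos
  have hpt : ∀ s : ℝ, (y : ℂ) * Complex.I + ((1 * s : ℝ) : ℂ) = ⟨s, y⟩ := by
    intro s
    apply Complex.ext <;> simp
  have hd : ∀ s ∈ Set.Ioo a b, HasDerivAt
      (fun s : ℝ => UU ((y : ℂ) * Complex.I + ((1 * s : ℝ) : ℂ))) (1 * LL ⟨s, y⟩) s := by
    intro s hs
    have h2 := hasDerivAt_UU_level ((y : ℂ) * Complex.I) 1 s (by
      rw [hpt]
      intro hc
      rw [Complex.sin_eq_zero_iff] at hc
      obtain ⟨k, hk⟩ := hc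
      have hk1 : (⟨s, y⟩ : ℂ) = k := by
        have : (Real.pi : ℂ) ≠ 0 := by exact_mod_cast hp.ne'
        apply mul_left_cancel₀ this
        rw [hk]
        ring
      have hk2 := congrArg Complex.re hk1
      simp only [Complex.intCast_re] at hk2
      obtain ⟨a1, a2⟩ := h s hs
      rw [hk2, abs_le] at a2
      have a3 : (-1 : ℤ) < k := by
        have : (-1 : ℝ) < k := by linarith only [a2]
        exact_mod_cast this
      have a4 : k < (1 : ℤ) := by
        have : (k : ℝ) < 1 := by linarith only [a2]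
        exact_mod_cast this
      apply a1
      rw [hk2]
      have : k = 0 := by omega
      simp [this])
    rw [hpt] at h2
    exact h2
  have hanti : AntitoneOn (fun s : ℝ => UU ((y : ℂ) * Complex.I + ((1 * s : ℝ) : ℂ)))
      (Set.Icc a b) := by
    apply antitoneOn_of_deriv_nonpos (convex_Icc _ _)
    · apply Continuous.continuousOn
      exact continuous_UU.comp (by fun_prop)
    · rw [interior_Icc]
      exact fun s hs => (hd s hs).differentiableAt.differentiableWithinAt
    · rw [interior_Icc]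
      intro s hs
      rw [(hd s hs).deriv, one_mul]
      have h3 : LL ⟨s, y⟩ ≤ Real.log 1 / 2 := by
        apply MR.LL_le_log le_rfl
        have h4 := MR.cosh_le_of (t := y) (r := 11 / 100) hy
        have h5 : Real.cos (Real.pi * (2 * (5 / 100))) ≤ Real.cos (2 * Real.pi * s) := by
          rw [← Real.cos_abs (2 * Real.pi * s), abs_mul, abs_of_pos (by positivity : 0 < 2 * Real.pi)]
          have h6 := (h s hs).2
          apply Real.cos_le_cos_of_nonneg_of_le_pi
          · positivity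
          · nlinarith only [hp]
          · nlinarith only [hp, h6]
        have h6 := VC3.smallK
        simp only
        linarith only [h4, h5, h6]
      rw [Real.log_one] at h3
      linarith only [h3]
  have h2 := hanti (Set.left_mem_Icc.2 hab) (Set.right_mem_Icc.2 hab) hab
  simp only [hpt] at h2
  exact h2

/-- `uu` decreases near `0` (and near `1`) -/
theorem anti {a b y : ℝ} (ha : -(5 / 100) ≤ a) (hab : a ≤ b) (hb : b ≤ 5 / 100)
    (hy : |y| ≤ 11 / 100) : uu b y ≤ uu a y := by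
  rcases le_or_gt 0 a with h | h
  · exact anti0 hab (fun s hs => ⟨(lt_of_le_of_lt h hs.1).ne', by
      rw [abs_le]; constructor <;> linarith only [h, hs, hb, hs.1, hs.2]⟩) hy
  · rcases le_or_gt b 0 with h' | h'
    · exact anti0 hab (fun s hs => ⟨(lt_of_lt_of_le hs.2 h').ne, by
        rw [abs_le]; constructor <;> linarith only [ha, hs, hb, hs.1, hs.2]⟩) hy
    · exact (anti0 h'.le (fun s hs => ⟨hs.1.ne', by
        rw [abs_le]; constructor <;> linarith only [ha, h, hs, hb, hs.1, hs.2]⟩) hy).trans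
        (anti0 h.le (fun s hs => ⟨hs.2.ne, by
        rw [abs_le]; constructor <;> linarith only [ha, hs, h, hs.1, hs.2]⟩) hy)

theorem anti1 {a b y : ℝ} (ha : 95 / 100 ≤ a) (hab : a ≤ b) (hb : b ≤ 105 / 100)
    (hy : |y| ≤ 11 / 100) : uu b y ≤ uu a y := by
  have h1 := uu_add_one (a - 1) y
  have h2 := uu_add_one (b - 1) y
  rw [sub_add_cancel] at h1 h2
  rw [h1, h2]
  have := anti (a := a - 1) (b := b - 1) (y := y) (by linarith only [ha]) (by linarith only [hab]) (by linarith only [hb]) hy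
  linarith only [this]

/-- `uu` beyond `1` -/
theorem beyond {a b y : ℝ} (h : b = a + 1) : uu b y = uu a y + Real.pi * |y| := by
  rw [h, uu_add_one]

/-- `uu` before `1` -/
theorem before {a b y : ℝ} (h : b = 1 - a) : uu b y = -uu a y := by
  rw [h, uu_one_sub]

section

open NumIs (V)

open NumUs.E

/-! expressions: `T = var 0`, `s = var 1`, `ρ = var 2` -/

def eT : E := var 0

def es : E := var 1

def er : E := var 2

def ee : E := mul (mul (q 4 1) (var 2)) (var 1)

def x0 : E := q 105 1000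

def xh : E := q 605 1000

def a0 : E := sub (sub (E.uu (add x0 es) (add eT ee)) (E.uu (sub es x0) (sub eT ee)))
  (mul (q 2 1) (E.uu x0 eT))

def a48 : E := sub (add (add (E.uu (add (q 48 100) es) ee) (E.uu (sub (q 48 100) es) ee)) (mul pi ee))
  (mul (q 2 1) (E.uu (q 48 100) (q 0 1)))

def a1 : E := sub (add (add (E.uu (add (q 48 100) es) (add eT ee))
  (E.uu (sub (q 48 100) es) (sub eT ee))) (mul pi (sub eT ee))) (mul (q 2 1) (E.uu (q 48 100) eT))

def a0' : E := sub (add (add (E.uu (add x0 es) (add eT ee)) (E.uu (q 6 1000) (sub eT ee)))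
  (mul pi (sub eT ee))) (mul (q 2 1) (E.uu x0 eT))

def b0 : E := sub (add (E.uu (sub xh es) (add eT er)) (E.uu (add xh es) (sub eT er)))
  (mul (q 2 1) (E.uu x0 eT))

def b10 : E := sub (add (add (E.uu (sub (q 98 100) es) er) (E.uu (sub es (q 2 100)) er)) (mul pi er))
  (mul (q 2 1) (E.uu (q 48 100) (q 0 1)))

def b1 : E := sub (add (add (E.uu (sub (q 98 100) es) (add eT er)) (E.uu (sub es (q 2 100)) (sub eT er)))
  (mul pi (sub eT er))) (mul (q 2 1) (E.uu (q 48 100) eT))

def b20 : E := sub (add (E.uu (q 96 100) (add eT er)) (E.uu (q 96 100) (sub eT er)))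
  (mul (q 2 1) (E.uu (q 46 100) eT))

def b21 : E := sub (add (E.uu (q 575 1000) (add eT er)) (E.uu (q 635 1000) (sub eT er)))
  (mul (q 2 1) (E.uu x0 eT))

def c0 : E := sub (add (E.uu (add xh es) (add eT er)) (E.uu (sub xh es) (sub eT er)))
  (mul (q 2 1) (E.uu x0 eT))

def c1 : E := sub (add (add (E.uu (sub es (q 2 100)) (add eT er)) (mul pi (add eT er)))
  (E.uu (sub (q 98 100) es) (sub eT er))) (mul (q 2 1) (E.uu (q 48 100) eT))

def c2 : E := sub (add (E.uu (add (q 96 100) es) (add eT er)) (E.uu (sub (q 96 100) es) (sub eT er)))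
  (mul (q 2 1) (E.uu (q 46 100) eT))

def d0 : E := sub (add (neg (E.uu (sub es x0) (add eT ee))) (E.uu (add x0 es) (sub eT ee)))
  (mul (q 2 1) (E.uu x0 eT))

def d0' : E := sub (add (add (E.uu (sub x0 es) (add eT ee)) (mul pi (add eT ee)))
  (E.uu (add x0 es) (sub eT ee))) (mul (q 2 1) (E.uu x0 eT))

def d0'' : E := sub (add (add (E.uu (q 5 1000) (add eT ee)) (mul pi (add eT ee)))
  (E.uu (add x0 es) (sub eT ee))) (mul (q 2 1) (E.uu x0 eT))

def d1 : E := sub (add (add (E.uu (sub (q 48 100) es) (add eT ee)) (mul pi (add eT ee)))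
  (E.uu (add (q 48 100) es) (sub eT ee))) (mul (q 2 1) (E.uu (q 48 100) eT))

def m1 : E := sub (sub (sub (add (E.uu (q 355 1000) (add eT er)) (E.uu (q 855 1000) (sub eT er)))
  (mul (q 2 1) (E.uu x0 eT))) (mul pi eT)) (q 2 10)

def m2 (d : E) : E := add (sub (sub (add (add (E.uu (q 73 100) (add eT er)) (E.uu (q 23 100) (sub eT er)))
  (mul pi d)) (mul (q 2 1) (E.uu (q 48 100) eT))) (mul pi eT)) (q 16 100)

/-- `x = var 0`, `t = var 1` -/
def m3 (d : E) : E := sub (sub (add (add (E.uu (add (q 1 4) (var 0)) (add (var 1) er))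
  (E.uu (sub (var 0) (q 1 4)) (sub (var 1) er))) (mul pi d)) (mul (q 2 1) (E.uu (var 0) (var 1))))
  (mul pi (var 1))

def m3' (d : E) : E := sub (sub (add (add (E.uu (add (q 1 4) (var 0)) (add (var 1) er))
  (E.uu (q 1 100) (sub (var 1) er))) (mul pi d)) (mul (q 2 1) (E.uu (var 0) (var 1))))
  (mul pi (var 1))

/-- `x = var 0`, `t = var 1 * var 0` -/
def m4 : E := sub (sub (add (E.uu (add (q 1 4) (var 0)) (add (mul (var 1) (var 0)) er))
  (E.uu (add (q 3 4) (var 0)) (sub (mul (var 1) (var 0)) er)))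
  (mul (q 2 1) (E.uu (var 0) (mul (var 1) (var 0))))) (mul pi (mul (var 1) (var 0)))

end

theorem pi_le_abs (d : ℝ) : Real.pi * d ≤ Real.pi * |d| :=
  mul_le_mul_of_nonneg_left (le_abs_self d) Real.pi_pos.le

end RV

end Pool.Agent.Work.MP_b30479_gtS.G2
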