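import Pool.Agent.Work.MP_b30479_gt.TBS.G2.VZ3E
import Pool.Agent.Work.MP_b30479_gt.TBS.G2.R3P
import Pool.Agent.Work.MP_b30479_gt.TBS.G2.RMon

/-!
# A hinge between two inner digits `3`, right ramp: values
-/

namespace Pool.Agent.Work.MP_b30479_gtS.G2

open VOL NumUs

namespace VL

namespace S33

open NumIs (V)
open NumUs.E (q var)

variable {x T r t y w h : ℝ}

theorem nearL_lnA (y : ℝ) : MR.nearL y = NumIs.lnA (1 / 6) y := by
  have hp := Real.pi_pos
  unfold MR.nearL NumIs.lnA
  have e1 : Real.sin (Real.pi * (1 / 6)) = 1 / 2 := by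
    rw [show Real.pi * (1 / 6) = Real.pi / 6 by ring, Real.sin_pi_div_six]
  have e2 : 2 * Real.cosh (2 * (Real.pi * y)) - 1 =
      4 * (Real.sin (Real.pi * (1 / 6)) ^ 2 + Real.sinh (Real.pi * y) ^ 2) := by
    rw [e1, Real.cosh_two_mul]
    have := Real.cosh_sq (Real.pi * y)
    nlinarith only [this]
  rw [e2]
  ring

/-- near the singularity -/
theorem LL_near6 {a : ℂ} (h : |a.re| ≤ 1 / 6) : LL a ≤ NumIs.lnA (1 / 6) a.im := by
  obtain ⟨h1, h2⟩ := abs_le.1 h
  have e := MR.LL_nearL (u := a + 1) (by simp; linarith only [h1]) (by simp; linarith only [h2])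
  rw [VN.LL_add_one] at e
  rw [← nearL_lnA]
  simpa using e

theorem hR_neg (x T : ℝ) : hR x (-T) = -hR x T := by
  unfold hR
  ring

theorem hR_le (hx : 39 / 100 ≤ x) (hx' : x ≤ 1 / 2) (hT : -(22 / 1000) ≤ T)
    (hT' : T ≤ 22 / 1000) : -(154 / 10000) ≤ hR x T ∧ hR x T ≤ 154 / 10000 := by
  unfold hR
  constructor <;> nlinarith only [hT, hx, hT', hx']

/-! ### the left digit -/

theorem S2_b2 {w v : ℂ} (hw : w.im = hR w.re T) (h0 : 0 < w.re) (h1 : w.re < 1) :
    S2 1 (mR T) w v = b2 w.re T v.re v.im + (LL (w + v) + mR T * YY (w + v)) := by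
  have a1 : LL w = NumIs.lnA w.re (hR w.re T) := by rw [Num.LL_lnA (u := w) ⟨h0, h1⟩, hw]
  have a2 : YY w = -NumIs.lnB w.re (hR w.re T) := by rw [Num.YY_lnB (u := w) ⟨h0, h1⟩, hw]
  unfold S2 b2
  rw [a1, a2, hw]
  ring

theorem YY_abs {a : ℂ} (h : |a.re| ≤ 1 / 2) : |YY a| ≤ Real.pi := by
  have hp := Real.pi_pos
  obtain ⟨h1, h2⟩ := abs_le.1 h
  rcases le_or_gt 0 a.re with c | c
  · have := MR.YY_abs_le (u := a) c (by linarith only [h2])
    linarith only [hp, this]
  · have e := YY_add_one a
    have r1 : (a + 1).re = a.re + 1 := by simp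
    have r2 : (a + 1).im = a.im := by simp
    obtain ⟨h4, h5⟩ := abs_le.1 (MR.YY_abs_le (u := a + 1) (by rw [r1]; linarith only [h1, c])
      (by rw [r1]; linarith only [c]))
    rcases lt_trichotomy a.im 0 with d | d | d
    · rw [if_neg (by linarith only [d]), if_pos d] at e
      have := MR.YY_nonpos (u := a + 1) (by rw [r1]; linarith only [h1]) (by rw [r2]; exact d.le)
      rw [abs_le]
      constructor <;> linarith only [hp, e, h4, this]
    · rw [YY_zero d, abs_zero]
      exact hp.le
    · rw [if_pos d] at e
      have := MR.YY_nonneg (u := a + 1) (by rw [r1]; linarith only [h1]) (by rw [r2]; exact d.le)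
      rw [abs_le]
      constructor <;> linarith only [e, this, hp, h5]

theorem YY_near {a : ℂ} (h : |a.re| ≤ 1 / 2) (m : ℝ) : m * YY a ≤ |m| * Real.pi := by
  have h1 := YY_abs h
  calc m * YY a ≤ |m * YY a| := le_abs_self _
    _ = |m| * |YY a| := abs_mul _ _
    _ ≤ |m| * Real.pi := mul_le_mul_of_nonneg_left h1 (abs_nonneg m)

/-- the exact term, away from the singularity -/
theorem near_mul {a : ℂ} (h : |a.re| ≤ 1 / 2) {m : ℝ} : (0 ≤ m → m * YY a ≤ m * (1 * Real.pi)) ∧
    (m ≤ 0 → m * YY a ≤ m * (-1 * Real.pi)) := by
  have h1 := YY_near h m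
  constructor
  · intro h2
    rw [abs_of_nonneg h2] at h1
    linarith only [h1]
  · intro h2
    rw [abs_of_nonpos h2] at h1
    linarith only [h1]

/-- beyond the singularity -/
theorem YY_far {a : ℂ} (h0 : 0 < a.re) (h1 : a.re < 1) :
    (0 < a.im → YY (a + 1) = 1 * Real.pi - NumIs.lnB a.re a.im) ∧
      (a.im < 0 → YY (a + 1) = -1 * Real.pi - NumIs.lnB a.re a.im) ∧
      (a.im = 0 → YY (a + 1) = 0 ∧ NumIs.lnB a.re a.im = 0) := by
  have e := YY_add_one a
  have e2 := Num.YY_lnB (u := a) ⟨h0, h1⟩
  refine ⟨?_, ?_, ?_⟩
  · intro d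
    rw [e, if_pos d, e2]
    ring
  · intro d
    rw [e, if_neg (by linarith only [d]), if_pos d, e2]
    ring
  · intro d
    rw [YY_zero d] at e e2
    refine ⟨?_, by linarith only [e2]⟩
    rw [e, if_neg (by linarith only [d]), if_neg (by linarith only [d]), add_zero]

/-- ranges of the variables -/
structure Rg (x T y : ℝ) : Prop where
  x0 : 39 / 100 ≤ x
  x1 : x ≤ 1 / 2
  T0 : -(22 / 1000) ≤ T
  T1 : T ≤ 22 / 1000
  y0 : -(116 / 1000) ≤ y
  y1 : y ≤ 5 / 1000

theorem l_exact (H : Rg x T y) (hr : 0 ≤ r) (hr' : r ≤ 51 / 100) (hp : x + r ≤ 9 / 10) :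
    s2x x T r y < -bb x (-T) := by
  obtain ⟨a1, a2, a3, a4, a5, a6⟩ := H
  rcases le_total r (25 / 100) with h1 | h1
  · obtain ⟨f, hf, hq⟩ := chkT4 k_L1a (by norm_num) (x := x) (y := T) (z := r) (w := y)
      (by push_cast; linarith only [a1]) (by push_cast; linarith only [a2]) (by push_cast; linarith only [a3])
      (by push_cast; linarith only [a4]) (by push_cast; linarith only [hr]) (by push_cast; linarith only [h1])
      (by push_cast; linarith only [a5]) (by push_cast; linarith only [a6])
    simp only [List.mem_cons, List.not_mem_nil, or_false] at hf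
    rcases hf with rfl | rfl
    · simp only [e2X, E.val, eB'_val, e2x_val, NumIs.lkR] at hq
      linarith only [hq]
    · simp only [E.val, NumIs.lkR] at hq
      push_cast at hq
      linarith only [a2, h1, hq]
  · obtain ⟨f, hf, hq⟩ := chkT4 k_L1b (by norm_num) (x := x) (y := T) (z := r) (w := y)
      (by push_cast; linarith only [a1]) (by push_cast; linarith only [a2]) (by push_cast; linarith only [a3])
      (by push_cast; linarith only [a4]) (by push_cast; linarith only [h1]) (by push_cast; linarith only [hr'])
      (by push_cast; linarith only [a5]) (by push_cast; linarith only [a6])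
    simp only [List.mem_cons, List.not_mem_nil, or_false] at hf
    rcases hf with rfl | rfl
    · simp only [e2X, E.val, eB'_val, e2x_val, NumIs.lkR] at hq
      linarith only [hq]
    · simp only [E.val, NumIs.lkR] at hq
      push_cast at hq
      linarith only [hp, hq]

theorem l_near (H : Rg x T y) (hr : 40 / 100 ≤ r) (hr' : r ≤ 8 / 10) :
    (T ≤ 0 → s2n 1 x T r y < -bb x (-T)) ∧ (0 ≤ T → s2n (-1) x T r y < -bb x (-T)) := by
  obtain ⟨a1, a2, a3, a4, a5, a6⟩ := H
  constructor
  · intro hT
    rcases le_total r (71 / 100) with h1 | h1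
    · obtain ⟨f, hf, hq⟩ := chkT4 k_L2p (by norm_num) (x := x) (y := T) (z := r) (w := y)
        (by push_cast; linarith only [a1]) (by push_cast; linarith only [a2]) (by push_cast; linarith only [a3])
        (by push_cast; linarith only [hT]) (by push_cast; linarith only [hr]) (by push_cast; linarith only [h1])
        (by push_cast; linarith only [a5]) (by push_cast; linarith only [a6])
      simp only [List.mem_cons, List.not_mem_nil, or_false] at hf
      rcases hf with rfl | rfl
      · simp only [e2N, E.val, eB'_val, e2n_val, NumIs.lkR] at hq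
        push_cast at hq
        linarith only [hq]
      · simp only [E.val, NumIs.lkR] at hq
        linarith only [hT, hq]
    · obtain ⟨f, hf, hq⟩ := chkT4 k_L5 (by norm_num) (x := x) (y := T) (z := r) (w := y)
        (by push_cast; linarith only [a1]) (by push_cast; linarith only [a2]) (by push_cast; linarith only [a3])
        (by push_cast; linarith only [hT]) (by push_cast; linarith only [h1]) (by push_cast; linarith only [hr'])
        (by push_cast; linarith only [a5]) (by push_cast; linarith only [a6])
      simp only [List.mem_cons, List.not_mem_nil, or_false] at hf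
      rcases hf with rfl | rfl
      · simp only [e2N, E.val, eB'_val, e2n_val, NumIs.lkR] at hq
        push_cast at hq
        linarith only [hq]
      · simp only [E.val, NumIs.lkR] at hq
        linarith only [hT, hq]
  · intro hT
    rcases le_total r (71 / 100) with h1 | h1
    · obtain ⟨f, hf, hq⟩ := chkT4 k_L2m (by norm_num) (x := x) (y := T) (z := r) (w := y)
        (by push_cast; linarith only [a1]) (by push_cast; linarith only [a2]) (by push_cast; linarith only [hT])
        (by push_cast; linarith only [a4]) (by push_cast; linarith only [hr]) (by push_cast; linarith only [h1])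
        (by push_cast; linarith only [a5]) (by push_cast; linarith only [a6])
      simp only [List.mem_cons, List.not_mem_nil, or_false] at hf
      rcases hf with rfl | rfl
      · simp only [e2N, E.val, eB'_val, e2n_val, NumIs.lkR] at hq
        push_cast at hq
        linarith only [hq]
      · simp only [E.val, NumIs.lkR] at hq
        linarith only [hT, hq]
    · obtain ⟨f, hf, hq⟩ := chkT4 k_L6 (by norm_num) (x := x) (y := T) (z := r) (w := y)
        (by push_cast; linarith only [a1]) (by push_cast; linarith only [a2]) (by push_cast; linarith only [hT])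
        (by push_cast; linarith only [a4]) (by push_cast; linarith only [h1]) (by push_cast; linarith only [hr'])
        (by push_cast; linarith only [a5]) (by push_cast; linarith only [a6])
      simp only [List.mem_cons, List.not_mem_nil, or_false] at hf
      rcases hf with rfl | rfl
      · simp only [e2N, E.val, eB'_val, e2n_val, NumIs.lkR] at hq
        push_cast at hq
        linarith only [hq]
      · simp only [E.val, NumIs.lkR] at hq
        linarith only [hT, hq]

theorem l_far (H : Rg x T y) (hr : 60 / 100 ≤ r) (hr' : r ≤ 75 / 100)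
    (hp : 11 / 10 ≤ x + r) :
    (0 ≤ hR x T + y → s2b 1 x T r y < -bb x (-T)) ∧
      (hR x T + y ≤ 0 → s2b (-1) x T r y < -bb x (-T)) := by
  obtain ⟨a1, a2, a3, a4, a5, a6⟩ := H
  constructor
  · intro hT
    obtain ⟨f, hf, hq⟩ := chkT4 k_L3p (by norm_num) (x := x) (y := T) (z := r) (w := y)
      (by push_cast; linarith only [a1]) (by push_cast; linarith only [a2]) (by push_cast; linarith only [a3])
      (by push_cast; linarith only [a4]) (by push_cast; linarith only [hr]) (by push_cast; linarith only [hr'])
      (by push_cast; linarith only [a5]) (by push_cast; linarith only [a6])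
    simp only [List.mem_cons, List.not_mem_nil, or_false] at hf
    rcases hf with rfl | rfl | rfl
    · simp only [e2B, E.val, eB'_val, e2b_val, NumIs.lkR] at hq
      push_cast at hq
      linarith only [hq]
    · simp only [E.val, eH_val, NumIs.lkR] at hq
      linarith only [hT, hq]
    · simp only [E.val, NumIs.lkR] at hq
      push_cast at hq
      linarith only [hp, hq]
  · intro hT
    obtain ⟨f, hf, hq⟩ := chkT4 k_L3m (by norm_num) (x := x) (y := T) (z := r) (w := y)
      (by push_cast; linarith only [a1]) (by push_cast; linarith only [a2]) (by push_cast; linarith only [a3])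
      (by push_cast; linarith only [a4]) (by push_cast; linarith only [hr]) (by push_cast; linarith only [hr'])
      (by push_cast; linarith only [a5]) (by push_cast; linarith only [a6])
    simp only [List.mem_cons, List.not_mem_nil, or_false] at hf
    rcases hf with rfl | rfl | rfl
    · simp only [e2B, E.val, eB'_val, e2b_val, NumIs.lkR] at hq
      push_cast at hq
      linarith only [hq]
    · simp only [E.val, eH_val, NumIs.lkR] at hq
      linarith only [hT, hq]
    · simp only [E.val, NumIs.lkR] at hq
      push_cast at hq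
      linarith only [hp, hq]

theorem l_end (H : Rg x T t) (hr : 75 / 100 ≤ r) (hr' : r ≤ 8 / 10)
    (hy : y = t * (20 * (8 / 10 - r))) (hp : 11 / 10 ≤ x + r) :
    (0 ≤ hR x T + y → s2b 1 x T r y < -bb x (-T)) ∧
      (hR x T + y ≤ 0 → s2b (-1) x T r y < -bb x (-T)) := by
  obtain ⟨a1, a2, a3, a4, a5, a6⟩ := H
  constructor
  · intro hT
    obtain ⟨f, hf, hq⟩ := chkT4 k_L4p (by norm_num) (x := x) (y := T) (z := r) (w := t)
      (by push_cast; linarith only [a1]) (by push_cast; linarith only [a2]) (by push_cast; linarith only [a3])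
      (by push_cast; linarith only [a4]) (by push_cast; linarith only [hr]) (by push_cast; linarith only [hr'])
      (by push_cast; linarith only [a5]) (by push_cast; linarith only [a6])
    simp only [List.mem_cons, List.not_mem_nil, or_false] at hf
    rcases hf with rfl | rfl | rfl
    · simp only [e2B, E.val, eB'_val, e2b_val, yr, NumIs.lkR] at hq
      push_cast at hq
      rw [div_one, ← hy] at hq
      linarith only [hq]
    · simp only [E.val, eH_val, yr, NumIs.lkR] at hq
      push_cast at hq
      rw [div_one, ← hy] at hq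
      linarith only [hT, hq]
    · simp only [E.val, NumIs.lkR] at hq
      push_cast at hq
      linarith only [hr, a1, hq]
  · intro hT
    obtain ⟨f, hf, hq⟩ := chkT4 k_L4m (by norm_num) (x := x) (y := T) (z := r) (w := t)
      (by push_cast; linarith only [a1]) (by push_cast; linarith only [a2]) (by push_cast; linarith only [a3])
      (by push_cast; linarith only [a4]) (by push_cast; linarith only [hr]) (by push_cast; linarith only [hr'])
      (by push_cast; linarith only [a5]) (by push_cast; linarith only [a6])
    simp only [List.mem_cons, List.not_mem_nil, or_false] at hf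
    rcases hf with rfl | rfl | rfl
    · simp only [e2B, E.val, eB'_val, e2b_val, yr, NumIs.lkR] at hq
      push_cast at hq
      rw [div_one, ← hy] at hq
      linarith only [hq]
    · simp only [E.val, eH_val, yr, NumIs.lkR] at hq
      push_cast at hq
      rw [div_one, ← hy] at hq
      linarith only [hT, hq]
    · simp only [E.val, NumIs.lkR] at hq
      push_cast at hq
      linarith only [hr, a1, hq]

/-- **The side of the left digit** -/
theorem left_lt {w v : ℂ} (hw : w.im = hR w.re T) (hx : 39 / 100 ≤ w.re) (hx' : w.re ≤ 1 / 2)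
    (hT : -(22 / 1000) ≤ T) (hT' : T ≤ 22 / 1000) (hv : RH v t (8 / 10) (5 / 100) (5 / 100))
    (ht : -(116 / 1000) ≤ t) (ht' : t ≤ 5 / 1000) : S2 1 (mR T) w v < -bb w.re (-T) := by
  have h0 := hv.re0
  have hM := hv.reM
  obtain ⟨i0, i1⟩ := MR.RH_im_mem hv (by norm_num) (by norm_num) ht ht'
  have H : Rg w.re T v.im := ⟨hx, hx', hT, hT', i0, i1⟩
  rw [S2_b2 hw (by linarith only [hx]) (by linarith only [hx'])]
  have hre : (w + v).re = w.re + v.re := Complex.add_re _ _
  have him : (w + v).im = hR w.re T + v.im := by rw [Complex.add_im, hw]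
  rcases le_total (w.re + v.re) (9 / 10) with h1 | h1
  · have h2 := l_exact H h0 (by linarith only [hx, h1]) h1
    unfold s2x at h2
    rw [Num.LL_lnA (u := w + v) ⟨by rw [hre]; linarith only [hx, h0], by rw [hre]; linarith only [h1]⟩,
      Num.YY_lnB (u := w + v) ⟨by rw [hre]; linarith only [hx, h0], by rw [hre]; linarith only [h1]⟩, hre, him]
    linarith only [h2]
  have e1 : (w + v - 1).re = w.re + v.re - 1 := by simp
  have e2 : (w + v - 1).im = hR w.re T + v.im := by simp [hw]
  rcases le_total (w.re + v.re) (11 / 10) with h2 | h2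
  · have h3 := LL_near6 (a := w + v - 1) (by rw [e1, abs_le]; constructor <;> linarith only [h1, hx', hM, h2])
    have h4 := VN.LL_add_one (w + v - 1)
    rw [sub_add_cancel] at h4
    rw [← h4, e2] at h3
    obtain ⟨k1, k2⟩ := l_near H (r := v.re) (by linarith only [hx', h1]) hM
    have h5 : ∀ m : ℝ, m * YY (w + v) ≤ |m| * Real.pi := by
      intro m
      have h6 := MR.YY_abs_pi (u := w + v) (by rw [hre]; linarith only [h1]) (by rw [hre]; linarith only [hx', hM])
      calc m * YY (w + v) ≤ |m * YY (w + v)| := le_abs_self _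
        _ = |m| * |YY (w + v)| := abs_mul _ _
        _ ≤ |m| * Real.pi := mul_le_mul_of_nonneg_left h6 (abs_nonneg m)
    rcases le_total T 0 with h6 | h6
    · have h7 := k1 h6
      have h8 : 0 ≤ mR T := by unfold mR; linarith only [h6]
      have h9 := h5 (mR T)
      rw [abs_of_nonneg h8] at h9
      unfold s2n at h7
      linarith only [h3, h7, h9]
    · have h7 := k2 h6
      have h8 : mR T ≤ 0 := by unfold mR; linarith only [h6]
      have h9 := h5 (mR T)
      rw [abs_of_nonpos h8] at h9
      unfold s2n at h7
      linarith only [h3, h7, h9]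
  · have h4 := VN.LL_add_one (w + v - 1)
    rw [sub_add_cancel, Num.LL_lnA (u := w + v - 1) ⟨by rw [e1]; linarith only [h2], by rw [e1]; linarith only [hx', hM]⟩,
      e1, e2] at h4
    obtain ⟨y1, y2, y3⟩ := YY_far (a := w + v - 1) (by rw [e1]; linarith only [h2]) (by rw [e1]; linarith only [hx', hM])
    rw [sub_add_cancel, e1, e2] at y1 y2 y3
    have key : (0 ≤ hR w.re T + v.im → s2b 1 w.re T v.re v.im < -bb w.re (-T)) ∧
      (hR w.re T + v.im ≤ 0 → s2b (-1) w.re T v.re v.im < -bb w.re (-T)) := by
      rcases le_total v.re (75 / 100) with h5 | h5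
      · exact l_far H (by linarith only [hx', h2]) h5 h2
      · have e : v.im = t * (20 * (8 / 10 - v.re)) := by
          rw [hv.im, tr_c (by norm_num) (by norm_num) (by norm_num) (by linarith only [h5]) hM]
          ring
        exact l_end ⟨hx, hx', hT, hT', ht, ht'⟩ h5 hM e h2
    obtain ⟨k1, k2⟩ := key
    unfold s2b at k1 k2
    rw [h4]
    rcases lt_trichotomy (hR w.re T + v.im) 0 with h5 | h5 | h5
    · rw [y2 h5]
      have := k2 h5.le
      linarith only [this]
    · obtain ⟨z1, z2⟩ := y3 h5
      rw [z1]
      have q1 := k1 h5.ge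
      have q2 := k2 h5.le
      rw [z2] at q1 q2
      linarith only [q1, q2]
    · rw [y1 h5]
      have := k1 h5.le
      linarith only [this]

end S33

end VL

end Pool.Agent.Work.MP_b30479_gtS.G2
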