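import Pool.Agent.Work.MP_b30479_gt.TBS.G2.V33A
import Pool.Agent.Work.MP_b30479_gt.TBS.NumU.Tree

section

/-!
# A hinge between two inner digits `3`, right ramp: certificates
-/

set_option deprecated.oldSectionVars true

namespace Pool.Agent.Work.MP_b30479_gtS.G2

open VOL NumUs

namespace VL

namespace S33

open NumIs (V)
open NumUs.E (q var)

theorem k_L1a : chkT ([e2X (var 3), .sub (.add (var 0) (var 2)) (q 9 10)]) 40
    0x8880088288801083288288808021881881008388812881088008388288288221880088008312288088288810108388088218808880208808820183083288288028828820183880818808288218821088800828821283020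
    [V.of 10000 3900 5000, V.of 10000 (-220) 220,
      V.of 10000 0 2500, V.of 10000 (-1160) 50] = true := by
  decide +kernel

theorem k_L1b : chkT ([e2X (var 3), .sub (.add (var 0) (var 2)) (q 9 10)]) 40
    0x998282288229998022882288220998208288028880228808282882888120200
    [V.of 10000 3900 5000, V.of 10000 (-220) 220,
      V.of 10000 2500 5100, V.of 10000 (-1160) 50] = true := by
  decide +kernel

theorem k_L2p : chkT ([e2N 1, var 1]) 40
    0x8
    [V.of 10000 3900 5000, V.of 10000 (-220) 0,
      V.of 10000 4000 7100, V.of 10000 (-1160) 50] = true := by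
  decide +kernel

theorem k_L2m : chkT ([e2N (-1), .neg (var 1)]) 40
    0x8
    [V.of 10000 3900 5000, V.of 10000 0 220,
      V.of 10000 4000 7100, V.of 10000 (-1160) 50] = true := by
  decide +kernel

theorem k_L5 : chkT ([e2N 1, var 1]) 40
    0x8
    [V.of 10000 3900 5000, V.of 10000 (-220) 0,
      V.of 10000 7100 8000, V.of 10000 (-1160) 50] = true := by
  decide +kernel

theorem k_L6 : chkT ([e2N (-1), .neg (var 1)]) 40
    0x8
    [V.of 10000 3900 5000, V.of 10000 0 220,
      V.of 10000 7100 8000, V.of 10000 (-1160) 50] = true := by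
  decide +kernel

theorem k_L3p : chkT ([e2B 1 (var 3), .neg (.add (eH (var 0) (var 1)) (var 3)),
    .sub (q 11 10) (.add (var 0) (var 2))]) 40
    0x8828882911882218882188a02208828a22882a2009393
    [V.of 10000 3900 5000, V.of 10000 (-220) 220,
      V.of 10000 6000 7500, V.of 10000 (-1160) 50] = true := by
  decide +kernel

theorem k_L4p : chkT ([e2B 1 (yr (var 3) (var 2)),
    .neg (.add (eH (var 0) (var 1)) (yr (var 3) (var 2))),
    .sub (q 11 10) (.add (var 0) (var 2))]) 40
    0x8808828280882299289821919329891209929239929292311889928218820891929231088088099218910990292199223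
    [V.of 10000 3900 5000, V.of 10000 (-220) 220,
      V.of 10000 7500 8000, V.of 10000 (-1160) 50] = true := by
  decide +kernel

theorem k_L3m : chkT ([e2B (-1) (var 3), .add (eH (var 0) (var 1)) (var 3),
    .sub (q 11 10) (.add (var 0) (var 2))]) 40
    0x8828880288a2a0202882883a2288832a200
    [V.of 10000 3900 5000, V.of 10000 (-220) 220,
      V.of 10000 6000 7500, V.of 10000 (-1160) 50] = true := by
  decide +kernel

theorem k_L4m : chkT ([e2B (-1) (yr (var 3) (var 2)),
    .add (eH (var 0) (var 1)) (yr (var 3) (var 2)),
    .sub (q 11 10) (.add (var 0) (var 2))]) 40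
    0x8828820888020
    [V.of 10000 3900 5000, V.of 10000 (-220) 220,
      V.of 10000 7500 8000, V.of 10000 (-1160) 50] = true := by
  decide +kernel

theorem k_Ap : chkT ([e3L 1 (yl (var 3) (var 2)),
    .sub (yl (var 3) (var 2)) (eH (var 0) (var 1))] ++ eW) 40
    0x88801
    [V.of 10000 3900 5000, V.of 10000 (-220) 220,
      V.of 10000 0 200, V.of 10000 (-1140) 50] = true := by
  decide +kernel

theorem k_Bp : chkT ([e3L 1 (yl (var 3) (var 2)), eDD (yl (var 3) (var 2)),
    .sub (yl (var 3) (var 2)) (eH (var 0) (var 1))] ++ eW) 40
    0x880888008988931908931913929299009092318939201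
    [V.of 10000 3900 5000, V.of 10000 (-220) 220,
      V.of 10000 200 500, V.of 10000 (-1140) 50] = true := by
  decide +kernel

theorem k_Cp : chkT ([e3L 1 (var 3), eDD (var 3),
    .sub (var 3) (eH (var 0) (var 1))] ++ eW) 40
    0x880888280888808080298809192390909011389101388880288919888921391919039090390311899903102
    [V.of 10000 3900 5000, V.of 10000 (-220) 220,
      V.of 10000 500 1800, V.of 10000 (-1140) 50] = true := by
  decide +kernel

theorem k_Dp : chkT ([e3L 1 (var 3), .sub (var 3) (eH (var 0) (var 1))] ++ (eW ++
    [.sub (q 8 100) (.sub (var 0) (var 2))])) 40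
    0x882828c0828208822888008388028888828022188822023c8832c088388022c883c088322088388328888231220
    [V.of 10000 3900 5000, V.of 10000 (-220) 220,
      V.of 10000 1800 4200, V.of 10000 (-1140) 50] = true := by
  decide +kernel

theorem k_Np : chkT ([e3N 1, var 1] ++ eW) 40
    0x8
    [V.of 10000 3900 5000, V.of 10000 (-220) 0,
      V.of 10000 3100 5800, V.of 10000 (-1140) 50] = true := by
  decide +kernel

theorem k_Am : chkT ([e3L (-1) (yl (var 3) (var 2)),
    .sub (eH (var 0) (var 1)) (yl (var 3) (var 2))] ++ eW) 40
    0x8
    [V.of 10000 3900 5000, V.of 10000 (-220) 220,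
      V.of 10000 0 200, V.of 10000 (-1140) 50] = true := by
  decide +kernel

theorem k_Bm : chkT ([e3L (-1) (yl (var 3) (var 2)),
    .sub (eH (var 0) (var 1)) (yl (var 3) (var 2))] ++ eW) 40
    0x89382
    [V.of 10000 3900 5000, V.of 10000 (-220) 220,
      V.of 10000 200 500, V.of 10000 (-1140) 50] = true := by
  decide +kernel

theorem k_Cm : chkT ([e3L (-1) (var 3),
    .sub (eH (var 0) (var 1)) (var 3)] ++ eW) 40
    0x88293
    [V.of 10000 3900 5000, V.of 10000 (-220) 220,
      V.of 10000 500 1800, V.of 10000 (-1140) 50] = true := by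
  decide +kernel

theorem k_Dm : chkT ([e3L (-1) (var 3), .sub (eH (var 0) (var 1)) (var 3)] ++ (eW ++
    [.sub (q 8 100) (.sub (var 0) (var 2))])) 40
    0x88c08208282c82c082c8c82020882209393
    [V.of 10000 3900 5000, V.of 10000 (-220) 220,
      V.of 10000 1800 4200, V.of 10000 (-1140) 50] = true := by
  decide +kernel

theorem k_Nm : chkT ([e3N (-1), .neg (var 1)] ++ eW) 40
    0x8
    [V.of 10000 3900 5000, V.of 10000 0 220,
      V.of 10000 3100 5800, V.of 10000 (-1140) 50] = true := by
  decide +kernel

theorem k_R1 : chkT ([e3R (var 3)] ++ (eW ++ [.sub (q 8 100) (.sub (var 2) (var 0))])) 40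
    0x8880288208838808388302b883b2b2022882882883b8b2b202228828288088088322200
    [V.of 10000 3900 5000, V.of 10000 (-220) 220,
      V.of 10000 4700 7500, V.of 10000 (-1140) 50] = true := by
  decide +kernel

theorem k_R2 : chkT ([e3R (yr (var 3) (var 2))] ++ eW) 40
    0x88800
    [V.of 10000 3900 5000, V.of 10000 (-220) 220,
      V.of 10000 7500 8000, V.of 10000 (-1140) 50] = true := by
  decide +kernel

theorem k_Tp : chkT ([e3L 1 (var 3), .sub (eT (var 2)) (var 3),
    .sub (var 3) (eH (var 0) (var 1))] ++ eW) 40
    0x888028880208880288008888802188888882808088938939323889239322121888893923220888888893332808088089393923221188280800889392380938809380932893938093929229223113888080888088080933388809388093932322101288088888888922328038028889280922288929223888922203118880802088808080893929280803938938089393802809393292192218889380280809219293333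
    [V.of 10000 3900 5000, V.of 10000 (-220) 220,
      V.of 10000 500 1800, V.of 10000 (-1140) 50] = true := by
  decide +kernel

theorem k_Up : chkT ([e3L 1 (yl (var 3) (var 2)), .sub (eT (var 2)) (var 3),
    .sub (yl (var 3) (var 2)) (eH (var 0) (var 1))] ++ eW) 40
    0x8808808888089380939392318889393933821019331
    [V.of 10000 3900 5000, V.of 10000 (-220) 220,
      V.of 10000 200 500, V.of 10000 (-1140) 50] = true := by
  decide +kernel

theorem k_Gra : chkT ([eGG (yl (var 1) (var 0)) (.mul (var 3) (var 2)),
    .add (var 1) (.add (q 56 1000) (.mul (q 28 100) (var 0)))]) 40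
    0x888038880328828880228828880220288823882882882122888238838808880222200
    [V.of 10000 200 500, V.of 10000 (-1140) (-610),
      V.of 10000 0 1500, V.of 10000 (-7634) 4385] = true := by
  decide +kernel

theorem k_Grb : chkT ([eGG (var 1) (.mul (var 3) (var 2)),
    .add (var 1) (.add (q 56 1000) (.mul (q 28 100) (var 0)))]) 40
    0x8880388228838832882882220
    [V.of 10000 500 1800, V.of 10000 (-1140) (-690),
      V.of 10000 0 1500, V.of 10000 (-7634) 4385] = true := by
  decide +kernel

theorem k_Gfa : chkT ([eGG (yl (var 1) (var 0)) (var 3),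
    .add (var 1) (.add (q 56 1000) (.mul (q 28 100) (var 0)))]) 40
    0x88833888031888032888032888338880318880328880320
    [V.of 10000 200 500, V.of 10000 (-1140) (-610),
      V.of 10000 1300 3900, V.of 10000 (-1145) 570] = true := by
  decide +kernel

theorem k_Gfb : chkT ([eGG (var 1) (var 3),
    .add (var 1) (.add (q 56 1000) (.mul (q 28 100) (var 0)))]) 40
    0x999988388833823883211008880389818138832888380303888032888032188803288803883988218830813883288833038880328880320
    [V.of 10000 500 1800, V.of 10000 (-1140) (-690),
      V.of 10000 1300 3900, V.of 10000 (-1145) 570] = true := by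
  decide +kernel

end S33

end VL

end Pool.Agent.Work.MP_b30479_gtS.G2

end

section

/-!
# The slot 0 of an inner digit `3` next to a ring, right ramp: certificates

values, the part of the hinge
-/

set_option deprecated.oldSectionVars true

namespace Pool.Agent.Work.MP_b30479_gtS.G2

open VOL NumUs

namespace VL

namespace SZ3

open S33 (eH eG yl yr)
open NumIs (V)
open NumUs.E (q var)

theorem k_Dlm : chkT [(eD 30 44 (yl (var 3) (var 2)) (eZ0 (var 0) (var 1) (var 2) (yl (var 3)
    (var 2)))), .sub (.sub (var 1) (var 3)) (q 105 1000)] 45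
    0x8898133828893933889331883188220
    [V.of 10000 3800 6000, V.of 10000 0 570,
      V.of 10000 0 500, V.of 10000 (-1050) 0] = true := by
  decide +kernel

theorem k_Dlp : chkT [(eD 30 44 (yl (var 3) (var 2)) (eZ1 (var 0) (var 1) (var 2) (yl (var 3)
    (var 2)))), .sub (.sub (var 3) (var 1)) (q 28 1000)] 45
    0x8
    [V.of 10000 3800 6000, V.of 10000 0 570,
      V.of 10000 0 500, V.of 10000 0 50] = true := by
  decide +kernel

theorem k_Dam : chkT [.sub (eD 30 42 (var 3) (eZ0 (var 0) (var 1) (var 2) (var 3))) (egB (var
    2)), .sub (.sub (var 1) (var 3)) (q 105 1000)] 45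
    0x88880093889388080808013138888030889818100939388880009313888809338801310
    [V.of 10000 3800 6000, V.of 10000 0 570,
      V.of 10000 500 1600, V.of 10000 (-1050) 0] = true := by
  decide +kernel

theorem k_Dap : chkT [.sub (eD 30 42 (var 3) (eZ1 (var 0) (var 1) (var 2) (var 3))) (egB (var
    2)), .sub (.sub (var 3) (var 1)) (q 28 1000)] 45
    0x880
    [V.of 10000 3800 6000, V.of 10000 0 570,
      V.of 10000 500 1600, V.of 10000 0 50] = true := by
  decide +kernel

theorem k_Dbm : chkT [.sub (eD 30 42 (var 3) (eZ0 (var 0) (var 1) (var 2) (var 3))) (q 85 1000),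
    .sub (.sub (var 1) (var 3)) (q 105 1000), .sub (var 2) (.sub (var 0) (q 13 100))] 45
    0x889819981133388981332a88981a09812332a08893889338831132088809819981133388939338893318888098898199818080133288001333122aa88981332a0a0a088939389313888938a0821331228828829393888029313888938133888938133212a88088a08230888883203298829388293939309318828a820882209393188a0a0088883810028889308132931388893882133a8889338132a0a0888938133208888093813321200
    [V.of 10000 3800 6000, V.of 10000 0 570,
      V.of 10000 1600 4700, V.of 10000 (-1050) 0] = true := by
  decide +kernel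

theorem k_Dbp : chkT [.sub (eD 30 42 (var 3) (eZ1 (var 0) (var 1) (var 2) (var 3))) (q 85 1000),
    .sub (.sub (var 3) (var 1)) (q 28 1000), .sub (var 2) (.sub (var 0) (q 13 100))] 45
    0x88a082082a880282a882200
    [V.of 10000 3800 6000, V.of 10000 0 570,
      V.of 10000 1600 4700, V.of 10000 0 50] = true := by
  decide +kernel

theorem k_Dn : chkT [.sub (eD 30 42 (var 3) (eZ3 (var 0) (var 1) (var 2) (var 3))) (q 6 100),
    .sub (eH (var 0) (var 1)) (var 3), .sub (.sub (var 0) (var 2)) (q 13 100), .sub (.sub (var
    2) (var 0)) (q 13 100)] 45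
    0x8
    [V.of 10000 5000 6000, V.of 10000 350 570,
      V.of 10000 3700 7300, V.of 10000 0 50] = true := by
  decide +kernel

theorem k_Dh : chkT [.sub (eD 38 58 (yr (var 3) (var 2)) (eZ2 (var 0) (var 1) (var 2) (yr (var
    3) (var 2)))) (egH (var 2) (var 3)), .sub (.sub (var 1) (var 3)) (q 105 1000), .sub (.sub
    (var 3) (var 1)) (q 28 1000)] 45
    0x880838388803883088893880193888933288011288938818012893810029332880838808880808880809393880809318880933888001889381301232321
    [V.of 10000 5000 6000, V.of 10000 0 570,
      V.of 10000 7500 8000, V.of 10000 (-1050) 50] = true := by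
  decide +kernel

end SZ3

end VL

end Pool.Agent.Work.MP_b30479_gtS.G2

end

section

/-!
# The slot 0 of an inner digit `3` next to a ring, right ramp: certificates

values, the part of the hinge in slot 2
-/

set_option deprecated.oldSectionVars true

namespace Pool.Agent.Work.MP_b30479_gtS.G2

open VOL NumUs

namespace VL

namespace SZ3

open S33 (eH eG yl yr)
open NumIs (V)
open NumUs.E (q var)

theorem k_Gar : chkT [.add (eG (q 42 100) (var 0) (var 1) (var 1) (var 2) (.mul (var 3) (var
    2))) (egB (var 0))] 45
    0x888038822888038880221888138882308880388288288812102288388328880388288802882102210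
    [V.of 10000 500 1600, V.of 10000 (-1050) 50,
      V.of 10000 0 1500, V.of 10000 (-7634) 4385] = true := by
  decide +kernel

theorem k_Gaf : chkT [.add (eG (q 42 100) (var 0) (var 1) (var 1) (var 2) (var 3)) (egB (var
    0))] 45
    0x888382388803188813288818038880328880388803210
    [V.of 10000 500 1600, V.of 10000 (-1050) 50,
      V.of 10000 1300 3900, V.of 10000 (-1145) 570] = true := by
  decide +kernel

theorem k_Gbr : chkT [.add (eG (q 42 100) (var 0) (var 1) (var 1) (var 2) (.mul (var 3) (var
    2))) (q 85 1000)] 45
    0x8880082881828288813882200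
    [V.of 10000 1600 4700, V.of 10000 (-1050) 50,
      V.of 10000 0 1500, V.of 10000 (-7634) 4385] = true := by
  decide +kernel

theorem k_Gbf : chkT [.add (eG (q 42 100) (var 0) (var 1) (var 1) (var 2) (var 3)) (q 85 1000)]
    45
    0x883883188328818228883388803188803288182208888033888031888132888132888803388803188813288813200
    [V.of 10000 1600 4700, V.of 10000 (-1050) 50,
      V.of 10000 1300 3900, V.of 10000 (-1145) 570] = true := by
  decide +kernel

theorem k_Gnr : chkT [.add (eG (q 42 100) (var 0) (var 1) (var 1) (var 2) (.mul (var 3) (var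
    2))) (q 6 100)] 45
    0x88382883088382088080088280802
    [V.of 10000 3700 7300, V.of 10000 0 50,
      V.of 10000 0 1500, V.of 10000 (-7634) 4385] = true := by
  decide +kernel

theorem k_GnA : chkT [.add (eG (q 42 100) (var 0) (var 1) (var 1) (var 2) (var 3)) (q 6 100),
    .sub (.add (var 0) (var 2)) (q 5 6)] 45
    0x999982220998822209998220880838808022098298082088228838288020888038802880200
    [V.of 10000 3700 7300, V.of 10000 0 50,
      V.of 10000 1300 3900, V.of 10000 (-1145) 570] = true := by
  decide +kernel

theorem k_GnB : chkT [.add (eG1 (q 42 100) (var 0) (var 1) (var 1) (var 2) (var 3) (.add (.uu (q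
    5 6) (.add (var 1) (var 3))) (.mul (.sub (.add (var 0) (var 2)) (q 5 6)) (.lnA (q 1 6) (.add
    (var 1) (var 3)))))) (q 6 100), .sub (q 5 6) (.add (var 0) (var 2))] 45
    0x88388830883892909002288083928929092929000
    [V.of 10000 3700 7300, V.of 10000 0 50,
      V.of 10000 1300 3900, V.of 10000 (-1145) 570] = true := by
  decide +kernel

theorem k_Ghr : chkT [.add (eG (q 58 100) (var 0) (yr (var 1) (var 0)) (var 1) (var 2) (.mul
    (var 3) (var 2))) (egH (var 0) (var 1))] 45
    0x8808383880832883880831288083883288083288083880388083880321088821838388238828828318803288083838883183288283882838803120883880388283882318818388038880183880322880838803883838838321882838808388800832188388801232001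
    [V.of 10000 7500 8000, V.of 10000 (-1050) 50,
      V.of 10000 700 1500, V.of 10000 (-7634) 4385] = true := by
  decide +kernel

theorem k_GhA : chkT [.add (eG (q 58 100) (var 0) (yr (var 1) (var 0)) (var 1) (var 2) (var 3))
    (egH (var 0) (var 1)), .sub (.add (var 0) (var 2)) (q 94 100)] 45
    0x98882183880329998818322088083880838312088388308808338808388032883838838308808383288183883832881838838320010
    [V.of 10000 7500 8000, V.of 10000 (-1050) 50,
      V.of 10000 1300 1900, V.of 10000 (-1145) 570] = true := by
  decide +kernel

theorem k_GhB : chkT [.add (eG1 (q 58 100) (var 0) (yr (var 1) (var 0)) (var 1) (var 2) (var 3)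
    (.add (.uu (q 94 100) (.add (yr (var 1) (var 0)) (var 3))) (.mul (.sub (.add (var 0) (var
    2)) (q 94 100)) (.lnA (q 6 100) (.add (yr (var 1) (var 0)) (var 3)))))) (egH (var 0) (var
    1)), .sub (q 94 100) (.add (var 0) (var 2)), .sub (.add (var 0) (var 2)) (q 106 100)] 45
    0x883883388283882328838880283288283388388338838808318833201883883883038838813880838803922288803880833883880388183922288388138838839290228838833883838839290221010
    [V.of 10000 7500 8000, V.of 10000 (-1050) 50,
      V.of 10000 1400 3100, V.of 10000 (-1145) 570] = true := by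
  decide +kernel

theorem k_GhP : chkT [.add (eG1 (q 58 100) (var 0) (yr (var 1) (var 0)) (var 1) (var 2) (var 3)
    (.add (.uu (.sub (.add (var 0) (var 2)) (q 1 1)) (.add (yr (var 1) (var 0)) (var 3))) (.mul
    .pi (.add (yr (var 1) (var 0)) (var 3))))) (egH (var 0) (var 1)), .sub (q 106 100) (.add
    (var 0) (var 2)), .neg (.add (yr (var 1) (var 0)) (var 3))] 45
    0x88801838818811838a38a300188388832088188018819290202aa13
    [V.of 10000 7500 8000, V.of 10000 (-1050) 50,
      V.of 10000 2600 3900, V.of 10000 (-1145) 570] = true := by
  decide +kernel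

theorem k_GhM : chkT [.add (eG1 (q 58 100) (var 0) (yr (var 1) (var 0)) (var 1) (var 2) (var 3)
    (.sub (.uu (.sub (.add (var 0) (var 2)) (q 1 1)) (.add (yr (var 1) (var 0)) (var 3))) (.mul
    .pi (.add (yr (var 1) (var 0)) (var 3))))) (egH (var 0) (var 1)), .sub (q 106 100) (.add
    (var 0) (var 2)), .add (yr (var 1) (var 0)) (var 3)] 45
    0x883883288388331882883388388318839290202883880388388388030288388038838803188083883881308818392902201
    [V.of 10000 7500 8000, V.of 10000 (-1050) 50,
      V.of 10000 2600 3900, V.of 10000 (-1145) 570] = true := by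
  decide +kernel

end SZ3

end VL

end Pool.Agent.Work.MP_b30479_gtS.G2

end

section

/-!
# The slot 0 of an inner digit `3` next to a ring, right ramp: certificates

the side of the ring
-/

set_option deprecated.oldSectionVars true

namespace Pool.Agent.Work.MP_b30479_gtS.G2

open VOL NumUs

namespace VL

namespace SZ3

open S33 (eH eG yl yr)
open NumIs (V)
open NumUs.E (q var)

theorem k_Rr : chkT [eR] 45
    0x8838832882832882882882088288088088821083221128838803881832882888228828828888083221211288388328832882881228838823882832882838828838880832832122100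
    [V.of 10000 3000 4000, V.of 10000 0 570,
      V.of 10000 1250 2500, V.of 10000 0 1045] = true := by
  decide +kernel

theorem k_RfA : chkT [eF (.lnA eQ eN) (.neg (.lnB eQ eN)), .sub (.add (var 0) (var 2)) (q 4 10)]
    45
    0x99822988320999980220883208880198082388083288388083188183288083881830200
    [V.of 10000 3000 4000, V.of 10000 0 570,
      V.of 10000 0 1000, V.of 10000 0 1045] = true := by
  decide +kernel

theorem k_RfB : chkT [eF (.lnA (q 1 10) eN) (.neg (.lnB (q 9 10) eN)), .sub (q 4 10) (.add (var
    0) (var 2)), .sub (.add (var 0) (var 2)) (q 6 10)] 45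
    0x882838838808322881838828328808283881828318818392200
    [V.of 10000 3000 4000, V.of 10000 0 570,
      V.of 10000 0 2500, V.of 10000 0 1045] = true := by
  decide +kernel

theorem k_RfC : chkT [eF (.lnA (q 15 100) eN) (.neg (.lnB (q 9 10) eN)), .sub (q 6 10) (.add
    (var 0) (var 2))] 45
    0x88083
    [V.of 10000 3500 4000, V.of 10000 0 570,
      V.of 10000 2000 2500, V.of 10000 0 1045] = true := by
  decide +kernel

end SZ3

end VL

end Pool.Agent.Work.MP_b30479_gtS.G2

end
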