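import Pool.Agent.Work.MP_b30479_gt.TBS.G2.V30B_3
import Pool.Agent.Work.MP_b30479_gt.TBS.G2.V30B_2
import Pool.Agent.Work.MP_b30479_gt.TBS.G2.V30D
import Pool.Agent.Work.MP_b30479_gt.TBS.G2.VZ3E
import Pool.Agent.Work.MP_b30479_gt.TBS.G2.TRa
import Pool.Agent.Work.MP_b30479_gt.TBS.G2.MLev
import Pool.Agent.Work.MP_b30479_gt.TBS.G2.V33C
import Pool.Agent.Work.MP_b30479_gt.TBS.G2.S0RB

section

/-!
# The inner variable on its left ramp: certificates of the side `S2`
-/

namespace Pool.Agent.Work.MP_b30479_gtS.G2

open VOL NumUs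

namespace VL

open NumIs (V)
open NumUs.E (q var)

theorem k_gr24a : chkT [eG (q 24 100) (var 0) (.mul (var 1) (var 0)) (var 2) (var 3) (var 3)] 40
    0x888028833880883288338808832883312882883388288338828833128880288338818833883883322018880288338808388338838830880833228838830883883328808820888033883883388388330221881883388188338828833128808388388302888028833388388388302888028833312881883388288338828833128882188338818833883883322088388388320883883338838808328838833318838838830288388328838832108882088338881088331322000
    [V.of 10000 200 1500, V.of 10000 (-7634) 4385,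
      V.of 10000 (-1230) 50, V.of 10000 100 500] = true :=
      Pool.Agent.Work.NumUs.chkT_of (Pool.Agent.Work.NumUs.runT_split rfl rfl rfl
        (Pool.Agent.Work.NumUs.runT_split rfl rfl rfl
          k_gr24a_q1
          k_gr24a_q2)
        k_gr24a_q3)

theorem k_gr44a : chkT [eG (q 44 100) (var 0) (.mul (var 1) (var 0)) (var 2) (var 3) (var 3)] 40
    0x8880088338880288338880288330288288288201883880830388188338880188332883883388188108833202188802883388188338808830883322882883388088338838833228880288338838833883883322118880288338838833883883322883883288388332880838838830288802883332188088338818820883328838833883883318838838830088388333228808820883388388338838833228838838830088388333883883883208880088333221000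
    [V.of 10000 200 1500, V.of 10000 (-7634) 4385,
      V.of 10000 (-1230) 50, V.of 10000 100 500] = true :=
      Pool.Agent.Work.NumUs.chkT_of (Pool.Agent.Work.NumUs.runT_split rfl rfl rfl
        (Pool.Agent.Work.NumUs.runT_split rfl rfl rfl
          k_gr44a_q1
          k_gr44a_q2)
        k_gr44a_q3)

end VL

end Pool.Agent.Work.MP_b30479_gtS.G2

end

section

/-!
# The inner variable of an inner digit `3` on its left ramp, all positions: the two parts
-/

namespace Pool.Agent.Work.MP_b30479_gtS.G2

open VOL NumUs

namespace VL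

open NumIs (V)
open NumUs.E (q var)

variable {c r t w s σ S x h m : ℝ}

/-! ### the side `S2` -/

theorem uu_shift {a b y : ℝ} (ha : -(6 / 100) ≤ a) (hab : a ≤ b) (hb : b ≤ 6 / 100)
    (hy : |y| ≤ 14 / 100) : uu b y ≤ uu a y :=
  UA.anti UA.kc_6_14 (by norm_num) ha hab hb hy

theorem abs_vr (ht : -(123 / 1000) ≤ t) (ht' : t ≤ 5 / 1000) (hr : 0 ≤ r) (hr' : r ≤ 5 / 100) :
    |20 * t * r| ≤ 14 / 100 := by
  rw [abs_le]
  constructor <;> nlinarith only [hr', ht, hr, ht']

/-- level part of the hinge -/
theorem GG_flat {n : ℤ} {ca cb : ℕ} (hn : (n : ℝ) / 100 = c)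
    (k1 : chkT [eG (q n 100) (var 0) (var 1) (var 2) (var 3) (var 3)] 40 ca
      [V.of 10000 1300 3900, V.of 10000 (-1145) 570, V.of 10000 (-1230) 50,
        V.of 10000 200 500] = true)
    (k2 : chkT [eG (q n 100) (var 0) (var 1) (var 2) (var 3) (q 2 100)] 40 cb
      [V.of 10000 1300 3900, V.of 10000 (-1145) 570, V.of 10000 (-1230) 50,
        V.of 10000 0 200] = true)
    (hw : 13 / 100 ≤ w) (hw' : w ≤ 39 / 100) (hS : -(1145 / 10000) ≤ S) (hS' : S ≤ 57 / 1000)
    (ht : -(123 / 1000) ≤ t) (ht' : t ≤ 5 / 1000) (hr : 0 ≤ r) (hr' : r ≤ 5 / 100) :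
    0 < GG c r t w S := by
  have hv := abs_vr ht ht' hr hr'
  rcases le_total (2 / 100) r with h2 | h2
  · have hp := pos_of_chk (chkT4 k1 (by norm_num) (x := w) (y := S) (z := t) (w := r)
      (by push_cast; linarith only [hw]) (by push_cast; linarith only [hw']) (by push_cast; linarith only [hS])
      (by push_cast; linarith only [hS']) (by push_cast; linarith only [ht]) (by push_cast; linarith only [ht'])
      (by push_cast; linarith only [h2]) (by push_cast; linarith only [hr']))
    rw [eG_val] at hp
    simp only [E.val, NumIs.lkR] at hp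
    rw [show (((n : ℤ) : ℝ) / ((100 : ℕ) : ℝ)) = c by push_cast; exact hn] at hp
    linarith only [hp]
  · have hp := pos_of_chk (chkT4 k2 (by norm_num) (x := w) (y := S) (z := t) (w := r)
      (by push_cast; linarith only [hw]) (by push_cast; linarith only [hw']) (by push_cast; linarith only [hS])
      (by push_cast; linarith only [hS']) (by push_cast; linarith only [ht]) (by push_cast; linarith only [ht'])
      (by push_cast; linarith only [hr]) (by push_cast; linarith only [h2]))
    rw [eG_val] at hp
    simp only [E.val, NumIs.lkR] at hp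
    rw [show (((n : ℤ) : ℝ) / ((100 : ℕ) : ℝ)) = c by push_cast; exact hn] at hp
    have h3 := uu_shift (a := r) (b := 2 / 100) (by linarith only [hr]) h2 (by norm_num) hv
    push_cast at hp
    linarith only [h3, hp]

/-- ramp, `w ≥ 2 / 100` -/
theorem GG_mid {n : ℤ} {ca cb : ℕ} (hn : (n : ℝ) / 100 = c)
    (k1 : chkT [eG (q n 100) (var 0) (.mul (var 1) (var 0)) (var 2) (var 3) (var 3)] 40 ca
      [V.of 10000 200 1500, V.of 10000 (-7634) 4385, V.of 10000 (-1230) 50,
        V.of 10000 100 500] = true)
    (k2 : chkT [eG (q n 100) (var 0) (.mul (var 1) (var 0)) (var 2) (var 3) (q 1 100)] 40 cb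
      [V.of 10000 200 1500, V.of 10000 (-7634) 4385, V.of 10000 (-1230) 50,
        V.of 10000 0 100] = true)
    (hw : 2 / 100 ≤ w) (hw' : w ≤ 15 / 100) (hσ : -(7634 / 10000) ≤ σ) (hσ' : σ ≤ 4385 / 10000)
    (ht : -(123 / 1000) ≤ t) (ht' : t ≤ 5 / 1000) (hr : 0 ≤ r) (hr' : r ≤ 5 / 100) :
    0 < GG c r t w (σ * w) := by
  have hv := abs_vr ht ht' hr hr'
  rcases le_total (1 / 100) r with h2 | h2
  · have hp := pos_of_chk (chkT4 k1 (by norm_num) (x := w) (y := σ) (z := t) (w := r)
      (by push_cast; linarith only [hw]) (by push_cast; linarith only [hw']) (by push_cast; linarith only [hσ])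
      (by push_cast; linarith only [hσ']) (by push_cast; linarith only [ht]) (by push_cast; linarith only [ht'])
      (by push_cast; linarith only [h2]) (by push_cast; linarith only [hr']))
    rw [eG_val] at hp
    simp only [E.val, NumIs.lkR] at hp
    rw [show (((n : ℤ) : ℝ) / ((100 : ℕ) : ℝ)) = c by push_cast; exact hn] at hp
    linarith only [hp]
  · have hp := pos_of_chk (chkT4 k2 (by norm_num) (x := w) (y := σ) (z := t) (w := r)
      (by push_cast; linarith only [hw]) (by push_cast; linarith only [hw']) (by push_cast; linarith only [hσ])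
      (by push_cast; linarith only [hσ']) (by push_cast; linarith only [ht]) (by push_cast; linarith only [ht'])
      (by push_cast; linarith only [hr]) (by push_cast; linarith only [h2]))
    rw [eG_val] at hp
    simp only [E.val, NumIs.lkR] at hp
    rw [show (((n : ℤ) : ℝ) / ((100 : ℕ) : ℝ)) = c by push_cast; exact hn] at hp
    have h3 := uu_shift (a := r) (b := 1 / 100) (by linarith only [hr]) h2 (by norm_num) hv
    push_cast at hp
    linarith only [h3, hp]

/-- ramp near `0` -/
theorem GG_small {n : ℤ} {ca cb cc cd : ℕ} (hn : (n : ℝ) / 100 = c) (hc : 1 / 10 ≤ c)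
    (hc' : c ≤ 9 / 10)
    (k1 : chkT [eN (q n 100) (var 0) (var 1) (var 2) (var 3) (q 2 100)] 40 ca
      [V.of 10000 0 200, V.of 10000 (-7634) 0, V.of 10000 (-1230) 0, V.of 10000 0 250] = true)
    (k2 : chkT [eN (q n 100) (var 0) (var 1) (var 2) (var 3) (q 1 100)] 40 cb
      [V.of 10000 0 200, V.of 10000 (-7634) 0, V.of 10000 (-1230) 0, V.of 10000 250 500] = true)
    (k3 : chkT [eQ (q n 100) (var 0) (var 1) (var 2) (var 3) (q 2 100)] 40 cc
      [V.of 10000 0 200, V.of 10000 0 4385, V.of 10000 (-1230) 50, V.of 10000 0 500] = true)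
    (k4 : chkT [eR (q n 100) (var 0) (var 1) (var 2) (var 3) (q 1 100)] 40 cd
      [V.of 10000 0 200, V.of 10000 (-4385) 0, V.of 10000 0 50, V.of 10000 0 500] = true)
    (hw : 0 ≤ w) (hw' : w ≤ 2 / 100) (hσ : -(7634 / 10000) ≤ σ) (hσ' : σ ≤ 4385 / 10000)
    (ht : -(123 / 1000) ≤ t) (ht' : t ≤ 5 / 1000) (hts : t ≤ 0 ∨ -(4385 / 10000) ≤ σ)
    (hr : 0 ≤ r) (hr' : r ≤ 5 / 100) : 0 ≤ GG c r t w (σ * w) := by
  apply GG_ramp hw (by linarith only [hc]) (by linarith only [hc', hw']) hr (by linarith only [hw', hr'])
  intro s hs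
  obtain ⟨s0, s1⟩ := hs
  have hn' : (((n : ℤ) : ℝ) / ((100 : ℕ) : ℝ)) = c := by push_cast; exact hn
  rcases le_total 0 σ with h0 | h0
  · have hp := pos_of_chk (chkT4 k3 (by norm_num) (x := s) (y := σ) (z := t) (w := r)
      (by push_cast; linarith only [s0]) (by push_cast; linarith only [hw', s1]) (by push_cast; linarith only [h0])
      (by push_cast; linarith only [hσ']) (by push_cast; linarith only [ht]) (by push_cast; linarith only [ht'])
      (by push_cast; linarith only [hr]) (by push_cast; linarith only [hr']))
    unfold eQ at hp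
    simp only [E.val, eH_val, NumIs.lkR] at hp
    rw [hn'] at hp
    push_cast at hp
    have := GP_abs (c := c) (r := r) (t := t) (s := s) (σ := σ) (δ := 2 / 100) (by linarith only [hc, hw', s0, s1])
      (by linarith only [hc', hw', s0, s1]) (by linarith only [hr, s0]) (by norm_num) (by linarith only [hw', hr', s0, s1])
    rw [abs_of_nonneg h0] at this
    linarith only [hp, this]
  · have neg : t ≤ 0 → 0 ≤ GP c r t s σ := by
      intro h1
      have hy : 20 * t * r + σ * s ≤ 0 := by nlinarith only [hr, h1, s0, h0]
      rcases le_total r (25 / 1000) with h2 | h2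
      · have hp := pos_of_chk (chkT4 k1 (by norm_num) (x := s) (y := σ) (z := t) (w := r)
          (by push_cast; linarith only [s0]) (by push_cast; linarith only [hw', s1]) (by push_cast; linarith only [hσ])
          (by push_cast; linarith only [h0]) (by push_cast; linarith only [ht]) (by push_cast; linarith only [h1])
          (by push_cast; linarith only [hr]) (by push_cast; linarith only [h2]))
        unfold eN at hp
        simp only [E.val, eH_val, vt_val, NumIs.lkR] at hp
        rw [hn'] at hp
        push_cast at hp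
        have := GP_neg (c := c) (r := r) (t := t) (s := s) (σ := σ) (δ := 2 / 100) (by linarith only [hc, hw', s0, s1])
          (by linarith only [hc', hw', s0, s1]) (by linarith only [hr, s0]) (by norm_num) (by linarith only [hw', hr', s0, s1]) h0 hy
        linarith only [hp, this]
      · have hp := pos_of_chk (chkT4 k2 (by norm_num) (x := s) (y := σ) (z := t) (w := r)
          (by push_cast; linarith only [s0]) (by push_cast; linarith only [hw', s1]) (by push_cast; linarith only [hσ])
          (by push_cast; linarith only [h0]) (by push_cast; linarith only [ht]) (by push_cast; linarith only [h1])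
          (by push_cast; linarith only [h2]) (by push_cast; linarith only [hr']))
        unfold eN at hp
        simp only [E.val, eH_val, vt_val, NumIs.lkR] at hp
        rw [hn'] at hp
        push_cast at hp
        have := GP_neg (c := c) (r := r) (t := t) (s := s) (σ := σ) (δ := 1 / 100) (by linarith only [hc, hw', s0, s1])
          (by linarith only [hc', hw', s0, s1]) (by linarith only [hw', s0, s1, h2]) (by norm_num) (by linarith only [hw', hr', s0, s1]) h0 hy
        linarith only [hp, this]
    rcases hts with h1 | h3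
    · exact neg h1
    rcases le_total t 0 with h1 | h1
    · exact neg h1
    have hp := pos_of_chk (chkT4 k4 (by norm_num) (x := s) (y := σ) (z := t) (w := r)
      (by push_cast; linarith only [s0]) (by push_cast; linarith only [hw', s1]) (by push_cast; linarith only [h3])
      (by push_cast; linarith only [h0]) (by push_cast; linarith only [h1]) (by push_cast; linarith only [ht'])
      (by push_cast; linarith only [hr]) (by push_cast; linarith only [hr']))
    unfold eR at hp
    simp only [E.val, eH_val, NumIs.lkR] at hp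
    rw [hn'] at hp
    push_cast at hp
    have := GP_abs (c := c) (r := r) (t := t) (s := s) (σ := σ) (δ := 1 / 100) (by linarith only [hc, hw', s0, s1])
      (by linarith only [hc', hw', s0, s1]) (by linarith only [hr, s0]) (by norm_num) (by linarith only [hw', hr', s0, s1])
    rw [abs_of_nonpos h0] at this
    linarith only [hp, this]

/-- the hinge on the side `S2` on its path -/
structure HW (w : ℂ) (S : ℝ) : Prop where
  p : (RH w S (65 / 100) (15 / 100) (29 / 100) ∧ w.re ≤ 39 / 100 ∧ -(1145 / 10000) ≤ S ∧
      S ≤ -(21 / 1000)) ∨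
    (RH w S (60 / 100) (13 / 100) (30 / 100) ∧ w.re ≤ 39 / 100 ∧ -(98 / 1000) ≤ S ∧
      S ≤ 57 / 1000)

/-- the three parts of the path -/
theorem HW.cases {w : ℂ} {S : ℝ} (H : HW w S) :
    (∃ σ : ℝ, w.im = σ * w.re ∧ 0 ≤ w.re ∧ w.re ≤ 15 / 100 ∧ -(7634 / 10000) ≤ σ ∧
      σ ≤ 4385 / 10000 ∧ (-(57 / 1000) ≤ S → -(4385 / 10000) ≤ σ)) ∨
    (13 / 100 ≤ w.re ∧ w.re ≤ 39 / 100 ∧ -(1145 / 10000) ≤ w.im ∧ w.im ≤ 57 / 1000) := by
  rcases H.p with ⟨hR, h1, h2, h3⟩ | ⟨hR, h1, h2, h3⟩
  · rcases le_total w.re (15 / 100) with h4 | h4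
    · left
      refine ⟨S / (15 / 100), ?_, hR.re0, h4, ?_, ?_, fun h5 => ?_⟩
      · rw [hR.im, tr_a (by norm_num) (by norm_num) (by norm_num) hR.re0 h4]
        ring
      all_goals linarith
    · right
      refine ⟨by linarith only [h4], h1, ?_⟩
      rcases le_total w.re (36 / 100) with h5 | h5
      · rw [hR.im, tr_b (by norm_num) (by norm_num) h4 (by linarith only [h5]), mul_one]
        constructor <;> linarith only [h2, h3]
      · rw [hR.im, tr_c (by norm_num) (by norm_num) (by norm_num) (by linarith only [h5]) hR.reM]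
        constructor <;> nlinarith only [h2, h5, h1, h3]
  · rcases le_total w.re (13 / 100) with h4 | h4
    · left
      refine ⟨S / (13 / 100), ?_, hR.re0, by linarith only [h4], ?_, ?_, fun h5 => ?_⟩
      · rw [hR.im, tr_a (by norm_num) (by norm_num) (by norm_num) hR.re0 h4]
        ring
      all_goals linarith
    · right
      refine ⟨by linarith only [h4], by linarith only [h1], ?_⟩
      rcases le_total w.re (30 / 100) with h5 | h5
      · rw [hR.im, tr_b (by norm_num) (by norm_num) h4 (by linarith only [h5]), mul_one]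
        constructor <;> linarith only [h2, h3]
      · rw [hR.im, tr_c (by norm_num) (by norm_num) (by norm_num) (by linarith only [h5]) hR.reM]
        constructor <;> nlinarith only [h2, h5, h1, h3]

theorem GG_24 {w : ℂ} (H : HW w S) (ht : -(123 / 1000) ≤ t) (ht' : t ≤ 5 / 1000)
    (hts : t ≤ 0 ∨ -(57 / 1000) ≤ S) (hr : 0 ≤ r) (hr' : r ≤ 5 / 100) :
    0 ≤ GG (24 / 100) r t w.re w.im := by
  have hn : ((24 : ℤ) : ℝ) / 100 = 24 / 100 := by norm_num
  rcases H.cases with ⟨σ, h1, h2, h3, h4, h5, h6⟩ | ⟨h1, h2, h3, h4⟩
  · rw [h1]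
    rcases le_total w.re (2 / 100) with h7 | h7
    · exact GG_small hn (by norm_num) (by norm_num) k_gn24a k_gn24b k_gp24 k_gt24 h2 h7 h4 h5 ht
        ht' (hts.imp_right h6) hr hr'
    · exact (GG_mid hn k_gr24a k_gr24b h7 h3 h4 h5 ht ht' hr hr').le
  · exact (GG_flat hn k_gf24a k_gf24b h1 h2 h3 h4 ht ht' hr hr').le

theorem GG_44 {w : ℂ} (H : HW w S) (ht : -(123 / 1000) ≤ t) (ht' : t ≤ 5 / 1000)
    (hts : t ≤ 0 ∨ -(57 / 1000) ≤ S) (hr : 0 ≤ r) (hr' : r ≤ 5 / 100) :
    0 ≤ GG (44 / 100) r t w.re w.im := by
  have hn : ((44 : ℤ) : ℝ) / 100 = 44 / 100 := by norm_num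
  rcases H.cases with ⟨σ, h1, h2, h3, h4, h5, h6⟩ | ⟨h1, h2, h3, h4⟩
  · rw [h1]
    rcases le_total w.re (2 / 100) with h7 | h7
    · exact GG_small hn (by norm_num) (by norm_num) k_gn44a k_gn44b k_gp44 k_gt44 h2 h7 h4 h5 ht
        ht' (hts.imp_right h6) hr hr'
    · exact (GG_mid hn k_gr44a k_gr44b h7 h3 h4 h5 ht ht' hr hr').le
  · exact (GG_flat hn k_gf44a k_gf44b h1 h2 h3 h4 ht ht' hr hr').le

/-! ### the side `S3`, left ramp -/

theorem DF_plain (hx : 0 ≤ x) (hx' : x ≤ 2 / 100) (hm : -(8808 / 10000) ≤ m)
    (hm' : m ≤ 475 / 1000) (ht : -(123 / 1000) ≤ t) (ht' : t ≤ 5 / 1000) (hr : 25 / 1000 ≤ r)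
    (hr' : r ≤ 5 / 100) : 0 < DF (24 / 100) x (m * x) t r := by
  have hp := pos_of_chk (chkT4 k_d1 (by norm_num) (x := x) (y := m) (z := t) (w := r)
    (by push_cast; linarith only [hx]) (by push_cast; linarith only [hx']) (by push_cast; linarith only [hm])
    (by push_cast; linarith only [hm']) (by push_cast; linarith only [ht]) (by push_cast; linarith only [ht'])
    (by push_cast; linarith only [hr]) (by push_cast; linarith only [hr']))
  rw [eA_val] at hp
  simp only [E.val, NumIs.lkR] at hp
  push_cast at hp
  simp only [zero_div, add_zero, sub_add_cancel] at hp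
  exact hp

theorem DF_near (hx : 0 ≤ x) (hx' : x ≤ 2 / 100) (hm : -(8808 / 10000) ≤ m)
    (hm' : m ≤ 475 / 1000) (ht : -(123 / 1000) ≤ t) (ht' : t ≤ 5 / 1000) (hr : 0 ≤ r)
    (hr' : r ≤ 25 / 1000) : 0 < DF (24 / 100) x (m * x) t r := by
  have hp := pos_of_chk (chkT4 k_d2 (by norm_num) (x := x) (y := m) (z := t) (w := r)
    (by push_cast; linarith only [hx]) (by push_cast; linarith only [hx']) (by push_cast; linarith only [hm])
    (by push_cast; linarith only [hm']) (by push_cast; linarith only [ht]) (by push_cast; linarith only [ht'])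
    (by push_cast; linarith only [hr]) (by push_cast; linarith only [hr']))
  rw [eA_val] at hp
  simp only [E.val, NumIs.lkR] at hp
  push_cast at hp
  have hy : |20 * t * r - m * x| ≤ 14 / 100 := by
    rw [abs_le]
    constructor <;> nlinarith only [hx', hr', hx, hm', ht, hr, ht', hm]
  have h3 := uu_shift (a := r - x) (b := r - x + 225 / 10000) (by linarith only [hx', hr]) (by linarith only [])
    (by linarith only [hx, hr']) hy
  linarith only [hp, h3]

theorem DF_y (hx : 0 ≤ x) (hx' : x ≤ 6 / 100) (hm : -(8808 / 10000) ≤ m)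
    (hm' : m ≤ 475 / 1000) (ht : -(123 / 1000) ≤ t) (ht' : t ≤ 5 / 1000) (hr : 0 ≤ r)
    (hr' : r ≤ 5 / 100) (hl : -(107 / 1000) ≤ t - 12 / 100 * m) :
    |20 * t * r - m * x| ≤ 14 / 100 := by
  have h1 : 20 * t * r ≤ 5 / 1000 := by nlinarith only [ht', ht, hr', hr]
  have h2 : t ≤ 20 * t * r ∨ 0 ≤ 20 * t * r := by
    rcases le_total t 0 with h | h
    · left
      nlinarith only [hr', h]
    · right
      positivity
  have h3 : -(8808 / 10000 * (6 / 100)) ≤ m * x := by nlinarith only [hx', hx, hm]
  have h4 : 0 ≤ m → m * x ≤ m * (6 / 100) := fun h => mul_le_mul_of_nonneg_left hx' h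
  have h5 : m ≤ 0 → m * x ≤ 0 := fun h => mul_nonpos_of_nonpos_of_nonneg h hx
  rw [abs_le]
  constructor
  · rcases le_total 0 m with h | h
    · have := h4 h
      rcases h2 with h2 | h2 <;> linarith only [hl, h, this, h2, hm']
    · have := h5 h
      rcases h2 with h2 | h2 <;> linarith only [ht, this, h2]
  · linarith only [h1, h3]

theorem DF_cell {l1 h1 : ℤ} {ca cb cc : ℕ}
    (k1 : chkT lS 40 ca [V.of 10000 l1 h1, V.of 10000 (-8808) 4750, V.of 10000 (-1230) 50,
      V.of 10000 0 500] = true)
    (k2 : chkT lM 40 cb [V.of 10000 l1 h1, V.of 10000 (-8808) 4750, V.of 10000 (-1230) 50,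
      V.of 10000 0 500] = true)
    (k3 : chkT lP 40 cc [V.of 10000 l1 h1, V.of 10000 (-8808) 4750, V.of 10000 (-1230) 50,
      V.of 10000 0 500] = true)
    (h0 : 2 / 100 ≤ x) (h6 : x ≤ 6 / 100) (hx : (l1 : ℝ) / 10000 ≤ x) (hx' : x ≤ (h1 : ℝ) / 10000)
    (hm : -(8808 / 10000) ≤ m) (hm' : m ≤ 475 / 1000) (ht : -(123 / 1000) ≤ t)
    (ht' : t ≤ 5 / 1000) (hr : 0 ≤ r) (hr' : r ≤ 5 / 100) (hl : -(107 / 1000) ≤ t - 12 / 100 * m) :
    0 < DF (24 / 100) x (m * x) t r := by
  have hx2 : (l1 : ℝ) / ((10000 : ℕ) : ℝ) ≤ x := by push_cast; exact hx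
  have hx3 : x ≤ (h1 : ℝ) / ((10000 : ℕ) : ℝ) := by push_cast; exact hx'
  rcases le_total (x - r) (8 / 1000) with h2 | h2
  · obtain ⟨e, he, hp⟩ := chkT4 k1 (by norm_num) (x := x) (y := m) (z := t) (w := r)
      hx2 hx3 (by push_cast; linarith only [hm])
      (by push_cast; linarith only [hm']) (by push_cast; linarith only [ht]) (by push_cast; linarith only [ht'])
      (by push_cast; linarith only [h0, h2]) (by push_cast; linarith only [hr'])
    have hy := DF_y (by linarith only [h0]) h6 hm hm' ht ht' hr hr' hl
    simp only [lS, List.mem_cons, List.not_mem_nil, or_false] at he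
    rcases he with rfl | rfl | rfl | rfl | rfl | rfl
    · rw [eA_val] at hp
      simp only [E.val, NumIs.lkR] at hp
      push_cast at hp
      have h3 := uu_shift (a := r - x) (b := r - x + 4 / 1000) (by linarith only [h2]) (by linarith only [])
        (by linarith only [h0, hr']) hy
      linarith only [hp, h3]
    · rw [eA_val] at hp
      simp only [E.val, NumIs.lkR] at hp
      push_cast at hp
      have h3 := uu_shift (a := r - x) (b := r - x + 1 / 100) (by linarith only [h2]) (by linarith only [])
        (by linarith only [h0, hr']) hy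
      linarith only [hp, h3]
    · rw [eA_val] at hp
      simp only [E.val, NumIs.lkR] at hp
      push_cast at hp
      have h3 := uu_shift (a := r - x) (b := r - x + 125 / 10000) (by linarith only [h2]) (by linarith only [])
        (by linarith only [h0, hr']) hy
      linarith only [hp, h3]
    · rw [eA_val] at hp
      simp only [E.val, NumIs.lkR] at hp
      push_cast at hp
      have h3 := uu_shift (a := r - x) (b := r - x + 2 / 100) (by linarith only [h2]) (by linarith only [])
        (by linarith only [h0, hr']) hy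
      linarith only [hp, h3]
    · simp only [E.val, NumIs.lkR] at hp
      push_cast at hp
      linarith only [h2, hp]
    · simp only [eL, E.val, NumIs.lkR] at hp
      push_cast at hp
      linarith only [hl, hp]
  · rcases le_total 0 (20 * t * r - m * x) with h3 | h3
    · obtain ⟨e, he, hp⟩ := chkT4 k2 (by norm_num) (x := x) (y := m) (z := t) (w := r)
        hx2 hx3 (by push_cast; linarith only [hm])
        (by push_cast; linarith only [hm']) (by push_cast; linarith only [ht]) (by push_cast; linarith only [ht'])
        (by push_cast; linarith only [hr]) (by push_cast; linarith only [hr'])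
      simp only [lM, List.mem_cons, List.not_mem_nil, or_false] at he
      rcases he with rfl | rfl | rfl | rfl
      · rw [eM_val] at hp
        simp only [E.val, NumIs.lkR] at hp
        push_cast at hp
        rw [abs_of_nonneg h3, sub_self, mul_zero, add_zero] at hp
        exact hp
      · simp only [E.val, yD, vt_val, NumIs.lkR] at hp
        linarith only [h3, hp]
      · simp only [E.val, NumIs.lkR] at hp
        push_cast at hp
        linarith only [h2, hp]
      · simp only [eL, E.val, NumIs.lkR] at hp
        push_cast at hp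
        linarith only [hl, hp]
    · obtain ⟨e, he, hp⟩ := chkT4 k3 (by norm_num) (x := x) (y := m) (z := t) (w := r)
        hx2 hx3 (by push_cast; linarith only [hm])
        (by push_cast; linarith only [hm']) (by push_cast; linarith only [ht]) (by push_cast; linarith only [ht'])
        (by push_cast; linarith only [hr]) (by push_cast; linarith only [hr'])
      simp only [lP, List.mem_cons, List.not_mem_nil, or_false] at he
      rcases he with rfl | rfl | rfl | rfl
      · rw [eP_val] at hp
        simp only [E.val, NumIs.lkR] at hp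
        push_cast at hp
        rw [abs_of_nonpos h3, neg_add_cancel, mul_zero, add_zero] at hp
        exact hp
      · simp only [E.val, yD, vt_val, NumIs.lkR] at hp
        linarith only [h3, hp]
      · simp only [E.val, NumIs.lkR] at hp
        push_cast at hp
        linarith only [h2, hp]
      · simp only [eL, E.val, NumIs.lkR] at hp
        push_cast at hp
        linarith only [hl, hp]

theorem DF_far (hx : 6 / 100 ≤ x) (hx' : x ≤ 13 / 100)
    (hm : -(8808 / 10000) ≤ m) (hm' : m ≤ 475 / 1000) (ht : -(123 / 1000) ≤ t)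
    (ht' : t ≤ 5 / 1000) (hr : 0 ≤ r) (hr' : r ≤ 5 / 100) (hl : -(107 / 1000) ≤ t - 12 / 100 * m) :
    0 < DF (24 / 100) x (m * x) t r := by
  rcases le_total 0 (20 * t * r - m * x) with h3 | h3
  · obtain ⟨e, he, hp⟩ := chkT4 k_dm4 (by norm_num) (x := x) (y := m) (z := t) (w := r)
      (by push_cast; linarith only [hx]) (by push_cast; linarith only [hx']) (by push_cast; linarith only [hm])
      (by push_cast; linarith only [hm']) (by push_cast; linarith only [ht]) (by push_cast; linarith only [ht'])
      (by push_cast; linarith only [hr]) (by push_cast; linarith only [hr'])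
    simp only [lM, List.mem_cons, List.not_mem_nil, or_false] at he
    rcases he with rfl | rfl | rfl | rfl
    · rw [eM_val] at hp
      simp only [E.val, NumIs.lkR] at hp
      push_cast at hp
      rw [abs_of_nonneg h3, sub_self, mul_zero, add_zero] at hp
      exact hp
    · simp only [E.val, yD, vt_val, NumIs.lkR] at hp
      linarith only [h3, hp]
    · simp only [E.val, NumIs.lkR] at hp
      push_cast at hp
      linarith only [hx, hr', hp]
    · simp only [eL, E.val, NumIs.lkR] at hp
      push_cast at hp
      linarith only [hl, hp]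
  · obtain ⟨e, he, hp⟩ := chkT4 k_dp4 (by norm_num) (x := x) (y := m) (z := t) (w := r)
      (by push_cast; linarith only [hx]) (by push_cast; linarith only [hx']) (by push_cast; linarith only [hm])
      (by push_cast; linarith only [hm']) (by push_cast; linarith only [ht]) (by push_cast; linarith only [ht'])
      (by push_cast; linarith only [hr]) (by push_cast; linarith only [hr'])
    simp only [lP, List.mem_cons, List.not_mem_nil, or_false] at he
    rcases he with rfl | rfl | rfl | rfl
    · rw [eP_val] at hp
      simp only [E.val, NumIs.lkR] at hp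
      push_cast at hp
      rw [abs_of_nonpos h3, neg_add_cancel, mul_zero, add_zero] at hp
      exact hp
    · simp only [E.val, yD, vt_val, NumIs.lkR] at hp
      linarith only [h3, hp]
    · simp only [E.val, NumIs.lkR] at hp
      push_cast at hp
      linarith only [hx, hr', hp]
    · simp only [eL, E.val, NumIs.lkR] at hp
      push_cast at hp
      linarith only [hl, hp]

/-- **The side `S3`, left ramp of the hinge.** -/
theorem DF_ramp (hx : 0 ≤ x) (hx' : x ≤ 13 / 100)
    (hm : -(8808 / 10000) ≤ m) (hm' : m ≤ 475 / 1000) (ht : -(123 / 1000) ≤ t)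
    (ht' : t ≤ 5 / 1000) (hr : 0 ≤ r) (hr' : r ≤ 5 / 100) (hl : -(107 / 1000) ≤ t - 12 / 100 * m) :
    0 < DF (24 / 100) x (m * x) t r := by
  rcases le_total x (6 / 100) with h6 | h6
  · rcases le_total x (2 / 100) with h2 | h2
    · rcases le_total (25 / 1000) r with h | h
      · exact DF_plain hx h2 hm hm' ht ht' h hr'
      · exact DF_near hx h2 hm hm' ht ht' hr h
    · rcases le_total x (3 / 100) with h3 | h3
      · exact DF_cell k_ds0 k_dm0 k_dp0 h2 h6 (by push_cast; linarith only [h2]) (by push_cast; linarith only [h3])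
          hm hm' ht ht' hr hr' hl
      · rcases le_total x (4 / 100) with h4 | h4
        · exact DF_cell k_ds1 k_dm1 k_dp1 h2 h6 (by push_cast; linarith only [h3]) (by push_cast; linarith only [h4])
            hm hm' ht ht' hr hr' hl
        · rcases le_total x (5 / 100) with h5 | h5
          · exact DF_cell k_ds2 k_dm2 k_dp2 h2 h6 (by push_cast; linarith only [h4])
              (by push_cast; linarith only [h5]) hm hm' ht ht' hr hr' hl
          · exact DF_cell k_ds3 k_dm3 k_dp3 h2 h6 (by push_cast; linarith only [h5])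
              (by push_cast; linarith only [h6]) hm hm' ht ht' hr hr' hl
  · exact DF_far h6 hx' hm hm' ht ht' hr hr' hl

/-! ### the side `S3`, level part -/

theorem DF_level {n s0 s1 l1 h1 l2 h2 l3 h3 : ℤ} {ca cb : ℕ}
    (k1 : chkT (fM n s0 s1) 40 ca [V.of 10000 l1 h1, V.of 10000 l2 h2, V.of 10000 l3 h3,
      V.of 10000 0 500] = true)
    (k2 : chkT (fP n s0 s1) 40 cb [V.of 10000 l1 h1, V.of 10000 l2 h2, V.of 10000 l3 h3,
      V.of 10000 0 500] = true) (hn : (n : ℝ) / 100 = c)
    (hx : (l1 : ℝ) / 10000 ≤ x) (hx' : x ≤ (h1 : ℝ) / 10000)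
    (hh : (l2 : ℝ) / 10000 ≤ h) (hh' : h ≤ (h2 : ℝ) / 10000)
    (ht : (l3 : ℝ) / 10000 ≤ t) (ht' : t ≤ (h3 : ℝ) / 10000)
    (hr : 0 ≤ r) (hr' : r ≤ 5 / 100) (hs : (s0 : ℝ) / 1000 ≤ t - h) (hs' : t - h ≤ (s1 : ℝ) / 1000) :
    0 < DF c x h t r := by
  have hn' : (((n : ℤ) : ℝ) / ((100 : ℕ) : ℝ)) = c := by push_cast; exact hn
  rcases le_total 0 (20 * t * r - h) with h3 | h3
  · obtain ⟨e, he, hp⟩ := chkT4 k1 (by norm_num) (x := x) (y := h) (z := t) (w := r)
      (by push_cast; exact hx) (by push_cast; exact hx') (by push_cast; exact hh)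
      (by push_cast; exact hh') (by push_cast; exact ht) (by push_cast; exact ht')
      (by push_cast; linarith only [hr]) (by push_cast; linarith only [hr'])
    simp only [fM, List.mem_cons, List.not_mem_nil, or_false] at he
    rcases he with rfl | rfl | rfl | rfl
    · rw [eM_val] at hp
      simp only [E.val, NumIs.lkR] at hp
      rw [abs_of_nonneg h3, sub_self, mul_zero, add_zero, hn'] at hp
      exact hp
    · simp only [E.val, yD, vt_val, NumIs.lkR] at hp
      linarith only [h3, hp]
    · simp only [E.val, NumIs.lkR] at hp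
      push_cast at hp
      linarith only [hs, hp]
    · simp only [E.val, NumIs.lkR] at hp
      push_cast at hp
      linarith only [hs', hp]
  · obtain ⟨e, he, hp⟩ := chkT4 k2 (by norm_num) (x := x) (y := h) (z := t) (w := r)
      (by push_cast; exact hx) (by push_cast; exact hx') (by push_cast; exact hh)
      (by push_cast; exact hh') (by push_cast; exact ht) (by push_cast; exact ht')
      (by push_cast; linarith only [hr]) (by push_cast; linarith only [hr'])
    simp only [fP, List.mem_cons, List.not_mem_nil, or_false] at he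
    rcases he with rfl | rfl | rfl | rfl
    · rw [eP_val] at hp
      simp only [E.val, NumIs.lkR] at hp
      rw [abs_of_nonpos h3, neg_add_cancel, mul_zero, add_zero, hn'] at hp
      exact hp
    · simp only [E.val, yD, vt_val, NumIs.lkR] at hp
      linarith only [h3, hp]
    · simp only [E.val, NumIs.lkR] at hp
      push_cast at hp
      linarith only [hs, hp]
    · simp only [E.val, NumIs.lkR] at hp
      push_cast at hp
      linarith only [hs', hp]

end VL

end Pool.Agent.Work.MP_b30479_gtS.G2

end

section

/-!
# The slot 0 of an inner digit `3` next to a ring, right ramp: joint moves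

The hinge moves to `X`, the inner variable to `c`; the values of the digit.
-/

namespace Pool.Agent.Work.MP_b30479_gtS.G2

open VOL NumUs

namespace VL

namespace SZ3

open S33 (yl yr)

/-- the value after a move of the hinge and of the inner variable -/
theorem V3_joint {u v u' v' w : ℂ} : V3 u' v' w - V3 u v w =
    (Real.pi * ((1 / 2 - u'.re) * v'.im - u'.im * v'.re - v'.re * v'.im) -
      uu (v'.re - u'.re) (v'.im - u'.im) - uu u'.re u'.im) -
    (Real.pi * ((1 / 2 - u.re) * v.im - u.im * v.re - v.re * v.im) - uu u.re u.im) +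
      UU (v - u) + S33.g0 v'.re v.re v.im v'.im w.re w.im := by
  have e1 : ∀ u v : ℂ, (2 * u * v + (v - w) ^ 2 - v + w).im =
      2 * (u.re * v.im + u.im * v.re) + 2 * (v.re - w.re) * (v.im - w.im) - v.im + w.im := by
    intro u v
    simp only [pow_two, Complex.add_im, Complex.sub_im, Complex.sub_re, Complex.mul_im,
      Complex.mul_re, Complex.re_ofNat, Complex.im_ofNat]
    ring
  unfold V3 S33.g0
  rw [e1, e1, UU_uu (v' + w), UU_uu (v' - u'), UU_uu v', UU_uu (v + w), UU_uu v, UU_uu u',
    UU_uu u]
  simp only [Complex.add_re, Complex.add_im, Complex.sub_re, Complex.sub_im]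
  ring

theorem V3_joint' {X c T t : ℝ} {u v w : ℂ} (hu : u.im = S33.hR u.re T) :
    V3 ⟨X, S33.hR X T⟩ (lv c t) w - V3 u v w =
      jn X c T t - jo u.re T v.re v.im + UU (v - u) +
        S33.g0 c v.re v.im t w.re w.im := by
  rw [V3_joint, lv_re, lv_im, hu]
  rfl

/-! ### the value of the difference -/

theorem z0_le {T : ℝ} {u v : ℂ} (hu : u.im = S33.hR u.re T) (h : v.im ≤ S33.hR u.re T) :
    z0 u.re T v.re v.im ≤ UU (v - u) := by
  have e := UU_neg (u - v)
  rw [neg_sub, UU_uu (u - v), Complex.sub_re, Complex.sub_im, hu,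
    abs_of_nonneg (by linarith only [h])] at e
  rw [e]
  unfold z0
  linarith only []

theorem z1_le {T : ℝ} {u v : ℂ} (hu : u.im = S33.hR u.re T) (h0 : 0 ≤ S33.hR u.re T)
    (h : 0 ≤ v.im) : z1 u.re T v.re v.im ≤ UU (v - u) := by
  have e := UU_neg (u - v)
  rw [neg_sub, UU_uu (u - v), Complex.sub_re, Complex.sub_im, hu] at e
  have h1 : |S33.hR u.re T - v.im| ≤ S33.hR u.re T + v.im := by
    rw [abs_le]
    constructor <;> linarith only [h0, h]
  have h2 := mul_le_mul_of_nonneg_left h1 Real.pi_pos.le
  rw [e]
  unfold z1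
  linarith only [h2]

theorem z3_le {T : ℝ} {u v : ℂ} (hu : u.im = S33.hR u.re T)
    (h : |v.re - u.re| ≤ 1 / 6) : z3 u.re T v.re v.im ≤ UU (v - u) := by
  obtain ⟨h1, h2⟩ := abs_le.1 h
  have e := MR.UU_near (a := v.re - u.re + 1) (b := 1 / 6 + 1) (t := v.im - S33.hR u.re T)
    (by linarith only [h1]) (by linarith only [h2]) (by linarith only [])
  rw [MR.UU_add_one', MR.UU_add_one', S33.nearL_lnA] at e
  have e1 : UU (v - u) = UU ⟨v.re - u.re, v.im - S33.hR u.re T⟩ := by
    rw [UU_uu, Complex.sub_re, Complex.sub_im, hu]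
    rfl
  have e2 : UU ⟨1 / 6, v.im - S33.hR u.re T⟩ = uu (1 / 6) (v.im - S33.hR u.re T) := rfl
  rw [e1]
  unfold z3
  rw [← e2]
  linarith only [e]

/-! ### the part of the hinge -/

/-- windows of the heights -/
structure Wn (T t : ℝ) : Prop where
  T0 : 0 ≤ T
  T1 : T ≤ 57 / 1000
  t1 : t ≤ 5 / 1000
  d0 : T - t ≤ 105 / 1000
  d1 : t - T ≤ 28 / 1000

variable {x T r t y : ℝ}

theorem d_l (H : Wn T t) (hx : 38 / 100 ≤ x) (hx' : x ≤ 60 / 100) (hr : 0 ≤ r)
    (hr' : r ≤ 5 / 100) (hy : y = 20 * (t * r)) :
    (t ≤ 0 → 0 < jn (30 / 100) (44 / 100) T t - jo x T r y + z0 x T r y) ∧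
      (0 ≤ t → 0 < jn (30 / 100) (44 / 100) T t - jo x T r y + z1 x T r y) := by
  obtain ⟨h1, h2, h3, h4, h5⟩ := H
  constructor
  · intro h0
    obtain ⟨f, hf, hq⟩ := chkT4 k_Dlm (by norm_num) (x := x) (y := T) (z := r) (w := t)
      (by push_cast; linarith only [hx]) (by push_cast; linarith only [hx']) (by push_cast; linarith only [h1])
      (by push_cast; linarith only [h2]) (by push_cast; linarith only [hr]) (by push_cast; linarith only [hr'])
      (by push_cast; linarith only [h1, h4]) (by push_cast; linarith only [h0])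
    simp only [List.mem_cons, List.not_mem_nil, or_false] at hf
    rcases hf with rfl | rfl
    · simp only [eD_val, eZ0_val, yl, E.val, NumIs.lkR] at hq
      push_cast at hq
      rw [div_one, ← hy] at hq
      exact hq
    · simp only [E.val, NumIs.lkR] at hq
      push_cast at hq
      linarith only [h4, hq]
  · intro h0
    obtain ⟨f, hf, hq⟩ := chkT4 k_Dlp (by norm_num) (x := x) (y := T) (z := r) (w := t)
      (by push_cast; linarith only [hx]) (by push_cast; linarith only [hx']) (by push_cast; linarith only [h1])
      (by push_cast; linarith only [h2]) (by push_cast; linarith only [hr]) (by push_cast; linarith only [hr'])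
      (by push_cast; linarith only [h0]) (by push_cast; linarith only [h3])
    simp only [List.mem_cons, List.not_mem_nil, or_false] at hf
    rcases hf with rfl | rfl
    · simp only [eD_val, eZ1_val, yl, E.val, NumIs.lkR] at hq
      push_cast at hq
      rw [div_one, ← hy] at hq
      exact hq
    · simp only [E.val, NumIs.lkR] at hq
      push_cast at hq
      linarith only [h1, h3, hq]

theorem d_a (H : Wn T t) (hx : 38 / 100 ≤ x) (hx' : x ≤ 60 / 100) (hr : 5 / 100 ≤ r)
    (hr' : r ≤ 16 / 100) :
    (t ≤ 0 → gB r < jn (30 / 100) (42 / 100) T t - jo x T r t + z0 x T r t) ∧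
      (0 ≤ t → gB r < jn (30 / 100) (42 / 100) T t - jo x T r t + z1 x T r t) := by
  obtain ⟨h1, h2, h3, h4, h5⟩ := H
  constructor
  · intro h0
    obtain ⟨f, hf, hq⟩ := chkT4 k_Dam (by norm_num) (x := x) (y := T) (z := r) (w := t)
      (by push_cast; linarith only [hx]) (by push_cast; linarith only [hx']) (by push_cast; linarith only [h1])
      (by push_cast; linarith only [h2]) (by push_cast; linarith only [hr]) (by push_cast; linarith only [hr'])
      (by push_cast; linarith only [h1, h4]) (by push_cast; linarith only [h0])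
    simp only [List.mem_cons, List.not_mem_nil, or_false] at hf
    rcases hf with rfl | rfl
    · simp only [eD_val, eZ0_val, egB_val, E.val, NumIs.lkR] at hq
      push_cast at hq
      linarith only [hq]
    · simp only [E.val, NumIs.lkR] at hq
      push_cast at hq
      linarith only [h4, hq]
  · intro h0
    obtain ⟨f, hf, hq⟩ := chkT4 k_Dap (by norm_num) (x := x) (y := T) (z := r) (w := t)
      (by push_cast; linarith only [hx]) (by push_cast; linarith only [hx']) (by push_cast; linarith only [h1])
      (by push_cast; linarith only [h2]) (by push_cast; linarith only [hr]) (by push_cast; linarith only [hr'])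
      (by push_cast; linarith only [h0]) (by push_cast; linarith only [h3])
    simp only [List.mem_cons, List.not_mem_nil, or_false] at hf
    rcases hf with rfl | rfl
    · simp only [eD_val, eZ1_val, egB_val, E.val, NumIs.lkR] at hq
      push_cast at hq
      linarith only [hq]
    · simp only [E.val, NumIs.lkR] at hq
      push_cast at hq
      linarith only [h1, h3, hq]

theorem d_b (H : Wn T t) (hx : 38 / 100 ≤ x) (hx' : x ≤ 60 / 100) (hr : 16 / 100 ≤ r)
    (hr' : r ≤ x - 13 / 100) :
    (t ≤ 0 → 85 / 1000 < jn (30 / 100) (42 / 100) T t - jo x T r t + z0 x T r t) ∧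
      (0 ≤ t → 85 / 1000 < jn (30 / 100) (42 / 100) T t - jo x T r t + z1 x T r t) := by
  obtain ⟨h1, h2, h3, h4, h5⟩ := H
  constructor
  · intro h0
    obtain ⟨f, hf, hq⟩ := chkT4 k_Dbm (by norm_num) (x := x) (y := T) (z := r) (w := t)
      (by push_cast; linarith only [hx]) (by push_cast; linarith only [hx']) (by push_cast; linarith only [h1])
      (by push_cast; linarith only [h2]) (by push_cast; linarith only [hr]) (by push_cast; linarith only [hx', hr'])
      (by push_cast; linarith only [h1, h4]) (by push_cast; linarith only [h0])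
    simp only [List.mem_cons, List.not_mem_nil, or_false] at hf
    rcases hf with rfl | rfl | rfl
    · simp only [eD_val, eZ0_val, E.val, NumIs.lkR] at hq
      push_cast at hq
      linarith only [hq]
    · simp only [E.val, NumIs.lkR] at hq
      push_cast at hq
      linarith only [h4, hq]
    · simp only [E.val, NumIs.lkR] at hq
      push_cast at hq
      linarith only [hr', hq]
  · intro h0
    obtain ⟨f, hf, hq⟩ := chkT4 k_Dbp (by norm_num) (x := x) (y := T) (z := r) (w := t)
      (by push_cast; linarith only [hx]) (by push_cast; linarith only [hx']) (by push_cast; linarith only [h1])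
      (by push_cast; linarith only [h2]) (by push_cast; linarith only [hr]) (by push_cast; linarith only [hx', hr'])
      (by push_cast; linarith only [h0]) (by push_cast; linarith only [h3])
    simp only [List.mem_cons, List.not_mem_nil, or_false] at hf
    rcases hf with rfl | rfl | rfl
    · simp only [eD_val, eZ1_val, E.val, NumIs.lkR] at hq
      push_cast at hq
      linarith only [hq]
    · simp only [E.val, NumIs.lkR] at hq
      push_cast at hq
      linarith only [h1, h3, hq]
    · simp only [E.val, NumIs.lkR] at hq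
      push_cast at hq
      linarith only [hr', hq]

theorem d_n (H : Wn T t) (hx : 50 / 100 ≤ x) (hx' : x ≤ 60 / 100) (hr : x - 13 / 100 ≤ r)
    (hr' : r ≤ x + 13 / 100) (hT : 35 / 1000 ≤ T) (h0 : 0 ≤ t) (hh : S33.hR x T ≤ t) :
    6 / 100 < jn (30 / 100) (42 / 100) T t - jo x T r t + z3 x T r t := by
  obtain ⟨h1, h2, h3, h4, h5⟩ := H
  obtain ⟨f, hf, hq⟩ := chkT4 k_Dn (by norm_num) (x := x) (y := T) (z := r) (w := t)
    (by push_cast; linarith only [hx]) (by push_cast; linarith only [hx']) (by push_cast; linarith only [hT])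
    (by push_cast; linarith only [h2]) (by push_cast; linarith only [hx, hr]) (by push_cast; linarith only [hx', hr'])
    (by push_cast; linarith only [h0]) (by push_cast; linarith only [h3])
  simp only [List.mem_cons, List.not_mem_nil, or_false] at hf
  rcases hf with rfl | rfl | rfl | rfl
  · simp only [eD_val, eZ3_val, E.val, NumIs.lkR] at hq
    push_cast at hq
    linarith only [hq]
  · simp only [S33.eH_val, E.val, NumIs.lkR] at hq
    linarith only [hh, hq]
  · simp only [E.val, NumIs.lkR] at hq
    push_cast at hq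
    linarith only [hr, hq]
  · simp only [E.val, NumIs.lkR] at hq
    push_cast at hq
    linarith only [hr', hq]

theorem d_h (H : Wn T t) (hx : 50 / 100 ≤ x) (hx' : x ≤ 60 / 100) (hr : 75 / 100 ≤ r)
    (hr' : r ≤ 80 / 100) (hy : y = t * (20 * (8 / 10 - r))) :
    gH r t < jn (38 / 100) (58 / 100) T t - jo x T r y + uu (r - x) (y - S33.hR x T) := by
  obtain ⟨h1, h2, h3, h4, h5⟩ := H
  obtain ⟨f, hf, hq⟩ := chkT4 k_Dh (by norm_num) (x := x) (y := T) (z := r) (w := t)
    (by push_cast; linarith only [hx]) (by push_cast; linarith only [hx']) (by push_cast; linarith only [h1])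
    (by push_cast; linarith only [h2]) (by push_cast; linarith only [hr]) (by push_cast; linarith only [hr'])
    (by push_cast; linarith only [h1, h4]) (by push_cast; linarith only [h3])
  simp only [List.mem_cons, List.not_mem_nil, or_false] at hf
  rcases hf with rfl | rfl | rfl
  · simp only [eD_val, eZ2_val, egH_val, yr, E.val, NumIs.lkR] at hq
    push_cast at hq
    rw [div_one, ← hy] at hq
    linarith only [hq]
  · simp only [E.val, NumIs.lkR] at hq
    push_cast at hq
    linarith only [h4, hq]
  · simp only [E.val, NumIs.lkR] at hq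
    push_cast at hq
    linarith only [h1, h3, hq]

/-! ### the part of the hinge in slot 2 -/

variable {S : ℝ} {w : ℂ}

theorem G_a (t0 : -(105 / 1000) ≤ t) (t1 : t ≤ 5 / 1000) (hr : 5 / 100 ≤ r)
    (hr' : r ≤ 16 / 100) (H : HW w S) : 0 < S33.g0 (42 / 100) r t t w.re w.im + gB r := by
  rcases H.cases with ⟨σ, h1, h2, h3, h4, h5, -⟩ | ⟨h1, h2, h3, h4⟩
  · obtain ⟨f, hf, hq⟩ := chkT4 k_Gar (by norm_num) (x := r) (y := t) (z := w.re) (w := σ)
      (by push_cast; linarith only [hr]) (by push_cast; linarith only [hr']) (by push_cast; linarith only [t0])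
      (by push_cast; linarith only [t1]) (by push_cast; linarith only [h2]) (by push_cast; linarith only [h3])
      (by push_cast; linarith only [h4]) (by push_cast; linarith only [h5])
    simp only [List.mem_cons, List.not_mem_nil, or_false] at hf
    subst hf
    simp only [S33.eG_val, egB_val, E.val, NumIs.lkR] at hq
    push_cast at hq
    rw [← h1] at hq
    exact hq
  · obtain ⟨f, hf, hq⟩ := chkT4 k_Gaf (by norm_num) (x := r) (y := t) (z := w.re) (w := w.im)
      (by push_cast; linarith only [hr]) (by push_cast; linarith only [hr']) (by push_cast; linarith only [t0])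
      (by push_cast; linarith only [t1]) (by push_cast; linarith only [h1]) (by push_cast; linarith only [h2])
      (by push_cast; linarith only [h3]) (by push_cast; linarith only [h4])
    simp only [List.mem_cons, List.not_mem_nil, or_false] at hf
    subst hf
    simp only [S33.eG_val, egB_val, E.val, NumIs.lkR] at hq
    push_cast at hq
    exact hq

theorem G_b (t0 : -(105 / 1000) ≤ t) (t1 : t ≤ 5 / 1000) (hr : 16 / 100 ≤ r)
    (hr' : r ≤ 47 / 100) (H : HW w S) : 0 < S33.g0 (42 / 100) r t t w.re w.im + 85 / 1000 := by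
  rcases H.cases with ⟨σ, h1, h2, h3, h4, h5, -⟩ | ⟨h1, h2, h3, h4⟩
  · obtain ⟨f, hf, hq⟩ := chkT4 k_Gbr (by norm_num) (x := r) (y := t) (z := w.re) (w := σ)
      (by push_cast; linarith only [hr]) (by push_cast; linarith only [hr']) (by push_cast; linarith only [t0])
      (by push_cast; linarith only [t1]) (by push_cast; linarith only [h2]) (by push_cast; linarith only [h3])
      (by push_cast; linarith only [h4]) (by push_cast; linarith only [h5])
    simp only [List.mem_cons, List.not_mem_nil, or_false] at hf
    subst hf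
    simp only [S33.eG_val, E.val, NumIs.lkR] at hq
    push_cast at hq
    rw [← h1] at hq
    exact hq
  · obtain ⟨f, hf, hq⟩ := chkT4 k_Gbf (by norm_num) (x := r) (y := t) (z := w.re) (w := w.im)
      (by push_cast; linarith only [hr]) (by push_cast; linarith only [hr']) (by push_cast; linarith only [t0])
      (by push_cast; linarith only [t1]) (by push_cast; linarith only [h1]) (by push_cast; linarith only [h2])
      (by push_cast; linarith only [h3]) (by push_cast; linarith only [h4])
    simp only [List.mem_cons, List.not_mem_nil, or_false] at hf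
    subst hf
    simp only [S33.eG_val, E.val, NumIs.lkR] at hq
    push_cast at hq
    exact hq

/-- upper bound of the value at `r + w` -/
theorem g1_le {c r y t w h U : ℝ} (hU : uu (r + w) (y + h) ≤ U) :
    g1 c r y t w h U ≤ S33.g0 c r y t w h := by
  rw [g0_g1]
  unfold g1
  linarith only [hU]

theorem G_n (t0 : 0 ≤ t) (t1 : t ≤ 5 / 1000) (hr : 37 / 100 ≤ r)
    (hr' : r ≤ 73 / 100) (H : HW w S) : 0 < S33.g0 (42 / 100) r t t w.re w.im + 6 / 100 := by
  rcases H.cases with ⟨σ, h1, h2, h3, h4, h5, -⟩ | ⟨h1, h2, h3, h4⟩
  · obtain ⟨f, hf, hq⟩ := chkT4 k_Gnr (by norm_num) (x := r) (y := t) (z := w.re) (w := σ)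
      (by push_cast; linarith only [hr]) (by push_cast; linarith only [hr']) (by push_cast; linarith only [t0])
      (by push_cast; linarith only [t1]) (by push_cast; linarith only [h2]) (by push_cast; linarith only [h3])
      (by push_cast; linarith only [h4]) (by push_cast; linarith only [h5])
    simp only [List.mem_cons, List.not_mem_nil, or_false] at hf
    subst hf
    simp only [S33.eG_val, E.val, NumIs.lkR] at hq
    push_cast at hq
    rw [← h1] at hq
    exact hq
  · rcases le_total (r + w.re) (5 / 6) with h5 | h5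
    · obtain ⟨f, hf, hq⟩ := chkT4 k_GnA (by norm_num) (x := r) (y := t) (z := w.re) (w := w.im)
        (by push_cast; linarith only [hr]) (by push_cast; linarith only [hr']) (by push_cast; linarith only [t0])
        (by push_cast; linarith only [t1]) (by push_cast; linarith only [h1]) (by push_cast; linarith only [h2])
        (by push_cast; linarith only [h3]) (by push_cast; linarith only [h4])
      simp only [List.mem_cons, List.not_mem_nil, or_false] at hf
      rcases hf with rfl | rfl
      · simp only [S33.eG_val, E.val, NumIs.lkR] at hq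
        push_cast at hq
        exact hq
      · simp only [E.val, NumIs.lkR] at hq
        push_cast at hq
        linarith only [h5, hq]
    · obtain ⟨f, hf, hq⟩ := chkT4 k_GnB (by norm_num) (x := r) (y := t) (z := w.re) (w := w.im)
        (by push_cast; linarith only [hr]) (by push_cast; linarith only [hr']) (by push_cast; linarith only [t0])
        (by push_cast; linarith only [t1]) (by push_cast; linarith only [h1]) (by push_cast; linarith only [h2])
        (by push_cast; linarith only [h3]) (by push_cast; linarith only [h4])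
      simp only [List.mem_cons, List.not_mem_nil, or_false] at hf
      rcases hf with rfl | rfl
      · simp only [eG1_val, E.val, NumIs.lkR] at hq
        push_cast at hq
        have h6 := MR.UU_near (a := 5 / 6) (b := r + w.re) (t := t + w.im) le_rfl h5
          (by linarith only [hr', h2])
        rw [S33.nearL_lnA] at h6
        have h7 := g1_le (c := 42 / 100) (y := t) (t := t) (r := r) (w := w.re) (h := w.im)
          (U := uu (5 / 6) (t + w.im) + (r + w.re - 5 / 6) * NumIs.lnA (1 / 6) (t + w.im)) (by
            show UU ⟨r + w.re, t + w.im⟩ ≤ UU ⟨5 / 6, t + w.im⟩ + _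
            linarith only [h6])
        linarith only [hq, h7]
      · simp only [E.val, NumIs.lkR] at hq
        push_cast at hq
        linarith only [h5, hq]

/-- the first factor is monotone -/
theorem LL_nearq {q : ℝ} {u : ℂ} (hq' : q ≤ 1 / 2) (h : |u.re - 1| ≤ q) (h0 : u.im ≠ 0) :
    LL u ≤ NumIs.lnA q u.im := by
  have hp := Real.pi_pos
  have hq0 : 0 ≤ q := (abs_nonneg _).trans h
  have h3 : Real.cos (2 * Real.pi * q) ≤ Real.cos (2 * Real.pi * u.re) := by
    have e : Real.cos (2 * Real.pi * u.re) = Real.cos (2 * Real.pi * |u.re - 1|) := by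
      rw [← Real.cos_sub_two_pi, ← Real.cos_abs, ← abs_of_pos (by positivity : 0 < 2 * Real.pi),
        ← abs_mul, abs_of_pos (by positivity : 0 < 2 * Real.pi)]
      congr 2
      ring
    rw [e]
    apply Real.cos_le_cos_of_nonneg_of_le_pi
    · positivity
    · nlinarith only [hq', hp]
    · exact mul_le_mul_of_nonneg_left h (by positivity)
  have h4 : 1 < Real.cosh (2 * Real.pi * u.im) :=
    Real.one_lt_cosh.2 (mul_ne_zero (by positivity) h0)
  have h5 := Real.cos_le_one (2 * Real.pi * u.re)
  rw [← S0R.LL_lnA' ⟨q, u.im⟩, LL_eq', LL_eq']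
  apply div_le_div_of_nonneg_right _ (by norm_num)
  apply Real.log_le_log (by linarith only [h4, h5])
  simp only
  linarith only [h3]

theorem UU_nearq {q a b t : ℝ} (hq0 : 0 < q) (hq' : q ≤ 1 / 2) (h1 : 1 - q ≤ a) (hab : a ≤ b)
    (h2 : b ≤ 1 + q) : UU ⟨b, t⟩ - UU ⟨a, t⟩ ≤ (b - a) * NumIs.lnA q t := by
  have key : ∀ t : ℝ, t ≠ 0 → UU ⟨b, t⟩ - UU ⟨a, t⟩ ≤ (b - a) * NumIs.lnA q t := by
    intro t ht
    have hd : ∀ s : ℝ, HasDerivAt (fun s : ℝ => UU ⟨0 + 1 * s, t⟩) (1 * LL ⟨0 + 1 * s, t⟩) s :=
      fun s => hasDerivAt_UU_hor ht 1 s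
    have e : (fun s : ℝ => UU ⟨0 + 1 * s, t⟩) = fun s : ℝ => UU ⟨s, t⟩ := by
      funext s
      rw [zero_add, one_mul]
    rw [e] at hd
    have := Convex.image_sub_le_mul_sub_of_deriv_le (convex_Icc (1 - q : ℝ) (1 + q))
      (f := fun s : ℝ => UU ⟨s, t⟩) (fun s _ => (hd s).continuousAt.continuousWithinAt)
      (fun s _ => (hd s).differentiableAt.differentiableWithinAt) (C := NumIs.lnA q t) (by
        intro s hs
        rw [interior_Icc] at hs
        rw [(hd s).deriv, one_mul, zero_add, one_mul]
        exact LL_nearq (u := ⟨s, t⟩) hq' (by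
          rw [abs_le]
          constructor
          · show -q ≤ s - 1
            linarith only [hs, hs.1]
          · show s - 1 ≤ q
            linarith only [hs, hs.2]) ht) a ⟨h1, hab.trans h2⟩ b ⟨h1.trans hab, h2⟩ hab
    linarith only [this]
  have hc : ∀ c : ℝ, Continuous fun t : ℝ => UU ⟨c, t⟩ := by
    intro c
    have e : (fun t : ℝ => UU ⟨c, t⟩) = fun t : ℝ => UU ((c : ℂ) + (t : ℂ) * Complex.I) := by
      funext t
      congr 1
      apply Complex.ext <;> simp
    rw [e]
    exact continuous_UU.comp (by fun_prop)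
  have hs : 0 < Real.sin (Real.pi * q) :=
    Real.sin_pos_of_pos_of_lt_pi (by positivity) (by nlinarith only [hq', Real.pi_pos])
  have hcL : Continuous fun t : ℝ => NumIs.lnA q t := by
    unfold NumIs.lnA
    refine (Continuous.log (by fun_prop) fun t => ?_).div_const 2
    positivity
  have hcl : IsClosed {t : ℝ | UU ⟨b, t⟩ - UU ⟨a, t⟩ ≤ (b - a) * NumIs.lnA q t} :=
    isClosed_le ((hc b).sub (hc a)) (continuous_const.mul hcL)
  have hd : Dense ({0}ᶜ : Set ℝ) := dense_compl_singleton 0
  have hs : ({0}ᶜ : Set ℝ) ⊆ {t : ℝ | UU ⟨b, t⟩ - UU ⟨a, t⟩ ≤ (b - a) * NumIs.lnA q t} :=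
    fun t ht => key t ht
  have := hcl.closure_subset_iff.2 hs (hd.closure_eq ▸ Set.mem_univ t)
  exact this

theorem G_h (t0 : -(105 / 1000) ≤ t) (t1 : t ≤ 5 / 1000) (hr : 75 / 100 ≤ r)
    (hr' : r ≤ 80 / 100) (hy : y = t * (20 * (8 / 10 - r))) (H : HW w S)
    (hw : 7 / 100 ≤ w.re) : 0 < S33.g0 (58 / 100) r y t w.re w.im + gH r t := by
  rcases H.cases with ⟨σ, h1, h2, h3, h4, h5, -⟩ | ⟨h1, h2, h3, h4⟩
  · obtain ⟨f, hf, hq⟩ := chkT4 k_Ghr (by norm_num) (x := r) (y := t) (z := w.re) (w := σ)
      (by push_cast; linarith only [hr]) (by push_cast; linarith only [hr']) (by push_cast; linarith only [t0])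
      (by push_cast; linarith only [t1]) (by push_cast; linarith only [hw]) (by push_cast; linarith only [h3])
      (by push_cast; linarith only [h4]) (by push_cast; linarith only [h5])
    simp only [List.mem_cons, List.not_mem_nil, or_false] at hf
    subst hf
    simp only [S33.eG_val, egH_val, yr, E.val, NumIs.lkR] at hq
    push_cast at hq
    rw [← h1, div_one, ← hy] at hq
    exact hq
  rcases le_total (r + w.re) (94 / 100) with h5 | h5
  · obtain ⟨f, hf, hq⟩ := chkT4 k_GhA (by norm_num) (x := r) (y := t) (z := w.re) (w := w.im)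
      (by push_cast; linarith only [hr]) (by push_cast; linarith only [hr']) (by push_cast; linarith only [t0])
      (by push_cast; linarith only [t1]) (by push_cast; linarith only [h1]) (by push_cast; linarith only [hr, h5])
      (by push_cast; linarith only [h3]) (by push_cast; linarith only [h4])
    simp only [List.mem_cons, List.not_mem_nil, or_false] at hf
    rcases hf with rfl | rfl
    · simp only [S33.eG_val, egH_val, yr, E.val, NumIs.lkR] at hq
      push_cast at hq
      rw [div_one, ← hy] at hq
      exact hq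
    · simp only [E.val, NumIs.lkR] at hq
      push_cast at hq
      linarith only [h5, hq]
  rcases le_total (r + w.re) (106 / 100) with h6 | h6
  · obtain ⟨f, hf, hq⟩ := chkT4 k_GhB (by norm_num) (x := r) (y := t) (z := w.re) (w := w.im)
      (by push_cast; linarith only [hr]) (by push_cast; linarith only [hr']) (by push_cast; linarith only [t0])
      (by push_cast; linarith only [t1]) (by push_cast; linarith only [hr', h5]) (by push_cast; linarith only [hr, h6])
      (by push_cast; linarith only [h3]) (by push_cast; linarith only [h4])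
    simp only [List.mem_cons, List.not_mem_nil, or_false] at hf
    rcases hf with rfl | rfl | rfl
    · simp only [eG1_val, egH_val, yr, E.val, NumIs.lkR] at hq
      push_cast at hq
      rw [div_one, ← hy] at hq
      have h7 := UU_nearq (q := 6 / 100) (a := 94 / 100) (b := r + w.re) (t := y + w.im)
        (by norm_num) (by norm_num) (by norm_num) h5 (by linarith only [h6])
      have h8 := g1_le (c := 58 / 100) (y := y) (t := t) (r := r) (w := w.re) (h := w.im)
        (U := uu (94 / 100) (y + w.im) + (r + w.re - 94 / 100) *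
          NumIs.lnA (6 / 100) (y + w.im)) (by
          show UU ⟨r + w.re, y + w.im⟩ ≤ UU ⟨94 / 100, y + w.im⟩ + _
          linarith only [h7])
      linarith only [hq, h8]
    · simp only [E.val, NumIs.lkR] at hq
      push_cast at hq
      linarith only [h5, hq]
    · simp only [E.val, NumIs.lkR] at hq
      push_cast at hq
      linarith only [h6, hq]
  · have e1 := MR.up4 (r + w.re) (y + w.im)
    rcases le_total 0 (y + w.im) with h7 | h7
    · obtain ⟨f, hf, hq⟩ := chkT4 k_GhP (by norm_num) (x := r) (y := t) (z := w.re) (w := w.im)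
        (by push_cast; linarith only [hr]) (by push_cast; linarith only [hr']) (by push_cast; linarith only [t0])
        (by push_cast; linarith only [t1]) (by push_cast; linarith only [hr', h6]) (by push_cast; linarith only [h2])
        (by push_cast; linarith only [h3]) (by push_cast; linarith only [h4])
      simp only [List.mem_cons, List.not_mem_nil, or_false] at hf
      rcases hf with rfl | rfl | rfl
      · simp only [eG1_val, egH_val, yr, E.val, NumIs.lkR] at hq
        push_cast at hq
        rw [div_one, ← hy, div_one] at hq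
        rw [abs_of_nonneg h7] at e1
        have h8 := g1_le (c := 58 / 100) (y := y) (t := t) (r := r) (w := w.re) (h := w.im)
          (U := uu (r + w.re - 1) (y + w.im) + Real.pi * (y + w.im)) (by
            show UU ⟨r + w.re, y + w.im⟩ ≤ _
            rw [e1])
        linarith only [hq, h8]
      · simp only [E.val, NumIs.lkR] at hq
        push_cast at hq
        linarith only [h6, hq]
      · simp only [E.val, yr, NumIs.lkR] at hq
        push_cast at hq
        rw [div_one, ← hy] at hq
        linarith only [h7, hq]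
    · obtain ⟨f, hf, hq⟩ := chkT4 k_GhM (by norm_num) (x := r) (y := t) (z := w.re) (w := w.im)
        (by push_cast; linarith only [hr]) (by push_cast; linarith only [hr']) (by push_cast; linarith only [t0])
        (by push_cast; linarith only [t1]) (by push_cast; linarith only [hr', h6]) (by push_cast; linarith only [h2])
        (by push_cast; linarith only [h3]) (by push_cast; linarith only [h4])
      simp only [List.mem_cons, List.not_mem_nil, or_false] at hf
      rcases hf with rfl | rfl | rfl
      · simp only [eG1_val, egH_val, yr, E.val, NumIs.lkR] at hq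
        push_cast at hq
        rw [div_one, ← hy, div_one] at hq
        rw [abs_of_nonpos h7] at e1
        have h8 := g1_le (c := 58 / 100) (y := y) (t := t) (r := r) (w := w.re) (h := w.im)
          (U := uu (r + w.re - 1) (y + w.im) - Real.pi * (y + w.im)) (by
            show UU ⟨r + w.re, y + w.im⟩ ≤ _
            rw [e1]
            linarith only [])
        linarith only [hq, h8]
      · simp only [E.val, NumIs.lkR] at hq
        push_cast at hq
        linarith only [h6, hq]
      · simp only [E.val, yr, NumIs.lkR] at hq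
        push_cast at hq
        rw [div_one, ← hy] at hq
        linarith only [h7, hq]

/-! ### joint moves -/

theorem hR_nonneg (hT : 0 ≤ T) (hx : x ≤ 60 / 100) : 0 ≤ S33.hR x T := by
  unfold S33.hR
  have : 0 ≤ 100 / 30 * (60 / 100 - x) := by linarith only [hx]
  positivity

/-- **The inner variable left of the hinge** -/
theorem mv_left {u v : ℂ} (H : Wn T t) (hu : u.im = S33.hR u.re T)
    (hv : RH v t (8 / 10) (5 / 100) (5 / 100)) (hx : 38 / 100 ≤ u.re) (hx' : u.re ≤ 60 / 100)
    (hr : v.re ≤ u.re - 13 / 100) (hW : HW w S) (hts : t ≤ 0 ∨ -(57 / 1000) ≤ S) :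
    ∃ c : ℝ, 5 / 100 ≤ c ∧ c ≤ 75 / 100 ∧
      V3 u v w < V3 ⟨30 / 100, S33.hR (30 / 100) T⟩ (lv c t) w := by
  have T0 := H.T0
  have t1 := H.t1
  have t0 : -(105 / 1000) ≤ t := by linarith only [T0, H, H.d0]
  have h0 := hv.re0
  have hh := hR_nonneg T0 hx'
  rcases le_total v.re (5 / 100) with h1 | h1
  · have hy : v.im = 20 * (t * v.re) := by
      rw [hv.im, tr_a (by norm_num) (by norm_num) (by norm_num) h0 h1]
      ring
    refine ⟨44 / 100, by norm_num, by norm_num, ?_⟩
    have k := V3_joint' (X := 30 / 100) (c := 44 / 100) (t := t) (v := v) (w := w) hu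
    have g := GG_44 hW (by linarith only [t0]) t1 hts h0 h1
    have e : GG (44 / 100) v.re t w.re w.im = S33.g0 (44 / 100) v.re v.im t w.re w.im := by
      unfold GG S33.g0
      rw [hy, show 20 * t * v.re = 20 * (t * v.re) by ring]
      ring
    rw [e] at g
    obtain ⟨d1, d2⟩ := d_l H hx hx' h0 h1 hy
    rcases le_total t 0 with h2 | h2
    · have z := z0_le (v := v) hu (by rw [hy]; nlinarith only [hh, h0, h2])
      linarith only [k, g, z, d1, h2, d1 h2]
    · have z := z1_le (v := v) hu hh (by rw [hy]; positivity)
      linarith only [k, g, z, d2, h2, d2 h2]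
  have hy : v.im = t := by
    rw [hv.im, tr_b (by norm_num) (by norm_num) h1 (by linarith only [hx', hr]), mul_one]
  refine ⟨42 / 100, by norm_num, by norm_num, ?_⟩
  have k := V3_joint' (X := 30 / 100) (c := 42 / 100) (t := t) (v := v) (w := w) hu
  rw [hy] at k
  rcases le_total v.re (16 / 100) with h3 | h3
  · have g := G_a t0 t1 h1 h3 hW
    obtain ⟨d1, d2⟩ := d_a H hx hx' h1 h3
    rcases le_total t 0 with h2 | h2
    · have z := z0_le (v := v) hu (by rw [hy]; linarith only [hh, h2])
      rw [hy] at z
      linarith only [k, g, z, d1, h2, d1 h2]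
    · have z := z1_le (v := v) hu hh (by rw [hy]; exact h2)
      rw [hy] at z
      linarith only [k, g, z, d2, h2, d2 h2]
  · have g := G_b t0 t1 h3 (by linarith only [hx', hr]) hW
    obtain ⟨d1, d2⟩ := d_b H hx hx' h3 hr
    rcases le_total t 0 with h2 | h2
    · have z := z0_le (v := v) hu (by rw [hy]; linarith only [hh, h2])
      rw [hy] at z
      linarith only [k, g, z, d1, h2, d1 h2]
    · have z := z1_le (v := v) hu hh (by rw [hy]; exact h2)
      rw [hy] at z
      linarith only [k, g, z, d2, h2, d2 h2]

/-- **The inner variable near the hinge and above it** -/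
theorem mv_near {u v : ℂ} (H : Wn T t) (hu : u.im = S33.hR u.re T)
    (hv : RH v t (8 / 10) (5 / 100) (5 / 100)) (hx : 50 / 100 ≤ u.re) (hx' : u.re ≤ 60 / 100)
    (hr : u.re - 13 / 100 ≤ v.re) (hr' : v.re ≤ u.re + 13 / 100) (hT : 35 / 1000 ≤ T)
    (hh : S33.hR u.re T ≤ t) (hW : HW w S) :
    V3 u v w < V3 ⟨30 / 100, S33.hR (30 / 100) T⟩ (lv (42 / 100) t) w := by
  have T0 := H.T0
  have t1 := H.t1
  have t0 : 0 ≤ t := (hR_nonneg T0 hx').trans hh
  have hy : v.im = t := by
    rw [hv.im, tr_b (by norm_num) (by norm_num) (by linarith only [hx, hr]) (by linarith only [hx', hr']), mul_one]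
  have k := V3_joint' (X := 30 / 100) (c := 42 / 100) (t := t) (v := v) (w := w) hu
  rw [hy] at k
  have g := G_n t0 t1 (by linarith only [hx, hr]) (by linarith only [hx', hr']) hW (r := v.re)
  have d := d_n H hx hx' hr hr' hT t0 hh
  have z := z3_le (v := v) hu (by rw [abs_le]; constructor <;> linarith only [hr, hr'])
  rw [hy] at z
  linarith only [k, g, d, z]

/-- **The inner variable on its right ramp** -/
theorem mv_right {u v : ℂ} (H : Wn T t) (hu : u.im = S33.hR u.re T)
    (hv : RH v t (8 / 10) (5 / 100) (5 / 100)) (hx : 50 / 100 ≤ u.re) (hx' : u.re ≤ 60 / 100)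
    (hr : 75 / 100 ≤ v.re) (hW : HW w S) (hw : 7 / 100 ≤ w.re) :
    V3 u v w < V3 ⟨38 / 100, S33.hR (38 / 100) T⟩ (lv (58 / 100) t) w := by
  have T0 := H.T0
  have t1 := H.t1
  have t0 : -(105 / 1000) ≤ t := by linarith only [T0, H, H.d0]
  have hM := hv.reM
  have hy : v.im = t * (20 * (8 / 10 - v.re)) := by
    rw [hv.im, tr_c (by norm_num) (by norm_num) (by norm_num) (by linarith only [hr]) hM]
    ring
  have k := V3_joint' (X := 38 / 100) (c := 58 / 100) (t := t) (v := v) (w := w) hu
  have g := G_h t0 t1 hr (by linarith only [hM]) hy hW hw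
  have d := d_h H hx hx' hr (by linarith only [hM]) hy
  have z : UU (v - u) = uu (v.re - u.re) (v.im - S33.hR u.re T) := by
    rw [UU_uu, Complex.sub_re, Complex.sub_im, hu]
  linarith only [k, g, d, z]

end SZ3

end VL

end Pool.Agent.Work.MP_b30479_gtS.G2

end
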