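import Pool.Agent.Work.MP_b30479_gt.TBS.G2.TE1T
import Pool.Agent.Work.MP_b30479_gt.TBS.G2.WMainS

section

/-!
# Mirrored paths: cells

`Cell`: a range of `x`, a target `c/100` and linear bounds; its two rows (`Cell.A`: the mode is the
lower path, `Cell.B`: the upper one), and the row `Cell.S` if the region on the side `A` is an end
with two crossings.
-/

set_option linter.unusedVariables false
set_option linter.unusedSimpArgs false

namespace Pool.Agent.Work.MP_b30479_gtS.G2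

open VOL NumUs

namespace KR

open NumIs (V)

structure Cell where
  x0 : ℤ
  x1 : ℤ
  t0 : ℤ
  t1 : ℤ
  c : ℤ
  en : ℤ
  ed : ℕ
  a0 : ℤ
  a1 : ℤ
  ad : ℕ
  l0 : ℤ
  l1 : ℤ
  m0 : ℤ
  m1 : ℤ
  p0 : ℤ
  p1 : ℤ
  p2 : ℤ

namespace Cell

variable (k : Cell)

def A (dm : Dm) (y0 y1 : ℤ) : Pm :=
  ⟨dm, k.x0, k.x1, k.t0, k.t1, k.c, k.en, k.ed, k.a0, k.a1, k.ad, -1,
    2 * k.l0 + 2 * k.m0 + k.p0, 2 * k.l1 + k.p1, 2 * k.m1 + k.p2, 0, 0, y0, y1⟩
def B (dm : Dm) (y0 y1 : ℤ) : Pm :=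
  ⟨dm, k.x0, k.x1, k.t0, k.t1, k.c, k.en, k.ed, k.a0, k.a1, k.ad, 1,
    2 * k.l0 + 2 * k.m0 - k.p0, 2 * k.l1 - k.p1, 2 * k.m1 - k.p2, 2, 0, y0, y1⟩
def S (dm : Dm) : Pm :=
  ⟨dm, k.x0, k.x1, k.t0, k.t1, k.c, k.en, k.ed, k.a0, k.a1, k.ad, 1,
    3 * k.l0 + 3 * k.m0, 3 * k.l1, 3 * k.m1, 2, 1, 0, 80⟩

noncomputable def e (T : ℝ) : ℝ := (k.en : ℝ) / k.ed * T
noncomputable def a (x : ℝ) : ℝ := (k.a0 : ℝ) / k.ad + (k.a1 : ℝ) / k.ad * x

/-- linear lower bound for `uu x (a x)` -/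
def LB : Prop := ∀ x : ℝ, (k.x0 : ℝ) / 10000 ≤ x → x ≤ (k.x1 : ℝ) / 10000 →
  (k.l0 : ℝ) / 10000 + (k.l1 : ℝ) / 10000 * x ≤ uu x (k.a x)
/-- linear lower bound for `-uu c (e T)` -/
def MB : Prop := ∀ T : ℝ, (k.t0 : ℝ) / 10000 ≤ T → T ≤ (k.t1 : ℝ) / 10000 →
  (k.m0 : ℝ) / 10000 + (k.m1 : ℝ) / 10000 * T ≤ -uu ((k.c : ℝ) / 100) (k.e T)

def lOK (c : ℕ) : Bool :=
  chkT [.sub (.uu (.var 0) (.add (.q k.a0 k.ad) (.mul (.q k.a1 k.ad) (.var 0))))
    (.add (.q k.l0 10000) (.mul (.q k.l1 10000) (.var 0)))] 60 c [V.of 10000 k.x0 k.x1]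
def l0OK (c : ℕ) : Bool :=
  chkT [.sub (.uu (.q 5 1000) (.var 0)) (.q k.l0 10000)] 60 c [V.of 10000 0 100]
def mOK (c : ℕ) : Bool :=
  chkT [.sub (.neg (.uu (.q k.c 100) (.mul (.q k.en k.ed) (.var 0))))
    (.add (.q k.m0 10000) (.mul (.q k.m1 10000) (.var 0)))] 60 c [V.of 10000 k.t0 k.t1]

variable {k}

theorem chkT1 {es : List E} {fuel c N : ℕ} {l1 h1 : ℤ} {k1 : ℕ}
    (h : chkT es fuel c [V.of N l1 h1 k1] = true) (hN : 0 < N) {x : ℝ}
    (a1 : (l1 : ℝ) / N ≤ x) (b1 : x ≤ (h1 : ℝ) / N) : ∃ e ∈ es, 0 < e.val [x] :=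
  chkT_sound h (List.Forall₂.cons (V.of_mem hN a1 b1) List.Forall₂.nil)

theorem lb_of {c : ℕ} (h : k.lOK c = true) : k.LB := by
  intro x h0 h1
  have hc : ((10000 : ℕ) : ℝ) = 10000 := by norm_num
  obtain ⟨e, he, hp⟩ := chkT1 h (by norm_num) (x := x) (by rw [hc]; exact h0)
    (by rw [hc]; exact h1)
  simp only [List.mem_cons, List.not_mem_nil, or_false] at he
  subst he
  simp only [E.val, NumIs.lkR] at hp
  push_cast at hp
  unfold Cell.a
  linarith only [hp]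

theorem lb_of0 {c : ℕ} (h : k.l0OK c = true) (hx0 : k.x0 = 0) (hx1 : k.x1 ≤ 50) (hl : k.l1 = 0)
    (ha : ∀ x : ℝ, 0 ≤ x → x ≤ 5 / 1000 → 0 ≤ k.a x ∧ k.a x ≤ 1 / 100) : k.LB := by
  intro x h0 h1
  have hx1' : (k.x1 : ℝ) ≤ 50 := by exact_mod_cast hx1
  rw [hx0] at h0
  push_cast at h0
  rw [zero_div] at h0
  obtain ⟨a0, a1⟩ := ha x h0 (by linarith only [h1, hx1'])
  have hc : ((10000 : ℕ) : ℝ) = 10000 := by norm_num
  obtain ⟨e, he, hp⟩ := chkT1 h (by norm_num) (x := k.a x) (by rw [hc]; push_cast; linarith only [a0])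
    (by rw [hc]; push_cast; linarith only [a1])
  simp only [List.mem_cons, List.not_mem_nil, or_false] at he
  subst he
  simp only [E.val, NumIs.lkR] at hp
  push_cast at hp
  have h2 := TL.E1.anti (a := x) (b := 5 / 1000) (y := k.a x) (by linarith only [h0]) (by linarith only [h1, hx1'])
    (by norm_num) (by rw [abs_of_nonneg a0]; linarith only [a1])
  rw [hl]
  push_cast
  linarith only [hp, h2]

theorem mb_of {c : ℕ} (h : k.mOK c = true) : k.MB := by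
  intro T h0 h1
  have hc : ((10000 : ℕ) : ℝ) = 10000 := by norm_num
  obtain ⟨e, he, hp⟩ := chkT1 h (by norm_num) (x := T) (by rw [hc]; exact h0)
    (by rw [hc]; exact h1)
  simp only [List.mem_cons, List.not_mem_nil, or_false] at he
  subst he
  simp only [E.val, NumIs.lkR] at hp
  push_cast at hp
  unfold Cell.e
  linarith only [hp]

/-- both sides -/
theorem two {dA dB : Dm} {yA0 yA1 yB0 yB1 : ℤ} (hl : k.LB) (hm : k.MB)
    (hA : (k.A dA yA0 yA1).Side) (hB : (k.B dB yB0 yB1).Side) {x T y β y' β' : ℝ}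
    (hx0 : (k.x0 : ℝ) / 10000 ≤ x) (hx1 : x ≤ (k.x1 : ℝ) / 10000) (ht0 : (k.t0 : ℝ) / 10000 ≤ T)
    (ht1 : T ≤ (k.t1 : ℝ) / 10000) (h0 : (yA0 : ℝ) / 100 ≤ y) (h1 : y ≤ (yA1 : ℝ) / 100)
    (h0' : (yB0 : ℝ) / 100 ≤ y') (h1' : y' ≤ (yB1 : ℝ) / 100) (hd : dA.In y β)
    (hd' : dB.In y' β') :
    0 < gg ((k.c : ℝ) / 100) (-k.e T) x (-k.a x) y β + gg ((k.c : ℝ) / 100) (k.e T) x (k.a x) y' β' +
      2 * Real.pi * k.a x := by
  have g1 := hA x T y β hx0 hx1 ht0 ht1 h0 h1 hd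
  have g2 := hB x T y' β' hx0 hx1 ht0 ht1 h0' h1' hd'
  have g3 := hl x hx0 hx1
  have g4 := hm T ht0 ht1
  simp only [Pm.F, Pm.e, Pm.a, Cell.A, Cell.B] at g1 g2
  unfold gg
  rw [uu_neg ((k.c : ℝ) / 100) (k.e T), uu_neg x (k.a x)]
  push_cast at g1 g2
  have e1 : ((-1 : ℝ) * ((k.en : ℝ) / k.ed * T)) = -k.e T := by unfold Cell.e; ring
  have e2 : ((1 : ℝ) * ((k.en : ℝ) / k.ed * T)) = k.e T := by unfold Cell.e; ring
  have e3 : ((-1 : ℝ) * ((k.a0 : ℝ) / k.ad + (k.a1 : ℝ) / k.ad * x)) = -k.a x := by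
    unfold Cell.a; ring
  have e4 : ((1 : ℝ) * ((k.a0 : ℝ) / k.ad + (k.a1 : ℝ) / k.ad * x)) = k.a x := by
    unfold Cell.a; ring
  rw [e1, e3] at g1
  rw [e2, e4] at g2
  have e5 : ((k.a0 : ℝ) / k.ad + (k.a1 : ℝ) / k.ad * x) = k.a x := rfl
  rw [e5] at g1 g2
  linarith only [g3, g4, g1, g2]

/-- an end with two crossings on the side `A` -/
theorem one {dB : Dm} (hl : k.LB) (hm : k.MB) (hB : (k.S dB).Side) {x T y β : ℝ}
    (hx0 : (k.x0 : ℝ) / 10000 ≤ x) (hx1 : x ≤ (k.x1 : ℝ) / 10000) (ht0 : (k.t0 : ℝ) / 10000 ≤ T)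
    (ht1 : T ≤ (k.t1 : ℝ) / 10000) (h0 : 0 ≤ y) (h1 : y ≤ 80 / 100) (hd : dB.In y β) :
    0 < g0 ((k.c : ℝ) / 100) (-k.e T) x (-k.a x) + gg ((k.c : ℝ) / 100) (k.e T) x (k.a x) y β +
      2 * Real.pi * k.a x := by
  have g2 := hB x T y β hx0 hx1 ht0 ht1 (by simp only [Cell.S]; push_cast; linarith only [h0])
    (by simp only [Cell.S]; push_cast; linarith only [h1]) hd
  have g3 := hl x hx0 hx1
  have g4 := hm T ht0 ht1
  simp only [Pm.F, Pm.e, Pm.a, Cell.S] at g2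
  unfold gg g0
  rw [uu_neg ((k.c : ℝ) / 100) (k.e T), uu_neg x (k.a x)]
  push_cast at g2
  have e2 : ((1 : ℝ) * ((k.en : ℝ) / k.ed * T)) = k.e T := by unfold Cell.e; ring
  have e4 : ((1 : ℝ) * ((k.a0 : ℝ) / k.ad + (k.a1 : ℝ) / k.ad * x)) = k.a x := by
    unfold Cell.a; ring
  rw [e2, e4] at g2
  have e5 : ((k.a0 : ℝ) / k.ad + (k.a1 : ℝ) / k.ad * x) = k.a x := rfl
  have e6 : ((k.en : ℝ) / k.ed * T) = k.e T := rfl
  rw [e5, e6] at g2
  linarith only [g3, g4, g2]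

end Cell

/-! ### the two regions -/

/-- a hinge with the mode path of height `16/100` at `x` can be moved: regions with the value `V2`
on both sides, other variables `y + iβ` (side of the lower path) and `y' + iβ'` -/
def Two (XM cl cr : ℝ) (T x y β y' β' : ℝ) : Prop :=
  ∃ c, 0 ≤ c ∧ c ≤ XM ∧ 0 < gg c (-(T * tr 0 XM cl cr c)) x (-(16 / 100 * tr 0 XM cl cr x)) y β +
    gg c (T * tr 0 XM cl cr c) x (16 / 100 * tr 0 XM cl cr x) y' β' +
    2 * Real.pi * (16 / 100 * tr 0 XM cl cr x)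

/-- the same, an end with two crossings on the side of the lower path -/
def One (XM cl cr : ℝ) (T x y β : ℝ) : Prop :=
  ∃ c, 0 ≤ c ∧ c ≤ XM ∧ 0 < g0 c (-(T * tr 0 XM cl cr c)) x (-(16 / 100 * tr 0 XM cl cr x)) +
    gg c (T * tr 0 XM cl cr c) x (16 / 100 * tr 0 XM cl cr x) y β +
    2 * Real.pi * (16 / 100 * tr 0 XM cl cr x)

end KR

end Pool.Agent.Work.MP_b30479_gtS.G2

end

section

/-!
# Mirrored paths: from a cell to the statement `Two`, `One`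
-/

namespace Pool.Agent.Work.MP_b30479_gtS.G2

open VOL NumUs

namespace KR

theorem Two.of (k : Cell) {XM cl cr T x y β y' β' : ℝ} (hc0 : 0 ≤ (k.c : ℝ) / 100)
    (hc1 : (k.c : ℝ) / 100 ≤ XM) (he : T * tr 0 XM cl cr ((k.c : ℝ) / 100) = k.e T)
    (ha : 16 / 100 * tr 0 XM cl cr x = k.a x)
    (h : 0 < gg ((k.c : ℝ) / 100) (-k.e T) x (-k.a x) y β + gg ((k.c : ℝ) / 100) (k.e T) x (k.a x) y' β' +
      2 * Real.pi * k.a x) : Two XM cl cr T x y β y' β' := by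
  refine ⟨(k.c : ℝ) / 100, hc0, hc1, ?_⟩
  rw [he, ha]
  exact h

theorem One.of (k : Cell) {XM cl cr T x y β : ℝ} (hc0 : 0 ≤ (k.c : ℝ) / 100)
    (hc1 : (k.c : ℝ) / 100 ≤ XM) (he : T * tr 0 XM cl cr ((k.c : ℝ) / 100) = k.e T)
    (ha : 16 / 100 * tr 0 XM cl cr x = k.a x)
    (h : 0 < g0 ((k.c : ℝ) / 100) (-k.e T) x (-k.a x) + gg ((k.c : ℝ) / 100) (k.e T) x (k.a x) y β +
      2 * Real.pi * k.a x) : One XM cl cr T x y β := by
  refine ⟨(k.c : ℝ) / 100, hc0, hc1, ?_⟩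
  rw [he, ha]
  exact h

end KR

end Pool.Agent.Work.MP_b30479_gtS.G2

end

section

/-!
# Mirrored paths: domains of the other variables

`NPos.d2`: the other hinge of a region with two crossings is in the domain `D2`, `IPos.dl`: the inner
variable of an interior region with three crossings is in the domain `DL`.
-/

namespace Pool.Agent.Work.MP_b30479_gtS.G2

open Finset VOL Filter Topology

namespace SR

variable {M : ℕ} {b : Fin (M + 1) → ℤ} {zs : DD (tyW b) ⊕ ZZ (tyW b) → ℂ}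
variable {R : Finset (DD (tyW b))} {nb : Finset (DD (tyW b) ⊕ ZZ (tyW b))}
variable {z : DD (tyW b) ⊕ ZZ (tyW b) → ℂ} {p : DD (tyW b) → ℝ}
variable {h h' : Fin M} {i j j' : Fin (M + 1)} {s : Fin 3} {x c : ℝ}

theorem tr_ub {XM cl cr y : ℝ} (hcl : 0 < cl) (hcr : 0 < cr) (h0 : 0 ≤ y) (h1 : y ≤ XM) :
    0 ≤ tr 0 XM cl cr y ∧ tr 0 XM cl cr y ≤ 1 ∧ cl * tr 0 XM cl cr y ≤ y ∧
      cr * tr 0 XM cl cr y ≤ XM - y := by
  have h2 : 0 ≤ (y - 0) / cl := div_nonneg (by linarith only [h0]) hcl.le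
  have h3 : 0 ≤ (XM - y) / cr := div_nonneg (by linarith only [h1]) hcr.le
  refine ⟨(tr_mem _ _ _ _ _).1, (tr_mem _ _ _ _ _).2, ?_, ?_⟩
  · have h4 : tr 0 XM cl cr y ≤ (y - 0) / cl := by
      unfold tr
      exact max_le h2 ((min_le_right _ _).trans (min_le_left _ _))
    rw [le_div_iff₀ hcl] at h4
    linarith only [h4]
  · have h4 : tr 0 XM cl cr y ≤ (XM - y) / cr := by
      unfold tr
      exact max_le h3 ((min_le_right _ _).trans (min_le_right _ _))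
    rw [le_div_iff₀ hcr] at h4
    linarith only [h4]

/-- the ramp function of the hinge `h` is below its three lines -/
theorem trh_ub (h : Fin M) {y : ℝ} (h0 : 0 ≤ y) (h1 : y ≤ wXM b h) :
    0 ≤ trh b h y ∧ trh b h y ≤ 1 ∧ wcl b h * trh b h y ≤ y ∧ wcr b h * trh b h y ≤ wXM b h - y :=
  tr_ub (wcl_pos h) (wcr_pos h) h0 h1

theorem mhs_16 (s : Fin 3) (h2 : clsW b h.succ ≠ .three) : mhs b h s = 16 / 100 := by
  unfold mhs
  rw [if_neg (fun h3 => h2 h3.2), if_neg (fun h3 => h2 h3.2.1)]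

theorem in_d2 {y β : ℝ} (h1 : β ≤ 16 / 10 * y) (h2 : β ≤ 16 / 29 * (8 / 10 - y))
    (h3 : -β ≤ 25 / 10 * y) (h4 : -β ≤ 30 / 47 * (8 / 10 - y)) (h5 : -(3 / 10) ≤ β)
    (h6 : β ≤ 16 / 100) : KR.D2.In y β := by
  refine ⟨?_, ?_, ?_, ?_, ?_, ?_⟩ <;> simp only [KR.D2] <;> push_cast <;> linarith only [h1, h2, h3, h4, h5, h6]

theorem in_dl {y β : ℝ} (h1 : |β| ≤ 32 / 10 * y) (h2 : |β| ≤ 32 / 10 * (8 / 10 - y))
    (h3 : |β| ≤ 16 / 100) : KR.DL.In y β := by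
  rw [abs_le] at h1 h2 h3
  refine ⟨?_, ?_, ?_, ?_, ?_, ?_⟩ <;> simp only [KR.DL] <;> push_cast <;> linarith only [h1, h2, h3]

/-- a position is between two multiples of the ramp function -/
theorem NPos.two {X : ℂ} (h0 : NPos b zs nb p h' i s X) {Hu Hd : ℝ} (u0 : 0 ≤ Hu) (d0 : 0 ≤ Hd)
    (u1 : Th b zs h' i ≤ Hu) (d1 : -Hd ≤ Th b zs h' i)
    (h2 : ¬ RH1 b (.inl h') → mhs b h' s.rev ≤ Hu ∧ mhs b h' s ≤ Hd) :
    X.im ≤ Hu * trh b h' X.re ∧ -X.im ≤ Hd * trh b h' X.re := by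
  have ht := trh_mem (b := b) h' X.re
  cases h0 with
  | main y y0 y1 hn e hp =>
    rw [e] at ht ⊢
    show Th b zs h' i * trh b h' y ≤ Hu * trh b h' y ∧ -(Th b zs h' i * trh b h' y) ≤ Hd * trh b h' y
    have a1 := mul_le_mul_of_nonneg_right u1 ht.1
    have a2 := mul_le_mul_of_nonneg_right d1 ht.1
    constructor
    · exact a1
    · simp only at a1 a2
      linarith only [a2]
  | real y y0 y1 hn e hp =>
    rw [e] at ht ⊢
    show (0 : ℝ) ≤ Hu * trh b h' y ∧ -(0 : ℝ) ≤ Hd * trh b h' y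
    rw [neg_zero]
    exact ⟨mul_nonneg u0 ht.1, mul_nonneg d0 ht.1⟩
  | up y y0 y1 hn hr hT e hp =>
    rw [e] at ht ⊢
    have h3 := mul_le_mul_of_nonneg_right (h2 hr).1 ht.1
    have h4 := mul_nonneg (mhs_pos (b := b) h' s.rev).le ht.1
    have h5 := mul_nonneg d0 ht.1
    show mhs b h' s.rev * trh b h' y ≤ Hu * trh b h' y ∧ -(mhs b h' s.rev * trh b h' y) ≤ Hd * trh b h' y
    constructor
    · exact h3
    · simp only at h4 h5
      linarith only [h4, h5]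
  | dn y y0 y1 hn hr hT e hp =>
    rw [e] at ht ⊢
    have h3 := mul_le_mul_of_nonneg_right (h2 hr).2 ht.1
    have h4 := mul_nonneg (mhs_pos (b := b) h' s).le ht.1
    have h5 := mul_nonneg u0 ht.1
    show -(mhs b h' s * trh b h' y) ≤ Hu * trh b h' y ∧ -(-(mhs b h' s * trh b h' y)) ≤ Hd * trh b h' y
    constructor
    · simp only at h4 h5
      linarith only [h4, h5]
    · rw [neg_neg]
      exact h3

/-- **The other hinge of a region with two crossings.** -/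
theorem NPos.d2 (hb : ClassW b) (hL : Loc b zs) (A' : Adj h' i s j') (hi : clsW b i = .two) {X : ℂ}
    (h0 : NPos b zs nb p h' i s X) : 0 ≤ X.re ∧ X.re ≤ 8 / 10 ∧ KR.D2.In X.re X.im := by
  have hT := Th_mem hb hL A' (by rw [hi]; decide)
  have hre := h0.re
  have ht := trh_ub (b := b) h' hre.1 hre.2
  rw [hi] at hT
  have hmh : ¬ (s = 2 ∧ clsW b j' = .three) → mhs b h' s.rev ≤ 16 / 100 ∧ mhs b h' s ≤ 16 / 100 := by
    intro hn
    cases A' with
    | l =>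
      have hj : clsW b h'.succ ≠ .three := fun hc => hn ⟨rfl, hc⟩
      rw [mhs_16 _ hj, mhs_16 _ hj]
      exact ⟨le_rfl, le_rfl⟩
    | r =>
      have hj : clsW b h'.succ ≠ .three := by rw [hi]; decide
      rw [mhs_16 _ hj, mhs_16 _ hj]
      exact ⟨le_rfl, le_rfl⟩
  by_cases hc3 : s = 2 ∧ clsW b j' = .three
  · obtain ⟨rfl, hj⟩ := hc3
    rw [hj] at hT
    simp only [hbox] at hT
    cases A' with
    | l =>
      have e1 : mhs b h' (2 : Fin 3).rev ≤ 16 / 100 := by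
        simp [mhs, hi]
      have e2 : mhs b h' 2 ≤ 3 / 10 := by
        simp [mhs, hi, hj]
      have h3 := h0.two (Hu := 16 / 100) (Hd := 3 / 10) (by norm_num) (by norm_num) (by linarith only [hT, hT.2])
        (by linarith only [hT, hT.1]) fun _ => ⟨e1, e2⟩
      unfold wXM wcl wcr at ht
      unfold wXM at hre
      rw [hi, hj] at ht hre
      simp only [hp] at ht hre
      refine ⟨hre.1, by linarith only [hre, hre.2], in_d2 ?_ ?_ ?_ ?_ ?_ ?_⟩ <;>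
        linarith only [hre, ht, h3, ht.1, ht.2.1, ht.2.2.1, ht.2.2.2, h3.1, h3.2, hre.1, hre.2]
  · have hH : |Th b zs h' i| ≤ 16 / 100 := by
      rw [abs_le]
      rcases hj : clsW b j' <;> rw [hj] at hT <;> simp only [hbox] at hT <;>
        constructor <;> linarith only [hT, hT.1, hT.2]
    rw [abs_le] at hH
    have h3 := h0.two (Hu := 16 / 100) (Hd := 16 / 100) (by norm_num) (by norm_num) hH.2 hH.1
      fun _ => hmh hc3
    unfold wXM wcl wcr at ht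
    unfold wXM at hre
    cases A' with
    | l =>
      rw [hi] at ht hre
      have hj3 : clsW b h'.succ ≠ .three := fun hj => hc3 ⟨rfl, hj⟩
      rcases hj : clsW b h'.succ <;> rw [hj] at ht hre hj3
      case three => exact absurd rfl hj3
      all_goals
        simp only [hp, hp1] at ht hre
        refine ⟨hre.1, by linarith only [hre, hre.2], in_d2 ?_ ?_ ?_ ?_ ?_ ?_⟩ <;>
          linarith only [hre, ht, h3, ht.1, ht.2.1, ht.2.2.1, ht.2.2.2, h3.1, h3.2, hre.1, hre.2]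
    | r =>
      rw [hi] at ht hre
      rcases hj : clsW b h'.castSucc <;> rw [hj] at ht hre
      all_goals
        simp only [hp, hp1] at ht hre
        refine ⟨hre.1, by linarith only [hre, hre.2], in_d2 ?_ ?_ ?_ ?_ ?_ ?_⟩ <;>
          linarith only [hre, ht, h3, ht.1, ht.2.1, ht.2.2.1, ht.2.2.2, h3.1, h3.2, hre.1, hre.2]

/-- height of the saddle point at the inner variable of an interior region -/
theorem Tm_mem (hb : ClassW b) (hL : Loc b zs) (m : {i : Fin (M + 1) // (tyW b i).isMid = true})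
    (hc : clsW b m.1 = .three) : -(160 / 1000) ≤ Tm b zs m ∧ Tm b zs m ≤ 15 / 1000 := by
  have he := clsW_inner hb (Or.inr (Or.inr hc))
  have h0 : m.1 ≠ 0 := by
    intro h1
    unfold isEnd at he
    exact of_decide_eq_false he (Or.inl h1)
  obtain ⟨k, hk⟩ := Fin.exists_succ_eq.2 h0
  have h1 := hL.mid m he k hk
  obtain ⟨-, -, h3, h4⟩ := h1
  rw [ofr_im] at h3 h4
  simp only [mbox] at h3 h4
  exact ⟨h3, h4⟩

/-- **The inner variable of an interior region with three crossings.** -/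
theorem IPos.dl (hb : ClassW b) (hL : Loc b zs)
    (m : {i : Fin (M + 1) // (tyW b i).isMid = true}) (hc : clsW b m.1 = .three) {X : ℂ}
    (h0 : IPos b zs p m X) : 0 ≤ X.re ∧ X.re ≤ 8 / 10 ∧ KR.DL.In X.re X.im := by
  have hT := Tm_mem hb hL m hc
  have key : ∀ y β : ℝ, 0 ≤ y → y ≤ (mp (clsW b m.1)).XM → |β| ≤ 16 / 100 * trm b m y →
      0 ≤ y ∧ y ≤ 8 / 10 ∧ KR.DL.In y β := by
    intro y β y0 y1 hβ
    unfold trm at hβ
    rw [hc] at y1 hβ
    simp only [mp] at y1 hβ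
    have ht := tr_ub (XM := 8 / 10) (cl := 5 / 100) (cr := 5 / 100) (by norm_num) (by norm_num) y0 y1
    refine ⟨y0, y1, in_dl ?_ ?_ ?_⟩ <;> linarith only [hβ, ht, ht.1, ht.2.1, ht.2.2.1, ht.2.2.2]
  have htm : ∀ y : ℝ, 0 ≤ trm b m y := fun y => (tr_mem _ _ _ _ _).1
  cases h0 with
  | main y y0 y1 e hp =>
    rw [e]
    refine key y _ y0 y1 ?_
    rw [abs_mul, abs_of_nonneg (htm y)]
    exact mul_le_mul_of_nonneg_right (abs_le.2 ⟨by linarith only [hT], by linarith only [hT]⟩) (htm y)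
  | up y y0 y1 hT e hp =>
    rw [e]
    refine key y _ y0 y1 ?_
    rw [abs_of_nonneg (mul_nonneg (by norm_num) (htm y))]
  | dn y y0 y1 hT e hp =>
    rw [e]
    refine key y _ y0 y1 ?_
    rw [abs_neg, abs_of_nonneg (mul_nonneg (by norm_num) (htm y))]

end SR

end Pool.Agent.Work.MP_b30479_gtS.G2

end

section

/-!
# Mirrored paths: kinds of hinges from the statements `Two`, `One`
-/

namespace Pool.Agent.Work.MP_b30479_gtS.G2

open Finset VOL Filter Topology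

namespace SR

variable {M : ℕ} {b : Fin (M + 1) → ℤ} {zs : DD (tyW b) ⊕ ZZ (tyW b) → ℂ}
variable {R : Finset (DD (tyW b))} {nb : Finset (DD (tyW b) ⊕ ZZ (tyW b))}
variable {z : DD (tyW b) ⊕ ZZ (tyW b) → ℂ} {p : DD (tyW b) → ℝ}
variable {h h' : Fin M} {i j j' : Fin (M + 1)} {s : Fin 3} {x c : ℝ}

theorem V3_sub (u l w w' : ℂ) : V3 u l w' - V3 u l w = V2 w' l - V2 w l := by
  unfold V3 V2
  simp only [Complex.add_im, Complex.sub_im, pow_two, Complex.mul_im, Complex.sub_re,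
    Complex.re_ofNat, Complex.im_ofNat, Complex.mul_re]
  rw [add_comm w' l, add_comm w l]
  ring

/-- gain of a region with the value `V2`, own side of the mode -/
theorem gain_own (D : Md b zs nb z p h i s j x) (h16 : mhs b h s = 16 / 100) (Y : ℂ) :
    V2 (tgo b zs h i c) Y - V2 (Ow b z i s) Y =
      KR.gg c (-(Th b zs h i * trh b h c)) x (-(16 / 100 * trh b h x)) Y.re Y.im := by
  have h1 := KR.gg_eq c (-(Th b zs h i * trh b h c)) x (-(16 / 100 * trh b h x)) Y.re Y.im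
  rw [neg_neg] at h1
  rw [D.own, h16]
  exact h1

theorem gain_opp (D : Md b zs nb z p h i s j x) (h16 : mhs b h s = 16 / 100) (Y : ℂ) :
    V2 (tgo b zs h j c) Y - V2 (Ow b z j s.rev) Y =
      KR.gg c (Th b zs h i * trh b h c) x (16 / 100 * trh b h x) Y.re Y.im := by
  have h1 := KR.gg_eq c (Th b zs h i * trh b h c) x (16 / 100 * trh b h x) Y.re Y.im
  rw [D.opp, h16]
  unfold tgo
  rw [D.Tj, neg_mul]
  exact h1

theorem gain_own0 (D : Md b zs nb z p h i s j x) (h16 : mhs b h s = 16 / 100) :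
    V2 (tgo b zs h i c) 0 - V2 (Ow b z i s) 0 =
      KR.g0 c (-(Th b zs h i * trh b h c)) x (-(16 / 100 * trh b h x)) := by
  have h1 := KR.g0_eq c (-(Th b zs h i * trh b h c)) x (-(16 / 100 * trh b h x))
  rw [neg_neg] at h1
  rw [D.own, h16]
  exact h1

theorem trh_eq {XM cl cr : ℝ} (h1 : wXM b h = XM ∧ wcl b h = cl ∧ wcr b h = cr) (y : ℝ) :
    trh b h y = tr 0 XM cl cr y := by
  unfold trh
  rw [h1.1, h1.2.1, h1.2.2]

/-- two regions with the value `V2` -/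
theorem Md.two (hb : ClassW b) (hN : NbT b R nb) (hM : MM b zs R nb z p)
    (D : Md b zs nb z p h i s j x) {XM cl cr : ℝ}
    (h1 : wXM b h = XM ∧ wcl b h = cl ∧ wcr b h = cr) (h16 : mhs b h s = 16 / 100) {Y Y' : ℂ}
    (k1 : ∀ c : ℝ, SideG b zs nb z p h i (tg b zs h c) (V2 (tgo b zs h i c) Y - V2 (Ow b z i s) Y))
    (k2 : ∀ c : ℝ, SideG b zs nb z p h j (tg b zs h c)
      (V2 (tgo b zs h j c) Y' - V2 (Ow b z j s.rev) Y'))
    (r : KR.Two XM cl cr (Th b zs h i) x Y.re Y.im Y'.re Y'.im) : False := by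
  obtain ⟨c, c0, c1, g⟩ := r
  have h2 := D.star hb hN.ok.1 hM c0 (by rw [h1.1]; exact c1) (k1 c) (k2 c)
  rw [gain_own D h16, gain_opp D h16, h16] at h2
  rw [trh_eq h1, trh_eq h1] at h2
  linarith

/-- an end with two crossings and a region with the value `V2` -/
theorem Md.one (hb : ClassW b) (hN : NbT b R nb) (hM : MM b zs R nb z p)
    (D : Md b zs nb z p h i s j x) {XM cl cr : ℝ}
    (h1 : wXM b h = XM ∧ wcl b h = cl ∧ wcr b h = cr) (h16 : mhs b h s = 16 / 100)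
    (hi : clsW b i = .twoE) {Y' : ℂ}
    (k2 : ∀ c : ℝ, SideG b zs nb z p h j (tg b zs h c)
      (V2 (tgo b zs h j c) Y' - V2 (Ow b z j s.rev) Y'))
    (r : KR.One XM cl cr (Th b zs h i) x Y'.re Y'.im) : False := by
  obtain ⟨c, c0, c1, g⟩ := r
  have h2 := D.star hb hN.ok.1 hM c0 (by rw [h1.1]; exact c1)
    (keep_twoE (c := c) hb D.adj hi) (k2 c)
  rw [gain_own0 D h16, gain_opp D h16, h16] at h2
  rw [trh_eq h1, trh_eq h1] at h2
  linarith

/-- the side of an interior region with three crossings, hinge in the slot `2` -/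
theorem side_three2 (hb : ClassW b) (A : Adj h i 2 j) (hc : clsW b i = .three) (c : ℝ) :
    SideG b zs nb z p h i (tg b zs h c)
      (V2 (tgo b zs h i c) (Ow b z i 1) - V2 (Ow b z i 2) (Ow b z i 1)) := by
  have h1 := keep_three2 (zs := zs) (nb := nb) (z := z) (p := p) (c := c) hb A hc
  rwa [V3_sub] at h1

/-- **Kind `2 | 2`.** -/
theorem par_two_two (A : Adj h i s j) (hi : clsW b i = .two) (hj : clsW b j = .two) :
    wXM b h = 60 / 100 ∧ wcl b h = 10 / 100 ∧ wcr b h = 28 / 100 := by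
  unfold wXM wcl wcr
  cases A
  · rw [hi, hj]; exact ⟨rfl, rfl, rfl⟩
  · rw [hi, hj]; exact ⟨rfl, rfl, rfl⟩

theorem par_twoE_two (A : Adj h i s j) (hi : clsW b i = .twoE) (hj : clsW b j = .two) :
    wXM b h = 60 / 100 ∧ wcl b h = 10 / 100 ∧ wcr b h = 33 / 100 := by
  unfold wXM wcl wcr
  cases A
  · rw [hi, hj]; exact ⟨rfl, rfl, rfl⟩
  · rw [hi, hj]; exact ⟨rfl, rfl, rfl⟩

theorem par_three2 (A : Adj h i 2 j) (hi : clsW b i = .three) (hj : clsW b j ≠ .one) :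
    wXM b h = 60 / 100 ∧ wcl b h = 13 / 100 ∧ wcr b h = 30 / 100 := by
  unfold wXM wcl wcr
  cases A
  rw [hi]
  rcases hk : clsW b h.succ
  case one => exact absurd hk hj
  all_goals exact ⟨rfl, rfl, rfl⟩

/-- no region with three crossings in the slot `0` -/
theorem mhs_adj (A : Adj h i s j) (h1 : ¬ (s = 0 ∧ clsW b i = .three))
    (h2 : ¬ (s = 2 ∧ clsW b j = .three)) (q : Fin 3) : mhs b h q = 16 / 100 := by
  apply mhs_16
  cases A
  · exact fun h3 => h2 ⟨rfl, h3⟩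
  · exact fun h3 => h1 ⟨rfl, h3⟩

end SR

end Pool.Agent.Work.MP_b30479_gtS.G2

end
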