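import Pool.Agent.Work.MP_b30479_gt.TBS.G2.WMR1

/-!
# Mirrored paths: rows, kind `22` (generated)
-/

set_option linter.unusedVariables false
set_option linter.unusedSimpArgs false
set_option linter.unusedTactic false
set_option linter.unreachableTactic false

set_option deprecated.oldSectionVars true

namespace Pool.Agent.Work.MP_b30479_gtS.G2

open VOL NumUs

namespace KR

namespace R22

def k0 : Cell :=
  ⟨0, 50, 0, 410, 15, 1, 1, 0, 16, 10, -296, 0, 1592, 1248, -28, 68707, 19663⟩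
theorem k0A : (k0.A D2 0 80).Side := Pm.side
  (ca := 0x8d3)
  (cb := 0x88823e388328832883883883838838d338883888238833238d3322222)
  (cc := 0)
  (cd := 0)
  (ce := 0) (by decide +kernel)
theorem k0B : (k0.B D2 0 80).Side := Pm.side
  (ca := 0x881d3)
  (cb := 0xc8288188033e38832883288388388388038838d33888388823880833238d3322222)
  (cc := 0)
  (cd := 0)
  (ce := 0) (by decide +kernel)
theorem k0l : k0.LB := Cell.lb_of0 (c := 0x880) (by decide +kernel) rfl (by decide) rfl (by
  intro x h0 h1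
  simp only [Cell.a, k0]
  push_cast
  constructor <;> linarith only [h0, h1])
theorem k0m : k0.MB := Cell.mb_of (c := 0x8808800) (by decide +kernel)
theorem r0 {x T y β y' β' : ℝ} (hx0 : ((0 : ℤ) : ℝ) / 10000 ≤ x) (hx1 : x ≤ ((50 : ℤ) : ℝ) / 10000)
    (ht0 : ((0 : ℤ) : ℝ) / 10000 ≤ T) (ht1 : T ≤ ((410 : ℤ) : ℝ) / 10000) (h0 : ((0 : ℤ) : ℝ) / 100 ≤ y)
    (h1 : y ≤ ((80 : ℤ) : ℝ) / 100) (h0' : ((0 : ℤ) : ℝ) / 100 ≤ y') (h1' : y' ≤ ((80 : ℤ) : ℝ) / 100)
    (hd : D2.In y β) (hd' : D2.In y' β') :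
    Two (60 / 100) (10 / 100) (28 / 100) T x y β y' β' := by
  have ht : tr 0 (60 / 100) (10 / 100) (28 / 100) x = x / (10 / 100) :=
    tr_a (by norm_num) (by norm_num) (by norm_num) (by push_cast at hx0; linarith only [hx0]) (by push_cast at hx1; linarith only [hx1])
  refine Two.of k0 (by simp only [k0]; norm_num) (by simp only [k0]; norm_num)
    (by simp only [k0, Cell.e]; push_cast; rw [tr_b (by norm_num) (by norm_num) (by norm_num) (by norm_num)]; ring) (by simp only [k0, Cell.a]; push_cast; rw [ht]; ring) ?_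
  exact Cell.two k0l k0m k0A k0B hx0 hx1 ht0 ht1 h0 h1 h0' h1' hd hd'

def k1 : Cell :=
  ⟨50, 200, 0, 410, 15, 1, 1, 0, 16, 10, -119, -35948, 1592, 1248, 239, 45537, 12671⟩
theorem k1A : (k1.A D2 0 80).Side := Pm.side
  (ca := 0)
  (cb := 0x881883823e38832883288803883838838803b8388338803b88083b80b289880023880323d322222)
  (cc := 0)
  (cd := 0)
  (ce := 0) (by decide +kernel)
theorem k1B : (k1.B D2 0 80).Side := Pm.side
  (ca := 0)
  (cb := 0xc8808338832e3880832888032888038838838833888338d33b88388880338d802d3323d322222)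
  (cc := 0)
  (cd := 0)
  (ce := 0) (by decide +kernel)
theorem k1l : k1.LB := Cell.lb_of (c := 0x8880088088000) (by decide +kernel)
theorem k1m : k1.MB := Cell.mb_of (c := 0x8808800) (by decide +kernel)
theorem r1 {x T y β y' β' : ℝ} (hx0 : ((50 : ℤ) : ℝ) / 10000 ≤ x) (hx1 : x ≤ ((200 : ℤ) : ℝ) / 10000)
    (ht0 : ((0 : ℤ) : ℝ) / 10000 ≤ T) (ht1 : T ≤ ((410 : ℤ) : ℝ) / 10000) (h0 : ((0 : ℤ) : ℝ) / 100 ≤ y)
    (h1 : y ≤ ((80 : ℤ) : ℝ) / 100) (h0' : ((0 : ℤ) : ℝ) / 100 ≤ y') (h1' : y' ≤ ((80 : ℤ) : ℝ) / 100)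
    (hd : D2.In y β) (hd' : D2.In y' β') :
    Two (60 / 100) (10 / 100) (28 / 100) T x y β y' β' := by
  have ht : tr 0 (60 / 100) (10 / 100) (28 / 100) x = x / (10 / 100) :=
    tr_a (by norm_num) (by norm_num) (by norm_num) (by push_cast at hx0; linarith only [hx0]) (by push_cast at hx1; linarith only [hx1])
  refine Two.of k1 (by simp only [k1]; norm_num) (by simp only [k1]; norm_num)
    (by simp only [k1, Cell.e]; push_cast; rw [tr_b (by norm_num) (by norm_num) (by norm_num) (by norm_num)]; ring) (by simp only [k1, Cell.a]; push_cast; rw [ht]; ring) ?_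
  exact Cell.two k1l k1m k1A k1B hx0 hx1 ht0 ht1 h0 h1 h0' h1' hd hd'

def k2 : Cell :=
  ⟨200, 500, 0, 410, 15, 1, 1, 0, 16, 10, -345, -25174, 1592, 1248, 366, 44111, 10429⟩
theorem k2A : (k2.A D2 0 80).Side := Pm.side
  (ca := 0)
  (cb := 0xcc838e03823e3883e328880328808823288288238838803880838803b8b2803b2880b80b2880088032880332880833222)
  (cc := 0)
  (cd := 0)
  (ce := 0) (by decide +kernel)
theorem k2B : (k2.B D2 0 80).Side := Pm.side
  (ca := 0)
  (cb := 0xcc8a82038e0388323e388083e328838823288288232888238808803883883388808808803338d3d232222)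
  (cc := 0)
  (cd := 0)
  (ce := 0) (by decide +kernel)
theorem k2l : k2.LB := Cell.lb_of (c := 0x8880088088000) (by decide +kernel)
theorem k2m : k2.MB := Cell.mb_of (c := 0x8808800) (by decide +kernel)
theorem r2 {x T y β y' β' : ℝ} (hx0 : ((200 : ℤ) : ℝ) / 10000 ≤ x) (hx1 : x ≤ ((500 : ℤ) : ℝ) / 10000)
    (ht0 : ((0 : ℤ) : ℝ) / 10000 ≤ T) (ht1 : T ≤ ((410 : ℤ) : ℝ) / 10000) (h0 : ((0 : ℤ) : ℝ) / 100 ≤ y)
    (h1 : y ≤ ((80 : ℤ) : ℝ) / 100) (h0' : ((0 : ℤ) : ℝ) / 100 ≤ y') (h1' : y' ≤ ((80 : ℤ) : ℝ) / 100)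
    (hd : D2.In y β) (hd' : D2.In y' β') :
    Two (60 / 100) (10 / 100) (28 / 100) T x y β y' β' := by
  have ht : tr 0 (60 / 100) (10 / 100) (28 / 100) x = x / (10 / 100) :=
    tr_a (by norm_num) (by norm_num) (by norm_num) (by push_cast at hx0; linarith only [hx0]) (by push_cast at hx1; linarith only [hx1])
  refine Two.of k2 (by simp only [k2]; norm_num) (by simp only [k2]; norm_num)
    (by simp only [k2, Cell.e]; push_cast; rw [tr_b (by norm_num) (by norm_num) (by norm_num) (by norm_num)]; ring) (by simp only [k2, Cell.a]; push_cast; rw [ht]; ring) ?_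
  exact Cell.two k2l k2m k2A k2B hx0 hx1 ht0 ht1 h0 h1 h0' h1' hd hd'

def k3 : Cell :=
  ⟨500, 1000, 0, 410, 15, 1, 1, 0, 16, 10, -771, -16923, 1592, 1248, -34, 51838, 10800⟩
theorem k3A : (k3.A D2 0 80).Side := Pm.side
  (ca := 0)
  (cb := 0xc883a8e3a020880880323888032e38838e3328828823288802882388b802838083280880388038803bb8b20803b2880b8b202882803388083830bbbb8003b80830b232880838b832882880008323880833222)
  (cc := 0)
  (cd := 0)
  (ce := 0) (by decide +kernel)
theorem k3B : (k3.B D2 0 80).Side := Pm.side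
  (ca := 0)
  (cb := 0xcc880c088038c08318808123e8e023acc8e033e3a0208808383c8880830880138e03023c8c0288830880332e388088038e332882882328808803888038880388388033222)
  (cc := 0)
  (cd := 0)
  (ce := 0) (by decide +kernel)
theorem k3l : k3.LB := Cell.lb_of (c := 0x88800880800) (by decide +kernel)
theorem k3m : k3.MB := Cell.mb_of (c := 0x8808800) (by decide +kernel)
theorem r3 {x T y β y' β' : ℝ} (hx0 : ((500 : ℤ) : ℝ) / 10000 ≤ x) (hx1 : x ≤ ((1000 : ℤ) : ℝ) / 10000)
    (ht0 : ((0 : ℤ) : ℝ) / 10000 ≤ T) (ht1 : T ≤ ((410 : ℤ) : ℝ) / 10000) (h0 : ((0 : ℤ) : ℝ) / 100 ≤ y)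
    (h1 : y ≤ ((80 : ℤ) : ℝ) / 100) (h0' : ((0 : ℤ) : ℝ) / 100 ≤ y') (h1' : y' ≤ ((80 : ℤ) : ℝ) / 100)
    (hd : D2.In y β) (hd' : D2.In y' β') :
    Two (60 / 100) (10 / 100) (28 / 100) T x y β y' β' := by
  have ht : tr 0 (60 / 100) (10 / 100) (28 / 100) x = x / (10 / 100) :=
    tr_a (by norm_num) (by norm_num) (by norm_num) (by push_cast at hx0; linarith only [hx0]) (by push_cast at hx1; linarith only [hx1])
  refine Two.of k3 (by simp only [k3]; norm_num) (by simp only [k3]; norm_num)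
    (by simp only [k3, Cell.e]; push_cast; rw [tr_b (by norm_num) (by norm_num) (by norm_num) (by norm_num)]; ring) (by simp only [k3, Cell.a]; push_cast; rw [ht]; ring) ?_
  exact Cell.two k3l k3m k3A k3B hx0 hx1 ht0 ht1 h0 h1 h0' h1' hd hd'

def k4 : Cell :=
  ⟨1000, 1500, 0, 410, 15, 1, 1, 16, 0, 100, -2685, 2610, 1592, 1248, 4428, 7239, 10730⟩
theorem k4A : (k4.A D2 0 80).Side := Pm.side
  (ca := 0)
  (cb := 0xc883a8a0a02088803238832e388288232882882328828823882838383b8083bbb8083032b288083bb80383b2238883238833222)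
  (cc := 0)
  (cd := 0)
  (ce := 0) (by decide +kernel)
theorem k4B : (k4.B D2 0 80).Side := Pm.side
  (ca := 0)
  (cb := 0xcc881c088138c08318818381238e03acc8e033e3a020c8383c8c08808138c08318818123088e00323cc8c0328c8382830880332e3883880388232882832882882882322)
  (cc := 0)
  (cd := 0)
  (ce := 0) (by decide +kernel)
theorem k4l : k4.LB := Cell.lb_of (c := 0x8808800) (by decide +kernel)
theorem k4m : k4.MB := Cell.mb_of (c := 0x8808800) (by decide +kernel)
theorem r4 {x T y β y' β' : ℝ} (hx0 : ((1000 : ℤ) : ℝ) / 10000 ≤ x) (hx1 : x ≤ ((1500 : ℤ) : ℝ) / 10000)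
    (ht0 : ((0 : ℤ) : ℝ) / 10000 ≤ T) (ht1 : T ≤ ((410 : ℤ) : ℝ) / 10000) (h0 : ((0 : ℤ) : ℝ) / 100 ≤ y)
    (h1 : y ≤ ((80 : ℤ) : ℝ) / 100) (h0' : ((0 : ℤ) : ℝ) / 100 ≤ y') (h1' : y' ≤ ((80 : ℤ) : ℝ) / 100)
    (hd : D2.In y β) (hd' : D2.In y' β') :
    Two (60 / 100) (10 / 100) (28 / 100) T x y β y' β' := by
  have ht : tr 0 (60 / 100) (10 / 100) (28 / 100) x = 1 :=
    tr_b (by norm_num) (by norm_num) (by push_cast at hx0; linarith only [hx0]) (by push_cast at hx1; linarith only [hx1])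
  refine Two.of k4 (by simp only [k4]; norm_num) (by simp only [k4]; norm_num)
    (by simp only [k4, Cell.e]; push_cast; rw [tr_b (by norm_num) (by norm_num) (by norm_num) (by norm_num)]; ring) (by simp only [k4, Cell.a]; push_cast; rw [ht]; ring) ?_
  exact Cell.two k4l k4m k4A k4B hx0 hx1 ht0 ht1 h0 h1 h0' h1' hd hd'

def k5 : Cell :=
  ⟨1500, 2000, 0, 410, 15, 1, 1, 16, 0, 100, -2880, 3916, 1592, 1248, 4120, 9317, 10505⟩
theorem k5A : (k5.A D2 0 80).Side := Pm.side
  (ca := 0)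
  (cb := 0xc881a8a02088323e38838e0328828803288288232882880388283838b283b288b2238880238833222)
  (cc := 0xc8a03e3a0)
  (cd := 0)
  (ce := 0) (by decide +kernel)
theorem k5B : (k5.B D2 0 80).Side := Pm.side
  (ca := 0)
  (cb := 0xccc83c0288c00828388083138e03aca8818123e3a0208c0838183c8c0c0288c0082838808313088810323e3cc8c0823388c08308182838338e332c828803880388232882832882882882322)
  (cc := 0xcc881a0a03e33e3a0)
  (cd := 0)
  (ce := 0) (by decide +kernel)
theorem k5l : k5.LB := Cell.lb_of (c := 0x8808800) (by decide +kernel)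
theorem k5m : k5.MB := Cell.mb_of (c := 0x8808800) (by decide +kernel)
theorem r5 {x T y β y' β' : ℝ} (hx0 : ((1500 : ℤ) : ℝ) / 10000 ≤ x) (hx1 : x ≤ ((2000 : ℤ) : ℝ) / 10000)
    (ht0 : ((0 : ℤ) : ℝ) / 10000 ≤ T) (ht1 : T ≤ ((410 : ℤ) : ℝ) / 10000) (h0 : ((0 : ℤ) : ℝ) / 100 ≤ y)
    (h1 : y ≤ ((80 : ℤ) : ℝ) / 100) (h0' : ((0 : ℤ) : ℝ) / 100 ≤ y') (h1' : y' ≤ ((80 : ℤ) : ℝ) / 100)
    (hd : D2.In y β) (hd' : D2.In y' β') :
    Two (60 / 100) (10 / 100) (28 / 100) T x y β y' β' := by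
  have ht : tr 0 (60 / 100) (10 / 100) (28 / 100) x = 1 :=
    tr_b (by norm_num) (by norm_num) (by push_cast at hx0; linarith only [hx0]) (by push_cast at hx1; linarith only [hx1])
  refine Two.of k5 (by simp only [k5]; norm_num) (by simp only [k5]; norm_num)
    (by simp only [k5, Cell.e]; push_cast; rw [tr_b (by norm_num) (by norm_num) (by norm_num) (by norm_num)]; ring) (by simp only [k5, Cell.a]; push_cast; rw [ht]; ring) ?_
  exact Cell.two k5l k5m k5A k5B hx0 hx1 ht0 ht1 h0 h1 h0' h1' hd hd'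

def k6 : Cell :=
  ⟨2000, 2500, 0, 410, 18, 1, 1, 16, 0, 100, -3119, 5115, 1598, 1005, 3606, 9897, 12797⟩
theorem k6A : (k6.A D2 0 80).Side := Pm.side
  (ca := 0)
  (cb := 0xc888033e3883e328838e3328828328828823288288038838b2880383288802322)
  (cc := 0xc88808e0303e3)
  (cd := 0xcf3f3)
  (ce := 0xcc82c088182a88088012082a88a0082a8a820202038e0e082e8e0e020e333e3) (by decide +kernel)
theorem k6B : (k6.B D2 0 80).Side := Pm.side
  (ca := 0)
  (cb := 0xc8c880813881308880033e3c8c03880833e32c880388038e3328808383288283288288322)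
  (cc := 0xc8818383c8c03c08881838831038e0303e3)
  (cd := 0xccc8c82032c088181a88181208812a8818811a8818811202088818102a881838831ac8a0320881812ac8283881831ac8a032020203e82e08802ee82e020e333e3)
  (ce := 0xfe3) (by decide +kernel)
theorem k6l : k6.LB := Cell.lb_of (c := 0x8808800) (by decide +kernel)
theorem k6m : k6.MB := Cell.mb_of (c := 0x8808800) (by decide +kernel)
theorem r6 {x T y β y' β' : ℝ} (hx0 : ((2000 : ℤ) : ℝ) / 10000 ≤ x) (hx1 : x ≤ ((2500 : ℤ) : ℝ) / 10000)
    (ht0 : ((0 : ℤ) : ℝ) / 10000 ≤ T) (ht1 : T ≤ ((410 : ℤ) : ℝ) / 10000) (h0 : ((0 : ℤ) : ℝ) / 100 ≤ y)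
    (h1 : y ≤ ((80 : ℤ) : ℝ) / 100) (h0' : ((0 : ℤ) : ℝ) / 100 ≤ y') (h1' : y' ≤ ((80 : ℤ) : ℝ) / 100)
    (hd : D2.In y β) (hd' : D2.In y' β') :
    Two (60 / 100) (10 / 100) (28 / 100) T x y β y' β' := by
  have ht : tr 0 (60 / 100) (10 / 100) (28 / 100) x = 1 :=
    tr_b (by norm_num) (by norm_num) (by push_cast at hx0; linarith only [hx0]) (by push_cast at hx1; linarith only [hx1])
  refine Two.of k6 (by simp only [k6]; norm_num) (by simp only [k6]; norm_num)
    (by simp only [k6, Cell.e]; push_cast; rw [tr_b (by norm_num) (by norm_num) (by norm_num) (by norm_num)]; ring) (by simp only [k6, Cell.a]; push_cast; rw [ht]; ring) ?_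
  exact Cell.two k6l k6m k6A k6B hx0 hx1 ht0 ht1 h0 h1 h0' h1' hd hd'

def k7 : Cell :=
  ⟨2500, 3000, 0, 410, 18, 1, 1, 16, 0, 100, -3371, 6127, 1598, 1005, 3603, 9909, 12797⟩
theorem k7A : (k7.A D2 0 80).Side := Pm.side
  (ca := 0)
  (cb := 0xc83838388383288183288328832880838838b283832882322)
  (cc := 0xc8383e3)
  (cd := 0xcf3f3f3)
  (ce := 0xccc8223c82c088182a888012082a880880182a8a82020203888008228e0e082e8e0e020e38880082233e3) (by decide +kernel)
theorem k7B : (k7.B D2 0 80).Side := Pm.side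
  (ca := 0)
  (cb := 0xcc833838e3e33c83838e3328838383288383288083288288322)
  (cc := 0xc8c038833e3)
  (cd := 0xcccc83c0223cc88c00880132c0881a8812082a881a8812020880812a8818801a88081208812a8818811a88188112020203881c8383cc8328808130088083228e0e082ee82e020e38880e3082233e3)
  (ce := 0xfe3) (by decide +kernel)
theorem k7l : k7.LB := Cell.lb_of (c := 0x88800) (by decide +kernel)
theorem k7m : k7.MB := Cell.mb_of (c := 0x8808800) (by decide +kernel)
theorem r7 {x T y β y' β' : ℝ} (hx0 : ((2500 : ℤ) : ℝ) / 10000 ≤ x) (hx1 : x ≤ ((3000 : ℤ) : ℝ) / 10000)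
    (ht0 : ((0 : ℤ) : ℝ) / 10000 ≤ T) (ht1 : T ≤ ((410 : ℤ) : ℝ) / 10000) (h0 : ((0 : ℤ) : ℝ) / 100 ≤ y)
    (h1 : y ≤ ((80 : ℤ) : ℝ) / 100) (h0' : ((0 : ℤ) : ℝ) / 100 ≤ y') (h1' : y' ≤ ((80 : ℤ) : ℝ) / 100)
    (hd : D2.In y β) (hd' : D2.In y' β') :
    Two (60 / 100) (10 / 100) (28 / 100) T x y β y' β' := by
  have ht : tr 0 (60 / 100) (10 / 100) (28 / 100) x = 1 :=
    tr_b (by norm_num) (by norm_num) (by push_cast at hx0; linarith only [hx0]) (by push_cast at hx1; linarith only [hx1])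
  refine Two.of k7 (by simp only [k7]; norm_num) (by simp only [k7]; norm_num)
    (by simp only [k7, Cell.e]; push_cast; rw [tr_b (by norm_num) (by norm_num) (by norm_num) (by norm_num)]; ring) (by simp only [k7, Cell.a]; push_cast; rw [ht]; ring) ?_
  exact Cell.two k7l k7m k7A k7B hx0 hx1 ht0 ht1 h0 h1 h0' h1' hd hd'

def k8 : Cell :=
  ⟨3000, 3200, 0, 410, 18, 1, 1, 16, 0, 100, -3543, 6719, 1598, 1005, 3668, 9694, 12797⟩
theorem k8A : (k8.A D2 0 80).Side := Pm.side
  (ca := 0)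
  (cb := 0xc838383883832883288328832883882838322)
  (cc := 0xc838383)
  (cd := 0xcf3f3f3)
  (ce := 0xc8c8322c8a8a0203e388328288223ee822e33) (by decide +kernel)
theorem k8B : (k8.B D2 0 80).Side := Pm.side
  (ca := 0)
  (cb := 0xc83838e3e338838e3328838328838328832888222)
  (cc := 0xc83838e3e33)
  (cd := 0xccc833c8322c880838831a881a0203e3c880880138e03288381838328838223ee8e322f33)
  (ce := 0xffe3e33) (by decide +kernel)
theorem k8l : k8.LB := Cell.lb_of (c := 0x8) (by decide +kernel)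
theorem k8m : k8.MB := Cell.mb_of (c := 0x8808800) (by decide +kernel)
theorem r8 {x T y β y' β' : ℝ} (hx0 : ((3000 : ℤ) : ℝ) / 10000 ≤ x) (hx1 : x ≤ ((3200 : ℤ) : ℝ) / 10000)
    (ht0 : ((0 : ℤ) : ℝ) / 10000 ≤ T) (ht1 : T ≤ ((410 : ℤ) : ℝ) / 10000) (h0 : ((0 : ℤ) : ℝ) / 100 ≤ y)
    (h1 : y ≤ ((80 : ℤ) : ℝ) / 100) (h0' : ((0 : ℤ) : ℝ) / 100 ≤ y') (h1' : y' ≤ ((80 : ℤ) : ℝ) / 100)
    (hd : D2.In y β) (hd' : D2.In y' β') :
    Two (60 / 100) (10 / 100) (28 / 100) T x y β y' β' := by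
  have ht : tr 0 (60 / 100) (10 / 100) (28 / 100) x = 1 :=
    tr_b (by norm_num) (by norm_num) (by push_cast at hx0; linarith only [hx0]) (by push_cast at hx1; linarith only [hx1])
  refine Two.of k8 (by simp only [k8]; norm_num) (by simp only [k8]; norm_num)
    (by simp only [k8, Cell.e]; push_cast; rw [tr_b (by norm_num) (by norm_num) (by norm_num) (by norm_num)]; ring) (by simp only [k8, Cell.a]; push_cast; rw [ht]; ring) ?_
  exact Cell.two k8l k8m k8A k8B hx0 hx1 ht0 ht1 h0 h1 h0' h1' hd hd'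

def k9 : Cell :=
  ⟨3200, 3500, 0, 410, 18, 1, 1, 96, -160, 280, -4061, 8340, 1598, 1005, 9665, -9029, 12644⟩
theorem k9A : (k9.A D2 0 80).Side := Pm.side
  (ca := 0)
  (cb := 0xc838383883832883288328832883882838322)
  (cc := 0xc838383)
  (cd := 0xcf3f3f3)
  (ce := 0xc8c8322c88a0082ce8e02303e38c8803e3883202883288223ee822e33) (by decide +kernel)
theorem k9B : (k9.B D2 0 80).Side := Pm.side
  (ca := 0)
  (cb := 0xc83838e3e338838e33288383288383288083288288222)
  (cc := 0xc83838e3e33)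
  (cd := 0xccc833c8322c881ac83208812ce8a0e02303e3c828383c8808c083883103e3c880383202c838288038328838223ee880e322f33)
  (ce := 0xffe3e33) (by decide +kernel)
theorem k9l : k9.LB := Cell.lb_of (c := 0x880) (by decide +kernel)
theorem k9m : k9.MB := Cell.mb_of (c := 0x8808800) (by decide +kernel)
theorem r9 {x T y β y' β' : ℝ} (hx0 : ((3200 : ℤ) : ℝ) / 10000 ≤ x) (hx1 : x ≤ ((3500 : ℤ) : ℝ) / 10000)
    (ht0 : ((0 : ℤ) : ℝ) / 10000 ≤ T) (ht1 : T ≤ ((410 : ℤ) : ℝ) / 10000) (h0 : ((0 : ℤ) : ℝ) / 100 ≤ y)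
    (h1 : y ≤ ((80 : ℤ) : ℝ) / 100) (h0' : ((0 : ℤ) : ℝ) / 100 ≤ y') (h1' : y' ≤ ((80 : ℤ) : ℝ) / 100)
    (hd : D2.In y β) (hd' : D2.In y' β') :
    Two (60 / 100) (10 / 100) (28 / 100) T x y β y' β' := by
  have ht : tr 0 (60 / 100) (10 / 100) (28 / 100) x = (60 / 100 - x) / (28 / 100) :=
    tr_c (by norm_num) (by norm_num) (by norm_num) (by push_cast at hx0; linarith only [hx0]) (by push_cast at hx1; linarith only [hx1])
  refine Two.of k9 (by simp only [k9]; norm_num) (by simp only [k9]; norm_num)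
    (by simp only [k9, Cell.e]; push_cast; rw [tr_b (by norm_num) (by norm_num) (by norm_num) (by norm_num)]; ring) (by simp only [k9, Cell.a]; push_cast; rw [ht]; ring) ?_
  exact Cell.two k9l k9m k9A k9B hx0 hx1 ht0 ht1 h0 h1 h0' h1' hd hd'

def k10 : Cell :=
  ⟨3500, 4000, 0, 410, 18, 1, 1, 96, -160, 280, -3929, 7963, 1598, 1005, 13959, -21307, 12343⟩
theorem k10A : (k10.A D2 0 80).Side := Pm.side
  (ca := 0)
  (cb := 0xc838803828383883832883288328832882838880283880322)
  (cc := 0x8c0838383)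
  (cd := 0xccccc832222f3f3f3)
  (ce := 0xc82888c8388332222c82c088082a8802082a88182a88801202038e0e082e8e0e020e33888382028882223e88822e32e33) (by decide +kernel)
theorem k10B : (k10.B D2 0 80).Side := Pm.side
  (ca := 0)
  (cb := 0x883838838e3382e338838e33288383288383288283288288322)
  (cc := 0x8c0838388083e33)
  (cd := 0xcccc8233c02c8c0833c838c083222cc88032c08a82082a8a820208802a880a82082a881a88120202038e0e082e8e0e020e33883c88081388138803883202883882223e888883222e32f33)
  (ce := 0xfe888f83222e32e33) (by decide +kernel)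
theorem k10l : k10.LB := Cell.lb_of (c := 0x880) (by decide +kernel)
theorem k10m : k10.MB := Cell.mb_of (c := 0x8808800) (by decide +kernel)
theorem r10 {x T y β y' β' : ℝ} (hx0 : ((3500 : ℤ) : ℝ) / 10000 ≤ x) (hx1 : x ≤ ((4000 : ℤ) : ℝ) / 10000)
    (ht0 : ((0 : ℤ) : ℝ) / 10000 ≤ T) (ht1 : T ≤ ((410 : ℤ) : ℝ) / 10000) (h0 : ((0 : ℤ) : ℝ) / 100 ≤ y)
    (h1 : y ≤ ((80 : ℤ) : ℝ) / 100) (h0' : ((0 : ℤ) : ℝ) / 100 ≤ y') (h1' : y' ≤ ((80 : ℤ) : ℝ) / 100)
    (hd : D2.In y β) (hd' : D2.In y' β') :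
    Two (60 / 100) (10 / 100) (28 / 100) T x y β y' β' := by
  have ht : tr 0 (60 / 100) (10 / 100) (28 / 100) x = (60 / 100 - x) / (28 / 100) :=
    tr_c (by norm_num) (by norm_num) (by norm_num) (by push_cast at hx0; linarith only [hx0]) (by push_cast at hx1; linarith only [hx1])
  refine Two.of k10 (by simp only [k10]; norm_num) (by simp only [k10]; norm_num)
    (by simp only [k10, Cell.e]; push_cast; rw [tr_b (by norm_num) (by norm_num) (by norm_num) (by norm_num)]; ring) (by simp only [k10, Cell.a]; push_cast; rw [ht]; ring) ?_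
  exact Cell.two k10l k10m k10A k10B hx0 hx1 ht0 ht1 h0 h1 h0' h1' hd hd'

def k11 : Cell :=
  ⟨4000, 4500, 0, 410, 18, 1, 1, 96, -160, 280, -3777, 7582, 1598, 1005, 14169, -21839, 12422⟩
theorem k11A : (k11.A D2 0 80).Side := Pm.side
  (ca := 0)
  (cb := 0x8838833880283838838328808328832882832882838883283880322)
  (cc := 0x880838383)
  (cd := 0xc8288888803880f332222f3f3)
  (ce := 0xc8c0c0881ce8e02308802aa8a02a02038c88a082038202e8e02e088e08202e333888332880883883f83880833832222e8e02888222e33) (by decide +kernel)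
theorem k11B : (k11.B D2 0 80).Side := Pm.side
  (ca := 0)
  (cb := 0x88880338838803e33888338e33288388332883832883832883832880838828322)
  (cc := 0x8883388083e33)
  (cd := 0xcc8c02c0880880182ce8e0230888102aa8a02a0203881c88a0a088088012038c08803202e8e02e088e08202e333cc8c0823388083838232c8383c838383883838808880332222e8288888088032222f3f33)
  (ce := 0xfe828888880880322222e33) (by decide +kernel)
theorem k11l : k11.LB := Cell.lb_of (c := 0x880) (by decide +kernel)
theorem k11m : k11.MB := Cell.mb_of (c := 0x8808800) (by decide +kernel)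
theorem r11 {x T y β y' β' : ℝ} (hx0 : ((4000 : ℤ) : ℝ) / 10000 ≤ x) (hx1 : x ≤ ((4500 : ℤ) : ℝ) / 10000)
    (ht0 : ((0 : ℤ) : ℝ) / 10000 ≤ T) (ht1 : T ≤ ((410 : ℤ) : ℝ) / 10000) (h0 : ((0 : ℤ) : ℝ) / 100 ≤ y)
    (h1 : y ≤ ((80 : ℤ) : ℝ) / 100) (h0' : ((0 : ℤ) : ℝ) / 100 ≤ y') (h1' : y' ≤ ((80 : ℤ) : ℝ) / 100)
    (hd : D2.In y β) (hd' : D2.In y' β') :
    Two (60 / 100) (10 / 100) (28 / 100) T x y β y' β' := by
  have ht : tr 0 (60 / 100) (10 / 100) (28 / 100) x = (60 / 100 - x) / (28 / 100) :=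
    tr_c (by norm_num) (by norm_num) (by norm_num) (by push_cast at hx0; linarith only [hx0]) (by push_cast at hx1; linarith only [hx1])
  refine Two.of k11 (by simp only [k11]; norm_num) (by simp only [k11]; norm_num)
    (by simp only [k11, Cell.e]; push_cast; rw [tr_b (by norm_num) (by norm_num) (by norm_num) (by norm_num)]; ring) (by simp only [k11, Cell.a]; push_cast; rw [ht]; ring) ?_
  exact Cell.two k11l k11m k11A k11B hx0 hx1 ht0 ht1 h0 h1 h0' h1' hd hd'

def k12 : Cell :=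
  ⟨4500, 5000, 0, 410, 18, 1, 1, 96, -160, 280, -3628, 7251, 1598, 1005, 14714, -23025, 13308⟩
theorem k12A : (k12.A D2 0 80).Side := Pm.side
  (ca := 0)
  (cb := 0x88088338808338838328388383288383288083288283288283838b80283838322)
  (cc := 0x8880388083383)
  (cd := 0xc828888808883232222f3f3)
  (ce := 0xc8c0c0882a8a02082a8a082a020388c88038208202e82e0e388e082023388328883883883f883388083322222e8e32888822223) (by decide +kernel)
theorem k12B : (k12.B D2 0 80).Side := Pm.side
  (ca := 0)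
  (cb := 0x88888033388083838338838833288383288283832882838328828802838828322)
  (cc := 0x8888033883833)
  (cd := 0xcc8c02c088182a8a0208802a8a0a08802a02038881c880880182308202e82e0e388e0820233cc838238808332c8383838808383880838888803332222e828888802222f3f3f33)
  (ce := 0xffffe82888822223f0333e8802888e388083838322223) (by decide +kernel)
theorem k12l : k12.LB := Cell.lb_of (c := 0x8) (by decide +kernel)
theorem k12m : k12.MB := Cell.mb_of (c := 0x8808800) (by decide +kernel)
theorem r12 {x T y β y' β' : ℝ} (hx0 : ((4500 : ℤ) : ℝ) / 10000 ≤ x) (hx1 : x ≤ ((5000 : ℤ) : ℝ) / 10000)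
    (ht0 : ((0 : ℤ) : ℝ) / 10000 ≤ T) (ht1 : T ≤ ((410 : ℤ) : ℝ) / 10000) (h0 : ((0 : ℤ) : ℝ) / 100 ≤ y)
    (h1 : y ≤ ((80 : ℤ) : ℝ) / 100) (h0' : ((0 : ℤ) : ℝ) / 100 ≤ y') (h1' : y' ≤ ((80 : ℤ) : ℝ) / 100)
    (hd : D2.In y β) (hd' : D2.In y' β') :
    Two (60 / 100) (10 / 100) (28 / 100) T x y β y' β' := by
  have ht : tr 0 (60 / 100) (10 / 100) (28 / 100) x = (60 / 100 - x) / (28 / 100) :=
    tr_c (by norm_num) (by norm_num) (by norm_num) (by push_cast at hx0; linarith only [hx0]) (by push_cast at hx1; linarith only [hx1])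
  refine Two.of k12 (by simp only [k12]; norm_num) (by simp only [k12]; norm_num)
    (by simp only [k12, Cell.e]; push_cast; rw [tr_b (by norm_num) (by norm_num) (by norm_num) (by norm_num)]; ring) (by simp only [k12, Cell.a]; push_cast; rw [ht]; ring) ?_
  exact Cell.two k12l k12m k12A k12B hx0 hx1 ht0 ht1 h0 h1 h0' h1' hd hd'

def k13s : Cell :=
  ⟨5000, 5500, 0, 410, 35, 25, 28, 96, -160, 280, -3468, 6931, 978, 261, 15255, -24435, 14461⟩
theorem k13sA : (k13s.A D2 0 55).Side := Pm.side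
  (ca := 0)
  (cb := 0x88880338808383388328388383288383288283288288283288232)
  (cc := 0x8880388083383)
  (cd := 0x8838838808388880338f3f33222f3)
  (ce := 0x883883388383883ff83388383328322) (by decide +kernel)
theorem k13sB : (k13s.B D2 0 55).Side := Pm.side
  (ca := 0)
  (cb := 0x888088088033388383833883883328838833288383288083832883882288232)
  (cc := 0x88808803388083833)
  (cd := 0x8808388038808388838808808332322f3)
  (ce := 0xf838833f838833f838833ff888033388383833222) (by decide +kernel)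
theorem k13sl : k13s.LB := Cell.lb_of (c := 0x8) (by decide +kernel)
theorem k13sm : k13s.MB := Cell.mb_of (c := 0x880) (by decide +kernel)
def k13u : Cell :=
  ⟨5000, 5500, 0, 410, 18, 1, 1, 96, -160, 280, -3468, 6931, 1598, 1005, 12794, -23647, 6476⟩
theorem k13uA : (k13u.A D2 55 80).Side := Pm.side
  (ca := 0)
  (cb := 0)
  (cc := 0)
  (cd := 0xc8c0c088f002f3f33880832888083288032f3)
  (ce := 0xcc82c088182a88a002082ac82c08e082e8e0203c82c08e082e8e0e0203120388c88182308202e82e0e388e0820233e388803882e3328883288332) (by decide +kernel)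
theorem k13uB : (k13u.B D2 0 80).Side := Pm.side
  (ca := 0)
  (cb := 0x8880880833388083833883883328838328828328808328838808322)
  (cc := 0x8888033883833)
  (cd := 0xcc82c088082a88a002082a8c082c8c020880e8a02038c082c8c02088082e8a020312038e0e082e0e3338c083c8c083880382302c83832883883883888088832332222f3)
  (ce := 0xff8e082f0e38882028288888832222233e8288880883838322223) (by decide +kernel)
theorem k13ul : k13u.LB := Cell.lb_of (c := 0x8) (by decide +kernel)
theorem k13um : k13u.MB := Cell.mb_of (c := 0x8808800) (by decide +kernel)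
def k13v : Cell :=
  ⟨5000, 5500, 0, 410, 18, 1, 1, 96, -160, 280, -3468, 6931, 1598, 1005, 13725, -20328, 11658⟩
theorem k13vA : (k13v.A D2 0 80).Side := Pm.side
  (ca := 0)
  (cb := 0x88880338808383388328388383288283288283288283838b283838322)
  (cc := 0x88803883383)
  (cd := 0xcc82c0f3f33883c8f0302883288088388388083888338f3f3322222f3)
  (ce := 0xcc82c0882a888012082a880c8c020880e8a02038c082c8c02088082e8a020312038e0e082e0e333f83c880880382302883288883883ff83388383322222e8e32888822223) (by decide +kernel)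
theorem k13vB : (k13v.B D2 55 80).Side := Pm.side
  (ca := 0)
  (cb := 0)
  (cc := 0)
  (cd := 0xcc8c02c088182a8a820208802ac82c08e082e8e0203c82c08e082e8e0e020312038880c88182308202e82e0e388e0820233cc8382388332ccc9c0c0813881392c830288032880823880388232f3)
  (ce := 0xfffe3e38fe30233e3f8388032f88038808332) (by decide +kernel)
theorem k13vl : k13v.LB := Cell.lb_of (c := 0x8) (by decide +kernel)
theorem k13vm : k13v.MB := Cell.mb_of (c := 0x8808800) (by decide +kernel)
theorem r13 {x T y β y' β' : ℝ} (hx0 : ((5000 : ℤ) : ℝ) / 10000 ≤ x) (hx1 : x ≤ ((5500 : ℤ) : ℝ) / 10000)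
    (ht0 : ((0 : ℤ) : ℝ) / 10000 ≤ T) (ht1 : T ≤ ((410 : ℤ) : ℝ) / 10000) (h0 : ((0 : ℤ) : ℝ) / 100 ≤ y)
    (h1 : y ≤ ((80 : ℤ) : ℝ) / 100) (h0' : ((0 : ℤ) : ℝ) / 100 ≤ y') (h1' : y' ≤ ((80 : ℤ) : ℝ) / 100)
    (hd : D2.In y β) (hd' : D2.In y' β') :
    Two (60 / 100) (10 / 100) (28 / 100) T x y β y' β' := by
  have ht : tr 0 (60 / 100) (10 / 100) (28 / 100) x = (60 / 100 - x) / (28 / 100) :=
    tr_c (by norm_num) (by norm_num) (by norm_num) (by push_cast at hx0; linarith only [hx0]) (by push_cast at hx1; linarith only [hx1])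
  rcases le_total (((55 : ℤ) : ℝ) / 100) y with c1 | c1
  · skip
    refine Two.of k13u (by simp only [k13u]; norm_num) (by simp only [k13u]; norm_num)
      (by simp only [k13u, Cell.e]; push_cast; rw [tr_b (by norm_num) (by norm_num) (by norm_num) (by norm_num)]; ring) (by simp only [k13u, Cell.a]; push_cast; rw [ht]; ring) ?_
    exact Cell.two k13ul k13um k13uA k13uB hx0 hx1 ht0 ht1 c1 h1 h0' h1' hd hd'
  rcases le_total (((55 : ℤ) : ℝ) / 100) y' with c2 | c2
  · skip
    refine Two.of k13v (by simp only [k13v]; norm_num) (by simp only [k13v]; norm_num)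
      (by simp only [k13v, Cell.e]; push_cast; rw [tr_b (by norm_num) (by norm_num) (by norm_num) (by norm_num)]; ring) (by simp only [k13v, Cell.a]; push_cast; rw [ht]; ring) ?_
    exact Cell.two k13vl k13vm k13vA k13vB hx0 hx1 ht0 ht1 h0 h1 c2 h1' hd hd'
  refine Two.of k13s (by simp only [k13s]; norm_num) (by simp only [k13s]; norm_num)
    (by simp only [k13s, Cell.e]; push_cast; rw [tr_c (by norm_num) (by norm_num) (by norm_num) (by norm_num) (by norm_num)]; ring) (by simp only [k13s, Cell.a]; push_cast; rw [ht]; ring) ?_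
  exact Cell.two k13sl k13sm k13sA k13sB hx0 hx1 ht0 ht1 h0 c1 h0' c2 hd hd'

def k14s : Cell :=
  ⟨5500, 5750, 0, 410, 40, 20, 28, 96, -160, 280, -3332, 6684, 673, 107, 17921, -29614, 15473⟩
theorem k14sA : (k14s.A D2 0 55).Side := Pm.side
  (ca := 0)
  (cb := 0x88388383388083283883832883832883832880838880283288232)
  (cc := 0x883883383)
  (cd := 0x880882388388083883883f33222f3)
  (ce := 0xf888033880833f8383f888383238322) (by decide +kernel)
theorem k14sB : (k14s.B D2 0 55).Side := Pm.side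
  (ca := 0)
  (cb := 0x8883883388023883388388332883832882838328828388232)
  (cc := 0x88808338833)
  (cd := 0x8838833880833883838808808838f332322f3)
  (ce := 0xff8338833f838833f838833ff883338833222) (by decide +kernel)
theorem k14sl : k14s.LB := Cell.lb_of (c := 0x8) (by decide +kernel)
theorem k14sm : k14s.MB := Cell.mb_of (c := 0x8) (by decide +kernel)
def k14u : Cell :=
  ⟨5500, 5750, 0, 410, 18, 1, 1, 96, -160, 280, -3332, 6684, 1598, 1005, 13331, -24662, 8498⟩
theorem k14uA : (k14u.A D2 55 80).Side := Pm.side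
  (ca := 0)
  (cb := 0)
  (cc := 0)
  (cd := 0xcc8f0f03883282f33c838328880283832f3)
  (ce := 0xfc88082a8a0203e388803880e33288023e3f83e823288088232) (by decide +kernel)
theorem k14uB : (k14u.B D2 0 80).Side := Pm.side
  (ca := 0)
  (cb := 0x88838823823883388383288383288283288802832)
  (cc := 0x888338833)
  (cd := 0xcc8803e38802ac8813e320883238c08328832882883883888828803232222f3)
  (ce := 0xff8e0e082e3828288888802222233e8288888322223) (by decide +kernel)
theorem k14ul : k14u.LB := Cell.lb_of (c := 0x8) (by decide +kernel)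
theorem k14um : k14u.MB := Cell.mb_of (c := 0x8808800) (by decide +kernel)
def k14v : Cell :=
  ⟨5500, 5750, 0, 410, 18, 1, 1, 96, -160, 280, -3332, 6684, 1598, 1005, 13948, -20735, 11684⟩
theorem k14vA : (k14v.A D2 0 80).Side := Pm.side
  (ca := 0)
  (cb := 0x8838838338832838838328838328828328828808328388032)
  (cc := 0x883883383)
  (cd := 0xcc8f0f0382f33883288028883883883883883f3322222f3)
  (ce := 0xfc8803e382ac8803e32088328282888888228322223e82888822223) (by decide +kernel)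
theorem k14vB : (k14v.B D2 55 80).Side := Pm.side
  (ca := 0)
  (cb := 0)
  (cc := 0)
  (cd := 0xcc88182a8a0203e38c8308f33288323c8803832cccc9c920c028c012388132882383832f3)
  (ce := 0xffe88028233e38808328832) (by decide +kernel)
theorem k14vl : k14v.LB := Cell.lb_of (c := 0x8) (by decide +kernel)
theorem k14vm : k14v.MB := Cell.mb_of (c := 0x8808800) (by decide +kernel)
theorem r14 {x T y β y' β' : ℝ} (hx0 : ((5500 : ℤ) : ℝ) / 10000 ≤ x) (hx1 : x ≤ ((5750 : ℤ) : ℝ) / 10000)
    (ht0 : ((0 : ℤ) : ℝ) / 10000 ≤ T) (ht1 : T ≤ ((410 : ℤ) : ℝ) / 10000) (h0 : ((0 : ℤ) : ℝ) / 100 ≤ y)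
    (h1 : y ≤ ((80 : ℤ) : ℝ) / 100) (h0' : ((0 : ℤ) : ℝ) / 100 ≤ y') (h1' : y' ≤ ((80 : ℤ) : ℝ) / 100)
    (hd : D2.In y β) (hd' : D2.In y' β') :
    Two (60 / 100) (10 / 100) (28 / 100) T x y β y' β' := by
  have ht : tr 0 (60 / 100) (10 / 100) (28 / 100) x = (60 / 100 - x) / (28 / 100) :=
    tr_c (by norm_num) (by norm_num) (by norm_num) (by push_cast at hx0; linarith only [hx0]) (by push_cast at hx1; linarith only [hx1])
  rcases le_total (((55 : ℤ) : ℝ) / 100) y with c1 | c1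
  · skip
    refine Two.of k14u (by simp only [k14u]; norm_num) (by simp only [k14u]; norm_num)
      (by simp only [k14u, Cell.e]; push_cast; rw [tr_b (by norm_num) (by norm_num) (by norm_num) (by norm_num)]; ring) (by simp only [k14u, Cell.a]; push_cast; rw [ht]; ring) ?_
    exact Cell.two k14ul k14um k14uA k14uB hx0 hx1 ht0 ht1 c1 h1 h0' h1' hd hd'
  rcases le_total (((55 : ℤ) : ℝ) / 100) y' with c2 | c2
  · skip
    refine Two.of k14v (by simp only [k14v]; norm_num) (by simp only [k14v]; norm_num)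
      (by simp only [k14v, Cell.e]; push_cast; rw [tr_b (by norm_num) (by norm_num) (by norm_num) (by norm_num)]; ring) (by simp only [k14v, Cell.a]; push_cast; rw [ht]; ring) ?_
    exact Cell.two k14vl k14vm k14vA k14vB hx0 hx1 ht0 ht1 h0 h1 c2 h1' hd hd'
  refine Two.of k14s (by simp only [k14s]; norm_num) (by simp only [k14s]; norm_num)
    (by simp only [k14s, Cell.e]; push_cast; rw [tr_c (by norm_num) (by norm_num) (by norm_num) (by norm_num) (by norm_num)]; ring) (by simp only [k14s, Cell.a]; push_cast; rw [ht]; ring) ?_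
  exact Cell.two k14sl k14sm k14sA k14sB hx0 hx1 ht0 ht1 h0 c1 h0' c2 hd hd'

def k15s : Cell :=
  ⟨5750, 6000, 0, 410, 40, 20, 28, 96, -160, 280, -3235, 6515, 673, 107, 20217, -33695, 17853⟩
theorem k15sA : (k15s.A D2 0 55).Side := Pm.side
  (ca := 0)
  (cb := 0x88388388038238833880838328808383288802838328882283880b283b2832882388232)
  (cc := 0x8838808338803)
  (cd := 0x883880823883880838838808803f33222f3)
  (ce := 0xf883823880833f838803f838803ff8803883338833222) (by decide +kernel)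
theorem k15sB : (k15s.B D2 0 55).Side := Pm.side
  (ca := 0)
  (cb := 0x8838838833880238833880838833288283832882838383288283882b2832880388232)
  (cc := 0x8838808338833)
  (cd := 0x88088038833883832883838808388388803f80f333222f3)
  (ce := 0xf8828238833f838823f838833f883f838833238833222) (by decide +kernel)
theorem k15sl : k15s.LB := Cell.lb_of (c := 0x8) (by decide +kernel)
theorem k15sm : k15s.MB := Cell.mb_of (c := 0x8) (by decide +kernel)
def k15u : Cell :=
  ⟨5750, 6000, 0, 410, 18, 1, 1, 96, -160, 280, -3235, 6515, 1598, 1005, 13605, -25172, 9476⟩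
theorem k15uA : (k15u.A D2 55 80).Side := Pm.side
  (ca := 0)
  (cb := 0)
  (cc := 0)
  (cd := 0xcc8808801a8a020388803282f33c83832ccc88c01238328383832f3)
  (ce := 0xff8808801a8a0203e3f8803880e33288023e3882e8232888032) (by decide +kernel)
theorem k15uB : (k15u.B D2 0 80).Side := Pm.side
  (ca := 0)
  (cb := 0x8883882382388338838328838328838328828822832)
  (cc := 0x888338803)
  (cd := 0xcc880382f3ac8803e32088323c82832883288288388388882f803232222f3)
  (ce := 0xff83e382af8803e3208802828288888828823222223e8288888022223) (by decide +kernel)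
theorem k15ul : k15u.LB := Cell.lb_of (c := 0x8) (by decide +kernel)
theorem k15um : k15u.MB := Cell.mb_of (c := 0x8808800) (by decide +kernel)
def k15v : Cell :=
  ⟨5750, 6000, 0, 410, 18, 1, 1, 96, -160, 280, -3235, 6515, 1598, 1005, 14162, -21108, 11677⟩
theorem k15vA : (k15v.A D2 0 80).Side := Pm.side
  (ca := 0)
  (cb := 0x8838838382383883832883832880838328828b283283832)
  (cc := 0x880883383)
  (cd := 0xcc88082a88020382f338832882288088388388388832f332222f3)
  (ce := 0xff8803e382af8803e32088128282888888283222223e82888822223) (by decide +kernel)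
theorem k15vB : (k15v.B D2 55 80).Side := Pm.side
  (ca := 0)
  (cb := 0)
  (cc := 0)
  (cd := 0xcc88182a8a0203e38c8308f33288323c8803832cccc9c920c0223c8980802812838132882383832f3)
  (ce := 0xfff880fe3033e388808e0302823e38828328832) (by decide +kernel)
theorem k15vl : k15v.LB := Cell.lb_of (c := 0x8) (by decide +kernel)
theorem k15vm : k15v.MB := Cell.mb_of (c := 0x8808800) (by decide +kernel)
theorem r15 {x T y β y' β' : ℝ} (hx0 : ((5750 : ℤ) : ℝ) / 10000 ≤ x) (hx1 : x ≤ ((6000 : ℤ) : ℝ) / 10000)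
    (ht0 : ((0 : ℤ) : ℝ) / 10000 ≤ T) (ht1 : T ≤ ((410 : ℤ) : ℝ) / 10000) (h0 : ((0 : ℤ) : ℝ) / 100 ≤ y)
    (h1 : y ≤ ((80 : ℤ) : ℝ) / 100) (h0' : ((0 : ℤ) : ℝ) / 100 ≤ y') (h1' : y' ≤ ((80 : ℤ) : ℝ) / 100)
    (hd : D2.In y β) (hd' : D2.In y' β') :
    Two (60 / 100) (10 / 100) (28 / 100) T x y β y' β' := by
  have ht : tr 0 (60 / 100) (10 / 100) (28 / 100) x = (60 / 100 - x) / (28 / 100) :=
    tr_c (by norm_num) (by norm_num) (by norm_num) (by push_cast at hx0; linarith only [hx0]) (by push_cast at hx1; linarith only [hx1])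
  rcases le_total (((55 : ℤ) : ℝ) / 100) y with c1 | c1
  · skip
    refine Two.of k15u (by simp only [k15u]; norm_num) (by simp only [k15u]; norm_num)
      (by simp only [k15u, Cell.e]; push_cast; rw [tr_b (by norm_num) (by norm_num) (by norm_num) (by norm_num)]; ring) (by simp only [k15u, Cell.a]; push_cast; rw [ht]; ring) ?_
    exact Cell.two k15ul k15um k15uA k15uB hx0 hx1 ht0 ht1 c1 h1 h0' h1' hd hd'
  rcases le_total (((55 : ℤ) : ℝ) / 100) y' with c2 | c2
  · skip
    refine Two.of k15v (by simp only [k15v]; norm_num) (by simp only [k15v]; norm_num)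
      (by simp only [k15v, Cell.e]; push_cast; rw [tr_b (by norm_num) (by norm_num) (by norm_num) (by norm_num)]; ring) (by simp only [k15v, Cell.a]; push_cast; rw [ht]; ring) ?_
    exact Cell.two k15vl k15vm k15vA k15vB hx0 hx1 ht0 ht1 h0 h1 c2 h1' hd hd'
  refine Two.of k15s (by simp only [k15s]; norm_num) (by simp only [k15s]; norm_num)
    (by simp only [k15s, Cell.e]; push_cast; rw [tr_c (by norm_num) (by norm_num) (by norm_num) (by norm_num) (by norm_num)]; ring) (by simp only [k15s, Cell.a]; push_cast; rw [ht]; ring) ?_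
  exact Cell.two k15sl k15sm k15sA k15sB hx0 hx1 ht0 ht1 h0 c1 h0' c2 hd hd'

theorem rows {x T y β y' β' : ℝ} (hx0 : 0 ≤ x) (hx1 : x ≤ 60 / 100) (ht0 : 0 ≤ T) (ht1 : T ≤ 410 / 10000)
    (h0 : 0 ≤ y) (h1 : y ≤ 8 / 10) (h0' : 0 ≤ y') (h1' : y' ≤ 8 / 10) (hd : D2.In y β)
    (hd' : D2.In y' β') : Two (60 / 100) (10 / 100) (28 / 100) T x y β y' β' := by
  have t0 : ((0 : ℤ) : ℝ) / 10000 ≤ T := by push_cast; linarith only [ht0]
  have t1 : T ≤ ((410 : ℤ) : ℝ) / 10000 := by push_cast; linarith only [ht1]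
  have y0 : ((0 : ℤ) : ℝ) / 100 ≤ y := by push_cast; linarith only [h0]
  have y1 : y ≤ ((80 : ℤ) : ℝ) / 100 := by push_cast; linarith only [h1]
  have y0' : ((0 : ℤ) : ℝ) / 100 ≤ y' := by push_cast; linarith only [h0']
  have y1' : y' ≤ ((80 : ℤ) : ℝ) / 100 := by push_cast; linarith only [h1']
  have g0 : ((0 : ℤ) : ℝ) / 10000 ≤ x := by push_cast; linarith only [hx0]
  rcases le_total x (((50 : ℤ) : ℝ) / 10000) with c0 | g1
  · exact r0 g0 c0 t0 t1 y0 y1 y0' y1' hd hd'
  rcases le_total x (((200 : ℤ) : ℝ) / 10000) with c1 | g2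
  · exact r1 g1 c1 t0 t1 y0 y1 y0' y1' hd hd'
  rcases le_total x (((500 : ℤ) : ℝ) / 10000) with c2 | g3
  · exact r2 g2 c2 t0 t1 y0 y1 y0' y1' hd hd'
  rcases le_total x (((1000 : ℤ) : ℝ) / 10000) with c3 | g4
  · exact r3 g3 c3 t0 t1 y0 y1 y0' y1' hd hd'
  rcases le_total x (((1500 : ℤ) : ℝ) / 10000) with c4 | g5
  · exact r4 g4 c4 t0 t1 y0 y1 y0' y1' hd hd'
  rcases le_total x (((2000 : ℤ) : ℝ) / 10000) with c5 | g6
  · exact r5 g5 c5 t0 t1 y0 y1 y0' y1' hd hd'
  rcases le_total x (((2500 : ℤ) : ℝ) / 10000) with c6 | g7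
  · exact r6 g6 c6 t0 t1 y0 y1 y0' y1' hd hd'
  rcases le_total x (((3000 : ℤ) : ℝ) / 10000) with c7 | g8
  · exact r7 g7 c7 t0 t1 y0 y1 y0' y1' hd hd'
  rcases le_total x (((3200 : ℤ) : ℝ) / 10000) with c8 | g9
  · exact r8 g8 c8 t0 t1 y0 y1 y0' y1' hd hd'
  rcases le_total x (((3500 : ℤ) : ℝ) / 10000) with c9 | g10
  · exact r9 g9 c9 t0 t1 y0 y1 y0' y1' hd hd'
  rcases le_total x (((4000 : ℤ) : ℝ) / 10000) with c10 | g11
  · exact r10 g10 c10 t0 t1 y0 y1 y0' y1' hd hd'
  rcases le_total x (((4500 : ℤ) : ℝ) / 10000) with c11 | g12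
  · exact r11 g11 c11 t0 t1 y0 y1 y0' y1' hd hd'
  rcases le_total x (((5000 : ℤ) : ℝ) / 10000) with c12 | g13
  · exact r12 g12 c12 t0 t1 y0 y1 y0' y1' hd hd'
  rcases le_total x (((5500 : ℤ) : ℝ) / 10000) with c13 | g14
  · exact r13 g13 c13 t0 t1 y0 y1 y0' y1' hd hd'
  rcases le_total x (((5750 : ℤ) : ℝ) / 10000) with c14 | g15
  · exact r14 g14 c14 t0 t1 y0 y1 y0' y1' hd hd'
  exact r15 g15 (by push_cast; linarith only [hx1]) t0 t1 y0 y1 y0' y1' hd hd'

end R22

end KR

end Pool.Agent.Work.MP_b30479_gtS.G2
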