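import Pool.Agent.Work.MP_b30479_gt.TBS.G2.V33C
import Pool.Agent.Work.MP_b30479_gt.TBS.G2.V30B
import Pool.Agent.Work.MP_b30479_gt.TBS.G2.MLev
import Pool.Agent.Work.MP_b30479_gt.TBS.TB.HW
import Pool.Agent.Work.MP_b30479_gt.TBS.G2.V30K
import Pool.Agent.Work.MP_b30479_gt.TBS.G2.V2Move
import Pool.Agent.Work.MP_b30479_gt.TBS.G2.R32
import Pool.Agent.Work.MP_b30479_gt.TBS.G2.WMR3
import Pool.Agent.Work.MP_b30479_gt.TBS.G2.WMR1
import Pool.Agent.Work.MP_b30479_gt.TBS.G2.WMRE2
import Pool.Agent.Work.MP_b30479_gt.TBS.G2.WMainS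
import Pool.Agent.Work.MP_b30479_gt.TBS.G2.WMid
import Pool.Agent.Work.MP_b30479_gt.TBS.G2.RVa
import Pool.Agent.Work.MP_b30479_gt.TBS.G2.WMR22
import Pool.Agent.Work.MP_b30479_gt.TBS.G2.WLocF

section

/-!
# A hinge between two inner digits `3`, right ramp: the right digit
-/

namespace Pool.Agent.Work.MP_b30479_gtS.G2

open VOL NumUs

namespace VL

namespace S33

open NumIs (V)
open NumUs.E (q var)

variable {x T r t y w h : ℝ}

/-- ranges of the variables of the right digit -/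
structure Rr (x T t : ℝ) : Prop where
  x0 : 39 / 100 ≤ x
  x1 : x ≤ 1 / 2
  T0 : -(22 / 1000) ≤ T
  T1 : T ≤ 22 / 1000
  t0 : -(114 / 1000) ≤ t
  t1 : t ≤ 5 / 1000
  d0 : -(105 / 1000) ≤ t - T
  d1 : t - T ≤ 28 / 1000

theorem Rr.win (H : Rr x T t) : ∀ f ∈ eW, f.val [x, T, r, t] ≤ 0 := by
  intro f hf
  have h1 := H.d0
  have h2 := H.d1
  simp only [eW, List.mem_cons, List.not_mem_nil, or_false] at hf
  rcases hf with rfl | rfl
  · simp only [E.val, NumIs.lkR]
    push_cast
    linarith only [h1]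
  · simp only [E.val, NumIs.lkR]
    push_cast
    linarith only [h2]

/-- use of a list whose last entries do not occur -/
theorem Rr.use {es : List E} {fuel c : ℕ} {a4 b4 : ℤ} (H : Rr x T t) {a b : ℤ}
    (k : chkT (es ++ eW) fuel c [V.of 10000 3900 5000, V.of 10000 (-220) 220,
      V.of 10000 a b, V.of 10000 a4 b4] = true) (hr : (a : ℝ) / 10000 ≤ r)
    (hr' : r ≤ (b : ℝ) / 10000) (ht : (a4 : ℝ) / 10000 ≤ t) (ht' : t ≤ (b4 : ℝ) / 10000) :
    ∃ f ∈ es, 0 < f.val [x, T, r, t] := by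
  obtain ⟨a1, a2, a3, a4, a5, a6, a7, a8⟩ := H
  obtain ⟨f, hf, hq⟩ := chkT4 k (by norm_num) (x := x) (y := T) (z := r) (w := t)
    (by push_cast; linarith only [a1]) (by push_cast; linarith only [a2]) (by push_cast; linarith only [a3])
    (by push_cast; linarith only [a4]) (by push_cast; exact hr) (by push_cast; exact hr')
    (by push_cast; exact ht) (by push_cast; exact ht')
  rcases List.mem_append.1 hf with h1 | h1
  · exact ⟨f, h1, hq⟩
  · exact absurd hq (not_lt.2 (Rr.win ⟨a1, a2, a3, a4, a5, a6, a7, a8⟩ f h1))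

/-- `r ≤ 2/100` -/
theorem r_A (H : Rr x T t) (hr : 0 ≤ r) (hr' : r ≤ 2 / 100) (hy : y = 20 * (t * r)) :
    (y ≤ hR x T → s3l 1 x T r y < bb x T) ∧ (hR x T ≤ y → s3l (-1) x T r y < bb x T) := by
  have t0 := H.t0
  have t1 := H.t1
  constructor
  · intro hh
    obtain ⟨f, hf, hq⟩ := H.use k_Ap (r := r) (by push_cast; linarith only [hr]) (by push_cast; linarith only [hr'])
      (by push_cast; linarith only [t0]) (by push_cast; linarith only [t1])
    simp only [List.mem_cons, List.not_mem_nil, or_false] at hf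
    rcases hf with rfl | rfl
    · simp only [e3L, E.val, eB_val, e3l_val, yl, NumIs.lkR] at hq
      push_cast at hq
      rw [div_one, ← hy] at hq
      linarith only [hq]
    · simp only [E.val, eH_val, yl, NumIs.lkR] at hq
      push_cast at hq
      rw [div_one, ← hy] at hq
      linarith only [hh, hq]
  · intro hh
    obtain ⟨f, hf, hq⟩ := H.use k_Am (r := r) (by push_cast; linarith only [hr]) (by push_cast; linarith only [hr'])
      (by push_cast; linarith only [t0]) (by push_cast; linarith only [t1])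
    simp only [List.mem_cons, List.not_mem_nil, or_false] at hf
    rcases hf with rfl | rfl
    · simp only [e3L, E.val, eB_val, e3l_val, yl, NumIs.lkR] at hq
      push_cast at hq
      rw [div_one, ← hy] at hq
      linarith only [hq]
    · simp only [E.val, eH_val, yl, NumIs.lkR] at hq
      push_cast at hq
      rw [div_one, ← hy] at hq
      linarith only [hh, hq]

/-- `2/100 ≤ r ≤ 5/100` -/
theorem r_B (H : Rr x T t) (hr : 2 / 100 ≤ r) (hr' : r ≤ 5 / 100) (hy : y = 20 * (t * r)) :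
    (y ≤ hR x T → s3l 1 x T r y < bb x T ∨ (gg r < d0 (53 / 100) x T r y t ∧
      t < -(56 / 1000 + 28 / 100 * r))) ∧ (hR x T ≤ y → s3l (-1) x T r y < bb x T) := by
  have t0 := H.t0
  have t1 := H.t1
  constructor
  · intro hh
    obtain ⟨f, hf, hq⟩ := H.use k_Bp (r := r) (by push_cast; linarith only [hr]) (by push_cast; linarith only [hr'])
      (by push_cast; linarith only [t0]) (by push_cast; linarith only [t1])
    simp only [List.mem_cons, List.not_mem_nil, or_false] at hf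
    rcases hf with rfl | rfl | rfl
    · simp only [e3L, E.val, eB_val, e3l_val, yl, NumIs.lkR] at hq
      push_cast at hq
      rw [div_one, ← hy] at hq
      left
      linarith only [hq]
    · obtain ⟨f', hf', hq'⟩ := H.use k_Up (r := r) (by push_cast; linarith only [hr])
        (by push_cast; linarith only [hr']) (by push_cast; linarith only [t0]) (by push_cast; linarith only [t1])
      simp only [List.mem_cons, List.not_mem_nil, or_false] at hf'
      rcases hf' with rfl | rfl | rfl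
      · simp only [e3L, E.val, eB_val, e3l_val, yl, NumIs.lkR] at hq'
        push_cast at hq'
        rw [div_one, ← hy] at hq'
        left
        linarith only [hq']
      · simp only [eDD, E.val, eD_val, eg_val, yl, NumIs.lkR] at hq
        push_cast at hq
        rw [div_one, ← hy] at hq
        simp only [E.val, eT_val, NumIs.lkR] at hq'
        right
        constructor <;> linarith only [hq, hq']
      · simp only [E.val, eH_val, yl, NumIs.lkR] at hq'
        push_cast at hq'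
        rw [div_one, ← hy] at hq'
        linarith only [hh, hq']
    · simp only [E.val, eH_val, yl, NumIs.lkR] at hq
      push_cast at hq
      rw [div_one, ← hy] at hq
      linarith only [hh, hq]
  · intro hh
    obtain ⟨f, hf, hq⟩ := H.use k_Bm (r := r) (by push_cast; linarith only [hr]) (by push_cast; linarith only [hr'])
      (by push_cast; linarith only [t0]) (by push_cast; linarith only [t1])
    simp only [List.mem_cons, List.not_mem_nil, or_false] at hf
    rcases hf with rfl | rfl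
    · simp only [e3L, E.val, eB_val, e3l_val, yl, NumIs.lkR] at hq
      push_cast at hq
      rw [div_one, ← hy] at hq
      linarith only [hq]
    · simp only [E.val, eH_val, yl, NumIs.lkR] at hq
      push_cast at hq
      rw [div_one, ← hy] at hq
      linarith only [hh, hq]

/-- `5/100 ≤ r ≤ 18/100` -/
theorem r_C (H : Rr x T t) (hr : 5 / 100 ≤ r) (hr' : r ≤ 18 / 100) :
    (t ≤ hR x T → s3l 1 x T r t < bb x T ∨ (gg r < d0 (53 / 100) x T r t t ∧
      t < -(56 / 1000 + 28 / 100 * r))) ∧ (hR x T ≤ t → s3l (-1) x T r t < bb x T) := by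
  have t0 := H.t0
  have t1 := H.t1
  constructor
  · intro hh
    obtain ⟨f, hf, hq⟩ := H.use k_Cp (r := r) (by push_cast; linarith only [hr]) (by push_cast; linarith only [hr'])
      (by push_cast; linarith only [t0]) (by push_cast; linarith only [t1])
    simp only [List.mem_cons, List.not_mem_nil, or_false] at hf
    rcases hf with rfl | rfl | rfl
    · simp only [e3L, E.val, eB_val, e3l_val, NumIs.lkR] at hq
      push_cast at hq
      left
      linarith only [hq]
    · obtain ⟨f', hf', hq'⟩ := H.use k_Tp (r := r) (by push_cast; linarith only [hr])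
        (by push_cast; linarith only [hr']) (by push_cast; linarith only [t0]) (by push_cast; linarith only [t1])
      simp only [List.mem_cons, List.not_mem_nil, or_false] at hf'
      rcases hf' with rfl | rfl | rfl
      · simp only [e3L, E.val, eB_val, e3l_val, NumIs.lkR] at hq'
        push_cast at hq'
        left
        linarith only [hq']
      · simp only [eDD, E.val, eD_val, eg_val, NumIs.lkR] at hq
        push_cast at hq
        simp only [E.val, eT_val, NumIs.lkR] at hq'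
        right
        constructor <;> linarith only [hq, hq']
      · simp only [E.val, eH_val, NumIs.lkR] at hq'
        linarith only [hh, hq']
    · simp only [E.val, eH_val, NumIs.lkR] at hq
      linarith only [hh, hq]
  · intro hh
    obtain ⟨f, hf, hq⟩ := H.use k_Cm (r := r) (by push_cast; linarith only [hr]) (by push_cast; linarith only [hr'])
      (by push_cast; linarith only [t0]) (by push_cast; linarith only [t1])
    simp only [List.mem_cons, List.not_mem_nil, or_false] at hf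
    rcases hf with rfl | rfl
    · simp only [e3L, E.val, eB_val, e3l_val, NumIs.lkR] at hq
      push_cast at hq
      linarith only [hq]
    · simp only [E.val, eH_val, NumIs.lkR] at hq
      linarith only [hh, hq]

/-- use of a list with one more entry at the end -/
theorem Rr.use' {es : List E} {g : E} {fuel c : ℕ} {a4 b4 : ℤ} (H : Rr x T t) {a b : ℤ}
    (k : chkT (es ++ (eW ++ [g])) fuel c [V.of 10000 3900 5000, V.of 10000 (-220) 220,
      V.of 10000 a b, V.of 10000 a4 b4] = true) (hr : (a : ℝ) / 10000 ≤ r)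
    (hr' : r ≤ (b : ℝ) / 10000) (ht : (a4 : ℝ) / 10000 ≤ t) (ht' : t ≤ (b4 : ℝ) / 10000)
    (hg : g.val [x, T, r, t] ≤ 0) :
    ∃ f ∈ es, 0 < f.val [x, T, r, t] := by
  obtain ⟨a1, a2, a3, a4, a5, a6, a7, a8⟩ := H
  obtain ⟨f, hf, hq⟩ := chkT4 k (by norm_num) (x := x) (y := T) (z := r) (w := t)
    (by push_cast; linarith only [a1]) (by push_cast; linarith only [a2]) (by push_cast; linarith only [a3])
    (by push_cast; linarith only [a4]) (by push_cast; exact hr) (by push_cast; exact hr')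
    (by push_cast; exact ht) (by push_cast; exact ht')
  rcases List.mem_append.1 hf with h1 | h1
  · exact ⟨f, h1, hq⟩
  · rcases List.mem_append.1 h1 with h2 | h2
    · exact absurd hq (not_lt.2 (Rr.win ⟨a1, a2, a3, a4, a5, a6, a7, a8⟩ f h2))
    · rw [List.mem_singleton] at h2
      rw [h2] at hq
      exact absurd hq (not_lt.2 hg)

/-- `18/100 ≤ r ≤ x - 8/100` -/
theorem r_D (H : Rr x T t) (hr : 18 / 100 ≤ r) (hr' : r ≤ x - 8 / 100) :
    (t ≤ hR x T → s3l 1 x T r t < bb x T) ∧ (hR x T ≤ t → s3l (-1) x T r t < bb x T) := by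
  have t0 := H.t0
  have t1 := H.t1
  have x1 := H.x1
  have hg : (NumUs.E.sub (q 8 100) (.sub (var 0) (var 2))).val [x, T, r, t] ≤ 0 := by
    simp only [E.val, NumIs.lkR]
    push_cast
    linarith only [hr']
  constructor
  · intro hh
    obtain ⟨f, hf, hq⟩ := H.use' k_Dp (r := r) (by push_cast; linarith only [hr]) (by push_cast; linarith only [hr', x1])
      (by push_cast; linarith only [t0]) (by push_cast; linarith only [t1]) hg
    simp only [List.mem_cons, List.not_mem_nil, or_false] at hf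
    rcases hf with rfl | rfl
    · simp only [e3L, E.val, eB_val, e3l_val, NumIs.lkR] at hq
      push_cast at hq
      linarith only [hq]
    · simp only [E.val, eH_val, NumIs.lkR] at hq
      linarith only [hh, hq]
  · intro hh
    obtain ⟨f, hf, hq⟩ := H.use' k_Dm (r := r) (by push_cast; linarith only [hr]) (by push_cast; linarith only [hr', x1])
      (by push_cast; linarith only [t0]) (by push_cast; linarith only [t1]) hg
    simp only [List.mem_cons, List.not_mem_nil, or_false] at hf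
    rcases hf with rfl | rfl
    · simp only [e3L, E.val, eB_val, e3l_val, NumIs.lkR] at hq
      push_cast at hq
      linarith only [hq]
    · simp only [E.val, eH_val, NumIs.lkR] at hq
      linarith only [hh, hq]

/-- `|r - x| ≤ 8/100` -/
theorem r_N (H : Rr x T t) (hr : x - 8 / 100 ≤ r) (hr' : r ≤ x + 8 / 100) :
    (T ≤ 0 → s3n 1 x T r t < bb x T) ∧ (0 ≤ T → s3n (-1) x T r t < bb x T) := by
  obtain ⟨a1, a2, a3, a4, a5, a6, a7, a8⟩ := H
  have H : Rr x T t := ⟨a1, a2, a3, a4, a5, a6, a7, a8⟩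
  constructor
  · intro hh
    obtain ⟨f, hf, hq⟩ := chkT4 k_Np (by norm_num) (x := x) (y := T) (z := r) (w := t)
      (by push_cast; linarith only [a1]) (by push_cast; linarith only [a2]) (by push_cast; linarith only [a3])
      (by push_cast; linarith only [hh]) (by push_cast; linarith only [hr, a1]) (by push_cast; linarith only [hr', a2])
      (by push_cast; linarith only [a5]) (by push_cast; linarith only [a6])
    rcases List.mem_append.1 hf with h1 | h1
    · simp only [List.mem_cons, List.not_mem_nil, or_false] at h1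
      rcases h1 with rfl | rfl
      · simp only [e3N, E.val, eB_val, e3n_val, NumIs.lkR] at hq
        push_cast at hq
        linarith only [hq]
      · simp only [E.val, NumIs.lkR] at hq
        linarith only [hh, hq]
    · exact absurd hq (not_lt.2 (H.win f h1))
  · intro hh
    obtain ⟨f, hf, hq⟩ := chkT4 k_Nm (by norm_num) (x := x) (y := T) (z := r) (w := t)
      (by push_cast; linarith only [a1]) (by push_cast; linarith only [a2]) (by push_cast; linarith only [hh])
      (by push_cast; linarith only [a4]) (by push_cast; linarith only [hr, a1]) (by push_cast; linarith only [hr', a2])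
      (by push_cast; linarith only [a7, hh]) (by push_cast; linarith only [a6])
    rcases List.mem_append.1 hf with h1 | h1
    · simp only [List.mem_cons, List.not_mem_nil, or_false] at h1
      rcases h1 with rfl | rfl
      · simp only [e3N, E.val, eB_val, e3n_val, NumIs.lkR] at hq
        push_cast at hq
        linarith only [hq]
      · simp only [E.val, NumIs.lkR] at hq
        linarith only [hh, hq]
    · exact absurd hq (not_lt.2 (H.win f h1))

/-- `x + 8/100 ≤ r` -/
theorem r_R (H : Rr x T t) (hr : x + 8 / 100 ≤ r) (hr' : r ≤ 75 / 100) :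
    s3r x T r t < bb x T := by
  have t0 := H.t0
  have t1 := H.t1
  have x0 := H.x0
  obtain ⟨f, hf, hq⟩ := H.use' k_R1 (r := r) (by push_cast; linarith only [hr, x0]) (by push_cast; linarith only [hr'])
    (by push_cast; linarith only [t0]) (by push_cast; linarith only [t1]) (by
      simp only [E.val, NumIs.lkR]
      push_cast
      linarith only [hr])
  simp only [List.mem_cons, List.not_mem_nil, or_false] at hf
  subst hf
  simp only [e3R, E.val, eB_val, e3r_val, NumIs.lkR] at hq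
  linarith only [hq]

theorem r_E (H : Rr x T t) (hr : 75 / 100 ≤ r) (hr' : r ≤ 8 / 10)
    (hy : y = t * (20 * (8 / 10 - r))) : s3r x T r y < bb x T := by
  have t0 := H.t0
  have t1 := H.t1
  obtain ⟨f, hf, hq⟩ := H.use k_R2 (r := r) (by push_cast; linarith only [hr]) (by push_cast; linarith only [hr'])
    (by push_cast; linarith only [t0]) (by push_cast; linarith only [t1])
  simp only [List.mem_cons, List.not_mem_nil, or_false] at hf
  subst hf
  simp only [e3R, E.val, eB_val, e3r_val, yr, NumIs.lkR] at hq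
  push_cast at hq
  rw [div_one, ← hy] at hq
  linarith only [hq]

/-! ### the side -/

theorem S3_b3 {u v : ℂ} (hu : u.im = hR u.re T) (h0 : 0 < u.re) (h1 : u.re < 1) :
    S3 1 (mR T) u v = b3 u.re T v.re v.im + (LL (v - u) + mR T * YY (v - u)) := by
  have a1 : LL u = NumIs.lnA u.re (hR u.re T) := by rw [Num.LL_lnA (u := u) ⟨h0, h1⟩, hu]
  have a2 : YY u = -NumIs.lnB u.re (hR u.re T) := by rw [Num.YY_lnB (u := u) ⟨h0, h1⟩, hu]
  unfold S3 b3
  rw [a1, a2]
  ring

/-- the inner variable left of the hinge -/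
theorem S3_left {u v : ℂ} (hu : u.im = hR u.re T) (h0 : v.re < u.re) (h1 : u.re < 1)
    (h2 : 0 ≤ v.re) :
    (v.im < hR u.re T → S3 1 (mR T) u v = s3l 1 u.re T v.re v.im) ∧
      (hR u.re T < v.im → S3 1 (mR T) u v = s3l (-1) u.re T v.re v.im) ∧
      (v.im = hR u.re T → 2 * S3 1 (mR T) u v =
        s3l 1 u.re T v.re v.im + s3l (-1) u.re T v.re v.im) := by
  have e : v - u = -(u - v) := by ring
  have r1 : (u - v).re = u.re - v.re := Complex.sub_re _ _
  have r2 : (u - v).im = hR u.re T - v.im := by rw [Complex.sub_im, hu]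
  have a1 : LL (v - u) = NumIs.lnA (u.re - v.re) (hR u.re T - v.im) := by
    rw [e, LL_neg, Num.LL_lnA (u := u - v) ⟨by rw [r1]; linarith only [h0], by rw [r1]; linarith only [h1, h2]⟩, r1, r2]
  have a2 : YY (u - v) = -NumIs.lnB (u.re - v.re) (hR u.re T - v.im) := by
    rw [Num.YY_lnB (u := u - v) ⟨by rw [r1]; linarith only [h0], by rw [r1]; linarith only [h1, h2]⟩, r1, r2]
  have key := S3_b3 (v := v) hu (by linarith only [h0, h2]) h1
  unfold s3l
  refine ⟨fun d => ?_, fun d => ?_, fun d => ?_⟩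
  · have h3 := YY_neg_of_pos (u := u - v) (by rw [r2]; linarith only [d])
    rw [← e, a2] at h3
    rw [key, a1, h3]
    ring
  · have h3 := YY_neg_of_neg (u := u - v) (by rw [r2]; linarith only [d])
    rw [← e, a2] at h3
    rw [key, a1, h3]
    ring
  · have h3 : YY (v - u) = 0 := YY_zero (by rw [Complex.sub_im, hu, d]; ring)
    have h4 : YY (u - v) = 0 := YY_zero (by rw [r2, d]; ring)
    rw [a2, neg_eq_zero] at h4
    rw [key, a1, h3, h4]
    ring

/-- the inner variable right of the hinge -/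
theorem S3_right {u v : ℂ} (hu : u.im = hR u.re T) (h0 : 0 < u.re) (h1 : u.re < v.re)
    (h2 : v.re < 1) : S3 1 (mR T) u v = s3r u.re T v.re v.im := by
  have r1 : (v - u).re = v.re - u.re := Complex.sub_re _ _
  have r2 : (v - u).im = v.im - hR u.re T := by rw [Complex.sub_im, hu]
  rw [S3_b3 (v := v) hu h0 (by linarith only [h1, h2]), Num.LL_lnA (u := v - u) ⟨by rw [r1]; linarith only [h1],
    by rw [r1]; linarith only [h0, h2]⟩, Num.YY_lnB (u := v - u) ⟨by rw [r1]; linarith only [h1], by rw [r1]; linarith only [h0, h2]⟩,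
    r1, r2]
  unfold s3r
  ring

/-- the inner variable near the hinge -/
theorem S3_near {u v : ℂ} (hu : u.im = hR u.re T) (h0 : 0 < u.re) (h1 : u.re < 1)
    (h2 : |v.re - u.re| ≤ 8 / 100) :
    (0 ≤ mR T → S3 1 (mR T) u v ≤ s3n 1 u.re T v.re v.im) ∧
      (mR T ≤ 0 → S3 1 (mR T) u v ≤ s3n (-1) u.re T v.re v.im) := by
  have r1 : (v - u).re = v.re - u.re := Complex.sub_re _ _
  have r2 : (v - u).im = v.im - hR u.re T := by rw [Complex.sub_im, hu]
  have a1 := LL_near6 (a := v - u) (by rw [r1]; linarith only [h0, h1, h2])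
  obtain ⟨b1, b2⟩ := near_mul (a := v - u) (by rw [r1]; linarith only [h0, h1, h2]) (m := mR T)
  rw [r2] at a1
  rw [S3_b3 (v := v) hu h0 h1]
  unfold s3n
  constructor
  · intro h3
    have := b1 h3
    linarith only [a1, this]
  · intro h3
    have := b2 h3
    linarith only [a1, this]

/-- the alternative: the inner variable is in the region where it can be moved -/
structure Mv (x T r y t : ℝ) : Prop where
  r0 : 2 / 100 ≤ r
  r1 : r ≤ 18 / 100
  h : y ≤ hR x T
  g : gg r < d0 (53 / 100) x T r y t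
  t : t < -(56 / 1000 + 28 / 100 * r)

/-- **The side of the right digit** -/
theorem right_lt {u v : ℂ} (H : Rr u.re T t) (hu : u.im = hR u.re T)
    (hv : RH v t (8 / 10) (5 / 100) (5 / 100)) :
    S3 1 (mR T) u v < bb u.re T ∨ Mv u.re T v.re v.im t := by
  have h0 := hv.re0
  have hM := hv.reM
  have x0 := H.x0
  have x1 := H.x1
  -- assembling the three cases
  have asm : ∀ {P : Prop}, v.re < u.re →
      (v.im ≤ hR u.re T → s3l 1 u.re T v.re v.im < bb u.re T ∨ P) →
      (hR u.re T ≤ v.im → s3l (-1) u.re T v.re v.im < bb u.re T) →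
      S3 1 (mR T) u v < bb u.re T ∨ P := by
    intro P h1 h2 h3
    obtain ⟨c1, c2, c3⟩ := S3_left (v := v) hu h1 (by linarith only [h0, x1, h1]) h0
    rcases lt_trichotomy v.im (hR u.re T) with d | d | d
    · rw [c1 d]
      exact h2 d.le
    · rcases h2 d.le with h4 | h4
      · left
        have h5 := h3 d.ge
        have h6 := c3 d
        linarith only [h4, h5, h6]
      · exact Or.inr h4
    · rw [c2 d]
      exact Or.inl (h3 d.le)
  rcases le_total v.re (5 / 100) with h1 | h1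
  · have hy : v.im = 20 * (t * v.re) := by
      rw [hv.im, tr_a (by norm_num) (by norm_num) (by norm_num) h0 h1]
      ring
    rcases le_total v.re (2 / 100) with h2 | h2
    · obtain ⟨k1, k2⟩ := r_A H h0 h2 hy
      exact asm (by linarith only [x0, h1]) (fun d => Or.inl (k1 d)) k2
    · obtain ⟨k1, k2⟩ := r_B H h2 h1 hy
      refine asm (by linarith only [x0, h1]) (fun d => ?_) k2
      rcases k1 d with h3 | ⟨h3, h4⟩
      · exact Or.inl h3
      · exact Or.inr ⟨h2, by linarith only [h1], d, h3, h4⟩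
  rcases le_total v.re (75 / 100) with h2 | h2
  · have hy : v.im = t := by
      rw [hv.im, tr_b (by norm_num) (by norm_num) h1 (by linarith only [h2]), mul_one]
    rcases le_total v.re (18 / 100) with h3 | h3
    · obtain ⟨k1, k2⟩ := r_C H h1 h3
      rw [← hy] at k1 k2
      refine asm (by linarith only [x0, h3]) (fun d => ?_) k2
      rcases k1 d with h4 | ⟨h4, h5⟩
      · exact Or.inl h4
      · rw [hy] at h4 h5 d
        rw [hy]
        exact Or.inr ⟨by linarith only [h1], h3, d, h4, h5⟩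
    rcases le_total v.re (u.re - 8 / 100) with h4 | h4
    · obtain ⟨k1, k2⟩ := r_D H h3 h4
      rw [← hy] at k1 k2
      exact asm (by linarith only [h4]) (fun d => Or.inl (k1 d)) k2
    left
    rcases le_total v.re (u.re + 8 / 100) with h5 | h5
    · obtain ⟨k1, k2⟩ := r_N H h4 h5
      rw [← hy] at k1 k2
      obtain ⟨c1, c2⟩ := S3_near (v := v) hu (by linarith only [x0]) (by linarith only [hM, h4])
        (by rw [abs_le]; constructor <;> linarith only [h4, h5])
      rcases le_total T 0 with h6 | h6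
      · exact (c1 (by unfold mR; linarith only [h6])).trans_lt (k1 h6)
      · exact (c2 (by unfold mR; linarith only [h6])).trans_lt (k2 h6)
    · rw [S3_right hu (by linarith only [x0]) (by linarith only [h5]) (by linarith only [hM]), hy]
      exact r_R H h5 h2
  · left
    have hy : v.im = t * (20 * (8 / 10 - v.re)) := by
      rw [hv.im, tr_c (by norm_num) (by norm_num) (by norm_num) (by linarith only [h2]) hM]
      ring
    rw [S3_right hu (by linarith only [x0]) (by linarith only [x1, h2]) (by linarith only [hM])]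
    exact r_E H h2 hM hy

/-! ### the move of the inner variable -/

theorem gain_flat (t0 : -(114 / 1000) ≤ t) (h : t < -(56 / 1000 + 28 / 100 * r))
    (hr : 5 / 100 ≤ r) (hr' : r ≤ 18 / 100) {w : ℂ} {S : ℝ} (H : HW w S) :
    0 < g0 (53 / 100) r t t w.re w.im + gg r := by
  have hw : ∀ f : E, f = (.add (var 1) (.add (q 56 1000) (.mul (q 28 100) (var 0)))) →
      ∀ a b : ℝ, 0 < f.val [r, t, a, b] → False := by
    rintro f rfl a b hq
    simp only [E.val, NumIs.lkR] at hq
    push_cast at hq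
    linarith only [h, hq]
  rcases H.cases with ⟨σ, h1, h2, h3, h4, h5, -⟩ | ⟨h1, h2, h3, h4⟩
  · obtain ⟨f, hf, hq⟩ := chkT4 k_Grb (by norm_num) (x := r) (y := t) (z := w.re) (w := σ)
      (by push_cast; linarith only [hr]) (by push_cast; linarith only [hr']) (by push_cast; linarith only [t0])
      (by push_cast; linarith only [h, hr]) (by push_cast; linarith only [h2]) (by push_cast; linarith only [h3])
      (by push_cast; linarith only [h4]) (by push_cast; linarith only [h5])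
    simp only [List.mem_cons, List.not_mem_nil, or_false] at hf
    rcases hf with rfl | hf
    · simp only [eGG, E.val, eG_val, eg_val, NumIs.lkR] at hq
      push_cast at hq
      rw [← h1] at hq
      exact hq
    · exact (hw f hf _ _ hq).elim
  · obtain ⟨f, hf, hq⟩ := chkT4 k_Gfb (by norm_num) (x := r) (y := t) (z := w.re) (w := w.im)
      (by push_cast; linarith only [hr]) (by push_cast; linarith only [hr']) (by push_cast; linarith only [t0])
      (by push_cast; linarith only [h, hr]) (by push_cast; linarith only [h1]) (by push_cast; linarith only [h2])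
      (by push_cast; linarith only [h3]) (by push_cast; linarith only [h4])
    simp only [List.mem_cons, List.not_mem_nil, or_false] at hf
    rcases hf with rfl | hf
    · simp only [eGG, E.val, eG_val, eg_val, NumIs.lkR] at hq
      push_cast at hq
      exact hq
    · exact (hw f hf _ _ hq).elim

theorem gain_ramp (t0 : -(114 / 1000) ≤ t) (h : t < -(56 / 1000 + 28 / 100 * r))
    (hr : 2 / 100 ≤ r) (hr' : r ≤ 5 / 100) (hy : y = 20 * (t * r)) {w : ℂ} {S : ℝ}
    (H : HW w S) : 0 < g0 (53 / 100) r y t w.re w.im + gg r := by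
  have hw : ∀ f : E, f = (.add (var 1) (.add (q 56 1000) (.mul (q 28 100) (var 0)))) →
      ∀ a b : ℝ, 0 < f.val [r, t, a, b] → False := by
    rintro f rfl a b hq
    simp only [E.val, NumIs.lkR] at hq
    push_cast at hq
    linarith only [h, hq]
  rcases H.cases with ⟨σ, h1, h2, h3, h4, h5, -⟩ | ⟨h1, h2, h3, h4⟩
  · obtain ⟨f, hf, hq⟩ := chkT4 k_Gra (by norm_num) (x := r) (y := t) (z := w.re) (w := σ)
      (by push_cast; linarith only [hr]) (by push_cast; linarith only [hr']) (by push_cast; linarith only [t0])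
      (by push_cast; linarith only [h, hr]) (by push_cast; linarith only [h2]) (by push_cast; linarith only [h3])
      (by push_cast; linarith only [h4]) (by push_cast; linarith only [h5])
    simp only [List.mem_cons, List.not_mem_nil, or_false] at hf
    rcases hf with rfl | hf
    · simp only [eGG, E.val, eG_val, eg_val, yl, NumIs.lkR] at hq
      push_cast at hq
      rw [← h1, div_one, ← hy] at hq
      exact hq
    · exact (hw f hf _ _ hq).elim
  · obtain ⟨f, hf, hq⟩ := chkT4 k_Gfa (by norm_num) (x := r) (y := t) (z := w.re) (w := w.im)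
      (by push_cast; linarith only [hr]) (by push_cast; linarith only [hr']) (by push_cast; linarith only [t0])
      (by push_cast; linarith only [h, hr]) (by push_cast; linarith only [h1]) (by push_cast; linarith only [h2])
      (by push_cast; linarith only [h3]) (by push_cast; linarith only [h4])
    simp only [List.mem_cons, List.not_mem_nil, or_false] at hf
    rcases hf with rfl | hf
    · simp only [eGG, E.val, eG_val, eg_val, yl, NumIs.lkR] at hq
      push_cast at hq
      rw [div_one, ← hy] at hq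
      exact hq
    · exact (hw f hf _ _ hq).elim

/-- **Values: a move of the inner variable** -/
theorem move {u v w : ℂ} {S : ℝ} (hu : u.im = hR u.re T) (t0 : -(114 / 1000) ≤ t)
    (hv : RH v t (8 / 10) (5 / 100) (5 / 100)) (hm : Mv u.re T v.re v.im t) (H : HW w S) :
    V3 u v w < V3 u (lv (53 / 100) t) w := by
  have h1 := V3_dif (u := u) (v := v) (v' := lv (53 / 100) t) (w := w)
  rw [lv_re, lv_im] at h1
  have e := UU_neg (u - v)
  rw [neg_sub, UU_uu (v - u), UU_uu (u - v), Complex.sub_re, Complex.sub_im, Complex.sub_re,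
    Complex.sub_im, hu, abs_of_nonneg (by linarith only [hm, hm.h])] at e
  rw [hu, e] at h1
  have h2 := hm.g
  unfold d0 at h2
  have h3 : 0 < g0 (53 / 100) v.re v.im t w.re w.im + gg v.re := by
    rcases le_total v.re (5 / 100) with h4 | h4
    · refine gain_ramp t0 hm.t hm.r0 h4 ?_ H
      rw [hv.im, tr_a (by norm_num) (by norm_num) (by norm_num) hv.re0 h4]
      ring
    · have hy : v.im = t := by
        rw [hv.im, tr_b (by norm_num) (by norm_num) h4 (by linarith only [hm, hm.r1]), mul_one]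
      rw [hy]
      exact gain_flat t0 hm.t h4 hm.r1 H
  linarith only [h1, h2, h3]

end S33

end VL

end Pool.Agent.Work.MP_b30479_gtS.G2

end

section

/-!
# The flat end of a hinge between two inner digits `3`

`cap33_S0`: if the hinge in slot 2 of the right digit satisfies its cap, the hinge is at most
`39/100`.  No floors are used.
-/

namespace Pool.Agent.Work.MP_b30479_gtS.G2

open VOL NumUs

namespace SR

variable {M : ℕ} {b : Fin (M + 1) → ℤ} {zs : DD (tyW b) ⊕ ZZ (tyW b) → ℂ}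
variable {y : DD (tyW b) ⊕ ZZ (tyW b) → ℝ}
variable {h h' : Fin M} {i j k l : Fin (M + 1)}

/-- a move of the inner variable of an inner digit `3` does not increase the value -/
theorem V3_le_of_mid (hb : ClassW b) (hy : IsMx (wdat (tyW b) b) (wpar b zs) zs y)
    (hc : clsW b k = .three) {c : ℝ} (c0 : 5 / 100 ≤ c) (c1 : c ≤ 75 / 100) :
    V3 (Yw b zs y k 0) (lv c (hT zs hc)) (Yw b zs y k 2) ≤
      V3 (Yw b zs y k 0) (Yw b zs y k 1) (Yw b zs y k 2) := by
  obtain ⟨p1, p2, p3⟩ := pp_mT (zs := zs) hc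
  have ht := tyW_of_three hc
  have hne : tyW b k ≠ .ring := by rw [ht]; decide
  have h2 := hy.upd (.inl (.inr (mT b hc))) (c := c) (by show (0 : ℝ) ≤ c; linarith only [c0])
    (by show c ≤ (wpar b zs).XM (.inr (mT b hc)); rw [p1]; linarith only [c1])
  have h3 : (wdat (tyW b) b).V (Function.update ((wpar b zs).pth zs y) (.inl (.inr (mT b hc)))
      ((wpar b zs).pp zs (.inl (.inr (mT b hc))) c)) -
      (wdat (tyW b) b).V ((wpar b zs).pth zs y) =
      rV (tyW b) b k (Function.update (xx (tyW b) k ((wpar b zs).pth zs y)) 1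
        ((wpar b zs).pp zs (.inl (.inr (mT b hc))) c)) -
      rV (tyW b) b k (xx (tyW b) k ((wpar b zs).pth zs y)) :=
    V_upd_mid (tyW b) b (mT b hc) ((wpar b zs).pth zs y)
      ((wpar b zs).pp zs (.inl (.inr (mT b hc))) c)
  rw [rV_own hb, rV_own hb, own_update_one hne] at h3
  have e5 : ofr (b k) ((wpar b zs).pp zs (.inl (.inr (mT b hc))) c) = lv c (hT zs hc) :=
    ofr_pp_flat (wpar_good b zs) zs (.inr (mT b hc)) (b k) (by rw [p2]; exact c0)
      (by rw [p1, p3]; linarith only [c1])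
  have e6 : own (b k) (tyW b k) (xx (tyW b) k ((wpar b zs).pth zs y)) = OY b zs y k := rfl
  rw [e6, e5] at h3
  have h4 : OV b k (Function.update (OY b zs y k) 1 (lv c (hT zs hc))) - OV b k (OY b zs y k) ≤
      0 := by linarith only [hc, h2, h3]
  rw [OV_three hb hc, OV_three hb hc, Function.update_self, Function.update_of_ne (by decide),
    Function.update_of_ne (by decide), OY_zero, OY_one hne, OY_two] at h4
  linarith only [hc, h4]

theorem cpR_le (K : Cl) : VL.cpR K ≤ 39 / 100 := by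
  cases K <;> norm_num [VL.cpR]

/-- **The flat end at `3 | 3`** -/
theorem cap33_S0 (hb : ClassW b) (hL : Loc b zs) (hX : LocX b zs)
    (hy : IsMx (wdat (tyW b) b) (wpar b zs) zs y) (hpos : ∀ h : Fin M, 0 < y (.inl (.inl h)))
    (A : Adj h i 2 k) (A' : Adj h' k 2 l) (hi : clsW b i = .three) (hk : clsW b k = .three)
    (hw : y (.inl (.inl h')) ≤ VL.cpR (clsW b l)) : y (.inl (.inl h)) ≤ 39 / 100 := by
  by_contra hcon
  push Not at hcon
  have B : Adj h k 0 i := A.symm
  have hk1 : clsW b k ≠ .one := by rw [hk]; decide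
  have hi1 : clsW b i ≠ .one := by rw [hi]; decide
  have hx5 : y (.inl (.inl h)) ≤ 1 / 2 := s0_cap hb hL hX hy B A' hk hi1 (by rw [hi]; decide)
    (hw.trans (cpR_le _))
  have hx0 : 30 / 100 < y (.inl (.inl h)) := by linarith only [hcon]
  have hop : b i * b k < 0 := A.opp hb (Or.inl (by rw [hi]; decide))
  obtain ⟨t1, t2⟩ := A.im_three hb hL hi
  rw [hk] at t1 t2
  norm_num [hbox] at t1 t2
  have em : ∀ T : ℝ, MR.mR 30 T = VL.S33.mR T := by
    intro T
    unfold MR.mR VL.S33.mR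
    push_cast
    ring
  have eh : ∀ x T : ℝ, MR.tR 60 30 x T = VL.S33.hR x T := by
    intro x T
    unfold MR.tR VL.S33.hR
    push_cast
    ring
  have hTk : ofs (b k) (zs (.inl (.inl h))).im = -ofs (b i) (zs (.inl (.inl h))).im :=
    ofs_opp hop _
  -- the left digit
  have s1 : Sw b zs y i 2 (slL b zs y h) < -VL.S33.bb (y (.inl (.inl h)))
      (-ofs (b i) (zs (.inl (.inl h))).im) := by
    obtain ⟨h1, j1, A1⟩ := A.other' b (clsW_inner hb (Or.inr (Or.inr hi)))
    have e0 : (2 : Fin 3).rev = 0 := rfl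
    rw [e0] at A1
    have hm := hX.mid (tyW_isMid (Or.inl hi)) A1 A hi
    rw [hk] at hm
    have q0 : -(116 / 1000) ≤ hT zs hi :=
      le_trans (by cases clsW b j1 <;> norm_num [mw]) hm.1
    have q1 : hT zs hi ≤ 5 / 1000 :=
      hm.2.1.trans (by cases clsW b j1 <;> norm_num [mw])
    obtain ⟨p1, p2, p3⟩ := pp_mT (zs := zs) hi
    have hR := mid_RH hy (mT b hi)
    rw [p1, p2, p3] at hR
    rw [A.side_three_two hb hi, A.slope_three hi hk1 hx0, em]
    have := VL.S33.left_lt (w := Yw b zs y i 2) (T := ofs (b i) (zs (.inl (.inl h))).im)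
      (by rw [A.height_three A hi hk1 hy hx0, eh]) (by rw [A.re]; linarith only [hcon])
      (by rw [A.re]; exact hx5) (by linarith only [t1]) (by linarith only [t2]) hR q0 q1
    rw [A.re] at this
    exact this
  -- the right digit
  have H := htW hb hL hX B A' hk
  rw [hi] at H
  have hR := mid_RH hy (mT b hk)
  obtain ⟨p1, p2, p3⟩ := pp_mT (zs := zs) hk
  rw [p1, p2, p3] at hR
  have hu : (Yw b zs y k 0).im = VL.S33.hR (Yw b zs y k 0).re
      (ofs (b k) (zs (.inl (.inl h))).im) := by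
    rw [A.height_three B hi hk1 hy hx0, eh]
  have R : VL.S33.Rr (Yw b zs y k 0).re (ofs (b k) (zs (.inl (.inl h))).im) (hT zs hk) := by
    have w1 := H.t0
    have w2 := H.t1
    have w3 := H.d0
    have w4 := H.d1
    refine ⟨by rw [B.re]; linarith only [hcon], by rw [B.re]; exact hx5, by rw [hTk]; linarith only [t2],
      by rw [hTk]; linarith only [t1], ?_, ?_, ?_, ?_⟩
    · exact le_trans (by cases clsW b l <;> norm_num [mw]) w1
    · exact w2.trans (by cases clsW b l <;> norm_num [mw])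
    · exact le_trans (by cases clsW b l <;> norm_num [mw]) w3
    · exact w4.trans (by cases clsW b l <;> norm_num [mw])
  rcases VL.S33.right_lt R hu hR with h2 | h2
  · have s2 : Sw b zs y k 0 (slL b zs y h) < VL.S33.bb (y (.inl (.inl h)))
        (-ofs (b i) (zs (.inl (.inl h))).im) := by
      rw [B.side_three_zero hb hk, A.slope_three hi hk1 hx0, em]
      rw [B.re, hTk] at h2
      rw [hTk]
      exact h2
    exact rstep_false hb hy (hpos h) (RStep.of_adj A (c := 0)
      (e1 := Sw b zs y i 2 (slL b zs y h)) (e2 := Sw b zs y k 0 (slL b zs y h)) (fun _ => rfl)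
      (by linarith only [s1, s2]) (by linarith only []) (by
        show Sw b zs y k 0 (slL b zs y h) + 0 * ofs (b k) (slL b zs y h) ≤ _
        linarith only []))
  · have q := A'.rh hy
    obtain ⟨e1, e2, e3⟩ := A'.par_three2 hk
    rw [e1, e2, e3] at q
    have hW := VL.HW_of H q (by rw [A'.re]; exact hw)
    have h3 := VL.S33.move hu R.t0 hR h2 hW
    exact absurd h3 (not_lt.2 (V3_le_of_mid hb hy hk (by norm_num) (by norm_num)))

end SR

end Pool.Agent.Work.MP_b30479_gtS.G2

end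

section

/-!
# Mirrored paths: rows, kind `2 | 3` with the slot `2` of the `3` (generated)
-/

set_option linter.unusedVariables false
set_option linter.unusedSimpArgs false
set_option linter.unusedTactic false
set_option linter.unreachableTactic false

set_option deprecated.oldSectionVars true

namespace Pool.Agent.Work.MP_b30479_gtS.G2

open VOL NumUs

namespace KR

namespace R23

def k0 : Cell :=
  ⟨0, 50, 0, 570, 13, 1, 1, 0, 16, 13, -296, 0, 1545, 2004, -3, 48930, 18903⟩
theorem k0A : (k0.A D2x 0 80).Side := Pm.sideG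
  (c := 0x4080c403081018208101820810184080c203081010408101840810203020c2030408184080c20406101820608102) (by decide +kernel)
theorem k0B : (k0.B DL 0 40).Side := Pm.sideG
  (c := 0x4080c20406102040810202060818208102040408203040c102) (by decide +kernel)
theorem k0C : (k0.B DM 40 77).Side := Pm.sideG
  (c := 0x102030808202) (by decide +kernel)
theorem k0D : (k0.B DL 77 80).Side := Pm.sideG
  (c := 0x4080c203) (by decide +kernel)
theorem k0l : k0.LB := Cell.lb_of0 (c := 0x880) (by decide +kernel) rfl (by decide) rfl (by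
  intro x h0 h1
  simp only [Cell.a, k0]
  push_cast
  constructor <;> linarith only [h0, h1])
theorem k0m : k0.MB := Cell.mb_of (c := 0x88800880800) (by decide +kernel)
theorem r0 {x T y β y' β' : ℝ} (hx0 : ((0 : ℤ) : ℝ) / 10000 ≤ x) (hx1 : x ≤ ((50 : ℤ) : ℝ) / 10000)
    (ht0 : ((0 : ℤ) : ℝ) / 10000 ≤ T) (ht1 : T ≤ ((570 : ℤ) : ℝ) / 10000) (h0 : ((0 : ℤ) : ℝ) / 100 ≤ y)
    (h1 : y ≤ ((80 : ℤ) : ℝ) / 100) (h0' : ((0 : ℤ) : ℝ) / 100 ≤ y') (h1' : y' ≤ ((80 : ℤ) : ℝ) / 100)
    (hd : D2x.In y β) (hd' : InL 77 y' β') :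
    Two (60 / 100) (13 / 100) (30 / 100) T x y β y' β' := by
  have ht : tr 0 (60 / 100) (13 / 100) (30 / 100) x = x / (13 / 100) :=
    tr_a (by norm_num) (by norm_num) (by norm_num) (by push_cast at hx0; linarith only [hx0]) (by push_cast at hx1; linarith only [hx1])
  refine Two.of k0 (by simp only [k0]; norm_num) (by simp only [k0]; norm_num)
    (by simp only [k0, Cell.e]; push_cast; rw [tr_b (by norm_num) (by norm_num) (by norm_num) (by norm_num)]; ring) (by simp only [k0, Cell.a]; push_cast; rw [ht]; ring) ?_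
  rcases hd' with ⟨g1, hd'⟩ | ⟨g0, g1, hd'⟩ | ⟨g0, hd'⟩
  · exact Cell.two k0l k0m k0A k0B hx0 hx1 ht0 ht1 h0 h1 h0' g1 hd hd'
  · exact Cell.two k0l k0m k0A k0C hx0 hx1 ht0 ht1 h0 h1 g0 g1 hd hd'
  · exact Cell.two k0l k0m k0A k0D hx0 hx1 ht0 ht1 h0 h1 g0 h1' hd hd'

def k1 : Cell :=
  ⟨50, 200, 0, 570, 10, 10, 13, 0, 16, 13, -119, -32434, 1446, 1580, 97, 40803, 10594⟩
theorem k1A : (k1.A D2x 0 80).Side := Pm.sideG
  (c := 0x10204040c404040c204060820406102030610203081018308102030a081040810184080c204081000006102040810202080400008101040200000081020400000030600204080c0030408184080c20404101820608102) (by decide +kernel)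
theorem k1B : (k1.B DL 0 40).Side := Pm.sideG
  (c := 0x10203081018408102040810002060818208101840810204000800408001820810103040c102) (by decide +kernel)
theorem k1C : (k1.B DM 40 77).Side := Pm.sideG
  (c := 0x40808202) (by decide +kernel)
theorem k1D : (k1.B DL 77 80).Side := Pm.sideG
  (c := 0x4080c203) (by decide +kernel)
theorem k1l : k1.LB := Cell.lb_of (c := 0x8880088088000) (by decide +kernel)
theorem k1m : k1.MB := Cell.mb_of (c := 0x88800880800) (by decide +kernel)
theorem r1 {x T y β y' β' : ℝ} (hx0 : ((50 : ℤ) : ℝ) / 10000 ≤ x) (hx1 : x ≤ ((200 : ℤ) : ℝ) / 10000)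
    (ht0 : ((0 : ℤ) : ℝ) / 10000 ≤ T) (ht1 : T ≤ ((570 : ℤ) : ℝ) / 10000) (h0 : ((0 : ℤ) : ℝ) / 100 ≤ y)
    (h1 : y ≤ ((80 : ℤ) : ℝ) / 100) (h0' : ((0 : ℤ) : ℝ) / 100 ≤ y') (h1' : y' ≤ ((80 : ℤ) : ℝ) / 100)
    (hd : D2x.In y β) (hd' : InL 77 y' β') :
    Two (60 / 100) (13 / 100) (30 / 100) T x y β y' β' := by
  have ht : tr 0 (60 / 100) (13 / 100) (30 / 100) x = x / (13 / 100) :=
    tr_a (by norm_num) (by norm_num) (by norm_num) (by push_cast at hx0; linarith only [hx0]) (by push_cast at hx1; linarith only [hx1])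
  refine Two.of k1 (by simp only [k1]; norm_num) (by simp only [k1]; norm_num)
    (by simp only [k1, Cell.e]; push_cast; rw [tr_a (by norm_num) (by norm_num) (by norm_num) (by norm_num) (by norm_num)]; ring) (by simp only [k1, Cell.a]; push_cast; rw [ht]; ring) ?_
  rcases hd' with ⟨g1, hd'⟩ | ⟨g0, g1, hd'⟩ | ⟨g0, hd'⟩
  · exact Cell.two k1l k1m k1A k1B hx0 hx1 ht0 ht1 h0 h1 h0' g1 hd hd'
  · exact Cell.two k1l k1m k1A k1C hx0 hx1 ht0 ht1 h0 h1 g0 g1 hd hd'
  · exact Cell.two k1l k1m k1A k1D hx0 hx1 ht0 ht1 h0 h1 g0 h1' hd hd'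

def k2 : Cell :=
  ⟨200, 500, 0, 570, 13, 1, 1, 0, 16, 13, -343, -21718, 1545, 2004, 456, 32164, 9510⟩
theorem k2A : (k2.A D2x 0 80).Side := Pm.sideG
  (c := 0x10203100c2040608204080c1820810184080c184080c204060c204061020306102030614204060c28208101840610201080c2040600204060c10308101830408102) (by decide +kernel)
theorem k2B : (k2.B DL 0 40).Side := Pm.sideG
  (c := 0x10203081018408101830810204040c184080c204080c00408001820608102) (by decide +kernel)
theorem k2C : (k2.B DM 40 77).Side := Pm.sideG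
  (c := 0x102030808202) (by decide +kernel)
theorem k2D : (k2.B DL 77 80).Side := Pm.sideG
  (c := 0x18204060820402101830810183) (by decide +kernel)
theorem k2l : k2.LB := Cell.lb_of (c := 0x88800880800) (by decide +kernel)
theorem k2m : k2.MB := Cell.mb_of (c := 0x88800880800) (by decide +kernel)
theorem r2 {x T y β y' β' : ℝ} (hx0 : ((200 : ℤ) : ℝ) / 10000 ≤ x) (hx1 : x ≤ ((500 : ℤ) : ℝ) / 10000)
    (ht0 : ((0 : ℤ) : ℝ) / 10000 ≤ T) (ht1 : T ≤ ((570 : ℤ) : ℝ) / 10000) (h0 : ((0 : ℤ) : ℝ) / 100 ≤ y)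
    (h1 : y ≤ ((80 : ℤ) : ℝ) / 100) (h0' : ((0 : ℤ) : ℝ) / 100 ≤ y') (h1' : y' ≤ ((80 : ℤ) : ℝ) / 100)
    (hd : D2x.In y β) (hd' : InL 77 y' β') :
    Two (60 / 100) (13 / 100) (30 / 100) T x y β y' β' := by
  have ht : tr 0 (60 / 100) (13 / 100) (30 / 100) x = x / (13 / 100) :=
    tr_a (by norm_num) (by norm_num) (by norm_num) (by push_cast at hx0; linarith only [hx0]) (by push_cast at hx1; linarith only [hx1])
  refine Two.of k2 (by simp only [k2]; norm_num) (by simp only [k2]; norm_num)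
    (by simp only [k2, Cell.e]; push_cast; rw [tr_b (by norm_num) (by norm_num) (by norm_num) (by norm_num)]; ring) (by simp only [k2, Cell.a]; push_cast; rw [ht]; ring) ?_
  rcases hd' with ⟨g1, hd'⟩ | ⟨g0, g1, hd'⟩ | ⟨g0, hd'⟩
  · exact Cell.two k2l k2m k2A k2B hx0 hx1 ht0 ht1 h0 h1 h0' g1 hd hd'
  · exact Cell.two k2l k2m k2A k2C hx0 hx1 ht0 ht1 h0 h1 g0 g1 hd hd'
  · exact Cell.two k2l k2m k2A k2D hx0 hx1 ht0 ht1 h0 h1 g0 h1' hd hd'

def k3 : Cell :=
  ⟨500, 1000, 0, 570, 15, 1, 1, 0, 16, 13, -756, -13699, 1581, 1714, 140, 37277, 8977⟩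
theorem k3A : (k3.A D2x 0 80).Side := Pm.sideG
  (c := 0x102030810183100c204061020306082040610203060820404102030610202080c204060c204060c2840a10182080c2000610203080c1850a1420404100840010004000c200060c2820814204000c104061028406082030010203060c104080c2030608102) (by decide +kernel)
theorem k3B : (k3.B DL 0 40).Side := Pm.sideG
  (c := 0x4080c20406102030810203040c102) (by decide +kernel)
theorem k3C : (k3.B DM 40 77).Side := Pm.sideG
  (c := 0x4080c2030808202) (by decide +kernel)
theorem k3D : (k3.B DL 77 80).Side := Pm.sideG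
  (c := 0x60c18304080418206083060808184080c106080820300102000210200080c201060c2040610183) (by decide +kernel)
theorem k3l : k3.LB := Cell.lb_of (c := 0x88800880800) (by decide +kernel)
theorem k3m : k3.MB := Cell.mb_of (c := 0x88800880800) (by decide +kernel)
theorem r3 {x T y β y' β' : ℝ} (hx0 : ((500 : ℤ) : ℝ) / 10000 ≤ x) (hx1 : x ≤ ((1000 : ℤ) : ℝ) / 10000)
    (ht0 : ((0 : ℤ) : ℝ) / 10000 ≤ T) (ht1 : T ≤ ((570 : ℤ) : ℝ) / 10000) (h0 : ((0 : ℤ) : ℝ) / 100 ≤ y)
    (h1 : y ≤ ((80 : ℤ) : ℝ) / 100) (h0' : ((0 : ℤ) : ℝ) / 100 ≤ y') (h1' : y' ≤ ((80 : ℤ) : ℝ) / 100)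
    (hd : D2x.In y β) (hd' : InL 77 y' β') :
    Two (60 / 100) (13 / 100) (30 / 100) T x y β y' β' := by
  have ht : tr 0 (60 / 100) (13 / 100) (30 / 100) x = x / (13 / 100) :=
    tr_a (by norm_num) (by norm_num) (by norm_num) (by push_cast at hx0; linarith only [hx0]) (by push_cast at hx1; linarith only [hx1])
  refine Two.of k3 (by simp only [k3]; norm_num) (by simp only [k3]; norm_num)
    (by simp only [k3, Cell.e]; push_cast; rw [tr_b (by norm_num) (by norm_num) (by norm_num) (by norm_num)]; ring) (by simp only [k3, Cell.a]; push_cast; rw [ht]; ring) ?_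
  rcases hd' with ⟨g1, hd'⟩ | ⟨g0, g1, hd'⟩ | ⟨g0, hd'⟩
  · exact Cell.two k3l k3m k3A k3B hx0 hx1 ht0 ht1 h0 h1 h0' g1 hd hd'
  · exact Cell.two k3l k3m k3A k3C hx0 hx1 ht0 ht1 h0 h1 g0 g1 hd hd'
  · exact Cell.two k3l k3m k3A k3D hx0 hx1 ht0 ht1 h0 h1 g0 h1' hd hd'

def k4 : Cell :=
  ⟨1000, 1300, 0, 570, 15, 1, 1, 0, 16, 13, -1209, -8824, 1581, 1714, -110, 40499, 7024⟩
theorem k4A : (k4.A D2x 0 80).Side := Pm.sideG
  (c := 0x102030810183100c20406101820810184080c1820810184080c18408101040608203080c2840a102820804200080018208100830a14204000c282060818408142030410182080c1820810203040c102) (by decide +kernel)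
theorem k4B : (k4.B DL 0 40).Side := Pm.sideG
  (c := 0x102040808182) (by decide +kernel)
theorem k4C : (k4.B DM 40 77).Side := Pm.sideG
  (c := 0x408082030808202) (by decide +kernel)
theorem k4D : (k4.B DL 77 80).Side := Pm.sideG
  (c := 0x60c1830406081820c1820306102030410084080c201060c2040610183) (by decide +kernel)
theorem k4l : k4.LB := Cell.lb_of (c := 0x8808800) (by decide +kernel)
theorem k4m : k4.MB := Cell.mb_of (c := 0x88800880800) (by decide +kernel)
theorem r4 {x T y β y' β' : ℝ} (hx0 : ((1000 : ℤ) : ℝ) / 10000 ≤ x) (hx1 : x ≤ ((1300 : ℤ) : ℝ) / 10000)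
    (ht0 : ((0 : ℤ) : ℝ) / 10000 ≤ T) (ht1 : T ≤ ((570 : ℤ) : ℝ) / 10000) (h0 : ((0 : ℤ) : ℝ) / 100 ≤ y)
    (h1 : y ≤ ((80 : ℤ) : ℝ) / 100) (h0' : ((0 : ℤ) : ℝ) / 100 ≤ y') (h1' : y' ≤ ((80 : ℤ) : ℝ) / 100)
    (hd : D2x.In y β) (hd' : InL 77 y' β') :
    Two (60 / 100) (13 / 100) (30 / 100) T x y β y' β' := by
  have ht : tr 0 (60 / 100) (13 / 100) (30 / 100) x = x / (13 / 100) :=
    tr_a (by norm_num) (by norm_num) (by norm_num) (by push_cast at hx0; linarith only [hx0]) (by push_cast at hx1; linarith only [hx1])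
  refine Two.of k4 (by simp only [k4]; norm_num) (by simp only [k4]; norm_num)
    (by simp only [k4, Cell.e]; push_cast; rw [tr_b (by norm_num) (by norm_num) (by norm_num) (by norm_num)]; ring) (by simp only [k4, Cell.a]; push_cast; rw [ht]; ring) ?_
  rcases hd' with ⟨g1, hd'⟩ | ⟨g0, g1, hd'⟩ | ⟨g0, hd'⟩
  · exact Cell.two k4l k4m k4A k4B hx0 hx1 ht0 ht1 h0 h1 h0' g1 hd hd'
  · exact Cell.two k4l k4m k4A k4C hx0 hx1 ht0 ht1 h0 h1 g0 g1 hd hd'
  · exact Cell.two k4l k4m k4A k4D hx0 hx1 ht0 ht1 h0 h1 g0 h1' hd hd'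

def k5 : Cell :=
  ⟨1300, 1600, 0, 570, 15, 1, 1, 16, 0, 100, -2756, 3137, 1581, 1714, 4713, 3753, 5826⟩
theorem k5A : (k5.A D2x 0 80).Side := Pm.sideG
  (c := 0x102030810183100c204060820406102030608204061020306102050410182080c2030a102840a082050400204000420108042010804182080c285080c282060818408141040610182080c1820810203040c102) (by decide +kernel)
theorem k5B : (k5.B DL 0 40).Side := Pm.sideG
  (c := 0x40810182) (by decide +kernel)
theorem k5C : (k5.B DM 40 77).Side := Pm.sideG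
  (c := 0x102030808202) (by decide +kernel)
theorem k5D : (k5.B DL 77 80).Side := Pm.sideG
  (c := 0x60c18304040c1820c1010608082030804184080c08408041830810183) (by decide +kernel)
theorem k5l : k5.LB := Cell.lb_of (c := 0x880) (by decide +kernel)
theorem k5m : k5.MB := Cell.mb_of (c := 0x88800880800) (by decide +kernel)
theorem r5 {x T y β y' β' : ℝ} (hx0 : ((1300 : ℤ) : ℝ) / 10000 ≤ x) (hx1 : x ≤ ((1600 : ℤ) : ℝ) / 10000)
    (ht0 : ((0 : ℤ) : ℝ) / 10000 ≤ T) (ht1 : T ≤ ((570 : ℤ) : ℝ) / 10000) (h0 : ((0 : ℤ) : ℝ) / 100 ≤ y)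
    (h1 : y ≤ ((80 : ℤ) : ℝ) / 100) (h0' : ((0 : ℤ) : ℝ) / 100 ≤ y') (h1' : y' ≤ ((80 : ℤ) : ℝ) / 100)
    (hd : D2x.In y β) (hd' : InL 77 y' β') :
    Two (60 / 100) (13 / 100) (30 / 100) T x y β y' β' := by
  have ht : tr 0 (60 / 100) (13 / 100) (30 / 100) x = 1 :=
    tr_b (by norm_num) (by norm_num) (by push_cast at hx0; linarith only [hx0]) (by push_cast at hx1; linarith only [hx1])
  refine Two.of k5 (by simp only [k5]; norm_num) (by simp only [k5]; norm_num)
    (by simp only [k5, Cell.e]; push_cast; rw [tr_b (by norm_num) (by norm_num) (by norm_num) (by norm_num)]; ring) (by simp only [k5, Cell.a]; push_cast; rw [ht]; ring) ?_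
  rcases hd' with ⟨g1, hd'⟩ | ⟨g0, g1, hd'⟩ | ⟨g0, hd'⟩
  · exact Cell.two k5l k5m k5A k5B hx0 hx1 ht0 ht1 h0 h1 h0' g1 hd hd'
  · exact Cell.two k5l k5m k5A k5C hx0 hx1 ht0 ht1 h0 h1 g0 g1 hd hd'
  · exact Cell.two k5l k5m k5A k5D hx0 hx1 ht0 ht1 h0 h1 g0 h1' hd hd'

def k6 : Cell :=
  ⟨1600, 2000, 0, 570, 15, 1, 1, 16, 0, 100, -2903, 4045, 1581, 1714, 4636, 4386, 5244⟩
theorem k6A : (k6.A D2x 0 80).Side := Pm.sideG
  (c := 0x10204060c4030810184060820406101820810184080c1820810184080c18408141040608203080c2840a1020108141040200182080c285080c282060818408100840610182080c1820810104060c102) (by decide +kernel)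
theorem k6B : (k6.B DL 0 40).Side := Pm.sideG
  (c := 0x40810182) (by decide +kernel)
theorem k6C : (k6.B DM 40 77).Side := Pm.sideG
  (c := 0x4080c2020808202) (by decide +kernel)
theorem k6D : (k6.B DL 77 80).Side := Pm.sideG
  (c := 0x60c1830408041030608304080c20008042000800186080c2030418304060c2030010201080c203040c20400101840010183) (by decide +kernel)
theorem k6l : k6.LB := Cell.lb_of (c := 0x8808800) (by decide +kernel)
theorem k6m : k6.MB := Cell.mb_of (c := 0x88800880800) (by decide +kernel)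
theorem r6 {x T y β y' β' : ℝ} (hx0 : ((1600 : ℤ) : ℝ) / 10000 ≤ x) (hx1 : x ≤ ((2000 : ℤ) : ℝ) / 10000)
    (ht0 : ((0 : ℤ) : ℝ) / 10000 ≤ T) (ht1 : T ≤ ((570 : ℤ) : ℝ) / 10000) (h0 : ((0 : ℤ) : ℝ) / 100 ≤ y)
    (h1 : y ≤ ((80 : ℤ) : ℝ) / 100) (h0' : ((0 : ℤ) : ℝ) / 100 ≤ y') (h1' : y' ≤ ((80 : ℤ) : ℝ) / 100)
    (hd : D2x.In y β) (hd' : InL 77 y' β') :
    Two (60 / 100) (13 / 100) (30 / 100) T x y β y' β' := by
  have ht : tr 0 (60 / 100) (13 / 100) (30 / 100) x = 1 :=
    tr_b (by norm_num) (by norm_num) (by push_cast at hx0; linarith only [hx0]) (by push_cast at hx1; linarith only [hx1])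
  refine Two.of k6 (by simp only [k6]; norm_num) (by simp only [k6]; norm_num)
    (by simp only [k6, Cell.e]; push_cast; rw [tr_b (by norm_num) (by norm_num) (by norm_num) (by norm_num)]; ring) (by simp only [k6, Cell.a]; push_cast; rw [ht]; ring) ?_
  rcases hd' with ⟨g1, hd'⟩ | ⟨g0, g1, hd'⟩ | ⟨g0, hd'⟩
  · exact Cell.two k6l k6m k6A k6B hx0 hx1 ht0 ht1 h0 h1 h0' g1 hd hd'
  · exact Cell.two k6l k6m k6A k6C hx0 hx1 ht0 ht1 h0 h1 g0 g1 hd hd'
  · exact Cell.two k6l k6m k6A k6D hx0 hx1 ht0 ht1 h0 h1 g0 h1' hd hd'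

def k7 : Cell :=
  ⟨2000, 2500, 0, 570, 18, 1, 1, 16, 0, 100, -3119, 5115, 1589, 1386, 4433, 4873, 4792⟩
theorem k7A : (k7.A D2x 0 80).Side := Pm.sideG
  (c := 0x102030810184080c184080c104080c103100c2040610184060820406102030608204061020306102050410182080c2030a10282080c2030a142030a0818206102040010182080c1820810104060c102) (by decide +kernel)
theorem k7B : (k7.B DL 0 40).Side := Pm.sideG
  (c := 0x10202) (by decide +kernel)
theorem k7C : (k7.B DM 40 77).Side := Pm.sideG
  (c := 0x40804202080c202080c2040608202) (by decide +kernel)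
theorem k7D : (k7.B DL 77 80).Side := Pm.sideG
  (c := 0x60c183040c10206080c00006102000c18203041018406001000c1820408001030610200041000400002040c10180081000200182030810002080020000042040010200080000408002040610000020418206083060818306081008408000020810200000c204080000106080030410204001020400002020810003081000104003060c10200040c106081020000082040010201001020400002030810001040c30408001860808203080420304041860c182030608304041018302102000010202081000208042000800100081020008080040810100080c2030804203080420400002040010002000c1060818306080c1820008204080020208042030010204000020400100020810200001008408001030008084080c2010818304060c004080020402102010400204000c104080820006103040804100081000408040020810104000c08008100040800202080c20308101840204203081000200102000810084040008408042040200182060c20406100040808200080c0840610183) (by decide +kernel)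
theorem k7l : k7.LB := Cell.lb_of (c := 0x8808800) (by decide +kernel)
theorem k7m : k7.MB := Cell.mb_of (c := 0x88800880800) (by decide +kernel)
theorem r7 {x T y β y' β' : ℝ} (hx0 : ((2000 : ℤ) : ℝ) / 10000 ≤ x) (hx1 : x ≤ ((2500 : ℤ) : ℝ) / 10000)
    (ht0 : ((0 : ℤ) : ℝ) / 10000 ≤ T) (ht1 : T ≤ ((570 : ℤ) : ℝ) / 10000) (h0 : ((0 : ℤ) : ℝ) / 100 ≤ y)
    (h1 : y ≤ ((80 : ℤ) : ℝ) / 100) (h0' : ((0 : ℤ) : ℝ) / 100 ≤ y') (h1' : y' ≤ ((80 : ℤ) : ℝ) / 100)
    (hd : D2x.In y β) (hd' : InL 77 y' β') :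
    Two (60 / 100) (13 / 100) (30 / 100) T x y β y' β' := by
  have ht : tr 0 (60 / 100) (13 / 100) (30 / 100) x = 1 :=
    tr_b (by norm_num) (by norm_num) (by push_cast at hx0; linarith only [hx0]) (by push_cast at hx1; linarith only [hx1])
  refine Two.of k7 (by simp only [k7]; norm_num) (by simp only [k7]; norm_num)
    (by simp only [k7, Cell.e]; push_cast; rw [tr_b (by norm_num) (by norm_num) (by norm_num) (by norm_num)]; ring) (by simp only [k7, Cell.a]; push_cast; rw [ht]; ring) ?_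
  rcases hd' with ⟨g1, hd'⟩ | ⟨g0, g1, hd'⟩ | ⟨g0, hd'⟩
  · exact Cell.two k7l k7m k7A k7B hx0 hx1 ht0 ht1 h0 h1 h0' g1 hd hd'
  · exact Cell.two k7l k7m k7A k7C hx0 hx1 ht0 ht1 h0 h1 g0 g1 hd hd'
  · exact Cell.two k7l k7m k7A k7D hx0 hx1 ht0 ht1 h0 h1 g0 h1' hd hd'

def k8 : Cell :=
  ⟨2500, 3000, 0, 570, 18, 1, 1, 16, 0, 100, -3371, 6127, 1589, 1386, 4190, 5928, 4145⟩
theorem k8A : (k8.A D2x 0 80).Side := Pm.sideG
  (c := 0x4080c20406102030410103100c2040610403100c184080c20304082040610104080c1820810104080c1840814102080c2030a10203080c2840a081820608204080c1030810104060c102) (by decide +kernel)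
theorem k8B : (k8.B DL 0 40).Side := Pm.sideG
  (c := 0x10202) (by decide +kernel)
theorem k8C : (k8.B DM 40 77).Side := Pm.sideG
  (c := 0x40804202080c20308101840408202) (by decide +kernel)
theorem k8D : (k8.B DL 77 80).Side := Pm.sideG
  (c := 0x183060c10103060830404102000804184080c084080c204000418308101840410183) (by decide +kernel)
theorem k8l : k8.LB := Cell.lb_of (c := 0x88800) (by decide +kernel)
theorem k8m : k8.MB := Cell.mb_of (c := 0x88800880800) (by decide +kernel)
theorem r8 {x T y β y' β' : ℝ} (hx0 : ((2500 : ℤ) : ℝ) / 10000 ≤ x) (hx1 : x ≤ ((3000 : ℤ) : ℝ) / 10000)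
    (ht0 : ((0 : ℤ) : ℝ) / 10000 ≤ T) (ht1 : T ≤ ((570 : ℤ) : ℝ) / 10000) (h0 : ((0 : ℤ) : ℝ) / 100 ≤ y)
    (h1 : y ≤ ((80 : ℤ) : ℝ) / 100) (h0' : ((0 : ℤ) : ℝ) / 100 ≤ y') (h1' : y' ≤ ((80 : ℤ) : ℝ) / 100)
    (hd : D2x.In y β) (hd' : InL 77 y' β') :
    Two (60 / 100) (13 / 100) (30 / 100) T x y β y' β' := by
  have ht : tr 0 (60 / 100) (13 / 100) (30 / 100) x = 1 :=
    tr_b (by norm_num) (by norm_num) (by push_cast at hx0; linarith only [hx0]) (by push_cast at hx1; linarith only [hx1])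
  refine Two.of k8 (by simp only [k8]; norm_num) (by simp only [k8]; norm_num)
    (by simp only [k8, Cell.e]; push_cast; rw [tr_b (by norm_num) (by norm_num) (by norm_num) (by norm_num)]; ring) (by simp only [k8, Cell.a]; push_cast; rw [ht]; ring) ?_
  rcases hd' with ⟨g1, hd'⟩ | ⟨g0, g1, hd'⟩ | ⟨g0, hd'⟩
  · exact Cell.two k8l k8m k8A k8B hx0 hx1 ht0 ht1 h0 h1 h0' g1 hd hd'
  · exact Cell.two k8l k8m k8A k8C hx0 hx1 ht0 ht1 h0 h1 g0 g1 hd hd'
  · exact Cell.two k8l k8m k8A k8D hx0 hx1 ht0 ht1 h0 h1 g0 h1' hd hd'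

def k9 : Cell :=
  ⟨3000, 3500, 0, 570, 18, 1, 1, 96, -160, 300, -3952, 8083, 1589, 1386, 9351, -11278, 3703⟩
theorem k9A : (k9.A D2x 0 80).Side := Pm.sideG
  (c := 0x10204080c183080c20406201820810184080c4030608204061018406102030408204080c104080c1840808203080c2840a101820608204040c204060c102) (by decide +kernel)
theorem k9B : (k9.B DL 0 40).Side := Pm.sideG
  (c := 0x102030810182) (by decide +kernel)
theorem k9C : (k9.B DM 40 77).Side := Pm.sideG
  (c := 0x4080820308101820810102) (by decide +kernel)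
theorem k9D : (k9.B DL 77 80).Side := Pm.sideG
  (c := 0x60c18204020c1030c1010406102030210201060c2040610183) (by decide +kernel)
theorem k9l : k9.LB := Cell.lb_of (c := 0x880) (by decide +kernel)
theorem k9m : k9.MB := Cell.mb_of (c := 0x88800880800) (by decide +kernel)
theorem r9 {x T y β y' β' : ℝ} (hx0 : ((3000 : ℤ) : ℝ) / 10000 ≤ x) (hx1 : x ≤ ((3500 : ℤ) : ℝ) / 10000)
    (ht0 : ((0 : ℤ) : ℝ) / 10000 ≤ T) (ht1 : T ≤ ((570 : ℤ) : ℝ) / 10000) (h0 : ((0 : ℤ) : ℝ) / 100 ≤ y)
    (h1 : y ≤ ((80 : ℤ) : ℝ) / 100) (h0' : ((0 : ℤ) : ℝ) / 100 ≤ y') (h1' : y' ≤ ((80 : ℤ) : ℝ) / 100)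
    (hd : D2x.In y β) (hd' : InL 77 y' β') :
    Two (60 / 100) (13 / 100) (30 / 100) T x y β y' β' := by
  have ht : tr 0 (60 / 100) (13 / 100) (30 / 100) x = (60 / 100 - x) / (30 / 100) :=
    tr_c (by norm_num) (by norm_num) (by norm_num) (by push_cast at hx0; linarith only [hx0]) (by push_cast at hx1; linarith only [hx1])
  refine Two.of k9 (by simp only [k9]; norm_num) (by simp only [k9]; norm_num)
    (by simp only [k9, Cell.e]; push_cast; rw [tr_b (by norm_num) (by norm_num) (by norm_num) (by norm_num)]; ring) (by simp only [k9, Cell.a]; push_cast; rw [ht]; ring) ?_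
  rcases hd' with ⟨g1, hd'⟩ | ⟨g0, g1, hd'⟩ | ⟨g0, hd'⟩
  · exact Cell.two k9l k9m k9A k9B hx0 hx1 ht0 ht1 h0 h1 h0' g1 hd hd'
  · exact Cell.two k9l k9m k9A k9C hx0 hx1 ht0 ht1 h0 h1 g0 g1 hd hd'
  · exact Cell.two k9l k9m k9A k9D hx0 hx1 ht0 ht1 h0 h1 g0 h1' hd hd'

def k10 : Cell :=
  ⟨3500, 4000, 0, 570, 18, 1, 1, 96, -160, 300, -3831, 7737, 1589, 1386, 9602, -11988, 3655⟩
theorem k10A : (k10.A D2x 0 80).Side := Pm.sideG
  (c := 0x102030810104080818308101820810184080c104080c102101020304104030808202040c204080c104061020406082030a102020608204040c204060c102) (by decide +kernel)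
theorem k10B : (k10.B DL 0 40).Side := Pm.sideG
  (c := 0x102030810182) (by decide +kernel)
theorem k10C : (k10.B DM 40 77).Side := Pm.sideG
  (c := 0x4080c204060820406082040410102) (by decide +kernel)
theorem k10D : (k10.B DL 77 80).Side := Pm.sideG
  (c := 0x183060c10103040c3040410184080c08408041830810183) (by decide +kernel)
theorem k10l : k10.LB := Cell.lb_of (c := 0x880) (by decide +kernel)
theorem k10m : k10.MB := Cell.mb_of (c := 0x88800880800) (by decide +kernel)
theorem r10 {x T y β y' β' : ℝ} (hx0 : ((3500 : ℤ) : ℝ) / 10000 ≤ x) (hx1 : x ≤ ((4000 : ℤ) : ℝ) / 10000)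
    (ht0 : ((0 : ℤ) : ℝ) / 10000 ≤ T) (ht1 : T ≤ ((570 : ℤ) : ℝ) / 10000) (h0 : ((0 : ℤ) : ℝ) / 100 ≤ y)
    (h1 : y ≤ ((80 : ℤ) : ℝ) / 100) (h0' : ((0 : ℤ) : ℝ) / 100 ≤ y') (h1' : y' ≤ ((80 : ℤ) : ℝ) / 100)
    (hd : D2x.In y β) (hd' : InL 77 y' β') :
    Two (60 / 100) (13 / 100) (30 / 100) T x y β y' β' := by
  have ht : tr 0 (60 / 100) (13 / 100) (30 / 100) x = (60 / 100 - x) / (30 / 100) :=
    tr_c (by norm_num) (by norm_num) (by norm_num) (by push_cast at hx0; linarith only [hx0]) (by push_cast at hx1; linarith only [hx1])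
  refine Two.of k10 (by simp only [k10]; norm_num) (by simp only [k10]; norm_num)
    (by simp only [k10, Cell.e]; push_cast; rw [tr_b (by norm_num) (by norm_num) (by norm_num) (by norm_num)]; ring) (by simp only [k10, Cell.a]; push_cast; rw [ht]; ring) ?_
  rcases hd' with ⟨g1, hd'⟩ | ⟨g0, g1, hd'⟩ | ⟨g0, hd'⟩
  · exact Cell.two k10l k10m k10A k10B hx0 hx1 ht0 ht1 h0 h1 h0' g1 hd hd'
  · exact Cell.two k10l k10m k10A k10C hx0 hx1 ht0 ht1 h0 h1 g0 g1 hd hd'
  · exact Cell.two k10l k10m k10A k10D hx0 hx1 ht0 ht1 h0 h1 g0 h1' hd hd'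

def k11 : Cell :=
  ⟨4000, 4500, 0, 570, 18, 1, 1, 96, -160, 300, -3722, 7464, 1589, 1386, 10236, -13578, 4072⟩
theorem k11A : (k11.A D2x 0 80).Side := Pm.sideG
  (c := 0x10204060c20406102030408204061020208101830408204080810806102030808103081020304102030610202080c2840608204040c204060c102) (by decide +kernel)
theorem k11B : (k11.B DL 0 40).Side := Pm.sideG
  (c := 0x408082030810102) (by decide +kernel)
theorem k11C : (k11.B DM 40 77).Side := Pm.sideG
  (c := 0x4080c2040610184080c1020810184080c102) (by decide +kernel)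
theorem k11D : (k11.B DL 77 80).Side := Pm.sideG
  (c := 0x60c18304040c1030c1010406102030210201060c203) (by decide +kernel)
theorem k11l : k11.LB := Cell.lb_of (c := 0x880) (by decide +kernel)
theorem k11m : k11.MB := Cell.mb_of (c := 0x88800880800) (by decide +kernel)
theorem r11 {x T y β y' β' : ℝ} (hx0 : ((4000 : ℤ) : ℝ) / 10000 ≤ x) (hx1 : x ≤ ((4500 : ℤ) : ℝ) / 10000)
    (ht0 : ((0 : ℤ) : ℝ) / 10000 ≤ T) (ht1 : T ≤ ((570 : ℤ) : ℝ) / 10000) (h0 : ((0 : ℤ) : ℝ) / 100 ≤ y)
    (h1 : y ≤ ((80 : ℤ) : ℝ) / 100) (h0' : ((0 : ℤ) : ℝ) / 100 ≤ y') (h1' : y' ≤ ((80 : ℤ) : ℝ) / 100)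
    (hd : D2x.In y β) (hd' : InL 77 y' β') :
    Two (60 / 100) (13 / 100) (30 / 100) T x y β y' β' := by
  have ht : tr 0 (60 / 100) (13 / 100) (30 / 100) x = (60 / 100 - x) / (30 / 100) :=
    tr_c (by norm_num) (by norm_num) (by norm_num) (by push_cast at hx0; linarith only [hx0]) (by push_cast at hx1; linarith only [hx1])
  refine Two.of k11 (by simp only [k11]; norm_num) (by simp only [k11]; norm_num)
    (by simp only [k11, Cell.e]; push_cast; rw [tr_b (by norm_num) (by norm_num) (by norm_num) (by norm_num)]; ring) (by simp only [k11, Cell.a]; push_cast; rw [ht]; ring) ?_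
  rcases hd' with ⟨g1, hd'⟩ | ⟨g0, g1, hd'⟩ | ⟨g0, hd'⟩
  · exact Cell.two k11l k11m k11A k11B hx0 hx1 ht0 ht1 h0 h1 h0' g1 hd hd'
  · exact Cell.two k11l k11m k11A k11C hx0 hx1 ht0 ht1 h0 h1 g0 g1 hd hd'
  · exact Cell.two k11l k11m k11A k11D hx0 hx1 ht0 ht1 h0 h1 g0 h1' hd hd'

def k12 : Cell :=
  ⟨4500, 5000, 0, 570, 20, 1, 1, 96, -160, 300, -3605, 7205, 1568, 1214, 11828, -17577, 6474⟩
theorem k12A : (k12.A D2x 0 80).Side := Pm.sideG
  (c := 0x408101830810184080c1820810184080c204060810208101040810102040c204061020304102030610204080c1020a10182080c204060c102) (by decide +kernel)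
theorem k12B : (k12.B DL 0 40).Side := Pm.sideG
  (c := 0x4080c203081018406082040410182) (by decide +kernel)
theorem k12C : (k12.B DM 40 77).Side := Pm.sideG
  (c := 0x4080c2020810203040820406102030808102) (by decide +kernel)
theorem k12D : (k12.B DL 77 80).Side := Pm.sideG
  (c := 0x60c183040804102060c30608100830610203041020202102020810181060c203) (by decide +kernel)
theorem k12l : k12.LB := Cell.lb_of (c := 0x8) (by decide +kernel)
theorem k12m : k12.MB := Cell.mb_of (c := 0x8808800) (by decide +kernel)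
theorem r12 {x T y β y' β' : ℝ} (hx0 : ((4500 : ℤ) : ℝ) / 10000 ≤ x) (hx1 : x ≤ ((5000 : ℤ) : ℝ) / 10000)
    (ht0 : ((0 : ℤ) : ℝ) / 10000 ≤ T) (ht1 : T ≤ ((570 : ℤ) : ℝ) / 10000) (h0 : ((0 : ℤ) : ℝ) / 100 ≤ y)
    (h1 : y ≤ ((80 : ℤ) : ℝ) / 100) (h0' : ((0 : ℤ) : ℝ) / 100 ≤ y') (h1' : y' ≤ ((80 : ℤ) : ℝ) / 100)
    (hd : D2x.In y β) (hd' : InL 77 y' β') :
    Two (60 / 100) (13 / 100) (30 / 100) T x y β y' β' := by
  have ht : tr 0 (60 / 100) (13 / 100) (30 / 100) x = (60 / 100 - x) / (30 / 100) :=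
    tr_c (by norm_num) (by norm_num) (by norm_num) (by push_cast at hx0; linarith only [hx0]) (by push_cast at hx1; linarith only [hx1])
  refine Two.of k12 (by simp only [k12]; norm_num) (by simp only [k12]; norm_num)
    (by simp only [k12, Cell.e]; push_cast; rw [tr_b (by norm_num) (by norm_num) (by norm_num) (by norm_num)]; ring) (by simp only [k12, Cell.a]; push_cast; rw [ht]; ring) ?_
  rcases hd' with ⟨g1, hd'⟩ | ⟨g0, g1, hd'⟩ | ⟨g0, hd'⟩
  · exact Cell.two k12l k12m k12A k12B hx0 hx1 ht0 ht1 h0 h1 h0' g1 hd hd'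
  · exact Cell.two k12l k12m k12A k12C hx0 hx1 ht0 ht1 h0 h1 g0 g1 hd hd'
  · exact Cell.two k12l k12m k12A k12D hx0 hx1 ht0 ht1 h0 h1 g0 h1' hd hd'

def k13 : Cell :=
  ⟨5000, 5400, 0, 570, 22, 1, 1, 96, -160, 300, -3481, 6956, 1529, 1068, 13841, -22094, 11172⟩
theorem k13A : (k13.A D2x 0 80).Side := Pm.sideG
  (c := 0x1020308101820810184080c1040808203080c1020810203041020208081030810184061018408082030410205080c10406082840608203080c102) (by decide +kernel)
theorem k13B : (k13.B DL 0 40).Side := Pm.sideG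
  (c := 0x40808203081018308101040610182081018404102020410182) (by decide +kernel)
theorem k13C : (k13.B DM 40 77).Side := Pm.sideG
  (c := 0x1020308082040610104080c102) (by decide +kernel)
theorem k13D : (k13.B DL 77 80).Side := Pm.sideG
  (c := 0x60c1830608082030804102060c304081020004081060808204020c2010610201060c203) (by decide +kernel)
theorem k13l : k13.LB := Cell.lb_of (c := 0x8) (by decide +kernel)
theorem k13m : k13.MB := Cell.mb_of (c := 0x8808800) (by decide +kernel)
theorem r13 {x T y β y' β' : ℝ} (hx0 : ((5000 : ℤ) : ℝ) / 10000 ≤ x) (hx1 : x ≤ ((5400 : ℤ) : ℝ) / 10000)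
    (ht0 : ((0 : ℤ) : ℝ) / 10000 ≤ T) (ht1 : T ≤ ((570 : ℤ) : ℝ) / 10000) (h0 : ((0 : ℤ) : ℝ) / 100 ≤ y)
    (h1 : y ≤ ((80 : ℤ) : ℝ) / 100) (h0' : ((0 : ℤ) : ℝ) / 100 ≤ y') (h1' : y' ≤ ((80 : ℤ) : ℝ) / 100)
    (hd : D2x.In y β) (hd' : InL 77 y' β') :
    Two (60 / 100) (13 / 100) (30 / 100) T x y β y' β' := by
  have ht : tr 0 (60 / 100) (13 / 100) (30 / 100) x = (60 / 100 - x) / (30 / 100) :=
    tr_c (by norm_num) (by norm_num) (by norm_num) (by push_cast at hx0; linarith only [hx0]) (by push_cast at hx1; linarith only [hx1])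
  refine Two.of k13 (by simp only [k13]; norm_num) (by simp only [k13]; norm_num)
    (by simp only [k13, Cell.e]; push_cast; rw [tr_b (by norm_num) (by norm_num) (by norm_num) (by norm_num)]; ring) (by simp only [k13, Cell.a]; push_cast; rw [ht]; ring) ?_
  rcases hd' with ⟨g1, hd'⟩ | ⟨g0, g1, hd'⟩ | ⟨g0, hd'⟩
  · exact Cell.two k13l k13m k13A k13B hx0 hx1 ht0 ht1 h0 h1 h0' g1 hd hd'
  · exact Cell.two k13l k13m k13A k13C hx0 hx1 ht0 ht1 h0 h1 g0 g1 hd hd'
  · exact Cell.two k13l k13m k13A k13D hx0 hx1 ht0 ht1 h0 h1 g0 h1' hd hd'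

def k14 : Cell :=
  ⟨5400, 5600, 0, 570, 22, 1, 1, 96, -160, 300, -3382, 6773, 1529, 1068, 15756, -25971, 17260⟩
theorem k14A : (k14.A D2x 0 80).Side := Pm.sideG
  (c := 0x1020308101820810184061020304082040410202040c20406101840610203080c1040808203080c104080c205080c10406082840608203080c102) (by decide +kernel)
theorem k14B : (k14.B DL 0 40).Side := Pm.sideG
  (c := 0x10203080c2040610182081010406101820810104061020308101820410182) (by decide +kernel)
theorem k14C : (k14.B DM 40 77).Side := Pm.sideG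
  (c := 0x408082040610102) (by decide +kernel)
theorem k14D : (k14.B DL 77 80).Side := Pm.sideG
  (c := 0x60c18304080420104081830c101060808204020c184060c203) (by decide +kernel)
theorem k14l : k14.LB := Cell.lb_of (c := 0x8) (by decide +kernel)
theorem k14m : k14.MB := Cell.mb_of (c := 0x8808800) (by decide +kernel)
theorem r14 {x T y β y' β' : ℝ} (hx0 : ((5400 : ℤ) : ℝ) / 10000 ≤ x) (hx1 : x ≤ ((5600 : ℤ) : ℝ) / 10000)
    (ht0 : ((0 : ℤ) : ℝ) / 10000 ≤ T) (ht1 : T ≤ ((570 : ℤ) : ℝ) / 10000) (h0 : ((0 : ℤ) : ℝ) / 100 ≤ y)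
    (h1 : y ≤ ((80 : ℤ) : ℝ) / 100) (h0' : ((0 : ℤ) : ℝ) / 100 ≤ y') (h1' : y' ≤ ((80 : ℤ) : ℝ) / 100)
    (hd : D2x.In y β) (hd' : InL 77 y' β') :
    Two (60 / 100) (13 / 100) (30 / 100) T x y β y' β' := by
  have ht : tr 0 (60 / 100) (13 / 100) (30 / 100) x = (60 / 100 - x) / (30 / 100) :=
    tr_c (by norm_num) (by norm_num) (by norm_num) (by push_cast at hx0; linarith only [hx0]) (by push_cast at hx1; linarith only [hx1])
  refine Two.of k14 (by simp only [k14]; norm_num) (by simp only [k14]; norm_num)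
    (by simp only [k14, Cell.e]; push_cast; rw [tr_b (by norm_num) (by norm_num) (by norm_num) (by norm_num)]; ring) (by simp only [k14, Cell.a]; push_cast; rw [ht]; ring) ?_
  rcases hd' with ⟨g1, hd'⟩ | ⟨g0, g1, hd'⟩ | ⟨g0, hd'⟩
  · exact Cell.two k14l k14m k14A k14B hx0 hx1 ht0 ht1 h0 h1 h0' g1 hd hd'
  · exact Cell.two k14l k14m k14A k14C hx0 hx1 ht0 ht1 h0 h1 g0 g1 hd hd'
  · exact Cell.two k14l k14m k14A k14D hx0 hx1 ht0 ht1 h0 h1 g0 h1' hd hd'

def k15 : Cell :=
  ⟨5600, 5700, 0, 570, 24, 1, 1, 96, -160, 300, -3327, 6675, 1475, 943, 15369, -25366, 17521⟩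
theorem k15A : (k15.A D2x 0 80).Side := Pm.sideG
  (c := 0x4080c20406082040610202080c10208102030410202040c20406101840610203080c1040808203080c1040810185080c102080c2840608203080c102) (by decide +kernel)
theorem k15B : (k15.B DL 0 40).Side := Pm.sideG
  (c := 0x10203080c2040610182081010406101820810104061020308101820410182) (by decide +kernel)
theorem k15C : (k15.B DM 40 77).Side := Pm.sideG
  (c := 0x102020810102) (by decide +kernel)
theorem k15D : (k15.B DL 77 80).Side := Pm.sideG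
  (c := 0x183060c18202080c104020c1030c102010804203041820208101030610201060c203) (by decide +kernel)
theorem k15l : k15.LB := Cell.lb_of (c := 0x8) (by decide +kernel)
theorem k15m : k15.MB := Cell.mb_of (c := 0x8808800) (by decide +kernel)
theorem r15 {x T y β y' β' : ℝ} (hx0 : ((5600 : ℤ) : ℝ) / 10000 ≤ x) (hx1 : x ≤ ((5700 : ℤ) : ℝ) / 10000)
    (ht0 : ((0 : ℤ) : ℝ) / 10000 ≤ T) (ht1 : T ≤ ((570 : ℤ) : ℝ) / 10000) (h0 : ((0 : ℤ) : ℝ) / 100 ≤ y)
    (h1 : y ≤ ((80 : ℤ) : ℝ) / 100) (h0' : ((0 : ℤ) : ℝ) / 100 ≤ y') (h1' : y' ≤ ((80 : ℤ) : ℝ) / 100)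
    (hd : D2x.In y β) (hd' : InL 77 y' β') :
    Two (60 / 100) (13 / 100) (30 / 100) T x y β y' β' := by
  have ht : tr 0 (60 / 100) (13 / 100) (30 / 100) x = (60 / 100 - x) / (30 / 100) :=
    tr_c (by norm_num) (by norm_num) (by norm_num) (by push_cast at hx0; linarith only [hx0]) (by push_cast at hx1; linarith only [hx1])
  refine Two.of k15 (by simp only [k15]; norm_num) (by simp only [k15]; norm_num)
    (by simp only [k15, Cell.e]; push_cast; rw [tr_b (by norm_num) (by norm_num) (by norm_num) (by norm_num)]; ring) (by simp only [k15, Cell.a]; push_cast; rw [ht]; ring) ?_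
  rcases hd' with ⟨g1, hd'⟩ | ⟨g0, g1, hd'⟩ | ⟨g0, hd'⟩
  · exact Cell.two k15l k15m k15A k15B hx0 hx1 ht0 ht1 h0 h1 h0' g1 hd hd'
  · exact Cell.two k15l k15m k15A k15C hx0 hx1 ht0 ht1 h0 h1 g0 g1 hd hd'
  · exact Cell.two k15l k15m k15A k15D hx0 hx1 ht0 ht1 h0 h1 g0 h1' hd hd'

def k16 : Cell :=
  ⟨5700, 5800, 0, 570, 33, 27, 30, 96, -160, 300, -3288, 6607, 1087, 426, 17992, -30051, 19409⟩
theorem k16A : (k16.A D2x 0 80).Side := Pm.sideG
  (c := 0x408101830810184080c182081020306082040610202080c1021010104080c202040c20406101840610203080c104080c203080c10408082840608203080c102) (by decide +kernel)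
theorem k16B : (k16.B DL 0 40).Side := Pm.sideG
  (c := 0x10203080c20406101820810184060820406102030410182) (by decide +kernel)
theorem k16C : (k16.B DM 40 79).Side := Pm.sideG
  (c := 0x4080c2020810102) (by decide +kernel)
theorem k16D : (k16.B DL 79 80).Side := Pm.sideG
  (c := 0x183060c101840618203080c082080c201060c203) (by decide +kernel)
theorem k16l : k16.LB := Cell.lb_of (c := 0x8) (by decide +kernel)
theorem k16m : k16.MB := Cell.mb_of (c := 0x8808800) (by decide +kernel)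
theorem r16 {x T y β y' β' : ℝ} (hx0 : ((5700 : ℤ) : ℝ) / 10000 ≤ x) (hx1 : x ≤ ((5800 : ℤ) : ℝ) / 10000)
    (ht0 : ((0 : ℤ) : ℝ) / 10000 ≤ T) (ht1 : T ≤ ((570 : ℤ) : ℝ) / 10000) (h0 : ((0 : ℤ) : ℝ) / 100 ≤ y)
    (h1 : y ≤ ((80 : ℤ) : ℝ) / 100) (h0' : ((0 : ℤ) : ℝ) / 100 ≤ y') (h1' : y' ≤ ((80 : ℤ) : ℝ) / 100)
    (hd : D2x.In y β) (hd' : InL 79 y' β') :
    Two (60 / 100) (13 / 100) (30 / 100) T x y β y' β' := by
  have ht : tr 0 (60 / 100) (13 / 100) (30 / 100) x = (60 / 100 - x) / (30 / 100) :=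
    tr_c (by norm_num) (by norm_num) (by norm_num) (by push_cast at hx0; linarith only [hx0]) (by push_cast at hx1; linarith only [hx1])
  refine Two.of k16 (by simp only [k16]; norm_num) (by simp only [k16]; norm_num)
    (by simp only [k16, Cell.e]; push_cast; rw [tr_c (by norm_num) (by norm_num) (by norm_num) (by norm_num) (by norm_num)]; ring) (by simp only [k16, Cell.a]; push_cast; rw [ht]; ring) ?_
  rcases hd' with ⟨g1, hd'⟩ | ⟨g0, g1, hd'⟩ | ⟨g0, hd'⟩
  · exact Cell.two k16l k16m k16A k16B hx0 hx1 ht0 ht1 h0 h1 h0' g1 hd hd'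
  · exact Cell.two k16l k16m k16A k16C hx0 hx1 ht0 ht1 h0 h1 g0 g1 hd hd'
  · exact Cell.two k16l k16m k16A k16D hx0 hx1 ht0 ht1 h0 h1 g0 h1' hd hd'

def k17 : Cell :=
  ⟨5800, 5900, 0, 570, 36, 24, 30, 96, -160, 300, -3247, 6537, 918, 269, 16432, -27453, 17530⟩
theorem k17A : (k17.A D2x 0 80).Side := Pm.sideG
  (c := 0x4080c204060c2040410184080c1820810184080c1840808203040840404102020808103081018404101840808184080c203080c10408101820a10182080c204060c102) (by decide +kernel)
theorem k17B : (k17.B DL 0 40).Side := Pm.sideG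
  (c := 0x4080c20406082030810184060820406102030410182) (by decide +kernel)
theorem k17C : (k17.B DM 40 79).Side := Pm.sideG
  (c := 0x4080820308082040610102) (by decide +kernel)
theorem k17D : (k17.B DL 79 80).Side := Pm.sideG
  (c := 0x183060c101840610203080c082080c201060c203) (by decide +kernel)
theorem k17l : k17.LB := Cell.lb_of (c := 0x8) (by decide +kernel)
theorem k17m : k17.MB := Cell.mb_of (c := 0x880) (by decide +kernel)
theorem r17 {x T y β y' β' : ℝ} (hx0 : ((5800 : ℤ) : ℝ) / 10000 ≤ x) (hx1 : x ≤ ((5900 : ℤ) : ℝ) / 10000)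
    (ht0 : ((0 : ℤ) : ℝ) / 10000 ≤ T) (ht1 : T ≤ ((570 : ℤ) : ℝ) / 10000) (h0 : ((0 : ℤ) : ℝ) / 100 ≤ y)
    (h1 : y ≤ ((80 : ℤ) : ℝ) / 100) (h0' : ((0 : ℤ) : ℝ) / 100 ≤ y') (h1' : y' ≤ ((80 : ℤ) : ℝ) / 100)
    (hd : D2x.In y β) (hd' : InL 79 y' β') :
    Two (60 / 100) (13 / 100) (30 / 100) T x y β y' β' := by
  have ht : tr 0 (60 / 100) (13 / 100) (30 / 100) x = (60 / 100 - x) / (30 / 100) :=
    tr_c (by norm_num) (by norm_num) (by norm_num) (by push_cast at hx0; linarith only [hx0]) (by push_cast at hx1; linarith only [hx1])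
  refine Two.of k17 (by simp only [k17]; norm_num) (by simp only [k17]; norm_num)
    (by simp only [k17, Cell.e]; push_cast; rw [tr_c (by norm_num) (by norm_num) (by norm_num) (by norm_num) (by norm_num)]; ring) (by simp only [k17, Cell.a]; push_cast; rw [ht]; ring) ?_
  rcases hd' with ⟨g1, hd'⟩ | ⟨g0, g1, hd'⟩ | ⟨g0, hd'⟩
  · exact Cell.two k17l k17m k17A k17B hx0 hx1 ht0 ht1 h0 h1 h0' g1 hd hd'
  · exact Cell.two k17l k17m k17A k17C hx0 hx1 ht0 ht1 h0 h1 g0 g1 hd hd'
  · exact Cell.two k17l k17m k17A k17D hx0 hx1 ht0 ht1 h0 h1 g0 h1' hd hd'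

def k18 : Cell :=
  ⟨5900, 6000, 0, 570, 36, 24, 30, 96, -160, 300, -3206, 6466, 918, 269, 18849, -31564, 18664⟩
theorem k18A : (k18.A D2x 0 80).Side := Pm.sideG
  (c := 0x4080c204060c2040410184080c1820810184080c1840810102080c102101010408082040608103081010404102030410203061020206102040608203080c104080c205080c102080c2840608204040c204060c102) (by decide +kernel)
theorem k18B : (k18.B DL 0 40).Side := Pm.sideG
  (c := 0x1020208082030810182080c20404101840608204041020406081040610182) (by decide +kernel)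
theorem k18C : (k18.B DM 40 79).Side := Pm.sideG
  (c := 0x4080820308082040610102) (by decide +kernel)
theorem k18D : (k18.B DL 79 80).Side := Pm.sideG
  (c := 0x60c183040610184080c082080c201060c203) (by decide +kernel)
theorem k18l : k18.LB := Cell.lb_of (c := 0x8) (by decide +kernel)
theorem k18m : k18.MB := Cell.mb_of (c := 0x880) (by decide +kernel)
theorem r18 {x T y β y' β' : ℝ} (hx0 : ((5900 : ℤ) : ℝ) / 10000 ≤ x) (hx1 : x ≤ ((6000 : ℤ) : ℝ) / 10000)
    (ht0 : ((0 : ℤ) : ℝ) / 10000 ≤ T) (ht1 : T ≤ ((570 : ℤ) : ℝ) / 10000) (h0 : ((0 : ℤ) : ℝ) / 100 ≤ y)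
    (h1 : y ≤ ((80 : ℤ) : ℝ) / 100) (h0' : ((0 : ℤ) : ℝ) / 100 ≤ y') (h1' : y' ≤ ((80 : ℤ) : ℝ) / 100)
    (hd : D2x.In y β) (hd' : InL 79 y' β') :
    Two (60 / 100) (13 / 100) (30 / 100) T x y β y' β' := by
  have ht : tr 0 (60 / 100) (13 / 100) (30 / 100) x = (60 / 100 - x) / (30 / 100) :=
    tr_c (by norm_num) (by norm_num) (by norm_num) (by push_cast at hx0; linarith only [hx0]) (by push_cast at hx1; linarith only [hx1])
  refine Two.of k18 (by simp only [k18]; norm_num) (by simp only [k18]; norm_num)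
    (by simp only [k18, Cell.e]; push_cast; rw [tr_c (by norm_num) (by norm_num) (by norm_num) (by norm_num) (by norm_num)]; ring) (by simp only [k18, Cell.a]; push_cast; rw [ht]; ring) ?_
  rcases hd' with ⟨g1, hd'⟩ | ⟨g0, g1, hd'⟩ | ⟨g0, hd'⟩
  · exact Cell.two k18l k18m k18A k18B hx0 hx1 ht0 ht1 h0 h1 h0' g1 hd hd'
  · exact Cell.two k18l k18m k18A k18C hx0 hx1 ht0 ht1 h0 h1 g0 g1 hd hd'
  · exact Cell.two k18l k18m k18A k18D hx0 hx1 ht0 ht1 h0 h1 g0 h1' hd hd'

theorem rows {x T y β y' β' : ℝ} (hx0 : 0 ≤ x) (hx1 : x ≤ 60 / 100) (ht0 : 0 ≤ T) (ht1 : T ≤ 570 / 10000)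
    (h0 : 0 ≤ y) (h1 : y ≤ 8 / 10) (h0' : 0 ≤ y') (h1' : y' ≤ 8 / 10) (hd : D2x.In y β)
    (hd' : InL 77 y' β') (hd2 : 57 / 100 ≤ x → InL 79 y' β') : Two (60 / 100) (13 / 100) (30 / 100) T x y β y' β' := by
  have t0 : ((0 : ℤ) : ℝ) / 10000 ≤ T := by push_cast; linarith only [ht0]
  have t1 : T ≤ ((570 : ℤ) : ℝ) / 10000 := by push_cast; linarith only [ht1]
  have y0 : ((0 : ℤ) : ℝ) / 100 ≤ y := by push_cast; linarith only [h0]
  have y1 : y ≤ ((80 : ℤ) : ℝ) / 100 := by push_cast; linarith only [h1]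
  have y0' : ((0 : ℤ) : ℝ) / 100 ≤ y' := by push_cast; linarith only [h0']
  have y1' : y' ≤ ((80 : ℤ) : ℝ) / 100 := by push_cast; linarith only [h1']
  have g0 : ((0 : ℤ) : ℝ) / 10000 ≤ x := by push_cast; linarith only [hx0]
  rcases le_total x (((50 : ℤ) : ℝ) / 10000) with c0 | g1
  · exact r0 g0 c0 t0 t1 y0 y1 y0' y1' hd hd'
  rcases le_total x (((200 : ℤ) : ℝ) / 10000) with c1 | g2
  · exact r1 g1 c1 t0 t1 y0 y1 y0' y1' hd hd'
  rcases le_total x (((500 : ℤ) : ℝ) / 10000) with c2 | g3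
  · exact r2 g2 c2 t0 t1 y0 y1 y0' y1' hd hd'
  rcases le_total x (((1000 : ℤ) : ℝ) / 10000) with c3 | g4
  · exact r3 g3 c3 t0 t1 y0 y1 y0' y1' hd hd'
  rcases le_total x (((1300 : ℤ) : ℝ) / 10000) with c4 | g5
  · exact r4 g4 c4 t0 t1 y0 y1 y0' y1' hd hd'
  rcases le_total x (((1600 : ℤ) : ℝ) / 10000) with c5 | g6
  · exact r5 g5 c5 t0 t1 y0 y1 y0' y1' hd hd'
  rcases le_total x (((2000 : ℤ) : ℝ) / 10000) with c6 | g7
  · exact r6 g6 c6 t0 t1 y0 y1 y0' y1' hd hd'
  rcases le_total x (((2500 : ℤ) : ℝ) / 10000) with c7 | g8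
  · exact r7 g7 c7 t0 t1 y0 y1 y0' y1' hd hd'
  rcases le_total x (((3000 : ℤ) : ℝ) / 10000) with c8 | g9
  · exact r8 g8 c8 t0 t1 y0 y1 y0' y1' hd hd'
  rcases le_total x (((3500 : ℤ) : ℝ) / 10000) with c9 | g10
  · exact r9 g9 c9 t0 t1 y0 y1 y0' y1' hd hd'
  rcases le_total x (((4000 : ℤ) : ℝ) / 10000) with c10 | g11
  · exact r10 g10 c10 t0 t1 y0 y1 y0' y1' hd hd'
  rcases le_total x (((4500 : ℤ) : ℝ) / 10000) with c11 | g12
  · exact r11 g11 c11 t0 t1 y0 y1 y0' y1' hd hd'
  rcases le_total x (((5000 : ℤ) : ℝ) / 10000) with c12 | g13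
  · exact r12 g12 c12 t0 t1 y0 y1 y0' y1' hd hd'
  rcases le_total x (((5400 : ℤ) : ℝ) / 10000) with c13 | g14
  · exact r13 g13 c13 t0 t1 y0 y1 y0' y1' hd hd'
  rcases le_total x (((5600 : ℤ) : ℝ) / 10000) with c14 | g15
  · exact r14 g14 c14 t0 t1 y0 y1 y0' y1' hd hd'
  rcases le_total x (((5700 : ℤ) : ℝ) / 10000) with c15 | g16
  · exact r15 g15 c15 t0 t1 y0 y1 y0' y1' hd hd'
  rcases le_total x (((5800 : ℤ) : ℝ) / 10000) with c16 | g17
  · exact r16 g16 c16 t0 t1 y0 y1 y0' y1' hd (hd2 (by push_cast at g16; linarith only [g16]))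
  rcases le_total x (((5900 : ℤ) : ℝ) / 10000) with c17 | g18
  · exact r17 g17 c17 t0 t1 y0 y1 y0' y1' hd (hd2 (by push_cast at g17; linarith only [g17]))
  exact r18 g18 (by push_cast; linarith only [hx1]) t0 t1 y0 y1 y0' y1' hd (hd2 (by push_cast at g18; linarith only [g18]))

end R23

end KR

end Pool.Agent.Work.MP_b30479_gtS.G2

end

section

/-!
# Mirrored paths: rows, kind `32` (generated)
-/

set_option linter.unusedVariables false
set_option linter.unusedSimpArgs false
set_option linter.unusedTactic false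
set_option linter.unreachableTactic false

namespace Pool.Agent.Work.MP_b30479_gtS.G2

open VOL NumUs

namespace KR

namespace R32

theorem r9 {x T y β y' β' : ℝ} (hx0 : ((3000 : ℤ) : ℝ) / 10000 ≤ x) (hx1 : x ≤ ((3500 : ℤ) : ℝ) / 10000)
    (ht0 : ((0 : ℤ) : ℝ) / 10000 ≤ T) (ht1 : T ≤ ((50 : ℤ) : ℝ) / 10000) (h0 : ((0 : ℤ) : ℝ) / 100 ≤ y)
    (h1 : y ≤ ((80 : ℤ) : ℝ) / 100) (h0' : ((0 : ℤ) : ℝ) / 100 ≤ y') (h1' : y' ≤ ((80 : ℤ) : ℝ) / 100)
    (hd : DL.In y β) (hd' : D2.In y' β') :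
    Two (60 / 100) (13 / 100) (30 / 100) T x y β y' β' := by
  have ht : tr 0 (60 / 100) (13 / 100) (30 / 100) x = (60 / 100 - x) / (30 / 100) :=
    tr_c (by norm_num) (by norm_num) (by norm_num) (by push_cast at hx0; linarith only [hx0]) (by push_cast at hx1; linarith only [hx1])
  refine Two.of k9 (by simp only [k9]; norm_num) (by simp only [k9]; norm_num)
    (by simp only [k9, Cell.e]; push_cast; rw [tr_b (by norm_num) (by norm_num) (by norm_num) (by norm_num)]; ring) (by simp only [k9, Cell.a]; push_cast; rw [ht]; ring) ?_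
  exact Cell.two k9l k9m k9A k9B hx0 hx1 ht0 ht1 h0 h1 h0' h1' hd hd'

theorem r10 {x T y β y' β' : ℝ} (hx0 : ((3500 : ℤ) : ℝ) / 10000 ≤ x) (hx1 : x ≤ ((4000 : ℤ) : ℝ) / 10000)
    (ht0 : ((0 : ℤ) : ℝ) / 10000 ≤ T) (ht1 : T ≤ ((50 : ℤ) : ℝ) / 10000) (h0 : ((0 : ℤ) : ℝ) / 100 ≤ y)
    (h1 : y ≤ ((80 : ℤ) : ℝ) / 100) (h0' : ((0 : ℤ) : ℝ) / 100 ≤ y') (h1' : y' ≤ ((80 : ℤ) : ℝ) / 100)
    (hd : DL.In y β) (hd' : D2.In y' β') :
    Two (60 / 100) (13 / 100) (30 / 100) T x y β y' β' := by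
  have ht : tr 0 (60 / 100) (13 / 100) (30 / 100) x = (60 / 100 - x) / (30 / 100) :=
    tr_c (by norm_num) (by norm_num) (by norm_num) (by push_cast at hx0; linarith only [hx0]) (by push_cast at hx1; linarith only [hx1])
  refine Two.of k10 (by simp only [k10]; norm_num) (by simp only [k10]; norm_num)
    (by simp only [k10, Cell.e]; push_cast; rw [tr_b (by norm_num) (by norm_num) (by norm_num) (by norm_num)]; ring) (by simp only [k10, Cell.a]; push_cast; rw [ht]; ring) ?_
  exact Cell.two k10l k10m k10A k10B hx0 hx1 ht0 ht1 h0 h1 h0' h1' hd hd'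

theorem r11 {x T y β y' β' : ℝ} (hx0 : ((4000 : ℤ) : ℝ) / 10000 ≤ x) (hx1 : x ≤ ((4500 : ℤ) : ℝ) / 10000)
    (ht0 : ((0 : ℤ) : ℝ) / 10000 ≤ T) (ht1 : T ≤ ((50 : ℤ) : ℝ) / 10000) (h0 : ((0 : ℤ) : ℝ) / 100 ≤ y)
    (h1 : y ≤ ((80 : ℤ) : ℝ) / 100) (h0' : ((0 : ℤ) : ℝ) / 100 ≤ y') (h1' : y' ≤ ((80 : ℤ) : ℝ) / 100)
    (hd : DL.In y β) (hd' : D2.In y' β') :
    Two (60 / 100) (13 / 100) (30 / 100) T x y β y' β' := by
  have ht : tr 0 (60 / 100) (13 / 100) (30 / 100) x = (60 / 100 - x) / (30 / 100) :=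
    tr_c (by norm_num) (by norm_num) (by norm_num) (by push_cast at hx0; linarith only [hx0]) (by push_cast at hx1; linarith only [hx1])
  refine Two.of k11 (by simp only [k11]; norm_num) (by simp only [k11]; norm_num)
    (by simp only [k11, Cell.e]; push_cast; rw [tr_b (by norm_num) (by norm_num) (by norm_num) (by norm_num)]; ring) (by simp only [k11, Cell.a]; push_cast; rw [ht]; ring) ?_
  exact Cell.two k11l k11m k11A k11B hx0 hx1 ht0 ht1 h0 h1 h0' h1' hd hd'

theorem r12 {x T y β y' β' : ℝ} (hx0 : ((4500 : ℤ) : ℝ) / 10000 ≤ x) (hx1 : x ≤ ((5000 : ℤ) : ℝ) / 10000)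
    (ht0 : ((0 : ℤ) : ℝ) / 10000 ≤ T) (ht1 : T ≤ ((50 : ℤ) : ℝ) / 10000) (h0 : ((0 : ℤ) : ℝ) / 100 ≤ y)
    (h1 : y ≤ ((80 : ℤ) : ℝ) / 100) (h0' : ((0 : ℤ) : ℝ) / 100 ≤ y') (h1' : y' ≤ ((80 : ℤ) : ℝ) / 100)
    (hd : DL.In y β) (hd' : D2.In y' β') :
    Two (60 / 100) (13 / 100) (30 / 100) T x y β y' β' := by
  have ht : tr 0 (60 / 100) (13 / 100) (30 / 100) x = (60 / 100 - x) / (30 / 100) :=
    tr_c (by norm_num) (by norm_num) (by norm_num) (by push_cast at hx0; linarith only [hx0]) (by push_cast at hx1; linarith only [hx1])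
  refine Two.of k12 (by simp only [k12]; norm_num) (by simp only [k12]; norm_num)
    (by simp only [k12, Cell.e]; push_cast; rw [tr_b (by norm_num) (by norm_num) (by norm_num) (by norm_num)]; ring) (by simp only [k12, Cell.a]; push_cast; rw [ht]; ring) ?_
  exact Cell.two k12l k12m k12A k12B hx0 hx1 ht0 ht1 h0 h1 h0' h1' hd hd'

theorem r13 {x T y β y' β' : ℝ} (hx0 : ((5000 : ℤ) : ℝ) / 10000 ≤ x) (hx1 : x ≤ ((5500 : ℤ) : ℝ) / 10000)
    (ht0 : ((0 : ℤ) : ℝ) / 10000 ≤ T) (ht1 : T ≤ ((50 : ℤ) : ℝ) / 10000) (h0 : ((0 : ℤ) : ℝ) / 100 ≤ y)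
    (h1 : y ≤ ((80 : ℤ) : ℝ) / 100) (h0' : ((0 : ℤ) : ℝ) / 100 ≤ y') (h1' : y' ≤ ((80 : ℤ) : ℝ) / 100)
    (hd : DL.In y β) (hd' : D2.In y' β') :
    Two (60 / 100) (13 / 100) (30 / 100) T x y β y' β' := by
  have ht : tr 0 (60 / 100) (13 / 100) (30 / 100) x = (60 / 100 - x) / (30 / 100) :=
    tr_c (by norm_num) (by norm_num) (by norm_num) (by push_cast at hx0; linarith only [hx0]) (by push_cast at hx1; linarith only [hx1])
  rcases le_total (((55 : ℤ) : ℝ) / 100) y with c1 | c1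
  · skip
    refine Two.of k13u (by simp only [k13u]; norm_num) (by simp only [k13u]; norm_num)
      (by simp only [k13u, Cell.e]; push_cast; rw [tr_b (by norm_num) (by norm_num) (by norm_num) (by norm_num)]; ring) (by simp only [k13u, Cell.a]; push_cast; rw [ht]; ring) ?_
    exact Cell.two k13ul k13um k13uA k13uB hx0 hx1 ht0 ht1 c1 h1 h0' h1' hd hd'
  rcases le_total (((55 : ℤ) : ℝ) / 100) y' with c2 | c2
  · skip
    refine Two.of k13v (by simp only [k13v]; norm_num) (by simp only [k13v]; norm_num)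
      (by simp only [k13v, Cell.e]; push_cast; rw [tr_b (by norm_num) (by norm_num) (by norm_num) (by norm_num)]; ring) (by simp only [k13v, Cell.a]; push_cast; rw [ht]; ring) ?_
    exact Cell.two k13vl k13vm k13vA k13vB hx0 hx1 ht0 ht1 h0 h1 c2 h1' hd hd'
  refine Two.of k13s (by simp only [k13s]; norm_num) (by simp only [k13s]; norm_num)
    (by simp only [k13s, Cell.e]; push_cast; rw [tr_c (by norm_num) (by norm_num) (by norm_num) (by norm_num) (by norm_num)]; ring) (by simp only [k13s, Cell.a]; push_cast; rw [ht]; ring) ?_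
  exact Cell.two k13sl k13sm k13sA k13sB hx0 hx1 ht0 ht1 h0 c1 h0' c2 hd hd'

theorem r14 {x T y β y' β' : ℝ} (hx0 : ((5500 : ℤ) : ℝ) / 10000 ≤ x) (hx1 : x ≤ ((5750 : ℤ) : ℝ) / 10000)
    (ht0 : ((0 : ℤ) : ℝ) / 10000 ≤ T) (ht1 : T ≤ ((50 : ℤ) : ℝ) / 10000) (h0 : ((0 : ℤ) : ℝ) / 100 ≤ y)
    (h1 : y ≤ ((80 : ℤ) : ℝ) / 100) (h0' : ((0 : ℤ) : ℝ) / 100 ≤ y') (h1' : y' ≤ ((80 : ℤ) : ℝ) / 100)
    (hd : DL.In y β) (hd' : D2.In y' β') :
    Two (60 / 100) (13 / 100) (30 / 100) T x y β y' β' := by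
  have ht : tr 0 (60 / 100) (13 / 100) (30 / 100) x = (60 / 100 - x) / (30 / 100) :=
    tr_c (by norm_num) (by norm_num) (by norm_num) (by push_cast at hx0; linarith only [hx0]) (by push_cast at hx1; linarith only [hx1])
  rcases le_total (((55 : ℤ) : ℝ) / 100) y with c1 | c1
  · skip
    refine Two.of k14u (by simp only [k14u]; norm_num) (by simp only [k14u]; norm_num)
      (by simp only [k14u, Cell.e]; push_cast; rw [tr_b (by norm_num) (by norm_num) (by norm_num) (by norm_num)]; ring) (by simp only [k14u, Cell.a]; push_cast; rw [ht]; ring) ?_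
    exact Cell.two k14ul k14um k14uA k14uB hx0 hx1 ht0 ht1 c1 h1 h0' h1' hd hd'
  rcases le_total (((55 : ℤ) : ℝ) / 100) y' with c2 | c2
  · skip
    refine Two.of k14v (by simp only [k14v]; norm_num) (by simp only [k14v]; norm_num)
      (by simp only [k14v, Cell.e]; push_cast; rw [tr_b (by norm_num) (by norm_num) (by norm_num) (by norm_num)]; ring) (by simp only [k14v, Cell.a]; push_cast; rw [ht]; ring) ?_
    exact Cell.two k14vl k14vm k14vA k14vB hx0 hx1 ht0 ht1 h0 h1 c2 h1' hd hd'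
  refine Two.of k14s (by simp only [k14s]; norm_num) (by simp only [k14s]; norm_num)
    (by simp only [k14s, Cell.e]; push_cast; rw [tr_c (by norm_num) (by norm_num) (by norm_num) (by norm_num) (by norm_num)]; ring) (by simp only [k14s, Cell.a]; push_cast; rw [ht]; ring) ?_
  exact Cell.two k14sl k14sm k14sA k14sB hx0 hx1 ht0 ht1 h0 c1 h0' c2 hd hd'

theorem r15 {x T y β y' β' : ℝ} (hx0 : ((5750 : ℤ) : ℝ) / 10000 ≤ x) (hx1 : x ≤ ((6000 : ℤ) : ℝ) / 10000)
    (ht0 : ((0 : ℤ) : ℝ) / 10000 ≤ T) (ht1 : T ≤ ((50 : ℤ) : ℝ) / 10000) (h0 : ((0 : ℤ) : ℝ) / 100 ≤ y)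
    (h1 : y ≤ ((80 : ℤ) : ℝ) / 100) (h0' : ((0 : ℤ) : ℝ) / 100 ≤ y') (h1' : y' ≤ ((80 : ℤ) : ℝ) / 100)
    (hd : DL.In y β) (hd' : D2.In y' β') :
    Two (60 / 100) (13 / 100) (30 / 100) T x y β y' β' := by
  have ht : tr 0 (60 / 100) (13 / 100) (30 / 100) x = (60 / 100 - x) / (30 / 100) :=
    tr_c (by norm_num) (by norm_num) (by norm_num) (by push_cast at hx0; linarith only [hx0]) (by push_cast at hx1; linarith only [hx1])
  rcases le_total (((55 : ℤ) : ℝ) / 100) y with c1 | c1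
  · skip
    refine Two.of k15u (by simp only [k15u]; norm_num) (by simp only [k15u]; norm_num)
      (by simp only [k15u, Cell.e]; push_cast; rw [tr_b (by norm_num) (by norm_num) (by norm_num) (by norm_num)]; ring) (by simp only [k15u, Cell.a]; push_cast; rw [ht]; ring) ?_
    exact Cell.two k15ul k15um k15uA k15uB hx0 hx1 ht0 ht1 c1 h1 h0' h1' hd hd'
  rcases le_total (((55 : ℤ) : ℝ) / 100) y' with c2 | c2
  · skip
    refine Two.of k15v (by simp only [k15v]; norm_num) (by simp only [k15v]; norm_num)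
      (by simp only [k15v, Cell.e]; push_cast; rw [tr_b (by norm_num) (by norm_num) (by norm_num) (by norm_num)]; ring) (by simp only [k15v, Cell.a]; push_cast; rw [ht]; ring) ?_
    exact Cell.two k15vl k15vm k15vA k15vB hx0 hx1 ht0 ht1 h0 h1 c2 h1' hd hd'
  refine Two.of k15s (by simp only [k15s]; norm_num) (by simp only [k15s]; norm_num)
    (by simp only [k15s, Cell.e]; push_cast; rw [tr_c (by norm_num) (by norm_num) (by norm_num) (by norm_num) (by norm_num)]; ring) (by simp only [k15s, Cell.a]; push_cast; rw [ht]; ring) ?_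
  exact Cell.two k15sl k15sm k15sA k15sB hx0 hx1 ht0 ht1 h0 c1 h0' c2 hd hd'

theorem rows {x T y β y' β' : ℝ} (hx0 : 0 ≤ x) (hx1 : x ≤ 60 / 100) (ht0 : 0 ≤ T) (ht1 : T ≤ 50 / 10000)
    (h0 : 0 ≤ y) (h1 : y ≤ 8 / 10) (h0' : 0 ≤ y') (h1' : y' ≤ 8 / 10) (hd : DL.In y β)
    (hd' : D2.In y' β') : Two (60 / 100) (13 / 100) (30 / 100) T x y β y' β' := by
  have t0 : ((0 : ℤ) : ℝ) / 10000 ≤ T := by push_cast; linarith only [ht0]
  have t1 : T ≤ ((50 : ℤ) : ℝ) / 10000 := by push_cast; linarith only [ht1]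
  have y0 : ((0 : ℤ) : ℝ) / 100 ≤ y := by push_cast; linarith only [h0]
  have y1 : y ≤ ((80 : ℤ) : ℝ) / 100 := by push_cast; linarith only [h1]
  have y0' : ((0 : ℤ) : ℝ) / 100 ≤ y' := by push_cast; linarith only [h0']
  have y1' : y' ≤ ((80 : ℤ) : ℝ) / 100 := by push_cast; linarith only [h1']
  have g0 : ((0 : ℤ) : ℝ) / 10000 ≤ x := by push_cast; linarith only [hx0]
  rcases le_total x (((50 : ℤ) : ℝ) / 10000) with c0 | g1
  · exact r0 g0 c0 t0 t1 y0 y1 y0' y1' hd hd'
  rcases le_total x (((200 : ℤ) : ℝ) / 10000) with c1 | g2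
  · exact r1 g1 c1 t0 t1 y0 y1 y0' y1' hd hd'
  rcases le_total x (((500 : ℤ) : ℝ) / 10000) with c2 | g3
  · exact r2 g2 c2 t0 t1 y0 y1 y0' y1' hd hd'
  rcases le_total x (((1000 : ℤ) : ℝ) / 10000) with c3 | g4
  · exact r3 g3 c3 t0 t1 y0 y1 y0' y1' hd hd'
  rcases le_total x (((1300 : ℤ) : ℝ) / 10000) with c4 | g5
  · exact r4 g4 c4 t0 t1 y0 y1 y0' y1' hd hd'
  rcases le_total x (((1500 : ℤ) : ℝ) / 10000) with c5 | g6
  · exact r5 g5 c5 t0 t1 y0 y1 y0' y1' hd hd'
  rcases le_total x (((2000 : ℤ) : ℝ) / 10000) with c6 | g7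
  · exact r6 g6 c6 t0 t1 y0 y1 y0' y1' hd hd'
  rcases le_total x (((2500 : ℤ) : ℝ) / 10000) with c7 | g8
  · exact r7 g7 c7 t0 t1 y0 y1 y0' y1' hd hd'
  rcases le_total x (((3000 : ℤ) : ℝ) / 10000) with c8 | g9
  · exact r8 g8 c8 t0 t1 y0 y1 y0' y1' hd hd'
  rcases le_total x (((3500 : ℤ) : ℝ) / 10000) with c9 | g10
  · exact r9 g9 c9 t0 t1 y0 y1 y0' y1' hd hd'
  rcases le_total x (((4000 : ℤ) : ℝ) / 10000) with c10 | g11
  · exact r10 g10 c10 t0 t1 y0 y1 y0' y1' hd hd'
  rcases le_total x (((4500 : ℤ) : ℝ) / 10000) with c11 | g12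
  · exact r11 g11 c11 t0 t1 y0 y1 y0' y1' hd hd'
  rcases le_total x (((5000 : ℤ) : ℝ) / 10000) with c12 | g13
  · exact r12 g12 c12 t0 t1 y0 y1 y0' y1' hd hd'
  rcases le_total x (((5500 : ℤ) : ℝ) / 10000) with c13 | g14
  · exact r13 g13 c13 t0 t1 y0 y1 y0' y1' hd hd'
  rcases le_total x (((5750 : ℤ) : ℝ) / 10000) with c14 | g15
  · exact r14 g14 c14 t0 t1 y0 y1 y0' y1' hd hd'
  exact r15 g15 (by push_cast; linarith only [hx1]) t0 t1 y0 y1 y0' y1' hd hd'

end R32

end KR

end Pool.Agent.Work.MP_b30479_gtS.G2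

end

section

/-!
# Mirrored paths: the inner variable of a `3` next to a mode at its slot `2`; modes from above at
the hinges of a `2`
-/

namespace Pool.Agent.Work.MP_b30479_gtS.G2

open Finset VOL Filter Topology

namespace SR

variable {M : ℕ} {b : Fin (M + 1) → ℤ} {zs : DD (tyW b) ⊕ ZZ (tyW b) → ℂ}
variable {R : Finset (DD (tyW b))} {nb : Finset (DD (tyW b) ⊕ ZZ (tyW b))}
variable {z : DD (tyW b) ⊕ ZZ (tyW b) → ℂ} {p : DD (tyW b) → ℝ}
variable {h h' : Fin M} {i j j' : Fin (M + 1)} {s : Fin 3} {x c : ℝ}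

theorem le_tr {XM cl cr q g : ℝ} (hcl : 0 < cl) (hcr : 0 < cr) (h1 : g ≤ 1) (h2 : cl * g ≤ q)
    (h3 : cr * g ≤ XM - q) : g ≤ tr 0 XM cl cr q := by
  unfold tr
  refine le_max_of_le_right (le_min h1 (le_min ?_ ?_))
  · rw [le_div_iff₀ hcl]
    linarith only [h2]
  · rw [le_div_iff₀ hcr]
    linarith only [h3]

/-- a position is between two multiples of the ramp function; heights of modes only where they
occur -/
theorem NPos.two' {X : ℂ} (h0 : NPos b zs nb p h' i s X) {Hu Hd : ℝ} (u0 : 0 ≤ Hu) (d0 : 0 ≤ Hd)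
    (u1 : Th b zs h' i ≤ Hu) (d1 : -Hd ≤ Th b zs h' i)
    (h2 : ¬ RH1 b (.inl h') → Th b zs h' i ≤ 0 → mhs b h' s.rev ≤ Hu)
    (h3 : ¬ RH1 b (.inl h') → 0 ≤ Th b zs h' i → mhs b h' s ≤ Hd) :
    X.im ≤ Hu * trh b h' X.re ∧ -X.im ≤ Hd * trh b h' X.re := by
  have ht := trh_mem (b := b) h' X.re
  cases h0 with
  | main y y0 y1 hn e hp =>
    rw [e] at ht ⊢
    show Th b zs h' i * trh b h' y ≤ Hu * trh b h' y ∧ -(Th b zs h' i * trh b h' y) ≤ Hd * trh b h' y
    have a1 := mul_le_mul_of_nonneg_right u1 ht.1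
    have a2 := mul_le_mul_of_nonneg_right d1 ht.1
    constructor
    · exact a1
    · simp only at a1 a2
      linarith only [a2]
  | real y y0 y1 hn e hp =>
    rw [e] at ht ⊢
    show (0 : ℝ) ≤ Hu * trh b h' y ∧ -(0 : ℝ) ≤ Hd * trh b h' y
    rw [neg_zero]
    exact ⟨mul_nonneg u0 ht.1, mul_nonneg d0 ht.1⟩
  | up y y0 y1 hn hr hT e hp =>
    rw [e] at ht ⊢
    have h3 := mul_le_mul_of_nonneg_right (h2 hr hT) ht.1
    have h4 := mul_nonneg (mhs_pos (b := b) h' s.rev).le ht.1
    have h5 := mul_nonneg d0 ht.1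
    show mhs b h' s.rev * trh b h' y ≤ Hu * trh b h' y ∧ -(mhs b h' s.rev * trh b h' y) ≤ Hd * trh b h' y
    constructor
    · exact h3
    · simp only at h4 h5
      linarith only [h4, h5]
  | dn y y0 y1 hn hr hT e hp =>
    rw [e] at ht ⊢
    have h3 := mul_le_mul_of_nonneg_right (h3 hr hT) ht.1
    have h4 := mul_nonneg (mhs_pos (b := b) h' s).le ht.1
    have h5 := mul_nonneg u0 ht.1
    show -(mhs b h' s * trh b h' y) ≤ Hu * trh b h' y ∧ -(-(mhs b h' s * trh b h' y)) ≤ Hd * trh b h' y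
    constructor
    · simp only at h4 h5
      linarith only [h4, h5]
    · rw [neg_neg]
      exact h3

/-- **The hinge in the slot `0` of an interior region with three crossings.** -/
theorem NPos.u3 (hb : ClassW b) (hL : Loc b zs) (A' : Adj h' i 0 j') (hi : clsW b i = .three) {X : ℂ}
    (h0 : NPos b zs nb p h' i 0 X) : KR.U3 X.re X.im := by
  have hT := Th_mem hb hL A' (by rw [hi]; decide)
  have hre := h0.re
  have ht := trh_ub (b := b) h' hre.1 hre.2
  rw [hi] at hT
  have hm : ∀ q : Fin 3, mhs b h' q = if clsW b h'.castSucc = .one then 1 / 2 else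
      if clsW b h'.castSucc = .two ∧ q = 2 then 3 / 10 else 16 / 100 := by
    intro q
    cases A'
    simp [mhs, hi]
  have key : ∀ {Hu Hd : ℝ}, 0 ≤ Hu → 0 ≤ Hd → Th b zs h' i ≤ Hu → -Hd ≤ Th b zs h' i →
      (Th b zs h' i ≤ 0 → mhs b h' 2 ≤ Hu) → (0 ≤ Th b zs h' i → mhs b h' 0 ≤ Hd) →
      X.im ≤ Hu * trh b h' X.re ∧ -X.im ≤ Hd * trh b h' X.re := by
    intro Hu Hd u0 d0 u1 d1 h2 h3
    exact h0.two' u0 d0 u1 d1 (fun _ => h2) (fun _ => h3)
  have fin : ∀ {XM cl cr Hu Hd : ℝ}, wXM b h' = XM → wcl b h' = cl → wcr b h' = cr →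
      X.im ≤ Hu * trh b h' X.re ∧ -X.im ≤ Hd * trh b h' X.re → XM ≤ 65 / 100 →
      (∀ t : ℝ, 0 ≤ t → t ≤ 1 → cl * t ≤ X.re → cr * t ≤ XM - X.re →
        (2 * (Hu * t) ≤ 1 ∧ 13 / 100 * (2 * (Hu * t)) ≤ X.re ∧
          15 / 100 * (2 * (Hu * t)) ≤ 65 / 100 - X.re) ∧
        Hd * t ≤ 4 / 3 * X.re ∧ Hd * t ≤ 16 / 100 ∧
          Hd * t ≤ 16 / 100 - 45 / 170 * (X.re - 33 / 100) ∧
          Hd * t ≤ 115 / 150 * (65 / 100 - X.re)) → KR.U3 X.re X.im := by
    intro XM cl cr Hu Hd e1 e2 e3 hX h4 hk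
    rw [e1, e2, e3] at ht
    rw [e1] at hre
    obtain ⟨⟨a1, a2, a3⟩, b1, b2, b3, b4⟩ := hk _ ht.1 ht.2.1 ht.2.2.1 ht.2.2.2
    have h5 : 2 * (Hu * trh b h' X.re) ≤ tr 0 (65 / 100) (13 / 100) (15 / 100) X.re :=
      le_tr (by norm_num) (by norm_num) a1 a2 a3
    refine ⟨hre.1, by linarith only [hre, h4, hre.2], by linarith only [hX, h5, hX.1], by linarith only [hX, b1, hX.2], by linarith only [hX, b2, hX.2],
      by linarith only [hX, b3, hX.2], by linarith only [hX, b4, hX.2]⟩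
  have hre' := hre
  cases A' with
  | r =>
    rcases hj : clsW b h'.castSucc <;> rw [hj] at hT hm <;> simp only [hbox] at hT
    case one =>
      refine fin (XM := 65 / 100) (cl := 13 / 100) (cr := 15 / 100) (Hu := 1 / 2) (Hd := 1145 / 10000)
        ?_ ?_ ?_ (key (by norm_num) (by norm_num) (by linarith only [hT, hT.2]) (by linarith only [hT, hT.1])
          (fun _ => by rw [hm]; simp) (fun h4 => by linarith only [hT, h4, hT.2])) (by norm_num) ?_
      · unfold wXM; rw [hi, hj]; rfl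
      · unfold wcl; rw [hi, hj]; rfl
      · unfold wcr; rw [hi, hj]; rfl
      · intro t t0 t1 t2 t3
        refine ⟨⟨?_, ?_, ?_⟩, ?_, ?_, ?_, ?_⟩ <;> linarith only [t1, t2, t3, hre, t0]
    case two =>
      refine fin (XM := 60 / 100) (cl := 12 / 100) (cr := 27 / 100) (Hu := 3 / 10) (Hd := 16 / 100)
        ?_ ?_ ?_ (key (by norm_num) (by norm_num) (by linarith only [hT, hT.2]) (by linarith only [hT, hT.1])
          (fun _ => by rw [hm]; simp) (fun h4 => by rw [hm]; simp)) (by norm_num) ?_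
      · unfold wXM; rw [hi, hj]; rfl
      · unfold wcl; rw [hi, hj]; rfl
      · unfold wcr; rw [hi, hj]; rfl
      · intro t t0 t1 t2 t3
        refine ⟨⟨?_, ?_, ?_⟩, ?_, ?_, ?_, ?_⟩ <;> linarith only [t1, hre, t2, t0, t3]
    case three =>
      refine fin (XM := 60 / 100) (cl := 13 / 100) (cr := 30 / 100) (Hu := 16 / 100) (Hd := 16 / 100)
        ?_ ?_ ?_ (key (by norm_num) (by norm_num) (by linarith only [hT, hT.2]) (by linarith only [hT, hT.1])
          (fun _ => by rw [hm]; simp) (fun h4 => by rw [hm]; simp)) (by norm_num) ?_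
      · unfold wXM; rw [hi, hj]; rfl
      · unfold wcl; rw [hi, hj]; rfl
      · unfold wcr; rw [hi, hj]; rfl
      · intro t t0 t1 t2 t3
        refine ⟨⟨?_, ?_, ?_⟩, ?_, ?_, ?_, ?_⟩ <;> linarith only [t1, hre, t2, t0, t3]
    all_goals
      refine fin (XM := 60 / 100) (cl := 12 / 100) (cr := 30 / 100) (Hu := 16 / 100) (Hd := 16 / 100)
        ?_ ?_ ?_ (key (by norm_num) (by norm_num) (by linarith only [hT, hT.2]) (by linarith only [hT, hT.1])
          (fun _ => by rw [hm]; simp) (fun h4 => by rw [hm]; simp)) (by norm_num) ?_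
      · unfold wXM; rw [hi, hj]; rfl
      · unfold wcl; rw [hi, hj]; rfl
      · unfold wcr; rw [hi, hj]; rfl
      · intro t t0 t1 t2 t3
        refine ⟨⟨?_, ?_, ?_⟩, ?_, ?_, ?_, ?_⟩ <;> linarith only [t1, hre, t2, t0, t3]

/-- the inner variable is on no upper mode for `y` in the excluded range -/
theorem inner_up (hb : ClassW b) (hL : Loc b zs) (hN : NbT b R nb) (hM : MM b zs R nb z p)
    (hq : ∀ h : Fin M, RH1 b (.inl h) → p (.inl h) = 0)
    (m : {i : Fin (M + 1) // (tyW b i).isMid = true}) (hc : clsW b m.1 = .three)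
    (A2 : Adj h m.1 2 j) (hn : Sum.inl (Sum.inl h) ∉ nb)
    (hX : wXM b h = 60 / 100 ∧ wcl b h = 13 / 100 ∧ wcr b h = 30 / 100) (x0 : 0 ≤ x)
    (x1 : x ≤ 60 / 100) (ho : Ow b z m.1 2 = ⟨x, 16 / 100 * trh b h x⟩) {y : ℝ}
    (hT : Tm b zs m ≤ 0) (hl : Ow b z m.1 1 = ⟨y, 16 / 100 * trm b m y⟩)
    (hp : p (.inr m) = 16 / 100 * trm b m y) :
    ¬ (40 / 100 ≤ y ∧ y ≤ 77 / 100) ∧ (57 / 100 ≤ x → ¬ (77 / 100 ≤ y ∧ y ≤ 79 / 100)) := by
  obtain ⟨h0, j0, A0⟩ := A2.other' b (clsW_inner hb (Or.inr (Or.inr hc)))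
  have A0' : Adj h0 m.1 0 j0 := A0
  have hU := (hM.npos hb hN hq A2 hn A0).u3 hb hL A0' hc
  have hnm := hN.inner_nnA m A2 hn
  have hTm := Tm_mem hb hL m hc
  have hb1 : 16 / 100 * trh b h x = KR.bR x := by
    rw [trh_eq hX]
    rfl
  have ha1 : 16 / 100 * trm b m y = KR.aR y := by
    unfold trm
    rw [hc]
    rfl
  have step : ∀ {mr : ℝ}, 5 / 100 ≤ mr → mr ≤ 75 / 100 →
      0 < KR.PUr (Ow b z m.1 0).re (Ow b z m.1 0).im mr (Tm b zs m) y (KR.aR y) +
        KR.PWr mr (Tm b zs m) x (KR.bR x) y (KR.aR y) → False := by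
    intro mr m0 m1 hg
    have h1 := hM.inner3 hb hN.ok.1 m A0' A2 hc hnm (c' := mr) (by linarith only [m0]) (by linarith only [m1])
      (FarG.keep (b := b) (zs := zs) (nb := nb) (z := z) (p := p) h j)
    rw [ofr_z A2] at h1
    have e1 : tgi b zs m mr = ⟨mr, Tm b zs m⟩ := by
      unfold tgi
      rw [hc]
      simp only [mp]
      rw [tr_b (b := 8 / 10) (c := 5 / 100) (c' := 5 / 100) (by norm_num) (by norm_num) m0
        (by linarith only [m1]), mul_one]
      rfl
    rw [e1, hp, hl, ho, ha1, hb1] at h1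
    have h2 := KR.V3_inner (Ow b z m.1 0).re (Ow b z m.1 0).im mr (Tm b zs m) x (KR.bR x) y (KR.aR y)
    have e2 : (⟨(Ow b z m.1 0).re, (Ow b z m.1 0).im⟩ : ℂ) = Ow b z m.1 0 := rfl
    rw [e2] at h2
    linarith only [hg, h1, h2]
  have tt : -(160 / 1000) ≤ Tm b zs m := hTm.1
  constructor
  · rintro ⟨c1, c2⟩
    rcases le_total y (70 / 100) with c3 | c3
    · exact step (by norm_num) (by norm_num) (KR.lx_a (by push_cast; linarith only [c1]) (by push_cast; linarith only [c3])
        tt hT hU (by push_cast; linarith only [x0]) x1)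
    rcases le_total y (75 / 100) with c4 | c4
    · exact step (by norm_num) (by norm_num) (KR.lx_b (by push_cast; linarith only [c3]) (by push_cast; linarith only [c4])
        tt hT hU (by push_cast; linarith only [x0]) x1)
    · exact step (by norm_num) (by norm_num) (KR.lx_c (by push_cast; linarith only [c4]) (by push_cast; linarith only [c2])
        tt hT hU (by push_cast; linarith only [x0]) x1)
  · rintro c0 ⟨c1, c2⟩
    exact step (by norm_num) (by norm_num) (KR.lx_d (by push_cast; linarith only [c1]) (by push_cast; linarith only [c2])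
      tt hT hU (by push_cast; linarith only [c0]) x1)

theorem in_dm {y β : ℝ} (h1 : |β| ≤ 32 / 10 * y) (h2 : |β| ≤ 32 / 10 * (8 / 10 - y))
    (h3 : |β| ≤ 16 / 100) (h4 : β ≤ 15 / 1000) : KR.DM.In y β := by
  rw [abs_le] at h1 h2 h3
  refine ⟨?_, ?_, ?_, ?_, ?_, ?_⟩ <;> simp only [KR.DM] <;> push_cast <;> linarith only [h1, h2, h3, h4]

/-- **The inner variable of an interior region with three crossings**, next to a mode from above at
its slot `2`. -/
theorem ipos_inL (hb : ClassW b) (hL : Loc b zs) (hN : NbT b R nb) (hM : MM b zs R nb z p)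
    (hq : ∀ h : Fin M, RH1 b (.inl h) → p (.inl h) = 0)
    (m : {i : Fin (M + 1) // (tyW b i).isMid = true}) (hc : clsW b m.1 = .three)
    (A2 : Adj h m.1 2 j) (hn : Sum.inl (Sum.inl h) ∉ nb)
    (hX : wXM b h = 60 / 100 ∧ wcl b h = 13 / 100 ∧ wcr b h = 30 / 100) (x0 : 0 ≤ x)
    (x1 : x ≤ 60 / 100) (ho : Ow b z m.1 2 = ⟨x, 16 / 100 * trh b h x⟩) :
    KR.InL 77 (Ow b z m.1 1).re (Ow b z m.1 1).im ∧
      (57 / 100 ≤ x → KR.InL 79 (Ow b z m.1 1).re (Ow b z m.1 1).im) := by
  have hI := (hM.ipos hN m A2 hn).2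
  obtain ⟨y0, y1, hd⟩ := hI.dl hb hL m hc
  have hT := Tm_mem hb hL m hc
  have hin : ∀ (k : ℤ), 40 ≤ k → ((Ow b z m.1 1).im ≤ 15 / 1000 ∨
      ¬ (40 / 100 ≤ (Ow b z m.1 1).re ∧ (Ow b z m.1 1).re ≤ (k : ℝ) / 100)) →
      KR.InL k (Ow b z m.1 1).re (Ow b z m.1 1).im := by
    intro k hk h1
    have h40 : ((40 : ℤ) : ℝ) / 100 = 40 / 100 := by norm_num
    rcases le_total (Ow b z m.1 1).re (40 / 100) with c1 | c1
    · exact Or.inl ⟨by rw [h40]; exact c1, hd⟩
    rcases le_total (Ow b z m.1 1).re ((k : ℝ) / 100) with c2 | c2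
    · rcases h1 with h1 | h1
      · refine Or.inr (Or.inl ⟨by rw [h40]; exact c1, c2, ?_⟩)
        obtain ⟨g1, g2, g3, g4, g5, g6⟩ := hd
        refine ⟨g1, g2, g3, g4, g5, ?_⟩
        simp only [KR.DM]
        push_cast
        linarith only [h1]
      · exact absurd ⟨c1, c2⟩ h1
    · exact Or.inr (Or.inr ⟨c2, hd⟩)
  have htm : ∀ y : ℝ, 0 ≤ trm b m y ∧ trm b m y ≤ 1 := fun y => tr_mem _ _ _ _ _
  have hcase : (Ow b z m.1 1).im ≤ 15 / 1000 ∨
      (¬ (40 / 100 ≤ (Ow b z m.1 1).re ∧ (Ow b z m.1 1).re ≤ 77 / 100) ∧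
        (57 / 100 ≤ x → ¬ (77 / 100 ≤ (Ow b z m.1 1).re ∧ (Ow b z m.1 1).re ≤ 79 / 100))) := by
    generalize hl : Ow b z m.1 1 = X at hI
    cases hI with
    | main y y0 y1 e hp =>
      left
      rw [e]
      show Tm b zs m * trm b m y ≤ 15 / 1000
      have := mul_le_mul_of_nonneg_right hT.2 (htm y).1
      linarith only [this, htm, (htm y).2]
    | dn y y0 y1 hT0 e hp =>
      left
      rw [e]
      show -(16 / 100 * trm b m y) ≤ 15 / 1000
      linarith only [htm, (htm y).1]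
    | up y y0 y1 hT0 e hp =>
      right
      rw [e] at hl ⊢
      exact inner_up hb hL hN hM hq m hc A2 hn hX x0 x1 ho hT0 hl hp
  refine ⟨hin 77 (by norm_num) ?_, fun hx => hin 79 (by norm_num) ?_⟩
  · rcases hcase with h1 | h1
    · exact Or.inl h1
    · right
      push_cast
      exact h1.1
  · rcases hcase with h1 | h1
    · exact Or.inl h1
    · right
      rintro ⟨a1, a2⟩
      push_cast at a2
      rcases le_total (Ow b z m.1 1).re (77 / 100) with c1 | c1
      · exact h1.1 ⟨a1, c1⟩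
      · exact h1.2 hx ⟨c1, a2⟩

/-! ### no modes from above -/

/-- a hinge which is on no mode from above is not above the main path -/
theorem NPos.noup (hb : ClassW b) (A' : Adj h' i s j') (hi : clsW b i ≠ .ring)
    (hj : clsW b j' ≠ .ring) (h0 : NPos b zs nb p h' i s (Ow b z i s))
    (K : ∀ x, ¬ Md b zs nb z p h' j' s.rev i x) :
    (Ow b z i s).im ≤ max (Th b zs h' i) 0 * trh b h' (Ow b z i s).re := by
  have hm : 0 ≤ max (Th b zs h' i) 0 := le_max_right _ _
  generalize hX : Ow b z i s = X at h0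
  have ht := trh_mem (b := b) h' X.re
  cases h0 with
  | main y y0 y1 hn e hp =>
    rw [e] at ht ⊢
    exact mul_le_mul_of_nonneg_right (le_max_left _ _) ht.1
  | real y y0 y1 hn e hp =>
    rw [e] at ht ⊢
    exact mul_nonneg hm ht.1
  | dn y y0 y1 hn hr hT e hp =>
    rw [e] at ht ⊢
    have h4 := mul_nonneg (mhs_pos (b := b) h' s).le ht.1
    have h5 := mul_nonneg hm ht.1
    show -(mhs b h' s * trh b h' y) ≤ max (Th b zs h' i) 0 * trh b h' y
    simp only at h4 h5
    linarith only [h4, h5]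
  | up y y0 y1 hn hr hT e hp =>
    rcases eq_or_lt_of_le ht.1 with c | c
    · rw [e] at c ⊢
      show mhs b h' s.rev * trh b h' y ≤ max (Th b zs h' i) 0 * trh b h' y
      simp only at c
      rw [← c, mul_zero, mul_zero]
    · exfalso
      rw [e] at c
      simp only at c
      have hs := sign_adj hb A' hi
      have hT' : Th b zs h' j' = -Th b zs h' i := ofs_neg_of_opp hs _
      refine K y ⟨A'.symm, hj, hi, hn, ?_, ?_, by rw [hT']; linarith only [hT], by rw [hT']; ring, ?_, ?_, hp, c⟩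
      · by_contra hc
        rw [trh_zero_of (Or.inl (not_lt.1 hc))] at c
        exact absurd c (lt_irrefl 0)
      · by_contra hc
        rw [trh_zero_of (Or.inr (not_lt.1 hc))] at c
        exact absurd c (lt_irrefl 0)
      · rw [Ow_adj z A'.symm]
        rw [Ow_adj z A'] at hX
        have e1 := congrArg Complex.re (hX.trans e)
        have e2 := congrArg Complex.im (hX.trans e)
        rw [ofr_re] at e1
        rw [ofr_im] at e2
        apply Complex.ext
        · rw [ofr_re]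
          exact e1
        · rw [ofr_im, ofs_neg_of_opp hs, e2]
      · rw [Fin.rev_rev, hX, e]

end SR

end Pool.Agent.Work.MP_b30479_gtS.G2

end

section

/-!
# Mirrored paths: the kind `2 | 2`
-/

namespace Pool.Agent.Work.MP_b30479_gtS.G2

open Finset VOL Filter Topology

namespace SR

variable {M : ℕ} {b : Fin (M + 1) → ℤ} {zs : DD (tyW b) ⊕ ZZ (tyW b) → ℂ}

/-- **Kind `2 | 2`.** -/
theorem kind_two_two (hb : ClassW b) (L : LocA b zs) (s : Fin 3) : Kd b zs .two .two s := by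
  intro R nb z p h i j x hN hM hq D hi hj
  obtain ⟨h1, j1, A1⟩ := D.adj.other' b (clsW_inner hb (Or.inr (Or.inl hi)))
  obtain ⟨h2, j2, A2⟩ := D.adj.symm.other' b (clsW_inner hb (Or.inr (Or.inl hj)))
  obtain ⟨y0, y1, d1⟩ := (hM.npos hb hN hq D.adj D.nn A1).d2 hb L.L A1 hi
  obtain ⟨w0, w1, d2⟩ := (hM.npos hb hN hq D.adj.symm D.nn A2).d2 hb L.L A2 hj
  have hT := Th_mem hb L.L D.adj D.ri
  rw [hi, hj] at hT
  simp only [hbox] at hT
  have hX := par_two_two D.adj hi hj
  have hx1 := D.x1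
  rw [hX.1] at hx1
  have h16 := mhs_adj D.adj (fun h3 => by rw [hi] at h3; exact absurd h3.2 (by decide))
    (fun h3 => by rw [hj] at h3; exact absurd h3.2 (by decide)) s
  exact D.two hb hN hM hX h16 (fun c => keep_two hb D.adj (Or.inl hi))
    (fun c => keep_two hb D.adj.symm (Or.inl hj))
    (KR.R22.rows D.x0.le hx1.le D.T0 (by linarith [hT.2]) y0 y1 w0 w1 d1 d2)

end SR

end Pool.Agent.Work.MP_b30479_gtS.G2

end

section

/-!
# Mirrored paths: the kind `2` at an end `| 2`
-/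

namespace Pool.Agent.Work.MP_b30479_gtS.G2

open Finset VOL Filter Topology

namespace SR

variable {M : ℕ} {b : Fin (M + 1) → ℤ} {zs : DD (tyW b) ⊕ ZZ (tyW b) → ℂ}

/-- **Kind `2` at an end `| 2`.** -/
theorem kind_twoE_two (hb : ClassW b) (L : LocA b zs) (s : Fin 3) : Kd b zs .twoE .two s := by
  intro R nb z p h i j x hN hM hq D hi hj
  obtain ⟨h2, j2, A2⟩ := D.adj.symm.other' b (clsW_inner hb (Or.inr (Or.inl hj)))
  obtain ⟨w0, w1, d2⟩ := (hM.npos hb hN hq D.adj.symm D.nn A2).d2 hb L.L A2 hj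
  have hT := Th_mem hb L.L D.adj D.ri
  rw [hi, hj] at hT
  simp only [hbox] at hT
  have hX := par_twoE_two D.adj hi hj
  have hx1 := D.x1
  rw [hX.1] at hx1
  have h16 := mhs_adj D.adj (fun h3 => by rw [hi] at h3; exact absurd h3.2 (by decide))
    (fun h3 => by rw [hj] at h3; exact absurd h3.2 (by decide)) s
  exact D.one hb hN hM hX h16 hi (fun c => keep_two hb D.adj.symm (Or.inl hj))
    (KR.RE2.rows D.x0.le hx1.le (by linarith [hT.1]) (by linarith [hT.2]) w0 w1 d2)

end SR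

end Pool.Agent.Work.MP_b30479_gtS.G2

end

section

/-!
# Mirrored paths: the kind `2 | 3`, slot `2` of the `3`
-/

namespace Pool.Agent.Work.MP_b30479_gtS.G2

open Finset VOL Filter Topology

namespace SR

variable {M : ℕ} {b : Fin (M + 1) → ℤ} {zs : DD (tyW b) ⊕ ZZ (tyW b) → ℂ}

/-- **The other hinge of a region with two crossings**, modes from above only at a digit `1`. -/
theorem NPos.d2x {nb : Finset (DD (tyW b) ⊕ ZZ (tyW b))} {z : DD (tyW b) ⊕ ZZ (tyW b) → ℂ}
    {p : DD (tyW b) → ℝ} {h' : Fin M} {i j' : Fin (M + 1)} {s : Fin 3} (hb : ClassW b)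
    (hL : Loc b zs) (A' : Adj h' i s j') (hi : clsW b i = .two)
    (h0 : NPos b zs nb p h' i s (Ow b z i s))
    (K : clsW b j' ≠ .one → clsW b j' ≠ .ring → ∀ x, ¬ Md b zs nb z p h' j' s.rev i x) :
    0 ≤ (Ow b z i s).re ∧ (Ow b z i s).re ≤ 8 / 10 ∧
      KR.D2x.In (Ow b z i s).re (Ow b z i s).im := by
  obtain ⟨y0, y1, g1, g2, g3, g4, g5, g6⟩ := h0.d2 hb hL A' hi
  refine ⟨y0, y1, ?_, g2, g3, g4, g5, g6⟩
  have hT := Th_mem hb hL A' (by rw [hi]; decide)
  have hre := h0.re
  have ht := trh_ub (b := b) h' hre.1 hre.2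
  rw [hi] at hT
  suffices hs : (Ow b z i s).im ≤ (Ow b z i s).re by
    simp only [KR.D2x]
    push_cast
    linarith only [hs]
  by_cases c1 : clsW b j' = .one
  · have hcl : wcl b h' = 16 / 100 := by
      unfold wcl
      cases A'
      · rw [hi, c1]; rfl
      · rw [hi, c1]; rfl
    have hmh : ∀ q : Fin 3, mhs b h' q = 16 / 100 :=
      mhs_adj A' (fun h3 => by rw [hi] at h3; exact absurd h3.2 (by decide))
        (fun h3 => by rw [c1] at h3; exact absurd h3.2 (by decide))
    rw [c1] at hT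
    simp only [hbox] at hT
    have h3 := h0.two (Hu := 16 / 100) (Hd := 16 / 100) (by norm_num) (by norm_num)
      (by linarith only [hT, hT.2]) (by linarith only [hT, hT.1]) (fun _ => ⟨by rw [hmh], by rw [hmh]⟩)
    rw [hcl] at ht
    linarith only [ht, h3, h3.1, ht.2.2.1]
  by_cases c2 : clsW b j' = .ring
  · have hcl : wcl b h' = 125 / 1000 := by
      unfold wcl
      cases A'
      · rw [hi, c2]; rfl
      · rw [hi, c2]; rfl
    have hr : RH1 b (.inl h') := by
      cases A'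
      · exact Or.inr c2
      · exact Or.inl c2
    rw [c2] at hT
    simp only [hbox] at hT
    have h3 := h0.two' (Hu := 96 / 1000) (Hd := 16 / 100) (by norm_num) (by norm_num)
      (by linarith only [hT, hT.2]) (by linarith only [hT, hT.1]) (fun h4 => absurd hr h4) (fun h4 => absurd hr h4)
    rw [hcl] at ht
    linarith only [y0, ht, h3, h3.1, ht.2.2.1, ht.1]
  · have h3 := h0.noup hb A' (by rw [hi]; decide) c2 (K c1 c2)
    have hcl : 10 / 100 ≤ wcl b h' := by
      unfold wcl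
      cases A' with
      | l =>
        rw [hi]
        rcases hj : clsW b h'.succ <;> simp only [hp, hp1] <;> norm_num
      | r =>
        rw [hi]
        rcases hj : clsW b h'.castSucc <;> simp only [hp, hp1] <;> norm_num
    have hm : max (Th b zs h' i) 0 ≤ 57 / 1000 := by
      refine max_le ?_ (by norm_num)
      rcases hj : clsW b j' <;> rw [hj] at hT <;> simp only [hbox] at hT <;>
        first | exact absurd hj c1 | exact absurd hj c2 | linarith only [hT, hT.2]
    have h4 := mul_le_mul_of_nonneg_right hm ht.1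
    have h5 := mul_le_mul_of_nonneg_right hcl ht.1
    linarith only [y0, ht, h3, h4, h5, ht.2.2.1, ht.1]

/-- **Kind `2 | 3`**, the `3` at its slot `2`. -/
theorem kind_two_three' (hb : ClassW b) (L : LocA b zs) (K1 : Kd b zs .threeE .two 0)
    (K2 : Kd b zs .three .two 0) : Kd b zs .two .three 0 := by
  intro R nb z p h i j x hN hM hq D hi hj
  obtain ⟨m, rfl⟩ : ∃ m : {i : Fin (M + 1) // (tyW b i).isMid = true}, m.1 = j :=
    ⟨⟨j, tyW_isMid (Or.inl hj)⟩, rfl⟩
  obtain ⟨h1, j1, A1⟩ := D.adj.other' b (clsW_inner hb (Or.inr (Or.inl hi)))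
  obtain ⟨y0, y1, d1⟩ := (hM.npos hb hN hq D.adj D.nn A1).d2x hb L.L A1 hi (by
    intro n1 n2 x' D'
    have D2 : Md b zs nb z p h1 j1 0 i x' := D'
    rcases hc : clsW b j1
    · exact n1 hc
    · exact kind_two_two hb L _ hN hM hq D2 hc hi
    · exact kind_twoE_two hb L _ hN hM hq D2 hc hi
    · exact K2 hN hM hq D2 hc hi
    · exact K1 hN hM hq D2 hc hi
    · exact n2 hc)
  have A2 : Adj h m.1 2 i := D.adj.symm
  have hX := par_three2 A2 hj (by rw [hi]; decide)
  have hx1 := D.x1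
  rw [hX.1] at hx1
  have h16 := mhs_adj D.adj (fun h3 => by rw [hi] at h3; exact absurd h3.2 (by decide))
    (fun h3 => absurd h3.1 (by decide)) 0
  have ho : Ow b z m.1 2 = ⟨x, 16 / 100 * trh b h x⟩ := by
    have h3 := D.opp
    rw [h16] at h3
    exact h3
  obtain ⟨w0, w1, -⟩ := (hM.ipos hN m A2 D.nn).2.dl hb L.L m hj
  obtain ⟨l1, l2⟩ := ipos_inL hb L.L hN hM hq m hj A2 D.nn hX D.x0.le hx1.le ho
  have hT := Th_mem hb L.L D.adj D.ri
  rw [hi, hj] at hT
  have A3 := D.adj
  have hT2 : Th b zs h i ≤ 57 / 1000 := by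
    simp only [hbox] at hT
    exact hT.2
  exact D.two hb hN hM hX h16 (fun c => keep_two hb D.adj (Or.inl hi))
    (fun c => side_three2 hb A2 hj c)
    (KR.R23.rows D.x0.le hx1.le D.T0 (by linarith only [hT2]) y0 y1 w0 w1 d1 l1 l2)

end SR

end Pool.Agent.Work.MP_b30479_gtS.G2

end

section

/-!
# Mirrored paths: the kind `3 | 2`, slot `2` of the `3`
-/

namespace Pool.Agent.Work.MP_b30479_gtS.G2

open Finset VOL Filter Topology

namespace SR

variable {M : ℕ} {b : Fin (M + 1) → ℤ} {zs : DD (tyW b) ⊕ ZZ (tyW b) → ℂ}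

/-- **Kind `3 | 2`**, the `3` at its slot `2`. -/
theorem kind_three_two' (hb : ClassW b) (L : LocA b zs) : Kd b zs .three .two 2 := by
  intro R nb z p h i j x hN hM hq D hi hj
  obtain ⟨m, rfl⟩ : ∃ m : {i : Fin (M + 1) // (tyW b i).isMid = true}, m.1 = i :=
    ⟨⟨i, tyW_isMid (Or.inl hi)⟩, rfl⟩
  obtain ⟨y0, y1, d1⟩ := (hM.ipos hN m D.adj D.nn).2.dl hb L.L m hi
  obtain ⟨h2, j2, A2⟩ := D.adj.symm.other' b (clsW_inner hb (Or.inr (Or.inl hj)))
  obtain ⟨w0, w1, d2⟩ := (hM.npos hb hN hq D.adj.symm D.nn A2).d2 hb L.L A2 hj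
  have hT := Th_mem hb L.L D.adj D.ri
  rw [hi, hj] at hT
  simp only [hbox] at hT
  have hX := par_three2 D.adj hi (by rw [hj]; decide)
  have hx1 := D.x1
  rw [hX.1] at hx1
  have h16 := mhs_adj D.adj (fun h3 => absurd h3.1 (by decide))
    (fun h3 => by rw [hj] at h3; exact absurd h3.2 (by decide)) 2
  exact D.two hb hN hM hX h16 (fun c => side_three2 hb D.adj hi c)
    (fun c => keep_two hb D.adj.symm (Or.inl hj))
    (KR.R32.rows D.x0.le hx1.le D.T0 (by linarith [hT.2]) y0 y1 w0 w1 d1 d2)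

end SR

end Pool.Agent.Work.MP_b30479_gtS.G2

end
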