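import Pool.Agent.Work.MP_b30479_gt.TBS.G2.H13A

section

/-!
# Right side of the hinge `1 | 3` (slot `0`): certificates `KO`
-/

set_option deprecated.oldSectionVars true

namespace Pool.Agent.Work.MP_b30479_gtS.G2

namespace HX

theorem cKOAh :
    f3C 2029 (-13666) 4625 (-14568) 1100 220 4600 4750 210 1145 400 3000 (-820) 50 (-400) 840 7500 0 = true := by
  decide +kernel

theorem cKOBh :
    f3C 1847 (-5152) 4875 (-15169) 1100 220 4750 5000 210 1145 400 2750 (-820) 50 (-400) 840 7500 0 = true := by
  decide +kernel

theorem cKOCh :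
    r3C 11968 (-1296) 5250 152965 1100 220 5000 5500 210 1145 400 2500 (-820) 50 (-400) 840 7500 = true := by
  decide +kernel

theorem cKODh :
    r3C 10992 (-20587) 6000 144269 1100 220 5500 6350 210 1145 400 2000 (-820) 50 (-400) 840 7500 = true := by
  decide +kernel

theorem cKOEh :
    r3C 10992 (-20587) 6000 144269 1100 220 6350 6500 210 940 400 1150 (-820) 50 (-400) 840 7500 = true := by
  decide +kernel

theorem cKOAl :
    f3C 2029 (-13666) 4625 (-14568) 1100 (-570) 4600 4750 210 1145 400 3000 (-820) 50 (-400) 840 7500 0 = true := by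
  decide +kernel

theorem cKOBl :
    f3C 1847 (-5152) 4875 (-15169) 1100 (-570) 4750 5000 210 1145 400 2750 (-820) 50 (-400) 840 7500 0 = true := by
  decide +kernel

theorem cKOCl :
    r3C 11968 (-1296) 5250 152965 1100 (-570) 5000 5500 210 1145 400 2500 (-820) 50 (-400) 840 7500 = true := by
  decide +kernel

theorem cKODl :
    r3C 10992 (-20587) 6000 144269 1100 (-570) 5500 6350 210 1145 400 2000 (-820) 50 (-400) 840 7500 = true := by
  decide +kernel

theorem cKOEl :
    r3C 10992 (-20587) 6000 144269 1100 (-570) 6350 6500 210 940 400 1150 (-820) 50 (-400) 840 7500 = true := by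
  decide +kernel

end HX

end Pool.Agent.Work.MP_b30479_gtS.G2

end

section

/-!
# Right side of the hinge `1 | 3` (slot `0`): certificates `KZ`
-/

set_option deprecated.oldSectionVars true

namespace Pool.Agent.Work.MP_b30479_gtS.G2

namespace HX

theorem cKZAh :
    f3C 2029 (-13666) 4625 (-14568) 1100 570 4600 4750 210 1145 400 3000 (-720) 0 (-340) 800 7500 0 = true := by
  decide +kernel

theorem cKZBh :
    f3C 1847 (-5152) 4875 (-15169) 1100 570 4750 5000 210 1145 400 2750 (-720) 0 (-340) 800 7500 0 = true := by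
  decide +kernel

theorem cKZCh :
    r3C 11968 (-1296) 5250 152965 1100 570 5000 5500 210 1145 400 2500 (-720) 0 (-340) 800 7500 = true := by
  decide +kernel

theorem cKZDh :
    r3C 10992 (-20587) 6000 144269 1100 570 5500 6350 210 1145 400 2000 (-720) 0 (-340) 800 7500 = true := by
  decide +kernel

theorem cKZEh :
    r3C 10992 (-20587) 6000 144269 1100 570 6350 6500 210 940 400 1150 (-720) 0 (-340) 800 7500 = true := by
  decide +kernel

theorem cKZAl :
    f3C 2029 (-13666) 4625 (-14568) 1100 (-40) 4600 4750 210 1145 400 3000 (-720) 0 (-340) 800 7500 0 = true := by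
  decide +kernel

theorem cKZBl :
    f3C 1847 (-5152) 4875 (-15169) 1100 (-40) 4750 5000 210 1145 400 2750 (-720) 0 (-340) 800 7500 0 = true := by
  decide +kernel

theorem cKZCl :
    r3C 11968 (-1296) 5250 152965 1100 (-40) 5000 5500 210 1145 400 2500 (-720) 0 (-340) 800 7500 = true := by
  decide +kernel

theorem cKZDl :
    r3C 10992 (-20587) 6000 144269 1100 (-40) 5500 6350 210 1145 400 2000 (-720) 0 (-340) 800 7500 = true := by
  decide +kernel

theorem cKZEl :
    r3C 10992 (-20587) 6000 144269 1100 (-40) 6350 6500 210 940 400 1150 (-720) 0 (-340) 800 7500 = true := by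
  decide +kernel

end HX

end Pool.Agent.Work.MP_b30479_gtS.G2

end
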