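import Pool.Agent.Work.MP_b30479_gt.TBS.G2.H13A

/-!
# Right side of the hinge `1 | 3` (slot `0`): certificates `P`
-/

set_option deprecated.oldSectionVars true

namespace Pool.Agent.Work.MP_b30479_gtS.G2

namespace HX

theorem cP1A :
    f1C 2029 (-13666) 4625 (-14568) 4500 4750 210 920 1879 5000 (-910) 490 (-220) 1110 = true := by
  decide +kernel

theorem cP1B :
    f1C 1847 (-5152) 4875 (-15169) 4750 5000 210 920 1856 4750 (-910) 490 (-220) 1110 = true := by
  decide +kernel

theorem cP1C :
    r1C 11968 (-1296) 5250 152965 5000 5500 210 920 1772 4500 (-910) 490 (-220) 1110 = true := by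
  decide +kernel

theorem cP1D :
    r1C 10992 (-20587) 6000 144269 5500 6500 210 920 1558 4000 (-910) 490 (-220) 1110 = true := by
  decide +kernel

theorem cP2A :
    f1C 2029 (-13666) 4625 (-14568) 4500 4750 460 940 2282 5000 100 770 780 1480 = true := by
  decide +kernel

theorem cP2B :
    f1C 1847 (-5152) 4875 (-15169) 4750 5000 460 940 2248 4750 100 770 780 1480 = true := by
  decide +kernel

theorem cP2C :
    r1C 11968 (-1296) 5250 152965 5000 5500 460 940 2117 4500 100 770 780 1480 = true := by
  decide +kernel

theorem cP2D :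
    r1C 10992 (-20587) 6000 144269 5500 6500 460 940 1824 4000 100 770 780 1480 = true := by
  decide +kernel

theorem cPEA :
    f1C 2029 (-13666) 4625 (-14568) 4500 4750 870 1145 2344 3500 (-450) (-250) 510 770 = true := by
  decide +kernel

theorem cPEB :
    f1C 1847 (-5152) 4875 (-15169) 4750 5000 870 1145 2277 3500 (-450) (-250) 510 770 = true := by
  decide +kernel

theorem cPEC :
    r1C 11968 (-1296) 5250 152965 5000 5500 870 1145 2021 3500 (-450) (-250) 510 770 = true := by
  decide +kernel

theorem cPED :
    r1C 10992 (-20587) 6000 144269 5500 6350 870 1145 1594 3500 (-450) (-250) 510 770 = true := by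
  decide +kernel

end HX

end Pool.Agent.Work.MP_b30479_gtS.G2
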