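import Pool.Agent.Work.MP_b30479_gt.TBS.G2.H13A

section

/-!
# Right side of the hinge `1 | 3` (slot `0`): certificates `KE`
-/

set_option deprecated.oldSectionVars true

namespace Pool.Agent.Work.MP_b30479_gtS.G2

namespace HX

theorem cKEAh :
    f3C 2029 (-13666) 4625 (-14568) 1100 (-640) 4600 4750 210 1145 400 3000 (-620) (-50) (-200) 750 7500 0 = true := by
  decide +kernel

theorem cKEBh :
    f3C 1847 (-5152) 4875 (-15169) 1100 (-640) 4750 5000 210 1145 400 2750 (-620) (-50) (-200) 750 7500 0 = true := by
  decide +kernel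

theorem cKECh :
    r3C 11968 (-1296) 5250 152965 1100 (-640) 5000 5500 210 1145 400 2500 (-620) (-50) (-200) 750 7500 = true := by
  decide +kernel

theorem cKEDh :
    r3C 10992 (-20587) 6000 144269 1100 (-640) 5500 6350 210 1145 400 2000 (-620) (-50) (-200) 750 7500 = true := by
  decide +kernel

theorem cKEEh :
    r3C 10992 (-20587) 6000 144269 1100 (-640) 6350 6500 210 940 400 1150 (-620) (-50) (-200) 750 7500 = true := by
  decide +kernel

theorem cKEAl :
    f3C 2029 (-13666) 4625 (-14568) 1100 (-980) 4600 4750 210 1145 400 3000 (-620) (-50) (-200) 750 7500 0 = true := by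
  decide +kernel

theorem cKEBl :
    f3C 1847 (-5152) 4875 (-15169) 1100 (-980) 4750 5000 210 1145 400 2750 (-620) (-50) (-200) 750 7500 0 = true := by
  decide +kernel

theorem cKECl :
    r3C 11968 (-1296) 5250 152965 1100 (-980) 5000 5500 210 1145 400 2500 (-620) (-50) (-200) 750 7500 = true := by
  decide +kernel

theorem cKEDl :
    r3C 10992 (-20587) 6000 144269 1100 (-980) 5500 6350 210 1145 400 2000 (-620) (-50) (-200) 750 7500 = true := by
  decide +kernel

theorem cKEEl :
    r3C 10992 (-20587) 6000 144269 1100 (-980) 6350 6500 210 940 400 1150 (-620) (-50) (-200) 750 7500 = true := by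
  decide +kernel

end HX

end Pool.Agent.Work.MP_b30479_gtS.G2

end

section

/-!
# The round `R2` of the hinge `1 | 3` (slot `0`): certificates, other neighbour of the `1`: `1`
-/

set_option deprecated.oldSectionVars true

namespace Pool.Agent.Work.MP_b30479_gtS.G2

namespace HX

theorem q1A :
    f1C 2437 2798 4450 (-14905) 4200 4700 210 920 1500 5300 (-910) 490 (-220) 1110 = true := by
  decide +kernel

theorem q1L :
    f1C 3312 2285 4100 (-19633) 4000 4200 210 920 1500 5500 (-910) 490 (-220) 1110 = true := by
  decide +kernel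

theorem q1K1Ah :
    f3C 2437 2798 4450 (-14905) 1500 (-150) 4200 4700 210 920 400 3100 (-745) (-180) (-450) 700 7300 0 = true := by
  decide +kernel

theorem q1K1Sh :
    f3C 2437 2798 4450 (-14905) 1100 (-150) 4200 4700 210 920 2600 3300 (-745) (-180) (-450) 700 7500 7300 = true := by
  decide +kernel

theorem q1K1Al :
    f3C 2437 2798 4450 (-14905) 1500 (-1145) 4200 4700 210 920 400 3100 (-745) (-180) (-450) 700 7300 0 = true := by
  decide +kernel

theorem q1K1Sl :
    f3C 2437 2798 4450 (-14905) 1100 (-1145) 4200 4700 210 920 2600 3300 (-745) (-180) (-450) 700 7500 7300 = true := by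
  decide +kernel

theorem q1KOAh :
    f3C 2437 2798 4450 (-14905) 1300 220 4200 4700 210 920 400 3300 (-655) 50 (-130) 475 7500 0 = true := by
  decide +kernel

theorem q1KOAl :
    f3C 2437 2798 4450 (-14905) 1300 (-570) 4200 4700 210 920 400 3300 (-655) 50 (-130) 475 7500 0 = true := by
  decide +kernel

theorem q1KZAh :
    f3C 2437 2798 4450 (-14905) 1300 570 4200 4700 210 920 400 3300 (-485) 0 (-65) 475 7500 0 = true := by
  decide +kernel

theorem q1KZAl :
    f3C 2437 2798 4450 (-14905) 1300 (-40) 4200 4700 210 920 400 3300 (-485) 0 (-65) 475 7500 0 = true := by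
  decide +kernel

theorem q1KEAh :
    f3C 2437 2798 4450 (-14905) 1300 (-640) 4200 4700 210 920 400 3300 (-515) (-50) (-20) 475 7500 0 = true := by
  decide +kernel

theorem q1KELh :
    f3C 3312 2285 4100 (-19633) 1300 (-640) 4000 4200 210 920 400 3500 (-515) (-50) (-20) 475 7500 0 = true := by
  decide +kernel

theorem q1KEAl :
    f3C 2437 2798 4450 (-14905) 1300 (-980) 4200 4700 210 920 400 3300 (-515) (-50) (-20) 475 7500 0 = true := by
  decide +kernel

theorem q1KELl :
    f3C 3312 2285 4100 (-19633) 1300 (-980) 4000 4200 210 920 400 3500 (-515) (-50) (-20) 475 7500 0 = true := by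
  decide +kernel

end HX

end Pool.Agent.Work.MP_b30479_gtS.G2

end

section

/-!
# The round `R2` of the hinge `1 | 3` (slot `0`): certificates, other neighbour of the `1`: `2`
-/

set_option deprecated.oldSectionVars true

namespace Pool.Agent.Work.MP_b30479_gtS.G2

namespace HX

theorem q2A :
    f1C 3542 2836 4450 (-17813) 4200 4700 460 940 1600 4950 100 770 780 1480 = true := by
  decide +kernel

theorem q2L :
    f1C 4513 2374 4100 (-23839) 4000 4200 460 940 1600 4950 100 770 780 1480 = true := by
  decide +kernel

theorem q2K1Ah :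
    f3C 3542 2836 4450 (-17813) 1500 (-150) 4200 4700 460 940 400 3100 (-585) (-180) (-450) 700 7300 0 = true := by
  decide +kernel

theorem q2K1Sh :
    f3C 3542 2836 4450 (-17813) 1100 (-150) 4200 4700 460 940 2600 3300 (-585) (-180) (-450) 700 7500 7300 = true := by
  decide +kernel

theorem q2K1Al :
    f3C 3542 2836 4450 (-17813) 1500 (-1145) 4200 4700 460 940 400 3100 (-585) (-180) (-450) 700 7300 0 = true := by
  decide +kernel

theorem q2K1Sl :
    f3C 3542 2836 4450 (-17813) 1100 (-1145) 4200 4700 460 940 2600 3300 (-585) (-180) (-450) 700 7500 7300 = true := by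
  decide +kernel

theorem q2KOAh :
    f3C 3542 2836 4450 (-17813) 1300 220 4200 4700 460 940 400 3300 (-490) 50 210 630 7500 0 = true := by
  decide +kernel

theorem q2KOAl :
    f3C 3542 2836 4450 (-17813) 1300 (-570) 4200 4700 460 940 400 3300 (-490) 50 210 630 7500 0 = true := by
  decide +kernel

theorem q2KZAh :
    f3C 3542 2836 4450 (-17813) 1300 570 4200 4700 460 940 400 3300 (-330) 0 270 630 7500 0 = true := by
  decide +kernel

theorem q2KZAl :
    f3C 3542 2836 4450 (-17813) 1300 (-40) 4200 4700 460 940 400 3300 (-330) 0 270 630 7500 0 = true := by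
  decide +kernel

theorem q2KEAh :
    f3C 3542 2836 4450 (-17813) 1300 (-640) 4200 4700 460 940 400 3300 (-355) (-50) 310 635 7500 0 = true := by
  decide +kernel

theorem q2KELh :
    f3C 4513 2374 4100 (-23839) 1300 (-640) 4000 4200 460 940 400 3500 (-355) (-50) 310 635 7500 0 = true := by
  decide +kernel

theorem q2KEAl :
    f3C 3542 2836 4450 (-17813) 1300 (-980) 4200 4700 460 940 400 3300 (-355) (-50) 310 635 7500 0 = true := by
  decide +kernel

theorem q2KELl :
    f3C 4513 2374 4100 (-23839) 1300 (-980) 4000 4200 460 940 400 3500 (-355) (-50) 310 635 7500 0 = true := by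
  decide +kernel

end HX

end Pool.Agent.Work.MP_b30479_gtS.G2

end

section

/-!
# The round `R2` of the hinge `1 | 3` (slot `0`): certificates, other neighbour of the `1`: `E`
-/

set_option deprecated.oldSectionVars true

namespace Pool.Agent.Work.MP_b30479_gtS.G2

namespace HX

theorem qEA :
    f1C 789 2616 4450 (-12546) 4200 4700 870 1145 1400 3500 (-450) (-250) 510 770 = true := by
  decide +kernel

theorem qEL :
    f1C 1829 2212 4100 (-16591) 4000 4200 870 1145 1400 3500 (-450) (-250) 510 770 = true := by
  decide +kernel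

theorem qEK1Ah :
    f3C 789 2616 4450 (-12546) 1500 (-150) 4200 4700 870 1145 400 3100 (-900) (-180) (-450) 700 7300 0 = true := by
  decide +kernel

theorem qEK1Sh :
    f3C 789 2616 4450 (-12546) 1100 (-150) 4200 4700 870 1145 2600 3300 (-900) (-180) (-450) 700 7500 7300 = true := by
  decide +kernel

theorem qEK1Al :
    f3C 789 2616 4450 (-12546) 1500 (-1145) 4200 4700 870 1145 400 3100 (-900) (-180) (-450) 700 7300 0 = true := by
  decide +kernel

theorem qEK1Sl :
    f3C 789 2616 4450 (-12546) 1100 (-1145) 4200 4700 870 1145 2600 3300 (-900) (-180) (-450) 700 7500 7300 = true := by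
  decide +kernel

theorem qEKOAh :
    f3C 789 2616 4450 (-12546) 1300 220 4200 4700 870 1145 400 3300 (-820) 50 (-400) 840 7500 0 = true := by
  decide +kernel

theorem qEKOAl :
    f3C 789 2616 4450 (-12546) 1300 (-570) 4200 4700 870 1145 400 3300 (-820) 50 (-400) 840 7500 0 = true := by
  decide +kernel

theorem qEKZAh :
    f3C 789 2616 4450 (-12546) 1300 570 4200 4700 870 1145 400 3300 (-720) 0 (-340) 800 7500 0 = true := by
  decide +kernel

theorem qEKZAl :
    f3C 789 2616 4450 (-12546) 1300 (-40) 4200 4700 870 1145 400 3300 (-720) 0 (-340) 800 7500 0 = true := by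
  decide +kernel

theorem qEKEAh :
    f3C 789 2616 4450 (-12546) 1300 (-640) 4200 4700 870 1145 400 3300 (-620) (-50) (-200) 750 7500 0 = true := by
  decide +kernel

theorem qEKELh :
    f3C 1829 2212 4100 (-16591) 1300 (-640) 4000 4200 870 1145 400 3500 (-620) (-50) (-200) 750 7500 0 = true := by
  decide +kernel

theorem qEKEAl :
    f3C 789 2616 4450 (-12546) 1300 (-980) 4200 4700 870 1145 400 3300 (-620) (-50) (-200) 750 7500 0 = true := by
  decide +kernel

theorem qEKELl :
    f3C 1829 2212 4100 (-16591) 1300 (-980) 4000 4200 870 1145 400 3500 (-620) (-50) (-200) 750 7500 0 = true := by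
  decide +kernel

end HX

end Pool.Agent.Work.MP_b30479_gtS.G2

end
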