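import Pool.Agent.Work.MP_b30479_gt.TBS.G2.H13K1
import Pool.Agent.Work.MP_b30479_gt.TBS.G2.H14E
import Pool.Agent.Work.MP_b30479_gt.TBS.G2.H13KZ
import Pool.Agent.Work.MP_b30479_gt.TBS.G2.MPRun
import Pool.Agent.Work.MP_b30479_gt.TBS.G2.WLocX
import Pool.Agent.Work.MP_b30479_gt.TBS.G2.H13P

section

/-!
# Right side of the hinge `1 | 3` (slot `0`): the two sides
-/

namespace Pool.Agent.Work.MP_b30479_gtS.G2

open VOL NumIs

namespace HX

variable {u v w : ℂ} {T : ℝ}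

/-- row on the flat part, complex form -/
theorem flat3_c {a b xc c wf wl wh x0 x1 T0 T1 p0 p1 t0 t1 s0 s1 vM vL : ℤ}
    (hl : f3C a b xc c wf wl x0 x1 T0 T1 p0 p1 t0 t1 s0 s1 vM vL = true)
    (hh : f3C a b xc c wf wh x0 x1 T0 T1 p0 p1 t0 t1 s0 s1 vM vL = true)
    (h0 : 0 < u.re) (h1 : u.re < 1) (h2 : 0 < v.re - u.re) (h3 : v.re < 1)
    (hx : (x0 : ℝ) / 10000 ≤ u.re) (hx' : u.re ≤ (x1 : ℝ) / 10000) (hT : (T0 : ℝ) / 10000 ≤ T)
    (hT' : T ≤ (T1 : ℝ) / 10000) (hp : (p0 : ℝ) / 10000 ≤ v.re - u.re)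
    (hp' : v.re - u.re ≤ (p1 : ℝ) / 10000) (hτ : (t0 : ℝ) / 10000 ≤ v.im)
    (hτ' : v.im ≤ (t1 : ℝ) / 10000) (hs : (s0 : ℝ) / 10000 ≤ v.im + T)
    (hs' : v.im + T ≤ (s1 : ℝ) / 10000) (hv : v.re ≤ (vM : ℝ) / 10000)
    (hv' : (vL : ℝ) / 10000 ≤ v.re) (hu : u.im = -T)
    (hw0 : 1 / 2 ≤ v.re + (wf : ℝ) / 10000) (hw1 : v.re + (wf : ℝ) / 10000 < 1)
    (hw2 : (wf : ℝ) / 10000 ≤ w.re) (hw3 : v.re + w.re ≤ 2 - (v.re + (wf : ℝ) / 10000))
    (hw4 : (wl : ℝ) / 10000 ≤ w.im) (hw5 : w.im ≤ (wh : ℝ) / 10000)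
    (hn : 0 < MM (v.re + w.re) (v.im + w.im)) (hM : 0 ≤ SM 0 u v w) :
    S3 1 0 u v < -(af a b xc c u.re T) := by
  rw [S3_eq h0 h1 h2 (by linarith only [h0, h3]), hu]
  rcases sM_of_SM hM (by linarith only [h0, h2]) h3 h2 (by linarith only [h0, h3]) hw0 hw1 (by linarith only [hw2]) hw3 hw4 hw5 hn
    with h4 | h4
  · rw [hu] at h4
    exact flat3 hl hx hx' hT hT' hp hp' hτ hτ' hs hs' hv hv' h4
  · rw [hu] at h4
    exact flat3 hh hx hx' hT hT' hp hp' hτ hτ' hs hs' hv hv' h4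

/-- row on the ramp, complex form -/
theorem ramp3_c {a b xc c wf wl wh x0 x1 T0 T1 p0 p1 t0 t1 s0 s1 vM : ℤ} {m : ℝ}
    (hl : r3C a b xc c wf wl x0 x1 T0 T1 p0 p1 t0 t1 s0 s1 vM = true)
    (hh : r3C a b xc c wf wh x0 x1 T0 T1 p0 p1 t0 t1 s0 s1 vM = true)
    (h0 : 0 < u.re) (h1 : u.re < 1) (h2 : 0 < v.re - u.re) (h3 : v.re < 1)
    (hx : (x0 : ℝ) / 10000 ≤ u.re) (hx' : u.re ≤ (x1 : ℝ) / 10000) (hT : (T0 : ℝ) / 10000 ≤ T)
    (hT' : T ≤ (T1 : ℝ) / 10000) (hp : (p0 : ℝ) / 10000 ≤ v.re - u.re)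
    (hp' : v.re - u.re ≤ (p1 : ℝ) / 10000) (hτ : (t0 : ℝ) / 10000 ≤ v.im)
    (hτ' : v.im ≤ (t1 : ℝ) / 10000) (hs : (s0 : ℝ) / 10000 ≤ v.im + T)
    (hs' : v.im + T ≤ (s1 : ℝ) / 10000) (hv : v.re ≤ (vM : ℝ) / 10000)
    (hu : u.im = -(T * (20 / 3 * (65 / 100 - u.re)))) (hm : m = 20 / 3 * T)
    (hw0 : 1 / 2 ≤ v.re + (wf : ℝ) / 10000) (hw1 : v.re + (wf : ℝ) / 10000 < 1)
    (hw2 : (wf : ℝ) / 10000 ≤ w.re) (hw3 : v.re + w.re ≤ 2 - (v.re + (wf : ℝ) / 10000))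
    (hw4 : (wl : ℝ) / 10000 ≤ w.im) (hw5 : w.im ≤ (wh : ℝ) / 10000)
    (hn : 0 < MM (v.re + w.re) (v.im + w.im)) (hM : 0 ≤ SM 0 u v w) :
    S3 1 m u v < -(af a b xc c u.re T) := by
  rw [S3_eq h0 h1 h2 (by linarith only [h0, h3])]
  rcases sM_of_SM hM (by linarith only [h0, h2]) h3 h2 (by linarith only [h0, h3]) hw0 hw1 (by linarith only [hw2]) hw3 hw4 hw5 hn
    with h4 | h4
  · exact ramp3 hl hx hx' hT hT' hp hp' hτ hτ' hs hs' hv hu hm h4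
  · exact ramp3 hh hx hx' hT hT' hp hp' hτ hτ' hs hs' hv hu hm h4

/-! ### windows -/

/-- windows of the other hinge and of the inner variable of the digit `3`, in units `1/10000` -/
structure KD where
  /-- lower bound of the height of the hinge in the slot `2` -/
  wl : ℤ
  /-- upper bound -/
  wh : ℤ
  /-- lower bound of the height of the inner variable -/
  t0 : ℤ
  /-- upper bound -/
  t1 : ℤ
  /-- lower bound of the difference of the heights -/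
  s0 : ℤ
  /-- upper bound -/
  s1 : ℤ

/-- the windows, by the class of the neighbour in the slot `2` -/
def kd : SR.Cl → KD
  | .one => ⟨-1145, -150, -900, -180, -450, 700⟩
  | .twoE => ⟨-980, -640, -620, -50, -200, 750⟩
  | .ring => ⟨-40, 570, -720, 0, -340, 800⟩
  | _ => ⟨-570, 220, -820, 50, -400, 840⟩

/-- the digit `3`: `u`: hinge in the slot `0`, `v`: inner variable, `w`: hinge in the slot `2`, on
their paths; `T`: minus the height of the first hinge -/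
structure In3 (K : SR.Cl) (u v w : ℂ) (T : ℝ) : Prop where
  T0 : 21 / 1000 ≤ T
  T1 : T ≤ 1145 / 10000
  p0 : 4 / 100 ≤ v.re - u.re
  v1 : v.re ≤ 75 / 100
  m0 : ((kd K).t0 : ℝ) / 10000 ≤ v.im
  m1 : v.im ≤ ((kd K).t1 : ℝ) / 10000
  s0 : ((kd K).s0 : ℝ) / 10000 ≤ v.im + T
  s1 : v.im + T ≤ ((kd K).s1 : ℝ) / 10000
  w0 : 11 / 100 ≤ w.re
  w1 : w.re ≤ 39 / 100
  h0 : ((kd K).wl : ℝ) / 10000 ≤ w.im
  h1 : w.im ≤ ((kd K).wh : ℝ) / 10000
  n : 0 < MM (v.re + w.re) (v.im + w.im)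
  f : 0 ≤ SM 0 u v w

/-- row on the flat part -/
theorem flat3_k {K : SR.Cl} {a b xc c wf x0 x1 p0 p1 vM vL : ℤ}
    (hl : f3C a b xc c wf (kd K).wl x0 x1 210 1145 p0 p1 (kd K).t0 (kd K).t1 (kd K).s0 (kd K).s1
      vM vL = true)
    (hh : f3C a b xc c wf (kd K).wh x0 x1 210 1145 p0 p1 (kd K).t0 (kd K).t1 (kd K).s0 (kd K).s1
      vM vL = true)
    (H : In3 K u v w T) (h0 : 45 / 100 ≤ u.re)
    (hx : (x0 : ℝ) / 10000 ≤ u.re) (hx' : u.re ≤ (x1 : ℝ) / 10000)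
    (hp : (p0 : ℝ) / 10000 ≤ v.re - u.re) (hp' : v.re - u.re ≤ (p1 : ℝ) / 10000) (hv : v.re ≤ (vM : ℝ) / 10000)
    (hv' : (vL : ℝ) / 10000 ≤ v.re) (hu : u.im = -T)
    (hw : (wf : ℝ) / 10000 ≤ 140 / 1000) (hw0 : 11 / 100 ≤ (wf : ℝ) / 10000)
    (hw1 : 2 * v.re + (wf : ℝ) / 10000 ≤ 161 / 100)
    (hw2 : (wf : ℝ) / 10000 ≤ w.re) :
    S3 1 0 u v < -(af a b xc c u.re T) := by
  obtain ⟨T0, T1, q0, v1, m0, m1, s0, s1, w0, w1, h2, h3, n, f⟩ := H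
  refine flat3_c hl hh (by linarith only [h0]) (by linarith only [hw0, hw1, q0]) (by linarith only [q0]) (by linarith only [hw0, hw1]) hx hx' ?_ ?_ hp hp'
    m0 m1 s0 s1 hv hv' hu (by linarith only [h0, hw0, q0]) (by linarith only [hw, hw1]) hw2 (by linarith only [hw1, w1]) h2 h3 n f
  · push_cast
    linarith only [T0]
  · push_cast
    linarith only [T1]

/-- row on the ramp -/
theorem ramp3_k {K : SR.Cl} {a b xc c x0 x1 T1 p1 : ℤ} {m : ℝ}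
    (hl : r3C a b xc c 1100 (kd K).wl x0 x1 210 T1 400 p1 (kd K).t0 (kd K).t1 (kd K).s0 (kd K).s1
      7500 = true)
    (hh : r3C a b xc c 1100 (kd K).wh x0 x1 210 T1 400 p1 (kd K).t0 (kd K).t1 (kd K).s0 (kd K).s1
      7500 = true)
    (H : In3 K u v w T) (h0 : 1 / 2 ≤ u.re)
    (hx : (x0 : ℝ) / 10000 ≤ u.re) (hx' : u.re ≤ (x1 : ℝ) / 10000) (hT : T ≤ (T1 : ℝ) / 10000)
    (hp' : v.re - u.re ≤ (p1 : ℝ) / 10000)
    (hu : u.im = -(T * (20 / 3 * (65 / 100 - u.re)))) (hm : m = 20 / 3 * T) :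
    S3 1 m u v < -(af a b xc c u.re T) := by
  obtain ⟨T0, T1, p0, v1, m0, m1, s0, s1, w0, w1, h2, h3, n, f⟩ := H
  have e : ((1100 : ℤ) : ℝ) / 10000 = 11 / 100 := by norm_num
  refine ramp3_c hl hh (by linarith only [h0]) (by linarith only [p0, v1]) (by linarith only [p0]) (by linarith only [v1]) hx hx' ?_ hT ?_ hp'
    m0 m1 s0 s1 ?_ hu hm (by rw [e]; linarith only [h0, p0]) (by rw [e]; linarith only [v1]) (by rw [e]; linarith only [w0])
    (by rw [e]; linarith only [v1, w1]) h2 h3 n f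
  · push_cast
    linarith only [T0]
  · push_cast
    linarith only [p0]
  · push_cast
    linarith only [v1]

/-- bounding functions -/
noncomputable def fA (x T : ℝ) : ℝ := af 2029 (-13666) 4625 (-14568) x T
/-- bounding functions -/
noncomputable def fB (x T : ℝ) : ℝ := af 1847 (-5152) 4875 (-15169) x T
/-- bounding functions -/
noncomputable def fC (x T : ℝ) : ℝ := af 11968 (-1296) 5250 152965 x T
/-- bounding functions -/
noncomputable def fD (x T : ℝ) : ℝ := af 10992 (-20587) 6000 144269 x T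

variable {K : SR.Cl} {m : ℝ}

/-- the side of the digit `3`, `x ≤ .475` -/
theorem three_A (H : In3 K u v w T) (hx0 : 45 / 100 ≤ u.re) (hx : u.re ≤ 475 / 1000)
    (hK : 46 / 100 ≤ u.re ∧ K ≠ .one ∨ K = .one ∧ 131 / 1000 ≤ w.re) (hu : u.im = -T) :
    S3 1 0 u v < -(fA u.re T) := by
  have e1 : ((4500 : ℤ) : ℝ) / 10000 ≤ u.re := by push_cast; linarith only [hx0]
  have e2 : u.re ≤ ((4750 : ℤ) : ℝ) / 10000 := by push_cast; linarith only [hx]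
  have e3 : v.re - u.re ≤ ((3000 : ℤ) : ℝ) / 10000 := by push_cast; linarith only [hx0, H, H.v1]
  have e4 : ((400 : ℤ) : ℝ) / 10000 ≤ v.re - u.re := by push_cast; linarith only [H, H.p0]
  have e5 : ((0 : ℤ) : ℝ) / 10000 ≤ v.re := by push_cast; linarith only [hx0, e4, H.p0]
  have e6 : v.re ≤ ((7500 : ℤ) : ℝ) / 10000 := by push_cast; linarith only [H, H.v1]
  have e7 : ((1100 : ℤ) : ℝ) / 10000 = 11 / 100 := by norm_num
  have e8 : ((1310 : ℤ) : ℝ) / 10000 = 131 / 1000 := by norm_num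
  have d := H.v1
  have d1 := H.w0
  by_cases h : K = .one
  · obtain ⟨-, hw⟩ := hK.resolve_left (fun h' => h'.2 h)
    subst h
    rcases le_total v.re (739 / 1000) with hv | hv
    · exact flat3_k (K := .one) cK1Al cK1Ah H hx0 e1 e2 e4 e3 (by push_cast; linarith only [hv]) e5 hu
        (by rw [e8]; norm_num) (by rw [e8]; norm_num) (by rw [e8]; linarith only [hv]) (by rw [e8]; exact hw)
    · exact flat3_k (K := .one) cK1Sl cK1Sh H hx0 e1 e2 (by push_cast; linarith only [hx, hv]) e3 e6 (by push_cast; linarith only [hv]) hu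
        (by rw [e7]; norm_num) e7.ge (by rw [e7]; linarith only [e6]) (by rw [e7]; exact d1)
  · obtain ⟨hx', -⟩ := hK.resolve_right (fun h' => h h'.1)
    have e1 : ((4600 : ℤ) : ℝ) / 10000 ≤ u.re := by push_cast; linarith only [hx']
    have g1 : ((1100 : ℤ) : ℝ) / 10000 ≤ 140 / 1000 := by rw [e7]; norm_num
    have g2 : 11 / 100 ≤ ((1100 : ℤ) : ℝ) / 10000 := e7.ge
    have g3 : 2 * v.re + ((1100 : ℤ) : ℝ) / 10000 ≤ 161 / 100 := by rw [e7]; linarith only [e6]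
    have g4 : ((1100 : ℤ) : ℝ) / 10000 ≤ w.re := by rw [e7]; exact d1
    cases K
    case one => exact absurd rfl h
    case twoE =>
      exact flat3_k (K := .twoE) cKEAl cKEAh H hx0 e1 e2 e4 e3 e6 e5 hu g1 g2 g3 g4
    case ring =>
      exact flat3_k (K := .ring) cKZAl cKZAh H hx0 e1 e2 e4 e3 e6 e5 hu g1 g2 g3 g4
    case two =>
      exact flat3_k (K := .two) cKOAl cKOAh H hx0 e1 e2 e4 e3 e6 e5 hu g1 g2 g3 g4
    case three =>
      exact flat3_k (K := .three) cKOAl cKOAh H hx0 e1 e2 e4 e3 e6 e5 hu g1 g2 g3 g4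
    case threeE =>
      exact flat3_k (K := .threeE) cKOAl cKOAh H hx0 e1 e2 e4 e3 e6 e5 hu g1 g2 g3 g4

/-- the side of the digit `3`, `.475 ≤ x ≤ .50` -/
theorem three_B (H : In3 K u v w T) (hx : 475 / 1000 ≤ u.re) (hx' : u.re ≤ 1 / 2)
    (hu : u.im = -T) : S3 1 0 u v < -(fB u.re T) := by
  have d := H.v1
  have d1 := H.w0
  have hx0 : 45 / 100 ≤ u.re := by linarith only [hx]
  have e1 : ((4750 : ℤ) : ℝ) / 10000 ≤ u.re := by push_cast; linarith only [hx]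
  have e2 : u.re ≤ ((5000 : ℤ) : ℝ) / 10000 := by push_cast; linarith only [hx']
  have e3 : v.re - u.re ≤ ((2750 : ℤ) : ℝ) / 10000 := by push_cast; linarith only [hx, d, H.v1]
  have e4 : ((400 : ℤ) : ℝ) / 10000 ≤ v.re - u.re := by push_cast; linarith only [H, H.p0]
  have e5 : ((0 : ℤ) : ℝ) / 10000 ≤ v.re := by push_cast; linarith only [hx, e4, H.p0]
  have e6 : v.re ≤ ((7500 : ℤ) : ℝ) / 10000 := by push_cast; linarith only [d, H.v1]
  have e7 : ((1100 : ℤ) : ℝ) / 10000 = 11 / 100 := by norm_num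
  have g1 : ((1100 : ℤ) : ℝ) / 10000 ≤ 140 / 1000 := by rw [e7]; norm_num
  have g2 : 11 / 100 ≤ ((1100 : ℤ) : ℝ) / 10000 := e7.ge
  have g3 : 2 * v.re + ((1100 : ℤ) : ℝ) / 10000 ≤ 161 / 100 := by rw [e7]; linarith only [d]
  have g4 : ((1100 : ℤ) : ℝ) / 10000 ≤ w.re := by rw [e7]; exact d1
  cases K
  case one =>
    exact flat3_k (K := .one) cK1Bl cK1Bh H hx0 e1 e2 e4 e3 e6 e5 hu g1 g2 g3 g4
  case twoE =>
    exact flat3_k (K := .twoE) cKEBl cKEBh H hx0 e1 e2 e4 e3 e6 e5 hu g1 g2 g3 g4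
  case ring =>
    exact flat3_k (K := .ring) cKZBl cKZBh H hx0 e1 e2 e4 e3 e6 e5 hu g1 g2 g3 g4
  case two =>
    exact flat3_k (K := .two) cKOBl cKOBh H hx0 e1 e2 e4 e3 e6 e5 hu g1 g2 g3 g4
  case three =>
    exact flat3_k (K := .three) cKOBl cKOBh H hx0 e1 e2 e4 e3 e6 e5 hu g1 g2 g3 g4
  case threeE =>
    exact flat3_k (K := .threeE) cKOBl cKOBh H hx0 e1 e2 e4 e3 e6 e5 hu g1 g2 g3 g4

/-- the side of the digit `3`, `.50 ≤ x ≤ .55` -/
theorem three_C (H : In3 K u v w T) (hx : 1 / 2 ≤ u.re) (hx' : u.re ≤ 55 / 100)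
    (hu : u.im = -(T * (20 / 3 * (65 / 100 - u.re)))) (hm : m = 20 / 3 * T) :
    S3 1 m u v < -(fC u.re T) := by
  have e1 : ((5000 : ℤ) : ℝ) / 10000 ≤ u.re := by push_cast; linarith only [hx]
  have e2 : u.re ≤ ((5500 : ℤ) : ℝ) / 10000 := by push_cast; linarith only [hx']
  have e3 : v.re - u.re ≤ ((2500 : ℤ) : ℝ) / 10000 := by push_cast; linarith only [hx, H, H.v1]
  have e4 : T ≤ ((1145 : ℤ) : ℝ) / 10000 := by push_cast; linarith only [H, H.T1]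
  cases K
  case one => exact ramp3_k (K := .one) cK1Cl cK1Ch H hx e1 e2 e4 e3 hu hm
  case twoE => exact ramp3_k (K := .twoE) cKECl cKECh H hx e1 e2 e4 e3 hu hm
  case ring => exact ramp3_k (K := .ring) cKZCl cKZCh H hx e1 e2 e4 e3 hu hm
  case two => exact ramp3_k (K := .two) cKOCl cKOCh H hx e1 e2 e4 e3 hu hm
  case three => exact ramp3_k (K := .three) cKOCl cKOCh H hx e1 e2 e4 e3 hu hm
  case threeE => exact ramp3_k (K := .threeE) cKOCl cKOCh H hx e1 e2 e4 e3 hu hm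

/-- the side of the digit `3`, `.55 ≤ x` -/
theorem three_D (H : In3 K u v w T) (hx : 55 / 100 ≤ u.re) (hx1 : u.re ≤ 65 / 100)
    (hx' : u.re ≤ 635 / 1000 ∨ T ≤ 94 / 1000)
    (hu : u.im = -(T * (20 / 3 * (65 / 100 - u.re)))) (hm : m = 20 / 3 * T) :
    S3 1 m u v < -(fD u.re T) := by
  have h5 : 1 / 2 ≤ u.re := by linarith only [hx]
  rcases le_or_gt u.re (635 / 1000) with h | h
  · have e1 : ((5500 : ℤ) : ℝ) / 10000 ≤ u.re := by push_cast; linarith only [hx]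
    have e2 : u.re ≤ ((6350 : ℤ) : ℝ) / 10000 := by push_cast; linarith only [h]
    have e3 : v.re - u.re ≤ ((2000 : ℤ) : ℝ) / 10000 := by push_cast; linarith only [hx, H, H.v1]
    have e4 : T ≤ ((1145 : ℤ) : ℝ) / 10000 := by push_cast; linarith only [H, H.T1]
    cases K
    case one => exact ramp3_k (K := .one) cK1Dl cK1Dh H h5 e1 e2 e4 e3 hu hm
    case twoE => exact ramp3_k (K := .twoE) cKEDl cKEDh H h5 e1 e2 e4 e3 hu hm
    case ring => exact ramp3_k (K := .ring) cKZDl cKZDh H h5 e1 e2 e4 e3 hu hm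
    case two => exact ramp3_k (K := .two) cKODl cKODh H h5 e1 e2 e4 e3 hu hm
    case three => exact ramp3_k (K := .three) cKODl cKODh H h5 e1 e2 e4 e3 hu hm
    case threeE => exact ramp3_k (K := .threeE) cKODl cKODh H h5 e1 e2 e4 e3 hu hm
  · have hT := hx'.resolve_left (not_le.2 h)
    have e1 : ((6350 : ℤ) : ℝ) / 10000 ≤ u.re := by push_cast; linarith only [h]
    have e2 : u.re ≤ ((6500 : ℤ) : ℝ) / 10000 := by push_cast; linarith only [hx1]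
    have e3 : v.re - u.re ≤ ((1150 : ℤ) : ℝ) / 10000 := by push_cast; linarith only [h, H, H.v1]
    have e4 : T ≤ ((940 : ℤ) : ℝ) / 10000 := by push_cast; linarith only [hT]
    cases K
    case one => exact ramp3_k (K := .one) cK1El cK1Eh H h5 e1 e2 e4 e3 hu hm
    case twoE => exact ramp3_k (K := .twoE) cKEEl cKEEh H h5 e1 e2 e4 e3 hu hm
    case ring => exact ramp3_k (K := .ring) cKZEl cKZEh H h5 e1 e2 e4 e3 hu hm
    case two => exact ramp3_k (K := .two) cKOEl cKOEh H h5 e1 e2 e4 e3 hu hm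
    case three => exact ramp3_k (K := .three) cKOEl cKOEh H h5 e1 e2 e4 e3 hu hm
    case threeE => exact ramp3_k (K := .threeE) cKOEl cKOEh H h5 e1 e2 e4 e3 hu hm

end HX

end Pool.Agent.Work.MP_b30479_gtS.G2

end

section

/-!
# Right side of the hinge `1 | 3` (slot `0`): the side of the digit `1`
-/

namespace Pool.Agent.Work.MP_b30479_gtS.G2

open VOL NumIs

namespace HX

/-- floors of the other hinge of the digit `1`, given the hinge `1 | 3` -/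
def K13 (c : SR.Cl) (x k : ℝ) : Prop :=
  match c with
  | .one => (x ≤ 475 / 1000 → 1879 / 10000 ≤ k) ∧ (x ≤ 1 / 2 → 1856 / 10000 ≤ k) ∧
      (x ≤ 55 / 100 → 1772 / 10000 ≤ k) ∧ 1558 / 10000 ≤ k
  | .two => (x ≤ 475 / 1000 → 2282 / 10000 ≤ k) ∧ (x ≤ 1 / 2 → 2248 / 10000 ≤ k) ∧
      (x ≤ 55 / 100 → 2117 / 10000 ≤ k) ∧ 1824 / 10000 ≤ k
  | .twoE => (x ≤ 475 / 1000 → 2344 / 10000 ≤ k) ∧ (x ≤ 1 / 2 → 2277 / 10000 ≤ k) ∧
      (x ≤ 55 / 100 → 2021 / 10000 ≤ k) ∧ 1594 / 10000 ≤ k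
  | _ => True

/-- the digit `1`: hinge `x`, height `T`; other hinge `k`, height `κ`; `P`: class of the other
neighbour -/
structure In1 (P : SR.Cl) (x T k κ : ℝ) : Prop where
  c : P = .one ∨ P = .two ∨ P = .twoE
  x0 : 45 / 100 ≤ x
  x1 : x ≤ 65 / 100
  s : x + k ≤ 95 / 100
  E : P = .twoE → k ≤ 35 / 100 ∧ x ≤ 635 / 1000
  T0 : (SR.cw P .three).t0 ≤ T
  T1 : T ≤ (SR.cw P .three).t1
  k0 : (SR.cw .three P).t0 ≤ κ
  k1 : κ ≤ (SR.cw .three P).t1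
  s0 : (SR.cw P .three).s0 ≤ T + κ
  s1 : T + κ ≤ (SR.cw P .three).s1
  f : K13 P x k

variable {P : SR.Cl} {x T k κ hh m : ℝ}

/-- the side of the digit `1`, `x ≤ .475` -/
theorem one_A (H : In1 P x T k κ) (hx : x ≤ 475 / 1000) : MR.s1 0 x T k κ < fA x T := by
  obtain ⟨hP, x0, x1, s, E, T0, T1, k0, k1, s0, s1, f⟩ := H
  unfold fA
  rcases hP with rfl | rfl | rfl
  · simp only [SR.cw] at T0 T1 k0 k1 s0 s1
    have hf := f.1 hx
    refine flat1 cP1A ?_ ?_ ?_ ?_ ?_ ?_ ?_ ?_ ?_ ?_ s <;>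
      first | linarith only [x0, hx, T0, T1, hf, s, k0, k1, s0, s1] | (push_cast; linarith)
  · simp only [SR.cw] at T0 T1 k0 k1 s0 s1
    have hf := f.1 hx
    refine flat1 cP2A ?_ ?_ ?_ ?_ ?_ ?_ ?_ ?_ ?_ ?_ s <;>
      first | linarith only [x0, hx, T0, T1, hf, s, k0, k1, s0, s1] | (push_cast; linarith)
  · simp only [SR.cw] at T0 T1 k0 k1 s0 s1
    have hf := f.1 hx
    have hE := E rfl
    refine flat1 cPEA ?_ ?_ ?_ ?_ ?_ ?_ ?_ ?_ ?_ ?_ s <;>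
      first | linarith only [x0, hx, T0, T1, hf, hE, k0, k1, s0, s1] | (push_cast; linarith)

/-- the side of the digit `1`, `.475 ≤ x ≤ .50` -/
theorem one_B (H : In1 P x T k κ) (hx0 : 475 / 1000 ≤ x) (hx : x ≤ 1 / 2) :
    MR.s1 0 x T k κ < fB x T := by
  obtain ⟨hP, x0, x1, s, E, T0, T1, k0, k1, s0, s1, f⟩ := H
  unfold fB
  rcases hP with rfl | rfl | rfl
  · simp only [SR.cw] at T0 T1 k0 k1 s0 s1
    have hf := f.2.1 hx
    refine flat1 cP1B ?_ ?_ ?_ ?_ ?_ ?_ ?_ ?_ ?_ ?_ s <;>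
      first | linarith only [hx0, hx, T0, T1, hf, s, k0, k1, s0, s1] | (push_cast; linarith)
  · simp only [SR.cw] at T0 T1 k0 k1 s0 s1
    have hf := f.2.1 hx
    refine flat1 cP2B ?_ ?_ ?_ ?_ ?_ ?_ ?_ ?_ ?_ ?_ s <;>
      first | linarith only [hx0, hx, T0, T1, hf, s, k0, k1, s0, s1] | (push_cast; linarith)
  · simp only [SR.cw] at T0 T1 k0 k1 s0 s1
    have hf := f.2.1 hx
    have hE := E rfl
    refine flat1 cPEB ?_ ?_ ?_ ?_ ?_ ?_ ?_ ?_ ?_ ?_ s <;>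
      first | linarith only [hx0, hx, T0, T1, hf, hE, k0, k1, s0, s1] | (push_cast; linarith)

/-- the side of the digit `1`, `.50 ≤ x ≤ .55` -/
theorem one_C (H : In1 P x T k κ) (hx0 : 1 / 2 ≤ x) (hx : x ≤ 55 / 100)
    (hh' : hh = T * (20 / 3 * (65 / 100 - x))) (hm : m = -(20 / 3 * T)) :
    MR.s1 m x hh k κ < fC x T := by
  obtain ⟨hP, x0, x1, s, E, T0, T1, k0, k1, s0, s1, f⟩ := H
  unfold fC
  rcases hP with rfl | rfl | rfl
  · simp only [SR.cw] at T0 T1 k0 k1 s0 s1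
    have hf := f.2.2.1 hx
    refine ramp1 cP1C ?_ ?_ ?_ ?_ ?_ ?_ ?_ ?_ ?_ ?_ s hh' hm <;>
      first | linarith only [hx0, hx, T0, T1, hf, s, k0, k1, s0, s1] | (push_cast; linarith)
  · simp only [SR.cw] at T0 T1 k0 k1 s0 s1
    have hf := f.2.2.1 hx
    refine ramp1 cP2C ?_ ?_ ?_ ?_ ?_ ?_ ?_ ?_ ?_ ?_ s hh' hm <;>
      first | linarith only [hx0, hx, T0, T1, hf, s, k0, k1, s0, s1] | (push_cast; linarith)
  · simp only [SR.cw] at T0 T1 k0 k1 s0 s1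
    have hf := f.2.2.1 hx
    have hE := E rfl
    refine ramp1 cPEC ?_ ?_ ?_ ?_ ?_ ?_ ?_ ?_ ?_ ?_ s hh' hm <;>
      first | linarith only [hx0, hx, T0, T1, hf, hE, k0, k1, s0, s1] | (push_cast; linarith)

/-- the side of the digit `1`, `.55 ≤ x` -/
theorem one_D (H : In1 P x T k κ) (hx0 : 55 / 100 ≤ x)
    (hh' : hh = T * (20 / 3 * (65 / 100 - x))) (hm : m = -(20 / 3 * T)) :
    MR.s1 m x hh k κ < fD x T := by
  obtain ⟨hP, x0, x1, s, E, T0, T1, k0, k1, s0, s1, f⟩ := H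
  unfold fD
  rcases hP with rfl | rfl | rfl
  · simp only [SR.cw] at T0 T1 k0 k1 s0 s1
    have hf := f.2.2.2
    refine ramp1 cP1D ?_ ?_ ?_ ?_ ?_ ?_ ?_ ?_ ?_ ?_ s hh' hm <;>
      first | linarith only [hx0, x1, T0, T1, hf, s, k0, k1, s0, s1] | (push_cast; linarith)
  · simp only [SR.cw] at T0 T1 k0 k1 s0 s1
    have hf := f.2.2.2
    refine ramp1 cP2D ?_ ?_ ?_ ?_ ?_ ?_ ?_ ?_ ?_ ?_ s hh' hm <;>
      first | linarith only [hx0, x1, T0, T1, hf, s, k0, k1, s0, s1] | (push_cast; linarith)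
  · simp only [SR.cw] at T0 T1 k0 k1 s0 s1
    have hf := f.2.2.2
    have hE := E rfl
    refine ramp1 cPED ?_ ?_ ?_ ?_ ?_ ?_ ?_ ?_ ?_ ?_ s hh' hm <;>
      first | linarith only [hx0, hE, T0, T1, hf, k0, k1, s0, s1] | (push_cast; linarith)

end HX

end Pool.Agent.Work.MP_b30479_gtS.G2

end
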