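import Pool.Agent.Work.MP_b30479_gt.TBS.G2.V3MidA
import Pool.Agent.Work.MP_b30479_gt.TBS.NumU.Node
import Pool.Agent.Work.MP_b30479_gt.TBS.NumU.Tree
import Pool.Agent.Work.MP_b30479_gt.TBS.G2.RMon

section

/-!
# Part of `V3MidRC`
-/
set_option linter.unusedSimpArgs false

namespace Pool.Agent.Work.MP_b30479_gtS.G2

open VOL NumUs

namespace VN

theorem val_q (n : ℤ) (xs : List ℝ) : (E.q n 10000).val xs = (n : ℝ) / 10000 := by
  simp only [E.val]
  push_cast
  ring

variable {x T w S t r y : ℝ}

theorem abs_cases {a b : ℝ} (h1 : 0 < a + Real.pi * (|b| - 1 * b))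
    (h2 : 0 < a + Real.pi * (|b| - (-1) * b)) : 0 < a := by
  rcases le_total 0 b with h | h
  · rw [abs_of_nonneg h] at h1
    have : Real.pi * (b - 1 * b) = 0 := by ring
    linarith only [h1]
  · rw [abs_of_nonpos h] at h2
    have : Real.pi * (-b - -1 * b) = 0 := by ring
    linarith only [h2]

theorem k0_NN_h1_q1 : chk [eD (E.q 6200 10000) (E.var 0) (E.q (-980) 10000) (E.q 1300 10000) (E.var 1) (E.var 2) (E.var 3)] 29
    (NumIs.setL 3 [NumIs.V.of 10000 1200 3300, NumIs.V.of 10000 (-980) 570,
        NumIs.V.of 10000 (-1230) 150, NumIs.V.of 10000 0 500]) = true := by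
  decide +kernel

theorem k0_NN_h1_q2 : chk [eD (E.q 6200 10000) (E.var 0) (E.q (-980) 10000) (E.q 1300 10000) (E.var 1) (E.var 2) (E.var 3)] 28
    (NumIs.setL 2 (NumIs.setR 3 [NumIs.V.of 10000 1200 3300, NumIs.V.of 10000 (-980) 570,
        NumIs.V.of 10000 (-1230) 150, NumIs.V.of 10000 0 500])) = true := by
  decide +kernel

theorem k0_NN_h1_q3 : chk [eD (E.q 6200 10000) (E.var 0) (E.q (-980) 10000) (E.q 1300 10000) (E.var 1) (E.var 2) (E.var 3)] 28
    (NumIs.setR 2 (NumIs.setR 3 [NumIs.V.of 10000 1200 3300, NumIs.V.of 10000 (-980) 570,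
        NumIs.V.of 10000 (-1230) 150, NumIs.V.of 10000 0 500])) = true := by
  decide +kernel

theorem k0_NN_h1 : chk [eD (E.q 6200 10000) (E.var 0) (E.q (-980) 10000) (E.q 1300 10000) (E.var 1) (E.var 2) (E.var 3)] 30
    [NumIs.V.of 10000 1200 3300, NumIs.V.of 10000 (-980) 570,
        NumIs.V.of 10000 (-1230) 150, NumIs.V.of 10000 0 500] = true :=
  NumUs.chk_node (i := 3) (by decide +kernel)
    k0_NN_h1_q1
    (NumUs.chk_node (i := 2) (by decide +kernel)
      k0_NN_h1_q2
      k0_NN_h1_q3)

theorem k0_1N_h1_q1 : chk [eD (E.q 6600 10000) (E.var 0) (E.q (-1145) 10000) (E.q 1300 10000) (E.var 1) (E.var 2) (E.var 3)] 28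
    (NumIs.setL 3 (NumIs.setL 0 [NumIs.V.of 10000 1200 4200, NumIs.V.of 10000 (-980) 570,
        NumIs.V.of 10000 (-920) 150, NumIs.V.of 10000 0 500])) = true := by
  decide +kernel

theorem k0_1N_h1_q2 : chk [eD (E.q 6600 10000) (E.var 0) (E.q (-1145) 10000) (E.q 1300 10000) (E.var 1) (E.var 2) (E.var 3)] 27
    (NumIs.setL 1 (NumIs.setR 3 (NumIs.setL 0 [NumIs.V.of 10000 1200 4200, NumIs.V.of 10000 (-980) 570,
        NumIs.V.of 10000 (-920) 150, NumIs.V.of 10000 0 500]))) = true := by
  decide +kernel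

theorem k0_1N_h1_q3 : chk [eD (E.q 6600 10000) (E.var 0) (E.q (-1145) 10000) (E.q 1300 10000) (E.var 1) (E.var 2) (E.var 3)] 27
    (NumIs.setR 1 (NumIs.setR 3 (NumIs.setL 0 [NumIs.V.of 10000 1200 4200, NumIs.V.of 10000 (-980) 570,
        NumIs.V.of 10000 (-920) 150, NumIs.V.of 10000 0 500]))) = true := by
  decide +kernel

theorem k0_1N_h1_q4 : chk [eD (E.q 6600 10000) (E.var 0) (E.q (-1145) 10000) (E.q 1300 10000) (E.var 1) (E.var 2) (E.var 3)] 28
    (NumIs.setL 3 (NumIs.setR 0 [NumIs.V.of 10000 1200 4200, NumIs.V.of 10000 (-980) 570,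
        NumIs.V.of 10000 (-920) 150, NumIs.V.of 10000 0 500])) = true := by
  decide +kernel

theorem k0_1N_h1_q5 : chk [eD (E.q 6600 10000) (E.var 0) (E.q (-1145) 10000) (E.q 1300 10000) (E.var 1) (E.var 2) (E.var 3)] 27
    (NumIs.setL 1 (NumIs.setR 3 (NumIs.setR 0 [NumIs.V.of 10000 1200 4200, NumIs.V.of 10000 (-980) 570,
        NumIs.V.of 10000 (-920) 150, NumIs.V.of 10000 0 500]))) = true := by
  decide +kernel

theorem k0_1N_h1_q6 : chk [eD (E.q 6600 10000) (E.var 0) (E.q (-1145) 10000) (E.q 1300 10000) (E.var 1) (E.var 2) (E.var 3)] 26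
    (NumIs.setL 0 (NumIs.setR 1 (NumIs.setR 3 (NumIs.setR 0 [NumIs.V.of 10000 1200 4200, NumIs.V.of 10000 (-980) 570,
        NumIs.V.of 10000 (-920) 150, NumIs.V.of 10000 0 500])))) = true := by
  decide +kernel

theorem k0_1N_h1_q7 : chk [eD (E.q 6600 10000) (E.var 0) (E.q (-1145) 10000) (E.q 1300 10000) (E.var 1) (E.var 2) (E.var 3)] 26
    (NumIs.setR 0 (NumIs.setR 1 (NumIs.setR 3 (NumIs.setR 0 [NumIs.V.of 10000 1200 4200, NumIs.V.of 10000 (-980) 570,
        NumIs.V.of 10000 (-920) 150, NumIs.V.of 10000 0 500])))) = true := by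
  decide +kernel

theorem k0_1N_h1 : chk [eD (E.q 6600 10000) (E.var 0) (E.q (-1145) 10000) (E.q 1300 10000) (E.var 1) (E.var 2) (E.var 3)] 30
    [NumIs.V.of 10000 1200 4200, NumIs.V.of 10000 (-980) 570,
        NumIs.V.of 10000 (-920) 150, NumIs.V.of 10000 0 500] = true :=
  NumUs.chk_node (i := 0) (by decide +kernel)
    (NumUs.chk_node (i := 3) (by decide +kernel)
      k0_1N_h1_q1
      (NumUs.chk_node (i := 1) (by decide +kernel)
        k0_1N_h1_q2
        k0_1N_h1_q3))
    (NumUs.chk_node (i := 3) (by decide +kernel)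
      k0_1N_h1_q4
      (NumUs.chk_node (i := 1) (by decide +kernel)
        k0_1N_h1_q5
        (NumUs.chk_node (i := 0) (by decide +kernel)
          k0_1N_h1_q6
          k0_1N_h1_q7)))

theorem k1_1N_h1_q1 : chk [eD' (E.q 6600 10000) (E.var 0) (E.q (-1145) 10000) (E.q 3100 10000) (E.var 1) (E.var 2) (E.var 3) 1] 29
    (NumIs.setL 1 [NumIs.V.of 10000 1200 4200, NumIs.V.of 10000 (-980) 570,
        NumIs.V.of 10000 (-920) 150, NumIs.V.of 10000 0 500]) = true := by
  decide +kernel

theorem k1_1N_h1_q2 : chk [eD' (E.q 6600 10000) (E.var 0) (E.q (-1145) 10000) (E.q 3100 10000) (E.var 1) (E.var 2) (E.var 3) 1] 28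
    (NumIs.setL 1 (NumIs.setR 1 [NumIs.V.of 10000 1200 4200, NumIs.V.of 10000 (-980) 570,
        NumIs.V.of 10000 (-920) 150, NumIs.V.of 10000 0 500])) = true := by
  decide +kernel

theorem k1_1N_h1_q3 : chk [eD' (E.q 6600 10000) (E.var 0) (E.q (-1145) 10000) (E.q 3100 10000) (E.var 1) (E.var 2) (E.var 3) 1] 28
    (NumIs.setR 1 (NumIs.setR 1 [NumIs.V.of 10000 1200 4200, NumIs.V.of 10000 (-980) 570,
        NumIs.V.of 10000 (-920) 150, NumIs.V.of 10000 0 500])) = true := by
  decide +kernel

theorem k1_1N_h1 : chk [eD' (E.q 6600 10000) (E.var 0) (E.q (-1145) 10000) (E.q 3100 10000) (E.var 1) (E.var 2) (E.var 3) 1] 30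
    [NumIs.V.of 10000 1200 4200, NumIs.V.of 10000 (-980) 570,
        NumIs.V.of 10000 (-920) 150, NumIs.V.of 10000 0 500] = true :=
  NumUs.chk_node (i := 1) (by decide +kernel)
    k1_1N_h1_q1
    (NumUs.chk_node (i := 1) (by decide +kernel)
      k1_1N_h1_q2
      k1_1N_h1_q3)

theorem k1_1N_h2_q1 : chk [eD' (E.q 6600 10000) (E.var 0) (E.q (-1145) 10000) (E.q 3100 10000) (E.var 1) (E.var 2) (E.var 3) (-1)] 28
    (NumIs.setL 3 (NumIs.setL 1 [NumIs.V.of 10000 1200 4200, NumIs.V.of 10000 (-980) 570,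
        NumIs.V.of 10000 (-920) 150, NumIs.V.of 10000 0 500])) = true := by
  decide +kernel

theorem k1_1N_h2_q2 : chk [eD' (E.q 6600 10000) (E.var 0) (E.q (-1145) 10000) (E.q 3100 10000) (E.var 1) (E.var 2) (E.var 3) (-1)] 28
    (NumIs.setR 3 (NumIs.setL 1 [NumIs.V.of 10000 1200 4200, NumIs.V.of 10000 (-980) 570,
        NumIs.V.of 10000 (-920) 150, NumIs.V.of 10000 0 500])) = true := by
  decide +kernel

theorem k1_1N_h2_q3 : chk [eD' (E.q 6600 10000) (E.var 0) (E.q (-1145) 10000) (E.q 3100 10000) (E.var 1) (E.var 2) (E.var 3) (-1)] 29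
    (NumIs.setR 1 [NumIs.V.of 10000 1200 4200, NumIs.V.of 10000 (-980) 570,
        NumIs.V.of 10000 (-920) 150, NumIs.V.of 10000 0 500]) = true := by
  decide +kernel

theorem k1_1N_h2 : chk [eD' (E.q 6600 10000) (E.var 0) (E.q (-1145) 10000) (E.q 3100 10000) (E.var 1) (E.var 2) (E.var 3) (-1)] 30
    [NumIs.V.of 10000 1200 4200, NumIs.V.of 10000 (-980) 570,
        NumIs.V.of 10000 (-920) 150, NumIs.V.of 10000 0 500] = true :=
  NumUs.chk_node (i := 1) (by decide +kernel)
    (NumUs.chk_node (i := 3) (by decide +kernel)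
      k1_1N_h2_q1
      k1_1N_h2_q2)
    k1_1N_h2_q3

end VN

end Pool.Agent.Work.MP_b30479_gtS.G2

end

section

/-!
# The left ramp of the hinge at slot `2` of an inner digit `3`: the inner variable on its right ramp

The side `SM` along the slope `-20 t` is negative.
-/

set_option linter.unusedSimpArgs false

namespace Pool.Agent.Work.MP_b30479_gtS.G2

open VOL NumUs

namespace VN

variable {u v w : ℂ} {T t r x μ : ℝ}

/-- the part with `u`, level part of the hinge -/
theorem sA1 (h1 : v.re = r) (h2 : v.im = 20 * t * (8 / 10 - r)) (hx : 700 / 10000 ≤ u.re)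
    (hx' : u.re ≤ 5000 / 10000) (hT : -1145 / 10000 ≤ u.im) (hT' : u.im ≤ 570 / 10000)
    (ht : -1250 / 10000 ≤ t) (ht' : t ≤ 50 / 10000) (hr : 75 / 100 ≤ r) (hr' : r ≤ 80 / 100) :
    GA (-(20 * t)) u v < 500 / 10000 := by
  have h : chkT [eGA (E.q (500) 10000) (E.var 0) (E.var 1) (E.var 2) (E.var 3)] 24
      4649046721869343568447748322026118669330503748824040623342472595486792553897730175059115178200334848
      [NumIs.V.of 10000 700 5000, NumIs.V.of 10000 (-1145) 570,
        NumIs.V.of 10000 (-1250) 50, NumIs.V.of 10000 0 500] = true := by decide +kernel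
  have hp := pos_of_chk (chkT4 h (by norm_num) (x := u.re) (y := u.im) (z := t)
    (w := 8 / 10 - r) (by push_cast; linarith only [hx]) (by push_cast; linarith only [hx']) (by push_cast; linarith only [hT])
    (by push_cast; linarith only [hT']) (by push_cast; linarith only [ht]) (by push_cast; linarith only [ht'])
    (by push_cast; linarith only [hr']) (by push_cast; linarith only [hr]))
  rw [eGA_val (t := t) (r := r) rfl rfl, val_q] at hp
  rw [GA_eq (by linarith only [h1, hx', hr]) (by linarith only [h1, hx, hr']), h1, h2]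
  simp only [E.val, NumIs.lkR] at hp
  push_cast at hp
  linarith only [hp]

/-- the part with `u`, right ramp of the hinge -/
theorem sA2 (h1 : v.re = r) (h2 : v.im = 20 * t * (8 / 10 - r)) (hx : 5000 / 10000 ≤ u.re)
    (hx' : u.re ≤ 6500 / 10000) (hu : u.im = T * ((65 / 100 - u.re) / (15 / 100)))
    (hT : -1145 / 10000 ≤ T) (hT' : T ≤ -210 / 10000) (ht : -1250 / 10000 ≤ t)
    (ht' : t ≤ -50 / 10000) (hr : 75 / 100 ≤ r) (hr' : r ≤ 80 / 100) :
    GA (-(20 * t)) u v < 3200 / 10000 := by
  have h : chkT [eGA (E.q (3200) 10000) (E.var 0) (E.mul (E.var 1) (E.mul (E.q 20 3)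
      (E.sub (E.q 65 100) (E.var 0)))) (E.var 2) (E.var 3)] 24
      12437047852249538659401768585641529161097864052768
      [NumIs.V.of 10000 5000 6500, NumIs.V.of 10000 (-1145) (-210),
        NumIs.V.of 10000 (-1250) (-50), NumIs.V.of 10000 0 500] = true := by decide +kernel
  have hp := pos_of_chk (chkT4 h (by norm_num) (x := u.re) (y := T) (z := t)
    (w := 8 / 10 - r) (by push_cast; linarith only [hx]) (by push_cast; linarith only [hx']) (by push_cast; linarith only [hT])
    (by push_cast; linarith only [hT']) (by push_cast; linarith only [ht]) (by push_cast; linarith only [ht'])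
    (by push_cast; linarith only [hr']) (by push_cast; linarith only [hr]))
  rw [eGA_val (t := t) (r := r) rfl rfl, val_q] at hp
  rw [GA_eq (by linarith only [h1, hx', hr]) (by linarith only [h1, hx, hr']), h1, h2]
  have e : (E.mul (E.var 1) (E.mul (E.q 20 3) (E.sub (E.q 65 100) (E.var 0)))).val
      [u.re, T, t, 8 / 10 - r] = u.im := by
    rw [hu]
    simp only [E.val, NumIs.lkR]
    push_cast
    ring
  rw [e] at hp
  simp only [E.val, NumIs.lkR] at hp
  push_cast at hp
  linarith only [hp]

/-- the part with `u`, right ramp of the hinge, near the end of the path of `v` -/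
theorem sA3 (h1 : v.re = r) (h2 : v.im = 20 * t * (8 / 10 - r)) (hx : 5000 / 10000 ≤ u.re)
    (hx' : u.re ≤ 6500 / 10000) (hu : u.im = T * ((65 / 100 - u.re) / (15 / 100)))
    (hT : -1145 / 10000 ≤ T) (hT' : T ≤ -210 / 10000) (ht : -1250 / 10000 ≤ t)
    (ht' : t ≤ 50 / 10000) (hr : 78 / 100 ≤ r) (hr' : r ≤ 80 / 100) :
    GA (-(20 * t)) u v < 4700 / 10000 := by
  have h : chkT [eGA (E.q (4700) 10000) (E.var 0) (E.mul (E.var 1) (E.mul (E.q 20 3)
      (E.sub (E.q 65 100) (E.var 0)))) (E.var 2) (E.var 3)] 24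
      10282999169481130886309920
      [NumIs.V.of 10000 5000 6500, NumIs.V.of 10000 (-1145) (-210),
        NumIs.V.of 10000 (-1250) 50, NumIs.V.of 10000 0 200] = true := by decide +kernel
  have hp := pos_of_chk (chkT4 h (by norm_num) (x := u.re) (y := T) (z := t)
    (w := 8 / 10 - r) (by push_cast; linarith only [hx]) (by push_cast; linarith only [hx']) (by push_cast; linarith only [hT])
    (by push_cast; linarith only [hT']) (by push_cast; linarith only [ht]) (by push_cast; linarith only [ht'])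
    (by push_cast; linarith only [hr']) (by push_cast; linarith only [hr]))
  rw [eGA_val (t := t) (r := r) rfl rfl, val_q] at hp
  rw [GA_eq (by linarith only [h1, hx', hr]) (by linarith only [h1, hx, hr']), h1, h2]
  have e : (E.mul (E.var 1) (E.mul (E.q 20 3) (E.sub (E.q 65 100) (E.var 0)))).val
      [u.re, T, t, 8 / 10 - r] = u.im := by
    rw [hu]
    simp only [E.val, NumIs.lkR]
    push_cast
    ring
  rw [e] at hp
  simp only [E.val, NumIs.lkR] at hp
  push_cast at hp
  linarith only [hp]

/-- bound minus the parts with `w` and without hinge; variables `x μ t s`, `v = 8 / 10 - s + 20 t s i`,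
`w = x + x μ i` -/
def eBC (b : E) : E :=
  E.add (eGB b (E.add (er (E.var 3)) (E.var 0)) (E.var 0) (E.mul (E.var 0) (E.var 1))
    (E.var 2) (E.var 3) (E.q 0 1)) (eGC (E.q 0 1) (E.var 2) (E.var 3))

theorem sBC {b x0 x1 m0 m1 t0 t1 s1 : ℤ} {c : ℕ} (h : chkT [eBC (E.q b 10000)] 24 c
      [NumIs.V.of 10000 x0 x1, NumIs.V.of 10000 m0 m1, NumIs.V.of 10000 t0 t1,
        NumIs.V.of 10000 0 s1] = true)
    (h1 : v.re = r) (h2 : v.im = 20 * t * (8 / 10 - r)) (h3 : w.re = x) (h4 : w.im = x * μ)
    (hx : (x0 : ℝ) / 10000 ≤ x) (hx' : x ≤ (x1 : ℝ) / 10000) (hx0 : 0 < x) (hx1 : x < 2 / 10)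
    (hm : (m0 : ℝ) / 10000 ≤ μ) (hm' : μ ≤ (m1 : ℝ) / 10000)
    (ht : (t0 : ℝ) / 10000 ≤ t) (ht' : t ≤ (t1 : ℝ) / 10000)
    (hr : 8 / 10 - (s1 : ℝ) / 10000 ≤ r) (hr' : r ≤ 80 / 100) (hr0 : 75 / 100 ≤ r) :
    GB (-(20 * t)) v w + GC (-(20 * t)) v < (b : ℝ) / 10000 := by
  have hp := pos_of_chk (chkT4 h (by norm_num) (x := x) (y := μ) (z := t)
    (w := 8 / 10 - r) (by push_cast; linarith only [hx]) (by push_cast; linarith only [hx']) (by push_cast; linarith only [hm])
    (by push_cast; linarith only [hm']) (by push_cast; linarith only [ht]) (by push_cast; linarith only [ht'])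
    (by push_cast; linarith only [hr']) (by push_cast; linarith only [hr]))
  unfold eBC at hp
  rw [E.val, eGB_val (t := t) (r := r) rfl rfl, eGC_val (t := t) (r := r) rfl rfl, val_q] at hp
  have hv : v ∈ strip := ⟨by linarith only [h1, hx0, hx1, hr0], by linarith only [h1, hx0, hx1, hr']⟩
  rw [GB_eq (by linarith only [h1, h3, hx0, hx1, hr0]) (by linarith only [h1, h3, hx1, hr'])]
  unfold GC
  rw [Num.LL_lnA hv, Num.YY_lnB hv, h1, h2, h3, h4]
  simp only [E.val, NumIs.lkR, er_val (r := r) (rfl : (E.var 3).val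
    [x, μ, t, 8 / 10 - r] = 8 / 10 - r)] at hp
  push_cast at hp
  norm_num at hp
  linarith only [hp]

theorem sBC_1 : chkT [eBC (E.q (-3300) 10000)] 24
      3076102030651675208963317014809462458880309574789836482974949981268230410363673571061326881692740343047446945807358444327387622663000731534036533253358871805937359143312967642998152115462016598330143740893320393743855071747
      [NumIs.V.of 10000 700 1500, NumIs.V.of 10000 (-7634) (-1400), NumIs.V.of 10000 (-1230) (-150),
        NumIs.V.of 10000 0 500] = true := by decide +kernel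

theorem sBC_2e : chkT [eBC (E.q (-3300) 10000)] 24
      3180972765244151673714869972079383586075552202105347
      [NumIs.V.of 10000 700 1300, NumIs.V.of 10000 (-7539) (-5846), NumIs.V.of 10000 (-950) (-50),
        NumIs.V.of 10000 0 500] = true := by decide +kernel

theorem sBC_r : chkT [eBC (E.q (-600) 10000)] 24
      82893469762224599177431158001921160184174585612158344068201816683925564633010900520704993785231205506282598928340574664728002148480971560157755032074957797806445856225082574808164071714920469033513627396093949276658537040994114895300747964121803693222374085620052767716841982445677533278243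
      [NumIs.V.of 10000 700 1300, NumIs.V.of 10000 (-4385) 4385, NumIs.V.of 10000 (-1160) 50,
        NumIs.V.of 10000 0 500] = true := by decide +kernel

theorem sBC_3e : chkT [eBC (E.q (-4800) 10000)] 24
      612915620857677858
      [NumIs.V.of 10000 1000 1100, NumIs.V.of 10000 (-2154) (-384), NumIs.V.of 10000 (-1160) 50,
        NumIs.V.of 10000 0 200] = true := by decide +kernel

/-- the hinge at slot `0`: between `7/100` and `65/100`, on its level part up to `1/2`, on its right
ramp beyond -/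
structure U65 (u : ℂ) : Prop where
  u0 : 7 / 100 ≤ u.re
  u1 : u.re ≤ 65 / 100
  lev : u.re ≤ 1 / 2 → -(1145 / 10000) ≤ u.im ∧ u.im ≤ 57 / 1000
  ramp : 1 / 2 < u.re → ∃ T : ℝ, u.im = T * ((65 / 100 - u.re) / (15 / 100)) ∧
    -(1145 / 10000) ≤ T ∧ T ≤ -(21 / 1000)

/-- the hinge at slot `0` at most `1/2` -/
structure U50 (u : ℂ) : Prop where
  u0 : 7 / 100 ≤ u.re
  u1 : u.re ≤ 1 / 2
  t0 : -(1145 / 10000) ≤ u.im
  t1 : u.im ≤ 57 / 1000

theorem U65.part (H : U65 u) (h1 : v.re = r) (h2 : v.im = 20 * t * (8 / 10 - r))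
    (ht : -1250 / 10000 ≤ t) (ht' : t ≤ -50 / 10000) (hr : 75 / 100 ≤ r) (hr' : r ≤ 80 / 100) :
    GA (-(20 * t)) u v < 3200 / 10000 := by
  rcases le_or_gt u.re (1 / 2) with h | h
  · obtain ⟨k1, k2⟩ := H.lev h
    have := sA1 (u := u) h1 h2 (by linarith only [H, H.u0]) (by linarith only [h]) (by linarith only [k1]) (by linarith only [k2]) ht
      (by linarith only [ht']) hr hr'
    linarith only [this]
  · obtain ⟨T, k1, k2, k3⟩ := H.ramp h
    exact sA2 h1 h2 (by linarith only [h]) (by linarith only [H, H.u1]) k1 (by linarith only [k2]) (by linarith only [k3]) ht ht' hr hr'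

theorem U65.part' (H : U65 u) (h1 : v.re = r) (h2 : v.im = 20 * t * (8 / 10 - r))
    (ht : -1250 / 10000 ≤ t) (ht' : t ≤ 50 / 10000) (hr : 78 / 100 ≤ r) (hr' : r ≤ 80 / 100) :
    GA (-(20 * t)) u v < 4700 / 10000 := by
  rcases le_or_gt u.re (1 / 2) with h | h
  · obtain ⟨k1, k2⟩ := H.lev h
    have := sA1 (u := u) h1 h2 (by linarith only [H, H.u0]) (by linarith only [h]) (by linarith only [k1]) (by linarith only [k2]) ht
      (by linarith only [ht']) (by linarith only [hr]) hr'
    linarith only [this]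
  · obtain ⟨T, k1, k2, k3⟩ := H.ramp h
    exact sA3 h1 h2 (by linarith only [h]) (by linarith only [H, H.u1]) k1 (by linarith only [k2]) (by linarith only [k3]) ht ht' hr hr'

/-- `K = 1` -/
theorem rr_1 (H : U65 u) (h1 : v.re = r) (h2 : v.im = 20 * t * (8 / 10 - r)) (h3 : w.re = x)
    (h4 : w.im = x * μ) (hx : 70 / 1000 ≤ x) (hx' : x ≤ 150 / 1000) (hm : -7634 / 10000 ≤ μ)
    (hm' : μ ≤ -1400 / 10000) (ht : -123 / 1000 ≤ t) (ht' : t ≤ -15 / 1000) (hr : 75 / 100 ≤ r)
    (hr' : r ≤ 80 / 100) : SM (-(20 * t)) u v w < 0 := by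
  have a := H.part h1 h2 (by linarith only [ht]) (by linarith only [ht']) hr hr'
  have c := sBC sBC_1 h1 h2 h3 h4 (by push_cast; linarith only [hx]) (by push_cast; linarith only [hx']) (by linarith only [hx])
    (by linarith only [hx']) (by push_cast; linarith only [hm]) (by push_cast; linarith only [hm']) (by push_cast; linarith only [ht])
    (by push_cast; linarith only [ht']) (by push_cast; linarith only [hr]) hr' hr
  push_cast at c
  rw [SM_split]
  linarith only [a, c]

/-- `K = 2e` -/
theorem rr_2e (H : U65 u) (h1 : v.re = r) (h2 : v.im = 20 * t * (8 / 10 - r)) (h3 : w.re = x)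
    (h4 : w.im = x * μ) (hx : 70 / 1000 ≤ x) (hx' : x ≤ 130 / 1000) (hm : -7539 / 10000 ≤ μ)
    (hm' : μ ≤ -5846 / 10000) (ht : -95 / 1000 ≤ t) (ht' : t ≤ -5 / 1000) (hr : 75 / 100 ≤ r)
    (hr' : r ≤ 80 / 100) : SM (-(20 * t)) u v w < 0 := by
  have a := H.part h1 h2 (by linarith only [ht]) (by linarith only [ht']) hr hr'
  have c := sBC sBC_2e h1 h2 h3 h4 (by push_cast; linarith only [hx]) (by push_cast; linarith only [hx']) (by linarith only [hx])
    (by linarith only [hx']) (by push_cast; linarith only [hm]) (by push_cast; linarith only [hm']) (by push_cast; linarith only [ht])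
    (by push_cast; linarith only [ht']) (by push_cast; linarith only [hr]) hr' hr
  push_cast at c
  rw [SM_split]
  linarith only [a, c]

/-- `K = 2, 3, 3e, Z`, hinge at slot `0` at most `1/2` -/
theorem rr_r (H : U50 u) (h1 : v.re = r) (h2 : v.im = 20 * t * (8 / 10 - r)) (h3 : w.re = x)
    (h4 : w.im = x * μ) (hx : 70 / 1000 ≤ x) (hx' : x ≤ 130 / 1000) (hm : -4385 / 10000 ≤ μ)
    (hm' : μ ≤ 4385 / 10000) (ht : -116 / 1000 ≤ t) (ht' : t ≤ 5 / 1000) (hr : 75 / 100 ≤ r)
    (hr' : r ≤ 80 / 100) : SM (-(20 * t)) u v w < 0 := by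
  have a := sA1 (u := u) h1 h2 (by linarith only [H, H.u0]) (by linarith only [H, H.u1]) (by linarith only [H, H.t0])
    (by linarith only [H, H.t1]) (by linarith only [ht]) (by linarith only [ht']) hr hr'
  have c := sBC sBC_r h1 h2 h3 h4 (by push_cast; linarith only [hx]) (by push_cast; linarith only [hx']) (by linarith only [hx])
    (by linarith only [hx']) (by push_cast; linarith only [hm]) (by push_cast; linarith only [hm']) (by push_cast; linarith only [ht])
    (by push_cast; linarith only [ht']) (by push_cast; linarith only [hr]) hr' hr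
  push_cast at c
  rw [SM_split]
  linarith only [a, c]

/-- `K = 3e`, near the end of the path of `v` -/
theorem rr_3e (H : U65 u) (h1 : v.re = r) (h2 : v.im = 20 * t * (8 / 10 - r)) (h3 : w.re = x)
    (h4 : w.im = x * μ) (hx : 100 / 1000 ≤ x) (hx' : x ≤ 110 / 1000) (hm : -2154 / 10000 ≤ μ)
    (hm' : μ ≤ -384 / 10000) (ht : -116 / 1000 ≤ t) (ht' : t ≤ 5 / 1000) (hr : 78 / 100 ≤ r)
    (hr' : r ≤ 80 / 100) : SM (-(20 * t)) u v w < 0 := by
  have a := H.part' h1 h2 (by linarith only [ht]) (by linarith only [ht']) hr hr'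
  have c := sBC sBC_3e h1 h2 h3 h4 (by push_cast; linarith only [hx]) (by push_cast; linarith only [hx']) (by linarith only [hx])
    (by linarith only [hx']) (by push_cast; linarith only [hm]) (by push_cast; linarith only [hm']) (by push_cast; linarith only [ht])
    (by push_cast; linarith only [ht']) (by push_cast; linarith only [hr]) hr' (by linarith only [hr])
  push_cast at c
  rw [SM_split]
  linarith only [a, c]

end VN

end Pool.Agent.Work.MP_b30479_gtS.G2

end

section

/-!
# Part of `V3MidRC`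
-/
set_option linter.unusedSimpArgs false

namespace Pool.Agent.Work.MP_b30479_gtS.G2

open VOL NumUs

namespace VN

variable {x T w S t r y : ℝ}

theorem k0_N1 (hx : 1200 / 10000 ≤ x) (hx' : x ≤ 3300 / 10000) (hS : -1145 / 10000 ≤ S) (hS' : S ≤ -210 / 10000) (ht : -1220 / 10000 ≤ t) (ht' : t ≤ 150 / 10000)
    (hr : 75 / 100 ≤ r) (hr' : r ≤ 80 / 100) :
    0 < FA (5400 / 10000) r t (20 * t * (8 / 10 - r)) x (-570 / 10000) +
      FB (5400 / 10000) r t (20 * t * (8 / 10 - r)) (1500 / 10000) S +
      FC (5400 / 10000) r t (20 * t * (8 / 10 - r)) := by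
  have h : chk [eD (E.q 5400 10000) (E.var 0) (E.q (-570) 10000) (E.q 1500 10000) (E.var 1) (E.var 2) (E.var 3)] 30
      [NumIs.V.of 10000 1200 3300, NumIs.V.of 10000 (-1145) (-210),
        NumIs.V.of 10000 (-1220) 150, NumIs.V.of 10000 0 500] = true := by decide +kernel
  have hp := pos_of_chk (chk4 h (by norm_num) (x := x) (y := S) (z := t) (w := 8 / 10 - r)
    (by push_cast; linarith only [hx]) (by push_cast; linarith only [hx']) (by push_cast; linarith only [hS])
    (by push_cast; linarith only [hS']) (by push_cast; linarith only [ht]) (by push_cast; linarith only [ht'])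
    (by push_cast; linarith only [hr']) (by push_cast; linarith only [hr]))
  rw [eD_val (t := t) (r := r) rfl rfl, val_q, val_q, val_q] at hp
  push_cast at hp
  simpa [E.val, NumIs.lkR] using hp

theorem k1_N1 (hx : 1200 / 10000 ≤ x) (hx' : x ≤ 3300 / 10000) (hS : -1145 / 10000 ≤ S) (hS' : S ≤ -210 / 10000) (ht : -1220 / 10000 ≤ t) (ht' : t ≤ 150 / 10000)
    (hr : 75 / 100 ≤ r) (hr' : r ≤ 80 / 100) :
    0 < FA (5400 / 10000) r t (20 * t * (8 / 10 - r)) x (-570 / 10000) +
      FB (5400 / 10000) r t (20 * t * (8 / 10 - r)) (3700 / 10000) S +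
      FC (5400 / 10000) r t (20 * t * (8 / 10 - r)) := by
  have h1 : chk [eD' (E.q 5400 10000) (E.var 0) (E.q (-570) 10000) (E.q 3700 10000) (E.var 1) (E.var 2) (E.var 3) 1] 30
      [NumIs.V.of 10000 1200 3300, NumIs.V.of 10000 (-1145) (-210),
        NumIs.V.of 10000 (-1220) 150, NumIs.V.of 10000 0 500] = true := by decide +kernel
  have h2 : chk [eD' (E.q 5400 10000) (E.var 0) (E.q (-570) 10000) (E.q 3700 10000) (E.var 1) (E.var 2) (E.var 3) (-1)] 30
      [NumIs.V.of 10000 1200 3300, NumIs.V.of 10000 (-1145) (-210),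
        NumIs.V.of 10000 (-1220) 150, NumIs.V.of 10000 0 500] = true := by decide +kernel
  have hp1 := pos_of_chk (chk4 h1 (by norm_num) (x := x) (y := S) (z := t) (w := 8 / 10 - r)
    (by push_cast; linarith only [hx]) (by push_cast; linarith only [hx']) (by push_cast; linarith only [hS])
    (by push_cast; linarith only [hS']) (by push_cast; linarith only [ht]) (by push_cast; linarith only [ht'])
    (by push_cast; linarith only [hr']) (by push_cast; linarith only [hr]))
  have hp2 := pos_of_chk (chk4 h2 (by norm_num) (x := x) (y := S) (z := t) (w := 8 / 10 - r)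
    (by push_cast; linarith only [hx]) (by push_cast; linarith only [hx']) (by push_cast; linarith only [hS])
    (by push_cast; linarith only [hS']) (by push_cast; linarith only [ht]) (by push_cast; linarith only [ht'])
    (by push_cast; linarith only [hr']) (by push_cast; linarith only [hr]))
  rw [eD'_val (t := t) (r := r) 1 rfl rfl, val_q, val_q, val_q] at hp1
  rw [eD'_val (t := t) (r := r) (-1) rfl rfl, val_q, val_q, val_q] at hp2
  exact abs_cases (by simpa [E.val, NumIs.lkR] using hp1) (by simpa [E.val, NumIs.lkR] using hp2)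

theorem kI_N1 (hx : 1200 / 10000 ≤ x) (hx' : x ≤ 3300 / 10000) (hy : -570 / 10000 ≤ y)
    (hy' : y ≤ 570 / 10000) (ht : -1220 / 10000 ≤ t) (ht' : t ≤ 150 / 10000)
    (hr : 75 / 100 ≤ r) (hr' : r ≤ 80 / 100) :
    0 < Real.pi * (r - 5400 / 10000) - NumIs.lnB (5400 / 10000 - x) (t - y) +
      NumIs.lnB (r - x) (20 * t * (8 / 10 - r) - y) := by
  have h : chk [eI (E.q 5400 10000) (E.var 0) (E.var 1) (E.var 2) (E.var 3)] 30
      [NumIs.V.of 10000 1200 3300, NumIs.V.of 10000 (-570) 570,
        NumIs.V.of 10000 (-1220) 150, NumIs.V.of 10000 0 500] = true := by decide +kernel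
  have hp := pos_of_chk (chk4 h (by norm_num) (x := x) (y := y) (z := t) (w := 8 / 10 - r)
    (by push_cast; linarith only [hx]) (by push_cast; linarith only [hx']) (by push_cast; linarith only [hy])
    (by push_cast; linarith only [hy']) (by push_cast; linarith only [ht]) (by push_cast; linarith only [ht'])
    (by push_cast; linarith only [hr']) (by push_cast; linarith only [hr]))
  rw [eI_val (t := t) (r := r) rfl rfl, val_q] at hp
  push_cast at hp
  simpa [E.val, NumIs.lkR] using hp

theorem kJ_N1 (hw : 1500 / 10000 ≤ w) (hw' : w < 1 - r) (hS : -1145 / 10000 ≤ S) (hS' : S ≤ -210 / 10000) (ht : -1220 / 10000 ≤ t) (ht' : t ≤ 150 / 10000)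
    (hr : 75 / 100 ≤ r) (hr' : r ≤ 80 / 100) :
    0 < Real.exp (2 * Real.pi * (t - 20 * t * (8 / 10 - r))) *
      (Real.cosh (2 * Real.pi * (t + S)) - Real.cos (2 * Real.pi * (5400 / 10000 + w))) -
      (Real.cosh (2 * Real.pi * (20 * t * (8 / 10 - r) + S)) -
        Real.cos (2 * Real.pi * (r + w))) := by
  have h : chk [eJ (E.q 5400 10000) (E.var 0) (E.var 1) (E.var 2) (E.var 3)] 30
      [NumIs.V.of 10000 1500 2500, NumIs.V.of 10000 (-1145) (-210),
        NumIs.V.of 10000 (-1220) 150, NumIs.V.of 10000 0 500] = true := by decide +kernel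
  have hp := pos_of_chk (chk4 h (by norm_num) (x := w) (y := S) (z := t) (w := 8 / 10 - r)
    (by push_cast; linarith only [hw]) (by push_cast; linarith only [hw', hr]) (by push_cast; linarith only [hS])
    (by push_cast; linarith only [hS']) (by push_cast; linarith only [ht]) (by push_cast; linarith only [ht'])
    (by push_cast; linarith only [hr']) (by push_cast; linarith only [hr]))
  rw [eJ_val (t := t) (r := r) rfl rfl, val_q] at hp
  push_cast at hp
  simpa [E.val, NumIs.lkR] using hp

theorem k0_NN (hx : 1200 / 10000 ≤ x) (hx' : x ≤ 3300 / 10000) (hS : -980 / 10000 ≤ S) (hS' : S ≤ 570 / 10000) (ht : -1230 / 10000 ≤ t) (ht' : t ≤ 150 / 10000)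
    (hr : 75 / 100 ≤ r) (hr' : r ≤ 80 / 100) :
    0 < FA (6200 / 10000) r t (20 * t * (8 / 10 - r)) x (-980 / 10000) +
      FB (6200 / 10000) r t (20 * t * (8 / 10 - r)) (1300 / 10000) S +
      FC (6200 / 10000) r t (20 * t * (8 / 10 - r)) := by
  have h : chk [eD (E.q 6200 10000) (E.var 0) (E.q (-980) 10000) (E.q 1300 10000) (E.var 1) (E.var 2) (E.var 3)] 30
      [NumIs.V.of 10000 1200 3300, NumIs.V.of 10000 (-980) 570,
        NumIs.V.of 10000 (-1230) 150, NumIs.V.of 10000 0 500] = true := k0_NN_h1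
  have hp := pos_of_chk (chk4 h (by norm_num) (x := x) (y := S) (z := t) (w := 8 / 10 - r)
    (by push_cast; linarith only [hx]) (by push_cast; linarith only [hx']) (by push_cast; linarith only [hS])
    (by push_cast; linarith only [hS']) (by push_cast; linarith only [ht]) (by push_cast; linarith only [ht'])
    (by push_cast; linarith only [hr']) (by push_cast; linarith only [hr]))
  rw [eD_val (t := t) (r := r) rfl rfl, val_q, val_q, val_q] at hp
  push_cast at hp
  simpa [E.val, NumIs.lkR] using hp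

end VN

end Pool.Agent.Work.MP_b30479_gtS.G2

end

section

/-!
# Part of `V3MidRC`
-/
set_option linter.unusedSimpArgs false

namespace Pool.Agent.Work.MP_b30479_gtS.G2

open VOL NumUs

namespace VN

variable {x T w S t r y : ℝ}

theorem k1_NN (hx : 1200 / 10000 ≤ x) (hx' : x ≤ 3300 / 10000) (hS : -980 / 10000 ≤ S) (hS' : S ≤ 570 / 10000) (ht : -1230 / 10000 ≤ t) (ht' : t ≤ 150 / 10000)
    (hr : 75 / 100 ≤ r) (hr' : r ≤ 80 / 100) :
    0 < FA (6200 / 10000) r t (20 * t * (8 / 10 - r)) x (-980 / 10000) +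
      FB (6200 / 10000) r t (20 * t * (8 / 10 - r)) (3100 / 10000) S +
      FC (6200 / 10000) r t (20 * t * (8 / 10 - r)) := by
  have h1 : chk [eD' (E.q 6200 10000) (E.var 0) (E.q (-980) 10000) (E.q 3100 10000) (E.var 1) (E.var 2) (E.var 3) 1] 30
      [NumIs.V.of 10000 1200 3300, NumIs.V.of 10000 (-980) 570,
        NumIs.V.of 10000 (-1230) 150, NumIs.V.of 10000 0 500] = true := by decide +kernel
  have h2 : chk [eD' (E.q 6200 10000) (E.var 0) (E.q (-980) 10000) (E.q 3100 10000) (E.var 1) (E.var 2) (E.var 3) (-1)] 30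
      [NumIs.V.of 10000 1200 3300, NumIs.V.of 10000 (-980) 570,
        NumIs.V.of 10000 (-1230) 150, NumIs.V.of 10000 0 500] = true := by decide +kernel
  have hp1 := pos_of_chk (chk4 h1 (by norm_num) (x := x) (y := S) (z := t) (w := 8 / 10 - r)
    (by push_cast; linarith only [hx]) (by push_cast; linarith only [hx']) (by push_cast; linarith only [hS])
    (by push_cast; linarith only [hS']) (by push_cast; linarith only [ht]) (by push_cast; linarith only [ht'])
    (by push_cast; linarith only [hr']) (by push_cast; linarith only [hr]))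
  have hp2 := pos_of_chk (chk4 h2 (by norm_num) (x := x) (y := S) (z := t) (w := 8 / 10 - r)
    (by push_cast; linarith only [hx]) (by push_cast; linarith only [hx']) (by push_cast; linarith only [hS])
    (by push_cast; linarith only [hS']) (by push_cast; linarith only [ht]) (by push_cast; linarith only [ht'])
    (by push_cast; linarith only [hr']) (by push_cast; linarith only [hr]))
  rw [eD'_val (t := t) (r := r) 1 rfl rfl, val_q, val_q, val_q] at hp1
  rw [eD'_val (t := t) (r := r) (-1) rfl rfl, val_q, val_q, val_q] at hp2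
  exact abs_cases (by simpa [E.val, NumIs.lkR] using hp1) (by simpa [E.val, NumIs.lkR] using hp2)

theorem kI_NN (hx : 1200 / 10000 ≤ x) (hx' : x ≤ 3300 / 10000) (hy : -980 / 10000 ≤ y)
    (hy' : y ≤ 570 / 10000) (ht : -1230 / 10000 ≤ t) (ht' : t ≤ 150 / 10000)
    (hr : 75 / 100 ≤ r) (hr' : r ≤ 80 / 100) :
    0 < Real.pi * (r - 6200 / 10000) - NumIs.lnB (6200 / 10000 - x) (t - y) +
      NumIs.lnB (r - x) (20 * t * (8 / 10 - r) - y) := by
  have h : chk [eI (E.q 6200 10000) (E.var 0) (E.var 1) (E.var 2) (E.var 3)] 30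
      [NumIs.V.of 10000 1200 3300, NumIs.V.of 10000 (-980) 570,
        NumIs.V.of 10000 (-1230) 150, NumIs.V.of 10000 0 500] = true := by decide +kernel
  have hp := pos_of_chk (chk4 h (by norm_num) (x := x) (y := y) (z := t) (w := 8 / 10 - r)
    (by push_cast; linarith only [hx]) (by push_cast; linarith only [hx']) (by push_cast; linarith only [hy])
    (by push_cast; linarith only [hy']) (by push_cast; linarith only [ht]) (by push_cast; linarith only [ht'])
    (by push_cast; linarith only [hr']) (by push_cast; linarith only [hr]))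
  rw [eI_val (t := t) (r := r) rfl rfl, val_q] at hp
  push_cast at hp
  simpa [E.val, NumIs.lkR] using hp

theorem kJ_NN (hw : 1300 / 10000 ≤ w) (hw' : w < 1 - r) (hS : -980 / 10000 ≤ S) (hS' : S ≤ 570 / 10000) (ht : -1230 / 10000 ≤ t) (ht' : t ≤ 150 / 10000)
    (hr : 75 / 100 ≤ r) (hr' : r ≤ 80 / 100) :
    0 < Real.exp (2 * Real.pi * (t - 20 * t * (8 / 10 - r))) *
      (Real.cosh (2 * Real.pi * (t + S)) - Real.cos (2 * Real.pi * (6200 / 10000 + w))) -
      (Real.cosh (2 * Real.pi * (20 * t * (8 / 10 - r) + S)) -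
        Real.cos (2 * Real.pi * (r + w))) := by
  have h : chk [eJ (E.q 6200 10000) (E.var 0) (E.var 1) (E.var 2) (E.var 3)] 30
      [NumIs.V.of 10000 1300 2500, NumIs.V.of 10000 (-980) 570,
        NumIs.V.of 10000 (-1230) 150, NumIs.V.of 10000 0 500] = true := by decide +kernel
  have hp := pos_of_chk (chk4 h (by norm_num) (x := w) (y := S) (z := t) (w := 8 / 10 - r)
    (by push_cast; linarith only [hw]) (by push_cast; linarith only [hw', hr]) (by push_cast; linarith only [hS])
    (by push_cast; linarith only [hS']) (by push_cast; linarith only [ht]) (by push_cast; linarith only [ht'])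
    (by push_cast; linarith only [hr']) (by push_cast; linarith only [hr]))
  rw [eJ_val (t := t) (r := r) rfl rfl, val_q] at hp
  push_cast at hp
  simpa [E.val, NumIs.lkR] using hp

end VN

end Pool.Agent.Work.MP_b30479_gtS.G2

end

section

/-!
# Part of `V3MidRC`
-/
set_option linter.unusedSimpArgs false

namespace Pool.Agent.Work.MP_b30479_gtS.G2

open VOL NumUs

namespace VN

variable {x T w S t r y : ℝ}

theorem kI_1N (hx : 1200 / 10000 ≤ x) (hx' : x ≤ 4200 / 10000) (hy : -1145 / 10000 ≤ y)
    (hy' : y ≤ -210 / 10000) (ht : -920 / 10000 ≤ t) (ht' : t ≤ 150 / 10000)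
    (hr : 75 / 100 ≤ r) (hr' : r ≤ 80 / 100) :
    0 < Real.pi * (r - 6600 / 10000) - NumIs.lnB (6600 / 10000 - x) (t - y) +
      NumIs.lnB (r - x) (20 * t * (8 / 10 - r) - y) := by
  have h : chk [eI (E.q 6600 10000) (E.var 0) (E.var 1) (E.var 2) (E.var 3)] 30
      [NumIs.V.of 10000 1200 4200, NumIs.V.of 10000 (-1145) (-210),
        NumIs.V.of 10000 (-920) 150, NumIs.V.of 10000 0 500] = true := by decide +kernel
  have hp := pos_of_chk (chk4 h (by norm_num) (x := x) (y := y) (z := t) (w := 8 / 10 - r)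
    (by push_cast; linarith only [hx]) (by push_cast; linarith only [hx']) (by push_cast; linarith only [hy])
    (by push_cast; linarith only [hy']) (by push_cast; linarith only [ht]) (by push_cast; linarith only [ht'])
    (by push_cast; linarith only [hr']) (by push_cast; linarith only [hr]))
  rw [eI_val (t := t) (r := r) rfl rfl, val_q] at hp
  push_cast at hp
  simpa [E.val, NumIs.lkR] using hp

theorem kJ_1N (hw : 1300 / 10000 ≤ w) (hw' : w < 1 - r) (hS : -980 / 10000 ≤ S) (hS' : S ≤ 570 / 10000) (ht : -920 / 10000 ≤ t) (ht' : t ≤ 150 / 10000)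
    (hr : 75 / 100 ≤ r) (hr' : r ≤ 80 / 100) :
    0 < Real.exp (2 * Real.pi * (t - 20 * t * (8 / 10 - r))) *
      (Real.cosh (2 * Real.pi * (t + S)) - Real.cos (2 * Real.pi * (6600 / 10000 + w))) -
      (Real.cosh (2 * Real.pi * (20 * t * (8 / 10 - r) + S)) -
        Real.cos (2 * Real.pi * (r + w))) := by
  have h : chk [eJ (E.q 6600 10000) (E.var 0) (E.var 1) (E.var 2) (E.var 3),
      E.sub (E.sub (E.var 0) (E.q 2 10)) (E.var 3)] 30
      [NumIs.V.of 10000 1300 2500, NumIs.V.of 10000 (-980) 570,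
        NumIs.V.of 10000 (-920) 150, NumIs.V.of 10000 0 500] = true := by decide +kernel
  obtain ⟨e, he, hp⟩ := chk4 h (by norm_num) (x := w) (y := S) (z := t) (w := 8 / 10 - r)
    (by push_cast; linarith only [hw]) (by push_cast; linarith only [hw', hr]) (by push_cast; linarith only [hS])
    (by push_cast; linarith only [hS']) (by push_cast; linarith only [ht]) (by push_cast; linarith only [ht'])
    (by push_cast; linarith only [hr']) (by push_cast; linarith only [hr])
  simp only [List.mem_cons, List.mem_nil_iff, or_false] at he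
  rcases he with rfl | rfl
  · rw [eJ_val (t := t) (r := r) rfl rfl, val_q] at hp
    push_cast at hp
    simpa [E.val, NumIs.lkR] using hp
  · exfalso
    simp only [E.val, NumIs.lkR] at hp
    push_cast at hp
    linarith only [hw', hp]

end VN

end Pool.Agent.Work.MP_b30479_gtS.G2

end

section

/-!
# The inner variable of an inner digit `3` on its right ramp: certificates of the first order rows
-/

set_option linter.unusedSimpArgs false

namespace Pool.Agent.Work.MP_b30479_gtS.G2

open VOL NumUs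

namespace VN

variable {u v w : ℂ} {T t r : ℝ}

theorem ht_neg {s : ℝ} (ht : t ≤ 0) (hs : s < 0) (hr : r ≤ 80 / 100) :
    20 * t * (8 / 10 - r) + s < 0 := by
  have : t * (8 / 10 - r) ≤ 0 := mul_nonpos_of_nonpos_of_nonneg ht (by linarith only [hr])
  linarith only [hs, this]

/-! ### 11 -/

theorem gC_11 (h1 : v.re = r) (h2 : v.im = 20 * t * (8 / 10 - r)) (ht : -950 / 10000 ≤ t) (ht' : t ≤ -80 / 10000)
    (hr : 75 / 100 ≤ r) (hr' : r ≤ 80 / 100) :
    GC (-(20 * t)) v < -1600 / 10000 := by
  have h : chk [eGC (E.q (-1600) 10000) (E.var 0) (E.var 1)] 20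
      [NumIs.V.of 10000 (-950) (-80), NumIs.V.of 10000 0 500] = true := by decide +kernel
  have hp := pos_of_chk (chk2 h (by norm_num) (x := t) (y := 8 / 10 - r) (by push_cast; linarith only [ht])
    (by push_cast; linarith only [ht']) (by push_cast; linarith only [hr']) (by push_cast; linarith only [hr]))
  rw [eGC_val (t := t) (r := r) rfl rfl, val_q] at hp
  have hv : v ∈ strip := ⟨by linarith only [h1, hr], by linarith only [h1, hr']⟩
  unfold GC
  rw [Num.LL_lnA hv, Num.YY_lnB hv, h1, h2]
  push_cast at hp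
  linarith only [hp]

theorem gA_11 (h1 : v.re = r) (h2 : v.im = 20 * t * (8 / 10 - r)) (hx : 1200 / 10000 ≤ u.re) (hx' : u.re ≤ 5000 / 10000)
    (hT : -1145 / 10000 ≤ u.im) (hT' : u.im ≤ -210 / 10000) (ht : -950 / 10000 ≤ t) (ht' : t ≤ -80 / 10000)
    (hr : 75 / 100 ≤ r) (hr' : r ≤ 80 / 100) :
    GA (-(20 * t)) u v < 3300 / 10000 := by
  have h : chk [eGA (E.q (3300) 10000) (E.var 0) (E.var 1) (E.var 2) (E.var 3)] 24
      [NumIs.V.of 10000 1200 5000, NumIs.V.of 10000 (-1145) (-210),
        NumIs.V.of 10000 (-950) (-80), NumIs.V.of 10000 0 500] = true := by decide +kernel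
  have hp := pos_of_chk (chk4 h (by norm_num) (x := u.re) (y := u.im) (z := t)
    (w := 8 / 10 - r) (by push_cast; linarith only [hx]) (by push_cast; linarith only [hx']) (by push_cast; linarith only [hT])
    (by push_cast; linarith only [hT']) (by push_cast; linarith only [ht]) (by push_cast; linarith only [ht'])
    (by push_cast; linarith only [hr']) (by push_cast; linarith only [hr]))
  rw [eGA_val (t := t) (r := r) rfl rfl, val_q] at hp
  rw [GA_eq (by linarith only [h1, hx', hr]) (by linarith only [h1, hx, hr']), h1, h2]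
  simp only [E.val, NumIs.lkR] at hp
  push_cast at hp
  linarith only [hp]

theorem gA'_11 (h1 : v.re = r) (h2 : v.im = 20 * t * (8 / 10 - r)) (hx : 5000 / 10000 ≤ u.re) (hx' : u.re ≤ 6500 / 10000)
    (hu : u.im = T * ((65 / 100 - u.re) / (15 / 100)))
    (hT : -1145 / 10000 ≤ T) (hT' : T ≤ -210 / 10000) (ht : -950 / 10000 ≤ t) (ht' : t ≤ -80 / 10000)
    (hr : 75 / 100 ≤ r) (hr' : r ≤ 80 / 100) :
    GA (-(20 * t)) u v < 3300 / 10000 := by
  have h : chk [eGA (E.q (3300) 10000) (E.var 0) (E.mul (E.var 1) (E.mul (E.q 20 3)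
      (E.sub (E.q 65 100) (E.var 0)))) (E.var 2) (E.var 3)] 24
      [NumIs.V.of 10000 5000 6500, NumIs.V.of 10000 (-1145) (-210),
        NumIs.V.of 10000 (-950) (-80), NumIs.V.of 10000 0 500] = true := by decide +kernel
  have hp := pos_of_chk (chk4 h (by norm_num) (x := u.re) (y := T) (z := t)
    (w := 8 / 10 - r) (by push_cast; linarith only [hx]) (by push_cast; linarith only [hx']) (by push_cast; linarith only [hT])
    (by push_cast; linarith only [hT']) (by push_cast; linarith only [ht]) (by push_cast; linarith only [ht'])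
    (by push_cast; linarith only [hr']) (by push_cast; linarith only [hr]))
  rw [eGA_val (t := t) (r := r) rfl rfl, val_q] at hp
  rw [GA_eq (by linarith only [h1, hx', hr]) (by linarith only [h1, hx, hr']), h1, h2]
  have e : (E.mul (E.var 1) (E.mul (E.q 20 3) (E.sub (E.q 65 100) (E.var 0)))).val
      [u.re, T, t, 8 / 10 - r] = u.im := by
    rw [hu]
    simp only [E.val, NumIs.lkR]
    push_cast
    ring
  rw [e] at hp
  simp only [E.val, NumIs.lkR] at hp
  push_cast at hp
  linarith only [hp]

theorem gB1_11 (h1 : v.re = r) (h2 : v.im = 20 * t * (8 / 10 - r)) (hw : 1500 / 10000 ≤ w.re) (hp : v.re + w.re ≤ 9500 / 10000)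
    (hS : -1145 / 10000 ≤ w.im) (hS' : w.im ≤ -210 / 10000) (ht : -950 / 10000 ≤ t) (ht' : t ≤ -80 / 10000)
    (hr : 75 / 100 ≤ r) (hr' : r ≤ 80 / 100) :
    GB (-(20 * t)) v w < -1800 / 10000 := by
  have h : chk [eGB (E.q (-1800) 10000) (E.add (er (E.var 3)) (E.var 0)) (E.var 0) (E.var 1)
      (E.var 2) (E.var 3) (E.q 0 1), E.sub (E.add (er (E.var 3)) (E.var 0)) (E.q 9500 10000)] 24
      [NumIs.V.of 10000 1500 2000, NumIs.V.of 10000 (-1145) (-210),
        NumIs.V.of 10000 (-950) (-80), NumIs.V.of 10000 0 500] = true := by decide +kernel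
  obtain ⟨e, he, hp'⟩ := chk4 h (by norm_num) (x := w.re) (y := w.im) (z := t)
    (w := 8 / 10 - r) (by push_cast; linarith only [hw]) (by push_cast; linarith only [h1, hp, hr]) (by push_cast; linarith only [hS])
    (by push_cast; linarith only [hS']) (by push_cast; linarith only [ht]) (by push_cast; linarith only [ht'])
    (by push_cast; linarith only [h1, hw, hp]) (by push_cast; linarith only [hr])
  simp only [List.mem_cons, List.mem_nil_iff, or_false] at he
  rcases he with rfl | rfl
  · rw [eGB_val (t := t) (r := r) rfl rfl, val_q] at hp'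
    rw [GB_eq (by linarith only [h1, hw, hr]) (by linarith only [hp]), h1, h2]
    simp only [E.val, NumIs.lkR, er_val (r := r) (rfl : (E.var 3).val
      [w.re, w.im, t, 8 / 10 - r] = 8 / 10 - r)] at hp'
    push_cast at hp'
    linarith only [hp']
  · exfalso
    simp only [E.val, NumIs.lkR, er_val (r := r) (rfl : (E.var 3).val
      [w.re, w.im, t, 8 / 10 - r] = 8 / 10 - r)] at hp'
    push_cast at hp'
    linarith only [h1, hp, hp']

theorem gB2_11 (h1 : v.re = r) (h2 : v.im = 20 * t * (8 / 10 - r)) (hp : 9500 / 10000 ≤ v.re + w.re) (hp' : v.re + w.re ≤ 10500 / 10000)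
    (hS : -1145 / 10000 ≤ w.im) (hS' : w.im ≤ -210 / 10000) (ht : -950 / 10000 ≤ t) (ht' : t ≤ -80 / 10000)
    (hr : 75 / 100 ≤ r) (hr' : r ≤ 80 / 100) :
    GB (-(20 * t)) v w < -1800 / 10000 := by
  have h : chk [eGB (E.q (-1800) 10000) (E.q 9500 10000) (E.var 0) (E.var 1)
      (E.var 2) (E.var 3) (E.q 0 1), E.sub (E.add (er (E.var 3)) (E.var 0)) (E.q 10500 10000),
      E.sub (E.q 9500 10000) (E.add (er (E.var 3)) (E.var 0))] 24
      [NumIs.V.of 10000 1500 3000, NumIs.V.of 10000 (-1145) (-210),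
        NumIs.V.of 10000 (-950) (-80), NumIs.V.of 10000 0 500] = true := by decide +kernel
  obtain ⟨e, he, hp2⟩ := chk4 h (by norm_num) (x := w.re) (y := w.im) (z := t)
    (w := 8 / 10 - r) (by push_cast; linarith only [h1, hp, hr']) (by push_cast; linarith only [h1, hp', hr]) (by push_cast; linarith only [hS])
    (by push_cast; linarith only [hS']) (by push_cast; linarith only [ht]) (by push_cast; linarith only [ht'])
    (by push_cast; linarith only [hr']) (by push_cast; linarith only [hr])
  simp only [List.mem_cons, List.mem_nil_iff, or_false] at he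
  rcases he with rfl | rfl | rfl
  · rw [eGB_val (t := t) (r := r) rfl rfl, val_q, val_q] at hp2
    have hi : v.im + w.im < 0 := by
      rw [h2]
      exact ht_neg (by linarith only [ht']) (by linarith only [hS']) hr'
    have := GB_le (m := -(20 * t)) (p := 9500 / 10000) (v := v) (w := w) (by linarith only [ht']) (by norm_num)
      (by norm_num) hp (by linarith only [hp']) hi
    rw [h2] at this
    simp only [E.val, NumIs.lkR] at hp2
    push_cast at hp2
    linarith only [this, hp2]
  · exfalso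
    simp only [E.val, NumIs.lkR, er_val (r := r) (rfl : (E.var 3).val
      [w.re, w.im, t, 8 / 10 - r] = 8 / 10 - r)] at hp2
    push_cast at hp2
    linarith only [h1, hp', hp2]
  · exfalso
    simp only [E.val, NumIs.lkR, er_val (r := r) (rfl : (E.var 3).val
      [w.re, w.im, t, 8 / 10 - r] = 8 / 10 - r)] at hp2
    push_cast at hp2
    linarith only [h1, hp, hp2]

theorem gB3_11 (h1 : v.re = r) (h2 : v.im = 20 * t * (8 / 10 - r)) (hw' : w.re ≤ 3700 / 10000) (hp : 10500 / 10000 ≤ v.re + w.re)
    (hS : -1145 / 10000 ≤ w.im) (hS' : w.im ≤ -210 / 10000) (ht : -950 / 10000 ≤ t) (ht' : t ≤ -80 / 10000)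
    (hr : 75 / 100 ≤ r) (hr' : r ≤ 80 / 100) :
    GB (-(20 * t)) v w < -1800 / 10000 := by
  have h : chk [eGB (E.q (-1800) 10000) (E.sub (E.add (er (E.var 3)) (E.var 0)) (E.q 1 1))
      (E.var 0) (E.var 1) (E.var 2) (E.var 3) (E.q 1 1),
      E.sub (E.q 10500 10000) (E.add (er (E.var 3)) (E.var 0))] 24
      [NumIs.V.of 10000 2500 3700, NumIs.V.of 10000 (-1145) (-210),
        NumIs.V.of 10000 (-950) (-80), NumIs.V.of 10000 0 500] = true := by decide +kernel
  obtain ⟨e, he, hp2⟩ := chk4 h (by norm_num) (x := w.re) (y := w.im) (z := t)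
    (w := 8 / 10 - r) (by push_cast; linarith only [h1, hp, hr']) (by push_cast; linarith only [hw']) (by push_cast; linarith only [hS])
    (by push_cast; linarith only [hS']) (by push_cast; linarith only [ht]) (by push_cast; linarith only [ht'])
    (by push_cast; linarith only [hr']) (by push_cast; linarith only [hr])
  simp only [List.mem_cons, List.mem_nil_iff, or_false] at he
  rcases he with rfl | rfl
  · rw [eGB_val (t := t) (r := r) rfl rfl, val_q] at hp2
    have hi : v.im + w.im < 0 := by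
      rw [h2]
      exact ht_neg (by linarith only [ht']) (by linarith only [hS']) hr'
    rw [GB_eq' (by linarith only [hp]) (by linarith only [h1, hw', hr']) hi, h1, h2]
    simp only [E.val, NumIs.lkR, er_val (r := r) (rfl : (E.var 3).val
      [w.re, w.im, t, 8 / 10 - r] = 8 / 10 - r)] at hp2
    push_cast at hp2
    rw [div_one, mul_one] at hp2
    linarith only [hp2]
  · exfalso
    simp only [E.val, NumIs.lkR, er_val (r := r) (rfl : (E.var 3).val
      [w.re, w.im, t, 8 / 10 - r] = 8 / 10 - r)] at hp2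
    push_cast at hp2
    linarith only [h1, hp, hp2]

theorem gB_11 (h1 : v.re = r) (h2 : v.im = 20 * t * (8 / 10 - r)) (hw : 1500 / 10000 ≤ w.re) (hw' : w.re ≤ 3700 / 10000)
    (hS : -1145 / 10000 ≤ w.im) (hS' : w.im ≤ -210 / 10000) (ht : -950 / 10000 ≤ t) (ht' : t ≤ -80 / 10000)
    (hr : 75 / 100 ≤ r) (hr' : r ≤ 80 / 100) :
    GB (-(20 * t)) v w < -1800 / 10000 := by
  rcases le_total (v.re + w.re) (9500 / 10000) with h | h
  · exact gB1_11 h1 h2 hw h hS hS' ht ht' hr hr'
  · rcases le_total (v.re + w.re) (10500 / 10000) with h' | h'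
    · exact gB2_11 h1 h2 h h' hS hS' ht ht' hr hr'
    · exact gB3_11 h1 h2 hw' h' hS hS' ht ht' hr hr'

/-! ### E1 -/

theorem gC_E1 (h1 : v.re = r) (h2 : v.im = 20 * t * (8 / 10 - r)) (ht : -1350 / 10000 ≤ t) (ht' : t ≤ -800 / 10000)
    (hr : 75 / 100 ≤ r) (hr' : r ≤ 80 / 100) :
    GC (-(20 * t)) v < -9000 / 10000 := by
  have h : chk [eGC (E.q (-9000) 10000) (E.var 0) (E.var 1)] 20
      [NumIs.V.of 10000 (-1350) (-800), NumIs.V.of 10000 0 500] = true := by decide +kernel
  have hp := pos_of_chk (chk2 h (by norm_num) (x := t) (y := 8 / 10 - r) (by push_cast; linarith only [ht])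
    (by push_cast; linarith only [ht']) (by push_cast; linarith only [hr']) (by push_cast; linarith only [hr]))
  rw [eGC_val (t := t) (r := r) rfl rfl, val_q] at hp
  have hv : v ∈ strip := ⟨by linarith only [h1, hr], by linarith only [h1, hr']⟩
  unfold GC
  rw [Num.LL_lnA hv, Num.YY_lnB hv, h1, h2]
  push_cast at hp
  linarith only [hp]

theorem gA_E1 (h1 : v.re = r) (h2 : v.im = 20 * t * (8 / 10 - r)) (hx : 1200 / 10000 ≤ u.re) (hx' : u.re ≤ 3300 / 10000)
    (hT : -980 / 10000 ≤ u.im) (hT' : u.im ≤ -760 / 10000) (ht : -1350 / 10000 ≤ t) (ht' : t ≤ -800 / 10000)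
    (hr : 75 / 100 ≤ r) (hr' : r ≤ 80 / 100) :
    GA (-(20 * t)) u v < -5000 / 10000 := by
  have h : chk [eGA (E.q (-5000) 10000) (E.var 0) (E.var 1) (E.var 2) (E.var 3)] 24
      [NumIs.V.of 10000 1200 3300, NumIs.V.of 10000 (-980) (-760),
        NumIs.V.of 10000 (-1350) (-800), NumIs.V.of 10000 0 500] = true := by decide +kernel
  have hp := pos_of_chk (chk4 h (by norm_num) (x := u.re) (y := u.im) (z := t)
    (w := 8 / 10 - r) (by push_cast; linarith only [hx]) (by push_cast; linarith only [hx']) (by push_cast; linarith only [hT])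
    (by push_cast; linarith only [hT']) (by push_cast; linarith only [ht]) (by push_cast; linarith only [ht'])
    (by push_cast; linarith only [hr']) (by push_cast; linarith only [hr]))
  rw [eGA_val (t := t) (r := r) rfl rfl, val_q] at hp
  rw [GA_eq (by linarith only [h1, hx', hr]) (by linarith only [h1, hx, hr']), h1, h2]
  simp only [E.val, NumIs.lkR] at hp
  push_cast at hp
  linarith only [hp]

theorem gB1_E1 (h1 : v.re = r) (h2 : v.im = 20 * t * (8 / 10 - r)) (hw : 1500 / 10000 ≤ w.re) (hp : v.re + w.re ≤ 9300 / 10000)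
    (hS : -1145 / 10000 ≤ w.im) (hS' : w.im ≤ -210 / 10000) (ht : -1350 / 10000 ≤ t) (ht' : t ≤ -800 / 10000)
    (hr : 75 / 100 ≤ r) (hr' : r ≤ 80 / 100) :
    GB (-(20 * t)) v w < 13000 / 10000 := by
  have h : chk [eGB (E.q (13000) 10000) (E.add (er (E.var 3)) (E.var 0)) (E.var 0) (E.var 1)
      (E.var 2) (E.var 3) (E.q 0 1), E.sub (E.add (er (E.var 3)) (E.var 0)) (E.q 9300 10000)] 24
      [NumIs.V.of 10000 1500 1800, NumIs.V.of 10000 (-1145) (-210),
        NumIs.V.of 10000 (-1350) (-800), NumIs.V.of 10000 0 500] = true := by decide +kernel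
  obtain ⟨e, he, hp'⟩ := chk4 h (by norm_num) (x := w.re) (y := w.im) (z := t)
    (w := 8 / 10 - r) (by push_cast; linarith only [hw]) (by push_cast; linarith only [h1, hp, hr]) (by push_cast; linarith only [hS])
    (by push_cast; linarith only [hS']) (by push_cast; linarith only [ht]) (by push_cast; linarith only [ht'])
    (by push_cast; linarith only [h1, hw, hp]) (by push_cast; linarith only [hr])
  simp only [List.mem_cons, List.mem_nil_iff, or_false] at he
  rcases he with rfl | rfl
  · rw [eGB_val (t := t) (r := r) rfl rfl, val_q] at hp'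
    rw [GB_eq (by linarith only [h1, hw, hr]) (by linarith only [hp]), h1, h2]
    simp only [E.val, NumIs.lkR, er_val (r := r) (rfl : (E.var 3).val
      [w.re, w.im, t, 8 / 10 - r] = 8 / 10 - r)] at hp'
    push_cast at hp'
    linarith only [hp']
  · exfalso
    simp only [E.val, NumIs.lkR, er_val (r := r) (rfl : (E.var 3).val
      [w.re, w.im, t, 8 / 10 - r] = 8 / 10 - r)] at hp'
    push_cast at hp'
    linarith only [h1, hp, hp']

theorem gB2_E1 (h1 : v.re = r) (h2 : v.im = 20 * t * (8 / 10 - r)) (hp : 9300 / 10000 ≤ v.re + w.re) (hp' : v.re + w.re ≤ 10700 / 10000)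
    (hS : -1145 / 10000 ≤ w.im) (hS' : w.im ≤ -210 / 10000) (ht : -1350 / 10000 ≤ t) (ht' : t ≤ -800 / 10000)
    (hr : 75 / 100 ≤ r) (hr' : r ≤ 80 / 100) :
    GB (-(20 * t)) v w < 13000 / 10000 := by
  have h : chk [eGB (E.q (13000) 10000) (E.q 9300 10000) (E.var 0) (E.var 1)
      (E.var 2) (E.var 3) (E.q 0 1), E.sub (E.add (er (E.var 3)) (E.var 0)) (E.q 10700 10000),
      E.sub (E.q 9300 10000) (E.add (er (E.var 3)) (E.var 0))] 24
      [NumIs.V.of 10000 1300 3200, NumIs.V.of 10000 (-1145) (-210),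
        NumIs.V.of 10000 (-1350) (-800), NumIs.V.of 10000 0 500] = true := by decide +kernel
  obtain ⟨e, he, hp2⟩ := chk4 h (by norm_num) (x := w.re) (y := w.im) (z := t)
    (w := 8 / 10 - r) (by push_cast; linarith only [h1, hp, hr']) (by push_cast; linarith only [h1, hp', hr]) (by push_cast; linarith only [hS])
    (by push_cast; linarith only [hS']) (by push_cast; linarith only [ht]) (by push_cast; linarith only [ht'])
    (by push_cast; linarith only [hr']) (by push_cast; linarith only [hr])
  simp only [List.mem_cons, List.mem_nil_iff, or_false] at he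
  rcases he with rfl | rfl | rfl
  · rw [eGB_val (t := t) (r := r) rfl rfl, val_q, val_q] at hp2
    have hi : v.im + w.im < 0 := by
      rw [h2]
      exact ht_neg (by linarith only [ht']) (by linarith only [hS']) hr'
    have := GB_le (m := -(20 * t)) (p := 9300 / 10000) (v := v) (w := w) (by linarith only [ht']) (by norm_num)
      (by norm_num) hp (by linarith only [hp']) hi
    rw [h2] at this
    simp only [E.val, NumIs.lkR] at hp2
    push_cast at hp2
    linarith only [this, hp2]
  · exfalso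
    simp only [E.val, NumIs.lkR, er_val (r := r) (rfl : (E.var 3).val
      [w.re, w.im, t, 8 / 10 - r] = 8 / 10 - r)] at hp2
    push_cast at hp2
    linarith only [h1, hp', hp2]
  · exfalso
    simp only [E.val, NumIs.lkR, er_val (r := r) (rfl : (E.var 3).val
      [w.re, w.im, t, 8 / 10 - r] = 8 / 10 - r)] at hp2
    push_cast at hp2
    linarith only [h1, hp, hp2]

theorem gB3_E1 (h1 : v.re = r) (h2 : v.im = 20 * t * (8 / 10 - r)) (hw' : w.re ≤ 3700 / 10000) (hp : 10700 / 10000 ≤ v.re + w.re)
    (hS : -1145 / 10000 ≤ w.im) (hS' : w.im ≤ -210 / 10000) (ht : -1350 / 10000 ≤ t) (ht' : t ≤ -800 / 10000)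
    (hr : 75 / 100 ≤ r) (hr' : r ≤ 80 / 100) :
    GB (-(20 * t)) v w < 13000 / 10000 := by
  have h : chk [eGB (E.q (13000) 10000) (E.sub (E.add (er (E.var 3)) (E.var 0)) (E.q 1 1))
      (E.var 0) (E.var 1) (E.var 2) (E.var 3) (E.q 1 1),
      E.sub (E.q 10700 10000) (E.add (er (E.var 3)) (E.var 0))] 24
      [NumIs.V.of 10000 2700 3700, NumIs.V.of 10000 (-1145) (-210),
        NumIs.V.of 10000 (-1350) (-800), NumIs.V.of 10000 0 500] = true := by decide +kernel
  obtain ⟨e, he, hp2⟩ := chk4 h (by norm_num) (x := w.re) (y := w.im) (z := t)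
    (w := 8 / 10 - r) (by push_cast; linarith only [h1, hp, hr']) (by push_cast; linarith only [hw']) (by push_cast; linarith only [hS])
    (by push_cast; linarith only [hS']) (by push_cast; linarith only [ht]) (by push_cast; linarith only [ht'])
    (by push_cast; linarith only [hr']) (by push_cast; linarith only [hr])
  simp only [List.mem_cons, List.mem_nil_iff, or_false] at he
  rcases he with rfl | rfl
  · rw [eGB_val (t := t) (r := r) rfl rfl, val_q] at hp2
    have hi : v.im + w.im < 0 := by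
      rw [h2]
      exact ht_neg (by linarith only [ht']) (by linarith only [hS']) hr'
    rw [GB_eq' (by linarith only [hp]) (by linarith only [h1, hw', hr']) hi, h1, h2]
    simp only [E.val, NumIs.lkR, er_val (r := r) (rfl : (E.var 3).val
      [w.re, w.im, t, 8 / 10 - r] = 8 / 10 - r)] at hp2
    push_cast at hp2
    rw [div_one, mul_one] at hp2
    linarith only [hp2]
  · exfalso
    simp only [E.val, NumIs.lkR, er_val (r := r) (rfl : (E.var 3).val
      [w.re, w.im, t, 8 / 10 - r] = 8 / 10 - r)] at hp2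
    push_cast at hp2
    linarith only [h1, hp, hp2]

theorem gB_E1 (h1 : v.re = r) (h2 : v.im = 20 * t * (8 / 10 - r)) (hw : 1500 / 10000 ≤ w.re) (hw' : w.re ≤ 3700 / 10000)
    (hS : -1145 / 10000 ≤ w.im) (hS' : w.im ≤ -210 / 10000) (ht : -1350 / 10000 ≤ t) (ht' : t ≤ -800 / 10000)
    (hr : 75 / 100 ≤ r) (hr' : r ≤ 80 / 100) :
    GB (-(20 * t)) v w < 13000 / 10000 := by
  rcases le_total (v.re + w.re) (9300 / 10000) with h | h
  · exact gB1_E1 h1 h2 hw h hS hS' ht ht' hr hr'
  · rcases le_total (v.re + w.re) (10700 / 10000) with h' | h'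
    · exact gB2_E1 h1 h2 h h' hS hS' ht ht' hr hr'
    · exact gB3_E1 h1 h2 hw' h' hS hS' ht ht' hr hr'

end VN

end Pool.Agent.Work.MP_b30479_gtS.G2

end

section

/-!
# The inner variable of an inner digit `3` next to a digit `1`, right ramp: certificates, values
-/

set_option linter.unusedSimpArgs false

namespace Pool.Agent.Work.MP_b30479_gtS.G2

open VOL NumUs

namespace VN

variable {x T w S t r q : ℝ}

theorem xA (hx : 42 / 100 ≤ x) (hx' : x ≤ 1 / 2) (hT : 21 / 1000 ≤ T) (hT' : T ≤ 1145 / 10000)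
    (ht : -82 / 1000 ≤ t) (ht' : t ≤ 5 / 1000) (hs : -40 / 1000 ≤ t + T) (hs' : t + T ≤ 84 / 1000)
    (hr : 75 / 100 ≤ r) (hr' : r ≤ 80 / 100) :
    0 < FA (66 / 100) r t (20 * t * (8 / 10 - r)) x (-T) +
      FC (66 / 100) r t (20 * t * (8 / 10 - r)) + vg t (8 / 10 - r) := by
  have h : chk [rA (E.q 66 100) (E.var 0) (E.neg (E.var 1)) (E.var 2) (E.var 3),
      E.sub (E.add (E.var 2) (E.var 1)) (E.q 840 10000),
      E.sub (E.q (-400) 10000) (E.add (E.var 2) (E.var 1))] 30
      [NumIs.V.of 10000 4200 5000, NumIs.V.of 10000 210 1145,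
        NumIs.V.of 10000 (-820) 50, NumIs.V.of 10000 0 500] = true := by decide +kernel
  obtain ⟨e, he, hp⟩ := chk4 h (by norm_num) (x := x) (y := T) (z := t) (w := 8 / 10 - r)
    (by push_cast; linarith only [hx]) (by push_cast; linarith only [hx']) (by push_cast; linarith only [hT])
    (by push_cast; linarith only [hT']) (by push_cast; linarith only [ht]) (by push_cast; linarith only [ht'])
    (by push_cast; linarith only [hr']) (by push_cast; linarith only [hr])
  simp only [List.mem_cons, List.mem_nil_iff, or_false] at he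
  rcases he with rfl | rfl | rfl
  · rw [rA_val (t := t) (r := r) rfl rfl] at hp
    simp only [E.val, NumIs.lkR] at hp
    push_cast at hp
    exact hp
  · simp only [E.val, NumIs.lkR] at hp
    push_cast at hp
    linarith only [hs', hp]
  · simp only [E.val, NumIs.lkR] at hp
    push_cast at hp
    linarith only [hs, hp]

theorem rhx_val (t s : ℝ) : (rhx (E.var 0) (E.var 1)).val [x, T, t, s] =
    -(T * (20 / 3 * (65 / 100 - x))) := by
  simp only [rhx, E.val, NumIs.lkR]
  push_cast
  ring

theorem xA' (hx : 1 / 2 ≤ x) (hx' : x ≤ 56 / 100) (hT : 21 / 1000 ≤ T) (hT' : T ≤ 1145 / 10000)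
    (ht : -82 / 1000 ≤ t) (ht' : t ≤ 5 / 1000) (hs : -40 / 1000 ≤ t + T) (hs' : t + T ≤ 84 / 1000)
    (hr : 75 / 100 ≤ r) (hr' : r ≤ 80 / 100) :
    0 < FA (66 / 100) r t (20 * t * (8 / 10 - r)) x (-(T * (20 / 3 * (65 / 100 - x)))) +
      FC (66 / 100) r t (20 * t * (8 / 10 - r)) + vg t (8 / 10 - r) := by
  have h : chk [rA (E.q 66 100) (E.var 0) (rhx (E.var 0) (E.var 1)) (E.var 2) (E.var 3),
      E.sub (E.add (E.var 2) (E.var 1)) (E.q 840 10000),
      E.sub (E.q (-400) 10000) (E.add (E.var 2) (E.var 1))] 30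
      [NumIs.V.of 10000 5000 5600, NumIs.V.of 10000 210 1145,
        NumIs.V.of 10000 (-820) 50, NumIs.V.of 10000 0 500] = true := by decide +kernel
  obtain ⟨e, he, hp⟩ := chk4 h (by norm_num) (x := x) (y := T) (z := t) (w := 8 / 10 - r)
    (by push_cast; linarith only [hx]) (by push_cast; linarith only [hx']) (by push_cast; linarith only [hT])
    (by push_cast; linarith only [hT']) (by push_cast; linarith only [ht]) (by push_cast; linarith only [ht'])
    (by push_cast; linarith only [hr']) (by push_cast; linarith only [hr])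
  simp only [List.mem_cons, List.mem_nil_iff, or_false] at he
  rcases he with rfl | rfl | rfl
  · rw [rA_val (t := t) (r := r) rfl rfl, rhx_val] at hp
    simp only [E.val, NumIs.lkR] at hp
    push_cast at hp
    exact hp
  · simp only [E.val, NumIs.lkR] at hp
    push_cast at hp
    linarith only [hs', hp]
  · simp only [E.val, NumIs.lkR] at hp
    push_cast at hp
    linarith only [hs, hp]

/-- `w = 96/100 - r` -/
theorem xB0 (ht : -82 / 1000 ≤ t) (ht' : t ≤ 5 / 1000) (hS : -98 / 1000 ≤ S)
    (hS' : S ≤ 57 / 1000) (hS0 : 0 < t → S ≤ 22 / 1000)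
    (hi : 0 ≤ 20 * t * (8 / 10 - r) + S ∨ 0 < t) (hr : 75 / 100 ≤ r) (hr' : r ≤ 80 / 100) :
    vg t (8 / 10 - r) < FB (66 / 100) r t (20 * t * (8 / 10 - r)) (96 / 100 - r) S := by
  have ev : (E.add (E.q 1600 10000) (E.var 2)).val [S, t, 8 / 10 - r] = 96 / 100 - r := by
    simp only [E.val, NumIs.lkR]
    push_cast
    ring
  rcases le_or_gt t 0 with h0 | h0
  · have h : chk [rB (E.q 66 100) (E.add (E.q 1600 10000) (E.var 2)) (E.var 0) (E.var 1) (E.var 2),
        E.neg (E.add (et (E.var 1) (E.var 2)) (E.var 0))] 30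
        [NumIs.V.of 10000 (-980) 570, NumIs.V.of 10000 (-820) 0, NumIs.V.of 10000 0 500] = true := by
      decide +kernel
    obtain ⟨e, he, hp⟩ := chk3 h (by norm_num) (x := S) (y := t) (z := 8 / 10 - r)
      (by push_cast; linarith only [hS]) (by push_cast; linarith only [hS']) (by push_cast; linarith only [ht])
      (by push_cast; linarith only [h0]) (by push_cast; linarith only [hr']) (by push_cast; linarith only [hr])
    simp only [List.mem_cons, List.mem_nil_iff, or_false] at he
    rcases he with rfl | rfl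
    · rw [rB_val (t := t) (r := r) rfl rfl, ev] at hp
      simp only [E.val, NumIs.lkR] at hp
      push_cast at hp
      linarith only [hp]
    · have h1 := hi.resolve_right (not_lt.2 h0)
      simp only [E.val, NumIs.lkR, et_val (t := t) (r := r) (rfl : (E.var 1).val
        [S, t, 8 / 10 - r] = t) (rfl : (E.var 2).val [S, t, 8 / 10 - r] = 8 / 10 - r)] at hp
      linarith only [h1, hp]
  · have hS2 := hS0 h0
    have h : chk [rB (E.q 66 100) (E.add (E.q 1600 10000) (E.var 2)) (E.var 0) (E.var 1)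
        (E.var 2)] 30
        [NumIs.V.of 10000 (-980) 220, NumIs.V.of 10000 0 50, NumIs.V.of 10000 0 500] = true := by
      decide +kernel
    have hp := pos_of_chk (chk3 h (by norm_num) (x := S) (y := t) (z := 8 / 10 - r)
      (by push_cast; linarith only [hS]) (by push_cast; linarith only [hS2]) (by push_cast; linarith only [h0])
      (by push_cast; linarith only [ht']) (by push_cast; linarith only [hr']) (by push_cast; linarith only [hr]))
    rw [rB_val (t := t) (r := r) rfl rfl, ev] at hp
    simp only [E.val, NumIs.lkR] at hp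
    push_cast at hp
    linarith only [hp]

/-- `w = 31/100` -/
theorem xB1 (ht : -82 / 1000 ≤ t) (ht' : t ≤ 5 / 1000) (hS : -98 / 1000 ≤ S)
    (hS' : S ≤ 57 / 1000) (hS0 : 0 < t → S ≤ 22 / 1000)
    (hi : 0 ≤ 20 * t * (8 / 10 - r) + S ∨ 0 < t) (hr : 75 / 100 ≤ r) (hr' : r ≤ 80 / 100) :
    vg t (8 / 10 - r) < FB (66 / 100) r t (20 * t * (8 / 10 - r)) (31 / 100) S := by
  rcases le_or_gt t 0 with h0 | h0
  · have h1 := hi.resolve_right (not_lt.2 h0)
    have h : chk [rB' (E.q 66 100) (E.q 31 100) (E.var 0) (E.var 1) (E.var 2) 1,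
        E.neg (E.add (et (E.var 1) (E.var 2)) (E.var 0))] 30
        [NumIs.V.of 10000 (-980) 570, NumIs.V.of 10000 (-820) 0, NumIs.V.of 10000 0 500] = true := by
      decide +kernel
    obtain ⟨e, he, hp⟩ := chk3 h (by norm_num) (x := S) (y := t) (z := 8 / 10 - r)
      (by push_cast; linarith only [hS]) (by push_cast; linarith only [hS']) (by push_cast; linarith only [ht])
      (by push_cast; linarith only [h0]) (by push_cast; linarith only [hr']) (by push_cast; linarith only [hr])
    simp only [List.mem_cons, List.mem_nil_iff, or_false] at he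
    rcases he with rfl | rfl
    · rw [rB'_val (t := t) (r := r) 1 rfl rfl] at hp
      simp only [E.val, NumIs.lkR] at hp
      rw [abs_of_nonneg h1] at hp
      push_cast at hp
      rw [one_mul, sub_self, mul_zero, add_zero] at hp
      linarith only [hp]
    · simp only [E.val, NumIs.lkR, et_val (t := t) (r := r) (rfl : (E.var 1).val
        [S, t, 8 / 10 - r] = t) (rfl : (E.var 2).val [S, t, 8 / 10 - r] = 8 / 10 - r)] at hp
      linarith only [h1, hp]
  · have hS2 := hS0 h0
    have h1 : chk [rB' (E.q 66 100) (E.q 31 100) (E.var 0) (E.var 1) (E.var 2) 1] 30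
        [NumIs.V.of 10000 (-980) 220, NumIs.V.of 10000 0 50, NumIs.V.of 10000 0 500] = true := by
      decide +kernel
    have h2 : chk [rB' (E.q 66 100) (E.q 31 100) (E.var 0) (E.var 1) (E.var 2) (-1)] 30
        [NumIs.V.of 10000 (-980) 220, NumIs.V.of 10000 0 50, NumIs.V.of 10000 0 500] = true := by
      decide +kernel
    have hp1 := pos_of_chk (chk3 h1 (by norm_num) (x := S) (y := t) (z := 8 / 10 - r)
      (by push_cast; linarith only [hS]) (by push_cast; linarith only [hS2]) (by push_cast; linarith only [h0])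
      (by push_cast; linarith only [ht']) (by push_cast; linarith only [hr']) (by push_cast; linarith only [hr]))
    have hp2 := pos_of_chk (chk3 h2 (by norm_num) (x := S) (y := t) (z := 8 / 10 - r)
      (by push_cast; linarith only [hS]) (by push_cast; linarith only [hS2]) (by push_cast; linarith only [h0])
      (by push_cast; linarith only [ht']) (by push_cast; linarith only [hr']) (by push_cast; linarith only [hr]))
    rw [rB'_val (t := t) (r := r) 1 rfl rfl] at hp1
    rw [rB'_val (t := t) (r := r) (-1) rfl rfl] at hp2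
    simp only [E.val, NumIs.lkR] at hp1 hp2
    have := abs_cases (a := FB (66 / 100) r t (20 * t * (8 / 10 - r)) (31 / 100) S -
      vg t (8 / 10 - r)) (b := 20 * t * (8 / 10 - r) + S) (by
        push_cast at hp1
        exact hp1) (by
        push_cast at hp2
        exact hp2)
    linarith only [this]

/-- the derivative in `w` -/
theorem xJ (hw : 96 / 100 - r ≤ w) (hw' : w < 1 - r) (hS : -98 / 1000 ≤ S)
    (hS' : S ≤ 57 / 1000) (ht : -82 / 1000 ≤ t) (ht' : t ≤ 5 / 1000)
    (hr : 75 / 100 ≤ r) (hr' : r ≤ 80 / 100) :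
    0 < Real.exp (2 * Real.pi * (t - 20 * t * (8 / 10 - r))) *
      (Real.cosh (2 * Real.pi * (t + S)) - Real.cos (2 * Real.pi * (66 / 100 + w))) -
      (Real.cosh (2 * Real.pi * (20 * t * (8 / 10 - r) + S)) -
        Real.cos (2 * Real.pi * (r + w))) := by
  have h : chk [eJ (E.q 66 100) (E.add (E.add (E.q 1600 10000) (E.var 3)) (E.var 0)) (E.var 1)
      (E.var 2) (E.var 3)] 30
      [NumIs.V.of 10000 0 400, NumIs.V.of 10000 (-980) 570,
        NumIs.V.of 10000 (-820) 50, NumIs.V.of 10000 0 500] = true := by decide +kernel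
  have hp := pos_of_chk (chk4 h (by norm_num) (x := w - (96 / 100 - r)) (y := S) (z := t)
    (w := 8 / 10 - r)
    (by push_cast; linarith only [hw]) (by push_cast; linarith only [hw']) (by push_cast; linarith only [hS])
    (by push_cast; linarith only [hS']) (by push_cast; linarith only [ht]) (by push_cast; linarith only [ht'])
    (by push_cast; linarith only [hr']) (by push_cast; linarith only [hr]))
  have ev : (E.add (E.add (E.q 1600 10000) (E.var 3)) (E.var 0)).val
      [w - (96 / 100 - r), S, t, 8 / 10 - r] = w := by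
    simp only [E.val, NumIs.lkR]
    push_cast
    ring
  rw [eJ_val (t := t) (r := r) rfl rfl, ev] at hp
  simp only [E.val, NumIs.lkR] at hp
  push_cast at hp
  exact hp

theorem xB (hw : 96 / 100 - r ≤ w) (hw' : w ≤ 31 / 100) (ht : -82 / 1000 ≤ t)
    (ht' : t ≤ 5 / 1000) (hS : -98 / 1000 ≤ S)
    (hS' : S ≤ 57 / 1000) (hS0 : 0 < t → S ≤ 22 / 1000)
    (hi : 0 ≤ 20 * t * (8 / 10 - r) + S ∨ 0 < t) (hr : 75 / 100 ≤ r) (hr' : r ≤ 80 / 100) :
    vg t (8 / 10 - r) < FB (66 / 100) r t (20 * t * (8 / 10 - r)) w S := by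
  have a := FB_min (c := 66 / 100) (r := r) (t := t) (τ := 20 * t * (8 / 10 - r)) (S := S)
    (w := w) (w0 := 96 / 100 - r) (w1 := 31 / 100) hw hw' (by linarith only []) (by linarith only [hr'])
    (by linarith only [hr']) (by norm_num) (by linarith only []) (by linarith only [hr']) (by
      intro y hy hy'
      apply LL_cond (by linarith only [hr', hy, hy']) (by linarith only [hr, hy, hy']) (by linarith only [hy, hy']) (by linarith only [hy'])
      have := xJ hy hy' hS hS' ht ht' hr hr'
      linarith only [this])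
  have b0 := xB0 ht ht' hS hS' hS0 hi hr hr'
  have b1 := xB1 ht ht' hS hS' hS0 hi hr hr'
  rcases min_le_iff.1 a with h | h <;> linarith only [b0, h, b1]

end VN

end Pool.Agent.Work.MP_b30479_gtS.G2

end

section

/-!
# The inner variable of an inner digit `3` next to a digit `1`, right ramp: certificates, sides
-/

set_option linter.unusedSimpArgs false

namespace Pool.Agent.Work.MP_b30479_gtS.G2

open VOL NumUs

namespace VN

variable {u v w : ℂ} {T S t r p y : ℝ}

theorem GAC_eq (h1 : v.re = r) (h2 : v.im = 20 * t * (8 / 10 - r)) (h0 : 0 < v.re - u.re)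
    (h0' : v.re - u.re < 1) (hv0 : 0 < v.re) (hv : v.re < 1) :
    GA (-(20 * t)) u v + GC (-(20 * t)) v = (-(Real.pi * u.im) -
      NumIs.lnA (r - u.re) (20 * t * (8 / 10 - r) - u.im) +
      -(20 * t) * (-(Real.pi * u.re) +
        NumIs.lnB (r - u.re) (20 * t * (8 / 10 - r) - u.im))) +
      (-(Real.pi * (20 * t * (8 / 10 - r))) -
      NumIs.lnA r (20 * t * (8 / 10 - r)) +
      -(20 * t) * (Real.pi * (1 / 2 - r) + NumIs.lnB r (20 * t * (8 / 10 - r)))) := by
  have hs : v ∈ strip := ⟨hv0, hv⟩
  rw [GA_eq h0 h0']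
  unfold GC
  rw [Num.LL_lnA hs, Num.YY_lnB hs, h1, h2]
  ring

theorem xG (h1 : v.re = r) (h2 : v.im = 20 * t * (8 / 10 - r)) (hx : 42 / 100 ≤ u.re)
    (hx' : u.re ≤ 1 / 2) (hu : u.im = -T) (hT : 21 / 1000 ≤ T) (hT' : T ≤ 1145 / 10000)
    (ht : -90 / 1000 ≤ t) (ht' : t ≤ 5 / 1000) (hs : -45 / 1000 ≤ t + T) (hs' : t + T ≤ 84 / 1000)
    (hr : 75 / 100 ≤ r) (hr' : r ≤ 80 / 100) :
    GA (-(20 * t)) u v + GC (-(20 * t)) v < -(vh t) := by
  have h : chk [rAC (E.var 0) (E.neg (E.var 1)) (E.var 2) (E.var 3),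
      E.sub (E.add (E.var 2) (E.var 1)) (E.q 840 10000),
      E.sub (E.q (-450) 10000) (E.add (E.var 2) (E.var 1))] 30
      [NumIs.V.of 10000 4200 5000, NumIs.V.of 10000 210 1145,
        NumIs.V.of 10000 (-900) 50, NumIs.V.of 10000 0 500] = true := by decide +kernel
  obtain ⟨e, he, hp⟩ := chk4 h (by norm_num) (x := u.re) (y := T) (z := t) (w := 8 / 10 - r)
    (by push_cast; linarith only [hx]) (by push_cast; linarith only [hx']) (by push_cast; linarith only [hT])
    (by push_cast; linarith only [hT']) (by push_cast; linarith only [ht]) (by push_cast; linarith only [ht'])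
    (by push_cast; linarith only [hr']) (by push_cast; linarith only [hr])
  simp only [List.mem_cons, List.mem_nil_iff, or_false] at he
  rcases he with rfl | rfl | rfl
  · rw [rAC_val (t := t) (r := r) rfl rfl] at hp
    rw [GAC_eq h1 h2 (by linarith only [h1, hx', hr]) (by linarith only [h1, hx, hr']) (by linarith only [h1, hr]) (by linarith only [h1, hr']), hu]
    simp only [E.val, NumIs.lkR] at hp
    linarith only [hp]
  · simp only [E.val, NumIs.lkR] at hp
    push_cast at hp
    linarith only [hs', hp]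
  · simp only [E.val, NumIs.lkR] at hp
    push_cast at hp
    linarith only [hs, hp]

theorem rhx_val' (x T t s : ℝ) : (rhx (E.var 0) (E.var 1)).val [x, T, t, s] =
    -(T * (20 / 3 * (65 / 100 - x))) := by
  simp only [rhx, E.val, NumIs.lkR]
  push_cast
  ring

theorem xG' (h1 : v.re = r) (h2 : v.im = 20 * t * (8 / 10 - r)) (hx : 1 / 2 ≤ u.re)
    (hx' : u.re ≤ 56 / 100) (hu : u.im = -(T * (20 / 3 * (65 / 100 - u.re))))
    (hT : 21 / 1000 ≤ T) (hT' : T ≤ 1145 / 10000)
    (ht : -90 / 1000 ≤ t) (ht' : t ≤ 5 / 1000) (hs : -45 / 1000 ≤ t + T) (hs' : t + T ≤ 84 / 1000)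
    (hr : 75 / 100 ≤ r) (hr' : r ≤ 80 / 100) :
    GA (-(20 * t)) u v + GC (-(20 * t)) v < -(vh t) := by
  have h : chk [rAC (E.var 0) (rhx (E.var 0) (E.var 1)) (E.var 2) (E.var 3),
      E.sub (E.add (E.var 2) (E.var 1)) (E.q 840 10000),
      E.sub (E.q (-450) 10000) (E.add (E.var 2) (E.var 1))] 30
      [NumIs.V.of 10000 5000 5600, NumIs.V.of 10000 210 1145,
        NumIs.V.of 10000 (-900) 50, NumIs.V.of 10000 0 500] = true := by decide +kernel
  obtain ⟨e, he, hp⟩ := chk4 h (by norm_num) (x := u.re) (y := T) (z := t) (w := 8 / 10 - r)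
    (by push_cast; linarith only [hx]) (by push_cast; linarith only [hx']) (by push_cast; linarith only [hT])
    (by push_cast; linarith only [hT']) (by push_cast; linarith only [ht]) (by push_cast; linarith only [ht'])
    (by push_cast; linarith only [hr']) (by push_cast; linarith only [hr])
  simp only [List.mem_cons, List.mem_nil_iff, or_false] at he
  rcases he with rfl | rfl | rfl
  · rw [rAC_val (t := t) (r := r) rfl rfl, rhx_val'] at hp
    rw [GAC_eq h1 h2 (by linarith only [h1, hx', hr]) (by linarith only [h1, hx, hr']) (by linarith only [h1, hr]) (by linarith only [h1, hr']), hu]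
    simp only [E.val, NumIs.lkR] at hp
    linarith only [hp]
  · simp only [E.val, NumIs.lkR] at hp
    push_cast at hp
    linarith only [hs', hp]
  · simp only [E.val, NumIs.lkR] at hp
    push_cast at hp
    linarith only [hs, hp]

theorem xG'' (h1 : v.re = r) (h2 : v.im = 20 * t * (8 / 10 - r)) (hx : 56 / 100 ≤ u.re)
    (hx' : u.re ≤ 65 / 100) (hu : u.im = -(T * (20 / 3 * (65 / 100 - u.re))))
    (hT : 21 / 1000 ≤ T) (hT' : T ≤ 1145 / 10000)
    (ht : -90 / 1000 ≤ t) (ht' : t ≤ -18 / 1000) (hs : -45 / 1000 ≤ t + T)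
    (hs' : t + T ≤ 70 / 1000) (hr : 75 / 100 ≤ r) (hr' : r ≤ 80 / 100) :
    GA (-(20 * t)) u v + GC (-(20 * t)) v < -(vh t) := by
  have h : chk [rAC (E.var 0) (rhx (E.var 0) (E.var 1)) (E.var 2) (E.var 3),
      E.sub (E.add (E.var 2) (E.var 1)) (E.q 700 10000),
      E.sub (E.q (-450) 10000) (E.add (E.var 2) (E.var 1))] 30
      [NumIs.V.of 10000 5600 6500, NumIs.V.of 10000 210 1145,
        NumIs.V.of 10000 (-900) (-180), NumIs.V.of 10000 0 500] = true := by decide +kernel
  obtain ⟨e, he, hp⟩ := chk4 h (by norm_num) (x := u.re) (y := T) (z := t) (w := 8 / 10 - r)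
    (by push_cast; linarith only [hx]) (by push_cast; linarith only [hx']) (by push_cast; linarith only [hT])
    (by push_cast; linarith only [hT']) (by push_cast; linarith only [ht]) (by push_cast; linarith only [ht'])
    (by push_cast; linarith only [hr']) (by push_cast; linarith only [hr])
  simp only [List.mem_cons, List.mem_nil_iff, or_false] at he
  rcases he with rfl | rfl | rfl
  · rw [rAC_val (t := t) (r := r) rfl rfl, rhx_val'] at hp
    rw [GAC_eq h1 h2 (by linarith only [h1, hx', hr]) (by linarith only [h1, hx, hr']) (by linarith only [h1, hr]) (by linarith only [h1, hr']), hu]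
    simp only [E.val, NumIs.lkR] at hp
    linarith only [hp]
  · simp only [E.val, NumIs.lkR] at hp
    push_cast at hp
    linarith only [hs', hp]
  · simp only [E.val, NumIs.lkR] at hp
    push_cast at hp
    linarith only [hs, hp]

/-! ### the part with `w` -/

theorem xH1 (hp : 86 / 100 ≤ p) (hp' : p ≤ 96 / 100) (hy : -2045 / 10000 ≤ y)
    (hy' : y ≤ 57 / 1000) (ht : -90 / 1000 ≤ t) (ht' : t ≤ 0) :
    Real.pi * (y - t) + NumIs.lnA p y + -(20 * t) * (Real.pi * (p - 3 / 4) - NumIs.lnB p y) <
      vh t := by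
  have h : chk [rGB (E.var 0) (E.var 0) (E.var 1) (E.var 2)] 30
      [NumIs.V.of 10000 8600 9600, NumIs.V.of 10000 (-2045) 570, NumIs.V.of 10000 (-900) 0] =
        true := by decide +kernel
  have hp := pos_of_chk (chk3 h (by norm_num) (x := p) (y := y) (z := t)
    (by push_cast; linarith only [hp]) (by push_cast; linarith only [hp']) (by push_cast; linarith only [hy])
    (by push_cast; linarith only [hy']) (by push_cast; linarith only [ht]) (by push_cast; linarith only [ht']))
  rw [rGB_val (t := t) rfl] at hp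
  simp only [E.val, NumIs.lkR] at hp
  linarith only [hp]

theorem xH2 (hy : -2045 / 10000 ≤ y) (hy' : y ≤ 0) (ht : -90 / 1000 ≤ t) (ht' : t ≤ 0) :
    Real.pi * (y - t) + NumIs.lnA (95 / 100) y +
      -(20 * t) * (Real.pi * (105 / 100 - 3 / 4) - NumIs.lnB (95 / 100) y) < vh t := by
  have h : chk [rGB (E.q 95 100) (E.q 105 100) (E.var 0) (E.var 1)] 30
      [NumIs.V.of 10000 (-2045) 0, NumIs.V.of 10000 (-900) 0] = true := by decide +kernel
  have hp := pos_of_chk (chk2 h (by norm_num) (x := y) (y := t)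
    (by push_cast; linarith only [hy]) (by push_cast; linarith only [hy']) (by push_cast; linarith only [ht])
    (by push_cast; linarith only [ht']))
  rw [rGB_val (t := t) rfl] at hp
  simp only [E.val, NumIs.lkR] at hp
  push_cast at hp
  linarith only [hp]

theorem xH3 (hp : 5 / 100 ≤ p) (hp' : p ≤ 19 / 100) (hy : -2045 / 10000 ≤ y)
    (hy' : y ≤ 0) (ht : -90 / 1000 ≤ t) (ht' : t ≤ 0) :
    Real.pi * (y - t) + NumIs.lnA p y + -(20 * t) * (Real.pi * (p - 3 / 4) - NumIs.lnB p y) <
      vh t := by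
  have h : chk [rGB (E.var 0) (E.var 0) (E.var 1) (E.var 2)] 30
      [NumIs.V.of 10000 500 1900, NumIs.V.of 10000 (-2045) 0, NumIs.V.of 10000 (-900) 0] =
        true := by decide +kernel
  have hp := pos_of_chk (chk3 h (by norm_num) (x := p) (y := y) (z := t)
    (by push_cast; linarith only [hp]) (by push_cast; linarith only [hp']) (by push_cast; linarith only [hy])
    (by push_cast; linarith only [hy']) (by push_cast; linarith only [ht]) (by push_cast; linarith only [ht']))
  rw [rGB_val (t := t) rfl] at hp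
  simp only [E.val, NumIs.lkR] at hp
  linarith only [hp]

/-- `0 < t` -/
theorem xH4 (h1 : v.re = r) (h2 : v.im = 20 * t * (8 / 10 - r)) (hw : 11 / 100 ≤ w.re)
    (hp : v.re + w.re ≤ 96 / 100) (hS : -57 / 1000 ≤ w.im) (hS' : w.im ≤ 22 / 1000)
    (ht : 0 ≤ t) (ht' : t ≤ 5 / 1000) (hr : 75 / 100 ≤ r) (hr' : r ≤ 80 / 100) :
    GB (-(20 * t)) v w < vh t := by
  have h : chk [eGB (rh (E.var 2)) (E.add (er (E.var 3)) (E.var 0)) (E.var 0) (E.var 1)
      (E.var 2) (E.var 3) (E.q 0 1), E.sub (E.add (er (E.var 3)) (E.var 0)) (E.q 9600 10000)] 30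
      [NumIs.V.of 10000 1100 2100, NumIs.V.of 10000 (-570) 220,
        NumIs.V.of 10000 0 50, NumIs.V.of 10000 0 500] = true := by decide +kernel
  obtain ⟨e, he, hp'⟩ := chk4 h (by norm_num) (x := w.re) (y := w.im) (z := t)
    (w := 8 / 10 - r) (by push_cast; linarith only [hw]) (by push_cast; linarith only [h1, hp, hr]) (by push_cast; linarith only [hS])
    (by push_cast; linarith only [hS']) (by push_cast; linarith only [ht]) (by push_cast; linarith only [ht'])
    (by push_cast; linarith only [hr']) (by push_cast; linarith only [hr])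
  simp only [List.mem_cons, List.mem_nil_iff, or_false] at he
  rcases he with rfl | rfl
  · rw [eGB_val (t := t) (r := r) rfl rfl, rh_val (t := t) rfl] at hp'
    rw [GB_eq (by linarith only [h1, hw, hr]) (by linarith only [hp]), h1, h2]
    simp only [E.val, NumIs.lkR, er_val (r := r) (rfl : (E.var 3).val
      [w.re, w.im, t, 8 / 10 - r] = 8 / 10 - r)] at hp'
    push_cast at hp'
    linarith only [hp']
  · exfalso
    simp only [E.val, NumIs.lkR, er_val (r := r) (rfl : (E.var 3).val
      [w.re, w.im, t, 8 / 10 - r] = 8 / 10 - r)] at hp'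
    push_cast at hp'
    linarith only [h1, hp, hp']

/-- the linear part in `8/10 - r` -/
theorem lin_s (ht : t ≤ 0) (hr : 75 / 100 ≤ r) (p : ℝ) (h1 : v.re = r)
    (h2 : v.im = 20 * t * (8 / 10 - r)) :
    Real.pi * w.im + -(20 * t) * (Real.pi * (w.re + p)) ≤ Real.pi * (v.im + w.im - t) +
      -(20 * t) * (Real.pi * (v.re + w.re + p - 3 / 4)) := by
  have hpi := Real.pi_pos
  have e : Real.pi * (v.im + w.im - t) + -(20 * t) * (Real.pi * (v.re + w.re + p - 3 / 4)) -
      (Real.pi * w.im + -(20 * t) * (Real.pi * (w.re + p))) =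
        Real.pi * ((-(40 * t)) * (r - 75 / 100)) := by
    rw [h1, h2]
    ring
  have : 0 ≤ Real.pi * ((-(40 * t)) * (r - 75 / 100)) :=
    mul_nonneg hpi.le (mul_nonneg (by linarith only [ht]) (by linarith only [hr]))
  linarith only [e, this]

/-- `t ≤ 0` -/
theorem xH (h1 : v.re = r) (h2 : v.im = 20 * t * (8 / 10 - r)) (hw : 11 / 100 ≤ w.re)
    (hw' : w.re ≤ 39 / 100) (hS : -1145 / 10000 ≤ w.im) (hS' : w.im ≤ 57 / 1000)
    (ht : -90 / 1000 ≤ t) (ht' : t ≤ 0) (hr : 75 / 100 ≤ r) (hr' : r ≤ 80 / 100)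
    (hc : v.re + w.re ≤ 96 / 100 ∨ v.im + w.im < 0) :
    GB (-(20 * t)) v w < vh t := by
  have hm : 0 ≤ -(20 * t) := by linarith only [ht']
  have b0 : -90 / 1000 ≤ v.im := by
    rw [h2]
    nlinarith only [hr, ht, hr']
  have b1 : v.im ≤ 0 := by
    rw [h2]
    exact mul_nonpos_of_nonpos_of_nonneg (by linarith only [ht']) (by linarith only [hr'])
  have hy0 : -2045 / 10000 ≤ v.im + w.im := by linarith only [hS, b0]
  have hy1 : v.im + w.im ≤ 57 / 1000 := by linarith only [hS', b1]
  have L := fun p => lin_s (v := v) (w := w) ht' hr p h1 h2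
  rcases le_or_gt (v.re + w.re) (96 / 100) with c1 | c1
  · rw [GB_eq (by linarith only [h1, hw, hr]) (by linarith only [c1])]
    have a := xH1 (p := v.re + w.re) (y := v.im + w.im) (t := t) (by linarith only [h1, hw, hr]) c1 hy0 hy1 ht ht'
    have l := L 0
    rw [add_zero, add_zero] at l
    nlinarith only [a, l]
  · have hi := hc.resolve_left (not_le.2 c1)
    rcases le_or_gt (v.re + w.re) (105 / 100) with c2 | c2
    · have a := xH2 (y := v.im + w.im) (t := t) hy0 hi.le ht ht'
      have b := GB_le (m := -(20 * t)) (p := 95 / 100) (v := v) (w := w) hm (by norm_num)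
        (by norm_num) (by linarith only [hS, b0, c1, hi]) (by linarith only [c2]) hi
      have l := L 0
      rw [add_zero, add_zero] at l
      have k : -(20 * t) * (Real.pi * (v.re + w.re - 3 / 4)) ≤
          -(20 * t) * (Real.pi * (105 / 100 - 3 / 4)) :=
        mul_le_mul_of_nonneg_left (mul_le_mul_of_nonneg_left (by linarith only [c2]) Real.pi_pos.le) hm
      nlinarith only [a, b, l, k]
    · rw [GB_eq' (by linarith only [hS, b0, hi, c2]) (by linarith only [h1, hw', hS, hr', b0, hi]) hi]
      have a := xH3 (p := v.re + w.re - 1) (y := v.im + w.im) (t := t) (by linarith only [c2]) (by linarith only [h1, hw', hr'])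
        hy0 hi.le ht ht'
      have l := L (-1)
      have e1 : w.re + -1 = w.re - 1 := by ring
      have e2 : v.re + w.re + -1 - 3 / 4 = v.re + w.re - 1 - 3 / 4 := by ring
      rw [e1, e2] at l
      nlinarith only [a, l]

end VN

end Pool.Agent.Work.MP_b30479_gtS.G2

end
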