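import Pool.Agent.Work.MP_b30479_gt.TBS.G2.H13S
import Pool.Agent.Work.MP_b30479_gt.TBS.G2.MR2
import Pool.Agent.Work.MP_b30479_gt.TBS.G2.WPush2
import Pool.Agent.Work.MP_b30479_gt.TBS.TB.HW
import Pool.Agent.Work.MP_b30479_gt.TBS.G2.V3RXC
import Pool.Agent.Work.MP_b30479_gt.TBS.G2.WVal

section

/-!
# Right side of the hinge `1 | 3` (slot `0`) in a word
-/

namespace Pool.Agent.Work.MP_b30479_gtS.G2

open Finset VOL Filter Topology

namespace HX

open SR

variable {M : ℕ} {b : Fin (M + 1) → ℤ} {zs : DD (tyW b) ⊕ ZZ (tyW b) → ℂ}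
variable {y : DD (tyW b) ⊕ ZZ (tyW b) → ℝ}
variable {h h' h3 : Fin M} {i j j' k : Fin (M + 1)} {p : Fin 3}

/-- height on the path of the hinge `1 | 3` -/
theorem par13 (A : Adj h i 2 j) (hi : clsW b i = .one) (hj : clsW b j = .three) :
    wXM b h = 65 / 100 ∧ wcl b h = 13 / 100 ∧ wcr b h = 15 / 100 := by
  rw [A.XM_eq b, A.cl_eq b, A.cr_eq b, hi, hj]
  unfold hpp
  rw [if_pos rfl]
  simp [hp, hp1]

/-- the other hinge of the digit `1` on the flat part -/
theorem flatP (A' : Adj h' i 0 j') (hy : Mx b zs y) (hi : clsW b i = .one)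
    (hP : clsW b j' = .one ∨ clsW b j' = .two ∨ clsW b j' = .twoE)
    (h0 : 1558 / 10000 ≤ y (.inl (.inl h')))
    (h0' : clsW b j' = .two → 16 / 100 ≤ y (.inl (.inl h')))
    (h1 : y (.inl (.inl h')) ≤ 1 / 2)
    (h1' : clsW b j' = .twoE → y (.inl (.inl h')) ≤ 35 / 100) :
    (Yw b zs y i 0).im = ofs (b i) (zs (.inl (.inl h'))).im := by
  have hrh := A'.rh hy
  have hre := A'.re (b := b) (zs := zs) (y := y)
  have e1 := A'.XM_eq b
  have e2 := A'.cl_eq b
  have e3 := A'.cr_eq b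
  rw [hi] at e1 e2 e3
  unfold hpp at e1 e2 e3
  rw [if_neg (by decide)] at e1 e2 e3
  rcases hP with hP | hP | hP
  · rw [hP] at e1 e2 e3
    simp only [hp] at e1 e2 e3
    have f1 : 80 / 100 ≤ wXM b h' := by
      rw [e1]
      split_ifs <;> norm_num
    have f2 : wcl b h' = 15 / 100 := by
      rw [e2]
      split_ifs <;> rfl
    have f3 : wcr b h' = 20 / 100 := by
      rw [e3]
      split_ifs <;> rfl
    exact MR.RH_flat hrh (by linarith only [f2]) (by linarith only [f3]) (by rw [hre]; linarith only [h0, f2]) (by rw [hre]; linarith only [h1, f1, f3])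
  · rw [hP] at e1 e2 e3
    simp only [hp, hp1] at e1 e2 e3
    have := h0' hP
    exact MR.RH_flat hrh (by linarith only [e2]) (by linarith only [e3]) (by rw [hre]; linarith only [e2, this]) (by rw [hre]; linarith only [h1, e1, e3])
  · rw [hP] at e1 e2 e3
    simp only [hp, hp1] at e1 e2 e3
    have := h1' hP
    exact MR.RH_flat hrh (by linarith only [e2]) (by linarith only [e3]) (by rw [hre]; linarith only [h0, e2]) (by rw [hre]; linarith only [e1, e3, this])

/-- factor of the height on a path -/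
theorem tr_ge {XM cl cr x φ : ℝ} (hc : 0 < cl) (hc' : 0 < cr) (h0 : φ ≤ 1) (h1 : φ * cl ≤ x)
    (h2 : φ * cr ≤ XM - x) : φ ≤ tr 0 XM cl cr x := by
  unfold tr
  rw [sub_zero]
  refine le_max_of_le_right (le_min h0 (le_min ?_ ?_))
  · rwa [le_div_iff₀ hc]
  · rwa [le_div_iff₀ hc']

/-- height on a path, in terms of a lower bound of the factor -/
theorem RH_neg {w : ℂ} {T XM cl cr B φ : ℝ} (h : RH w T XM cl cr) (hB : 0 ≤ B) (hT : T ≤ -B)
    (hφ : φ ≤ tr 0 XM cl cr w.re) : w.im ≤ -(B * φ) := by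
  have h3 : 0 ≤ tr 0 XM cl cr w.re := le_max_left _ _
  rw [h.im]
  nlinarith only [hT, h3, hφ, hB, mul_le_mul_of_nonneg_right hT h3, mul_le_mul_of_nonneg_left hφ hB]

/-- the hinge in the slot `2` of the digit `3` -/
theorem w_im (A3 : Adj h3 j 2 k) (hb : ClassW b) (hL : Loc b zs) (hy : Mx b zs y)
    (hj : clsW b j = .three) (h0 : 11 / 100 ≤ y (.inl (.inl h3)))
    (h1 : y (.inl (.inl h3)) ≤ 39 / 100) (h2 : clsW b k ≠ .one → y (.inl (.inl h3)) ≤ 31 / 100) :
    ((kd (clsW b k)).wl : ℝ) / 10000 ≤ (Yw b zs y j 2).im ∧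
      (Yw b zs y j 2).im ≤ ((kd (clsW b k)).wh : ℝ) / 10000 := by
  have hrh := A3.rh hy
  have hre := A3.re (b := b) (zs := zs) (y := y)
  have hop := A3.opp hb (Or.inl (by rw [hj]; decide))
  obtain ⟨-, -, t0, t1⟩ := A3.box hb hL
  rw [hj, A3.ss hop] at t0 t1
  have e1 := A3.XM_eq b
  have e2 := A3.cl_eq b
  have e3 := A3.cr_eq b
  rw [hj] at e1 e2 e3
  unfold hpp at e1 e2 e3
  rw [if_pos rfl] at e1 e2 e3
  generalize clsW b k = K at *
  cases K
  case one =>
    simp only [hp, hbox] at e1 e2 e3 t0 t1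
    obtain ⟨c1, -⟩ := MR.RH_im_mem hrh (by norm_num : -(1145 / 10000 : ℝ) ≤ 0) (by norm_num : (0 : ℝ) ≤ 1)
      t0 (by linarith only [t1])
    have c2 := RH_neg hrh (B := 21 / 1000) (φ := 11 / 15) (by norm_num) t1
      (tr_ge (by linarith only [e2]) (by linarith only [e3]) (by norm_num) (by rw [e2, hre]; linarith only [h0])
        (by rw [e3, e1, hre]; linarith only [h1]))
    constructor
    · simp only [kd]
      push_cast
      linarith only [c1]
    · simp only [kd]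
      push_cast
      linarith only [c2]
  case twoE =>
    simp only [hp, hbox] at e1 e2 e3 t0 t1
    have h2' := h2 (by decide)
    obtain ⟨c1, -⟩ := MR.RH_im_mem hrh (by norm_num : -(98 / 1000 : ℝ) ≤ 0) (by norm_num : (0 : ℝ) ≤ 1)
      t0 (by linarith only [t1])
    have c2 := RH_neg hrh (B := 76 / 1000) (φ := 11 / 13) (by norm_num) t1
      (tr_ge (by linarith only [e2]) (by linarith only [e3]) (by norm_num) (by rw [e2, hre]; linarith only [h0])
        (by rw [e3, e1, hre]; linarith only [h2']))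
    constructor
    · simp only [kd]
      push_cast
      linarith only [c1]
    · simp only [kd]
      push_cast
      linarith only [c2]
  case ring =>
    simp only [hbox] at t0 t1
    obtain ⟨c1, c2⟩ := MR.RH_im_mem hrh (by norm_num : -(4 / 1000 : ℝ) ≤ 0)
      (by norm_num : (0 : ℝ) ≤ 57 / 1000) t0 t1
    constructor
    · simp only [kd]
      push_cast
      linarith only [c1]
    · simp only [kd]
      push_cast
      linarith only [c2]
  case two =>
    simp only [hbox] at t0 t1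
    obtain ⟨c1, c2⟩ := MR.RH_im_mem hrh (by norm_num : -(57 / 1000 : ℝ) ≤ 0)
      (by norm_num : (0 : ℝ) ≤ 22 / 1000) t0 (by linarith only [t1])
    constructor
    · simp only [kd]
      push_cast
      linarith only [c1]
    · simp only [kd]
      push_cast
      linarith only [c2]
  case three =>
    simp only [hbox] at t0 t1
    obtain ⟨c1, c2⟩ := MR.RH_im_mem hrh (by norm_num : -(57 / 1000 : ℝ) ≤ 0)
      (by norm_num : (0 : ℝ) ≤ 22 / 1000) (by linarith only [t0]) (by linarith only [t1])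
    constructor
    · simp only [kd]
      push_cast
      linarith only [c1]
    · simp only [kd]
      push_cast
      linarith only [c2]
  case threeE =>
    simp only [hbox] at t0 t1
    obtain ⟨c1, c2⟩ := MR.RH_im_mem hrh (by norm_num : -(57 / 1000 : ℝ) ≤ 0)
      (by norm_num : (0 : ℝ) ≤ 22 / 1000) (by linarith only [t0]) (by linarith only [t1])
    constructor
    · simp only [kd]
      push_cast
      linarith only [c1]
    · simp only [kd]
      push_cast
      linarith only [c2]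

/-- windows of the inner variable -/
theorem m_im (hb : ClassW b) (hX : LocX b zs) (A : Adj h j 0 i) (A3 : Adj h3 j 2 k)
    (hi : clsW b i = .one) (hj : clsW b j = .three) :
    ((kd (clsW b k)).t0 : ℝ) / 10000 ≤ hI zs hj ∧ hI zs hj ≤ ((kd (clsW b k)).t1 : ℝ) / 10000 ∧
    ((kd (clsW b k)).s0 : ℝ) / 10000 ≤ hI zs hj - ofs (b j) (zs (.inl (.inl h))).im ∧
    hI zs hj - ofs (b j) (zs (.inl (.inl h))).im ≤ ((kd (clsW b k)).s1 : ℝ) / 10000 := by
  have h3 := hX.mid (tyW_isMid (Or.inl hj)) A A3 hj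
  rw [hi] at h3
  obtain ⟨a0, a1, a2, a3⟩ := h3
  unfold hI mI
  generalize clsW b k = K at *
  cases K <;> simp only [mw, kd] at a0 a1 a2 a3 ⊢ <;> push_cast <;>
    refine ⟨?_, ?_, ?_, ?_⟩ <;> linarith only [hj, a0, a1, a2, a3]

/-- bounds of the side `s` of the digit `3` -/
structure B3 (x T s : ℝ) : Prop where
  A : x ≤ 475 / 1000 → s < -fA x T ∨ 47 / 100 ≤ x ∧ s < -fB x T
  B : 475 / 1000 ≤ x → x ≤ 1 / 2 → s < -fB x T
  C : 1 / 2 < x → x ≤ 55 / 100 → s < -fC x T
  D : 55 / 100 ≤ x → s < -fD x T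

/-- geometry of the hinge `1 | 3`; `T`: height of the saddle point in the frame of the `1` -/
structure G13 (b : Fin (M + 1) → ℤ) (zs : DD (tyW b) ⊕ ZZ (tyW b) → ℂ)
    (y : DD (tyW b) ⊕ ZZ (tyW b) → ℝ) (h : Fin M) (i : Fin (M + 1)) (T x : ℝ) : Prop where
  re : (Yw b zs y i 2).re = x
  xM : x ≤ 65 / 100
  T0 : 21 / 1000 ≤ T
  T1 : T ≤ 1145 / 10000
  fl : x ≤ 1 / 2 → (Yw b zs y i 2).im = T ∧ slL b zs y h = 0
  rp : 1 / 2 < x → (Yw b zs y i 2).im = T * (20 / 3 * (65 / 100 - x)) ∧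
    ofs (b i) (slL b zs y h) = -(20 / 3 * T)

theorem geo13 (hb : ClassW b) (hL : Loc b zs) (hy : Mx b zs y) (A : Adj h i 2 j)
    (hi : clsW b i = .one) (hj : clsW b j = .three) (hx0 : 13 / 100 < y (.inl (.inl h))) :
    G13 b zs y h i (ofs (b i) (zs (.inl (.inl h))).im) (y (.inl (.inl h))) := by
  obtain ⟨hXM, hcl, hcr⟩ := par13 A hi hj
  have hrh := A.rh hy
  have hre := A.re (b := b) (zs := zs) (y := y)
  have hxM := hrh.reM
  rw [hXM, hre] at hxM
  rw [hXM, hcl, hcr] at hrh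
  obtain ⟨-, -, a0, a1⟩ := A.box hb hL
  rw [hi, hj] at a0 a1
  simp only [hbox] at a0 a1
  refine ⟨hre, hxM, a0, a1, fun h5 => ⟨?_, ?_⟩, fun h5 => ⟨?_, ?_⟩⟩
  · exact MR.RH_flat hrh (by norm_num) (by norm_num) (by rw [hre]; linarith only [hx0]) (by rw [hre]; linarith only [h5])
  · exact slL_flat (by rw [hcl]; linarith only [hx0]) (by rw [hXM, hcr]; linarith only [h5])
  · rw [MR.RH_right hrh (by norm_num) (by norm_num) (by norm_num) (by rw [hre]; linarith only [h5]), hre]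
    ring
  · rw [ofs_slL_ramp (b := b) (zs := zs) (y := y) (h := h) (b i) (by rw [hXM, hcr]; linarith only [h5]), hcr]
    ring

/-- the class of the other neighbour of the digit `1` -/
theorem cls13 (hb : ClassW b) (A : Adj h i 2 j) (A' : Adj h' i 0 j') (hi : clsW b i = .one)
    (hj : clsW b j = .three) : clsW b j' = .one ∨ clsW b j' = .two ∨ clsW b j' = .twoE := by
  have A2 : Adj h' i (2 : Fin 3).rev j' := A'
  rcases okp_of hb A A2 hi with h1 | h1
  · rw [hj] at h1
    rcases h1 with h1 | h1 | h1 <;> exact absurd h1 (by decide)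
  · exact h1

/-- the height of the hinge `1 | 3` is at most `94/1000` unless the other neighbour of the `1` is a
`2` at an end -/
theorem T94 (hb : ClassW b) (hX : LocX b zs) (A : Adj h i 2 j) (A' : Adj h' i 0 j')
    (hi : clsW b i = .one) (hj : clsW b j = .three)
    (hend : clsW b j' = .twoE → y (.inl (.inl h)) ≤ 635 / 1000) :
    y (.inl (.inl h)) ≤ 635 / 1000 ∨ ofs (b i) (zs (.inl (.inl h))).im ≤ 94 / 1000 := by
  obtain ⟨a0, a1, a2, a3⟩ := hX.win A (p := 2) A' hi
  rw [hj] at a0 a1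
  rcases cls13 hb A A' hi hj with hP | hP | hP
  · right
    rw [hP] at a1
    simp only [cw] at a1
    linarith only [a1]
  · right
    rw [hP] at a1
    simp only [cw] at a1
    linarith only [a1]
  · exact Or.inl (hend hP)

/-- the hinge in the frame of the digit `3` -/
theorem u13 (hb : ClassW b) (A : Adj h i 2 j) (hi : clsW b i = .one)
    {T x : ℝ} (G : G13 b zs y h i T x) : (Yw b zs y j 0).re = x ∧
      (x ≤ 1 / 2 → (Yw b zs y j 0).im = -T) ∧
      (1 / 2 < x → (Yw b zs y j 0).im = -(T * (20 / 3 * (65 / 100 - x)))) := by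
  have hop := A.opp hb (Or.inl (by rw [hi]; decide))
  have hc' : Yw b zs y j 0 = starRingEnd ℂ (Yw b zs y i 2) :=
    A.conj (zs := zs) (y := y) hop
  refine ⟨?_, fun h5 => ?_, fun h5 => ?_⟩
  · rw [hc', Complex.conj_re, G.re]
  · rw [hc', Complex.conj_im, (G.fl h5).1]
  · rw [hc', Complex.conj_im, (G.rp h5).1]

/-- the side of the digit `3` in closed form -/
theorem sd13 (hb : ClassW b) (A : Adj h i 2 j) (hi : clsW b i = .one) (hj : clsW b j = .three)
    {T x : ℝ} (G : G13 b zs y h i T x) :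
    (x ≤ 1 / 2 → Sw b zs y j 0 (slL b zs y h) = S3 1 0 (Yw b zs y j 0) (Yw b zs y j 1)) ∧
    (1 / 2 < x → Sw b zs y j 0 (slL b zs y h) =
      S3 1 (20 / 3 * T) (Yw b zs y j 0) (Yw b zs y j 1)) := by
  have hop := A.opp hb (Or.inl (by rw [hi]; decide))
  have B : Adj h j 0 i := A.symm
  refine ⟨fun h5 => ?_, fun h5 => ?_⟩
  · rw [B.side_three_zero hb hj, (G.fl h5).2, ofs_zero']
  · rw [B.side_three_zero hb hj, ofs_opp hop, (G.rp h5).2, neg_neg]

/-- the side of the digit `3`, inner variable on its flat part -/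
theorem side3 (hb : ClassW b) (hL : Loc b zs) (hX : LocX b zs) (hy : Mx b zs y)
    (hpos : ∀ h : Fin M, 0 < y (.inl (.inl h)))
    (A : Adj h i 2 j) (A3 : Adj h3 j 2 k)
    (hi : clsW b i = .one) (hj : clsW b j = .three)
    (hx0 : 45 / 100 ≤ y (.inl (.inl h)))
    (hxK : 46 / 100 ≤ y (.inl (.inl h)) ∧ clsW b k ≠ .one ∨
      clsW b k = .one ∧ (131 / 1000 ≤ y (.inl (.inl h3)) ∨ 47 / 100 ≤ y (.inl (.inl h))))
    (hd : y (.inl (.inl h)) ≤ 635 / 1000 ∨ ofs (b i) (zs (.inl (.inl h))).im ≤ 94 / 1000)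
    (hw0 : 11 / 100 ≤ y (.inl (.inl h3))) (hw1 : y (.inl (.inl h3)) ≤ 39 / 100)
    (hw2 : clsW b k ≠ .one → y (.inl (.inl h3)) ≤ 31 / 100)
    (hm0 : y (.inl (.inl h)) + 4 / 100 ≤ y (.inl (.inr (mI b hj))))
    (hm1 : y (.inl (.inr (mI b hj))) ≤ 75 / 100) :
    B3 (y (.inl (.inl h))) (ofs (b i) (zs (.inl (.inl h))).im) (Sw b zs y j 0 (slL b zs y h)) := by
  have hop := A.opp hb (Or.inl (by rw [hi]; decide))
  have G := geo13 hb hL hy A hi hj (by linarith only [hx0])
  obtain ⟨hure, hu1, hu2⟩ := u13 hb A hi G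
  obtain ⟨hs1, hs2⟩ := sd13 hb A hi hj G
  have hxM := G.xM
  have hT0 := G.T0
  have hT1 := G.T1
  have B : Adj h j 0 i := A.symm
  have hTj : ofs (b j) (zs (.inl (.inl h))).im = -ofs (b i) (zs (.inl (.inl h))).im := ofs_opp hop _
  set x := y (.inl (.inl h)) with hx
  set T := ofs (b i) (zs (.inl (.inl h))).im with hT
  obtain ⟨m0, m1, m2, m3⟩ := m_im hb hX B A3 hi hj
  rw [hTj, sub_neg_eq_add] at m2 m3
  obtain ⟨w0, w1⟩ := w_im A3 hb hL hy hj hw0 hw1 hw2
  obtain ⟨p1, p2, p3⟩ := pp_mI (zs := zs) hj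
  have hmpos : 0 < y (.inl (.inr (mI b hj))) := by linarith only [hj, hx0, hm0]
  have hR := mid_RH hy (mI b hj)
  have hF := mid_fc hb hy hpos (mI b hj) hmpos
  rw [p1, p2, p3] at hR hF
  have hmre' : (Yw b zs y (mI b hj).1 1).re = y (.inl (.inr (mI b hj))) := by
    rw [Yw_mid (zs := zs) (y := y) (mI b hj), ofr_pp_re]
  have hmre : (Yw b zs y j 1).re = y (.inl (.inr (mI b hj))) := hmre'
  have hmim : (Yw b zs y j 1).im = hI zs hj := by
    show (Yw b zs y (mI b hj).1 1).im = _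
    exact MR.RH_flat hR (by norm_num) (by norm_num) (by rw [hmre']; linarith only [hj, hx0, hm0, hmpos])
      (by rw [hmre']; linarith only [hj, hm1])
  have hfoc : 0 ≤ SM 0 (Yw b zs y j 0) (Yw b zs y j 1) (Yw b zs y j 2) := by
    rw [← OM_three hj]
    exact hF.flat' (by rw [hmre']; linarith only [hj, hx0, hm0, hmpos]) (by rw [hmre']; linarith only [hj, hm1])
  have hn := MM_pos_of_sinNe (reg_three hj hy hpos hmpos).1
  rw [Complex.add_re, Complex.add_im] at hn
  have hwre := A3.re (b := b) (zs := zs) (y := y)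
  have H3 : In3 (clsW b k) (Yw b zs y j 0) (Yw b zs y j 1) (Yw b zs y j 2) T := by
    refine ⟨hT0, hT1, ?_, ?_, ?_, ?_, ?_, ?_, ?_, ?_, w0, w1, hn, hfoc⟩
    · rw [hmre, hure]; linarith only [hj, hm0]
    · rw [hmre]; exact hm1
    · rw [hmim]; exact m0
    · rw [hmim]; exact m1
    · rw [hmim]; exact m2
    · rw [hmim]; exact m3
    · rw [hwre]; exact hw0
    · rw [hwre]; exact hw1
  refine ⟨fun h6 => ?_, fun h6 h5 => ?_, fun h5 h6 => ?_, fun h6 => ?_⟩
  · rw [hs1 (by linarith only [hxM, h6])]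
    by_cases h8 : clsW b k = .one ∧ y (.inl (.inl h3)) < 131 / 1000
    · have h7 : 47 / 100 ≤ x := by
        rcases hxK with h7 | h7
        · exact absurd h8.1 h7.2
        · exact h7.2.resolve_left (not_le.2 h8.2)
      have := three_S H3 h8.1 (by rw [hure]; exact h7) (by rw [hure]; exact h6)
        (hu1 (by linarith only [hxM, h6]))
      rw [hure] at this
      exact Or.inr ⟨h7, this⟩
    · have h7 : 46 / 100 ≤ (Yw b zs y j 0).re ∧ clsW b k ≠ .one ∨
          clsW b k = .one ∧ 131 / 1000 ≤ (Yw b zs y j 2).re := by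
        rw [hure, hwre]
        rcases hxK with h7 | h7
        · exact Or.inl h7
        · exact Or.inr ⟨h7.1, not_lt.1 fun q => h8 ⟨h7.1, q⟩⟩
      have := three_A H3 (by rw [hure]; exact hx0) (by rw [hure]; exact h6) h7 (hu1 (by linarith only [hxM, h6]))
      rw [hure] at this
      exact Or.inl this
  · rw [hs1 h5]
    have := three_B H3 (by rw [hure]; exact h6) (by rw [hure]; exact h5) (hu1 h5)
    rwa [hure] at this
  · rw [hs2 h5]
    have := three_C H3 (by rw [hure]; exact h5.le) (by rw [hure]; exact h6)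
      (by rw [hure]; exact hu2 h5) rfl
    rwa [hure] at this
  · rw [hs2 (by linarith only [hj, hm1, hmpos, h6])]
    have := three_D H3 (by rw [hure]; exact h6) (by rw [hure]; exact hxM)
      (by rw [hure]; exact hd) (by rw [hure]; exact hu2 (by linarith only [hj, hm1, hmpos, h6])) rfl
    rwa [hure] at this

/-- **Right side of the hinge `1 | 3` (slot `0`)**, from the side of the digit `3`.
`k`-floors `K13`. -/
theorem core0 (hb : ClassW b) (hL : Loc b zs) (hX : LocX b zs) (hy : Mx b zs y)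
    (hpos : ∀ h : Fin M, 0 < y (.inl (.inl h)))
    (A : Adj h i 2 j) (A' : Adj h' i 0 j')
    (hi : clsW b i = .one) (hj : clsW b j = .three)
    (hx0 : 45 / 100 ≤ y (.inl (.inl h)))
    (hS : y (.inl (.inl h)) + y (.inl (.inl h')) ≤ 95 / 100)
    (h2e : clsW b j' = .twoE → y (.inl (.inl h')) ≤ 35 / 100)
    (hend : clsW b j' = .twoE → y (.inl (.inl h)) ≤ 635 / 1000)
    (hk : K13 (clsW b j') (y (.inl (.inl h))) (y (.inl (.inl h'))))
    (h3 : B3 (y (.inl (.inl h))) (ofs (b i) (zs (.inl (.inl h))).im)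
      (Sw b zs y j 0 (slL b zs y h))) : False := by
  have hop := A.opp hb (Or.inl (by rw [hi]; decide))
  have hP := cls13 hb A A' hi hj
  have G := geo13 hb hL hy A hi hj (by linarith only [hx0])
  have hre := G.re
  have hxM := G.xM
  -- the windows of the digit 1
  have A2 : Adj h' i (2 : Fin 3).rev j' := A'
  have A1 : Adj h i (0 : Fin 3).rev j := A
  obtain ⟨a0, a1, a2, a3⟩ := hX.win A A2 hi
  obtain ⟨b0, b1, -, -⟩ := hX.win A' A1 hi
  rw [hj] at a0 a1 a2 a3 b0 b1
  have hk0 : 1558 / 10000 ≤ y (.inl (.inl h')) := by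
    rcases hP with hP | hP | hP <;> rw [hP] at hk <;> simp only [K13] at hk <;>
      linarith only [hk, hk.2.2.2]
  have hk0' : clsW b j' = .two → 16 / 100 ≤ y (.inl (.inl h')) := by
    intro hP'
    rw [hP'] at hk
    simp only [K13] at hk
    linarith only [hk, hk.2.2.2]
  have hkim := flatP A' hy hi hP hk0 hk0' (by linarith only [hx0, hS]) h2e
  have hkre := A'.re (b := b) (zs := zs) (y := y)
  set x := y (.inl (.inl h)) with hx
  set T := ofs (b i) (zs (.inl (.inl h))).im with hT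
  have H1 : In1 (clsW b j') x T (Yw b zs y i 0).re (Yw b zs y i 0).im := by
    refine ⟨hP, hx0, hxM, by rw [hkre]; exact hS, fun hc => ⟨by rw [hkre]; exact h2e hc, hend hc⟩,
      a0, a1, ?_, ?_, ?_, ?_, by rw [hkre]; exact hk⟩
    · rw [hkim]; exact b0
    · rw [hkim]; exact b1
    · rw [hkim]; exact a2
    · rw [hkim]; exact a3
  -- the step
  have hstr : (Yw b zs y i 2) ∈ strip ∧ (Yw b zs y i 2) + (Yw b zs y i 0) ∈ strip := by
    refine ⟨⟨by rw [hre]; linarith only [hx0], by rw [hre]; linarith only [hk0, hS]⟩, ⟨?_, ?_⟩⟩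
    · rw [Complex.add_re, hre, hkre]; linarith only [hk0, hx0]
    · rw [Complex.add_re, hre, hkre]; linarith only [hS]
  have fin : ∀ f : ℝ, Sw b zs y i 2 (slL b zs y h) < f → Sw b zs y j 0 (slL b zs y h) < -f →
      False := by
    intro f d1 d2
    exact rstep_false hb hy (hpos h) (RStep.of_adj A (c := 0) (fun h => absurd h (by omega))
      (e1 := Sw b zs y i 2 (slL b zs y h)) (e2 := Sw b zs y j 0 (slL b zs y h))
      (by linarith only [d1, d2]) (by linarith only []) (by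
        show Sw b zs y j 0 (slL b zs y h) + 0 * ofs (b j) (slL b zs y h) ≤ _
        linarith only []))
  rcases le_or_gt x (1 / 2) with h5 | h5
  · -- flat part
    obtain ⟨him, hsl⟩ := G.fl h5
    have e1 : Sw b zs y i 2 (slL b zs y h) =
        MR.s1 0 x T (Yw b zs y i 0).re (Yw b zs y i 0).im := by
      rw [A.side_one hb hi, hsl, ofs_zero', show (2 : Fin 3).rev = 0 from rfl,
        MR.S1_eq _ hstr.1 hstr.2, him, hre]
    rcases lt_or_ge x (475 / 1000) with h6 | h6
    · rcases h3.A h6.le with h7 | ⟨h7, h8⟩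
      · exact fin (fA x T) (by rw [e1]; exact one_A H1 h6.le) h7
      · exact fin (fB x T) (by rw [e1]; exact one_S H1 h7 h6.le) h8
    · exact fin (fB x T) (by rw [e1]; exact one_B H1 h6 h5) (h3.B h6 h5)
  · -- ramp
    obtain ⟨him, hm⟩ := G.rp h5
    have e1 : Sw b zs y i 2 (slL b zs y h) =
        MR.s1 (-(20 / 3 * T)) x (T * (20 / 3 * (65 / 100 - x))) (Yw b zs y i 0).re
          (Yw b zs y i 0).im := by
      rw [A.side_one hb hi, hm, show (2 : Fin 3).rev = 0 from rfl,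
        MR.S1_eq _ hstr.1 hstr.2, him, hre]
    rcases le_total x (55 / 100) with h6 | h6
    · exact fin (fC x T) (by rw [e1]; exact one_C H1 h5.le h6 rfl rfl) (h3.C h5 h6)
    · exact fin (fD x T) (by rw [e1]; exact one_D H1 h6 rfl rfl) (h3.D h6)

/-- **Right side of the hinge `1 | 3` (slot `0`)**, inner variable on its flat part.
`k`-floors `K13`. -/
theorem core (hb : ClassW b) (hL : Loc b zs) (hX : LocX b zs) (hy : Mx b zs y)
    (hpos : ∀ h : Fin M, 0 < y (.inl (.inl h)))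
    (A : Adj h i 2 j) (A' : Adj h' i 0 j') (A3 : Adj h3 j 2 k)
    (hi : clsW b i = .one) (hj : clsW b j = .three)
    (hx0 : 45 / 100 ≤ y (.inl (.inl h)))
    (hxK : 46 / 100 ≤ y (.inl (.inl h)) ∧ clsW b k ≠ .one ∨
      clsW b k = .one ∧ (131 / 1000 ≤ y (.inl (.inl h3)) ∨ 47 / 100 ≤ y (.inl (.inl h))))
    (hS : y (.inl (.inl h)) + y (.inl (.inl h')) ≤ 95 / 100)
    (h2e : clsW b j' = .twoE → y (.inl (.inl h')) ≤ 35 / 100)
    (hend : clsW b j' = .twoE → y (.inl (.inl h)) ≤ 635 / 1000)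
    (hw0 : 11 / 100 ≤ y (.inl (.inl h3))) (hw1 : y (.inl (.inl h3)) ≤ 39 / 100)
    (hw2 : clsW b k ≠ .one → y (.inl (.inl h3)) ≤ 31 / 100)
    (hm0 : y (.inl (.inl h)) + 4 / 100 ≤ y (.inl (.inr (mI b hj))))
    (hm1 : y (.inl (.inr (mI b hj))) ≤ 75 / 100)
    (hk : K13 (clsW b j') (y (.inl (.inl h))) (y (.inl (.inl h')))) : False :=
  core0 hb hL hX hy hpos A A' hi hj hx0 hS h2e hend hk
    (side3 hb hL hX hy hpos A A3 hi hj hx0 hxK (T94 hb hX A A' hi hj hend) hw0 hw1 hw2 hm0 hm1)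

end HX

end Pool.Agent.Work.MP_b30479_gtS.G2

end

section

/-!
# The inner variable of an inner digit `3` next to a digit `1`, right ramp

`v = r + 20 t (8/10 - r) i` (`75/100 ≤ r ≤ 8/10`), hinge `u` of `1 | 3` from `42/100` on.
`mid_right_X`: `3` next to a digit that is not `1` on its other side, hinge up to `56/100`;
`mid_right_X1`: `1 | 3 | 1`.
-/

namespace Pool.Agent.Work.MP_b30479_gtS.G2

open VOL NumUs

namespace VN

variable {u v v' w : ℂ} {T r t : ℝ}

/-- `1 | 3 | K`, `K ≠ 1`, hinge up to `56/100` -/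
theorem mid_right_X (h1 : v.re = r) (h2 : v.im = 20 * t * (8 / 10 - r))
    (h3 : v'.re = 66 / 100) (h4 : v'.im = t) (hr : 75 / 100 ≤ r) (hr' : r ≤ 80 / 100)
    (hx : 42 / 100 ≤ u.re) (hx' : u.re ≤ 56 / 100)
    (hu : u.re ≤ 1 / 2 ∧ u.im = -T ∨
      1 / 2 ≤ u.re ∧ u.im = -(T * (20 / 3 * (65 / 100 - u.re))))
    (hT : 21 / 1000 ≤ T) (hT' : T ≤ 1145 / 10000) (hw : 11 / 100 ≤ w.re) (hw' : w.re ≤ 31 / 100)
    (hS : -98 / 1000 ≤ w.im) (hS' : w.im ≤ 57 / 1000) (ht : -82 / 1000 ≤ t) (ht' : t ≤ 5 / 1000)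
    (hs : -40 / 1000 ≤ t + T) (hs' : t + T ≤ 84 / 1000)
    (hS0 : 0 < t → -57 / 1000 ≤ w.im ∧ w.im ≤ 22 / 1000) :
    SM (-(20 * t)) u v w < 0 ∨ V3 u v w < V3 u v' w := by
  have side : (v.re + w.re ≤ 96 / 100 ∨ t ≤ 0 ∧ v.im + w.im < 0) →
      SM (-(20 * t)) u v w < 0 := by
    intro hc
    have g : GA (-(20 * t)) u v + GC (-(20 * t)) v < -(vh t) := by
      rcases hu with ⟨hu1, hu2⟩ | ⟨hu1, hu2⟩
      · exact xG h1 h2 hx hu1 hu2 hT hT' (by linarith only [ht]) ht' (by linarith only [hs]) hs' hr hr'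
      · exact xG' h1 h2 hu1 hx' hu2 hT hT' (by linarith only [ht]) ht' (by linarith only [hs]) hs' hr hr'
    have k : GB (-(20 * t)) v w < vh t := by
      rcases le_or_gt t 0 with h0 | h0
      · refine xH h1 h2 hw (by linarith only [hw']) (by linarith only [hS]) hS' (by linarith only [ht]) h0 hr hr' ?_
        rcases hc with hc | hc
        · exact Or.inl hc
        · exact Or.inr hc.2
      · obtain ⟨s1, s2⟩ := hS0 h0
        exact xH4 h1 h2 hw (hc.resolve_right fun q => absurd q.1 (not_le.2 h0)) s1 s2 h0.le ht'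
          hr hr'
    rw [SM_split]
    linarith only [g, k]
  rcases le_or_gt (v.re + w.re) (96 / 100) with c1 | c1
  · exact Or.inl (side (Or.inl c1))
  · by_cases hc : t ≤ 0 ∧ v.im + w.im < 0
    · exact Or.inl (side (Or.inr hc))
    · right
      have hi : 0 ≤ 20 * t * (8 / 10 - r) + w.im ∨ 0 < t := by
        rcases le_or_gt t 0 with h0 | h0
        · left
          rw [← h2]
          by_contra hcon
          exact hc ⟨h0, not_le.1 hcon⟩
        · exact Or.inr h0
      have a : 0 < FA (66 / 100) r t (20 * t * (8 / 10 - r)) u.re u.im +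
          FC (66 / 100) r t (20 * t * (8 / 10 - r)) + vg t (8 / 10 - r) := by
        rcases hu with ⟨hu1, hu2⟩ | ⟨hu1, hu2⟩
        · have := xA hx hu1 hT hT' ht ht' hs hs' hr hr'
          rwa [← hu2] at this
        · have := xA' hu1 hx' hT hT' ht ht' hs hs' hr hr'
          rwa [← hu2] at this
      have b := xB (w := w.re) (S := w.im) (t := t) (r := r) (by linarith only [h1, c1]) hw' ht ht' hS hS'
        (fun q => (hS0 q).2) hi hr hr'
      have e := V3_diff (u := u) (w := w) h1 h2 h3 h4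
      linarith only [a, b, e]

/-- `1 | 3 | 1` -/
theorem mid_right_X1 (h1 : v.re = r) (h2 : v.im = 20 * t * (8 / 10 - r)) (hr : 75 / 100 ≤ r)
    (hr' : r ≤ 80 / 100) (hx : 42 / 100 ≤ u.re) (hx' : u.re ≤ 65 / 100)
    (hu : u.re ≤ 1 / 2 ∧ u.im = -T ∨
      1 / 2 ≤ u.re ∧ u.im = -(T * (20 / 3 * (65 / 100 - u.re))))
    (hT : 21 / 1000 ≤ T) (hT' : T ≤ 1145 / 10000) (hw : 11 / 100 ≤ w.re) (hw' : w.re ≤ 39 / 100)
    (hS : -1145 / 10000 ≤ w.im) (hS' : w.im < 0) (ht : -90 / 1000 ≤ t)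
    (ht' : t ≤ -18 / 1000) (hs : -45 / 1000 ≤ t + T) (hs' : t + T ≤ 70 / 1000) :
    SM (-(20 * t)) u v w < 0 := by
  have hv : v.im ≤ 0 := by
    rw [h2]
    exact mul_nonpos_of_nonpos_of_nonneg (by linarith only [hS, hS', ht']) (by linarith only [hr'])
  have g : GA (-(20 * t)) u v + GC (-(20 * t)) v < -(vh t) := by
    rcases hu with ⟨hu1, hu2⟩ | ⟨hu1, hu2⟩
    · exact xG h1 h2 hx hu1 hu2 hT hT' ht (by linarith only [hS, hS', ht']) hs (by linarith only [hS, hS', hs']) hr hr'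
    · rcases le_total u.re (56 / 100) with h5 | h5
      · exact xG' h1 h2 hu1 h5 hu2 hT hT' ht (by linarith only [hS, hS', ht']) hs (by linarith only [hS, hS', hs']) hr hr'
      · exact xG'' h1 h2 h5 hx' hu2 hT hT' ht ht' hs hs' hr hr'
  have k : GB (-(20 * t)) v w < vh t :=
    xH h1 h2 hw hw' hS (by linarith only [hS, hS']) ht (by linarith only [hS, hS', ht']) hr hr' (Or.inr (by linarith only [hS', hv]))
  rw [SM_split]
  linarith only [g, k]

end VN

end Pool.Agent.Work.MP_b30479_gtS.G2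

end

section

/-!
# Right side of the hinge `1 | 3` (slot `0`): inner variable on its right ramp
-/

namespace Pool.Agent.Work.MP_b30479_gtS.G2

open Finset VOL Filter Topology

namespace HX

open SR

variable {M : ℕ} {b : Fin (M + 1) → ℤ} {zs : DD (tyW b) ⊕ ZZ (tyW b) → ℂ}
variable {y : DD (tyW b) ⊕ ZZ (tyW b) → ℝ}
variable {h h' h3 : Fin M} {i j j' k : Fin (M + 1)} {p : Fin 3}

theorem kd_ne {K : Cl} (hK : K ≠ .one) : -82 / 1000 ≤ ((kd K).t0 : ℝ) / 10000 ∧
    ((kd K).t1 : ℝ) / 10000 ≤ 5 / 1000 ∧ -40 / 1000 ≤ ((kd K).s0 : ℝ) / 10000 ∧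
    ((kd K).s1 : ℝ) / 10000 ≤ 84 / 1000 ∧ -98 / 1000 ≤ ((kd K).wl : ℝ) / 10000 ∧
    ((kd K).wh : ℝ) / 10000 ≤ 57 / 1000 ∧
    (((kd K).t1 : ℝ) / 10000 ≤ 0 ∨ -57 / 1000 ≤ ((kd K).wl : ℝ) / 10000 ∧
      ((kd K).wh : ℝ) / 10000 ≤ 22 / 1000) := by
  cases K <;> first
    | exact absurd rfl hK
    | (simp only [kd]; norm_num)

/-- the inner variable of the digit `3` on its right ramp -/
theorem mR_data (hb : ClassW b) (hy : Mx b zs y)
    (hpos : ∀ h : Fin M, 0 < y (.inl (.inl h))) (hj : clsW b j = .three)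
    (hm : 75 / 100 < y (.inl (.inr (mI b hj)))) :
    (Yw b zs y j 1).re = y (.inl (.inr (mI b hj))) ∧
    (Yw b zs y j 1).im = 20 * hI zs hj * (8 / 10 - y (.inl (.inr (mI b hj)))) ∧
    y (.inl (.inr (mI b hj))) ≤ 80 / 100 ∧
    0 ≤ SM (-(20 * hI zs hj)) (Yw b zs y j 0) (Yw b zs y j 1) (Yw b zs y j 2) := by
  obtain ⟨p1, p2, p3⟩ := pp_mI (zs := zs) hj
  have hR := mid_RH hy (mI b hj)
  have hF := mid_fc hb hy hpos (mI b hj) (by linarith only [hj, hm])
  rw [p1, p2, p3] at hR hF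
  have hmre : (Yw b zs y (mI b hj).1 1).re = y (.inl (.inr (mI b hj))) := by
    rw [Yw_mid (zs := zs) (y := y) (mI b hj), ofr_pp_re]
  have hM := hR.reM
  rw [hmre] at hM
  refine ⟨hmre, ?_, by linarith only [hj, hM], ?_⟩
  · show (Yw b zs y (mI b hj).1 1).im = _
    rw [MR.RH_right hR (by norm_num) (by norm_num) (by norm_num) (by rw [hmre]; linarith only [hj, hm]), hmre]
    unfold hI
    show ofs (b j) _ * _ = _
    ring
  · rw [← OM_three hj]
    have h1 := hF.right' (by rw [hmre]; linarith only [hj, hm])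
    have e : -(20 * hI zs hj) = -(ofs (b (mI b hj).1) (zs (.inl (.inr (mI b hj)))).im /
        (5 / 100)) := by
      show -(20 * hI zs hj) = -(hI zs hj / (5 / 100))
      ring
    rw [e]
    exact h1

/-- **The inner variable is not on its right ramp.** -/
theorem mid_le (hb : ClassW b) (hL : Loc b zs) (hX : LocX b zs) (hy : Mx b zs y)
    (hpos : ∀ h : Fin M, 0 < y (.inl (.inl h)))
    (A : Adj h i 2 j) (A3 : Adj h3 j 2 k) (hi : clsW b i = .one) (hj : clsW b j = .three)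
    (hx0 : 42 / 100 ≤ y (.inl (.inl h))) (hxK : clsW b k ≠ .one → y (.inl (.inl h)) ≤ 56 / 100)
    (hw0 : 11 / 100 ≤ y (.inl (.inl h3))) (hw1 : y (.inl (.inl h3)) ≤ 39 / 100)
    (hw2 : clsW b k ≠ .one → y (.inl (.inl h3)) ≤ 31 / 100) :
    y (.inl (.inr (mI b hj))) ≤ 75 / 100 := by
  by_contra hcon
  have hcon := not_le.1 hcon
  have hop := A.opp hb (Or.inl (by rw [hi]; decide))
  have G := geo13 hb hL hy A hi hj (by linarith only [hx0])
  obtain ⟨hure, hu1, hu2⟩ := u13 hb A hi G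
  have hxM := G.xM
  have hT0 := G.T0
  have hT1 := G.T1
  have B : Adj h j 0 i := A.symm
  have hTj : ofs (b j) (zs (.inl (.inl h))).im = -ofs (b i) (zs (.inl (.inl h))).im :=
    ofs_opp hop _
  obtain ⟨m0, m1, m2, m3⟩ := m_im hb hX B A3 hi hj
  rw [hTj, sub_neg_eq_add] at m2 m3
  obtain ⟨w0, w1⟩ := w_im A3 hb hL hy hj hw0 hw1 hw2
  obtain ⟨hmre, hmim, hmM, hfoc⟩ := mR_data hb hy hpos hj hcon
  have hwre := A3.re (b := b) (zs := zs) (y := y)
  set x := y (.inl (.inl h)) with hx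
  set T := ofs (b i) (zs (.inl (.inl h))).im with hT
  have hu : (Yw b zs y j 0).re ≤ 1 / 2 ∧ (Yw b zs y j 0).im = -T ∨
      1 / 2 ≤ (Yw b zs y j 0).re ∧
        (Yw b zs y j 0).im = -(T * (20 / 3 * (65 / 100 - (Yw b zs y j 0).re))) := by
    rcases le_or_gt x (1 / 2) with h5 | h5
    · exact Or.inl ⟨by rw [hure]; exact h5, hu1 h5⟩
    · exact Or.inr ⟨by rw [hure]; exact h5.le, by rw [hure]; exact hu2 h5⟩
  by_cases hk1 : clsW b k = .one
  · rw [hk1] at m0 m1 m2 m3 w0 w1
    simp only [kd] at m0 m1 m2 m3 w0 w1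
    push_cast at m0 m1 m2 m3 w0 w1
    have := VN.mid_right_X1 (T := T) (r := y (.inl (.inr (mI b hj)))) (t := hI zs hj) hmre hmim
      hcon.le hmM (by rw [hure]; exact hx0) (by rw [hure]; exact hxM) hu hT0 hT1
      (by rw [hwre]; exact hw0) (by rw [hwre]; exact hw1) (by linarith only [w0]) (by linarith)
      (by linarith only [hj, m0]) (by linarith only [hj, m1]) (by linarith only [hj, m2]) (by linarith only [hj, m3])
    linarith only [hj, hfoc, this]
  · obtain ⟨k0, k1, k2, k3, k4, k5, k6⟩ := kd_ne hk1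
    have hS0 : 0 < hI zs hj → -57 / 1000 ≤ (Yw b zs y j 2).im ∧
        (Yw b zs y j 2).im ≤ 22 / 1000 := by
      intro h0
      rcases k6 with k6 | ⟨k6, k7⟩
      · linarith only [hj, m1, h0, k6]
      · exact ⟨by linarith only [w0, k6], by linarith only [w1, k7]⟩
    rcases VN.mid_right_X (v' := lv (66 / 100) (hI zs hj)) (T := T)
      (r := y (.inl (.inr (mI b hj)))) (t := hI zs hj) hmre hmim (lv_re _ _) (lv_im _ _)
      hcon.le hmM (by rw [hure]; exact hx0) (by rw [hure]; exact hxK hk1) hu hT0 hT1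
      (by rw [hwre]; exact hw0) (by rw [hwre]; exact hw2 hk1) (by linarith only [w0, k4]) (by linarith only [w1, k5])
      (by linarith only [hj, m0, k0]) (by linarith only [hj, m1, k1]) (by linarith only [hj, m2, k2]) (by linarith only [hj, m3, k3]) hS0 with h6 | h6
    · linarith only [hj, hfoc, h6]
    · -- the value
      obtain ⟨p1, p2, p3⟩ := pp_mI (zs := zs) hj
      have ht := tyW_of_three hj
      have hne : tyW b j ≠ .ring := by rw [ht]; decide
      have h2 := hy.upd (.inl (.inr (mI b hj))) (c := 66 / 100) (by show (0 : ℝ) ≤ 66 / 100; norm_num)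
        (by show (66 / 100 : ℝ) ≤ (wpar b zs).XM (.inr (mI b hj)); rw [p1]; norm_num)
      have h7 : (wdat (tyW b) b).V (Function.update ((wpar b zs).pth zs y)
          (.inl (.inr (mI b hj))) ((wpar b zs).pp zs (.inl (.inr (mI b hj))) (66 / 100))) -
          (wdat (tyW b) b).V ((wpar b zs).pth zs y) =
          rV (tyW b) b j (Function.update (xx (tyW b) j ((wpar b zs).pth zs y)) 1
            ((wpar b zs).pp zs (.inl (.inr (mI b hj))) (66 / 100))) -
          rV (tyW b) b j (xx (tyW b) j ((wpar b zs).pth zs y)) :=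
        V_upd_mid (tyW b) b (mI b hj) ((wpar b zs).pth zs y)
          ((wpar b zs).pp zs (.inl (.inr (mI b hj))) (66 / 100))
      rw [rV_own hb, rV_own hb, own_update_one hne] at h7
      have e5 : ofr (b j) ((wpar b zs).pp zs (.inl (.inr (mI b hj))) (66 / 100)) =
          lv (66 / 100) (hI zs hj) :=
        ofr_pp_flat (wpar_good b zs) zs (.inr (mI b hj)) (b j) (by rw [p2]; norm_num)
          (by rw [p1, p3]; norm_num)
      have e6 : own (b j) (tyW b j) (xx (tyW b) j ((wpar b zs).pth zs y)) = OY b zs y j := rfl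
      rw [e6, e5] at h7
      have h4 : OV b j (Function.update (OY b zs y j) 1 (lv (66 / 100) (hI zs hj))) -
          OV b j (OY b zs y j) ≤ 0 := by linarith only [hj, h2, h7]
      rw [OV_three hb hj, OV_three hb hj, Function.update_self,
        Function.update_of_ne (by decide), Function.update_of_ne (by decide), OY_zero,
        OY_one hne, OY_two] at h4
      linarith only [hj, h6, h4]

/-- the side of the digit `3`, inner variable on its right ramp -/
theorem side3R (hb : ClassW b) (hL : Loc b zs) (hX : LocX b zs) (hy : Mx b zs y)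
    (hpos : ∀ h : Fin M, 0 < y (.inl (.inl h)))
    (A : Adj h i 2 j) (A3 : Adj h3 j 2 k)
    (hi : clsW b i = .one) (hj : clsW b j = .three) (hk : clsW b k ≠ .one)
    (hx0 : 55 / 100 < y (.inl (.inl h)))
    (hd : y (.inl (.inl h)) ≤ 635 / 1000 ∨ ofs (b i) (zs (.inl (.inl h))).im ≤ 94 / 1000)
    (hm : 75 / 100 < y (.inl (.inr (mI b hj)))) :
    B3 (y (.inl (.inl h))) (ofs (b i) (zs (.inl (.inl h))).im) (Sw b zs y j 0 (slL b zs y h)) := by
  have hop := A.opp hb (Or.inl (by rw [hi]; decide))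
  have G := geo13 hb hL hy A hi hj (by linarith only [hx0])
  obtain ⟨hure, hu1, hu2⟩ := u13 hb A hi G
  obtain ⟨hs1, hs2⟩ := sd13 hb A hi hj G
  have hxM := G.xM
  have hT0 := G.T0
  have hT1 := G.T1
  have B : Adj h j 0 i := A.symm
  have hTj : ofs (b j) (zs (.inl (.inl h))).im = -ofs (b i) (zs (.inl (.inl h))).im :=
    ofs_opp hop _
  obtain ⟨m0, m1, m2, m3⟩ := m_im hb hX B A3 hi hj
  rw [hTj, sub_neg_eq_add] at m2 m3
  obtain ⟨k0, k1, k2, k3, -, -, -⟩ := kd_ne hk
  obtain ⟨hmre, hmim, hmM, -⟩ := mR_data hb hy hpos hj hm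
  refine ⟨fun h6 => by linarith only [hj, hx0, hm, hmM, h6], fun h6 h5 => by linarith only [hj, hx0, hm, hmM, h5], fun h5 h6 => by linarith only [hx0, h6],
    fun h6 => ?_⟩
  rw [hs2 (by linarith only [hj, hx0, hm, hmM])]
  have := three_R (u := Yw b zs y j 0) (v := Yw b zs y j 1)
    (T := ofs (b i) (zs (.inl (.inl h))).im) (t := hI zs hj) hmre hmim hm.le hmM
    (by rw [hure]; exact h6) (by rw [hure]; exact hxM) (by rw [hure]; exact hd) hT0 hT1
    (by linarith only [hj, m0, k0]) (by linarith only [hj, m1, k1]) (by linarith only [hj, m2, k2]) (by linarith only [hj, m3, k3])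
    (by rw [hure]; exact hu2 (by linarith only [hj, hx0, hm, hmM])) rfl
  rwa [hure] at this

/-- **Right side of the hinge `1 | 3` (slot `0`).**  `k`-floors `K13`. -/
theorem coreX (hb : ClassW b) (hL : Loc b zs) (hX : LocX b zs) (hy : Mx b zs y)
    (hpos : ∀ h : Fin M, 0 < y (.inl (.inl h)))
    (A : Adj h i 2 j) (A' : Adj h' i 0 j') (A3 : Adj h3 j 2 k)
    (hi : clsW b i = .one) (hj : clsW b j = .three)
    (hx0 : 45 / 100 ≤ y (.inl (.inl h)))
    (hxK : 46 / 100 ≤ y (.inl (.inl h)) ∧ clsW b k ≠ .one ∨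
      clsW b k = .one ∧ (131 / 1000 ≤ y (.inl (.inl h3)) ∨ 47 / 100 ≤ y (.inl (.inl h))))
    (hS : y (.inl (.inl h)) + y (.inl (.inl h')) ≤ 95 / 100)
    (h2e : clsW b j' = .twoE → y (.inl (.inl h')) ≤ 35 / 100)
    (hend : clsW b j' = .twoE → y (.inl (.inl h)) ≤ 635 / 1000)
    (hw0 : 11 / 100 ≤ y (.inl (.inl h3))) (hw1 : y (.inl (.inl h3)) ≤ 39 / 100)
    (hw2 : clsW b k ≠ .one → y (.inl (.inl h3)) ≤ 31 / 100)
    (hm0 : y (.inl (.inl h)) + 4 / 100 ≤ y (.inl (.inr (mI b hj))))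
    (hk : K13 (clsW b j') (y (.inl (.inl h))) (y (.inl (.inl h')))) : False := by
  have hd := T94 hb hX A A' hi hj hend
  refine core0 hb hL hX hy hpos A A' hi hj hx0 hS h2e hend hk ?_
  rcases le_or_gt (y (.inl (.inr (mI b hj)))) (75 / 100) with hm | hm
  · exact side3 hb hL hX hy hpos A A3 hi hj hx0 hxK hd hw0 hw1 hw2 hm0 hm
  · by_cases hk1 : clsW b k ≠ .one ∧ 56 / 100 < y (.inl (.inl h))
    · exact side3R hb hL hX hy hpos A A3 hi hj hk1.1 (by linarith only [hk1, hk1.2]) hd hm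
    · have := mid_le hb hL hX hy hpos A A3 hi hj (by linarith only [hx0])
        (fun h5 => not_lt.1 fun h6 => hk1 ⟨h5, h6⟩) hw0 hw1 hw2
      linarith only [hj, hm, this]

end HX

end Pool.Agent.Work.MP_b30479_gtS.G2

end
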