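import Pool.Agent.Work.MP_b30479_gt.TBS.G2.H14E
import Pool.Agent.Work.MP_b30479_gt.TBS.G2.H13
import Pool.Agent.Work.MP_b30479_gt.TBS.G2.WLocX
import Pool.Agent.Work.MP_b30479_gt.TBS.G2.V3RXC
import Pool.Agent.Work.MP_b30479_gt.TBS.G2.H13W
import Pool.Agent.Work.MP_b30479_gt.TBS.G2.V2BMv
import Pool.Agent.Work.MP_b30479_gt.TBS.G2.WLocF

section

/-!
# The round `R2` of the hinge `1 | 3` (slot `0`): the two sides

The hinge is in `[42/100, 47/100]` (`[40/100, 42/100]` if the other neighbour of the `3` is a `2`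
at an end); floors of the round `L2` only.
-/

namespace Pool.Agent.Work.MP_b30479_gtS.G2

open VOL NumIs

namespace HX

/-- windows of the inner variable, by the classes of the other neighbours -/
structure MD where
  /-- lower bound of the height, in units `1/10000` -/
  t0 : ℤ
  /-- upper bound -/
  t1 : ℤ
  /-- lower bound of the difference of the heights -/
  s0 : ℤ
  /-- upper bound -/
  s1 : ℤ

/-- windows of the inner variable: `P`: other neighbour of the `1`, `K`: other neighbour of the
`3` -/
def km : SR.Cl → SR.Cl → MD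
  | .one, .one => ⟨-745, -180, -450, 700⟩
  | .one, .ring => ⟨-485, 0, -65, 475⟩
  | .one, .twoE => ⟨-515, -50, -20, 475⟩
  | .one, _ => ⟨-655, 50, -130, 475⟩
  | .two, .one => ⟨-585, -180, -450, 700⟩
  | .two, .ring => ⟨-330, 0, 270, 630⟩
  | .two, .twoE => ⟨-355, -50, 310, 635⟩
  | .two, _ => ⟨-490, 50, 210, 630⟩
  | _, .one => ⟨-900, -180, -450, 700⟩
  | _, .ring => ⟨-720, 0, -340, 800⟩
  | _, .twoE => ⟨-620, -50, -200, 750⟩
  | _, _ => ⟨-820, 50, -400, 840⟩

/-- bounding functions -/
noncomputable def fP : SR.Cl → ℝ → ℝ → ℝ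
  | .one => af 2437 2798 4450 (-14905)
  | .two => af 3542 2836 4450 (-17813)
  | _ => af 789 2616 4450 (-12546)

/-- bounding functions, `[40/100, 42/100]` -/
noncomputable def gP : SR.Cl → ℝ → ℝ → ℝ
  | .one => af 3312 2285 4100 (-19633)
  | .two => af 4513 2374 4100 (-23839)
  | _ => af 1829 2212 4100 (-16591)

/-- the digit `3`: `u`: hinge in the slot `0`, `v`: inner variable, `w`: hinge in the slot `2` -/
structure In4 (P K : SR.Cl) (u v w : ℂ) (T : ℝ) : Prop where
  c : P = .one ∨ P = .two ∨ P = .twoE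
  T0 : (SR.cw P .three).t0 ≤ T
  T1 : T ≤ (SR.cw P .three).t1
  x0 : 40 / 100 ≤ u.re
  x1 : u.re ≤ 47 / 100
  hu : u.im = -T
  p0 : 4 / 100 ≤ v.re - u.re
  v1 : v.re ≤ 75 / 100
  m0 : ((km P K).t0 : ℝ) / 10000 ≤ v.im
  m1 : v.im ≤ ((km P K).t1 : ℝ) / 10000
  s0 : ((km P K).s0 : ℝ) / 10000 ≤ v.im + T
  s1 : v.im + T ≤ ((km P K).s1 : ℝ) / 10000
  w0 : 13 / 100 ≤ w.re
  w01 : K = .one → 15 / 100 ≤ w.re
  w1 : w.re ≤ 39 / 100
  w2 : K ≠ .one → w.re ≤ 31 / 100
  h0 : ((kd K).wl : ℝ) / 10000 ≤ w.im
  h1 : w.im ≤ ((kd K).wh : ℝ) / 10000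
  n : 0 < MM (v.re + w.re) (v.im + w.im)
  f : 0 ≤ SM 0 u v w

variable {P K : SR.Cl} {u v w : ℂ} {T x k κ : ℝ}

/-- a row -/
theorem row4 {a b xc c wf x0 x1 T0 T1 p0 p1 vM vL : ℤ}
    (hl : f3C a b xc c wf (kd K).wl x0 x1 T0 T1 p0 p1 (km P K).t0 (km P K).t1 (km P K).s0
      (km P K).s1 vM vL = true)
    (hh : f3C a b xc c wf (kd K).wh x0 x1 T0 T1 p0 p1 (km P K).t0 (km P K).t1 (km P K).s0
      (km P K).s1 vM vL = true)
    (H : In4 P K u v w T)
    (hx : (x0 : ℝ) / 10000 ≤ u.re) (hx' : u.re ≤ (x1 : ℝ) / 10000)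
    (hT : (T0 : ℝ) / 10000 ≤ T) (hT' : T ≤ (T1 : ℝ) / 10000)
    (hp : (p0 : ℝ) / 10000 ≤ v.re - u.re) (hp' : v.re - u.re ≤ (p1 : ℝ) / 10000)
    (hv : v.re ≤ (vM : ℝ) / 10000) (hv' : (vL : ℝ) / 10000 ≤ v.re)
    (hw0 : 11 / 100 ≤ (wf : ℝ) / 10000) (hw1 : (wf : ℝ) / 10000 ≤ 16 / 100)
    (hw2 : (wf : ℝ) / 10000 ≤ w.re) (hw3 : v.re + w.re ≤ 2 - (v.re + (wf : ℝ) / 10000)) :
    S3 1 0 u v < -(af a b xc c u.re T) := by
  have q0 := H.x0
  have q1 := H.x1
  have q2 := H.p0
  have q3 := H.v1
  exact flat3_c hl hh (by linarith only [q0]) (by linarith only [q1]) (by linarith only [q2]) (by linarith only [q3]) hx hx' hT hT' hp hp'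
    H.m0 H.m1 H.s0 H.s1 hv hv' H.hu (by linarith only [hw0, q0, q2]) (by linarith only [hw1, q3]) hw2 hw3 H.h0 H.h1 H.n H.f

/-- the side of the digit `3` -/
theorem three4 (H : In4 P K u v w T) (hx : 42 / 100 ≤ u.re) :
    S3 1 0 u v < -(fP P u.re T) := by
  have hP := H.c
  have hT0 := H.T0
  have hT1 := H.T1
  have v1 := H.v1
  have p0 := H.p0
  have x1 := H.x1
  have x0 := H.x0
  have w0 := H.w0
  have w1 := H.w1
  rcases hP with rfl | rfl | rfl
  · simp only [SR.cw] at hT0 hT1
    cases K
    case one =>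
      have w01 := H.w01 rfl
      rcases le_total v.re (73 / 100) with hv | hv
      · exact row4 (P := .one) (K := .one) q1K1Al q1K1Ah H (by push_cast; linarith only [hx]) (by push_cast; linarith only [x1]) (by push_cast; linarith only [hT0]) (by push_cast; linarith only [hT1]) (by push_cast; linarith only [p0]) (by push_cast; linarith only [hx, hv]) (by push_cast; linarith only [hv]) (by push_cast; linarith only [hx, p0]) (by push_cast; linarith only []) (by push_cast; linarith only []) (by push_cast; linarith only [w01]) (by push_cast; linarith only [w1, hv])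
      · exact row4 (P := .one) (K := .one) q1K1Sl q1K1Sh H (by push_cast; linarith only [hx]) (by push_cast; linarith only [x1]) (by push_cast; linarith only [hT0]) (by push_cast; linarith only [hT1]) (by push_cast; linarith only [x1, hv]) (by push_cast; linarith only [hx, v1]) (by push_cast; linarith only [v1]) (by push_cast; linarith only [hv]) (by push_cast; linarith only []) (by push_cast; linarith only []) (by push_cast; linarith only [w01]) (by push_cast; linarith only [v1, w1])
    case two =>
      have w2 := H.w2 (by decide)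
      exact row4 (P := .one) (K := .two) q1KOAl q1KOAh H (by push_cast; linarith only [hx]) (by push_cast; linarith only [x1]) (by push_cast; linarith only [hT0]) (by push_cast; linarith only [hT1]) (by push_cast; linarith only [p0]) (by push_cast; linarith only [hx, v1]) (by push_cast; linarith only [v1]) (by push_cast; linarith only [hx, p0]) (by push_cast; linarith only []) (by push_cast; linarith only []) (by push_cast; linarith only [w0]) (by push_cast; linarith only [v1, w2])
    case twoE =>
      have w2 := H.w2 (by decide)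
      exact row4 (P := .one) (K := .twoE) q1KEAl q1KEAh H (by push_cast; linarith only [hx]) (by push_cast; linarith only [x1]) (by push_cast; linarith only [hT0]) (by push_cast; linarith only [hT1]) (by push_cast; linarith only [p0]) (by push_cast; linarith only [hx, v1]) (by push_cast; linarith only [v1]) (by push_cast; linarith only [hx, p0]) (by push_cast; linarith only []) (by push_cast; linarith only []) (by push_cast; linarith only [w0]) (by push_cast; linarith only [v1, w2])
    case three =>
      have w2 := H.w2 (by decide)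
      exact row4 (P := .one) (K := .three) q1KOAl q1KOAh H (by push_cast; linarith only [hx]) (by push_cast; linarith only [x1]) (by push_cast; linarith only [hT0]) (by push_cast; linarith only [hT1]) (by push_cast; linarith only [p0]) (by push_cast; linarith only [hx, v1]) (by push_cast; linarith only [v1]) (by push_cast; linarith only [hx, p0]) (by push_cast; linarith only []) (by push_cast; linarith only []) (by push_cast; linarith only [w0]) (by push_cast; linarith only [v1, w2])
    case threeE =>
      have w2 := H.w2 (by decide)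
      exact row4 (P := .one) (K := .threeE) q1KOAl q1KOAh H (by push_cast; linarith only [hx]) (by push_cast; linarith only [x1]) (by push_cast; linarith only [hT0]) (by push_cast; linarith only [hT1]) (by push_cast; linarith only [p0]) (by push_cast; linarith only [hx, v1]) (by push_cast; linarith only [v1]) (by push_cast; linarith only [hx, p0]) (by push_cast; linarith only []) (by push_cast; linarith only []) (by push_cast; linarith only [w0]) (by push_cast; linarith only [v1, w2])
    case ring =>
      have w2 := H.w2 (by decide)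
      exact row4 (P := .one) (K := .ring) q1KZAl q1KZAh H (by push_cast; linarith only [hx]) (by push_cast; linarith only [x1]) (by push_cast; linarith only [hT0]) (by push_cast; linarith only [hT1]) (by push_cast; linarith only [p0]) (by push_cast; linarith only [hx, v1]) (by push_cast; linarith only [v1]) (by push_cast; linarith only [hx, p0]) (by push_cast; linarith only []) (by push_cast; linarith only []) (by push_cast; linarith only [w0]) (by push_cast; linarith only [v1, w2])
  · simp only [SR.cw] at hT0 hT1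
    cases K
    case one =>
      have w01 := H.w01 rfl
      rcases le_total v.re (73 / 100) with hv | hv
      · exact row4 (P := .two) (K := .one) q2K1Al q2K1Ah H (by push_cast; linarith only [hx]) (by push_cast; linarith only [x1]) (by push_cast; linarith only [hT0]) (by push_cast; linarith only [hT1]) (by push_cast; linarith only [p0]) (by push_cast; linarith only [hx, hv]) (by push_cast; linarith only [hv]) (by push_cast; linarith only [hx, p0]) (by push_cast; linarith only []) (by push_cast; linarith only []) (by push_cast; linarith only [w01]) (by push_cast; linarith only [w1, hv])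
      · exact row4 (P := .two) (K := .one) q2K1Sl q2K1Sh H (by push_cast; linarith only [hx]) (by push_cast; linarith only [x1]) (by push_cast; linarith only [hT0]) (by push_cast; linarith only [hT1]) (by push_cast; linarith only [x1, hv]) (by push_cast; linarith only [hx, v1]) (by push_cast; linarith only [v1]) (by push_cast; linarith only [hv]) (by push_cast; linarith only []) (by push_cast; linarith only []) (by push_cast; linarith only [w01]) (by push_cast; linarith only [v1, w1])
    case two =>
      have w2 := H.w2 (by decide)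
      exact row4 (P := .two) (K := .two) q2KOAl q2KOAh H (by push_cast; linarith only [hx]) (by push_cast; linarith only [x1]) (by push_cast; linarith only [hT0]) (by push_cast; linarith only [hT1]) (by push_cast; linarith only [p0]) (by push_cast; linarith only [hx, v1]) (by push_cast; linarith only [v1]) (by push_cast; linarith only [hx, p0]) (by push_cast; linarith only []) (by push_cast; linarith only []) (by push_cast; linarith only [w0]) (by push_cast; linarith only [v1, w2])
    case twoE =>
      have w2 := H.w2 (by decide)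
      exact row4 (P := .two) (K := .twoE) q2KEAl q2KEAh H (by push_cast; linarith only [hx]) (by push_cast; linarith only [x1]) (by push_cast; linarith only [hT0]) (by push_cast; linarith only [hT1]) (by push_cast; linarith only [p0]) (by push_cast; linarith only [hx, v1]) (by push_cast; linarith only [v1]) (by push_cast; linarith only [hx, p0]) (by push_cast; linarith only []) (by push_cast; linarith only []) (by push_cast; linarith only [w0]) (by push_cast; linarith only [v1, w2])
    case three =>
      have w2 := H.w2 (by decide)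
      exact row4 (P := .two) (K := .three) q2KOAl q2KOAh H (by push_cast; linarith only [hx]) (by push_cast; linarith only [x1]) (by push_cast; linarith only [hT0]) (by push_cast; linarith only [hT1]) (by push_cast; linarith only [p0]) (by push_cast; linarith only [hx, v1]) (by push_cast; linarith only [v1]) (by push_cast; linarith only [hx, p0]) (by push_cast; linarith only []) (by push_cast; linarith only []) (by push_cast; linarith only [w0]) (by push_cast; linarith only [v1, w2])
    case threeE =>
      have w2 := H.w2 (by decide)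
      exact row4 (P := .two) (K := .threeE) q2KOAl q2KOAh H (by push_cast; linarith only [hx]) (by push_cast; linarith only [x1]) (by push_cast; linarith only [hT0]) (by push_cast; linarith only [hT1]) (by push_cast; linarith only [p0]) (by push_cast; linarith only [hx, v1]) (by push_cast; linarith only [v1]) (by push_cast; linarith only [hx, p0]) (by push_cast; linarith only []) (by push_cast; linarith only []) (by push_cast; linarith only [w0]) (by push_cast; linarith only [v1, w2])
    case ring =>
      have w2 := H.w2 (by decide)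
      exact row4 (P := .two) (K := .ring) q2KZAl q2KZAh H (by push_cast; linarith only [hx]) (by push_cast; linarith only [x1]) (by push_cast; linarith only [hT0]) (by push_cast; linarith only [hT1]) (by push_cast; linarith only [p0]) (by push_cast; linarith only [hx, v1]) (by push_cast; linarith only [v1]) (by push_cast; linarith only [hx, p0]) (by push_cast; linarith only []) (by push_cast; linarith only []) (by push_cast; linarith only [w0]) (by push_cast; linarith only [v1, w2])
  · simp only [SR.cw] at hT0 hT1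
    cases K
    case one =>
      have w01 := H.w01 rfl
      rcases le_total v.re (73 / 100) with hv | hv
      · exact row4 (P := .twoE) (K := .one) qEK1Al qEK1Ah H (by push_cast; linarith only [hx]) (by push_cast; linarith only [x1]) (by push_cast; linarith only [hT0]) (by push_cast; linarith only [hT1]) (by push_cast; linarith only [p0]) (by push_cast; linarith only [hx, hv]) (by push_cast; linarith only [hv]) (by push_cast; linarith only [hx, p0]) (by push_cast; linarith only []) (by push_cast; linarith only []) (by push_cast; linarith only [w01]) (by push_cast; linarith only [w1, hv])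
      · exact row4 (P := .twoE) (K := .one) qEK1Sl qEK1Sh H (by push_cast; linarith only [hx]) (by push_cast; linarith only [x1]) (by push_cast; linarith only [hT0]) (by push_cast; linarith only [hT1]) (by push_cast; linarith only [x1, hv]) (by push_cast; linarith only [hx, v1]) (by push_cast; linarith only [v1]) (by push_cast; linarith only [hv]) (by push_cast; linarith only []) (by push_cast; linarith only []) (by push_cast; linarith only [w01]) (by push_cast; linarith only [v1, w1])
    case two =>
      have w2 := H.w2 (by decide)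
      exact row4 (P := .twoE) (K := .two) qEKOAl qEKOAh H (by push_cast; linarith only [hx]) (by push_cast; linarith only [x1]) (by push_cast; linarith only [hT0]) (by push_cast; linarith only [hT1]) (by push_cast; linarith only [p0]) (by push_cast; linarith only [hx, v1]) (by push_cast; linarith only [v1]) (by push_cast; linarith only [hx, p0]) (by push_cast; linarith only []) (by push_cast; linarith only []) (by push_cast; linarith only [w0]) (by push_cast; linarith only [v1, w2])
    case twoE =>
      have w2 := H.w2 (by decide)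
      exact row4 (P := .twoE) (K := .twoE) qEKEAl qEKEAh H (by push_cast; linarith only [hx]) (by push_cast; linarith only [x1]) (by push_cast; linarith only [hT0]) (by push_cast; linarith only [hT1]) (by push_cast; linarith only [p0]) (by push_cast; linarith only [hx, v1]) (by push_cast; linarith only [v1]) (by push_cast; linarith only [hx, p0]) (by push_cast; linarith only []) (by push_cast; linarith only []) (by push_cast; linarith only [w0]) (by push_cast; linarith only [v1, w2])
    case three =>
      have w2 := H.w2 (by decide)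
      exact row4 (P := .twoE) (K := .three) qEKOAl qEKOAh H (by push_cast; linarith only [hx]) (by push_cast; linarith only [x1]) (by push_cast; linarith only [hT0]) (by push_cast; linarith only [hT1]) (by push_cast; linarith only [p0]) (by push_cast; linarith only [hx, v1]) (by push_cast; linarith only [v1]) (by push_cast; linarith only [hx, p0]) (by push_cast; linarith only []) (by push_cast; linarith only []) (by push_cast; linarith only [w0]) (by push_cast; linarith only [v1, w2])
    case threeE =>
      have w2 := H.w2 (by decide)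
      exact row4 (P := .twoE) (K := .threeE) qEKOAl qEKOAh H (by push_cast; linarith only [hx]) (by push_cast; linarith only [x1]) (by push_cast; linarith only [hT0]) (by push_cast; linarith only [hT1]) (by push_cast; linarith only [p0]) (by push_cast; linarith only [hx, v1]) (by push_cast; linarith only [v1]) (by push_cast; linarith only [hx, p0]) (by push_cast; linarith only []) (by push_cast; linarith only []) (by push_cast; linarith only [w0]) (by push_cast; linarith only [v1, w2])
    case ring =>
      have w2 := H.w2 (by decide)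
      exact row4 (P := .twoE) (K := .ring) qEKZAl qEKZAh H (by push_cast; linarith only [hx]) (by push_cast; linarith only [x1]) (by push_cast; linarith only [hT0]) (by push_cast; linarith only [hT1]) (by push_cast; linarith only [p0]) (by push_cast; linarith only [hx, v1]) (by push_cast; linarith only [v1]) (by push_cast; linarith only [hx, p0]) (by push_cast; linarith only []) (by push_cast; linarith only []) (by push_cast; linarith only [w0]) (by push_cast; linarith only [v1, w2])

/-- the side of the digit `3` -/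
theorem three4e (H : In4 P K u v w T) (hK : K = .twoE) (hx : u.re ≤ 42 / 100) :
    S3 1 0 u v < -(gP P u.re T) := by
  subst hK
  have hP := H.c
  have hT0 := H.T0
  have hT1 := H.T1
  have v1 := H.v1
  have p0 := H.p0
  have x1 := H.x1
  have x0 := H.x0
  have w0 := H.w0
  have w1 := H.w1
  rcases hP with rfl | rfl | rfl
  · simp only [SR.cw] at hT0 hT1
    have w2 := H.w2 (by decide)
    exact row4 (P := .one) (K := .twoE) q1KELl q1KELh H (by push_cast; linarith only [x0]) (by push_cast; linarith only [hx]) (by push_cast; linarith only [hT0]) (by push_cast; linarith only [hT1]) (by push_cast; linarith only [p0]) (by push_cast; linarith only [v1, x0]) (by push_cast; linarith only [v1]) (by push_cast; linarith only [p0, x0]) (by push_cast; linarith only []) (by push_cast; linarith only []) (by push_cast; linarith only [w0]) (by push_cast; linarith only [v1, w2])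
  · simp only [SR.cw] at hT0 hT1
    have w2 := H.w2 (by decide)
    exact row4 (P := .two) (K := .twoE) q2KELl q2KELh H (by push_cast; linarith only [x0]) (by push_cast; linarith only [hx]) (by push_cast; linarith only [hT0]) (by push_cast; linarith only [hT1]) (by push_cast; linarith only [p0]) (by push_cast; linarith only [v1, x0]) (by push_cast; linarith only [v1]) (by push_cast; linarith only [p0, x0]) (by push_cast; linarith only []) (by push_cast; linarith only []) (by push_cast; linarith only [w0]) (by push_cast; linarith only [v1, w2])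
  · simp only [SR.cw] at hT0 hT1
    have w2 := H.w2 (by decide)
    exact row4 (P := .twoE) (K := .twoE) qEKELl qEKELh H (by push_cast; linarith only [x0]) (by push_cast; linarith only [hx]) (by push_cast; linarith only [hT0]) (by push_cast; linarith only [hT1]) (by push_cast; linarith only [p0]) (by push_cast; linarith only [v1, x0]) (by push_cast; linarith only [v1]) (by push_cast; linarith only [p0, x0]) (by push_cast; linarith only []) (by push_cast; linarith only []) (by push_cast; linarith only [w0]) (by push_cast; linarith only [v1, w2])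

/-- the digit `1`: hinge `x`, height `T`; other hinge `k`, height `κ`; `P`: class of the other
neighbour -/
structure In5 (P : SR.Cl) (x T k κ : ℝ) : Prop where
  c : P = .one ∨ P = .two ∨ P = .twoE
  x0 : 40 / 100 ≤ x
  x1 : x ≤ 47 / 100
  s : x + k ≤ 95 / 100
  T0 : (SR.cw P .three).t0 ≤ T
  T1 : T ≤ (SR.cw P .three).t1
  k0 : (SR.cw .three P).t0 ≤ κ
  k1 : κ ≤ (SR.cw .three P).t1
  s0 : (SR.cw P .three).s0 ≤ T + κ
  s1 : T + κ ≤ (SR.cw P .three).s1
  f1 : P = .one → 15 / 100 ≤ k
  f2 : P = .two → 16 / 100 ≤ k ∧ k ≤ 495 / 1000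
  fE : P = .twoE → 14 / 100 ≤ k ∧ k ≤ 35 / 100

/-- the side of the digit `1` -/
theorem one5 (H : In5 P x T k κ) (hx : 42 / 100 ≤ x) : MR.s1 0 x T k κ < fP P x T := by
  obtain ⟨hP, x0, x1, s, T0, T1, k0, k1, s0, s1, f1, f2, fE⟩ := H
  rcases hP with rfl | rfl | rfl
  · simp only [SR.cw] at T0 T1 k0 k1 s0 s1
    have f := f1 rfl
    refine flat1 q1A ?_ ?_ ?_ ?_ ?_ ?_ ?_ ?_ ?_ ?_ s <;>
      first | linarith only [hx, x1, T0, T1, f, s, k0, k1, s0, s1] | (push_cast; linarith)
  · simp only [SR.cw] at T0 T1 k0 k1 s0 s1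
    obtain ⟨f, f'⟩ := f2 rfl
    refine flat1 q2A ?_ ?_ ?_ ?_ ?_ ?_ ?_ ?_ ?_ ?_ s <;>
      first | linarith only [hx, x1, T0, T1, f, f', k0, k1, s0, s1] | (push_cast; linarith)
  · simp only [SR.cw] at T0 T1 k0 k1 s0 s1
    obtain ⟨f, f'⟩ := fE rfl
    refine flat1 qEA ?_ ?_ ?_ ?_ ?_ ?_ ?_ ?_ ?_ ?_ s <;>
      first | linarith only [hx, x1, T0, T1, f, f', k0, k1, s0, s1] | (push_cast; linarith)

/-- the side of the digit `1` -/
theorem one5e (H : In5 P x T k κ) (hx : x ≤ 42 / 100) : MR.s1 0 x T k κ < gP P x T := by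
  obtain ⟨hP, x0, x1, s, T0, T1, k0, k1, s0, s1, f1, f2, fE⟩ := H
  rcases hP with rfl | rfl | rfl
  · simp only [SR.cw] at T0 T1 k0 k1 s0 s1
    have f := f1 rfl
    refine flat1 q1L ?_ ?_ ?_ ?_ ?_ ?_ ?_ ?_ ?_ ?_ s <;>
      first | linarith only [x0, hx, T0, T1, f, s, k0, k1, s0, s1] | (push_cast; linarith)
  · simp only [SR.cw] at T0 T1 k0 k1 s0 s1
    obtain ⟨f, f'⟩ := f2 rfl
    refine flat1 q2L ?_ ?_ ?_ ?_ ?_ ?_ ?_ ?_ ?_ ?_ s <;>
      first | linarith only [x0, hx, T0, T1, f, f', k0, k1, s0, s1] | (push_cast; linarith)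
  · simp only [SR.cw] at T0 T1 k0 k1 s0 s1
    obtain ⟨f, f'⟩ := fE rfl
    refine flat1 qEL ?_ ?_ ?_ ?_ ?_ ?_ ?_ ?_ ?_ ?_ s <;>
      first | linarith only [x0, hx, T0, T1, f, f', k0, k1, s0, s1] | (push_cast; linarith)

end HX

end Pool.Agent.Work.MP_b30479_gtS.G2

end

section

/-!
# Part of `V3MidRC`
-/
set_option linter.unusedSimpArgs false

namespace Pool.Agent.Work.MP_b30479_gtS.G2

open VOL NumUs

namespace VN

variable {x T w S t r y : ℝ}

theorem k0_1N (hx : 1200 / 10000 ≤ x) (hx' : x ≤ 4200 / 10000) (hS : -980 / 10000 ≤ S) (hS' : S ≤ 570 / 10000) (ht : -920 / 10000 ≤ t) (ht' : t ≤ 150 / 10000)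
    (hr : 75 / 100 ≤ r) (hr' : r ≤ 80 / 100) :
    0 < FA (6600 / 10000) r t (20 * t * (8 / 10 - r)) x (-1145 / 10000) +
      FB (6600 / 10000) r t (20 * t * (8 / 10 - r)) (1300 / 10000) S +
      FC (6600 / 10000) r t (20 * t * (8 / 10 - r)) := by
  have h : chk [eD (E.q 6600 10000) (E.var 0) (E.q (-1145) 10000) (E.q 1300 10000) (E.var 1) (E.var 2) (E.var 3)] 30
      [NumIs.V.of 10000 1200 4200, NumIs.V.of 10000 (-980) 570,
        NumIs.V.of 10000 (-920) 150, NumIs.V.of 10000 0 500] = true := k0_1N_h1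
  have hp := pos_of_chk (chk4 h (by norm_num) (x := x) (y := S) (z := t) (w := 8 / 10 - r)
    (by push_cast; linarith only [hx]) (by push_cast; linarith only [hx']) (by push_cast; linarith only [hS])
    (by push_cast; linarith only [hS']) (by push_cast; linarith only [ht]) (by push_cast; linarith only [ht'])
    (by push_cast; linarith only [hr']) (by push_cast; linarith only [hr]))
  rw [eD_val (t := t) (r := r) rfl rfl, val_q, val_q, val_q] at hp
  push_cast at hp
  simpa [E.val, NumIs.lkR] using hp

end VN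

end Pool.Agent.Work.MP_b30479_gtS.G2

end

section

/-!
# Part of `V3MidRC`
-/
set_option linter.unusedSimpArgs false

namespace Pool.Agent.Work.MP_b30479_gtS.G2

open VOL NumUs

namespace VN

variable {x T w S t r y : ℝ}

theorem k1_1N (hx : 1200 / 10000 ≤ x) (hx' : x ≤ 4200 / 10000) (hS : -980 / 10000 ≤ S) (hS' : S ≤ 570 / 10000) (ht : -920 / 10000 ≤ t) (ht' : t ≤ 150 / 10000)
    (hr : 75 / 100 ≤ r) (hr' : r ≤ 80 / 100) :
    0 < FA (6600 / 10000) r t (20 * t * (8 / 10 - r)) x (-1145 / 10000) +
      FB (6600 / 10000) r t (20 * t * (8 / 10 - r)) (3100 / 10000) S +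
      FC (6600 / 10000) r t (20 * t * (8 / 10 - r)) := by
  have h1 : chk [eD' (E.q 6600 10000) (E.var 0) (E.q (-1145) 10000) (E.q 3100 10000) (E.var 1) (E.var 2) (E.var 3) 1] 30
      [NumIs.V.of 10000 1200 4200, NumIs.V.of 10000 (-980) 570,
        NumIs.V.of 10000 (-920) 150, NumIs.V.of 10000 0 500] = true := k1_1N_h1
  have h2 : chk [eD' (E.q 6600 10000) (E.var 0) (E.q (-1145) 10000) (E.q 3100 10000) (E.var 1) (E.var 2) (E.var 3) (-1)] 30
      [NumIs.V.of 10000 1200 4200, NumIs.V.of 10000 (-980) 570,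
        NumIs.V.of 10000 (-920) 150, NumIs.V.of 10000 0 500] = true := k1_1N_h2
  have hp1 := pos_of_chk (chk4 h1 (by norm_num) (x := x) (y := S) (z := t) (w := 8 / 10 - r)
    (by push_cast; linarith only [hx]) (by push_cast; linarith only [hx']) (by push_cast; linarith only [hS])
    (by push_cast; linarith only [hS']) (by push_cast; linarith only [ht]) (by push_cast; linarith only [ht'])
    (by push_cast; linarith only [hr']) (by push_cast; linarith only [hr]))
  have hp2 := pos_of_chk (chk4 h2 (by norm_num) (x := x) (y := S) (z := t) (w := 8 / 10 - r)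
    (by push_cast; linarith only [hx]) (by push_cast; linarith only [hx']) (by push_cast; linarith only [hS])
    (by push_cast; linarith only [hS']) (by push_cast; linarith only [ht]) (by push_cast; linarith only [ht'])
    (by push_cast; linarith only [hr']) (by push_cast; linarith only [hr]))
  rw [eD'_val (t := t) (r := r) 1 rfl rfl, val_q, val_q, val_q] at hp1
  rw [eD'_val (t := t) (r := r) (-1) rfl rfl, val_q, val_q, val_q] at hp2
  exact abs_cases (by simpa [E.val, NumIs.lkR] using hp1) (by simpa [E.val, NumIs.lkR] using hp2)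

end VN

end Pool.Agent.Work.MP_b30479_gtS.G2

end

section

/-!
# Value row of the inner variable of an inner digit `3`, right ramp: certificates
-/

set_option linter.unusedSimpArgs false

namespace Pool.Agent.Work.MP_b30479_gtS.G2

open VOL NumUs

namespace VN

variable {x T w S t r y : ℝ}

/-! ### N1 -/

theorem diff_N1 (hx : 1200 / 10000 ≤ x) (hx' : x ≤ 3300 / 10000) (hT : -570 / 10000 ≤ T)
    (hT' : T ≤ 570 / 10000) (hw : 1500 / 10000 ≤ w) (hw' : w ≤ 3700 / 10000) (hS : -1145 / 10000 ≤ S)
    (hS' : S ≤ -210 / 10000) (ht : -1220 / 10000 ≤ t) (ht' : t ≤ 150 / 10000)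
    (hr : 75 / 100 ≤ r) (hr' : r ≤ 80 / 100) :
    0 < FA (5400 / 10000) r t (20 * t * (8 / 10 - r)) x T +
      FB (5400 / 10000) r t (20 * t * (8 / 10 - r)) w S +
      FC (5400 / 10000) r t (20 * t * (8 / 10 - r)) := by
  apply core (T0 := -570 / 10000) (w0 := 1500 / 10000) (w1 := 3700 / 10000) (by linarith only [hx']) (by linarith only [hx])
    (by linarith only [hx', hr]) (by linarith only [hx, hr']) hT _ hw hw' (by linarith only [hr']) (by linarith only [hr']) (by norm_num)
    (by linarith only [hr']) (by linarith only [hr]) (by norm_num) (by linarith only [hr]) (by linarith only [hr']) _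
    (k0_N1 hx hx' hS hS' ht ht' hr hr') (k1_N1 hx hx' hS hS' ht ht' hr hr')
  · exact fun y hy hy' => kI_N1 hx hx' hy (hy'.trans hT') ht ht' hr hr'
  · exact fun y hy hy' => kJ_N1 hy hy' hS hS' ht ht' hr hr'

/-! ### NN -/

theorem diff_NN (hx : 1200 / 10000 ≤ x) (hx' : x ≤ 3300 / 10000) (hT : -980 / 10000 ≤ T)
    (hT' : T ≤ 570 / 10000) (hw : 1300 / 10000 ≤ w) (hw' : w ≤ 3100 / 10000) (hS : -980 / 10000 ≤ S)
    (hS' : S ≤ 570 / 10000) (ht : -1230 / 10000 ≤ t) (ht' : t ≤ 150 / 10000)
    (hr : 75 / 100 ≤ r) (hr' : r ≤ 80 / 100) :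
    0 < FA (6200 / 10000) r t (20 * t * (8 / 10 - r)) x T +
      FB (6200 / 10000) r t (20 * t * (8 / 10 - r)) w S +
      FC (6200 / 10000) r t (20 * t * (8 / 10 - r)) := by
  apply core (T0 := -980 / 10000) (w0 := 1300 / 10000) (w1 := 3100 / 10000) (by linarith only [hx']) (by linarith only [hx])
    (by linarith only [hx', hr]) (by linarith only [hx, hr']) hT _ hw hw' (by linarith only [hr']) (by linarith only [hr']) (by norm_num)
    (by linarith only [hr']) (by linarith only [hr]) (by norm_num) (by linarith only [hr]) (by linarith only [hr']) _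
    (k0_NN hx hx' hS hS' ht ht' hr hr') (k1_NN hx hx' hS hS' ht ht' hr hr')
  · exact fun y hy hy' => kI_NN hx hx' hy (hy'.trans hT') ht ht' hr hr'
  · exact fun y hy hy' => kJ_NN hy hy' hS hS' ht ht' hr hr'

/-! ### 1N -/

theorem diff_1N (hx : 1200 / 10000 ≤ x) (hx' : x ≤ 4200 / 10000) (hT : -1145 / 10000 ≤ T)
    (hT' : T ≤ -210 / 10000) (hw : 1300 / 10000 ≤ w) (hw' : w ≤ 3100 / 10000) (hS : -980 / 10000 ≤ S)
    (hS' : S ≤ 570 / 10000) (ht : -920 / 10000 ≤ t) (ht' : t ≤ 150 / 10000)
    (hr : 75 / 100 ≤ r) (hr' : r ≤ 80 / 100) :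
    0 < FA (6600 / 10000) r t (20 * t * (8 / 10 - r)) x T +
      FB (6600 / 10000) r t (20 * t * (8 / 10 - r)) w S +
      FC (6600 / 10000) r t (20 * t * (8 / 10 - r)) := by
  apply core (T0 := -1145 / 10000) (w0 := 1300 / 10000) (w1 := 3100 / 10000) (by linarith only [hx']) (by linarith only [hx])
    (by linarith only [hx', hr]) (by linarith only [hx, hr']) hT _ hw hw' (by linarith only [hr']) (by linarith only [hr']) (by norm_num)
    (by linarith only [hr']) (by linarith only [hr]) (by norm_num) (by linarith only [hr]) (by linarith only [hr']) _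
    (k0_1N hx hx' hS hS' ht ht' hr hr') (k1_1N hx hx' hS hS' ht ht' hr hr')
  · exact fun y hy hy' => kI_1N hx hx' hy (hy'.trans hT') ht ht' hr hr'
  · exact fun y hy hy' => kJ_1N hy hy' hS hS' ht ht' hr hr'

end VN

end Pool.Agent.Work.MP_b30479_gtS.G2

end

section

/-!
# The inner variable of an inner digit `3`: the right ramp

The inner variable `v = r + 20 t (8/10 - r) i` (`75/100 ≤ r ≤ 8/10`) of an inner digit `3` is moved
to `v' = c + t i`: `c = 66/100` (`mid_right_1N`), `62/100` (`mid_right_NN`), `54/100`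
(`mid_right_N1`).  In the remaining cases the side along the slope `-20 t` is negative
(`mid_right_11`, `mid_right_11'`, `mid_right_E1`).
-/

namespace Pool.Agent.Work.MP_b30479_gtS.G2

open VOL NumUs

namespace VN

variable {u v v' w : ℂ} {r t : ℝ}

theorem mid_right_1N (h1 : v.re = r) (h2 : v.im = 20 * t * (8 / 10 - r))
    (h3 : v'.re = 66 / 100) (h4 : v'.im = t) (hr : 75 / 100 ≤ r) (hr' : r ≤ 80 / 100)
    (hx : 12 / 100 ≤ u.re) (hx' : u.re ≤ 42 / 100) (hT : -(1145 / 10000) ≤ u.im)
    (hT' : u.im ≤ -(21 / 1000)) (hw : 13 / 100 ≤ w.re) (hw' : w.re ≤ 31 / 100)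
    (hS : -(98 / 1000) ≤ w.im) (hS' : w.im ≤ 57 / 1000) (ht : -(92 / 1000) ≤ t)
    (ht' : t ≤ 15 / 1000) : V3 u v w < V3 u v' w := by
  have h := diff_1N (x := u.re) (T := u.im) (w := w.re) (S := w.im) (t := t) (r := r)
    (by linarith only [hx]) (by linarith only [hx']) (by linarith only [hT]) (by linarith only [hT']) (by linarith only [hw]) (by linarith only [hw'])
    (by linarith only [hS]) (by linarith only [hS']) (by linarith only [ht]) (by linarith only [ht']) hr hr'
  have e := V3_diff (u := u) (w := w) h1 h2 (h3.trans (by norm_num : _ = (6600 / 10000 : ℝ))) h4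
  linarith only [h, e]

theorem mid_right_NN (h1 : v.re = r) (h2 : v.im = 20 * t * (8 / 10 - r))
    (h3 : v'.re = 62 / 100) (h4 : v'.im = t) (hr : 75 / 100 ≤ r) (hr' : r ≤ 80 / 100)
    (hx : 12 / 100 ≤ u.re) (hx' : u.re ≤ 33 / 100) (hT : -(98 / 1000) ≤ u.im)
    (hT' : u.im ≤ 57 / 1000) (hw : 13 / 100 ≤ w.re) (hw' : w.re ≤ 31 / 100)
    (hS : -(98 / 1000) ≤ w.im) (hS' : w.im ≤ 57 / 1000) (ht : -(123 / 1000) ≤ t)
    (ht' : t ≤ 15 / 1000) : V3 u v w < V3 u v' w := by
  have h := diff_NN (x := u.re) (T := u.im) (w := w.re) (S := w.im) (t := t) (r := r)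
    (by linarith only [hx]) (by linarith only [hx']) (by linarith only [hT]) (by linarith only [hT']) (by linarith only [hw]) (by linarith only [hw'])
    (by linarith only [hS]) (by linarith only [hS']) (by linarith only [ht]) (by linarith only [ht']) hr hr'
  have e := V3_diff (u := u) (w := w) h1 h2 (h3.trans (by norm_num : _ = (6200 / 10000 : ℝ))) h4
  linarith only [h, e]

theorem mid_right_N1 (h1 : v.re = r) (h2 : v.im = 20 * t * (8 / 10 - r))
    (h3 : v'.re = 54 / 100) (h4 : v'.im = t) (hr : 75 / 100 ≤ r) (hr' : r ≤ 80 / 100)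
    (hx : 12 / 100 ≤ u.re) (hx' : u.re ≤ 33 / 100) (hT : -(57 / 1000) ≤ u.im)
    (hT' : u.im ≤ 57 / 1000) (hw : 15 / 100 ≤ w.re) (hw' : w.re ≤ 37 / 100)
    (hS : -(1145 / 10000) ≤ w.im) (hS' : w.im ≤ -(21 / 1000)) (ht : -(122 / 1000) ≤ t)
    (ht' : t ≤ 15 / 1000) : V3 u v w < V3 u v' w := by
  have h := diff_N1 (x := u.re) (T := u.im) (w := w.re) (S := w.im) (t := t) (r := r)
    (by linarith only [hx]) (by linarith only [hx']) (by linarith only [hT]) (by linarith only [hT']) (by linarith only [hw]) (by linarith only [hw'])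
    (by linarith only [hS]) (by linarith only [hS']) (by linarith only [ht]) (by linarith only [ht']) hr hr'
  have e := V3_diff (u := u) (w := w) h1 h2 (h3.trans (by norm_num : _ = (5400 / 10000 : ℝ))) h4
  linarith only [h, e]

/-- `1 | 3 | 1`, hinge `u` on its level part -/
theorem mid_right_11 (h1 : v.re = r) (h2 : v.im = 20 * t * (8 / 10 - r)) (hr : 75 / 100 ≤ r)
    (hr' : r ≤ 80 / 100) (hx : 12 / 100 ≤ u.re) (hx' : u.re ≤ 1 / 2)
    (hT : -(1145 / 10000) ≤ u.im) (hT' : u.im ≤ -(21 / 1000)) (hw : 15 / 100 ≤ w.re)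
    (hw' : w.re ≤ 37 / 100) (hS : -(1145 / 10000) ≤ w.im) (hS' : w.im ≤ -(21 / 1000))
    (ht : -(95 / 1000) ≤ t) (ht' : t ≤ -(8 / 1000)) : SM (-(20 * t)) u v w < 0 := by
  have a := gA_11 (u := u) h1 h2 (by linarith only [hx]) (by linarith only [hx']) (by linarith only [hT]) (by linarith only [hT'])
    (by linarith only [ht]) (by linarith only [ht']) hr hr'
  have b := gB_11 (w := w) h1 h2 (by linarith only [hw]) (by linarith only [hw']) (by linarith only [hS]) (by linarith only [hS'])
    (by linarith only [ht]) (by linarith only [ht']) hr hr'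
  have c := gC_11 h1 h2 (by linarith only [ht]) (by linarith only [ht']) hr hr'
  rw [SM_split]
  linarith only [a, b, c]

/-- `1 | 3 | 1`, hinge `u` on its right ramp `[1/2, 65/100]` -/
theorem mid_right_11' {T : ℝ} (h1 : v.re = r) (h2 : v.im = 20 * t * (8 / 10 - r))
    (hr : 75 / 100 ≤ r) (hr' : r ≤ 80 / 100) (hx : 1 / 2 ≤ u.re) (hx' : u.re ≤ 65 / 100)
    (hu : u.im = T * ((65 / 100 - u.re) / (15 / 100))) (hT : -(1145 / 10000) ≤ T)
    (hT' : T ≤ -(21 / 1000)) (hw : 15 / 100 ≤ w.re) (hw' : w.re ≤ 37 / 100)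
    (hS : -(1145 / 10000) ≤ w.im) (hS' : w.im ≤ -(21 / 1000)) (ht : -(95 / 1000) ≤ t)
    (ht' : t ≤ -(8 / 1000)) : SM (-(20 * t)) u v w < 0 := by
  have a := gA'_11 (u := u) (T := T) h1 h2 (by linarith only [hx]) (by linarith only [hx']) hu (by linarith only [hT])
    (by linarith only [hT']) (by linarith only [ht]) (by linarith only [ht']) hr hr'
  have b := gB_11 (w := w) h1 h2 (by linarith only [hw]) (by linarith only [hw']) (by linarith only [hS]) (by linarith only [hS'])
    (by linarith only [ht]) (by linarith only [ht']) hr hr'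
  have c := gC_11 h1 h2 (by linarith only [ht]) (by linarith only [ht']) hr hr'
  rw [SM_split]
  linarith only [a, b, c]

/-- `2e | 3 | 1` -/
theorem mid_right_E1 (h1 : v.re = r) (h2 : v.im = 20 * t * (8 / 10 - r)) (hr : 75 / 100 ≤ r)
    (hr' : r ≤ 80 / 100) (hx : 12 / 100 ≤ u.re) (hx' : u.re ≤ 33 / 100)
    (hT : -(98 / 1000) ≤ u.im) (hT' : u.im ≤ -(76 / 1000)) (hw : 15 / 100 ≤ w.re)
    (hw' : w.re ≤ 37 / 100) (hS : -(1145 / 10000) ≤ w.im) (hS' : w.im ≤ -(21 / 1000))
    (ht : -(135 / 1000) ≤ t) (ht' : t ≤ -(80 / 1000)) : SM (-(20 * t)) u v w < 0 := by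
  have a := gA_E1 (u := u) h1 h2 (by linarith only [hx]) (by linarith only [hx']) (by linarith only [hT]) (by linarith only [hT'])
    (by linarith only [ht]) (by linarith only [ht']) hr hr'
  have b := gB_E1 (w := w) h1 h2 (by linarith only [hw]) (by linarith only [hw']) (by linarith only [hS]) (by linarith only [hS'])
    (by linarith only [ht]) (by linarith only [ht']) hr hr'
  have c := gC_E1 h1 h2 (by linarith only [ht]) (by linarith only [ht']) hr hr'
  rw [SM_split]
  linarith only [a, b, c]

end VN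

end Pool.Agent.Work.MP_b30479_gtS.G2

end

section

/-!
# The round `R2` of the hinge `1 | 3` (slot `0`) in a word
-/

namespace Pool.Agent.Work.MP_b30479_gtS.G2

open Finset VOL Filter Topology

namespace HX

open SR

variable {M : ℕ} {b : Fin (M + 1) → ℤ} {zs : DD (tyW b) ⊕ ZZ (tyW b) → ℂ}
variable {y : DD (tyW b) ⊕ ZZ (tyW b) → ℝ}
variable {h h' h3 : Fin M} {i j j' k : Fin (M + 1)} {p : Fin 3}

/-- the other hinge of the digit `1` on the flat part -/
theorem flatP' (A' : Adj h' i 0 j') (hy : Mx b zs y) (hi : clsW b i = .one)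
    (hP : clsW b j' = .one ∨ clsW b j' = .two ∨ clsW b j' = .twoE)
    (h1 : clsW b j' = .one → 15 / 100 ≤ y (.inl (.inl h')) ∧ y (.inl (.inl h')) ≤ 60 / 100)
    (h2 : clsW b j' = .two → 16 / 100 ≤ y (.inl (.inl h')) ∧ y (.inl (.inl h')) ≤ 495 / 1000)
    (h3 : clsW b j' = .twoE → 14 / 100 ≤ y (.inl (.inl h')) ∧ y (.inl (.inl h')) ≤ 35 / 100) :
    (Yw b zs y i 0).im = ofs (b i) (zs (.inl (.inl h'))).im := by
  have hrh := A'.rh hy
  have hre := A'.re (b := b) (zs := zs) (y := y)
  have e1 := A'.XM_eq b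
  have e2 := A'.cl_eq b
  have e3 := A'.cr_eq b
  rw [hi] at e1 e2 e3
  unfold hpp at e1 e2 e3
  rw [if_neg (by decide)] at e1 e2 e3
  rcases hP with hP | hP | hP
  · obtain ⟨k0, k1⟩ := h1 hP
    rw [hP] at e1 e2 e3
    simp only [hp] at e1 e2 e3
    have f1 : 80 / 100 ≤ wXM b h' := by
      rw [e1]
      split_ifs <;> norm_num
    have f2 : wcl b h' = 15 / 100 := by
      rw [e2]
      split_ifs <;> rfl
    have f3 : wcr b h' = 20 / 100 := by
      rw [e3]
      split_ifs <;> rfl
    exact MR.RH_flat hrh (by linarith only [f2]) (by linarith only [f3]) (by rw [hre]; linarith only [k0, f2]) (by rw [hre]; linarith only [k1, f1, f3])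
  · obtain ⟨k0, k1⟩ := h2 hP
    rw [hP] at e1 e2 e3
    simp only [hp, hp1] at e1 e2 e3
    exact MR.RH_flat hrh (by linarith only [e2]) (by linarith only [e3]) (by rw [hre]; linarith only [e2, k0]) (by rw [hre]; linarith only [e1, e3, k1])
  · obtain ⟨k0, k1⟩ := h3 hP
    rw [hP] at e1 e2 e3
    simp only [hp, hp1] at e1 e2 e3
    exact MR.RH_flat hrh (by linarith only [e2]) (by linarith only [e3]) (by rw [hre]; linarith only [e2, k0]) (by rw [hre]; linarith only [e1, e3, k1])

/-- windows of the inner variable of a digit `3` at `j` next to a digit `1`; `P`: the class of the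
other neighbour of the `1`, `K`: the class of the other neighbour of the `3`; `t`: its height,
`T`: height of the hinge `1 | 3` in the frame of the `1` -/
def Wm (P K : Cl) (t T : ℝ) : Prop :=
  ((km P K).t0 : ℝ) / 10000 ≤ t ∧ t ≤ ((km P K).t1 : ℝ) / 10000 ∧
    ((km P K).s0 : ℝ) / 10000 ≤ t + T ∧ t + T ≤ ((km P K).s1 : ℝ) / 10000

/-- **The round `R2` of the hinge `1 | 3` (slot `0`).** -/
theorem core4 (hb : ClassW b) (hL : Loc b zs) (hX : LocX b zs) (hy : Mx b zs y)
    (hpos : ∀ h : Fin M, 0 < y (.inl (.inl h)))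
    (A : Adj h i 2 j) (A' : Adj h' i 0 j') (A3 : Adj h3 j 2 k)
    (hi : clsW b i = .one) (hj : clsW b j = .three)
    (hx0 : 42 / 100 ≤ y (.inl (.inl h)) ∨ clsW b k = .twoE ∧ 40 / 100 ≤ y (.inl (.inl h)))
    (hx1 : y (.inl (.inl h)) ≤ 47 / 100)
    (hS : y (.inl (.inl h)) + y (.inl (.inl h')) ≤ 95 / 100)
    (hk1 : clsW b j' = .one → 15 / 100 ≤ y (.inl (.inl h')))
    (hk2 : clsW b j' = .two → 16 / 100 ≤ y (.inl (.inl h')) ∧ y (.inl (.inl h')) ≤ 495 / 1000)
    (hkE : clsW b j' = .twoE → 14 / 100 ≤ y (.inl (.inl h')) ∧ y (.inl (.inl h')) ≤ 35 / 100)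
    (hw0 : 13 / 100 ≤ y (.inl (.inl h3)))
    (hw01 : clsW b k = .one → 15 / 100 ≤ y (.inl (.inl h3)))
    (hw1 : y (.inl (.inl h3)) ≤ 39 / 100)
    (hw2 : clsW b k ≠ .one → y (.inl (.inl h3)) ≤ 31 / 100)
    (hm0 : y (.inl (.inl h)) + 4 / 100 ≤ y (.inl (.inr (mI b hj))))
    (hm1 : y (.inl (.inr (mI b hj))) ≤ 75 / 100)
    (hwin : Wm (clsW b j') (clsW b k) (hI zs hj) (ofs (b i) (zs (.inl (.inl h))).im)) :
    False := by
  have hop := A.opp hb (Or.inl (by rw [hi]; decide))
  have hP := cls13 hb A A' hi hj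
  have hx00 : 40 / 100 ≤ y (.inl (.inl h)) := by
    rcases hx0 with h5 | h5
    · linarith only [h5]
    · exact h5.2
  have G := geo13 hb hL hy A hi hj (by linarith only [hx00])
  obtain ⟨hure, hu1, -⟩ := u13 hb A hi G
  obtain ⟨hs1, -⟩ := sd13 hb A hi hj G
  have hre := G.re
  -- the windows of the digit 1
  have A2 : Adj h' i (2 : Fin 3).rev j' := A'
  have A1 : Adj h i (0 : Fin 3).rev j := A
  obtain ⟨a0, a1, a2, a3⟩ := hX.win A A2 hi
  obtain ⟨b0, b1, -, -⟩ := hX.win A' A1 hi
  rw [hj] at a0 a1 a2 a3 b0 b1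
  have hkim := flatP' A' hy hi hP (fun hc => ⟨hk1 hc, by linarith only [hS, hx00]⟩) hk2 hkE
  have hkre := A'.re (b := b) (zs := zs) (y := y)
  have B : Adj h j 0 i := A.symm
  set x := y (.inl (.inl h)) with hx
  set T := ofs (b i) (zs (.inl (.inl h))).im with hT
  have hx12 : x ≤ 1 / 2 := by linarith only [hx1]
  have H1 : In5 (clsW b j') x T (Yw b zs y i 0).re (Yw b zs y i 0).im := by
    refine ⟨hP, hx00, hx1, by rw [hkre]; exact hS, a0, a1, ?_, ?_, ?_, ?_, ?_, ?_, ?_⟩
    · rw [hkim]; exact b0
    · rw [hkim]; exact b1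
    · rw [hkim]; exact a2
    · rw [hkim]; exact a3
    · rw [hkre]; exact hk1
    · rw [hkre]; exact hk2
    · rw [hkre]; exact hkE
  -- the digit 3
  obtain ⟨w0, w1⟩ := w_im A3 hb hL hy hj (by linarith only [hw0]) hw1 hw2
  obtain ⟨m0, m1, m2, m3⟩ := hwin
  obtain ⟨p1, p2, p3⟩ := pp_mI (zs := zs) hj
  have hmpos : 0 < y (.inl (.inr (mI b hj))) := by linarith only [hj, hm0, hx00]
  have hR := mid_RH hy (mI b hj)
  have hF := mid_fc hb hy hpos (mI b hj) hmpos
  rw [p1, p2, p3] at hR hF
  have hmre' : (Yw b zs y (mI b hj).1 1).re = y (.inl (.inr (mI b hj))) := by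
    rw [Yw_mid (zs := zs) (y := y) (mI b hj), ofr_pp_re]
  have hmre : (Yw b zs y j 1).re = y (.inl (.inr (mI b hj))) := hmre'
  have hmim : (Yw b zs y j 1).im = hI zs hj := by
    show (Yw b zs y (mI b hj).1 1).im = _
    exact MR.RH_flat hR (by norm_num) (by norm_num) (by rw [hmre']; linarith only [hj, hm0, hx00, hmpos])
      (by rw [hmre']; linarith only [hj, hm1])
  have hfoc : 0 ≤ SM 0 (Yw b zs y j 0) (Yw b zs y j 1) (Yw b zs y j 2) := by
    rw [← OM_three hj]
    exact hF.flat' (by rw [hmre']; linarith only [hj, hm0, hx00, hmpos]) (by rw [hmre']; linarith only [hj, hm1])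
  have hn := MM_pos_of_sinNe (reg_three hj hy hpos hmpos).1
  rw [Complex.add_re, Complex.add_im] at hn
  have hwre := A3.re (b := b) (zs := zs) (y := y)
  have H3 : In4 (clsW b j') (clsW b k) (Yw b zs y j 0) (Yw b zs y j 1) (Yw b zs y j 2) T := by
    refine ⟨hP, a0, a1, by rw [hure]; exact hx00, by rw [hure]; exact hx1, hu1 hx12, ?_, ?_, ?_,
      ?_, ?_, ?_, by rw [hwre]; exact hw0, by rw [hwre]; exact hw01, by rw [hwre]; exact hw1,
      by rw [hwre]; exact hw2, w0, w1, hn, hfoc⟩
    · rw [hmre, hure]; linarith only [hj, hm0]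
    · rw [hmre]; exact hm1
    · rw [hmim]; exact m0
    · rw [hmim]; exact m1
    · rw [hmim]; exact m2
    · rw [hmim]; exact m3
  -- the step
  have hstr : (Yw b zs y i 2) ∈ strip ∧ (Yw b zs y i 2) + (Yw b zs y i 0) ∈ strip := by
    have hk0 : 0 < y (.inl (.inl h')) := hpos h'
    refine ⟨⟨by rw [hre]; linarith only [hx00], by rw [hre]; linarith only [hS, hk0]⟩, ⟨?_, ?_⟩⟩
    · rw [Complex.add_re, hre, hkre]; linarith only [hx00, hk0]
    · rw [Complex.add_re, hre, hkre]; linarith only [hS]
  obtain ⟨him, hsl⟩ := G.fl hx12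
  have e1 : Sw b zs y i 2 (slL b zs y h) =
      MR.s1 0 x T (Yw b zs y i 0).re (Yw b zs y i 0).im := by
    rw [A.side_one hb hi, hsl, ofs_zero', show (2 : Fin 3).rev = 0 from rfl,
      MR.S1_eq _ hstr.1 hstr.2, him, hre]
  have e2 := hs1 hx12
  have fin : ∀ f : ℝ, Sw b zs y i 2 (slL b zs y h) < f → Sw b zs y j 0 (slL b zs y h) < -f →
      False := by
    intro f d1 d2
    exact rstep_false hb hy (hpos h) (RStep.of_adj A (c := 0) (fun h => absurd h (by omega))
      (e1 := Sw b zs y i 2 (slL b zs y h)) (e2 := Sw b zs y j 0 (slL b zs y h))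
      (by linarith only [d1, d2]) (by linarith only []) (by
        show Sw b zs y j 0 (slL b zs y h) + 0 * ofs (b j) (slL b zs y h) ≤ _
        linarith only []))
  rcases le_or_gt (42 / 100) x with h5 | h5
  · refine fin (fP (clsW b j') x T) (by rw [e1]; exact one5 H1 h5) ?_
    rw [e2]
    have := three4 H3 (by rw [hure]; exact h5)
    rwa [hure] at this
  · have hK : clsW b k = .twoE := by
      rcases hx0 with h6 | h6
      · exact absurd h6 (not_le.2 h5)
      · exact h6.1
    refine fin (gP (clsW b j') x T) (by rw [e1]; exact one5e H1 h5.le) ?_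
    rw [e2]
    have := three4e H3 hK (by rw [hure]; exact h5.le)
    rwa [hure] at this

/-- the inner variable is not on its right ramp, `x ≤ 42/100`, other neighbour of the `3` not a
`1` -/
theorem mid_le' (hb : ClassW b) (hL : Loc b zs) (hX : LocX b zs) (hy : Mx b zs y)
    (hpos : ∀ h : Fin M, 0 < y (.inl (.inl h)))
    (A : Adj h i 2 j) (A3 : Adj h3 j 2 k) (hi : clsW b i = .one) (hj : clsW b j = .three)
    (hk : clsW b k ≠ .one)
    (hx0 : 13 / 100 < y (.inl (.inl h))) (hx1 : y (.inl (.inl h)) ≤ 42 / 100)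
    (hw0 : 13 / 100 ≤ y (.inl (.inl h3)))
    (hw2 : y (.inl (.inl h3)) ≤ 31 / 100) :
    y (.inl (.inr (mI b hj))) ≤ 75 / 100 := by
  by_contra hcon
  have hcon := not_le.1 hcon
  have G := geo13 hb hL hy A hi hj hx0
  obtain ⟨hure, hu1, -⟩ := u13 hb A hi G
  have hT0 := G.T0
  have hT1 := G.T1
  have B : Adj h j 0 i := A.symm
  obtain ⟨m0, m1, -, -⟩ := m_im hb hX B A3 hi hj
  obtain ⟨w0, w1⟩ := w_im A3 hb hL hy hj (by linarith only [hw0]) (by linarith only [hw2]) (fun _ => hw2)
  obtain ⟨hmre, hmim, hmM, -⟩ := mR_data hb hy hpos hj hcon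
  have hwre := A3.re (b := b) (zs := zs) (y := y)
  have hui := hu1 (by linarith)
  obtain ⟨k0, k1, k2, k3, k4, k5, -⟩ := kd_ne hk
  have h6 := VN.mid_right_1N (v' := lv (66 / 100) (hI zs hj))
    (r := y (.inl (.inr (mI b hj)))) (t := hI zs hj) (u := Yw b zs y j 0) (w := Yw b zs y j 2)
    hmre hmim (lv_re _ _) (lv_im _ _) hcon.le hmM (by rw [hure]; linarith)
    (by rw [hure]; linarith only [hx1]) (by rw [hui]; linarith only [hT1]) (by rw [hui]; linarith only [hT0])
    (by rw [hwre]; exact hw0) (by rw [hwre]; exact hw2) (by linarith only [w0, k4]) (by linarith only [w1, k5])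
    (by linarith) (by linarith)
  obtain ⟨p1, p2, p3⟩ := pp_mI (zs := zs) hj
  have ht := tyW_of_three hj
  have hne : tyW b j ≠ .ring := by rw [ht]; decide
  have h2 := hy.upd (.inl (.inr (mI b hj))) (c := 66 / 100) (by show (0 : ℝ) ≤ 66 / 100; norm_num)
    (by show (66 / 100 : ℝ) ≤ (wpar b zs).XM (.inr (mI b hj)); rw [p1]; norm_num)
  have h7 : (wdat (tyW b) b).V (Function.update ((wpar b zs).pth zs y)
      (.inl (.inr (mI b hj))) ((wpar b zs).pp zs (.inl (.inr (mI b hj))) (66 / 100))) -
      (wdat (tyW b) b).V ((wpar b zs).pth zs y) =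
      rV (tyW b) b j (Function.update (xx (tyW b) j ((wpar b zs).pth zs y)) 1
        ((wpar b zs).pp zs (.inl (.inr (mI b hj))) (66 / 100))) -
      rV (tyW b) b j (xx (tyW b) j ((wpar b zs).pth zs y)) :=
    V_upd_mid (tyW b) b (mI b hj) ((wpar b zs).pth zs y)
      ((wpar b zs).pp zs (.inl (.inr (mI b hj))) (66 / 100))
  rw [rV_own hb, rV_own hb, own_update_one hne] at h7
  have e5 : ofr (b j) ((wpar b zs).pp zs (.inl (.inr (mI b hj))) (66 / 100)) =
      lv (66 / 100) (hI zs hj) :=
    ofr_pp_flat (wpar_good b zs) zs (.inr (mI b hj)) (b j) (by rw [p2]; norm_num)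
      (by rw [p1, p3]; norm_num)
  have e6 : own (b j) (tyW b j) (xx (tyW b) j ((wpar b zs).pth zs y)) = OY b zs y j := rfl
  rw [e6, e5] at h7
  have h4 : OV b j (Function.update (OY b zs y j) 1 (lv (66 / 100) (hI zs hj))) -
      OV b j (OY b zs y j) ≤ 0 := by linarith only [hj, h2, h7]
  rw [OV_three hb hj, OV_three hb hj, Function.update_self,
    Function.update_of_ne (by decide), Function.update_of_ne (by decide), OY_zero,
    OY_one hne, OY_two] at h4
  linarith only [hj, h6, h4]

end HX

end Pool.Agent.Work.MP_b30479_gtS.G2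

end

section

/-!
# The round `R2`: the hinge `1 | 3` (slot `0`) is at most `42/100`
-/

namespace Pool.Agent.Work.MP_b30479_gtS.G2

open Finset VOL Filter Topology

namespace HX

open SR

variable {M : ℕ} {b : Fin (M + 1) → ℤ} {zs : DD (tyW b) ⊕ ZZ (tyW b) → ℂ}
variable {y : DD (tyW b) ⊕ ZZ (tyW b) → ℝ}
variable {h h' h3 : Fin M} {i j j' k : Fin (M + 1)} {p : Fin 3}

theorem adj_p (A : Adj h i p j) : p = 0 ∨ p = 2 := by
  cases A
  · exact Or.inr rfl
  · exact Or.inl rfl

theorem Flr12 (hF : Flr b y F2) : Flr b y F1 := by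
  intro h i j p A
  exact (F1_le (adj_p A) _ _).trans (hF A)

/-- **The round `R2` of the hinge `1 | 3` (slot `0`).** -/
theorem cap13_42 (hb : ClassW b) (hL : Loc b zs) (hX : LocX b zs) (hy : Mx b zs y)
    (hpos : ∀ h : Fin M, 0 < y (.inl (.inl h))) (hF : Flr b y F2)
    (hS : Sum1 b y (95 / 100))
    (h12 : ∀ {h : Fin M} {i j : Fin (M + 1)} {p : Fin 3}, Adj h i p j → clsW b i = .one →
      clsW b j = .two → y (.inl (.inl h)) ≤ 495 / 1000)
    (h2e : ∀ {h : Fin M} {i j : Fin (M + 1)} {p : Fin 3}, Adj h i p j → clsW b i = .one →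
      clsW b j = .twoE → y (.inl (.inl h)) ≤ 35 / 100)
    (A : Adj h i 2 j) (A3 : Adj h3 j 2 k) (hi : clsW b i = .one) (hj : clsW b j = .three)
    (hw1 : y (.inl (.inl h3)) ≤ 39 / 100)
    (hw2 : clsW b k ≠ .one → y (.inl (.inl h3)) ≤ 31 / 100)
    (hx : y (.inl (.inl h)) ≤ 47 / 100)
    (hwin : ∀ {h' : Fin M} {j' : Fin (M + 1)}, Adj h' i 0 j' →
      Wm (clsW b j') (clsW b k) (hI zs hj) (ofs (b i) (zs (.inl (.inl h))).im))
    (hlow : clsW b k = .twoE → 40 / 100 ≤ y (.inl (.inl h)) → y (.inl (.inl h)) ≤ 42 / 100 →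
      y (.inl (.inl h)) + 4 / 100 < (OY b zs y j 1).re) :
    y (.inl (.inl h)) ≤ 42 / 100 ∧ (clsW b k = .twoE → y (.inl (.inl h)) ≤ 40 / 100) := by
  obtain ⟨h', j', A'⟩ := A.other_one hb hi
  have A' : Adj h' i 0 j' := A'
  have fk := hF A'
  have fw := hF A3
  have hw0 : 13 / 100 ≤ y (.inl (.inl h3)) := by
    rw [hj] at fw
    refine le_trans ?_ fw
    cases clsW b k <;> norm_num [F2]
  have hw01 : clsW b k = .one → 15 / 100 ≤ y (.inl (.inl h3)) := by
    intro hk
    rw [hj, hk] at fw
    refine le_trans ?_ fw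
    norm_num [F2]
  have hk1 : clsW b j' = .one → 15 / 100 ≤ y (.inl (.inl h')) := by
    intro hk
    rw [hi, hk] at fk
    refine le_trans ?_ fk
    norm_num [F2]
  have hk2 : clsW b j' = .two → 16 / 100 ≤ y (.inl (.inl h')) ∧
      y (.inl (.inl h')) ≤ 495 / 1000 := by
    intro hk
    refine ⟨?_, h12 A' hi hk⟩
    rw [hi, hk] at fk
    refine le_trans ?_ fk
    norm_num [F2]
  have hkE : clsW b j' = .twoE → 14 / 100 ≤ y (.inl (.inl h')) ∧
      y (.inl (.inl h')) ≤ 35 / 100 := by
    intro hk
    refine ⟨?_, h2e A' hi hk⟩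
    rw [hi, hk] at fk
    refine le_trans ?_ fk
    norm_num [F2]
  have hne : tyW b j ≠ .ring := by rw [tyW_of_three hj]; decide
  have hmre : (OY b zs y j 1).re = y (.inl (.inr (mI b hj))) := by
    rw [OY_one hne]
    show (Yw b zs y (mI b hj).1 1).re = _
    rw [Yw_mid (zs := zs) (y := y) (mI b hj), ofr_pp_re]
  have main : (42 / 100 ≤ y (.inl (.inl h)) ∨
      clsW b k = .twoE ∧ 40 / 100 ≤ y (.inl (.inl h))) → False := by
    intro hx0
    refine core4 hb hL hX hy hpos A A' A3 hi hj hx0 hx (hS A A' hi) hk1 hk2 hkE hw0 hw01 hw1 hw2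
      ?_ ?_ (hwin A')
    · rw [← hmre]
      rcases le_or_gt (42 / 100) (y (.inl (.inl h))) with h5 | h5
      · exact (s0_one_mid hb hL hX hy (Flr12 hF) hS A.symm A3 hj hi hw1 (by linarith)
          (by linarith)).le
      · obtain ⟨h6, h7⟩ := hx0.resolve_left (not_le.2 h5)
        exact (hlow h6 h7 h5.le).le
    · rcases le_or_gt (42 / 100) (y (.inl (.inl h))) with h5 | h5
      · exact mid_le hb hL hX hy hpos A A3 hi hj h5 (fun _ => by linarith) (by linarith) hw1 hw2
      · obtain ⟨h6, h7⟩ := hx0.resolve_left (not_le.2 h5)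
        have h8 : clsW b k ≠ .one := by
          rw [h6]
          decide
        exact mid_le' hb hL hX hy hpos A A3 hi hj h8 (by linarith) h5.le hw0 (hw2 h8)
  constructor
  · by_contra hcon
    exact main (Or.inl (not_le.1 hcon).le)
  · intro hk
    by_contra hcon
    exact main (Or.inr ⟨hk, (not_le.1 hcon).le⟩)

end HX

end Pool.Agent.Work.MP_b30479_gtS.G2

end

section

/-!
# The windows of the round `R2` of the hinge `1 | 3` from the location facts
-/

namespace Pool.Agent.Work.MP_b30479_gtS.G2

open Finset VOL Filter Topology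

namespace HX

open SR

variable {M : ℕ} {b : Fin (M + 1) → ℤ} {zs : DD (tyW b) ⊕ ZZ (tyW b) → ℂ}
variable {y : DD (tyW b) ⊕ ZZ (tyW b) → ℝ}
variable {h h' h3 : Fin M} {i j j' k : Fin (M + 1)} {p : Fin 3}

/-- the windows -/
theorem Wm_of (hb : ClassW b) (hX : LocX b zs) (hO : LocM2 b zs)
    (A : Adj h i 2 j) (A' : Adj h' i 0 j') (A3 : Adj h3 j 2 k)
    (hi : clsW b i = .one) (hj : clsW b j = .three) :
    Wm (clsW b j') (clsW b k) (hI zs hj) (ofs (b i) (zs (.inl (.inl h))).im) := by
  have hop := A.opp hb (Or.inl (by rw [hi]; decide))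
  have B : Adj h j 0 i := A.symm
  have hTj : ofs (b j) (zs (.inl (.inl h))).im = -ofs (b i) (zs (.inl (.inl h))).im :=
    ofs_opp hop _
  obtain ⟨m0, m1, m2, m3⟩ := m_im hb hX B A3 hi hj
  rw [hTj, sub_neg_eq_add] at m2 m3
  unfold Wm
  rcases cls13 hb A A' hi hj with hP | hP | hP
  · have q := hO.one (tyW_isMid (Or.inl hj)) B A3 A' hj hi hP
    rw [hTj] at q
    unfold MWin.In at q
    obtain ⟨q0, q1, q2, q3, -, -⟩ := q
    have e : ofs (b j) (zs (.inl (.inr ⟨j, tyW_isMid (Or.inl hj)⟩))).im = hI zs hj := rfl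
    rw [e] at q0 q1 q2 q3
    rw [sub_neg_eq_add] at q2 q3
    rw [hP]
    generalize clsW b k = K at *
    generalize hI zs hj = t at *
    generalize ofs (b i) (zs (.inl (.inl h))).im = T at *
    cases K <;> simp only [km, mw3, kd] at * <;> push_cast at * <;>
      refine ⟨?_, ?_, ?_, ?_⟩ <;> linarith
  · have q := hO.two (tyW_isMid (Or.inl hj)) B A3 A' hj hi hP
    rw [hTj] at q
    unfold MWin.In at q
    obtain ⟨q0, q1, q2, q3, -, -⟩ := q
    have e : ofs (b j) (zs (.inl (.inr ⟨j, tyW_isMid (Or.inl hj)⟩))).im = hI zs hj := rfl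
    rw [e] at q0 q1 q2 q3
    rw [sub_neg_eq_add] at q2 q3
    rw [hP]
    generalize clsW b k = K at *
    generalize hI zs hj = t at *
    generalize ofs (b i) (zs (.inl (.inl h))).im = T at *
    cases K <;> simp only [km, mw3, kd] at * <;> push_cast at * <;>
      refine ⟨?_, ?_, ?_, ?_⟩ <;> linarith
  · rw [hP]
    generalize clsW b k = K at *
    cases K <;> exact ⟨m0, m1, m2, m3⟩

/-- **The round `R2` of the hinge `1 | 3` (slot `0`).** -/
theorem cap13_R2 (hb : ClassW b) (hL : Loc b zs) (hX : LocX b zs) (hO : LocM2 b zs)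
    (hy : Mx b zs y)
    (hpos : ∀ h : Fin M, 0 < y (.inl (.inl h))) (hF : Flr b y F2)
    (hS : Sum1 b y (95 / 100))
    (h12 : ∀ {h : Fin M} {i j : Fin (M + 1)} {p : Fin 3}, Adj h i p j → clsW b i = .one →
      clsW b j = .two → y (.inl (.inl h)) ≤ 495 / 1000)
    (h2e : ∀ {h : Fin M} {i j : Fin (M + 1)} {p : Fin 3}, Adj h i p j → clsW b i = .one →
      clsW b j = .twoE → y (.inl (.inl h)) ≤ 35 / 100)
    (A : Adj h i 2 j) (A3 : Adj h3 j 2 k) (hi : clsW b i = .one) (hj : clsW b j = .three)
    (hw1 : y (.inl (.inl h3)) ≤ 39 / 100)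
    (hw2 : clsW b k ≠ .one → y (.inl (.inl h3)) ≤ 31 / 100)
    (hx : y (.inl (.inl h)) ≤ 47 / 100)
    (hlow : clsW b k = .twoE → 40 / 100 ≤ y (.inl (.inl h)) → y (.inl (.inl h)) ≤ 42 / 100 →
      y (.inl (.inl h)) + 4 / 100 < (OY b zs y j 1).re) :
    y (.inl (.inl h)) ≤ 42 / 100 ∧ (clsW b k = .twoE → y (.inl (.inl h)) ≤ 40 / 100) :=
  cap13_42 hb hL hX hy hpos hF hS h12 h2e A A3 hi hj hw1 hw2 hx
    (fun A' => Wm_of hb hX hO A A' A3 hi hj) hlow

end HX

end Pool.Agent.Work.MP_b30479_gtS.G2

end
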