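import Pool.Agent.Work.MP_b30479_gt.TBS.G2.RngA
import Pool.Agent.Work.MP_b30479_gt.TBS.G2.RZD

section

/-!
# Right ramp of a hinge `1 | ring`, the side of the ring: definitions

Own frame of the ring: `w = x - i m (65/100 - x)`, `m = T / (29/100)`, `T > 0`, `ζ = σ + i η`:
flat part `-1/4 ≤ σ ≤ 0`, `η = ρ`;  ramp `σ = -1/2 + s`, `η = 4 ρ s`, `s ≤ 1/4`.
-/

namespace Pool.Agent.Work.MP_b30479_gtS.G2

open VOL

namespace RZ1

/-- `w` on the right ramp of `1 | ring`, slope `m` -/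
structure W (x m : ℝ) (w : ℂ) : Prop where
  re : w.re = x
  im : w.im = -(m * (65 / 100 - x))
  hi : x ≤ 65 / 100

/-- `ζ` on the flat part -/
structure ZF (ρ : ℝ) (ζ : ℂ) : Prop where
  lo : -(1 / 4) ≤ ζ.re
  hi : ζ.re ≤ 0
  im : ζ.im = ρ
  pos : 0 < ρ

/-- `ζ` on the ramp -/
structure ZR (s ρ : ℝ) (ζ : ℂ) : Prop where
  re : ζ.re = -(1 / 2) + s
  im : ζ.im = 4 * ρ * s
  pos : 0 < ρ
  lo : 0 < s
  hi : s ≤ 1 / 4

/-- first order condition on the ramp, all hinges of the ring `≤ 1/2` -/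
def FM (b s ρ : ℝ) (w ζ : ℂ) : Prop :=
  Dm (4 * ρ) w ζ ≤ 4 * Real.pi * ρ * (2 - b * (1 - 4 * s))

end RZ1

end Pool.Agent.Work.MP_b30479_gtS.G2

end

section

/-!
# Right ramps of `{2, 2e} | ring`, the side of the ring: the rows

`w = x - i m (60/100 - x)`, `m = T / (30/100)`, `1/100 ≤ T ≤ 131/1000`.
-/

namespace Pool.Agent.Work.MP_b30479_gtS.G2

open VOL NumIs

namespace RZ2

open LR RZ1

/-- `w` on the right ramp, slope `m` -/
structure W (x m : ℝ) (w : ℂ) : Prop where
  re : w.re = x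
  im : w.im = -(m * (60 / 100 - x))
  hi : x ≤ 60 / 100

variable {x m T s ρ : ℝ} {w ζ : ℂ}

lemma mT_eq (T : ℝ) : T / (30 / 100) = mT T := by
  unfold mT
  ring

theorem w_eq (hw : W x (mT T) w) : w = ⟨x, -(kT T x)⟩ := by
  apply Complex.ext
  · exact hw.re
  · exact hw.im

theorem kT_nonneg (hT : 0 ≤ T) (hx : x ≤ 60 / 100) : 0 ≤ kT T x := by
  unfold kT mT
  have : 0 ≤ 60 / 100 - x := by linarith only [hx]
  positivity

theorem ur_eq (hw : W x (mT T) w) (hz : RZ1.ZR s ρ ζ) :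
    w + 1 / 2 + ζ = ⟨x + s, 4 * ρ * s - kT T x⟩ := by
  rw [w_eq hw]
  apply Complex.ext
  · have h : ((1 : ℂ) / 2).re = 1 / 2 := by norm_num
    simp only [Complex.add_re, h, hz.re]
    ring
  · have h : ((1 : ℂ) / 2).im = 0 := by norm_num
    simp only [Complex.add_im, h, hz.im]
    ring

theorem vr_eq (hw : W x (mT T) w) (hz : RZ1.ZR s ρ ζ) :
    w + 1 / 2 - ζ = ⟨1 + (x - s), -(4 * ρ * s + kT T x)⟩ := by
  rw [w_eq hw]
  apply Complex.ext
  · have h : ((1 : ℂ) / 2).re = 1 / 2 := by norm_num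
    simp only [Complex.sub_re, Complex.add_re, h, hz.re]
    ring
  · have h : ((1 : ℂ) / 2).im = 0 := by norm_num
    simp only [Complex.sub_im, Complex.add_im, h, hz.im]
    ring

theorem YY_w (hw : W x (mT T) w) (h0 : 0 < x) : YY w = lnB x (kT T x) := by
  rw [w_eq hw, Num.YY_lnB (u := ⟨x, -(kT T x)⟩) ⟨h0, by simp only; linarith only [h0, hw, hw.hi]⟩, lnB_neg,
    neg_neg]

theorem LL_w (hw : W x (mT T) w) : LL w = lnA x (kT T x) := by
  rw [w_eq hw, LL_lnA', lnA_neg]

theorem S4_ramp (hw : W x (mT T) w) (hz : RZ1.ZR s ρ ζ) (hx : 30 / 100 ≤ x) (hT : 0 ≤ T) :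
    S4 (mT T) w ζ = Sr x (mT T) (kT T x) s ρ := by
  have h2 := hw.hi
  have h3 := hz.lo
  have h4 := hz.hi
  have h5 := hz.pos
  have hk := kT_nonneg hT h2
  have ht : 0 < 4 * ρ * s + kT T x := by positivity
  unfold S4 Sr
  rw [LL_w hw, YY_w hw (by linarith only [hx, h3, h4]), ur_eq hw hz, vr_eq hw hz, LL_lnA' ⟨x + s, _⟩,
    Num.YY_lnB (u := ⟨x + s, 4 * ρ * s - kT T x⟩) ⟨by simp only; linarith only [hx, h3, h4], by simp only; linarith only [h2, h3, h4]⟩,
    LL_near', YY_right (by linarith only [hx, h3, h4]) (by linarith only [h2, h3, h4]) ht]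
  ring

theorem uf_eq (hw : W x (mT T) w) (hz : RZ1.ZF ρ ζ) :
    w + 1 / 2 + ζ = uC x (-ζ.re) ρ (kT T x) := by
  rw [w_eq hw]
  apply Complex.ext
  · have h : ((1 : ℂ) / 2).re = 1 / 2 := by norm_num
    simp only [Complex.add_re, h, uC]
    ring
  · have h : ((1 : ℂ) / 2).im = 0 := by norm_num
    simp only [Complex.add_im, h, uC, hz.im]
    ring

theorem vf_eq (hw : W x (mT T) w) (hz : RZ1.ZF ρ ζ) :
    w + 1 / 2 - ζ = vC' x (-ζ.re) ρ (kT T x) := by
  rw [w_eq hw]
  apply Complex.ext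
  · have h : ((1 : ℂ) / 2).re = 1 / 2 := by norm_num
    simp only [Complex.sub_re, Complex.add_re, h, vC']
    ring
  · have h : ((1 : ℂ) / 2).im = 0 := by norm_num
    simp only [Complex.sub_im, Complex.add_im, h, vC', hz.im]
    ring

theorem S4_flat (hw : W x (mT T) w) (hz : RZ1.ZF ρ ζ) (h0 : 0 < x) :
    S4 (mT T) w ζ = Sf x (mT T) (kT T x) (-ζ.re) ρ := by
  unfold S4 Sf
  rw [LL_w hw, YY_w hw h0, uf_eq hw hz, vf_eq hw hz]

/-- box of the ramp -/
theorem boxR {B : F → F} {β : ℝ → ℝ} (hB : EvB B β) {l0 h0 l1 h1 l2 h2 h3 c : ℕ}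
    (h : okB 10000 (uR B) 0 0 0 0 40 l0 h0 l1 h1 l2 h2 0 h3 c = true)
    (hw : W x (mT T) w) (hz : RZ1.ZR s ρ ζ) (hx : 30 / 100 ≤ x) (hT : 0 ≤ T)
    (c0 : (l0 : ℝ) / 10000 ≤ x) (c0' : x ≤ (h0 : ℝ) / 10000)
    (c1 : (l1 : ℝ) / 10000 ≤ T) (c1' : T ≤ (h1 : ℝ) / 10000)
    (c2 : (l2 : ℝ) / 10000 ≤ s) (c2' : s ≤ (h2 : ℝ) / 10000) (c3' : ρ ≤ (h3 : ℝ) / 10000) :
    S4 (mT T) w ζ ≤ -β (mT T) := by
  have c3 : ((0 : ℕ) : ℝ) / 10000 ≤ ρ := by
    rw [Nat.cast_zero, zero_div]
    exact hz.pos.le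
  rw [S4_ramp hw hz hx hT]
  exact (okB_sound0 (uR_ok hB) h c0 c0' c1 c1' c2 c2' c3 c3').le

/-- box of the flat part -/
theorem boxF {B : F → F} {β : ℝ → ℝ} (hB : EvB B β) {l0 h0 l1 h1 h3 c : ℕ}
    (h : okB 10000 (uF B) 0 0 0 0 40 l0 h0 l1 h1 0 2500 0 h3 c = true)
    (hw : W x (mT T) w) (hz : RZ1.ZF ρ ζ) (hx : 30 / 100 ≤ x) (hT : 0 ≤ T)
    (c0 : (l0 : ℝ) / 10000 ≤ x) (c0' : x ≤ (h0 : ℝ) / 10000)
    (c1 : (l1 : ℝ) / 10000 ≤ T) (c1' : T ≤ (h1 : ℝ) / 10000) (c3' : ρ ≤ (h3 : ℝ) / 10000) :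
    S4 (mT T) w ζ ≤ -β (mT T) := by
  have c3 : ((0 : ℕ) : ℝ) / 10000 ≤ ρ := by
    rw [Nat.cast_zero, zero_div]
    exact hz.pos.le
  have c2 : ((0 : ℕ) : ℝ) / 10000 ≤ -ζ.re := by
    rw [Nat.cast_zero, zero_div]
    linarith only [hz, hz.hi]
  have c2' : -ζ.re ≤ ((2500 : ℕ) : ℝ) / 10000 := by
    push_cast
    linarith only [hz, hz.lo]
  have hD : DF x T (-ζ.re) ρ :=
    ⟨by linarith only [hx], hw.hi, hT, by linarith only [c2, hz.hi], by linarith only [c2', hz.lo], hz.pos⟩
  rw [S4_flat hw hz (by linarith only [hx])]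
  exact (okB_sound0 (uF_ok hB) h c0 c0' c1 c1' c2 c2' c3 c3' hD).le

/-- `30/100 ≤ x ≤ 36/100`, flat part -/
theorem g1_flat (hw : W x (T / (30 / 100)) w) (hz : RZ1.ZF ρ ζ) (h1 : 30 / 100 ≤ x)
    (h2 : x ≤ 36 / 100) (h3 : 10 / 1000 ≤ T) (h4 : T ≤ 131 / 1000) (h5 : ρ ≤ 1045 / 10000) :
    S4 (T / (30 / 100)) w ζ + Real.pi * (T / (30 / 100)) ≤
      -(12 / 100) + 178 / 100 * (T / (30 / 100)) := by
  rw [mT_eq] at hw ⊢
  rcases le_total T (6 / 100) with h8 | h8
  · have h9 := boxF ev_bG qgF_1 hw hz h1 (by linarith only [h3])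
      (by push_cast; linarith only [h1]) (by push_cast; linarith only [h2]) (by push_cast; linarith only [h3])
      (by push_cast; linarith only [h8]) (by push_cast; linarith only [h5])
    linarith only [h9]
  · have h9 := boxF ev_bG qgF_2 hw hz h1 (by linarith only [h8])
      (by push_cast; linarith only [h1]) (by push_cast; linarith only [h2]) (by push_cast; linarith only [h8])
      (by push_cast; linarith only [h4]) (by push_cast; linarith only [h5])
    linarith only [h9]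

/-- `30/100 ≤ x ≤ 36/100`, ramp -/
theorem g1_ramp (hw : W x (T / (30 / 100)) w) (hz : RZ1.ZR s ρ ζ) (h1 : 30 / 100 ≤ x)
    (h2 : x ≤ 36 / 100) (h3 : 10 / 1000 ≤ T) (h4 : T ≤ 131 / 1000) (h5 : ρ ≤ 1045 / 10000)
    (h6 : 1 / 8 ≤ s) :
    S4 (T / (30 / 100)) w ζ + Real.pi * (T / (30 / 100)) ≤
      -(12 / 100) + 178 / 100 * (T / (30 / 100)) := by
  rw [mT_eq] at hw ⊢
  have h7 := hz.hi
  rcases le_total T (6 / 100) with h8 | h8
  · have h9 := boxR ev_bG qgR_1 hw hz h1 (by linarith only [h3])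
      (by push_cast; linarith only [h1]) (by push_cast; linarith only [h2]) (by push_cast; linarith only [h3])
      (by push_cast; linarith only [h8]) (by push_cast; linarith only [h6]) (by push_cast; linarith only [h7])
      (by push_cast; linarith only [h5])
    linarith only [h9]
  · have h9 := boxR ev_bG qgR_2 hw hz h1 (by linarith only [h8])
      (by push_cast; linarith only [h1]) (by push_cast; linarith only [h2]) (by push_cast; linarith only [h8])
      (by push_cast; linarith only [h4]) (by push_cast; linarith only [h6]) (by push_cast; linarith only [h7])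
      (by push_cast; linarith only [h5])
    linarith only [h9]

/-- `36/100 ≤ x`, flat part -/
theorem g2_flat (hw : W x (T / (30 / 100)) w) (hz : RZ1.ZF ρ ζ) (h1 : 36 / 100 ≤ x)
    (h3 : 10 / 1000 ≤ T) (h4 : T ≤ 131 / 1000) (h5 : ρ ≤ 1045 / 10000) :
    S4 (T / (30 / 100)) w ζ + Real.pi * (T / (30 / 100)) ≤ 1 / 10 := by
  rw [mT_eq] at hw ⊢
  have h2 := hw.hi
  rcases le_total x (45 / 100) with h7 | h7
  · rcases le_total T (6 / 100) with h8 | h8
    · have h9 := boxF ev_bH qhF_1 hw hz (by linarith only [h1]) (by linarith only [h3])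
        (by push_cast; linarith only [h1]) (by push_cast; linarith only [h7]) (by push_cast; linarith only [h3])
        (by push_cast; linarith only [h8]) (by push_cast; linarith only [h5])
      linarith only [h9]
    · have h9 := boxF ev_bH qhF_2 hw hz (by linarith only [h1]) (by linarith only [h8])
        (by push_cast; linarith only [h1]) (by push_cast; linarith only [h7]) (by push_cast; linarith only [h8])
        (by push_cast; linarith only [h4]) (by push_cast; linarith only [h5])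
      linarith only [h9]
  · rcases le_total T (6 / 100) with h8 | h8
    · have h9 := boxF ev_bH qhF_3 hw hz (by linarith only [h7]) (by linarith only [h3])
        (by push_cast; linarith only [h7]) (by push_cast; linarith only [h2]) (by push_cast; linarith only [h3])
        (by push_cast; linarith only [h8]) (by push_cast; linarith only [h5])
      linarith only [h9]
    · have h9 := boxF ev_bH qhF_4 hw hz (by linarith only [h7]) (by linarith only [h8])
        (by push_cast; linarith only [h7]) (by push_cast; linarith only [h2]) (by push_cast; linarith only [h8])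
        (by push_cast; linarith only [h4]) (by push_cast; linarith only [h5])
      linarith only [h9]

/-- `36/100 ≤ x`, ramp -/
theorem g2_ramp (hw : W x (T / (30 / 100)) w) (hz : RZ1.ZR s ρ ζ) (h1 : 36 / 100 ≤ x)
    (h3 : 10 / 1000 ≤ T) (h4 : T ≤ 131 / 1000) (h5 : ρ ≤ 1045 / 10000) :
    S4 (T / (30 / 100)) w ζ + Real.pi * (T / (30 / 100)) ≤ 1 / 10 := by
  rw [mT_eq] at hw ⊢
  have h2 := hw.hi
  have h6 := hz.lo
  have h7 := hz.hi
  rcases le_total x (45 / 100) with h8 | h8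
  · have h9 := boxR ev_bH qhR_1 hw hz (by linarith only [h1, h6, h7]) (by linarith only [h3, h6, h7])
      (by push_cast; linarith only [h1]) (by push_cast; linarith only [h8]) (by push_cast; linarith only [h3])
      (by push_cast; linarith only [h4]) (by push_cast; linarith only [h6]) (by push_cast; linarith only [h7])
      (by push_cast; linarith only [h5])
    linarith only [h9]
  · have h9 := boxR ev_bH qhR_2 hw hz (by linarith only [h6, h7, h8]) (by linarith only [h3, h6, h7])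
      (by push_cast; linarith only [h8]) (by push_cast; linarith only [h2]) (by push_cast; linarith only [h3])
      (by push_cast; linarith only [h4]) (by push_cast; linarith only [h6]) (by push_cast; linarith only [h7])
      (by push_cast; linarith only [h5])
    linarith only [h9]

end RZ2

end Pool.Agent.Work.MP_b30479_gtS.G2

end
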