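import Pool.Agent.Work.MP_b30479_gt.TBS.G2.VZ3F
import Pool.Agent.Work.MP_b30479_gt.TBS.G2.V30K
import Pool.Agent.Work.MP_b30479_gt.TBS.G2.WRngZ
import Pool.Agent.Work.MP_b30479_gt.TBS.G2.VZ3Y_3
import Pool.Agent.Work.MP_b30479_gt.TBS.G2.WLocF

section

/-!
# `ring | 3` at slot `0`: word level

`A : Adj h i 0 j`, `i` a `3`, `j` a ring, height of the hinge `≥ 0` in the frame of the `3`.
* `z3_cap40`: the hinge is at most `40/100`, nothing about the ring variable is used;
* `z3_cap30`: it is at most `30/100` if the ring variable is at least `-3/8`.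
-/

namespace Pool.Agent.Work.MP_b30479_gtS.G2

open Finset VOL Filter Topology S0R

namespace SR

variable {M : ℕ} {b : Fin (M + 1) → ℤ} {zs : DD (tyW b) ⊕ ZZ (tyW b) → ℂ}
variable {y : DD (tyW b) ⊕ ZZ (tyW b) → ℝ}
variable {h h' : Fin M} {i j k : Fin (M + 1)}

theorem z3_cap2_cpR (K : Cl) : cap2 K = VL.cpR K := by
  cases K <;> rfl

/-- the hinge on its right ramp -/
theorem pw_hR (s : ℤ) {X : ℝ} (h1 : wXM b h = 60 / 100) (h2 : wcr b h = 30 / 100)
    (h3 : wcl b h ≤ 13 / 100) (hX : 30 / 100 ≤ X) (hX' : X ≤ 60 / 100) :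
    pw b zs s h X = ⟨X, VL.S33.hR X (ofs s (zs (.inl (.inl h))).im)⟩ := by
  have q := pw_RH (b := b) (zs := zs) s h (c := X) (by linarith only [hX]) (by rw [h1]; exact hX')
  have hre : (pw b zs s h X).re = X := pw_re s h X
  rw [h1, h2] at q
  apply Complex.ext
  · exact hre
  · rw [MR.RH_right q (wcl_pos h) (by norm_num) (by linarith only [h3]) (by rw [hre]; linarith only [hX]), hre]
    unfold VL.S33.hR
    ring

/-- **Values: joint moves of the hinge and the inner variable** -/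
theorem z3_val (hb : ClassW b) (hL : Loc b zs) (hy : Mx b zs y) (A : Adj h i 0 j)
    (hi : clsW b i = .three) (hj : clsW b j = .ring) {ρ : ℝ} (N : RNp b zs y j ρ)
    (hT : 0 ≤ ofs (b i) (zs (.inl (.inl h))).im) {X c : ℝ} (hX : 30 / 100 ≤ X)
    (hx : X ≤ y (.inl (.inl h))) (c0 : 5 / 100 ≤ c) (c1 : c ≤ 75 / 100) :
    V3 ⟨X, VL.S33.hR X (ofs (b i) (zs (.inl (.inl h))).im)⟩ (lv c (tW zs (Or.inl hi)))
        (Yw b zs y i 2) ≤
      V3 (Yw b zs y i 0) (OY b zs y i 1) (Yw b zs y i 2) := by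
  have hop := A.opp hb (Or.inl (by rw [hi]; decide))
  obtain ⟨q1, q2, q3⟩ := A.s0r_parZ hi hj
  obtain ⟨-, -, T1, T2⟩ := A.box hb hL
  rw [hi, hj, A.ss hop] at T1 T2
  simp only [hbox] at T1 T2
  have hre := A.symm.re (b := b) (zs := zs) (y := y)
  have hx6 : y (.inl (.inl h)) ≤ 60 / 100 := by
    have := (A.symm.rh hy).reM
    rw [hre, q1] at this
    exact this
  have hXM : X ≤ 60 / 100 := hx.trans hx6
  have hTj : ofs (b j) (zs (.inl (.inl h))).im = -ofs (b i) (zs (.inl (.inl h))).im :=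
    ofs_opp hop _
  have key := val_hm hb hy A (c := X) (by linarith only [hX]) (by rw [q1]; exact hXM)
    (mopt_three hi (c := c) (by linarith only [c0]) (by linarith only [c1]) _) (MOpt.same _ _)
  rw [OV_move hb hi, OV_three hb hi, OY_zero, OY_two] at key
  have hd := dV_ring hb A.symm hj (OY_endOk (zs := zs) (y := y) j) (pw b zs (b j) h X)
  unfold dV at hd
  have e4 : vW zs (Or.inl hi) c = lv c (tW zs (Or.inl hi)) := by
    apply Complex.ext
    · rw [vW_re, lv_re]
    · rw [vW_three hi c0 c1, lv_im]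
  rw [e4, pw_hR (b i) q1 q2 q3 hX hXM] at key
  obtain ⟨σ, s1, s2, z⟩ := N.zt
  have ht := tyW_of_ring hb hj
  have e5 : OY b zs y j 1 = LT.zt ρ σ := by rw [OY_ring ht, z]
  have e6 : OY b zs y j (Fin.rev 0) = VL.SZ3.wr (ofs (b i) (zs (.inl (.inl h))).im)
      (y (.inl (.inl h))) := by
    have := OY_hinge (b := b) (zs := zs) y A.symm
    rw [this, pw_hR (b j) q1 q2 q3 (hX.trans hx) hx6, hTj]
    unfold VL.SZ3.wr VL.S33.hR
    congr 1
    ring
  have e7 : pw b zs (b j) h X = VL.SZ3.wr (ofs (b i) (zs (.inl (.inl h))).im) X := by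
    rw [pw_hR (b j) q1 q2 q3 hX hXM, hTj]
    unfold VL.SZ3.wr VL.S33.hR
    congr 1
    ring
  rw [e5, e6] at hd
  have hs : |σ| < 1 / 2 := by
    rw [abs_of_nonpos s2]
    linarith only [s1]
  have hf := VL.SZ3.fR_anti N.pos N.le hT (by linarith only [T2]) s2 hs hX hx hx6
  rw [← e7] at hf
  unfold fR at hf
  linarith only [hi, key, hd, hf]

/-- **The side of the digit** -/
theorem z3_own (hb : ClassW b) (hL : Loc b zs) (hX : LocX b zs) (hy : Mx b zs y)
    (hpos : ∀ h : Fin M, 0 < y (.inl (.inl h))) (A : Adj h i 0 j) (A' : Adj h' i 2 k)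
    (hi : clsW b i = .three) (hj : clsW b j = .ring) {ρ : ℝ} (N : RNp b zs y j ρ)
    (hT : 0 ≤ ofs (b i) (zs (.inl (.inl h))).im) (h7 : 7 / 100 ≤ y (.inl (.inl h')))
    (hc : y (.inl (.inl h')) ≤ cap2 (clsW b k)) (hx0 : 30 / 100 < y (.inl (.inl h))) :
    (y (.inl (.inl h)) ≤ 40 / 100 →
      Sw b zs y i 0 (slL b zs y h) < VL.SZ3.B1 (y (.inl (.inl h)))) ∧
    (40 / 100 ≤ y (.inl (.inl h)) → Sw b zs y i 0 (slL b zs y h) < 0) := by
  have hop := A.opp hb (Or.inl (by rw [hi]; decide))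
  have hj1 : clsW b j ≠ .one := by rw [hj]; decide
  have hj2 : clsW b j ≠ .twoE := by rw [hj]; decide
  obtain ⟨q1, q2, q3⟩ := A.s0r_parZ hi hj
  obtain ⟨-, -, T1, T2⟩ := A.box hb hL
  rw [hi, hj, A.ss hop] at T1 T2
  simp only [hbox] at T1 T2
  have hre := A.re (b := b) (zs := zs) (y := y)
  have hx6 : y (.inl (.inl h)) ≤ 60 / 100 := by
    have := (A.rh hy).reM
    rw [hre, q1] at this
    exact this
  obtain ⟨hK, hR, hs1⟩ := s0r_KW hb hL hX hy A A' hi hj1 hj2 h7 hc
  have hv := rh_three hy hi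
  obtain ⟨hu, hsl⟩ := A.s0r_ramp hy q1 q2 q3 hx0
  have hval := s0r_val hb hy hi
  have hT2 : ofs (b i) (zs (.inl (.inl h))).im ≤ 57 / 1000 := by linarith only [T2]
  have hu' : (Yw b zs y i 0).im =
      VL.S33.hR (Yw b zs y i 0).re (ofs (b i) (zs (.inl (.inl h))).im) := by
    rw [hu]
    unfold VL.S33.hR
    ring
  have ht : -(114 / 1000) ≤ tW zs (Or.inl hi) ∧ tW zs (Or.inl hi) ≤ 5 / 1000 ∧
      ofs (b i) (zs (.inl (.inl h))).im - tW zs (Or.inl hi) ≤ 105 / 1000 := by
    rcases hK with g | g | g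
    · exact ⟨g.t0, g.t1.trans (by norm_num), g.s0⟩
    · exact ⟨le_trans (by norm_num) g.t0, g.t1, g.s0.trans (by norm_num)⟩
    · exact ⟨le_trans (by norm_num) g.t0, g.t1.trans (by norm_num), g.s0.trans (by norm_num)⟩
  have W : VL.SZ3.Wn (ofs (b i) (zs (.inl (.inl h))).im) (tW zs (Or.inl hi)) :=
    ⟨hT, hT2, ht.2.1, ht.2.2, hs1⟩
  have H := htW hb hL hX A A' hi
  have q := A'.rh hy
  obtain ⟨e1, e2, e3⟩ := A'.par_three2 hi
  rw [e1, e2, e3] at q
  have hW := VL.HW_of H q (by rw [A'.re, ← z3_cap2_cpR]; exact hc)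
  have hts : tW zs (Or.inl hi) ≤ 0 ∨ -(57 / 1000) ≤ ofs (b i) (zs (.inl (.inl h'))).im :=
    H.t_all.2.2
  have hw7 : 7 / 100 ≤ (Yw b zs y i 2).re := by rw [A'.re]; exact h7
  -- the inner variable is not far to the left
  have hlow : y (.inl (.inl h)) - 13 / 100 < (OY b zs y i 1).re := by
    by_contra hcon
    push Not at hcon
    rcases le_total (y (.inl (.inl h))) (38 / 100) with h1 | h1
    · obtain ⟨c, c0, c1, c2⟩ := low_z (by rw [hre]; exact hx0.le) (by rw [hre]; exact h1) hu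
        (by linarith only [hT, hx0, h1]) hT2 hK hv (by rw [hre]; exact hcon)
      exact absurd (hval c c0 c1 ⟨c, tW zs (Or.inl hi)⟩ rfl rfl) (not_le.2 (c2 _ rfl rfl))
    · obtain ⟨c, c0, c1, c2⟩ := VL.SZ3.mv_left W hu' hv (by rw [hre]; exact h1)
        (by rw [hre]; exact hx6) (by rw [hre]; exact hcon) hW hts
      exact absurd (z3_val hb hL hy A hi hj N hT le_rfl hx0.le c0 c1) (not_le.2 c2)
  obtain ⟨m1, m2, r1, r2⟩ := s0r_mid hb hy hpos hi (by linarith only [hx0, hlow])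
  -- nor on its right ramp
  have hnr : ¬ 75 / 100 < (OY b zs y i 1).re := by
    intro h1
    rcases le_total (y (.inl (.inl h))) (1 / 2) with h2 | h2
    · refine no_ramp (s := 8 / 10 - (OY b zs y i 1).re) (by rw [hre]; linarith only [hx0])
        (by rw [hre]; exact h2) ?_ hR (by ring) ?_ (by linarith only [hi, hv, hv.reM]) (by linarith only [h1]) (m2 h1)
        hval r1
      · rw [hu, abs_le]
        constructor <;> nlinarith only [hT, hre, hx6, T2, hx0]
      · rw [V2A.mid_right hv h1.le]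
        ring
    · exact absurd (z3_val hb hL hy A hi hj N hT (by norm_num) (by linarith only [hx0, h2]) (by norm_num)
        (by norm_num)) (not_le.2 (VL.SZ3.mv_right W hu' hv (by rw [hre]; linarith only [h2])
          (by rw [hre]; exact hx6) h1.le hW hw7))
  push Not at hnr
  have hfl := V2A.mid_flat hv (by linarith only [hx0, hlow]) hnr
  have hS := m1 (by linarith only [hx0, hlow]) hnr
  rw [A.side_three_zero hb hi, ← OY_mid (Or.inl hi), hsl]
  constructor
  · intro hx4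
    rcases le_total (y (.inl (.inl h))) (34 / 100) with h1 | h1
    · rw [← hre]
      rcases le_total ((OY b zs y i 1).re - (Yw b zs y i 0).re) (13 / 100) with h2 | h2
      · exact VL.SZ3.near_a (by rw [hre]; exact hx0.le) (by rw [hre]; exact h1) hu hT hT2 ht.2.1
          ht.2.2 hfl (by rw [hre]; linarith only [hlow]) h2 r2
      · refine VL.SZ3.far_a (by rw [hre]; exact hx0.le) (by rw [hre]; exact h1) hu hT hT2 hK hfl
          (by linarith only [hx0, h1, h2]) hnr hS r1 (fun hw => ?_)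
        rcases hW.cases with ⟨σ, g1, g2, -, -, g5, -⟩ | ⟨g1, -, -, -⟩
        · rw [g1]
          nlinarith only [hw, g5, hw7]
        · linarith only [hx0, h1, hw, g1]
    · have h5 : S3 1 (-(10 / 3 * ofs (b i) (zs (.inl (.inl h))).im)) (Yw b zs y i 0)
          (OY b zs y i 1) < 66 / 100 - 3 / 2 * (Yw b zs y i 0).re := by
        rcases le_total ((OY b zs y i 1).re - (Yw b zs y i 0).re) (1 / 10) with h2 | h2
        · exact near_3a (by rw [hre]; exact hx0.le) (by rw [hre]; exact hx4) hu (by linarith only [hT]) hT2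
            ht.1 ht.2.1 ht.2.2 hfl (by rw [hre]; linarith only [hlow]) (by linarith only [h2]) r2
        · exact far_3a (by rw [hre]; exact hx0.le) (by rw [hre]; exact hx4) hu (by linarith only [hT]) hT2
            hK hfl h2 hnr hS r1
      rw [hre] at h5
      unfold VL.SZ3.B1
      linarith only [hx0, h1, h5]
  · intro hx4
    rcases le_total (y (.inl (.inl h))) (1 / 2) with h1 | h1
    · rcases le_total ((OY b zs y i 1).re - (Yw b zs y i 0).re) (1 / 10) with h2 | h2
      · exact near_3z (by rw [hre]; exact hx4) (by rw [hre]; exact h1) hu (by linarith only [hT]) hT2 ht.1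
          ht.2.1 ht.2.2 hfl (by rw [hre]; linarith only [hlow]) (by linarith only [h2]) r2
      · exact far_3z (by rw [hre]; exact hx4) (by rw [hre]; exact h1) hu (by linarith only [hT]) hT2 hK hfl
          h2 hnr hS r1
    · rcases le_total ((OY b zs y i 1).re - (Yw b zs y i 0).re) (13 / 100) with h2 | h2
      · by_cases h3 : tW zs (Or.inl hi) ≤ (Yw b zs y i 0).im ∨
            ofs (b i) (zs (.inl (.inl h))).im ≤ 35 / 1000
        · exact VL.SZ3.near_b (by rw [hre]; linarith only [h1]) (by rw [hre]; exact hx6) hu hT hT2 ht.2.1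
            ht.2.2 hfl (by rw [hre]; linarith only [hlow]) h2 r2 h3
        · exfalso
          push Not at h3
          exact absurd (z3_val hb hL hy A hi hj N hT le_rfl hx0.le (by norm_num)
            (by norm_num)) (not_le.2 (VL.SZ3.mv_near W hu' hv (by rw [hre]; linarith only [h1])
              (by rw [hre]; exact hx6) (by rw [hre]; linarith only [hlow]) (by linarith only [h2]) h3.2.le
              (by rw [← hu']; exact h3.1.le) hW))
      · exact VL.SZ3.far_b (by rw [hre]; linarith only [h1]) (by rw [hre]; exact hx6) hu hT hT2 hK hfl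
          (by linarith only [h2]) hnr hS r1

/-- the side of the ring -/
theorem z3_ring (hb : ClassW b) (hL : Loc b zs) (hy : Mx b zs y) (A : Adj h i 0 j)
    (hi : clsW b i = .three) (hj : clsW b j = .ring)
    (hT : 0 ≤ ofs (b i) (zs (.inl (.inl h))).im) (hx0 : 30 / 100 < y (.inl (.inl h))) :
    (∀ {ρ : ℝ}, RNp b zs y j ρ → Sw b zs y j 2 (slL b zs y h) < 0) ∧
    (∀ {ρ : ℝ}, RNs b zs y j ρ → y (.inl (.inl h)) ≤ 40 / 100 →
      Sw b zs y j 2 (slL b zs y h) < -VL.SZ3.B1 (y (.inl (.inl h)))) := by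
  have hop := A.opp hb (Or.inl (by rw [hi]; decide))
  obtain ⟨q1, q2, q3⟩ := A.s0r_parZ hi hj
  obtain ⟨-, -, T1, T2⟩ := A.box hb hL
  rw [hi, hj, A.ss hop] at T1 T2
  simp only [hbox] at T1 T2
  have B : Adj h j 2 i := A.symm
  have hre := B.re (b := b) (zs := zs) (y := y)
  have hx6 : y (.inl (.inl h)) ≤ 60 / 100 := by
    have := (B.rh hy).reM
    rw [hre, q1] at this
    exact this
  have hTj : ofs (b j) (zs (.inl (.inl h))).im = -ofs (b i) (zs (.inl (.inl h))).im :=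
    ofs_opp hop _
  have him : (Yw b zs y j 2).im =
      -VL.S33.hR (Yw b zs y j 2).re (ofs (b i) (zs (.inl (.inl h))).im) := by
    rw [B.h30l hy q1 q2 q3 hx0.le, hTj]
    unfold V2A.h30 VL.S33.hR
    ring
  have hsl : ofs (b j) (slL b zs y h) = ofs (b i) (zs (.inl (.inl h))).im / (30 / 100) := by
    rw [ofs_slL_ramp _ (by rw [q1, q2]; linarith only [hx0]), q2, hTj]
    ring
  constructor
  · intro ρ N
    obtain ⟨σ, s1, s2, z⟩ := N.zt
    rw [B.side_ring hb hj, hsl, z]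
    exact VL.SZ3.ring_neg N.pos N.le him (by rw [hre]; linarith only [hx0]) (by rw [hre]; exact hx6) hT
      (by linarith only [T2]) s2 (by rw [abs_of_nonpos s2]; linarith only [s1])
  · intro ρ N hx4
    obtain ⟨σ, s1, s2, z⟩ := N.zt
    rw [B.side_ring hb hj, hsl, z, ← hre]
    rcases zt_cases N.pos (by linarith only [s1] : -(1 / 2) < σ) s2 with g | g
    · exact VL.SZ3.ring_flat him (by rw [hre]; linarith only [hx0]) (by rw [hre]; exact hx4) hT (by linarith only [T2])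
        g N.le
    · exact VL.SZ3.ring_ramp him (by rw [hre]; linarith only [hx0]) (by rw [hre]; exact hx4) hT (by linarith only [T2])
        g (by linarith only [s1]) N.le

/-- **`ring | 3` at slot `0`**, first form -/
theorem z3_cap40 (hb : ClassW b) (hL : Loc b zs) (hX : LocX b zs) (hy : Mx b zs y)
    (hpos : ∀ h : Fin M, 0 < y (.inl (.inl h))) (A : Adj h i 0 j) (A' : Adj h' i 2 k)
    (hi : clsW b i = .three) (hj : clsW b j = .ring) {ρ : ℝ} (N : RNp b zs y j ρ)
    (hT : 0 ≤ ofs (b i) (zs (.inl (.inl h))).im) (h7 : 7 / 100 ≤ y (.inl (.inl h')))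
    (hc : y (.inl (.inl h')) ≤ cap2 (clsW b k)) : y (.inl (.inl h)) ≤ 40 / 100 := by
  by_contra hcon
  push Not at hcon
  have s1 := (z3_own hb hL hX hy hpos A A' hi hj N hT h7 hc (by linarith only [hcon])).2 hcon.le
  have s2 := (z3_ring hb hL hy A hi hj hT (by linarith only [hcon])).1 N
  exact rstep_false hb hy (hpos h) (RSide.of_sum A (by
    show _ + Sw b zs y j 2 (slL b zs y h) < 0
    linarith only [s1, s2]))

/-- **`ring | 3` at slot `0`**, second form -/
theorem z3_cap30 (hb : ClassW b) (hL : Loc b zs) (hX : LocX b zs) (hy : Mx b zs y)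
    (hpos : ∀ h : Fin M, 0 < y (.inl (.inl h))) (A : Adj h i 0 j) (A' : Adj h' i 2 k)
    (hi : clsW b i = .three) (hj : clsW b j = .ring) {ρ : ℝ} (N : RNs b zs y j ρ)
    (hT : 0 ≤ ofs (b i) (zs (.inl (.inl h))).im) (h7 : 7 / 100 ≤ y (.inl (.inl h')))
    (hc : y (.inl (.inl h')) ≤ cap2 (clsW b k)) : y (.inl (.inl h)) ≤ 30 / 100 := by
  have N' : RNp b zs y j ρ := by
    obtain ⟨σ, s1, s2, z⟩ := N.zt
    exact ⟨N.pos, N.le, σ, by linarith only [s1], s2, z⟩
  have h40 := z3_cap40 hb hL hX hy hpos A A' hi hj N' hT h7 hc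
  by_contra hcon
  push Not at hcon
  have s1 := (z3_own hb hL hX hy hpos A A' hi hj N' hT h7 hc hcon).1 h40
  have s2 := (z3_ring hb hL hy A hi hj hT hcon).2 N h40
  exact rstep_false hb hy (hpos h) (RSide.of_sum A (by
    show _ + Sw b zs y j 2 (slL b zs y h) < 0
    linarith only [s1, s2]))

/-- **`ring | 3` at slot `0`** (`R0`): no information about the other hinge of the ring -/
theorem cap_ring_three0a (hb : ClassW b) (hL : Loc b zs) (hX : LocX b zs) (hR : LocR b zs)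
    (hy : Mx b zs y) (hpos : ∀ h : Fin M, 0 < y (.inl (.inl h))) (A : Adj h i 0 j)
    (A' : Adj h' i 2 k) (hi : clsW b i = .three) (hj : clsW b j = .ring)
    (hT : 0 ≤ ofs (b i) (zs (.inl (.inl h))).im) (h7 : 7 / 100 ≤ y (.inl (.inl h')))
    (hc : y (.inl (.inl h')) ≤ cap2 (clsW b k)) : y (.inl (.inl h)) ≤ 40 / 100 := by
  obtain ⟨ρ, N⟩ := A.symm.rnp hb hL hX hR hy hj
  exact z3_cap40 hb hL hX hy hpos A A' hi hj N hT h7 hc

/-- **`ring | 3` at slot `0`** (`R1`): the other hinge of the ring is `≤ 1/2` -/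
theorem cap_ring_three0 (hb : ClassW b) (hL : Loc b zs) (hX : LocX b zs) (hR : LocR b zs)
    (hy : Mx b zs y) (hpos : ∀ h : Fin M, 0 < y (.inl (.inl h))) (A : Adj h i 0 j)
    (A' : Adj h' i 2 k) (hi : clsW b i = .three) (hj : clsW b j = .ring)
    (hT : 0 ≤ ofs (b i) (zs (.inl (.inl h))).im) (h7 : 7 / 100 ≤ y (.inl (.inl h')))
    (hc : y (.inl (.inl h')) ≤ cap2 (clsW b k))
    (hH : ∀ {h1 j1}, Adj h1 j 0 j1 → y (.inl (.inl h1)) ≤ 1 / 2) :
    y (.inl (.inl h)) ≤ 30 / 100 := by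
  have h40 := cap_ring_three0a hb hL hX hR hy hpos A A' hi hj hT h7 hc
  obtain ⟨ρ, N⟩ := A.symm.rns hb hL hX hR hy hj (by linarith only [h40]) hH
  exact z3_cap30 hb hL hX hy hpos A A' hi hj N hT h7 hc

end SR

end Pool.Agent.Work.MP_b30479_gtS.G2

end

section

/-!
# `ring | 3` at slot `0`: all cases
-/

namespace Pool.Agent.Work.MP_b30479_gtS.G2

open Finset VOL Filter Topology

namespace SR

variable {M : ℕ} {b : Fin (M + 1) → ℤ} {zs : DD (tyW b) ⊕ ZZ (tyW b) → ℂ}
variable {y : DD (tyW b) ⊕ ZZ (tyW b) → ℝ}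
variable {h h' : Fin M} {i j k : Fin (M + 1)} {p : Fin 3}

/-- the place of the ring variable, with its height -/
theorem Adj.rns' (A : Adj h i p j) (hb : ClassW b) (hL : Loc b zs) (hX : LocX b zs)
    (hR : LocR b zs) (hy : Mx b zs y) (hc : clsW b i = .ring) (hx : y (.inl (.inl h)) ≤ 1 / 2)
    (H : ∀ {h' j'}, Adj h' i p.rev j' → y (.inl (.inl h')) ≤ 1 / 2) :
    ∃ v : ZZ (tyW b), v.1 = i ∧ RNs b zs y i (zs (.inr v)).im := by
  obtain ⟨v, hv, k', P⟩ := A.rpk hb hL hX hR hy hc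
  have hge := P.rm.ge P.cap P.ok P.ok' (abs_lt.1 P.lt).1 (by rw [A.re]; exact hx) (A.other_half H)
    P.cp P.cp'
  have h4 := P.rm.b4
  have h5 : 1 / (2 * (((b i).natAbs : ℕ) : ℝ)) ≤ 1 / 8 := by
    rw [div_le_div_iff₀ (by positivity) (by norm_num)]
    linarith only [h4]
  exact ⟨v, hv, P.rm.ρ0, P.cap.1, _, by linarith only [hge, h5], P.le, P.z⟩

/-- **`ring | 3` at slot `0`, the exception.** -/
theorem z3_exc (hb : ClassW b) (hL : Loc b zs) (hX : LocX b zs) (hR : LocR b zs)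
    (hy : Mx b zs y) (hpos : ∀ h : Fin M, 0 < y (.inl (.inl h))) (A : Adj h i 0 j)
    (A' : Adj h' i 2 k) (hi : clsW b i = .three) (hj : clsW b j = .ring)
    (E : Exc3 b zs h i j 0) (hT' : ofs (b i) (zs (.inl (.inl h))).im ≤ 0)
    (h7 : 7 / 100 ≤ y (.inl (.inl h'))) (hc : y (.inl (.inl h')) ≤ cap2 (clsW b k)) :
    y (.inl (.inl h)) ≤ 30 / 100 := by
  have hk : clsW b k = .one := E.one A'
  have hc' : y (.inl (.inl h')) ≤ 39 / 100 := by
    rw [hk] at hc
    exact hc
  have B : Adj h j 2 i := A.symm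
  have hop := A.opp hb (Or.inl (by rw [hi]; decide))
  have eo : ofs (b j) (zs (.inl (.inl h))).im = -ofs (b i) (zs (.inl (.inl h))).im := ofs_opp hop _
  have hT := E.lo
  have hx1 := A.exc_cap_zero hb hL hX hy hi hj E hT'
  obtain ⟨g, m, C, hm, -⟩ := E.nxt
  have hg : y (.inl (.inl g)) ≤ 27 / 100 := C.rr_cap hb hL hX hR hy hj hm
  obtain ⟨v, hv, N⟩ := B.rns' hb hL hX hR hy hj hx1 (fun {h1 j1} (B' : Adj h1 j 0 j1) => by
    rw [(B'.eq_of C).1]
    linarith only [hg])
  exact z3_exc30 hb hL hX hy hpos A A' hi hj hk hT hT' h7 hc' N (E.r0 v hv) (E.r1 v hv)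
    (fun h1 => exc_s0_low hb hL hX hy A A' hi hj hk hc' hT hT'
      (B.exc_dV hb hL hy hj hi (by linarith only [hT', eo]) (by linarith only [eo, hT]) (by linarith only [h1])) h1) hx1

/-- **`ring | 3` at slot `0`** (`R0`) -/
theorem s0_Z_of (hb : ClassW b) (H : LocA b zs) (hy : Mx b zs y)
    (hpos : ∀ h : Fin M, 0 < y (.inl (.inl h))) (A : Adj h i 0 j) (A' : Adj h' i 2 k)
    (hi : clsW b i = .three) (hj : clsW b j = .ring) (h7 : 7 / 100 ≤ y (.inl (.inl h')))
    (hc : y (.inl (.inl h')) ≤ cap2 (clsW b k)) : y (.inl (.inl h)) ≤ 40 / 100 := by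
  rcases le_or_gt 0 (ofs (b i) (zs (.inl (.inl h))).im) with hT | hT
  · exact cap_ring_three0a hb H.L H.X H.R hy hpos A A' hi hj hT h7 hc
  · rcases H.R.three A hi hj with hT' | E
    · exact absurd hT' (not_le.2 hT)
    · exact (z3_exc hb H.L H.X H.R hy hpos A A' hi hj E hT.le h7 hc).trans (by norm_num)

/-- **`ring | 3` at slot `0`** (`R1`): the other hinge of the ring is `≤ 1/2` -/
theorem s0_Z'_of (hb : ClassW b) (H : LocA b zs) (hy : Mx b zs y)
    (hpos : ∀ h : Fin M, 0 < y (.inl (.inl h))) (A : Adj h i 0 j) (A' : Adj h' i 2 k)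
    (hi : clsW b i = .three) (hj : clsW b j = .ring) (h7 : 7 / 100 ≤ y (.inl (.inl h')))
    (hc : y (.inl (.inl h')) ≤ cap2 (clsW b k))
    (hH : ∀ {h1 j1}, Adj h1 j 0 j1 → y (.inl (.inl h1)) ≤ 1 / 2) :
    y (.inl (.inl h)) ≤ 30 / 100 := by
  rcases le_or_gt 0 (ofs (b i) (zs (.inl (.inl h))).im) with hT | hT
  · exact cap_ring_three0 hb H.L H.X H.R hy hpos A A' hi hj hT h7 hc hH
  · rcases H.R.three A hi hj with hT' | E
    · exact absurd hT' (not_le.2 hT)
    · exact z3_exc hb H.L H.X H.R hy hpos A A' hi hj E hT.le h7 hc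

/-- `3 | ring` at slot `2`: the case `T < 0` -/
theorem c3Z_of (hb : ClassW b) (H : LocA b zs) (hy : Mx b zs y) (A : Adj h i 2 k)
    (hi : clsW b i = .three) (hk : clsW b k = .ring)
    (hT : ofs (b i) (zs (.inl (.inl h))).im < 0) : y (.inl (.inl h)) ≤ 30 / 100 := by
  rcases H.R.three A hi hk with hT' | E
  · exact absurd hT' (not_le.2 hT)
  · exact A.exc_cap_two hb H.L H.X hy hi hk hT.le E.lo

end SR

end Pool.Agent.Work.MP_b30479_gtS.G2

end
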