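import Pool.Agent.Work.MP_b30479_gt.TBS.G2.OTab

section

set_option deprecated.oldSectionVars true

namespace Pool.Agent.Work.MP_b30479_gtS.G2

namespace OR

/-- windows -/
def a2e_0_wp : PC → Win
  | .one => ⟨0, 0, 0, 0, 0, 0⟩
  | .two => ⟨0, 0, 0, 0, 0, 0⟩
  | .twoE => ⟨-790, -360, -310, 250, 230, 820⟩
  | .thrR => ⟨0, 0, 0, 0, 0, 0⟩
  | .thrL => ⟨0, 0, 0, 0, 0, 0⟩
  | .threeE => ⟨0, 0, 0, 0, 0, 0⟩
  | .ring => ⟨0, 0, 0, 0, 0, 0⟩

/-- windows -/
def a2e_0_wq : PC → Win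
  | .one => ⟨0, 0, 0, 0, 0, 0⟩
  | .two => ⟨0, 0, 0, 0, 0, 0⟩
  | .twoE => ⟨0, 0, 0, 0, 0, 0⟩
  | .thrR => ⟨0, 0, 0, 0, 0, 0⟩
  | .thrL => ⟨0, 0, 0, 0, 0, 0⟩
  | .threeE => ⟨0, 0, 0, 0, 0, 0⟩
  | .ring => ⟨600, 1300, 110, 690, -820, -230⟩

/-- mode -/
def a2e_0_m0 : Mode where
  md := .D
  lam := 1000
  ct := 13000
  gp := fun
    | .one => [e00, e00, e00, e00, e00, e00, e00, e00]
    | .two => [e00, e00, e00, e00, e00, e00]
    | .twoE => [⟨-652, [2394223214100770]⟩, ⟨-652, [557442]⟩, ⟨-652, [48560588798130714957868737786823798734241404930]⟩, e00, e00, e00]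
    | .thrR => [e00, e00, e00, e00, e00, e00]
    | .thrL => [e00, e00, e00, e00, e00, e00]
    | .threeE => [e00, e00, e00, e00, e00, e00]
    | .ring => [e00, e00, e00, e00, e00, e00]
  gq := fun
    | .one => [e00, e00, e00, e00, e00, e00, e00, e00]
    | .two => [e00, e00, e00, e00, e00, e00]
    | .twoE => [e00, e00, e00, e00, e00, e00]
    | .thrR => [e00, e00, e00, e00, e00, e00]
    | .thrL => [e00, e00, e00, e00, e00, e00]
    | .threeE => [e00, e00, e00, e00, e00, e00]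
    | .ring => [⟨-22, [1214472402872098364010898058635233661492433536848290973138724356898]⟩, ⟨-22, [20374184641895785866868138626969857067667124106263119140119993487889826083]⟩, ⟨-22, [252023079844746838305544110635716152474946796481385271654566578879290507837050930]⟩, e00, e00, e00]

/-- mode -/
def a2e_0_m1 : Mode where
  md := .V 300 1000
  lam := 1250
  ct := 500
  gp := fun
    | .one => [e00, e00, e00, e00, e00, e00, e00, e00]
    | .two => [e00, e00, e00, e00, e00, e00]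
    | .twoE => [⟨1263, [8]⟩, ⟨-5, [2178]⟩, ⟨-5, [142704770]⟩, ⟨-975, [2894435663003253718317614577534015931154, 9348130768945, 8, 8, 2640905684655192557708579362, 44307045165619851971644339583525410]⟩, ⟨-1038, [0, 0, 0, 0, 2178, 559138]⟩, e00]
    | .thrR => [e00, e00, e00, e00, e00, e00]
    | .thrL => [e00, e00, e00, e00, e00, e00]
    | .threeE => [e00, e00, e00, e00, e00, e00]
    | .ring => [e00, e00, e00, e00, e00, e00]
  gq := fun
    | .one => [e00, e00, e00, e00, e00, e00, e00, e00]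
    | .two => [e00, e00, e00, e00, e00, e00]
    | .twoE => [e00, e00, e00, e00, e00, e00]
    | .thrR => [e00, e00, e00, e00, e00, e00]
    | .thrL => [e00, e00, e00, e00, e00, e00]
    | .threeE => [e00, e00, e00, e00, e00, e00]
    | .ring => [⟨134, [557442]⟩, ⟨134, [557953]⟩, ⟨134, [142706707]⟩, ⟨-837, [53392932031474330537877525896988214073065467285926985302322, 36532945683, 8, 8, 172680324391459033850979468522018, 614891468983710242]⟩, ⟨-2104, [0, 0, 0, 0, 86062616071869212466114857831133702576250406767723111987721432153152854627380272020448160145467427157423472282053382946, 2178]⟩, ⟨-2104, [0, 0, 0, 0, 142705282, 36532552322]⟩]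

/-- mode -/
def a2e_0_m2 : Mode where
  md := .V 150 1000
  lam := 0
  ct := -1000
  gp := fun
    | .one => [e00, e00, e00, e00, e00, e00, e00, e00]
    | .two => [e00, e00, e00, e00, e00, e00]
    | .twoE => [e00, e00, e00, e00, e00, ⟨-1933, [0, 0, 0, 0, 36549264002, 8]⟩]
    | .thrR => [e00, e00, e00, e00, e00, e00]
    | .thrL => [e00, e00, e00, e00, e00, e00]
    | .threeE => [e00, e00, e00, e00, e00, e00]
    | .ring => [e00, e00, e00, e00, e00, e00]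
  gq := fun
    | .one => [e00, e00, e00, e00, e00, e00, e00, e00]
    | .two => [e00, e00, e00, e00, e00, e00]
    | .twoE => [e00, e00, e00, e00, e00, e00]
    | .thrR => [e00, e00, e00, e00, e00, e00]
    | .thrL => [e00, e00, e00, e00, e00, e00]
    | .threeE => [e00, e00, e00, e00, e00, e00]
    | .ring => [⟨1929, [1004686406572544392641347354815832570038290]⟩, ⟨1929, [3923925342931960250346137572155542571027]⟩, ⟨1929, [212247934106115512323]⟩, ⟨1929, [172521964258885891415801207461938, 36532945683, 8, 8, 40291761305108679307810, 2401919795540514]⟩, ⟨1739, [0, 0, 0, 0, 9382398100258, 2178]⟩, ⟨-2019, [0, 0, 0, 0, 8, 8]⟩]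

/-- mode -/
def a2e_0_m3 : Mode where
  md := .V 500 1000
  lam := 500
  ct := 1000
  gp := fun
    | .one => [e00, e00, e00, e00, e00, e00, e00, e00]
    | .two => [e00, e00, e00, e00, e00, e00]
    | .twoE => [⟨99, [559122]⟩, e00, e00, e00, e00, e00]
    | .thrR => [e00, e00, e00, e00, e00, e00]
    | .thrL => [e00, e00, e00, e00, e00, e00]
    | .threeE => [e00, e00, e00, e00, e00, e00]
    | .ring => [e00, e00, e00, e00, e00, e00]
  gq := fun
    | .one => [e00, e00, e00, e00, e00, e00, e00, e00]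
    | .two => [e00, e00, e00, e00, e00, e00]
    | .twoE => [e00, e00, e00, e00, e00, e00]
    | .thrR => [e00, e00, e00, e00, e00, e00]
    | .thrL => [e00, e00, e00, e00, e00, e00]
    | .threeE => [e00, e00, e00, e00, e00, e00]
    | .ring => [e00, e00, e00, ⟨-438, [48560588794748947269587966154080240284363948338, 36532945683, 8, 8, 44206153052410706855280733091607074, 157410808720648122914]⟩, e00, e00]

/-- piece -/
def a2e_0 : Piece := ⟨7000, 7300, 0, 820, a2e_0_wp, a2e_0_wq, [a2e_0_m0, a2e_0_m1, a2e_0_m2, a2e_0_m3]⟩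

set_option linter.defProp false

def a2e_0_r0_one0 : rowsOk stA2E a2e_0 a2e_0_m0 false .one = true := by decide +kernel

def a2e_0_r0_one1 : rowsOk stA2E a2e_0 a2e_0_m0 true .one = true := by decide +kernel

def a2e_0_r0_two0 : rowsOk stA2E a2e_0 a2e_0_m0 false .two = true := by decide +kernel

def a2e_0_r0_two1 : rowsOk stA2E a2e_0 a2e_0_m0 true .two = true := by decide +kernel

def a2e_0_r0_twoE0 : rowsOk stA2E a2e_0 a2e_0_m0 false .twoE = true := by decide +kernel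

def a2e_0_r0_twoE1 : rowsOk stA2E a2e_0 a2e_0_m0 true .twoE = true := by decide +kernel

def a2e_0_r0_thrR0 : rowsOk stA2E a2e_0 a2e_0_m0 false .thrR = true := by decide +kernel

def a2e_0_r0_thrR1 : rowsOk stA2E a2e_0 a2e_0_m0 true .thrR = true := by decide +kernel

def a2e_0_r0_thrL0 : rowsOk stA2E a2e_0 a2e_0_m0 false .thrL = true := by decide +kernel

def a2e_0_r0_thrL1 : rowsOk stA2E a2e_0 a2e_0_m0 true .thrL = true := by decide +kernel

def a2e_0_r0_threeE0 : rowsOk stA2E a2e_0 a2e_0_m0 false .threeE = true := by decide +kernel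

def a2e_0_r0_threeE1 : rowsOk stA2E a2e_0 a2e_0_m0 true .threeE = true := by decide +kernel

def a2e_0_r0_ring0 : rowsOk stA2E a2e_0 a2e_0_m0 false .ring = true := by decide +kernel

def a2e_0_r0_ring1 : rowsOk stA2E a2e_0 a2e_0_m0 true .ring = true := by decide +kernel

def a2e_0_r1_one0 : rowsOk stA2E a2e_0 a2e_0_m1 false .one = true := by decide +kernel

def a2e_0_r1_one1 : rowsOk stA2E a2e_0 a2e_0_m1 true .one = true := by decide +kernel

def a2e_0_r1_two0 : rowsOk stA2E a2e_0 a2e_0_m1 false .two = true := by decide +kernel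

def a2e_0_r1_two1 : rowsOk stA2E a2e_0 a2e_0_m1 true .two = true := by decide +kernel

def a2e_0_r1_twoE0 : rowsOk stA2E a2e_0 a2e_0_m1 false .twoE = true := by decide +kernel

def a2e_0_r1_twoE1 : rowsOk stA2E a2e_0 a2e_0_m1 true .twoE = true := by decide +kernel

def a2e_0_r1_thrR0 : rowsOk stA2E a2e_0 a2e_0_m1 false .thrR = true := by decide +kernel

def a2e_0_r1_thrR1 : rowsOk stA2E a2e_0 a2e_0_m1 true .thrR = true := by decide +kernel

def a2e_0_r1_thrL0 : rowsOk stA2E a2e_0 a2e_0_m1 false .thrL = true := by decide +kernel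

def a2e_0_r1_thrL1 : rowsOk stA2E a2e_0 a2e_0_m1 true .thrL = true := by decide +kernel

def a2e_0_r1_threeE0 : rowsOk stA2E a2e_0 a2e_0_m1 false .threeE = true := by decide +kernel

def a2e_0_r1_threeE1 : rowsOk stA2E a2e_0 a2e_0_m1 true .threeE = true := by decide +kernel

def a2e_0_r1_ring0 : rowsOk stA2E a2e_0 a2e_0_m1 false .ring = true := by decide +kernel

def a2e_0_r1_ring1_0 : cellOk stA2E a2e_0 a2e_0_m1 true .ring ((stA2E.bins .ring).getD 0 b00)
    ((a2e_0_m1.g true .ring).getD 0 e00) = true := by decide +kernel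

def a2e_0_r1_ring1_1 : cellOk stA2E a2e_0 a2e_0_m1 true .ring ((stA2E.bins .ring).getD 1 b00)
    ((a2e_0_m1.g true .ring).getD 1 e00) = true := by decide +kernel

def a2e_0_r1_ring1_2 : cellOk stA2E a2e_0 a2e_0_m1 true .ring ((stA2E.bins .ring).getD 2 b00)
    ((a2e_0_m1.g true .ring).getD 2 e00) = true := by decide +kernel

def a2e_0_r1_ring1_3 : cellOk stA2E a2e_0 a2e_0_m1 true .ring ((stA2E.bins .ring).getD 3 b00)
    ((a2e_0_m1.g true .ring).getD 3 e00) = true := by decide +kernel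

def a2e_0_r1_ring1_4 : cellOk stA2E a2e_0 a2e_0_m1 true .ring ((stA2E.bins .ring).getD 4 b00)
    ((a2e_0_m1.g true .ring).getD 4 e00) = true := by decide +kernel

def a2e_0_r1_ring1_5 : cellOk stA2E a2e_0 a2e_0_m1 true .ring ((stA2E.bins .ring).getD 5 b00)
    ((a2e_0_m1.g true .ring).getD 5 e00) = true := by decide +kernel

theorem a2e_0_r1_ring1 : rowsOk stA2E a2e_0 a2e_0_m1 true .ring = true := by
  refine rowsOk_of fun i hi => ?_
  have hi : i < 6 := hi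
  interval_cases i
  exacts [a2e_0_r1_ring1_0, a2e_0_r1_ring1_1, a2e_0_r1_ring1_2, a2e_0_r1_ring1_3, a2e_0_r1_ring1_4, a2e_0_r1_ring1_5]

def a2e_0_r2_one0 : rowsOk stA2E a2e_0 a2e_0_m2 false .one = true := by decide +kernel

def a2e_0_r2_one1 : rowsOk stA2E a2e_0 a2e_0_m2 true .one = true := by decide +kernel

def a2e_0_r2_two0 : rowsOk stA2E a2e_0 a2e_0_m2 false .two = true := by decide +kernel

def a2e_0_r2_two1 : rowsOk stA2E a2e_0 a2e_0_m2 true .two = true := by decide +kernel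

def a2e_0_r2_twoE0 : rowsOk stA2E a2e_0 a2e_0_m2 false .twoE = true := by decide +kernel

def a2e_0_r2_twoE1 : rowsOk stA2E a2e_0 a2e_0_m2 true .twoE = true := by decide +kernel

def a2e_0_r2_thrR0 : rowsOk stA2E a2e_0 a2e_0_m2 false .thrR = true := by decide +kernel

def a2e_0_r2_thrR1 : rowsOk stA2E a2e_0 a2e_0_m2 true .thrR = true := by decide +kernel

def a2e_0_r2_thrL0 : rowsOk stA2E a2e_0 a2e_0_m2 false .thrL = true := by decide +kernel

def a2e_0_r2_thrL1 : rowsOk stA2E a2e_0 a2e_0_m2 true .thrL = true := by decide +kernel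

def a2e_0_r2_threeE0 : rowsOk stA2E a2e_0 a2e_0_m2 false .threeE = true := by decide +kernel

def a2e_0_r2_threeE1 : rowsOk stA2E a2e_0 a2e_0_m2 true .threeE = true := by decide +kernel

def a2e_0_r2_ring0 : rowsOk stA2E a2e_0 a2e_0_m2 false .ring = true := by decide +kernel

def a2e_0_r2_ring1 : rowsOk stA2E a2e_0 a2e_0_m2 true .ring = true := by decide +kernel

def a2e_0_r3_one0 : rowsOk stA2E a2e_0 a2e_0_m3 false .one = true := by decide +kernel

def a2e_0_r3_one1 : rowsOk stA2E a2e_0 a2e_0_m3 true .one = true := by decide +kernel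

def a2e_0_r3_two0 : rowsOk stA2E a2e_0 a2e_0_m3 false .two = true := by decide +kernel

def a2e_0_r3_two1 : rowsOk stA2E a2e_0 a2e_0_m3 true .two = true := by decide +kernel

def a2e_0_r3_twoE0 : rowsOk stA2E a2e_0 a2e_0_m3 false .twoE = true := by decide +kernel

def a2e_0_r3_twoE1 : rowsOk stA2E a2e_0 a2e_0_m3 true .twoE = true := by decide +kernel

def a2e_0_r3_thrR0 : rowsOk stA2E a2e_0 a2e_0_m3 false .thrR = true := by decide +kernel

def a2e_0_r3_thrR1 : rowsOk stA2E a2e_0 a2e_0_m3 true .thrR = true := by decide +kernel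

def a2e_0_r3_thrL0 : rowsOk stA2E a2e_0 a2e_0_m3 false .thrL = true := by decide +kernel

def a2e_0_r3_thrL1 : rowsOk stA2E a2e_0 a2e_0_m3 true .thrL = true := by decide +kernel

def a2e_0_r3_threeE0 : rowsOk stA2E a2e_0 a2e_0_m3 false .threeE = true := by decide +kernel

def a2e_0_r3_threeE1 : rowsOk stA2E a2e_0 a2e_0_m3 true .threeE = true := by decide +kernel

def a2e_0_r3_ring0 : rowsOk stA2E a2e_0 a2e_0_m3 false .ring = true := by decide +kernel

def a2e_0_r3_ring1 : rowsOk stA2E a2e_0 a2e_0_m3 true .ring = true := by decide +kernel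

theorem a2e_0_r0 : allRows stA2E a2e_0 a2e_0_m0 = true := by
  refine allRows_of fun P => ?_
  cases P
  exacts [⟨a2e_0_r0_one0, a2e_0_r0_one1⟩,
    ⟨a2e_0_r0_two0, a2e_0_r0_two1⟩,
    ⟨a2e_0_r0_twoE0, a2e_0_r0_twoE1⟩,
    ⟨a2e_0_r0_thrR0, a2e_0_r0_thrR1⟩,
    ⟨a2e_0_r0_thrL0, a2e_0_r0_thrL1⟩,
    ⟨a2e_0_r0_threeE0, a2e_0_r0_threeE1⟩,
    ⟨a2e_0_r0_ring0, a2e_0_r0_ring1⟩]

theorem a2e_0_r1 : allRows stA2E a2e_0 a2e_0_m1 = true := by
  refine allRows_of fun P => ?_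
  cases P
  exacts [⟨a2e_0_r1_one0, a2e_0_r1_one1⟩,
    ⟨a2e_0_r1_two0, a2e_0_r1_two1⟩,
    ⟨a2e_0_r1_twoE0, a2e_0_r1_twoE1⟩,
    ⟨a2e_0_r1_thrR0, a2e_0_r1_thrR1⟩,
    ⟨a2e_0_r1_thrL0, a2e_0_r1_thrL1⟩,
    ⟨a2e_0_r1_threeE0, a2e_0_r1_threeE1⟩,
    ⟨a2e_0_r1_ring0, a2e_0_r1_ring1⟩]

theorem a2e_0_r2 : allRows stA2E a2e_0 a2e_0_m2 = true := by
  refine allRows_of fun P => ?_
  cases P
  exacts [⟨a2e_0_r2_one0, a2e_0_r2_one1⟩,
    ⟨a2e_0_r2_two0, a2e_0_r2_two1⟩,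
    ⟨a2e_0_r2_twoE0, a2e_0_r2_twoE1⟩,
    ⟨a2e_0_r2_thrR0, a2e_0_r2_thrR1⟩,
    ⟨a2e_0_r2_thrL0, a2e_0_r2_thrL1⟩,
    ⟨a2e_0_r2_threeE0, a2e_0_r2_threeE1⟩,
    ⟨a2e_0_r2_ring0, a2e_0_r2_ring1⟩]

theorem a2e_0_r3 : allRows stA2E a2e_0 a2e_0_m3 = true := by
  refine allRows_of fun P => ?_
  cases P
  exacts [⟨a2e_0_r3_one0, a2e_0_r3_one1⟩,
    ⟨a2e_0_r3_two0, a2e_0_r3_two1⟩,
    ⟨a2e_0_r3_twoE0, a2e_0_r3_twoE1⟩,
    ⟨a2e_0_r3_thrR0, a2e_0_r3_thrR1⟩,
    ⟨a2e_0_r3_thrL0, a2e_0_r3_thrL1⟩,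
    ⟨a2e_0_r3_threeE0, a2e_0_r3_threeE1⟩,
    ⟨a2e_0_r3_ring0, a2e_0_r3_ring1⟩]

theorem a2e_0_ok : a2e_0.ok stA2E = true := by
  have h : (PC.all.all fun P => PC.all.all fun Q => pairOk stA2E a2e_0 P Q) = true := by decide +kernel
  have d0 : mdOk stA2E a2e_0_m0.md = true := by decide +kernel
  have d1 : mdOk stA2E a2e_0_m1.md = true := by decide +kernel
  have d2 : mdOk stA2E a2e_0_m2.md = true := by decide +kernel
  have d3 : mdOk stA2E a2e_0_m3.md = true := by decide +kernel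
  unfold Piece.ok
  rw [h, Bool.true_and]
  show List.all [a2e_0_m0, a2e_0_m1, a2e_0_m2, a2e_0_m3] _ = true
  rw [List.all_eq_true]
  intro m hm
  simp only [List.mem_cons, List.not_mem_nil, or_false] at hm
  rcases hm with rfl | rfl | rfl | rfl
  · rw [a2e_0_r0, d0]; rfl
  · rw [a2e_0_r1, d1]; rfl
  · rw [a2e_0_r2, d2]; rfl
  · rw [a2e_0_r3, d3]; rfl

end OR

end Pool.Agent.Work.MP_b30479_gtS.G2

end

section

set_option deprecated.oldSectionVars true

namespace Pool.Agent.Work.MP_b30479_gtS.G2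

namespace OR

/-- windows -/
def a2e_1_wp : PC → Win
  | .one => ⟨0, 0, 0, 0, 0, 0⟩
  | .two => ⟨0, 0, 0, 0, 0, 0⟩
  | .twoE => ⟨-790, -360, -310, 250, 230, 820⟩
  | .thrR => ⟨0, 0, 0, 0, 0, 0⟩
  | .thrL => ⟨0, 0, 0, 0, 0, 0⟩
  | .threeE => ⟨0, 0, 0, 0, 0, 0⟩
  | .ring => ⟨0, 0, 0, 0, 0, 0⟩

/-- windows -/
def a2e_1_wq : PC → Win
  | .one => ⟨0, 0, 0, 0, 0, 0⟩
  | .two => ⟨0, 0, 0, 0, 0, 0⟩
  | .twoE => ⟨0, 0, 0, 0, 0, 0⟩
  | .thrR => ⟨0, 0, 0, 0, 0, 0⟩
  | .thrL => ⟨0, 0, 0, 0, 0, 0⟩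
  | .threeE => ⟨0, 0, 0, 0, 0, 0⟩
  | .ring => ⟨600, 1300, 110, 690, -820, -230⟩

/-- mode -/
def a2e_1_m0 : Mode where
  md := .V 300 1000
  lam := 1000
  ct := 500
  gp := fun
    | .one => [e00, e00, e00, e00, e00, e00, e00, e00]
    | .two => [e00, e00, e00, e00, e00, e00]
    | .twoE => [⟨1240, [8]⟩, ⟨-203, [142706706]⟩, ⟨-769, [44206150982382821050376571144339746, 142706707, 8, 8, 142639571, 36532917168]⟩, ⟨-769, [157051779690045605906, 142706707, 8, 8, 614890918102512162, 10316158921334804825973282]⟩, ⟨-1299, [0, 0, 0, 0, 2178, 2178]⟩, e00]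
    | .thrR => [e00, e00, e00, e00, e00, e00]
    | .thrL => [e00, e00, e00, e00, e00, e00]
    | .threeE => [e00, e00, e00, e00, e00, e00]
    | .ring => [e00, e00, e00, e00, e00, e00]
  gq := fun
    | .one => [e00, e00, e00, e00, e00, e00, e00, e00]
    | .two => [e00, e00, e00, e00, e00, e00]
    | .twoE => [e00, e00, e00, e00, e00, e00]
    | .thrR => [e00, e00, e00, e00, e00, e00]
    | .thrL => [e00, e00, e00, e00, e00, e00]
    | .threeE => [e00, e00, e00, e00, e00, e00]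
    | .ring => [⟨95, [40205292043184739193730]⟩, ⟨95, [829093492602013731]⟩, ⟨-471, [4655396543498849466228421472893195711708477645112129854177786779091063062176524037731347944238711090, 143164179, 8, 8, 0, 0]⟩, ⟨-471, [10283110395603805695148338, 143164179, 8, 8, 10314690894107823244915234, 13]⟩, ⟨-1914, [0, 0, 0, 0, 1587529964599101239686925888274068622640616647417540349734358313586720010563253525756969308967361344556426242957160616637271882118051926818, 2178]⟩, ⟨-1914, [0, 0, 0, 0, 142705282, 36566106754]⟩]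

/-- mode -/
def a2e_1_m1 : Mode where
  md := .D
  lam := 0
  ct := 13000
  gp := fun
    | .one => [e00, e00, e00, e00, e00, e00, e00, e00]
    | .two => [e00, e00, e00, e00, e00, e00]
    | .twoE => [⟨-1836, [53417439987507800803989841334710230813228690217779475972386]⟩, ⟨-1836, [2394197442201602]⟩, e00, e00, e00, e00]
    | .thrR => [e00, e00, e00, e00, e00, e00]
    | .thrL => [e00, e00, e00, e00, e00, e00]
    | .threeE => [e00, e00, e00, e00, e00, e00]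
    | .ring => [e00, e00, e00, e00, e00, e00]
  gq := fun
    | .one => [e00, e00, e00, e00, e00, e00, e00, e00]
    | .two => [e00, e00, e00, e00, e00, e00]
    | .twoE => [e00, e00, e00, e00, e00, e00]
    | .thrR => [e00, e00, e00, e00, e00, e00]
    | .thrL => [e00, e00, e00, e00, e00, e00]
    | .threeE => [e00, e00, e00, e00, e00, e00]
    | .ring => [⟨1832, [13668401531403672906086554060055586166367630992680341675186210]⟩, ⟨1832, [18168682535748045025085602237841314856543694596578640745292442133737842789591460339553357506117667]⟩, e00, e00, e00, e00]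

/-- mode -/
def a2e_1_m2 : Mode where
  md := .V 150 1000
  lam := 0
  ct := -1500
  gp := fun
    | .one => [e00, e00, e00, e00, e00, e00, e00, e00]
    | .two => [e00, e00, e00, e00, e00, e00]
    | .twoE => [e00, e00, e00, e00, e00, ⟨-1682, [0, 0, 0, 0, 36549264002, 8]⟩]
    | .thrR => [e00, e00, e00, e00, e00, e00]
    | .thrL => [e00, e00, e00, e00, e00, e00]
    | .threeE => [e00, e00, e00, e00, e00, e00]
    | .ring => [e00, e00, e00, e00, e00, e00]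
  gq := fun
    | .one => [e00, e00, e00, e00, e00, e00, e00, e00]
    | .two => [e00, e00, e00, e00, e00, e00]
    | .twoE => [e00, e00, e00, e00, e00, e00]
    | .thrR => [e00, e00, e00, e00, e00, e00]
    | .thrL => [e00, e00, e00, e00, e00, e00]
    | .threeE => [e00, e00, e00, e00, e00, e00]
    | .ring => [⟨1678, [3924588334282590235556421511760402548754]⟩, ⟨1678, [1004695029324541330277871857993543151880211]⟩, ⟨1678, [741647420507269983084531605071476024678450, 142706707, 8, 8, 0, 0]⟩, ⟨1678, [10292426032886228472830002, 142706707, 8, 8, 10314690894107823228138018, 13]⟩, ⟨1381, [0, 0, 0, 0, 2401917552787746, 8]⟩, ⟨-2023, [0, 0, 0, 0, 8, 8]⟩]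

/-- mode -/
def a2e_1_m3 : Mode where
  md := .V 500 1000
  lam := 500
  ct := 1500
  gp := fun
    | .one => [e00, e00, e00, e00, e00, e00, e00, e00]
    | .two => [e00, e00, e00, e00, e00, e00]
    | .twoE => [⟨-179, [9380888584466]⟩, e00, e00, e00, e00, e00]
    | .thrR => [e00, e00, e00, e00, e00, e00]
    | .thrL => [e00, e00, e00, e00, e00, e00]
    | .threeE => [e00, e00, e00, e00, e00, e00]
    | .ring => [e00, e00, e00, e00, e00, e00]
  gq := fun
    | .one => [e00, e00, e00, e00, e00, e00, e00, e00]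
    | .two => [e00, e00, e00, e00, e00, e00]
    | .twoE => [e00, e00, e00, e00, e00, e00]
    | .thrR => [e00, e00, e00, e00, e00, e00]
    | .thrL => [e00, e00, e00, e00, e00, e00]
    | .threeE => [e00, e00, e00, e00, e00, e00]
    | .ring => [e00, e00, ⟨-160, [11341173674998500462229562391971529010, 143163699, 8, 8, 0, 0]⟩, ⟨-160, [2401926389139506, 143163699, 8, 8, 10292549395615589892043298, 13]⟩, e00, e00]

/-- piece -/
def a2e_1 : Piece := ⟨7300, 7600, 0, 820, a2e_1_wp, a2e_1_wq, [a2e_1_m0, a2e_1_m1, a2e_1_m2, a2e_1_m3]⟩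

set_option linter.defProp false

def a2e_1_r0_one0 : rowsOk stA2E a2e_1 a2e_1_m0 false .one = true := by decide +kernel

def a2e_1_r0_one1 : rowsOk stA2E a2e_1 a2e_1_m0 true .one = true := by decide +kernel

def a2e_1_r0_two0 : rowsOk stA2E a2e_1 a2e_1_m0 false .two = true := by decide +kernel

def a2e_1_r0_two1 : rowsOk stA2E a2e_1 a2e_1_m0 true .two = true := by decide +kernel

def a2e_1_r0_twoE0 : rowsOk stA2E a2e_1 a2e_1_m0 false .twoE = true := by decide +kernel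

def a2e_1_r0_twoE1 : rowsOk stA2E a2e_1 a2e_1_m0 true .twoE = true := by decide +kernel

def a2e_1_r0_thrR0 : rowsOk stA2E a2e_1 a2e_1_m0 false .thrR = true := by decide +kernel

def a2e_1_r0_thrR1 : rowsOk stA2E a2e_1 a2e_1_m0 true .thrR = true := by decide +kernel

def a2e_1_r0_thrL0 : rowsOk stA2E a2e_1 a2e_1_m0 false .thrL = true := by decide +kernel

def a2e_1_r0_thrL1 : rowsOk stA2E a2e_1 a2e_1_m0 true .thrL = true := by decide +kernel

def a2e_1_r0_threeE0 : rowsOk stA2E a2e_1 a2e_1_m0 false .threeE = true := by decide +kernel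

def a2e_1_r0_threeE1 : rowsOk stA2E a2e_1 a2e_1_m0 true .threeE = true := by decide +kernel

def a2e_1_r0_ring0 : rowsOk stA2E a2e_1 a2e_1_m0 false .ring = true := by decide +kernel

def a2e_1_r0_ring1_0 : cellOk stA2E a2e_1 a2e_1_m0 true .ring ((stA2E.bins .ring).getD 0 b00)
    ((a2e_1_m0.g true .ring).getD 0 e00) = true := by decide +kernel

def a2e_1_r0_ring1_1 : cellOk stA2E a2e_1 a2e_1_m0 true .ring ((stA2E.bins .ring).getD 1 b00)
    ((a2e_1_m0.g true .ring).getD 1 e00) = true := by decide +kernel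

def a2e_1_r0_ring1_2 : cellOk stA2E a2e_1 a2e_1_m0 true .ring ((stA2E.bins .ring).getD 2 b00)
    ((a2e_1_m0.g true .ring).getD 2 e00) = true := by decide +kernel

def a2e_1_r0_ring1_3 : cellOk stA2E a2e_1 a2e_1_m0 true .ring ((stA2E.bins .ring).getD 3 b00)
    ((a2e_1_m0.g true .ring).getD 3 e00) = true := by decide +kernel

def a2e_1_r0_ring1_4 : cellOk stA2E a2e_1 a2e_1_m0 true .ring ((stA2E.bins .ring).getD 4 b00)
    ((a2e_1_m0.g true .ring).getD 4 e00) = true := by decide +kernel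

def a2e_1_r0_ring1_5 : cellOk stA2E a2e_1 a2e_1_m0 true .ring ((stA2E.bins .ring).getD 5 b00)
    ((a2e_1_m0.g true .ring).getD 5 e00) = true := by decide +kernel

theorem a2e_1_r0_ring1 : rowsOk stA2E a2e_1 a2e_1_m0 true .ring = true := by
  refine rowsOk_of fun i hi => ?_
  have hi : i < 6 := hi
  interval_cases i
  exacts [a2e_1_r0_ring1_0, a2e_1_r0_ring1_1, a2e_1_r0_ring1_2, a2e_1_r0_ring1_3, a2e_1_r0_ring1_4, a2e_1_r0_ring1_5]

def a2e_1_r1_one0 : rowsOk stA2E a2e_1 a2e_1_m1 false .one = true := by decide +kernel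

def a2e_1_r1_one1 : rowsOk stA2E a2e_1 a2e_1_m1 true .one = true := by decide +kernel

def a2e_1_r1_two0 : rowsOk stA2E a2e_1 a2e_1_m1 false .two = true := by decide +kernel

def a2e_1_r1_two1 : rowsOk stA2E a2e_1 a2e_1_m1 true .two = true := by decide +kernel

def a2e_1_r1_twoE0 : rowsOk stA2E a2e_1 a2e_1_m1 false .twoE = true := by decide +kernel

def a2e_1_r1_twoE1 : rowsOk stA2E a2e_1 a2e_1_m1 true .twoE = true := by decide +kernel

def a2e_1_r1_thrR0 : rowsOk stA2E a2e_1 a2e_1_m1 false .thrR = true := by decide +kernel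

def a2e_1_r1_thrR1 : rowsOk stA2E a2e_1 a2e_1_m1 true .thrR = true := by decide +kernel

def a2e_1_r1_thrL0 : rowsOk stA2E a2e_1 a2e_1_m1 false .thrL = true := by decide +kernel

def a2e_1_r1_thrL1 : rowsOk stA2E a2e_1 a2e_1_m1 true .thrL = true := by decide +kernel

def a2e_1_r1_threeE0 : rowsOk stA2E a2e_1 a2e_1_m1 false .threeE = true := by decide +kernel

def a2e_1_r1_threeE1 : rowsOk stA2E a2e_1 a2e_1_m1 true .threeE = true := by decide +kernel

def a2e_1_r1_ring0 : rowsOk stA2E a2e_1 a2e_1_m1 false .ring = true := by decide +kernel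

def a2e_1_r1_ring1 : rowsOk stA2E a2e_1 a2e_1_m1 true .ring = true := by decide +kernel

def a2e_1_r2_one0 : rowsOk stA2E a2e_1 a2e_1_m2 false .one = true := by decide +kernel

def a2e_1_r2_one1 : rowsOk stA2E a2e_1 a2e_1_m2 true .one = true := by decide +kernel

def a2e_1_r2_two0 : rowsOk stA2E a2e_1 a2e_1_m2 false .two = true := by decide +kernel

def a2e_1_r2_two1 : rowsOk stA2E a2e_1 a2e_1_m2 true .two = true := by decide +kernel

def a2e_1_r2_twoE0 : rowsOk stA2E a2e_1 a2e_1_m2 false .twoE = true := by decide +kernel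

def a2e_1_r2_twoE1 : rowsOk stA2E a2e_1 a2e_1_m2 true .twoE = true := by decide +kernel

def a2e_1_r2_thrR0 : rowsOk stA2E a2e_1 a2e_1_m2 false .thrR = true := by decide +kernel

def a2e_1_r2_thrR1 : rowsOk stA2E a2e_1 a2e_1_m2 true .thrR = true := by decide +kernel

def a2e_1_r2_thrL0 : rowsOk stA2E a2e_1 a2e_1_m2 false .thrL = true := by decide +kernel

def a2e_1_r2_thrL1 : rowsOk stA2E a2e_1 a2e_1_m2 true .thrL = true := by decide +kernel

def a2e_1_r2_threeE0 : rowsOk stA2E a2e_1 a2e_1_m2 false .threeE = true := by decide +kernel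

def a2e_1_r2_threeE1 : rowsOk stA2E a2e_1 a2e_1_m2 true .threeE = true := by decide +kernel

def a2e_1_r2_ring0 : rowsOk stA2E a2e_1 a2e_1_m2 false .ring = true := by decide +kernel

def a2e_1_r2_ring1 : rowsOk stA2E a2e_1 a2e_1_m2 true .ring = true := by decide +kernel

def a2e_1_r3_one0 : rowsOk stA2E a2e_1 a2e_1_m3 false .one = true := by decide +kernel

def a2e_1_r3_one1 : rowsOk stA2E a2e_1 a2e_1_m3 true .one = true := by decide +kernel

def a2e_1_r3_two0 : rowsOk stA2E a2e_1 a2e_1_m3 false .two = true := by decide +kernel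

def a2e_1_r3_two1 : rowsOk stA2E a2e_1 a2e_1_m3 true .two = true := by decide +kernel

def a2e_1_r3_twoE0 : rowsOk stA2E a2e_1 a2e_1_m3 false .twoE = true := by decide +kernel

def a2e_1_r3_twoE1 : rowsOk stA2E a2e_1 a2e_1_m3 true .twoE = true := by decide +kernel

def a2e_1_r3_thrR0 : rowsOk stA2E a2e_1 a2e_1_m3 false .thrR = true := by decide +kernel

def a2e_1_r3_thrR1 : rowsOk stA2E a2e_1 a2e_1_m3 true .thrR = true := by decide +kernel

def a2e_1_r3_thrL0 : rowsOk stA2E a2e_1 a2e_1_m3 false .thrL = true := by decide +kernel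

def a2e_1_r3_thrL1 : rowsOk stA2E a2e_1 a2e_1_m3 true .thrL = true := by decide +kernel

def a2e_1_r3_threeE0 : rowsOk stA2E a2e_1 a2e_1_m3 false .threeE = true := by decide +kernel

def a2e_1_r3_threeE1 : rowsOk stA2E a2e_1 a2e_1_m3 true .threeE = true := by decide +kernel

def a2e_1_r3_ring0 : rowsOk stA2E a2e_1 a2e_1_m3 false .ring = true := by decide +kernel

def a2e_1_r3_ring1 : rowsOk stA2E a2e_1 a2e_1_m3 true .ring = true := by decide +kernel

theorem a2e_1_r0 : allRows stA2E a2e_1 a2e_1_m0 = true := by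
  refine allRows_of fun P => ?_
  cases P
  exacts [⟨a2e_1_r0_one0, a2e_1_r0_one1⟩,
    ⟨a2e_1_r0_two0, a2e_1_r0_two1⟩,
    ⟨a2e_1_r0_twoE0, a2e_1_r0_twoE1⟩,
    ⟨a2e_1_r0_thrR0, a2e_1_r0_thrR1⟩,
    ⟨a2e_1_r0_thrL0, a2e_1_r0_thrL1⟩,
    ⟨a2e_1_r0_threeE0, a2e_1_r0_threeE1⟩,
    ⟨a2e_1_r0_ring0, a2e_1_r0_ring1⟩]

theorem a2e_1_r1 : allRows stA2E a2e_1 a2e_1_m1 = true := by
  refine allRows_of fun P => ?_
  cases P
  exacts [⟨a2e_1_r1_one0, a2e_1_r1_one1⟩,
    ⟨a2e_1_r1_two0, a2e_1_r1_two1⟩,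
    ⟨a2e_1_r1_twoE0, a2e_1_r1_twoE1⟩,
    ⟨a2e_1_r1_thrR0, a2e_1_r1_thrR1⟩,
    ⟨a2e_1_r1_thrL0, a2e_1_r1_thrL1⟩,
    ⟨a2e_1_r1_threeE0, a2e_1_r1_threeE1⟩,
    ⟨a2e_1_r1_ring0, a2e_1_r1_ring1⟩]

theorem a2e_1_r2 : allRows stA2E a2e_1 a2e_1_m2 = true := by
  refine allRows_of fun P => ?_
  cases P
  exacts [⟨a2e_1_r2_one0, a2e_1_r2_one1⟩,
    ⟨a2e_1_r2_two0, a2e_1_r2_two1⟩,
    ⟨a2e_1_r2_twoE0, a2e_1_r2_twoE1⟩,
    ⟨a2e_1_r2_thrR0, a2e_1_r2_thrR1⟩,
    ⟨a2e_1_r2_thrL0, a2e_1_r2_thrL1⟩,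
    ⟨a2e_1_r2_threeE0, a2e_1_r2_threeE1⟩,
    ⟨a2e_1_r2_ring0, a2e_1_r2_ring1⟩]

theorem a2e_1_r3 : allRows stA2E a2e_1 a2e_1_m3 = true := by
  refine allRows_of fun P => ?_
  cases P
  exacts [⟨a2e_1_r3_one0, a2e_1_r3_one1⟩,
    ⟨a2e_1_r3_two0, a2e_1_r3_two1⟩,
    ⟨a2e_1_r3_twoE0, a2e_1_r3_twoE1⟩,
    ⟨a2e_1_r3_thrR0, a2e_1_r3_thrR1⟩,
    ⟨a2e_1_r3_thrL0, a2e_1_r3_thrL1⟩,
    ⟨a2e_1_r3_threeE0, a2e_1_r3_threeE1⟩,
    ⟨a2e_1_r3_ring0, a2e_1_r3_ring1⟩]

theorem a2e_1_ok : a2e_1.ok stA2E = true := by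
  have h : (PC.all.all fun P => PC.all.all fun Q => pairOk stA2E a2e_1 P Q) = true := by decide +kernel
  have d0 : mdOk stA2E a2e_1_m0.md = true := by decide +kernel
  have d1 : mdOk stA2E a2e_1_m1.md = true := by decide +kernel
  have d2 : mdOk stA2E a2e_1_m2.md = true := by decide +kernel
  have d3 : mdOk stA2E a2e_1_m3.md = true := by decide +kernel
  unfold Piece.ok
  rw [h, Bool.true_and]
  show List.all [a2e_1_m0, a2e_1_m1, a2e_1_m2, a2e_1_m3] _ = true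
  rw [List.all_eq_true]
  intro m hm
  simp only [List.mem_cons, List.not_mem_nil, or_false] at hm
  rcases hm with rfl | rfl | rfl | rfl
  · rw [a2e_1_r0, d0]; rfl
  · rw [a2e_1_r1, d1]; rfl
  · rw [a2e_1_r2, d2]; rfl
  · rw [a2e_1_r3, d3]; rfl

end OR

end Pool.Agent.Work.MP_b30479_gtS.G2

end

section

set_option deprecated.oldSectionVars true

namespace Pool.Agent.Work.MP_b30479_gtS.G2

namespace OR

/-- windows -/
def a3z_4_wp : PC → Win
  | .one => ⟨-890, 290, -820, 330, 0, 430⟩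
  | .two => ⟨0, 0, 0, 0, 0, 0⟩
  | .twoE => ⟨0, 0, 0, 0, 0, 0⟩
  | .thrR => ⟨0, 0, 0, 0, 0, 0⟩
  | .thrL => ⟨0, 0, 0, 0, 0, 0⟩
  | .threeE => ⟨0, 0, 0, 0, 0, 0⟩
  | .ring => ⟨480, 1330, 470, 1500, 0, 610⟩

/-- windows -/
def a3z_4_wq : PC → Win
  | .one => ⟨-890, 290, -820, 330, -610, 0⟩
  | .two => ⟨0, 0, 0, 0, 0, 0⟩
  | .twoE => ⟨0, 0, 0, 0, 0, 0⟩
  | .thrR => ⟨0, 0, 0, 0, 0, 0⟩
  | .thrL => ⟨0, 0, 0, 0, 0, 0⟩
  | .threeE => ⟨0, 0, 0, 0, 0, 0⟩
  | .ring => ⟨480, 1330, 470, 1500, -430, 0⟩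

/-- mode -/
def a3z_4_m0 : Mode where
  md := .V 300 1000
  lam := 750
  ct := 2000
  gp := fun
    | .one => [⟨271, [8]⟩, ⟨1566, [8]⟩, ⟨-239, [557699]⟩, ⟨-1211, [613483729083971634, 557955, 8, 8, 36643025539, 143143555]⟩, ⟨-2006, [0, 0, 0, 0, 36650058530, 36650365730]⟩, ⟨-2006, [0, 0, 0, 0, 8, 8]⟩, ⟨-2006, [0, 0, 0, 0, 8, 8]⟩, e00]
    | .two => [e00, e00, e00, e00, e00, e00]
    | .twoE => [e00, e00, e00, e00, e00, e00]
    | .thrR => [e00, e00, e00, e00, e00, e00]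
    | .thrL => [e00, e00, e00, e00, e00, e00]
    | .threeE => [e00, e00, e00, e00, e00, e00]
    | .ring => [⟨1157, [557954]⟩, ⟨1157, [2179]⟩, ⟨1157, [8, 8, 8, 8, 8, 8]⟩, ⟨323, [0, 0, 0, 0, 143140914, 13]⟩, ⟨-597, [0, 0, 0, 0, 36649927458, 8]⟩, ⟨-2512, [0, 0, 0, 0, 2178, 2178]⟩]
  gq := fun
    | .one => [⟨203, [8]⟩, ⟨1608, [8]⟩, ⟨-307, [557699]⟩, ⟨-1227, [613483729083963442, 557955, 8, 8, 36643025539, 36649906819]⟩, ⟨-2061, [0, 0, 0, 0, 36650058530, 2401576119972642]⟩, ⟨-2061, [0, 0, 0, 0, 8, 8]⟩, ⟨-2061, [0, 0, 0, 0, 8, 2179]⟩, e00]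
    | .two => [e00, e00, e00, e00, e00, e00]
    | .twoE => [e00, e00, e00, e00, e00, e00]
    | .thrR => [e00, e00, e00, e00, e00, e00]
    | .thrL => [e00, e00, e00, e00, e00, e00]
    | .threeE => [e00, e00, e00, e00, e00, e00]
    | .ring => [⟨1102, [2178]⟩, ⟨1102, [2179]⟩, ⟨1102, [8, 8, 8, 8, 8, 8]⟩, ⟨307, [0, 0, 0, 0, 559154, 13]⟩, ⟨-665, [0, 0, 0, 0, 9382493562930, 8]⟩, ⟨-2470, [0, 0, 0, 0, 2178, 2178]⟩]

/-- mode -/
def a3z_4_m1 : Mode where
  md := .D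
  lam := 500
  ct := 12000
  gp := fun
    | .one => [e00, ⟨-2753, [44206161504876190627437741164667682]⟩, ⟨-2753, [156907684268752798259]⟩, e00, e00, e00, e00, e00]
    | .two => [e00, e00, e00, e00, e00, e00]
    | .twoE => [e00, e00, e00, e00, e00, e00]
    | .thrR => [e00, e00, e00, e00, e00, e00]
    | .thrL => [e00, e00, e00, e00, e00, e00]
    | .threeE => [e00, e00, e00, e00, e00, e00]
    | .ring => [⟨1392, [2394197442398242]⟩, ⟨1392, [36532619283]⟩, e00, e00, e00, e00]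
  gq := fun
    | .one => [⟨-1656, [2179]⟩, ⟨-1996, [142837810]⟩, ⟨-1996, [613483591628236851]⟩, e00, e00, e00, e00, e00]
    | .two => [e00, e00, e00, e00, e00, e00]
    | .twoE => [e00, e00, e00, e00, e00, e00]
    | .thrR => [e00, e00, e00, e00, e00, e00]
    | .thrL => [e00, e00, e00, e00, e00, e00]
    | .threeE => [e00, e00, e00, e00, e00, e00]
    | .ring => [⟨2149, [9356645139330]⟩, ⟨2149, [2394221508266035]⟩, e00, e00, e00, e00]

/-- mode -/
def a3z_4_m2 : Mode where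
  md := .V 550 1000
  lam := 250
  ct := 2000
  gp := fun
    | .one => [⟨-33, [2179]⟩, ⟨-203, [613484064085148466]⟩, ⟨-203, [557955]⟩, ⟨-901, [2396420816734258, 557955, 8, 8, 36643025539, 143143555]⟩, e00, e00, e00, e00]
    | .two => [e00, e00, e00, e00, e00, e00]
    | .twoE => [e00, e00, e00, e00, e00, e00]
    | .thrR => [e00, e00, e00, e00, e00, e00]
    | .thrL => [e00, e00, e00, e00, e00, e00]
    | .threeE => [e00, e00, e00, e00, e00, e00]
    | .ring => [⟨639, [557954]⟩, ⟨639, [2179]⟩, ⟨-44, [36566479235, 2179, 8, 8, 2179, 8]⟩, ⟨-44, [0, 0, 0, 0, 36566476850, 13]⟩, e00, e00]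
  gq := fun
    | .one => [⟨-90, [8]⟩, ⟨-260, [36566472754]⟩, ⟨-260, [557955]⟩, ⟨-943, [2396420816734258, 557955, 8, 8, 36643025539, 36649906819]⟩, e00, e00, e00, e00]
    | .two => [e00, e00, e00, e00, e00, e00]
    | .twoE => [e00, e00, e00, e00, e00, e00]
    | .thrR => [e00, e00, e00, e00, e00, e00]
    | .thrL => [e00, e00, e00, e00, e00, e00]
    | .threeE => [e00, e00, e00, e00, e00, e00]
    | .ring => [⟨597, [2178]⟩, ⟨597, [2179]⟩, ⟨-101, [36549264259, 2179, 8, 8, 2179, 8]⟩, ⟨-101, [0, 0, 0, 0, 36566476850, 13]⟩, e00, e00]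

/-- mode -/
def a3z_4_m3 : Mode where
  md := .V 150 1000
  lam := 0
  ct := 1000
  gp := fun
    | .one => [e00, e00, e00, e00, e00, e00, e00, ⟨-3437, [0, 0, 0, 0, 613478595239094322, 36566108210]⟩]
    | .two => [e00, e00, e00, e00, e00, e00]
    | .twoE => [e00, e00, e00, e00, e00, e00]
    | .thrR => [e00, e00, e00, e00, e00, e00]
    | .thrL => [e00, e00, e00, e00, e00, e00]
    | .threeE => [e00, e00, e00, e00, e00, e00]
    | .ring => [⟨3529, [14167459743378608828416898]⟩, ⟨3529, [55341639745762704327555]⟩, ⟨3529, [40827584899, 2179, 8, 8, 2179, 8]⟩, ⟨3529, [0, 0, 0, 0, 559154, 13]⟩, ⟨3529, [0, 0, 0, 0, 8, 8]⟩, ⟨-206, [0, 0, 0, 0, 8, 8]⟩]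
  gq := fun
    | .one => [e00, e00, e00, e00, e00, e00, e00, ⟨-3533, [0, 0, 0, 0, 10283018162011324805560370, 40168375904754302355506]⟩]
    | .two => [e00, e00, e00, e00, e00, e00]
    | .twoE => [e00, e00, e00, e00, e00, e00]
    | .thrR => [e00, e00, e00, e00, e00, e00]
    | .thrL => [e00, e00, e00, e00, e00, e00]
    | .threeE => [e00, e00, e00, e00, e00, e00]
    | .ring => [⟨3433, [2178]⟩, ⟨3433, [2179]⟩, ⟨3433, [8, 8, 8, 8, 8, 8]⟩, ⟨3433, [0, 0, 0, 0, 2178, 13]⟩, ⟨3433, [0, 0, 0, 0, 8, 8]⟩, ⟨-269, [0, 0, 0, 0, 8, 8]⟩]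

/-- mode -/
def a3z_4_m4 : Mode where
  md := .V 450 1000
  lam := 500
  ct := 2000
  gp := fun
    | .one => [e00, ⟨40, [2178]⟩, e00, e00, e00, e00, e00, e00]
    | .two => [e00, e00, e00, e00, e00, e00]
    | .twoE => [e00, e00, e00, e00, e00, e00]
    | .thrR => [e00, e00, e00, e00, e00, e00]
    | .thrL => [e00, e00, e00, e00, e00, e00]
    | .threeE => [e00, e00, e00, e00, e00, e00]
    | .ring => [e00, e00, e00, e00, ⟨-659, [0, 0, 0, 0, 2396396372656930, 3458]⟩, e00]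
  gq := fun
    | .one => [e00, ⟨55, [2179]⟩, e00, e00, e00, e00, e00, e00]
    | .two => [e00, e00, e00, e00, e00, e00]
    | .twoE => [e00, e00, e00, e00, e00, e00]
    | .thrR => [e00, e00, e00, e00, e00, e00]
    | .thrL => [e00, e00, e00, e00, e00, e00]
    | .threeE => [e00, e00, e00, e00, e00, e00]
    | .ring => [e00, e00, e00, e00, ⟨-644, [0, 0, 0, 0, 156906398939665826594, 885378]⟩, e00]

/-- mode -/
def a3z_4_m5 : Mode where
  md := .V 650 750
  lam := 250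
  ct := 1500
  gp := fun
    | .one => [⟨-24, [9382493566995]⟩, e00, e00, e00, e00, e00, e00, e00]
    | .two => [e00, e00, e00, e00, e00, e00]
    | .twoE => [e00, e00, e00, e00, e00, e00]
    | .thrR => [e00, e00, e00, e00, e00, e00]
    | .thrL => [e00, e00, e00, e00, e00, e00]
    | .threeE => [e00, e00, e00, e00, e00, e00]
    | .ring => [e00, e00, e00, e00, e00, e00]
  gq := fun
    | .one => [e00, e00, e00, e00, e00, e00, e00, e00]
    | .two => [e00, e00, e00, e00, e00, e00]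
    | .twoE => [e00, e00, e00, e00, e00, e00]
    | .thrR => [e00, e00, e00, e00, e00, e00]
    | .thrL => [e00, e00, e00, e00, e00, e00]
    | .threeE => [e00, e00, e00, e00, e00, e00]
    | .ring => [⟨-110, [676073744810420056788159399986]⟩, ⟨-110, [10283102358208211403834243]⟩, e00, e00, e00, e00]

/-- piece -/
def a3z_4 : Piece := ⟨7690, 7750, 0, 820, a3z_4_wp, a3z_4_wq, [a3z_4_m0, a3z_4_m1, a3z_4_m2, a3z_4_m3, a3z_4_m4, a3z_4_m5]⟩

set_option linter.defProp false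

def a3z_4_r0_one0 : rowsOk stA3Z a3z_4 a3z_4_m0 false .one = true := by decide +kernel

def a3z_4_r0_one1 : rowsOk stA3Z a3z_4 a3z_4_m0 true .one = true := by decide +kernel

def a3z_4_r0_two0 : rowsOk stA3Z a3z_4 a3z_4_m0 false .two = true := by decide +kernel

def a3z_4_r0_two1 : rowsOk stA3Z a3z_4 a3z_4_m0 true .two = true := by decide +kernel

def a3z_4_r0_twoE0 : rowsOk stA3Z a3z_4 a3z_4_m0 false .twoE = true := by decide +kernel

def a3z_4_r0_twoE1 : rowsOk stA3Z a3z_4 a3z_4_m0 true .twoE = true := by decide +kernel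

def a3z_4_r0_thrR0 : rowsOk stA3Z a3z_4 a3z_4_m0 false .thrR = true := by decide +kernel

def a3z_4_r0_thrR1 : rowsOk stA3Z a3z_4 a3z_4_m0 true .thrR = true := by decide +kernel

def a3z_4_r0_thrL0 : rowsOk stA3Z a3z_4 a3z_4_m0 false .thrL = true := by decide +kernel

def a3z_4_r0_thrL1 : rowsOk stA3Z a3z_4 a3z_4_m0 true .thrL = true := by decide +kernel

def a3z_4_r0_threeE0 : rowsOk stA3Z a3z_4 a3z_4_m0 false .threeE = true := by decide +kernel

def a3z_4_r0_threeE1 : rowsOk stA3Z a3z_4 a3z_4_m0 true .threeE = true := by decide +kernel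

def a3z_4_r0_ring0 : rowsOk stA3Z a3z_4 a3z_4_m0 false .ring = true := by decide +kernel

def a3z_4_r0_ring1 : rowsOk stA3Z a3z_4 a3z_4_m0 true .ring = true := by decide +kernel

def a3z_4_r1_one0 : rowsOk stA3Z a3z_4 a3z_4_m1 false .one = true := by decide +kernel

def a3z_4_r1_one1 : rowsOk stA3Z a3z_4 a3z_4_m1 true .one = true := by decide +kernel

def a3z_4_r1_two0 : rowsOk stA3Z a3z_4 a3z_4_m1 false .two = true := by decide +kernel

def a3z_4_r1_two1 : rowsOk stA3Z a3z_4 a3z_4_m1 true .two = true := by decide +kernel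

def a3z_4_r1_twoE0 : rowsOk stA3Z a3z_4 a3z_4_m1 false .twoE = true := by decide +kernel

def a3z_4_r1_twoE1 : rowsOk stA3Z a3z_4 a3z_4_m1 true .twoE = true := by decide +kernel

def a3z_4_r1_thrR0 : rowsOk stA3Z a3z_4 a3z_4_m1 false .thrR = true := by decide +kernel

def a3z_4_r1_thrR1 : rowsOk stA3Z a3z_4 a3z_4_m1 true .thrR = true := by decide +kernel

def a3z_4_r1_thrL0 : rowsOk stA3Z a3z_4 a3z_4_m1 false .thrL = true := by decide +kernel

def a3z_4_r1_thrL1 : rowsOk stA3Z a3z_4 a3z_4_m1 true .thrL = true := by decide +kernel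

def a3z_4_r1_threeE0 : rowsOk stA3Z a3z_4 a3z_4_m1 false .threeE = true := by decide +kernel

def a3z_4_r1_threeE1 : rowsOk stA3Z a3z_4 a3z_4_m1 true .threeE = true := by decide +kernel

def a3z_4_r1_ring0 : rowsOk stA3Z a3z_4 a3z_4_m1 false .ring = true := by decide +kernel

def a3z_4_r1_ring1 : rowsOk stA3Z a3z_4 a3z_4_m1 true .ring = true := by decide +kernel

def a3z_4_r2_one0 : rowsOk stA3Z a3z_4 a3z_4_m2 false .one = true := by decide +kernel

def a3z_4_r2_one1 : rowsOk stA3Z a3z_4 a3z_4_m2 true .one = true := by decide +kernel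

def a3z_4_r2_two0 : rowsOk stA3Z a3z_4 a3z_4_m2 false .two = true := by decide +kernel

def a3z_4_r2_two1 : rowsOk stA3Z a3z_4 a3z_4_m2 true .two = true := by decide +kernel

def a3z_4_r2_twoE0 : rowsOk stA3Z a3z_4 a3z_4_m2 false .twoE = true := by decide +kernel

def a3z_4_r2_twoE1 : rowsOk stA3Z a3z_4 a3z_4_m2 true .twoE = true := by decide +kernel

def a3z_4_r2_thrR0 : rowsOk stA3Z a3z_4 a3z_4_m2 false .thrR = true := by decide +kernel

def a3z_4_r2_thrR1 : rowsOk stA3Z a3z_4 a3z_4_m2 true .thrR = true := by decide +kernel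

def a3z_4_r2_thrL0 : rowsOk stA3Z a3z_4 a3z_4_m2 false .thrL = true := by decide +kernel

def a3z_4_r2_thrL1 : rowsOk stA3Z a3z_4 a3z_4_m2 true .thrL = true := by decide +kernel

def a3z_4_r2_threeE0 : rowsOk stA3Z a3z_4 a3z_4_m2 false .threeE = true := by decide +kernel

def a3z_4_r2_threeE1 : rowsOk stA3Z a3z_4 a3z_4_m2 true .threeE = true := by decide +kernel

def a3z_4_r2_ring0 : rowsOk stA3Z a3z_4 a3z_4_m2 false .ring = true := by decide +kernel

def a3z_4_r2_ring1 : rowsOk stA3Z a3z_4 a3z_4_m2 true .ring = true := by decide +kernel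

def a3z_4_r3_one0 : rowsOk stA3Z a3z_4 a3z_4_m3 false .one = true := by decide +kernel

def a3z_4_r3_one1 : rowsOk stA3Z a3z_4 a3z_4_m3 true .one = true := by decide +kernel

def a3z_4_r3_two0 : rowsOk stA3Z a3z_4 a3z_4_m3 false .two = true := by decide +kernel

def a3z_4_r3_two1 : rowsOk stA3Z a3z_4 a3z_4_m3 true .two = true := by decide +kernel

def a3z_4_r3_twoE0 : rowsOk stA3Z a3z_4 a3z_4_m3 false .twoE = true := by decide +kernel

def a3z_4_r3_twoE1 : rowsOk stA3Z a3z_4 a3z_4_m3 true .twoE = true := by decide +kernel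

def a3z_4_r3_thrR0 : rowsOk stA3Z a3z_4 a3z_4_m3 false .thrR = true := by decide +kernel

def a3z_4_r3_thrR1 : rowsOk stA3Z a3z_4 a3z_4_m3 true .thrR = true := by decide +kernel

def a3z_4_r3_thrL0 : rowsOk stA3Z a3z_4 a3z_4_m3 false .thrL = true := by decide +kernel

def a3z_4_r3_thrL1 : rowsOk stA3Z a3z_4 a3z_4_m3 true .thrL = true := by decide +kernel

def a3z_4_r3_threeE0 : rowsOk stA3Z a3z_4 a3z_4_m3 false .threeE = true := by decide +kernel

def a3z_4_r3_threeE1 : rowsOk stA3Z a3z_4 a3z_4_m3 true .threeE = true := by decide +kernel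

def a3z_4_r3_ring0 : rowsOk stA3Z a3z_4 a3z_4_m3 false .ring = true := by decide +kernel

def a3z_4_r3_ring1 : rowsOk stA3Z a3z_4 a3z_4_m3 true .ring = true := by decide +kernel

def a3z_4_r4_one0 : rowsOk stA3Z a3z_4 a3z_4_m4 false .one = true := by decide +kernel

def a3z_4_r4_one1 : rowsOk stA3Z a3z_4 a3z_4_m4 true .one = true := by decide +kernel

def a3z_4_r4_two0 : rowsOk stA3Z a3z_4 a3z_4_m4 false .two = true := by decide +kernel

def a3z_4_r4_two1 : rowsOk stA3Z a3z_4 a3z_4_m4 true .two = true := by decide +kernel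

def a3z_4_r4_twoE0 : rowsOk stA3Z a3z_4 a3z_4_m4 false .twoE = true := by decide +kernel

def a3z_4_r4_twoE1 : rowsOk stA3Z a3z_4 a3z_4_m4 true .twoE = true := by decide +kernel

def a3z_4_r4_thrR0 : rowsOk stA3Z a3z_4 a3z_4_m4 false .thrR = true := by decide +kernel

def a3z_4_r4_thrR1 : rowsOk stA3Z a3z_4 a3z_4_m4 true .thrR = true := by decide +kernel

def a3z_4_r4_thrL0 : rowsOk stA3Z a3z_4 a3z_4_m4 false .thrL = true := by decide +kernel

def a3z_4_r4_thrL1 : rowsOk stA3Z a3z_4 a3z_4_m4 true .thrL = true := by decide +kernel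

def a3z_4_r4_threeE0 : rowsOk stA3Z a3z_4 a3z_4_m4 false .threeE = true := by decide +kernel

def a3z_4_r4_threeE1 : rowsOk stA3Z a3z_4 a3z_4_m4 true .threeE = true := by decide +kernel

def a3z_4_r4_ring0 : rowsOk stA3Z a3z_4 a3z_4_m4 false .ring = true := by decide +kernel

def a3z_4_r4_ring1 : rowsOk stA3Z a3z_4 a3z_4_m4 true .ring = true := by decide +kernel

def a3z_4_r5_one0 : rowsOk stA3Z a3z_4 a3z_4_m5 false .one = true := by decide +kernel

def a3z_4_r5_one1 : rowsOk stA3Z a3z_4 a3z_4_m5 true .one = true := by decide +kernel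

def a3z_4_r5_two0 : rowsOk stA3Z a3z_4 a3z_4_m5 false .two = true := by decide +kernel

def a3z_4_r5_two1 : rowsOk stA3Z a3z_4 a3z_4_m5 true .two = true := by decide +kernel

def a3z_4_r5_twoE0 : rowsOk stA3Z a3z_4 a3z_4_m5 false .twoE = true := by decide +kernel

def a3z_4_r5_twoE1 : rowsOk stA3Z a3z_4 a3z_4_m5 true .twoE = true := by decide +kernel

def a3z_4_r5_thrR0 : rowsOk stA3Z a3z_4 a3z_4_m5 false .thrR = true := by decide +kernel

def a3z_4_r5_thrR1 : rowsOk stA3Z a3z_4 a3z_4_m5 true .thrR = true := by decide +kernel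

def a3z_4_r5_thrL0 : rowsOk stA3Z a3z_4 a3z_4_m5 false .thrL = true := by decide +kernel

def a3z_4_r5_thrL1 : rowsOk stA3Z a3z_4 a3z_4_m5 true .thrL = true := by decide +kernel

def a3z_4_r5_threeE0 : rowsOk stA3Z a3z_4 a3z_4_m5 false .threeE = true := by decide +kernel

def a3z_4_r5_threeE1 : rowsOk stA3Z a3z_4 a3z_4_m5 true .threeE = true := by decide +kernel

def a3z_4_r5_ring0 : rowsOk stA3Z a3z_4 a3z_4_m5 false .ring = true := by decide +kernel

def a3z_4_r5_ring1 : rowsOk stA3Z a3z_4 a3z_4_m5 true .ring = true := by decide +kernel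

theorem a3z_4_r0 : allRows stA3Z a3z_4 a3z_4_m0 = true := by
  refine allRows_of fun P => ?_
  cases P
  exacts [⟨a3z_4_r0_one0, a3z_4_r0_one1⟩,
    ⟨a3z_4_r0_two0, a3z_4_r0_two1⟩,
    ⟨a3z_4_r0_twoE0, a3z_4_r0_twoE1⟩,
    ⟨a3z_4_r0_thrR0, a3z_4_r0_thrR1⟩,
    ⟨a3z_4_r0_thrL0, a3z_4_r0_thrL1⟩,
    ⟨a3z_4_r0_threeE0, a3z_4_r0_threeE1⟩,
    ⟨a3z_4_r0_ring0, a3z_4_r0_ring1⟩]

theorem a3z_4_r1 : allRows stA3Z a3z_4 a3z_4_m1 = true := by
  refine allRows_of fun P => ?_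
  cases P
  exacts [⟨a3z_4_r1_one0, a3z_4_r1_one1⟩,
    ⟨a3z_4_r1_two0, a3z_4_r1_two1⟩,
    ⟨a3z_4_r1_twoE0, a3z_4_r1_twoE1⟩,
    ⟨a3z_4_r1_thrR0, a3z_4_r1_thrR1⟩,
    ⟨a3z_4_r1_thrL0, a3z_4_r1_thrL1⟩,
    ⟨a3z_4_r1_threeE0, a3z_4_r1_threeE1⟩,
    ⟨a3z_4_r1_ring0, a3z_4_r1_ring1⟩]

theorem a3z_4_r2 : allRows stA3Z a3z_4 a3z_4_m2 = true := by
  refine allRows_of fun P => ?_
  cases P
  exacts [⟨a3z_4_r2_one0, a3z_4_r2_one1⟩,
    ⟨a3z_4_r2_two0, a3z_4_r2_two1⟩,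
    ⟨a3z_4_r2_twoE0, a3z_4_r2_twoE1⟩,
    ⟨a3z_4_r2_thrR0, a3z_4_r2_thrR1⟩,
    ⟨a3z_4_r2_thrL0, a3z_4_r2_thrL1⟩,
    ⟨a3z_4_r2_threeE0, a3z_4_r2_threeE1⟩,
    ⟨a3z_4_r2_ring0, a3z_4_r2_ring1⟩]

theorem a3z_4_r3 : allRows stA3Z a3z_4 a3z_4_m3 = true := by
  refine allRows_of fun P => ?_
  cases P
  exacts [⟨a3z_4_r3_one0, a3z_4_r3_one1⟩,
    ⟨a3z_4_r3_two0, a3z_4_r3_two1⟩,
    ⟨a3z_4_r3_twoE0, a3z_4_r3_twoE1⟩,
    ⟨a3z_4_r3_thrR0, a3z_4_r3_thrR1⟩,
    ⟨a3z_4_r3_thrL0, a3z_4_r3_thrL1⟩,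
    ⟨a3z_4_r3_threeE0, a3z_4_r3_threeE1⟩,
    ⟨a3z_4_r3_ring0, a3z_4_r3_ring1⟩]

theorem a3z_4_r4 : allRows stA3Z a3z_4 a3z_4_m4 = true := by
  refine allRows_of fun P => ?_
  cases P
  exacts [⟨a3z_4_r4_one0, a3z_4_r4_one1⟩,
    ⟨a3z_4_r4_two0, a3z_4_r4_two1⟩,
    ⟨a3z_4_r4_twoE0, a3z_4_r4_twoE1⟩,
    ⟨a3z_4_r4_thrR0, a3z_4_r4_thrR1⟩,
    ⟨a3z_4_r4_thrL0, a3z_4_r4_thrL1⟩,
    ⟨a3z_4_r4_threeE0, a3z_4_r4_threeE1⟩,
    ⟨a3z_4_r4_ring0, a3z_4_r4_ring1⟩]

theorem a3z_4_r5 : allRows stA3Z a3z_4 a3z_4_m5 = true := by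
  refine allRows_of fun P => ?_
  cases P
  exacts [⟨a3z_4_r5_one0, a3z_4_r5_one1⟩,
    ⟨a3z_4_r5_two0, a3z_4_r5_two1⟩,
    ⟨a3z_4_r5_twoE0, a3z_4_r5_twoE1⟩,
    ⟨a3z_4_r5_thrR0, a3z_4_r5_thrR1⟩,
    ⟨a3z_4_r5_thrL0, a3z_4_r5_thrL1⟩,
    ⟨a3z_4_r5_threeE0, a3z_4_r5_threeE1⟩,
    ⟨a3z_4_r5_ring0, a3z_4_r5_ring1⟩]

theorem a3z_4_ok : a3z_4.ok stA3Z = true := by
  have h : (PC.all.all fun P => PC.all.all fun Q => pairOk stA3Z a3z_4 P Q) = true := by decide +kernel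
  have d0 : mdOk stA3Z a3z_4_m0.md = true := by decide +kernel
  have d1 : mdOk stA3Z a3z_4_m1.md = true := by decide +kernel
  have d2 : mdOk stA3Z a3z_4_m2.md = true := by decide +kernel
  have d3 : mdOk stA3Z a3z_4_m3.md = true := by decide +kernel
  have d4 : mdOk stA3Z a3z_4_m4.md = true := by decide +kernel
  have d5 : mdOk stA3Z a3z_4_m5.md = true := by decide +kernel
  unfold Piece.ok
  rw [h, Bool.true_and]
  show List.all [a3z_4_m0, a3z_4_m1, a3z_4_m2, a3z_4_m3, a3z_4_m4, a3z_4_m5] _ = true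
  rw [List.all_eq_true]
  intro m hm
  simp only [List.mem_cons, List.not_mem_nil, or_false] at hm
  rcases hm with rfl | rfl | rfl | rfl | rfl | rfl
  · rw [a3z_4_r0, d0]; rfl
  · rw [a3z_4_r1, d1]; rfl
  · rw [a3z_4_r2, d2]; rfl
  · rw [a3z_4_r3, d3]; rfl
  · rw [a3z_4_r4, d4]; rfl
  · rw [a3z_4_r5, d5]; rfl

end OR

end Pool.Agent.Work.MP_b30479_gtS.G2

end

section

set_option deprecated.oldSectionVars true

namespace Pool.Agent.Work.MP_b30479_gtS.G2

namespace OR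

/-- windows -/
def a3z_5_wp : PC → Win
  | .one => ⟨-890, 290, -820, 330, 0, 430⟩
  | .two => ⟨0, 0, 0, 0, 0, 0⟩
  | .twoE => ⟨0, 0, 0, 0, 0, 0⟩
  | .thrR => ⟨0, 0, 0, 0, 0, 0⟩
  | .thrL => ⟨0, 0, 0, 0, 0, 0⟩
  | .threeE => ⟨0, 0, 0, 0, 0, 0⟩
  | .ring => ⟨480, 1330, 470, 1500, 0, 610⟩

/-- windows -/
def a3z_5_wq : PC → Win
  | .one => ⟨-890, 290, -820, 330, -610, 0⟩
  | .two => ⟨0, 0, 0, 0, 0, 0⟩
  | .twoE => ⟨0, 0, 0, 0, 0, 0⟩
  | .thrR => ⟨0, 0, 0, 0, 0, 0⟩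
  | .thrL => ⟨0, 0, 0, 0, 0, 0⟩
  | .threeE => ⟨0, 0, 0, 0, 0, 0⟩
  | .ring => ⟨480, 1330, 470, 1500, -430, 0⟩

/-- mode -/
def a3z_5_m0 : Mode where
  md := .V 300 1000
  lam := 750
  ct := 2000
  gp := fun
    | .one => [⟨264, [8]⟩, ⟨1546, [8]⟩, ⟨-246, [557699]⟩, ⟨-1255, [2396420280169091, 557955, 8, 8, 9361019123762, 9361023907890]⟩, ⟨-2035, [0, 0, 0, 0, 143140914, 36644094514]⟩, ⟨-2035, [0, 0, 0, 0, 8, 8]⟩, ⟨-2035, [0, 0, 0, 0, 8, 8]⟩, e00]
    | .two => [e00, e00, e00, e00, e00, e00]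
    | .twoE => [e00, e00, e00, e00, e00, e00]
    | .thrR => [e00, e00, e00, e00, e00, e00]
    | .thrL => [e00, e00, e00, e00, e00, e00]
    | .threeE => [e00, e00, e00, e00, e00, e00]
    | .ring => [⟨1196, [557954]⟩, ⟨1196, [2179]⟩, ⟨1196, [8, 8, 8, 8, 8, 8]⟩, ⟨368, [0, 0, 0, 0, 143140914, 13]⟩, ⟨-575, [0, 0, 0, 0, 36649927458, 8]⟩, ⟨-2488, [0, 0, 0, 0, 2178, 2178]⟩]
  gq := fun
    | .one => [⟨181, [8]⟩, ⟨1584, [8]⟩, ⟨-329, [557699]⟩, ⟨-1272, [2396420280169091, 557955, 8, 8, 9361019123762, 2396420363597874]⟩, ⟨-2100, [0, 0, 0, 0, 143140914, 36644094770]⟩, ⟨-2100, [0, 0, 0, 0, 8, 8]⟩, ⟨-2100, [0, 0, 0, 0, 8, 2179]⟩, e00]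
    | .two => [e00, e00, e00, e00, e00, e00]
    | .twoE => [e00, e00, e00, e00, e00, e00]
    | .thrR => [e00, e00, e00, e00, e00, e00]
    | .thrL => [e00, e00, e00, e00, e00, e00]
    | .threeE => [e00, e00, e00, e00, e00, e00]
    | .ring => [⟨1131, [2178]⟩, ⟨1131, [2179]⟩, ⟨1131, [8, 8, 8, 8, 8, 8]⟩, ⟨351, [0, 0, 0, 0, 559154, 13]⟩, ⟨-658, [0, 0, 0, 0, 2401917916555314, 8]⟩, ⟨-2450, [0, 0, 0, 0, 2178, 2178]⟩]

/-- mode -/
def a3z_5_m1 : Mode where
  md := .D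
  lam := 500
  ct := 10000
  gp := fun
    | .one => [e00, ⟨-2115, [44206161504876192925868345487729442]⟩, ⟨-2115, [613477471394234931]⟩, e00, e00, e00, e00, e00]
    | .two => [e00, e00, e00, e00, e00, e00]
    | .twoE => [e00, e00, e00, e00, e00, e00]
    | .thrR => [e00, e00, e00, e00, e00, e00]
    | .thrL => [e00, e00, e00, e00, e00, e00]
    | .threeE => [e00, e00, e00, e00, e00, e00]
    | .ring => [⟨1486, [156906123653732139810]⟩, ⟨1486, [36532619283]⟩, e00, e00, e00, e00]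
  gq := fun
    | .one => [⟨-1750, [2179]⟩, ⟨-2090, [142837810]⟩, ⟨-2090, [40168039694257130842163]⟩, e00, e00, e00, e00, e00]
    | .two => [e00, e00, e00, e00, e00, e00]
    | .twoE => [e00, e00, e00, e00, e00, e00]
    | .thrR => [e00, e00, e00, e00, e00, e00]
    | .thrL => [e00, e00, e00, e00, e00, e00]
    | .threeE => [e00, e00, e00, e00, e00, e00]
    | .ring => [⟨1511, [613197095928825906]⟩, ⟨1511, [614760625528342579]⟩, e00, e00, e00, e00]

/-- mode -/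
def a3z_5_m2 : Mode where
  md := .V 550 1000
  lam := 250
  ct := 2000
  gp := fun
    | .one => [⟨-27, [2179]⟩, ⟨-197, [157051922597752111922]⟩, ⟨-197, [557699]⟩, ⟨-914, [9361016717955, 557955, 8, 8, 36645122691, 36649906819]⟩, e00, e00, e00, e00]
    | .two => [e00, e00, e00, e00, e00, e00]
    | .twoE => [e00, e00, e00, e00, e00, e00]
    | .thrR => [e00, e00, e00, e00, e00, e00]
    | .thrL => [e00, e00, e00, e00, e00, e00]
    | .threeE => [e00, e00, e00, e00, e00, e00]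
    | .ring => [⟨688, [557954]⟩, ⟨688, [2179]⟩, ⟨-32, [557443, 2179, 8, 8, 2179, 8]⟩, ⟨-32, [0, 0, 0, 0, 142837810, 13]⟩, e00, e00]
  gq := fun
    | .one => [⟨-102, [8]⟩, ⟨-272, [36566472754]⟩, ⟨-272, [557699]⟩, ⟨-992, [9361016717955, 557955, 8, 8, 9361019123762, 2396420363597874]⟩, e00, e00, e00, e00]
    | .two => [e00, e00, e00, e00, e00, e00]
    | .twoE => [e00, e00, e00, e00, e00, e00]
    | .thrR => [e00, e00, e00, e00, e00, e00]
    | .thrL => [e00, e00, e00, e00, e00, e00]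
    | .threeE => [e00, e00, e00, e00, e00, e00]
    | .ring => [⟨610, [557954]⟩, ⟨610, [2179]⟩, ⟨-107, [36532487043, 2179, 8, 8, 2179, 8]⟩, ⟨-107, [0, 0, 0, 0, 36566476850, 13]⟩, e00, e00]

/-- mode -/
def a3z_5_m3 : Mode where
  md := .V 150 1000
  lam := 0
  ct := 1000
  gp := fun
    | .one => [e00, e00, e00, e00, e00, e00, e00, ⟨-3408, [0, 0, 0, 0, 613478595239094322, 36566108210]⟩]
    | .two => [e00, e00, e00, e00, e00, e00]
    | .twoE => [e00, e00, e00, e00, e00, e00]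
    | .thrR => [e00, e00, e00, e00, e00, e00]
    | .thrL => [e00, e00, e00, e00, e00, e00]
    | .threeE => [e00, e00, e00, e00, e00, e00]
    | .ring => [⟨3509, [15577290536767829365415859344824828802]⟩, ⟨3509, [928478643870023540672152306563]⟩, ⟨3509, [40827584899, 557443, 8, 8, 2179, 8]⟩, ⟨3509, [0, 0, 0, 0, 559154, 13]⟩, ⟨3509, [0, 0, 0, 0, 8, 8]⟩, ⟨-185, [0, 0, 0, 0, 8, 8]⟩]
  gq := fun
    | .one => [e00, e00, e00, e00, e00, e00, e00, ⟨-3513, [0, 0, 0, 0, 2632447927444901909943040050, 2634892516486463143810336818]⟩]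
    | .two => [e00, e00, e00, e00, e00, e00]
    | .twoE => [e00, e00, e00, e00, e00, e00]
    | .thrR => [e00, e00, e00, e00, e00, e00]
    | .thrL => [e00, e00, e00, e00, e00, e00]
    | .threeE => [e00, e00, e00, e00, e00, e00]
    | .ring => [⟨3404, [557954]⟩, ⟨3404, [2179]⟩, ⟨3404, [8, 8, 8, 8, 8, 8]⟩, ⟨3404, [0, 0, 0, 0, 2178, 13]⟩, ⟨3404, [0, 0, 0, 0, 8, 8]⟩, ⟨-242, [0, 0, 0, 0, 8, 8]⟩]

/-- mode -/
def a3z_5_m4 : Mode where
  md := .V 450 1000
  lam := 500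
  ct := 2000
  gp := fun
    | .one => [e00, ⟨30, [2178]⟩, e00, e00, e00, e00, e00, e00]
    | .two => [e00, e00, e00, e00, e00, e00]
    | .twoE => [e00, e00, e00, e00, e00, e00]
    | .thrR => [e00, e00, e00, e00, e00, e00]
    | .thrL => [e00, e00, e00, e00, e00, e00]
    | .threeE => [e00, e00, e00, e00, e00, e00]
    | .ring => [e00, e00, e00, e00, ⟨-638, [0, 0, 0, 0, 2396396372656930, 3458]⟩, e00]
  gq := fun
    | .one => [e00, ⟨34, [2179]⟩, e00, e00, e00, e00, e00, e00]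
    | .two => [e00, e00, e00, e00, e00, e00]
    | .twoE => [e00, e00, e00, e00, e00, e00]
    | .thrR => [e00, e00, e00, e00, e00, e00]
    | .thrL => [e00, e00, e00, e00, e00, e00]
    | .threeE => [e00, e00, e00, e00, e00, e00]
    | .ring => [e00, e00, e00, e00, ⟨-634, [0, 0, 0, 0, 156906398939665826594, 3539]⟩, e00]

/-- mode -/
def a3z_5_m5 : Mode where
  md := .V 650 750
  lam := 250
  ct := 1500
  gp := fun
    | .one => [⟨-8, [36649973779]⟩, e00, e00, e00, e00, e00, e00, e00]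
    | .two => [e00, e00, e00, e00, e00, e00]
    | .twoE => [e00, e00, e00, e00, e00, e00]
    | .thrR => [e00, e00, e00, e00, e00, e00]
    | .thrL => [e00, e00, e00, e00, e00, e00]
    | .threeE => [e00, e00, e00, e00, e00, e00]
    | .ring => [e00, e00, e00, e00, e00, e00]
  gq := fun
    | .one => [e00, e00, e00, e00, e00, e00, e00, e00]
    | .two => [e00, e00, e00, e00, e00, e00]
    | .twoE => [e00, e00, e00, e00, e00, e00]
    | .thrR => [e00, e00, e00, e00, e00, e00]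
    | .thrL => [e00, e00, e00, e00, e00, e00]
    | .threeE => [e00, e00, e00, e00, e00, e00]
    | .ring => [⟨-126, [44307005523735256487324974028695602]⟩, ⟨-126, [10283102358208209610769283]⟩, e00, e00, e00, e00]

/-- piece -/
def a3z_5 : Piece := ⟨7750, 7810, 0, 820, a3z_5_wp, a3z_5_wq, [a3z_5_m0, a3z_5_m1, a3z_5_m2, a3z_5_m3, a3z_5_m4, a3z_5_m5]⟩

set_option linter.defProp false

def a3z_5_r0_one0 : rowsOk stA3Z a3z_5 a3z_5_m0 false .one = true := by decide +kernel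

def a3z_5_r0_one1 : rowsOk stA3Z a3z_5 a3z_5_m0 true .one = true := by decide +kernel

def a3z_5_r0_two0 : rowsOk stA3Z a3z_5 a3z_5_m0 false .two = true := by decide +kernel

def a3z_5_r0_two1 : rowsOk stA3Z a3z_5 a3z_5_m0 true .two = true := by decide +kernel

def a3z_5_r0_twoE0 : rowsOk stA3Z a3z_5 a3z_5_m0 false .twoE = true := by decide +kernel

def a3z_5_r0_twoE1 : rowsOk stA3Z a3z_5 a3z_5_m0 true .twoE = true := by decide +kernel

def a3z_5_r0_thrR0 : rowsOk stA3Z a3z_5 a3z_5_m0 false .thrR = true := by decide +kernel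

def a3z_5_r0_thrR1 : rowsOk stA3Z a3z_5 a3z_5_m0 true .thrR = true := by decide +kernel

def a3z_5_r0_thrL0 : rowsOk stA3Z a3z_5 a3z_5_m0 false .thrL = true := by decide +kernel

def a3z_5_r0_thrL1 : rowsOk stA3Z a3z_5 a3z_5_m0 true .thrL = true := by decide +kernel

def a3z_5_r0_threeE0 : rowsOk stA3Z a3z_5 a3z_5_m0 false .threeE = true := by decide +kernel

def a3z_5_r0_threeE1 : rowsOk stA3Z a3z_5 a3z_5_m0 true .threeE = true := by decide +kernel

def a3z_5_r0_ring0 : rowsOk stA3Z a3z_5 a3z_5_m0 false .ring = true := by decide +kernel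

def a3z_5_r0_ring1 : rowsOk stA3Z a3z_5 a3z_5_m0 true .ring = true := by decide +kernel

def a3z_5_r1_one0 : rowsOk stA3Z a3z_5 a3z_5_m1 false .one = true := by decide +kernel

def a3z_5_r1_one1 : rowsOk stA3Z a3z_5 a3z_5_m1 true .one = true := by decide +kernel

def a3z_5_r1_two0 : rowsOk stA3Z a3z_5 a3z_5_m1 false .two = true := by decide +kernel

def a3z_5_r1_two1 : rowsOk stA3Z a3z_5 a3z_5_m1 true .two = true := by decide +kernel

def a3z_5_r1_twoE0 : rowsOk stA3Z a3z_5 a3z_5_m1 false .twoE = true := by decide +kernel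

def a3z_5_r1_twoE1 : rowsOk stA3Z a3z_5 a3z_5_m1 true .twoE = true := by decide +kernel

def a3z_5_r1_thrR0 : rowsOk stA3Z a3z_5 a3z_5_m1 false .thrR = true := by decide +kernel

def a3z_5_r1_thrR1 : rowsOk stA3Z a3z_5 a3z_5_m1 true .thrR = true := by decide +kernel

def a3z_5_r1_thrL0 : rowsOk stA3Z a3z_5 a3z_5_m1 false .thrL = true := by decide +kernel

def a3z_5_r1_thrL1 : rowsOk stA3Z a3z_5 a3z_5_m1 true .thrL = true := by decide +kernel

def a3z_5_r1_threeE0 : rowsOk stA3Z a3z_5 a3z_5_m1 false .threeE = true := by decide +kernel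

def a3z_5_r1_threeE1 : rowsOk stA3Z a3z_5 a3z_5_m1 true .threeE = true := by decide +kernel

def a3z_5_r1_ring0 : rowsOk stA3Z a3z_5 a3z_5_m1 false .ring = true := by decide +kernel

def a3z_5_r1_ring1 : rowsOk stA3Z a3z_5 a3z_5_m1 true .ring = true := by decide +kernel

def a3z_5_r2_one0 : rowsOk stA3Z a3z_5 a3z_5_m2 false .one = true := by decide +kernel

def a3z_5_r2_one1 : rowsOk stA3Z a3z_5 a3z_5_m2 true .one = true := by decide +kernel

def a3z_5_r2_two0 : rowsOk stA3Z a3z_5 a3z_5_m2 false .two = true := by decide +kernel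

def a3z_5_r2_two1 : rowsOk stA3Z a3z_5 a3z_5_m2 true .two = true := by decide +kernel

def a3z_5_r2_twoE0 : rowsOk stA3Z a3z_5 a3z_5_m2 false .twoE = true := by decide +kernel

def a3z_5_r2_twoE1 : rowsOk stA3Z a3z_5 a3z_5_m2 true .twoE = true := by decide +kernel

def a3z_5_r2_thrR0 : rowsOk stA3Z a3z_5 a3z_5_m2 false .thrR = true := by decide +kernel

def a3z_5_r2_thrR1 : rowsOk stA3Z a3z_5 a3z_5_m2 true .thrR = true := by decide +kernel

def a3z_5_r2_thrL0 : rowsOk stA3Z a3z_5 a3z_5_m2 false .thrL = true := by decide +kernel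

def a3z_5_r2_thrL1 : rowsOk stA3Z a3z_5 a3z_5_m2 true .thrL = true := by decide +kernel

def a3z_5_r2_threeE0 : rowsOk stA3Z a3z_5 a3z_5_m2 false .threeE = true := by decide +kernel

def a3z_5_r2_threeE1 : rowsOk stA3Z a3z_5 a3z_5_m2 true .threeE = true := by decide +kernel

def a3z_5_r2_ring0 : rowsOk stA3Z a3z_5 a3z_5_m2 false .ring = true := by decide +kernel

def a3z_5_r2_ring1 : rowsOk stA3Z a3z_5 a3z_5_m2 true .ring = true := by decide +kernel

def a3z_5_r3_one0 : rowsOk stA3Z a3z_5 a3z_5_m3 false .one = true := by decide +kernel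

def a3z_5_r3_one1 : rowsOk stA3Z a3z_5 a3z_5_m3 true .one = true := by decide +kernel

def a3z_5_r3_two0 : rowsOk stA3Z a3z_5 a3z_5_m3 false .two = true := by decide +kernel

def a3z_5_r3_two1 : rowsOk stA3Z a3z_5 a3z_5_m3 true .two = true := by decide +kernel

def a3z_5_r3_twoE0 : rowsOk stA3Z a3z_5 a3z_5_m3 false .twoE = true := by decide +kernel

def a3z_5_r3_twoE1 : rowsOk stA3Z a3z_5 a3z_5_m3 true .twoE = true := by decide +kernel

def a3z_5_r3_thrR0 : rowsOk stA3Z a3z_5 a3z_5_m3 false .thrR = true := by decide +kernel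

def a3z_5_r3_thrR1 : rowsOk stA3Z a3z_5 a3z_5_m3 true .thrR = true := by decide +kernel

def a3z_5_r3_thrL0 : rowsOk stA3Z a3z_5 a3z_5_m3 false .thrL = true := by decide +kernel

def a3z_5_r3_thrL1 : rowsOk stA3Z a3z_5 a3z_5_m3 true .thrL = true := by decide +kernel

def a3z_5_r3_threeE0 : rowsOk stA3Z a3z_5 a3z_5_m3 false .threeE = true := by decide +kernel

def a3z_5_r3_threeE1 : rowsOk stA3Z a3z_5 a3z_5_m3 true .threeE = true := by decide +kernel

def a3z_5_r3_ring0 : rowsOk stA3Z a3z_5 a3z_5_m3 false .ring = true := by decide +kernel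

def a3z_5_r3_ring1 : rowsOk stA3Z a3z_5 a3z_5_m3 true .ring = true := by decide +kernel

def a3z_5_r4_one0 : rowsOk stA3Z a3z_5 a3z_5_m4 false .one = true := by decide +kernel

def a3z_5_r4_one1 : rowsOk stA3Z a3z_5 a3z_5_m4 true .one = true := by decide +kernel

def a3z_5_r4_two0 : rowsOk stA3Z a3z_5 a3z_5_m4 false .two = true := by decide +kernel

def a3z_5_r4_two1 : rowsOk stA3Z a3z_5 a3z_5_m4 true .two = true := by decide +kernel

def a3z_5_r4_twoE0 : rowsOk stA3Z a3z_5 a3z_5_m4 false .twoE = true := by decide +kernel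

def a3z_5_r4_twoE1 : rowsOk stA3Z a3z_5 a3z_5_m4 true .twoE = true := by decide +kernel

def a3z_5_r4_thrR0 : rowsOk stA3Z a3z_5 a3z_5_m4 false .thrR = true := by decide +kernel

def a3z_5_r4_thrR1 : rowsOk stA3Z a3z_5 a3z_5_m4 true .thrR = true := by decide +kernel

def a3z_5_r4_thrL0 : rowsOk stA3Z a3z_5 a3z_5_m4 false .thrL = true := by decide +kernel

def a3z_5_r4_thrL1 : rowsOk stA3Z a3z_5 a3z_5_m4 true .thrL = true := by decide +kernel

def a3z_5_r4_threeE0 : rowsOk stA3Z a3z_5 a3z_5_m4 false .threeE = true := by decide +kernel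

def a3z_5_r4_threeE1 : rowsOk stA3Z a3z_5 a3z_5_m4 true .threeE = true := by decide +kernel

def a3z_5_r4_ring0 : rowsOk stA3Z a3z_5 a3z_5_m4 false .ring = true := by decide +kernel

def a3z_5_r4_ring1 : rowsOk stA3Z a3z_5 a3z_5_m4 true .ring = true := by decide +kernel

def a3z_5_r5_one0 : rowsOk stA3Z a3z_5 a3z_5_m5 false .one = true := by decide +kernel

def a3z_5_r5_one1 : rowsOk stA3Z a3z_5 a3z_5_m5 true .one = true := by decide +kernel

def a3z_5_r5_two0 : rowsOk stA3Z a3z_5 a3z_5_m5 false .two = true := by decide +kernel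

def a3z_5_r5_two1 : rowsOk stA3Z a3z_5 a3z_5_m5 true .two = true := by decide +kernel

def a3z_5_r5_twoE0 : rowsOk stA3Z a3z_5 a3z_5_m5 false .twoE = true := by decide +kernel

def a3z_5_r5_twoE1 : rowsOk stA3Z a3z_5 a3z_5_m5 true .twoE = true := by decide +kernel

def a3z_5_r5_thrR0 : rowsOk stA3Z a3z_5 a3z_5_m5 false .thrR = true := by decide +kernel

def a3z_5_r5_thrR1 : rowsOk stA3Z a3z_5 a3z_5_m5 true .thrR = true := by decide +kernel

def a3z_5_r5_thrL0 : rowsOk stA3Z a3z_5 a3z_5_m5 false .thrL = true := by decide +kernel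

def a3z_5_r5_thrL1 : rowsOk stA3Z a3z_5 a3z_5_m5 true .thrL = true := by decide +kernel

def a3z_5_r5_threeE0 : rowsOk stA3Z a3z_5 a3z_5_m5 false .threeE = true := by decide +kernel

def a3z_5_r5_threeE1 : rowsOk stA3Z a3z_5 a3z_5_m5 true .threeE = true := by decide +kernel

def a3z_5_r5_ring0 : rowsOk stA3Z a3z_5 a3z_5_m5 false .ring = true := by decide +kernel

def a3z_5_r5_ring1 : rowsOk stA3Z a3z_5 a3z_5_m5 true .ring = true := by decide +kernel

theorem a3z_5_r0 : allRows stA3Z a3z_5 a3z_5_m0 = true := by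
  refine allRows_of fun P => ?_
  cases P
  exacts [⟨a3z_5_r0_one0, a3z_5_r0_one1⟩,
    ⟨a3z_5_r0_two0, a3z_5_r0_two1⟩,
    ⟨a3z_5_r0_twoE0, a3z_5_r0_twoE1⟩,
    ⟨a3z_5_r0_thrR0, a3z_5_r0_thrR1⟩,
    ⟨a3z_5_r0_thrL0, a3z_5_r0_thrL1⟩,
    ⟨a3z_5_r0_threeE0, a3z_5_r0_threeE1⟩,
    ⟨a3z_5_r0_ring0, a3z_5_r0_ring1⟩]

theorem a3z_5_r1 : allRows stA3Z a3z_5 a3z_5_m1 = true := by
  refine allRows_of fun P => ?_
  cases P
  exacts [⟨a3z_5_r1_one0, a3z_5_r1_one1⟩,
    ⟨a3z_5_r1_two0, a3z_5_r1_two1⟩,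
    ⟨a3z_5_r1_twoE0, a3z_5_r1_twoE1⟩,
    ⟨a3z_5_r1_thrR0, a3z_5_r1_thrR1⟩,
    ⟨a3z_5_r1_thrL0, a3z_5_r1_thrL1⟩,
    ⟨a3z_5_r1_threeE0, a3z_5_r1_threeE1⟩,
    ⟨a3z_5_r1_ring0, a3z_5_r1_ring1⟩]

theorem a3z_5_r2 : allRows stA3Z a3z_5 a3z_5_m2 = true := by
  refine allRows_of fun P => ?_
  cases P
  exacts [⟨a3z_5_r2_one0, a3z_5_r2_one1⟩,
    ⟨a3z_5_r2_two0, a3z_5_r2_two1⟩,
    ⟨a3z_5_r2_twoE0, a3z_5_r2_twoE1⟩,
    ⟨a3z_5_r2_thrR0, a3z_5_r2_thrR1⟩,
    ⟨a3z_5_r2_thrL0, a3z_5_r2_thrL1⟩,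
    ⟨a3z_5_r2_threeE0, a3z_5_r2_threeE1⟩,
    ⟨a3z_5_r2_ring0, a3z_5_r2_ring1⟩]

theorem a3z_5_r3 : allRows stA3Z a3z_5 a3z_5_m3 = true := by
  refine allRows_of fun P => ?_
  cases P
  exacts [⟨a3z_5_r3_one0, a3z_5_r3_one1⟩,
    ⟨a3z_5_r3_two0, a3z_5_r3_two1⟩,
    ⟨a3z_5_r3_twoE0, a3z_5_r3_twoE1⟩,
    ⟨a3z_5_r3_thrR0, a3z_5_r3_thrR1⟩,
    ⟨a3z_5_r3_thrL0, a3z_5_r3_thrL1⟩,
    ⟨a3z_5_r3_threeE0, a3z_5_r3_threeE1⟩,
    ⟨a3z_5_r3_ring0, a3z_5_r3_ring1⟩]

theorem a3z_5_r4 : allRows stA3Z a3z_5 a3z_5_m4 = true := by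
  refine allRows_of fun P => ?_
  cases P
  exacts [⟨a3z_5_r4_one0, a3z_5_r4_one1⟩,
    ⟨a3z_5_r4_two0, a3z_5_r4_two1⟩,
    ⟨a3z_5_r4_twoE0, a3z_5_r4_twoE1⟩,
    ⟨a3z_5_r4_thrR0, a3z_5_r4_thrR1⟩,
    ⟨a3z_5_r4_thrL0, a3z_5_r4_thrL1⟩,
    ⟨a3z_5_r4_threeE0, a3z_5_r4_threeE1⟩,
    ⟨a3z_5_r4_ring0, a3z_5_r4_ring1⟩]

theorem a3z_5_r5 : allRows stA3Z a3z_5 a3z_5_m5 = true := by
  refine allRows_of fun P => ?_
  cases P
  exacts [⟨a3z_5_r5_one0, a3z_5_r5_one1⟩,
    ⟨a3z_5_r5_two0, a3z_5_r5_two1⟩,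
    ⟨a3z_5_r5_twoE0, a3z_5_r5_twoE1⟩,
    ⟨a3z_5_r5_thrR0, a3z_5_r5_thrR1⟩,
    ⟨a3z_5_r5_thrL0, a3z_5_r5_thrL1⟩,
    ⟨a3z_5_r5_threeE0, a3z_5_r5_threeE1⟩,
    ⟨a3z_5_r5_ring0, a3z_5_r5_ring1⟩]

theorem a3z_5_ok : a3z_5.ok stA3Z = true := by
  have h : (PC.all.all fun P => PC.all.all fun Q => pairOk stA3Z a3z_5 P Q) = true := by decide +kernel
  have d0 : mdOk stA3Z a3z_5_m0.md = true := by decide +kernel
  have d1 : mdOk stA3Z a3z_5_m1.md = true := by decide +kernel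
  have d2 : mdOk stA3Z a3z_5_m2.md = true := by decide +kernel
  have d3 : mdOk stA3Z a3z_5_m3.md = true := by decide +kernel
  have d4 : mdOk stA3Z a3z_5_m4.md = true := by decide +kernel
  have d5 : mdOk stA3Z a3z_5_m5.md = true := by decide +kernel
  unfold Piece.ok
  rw [h, Bool.true_and]
  show List.all [a3z_5_m0, a3z_5_m1, a3z_5_m2, a3z_5_m3, a3z_5_m4, a3z_5_m5] _ = true
  rw [List.all_eq_true]
  intro m hm
  simp only [List.mem_cons, List.not_mem_nil, or_false] at hm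
  rcases hm with rfl | rfl | rfl | rfl | rfl | rfl
  · rw [a3z_5_r0, d0]; rfl
  · rw [a3z_5_r1, d1]; rfl
  · rw [a3z_5_r2, d2]; rfl
  · rw [a3z_5_r3, d3]; rfl
  · rw [a3z_5_r4, d4]; rfl
  · rw [a3z_5_r5, d5]; rfl

end OR

end Pool.Agent.Work.MP_b30479_gtS.G2

end
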