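import Pool.Agent.Work.MP_b30479_gt.TBS.G2.OTab

section

set_option deprecated.oldSectionVars true

namespace Pool.Agent.Work.MP_b30479_gtS.G2

namespace OR

/-- windows -/
def a2e_4_wp : PC → Win
  | .one => ⟨0, 0, 0, 0, 0, 0⟩
  | .two => ⟨0, 0, 0, 0, 0, 0⟩
  | .twoE => ⟨-790, -360, -310, 250, 230, 820⟩
  | .thrR => ⟨0, 0, 0, 0, 0, 0⟩
  | .thrL => ⟨0, 0, 0, 0, 0, 0⟩
  | .threeE => ⟨0, 0, 0, 0, 0, 0⟩
  | .ring => ⟨0, 0, 0, 0, 0, 0⟩

/-- windows -/
def a2e_4_wq : PC → Win
  | .one => ⟨0, 0, 0, 0, 0, 0⟩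
  | .two => ⟨0, 0, 0, 0, 0, 0⟩
  | .twoE => ⟨0, 0, 0, 0, 0, 0⟩
  | .thrR => ⟨0, 0, 0, 0, 0, 0⟩
  | .thrL => ⟨0, 0, 0, 0, 0, 0⟩
  | .threeE => ⟨0, 0, 0, 0, 0, 0⟩
  | .ring => ⟨600, 1300, 110, 690, -820, -230⟩

/-- mode -/
def a2e_4_m0 : Mode where
  md := .V 300 1000
  lam := 750
  ct := 1500
  gp := fun
    | .one => [e00, e00, e00, e00, e00, e00, e00, e00]
    | .two => [e00, e00, e00, e00, e00, e00]
    | .twoE => [⟨424, [2178]⟩, ⟨-950, [44165146069824693527755511627780130, 557443, 8, 8, 13, 142705539]⟩, ⟨-950, [557443, 557443, 8, 8, 13, 9382381454114]⟩, ⟨-950, [0, 0, 0, 0, 8, 2178]⟩, ⟨-1591, [0, 0, 0, 0, 8, 2178]⟩, e00]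
    | .thrR => [e00, e00, e00, e00, e00, e00]
    | .thrL => [e00, e00, e00, e00, e00, e00]
    | .threeE => [e00, e00, e00, e00, e00, e00]
    | .ring => [e00, e00, e00, e00, e00, e00]
  gq := fun
    | .one => [e00, e00, e00, e00, e00, e00, e00, e00]
    | .two => [e00, e00, e00, e00, e00, e00]
    | .twoE => [e00, e00, e00, e00, e00, e00]
    | .thrR => [e00, e00, e00, e00, e00, e00]
    | .thrL => [e00, e00, e00, e00, e00, e00]
    | .threeE => [e00, e00, e00, e00, e00, e00]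
    | .ring => [⟨444, [233882009648262144619215538260018]⟩, ⟨444, [49357521537634759475691103337977906, 2179, 8, 8, 557443, 8]⟩, ⟨444, [557443, 2179, 8, 8, 36566472754, 13]⟩, ⟨444, [0, 0, 0, 0, 143140914, 8]⟩, ⟨-930, [0, 0, 0, 0, 1444800360862071352285896469781019315244699489901368143380866642959662672817605759258207047890930951665737994617067059600894002, 8]⟩, ⟨-1558, [0, 0, 0, 0, 142705282, 36566106754]⟩]

/-- mode -/
def a2e_4_m1 : Mode where
  md := .V 150 1000
  lam := 0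
  ct := -2000
  gp := fun
    | .one => [e00, e00, e00, e00, e00, e00, e00, e00]
    | .two => [e00, e00, e00, e00, e00, e00]
    | .twoE => [e00, e00, e00, e00, e00, ⟨-1378, [0, 0, 0, 0, 142705282, 2178]⟩]
    | .thrR => [e00, e00, e00, e00, e00, e00]
    | .thrL => [e00, e00, e00, e00, e00, e00]
    | .threeE => [e00, e00, e00, e00, e00, e00]
    | .ring => [e00, e00, e00, e00, e00, e00]
  gq := fun
    | .one => [e00, e00, e00, e00, e00, e00, e00, e00]
    | .two => [e00, e00, e00, e00, e00, e00]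
    | .twoE => [e00, e00, e00, e00, e00, e00]
    | .thrR => [e00, e00, e00, e00, e00, e00]
    | .thrL => [e00, e00, e00, e00, e00, e00]
    | .threeE => [e00, e00, e00, e00, e00, e00]
    | .ring => [⟨1374, [1004683706669488411312539483222994302042882]⟩, ⟨1374, [192960655861393182858032281294898, 40861008259, 40861139329, 8, 40861008259, 8]⟩, ⟨1374, [3599266371141763, 13847915663491, 40861139329, 8, 44927153704075445934130, 13]⟩, ⟨1374, [0, 0, 0, 0, 157051823650261964850, 8]⟩, ⟨1374, [0, 0, 0, 0, 614895428948951330, 8]⟩, ⟨-1757, [0, 0, 0, 0, 8, 8]⟩]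

/-- mode -/
def a2e_4_m2 : Mode where
  md := .V 550 1000
  lam := 250
  ct := 2000
  gp := fun
    | .one => [e00, e00, e00, e00, e00, e00, e00, e00]
    | .two => [e00, e00, e00, e00, e00, e00]
    | .twoE => [⟨-338, [157051927642276106786]⟩, e00, e00, e00, e00, e00]
    | .thrR => [e00, e00, e00, e00, e00, e00]
    | .thrL => [e00, e00, e00, e00, e00, e00]
    | .threeE => [e00, e00, e00, e00, e00, e00]
    | .ring => [e00, e00, e00, e00, e00, e00]
  gq := fun
    | .one => [e00, e00, e00, e00, e00, e00, e00, e00]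
    | .two => [e00, e00, e00, e00, e00, e00]
    | .twoE => [e00, e00, e00, e00, e00, e00]
    | .thrR => [e00, e00, e00, e00, e00, e00]
    | .thrL => [e00, e00, e00, e00, e00, e00]
    | .threeE => [e00, e00, e00, e00, e00, e00]
    | .ring => [⟨166, [13668586867406352684993877635479700173829182265190297591382818]⟩, ⟨166, [3556572876297119450313465273301723004455236828411954, 2179, 8, 8, 557443, 8]⟩, ⟨166, [557443, 2179, 8, 8, 36566472754, 13]⟩, e00, e00, e00]

/-- mode -/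
def a2e_4_m3 : Mode where
  md := .V 450 1000
  lam := 500
  ct := 2000
  gp := fun
    | .one => [e00, e00, e00, e00, e00, e00, e00, e00]
    | .two => [e00, e00, e00, e00, e00, e00]
    | .twoE => [⟨-39, [2178]⟩, e00, e00, e00, e00, e00]
    | .thrR => [e00, e00, e00, e00, e00, e00]
    | .thrL => [e00, e00, e00, e00, e00, e00]
    | .threeE => [e00, e00, e00, e00, e00, e00]
    | .ring => [e00, e00, e00, e00, e00, e00]
  gq := fun
    | .one => [e00, e00, e00, e00, e00, e00, e00, e00]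
    | .two => [e00, e00, e00, e00, e00, e00]
    | .twoE => [e00, e00, e00, e00, e00, e00]
    | .thrR => [e00, e00, e00, e00, e00, e00]
    | .thrL => [e00, e00, e00, e00, e00, e00]
    | .threeE => [e00, e00, e00, e00, e00, e00]
    | .ring => [e00, e00, e00, ⟨-300, [0, 0, 0, 0, 2634898836321842205932664882, 13]⟩, e00, e00]

/-- piece -/
def a2e_4 : Piece := ⟨7900, 8200, 0, 820, a2e_4_wp, a2e_4_wq, [a2e_4_m0, a2e_4_m1, a2e_4_m2, a2e_4_m3]⟩

set_option linter.defProp false

def a2e_4_r0_one0 : rowsOk stA2E a2e_4 a2e_4_m0 false .one = true := by decide +kernel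

def a2e_4_r0_one1 : rowsOk stA2E a2e_4 a2e_4_m0 true .one = true := by decide +kernel

def a2e_4_r0_two0 : rowsOk stA2E a2e_4 a2e_4_m0 false .two = true := by decide +kernel

def a2e_4_r0_two1 : rowsOk stA2E a2e_4 a2e_4_m0 true .two = true := by decide +kernel

def a2e_4_r0_twoE0 : rowsOk stA2E a2e_4 a2e_4_m0 false .twoE = true := by decide +kernel

def a2e_4_r0_twoE1 : rowsOk stA2E a2e_4 a2e_4_m0 true .twoE = true := by decide +kernel

def a2e_4_r0_thrR0 : rowsOk stA2E a2e_4 a2e_4_m0 false .thrR = true := by decide +kernel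

def a2e_4_r0_thrR1 : rowsOk stA2E a2e_4 a2e_4_m0 true .thrR = true := by decide +kernel

def a2e_4_r0_thrL0 : rowsOk stA2E a2e_4 a2e_4_m0 false .thrL = true := by decide +kernel

def a2e_4_r0_thrL1 : rowsOk stA2E a2e_4 a2e_4_m0 true .thrL = true := by decide +kernel

def a2e_4_r0_threeE0 : rowsOk stA2E a2e_4 a2e_4_m0 false .threeE = true := by decide +kernel

def a2e_4_r0_threeE1 : rowsOk stA2E a2e_4 a2e_4_m0 true .threeE = true := by decide +kernel

def a2e_4_r0_ring0 : rowsOk stA2E a2e_4 a2e_4_m0 false .ring = true := by decide +kernel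

def a2e_4_r0_ring1_0 : cellOk stA2E a2e_4 a2e_4_m0 true .ring ((stA2E.bins .ring).getD 0 b00)
    ((a2e_4_m0.g true .ring).getD 0 e00) = true := by decide +kernel

def a2e_4_r0_ring1_1 : cellOk stA2E a2e_4 a2e_4_m0 true .ring ((stA2E.bins .ring).getD 1 b00)
    ((a2e_4_m0.g true .ring).getD 1 e00) = true := by decide +kernel

def a2e_4_r0_ring1_2 : cellOk stA2E a2e_4 a2e_4_m0 true .ring ((stA2E.bins .ring).getD 2 b00)
    ((a2e_4_m0.g true .ring).getD 2 e00) = true := by decide +kernel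

def a2e_4_r0_ring1_3 : cellOk stA2E a2e_4 a2e_4_m0 true .ring ((stA2E.bins .ring).getD 3 b00)
    ((a2e_4_m0.g true .ring).getD 3 e00) = true := by decide +kernel

def a2e_4_r0_ring1_4 : cellOk stA2E a2e_4 a2e_4_m0 true .ring ((stA2E.bins .ring).getD 4 b00)
    ((a2e_4_m0.g true .ring).getD 4 e00) = true := by decide +kernel

def a2e_4_r0_ring1_5 : cellOk stA2E a2e_4 a2e_4_m0 true .ring ((stA2E.bins .ring).getD 5 b00)
    ((a2e_4_m0.g true .ring).getD 5 e00) = true := by decide +kernel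

theorem a2e_4_r0_ring1 : rowsOk stA2E a2e_4 a2e_4_m0 true .ring = true := by
  refine rowsOk_of fun i hi => ?_
  have hi : i < 6 := hi
  interval_cases i
  exacts [a2e_4_r0_ring1_0, a2e_4_r0_ring1_1, a2e_4_r0_ring1_2, a2e_4_r0_ring1_3, a2e_4_r0_ring1_4, a2e_4_r0_ring1_5]

def a2e_4_r1_one0 : rowsOk stA2E a2e_4 a2e_4_m1 false .one = true := by decide +kernel

def a2e_4_r1_one1 : rowsOk stA2E a2e_4 a2e_4_m1 true .one = true := by decide +kernel

def a2e_4_r1_two0 : rowsOk stA2E a2e_4 a2e_4_m1 false .two = true := by decide +kernel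

def a2e_4_r1_two1 : rowsOk stA2E a2e_4 a2e_4_m1 true .two = true := by decide +kernel

def a2e_4_r1_twoE0 : rowsOk stA2E a2e_4 a2e_4_m1 false .twoE = true := by decide +kernel

def a2e_4_r1_twoE1 : rowsOk stA2E a2e_4 a2e_4_m1 true .twoE = true := by decide +kernel

def a2e_4_r1_thrR0 : rowsOk stA2E a2e_4 a2e_4_m1 false .thrR = true := by decide +kernel

def a2e_4_r1_thrR1 : rowsOk stA2E a2e_4 a2e_4_m1 true .thrR = true := by decide +kernel

def a2e_4_r1_thrL0 : rowsOk stA2E a2e_4 a2e_4_m1 false .thrL = true := by decide +kernel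

def a2e_4_r1_thrL1 : rowsOk stA2E a2e_4 a2e_4_m1 true .thrL = true := by decide +kernel

def a2e_4_r1_threeE0 : rowsOk stA2E a2e_4 a2e_4_m1 false .threeE = true := by decide +kernel

def a2e_4_r1_threeE1 : rowsOk stA2E a2e_4 a2e_4_m1 true .threeE = true := by decide +kernel

def a2e_4_r1_ring0 : rowsOk stA2E a2e_4 a2e_4_m1 false .ring = true := by decide +kernel

def a2e_4_r1_ring1 : rowsOk stA2E a2e_4 a2e_4_m1 true .ring = true := by decide +kernel

def a2e_4_r2_one0 : rowsOk stA2E a2e_4 a2e_4_m2 false .one = true := by decide +kernel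

def a2e_4_r2_one1 : rowsOk stA2E a2e_4 a2e_4_m2 true .one = true := by decide +kernel

def a2e_4_r2_two0 : rowsOk stA2E a2e_4 a2e_4_m2 false .two = true := by decide +kernel

def a2e_4_r2_two1 : rowsOk stA2E a2e_4 a2e_4_m2 true .two = true := by decide +kernel

def a2e_4_r2_twoE0 : rowsOk stA2E a2e_4 a2e_4_m2 false .twoE = true := by decide +kernel

def a2e_4_r2_twoE1 : rowsOk stA2E a2e_4 a2e_4_m2 true .twoE = true := by decide +kernel

def a2e_4_r2_thrR0 : rowsOk stA2E a2e_4 a2e_4_m2 false .thrR = true := by decide +kernel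

def a2e_4_r2_thrR1 : rowsOk stA2E a2e_4 a2e_4_m2 true .thrR = true := by decide +kernel

def a2e_4_r2_thrL0 : rowsOk stA2E a2e_4 a2e_4_m2 false .thrL = true := by decide +kernel

def a2e_4_r2_thrL1 : rowsOk stA2E a2e_4 a2e_4_m2 true .thrL = true := by decide +kernel

def a2e_4_r2_threeE0 : rowsOk stA2E a2e_4 a2e_4_m2 false .threeE = true := by decide +kernel

def a2e_4_r2_threeE1 : rowsOk stA2E a2e_4 a2e_4_m2 true .threeE = true := by decide +kernel

def a2e_4_r2_ring0 : rowsOk stA2E a2e_4 a2e_4_m2 false .ring = true := by decide +kernel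

def a2e_4_r2_ring1 : rowsOk stA2E a2e_4 a2e_4_m2 true .ring = true := by decide +kernel

def a2e_4_r3_one0 : rowsOk stA2E a2e_4 a2e_4_m3 false .one = true := by decide +kernel

def a2e_4_r3_one1 : rowsOk stA2E a2e_4 a2e_4_m3 true .one = true := by decide +kernel

def a2e_4_r3_two0 : rowsOk stA2E a2e_4 a2e_4_m3 false .two = true := by decide +kernel

def a2e_4_r3_two1 : rowsOk stA2E a2e_4 a2e_4_m3 true .two = true := by decide +kernel

def a2e_4_r3_twoE0 : rowsOk stA2E a2e_4 a2e_4_m3 false .twoE = true := by decide +kernel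

def a2e_4_r3_twoE1 : rowsOk stA2E a2e_4 a2e_4_m3 true .twoE = true := by decide +kernel

def a2e_4_r3_thrR0 : rowsOk stA2E a2e_4 a2e_4_m3 false .thrR = true := by decide +kernel

def a2e_4_r3_thrR1 : rowsOk stA2E a2e_4 a2e_4_m3 true .thrR = true := by decide +kernel

def a2e_4_r3_thrL0 : rowsOk stA2E a2e_4 a2e_4_m3 false .thrL = true := by decide +kernel

def a2e_4_r3_thrL1 : rowsOk stA2E a2e_4 a2e_4_m3 true .thrL = true := by decide +kernel

def a2e_4_r3_threeE0 : rowsOk stA2E a2e_4 a2e_4_m3 false .threeE = true := by decide +kernel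

def a2e_4_r3_threeE1 : rowsOk stA2E a2e_4 a2e_4_m3 true .threeE = true := by decide +kernel

def a2e_4_r3_ring0 : rowsOk stA2E a2e_4 a2e_4_m3 false .ring = true := by decide +kernel

def a2e_4_r3_ring1 : rowsOk stA2E a2e_4 a2e_4_m3 true .ring = true := by decide +kernel

theorem a2e_4_r0 : allRows stA2E a2e_4 a2e_4_m0 = true := by
  refine allRows_of fun P => ?_
  cases P
  exacts [⟨a2e_4_r0_one0, a2e_4_r0_one1⟩,
    ⟨a2e_4_r0_two0, a2e_4_r0_two1⟩,
    ⟨a2e_4_r0_twoE0, a2e_4_r0_twoE1⟩,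
    ⟨a2e_4_r0_thrR0, a2e_4_r0_thrR1⟩,
    ⟨a2e_4_r0_thrL0, a2e_4_r0_thrL1⟩,
    ⟨a2e_4_r0_threeE0, a2e_4_r0_threeE1⟩,
    ⟨a2e_4_r0_ring0, a2e_4_r0_ring1⟩]

theorem a2e_4_r1 : allRows stA2E a2e_4 a2e_4_m1 = true := by
  refine allRows_of fun P => ?_
  cases P
  exacts [⟨a2e_4_r1_one0, a2e_4_r1_one1⟩,
    ⟨a2e_4_r1_two0, a2e_4_r1_two1⟩,
    ⟨a2e_4_r1_twoE0, a2e_4_r1_twoE1⟩,
    ⟨a2e_4_r1_thrR0, a2e_4_r1_thrR1⟩,
    ⟨a2e_4_r1_thrL0, a2e_4_r1_thrL1⟩,
    ⟨a2e_4_r1_threeE0, a2e_4_r1_threeE1⟩,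
    ⟨a2e_4_r1_ring0, a2e_4_r1_ring1⟩]

theorem a2e_4_r2 : allRows stA2E a2e_4 a2e_4_m2 = true := by
  refine allRows_of fun P => ?_
  cases P
  exacts [⟨a2e_4_r2_one0, a2e_4_r2_one1⟩,
    ⟨a2e_4_r2_two0, a2e_4_r2_two1⟩,
    ⟨a2e_4_r2_twoE0, a2e_4_r2_twoE1⟩,
    ⟨a2e_4_r2_thrR0, a2e_4_r2_thrR1⟩,
    ⟨a2e_4_r2_thrL0, a2e_4_r2_thrL1⟩,
    ⟨a2e_4_r2_threeE0, a2e_4_r2_threeE1⟩,
    ⟨a2e_4_r2_ring0, a2e_4_r2_ring1⟩]

theorem a2e_4_r3 : allRows stA2E a2e_4 a2e_4_m3 = true := by
  refine allRows_of fun P => ?_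
  cases P
  exacts [⟨a2e_4_r3_one0, a2e_4_r3_one1⟩,
    ⟨a2e_4_r3_two0, a2e_4_r3_two1⟩,
    ⟨a2e_4_r3_twoE0, a2e_4_r3_twoE1⟩,
    ⟨a2e_4_r3_thrR0, a2e_4_r3_thrR1⟩,
    ⟨a2e_4_r3_thrL0, a2e_4_r3_thrL1⟩,
    ⟨a2e_4_r3_threeE0, a2e_4_r3_threeE1⟩,
    ⟨a2e_4_r3_ring0, a2e_4_r3_ring1⟩]

theorem a2e_4_ok : a2e_4.ok stA2E = true := by
  have h : (PC.all.all fun P => PC.all.all fun Q => pairOk stA2E a2e_4 P Q) = true := by decide +kernel
  have d0 : mdOk stA2E a2e_4_m0.md = true := by decide +kernel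
  have d1 : mdOk stA2E a2e_4_m1.md = true := by decide +kernel
  have d2 : mdOk stA2E a2e_4_m2.md = true := by decide +kernel
  have d3 : mdOk stA2E a2e_4_m3.md = true := by decide +kernel
  unfold Piece.ok
  rw [h, Bool.true_and]
  show List.all [a2e_4_m0, a2e_4_m1, a2e_4_m2, a2e_4_m3] _ = true
  rw [List.all_eq_true]
  intro m hm
  simp only [List.mem_cons, List.not_mem_nil, or_false] at hm
  rcases hm with rfl | rfl | rfl | rfl
  · rw [a2e_4_r0, d0]; rfl
  · rw [a2e_4_r1, d1]; rfl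
  · rw [a2e_4_r2, d2]; rfl
  · rw [a2e_4_r3, d3]; rfl

end OR

end Pool.Agent.Work.MP_b30479_gtS.G2

end

section

set_option deprecated.oldSectionVars true

namespace Pool.Agent.Work.MP_b30479_gtS.G2

namespace OR

/-- windows -/
def a2e_5_wp : PC → Win
  | .one => ⟨0, 0, 0, 0, 0, 0⟩
  | .two => ⟨0, 0, 0, 0, 0, 0⟩
  | .twoE => ⟨-790, -360, -310, 250, 230, 820⟩
  | .thrR => ⟨0, 0, 0, 0, 0, 0⟩
  | .thrL => ⟨0, 0, 0, 0, 0, 0⟩
  | .threeE => ⟨0, 0, 0, 0, 0, 0⟩
  | .ring => ⟨0, 0, 0, 0, 0, 0⟩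

/-- windows -/
def a2e_5_wq : PC → Win
  | .one => ⟨0, 0, 0, 0, 0, 0⟩
  | .two => ⟨0, 0, 0, 0, 0, 0⟩
  | .twoE => ⟨0, 0, 0, 0, 0, 0⟩
  | .thrR => ⟨0, 0, 0, 0, 0, 0⟩
  | .thrL => ⟨0, 0, 0, 0, 0, 0⟩
  | .threeE => ⟨0, 0, 0, 0, 0, 0⟩
  | .ring => ⟨600, 1300, 110, 690, -820, -230⟩

/-- mode -/
def a2e_5_m0 : Mode where
  md := .V 150 1000
  lam := 0
  ct := 1500
  gp := fun
    | .one => [e00, e00, e00, e00, e00, e00, e00, e00]
    | .two => [e00, e00, e00, e00, e00, e00]
    | .twoE => [⟨1402, [2178]⟩, ⟨1129, [8, 8, 8, 8, 8, 8]⟩, ⟨-2396, [0, 0, 0, 0, 8, 10314100470630455202808610]⟩, ⟨-2396, [0, 0, 0, 0, 8, 8]⟩, ⟨-2396, [0, 0, 0, 0, 8, 8]⟩, ⟨-2396, [0, 0, 0, 0, 8, 8]⟩]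
    | .thrR => [e00, e00, e00, e00, e00, e00]
    | .thrL => [e00, e00, e00, e00, e00, e00]
    | .threeE => [e00, e00, e00, e00, e00, e00]
    | .ring => [e00, e00, e00, e00, e00, e00]
  gq := fun
    | .one => [e00, e00, e00, e00, e00, e00, e00, e00]
    | .two => [e00, e00, e00, e00, e00, e00]
    | .twoE => [e00, e00, e00, e00, e00, e00]
    | .thrR => [e00, e00, e00, e00, e00, e00]
    | .thrL => [e00, e00, e00, e00, e00, e00]
    | .threeE => [e00, e00, e00, e00, e00, e00]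
    | .ring => [⟨2392, [1786278848066601077501749150221311455173036066744127888674049726220204539918467087198197878295604156214907911601117335004432727421888923698, 14030384324926937266885303100725637269740922831792, 12753418287134244688313086990800171184, 8, 0, 0]⟩, ⟨2392, [11605238127567870366942083, 2700641906688387, 691364665502172033, 8, 11522749716725256960876931, 8]⟩, ⟨2392, [0, 0, 0, 0, 686942430003691907, 8]⟩, ⟨2392, [0, 0, 0, 0, 9382392240178, 8]⟩, ⟨2392, [0, 0, 0, 0, 143164194, 8]⟩, ⟨-1406, [0, 0, 0, 0, 8, 8]⟩]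

/-- mode -/
def a2e_5_m1 : Mode where
  md := .V 450 1000
  lam := 500
  ct := 2500
  gp := fun
    | .one => [e00, e00, e00, e00, e00, e00, e00, e00]
    | .two => [e00, e00, e00, e00, e00, e00]
    | .twoE => [⟨-476, [36549722402]⟩, ⟨-1171, [557443, 8, 8, 8, 8, 2177]⟩, e00, e00, e00, e00]
    | .thrR => [e00, e00, e00, e00, e00, e00]
    | .thrL => [e00, e00, e00, e00, e00, e00]
    | .threeE => [e00, e00, e00, e00, e00, e00]
    | .ring => [e00, e00, e00, e00, e00, e00]
  gq := fun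
    | .one => [e00, e00, e00, e00, e00, e00, e00, e00]
    | .two => [e00, e00, e00, e00, e00, e00]
    | .twoE => [e00, e00, e00, e00, e00, e00]
    | .thrR => [e00, e00, e00, e00, e00, e00]
    | .thrL => [e00, e00, e00, e00, e00, e00]
    | .threeE => [e00, e00, e00, e00, e00, e00]
    | .ring => [⟨832, [142836354, 2179, 8, 8, 0, 0]⟩, ⟨832, [8, 8, 8, 8, 8, 8]⟩, ⟨137, [0, 0, 0, 0, 2632551716313454997750842243, 8]⟩, ⟨137, [0, 0, 0, 0, 36549695538, 8]⟩, ⟨137, [0, 0, 0, 0, 13681144154004207804280679429256560991557923910426619686257442, 231965314]⟩, e00]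

/-- mode -/
def a2e_5_m2 : Mode where
  md := .V 550 1000
  lam := 250
  ct := 2500
  gp := fun
    | .one => [e00, e00, e00, e00, e00, e00, e00, e00]
    | .two => [e00, e00, e00, e00, e00, e00]
    | .twoE => [⟨-586, [612914547208491554]⟩, e00, e00, e00, e00, e00]
    | .thrR => [e00, e00, e00, e00, e00, e00]
    | .thrL => [e00, e00, e00, e00, e00, e00]
    | .threeE => [e00, e00, e00, e00, e00, e00]
    | .ring => [e00, e00, e00, e00, e00, e00]
  gq := fun
    | .one => [e00, e00, e00, e00, e00, e00, e00, e00]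
    | .two => [e00, e00, e00, e00, e00, e00]
    | .twoE => [e00, e00, e00, e00, e00, e00]
    | .thrR => [e00, e00, e00, e00, e00, e00]
    | .thrL => [e00, e00, e00, e00, e00, e00]
    | .threeE => [e00, e00, e00, e00, e00, e00]
    | .ring => [⟨415, [58894329358277457144856839059466842476476946618568186010816426521298994, 40288881247200481608624, 145797296, 8, 0, 0]⟩, ⟨415, [10313676660936398175568771, 557443, 2177, 8, 36644073859, 8]⟩, e00, e00, e00, e00]

/-- piece -/
def a2e_5 : Piece := ⟨8200, 8400, 0, 820, a2e_5_wp, a2e_5_wq, [a2e_5_m0, a2e_5_m1, a2e_5_m2]⟩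

set_option linter.defProp false

def a2e_5_r0_one0 : rowsOk stA2E a2e_5 a2e_5_m0 false .one = true := by decide +kernel

def a2e_5_r0_one1 : rowsOk stA2E a2e_5 a2e_5_m0 true .one = true := by decide +kernel

def a2e_5_r0_two0 : rowsOk stA2E a2e_5 a2e_5_m0 false .two = true := by decide +kernel

def a2e_5_r0_two1 : rowsOk stA2E a2e_5 a2e_5_m0 true .two = true := by decide +kernel

def a2e_5_r0_twoE0 : rowsOk stA2E a2e_5 a2e_5_m0 false .twoE = true := by decide +kernel

def a2e_5_r0_twoE1 : rowsOk stA2E a2e_5 a2e_5_m0 true .twoE = true := by decide +kernel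

def a2e_5_r0_thrR0 : rowsOk stA2E a2e_5 a2e_5_m0 false .thrR = true := by decide +kernel

def a2e_5_r0_thrR1 : rowsOk stA2E a2e_5 a2e_5_m0 true .thrR = true := by decide +kernel

def a2e_5_r0_thrL0 : rowsOk stA2E a2e_5 a2e_5_m0 false .thrL = true := by decide +kernel

def a2e_5_r0_thrL1 : rowsOk stA2E a2e_5 a2e_5_m0 true .thrL = true := by decide +kernel

def a2e_5_r0_threeE0 : rowsOk stA2E a2e_5 a2e_5_m0 false .threeE = true := by decide +kernel

def a2e_5_r0_threeE1 : rowsOk stA2E a2e_5 a2e_5_m0 true .threeE = true := by decide +kernel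

def a2e_5_r0_ring0 : rowsOk stA2E a2e_5 a2e_5_m0 false .ring = true := by decide +kernel

def a2e_5_r0_ring1_0 : cellOk stA2E a2e_5 a2e_5_m0 true .ring ((stA2E.bins .ring).getD 0 b00)
    ((a2e_5_m0.g true .ring).getD 0 e00) = true := by decide +kernel

def a2e_5_r0_ring1_1 : cellOk stA2E a2e_5 a2e_5_m0 true .ring ((stA2E.bins .ring).getD 1 b00)
    ((a2e_5_m0.g true .ring).getD 1 e00) = true := by decide +kernel

def a2e_5_r0_ring1_2 : cellOk stA2E a2e_5 a2e_5_m0 true .ring ((stA2E.bins .ring).getD 2 b00)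
    ((a2e_5_m0.g true .ring).getD 2 e00) = true := by decide +kernel

def a2e_5_r0_ring1_3 : cellOk stA2E a2e_5 a2e_5_m0 true .ring ((stA2E.bins .ring).getD 3 b00)
    ((a2e_5_m0.g true .ring).getD 3 e00) = true := by decide +kernel

def a2e_5_r0_ring1_4 : cellOk stA2E a2e_5 a2e_5_m0 true .ring ((stA2E.bins .ring).getD 4 b00)
    ((a2e_5_m0.g true .ring).getD 4 e00) = true := by decide +kernel

def a2e_5_r0_ring1_5 : cellOk stA2E a2e_5 a2e_5_m0 true .ring ((stA2E.bins .ring).getD 5 b00)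
    ((a2e_5_m0.g true .ring).getD 5 e00) = true := by decide +kernel

theorem a2e_5_r0_ring1 : rowsOk stA2E a2e_5 a2e_5_m0 true .ring = true := by
  refine rowsOk_of fun i hi => ?_
  have hi : i < 6 := hi
  interval_cases i
  exacts [a2e_5_r0_ring1_0, a2e_5_r0_ring1_1, a2e_5_r0_ring1_2, a2e_5_r0_ring1_3, a2e_5_r0_ring1_4, a2e_5_r0_ring1_5]

def a2e_5_r1_one0 : rowsOk stA2E a2e_5 a2e_5_m1 false .one = true := by decide +kernel

def a2e_5_r1_one1 : rowsOk stA2E a2e_5 a2e_5_m1 true .one = true := by decide +kernel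

def a2e_5_r1_two0 : rowsOk stA2E a2e_5 a2e_5_m1 false .two = true := by decide +kernel

def a2e_5_r1_two1 : rowsOk stA2E a2e_5 a2e_5_m1 true .two = true := by decide +kernel

def a2e_5_r1_twoE0 : rowsOk stA2E a2e_5 a2e_5_m1 false .twoE = true := by decide +kernel

def a2e_5_r1_twoE1 : rowsOk stA2E a2e_5 a2e_5_m1 true .twoE = true := by decide +kernel

def a2e_5_r1_thrR0 : rowsOk stA2E a2e_5 a2e_5_m1 false .thrR = true := by decide +kernel

def a2e_5_r1_thrR1 : rowsOk stA2E a2e_5 a2e_5_m1 true .thrR = true := by decide +kernel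

def a2e_5_r1_thrL0 : rowsOk stA2E a2e_5 a2e_5_m1 false .thrL = true := by decide +kernel

def a2e_5_r1_thrL1 : rowsOk stA2E a2e_5 a2e_5_m1 true .thrL = true := by decide +kernel

def a2e_5_r1_threeE0 : rowsOk stA2E a2e_5 a2e_5_m1 false .threeE = true := by decide +kernel

def a2e_5_r1_threeE1 : rowsOk stA2E a2e_5 a2e_5_m1 true .threeE = true := by decide +kernel

def a2e_5_r1_ring0 : rowsOk stA2E a2e_5 a2e_5_m1 false .ring = true := by decide +kernel

def a2e_5_r1_ring1 : rowsOk stA2E a2e_5 a2e_5_m1 true .ring = true := by decide +kernel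

def a2e_5_r2_one0 : rowsOk stA2E a2e_5 a2e_5_m2 false .one = true := by decide +kernel

def a2e_5_r2_one1 : rowsOk stA2E a2e_5 a2e_5_m2 true .one = true := by decide +kernel

def a2e_5_r2_two0 : rowsOk stA2E a2e_5 a2e_5_m2 false .two = true := by decide +kernel

def a2e_5_r2_two1 : rowsOk stA2E a2e_5 a2e_5_m2 true .two = true := by decide +kernel

def a2e_5_r2_twoE0 : rowsOk stA2E a2e_5 a2e_5_m2 false .twoE = true := by decide +kernel

def a2e_5_r2_twoE1 : rowsOk stA2E a2e_5 a2e_5_m2 true .twoE = true := by decide +kernel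

def a2e_5_r2_thrR0 : rowsOk stA2E a2e_5 a2e_5_m2 false .thrR = true := by decide +kernel

def a2e_5_r2_thrR1 : rowsOk stA2E a2e_5 a2e_5_m2 true .thrR = true := by decide +kernel

def a2e_5_r2_thrL0 : rowsOk stA2E a2e_5 a2e_5_m2 false .thrL = true := by decide +kernel

def a2e_5_r2_thrL1 : rowsOk stA2E a2e_5 a2e_5_m2 true .thrL = true := by decide +kernel

def a2e_5_r2_threeE0 : rowsOk stA2E a2e_5 a2e_5_m2 false .threeE = true := by decide +kernel

def a2e_5_r2_threeE1 : rowsOk stA2E a2e_5 a2e_5_m2 true .threeE = true := by decide +kernel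

def a2e_5_r2_ring0 : rowsOk stA2E a2e_5 a2e_5_m2 false .ring = true := by decide +kernel

def a2e_5_r2_ring1 : rowsOk stA2E a2e_5 a2e_5_m2 true .ring = true := by decide +kernel

theorem a2e_5_r0 : allRows stA2E a2e_5 a2e_5_m0 = true := by
  refine allRows_of fun P => ?_
  cases P
  exacts [⟨a2e_5_r0_one0, a2e_5_r0_one1⟩,
    ⟨a2e_5_r0_two0, a2e_5_r0_two1⟩,
    ⟨a2e_5_r0_twoE0, a2e_5_r0_twoE1⟩,
    ⟨a2e_5_r0_thrR0, a2e_5_r0_thrR1⟩,
    ⟨a2e_5_r0_thrL0, a2e_5_r0_thrL1⟩,
    ⟨a2e_5_r0_threeE0, a2e_5_r0_threeE1⟩,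
    ⟨a2e_5_r0_ring0, a2e_5_r0_ring1⟩]

theorem a2e_5_r1 : allRows stA2E a2e_5 a2e_5_m1 = true := by
  refine allRows_of fun P => ?_
  cases P
  exacts [⟨a2e_5_r1_one0, a2e_5_r1_one1⟩,
    ⟨a2e_5_r1_two0, a2e_5_r1_two1⟩,
    ⟨a2e_5_r1_twoE0, a2e_5_r1_twoE1⟩,
    ⟨a2e_5_r1_thrR0, a2e_5_r1_thrR1⟩,
    ⟨a2e_5_r1_thrL0, a2e_5_r1_thrL1⟩,
    ⟨a2e_5_r1_threeE0, a2e_5_r1_threeE1⟩,
    ⟨a2e_5_r1_ring0, a2e_5_r1_ring1⟩]

theorem a2e_5_r2 : allRows stA2E a2e_5 a2e_5_m2 = true := by
  refine allRows_of fun P => ?_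
  cases P
  exacts [⟨a2e_5_r2_one0, a2e_5_r2_one1⟩,
    ⟨a2e_5_r2_two0, a2e_5_r2_two1⟩,
    ⟨a2e_5_r2_twoE0, a2e_5_r2_twoE1⟩,
    ⟨a2e_5_r2_thrR0, a2e_5_r2_thrR1⟩,
    ⟨a2e_5_r2_thrL0, a2e_5_r2_thrL1⟩,
    ⟨a2e_5_r2_threeE0, a2e_5_r2_threeE1⟩,
    ⟨a2e_5_r2_ring0, a2e_5_r2_ring1⟩]

theorem a2e_5_ok : a2e_5.ok stA2E = true := by
  have h : (PC.all.all fun P => PC.all.all fun Q => pairOk stA2E a2e_5 P Q) = true := by decide +kernel
  have d0 : mdOk stA2E a2e_5_m0.md = true := by decide +kernel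
  have d1 : mdOk stA2E a2e_5_m1.md = true := by decide +kernel
  have d2 : mdOk stA2E a2e_5_m2.md = true := by decide +kernel
  unfold Piece.ok
  rw [h, Bool.true_and]
  show List.all [a2e_5_m0, a2e_5_m1, a2e_5_m2] _ = true
  rw [List.all_eq_true]
  intro m hm
  simp only [List.mem_cons, List.not_mem_nil, or_false] at hm
  rcases hm with rfl | rfl | rfl
  · rw [a2e_5_r0, d0]; rfl
  · rw [a2e_5_r1, d1]; rfl
  · rw [a2e_5_r2, d2]; rfl

end OR

end Pool.Agent.Work.MP_b30479_gtS.G2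

end

section

set_option deprecated.oldSectionVars true

namespace Pool.Agent.Work.MP_b30479_gtS.G2

namespace OR

/-- windows -/
def s2f_11_wp : PC → Win
  | .one => ⟨0, 0, 0, 0, 0, 0⟩
  | .two => ⟨-230, 780, -360, 760, -660, 530⟩
  | .twoE => ⟨-790, -140, -520, 270, -160, 820⟩
  | .thrR => ⟨100, 920, -70, 910, -630, 480⟩
  | .thrL => ⟨100, 920, -70, 910, -630, 480⟩
  | .threeE => ⟨-20, 610, 0, 860, -380, 650⟩
  | .ring => ⟨270, 1300, 110, 1120, -820, 440⟩

/-- windows -/
def s2f_11_wq : PC → Win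
  | .one => ⟨0, 0, 0, 0, 0, 0⟩
  | .two => ⟨-230, 780, -360, 760, -660, 530⟩
  | .twoE => ⟨-790, -140, -520, 270, -160, 820⟩
  | .thrR => ⟨100, 920, -70, 910, -630, 480⟩
  | .thrL => ⟨100, 920, -70, 910, -630, 480⟩
  | .threeE => ⟨-20, 610, 0, 860, -380, 650⟩
  | .ring => ⟨270, 1300, 110, 1120, -820, 440⟩

/-- mode -/
def s2f_11_m0 : Mode where
  md := .D
  lam := 1000
  ct := 0
  gp := fun
    | .one => [e00, e00, e00, e00, e00, e00, e00, e00]
    | .two => [e00, e00, e00, ⟨-3538, [1191795397532789038537019841181743716712324289128888968568338045928700017059867189315232573882640802466]⟩, ⟨-3538, [44206160885905192971142635377406257, 8, 208757692477171580702610476014087989916918901375924114194]⟩, ⟨-3538, [0, 0, 817205264047063090793540798311594358400591027064877586]⟩]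
    | .twoE => [e00, e00, e00, e00, e00]
    | .thrR => [e00, e00, e00, ⟨-3647, [64607376514863768824891012707508567806079336655990233841617417959419289499148133026]⟩, ⟨-3647, [172680315960567160043527707590961, 8, 741656309713584344215362821009797846405921]⟩, ⟨-2351, [0, 0, 15028770301317116080425900812495789365531093179239619448955503936376345122]⟩]
    | .thrL => [e00, e00, e00, e00, ⟨-3647, [674532484218300785517623615650]⟩]
    | .threeE => [e00, e00, e00, e00, ⟨-3426, [2394221256914961, 8, 156907724953105216018]⟩, ⟨-3426, [0, 0, 559122]⟩]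
    | .ring => [e00, e00, e00, e00, ⟨-3897, [15316607142228990610989643876155376787490047212432970405216817, 8, 13680980796948185327429221857352733136441369968762296040890898]⟩, ⟨-2854, [0, 0, 612914545337401634]⟩]
  gq := fun
    | .one => [e00, e00, e00, e00, e00, e00, e00, e00]
    | .two => [⟨2484, [557442]⟩, ⟨2484, [8]⟩, ⟨1197, [557953]⟩, ⟨1197, [16574862256053422528926398737228107730288415968967570074534877477706864098344739307810]⟩, ⟨1197, [2640527898793927819865370929, 8, 11306297519369808836938822283646145298]⟩, ⟨1197, [0, 0, 40168398581420079022866]⟩]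
    | .twoE => [⟨1907, [8]⟩, ⟨1907, [8]⟩, ⟨1907, [8]⟩, ⟨1907, [557442]⟩, ⟨1907, [2177]⟩]
    | .thrR => [⟨2382, [2177]⟩, ⟨2382, [142706706]⟩, ⟨1340, [557697]⟩, ⟨1340, [15028774301119784438078728348100250507484047950441436344584863388072968482]⟩, ⟨1340, [156907684293179375921, 8, 40168398575952585655073]⟩, ⟨1340, [0, 0, 2894435996235485176226715231792838939170]⟩]
    | .thrL => [⟨2382, [557953]⟩, ⟨2382, [2177]⟩, ⟨1097, [143143553]⟩, ⟨1097, [40168367179054071687186]⟩, ⟨1097, [2640527898825324717988676385]⟩]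
    | .threeE => [⟨2603, [8]⟩, ⟨2603, [8]⟩, ⟨1307, [2177]⟩, ⟨1307, [36566042642]⟩, ⟨1307, [673913372530296332844504987666, 8, 9382407995666]⟩, ⟨1307, [0, 0, 2178]⟩]
    | .ring => [⟨2133, [3572996807186364670795679762]⟩, ⟨2133, [3569618969115261262417658657]⟩, ⟨2133, [49450943361]⟩, ⟨2133, [189776881732440891425756301547300802631598610]⟩, ⟨837, [3859135847551140840508339485880873145481839836788940782014010923248611656466, 8, 11306390612362158012947149915637883410]⟩, ⟨837, [0, 0, 143163682]⟩]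

/-- mode -/
def s2f_11_m1 : Mode where
  md := .V 300 1000
  lam := 750
  ct := 0
  gp := fun
    | .one => [e00, e00, e00, e00, e00, e00, e00, e00]
    | .two => [e00, e00, e00, e00, e00, e00]
    | .twoE => [e00, e00, e00, e00, e00]
    | .thrR => [e00, e00, e00, e00, e00, ⟨-1689, [0, 0, 0, 0, 42708579977822897387719103514925145125282319279218812081385382179248304671778093657685005596069370462716953154866753815011782373763377334040289312114279500817516961091940133042130209901032541598008603652386, 48560572464566726626925127712913494828887650594]⟩]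
    | .thrL => [e00, e00, e00, e00, e00]
    | .threeE => [e00, e00, e00, e00, e00, ⟨-1486, [0, 0, 0, 0, 559122, 2177]⟩]
    | .ring => [e00, e00, e00, e00, e00, ⟨-2199, [0, 0, 0, 0, 674524405604258526910688077842, 3182434268308651499241366302098230648193161707463442]⟩]
  gq := fun
    | .one => [e00, e00, e00, e00, e00, e00, e00, e00]
    | .two => [⟨822, [8]⟩, ⟨822, [8]⟩, e00, e00, e00, e00]
    | .twoE => [e00, e00, e00, e00, e00]
    | .thrR => [⟨1063, [8]⟩, ⟨1063, [8]⟩, e00, e00, e00, e00]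
    | .thrL => [⟨747, [8]⟩, ⟨747, [8]⟩, e00, e00, e00]
    | .threeE => [⟨905, [8]⟩, ⟨905, [8]⟩, e00, e00, e00, e00]
    | .ring => [⟨552, [9360906487826]⟩, ⟨552, [142836097]⟩, ⟨552, [557953]⟩, ⟨552, [2396420783486994]⟩, e00, e00]

/-- piece -/
def s2f_11 : Piece := ⟨5400, 5700, -820, 820, s2f_11_wp, s2f_11_wq, [s2f_11_m0, s2f_11_m1]⟩

set_option linter.defProp false

def s2f_11_r0_one0 : rowsOk stS2F s2f_11 s2f_11_m0 false .one = true := by decide +kernel

def s2f_11_r0_one1 : rowsOk stS2F s2f_11 s2f_11_m0 true .one = true := by decide +kernel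

def s2f_11_r0_two0 : rowsOk stS2F s2f_11 s2f_11_m0 false .two = true := by decide +kernel

def s2f_11_r0_two1 : rowsOk stS2F s2f_11 s2f_11_m0 true .two = true := by decide +kernel

def s2f_11_r0_twoE0 : rowsOk stS2F s2f_11 s2f_11_m0 false .twoE = true := by decide +kernel

def s2f_11_r0_twoE1 : rowsOk stS2F s2f_11 s2f_11_m0 true .twoE = true := by decide +kernel

def s2f_11_r0_thrR0 : rowsOk stS2F s2f_11 s2f_11_m0 false .thrR = true := by decide +kernel

def s2f_11_r0_thrR1 : rowsOk stS2F s2f_11 s2f_11_m0 true .thrR = true := by decide +kernel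

def s2f_11_r0_thrL0 : rowsOk stS2F s2f_11 s2f_11_m0 false .thrL = true := by decide +kernel

def s2f_11_r0_thrL1 : rowsOk stS2F s2f_11 s2f_11_m0 true .thrL = true := by decide +kernel

def s2f_11_r0_threeE0 : rowsOk stS2F s2f_11 s2f_11_m0 false .threeE = true := by decide +kernel

def s2f_11_r0_threeE1 : rowsOk stS2F s2f_11 s2f_11_m0 true .threeE = true := by decide +kernel

def s2f_11_r0_ring0 : rowsOk stS2F s2f_11 s2f_11_m0 false .ring = true := by decide +kernel

def s2f_11_r0_ring1 : rowsOk stS2F s2f_11 s2f_11_m0 true .ring = true := by decide +kernel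

def s2f_11_r1_one0 : rowsOk stS2F s2f_11 s2f_11_m1 false .one = true := by decide +kernel

def s2f_11_r1_one1 : rowsOk stS2F s2f_11 s2f_11_m1 true .one = true := by decide +kernel

def s2f_11_r1_two0 : rowsOk stS2F s2f_11 s2f_11_m1 false .two = true := by decide +kernel

def s2f_11_r1_two1 : rowsOk stS2F s2f_11 s2f_11_m1 true .two = true := by decide +kernel

def s2f_11_r1_twoE0 : rowsOk stS2F s2f_11 s2f_11_m1 false .twoE = true := by decide +kernel

def s2f_11_r1_twoE1 : rowsOk stS2F s2f_11 s2f_11_m1 true .twoE = true := by decide +kernel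

def s2f_11_r1_thrR0 : rowsOk stS2F s2f_11 s2f_11_m1 false .thrR = true := by decide +kernel

def s2f_11_r1_thrR1 : rowsOk stS2F s2f_11 s2f_11_m1 true .thrR = true := by decide +kernel

def s2f_11_r1_thrL0 : rowsOk stS2F s2f_11 s2f_11_m1 false .thrL = true := by decide +kernel

def s2f_11_r1_thrL1 : rowsOk stS2F s2f_11 s2f_11_m1 true .thrL = true := by decide +kernel

def s2f_11_r1_threeE0 : rowsOk stS2F s2f_11 s2f_11_m1 false .threeE = true := by decide +kernel

def s2f_11_r1_threeE1 : rowsOk stS2F s2f_11 s2f_11_m1 true .threeE = true := by decide +kernel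

def s2f_11_r1_ring0 : rowsOk stS2F s2f_11 s2f_11_m1 false .ring = true := by decide +kernel

def s2f_11_r1_ring1 : rowsOk stS2F s2f_11 s2f_11_m1 true .ring = true := by decide +kernel

theorem s2f_11_r0 : allRows stS2F s2f_11 s2f_11_m0 = true := by
  refine allRows_of fun P => ?_
  cases P
  exacts [⟨s2f_11_r0_one0, s2f_11_r0_one1⟩,
    ⟨s2f_11_r0_two0, s2f_11_r0_two1⟩,
    ⟨s2f_11_r0_twoE0, s2f_11_r0_twoE1⟩,
    ⟨s2f_11_r0_thrR0, s2f_11_r0_thrR1⟩,
    ⟨s2f_11_r0_thrL0, s2f_11_r0_thrL1⟩,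
    ⟨s2f_11_r0_threeE0, s2f_11_r0_threeE1⟩,
    ⟨s2f_11_r0_ring0, s2f_11_r0_ring1⟩]

theorem s2f_11_r1 : allRows stS2F s2f_11 s2f_11_m1 = true := by
  refine allRows_of fun P => ?_
  cases P
  exacts [⟨s2f_11_r1_one0, s2f_11_r1_one1⟩,
    ⟨s2f_11_r1_two0, s2f_11_r1_two1⟩,
    ⟨s2f_11_r1_twoE0, s2f_11_r1_twoE1⟩,
    ⟨s2f_11_r1_thrR0, s2f_11_r1_thrR1⟩,
    ⟨s2f_11_r1_thrL0, s2f_11_r1_thrL1⟩,
    ⟨s2f_11_r1_threeE0, s2f_11_r1_threeE1⟩,
    ⟨s2f_11_r1_ring0, s2f_11_r1_ring1⟩]

theorem s2f_11_ok : s2f_11.ok stS2F = true := by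
  have h : (PC.all.all fun P => PC.all.all fun Q => pairOk stS2F s2f_11 P Q) = true := by decide +kernel
  have d0 : mdOk stS2F s2f_11_m0.md = true := by decide +kernel
  have d1 : mdOk stS2F s2f_11_m1.md = true := by decide +kernel
  unfold Piece.ok
  rw [h, Bool.true_and]
  show List.all [s2f_11_m0, s2f_11_m1] _ = true
  rw [List.all_eq_true]
  intro m hm
  simp only [List.mem_cons, List.not_mem_nil, or_false] at hm
  rcases hm with rfl | rfl
  · rw [s2f_11_r0, d0]; rfl
  · rw [s2f_11_r1, d1]; rfl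

end OR

end Pool.Agent.Work.MP_b30479_gtS.G2

end

section

set_option deprecated.oldSectionVars true

namespace Pool.Agent.Work.MP_b30479_gtS.G2

namespace OR

/-- windows -/
def s3f_1_wp : PC → Win
  | .one => ⟨-890, 530, -920, 760, -820, 530⟩
  | .two => ⟨-30, 780, -50, 1100, -290, 620⟩
  | .twoE => ⟨-610, -170, -220, 530, 190, 820⟩
  | .thrR => ⟨310, 930, 280, 1270, -240, 580⟩
  | .thrL => ⟨310, 930, 280, 1270, -240, 580⟩
  | .threeE => ⟨160, 600, 360, 1170, 10, 740⟩
  | .ring => ⟨480, 1330, 470, 1500, -430, 610⟩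

/-- windows -/
def s3f_1_wq : PC → Win
  | .one => ⟨-890, 530, -920, 760, -820, 530⟩
  | .two => ⟨-30, 780, -50, 1100, -290, 620⟩
  | .twoE => ⟨-610, -170, -220, 530, 190, 820⟩
  | .thrR => ⟨310, 930, 280, 1270, -240, 580⟩
  | .thrL => ⟨310, 930, 280, 1270, -240, 580⟩
  | .threeE => ⟨160, 600, 360, 1170, 10, 740⟩
  | .ring => ⟨480, 1330, 470, 1500, -430, 610⟩

/-- mode -/
def s3f_1_m0 : Mode where
  md := .D
  lam := 2500
  ct := 0
  gp := fun
    | .one => [e00, e00, e00, e00, ⟨-3546, [3192202354264744158926975334818754120070883044758291, 8, 0]⟩, ⟨-3546, [3192202354264744158926975334818754120070883044758291, 8, 1310393335039033742861619439354407470299699962799998097250303740002730969085877664348785221516949039994850935771938]⟩, ⟨-3546, [0, 0, 2158139967328963000787002684521140177482009048166415346466631828086724212577103937657543437482504818553841409917348377712418502667052734425924539678077531412705570]⟩, ⟨-3546, [0, 0, 2373316943112302059853649956287230906869590030158525500241153712844391085948033710324831030154489417544210368829482004428189660274503519969362651531609499336911636458698838803]⟩]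
    | .two => [e00, e00, e00, ⟨-3775, [40168398575953837064497, 8, 0]⟩, ⟨-3775, [40168398575953837064497, 8, 3185351460806598243917004335657060084434491311993122]⟩, ⟨-3775, [0, 0, 3500724146600910585771692234190026011852483887583089051618709538]⟩]
    | .twoE => [e00, e00, e00, ⟨-1975, [36532560034]⟩, ⟨-1975, [2396420783476864]⟩]
    | .thrR => [e00, e00, e00, ⟨-4075, [2394201737691441, 8, 0]⟩, ⟨-4075, [2394201737691441, 8, 44185349256901782827309546189493010]⟩, ⟨-2447, [0, 0, 984915700621306872184763780068470262183579215973262526732951975648256815333922]⟩]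
    | .thrL => [e00, e00, e00, ⟨-4075, [174975870903917029148349941588130]⟩, ⟨-4075, [335152779489289849337765343762108119537585489587283215877404743146240429599806169460416776463031466051818812364495392]⟩]
    | .threeE => [e00, e00, e00, ⟨-3500, [613484062717419682]⟩, ⟨-3500, [9361017045297, 8, 612920663116091682]⟩, ⟨-3500, [0, 0, 142772258]⟩]
    | .ring => [e00, e00, e00, ⟨-4300, [1493725890970341996451550291245308438089026954953875669441430003705776852717968773542486178]⟩, ⟨-4300, [106470330150138926711262802839758638785807448033305053241030471398334959711053185597516418726609408492419840816601220276086231281969, 8, 987884004525892905676346493060701475560883388982019551676145645679809351725346]⟩, ⟨-3047, [0, 0, 2634861056309105717246701858]⟩]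
  gq := fun
    | .one => [⟨1671, [2177]⟩, ⟨1296, [40205269111452436279826]⟩, ⟨43, [10292554772068638510297137]⟩, ⟨43, [157051922254239662864]⟩, ⟨43, [252140927326437060000516822984267704750383755381341024377942021912376312425099554, 8, 0]⟩, ⟨43, [12469540446346656931655726212590769553368640750355, 8, 896607974689597409616926458093208890379216160719703869945333093154]⟩, ⟨43, [0, 0, 674532869855914942818666361122]⟩, ⟨43, [0, 0, 9356729397779]⟩]
    | .two => [⟨1442, [557442]⟩, ⟨1442, [2177]⟩, ⟨1442, [2176]⟩, ⟨1442, [675938873728523000446954145826, 8, 0]⟩, ⟨1442, [2401417282748721, 8, 10283104632531525163299106]⟩, ⟨1442, [0, 0, 10283104632523504201765666]⟩]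
    | .twoE => [⟨3242, [8]⟩, ⟨3242, [8]⟩, ⟨3242, [8]⟩, ⟨3242, [142770306]⟩, ⟨3242, [36566040704]⟩]
    | .thrR => [⟨1142, [559120]⟩, ⟨1142, [36532945154]⟩, ⟨1142, [557440]⟩, ⟨1142, [157051921154725546018, 8, 0]⟩, ⟨1142, [36566499633, 8, 2394221877662482]⟩, ⟨1142, [0, 0, 2895764891392833330997361775384967840290]⟩]
    | .thrL => [⟨1142, [142706704]⟩, ⟨1142, [142706704]⟩, ⟨1142, [557440]⟩, ⟨1142, [11316783498215717277984658173418045698]⟩, ⟨1142, [15042574424008001741581137445466545413790092579266209746311009108692046608]⟩]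
    | .threeE => [⟨1717, [8]⟩, ⟨1717, [8]⟩, ⟨1717, [8]⟩, ⟨1717, [2401477411768338]⟩, ⟨1717, [2396420894197778, 8, 36641997330]⟩, ⟨1717, [0, 0, 2178]⟩]
    | .ring => [⟨542, [7045806767786319632665392707680164983258653074200339566588502751194083275725775739256680984979679300474647361554]⟩, ⟨542, [27522682686832769216568164852094673864724920718460040713995722186477582752882464016021372686268457659984382001]⟩, ⟨542, [11316642101381455270534110509295764225]⟩, ⟨542, [252256914731202733991199257558811174203395564643478869685025255846188977140277266]⟩, ⟨542, [252140983865111974094987196180681194521909288478718609325146264743697216604476178, 8, 2894436636953024369117710066693806567714]⟩, ⟨542, [0, 0, 36650058018]⟩]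

/-- mode -/
def s3f_1_m1 : Mode where
  md := .D
  lam := 0
  ct := 0
  gp := fun
    | .one => [e00, e00, e00, e00, e00, e00, e00, e00]
    | .two => [e00, e00, e00, e00, e00, e00]
    | .twoE => [e00, e00, e00, e00, e00]
    | .thrR => [e00, e00, e00, e00, e00, ⟨-1681, [0, 0, 1582698509975029147992502045829795600293397709921228048610824860649081123053619314209090285377198805137950856494492013289105904930445656610]⟩]
    | .thrL => [e00, e00, e00, e00, e00]
    | .threeE => [e00, e00, e00, e00, e00, e00]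
    | .ring => [e00, e00, e00, e00, e00, ⟨-1673, [0, 0, 44165586472509503583962006485672226]⟩]
  gq := fun
    | .one => [⟨1677, [2177]⟩, ⟨1669, [2396392170620947]⟩, e00, e00, e00, e00, e00, e00]
    | .two => [e00, e00, e00, e00, e00, e00]
    | .twoE => [e00, e00, e00, e00, e00]
    | .thrR => [e00, e00, e00, e00, e00, e00]
    | .thrL => [e00, e00, e00, e00, e00]
    | .threeE => [e00, e00, e00, e00, e00, e00]
    | .ring => [e00, e00, e00, e00, e00, e00]

/-- piece -/
def s3f_1 : Piece := ⟨5375, 6000, -820, 820, s3f_1_wp, s3f_1_wq, [s3f_1_m0, s3f_1_m1]⟩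

set_option linter.defProp false

def s3f_1_r0_one0_0 : cellOk stS3F s3f_1 s3f_1_m0 false .one ((stS3F.bins .one).getD 0 b00)
    ((s3f_1_m0.g false .one).getD 0 e00) = true := by decide +kernel

def s3f_1_r0_one0_1 : cellOk stS3F s3f_1 s3f_1_m0 false .one ((stS3F.bins .one).getD 1 b00)
    ((s3f_1_m0.g false .one).getD 1 e00) = true := by decide +kernel

def s3f_1_r0_one0_2 : cellOk stS3F s3f_1 s3f_1_m0 false .one ((stS3F.bins .one).getD 2 b00)
    ((s3f_1_m0.g false .one).getD 2 e00) = true := by decide +kernel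

def s3f_1_r0_one0_3 : cellOk stS3F s3f_1 s3f_1_m0 false .one ((stS3F.bins .one).getD 3 b00)
    ((s3f_1_m0.g false .one).getD 3 e00) = true := by decide +kernel

def s3f_1_r0_one0_4 : cellOk stS3F s3f_1 s3f_1_m0 false .one ((stS3F.bins .one).getD 4 b00)
    ((s3f_1_m0.g false .one).getD 4 e00) = true := by decide +kernel

def s3f_1_r0_one0_5 : cellOk stS3F s3f_1 s3f_1_m0 false .one ((stS3F.bins .one).getD 5 b00)
    ((s3f_1_m0.g false .one).getD 5 e00) = true := by decide +kernel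

def s3f_1_r0_one0_6 : cellOk stS3F s3f_1 s3f_1_m0 false .one ((stS3F.bins .one).getD 6 b00)
    ((s3f_1_m0.g false .one).getD 6 e00) = true := by decide +kernel

def s3f_1_r0_one0_7 : cellOk stS3F s3f_1 s3f_1_m0 false .one ((stS3F.bins .one).getD 7 b00)
    ((s3f_1_m0.g false .one).getD 7 e00) = true := by decide +kernel

theorem s3f_1_r0_one0 : rowsOk stS3F s3f_1 s3f_1_m0 false .one = true := by
  refine rowsOk_of fun i hi => ?_
  have hi : i < 8 := hi
  interval_cases i
  exacts [s3f_1_r0_one0_0, s3f_1_r0_one0_1, s3f_1_r0_one0_2, s3f_1_r0_one0_3, s3f_1_r0_one0_4, s3f_1_r0_one0_5, s3f_1_r0_one0_6, s3f_1_r0_one0_7]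

def s3f_1_r0_one1_0 : cellOk stS3F s3f_1 s3f_1_m0 true .one ((stS3F.bins .one).getD 0 b00)
    ((s3f_1_m0.g true .one).getD 0 e00) = true := by decide +kernel

def s3f_1_r0_one1_1 : cellOk stS3F s3f_1 s3f_1_m0 true .one ((stS3F.bins .one).getD 1 b00)
    ((s3f_1_m0.g true .one).getD 1 e00) = true := by decide +kernel

def s3f_1_r0_one1_2 : cellOk stS3F s3f_1 s3f_1_m0 true .one ((stS3F.bins .one).getD 2 b00)
    ((s3f_1_m0.g true .one).getD 2 e00) = true := by decide +kernel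

def s3f_1_r0_one1_3 : cellOk stS3F s3f_1 s3f_1_m0 true .one ((stS3F.bins .one).getD 3 b00)
    ((s3f_1_m0.g true .one).getD 3 e00) = true := by decide +kernel

def s3f_1_r0_one1_4 : cellOk stS3F s3f_1 s3f_1_m0 true .one ((stS3F.bins .one).getD 4 b00)
    ((s3f_1_m0.g true .one).getD 4 e00) = true := by decide +kernel

def s3f_1_r0_one1_5 : cellOk stS3F s3f_1 s3f_1_m0 true .one ((stS3F.bins .one).getD 5 b00)
    ((s3f_1_m0.g true .one).getD 5 e00) = true := by decide +kernel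

def s3f_1_r0_one1_6 : cellOk stS3F s3f_1 s3f_1_m0 true .one ((stS3F.bins .one).getD 6 b00)
    ((s3f_1_m0.g true .one).getD 6 e00) = true := by decide +kernel

def s3f_1_r0_one1_7 : cellOk stS3F s3f_1 s3f_1_m0 true .one ((stS3F.bins .one).getD 7 b00)
    ((s3f_1_m0.g true .one).getD 7 e00) = true := by decide +kernel

theorem s3f_1_r0_one1 : rowsOk stS3F s3f_1 s3f_1_m0 true .one = true := by
  refine rowsOk_of fun i hi => ?_
  have hi : i < 8 := hi
  interval_cases i
  exacts [s3f_1_r0_one1_0, s3f_1_r0_one1_1, s3f_1_r0_one1_2, s3f_1_r0_one1_3, s3f_1_r0_one1_4, s3f_1_r0_one1_5, s3f_1_r0_one1_6, s3f_1_r0_one1_7]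

def s3f_1_r0_two0 : rowsOk stS3F s3f_1 s3f_1_m0 false .two = true := by decide +kernel

def s3f_1_r0_two1 : rowsOk stS3F s3f_1 s3f_1_m0 true .two = true := by decide +kernel

def s3f_1_r0_twoE0 : rowsOk stS3F s3f_1 s3f_1_m0 false .twoE = true := by decide +kernel

def s3f_1_r0_twoE1 : rowsOk stS3F s3f_1 s3f_1_m0 true .twoE = true := by decide +kernel

def s3f_1_r0_thrR0 : rowsOk stS3F s3f_1 s3f_1_m0 false .thrR = true := by decide +kernel

def s3f_1_r0_thrR1 : rowsOk stS3F s3f_1 s3f_1_m0 true .thrR = true := by decide +kernel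

def s3f_1_r0_thrL0 : rowsOk stS3F s3f_1 s3f_1_m0 false .thrL = true := by decide +kernel

def s3f_1_r0_thrL1 : rowsOk stS3F s3f_1 s3f_1_m0 true .thrL = true := by decide +kernel

def s3f_1_r0_threeE0 : rowsOk stS3F s3f_1 s3f_1_m0 false .threeE = true := by decide +kernel

def s3f_1_r0_threeE1 : rowsOk stS3F s3f_1 s3f_1_m0 true .threeE = true := by decide +kernel

def s3f_1_r0_ring0_0 : cellOk stS3F s3f_1 s3f_1_m0 false .ring ((stS3F.bins .ring).getD 0 b00)
    ((s3f_1_m0.g false .ring).getD 0 e00) = true := by decide +kernel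

def s3f_1_r0_ring0_1 : cellOk stS3F s3f_1 s3f_1_m0 false .ring ((stS3F.bins .ring).getD 1 b00)
    ((s3f_1_m0.g false .ring).getD 1 e00) = true := by decide +kernel

def s3f_1_r0_ring0_2 : cellOk stS3F s3f_1 s3f_1_m0 false .ring ((stS3F.bins .ring).getD 2 b00)
    ((s3f_1_m0.g false .ring).getD 2 e00) = true := by decide +kernel

def s3f_1_r0_ring0_3 : cellOk stS3F s3f_1 s3f_1_m0 false .ring ((stS3F.bins .ring).getD 3 b00)
    ((s3f_1_m0.g false .ring).getD 3 e00) = true := by decide +kernel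

def s3f_1_r0_ring0_4 : cellOk stS3F s3f_1 s3f_1_m0 false .ring ((stS3F.bins .ring).getD 4 b00)
    ((s3f_1_m0.g false .ring).getD 4 e00) = true := by decide +kernel

def s3f_1_r0_ring0_5 : cellOk stS3F s3f_1 s3f_1_m0 false .ring ((stS3F.bins .ring).getD 5 b00)
    ((s3f_1_m0.g false .ring).getD 5 e00) = true := by decide +kernel

theorem s3f_1_r0_ring0 : rowsOk stS3F s3f_1 s3f_1_m0 false .ring = true := by
  refine rowsOk_of fun i hi => ?_
  have hi : i < 6 := hi
  interval_cases i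
  exacts [s3f_1_r0_ring0_0, s3f_1_r0_ring0_1, s3f_1_r0_ring0_2, s3f_1_r0_ring0_3, s3f_1_r0_ring0_4, s3f_1_r0_ring0_5]

def s3f_1_r0_ring1_0 : cellOk stS3F s3f_1 s3f_1_m0 true .ring ((stS3F.bins .ring).getD 0 b00)
    ((s3f_1_m0.g true .ring).getD 0 e00) = true := by decide +kernel

def s3f_1_r0_ring1_1 : cellOk stS3F s3f_1 s3f_1_m0 true .ring ((stS3F.bins .ring).getD 1 b00)
    ((s3f_1_m0.g true .ring).getD 1 e00) = true := by decide +kernel

def s3f_1_r0_ring1_2 : cellOk stS3F s3f_1 s3f_1_m0 true .ring ((stS3F.bins .ring).getD 2 b00)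
    ((s3f_1_m0.g true .ring).getD 2 e00) = true := by decide +kernel

def s3f_1_r0_ring1_3 : cellOk stS3F s3f_1 s3f_1_m0 true .ring ((stS3F.bins .ring).getD 3 b00)
    ((s3f_1_m0.g true .ring).getD 3 e00) = true := by decide +kernel

def s3f_1_r0_ring1_4 : cellOk stS3F s3f_1 s3f_1_m0 true .ring ((stS3F.bins .ring).getD 4 b00)
    ((s3f_1_m0.g true .ring).getD 4 e00) = true := by decide +kernel

def s3f_1_r0_ring1_5 : cellOk stS3F s3f_1 s3f_1_m0 true .ring ((stS3F.bins .ring).getD 5 b00)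
    ((s3f_1_m0.g true .ring).getD 5 e00) = true := by decide +kernel

theorem s3f_1_r0_ring1 : rowsOk stS3F s3f_1 s3f_1_m0 true .ring = true := by
  refine rowsOk_of fun i hi => ?_
  have hi : i < 6 := hi
  interval_cases i
  exacts [s3f_1_r0_ring1_0, s3f_1_r0_ring1_1, s3f_1_r0_ring1_2, s3f_1_r0_ring1_3, s3f_1_r0_ring1_4, s3f_1_r0_ring1_5]

def s3f_1_r1_one0 : rowsOk stS3F s3f_1 s3f_1_m1 false .one = true := by decide +kernel

def s3f_1_r1_one1 : rowsOk stS3F s3f_1 s3f_1_m1 true .one = true := by decide +kernel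

def s3f_1_r1_two0 : rowsOk stS3F s3f_1 s3f_1_m1 false .two = true := by decide +kernel

def s3f_1_r1_two1 : rowsOk stS3F s3f_1 s3f_1_m1 true .two = true := by decide +kernel

def s3f_1_r1_twoE0 : rowsOk stS3F s3f_1 s3f_1_m1 false .twoE = true := by decide +kernel

def s3f_1_r1_twoE1 : rowsOk stS3F s3f_1 s3f_1_m1 true .twoE = true := by decide +kernel

def s3f_1_r1_thrR0 : rowsOk stS3F s3f_1 s3f_1_m1 false .thrR = true := by decide +kernel

def s3f_1_r1_thrR1 : rowsOk stS3F s3f_1 s3f_1_m1 true .thrR = true := by decide +kernel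

def s3f_1_r1_thrL0 : rowsOk stS3F s3f_1 s3f_1_m1 false .thrL = true := by decide +kernel

def s3f_1_r1_thrL1 : rowsOk stS3F s3f_1 s3f_1_m1 true .thrL = true := by decide +kernel

def s3f_1_r1_threeE0 : rowsOk stS3F s3f_1 s3f_1_m1 false .threeE = true := by decide +kernel

def s3f_1_r1_threeE1 : rowsOk stS3F s3f_1 s3f_1_m1 true .threeE = true := by decide +kernel

def s3f_1_r1_ring0 : rowsOk stS3F s3f_1 s3f_1_m1 false .ring = true := by decide +kernel

def s3f_1_r1_ring1 : rowsOk stS3F s3f_1 s3f_1_m1 true .ring = true := by decide +kernel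

theorem s3f_1_r0 : allRows stS3F s3f_1 s3f_1_m0 = true := by
  refine allRows_of fun P => ?_
  cases P
  exacts [⟨s3f_1_r0_one0, s3f_1_r0_one1⟩,
    ⟨s3f_1_r0_two0, s3f_1_r0_two1⟩,
    ⟨s3f_1_r0_twoE0, s3f_1_r0_twoE1⟩,
    ⟨s3f_1_r0_thrR0, s3f_1_r0_thrR1⟩,
    ⟨s3f_1_r0_thrL0, s3f_1_r0_thrL1⟩,
    ⟨s3f_1_r0_threeE0, s3f_1_r0_threeE1⟩,
    ⟨s3f_1_r0_ring0, s3f_1_r0_ring1⟩]

theorem s3f_1_r1 : allRows stS3F s3f_1 s3f_1_m1 = true := by
  refine allRows_of fun P => ?_
  cases P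
  exacts [⟨s3f_1_r1_one0, s3f_1_r1_one1⟩,
    ⟨s3f_1_r1_two0, s3f_1_r1_two1⟩,
    ⟨s3f_1_r1_twoE0, s3f_1_r1_twoE1⟩,
    ⟨s3f_1_r1_thrR0, s3f_1_r1_thrR1⟩,
    ⟨s3f_1_r1_thrL0, s3f_1_r1_thrL1⟩,
    ⟨s3f_1_r1_threeE0, s3f_1_r1_threeE1⟩,
    ⟨s3f_1_r1_ring0, s3f_1_r1_ring1⟩]

theorem s3f_1_ok : s3f_1.ok stS3F = true := by
  have h : (PC.all.all fun P => PC.all.all fun Q => pairOk stS3F s3f_1 P Q) = true := by decide +kernel
  have d0 : mdOk stS3F s3f_1_m0.md = true := by decide +kernel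
  have d1 : mdOk stS3F s3f_1_m1.md = true := by decide +kernel
  unfold Piece.ok
  rw [h, Bool.true_and]
  show List.all [s3f_1_m0, s3f_1_m1] _ = true
  rw [List.all_eq_true]
  intro m hm
  simp only [List.mem_cons, List.not_mem_nil, or_false] at hm
  rcases hm with rfl | rfl
  · rw [s3f_1_r0, d0]; rfl
  · rw [s3f_1_r1, d1]; rfl

end OR

end Pool.Agent.Work.MP_b30479_gtS.G2

end
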