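import Pool.Agent.Work.MP_b30479_gt.TBS.G2.OTab

set_option deprecated.oldSectionVars true

namespace Pool.Agent.Work.MP_b30479_gtS.G2

namespace OR

set_option linter.defProp false

def a2n_0_r2_twoE0 : rowsOk stA2 a2n_0 a2n_0_m2 false .twoE = true := by decide +kernel

def a2n_0_r2_twoE1 : rowsOk stA2 a2n_0 a2n_0_m2 true .twoE = true := by decide +kernel

def a2n_0_r2_thrR0 : rowsOk stA2 a2n_0 a2n_0_m2 false .thrR = true := by decide +kernel

def a2n_0_r2_thrR1_0 : cellOk stA2 a2n_0 a2n_0_m2 true .thrR ((stA2.bins .thrR).getD 0 b00)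
    ((a2n_0_m2.g true .thrR).getD 0 e00) = true := by decide +kernel

def a2n_0_r2_thrR1_1 : cellOk stA2 a2n_0 a2n_0_m2 true .thrR ((stA2.bins .thrR).getD 1 b00)
    ((a2n_0_m2.g true .thrR).getD 1 e00) = true := by decide +kernel

def a2n_0_r2_thrR1_2 : cellOk stA2 a2n_0 a2n_0_m2 true .thrR ((stA2.bins .thrR).getD 2 b00)
    ((a2n_0_m2.g true .thrR).getD 2 e00) = true := by decide +kernel

/-- check -/
def a2n_0_r2_thrR1_3_x0 : Ck := (cks stA2 a2n_0 a2n_0_m2 true .thrR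
    ((stA2.bins .thrR).getD 3 b00)
    ((a2n_0_m2.g true .thrR).getD 3 e00).g).getD 0 ckd

theorem a2n_0_r2_thrR1_3_k0 : ck1 a2n_0_r2_thrR1_3_x0 (((a2n_0_m2.g true .thrR).getD 3 e00).c.getD 0 0) = true := by
  decide +kernel

/-- check -/
def a2n_0_r2_thrR1_3_x1 : Ck := (cks stA2 a2n_0 a2n_0_m2 true .thrR
    ((stA2.bins .thrR).getD 3 b00)
    ((a2n_0_m2.g true .thrR).getD 3 e00).g).getD 1 ckd

theorem a2n_0_r2_thrR1_3_k1 : ck1 a2n_0_r2_thrR1_3_x1 (((a2n_0_m2.g true .thrR).getD 3 e00).c.getD 1 0) = true := by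
  decide +kernel

/-- check -/
def a2n_0_r2_thrR1_3_x2 : Ck := (cks stA2 a2n_0 a2n_0_m2 true .thrR
    ((stA2.bins .thrR).getD 3 b00)
    ((a2n_0_m2.g true .thrR).getD 3 e00).g).getD 2 ckd

theorem a2n_0_r2_thrR1_3_k2 : ck1 a2n_0_r2_thrR1_3_x2 (((a2n_0_m2.g true .thrR).getD 3 e00).c.getD 2 0) = true := by
  decide +kernel

/-- check -/
def a2n_0_r2_thrR1_3_x3 : Ck := (cks stA2 a2n_0 a2n_0_m2 true .thrR
    ((stA2.bins .thrR).getD 3 b00)
    ((a2n_0_m2.g true .thrR).getD 3 e00).g).getD 3 ckd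

theorem a2n_0_r2_thrR1_3_k3 : ck1 a2n_0_r2_thrR1_3_x3 (((a2n_0_m2.g true .thrR).getD 3 e00).c.getD 3 0) = true := by
  decide +kernel

/-- check -/
def a2n_0_r2_thrR1_3_x4 : Ck := (cks stA2 a2n_0 a2n_0_m2 true .thrR
    ((stA2.bins .thrR).getD 3 b00)
    ((a2n_0_m2.g true .thrR).getD 3 e00).g).getD 4 ckd

theorem a2n_0_r2_thrR1_3_k4 : ck1 a2n_0_r2_thrR1_3_x4 (((a2n_0_m2.g true .thrR).getD 3 e00).c.getD 4 0) = true := by
  decide +kernel

/-- check -/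
def a2n_0_r2_thrR1_3_x5 : Ck := (cks stA2 a2n_0 a2n_0_m2 true .thrR
    ((stA2.bins .thrR).getD 3 b00)
    ((a2n_0_m2.g true .thrR).getD 3 e00).g).getD 5 ckd

theorem a2n_0_r2_thrR1_3_k5 : ck1 a2n_0_r2_thrR1_3_x5 (((a2n_0_m2.g true .thrR).getD 3 e00).c.getD 5 0) = true := by
  decide +kernel

def a2n_0_r2_thrR1_3 : cellOk stA2 a2n_0 a2n_0_m2 true .thrR ((stA2.bins .thrR).getD 3 b00)
    ((a2n_0_m2.g true .thrR).getD 3 e00) = true :=
  cellOk_of 6 (by decide +kernel) (by decide +kernel) fun k hk => by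
    interval_cases k
    exacts [a2n_0_r2_thrR1_3_k0, a2n_0_r2_thrR1_3_k1, a2n_0_r2_thrR1_3_k2, a2n_0_r2_thrR1_3_k3, a2n_0_r2_thrR1_3_k4, a2n_0_r2_thrR1_3_k5]

def a2n_0_r2_thrR1_4 : cellOk stA2 a2n_0 a2n_0_m2 true .thrR ((stA2.bins .thrR).getD 4 b00)
    ((a2n_0_m2.g true .thrR).getD 4 e00) = true := by decide +kernel

def a2n_0_r2_thrR1_5 : cellOk stA2 a2n_0 a2n_0_m2 true .thrR ((stA2.bins .thrR).getD 5 b00)
    ((a2n_0_m2.g true .thrR).getD 5 e00) = true := by decide +kernel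

theorem a2n_0_r2_thrR1 : rowsOk stA2 a2n_0 a2n_0_m2 true .thrR = true := by
  refine rowsOk_of fun i hi => ?_
  have hi : i < 6 := hi
  interval_cases i
  exacts [a2n_0_r2_thrR1_0, a2n_0_r2_thrR1_1, a2n_0_r2_thrR1_2, a2n_0_r2_thrR1_3, a2n_0_r2_thrR1_4, a2n_0_r2_thrR1_5]

def a2n_0_r2_thrL0 : rowsOk stA2 a2n_0 a2n_0_m2 false .thrL = true := by decide +kernel

def a2n_0_r2_thrL1_0 : cellOk stA2 a2n_0 a2n_0_m2 true .thrL ((stA2.bins .thrL).getD 0 b00)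
    ((a2n_0_m2.g true .thrL).getD 0 e00) = true := by decide +kernel

def a2n_0_r2_thrL1_1 : cellOk stA2 a2n_0 a2n_0_m2 true .thrL ((stA2.bins .thrL).getD 1 b00)
    ((a2n_0_m2.g true .thrL).getD 1 e00) = true := by decide +kernel

def a2n_0_r2_thrL1_2 : cellOk stA2 a2n_0 a2n_0_m2 true .thrL ((stA2.bins .thrL).getD 2 b00)
    ((a2n_0_m2.g true .thrL).getD 2 e00) = true := by decide +kernel

def a2n_0_r2_thrL1_3 : cellOk stA2 a2n_0 a2n_0_m2 true .thrL ((stA2.bins .thrL).getD 3 b00)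
    ((a2n_0_m2.g true .thrL).getD 3 e00) = true := by decide +kernel

def a2n_0_r2_thrL1_4 : cellOk stA2 a2n_0 a2n_0_m2 true .thrL ((stA2.bins .thrL).getD 4 b00)
    ((a2n_0_m2.g true .thrL).getD 4 e00) = true := by decide +kernel

def a2n_0_r2_thrL1_5 : cellOk stA2 a2n_0 a2n_0_m2 true .thrL ((stA2.bins .thrL).getD 5 b00)
    ((a2n_0_m2.g true .thrL).getD 5 e00) = true := by decide +kernel

theorem a2n_0_r2_thrL1 : rowsOk stA2 a2n_0 a2n_0_m2 true .thrL = true := by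
  refine rowsOk_of fun i hi => ?_
  have hi : i < 6 := hi
  interval_cases i
  exacts [a2n_0_r2_thrL1_0, a2n_0_r2_thrL1_1, a2n_0_r2_thrL1_2, a2n_0_r2_thrL1_3, a2n_0_r2_thrL1_4, a2n_0_r2_thrL1_5]

def a2n_0_r2_threeE0 : rowsOk stA2 a2n_0 a2n_0_m2 false .threeE = true := by decide +kernel

def a2n_0_r2_threeE1 : rowsOk stA2 a2n_0 a2n_0_m2 true .threeE = true := by decide +kernel

def a2n_0_r2_ring0 : rowsOk stA2 a2n_0 a2n_0_m2 false .ring = true := by decide +kernel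

def a2n_0_r2_ring1 : rowsOk stA2 a2n_0 a2n_0_m2 true .ring = true := by decide +kernel

def a2n_0_r3_one0 : rowsOk stA2 a2n_0 a2n_0_m3 false .one = true := by decide +kernel

def a2n_0_r3_one1 : rowsOk stA2 a2n_0 a2n_0_m3 true .one = true := by decide +kernel

def a2n_0_r3_two0_0 : cellOk stA2 a2n_0 a2n_0_m3 false .two ((stA2.bins .two).getD 0 b00)
    ((a2n_0_m3.g false .two).getD 0 e00) = true := by decide +kernel

def a2n_0_r3_two0_1 : cellOk stA2 a2n_0 a2n_0_m3 false .two ((stA2.bins .two).getD 1 b00)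
    ((a2n_0_m3.g false .two).getD 1 e00) = true := by decide +kernel

def a2n_0_r3_two0_2 : cellOk stA2 a2n_0 a2n_0_m3 false .two ((stA2.bins .two).getD 2 b00)
    ((a2n_0_m3.g false .two).getD 2 e00) = true := by decide +kernel

def a2n_0_r3_two0_3 : cellOk stA2 a2n_0 a2n_0_m3 false .two ((stA2.bins .two).getD 3 b00)
    ((a2n_0_m3.g false .two).getD 3 e00) = true := by decide +kernel

def a2n_0_r3_two0_4 : cellOk stA2 a2n_0 a2n_0_m3 false .two ((stA2.bins .two).getD 4 b00)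
    ((a2n_0_m3.g false .two).getD 4 e00) = true := by decide +kernel

def a2n_0_r3_two0_5 : cellOk stA2 a2n_0 a2n_0_m3 false .two ((stA2.bins .two).getD 5 b00)
    ((a2n_0_m3.g false .two).getD 5 e00) = true := by decide +kernel

theorem a2n_0_r3_two0 : rowsOk stA2 a2n_0 a2n_0_m3 false .two = true := by
  refine rowsOk_of fun i hi => ?_
  have hi : i < 6 := hi
  interval_cases i
  exacts [a2n_0_r3_two0_0, a2n_0_r3_two0_1, a2n_0_r3_two0_2, a2n_0_r3_two0_3, a2n_0_r3_two0_4, a2n_0_r3_two0_5]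

end OR

end Pool.Agent.Work.MP_b30479_gtS.G2
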