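import Pool.Agent.Work.MP_b30479_gt.TBS.G2.OTab
import Pool.Agent.Work.MP_b30479_gt.TBS.NumU.Tree

section

set_option deprecated.oldSectionVars true

namespace Pool.Agent.Work.MP_b30479_gtS.G2

open NumUs

namespace OR

set_option linter.defProp false

def a2x_10_r3_two1 : rowsOk stA2X a2x_10 a2x_10_m3 true .two = true := by decide +kernel

def a2x_10_r3_twoE0 : rowsOk stA2X a2x_10 a2x_10_m3 false .twoE = true := by decide +kernel

def a2x_10_r3_twoE1 : rowsOk stA2X a2x_10 a2x_10_m3 true .twoE = true := by decide +kernel

def a2x_10_r3_thrR0 : rowsOk stA2X a2x_10 a2x_10_m3 false .thrR = true := by decide +kernel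

def a2x_10_r3_thrR1 : rowsOk stA2X a2x_10 a2x_10_m3 true .thrR = true := by decide +kernel

def a2x_10_r3_thrL0 : rowsOk stA2X a2x_10 a2x_10_m3 false .thrL = true := by decide +kernel

def a2x_10_r3_thrL1 : rowsOk stA2X a2x_10 a2x_10_m3 true .thrL = true := by decide +kernel

def a2x_10_r3_threeE0 : rowsOk stA2X a2x_10 a2x_10_m3 false .threeE = true := by decide +kernel

def a2x_10_r3_threeE1 : rowsOk stA2X a2x_10 a2x_10_m3 true .threeE = true := by decide +kernel

def a2x_10_r3_ring0_0 : cellOk stA2X a2x_10 a2x_10_m3 false .ring ((stA2X.bins .ring).getD 0 b00)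
    ((a2x_10_m3.g false .ring).getD 0 e00) = true := by decide +kernel

def a2x_10_r3_ring0_1 : cellOk stA2X a2x_10 a2x_10_m3 false .ring ((stA2X.bins .ring).getD 1 b00)
    ((a2x_10_m3.g false .ring).getD 1 e00) = true := by decide +kernel

def a2x_10_r3_ring0_2 : cellOk stA2X a2x_10 a2x_10_m3 false .ring ((stA2X.bins .ring).getD 2 b00)
    ((a2x_10_m3.g false .ring).getD 2 e00) = true := by decide +kernel

def a2x_10_r3_ring0_3 : cellOk stA2X a2x_10 a2x_10_m3 false .ring ((stA2X.bins .ring).getD 3 b00)
    ((a2x_10_m3.g false .ring).getD 3 e00) = true := by decide +kernel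

def a2x_10_r3_ring0_4 : cellOk stA2X a2x_10 a2x_10_m3 false .ring ((stA2X.bins .ring).getD 4 b00)
    ((a2x_10_m3.g false .ring).getD 4 e00) = true := by decide +kernel

def a2x_10_r3_ring0_5 : cellOk stA2X a2x_10 a2x_10_m3 false .ring ((stA2X.bins .ring).getD 5 b00)
    ((a2x_10_m3.g false .ring).getD 5 e00) = true := by decide +kernel

theorem a2x_10_r3_ring0 : rowsOk stA2X a2x_10 a2x_10_m3 false .ring = true := by
  refine rowsOk_of fun i hi => ?_
  have hi : i < 6 := hi
  interval_cases i
  exacts [a2x_10_r3_ring0_0, a2x_10_r3_ring0_1, a2x_10_r3_ring0_2, a2x_10_r3_ring0_3, a2x_10_r3_ring0_4, a2x_10_r3_ring0_5]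

/-- check -/
def a2x_10_r3_ring1_0_x0 : Ck := (cks stA2X a2x_10 a2x_10_m3 true .ring
    ((stA2X.bins .ring).getD 0 b00)
    ((a2x_10_m3.g true .ring).getD 0 e00).g).getD 0 ckd

theorem a2x_10_r3_ring1_0_k0 : ck1 a2x_10_r3_ring1_0_x0 (((a2x_10_m3.g true .ring).getD 0 e00).c.getD 0 0) = true := by
  decide +kernel

/-- check -/
def a2x_10_r3_ring1_0_x1 : Ck := (cks stA2X a2x_10 a2x_10_m3 true .ring
    ((stA2X.bins .ring).getD 0 b00)
    ((a2x_10_m3.g true .ring).getD 0 e00).g).getD 1 ckd

theorem a2x_10_r3_ring1_0_k1 : ck1 a2x_10_r3_ring1_0_x1 (((a2x_10_m3.g true .ring).getD 0 e00).c.getD 1 0) = true := by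
  decide +kernel

/-- check -/
def a2x_10_r3_ring1_0_x2 : Ck := (cks stA2X a2x_10 a2x_10_m3 true .ring
    ((stA2X.bins .ring).getD 0 b00)
    ((a2x_10_m3.g true .ring).getD 0 e00).g).getD 2 ckd

theorem a2x_10_r3_ring1_0_k2 : ck1 a2x_10_r3_ring1_0_x2 (((a2x_10_m3.g true .ring).getD 0 e00).c.getD 2 0) = true := by
  decide +kernel

/-- check -/
def a2x_10_r3_ring1_0_x3 : Ck := (cks stA2X a2x_10 a2x_10_m3 true .ring
    ((stA2X.bins .ring).getD 0 b00)
    ((a2x_10_m3.g true .ring).getD 0 e00).g).getD 3 ckd

theorem a2x_10_r3_ring1_0_k3 : ck1 a2x_10_r3_ring1_0_x3 (((a2x_10_m3.g true .ring).getD 0 e00).c.getD 3 0) = true := by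
  decide +kernel

/-- check -/
def a2x_10_r3_ring1_0_x4 : Ck := (cks stA2X a2x_10 a2x_10_m3 true .ring
    ((stA2X.bins .ring).getD 0 b00)
    ((a2x_10_m3.g true .ring).getD 0 e00).g).getD 4 ckd

theorem a2x_10_r3_ring1_0_k4_q1 : runT a2x_10_r3_ring1_0_x4.2.1 39
    1484190900523751006991536224403678887708604578703509522658541064984760778651689150919889958126482498197870742478267088216996841906166145447855881016835794739343148131612014636805832606050030335766314523497861402543462159167444619586376540451873138359257224139668834807414969306542727128748138790252789742153497363408884841069116167264317394395070847415846711566082666940154974286154580350664566424835250633291133307004233647928468487835525883345824629075351396813979536001902836971504888142077386410353768053566097629054682634350779284814578572597673729466577054466147703001810418261383992514367530828877241391275358163864561029846918066845462465472558162461979552973429658689602106390703003158974034433493528970834980485839674042464854831461555200292299631456191978741604105545400330860408901664267748304329618503704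
    (NumIs.setL 3 (a2x_10_r3_ring1_0_x4.2.2)) =
    92761931282734437936971014025229930481787786168969345166158816561547548665730571932493122382905156137366921404891693013562302619135384090490992563552237171208946758225750914800364537878126895985394657718616337658966384947965288724148533778242071147453576508729302175463435581658920445546758674390799358884593585213055302566819760454019837149691927963490419472880166683759685892884661271916535401552203164580695831687764602995529280489720367709114039317209462300873721000118927310719055508879836650647110503347881101815917664646923705300911160787354608091661065904134231437613151141336499532147970676804827586954709885241535064365432379177841404092034885153873722060839353668100131649418937697435877152093345560677186280364979627654053426966347200018268726966011998671350256596587520678775556354016734269020601156482 := by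
  decide +kernel

theorem a2x_10_r3_ring1_0_k4_q2 : runT a2x_10_r3_ring1_0_x4.2.1 38
    5797620705170902371060688376576870655111736635560584072884926035096721791608160745780820148931572258585432587805730813347643913695961505655687035222014823200559172389109432175022783617382930999087166107413521103685399059247830545259283361140129446715848531795581385966464723853682527846672417149424959930287099075815956410426235028376239821855745497718151217055010417734980368305291329494783462597012697786293489480485287687220580030607522981819627457325591393804607562507432956919940969304989790665444406459242568863494854040432731581306947549209663005728816619008389464850821946333531220759248167300301724184669367827595941522839523698615087755752180322117107628802459604256258228088683606089742322005834097542324142522811226728378339185396700001141795435375749916959391037286720042423472272126045891813787572280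
    (NumIs.setL 1 (NumIs.setR 3 (a2x_10_r3_ring1_0_x4.2.2))) =
    362351294073181398191293023536054415944483539722536504555307877193545111975510046611301259308223266161589536737858175834227744605997594103480439701375926450034948274319339510938923976086433187442947881713345068980337441202989409078705210071258090419740533237223836622904045240855157990417026071839059995642943692238497275651639689273514988865984093607384451065938151108436273019080708093423966412313293611643343092530330480451286251912970186363726716082849462112787972656714559807496310581561861916590275403702660553968428377527045723831684221825603937858051038688024341553176371645845701297453010456268857761541835489224746345177470231163442984734511270132319226800153725266016139255542725380608895125364631096395258907675701670523646199087293750071362214710984369809961939830420002651467017007877868238361723268 := by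
  decide +kernel

theorem a2x_10_r3_ring1_0_k4_q3 : runT a2x_10_r3_ring1_0_x4.2.1 37
    22646955879573837386955813971003400996530221232658531534706742324596569498469377913206328706763954135099346046116135989639234037874849631467527481335995403127184267144958719433682748505402074215184242607084066811271090075186838067419075629453630651233783327326489788931502827553447374401064129489941249727683980764906079728227480579594686804124005850461528191621134444277267063692544255838997900769580850727708943283145655028205390744560636647732919755178091382049248291044659987968519411347616369786892212731416284623026773595440357739480263864100246116128189918001521347073523227865356331090813153516803610096364718076546646573591889447715186545906954383269951675009607829126008703471420336288055945335289443524703681729731354407727887442955859379460138419436523113122621239401250165716688562992366764897607704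
    (NumIs.setL 3 (NumIs.setR 1 (NumIs.setR 3 (a2x_10_r3_ring1_0_x4.2.2)))) =
    1415434742473364836684738373187712562283138827041158220919171395287285593654336119575395544172747133443709127882258499352452127367178101966720467583499712695449016696559919964605171781587629638449015162942754175704443129699177379213692226840851915702111457957905611808218926722090460900066508093121328107980248797806629983014217536224667925257750365653845511976320902767329191480784015989937368798098803170481808955196603439262836921535039790483307484698630711378078018190291249248032463209226023111680763295713517788939173349715022358717516491506265382258011869875095084192095201741584770693175822094800225631022794879784165410849493090482199159119184648954371979688100489320375543966963771018003496583455590220293980108108209650482992965184741211216258651214782694570163827462578135357293035187022922806100482 := by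
  decide +kernel

theorem a2x_10_r3_ring1_0_k4_q4 : runT a2x_10_r3_ring1_0_x4.2.1 36
    88464671404585302292796148324232035142696176690072388807448212205455349603396007473462221510796695840231820492641156209528257960448631372920029223968732043465563543534994997787823236349226852403063447683922135981527695606198586200855764177553244731381966122369100738013682920130653806254156755820083006748765549862914373938388596014041745328609397853365344498520056422958074467549000999371085549881175198155113059699787714953927307595939986905206717793664419461129876136893203078002028950576626444480047705982094861808698334357188897419844780719141586391125741867193442762005950108849048168323488880925014101938924679986510338178093318155137447444949040559648248730506280582523471497935235688625218536465974388768373756756763103155187060324046325701016165700923918410635239216411133459830814699188932675381280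
    (NumIs.setL 1 (NumIs.setR 3 (NumIs.setR 1 (NumIs.setR 3 (a2x_10_r3_ring1_0_x4.2.2))))) =
    329556582140122735100970224753886592174679699130625981120199755599555930507913259690486719872045128942399548339252010768384702356340853023976196437957629723346097557004522523983654515256087677192179291262932628324358521424973704669087246721808778984032445111755656965127896219978681975059795215055655713188519887115487359234648183040476386728172741284092308947891207124881723774779591707032492570136395089906130208446784745730188889786377500389541379338742865104712084445704531215138841236295649574995218612186964086475589626868027811571377443966051885452589921158527742184720747578326792151940945092309318862627911120602899559505631469768052724916298093496442767718830259824259100474175943764393100650854313331724605548220735427570294813528829536218256375569566780368369963826280584409202690046984452 := by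
  decide +kernel

theorem a2x_10_r3_ring1_0_k4_q5 : runT a2x_10_r3_ring1_0_x4.2.1 35
    20597286383757670943810639047117912010917481195664123820012484724972245656744578730655419992002820558899971771203250673024043897271303313998512277372351857709131097312782657748978407203505479824511205703933289270272407589060856541817952920113048686502027819484728560320493513748667623441237200940978482074282492944717959952165511440029774170510796330255769309243200445305107735923724481689530785633524693119133138027924046608136805611648593774346336208671429069044505277856533200946177577268478098437201163261685255404724351679251738223211090247878242840786870072407983886545046723645424509496309068269332428914244445037681222469101966860503295307268630843527672982426891239016193779635996485274568790678394583232787846763795964223143425845551846013641023473097923773023122739142536525575168127936528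
    (NumIs.setL 3 (NumIs.setR 1 (NumIs.setR 3 (NumIs.setR 1 (NumIs.setR 3 (a2x_10_r3_ring1_0_x4.2.2)))))) =
    299729965390836455390827017939851968708062212618302493065311642203192541735837275783057266264263606847088838857645906290040058917239414789925100592843254820169111150793944510936539259324570300297800068858971488520508975329879562804387430079995082436682828403496075193404882356825220972550410092531506700823701873664947342362800721312375014102301739771148558200267150027577121158883157210796064255315645905198953376790800344433763611765587029721738307979415244612675528010826866389051102702338220819906581357087783623206259678107042247185179297926926561060636159853427436414422798023521674760505397982623725386136276138679840696118509613159451623611219559731073575420696451896455164818849829102321655819518412801448544585783325080747358527813803026418332934162723886737121541797278573002771 := by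
  decide +kernel

theorem a2x_10_r3_ring1_0_k4_q6 : runT a2x_10_r3_ring1_0_x4.2.1 34
    18733122836927278461926688621240748044253888288643905816581977637699533858489829736441079141516475427943052428602869143127503682327463424370318787052703426260569446924621531933533703707785643768612504303685718032531810958117472675274214379999692652292676775218504699587805147301576310784400630783219168801481367104059208897675045082023438381393858735696784887516696876723570072430197325674754015957227869074934586049425021527110225735349189357608644248713452788292220500676679149315693918896138801244161334817986476450391229881690140449073706120432910066289759990839214775901424876470104672531587373913982836633517258667490043507406850822465726475701222483192098463793528243528447801178114318895103488719900800090534036611457817546709907988362689151145808385170242921070096362329910812673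
    (NumIs.setL 2 (NumIs.setR 3 (NumIs.setR 1 (NumIs.setR 3 (NumIs.setR 1 (NumIs.setR 3 (a2x_10_r3_ring1_0_x4.2.2))))))) =
    375052685518005980618753830291784809077342193297386801984018286312502644738499858110554242126602749395863268692152869862779668967972484949682133923314698070882363854897950623704535565254828733772445895305393472005977773077710479954708778930333492797962983482533699685304180680372568578705158325412371984221322334802431026266280868758331321933453686445545857835515338311216668964398844293615502759032485928834992418519231053839034564472032700931653009817804386223965843318049385918848602821020914069205708765366567934524407964710366576265666159110882038477166785665789214889553127221301718048934878228358893790681316187397697397373955428851762 := by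
  decide +kernel

theorem a2x_10_r3_ring1_0_k4_q7 : runT a2x_10_r3_ring1_0_x4.2.1 33
    23440792844875373788672114393236550567333887081086675124001142894531415296156241131909640132912671837241454293259554366423729310498280309355133370207168629430147740931121913981533472828426795860777868456587092000373610817356904997169298683145843299872686467658356230331511292523285536169072395338273249013832645925151939141642554297395707620840855402846616114719708644451041810274927768350968922439530370552187026157451940864939660279502043808228313113612774138997865207378086619928037676313807129325356797835410495907775497794397911016604134944430127404822924104111825930597070451331357378058429889272430861917582261712356087335872214303235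
    (NumIs.setL 1 (NumIs.setR 2 (NumIs.setR 3 (NumIs.setR 1 (NumIs.setR 3 (NumIs.setR 1 (NumIs.setR 3 (a2x_10_r3_ring1_0_x4.2.2)))))))) =
    193060529778857758432955418928694008006057147498254329825648313912003258155302966359460792390785476690392618812809018214117141997431764674450305366972052884997748939266047720527737453060216041978219396228101111236513110550583980665151269738360379271980824837337705911119986147883763846268698531012399094558182071165649033634182389924296190938298378468826621268879718036964896520955972615293504432399744618494315781163221155672904092440037532641728055855264568367212336977297590032023710406054037633123820221193555589564151768596051690151631729173320939082244 := by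
  decide +kernel

theorem a2x_10_r3_ring1_0_k4_q8 : runT a2x_10_r3_ring1_0_x4.2.1 32
    12066283111178609902059713683043375500378571718640895614103019619500203634706435397466299524424092293149538675800563638382321374839485292153144085435753305312359308704127982532983590816263502623638712264256319452282069409411498791571954358647523704498801552333606619444999134242735240391793658188274943409886379447853064602136399370268511933643648654301663829304982377310306032559748288455844027024984038655894736322701322229556505777502345790108003490954035522950771061081099377001481900378377352070238763824597224347759485537253230634476983073332558692640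
    (NumIs.setL 3 (NumIs.setR 1 (NumIs.setR 2 (NumIs.setR 3 (NumIs.setR 1 (NumIs.setR 3 (NumIs.setR 1 (NumIs.setR 3 (a2x_10_r3_ring1_0_x4.2.2))))))))) =
    109268387529100231089083548559322234865543511335354971275835269350049123729240576973550766785591829569253144199859504581699137320502173324202017651403002527828604858401010842904974423675873368525903639416002812559628472389914281238620042843444505128939073325541741692620160435106378245800226733473976873862970133418907210925673270300711847019397528207628822195318940875652663313522570575583841453195214060374484882256295555975945110853610669687962390604825165789196692882903304945807649 := by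
  decide +kernel

theorem a2x_10_r3_ring1_0_k4_q9 : runT a2x_10_r3_ring1_0_x4.2.1 31
    6829274220568764443067721784957639679096469458459685704739704334378070233077536060846922924099489348078321512491219036356196082531385832762626103212687657989287803650063177681560901479742085532868977463500175784976779524369642577413752677715281570558692082846358855788760027194148640362514170842123554616435633338681700682854579393794490438712345512976801387207433804728291457095160660973990090824700878773405305141018472248496569428350666855497649412801572861824793305181456559112978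
    (NumIs.setL 0 (NumIs.setR 3 (NumIs.setR 1 (NumIs.setR 2 (NumIs.setR 3 (NumIs.setR 1 (NumIs.setR 3 (NumIs.setR 1 (NumIs.setR 3 (a2x_10_r3_ring1_0_x4.2.2)))))))))) =
    113098539608732641299088190411430547359618241422968158007802614949489790285832383163219096196855984393665804679437715834424445096367558897807653974969434879062422365228991407780495394788297410219080267361415163501312050068242042374907654822999764154611414200616273402161009257335373616372884372020194516708345545491 := by
  decide +kernel

theorem a2x_10_r3_ring1_0_k4_q10 : runT a2x_10_r3_ring1_0_x4.2.1 31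
    113098539608732641299088190411430547359618241422968158007802614949489790285832383163219096196855984393665804679437715834424445096367558897807653974969434879062422365228991407780495394788297410219080267361415163501312050068242042374907654822999764154611414200616273402161009257335373616372884372020194516708345545490
    (NumIs.setR 0 (NumIs.setR 3 (NumIs.setR 1 (NumIs.setR 2 (NumIs.setR 3 (NumIs.setR 1 (NumIs.setR 3 (NumIs.setR 1 (NumIs.setR 3 (a2x_10_r3_ring1_0_x4.2.2)))))))))) =
    1 := by
  decide +kernel

theorem a2x_10_r3_ring1_0_k4_c : chkT a2x_10_r3_ring1_0_x4.2.1 40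
    23747054408380016111864579590458862203337673259256152362536657039756172458427026414718239330023719971165931879652273411471949470498658327165694096269372715829490370105792234188893321696800485372261032375965782440695394546679113913382024647229970213748115586234701356918639508904683634059970220644044635874455957814542157457105858676229078310321133558653547385057322671042479588578473285610633062797364010132658132912067738366855495805368414133533194065205622349023672576030445391544078210273238182565660288857057562064874922149612468557033257161562779671465232871458363248028966692182143880229880493262035862260405730621832976477550689069527399447560930599391672847574874539033633702251248050543584550935896463533359687773434784679437677303384883204676794103299071659865665688726405293766542426628283972869273896059267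
    a2x_10_r3_ring1_0_x4.2.2 = true :=
  chkT_of (runT_split rfl rfl rfl
        a2x_10_r3_ring1_0_k4_q1
        (runT_split rfl rfl rfl
          a2x_10_r3_ring1_0_k4_q2
          (runT_split rfl rfl rfl
            a2x_10_r3_ring1_0_k4_q3
            (runT_split rfl rfl rfl
              a2x_10_r3_ring1_0_k4_q4
              (runT_split rfl rfl rfl
                a2x_10_r3_ring1_0_k4_q5
                (runT_split rfl rfl rfl
                  a2x_10_r3_ring1_0_k4_q6
                  (runT_split rfl rfl rfl
                    a2x_10_r3_ring1_0_k4_q7
                    (runT_split rfl rfl rfl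
                      a2x_10_r3_ring1_0_k4_q8
                      (runT_split rfl rfl rfl
                        a2x_10_r3_ring1_0_k4_q9
                        a2x_10_r3_ring1_0_k4_q10)))))))))

theorem a2x_10_r3_ring1_0_k4 : ck1 a2x_10_r3_ring1_0_x4 (((a2x_10_m3.g true .ring).getD 0 e00).c.getD 4 0) = true :=
  ck1_of (by decide +kernel) a2x_10_r3_ring1_0_k4_c

/-- check -/
def a2x_10_r3_ring1_0_x5 : Ck := (cks stA2X a2x_10 a2x_10_m3 true .ring
    ((stA2X.bins .ring).getD 0 b00)
    ((a2x_10_m3.g true .ring).getD 0 e00).g).getD 5 ckd

theorem a2x_10_r3_ring1_0_k5 : ck1 a2x_10_r3_ring1_0_x5 (((a2x_10_m3.g true .ring).getD 0 e00).c.getD 5 0) = true := by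
  decide +kernel

def a2x_10_r3_ring1_0 : cellOk stA2X a2x_10 a2x_10_m3 true .ring ((stA2X.bins .ring).getD 0 b00)
    ((a2x_10_m3.g true .ring).getD 0 e00) = true :=
  cellOk_of 6 (by decide +kernel) (by decide +kernel) fun k hk => by
    interval_cases k
    exacts [a2x_10_r3_ring1_0_k0, a2x_10_r3_ring1_0_k1, a2x_10_r3_ring1_0_k2, a2x_10_r3_ring1_0_k3, a2x_10_r3_ring1_0_k4, a2x_10_r3_ring1_0_k5]

def a2x_10_r3_ring1_1 : cellOk stA2X a2x_10 a2x_10_m3 true .ring ((stA2X.bins .ring).getD 1 b00)
    ((a2x_10_m3.g true .ring).getD 1 e00) = true := by decide +kernel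

def a2x_10_r3_ring1_2 : cellOk stA2X a2x_10 a2x_10_m3 true .ring ((stA2X.bins .ring).getD 2 b00)
    ((a2x_10_m3.g true .ring).getD 2 e00) = true := by decide +kernel

def a2x_10_r3_ring1_3 : cellOk stA2X a2x_10 a2x_10_m3 true .ring ((stA2X.bins .ring).getD 3 b00)
    ((a2x_10_m3.g true .ring).getD 3 e00) = true := by decide +kernel

def a2x_10_r3_ring1_4 : cellOk stA2X a2x_10 a2x_10_m3 true .ring ((stA2X.bins .ring).getD 4 b00)
    ((a2x_10_m3.g true .ring).getD 4 e00) = true := by decide +kernel

def a2x_10_r3_ring1_5 : cellOk stA2X a2x_10 a2x_10_m3 true .ring ((stA2X.bins .ring).getD 5 b00)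
    ((a2x_10_m3.g true .ring).getD 5 e00) = true := by decide +kernel

theorem a2x_10_r3_ring1 : rowsOk stA2X a2x_10 a2x_10_m3 true .ring = true := by
  refine rowsOk_of fun i hi => ?_
  have hi : i < 6 := hi
  interval_cases i
  exacts [a2x_10_r3_ring1_0, a2x_10_r3_ring1_1, a2x_10_r3_ring1_2, a2x_10_r3_ring1_3, a2x_10_r3_ring1_4, a2x_10_r3_ring1_5]

def a2x_10_r4_one0 : rowsOk stA2X a2x_10 a2x_10_m4 false .one = true := by decide +kernel

def a2x_10_r4_one1 : rowsOk stA2X a2x_10 a2x_10_m4 true .one = true := by decide +kernel

def a2x_10_r4_two0 : rowsOk stA2X a2x_10 a2x_10_m4 false .two = true := by decide +kernel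

def a2x_10_r4_two1 : rowsOk stA2X a2x_10 a2x_10_m4 true .two = true := by decide +kernel

def a2x_10_r4_twoE0 : rowsOk stA2X a2x_10 a2x_10_m4 false .twoE = true := by decide +kernel

def a2x_10_r4_twoE1 : rowsOk stA2X a2x_10 a2x_10_m4 true .twoE = true := by decide +kernel

def a2x_10_r4_thrR0 : rowsOk stA2X a2x_10 a2x_10_m4 false .thrR = true := by decide +kernel

def a2x_10_r4_thrR1 : rowsOk stA2X a2x_10 a2x_10_m4 true .thrR = true := by decide +kernel

def a2x_10_r4_thrL0 : rowsOk stA2X a2x_10 a2x_10_m4 false .thrL = true := by decide +kernel

def a2x_10_r4_thrL1 : rowsOk stA2X a2x_10 a2x_10_m4 true .thrL = true := by decide +kernel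

def a2x_10_r4_threeE0 : rowsOk stA2X a2x_10 a2x_10_m4 false .threeE = true := by decide +kernel

def a2x_10_r4_threeE1 : rowsOk stA2X a2x_10 a2x_10_m4 true .threeE = true := by decide +kernel

def a2x_10_r4_ring0 : rowsOk stA2X a2x_10 a2x_10_m4 false .ring = true := by decide +kernel

def a2x_10_r4_ring1 : rowsOk stA2X a2x_10 a2x_10_m4 true .ring = true := by decide +kernel

def a2x_10_r5_one0 : rowsOk stA2X a2x_10 a2x_10_m5 false .one = true := by decide +kernel

def a2x_10_r5_one1 : rowsOk stA2X a2x_10 a2x_10_m5 true .one = true := by decide +kernel

def a2x_10_r5_two0 : rowsOk stA2X a2x_10 a2x_10_m5 false .two = true := by decide +kernel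

def a2x_10_r5_two1 : rowsOk stA2X a2x_10 a2x_10_m5 true .two = true := by decide +kernel

def a2x_10_r5_twoE0 : rowsOk stA2X a2x_10 a2x_10_m5 false .twoE = true := by decide +kernel

def a2x_10_r5_twoE1 : rowsOk stA2X a2x_10 a2x_10_m5 true .twoE = true := by decide +kernel

def a2x_10_r5_thrR0 : rowsOk stA2X a2x_10 a2x_10_m5 false .thrR = true := by decide +kernel

def a2x_10_r5_thrR1 : rowsOk stA2X a2x_10 a2x_10_m5 true .thrR = true := by decide +kernel

def a2x_10_r5_thrL0 : rowsOk stA2X a2x_10 a2x_10_m5 false .thrL = true := by decide +kernel

def a2x_10_r5_thrL1 : rowsOk stA2X a2x_10 a2x_10_m5 true .thrL = true := by decide +kernel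

def a2x_10_r5_threeE0 : rowsOk stA2X a2x_10 a2x_10_m5 false .threeE = true := by decide +kernel

def a2x_10_r5_threeE1 : rowsOk stA2X a2x_10 a2x_10_m5 true .threeE = true := by decide +kernel

def a2x_10_r5_ring0 : rowsOk stA2X a2x_10 a2x_10_m5 false .ring = true := by decide +kernel

def a2x_10_r5_ring1 : rowsOk stA2X a2x_10 a2x_10_m5 true .ring = true := by decide +kernel

end OR

end Pool.Agent.Work.MP_b30479_gtS.G2

end

section

set_option deprecated.oldSectionVars true

namespace Pool.Agent.Work.MP_b30479_gtS.G2

open NumUs

namespace OR

/-- windows -/
def s3z_3_wp : PC → Win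
  | .one => ⟨0, 0, 0, 0, 0, 0⟩
  | .two => ⟨0, 0, 0, 0, 0, 0⟩
  | .twoE => ⟨0, 0, 0, 0, 0, 0⟩
  | .thrR => ⟨0, 0, 0, 0, 0, 0⟩
  | .thrL => ⟨0, 0, 0, 0, 0, 0⟩
  | .threeE => ⟨0, 0, 0, 0, 0, 0⟩
  | .ring => ⟨480, 1330, 470, 1500, -430, 610⟩

/-- windows -/
def s3z_3_wq : PC → Win
  | .one => ⟨-890, 290, -820, 330, -610, 430⟩
  | .two => ⟨0, 0, 0, 0, 0, 0⟩
  | .twoE => ⟨0, 0, 0, 0, 0, 0⟩
  | .thrR => ⟨0, 0, 0, 0, 0, 0⟩
  | .thrL => ⟨0, 0, 0, 0, 0, 0⟩
  | .threeE => ⟨0, 0, 0, 0, 0, 0⟩
  | .ring => ⟨0, 0, 0, 0, 0, 0⟩

/-- mode -/
def s3z_3_m0 : Mode where
  md := .V 150 1000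
  lam := 500
  ct := 500
  gp := fun
    | .one => [e00, e00, e00, e00, e00, e00, e00, e00]
    | .two => [e00, e00, e00, e00, e00, e00]
    | .twoE => [e00, e00, e00, e00, e00]
    | .thrR => [e00, e00, e00, e00, e00, e00]
    | .thrL => [e00, e00, e00, e00, e00]
    | .threeE => [e00, e00, e00, e00, e00, e00]
    | .ring => [e00, e00, e00, ⟨2153, [54313770336483642555708236692500968832727810354, 36532488211, 557441, 8, 10292548892531362252722482, 13]⟩, ⟨2153, [0, 0, 0, 0, 173041899118265215143022403523362, 559138]⟩, ⟨-2254, [0, 0, 0, 0, 2904072648763931679291300271189931885330, 8]⟩]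
  gq := fun
    | .one => [⟨1990, [8]⟩, ⟨1650, [2179]⟩, ⟨1650, [2179]⟩, ⟨1650, [557443]⟩, ⟨1650, [48537705341251715581697052350041634441566259250, 2396420783486995, 8, 8, 173074395027057965312585937068755, 190272463123028812191922053708545994958909986]⟩, ⟨-2757, [0, 0, 0, 0, 814711210969566616067580301340372737388017989340828371, 16577490385946262597024318936716884885314550758608711425660930542027130764123218059570]⟩, ⟨-2757, [0, 0, 0, 0, 557953, 143163697]⟩, ⟨-2757, [0, 0, 0, 0, 9356611950627, 10282999748634131908604195]⟩]
    | .two => [e00, e00, e00, e00, e00, e00]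
    | .twoE => [e00, e00, e00, e00, e00]
    | .thrR => [e00, e00, e00, e00, e00, e00]
    | .thrL => [e00, e00, e00, e00, e00]
    | .threeE => [e00, e00, e00, e00, e00, e00]
    | .ring => [e00, e00, e00, e00, e00, e00]

/-- mode -/
def s3z_3_m1 : Mode where
  md := .V 450 1000
  lam := 500
  ct := 1000
  gp := fun
    | .one => [e00, e00, e00, e00, e00, e00, e00, e00]
    | .two => [e00, e00, e00, e00, e00, e00]
    | .twoE => [e00, e00, e00, e00, e00]
    | .thrR => [e00, e00, e00, e00, e00, e00]
    | .thrL => [e00, e00, e00, e00, e00]
    | .threeE => [e00, e00, e00, e00, e00, e00]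
    | .ring => [e00, e00, e00, ⟨-318, [814330452147990564530139703923724566872458359821861170, 36532945171, 2177, 8, 40168367178916481732914, 13]⟩, ⟨-853, [0, 0, 0, 0, 49424516268232414809215471391728592337743129808050555631192731840407622340007255147525328216441938848022289542380973100228558019905567205820379766382265133507217747832702507322292516655905744896042227892808417539322701186710011106093741969826560739886770438473533891583986492317447398490515661503187727438170483945193465064367411732368168900298650484029756473520904813275895485638245197070243072072699884496428659426503138524941104241868568280293783363677155394956984136395797099378538129791262719660725470957867207318864468758081213579328683363851802120426274, 6272057377265440428137272258977378001982837680415575796360083132265129345826]⟩, e00]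
  gq := fun
    | .one => [⟨589, [8]⟩, ⟨249, [9380536288018]⟩, ⟨-286, [189864024564541353388098041096665000681086995]⟩, ⟨-286, [156907683193406631955]⟩, ⟨-286, [16539488387805121892826660429044886003780872441205469635432827126094765622631719272754, 2632474111437585623901812755, 8, 8, 12468982345202434809811578190936834915894932153043, 3858928791789980452641059922257222136650501959540802948933159611028739273250]⟩, e00, e00, e00]
    | .two => [e00, e00, e00, e00, e00, e00]
    | .twoE => [e00, e00, e00, e00, e00]
    | .thrR => [e00, e00, e00, e00, e00, e00]
    | .thrL => [e00, e00, e00, e00, e00]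
    | .threeE => [e00, e00, e00, e00, e00, e00]
    | .ring => [e00, e00, e00, e00, e00, e00]

/-- mode -/
def s3z_3_m2 : Mode where
  md := .V 550 1000
  lam := 250
  ct := 1000
  gp := fun
    | .one => [e00, e00, e00, e00, e00, e00, e00, e00]
    | .two => [e00, e00, e00, e00, e00, e00]
    | .twoE => [e00, e00, e00, e00, e00]
    | .thrR => [e00, e00, e00, e00, e00, e00]
    | .thrL => [e00, e00, e00, e00, e00]
    | .threeE => [e00, e00, e00, e00, e00, e00]
    | .ring => [e00, e00, e00, ⟨-313, [4228245646733185747592332911171347475596765962250667724925180367205024233157966252478770, 9380502733075, 557443, 8, 2894435989898779047710032136441815970098, 13]⟩, e00, e00]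
  gq := fun
    | .one => [⟨179, [142837777]⟩, ⟨9, [13681151954004603520398329885192903988969525940069320092680723]⟩, e00, e00, e00, e00, e00, e00]
    | .two => [e00, e00, e00, e00, e00, e00]
    | .twoE => [e00, e00, e00, e00, e00]
    | .thrR => [e00, e00, e00, e00, e00, e00]
    | .thrL => [e00, e00, e00, e00, e00]
    | .threeE => [e00, e00, e00, e00, e00, e00]
    | .ring => [e00, e00, e00, e00, e00, e00]

/-- piece -/
def s3z_3 : Piece := ⟨6680, 7020, -820, 820, s3z_3_wp, s3z_3_wq, [s3z_3_m0, s3z_3_m1, s3z_3_m2]⟩

set_option linter.defProp false

def s3z_3_r0_one0 : rowsOk stS3Z s3z_3 s3z_3_m0 false .one = true := by decide +kernel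

def s3z_3_r0_one1_0 : cellOk stS3Z s3z_3 s3z_3_m0 true .one ((stS3Z.bins .one).getD 0 b00)
    ((s3z_3_m0.g true .one).getD 0 e00) = true := by decide +kernel

def s3z_3_r0_one1_1 : cellOk stS3Z s3z_3 s3z_3_m0 true .one ((stS3Z.bins .one).getD 1 b00)
    ((s3z_3_m0.g true .one).getD 1 e00) = true := by decide +kernel

def s3z_3_r0_one1_2 : cellOk stS3Z s3z_3 s3z_3_m0 true .one ((stS3Z.bins .one).getD 2 b00)
    ((s3z_3_m0.g true .one).getD 2 e00) = true := by decide +kernel

def s3z_3_r0_one1_3 : cellOk stS3Z s3z_3 s3z_3_m0 true .one ((stS3Z.bins .one).getD 3 b00)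
    ((s3z_3_m0.g true .one).getD 3 e00) = true := by decide +kernel

def s3z_3_r0_one1_4 : cellOk stS3Z s3z_3 s3z_3_m0 true .one ((stS3Z.bins .one).getD 4 b00)
    ((s3z_3_m0.g true .one).getD 4 e00) = true := by decide +kernel

def s3z_3_r0_one1_5 : cellOk stS3Z s3z_3 s3z_3_m0 true .one ((stS3Z.bins .one).getD 5 b00)
    ((s3z_3_m0.g true .one).getD 5 e00) = true := by decide +kernel

def s3z_3_r0_one1_6 : cellOk stS3Z s3z_3 s3z_3_m0 true .one ((stS3Z.bins .one).getD 6 b00)
    ((s3z_3_m0.g true .one).getD 6 e00) = true := by decide +kernel

def s3z_3_r0_one1_7 : cellOk stS3Z s3z_3 s3z_3_m0 true .one ((stS3Z.bins .one).getD 7 b00)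
    ((s3z_3_m0.g true .one).getD 7 e00) = true := by decide +kernel

theorem s3z_3_r0_one1 : rowsOk stS3Z s3z_3 s3z_3_m0 true .one = true := by
  refine rowsOk_of fun i hi => ?_
  have hi : i < 8 := hi
  interval_cases i
  exacts [s3z_3_r0_one1_0, s3z_3_r0_one1_1, s3z_3_r0_one1_2, s3z_3_r0_one1_3, s3z_3_r0_one1_4, s3z_3_r0_one1_5, s3z_3_r0_one1_6, s3z_3_r0_one1_7]

def s3z_3_r0_two0 : rowsOk stS3Z s3z_3 s3z_3_m0 false .two = true := by decide +kernel

def s3z_3_r0_two1 : rowsOk stS3Z s3z_3 s3z_3_m0 true .two = true := by decide +kernel

def s3z_3_r0_twoE0 : rowsOk stS3Z s3z_3 s3z_3_m0 false .twoE = true := by decide +kernel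

def s3z_3_r0_twoE1 : rowsOk stS3Z s3z_3 s3z_3_m0 true .twoE = true := by decide +kernel

def s3z_3_r0_thrR0 : rowsOk stS3Z s3z_3 s3z_3_m0 false .thrR = true := by decide +kernel

def s3z_3_r0_thrR1 : rowsOk stS3Z s3z_3 s3z_3_m0 true .thrR = true := by decide +kernel

def s3z_3_r0_thrL0 : rowsOk stS3Z s3z_3 s3z_3_m0 false .thrL = true := by decide +kernel

def s3z_3_r0_thrL1 : rowsOk stS3Z s3z_3 s3z_3_m0 true .thrL = true := by decide +kernel

def s3z_3_r0_threeE0 : rowsOk stS3Z s3z_3 s3z_3_m0 false .threeE = true := by decide +kernel

def s3z_3_r0_threeE1 : rowsOk stS3Z s3z_3 s3z_3_m0 true .threeE = true := by decide +kernel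

def s3z_3_r0_ring0 : rowsOk stS3Z s3z_3 s3z_3_m0 false .ring = true := by decide +kernel

def s3z_3_r0_ring1 : rowsOk stS3Z s3z_3 s3z_3_m0 true .ring = true := by decide +kernel

def s3z_3_r1_one0 : rowsOk stS3Z s3z_3 s3z_3_m1 false .one = true := by decide +kernel

def s3z_3_r1_one1_0 : cellOk stS3Z s3z_3 s3z_3_m1 true .one ((stS3Z.bins .one).getD 0 b00)
    ((s3z_3_m1.g true .one).getD 0 e00) = true := by decide +kernel

def s3z_3_r1_one1_1 : cellOk stS3Z s3z_3 s3z_3_m1 true .one ((stS3Z.bins .one).getD 1 b00)
    ((s3z_3_m1.g true .one).getD 1 e00) = true := by decide +kernel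

def s3z_3_r1_one1_2 : cellOk stS3Z s3z_3 s3z_3_m1 true .one ((stS3Z.bins .one).getD 2 b00)
    ((s3z_3_m1.g true .one).getD 2 e00) = true := by decide +kernel

def s3z_3_r1_one1_3 : cellOk stS3Z s3z_3 s3z_3_m1 true .one ((stS3Z.bins .one).getD 3 b00)
    ((s3z_3_m1.g true .one).getD 3 e00) = true := by decide +kernel

def s3z_3_r1_one1_4 : cellOk stS3Z s3z_3 s3z_3_m1 true .one ((stS3Z.bins .one).getD 4 b00)
    ((s3z_3_m1.g true .one).getD 4 e00) = true := by decide +kernel

def s3z_3_r1_one1_5 : cellOk stS3Z s3z_3 s3z_3_m1 true .one ((stS3Z.bins .one).getD 5 b00)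
    ((s3z_3_m1.g true .one).getD 5 e00) = true := by decide +kernel

def s3z_3_r1_one1_6 : cellOk stS3Z s3z_3 s3z_3_m1 true .one ((stS3Z.bins .one).getD 6 b00)
    ((s3z_3_m1.g true .one).getD 6 e00) = true := by decide +kernel

def s3z_3_r1_one1_7 : cellOk stS3Z s3z_3 s3z_3_m1 true .one ((stS3Z.bins .one).getD 7 b00)
    ((s3z_3_m1.g true .one).getD 7 e00) = true := by decide +kernel

theorem s3z_3_r1_one1 : rowsOk stS3Z s3z_3 s3z_3_m1 true .one = true := by
  refine rowsOk_of fun i hi => ?_
  have hi : i < 8 := hi
  interval_cases i
  exacts [s3z_3_r1_one1_0, s3z_3_r1_one1_1, s3z_3_r1_one1_2, s3z_3_r1_one1_3, s3z_3_r1_one1_4, s3z_3_r1_one1_5, s3z_3_r1_one1_6, s3z_3_r1_one1_7]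

def s3z_3_r1_two0 : rowsOk stS3Z s3z_3 s3z_3_m1 false .two = true := by decide +kernel

def s3z_3_r1_two1 : rowsOk stS3Z s3z_3 s3z_3_m1 true .two = true := by decide +kernel

def s3z_3_r1_twoE0 : rowsOk stS3Z s3z_3 s3z_3_m1 false .twoE = true := by decide +kernel

def s3z_3_r1_twoE1 : rowsOk stS3Z s3z_3 s3z_3_m1 true .twoE = true := by decide +kernel

def s3z_3_r1_thrR0 : rowsOk stS3Z s3z_3 s3z_3_m1 false .thrR = true := by decide +kernel

def s3z_3_r1_thrR1 : rowsOk stS3Z s3z_3 s3z_3_m1 true .thrR = true := by decide +kernel

def s3z_3_r1_thrL0 : rowsOk stS3Z s3z_3 s3z_3_m1 false .thrL = true := by decide +kernel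

def s3z_3_r1_thrL1 : rowsOk stS3Z s3z_3 s3z_3_m1 true .thrL = true := by decide +kernel

def s3z_3_r1_threeE0 : rowsOk stS3Z s3z_3 s3z_3_m1 false .threeE = true := by decide +kernel

def s3z_3_r1_threeE1 : rowsOk stS3Z s3z_3 s3z_3_m1 true .threeE = true := by decide +kernel

def s3z_3_r1_ring0_0 : cellOk stS3Z s3z_3 s3z_3_m1 false .ring ((stS3Z.bins .ring).getD 0 b00)
    ((s3z_3_m1.g false .ring).getD 0 e00) = true := by decide +kernel

def s3z_3_r1_ring0_1 : cellOk stS3Z s3z_3 s3z_3_m1 false .ring ((stS3Z.bins .ring).getD 1 b00)
    ((s3z_3_m1.g false .ring).getD 1 e00) = true := by decide +kernel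

def s3z_3_r1_ring0_2 : cellOk stS3Z s3z_3 s3z_3_m1 false .ring ((stS3Z.bins .ring).getD 2 b00)
    ((s3z_3_m1.g false .ring).getD 2 e00) = true := by decide +kernel

def s3z_3_r1_ring0_3 : cellOk stS3Z s3z_3 s3z_3_m1 false .ring ((stS3Z.bins .ring).getD 3 b00)
    ((s3z_3_m1.g false .ring).getD 3 e00) = true := by decide +kernel

/-- check -/
def s3z_3_r1_ring0_4_x0 : Ck := (cks stS3Z s3z_3 s3z_3_m1 false .ring
    ((stS3Z.bins .ring).getD 4 b00)
    ((s3z_3_m1.g false .ring).getD 4 e00).g).getD 0 ckd

theorem s3z_3_r1_ring0_4_k0 : ck1 s3z_3_r1_ring0_4_x0 (((s3z_3_m1.g false .ring).getD 4 e00).c.getD 0 0) = true := by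
  decide +kernel

/-- check -/
def s3z_3_r1_ring0_4_x1 : Ck := (cks stS3Z s3z_3 s3z_3_m1 false .ring
    ((stS3Z.bins .ring).getD 4 b00)
    ((s3z_3_m1.g false .ring).getD 4 e00).g).getD 1 ckd

theorem s3z_3_r1_ring0_4_k1 : ck1 s3z_3_r1_ring0_4_x1 (((s3z_3_m1.g false .ring).getD 4 e00).c.getD 1 0) = true := by
  decide +kernel

/-- check -/
def s3z_3_r1_ring0_4_x2 : Ck := (cks stS3Z s3z_3 s3z_3_m1 false .ring
    ((stS3Z.bins .ring).getD 4 b00)
    ((s3z_3_m1.g false .ring).getD 4 e00).g).getD 2 ckd

theorem s3z_3_r1_ring0_4_k2 : ck1 s3z_3_r1_ring0_4_x2 (((s3z_3_m1.g false .ring).getD 4 e00).c.getD 2 0) = true := by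
  decide +kernel

/-- check -/
def s3z_3_r1_ring0_4_x3 : Ck := (cks stS3Z s3z_3 s3z_3_m1 false .ring
    ((stS3Z.bins .ring).getD 4 b00)
    ((s3z_3_m1.g false .ring).getD 4 e00).g).getD 3 ckd

theorem s3z_3_r1_ring0_4_k3 : ck1 s3z_3_r1_ring0_4_x3 (((s3z_3_m1.g false .ring).getD 4 e00).c.getD 3 0) = true := by
  decide +kernel

/-- check -/
def s3z_3_r1_ring0_4_x4 : Ck := (cks stS3Z s3z_3 s3z_3_m1 false .ring
    ((stS3Z.bins .ring).getD 4 b00)
    ((s3z_3_m1.g false .ring).getD 4 e00).g).getD 4 ckd

theorem s3z_3_r1_ring0_4_k4_q1 : runT s3z_3_r1_ring0_4_x4.2.1 39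
    3089032266764525925575966961983037021108945613003159726949545740025476396250453446720333013527621178001393096398810818764284876244097950363773735398891570844201109239543906707643282290994109056002639243300526096207668824169375694130858873114160046242923152404595868223999155769840462405657228843949232964885655246574591566522963233273010556268665655251859779595056550829743467852390324816890192004543742781026791214156446157808819015116785517518361460229822212184811508524737318711158633111953919978795341934866700457429029297380075848708042710240737632526642
    (NumIs.setL 2 (s3z_3_r1_ring0_4_x4.2.2)) =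
    2522233799726928459914496767181472752964877337286078970318792638348513819439224634246198381601822253930136784494628929100363682440111958099470979173285119923755781578362060685634052202915036561829291495301830431794146477911399129734968863961266278911574950696909794326301049023111586487291819348359997438572137824511080981846803165440219055513958503153172771 := by
  decide +kernel

theorem s3z_3_r1_ring0_4_k4_q2 : runT s3z_3_r1_ring0_4_x4.2.1 39
    2522233799726928459914496767181472752964877337286078970318792638348513819439224634246198381601822253930136784494628929100363682440111958099470979173285119923755781578362060685634052202915036561829291495301830431794146477911399129734968863961266278911574950696909794326301049023111586487291819348359997438572137824511080981846803165440219055513958503153172770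
    (NumIs.setR 2 (s3z_3_r1_ring0_4_x4.2.2)) =
    1 := by
  decide +kernel

theorem s3z_3_r1_ring0_4_k4_c : chkT s3z_3_r1_ring0_4_x4.2.1 40
    49424516268232414809215471391728592337743129808050555631192731840407622340007255147525328216441938848022289542380973100228558019905567205820379766382265133507217747832702507322292516655905744896042227892808417539322701186710011106093741969826560739886770438473533891583986492317447398490515661503187727438170483945193465064367411732368168900298650484029756473520904813275895485638245197070243072072699884496428659426503138524941104241868568280293783363677155394956984136395797099378538129791262719660725470957867207318864468758081213579328683363851802120426274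
    s3z_3_r1_ring0_4_x4.2.2 = true :=
  chkT_of (runT_split rfl rfl rfl
        s3z_3_r1_ring0_4_k4_q1
        s3z_3_r1_ring0_4_k4_q2)

theorem s3z_3_r1_ring0_4_k4 : ck1 s3z_3_r1_ring0_4_x4 (((s3z_3_m1.g false .ring).getD 4 e00).c.getD 4 0) = true :=
  ck1_of (by decide +kernel) s3z_3_r1_ring0_4_k4_c

/-- check -/
def s3z_3_r1_ring0_4_x5 : Ck := (cks stS3Z s3z_3 s3z_3_m1 false .ring
    ((stS3Z.bins .ring).getD 4 b00)
    ((s3z_3_m1.g false .ring).getD 4 e00).g).getD 5 ckd

theorem s3z_3_r1_ring0_4_k5 : ck1 s3z_3_r1_ring0_4_x5 (((s3z_3_m1.g false .ring).getD 4 e00).c.getD 5 0) = true := by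
  decide +kernel

def s3z_3_r1_ring0_4 : cellOk stS3Z s3z_3 s3z_3_m1 false .ring ((stS3Z.bins .ring).getD 4 b00)
    ((s3z_3_m1.g false .ring).getD 4 e00) = true :=
  cellOk_of 6 (by decide +kernel) (by decide +kernel) fun k hk => by
    interval_cases k
    exacts [s3z_3_r1_ring0_4_k0, s3z_3_r1_ring0_4_k1, s3z_3_r1_ring0_4_k2, s3z_3_r1_ring0_4_k3, s3z_3_r1_ring0_4_k4, s3z_3_r1_ring0_4_k5]

def s3z_3_r1_ring0_5 : cellOk stS3Z s3z_3 s3z_3_m1 false .ring ((stS3Z.bins .ring).getD 5 b00)
    ((s3z_3_m1.g false .ring).getD 5 e00) = true := by decide +kernel

theorem s3z_3_r1_ring0 : rowsOk stS3Z s3z_3 s3z_3_m1 false .ring = true := by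
  refine rowsOk_of fun i hi => ?_
  have hi : i < 6 := hi
  interval_cases i
  exacts [s3z_3_r1_ring0_0, s3z_3_r1_ring0_1, s3z_3_r1_ring0_2, s3z_3_r1_ring0_3, s3z_3_r1_ring0_4, s3z_3_r1_ring0_5]

def s3z_3_r1_ring1 : rowsOk stS3Z s3z_3 s3z_3_m1 true .ring = true := by decide +kernel

def s3z_3_r2_one0 : rowsOk stS3Z s3z_3 s3z_3_m2 false .one = true := by decide +kernel

def s3z_3_r2_one1 : rowsOk stS3Z s3z_3 s3z_3_m2 true .one = true := by decide +kernel

def s3z_3_r2_two0 : rowsOk stS3Z s3z_3 s3z_3_m2 false .two = true := by decide +kernel

def s3z_3_r2_two1 : rowsOk stS3Z s3z_3 s3z_3_m2 true .two = true := by decide +kernel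

def s3z_3_r2_twoE0 : rowsOk stS3Z s3z_3 s3z_3_m2 false .twoE = true := by decide +kernel

def s3z_3_r2_twoE1 : rowsOk stS3Z s3z_3 s3z_3_m2 true .twoE = true := by decide +kernel

def s3z_3_r2_thrR0 : rowsOk stS3Z s3z_3 s3z_3_m2 false .thrR = true := by decide +kernel

def s3z_3_r2_thrR1 : rowsOk stS3Z s3z_3 s3z_3_m2 true .thrR = true := by decide +kernel

def s3z_3_r2_thrL0 : rowsOk stS3Z s3z_3 s3z_3_m2 false .thrL = true := by decide +kernel

def s3z_3_r2_thrL1 : rowsOk stS3Z s3z_3 s3z_3_m2 true .thrL = true := by decide +kernel

def s3z_3_r2_threeE0 : rowsOk stS3Z s3z_3 s3z_3_m2 false .threeE = true := by decide +kernel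

def s3z_3_r2_threeE1 : rowsOk stS3Z s3z_3 s3z_3_m2 true .threeE = true := by decide +kernel

def s3z_3_r2_ring0 : rowsOk stS3Z s3z_3 s3z_3_m2 false .ring = true := by decide +kernel

def s3z_3_r2_ring1 : rowsOk stS3Z s3z_3 s3z_3_m2 true .ring = true := by decide +kernel

theorem s3z_3_r0 : allRows stS3Z s3z_3 s3z_3_m0 = true := by
  refine allRows_of fun P => ?_
  cases P
  exacts [⟨s3z_3_r0_one0, s3z_3_r0_one1⟩,
    ⟨s3z_3_r0_two0, s3z_3_r0_two1⟩,
    ⟨s3z_3_r0_twoE0, s3z_3_r0_twoE1⟩,
    ⟨s3z_3_r0_thrR0, s3z_3_r0_thrR1⟩,
    ⟨s3z_3_r0_thrL0, s3z_3_r0_thrL1⟩,
    ⟨s3z_3_r0_threeE0, s3z_3_r0_threeE1⟩,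
    ⟨s3z_3_r0_ring0, s3z_3_r0_ring1⟩]

theorem s3z_3_r1 : allRows stS3Z s3z_3 s3z_3_m1 = true := by
  refine allRows_of fun P => ?_
  cases P
  exacts [⟨s3z_3_r1_one0, s3z_3_r1_one1⟩,
    ⟨s3z_3_r1_two0, s3z_3_r1_two1⟩,
    ⟨s3z_3_r1_twoE0, s3z_3_r1_twoE1⟩,
    ⟨s3z_3_r1_thrR0, s3z_3_r1_thrR1⟩,
    ⟨s3z_3_r1_thrL0, s3z_3_r1_thrL1⟩,
    ⟨s3z_3_r1_threeE0, s3z_3_r1_threeE1⟩,
    ⟨s3z_3_r1_ring0, s3z_3_r1_ring1⟩]

theorem s3z_3_r2 : allRows stS3Z s3z_3 s3z_3_m2 = true := by
  refine allRows_of fun P => ?_
  cases P
  exacts [⟨s3z_3_r2_one0, s3z_3_r2_one1⟩,
    ⟨s3z_3_r2_two0, s3z_3_r2_two1⟩,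
    ⟨s3z_3_r2_twoE0, s3z_3_r2_twoE1⟩,
    ⟨s3z_3_r2_thrR0, s3z_3_r2_thrR1⟩,
    ⟨s3z_3_r2_thrL0, s3z_3_r2_thrL1⟩,
    ⟨s3z_3_r2_threeE0, s3z_3_r2_threeE1⟩,
    ⟨s3z_3_r2_ring0, s3z_3_r2_ring1⟩]

theorem s3z_3_ok : s3z_3.ok stS3Z = true := by
  have h : (PC.all.all fun P => PC.all.all fun Q => pairOk stS3Z s3z_3 P Q) = true := by decide +kernel
  have d0 : mdOk stS3Z s3z_3_m0.md = true := by decide +kernel
  have d1 : mdOk stS3Z s3z_3_m1.md = true := by decide +kernel
  have d2 : mdOk stS3Z s3z_3_m2.md = true := by decide +kernel
  unfold Piece.ok
  rw [h, Bool.true_and]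
  show List.all [s3z_3_m0, s3z_3_m1, s3z_3_m2] _ = true
  rw [List.all_eq_true]
  intro m hm
  simp only [List.mem_cons, List.not_mem_nil, or_false] at hm
  rcases hm with rfl | rfl | rfl
  · rw [s3z_3_r0, d0]; rfl
  · rw [s3z_3_r1, d1]; rfl
  · rw [s3z_3_r2, d2]; rfl

end OR

end Pool.Agent.Work.MP_b30479_gtS.G2

end
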