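import Pool.Agent.Work.MP_b30479_gt.TBS.G2.OTab

section

set_option deprecated.oldSectionVars true

namespace Pool.Agent.Work.MP_b30479_gtS.G2

namespace OR

set_option linter.defProp false

def a2x_8_r0_one0 : rowsOk stA2X a2x_8 a2x_8_m0 false .one = true := by decide +kernel

def a2x_8_r0_one1 : rowsOk stA2X a2x_8 a2x_8_m0 true .one = true := by decide +kernel

def a2x_8_r0_two0 : rowsOk stA2X a2x_8 a2x_8_m0 false .two = true := by decide +kernel

def a2x_8_r0_two1 : rowsOk stA2X a2x_8 a2x_8_m0 true .two = true := by decide +kernel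

def a2x_8_r0_twoE0 : rowsOk stA2X a2x_8 a2x_8_m0 false .twoE = true := by decide +kernel

def a2x_8_r0_twoE1 : rowsOk stA2X a2x_8 a2x_8_m0 true .twoE = true := by decide +kernel

def a2x_8_r0_thrR0 : rowsOk stA2X a2x_8 a2x_8_m0 false .thrR = true := by decide +kernel

def a2x_8_r0_thrR1 : rowsOk stA2X a2x_8 a2x_8_m0 true .thrR = true := by decide +kernel

def a2x_8_r0_thrL0 : rowsOk stA2X a2x_8 a2x_8_m0 false .thrL = true := by decide +kernel

def a2x_8_r0_thrL1 : rowsOk stA2X a2x_8 a2x_8_m0 true .thrL = true := by decide +kernel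

def a2x_8_r0_threeE0 : rowsOk stA2X a2x_8 a2x_8_m0 false .threeE = true := by decide +kernel

def a2x_8_r0_threeE1 : rowsOk stA2X a2x_8 a2x_8_m0 true .threeE = true := by decide +kernel

def a2x_8_r0_ring0_0 : cellOk stA2X a2x_8 a2x_8_m0 false .ring ((stA2X.bins .ring).getD 0 b00)
    ((a2x_8_m0.g false .ring).getD 0 e00) = true := by decide +kernel

def a2x_8_r0_ring0_1 : cellOk stA2X a2x_8 a2x_8_m0 false .ring ((stA2X.bins .ring).getD 1 b00)
    ((a2x_8_m0.g false .ring).getD 1 e00) = true := by decide +kernel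

def a2x_8_r0_ring0_2 : cellOk stA2X a2x_8 a2x_8_m0 false .ring ((stA2X.bins .ring).getD 2 b00)
    ((a2x_8_m0.g false .ring).getD 2 e00) = true := by decide +kernel

def a2x_8_r0_ring0_3 : cellOk stA2X a2x_8 a2x_8_m0 false .ring ((stA2X.bins .ring).getD 3 b00)
    ((a2x_8_m0.g false .ring).getD 3 e00) = true := by decide +kernel

def a2x_8_r0_ring0_4 : cellOk stA2X a2x_8 a2x_8_m0 false .ring ((stA2X.bins .ring).getD 4 b00)
    ((a2x_8_m0.g false .ring).getD 4 e00) = true := by decide +kernel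

def a2x_8_r0_ring0_5 : cellOk stA2X a2x_8 a2x_8_m0 false .ring ((stA2X.bins .ring).getD 5 b00)
    ((a2x_8_m0.g false .ring).getD 5 e00) = true := by decide +kernel

theorem a2x_8_r0_ring0 : rowsOk stA2X a2x_8 a2x_8_m0 false .ring = true := by
  refine rowsOk_of fun i hi => ?_
  have hi : i < 6 := hi
  interval_cases i
  exacts [a2x_8_r0_ring0_0, a2x_8_r0_ring0_1, a2x_8_r0_ring0_2, a2x_8_r0_ring0_3, a2x_8_r0_ring0_4, a2x_8_r0_ring0_5]

def a2x_8_r0_ring1 : rowsOk stA2X a2x_8 a2x_8_m0 true .ring = true := by decide +kernel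

def a2x_8_r1_one0 : rowsOk stA2X a2x_8 a2x_8_m1 false .one = true := by decide +kernel

def a2x_8_r1_one1 : rowsOk stA2X a2x_8 a2x_8_m1 true .one = true := by decide +kernel

def a2x_8_r1_two0 : rowsOk stA2X a2x_8 a2x_8_m1 false .two = true := by decide +kernel

def a2x_8_r1_two1 : rowsOk stA2X a2x_8 a2x_8_m1 true .two = true := by decide +kernel

def a2x_8_r1_twoE0 : rowsOk stA2X a2x_8 a2x_8_m1 false .twoE = true := by decide +kernel

def a2x_8_r1_twoE1 : rowsOk stA2X a2x_8 a2x_8_m1 true .twoE = true := by decide +kernel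

def a2x_8_r1_thrR0 : rowsOk stA2X a2x_8 a2x_8_m1 false .thrR = true := by decide +kernel

def a2x_8_r1_thrR1 : rowsOk stA2X a2x_8 a2x_8_m1 true .thrR = true := by decide +kernel

def a2x_8_r1_thrL0 : rowsOk stA2X a2x_8 a2x_8_m1 false .thrL = true := by decide +kernel

def a2x_8_r1_thrL1 : rowsOk stA2X a2x_8 a2x_8_m1 true .thrL = true := by decide +kernel

def a2x_8_r1_threeE0 : rowsOk stA2X a2x_8 a2x_8_m1 false .threeE = true := by decide +kernel

def a2x_8_r1_threeE1 : rowsOk stA2X a2x_8 a2x_8_m1 true .threeE = true := by decide +kernel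

def a2x_8_r1_ring0 : rowsOk stA2X a2x_8 a2x_8_m1 false .ring = true := by decide +kernel

end OR

end Pool.Agent.Work.MP_b30479_gtS.G2

end

section

set_option deprecated.oldSectionVars true

namespace Pool.Agent.Work.MP_b30479_gtS.G2

namespace OR

set_option linter.defProp false

def a2x_8_r1_ring1_0 : cellOk stA2X a2x_8 a2x_8_m1 true .ring ((stA2X.bins .ring).getD 0 b00)
    ((a2x_8_m1.g true .ring).getD 0 e00) = true := by decide +kernel

def a2x_8_r1_ring1_1 : cellOk stA2X a2x_8 a2x_8_m1 true .ring ((stA2X.bins .ring).getD 1 b00)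
    ((a2x_8_m1.g true .ring).getD 1 e00) = true := by decide +kernel

def a2x_8_r1_ring1_2 : cellOk stA2X a2x_8 a2x_8_m1 true .ring ((stA2X.bins .ring).getD 2 b00)
    ((a2x_8_m1.g true .ring).getD 2 e00) = true := by decide +kernel

def a2x_8_r1_ring1_3 : cellOk stA2X a2x_8 a2x_8_m1 true .ring ((stA2X.bins .ring).getD 3 b00)
    ((a2x_8_m1.g true .ring).getD 3 e00) = true := by decide +kernel

def a2x_8_r1_ring1_4 : cellOk stA2X a2x_8 a2x_8_m1 true .ring ((stA2X.bins .ring).getD 4 b00)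
    ((a2x_8_m1.g true .ring).getD 4 e00) = true := by decide +kernel

def a2x_8_r1_ring1_5 : cellOk stA2X a2x_8 a2x_8_m1 true .ring ((stA2X.bins .ring).getD 5 b00)
    ((a2x_8_m1.g true .ring).getD 5 e00) = true := by decide +kernel

theorem a2x_8_r1_ring1 : rowsOk stA2X a2x_8 a2x_8_m1 true .ring = true := by
  refine rowsOk_of fun i hi => ?_
  have hi : i < 6 := hi
  interval_cases i
  exacts [a2x_8_r1_ring1_0, a2x_8_r1_ring1_1, a2x_8_r1_ring1_2, a2x_8_r1_ring1_3, a2x_8_r1_ring1_4, a2x_8_r1_ring1_5]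

def a2x_8_r2_one0 : rowsOk stA2X a2x_8 a2x_8_m2 false .one = true := by decide +kernel

def a2x_8_r2_one1 : rowsOk stA2X a2x_8 a2x_8_m2 true .one = true := by decide +kernel

def a2x_8_r2_two0 : rowsOk stA2X a2x_8 a2x_8_m2 false .two = true := by decide +kernel

def a2x_8_r2_two1 : rowsOk stA2X a2x_8 a2x_8_m2 true .two = true := by decide +kernel

def a2x_8_r2_twoE0 : rowsOk stA2X a2x_8 a2x_8_m2 false .twoE = true := by decide +kernel

def a2x_8_r2_twoE1 : rowsOk stA2X a2x_8 a2x_8_m2 true .twoE = true := by decide +kernel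

def a2x_8_r2_thrR0 : rowsOk stA2X a2x_8 a2x_8_m2 false .thrR = true := by decide +kernel

def a2x_8_r2_thrR1 : rowsOk stA2X a2x_8 a2x_8_m2 true .thrR = true := by decide +kernel

def a2x_8_r2_thrL0 : rowsOk stA2X a2x_8 a2x_8_m2 false .thrL = true := by decide +kernel

def a2x_8_r2_thrL1 : rowsOk stA2X a2x_8 a2x_8_m2 true .thrL = true := by decide +kernel

def a2x_8_r2_threeE0 : rowsOk stA2X a2x_8 a2x_8_m2 false .threeE = true := by decide +kernel

def a2x_8_r2_threeE1 : rowsOk stA2X a2x_8 a2x_8_m2 true .threeE = true := by decide +kernel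

def a2x_8_r2_ring0 : rowsOk stA2X a2x_8 a2x_8_m2 false .ring = true := by decide +kernel

def a2x_8_r2_ring1 : rowsOk stA2X a2x_8 a2x_8_m2 true .ring = true := by decide +kernel

def a2x_8_r3_one0 : rowsOk stA2X a2x_8 a2x_8_m3 false .one = true := by decide +kernel

def a2x_8_r3_one1 : rowsOk stA2X a2x_8 a2x_8_m3 true .one = true := by decide +kernel

def a2x_8_r3_two0 : rowsOk stA2X a2x_8 a2x_8_m3 false .two = true := by decide +kernel

def a2x_8_r3_two1 : rowsOk stA2X a2x_8 a2x_8_m3 true .two = true := by decide +kernel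

def a2x_8_r3_twoE0 : rowsOk stA2X a2x_8 a2x_8_m3 false .twoE = true := by decide +kernel

def a2x_8_r3_twoE1 : rowsOk stA2X a2x_8 a2x_8_m3 true .twoE = true := by decide +kernel

def a2x_8_r3_thrR0 : rowsOk stA2X a2x_8 a2x_8_m3 false .thrR = true := by decide +kernel

def a2x_8_r3_thrR1 : rowsOk stA2X a2x_8 a2x_8_m3 true .thrR = true := by decide +kernel

def a2x_8_r3_thrL0 : rowsOk stA2X a2x_8 a2x_8_m3 false .thrL = true := by decide +kernel

def a2x_8_r3_thrL1 : rowsOk stA2X a2x_8 a2x_8_m3 true .thrL = true := by decide +kernel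

def a2x_8_r3_threeE0 : rowsOk stA2X a2x_8 a2x_8_m3 false .threeE = true := by decide +kernel

def a2x_8_r3_threeE1 : rowsOk stA2X a2x_8 a2x_8_m3 true .threeE = true := by decide +kernel

def a2x_8_r3_ring0_0 : cellOk stA2X a2x_8 a2x_8_m3 false .ring ((stA2X.bins .ring).getD 0 b00)
    ((a2x_8_m3.g false .ring).getD 0 e00) = true := by decide +kernel

def a2x_8_r3_ring0_1 : cellOk stA2X a2x_8 a2x_8_m3 false .ring ((stA2X.bins .ring).getD 1 b00)
    ((a2x_8_m3.g false .ring).getD 1 e00) = true := by decide +kernel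

def a2x_8_r3_ring0_2 : cellOk stA2X a2x_8 a2x_8_m3 false .ring ((stA2X.bins .ring).getD 2 b00)
    ((a2x_8_m3.g false .ring).getD 2 e00) = true := by decide +kernel

def a2x_8_r3_ring0_3 : cellOk stA2X a2x_8 a2x_8_m3 false .ring ((stA2X.bins .ring).getD 3 b00)
    ((a2x_8_m3.g false .ring).getD 3 e00) = true := by decide +kernel

def a2x_8_r3_ring0_4 : cellOk stA2X a2x_8 a2x_8_m3 false .ring ((stA2X.bins .ring).getD 4 b00)
    ((a2x_8_m3.g false .ring).getD 4 e00) = true := by decide +kernel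

def a2x_8_r3_ring0_5 : cellOk stA2X a2x_8 a2x_8_m3 false .ring ((stA2X.bins .ring).getD 5 b00)
    ((a2x_8_m3.g false .ring).getD 5 e00) = true := by decide +kernel

theorem a2x_8_r3_ring0 : rowsOk stA2X a2x_8 a2x_8_m3 false .ring = true := by
  refine rowsOk_of fun i hi => ?_
  have hi : i < 6 := hi
  interval_cases i
  exacts [a2x_8_r3_ring0_0, a2x_8_r3_ring0_1, a2x_8_r3_ring0_2, a2x_8_r3_ring0_3, a2x_8_r3_ring0_4, a2x_8_r3_ring0_5]

def a2x_8_r3_ring1_0 : cellOk stA2X a2x_8 a2x_8_m3 true .ring ((stA2X.bins .ring).getD 0 b00)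
    ((a2x_8_m3.g true .ring).getD 0 e00) = true := by decide +kernel

def a2x_8_r3_ring1_1 : cellOk stA2X a2x_8 a2x_8_m3 true .ring ((stA2X.bins .ring).getD 1 b00)
    ((a2x_8_m3.g true .ring).getD 1 e00) = true := by decide +kernel

def a2x_8_r3_ring1_2 : cellOk stA2X a2x_8 a2x_8_m3 true .ring ((stA2X.bins .ring).getD 2 b00)
    ((a2x_8_m3.g true .ring).getD 2 e00) = true := by decide +kernel

def a2x_8_r3_ring1_3 : cellOk stA2X a2x_8 a2x_8_m3 true .ring ((stA2X.bins .ring).getD 3 b00)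
    ((a2x_8_m3.g true .ring).getD 3 e00) = true := by decide +kernel

def a2x_8_r3_ring1_4 : cellOk stA2X a2x_8 a2x_8_m3 true .ring ((stA2X.bins .ring).getD 4 b00)
    ((a2x_8_m3.g true .ring).getD 4 e00) = true := by decide +kernel

def a2x_8_r3_ring1_5 : cellOk stA2X a2x_8 a2x_8_m3 true .ring ((stA2X.bins .ring).getD 5 b00)
    ((a2x_8_m3.g true .ring).getD 5 e00) = true := by decide +kernel

theorem a2x_8_r3_ring1 : rowsOk stA2X a2x_8 a2x_8_m3 true .ring = true := by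
  refine rowsOk_of fun i hi => ?_
  have hi : i < 6 := hi
  interval_cases i
  exacts [a2x_8_r3_ring1_0, a2x_8_r3_ring1_1, a2x_8_r3_ring1_2, a2x_8_r3_ring1_3, a2x_8_r3_ring1_4, a2x_8_r3_ring1_5]

def a2x_8_r4_one0 : rowsOk stA2X a2x_8 a2x_8_m4 false .one = true := by decide +kernel

def a2x_8_r4_one1 : rowsOk stA2X a2x_8 a2x_8_m4 true .one = true := by decide +kernel

def a2x_8_r4_two0 : rowsOk stA2X a2x_8 a2x_8_m4 false .two = true := by decide +kernel

def a2x_8_r4_two1 : rowsOk stA2X a2x_8 a2x_8_m4 true .two = true := by decide +kernel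

def a2x_8_r4_twoE0 : rowsOk stA2X a2x_8 a2x_8_m4 false .twoE = true := by decide +kernel

def a2x_8_r4_twoE1 : rowsOk stA2X a2x_8 a2x_8_m4 true .twoE = true := by decide +kernel

def a2x_8_r4_thrR0 : rowsOk stA2X a2x_8 a2x_8_m4 false .thrR = true := by decide +kernel

def a2x_8_r4_thrR1 : rowsOk stA2X a2x_8 a2x_8_m4 true .thrR = true := by decide +kernel

def a2x_8_r4_thrL0 : rowsOk stA2X a2x_8 a2x_8_m4 false .thrL = true := by decide +kernel

def a2x_8_r4_thrL1 : rowsOk stA2X a2x_8 a2x_8_m4 true .thrL = true := by decide +kernel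

def a2x_8_r4_threeE0 : rowsOk stA2X a2x_8 a2x_8_m4 false .threeE = true := by decide +kernel

def a2x_8_r4_threeE1 : rowsOk stA2X a2x_8 a2x_8_m4 true .threeE = true := by decide +kernel

def a2x_8_r4_ring0 : rowsOk stA2X a2x_8 a2x_8_m4 false .ring = true := by decide +kernel

def a2x_8_r4_ring1_0 : cellOk stA2X a2x_8 a2x_8_m4 true .ring ((stA2X.bins .ring).getD 0 b00)
    ((a2x_8_m4.g true .ring).getD 0 e00) = true := by decide +kernel

def a2x_8_r4_ring1_1 : cellOk stA2X a2x_8 a2x_8_m4 true .ring ((stA2X.bins .ring).getD 1 b00)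
    ((a2x_8_m4.g true .ring).getD 1 e00) = true := by decide +kernel

def a2x_8_r4_ring1_2 : cellOk stA2X a2x_8 a2x_8_m4 true .ring ((stA2X.bins .ring).getD 2 b00)
    ((a2x_8_m4.g true .ring).getD 2 e00) = true := by decide +kernel

def a2x_8_r4_ring1_3 : cellOk stA2X a2x_8 a2x_8_m4 true .ring ((stA2X.bins .ring).getD 3 b00)
    ((a2x_8_m4.g true .ring).getD 3 e00) = true := by decide +kernel

def a2x_8_r4_ring1_4 : cellOk stA2X a2x_8 a2x_8_m4 true .ring ((stA2X.bins .ring).getD 4 b00)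
    ((a2x_8_m4.g true .ring).getD 4 e00) = true := by decide +kernel

def a2x_8_r4_ring1_5 : cellOk stA2X a2x_8 a2x_8_m4 true .ring ((stA2X.bins .ring).getD 5 b00)
    ((a2x_8_m4.g true .ring).getD 5 e00) = true := by decide +kernel

theorem a2x_8_r4_ring1 : rowsOk stA2X a2x_8 a2x_8_m4 true .ring = true := by
  refine rowsOk_of fun i hi => ?_
  have hi : i < 6 := hi
  interval_cases i
  exacts [a2x_8_r4_ring1_0, a2x_8_r4_ring1_1, a2x_8_r4_ring1_2, a2x_8_r4_ring1_3, a2x_8_r4_ring1_4, a2x_8_r4_ring1_5]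

end OR

end Pool.Agent.Work.MP_b30479_gtS.G2

end

section

set_option deprecated.oldSectionVars true

namespace Pool.Agent.Work.MP_b30479_gtS.G2

namespace OR

theorem a2x_8_r0 : allRows stA2X a2x_8 a2x_8_m0 = true := by
  refine allRows_of fun P => ?_
  cases P
  exacts [⟨a2x_8_r0_one0, a2x_8_r0_one1⟩,
    ⟨a2x_8_r0_two0, a2x_8_r0_two1⟩,
    ⟨a2x_8_r0_twoE0, a2x_8_r0_twoE1⟩,
    ⟨a2x_8_r0_thrR0, a2x_8_r0_thrR1⟩,
    ⟨a2x_8_r0_thrL0, a2x_8_r0_thrL1⟩,
    ⟨a2x_8_r0_threeE0, a2x_8_r0_threeE1⟩,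
    ⟨a2x_8_r0_ring0, a2x_8_r0_ring1⟩]

theorem a2x_8_r1 : allRows stA2X a2x_8 a2x_8_m1 = true := by
  refine allRows_of fun P => ?_
  cases P
  exacts [⟨a2x_8_r1_one0, a2x_8_r1_one1⟩,
    ⟨a2x_8_r1_two0, a2x_8_r1_two1⟩,
    ⟨a2x_8_r1_twoE0, a2x_8_r1_twoE1⟩,
    ⟨a2x_8_r1_thrR0, a2x_8_r1_thrR1⟩,
    ⟨a2x_8_r1_thrL0, a2x_8_r1_thrL1⟩,
    ⟨a2x_8_r1_threeE0, a2x_8_r1_threeE1⟩,
    ⟨a2x_8_r1_ring0, a2x_8_r1_ring1⟩]

theorem a2x_8_r2 : allRows stA2X a2x_8 a2x_8_m2 = true := by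
  refine allRows_of fun P => ?_
  cases P
  exacts [⟨a2x_8_r2_one0, a2x_8_r2_one1⟩,
    ⟨a2x_8_r2_two0, a2x_8_r2_two1⟩,
    ⟨a2x_8_r2_twoE0, a2x_8_r2_twoE1⟩,
    ⟨a2x_8_r2_thrR0, a2x_8_r2_thrR1⟩,
    ⟨a2x_8_r2_thrL0, a2x_8_r2_thrL1⟩,
    ⟨a2x_8_r2_threeE0, a2x_8_r2_threeE1⟩,
    ⟨a2x_8_r2_ring0, a2x_8_r2_ring1⟩]

theorem a2x_8_r3 : allRows stA2X a2x_8 a2x_8_m3 = true := by
  refine allRows_of fun P => ?_
  cases P
  exacts [⟨a2x_8_r3_one0, a2x_8_r3_one1⟩,
    ⟨a2x_8_r3_two0, a2x_8_r3_two1⟩,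
    ⟨a2x_8_r3_twoE0, a2x_8_r3_twoE1⟩,
    ⟨a2x_8_r3_thrR0, a2x_8_r3_thrR1⟩,
    ⟨a2x_8_r3_thrL0, a2x_8_r3_thrL1⟩,
    ⟨a2x_8_r3_threeE0, a2x_8_r3_threeE1⟩,
    ⟨a2x_8_r3_ring0, a2x_8_r3_ring1⟩]

theorem a2x_8_r4 : allRows stA2X a2x_8 a2x_8_m4 = true := by
  refine allRows_of fun P => ?_
  cases P
  exacts [⟨a2x_8_r4_one0, a2x_8_r4_one1⟩,
    ⟨a2x_8_r4_two0, a2x_8_r4_two1⟩,
    ⟨a2x_8_r4_twoE0, a2x_8_r4_twoE1⟩,
    ⟨a2x_8_r4_thrR0, a2x_8_r4_thrR1⟩,
    ⟨a2x_8_r4_thrL0, a2x_8_r4_thrL1⟩,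
    ⟨a2x_8_r4_threeE0, a2x_8_r4_threeE1⟩,
    ⟨a2x_8_r4_ring0, a2x_8_r4_ring1⟩]

theorem a2x_8_ok : a2x_8.ok stA2X = true := by
  have h : (PC.all.all fun P => PC.all.all fun Q => pairOk stA2X a2x_8 P Q) = true := by decide +kernel
  have d0 : mdOk stA2X a2x_8_m0.md = true := by decide +kernel
  have d1 : mdOk stA2X a2x_8_m1.md = true := by decide +kernel
  have d2 : mdOk stA2X a2x_8_m2.md = true := by decide +kernel
  have d3 : mdOk stA2X a2x_8_m3.md = true := by decide +kernel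
  have d4 : mdOk stA2X a2x_8_m4.md = true := by decide +kernel
  unfold Piece.ok
  rw [h, Bool.true_and]
  show List.all [a2x_8_m0, a2x_8_m1, a2x_8_m2, a2x_8_m3, a2x_8_m4] _ = true
  rw [List.all_eq_true]
  intro m hm
  simp only [List.mem_cons, List.not_mem_nil, or_false] at hm
  rcases hm with rfl | rfl | rfl | rfl | rfl
  · rw [a2x_8_r0, d0]; rfl
  · rw [a2x_8_r1, d1]; rfl
  · rw [a2x_8_r2, d2]; rfl
  · rw [a2x_8_r3, d3]; rfl
  · rw [a2x_8_r4, d4]; rfl

end OR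

end Pool.Agent.Work.MP_b30479_gtS.G2

end
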