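import Pool.Agent.Work.MP_b30479_gt.TBS.G2.OTab

set_option deprecated.oldSectionVars true

namespace Pool.Agent.Work.MP_b30479_gtS.G2

namespace OR

/-- windows -/
def a2x_9_wp : PC → Win
  | .one => ⟨0, 0, 0, 0, 0, 0⟩
  | .two => ⟨-230, 550, -220, 680, 0, 530⟩
  | .twoE => ⟨0, 0, 0, 0, 0, 0⟩
  | .thrR => ⟨100, 700, 100, 850, 0, 480⟩
  | .thrL => ⟨100, 700, 100, 850, 0, 480⟩
  | .threeE => ⟨-20, 390, 230, 810, 20, 650⟩
  | .ring => ⟨390, 1200, 310, 1120, 0, 320⟩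

/-- windows -/
def a2x_9_wq : PC → Win
  | .one => ⟨0, 0, 0, 0, 0, 0⟩
  | .two => ⟨-230, 550, -220, 680, -320, 0⟩
  | .twoE => ⟨0, 0, 0, 0, 0, 0⟩
  | .thrR => ⟨100, 700, 100, 850, -270, 0⟩
  | .thrL => ⟨100, 700, 100, 850, -270, 0⟩
  | .threeE => ⟨0, 0, 0, 0, 0, 0⟩
  | .ring => ⟨390, 1200, 150, 1120, -650, 0⟩

/-- mode -/
def a2x_9_m0 : Mode where
  md := .V 300 1000
  lam := 1500
  ct := 2000
  gp := fun
    | .one => [e00, e00, e00, e00, e00, e00, e00, e00]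
    | .two => [⟨1172, [36566106754, 2179, 8, 8, 2179, 2179]⟩, ⟨-1171, [0, 53695711283, 2177, 8, 613483611861561906, 36650365490]⟩, ⟨-1895, [0, 0, 0, 0, 9449331917699, 8]⟩, ⟨-1895, [0, 0, 0, 0, 8, 8]⟩, ⟨-1895, [0, 0, 0, 0, 8, 8]⟩, e00]
    | .twoE => [e00, e00, e00, e00, e00, e00]
    | .thrR => [⟨1007, [2178]⟩, ⟨1007, [2179, 2179, 8, 8, 559154, 13]⟩, ⟨-1618, [0, 0, 0, 0, 40861008771, 8]⟩, ⟨-2060, [0, 0, 0, 0, 2178, 8]⟩, ⟨-2060, [0, 0, 0, 0, 8, 8]⟩, ⟨-2060, [0, 0, 0, 0, 2178, 2178]⟩]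
    | .thrL => [⟨1007, [36644815490, 2179, 8, 8, 0, 0]⟩, ⟨-781, [40827584899, 2179, 8, 8, 143163698, 13]⟩, ⟨-1618, [0, 0, 0, 0, 40861008771, 8]⟩, ⟨-2060, [0, 0, 0, 0, 2178, 8]⟩, ⟨-2060, [0, 0, 0, 0, 8, 8]⟩, ⟨-2060, [0, 0, 0, 0, 2178, 2178]⟩]
    | .threeE => [⟨1412, [557698]⟩, ⟨-931, [9352350537763, 2179, 8, 8, 143164194, 143164194]⟩, ⟨-1655, [0, 0, 0, 0, 8, 8]⟩, ⟨-1655, [0, 0, 0, 0, 8, 8]⟩, ⟨-1658, [0, 0, 0, 0, 8, 8]⟩, ⟨-2362, [0, 0, 0, 0, 8, 8]⟩]
    | .ring => [⟨-222, [9360940479106, 143143043, 159613825, 8, 2686691055862659, 8]⟩, ⟨-222, [0, 14072597708931, 10549380350851, 8, 9361285462066, 13]⟩, ⟨-691, [0, 0, 0, 0, 2684472724128643, 8]⟩, ⟨-988, [0, 0, 0, 0, 9451110675075, 8]⟩, ⟨-1734, [0, 0, 0, 0, 40298752188512249980978, 8]⟩, ⟨-3222, [0, 0, 0, 0, 2178, 2178]⟩]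
  gq := fun
    | .one => [e00, e00, e00, e00, e00, e00, e00, e00]
    | .two => [⟨1118, [36566106754, 2179, 8, 8, 2179, 2179]⟩, ⟨-1116, [0, 2179, 8, 8, 9381157024306, 36650365490]⟩, ⟨-1882, [0, 0, 0, 0, 2179, 8]⟩, ⟨-1882, [0, 0, 0, 0, 8, 8]⟩, ⟨-1882, [0, 0, 0, 0, 8, 8]⟩, e00]
    | .twoE => [e00, e00, e00, e00, e00, e00]
    | .thrR => [⟨953, [2178]⟩, ⟨-535, [559155, 2179, 8, 8, 143164210, 13]⟩, ⟨-1578, [0, 0, 0, 0, 2179, 8]⟩, ⟨-2047, [0, 0, 0, 0, 2178, 8]⟩, ⟨-2047, [0, 0, 0, 0, 8, 8]⟩, ⟨-2047, [0, 0, 0, 0, 2178, 2178]⟩]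
    | .thrL => [⟨953, [36644815490, 2179, 8, 8, 0, 0]⟩, ⟨-535, [2179, 2179, 8, 8, 143164210, 13]⟩, ⟨-1578, [0, 0, 0, 0, 2179, 8]⟩, ⟨-2047, [0, 0, 0, 0, 8, 8]⟩, ⟨-2047, [0, 0, 0, 0, 8, 8]⟩, ⟨-2047, [0, 0, 0, 0, 2178, 2178]⟩]
    | .threeE => [e00, e00, e00, e00, e00, e00]
    | .ring => [⟨-209, [142836354, 2179, 8, 8, 142836099, 8]⟩, ⟨-209, [0, 2179, 8, 8, 142837810, 13]⟩, ⟨-651, [0, 0, 0, 0, 36549264259, 8]⟩, ⟨-933, [0, 0, 0, 0, 143135363, 8]⟩, ⟨-1488, [0, 0, 0, 0, 614891125434647330, 8]⟩, ⟨-3276, [0, 0, 0, 0, 557954, 142836354]⟩]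

/-- mode -/
def a2x_9_m1 : Mode where
  md := .V 600 1000
  lam := 500
  ct := 2500
  gp := fun
    | .one => [e00, e00, e00, e00, e00, e00, e00, e00]
    | .two => [⟨-367, [741656320097700958053906577584270485230370, 2179, 8, 8, 559155, 559155]⟩, ⟨-464, [0, 2179, 8, 8, 36650365490, 36650365490]⟩, e00, e00, e00, e00]
    | .twoE => [e00, e00, e00, e00, e00, e00]
    | .thrR => [⟨-519, [2633683332414115203034321442]⟩, ⟨-519, [559155, 2179, 8, 8, 143163698, 13]⟩, ⟨-519, [0, 0, 0, 0, 8, 8]⟩, e00, e00, e00]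
    | .thrL => [⟨-519, [4666073703229880422478842384424111939369841802785347953899102823974045568108920966373783328175362594, 2179, 8, 8, 0, 0]⟩, ⟨-519, [2179, 2179, 8, 8, 143163698, 13]⟩, ⟨-519, [0, 0, 0, 0, 8, 8]⟩, e00, e00, e00]
    | .threeE => [⟨-384, [36566108194]⟩, ⟨-384, [559123, 8, 8, 8, 143164194, 143164194]⟩, e00, e00, e00, e00]
    | .ring => [⟨-370, [2396420800264226, 2179, 557955, 8, 36691805059, 8]⟩, ⟨-370, [0, 819331, 9382364647811, 8, 2396422135101490, 13]⟩, ⟨-370, [0, 0, 0, 0, 2179, 8]⟩, ⟨-370, [0, 0, 0, 0, 142772259, 8]⟩, e00, e00]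
  gq := fun
    | .one => [e00, e00, e00, e00, e00, e00, e00, e00]
    | .two => [⟨-334, [613483729066821682, 2179, 8, 8, 2179, 2179]⟩, ⟨-334, [0, 2179, 8, 8, 36650365490, 36650365490]⟩, e00, e00, e00, e00]
    | .twoE => [e00, e00, e00, e00, e00, e00]
    | .thrR => [⟨-389, [142837810]⟩, ⟨-389, [559155, 2179, 8, 8, 143164210, 13]⟩, ⟨-389, [0, 0, 0, 0, 8, 8]⟩, e00, e00, e00]
    | .thrL => [⟨-389, [2401888310036530, 2179, 8, 8, 0, 0]⟩, ⟨-389, [2179, 2179, 8, 8, 143164210, 13]⟩, ⟨-389, [0, 0, 0, 0, 8, 8]⟩, e00, e00, e00]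
    | .threeE => [e00, e00, e00, e00, e00, e00]
    | .ring => [⟨-240, [612915625248065586, 36643025283, 676083958593983175096395116931, 8, 190258858477729452440987334449625633692812163, 8]⟩, ⟨-240, [0, 9657259327875, 36650029443, 8, 40291256902429720459314, 13]⟩, ⟨-337, [0, 0, 0, 0, 2395322607743363, 8]⟩, e00, e00, e00]

/-- mode -/
def a2x_9_m2 : Mode where
  md := .V 450 1000
  lam := 750
  ct := 2000
  gp := fun
    | .one => [e00, e00, e00, e00, e00, e00, e00, e00]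
    | .two => [⟨-165, [740975755363859081127053329504946928821026, 2179, 8, 8, 559123, 2179]⟩, e00, e00, e00, e00, e00]
    | .twoE => [e00, e00, e00, e00, e00, e00]
    | .thrR => [⟨-248, [613202185466446626]⟩, ⟨-248, [559155, 2179, 8, 8, 559154, 13]⟩, e00, e00, e00, e00]
    | .thrL => [⟨-248, [44307018955727637581303185136624418, 2179, 8, 8, 0, 0]⟩, ⟨-248, [2179, 2179, 8, 8, 559154, 13]⟩, e00, e00, e00, e00]
    | .threeE => [⟨-45, [36566108178]⟩, e00, e00, e00, e00, e00]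
    | .ring => [e00, e00, e00, e00, ⟨-1053, [0, 0, 0, 0, 40291400729547479614242, 3458]⟩, e00]
  gq := fun
    | .one => [e00, e00, e00, e00, e00, e00, e00, e00]
    | .two => [⟨-1, [9360940106370, 2179, 8, 8, 2179, 2179]⟩, e00, e00, e00, e00, e00]
    | .twoE => [e00, e00, e00, e00, e00, e00]
    | .thrR => [⟨-84, [557954]⟩, e00, e00, e00, e00, e00]
    | .thrL => [⟨-84, [36644815490, 2179, 8, 8, 0, 0]⟩, e00, e00, e00, e00, e00]
    | .threeE => [e00, e00, e00, e00, e00, e00]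
    | .ring => [e00, e00, e00, ⟨-889, [0, 0, 0, 0, 10316055807761751211520643, 8]⟩, ⟨-889, [0, 0, 0, 0, 189864017944477684988286584620431756026282786, 885378]⟩, e00]

/-- mode -/
def a2x_9_m3 : Mode where
  md := .V 150 1000
  lam := 1250
  ct := 1000
  gp := fun
    | .one => [e00, e00, e00, e00, e00, e00, e00, e00]
    | .two => [e00, e00, e00, e00, e00, ⟨-2849, [0, 0, 0, 0, 58894859606913376501734889490521043006825985590294645027378800829367074, 157412087425564574338]⟩]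
    | .twoE => [e00, e00, e00, e00, e00, e00]
    | .thrR => [e00, e00, e00, e00, e00, e00]
    | .thrL => [e00, e00, e00, e00, e00, e00]
    | .threeE => [e00, e00, e00, e00, e00, e00]
    | .ring => [⟨1057, [214079496103492414534976238992384885978728498, 194711104963528120465261071963011, 4342202887934827114264178783049002498113281350381714190212978893726563177347, 8, 20505473496815947196416349007065893322342800937293223131290449032409467066480551116912731016926083, 8]⟩, ⟨1057, [0, 27340634059787649054656277838970246004447447038674734784453718384280701300657775693177733905383555, 235391382936416993042749517807551295926208324175840940931, 8, 3591647235886449790167004414533179557312693811623986, 13]⟩, ⟨1057, [0, 0, 0, 0, 2684464134194051, 8]⟩, ⟨1057, [0, 0, 0, 0, 36911460995, 8]⟩, ⟨1057, [0, 0, 0, 0, 8, 8]⟩, ⟨-1626, [0, 0, 0, 0, 8, 8]⟩]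
  gq := fun
    | .one => [e00, e00, e00, e00, e00, e00, e00, e00]
    | .two => [e00, e00, e00, e00, e00, ⟨-2811, [0, 0, 0, 0, 40186822361099567989538, 676080446020870270435457139330]⟩]
    | .twoE => [e00, e00, e00, e00, e00, e00]
    | .thrR => [e00, e00, e00, e00, e00, e00]
    | .thrL => [e00, e00, e00, e00, e00, e00]
    | .threeE => [e00, e00, e00, e00, e00, e00]
    | .ring => [⟨1095, [613477467021652610, 2642123934973070169738412419, 65661118605249940257404860442571100011444428569625384514268527149154689, 8, 378244590340839256207318663177685660173955326647788976685927975999146473476834907173779034164192854369146973441982851, 8]⟩, ⟨1095, [0, 1115037259859876971810207737375359043142019, 12760131945703838418393152120070177153, 8, 48560180827486573849949105684610499622462822450, 13]⟩, ⟨1095, [0, 0, 0, 0, 557443, 8]⟩, ⟨1095, [0, 0, 0, 0, 2178, 8]⟩, ⟨1095, [0, 0, 0, 0, 8, 8]⟩, ⟨-1621, [0, 0, 0, 0, 8, 8]⟩]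

/-- mode -/
def a2x_9_m4 : Mode where
  md := .V 600 1000
  lam := 250
  ct := 2500
  gp := fun
    | .one => [e00, e00, e00, e00, e00, e00, e00, e00]
    | .two => [⟨-447, [5628096335064120505429070069484522141668796571826052577929667298164957326471946677397154270882521654906534504172714032443938, 2179, 8, 8, 559155, 559155]⟩, e00, e00, e00, e00, e00]
    | .twoE => [e00, e00, e00, e00, e00, e00]
    | .thrR => [e00, e00, e00, e00, e00, e00]
    | .thrL => [e00, e00, e00, e00, e00, e00]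
    | .threeE => [e00, e00, e00, e00, e00, e00]
    | .ring => [e00, e00, e00, e00, e00, e00]
  gq := fun
    | .one => [e00, e00, e00, e00, e00, e00, e00, e00]
    | .two => [e00, e00, e00, e00, e00, e00]
    | .twoE => [e00, e00, e00, e00, e00, e00]
    | .thrR => [e00, e00, e00, e00, e00, e00]
    | .thrL => [e00, e00, e00, e00, e00, e00]
    | .threeE => [e00, e00, e00, e00, e00, e00]
    | .ring => [⟨93, [2394201739397170, 557443, 614890986603557251, 8, 40168369424771786572675, 8]⟩, ⟨93, [0, 143143299, 559153, 8, 156906405218790610994, 13]⟩, e00, e00, e00, e00]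

/-- mode -/
def a2x_9_m5 : Mode where
  md := .V 600 1000
  lam := 1250
  ct := 2000
  gp := fun
    | .one => [e00, e00, e00, e00, e00, e00, e00, e00]
    | .two => [e00, e00, e00, e00, e00, e00]
    | .twoE => [e00, e00, e00, e00, e00, e00]
    | .thrR => [e00, ⟨-894, [143163699, 2179, 8, 8, 143163698, 13]⟩, e00, e00, e00, e00]
    | .thrL => [e00, e00, e00, e00, e00, e00]
    | .threeE => [e00, e00, e00, e00, e00, e00]
    | .ring => [e00, e00, e00, e00, e00, e00]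
  gq := fun
    | .one => [e00, e00, e00, e00, e00, e00, e00, e00]
    | .two => [e00, e00, e00, e00, e00, e00]
    | .twoE => [e00, e00, e00, e00, e00, e00]
    | .thrR => [e00, e00, e00, e00, e00, e00]
    | .thrL => [e00, e00, e00, e00, e00, e00]
    | .threeE => [e00, e00, e00, e00, e00, e00]
    | .ring => [e00, ⟨-998, [0, 2179, 8, 8, 142837810, 13]⟩, e00, e00, e00, e00]

/-- piece -/
def a2x_9 : Piece := ⟨8400, 8500, 0, 820, a2x_9_wp, a2x_9_wq, [a2x_9_m0, a2x_9_m1, a2x_9_m2, a2x_9_m3, a2x_9_m4, a2x_9_m5]⟩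

set_option linter.defProp false

def a2x_9_r0_one0 : rowsOk stA2X a2x_9 a2x_9_m0 false .one = true := by decide +kernel

def a2x_9_r0_one1 : rowsOk stA2X a2x_9 a2x_9_m0 true .one = true := by decide +kernel

def a2x_9_r0_two0 : rowsOk stA2X a2x_9 a2x_9_m0 false .two = true := by decide +kernel

def a2x_9_r0_two1 : rowsOk stA2X a2x_9 a2x_9_m0 true .two = true := by decide +kernel

def a2x_9_r0_twoE0 : rowsOk stA2X a2x_9 a2x_9_m0 false .twoE = true := by decide +kernel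

def a2x_9_r0_twoE1 : rowsOk stA2X a2x_9 a2x_9_m0 true .twoE = true := by decide +kernel

def a2x_9_r0_thrR0 : rowsOk stA2X a2x_9 a2x_9_m0 false .thrR = true := by decide +kernel

def a2x_9_r0_thrR1 : rowsOk stA2X a2x_9 a2x_9_m0 true .thrR = true := by decide +kernel

def a2x_9_r0_thrL0 : rowsOk stA2X a2x_9 a2x_9_m0 false .thrL = true := by decide +kernel

def a2x_9_r0_thrL1 : rowsOk stA2X a2x_9 a2x_9_m0 true .thrL = true := by decide +kernel

def a2x_9_r0_threeE0 : rowsOk stA2X a2x_9 a2x_9_m0 false .threeE = true := by decide +kernel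

def a2x_9_r0_threeE1 : rowsOk stA2X a2x_9 a2x_9_m0 true .threeE = true := by decide +kernel

def a2x_9_r0_ring0 : rowsOk stA2X a2x_9 a2x_9_m0 false .ring = true := by decide +kernel

def a2x_9_r0_ring1 : rowsOk stA2X a2x_9 a2x_9_m0 true .ring = true := by decide +kernel

def a2x_9_r1_one0 : rowsOk stA2X a2x_9 a2x_9_m1 false .one = true := by decide +kernel

def a2x_9_r1_one1 : rowsOk stA2X a2x_9 a2x_9_m1 true .one = true := by decide +kernel

def a2x_9_r1_two0 : rowsOk stA2X a2x_9 a2x_9_m1 false .two = true := by decide +kernel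

def a2x_9_r1_two1 : rowsOk stA2X a2x_9 a2x_9_m1 true .two = true := by decide +kernel

def a2x_9_r1_twoE0 : rowsOk stA2X a2x_9 a2x_9_m1 false .twoE = true := by decide +kernel

def a2x_9_r1_twoE1 : rowsOk stA2X a2x_9 a2x_9_m1 true .twoE = true := by decide +kernel

def a2x_9_r1_thrR0 : rowsOk stA2X a2x_9 a2x_9_m1 false .thrR = true := by decide +kernel

def a2x_9_r1_thrR1 : rowsOk stA2X a2x_9 a2x_9_m1 true .thrR = true := by decide +kernel

def a2x_9_r1_thrL0 : rowsOk stA2X a2x_9 a2x_9_m1 false .thrL = true := by decide +kernel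

def a2x_9_r1_thrL1 : rowsOk stA2X a2x_9 a2x_9_m1 true .thrL = true := by decide +kernel

def a2x_9_r1_threeE0 : rowsOk stA2X a2x_9 a2x_9_m1 false .threeE = true := by decide +kernel

def a2x_9_r1_threeE1 : rowsOk stA2X a2x_9 a2x_9_m1 true .threeE = true := by decide +kernel

def a2x_9_r1_ring0 : rowsOk stA2X a2x_9 a2x_9_m1 false .ring = true := by decide +kernel

def a2x_9_r1_ring1 : rowsOk stA2X a2x_9 a2x_9_m1 true .ring = true := by decide +kernel

def a2x_9_r2_one0 : rowsOk stA2X a2x_9 a2x_9_m2 false .one = true := by decide +kernel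

def a2x_9_r2_one1 : rowsOk stA2X a2x_9 a2x_9_m2 true .one = true := by decide +kernel

def a2x_9_r2_two0 : rowsOk stA2X a2x_9 a2x_9_m2 false .two = true := by decide +kernel

def a2x_9_r2_two1 : rowsOk stA2X a2x_9 a2x_9_m2 true .two = true := by decide +kernel

def a2x_9_r2_twoE0 : rowsOk stA2X a2x_9 a2x_9_m2 false .twoE = true := by decide +kernel

def a2x_9_r2_twoE1 : rowsOk stA2X a2x_9 a2x_9_m2 true .twoE = true := by decide +kernel

def a2x_9_r2_thrR0 : rowsOk stA2X a2x_9 a2x_9_m2 false .thrR = true := by decide +kernel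

def a2x_9_r2_thrR1 : rowsOk stA2X a2x_9 a2x_9_m2 true .thrR = true := by decide +kernel

def a2x_9_r2_thrL0 : rowsOk stA2X a2x_9 a2x_9_m2 false .thrL = true := by decide +kernel

def a2x_9_r2_thrL1 : rowsOk stA2X a2x_9 a2x_9_m2 true .thrL = true := by decide +kernel

def a2x_9_r2_threeE0 : rowsOk stA2X a2x_9 a2x_9_m2 false .threeE = true := by decide +kernel

def a2x_9_r2_threeE1 : rowsOk stA2X a2x_9 a2x_9_m2 true .threeE = true := by decide +kernel

def a2x_9_r2_ring0 : rowsOk stA2X a2x_9 a2x_9_m2 false .ring = true := by decide +kernel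

def a2x_9_r2_ring1 : rowsOk stA2X a2x_9 a2x_9_m2 true .ring = true := by decide +kernel

def a2x_9_r3_one0 : rowsOk stA2X a2x_9 a2x_9_m3 false .one = true := by decide +kernel

def a2x_9_r3_one1 : rowsOk stA2X a2x_9 a2x_9_m3 true .one = true := by decide +kernel

def a2x_9_r3_two0 : rowsOk stA2X a2x_9 a2x_9_m3 false .two = true := by decide +kernel

def a2x_9_r3_two1 : rowsOk stA2X a2x_9 a2x_9_m3 true .two = true := by decide +kernel

def a2x_9_r3_twoE0 : rowsOk stA2X a2x_9 a2x_9_m3 false .twoE = true := by decide +kernel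

def a2x_9_r3_twoE1 : rowsOk stA2X a2x_9 a2x_9_m3 true .twoE = true := by decide +kernel

def a2x_9_r3_thrR0 : rowsOk stA2X a2x_9 a2x_9_m3 false .thrR = true := by decide +kernel

def a2x_9_r3_thrR1 : rowsOk stA2X a2x_9 a2x_9_m3 true .thrR = true := by decide +kernel

def a2x_9_r3_thrL0 : rowsOk stA2X a2x_9 a2x_9_m3 false .thrL = true := by decide +kernel

def a2x_9_r3_thrL1 : rowsOk stA2X a2x_9 a2x_9_m3 true .thrL = true := by decide +kernel

def a2x_9_r3_threeE0 : rowsOk stA2X a2x_9 a2x_9_m3 false .threeE = true := by decide +kernel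

def a2x_9_r3_threeE1 : rowsOk stA2X a2x_9 a2x_9_m3 true .threeE = true := by decide +kernel

def a2x_9_r3_ring0_0 : cellOk stA2X a2x_9 a2x_9_m3 false .ring ((stA2X.bins .ring).getD 0 b00)
    ((a2x_9_m3.g false .ring).getD 0 e00) = true := by decide +kernel

def a2x_9_r3_ring0_1 : cellOk stA2X a2x_9 a2x_9_m3 false .ring ((stA2X.bins .ring).getD 1 b00)
    ((a2x_9_m3.g false .ring).getD 1 e00) = true := by decide +kernel

def a2x_9_r3_ring0_2 : cellOk stA2X a2x_9 a2x_9_m3 false .ring ((stA2X.bins .ring).getD 2 b00)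
    ((a2x_9_m3.g false .ring).getD 2 e00) = true := by decide +kernel

def a2x_9_r3_ring0_3 : cellOk stA2X a2x_9 a2x_9_m3 false .ring ((stA2X.bins .ring).getD 3 b00)
    ((a2x_9_m3.g false .ring).getD 3 e00) = true := by decide +kernel

def a2x_9_r3_ring0_4 : cellOk stA2X a2x_9 a2x_9_m3 false .ring ((stA2X.bins .ring).getD 4 b00)
    ((a2x_9_m3.g false .ring).getD 4 e00) = true := by decide +kernel

def a2x_9_r3_ring0_5 : cellOk stA2X a2x_9 a2x_9_m3 false .ring ((stA2X.bins .ring).getD 5 b00)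
    ((a2x_9_m3.g false .ring).getD 5 e00) = true := by decide +kernel

theorem a2x_9_r3_ring0 : rowsOk stA2X a2x_9 a2x_9_m3 false .ring = true := by
  refine rowsOk_of fun i hi => ?_
  have hi : i < 6 := hi
  interval_cases i
  exacts [a2x_9_r3_ring0_0, a2x_9_r3_ring0_1, a2x_9_r3_ring0_2, a2x_9_r3_ring0_3, a2x_9_r3_ring0_4, a2x_9_r3_ring0_5]

def a2x_9_r3_ring1_0 : cellOk stA2X a2x_9 a2x_9_m3 true .ring ((stA2X.bins .ring).getD 0 b00)
    ((a2x_9_m3.g true .ring).getD 0 e00) = true := by decide +kernel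

def a2x_9_r3_ring1_1 : cellOk stA2X a2x_9 a2x_9_m3 true .ring ((stA2X.bins .ring).getD 1 b00)
    ((a2x_9_m3.g true .ring).getD 1 e00) = true := by decide +kernel

def a2x_9_r3_ring1_2 : cellOk stA2X a2x_9 a2x_9_m3 true .ring ((stA2X.bins .ring).getD 2 b00)
    ((a2x_9_m3.g true .ring).getD 2 e00) = true := by decide +kernel

def a2x_9_r3_ring1_3 : cellOk stA2X a2x_9 a2x_9_m3 true .ring ((stA2X.bins .ring).getD 3 b00)
    ((a2x_9_m3.g true .ring).getD 3 e00) = true := by decide +kernel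

def a2x_9_r3_ring1_4 : cellOk stA2X a2x_9 a2x_9_m3 true .ring ((stA2X.bins .ring).getD 4 b00)
    ((a2x_9_m3.g true .ring).getD 4 e00) = true := by decide +kernel

def a2x_9_r3_ring1_5 : cellOk stA2X a2x_9 a2x_9_m3 true .ring ((stA2X.bins .ring).getD 5 b00)
    ((a2x_9_m3.g true .ring).getD 5 e00) = true := by decide +kernel

theorem a2x_9_r3_ring1 : rowsOk stA2X a2x_9 a2x_9_m3 true .ring = true := by
  refine rowsOk_of fun i hi => ?_
  have hi : i < 6 := hi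
  interval_cases i
  exacts [a2x_9_r3_ring1_0, a2x_9_r3_ring1_1, a2x_9_r3_ring1_2, a2x_9_r3_ring1_3, a2x_9_r3_ring1_4, a2x_9_r3_ring1_5]

def a2x_9_r4_one0 : rowsOk stA2X a2x_9 a2x_9_m4 false .one = true := by decide +kernel

def a2x_9_r4_one1 : rowsOk stA2X a2x_9 a2x_9_m4 true .one = true := by decide +kernel

def a2x_9_r4_two0 : rowsOk stA2X a2x_9 a2x_9_m4 false .two = true := by decide +kernel

def a2x_9_r4_two1 : rowsOk stA2X a2x_9 a2x_9_m4 true .two = true := by decide +kernel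

def a2x_9_r4_twoE0 : rowsOk stA2X a2x_9 a2x_9_m4 false .twoE = true := by decide +kernel

def a2x_9_r4_twoE1 : rowsOk stA2X a2x_9 a2x_9_m4 true .twoE = true := by decide +kernel

def a2x_9_r4_thrR0 : rowsOk stA2X a2x_9 a2x_9_m4 false .thrR = true := by decide +kernel

def a2x_9_r4_thrR1 : rowsOk stA2X a2x_9 a2x_9_m4 true .thrR = true := by decide +kernel

def a2x_9_r4_thrL0 : rowsOk stA2X a2x_9 a2x_9_m4 false .thrL = true := by decide +kernel

def a2x_9_r4_thrL1 : rowsOk stA2X a2x_9 a2x_9_m4 true .thrL = true := by decide +kernel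

def a2x_9_r4_threeE0 : rowsOk stA2X a2x_9 a2x_9_m4 false .threeE = true := by decide +kernel

def a2x_9_r4_threeE1 : rowsOk stA2X a2x_9 a2x_9_m4 true .threeE = true := by decide +kernel

def a2x_9_r4_ring0 : rowsOk stA2X a2x_9 a2x_9_m4 false .ring = true := by decide +kernel

def a2x_9_r4_ring1 : rowsOk stA2X a2x_9 a2x_9_m4 true .ring = true := by decide +kernel

def a2x_9_r5_one0 : rowsOk stA2X a2x_9 a2x_9_m5 false .one = true := by decide +kernel

def a2x_9_r5_one1 : rowsOk stA2X a2x_9 a2x_9_m5 true .one = true := by decide +kernel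

def a2x_9_r5_two0 : rowsOk stA2X a2x_9 a2x_9_m5 false .two = true := by decide +kernel

def a2x_9_r5_two1 : rowsOk stA2X a2x_9 a2x_9_m5 true .two = true := by decide +kernel

def a2x_9_r5_twoE0 : rowsOk stA2X a2x_9 a2x_9_m5 false .twoE = true := by decide +kernel

def a2x_9_r5_twoE1 : rowsOk stA2X a2x_9 a2x_9_m5 true .twoE = true := by decide +kernel

def a2x_9_r5_thrR0 : rowsOk stA2X a2x_9 a2x_9_m5 false .thrR = true := by decide +kernel

def a2x_9_r5_thrR1 : rowsOk stA2X a2x_9 a2x_9_m5 true .thrR = true := by decide +kernel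

def a2x_9_r5_thrL0 : rowsOk stA2X a2x_9 a2x_9_m5 false .thrL = true := by decide +kernel

def a2x_9_r5_thrL1 : rowsOk stA2X a2x_9 a2x_9_m5 true .thrL = true := by decide +kernel

def a2x_9_r5_threeE0 : rowsOk stA2X a2x_9 a2x_9_m5 false .threeE = true := by decide +kernel

def a2x_9_r5_threeE1 : rowsOk stA2X a2x_9 a2x_9_m5 true .threeE = true := by decide +kernel

def a2x_9_r5_ring0 : rowsOk stA2X a2x_9 a2x_9_m5 false .ring = true := by decide +kernel

def a2x_9_r5_ring1 : rowsOk stA2X a2x_9 a2x_9_m5 true .ring = true := by decide +kernel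

theorem a2x_9_r0 : allRows stA2X a2x_9 a2x_9_m0 = true := by
  refine allRows_of fun P => ?_
  cases P
  exacts [⟨a2x_9_r0_one0, a2x_9_r0_one1⟩,
    ⟨a2x_9_r0_two0, a2x_9_r0_two1⟩,
    ⟨a2x_9_r0_twoE0, a2x_9_r0_twoE1⟩,
    ⟨a2x_9_r0_thrR0, a2x_9_r0_thrR1⟩,
    ⟨a2x_9_r0_thrL0, a2x_9_r0_thrL1⟩,
    ⟨a2x_9_r0_threeE0, a2x_9_r0_threeE1⟩,
    ⟨a2x_9_r0_ring0, a2x_9_r0_ring1⟩]

theorem a2x_9_r1 : allRows stA2X a2x_9 a2x_9_m1 = true := by
  refine allRows_of fun P => ?_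
  cases P
  exacts [⟨a2x_9_r1_one0, a2x_9_r1_one1⟩,
    ⟨a2x_9_r1_two0, a2x_9_r1_two1⟩,
    ⟨a2x_9_r1_twoE0, a2x_9_r1_twoE1⟩,
    ⟨a2x_9_r1_thrR0, a2x_9_r1_thrR1⟩,
    ⟨a2x_9_r1_thrL0, a2x_9_r1_thrL1⟩,
    ⟨a2x_9_r1_threeE0, a2x_9_r1_threeE1⟩,
    ⟨a2x_9_r1_ring0, a2x_9_r1_ring1⟩]

theorem a2x_9_r2 : allRows stA2X a2x_9 a2x_9_m2 = true := by
  refine allRows_of fun P => ?_
  cases P
  exacts [⟨a2x_9_r2_one0, a2x_9_r2_one1⟩,
    ⟨a2x_9_r2_two0, a2x_9_r2_two1⟩,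
    ⟨a2x_9_r2_twoE0, a2x_9_r2_twoE1⟩,
    ⟨a2x_9_r2_thrR0, a2x_9_r2_thrR1⟩,
    ⟨a2x_9_r2_thrL0, a2x_9_r2_thrL1⟩,
    ⟨a2x_9_r2_threeE0, a2x_9_r2_threeE1⟩,
    ⟨a2x_9_r2_ring0, a2x_9_r2_ring1⟩]

theorem a2x_9_r3 : allRows stA2X a2x_9 a2x_9_m3 = true := by
  refine allRows_of fun P => ?_
  cases P
  exacts [⟨a2x_9_r3_one0, a2x_9_r3_one1⟩,
    ⟨a2x_9_r3_two0, a2x_9_r3_two1⟩,
    ⟨a2x_9_r3_twoE0, a2x_9_r3_twoE1⟩,
    ⟨a2x_9_r3_thrR0, a2x_9_r3_thrR1⟩,
    ⟨a2x_9_r3_thrL0, a2x_9_r3_thrL1⟩,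
    ⟨a2x_9_r3_threeE0, a2x_9_r3_threeE1⟩,
    ⟨a2x_9_r3_ring0, a2x_9_r3_ring1⟩]

theorem a2x_9_r4 : allRows stA2X a2x_9 a2x_9_m4 = true := by
  refine allRows_of fun P => ?_
  cases P
  exacts [⟨a2x_9_r4_one0, a2x_9_r4_one1⟩,
    ⟨a2x_9_r4_two0, a2x_9_r4_two1⟩,
    ⟨a2x_9_r4_twoE0, a2x_9_r4_twoE1⟩,
    ⟨a2x_9_r4_thrR0, a2x_9_r4_thrR1⟩,
    ⟨a2x_9_r4_thrL0, a2x_9_r4_thrL1⟩,
    ⟨a2x_9_r4_threeE0, a2x_9_r4_threeE1⟩,
    ⟨a2x_9_r4_ring0, a2x_9_r4_ring1⟩]

theorem a2x_9_r5 : allRows stA2X a2x_9 a2x_9_m5 = true := by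
  refine allRows_of fun P => ?_
  cases P
  exacts [⟨a2x_9_r5_one0, a2x_9_r5_one1⟩,
    ⟨a2x_9_r5_two0, a2x_9_r5_two1⟩,
    ⟨a2x_9_r5_twoE0, a2x_9_r5_twoE1⟩,
    ⟨a2x_9_r5_thrR0, a2x_9_r5_thrR1⟩,
    ⟨a2x_9_r5_thrL0, a2x_9_r5_thrL1⟩,
    ⟨a2x_9_r5_threeE0, a2x_9_r5_threeE1⟩,
    ⟨a2x_9_r5_ring0, a2x_9_r5_ring1⟩]

theorem a2x_9_ok : a2x_9.ok stA2X = true := by
  have h : (PC.all.all fun P => PC.all.all fun Q => pairOk stA2X a2x_9 P Q) = true := by decide +kernel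
  have d0 : mdOk stA2X a2x_9_m0.md = true := by decide +kernel
  have d1 : mdOk stA2X a2x_9_m1.md = true := by decide +kernel
  have d2 : mdOk stA2X a2x_9_m2.md = true := by decide +kernel
  have d3 : mdOk stA2X a2x_9_m3.md = true := by decide +kernel
  have d4 : mdOk stA2X a2x_9_m4.md = true := by decide +kernel
  have d5 : mdOk stA2X a2x_9_m5.md = true := by decide +kernel
  unfold Piece.ok
  rw [h, Bool.true_and]
  show List.all [a2x_9_m0, a2x_9_m1, a2x_9_m2, a2x_9_m3, a2x_9_m4, a2x_9_m5] _ = true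
  rw [List.all_eq_true]
  intro m hm
  simp only [List.mem_cons, List.not_mem_nil, or_false] at hm
  rcases hm with rfl | rfl | rfl | rfl | rfl | rfl
  · rw [a2x_9_r0, d0]; rfl
  · rw [a2x_9_r1, d1]; rfl
  · rw [a2x_9_r2, d2]; rfl
  · rw [a2x_9_r3, d3]; rfl
  · rw [a2x_9_r4, d4]; rfl
  · rw [a2x_9_r5, d5]; rfl

end OR

end Pool.Agent.Work.MP_b30479_gtS.G2
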