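import Pool.Agent.Work.MP_b30479_gt.TBS.G2.OTab
import Pool.Agent.Work.MP_b30479_gt.TBS.NumU.Tree

set_option deprecated.oldSectionVars true

namespace Pool.Agent.Work.MP_b30479_gtS.G2

open NumUs

namespace OR

set_option linter.defProp false

def a2x_1_r2_thrR1 : rowsOk stA2X a2x_1 a2x_1_m2 true .thrR = true := by decide +kernel

def a2x_1_r2_thrL0 : rowsOk stA2X a2x_1 a2x_1_m2 false .thrL = true := by decide +kernel

def a2x_1_r2_thrL1 : rowsOk stA2X a2x_1 a2x_1_m2 true .thrL = true := by decide +kernel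

def a2x_1_r2_threeE0 : rowsOk stA2X a2x_1 a2x_1_m2 false .threeE = true := by decide +kernel

def a2x_1_r2_threeE1 : rowsOk stA2X a2x_1 a2x_1_m2 true .threeE = true := by decide +kernel

def a2x_1_r2_ring0 : rowsOk stA2X a2x_1 a2x_1_m2 false .ring = true := by decide +kernel

def a2x_1_r2_ring1_0 : cellOk stA2X a2x_1 a2x_1_m2 true .ring ((stA2X.bins .ring).getD 0 b00)
    ((a2x_1_m2.g true .ring).getD 0 e00) = true := by decide +kernel

def a2x_1_r2_ring1_1 : cellOk stA2X a2x_1 a2x_1_m2 true .ring ((stA2X.bins .ring).getD 1 b00)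
    ((a2x_1_m2.g true .ring).getD 1 e00) = true := by decide +kernel

def a2x_1_r2_ring1_2 : cellOk stA2X a2x_1 a2x_1_m2 true .ring ((stA2X.bins .ring).getD 2 b00)
    ((a2x_1_m2.g true .ring).getD 2 e00) = true := by decide +kernel

def a2x_1_r2_ring1_3 : cellOk stA2X a2x_1 a2x_1_m2 true .ring ((stA2X.bins .ring).getD 3 b00)
    ((a2x_1_m2.g true .ring).getD 3 e00) = true := by decide +kernel

def a2x_1_r2_ring1_4 : cellOk stA2X a2x_1 a2x_1_m2 true .ring ((stA2X.bins .ring).getD 4 b00)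
    ((a2x_1_m2.g true .ring).getD 4 e00) = true := by decide +kernel

def a2x_1_r2_ring1_5 : cellOk stA2X a2x_1 a2x_1_m2 true .ring ((stA2X.bins .ring).getD 5 b00)
    ((a2x_1_m2.g true .ring).getD 5 e00) = true := by decide +kernel

theorem a2x_1_r2_ring1 : rowsOk stA2X a2x_1 a2x_1_m2 true .ring = true := by
  refine rowsOk_of fun i hi => ?_
  have hi : i < 6 := hi
  interval_cases i
  exacts [a2x_1_r2_ring1_0, a2x_1_r2_ring1_1, a2x_1_r2_ring1_2, a2x_1_r2_ring1_3, a2x_1_r2_ring1_4, a2x_1_r2_ring1_5]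

def a2x_1_r3_one0 : rowsOk stA2X a2x_1 a2x_1_m3 false .one = true := by decide +kernel

def a2x_1_r3_one1 : rowsOk stA2X a2x_1 a2x_1_m3 true .one = true := by decide +kernel

def a2x_1_r3_two0 : rowsOk stA2X a2x_1 a2x_1_m3 false .two = true := by decide +kernel

def a2x_1_r3_two1 : rowsOk stA2X a2x_1 a2x_1_m3 true .two = true := by decide +kernel

def a2x_1_r3_twoE0 : rowsOk stA2X a2x_1 a2x_1_m3 false .twoE = true := by decide +kernel

def a2x_1_r3_twoE1 : rowsOk stA2X a2x_1 a2x_1_m3 true .twoE = true := by decide +kernel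

def a2x_1_r3_thrR0 : rowsOk stA2X a2x_1 a2x_1_m3 false .thrR = true := by decide +kernel

def a2x_1_r3_thrR1 : rowsOk stA2X a2x_1 a2x_1_m3 true .thrR = true := by decide +kernel

def a2x_1_r3_thrL0 : rowsOk stA2X a2x_1 a2x_1_m3 false .thrL = true := by decide +kernel

def a2x_1_r3_thrL1 : rowsOk stA2X a2x_1 a2x_1_m3 true .thrL = true := by decide +kernel

def a2x_1_r3_threeE0 : rowsOk stA2X a2x_1 a2x_1_m3 false .threeE = true := by decide +kernel

def a2x_1_r3_threeE1 : rowsOk stA2X a2x_1 a2x_1_m3 true .threeE = true := by decide +kernel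

def a2x_1_r3_ring0 : rowsOk stA2X a2x_1 a2x_1_m3 false .ring = true := by decide +kernel

def a2x_1_r3_ring1 : rowsOk stA2X a2x_1 a2x_1_m3 true .ring = true := by decide +kernel

def a2x_1_r4_one0 : rowsOk stA2X a2x_1 a2x_1_m4 false .one = true := by decide +kernel

def a2x_1_r4_one1 : rowsOk stA2X a2x_1 a2x_1_m4 true .one = true := by decide +kernel

def a2x_1_r4_two0 : rowsOk stA2X a2x_1 a2x_1_m4 false .two = true := by decide +kernel

def a2x_1_r4_two1 : rowsOk stA2X a2x_1 a2x_1_m4 true .two = true := by decide +kernel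

def a2x_1_r4_twoE0 : rowsOk stA2X a2x_1 a2x_1_m4 false .twoE = true := by decide +kernel

def a2x_1_r4_twoE1 : rowsOk stA2X a2x_1 a2x_1_m4 true .twoE = true := by decide +kernel

def a2x_1_r4_thrR0 : rowsOk stA2X a2x_1 a2x_1_m4 false .thrR = true := by decide +kernel

def a2x_1_r4_thrR1 : rowsOk stA2X a2x_1 a2x_1_m4 true .thrR = true := by decide +kernel

def a2x_1_r4_thrL0 : rowsOk stA2X a2x_1 a2x_1_m4 false .thrL = true := by decide +kernel

def a2x_1_r4_thrL1 : rowsOk stA2X a2x_1 a2x_1_m4 true .thrL = true := by decide +kernel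

def a2x_1_r4_threeE0 : rowsOk stA2X a2x_1 a2x_1_m4 false .threeE = true := by decide +kernel

def a2x_1_r4_threeE1 : rowsOk stA2X a2x_1 a2x_1_m4 true .threeE = true := by decide +kernel

def a2x_1_r4_ring0 : rowsOk stA2X a2x_1 a2x_1_m4 false .ring = true := by decide +kernel

def a2x_1_r4_ring1_0 : cellOk stA2X a2x_1 a2x_1_m4 true .ring ((stA2X.bins .ring).getD 0 b00)
    ((a2x_1_m4.g true .ring).getD 0 e00) = true := by decide +kernel

def a2x_1_r4_ring1_1 : cellOk stA2X a2x_1 a2x_1_m4 true .ring ((stA2X.bins .ring).getD 1 b00)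
    ((a2x_1_m4.g true .ring).getD 1 e00) = true := by decide +kernel

def a2x_1_r4_ring1_2 : cellOk stA2X a2x_1 a2x_1_m4 true .ring ((stA2X.bins .ring).getD 2 b00)
    ((a2x_1_m4.g true .ring).getD 2 e00) = true := by decide +kernel

def a2x_1_r4_ring1_3 : cellOk stA2X a2x_1 a2x_1_m4 true .ring ((stA2X.bins .ring).getD 3 b00)
    ((a2x_1_m4.g true .ring).getD 3 e00) = true := by decide +kernel

/-- check -/
def a2x_1_r4_ring1_4_x0 : Ck := (cks stA2X a2x_1 a2x_1_m4 true .ring
    ((stA2X.bins .ring).getD 4 b00)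
    ((a2x_1_m4.g true .ring).getD 4 e00).g).getD 0 ckd

theorem a2x_1_r4_ring1_4_k0 : ck1 a2x_1_r4_ring1_4_x0 (((a2x_1_m4.g true .ring).getD 4 e00).c.getD 0 0) = true := by
  decide +kernel

/-- check -/
def a2x_1_r4_ring1_4_x1 : Ck := (cks stA2X a2x_1 a2x_1_m4 true .ring
    ((stA2X.bins .ring).getD 4 b00)
    ((a2x_1_m4.g true .ring).getD 4 e00).g).getD 1 ckd

theorem a2x_1_r4_ring1_4_k1 : ck1 a2x_1_r4_ring1_4_x1 (((a2x_1_m4.g true .ring).getD 4 e00).c.getD 1 0) = true := by
  decide +kernel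

/-- check -/
def a2x_1_r4_ring1_4_x2 : Ck := (cks stA2X a2x_1 a2x_1_m4 true .ring
    ((stA2X.bins .ring).getD 4 b00)
    ((a2x_1_m4.g true .ring).getD 4 e00).g).getD 2 ckd

theorem a2x_1_r4_ring1_4_k2 : ck1 a2x_1_r4_ring1_4_x2 (((a2x_1_m4.g true .ring).getD 4 e00).c.getD 2 0) = true := by
  decide +kernel

/-- check -/
def a2x_1_r4_ring1_4_x3 : Ck := (cks stA2X a2x_1 a2x_1_m4 true .ring
    ((stA2X.bins .ring).getD 4 b00)
    ((a2x_1_m4.g true .ring).getD 4 e00).g).getD 3 ckd

theorem a2x_1_r4_ring1_4_k3 : ck1 a2x_1_r4_ring1_4_x3 (((a2x_1_m4.g true .ring).getD 4 e00).c.getD 3 0) = true := by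
  decide +kernel

/-- check -/
def a2x_1_r4_ring1_4_x4 : Ck := (cks stA2X a2x_1 a2x_1_m4 true .ring
    ((stA2X.bins .ring).getD 4 b00)
    ((a2x_1_m4.g true .ring).getD 4 e00).g).getD 4 ckd

theorem a2x_1_r4_ring1_4_k4 : ck1 a2x_1_r4_ring1_4_x4 (((a2x_1_m4.g true .ring).getD 4 e00).c.getD 4 0) = true := by
  decide +kernel

/-- check -/
def a2x_1_r4_ring1_4_x5 : Ck := (cks stA2X a2x_1 a2x_1_m4 true .ring
    ((stA2X.bins .ring).getD 4 b00)
    ((a2x_1_m4.g true .ring).getD 4 e00).g).getD 5 ckd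

theorem a2x_1_r4_ring1_4_k5 : ck1 a2x_1_r4_ring1_4_x5 (((a2x_1_m4.g true .ring).getD 4 e00).c.getD 5 0) = true := by
  decide +kernel

def a2x_1_r4_ring1_4 : cellOk stA2X a2x_1 a2x_1_m4 true .ring ((stA2X.bins .ring).getD 4 b00)
    ((a2x_1_m4.g true .ring).getD 4 e00) = true :=
  cellOk_of 6 (by decide +kernel) (by decide +kernel) fun k hk => by
    interval_cases k
    exacts [a2x_1_r4_ring1_4_k0, a2x_1_r4_ring1_4_k1, a2x_1_r4_ring1_4_k2, a2x_1_r4_ring1_4_k3, a2x_1_r4_ring1_4_k4, a2x_1_r4_ring1_4_k5]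

def a2x_1_r4_ring1_5 : cellOk stA2X a2x_1 a2x_1_m4 true .ring ((stA2X.bins .ring).getD 5 b00)
    ((a2x_1_m4.g true .ring).getD 5 e00) = true := by decide +kernel

theorem a2x_1_r4_ring1 : rowsOk stA2X a2x_1 a2x_1_m4 true .ring = true := by
  refine rowsOk_of fun i hi => ?_
  have hi : i < 6 := hi
  interval_cases i
  exacts [a2x_1_r4_ring1_0, a2x_1_r4_ring1_1, a2x_1_r4_ring1_2, a2x_1_r4_ring1_3, a2x_1_r4_ring1_4, a2x_1_r4_ring1_5]

def a2x_1_r5_one0 : rowsOk stA2X a2x_1 a2x_1_m5 false .one = true := by decide +kernel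

def a2x_1_r5_one1 : rowsOk stA2X a2x_1 a2x_1_m5 true .one = true := by decide +kernel

def a2x_1_r5_two0 : rowsOk stA2X a2x_1 a2x_1_m5 false .two = true := by decide +kernel

def a2x_1_r5_two1 : rowsOk stA2X a2x_1 a2x_1_m5 true .two = true := by decide +kernel

def a2x_1_r5_twoE0 : rowsOk stA2X a2x_1 a2x_1_m5 false .twoE = true := by decide +kernel

def a2x_1_r5_twoE1 : rowsOk stA2X a2x_1 a2x_1_m5 true .twoE = true := by decide +kernel

def a2x_1_r5_thrR0 : rowsOk stA2X a2x_1 a2x_1_m5 false .thrR = true := by decide +kernel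

def a2x_1_r5_thrR1 : rowsOk stA2X a2x_1 a2x_1_m5 true .thrR = true := by decide +kernel

def a2x_1_r5_thrL0 : rowsOk stA2X a2x_1 a2x_1_m5 false .thrL = true := by decide +kernel

def a2x_1_r5_thrL1 : rowsOk stA2X a2x_1 a2x_1_m5 true .thrL = true := by decide +kernel

def a2x_1_r5_threeE0 : rowsOk stA2X a2x_1 a2x_1_m5 false .threeE = true := by decide +kernel

def a2x_1_r5_threeE1 : rowsOk stA2X a2x_1 a2x_1_m5 true .threeE = true := by decide +kernel

def a2x_1_r5_ring0 : rowsOk stA2X a2x_1 a2x_1_m5 false .ring = true := by decide +kernel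

def a2x_1_r5_ring1_0 : cellOk stA2X a2x_1 a2x_1_m5 true .ring ((stA2X.bins .ring).getD 0 b00)
    ((a2x_1_m5.g true .ring).getD 0 e00) = true := by decide +kernel

def a2x_1_r5_ring1_1 : cellOk stA2X a2x_1 a2x_1_m5 true .ring ((stA2X.bins .ring).getD 1 b00)
    ((a2x_1_m5.g true .ring).getD 1 e00) = true := by decide +kernel

/-- check -/
def a2x_1_r5_ring1_2_x0 : Ck := (cks stA2X a2x_1 a2x_1_m5 true .ring
    ((stA2X.bins .ring).getD 2 b00)
    ((a2x_1_m5.g true .ring).getD 2 e00).g).getD 0 ckd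

theorem a2x_1_r5_ring1_2_k0_q1 : runT a2x_1_r5_ring1_2_x0.2.1 38
    51632123897598977574975382986759243008330533620919599613224674974624742880604081596362594847261621101202015861853340687359590915779528682859712101436599488832625756324096832483796650663913663327386361136850679487494278623753635889
    (NumIs.setL 3 (NumIs.setL 2 (a2x_1_r5_ring1_2_x0.2.2))) =
    192344650244709020759818639556911747933665415722577272404822241420390989186629956947127710458865840365000128231396305141447450651897224347515821834789959672214931831971171619310217539459145305035212491217444388149284864306 := by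
  decide +kernel

theorem a2x_1_r5_ring1_2_k0_q2 : runT a2x_1_r5_ring1_2_x0.2.1 37
    12021540640294313797488664972306984245854088482661079525301390088774436824164372309195481903679115022812508014462269071340465665743576521719738864674372479513433239498198226206888596216196581564700780701090274259330304019
    (NumIs.setL 1 (NumIs.setR 3 (NumIs.setL 2 (a2x_1_r5_ring1_2_x0.2.2)))) =
    2427730798503361087841999022395480830107341296994267466374814471807511023742563633954244317002418810935885636749099613605165098434285244119224671661243165670614724891188433727479808519632857108 := by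
  decide +kernel

theorem a2x_1_r5_ring1_2_k0_q3 : runT a2x_1_r5_ring1_2_x0.2.1 37
    2427730798503361087841999022395480830107341296994267466374814471807511023742563633954244317002418810935885636749099613605165098434285244119224671661243165670614724891188433727479808519632857107
    (NumIs.setR 1 (NumIs.setR 3 (NumIs.setL 2 (a2x_1_r5_ring1_2_x0.2.2)))) =
    189864015286677745629742842320412109549633843 := by
  decide +kernel

theorem a2x_1_r5_ring1_2_k0_q4 : runT a2x_1_r5_ring1_2_x0.2.1 39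
    189864015286677745629742842320412109549633842
    (NumIs.setR 2 (a2x_1_r5_ring1_2_x0.2.2)) =
    1 := by
  decide +kernel

theorem a2x_1_r5_ring1_2_k0_c : chkT a2x_1_r5_ring1_2_x0.2.1 40
    13217823717785338259193698044610366210132616606955417500985516793503934177434644888668824280898975001907716060634455215964055274439559342812086297967769469141152193618968789115851942569961897811810908451033773948798535327680930787634
    a2x_1_r5_ring1_2_x0.2.2 = true :=
  chkT_of (runT_split rfl rfl rfl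
        (runT_split rfl rfl rfl
          a2x_1_r5_ring1_2_k0_q1
          (runT_split rfl rfl rfl
            a2x_1_r5_ring1_2_k0_q2
            a2x_1_r5_ring1_2_k0_q3))
        a2x_1_r5_ring1_2_k0_q4)

theorem a2x_1_r5_ring1_2_k0 : ck1 a2x_1_r5_ring1_2_x0 (((a2x_1_m5.g true .ring).getD 2 e00).c.getD 0 0) = true :=
  ck1_of (by decide +kernel) a2x_1_r5_ring1_2_k0_c

/-- check -/
def a2x_1_r5_ring1_2_x1 : Ck := (cks stA2X a2x_1 a2x_1_m5 true .ring
    ((stA2X.bins .ring).getD 2 b00)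
    ((a2x_1_m5.g true .ring).getD 2 e00).g).getD 1 ckd

theorem a2x_1_r5_ring1_2_k1 : ck1 a2x_1_r5_ring1_2_x1 (((a2x_1_m5.g true .ring).getD 2 e00).c.getD 1 0) = true := by
  decide +kernel

/-- check -/
def a2x_1_r5_ring1_2_x2 : Ck := (cks stA2X a2x_1 a2x_1_m5 true .ring
    ((stA2X.bins .ring).getD 2 b00)
    ((a2x_1_m5.g true .ring).getD 2 e00).g).getD 2 ckd

theorem a2x_1_r5_ring1_2_k2 : ck1 a2x_1_r5_ring1_2_x2 (((a2x_1_m5.g true .ring).getD 2 e00).c.getD 2 0) = true := by
  decide +kernel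

/-- check -/
def a2x_1_r5_ring1_2_x3 : Ck := (cks stA2X a2x_1 a2x_1_m5 true .ring
    ((stA2X.bins .ring).getD 2 b00)
    ((a2x_1_m5.g true .ring).getD 2 e00).g).getD 3 ckd

theorem a2x_1_r5_ring1_2_k3 : ck1 a2x_1_r5_ring1_2_x3 (((a2x_1_m5.g true .ring).getD 2 e00).c.getD 3 0) = true := by
  decide +kernel

/-- check -/
def a2x_1_r5_ring1_2_x4 : Ck := (cks stA2X a2x_1 a2x_1_m5 true .ring
    ((stA2X.bins .ring).getD 2 b00)
    ((a2x_1_m5.g true .ring).getD 2 e00).g).getD 4 ckd

theorem a2x_1_r5_ring1_2_k4 : ck1 a2x_1_r5_ring1_2_x4 (((a2x_1_m5.g true .ring).getD 2 e00).c.getD 4 0) = true := by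
  decide +kernel

/-- check -/
def a2x_1_r5_ring1_2_x5 : Ck := (cks stA2X a2x_1 a2x_1_m5 true .ring
    ((stA2X.bins .ring).getD 2 b00)
    ((a2x_1_m5.g true .ring).getD 2 e00).g).getD 5 ckd

theorem a2x_1_r5_ring1_2_k5 : ck1 a2x_1_r5_ring1_2_x5 (((a2x_1_m5.g true .ring).getD 2 e00).c.getD 5 0) = true := by
  decide +kernel

def a2x_1_r5_ring1_2 : cellOk stA2X a2x_1 a2x_1_m5 true .ring ((stA2X.bins .ring).getD 2 b00)
    ((a2x_1_m5.g true .ring).getD 2 e00) = true :=
  cellOk_of 6 (by decide +kernel) (by decide +kernel) fun k hk => by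
    interval_cases k
    exacts [a2x_1_r5_ring1_2_k0, a2x_1_r5_ring1_2_k1, a2x_1_r5_ring1_2_k2, a2x_1_r5_ring1_2_k3, a2x_1_r5_ring1_2_k4, a2x_1_r5_ring1_2_k5]

def a2x_1_r5_ring1_3 : cellOk stA2X a2x_1 a2x_1_m5 true .ring ((stA2X.bins .ring).getD 3 b00)
    ((a2x_1_m5.g true .ring).getD 3 e00) = true := by decide +kernel

def a2x_1_r5_ring1_4 : cellOk stA2X a2x_1 a2x_1_m5 true .ring ((stA2X.bins .ring).getD 4 b00)
    ((a2x_1_m5.g true .ring).getD 4 e00) = true := by decide +kernel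

def a2x_1_r5_ring1_5 : cellOk stA2X a2x_1 a2x_1_m5 true .ring ((stA2X.bins .ring).getD 5 b00)
    ((a2x_1_m5.g true .ring).getD 5 e00) = true := by decide +kernel

def a2x_1_r5_ring1 : rowsOk stA2X a2x_1 a2x_1_m5 true .ring = true := by
  refine rowsOk_of fun i hi => ?_
  have hi : i < 6 := hi
  interval_cases i
  exacts [a2x_1_r5_ring1_0, a2x_1_r5_ring1_1, a2x_1_r5_ring1_2, a2x_1_r5_ring1_3, a2x_1_r5_ring1_4, a2x_1_r5_ring1_5]

def a2x_1_r6_one0 : rowsOk stA2X a2x_1 a2x_1_m6 false .one = true := by decide +kernel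

def a2x_1_r6_one1 : rowsOk stA2X a2x_1 a2x_1_m6 true .one = true := by decide +kernel

def a2x_1_r6_two0 : rowsOk stA2X a2x_1 a2x_1_m6 false .two = true := by decide +kernel

def a2x_1_r6_two1 : rowsOk stA2X a2x_1 a2x_1_m6 true .two = true := by decide +kernel

def a2x_1_r6_twoE0 : rowsOk stA2X a2x_1 a2x_1_m6 false .twoE = true := by decide +kernel

def a2x_1_r6_twoE1 : rowsOk stA2X a2x_1 a2x_1_m6 true .twoE = true := by decide +kernel

def a2x_1_r6_thrR0 : rowsOk stA2X a2x_1 a2x_1_m6 false .thrR = true := by decide +kernel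

def a2x_1_r6_thrR1 : rowsOk stA2X a2x_1 a2x_1_m6 true .thrR = true := by decide +kernel

def a2x_1_r6_thrL0 : rowsOk stA2X a2x_1 a2x_1_m6 false .thrL = true := by decide +kernel

def a2x_1_r6_thrL1 : rowsOk stA2X a2x_1 a2x_1_m6 true .thrL = true := by decide +kernel

def a2x_1_r6_threeE0 : rowsOk stA2X a2x_1 a2x_1_m6 false .threeE = true := by decide +kernel

def a2x_1_r6_threeE1 : rowsOk stA2X a2x_1 a2x_1_m6 true .threeE = true := by decide +kernel

def a2x_1_r6_ring0 : rowsOk stA2X a2x_1 a2x_1_m6 false .ring = true := by decide +kernel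

def a2x_1_r6_ring1 : rowsOk stA2X a2x_1 a2x_1_m6 true .ring = true := by decide +kernel

end OR

end Pool.Agent.Work.MP_b30479_gtS.G2
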