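import Pool.Agent.Work.MP_b30479_gt.TBS.G2.OS2f_14d
import Pool.Agent.Work.MP_b30479_gt.TBS.G2.OTab

set_option deprecated.oldSectionVars true

namespace Pool.Agent.Work.MP_b30479_gtS.G2

open NumUs

namespace OR

set_option linter.defProp false

def s2r_1_r0_one0 : rowsOk stS2R s2r_1 s2r_1_m0 false .one = true := by decide +kernel

def s2r_1_r0_one1 : rowsOk stS2R s2r_1 s2r_1_m0 true .one = true := by decide +kernel

def s2r_1_r0_two0_0 : cellOk stS2R s2r_1 s2r_1_m0 false .two ((stS2R.bins .two).getD 0 b00)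
    ((s2r_1_m0.g false .two).getD 0 e00) = true := by decide +kernel

def s2r_1_r0_two0_1 : cellOk stS2R s2r_1 s2r_1_m0 false .two ((stS2R.bins .two).getD 1 b00)
    ((s2r_1_m0.g false .two).getD 1 e00) = true := by decide +kernel

def s2r_1_r0_two0_2 : cellOk stS2R s2r_1 s2r_1_m0 false .two ((stS2R.bins .two).getD 2 b00)
    ((s2r_1_m0.g false .two).getD 2 e00) = true := by decide +kernel

/-- check -/
def s2r_1_r0_two0_3_x0 : Ck := (cks stS2R s2r_1 s2r_1_m0 false .two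
    ((stS2R.bins .two).getD 3 b00)
    ((s2r_1_m0.g false .two).getD 3 e00).g).getD 0 ckd

theorem s2r_1_r0_two0_3_k0 : ck1 s2r_1_r0_two0_3_x0 (((s2r_1_m0.g false .two).getD 3 e00).c.getD 0 0) = true := by
  decide +kernel

/-- check -/
def s2r_1_r0_two0_3_x1 : Ck := (cks stS2R s2r_1 s2r_1_m0 false .two
    ((stS2R.bins .two).getD 3 b00)
    ((s2r_1_m0.g false .two).getD 3 e00).g).getD 1 ckd

theorem s2r_1_r0_two0_3_k1 : ck1 s2r_1_r0_two0_3_x1 (((s2r_1_m0.g false .two).getD 3 e00).c.getD 1 0) = true := by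
  decide +kernel

/-- check -/
def s2r_1_r0_two0_3_x2 : Ck := (cks stS2R s2r_1 s2r_1_m0 false .two
    ((stS2R.bins .two).getD 3 b00)
    ((s2r_1_m0.g false .two).getD 3 e00).g).getD 2 ckd

theorem s2r_1_r0_two0_3_k2 : ck1 s2r_1_r0_two0_3_x2 (((s2r_1_m0.g false .two).getD 3 e00).c.getD 2 0) = true := by
  decide +kernel

/-- check -/
def s2r_1_r0_two0_3_x3 : Ck := (cks stS2R s2r_1 s2r_1_m0 false .two
    ((stS2R.bins .two).getD 3 b00)
    ((s2r_1_m0.g false .two).getD 3 e00).g).getD 3 ckd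

theorem s2r_1_r0_two0_3_k3 : ck1 s2r_1_r0_two0_3_x3 (((s2r_1_m0.g false .two).getD 3 e00).c.getD 3 0) = true := by
  decide +kernel

/-- check -/
def s2r_1_r0_two0_3_x4 : Ck := (cks stS2R s2r_1 s2r_1_m0 false .two
    ((stS2R.bins .two).getD 3 b00)
    ((s2r_1_m0.g false .two).getD 3 e00).g).getD 4 ckd

theorem s2r_1_r0_two0_3_k4 : ck1 s2r_1_r0_two0_3_x4 (((s2r_1_m0.g false .two).getD 3 e00).c.getD 4 0) = true := by
  decide +kernel

/-- check -/
def s2r_1_r0_two0_3_x5 : Ck := (cks stS2R s2r_1 s2r_1_m0 false .two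
    ((stS2R.bins .two).getD 3 b00)
    ((s2r_1_m0.g false .two).getD 3 e00).g).getD 5 ckd

theorem s2r_1_r0_two0_3_k5 : ck1 s2r_1_r0_two0_3_x5 (((s2r_1_m0.g false .two).getD 3 e00).c.getD 5 0) = true := by
  decide +kernel

def s2r_1_r0_two0_3 : cellOk stS2R s2r_1 s2r_1_m0 false .two ((stS2R.bins .two).getD 3 b00)
    ((s2r_1_m0.g false .two).getD 3 e00) = true :=
  cellOk_of 6 (by decide +kernel) (by decide +kernel) fun k hk => by
    interval_cases k
    exacts [s2r_1_r0_two0_3_k0, s2r_1_r0_two0_3_k1, s2r_1_r0_two0_3_k2, s2r_1_r0_two0_3_k3, s2r_1_r0_two0_3_k4, s2r_1_r0_two0_3_k5]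

def s2r_1_r0_two0_4 : cellOk stS2R s2r_1 s2r_1_m0 false .two ((stS2R.bins .two).getD 4 b00)
    ((s2r_1_m0.g false .two).getD 4 e00) = true := by decide +kernel

def s2r_1_r0_two0_5 : cellOk stS2R s2r_1 s2r_1_m0 false .two ((stS2R.bins .two).getD 5 b00)
    ((s2r_1_m0.g false .two).getD 5 e00) = true := by decide +kernel

theorem s2r_1_r0_two0 : rowsOk stS2R s2r_1 s2r_1_m0 false .two = true := by
  refine rowsOk_of fun i hi => ?_
  have hi : i < 6 := hi
  interval_cases i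
  exacts [s2r_1_r0_two0_0, s2r_1_r0_two0_1, s2r_1_r0_two0_2, s2r_1_r0_two0_3, s2r_1_r0_two0_4, s2r_1_r0_two0_5]

def s2r_1_r0_two1_0 : cellOk stS2R s2r_1 s2r_1_m0 true .two ((stS2R.bins .two).getD 0 b00)
    ((s2r_1_m0.g true .two).getD 0 e00) = true := by decide +kernel

def s2r_1_r0_two1_1 : cellOk stS2R s2r_1 s2r_1_m0 true .two ((stS2R.bins .two).getD 1 b00)
    ((s2r_1_m0.g true .two).getD 1 e00) = true := by decide +kernel

def s2r_1_r0_two1_2 : cellOk stS2R s2r_1 s2r_1_m0 true .two ((stS2R.bins .two).getD 2 b00)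
    ((s2r_1_m0.g true .two).getD 2 e00) = true := by decide +kernel

/-- check -/
def s2r_1_r0_two1_3_x0 : Ck := (cks stS2R s2r_1 s2r_1_m0 true .two
    ((stS2R.bins .two).getD 3 b00)
    ((s2r_1_m0.g true .two).getD 3 e00).g).getD 0 ckd

theorem s2r_1_r0_two1_3_k0 : ck1 s2r_1_r0_two1_3_x0 (((s2r_1_m0.g true .two).getD 3 e00).c.getD 0 0) = true := by
  decide +kernel

/-- check -/
def s2r_1_r0_two1_3_x1 : Ck := (cks stS2R s2r_1 s2r_1_m0 true .two
    ((stS2R.bins .two).getD 3 b00)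
    ((s2r_1_m0.g true .two).getD 3 e00).g).getD 1 ckd

theorem s2r_1_r0_two1_3_k1 : ck1 s2r_1_r0_two1_3_x1 (((s2r_1_m0.g true .two).getD 3 e00).c.getD 1 0) = true := by
  decide +kernel

/-- check -/
def s2r_1_r0_two1_3_x2 : Ck := (cks stS2R s2r_1 s2r_1_m0 true .two
    ((stS2R.bins .two).getD 3 b00)
    ((s2r_1_m0.g true .two).getD 3 e00).g).getD 2 ckd

theorem s2r_1_r0_two1_3_k2 : ck1 s2r_1_r0_two1_3_x2 (((s2r_1_m0.g true .two).getD 3 e00).c.getD 2 0) = true := by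
  decide +kernel

/-- check -/
def s2r_1_r0_two1_3_x3 : Ck := (cks stS2R s2r_1 s2r_1_m0 true .two
    ((stS2R.bins .two).getD 3 b00)
    ((s2r_1_m0.g true .two).getD 3 e00).g).getD 3 ckd

theorem s2r_1_r0_two1_3_k3 : ck1 s2r_1_r0_two1_3_x3 (((s2r_1_m0.g true .two).getD 3 e00).c.getD 3 0) = true := by
  decide +kernel

/-- check -/
def s2r_1_r0_two1_3_x4 : Ck := (cks stS2R s2r_1 s2r_1_m0 true .two
    ((stS2R.bins .two).getD 3 b00)
    ((s2r_1_m0.g true .two).getD 3 e00).g).getD 4 ckd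

theorem s2r_1_r0_two1_3_k4 : ck1 s2r_1_r0_two1_3_x4 (((s2r_1_m0.g true .two).getD 3 e00).c.getD 4 0) = true := by
  decide +kernel

/-- check -/
def s2r_1_r0_two1_3_x5 : Ck := (cks stS2R s2r_1 s2r_1_m0 true .two
    ((stS2R.bins .two).getD 3 b00)
    ((s2r_1_m0.g true .two).getD 3 e00).g).getD 5 ckd

theorem s2r_1_r0_two1_3_k5 : ck1 s2r_1_r0_two1_3_x5 (((s2r_1_m0.g true .two).getD 3 e00).c.getD 5 0) = true := by
  decide +kernel

def s2r_1_r0_two1_3 : cellOk stS2R s2r_1 s2r_1_m0 true .two ((stS2R.bins .two).getD 3 b00)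
    ((s2r_1_m0.g true .two).getD 3 e00) = true :=
  cellOk_of 6 (by decide +kernel) (by decide +kernel) fun k hk => by
    interval_cases k
    exacts [s2r_1_r0_two1_3_k0, s2r_1_r0_two1_3_k1, s2r_1_r0_two1_3_k2, s2r_1_r0_two1_3_k3, s2r_1_r0_two1_3_k4, s2r_1_r0_two1_3_k5]

def s2r_1_r0_two1_4 : cellOk stS2R s2r_1 s2r_1_m0 true .two ((stS2R.bins .two).getD 4 b00)
    ((s2r_1_m0.g true .two).getD 4 e00) = true := by decide +kernel

def s2r_1_r0_two1_5 : cellOk stS2R s2r_1 s2r_1_m0 true .two ((stS2R.bins .two).getD 5 b00)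
    ((s2r_1_m0.g true .two).getD 5 e00) = true := by decide +kernel

theorem s2r_1_r0_two1 : rowsOk stS2R s2r_1 s2r_1_m0 true .two = true := by
  refine rowsOk_of fun i hi => ?_
  have hi : i < 6 := hi
  interval_cases i
  exacts [s2r_1_r0_two1_0, s2r_1_r0_two1_1, s2r_1_r0_two1_2, s2r_1_r0_two1_3, s2r_1_r0_two1_4, s2r_1_r0_two1_5]

def s2r_1_r0_twoE0 : rowsOk stS2R s2r_1 s2r_1_m0 false .twoE = true := by decide +kernel

def s2r_1_r0_twoE1 : rowsOk stS2R s2r_1 s2r_1_m0 true .twoE = true := by decide +kernel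

def s2r_1_r0_thrR0_0 : cellOk stS2R s2r_1 s2r_1_m0 false .thrR ((stS2R.bins .thrR).getD 0 b00)
    ((s2r_1_m0.g false .thrR).getD 0 e00) = true := by decide +kernel

def s2r_1_r0_thrR0_1 : cellOk stS2R s2r_1 s2r_1_m0 false .thrR ((stS2R.bins .thrR).getD 1 b00)
    ((s2r_1_m0.g false .thrR).getD 1 e00) = true := by decide +kernel

def s2r_1_r0_thrR0_2 : cellOk stS2R s2r_1 s2r_1_m0 false .thrR ((stS2R.bins .thrR).getD 2 b00)
    ((s2r_1_m0.g false .thrR).getD 2 e00) = true := by decide +kernel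

def s2r_1_r0_thrR0_3 : cellOk stS2R s2r_1 s2r_1_m0 false .thrR ((stS2R.bins .thrR).getD 3 b00)
    ((s2r_1_m0.g false .thrR).getD 3 e00) = true := by decide +kernel

def s2r_1_r0_thrR0_4 : cellOk stS2R s2r_1 s2r_1_m0 false .thrR ((stS2R.bins .thrR).getD 4 b00)
    ((s2r_1_m0.g false .thrR).getD 4 e00) = true := by decide +kernel

def s2r_1_r0_thrR0_5 : cellOk stS2R s2r_1 s2r_1_m0 false .thrR ((stS2R.bins .thrR).getD 5 b00)
    ((s2r_1_m0.g false .thrR).getD 5 e00) = true := by decide +kernel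

theorem s2r_1_r0_thrR0 : rowsOk stS2R s2r_1 s2r_1_m0 false .thrR = true := by
  refine rowsOk_of fun i hi => ?_
  have hi : i < 6 := hi
  interval_cases i
  exacts [s2r_1_r0_thrR0_0, s2r_1_r0_thrR0_1, s2r_1_r0_thrR0_2, s2r_1_r0_thrR0_3, s2r_1_r0_thrR0_4, s2r_1_r0_thrR0_5]

def s2r_1_r0_thrR1_0 : cellOk stS2R s2r_1 s2r_1_m0 true .thrR ((stS2R.bins .thrR).getD 0 b00)
    ((s2r_1_m0.g true .thrR).getD 0 e00) = true := by decide +kernel

def s2r_1_r0_thrR1_1 : cellOk stS2R s2r_1 s2r_1_m0 true .thrR ((stS2R.bins .thrR).getD 1 b00)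
    ((s2r_1_m0.g true .thrR).getD 1 e00) = true := by decide +kernel

def s2r_1_r0_thrR1_2 : cellOk stS2R s2r_1 s2r_1_m0 true .thrR ((stS2R.bins .thrR).getD 2 b00)
    ((s2r_1_m0.g true .thrR).getD 2 e00) = true := by decide +kernel

def s2r_1_r0_thrR1_3 : cellOk stS2R s2r_1 s2r_1_m0 true .thrR ((stS2R.bins .thrR).getD 3 b00)
    ((s2r_1_m0.g true .thrR).getD 3 e00) = true := by decide +kernel

def s2r_1_r0_thrR1_4 : cellOk stS2R s2r_1 s2r_1_m0 true .thrR ((stS2R.bins .thrR).getD 4 b00)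
    ((s2r_1_m0.g true .thrR).getD 4 e00) = true := by decide +kernel

def s2r_1_r0_thrR1_5 : cellOk stS2R s2r_1 s2r_1_m0 true .thrR ((stS2R.bins .thrR).getD 5 b00)
    ((s2r_1_m0.g true .thrR).getD 5 e00) = true := by decide +kernel

theorem s2r_1_r0_thrR1 : rowsOk stS2R s2r_1 s2r_1_m0 true .thrR = true := by
  refine rowsOk_of fun i hi => ?_
  have hi : i < 6 := hi
  interval_cases i
  exacts [s2r_1_r0_thrR1_0, s2r_1_r0_thrR1_1, s2r_1_r0_thrR1_2, s2r_1_r0_thrR1_3, s2r_1_r0_thrR1_4, s2r_1_r0_thrR1_5]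

def s2r_1_r0_thrL0_0 : cellOk stS2R s2r_1 s2r_1_m0 false .thrL ((stS2R.bins .thrL).getD 0 b00)
    ((s2r_1_m0.g false .thrL).getD 0 e00) = true := by decide +kernel

def s2r_1_r0_thrL0_1 : cellOk stS2R s2r_1 s2r_1_m0 false .thrL ((stS2R.bins .thrL).getD 1 b00)
    ((s2r_1_m0.g false .thrL).getD 1 e00) = true := by decide +kernel

def s2r_1_r0_thrL0_2 : cellOk stS2R s2r_1 s2r_1_m0 false .thrL ((stS2R.bins .thrL).getD 2 b00)
    ((s2r_1_m0.g false .thrL).getD 2 e00) = true := by decide +kernel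

def s2r_1_r0_thrL0_3 : cellOk stS2R s2r_1 s2r_1_m0 false .thrL ((stS2R.bins .thrL).getD 3 b00)
    ((s2r_1_m0.g false .thrL).getD 3 e00) = true := by decide +kernel

def s2r_1_r0_thrL0_4 : cellOk stS2R s2r_1 s2r_1_m0 false .thrL ((stS2R.bins .thrL).getD 4 b00)
    ((s2r_1_m0.g false .thrL).getD 4 e00) = true := by decide +kernel

theorem s2r_1_r0_thrL0 : rowsOk stS2R s2r_1 s2r_1_m0 false .thrL = true := by
  refine rowsOk_of fun i hi => ?_
  have hi : i < 5 := hi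
  interval_cases i
  exacts [s2r_1_r0_thrL0_0, s2r_1_r0_thrL0_1, s2r_1_r0_thrL0_2, s2r_1_r0_thrL0_3, s2r_1_r0_thrL0_4]

def s2r_1_r0_thrL1_0 : cellOk stS2R s2r_1 s2r_1_m0 true .thrL ((stS2R.bins .thrL).getD 0 b00)
    ((s2r_1_m0.g true .thrL).getD 0 e00) = true := by decide +kernel

def s2r_1_r0_thrL1_1 : cellOk stS2R s2r_1 s2r_1_m0 true .thrL ((stS2R.bins .thrL).getD 1 b00)
    ((s2r_1_m0.g true .thrL).getD 1 e00) = true := by decide +kernel

def s2r_1_r0_thrL1_2 : cellOk stS2R s2r_1 s2r_1_m0 true .thrL ((stS2R.bins .thrL).getD 2 b00)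
    ((s2r_1_m0.g true .thrL).getD 2 e00) = true := by decide +kernel

def s2r_1_r0_thrL1_3 : cellOk stS2R s2r_1 s2r_1_m0 true .thrL ((stS2R.bins .thrL).getD 3 b00)
    ((s2r_1_m0.g true .thrL).getD 3 e00) = true := by decide +kernel

def s2r_1_r0_thrL1_4 : cellOk stS2R s2r_1 s2r_1_m0 true .thrL ((stS2R.bins .thrL).getD 4 b00)
    ((s2r_1_m0.g true .thrL).getD 4 e00) = true := by decide +kernel

theorem s2r_1_r0_thrL1 : rowsOk stS2R s2r_1 s2r_1_m0 true .thrL = true := by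
  refine rowsOk_of fun i hi => ?_
  have hi : i < 5 := hi
  interval_cases i
  exacts [s2r_1_r0_thrL1_0, s2r_1_r0_thrL1_1, s2r_1_r0_thrL1_2, s2r_1_r0_thrL1_3, s2r_1_r0_thrL1_4]

def s2r_1_r0_threeE0_0 : cellOk stS2R s2r_1 s2r_1_m0 false .threeE ((stS2R.bins .threeE).getD 0 b00)
    ((s2r_1_m0.g false .threeE).getD 0 e00) = true := by decide +kernel

def s2r_1_r0_threeE0_1 : cellOk stS2R s2r_1 s2r_1_m0 false .threeE ((stS2R.bins .threeE).getD 1 b00)
    ((s2r_1_m0.g false .threeE).getD 1 e00) = true := by decide +kernel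

def s2r_1_r0_threeE0_2 : cellOk stS2R s2r_1 s2r_1_m0 false .threeE ((stS2R.bins .threeE).getD 2 b00)
    ((s2r_1_m0.g false .threeE).getD 2 e00) = true := by decide +kernel

def s2r_1_r0_threeE0_3 : cellOk stS2R s2r_1 s2r_1_m0 false .threeE ((stS2R.bins .threeE).getD 3 b00)
    ((s2r_1_m0.g false .threeE).getD 3 e00) = true := by decide +kernel

def s2r_1_r0_threeE0_4 : cellOk stS2R s2r_1 s2r_1_m0 false .threeE ((stS2R.bins .threeE).getD 4 b00)
    ((s2r_1_m0.g false .threeE).getD 4 e00) = true := by decide +kernel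

def s2r_1_r0_threeE0_5 : cellOk stS2R s2r_1 s2r_1_m0 false .threeE ((stS2R.bins .threeE).getD 5 b00)
    ((s2r_1_m0.g false .threeE).getD 5 e00) = true := by decide +kernel

theorem s2r_1_r0_threeE0 : rowsOk stS2R s2r_1 s2r_1_m0 false .threeE = true := by
  refine rowsOk_of fun i hi => ?_
  have hi : i < 6 := hi
  interval_cases i
  exacts [s2r_1_r0_threeE0_0, s2r_1_r0_threeE0_1, s2r_1_r0_threeE0_2, s2r_1_r0_threeE0_3, s2r_1_r0_threeE0_4, s2r_1_r0_threeE0_5]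

end OR

end Pool.Agent.Work.MP_b30479_gtS.G2
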