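import Pool.Agent.Work.MP_b30479_gt.TBS.G2.OS2f_14d
import Pool.Agent.Work.MP_b30479_gt.TBS.G2.OTab
import Pool.Agent.Work.MP_b30479_gt.TBS.NumU.Tree

set_option deprecated.oldSectionVars true

namespace Pool.Agent.Work.MP_b30479_gtS.G2

open NumUs

namespace OR

set_option linter.defProp false

def s3r_1_r0_one0_0 : cellOk stS3R s3r_1 s3r_1_m0 false .one ((stS3R.bins .one).getD 0 b00)
    ((s3r_1_m0.g false .one).getD 0 e00) = true := by decide +kernel

def s3r_1_r0_one0_1 : cellOk stS3R s3r_1 s3r_1_m0 false .one ((stS3R.bins .one).getD 1 b00)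
    ((s3r_1_m0.g false .one).getD 1 e00) = true := by decide +kernel

def s3r_1_r0_one0_2 : cellOk stS3R s3r_1 s3r_1_m0 false .one ((stS3R.bins .one).getD 2 b00)
    ((s3r_1_m0.g false .one).getD 2 e00) = true := by decide +kernel

def s3r_1_r0_one0_3 : cellOk stS3R s3r_1 s3r_1_m0 false .one ((stS3R.bins .one).getD 3 b00)
    ((s3r_1_m0.g false .one).getD 3 e00) = true := by decide +kernel

/-- check -/
def s3r_1_r0_one0_4_x0 : Ck := (cks stS3R s3r_1 s3r_1_m0 false .one
    ((stS3R.bins .one).getD 4 b00)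
    ((s3r_1_m0.g false .one).getD 4 e00).g).getD 0 ckd

theorem s3r_1_r0_one0_4_k0_q1 : runT s3r_1_r0_one0_4_x0.2.1 39
    13891514411312071485449169971764094760542065971189996355411446286240004500755601446888900625910422672930523437081020518038650088124984868922661794266590997233007693522991665792860948026428494111560744238888016205316283101324908563531436819
    (NumIs.setL 2 (s3r_1_r0_one0_4_x0.2.2)) =
    35408734787265841112448988434096937952436190958955877785708987937005160568057975119543917283461898790333205542228177185606963056687478825889256748214803067632384066653249476438864179 := by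
  decide +kernel

theorem s3r_1_r0_one0_4_k0_q2 : runT s3r_1_r0_one0_4_x0.2.1 38
    2213045924204115069528061777131058622027261934934742361606811746062822535503623444971494830216368674395825346389261074100435191042967426618078546763425191727024004165828092277429011
    (NumIs.setL 2 (NumIs.setR 2 (s3r_1_r0_one0_4_x0.2.2))) =
    104056919280489021160570598818367160401745090435097772623116634610501136887966996921641818721063252285381325352889985042847169896528474712248627 := by
  decide +kernel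

theorem s3r_1_r0_one0_4_k0_q3 : runT s3r_1_r0_one0_4_x0.2.1 37
    6503557455030563822535662426147947525109068152193610788944789663156321055497937307602613670066453267836332834555624065177948118533029669515539
    (NumIs.setL 2 (NumIs.setR 2 (NumIs.setR 2 (s3r_1_r0_one0_4_x0.2.2)))) =
    71198633393613630005471916110195908847074429554099862606754267587427253328302753952328697131284 := by
  decide +kernel

theorem s3r_1_r0_one0_4_k0_q4 : runT s3r_1_r0_one0_4_x0.2.1 37
    71198633393613630005471916110195908847074429554099862606754267587427253328302753952328697131283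
    (NumIs.setR 2 (NumIs.setR 2 (NumIs.setR 2 (s3r_1_r0_one0_4_x0.2.2)))) =
    1 := by
  decide +kernel

theorem s3r_1_r0_one0_4_k0_c : chkT s3r_1_r0_one0_4_x0.2.1 40
    222264230580993143767186719548225516168673055539039941686583140579840072012089623150222410014566762766888374993296328288618401409999757902762588708265455955728123096367866652685775168422855905784971907822208259285060529621198537016502989106
    s3r_1_r0_one0_4_x0.2.2 = true :=
  chkT_of (runT_split rfl rfl rfl
        s3r_1_r0_one0_4_k0_q1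
        (runT_split rfl rfl rfl
          s3r_1_r0_one0_4_k0_q2
          (runT_split rfl rfl rfl
            s3r_1_r0_one0_4_k0_q3
            s3r_1_r0_one0_4_k0_q4)))

theorem s3r_1_r0_one0_4_k0 : ck1 s3r_1_r0_one0_4_x0 (((s3r_1_m0.g false .one).getD 4 e00).c.getD 0 0) = true :=
  ck1_of (by decide +kernel) s3r_1_r0_one0_4_k0_c

/-- check -/
def s3r_1_r0_one0_4_x1 : Ck := (cks stS3R s3r_1 s3r_1_m0 false .one
    ((stS3R.bins .one).getD 4 b00)
    ((s3r_1_m0.g false .one).getD 4 e00).g).getD 1 ckd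

theorem s3r_1_r0_one0_4_k1 : ck1 s3r_1_r0_one0_4_x1 (((s3r_1_m0.g false .one).getD 4 e00).c.getD 1 0) = true := by
  decide +kernel

/-- check -/
def s3r_1_r0_one0_4_x2 : Ck := (cks stS3R s3r_1 s3r_1_m0 false .one
    ((stS3R.bins .one).getD 4 b00)
    ((s3r_1_m0.g false .one).getD 4 e00).g).getD 2 ckd

theorem s3r_1_r0_one0_4_k2 : ck1 s3r_1_r0_one0_4_x2 (((s3r_1_m0.g false .one).getD 4 e00).c.getD 2 0) = true := by
  decide +kernel

/-- check -/
def s3r_1_r0_one0_4_x3 : Ck := (cks stS3R s3r_1 s3r_1_m0 false .one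
    ((stS3R.bins .one).getD 4 b00)
    ((s3r_1_m0.g false .one).getD 4 e00).g).getD 3 ckd

theorem s3r_1_r0_one0_4_k3 : ck1 s3r_1_r0_one0_4_x3 (((s3r_1_m0.g false .one).getD 4 e00).c.getD 3 0) = true := by
  decide +kernel

/-- check -/
def s3r_1_r0_one0_4_x4 : Ck := (cks stS3R s3r_1 s3r_1_m0 false .one
    ((stS3R.bins .one).getD 4 b00)
    ((s3r_1_m0.g false .one).getD 4 e00).g).getD 4 ckd

theorem s3r_1_r0_one0_4_k4 : ck1 s3r_1_r0_one0_4_x4 (((s3r_1_m0.g false .one).getD 4 e00).c.getD 4 0) = true := by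
  decide +kernel

/-- check -/
def s3r_1_r0_one0_4_x5 : Ck := (cks stS3R s3r_1 s3r_1_m0 false .one
    ((stS3R.bins .one).getD 4 b00)
    ((s3r_1_m0.g false .one).getD 4 e00).g).getD 5 ckd

theorem s3r_1_r0_one0_4_k5_q1 : runT s3r_1_r0_one0_4_x5.2.1 38
    32199469297762854954585185949870996255814190709611163130279308605143756465172531519943219076190581485264602361273289483337954173490431105353920747088545873547392001970482
    (NumIs.setL 2 (NumIs.setL 2 (s3r_1_r0_one0_4_x5.2.2))) =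
    13075260843224495610796659916732382503000066894909157652 := by
  decide +kernel

theorem s3r_1_r0_one0_4_k5_q2 : runT s3r_1_r0_one0_4_x5.2.1 38
    13075260843224495610796659916732382503000066894909157651
    (NumIs.setR 2 (NumIs.setL 2 (s3r_1_r0_one0_4_x5.2.2))) =
    157387727428999721236 := by
  decide +kernel

theorem s3r_1_r0_one0_4_k5_q3 : runT s3r_1_r0_one0_4_x5.2.1 39
    157387727428999721235
    (NumIs.setR 2 (s3r_1_r0_one0_4_x5.2.2)) =
    1 := by
  decide +kernel

theorem s3r_1_r0_one0_4_k5_c : chkT s3r_1_r0_one0_4_x5.2.1 40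
    8243064140227290868373807603166975041488432821660457761351503002916801655084168069105464083504788860227738204485962107734516268413550362970603711254667743628132352504443426
    s3r_1_r0_one0_4_x5.2.2 = true :=
  chkT_of (runT_split rfl rfl rfl
        (runT_split rfl rfl rfl
          s3r_1_r0_one0_4_k5_q1
          s3r_1_r0_one0_4_k5_q2)
        s3r_1_r0_one0_4_k5_q3)

theorem s3r_1_r0_one0_4_k5 : ck1 s3r_1_r0_one0_4_x5 (((s3r_1_m0.g false .one).getD 4 e00).c.getD 5 0) = true :=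
  ck1_of (by decide +kernel) s3r_1_r0_one0_4_k5_c

def s3r_1_r0_one0_4 : cellOk stS3R s3r_1 s3r_1_m0 false .one ((stS3R.bins .one).getD 4 b00)
    ((s3r_1_m0.g false .one).getD 4 e00) = true :=
  cellOk_of 6 (by decide +kernel) (by decide +kernel) fun k hk => by
    interval_cases k
    exacts [s3r_1_r0_one0_4_k0, s3r_1_r0_one0_4_k1, s3r_1_r0_one0_4_k2, s3r_1_r0_one0_4_k3, s3r_1_r0_one0_4_k4, s3r_1_r0_one0_4_k5]

def s3r_1_r0_one0_5 : cellOk stS3R s3r_1 s3r_1_m0 false .one ((stS3R.bins .one).getD 5 b00)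
    ((s3r_1_m0.g false .one).getD 5 e00) = true := by decide +kernel

def s3r_1_r0_one0_6 : cellOk stS3R s3r_1 s3r_1_m0 false .one ((stS3R.bins .one).getD 6 b00)
    ((s3r_1_m0.g false .one).getD 6 e00) = true := by decide +kernel

/-- check -/
def s3r_1_r0_one0_7_x0 : Ck := (cks stS3R s3r_1 s3r_1_m0 false .one
    ((stS3R.bins .one).getD 7 b00)
    ((s3r_1_m0.g false .one).getD 7 e00).g).getD 0 ckd

theorem s3r_1_r0_one0_7_k0 : ck1 s3r_1_r0_one0_7_x0 (((s3r_1_m0.g false .one).getD 7 e00).c.getD 0 0) = true := by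
  decide +kernel

/-- check -/
def s3r_1_r0_one0_7_x1 : Ck := (cks stS3R s3r_1 s3r_1_m0 false .one
    ((stS3R.bins .one).getD 7 b00)
    ((s3r_1_m0.g false .one).getD 7 e00).g).getD 1 ckd

theorem s3r_1_r0_one0_7_k1 : ck1 s3r_1_r0_one0_7_x1 (((s3r_1_m0.g false .one).getD 7 e00).c.getD 1 0) = true := by
  decide +kernel

/-- check -/
def s3r_1_r0_one0_7_x2 : Ck := (cks stS3R s3r_1 s3r_1_m0 false .one
    ((stS3R.bins .one).getD 7 b00)
    ((s3r_1_m0.g false .one).getD 7 e00).g).getD 2 ckd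

theorem s3r_1_r0_one0_7_k2 : ck1 s3r_1_r0_one0_7_x2 (((s3r_1_m0.g false .one).getD 7 e00).c.getD 2 0) = true := by
  decide +kernel

/-- check -/
def s3r_1_r0_one0_7_x3 : Ck := (cks stS3R s3r_1 s3r_1_m0 false .one
    ((stS3R.bins .one).getD 7 b00)
    ((s3r_1_m0.g false .one).getD 7 e00).g).getD 3 ckd

theorem s3r_1_r0_one0_7_k3 : ck1 s3r_1_r0_one0_7_x3 (((s3r_1_m0.g false .one).getD 7 e00).c.getD 3 0) = true := by
  decide +kernel

/-- check -/
def s3r_1_r0_one0_7_x4 : Ck := (cks stS3R s3r_1 s3r_1_m0 false .one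
    ((stS3R.bins .one).getD 7 b00)
    ((s3r_1_m0.g false .one).getD 7 e00).g).getD 4 ckd

theorem s3r_1_r0_one0_7_k4 : ck1 s3r_1_r0_one0_7_x4 (((s3r_1_m0.g false .one).getD 7 e00).c.getD 4 0) = true := by
  decide +kernel

/-- check -/
def s3r_1_r0_one0_7_x5 : Ck := (cks stS3R s3r_1 s3r_1_m0 false .one
    ((stS3R.bins .one).getD 7 b00)
    ((s3r_1_m0.g false .one).getD 7 e00).g).getD 5 ckd

theorem s3r_1_r0_one0_7_k5 : ck1 s3r_1_r0_one0_7_x5 (((s3r_1_m0.g false .one).getD 7 e00).c.getD 5 0) = true := by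
  decide +kernel

def s3r_1_r0_one0_7 : cellOk stS3R s3r_1 s3r_1_m0 false .one ((stS3R.bins .one).getD 7 b00)
    ((s3r_1_m0.g false .one).getD 7 e00) = true :=
  cellOk_of 6 (by decide +kernel) (by decide +kernel) fun k hk => by
    interval_cases k
    exacts [s3r_1_r0_one0_7_k0, s3r_1_r0_one0_7_k1, s3r_1_r0_one0_7_k2, s3r_1_r0_one0_7_k3, s3r_1_r0_one0_7_k4, s3r_1_r0_one0_7_k5]

theorem s3r_1_r0_one0 : rowsOk stS3R s3r_1 s3r_1_m0 false .one = true := by
  refine rowsOk_of fun i hi => ?_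
  have hi : i < 8 := hi
  interval_cases i
  exacts [s3r_1_r0_one0_0, s3r_1_r0_one0_1, s3r_1_r0_one0_2, s3r_1_r0_one0_3, s3r_1_r0_one0_4, s3r_1_r0_one0_5, s3r_1_r0_one0_6, s3r_1_r0_one0_7]

def s3r_1_r0_one1_0 : cellOk stS3R s3r_1 s3r_1_m0 true .one ((stS3R.bins .one).getD 0 b00)
    ((s3r_1_m0.g true .one).getD 0 e00) = true := by decide +kernel

def s3r_1_r0_one1_1 : cellOk stS3R s3r_1 s3r_1_m0 true .one ((stS3R.bins .one).getD 1 b00)
    ((s3r_1_m0.g true .one).getD 1 e00) = true := by decide +kernel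

def s3r_1_r0_one1_2 : cellOk stS3R s3r_1 s3r_1_m0 true .one ((stS3R.bins .one).getD 2 b00)
    ((s3r_1_m0.g true .one).getD 2 e00) = true := by decide +kernel

def s3r_1_r0_one1_3 : cellOk stS3R s3r_1 s3r_1_m0 true .one ((stS3R.bins .one).getD 3 b00)
    ((s3r_1_m0.g true .one).getD 3 e00) = true := by decide +kernel

/-- check -/
def s3r_1_r0_one1_4_x0 : Ck := (cks stS3R s3r_1 s3r_1_m0 true .one
    ((stS3R.bins .one).getD 4 b00)
    ((s3r_1_m0.g true .one).getD 4 e00).g).getD 0 ckd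

theorem s3r_1_r0_one1_4_k0_q1 : runT s3r_1_r0_one1_4_x0.2.1 39
    145005219187516876110059702745840291792736847040588572669408147348916073552079277918824308196874174202962054376909890183373707820035748249326300014263709434766699211153878461088700502577
    (NumIs.setL 2 (s3r_1_r0_one1_4_x0.2.2)) =
    6818112639786946349007553209290057400569709070947815320375255410696415555877547427823324141374249353539873387681830348709347834951074159637935165747 := by
  decide +kernel

theorem s3r_1_r0_one1_4_k0_q2 : runT s3r_1_r0_one1_4_x0.2.1 38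
    426132039986684146812972075580628587535606816934238457523453463168525972242346714238957758835890584596242086730114396794334239684442134977370947859
    (NumIs.setL 2 (NumIs.setR 2 (s3r_1_r0_one1_4_x0.2.2))) =
    94620320464740925017859590879926964820524752249717094781601081791794432494479386406051659460712107606870554905612457473459251319091 := by
  decide +kernel

theorem s3r_1_r0_one1_4_k0_q3 : runT s3r_1_r0_one1_4_x0.2.1 37
    5913770029046307813616224429995435301282797015607318423850067611987152030904961650378228716294506725429409681600778592091203207443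
    (NumIs.setL 2 (NumIs.setR 2 (NumIs.setR 2 (s3r_1_r0_one1_4_x0.2.2)))) =
    5129377850457337272724517669357717585406836367448965584162473920609673388054107522735493223781192838874572263731 := by
  decide +kernel

theorem s3r_1_r0_one1_4_k0_q4 : runT s3r_1_r0_one1_4_x0.2.1 36
    320586115653583579545282354334857349087927272965560349010154620038104586753381720170968326486324552429660766483
    (NumIs.setL 2 (NumIs.setR 2 (NumIs.setR 2 (NumIs.setR 2 (s3r_1_r0_one1_4_x0.2.2))))) =
    3858914999325163654537393945349449418008384603818879955715780359451341717780 := by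
  decide +kernel

theorem s3r_1_r0_one1_4_k0_q5 : runT s3r_1_r0_one1_4_x0.2.1 36
    3858914999325163654537393945349449418008384603818879955715780359451341717779
    (NumIs.setR 2 (NumIs.setR 2 (NumIs.setR 2 (NumIs.setR 2 (s3r_1_r0_one1_4_x0.2.2))))) =
    1 := by
  decide +kernel

theorem s3r_1_r0_one1_4_k0_c : chkT s3r_1_r0_one1_4_x0.2.1 40
    2320083507000270017760955243933444668683789552649417162710530357582657176833268446701188931149986787247392870030558242933979325120571971989220800228219350956267187378462055377419208041234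
    s3r_1_r0_one1_4_x0.2.2 = true :=
  chkT_of (runT_split rfl rfl rfl
        s3r_1_r0_one1_4_k0_q1
        (runT_split rfl rfl rfl
          s3r_1_r0_one1_4_k0_q2
          (runT_split rfl rfl rfl
            s3r_1_r0_one1_4_k0_q3
            (runT_split rfl rfl rfl
              s3r_1_r0_one1_4_k0_q4
              s3r_1_r0_one1_4_k0_q5))))

theorem s3r_1_r0_one1_4_k0 : ck1 s3r_1_r0_one1_4_x0 (((s3r_1_m0.g true .one).getD 4 e00).c.getD 0 0) = true :=
  ck1_of (by decide +kernel) s3r_1_r0_one1_4_k0_c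

/-- check -/
def s3r_1_r0_one1_4_x1 : Ck := (cks stS3R s3r_1 s3r_1_m0 true .one
    ((stS3R.bins .one).getD 4 b00)
    ((s3r_1_m0.g true .one).getD 4 e00).g).getD 1 ckd

theorem s3r_1_r0_one1_4_k1 : ck1 s3r_1_r0_one1_4_x1 (((s3r_1_m0.g true .one).getD 4 e00).c.getD 1 0) = true := by
  decide +kernel

/-- check -/
def s3r_1_r0_one1_4_x2 : Ck := (cks stS3R s3r_1 s3r_1_m0 true .one
    ((stS3R.bins .one).getD 4 b00)
    ((s3r_1_m0.g true .one).getD 4 e00).g).getD 2 ckd

theorem s3r_1_r0_one1_4_k2 : ck1 s3r_1_r0_one1_4_x2 (((s3r_1_m0.g true .one).getD 4 e00).c.getD 2 0) = true := by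
  decide +kernel

/-- check -/
def s3r_1_r0_one1_4_x3 : Ck := (cks stS3R s3r_1 s3r_1_m0 true .one
    ((stS3R.bins .one).getD 4 b00)
    ((s3r_1_m0.g true .one).getD 4 e00).g).getD 3 ckd

theorem s3r_1_r0_one1_4_k3 : ck1 s3r_1_r0_one1_4_x3 (((s3r_1_m0.g true .one).getD 4 e00).c.getD 3 0) = true := by
  decide +kernel

/-- check -/
def s3r_1_r0_one1_4_x4 : Ck := (cks stS3R s3r_1 s3r_1_m0 true .one
    ((stS3R.bins .one).getD 4 b00)
    ((s3r_1_m0.g true .one).getD 4 e00).g).getD 4 ckd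

theorem s3r_1_r0_one1_4_k4 : ck1 s3r_1_r0_one1_4_x4 (((s3r_1_m0.g true .one).getD 4 e00).c.getD 4 0) = true := by
  decide +kernel

/-- check -/
def s3r_1_r0_one1_4_x5 : Ck := (cks stS3R s3r_1 s3r_1_m0 true .one
    ((stS3R.bins .one).getD 4 b00)
    ((s3r_1_m0.g true .one).getD 4 e00).g).getD 5 ckd

theorem s3r_1_r0_one1_4_k5_q1 : runT s3r_1_r0_one1_4_x5.2.1 38
    22030510116454210550191943813192953489153337550993146584890246191054785117013767325700781632482685933646097915917756797234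
    (NumIs.setL 2 (NumIs.setL 2 (s3r_1_r0_one1_4_x5.2.2))) =
    10814983324986082182359477158164 := by
  decide +kernel

theorem s3r_1_r0_one1_4_k5_q2 : runT s3r_1_r0_one1_4_x5.2.1 38
    10814983324986082182359477158163
    (NumIs.setR 2 (NumIs.setL 2 (s3r_1_r0_one1_4_x5.2.2))) =
    9380502733076 := by
  decide +kernel

theorem s3r_1_r0_one1_4_k5_q3 : runT s3r_1_r0_one1_4_x5.2.1 39
    9380502733075
    (NumIs.setR 2 (s3r_1_r0_one1_4_x5.2.2)) =
    1 := by
  decide +kernel

theorem s3r_1_r0_one1_4_k5_c : chkT s3r_1_r0_one1_4_x5.2.1 40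
    5639810589812277900849137616177396093223254413054245525731903024910024989955524435379400097915567599013401066474945740091938
    s3r_1_r0_one1_4_x5.2.2 = true :=
  chkT_of (runT_split rfl rfl rfl
        (runT_split rfl rfl rfl
          s3r_1_r0_one1_4_k5_q1
          s3r_1_r0_one1_4_k5_q2)
        s3r_1_r0_one1_4_k5_q3)

theorem s3r_1_r0_one1_4_k5 : ck1 s3r_1_r0_one1_4_x5 (((s3r_1_m0.g true .one).getD 4 e00).c.getD 5 0) = true :=
  ck1_of (by decide +kernel) s3r_1_r0_one1_4_k5_c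

def s3r_1_r0_one1_4 : cellOk stS3R s3r_1 s3r_1_m0 true .one ((stS3R.bins .one).getD 4 b00)
    ((s3r_1_m0.g true .one).getD 4 e00) = true :=
  cellOk_of 6 (by decide +kernel) (by decide +kernel) fun k hk => by
    interval_cases k
    exacts [s3r_1_r0_one1_4_k0, s3r_1_r0_one1_4_k1, s3r_1_r0_one1_4_k2, s3r_1_r0_one1_4_k3, s3r_1_r0_one1_4_k4, s3r_1_r0_one1_4_k5]

def s3r_1_r0_one1_5 : cellOk stS3R s3r_1 s3r_1_m0 true .one ((stS3R.bins .one).getD 5 b00)
    ((s3r_1_m0.g true .one).getD 5 e00) = true := by decide +kernel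

def s3r_1_r0_one1_6 : cellOk stS3R s3r_1 s3r_1_m0 true .one ((stS3R.bins .one).getD 6 b00)
    ((s3r_1_m0.g true .one).getD 6 e00) = true := by decide +kernel

def s3r_1_r0_one1_7 : cellOk stS3R s3r_1 s3r_1_m0 true .one ((stS3R.bins .one).getD 7 b00)
    ((s3r_1_m0.g true .one).getD 7 e00) = true := by decide +kernel

theorem s3r_1_r0_one1 : rowsOk stS3R s3r_1 s3r_1_m0 true .one = true := by
  refine rowsOk_of fun i hi => ?_
  have hi : i < 8 := hi
  interval_cases i
  exacts [s3r_1_r0_one1_0, s3r_1_r0_one1_1, s3r_1_r0_one1_2, s3r_1_r0_one1_3, s3r_1_r0_one1_4, s3r_1_r0_one1_5, s3r_1_r0_one1_6, s3r_1_r0_one1_7]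

def s3r_1_r0_two0_0 : cellOk stS3R s3r_1 s3r_1_m0 false .two ((stS3R.bins .two).getD 0 b00)
    ((s3r_1_m0.g false .two).getD 0 e00) = true := by decide +kernel

def s3r_1_r0_two0_1 : cellOk stS3R s3r_1 s3r_1_m0 false .two ((stS3R.bins .two).getD 1 b00)
    ((s3r_1_m0.g false .two).getD 1 e00) = true := by decide +kernel

def s3r_1_r0_two0_2 : cellOk stS3R s3r_1 s3r_1_m0 false .two ((stS3R.bins .two).getD 2 b00)
    ((s3r_1_m0.g false .two).getD 2 e00) = true := by decide +kernel

/-- check -/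
def s3r_1_r0_two0_3_x0 : Ck := (cks stS3R s3r_1 s3r_1_m0 false .two
    ((stS3R.bins .two).getD 3 b00)
    ((s3r_1_m0.g false .two).getD 3 e00).g).getD 0 ckd

theorem s3r_1_r0_two0_3_k0 : ck1 s3r_1_r0_two0_3_x0 (((s3r_1_m0.g false .two).getD 3 e00).c.getD 0 0) = true := by
  decide +kernel

/-- check -/
def s3r_1_r0_two0_3_x1 : Ck := (cks stS3R s3r_1 s3r_1_m0 false .two
    ((stS3R.bins .two).getD 3 b00)
    ((s3r_1_m0.g false .two).getD 3 e00).g).getD 1 ckd

theorem s3r_1_r0_two0_3_k1 : ck1 s3r_1_r0_two0_3_x1 (((s3r_1_m0.g false .two).getD 3 e00).c.getD 1 0) = true := by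
  decide +kernel

/-- check -/
def s3r_1_r0_two0_3_x2 : Ck := (cks stS3R s3r_1 s3r_1_m0 false .two
    ((stS3R.bins .two).getD 3 b00)
    ((s3r_1_m0.g false .two).getD 3 e00).g).getD 2 ckd

theorem s3r_1_r0_two0_3_k2 : ck1 s3r_1_r0_two0_3_x2 (((s3r_1_m0.g false .two).getD 3 e00).c.getD 2 0) = true := by
  decide +kernel

/-- check -/
def s3r_1_r0_two0_3_x3 : Ck := (cks stS3R s3r_1 s3r_1_m0 false .two
    ((stS3R.bins .two).getD 3 b00)
    ((s3r_1_m0.g false .two).getD 3 e00).g).getD 3 ckd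

theorem s3r_1_r0_two0_3_k3 : ck1 s3r_1_r0_two0_3_x3 (((s3r_1_m0.g false .two).getD 3 e00).c.getD 3 0) = true := by
  decide +kernel

/-- check -/
def s3r_1_r0_two0_3_x4 : Ck := (cks stS3R s3r_1 s3r_1_m0 false .two
    ((stS3R.bins .two).getD 3 b00)
    ((s3r_1_m0.g false .two).getD 3 e00).g).getD 4 ckd

theorem s3r_1_r0_two0_3_k4 : ck1 s3r_1_r0_two0_3_x4 (((s3r_1_m0.g false .two).getD 3 e00).c.getD 4 0) = true := by
  decide +kernel

/-- check -/
def s3r_1_r0_two0_3_x5 : Ck := (cks stS3R s3r_1 s3r_1_m0 false .two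
    ((stS3R.bins .two).getD 3 b00)
    ((s3r_1_m0.g false .two).getD 3 e00).g).getD 5 ckd

theorem s3r_1_r0_two0_3_k5 : ck1 s3r_1_r0_two0_3_x5 (((s3r_1_m0.g false .two).getD 3 e00).c.getD 5 0) = true := by
  decide +kernel

def s3r_1_r0_two0_3 : cellOk stS3R s3r_1 s3r_1_m0 false .two ((stS3R.bins .two).getD 3 b00)
    ((s3r_1_m0.g false .two).getD 3 e00) = true :=
  cellOk_of 6 (by decide +kernel) (by decide +kernel) fun k hk => by
    interval_cases k
    exacts [s3r_1_r0_two0_3_k0, s3r_1_r0_two0_3_k1, s3r_1_r0_two0_3_k2, s3r_1_r0_two0_3_k3, s3r_1_r0_two0_3_k4, s3r_1_r0_two0_3_k5]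

def s3r_1_r0_two0_4 : cellOk stS3R s3r_1 s3r_1_m0 false .two ((stS3R.bins .two).getD 4 b00)
    ((s3r_1_m0.g false .two).getD 4 e00) = true := by decide +kernel

def s3r_1_r0_two0_5 : cellOk stS3R s3r_1 s3r_1_m0 false .two ((stS3R.bins .two).getD 5 b00)
    ((s3r_1_m0.g false .two).getD 5 e00) = true := by decide +kernel

def s3r_1_r0_two0 : rowsOk stS3R s3r_1 s3r_1_m0 false .two = true := by
  refine rowsOk_of fun i hi => ?_
  have hi : i < 6 := hi
  interval_cases i
  exacts [s3r_1_r0_two0_0, s3r_1_r0_two0_1, s3r_1_r0_two0_2, s3r_1_r0_two0_3, s3r_1_r0_two0_4, s3r_1_r0_two0_5]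

def s3r_1_r0_two1_0 : cellOk stS3R s3r_1 s3r_1_m0 true .two ((stS3R.bins .two).getD 0 b00)
    ((s3r_1_m0.g true .two).getD 0 e00) = true := by decide +kernel

def s3r_1_r0_two1_1 : cellOk stS3R s3r_1 s3r_1_m0 true .two ((stS3R.bins .two).getD 1 b00)
    ((s3r_1_m0.g true .two).getD 1 e00) = true := by decide +kernel

def s3r_1_r0_two1_2 : cellOk stS3R s3r_1 s3r_1_m0 true .two ((stS3R.bins .two).getD 2 b00)
    ((s3r_1_m0.g true .two).getD 2 e00) = true := by decide +kernel

/-- check -/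
def s3r_1_r0_two1_3_x0 : Ck := (cks stS3R s3r_1 s3r_1_m0 true .two
    ((stS3R.bins .two).getD 3 b00)
    ((s3r_1_m0.g true .two).getD 3 e00).g).getD 0 ckd

theorem s3r_1_r0_two1_3_k0 : ck1 s3r_1_r0_two1_3_x0 (((s3r_1_m0.g true .two).getD 3 e00).c.getD 0 0) = true := by
  decide +kernel

/-- check -/
def s3r_1_r0_two1_3_x1 : Ck := (cks stS3R s3r_1 s3r_1_m0 true .two
    ((stS3R.bins .two).getD 3 b00)
    ((s3r_1_m0.g true .two).getD 3 e00).g).getD 1 ckd

theorem s3r_1_r0_two1_3_k1 : ck1 s3r_1_r0_two1_3_x1 (((s3r_1_m0.g true .two).getD 3 e00).c.getD 1 0) = true := by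
  decide +kernel

/-- check -/
def s3r_1_r0_two1_3_x2 : Ck := (cks stS3R s3r_1 s3r_1_m0 true .two
    ((stS3R.bins .two).getD 3 b00)
    ((s3r_1_m0.g true .two).getD 3 e00).g).getD 2 ckd

theorem s3r_1_r0_two1_3_k2 : ck1 s3r_1_r0_two1_3_x2 (((s3r_1_m0.g true .two).getD 3 e00).c.getD 2 0) = true := by
  decide +kernel

/-- check -/
def s3r_1_r0_two1_3_x3 : Ck := (cks stS3R s3r_1 s3r_1_m0 true .two
    ((stS3R.bins .two).getD 3 b00)
    ((s3r_1_m0.g true .two).getD 3 e00).g).getD 3 ckd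

theorem s3r_1_r0_two1_3_k3 : ck1 s3r_1_r0_two1_3_x3 (((s3r_1_m0.g true .two).getD 3 e00).c.getD 3 0) = true := by
  decide +kernel

/-- check -/
def s3r_1_r0_two1_3_x4 : Ck := (cks stS3R s3r_1 s3r_1_m0 true .two
    ((stS3R.bins .two).getD 3 b00)
    ((s3r_1_m0.g true .two).getD 3 e00).g).getD 4 ckd

theorem s3r_1_r0_two1_3_k4 : ck1 s3r_1_r0_two1_3_x4 (((s3r_1_m0.g true .two).getD 3 e00).c.getD 4 0) = true := by
  decide +kernel

/-- check -/
def s3r_1_r0_two1_3_x5 : Ck := (cks stS3R s3r_1 s3r_1_m0 true .two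
    ((stS3R.bins .two).getD 3 b00)
    ((s3r_1_m0.g true .two).getD 3 e00).g).getD 5 ckd

theorem s3r_1_r0_two1_3_k5 : ck1 s3r_1_r0_two1_3_x5 (((s3r_1_m0.g true .two).getD 3 e00).c.getD 5 0) = true := by
  decide +kernel

def s3r_1_r0_two1_3 : cellOk stS3R s3r_1 s3r_1_m0 true .two ((stS3R.bins .two).getD 3 b00)
    ((s3r_1_m0.g true .two).getD 3 e00) = true :=
  cellOk_of 6 (by decide +kernel) (by decide +kernel) fun k hk => by
    interval_cases k
    exacts [s3r_1_r0_two1_3_k0, s3r_1_r0_two1_3_k1, s3r_1_r0_two1_3_k2, s3r_1_r0_two1_3_k3, s3r_1_r0_two1_3_k4, s3r_1_r0_two1_3_k5]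

def s3r_1_r0_two1_4 : cellOk stS3R s3r_1 s3r_1_m0 true .two ((stS3R.bins .two).getD 4 b00)
    ((s3r_1_m0.g true .two).getD 4 e00) = true := by decide +kernel

def s3r_1_r0_two1_5 : cellOk stS3R s3r_1 s3r_1_m0 true .two ((stS3R.bins .two).getD 5 b00)
    ((s3r_1_m0.g true .two).getD 5 e00) = true := by decide +kernel

def s3r_1_r0_two1 : rowsOk stS3R s3r_1 s3r_1_m0 true .two = true := by
  refine rowsOk_of fun i hi => ?_
  have hi : i < 6 := hi
  interval_cases i
  exacts [s3r_1_r0_two1_0, s3r_1_r0_two1_1, s3r_1_r0_two1_2, s3r_1_r0_two1_3, s3r_1_r0_two1_4, s3r_1_r0_two1_5]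

def s3r_1_r0_twoE0 : rowsOk stS3R s3r_1 s3r_1_m0 false .twoE = true := by decide +kernel

end OR

end Pool.Agent.Work.MP_b30479_gtS.G2
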