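import Pool.Agent.Work.MP_b30479_gt.TBS.G2.OS2f_14d
import Pool.Agent.Work.MP_b30479_gt.TBS.G2.OTab

set_option deprecated.oldSectionVars true

namespace Pool.Agent.Work.MP_b30479_gtS.G2

namespace OR

set_option linter.defProp false

def s3r_1_r0_twoE1 : rowsOk stS3R s3r_1 s3r_1_m0 true .twoE = true := by decide +kernel

def s3r_1_r0_thrR0 : rowsOk stS3R s3r_1 s3r_1_m0 false .thrR = true := by decide +kernel

def s3r_1_r0_thrR1 : rowsOk stS3R s3r_1 s3r_1_m0 true .thrR = true := by decide +kernel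

def s3r_1_r0_thrL0 : rowsOk stS3R s3r_1 s3r_1_m0 false .thrL = true := by decide +kernel

def s3r_1_r0_thrL1 : rowsOk stS3R s3r_1 s3r_1_m0 true .thrL = true := by decide +kernel

def s3r_1_r0_threeE0 : rowsOk stS3R s3r_1 s3r_1_m0 false .threeE = true := by decide +kernel

def s3r_1_r0_threeE1 : rowsOk stS3R s3r_1 s3r_1_m0 true .threeE = true := by decide +kernel

def s3r_1_r0_ring0 : rowsOk stS3R s3r_1 s3r_1_m0 false .ring = true := by decide +kernel

def s3r_1_r0_ring1 : rowsOk stS3R s3r_1 s3r_1_m0 true .ring = true := by decide +kernel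

def s3r_1_r1_one0_0 : cellOk stS3R s3r_1 s3r_1_m1 false .one ((stS3R.bins .one).getD 0 b00)
    ((s3r_1_m1.g false .one).getD 0 e00) = true := by decide +kernel

def s3r_1_r1_one0_1 : cellOk stS3R s3r_1 s3r_1_m1 false .one ((stS3R.bins .one).getD 1 b00)
    ((s3r_1_m1.g false .one).getD 1 e00) = true := by decide +kernel

def s3r_1_r1_one0_2 : cellOk stS3R s3r_1 s3r_1_m1 false .one ((stS3R.bins .one).getD 2 b00)
    ((s3r_1_m1.g false .one).getD 2 e00) = true := by decide +kernel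

def s3r_1_r1_one0_3 : cellOk stS3R s3r_1 s3r_1_m1 false .one ((stS3R.bins .one).getD 3 b00)
    ((s3r_1_m1.g false .one).getD 3 e00) = true := by decide +kernel

/-- check -/
def s3r_1_r1_one0_4_x0 : Ck := (cks stS3R s3r_1 s3r_1_m1 false .one
    ((stS3R.bins .one).getD 4 b00)
    ((s3r_1_m1.g false .one).getD 4 e00).g).getD 0 ckd

theorem s3r_1_r1_one0_4_k0 : ck1 s3r_1_r1_one0_4_x0 (((s3r_1_m1.g false .one).getD 4 e00).c.getD 0 0) = true := by
  decide +kernel

/-- check -/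
def s3r_1_r1_one0_4_x1 : Ck := (cks stS3R s3r_1 s3r_1_m1 false .one
    ((stS3R.bins .one).getD 4 b00)
    ((s3r_1_m1.g false .one).getD 4 e00).g).getD 1 ckd

theorem s3r_1_r1_one0_4_k1 : ck1 s3r_1_r1_one0_4_x1 (((s3r_1_m1.g false .one).getD 4 e00).c.getD 1 0) = true := by
  decide +kernel

/-- check -/
def s3r_1_r1_one0_4_x2 : Ck := (cks stS3R s3r_1 s3r_1_m1 false .one
    ((stS3R.bins .one).getD 4 b00)
    ((s3r_1_m1.g false .one).getD 4 e00).g).getD 2 ckd

theorem s3r_1_r1_one0_4_k2 : ck1 s3r_1_r1_one0_4_x2 (((s3r_1_m1.g false .one).getD 4 e00).c.getD 2 0) = true := by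
  decide +kernel

/-- check -/
def s3r_1_r1_one0_4_x3 : Ck := (cks stS3R s3r_1 s3r_1_m1 false .one
    ((stS3R.bins .one).getD 4 b00)
    ((s3r_1_m1.g false .one).getD 4 e00).g).getD 3 ckd

theorem s3r_1_r1_one0_4_k3 : ck1 s3r_1_r1_one0_4_x3 (((s3r_1_m1.g false .one).getD 4 e00).c.getD 3 0) = true := by
  decide +kernel

/-- check -/
def s3r_1_r1_one0_4_x4 : Ck := (cks stS3R s3r_1 s3r_1_m1 false .one
    ((stS3R.bins .one).getD 4 b00)
    ((s3r_1_m1.g false .one).getD 4 e00).g).getD 4 ckd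

theorem s3r_1_r1_one0_4_k4 : ck1 s3r_1_r1_one0_4_x4 (((s3r_1_m1.g false .one).getD 4 e00).c.getD 4 0) = true := by
  decide +kernel

/-- check -/
def s3r_1_r1_one0_4_x5 : Ck := (cks stS3R s3r_1 s3r_1_m1 false .one
    ((stS3R.bins .one).getD 4 b00)
    ((s3r_1_m1.g false .one).getD 4 e00).g).getD 5 ckd

theorem s3r_1_r1_one0_4_k5 : ck1 s3r_1_r1_one0_4_x5 (((s3r_1_m1.g false .one).getD 4 e00).c.getD 5 0) = true := by
  decide +kernel

def s3r_1_r1_one0_4 : cellOk stS3R s3r_1 s3r_1_m1 false .one ((stS3R.bins .one).getD 4 b00)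
    ((s3r_1_m1.g false .one).getD 4 e00) = true :=
  cellOk_of 6 (by decide +kernel) (by decide +kernel) fun k hk => by
    interval_cases k
    exacts [s3r_1_r1_one0_4_k0, s3r_1_r1_one0_4_k1, s3r_1_r1_one0_4_k2, s3r_1_r1_one0_4_k3, s3r_1_r1_one0_4_k4, s3r_1_r1_one0_4_k5]

def s3r_1_r1_one0_5 : cellOk stS3R s3r_1 s3r_1_m1 false .one ((stS3R.bins .one).getD 5 b00)
    ((s3r_1_m1.g false .one).getD 5 e00) = true := by decide +kernel

def s3r_1_r1_one0_6 : cellOk stS3R s3r_1 s3r_1_m1 false .one ((stS3R.bins .one).getD 6 b00)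
    ((s3r_1_m1.g false .one).getD 6 e00) = true := by decide +kernel

def s3r_1_r1_one0_7 : cellOk stS3R s3r_1 s3r_1_m1 false .one ((stS3R.bins .one).getD 7 b00)
    ((s3r_1_m1.g false .one).getD 7 e00) = true := by decide +kernel

theorem s3r_1_r1_one0 : rowsOk stS3R s3r_1 s3r_1_m1 false .one = true := by
  refine rowsOk_of fun i hi => ?_
  have hi : i < 8 := hi
  interval_cases i
  exacts [s3r_1_r1_one0_0, s3r_1_r1_one0_1, s3r_1_r1_one0_2, s3r_1_r1_one0_3, s3r_1_r1_one0_4, s3r_1_r1_one0_5, s3r_1_r1_one0_6, s3r_1_r1_one0_7]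

def s3r_1_r1_one1 : rowsOk stS3R s3r_1 s3r_1_m1 true .one = true := by decide +kernel

def s3r_1_r1_two0 : rowsOk stS3R s3r_1 s3r_1_m1 false .two = true := by decide +kernel

def s3r_1_r1_two1 : rowsOk stS3R s3r_1 s3r_1_m1 true .two = true := by decide +kernel

def s3r_1_r1_twoE0 : rowsOk stS3R s3r_1 s3r_1_m1 false .twoE = true := by decide +kernel

def s3r_1_r1_twoE1 : rowsOk stS3R s3r_1 s3r_1_m1 true .twoE = true := by decide +kernel

def s3r_1_r1_thrR0 : rowsOk stS3R s3r_1 s3r_1_m1 false .thrR = true := by decide +kernel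

def s3r_1_r1_thrR1 : rowsOk stS3R s3r_1 s3r_1_m1 true .thrR = true := by decide +kernel

def s3r_1_r1_thrL0 : rowsOk stS3R s3r_1 s3r_1_m1 false .thrL = true := by decide +kernel

def s3r_1_r1_thrL1 : rowsOk stS3R s3r_1 s3r_1_m1 true .thrL = true := by decide +kernel

def s3r_1_r1_threeE0 : rowsOk stS3R s3r_1 s3r_1_m1 false .threeE = true := by decide +kernel

def s3r_1_r1_threeE1 : rowsOk stS3R s3r_1 s3r_1_m1 true .threeE = true := by decide +kernel

def s3r_1_r1_ring0 : rowsOk stS3R s3r_1 s3r_1_m1 false .ring = true := by decide +kernel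

def s3r_1_r1_ring1 : rowsOk stS3R s3r_1 s3r_1_m1 true .ring = true := by decide +kernel

end OR

end Pool.Agent.Work.MP_b30479_gtS.G2
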