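import Pool.Agent.Work.MP_b30479_gt.TBS.G2.OTab

section

set_option deprecated.oldSectionVars true

namespace Pool.Agent.Work.MP_b30479_gtS.G2

namespace OR

/-- windows -/
def a3z_0_wp : PC → Win
  | .one => ⟨-890, 290, -820, 330, 0, 430⟩
  | .two => ⟨0, 0, 0, 0, 0, 0⟩
  | .twoE => ⟨0, 0, 0, 0, 0, 0⟩
  | .thrR => ⟨0, 0, 0, 0, 0, 0⟩
  | .thrL => ⟨0, 0, 0, 0, 0, 0⟩
  | .threeE => ⟨0, 0, 0, 0, 0, 0⟩
  | .ring => ⟨480, 1330, 470, 1500, 0, 610⟩

/-- windows -/
def a3z_0_wq : PC → Win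
  | .one => ⟨-890, 290, -820, 330, -610, 0⟩
  | .two => ⟨0, 0, 0, 0, 0, 0⟩
  | .twoE => ⟨0, 0, 0, 0, 0, 0⟩
  | .thrR => ⟨0, 0, 0, 0, 0, 0⟩
  | .thrL => ⟨0, 0, 0, 0, 0, 0⟩
  | .threeE => ⟨0, 0, 0, 0, 0, 0⟩
  | .ring => ⟨480, 1330, 470, 1500, -430, 0⟩

/-- mode -/
def a3z_0_m0 : Mode where
  md := .D
  lam := 1000
  ct := 12000
  gp := fun
    | .one => [⟨-799, [674532531441964147946633267249]⟩, ⟨-1479, [53441970029113585366453618313332060975019736899347305468466]⟩, ⟨-1479, [142837810]⟩, ⟨-1479, [172601090215757331544388287365938]⟩, e00, e00, e00, e00]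
    | .two => [e00, e00, e00, e00, e00, e00]
    | .twoE => [e00, e00, e00, e00, e00, e00]
    | .thrR => [e00, e00, e00, e00, e00, e00]
    | .thrL => [e00, e00, e00, e00, e00, e00]
    | .threeE => [e00, e00, e00, e00, e00, e00]
    | .ring => [⟨482, [12431507335097250363027795043657790631363885629730]⟩, ⟨482, [40168368578570885498899]⟩, ⟨482, [9352350564659]⟩, e00, e00, e00]
  gq := fun
    | .one => [⟨-1006, [2179]⟩, ⟨-1686, [612915645110583602]⟩, ⟨-1686, [36532553763]⟩, ⟨-1686, [740975589207826027906829774198627943088434]⟩, e00, e00, e00, e00]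
    | .two => [e00, e00, e00, e00, e00, e00]
    | .twoE => [e00, e00, e00, e00, e00, e00]
    | .thrR => [e00, e00, e00, e00, e00, e00]
    | .thrL => [e00, e00, e00, e00, e00, e00]
    | .threeE => [e00, e00, e00, e00, e00, e00]
    | .ring => [⟨275, [11301198313279199665338156968527276082]⟩, ⟨275, [2632473908517092919182854195]⟩, ⟨275, [614761705269396019]⟩, e00, e00, e00]

/-- mode -/
def a3z_0_m1 : Mode where
  md := .V 150 1000
  lam := 500
  ct := 1000
  gp := fun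
    | .one => [⟨2136, [8]⟩, ⟨1796, [8]⟩, ⟨1796, [8]⟩, ⟨1796, [557955]⟩, ⟨1796, [156907684293102809730, 142837811, 8, 8, 157410808377051525666, 40297495787249950994978]⟩, ⟨-3138, [0, 0, 0, 0, 40593805499399140815491, 9382498808099]⟩, ⟨-3138, [0, 0, 0, 0, 8, 8]⟩, ⟨-3138, [0, 0, 0, 0, 142837810, 142837810]⟩]
    | .two => [e00, e00, e00, e00, e00, e00]
    | .twoE => [e00, e00, e00, e00, e00, e00]
    | .thrR => [e00, e00, e00, e00, e00, e00]
    | .thrL => [e00, e00, e00, e00, e00, e00]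
    | .threeE => [e00, e00, e00, e00, e00, e00]
    | .ring => [⟨2749, [212719510216801530498]⟩, ⟨2749, [3245910855790979]⟩, ⟨2476, [3245910932947843]⟩, ⟨2476, [612915713563695154, 2179, 8, 8, 143164194, 13]⟩, ⟨2476, [0, 0, 0, 0, 143164194, 2178]⟩, ⟨-2334, [0, 0, 0, 0, 143144978, 8]⟩]
  gq := fun
    | .one => [⟨2070, [8]⟩, ⟨1730, [8]⟩, ⟨1730, [8]⟩, ⟨1730, [557699]⟩, ⟨1730, [2394221256541058, 557955, 8, 8, 614891438968680994, 157412208397104198178]⟩, ⟨-3080, [0, 0, 0, 0, 143135363, 11340352247918746822311321360671584547]⟩, ⟨-3353, [0, 0, 0, 0, 8, 143172371]⟩, ⟨-3353, [0, 0, 0, 0, 36549396530, 4243824938731660511472885456771780231239108032432756364382487732273850749430725236888370]⟩]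
    | .two => [e00, e00, e00, e00, e00, e00]
    | .twoE => [e00, e00, e00, e00, e00, e00]
    | .thrR => [e00, e00, e00, e00, e00, e00]
    | .thrL => [e00, e00, e00, e00, e00, e00]
    | .threeE => [e00, e00, e00, e00, e00, e00]
    | .ring => [⟨2534, [142836098]⟩, ⟨2534, [557443]⟩, ⟨2534, [2179]⟩, ⟨2534, [142837810, 2179, 8, 8, 143164194, 13]⟩, ⟨2534, [0, 0, 0, 0, 559138, 2178]⟩, ⟨-2400, [0, 0, 0, 0, 8, 8]⟩]

/-- mode -/
def a3z_0_m2 : Mode where
  md := .V 450 1000
  lam := 500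
  ct := 1500
  gp := fun
    | .one => [⟨76, [8]⟩, ⟨221, [2179]⟩, ⟨-264, [557955]⟩, ⟨-264, [9361018816562]⟩, ⟨-1095, [743202651336636490208948463753102028735282, 2394221256906803, 8, 8, 675983582443793833927754199586, 173051797105611223361432005587490]⟩, e00, e00, e00]
    | .two => [e00, e00, e00, e00, e00, e00]
    | .twoE => [e00, e00, e00, e00, e00, e00]
    | .thrR => [e00, e00, e00, e00, e00, e00]
    | .thrL => [e00, e00, e00, e00, e00, e00]
    | .threeE => [e00, e00, e00, e00, e00, e00]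
    | .ring => [⟨478, [142705538]⟩, ⟨478, [2179]⟩, ⟨478, [2179]⟩, ⟨-320, [15028647892817024354899128708060180336906872125221706459031141698385295410, 2179, 8, 8, 9361019142946, 13]⟩, ⟨-824, [0, 0, 0, 0, 209234683069125950364413567411491612407967499971854566178, 885378]⟩, e00]
  gq := fun
    | .one => [⟨56, [143163696]⟩, ⟨220, [2178]⟩, ⟨-284, [36642654259]⟩, ⟨-284, [9360923695155]⟩, ⟨-1082, [48560586415430153937663549291589794072109912882, 9361016719379, 8, 8, 173051797103679575402115100062242, 12442935047685021192682955946458917325769483039266]⟩, ⟨-1082, [0, 0, 0, 0, 3502332268635882763434652876222975877391328607380075221415547778, 4651179163061923811998581749624958979624164883348303045192576955918686524340967250033915654193054258]⟩, e00, e00]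
    | .two => [e00, e00, e00, e00, e00, e00]
    | .twoE => [e00, e00, e00, e00, e00, e00]
    | .thrR => [e00, e00, e00, e00, e00, e00]
    | .thrL => [e00, e00, e00, e00, e00, e00]
    | .threeE => [e00, e00, e00, e00, e00, e00]
    | .ring => [⟨491, [2178]⟩, ⟨491, [2179]⟩, ⟨491, [2179]⟩, ⟨-340, [740969548384812497963707107337414580385842, 2179, 8, 8, 9361019142946, 13]⟩, ⟨-825, [0, 0, 0, 0, 53446560399138324486496100144910906969192018450507372921634, 16738492758186473101165186]⟩, e00]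

/-- mode -/
def a3z_0_m3 : Mode where
  md := .V 550 1000
  lam := 250
  ct := 1500
  gp := fun
    | .one => [e00, ⟨-103, [2396422152946226]⟩, e00, e00, e00, e00, e00, e00]
    | .two => [e00, e00, e00, e00, e00, e00]
    | .twoE => [e00, e00, e00, e00, e00, e00]
    | .thrR => [e00, e00, e00, e00, e00, e00]
    | .thrL => [e00, e00, e00, e00, e00, e00]
    | .threeE => [e00, e00, e00, e00, e00, e00]
    | .ring => [e00, e00, e00, ⟨-234, [44300705480898421643637627576989746, 2179, 8, 8, 2396420900487970, 13]⟩, e00, e00]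
  gq := fun
    | .one => [e00, ⟨-70, [2632474203160717973793546275]⟩, e00, e00, e00, e00, e00, e00]
    | .two => [e00, e00, e00, e00, e00, e00]
    | .twoE => [e00, e00, e00, e00, e00, e00]
    | .thrR => [e00, e00, e00, e00, e00, e00]
    | .thrL => [e00, e00, e00, e00, e00, e00]
    | .threeE => [e00, e00, e00, e00, e00, e00]
    | .ring => [e00, e00, e00, ⟨-201, [40168039717967222028338, 2179, 8, 8, 2394201739789090, 13]⟩, e00, e00]

/-- piece -/
def a3z_0 : Piece := ⟨7000, 7250, 0, 820, a3z_0_wp, a3z_0_wq, [a3z_0_m0, a3z_0_m1, a3z_0_m2, a3z_0_m3]⟩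

set_option linter.defProp false

def a3z_0_r0_one0 : rowsOk stA3Z a3z_0 a3z_0_m0 false .one = true := by decide +kernel

def a3z_0_r0_one1 : rowsOk stA3Z a3z_0 a3z_0_m0 true .one = true := by decide +kernel

def a3z_0_r0_two0 : rowsOk stA3Z a3z_0 a3z_0_m0 false .two = true := by decide +kernel

def a3z_0_r0_two1 : rowsOk stA3Z a3z_0 a3z_0_m0 true .two = true := by decide +kernel

def a3z_0_r0_twoE0 : rowsOk stA3Z a3z_0 a3z_0_m0 false .twoE = true := by decide +kernel

def a3z_0_r0_twoE1 : rowsOk stA3Z a3z_0 a3z_0_m0 true .twoE = true := by decide +kernel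

def a3z_0_r0_thrR0 : rowsOk stA3Z a3z_0 a3z_0_m0 false .thrR = true := by decide +kernel

def a3z_0_r0_thrR1 : rowsOk stA3Z a3z_0 a3z_0_m0 true .thrR = true := by decide +kernel

def a3z_0_r0_thrL0 : rowsOk stA3Z a3z_0 a3z_0_m0 false .thrL = true := by decide +kernel

def a3z_0_r0_thrL1 : rowsOk stA3Z a3z_0 a3z_0_m0 true .thrL = true := by decide +kernel

def a3z_0_r0_threeE0 : rowsOk stA3Z a3z_0 a3z_0_m0 false .threeE = true := by decide +kernel

def a3z_0_r0_threeE1 : rowsOk stA3Z a3z_0 a3z_0_m0 true .threeE = true := by decide +kernel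

def a3z_0_r0_ring0 : rowsOk stA3Z a3z_0 a3z_0_m0 false .ring = true := by decide +kernel

def a3z_0_r0_ring1 : rowsOk stA3Z a3z_0 a3z_0_m0 true .ring = true := by decide +kernel

def a3z_0_r1_one0 : rowsOk stA3Z a3z_0 a3z_0_m1 false .one = true := by decide +kernel

def a3z_0_r1_one1 : rowsOk stA3Z a3z_0 a3z_0_m1 true .one = true := by decide +kernel

def a3z_0_r1_two0 : rowsOk stA3Z a3z_0 a3z_0_m1 false .two = true := by decide +kernel

def a3z_0_r1_two1 : rowsOk stA3Z a3z_0 a3z_0_m1 true .two = true := by decide +kernel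

def a3z_0_r1_twoE0 : rowsOk stA3Z a3z_0 a3z_0_m1 false .twoE = true := by decide +kernel

def a3z_0_r1_twoE1 : rowsOk stA3Z a3z_0 a3z_0_m1 true .twoE = true := by decide +kernel

def a3z_0_r1_thrR0 : rowsOk stA3Z a3z_0 a3z_0_m1 false .thrR = true := by decide +kernel

def a3z_0_r1_thrR1 : rowsOk stA3Z a3z_0 a3z_0_m1 true .thrR = true := by decide +kernel

def a3z_0_r1_thrL0 : rowsOk stA3Z a3z_0 a3z_0_m1 false .thrL = true := by decide +kernel

def a3z_0_r1_thrL1 : rowsOk stA3Z a3z_0 a3z_0_m1 true .thrL = true := by decide +kernel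

def a3z_0_r1_threeE0 : rowsOk stA3Z a3z_0 a3z_0_m1 false .threeE = true := by decide +kernel

def a3z_0_r1_threeE1 : rowsOk stA3Z a3z_0 a3z_0_m1 true .threeE = true := by decide +kernel

def a3z_0_r1_ring0 : rowsOk stA3Z a3z_0 a3z_0_m1 false .ring = true := by decide +kernel

def a3z_0_r1_ring1 : rowsOk stA3Z a3z_0 a3z_0_m1 true .ring = true := by decide +kernel

def a3z_0_r2_one0 : rowsOk stA3Z a3z_0 a3z_0_m2 false .one = true := by decide +kernel

def a3z_0_r2_one1_0 : cellOk stA3Z a3z_0 a3z_0_m2 true .one ((stA3Z.bins .one).getD 0 b00)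
    ((a3z_0_m2.g true .one).getD 0 e00) = true := by decide +kernel

def a3z_0_r2_one1_1 : cellOk stA3Z a3z_0 a3z_0_m2 true .one ((stA3Z.bins .one).getD 1 b00)
    ((a3z_0_m2.g true .one).getD 1 e00) = true := by decide +kernel

def a3z_0_r2_one1_2 : cellOk stA3Z a3z_0 a3z_0_m2 true .one ((stA3Z.bins .one).getD 2 b00)
    ((a3z_0_m2.g true .one).getD 2 e00) = true := by decide +kernel

def a3z_0_r2_one1_3 : cellOk stA3Z a3z_0 a3z_0_m2 true .one ((stA3Z.bins .one).getD 3 b00)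
    ((a3z_0_m2.g true .one).getD 3 e00) = true := by decide +kernel

def a3z_0_r2_one1_4 : cellOk stA3Z a3z_0 a3z_0_m2 true .one ((stA3Z.bins .one).getD 4 b00)
    ((a3z_0_m2.g true .one).getD 4 e00) = true := by decide +kernel

def a3z_0_r2_one1_5 : cellOk stA3Z a3z_0 a3z_0_m2 true .one ((stA3Z.bins .one).getD 5 b00)
    ((a3z_0_m2.g true .one).getD 5 e00) = true := by decide +kernel

def a3z_0_r2_one1_6 : cellOk stA3Z a3z_0 a3z_0_m2 true .one ((stA3Z.bins .one).getD 6 b00)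
    ((a3z_0_m2.g true .one).getD 6 e00) = true := by decide +kernel

def a3z_0_r2_one1_7 : cellOk stA3Z a3z_0 a3z_0_m2 true .one ((stA3Z.bins .one).getD 7 b00)
    ((a3z_0_m2.g true .one).getD 7 e00) = true := by decide +kernel

theorem a3z_0_r2_one1 : rowsOk stA3Z a3z_0 a3z_0_m2 true .one = true := by
  refine rowsOk_of fun i hi => ?_
  have hi : i < 8 := hi
  interval_cases i
  exacts [a3z_0_r2_one1_0, a3z_0_r2_one1_1, a3z_0_r2_one1_2, a3z_0_r2_one1_3, a3z_0_r2_one1_4, a3z_0_r2_one1_5, a3z_0_r2_one1_6, a3z_0_r2_one1_7]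

def a3z_0_r2_two0 : rowsOk stA3Z a3z_0 a3z_0_m2 false .two = true := by decide +kernel

def a3z_0_r2_two1 : rowsOk stA3Z a3z_0 a3z_0_m2 true .two = true := by decide +kernel

def a3z_0_r2_twoE0 : rowsOk stA3Z a3z_0 a3z_0_m2 false .twoE = true := by decide +kernel

def a3z_0_r2_twoE1 : rowsOk stA3Z a3z_0 a3z_0_m2 true .twoE = true := by decide +kernel

def a3z_0_r2_thrR0 : rowsOk stA3Z a3z_0 a3z_0_m2 false .thrR = true := by decide +kernel

def a3z_0_r2_thrR1 : rowsOk stA3Z a3z_0 a3z_0_m2 true .thrR = true := by decide +kernel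

def a3z_0_r2_thrL0 : rowsOk stA3Z a3z_0 a3z_0_m2 false .thrL = true := by decide +kernel

def a3z_0_r2_thrL1 : rowsOk stA3Z a3z_0 a3z_0_m2 true .thrL = true := by decide +kernel

def a3z_0_r2_threeE0 : rowsOk stA3Z a3z_0 a3z_0_m2 false .threeE = true := by decide +kernel

def a3z_0_r2_threeE1 : rowsOk stA3Z a3z_0 a3z_0_m2 true .threeE = true := by decide +kernel

def a3z_0_r2_ring0 : rowsOk stA3Z a3z_0 a3z_0_m2 false .ring = true := by decide +kernel

def a3z_0_r2_ring1 : rowsOk stA3Z a3z_0 a3z_0_m2 true .ring = true := by decide +kernel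

def a3z_0_r3_one0 : rowsOk stA3Z a3z_0 a3z_0_m3 false .one = true := by decide +kernel

def a3z_0_r3_one1 : rowsOk stA3Z a3z_0 a3z_0_m3 true .one = true := by decide +kernel

def a3z_0_r3_two0 : rowsOk stA3Z a3z_0 a3z_0_m3 false .two = true := by decide +kernel

def a3z_0_r3_two1 : rowsOk stA3Z a3z_0 a3z_0_m3 true .two = true := by decide +kernel

def a3z_0_r3_twoE0 : rowsOk stA3Z a3z_0 a3z_0_m3 false .twoE = true := by decide +kernel

def a3z_0_r3_twoE1 : rowsOk stA3Z a3z_0 a3z_0_m3 true .twoE = true := by decide +kernel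

def a3z_0_r3_thrR0 : rowsOk stA3Z a3z_0 a3z_0_m3 false .thrR = true := by decide +kernel

def a3z_0_r3_thrR1 : rowsOk stA3Z a3z_0 a3z_0_m3 true .thrR = true := by decide +kernel

def a3z_0_r3_thrL0 : rowsOk stA3Z a3z_0 a3z_0_m3 false .thrL = true := by decide +kernel

def a3z_0_r3_thrL1 : rowsOk stA3Z a3z_0 a3z_0_m3 true .thrL = true := by decide +kernel

def a3z_0_r3_threeE0 : rowsOk stA3Z a3z_0 a3z_0_m3 false .threeE = true := by decide +kernel

def a3z_0_r3_threeE1 : rowsOk stA3Z a3z_0 a3z_0_m3 true .threeE = true := by decide +kernel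

def a3z_0_r3_ring0 : rowsOk stA3Z a3z_0 a3z_0_m3 false .ring = true := by decide +kernel

def a3z_0_r3_ring1 : rowsOk stA3Z a3z_0 a3z_0_m3 true .ring = true := by decide +kernel

theorem a3z_0_r0 : allRows stA3Z a3z_0 a3z_0_m0 = true := by
  refine allRows_of fun P => ?_
  cases P
  exacts [⟨a3z_0_r0_one0, a3z_0_r0_one1⟩,
    ⟨a3z_0_r0_two0, a3z_0_r0_two1⟩,
    ⟨a3z_0_r0_twoE0, a3z_0_r0_twoE1⟩,
    ⟨a3z_0_r0_thrR0, a3z_0_r0_thrR1⟩,
    ⟨a3z_0_r0_thrL0, a3z_0_r0_thrL1⟩,
    ⟨a3z_0_r0_threeE0, a3z_0_r0_threeE1⟩,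
    ⟨a3z_0_r0_ring0, a3z_0_r0_ring1⟩]

theorem a3z_0_r1 : allRows stA3Z a3z_0 a3z_0_m1 = true := by
  refine allRows_of fun P => ?_
  cases P
  exacts [⟨a3z_0_r1_one0, a3z_0_r1_one1⟩,
    ⟨a3z_0_r1_two0, a3z_0_r1_two1⟩,
    ⟨a3z_0_r1_twoE0, a3z_0_r1_twoE1⟩,
    ⟨a3z_0_r1_thrR0, a3z_0_r1_thrR1⟩,
    ⟨a3z_0_r1_thrL0, a3z_0_r1_thrL1⟩,
    ⟨a3z_0_r1_threeE0, a3z_0_r1_threeE1⟩,
    ⟨a3z_0_r1_ring0, a3z_0_r1_ring1⟩]

theorem a3z_0_r2 : allRows stA3Z a3z_0 a3z_0_m2 = true := by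
  refine allRows_of fun P => ?_
  cases P
  exacts [⟨a3z_0_r2_one0, a3z_0_r2_one1⟩,
    ⟨a3z_0_r2_two0, a3z_0_r2_two1⟩,
    ⟨a3z_0_r2_twoE0, a3z_0_r2_twoE1⟩,
    ⟨a3z_0_r2_thrR0, a3z_0_r2_thrR1⟩,
    ⟨a3z_0_r2_thrL0, a3z_0_r2_thrL1⟩,
    ⟨a3z_0_r2_threeE0, a3z_0_r2_threeE1⟩,
    ⟨a3z_0_r2_ring0, a3z_0_r2_ring1⟩]

theorem a3z_0_r3 : allRows stA3Z a3z_0 a3z_0_m3 = true := by
  refine allRows_of fun P => ?_
  cases P
  exacts [⟨a3z_0_r3_one0, a3z_0_r3_one1⟩,
    ⟨a3z_0_r3_two0, a3z_0_r3_two1⟩,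
    ⟨a3z_0_r3_twoE0, a3z_0_r3_twoE1⟩,
    ⟨a3z_0_r3_thrR0, a3z_0_r3_thrR1⟩,
    ⟨a3z_0_r3_thrL0, a3z_0_r3_thrL1⟩,
    ⟨a3z_0_r3_threeE0, a3z_0_r3_threeE1⟩,
    ⟨a3z_0_r3_ring0, a3z_0_r3_ring1⟩]

theorem a3z_0_ok : a3z_0.ok stA3Z = true := by
  have h : (PC.all.all fun P => PC.all.all fun Q => pairOk stA3Z a3z_0 P Q) = true := by decide +kernel
  have d0 : mdOk stA3Z a3z_0_m0.md = true := by decide +kernel
  have d1 : mdOk stA3Z a3z_0_m1.md = true := by decide +kernel
  have d2 : mdOk stA3Z a3z_0_m2.md = true := by decide +kernel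
  have d3 : mdOk stA3Z a3z_0_m3.md = true := by decide +kernel
  unfold Piece.ok
  rw [h, Bool.true_and]
  show List.all [a3z_0_m0, a3z_0_m1, a3z_0_m2, a3z_0_m3] _ = true
  rw [List.all_eq_true]
  intro m hm
  simp only [List.mem_cons, List.not_mem_nil, or_false] at hm
  rcases hm with rfl | rfl | rfl | rfl
  · rw [a3z_0_r0, d0]; rfl
  · rw [a3z_0_r1, d1]; rfl
  · rw [a3z_0_r2, d2]; rfl
  · rw [a3z_0_r3, d3]; rfl

end OR

end Pool.Agent.Work.MP_b30479_gtS.G2

end

section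

set_option deprecated.oldSectionVars true

namespace Pool.Agent.Work.MP_b30479_gtS.G2

open NumUs

namespace OR

set_option linter.defProp false

def s2f_13_r0_ring1_0 : cellOk stS2F s2f_13 s2f_13_m0 true .ring ((stS2F.bins .ring).getD 0 b00)
    ((s2f_13_m0.g true .ring).getD 0 e00) = true := by decide +kernel

def s2f_13_r0_ring1_1 : cellOk stS2F s2f_13 s2f_13_m0 true .ring ((stS2F.bins .ring).getD 1 b00)
    ((s2f_13_m0.g true .ring).getD 1 e00) = true := by decide +kernel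

def s2f_13_r0_ring1_2 : cellOk stS2F s2f_13 s2f_13_m0 true .ring ((stS2F.bins .ring).getD 2 b00)
    ((s2f_13_m0.g true .ring).getD 2 e00) = true := by decide +kernel

def s2f_13_r0_ring1_3 : cellOk stS2F s2f_13 s2f_13_m0 true .ring ((stS2F.bins .ring).getD 3 b00)
    ((s2f_13_m0.g true .ring).getD 3 e00) = true := by decide +kernel

def s2f_13_r0_ring1_4 : cellOk stS2F s2f_13 s2f_13_m0 true .ring ((stS2F.bins .ring).getD 4 b00)
    ((s2f_13_m0.g true .ring).getD 4 e00) = true := by decide +kernel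

def s2f_13_r0_ring1_5 : cellOk stS2F s2f_13 s2f_13_m0 true .ring ((stS2F.bins .ring).getD 5 b00)
    ((s2f_13_m0.g true .ring).getD 5 e00) = true := by decide +kernel

theorem s2f_13_r0_ring1 : rowsOk stS2F s2f_13 s2f_13_m0 true .ring = true := by
  refine rowsOk_of fun i hi => ?_
  have hi : i < 6 := hi
  interval_cases i
  exacts [s2f_13_r0_ring1_0, s2f_13_r0_ring1_1, s2f_13_r0_ring1_2, s2f_13_r0_ring1_3, s2f_13_r0_ring1_4, s2f_13_r0_ring1_5]

def s2f_13_r1_one0 : rowsOk stS2F s2f_13 s2f_13_m1 false .one = true := by decide +kernel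

def s2f_13_r1_one1 : rowsOk stS2F s2f_13 s2f_13_m1 true .one = true := by decide +kernel

def s2f_13_r1_two0_0 : cellOk stS2F s2f_13 s2f_13_m1 false .two ((stS2F.bins .two).getD 0 b00)
    ((s2f_13_m1.g false .two).getD 0 e00) = true := by decide +kernel

def s2f_13_r1_two0_1 : cellOk stS2F s2f_13 s2f_13_m1 false .two ((stS2F.bins .two).getD 1 b00)
    ((s2f_13_m1.g false .two).getD 1 e00) = true := by decide +kernel

def s2f_13_r1_two0_2 : cellOk stS2F s2f_13 s2f_13_m1 false .two ((stS2F.bins .two).getD 2 b00)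
    ((s2f_13_m1.g false .two).getD 2 e00) = true := by decide +kernel

def s2f_13_r1_two0_3 : cellOk stS2F s2f_13 s2f_13_m1 false .two ((stS2F.bins .two).getD 3 b00)
    ((s2f_13_m1.g false .two).getD 3 e00) = true := by decide +kernel

/-- check -/
def s2f_13_r1_two0_4_x0 : Ck := (cks stS2F s2f_13 s2f_13_m1 false .two
    ((stS2F.bins .two).getD 4 b00)
    ((s2f_13_m1.g false .two).getD 4 e00).g).getD 0 ckd

theorem s2f_13_r1_two0_4_k0 : ck1 s2f_13_r1_two0_4_x0 (((s2f_13_m1.g false .two).getD 4 e00).c.getD 0 0) = true := by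
  decide +kernel

/-- check -/
def s2f_13_r1_two0_4_x1 : Ck := (cks stS2F s2f_13 s2f_13_m1 false .two
    ((stS2F.bins .two).getD 4 b00)
    ((s2f_13_m1.g false .two).getD 4 e00).g).getD 1 ckd

theorem s2f_13_r1_two0_4_k1 : ck1 s2f_13_r1_two0_4_x1 (((s2f_13_m1.g false .two).getD 4 e00).c.getD 1 0) = true := by
  decide +kernel

/-- check -/
def s2f_13_r1_two0_4_x2 : Ck := (cks stS2F s2f_13 s2f_13_m1 false .two
    ((stS2F.bins .two).getD 4 b00)
    ((s2f_13_m1.g false .two).getD 4 e00).g).getD 2 ckd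

theorem s2f_13_r1_two0_4_k2 : ck1 s2f_13_r1_two0_4_x2 (((s2f_13_m1.g false .two).getD 4 e00).c.getD 2 0) = true := by
  decide +kernel

/-- check -/
def s2f_13_r1_two0_4_x3 : Ck := (cks stS2F s2f_13 s2f_13_m1 false .two
    ((stS2F.bins .two).getD 4 b00)
    ((s2f_13_m1.g false .two).getD 4 e00).g).getD 3 ckd

theorem s2f_13_r1_two0_4_k3 : ck1 s2f_13_r1_two0_4_x3 (((s2f_13_m1.g false .two).getD 4 e00).c.getD 3 0) = true := by
  decide +kernel

/-- check -/
def s2f_13_r1_two0_4_x4 : Ck := (cks stS2F s2f_13 s2f_13_m1 false .two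
    ((stS2F.bins .two).getD 4 b00)
    ((s2f_13_m1.g false .two).getD 4 e00).g).getD 4 ckd

theorem s2f_13_r1_two0_4_k4 : ck1 s2f_13_r1_two0_4_x4 (((s2f_13_m1.g false .two).getD 4 e00).c.getD 4 0) = true := by
  decide +kernel

/-- check -/
def s2f_13_r1_two0_4_x5 : Ck := (cks stS2F s2f_13 s2f_13_m1 false .two
    ((stS2F.bins .two).getD 4 b00)
    ((s2f_13_m1.g false .two).getD 4 e00).g).getD 5 ckd

theorem s2f_13_r1_two0_4_k5 : ck1 s2f_13_r1_two0_4_x5 (((s2f_13_m1.g false .two).getD 4 e00).c.getD 5 0) = true := by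
  decide +kernel

def s2f_13_r1_two0_4 : cellOk stS2F s2f_13 s2f_13_m1 false .two ((stS2F.bins .two).getD 4 b00)
    ((s2f_13_m1.g false .two).getD 4 e00) = true :=
  cellOk_of 6 (by decide +kernel) (by decide +kernel) fun k hk => by
    interval_cases k
    exacts [s2f_13_r1_two0_4_k0, s2f_13_r1_two0_4_k1, s2f_13_r1_two0_4_k2, s2f_13_r1_two0_4_k3, s2f_13_r1_two0_4_k4, s2f_13_r1_two0_4_k5]

def s2f_13_r1_two0_5 : cellOk stS2F s2f_13 s2f_13_m1 false .two ((stS2F.bins .two).getD 5 b00)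
    ((s2f_13_m1.g false .two).getD 5 e00) = true := by decide +kernel

theorem s2f_13_r1_two0 : rowsOk stS2F s2f_13 s2f_13_m1 false .two = true := by
  refine rowsOk_of fun i hi => ?_
  have hi : i < 6 := hi
  interval_cases i
  exacts [s2f_13_r1_two0_0, s2f_13_r1_two0_1, s2f_13_r1_two0_2, s2f_13_r1_two0_3, s2f_13_r1_two0_4, s2f_13_r1_two0_5]

def s2f_13_r1_two1 : rowsOk stS2F s2f_13 s2f_13_m1 true .two = true := by decide +kernel

def s2f_13_r1_twoE0 : rowsOk stS2F s2f_13 s2f_13_m1 false .twoE = true := by decide +kernel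

def s2f_13_r1_twoE1 : rowsOk stS2F s2f_13 s2f_13_m1 true .twoE = true := by decide +kernel

def s2f_13_r1_thrR0 : rowsOk stS2F s2f_13 s2f_13_m1 false .thrR = true := by decide +kernel

def s2f_13_r1_thrR1 : rowsOk stS2F s2f_13 s2f_13_m1 true .thrR = true := by decide +kernel

def s2f_13_r1_thrL0 : rowsOk stS2F s2f_13 s2f_13_m1 false .thrL = true := by decide +kernel

def s2f_13_r1_thrL1 : rowsOk stS2F s2f_13 s2f_13_m1 true .thrL = true := by decide +kernel

def s2f_13_r1_threeE0 : rowsOk stS2F s2f_13 s2f_13_m1 false .threeE = true := by decide +kernel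

def s2f_13_r1_threeE1 : rowsOk stS2F s2f_13 s2f_13_m1 true .threeE = true := by decide +kernel

def s2f_13_r1_ring0 : rowsOk stS2F s2f_13 s2f_13_m1 false .ring = true := by decide +kernel

def s2f_13_r1_ring1 : rowsOk stS2F s2f_13 s2f_13_m1 true .ring = true := by decide +kernel

def s2f_13_r2_one0 : rowsOk stS2F s2f_13 s2f_13_m2 false .one = true := by decide +kernel

def s2f_13_r2_one1 : rowsOk stS2F s2f_13 s2f_13_m2 true .one = true := by decide +kernel

def s2f_13_r2_two0 : rowsOk stS2F s2f_13 s2f_13_m2 false .two = true := by decide +kernel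

def s2f_13_r2_two1 : rowsOk stS2F s2f_13 s2f_13_m2 true .two = true := by decide +kernel

def s2f_13_r2_twoE0 : rowsOk stS2F s2f_13 s2f_13_m2 false .twoE = true := by decide +kernel

def s2f_13_r2_twoE1 : rowsOk stS2F s2f_13 s2f_13_m2 true .twoE = true := by decide +kernel

def s2f_13_r2_thrR0 : rowsOk stS2F s2f_13 s2f_13_m2 false .thrR = true := by decide +kernel

def s2f_13_r2_thrR1 : rowsOk stS2F s2f_13 s2f_13_m2 true .thrR = true := by decide +kernel

def s2f_13_r2_thrL0 : rowsOk stS2F s2f_13 s2f_13_m2 false .thrL = true := by decide +kernel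

def s2f_13_r2_thrL1 : rowsOk stS2F s2f_13 s2f_13_m2 true .thrL = true := by decide +kernel

def s2f_13_r2_threeE0 : rowsOk stS2F s2f_13 s2f_13_m2 false .threeE = true := by decide +kernel

def s2f_13_r2_threeE1 : rowsOk stS2F s2f_13 s2f_13_m2 true .threeE = true := by decide +kernel

def s2f_13_r2_ring0 : rowsOk stS2F s2f_13 s2f_13_m2 false .ring = true := by decide +kernel

def s2f_13_r2_ring1 : rowsOk stS2F s2f_13 s2f_13_m2 true .ring = true := by decide +kernel

def s2f_13_r3_one0 : rowsOk stS2F s2f_13 s2f_13_m3 false .one = true := by decide +kernel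

def s2f_13_r3_one1 : rowsOk stS2F s2f_13 s2f_13_m3 true .one = true := by decide +kernel

def s2f_13_r3_two0 : rowsOk stS2F s2f_13 s2f_13_m3 false .two = true := by decide +kernel

def s2f_13_r3_two1 : rowsOk stS2F s2f_13 s2f_13_m3 true .two = true := by decide +kernel

def s2f_13_r3_twoE0 : rowsOk stS2F s2f_13 s2f_13_m3 false .twoE = true := by decide +kernel

def s2f_13_r3_twoE1 : rowsOk stS2F s2f_13 s2f_13_m3 true .twoE = true := by decide +kernel

def s2f_13_r3_thrR0_0 : cellOk stS2F s2f_13 s2f_13_m3 false .thrR ((stS2F.bins .thrR).getD 0 b00)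
    ((s2f_13_m3.g false .thrR).getD 0 e00) = true := by decide +kernel

def s2f_13_r3_thrR0_1 : cellOk stS2F s2f_13 s2f_13_m3 false .thrR ((stS2F.bins .thrR).getD 1 b00)
    ((s2f_13_m3.g false .thrR).getD 1 e00) = true := by decide +kernel

def s2f_13_r3_thrR0_2 : cellOk stS2F s2f_13 s2f_13_m3 false .thrR ((stS2F.bins .thrR).getD 2 b00)
    ((s2f_13_m3.g false .thrR).getD 2 e00) = true := by decide +kernel

def s2f_13_r3_thrR0_3 : cellOk stS2F s2f_13 s2f_13_m3 false .thrR ((stS2F.bins .thrR).getD 3 b00)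
    ((s2f_13_m3.g false .thrR).getD 3 e00) = true := by decide +kernel

def s2f_13_r3_thrR0_4 : cellOk stS2F s2f_13 s2f_13_m3 false .thrR ((stS2F.bins .thrR).getD 4 b00)
    ((s2f_13_m3.g false .thrR).getD 4 e00) = true := by decide +kernel

def s2f_13_r3_thrR0_5 : cellOk stS2F s2f_13 s2f_13_m3 false .thrR ((stS2F.bins .thrR).getD 5 b00)
    ((s2f_13_m3.g false .thrR).getD 5 e00) = true := by decide +kernel

theorem s2f_13_r3_thrR0 : rowsOk stS2F s2f_13 s2f_13_m3 false .thrR = true := by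
  refine rowsOk_of fun i hi => ?_
  have hi : i < 6 := hi
  interval_cases i
  exacts [s2f_13_r3_thrR0_0, s2f_13_r3_thrR0_1, s2f_13_r3_thrR0_2, s2f_13_r3_thrR0_3, s2f_13_r3_thrR0_4, s2f_13_r3_thrR0_5]

def s2f_13_r3_thrR1 : rowsOk stS2F s2f_13 s2f_13_m3 true .thrR = true := by decide +kernel

def s2f_13_r3_thrL0 : rowsOk stS2F s2f_13 s2f_13_m3 false .thrL = true := by decide +kernel

def s2f_13_r3_thrL1 : rowsOk stS2F s2f_13 s2f_13_m3 true .thrL = true := by decide +kernel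

def s2f_13_r3_threeE0 : rowsOk stS2F s2f_13 s2f_13_m3 false .threeE = true := by decide +kernel

def s2f_13_r3_threeE1 : rowsOk stS2F s2f_13 s2f_13_m3 true .threeE = true := by decide +kernel

def s2f_13_r3_ring0 : rowsOk stS2F s2f_13 s2f_13_m3 false .ring = true := by decide +kernel

def s2f_13_r3_ring1 : rowsOk stS2F s2f_13 s2f_13_m3 true .ring = true := by decide +kernel

end OR

end Pool.Agent.Work.MP_b30479_gtS.G2

end
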