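import Pool.Agent.Work.MP_b30479_gt.TBS.G2.OTab
import Pool.Agent.Work.MP_b30479_gt.TBS.G2.WLocX
import Pool.Agent.Work.MP_b30479_gt.TBS.G2.WVal
import Pool.Agent.Work.MP_b30479_gt.TBS.G2.WMid

/-!
# Hinges between two digits `1`: from the tables to the word
-/

namespace Pool.Agent.Work.MP_b30479_gtS.G2

open Finset VOL Filter Topology SR

namespace OR

/-- class of the neighbour of a digit `1` in the slot `s` -/
def pcOf : Cl → Fin 3 → PC
  | .one, _ => .one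
  | .two, _ => .two
  | .twoE, _ => .twoE
  | .three, s => if s = 2 then .thrR else .thrL
  | .threeE, _ => .threeE
  | .ring, _ => .ring

theorem pcOf_one {C : Cl} {s : Fin 3} : pcOf C s = .one ↔ C = .one := by
  cases C <;> simp [pcOf]
  split_ifs <;> simp

theorem pw1_of {A B : Cl} {s s' : Fin 3} {T k q : ℝ} (h : (pcw A B).In T k q) :
    (pw1 (pcOf A s) (pcOf B s')).In T k q := by
  obtain ⟨h1, h2, h3, h4, h5, h6, h7, h8, h9, h10, h11, h12⟩ := h
  cases A <;> cases B <;> simp only [pcOf, pcw] at * <;> (try split_ifs) <;> constructor <;>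
    simp only [pw1] <;> push_cast <;> linarith only [h1, h2, h3, h4, h7, h8, h5, h6, h9, h10, h12]

variable {M : ℕ} {b : Fin (M + 1) → ℤ} {zs : DD (tyW b) ⊕ ZZ (tyW b) → ℂ}
variable {y : DD (tyW b) ⊕ ZZ (tyW b) → ℝ}
variable {h h' h'' : Fin M} {i j k l : Fin (M + 1)} {s : Fin 3}

/-- the path of the outer hinge of a digit `1` next to a digit `1` -/
theorem partner_par (A : Adj h' i s k) (hi : clsW b i = .one) (ho : oc b i s.rev = .one) :
    wXM b h' = ((pp1 (pcOf (clsW b k) s)).XM : ℝ) / 1000 ∧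
      wcl b h' = ((pp1 (pcOf (clsW b k) s)).cl : ℝ) / 1000 ∧
      wcr b h' = ((pp1 (pcOf (clsW b k) s)).cr : ℝ) / 1000 := by
  rw [A.XM_eq b, A.cl_eq b, A.cr_eq b, hi, ho]
  rcases A.slot with rfl | rfl <;> cases clsW b k <;>
    simp [hpp, hp, hp1, pcOf, pp1] <;> norm_num

/-- the path of a hinge between two digits `1` -/
theorem own_par (A : Adj h i s j) (hi : clsW b i = .one) (hj : clsW b j = .one) :
    wXM b h = (if oc b i s.rev = .one ∨ oc b j s = .one then 80 / 100 else 86 / 100) ∧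
      wcl b h = 15 / 100 ∧ wcr b h = 20 / 100 := by
  rw [A.XM_eq b, A.cl_eq b, A.cr_eq b, hi, hj]
  rcases A.slot with rfl | rfl
  · simp only [hpp, hp, if_neg (show ¬ ((0 : Fin 3) = 2) by decide), or_comm]
    split_ifs <;> simp
  · simp only [hpp, hp, if_true]
    split_ifs <;> simp

/-- a hinge `h` between two digits `1`, and the outer hinges -/
structure Ctx (b : Fin (M + 1) → ℤ) (h h' h'' : Fin M) (i j k l : Fin (M + 1)) (s : Fin 3) :
    Prop where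
  A : Adj h i s j
  A1 : Adj h' i s.rev k
  A2 : Adj h'' j s l
  ci : clsW b i = .one
  cj : clsW b j = .one

/-- class of the left outer neighbour, seen from the slot `s` -/
def cP (b : Fin (M + 1) → ℤ) (k : Fin (M + 1)) (s : Fin 3) : PC := pcOf (clsW b k) s.rev

/-- class of the right outer neighbour, seen from the slot `s` -/
def cQ (b : Fin (M + 1) → ℤ) (l : Fin (M + 1)) (s : Fin 3) : PC := pcOf (clsW b l) s

theorem Ctx.symm (C : Ctx b h h' h'' i j k l s) : Ctx b h h'' h' j i l k s.rev :=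
  ⟨C.A.symm, by rw [Fin.rev_rev]; exact C.A2, C.A1, C.cj, C.ci⟩

theorem cP_rev (k : Fin (M + 1)) (s : Fin 3) : cP b k s.rev = cQ b k s := by
  unfold cP cQ
  rw [Fin.rev_rev]

theorem cQ_rev (k : Fin (M + 1)) (s : Fin 3) : cQ b k s.rev = cP b k s := rfl

/-- every hinge between two digits `1` has outer hinges -/
theorem exists_ctx (zs : DD (tyW b) ⊕ ZZ (tyW b) → ℂ) (y : DD (tyW b) ⊕ ZZ (tyW b) → ℝ)
    (hb : ClassW b) (A : Adj h i s j) (ci : clsW b i = .one)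
    (cj : clsW b j = .one) : ∃ h' h'' k l, Ctx b h h' h'' i j k l s := by
  have e1 := clsW_inner hb (Or.inl ci)
  have e2 := clsW_inner hb (Or.inl cj)
  rcases A.other b zs y with ⟨h1, -⟩ | ⟨-, h', k, A1⟩
  · rw [h1] at e1
    exact absurd e1 (by decide)
  rcases A.symm.other b zs y with ⟨h1, -⟩ | ⟨-, h'', l, A2⟩
  · rw [h1] at e2
    exact absurd e2 (by decide)
  rw [Fin.rev_rev] at A2
  exact ⟨h', h'', k, l, A, A1, A2, ci, cj⟩

/-- the height of the hinge in the frame of `i` -/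
noncomputable def hT (b : Fin (M + 1) → ℤ) (zs : DD (tyW b) ⊕ ZZ (tyW b) → ℂ) (i : Fin (M + 1))
    (h : Fin M) : ℝ := ofs (b i) (zs (.inl (.inl h))).im

theorem Ctx.win (C : Ctx b h h' h'' i j k l s) (hP : LocP b zs) :
    (pw1 (cP b k s) (cQ b l s)).In (hT b zs i h) (hT b zs i h') (hT b zs j h'') :=
  pw1_of (hP.pair C.A C.A1 C.A2 C.ci C.cj)

theorem Ctx.hT_j (C : Ctx b h h' h'' i j k l s) (hb : ClassW b) :
    hT b zs j h = -hT b zs i h := by
  have h1 := C.A.opp hb (Or.inl (by rw [C.ci]; decide))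
  exact ofs_opp h1 _

theorem Ctx.oc_i (C : Ctx b h h' h'' i j k l s) : oc b i s = .one := by
  rw [C.A.oc_eq b, C.cj]

theorem Ctx.oc_i' (C : Ctx b h h' h'' i j k l s) : oc b i s.rev = clsW b k := C.A1.oc_eq b

theorem Ctx.oc_j' (C : Ctx b h h' h'' i j k l s) : oc b j s = clsW b l := C.A2.oc_eq b

theorem Ctx.rh (C : Ctx b h h' h'' i j k l s) (hy : Mx b zs y) :
    RH (Yw b zs y i s.rev) (hT b zs i h') (((pp1 (cP b k s)).XM : ℝ) / 1000)
      (((pp1 (cP b k s)).cl : ℝ) / 1000) (((pp1 (cP b k s)).cr : ℝ) / 1000) := by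
  have h1 := C.A1.rh hy (zs := zs)
  obtain ⟨e1, e2, e3⟩ := partner_par C.A1 C.ci (by rw [Fin.rev_rev]; exact C.oc_i)
  rw [e1, e2, e3] at h1
  exact h1

theorem Ctx.rh' (C : Ctx b h h' h'' i j k l s) (hy : Mx b zs y) :
    RH (Yw b zs y j s) (hT b zs j h'') (((pp1 (cQ b l s)).XM : ℝ) / 1000)
      (((pp1 (cQ b l s)).cl : ℝ) / 1000) (((pp1 (cQ b l s)).cr : ℝ) / 1000) := by
  have h1 := C.symm.rh (zs := zs) hy
  rw [Fin.rev_rev, cP_rev] at h1
  exact h1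

theorem adj_OY (A : Adj h i s j) : OY b zs y i s = Yw b zs y i s := by
  rcases A.slot with rfl | rfl
  · exact OY_zero i
  · exact OY_two i

/-! ### windows -/

theorem wOk_p {p : Piece} {W : PWin} {P Q : PC} {T kP kQ : ℝ} (hw : wOk p W P Q = true)
    (hW : W.In T kP kQ) (ht0 : (p.t0 : ℝ) / 10000 ≤ T) (ht1 : T ≤ (p.t1 : ℝ) / 10000) :
    ((p.wp P).t0 : ℝ) / 10000 ≤ T ∧ T ≤ ((p.wp P).t1 : ℝ) / 10000 ∧
    ((p.wp P).k0 : ℝ) / 10000 ≤ kP ∧ kP ≤ ((p.wp P).k1 : ℝ) / 10000 ∧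
    ((p.wp P).s0 : ℝ) / 10000 ≤ T + kP ∧ T + kP ≤ ((p.wp P).s1 : ℝ) / 10000 ∧
    winOk (p.wp P) = true := by
  unfold wOk at hw
  simp only [Bool.and_eq_true, decide_eq_true_eq] at hw
  obtain ⟨⟨⟨⟨⟨⟨⟨⟨⟨⟨⟨⟨⟨w1, w2⟩, a1⟩, a2⟩, a3⟩, a4⟩, a5⟩, a6⟩, b1⟩, b2⟩, b3⟩, b4⟩, b5⟩, b6⟩ := hw
  have c1 : ((p.wp P).k0 : ℝ) ≤ W.p0 := by exact_mod_cast a1
  have c2 : (W.p1 : ℝ) ≤ (p.wp P).k1 := by exact_mod_cast a2
  have c3 : ((p.wp P).s0 : ℝ) ≤ W.a0 := by exact_mod_cast a3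
  have c4 : (W.a1 : ℝ) ≤ (p.wp P).s1 := by exact_mod_cast a4
  have c5 : ((p.wp P).t0 : ℝ) ≤ max (W.t0 : ℝ) (p.t0 : ℝ) := by exact_mod_cast a5
  have c6 : min (W.t1 : ℝ) (p.t1 : ℝ) ≤ (p.wp P).t1 := by exact_mod_cast a6
  have e1 := hW.t0
  have e2 := hW.t1
  have e3 := hW.p0
  have e4 := hW.p1
  have e5 := hW.a0
  have e6 := hW.a1
  rw [div_le_iff₀ (by norm_num)] at e1 e3 e5 ht0
  rw [le_div_iff₀ (by norm_num)] at e2 e4 e6 ht1
  have f1 : ((p.wp P).t0 : ℝ) ≤ T * 10000 := c5.trans (max_le e1 ht0)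
  have f2 : T * 10000 ≤ (p.wp P).t1 := (le_min e2 ht1).trans c6
  refine ⟨?_, ?_, ?_, ?_, ?_, ?_, w1⟩
  · rw [div_le_iff₀ (by norm_num)]; exact f1
  · rw [le_div_iff₀ (by norm_num)]; exact f2
  · rw [div_le_iff₀ (by norm_num)]; linarith only [c1, e3]
  · rw [le_div_iff₀ (by norm_num)]; linarith only [c2, e4]
  · rw [div_le_iff₀ (by norm_num)]; linarith only [c3, e5]
  · rw [le_div_iff₀ (by norm_num)]; linarith only [c4, e6]

theorem wOk_q {p : Piece} {W : PWin} {P Q : PC} {T kP kQ : ℝ} (hw : wOk p W P Q = true)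
    (hW : W.In T kP kQ) (ht0 : (p.t0 : ℝ) / 10000 ≤ T) (ht1 : T ≤ (p.t1 : ℝ) / 10000) :
    ((p.wq Q).t0 : ℝ) / 10000 ≤ -T ∧ -T ≤ ((p.wq Q).t1 : ℝ) / 10000 ∧
    ((p.wq Q).k0 : ℝ) / 10000 ≤ kQ ∧ kQ ≤ ((p.wq Q).k1 : ℝ) / 10000 ∧
    ((p.wq Q).s0 : ℝ) / 10000 ≤ -T + kQ ∧ -T + kQ ≤ ((p.wq Q).s1 : ℝ) / 10000 ∧
    winOk (p.wq Q) = true := by
  unfold wOk at hw
  simp only [Bool.and_eq_true, decide_eq_true_eq] at hw
  obtain ⟨⟨⟨⟨⟨⟨⟨⟨⟨⟨⟨⟨⟨w1, w2⟩, a1⟩, a2⟩, a3⟩, a4⟩, a5⟩, a6⟩, b1⟩, b2⟩, b3⟩, b4⟩, b5⟩, b6⟩ := hw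
  have c1 : ((p.wq Q).k0 : ℝ) ≤ W.q0 := by exact_mod_cast b1
  have c2 : (W.q1 : ℝ) ≤ (p.wq Q).k1 := by exact_mod_cast b2
  have c3 : ((p.wq Q).s0 : ℝ) ≤ W.b0 := by exact_mod_cast b3
  have c4 : (W.b1 : ℝ) ≤ (p.wq Q).s1 := by exact_mod_cast b4
  have c5 : ((p.wq Q).t0 : ℝ) ≤ -min (W.t1 : ℝ) (p.t1 : ℝ) := by exact_mod_cast b5
  have c6 : -max (W.t0 : ℝ) (p.t0 : ℝ) ≤ (p.wq Q).t1 := by exact_mod_cast b6
  have e1 := hW.t0
  have e2 := hW.t1
  have e3 := hW.q0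
  have e4 := hW.q1
  have e5 := hW.b0
  have e6 := hW.b1
  rw [div_le_iff₀ (by norm_num)] at e1 e3 e5 ht0
  rw [le_div_iff₀ (by norm_num)] at e2 e4 e6 ht1
  have f1 : ((p.wq Q).t0 : ℝ) ≤ -(T * 10000) := c5.trans (neg_le_neg (le_min e2 ht1))
  have f2 : -(T * 10000) ≤ (p.wq Q).t1 := (neg_le_neg (max_le e1 ht0)).trans c6
  refine ⟨?_, ?_, ?_, ?_, ?_, ?_, w2⟩
  · rw [div_le_iff₀ (by norm_num)]; linarith only [f1]
  · rw [le_div_iff₀ (by norm_num)]; linarith only [f2]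
  · rw [div_le_iff₀ (by norm_num)]; linarith only [c1, e3]
  · rw [le_div_iff₀ (by norm_num)]; linarith only [c2, e4]
  · rw [div_le_iff₀ (by norm_num)]; linarith only [c3, e5]
  · rw [le_div_iff₀ (by norm_num)]; linarith only [c4, e6]

/-! ### the step -/

/-- the hinge is on the part of its path described by the stage -/
def OwnOk (b : Fin (M + 1) → ℤ) (y : DD (tyW b) ⊕ ZZ (tyW b) → ℝ) (S : Stage) (h : Fin M) : Prop :=
  wXM b h = (S.XM : ℝ) / 1000 ∧ wcr b h = (S.cr : ℝ) / 1000 ∧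
    ((S.own = .R S.XM S.cr ∧ wXM b h - wcr b h < y (.inl (.inl h))) ∨
      (S.own = .F ∧ wcl b h < y (.inl (.inl h)) ∧ y (.inl (.inl h)) ≤ wXM b h - wcr b h))

theorem OwnOk.side {S : Stage} (H : OwnOk b y S h) (A : Adj h i s j)
    (hy : Mx b zs y) : (∃ f, 0 ≤ f ∧ f ≤ 1 ∧ (Yw b zs y i s).im = hT b zs i h * f) ∧
      (Yw b zs y i s).im = S.own.t (Yw b zs y i s).re (hT b zs i h) ∧
      ofs (b i) (slL b zs y h) = S.own.m (hT b zs i h) := by
  have h1 := A.rh hy (zs := zs)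
  have p1 := wcl_pos (b := b) h
  have p2 := wcr_pos (b := b) h
  have p3 := w_sum (b := b) h
  obtain ⟨e1, e2, e3⟩ := H
  obtain ⟨g0, g1⟩ := tr_mem (wXM b h) (wcl b h) (wcr b h) (Yw b zs y i s).re
  refine ⟨⟨_, g0, g1, h1.im⟩, ?_, ?_⟩
  · rcases e3 with ⟨e3, e4⟩ | ⟨e3, e4, e5⟩
    · rw [MR.RH_right h1 p1 p2 p3 (by rw [A.re]; exact e4.le), e3]
      have hc : (S.cr : ℝ) ≠ 0 := by
        intro hc
        rw [e2, hc] at p2
        norm_num at p2
      simp only [Own.t]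
      rw [e1, e2]
      unfold hT
      field_simp
    · rw [MR.RH_flat h1 p1 p2 (by rw [A.re]; exact e4.le) (by rw [A.re]; exact e5), e3]
      rfl
  · rcases e3 with ⟨e3, e4⟩ | ⟨e3, e4, e5⟩
    · rw [ofs_slL_ramp _ e4, e3, e2]
      simp only [Own.m]
      unfold hT
      field_simp
    · rw [slL_flat e4 e5, e3]
      simp only [Own.m]
      unfold ofs
      split_ifs <;> simp

/-- **The step of a stage contradicts the maximum.** -/
theorem Ctx.step_false (C : Ctx b h h' h'' i j k l s) (hb : ClassW b) (hy : Mx b zs y)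
    (hpos : ∀ h : Fin M, 0 < y (.inl (.inl h))) {S : Stage} (H : OwnOk b y S h)
    (hcl : wcl b h ≤ 150 / 1000)
    (hs : Step S (hT b zs i h) (Yw b zs y i s) (Yw b zs y i s.rev) (Yw b zs y j s.rev)
      (Yw b zs y j s)) : False := by
  have hj := C.hT_j (zs := zs) hb
  rcases hs with hs | ⟨c, cf, hc, hs⟩
  · have h1 := C.A.foc hy (hpos h)
    rw [C.A.side_one hb C.ci, C.A.symm.side_one hb C.cj, (H.side C.A hy).2.2,
      (H.side C.A.symm hy).2.2, hj, Fin.rev_rev] at h1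
    linarith only [hs, h1]
  · have p1 := wcl_pos (b := b) h
    have p2 := wcr_pos (b := b) h
    have p3 := w_sum (b := b) h
    obtain ⟨e1, e2, -⟩ := H
    have hcr : (S.cr : ℝ) ≠ 0 := by
      intro hc
      rw [e2, hc] at p2
      norm_num at p2
    have hc0 : (0 : ℝ) ≤ (c : ℝ) / 1000 := by positivity
    have hc1 : (c : ℝ) / 1000 ≤ wXM b h ∧ ∀ d : ℤ, (pw b zs d h (c / 1000)).im =
        cf / 1000 * ofs d (zs (.inl (.inl h))).im := by
      unfold mdOk at hc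
      simp only [Bool.or_eq_true, Bool.and_eq_true, decide_eq_true_eq] at hc
      rw [e1]
      rcases hc with ⟨⟨a1, a2⟩, a3⟩ | ⟨⟨⟨a1, a2⟩, a3⟩, a4⟩
      · have a1' : (150 : ℝ) ≤ c := by exact_mod_cast a1
        have a2' : (c : ℝ) + S.cr ≤ S.XM := by exact_mod_cast a2
        have a3' : (cf : ℝ) = 1000 := by exact_mod_cast a3
        have hh : (c : ℝ) / 1000 ≤ (S.XM : ℝ) / 1000 := by
          have : (0 : ℝ) ≤ S.cr := by positivity
          linarith only [p2, e2, a2']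
        refine ⟨hh, fun d => ?_⟩
        have h2 := pw_RH (zs := zs) d h hc0 (by rw [e1]; exact hh)
        rw [MR.RH_flat h2 p1 p2 (by rw [pw_re]; linarith only [hcl, a1']) (by rw [pw_re, e1, e2]; linarith only [a2']), a3']
        ring
      · have a2' : (S.XM : ℝ) ≤ c + S.cr := by exact_mod_cast a2
        have a3' : (c : ℝ) ≤ S.XM := by exact_mod_cast a3
        have a4' : (cf : ℝ) * S.cr + 1000 * c = 1000 * S.XM := by exact_mod_cast a4
        have hh : (c : ℝ) / 1000 ≤ (S.XM : ℝ) / 1000 := by linarith only [a3']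
        refine ⟨hh, fun d => ?_⟩
        have h2 := pw_RH (zs := zs) d h hc0 (by rw [e1]; exact hh)
        rw [MR.RH_right h2 p1 p2 p3 (by rw [pw_re, e1, e2]; linarith only [a2']), pw_re, e1, e2]
        have : (cf : ℝ) = 1000 * ((S.XM : ℝ) - c) / S.cr := by
          field_simp
          linarith only [a4']
        rw [this]
        field_simp
    have h3 := val_hinge hb hy C.A hc0 hc1.1
    rw [dV_one hb C.A C.ci, dV_one hb C.A.symm C.cj, Fin.rev_rev, adj_OY C.A, adj_OY C.A1,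
      adj_OY C.A.symm, adj_OY C.A2] at h3
    have h4 := hs (pw b zs (b i) h (c / 1000)) (pw b zs (b j) h (c / 1000)) (pw_re _ _ _)
      (pw_re _ _ _) (hc1.2 _) (by rw [hc1.2, ← hj]; rfl)
    linarith only [h3, h4]

/-- **A piece of a stage contradicts the maximum.** -/
theorem Ctx.piece_false (C : Ctx b h h' h'' i j k l s) (hb : ClassW b) (hP : LocP b zs)
    (hy : Mx b zs y) (hpos : ∀ h : Fin M, 0 < y (.inl (.inl h))) {S : Stage} (hS : S.good)
    (hpp : S.pp = pp1) (hpw : S.pw = pw1) (H : OwnOk b y S h) {p : Piece} (hp : p.ok S = true)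
    (hx : p.x1 ≤ 9000) (hk : S.kind (cP b k s) (cQ b l s) = true)
    (hx0 : (p.x0 : ℝ) / 10000 ≤ y (.inl (.inl h))) (hx1 : y (.inl (.inl h)) ≤ (p.x1 : ℝ) / 10000)
    (ht0 : (p.t0 : ℝ) / 10000 ≤ hT b zs i h) (ht1 : hT b zs i h ≤ (p.t1 : ℝ) / 10000)
    (hsl : (S.slp : ℝ) / 10000 ≤ y (.inl (.inl h)) + y (.inl (.inl h')))
    (hsc : y (.inl (.inl h)) + y (.inl (.inl h')) ≤ (S.scp : ℝ) / 10000)
    (hsl' : (S.slq : ℝ) / 10000 ≤ y (.inl (.inl h)) + y (.inl (.inl h'')))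
    (hsc' : y (.inl (.inl h)) + y (.inl (.inl h'')) ≤ (S.scq : ℝ) / 10000)
    (mP : S.mx = true → clsW b k = .one → y (.inl (.inl h')) ≤ y (.inl (.inl h)))
    (mQ : S.mx = true → clsW b l = .one → y (.inl (.inl h'')) ≤ y (.inl (.inl h)))
    {ib jb : ℕ} (hi : ib < (S.bins (cP b k s)).length) (hj : jb < (S.bins (cQ b l s)).length)
    (hi0 : (((S.bins (cP b k s)).getD ib b00).lo : ℝ) / 10000 ≤ y (.inl (.inl h')))
    (hi1 : y (.inl (.inl h')) ≤ (((S.bins (cP b k s)).getD ib b00).hi : ℝ) / 10000)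
    (hj0 : (((S.bins (cQ b l s)).getD jb b00).lo : ℝ) / 10000 ≤ y (.inl (.inl h'')))
    (hj1 : y (.inl (.inl h'')) ≤ (((S.bins (cQ b l s)).getD jb b00).hi : ℝ) / 10000)
    (hK : hT b zs i h' + hT b zs j h'' ≤
      (kb S (cP b k s) (cQ b l s) ib jb : ℝ) / 10000) : False := by
  have hT' := C.hT_j (zs := zs) hb
  have hW := C.win hP
  have r0 := C.A.re (zs := zs) (y := y)
  have r0' := C.A.symm.re (zs := zs) (y := y)
  have r1 := C.A1.re (zs := zs) (y := y)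
  have r2 := C.A2.re (zs := zs) (y := y)
  have hcl : wcl b h ≤ 150 / 1000 := by
    rw [(own_par C.A C.ci C.cj).2.1]
    norm_num
  have hx9 : y (.inl (.inl h)) < 1 := by
    have : (p.x1 : ℝ) ≤ 9000 := by exact_mod_cast hx
    linarith only [hx1, this]
  have st : Yw b zs y i s ∈ strip := ⟨by rw [r0]; exact hpos h, by rw [r0]; exact hx9⟩
  have st' : Yw b zs y j s.rev ∈ strip := ⟨by rw [r0']; exact hpos h, by rw [r0']; exact hx9⟩
  refine C.step_false hb hy hpos H hcl (Piece.step hS hp hx hk (by rw [hpw]; exact hW) ht0 ht1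
    (fun hw => ?_) (fun hw => ?_) st st' hi hj (by rw [r1]; exact hi0) (by rw [r1]; exact hi1)
    (by rw [r2]; exact hj0) (by rw [r2]; exact hj1) hK)
  · rw [hpw] at hw
    obtain ⟨w1, w2, w3, w4, w5, w6, w7⟩ := wOk_p hw hW ht0 ht1
    obtain ⟨o1, o2, -⟩ := H.side C.A hy
    exact ⟨by rw [r0]; exact hx0, by rw [r0]; exact hx1, o2, o1, by rw [hpp]; exact C.rh hy,
      fun hm hc => by rw [r0, r1]; exact mP hm (pcOf_one.1 hc), by rw [r0, r1]; exact hsl,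
      by rw [r0, r1]; exact hsc, w1, w2, w3, w4, w5, w6, w7⟩
  · rw [hpw] at hw
    obtain ⟨w1, w2, w3, w4, w5, w6, w7⟩ := wOk_q hw hW ht0 ht1
    obtain ⟨o1, o2, -⟩ := H.side C.A.symm hy
    rw [hT'] at o1 o2
    exact ⟨by rw [r0']; exact hx0, by rw [r0']; exact hx1, o2, o1, by rw [hpp]; exact C.rh' hy,
      fun hm hc => by rw [r0', r2]; exact mQ hm (pcOf_one.1 hc), by rw [r0', r2]; exact hsl',
      by rw [r0', r2]; exact hsc', w1, w2, w3, w4, w5, w6, w7⟩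

/-! ### bins -/

/-- the bins cover the range from `a` to `c` -/
def chain : List Bin → ℤ → ℤ → Bool
  | [], _, _ => false
  | [b], a, c => decide (b.lo ≤ a) && decide (c ≤ b.hi)
  | b :: b' :: l, a, c => decide (b.lo ≤ a) && chain (b' :: l) b.hi c

theorem chain_spec : ∀ {l : List Bin} {a c : ℤ} {v : ℝ}, chain l a c = true →
    (a : ℝ) / 10000 ≤ v → v ≤ (c : ℝ) / 10000 →
    ∃ i < l.length, ((l.getD i b00).lo : ℝ) / 10000 ≤ v ∧ v ≤ ((l.getD i b00).hi : ℝ) / 10000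
  | [], _, _, _, h, _, _ => by simp [chain] at h
  | [b], a, c, v, h, h0, h1 => by
    simp only [chain, Bool.and_eq_true, decide_eq_true_eq] at h
    have e1 : (b.lo : ℝ) ≤ a := by exact_mod_cast h.1
    have e2 : (c : ℝ) ≤ b.hi := by exact_mod_cast h.2
    exact ⟨0, by simp, by simp only [List.getD_cons_zero]; linarith only [h0, e1],
      by simp only [List.getD_cons_zero]; linarith only [h1, e2]⟩
  | b :: b' :: l, a, c, v, h, h0, h1 => by
    simp only [chain, Bool.and_eq_true, decide_eq_true_eq] at h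
    have e1 : (b.lo : ℝ) ≤ a := by exact_mod_cast h.1
    rcases le_total v ((b.hi : ℝ) / 10000) with h2 | h2
    · exact ⟨0, by simp, by simp only [List.getD_cons_zero]; linarith only [h0, e1],
        by simp only [List.getD_cons_zero]; exact h2⟩
    · obtain ⟨i, hi, e3, e4⟩ := chain_spec (l := b' :: l) h.2 h2 h1
      exact ⟨i + 1, by simpa using hi, by simpa using e3, by simpa using e4⟩

end OR

end Pool.Agent.Work.MP_b30479_gtS.G2
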