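import Pool.Agent.Work.MP_b30479_gt.TBS.G2.OTab
import Pool.Agent.Work.MP_b30479_gt.TBS.G2.OWord

section

namespace Pool.Agent.Work.MP_b30479_gtS.G2

namespace OR

/-- no special bound of the sum of the heights for short hinges -/
def k02 (Q : PC) : ℤ := (pw1 .one Q).K1

end OR

end Pool.Agent.Work.MP_b30479_gtS.G2

end

section

/-!
# Hinges between two digits `1`: stages
-/

namespace Pool.Agent.Work.MP_b30479_gtS.G2

open Finset VOL Filter Topology SR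

namespace OR

/-- the pieces cover the range from `a` to `c` -/
def xch : List Piece → ℤ → ℤ → Bool
  | [], _, _ => false
  | [p], a, c => decide (p.x0 ≤ a) && decide (c ≤ p.x1)
  | p :: p' :: l, a, c => decide (p.x0 ≤ a) && xch (p' :: l) p.x1 c

theorem xch_spec : ∀ {l : List Piece} {a c : ℤ} {x : ℝ}, xch l a c = true →
    (a : ℝ) / 10000 ≤ x → x ≤ (c : ℝ) / 10000 →
    ∃ p ∈ l, (p.x0 : ℝ) / 10000 ≤ x ∧ x ≤ (p.x1 : ℝ) / 10000
  | [], _, _, _, h, _, _ => by simp [xch] at h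
  | [p], a, c, x, h, h0, h1 => by
    simp only [xch, Bool.and_eq_true, decide_eq_true_eq] at h
    have e1 : (p.x0 : ℝ) ≤ a := by exact_mod_cast h.1
    have e2 : (c : ℝ) ≤ p.x1 := by exact_mod_cast h.2
    exact ⟨p, by simp, by linarith only [h0, e1], by linarith only [h1, e2]⟩
  | p :: p' :: l, a, c, x, h, h0, h1 => by
    simp only [xch, Bool.and_eq_true, decide_eq_true_eq] at h
    have e1 : (p.x0 : ℝ) ≤ a := by exact_mod_cast h.1
    rcases le_total x ((p.x1 : ℝ) / 10000) with h2 | h2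
    · exact ⟨p, by simp, by linarith only [h0, e1], h2⟩
    · obtain ⟨q, hq, e3, e4⟩ := xch_spec (l := p' :: l) h.2 h2 h1
      exact ⟨q, List.mem_cons_of_mem _ hq, e3, e4⟩

/-- a list of good pieces which covers `[a, c]` and heights `[t0, t1]` -/
def POk (S : Stage) (L : List Piece) (a c t0 t1 : ℤ) : Prop :=
  (∀ p ∈ L, p.ok S = true ∧ p.x1 ≤ 9000 ∧ p.t0 ≤ t0 ∧ t1 ≤ p.t1) ∧ xch L a c = true

/-- bins from the floor `f` to the cap `g`; if the floor of the class `one` is below `.085`, then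
the first bin of this class ends there -/
def binsChk (S : Stage) (f g : PC → ℤ) : Bool :=
  PC.all.all fun P => if P = .one ∧ f .one < 850 then
    (match S.bins P with
      | [] => false
      | b :: l => decide (b.lo ≤ f P) && decide (850 ≤ b.hi) && chain l 850 (g P))
    else chain (S.bins P) (f P) (g P)

theorem bins_cover {S : Stage} {f g : PC → ℤ} (hS : binsChk S f g = true) {P : PC} {v : ℝ}
    (h0 : (f P : ℝ) / 10000 ≤ v) (h1 : v ≤ (g P : ℝ) / 10000) :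
    ∃ i < (S.bins P).length, (((S.bins P).getD i b00).lo : ℝ) / 10000 ≤ v ∧
      v ≤ (((S.bins P).getD i b00).hi : ℝ) / 10000 ∧
      (P = .one → f .one < 850 → i = 0 → v < 85 / 1000) := by
  unfold binsChk at hS
  have h2 := List.all_eq_true.1 hS P (PC.mem_all P)
  by_cases hP : P = .one ∧ f .one < 850
  · rw [if_pos hP] at h2
    rcases hB : S.bins P with _ | ⟨b, l⟩
    · rw [hB] at h2
      simp at h2
    rw [hB] at h2
    simp only [Bool.and_eq_true, decide_eq_true_eq] at h2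
    obtain ⟨⟨a1, a2⟩, a3⟩ := h2
    have a1' : (b.lo : ℝ) ≤ f P := by exact_mod_cast a1
    have a2' : (850 : ℝ) ≤ b.hi := by exact_mod_cast a2
    rcases lt_or_ge v (85 / 1000) with h3 | h3
    · exact ⟨0, by simp, by simp only [List.getD_cons_zero]; linarith only [h0, a1'],
        by simp only [List.getD_cons_zero]; linarith only [a2', h3], fun _ _ _ => h3⟩
    · obtain ⟨i, hi, e1, e2⟩ := chain_spec a3 (v := v) (by push_cast; linarith only [h3]) h1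
      exact ⟨i + 1, by simpa using hi, by simpa using e1, by simpa using e2,
        fun _ _ hc => absurd hc (Nat.succ_ne_zero i)⟩
  · rw [if_neg hP] at h2
    obtain ⟨i, hi, e1, e2⟩ := chain_spec h2 h0 h1
    exact ⟨i, hi, e1, e2, fun hc hc' => absurd ⟨hc, hc'⟩ hP⟩

/-- a stage with the tables `pp1`, `pw1` -/
structure StOk (S : Stage) (f g : PC → ℤ) : Prop where
  good : S.good
  pp : S.pp = pp1
  pw : S.pw = pw1
  k0 : (S.k0 = k01 ∧ f .one < 850) ∨ S.k0 = k02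
  bins : binsChk S f g = true

theorem K1_symm (P : PC) : (pw1 .one P).K1 = (pw1 P .one).K1 := by cases P <;> rfl

/-- the bound of the sum of the heights -/
theorem kb_ok {S : Stage} {f g : PC → ℤ} (hS : StOk S f g) {P Q : PC} {T kP kQ : ℝ}
    {i j : ℕ} (hW : (pw1 P Q).In T kP kQ)
    (h1 : P = .one → f .one < 850 → i = 0 → Q = .ring → kP + kQ ≤ 52 / 1000)
    (h2 : Q = .one → f .one < 850 → j = 0 → P = .ring → kP + kQ ≤ 52 / 1000) :
    kP + kQ ≤ (kb S P Q i j : ℝ) / 10000 := by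
  have h3 := hW.K1
  unfold kb
  rw [hS.pw]
  rcases hS.k0 with ⟨e, ef⟩ | e
  · rw [e]
    split_ifs with c1 c2
    · obtain ⟨rfl, c1⟩ := c1
      cases Q
      case ring => have := h1 rfl ef c1 rfl; unfold k01; norm_num; linarith only [this]
      all_goals exact h3
    · obtain ⟨rfl, c2⟩ := c2
      cases P
      case ring => have := h2 rfl ef c2 rfl; unfold k01; norm_num; linarith only [this]
      all_goals exact h3
    · exact h3
  · rw [e]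
    split_ifs with c1 c2
    · obtain ⟨rfl, c1⟩ := c1
      exact h3
    · obtain ⟨rfl, c2⟩ := c2
      unfold k02
      rw [K1_symm]
      exact h3
    · exact h3

variable {M : ℕ} {b : Fin (M + 1) → ℤ} {zs : DD (tyW b) ⊕ ZZ (tyW b) → ℂ}
variable {y : DD (tyW b) ⊕ ZZ (tyW b) → ℝ}
variable {h h' h'' : Fin M} {i j k l : Fin (M + 1)} {s : Fin 3}

/-- data of a word at the first stages: floors at the outer hinges of the pair, short hinges `1|1`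
occur only next to a `2` at the end -/
structure Flo (b : Fin (M + 1) → ℤ) (zs : DD (tyW b) ⊕ ZZ (tyW b) → ℂ)
    (y : DD (tyW b) ⊕ ZZ (tyW b) → ℝ) : Prop where
  fl : ∀ {h : Fin M} {i j : Fin (M + 1)} {p : Fin 3}, Adj h i p j → clsW b i = .one →
    70 / 1000 ≤ y (.inl (.inl h))
  sh : ∀ {h h1 h2 : Fin M} {i j j1 j2 : Fin (M + 1)} {p : Fin 3}, Adj h i p j →
    clsW b i = .one → clsW b j = .one → Adj h1 i p.rev j1 → Adj h2 j p j2 →
    clsW b j1 ≠ .twoE → clsW b j2 ≠ .twoE → 85 / 1000 ≤ y (.inl (.inl h))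

/-- the sum of the heights at a short outer hinge `1|1` -/
theorem Ctx.short (C : Ctx b h h' h'' i j k l s) (hb : ClassW b) (hP : LocP b zs)
    (hF : Flo b zs y) (hc : cP b k s = .one) (hl : cQ b l s = .ring)
    (hv : y (.inl (.inl h')) < 85 / 1000) : hT b zs i h' + hT b zs j h'' ≤ 52 / 1000 := by
  have ck : clsW b k = .one := pcOf_one.1 hc
  have cl : clsW b l = .ring := by
    unfold cQ at hl
    revert hl
    cases clsW b l <;> simp [pcOf]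
    split_ifs <;> simp
  have ek := clsW_inner hb (Or.inl ck)
  rcases C.A1.symm.other b zs y with ⟨h1, -⟩ | ⟨-, h3, m, A3⟩
  · rw [h1] at ek
    exact absurd ek (by decide)
  rw [Fin.rev_rev] at A3
  have cm : clsW b m = .twoE := by
    by_contra hm
    have h4 := hF.sh C.A1 C.ci ck (by rw [Fin.rev_rev]; exact C.A) A3 (by rw [C.cj]; decide) hm
    linarith only [hv, h4]
  have h5 := hP.three C.A C.A1 C.A2 A3 C.ci C.cj ck (by rw [cl]; decide) (by rw [cm]; decide)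
  rw [cm, cl] at h5
  have h6 : hT b zs i h' + hT b zs j h'' ≤ kcw .twoE .ring := h5
  refine h6.trans ?_
  simp only [kcw]
  norm_num

/-- **A stage contradicts the maximum.** -/
theorem Ctx.stage_false' (C : Ctx b h h' h'' i j k l s) (hb : ClassW b) (hP : LocP b zs)
    (hy : Mx b zs y) (hpos : ∀ h : Fin M, 0 < y (.inl (.inl h))) {S : Stage} {f g : PC → ℤ}
    (hS : StOk S f g) (H : OwnOk b y S h) {L : List Piece} {a c t0 t1 : ℤ}
    (hL : POk S L a c t0 t1) (hk : S.kind (cP b k s) (cQ b l s) = true)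
    (hx0 : (a : ℝ) / 10000 ≤ y (.inl (.inl h))) (hx1 : y (.inl (.inl h)) ≤ (c : ℝ) / 10000)
    (ht0 : (t0 : ℝ) / 10000 ≤ hT b zs i h) (ht1 : hT b zs i h ≤ (t1 : ℝ) / 10000)
    (hsl : (S.slp : ℝ) / 10000 ≤ y (.inl (.inl h)) + y (.inl (.inl h')))
    (hsc : y (.inl (.inl h)) + y (.inl (.inl h')) ≤ (S.scp : ℝ) / 10000)
    (hsl' : (S.slq : ℝ) / 10000 ≤ y (.inl (.inl h)) + y (.inl (.inl h'')))
    (hsc' : y (.inl (.inl h)) + y (.inl (.inl h'')) ≤ (S.scq : ℝ) / 10000)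
    (mP : S.mx = true → clsW b k = .one → y (.inl (.inl h')) ≤ y (.inl (.inl h)))
    (mQ : S.mx = true → clsW b l = .one → y (.inl (.inl h'')) ≤ y (.inl (.inl h)))
    (fP : (f (cP b k s) : ℝ) / 10000 ≤ y (.inl (.inl h')))
    (fQ : (f (cQ b l s) : ℝ) / 10000 ≤ y (.inl (.inl h'')))
    (gP : y (.inl (.inl h')) ≤ (g (cP b k s) : ℝ) / 10000)
    (gQ : y (.inl (.inl h'')) ≤ (g (cQ b l s) : ℝ) / 10000)
    (sP : f .one < 850 → cP b k s = .one → cQ b l s = .ring → y (.inl (.inl h')) < 85 / 1000 →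
      hT b zs i h' + hT b zs j h'' ≤ 52 / 1000)
    (sQ : f .one < 850 → cQ b l s = .one → cP b k s = .ring → y (.inl (.inl h'')) < 85 / 1000 →
      hT b zs i h' + hT b zs j h'' ≤ 52 / 1000) : False := by
  obtain ⟨p, hp, px0, px1⟩ := xch_spec hL.2 hx0 hx1
  obtain ⟨q1, q2, q3, q4⟩ := hL.1 p hp
  have q3' : (p.t0 : ℝ) ≤ t0 := by exact_mod_cast q3
  have q4' : (t1 : ℝ) ≤ p.t1 := by exact_mod_cast q4
  obtain ⟨ib, hi, hi0, hi1, hi2⟩ := bins_cover hS.bins (P := cP b k s) fP gP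
  obtain ⟨jb, hj, hj0, hj1, hj2⟩ := bins_cover hS.bins (P := cQ b l s) fQ gQ
  exact C.piece_false hb hP hy hpos hS.good hS.pp hS.pw H q1 q2 hk px0 px1 (by linarith only [ht0, q3'])
    (by linarith only [ht1, q4']) hsl hsc hsl' hsc' mP mQ hi hj hi0 hi1 hj0 hj1 (kb_ok hS (C.win hP)
      (fun e1 e0 e2 e3 => sP e0 e1 e3 (hi2 e1 e0 e2))
      (fun e1 e0 e2 e3 => sQ e0 e1 e3 (hj2 e1 e0 e2)))

/-- the floor of the rounds `A`, `S` -/
def fA (_ : PC) : ℤ := 700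

/-- **A stage contradicts the maximum**, floors `.07`. -/
theorem Ctx.stage_false (C : Ctx b h h' h'' i j k l s) (hb : ClassW b) (hP : LocP b zs)
    (hF : Flo b zs y)
    (hy : Mx b zs y) (hpos : ∀ h : Fin M, 0 < y (.inl (.inl h))) {S : Stage} {g : PC → ℤ}
    (hS : StOk S fA g) (H : OwnOk b y S h) {L : List Piece} {a c t0 t1 : ℤ}
    (hL : POk S L a c t0 t1) (hk : S.kind (cP b k s) (cQ b l s) = true)
    (hx0 : (a : ℝ) / 10000 ≤ y (.inl (.inl h))) (hx1 : y (.inl (.inl h)) ≤ (c : ℝ) / 10000)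
    (ht0 : (t0 : ℝ) / 10000 ≤ hT b zs i h) (ht1 : hT b zs i h ≤ (t1 : ℝ) / 10000)
    (hsl : (S.slp : ℝ) / 10000 ≤ y (.inl (.inl h)) + y (.inl (.inl h')))
    (hsc : y (.inl (.inl h)) + y (.inl (.inl h')) ≤ (S.scp : ℝ) / 10000)
    (hsl' : (S.slq : ℝ) / 10000 ≤ y (.inl (.inl h)) + y (.inl (.inl h'')))
    (hsc' : y (.inl (.inl h)) + y (.inl (.inl h'')) ≤ (S.scq : ℝ) / 10000)
    (mP : S.mx = true → clsW b k = .one → y (.inl (.inl h')) ≤ y (.inl (.inl h)))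
    (mQ : S.mx = true → clsW b l = .one → y (.inl (.inl h'')) ≤ y (.inl (.inl h)))
    (gP : y (.inl (.inl h')) ≤ (g (cP b k s) : ℝ) / 10000)
    (gQ : y (.inl (.inl h'')) ≤ (g (cQ b l s) : ℝ) / 10000) : False := by
  refine C.stage_false' hb hP hy hpos hS H hL hk hx0 hx1 ht0 ht1 hsl hsc hsl' hsc' mP mQ
    (by unfold fA; push_cast; have := hF.fl C.A1 C.ci; linarith only [this])
    (by unfold fA; push_cast; have := hF.fl C.A2 C.cj; linarith only [this]) gP gQ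
    (fun _ e1 e3 e2 => C.short hb hP hF e1 e3 e2) (fun _ e1 e3 e2 => ?_)
  have h1 := C.symm.short hb hP hF (by rw [cP_rev]; exact e1) (by rw [cQ_rev]; exact e3) e2
  rw [add_comm]
  exact h1

end OR

end Pool.Agent.Work.MP_b30479_gtS.G2

end

section

namespace Pool.Agent.Work.MP_b30479_gtS.G2

namespace OR

/-- caps, three or more digits `1` -/
def stR3 : Stage where
  own := .R 800 200
  XM := 800
  cr := 200
  slp := 0
  scp := 9500
  slq := 0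
  scq := 9500
  bins := fun
    | .one => [⟨1250, 1500, .L 150⟩, ⟨1500, 2000, .F⟩, ⟨2000, 2500, .F⟩, ⟨2500, 3400, .F⟩]
    | .two => [⟨1500, 1600, .L 160⟩, ⟨1600, 2000, .F⟩, ⟨2000, 2500, .F⟩, ⟨2500, 3400, .F⟩]
    | .twoE => [⟨1250, 1400, .L 140⟩, ⟨1400, 2000, .F⟩, ⟨2000, 2500, .F⟩, ⟨2500, 3400, .F⟩]
    | .thrR => [⟨1300, 2000, .F⟩, ⟨2000, 2500, .F⟩, ⟨2500, 3400, .F⟩]
    | .thrL => [⟨1100, 1500, .L 150⟩, ⟨1500, 2000, .F⟩, ⟨2000, 2500, .F⟩, ⟨2500, 3400, .F⟩]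
    | .threeE => [⟨1200, 1400, .L 140⟩, ⟨1400, 2000, .F⟩, ⟨2000, 2500, .F⟩, ⟨2500, 3400, .F⟩]
    | .ring => [⟨1200, 1600, .L 160⟩, ⟨1600, 2000, .F⟩, ⟨2000, 2500, .F⟩, ⟨2500, 3400, .F⟩]
  pp := pp1
  pw := pw1
  k0 := k02
  kind := fun P Q => (decide (P = .one) || decide (Q = .one)) && !(decide (P = .ring) || decide (Q = .ring))

/-- caps, three or more digits `1`, ring -/
def stR3Z : Stage where
  own := .R 800 200
  XM := 800
  cr := 200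
  slp := 0
  scp := 9500
  slq := 0
  scq := 9500
  bins := fun
    | .one => [⟨1250, 1500, .L 150⟩, ⟨1500, 2000, .F⟩, ⟨2000, 2500, .F⟩, ⟨2500, 3400, .F⟩]
    | .two => [⟨1500, 1600, .L 160⟩, ⟨1600, 2000, .F⟩, ⟨2000, 2500, .F⟩, ⟨2500, 3400, .F⟩]
    | .twoE => [⟨1250, 1400, .L 140⟩, ⟨1400, 2000, .F⟩, ⟨2000, 2500, .F⟩, ⟨2500, 3400, .F⟩]
    | .thrR => [⟨1300, 2000, .F⟩, ⟨2000, 2500, .F⟩, ⟨2500, 3400, .F⟩]
    | .thrL => [⟨1100, 1500, .L 150⟩, ⟨1500, 2000, .F⟩, ⟨2000, 2500, .F⟩, ⟨2500, 3400, .F⟩]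
    | .threeE => [⟨1200, 1400, .L 140⟩, ⟨1400, 2000, .F⟩, ⟨2000, 2500, .F⟩, ⟨2500, 3400, .F⟩]
    | .ring => [⟨1200, 1600, .L 160⟩, ⟨1600, 2000, .F⟩, ⟨2000, 2500, .F⟩, ⟨2500, 3400, .F⟩]
  pp := pp1
  pw := pw1
  k0 := k02
  kind := fun P Q => (decide (P = .one) || decide (Q = .one)) && (decide (P = .ring) || decide (Q = .ring))

/-- caps, two digits `1`, ramp -/
def stR2R : Stage where
  own := .R 860 200
  XM := 860
  cr := 200
  slp := 0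
  scp := 9500
  slq := 0
  scq := 9500
  bins := fun
    | .one => [⟨1250, 1500, .L 150⟩, ⟨1500, 2000, .F⟩, ⟨2000, 2500, .F⟩, ⟨2500, 3400, .F⟩]
    | .two => [⟨1500, 1600, .L 160⟩, ⟨1600, 2000, .F⟩, ⟨2000, 2500, .F⟩, ⟨2500, 3400, .F⟩]
    | .twoE => [⟨1250, 1400, .L 140⟩, ⟨1400, 2000, .F⟩, ⟨2000, 2500, .F⟩, ⟨2500, 3400, .F⟩]
    | .thrR => [⟨1300, 2000, .F⟩, ⟨2000, 2500, .F⟩, ⟨2500, 3400, .F⟩]
    | .thrL => [⟨1100, 1500, .L 150⟩, ⟨1500, 2000, .F⟩, ⟨2000, 2500, .F⟩, ⟨2500, 3400, .F⟩]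
    | .threeE => [⟨1200, 1400, .L 140⟩, ⟨1400, 2000, .F⟩, ⟨2000, 2500, .F⟩, ⟨2500, 3400, .F⟩]
    | .ring => [⟨1200, 1600, .L 160⟩, ⟨1600, 2000, .F⟩, ⟨2000, 2500, .F⟩, ⟨2500, 3400, .F⟩]
  pp := pp1
  pw := pw1
  k0 := k02
  kind := fun P Q => !(decide (P = .one) || decide (Q = .one)) && !(decide (P = .ring) && decide (Q = .ring)) && !(decide (P = .thrR) && decide (Q = .thrR)) && !(decide (P = .thrL) && decide (Q = .thrL))

/-- caps, two digits `1`, ramp, rings -/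
def stR2Z : Stage where
  own := .R 860 200
  XM := 860
  cr := 200
  slp := 0
  scp := 9500
  slq := 0
  scq := 9500
  bins := fun
    | .one => [⟨1250, 1500, .L 150⟩, ⟨1500, 2000, .F⟩, ⟨2000, 2500, .F⟩, ⟨2500, 3400, .F⟩]
    | .two => [⟨1500, 1600, .L 160⟩, ⟨1600, 2000, .F⟩, ⟨2000, 2500, .F⟩, ⟨2500, 3400, .F⟩]
    | .twoE => [⟨1250, 1400, .L 140⟩, ⟨1400, 2000, .F⟩, ⟨2000, 2500, .F⟩, ⟨2500, 3400, .F⟩]
    | .thrR => [⟨1300, 2000, .F⟩, ⟨2000, 2500, .F⟩, ⟨2500, 3400, .F⟩]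
    | .thrL => [⟨1100, 1500, .L 150⟩, ⟨1500, 2000, .F⟩, ⟨2000, 2500, .F⟩, ⟨2500, 3400, .F⟩]
    | .threeE => [⟨1200, 1400, .L 140⟩, ⟨1400, 2000, .F⟩, ⟨2000, 2500, .F⟩, ⟨2500, 3400, .F⟩]
    | .ring => [⟨1200, 1600, .L 160⟩, ⟨1600, 2000, .F⟩, ⟨2000, 2500, .F⟩, ⟨2500, 3400, .F⟩]
  pp := pp1
  pw := pw1
  k0 := k02
  kind := fun P Q => (decide (P = .ring) && decide (Q = .ring))

/-- caps, two digits `1`, flat -/
def stR2F : Stage where
  own := .F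
  XM := 860
  cr := 200
  slp := 0
  scp := 9500
  slq := 0
  scq := 9500
  bins := fun
    | .one => [⟨1250, 1500, .L 150⟩, ⟨1500, 2000, .F⟩, ⟨2000, 2500, .F⟩, ⟨2500, 3400, .F⟩]
    | .two => [⟨1500, 1600, .L 160⟩, ⟨1600, 2000, .F⟩, ⟨2000, 2500, .F⟩, ⟨2500, 3400, .F⟩]
    | .twoE => [⟨1250, 1400, .L 140⟩, ⟨1400, 2000, .F⟩, ⟨2000, 2500, .F⟩, ⟨2500, 3400, .F⟩]
    | .thrR => [⟨1300, 2000, .F⟩, ⟨2000, 2500, .F⟩, ⟨2500, 3400, .F⟩]
    | .thrL => [⟨1100, 1500, .L 150⟩, ⟨1500, 2000, .F⟩, ⟨2000, 2500, .F⟩, ⟨2500, 3400, .F⟩]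
    | .threeE => [⟨1200, 1400, .L 140⟩, ⟨1400, 2000, .F⟩, ⟨2000, 2500, .F⟩, ⟨2500, 3400, .F⟩]
    | .ring => [⟨1200, 1600, .L 160⟩, ⟨1600, 2000, .F⟩, ⟨2000, 2500, .F⟩, ⟨2500, 3400, .F⟩]
  pp := pp1
  pw := pw1
  k0 := k02
  kind := fun P Q => !(decide (P = .one) || decide (Q = .one)) && !(decide (P = .ring) && decide (Q = .ring)) && !(decide (P = .thrR) && decide (Q = .thrR)) && !(decide (P = .thrL) && decide (Q = .thrL))

/-- caps, two digits `1`, flat, rings -/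
def stR2G : Stage where
  own := .F
  XM := 860
  cr := 200
  slp := 0
  scp := 9500
  slq := 0
  scq := 9500
  bins := fun
    | .one => [⟨1250, 1500, .L 150⟩, ⟨1500, 2000, .F⟩, ⟨2000, 2500, .F⟩, ⟨2500, 3400, .F⟩]
    | .two => [⟨1500, 1600, .L 160⟩, ⟨1600, 2000, .F⟩, ⟨2000, 2500, .F⟩, ⟨2500, 3400, .F⟩]
    | .twoE => [⟨1250, 1400, .L 140⟩, ⟨1400, 2000, .F⟩, ⟨2000, 2500, .F⟩, ⟨2500, 3400, .F⟩]
    | .thrR => [⟨1300, 2000, .F⟩, ⟨2000, 2500, .F⟩, ⟨2500, 3400, .F⟩]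
    | .thrL => [⟨1100, 1500, .L 150⟩, ⟨1500, 2000, .F⟩, ⟨2000, 2500, .F⟩, ⟨2500, 3400, .F⟩]
    | .threeE => [⟨1200, 1400, .L 140⟩, ⟨1400, 2000, .F⟩, ⟨2000, 2500, .F⟩, ⟨2500, 3400, .F⟩]
    | .ring => [⟨1200, 1600, .L 160⟩, ⟨1600, 2000, .F⟩, ⟨2000, 2500, .F⟩, ⟨2500, 3400, .F⟩]
  pp := pp1
  pw := pw1
  k0 := k02
  kind := fun P Q => (decide (P = .ring) && decide (Q = .ring))

/-- caps, three or more digits `1` -/
def stT3 : Stage where
  own := .R 800 200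
  XM := 800
  cr := 200
  slp := 0
  scp := 9500
  slq := 0
  scq := 9500
  bins := fun
    | .one => [⟨1500, 2000, .F⟩, ⟨2000, 2500, .F⟩, ⟨2500, 3500, .F⟩]
    | .two => [⟨1600, 2000, .F⟩, ⟨2000, 2500, .F⟩, ⟨2500, 3500, .F⟩]
    | .twoE => [⟨1400, 2000, .F⟩, ⟨2000, 2500, .F⟩, ⟨2500, 3500, .F⟩]
    | .thrR => [⟨1300, 2000, .F⟩, ⟨2000, 2500, .F⟩, ⟨2500, 3500, .F⟩]
    | .thrL => [⟨1500, 2000, .F⟩, ⟨2000, 2500, .F⟩, ⟨2500, 3500, .F⟩]
    | .threeE => [⟨1400, 2000, .F⟩, ⟨2000, 2500, .F⟩, ⟨2500, 3500, .F⟩]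
    | .ring => [⟨1450, 1600, .L 160⟩, ⟨1600, 2000, .F⟩, ⟨2000, 2500, .F⟩, ⟨2500, 3500, .F⟩]
  pp := pp1
  pw := pw1
  k0 := k02
  kind := fun P Q => (decide (P = .one) || decide (Q = .one)) && !(decide (P = .ring) || decide (Q = .ring))

/-- caps, three or more digits `1`, ring -/
def stT3Z : Stage where
  own := .R 800 200
  XM := 800
  cr := 200
  slp := 0
  scp := 9500
  slq := 0
  scq := 9500
  bins := fun
    | .one => [⟨1500, 2000, .F⟩, ⟨2000, 2500, .F⟩, ⟨2500, 3500, .F⟩]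
    | .two => [⟨1600, 2000, .F⟩, ⟨2000, 2500, .F⟩, ⟨2500, 3500, .F⟩]
    | .twoE => [⟨1400, 2000, .F⟩, ⟨2000, 2500, .F⟩, ⟨2500, 3500, .F⟩]
    | .thrR => [⟨1300, 2000, .F⟩, ⟨2000, 2500, .F⟩, ⟨2500, 3500, .F⟩]
    | .thrL => [⟨1500, 2000, .F⟩, ⟨2000, 2500, .F⟩, ⟨2500, 3500, .F⟩]
    | .threeE => [⟨1400, 2000, .F⟩, ⟨2000, 2500, .F⟩, ⟨2500, 3500, .F⟩]
    | .ring => [⟨1450, 1600, .L 160⟩, ⟨1600, 2000, .F⟩, ⟨2000, 2500, .F⟩, ⟨2500, 3500, .F⟩]
  pp := pp1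
  pw := pw1
  k0 := k02
  kind := fun P Q => (decide (P = .one) || decide (Q = .one)) && (decide (P = .ring) || decide (Q = .ring))

/-- caps, two digits `1`, flat, next to a region with three crossings -/
def stT2 : Stage where
  own := .F
  XM := 860
  cr := 200
  slp := 0
  scp := 9500
  slq := 0
  scq := 9500
  bins := fun
    | .one => [⟨1500, 2000, .F⟩, ⟨2000, 2500, .F⟩, ⟨2500, 3500, .F⟩]
    | .two => [⟨1600, 2000, .F⟩, ⟨2000, 2500, .F⟩, ⟨2500, 3500, .F⟩]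
    | .twoE => [⟨1400, 2000, .F⟩, ⟨2000, 2500, .F⟩, ⟨2500, 3500, .F⟩]
    | .thrR => [⟨1300, 2000, .F⟩, ⟨2000, 2500, .F⟩, ⟨2500, 3500, .F⟩]
    | .thrL => [⟨1500, 2000, .F⟩, ⟨2000, 2500, .F⟩, ⟨2500, 3500, .F⟩]
    | .threeE => [⟨1400, 2000, .F⟩, ⟨2000, 2500, .F⟩, ⟨2500, 3500, .F⟩]
    | .ring => [⟨1450, 1600, .L 160⟩, ⟨1600, 2000, .F⟩, ⟨2000, 2500, .F⟩, ⟨2500, 3500, .F⟩]
  pp := pp1
  pw := pw1
  k0 := k02
  kind := fun P Q => !(decide (P = .one) || decide (Q = .one)) && (decide (P = .thrR) || decide (P = .thrL) || decide (Q = .thrR) || decide (Q = .thrL)) && !(decide (P = .ring) || decide (Q = .ring)) && !(decide (P = .thrR) && decide (Q = .thrR)) && !(decide (P = .thrL) && decide (Q = .thrL))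

/-- caps, two digits `1`, flat, ring and three crossings -/
def stT2Z : Stage where
  own := .F
  XM := 860
  cr := 200
  slp := 0
  scp := 9500
  slq := 0
  scq := 9500
  bins := fun
    | .one => [⟨1500, 2000, .F⟩, ⟨2000, 2500, .F⟩, ⟨2500, 3500, .F⟩]
    | .two => [⟨1600, 2000, .F⟩, ⟨2000, 2500, .F⟩, ⟨2500, 3500, .F⟩]
    | .twoE => [⟨1400, 2000, .F⟩, ⟨2000, 2500, .F⟩, ⟨2500, 3500, .F⟩]
    | .thrR => [⟨1300, 2000, .F⟩, ⟨2000, 2500, .F⟩, ⟨2500, 3500, .F⟩]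
    | .thrL => [⟨1500, 2000, .F⟩, ⟨2000, 2500, .F⟩, ⟨2500, 3500, .F⟩]
    | .threeE => [⟨1400, 2000, .F⟩, ⟨2000, 2500, .F⟩, ⟨2500, 3500, .F⟩]
    | .ring => [⟨1450, 1600, .L 160⟩, ⟨1600, 2000, .F⟩, ⟨2000, 2500, .F⟩, ⟨2500, 3500, .F⟩]
  pp := pp1
  pw := pw1
  k0 := k02
  kind := fun P Q => !(decide (P = .one) || decide (Q = .one)) && (decide (P = .thrR) || decide (P = .thrL) || decide (Q = .thrR) || decide (Q = .thrL)) && (decide (P = .ring) || decide (Q = .ring))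

end OR

end Pool.Agent.Work.MP_b30479_gtS.G2

end
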