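import Pool.Agent.Work.MP_b30479_gt.TBS.G2.OKz
import Pool.Agent.Work.MP_b30479_gt.TBS.G2.OTab

set_option deprecated.oldSectionVars true

namespace Pool.Agent.Work.MP_b30479_gtS.G2

namespace OR

/-- windows -/
def r2f_0_wp : PC → Win
  | .one => ⟨0, 0, 0, 0, 0, 0⟩
  | .two => ⟨-230, 660, -330, 760, 0, 530⟩
  | .twoE => ⟨-790, -140, -520, 270, 0, 820⟩
  | .thrR => ⟨100, 800, 100, 910, 0, 480⟩
  | .thrL => ⟨100, 800, 100, 910, 0, 480⟩
  | .threeE => ⟨-20, 490, 80, 860, 0, 650⟩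
  | .ring => ⟨390, 1200, 310, 1120, 0, 320⟩

/-- windows -/
def r2f_0_wq : PC → Win
  | .one => ⟨0, 0, 0, 0, 0, 0⟩
  | .two => ⟨-230, 780, -360, 760, -660, 0⟩
  | .twoE => ⟨-460, -140, -520, -80, -160, 0⟩
  | .thrR => ⟨100, 920, -70, 910, -630, 0⟩
  | .thrL => ⟨100, 920, -70, 910, -630, 0⟩
  | .threeE => ⟨100, 610, 0, 860, -380, 0⟩
  | .ring => ⟨390, 1300, 110, 1120, -820, 0⟩

/-- mode -/
def r2f_0_m0 : Mode where
  md := .D
  lam := 3500
  ct := 1000
  gp := fun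
    | .one => [e00, e00, e00, e00]
    | .two => [⟨-2126, [8]⟩, ⟨-2126, [2179]⟩, ⟨-2126, [2179]⟩, ⟨-2126, [11524992508073123163701554]⟩]
    | .twoE => [⟨158, [8]⟩, ⟨158, [8]⟩, ⟨158, [8]⟩, ⟨158, [175836441666736625698]⟩]
    | .thrR => [⟨-2408, [157052767031356631090]⟩, ⟨-2408, [2179]⟩, ⟨-2408, [175827426906016874802]⟩]
    | .thrL => [⟨-2408, [142837778]⟩, ⟨-2408, [559154]⟩, ⟨-2408, [2179]⟩, ⟨-2408, [175827426906016874802]⟩]
    | .threeE => [⟨-1706, [8]⟩, ⟨-1706, [2177]⟩, ⟨-1706, [8]⟩, ⟨-1706, [175836436166858015506]⟩]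
    | .ring => [⟨-2935, [17148204285445598283783632194105345677523766772515]⟩, ⟨-2935, [16815915552444119320753228926286497485728712394803]⟩, ⟨-3318, [9586772969507]⟩, ⟨-3318, [619389137394893362]⟩]
  gq := fun
    | .one => [e00, e00, e00, e00]
    | .two => [⟨-1969, [2179]⟩, ⟨-1969, [2178]⟩, ⟨-1969, [2178]⟩, ⟨-1969, [193334206180400481311670031385378]⟩]
    | .twoE => [⟨1273, [8]⟩, ⟨1273, [8]⟩, ⟨1273, [8]⟩, ⟨1273, [623234]⟩]
    | .thrR => [⟨-2354, [2401898326073634]⟩, ⟨-2354, [2179]⟩, ⟨-2354, [755211742892189380123704178722]⟩]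
    | .thrL => [⟨-1971, [2401919862649362]⟩, ⟨-2354, [2178]⟩, ⟨-2354, [2179]⟩, ⟨-2354, [755211742892189380123704178722]⟩]
    | .threeE => [⟨-1133, [8]⟩, ⟨-1133, [8]⟩, ⟨-1133, [8]⟩, ⟨-1133, [159920770]⟩]
    | .ring => [⟨-2881, [80881897093473515031529594171576754675151021824951295650746123784630563]⟩, ⟨-2881, [2897113265589624648053806528977206085651]⟩, ⟨-2881, [36549265427]⟩, ⟨-2881, [54418740649726389947658896794657026150192349490]⟩]

/-- mode -/
def r2f_0_m1 : Mode where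
  md := .D
  lam := 3000
  ct := 0
  gp := fun
    | .one => [e00, e00, e00, e00]
    | .two => [e00, e00, e00, e00]
    | .twoE => [e00, e00, e00, e00]
    | .thrR => [e00, e00, e00]
    | .thrL => [e00, e00, e00, e00]
    | .threeE => [e00, e00, e00, e00]
    | .ring => [⟨-2286, [287699127324997865410942151772004708670967718863443624483]⟩, ⟨-2286, [4319488109252561479663733980503524203144862513727523]⟩, e00, e00]
  gq := fun
    | .one => [e00, e00, e00, e00]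
    | .two => [e00, e00, e00, e00]
    | .twoE => [e00, e00, e00, e00]
    | .thrR => [e00, e00, e00]
    | .thrL => [⟨-2248, [2394201739789074]⟩, e00, e00, e00]
    | .threeE => [e00, e00, e00, e00]
    | .ring => [e00, e00, e00, e00]

/-- mode -/
def r2f_0_m2 : Mode where
  md := .D
  lam := 4500
  ct := 1000
  gp := fun
    | .one => [e00, e00, e00, e00]
    | .two => [e00, e00, e00, e00]
    | .twoE => [e00, e00, e00, e00]
    | .thrR => [⟨-2876, [143164194]⟩, e00, e00]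
    | .thrL => [e00, e00, e00, e00]
    | .threeE => [e00, e00, e00, e00]
    | .ring => [e00, e00, e00, e00]
  gq := fun
    | .one => [e00, e00, e00, e00]
    | .two => [e00, e00, e00, e00]
    | .twoE => [e00, e00, e00, e00]
    | .thrR => [e00, e00, e00]
    | .thrL => [e00, e00, e00, e00]
    | .threeE => [e00, e00, e00, e00]
    | .ring => [e00, ⟨-3923, [2634861064424626675132150546]⟩, e00, e00]

/-- piece -/
def r2f_0 : Piece := ⟨6400, 6500, 0, 820, r2f_0_wp, r2f_0_wq, [r2f_0_m0, r2f_0_m1, r2f_0_m2]⟩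

set_option linter.defProp false

def r2f_0_r0_one0 : rowsOk stR2F r2f_0 r2f_0_m0 false .one = true := by decide +kernel

def r2f_0_r0_one1 : rowsOk stR2F r2f_0 r2f_0_m0 true .one = true := by decide +kernel

def r2f_0_r0_two0 : rowsOk stR2F r2f_0 r2f_0_m0 false .two = true := by decide +kernel

def r2f_0_r0_two1 : rowsOk stR2F r2f_0 r2f_0_m0 true .two = true := by decide +kernel

def r2f_0_r0_twoE0 : rowsOk stR2F r2f_0 r2f_0_m0 false .twoE = true := by decide +kernel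

def r2f_0_r0_twoE1 : rowsOk stR2F r2f_0 r2f_0_m0 true .twoE = true := by decide +kernel

def r2f_0_r0_thrR0 : rowsOk stR2F r2f_0 r2f_0_m0 false .thrR = true := by decide +kernel

def r2f_0_r0_thrR1 : rowsOk stR2F r2f_0 r2f_0_m0 true .thrR = true := by decide +kernel

def r2f_0_r0_thrL0 : rowsOk stR2F r2f_0 r2f_0_m0 false .thrL = true := by decide +kernel

def r2f_0_r0_thrL1 : rowsOk stR2F r2f_0 r2f_0_m0 true .thrL = true := by decide +kernel

def r2f_0_r0_threeE0 : rowsOk stR2F r2f_0 r2f_0_m0 false .threeE = true := by decide +kernel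

def r2f_0_r0_threeE1 : rowsOk stR2F r2f_0 r2f_0_m0 true .threeE = true := by decide +kernel

def r2f_0_r0_ring0 : rowsOk stR2F r2f_0 r2f_0_m0 false .ring = true := by decide +kernel

def r2f_0_r0_ring1 : rowsOk stR2F r2f_0 r2f_0_m0 true .ring = true := by decide +kernel

def r2f_0_r1_one0 : rowsOk stR2F r2f_0 r2f_0_m1 false .one = true := by decide +kernel

def r2f_0_r1_one1 : rowsOk stR2F r2f_0 r2f_0_m1 true .one = true := by decide +kernel

def r2f_0_r1_two0 : rowsOk stR2F r2f_0 r2f_0_m1 false .two = true := by decide +kernel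

def r2f_0_r1_two1 : rowsOk stR2F r2f_0 r2f_0_m1 true .two = true := by decide +kernel

def r2f_0_r1_twoE0 : rowsOk stR2F r2f_0 r2f_0_m1 false .twoE = true := by decide +kernel

def r2f_0_r1_twoE1 : rowsOk stR2F r2f_0 r2f_0_m1 true .twoE = true := by decide +kernel

def r2f_0_r1_thrR0 : rowsOk stR2F r2f_0 r2f_0_m1 false .thrR = true := by decide +kernel

def r2f_0_r1_thrR1 : rowsOk stR2F r2f_0 r2f_0_m1 true .thrR = true := by decide +kernel

def r2f_0_r1_thrL0 : rowsOk stR2F r2f_0 r2f_0_m1 false .thrL = true := by decide +kernel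

def r2f_0_r1_thrL1 : rowsOk stR2F r2f_0 r2f_0_m1 true .thrL = true := by decide +kernel

def r2f_0_r1_threeE0 : rowsOk stR2F r2f_0 r2f_0_m1 false .threeE = true := by decide +kernel

def r2f_0_r1_threeE1 : rowsOk stR2F r2f_0 r2f_0_m1 true .threeE = true := by decide +kernel

def r2f_0_r1_ring0 : rowsOk stR2F r2f_0 r2f_0_m1 false .ring = true := by decide +kernel

def r2f_0_r1_ring1 : rowsOk stR2F r2f_0 r2f_0_m1 true .ring = true := by decide +kernel

def r2f_0_r2_one0 : rowsOk stR2F r2f_0 r2f_0_m2 false .one = true := by decide +kernel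

def r2f_0_r2_one1 : rowsOk stR2F r2f_0 r2f_0_m2 true .one = true := by decide +kernel

def r2f_0_r2_two0 : rowsOk stR2F r2f_0 r2f_0_m2 false .two = true := by decide +kernel

def r2f_0_r2_two1 : rowsOk stR2F r2f_0 r2f_0_m2 true .two = true := by decide +kernel

def r2f_0_r2_twoE0 : rowsOk stR2F r2f_0 r2f_0_m2 false .twoE = true := by decide +kernel

def r2f_0_r2_twoE1 : rowsOk stR2F r2f_0 r2f_0_m2 true .twoE = true := by decide +kernel

def r2f_0_r2_thrR0 : rowsOk stR2F r2f_0 r2f_0_m2 false .thrR = true := by decide +kernel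

def r2f_0_r2_thrR1 : rowsOk stR2F r2f_0 r2f_0_m2 true .thrR = true := by decide +kernel

def r2f_0_r2_thrL0 : rowsOk stR2F r2f_0 r2f_0_m2 false .thrL = true := by decide +kernel

def r2f_0_r2_thrL1 : rowsOk stR2F r2f_0 r2f_0_m2 true .thrL = true := by decide +kernel

def r2f_0_r2_threeE0 : rowsOk stR2F r2f_0 r2f_0_m2 false .threeE = true := by decide +kernel

def r2f_0_r2_threeE1 : rowsOk stR2F r2f_0 r2f_0_m2 true .threeE = true := by decide +kernel

def r2f_0_r2_ring0 : rowsOk stR2F r2f_0 r2f_0_m2 false .ring = true := by decide +kernel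

def r2f_0_r2_ring1 : rowsOk stR2F r2f_0 r2f_0_m2 true .ring = true := by decide +kernel

theorem r2f_0_r0 : allRows stR2F r2f_0 r2f_0_m0 = true := by
  refine allRows_of fun P => ?_
  cases P
  exacts [⟨r2f_0_r0_one0, r2f_0_r0_one1⟩,
    ⟨r2f_0_r0_two0, r2f_0_r0_two1⟩,
    ⟨r2f_0_r0_twoE0, r2f_0_r0_twoE1⟩,
    ⟨r2f_0_r0_thrR0, r2f_0_r0_thrR1⟩,
    ⟨r2f_0_r0_thrL0, r2f_0_r0_thrL1⟩,
    ⟨r2f_0_r0_threeE0, r2f_0_r0_threeE1⟩,
    ⟨r2f_0_r0_ring0, r2f_0_r0_ring1⟩]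

theorem r2f_0_r1 : allRows stR2F r2f_0 r2f_0_m1 = true := by
  refine allRows_of fun P => ?_
  cases P
  exacts [⟨r2f_0_r1_one0, r2f_0_r1_one1⟩,
    ⟨r2f_0_r1_two0, r2f_0_r1_two1⟩,
    ⟨r2f_0_r1_twoE0, r2f_0_r1_twoE1⟩,
    ⟨r2f_0_r1_thrR0, r2f_0_r1_thrR1⟩,
    ⟨r2f_0_r1_thrL0, r2f_0_r1_thrL1⟩,
    ⟨r2f_0_r1_threeE0, r2f_0_r1_threeE1⟩,
    ⟨r2f_0_r1_ring0, r2f_0_r1_ring1⟩]

theorem r2f_0_r2 : allRows stR2F r2f_0 r2f_0_m2 = true := by
  refine allRows_of fun P => ?_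
  cases P
  exacts [⟨r2f_0_r2_one0, r2f_0_r2_one1⟩,
    ⟨r2f_0_r2_two0, r2f_0_r2_two1⟩,
    ⟨r2f_0_r2_twoE0, r2f_0_r2_twoE1⟩,
    ⟨r2f_0_r2_thrR0, r2f_0_r2_thrR1⟩,
    ⟨r2f_0_r2_thrL0, r2f_0_r2_thrL1⟩,
    ⟨r2f_0_r2_threeE0, r2f_0_r2_threeE1⟩,
    ⟨r2f_0_r2_ring0, r2f_0_r2_ring1⟩]

theorem r2f_0_ok : r2f_0.ok stR2F = true := by
  have h : (PC.all.all fun P => PC.all.all fun Q => pairOk stR2F r2f_0 P Q) = true := by decide +kernel
  have d0 : mdOk stR2F r2f_0_m0.md = true := by decide +kernel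
  have d1 : mdOk stR2F r2f_0_m1.md = true := by decide +kernel
  have d2 : mdOk stR2F r2f_0_m2.md = true := by decide +kernel
  unfold Piece.ok
  rw [h, Bool.true_and]
  show List.all [r2f_0_m0, r2f_0_m1, r2f_0_m2] _ = true
  rw [List.all_eq_true]
  intro m hm
  simp only [List.mem_cons, List.not_mem_nil, or_false] at hm
  rcases hm with rfl | rfl | rfl
  · rw [r2f_0_r0, d0]; rfl
  · rw [r2f_0_r1, d1]; rfl
  · rw [r2f_0_r2, d2]; rfl

end OR

end Pool.Agent.Work.MP_b30479_gtS.G2
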