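import Pool.Agent.Work.MP_b30479_gt.TBS.G2.OKz
import Pool.Agent.Work.MP_b30479_gt.TBS.G2.OTab

set_option deprecated.oldSectionVars true

namespace Pool.Agent.Work.MP_b30479_gtS.G2

namespace OR

/-- windows -/
def r2r_0_wp : PC → Win
  | .one => ⟨0, 0, 0, 0, 0, 0⟩
  | .two => ⟨-230, 660, -330, 760, 0, 530⟩
  | .twoE => ⟨-790, -140, -520, 270, 0, 820⟩
  | .thrR => ⟨100, 800, 100, 910, 0, 480⟩
  | .thrL => ⟨100, 800, 100, 910, 0, 480⟩
  | .threeE => ⟨-20, 490, 80, 860, 0, 650⟩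
  | .ring => ⟨390, 1200, 310, 1120, 0, 320⟩

/-- windows -/
def r2r_0_wq : PC → Win
  | .one => ⟨0, 0, 0, 0, 0, 0⟩
  | .two => ⟨-230, 780, -360, 760, -660, 0⟩
  | .twoE => ⟨-460, -140, -520, -80, -160, 0⟩
  | .thrR => ⟨100, 920, -70, 910, -630, 0⟩
  | .thrL => ⟨100, 920, -70, 910, -630, 0⟩
  | .threeE => ⟨100, 610, 0, 860, -380, 0⟩
  | .ring => ⟨390, 1300, 110, 1120, -820, 0⟩

/-- mode -/
def r2r_0_m0 : Mode where
  md := .D
  lam := 3500
  ct := 14000
  gp := fun
    | .one => [e00, e00, e00, e00]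
    | .two => [⟨-2232, [2179]⟩, ⟨-2232, [142706707]⟩, ⟨-2232, [36532619314]⟩, ⟨-2232, [49499860374092931578942871505998626]⟩]
    | .twoE => [⟨93, [2177]⟩, ⟨93, [142837809]⟩, ⟨93, [142772257]⟩, ⟨93, [54782055709216801815979197635301363340089504034]⟩]
    | .thrR => [⟨-2617, [10283018163413683144261938]⟩, ⟨-2617, [142837810]⟩, ⟨-2617, [2949894763014954893634442018]⟩]
    | .thrL => [⟨-2617, [40168367179367990170386]⟩, ⟨-2617, [9361019142930]⟩, ⟨-2617, [142837810]⟩, ⟨-2617, [2949894763014954893634442018]⟩]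
    | .threeE => [⟨-1783, [2177]⟩, ⟨-1783, [142706706]⟩, ⟨-1783, [557442]⟩, ⟨-1783, [755299642236771872653087093026]⟩]
    | .ring => [⟨-2977, [156906405193133359907]⟩, ⟨-2977, [613484070880577587]⟩, ⟨-2977, [142772259]⟩, ⟨-2977, [10480400212786]⟩]
  gq := fun
    | .one => [e00, e00, e00, e00]
    | .two => [⟨-1927, [2179]⟩, ⟨-1927, [142837809]⟩, ⟨-1927, [612920641770259218]⟩, ⟨-1927, [4312011627507441561126301073807687309252981276442470868867039407202529121058]⟩]
    | .twoE => [⟨1338, [8]⟩, ⟨1338, [8]⟩, ⟨1338, [8]⟩, ⟨1338, [159922210]⟩]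
    | .thrR => [⟨-2312, [675975141417145304831088558866]⟩, ⟨-2312, [2394221256906802]⟩, ⟨-2312, [3921783328496067295479647489368094063084154197833307219923505954]⟩]
    | .thrL => [⟨-2312, [613483724867666721]⟩, ⟨-2312, [2394221240156451]⟩, ⟨-2312, [2394221256906802]⟩, ⟨-2312, [3921783328496067295479647489368094063084154197833307219923505954]⟩]
    | .threeE => [⟨-1056, [8]⟩, ⟨-1056, [2178]⟩, ⟨-1056, [2179]⟩, ⟨-1056, [691446615384818466]⟩]
    | .ring => [⟨-2672, [3499160971403623525869319144787482258288575085263344104962011697]⟩, ⟨-2672, [895785221797489495607726422974122142265201247148759841809241748017]⟩, ⟨-2672, [189864016615897617123632974430056777347772977]⟩, ⟨-2672, [1467297119514614023993770310666180791111069069543735542407384054711982049790348393428017820713986490202440152060706]⟩]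

/-- piece -/
def r2r_0 : Piece := ⟨6600, 6800, 0, 820, r2r_0_wp, r2r_0_wq, [r2r_0_m0]⟩

set_option linter.defProp false

def r2r_0_r0_one0 : rowsOk stR2R r2r_0 r2r_0_m0 false .one = true := by decide +kernel

def r2r_0_r0_one1 : rowsOk stR2R r2r_0 r2r_0_m0 true .one = true := by decide +kernel

def r2r_0_r0_two0 : rowsOk stR2R r2r_0 r2r_0_m0 false .two = true := by decide +kernel

def r2r_0_r0_two1 : rowsOk stR2R r2r_0 r2r_0_m0 true .two = true := by decide +kernel

def r2r_0_r0_twoE0 : rowsOk stR2R r2r_0 r2r_0_m0 false .twoE = true := by decide +kernel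

def r2r_0_r0_twoE1 : rowsOk stR2R r2r_0 r2r_0_m0 true .twoE = true := by decide +kernel

def r2r_0_r0_thrR0 : rowsOk stR2R r2r_0 r2r_0_m0 false .thrR = true := by decide +kernel

def r2r_0_r0_thrR1 : rowsOk stR2R r2r_0 r2r_0_m0 true .thrR = true := by decide +kernel

def r2r_0_r0_thrL0 : rowsOk stR2R r2r_0 r2r_0_m0 false .thrL = true := by decide +kernel

def r2r_0_r0_thrL1 : rowsOk stR2R r2r_0 r2r_0_m0 true .thrL = true := by decide +kernel

def r2r_0_r0_threeE0 : rowsOk stR2R r2r_0 r2r_0_m0 false .threeE = true := by decide +kernel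

def r2r_0_r0_threeE1 : rowsOk stR2R r2r_0 r2r_0_m0 true .threeE = true := by decide +kernel

def r2r_0_r0_ring0 : rowsOk stR2R r2r_0 r2r_0_m0 false .ring = true := by decide +kernel

def r2r_0_r0_ring1_0 : cellOk stR2R r2r_0 r2r_0_m0 true .ring ((stR2R.bins .ring).getD 0 b00)
    ((r2r_0_m0.g true .ring).getD 0 e00) = true := by decide +kernel

def r2r_0_r0_ring1_1 : cellOk stR2R r2r_0 r2r_0_m0 true .ring ((stR2R.bins .ring).getD 1 b00)
    ((r2r_0_m0.g true .ring).getD 1 e00) = true := by decide +kernel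

def r2r_0_r0_ring1_2 : cellOk stR2R r2r_0 r2r_0_m0 true .ring ((stR2R.bins .ring).getD 2 b00)
    ((r2r_0_m0.g true .ring).getD 2 e00) = true := by decide +kernel

def r2r_0_r0_ring1_3 : cellOk stR2R r2r_0 r2r_0_m0 true .ring ((stR2R.bins .ring).getD 3 b00)
    ((r2r_0_m0.g true .ring).getD 3 e00) = true := by decide +kernel

theorem r2r_0_r0_ring1 : rowsOk stR2R r2r_0 r2r_0_m0 true .ring = true := by
  refine rowsOk_of fun i hi => ?_
  have hi : i < 4 := hi
  interval_cases i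
  exacts [r2r_0_r0_ring1_0, r2r_0_r0_ring1_1, r2r_0_r0_ring1_2, r2r_0_r0_ring1_3]

theorem r2r_0_r0 : allRows stR2R r2r_0 r2r_0_m0 = true := by
  refine allRows_of fun P => ?_
  cases P
  exacts [⟨r2r_0_r0_one0, r2r_0_r0_one1⟩,
    ⟨r2r_0_r0_two0, r2r_0_r0_two1⟩,
    ⟨r2r_0_r0_twoE0, r2r_0_r0_twoE1⟩,
    ⟨r2r_0_r0_thrR0, r2r_0_r0_thrR1⟩,
    ⟨r2r_0_r0_thrL0, r2r_0_r0_thrL1⟩,
    ⟨r2r_0_r0_threeE0, r2r_0_r0_threeE1⟩,
    ⟨r2r_0_r0_ring0, r2r_0_r0_ring1⟩]

theorem r2r_0_ok : r2r_0.ok stR2R = true := by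
  have h : (PC.all.all fun P => PC.all.all fun Q => pairOk stR2R r2r_0 P Q) = true := by decide +kernel
  have d0 : mdOk stR2R r2r_0_m0.md = true := by decide +kernel
  unfold Piece.ok
  rw [h, Bool.true_and]
  show List.all [r2r_0_m0] _ = true
  rw [List.all_eq_true]
  intro m hm
  simp only [List.mem_cons, List.not_mem_nil, or_false] at hm
  rcases hm with rfl
  · rw [r2r_0_r0, d0]; rfl

end OR

end Pool.Agent.Work.MP_b30479_gtS.G2
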