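import Pool.Agent.Work.MP_b30479_gt.TBS.G2.OKz
import Pool.Agent.Work.MP_b30479_gt.TBS.G2.OTab

set_option deprecated.oldSectionVars true

namespace Pool.Agent.Work.MP_b30479_gtS.G2

namespace OR

/-- windows -/
def r2r_1_wp : PC → Win
  | .one => ⟨0, 0, 0, 0, 0, 0⟩
  | .two => ⟨-230, 660, -330, 760, 0, 530⟩
  | .twoE => ⟨-790, -140, -520, 270, 0, 820⟩
  | .thrR => ⟨100, 800, 100, 910, 0, 480⟩
  | .thrL => ⟨100, 800, 100, 910, 0, 480⟩
  | .threeE => ⟨-20, 490, 80, 860, 0, 650⟩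
  | .ring => ⟨390, 1200, 310, 1120, 0, 320⟩

/-- windows -/
def r2r_1_wq : PC → Win
  | .one => ⟨0, 0, 0, 0, 0, 0⟩
  | .two => ⟨-230, 780, -360, 760, -660, 0⟩
  | .twoE => ⟨-460, -140, -520, -80, -160, 0⟩
  | .thrR => ⟨100, 920, -70, 910, -630, 0⟩
  | .thrL => ⟨100, 920, -70, 910, -630, 0⟩
  | .threeE => ⟨100, 610, 0, 860, -380, 0⟩
  | .ring => ⟨390, 1300, 110, 1120, -820, 0⟩

/-- mode -/
def r2r_1_m0 : Mode where
  md := .D
  lam := 4000
  ct := 14000
  gp := fun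
    | .one => [e00, e00, e00, e00]
    | .two => [⟨-2342, [8]⟩, ⟨-2342, [142706707]⟩, ⟨-2342, [9352426784818]⟩, ⟨-2342, [2969742961049368786349654818]⟩]
    | .twoE => [⟨361, [2177]⟩, ⟨361, [142706706]⟩, ⟨361, [9361018685458]⟩, ⟨361, [49823858217562098918136545787588898]⟩]
    | .thrR => [⟨-2782, [9361017045298]⟩, ⟨-2782, [36642719794]⟩, ⟨-2782, [177009911005529183010]⟩]
    | .thrL => [⟨-2782, [9361019142930]⟩, ⟨-2782, [142837810]⟩, ⟨-2782, [36642719794]⟩, ⟨-2782, [177009911005529183010]⟩]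
    | .threeE => [⟨-1859, [2177]⟩, ⟨-1859, [142706706]⟩, ⟨-1859, [36566042642]⟩, ⟨-1859, [45315008775483207725346]⟩]
    | .ring => [⟨-3469, [9360923722531]⟩, ⟨-3469, [36644751411]⟩, ⟨-3469, [142772259]⟩, ⟨-3469, [41213768482]⟩]
  gq := fun
    | .one => [e00, e00, e00, e00]
    | .two => [⟨-2135, [2179]⟩, ⟨-2135, [9381039577123]⟩, ⟨-2135, [2634892516488146362966769970]⟩, ⟨-2135, [3590187516087399275702555550470944766037086331671330]⟩]
    | .twoE => [⟨1275, [8]⟩, ⟨1275, [8]⟩, ⟨1275, [8]⟩, ⟨1275, [160989986]⟩]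
    | .thrR => [⟨-2575, [10314562094377506929410354]⟩, ⟨-2575, [10292548892613806021706034]⟩, ⟨-2575, [835914369912209613808114842445471638623010]⟩]
    | .thrL => [⟨-2575, [613483724867666721]⟩, ⟨-2575, [9352350537778]⟩, ⟨-2575, [10292548892613806021706034]⟩, ⟨-2575, [835914369912209613808114842445471638623010]⟩]
    | .threeE => [⟨-1385, [8]⟩, ⟨-1385, [2178]⟩, ⟨-1385, [557954]⟩, ⟨-1385, [2702084999229986]⟩]
    | .ring => [⟨-3262, [3192202249740549422506468696856109871612371598324273]⟩, ⟨-3262, [208566249732582636317098753906290638250217210920925934099]⟩, ⟨-3262, [13681151852409190877626482091753628027615201834845447567978802]⟩, ⟨-3262, [4340315555183580593212235302328543658867157952082439752979491924113619948322]⟩]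

/-- piece -/
def r2r_1 : Piece := ⟨6800, 7000, 0, 820, r2r_1_wp, r2r_1_wq, [r2r_1_m0]⟩

set_option linter.defProp false

def r2r_1_r0_one0 : rowsOk stR2R r2r_1 r2r_1_m0 false .one = true := by decide +kernel

def r2r_1_r0_one1 : rowsOk stR2R r2r_1 r2r_1_m0 true .one = true := by decide +kernel

def r2r_1_r0_two0 : rowsOk stR2R r2r_1 r2r_1_m0 false .two = true := by decide +kernel

def r2r_1_r0_two1 : rowsOk stR2R r2r_1 r2r_1_m0 true .two = true := by decide +kernel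

def r2r_1_r0_twoE0 : rowsOk stR2R r2r_1 r2r_1_m0 false .twoE = true := by decide +kernel

def r2r_1_r0_twoE1 : rowsOk stR2R r2r_1 r2r_1_m0 true .twoE = true := by decide +kernel

def r2r_1_r0_thrR0 : rowsOk stR2R r2r_1 r2r_1_m0 false .thrR = true := by decide +kernel

def r2r_1_r0_thrR1 : rowsOk stR2R r2r_1 r2r_1_m0 true .thrR = true := by decide +kernel

def r2r_1_r0_thrL0 : rowsOk stR2R r2r_1 r2r_1_m0 false .thrL = true := by decide +kernel

def r2r_1_r0_thrL1 : rowsOk stR2R r2r_1 r2r_1_m0 true .thrL = true := by decide +kernel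

def r2r_1_r0_threeE0 : rowsOk stR2R r2r_1 r2r_1_m0 false .threeE = true := by decide +kernel

def r2r_1_r0_threeE1 : rowsOk stR2R r2r_1 r2r_1_m0 true .threeE = true := by decide +kernel

def r2r_1_r0_ring0 : rowsOk stR2R r2r_1 r2r_1_m0 false .ring = true := by decide +kernel

def r2r_1_r0_ring1 : rowsOk stR2R r2r_1 r2r_1_m0 true .ring = true := by decide +kernel

theorem r2r_1_r0 : allRows stR2R r2r_1 r2r_1_m0 = true := by
  refine allRows_of fun P => ?_
  cases P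
  exacts [⟨r2r_1_r0_one0, r2r_1_r0_one1⟩,
    ⟨r2r_1_r0_two0, r2r_1_r0_two1⟩,
    ⟨r2r_1_r0_twoE0, r2r_1_r0_twoE1⟩,
    ⟨r2r_1_r0_thrR0, r2r_1_r0_thrR1⟩,
    ⟨r2r_1_r0_thrL0, r2r_1_r0_thrL1⟩,
    ⟨r2r_1_r0_threeE0, r2r_1_r0_threeE1⟩,
    ⟨r2r_1_r0_ring0, r2r_1_r0_ring1⟩]

theorem r2r_1_ok : r2r_1.ok stR2R = true := by
  have h : (PC.all.all fun P => PC.all.all fun Q => pairOk stR2R r2r_1 P Q) = true := by decide +kernel
  have d0 : mdOk stR2R r2r_1_m0.md = true := by decide +kernel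
  unfold Piece.ok
  rw [h, Bool.true_and]
  show List.all [r2r_1_m0] _ = true
  rw [List.all_eq_true]
  intro m hm
  simp only [List.mem_cons, List.not_mem_nil, or_false] at hm
  rcases hm with rfl
  · rw [r2r_1_r0, d0]; rfl

end OR

end Pool.Agent.Work.MP_b30479_gtS.G2
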