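import Pool.Agent.Work.MP_b30479_gt.TBS.G2.OKz
import Pool.Agent.Work.MP_b30479_gt.TBS.G2.OTab

section

set_option deprecated.oldSectionVars true

namespace Pool.Agent.Work.MP_b30479_gtS.G2

namespace OR

/-- windows -/
def r2z_0_wp : PC → Win
  | .one => ⟨0, 0, 0, 0, 0, 0⟩
  | .two => ⟨0, 0, 0, 0, 0, 0⟩
  | .twoE => ⟨0, 0, 0, 0, 0, 0⟩
  | .thrR => ⟨0, 0, 0, 0, 0, 0⟩
  | .thrL => ⟨0, 0, 0, 0, 0, 0⟩
  | .threeE => ⟨0, 0, 0, 0, 0, 0⟩
  | .ring => ⟨270, 1080, 250, 1010, 0, 440⟩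

/-- windows -/
def r2z_0_wq : PC → Win
  | .one => ⟨0, 0, 0, 0, 0, 0⟩
  | .two => ⟨0, 0, 0, 0, 0, 0⟩
  | .twoE => ⟨0, 0, 0, 0, 0, 0⟩
  | .thrR => ⟨0, 0, 0, 0, 0, 0⟩
  | .thrL => ⟨0, 0, 0, 0, 0, 0⟩
  | .threeE => ⟨0, 0, 0, 0, 0, 0⟩
  | .ring => ⟨270, 1080, 250, 1010, -440, 0⟩

/-- mode -/
def r2z_0_m0 : Mode where
  md := .D
  lam := 3500
  ct := 14000
  gp := fun
    | .one => [e00, e00, e00, e00]
    | .two => [e00, e00, e00, e00]
    | .twoE => [e00, e00, e00, e00]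
    | .thrR => [e00, e00, e00]
    | .thrL => [e00, e00, e00, e00]
    | .threeE => [e00, e00, e00, e00]
    | .ring => [⟨-3053, [172680315960567159761915299246371]⟩, ⟨-3053, [612920800597674003]⟩, ⟨-3053, [36642654243]⟩, ⟨-3053, [686825892084195634]⟩]
  gq := fun
    | .one => [e00, e00, e00, e00]
    | .two => [e00, e00, e00, e00]
    | .twoE => [e00, e00, e00, e00]
    | .thrR => [e00, e00, e00]
    | .thrL => [e00, e00, e00, e00]
    | .threeE => [e00, e00, e00, e00]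
    | .ring => [⟨-3111, [11306390057728753327561993132924473635]⟩, ⟨-3111, [10283102356120714212835619]⟩, ⟨-3111, [2396420263385123]⟩, ⟨-3111, [54418742854949051413123489855136179522342425378]⟩]

/-- piece -/
def r2z_0 : Piece := ⟨6600, 6800, 0, 820, r2z_0_wp, r2z_0_wq, [r2z_0_m0]⟩

set_option linter.defProp false

def r2z_0_r0_one0 : rowsOk stR2Z r2z_0 r2z_0_m0 false .one = true := by decide +kernel

def r2z_0_r0_one1 : rowsOk stR2Z r2z_0 r2z_0_m0 true .one = true := by decide +kernel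

def r2z_0_r0_two0 : rowsOk stR2Z r2z_0 r2z_0_m0 false .two = true := by decide +kernel

def r2z_0_r0_two1 : rowsOk stR2Z r2z_0 r2z_0_m0 true .two = true := by decide +kernel

def r2z_0_r0_twoE0 : rowsOk stR2Z r2z_0 r2z_0_m0 false .twoE = true := by decide +kernel

def r2z_0_r0_twoE1 : rowsOk stR2Z r2z_0 r2z_0_m0 true .twoE = true := by decide +kernel

def r2z_0_r0_thrR0 : rowsOk stR2Z r2z_0 r2z_0_m0 false .thrR = true := by decide +kernel

def r2z_0_r0_thrR1 : rowsOk stR2Z r2z_0 r2z_0_m0 true .thrR = true := by decide +kernel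

def r2z_0_r0_thrL0 : rowsOk stR2Z r2z_0 r2z_0_m0 false .thrL = true := by decide +kernel

def r2z_0_r0_thrL1 : rowsOk stR2Z r2z_0 r2z_0_m0 true .thrL = true := by decide +kernel

def r2z_0_r0_threeE0 : rowsOk stR2Z r2z_0 r2z_0_m0 false .threeE = true := by decide +kernel

def r2z_0_r0_threeE1 : rowsOk stR2Z r2z_0 r2z_0_m0 true .threeE = true := by decide +kernel

def r2z_0_r0_ring0 : rowsOk stR2Z r2z_0 r2z_0_m0 false .ring = true := by decide +kernel

def r2z_0_r0_ring1 : rowsOk stR2Z r2z_0 r2z_0_m0 true .ring = true := by decide +kernel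

theorem r2z_0_r0 : allRows stR2Z r2z_0 r2z_0_m0 = true := by
  refine allRows_of fun P => ?_
  cases P
  exacts [⟨r2z_0_r0_one0, r2z_0_r0_one1⟩,
    ⟨r2z_0_r0_two0, r2z_0_r0_two1⟩,
    ⟨r2z_0_r0_twoE0, r2z_0_r0_twoE1⟩,
    ⟨r2z_0_r0_thrR0, r2z_0_r0_thrR1⟩,
    ⟨r2z_0_r0_thrL0, r2z_0_r0_thrL1⟩,
    ⟨r2z_0_r0_threeE0, r2z_0_r0_threeE1⟩,
    ⟨r2z_0_r0_ring0, r2z_0_r0_ring1⟩]

theorem r2z_0_ok : r2z_0.ok stR2Z = true := by
  have h : (PC.all.all fun P => PC.all.all fun Q => pairOk stR2Z r2z_0 P Q) = true := by decide +kernel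
  have d0 : mdOk stR2Z r2z_0_m0.md = true := by decide +kernel
  unfold Piece.ok
  rw [h, Bool.true_and]
  show List.all [r2z_0_m0] _ = true
  rw [List.all_eq_true]
  intro m hm
  simp only [List.mem_cons, List.not_mem_nil, or_false] at hm
  rcases hm with rfl
  · rw [r2z_0_r0, d0]; rfl

end OR

end Pool.Agent.Work.MP_b30479_gtS.G2

end

section

set_option deprecated.oldSectionVars true

namespace Pool.Agent.Work.MP_b30479_gtS.G2

namespace OR

/-- windows -/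
def t3n_0_wp : PC → Win
  | .one => ⟨-770, 520, -810, 760, 0, 530⟩
  | .two => ⟨-30, 780, -50, 1100, 0, 620⟩
  | .twoE => ⟨-610, -170, -220, 530, 190, 820⟩
  | .thrR => ⟨310, 930, 280, 1270, 0, 580⟩
  | .thrL => ⟨310, 930, 280, 1270, 0, 580⟩
  | .threeE => ⟨160, 600, 360, 1170, 10, 740⟩
  | .ring => ⟨0, 0, 0, 0, 0, 0⟩

/-- windows -/
def t3n_0_wq : PC → Win
  | .one => ⟨-770, 530, -920, 760, -820, 0⟩
  | .two => ⟨-30, 780, -50, 1100, -290, 0⟩
  | .twoE => ⟨0, 0, 0, 0, 0, 0⟩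
  | .thrR => ⟨310, 930, 280, 1270, -240, 0⟩
  | .thrL => ⟨310, 930, 280, 1270, -240, 0⟩
  | .threeE => ⟨0, 0, 0, 0, 0, 0⟩
  | .ring => ⟨0, 0, 0, 0, 0, 0⟩

/-- mode -/
def t3n_0_m0 : Mode where
  md := .D
  lam := 2500
  ct := 13000
  gp := fun
    | .one => [⟨-1779, [40205270994136569774883]⟩, ⟨-1779, [142706739]⟩, ⟨-1779, [898525085115866774333690572168240415709780155996214652296189149746]⟩]
    | .two => [⟨-162, [2179]⟩, ⟨-162, [2179]⟩, ⟨-162, [2903291128224895740665372321636668703026]⟩]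
    | .twoE => [⟨1638, [8]⟩, ⟨1638, [8]⟩, ⟨1638, [40204717016189961245314]⟩]
    | .thrR => [⟨-462, [157051920016458940722]⟩, ⟨-462, [2179]⟩, ⟨-462, [613484067010674994]⟩]
    | .thrL => [⟨-462, [559154]⟩, ⟨-462, [2179]⟩, ⟨-462, [613484067010674994]⟩]
    | .threeE => [⟨113, [2177]⟩, ⟨113, [8]⟩, ⟨113, [613202587849689106]⟩]
    | .ring => [e00, e00, e00, e00]
  gq := fun
    | .one => [⟨-1942, [10314682751611791619949361]⟩, ⟨-1942, [613483729162634033]⟩, ⟨-1942, [70971361647209597732363633824292232433543506261742887668114940004162693092011465568354619109682]⟩]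
    | .two => [⟨-325, [8]⟩, ⟨-325, [8]⟩, ⟨-325, [40289096493590474033202]⟩]
    | .twoE => [e00, e00, e00]
    | .thrR => [⟨-625, [559154]⟩, ⟨-625, [8]⟩, ⟨-625, [2401554723407922]⟩]
    | .thrL => [⟨-625, [2179]⟩, ⟨-625, [8]⟩, ⟨-625, [2401554723407922]⟩]
    | .threeE => [e00, e00, e00]
    | .ring => [e00, e00, e00, e00]

/-- piece -/
def t3n_0 : Piece := ⟨6000, 6200, 0, 820, t3n_0_wp, t3n_0_wq, [t3n_0_m0]⟩

set_option linter.defProp false

def t3n_0_r0_one0 : rowsOk stT3 t3n_0 t3n_0_m0 false .one = true := by decide +kernel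

def t3n_0_r0_one1 : rowsOk stT3 t3n_0 t3n_0_m0 true .one = true := by decide +kernel

def t3n_0_r0_two0 : rowsOk stT3 t3n_0 t3n_0_m0 false .two = true := by decide +kernel

def t3n_0_r0_two1 : rowsOk stT3 t3n_0 t3n_0_m0 true .two = true := by decide +kernel

def t3n_0_r0_twoE0 : rowsOk stT3 t3n_0 t3n_0_m0 false .twoE = true := by decide +kernel

def t3n_0_r0_twoE1 : rowsOk stT3 t3n_0 t3n_0_m0 true .twoE = true := by decide +kernel

def t3n_0_r0_thrR0 : rowsOk stT3 t3n_0 t3n_0_m0 false .thrR = true := by decide +kernel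

def t3n_0_r0_thrR1 : rowsOk stT3 t3n_0 t3n_0_m0 true .thrR = true := by decide +kernel

def t3n_0_r0_thrL0 : rowsOk stT3 t3n_0 t3n_0_m0 false .thrL = true := by decide +kernel

def t3n_0_r0_thrL1 : rowsOk stT3 t3n_0 t3n_0_m0 true .thrL = true := by decide +kernel

def t3n_0_r0_threeE0 : rowsOk stT3 t3n_0 t3n_0_m0 false .threeE = true := by decide +kernel

def t3n_0_r0_threeE1 : rowsOk stT3 t3n_0 t3n_0_m0 true .threeE = true := by decide +kernel

def t3n_0_r0_ring0 : rowsOk stT3 t3n_0 t3n_0_m0 false .ring = true := by decide +kernel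

def t3n_0_r0_ring1 : rowsOk stT3 t3n_0 t3n_0_m0 true .ring = true := by decide +kernel

theorem t3n_0_r0 : allRows stT3 t3n_0 t3n_0_m0 = true := by
  refine allRows_of fun P => ?_
  cases P
  exacts [⟨t3n_0_r0_one0, t3n_0_r0_one1⟩,
    ⟨t3n_0_r0_two0, t3n_0_r0_two1⟩,
    ⟨t3n_0_r0_twoE0, t3n_0_r0_twoE1⟩,
    ⟨t3n_0_r0_thrR0, t3n_0_r0_thrR1⟩,
    ⟨t3n_0_r0_thrL0, t3n_0_r0_thrL1⟩,
    ⟨t3n_0_r0_threeE0, t3n_0_r0_threeE1⟩,
    ⟨t3n_0_r0_ring0, t3n_0_r0_ring1⟩]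

theorem t3n_0_ok : t3n_0.ok stT3 = true := by
  have h : (PC.all.all fun P => PC.all.all fun Q => pairOk stT3 t3n_0 P Q) = true := by decide +kernel
  have d0 : mdOk stT3 t3n_0_m0.md = true := by decide +kernel
  unfold Piece.ok
  rw [h, Bool.true_and]
  show List.all [t3n_0_m0] _ = true
  rw [List.all_eq_true]
  intro m hm
  simp only [List.mem_cons, List.not_mem_nil, or_false] at hm
  rcases hm with rfl
  · rw [t3n_0_r0, d0]; rfl

end OR

end Pool.Agent.Work.MP_b30479_gtS.G2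

end
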