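import Pool.Agent.Work.MP_b30479_gt.TBS.G2.OTab

section

set_option deprecated.oldSectionVars true

namespace Pool.Agent.Work.MP_b30479_gtS.G2

namespace OR

/-- windows -/
def a2e_6_wp : PC → Win
  | .one => ⟨0, 0, 0, 0, 0, 0⟩
  | .two => ⟨0, 0, 0, 0, 0, 0⟩
  | .twoE => ⟨-790, -360, -310, 250, 230, 820⟩
  | .thrR => ⟨0, 0, 0, 0, 0, 0⟩
  | .thrL => ⟨0, 0, 0, 0, 0, 0⟩
  | .threeE => ⟨0, 0, 0, 0, 0, 0⟩
  | .ring => ⟨0, 0, 0, 0, 0, 0⟩

/-- windows -/
def a2e_6_wq : PC → Win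
  | .one => ⟨0, 0, 0, 0, 0, 0⟩
  | .two => ⟨0, 0, 0, 0, 0, 0⟩
  | .twoE => ⟨0, 0, 0, 0, 0, 0⟩
  | .thrR => ⟨0, 0, 0, 0, 0, 0⟩
  | .thrL => ⟨0, 0, 0, 0, 0, 0⟩
  | .threeE => ⟨0, 0, 0, 0, 0, 0⟩
  | .ring => ⟨600, 1300, 110, 690, -820, -230⟩

/-- mode -/
def a2e_6_m0 : Mode where
  md := .V 150 1000
  lam := 0
  ct := 2000
  gp := fun
    | .one => [e00, e00, e00, e00, e00, e00, e00, e00]
    | .two => [e00, e00, e00, e00, e00, e00]
    | .twoE => [⟨1015, [557954]⟩, ⟨741, [8, 8, 8, 8, 13, 2178]⟩, ⟨-2654, [0, 0, 0, 0, 8, 36645143314]⟩, ⟨-2654, [0, 0, 0, 0, 8, 8]⟩, ⟨-2654, [0, 0, 0, 0, 8, 8]⟩, ⟨-2654, [0, 0, 0, 0, 8, 8]⟩]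
    | .thrR => [e00, e00, e00, e00, e00, e00]
    | .thrL => [e00, e00, e00, e00, e00, e00]
    | .threeE => [e00, e00, e00, e00, e00, e00]
    | .ring => [e00, e00, e00, e00, e00, e00]
  gq := fun
    | .one => [e00, e00, e00, e00, e00, e00, e00, e00]
    | .two => [e00, e00, e00, e00, e00, e00]
    | .twoE => [e00, e00, e00, e00, e00, e00]
    | .thrR => [e00, e00, e00, e00, e00, e00]
    | .thrL => [e00, e00, e00, e00, e00, e00]
    | .threeE => [e00, e00, e00, e00, e00, e00]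
    | .ring => [⟨2650, [2677867037295234, 687225008250126723, 49844118220179224796482330220921731, 8, 54806178560310615260357651911453781133523780483, 8]⟩, ⟨2650, [0, 3961407179647755546924683395, 2700641906688897, 8, 753136009790563661719265286194, 13]⟩, ⟨2650, [0, 0, 0, 0, 9449334014339, 8]⟩, ⟨2650, [0, 0, 0, 0, 559154, 8]⟩, ⟨2650, [0, 0, 0, 0, 2178, 8]⟩, ⟨-1019, [0, 0, 0, 0, 8, 8]⟩]

/-- mode -/
def a2e_6_m1 : Mode where
  md := .V 450 1000
  lam := 500
  ct := 2500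
  gp := fun
    | .one => [e00, e00, e00, e00, e00, e00, e00, e00]
    | .two => [e00, e00, e00, e00, e00, e00]
    | .twoE => [⟨-434, [142837794]⟩, ⟨-1171, [8, 8, 8, 8, 13, 2178]⟩, e00, e00, e00, e00]
    | .thrR => [e00, e00, e00, e00, e00, e00]
    | .thrL => [e00, e00, e00, e00, e00, e00]
    | .threeE => [e00, e00, e00, e00, e00, e00]
    | .ring => [e00, e00, e00, e00, e00, e00]
  gq := fun
    | .one => [e00, e00, e00, e00, e00, e00, e00, e00]
    | .two => [e00, e00, e00, e00, e00, e00]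
    | .twoE => [e00, e00, e00, e00, e00, e00]
    | .thrR => [e00, e00, e00, e00, e00, e00]
    | .thrL => [e00, e00, e00, e00, e00, e00]
    | .threeE => [e00, e00, e00, e00, e00, e00]
    | .ring => [⟨832, [557698, 8, 8, 8, 8, 8]⟩, ⟨832, [0, 8, 8, 8, 2178, 13]⟩, ⟨95, [0, 0, 0, 0, 2401438640124547, 8]⟩, ⟨95, [0, 0, 0, 0, 36566476850, 8]⟩, ⟨95, [0, 0, 0, 0, 741650113680284765394235886175855088599842, 3458]⟩, e00]

/-- mode -/
def a2e_6_m2 : Mode where
  md := .V 550 1000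
  lam := 250
  ct := 2500
  gp := fun
    | .one => [e00, e00, e00, e00, e00, e00, e00, e00]
    | .two => [e00, e00, e00, e00, e00, e00]
    | .twoE => [⟨-525, [2395322614027042]⟩, e00, e00, e00, e00, e00]
    | .thrR => [e00, e00, e00, e00, e00, e00]
    | .thrL => [e00, e00, e00, e00, e00, e00]
    | .threeE => [e00, e00, e00, e00, e00, e00]
    | .ring => [e00, e00, e00, e00, e00, e00]
  gq := fun
    | .one => [e00, e00, e00, e00, e00, e00, e00, e00]
    | .two => [e00, e00, e00, e00, e00, e00]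
    | .twoE => [e00, e00, e00, e00, e00, e00]
    | .thrR => [e00, e00, e00, e00, e00, e00]
    | .thrL => [e00, e00, e00, e00, e00, e00]
    | .threeE => [e00, e00, e00, e00, e00, e00]
    | .ring => [⟨354, [142836354, 557443, 675983831004946674078290481283, 8, 2903706578646138419247992464577552155523, 8]⟩, ⟨354, [0, 210243715, 36566472753, 8, 40168039700512465164338, 13]⟩, e00, e00, e00, e00]

/-- piece -/
def a2e_6 : Piece := ⟨8400, 8500, 0, 820, a2e_6_wp, a2e_6_wq, [a2e_6_m0, a2e_6_m1, a2e_6_m2]⟩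

set_option linter.defProp false

def a2e_6_r0_one0 : rowsOk stA2E a2e_6 a2e_6_m0 false .one = true := by decide +kernel

def a2e_6_r0_one1 : rowsOk stA2E a2e_6 a2e_6_m0 true .one = true := by decide +kernel

def a2e_6_r0_two0 : rowsOk stA2E a2e_6 a2e_6_m0 false .two = true := by decide +kernel

def a2e_6_r0_two1 : rowsOk stA2E a2e_6 a2e_6_m0 true .two = true := by decide +kernel

def a2e_6_r0_twoE0 : rowsOk stA2E a2e_6 a2e_6_m0 false .twoE = true := by decide +kernel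

def a2e_6_r0_twoE1 : rowsOk stA2E a2e_6 a2e_6_m0 true .twoE = true := by decide +kernel

def a2e_6_r0_thrR0 : rowsOk stA2E a2e_6 a2e_6_m0 false .thrR = true := by decide +kernel

def a2e_6_r0_thrR1 : rowsOk stA2E a2e_6 a2e_6_m0 true .thrR = true := by decide +kernel

def a2e_6_r0_thrL0 : rowsOk stA2E a2e_6 a2e_6_m0 false .thrL = true := by decide +kernel

def a2e_6_r0_thrL1 : rowsOk stA2E a2e_6 a2e_6_m0 true .thrL = true := by decide +kernel

def a2e_6_r0_threeE0 : rowsOk stA2E a2e_6 a2e_6_m0 false .threeE = true := by decide +kernel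

def a2e_6_r0_threeE1 : rowsOk stA2E a2e_6 a2e_6_m0 true .threeE = true := by decide +kernel

def a2e_6_r0_ring0 : rowsOk stA2E a2e_6 a2e_6_m0 false .ring = true := by decide +kernel

def a2e_6_r0_ring1 : rowsOk stA2E a2e_6 a2e_6_m0 true .ring = true := by decide +kernel

def a2e_6_r1_one0 : rowsOk stA2E a2e_6 a2e_6_m1 false .one = true := by decide +kernel

def a2e_6_r1_one1 : rowsOk stA2E a2e_6 a2e_6_m1 true .one = true := by decide +kernel

def a2e_6_r1_two0 : rowsOk stA2E a2e_6 a2e_6_m1 false .two = true := by decide +kernel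

def a2e_6_r1_two1 : rowsOk stA2E a2e_6 a2e_6_m1 true .two = true := by decide +kernel

def a2e_6_r1_twoE0 : rowsOk stA2E a2e_6 a2e_6_m1 false .twoE = true := by decide +kernel

def a2e_6_r1_twoE1 : rowsOk stA2E a2e_6 a2e_6_m1 true .twoE = true := by decide +kernel

def a2e_6_r1_thrR0 : rowsOk stA2E a2e_6 a2e_6_m1 false .thrR = true := by decide +kernel

def a2e_6_r1_thrR1 : rowsOk stA2E a2e_6 a2e_6_m1 true .thrR = true := by decide +kernel

def a2e_6_r1_thrL0 : rowsOk stA2E a2e_6 a2e_6_m1 false .thrL = true := by decide +kernel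

def a2e_6_r1_thrL1 : rowsOk stA2E a2e_6 a2e_6_m1 true .thrL = true := by decide +kernel

def a2e_6_r1_threeE0 : rowsOk stA2E a2e_6 a2e_6_m1 false .threeE = true := by decide +kernel

def a2e_6_r1_threeE1 : rowsOk stA2E a2e_6 a2e_6_m1 true .threeE = true := by decide +kernel

def a2e_6_r1_ring0 : rowsOk stA2E a2e_6 a2e_6_m1 false .ring = true := by decide +kernel

def a2e_6_r1_ring1 : rowsOk stA2E a2e_6 a2e_6_m1 true .ring = true := by decide +kernel

def a2e_6_r2_one0 : rowsOk stA2E a2e_6 a2e_6_m2 false .one = true := by decide +kernel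

def a2e_6_r2_one1 : rowsOk stA2E a2e_6 a2e_6_m2 true .one = true := by decide +kernel

def a2e_6_r2_two0 : rowsOk stA2E a2e_6 a2e_6_m2 false .two = true := by decide +kernel

def a2e_6_r2_two1 : rowsOk stA2E a2e_6 a2e_6_m2 true .two = true := by decide +kernel

def a2e_6_r2_twoE0 : rowsOk stA2E a2e_6 a2e_6_m2 false .twoE = true := by decide +kernel

def a2e_6_r2_twoE1 : rowsOk stA2E a2e_6 a2e_6_m2 true .twoE = true := by decide +kernel

def a2e_6_r2_thrR0 : rowsOk stA2E a2e_6 a2e_6_m2 false .thrR = true := by decide +kernel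

def a2e_6_r2_thrR1 : rowsOk stA2E a2e_6 a2e_6_m2 true .thrR = true := by decide +kernel

def a2e_6_r2_thrL0 : rowsOk stA2E a2e_6 a2e_6_m2 false .thrL = true := by decide +kernel

def a2e_6_r2_thrL1 : rowsOk stA2E a2e_6 a2e_6_m2 true .thrL = true := by decide +kernel

def a2e_6_r2_threeE0 : rowsOk stA2E a2e_6 a2e_6_m2 false .threeE = true := by decide +kernel

def a2e_6_r2_threeE1 : rowsOk stA2E a2e_6 a2e_6_m2 true .threeE = true := by decide +kernel

def a2e_6_r2_ring0 : rowsOk stA2E a2e_6 a2e_6_m2 false .ring = true := by decide +kernel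

def a2e_6_r2_ring1 : rowsOk stA2E a2e_6 a2e_6_m2 true .ring = true := by decide +kernel

theorem a2e_6_r0 : allRows stA2E a2e_6 a2e_6_m0 = true := by
  refine allRows_of fun P => ?_
  cases P
  exacts [⟨a2e_6_r0_one0, a2e_6_r0_one1⟩,
    ⟨a2e_6_r0_two0, a2e_6_r0_two1⟩,
    ⟨a2e_6_r0_twoE0, a2e_6_r0_twoE1⟩,
    ⟨a2e_6_r0_thrR0, a2e_6_r0_thrR1⟩,
    ⟨a2e_6_r0_thrL0, a2e_6_r0_thrL1⟩,
    ⟨a2e_6_r0_threeE0, a2e_6_r0_threeE1⟩,
    ⟨a2e_6_r0_ring0, a2e_6_r0_ring1⟩]

theorem a2e_6_r1 : allRows stA2E a2e_6 a2e_6_m1 = true := by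
  refine allRows_of fun P => ?_
  cases P
  exacts [⟨a2e_6_r1_one0, a2e_6_r1_one1⟩,
    ⟨a2e_6_r1_two0, a2e_6_r1_two1⟩,
    ⟨a2e_6_r1_twoE0, a2e_6_r1_twoE1⟩,
    ⟨a2e_6_r1_thrR0, a2e_6_r1_thrR1⟩,
    ⟨a2e_6_r1_thrL0, a2e_6_r1_thrL1⟩,
    ⟨a2e_6_r1_threeE0, a2e_6_r1_threeE1⟩,
    ⟨a2e_6_r1_ring0, a2e_6_r1_ring1⟩]

theorem a2e_6_r2 : allRows stA2E a2e_6 a2e_6_m2 = true := by
  refine allRows_of fun P => ?_
  cases P
  exacts [⟨a2e_6_r2_one0, a2e_6_r2_one1⟩,
    ⟨a2e_6_r2_two0, a2e_6_r2_two1⟩,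
    ⟨a2e_6_r2_twoE0, a2e_6_r2_twoE1⟩,
    ⟨a2e_6_r2_thrR0, a2e_6_r2_thrR1⟩,
    ⟨a2e_6_r2_thrL0, a2e_6_r2_thrL1⟩,
    ⟨a2e_6_r2_threeE0, a2e_6_r2_threeE1⟩,
    ⟨a2e_6_r2_ring0, a2e_6_r2_ring1⟩]

theorem a2e_6_ok : a2e_6.ok stA2E = true := by
  have h : (PC.all.all fun P => PC.all.all fun Q => pairOk stA2E a2e_6 P Q) = true := by decide +kernel
  have d0 : mdOk stA2E a2e_6_m0.md = true := by decide +kernel
  have d1 : mdOk stA2E a2e_6_m1.md = true := by decide +kernel
  have d2 : mdOk stA2E a2e_6_m2.md = true := by decide +kernel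
  unfold Piece.ok
  rw [h, Bool.true_and]
  show List.all [a2e_6_m0, a2e_6_m1, a2e_6_m2] _ = true
  rw [List.all_eq_true]
  intro m hm
  simp only [List.mem_cons, List.not_mem_nil, or_false] at hm
  rcases hm with rfl | rfl | rfl
  · rw [a2e_6_r0, d0]; rfl
  · rw [a2e_6_r1, d1]; rfl
  · rw [a2e_6_r2, d2]; rfl

end OR

end Pool.Agent.Work.MP_b30479_gtS.G2

end

section

set_option deprecated.oldSectionVars true

namespace Pool.Agent.Work.MP_b30479_gtS.G2

namespace OR

/-- windows -/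
def s2f_0_wp : PC → Win
  | .one => ⟨0, 0, 0, 0, 0, 0⟩
  | .two => ⟨-230, 780, -360, 760, -660, 530⟩
  | .twoE => ⟨-790, -140, -520, 270, -160, 820⟩
  | .thrR => ⟨100, 920, -70, 910, -630, 480⟩
  | .thrL => ⟨100, 920, -70, 910, -630, 480⟩
  | .threeE => ⟨-20, 610, 0, 860, -380, 650⟩
  | .ring => ⟨270, 1300, 110, 1120, -820, 440⟩

/-- windows -/
def s2f_0_wq : PC → Win
  | .one => ⟨0, 0, 0, 0, 0, 0⟩
  | .two => ⟨-230, 780, -360, 760, -660, 530⟩
  | .twoE => ⟨-790, -140, -520, 270, -160, 820⟩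
  | .thrR => ⟨100, 920, -70, 910, -630, 480⟩
  | .thrL => ⟨100, 920, -70, 910, -630, 480⟩
  | .threeE => ⟨-20, 610, 0, 860, -380, 650⟩
  | .ring => ⟨270, 1300, 110, 1120, -820, 440⟩

/-- mode -/
def s2f_0_m0 : Mode where
  md := .D
  lam := 1000
  ct := -2000
  gp := fun
    | .one => [e00, e00, e00, e00, e00, e00, e00, e00]
    | .two => [e00, e00, e00, e00, e00, e00]
    | .twoE => [e00, e00, e00, e00, e00]
    | .thrR => [e00, e00, e00, e00, e00, ⟨-9307, [673915710100081401346457248418]⟩]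
    | .thrL => [e00, e00, e00, e00, e00]
    | .threeE => [e00, e00, e00, e00, e00, e00]
    | .ring => [e00, e00, e00, e00, e00, ⟨-9697, [189861739657792835024210802310183660102460066]⟩]
  gq := fun
    | .one => [e00, e00, e00, e00, e00, e00, e00, e00]
    | .two => [⟨8153, [8]⟩, ⟨8153, [8]⟩, ⟨8153, [8]⟩, ⟨8153, [2178]⟩, ⟨8153, [2177]⟩, ⟨8153, [8]⟩]
    | .twoE => [⟨8863, [8]⟩, ⟨8863, [8]⟩, ⟨8863, [8]⟩, ⟨8863, [8]⟩, ⟨8863, [8]⟩]
    | .thrR => [⟨8183, [8]⟩, ⟨8183, [8]⟩, ⟨8183, [8]⟩, ⟨8183, [2178]⟩, ⟨8183, [8]⟩, ⟨8183, [2394221759858706]⟩]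
    | .thrL => [⟨8053, [8]⟩, ⟨8053, [8]⟩, ⟨8053, [8]⟩, ⟨8053, [8]⟩, ⟨8053, [8]⟩]
    | .threeE => [⟨8263, [8]⟩, ⟨8263, [8]⟩, ⟨8263, [8]⟩, ⟨8263, [8]⟩, ⟨8263, [2178]⟩, ⟨8263, [8]⟩]
    | .ring => [⟨7793, [557697]⟩, ⟨7793, [2177]⟩, ⟨7793, [2177]⟩, ⟨7793, [557697]⟩, ⟨7793, [559138]⟩, ⟨7793, [142705282]⟩]

/-- piece -/
def s2f_0 : Piece := ⟨3000, 3150, -820, 820, s2f_0_wp, s2f_0_wq, [s2f_0_m0]⟩

set_option linter.defProp false

def s2f_0_r0_one0 : rowsOk stS2F s2f_0 s2f_0_m0 false .one = true := by decide +kernel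

def s2f_0_r0_one1 : rowsOk stS2F s2f_0 s2f_0_m0 true .one = true := by decide +kernel

def s2f_0_r0_two0 : rowsOk stS2F s2f_0 s2f_0_m0 false .two = true := by decide +kernel

def s2f_0_r0_two1 : rowsOk stS2F s2f_0 s2f_0_m0 true .two = true := by decide +kernel

def s2f_0_r0_twoE0 : rowsOk stS2F s2f_0 s2f_0_m0 false .twoE = true := by decide +kernel

def s2f_0_r0_twoE1 : rowsOk stS2F s2f_0 s2f_0_m0 true .twoE = true := by decide +kernel

def s2f_0_r0_thrR0 : rowsOk stS2F s2f_0 s2f_0_m0 false .thrR = true := by decide +kernel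

def s2f_0_r0_thrR1 : rowsOk stS2F s2f_0 s2f_0_m0 true .thrR = true := by decide +kernel

def s2f_0_r0_thrL0 : rowsOk stS2F s2f_0 s2f_0_m0 false .thrL = true := by decide +kernel

def s2f_0_r0_thrL1 : rowsOk stS2F s2f_0 s2f_0_m0 true .thrL = true := by decide +kernel

def s2f_0_r0_threeE0 : rowsOk stS2F s2f_0 s2f_0_m0 false .threeE = true := by decide +kernel

def s2f_0_r0_threeE1 : rowsOk stS2F s2f_0 s2f_0_m0 true .threeE = true := by decide +kernel

def s2f_0_r0_ring0 : rowsOk stS2F s2f_0 s2f_0_m0 false .ring = true := by decide +kernel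

def s2f_0_r0_ring1 : rowsOk stS2F s2f_0 s2f_0_m0 true .ring = true := by decide +kernel

theorem s2f_0_r0 : allRows stS2F s2f_0 s2f_0_m0 = true := by
  refine allRows_of fun P => ?_
  cases P
  exacts [⟨s2f_0_r0_one0, s2f_0_r0_one1⟩,
    ⟨s2f_0_r0_two0, s2f_0_r0_two1⟩,
    ⟨s2f_0_r0_twoE0, s2f_0_r0_twoE1⟩,
    ⟨s2f_0_r0_thrR0, s2f_0_r0_thrR1⟩,
    ⟨s2f_0_r0_thrL0, s2f_0_r0_thrL1⟩,
    ⟨s2f_0_r0_threeE0, s2f_0_r0_threeE1⟩,
    ⟨s2f_0_r0_ring0, s2f_0_r0_ring1⟩]

theorem s2f_0_ok : s2f_0.ok stS2F = true := by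
  have h : (PC.all.all fun P => PC.all.all fun Q => pairOk stS2F s2f_0 P Q) = true := by decide +kernel
  have d0 : mdOk stS2F s2f_0_m0.md = true := by decide +kernel
  unfold Piece.ok
  rw [h, Bool.true_and]
  show List.all [s2f_0_m0] _ = true
  rw [List.all_eq_true]
  intro m hm
  simp only [List.mem_cons, List.not_mem_nil, or_false] at hm
  rcases hm with rfl
  · rw [s2f_0_r0, d0]; rfl

end OR

end Pool.Agent.Work.MP_b30479_gtS.G2

end

section

set_option deprecated.oldSectionVars true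

namespace Pool.Agent.Work.MP_b30479_gtS.G2

namespace OR

/-- windows -/
def s2f_6_wp : PC → Win
  | .one => ⟨0, 0, 0, 0, 0, 0⟩
  | .two => ⟨-230, 780, -360, 760, -660, 530⟩
  | .twoE => ⟨-790, -140, -520, 270, -160, 820⟩
  | .thrR => ⟨100, 920, -70, 910, -630, 480⟩
  | .thrL => ⟨100, 920, -70, 910, -630, 480⟩
  | .threeE => ⟨-20, 610, 0, 860, -380, 650⟩
  | .ring => ⟨270, 1300, 110, 1120, -820, 440⟩

/-- windows -/
def s2f_6_wq : PC → Win
  | .one => ⟨0, 0, 0, 0, 0, 0⟩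
  | .two => ⟨-230, 780, -360, 760, -660, 530⟩
  | .twoE => ⟨-790, -140, -520, 270, -160, 820⟩
  | .thrR => ⟨100, 920, -70, 910, -630, 480⟩
  | .thrL => ⟨100, 920, -70, 910, -630, 480⟩
  | .threeE => ⟨-20, 610, 0, 860, -380, 650⟩
  | .ring => ⟨270, 1300, 110, 1120, -820, 440⟩

/-- mode -/
def s2f_6_m0 : Mode where
  md := .D
  lam := 2000
  ct := 0
  gp := fun
    | .one => [e00, e00, e00, e00, e00, e00, e00, e00]
    | .two => [e00, e00, e00, e00, e00, ⟨-5586, [56770110656020821437672166400166719065747023762904273905398291374605574569171503593665431275439558281772469524954132053990058671741040776412320789769417204169105331197198703231587183629538118009945015273681587036595129480536413844833078741538]⟩]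
    | .twoE => [e00, e00, e00, e00, e00]
    | .thrR => [e00, e00, e00, e00, e00, ⟨-5806, [13930016249546719440189168100506147335522180366881, 2179, 157387727427204550930]⟩]
    | .thrL => [e00, e00, e00, e00, e00]
    | .threeE => [e00, e00, e00, e00, ⟨-5306, [2394221225091746]⟩, ⟨-5306, [557441, 8, 0]⟩]
    | .ring => [e00, e00, e00, e00, ⟨-6306, [674532493665195561511920247458]⟩, ⟨-6306, [674532493665670978412124582673, 142837809, 2401412988830225]⟩]
  gq := fun
    | .one => [e00, e00, e00, e00, e00, e00, e00, e00]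
    | .two => [⟨3442, [8]⟩, ⟨3442, [8]⟩, ⟨3442, [8]⟩, ⟨3442, [557442]⟩, ⟨3442, [2396392170620946]⟩, ⟨3442, [305752242701064841380836936030363578067636991766648815393602713900396154923467940689793627543150589907730]⟩]
    | .twoE => [⟨4902, [8]⟩, ⟨4902, [8]⟩, ⟨4902, [8]⟩, ⟨4902, [8]⟩, ⟨4902, [8]⟩]
    | .thrR => [⟨3222, [2177]⟩, ⟨3222, [2177]⟩, ⟨3222, [8]⟩, ⟨3222, [142706706]⟩, ⟨3222, [36566042642]⟩, ⟨3222, [11340980958185638581665646890506027794, 8, 143164178]⟩]
    | .thrL => [⟨3222, [2177]⟩, ⟨3222, [2177]⟩, ⟨3222, [8]⟩, ⟨3222, [2178]⟩, ⟨3222, [8]⟩]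
    | .threeE => [⟨3682, [8]⟩, ⟨3682, [8]⟩, ⟨3682, [8]⟩, ⟨3682, [8]⟩, ⟨3682, [9360906553362]⟩, ⟨3682, [557442, 8, 0]⟩]
    | .ring => [⟨2782, [15328218372493211759910584112771502466]⟩, ⟨2782, [3924551732812577588793080801708934201633]⟩, ⟨2782, [54464592878847708596273]⟩, ⟨2782, [10314580083074148635018002]⟩, ⟨2782, [2634861056309098845667819810]⟩, ⟨2782, [157051832467861899282, 8, 142706705]⟩]

/-- piece -/
def s2f_6 : Piece := ⟨3900, 4200, -820, 820, s2f_6_wp, s2f_6_wq, [s2f_6_m0]⟩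

set_option linter.defProp false

def s2f_6_r0_one0 : rowsOk stS2F s2f_6 s2f_6_m0 false .one = true := by decide +kernel

def s2f_6_r0_one1 : rowsOk stS2F s2f_6 s2f_6_m0 true .one = true := by decide +kernel

def s2f_6_r0_two0 : rowsOk stS2F s2f_6 s2f_6_m0 false .two = true := by decide +kernel

def s2f_6_r0_two1 : rowsOk stS2F s2f_6 s2f_6_m0 true .two = true := by decide +kernel

def s2f_6_r0_twoE0 : rowsOk stS2F s2f_6 s2f_6_m0 false .twoE = true := by decide +kernel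

def s2f_6_r0_twoE1 : rowsOk stS2F s2f_6 s2f_6_m0 true .twoE = true := by decide +kernel

def s2f_6_r0_thrR0 : rowsOk stS2F s2f_6 s2f_6_m0 false .thrR = true := by decide +kernel

def s2f_6_r0_thrR1 : rowsOk stS2F s2f_6 s2f_6_m0 true .thrR = true := by decide +kernel

def s2f_6_r0_thrL0 : rowsOk stS2F s2f_6 s2f_6_m0 false .thrL = true := by decide +kernel

def s2f_6_r0_thrL1 : rowsOk stS2F s2f_6 s2f_6_m0 true .thrL = true := by decide +kernel

def s2f_6_r0_threeE0 : rowsOk stS2F s2f_6 s2f_6_m0 false .threeE = true := by decide +kernel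

def s2f_6_r0_threeE1 : rowsOk stS2F s2f_6 s2f_6_m0 true .threeE = true := by decide +kernel

def s2f_6_r0_ring0 : rowsOk stS2F s2f_6 s2f_6_m0 false .ring = true := by decide +kernel

def s2f_6_r0_ring1 : rowsOk stS2F s2f_6 s2f_6_m0 true .ring = true := by decide +kernel

theorem s2f_6_r0 : allRows stS2F s2f_6 s2f_6_m0 = true := by
  refine allRows_of fun P => ?_
  cases P
  exacts [⟨s2f_6_r0_one0, s2f_6_r0_one1⟩,
    ⟨s2f_6_r0_two0, s2f_6_r0_two1⟩,
    ⟨s2f_6_r0_twoE0, s2f_6_r0_twoE1⟩,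
    ⟨s2f_6_r0_thrR0, s2f_6_r0_thrR1⟩,
    ⟨s2f_6_r0_thrL0, s2f_6_r0_thrL1⟩,
    ⟨s2f_6_r0_threeE0, s2f_6_r0_threeE1⟩,
    ⟨s2f_6_r0_ring0, s2f_6_r0_ring1⟩]

theorem s2f_6_ok : s2f_6.ok stS2F = true := by
  have h : (PC.all.all fun P => PC.all.all fun Q => pairOk stS2F s2f_6 P Q) = true := by decide +kernel
  have d0 : mdOk stS2F s2f_6_m0.md = true := by decide +kernel
  unfold Piece.ok
  rw [h, Bool.true_and]
  show List.all [s2f_6_m0] _ = true
  rw [List.all_eq_true]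
  intro m hm
  simp only [List.mem_cons, List.not_mem_nil, or_false] at hm
  rcases hm with rfl
  · rw [s2f_6_r0, d0]; rfl

end OR

end Pool.Agent.Work.MP_b30479_gtS.G2

end

section

set_option deprecated.oldSectionVars true

namespace Pool.Agent.Work.MP_b30479_gtS.G2

namespace OR

/-- windows -/
def s2f_7_wp : PC → Win
  | .one => ⟨0, 0, 0, 0, 0, 0⟩
  | .two => ⟨-230, 780, -360, 760, -660, 530⟩
  | .twoE => ⟨-790, -140, -520, 270, -160, 820⟩
  | .thrR => ⟨100, 920, -70, 910, -630, 480⟩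
  | .thrL => ⟨100, 920, -70, 910, -630, 480⟩
  | .threeE => ⟨-20, 610, 0, 860, -380, 650⟩
  | .ring => ⟨270, 1300, 110, 1120, -820, 440⟩

/-- windows -/
def s2f_7_wq : PC → Win
  | .one => ⟨0, 0, 0, 0, 0, 0⟩
  | .two => ⟨-230, 780, -360, 760, -660, 530⟩
  | .twoE => ⟨-790, -140, -520, 270, -160, 820⟩
  | .thrR => ⟨100, 920, -70, 910, -630, 480⟩
  | .thrL => ⟨100, 920, -70, 910, -630, 480⟩
  | .threeE => ⟨-20, 610, 0, 860, -380, 650⟩
  | .ring => ⟨270, 1300, 110, 1120, -820, 440⟩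

/-- mode -/
def s2f_7_m0 : Mode where
  md := .D
  lam := 1500
  ct := 0
  gp := fun
    | .one => [e00, e00, e00, e00, e00, e00, e00, e00]
    | .two => [e00, e00, e00, e00, ⟨-5131, [740969548811334075129963394994639571296930]⟩, ⟨-5131, [48560180317632411243244274082739912923371024689, 8, 0]⟩]
    | .twoE => [e00, e00, e00, e00, e00]
    | .thrR => [e00, e00, e00, e00, ⟨-5296, [59783051461507618229583296719790754]⟩, ⟨-5296, [15316214823521927446201354093634026613372968706692035472011569, 8, 44185903719026840746729357214683426]⟩]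
    | .thrL => [e00, e00, e00, e00, e00]
    | .threeE => [e00, e00, e00, e00, ⟨-4941, [12469687606269338333243785395344798600776889049762]⟩, ⟨-4941, [142706737, 8, 557953]⟩]
    | .ring => [e00, e00, e00, e00, ⟨-5671, [406415894470523282984481037031696691814368995885092134234014902768342943629282375563324538042409959034078899772510068426846655975013067432610]⟩, ⟨-5671, [11316777345248054521012774671607149329, 8, 2640527904229104391033131538]⟩]
  gq := fun
    | .one => [e00, e00, e00, e00, e00, e00, e00, e00]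
    | .two => [⟨3542, [8]⟩, ⟨3542, [8]⟩, ⟨3542, [8]⟩, ⟨3542, [557442]⟩, ⟨3542, [743242528816858218296387583094586778073106]⟩, ⟨3542, [44300706867912650059135570333434642, 8, 0]⟩]
    | .twoE => [⟨4632, [8]⟩, ⟨4632, [8]⟩, ⟨4632, [8]⟩, ⟨4632, [8]⟩, ⟨4632, [8]⟩]
    | .thrR => [⟨3377, [8]⟩, ⟨3377, [2177]⟩, ⟨3377, [8]⟩, ⟨3377, [142706706]⟩, ⟨3377, [157051832466603673618]⟩, ⟨3377, [11340980969495517241714955320471094034, 8, 9382381760802]⟩]
    | .thrL => [⟨3377, [2177]⟩, ⟨3377, [8]⟩, ⟨3377, [8]⟩, ⟨3377, [2178]⟩, ⟨3377, [8]⟩]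
    | .threeE => [⟨3722, [8]⟩, ⟨3722, [8]⟩, ⟨3722, [8]⟩, ⟨3722, [8]⟩, ⟨3722, [173049636224501369431541121452066]⟩, ⟨3722, [2177, 8, 2177]⟩]
    | .ring => [⟨3027, [3572996806709551072396448130]⟩, ⟨3027, [3627419739322370091448304417]⟩, ⟨3027, [12679305724801]⟩, ⟨3027, [40291328400352476674066]⟩, ⟨3027, [71036565189691106750789616402969863711573256156998981049496281690545745094732479789283848454434]⟩, ⟨3027, [2396420783506193, 8, 36643045650]⟩]

/-- piece -/
def s2f_7 : Piece := ⟨4200, 4500, -820, 820, s2f_7_wp, s2f_7_wq, [s2f_7_m0]⟩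

set_option linter.defProp false

def s2f_7_r0_one0 : rowsOk stS2F s2f_7 s2f_7_m0 false .one = true := by decide +kernel

def s2f_7_r0_one1 : rowsOk stS2F s2f_7 s2f_7_m0 true .one = true := by decide +kernel

def s2f_7_r0_two0 : rowsOk stS2F s2f_7 s2f_7_m0 false .two = true := by decide +kernel

def s2f_7_r0_two1 : rowsOk stS2F s2f_7 s2f_7_m0 true .two = true := by decide +kernel

def s2f_7_r0_twoE0 : rowsOk stS2F s2f_7 s2f_7_m0 false .twoE = true := by decide +kernel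

def s2f_7_r0_twoE1 : rowsOk stS2F s2f_7 s2f_7_m0 true .twoE = true := by decide +kernel

def s2f_7_r0_thrR0 : rowsOk stS2F s2f_7 s2f_7_m0 false .thrR = true := by decide +kernel

def s2f_7_r0_thrR1 : rowsOk stS2F s2f_7 s2f_7_m0 true .thrR = true := by decide +kernel

def s2f_7_r0_thrL0 : rowsOk stS2F s2f_7 s2f_7_m0 false .thrL = true := by decide +kernel

def s2f_7_r0_thrL1 : rowsOk stS2F s2f_7 s2f_7_m0 true .thrL = true := by decide +kernel

def s2f_7_r0_threeE0 : rowsOk stS2F s2f_7 s2f_7_m0 false .threeE = true := by decide +kernel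

def s2f_7_r0_threeE1 : rowsOk stS2F s2f_7 s2f_7_m0 true .threeE = true := by decide +kernel

def s2f_7_r0_ring0 : rowsOk stS2F s2f_7 s2f_7_m0 false .ring = true := by decide +kernel

def s2f_7_r0_ring1 : rowsOk stS2F s2f_7 s2f_7_m0 true .ring = true := by decide +kernel

theorem s2f_7_r0 : allRows stS2F s2f_7 s2f_7_m0 = true := by
  refine allRows_of fun P => ?_
  cases P
  exacts [⟨s2f_7_r0_one0, s2f_7_r0_one1⟩,
    ⟨s2f_7_r0_two0, s2f_7_r0_two1⟩,
    ⟨s2f_7_r0_twoE0, s2f_7_r0_twoE1⟩,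
    ⟨s2f_7_r0_thrR0, s2f_7_r0_thrR1⟩,
    ⟨s2f_7_r0_thrL0, s2f_7_r0_thrL1⟩,
    ⟨s2f_7_r0_threeE0, s2f_7_r0_threeE1⟩,
    ⟨s2f_7_r0_ring0, s2f_7_r0_ring1⟩]

theorem s2f_7_ok : s2f_7.ok stS2F = true := by
  have h : (PC.all.all fun P => PC.all.all fun Q => pairOk stS2F s2f_7 P Q) = true := by decide +kernel
  have d0 : mdOk stS2F s2f_7_m0.md = true := by decide +kernel
  unfold Piece.ok
  rw [h, Bool.true_and]
  show List.all [s2f_7_m0] _ = true
  rw [List.all_eq_true]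
  intro m hm
  simp only [List.mem_cons, List.not_mem_nil, or_false] at hm
  rcases hm with rfl
  · rw [s2f_7_r0, d0]; rfl

end OR

end Pool.Agent.Work.MP_b30479_gtS.G2

end

section

set_option deprecated.oldSectionVars true

namespace Pool.Agent.Work.MP_b30479_gtS.G2

namespace OR

/-- windows -/
def s2f_9_wp : PC → Win
  | .one => ⟨0, 0, 0, 0, 0, 0⟩
  | .two => ⟨-230, 780, -360, 760, -660, 530⟩
  | .twoE => ⟨-790, -140, -520, 270, -160, 820⟩
  | .thrR => ⟨100, 920, -70, 910, -630, 480⟩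
  | .thrL => ⟨100, 920, -70, 910, -630, 480⟩
  | .threeE => ⟨-20, 610, 0, 860, -380, 650⟩
  | .ring => ⟨270, 1300, 110, 1120, -820, 440⟩

/-- windows -/
def s2f_9_wq : PC → Win
  | .one => ⟨0, 0, 0, 0, 0, 0⟩
  | .two => ⟨-230, 780, -360, 760, -660, 530⟩
  | .twoE => ⟨-790, -140, -520, 270, -160, 820⟩
  | .thrR => ⟨100, 920, -70, 910, -630, 480⟩
  | .thrL => ⟨100, 920, -70, 910, -630, 480⟩
  | .threeE => ⟨-20, 610, 0, 860, -380, 650⟩
  | .ring => ⟨270, 1300, 110, 1120, -820, 440⟩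

/-- mode -/
def s2f_9_m0 : Mode where
  md := .D
  lam := 2000
  ct := 0
  gp := fun
    | .one => [e00, e00, e00, e00, e00, e00, e00, e00]
    | .two => [e00, e00, e00, e00, ⟨-4732, [44206160885905192971142635377406257, 8, 0]⟩, ⟨-4732, [0, 8, 53441331194235420664547263191867901401658073080110388548370]⟩]
    | .twoE => [e00, e00, e00, e00, e00]
    | .thrR => [e00, e00, e00, e00, ⟨-4931, [172680315960567160043527707590961, 8, 0]⟩, ⟨-4931, [0, 8, 3847365197150294331029994862027641007963538954265529418632346725225424101666]⟩]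
    | .thrL => [e00, e00, e00, e00, e00]
    | .threeE => [e00, e00, e00, e00, ⟨-4512, [9361018685457, 8, 557953]⟩, ⟨-4512, [0, 8, 2394223128642066]⟩]
    | .ring => [e00, e00, e00, e00, ⟨-5452, [13904427562960176571544094038189281146411762062113, 8, 2396420783506193]⟩, ⟨-5293, [0, 8, 12431507423805164937627718835412031353377113841954]⟩]
  gq := fun
    | .one => [e00, e00, e00, e00, e00, e00, e00, e00]
    | .two => [⟨2489, [2177]⟩, ⟨2489, [8]⟩, ⟨2489, [8]⟩, ⟨2489, [9360906553362]⟩, ⟨2489, [172521823367173611448166009813010, 8, 0]⟩, ⟨2489, [0, 8, 2634861064420203478517289746]⟩]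
    | .twoE => [⟨3949, [8]⟩, ⟨3949, [8]⟩, ⟨3949, [8]⟩, ⟨3949, [8]⟩, ⟨3949, [8]⟩]
    | .thrR => [⟨2428, [8]⟩, ⟨2428, [2177]⟩, ⟨2269, [8]⟩, ⟨2269, [36532553746]⟩, ⟨2269, [10314008693367355353499666, 8, 0]⟩, ⟨2269, [0, 8, 44298724757844870654563774765408546]⟩]
    | .thrL => [⟨2269, [2177]⟩, ⟨2269, [2177]⟩, ⟨2269, [8]⟩, ⟨2269, [557442]⟩, ⟨2269, [2177]⟩]
    | .threeE => [⟨2809, [8]⟩, ⟨2809, [8]⟩, ⟨2809, [8]⟩, ⟨2809, [2177]⟩, ⟨2809, [157387727261572171794, 8, 2177]⟩, ⟨2809, [0, 8, 36643046162]⟩]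
    | .ring => [⟨1907, [3240825580585346]⟩, ⟨1907, [12659552519041]⟩, ⟨1907, [49450943361]⟩, ⟨1769, [40168039728342628509714]⟩, ⟨1769, [53556268359798020837748034396571298205192751684016543072546, 8, 142706737]⟩, ⟨1769, [0, 8, 40297166936858595365154]⟩]

/-- mode -/
def s2f_9_m1 : Mode where
  md := .D
  lam := 1500
  ct := 0
  gp := fun
    | .one => [e00, e00, e00, e00, e00, e00, e00, e00]
    | .two => [e00, e00, e00, e00, e00, e00]
    | .twoE => [e00, e00, e00, e00, e00]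
    | .thrR => [e00, e00, e00, e00, e00, e00]
    | .thrL => [e00, e00, e00, e00, e00]
    | .threeE => [e00, e00, e00, e00, e00, ⟨-5091, [0, 8, 2394223111864850]⟩]
    | .ring => [e00, e00, e00, e00, e00, ⟨-5405, [0, 8, 814711270526495289352370158386718606614297726841594146]⟩]
  gq := fun
    | .one => [e00, e00, e00, e00, e00, e00, e00, e00]
    | .two => [e00, e00, e00, e00, e00, e00]
    | .twoE => [e00, e00, e00, e00, e00]
    | .thrR => [⟨3136, [8]⟩, ⟨3136, [2177]⟩, e00, e00, e00, e00]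
    | .thrL => [e00, e00, e00, e00, e00]
    | .threeE => [e00, e00, e00, e00, e00, e00]
    | .ring => [⟨3227, [142836353]⟩, ⟨3227, [143143553]⟩, e00, e00, e00, e00]

/-- mode -/
def s2f_9_m2 : Mode where
  md := .V 300 1000
  lam := 750
  ct := 0
  gp := fun
    | .one => [e00, e00, e00, e00, e00, e00, e00, e00]
    | .two => [e00, e00, e00, e00, e00, e00]
    | .twoE => [e00, e00, e00, e00, e00]
    | .thrR => [e00, e00, e00, e00, e00, e00]
    | .thrL => [e00, e00, e00, e00, e00]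
    | .threeE => [e00, e00, e00, e00, e00, e00]
    | .ring => [e00, e00, e00, e00, e00, ⟨-1773, [0, 0, 0, 0, 64606602737108772663068126857419596633112996949445230764538354137327372394986279458, 304816645330112883836125210188717715326661831918220523372343179954112352513814885815532470471035713622562]⟩]
  gq := fun
    | .one => [e00, e00, e00, e00, e00, e00, e00, e00]
    | .two => [e00, e00, e00, e00, e00, e00]
    | .twoE => [e00, e00, e00, e00, e00]
    | .thrR => [e00, e00, e00, e00, e00, e00]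
    | .thrL => [e00, e00, e00, e00, e00]
    | .threeE => [e00, e00, e00, e00, e00, e00]
    | .ring => [⟨449, [36566042642]⟩, ⟨449, [2177]⟩, ⟨449, [2177]⟩, e00, e00, e00]

/-- piece -/
def s2f_9 : Piece := ⟨4800, 5100, -820, 820, s2f_9_wp, s2f_9_wq, [s2f_9_m0, s2f_9_m1, s2f_9_m2]⟩

set_option linter.defProp false

def s2f_9_r0_one0 : rowsOk stS2F s2f_9 s2f_9_m0 false .one = true := by decide +kernel

def s2f_9_r0_one1 : rowsOk stS2F s2f_9 s2f_9_m0 true .one = true := by decide +kernel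

def s2f_9_r0_two0 : rowsOk stS2F s2f_9 s2f_9_m0 false .two = true := by decide +kernel

def s2f_9_r0_two1 : rowsOk stS2F s2f_9 s2f_9_m0 true .two = true := by decide +kernel

def s2f_9_r0_twoE0 : rowsOk stS2F s2f_9 s2f_9_m0 false .twoE = true := by decide +kernel

def s2f_9_r0_twoE1 : rowsOk stS2F s2f_9 s2f_9_m0 true .twoE = true := by decide +kernel

def s2f_9_r0_thrR0 : rowsOk stS2F s2f_9 s2f_9_m0 false .thrR = true := by decide +kernel

def s2f_9_r0_thrR1 : rowsOk stS2F s2f_9 s2f_9_m0 true .thrR = true := by decide +kernel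

def s2f_9_r0_thrL0 : rowsOk stS2F s2f_9 s2f_9_m0 false .thrL = true := by decide +kernel

def s2f_9_r0_thrL1 : rowsOk stS2F s2f_9 s2f_9_m0 true .thrL = true := by decide +kernel

def s2f_9_r0_threeE0 : rowsOk stS2F s2f_9 s2f_9_m0 false .threeE = true := by decide +kernel

def s2f_9_r0_threeE1 : rowsOk stS2F s2f_9 s2f_9_m0 true .threeE = true := by decide +kernel

def s2f_9_r0_ring0 : rowsOk stS2F s2f_9 s2f_9_m0 false .ring = true := by decide +kernel

def s2f_9_r0_ring1 : rowsOk stS2F s2f_9 s2f_9_m0 true .ring = true := by decide +kernel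

def s2f_9_r1_one0 : rowsOk stS2F s2f_9 s2f_9_m1 false .one = true := by decide +kernel

def s2f_9_r1_one1 : rowsOk stS2F s2f_9 s2f_9_m1 true .one = true := by decide +kernel

def s2f_9_r1_two0 : rowsOk stS2F s2f_9 s2f_9_m1 false .two = true := by decide +kernel

def s2f_9_r1_two1 : rowsOk stS2F s2f_9 s2f_9_m1 true .two = true := by decide +kernel

def s2f_9_r1_twoE0 : rowsOk stS2F s2f_9 s2f_9_m1 false .twoE = true := by decide +kernel

def s2f_9_r1_twoE1 : rowsOk stS2F s2f_9 s2f_9_m1 true .twoE = true := by decide +kernel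

def s2f_9_r1_thrR0 : rowsOk stS2F s2f_9 s2f_9_m1 false .thrR = true := by decide +kernel

def s2f_9_r1_thrR1 : rowsOk stS2F s2f_9 s2f_9_m1 true .thrR = true := by decide +kernel

def s2f_9_r1_thrL0 : rowsOk stS2F s2f_9 s2f_9_m1 false .thrL = true := by decide +kernel

def s2f_9_r1_thrL1 : rowsOk stS2F s2f_9 s2f_9_m1 true .thrL = true := by decide +kernel

def s2f_9_r1_threeE0 : rowsOk stS2F s2f_9 s2f_9_m1 false .threeE = true := by decide +kernel

def s2f_9_r1_threeE1 : rowsOk stS2F s2f_9 s2f_9_m1 true .threeE = true := by decide +kernel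

def s2f_9_r1_ring0 : rowsOk stS2F s2f_9 s2f_9_m1 false .ring = true := by decide +kernel

def s2f_9_r1_ring1 : rowsOk stS2F s2f_9 s2f_9_m1 true .ring = true := by decide +kernel

def s2f_9_r2_one0 : rowsOk stS2F s2f_9 s2f_9_m2 false .one = true := by decide +kernel

def s2f_9_r2_one1 : rowsOk stS2F s2f_9 s2f_9_m2 true .one = true := by decide +kernel

def s2f_9_r2_two0 : rowsOk stS2F s2f_9 s2f_9_m2 false .two = true := by decide +kernel

def s2f_9_r2_two1 : rowsOk stS2F s2f_9 s2f_9_m2 true .two = true := by decide +kernel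

def s2f_9_r2_twoE0 : rowsOk stS2F s2f_9 s2f_9_m2 false .twoE = true := by decide +kernel

def s2f_9_r2_twoE1 : rowsOk stS2F s2f_9 s2f_9_m2 true .twoE = true := by decide +kernel

def s2f_9_r2_thrR0 : rowsOk stS2F s2f_9 s2f_9_m2 false .thrR = true := by decide +kernel

def s2f_9_r2_thrR1 : rowsOk stS2F s2f_9 s2f_9_m2 true .thrR = true := by decide +kernel

def s2f_9_r2_thrL0 : rowsOk stS2F s2f_9 s2f_9_m2 false .thrL = true := by decide +kernel

def s2f_9_r2_thrL1 : rowsOk stS2F s2f_9 s2f_9_m2 true .thrL = true := by decide +kernel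

def s2f_9_r2_threeE0 : rowsOk stS2F s2f_9 s2f_9_m2 false .threeE = true := by decide +kernel

def s2f_9_r2_threeE1 : rowsOk stS2F s2f_9 s2f_9_m2 true .threeE = true := by decide +kernel

def s2f_9_r2_ring0 : rowsOk stS2F s2f_9 s2f_9_m2 false .ring = true := by decide +kernel

def s2f_9_r2_ring1 : rowsOk stS2F s2f_9 s2f_9_m2 true .ring = true := by decide +kernel

theorem s2f_9_r0 : allRows stS2F s2f_9 s2f_9_m0 = true := by
  refine allRows_of fun P => ?_
  cases P
  exacts [⟨s2f_9_r0_one0, s2f_9_r0_one1⟩,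
    ⟨s2f_9_r0_two0, s2f_9_r0_two1⟩,
    ⟨s2f_9_r0_twoE0, s2f_9_r0_twoE1⟩,
    ⟨s2f_9_r0_thrR0, s2f_9_r0_thrR1⟩,
    ⟨s2f_9_r0_thrL0, s2f_9_r0_thrL1⟩,
    ⟨s2f_9_r0_threeE0, s2f_9_r0_threeE1⟩,
    ⟨s2f_9_r0_ring0, s2f_9_r0_ring1⟩]

theorem s2f_9_r1 : allRows stS2F s2f_9 s2f_9_m1 = true := by
  refine allRows_of fun P => ?_
  cases P
  exacts [⟨s2f_9_r1_one0, s2f_9_r1_one1⟩,
    ⟨s2f_9_r1_two0, s2f_9_r1_two1⟩,
    ⟨s2f_9_r1_twoE0, s2f_9_r1_twoE1⟩,
    ⟨s2f_9_r1_thrR0, s2f_9_r1_thrR1⟩,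
    ⟨s2f_9_r1_thrL0, s2f_9_r1_thrL1⟩,
    ⟨s2f_9_r1_threeE0, s2f_9_r1_threeE1⟩,
    ⟨s2f_9_r1_ring0, s2f_9_r1_ring1⟩]

theorem s2f_9_r2 : allRows stS2F s2f_9 s2f_9_m2 = true := by
  refine allRows_of fun P => ?_
  cases P
  exacts [⟨s2f_9_r2_one0, s2f_9_r2_one1⟩,
    ⟨s2f_9_r2_two0, s2f_9_r2_two1⟩,
    ⟨s2f_9_r2_twoE0, s2f_9_r2_twoE1⟩,
    ⟨s2f_9_r2_thrR0, s2f_9_r2_thrR1⟩,
    ⟨s2f_9_r2_thrL0, s2f_9_r2_thrL1⟩,
    ⟨s2f_9_r2_threeE0, s2f_9_r2_threeE1⟩,
    ⟨s2f_9_r2_ring0, s2f_9_r2_ring1⟩]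

theorem s2f_9_ok : s2f_9.ok stS2F = true := by
  have h : (PC.all.all fun P => PC.all.all fun Q => pairOk stS2F s2f_9 P Q) = true := by decide +kernel
  have d0 : mdOk stS2F s2f_9_m0.md = true := by decide +kernel
  have d1 : mdOk stS2F s2f_9_m1.md = true := by decide +kernel
  have d2 : mdOk stS2F s2f_9_m2.md = true := by decide +kernel
  unfold Piece.ok
  rw [h, Bool.true_and]
  show List.all [s2f_9_m0, s2f_9_m1, s2f_9_m2] _ = true
  rw [List.all_eq_true]
  intro m hm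
  simp only [List.mem_cons, List.not_mem_nil, or_false] at hm
  rcases hm with rfl | rfl | rfl
  · rw [s2f_9_r0, d0]; rfl
  · rw [s2f_9_r1, d1]; rfl
  · rw [s2f_9_r2, d2]; rfl

end OR

end Pool.Agent.Work.MP_b30479_gtS.G2

end

section

set_option deprecated.oldSectionVars true

namespace Pool.Agent.Work.MP_b30479_gtS.G2

namespace OR

/-- windows -/
def s3f_0_wp : PC → Win
  | .one => ⟨-890, 530, -920, 760, -820, 530⟩
  | .two => ⟨-30, 780, -50, 1100, -290, 620⟩
  | .twoE => ⟨-610, -170, -220, 530, 190, 820⟩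
  | .thrR => ⟨310, 930, 280, 1270, -240, 580⟩
  | .thrL => ⟨310, 930, 280, 1270, -240, 580⟩
  | .threeE => ⟨160, 600, 360, 1170, 10, 740⟩
  | .ring => ⟨480, 1330, 470, 1500, -430, 610⟩

/-- windows -/
def s3f_0_wq : PC → Win
  | .one => ⟨-890, 530, -920, 760, -820, 530⟩
  | .two => ⟨-30, 780, -50, 1100, -290, 620⟩
  | .twoE => ⟨-610, -170, -220, 530, 190, 820⟩
  | .thrR => ⟨310, 930, 280, 1270, -240, 580⟩
  | .thrL => ⟨310, 930, 280, 1270, -240, 580⟩
  | .threeE => ⟨160, 600, 360, 1170, 10, 740⟩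
  | .ring => ⟨480, 1330, 470, 1500, -430, 610⟩

/-- mode -/
def s3f_0_m0 : Mode where
  md := .D
  lam := 2500
  ct := 0
  gp := fun
    | .one => [e00, e00, e00, e00, e00, ⟨-5262, [13681144135937692072487891925337237923901318138248307967398675, 8, 4230188324849568231017647156132088760782877262610804562073200356789470158055258997789459]⟩, ⟨-5262, [0, 8, 277229622057341336475021801230806817930278219322009483834074442293830307434111594109390106930]⟩, e00]
    | .two => [e00, e00, e00, e00, ⟨-4607, [40168398575953837064497, 8, 40168398575953837064497]⟩, ⟨-4607, [0, 8, 895362599826267909008294163964546472333030981066177237869286994210]⟩]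
    | .twoE => [e00, e00, e00, e00, e00]
    | .thrR => [e00, e00, e00, e00, ⟨-4907, [612920641768161585, 8, 2394201737691441]⟩, ⟨-4907, [0, 2177, 304816645413494547544237180799335337813354979803445835298793277122081440942881643695742522943830523843106]⟩]
    | .thrL => [e00, e00, e00, e00, e00]
    | .threeE => [e00, e00, e00, e00, ⟨-4332, [142837777, 8, 142641185]⟩, ⟨-4332, [0, 8, 9352434417954]⟩]
    | .ring => [e00, e00, e00, e00, ⟨-5249, [3920938440142207561963494334139712996324056935089405177639743793, 8, 2897060371994344386925033184730316026145]⟩, ⟨-5249, [0, 8, 208566085254059885623437619314331287175894934321149055522]⟩]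
  gq := fun
    | .one => [⟨2503, [8]⟩, ⟨2245, [142706706]⟩, ⟨2245, [2179]⟩, ⟨2245, [2177]⟩, ⟨2245, [815459736343522600574105132304234766879092759785406754]⟩, ⟨2245, [208566086715570641849968547650744558049676114286549173010, 8, 48604607583457750415927536607199489374849958675]⟩, ⟨2245, [0, 8, 48560614171039933924031257929624867780236423474]⟩, e00]
    | .two => [⟨3158, [8]⟩, ⟨3158, [8]⟩, ⟨3158, [8]⟩, ⟨3158, [40205269111280713762850]⟩, ⟨3158, [40289096458466229389330, 8, 9380536260657]⟩, ⟨3158, [0, 8, 2632474785925946784217575714]⟩]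
    | .twoE => [⟨4958, [8]⟩, ⟨4958, [8]⟩, ⟨4958, [8]⟩, ⟨4958, [2178]⟩, ⟨4958, [8]⟩]
    | .thrR => [⟨2858, [8]⟩, ⟨2858, [8]⟩, ⟨2858, [8]⟩, ⟨2858, [2394188852398114]⟩, ⟨2858, [9361023971714, 8, 559153]⟩, ⟨2858, [0, 8, 11340473298163373329243602119216534050]⟩]
    | .thrL => [⟨2858, [8]⟩, ⟨2858, [8]⟩, ⟨2858, [8]⟩, ⟨2858, [142704770]⟩, ⟨2858, [557440]⟩]
    | .threeE => [⟨3433, [8]⟩, ⟨3433, [8]⟩, ⟨3433, [8]⟩, ⟨3433, [2178]⟩, ⟨3433, [36642587266, 8, 2177]⟩, ⟨3433, [0, 8, 36641997330]⟩]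
    | .ring => [⟨2258, [36644618626]⟩, ⟨2258, [143143041]⟩, ⟨2258, [557185]⟩, ⟨2258, [673603811962606758263716872978]⟩, ⟨2258, [895373145357212752950574322669716469931888760812431410013854204194, 8, 614885464759042337]⟩, ⟨2258, [0, 8, 40297022911350694810146]⟩]

/-- piece -/
def s3f_0 : Piece := ⟨4750, 5375, -820, 820, s3f_0_wp, s3f_0_wq, [s3f_0_m0]⟩

set_option linter.defProp false

def s3f_0_r0_one0 : rowsOk stS3F s3f_0 s3f_0_m0 false .one = true := by decide +kernel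

def s3f_0_r0_one1 : rowsOk stS3F s3f_0 s3f_0_m0 true .one = true := by decide +kernel

def s3f_0_r0_two0 : rowsOk stS3F s3f_0 s3f_0_m0 false .two = true := by decide +kernel

def s3f_0_r0_two1 : rowsOk stS3F s3f_0 s3f_0_m0 true .two = true := by decide +kernel

def s3f_0_r0_twoE0 : rowsOk stS3F s3f_0 s3f_0_m0 false .twoE = true := by decide +kernel

def s3f_0_r0_twoE1 : rowsOk stS3F s3f_0 s3f_0_m0 true .twoE = true := by decide +kernel

def s3f_0_r0_thrR0 : rowsOk stS3F s3f_0 s3f_0_m0 false .thrR = true := by decide +kernel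

def s3f_0_r0_thrR1 : rowsOk stS3F s3f_0 s3f_0_m0 true .thrR = true := by decide +kernel

def s3f_0_r0_thrL0 : rowsOk stS3F s3f_0 s3f_0_m0 false .thrL = true := by decide +kernel

def s3f_0_r0_thrL1 : rowsOk stS3F s3f_0 s3f_0_m0 true .thrL = true := by decide +kernel

def s3f_0_r0_threeE0 : rowsOk stS3F s3f_0 s3f_0_m0 false .threeE = true := by decide +kernel

def s3f_0_r0_threeE1 : rowsOk stS3F s3f_0 s3f_0_m0 true .threeE = true := by decide +kernel

def s3f_0_r0_ring0 : rowsOk stS3F s3f_0 s3f_0_m0 false .ring = true := by decide +kernel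

def s3f_0_r0_ring1 : rowsOk stS3F s3f_0 s3f_0_m0 true .ring = true := by decide +kernel

theorem s3f_0_r0 : allRows stS3F s3f_0 s3f_0_m0 = true := by
  refine allRows_of fun P => ?_
  cases P
  exacts [⟨s3f_0_r0_one0, s3f_0_r0_one1⟩,
    ⟨s3f_0_r0_two0, s3f_0_r0_two1⟩,
    ⟨s3f_0_r0_twoE0, s3f_0_r0_twoE1⟩,
    ⟨s3f_0_r0_thrR0, s3f_0_r0_thrR1⟩,
    ⟨s3f_0_r0_thrL0, s3f_0_r0_thrL1⟩,
    ⟨s3f_0_r0_threeE0, s3f_0_r0_threeE1⟩,
    ⟨s3f_0_r0_ring0, s3f_0_r0_ring1⟩]

theorem s3f_0_ok : s3f_0.ok stS3F = true := by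
  have h : (PC.all.all fun P => PC.all.all fun Q => pairOk stS3F s3f_0 P Q) = true := by decide +kernel
  have d0 : mdOk stS3F s3f_0_m0.md = true := by decide +kernel
  unfold Piece.ok
  rw [h, Bool.true_and]
  show List.all [s3f_0_m0] _ = true
  rw [List.all_eq_true]
  intro m hm
  simp only [List.mem_cons, List.not_mem_nil, or_false] at hm
  rcases hm with rfl
  · rw [s3f_0_r0, d0]; rfl

end OR

end Pool.Agent.Work.MP_b30479_gtS.G2

end

section

set_option deprecated.oldSectionVars true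

namespace Pool.Agent.Work.MP_b30479_gtS.G2

namespace OR

/-- windows -/
def s3l_0_wp : PC → Win
  | .one => ⟨0, 0, 0, 0, 0, 0⟩
  | .two => ⟨-30, 780, -50, 1100, -290, 620⟩
  | .twoE => ⟨-610, -170, -220, 530, 190, 820⟩
  | .thrR => ⟨310, 930, 280, 1270, -240, 580⟩
  | .thrL => ⟨310, 930, 280, 1270, -240, 580⟩
  | .threeE => ⟨160, 600, 360, 1170, 10, 740⟩
  | .ring => ⟨480, 1330, 470, 1500, -430, 610⟩

/-- windows -/
def s3l_0_wq : PC → Win
  | .one => ⟨-890, 530, -920, 440, -820, 430⟩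
  | .two => ⟨0, 0, 0, 0, 0, 0⟩
  | .twoE => ⟨0, 0, 0, 0, 0, 0⟩
  | .thrR => ⟨0, 0, 0, 0, 0, 0⟩
  | .thrL => ⟨0, 0, 0, 0, 0, 0⟩
  | .threeE => ⟨0, 0, 0, 0, 0, 0⟩
  | .ring => ⟨0, 0, 0, 0, 0, 0⟩

/-- mode -/
def s3l_0_m0 : Mode where
  md := .D
  lam := 500
  ct := 0
  gp := fun
    | .one => [e00, e00, e00, e00, e00, e00, e00, e00]
    | .two => [e00, e00, e00, e00, e00, e00]
    | .twoE => [e00, e00, e00, e00, e00]
    | .thrR => [e00, e00, e00, e00, e00, ⟨-4775, [48537879614342504007456497337605687422402724129, 559123, 142836144]⟩]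
    | .thrL => [e00, e00, e00, e00, e00]
    | .threeE => [e00, e00, e00, e00, e00, ⟨-4660, [743349613641003633778567984863094152757920]⟩]
    | .ring => [e00, e00, e00, e00, e00, ⟨-4895, [40204716998186917627937, 36641996819, 36532916656]⟩]
  gq := fun
    | .one => [⟨4291, [8]⟩, ⟨4291, [9381149181971]⟩, ⟨4291, [36566480912]⟩, ⟨4291, [9361017026576]⟩, ⟨4291, [673913471604909821673716417282]⟩, ⟨4291, [11306390216222554761215145841944396034]⟩, ⟨4291, [521899291958196097874412648370546942026142712598921679252610980356375987951547275611095567702186330215653922427421620000544804394148548861529258323082835176138768718096972944841932585815938681123968415838006747926796059063423837585846496151537393790619577684898765249558927099840276558685757010210363595285813090940500415798965829012816724845138720]⟩, ⟨4291, [1082439577019267962195377247239922430251440282947893194398793877447491990080523692104946434, 8, 3192202354302846520639972208680802551736983655289618]⟩]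
    | .two => [e00, e00, e00, e00, e00, e00]
    | .twoE => [e00, e00, e00, e00, e00]
    | .thrR => [e00, e00, e00, e00, e00, e00]
    | .thrL => [e00, e00, e00, e00, e00]
    | .threeE => [e00, e00, e00, e00, e00, e00]
    | .ring => [e00, e00, e00, e00, e00, e00]

/-- piece -/
def s3l_0 : Piece := ⟨3000, 3875, -820, 820, s3l_0_wp, s3l_0_wq, [s3l_0_m0]⟩

set_option linter.defProp false

def s3l_0_r0_one0 : rowsOk stS3L s3l_0 s3l_0_m0 false .one = true := by decide +kernel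

def s3l_0_r0_one1_0 : cellOk stS3L s3l_0 s3l_0_m0 true .one ((stS3L.bins .one).getD 0 b00)
    ((s3l_0_m0.g true .one).getD 0 e00) = true := by decide +kernel

def s3l_0_r0_one1_1 : cellOk stS3L s3l_0 s3l_0_m0 true .one ((stS3L.bins .one).getD 1 b00)
    ((s3l_0_m0.g true .one).getD 1 e00) = true := by decide +kernel

def s3l_0_r0_one1_2 : cellOk stS3L s3l_0 s3l_0_m0 true .one ((stS3L.bins .one).getD 2 b00)
    ((s3l_0_m0.g true .one).getD 2 e00) = true := by decide +kernel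

def s3l_0_r0_one1_3 : cellOk stS3L s3l_0 s3l_0_m0 true .one ((stS3L.bins .one).getD 3 b00)
    ((s3l_0_m0.g true .one).getD 3 e00) = true := by decide +kernel

def s3l_0_r0_one1_4 : cellOk stS3L s3l_0 s3l_0_m0 true .one ((stS3L.bins .one).getD 4 b00)
    ((s3l_0_m0.g true .one).getD 4 e00) = true := by decide +kernel

def s3l_0_r0_one1_5 : cellOk stS3L s3l_0 s3l_0_m0 true .one ((stS3L.bins .one).getD 5 b00)
    ((s3l_0_m0.g true .one).getD 5 e00) = true := by decide +kernel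

def s3l_0_r0_one1_6 : cellOk stS3L s3l_0 s3l_0_m0 true .one ((stS3L.bins .one).getD 6 b00)
    ((s3l_0_m0.g true .one).getD 6 e00) = true := by decide +kernel

def s3l_0_r0_one1_7 : cellOk stS3L s3l_0 s3l_0_m0 true .one ((stS3L.bins .one).getD 7 b00)
    ((s3l_0_m0.g true .one).getD 7 e00) = true := by decide +kernel

theorem s3l_0_r0_one1 : rowsOk stS3L s3l_0 s3l_0_m0 true .one = true := by
  refine rowsOk_of fun i hi => ?_
  have hi : i < 8 := hi
  interval_cases i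
  exacts [s3l_0_r0_one1_0, s3l_0_r0_one1_1, s3l_0_r0_one1_2, s3l_0_r0_one1_3, s3l_0_r0_one1_4, s3l_0_r0_one1_5, s3l_0_r0_one1_6, s3l_0_r0_one1_7]

def s3l_0_r0_two0 : rowsOk stS3L s3l_0 s3l_0_m0 false .two = true := by decide +kernel

def s3l_0_r0_two1 : rowsOk stS3L s3l_0 s3l_0_m0 true .two = true := by decide +kernel

def s3l_0_r0_twoE0 : rowsOk stS3L s3l_0 s3l_0_m0 false .twoE = true := by decide +kernel

def s3l_0_r0_twoE1 : rowsOk stS3L s3l_0 s3l_0_m0 true .twoE = true := by decide +kernel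

def s3l_0_r0_thrR0 : rowsOk stS3L s3l_0 s3l_0_m0 false .thrR = true := by decide +kernel

def s3l_0_r0_thrR1 : rowsOk stS3L s3l_0 s3l_0_m0 true .thrR = true := by decide +kernel

def s3l_0_r0_thrL0 : rowsOk stS3L s3l_0 s3l_0_m0 false .thrL = true := by decide +kernel

def s3l_0_r0_thrL1 : rowsOk stS3L s3l_0 s3l_0_m0 true .thrL = true := by decide +kernel

def s3l_0_r0_threeE0 : rowsOk stS3L s3l_0 s3l_0_m0 false .threeE = true := by decide +kernel

def s3l_0_r0_threeE1 : rowsOk stS3L s3l_0 s3l_0_m0 true .threeE = true := by decide +kernel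

def s3l_0_r0_ring0 : rowsOk stS3L s3l_0 s3l_0_m0 false .ring = true := by decide +kernel

def s3l_0_r0_ring1 : rowsOk stS3L s3l_0 s3l_0_m0 true .ring = true := by decide +kernel

theorem s3l_0_r0 : allRows stS3L s3l_0 s3l_0_m0 = true := by
  refine allRows_of fun P => ?_
  cases P
  exacts [⟨s3l_0_r0_one0, s3l_0_r0_one1⟩,
    ⟨s3l_0_r0_two0, s3l_0_r0_two1⟩,
    ⟨s3l_0_r0_twoE0, s3l_0_r0_twoE1⟩,
    ⟨s3l_0_r0_thrR0, s3l_0_r0_thrR1⟩,
    ⟨s3l_0_r0_thrL0, s3l_0_r0_thrL1⟩,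
    ⟨s3l_0_r0_threeE0, s3l_0_r0_threeE1⟩,
    ⟨s3l_0_r0_ring0, s3l_0_r0_ring1⟩]

theorem s3l_0_ok : s3l_0.ok stS3L = true := by
  have h : (PC.all.all fun P => PC.all.all fun Q => pairOk stS3L s3l_0 P Q) = true := by decide +kernel
  have d0 : mdOk stS3L s3l_0_m0.md = true := by decide +kernel
  unfold Piece.ok
  rw [h, Bool.true_and]
  show List.all [s3l_0_m0] _ = true
  rw [List.all_eq_true]
  intro m hm
  simp only [List.mem_cons, List.not_mem_nil, or_false] at hm
  rcases hm with rfl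
  · rw [s3l_0_r0, d0]; rfl

end OR

end Pool.Agent.Work.MP_b30479_gtS.G2

end

section

set_option deprecated.oldSectionVars true

namespace Pool.Agent.Work.MP_b30479_gtS.G2

namespace OR

/-- windows -/
def s3l_1_wp : PC → Win
  | .one => ⟨0, 0, 0, 0, 0, 0⟩
  | .two => ⟨-30, 780, -50, 1100, -290, 620⟩
  | .twoE => ⟨-610, -170, -220, 530, 190, 820⟩
  | .thrR => ⟨310, 930, 280, 1270, -240, 580⟩
  | .thrL => ⟨310, 930, 280, 1270, -240, 580⟩
  | .threeE => ⟨160, 600, 360, 1170, 10, 740⟩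
  | .ring => ⟨480, 1330, 470, 1500, -430, 610⟩

/-- windows -/
def s3l_1_wq : PC → Win
  | .one => ⟨-890, 530, -920, 440, -820, 430⟩
  | .two => ⟨0, 0, 0, 0, 0, 0⟩
  | .twoE => ⟨0, 0, 0, 0, 0, 0⟩
  | .thrR => ⟨0, 0, 0, 0, 0, 0⟩
  | .thrL => ⟨0, 0, 0, 0, 0, 0⟩
  | .threeE => ⟨0, 0, 0, 0, 0, 0⟩
  | .ring => ⟨0, 0, 0, 0, 0, 0⟩

/-- mode -/
def s3l_1_m0 : Mode where
  md := .D
  lam := 1500
  ct := 0
  gp := fun
    | .one => [e00, e00, e00, e00, e00, e00, e00, e00]
    | .two => [e00, e00, e00, e00, ⟨-4079, [35295716417905820639269568471076902369547248005382891543317181753117385683352147960316218853988092109736961707601730346100042177876327469633528293693835681554823134693385213334167714]⟩, ⟨-4079, [12425796952076325432978993514806997562080966705457, 8, 157374216471279310897]⟩]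
    | .twoE => [e00, e00, e00, e00, e00]
    | .thrR => [e00, e00, e00, e00, ⟨-4259, [4653332563703112192266432510956968863027741922276967012031166207737173657954395089198555783059644578]⟩, ⟨-4259, [5628031636247558596764288732534803153890885582159718809760608995046898986858999766467982165348798574509291211240318983213617, 8, 48705048027325752573346436857335689816735490338]⟩]
    | .thrL => [e00, e00, e00, e00, e00]
    | .threeE => [e00, e00, e00, e00, ⟨-3914, [142641169, 8, 0]⟩, ⟨-3914, [142641169, 8, 559122]⟩]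
    | .ring => [e00, e00, e00, e00, ⟨-4619, [814326104796079042545151996317376430632428134495060497, 8, 0]⟩, ⟨-4619, [814326104796079042545151996317376430632428134495060497, 8, 44185865652370577373868718047633698]⟩]
  gq := fun
    | .one => [⟨2815, [8]⟩, ⟨2815, [9352426784818]⟩, ⟨2815, [142837776]⟩, ⟨2815, [559152]⟩, ⟨2815, [2634892534934782086201487874]⟩, ⟨2815, [13668587058991637584279538738870922696223037136943873861892130, 8, 0]⟩, ⟨2815, [189689750837324610847616484216582246562824498, 8, 189689958920884552211961381958914852382060850]⟩, ⟨2815, [0, 8, 4665150308753300857069592507518984614715520633261298275975073845865465672570385293182953599743898146]⟩]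
    | .two => [e00, e00, e00, e00, e00, e00]
    | .twoE => [e00, e00, e00, e00, e00]
    | .thrR => [e00, e00, e00, e00, e00, e00]
    | .thrL => [e00, e00, e00, e00, e00]
    | .threeE => [e00, e00, e00, e00, e00, e00]
    | .ring => [e00, e00, e00, e00, e00, e00]

/-- piece -/
def s3l_1 : Piece := ⟨3875, 4750, -820, 820, s3l_1_wp, s3l_1_wq, [s3l_1_m0]⟩

set_option linter.defProp false

def s3l_1_r0_one0 : rowsOk stS3L s3l_1 s3l_1_m0 false .one = true := by decide +kernel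

def s3l_1_r0_one1_0 : cellOk stS3L s3l_1 s3l_1_m0 true .one ((stS3L.bins .one).getD 0 b00)
    ((s3l_1_m0.g true .one).getD 0 e00) = true := by decide +kernel

def s3l_1_r0_one1_1 : cellOk stS3L s3l_1 s3l_1_m0 true .one ((stS3L.bins .one).getD 1 b00)
    ((s3l_1_m0.g true .one).getD 1 e00) = true := by decide +kernel

def s3l_1_r0_one1_2 : cellOk stS3L s3l_1 s3l_1_m0 true .one ((stS3L.bins .one).getD 2 b00)
    ((s3l_1_m0.g true .one).getD 2 e00) = true := by decide +kernel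

def s3l_1_r0_one1_3 : cellOk stS3L s3l_1 s3l_1_m0 true .one ((stS3L.bins .one).getD 3 b00)
    ((s3l_1_m0.g true .one).getD 3 e00) = true := by decide +kernel

def s3l_1_r0_one1_4 : cellOk stS3L s3l_1 s3l_1_m0 true .one ((stS3L.bins .one).getD 4 b00)
    ((s3l_1_m0.g true .one).getD 4 e00) = true := by decide +kernel

def s3l_1_r0_one1_5 : cellOk stS3L s3l_1 s3l_1_m0 true .one ((stS3L.bins .one).getD 5 b00)
    ((s3l_1_m0.g true .one).getD 5 e00) = true := by decide +kernel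

def s3l_1_r0_one1_6 : cellOk stS3L s3l_1 s3l_1_m0 true .one ((stS3L.bins .one).getD 6 b00)
    ((s3l_1_m0.g true .one).getD 6 e00) = true := by decide +kernel

def s3l_1_r0_one1_7 : cellOk stS3L s3l_1 s3l_1_m0 true .one ((stS3L.bins .one).getD 7 b00)
    ((s3l_1_m0.g true .one).getD 7 e00) = true := by decide +kernel

theorem s3l_1_r0_one1 : rowsOk stS3L s3l_1 s3l_1_m0 true .one = true := by
  refine rowsOk_of fun i hi => ?_
  have hi : i < 8 := hi
  interval_cases i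
  exacts [s3l_1_r0_one1_0, s3l_1_r0_one1_1, s3l_1_r0_one1_2, s3l_1_r0_one1_3, s3l_1_r0_one1_4, s3l_1_r0_one1_5, s3l_1_r0_one1_6, s3l_1_r0_one1_7]

def s3l_1_r0_two0 : rowsOk stS3L s3l_1 s3l_1_m0 false .two = true := by decide +kernel

def s3l_1_r0_two1 : rowsOk stS3L s3l_1 s3l_1_m0 true .two = true := by decide +kernel

def s3l_1_r0_twoE0 : rowsOk stS3L s3l_1 s3l_1_m0 false .twoE = true := by decide +kernel

def s3l_1_r0_twoE1 : rowsOk stS3L s3l_1 s3l_1_m0 true .twoE = true := by decide +kernel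

def s3l_1_r0_thrR0_0 : cellOk stS3L s3l_1 s3l_1_m0 false .thrR ((stS3L.bins .thrR).getD 0 b00)
    ((s3l_1_m0.g false .thrR).getD 0 e00) = true := by decide +kernel

def s3l_1_r0_thrR0_1 : cellOk stS3L s3l_1 s3l_1_m0 false .thrR ((stS3L.bins .thrR).getD 1 b00)
    ((s3l_1_m0.g false .thrR).getD 1 e00) = true := by decide +kernel

def s3l_1_r0_thrR0_2 : cellOk stS3L s3l_1 s3l_1_m0 false .thrR ((stS3L.bins .thrR).getD 2 b00)
    ((s3l_1_m0.g false .thrR).getD 2 e00) = true := by decide +kernel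

def s3l_1_r0_thrR0_3 : cellOk stS3L s3l_1 s3l_1_m0 false .thrR ((stS3L.bins .thrR).getD 3 b00)
    ((s3l_1_m0.g false .thrR).getD 3 e00) = true := by decide +kernel

def s3l_1_r0_thrR0_4 : cellOk stS3L s3l_1 s3l_1_m0 false .thrR ((stS3L.bins .thrR).getD 4 b00)
    ((s3l_1_m0.g false .thrR).getD 4 e00) = true := by decide +kernel

def s3l_1_r0_thrR0_5 : cellOk stS3L s3l_1 s3l_1_m0 false .thrR ((stS3L.bins .thrR).getD 5 b00)
    ((s3l_1_m0.g false .thrR).getD 5 e00) = true := by decide +kernel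

theorem s3l_1_r0_thrR0 : rowsOk stS3L s3l_1 s3l_1_m0 false .thrR = true := by
  refine rowsOk_of fun i hi => ?_
  have hi : i < 6 := hi
  interval_cases i
  exacts [s3l_1_r0_thrR0_0, s3l_1_r0_thrR0_1, s3l_1_r0_thrR0_2, s3l_1_r0_thrR0_3, s3l_1_r0_thrR0_4, s3l_1_r0_thrR0_5]

def s3l_1_r0_thrR1 : rowsOk stS3L s3l_1 s3l_1_m0 true .thrR = true := by decide +kernel

def s3l_1_r0_thrL0 : rowsOk stS3L s3l_1 s3l_1_m0 false .thrL = true := by decide +kernel

def s3l_1_r0_thrL1 : rowsOk stS3L s3l_1 s3l_1_m0 true .thrL = true := by decide +kernel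

def s3l_1_r0_threeE0 : rowsOk stS3L s3l_1 s3l_1_m0 false .threeE = true := by decide +kernel

def s3l_1_r0_threeE1 : rowsOk stS3L s3l_1 s3l_1_m0 true .threeE = true := by decide +kernel

def s3l_1_r0_ring0 : rowsOk stS3L s3l_1 s3l_1_m0 false .ring = true := by decide +kernel

def s3l_1_r0_ring1 : rowsOk stS3L s3l_1 s3l_1_m0 true .ring = true := by decide +kernel

theorem s3l_1_r0 : allRows stS3L s3l_1 s3l_1_m0 = true := by
  refine allRows_of fun P => ?_
  cases P
  exacts [⟨s3l_1_r0_one0, s3l_1_r0_one1⟩,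
    ⟨s3l_1_r0_two0, s3l_1_r0_two1⟩,
    ⟨s3l_1_r0_twoE0, s3l_1_r0_twoE1⟩,
    ⟨s3l_1_r0_thrR0, s3l_1_r0_thrR1⟩,
    ⟨s3l_1_r0_thrL0, s3l_1_r0_thrL1⟩,
    ⟨s3l_1_r0_threeE0, s3l_1_r0_threeE1⟩,
    ⟨s3l_1_r0_ring0, s3l_1_r0_ring1⟩]

theorem s3l_1_ok : s3l_1.ok stS3L = true := by
  have h : (PC.all.all fun P => PC.all.all fun Q => pairOk stS3L s3l_1 P Q) = true := by decide +kernel
  have d0 : mdOk stS3L s3l_1_m0.md = true := by decide +kernel
  unfold Piece.ok
  rw [h, Bool.true_and]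
  show List.all [s3l_1_m0] _ = true
  rw [List.all_eq_true]
  intro m hm
  simp only [List.mem_cons, List.not_mem_nil, or_false] at hm
  rcases hm with rfl
  · rw [s3l_1_r0, d0]; rfl

end OR

end Pool.Agent.Work.MP_b30479_gtS.G2

end
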