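import Pool.Agent.Work.MP_b30479_gt.TBS.G2.OTab

section

set_option deprecated.oldSectionVars true

namespace Pool.Agent.Work.MP_b30479_gtS.G2

namespace OR

set_option linter.defProp false

def a2n_1_r1_thrR0 : rowsOk stA2 a2n_1 a2n_1_m1 false .thrR = true := by decide +kernel

def a2n_1_r1_thrR1 : rowsOk stA2 a2n_1 a2n_1_m1 true .thrR = true := by decide +kernel

def a2n_1_r1_thrL0 : rowsOk stA2 a2n_1 a2n_1_m1 false .thrL = true := by decide +kernel

def a2n_1_r1_thrL1 : rowsOk stA2 a2n_1 a2n_1_m1 true .thrL = true := by decide +kernel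

def a2n_1_r1_threeE0 : rowsOk stA2 a2n_1 a2n_1_m1 false .threeE = true := by decide +kernel

def a2n_1_r1_threeE1 : rowsOk stA2 a2n_1 a2n_1_m1 true .threeE = true := by decide +kernel

def a2n_1_r1_ring0 : rowsOk stA2 a2n_1 a2n_1_m1 false .ring = true := by decide +kernel

def a2n_1_r1_ring1 : rowsOk stA2 a2n_1 a2n_1_m1 true .ring = true := by decide +kernel

def a2n_1_r2_one0 : rowsOk stA2 a2n_1 a2n_1_m2 false .one = true := by decide +kernel

def a2n_1_r2_one1 : rowsOk stA2 a2n_1 a2n_1_m2 true .one = true := by decide +kernel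

def a2n_1_r2_two0 : rowsOk stA2 a2n_1 a2n_1_m2 false .two = true := by decide +kernel

def a2n_1_r2_two1_0 : cellOk stA2 a2n_1 a2n_1_m2 true .two ((stA2.bins .two).getD 0 b00)
    ((a2n_1_m2.g true .two).getD 0 e00) = true := by decide +kernel

def a2n_1_r2_two1_1 : cellOk stA2 a2n_1 a2n_1_m2 true .two ((stA2.bins .two).getD 1 b00)
    ((a2n_1_m2.g true .two).getD 1 e00) = true := by decide +kernel

def a2n_1_r2_two1_2 : cellOk stA2 a2n_1 a2n_1_m2 true .two ((stA2.bins .two).getD 2 b00)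
    ((a2n_1_m2.g true .two).getD 2 e00) = true := by decide +kernel

def a2n_1_r2_two1_3 : cellOk stA2 a2n_1 a2n_1_m2 true .two ((stA2.bins .two).getD 3 b00)
    ((a2n_1_m2.g true .two).getD 3 e00) = true := by decide +kernel

def a2n_1_r2_two1_4 : cellOk stA2 a2n_1 a2n_1_m2 true .two ((stA2.bins .two).getD 4 b00)
    ((a2n_1_m2.g true .two).getD 4 e00) = true := by decide +kernel

def a2n_1_r2_two1_5 : cellOk stA2 a2n_1 a2n_1_m2 true .two ((stA2.bins .two).getD 5 b00)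
    ((a2n_1_m2.g true .two).getD 5 e00) = true := by decide +kernel

theorem a2n_1_r2_two1 : rowsOk stA2 a2n_1 a2n_1_m2 true .two = true := by
  refine rowsOk_of fun i hi => ?_
  have hi : i < 6 := hi
  interval_cases i
  exacts [a2n_1_r2_two1_0, a2n_1_r2_two1_1, a2n_1_r2_two1_2, a2n_1_r2_two1_3, a2n_1_r2_two1_4, a2n_1_r2_two1_5]

def a2n_1_r2_twoE0 : rowsOk stA2 a2n_1 a2n_1_m2 false .twoE = true := by decide +kernel

def a2n_1_r2_twoE1 : rowsOk stA2 a2n_1 a2n_1_m2 true .twoE = true := by decide +kernel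

def a2n_1_r2_thrR0 : rowsOk stA2 a2n_1 a2n_1_m2 false .thrR = true := by decide +kernel

def a2n_1_r2_thrR1 : rowsOk stA2 a2n_1 a2n_1_m2 true .thrR = true := by decide +kernel

def a2n_1_r2_thrL0 : rowsOk stA2 a2n_1 a2n_1_m2 false .thrL = true := by decide +kernel

def a2n_1_r2_thrL1 : rowsOk stA2 a2n_1 a2n_1_m2 true .thrL = true := by decide +kernel

def a2n_1_r2_threeE0 : rowsOk stA2 a2n_1 a2n_1_m2 false .threeE = true := by decide +kernel

def a2n_1_r2_threeE1 : rowsOk stA2 a2n_1 a2n_1_m2 true .threeE = true := by decide +kernel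

def a2n_1_r2_ring0 : rowsOk stA2 a2n_1 a2n_1_m2 false .ring = true := by decide +kernel

def a2n_1_r2_ring1 : rowsOk stA2 a2n_1 a2n_1_m2 true .ring = true := by decide +kernel

def a2n_1_r3_one0 : rowsOk stA2 a2n_1 a2n_1_m3 false .one = true := by decide +kernel

def a2n_1_r3_one1 : rowsOk stA2 a2n_1 a2n_1_m3 true .one = true := by decide +kernel

def a2n_1_r3_two0 : rowsOk stA2 a2n_1 a2n_1_m3 false .two = true := by decide +kernel

def a2n_1_r3_two1 : rowsOk stA2 a2n_1 a2n_1_m3 true .two = true := by decide +kernel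

def a2n_1_r3_twoE0 : rowsOk stA2 a2n_1 a2n_1_m3 false .twoE = true := by decide +kernel

def a2n_1_r3_twoE1 : rowsOk stA2 a2n_1 a2n_1_m3 true .twoE = true := by decide +kernel

def a2n_1_r3_thrR0 : rowsOk stA2 a2n_1 a2n_1_m3 false .thrR = true := by decide +kernel

def a2n_1_r3_thrR1 : rowsOk stA2 a2n_1 a2n_1_m3 true .thrR = true := by decide +kernel

def a2n_1_r3_thrL0 : rowsOk stA2 a2n_1 a2n_1_m3 false .thrL = true := by decide +kernel

def a2n_1_r3_thrL1 : rowsOk stA2 a2n_1 a2n_1_m3 true .thrL = true := by decide +kernel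

def a2n_1_r3_threeE0 : rowsOk stA2 a2n_1 a2n_1_m3 false .threeE = true := by decide +kernel

def a2n_1_r3_threeE1 : rowsOk stA2 a2n_1 a2n_1_m3 true .threeE = true := by decide +kernel

def a2n_1_r3_ring0 : rowsOk stA2 a2n_1 a2n_1_m3 false .ring = true := by decide +kernel

def a2n_1_r3_ring1 : rowsOk stA2 a2n_1 a2n_1_m3 true .ring = true := by decide +kernel

def a2n_1_r4_one0 : rowsOk stA2 a2n_1 a2n_1_m4 false .one = true := by decide +kernel

def a2n_1_r4_one1 : rowsOk stA2 a2n_1 a2n_1_m4 true .one = true := by decide +kernel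

def a2n_1_r4_two0 : rowsOk stA2 a2n_1 a2n_1_m4 false .two = true := by decide +kernel

def a2n_1_r4_two1 : rowsOk stA2 a2n_1 a2n_1_m4 true .two = true := by decide +kernel

def a2n_1_r4_twoE0 : rowsOk stA2 a2n_1 a2n_1_m4 false .twoE = true := by decide +kernel

def a2n_1_r4_twoE1 : rowsOk stA2 a2n_1 a2n_1_m4 true .twoE = true := by decide +kernel

def a2n_1_r4_thrR0 : rowsOk stA2 a2n_1 a2n_1_m4 false .thrR = true := by decide +kernel

def a2n_1_r4_thrR1 : rowsOk stA2 a2n_1 a2n_1_m4 true .thrR = true := by decide +kernel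

def a2n_1_r4_thrL0 : rowsOk stA2 a2n_1 a2n_1_m4 false .thrL = true := by decide +kernel

def a2n_1_r4_thrL1 : rowsOk stA2 a2n_1 a2n_1_m4 true .thrL = true := by decide +kernel

def a2n_1_r4_threeE0 : rowsOk stA2 a2n_1 a2n_1_m4 false .threeE = true := by decide +kernel

def a2n_1_r4_threeE1 : rowsOk stA2 a2n_1 a2n_1_m4 true .threeE = true := by decide +kernel

def a2n_1_r4_ring0 : rowsOk stA2 a2n_1 a2n_1_m4 false .ring = true := by decide +kernel

def a2n_1_r4_ring1 : rowsOk stA2 a2n_1 a2n_1_m4 true .ring = true := by decide +kernel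

end OR

end Pool.Agent.Work.MP_b30479_gtS.G2

end

section

set_option deprecated.oldSectionVars true

namespace Pool.Agent.Work.MP_b30479_gtS.G2

namespace OR

/-- windows -/
def a3z_3_wp : PC → Win
  | .one => ⟨-890, 290, -820, 330, 0, 430⟩
  | .two => ⟨0, 0, 0, 0, 0, 0⟩
  | .twoE => ⟨0, 0, 0, 0, 0, 0⟩
  | .thrR => ⟨0, 0, 0, 0, 0, 0⟩
  | .thrL => ⟨0, 0, 0, 0, 0, 0⟩
  | .threeE => ⟨0, 0, 0, 0, 0, 0⟩
  | .ring => ⟨480, 1330, 470, 1500, 0, 610⟩

/-- windows -/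
def a3z_3_wq : PC → Win
  | .one => ⟨-890, 290, -820, 330, -610, 0⟩
  | .two => ⟨0, 0, 0, 0, 0, 0⟩
  | .twoE => ⟨0, 0, 0, 0, 0, 0⟩
  | .thrR => ⟨0, 0, 0, 0, 0, 0⟩
  | .thrL => ⟨0, 0, 0, 0, 0, 0⟩
  | .threeE => ⟨0, 0, 0, 0, 0, 0⟩
  | .ring => ⟨480, 1330, 470, 1500, -430, 0⟩

/-- mode -/
def a3z_3_m0 : Mode where
  md := .V 300 1000
  lam := 750
  ct := 2000
  gp := fun
    | .one => [⟨276, [8]⟩, ⟨1585, [8]⟩, ⟨-234, [557955]⟩, ⟨-1175, [157379283158223566898, 557955, 8, 8, 36566471555, 36532925315]⟩, ⟨-1976, [0, 0, 0, 0, 9382398231330, 614803506230473506]⟩, ⟨-1976, [0, 0, 0, 0, 8, 8]⟩, ⟨-1976, [0, 0, 0, 0, 8, 8]⟩, e00]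
    | .two => [e00, e00, e00, e00, e00, e00]
    | .twoE => [e00, e00, e00, e00, e00, e00]
    | .thrR => [e00, e00, e00, e00, e00, e00]
    | .thrL => [e00, e00, e00, e00, e00, e00]
    | .threeE => [e00, e00, e00, e00, e00, e00]
    | .ring => [⟨1118, [557954]⟩, ⟨1118, [2179]⟩, ⟨1118, [8, 8, 8, 8, 8, 8]⟩, ⟨283, [0, 0, 8, 8, 143164194, 13]⟩, ⟨-618, [0, 0, 0, 0, 36649927458, 8]⟩, ⟨-2535, [0, 0, 0, 0, 2178, 2178]⟩]
  gq := fun
    | .one => [⟨224, [8]⟩, ⟨1631, [8]⟩, ⟨-286, [557955]⟩, ⟨-1187, [40204861130975685908530, 557955, 8, 8, 36566471555, 36566479747]⟩, ⟨-2022, [0, 0, 0, 0, 9382398231330, 614803506498908962]⟩, ⟨-2022, [0, 0, 0, 0, 8, 8]⟩, ⟨-2022, [0, 0, 0, 0, 8, 2179]⟩, e00]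
    | .two => [e00, e00, e00, e00, e00, e00]
    | .twoE => [e00, e00, e00, e00, e00, e00]
    | .thrR => [e00, e00, e00, e00, e00, e00]
    | .thrL => [e00, e00, e00, e00, e00, e00]
    | .threeE => [e00, e00, e00, e00, e00, e00]
    | .ring => [⟨1072, [2178]⟩, ⟨1072, [2179]⟩, ⟨1072, [8, 8, 8, 8, 8, 8]⟩, ⟨271, [0, 0, 8, 8, 143164194, 13]⟩, ⟨-670, [0, 0, 0, 0, 9382491465778, 8]⟩, ⟨-2489, [0, 0, 0, 0, 2178, 2178]⟩]

/-- mode -/
def a3z_3_m1 : Mode where
  md := .D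
  lam := 500
  ct := 12000
  gp := fun
    | .one => [e00, ⟨-2593, [172680318378422628610443559056162]⟩, ⟨-2593, [9360923699251]⟩, e00, e00, e00, e00, e00]
    | .two => [e00, e00, e00, e00, e00, e00]
    | .twoE => [e00, e00, e00, e00, e00, e00]
    | .thrR => [e00, e00, e00, e00, e00, e00]
    | .thrL => [e00, e00, e00, e00, e00, e00]
    | .threeE => [e00, e00, e00, e00, e00, e00]
    | .ring => [⟨1311, [2394197442398242]⟩, ⟨1311, [36532619283]⟩, e00, e00, e00, e00]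
  gq := fun
    | .one => [⟨-1575, [2179]⟩, ⟨-1915, [142837810]⟩, ⟨-1915, [9360923695155]⟩, e00, e00, e00, e00, e00]
    | .two => [e00, e00, e00, e00, e00, e00]
    | .twoE => [e00, e00, e00, e00, e00, e00]
    | .thrR => [e00, e00, e00, e00, e00, e00]
    | .thrL => [e00, e00, e00, e00, e00, e00]
    | .threeE => [e00, e00, e00, e00, e00, e00]
    | .ring => [⟨1989, [9352350172034]⟩, ⟨1989, [2394221239830547]⟩, e00, e00, e00, e00]

/-- mode -/
def a3z_3_m2 : Mode where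
  md := .V 550 1000
  lam := 250
  ct := 2000
  gp := fun
    | .one => [⟨-47, [2179]⟩, ⟨-217, [613484064085148466]⟩, ⟨-217, [557955]⟩, ⟨-888, [2396420816734258, 557955, 8, 8, 36566471555, 36532925315]⟩, e00, e00, e00, e00]
    | .two => [e00, e00, e00, e00, e00, e00]
    | .twoE => [e00, e00, e00, e00, e00, e00]
    | .thrR => [e00, e00, e00, e00, e00, e00]
    | .thrL => [e00, e00, e00, e00, e00, e00]
    | .threeE => [e00, e00, e00, e00, e00, e00]
    | .ring => [⟨591, [557954]⟩, ⟨591, [2179]⟩, ⟨-54, [143135363, 2179, 8, 8, 2179, 8]⟩, ⟨-54, [0, 0, 8, 8, 9361019142946, 13]⟩, e00, e00]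
  gq := fun
    | .one => [⟨-80, [8]⟩, ⟨-250, [36566472754]⟩, ⟨-250, [557443]⟩, ⟨-895, [156906123605066352690, 557955, 8, 8, 36566471555, 36566479747]⟩, e00, e00, e00, e00]
    | .two => [e00, e00, e00, e00, e00, e00]
    | .twoE => [e00, e00, e00, e00, e00, e00]
    | .thrR => [e00, e00, e00, e00, e00, e00]
    | .thrL => [e00, e00, e00, e00, e00, e00]
    | .threeE => [e00, e00, e00, e00, e00, e00]
    | .ring => [⟨584, [2178]⟩, ⟨584, [2179]⟩, ⟨-87, [36642653059, 2179, 8, 8, 2179, 8]⟩, ⟨-87, [0, 0, 8, 8, 9361019142946, 13]⟩, e00, e00]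

/-- mode -/
def a3z_3_m3 : Mode where
  md := .V 150 1000
  lam := 0
  ct := 1000
  gp := fun
    | .one => [e00, e00, e00, e00, e00, e00, e00, ⟨-3464, [0, 0, 0, 0, 2395321036974130, 36566108210]⟩]
    | .two => [e00, e00, e00, e00, e00, e00]
    | .twoE => [e00, e00, e00, e00, e00, e00]
    | .thrR => [e00, e00, e00, e00, e00, e00]
    | .thrL => [e00, e00, e00, e00, e00, e00]
    | .threeE => [e00, e00, e00, e00, e00, e00]
    | .ring => [⟨3542, [216178279775564170114]⟩, ⟨3542, [3298618771604355]⟩, ⟨3542, [9449334014339, 8, 8, 8, 8, 8]⟩, ⟨3542, [0, 0, 8, 8, 143164194, 13]⟩, ⟨3542, [0, 0, 0, 0, 8, 8]⟩, ⟨-225, [0, 0, 0, 0, 8, 8]⟩]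
  gq := fun
    | .one => [e00, e00, e00, e00, e00, e00, e00, ⟨-3546, [0, 0, 0, 0, 40168039694257416058930, 40168367179030024325170]⟩]
    | .two => [e00, e00, e00, e00, e00, e00]
    | .twoE => [e00, e00, e00, e00, e00, e00]
    | .thrR => [e00, e00, e00, e00, e00, e00]
    | .thrL => [e00, e00, e00, e00, e00, e00]
    | .threeE => [e00, e00, e00, e00, e00, e00]
    | .ring => [⟨3460, [2178]⟩, ⟨3460, [2179]⟩, ⟨3460, [8, 8, 8, 8, 8, 8]⟩, ⟨3460, [0, 0, 8, 8, 559138, 13]⟩, ⟨3460, [0, 0, 0, 0, 8, 8]⟩, ⟨-293, [0, 0, 0, 0, 8, 8]⟩]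

/-- mode -/
def a3z_3_m4 : Mode where
  md := .D
  lam := 1000
  ct := 14000
  gp := fun
    | .one => [⟨-2449, [157051840164444771122]⟩, e00, e00, e00, e00, e00, e00, e00]
    | .two => [e00, e00, e00, e00, e00, e00]
    | .twoE => [e00, e00, e00, e00, e00, e00]
    | .thrR => [e00, e00, e00, e00, e00, e00]
    | .thrL => [e00, e00, e00, e00, e00, e00]
    | .threeE => [e00, e00, e00, e00, e00, e00]
    | .ring => [e00, e00, e00, e00, e00, e00]
  gq := fun
    | .one => [e00, e00, e00, e00, e00, e00, e00, e00]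
    | .two => [e00, e00, e00, e00, e00, e00]
    | .twoE => [e00, e00, e00, e00, e00, e00]
    | .thrR => [e00, e00, e00, e00, e00, e00]
    | .thrL => [e00, e00, e00, e00, e00, e00]
    | .threeE => [e00, e00, e00, e00, e00, e00]
    | .ring => [⟨1925, [156906118564116857730]⟩, ⟨1925, [675944885602470615335481608243]⟩, e00, e00, e00, e00]

/-- mode -/
def a3z_3_m5 : Mode where
  md := .V 450 1000
  lam := 500
  ct := 2000
  gp := fun
    | .one => [e00, ⟨48, [2178]⟩, e00, e00, e00, e00, e00, e00]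
    | .two => [e00, e00, e00, e00, e00, e00]
    | .twoE => [e00, e00, e00, e00, e00, e00]
    | .thrR => [e00, e00, e00, e00, e00, e00]
    | .thrL => [e00, e00, e00, e00, e00, e00]
    | .threeE => [e00, e00, e00, e00, e00, e00]
    | .ring => [e00, e00, e00, e00, ⟨-679, [0, 0, 0, 0, 2396396372656930, 3458]⟩, e00]
  gq := fun
    | .one => [e00, ⟨75, [2179]⟩, e00, e00, e00, e00, e00, e00]
    | .two => [e00, e00, e00, e00, e00, e00]
    | .twoE => [e00, e00, e00, e00, e00, e00]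
    | .thrR => [e00, e00, e00, e00, e00, e00]
    | .thrL => [e00, e00, e00, e00, e00, e00]
    | .threeE => [e00, e00, e00, e00, e00, e00]
    | .ring => [e00, e00, e00, e00, ⟨-652, [0, 0, 0, 0, 156906398939665826594, 885378]⟩, e00]

/-- piece -/
def a3z_3 : Piece := ⟨7630, 7690, 0, 820, a3z_3_wp, a3z_3_wq, [a3z_3_m0, a3z_3_m1, a3z_3_m2, a3z_3_m3, a3z_3_m4, a3z_3_m5]⟩

set_option linter.defProp false

def a3z_3_r0_one0 : rowsOk stA3Z a3z_3 a3z_3_m0 false .one = true := by decide +kernel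

def a3z_3_r0_one1 : rowsOk stA3Z a3z_3 a3z_3_m0 true .one = true := by decide +kernel

def a3z_3_r0_two0 : rowsOk stA3Z a3z_3 a3z_3_m0 false .two = true := by decide +kernel

def a3z_3_r0_two1 : rowsOk stA3Z a3z_3 a3z_3_m0 true .two = true := by decide +kernel

def a3z_3_r0_twoE0 : rowsOk stA3Z a3z_3 a3z_3_m0 false .twoE = true := by decide +kernel

def a3z_3_r0_twoE1 : rowsOk stA3Z a3z_3 a3z_3_m0 true .twoE = true := by decide +kernel

def a3z_3_r0_thrR0 : rowsOk stA3Z a3z_3 a3z_3_m0 false .thrR = true := by decide +kernel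

def a3z_3_r0_thrR1 : rowsOk stA3Z a3z_3 a3z_3_m0 true .thrR = true := by decide +kernel

def a3z_3_r0_thrL0 : rowsOk stA3Z a3z_3 a3z_3_m0 false .thrL = true := by decide +kernel

def a3z_3_r0_thrL1 : rowsOk stA3Z a3z_3 a3z_3_m0 true .thrL = true := by decide +kernel

def a3z_3_r0_threeE0 : rowsOk stA3Z a3z_3 a3z_3_m0 false .threeE = true := by decide +kernel

def a3z_3_r0_threeE1 : rowsOk stA3Z a3z_3 a3z_3_m0 true .threeE = true := by decide +kernel

def a3z_3_r0_ring0 : rowsOk stA3Z a3z_3 a3z_3_m0 false .ring = true := by decide +kernel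

def a3z_3_r0_ring1 : rowsOk stA3Z a3z_3 a3z_3_m0 true .ring = true := by decide +kernel

def a3z_3_r1_one0 : rowsOk stA3Z a3z_3 a3z_3_m1 false .one = true := by decide +kernel

def a3z_3_r1_one1 : rowsOk stA3Z a3z_3 a3z_3_m1 true .one = true := by decide +kernel

def a3z_3_r1_two0 : rowsOk stA3Z a3z_3 a3z_3_m1 false .two = true := by decide +kernel

def a3z_3_r1_two1 : rowsOk stA3Z a3z_3 a3z_3_m1 true .two = true := by decide +kernel

def a3z_3_r1_twoE0 : rowsOk stA3Z a3z_3 a3z_3_m1 false .twoE = true := by decide +kernel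

def a3z_3_r1_twoE1 : rowsOk stA3Z a3z_3 a3z_3_m1 true .twoE = true := by decide +kernel

def a3z_3_r1_thrR0 : rowsOk stA3Z a3z_3 a3z_3_m1 false .thrR = true := by decide +kernel

def a3z_3_r1_thrR1 : rowsOk stA3Z a3z_3 a3z_3_m1 true .thrR = true := by decide +kernel

def a3z_3_r1_thrL0 : rowsOk stA3Z a3z_3 a3z_3_m1 false .thrL = true := by decide +kernel

def a3z_3_r1_thrL1 : rowsOk stA3Z a3z_3 a3z_3_m1 true .thrL = true := by decide +kernel

def a3z_3_r1_threeE0 : rowsOk stA3Z a3z_3 a3z_3_m1 false .threeE = true := by decide +kernel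

def a3z_3_r1_threeE1 : rowsOk stA3Z a3z_3 a3z_3_m1 true .threeE = true := by decide +kernel

def a3z_3_r1_ring0 : rowsOk stA3Z a3z_3 a3z_3_m1 false .ring = true := by decide +kernel

def a3z_3_r1_ring1 : rowsOk stA3Z a3z_3 a3z_3_m1 true .ring = true := by decide +kernel

def a3z_3_r2_one0 : rowsOk stA3Z a3z_3 a3z_3_m2 false .one = true := by decide +kernel

def a3z_3_r2_one1 : rowsOk stA3Z a3z_3 a3z_3_m2 true .one = true := by decide +kernel

def a3z_3_r2_two0 : rowsOk stA3Z a3z_3 a3z_3_m2 false .two = true := by decide +kernel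

def a3z_3_r2_two1 : rowsOk stA3Z a3z_3 a3z_3_m2 true .two = true := by decide +kernel

def a3z_3_r2_twoE0 : rowsOk stA3Z a3z_3 a3z_3_m2 false .twoE = true := by decide +kernel

def a3z_3_r2_twoE1 : rowsOk stA3Z a3z_3 a3z_3_m2 true .twoE = true := by decide +kernel

def a3z_3_r2_thrR0 : rowsOk stA3Z a3z_3 a3z_3_m2 false .thrR = true := by decide +kernel

def a3z_3_r2_thrR1 : rowsOk stA3Z a3z_3 a3z_3_m2 true .thrR = true := by decide +kernel

def a3z_3_r2_thrL0 : rowsOk stA3Z a3z_3 a3z_3_m2 false .thrL = true := by decide +kernel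

def a3z_3_r2_thrL1 : rowsOk stA3Z a3z_3 a3z_3_m2 true .thrL = true := by decide +kernel

def a3z_3_r2_threeE0 : rowsOk stA3Z a3z_3 a3z_3_m2 false .threeE = true := by decide +kernel

def a3z_3_r2_threeE1 : rowsOk stA3Z a3z_3 a3z_3_m2 true .threeE = true := by decide +kernel

def a3z_3_r2_ring0 : rowsOk stA3Z a3z_3 a3z_3_m2 false .ring = true := by decide +kernel

def a3z_3_r2_ring1 : rowsOk stA3Z a3z_3 a3z_3_m2 true .ring = true := by decide +kernel

def a3z_3_r3_one0 : rowsOk stA3Z a3z_3 a3z_3_m3 false .one = true := by decide +kernel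

def a3z_3_r3_one1 : rowsOk stA3Z a3z_3 a3z_3_m3 true .one = true := by decide +kernel

def a3z_3_r3_two0 : rowsOk stA3Z a3z_3 a3z_3_m3 false .two = true := by decide +kernel

def a3z_3_r3_two1 : rowsOk stA3Z a3z_3 a3z_3_m3 true .two = true := by decide +kernel

def a3z_3_r3_twoE0 : rowsOk stA3Z a3z_3 a3z_3_m3 false .twoE = true := by decide +kernel

def a3z_3_r3_twoE1 : rowsOk stA3Z a3z_3 a3z_3_m3 true .twoE = true := by decide +kernel

def a3z_3_r3_thrR0 : rowsOk stA3Z a3z_3 a3z_3_m3 false .thrR = true := by decide +kernel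

def a3z_3_r3_thrR1 : rowsOk stA3Z a3z_3 a3z_3_m3 true .thrR = true := by decide +kernel

def a3z_3_r3_thrL0 : rowsOk stA3Z a3z_3 a3z_3_m3 false .thrL = true := by decide +kernel

def a3z_3_r3_thrL1 : rowsOk stA3Z a3z_3 a3z_3_m3 true .thrL = true := by decide +kernel

def a3z_3_r3_threeE0 : rowsOk stA3Z a3z_3 a3z_3_m3 false .threeE = true := by decide +kernel

def a3z_3_r3_threeE1 : rowsOk stA3Z a3z_3 a3z_3_m3 true .threeE = true := by decide +kernel

def a3z_3_r3_ring0 : rowsOk stA3Z a3z_3 a3z_3_m3 false .ring = true := by decide +kernel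

def a3z_3_r3_ring1 : rowsOk stA3Z a3z_3 a3z_3_m3 true .ring = true := by decide +kernel

def a3z_3_r4_one0 : rowsOk stA3Z a3z_3 a3z_3_m4 false .one = true := by decide +kernel

def a3z_3_r4_one1 : rowsOk stA3Z a3z_3 a3z_3_m4 true .one = true := by decide +kernel

def a3z_3_r4_two0 : rowsOk stA3Z a3z_3 a3z_3_m4 false .two = true := by decide +kernel

def a3z_3_r4_two1 : rowsOk stA3Z a3z_3 a3z_3_m4 true .two = true := by decide +kernel

def a3z_3_r4_twoE0 : rowsOk stA3Z a3z_3 a3z_3_m4 false .twoE = true := by decide +kernel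

def a3z_3_r4_twoE1 : rowsOk stA3Z a3z_3 a3z_3_m4 true .twoE = true := by decide +kernel

def a3z_3_r4_thrR0 : rowsOk stA3Z a3z_3 a3z_3_m4 false .thrR = true := by decide +kernel

def a3z_3_r4_thrR1 : rowsOk stA3Z a3z_3 a3z_3_m4 true .thrR = true := by decide +kernel

def a3z_3_r4_thrL0 : rowsOk stA3Z a3z_3 a3z_3_m4 false .thrL = true := by decide +kernel

def a3z_3_r4_thrL1 : rowsOk stA3Z a3z_3 a3z_3_m4 true .thrL = true := by decide +kernel

def a3z_3_r4_threeE0 : rowsOk stA3Z a3z_3 a3z_3_m4 false .threeE = true := by decide +kernel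

def a3z_3_r4_threeE1 : rowsOk stA3Z a3z_3 a3z_3_m4 true .threeE = true := by decide +kernel

def a3z_3_r4_ring0 : rowsOk stA3Z a3z_3 a3z_3_m4 false .ring = true := by decide +kernel

def a3z_3_r4_ring1 : rowsOk stA3Z a3z_3 a3z_3_m4 true .ring = true := by decide +kernel

def a3z_3_r5_one0 : rowsOk stA3Z a3z_3 a3z_3_m5 false .one = true := by decide +kernel

def a3z_3_r5_one1 : rowsOk stA3Z a3z_3 a3z_3_m5 true .one = true := by decide +kernel

def a3z_3_r5_two0 : rowsOk stA3Z a3z_3 a3z_3_m5 false .two = true := by decide +kernel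

def a3z_3_r5_two1 : rowsOk stA3Z a3z_3 a3z_3_m5 true .two = true := by decide +kernel

def a3z_3_r5_twoE0 : rowsOk stA3Z a3z_3 a3z_3_m5 false .twoE = true := by decide +kernel

def a3z_3_r5_twoE1 : rowsOk stA3Z a3z_3 a3z_3_m5 true .twoE = true := by decide +kernel

def a3z_3_r5_thrR0 : rowsOk stA3Z a3z_3 a3z_3_m5 false .thrR = true := by decide +kernel

def a3z_3_r5_thrR1 : rowsOk stA3Z a3z_3 a3z_3_m5 true .thrR = true := by decide +kernel

def a3z_3_r5_thrL0 : rowsOk stA3Z a3z_3 a3z_3_m5 false .thrL = true := by decide +kernel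

def a3z_3_r5_thrL1 : rowsOk stA3Z a3z_3 a3z_3_m5 true .thrL = true := by decide +kernel

def a3z_3_r5_threeE0 : rowsOk stA3Z a3z_3 a3z_3_m5 false .threeE = true := by decide +kernel

def a3z_3_r5_threeE1 : rowsOk stA3Z a3z_3 a3z_3_m5 true .threeE = true := by decide +kernel

def a3z_3_r5_ring0 : rowsOk stA3Z a3z_3 a3z_3_m5 false .ring = true := by decide +kernel

def a3z_3_r5_ring1 : rowsOk stA3Z a3z_3 a3z_3_m5 true .ring = true := by decide +kernel

theorem a3z_3_r0 : allRows stA3Z a3z_3 a3z_3_m0 = true := by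
  refine allRows_of fun P => ?_
  cases P
  exacts [⟨a3z_3_r0_one0, a3z_3_r0_one1⟩,
    ⟨a3z_3_r0_two0, a3z_3_r0_two1⟩,
    ⟨a3z_3_r0_twoE0, a3z_3_r0_twoE1⟩,
    ⟨a3z_3_r0_thrR0, a3z_3_r0_thrR1⟩,
    ⟨a3z_3_r0_thrL0, a3z_3_r0_thrL1⟩,
    ⟨a3z_3_r0_threeE0, a3z_3_r0_threeE1⟩,
    ⟨a3z_3_r0_ring0, a3z_3_r0_ring1⟩]

theorem a3z_3_r1 : allRows stA3Z a3z_3 a3z_3_m1 = true := by
  refine allRows_of fun P => ?_
  cases P
  exacts [⟨a3z_3_r1_one0, a3z_3_r1_one1⟩,
    ⟨a3z_3_r1_two0, a3z_3_r1_two1⟩,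
    ⟨a3z_3_r1_twoE0, a3z_3_r1_twoE1⟩,
    ⟨a3z_3_r1_thrR0, a3z_3_r1_thrR1⟩,
    ⟨a3z_3_r1_thrL0, a3z_3_r1_thrL1⟩,
    ⟨a3z_3_r1_threeE0, a3z_3_r1_threeE1⟩,
    ⟨a3z_3_r1_ring0, a3z_3_r1_ring1⟩]

theorem a3z_3_r2 : allRows stA3Z a3z_3 a3z_3_m2 = true := by
  refine allRows_of fun P => ?_
  cases P
  exacts [⟨a3z_3_r2_one0, a3z_3_r2_one1⟩,
    ⟨a3z_3_r2_two0, a3z_3_r2_two1⟩,
    ⟨a3z_3_r2_twoE0, a3z_3_r2_twoE1⟩,
    ⟨a3z_3_r2_thrR0, a3z_3_r2_thrR1⟩,
    ⟨a3z_3_r2_thrL0, a3z_3_r2_thrL1⟩,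
    ⟨a3z_3_r2_threeE0, a3z_3_r2_threeE1⟩,
    ⟨a3z_3_r2_ring0, a3z_3_r2_ring1⟩]

theorem a3z_3_r3 : allRows stA3Z a3z_3 a3z_3_m3 = true := by
  refine allRows_of fun P => ?_
  cases P
  exacts [⟨a3z_3_r3_one0, a3z_3_r3_one1⟩,
    ⟨a3z_3_r3_two0, a3z_3_r3_two1⟩,
    ⟨a3z_3_r3_twoE0, a3z_3_r3_twoE1⟩,
    ⟨a3z_3_r3_thrR0, a3z_3_r3_thrR1⟩,
    ⟨a3z_3_r3_thrL0, a3z_3_r3_thrL1⟩,
    ⟨a3z_3_r3_threeE0, a3z_3_r3_threeE1⟩,
    ⟨a3z_3_r3_ring0, a3z_3_r3_ring1⟩]

theorem a3z_3_r4 : allRows stA3Z a3z_3 a3z_3_m4 = true := by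
  refine allRows_of fun P => ?_
  cases P
  exacts [⟨a3z_3_r4_one0, a3z_3_r4_one1⟩,
    ⟨a3z_3_r4_two0, a3z_3_r4_two1⟩,
    ⟨a3z_3_r4_twoE0, a3z_3_r4_twoE1⟩,
    ⟨a3z_3_r4_thrR0, a3z_3_r4_thrR1⟩,
    ⟨a3z_3_r4_thrL0, a3z_3_r4_thrL1⟩,
    ⟨a3z_3_r4_threeE0, a3z_3_r4_threeE1⟩,
    ⟨a3z_3_r4_ring0, a3z_3_r4_ring1⟩]

theorem a3z_3_r5 : allRows stA3Z a3z_3 a3z_3_m5 = true := by
  refine allRows_of fun P => ?_
  cases P
  exacts [⟨a3z_3_r5_one0, a3z_3_r5_one1⟩,
    ⟨a3z_3_r5_two0, a3z_3_r5_two1⟩,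
    ⟨a3z_3_r5_twoE0, a3z_3_r5_twoE1⟩,
    ⟨a3z_3_r5_thrR0, a3z_3_r5_thrR1⟩,
    ⟨a3z_3_r5_thrL0, a3z_3_r5_thrL1⟩,
    ⟨a3z_3_r5_threeE0, a3z_3_r5_threeE1⟩,
    ⟨a3z_3_r5_ring0, a3z_3_r5_ring1⟩]

theorem a3z_3_ok : a3z_3.ok stA3Z = true := by
  have h : (PC.all.all fun P => PC.all.all fun Q => pairOk stA3Z a3z_3 P Q) = true := by decide +kernel
  have d0 : mdOk stA3Z a3z_3_m0.md = true := by decide +kernel
  have d1 : mdOk stA3Z a3z_3_m1.md = true := by decide +kernel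
  have d2 : mdOk stA3Z a3z_3_m2.md = true := by decide +kernel
  have d3 : mdOk stA3Z a3z_3_m3.md = true := by decide +kernel
  have d4 : mdOk stA3Z a3z_3_m4.md = true := by decide +kernel
  have d5 : mdOk stA3Z a3z_3_m5.md = true := by decide +kernel
  unfold Piece.ok
  rw [h, Bool.true_and]
  show List.all [a3z_3_m0, a3z_3_m1, a3z_3_m2, a3z_3_m3, a3z_3_m4, a3z_3_m5] _ = true
  rw [List.all_eq_true]
  intro m hm
  simp only [List.mem_cons, List.not_mem_nil, or_false] at hm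
  rcases hm with rfl | rfl | rfl | rfl | rfl | rfl
  · rw [a3z_3_r0, d0]; rfl
  · rw [a3z_3_r1, d1]; rfl
  · rw [a3z_3_r2, d2]; rfl
  · rw [a3z_3_r3, d3]; rfl
  · rw [a3z_3_r4, d4]; rfl
  · rw [a3z_3_r5, d5]; rfl

end OR

end Pool.Agent.Work.MP_b30479_gtS.G2

end

section

set_option deprecated.oldSectionVars true

namespace Pool.Agent.Work.MP_b30479_gtS.G2

namespace OR

/-- windows -/
def s2f_1_wp : PC → Win
  | .one => ⟨0, 0, 0, 0, 0, 0⟩
  | .two => ⟨-230, 780, -360, 760, -660, 530⟩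
  | .twoE => ⟨-790, -140, -520, 270, -160, 820⟩
  | .thrR => ⟨100, 920, -70, 910, -630, 480⟩
  | .thrL => ⟨100, 920, -70, 910, -630, 480⟩
  | .threeE => ⟨-20, 610, 0, 860, -380, 650⟩
  | .ring => ⟨270, 1300, 110, 1120, -820, 440⟩

/-- windows -/
def s2f_1_wq : PC → Win
  | .one => ⟨0, 0, 0, 0, 0, 0⟩
  | .two => ⟨-230, 780, -360, 760, -660, 530⟩
  | .twoE => ⟨-790, -140, -520, 270, -160, 820⟩
  | .thrR => ⟨100, 920, -70, 910, -630, 480⟩
  | .thrL => ⟨100, 920, -70, 910, -630, 480⟩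
  | .threeE => ⟨-20, 610, 0, 860, -380, 650⟩
  | .ring => ⟨270, 1300, 110, 1120, -820, 440⟩

/-- mode -/
def s2f_1_m0 : Mode where
  md := .D
  lam := 0
  ct := 0
  gp := fun
    | .one => [e00, e00, e00, e00, e00, e00, e00, e00]
    | .two => [e00, e00, e00, e00, e00, e00]
    | .twoE => [e00, e00, e00, e00, e00]
    | .thrR => [e00, e00, e00, e00, e00, ⟨-4764, [40168366615968315777698]⟩]
    | .thrL => [e00, e00, e00, e00, e00]
    | .threeE => [e00, e00, e00, e00, e00, e00]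
    | .ring => [e00, e00, e00, e00, e00, ⟨-4865, [612914545330070178]⟩]
  gq := fun
    | .one => [e00, e00, e00, e00, e00, e00, e00, e00]
    | .two => [⟨4861, [829651348629848450]⟩, ⟨4861, [12659441500545]⟩, ⟨4861, [156921235268451185025]⟩, ⟨4760, [2634861059047328832939393810]⟩, ⟨4760, [2178]⟩, ⟨4760, [2177]⟩]
    | .twoE => [⟨4760, [8]⟩, ⟨4760, [8]⟩, ⟨4760, [8]⟩, ⟨4760, [8]⟩, ⟨4760, [8]⟩]
    | .thrR => [e00, e00, e00, e00, ⟨4861, [559122]⟩, ⟨4861, [2394197442332706]⟩]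
    | .thrL => [e00, e00, e00, e00, ⟨4760, [2177]⟩]
    | .threeE => [⟨4760, [2177]⟩, ⟨4760, [2177]⟩, ⟨4760, [2177]⟩, ⟨4760, [2177]⟩, ⟨4760, [2178]⟩, ⟨4760, [8]⟩]
    | .ring => [e00, e00, e00, e00, e00, ⟨4760, [2394221222987794]⟩]

/-- mode -/
def s2f_1_m1 : Mode where
  md := .V 250 1000
  lam := 250
  ct := 0
  gp := fun
    | .one => [e00, e00, e00, e00, e00, e00, e00, e00]
    | .two => [e00, e00, e00, e00, e00, e00]
    | .twoE => [e00, e00, e00, e00, e00]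
    | .thrR => [e00, e00, e00, e00, e00, ⟨-614, [21964590494001956765847284959751117147319609653105388095078553946463390491613947786508981514033171187302220391808353018530]⟩]
    | .thrL => [e00, e00, e00, e00, e00]
    | .threeE => [e00, e00, e00, e00, e00, e00]
    | .ring => [e00, e00, e00, e00, e00, ⟨-676, [38924611667648224479192853580090427663515103530875012920728595709512478114970322424191757337779236232151130951185731423417244119370522038803255112482509916416720181532741554249039109273032958626]⟩]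
  gq := fun
    | .one => [e00, e00, e00, e00, e00, e00, e00, e00]
    | .two => [⟨322, [613483724866617905]⟩, ⟨322, [2177]⟩, ⟨322, [2177]⟩, e00, e00, e00]
    | .twoE => [e00, e00, e00, e00, e00]
    | .thrR => [⟨295, [36566108209]⟩, ⟨295, [557953]⟩, ⟨295, [2177]⟩, ⟨295, [2395321020200993]⟩, e00, e00]
    | .thrL => [⟨295, [9360923703329]⟩, ⟨295, [2177]⟩, ⟨295, [2177]⟩, ⟨295, [9361018751009]⟩, e00]
    | .threeE => [e00, e00, e00, e00, e00, e00]
    | .ring => [⟨232, [282752735118037598293170760698496776983858083081331675937]⟩, ⟨232, [59876848321352753258104849938528273]⟩, ⟨232, [59876848321352753258104849938528273]⟩, ⟨232, [1335290310837857116024319325580369706566551727748292215955352198029753698496801]⟩, ⟨232, [12442928193039147950882988983269829744296505913874]⟩, e00]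

/-- piece -/
def s2f_1 : Piece := ⟨3150, 3230, -820, 820, s2f_1_wp, s2f_1_wq, [s2f_1_m0, s2f_1_m1]⟩

set_option linter.defProp false

def s2f_1_r0_one0 : rowsOk stS2F s2f_1 s2f_1_m0 false .one = true := by decide +kernel

def s2f_1_r0_one1 : rowsOk stS2F s2f_1 s2f_1_m0 true .one = true := by decide +kernel

def s2f_1_r0_two0 : rowsOk stS2F s2f_1 s2f_1_m0 false .two = true := by decide +kernel

def s2f_1_r0_two1 : rowsOk stS2F s2f_1 s2f_1_m0 true .two = true := by decide +kernel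

def s2f_1_r0_twoE0 : rowsOk stS2F s2f_1 s2f_1_m0 false .twoE = true := by decide +kernel

def s2f_1_r0_twoE1 : rowsOk stS2F s2f_1 s2f_1_m0 true .twoE = true := by decide +kernel

def s2f_1_r0_thrR0 : rowsOk stS2F s2f_1 s2f_1_m0 false .thrR = true := by decide +kernel

def s2f_1_r0_thrR1 : rowsOk stS2F s2f_1 s2f_1_m0 true .thrR = true := by decide +kernel

def s2f_1_r0_thrL0 : rowsOk stS2F s2f_1 s2f_1_m0 false .thrL = true := by decide +kernel

def s2f_1_r0_thrL1 : rowsOk stS2F s2f_1 s2f_1_m0 true .thrL = true := by decide +kernel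

def s2f_1_r0_threeE0 : rowsOk stS2F s2f_1 s2f_1_m0 false .threeE = true := by decide +kernel

def s2f_1_r0_threeE1 : rowsOk stS2F s2f_1 s2f_1_m0 true .threeE = true := by decide +kernel

def s2f_1_r0_ring0 : rowsOk stS2F s2f_1 s2f_1_m0 false .ring = true := by decide +kernel

def s2f_1_r0_ring1 : rowsOk stS2F s2f_1 s2f_1_m0 true .ring = true := by decide +kernel

def s2f_1_r1_one0 : rowsOk stS2F s2f_1 s2f_1_m1 false .one = true := by decide +kernel

def s2f_1_r1_one1 : rowsOk stS2F s2f_1 s2f_1_m1 true .one = true := by decide +kernel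

def s2f_1_r1_two0 : rowsOk stS2F s2f_1 s2f_1_m1 false .two = true := by decide +kernel

def s2f_1_r1_two1 : rowsOk stS2F s2f_1 s2f_1_m1 true .two = true := by decide +kernel

def s2f_1_r1_twoE0 : rowsOk stS2F s2f_1 s2f_1_m1 false .twoE = true := by decide +kernel

def s2f_1_r1_twoE1 : rowsOk stS2F s2f_1 s2f_1_m1 true .twoE = true := by decide +kernel

def s2f_1_r1_thrR0 : rowsOk stS2F s2f_1 s2f_1_m1 false .thrR = true := by decide +kernel

def s2f_1_r1_thrR1 : rowsOk stS2F s2f_1 s2f_1_m1 true .thrR = true := by decide +kernel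

def s2f_1_r1_thrL0 : rowsOk stS2F s2f_1 s2f_1_m1 false .thrL = true := by decide +kernel

def s2f_1_r1_thrL1 : rowsOk stS2F s2f_1 s2f_1_m1 true .thrL = true := by decide +kernel

def s2f_1_r1_threeE0 : rowsOk stS2F s2f_1 s2f_1_m1 false .threeE = true := by decide +kernel

def s2f_1_r1_threeE1 : rowsOk stS2F s2f_1 s2f_1_m1 true .threeE = true := by decide +kernel

def s2f_1_r1_ring0 : rowsOk stS2F s2f_1 s2f_1_m1 false .ring = true := by decide +kernel

def s2f_1_r1_ring1 : rowsOk stS2F s2f_1 s2f_1_m1 true .ring = true := by decide +kernel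

theorem s2f_1_r0 : allRows stS2F s2f_1 s2f_1_m0 = true := by
  refine allRows_of fun P => ?_
  cases P
  exacts [⟨s2f_1_r0_one0, s2f_1_r0_one1⟩,
    ⟨s2f_1_r0_two0, s2f_1_r0_two1⟩,
    ⟨s2f_1_r0_twoE0, s2f_1_r0_twoE1⟩,
    ⟨s2f_1_r0_thrR0, s2f_1_r0_thrR1⟩,
    ⟨s2f_1_r0_thrL0, s2f_1_r0_thrL1⟩,
    ⟨s2f_1_r0_threeE0, s2f_1_r0_threeE1⟩,
    ⟨s2f_1_r0_ring0, s2f_1_r0_ring1⟩]

theorem s2f_1_r1 : allRows stS2F s2f_1 s2f_1_m1 = true := by
  refine allRows_of fun P => ?_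
  cases P
  exacts [⟨s2f_1_r1_one0, s2f_1_r1_one1⟩,
    ⟨s2f_1_r1_two0, s2f_1_r1_two1⟩,
    ⟨s2f_1_r1_twoE0, s2f_1_r1_twoE1⟩,
    ⟨s2f_1_r1_thrR0, s2f_1_r1_thrR1⟩,
    ⟨s2f_1_r1_thrL0, s2f_1_r1_thrL1⟩,
    ⟨s2f_1_r1_threeE0, s2f_1_r1_threeE1⟩,
    ⟨s2f_1_r1_ring0, s2f_1_r1_ring1⟩]

theorem s2f_1_ok : s2f_1.ok stS2F = true := by
  have h : (PC.all.all fun P => PC.all.all fun Q => pairOk stS2F s2f_1 P Q) = true := by decide +kernel
  have d0 : mdOk stS2F s2f_1_m0.md = true := by decide +kernel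
  have d1 : mdOk stS2F s2f_1_m1.md = true := by decide +kernel
  unfold Piece.ok
  rw [h, Bool.true_and]
  show List.all [s2f_1_m0, s2f_1_m1] _ = true
  rw [List.all_eq_true]
  intro m hm
  simp only [List.mem_cons, List.not_mem_nil, or_false] at hm
  rcases hm with rfl | rfl
  · rw [s2f_1_r0, d0]; rfl
  · rw [s2f_1_r1, d1]; rfl

end OR

end Pool.Agent.Work.MP_b30479_gtS.G2

end
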