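import Pool.Agent.Work.MP_b30479_gt.TBS.G2.OS2f_14d
import Pool.Agent.Work.MP_b30479_gt.TBS.G2.OTab

section

set_option deprecated.oldSectionVars true

namespace Pool.Agent.Work.MP_b30479_gtS.G2

namespace OR

set_option linter.defProp false

def s2f_14_r0_one0 : rowsOk stS2F s2f_14 s2f_14_m0 false .one = true := by decide +kernel

def s2f_14_r0_one1 : rowsOk stS2F s2f_14 s2f_14_m0 true .one = true := by decide +kernel

def s2f_14_r0_two0 : rowsOk stS2F s2f_14 s2f_14_m0 false .two = true := by decide +kernel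

def s2f_14_r0_two1 : rowsOk stS2F s2f_14 s2f_14_m0 true .two = true := by decide +kernel

def s2f_14_r0_twoE0 : rowsOk stS2F s2f_14 s2f_14_m0 false .twoE = true := by decide +kernel

def s2f_14_r0_twoE1 : rowsOk stS2F s2f_14 s2f_14_m0 true .twoE = true := by decide +kernel

def s2f_14_r0_thrR0 : rowsOk stS2F s2f_14 s2f_14_m0 false .thrR = true := by decide +kernel

def s2f_14_r0_thrR1 : rowsOk stS2F s2f_14 s2f_14_m0 true .thrR = true := by decide +kernel

def s2f_14_r0_thrL0 : rowsOk stS2F s2f_14 s2f_14_m0 false .thrL = true := by decide +kernel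

def s2f_14_r0_thrL1 : rowsOk stS2F s2f_14 s2f_14_m0 true .thrL = true := by decide +kernel

def s2f_14_r0_threeE0 : rowsOk stS2F s2f_14 s2f_14_m0 false .threeE = true := by decide +kernel

def s2f_14_r0_threeE1 : rowsOk stS2F s2f_14 s2f_14_m0 true .threeE = true := by decide +kernel

def s2f_14_r0_ring0 : rowsOk stS2F s2f_14 s2f_14_m0 false .ring = true := by decide +kernel

def s2f_14_r0_ring1_0 : cellOk stS2F s2f_14 s2f_14_m0 true .ring ((stS2F.bins .ring).getD 0 b00)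
    ((s2f_14_m0.g true .ring).getD 0 e00) = true := by decide +kernel

def s2f_14_r0_ring1_1 : cellOk stS2F s2f_14 s2f_14_m0 true .ring ((stS2F.bins .ring).getD 1 b00)
    ((s2f_14_m0.g true .ring).getD 1 e00) = true := by decide +kernel

def s2f_14_r0_ring1_2 : cellOk stS2F s2f_14 s2f_14_m0 true .ring ((stS2F.bins .ring).getD 2 b00)
    ((s2f_14_m0.g true .ring).getD 2 e00) = true := by decide +kernel

def s2f_14_r0_ring1_3 : cellOk stS2F s2f_14 s2f_14_m0 true .ring ((stS2F.bins .ring).getD 3 b00)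
    ((s2f_14_m0.g true .ring).getD 3 e00) = true := by decide +kernel

def s2f_14_r0_ring1_4 : cellOk stS2F s2f_14 s2f_14_m0 true .ring ((stS2F.bins .ring).getD 4 b00)
    ((s2f_14_m0.g true .ring).getD 4 e00) = true := by decide +kernel

def s2f_14_r0_ring1_5 : cellOk stS2F s2f_14 s2f_14_m0 true .ring ((stS2F.bins .ring).getD 5 b00)
    ((s2f_14_m0.g true .ring).getD 5 e00) = true := by decide +kernel

theorem s2f_14_r0_ring1 : rowsOk stS2F s2f_14 s2f_14_m0 true .ring = true := by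
  refine rowsOk_of fun i hi => ?_
  have hi : i < 6 := hi
  interval_cases i
  exacts [s2f_14_r0_ring1_0, s2f_14_r0_ring1_1, s2f_14_r0_ring1_2, s2f_14_r0_ring1_3, s2f_14_r0_ring1_4, s2f_14_r0_ring1_5]

def s2f_14_r1_one0 : rowsOk stS2F s2f_14 s2f_14_m1 false .one = true := by decide +kernel

def s2f_14_r1_one1 : rowsOk stS2F s2f_14 s2f_14_m1 true .one = true := by decide +kernel

def s2f_14_r1_two0_0 : cellOk stS2F s2f_14 s2f_14_m1 false .two ((stS2F.bins .two).getD 0 b00)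
    ((s2f_14_m1.g false .two).getD 0 e00) = true := by decide +kernel

def s2f_14_r1_two0_1 : cellOk stS2F s2f_14 s2f_14_m1 false .two ((stS2F.bins .two).getD 1 b00)
    ((s2f_14_m1.g false .two).getD 1 e00) = true := by decide +kernel

def s2f_14_r1_two0_2 : cellOk stS2F s2f_14 s2f_14_m1 false .two ((stS2F.bins .two).getD 2 b00)
    ((s2f_14_m1.g false .two).getD 2 e00) = true := by decide +kernel

def s2f_14_r1_two0_3 : cellOk stS2F s2f_14 s2f_14_m1 false .two ((stS2F.bins .two).getD 3 b00)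
    ((s2f_14_m1.g false .two).getD 3 e00) = true := by decide +kernel

def s2f_14_r1_two0_4 : cellOk stS2F s2f_14 s2f_14_m1 false .two ((stS2F.bins .two).getD 4 b00)
    ((s2f_14_m1.g false .two).getD 4 e00) = true := by decide +kernel

def s2f_14_r1_two0_5 : cellOk stS2F s2f_14 s2f_14_m1 false .two ((stS2F.bins .two).getD 5 b00)
    ((s2f_14_m1.g false .two).getD 5 e00) = true := by decide +kernel

theorem s2f_14_r1_two0 : rowsOk stS2F s2f_14 s2f_14_m1 false .two = true := by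
  refine rowsOk_of fun i hi => ?_
  have hi : i < 6 := hi
  interval_cases i
  exacts [s2f_14_r1_two0_0, s2f_14_r1_two0_1, s2f_14_r1_two0_2, s2f_14_r1_two0_3, s2f_14_r1_two0_4, s2f_14_r1_two0_5]

def s2f_14_r1_two1_0 : cellOk stS2F s2f_14 s2f_14_m1 true .two ((stS2F.bins .two).getD 0 b00)
    ((s2f_14_m1.g true .two).getD 0 e00) = true := by decide +kernel

def s2f_14_r1_two1_1 : cellOk stS2F s2f_14 s2f_14_m1 true .two ((stS2F.bins .two).getD 1 b00)
    ((s2f_14_m1.g true .two).getD 1 e00) = true := by decide +kernel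

def s2f_14_r1_two1_2 : cellOk stS2F s2f_14 s2f_14_m1 true .two ((stS2F.bins .two).getD 2 b00)
    ((s2f_14_m1.g true .two).getD 2 e00) = true := by decide +kernel

def s2f_14_r1_two1_3 : cellOk stS2F s2f_14 s2f_14_m1 true .two ((stS2F.bins .two).getD 3 b00)
    ((s2f_14_m1.g true .two).getD 3 e00) = true := by decide +kernel

def s2f_14_r1_two1_4 : cellOk stS2F s2f_14 s2f_14_m1 true .two ((stS2F.bins .two).getD 4 b00)
    ((s2f_14_m1.g true .two).getD 4 e00) = true := by decide +kernel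

def s2f_14_r1_two1_5 : cellOk stS2F s2f_14 s2f_14_m1 true .two ((stS2F.bins .two).getD 5 b00)
    ((s2f_14_m1.g true .two).getD 5 e00) = true := by decide +kernel

theorem s2f_14_r1_two1 : rowsOk stS2F s2f_14 s2f_14_m1 true .two = true := by
  refine rowsOk_of fun i hi => ?_
  have hi : i < 6 := hi
  interval_cases i
  exacts [s2f_14_r1_two1_0, s2f_14_r1_two1_1, s2f_14_r1_two1_2, s2f_14_r1_two1_3, s2f_14_r1_two1_4, s2f_14_r1_two1_5]

def s2f_14_r1_twoE0 : rowsOk stS2F s2f_14 s2f_14_m1 false .twoE = true := by decide +kernel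

def s2f_14_r1_twoE1 : rowsOk stS2F s2f_14 s2f_14_m1 true .twoE = true := by decide +kernel

def s2f_14_r1_thrR0_0 : cellOk stS2F s2f_14 s2f_14_m1 false .thrR ((stS2F.bins .thrR).getD 0 b00)
    ((s2f_14_m1.g false .thrR).getD 0 e00) = true := by decide +kernel

def s2f_14_r1_thrR0_1 : cellOk stS2F s2f_14 s2f_14_m1 false .thrR ((stS2F.bins .thrR).getD 1 b00)
    ((s2f_14_m1.g false .thrR).getD 1 e00) = true := by decide +kernel

def s2f_14_r1_thrR0_2 : cellOk stS2F s2f_14 s2f_14_m1 false .thrR ((stS2F.bins .thrR).getD 2 b00)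
    ((s2f_14_m1.g false .thrR).getD 2 e00) = true := by decide +kernel

def s2f_14_r1_thrR0_3 : cellOk stS2F s2f_14 s2f_14_m1 false .thrR ((stS2F.bins .thrR).getD 3 b00)
    ((s2f_14_m1.g false .thrR).getD 3 e00) = true := by decide +kernel

def s2f_14_r1_thrR0_4 : cellOk stS2F s2f_14 s2f_14_m1 false .thrR ((stS2F.bins .thrR).getD 4 b00)
    ((s2f_14_m1.g false .thrR).getD 4 e00) = true := by decide +kernel

def s2f_14_r1_thrR0_5 : cellOk stS2F s2f_14 s2f_14_m1 false .thrR ((stS2F.bins .thrR).getD 5 b00)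
    ((s2f_14_m1.g false .thrR).getD 5 e00) = true := by decide +kernel

theorem s2f_14_r1_thrR0 : rowsOk stS2F s2f_14 s2f_14_m1 false .thrR = true := by
  refine rowsOk_of fun i hi => ?_
  have hi : i < 6 := hi
  interval_cases i
  exacts [s2f_14_r1_thrR0_0, s2f_14_r1_thrR0_1, s2f_14_r1_thrR0_2, s2f_14_r1_thrR0_3, s2f_14_r1_thrR0_4, s2f_14_r1_thrR0_5]

end OR

end Pool.Agent.Work.MP_b30479_gtS.G2

end

section

set_option deprecated.oldSectionVars true

namespace Pool.Agent.Work.MP_b30479_gtS.G2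

namespace OR

set_option linter.defProp false

def s2f_14_r1_thrR1_0 : cellOk stS2F s2f_14 s2f_14_m1 true .thrR ((stS2F.bins .thrR).getD 0 b00)
    ((s2f_14_m1.g true .thrR).getD 0 e00) = true := by decide +kernel

def s2f_14_r1_thrR1_1 : cellOk stS2F s2f_14 s2f_14_m1 true .thrR ((stS2F.bins .thrR).getD 1 b00)
    ((s2f_14_m1.g true .thrR).getD 1 e00) = true := by decide +kernel

def s2f_14_r1_thrR1_2 : cellOk stS2F s2f_14 s2f_14_m1 true .thrR ((stS2F.bins .thrR).getD 2 b00)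
    ((s2f_14_m1.g true .thrR).getD 2 e00) = true := by decide +kernel

def s2f_14_r1_thrR1_3 : cellOk stS2F s2f_14 s2f_14_m1 true .thrR ((stS2F.bins .thrR).getD 3 b00)
    ((s2f_14_m1.g true .thrR).getD 3 e00) = true := by decide +kernel

def s2f_14_r1_thrR1_4 : cellOk stS2F s2f_14 s2f_14_m1 true .thrR ((stS2F.bins .thrR).getD 4 b00)
    ((s2f_14_m1.g true .thrR).getD 4 e00) = true := by decide +kernel

def s2f_14_r1_thrR1_5 : cellOk stS2F s2f_14 s2f_14_m1 true .thrR ((stS2F.bins .thrR).getD 5 b00)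
    ((s2f_14_m1.g true .thrR).getD 5 e00) = true := by decide +kernel

theorem s2f_14_r1_thrR1 : rowsOk stS2F s2f_14 s2f_14_m1 true .thrR = true := by
  refine rowsOk_of fun i hi => ?_
  have hi : i < 6 := hi
  interval_cases i
  exacts [s2f_14_r1_thrR1_0, s2f_14_r1_thrR1_1, s2f_14_r1_thrR1_2, s2f_14_r1_thrR1_3, s2f_14_r1_thrR1_4, s2f_14_r1_thrR1_5]

def s2f_14_r1_thrL0_0 : cellOk stS2F s2f_14 s2f_14_m1 false .thrL ((stS2F.bins .thrL).getD 0 b00)
    ((s2f_14_m1.g false .thrL).getD 0 e00) = true := by decide +kernel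

def s2f_14_r1_thrL0_1 : cellOk stS2F s2f_14 s2f_14_m1 false .thrL ((stS2F.bins .thrL).getD 1 b00)
    ((s2f_14_m1.g false .thrL).getD 1 e00) = true := by decide +kernel

def s2f_14_r1_thrL0_2 : cellOk stS2F s2f_14 s2f_14_m1 false .thrL ((stS2F.bins .thrL).getD 2 b00)
    ((s2f_14_m1.g false .thrL).getD 2 e00) = true := by decide +kernel

def s2f_14_r1_thrL0_3 : cellOk stS2F s2f_14 s2f_14_m1 false .thrL ((stS2F.bins .thrL).getD 3 b00)
    ((s2f_14_m1.g false .thrL).getD 3 e00) = true := by decide +kernel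

def s2f_14_r1_thrL0_4 : cellOk stS2F s2f_14 s2f_14_m1 false .thrL ((stS2F.bins .thrL).getD 4 b00)
    ((s2f_14_m1.g false .thrL).getD 4 e00) = true := by decide +kernel

theorem s2f_14_r1_thrL0 : rowsOk stS2F s2f_14 s2f_14_m1 false .thrL = true := by
  refine rowsOk_of fun i hi => ?_
  have hi : i < 5 := hi
  interval_cases i
  exacts [s2f_14_r1_thrL0_0, s2f_14_r1_thrL0_1, s2f_14_r1_thrL0_2, s2f_14_r1_thrL0_3, s2f_14_r1_thrL0_4]

def s2f_14_r1_thrL1_0 : cellOk stS2F s2f_14 s2f_14_m1 true .thrL ((stS2F.bins .thrL).getD 0 b00)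
    ((s2f_14_m1.g true .thrL).getD 0 e00) = true := by decide +kernel

def s2f_14_r1_thrL1_1 : cellOk stS2F s2f_14 s2f_14_m1 true .thrL ((stS2F.bins .thrL).getD 1 b00)
    ((s2f_14_m1.g true .thrL).getD 1 e00) = true := by decide +kernel

def s2f_14_r1_thrL1_2 : cellOk stS2F s2f_14 s2f_14_m1 true .thrL ((stS2F.bins .thrL).getD 2 b00)
    ((s2f_14_m1.g true .thrL).getD 2 e00) = true := by decide +kernel

def s2f_14_r1_thrL1_3 : cellOk stS2F s2f_14 s2f_14_m1 true .thrL ((stS2F.bins .thrL).getD 3 b00)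
    ((s2f_14_m1.g true .thrL).getD 3 e00) = true := by decide +kernel

def s2f_14_r1_thrL1_4 : cellOk stS2F s2f_14 s2f_14_m1 true .thrL ((stS2F.bins .thrL).getD 4 b00)
    ((s2f_14_m1.g true .thrL).getD 4 e00) = true := by decide +kernel

theorem s2f_14_r1_thrL1 : rowsOk stS2F s2f_14 s2f_14_m1 true .thrL = true := by
  refine rowsOk_of fun i hi => ?_
  have hi : i < 5 := hi
  interval_cases i
  exacts [s2f_14_r1_thrL1_0, s2f_14_r1_thrL1_1, s2f_14_r1_thrL1_2, s2f_14_r1_thrL1_3, s2f_14_r1_thrL1_4]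

def s2f_14_r1_threeE0_0 : cellOk stS2F s2f_14 s2f_14_m1 false .threeE ((stS2F.bins .threeE).getD 0 b00)
    ((s2f_14_m1.g false .threeE).getD 0 e00) = true := by decide +kernel

def s2f_14_r1_threeE0_1 : cellOk stS2F s2f_14 s2f_14_m1 false .threeE ((stS2F.bins .threeE).getD 1 b00)
    ((s2f_14_m1.g false .threeE).getD 1 e00) = true := by decide +kernel

def s2f_14_r1_threeE0_2 : cellOk stS2F s2f_14 s2f_14_m1 false .threeE ((stS2F.bins .threeE).getD 2 b00)
    ((s2f_14_m1.g false .threeE).getD 2 e00) = true := by decide +kernel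

def s2f_14_r1_threeE0_3 : cellOk stS2F s2f_14 s2f_14_m1 false .threeE ((stS2F.bins .threeE).getD 3 b00)
    ((s2f_14_m1.g false .threeE).getD 3 e00) = true := by decide +kernel

def s2f_14_r1_threeE0_4 : cellOk stS2F s2f_14 s2f_14_m1 false .threeE ((stS2F.bins .threeE).getD 4 b00)
    ((s2f_14_m1.g false .threeE).getD 4 e00) = true := by decide +kernel

def s2f_14_r1_threeE0_5 : cellOk stS2F s2f_14 s2f_14_m1 false .threeE ((stS2F.bins .threeE).getD 5 b00)
    ((s2f_14_m1.g false .threeE).getD 5 e00) = true := by decide +kernel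

theorem s2f_14_r1_threeE0 : rowsOk stS2F s2f_14 s2f_14_m1 false .threeE = true := by
  refine rowsOk_of fun i hi => ?_
  have hi : i < 6 := hi
  interval_cases i
  exacts [s2f_14_r1_threeE0_0, s2f_14_r1_threeE0_1, s2f_14_r1_threeE0_2, s2f_14_r1_threeE0_3, s2f_14_r1_threeE0_4, s2f_14_r1_threeE0_5]

def s2f_14_r1_threeE1 : rowsOk stS2F s2f_14 s2f_14_m1 true .threeE = true := by decide +kernel

def s2f_14_r1_ring0_0 : cellOk stS2F s2f_14 s2f_14_m1 false .ring ((stS2F.bins .ring).getD 0 b00)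
    ((s2f_14_m1.g false .ring).getD 0 e00) = true := by decide +kernel

def s2f_14_r1_ring0_1 : cellOk stS2F s2f_14 s2f_14_m1 false .ring ((stS2F.bins .ring).getD 1 b00)
    ((s2f_14_m1.g false .ring).getD 1 e00) = true := by decide +kernel

def s2f_14_r1_ring0_2 : cellOk stS2F s2f_14 s2f_14_m1 false .ring ((stS2F.bins .ring).getD 2 b00)
    ((s2f_14_m1.g false .ring).getD 2 e00) = true := by decide +kernel

def s2f_14_r1_ring0_3 : cellOk stS2F s2f_14 s2f_14_m1 false .ring ((stS2F.bins .ring).getD 3 b00)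
    ((s2f_14_m1.g false .ring).getD 3 e00) = true := by decide +kernel

def s2f_14_r1_ring0_4 : cellOk stS2F s2f_14 s2f_14_m1 false .ring ((stS2F.bins .ring).getD 4 b00)
    ((s2f_14_m1.g false .ring).getD 4 e00) = true := by decide +kernel

def s2f_14_r1_ring0_5 : cellOk stS2F s2f_14 s2f_14_m1 false .ring ((stS2F.bins .ring).getD 5 b00)
    ((s2f_14_m1.g false .ring).getD 5 e00) = true := by decide +kernel

theorem s2f_14_r1_ring0 : rowsOk stS2F s2f_14 s2f_14_m1 false .ring = true := by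
  refine rowsOk_of fun i hi => ?_
  have hi : i < 6 := hi
  interval_cases i
  exacts [s2f_14_r1_ring0_0, s2f_14_r1_ring0_1, s2f_14_r1_ring0_2, s2f_14_r1_ring0_3, s2f_14_r1_ring0_4, s2f_14_r1_ring0_5]

def s2f_14_r1_ring1_0 : cellOk stS2F s2f_14 s2f_14_m1 true .ring ((stS2F.bins .ring).getD 0 b00)
    ((s2f_14_m1.g true .ring).getD 0 e00) = true := by decide +kernel

def s2f_14_r1_ring1_1 : cellOk stS2F s2f_14 s2f_14_m1 true .ring ((stS2F.bins .ring).getD 1 b00)
    ((s2f_14_m1.g true .ring).getD 1 e00) = true := by decide +kernel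

def s2f_14_r1_ring1_2 : cellOk stS2F s2f_14 s2f_14_m1 true .ring ((stS2F.bins .ring).getD 2 b00)
    ((s2f_14_m1.g true .ring).getD 2 e00) = true := by decide +kernel

def s2f_14_r1_ring1_3 : cellOk stS2F s2f_14 s2f_14_m1 true .ring ((stS2F.bins .ring).getD 3 b00)
    ((s2f_14_m1.g true .ring).getD 3 e00) = true := by decide +kernel

def s2f_14_r1_ring1_4 : cellOk stS2F s2f_14 s2f_14_m1 true .ring ((stS2F.bins .ring).getD 4 b00)
    ((s2f_14_m1.g true .ring).getD 4 e00) = true := by decide +kernel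

def s2f_14_r1_ring1_5 : cellOk stS2F s2f_14 s2f_14_m1 true .ring ((stS2F.bins .ring).getD 5 b00)
    ((s2f_14_m1.g true .ring).getD 5 e00) = true := by decide +kernel

theorem s2f_14_r1_ring1 : rowsOk stS2F s2f_14 s2f_14_m1 true .ring = true := by
  refine rowsOk_of fun i hi => ?_
  have hi : i < 6 := hi
  interval_cases i
  exacts [s2f_14_r1_ring1_0, s2f_14_r1_ring1_1, s2f_14_r1_ring1_2, s2f_14_r1_ring1_3, s2f_14_r1_ring1_4, s2f_14_r1_ring1_5]

def s2f_14_r2_one0 : rowsOk stS2F s2f_14 s2f_14_m2 false .one = true := by decide +kernel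

def s2f_14_r2_one1 : rowsOk stS2F s2f_14 s2f_14_m2 true .one = true := by decide +kernel

def s2f_14_r2_two0 : rowsOk stS2F s2f_14 s2f_14_m2 false .two = true := by decide +kernel

def s2f_14_r2_two1 : rowsOk stS2F s2f_14 s2f_14_m2 true .two = true := by decide +kernel

def s2f_14_r2_twoE0 : rowsOk stS2F s2f_14 s2f_14_m2 false .twoE = true := by decide +kernel

def s2f_14_r2_twoE1 : rowsOk stS2F s2f_14 s2f_14_m2 true .twoE = true := by decide +kernel

def s2f_14_r2_thrR0 : rowsOk stS2F s2f_14 s2f_14_m2 false .thrR = true := by decide +kernel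

def s2f_14_r2_thrR1 : rowsOk stS2F s2f_14 s2f_14_m2 true .thrR = true := by decide +kernel

def s2f_14_r2_thrL0 : rowsOk stS2F s2f_14 s2f_14_m2 false .thrL = true := by decide +kernel

def s2f_14_r2_thrL1 : rowsOk stS2F s2f_14 s2f_14_m2 true .thrL = true := by decide +kernel

def s2f_14_r2_threeE0 : rowsOk stS2F s2f_14 s2f_14_m2 false .threeE = true := by decide +kernel

def s2f_14_r2_threeE1 : rowsOk stS2F s2f_14 s2f_14_m2 true .threeE = true := by decide +kernel

def s2f_14_r2_ring0 : rowsOk stS2F s2f_14 s2f_14_m2 false .ring = true := by decide +kernel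

def s2f_14_r2_ring1 : rowsOk stS2F s2f_14 s2f_14_m2 true .ring = true := by decide +kernel

def s2f_14_r3_one0 : rowsOk stS2F s2f_14 s2f_14_m3 false .one = true := by decide +kernel

def s2f_14_r3_one1 : rowsOk stS2F s2f_14 s2f_14_m3 true .one = true := by decide +kernel

def s2f_14_r3_two0 : rowsOk stS2F s2f_14 s2f_14_m3 false .two = true := by decide +kernel

def s2f_14_r3_two1 : rowsOk stS2F s2f_14 s2f_14_m3 true .two = true := by decide +kernel

def s2f_14_r3_twoE0 : rowsOk stS2F s2f_14 s2f_14_m3 false .twoE = true := by decide +kernel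

def s2f_14_r3_twoE1 : rowsOk stS2F s2f_14 s2f_14_m3 true .twoE = true := by decide +kernel

def s2f_14_r3_thrR0 : rowsOk stS2F s2f_14 s2f_14_m3 false .thrR = true := by decide +kernel

def s2f_14_r3_thrR1 : rowsOk stS2F s2f_14 s2f_14_m3 true .thrR = true := by decide +kernel

def s2f_14_r3_thrL0 : rowsOk stS2F s2f_14 s2f_14_m3 false .thrL = true := by decide +kernel

def s2f_14_r3_thrL1 : rowsOk stS2F s2f_14 s2f_14_m3 true .thrL = true := by decide +kernel

def s2f_14_r3_threeE0 : rowsOk stS2F s2f_14 s2f_14_m3 false .threeE = true := by decide +kernel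

def s2f_14_r3_threeE1 : rowsOk stS2F s2f_14 s2f_14_m3 true .threeE = true := by decide +kernel

def s2f_14_r3_ring0 : rowsOk stS2F s2f_14 s2f_14_m3 false .ring = true := by decide +kernel

def s2f_14_r3_ring1 : rowsOk stS2F s2f_14 s2f_14_m3 true .ring = true := by decide +kernel

def s2f_14_r4_one0 : rowsOk stS2F s2f_14 s2f_14_m4 false .one = true := by decide +kernel

def s2f_14_r4_one1 : rowsOk stS2F s2f_14 s2f_14_m4 true .one = true := by decide +kernel

def s2f_14_r4_two0 : rowsOk stS2F s2f_14 s2f_14_m4 false .two = true := by decide +kernel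

def s2f_14_r4_two1 : rowsOk stS2F s2f_14 s2f_14_m4 true .two = true := by decide +kernel

def s2f_14_r4_twoE0 : rowsOk stS2F s2f_14 s2f_14_m4 false .twoE = true := by decide +kernel

def s2f_14_r4_twoE1 : rowsOk stS2F s2f_14 s2f_14_m4 true .twoE = true := by decide +kernel

def s2f_14_r4_thrR0 : rowsOk stS2F s2f_14 s2f_14_m4 false .thrR = true := by decide +kernel

def s2f_14_r4_thrR1 : rowsOk stS2F s2f_14 s2f_14_m4 true .thrR = true := by decide +kernel

def s2f_14_r4_thrL0_0 : cellOk stS2F s2f_14 s2f_14_m4 false .thrL ((stS2F.bins .thrL).getD 0 b00)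
    ((s2f_14_m4.g false .thrL).getD 0 e00) = true := by decide +kernel

def s2f_14_r4_thrL0_1 : cellOk stS2F s2f_14 s2f_14_m4 false .thrL ((stS2F.bins .thrL).getD 1 b00)
    ((s2f_14_m4.g false .thrL).getD 1 e00) = true := by decide +kernel

def s2f_14_r4_thrL0_2 : cellOk stS2F s2f_14 s2f_14_m4 false .thrL ((stS2F.bins .thrL).getD 2 b00)
    ((s2f_14_m4.g false .thrL).getD 2 e00) = true := by decide +kernel

def s2f_14_r4_thrL0_3 : cellOk stS2F s2f_14 s2f_14_m4 false .thrL ((stS2F.bins .thrL).getD 3 b00)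
    ((s2f_14_m4.g false .thrL).getD 3 e00) = true := by decide +kernel

def s2f_14_r4_thrL0_4 : cellOk stS2F s2f_14 s2f_14_m4 false .thrL ((stS2F.bins .thrL).getD 4 b00)
    ((s2f_14_m4.g false .thrL).getD 4 e00) = true := by decide +kernel

theorem s2f_14_r4_thrL0 : rowsOk stS2F s2f_14 s2f_14_m4 false .thrL = true := by
  refine rowsOk_of fun i hi => ?_
  have hi : i < 5 := hi
  interval_cases i
  exacts [s2f_14_r4_thrL0_0, s2f_14_r4_thrL0_1, s2f_14_r4_thrL0_2, s2f_14_r4_thrL0_3, s2f_14_r4_thrL0_4]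

def s2f_14_r4_thrL1 : rowsOk stS2F s2f_14 s2f_14_m4 true .thrL = true := by decide +kernel

def s2f_14_r4_threeE0 : rowsOk stS2F s2f_14 s2f_14_m4 false .threeE = true := by decide +kernel

def s2f_14_r4_threeE1 : rowsOk stS2F s2f_14 s2f_14_m4 true .threeE = true := by decide +kernel

def s2f_14_r4_ring0 : rowsOk stS2F s2f_14 s2f_14_m4 false .ring = true := by decide +kernel

def s2f_14_r4_ring1 : rowsOk stS2F s2f_14 s2f_14_m4 true .ring = true := by decide +kernel

end OR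

end Pool.Agent.Work.MP_b30479_gtS.G2

end

section

set_option deprecated.oldSectionVars true

namespace Pool.Agent.Work.MP_b30479_gtS.G2

namespace OR

theorem s2f_14_r0 : allRows stS2F s2f_14 s2f_14_m0 = true := by
  refine allRows_of fun P => ?_
  cases P
  exacts [⟨s2f_14_r0_one0, s2f_14_r0_one1⟩,
    ⟨s2f_14_r0_two0, s2f_14_r0_two1⟩,
    ⟨s2f_14_r0_twoE0, s2f_14_r0_twoE1⟩,
    ⟨s2f_14_r0_thrR0, s2f_14_r0_thrR1⟩,
    ⟨s2f_14_r0_thrL0, s2f_14_r0_thrL1⟩,
    ⟨s2f_14_r0_threeE0, s2f_14_r0_threeE1⟩,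
    ⟨s2f_14_r0_ring0, s2f_14_r0_ring1⟩]

theorem s2f_14_r1 : allRows stS2F s2f_14 s2f_14_m1 = true := by
  refine allRows_of fun P => ?_
  cases P
  exacts [⟨s2f_14_r1_one0, s2f_14_r1_one1⟩,
    ⟨s2f_14_r1_two0, s2f_14_r1_two1⟩,
    ⟨s2f_14_r1_twoE0, s2f_14_r1_twoE1⟩,
    ⟨s2f_14_r1_thrR0, s2f_14_r1_thrR1⟩,
    ⟨s2f_14_r1_thrL0, s2f_14_r1_thrL1⟩,
    ⟨s2f_14_r1_threeE0, s2f_14_r1_threeE1⟩,
    ⟨s2f_14_r1_ring0, s2f_14_r1_ring1⟩]

theorem s2f_14_r2 : allRows stS2F s2f_14 s2f_14_m2 = true := by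
  refine allRows_of fun P => ?_
  cases P
  exacts [⟨s2f_14_r2_one0, s2f_14_r2_one1⟩,
    ⟨s2f_14_r2_two0, s2f_14_r2_two1⟩,
    ⟨s2f_14_r2_twoE0, s2f_14_r2_twoE1⟩,
    ⟨s2f_14_r2_thrR0, s2f_14_r2_thrR1⟩,
    ⟨s2f_14_r2_thrL0, s2f_14_r2_thrL1⟩,
    ⟨s2f_14_r2_threeE0, s2f_14_r2_threeE1⟩,
    ⟨s2f_14_r2_ring0, s2f_14_r2_ring1⟩]

theorem s2f_14_r3 : allRows stS2F s2f_14 s2f_14_m3 = true := by
  refine allRows_of fun P => ?_
  cases P
  exacts [⟨s2f_14_r3_one0, s2f_14_r3_one1⟩,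
    ⟨s2f_14_r3_two0, s2f_14_r3_two1⟩,
    ⟨s2f_14_r3_twoE0, s2f_14_r3_twoE1⟩,
    ⟨s2f_14_r3_thrR0, s2f_14_r3_thrR1⟩,
    ⟨s2f_14_r3_thrL0, s2f_14_r3_thrL1⟩,
    ⟨s2f_14_r3_threeE0, s2f_14_r3_threeE1⟩,
    ⟨s2f_14_r3_ring0, s2f_14_r3_ring1⟩]

theorem s2f_14_r4 : allRows stS2F s2f_14 s2f_14_m4 = true := by
  refine allRows_of fun P => ?_
  cases P
  exacts [⟨s2f_14_r4_one0, s2f_14_r4_one1⟩,
    ⟨s2f_14_r4_two0, s2f_14_r4_two1⟩,
    ⟨s2f_14_r4_twoE0, s2f_14_r4_twoE1⟩,
    ⟨s2f_14_r4_thrR0, s2f_14_r4_thrR1⟩,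
    ⟨s2f_14_r4_thrL0, s2f_14_r4_thrL1⟩,
    ⟨s2f_14_r4_threeE0, s2f_14_r4_threeE1⟩,
    ⟨s2f_14_r4_ring0, s2f_14_r4_ring1⟩]

theorem s2f_14_ok : s2f_14.ok stS2F = true := by
  have h : (PC.all.all fun P => PC.all.all fun Q => pairOk stS2F s2f_14 P Q) = true := by decide +kernel
  have d0 : mdOk stS2F s2f_14_m0.md = true := by decide +kernel
  have d1 : mdOk stS2F s2f_14_m1.md = true := by decide +kernel
  have d2 : mdOk stS2F s2f_14_m2.md = true := by decide +kernel
  have d3 : mdOk stS2F s2f_14_m3.md = true := by decide +kernel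
  have d4 : mdOk stS2F s2f_14_m4.md = true := by decide +kernel
  unfold Piece.ok
  rw [h, Bool.true_and]
  show List.all [s2f_14_m0, s2f_14_m1, s2f_14_m2, s2f_14_m3, s2f_14_m4] _ = true
  rw [List.all_eq_true]
  intro m hm
  simp only [List.mem_cons, List.not_mem_nil, or_false] at hm
  rcases hm with rfl | rfl | rfl | rfl | rfl
  · rw [s2f_14_r0, d0]; rfl
  · rw [s2f_14_r1, d1]; rfl
  · rw [s2f_14_r2, d2]; rfl
  · rw [s2f_14_r3, d3]; rfl
  · rw [s2f_14_r4, d4]; rfl

end OR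

end Pool.Agent.Work.MP_b30479_gtS.G2

end
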