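import Pool.Agent.Work.MP_b30479_gt.TBS.G2.OTab
import Pool.Agent.Work.MP_b30479_gt.TBS.NumU.Tree

section

set_option deprecated.oldSectionVars true

namespace Pool.Agent.Work.MP_b30479_gtS.G2

open NumUs

namespace OR

/-- windows -/
def s2f_5_wp : PC → Win
  | .one => ⟨0, 0, 0, 0, 0, 0⟩
  | .two => ⟨-230, 780, -360, 760, -660, 530⟩
  | .twoE => ⟨-790, -140, -520, 270, -160, 820⟩
  | .thrR => ⟨100, 920, -70, 910, -630, 480⟩
  | .thrL => ⟨100, 920, -70, 910, -630, 480⟩
  | .threeE => ⟨-20, 610, 0, 860, -380, 650⟩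
  | .ring => ⟨270, 1300, 110, 1120, -820, 440⟩

/-- windows -/
def s2f_5_wq : PC → Win
  | .one => ⟨0, 0, 0, 0, 0, 0⟩
  | .two => ⟨-230, 780, -360, 760, -660, 530⟩
  | .twoE => ⟨-790, -140, -520, 270, -160, 820⟩
  | .thrR => ⟨100, 920, -70, 910, -630, 480⟩
  | .thrL => ⟨100, 920, -70, 910, -630, 480⟩
  | .threeE => ⟨-20, 610, 0, 860, -380, 650⟩
  | .ring => ⟨270, 1300, 110, 1120, -820, 440⟩

/-- mode -/
def s2f_5_m0 : Mode where
  md := .D
  lam := 1000
  ct := 0
  gp := fun
    | .one => [e00, e00, e00, e00, e00, e00, e00, e00]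
    | .two => [e00, e00, e00, e00, e00, ⟨-5902, [59742117321884841027333496437252770]⟩]
    | .twoE => [e00, e00, e00, e00, e00]
    | .thrR => [e00, e00, e00, e00, e00, ⟨-5737, [49489359269657448886303650696672017, 157379283500294222354, 142706705]⟩]
    | .thrL => [e00, e00, e00, e00, e00]
    | .threeE => [e00, e00, e00, e00, e00, ⟨-5742, [13709781880063021920900334799885955388597801040656325536717346]⟩]
    | .ring => [e00, e00, e00, e00, e00, ⟨-5780, [2634892516477174495270416657, 559123, 142837777]⟩]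
  gq := fun
    | .one => [e00, e00, e00, e00, e00, e00, e00, e00]
    | .two => [⟨4376, [2177]⟩, ⟨4376, [8]⟩, ⟨4376, [8]⟩, ⟨4376, [142706706]⟩, ⟨4376, [142836098]⟩, ⟨4376, [612915645268899858]⟩]
    | .twoE => [⟨5106, [8]⟩, ⟨5106, [8]⟩, ⟨5106, [8]⟩, ⟨5106, [8]⟩, ⟨5106, [8]⟩]
    | .thrR => [⟨4266, [2177]⟩, ⟨4266, [557953]⟩, ⟨4266, [2177]⟩, ⟨4266, [142706706]⟩, ⟨4266, [557442]⟩, ⟨4266, [44205633110372233912572684839452962, 8, 2177]⟩]
    | .thrL => [⟨4266, [557697]⟩, ⟨4266, [2177]⟩, ⟨4266, [2177]⟩, ⟨4266, [559122]⟩, ⟨4266, [8]⟩]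
    | .threeE => [⟨4536, [8]⟩, ⟨4536, [8]⟩, ⟨4536, [8]⟩, ⟨4536, [8]⟩, ⟨4536, [557698]⟩, ⟨4536, [11340331922619551032482151211059021842]⟩]
    | .ring => [⟨4498, [15580626980729695039306835644226474370]⟩, ⟨4498, [1021028832290162167113530057407221681301521]⟩, ⟨4223, [2397938413295387202605363871386126353934696748315728323913657520573339191202985455593865788466473848113451681081684550530948341993610687935595871211907]⟩, ⟨4016, [6305713358490715665020868052780555495651605007966797235277064555486662222201850005252410170744013106]⟩, ⟨4016, [40168366897443378463010]⟩, ⟨4016, [612920633177835538, 8, 2177]⟩]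

/-- mode -/
def s2f_5_m1 : Mode where
  md := .V 300 1000
  lam := 250
  ct := 0
  gp := fun
    | .one => [e00, e00, e00, e00, e00, e00, e00, e00]
    | .two => [e00, e00, e00, e00, e00, e00]
    | .twoE => [e00, e00, e00, e00, e00]
    | .thrR => [e00, e00, e00, e00, e00, ⟨-616, [1530519444883082173481334552663516902214970994353237218490888529917570523304017081421127491446920394304592591623302684874083892713862932783585420143399121895742818668603636863589771407839370388008182932324469848921693451062724233658347952610778881935546594651477320687623013215366800037511747351594193955991826, 3185389639693276444886908334364571490921570227466513, 557953, 143164177, 258507253640111020448416020949903045654308106570384615687884359284043073457754402, 18222689754194490120814189760551234783963499000672475892305503236301260307477627530208063838556450]⟩]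
    | .thrL => [e00, e00, e00, e00, e00]
    | .threeE => [e00, e00, e00, e00, e00, e00]
    | .ring => [e00, e00, e00, e00, e00, ⟨-679, [13217831274507095468333066947800364433875734487668052261746954564360687668509356040121172930319703335010225444892132838207593928774221914396672956958622083184496761979376108301096707026364353138542748379219262849535207008107615170834, 44300706912618582179436166648107025, 557953, 9382498865169, 189864015286541430171274639863516454601174290, 16577277367840032448278750782408723255715365808886098337409913661418725432401044111634]⟩]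
  gq := fun
    | .one => [e00, e00, e00, e00, e00, e00, e00, e00]
    | .two => [e00, e00, e00, e00, e00, e00]
    | .twoE => [e00, e00, e00, e00, e00]
    | .thrR => [e00, e00, e00, e00, e00, e00]
    | .thrL => [e00, e00, e00, e00, e00]
    | .threeE => [e00, e00, e00, e00, e00, e00]
    | .ring => [⟨235, [73565157073936916876202880426309255450150596332693153678098]⟩, ⟨235, [15578036696306338623245224067973265425]⟩, ⟨235, [59883854321530185391543373372340241]⟩, e00, e00, e00]

/-- piece -/
def s2f_5 : Piece := ⟨3600, 3900, -820, 820, s2f_5_wp, s2f_5_wq, [s2f_5_m0, s2f_5_m1]⟩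

set_option linter.defProp false

def s2f_5_r0_one0 : rowsOk stS2F s2f_5 s2f_5_m0 false .one = true := by decide +kernel

def s2f_5_r0_one1 : rowsOk stS2F s2f_5 s2f_5_m0 true .one = true := by decide +kernel

def s2f_5_r0_two0 : rowsOk stS2F s2f_5 s2f_5_m0 false .two = true := by decide +kernel

def s2f_5_r0_two1 : rowsOk stS2F s2f_5 s2f_5_m0 true .two = true := by decide +kernel

def s2f_5_r0_twoE0 : rowsOk stS2F s2f_5 s2f_5_m0 false .twoE = true := by decide +kernel

def s2f_5_r0_twoE1 : rowsOk stS2F s2f_5 s2f_5_m0 true .twoE = true := by decide +kernel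

def s2f_5_r0_thrR0 : rowsOk stS2F s2f_5 s2f_5_m0 false .thrR = true := by decide +kernel

def s2f_5_r0_thrR1 : rowsOk stS2F s2f_5 s2f_5_m0 true .thrR = true := by decide +kernel

def s2f_5_r0_thrL0 : rowsOk stS2F s2f_5 s2f_5_m0 false .thrL = true := by decide +kernel

def s2f_5_r0_thrL1 : rowsOk stS2F s2f_5 s2f_5_m0 true .thrL = true := by decide +kernel

def s2f_5_r0_threeE0 : rowsOk stS2F s2f_5 s2f_5_m0 false .threeE = true := by decide +kernel

def s2f_5_r0_threeE1 : rowsOk stS2F s2f_5 s2f_5_m0 true .threeE = true := by decide +kernel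

def s2f_5_r0_ring0 : rowsOk stS2F s2f_5 s2f_5_m0 false .ring = true := by decide +kernel

def s2f_5_r0_ring1_0 : cellOk stS2F s2f_5 s2f_5_m0 true .ring ((stS2F.bins .ring).getD 0 b00)
    ((s2f_5_m0.g true .ring).getD 0 e00) = true := by decide +kernel

def s2f_5_r0_ring1_1 : cellOk stS2F s2f_5 s2f_5_m0 true .ring ((stS2F.bins .ring).getD 1 b00)
    ((s2f_5_m0.g true .ring).getD 1 e00) = true := by decide +kernel

def s2f_5_r0_ring1_2 : cellOk stS2F s2f_5 s2f_5_m0 true .ring ((stS2F.bins .ring).getD 2 b00)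
    ((s2f_5_m0.g true .ring).getD 2 e00) = true := by decide +kernel

def s2f_5_r0_ring1_3 : cellOk stS2F s2f_5 s2f_5_m0 true .ring ((stS2F.bins .ring).getD 3 b00)
    ((s2f_5_m0.g true .ring).getD 3 e00) = true := by decide +kernel

def s2f_5_r0_ring1_4 : cellOk stS2F s2f_5 s2f_5_m0 true .ring ((stS2F.bins .ring).getD 4 b00)
    ((s2f_5_m0.g true .ring).getD 4 e00) = true := by decide +kernel

def s2f_5_r0_ring1_5 : cellOk stS2F s2f_5 s2f_5_m0 true .ring ((stS2F.bins .ring).getD 5 b00)
    ((s2f_5_m0.g true .ring).getD 5 e00) = true := by decide +kernel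

theorem s2f_5_r0_ring1 : rowsOk stS2F s2f_5 s2f_5_m0 true .ring = true := by
  refine rowsOk_of fun i hi => ?_
  have hi : i < 6 := hi
  interval_cases i
  exacts [s2f_5_r0_ring1_0, s2f_5_r0_ring1_1, s2f_5_r0_ring1_2, s2f_5_r0_ring1_3, s2f_5_r0_ring1_4, s2f_5_r0_ring1_5]

def s2f_5_r1_one0 : rowsOk stS2F s2f_5 s2f_5_m1 false .one = true := by decide +kernel

def s2f_5_r1_one1 : rowsOk stS2F s2f_5 s2f_5_m1 true .one = true := by decide +kernel

def s2f_5_r1_two0 : rowsOk stS2F s2f_5 s2f_5_m1 false .two = true := by decide +kernel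

def s2f_5_r1_two1 : rowsOk stS2F s2f_5 s2f_5_m1 true .two = true := by decide +kernel

def s2f_5_r1_twoE0 : rowsOk stS2F s2f_5 s2f_5_m1 false .twoE = true := by decide +kernel

def s2f_5_r1_twoE1 : rowsOk stS2F s2f_5 s2f_5_m1 true .twoE = true := by decide +kernel

def s2f_5_r1_thrR0_0 : cellOk stS2F s2f_5 s2f_5_m1 false .thrR ((stS2F.bins .thrR).getD 0 b00)
    ((s2f_5_m1.g false .thrR).getD 0 e00) = true := by decide +kernel

def s2f_5_r1_thrR0_1 : cellOk stS2F s2f_5 s2f_5_m1 false .thrR ((stS2F.bins .thrR).getD 1 b00)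
    ((s2f_5_m1.g false .thrR).getD 1 e00) = true := by decide +kernel

def s2f_5_r1_thrR0_2 : cellOk stS2F s2f_5 s2f_5_m1 false .thrR ((stS2F.bins .thrR).getD 2 b00)
    ((s2f_5_m1.g false .thrR).getD 2 e00) = true := by decide +kernel

def s2f_5_r1_thrR0_3 : cellOk stS2F s2f_5 s2f_5_m1 false .thrR ((stS2F.bins .thrR).getD 3 b00)
    ((s2f_5_m1.g false .thrR).getD 3 e00) = true := by decide +kernel

def s2f_5_r1_thrR0_4 : cellOk stS2F s2f_5 s2f_5_m1 false .thrR ((stS2F.bins .thrR).getD 4 b00)
    ((s2f_5_m1.g false .thrR).getD 4 e00) = true := by decide +kernel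

/-- check -/
def s2f_5_r1_thrR0_5_x0 : Ck := (cks stS2F s2f_5 s2f_5_m1 false .thrR
    ((stS2F.bins .thrR).getD 5 b00)
    ((s2f_5_m1.g false .thrR).getD 5 e00).g).getD 0 ckd

theorem s2f_5_r1_thrR0_5_k0_q1 : runT s2f_5_r1_thrR0_5_x0.2.1 39
    95657465305192635842583409541469806388435687147077326155680533119848157706501067588820468215432524644037036976456417804630243294616433298974088758962445118483926166787727303974360712989960649250511433270279365557605840691420264603646747038173680120971662165717332542976438325960425002344484209474637122249489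
    (NumIs.setL 2 (s2f_5_r1_thrR0_5_x0.2.2)) =
    32130750034209067197932609458510595383520798493052108722673986731849118501746309691536385539743509518484063570366769845670043215267832238704342164803080858731916446216467 := by
  decide +kernel

theorem s2f_5_r1_thrR0_5_k0_q2 : runT s2f_5_r1_thrR0_5_x0.2.1 39
    32130750034209067197932609458510595383520798493052108722673986731849118501746309691536385539743509518484063570366769845670043215267832238704342164803080858731916446216466
    (NumIs.setR 2 (s2f_5_r1_thrR0_5_x0.2.2)) =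
    1 := by
  decide +kernel

theorem s2f_5_r1_thrR0_5_k0_c : chkT s2f_5_r1_thrR0_5_x0.2.1 40
    1530519444883082173481334552663516902214970994353237218490888529917570523304017081421127491446920394304592591623302684874083892713862932783585420143399121895742818668603636863589771407839370388008182932324469848921693451062724233658347952610778881935546594651477320687623013215366800037511747351594193955991826
    s2f_5_r1_thrR0_5_x0.2.2 = true :=
  chkT_of (runT_split rfl rfl rfl
        s2f_5_r1_thrR0_5_k0_q1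
        s2f_5_r1_thrR0_5_k0_q2)

theorem s2f_5_r1_thrR0_5_k0 : ck1 s2f_5_r1_thrR0_5_x0 (((s2f_5_m1.g false .thrR).getD 5 e00).c.getD 0 0) = true :=
  ck1_of (by decide +kernel) s2f_5_r1_thrR0_5_k0_c

/-- check -/
def s2f_5_r1_thrR0_5_x1 : Ck := (cks stS2F s2f_5 s2f_5_m1 false .thrR
    ((stS2F.bins .thrR).getD 5 b00)
    ((s2f_5_m1.g false .thrR).getD 5 e00).g).getD 1 ckd

theorem s2f_5_r1_thrR0_5_k1 : ck1 s2f_5_r1_thrR0_5_x1 (((s2f_5_m1.g false .thrR).getD 5 e00).c.getD 1 0) = true := by
  decide +kernel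

/-- check -/
def s2f_5_r1_thrR0_5_x2 : Ck := (cks stS2F s2f_5 s2f_5_m1 false .thrR
    ((stS2F.bins .thrR).getD 5 b00)
    ((s2f_5_m1.g false .thrR).getD 5 e00).g).getD 2 ckd

theorem s2f_5_r1_thrR0_5_k2 : ck1 s2f_5_r1_thrR0_5_x2 (((s2f_5_m1.g false .thrR).getD 5 e00).c.getD 2 0) = true := by
  decide +kernel

/-- check -/
def s2f_5_r1_thrR0_5_x3 : Ck := (cks stS2F s2f_5 s2f_5_m1 false .thrR
    ((stS2F.bins .thrR).getD 5 b00)
    ((s2f_5_m1.g false .thrR).getD 5 e00).g).getD 3 ckd

theorem s2f_5_r1_thrR0_5_k3 : ck1 s2f_5_r1_thrR0_5_x3 (((s2f_5_m1.g false .thrR).getD 5 e00).c.getD 3 0) = true := by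
  decide +kernel

/-- check -/
def s2f_5_r1_thrR0_5_x4 : Ck := (cks stS2F s2f_5 s2f_5_m1 false .thrR
    ((stS2F.bins .thrR).getD 5 b00)
    ((s2f_5_m1.g false .thrR).getD 5 e00).g).getD 4 ckd

theorem s2f_5_r1_thrR0_5_k4 : ck1 s2f_5_r1_thrR0_5_x4 (((s2f_5_m1.g false .thrR).getD 5 e00).c.getD 4 0) = true := by
  decide +kernel

/-- check -/
def s2f_5_r1_thrR0_5_x5 : Ck := (cks stS2F s2f_5 s2f_5_m1 false .thrR
    ((stS2F.bins .thrR).getD 5 b00)
    ((s2f_5_m1.g false .thrR).getD 5 e00).g).getD 5 ckd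

theorem s2f_5_r1_thrR0_5_k5 : ck1 s2f_5_r1_thrR0_5_x5 (((s2f_5_m1.g false .thrR).getD 5 e00).c.getD 5 0) = true := by
  decide +kernel

def s2f_5_r1_thrR0_5 : cellOk stS2F s2f_5 s2f_5_m1 false .thrR ((stS2F.bins .thrR).getD 5 b00)
    ((s2f_5_m1.g false .thrR).getD 5 e00) = true :=
  cellOk_of 6 (by decide +kernel) (by decide +kernel) fun k hk => by
    interval_cases k
    exacts [s2f_5_r1_thrR0_5_k0, s2f_5_r1_thrR0_5_k1, s2f_5_r1_thrR0_5_k2, s2f_5_r1_thrR0_5_k3, s2f_5_r1_thrR0_5_k4, s2f_5_r1_thrR0_5_k5]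

theorem s2f_5_r1_thrR0 : rowsOk stS2F s2f_5 s2f_5_m1 false .thrR = true := by
  refine rowsOk_of fun i hi => ?_
  have hi : i < 6 := hi
  interval_cases i
  exacts [s2f_5_r1_thrR0_0, s2f_5_r1_thrR0_1, s2f_5_r1_thrR0_2, s2f_5_r1_thrR0_3, s2f_5_r1_thrR0_4, s2f_5_r1_thrR0_5]

def s2f_5_r1_thrR1 : rowsOk stS2F s2f_5 s2f_5_m1 true .thrR = true := by decide +kernel

def s2f_5_r1_thrL0 : rowsOk stS2F s2f_5 s2f_5_m1 false .thrL = true := by decide +kernel

def s2f_5_r1_thrL1 : rowsOk stS2F s2f_5 s2f_5_m1 true .thrL = true := by decide +kernel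

def s2f_5_r1_threeE0 : rowsOk stS2F s2f_5 s2f_5_m1 false .threeE = true := by decide +kernel

def s2f_5_r1_threeE1 : rowsOk stS2F s2f_5 s2f_5_m1 true .threeE = true := by decide +kernel

def s2f_5_r1_ring0_0 : cellOk stS2F s2f_5 s2f_5_m1 false .ring ((stS2F.bins .ring).getD 0 b00)
    ((s2f_5_m1.g false .ring).getD 0 e00) = true := by decide +kernel

def s2f_5_r1_ring0_1 : cellOk stS2F s2f_5 s2f_5_m1 false .ring ((stS2F.bins .ring).getD 1 b00)
    ((s2f_5_m1.g false .ring).getD 1 e00) = true := by decide +kernel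

def s2f_5_r1_ring0_2 : cellOk stS2F s2f_5 s2f_5_m1 false .ring ((stS2F.bins .ring).getD 2 b00)
    ((s2f_5_m1.g false .ring).getD 2 e00) = true := by decide +kernel

def s2f_5_r1_ring0_3 : cellOk stS2F s2f_5 s2f_5_m1 false .ring ((stS2F.bins .ring).getD 3 b00)
    ((s2f_5_m1.g false .ring).getD 3 e00) = true := by decide +kernel

def s2f_5_r1_ring0_4 : cellOk stS2F s2f_5 s2f_5_m1 false .ring ((stS2F.bins .ring).getD 4 b00)
    ((s2f_5_m1.g false .ring).getD 4 e00) = true := by decide +kernel

/-- check -/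
def s2f_5_r1_ring0_5_x0 : Ck := (cks stS2F s2f_5 s2f_5_m1 false .ring
    ((stS2F.bins .ring).getD 5 b00)
    ((s2f_5_m1.g false .ring).getD 5 e00).g).getD 0 ckd

theorem s2f_5_r1_ring0_5_k0 : ck1 s2f_5_r1_ring0_5_x0 (((s2f_5_m1.g false .ring).getD 5 e00).c.getD 0 0) = true := by
  decide +kernel

/-- check -/
def s2f_5_r1_ring0_5_x1 : Ck := (cks stS2F s2f_5 s2f_5_m1 false .ring
    ((stS2F.bins .ring).getD 5 b00)
    ((s2f_5_m1.g false .ring).getD 5 e00).g).getD 1 ckd

theorem s2f_5_r1_ring0_5_k1 : ck1 s2f_5_r1_ring0_5_x1 (((s2f_5_m1.g false .ring).getD 5 e00).c.getD 1 0) = true := by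
  decide +kernel

/-- check -/
def s2f_5_r1_ring0_5_x2 : Ck := (cks stS2F s2f_5 s2f_5_m1 false .ring
    ((stS2F.bins .ring).getD 5 b00)
    ((s2f_5_m1.g false .ring).getD 5 e00).g).getD 2 ckd

theorem s2f_5_r1_ring0_5_k2 : ck1 s2f_5_r1_ring0_5_x2 (((s2f_5_m1.g false .ring).getD 5 e00).c.getD 2 0) = true := by
  decide +kernel

/-- check -/
def s2f_5_r1_ring0_5_x3 : Ck := (cks stS2F s2f_5 s2f_5_m1 false .ring
    ((stS2F.bins .ring).getD 5 b00)
    ((s2f_5_m1.g false .ring).getD 5 e00).g).getD 3 ckd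

theorem s2f_5_r1_ring0_5_k3 : ck1 s2f_5_r1_ring0_5_x3 (((s2f_5_m1.g false .ring).getD 5 e00).c.getD 3 0) = true := by
  decide +kernel

/-- check -/
def s2f_5_r1_ring0_5_x4 : Ck := (cks stS2F s2f_5 s2f_5_m1 false .ring
    ((stS2F.bins .ring).getD 5 b00)
    ((s2f_5_m1.g false .ring).getD 5 e00).g).getD 4 ckd

theorem s2f_5_r1_ring0_5_k4 : ck1 s2f_5_r1_ring0_5_x4 (((s2f_5_m1.g false .ring).getD 5 e00).c.getD 4 0) = true := by
  decide +kernel

/-- check -/
def s2f_5_r1_ring0_5_x5 : Ck := (cks stS2F s2f_5 s2f_5_m1 false .ring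
    ((stS2F.bins .ring).getD 5 b00)
    ((s2f_5_m1.g false .ring).getD 5 e00).g).getD 5 ckd

theorem s2f_5_r1_ring0_5_k5 : ck1 s2f_5_r1_ring0_5_x5 (((s2f_5_m1.g false .ring).getD 5 e00).c.getD 5 0) = true := by
  decide +kernel

def s2f_5_r1_ring0_5 : cellOk stS2F s2f_5 s2f_5_m1 false .ring ((stS2F.bins .ring).getD 5 b00)
    ((s2f_5_m1.g false .ring).getD 5 e00) = true :=
  cellOk_of 6 (by decide +kernel) (by decide +kernel) fun k hk => by
    interval_cases k
    exacts [s2f_5_r1_ring0_5_k0, s2f_5_r1_ring0_5_k1, s2f_5_r1_ring0_5_k2, s2f_5_r1_ring0_5_k3, s2f_5_r1_ring0_5_k4, s2f_5_r1_ring0_5_k5]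

theorem s2f_5_r1_ring0 : rowsOk stS2F s2f_5 s2f_5_m1 false .ring = true := by
  refine rowsOk_of fun i hi => ?_
  have hi : i < 6 := hi
  interval_cases i
  exacts [s2f_5_r1_ring0_0, s2f_5_r1_ring0_1, s2f_5_r1_ring0_2, s2f_5_r1_ring0_3, s2f_5_r1_ring0_4, s2f_5_r1_ring0_5]

def s2f_5_r1_ring1 : rowsOk stS2F s2f_5 s2f_5_m1 true .ring = true := by decide +kernel

theorem s2f_5_r0 : allRows stS2F s2f_5 s2f_5_m0 = true := by
  refine allRows_of fun P => ?_
  cases P
  exacts [⟨s2f_5_r0_one0, s2f_5_r0_one1⟩,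
    ⟨s2f_5_r0_two0, s2f_5_r0_two1⟩,
    ⟨s2f_5_r0_twoE0, s2f_5_r0_twoE1⟩,
    ⟨s2f_5_r0_thrR0, s2f_5_r0_thrR1⟩,
    ⟨s2f_5_r0_thrL0, s2f_5_r0_thrL1⟩,
    ⟨s2f_5_r0_threeE0, s2f_5_r0_threeE1⟩,
    ⟨s2f_5_r0_ring0, s2f_5_r0_ring1⟩]

theorem s2f_5_r1 : allRows stS2F s2f_5 s2f_5_m1 = true := by
  refine allRows_of fun P => ?_
  cases P
  exacts [⟨s2f_5_r1_one0, s2f_5_r1_one1⟩,
    ⟨s2f_5_r1_two0, s2f_5_r1_two1⟩,
    ⟨s2f_5_r1_twoE0, s2f_5_r1_twoE1⟩,
    ⟨s2f_5_r1_thrR0, s2f_5_r1_thrR1⟩,
    ⟨s2f_5_r1_thrL0, s2f_5_r1_thrL1⟩,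
    ⟨s2f_5_r1_threeE0, s2f_5_r1_threeE1⟩,
    ⟨s2f_5_r1_ring0, s2f_5_r1_ring1⟩]

theorem s2f_5_ok : s2f_5.ok stS2F = true := by
  have h : (PC.all.all fun P => PC.all.all fun Q => pairOk stS2F s2f_5 P Q) = true := by decide +kernel
  have d0 : mdOk stS2F s2f_5_m0.md = true := by decide +kernel
  have d1 : mdOk stS2F s2f_5_m1.md = true := by decide +kernel
  unfold Piece.ok
  rw [h, Bool.true_and]
  show List.all [s2f_5_m0, s2f_5_m1] _ = true
  rw [List.all_eq_true]
  intro m hm
  simp only [List.mem_cons, List.not_mem_nil, or_false] at hm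
  rcases hm with rfl | rfl
  · rw [s2f_5_r0, d0]; rfl
  · rw [s2f_5_r1, d1]; rfl

end OR

end Pool.Agent.Work.MP_b30479_gtS.G2

end

section

set_option deprecated.oldSectionVars true

namespace Pool.Agent.Work.MP_b30479_gtS.G2

open NumUs

namespace OR

/-- windows -/
def s3z_0_wp : PC → Win
  | .one => ⟨0, 0, 0, 0, 0, 0⟩
  | .two => ⟨0, 0, 0, 0, 0, 0⟩
  | .twoE => ⟨0, 0, 0, 0, 0, 0⟩
  | .thrR => ⟨0, 0, 0, 0, 0, 0⟩
  | .thrL => ⟨0, 0, 0, 0, 0, 0⟩
  | .threeE => ⟨0, 0, 0, 0, 0, 0⟩
  | .ring => ⟨480, 1330, 470, 1500, -430, 610⟩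

/-- windows -/
def s3z_0_wq : PC → Win
  | .one => ⟨-890, 290, -820, 330, -610, 430⟩
  | .two => ⟨0, 0, 0, 0, 0, 0⟩
  | .twoE => ⟨0, 0, 0, 0, 0, 0⟩
  | .thrR => ⟨0, 0, 0, 0, 0, 0⟩
  | .thrL => ⟨0, 0, 0, 0, 0, 0⟩
  | .threeE => ⟨0, 0, 0, 0, 0, 0⟩
  | .ring => ⟨0, 0, 0, 0, 0, 0⟩

/-- mode -/
def s3z_0_m0 : Mode where
  md := .D
  lam := 1500
  ct := 13000
  gp := fun
    | .one => [e00, e00, e00, e00, e00, e00, e00, e00]
    | .two => [e00, e00, e00, e00, e00, e00]
    | .twoE => [e00, e00, e00, e00, e00]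
    | .thrR => [e00, e00, e00, e00, e00, e00]
    | .thrL => [e00, e00, e00, e00, e00]
    | .threeE => [e00, e00, e00, e00, e00, e00]
    | .ring => [e00, e00, e00, ⟨-2954, [12431507510917453133535827754393248881364368990882]⟩, e00, e00]
  gq := fun
    | .one => [⟨2170, [8]⟩, ⟨1150, [142837809]⟩, ⟨1150, [2179]⟩, ⟨1150, [2177]⟩, e00, e00, e00, e00]
    | .two => [e00, e00, e00, e00, e00, e00]
    | .twoE => [e00, e00, e00, e00, e00]
    | .thrR => [e00, e00, e00, e00, e00, e00]
    | .thrL => [e00, e00, e00, e00, e00]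
    | .threeE => [e00, e00, e00, e00, e00, e00]
    | .ring => [e00, e00, e00, e00, e00, e00]

/-- mode -/
def s3z_0_m1 : Mode where
  md := .V 300 1000
  lam := 0
  ct := -1000
  gp := fun
    | .one => [e00, e00, e00, e00, e00, e00, e00, e00]
    | .two => [e00, e00, e00, e00, e00, e00]
    | .twoE => [e00, e00, e00, e00, e00]
    | .thrR => [e00, e00, e00, e00, e00, e00]
    | .thrL => [e00, e00, e00, e00, e00]
    | .threeE => [e00, e00, e00, e00, e00, e00]
    | .ring => [e00, e00, e00, ⟨1473, [13941044075985338356572834]⟩, ⟨1473, [211988940815402019083970166472590975858934546, 9361024364849, 2177, 8, 2894436636953643480811806294886672699938, 157412216094188573218]⟩, ⟨-1153, [0, 0, 0, 0, 40186342728834379946002, 557442]⟩]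
  gq := fun
    | .one => [⟨1149, [8]⟩, ⟨1149, [2179]⟩, ⟨1149, [8]⟩, ⟨1149, [8]⟩, ⟨1149, [3509863606728007854782449860484884821864429793837414145649182770, 2632474111437585623901812755, 8, 8, 11316642066661107226573041312637092146, 2897060369065243450002677459463279182130]⟩, ⟨-1477, [0, 233084315004171801214458928714054448368328530530406578195, 2677867070718849, 8, 1439458491564930218353129313560553109912657075221607119313878863752637941702560132359752417083676377335050597334675929313780258, 5118722829262106643364999173363853418420599238788621188683451621538445230341930093693317715904978226251138540066]⟩, ⟨-1477, [0, 0, 0, 0, 557443, 559123]⟩, ⟨-1477, [0, 0, 0, 0, 142836099, 559123]⟩]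
    | .two => [e00, e00, e00, e00, e00, e00]
    | .twoE => [e00, e00, e00, e00, e00]
    | .thrR => [e00, e00, e00, e00, e00, e00]
    | .thrL => [e00, e00, e00, e00, e00]
    | .threeE => [e00, e00, e00, e00, e00, e00]
    | .ring => [e00, e00, e00, e00, e00, e00]

/-- mode -/
def s3z_0_m2 : Mode where
  md := .V 450 1000
  lam := 250
  ct := 0
  gp := fun
    | .one => [e00, e00, e00, e00, e00, e00, e00, e00]
    | .two => [e00, e00, e00, e00, e00, e00]
    | .twoE => [e00, e00, e00, e00, e00]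
    | .thrR => [e00, e00, e00, e00, e00, e00]
    | .thrL => [e00, e00, e00, e00, e00]
    | .threeE => [e00, e00, e00, e00, e00, e00]
    | .ring => [e00, e00, e00, ⟨-64, [59876486842851834529358124428665506]⟩, ⟨-374, [120144262053624823254725111248477745195263665340568276131116554652850759981562299279461093691466982004082134964558115320808147851694355830433860903406307613795060100857014137290716869401229515963802452055801116268565385510437593320078946723405613540736284637892480337973294805509321804938457047432754249392964878554925693410331066056874020661322153125478895732889336212213530081998567115313693470593412883613377590491415718954617305540359858347037553591417280997442567022673294970010116857002464018, 11599045448387171927470385, 10460418114433, 8, 24172483975946552359398664555518978534366878083204837328242474865025123385624650871419550779263436309462956259613113732960806972363298, 19777271641450742543106736414770281763345103266337]⟩, e00]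
  gq := fun
    | .one => [⟨240, [2179]⟩, ⟨70, [44206186140741978575116708967092515]⟩, ⟨70, [142837809]⟩, ⟨70, [142837809]⟩, ⟨-240, [5640133354908293267449399941018754857107465134523621447061559609120779994491213809878229747826260613094127387653861460681010, 740975778959092163685745317089013201928979, 8, 8, 53392918199328965758200781764874912481451453243593876275506, 3858928791789969246063551775532871998623495422856866869530869078166686150962]⟩, e00, e00, e00]
    | .two => [e00, e00, e00, e00, e00, e00]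
    | .twoE => [e00, e00, e00, e00, e00]
    | .thrR => [e00, e00, e00, e00, e00, e00]
    | .thrL => [e00, e00, e00, e00, e00]
    | .threeE => [e00, e00, e00, e00, e00, e00]
    | .ring => [e00, e00, e00, e00, e00, e00]

/-- piece -/
def s3z_0 : Piece := ⟨6000, 6170, -820, 820, s3z_0_wp, s3z_0_wq, [s3z_0_m0, s3z_0_m1, s3z_0_m2]⟩

set_option linter.defProp false

def s3z_0_r0_one0 : rowsOk stS3Z s3z_0 s3z_0_m0 false .one = true := by decide +kernel

def s3z_0_r0_one1 : rowsOk stS3Z s3z_0 s3z_0_m0 true .one = true := by decide +kernel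

def s3z_0_r0_two0 : rowsOk stS3Z s3z_0 s3z_0_m0 false .two = true := by decide +kernel

def s3z_0_r0_two1 : rowsOk stS3Z s3z_0 s3z_0_m0 true .two = true := by decide +kernel

def s3z_0_r0_twoE0 : rowsOk stS3Z s3z_0 s3z_0_m0 false .twoE = true := by decide +kernel

def s3z_0_r0_twoE1 : rowsOk stS3Z s3z_0 s3z_0_m0 true .twoE = true := by decide +kernel

def s3z_0_r0_thrR0 : rowsOk stS3Z s3z_0 s3z_0_m0 false .thrR = true := by decide +kernel

def s3z_0_r0_thrR1 : rowsOk stS3Z s3z_0 s3z_0_m0 true .thrR = true := by decide +kernel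

def s3z_0_r0_thrL0 : rowsOk stS3Z s3z_0 s3z_0_m0 false .thrL = true := by decide +kernel

def s3z_0_r0_thrL1 : rowsOk stS3Z s3z_0 s3z_0_m0 true .thrL = true := by decide +kernel

def s3z_0_r0_threeE0 : rowsOk stS3Z s3z_0 s3z_0_m0 false .threeE = true := by decide +kernel

def s3z_0_r0_threeE1 : rowsOk stS3Z s3z_0 s3z_0_m0 true .threeE = true := by decide +kernel

def s3z_0_r0_ring0 : rowsOk stS3Z s3z_0 s3z_0_m0 false .ring = true := by decide +kernel

def s3z_0_r0_ring1 : rowsOk stS3Z s3z_0 s3z_0_m0 true .ring = true := by decide +kernel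

def s3z_0_r1_one0 : rowsOk stS3Z s3z_0 s3z_0_m1 false .one = true := by decide +kernel

def s3z_0_r1_one1_0 : cellOk stS3Z s3z_0 s3z_0_m1 true .one ((stS3Z.bins .one).getD 0 b00)
    ((s3z_0_m1.g true .one).getD 0 e00) = true := by decide +kernel

def s3z_0_r1_one1_1 : cellOk stS3Z s3z_0 s3z_0_m1 true .one ((stS3Z.bins .one).getD 1 b00)
    ((s3z_0_m1.g true .one).getD 1 e00) = true := by decide +kernel

def s3z_0_r1_one1_2 : cellOk stS3Z s3z_0 s3z_0_m1 true .one ((stS3Z.bins .one).getD 2 b00)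
    ((s3z_0_m1.g true .one).getD 2 e00) = true := by decide +kernel

def s3z_0_r1_one1_3 : cellOk stS3Z s3z_0 s3z_0_m1 true .one ((stS3Z.bins .one).getD 3 b00)
    ((s3z_0_m1.g true .one).getD 3 e00) = true := by decide +kernel

def s3z_0_r1_one1_4 : cellOk stS3Z s3z_0 s3z_0_m1 true .one ((stS3Z.bins .one).getD 4 b00)
    ((s3z_0_m1.g true .one).getD 4 e00) = true := by decide +kernel

def s3z_0_r1_one1_5 : cellOk stS3Z s3z_0 s3z_0_m1 true .one ((stS3Z.bins .one).getD 5 b00)
    ((s3z_0_m1.g true .one).getD 5 e00) = true := by decide +kernel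

def s3z_0_r1_one1_6 : cellOk stS3Z s3z_0 s3z_0_m1 true .one ((stS3Z.bins .one).getD 6 b00)
    ((s3z_0_m1.g true .one).getD 6 e00) = true := by decide +kernel

def s3z_0_r1_one1_7 : cellOk stS3Z s3z_0 s3z_0_m1 true .one ((stS3Z.bins .one).getD 7 b00)
    ((s3z_0_m1.g true .one).getD 7 e00) = true := by decide +kernel

theorem s3z_0_r1_one1 : rowsOk stS3Z s3z_0 s3z_0_m1 true .one = true := by
  refine rowsOk_of fun i hi => ?_
  have hi : i < 8 := hi
  interval_cases i
  exacts [s3z_0_r1_one1_0, s3z_0_r1_one1_1, s3z_0_r1_one1_2, s3z_0_r1_one1_3, s3z_0_r1_one1_4, s3z_0_r1_one1_5, s3z_0_r1_one1_6, s3z_0_r1_one1_7]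

def s3z_0_r1_two0 : rowsOk stS3Z s3z_0 s3z_0_m1 false .two = true := by decide +kernel

def s3z_0_r1_two1 : rowsOk stS3Z s3z_0 s3z_0_m1 true .two = true := by decide +kernel

def s3z_0_r1_twoE0 : rowsOk stS3Z s3z_0 s3z_0_m1 false .twoE = true := by decide +kernel

def s3z_0_r1_twoE1 : rowsOk stS3Z s3z_0 s3z_0_m1 true .twoE = true := by decide +kernel

def s3z_0_r1_thrR0 : rowsOk stS3Z s3z_0 s3z_0_m1 false .thrR = true := by decide +kernel

def s3z_0_r1_thrR1 : rowsOk stS3Z s3z_0 s3z_0_m1 true .thrR = true := by decide +kernel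

def s3z_0_r1_thrL0 : rowsOk stS3Z s3z_0 s3z_0_m1 false .thrL = true := by decide +kernel

def s3z_0_r1_thrL1 : rowsOk stS3Z s3z_0 s3z_0_m1 true .thrL = true := by decide +kernel

def s3z_0_r1_threeE0 : rowsOk stS3Z s3z_0 s3z_0_m1 false .threeE = true := by decide +kernel

def s3z_0_r1_threeE1 : rowsOk stS3Z s3z_0 s3z_0_m1 true .threeE = true := by decide +kernel

def s3z_0_r1_ring0 : rowsOk stS3Z s3z_0 s3z_0_m1 false .ring = true := by decide +kernel

def s3z_0_r1_ring1 : rowsOk stS3Z s3z_0 s3z_0_m1 true .ring = true := by decide +kernel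

def s3z_0_r2_one0 : rowsOk stS3Z s3z_0 s3z_0_m2 false .one = true := by decide +kernel

def s3z_0_r2_one1_0 : cellOk stS3Z s3z_0 s3z_0_m2 true .one ((stS3Z.bins .one).getD 0 b00)
    ((s3z_0_m2.g true .one).getD 0 e00) = true := by decide +kernel

def s3z_0_r2_one1_1 : cellOk stS3Z s3z_0 s3z_0_m2 true .one ((stS3Z.bins .one).getD 1 b00)
    ((s3z_0_m2.g true .one).getD 1 e00) = true := by decide +kernel

def s3z_0_r2_one1_2 : cellOk stS3Z s3z_0 s3z_0_m2 true .one ((stS3Z.bins .one).getD 2 b00)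
    ((s3z_0_m2.g true .one).getD 2 e00) = true := by decide +kernel

def s3z_0_r2_one1_3 : cellOk stS3Z s3z_0 s3z_0_m2 true .one ((stS3Z.bins .one).getD 3 b00)
    ((s3z_0_m2.g true .one).getD 3 e00) = true := by decide +kernel

def s3z_0_r2_one1_4 : cellOk stS3Z s3z_0 s3z_0_m2 true .one ((stS3Z.bins .one).getD 4 b00)
    ((s3z_0_m2.g true .one).getD 4 e00) = true := by decide +kernel

def s3z_0_r2_one1_5 : cellOk stS3Z s3z_0 s3z_0_m2 true .one ((stS3Z.bins .one).getD 5 b00)
    ((s3z_0_m2.g true .one).getD 5 e00) = true := by decide +kernel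

def s3z_0_r2_one1_6 : cellOk stS3Z s3z_0 s3z_0_m2 true .one ((stS3Z.bins .one).getD 6 b00)
    ((s3z_0_m2.g true .one).getD 6 e00) = true := by decide +kernel

def s3z_0_r2_one1_7 : cellOk stS3Z s3z_0 s3z_0_m2 true .one ((stS3Z.bins .one).getD 7 b00)
    ((s3z_0_m2.g true .one).getD 7 e00) = true := by decide +kernel

theorem s3z_0_r2_one1 : rowsOk stS3Z s3z_0 s3z_0_m2 true .one = true := by
  refine rowsOk_of fun i hi => ?_
  have hi : i < 8 := hi
  interval_cases i
  exacts [s3z_0_r2_one1_0, s3z_0_r2_one1_1, s3z_0_r2_one1_2, s3z_0_r2_one1_3, s3z_0_r2_one1_4, s3z_0_r2_one1_5, s3z_0_r2_one1_6, s3z_0_r2_one1_7]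

def s3z_0_r2_two0 : rowsOk stS3Z s3z_0 s3z_0_m2 false .two = true := by decide +kernel

def s3z_0_r2_two1 : rowsOk stS3Z s3z_0 s3z_0_m2 true .two = true := by decide +kernel

def s3z_0_r2_twoE0 : rowsOk stS3Z s3z_0 s3z_0_m2 false .twoE = true := by decide +kernel

def s3z_0_r2_twoE1 : rowsOk stS3Z s3z_0 s3z_0_m2 true .twoE = true := by decide +kernel

def s3z_0_r2_thrR0 : rowsOk stS3Z s3z_0 s3z_0_m2 false .thrR = true := by decide +kernel

def s3z_0_r2_thrR1 : rowsOk stS3Z s3z_0 s3z_0_m2 true .thrR = true := by decide +kernel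

def s3z_0_r2_thrL0 : rowsOk stS3Z s3z_0 s3z_0_m2 false .thrL = true := by decide +kernel

def s3z_0_r2_thrL1 : rowsOk stS3Z s3z_0 s3z_0_m2 true .thrL = true := by decide +kernel

def s3z_0_r2_threeE0 : rowsOk stS3Z s3z_0 s3z_0_m2 false .threeE = true := by decide +kernel

def s3z_0_r2_threeE1 : rowsOk stS3Z s3z_0 s3z_0_m2 true .threeE = true := by decide +kernel

def s3z_0_r2_ring0_0 : cellOk stS3Z s3z_0 s3z_0_m2 false .ring ((stS3Z.bins .ring).getD 0 b00)
    ((s3z_0_m2.g false .ring).getD 0 e00) = true := by decide +kernel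

def s3z_0_r2_ring0_1 : cellOk stS3Z s3z_0 s3z_0_m2 false .ring ((stS3Z.bins .ring).getD 1 b00)
    ((s3z_0_m2.g false .ring).getD 1 e00) = true := by decide +kernel

def s3z_0_r2_ring0_2 : cellOk stS3Z s3z_0 s3z_0_m2 false .ring ((stS3Z.bins .ring).getD 2 b00)
    ((s3z_0_m2.g false .ring).getD 2 e00) = true := by decide +kernel

def s3z_0_r2_ring0_3 : cellOk stS3Z s3z_0 s3z_0_m2 false .ring ((stS3Z.bins .ring).getD 3 b00)
    ((s3z_0_m2.g false .ring).getD 3 e00) = true := by decide +kernel

/-- check -/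
def s3z_0_r2_ring0_4_x0 : Ck := (cks stS3Z s3z_0 s3z_0_m2 false .ring
    ((stS3Z.bins .ring).getD 4 b00)
    ((s3z_0_m2.g false .ring).getD 4 e00).g).getD 0 ckd

theorem s3z_0_r2_ring0_4_k0_q1 : runT s3z_0_r2_ring0_4_x0.2.1 38
    469313523646971965838769965814366192168998692736594828637174041612698281177977731560394897232292898453445839705305137971906827545681077462632269153930889116386953518972711473791862771098552796733603328342973110424083537150146848906558385638303177893501111866767501320208182834020788300540847841534196286691269056855178489884105726784664143208289660646401936456598969578959101882806902794194115119505519076614756212857092652166473849767030696668115443716473753896260027432317558476602018972665875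
    (NumIs.setL 1 (NumIs.setL 2 (s3z_0_r2_ring0_4_x0.2.2))) =
    94777111320732936869518950408330649973007816150834479301974065747764512296925463568225390683631067134172282165878949413290849838421162600360961045644154586359664401589381912202346665677408617882844395461215376559211438325763189236042168008191019631462233849181953669416114668151276851386390019644973688732688320153636773619845668350707802150364802066475592232840679365154589134211257100508455934441508667211538365388594701208836588497791602768732149683862271790954516 := by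
  decide +kernel

theorem s3z_0_r2_ring0_4_k0_q2 : runT s3z_0_r2_ring0_4_x0.2.1 37
    5923569457545808554344934400520665623312988509427154956373379109235282018557841473014086917726941695885767635367434338330678114901322662522560065352759661647479025099336369512646666604838038617677774716325961034950714895360199327252635500511938726966389615573872104338507166759454803211649376227810855545793020009602298351240354271919237634397800129154724514552542460322161820888203568781778495902594291700721147836787168825552286781111975173045759355241391986934657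
    (NumIs.setL 3 (NumIs.setR 1 (NumIs.setL 2 (s3z_0_r2_ring0_4_x0.2.2)))) =
    86199280595549623166806623347229697149494146425090074719240934198537172321198762409244764679561801253086998409234137773902011611809177884752863106445288018548730543979565402153045093361841843837141273489774336266429089233282128803732273816595825002388877555114917112783691362120659370144849180765025893135942460643161006027954197953211225604140783676917264740805584883814471262859348917580478823257643550470255254721082293334654048974508989675752809201970 := by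
  decide +kernel

theorem s3z_0_r2_ring0_4_k0_q3 : runT s3z_0_r2_ring0_4_x0.2.1 36
    5387455037221851447925413959201856071843384151568129669952558387408573270074922650577797792472612578317937400577133610868875725738073617797053944152830501159295658998722837634565318335115115239821329593110896016651818077080133050233267113537239062649304847194682319548980710132541210634053073797814118320996403790197562876747137372075701600258798979807329046300349055238404453928709307348779926453602721904390953420067643333415878060906811854734550575123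
    (NumIs.setL 1 (NumIs.setR 3 (NumIs.setR 1 (NumIs.setL 2 (s3z_0_r2_ring0_4_x0.2.2))))) =
    179402029994503797492851088045200481060861213386333407228714184513279918390048401246348780185221871079193892871925036881740880383113660014973097110629161605679633884022249640707429500850576135037236 := by
  decide +kernel

theorem s3z_0_r2_ring0_4_k0_q4 : runT s3z_0_r2_ring0_4_x0.2.1 36
    179402029994503797492851088045200481060861213386333407228714184513279918390048401246348780185221871079193892871925036881740880383113660014973097110629161605679633884022249640707429500850576135037235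
    (NumIs.setR 1 (NumIs.setR 3 (NumIs.setR 1 (NumIs.setL 2 (s3z_0_r2_ring0_4_x0.2.2))))) =
    1111601361382832468588942539781236317836521021901836070687862184184682700608050 := by
  decide +kernel

theorem s3z_0_r2_ring0_4_k0_q5 : runT s3z_0_r2_ring0_4_x0.2.1 39
    1111601361382832468588942539781236317836521021901836070687862184184682700608049
    (NumIs.setR 2 (s3z_0_r2_ring0_4_x0.2.2)) =
    1 := by
  decide +kernel

theorem s3z_0_r2_ring0_4_k0_c : chkT s3z_0_r2_ring0_4_x0.2.1 40
    120144262053624823254725111248477745195263665340568276131116554652850759981562299279461093691466982004082134964558115320808147851694355830433860903406307613795060100857014137290716869401229515963802452055801116268565385510437593320078946723405613540736284637892480337973294805509321804938457047432754249392964878554925693410331066056874020661322153125478895732889336212213530081998567115313693470593412883613377590491415718954617305540359858347037553591417280997442567022673294970010116857002464018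
    s3z_0_r2_ring0_4_x0.2.2 = true :=
  chkT_of (runT_split rfl rfl rfl
        (runT_split rfl rfl rfl
          s3z_0_r2_ring0_4_k0_q1
          (runT_split rfl rfl rfl
            s3z_0_r2_ring0_4_k0_q2
            (runT_split rfl rfl rfl
              s3z_0_r2_ring0_4_k0_q3
              s3z_0_r2_ring0_4_k0_q4)))
        s3z_0_r2_ring0_4_k0_q5)

theorem s3z_0_r2_ring0_4_k0 : ck1 s3z_0_r2_ring0_4_x0 (((s3z_0_m2.g false .ring).getD 4 e00).c.getD 0 0) = true :=
  ck1_of (by decide +kernel) s3z_0_r2_ring0_4_k0_c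

/-- check -/
def s3z_0_r2_ring0_4_x1 : Ck := (cks stS3Z s3z_0 s3z_0_m2 false .ring
    ((stS3Z.bins .ring).getD 4 b00)
    ((s3z_0_m2.g false .ring).getD 4 e00).g).getD 1 ckd

theorem s3z_0_r2_ring0_4_k1 : ck1 s3z_0_r2_ring0_4_x1 (((s3z_0_m2.g false .ring).getD 4 e00).c.getD 1 0) = true := by
  decide +kernel

/-- check -/
def s3z_0_r2_ring0_4_x2 : Ck := (cks stS3Z s3z_0 s3z_0_m2 false .ring
    ((stS3Z.bins .ring).getD 4 b00)
    ((s3z_0_m2.g false .ring).getD 4 e00).g).getD 2 ckd

theorem s3z_0_r2_ring0_4_k2 : ck1 s3z_0_r2_ring0_4_x2 (((s3z_0_m2.g false .ring).getD 4 e00).c.getD 2 0) = true := by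
  decide +kernel

/-- check -/
def s3z_0_r2_ring0_4_x3 : Ck := (cks stS3Z s3z_0 s3z_0_m2 false .ring
    ((stS3Z.bins .ring).getD 4 b00)
    ((s3z_0_m2.g false .ring).getD 4 e00).g).getD 3 ckd

theorem s3z_0_r2_ring0_4_k3 : ck1 s3z_0_r2_ring0_4_x3 (((s3z_0_m2.g false .ring).getD 4 e00).c.getD 3 0) = true := by
  decide +kernel

/-- check -/
def s3z_0_r2_ring0_4_x4 : Ck := (cks stS3Z s3z_0 s3z_0_m2 false .ring
    ((stS3Z.bins .ring).getD 4 b00)
    ((s3z_0_m2.g false .ring).getD 4 e00).g).getD 4 ckd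

theorem s3z_0_r2_ring0_4_k4 : ck1 s3z_0_r2_ring0_4_x4 (((s3z_0_m2.g false .ring).getD 4 e00).c.getD 4 0) = true := by
  decide +kernel

/-- check -/
def s3z_0_r2_ring0_4_x5 : Ck := (cks stS3Z s3z_0 s3z_0_m2 false .ring
    ((stS3Z.bins .ring).getD 4 b00)
    ((s3z_0_m2.g false .ring).getD 4 e00).g).getD 5 ckd

theorem s3z_0_r2_ring0_4_k5 : ck1 s3z_0_r2_ring0_4_x5 (((s3z_0_m2.g false .ring).getD 4 e00).c.getD 5 0) = true := by
  decide +kernel

def s3z_0_r2_ring0_4 : cellOk stS3Z s3z_0 s3z_0_m2 false .ring ((stS3Z.bins .ring).getD 4 b00)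
    ((s3z_0_m2.g false .ring).getD 4 e00) = true :=
  cellOk_of 6 (by decide +kernel) (by decide +kernel) fun k hk => by
    interval_cases k
    exacts [s3z_0_r2_ring0_4_k0, s3z_0_r2_ring0_4_k1, s3z_0_r2_ring0_4_k2, s3z_0_r2_ring0_4_k3, s3z_0_r2_ring0_4_k4, s3z_0_r2_ring0_4_k5]

def s3z_0_r2_ring0_5 : cellOk stS3Z s3z_0 s3z_0_m2 false .ring ((stS3Z.bins .ring).getD 5 b00)
    ((s3z_0_m2.g false .ring).getD 5 e00) = true := by decide +kernel

theorem s3z_0_r2_ring0 : rowsOk stS3Z s3z_0 s3z_0_m2 false .ring = true := by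
  refine rowsOk_of fun i hi => ?_
  have hi : i < 6 := hi
  interval_cases i
  exacts [s3z_0_r2_ring0_0, s3z_0_r2_ring0_1, s3z_0_r2_ring0_2, s3z_0_r2_ring0_3, s3z_0_r2_ring0_4, s3z_0_r2_ring0_5]

def s3z_0_r2_ring1 : rowsOk stS3Z s3z_0 s3z_0_m2 true .ring = true := by decide +kernel

theorem s3z_0_r0 : allRows stS3Z s3z_0 s3z_0_m0 = true := by
  refine allRows_of fun P => ?_
  cases P
  exacts [⟨s3z_0_r0_one0, s3z_0_r0_one1⟩,
    ⟨s3z_0_r0_two0, s3z_0_r0_two1⟩,
    ⟨s3z_0_r0_twoE0, s3z_0_r0_twoE1⟩,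
    ⟨s3z_0_r0_thrR0, s3z_0_r0_thrR1⟩,
    ⟨s3z_0_r0_thrL0, s3z_0_r0_thrL1⟩,
    ⟨s3z_0_r0_threeE0, s3z_0_r0_threeE1⟩,
    ⟨s3z_0_r0_ring0, s3z_0_r0_ring1⟩]

theorem s3z_0_r1 : allRows stS3Z s3z_0 s3z_0_m1 = true := by
  refine allRows_of fun P => ?_
  cases P
  exacts [⟨s3z_0_r1_one0, s3z_0_r1_one1⟩,
    ⟨s3z_0_r1_two0, s3z_0_r1_two1⟩,
    ⟨s3z_0_r1_twoE0, s3z_0_r1_twoE1⟩,
    ⟨s3z_0_r1_thrR0, s3z_0_r1_thrR1⟩,
    ⟨s3z_0_r1_thrL0, s3z_0_r1_thrL1⟩,
    ⟨s3z_0_r1_threeE0, s3z_0_r1_threeE1⟩,
    ⟨s3z_0_r1_ring0, s3z_0_r1_ring1⟩]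

theorem s3z_0_r2 : allRows stS3Z s3z_0 s3z_0_m2 = true := by
  refine allRows_of fun P => ?_
  cases P
  exacts [⟨s3z_0_r2_one0, s3z_0_r2_one1⟩,
    ⟨s3z_0_r2_two0, s3z_0_r2_two1⟩,
    ⟨s3z_0_r2_twoE0, s3z_0_r2_twoE1⟩,
    ⟨s3z_0_r2_thrR0, s3z_0_r2_thrR1⟩,
    ⟨s3z_0_r2_thrL0, s3z_0_r2_thrL1⟩,
    ⟨s3z_0_r2_threeE0, s3z_0_r2_threeE1⟩,
    ⟨s3z_0_r2_ring0, s3z_0_r2_ring1⟩]

theorem s3z_0_ok : s3z_0.ok stS3Z = true := by
  have h : (PC.all.all fun P => PC.all.all fun Q => pairOk stS3Z s3z_0 P Q) = true := by decide +kernel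
  have d0 : mdOk stS3Z s3z_0_m0.md = true := by decide +kernel
  have d1 : mdOk stS3Z s3z_0_m1.md = true := by decide +kernel
  have d2 : mdOk stS3Z s3z_0_m2.md = true := by decide +kernel
  unfold Piece.ok
  rw [h, Bool.true_and]
  show List.all [s3z_0_m0, s3z_0_m1, s3z_0_m2] _ = true
  rw [List.all_eq_true]
  intro m hm
  simp only [List.mem_cons, List.not_mem_nil, or_false] at hm
  rcases hm with rfl | rfl | rfl
  · rw [s3z_0_r0, d0]; rfl
  · rw [s3z_0_r1, d1]; rfl
  · rw [s3z_0_r2, d2]; rfl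

end OR

end Pool.Agent.Work.MP_b30479_gtS.G2

end
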