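import Pool.Agent.Work.MP_b30479_gt.TBS.G2.OTab

section

set_option deprecated.oldSectionVars true

namespace Pool.Agent.Work.MP_b30479_gtS.G2

namespace OR

/-- windows -/
def a2e_7_wp : PC → Win
  | .one => ⟨0, 0, 0, 0, 0, 0⟩
  | .two => ⟨0, 0, 0, 0, 0, 0⟩
  | .twoE => ⟨-790, -360, -310, 250, 230, 820⟩
  | .thrR => ⟨0, 0, 0, 0, 0, 0⟩
  | .thrL => ⟨0, 0, 0, 0, 0, 0⟩
  | .threeE => ⟨0, 0, 0, 0, 0, 0⟩
  | .ring => ⟨0, 0, 0, 0, 0, 0⟩

/-- windows -/
def a2e_7_wq : PC → Win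
  | .one => ⟨0, 0, 0, 0, 0, 0⟩
  | .two => ⟨0, 0, 0, 0, 0, 0⟩
  | .twoE => ⟨0, 0, 0, 0, 0, 0⟩
  | .thrR => ⟨0, 0, 0, 0, 0, 0⟩
  | .thrL => ⟨0, 0, 0, 0, 0, 0⟩
  | .threeE => ⟨0, 0, 0, 0, 0, 0⟩
  | .ring => ⟨600, 1300, 110, 690, -820, -230⟩

/-- mode -/
def a2e_7_m0 : Mode where
  md := .V 150 1000
  lam := 0
  ct := 2000
  gp := fun
    | .one => [e00, e00, e00, e00, e00, e00, e00, e00]
    | .two => [e00, e00, e00, e00, e00, e00]
    | .twoE => [⟨942, [557698, 8, 8, 8, 0, 0]⟩, ⟨743, [8, 8, 8, 8, 13, 2178]⟩, ⟨-2611, [0, 0, 0, 0, 8, 559154]⟩, ⟨-2611, [0, 0, 0, 0, 8, 8]⟩, ⟨-2611, [0, 0, 0, 0, 8, 8]⟩, ⟨-2611, [0, 0, 0, 0, 8, 8]⟩]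
    | .thrR => [e00, e00, e00, e00, e00, e00]
    | .thrL => [e00, e00, e00, e00, e00, e00]
    | .threeE => [e00, e00, e00, e00, e00, e00]
    | .ring => [e00, e00, e00, e00, e00, e00]
  gq := fun
    | .one => [e00, e00, e00, e00, e00, e00, e00, e00]
    | .two => [e00, e00, e00, e00, e00, e00]
    | .twoE => [e00, e00, e00, e00, e00, e00]
    | .thrR => [e00, e00, e00, e00, e00, e00]
    | .thrL => [e00, e00, e00, e00, e00, e00]
    | .threeE => [e00, e00, e00, e00, e00, e00]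
    | .ring => [⟨2607, [36532617858, 40861008259, 10460452106625, 8, 88070333443482226165959156145806545294189399406437910895732189550912018460663396908966018897121669106729859, 8]⟩, ⟨2607, [0, 0, 0, 0, 49844118220179174101739038293721987, 8]⟩, ⟨2607, [0, 0, 0, 0, 40827584899, 8]⟩, ⟨2607, [0, 0, 0, 0, 559154, 8]⟩, ⟨2607, [0, 0, 0, 0, 2178, 8]⟩, ⟨-946, [0, 0, 0, 0, 8, 8]⟩]

/-- mode -/
def a2e_7_m1 : Mode where
  md := .V 400 1000
  lam := 500
  ct := 2500
  gp := fun
    | .one => [e00, e00, e00, e00, e00, e00, e00, e00]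
    | .two => [e00, e00, e00, e00, e00, e00]
    | .twoE => [⟨-449, [2895767354727478335577812530030267466274, 8, 8, 8, 0, 0]⟩, ⟨-1277, [8, 8, 8, 8, 13, 2178]⟩, e00, e00, e00, e00]
    | .thrR => [e00, e00, e00, e00, e00, e00]
    | .thrL => [e00, e00, e00, e00, e00, e00]
    | .threeE => [e00, e00, e00, e00, e00, e00]
    | .ring => [e00, e00, e00, e00, e00, e00]
  gq := fun
    | .one => [e00, e00, e00, e00, e00, e00, e00, e00]
    | .two => [e00, e00, e00, e00, e00, e00]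
    | .twoE => [e00, e00, e00, e00, e00, e00]
    | .thrR => [e00, e00, e00, e00, e00, e00]
    | .thrL => [e00, e00, e00, e00, e00, e00]
    | .threeE => [e00, e00, e00, e00, e00, e00]
    | .ring => [⟨938, [557698, 8, 8, 8, 2179, 8]⟩, ⟨938, [0, 0, 0, 0, 2179, 8]⟩, ⟨938, [0, 0, 0, 0, 8, 8]⟩, ⟨110, [0, 0, 0, 0, 40168368581274837787267, 8]⟩, ⟨110, [0, 0, 0, 0, 741316477460201035164654344967014795346722, 2178]⟩, e00]

/-- mode -/
def a2e_7_m2 : Mode where
  md := .V 550 1000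
  lam := 250
  ct := 2500
  gp := fun
    | .one => [e00, e00, e00, e00, e00, e00, e00, e00]
    | .two => [e00, e00, e00, e00, e00, e00]
    | .twoE => [⟨-478, [4232168788550506740082041731501800876148004500697407924791017835971439186824059527762466, 8, 8, 8, 0, 0]⟩, e00, e00, e00, e00, e00]
    | .thrR => [e00, e00, e00, e00, e00, e00]
    | .thrL => [e00, e00, e00, e00, e00, e00]
    | .threeE => [e00, e00, e00, e00, e00, e00]
    | .ring => [e00, e00, e00, e00, e00, e00]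
  gq := fun
    | .one => [e00, e00, e00, e00, e00, e00, e00, e00]
    | .two => [e00, e00, e00, e00, e00, e00]
    | .twoE => [e00, e00, e00, e00, e00, e00]
    | .thrR => [e00, e00, e00, e00, e00, e00]
    | .thrL => [e00, e00, e00, e00, e00, e00]
    | .threeE => [e00, e00, e00, e00, e00, e00]
    | .ring => [⟨306, [142836354, 2179, 2179, 8, 2144108110202346958230735782043456828064010773712199817717625567587530099836451088936477754227841987040430545603131206502498486764008244184102712093420269295862659, 8]⟩, ⟨306, [0, 0, 0, 0, 814734871345170740852999846229538918302379937613710211, 8]⟩, ⟨306, [0, 0, 0, 0, 143139203, 8]⟩, e00, e00, e00]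

/-- piece -/
def a2e_7 : Piece := ⟨8500, 8600, 0, 820, a2e_7_wp, a2e_7_wq, [a2e_7_m0, a2e_7_m1, a2e_7_m2]⟩

set_option linter.defProp false

def a2e_7_r0_one0 : rowsOk stA2E a2e_7 a2e_7_m0 false .one = true := by decide +kernel

def a2e_7_r0_one1 : rowsOk stA2E a2e_7 a2e_7_m0 true .one = true := by decide +kernel

def a2e_7_r0_two0 : rowsOk stA2E a2e_7 a2e_7_m0 false .two = true := by decide +kernel

def a2e_7_r0_two1 : rowsOk stA2E a2e_7 a2e_7_m0 true .two = true := by decide +kernel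

def a2e_7_r0_twoE0 : rowsOk stA2E a2e_7 a2e_7_m0 false .twoE = true := by decide +kernel

def a2e_7_r0_twoE1 : rowsOk stA2E a2e_7 a2e_7_m0 true .twoE = true := by decide +kernel

def a2e_7_r0_thrR0 : rowsOk stA2E a2e_7 a2e_7_m0 false .thrR = true := by decide +kernel

def a2e_7_r0_thrR1 : rowsOk stA2E a2e_7 a2e_7_m0 true .thrR = true := by decide +kernel

def a2e_7_r0_thrL0 : rowsOk stA2E a2e_7 a2e_7_m0 false .thrL = true := by decide +kernel

def a2e_7_r0_thrL1 : rowsOk stA2E a2e_7 a2e_7_m0 true .thrL = true := by decide +kernel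

def a2e_7_r0_threeE0 : rowsOk stA2E a2e_7 a2e_7_m0 false .threeE = true := by decide +kernel

def a2e_7_r0_threeE1 : rowsOk stA2E a2e_7 a2e_7_m0 true .threeE = true := by decide +kernel

def a2e_7_r0_ring0 : rowsOk stA2E a2e_7 a2e_7_m0 false .ring = true := by decide +kernel

def a2e_7_r0_ring1 : rowsOk stA2E a2e_7 a2e_7_m0 true .ring = true := by decide +kernel

def a2e_7_r1_one0 : rowsOk stA2E a2e_7 a2e_7_m1 false .one = true := by decide +kernel

def a2e_7_r1_one1 : rowsOk stA2E a2e_7 a2e_7_m1 true .one = true := by decide +kernel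

def a2e_7_r1_two0 : rowsOk stA2E a2e_7 a2e_7_m1 false .two = true := by decide +kernel

def a2e_7_r1_two1 : rowsOk stA2E a2e_7 a2e_7_m1 true .two = true := by decide +kernel

def a2e_7_r1_twoE0 : rowsOk stA2E a2e_7 a2e_7_m1 false .twoE = true := by decide +kernel

def a2e_7_r1_twoE1 : rowsOk stA2E a2e_7 a2e_7_m1 true .twoE = true := by decide +kernel

def a2e_7_r1_thrR0 : rowsOk stA2E a2e_7 a2e_7_m1 false .thrR = true := by decide +kernel

def a2e_7_r1_thrR1 : rowsOk stA2E a2e_7 a2e_7_m1 true .thrR = true := by decide +kernel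

def a2e_7_r1_thrL0 : rowsOk stA2E a2e_7 a2e_7_m1 false .thrL = true := by decide +kernel

def a2e_7_r1_thrL1 : rowsOk stA2E a2e_7 a2e_7_m1 true .thrL = true := by decide +kernel

def a2e_7_r1_threeE0 : rowsOk stA2E a2e_7 a2e_7_m1 false .threeE = true := by decide +kernel

def a2e_7_r1_threeE1 : rowsOk stA2E a2e_7 a2e_7_m1 true .threeE = true := by decide +kernel

def a2e_7_r1_ring0 : rowsOk stA2E a2e_7 a2e_7_m1 false .ring = true := by decide +kernel

def a2e_7_r1_ring1 : rowsOk stA2E a2e_7 a2e_7_m1 true .ring = true := by decide +kernel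

def a2e_7_r2_one0 : rowsOk stA2E a2e_7 a2e_7_m2 false .one = true := by decide +kernel

def a2e_7_r2_one1 : rowsOk stA2E a2e_7 a2e_7_m2 true .one = true := by decide +kernel

def a2e_7_r2_two0 : rowsOk stA2E a2e_7 a2e_7_m2 false .two = true := by decide +kernel

def a2e_7_r2_two1 : rowsOk stA2E a2e_7 a2e_7_m2 true .two = true := by decide +kernel

def a2e_7_r2_twoE0 : rowsOk stA2E a2e_7 a2e_7_m2 false .twoE = true := by decide +kernel

def a2e_7_r2_twoE1 : rowsOk stA2E a2e_7 a2e_7_m2 true .twoE = true := by decide +kernel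

def a2e_7_r2_thrR0 : rowsOk stA2E a2e_7 a2e_7_m2 false .thrR = true := by decide +kernel

def a2e_7_r2_thrR1 : rowsOk stA2E a2e_7 a2e_7_m2 true .thrR = true := by decide +kernel

def a2e_7_r2_thrL0 : rowsOk stA2E a2e_7 a2e_7_m2 false .thrL = true := by decide +kernel

def a2e_7_r2_thrL1 : rowsOk stA2E a2e_7 a2e_7_m2 true .thrL = true := by decide +kernel

def a2e_7_r2_threeE0 : rowsOk stA2E a2e_7 a2e_7_m2 false .threeE = true := by decide +kernel

def a2e_7_r2_threeE1 : rowsOk stA2E a2e_7 a2e_7_m2 true .threeE = true := by decide +kernel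

def a2e_7_r2_ring0 : rowsOk stA2E a2e_7 a2e_7_m2 false .ring = true := by decide +kernel

def a2e_7_r2_ring1 : rowsOk stA2E a2e_7 a2e_7_m2 true .ring = true := by decide +kernel

theorem a2e_7_r0 : allRows stA2E a2e_7 a2e_7_m0 = true := by
  refine allRows_of fun P => ?_
  cases P
  exacts [⟨a2e_7_r0_one0, a2e_7_r0_one1⟩,
    ⟨a2e_7_r0_two0, a2e_7_r0_two1⟩,
    ⟨a2e_7_r0_twoE0, a2e_7_r0_twoE1⟩,
    ⟨a2e_7_r0_thrR0, a2e_7_r0_thrR1⟩,
    ⟨a2e_7_r0_thrL0, a2e_7_r0_thrL1⟩,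
    ⟨a2e_7_r0_threeE0, a2e_7_r0_threeE1⟩,
    ⟨a2e_7_r0_ring0, a2e_7_r0_ring1⟩]

theorem a2e_7_r1 : allRows stA2E a2e_7 a2e_7_m1 = true := by
  refine allRows_of fun P => ?_
  cases P
  exacts [⟨a2e_7_r1_one0, a2e_7_r1_one1⟩,
    ⟨a2e_7_r1_two0, a2e_7_r1_two1⟩,
    ⟨a2e_7_r1_twoE0, a2e_7_r1_twoE1⟩,
    ⟨a2e_7_r1_thrR0, a2e_7_r1_thrR1⟩,
    ⟨a2e_7_r1_thrL0, a2e_7_r1_thrL1⟩,
    ⟨a2e_7_r1_threeE0, a2e_7_r1_threeE1⟩,
    ⟨a2e_7_r1_ring0, a2e_7_r1_ring1⟩]

theorem a2e_7_r2 : allRows stA2E a2e_7 a2e_7_m2 = true := by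
  refine allRows_of fun P => ?_
  cases P
  exacts [⟨a2e_7_r2_one0, a2e_7_r2_one1⟩,
    ⟨a2e_7_r2_two0, a2e_7_r2_two1⟩,
    ⟨a2e_7_r2_twoE0, a2e_7_r2_twoE1⟩,
    ⟨a2e_7_r2_thrR0, a2e_7_r2_thrR1⟩,
    ⟨a2e_7_r2_thrL0, a2e_7_r2_thrL1⟩,
    ⟨a2e_7_r2_threeE0, a2e_7_r2_threeE1⟩,
    ⟨a2e_7_r2_ring0, a2e_7_r2_ring1⟩]

theorem a2e_7_ok : a2e_7.ok stA2E = true := by
  have h : (PC.all.all fun P => PC.all.all fun Q => pairOk stA2E a2e_7 P Q) = true := by decide +kernel
  have d0 : mdOk stA2E a2e_7_m0.md = true := by decide +kernel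
  have d1 : mdOk stA2E a2e_7_m1.md = true := by decide +kernel
  have d2 : mdOk stA2E a2e_7_m2.md = true := by decide +kernel
  unfold Piece.ok
  rw [h, Bool.true_and]
  show List.all [a2e_7_m0, a2e_7_m1, a2e_7_m2] _ = true
  rw [List.all_eq_true]
  intro m hm
  simp only [List.mem_cons, List.not_mem_nil, or_false] at hm
  rcases hm with rfl | rfl | rfl
  · rw [a2e_7_r0, d0]; rfl
  · rw [a2e_7_r1, d1]; rfl
  · rw [a2e_7_r2, d2]; rfl

end OR

end Pool.Agent.Work.MP_b30479_gtS.G2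

end

section

set_option deprecated.oldSectionVars true

namespace Pool.Agent.Work.MP_b30479_gtS.G2

namespace OR

/-- windows -/
def s2f_2_wp : PC → Win
  | .one => ⟨0, 0, 0, 0, 0, 0⟩
  | .two => ⟨-230, 780, -360, 760, -660, 530⟩
  | .twoE => ⟨-790, -140, -520, 270, -160, 820⟩
  | .thrR => ⟨100, 920, -70, 910, -630, 480⟩
  | .thrL => ⟨100, 920, -70, 910, -630, 480⟩
  | .threeE => ⟨-20, 610, 0, 860, -380, 650⟩
  | .ring => ⟨270, 1300, 110, 1120, -820, 440⟩

/-- windows -/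
def s2f_2_wq : PC → Win
  | .one => ⟨0, 0, 0, 0, 0, 0⟩
  | .two => ⟨-230, 780, -360, 760, -660, 530⟩
  | .twoE => ⟨-790, -140, -520, 270, -160, 820⟩
  | .thrR => ⟨100, 920, -70, 910, -630, 480⟩
  | .thrL => ⟨100, 920, -70, 910, -630, 480⟩
  | .threeE => ⟨-20, 610, 0, 860, -380, 650⟩
  | .ring => ⟨270, 1300, 110, 1120, -820, 440⟩

/-- mode -/
def s2f_2_m0 : Mode where
  md := .D
  lam := 0
  ct := 0
  gp := fun
    | .one => [e00, e00, e00, e00, e00, e00, e00, e00]
    | .two => [e00, e00, e00, e00, e00, e00]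
    | .twoE => [e00, e00, e00, e00, e00]
    | .thrR => [e00, e00, e00, e00, e00, ⟨-4781, [673913363083257523960450032290]⟩]
    | .thrL => [e00, e00, e00, e00, e00]
    | .threeE => [e00, e00, e00, e00, e00, e00]
    | .ring => [e00, e00, e00, e00, e00, ⟨-4944, [674524430415135366579595387554]⟩]
  gq := fun
    | .one => [e00, e00, e00, e00, e00, e00, e00, e00]
    | .two => [⟨4940, [36532553777]⟩, ⟨4940, [557953]⟩, ⟨4777, [36644749697]⟩, ⟨4777, [9352434100242]⟩, ⟨4777, [2178]⟩, ⟨4777, [2177]⟩]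
    | .twoE => [⟨4777, [8]⟩, ⟨4777, [8]⟩, ⟨4777, [8]⟩, ⟨4777, [8]⟩, ⟨4777, [8]⟩]
    | .thrR => [e00, e00, e00, ⟨4940, [2633652131136724488204878354]⟩, ⟨4940, [2178]⟩, ⟨4940, [40168366615942629853218]⟩]
    | .thrL => [e00, e00, e00, ⟨4940, [40167909219103598449283]⟩, ⟨4777, [8]⟩]
    | .threeE => [⟨4777, [8]⟩, ⟨4777, [8]⟩, ⟨4777, [8]⟩, ⟨4777, [2177]⟩, ⟨4777, [2178]⟩, ⟨4777, [8]⟩]
    | .ring => [e00, e00, e00, e00, ⟨4940, [48582889405696903714520017534811451468564996386]⟩, ⟨4777, [40167967642751033575442]⟩]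

/-- mode -/
def s2f_2_m1 : Mode where
  md := .V 250 1000
  lam := 250
  ct := 0
  gp := fun
    | .one => [e00, e00, e00, e00, e00, e00, e00, e00]
    | .two => [e00, e00, e00, e00, e00, e00]
    | .twoE => [e00, e00, e00, e00, e00]
    | .thrR => [e00, e00, e00, e00, e00, ⟨-660, [21984746229639437311837618928104538633421548196239171125400233338127539457041615439552947078258896785093590979506612576930]⟩]
    | .thrL => [e00, e00, e00, e00, e00]
    | .threeE => [e00, e00, e00, e00, e00, e00]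
    | .ring => [e00, e00, e00, e00, e00, ⟨-723, [137873892259197935747937828615677382168688590382522723934321518977576786542628096740665503123504500706813441316223279149662773014279491577439517573621185611034704779857976270398114]⟩]
  gq := fun
    | .one => [e00, e00, e00, e00, e00, e00, e00, e00]
    | .two => [⟨369, [142772273]⟩, ⟨369, [2177]⟩, e00, e00, e00, e00]
    | .twoE => [e00, e00, e00, e00, e00]
    | .thrR => [⟨341, [142772273]⟩, ⟨341, [557953]⟩, ⟨341, [2177]⟩, e00, e00, e00]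
    | .thrL => [⟨341, [36566108193]⟩, ⟨341, [2177]⟩, ⟨341, [2177]⟩, ⟨344, [36566108193]⟩, e00]
    | .threeE => [e00, e00, e00, e00, e00, e00]
    | .ring => [⟨279, [256766259570595380975608101494879117339296545]⟩, ⟨279, [13940786161208036768843793]⟩, ⟨279, [3568841257294896415326308369]⟩, ⟨279, [72386232795462457807633832835451180467811676128316051652897]⟩, ⟨279, [2903296319969230976607976002637599879698]⟩, e00]

/-- piece -/
def s2f_2 : Piece := ⟨3230, 3300, -820, 820, s2f_2_wp, s2f_2_wq, [s2f_2_m0, s2f_2_m1]⟩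

set_option linter.defProp false

def s2f_2_r0_one0 : rowsOk stS2F s2f_2 s2f_2_m0 false .one = true := by decide +kernel

def s2f_2_r0_one1 : rowsOk stS2F s2f_2 s2f_2_m0 true .one = true := by decide +kernel

def s2f_2_r0_two0 : rowsOk stS2F s2f_2 s2f_2_m0 false .two = true := by decide +kernel

def s2f_2_r0_two1 : rowsOk stS2F s2f_2 s2f_2_m0 true .two = true := by decide +kernel

def s2f_2_r0_twoE0 : rowsOk stS2F s2f_2 s2f_2_m0 false .twoE = true := by decide +kernel

def s2f_2_r0_twoE1 : rowsOk stS2F s2f_2 s2f_2_m0 true .twoE = true := by decide +kernel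

def s2f_2_r0_thrR0 : rowsOk stS2F s2f_2 s2f_2_m0 false .thrR = true := by decide +kernel

def s2f_2_r0_thrR1 : rowsOk stS2F s2f_2 s2f_2_m0 true .thrR = true := by decide +kernel

def s2f_2_r0_thrL0 : rowsOk stS2F s2f_2 s2f_2_m0 false .thrL = true := by decide +kernel

def s2f_2_r0_thrL1 : rowsOk stS2F s2f_2 s2f_2_m0 true .thrL = true := by decide +kernel

def s2f_2_r0_threeE0 : rowsOk stS2F s2f_2 s2f_2_m0 false .threeE = true := by decide +kernel

def s2f_2_r0_threeE1 : rowsOk stS2F s2f_2 s2f_2_m0 true .threeE = true := by decide +kernel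

def s2f_2_r0_ring0 : rowsOk stS2F s2f_2 s2f_2_m0 false .ring = true := by decide +kernel

def s2f_2_r0_ring1 : rowsOk stS2F s2f_2 s2f_2_m0 true .ring = true := by decide +kernel

def s2f_2_r1_one0 : rowsOk stS2F s2f_2 s2f_2_m1 false .one = true := by decide +kernel

def s2f_2_r1_one1 : rowsOk stS2F s2f_2 s2f_2_m1 true .one = true := by decide +kernel

def s2f_2_r1_two0 : rowsOk stS2F s2f_2 s2f_2_m1 false .two = true := by decide +kernel

def s2f_2_r1_two1 : rowsOk stS2F s2f_2 s2f_2_m1 true .two = true := by decide +kernel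

def s2f_2_r1_twoE0 : rowsOk stS2F s2f_2 s2f_2_m1 false .twoE = true := by decide +kernel

def s2f_2_r1_twoE1 : rowsOk stS2F s2f_2 s2f_2_m1 true .twoE = true := by decide +kernel

def s2f_2_r1_thrR0 : rowsOk stS2F s2f_2 s2f_2_m1 false .thrR = true := by decide +kernel

def s2f_2_r1_thrR1 : rowsOk stS2F s2f_2 s2f_2_m1 true .thrR = true := by decide +kernel

def s2f_2_r1_thrL0 : rowsOk stS2F s2f_2 s2f_2_m1 false .thrL = true := by decide +kernel

def s2f_2_r1_thrL1 : rowsOk stS2F s2f_2 s2f_2_m1 true .thrL = true := by decide +kernel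

def s2f_2_r1_threeE0 : rowsOk stS2F s2f_2 s2f_2_m1 false .threeE = true := by decide +kernel

def s2f_2_r1_threeE1 : rowsOk stS2F s2f_2 s2f_2_m1 true .threeE = true := by decide +kernel

def s2f_2_r1_ring0 : rowsOk stS2F s2f_2 s2f_2_m1 false .ring = true := by decide +kernel

def s2f_2_r1_ring1 : rowsOk stS2F s2f_2 s2f_2_m1 true .ring = true := by decide +kernel

theorem s2f_2_r0 : allRows stS2F s2f_2 s2f_2_m0 = true := by
  refine allRows_of fun P => ?_
  cases P
  exacts [⟨s2f_2_r0_one0, s2f_2_r0_one1⟩,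
    ⟨s2f_2_r0_two0, s2f_2_r0_two1⟩,
    ⟨s2f_2_r0_twoE0, s2f_2_r0_twoE1⟩,
    ⟨s2f_2_r0_thrR0, s2f_2_r0_thrR1⟩,
    ⟨s2f_2_r0_thrL0, s2f_2_r0_thrL1⟩,
    ⟨s2f_2_r0_threeE0, s2f_2_r0_threeE1⟩,
    ⟨s2f_2_r0_ring0, s2f_2_r0_ring1⟩]

theorem s2f_2_r1 : allRows stS2F s2f_2 s2f_2_m1 = true := by
  refine allRows_of fun P => ?_
  cases P
  exacts [⟨s2f_2_r1_one0, s2f_2_r1_one1⟩,
    ⟨s2f_2_r1_two0, s2f_2_r1_two1⟩,
    ⟨s2f_2_r1_twoE0, s2f_2_r1_twoE1⟩,
    ⟨s2f_2_r1_thrR0, s2f_2_r1_thrR1⟩,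
    ⟨s2f_2_r1_thrL0, s2f_2_r1_thrL1⟩,
    ⟨s2f_2_r1_threeE0, s2f_2_r1_threeE1⟩,
    ⟨s2f_2_r1_ring0, s2f_2_r1_ring1⟩]

theorem s2f_2_ok : s2f_2.ok stS2F = true := by
  have h : (PC.all.all fun P => PC.all.all fun Q => pairOk stS2F s2f_2 P Q) = true := by decide +kernel
  have d0 : mdOk stS2F s2f_2_m0.md = true := by decide +kernel
  have d1 : mdOk stS2F s2f_2_m1.md = true := by decide +kernel
  unfold Piece.ok
  rw [h, Bool.true_and]
  show List.all [s2f_2_m0, s2f_2_m1] _ = true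
  rw [List.all_eq_true]
  intro m hm
  simp only [List.mem_cons, List.not_mem_nil, or_false] at hm
  rcases hm with rfl | rfl
  · rw [s2f_2_r0, d0]; rfl
  · rw [s2f_2_r1, d1]; rfl

end OR

end Pool.Agent.Work.MP_b30479_gtS.G2

end

section

set_option deprecated.oldSectionVars true

namespace Pool.Agent.Work.MP_b30479_gtS.G2

namespace OR

/-- windows -/
def s2f_3_wp : PC → Win
  | .one => ⟨0, 0, 0, 0, 0, 0⟩
  | .two => ⟨-230, 780, -360, 760, -660, 530⟩
  | .twoE => ⟨-790, -140, -520, 270, -160, 820⟩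
  | .thrR => ⟨100, 920, -70, 910, -630, 480⟩
  | .thrL => ⟨100, 920, -70, 910, -630, 480⟩
  | .threeE => ⟨-20, 610, 0, 860, -380, 650⟩
  | .ring => ⟨270, 1300, 110, 1120, -820, 440⟩

/-- windows -/
def s2f_3_wq : PC → Win
  | .one => ⟨0, 0, 0, 0, 0, 0⟩
  | .two => ⟨-230, 780, -360, 760, -660, 530⟩
  | .twoE => ⟨-790, -140, -520, 270, -160, 820⟩
  | .thrR => ⟨100, 920, -70, 910, -630, 480⟩
  | .thrL => ⟨100, 920, -70, 910, -630, 480⟩
  | .threeE => ⟨-20, 610, 0, 860, -380, 650⟩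
  | .ring => ⟨270, 1300, 110, 1120, -820, 440⟩

/-- mode -/
def s2f_3_m0 : Mode where
  md := .D
  lam := 0
  ct := 0
  gp := fun
    | .one => [e00, e00, e00, e00, e00, e00, e00, e00]
    | .two => [e00, e00, e00, e00, e00, e00]
    | .twoE => [e00, e00, e00, e00, e00]
    | .thrR => [e00, e00, e00, e00, e00, ⟨-4772, [9352317010705, 8, 0]⟩]
    | .thrL => [e00, e00, e00, e00, e00]
    | .threeE => [e00, e00, e00, e00, e00, e00]
    | .ring => [e00, e00, e00, e00, e00, ⟨-5031, [36566042641, 2177, 0]⟩]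
  gq := fun
    | .one => [e00, e00, e00, e00, e00, e00, e00, e00]
    | .two => [⟨4768, [36566040962]⟩, ⟨4768, [142836097]⟩, ⟨4768, [143135361]⟩, ⟨4768, [36532922386]⟩, ⟨4768, [557442]⟩, ⟨4768, [2178]⟩]
    | .twoE => [⟨4768, [8]⟩, ⟨4768, [8]⟩, ⟨4768, [8]⟩, ⟨4768, [8]⟩, ⟨4768, [8]⟩]
    | .thrR => [⟨5027, [829651352908105777]⟩, ⟨5027, [54464095337301009467425]⟩, ⟨5027, [12679305724801]⟩, ⟨5027, [40289024524021672739602]⟩, ⟨5027, [2178]⟩, ⟨5027, [2394197442332706, 8, 0]⟩]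
    | .thrL => [⟨5027, [829651377335730562]⟩, ⟨5027, [830941074141971329]⟩, ⟨5027, [12679305724801]⟩, ⟨4768, [10282984760090521210262147]⟩, ⟨4768, [8]⟩]
    | .threeE => [⟨4768, [8]⟩, ⟨4768, [8]⟩, ⟨4768, [8]⟩, ⟨4768, [2177]⟩, ⟨4768, [2178]⟩, ⟨4768, [2178]⟩]
    | .ring => [e00, e00, e00, e00, ⟨4768, [48582889405698018986015746479674422535653499170]⟩, ⟨4768, [2394221222987794, 8, 0]⟩]

/-- mode -/
def s2f_3_m1 : Mode where
  md := .V 250 1000
  lam := 250
  ct := 0
  gp := fun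
    | .one => [e00, e00, e00, e00, e00, e00, e00, e00]
    | .two => [e00, e00, e00, e00, e00, e00]
    | .twoE => [e00, e00, e00, e00, e00]
    | .thrR => [e00, e00, e00, e00, e00, ⟨-727, [335152790287262694223443194438854067170877749963360017127176003369801185391285709978854879938738531865893868068348178, 9381039577105, 0, 0, 0, 0]⟩]
    | .thrL => [e00, e00, e00, e00, e00]
    | .threeE => [e00, e00, e00, e00, e00, e00]
    | .ring => [e00, e00, e00, e00, e00, ⟨-790, [6201037304256045870397029924410400903631832022176749143449634566768682356324285346914170200489434014262609645589103274326256737247768850, 2394221760250641, 0, 0, 0, 0]⟩]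
  gq := fun
    | .one => [e00, e00, e00, e00, e00, e00, e00, e00]
    | .two => [e00, e00, e00, e00, e00, e00]
    | .twoE => [e00, e00, e00, e00, e00]
    | .thrR => [e00, e00, e00, e00, e00, e00]
    | .thrL => [⟨411, [36566108209]⟩, ⟨411, [2177]⟩, ⟨411, [2177]⟩, e00, e00]
    | .threeE => [e00, e00, e00, e00, e00, e00]
    | .ring => [⟨346, [1122515214140883131600961277052120747526893223550681889]⟩, ⟨346, [17128232485510427979169695718583671317565777917969]⟩, ⟨346, [4384827516290669593308459204431820221885974596565009]⟩, ⟨346, [87509585811729609940775883407582004998781733102438118965362574855109046099733872929]⟩, e00, e00]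

/-- piece -/
def s2f_3 : Piece := ⟨3300, 3450, -820, 820, s2f_3_wp, s2f_3_wq, [s2f_3_m0, s2f_3_m1]⟩

set_option linter.defProp false

def s2f_3_r0_one0 : rowsOk stS2F s2f_3 s2f_3_m0 false .one = true := by decide +kernel

def s2f_3_r0_one1 : rowsOk stS2F s2f_3 s2f_3_m0 true .one = true := by decide +kernel

def s2f_3_r0_two0 : rowsOk stS2F s2f_3 s2f_3_m0 false .two = true := by decide +kernel

def s2f_3_r0_two1 : rowsOk stS2F s2f_3 s2f_3_m0 true .two = true := by decide +kernel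

def s2f_3_r0_twoE0 : rowsOk stS2F s2f_3 s2f_3_m0 false .twoE = true := by decide +kernel

def s2f_3_r0_twoE1 : rowsOk stS2F s2f_3 s2f_3_m0 true .twoE = true := by decide +kernel

def s2f_3_r0_thrR0 : rowsOk stS2F s2f_3 s2f_3_m0 false .thrR = true := by decide +kernel

def s2f_3_r0_thrR1 : rowsOk stS2F s2f_3 s2f_3_m0 true .thrR = true := by decide +kernel

def s2f_3_r0_thrL0 : rowsOk stS2F s2f_3 s2f_3_m0 false .thrL = true := by decide +kernel

def s2f_3_r0_thrL1 : rowsOk stS2F s2f_3 s2f_3_m0 true .thrL = true := by decide +kernel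

def s2f_3_r0_threeE0 : rowsOk stS2F s2f_3 s2f_3_m0 false .threeE = true := by decide +kernel

def s2f_3_r0_threeE1 : rowsOk stS2F s2f_3 s2f_3_m0 true .threeE = true := by decide +kernel

def s2f_3_r0_ring0 : rowsOk stS2F s2f_3 s2f_3_m0 false .ring = true := by decide +kernel

def s2f_3_r0_ring1 : rowsOk stS2F s2f_3 s2f_3_m0 true .ring = true := by decide +kernel

def s2f_3_r1_one0 : rowsOk stS2F s2f_3 s2f_3_m1 false .one = true := by decide +kernel

def s2f_3_r1_one1 : rowsOk stS2F s2f_3 s2f_3_m1 true .one = true := by decide +kernel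

def s2f_3_r1_two0 : rowsOk stS2F s2f_3 s2f_3_m1 false .two = true := by decide +kernel

def s2f_3_r1_two1 : rowsOk stS2F s2f_3 s2f_3_m1 true .two = true := by decide +kernel

def s2f_3_r1_twoE0 : rowsOk stS2F s2f_3 s2f_3_m1 false .twoE = true := by decide +kernel

def s2f_3_r1_twoE1 : rowsOk stS2F s2f_3 s2f_3_m1 true .twoE = true := by decide +kernel

def s2f_3_r1_thrR0 : rowsOk stS2F s2f_3 s2f_3_m1 false .thrR = true := by decide +kernel

def s2f_3_r1_thrR1 : rowsOk stS2F s2f_3 s2f_3_m1 true .thrR = true := by decide +kernel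

def s2f_3_r1_thrL0 : rowsOk stS2F s2f_3 s2f_3_m1 false .thrL = true := by decide +kernel

def s2f_3_r1_thrL1 : rowsOk stS2F s2f_3 s2f_3_m1 true .thrL = true := by decide +kernel

def s2f_3_r1_threeE0 : rowsOk stS2F s2f_3 s2f_3_m1 false .threeE = true := by decide +kernel

def s2f_3_r1_threeE1 : rowsOk stS2F s2f_3 s2f_3_m1 true .threeE = true := by decide +kernel

def s2f_3_r1_ring0 : rowsOk stS2F s2f_3 s2f_3_m1 false .ring = true := by decide +kernel

def s2f_3_r1_ring1 : rowsOk stS2F s2f_3 s2f_3_m1 true .ring = true := by decide +kernel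

theorem s2f_3_r0 : allRows stS2F s2f_3 s2f_3_m0 = true := by
  refine allRows_of fun P => ?_
  cases P
  exacts [⟨s2f_3_r0_one0, s2f_3_r0_one1⟩,
    ⟨s2f_3_r0_two0, s2f_3_r0_two1⟩,
    ⟨s2f_3_r0_twoE0, s2f_3_r0_twoE1⟩,
    ⟨s2f_3_r0_thrR0, s2f_3_r0_thrR1⟩,
    ⟨s2f_3_r0_thrL0, s2f_3_r0_thrL1⟩,
    ⟨s2f_3_r0_threeE0, s2f_3_r0_threeE1⟩,
    ⟨s2f_3_r0_ring0, s2f_3_r0_ring1⟩]

theorem s2f_3_r1 : allRows stS2F s2f_3 s2f_3_m1 = true := by
  refine allRows_of fun P => ?_
  cases P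
  exacts [⟨s2f_3_r1_one0, s2f_3_r1_one1⟩,
    ⟨s2f_3_r1_two0, s2f_3_r1_two1⟩,
    ⟨s2f_3_r1_twoE0, s2f_3_r1_twoE1⟩,
    ⟨s2f_3_r1_thrR0, s2f_3_r1_thrR1⟩,
    ⟨s2f_3_r1_thrL0, s2f_3_r1_thrL1⟩,
    ⟨s2f_3_r1_threeE0, s2f_3_r1_threeE1⟩,
    ⟨s2f_3_r1_ring0, s2f_3_r1_ring1⟩]

theorem s2f_3_ok : s2f_3.ok stS2F = true := by
  have h : (PC.all.all fun P => PC.all.all fun Q => pairOk stS2F s2f_3 P Q) = true := by decide +kernel
  have d0 : mdOk stS2F s2f_3_m0.md = true := by decide +kernel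
  have d1 : mdOk stS2F s2f_3_m1.md = true := by decide +kernel
  unfold Piece.ok
  rw [h, Bool.true_and]
  show List.all [s2f_3_m0, s2f_3_m1] _ = true
  rw [List.all_eq_true]
  intro m hm
  simp only [List.mem_cons, List.not_mem_nil, or_false] at hm
  rcases hm with rfl | rfl
  · rw [s2f_3_r0, d0]; rfl
  · rw [s2f_3_r1, d1]; rfl

end OR

end Pool.Agent.Work.MP_b30479_gtS.G2

end

section

set_option deprecated.oldSectionVars true

namespace Pool.Agent.Work.MP_b30479_gtS.G2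

namespace OR

/-- windows -/
def s2f_8_wp : PC → Win
  | .one => ⟨0, 0, 0, 0, 0, 0⟩
  | .two => ⟨-230, 780, -360, 760, -660, 530⟩
  | .twoE => ⟨-790, -140, -520, 270, -160, 820⟩
  | .thrR => ⟨100, 920, -70, 910, -630, 480⟩
  | .thrL => ⟨100, 920, -70, 910, -630, 480⟩
  | .threeE => ⟨-20, 610, 0, 860, -380, 650⟩
  | .ring => ⟨270, 1300, 110, 1120, -820, 440⟩

/-- windows -/
def s2f_8_wq : PC → Win
  | .one => ⟨0, 0, 0, 0, 0, 0⟩
  | .two => ⟨-230, 780, -360, 760, -660, 530⟩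
  | .twoE => ⟨-790, -140, -520, 270, -160, 820⟩
  | .thrR => ⟨100, 920, -70, 910, -630, 480⟩
  | .thrL => ⟨100, 920, -70, 910, -630, 480⟩
  | .threeE => ⟨-20, 610, 0, 860, -380, 650⟩
  | .ring => ⟨270, 1300, 110, 1120, -820, 440⟩

/-- mode -/
def s2f_8_m0 : Mode where
  md := .D
  lam := 2500
  ct := 0
  gp := fun
    | .one => [e00, e00, e00, e00, e00, e00, e00, e00]
    | .two => [e00, e00, e00, e00, ⟨-5191, [1965513832338959947528295613212131255396162878359443968687352564811171621917046483631139339607638360247302805732196219483399820235594532856065824166622231781894636671096000816794023617468017812867046428985617776323357761881818389168181890698983405100296682211372721795992471687054338768777218366861324091893416420532917486550309355135123488726823613610790199319339559504222887720884639188431939319496186283049904466759932628652903972724686319460793936161972102148834588114246341288691707320942695415289891403963433634]⟩, ⟨-5191, [65070447357786877501365465917887248,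 8, 674532484220934072021365043505]⟩]
    | .twoE => [e00, e00, e00, e00, e00]
    | .thrR => [e00, e00, e00, e00, ⟨-5462, [114151353559205585586037331840357427318968795074013861774000803390835504398553111252848876759073725612222647517285045362597675493046285431075144666117178018]⟩, ⟨-5462, [1103677859504073567753893682264047571696595358706022428781619712222667061035569, 8, 3192025375588811389168258445522306229789395355115810]⟩]
    | .thrL => [e00, e00, e00, e00, e00]
    | .threeE => [e00, e00, e00, e00, ⟨-4916, [36644685873, 8, 0]⟩, ⟨-4916, [0, 8, 36532918290]⟩]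
    | .ring => [e00, e00, e00, e00, ⟨-6091, [741656320098176501089093196379970498728737, 8, 0]⟩, ⟨-6091, [0, 8, 189689749510258539311116335429751288232087842]⟩]
  gq := fun
    | .one => [e00, e00, e00, e00, e00, e00, e00, e00]
    | .two => [⟨2562, [8]⟩, ⟨2562, [8]⟩, ⟨2562, [8]⟩, ⟨2562, [557698]⟩, ⟨2562, [474753515070290007365301849145915416173879413789033223717485010167927415279930444808949339597659757010459726816263797089549626675328586299257906898257025861044712476914694186869696938503053757959078812634703844899907278768115195822577773435359928106496279682284411032504740379474673615613383295225928720233220033087153780907025725161762]⟩, ⟨2562, [40289096453340991619377, 8, 2394221256933681]⟩]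
    | .twoE => [⟨4358, [8]⟩, ⟨4358, [8]⟩, ⟨4358, [8]⟩, ⟨4358, [8]⟩, ⟨4358, [8]⟩]
    | .thrR => [⟨2312, [8]⟩, ⟨2312, [2177]⟩, ⟨2312, [8]⟩, ⟨2312, [142772242]⟩, ⟨2312, [4230223896983388008356285989584236489127101675908999761231120907603118508256053473870610]⟩, ⟨2312, [172521823367764042929465378505009, 8, 40297166936858058371362]⟩]
    | .thrL => [⟨2312, [8]⟩, ⟨2312, [8]⟩, ⟨2312, [8]⟩, ⟨2312, [2178]⟩, ⟨2312, [8]⟩]
    | .threeE => [⟨2858, [8]⟩, ⟨2858, [8]⟩, ⟨2858, [8]⟩, ⟨2858, [2177]⟩, ⟨2858, [613477495441885202, 8, 0]⟩, ⟨2858, [0, 8, 142706705]⟩]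
    | .ring => [⟨1683, [829651348629850130]⟩, ⟨1683, [12659553567617]⟩, ⟨1683, [49450943361]⟩, ⟨1683, [2396392178001938]⟩, ⟨1683, [48605187913223169251464958211224287420833038626, 8, 0]⟩, ⟨1683, [0, 8, 2401889736134946]⟩]

/-- piece -/
def s2f_8 : Piece := ⟨4500, 4800, -820, 820, s2f_8_wp, s2f_8_wq, [s2f_8_m0]⟩

set_option linter.defProp false

def s2f_8_r0_one0 : rowsOk stS2F s2f_8 s2f_8_m0 false .one = true := by decide +kernel

def s2f_8_r0_one1 : rowsOk stS2F s2f_8 s2f_8_m0 true .one = true := by decide +kernel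

def s2f_8_r0_two0_0 : cellOk stS2F s2f_8 s2f_8_m0 false .two ((stS2F.bins .two).getD 0 b00)
    ((s2f_8_m0.g false .two).getD 0 e00) = true := by decide +kernel

def s2f_8_r0_two0_1 : cellOk stS2F s2f_8 s2f_8_m0 false .two ((stS2F.bins .two).getD 1 b00)
    ((s2f_8_m0.g false .two).getD 1 e00) = true := by decide +kernel

def s2f_8_r0_two0_2 : cellOk stS2F s2f_8 s2f_8_m0 false .two ((stS2F.bins .two).getD 2 b00)
    ((s2f_8_m0.g false .two).getD 2 e00) = true := by decide +kernel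

def s2f_8_r0_two0_3 : cellOk stS2F s2f_8 s2f_8_m0 false .two ((stS2F.bins .two).getD 3 b00)
    ((s2f_8_m0.g false .two).getD 3 e00) = true := by decide +kernel

def s2f_8_r0_two0_4 : cellOk stS2F s2f_8 s2f_8_m0 false .two ((stS2F.bins .two).getD 4 b00)
    ((s2f_8_m0.g false .two).getD 4 e00) = true := by decide +kernel

def s2f_8_r0_two0_5 : cellOk stS2F s2f_8 s2f_8_m0 false .two ((stS2F.bins .two).getD 5 b00)
    ((s2f_8_m0.g false .two).getD 5 e00) = true := by decide +kernel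

theorem s2f_8_r0_two0 : rowsOk stS2F s2f_8 s2f_8_m0 false .two = true := by
  refine rowsOk_of fun i hi => ?_
  have hi : i < 6 := hi
  interval_cases i
  exacts [s2f_8_r0_two0_0, s2f_8_r0_two0_1, s2f_8_r0_two0_2, s2f_8_r0_two0_3, s2f_8_r0_two0_4, s2f_8_r0_two0_5]

def s2f_8_r0_two1_0 : cellOk stS2F s2f_8 s2f_8_m0 true .two ((stS2F.bins .two).getD 0 b00)
    ((s2f_8_m0.g true .two).getD 0 e00) = true := by decide +kernel

def s2f_8_r0_two1_1 : cellOk stS2F s2f_8 s2f_8_m0 true .two ((stS2F.bins .two).getD 1 b00)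
    ((s2f_8_m0.g true .two).getD 1 e00) = true := by decide +kernel

def s2f_8_r0_two1_2 : cellOk stS2F s2f_8 s2f_8_m0 true .two ((stS2F.bins .two).getD 2 b00)
    ((s2f_8_m0.g true .two).getD 2 e00) = true := by decide +kernel

def s2f_8_r0_two1_3 : cellOk stS2F s2f_8 s2f_8_m0 true .two ((stS2F.bins .two).getD 3 b00)
    ((s2f_8_m0.g true .two).getD 3 e00) = true := by decide +kernel

def s2f_8_r0_two1_4 : cellOk stS2F s2f_8 s2f_8_m0 true .two ((stS2F.bins .two).getD 4 b00)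
    ((s2f_8_m0.g true .two).getD 4 e00) = true := by decide +kernel

def s2f_8_r0_two1_5 : cellOk stS2F s2f_8 s2f_8_m0 true .two ((stS2F.bins .two).getD 5 b00)
    ((s2f_8_m0.g true .two).getD 5 e00) = true := by decide +kernel

theorem s2f_8_r0_two1 : rowsOk stS2F s2f_8 s2f_8_m0 true .two = true := by
  refine rowsOk_of fun i hi => ?_
  have hi : i < 6 := hi
  interval_cases i
  exacts [s2f_8_r0_two1_0, s2f_8_r0_two1_1, s2f_8_r0_two1_2, s2f_8_r0_two1_3, s2f_8_r0_two1_4, s2f_8_r0_two1_5]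

def s2f_8_r0_twoE0 : rowsOk stS2F s2f_8 s2f_8_m0 false .twoE = true := by decide +kernel

def s2f_8_r0_twoE1 : rowsOk stS2F s2f_8 s2f_8_m0 true .twoE = true := by decide +kernel

def s2f_8_r0_thrR0_0 : cellOk stS2F s2f_8 s2f_8_m0 false .thrR ((stS2F.bins .thrR).getD 0 b00)
    ((s2f_8_m0.g false .thrR).getD 0 e00) = true := by decide +kernel

def s2f_8_r0_thrR0_1 : cellOk stS2F s2f_8 s2f_8_m0 false .thrR ((stS2F.bins .thrR).getD 1 b00)
    ((s2f_8_m0.g false .thrR).getD 1 e00) = true := by decide +kernel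

def s2f_8_r0_thrR0_2 : cellOk stS2F s2f_8 s2f_8_m0 false .thrR ((stS2F.bins .thrR).getD 2 b00)
    ((s2f_8_m0.g false .thrR).getD 2 e00) = true := by decide +kernel

def s2f_8_r0_thrR0_3 : cellOk stS2F s2f_8 s2f_8_m0 false .thrR ((stS2F.bins .thrR).getD 3 b00)
    ((s2f_8_m0.g false .thrR).getD 3 e00) = true := by decide +kernel

def s2f_8_r0_thrR0_4 : cellOk stS2F s2f_8 s2f_8_m0 false .thrR ((stS2F.bins .thrR).getD 4 b00)
    ((s2f_8_m0.g false .thrR).getD 4 e00) = true := by decide +kernel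

def s2f_8_r0_thrR0_5 : cellOk stS2F s2f_8 s2f_8_m0 false .thrR ((stS2F.bins .thrR).getD 5 b00)
    ((s2f_8_m0.g false .thrR).getD 5 e00) = true := by decide +kernel

theorem s2f_8_r0_thrR0 : rowsOk stS2F s2f_8 s2f_8_m0 false .thrR = true := by
  refine rowsOk_of fun i hi => ?_
  have hi : i < 6 := hi
  interval_cases i
  exacts [s2f_8_r0_thrR0_0, s2f_8_r0_thrR0_1, s2f_8_r0_thrR0_2, s2f_8_r0_thrR0_3, s2f_8_r0_thrR0_4, s2f_8_r0_thrR0_5]

def s2f_8_r0_thrR1 : rowsOk stS2F s2f_8 s2f_8_m0 true .thrR = true := by decide +kernel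

def s2f_8_r0_thrL0 : rowsOk stS2F s2f_8 s2f_8_m0 false .thrL = true := by decide +kernel

def s2f_8_r0_thrL1 : rowsOk stS2F s2f_8 s2f_8_m0 true .thrL = true := by decide +kernel

def s2f_8_r0_threeE0 : rowsOk stS2F s2f_8 s2f_8_m0 false .threeE = true := by decide +kernel

def s2f_8_r0_threeE1 : rowsOk stS2F s2f_8 s2f_8_m0 true .threeE = true := by decide +kernel

def s2f_8_r0_ring0 : rowsOk stS2F s2f_8 s2f_8_m0 false .ring = true := by decide +kernel

def s2f_8_r0_ring1 : rowsOk stS2F s2f_8 s2f_8_m0 true .ring = true := by decide +kernel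

theorem s2f_8_r0 : allRows stS2F s2f_8 s2f_8_m0 = true := by
  refine allRows_of fun P => ?_
  cases P
  exacts [⟨s2f_8_r0_one0, s2f_8_r0_one1⟩,
    ⟨s2f_8_r0_two0, s2f_8_r0_two1⟩,
    ⟨s2f_8_r0_twoE0, s2f_8_r0_twoE1⟩,
    ⟨s2f_8_r0_thrR0, s2f_8_r0_thrR1⟩,
    ⟨s2f_8_r0_thrL0, s2f_8_r0_thrL1⟩,
    ⟨s2f_8_r0_threeE0, s2f_8_r0_threeE1⟩,
    ⟨s2f_8_r0_ring0, s2f_8_r0_ring1⟩]

theorem s2f_8_ok : s2f_8.ok stS2F = true := by
  have h : (PC.all.all fun P => PC.all.all fun Q => pairOk stS2F s2f_8 P Q) = true := by decide +kernel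
  have d0 : mdOk stS2F s2f_8_m0.md = true := by decide +kernel
  unfold Piece.ok
  rw [h, Bool.true_and]
  show List.all [s2f_8_m0] _ = true
  rw [List.all_eq_true]
  intro m hm
  simp only [List.mem_cons, List.not_mem_nil, or_false] at hm
  rcases hm with rfl
  · rw [s2f_8_r0, d0]; rfl

end OR

end Pool.Agent.Work.MP_b30479_gtS.G2

end
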