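import Pool.Agent.Work.MP_b30479_gt.TBS.G2.OTab

section

set_option deprecated.oldSectionVars true

namespace Pool.Agent.Work.MP_b30479_gtS.G2

namespace OR

/-- windows -/
def a2z_1_wp : PC → Win
  | .one => ⟨0, 0, 0, 0, 0, 0⟩
  | .two => ⟨0, 0, 0, 0, 0, 0⟩
  | .twoE => ⟨0, 0, 0, 0, 0, 0⟩
  | .thrR => ⟨0, 0, 0, 0, 0, 0⟩
  | .thrL => ⟨0, 0, 0, 0, 0, 0⟩
  | .threeE => ⟨0, 0, 0, 0, 0, 0⟩
  | .ring => ⟨270, 1080, 250, 1010, 0, 440⟩

/-- windows -/
def a2z_1_wq : PC → Win
  | .one => ⟨0, 0, 0, 0, 0, 0⟩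
  | .two => ⟨0, 0, 0, 0, 0, 0⟩
  | .twoE => ⟨0, 0, 0, 0, 0, 0⟩
  | .thrR => ⟨0, 0, 0, 0, 0, 0⟩
  | .thrL => ⟨0, 0, 0, 0, 0, 0⟩
  | .threeE => ⟨0, 0, 0, 0, 0, 0⟩
  | .ring => ⟨270, 1080, 250, 1010, -440, 0⟩

/-- mode -/
def a2z_1_m0 : Mode where
  md := .V 300 1000
  lam := 1500
  ct := 1000
  gp := fun
    | .one => [e00, e00, e00, e00, e00, e00, e00, e00]
    | .two => [e00, e00, e00, e00, e00, e00]
    | .twoE => [e00, e00, e00, e00, e00, e00]
    | .thrR => [e00, e00, e00, e00, e00, e00]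
    | .thrL => [e00, e00, e00, e00, e00, e00]
    | .threeE => [e00, e00, e00, e00, e00, e00]
    | .ring => [⟨997, [2178]⟩, ⟨-309, [1002993168488201951020740076292457571582211]⟩, ⟨-309, [2632474112619700633957073202, 2179, 8, 8, 2179, 13]⟩, ⟨-309, [2179, 2179, 8, 8, 36650357538, 13]⟩, ⟨-2323, [0, 0, 0, 0, 168415886109321873174455856056735386863958555804863918251604717175103100030066151631523609621269477205983393672110671572712666188171273887620068675655569923634026436973769646459507063667555198911750738482, 2178]⟩, ⟨-3267, [0, 0, 0, 0, 9393229824642, 9393229824642]⟩]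
  gq := fun
    | .one => [e00, e00, e00, e00, e00, e00, e00, e00]
    | .two => [e00, e00, e00, e00, e00, e00]
    | .twoE => [e00, e00, e00, e00, e00, e00]
    | .thrR => [e00, e00, e00, e00, e00, e00]
    | .thrL => [e00, e00, e00, e00, e00, e00]
    | .threeE => [e00, e00, e00, e00, e00, e00]
    | .ring => [⟨623, [2178]⟩, ⟨-321, [10283018163308131370172720]⟩, ⟨-321, [157410238808670242866, 559155, 8, 8, 36650357299, 13]⟩, ⟨-321, [36649927219, 559155, 8, 8, 157410808720647205410, 13]⟩, ⟨-2335, [0, 0, 0, 0, 7496902484994440713559011383356192928008327473045954831752585855698451505380194995645622117642845056630531237604338777740882393807699636481109358728490095510066, 2178]⟩, ⟨-3641, [0, 0, 0, 0, 9393229824642, 12471294651848657511887823488940328271245147801650]⟩]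

/-- mode -/
def a2z_1_m1 : Mode where
  md := .D
  lam := 1500
  ct := 12000
  gp := fun
    | .one => [e00, e00, e00, e00, e00, e00, e00, e00]
    | .two => [e00, e00, e00, e00, e00, e00]
    | .twoE => [e00, e00, e00, e00, e00, e00]
    | .thrR => [e00, e00, e00, e00, e00, e00]
    | .thrL => [e00, e00, e00, e00, e00, e00]
    | .threeE => [e00, e00, e00, e00, e00, e00]
    | .ring => [⟨-818, [4733286705092580098179104420882525485140164680261548666782224418]⟩, ⟨-818, [675935246569920097239487840771]⟩, e00, e00, e00, e00]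
  gq := fun
    | .one => [e00, e00, e00, e00, e00, e00, e00, e00]
    | .two => [e00, e00, e00, e00, e00, e00]
    | .twoE => [e00, e00, e00, e00, e00, e00]
    | .thrR => [e00, e00, e00, e00, e00, e00]
    | .thrL => [e00, e00, e00, e00, e00, e00]
    | .threeE => [e00, e00, e00, e00, e00, e00]
    | .ring => [⟨-1826, [64547435357687661041195134434060767599504025499161095520900442114539557670019928098]⟩, ⟨-1826, [3850899052293474091529252367151706809673605222465734732711470985119483302448]⟩, e00, e00, e00, e00]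

/-- mode -/
def a2z_1_m2 : Mode where
  md := .V 600 1000
  lam := 500
  ct := 1000
  gp := fun
    | .one => [e00, e00, e00, e00, e00, e00, e00, e00]
    | .two => [e00, e00, e00, e00, e00, e00]
    | .twoE => [e00, e00, e00, e00, e00, e00]
    | .thrR => [e00, e00, e00, e00, e00, e00]
    | .thrL => [e00, e00, e00, e00, e00, e00]
    | .threeE => [e00, e00, e00, e00, e00, e00]
    | .ring => [e00, ⟨-322, [15330259289968034635938943880047104515]⟩, ⟨-666, [1773513498976216087926591627832498478805682600784739277514942352038984376444273206125703258954712868014533147949230107130725276481512543026, 40861009939, 557443, 8, 40861009939, 13]⟩, ⟨-666, [13779195693075, 40861009939, 557443, 8, 48706545439853418725259541351015133028637217570, 13]⟩, e00, e00]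
  gq := fun
    | .one => [e00, e00, e00, e00, e00, e00, e00, e00]
    | .two => [e00, e00, e00, e00, e00, e00]
    | .twoE => [e00, e00, e00, e00, e00, e00]
    | .thrR => [e00, e00, e00, e00, e00, e00]
    | .thrL => [e00, e00, e00, e00, e00, e00]
    | .threeE => [e00, e00, e00, e00, e00, e00]
    | .ring => [⟨-218, [11301197840123739144925328703043940642]⟩, ⟨-218, [156907689358287995184]⟩, ⟨-562, [189689905658183824192173408457555798318940466, 143163699, 8, 8, 9352434422323, 13]⟩, ⟨-562, [2394223211020851, 143163699, 8, 8, 898476874397955088915379547823528475632244657431327140107899843106, 13]⟩, e00, e00]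

/-- mode -/
def a2z_1_m3 : Mode where
  md := .V 400 1000
  lam := 750
  ct := 1500
  gp := fun
    | .one => [e00, e00, e00, e00, e00, e00, e00, e00]
    | .two => [e00, e00, e00, e00, e00, e00]
    | .twoE => [e00, e00, e00, e00, e00, e00]
    | .thrR => [e00, e00, e00, e00, e00, e00]
    | .thrL => [e00, e00, e00, e00, e00, e00]
    | .threeE => [e00, e00, e00, e00, e00, e00]
    | .ring => [⟨227, [142771074]⟩, e00, e00, e00, ⟨-1578, [0, 0, 0, 0, 48582394439238047673120658169476685265500317746, 142836354]⟩, e00]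
  gq := fun
    | .one => [e00, e00, e00, e00, e00, e00, e00, e00]
    | .two => [e00, e00, e00, e00, e00, e00]
    | .twoE => [e00, e00, e00, e00, e00, e00]
    | .thrR => [e00, e00, e00, e00, e00, e00]
    | .thrL => [e00, e00, e00, e00, e00, e00]
    | .threeE => [e00, e00, e00, e00, e00, e00]
    | .ring => [⟨254, [142771074]⟩, e00, e00, e00, ⟨-1551, [0, 0, 0, 0, 44185430024737656557000954042591282, 36566106754]⟩, e00]

/-- mode -/
def a2z_1_m4 : Mode where
  md := .V 550 1000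
  lam := 250
  ct := 1500
  gp := fun
    | .one => [e00, e00, e00, e00, e00, e00, e00, e00]
    | .two => [e00, e00, e00, e00, e00, e00]
    | .twoE => [e00, e00, e00, e00, e00, e00]
    | .thrR => [e00, e00, e00, e00, e00, e00]
    | .thrL => [e00, e00, e00, e00, e00, e00]
    | .threeE => [e00, e00, e00, e00, e00, e00]
    | .ring => [⟨-137, [1468145798059038619118218432081510623804822967187437305501836752627856210900011960219280162]⟩, e00, e00, e00, e00, e00]
  gq := fun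
    | .one => [e00, e00, e00, e00, e00, e00, e00, e00]
    | .two => [e00, e00, e00, e00, e00, e00]
    | .twoE => [e00, e00, e00, e00, e00, e00]
    | .thrR => [e00, e00, e00, e00, e00, e00]
    | .thrL => [e00, e00, e00, e00, e00, e00]
    | .threeE => [e00, e00, e00, e00, e00, e00]
    | .ring => [e00, e00, ⟨-307, [189689897021798537853023537451282819440982066, 559155, 8, 8, 36650357299, 13]⟩, ⟨-307, [9352433992243, 559155, 8, 8, 2633661577959360898468622882, 13]⟩, e00, e00]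

/-- piece -/
def a2z_1 : Piece := ⟨7400, 7800, 0, 820, a2z_1_wp, a2z_1_wq, [a2z_1_m0, a2z_1_m1, a2z_1_m2, a2z_1_m3, a2z_1_m4]⟩

set_option linter.defProp false

def a2z_1_r0_one0 : rowsOk stA2Z a2z_1 a2z_1_m0 false .one = true := by decide +kernel

def a2z_1_r0_one1 : rowsOk stA2Z a2z_1 a2z_1_m0 true .one = true := by decide +kernel

def a2z_1_r0_two0 : rowsOk stA2Z a2z_1 a2z_1_m0 false .two = true := by decide +kernel

def a2z_1_r0_two1 : rowsOk stA2Z a2z_1 a2z_1_m0 true .two = true := by decide +kernel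

def a2z_1_r0_twoE0 : rowsOk stA2Z a2z_1 a2z_1_m0 false .twoE = true := by decide +kernel

def a2z_1_r0_twoE1 : rowsOk stA2Z a2z_1 a2z_1_m0 true .twoE = true := by decide +kernel

def a2z_1_r0_thrR0 : rowsOk stA2Z a2z_1 a2z_1_m0 false .thrR = true := by decide +kernel

def a2z_1_r0_thrR1 : rowsOk stA2Z a2z_1 a2z_1_m0 true .thrR = true := by decide +kernel

def a2z_1_r0_thrL0 : rowsOk stA2Z a2z_1 a2z_1_m0 false .thrL = true := by decide +kernel

def a2z_1_r0_thrL1 : rowsOk stA2Z a2z_1 a2z_1_m0 true .thrL = true := by decide +kernel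

def a2z_1_r0_threeE0 : rowsOk stA2Z a2z_1 a2z_1_m0 false .threeE = true := by decide +kernel

def a2z_1_r0_threeE1 : rowsOk stA2Z a2z_1 a2z_1_m0 true .threeE = true := by decide +kernel

def a2z_1_r0_ring0_0 : cellOk stA2Z a2z_1 a2z_1_m0 false .ring ((stA2Z.bins .ring).getD 0 b00)
    ((a2z_1_m0.g false .ring).getD 0 e00) = true := by decide +kernel

def a2z_1_r0_ring0_1 : cellOk stA2Z a2z_1 a2z_1_m0 false .ring ((stA2Z.bins .ring).getD 1 b00)
    ((a2z_1_m0.g false .ring).getD 1 e00) = true := by decide +kernel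

def a2z_1_r0_ring0_2 : cellOk stA2Z a2z_1 a2z_1_m0 false .ring ((stA2Z.bins .ring).getD 2 b00)
    ((a2z_1_m0.g false .ring).getD 2 e00) = true := by decide +kernel

def a2z_1_r0_ring0_3 : cellOk stA2Z a2z_1 a2z_1_m0 false .ring ((stA2Z.bins .ring).getD 3 b00)
    ((a2z_1_m0.g false .ring).getD 3 e00) = true := by decide +kernel

def a2z_1_r0_ring0_4 : cellOk stA2Z a2z_1 a2z_1_m0 false .ring ((stA2Z.bins .ring).getD 4 b00)
    ((a2z_1_m0.g false .ring).getD 4 e00) = true := by decide +kernel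

def a2z_1_r0_ring0_5 : cellOk stA2Z a2z_1 a2z_1_m0 false .ring ((stA2Z.bins .ring).getD 5 b00)
    ((a2z_1_m0.g false .ring).getD 5 e00) = true := by decide +kernel

theorem a2z_1_r0_ring0 : rowsOk stA2Z a2z_1 a2z_1_m0 false .ring = true := by
  refine rowsOk_of fun i hi => ?_
  have hi : i < 6 := hi
  interval_cases i
  exacts [a2z_1_r0_ring0_0, a2z_1_r0_ring0_1, a2z_1_r0_ring0_2, a2z_1_r0_ring0_3, a2z_1_r0_ring0_4, a2z_1_r0_ring0_5]

def a2z_1_r0_ring1_0 : cellOk stA2Z a2z_1 a2z_1_m0 true .ring ((stA2Z.bins .ring).getD 0 b00)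
    ((a2z_1_m0.g true .ring).getD 0 e00) = true := by decide +kernel

def a2z_1_r0_ring1_1 : cellOk stA2Z a2z_1 a2z_1_m0 true .ring ((stA2Z.bins .ring).getD 1 b00)
    ((a2z_1_m0.g true .ring).getD 1 e00) = true := by decide +kernel

def a2z_1_r0_ring1_2 : cellOk stA2Z a2z_1 a2z_1_m0 true .ring ((stA2Z.bins .ring).getD 2 b00)
    ((a2z_1_m0.g true .ring).getD 2 e00) = true := by decide +kernel

def a2z_1_r0_ring1_3 : cellOk stA2Z a2z_1 a2z_1_m0 true .ring ((stA2Z.bins .ring).getD 3 b00)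
    ((a2z_1_m0.g true .ring).getD 3 e00) = true := by decide +kernel

def a2z_1_r0_ring1_4 : cellOk stA2Z a2z_1 a2z_1_m0 true .ring ((stA2Z.bins .ring).getD 4 b00)
    ((a2z_1_m0.g true .ring).getD 4 e00) = true := by decide +kernel

def a2z_1_r0_ring1_5 : cellOk stA2Z a2z_1 a2z_1_m0 true .ring ((stA2Z.bins .ring).getD 5 b00)
    ((a2z_1_m0.g true .ring).getD 5 e00) = true := by decide +kernel

theorem a2z_1_r0_ring1 : rowsOk stA2Z a2z_1 a2z_1_m0 true .ring = true := by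
  refine rowsOk_of fun i hi => ?_
  have hi : i < 6 := hi
  interval_cases i
  exacts [a2z_1_r0_ring1_0, a2z_1_r0_ring1_1, a2z_1_r0_ring1_2, a2z_1_r0_ring1_3, a2z_1_r0_ring1_4, a2z_1_r0_ring1_5]

def a2z_1_r1_one0 : rowsOk stA2Z a2z_1 a2z_1_m1 false .one = true := by decide +kernel

def a2z_1_r1_one1 : rowsOk stA2Z a2z_1 a2z_1_m1 true .one = true := by decide +kernel

def a2z_1_r1_two0 : rowsOk stA2Z a2z_1 a2z_1_m1 false .two = true := by decide +kernel

def a2z_1_r1_two1 : rowsOk stA2Z a2z_1 a2z_1_m1 true .two = true := by decide +kernel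

def a2z_1_r1_twoE0 : rowsOk stA2Z a2z_1 a2z_1_m1 false .twoE = true := by decide +kernel

def a2z_1_r1_twoE1 : rowsOk stA2Z a2z_1 a2z_1_m1 true .twoE = true := by decide +kernel

def a2z_1_r1_thrR0 : rowsOk stA2Z a2z_1 a2z_1_m1 false .thrR = true := by decide +kernel

def a2z_1_r1_thrR1 : rowsOk stA2Z a2z_1 a2z_1_m1 true .thrR = true := by decide +kernel

def a2z_1_r1_thrL0 : rowsOk stA2Z a2z_1 a2z_1_m1 false .thrL = true := by decide +kernel

def a2z_1_r1_thrL1 : rowsOk stA2Z a2z_1 a2z_1_m1 true .thrL = true := by decide +kernel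

def a2z_1_r1_threeE0 : rowsOk stA2Z a2z_1 a2z_1_m1 false .threeE = true := by decide +kernel

def a2z_1_r1_threeE1 : rowsOk stA2Z a2z_1 a2z_1_m1 true .threeE = true := by decide +kernel

def a2z_1_r1_ring0 : rowsOk stA2Z a2z_1 a2z_1_m1 false .ring = true := by decide +kernel

def a2z_1_r1_ring1 : rowsOk stA2Z a2z_1 a2z_1_m1 true .ring = true := by decide +kernel

def a2z_1_r2_one0 : rowsOk stA2Z a2z_1 a2z_1_m2 false .one = true := by decide +kernel

def a2z_1_r2_one1 : rowsOk stA2Z a2z_1 a2z_1_m2 true .one = true := by decide +kernel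

def a2z_1_r2_two0 : rowsOk stA2Z a2z_1 a2z_1_m2 false .two = true := by decide +kernel

def a2z_1_r2_two1 : rowsOk stA2Z a2z_1 a2z_1_m2 true .two = true := by decide +kernel

def a2z_1_r2_twoE0 : rowsOk stA2Z a2z_1 a2z_1_m2 false .twoE = true := by decide +kernel

def a2z_1_r2_twoE1 : rowsOk stA2Z a2z_1 a2z_1_m2 true .twoE = true := by decide +kernel

def a2z_1_r2_thrR0 : rowsOk stA2Z a2z_1 a2z_1_m2 false .thrR = true := by decide +kernel

def a2z_1_r2_thrR1 : rowsOk stA2Z a2z_1 a2z_1_m2 true .thrR = true := by decide +kernel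

def a2z_1_r2_thrL0 : rowsOk stA2Z a2z_1 a2z_1_m2 false .thrL = true := by decide +kernel

def a2z_1_r2_thrL1 : rowsOk stA2Z a2z_1 a2z_1_m2 true .thrL = true := by decide +kernel

def a2z_1_r2_threeE0 : rowsOk stA2Z a2z_1 a2z_1_m2 false .threeE = true := by decide +kernel

def a2z_1_r2_threeE1 : rowsOk stA2Z a2z_1 a2z_1_m2 true .threeE = true := by decide +kernel

def a2z_1_r2_ring0_0 : cellOk stA2Z a2z_1 a2z_1_m2 false .ring ((stA2Z.bins .ring).getD 0 b00)
    ((a2z_1_m2.g false .ring).getD 0 e00) = true := by decide +kernel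

def a2z_1_r2_ring0_1 : cellOk stA2Z a2z_1 a2z_1_m2 false .ring ((stA2Z.bins .ring).getD 1 b00)
    ((a2z_1_m2.g false .ring).getD 1 e00) = true := by decide +kernel

def a2z_1_r2_ring0_2 : cellOk stA2Z a2z_1 a2z_1_m2 false .ring ((stA2Z.bins .ring).getD 2 b00)
    ((a2z_1_m2.g false .ring).getD 2 e00) = true := by decide +kernel

def a2z_1_r2_ring0_3 : cellOk stA2Z a2z_1 a2z_1_m2 false .ring ((stA2Z.bins .ring).getD 3 b00)
    ((a2z_1_m2.g false .ring).getD 3 e00) = true := by decide +kernel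

def a2z_1_r2_ring0_4 : cellOk stA2Z a2z_1 a2z_1_m2 false .ring ((stA2Z.bins .ring).getD 4 b00)
    ((a2z_1_m2.g false .ring).getD 4 e00) = true := by decide +kernel

def a2z_1_r2_ring0_5 : cellOk stA2Z a2z_1 a2z_1_m2 false .ring ((stA2Z.bins .ring).getD 5 b00)
    ((a2z_1_m2.g false .ring).getD 5 e00) = true := by decide +kernel

theorem a2z_1_r2_ring0 : rowsOk stA2Z a2z_1 a2z_1_m2 false .ring = true := by
  refine rowsOk_of fun i hi => ?_
  have hi : i < 6 := hi
  interval_cases i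
  exacts [a2z_1_r2_ring0_0, a2z_1_r2_ring0_1, a2z_1_r2_ring0_2, a2z_1_r2_ring0_3, a2z_1_r2_ring0_4, a2z_1_r2_ring0_5]

def a2z_1_r2_ring1 : rowsOk stA2Z a2z_1 a2z_1_m2 true .ring = true := by decide +kernel

def a2z_1_r3_one0 : rowsOk stA2Z a2z_1 a2z_1_m3 false .one = true := by decide +kernel

def a2z_1_r3_one1 : rowsOk stA2Z a2z_1 a2z_1_m3 true .one = true := by decide +kernel

def a2z_1_r3_two0 : rowsOk stA2Z a2z_1 a2z_1_m3 false .two = true := by decide +kernel

def a2z_1_r3_two1 : rowsOk stA2Z a2z_1 a2z_1_m3 true .two = true := by decide +kernel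

def a2z_1_r3_twoE0 : rowsOk stA2Z a2z_1 a2z_1_m3 false .twoE = true := by decide +kernel

def a2z_1_r3_twoE1 : rowsOk stA2Z a2z_1 a2z_1_m3 true .twoE = true := by decide +kernel

def a2z_1_r3_thrR0 : rowsOk stA2Z a2z_1 a2z_1_m3 false .thrR = true := by decide +kernel

def a2z_1_r3_thrR1 : rowsOk stA2Z a2z_1 a2z_1_m3 true .thrR = true := by decide +kernel

def a2z_1_r3_thrL0 : rowsOk stA2Z a2z_1 a2z_1_m3 false .thrL = true := by decide +kernel

def a2z_1_r3_thrL1 : rowsOk stA2Z a2z_1 a2z_1_m3 true .thrL = true := by decide +kernel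

def a2z_1_r3_threeE0 : rowsOk stA2Z a2z_1 a2z_1_m3 false .threeE = true := by decide +kernel

def a2z_1_r3_threeE1 : rowsOk stA2Z a2z_1 a2z_1_m3 true .threeE = true := by decide +kernel

def a2z_1_r3_ring0 : rowsOk stA2Z a2z_1 a2z_1_m3 false .ring = true := by decide +kernel

def a2z_1_r3_ring1 : rowsOk stA2Z a2z_1 a2z_1_m3 true .ring = true := by decide +kernel

def a2z_1_r4_one0 : rowsOk stA2Z a2z_1 a2z_1_m4 false .one = true := by decide +kernel

def a2z_1_r4_one1 : rowsOk stA2Z a2z_1 a2z_1_m4 true .one = true := by decide +kernel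

def a2z_1_r4_two0 : rowsOk stA2Z a2z_1 a2z_1_m4 false .two = true := by decide +kernel

def a2z_1_r4_two1 : rowsOk stA2Z a2z_1 a2z_1_m4 true .two = true := by decide +kernel

def a2z_1_r4_twoE0 : rowsOk stA2Z a2z_1 a2z_1_m4 false .twoE = true := by decide +kernel

def a2z_1_r4_twoE1 : rowsOk stA2Z a2z_1 a2z_1_m4 true .twoE = true := by decide +kernel

def a2z_1_r4_thrR0 : rowsOk stA2Z a2z_1 a2z_1_m4 false .thrR = true := by decide +kernel

def a2z_1_r4_thrR1 : rowsOk stA2Z a2z_1 a2z_1_m4 true .thrR = true := by decide +kernel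

def a2z_1_r4_thrL0 : rowsOk stA2Z a2z_1 a2z_1_m4 false .thrL = true := by decide +kernel

def a2z_1_r4_thrL1 : rowsOk stA2Z a2z_1 a2z_1_m4 true .thrL = true := by decide +kernel

def a2z_1_r4_threeE0 : rowsOk stA2Z a2z_1 a2z_1_m4 false .threeE = true := by decide +kernel

def a2z_1_r4_threeE1 : rowsOk stA2Z a2z_1 a2z_1_m4 true .threeE = true := by decide +kernel

def a2z_1_r4_ring0 : rowsOk stA2Z a2z_1 a2z_1_m4 false .ring = true := by decide +kernel

def a2z_1_r4_ring1 : rowsOk stA2Z a2z_1 a2z_1_m4 true .ring = true := by decide +kernel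

theorem a2z_1_r0 : allRows stA2Z a2z_1 a2z_1_m0 = true := by
  refine allRows_of fun P => ?_
  cases P
  exacts [⟨a2z_1_r0_one0, a2z_1_r0_one1⟩,
    ⟨a2z_1_r0_two0, a2z_1_r0_two1⟩,
    ⟨a2z_1_r0_twoE0, a2z_1_r0_twoE1⟩,
    ⟨a2z_1_r0_thrR0, a2z_1_r0_thrR1⟩,
    ⟨a2z_1_r0_thrL0, a2z_1_r0_thrL1⟩,
    ⟨a2z_1_r0_threeE0, a2z_1_r0_threeE1⟩,
    ⟨a2z_1_r0_ring0, a2z_1_r0_ring1⟩]

theorem a2z_1_r1 : allRows stA2Z a2z_1 a2z_1_m1 = true := by
  refine allRows_of fun P => ?_
  cases P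
  exacts [⟨a2z_1_r1_one0, a2z_1_r1_one1⟩,
    ⟨a2z_1_r1_two0, a2z_1_r1_two1⟩,
    ⟨a2z_1_r1_twoE0, a2z_1_r1_twoE1⟩,
    ⟨a2z_1_r1_thrR0, a2z_1_r1_thrR1⟩,
    ⟨a2z_1_r1_thrL0, a2z_1_r1_thrL1⟩,
    ⟨a2z_1_r1_threeE0, a2z_1_r1_threeE1⟩,
    ⟨a2z_1_r1_ring0, a2z_1_r1_ring1⟩]

theorem a2z_1_r2 : allRows stA2Z a2z_1 a2z_1_m2 = true := by
  refine allRows_of fun P => ?_
  cases P
  exacts [⟨a2z_1_r2_one0, a2z_1_r2_one1⟩,
    ⟨a2z_1_r2_two0, a2z_1_r2_two1⟩,
    ⟨a2z_1_r2_twoE0, a2z_1_r2_twoE1⟩,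
    ⟨a2z_1_r2_thrR0, a2z_1_r2_thrR1⟩,
    ⟨a2z_1_r2_thrL0, a2z_1_r2_thrL1⟩,
    ⟨a2z_1_r2_threeE0, a2z_1_r2_threeE1⟩,
    ⟨a2z_1_r2_ring0, a2z_1_r2_ring1⟩]

theorem a2z_1_r3 : allRows stA2Z a2z_1 a2z_1_m3 = true := by
  refine allRows_of fun P => ?_
  cases P
  exacts [⟨a2z_1_r3_one0, a2z_1_r3_one1⟩,
    ⟨a2z_1_r3_two0, a2z_1_r3_two1⟩,
    ⟨a2z_1_r3_twoE0, a2z_1_r3_twoE1⟩,
    ⟨a2z_1_r3_thrR0, a2z_1_r3_thrR1⟩,
    ⟨a2z_1_r3_thrL0, a2z_1_r3_thrL1⟩,
    ⟨a2z_1_r3_threeE0, a2z_1_r3_threeE1⟩,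
    ⟨a2z_1_r3_ring0, a2z_1_r3_ring1⟩]

theorem a2z_1_r4 : allRows stA2Z a2z_1 a2z_1_m4 = true := by
  refine allRows_of fun P => ?_
  cases P
  exacts [⟨a2z_1_r4_one0, a2z_1_r4_one1⟩,
    ⟨a2z_1_r4_two0, a2z_1_r4_two1⟩,
    ⟨a2z_1_r4_twoE0, a2z_1_r4_twoE1⟩,
    ⟨a2z_1_r4_thrR0, a2z_1_r4_thrR1⟩,
    ⟨a2z_1_r4_thrL0, a2z_1_r4_thrL1⟩,
    ⟨a2z_1_r4_threeE0, a2z_1_r4_threeE1⟩,
    ⟨a2z_1_r4_ring0, a2z_1_r4_ring1⟩]

theorem a2z_1_ok : a2z_1.ok stA2Z = true := by
  have h : (PC.all.all fun P => PC.all.all fun Q => pairOk stA2Z a2z_1 P Q) = true := by decide +kernel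
  have d0 : mdOk stA2Z a2z_1_m0.md = true := by decide +kernel
  have d1 : mdOk stA2Z a2z_1_m1.md = true := by decide +kernel
  have d2 : mdOk stA2Z a2z_1_m2.md = true := by decide +kernel
  have d3 : mdOk stA2Z a2z_1_m3.md = true := by decide +kernel
  have d4 : mdOk stA2Z a2z_1_m4.md = true := by decide +kernel
  unfold Piece.ok
  rw [h, Bool.true_and]
  show List.all [a2z_1_m0, a2z_1_m1, a2z_1_m2, a2z_1_m3, a2z_1_m4] _ = true
  rw [List.all_eq_true]
  intro m hm
  simp only [List.mem_cons, List.not_mem_nil, or_false] at hm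
  rcases hm with rfl | rfl | rfl | rfl | rfl
  · rw [a2z_1_r0, d0]; rfl
  · rw [a2z_1_r1, d1]; rfl
  · rw [a2z_1_r2, d2]; rfl
  · rw [a2z_1_r3, d3]; rfl
  · rw [a2z_1_r4, d4]; rfl

end OR

end Pool.Agent.Work.MP_b30479_gtS.G2

end

section

set_option deprecated.oldSectionVars true

namespace Pool.Agent.Work.MP_b30479_gtS.G2

open NumUs

namespace OR

/-- windows -/
def s3z_1_wp : PC → Win
  | .one => ⟨0, 0, 0, 0, 0, 0⟩
  | .two => ⟨0, 0, 0, 0, 0, 0⟩
  | .twoE => ⟨0, 0, 0, 0, 0, 0⟩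
  | .thrR => ⟨0, 0, 0, 0, 0, 0⟩
  | .thrL => ⟨0, 0, 0, 0, 0, 0⟩
  | .threeE => ⟨0, 0, 0, 0, 0, 0⟩
  | .ring => ⟨480, 1330, 470, 1500, -430, 610⟩

/-- windows -/
def s3z_1_wq : PC → Win
  | .one => ⟨-890, 290, -820, 330, -610, 430⟩
  | .two => ⟨0, 0, 0, 0, 0, 0⟩
  | .twoE => ⟨0, 0, 0, 0, 0, 0⟩
  | .thrR => ⟨0, 0, 0, 0, 0, 0⟩
  | .thrL => ⟨0, 0, 0, 0, 0, 0⟩
  | .threeE => ⟨0, 0, 0, 0, 0, 0⟩
  | .ring => ⟨0, 0, 0, 0, 0, 0⟩

/-- mode -/
def s3z_1_m0 : Mode where
  md := .V 300 1000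
  lam := 0
  ct := -1000
  gp := fun
    | .one => [e00, e00, e00, e00, e00, e00, e00, e00]
    | .two => [e00, e00, e00, e00, e00, e00]
    | .twoE => [e00, e00, e00, e00, e00]
    | .thrR => [e00, e00, e00, e00, e00, e00]
    | .thrL => [e00, e00, e00, e00, e00]
    | .threeE => [e00, e00, e00, e00, e00, e00]
    | .ring => [e00, e00, e00, ⟨1737, [2894412164564212687209816921241820889874, 0, 0, 0, 0, 0]⟩, ⟨1737, [44205631666914677322922062400488210, 9361024364849, 2177, 8, 189689799439393979158482566163419314175156770, 2495378366800658]⟩, ⟨-1266, [0, 0, 0, 0, 40186342728834379946002, 557442]⟩]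
  gq := fun
    | .one => [⟨1262, [8]⟩, ⟨1262, [2179]⟩, ⟨1262, [8]⟩, ⟨1262, [8]⟩, ⟨1262, [208566086715570641849967064105477227566811669258503882802, 2632474111437585623901812755, 8, 8, 189688204529781766466129556459248169292141346, 189688204365752158945852787487892681516389154]⟩, ⟨-1741, [0, 0, 0, 0, 208564386350463939447468771573018278055335152928320656162, 44206163044213512674851996047585826]⟩, ⟨-1741, [0, 0, 0, 0, 142770563, 2179]⟩, ⟨-1741, [0, 0, 0, 0, 9352350107667, 142706707]⟩]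
    | .two => [e00, e00, e00, e00, e00, e00]
    | .twoE => [e00, e00, e00, e00, e00]
    | .thrR => [e00, e00, e00, e00, e00, e00]
    | .thrL => [e00, e00, e00, e00, e00]
    | .threeE => [e00, e00, e00, e00, e00, e00]
    | .ring => [e00, e00, e00, e00, e00, e00]

/-- mode -/
def s3z_1_m1 : Mode where
  md := .V 450 1000
  lam := 500
  ct := 500
  gp := fun
    | .one => [e00, e00, e00, e00, e00, e00, e00, e00]
    | .two => [e00, e00, e00, e00, e00, e00]
    | .twoE => [e00, e00, e00, e00, e00]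
    | .thrR => [e00, e00, e00, e00, e00, e00]
    | .thrL => [e00, e00, e00, e00, e00]
    | .threeE => [e00, e00, e00, e00, e00, e00]
    | .ring => [e00, e00, e00, ⟨-621, [16795494957595299350790804450167719504853805417981068326190745957660365586, 0, 0, 0, 0, 0]⟩, ⟨-810, [58217344202009856116066994720082705494356437068347085348177952534891061943565772807686626355066568777844538877346771407718049245794772149402571009568243092926219465427461730846893117246646910628263030110265059393558202266375238418, 755167036119567532847465050417, 2675676603975729, 8, 94423765531088611859219818242154660290880859511131673428455245348487365277159423392936261998890269960382126702512124662974109524514, 301766327172918541918429676386452555966849810]⟩, e00]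
  gq := fun
    | .one => [⟨357, [36650627857]⟩, ⟨206, [3192111016952983105305203588212944165980220212580883]⟩, ⟨17, [10292554774314322284523825]⟩, ⟨17, [9361024619313]⟩, ⟨17, [4665408967504959566055269427221643237838840195578239673464489877963197906809029973287411903835414834, 2632474111437585623901812755, 8, 8, 3499158287113834623113766814525515075660359027910781206110147362, 3859135847505254224315171306230494354086673503446955754070345084667317916450]⟩, e00, e00, e00]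
    | .two => [e00, e00, e00, e00, e00, e00]
    | .twoE => [e00, e00, e00, e00, e00]
    | .thrR => [e00, e00, e00, e00, e00, e00]
    | .thrL => [e00, e00, e00, e00, e00]
    | .threeE => [e00, e00, e00, e00, e00, e00]
    | .ring => [e00, e00, e00, e00, e00, e00]

/-- mode -/
def s3z_1_m2 : Mode where
  md := .V 500 1000
  lam := 250
  ct := 500
  gp := fun
    | .one => [e00, e00, e00, e00, e00, e00, e00, e00]
    | .two => [e00, e00, e00, e00, e00, e00]
    | .twoE => [e00, e00, e00, e00, e00]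
    | .thrR => [e00, e00, e00, e00, e00, e00]
    | .thrL => [e00, e00, e00, e00, e00]
    | .threeE => [e00, e00, e00, e00, e00, e00]
    | .ring => [e00, e00, e00, ⟨-426, [20321342759374767804338586034905927850916610443859432985976686399769727524492033076418922875982610, 0, 0, 0, 0, 0]⟩, e00, e00]
  gq := fun
    | .one => [e00, ⟨122, [12469228236068782650188961913230819043543959671345]⟩, e00, e00, e00, e00, e00, e00]
    | .two => [e00, e00, e00, e00, e00, e00]
    | .twoE => [e00, e00, e00, e00, e00]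
    | .thrR => [e00, e00, e00, e00, e00, e00]
    | .thrL => [e00, e00, e00, e00, e00]
    | .threeE => [e00, e00, e00, e00, e00, e00]
    | .ring => [e00, e00, e00, e00, e00, e00]

/-- piece -/
def s3z_1 : Piece := ⟨6170, 6340, -820, 820, s3z_1_wp, s3z_1_wq, [s3z_1_m0, s3z_1_m1, s3z_1_m2]⟩

set_option linter.defProp false

def s3z_1_r0_one0 : rowsOk stS3Z s3z_1 s3z_1_m0 false .one = true := by decide +kernel

def s3z_1_r0_one1_0 : cellOk stS3Z s3z_1 s3z_1_m0 true .one ((stS3Z.bins .one).getD 0 b00)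
    ((s3z_1_m0.g true .one).getD 0 e00) = true := by decide +kernel

def s3z_1_r0_one1_1 : cellOk stS3Z s3z_1 s3z_1_m0 true .one ((stS3Z.bins .one).getD 1 b00)
    ((s3z_1_m0.g true .one).getD 1 e00) = true := by decide +kernel

def s3z_1_r0_one1_2 : cellOk stS3Z s3z_1 s3z_1_m0 true .one ((stS3Z.bins .one).getD 2 b00)
    ((s3z_1_m0.g true .one).getD 2 e00) = true := by decide +kernel

def s3z_1_r0_one1_3 : cellOk stS3Z s3z_1 s3z_1_m0 true .one ((stS3Z.bins .one).getD 3 b00)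
    ((s3z_1_m0.g true .one).getD 3 e00) = true := by decide +kernel

def s3z_1_r0_one1_4 : cellOk stS3Z s3z_1 s3z_1_m0 true .one ((stS3Z.bins .one).getD 4 b00)
    ((s3z_1_m0.g true .one).getD 4 e00) = true := by decide +kernel

def s3z_1_r0_one1_5 : cellOk stS3Z s3z_1 s3z_1_m0 true .one ((stS3Z.bins .one).getD 5 b00)
    ((s3z_1_m0.g true .one).getD 5 e00) = true := by decide +kernel

def s3z_1_r0_one1_6 : cellOk stS3Z s3z_1 s3z_1_m0 true .one ((stS3Z.bins .one).getD 6 b00)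
    ((s3z_1_m0.g true .one).getD 6 e00) = true := by decide +kernel

def s3z_1_r0_one1_7 : cellOk stS3Z s3z_1 s3z_1_m0 true .one ((stS3Z.bins .one).getD 7 b00)
    ((s3z_1_m0.g true .one).getD 7 e00) = true := by decide +kernel

theorem s3z_1_r0_one1 : rowsOk stS3Z s3z_1 s3z_1_m0 true .one = true := by
  refine rowsOk_of fun i hi => ?_
  have hi : i < 8 := hi
  interval_cases i
  exacts [s3z_1_r0_one1_0, s3z_1_r0_one1_1, s3z_1_r0_one1_2, s3z_1_r0_one1_3, s3z_1_r0_one1_4, s3z_1_r0_one1_5, s3z_1_r0_one1_6, s3z_1_r0_one1_7]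

def s3z_1_r0_two0 : rowsOk stS3Z s3z_1 s3z_1_m0 false .two = true := by decide +kernel

def s3z_1_r0_two1 : rowsOk stS3Z s3z_1 s3z_1_m0 true .two = true := by decide +kernel

def s3z_1_r0_twoE0 : rowsOk stS3Z s3z_1 s3z_1_m0 false .twoE = true := by decide +kernel

def s3z_1_r0_twoE1 : rowsOk stS3Z s3z_1 s3z_1_m0 true .twoE = true := by decide +kernel

def s3z_1_r0_thrR0 : rowsOk stS3Z s3z_1 s3z_1_m0 false .thrR = true := by decide +kernel

def s3z_1_r0_thrR1 : rowsOk stS3Z s3z_1 s3z_1_m0 true .thrR = true := by decide +kernel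

def s3z_1_r0_thrL0 : rowsOk stS3Z s3z_1 s3z_1_m0 false .thrL = true := by decide +kernel

def s3z_1_r0_thrL1 : rowsOk stS3Z s3z_1 s3z_1_m0 true .thrL = true := by decide +kernel

def s3z_1_r0_threeE0 : rowsOk stS3Z s3z_1 s3z_1_m0 false .threeE = true := by decide +kernel

def s3z_1_r0_threeE1 : rowsOk stS3Z s3z_1 s3z_1_m0 true .threeE = true := by decide +kernel

def s3z_1_r0_ring0 : rowsOk stS3Z s3z_1 s3z_1_m0 false .ring = true := by decide +kernel

def s3z_1_r0_ring1 : rowsOk stS3Z s3z_1 s3z_1_m0 true .ring = true := by decide +kernel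

def s3z_1_r1_one0 : rowsOk stS3Z s3z_1 s3z_1_m1 false .one = true := by decide +kernel

def s3z_1_r1_one1_0 : cellOk stS3Z s3z_1 s3z_1_m1 true .one ((stS3Z.bins .one).getD 0 b00)
    ((s3z_1_m1.g true .one).getD 0 e00) = true := by decide +kernel

def s3z_1_r1_one1_1 : cellOk stS3Z s3z_1 s3z_1_m1 true .one ((stS3Z.bins .one).getD 1 b00)
    ((s3z_1_m1.g true .one).getD 1 e00) = true := by decide +kernel

def s3z_1_r1_one1_2 : cellOk stS3Z s3z_1 s3z_1_m1 true .one ((stS3Z.bins .one).getD 2 b00)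
    ((s3z_1_m1.g true .one).getD 2 e00) = true := by decide +kernel

def s3z_1_r1_one1_3 : cellOk stS3Z s3z_1 s3z_1_m1 true .one ((stS3Z.bins .one).getD 3 b00)
    ((s3z_1_m1.g true .one).getD 3 e00) = true := by decide +kernel

def s3z_1_r1_one1_4 : cellOk stS3Z s3z_1 s3z_1_m1 true .one ((stS3Z.bins .one).getD 4 b00)
    ((s3z_1_m1.g true .one).getD 4 e00) = true := by decide +kernel

def s3z_1_r1_one1_5 : cellOk stS3Z s3z_1 s3z_1_m1 true .one ((stS3Z.bins .one).getD 5 b00)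
    ((s3z_1_m1.g true .one).getD 5 e00) = true := by decide +kernel

def s3z_1_r1_one1_6 : cellOk stS3Z s3z_1 s3z_1_m1 true .one ((stS3Z.bins .one).getD 6 b00)
    ((s3z_1_m1.g true .one).getD 6 e00) = true := by decide +kernel

def s3z_1_r1_one1_7 : cellOk stS3Z s3z_1 s3z_1_m1 true .one ((stS3Z.bins .one).getD 7 b00)
    ((s3z_1_m1.g true .one).getD 7 e00) = true := by decide +kernel

theorem s3z_1_r1_one1 : rowsOk stS3Z s3z_1 s3z_1_m1 true .one = true := by
  refine rowsOk_of fun i hi => ?_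
  have hi : i < 8 := hi
  interval_cases i
  exacts [s3z_1_r1_one1_0, s3z_1_r1_one1_1, s3z_1_r1_one1_2, s3z_1_r1_one1_3, s3z_1_r1_one1_4, s3z_1_r1_one1_5, s3z_1_r1_one1_6, s3z_1_r1_one1_7]

def s3z_1_r1_two0 : rowsOk stS3Z s3z_1 s3z_1_m1 false .two = true := by decide +kernel

def s3z_1_r1_two1 : rowsOk stS3Z s3z_1 s3z_1_m1 true .two = true := by decide +kernel

def s3z_1_r1_twoE0 : rowsOk stS3Z s3z_1 s3z_1_m1 false .twoE = true := by decide +kernel

def s3z_1_r1_twoE1 : rowsOk stS3Z s3z_1 s3z_1_m1 true .twoE = true := by decide +kernel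

def s3z_1_r1_thrR0 : rowsOk stS3Z s3z_1 s3z_1_m1 false .thrR = true := by decide +kernel

def s3z_1_r1_thrR1 : rowsOk stS3Z s3z_1 s3z_1_m1 true .thrR = true := by decide +kernel

def s3z_1_r1_thrL0 : rowsOk stS3Z s3z_1 s3z_1_m1 false .thrL = true := by decide +kernel

def s3z_1_r1_thrL1 : rowsOk stS3Z s3z_1 s3z_1_m1 true .thrL = true := by decide +kernel

def s3z_1_r1_threeE0 : rowsOk stS3Z s3z_1 s3z_1_m1 false .threeE = true := by decide +kernel

def s3z_1_r1_threeE1 : rowsOk stS3Z s3z_1 s3z_1_m1 true .threeE = true := by decide +kernel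

def s3z_1_r1_ring0_0 : cellOk stS3Z s3z_1 s3z_1_m1 false .ring ((stS3Z.bins .ring).getD 0 b00)
    ((s3z_1_m1.g false .ring).getD 0 e00) = true := by decide +kernel

def s3z_1_r1_ring0_1 : cellOk stS3Z s3z_1 s3z_1_m1 false .ring ((stS3Z.bins .ring).getD 1 b00)
    ((s3z_1_m1.g false .ring).getD 1 e00) = true := by decide +kernel

def s3z_1_r1_ring0_2 : cellOk stS3Z s3z_1 s3z_1_m1 false .ring ((stS3Z.bins .ring).getD 2 b00)
    ((s3z_1_m1.g false .ring).getD 2 e00) = true := by decide +kernel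

def s3z_1_r1_ring0_3 : cellOk stS3Z s3z_1 s3z_1_m1 false .ring ((stS3Z.bins .ring).getD 3 b00)
    ((s3z_1_m1.g false .ring).getD 3 e00) = true := by decide +kernel

/-- check -/
def s3z_1_r1_ring0_4_x0 : Ck := (cks stS3Z s3z_1 s3z_1_m1 false .ring
    ((stS3Z.bins .ring).getD 4 b00)
    ((s3z_1_m1.g false .ring).getD 4 e00).g).getD 0 ckd

theorem s3z_1_r1_ring0_4_k0 : ck1 s3z_1_r1_ring0_4_x0 (((s3z_1_m1.g false .ring).getD 4 e00).c.getD 0 0) = true := by
  decide +kernel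

/-- check -/
def s3z_1_r1_ring0_4_x1 : Ck := (cks stS3Z s3z_1 s3z_1_m1 false .ring
    ((stS3Z.bins .ring).getD 4 b00)
    ((s3z_1_m1.g false .ring).getD 4 e00).g).getD 1 ckd

theorem s3z_1_r1_ring0_4_k1 : ck1 s3z_1_r1_ring0_4_x1 (((s3z_1_m1.g false .ring).getD 4 e00).c.getD 1 0) = true := by
  decide +kernel

/-- check -/
def s3z_1_r1_ring0_4_x2 : Ck := (cks stS3Z s3z_1 s3z_1_m1 false .ring
    ((stS3Z.bins .ring).getD 4 b00)
    ((s3z_1_m1.g false .ring).getD 4 e00).g).getD 2 ckd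

theorem s3z_1_r1_ring0_4_k2 : ck1 s3z_1_r1_ring0_4_x2 (((s3z_1_m1.g false .ring).getD 4 e00).c.getD 2 0) = true := by
  decide +kernel

/-- check -/
def s3z_1_r1_ring0_4_x3 : Ck := (cks stS3Z s3z_1 s3z_1_m1 false .ring
    ((stS3Z.bins .ring).getD 4 b00)
    ((s3z_1_m1.g false .ring).getD 4 e00).g).getD 3 ckd

theorem s3z_1_r1_ring0_4_k3 : ck1 s3z_1_r1_ring0_4_x3 (((s3z_1_m1.g false .ring).getD 4 e00).c.getD 3 0) = true := by
  decide +kernel

/-- check -/
def s3z_1_r1_ring0_4_x4 : Ck := (cks stS3Z s3z_1 s3z_1_m1 false .ring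
    ((stS3Z.bins .ring).getD 4 b00)
    ((s3z_1_m1.g false .ring).getD 4 e00).g).getD 4 ckd

theorem s3z_1_r1_ring0_4_k4 : ck1 s3z_1_r1_ring0_4_x4 (((s3z_1_m1.g false .ring).getD 4 e00).c.getD 4 0) = true := by
  decide +kernel

/-- check -/
def s3z_1_r1_ring0_4_x5 : Ck := (cks stS3Z s3z_1 s3z_1_m1 false .ring
    ((stS3Z.bins .ring).getD 4 b00)
    ((s3z_1_m1.g false .ring).getD 4 e00).g).getD 5 ckd

theorem s3z_1_r1_ring0_4_k5 : ck1 s3z_1_r1_ring0_4_x5 (((s3z_1_m1.g false .ring).getD 4 e00).c.getD 5 0) = true := by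
  decide +kernel

def s3z_1_r1_ring0_4 : cellOk stS3Z s3z_1 s3z_1_m1 false .ring ((stS3Z.bins .ring).getD 4 b00)
    ((s3z_1_m1.g false .ring).getD 4 e00) = true :=
  cellOk_of 6 (by decide +kernel) (by decide +kernel) fun k hk => by
    interval_cases k
    exacts [s3z_1_r1_ring0_4_k0, s3z_1_r1_ring0_4_k1, s3z_1_r1_ring0_4_k2, s3z_1_r1_ring0_4_k3, s3z_1_r1_ring0_4_k4, s3z_1_r1_ring0_4_k5]

def s3z_1_r1_ring0_5 : cellOk stS3Z s3z_1 s3z_1_m1 false .ring ((stS3Z.bins .ring).getD 5 b00)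
    ((s3z_1_m1.g false .ring).getD 5 e00) = true := by decide +kernel

theorem s3z_1_r1_ring0 : rowsOk stS3Z s3z_1 s3z_1_m1 false .ring = true := by
  refine rowsOk_of fun i hi => ?_
  have hi : i < 6 := hi
  interval_cases i
  exacts [s3z_1_r1_ring0_0, s3z_1_r1_ring0_1, s3z_1_r1_ring0_2, s3z_1_r1_ring0_3, s3z_1_r1_ring0_4, s3z_1_r1_ring0_5]

def s3z_1_r1_ring1 : rowsOk stS3Z s3z_1 s3z_1_m1 true .ring = true := by decide +kernel

def s3z_1_r2_one0 : rowsOk stS3Z s3z_1 s3z_1_m2 false .one = true := by decide +kernel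

def s3z_1_r2_one1 : rowsOk stS3Z s3z_1 s3z_1_m2 true .one = true := by decide +kernel

def s3z_1_r2_two0 : rowsOk stS3Z s3z_1 s3z_1_m2 false .two = true := by decide +kernel

def s3z_1_r2_two1 : rowsOk stS3Z s3z_1 s3z_1_m2 true .two = true := by decide +kernel

def s3z_1_r2_twoE0 : rowsOk stS3Z s3z_1 s3z_1_m2 false .twoE = true := by decide +kernel

def s3z_1_r2_twoE1 : rowsOk stS3Z s3z_1 s3z_1_m2 true .twoE = true := by decide +kernel

def s3z_1_r2_thrR0 : rowsOk stS3Z s3z_1 s3z_1_m2 false .thrR = true := by decide +kernel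

def s3z_1_r2_thrR1 : rowsOk stS3Z s3z_1 s3z_1_m2 true .thrR = true := by decide +kernel

def s3z_1_r2_thrL0 : rowsOk stS3Z s3z_1 s3z_1_m2 false .thrL = true := by decide +kernel

def s3z_1_r2_thrL1 : rowsOk stS3Z s3z_1 s3z_1_m2 true .thrL = true := by decide +kernel

def s3z_1_r2_threeE0 : rowsOk stS3Z s3z_1 s3z_1_m2 false .threeE = true := by decide +kernel

def s3z_1_r2_threeE1 : rowsOk stS3Z s3z_1 s3z_1_m2 true .threeE = true := by decide +kernel

def s3z_1_r2_ring0 : rowsOk stS3Z s3z_1 s3z_1_m2 false .ring = true := by decide +kernel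

def s3z_1_r2_ring1 : rowsOk stS3Z s3z_1 s3z_1_m2 true .ring = true := by decide +kernel

theorem s3z_1_r0 : allRows stS3Z s3z_1 s3z_1_m0 = true := by
  refine allRows_of fun P => ?_
  cases P
  exacts [⟨s3z_1_r0_one0, s3z_1_r0_one1⟩,
    ⟨s3z_1_r0_two0, s3z_1_r0_two1⟩,
    ⟨s3z_1_r0_twoE0, s3z_1_r0_twoE1⟩,
    ⟨s3z_1_r0_thrR0, s3z_1_r0_thrR1⟩,
    ⟨s3z_1_r0_thrL0, s3z_1_r0_thrL1⟩,
    ⟨s3z_1_r0_threeE0, s3z_1_r0_threeE1⟩,
    ⟨s3z_1_r0_ring0, s3z_1_r0_ring1⟩]

theorem s3z_1_r1 : allRows stS3Z s3z_1 s3z_1_m1 = true := by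
  refine allRows_of fun P => ?_
  cases P
  exacts [⟨s3z_1_r1_one0, s3z_1_r1_one1⟩,
    ⟨s3z_1_r1_two0, s3z_1_r1_two1⟩,
    ⟨s3z_1_r1_twoE0, s3z_1_r1_twoE1⟩,
    ⟨s3z_1_r1_thrR0, s3z_1_r1_thrR1⟩,
    ⟨s3z_1_r1_thrL0, s3z_1_r1_thrL1⟩,
    ⟨s3z_1_r1_threeE0, s3z_1_r1_threeE1⟩,
    ⟨s3z_1_r1_ring0, s3z_1_r1_ring1⟩]

theorem s3z_1_r2 : allRows stS3Z s3z_1 s3z_1_m2 = true := by
  refine allRows_of fun P => ?_
  cases P
  exacts [⟨s3z_1_r2_one0, s3z_1_r2_one1⟩,
    ⟨s3z_1_r2_two0, s3z_1_r2_two1⟩,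
    ⟨s3z_1_r2_twoE0, s3z_1_r2_twoE1⟩,
    ⟨s3z_1_r2_thrR0, s3z_1_r2_thrR1⟩,
    ⟨s3z_1_r2_thrL0, s3z_1_r2_thrL1⟩,
    ⟨s3z_1_r2_threeE0, s3z_1_r2_threeE1⟩,
    ⟨s3z_1_r2_ring0, s3z_1_r2_ring1⟩]

theorem s3z_1_ok : s3z_1.ok stS3Z = true := by
  have h : (PC.all.all fun P => PC.all.all fun Q => pairOk stS3Z s3z_1 P Q) = true := by decide +kernel
  have d0 : mdOk stS3Z s3z_1_m0.md = true := by decide +kernel
  have d1 : mdOk stS3Z s3z_1_m1.md = true := by decide +kernel
  have d2 : mdOk stS3Z s3z_1_m2.md = true := by decide +kernel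
  unfold Piece.ok
  rw [h, Bool.true_and]
  show List.all [s3z_1_m0, s3z_1_m1, s3z_1_m2] _ = true
  rw [List.all_eq_true]
  intro m hm
  simp only [List.mem_cons, List.not_mem_nil, or_false] at hm
  rcases hm with rfl | rfl | rfl
  · rw [s3z_1_r0, d0]; rfl
  · rw [s3z_1_r1, d1]; rfl
  · rw [s3z_1_r2, d2]; rfl

end OR

end Pool.Agent.Work.MP_b30479_gtS.G2

end
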