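import Pool.Agent.Work.MP_b30479_gt.TBS.G2.OTab
import Pool.Agent.Work.MP_b30479_gt.TBS.NumU.Tree

set_option deprecated.oldSectionVars true

namespace Pool.Agent.Work.MP_b30479_gtS.G2

open NumUs

namespace OR

/-- windows -/
def s3z_2_wp : PC → Win
  | .one => ⟨0, 0, 0, 0, 0, 0⟩
  | .two => ⟨0, 0, 0, 0, 0, 0⟩
  | .twoE => ⟨0, 0, 0, 0, 0, 0⟩
  | .thrR => ⟨0, 0, 0, 0, 0, 0⟩
  | .thrL => ⟨0, 0, 0, 0, 0, 0⟩
  | .threeE => ⟨0, 0, 0, 0, 0, 0⟩
  | .ring => ⟨480, 1330, 470, 1500, -430, 610⟩

/-- windows -/
def s3z_2_wq : PC → Win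
  | .one => ⟨-890, 290, -820, 330, -610, 430⟩
  | .two => ⟨0, 0, 0, 0, 0, 0⟩
  | .twoE => ⟨0, 0, 0, 0, 0, 0⟩
  | .thrR => ⟨0, 0, 0, 0, 0, 0⟩
  | .thrL => ⟨0, 0, 0, 0, 0, 0⟩
  | .threeE => ⟨0, 0, 0, 0, 0, 0⟩
  | .ring => ⟨0, 0, 0, 0, 0, 0⟩

/-- mode -/
def s3z_2_m0 : Mode where
  md := .V 300 1000
  lam := 750
  ct := 500
  gp := fun
    | .one => [e00, e00, e00, e00, e00, e00, e00, e00]
    | .two => [e00, e00, e00, e00, e00, e00]
    | .twoE => [e00, e00, e00, e00, e00]
    | .thrR => [e00, e00, e00, e00, e00, e00]
    | .thrL => [e00, e00, e00, e00, e00]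
    | .threeE => [e00, e00, e00, e00, e00, e00]
    | .ring => [e00, e00, e00, ⟨711, [172521964258885891502225881596210, 143163667, 8, 8, 157379283042342875442, 13]⟩, ⟨-415, [17014114170285649170045995520950276883, 1113946331328601695956719362162419715543827, 15232015896865845586442256, 8, 2543324111979787692203293169153028966354861913085003952660152071595503356436306261035866987784036460212059708974013006098012283926397894588176921276386628994527552765324526338921367974857760801235490, 9726101496338]⟩, ⟨-2418, [0, 0, 0, 0, 675917112940878613200828049426, 40149951249137076277890]⟩]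
  gq := fun
    | .one => [⟨2024, [8]⟩, ⟨1514, [8]⟩, ⟨1514, [8]⟩, ⟨1514, [8]⟩, ⟨-489, [24172489359392641456471376149457240232631422499141396221142349945819295618854839272375784149158388744167816593574344866376066641502514, 673913372528021919718864093971, 8, 8, 58705655790671728660248077639728162836145625683695288138328529709380130, 252140927326437062872816189510156466060076120907403239566512429209411642308244002]⟩, ⟨-1615, [0, 0, 0, 0, 157051922215482196274, 743349590417644674698376671228050023846690]⟩, ⟨-1615, [0, 0, 0, 0, 557443, 40290105282746653356563]⟩, ⟨-1615, [0, 0, 0, 0, 252369551483804421047603354680795330404222860578651621490370908514402928961290546, 26553545761150305455568417348774447958084661199761688647270759030607771552603097716314730770386181759354978226139489806475199908871324292733808946]⟩]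
    | .two => [e00, e00, e00, e00, e00, e00]
    | .twoE => [e00, e00, e00, e00, e00]
    | .thrR => [e00, e00, e00, e00, e00, e00]
    | .thrL => [e00, e00, e00, e00, e00]
    | .threeE => [e00, e00, e00, e00, e00, e00]
    | .ring => [e00, e00, e00, e00, e00, e00]

/-- mode -/
def s3z_2_m1 : Mode where
  md := .V 450 1000
  lam := 500
  ct := 500
  gp := fun
    | .one => [e00, e00, e00, e00, e00, e00, e00, e00]
    | .two => [e00, e00, e00, e00, e00, e00]
    | .twoE => [e00, e00, e00, e00, e00]
    | .thrR => [e00, e00, e00, e00, e00, e00]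
    | .thrL => [e00, e00, e00, e00, e00]
    | .threeE => [e00, e00, e00, e00, e00, e00]
    | .ring => [e00, e00, e00, ⟨-433, [18481959040949268999968479402931782819667149688159736881990653917222861769879750972178, 2394193155068691, 142836097, 8, 172520417353850509106393389281586, 13]⟩, ⟨-825, [80346883021130613400841926853114659733044024194209253692179, 1480691171867635045760104687529025078929932337941069367972420961433231149765395, 1458980155934643240405999676423527050610885588562297532952604726001808839311664, 8, 12224185451235873266460788020308100847249268262383515163812079800799175421802168912787849852076181570344871532223627054693048504409756533480576202031460993122979099273419424383178732829961766044626943181992770341454442534127591218321433809438514075306791798828335914302813777331430902793669165916276714486077700881437027243702317368422972191007535255723387813993848248451833927753955641473649395983586793081370066359871038479143890774259194136521201188369624348122172406917757990402923499044573438612117718915497829636690740026085461230359014737437846428674273756535274078442302389588100673782011863350813657374475368146165631498455838896916464048055245673947919483241025345050972236848645673343506679602145313980662440765676768666146,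 32565283938689717206458749853661825511308617431502602008971878102969050457217297779551058048456103514973872658]⟩, e00]
  gq := fun
    | .one => [⟨561, [8]⟩, ⟨221, [10314266977329344111903251]⟩, ⟨-171, [3192208058504145166691538963516229474216329090375729]⟩, ⟨-171, [40168375623305100730387]⟩, ⟨-171, [77998017858758077485937555965540592730718645239132938581850990898863055198030644998522870554468099574739250, 172521823369084529207142138807059, 8, 8, 15028647882528798117325181165131677734906121591785613571471523613960647202, 16524307813453709265173523115430746707478443692162423134411998833653279368288968716834]⟩, e00, e00, e00]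
    | .two => [e00, e00, e00, e00, e00, e00]
    | .twoE => [e00, e00, e00, e00, e00]
    | .thrR => [e00, e00, e00, e00, e00, e00]
    | .thrL => [e00, e00, e00, e00, e00]
    | .threeE => [e00, e00, e00, e00, e00, e00]
    | .ring => [e00, e00, e00, e00, e00, e00]

/-- mode -/
def s3z_2_m2 : Mode where
  md := .V 500 1000
  lam := 750
  ct := 1000
  gp := fun
    | .one => [e00, e00, e00, e00, e00, e00, e00, e00]
    | .two => [e00, e00, e00, e00, e00, e00]
    | .twoE => [e00, e00, e00, e00, e00]
    | .thrR => [e00, e00, e00, e00, e00, e00]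
    | .thrL => [e00, e00, e00, e00, e00]
    | .threeE => [e00, e00, e00, e00, e00, e00]
    | .ring => [e00, e00, e00, ⟨-940, [230009257798897744123591500866679545780889899497259029673815209750834, 9352434422547, 557443, 8, 675936457811630251397095698738, 13]⟩, e00, e00]
  gq := fun
    | .one => [⟨546, [674532912357215848949486792753]⟩, e00, e00, e00, e00, e00, e00, e00]
    | .two => [e00, e00, e00, e00, e00, e00]
    | .twoE => [e00, e00, e00, e00, e00]
    | .thrR => [e00, e00, e00, e00, e00, e00]
    | .thrL => [e00, e00, e00, e00, e00]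
    | .threeE => [e00, e00, e00, e00, e00, e00]
    | .ring => [e00, e00, e00, e00, e00, e00]

/-- mode -/
def s3z_2_m3 : Mode where
  md := .V 550 1000
  lam := 0
  ct := 500
  gp := fun
    | .one => [e00, e00, e00, e00, e00, e00, e00, e00]
    | .two => [e00, e00, e00, e00, e00, e00]
    | .twoE => [e00, e00, e00, e00, e00]
    | .thrR => [e00, e00, e00, e00, e00, e00]
    | .thrL => [e00, e00, e00, e00, e00]
    | .threeE => [e00, e00, e00, e00, e00, e00]
    | .ring => [e00, e00, e00, ⟨-51, [2353050498342964992079973033393040472532002390026498038165681559908144437795588741386555762264796037791572135790361064500515444942108226561417560555708782693002904622455075122, 753752593501253398891078357779, 613476367510018097, 8, 3502331084018681396862440790292880597469659732425151519033209138, 13]⟩, e00, e00]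
  gq := fun
    | .one => [e00, ⟨47, [336182040014260343635766662100391953472497322195012625056652205648988861842097239436994924369892828013999310518813203]⟩, e00, e00, e00, e00, e00, e00]
    | .two => [e00, e00, e00, e00, e00, e00]
    | .twoE => [e00, e00, e00, e00, e00]
    | .thrR => [e00, e00, e00, e00, e00, e00]
    | .thrL => [e00, e00, e00, e00, e00]
    | .threeE => [e00, e00, e00, e00, e00, e00]
    | .ring => [e00, e00, e00, e00, e00, e00]

/-- piece -/
def s3z_2 : Piece := ⟨6340, 6680, -820, 820, s3z_2_wp, s3z_2_wq, [s3z_2_m0, s3z_2_m1, s3z_2_m2, s3z_2_m3]⟩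

set_option linter.defProp false

def s3z_2_r0_one0 : rowsOk stS3Z s3z_2 s3z_2_m0 false .one = true := by decide +kernel

def s3z_2_r0_one1_0 : cellOk stS3Z s3z_2 s3z_2_m0 true .one ((stS3Z.bins .one).getD 0 b00)
    ((s3z_2_m0.g true .one).getD 0 e00) = true := by decide +kernel

def s3z_2_r0_one1_1 : cellOk stS3Z s3z_2 s3z_2_m0 true .one ((stS3Z.bins .one).getD 1 b00)
    ((s3z_2_m0.g true .one).getD 1 e00) = true := by decide +kernel

def s3z_2_r0_one1_2 : cellOk stS3Z s3z_2 s3z_2_m0 true .one ((stS3Z.bins .one).getD 2 b00)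
    ((s3z_2_m0.g true .one).getD 2 e00) = true := by decide +kernel

def s3z_2_r0_one1_3 : cellOk stS3Z s3z_2 s3z_2_m0 true .one ((stS3Z.bins .one).getD 3 b00)
    ((s3z_2_m0.g true .one).getD 3 e00) = true := by decide +kernel

def s3z_2_r0_one1_4 : cellOk stS3Z s3z_2 s3z_2_m0 true .one ((stS3Z.bins .one).getD 4 b00)
    ((s3z_2_m0.g true .one).getD 4 e00) = true := by decide +kernel

def s3z_2_r0_one1_5 : cellOk stS3Z s3z_2 s3z_2_m0 true .one ((stS3Z.bins .one).getD 5 b00)
    ((s3z_2_m0.g true .one).getD 5 e00) = true := by decide +kernel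

def s3z_2_r0_one1_6 : cellOk stS3Z s3z_2 s3z_2_m0 true .one ((stS3Z.bins .one).getD 6 b00)
    ((s3z_2_m0.g true .one).getD 6 e00) = true := by decide +kernel

def s3z_2_r0_one1_7 : cellOk stS3Z s3z_2 s3z_2_m0 true .one ((stS3Z.bins .one).getD 7 b00)
    ((s3z_2_m0.g true .one).getD 7 e00) = true := by decide +kernel

theorem s3z_2_r0_one1 : rowsOk stS3Z s3z_2 s3z_2_m0 true .one = true := by
  refine rowsOk_of fun i hi => ?_
  have hi : i < 8 := hi
  interval_cases i
  exacts [s3z_2_r0_one1_0, s3z_2_r0_one1_1, s3z_2_r0_one1_2, s3z_2_r0_one1_3, s3z_2_r0_one1_4, s3z_2_r0_one1_5, s3z_2_r0_one1_6, s3z_2_r0_one1_7]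

def s3z_2_r0_two0 : rowsOk stS3Z s3z_2 s3z_2_m0 false .two = true := by decide +kernel

def s3z_2_r0_two1 : rowsOk stS3Z s3z_2 s3z_2_m0 true .two = true := by decide +kernel

def s3z_2_r0_twoE0 : rowsOk stS3Z s3z_2 s3z_2_m0 false .twoE = true := by decide +kernel

def s3z_2_r0_twoE1 : rowsOk stS3Z s3z_2 s3z_2_m0 true .twoE = true := by decide +kernel

def s3z_2_r0_thrR0 : rowsOk stS3Z s3z_2 s3z_2_m0 false .thrR = true := by decide +kernel

def s3z_2_r0_thrR1 : rowsOk stS3Z s3z_2 s3z_2_m0 true .thrR = true := by decide +kernel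

def s3z_2_r0_thrL0 : rowsOk stS3Z s3z_2 s3z_2_m0 false .thrL = true := by decide +kernel

def s3z_2_r0_thrL1 : rowsOk stS3Z s3z_2 s3z_2_m0 true .thrL = true := by decide +kernel

def s3z_2_r0_threeE0 : rowsOk stS3Z s3z_2 s3z_2_m0 false .threeE = true := by decide +kernel

def s3z_2_r0_threeE1 : rowsOk stS3Z s3z_2 s3z_2_m0 true .threeE = true := by decide +kernel

def s3z_2_r0_ring0_0 : cellOk stS3Z s3z_2 s3z_2_m0 false .ring ((stS3Z.bins .ring).getD 0 b00)
    ((s3z_2_m0.g false .ring).getD 0 e00) = true := by decide +kernel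

def s3z_2_r0_ring0_1 : cellOk stS3Z s3z_2 s3z_2_m0 false .ring ((stS3Z.bins .ring).getD 1 b00)
    ((s3z_2_m0.g false .ring).getD 1 e00) = true := by decide +kernel

def s3z_2_r0_ring0_2 : cellOk stS3Z s3z_2 s3z_2_m0 false .ring ((stS3Z.bins .ring).getD 2 b00)
    ((s3z_2_m0.g false .ring).getD 2 e00) = true := by decide +kernel

def s3z_2_r0_ring0_3 : cellOk stS3Z s3z_2 s3z_2_m0 false .ring ((stS3Z.bins .ring).getD 3 b00)
    ((s3z_2_m0.g false .ring).getD 3 e00) = true := by decide +kernel

def s3z_2_r0_ring0_4 : cellOk stS3Z s3z_2 s3z_2_m0 false .ring ((stS3Z.bins .ring).getD 4 b00)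
    ((s3z_2_m0.g false .ring).getD 4 e00) = true := by decide +kernel

def s3z_2_r0_ring0_5 : cellOk stS3Z s3z_2 s3z_2_m0 false .ring ((stS3Z.bins .ring).getD 5 b00)
    ((s3z_2_m0.g false .ring).getD 5 e00) = true := by decide +kernel

theorem s3z_2_r0_ring0 : rowsOk stS3Z s3z_2 s3z_2_m0 false .ring = true := by
  refine rowsOk_of fun i hi => ?_
  have hi : i < 6 := hi
  interval_cases i
  exacts [s3z_2_r0_ring0_0, s3z_2_r0_ring0_1, s3z_2_r0_ring0_2, s3z_2_r0_ring0_3, s3z_2_r0_ring0_4, s3z_2_r0_ring0_5]

def s3z_2_r0_ring1 : rowsOk stS3Z s3z_2 s3z_2_m0 true .ring = true := by decide +kernel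

def s3z_2_r1_one0 : rowsOk stS3Z s3z_2 s3z_2_m1 false .one = true := by decide +kernel

def s3z_2_r1_one1_0 : cellOk stS3Z s3z_2 s3z_2_m1 true .one ((stS3Z.bins .one).getD 0 b00)
    ((s3z_2_m1.g true .one).getD 0 e00) = true := by decide +kernel

def s3z_2_r1_one1_1 : cellOk stS3Z s3z_2 s3z_2_m1 true .one ((stS3Z.bins .one).getD 1 b00)
    ((s3z_2_m1.g true .one).getD 1 e00) = true := by decide +kernel

def s3z_2_r1_one1_2 : cellOk stS3Z s3z_2 s3z_2_m1 true .one ((stS3Z.bins .one).getD 2 b00)
    ((s3z_2_m1.g true .one).getD 2 e00) = true := by decide +kernel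

def s3z_2_r1_one1_3 : cellOk stS3Z s3z_2 s3z_2_m1 true .one ((stS3Z.bins .one).getD 3 b00)
    ((s3z_2_m1.g true .one).getD 3 e00) = true := by decide +kernel

/-- check -/
def s3z_2_r1_one1_4_x0 : Ck := (cks stS3Z s3z_2 s3z_2_m1 true .one
    ((stS3Z.bins .one).getD 4 b00)
    ((s3z_2_m1.g true .one).getD 4 e00).g).getD 0 ckd

theorem s3z_2_r1_one1_4_k0 : ck1 s3z_2_r1_one1_4_x0 (((s3z_2_m1.g true .one).getD 4 e00).c.getD 0 0) = true := by
  decide +kernel

/-- check -/
def s3z_2_r1_one1_4_x1 : Ck := (cks stS3Z s3z_2 s3z_2_m1 true .one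
    ((stS3Z.bins .one).getD 4 b00)
    ((s3z_2_m1.g true .one).getD 4 e00).g).getD 1 ckd

theorem s3z_2_r1_one1_4_k1 : ck1 s3z_2_r1_one1_4_x1 (((s3z_2_m1.g true .one).getD 4 e00).c.getD 1 0) = true := by
  decide +kernel

/-- check -/
def s3z_2_r1_one1_4_x2 : Ck := (cks stS3Z s3z_2 s3z_2_m1 true .one
    ((stS3Z.bins .one).getD 4 b00)
    ((s3z_2_m1.g true .one).getD 4 e00).g).getD 2 ckd

theorem s3z_2_r1_one1_4_k2 : ck1 s3z_2_r1_one1_4_x2 (((s3z_2_m1.g true .one).getD 4 e00).c.getD 2 0) = true := by
  decide +kernel

/-- check -/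
def s3z_2_r1_one1_4_x3 : Ck := (cks stS3Z s3z_2 s3z_2_m1 true .one
    ((stS3Z.bins .one).getD 4 b00)
    ((s3z_2_m1.g true .one).getD 4 e00).g).getD 3 ckd

theorem s3z_2_r1_one1_4_k3 : ck1 s3z_2_r1_one1_4_x3 (((s3z_2_m1.g true .one).getD 4 e00).c.getD 3 0) = true := by
  decide +kernel

/-- check -/
def s3z_2_r1_one1_4_x4 : Ck := (cks stS3Z s3z_2 s3z_2_m1 true .one
    ((stS3Z.bins .one).getD 4 b00)
    ((s3z_2_m1.g true .one).getD 4 e00).g).getD 4 ckd

theorem s3z_2_r1_one1_4_k4 : ck1 s3z_2_r1_one1_4_x4 (((s3z_2_m1.g true .one).getD 4 e00).c.getD 4 0) = true := by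
  decide +kernel

/-- check -/
def s3z_2_r1_one1_4_x5 : Ck := (cks stS3Z s3z_2 s3z_2_m1 true .one
    ((stS3Z.bins .one).getD 4 b00)
    ((s3z_2_m1.g true .one).getD 4 e00).g).getD 5 ckd

theorem s3z_2_r1_one1_4_k5 : ck1 s3z_2_r1_one1_4_x5 (((s3z_2_m1.g true .one).getD 4 e00).c.getD 5 0) = true := by
  decide +kernel

def s3z_2_r1_one1_4 : cellOk stS3Z s3z_2 s3z_2_m1 true .one ((stS3Z.bins .one).getD 4 b00)
    ((s3z_2_m1.g true .one).getD 4 e00) = true :=
  cellOk_of 6 (by decide +kernel) (by decide +kernel) fun k hk => by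
    interval_cases k
    exacts [s3z_2_r1_one1_4_k0, s3z_2_r1_one1_4_k1, s3z_2_r1_one1_4_k2, s3z_2_r1_one1_4_k3, s3z_2_r1_one1_4_k4, s3z_2_r1_one1_4_k5]

def s3z_2_r1_one1_5 : cellOk stS3Z s3z_2 s3z_2_m1 true .one ((stS3Z.bins .one).getD 5 b00)
    ((s3z_2_m1.g true .one).getD 5 e00) = true := by decide +kernel

def s3z_2_r1_one1_6 : cellOk stS3Z s3z_2 s3z_2_m1 true .one ((stS3Z.bins .one).getD 6 b00)
    ((s3z_2_m1.g true .one).getD 6 e00) = true := by decide +kernel

def s3z_2_r1_one1_7 : cellOk stS3Z s3z_2 s3z_2_m1 true .one ((stS3Z.bins .one).getD 7 b00)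
    ((s3z_2_m1.g true .one).getD 7 e00) = true := by decide +kernel

theorem s3z_2_r1_one1 : rowsOk stS3Z s3z_2 s3z_2_m1 true .one = true := by
  refine rowsOk_of fun i hi => ?_
  have hi : i < 8 := hi
  interval_cases i
  exacts [s3z_2_r1_one1_0, s3z_2_r1_one1_1, s3z_2_r1_one1_2, s3z_2_r1_one1_3, s3z_2_r1_one1_4, s3z_2_r1_one1_5, s3z_2_r1_one1_6, s3z_2_r1_one1_7]

def s3z_2_r1_two0 : rowsOk stS3Z s3z_2 s3z_2_m1 false .two = true := by decide +kernel

def s3z_2_r1_two1 : rowsOk stS3Z s3z_2 s3z_2_m1 true .two = true := by decide +kernel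

def s3z_2_r1_twoE0 : rowsOk stS3Z s3z_2 s3z_2_m1 false .twoE = true := by decide +kernel

def s3z_2_r1_twoE1 : rowsOk stS3Z s3z_2 s3z_2_m1 true .twoE = true := by decide +kernel

def s3z_2_r1_thrR0 : rowsOk stS3Z s3z_2 s3z_2_m1 false .thrR = true := by decide +kernel

def s3z_2_r1_thrR1 : rowsOk stS3Z s3z_2 s3z_2_m1 true .thrR = true := by decide +kernel

def s3z_2_r1_thrL0 : rowsOk stS3Z s3z_2 s3z_2_m1 false .thrL = true := by decide +kernel

def s3z_2_r1_thrL1 : rowsOk stS3Z s3z_2 s3z_2_m1 true .thrL = true := by decide +kernel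

def s3z_2_r1_threeE0 : rowsOk stS3Z s3z_2 s3z_2_m1 false .threeE = true := by decide +kernel

def s3z_2_r1_threeE1 : rowsOk stS3Z s3z_2 s3z_2_m1 true .threeE = true := by decide +kernel

def s3z_2_r1_ring0_0 : cellOk stS3Z s3z_2 s3z_2_m1 false .ring ((stS3Z.bins .ring).getD 0 b00)
    ((s3z_2_m1.g false .ring).getD 0 e00) = true := by decide +kernel

def s3z_2_r1_ring0_1 : cellOk stS3Z s3z_2 s3z_2_m1 false .ring ((stS3Z.bins .ring).getD 1 b00)
    ((s3z_2_m1.g false .ring).getD 1 e00) = true := by decide +kernel

def s3z_2_r1_ring0_2 : cellOk stS3Z s3z_2 s3z_2_m1 false .ring ((stS3Z.bins .ring).getD 2 b00)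
    ((s3z_2_m1.g false .ring).getD 2 e00) = true := by decide +kernel

def s3z_2_r1_ring0_3 : cellOk stS3Z s3z_2 s3z_2_m1 false .ring ((stS3Z.bins .ring).getD 3 b00)
    ((s3z_2_m1.g false .ring).getD 3 e00) = true := by decide +kernel

/-- check -/
def s3z_2_r1_ring0_4_x0 : Ck := (cks stS3Z s3z_2 s3z_2_m1 false .ring
    ((stS3Z.bins .ring).getD 4 b00)
    ((s3z_2_m1.g false .ring).getD 4 e00).g).getD 0 ckd

theorem s3z_2_r1_ring0_4_k0 : ck1 s3z_2_r1_ring0_4_x0 (((s3z_2_m1.g false .ring).getD 4 e00).c.getD 0 0) = true := by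
  decide +kernel

/-- check -/
def s3z_2_r1_ring0_4_x1 : Ck := (cks stS3Z s3z_2 s3z_2_m1 false .ring
    ((stS3Z.bins .ring).getD 4 b00)
    ((s3z_2_m1.g false .ring).getD 4 e00).g).getD 1 ckd

theorem s3z_2_r1_ring0_4_k1 : ck1 s3z_2_r1_ring0_4_x1 (((s3z_2_m1.g false .ring).getD 4 e00).c.getD 1 0) = true := by
  decide +kernel

/-- check -/
def s3z_2_r1_ring0_4_x2 : Ck := (cks stS3Z s3z_2 s3z_2_m1 false .ring
    ((stS3Z.bins .ring).getD 4 b00)
    ((s3z_2_m1.g false .ring).getD 4 e00).g).getD 2 ckd

theorem s3z_2_r1_ring0_4_k2 : ck1 s3z_2_r1_ring0_4_x2 (((s3z_2_m1.g false .ring).getD 4 e00).c.getD 2 0) = true := by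
  decide +kernel

/-- check -/
def s3z_2_r1_ring0_4_x3 : Ck := (cks stS3Z s3z_2 s3z_2_m1 false .ring
    ((stS3Z.bins .ring).getD 4 b00)
    ((s3z_2_m1.g false .ring).getD 4 e00).g).getD 3 ckd

theorem s3z_2_r1_ring0_4_k3 : ck1 s3z_2_r1_ring0_4_x3 (((s3z_2_m1.g false .ring).getD 4 e00).c.getD 3 0) = true := by
  decide +kernel

/-- check -/
def s3z_2_r1_ring0_4_x4 : Ck := (cks stS3Z s3z_2 s3z_2_m1 false .ring
    ((stS3Z.bins .ring).getD 4 b00)
    ((s3z_2_m1.g false .ring).getD 4 e00).g).getD 4 ckd

theorem s3z_2_r1_ring0_4_k4_q1 : runT s3z_2_r1_ring0_4_x4.2.1 36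
    186526267261289570105908020329408277088154117773185961361878659069811636685213759045224759705752282262342400088861496806229377813869576011361331207755447282760301197409354009753093457488430268014937487518200231040259438081780871861594143820778107838543576031926512364239712178519148297022539763126780921723597730734817920588719442267196230941887439815115170501615116095761626094878473533228292785394085587789460241086899390856077434909960848030413836492456426210360296736415984960982109055245566385072597029350247644602825012605063800512069927023892920359409694771351228003575170739564524441253843129742640035621267214144373039222043440199531006592639857085386955005508809586349063672617274068351847528108906768503760387659862803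
    (NumIs.setL 2 (NumIs.setL 2 (NumIs.setL 2 (NumIs.setL 2 (s3z_2_r1_ring0_4_x4.2.2))))) =
    9077849947723637251529597995876207818314977333280530274988311795607851167699282751887372354489266026038786638901305588529839202127899604001009077526765602508688180589750164660728497749683286049020439176341000426820521510035868479820419957186848331993193034342821659387746106437787941347788949787042616385271779499475052346924464171048433979688915158139852730829411880357623685858466348090928588885954954965405040045709331687990886251827484799137075489081185101002352066866962736277348375541479123955821688544772260135188 := by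
  decide +kernel

theorem s3z_2_r1_ring0_4_k4_q2 : runT s3z_2_r1_ring0_4_x4.2.1 36
    9077849947723637251529597995876207818314977333280530274988311795607851167699282751887372354489266026038786638901305588529839202127899604001009077526765602508688180589750164660728497749683286049020439176341000426820521510035868479820419957186848331993193034342821659387746106437787941347788949787042616385271779499475052346924464171048433979688915158139852730829411880357623685858466348090928588885954954965405040045709331687990886251827484799137075489081185101002352066866962736277348375541479123955821688544772260135187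
    (NumIs.setR 2 (NumIs.setL 2 (NumIs.setL 2 (NumIs.setL 2 (s3z_2_r1_ring0_4_x4.2.2))))) =
    241582003193920861550314987344636643826525240794884307208702975059082706276942522774624307840476345003816460507790556559983706268364842389694832168692675908580630150856901409481712474391606212132182157691516554956555442771563518111515152334366867009820461368058977311355901187525299126285947577347869017781272696706490853438196013690929460817892590036192093796673186422038766194324190329271650020453071158018354 := by
  decide +kernel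

theorem s3z_2_r1_ring0_4_k4_q3 : runT s3z_2_r1_ring0_4_x4.2.1 37
    241582003193920861550314987344636643826525240794884307208702975059082706276942522774624307840476345003816460507790556559983706268364842389694832168692675908580630150856901409481712474391606212132182157691516554956555442771563518111515152334366867009820461368058977311355901187525299126285947577347869017781272696706490853438196013690929460817892590036192093796673186422038766194324190329271650020453071158018353
    (NumIs.setR 2 (NumIs.setL 2 (NumIs.setL 2 (s3z_2_r1_ring0_4_x4.2.2)))) =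
    10331069643681468386637863454697614890331648994823590058184409454422442018583831117221517272931033850282851510453905183327950163846414153451329469918200937116749324627496009319272633850247200058711250472360988603671090341407387920921995869897033527524347098765004479171826539215417136383421315769483692923761145126350081140372482254720139928122241883559950424114 := by
  decide +kernel

theorem s3z_2_r1_ring0_4_k4_q4 : runT s3z_2_r1_ring0_4_x4.2.1 38
    10331069643681468386637863454697614890331648994823590058184409454422442018583831117221517272931033850282851510453905183327950163846414153451329469918200937116749324627496009319272633850247200058711250472360988603671090341407387920921995869897033527524347098765004479171826539215417136383421315769483692923761145126350081140372482254720139928122241883559950424113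
    (NumIs.setR 2 (NumIs.setL 2 (s3z_2_r1_ring0_4_x4.2.2))) =
    31835066214905777488267107529492092172445419355861035576130205203305301887167484662887210433859286223165387600066642399166681329028279146601760921147817358006326817461242471558045055046909600574908516144174996497648007415857130910742736641320749135692301165468037190707461384387639523941962811855461867578490941346477312271986979 := by
  decide +kernel

theorem s3z_2_r1_ring0_4_k4_q5 : runT s3z_2_r1_ring0_4_x4.2.1 38
    1989691638431611093016694220593255760777838709741314723508137825206581367947967791430450652116205388947836725004165149947917583064267446662610057571738584875395426091327654472377815940431850035931782259010937281103000463491070681921421040082546820980768822841752324419216336524227470246372675740966366723655683834154832016999186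
    (NumIs.setL 2 (NumIs.setR 2 (s3z_2_r1_ring0_4_x4.2.2))) =
    1725782397571036426619275738579252291846273794623691930350798036045303011875417894599493231450921215803237453345069267070866616285938979996799189062707002222277404428318592418173570094921823559554702065379821752501808953653038536669839450659591166704871104503736804428052090575943190586792500476753768893063427 := by
  decide +kernel

theorem s3z_2_r1_ring0_4_k4_q6 : runT s3z_2_r1_ring0_4_x4.2.1 37
    107861399848189776663704733661203268240392112163980745646924877252831438242213618412468326965682575987702340834066829191929163517871186249799949316419187638892337776769912026135848130932613972472168879086238859531363059603314908541864965666224447919054444031483550276753255660996449411674531279797110555816464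
    (NumIs.setL 2 (NumIs.setR 2 (NumIs.setR 2 (s3z_2_r1_ring0_4_x4.2.2)))) =
    1298334373819709664083294140329607359776941794022095173638253474636351047907483731864938117906328413097630870463829124272776272713556575298342601700451092194317736541203121673256479448827239898055919813427945396885903696789897534930066825563185783113064704692991503250829618 := by
  decide +kernel

theorem s3z_2_r1_ring0_4_k4_q7 : runT s3z_2_r1_ring0_4_x4.2.1 37
    1298334373819709664083294140329607359776941794022095173638253474636351047907483731864938117906328413097630870463829124272776272713556575298342601700451092194317736541203121673256479448827239898055919813427945396885903696789897534930066825563185783113064704692991503250829617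
    (NumIs.setR 2 (NumIs.setR 2 (NumIs.setR 2 (s3z_2_r1_ring0_4_x4.2.2)))) =
    1 := by
  decide +kernel

theorem s3z_2_r1_ring0_4_k4_c : chkT s3z_2_r1_ring0_4_x4.2.1 40
    12224185451235873266460788020308100847249268262383515163812079800799175421802168912787849852076181570344871532223627054693048504409756533480576202031460993122979099273419424383178732829961766044626943181992770341454442534127591218321433809438514075306791798828335914302813777331430902793669165916276714486077700881437027243702317368422972191007535255723387813993848248451833927753955641473649395983586793081370066359871038479143890774259194136521201188369624348122172406917757990402923499044573438612117718915497829636690740026085461230359014737437846428674273756535274078442302389588100673782011863350813657374475368146165631498455838896916464048055245673947919483241025345050972236848645673343506679602145313980662440765676768666146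
    s3z_2_r1_ring0_4_x4.2.2 = true :=
  chkT_of (runT_split rfl rfl rfl
        (runT_split rfl rfl rfl
          (runT_split rfl rfl rfl
            (runT_split rfl rfl rfl
              s3z_2_r1_ring0_4_k4_q1
              s3z_2_r1_ring0_4_k4_q2)
            s3z_2_r1_ring0_4_k4_q3)
          s3z_2_r1_ring0_4_k4_q4)
        (runT_split rfl rfl rfl
          s3z_2_r1_ring0_4_k4_q5
          (runT_split rfl rfl rfl
            s3z_2_r1_ring0_4_k4_q6
            s3z_2_r1_ring0_4_k4_q7)))

theorem s3z_2_r1_ring0_4_k4 : ck1 s3z_2_r1_ring0_4_x4 (((s3z_2_m1.g false .ring).getD 4 e00).c.getD 4 0) = true :=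
  ck1_of (by decide +kernel) s3z_2_r1_ring0_4_k4_c

/-- check -/
def s3z_2_r1_ring0_4_x5 : Ck := (cks stS3Z s3z_2 s3z_2_m1 false .ring
    ((stS3Z.bins .ring).getD 4 b00)
    ((s3z_2_m1.g false .ring).getD 4 e00).g).getD 5 ckd

theorem s3z_2_r1_ring0_4_k5 : ck1 s3z_2_r1_ring0_4_x5 (((s3z_2_m1.g false .ring).getD 4 e00).c.getD 5 0) = true := by
  decide +kernel

def s3z_2_r1_ring0_4 : cellOk stS3Z s3z_2 s3z_2_m1 false .ring ((stS3Z.bins .ring).getD 4 b00)
    ((s3z_2_m1.g false .ring).getD 4 e00) = true :=
  cellOk_of 6 (by decide +kernel) (by decide +kernel) fun k hk => by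
    interval_cases k
    exacts [s3z_2_r1_ring0_4_k0, s3z_2_r1_ring0_4_k1, s3z_2_r1_ring0_4_k2, s3z_2_r1_ring0_4_k3, s3z_2_r1_ring0_4_k4, s3z_2_r1_ring0_4_k5]

def s3z_2_r1_ring0_5 : cellOk stS3Z s3z_2 s3z_2_m1 false .ring ((stS3Z.bins .ring).getD 5 b00)
    ((s3z_2_m1.g false .ring).getD 5 e00) = true := by decide +kernel

theorem s3z_2_r1_ring0 : rowsOk stS3Z s3z_2 s3z_2_m1 false .ring = true := by
  refine rowsOk_of fun i hi => ?_
  have hi : i < 6 := hi
  interval_cases i
  exacts [s3z_2_r1_ring0_0, s3z_2_r1_ring0_1, s3z_2_r1_ring0_2, s3z_2_r1_ring0_3, s3z_2_r1_ring0_4, s3z_2_r1_ring0_5]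

def s3z_2_r1_ring1 : rowsOk stS3Z s3z_2 s3z_2_m1 true .ring = true := by decide +kernel

def s3z_2_r2_one0 : rowsOk stS3Z s3z_2 s3z_2_m2 false .one = true := by decide +kernel

def s3z_2_r2_one1 : rowsOk stS3Z s3z_2 s3z_2_m2 true .one = true := by decide +kernel

def s3z_2_r2_two0 : rowsOk stS3Z s3z_2 s3z_2_m2 false .two = true := by decide +kernel

def s3z_2_r2_two1 : rowsOk stS3Z s3z_2 s3z_2_m2 true .two = true := by decide +kernel

def s3z_2_r2_twoE0 : rowsOk stS3Z s3z_2 s3z_2_m2 false .twoE = true := by decide +kernel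

def s3z_2_r2_twoE1 : rowsOk stS3Z s3z_2 s3z_2_m2 true .twoE = true := by decide +kernel

def s3z_2_r2_thrR0 : rowsOk stS3Z s3z_2 s3z_2_m2 false .thrR = true := by decide +kernel

def s3z_2_r2_thrR1 : rowsOk stS3Z s3z_2 s3z_2_m2 true .thrR = true := by decide +kernel

def s3z_2_r2_thrL0 : rowsOk stS3Z s3z_2 s3z_2_m2 false .thrL = true := by decide +kernel

def s3z_2_r2_thrL1 : rowsOk stS3Z s3z_2 s3z_2_m2 true .thrL = true := by decide +kernel

def s3z_2_r2_threeE0 : rowsOk stS3Z s3z_2 s3z_2_m2 false .threeE = true := by decide +kernel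

def s3z_2_r2_threeE1 : rowsOk stS3Z s3z_2 s3z_2_m2 true .threeE = true := by decide +kernel

def s3z_2_r2_ring0 : rowsOk stS3Z s3z_2 s3z_2_m2 false .ring = true := by decide +kernel

def s3z_2_r2_ring1 : rowsOk stS3Z s3z_2 s3z_2_m2 true .ring = true := by decide +kernel

def s3z_2_r3_one0 : rowsOk stS3Z s3z_2 s3z_2_m3 false .one = true := by decide +kernel

def s3z_2_r3_one1 : rowsOk stS3Z s3z_2 s3z_2_m3 true .one = true := by decide +kernel

def s3z_2_r3_two0 : rowsOk stS3Z s3z_2 s3z_2_m3 false .two = true := by decide +kernel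

def s3z_2_r3_two1 : rowsOk stS3Z s3z_2 s3z_2_m3 true .two = true := by decide +kernel

def s3z_2_r3_twoE0 : rowsOk stS3Z s3z_2 s3z_2_m3 false .twoE = true := by decide +kernel

def s3z_2_r3_twoE1 : rowsOk stS3Z s3z_2 s3z_2_m3 true .twoE = true := by decide +kernel

def s3z_2_r3_thrR0 : rowsOk stS3Z s3z_2 s3z_2_m3 false .thrR = true := by decide +kernel

def s3z_2_r3_thrR1 : rowsOk stS3Z s3z_2 s3z_2_m3 true .thrR = true := by decide +kernel

def s3z_2_r3_thrL0 : rowsOk stS3Z s3z_2 s3z_2_m3 false .thrL = true := by decide +kernel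

def s3z_2_r3_thrL1 : rowsOk stS3Z s3z_2 s3z_2_m3 true .thrL = true := by decide +kernel

def s3z_2_r3_threeE0 : rowsOk stS3Z s3z_2 s3z_2_m3 false .threeE = true := by decide +kernel

def s3z_2_r3_threeE1 : rowsOk stS3Z s3z_2 s3z_2_m3 true .threeE = true := by decide +kernel

def s3z_2_r3_ring0_0 : cellOk stS3Z s3z_2 s3z_2_m3 false .ring ((stS3Z.bins .ring).getD 0 b00)
    ((s3z_2_m3.g false .ring).getD 0 e00) = true := by decide +kernel

def s3z_2_r3_ring0_1 : cellOk stS3Z s3z_2 s3z_2_m3 false .ring ((stS3Z.bins .ring).getD 1 b00)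
    ((s3z_2_m3.g false .ring).getD 1 e00) = true := by decide +kernel

def s3z_2_r3_ring0_2 : cellOk stS3Z s3z_2 s3z_2_m3 false .ring ((stS3Z.bins .ring).getD 2 b00)
    ((s3z_2_m3.g false .ring).getD 2 e00) = true := by decide +kernel

def s3z_2_r3_ring0_3 : cellOk stS3Z s3z_2 s3z_2_m3 false .ring ((stS3Z.bins .ring).getD 3 b00)
    ((s3z_2_m3.g false .ring).getD 3 e00) = true := by decide +kernel

def s3z_2_r3_ring0_4 : cellOk stS3Z s3z_2 s3z_2_m3 false .ring ((stS3Z.bins .ring).getD 4 b00)
    ((s3z_2_m3.g false .ring).getD 4 e00) = true := by decide +kernel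

def s3z_2_r3_ring0_5 : cellOk stS3Z s3z_2 s3z_2_m3 false .ring ((stS3Z.bins .ring).getD 5 b00)
    ((s3z_2_m3.g false .ring).getD 5 e00) = true := by decide +kernel

theorem s3z_2_r3_ring0 : rowsOk stS3Z s3z_2 s3z_2_m3 false .ring = true := by
  refine rowsOk_of fun i hi => ?_
  have hi : i < 6 := hi
  interval_cases i
  exacts [s3z_2_r3_ring0_0, s3z_2_r3_ring0_1, s3z_2_r3_ring0_2, s3z_2_r3_ring0_3, s3z_2_r3_ring0_4, s3z_2_r3_ring0_5]

def s3z_2_r3_ring1 : rowsOk stS3Z s3z_2 s3z_2_m3 true .ring = true := by decide +kernel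

theorem s3z_2_r0 : allRows stS3Z s3z_2 s3z_2_m0 = true := by
  refine allRows_of fun P => ?_
  cases P
  exacts [⟨s3z_2_r0_one0, s3z_2_r0_one1⟩,
    ⟨s3z_2_r0_two0, s3z_2_r0_two1⟩,
    ⟨s3z_2_r0_twoE0, s3z_2_r0_twoE1⟩,
    ⟨s3z_2_r0_thrR0, s3z_2_r0_thrR1⟩,
    ⟨s3z_2_r0_thrL0, s3z_2_r0_thrL1⟩,
    ⟨s3z_2_r0_threeE0, s3z_2_r0_threeE1⟩,
    ⟨s3z_2_r0_ring0, s3z_2_r0_ring1⟩]

theorem s3z_2_r1 : allRows stS3Z s3z_2 s3z_2_m1 = true := by
  refine allRows_of fun P => ?_
  cases P
  exacts [⟨s3z_2_r1_one0, s3z_2_r1_one1⟩,
    ⟨s3z_2_r1_two0, s3z_2_r1_two1⟩,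
    ⟨s3z_2_r1_twoE0, s3z_2_r1_twoE1⟩,
    ⟨s3z_2_r1_thrR0, s3z_2_r1_thrR1⟩,
    ⟨s3z_2_r1_thrL0, s3z_2_r1_thrL1⟩,
    ⟨s3z_2_r1_threeE0, s3z_2_r1_threeE1⟩,
    ⟨s3z_2_r1_ring0, s3z_2_r1_ring1⟩]

theorem s3z_2_r2 : allRows stS3Z s3z_2 s3z_2_m2 = true := by
  refine allRows_of fun P => ?_
  cases P
  exacts [⟨s3z_2_r2_one0, s3z_2_r2_one1⟩,
    ⟨s3z_2_r2_two0, s3z_2_r2_two1⟩,
    ⟨s3z_2_r2_twoE0, s3z_2_r2_twoE1⟩,
    ⟨s3z_2_r2_thrR0, s3z_2_r2_thrR1⟩,
    ⟨s3z_2_r2_thrL0, s3z_2_r2_thrL1⟩,
    ⟨s3z_2_r2_threeE0, s3z_2_r2_threeE1⟩,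
    ⟨s3z_2_r2_ring0, s3z_2_r2_ring1⟩]

theorem s3z_2_r3 : allRows stS3Z s3z_2 s3z_2_m3 = true := by
  refine allRows_of fun P => ?_
  cases P
  exacts [⟨s3z_2_r3_one0, s3z_2_r3_one1⟩,
    ⟨s3z_2_r3_two0, s3z_2_r3_two1⟩,
    ⟨s3z_2_r3_twoE0, s3z_2_r3_twoE1⟩,
    ⟨s3z_2_r3_thrR0, s3z_2_r3_thrR1⟩,
    ⟨s3z_2_r3_thrL0, s3z_2_r3_thrL1⟩,
    ⟨s3z_2_r3_threeE0, s3z_2_r3_threeE1⟩,
    ⟨s3z_2_r3_ring0, s3z_2_r3_ring1⟩]

theorem s3z_2_ok : s3z_2.ok stS3Z = true := by
  have h : (PC.all.all fun P => PC.all.all fun Q => pairOk stS3Z s3z_2 P Q) = true := by decide +kernel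
  have d0 : mdOk stS3Z s3z_2_m0.md = true := by decide +kernel
  have d1 : mdOk stS3Z s3z_2_m1.md = true := by decide +kernel
  have d2 : mdOk stS3Z s3z_2_m2.md = true := by decide +kernel
  have d3 : mdOk stS3Z s3z_2_m3.md = true := by decide +kernel
  unfold Piece.ok
  rw [h, Bool.true_and]
  show List.all [s3z_2_m0, s3z_2_m1, s3z_2_m2, s3z_2_m3] _ = true
  rw [List.all_eq_true]
  intro m hm
  simp only [List.mem_cons, List.not_mem_nil, or_false] at hm
  rcases hm with rfl | rfl | rfl | rfl
  · rw [s3z_2_r0, d0]; rfl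
  · rw [s3z_2_r1, d1]; rfl
  · rw [s3z_2_r2, d2]; rfl
  · rw [s3z_2_r3, d3]; rfl

end OR

end Pool.Agent.Work.MP_b30479_gtS.G2
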