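import Pool.Agent.Work.MP_b30479_gt.TBS.G2.OKz
import Pool.Agent.Work.MP_b30479_gt.TBS.G2.OTab

section

set_option deprecated.oldSectionVars true

namespace Pool.Agent.Work.MP_b30479_gtS.G2

namespace OR

/-- windows -/
def r3n_1_wp : PC → Win
  | .one => ⟨-770, 520, -810, 760, 0, 530⟩
  | .two => ⟨-30, 780, -50, 1100, 0, 620⟩
  | .twoE => ⟨-610, -170, -220, 530, 190, 820⟩
  | .thrR => ⟨310, 930, 280, 1270, 0, 580⟩
  | .thrL => ⟨310, 930, 280, 1270, 0, 580⟩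
  | .threeE => ⟨160, 600, 360, 1170, 10, 740⟩
  | .ring => ⟨0, 0, 0, 0, 0, 0⟩

/-- windows -/
def r3n_1_wq : PC → Win
  | .one => ⟨-770, 530, -920, 760, -820, 0⟩
  | .two => ⟨-30, 780, -50, 1100, -290, 0⟩
  | .twoE => ⟨0, 0, 0, 0, 0, 0⟩
  | .thrR => ⟨310, 930, 280, 1270, -240, 0⟩
  | .thrL => ⟨310, 930, 280, 1270, -240, 0⟩
  | .threeE => ⟨0, 0, 0, 0, 0, 0⟩
  | .ring => ⟨0, 0, 0, 0, 0, 0⟩

/-- mode -/
def r3n_1_m0 : Mode where
  md := .D
  lam := 2500
  ct := 13000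
  gp := fun
    | .one => [⟨-1441, [36566499635]⟩, ⟨-1441, [142772259]⟩, ⟨-1441, [2632474111437585632493863730]⟩, ⟨-1441, [3949101054470837285002910764063512193108388211694144090247725858]⟩]
    | .two => [⟨-464, [8]⟩, ⟨-464, [557443]⟩, ⟨-464, [9352426784818]⟩, ⟨-464, [12760233730586121302013620505985221410]⟩]
    | .twoE => [⟨1336, [8]⟩, ⟨1336, [2177]⟩, ⟨1336, [557442]⟩, ⟨1336, [2970973313363024600560570402]⟩]
    | .thrR => [⟨-764, [36566472754]⟩, ⟨-764, [36532918307]⟩, ⟨-764, [177011752481354617634]⟩]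
    | .thrL => [⟨-764, [142837810]⟩, ⟨-764, [142837810]⟩, ⟨-764, [36532918307]⟩, ⟨-764, [177011752481354617634]⟩]
    | .threeE => [⟨-189, [8]⟩, ⟨-189, [2178]⟩, ⟨-189, [36644685842]⟩, ⟨-189, [11605372650225472357531938]⟩]
    | .ring => [e00, e00, e00, e00]
  gq := fun
    | .one => [⟨-1640, [613483720572699411]⟩, ⟨-1640, [612920637473194275]⟩, ⟨-1640, [48560576214313704532031258362175301327090357027]⟩, ⟨-1640, [312880082848430840232833286178638914084078518473071970376987625937276920441353498975971390242]⟩]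
    | .two => [⟨-663, [8]⟩, ⟨-663, [2179]⟩, ⟨-663, [36566173746]⟩, ⟨-663, [11605366810885793250804514]⟩]
    | .twoE => [e00, e00, e00, e00]
    | .thrR => [⟨-963, [142837810]⟩, ⟨-963, [557954]⟩, ⟨-963, [691733766250955554]⟩]
    | .thrL => [⟨-963, [2179]⟩, ⟨-963, [2178]⟩, ⟨-963, [557954]⟩, ⟨-963, [691733766250955554]⟩]
    | .threeE => [e00, e00, e00, e00]
    | .ring => [e00, e00, e00, e00]

/-- piece -/
def r3n_1 : Piece := ⟨6700, 7000, 0, 820, r3n_1_wp, r3n_1_wq, [r3n_1_m0]⟩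

set_option linter.defProp false

def r3n_1_r0_one0 : rowsOk stR3 r3n_1 r3n_1_m0 false .one = true := by decide +kernel

def r3n_1_r0_one1 : rowsOk stR3 r3n_1 r3n_1_m0 true .one = true := by decide +kernel

def r3n_1_r0_two0 : rowsOk stR3 r3n_1 r3n_1_m0 false .two = true := by decide +kernel

def r3n_1_r0_two1 : rowsOk stR3 r3n_1 r3n_1_m0 true .two = true := by decide +kernel

def r3n_1_r0_twoE0 : rowsOk stR3 r3n_1 r3n_1_m0 false .twoE = true := by decide +kernel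

def r3n_1_r0_twoE1 : rowsOk stR3 r3n_1 r3n_1_m0 true .twoE = true := by decide +kernel

def r3n_1_r0_thrR0 : rowsOk stR3 r3n_1 r3n_1_m0 false .thrR = true := by decide +kernel

def r3n_1_r0_thrR1 : rowsOk stR3 r3n_1 r3n_1_m0 true .thrR = true := by decide +kernel

def r3n_1_r0_thrL0 : rowsOk stR3 r3n_1 r3n_1_m0 false .thrL = true := by decide +kernel

def r3n_1_r0_thrL1 : rowsOk stR3 r3n_1 r3n_1_m0 true .thrL = true := by decide +kernel

def r3n_1_r0_threeE0 : rowsOk stR3 r3n_1 r3n_1_m0 false .threeE = true := by decide +kernel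

def r3n_1_r0_threeE1 : rowsOk stR3 r3n_1 r3n_1_m0 true .threeE = true := by decide +kernel

def r3n_1_r0_ring0 : rowsOk stR3 r3n_1 r3n_1_m0 false .ring = true := by decide +kernel

def r3n_1_r0_ring1 : rowsOk stR3 r3n_1 r3n_1_m0 true .ring = true := by decide +kernel

theorem r3n_1_r0 : allRows stR3 r3n_1 r3n_1_m0 = true := by
  refine allRows_of fun P => ?_
  cases P
  exacts [⟨r3n_1_r0_one0, r3n_1_r0_one1⟩,
    ⟨r3n_1_r0_two0, r3n_1_r0_two1⟩,
    ⟨r3n_1_r0_twoE0, r3n_1_r0_twoE1⟩,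
    ⟨r3n_1_r0_thrR0, r3n_1_r0_thrR1⟩,
    ⟨r3n_1_r0_thrL0, r3n_1_r0_thrL1⟩,
    ⟨r3n_1_r0_threeE0, r3n_1_r0_threeE1⟩,
    ⟨r3n_1_r0_ring0, r3n_1_r0_ring1⟩]

theorem r3n_1_ok : r3n_1.ok stR3 = true := by
  have h : (PC.all.all fun P => PC.all.all fun Q => pairOk stR3 r3n_1 P Q) = true := by decide +kernel
  have d0 : mdOk stR3 r3n_1_m0.md = true := by decide +kernel
  unfold Piece.ok
  rw [h, Bool.true_and]
  show List.all [r3n_1_m0] _ = true
  rw [List.all_eq_true]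
  intro m hm
  simp only [List.mem_cons, List.not_mem_nil, or_false] at hm
  rcases hm with rfl
  · rw [r3n_1_r0, d0]; rfl

end OR

end Pool.Agent.Work.MP_b30479_gtS.G2

end

section

set_option deprecated.oldSectionVars true

namespace Pool.Agent.Work.MP_b30479_gtS.G2

namespace OR

/-- windows -/
def t3n_1_wp : PC → Win
  | .one => ⟨-770, 520, -810, 760, 0, 530⟩
  | .two => ⟨-30, 780, -50, 1100, 0, 620⟩
  | .twoE => ⟨-610, -170, -220, 530, 190, 820⟩
  | .thrR => ⟨310, 930, 280, 1270, 0, 580⟩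
  | .thrL => ⟨310, 930, 280, 1270, 0, 580⟩
  | .threeE => ⟨160, 600, 360, 1170, 10, 740⟩
  | .ring => ⟨0, 0, 0, 0, 0, 0⟩

/-- windows -/
def t3n_1_wq : PC → Win
  | .one => ⟨-770, 530, -920, 760, -820, 0⟩
  | .two => ⟨-30, 780, -50, 1100, -290, 0⟩
  | .twoE => ⟨0, 0, 0, 0, 0, 0⟩
  | .thrR => ⟨310, 930, 280, 1270, -240, 0⟩
  | .thrL => ⟨310, 930, 280, 1270, -240, 0⟩
  | .threeE => ⟨0, 0, 0, 0, 0, 0⟩
  | .ring => ⟨0, 0, 0, 0, 0, 0⟩

/-- mode -/
def t3n_1_m0 : Mode where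
  md := .D
  lam := 2500
  ct := 13000
  gp := fun
    | .one => [⟨-1822, [36642654243]⟩, ⟨-1822, [142706739]⟩, ⟨-1822, [1010970072765689491166669630566929021534313569762523656934251528754]⟩]
    | .two => [⟨-156, [2179]⟩, ⟨-156, [2179]⟩, ⟨-156, [12754908296313785393391694015760991010]⟩]
    | .twoE => [⟨1644, [8]⟩, ⟨1644, [8]⟩, ⟨1644, [45314499587387803469842]⟩]
    | .thrR => [⟨-456, [9361019142930]⟩, ⟨-456, [2179]⟩, ⟨-456, [40205292185773468582194]⟩]
    | .thrL => [⟨-456, [559154]⟩, ⟨-456, [2179]⟩, ⟨-456, [40205292185773468582194]⟩]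
    | .threeE => [⟨119, [2177]⟩, ⟨119, [2177]⟩, ⟨119, [675958218497500595563694424594]⟩]
    | .ring => [e00, e00, e00, e00]
  gq := fun
    | .one => [⟨-1948, [40291330273941798814513]⟩, ⟨-1948, [613483720572699411]⟩, ⟨-1948, [1343809723454762800297940730160769748220606667255186659643273259515290414964379955422167590004521972018]⟩]
    | .two => [⟨-282, [8]⟩, ⟨-282, [8]⟩, ⟨-282, [11600548787859425644263458]⟩]
    | .twoE => [e00, e00, e00]
    | .thrR => [⟨-582, [2178]⟩, ⟨-582, [8]⟩, ⟨-582, [691446589699557426]⟩]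
    | .thrL => [⟨-582, [8]⟩, ⟨-582, [8]⟩, ⟨-582, [691446589699557426]⟩]
    | .threeE => [e00, e00, e00]
    | .ring => [e00, e00, e00, e00]

/-- piece -/
def t3n_1 : Piece := ⟨6200, 6400, 0, 820, t3n_1_wp, t3n_1_wq, [t3n_1_m0]⟩

set_option linter.defProp false

def t3n_1_r0_one0 : rowsOk stT3 t3n_1 t3n_1_m0 false .one = true := by decide +kernel

def t3n_1_r0_one1 : rowsOk stT3 t3n_1 t3n_1_m0 true .one = true := by decide +kernel

def t3n_1_r0_two0 : rowsOk stT3 t3n_1 t3n_1_m0 false .two = true := by decide +kernel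

def t3n_1_r0_two1 : rowsOk stT3 t3n_1 t3n_1_m0 true .two = true := by decide +kernel

def t3n_1_r0_twoE0 : rowsOk stT3 t3n_1 t3n_1_m0 false .twoE = true := by decide +kernel

def t3n_1_r0_twoE1 : rowsOk stT3 t3n_1 t3n_1_m0 true .twoE = true := by decide +kernel

def t3n_1_r0_thrR0 : rowsOk stT3 t3n_1 t3n_1_m0 false .thrR = true := by decide +kernel

def t3n_1_r0_thrR1 : rowsOk stT3 t3n_1 t3n_1_m0 true .thrR = true := by decide +kernel

def t3n_1_r0_thrL0 : rowsOk stT3 t3n_1 t3n_1_m0 false .thrL = true := by decide +kernel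

def t3n_1_r0_thrL1 : rowsOk stT3 t3n_1 t3n_1_m0 true .thrL = true := by decide +kernel

def t3n_1_r0_threeE0 : rowsOk stT3 t3n_1 t3n_1_m0 false .threeE = true := by decide +kernel

def t3n_1_r0_threeE1 : rowsOk stT3 t3n_1 t3n_1_m0 true .threeE = true := by decide +kernel

def t3n_1_r0_ring0 : rowsOk stT3 t3n_1 t3n_1_m0 false .ring = true := by decide +kernel

def t3n_1_r0_ring1 : rowsOk stT3 t3n_1 t3n_1_m0 true .ring = true := by decide +kernel

theorem t3n_1_r0 : allRows stT3 t3n_1 t3n_1_m0 = true := by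
  refine allRows_of fun P => ?_
  cases P
  exacts [⟨t3n_1_r0_one0, t3n_1_r0_one1⟩,
    ⟨t3n_1_r0_two0, t3n_1_r0_two1⟩,
    ⟨t3n_1_r0_twoE0, t3n_1_r0_twoE1⟩,
    ⟨t3n_1_r0_thrR0, t3n_1_r0_thrR1⟩,
    ⟨t3n_1_r0_thrL0, t3n_1_r0_thrL1⟩,
    ⟨t3n_1_r0_threeE0, t3n_1_r0_threeE1⟩,
    ⟨t3n_1_r0_ring0, t3n_1_r0_ring1⟩]

theorem t3n_1_ok : t3n_1.ok stT3 = true := by
  have h : (PC.all.all fun P => PC.all.all fun Q => pairOk stT3 t3n_1 P Q) = true := by decide +kernel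
  have d0 : mdOk stT3 t3n_1_m0.md = true := by decide +kernel
  unfold Piece.ok
  rw [h, Bool.true_and]
  show List.all [t3n_1_m0] _ = true
  rw [List.all_eq_true]
  intro m hm
  simp only [List.mem_cons, List.not_mem_nil, or_false] at hm
  rcases hm with rfl
  · rw [t3n_1_r0, d0]; rfl

end OR

end Pool.Agent.Work.MP_b30479_gtS.G2

end
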