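import Pool.Agent.Work.MP_b30479_gt.TBS.G2.OKz
import Pool.Agent.Work.MP_b30479_gt.TBS.G2.OTab

section

set_option deprecated.oldSectionVars true

namespace Pool.Agent.Work.MP_b30479_gtS.G2

namespace OR

/-- windows -/
def r2f_1_wp : PC → Win
  | .one => ⟨0, 0, 0, 0, 0, 0⟩
  | .two => ⟨-230, 660, -330, 760, 0, 530⟩
  | .twoE => ⟨-790, -140, -520, 270, 0, 820⟩
  | .thrR => ⟨100, 800, 100, 910, 0, 480⟩
  | .thrL => ⟨100, 800, 100, 910, 0, 480⟩
  | .threeE => ⟨-20, 490, 80, 860, 0, 650⟩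
  | .ring => ⟨390, 1200, 310, 1120, 0, 320⟩

/-- windows -/
def r2f_1_wq : PC → Win
  | .one => ⟨0, 0, 0, 0, 0, 0⟩
  | .two => ⟨-230, 780, -360, 760, -660, 0⟩
  | .twoE => ⟨-460, -140, -520, -80, -160, 0⟩
  | .thrR => ⟨100, 920, -70, 910, -630, 0⟩
  | .thrL => ⟨100, 920, -70, 910, -630, 0⟩
  | .threeE => ⟨100, 610, 0, 860, -380, 0⟩
  | .ring => ⟨390, 1300, 110, 1120, -820, 0⟩

/-- mode -/
def r2f_1_m0 : Mode where
  md := .D
  lam := 3500
  ct := 1000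
  gp := fun
    | .one => [e00, e00, e00, e00]
    | .two => [⟨-2051, [8]⟩, ⟨-2051, [2179]⟩, ⟨-2051, [557954]⟩, ⟨-2051, [2969733508385827990077014578]⟩]
    | .twoE => [⟨176, [8]⟩, ⟨176, [8]⟩, ⟨176, [8]⟩, ⟨176, [45333486915055004096546]⟩]
    | .thrR => [⟨-2388, [157051840134385991970]⟩, ⟨-2388, [2178]⟩, ⟨-2388, [45315008663812296507954]⟩]
    | .thrL => [⟨-2388, [557954]⟩, ⟨-2388, [559154]⟩, ⟨-2388, [2178]⟩, ⟨-2388, [45315008663812296507954]⟩]
    | .threeE => [⟨-1631, [8]⟩, ⟨-1631, [2177]⟩, ⟨-1631, [2177]⟩, ⟨-1631, [45314681324470844031762]⟩]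
    | .ring => [⟨-3005, [60918462416576212065022562990064419]⟩, ⟨-3005, [59742132343973549763076254711580723]⟩, ⟨-3005, [143143555]⟩, ⟨-3005, [686943196229960242]⟩]
  gq := fun
    | .one => [e00, e00, e00, e00]
    | .two => [⟨-1899, [8]⟩, ⟨-1899, [2178]⟩, ⟨-1899, [2178]⟩, ⟨-1899, [194705714883212952907421301900066]⟩]
    | .twoE => [⟨1255, [8]⟩, ⟨1255, [8]⟩, ⟨1255, [8]⟩, ⟨1255, [623234]⟩]
    | .thrR => [⟨-2284, [143164194]⟩, ⟨-2284, [2178]⟩, ⟨-2284, [2969742832417989466766476066]⟩]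
    | .thrL => [⟨-2284, [613484095233667378]⟩, ⟨-2284, [2178]⟩, ⟨-2284, [2178]⟩, ⟨-2284, [2969742832417989466766476066]⟩]
    | .threeE => [⟨-1208, [8]⟩, ⟨-1208, [8]⟩, ⟨-1208, [8]⟩, ⟨-1208, [41207105586]⟩]
    | .ring => [⟨-2901, [15304366098892283867500047264529854755]⟩, ⟨-2901, [674536498145476818068262979603]⟩, ⟨-2901, [9356722669587]⟩, ⟨-2901, [14030028148158760404195074501339100760082668327714]⟩]

/-- piece -/
def r2f_1 : Piece := ⟨6500, 6600, 0, 820, r2f_1_wp, r2f_1_wq, [r2f_1_m0]⟩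

set_option linter.defProp false

def r2f_1_r0_one0 : rowsOk stR2F r2f_1 r2f_1_m0 false .one = true := by decide +kernel

def r2f_1_r0_one1 : rowsOk stR2F r2f_1 r2f_1_m0 true .one = true := by decide +kernel

def r2f_1_r0_two0 : rowsOk stR2F r2f_1 r2f_1_m0 false .two = true := by decide +kernel

def r2f_1_r0_two1 : rowsOk stR2F r2f_1 r2f_1_m0 true .two = true := by decide +kernel

def r2f_1_r0_twoE0 : rowsOk stR2F r2f_1 r2f_1_m0 false .twoE = true := by decide +kernel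

def r2f_1_r0_twoE1 : rowsOk stR2F r2f_1 r2f_1_m0 true .twoE = true := by decide +kernel

def r2f_1_r0_thrR0 : rowsOk stR2F r2f_1 r2f_1_m0 false .thrR = true := by decide +kernel

def r2f_1_r0_thrR1 : rowsOk stR2F r2f_1 r2f_1_m0 true .thrR = true := by decide +kernel

def r2f_1_r0_thrL0 : rowsOk stR2F r2f_1 r2f_1_m0 false .thrL = true := by decide +kernel

def r2f_1_r0_thrL1 : rowsOk stR2F r2f_1 r2f_1_m0 true .thrL = true := by decide +kernel

def r2f_1_r0_threeE0 : rowsOk stR2F r2f_1 r2f_1_m0 false .threeE = true := by decide +kernel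

def r2f_1_r0_threeE1 : rowsOk stR2F r2f_1 r2f_1_m0 true .threeE = true := by decide +kernel

def r2f_1_r0_ring0 : rowsOk stR2F r2f_1 r2f_1_m0 false .ring = true := by decide +kernel

def r2f_1_r0_ring1 : rowsOk stR2F r2f_1 r2f_1_m0 true .ring = true := by decide +kernel

theorem r2f_1_r0 : allRows stR2F r2f_1 r2f_1_m0 = true := by
  refine allRows_of fun P => ?_
  cases P
  exacts [⟨r2f_1_r0_one0, r2f_1_r0_one1⟩,
    ⟨r2f_1_r0_two0, r2f_1_r0_two1⟩,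
    ⟨r2f_1_r0_twoE0, r2f_1_r0_twoE1⟩,
    ⟨r2f_1_r0_thrR0, r2f_1_r0_thrR1⟩,
    ⟨r2f_1_r0_thrL0, r2f_1_r0_thrL1⟩,
    ⟨r2f_1_r0_threeE0, r2f_1_r0_threeE1⟩,
    ⟨r2f_1_r0_ring0, r2f_1_r0_ring1⟩]

theorem r2f_1_ok : r2f_1.ok stR2F = true := by
  have h : (PC.all.all fun P => PC.all.all fun Q => pairOk stR2F r2f_1 P Q) = true := by decide +kernel
  have d0 : mdOk stR2F r2f_1_m0.md = true := by decide +kernel
  unfold Piece.ok
  rw [h, Bool.true_and]
  show List.all [r2f_1_m0] _ = true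
  rw [List.all_eq_true]
  intro m hm
  simp only [List.mem_cons, List.not_mem_nil, or_false] at hm
  rcases hm with rfl
  · rw [r2f_1_r0, d0]; rfl

end OR

end Pool.Agent.Work.MP_b30479_gtS.G2

end

section

set_option deprecated.oldSectionVars true

namespace Pool.Agent.Work.MP_b30479_gtS.G2

namespace OR

/-- windows -/
def t3z_1_wp : PC → Win
  | .one => ⟨-890, 290, -820, 330, 0, 430⟩
  | .two => ⟨0, 0, 0, 0, 0, 0⟩
  | .twoE => ⟨0, 0, 0, 0, 0, 0⟩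
  | .thrR => ⟨0, 0, 0, 0, 0, 0⟩
  | .thrL => ⟨0, 0, 0, 0, 0, 0⟩
  | .threeE => ⟨0, 0, 0, 0, 0, 0⟩
  | .ring => ⟨480, 1330, 470, 1500, 0, 610⟩

/-- windows -/
def t3z_1_wq : PC → Win
  | .one => ⟨-890, 290, -820, 330, -610, 0⟩
  | .two => ⟨0, 0, 0, 0, 0, 0⟩
  | .twoE => ⟨0, 0, 0, 0, 0, 0⟩
  | .thrR => ⟨0, 0, 0, 0, 0, 0⟩
  | .thrL => ⟨0, 0, 0, 0, 0, 0⟩
  | .threeE => ⟨0, 0, 0, 0, 0, 0⟩
  | .ring => ⟨480, 1330, 470, 1500, -430, 0⟩

/-- mode -/
def t3z_1_m0 : Mode where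
  md := .D
  lam := 2500
  ct := 13000
  gp := fun
    | .one => [⟨-2468, [2396420895703826]⟩, ⟨-2468, [559154]⟩, ⟨-2468, [44165586781996444674928287399052082]⟩]
    | .two => [e00, e00, e00]
    | .twoE => [e00, e00, e00]
    | .thrR => [e00, e00, e00]
    | .thrL => [e00, e00, e00]
    | .threeE => [e00, e00, e00]
    | .ring => [⟨-519, [36566479235]⟩, ⟨-519, [2401550433722755]⟩, ⟨-519, [557443]⟩, ⟨-519, [156907683194909262115]⟩]
  gq := fun
    | .one => [⟨-2485, [157389568355055731475]⟩, ⟨-2485, [142706707]⟩, ⟨-2485, [12431507510874905696507545385135267299438059073842]⟩]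
    | .two => [e00, e00, e00]
    | .twoE => [e00, e00, e00]
    | .thrR => [e00, e00, e00]
    | .thrL => [e00, e00, e00]
    | .threeE => [e00, e00, e00]
    | .ring => [⟨-536, [142837809]⟩, ⟨-536, [36566479235]⟩, ⟨-536, [557699]⟩, ⟨-536, [10314303841360151694551090]⟩]

/-- piece -/
def t3z_1 : Piece := ⟨6100, 6200, 0, 820, t3z_1_wp, t3z_1_wq, [t3z_1_m0]⟩

set_option linter.defProp false

def t3z_1_r0_one0 : rowsOk stT3Z t3z_1 t3z_1_m0 false .one = true := by decide +kernel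

def t3z_1_r0_one1 : rowsOk stT3Z t3z_1 t3z_1_m0 true .one = true := by decide +kernel

def t3z_1_r0_two0 : rowsOk stT3Z t3z_1 t3z_1_m0 false .two = true := by decide +kernel

def t3z_1_r0_two1 : rowsOk stT3Z t3z_1 t3z_1_m0 true .two = true := by decide +kernel

def t3z_1_r0_twoE0 : rowsOk stT3Z t3z_1 t3z_1_m0 false .twoE = true := by decide +kernel

def t3z_1_r0_twoE1 : rowsOk stT3Z t3z_1 t3z_1_m0 true .twoE = true := by decide +kernel

def t3z_1_r0_thrR0 : rowsOk stT3Z t3z_1 t3z_1_m0 false .thrR = true := by decide +kernel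

def t3z_1_r0_thrR1 : rowsOk stT3Z t3z_1 t3z_1_m0 true .thrR = true := by decide +kernel

def t3z_1_r0_thrL0 : rowsOk stT3Z t3z_1 t3z_1_m0 false .thrL = true := by decide +kernel

def t3z_1_r0_thrL1 : rowsOk stT3Z t3z_1 t3z_1_m0 true .thrL = true := by decide +kernel

def t3z_1_r0_threeE0 : rowsOk stT3Z t3z_1 t3z_1_m0 false .threeE = true := by decide +kernel

def t3z_1_r0_threeE1 : rowsOk stT3Z t3z_1 t3z_1_m0 true .threeE = true := by decide +kernel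

def t3z_1_r0_ring0 : rowsOk stT3Z t3z_1 t3z_1_m0 false .ring = true := by decide +kernel

def t3z_1_r0_ring1 : rowsOk stT3Z t3z_1 t3z_1_m0 true .ring = true := by decide +kernel

theorem t3z_1_r0 : allRows stT3Z t3z_1 t3z_1_m0 = true := by
  refine allRows_of fun P => ?_
  cases P
  exacts [⟨t3z_1_r0_one0, t3z_1_r0_one1⟩,
    ⟨t3z_1_r0_two0, t3z_1_r0_two1⟩,
    ⟨t3z_1_r0_twoE0, t3z_1_r0_twoE1⟩,
    ⟨t3z_1_r0_thrR0, t3z_1_r0_thrR1⟩,
    ⟨t3z_1_r0_thrL0, t3z_1_r0_thrL1⟩,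
    ⟨t3z_1_r0_threeE0, t3z_1_r0_threeE1⟩,
    ⟨t3z_1_r0_ring0, t3z_1_r0_ring1⟩]

theorem t3z_1_ok : t3z_1.ok stT3Z = true := by
  have h : (PC.all.all fun P => PC.all.all fun Q => pairOk stT3Z t3z_1 P Q) = true := by decide +kernel
  have d0 : mdOk stT3Z t3z_1_m0.md = true := by decide +kernel
  unfold Piece.ok
  rw [h, Bool.true_and]
  show List.all [t3z_1_m0] _ = true
  rw [List.all_eq_true]
  intro m hm
  simp only [List.mem_cons, List.not_mem_nil, or_false] at hm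
  rcases hm with rfl
  · rw [t3z_1_r0, d0]; rfl

end OR

end Pool.Agent.Work.MP_b30479_gtS.G2

end
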