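import Pool.Agent.Work.MP_b30479_gt.TBS.G2.OA2n_0r0
import Pool.Agent.Work.MP_b30479_gt.TBS.G2.OA2n_0r1
import Pool.Agent.Work.MP_b30479_gt.TBS.G2.OA2n_0r2
import Pool.Agent.Work.MP_b30479_gt.TBS.G2.OA2n_0r3
import Pool.Agent.Work.MP_b30479_gt.TBS.G2.OA2n_2r0
import Pool.Agent.Work.MP_b30479_gt.TBS.G2.OA2n_2r1
import Pool.Agent.Work.MP_b30479_gt.TBS.G2.OA2x_0r0
import Pool.Agent.Work.MP_b30479_gt.TBS.G2.OA2x_0r1
import Pool.Agent.Work.MP_b30479_gt.TBS.G2.OKz
import Pool.Agent.Work.MP_b30479_gt.TBS.G2.MLSE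
import Pool.Agent.Work.MP_b30479_gt.TBS.G2.OA3n_0
import Pool.Agent.Work.MP_b30479_gt.TBS.G2.OA3n_1
import Pool.Agent.Work.MP_b30479_gt.TBS.G2.OA3n_2
import Pool.Agent.Work.MP_b30479_gt.TBS.G2.OA3z_0
import Pool.Agent.Work.MP_b30479_gt.TBS.G2.OA3z_1
import Pool.Agent.Work.MP_b30479_gt.TBS.G2.OA3z_6
import Pool.Agent.Work.MP_b30479_gt.TBS.G2.OS2f_1
import Pool.Agent.Work.MP_b30479_gt.TBS.G2.OA2e_0
import Pool.Agent.Work.MP_b30479_gt.TBS.G2.OA3z_7
import Pool.Agent.Work.MP_b30479_gt.TBS.G2.OA2n_1r0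
import Pool.Agent.Work.MP_b30479_gt.TBS.G2.OA2x_2
import Pool.Agent.Work.MP_b30479_gt.TBS.G2.OA2x_4
import Pool.Agent.Work.MP_b30479_gt.TBS.G2.OA2x_5
import Pool.Agent.Work.MP_b30479_gt.TBS.G2.OA2x_6
import Pool.Agent.Work.MP_b30479_gt.TBS.G2.OA2x_8r1
import Pool.Agent.Work.MP_b30479_gt.TBS.G2.OA2x_9
import Pool.Agent.Work.MP_b30479_gt.TBS.G2.OS3z_1
import Pool.Agent.Work.MP_b30479_gt.TBS.G2.OA2z_2
import Pool.Agent.Work.MP_b30479_gt.TBS.G2.OA3n_0r0
import Pool.Agent.Work.MP_b30479_gt.TBS.G2.OA2e_2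
import Pool.Agent.Work.MP_b30479_gt.TBS.G2.OA2e_5
import Pool.Agent.Work.MP_b30479_gt.TBS.G2.OS2f_0
import Pool.Agent.Work.MP_b30479_gt.TBS.G2.OS2f_8
import Pool.Agent.Work.MP_b30479_gt.TBS.G2.OS2f_5
import Pool.Agent.Work.MP_b30479_gt.TBS.G2.OS2f_14r1
import Pool.Agent.Work.MP_b30479_gt.TBS.G2.OS3z_2
import Pool.Agent.Work.MP_b30479_gt.TBS.G2.OA2x_10r1
import Pool.Agent.Work.MP_b30479_gt.TBS.G2.OR3n_0
import Pool.Agent.Work.MP_b30479_gt.TBS.G2.OT3n_1
import Pool.Agent.Work.MP_b30479_gt.TBS.G2.OR3z_0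
import Pool.Agent.Work.MP_b30479_gt.TBS.G2.OR3z_1
import Pool.Agent.Work.MP_b30479_gt.TBS.G2.OR2r_0
import Pool.Agent.Work.MP_b30479_gt.TBS.G2.OR2r_1
import Pool.Agent.Work.MP_b30479_gt.TBS.G2.OR2z_0
import Pool.Agent.Work.MP_b30479_gt.TBS.G2.OR2z_1
import Pool.Agent.Work.MP_b30479_gt.TBS.G2.OR2f_0
import Pool.Agent.Work.MP_b30479_gt.TBS.G2.OT3z_1
import Pool.Agent.Work.MP_b30479_gt.TBS.G2.OT3z_0
import Pool.Agent.Work.MP_b30479_gt.TBS.G2.OT3z_2
import Pool.Agent.Work.MP_b30479_gt.TBS.G2.OT2n_0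
import Pool.Agent.Work.MP_b30479_gt.TBS.G2.OT2z_0

section

set_option deprecated.oldSectionVars true

namespace Pool.Agent.Work.MP_b30479_gtS.G2

namespace OR

theorem a2n_0_r0 : allRows stA2 a2n_0 a2n_0_m0 = true := by
  refine allRows_of fun P => ?_
  cases P
  exacts [⟨a2n_0_r0_one0, a2n_0_r0_one1⟩,
    ⟨a2n_0_r0_two0, a2n_0_r0_two1⟩,
    ⟨a2n_0_r0_twoE0, a2n_0_r0_twoE1⟩,
    ⟨a2n_0_r0_thrR0, a2n_0_r0_thrR1⟩,
    ⟨a2n_0_r0_thrL0, a2n_0_r0_thrL1⟩,
    ⟨a2n_0_r0_threeE0, a2n_0_r0_threeE1⟩,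
    ⟨a2n_0_r0_ring0, a2n_0_r0_ring1⟩]

theorem a2n_0_r1 : allRows stA2 a2n_0 a2n_0_m1 = true := by
  refine allRows_of fun P => ?_
  cases P
  exacts [⟨a2n_0_r1_one0, a2n_0_r1_one1⟩,
    ⟨a2n_0_r1_two0, a2n_0_r1_two1⟩,
    ⟨a2n_0_r1_twoE0, a2n_0_r1_twoE1⟩,
    ⟨a2n_0_r1_thrR0, a2n_0_r1_thrR1⟩,
    ⟨a2n_0_r1_thrL0, a2n_0_r1_thrL1⟩,
    ⟨a2n_0_r1_threeE0, a2n_0_r1_threeE1⟩,
    ⟨a2n_0_r1_ring0, a2n_0_r1_ring1⟩]

theorem a2n_0_r2 : allRows stA2 a2n_0 a2n_0_m2 = true := by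
  refine allRows_of fun P => ?_
  cases P
  exacts [⟨a2n_0_r2_one0, a2n_0_r2_one1⟩,
    ⟨a2n_0_r2_two0, a2n_0_r2_two1⟩,
    ⟨a2n_0_r2_twoE0, a2n_0_r2_twoE1⟩,
    ⟨a2n_0_r2_thrR0, a2n_0_r2_thrR1⟩,
    ⟨a2n_0_r2_thrL0, a2n_0_r2_thrL1⟩,
    ⟨a2n_0_r2_threeE0, a2n_0_r2_threeE1⟩,
    ⟨a2n_0_r2_ring0, a2n_0_r2_ring1⟩]

theorem a2n_0_r3 : allRows stA2 a2n_0 a2n_0_m3 = true := by
  refine allRows_of fun P => ?_
  cases P
  exacts [⟨a2n_0_r3_one0, a2n_0_r3_one1⟩,
    ⟨a2n_0_r3_two0, a2n_0_r3_two1⟩,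
    ⟨a2n_0_r3_twoE0, a2n_0_r3_twoE1⟩,
    ⟨a2n_0_r3_thrR0, a2n_0_r3_thrR1⟩,
    ⟨a2n_0_r3_thrL0, a2n_0_r3_thrL1⟩,
    ⟨a2n_0_r3_threeE0, a2n_0_r3_threeE1⟩,
    ⟨a2n_0_r3_ring0, a2n_0_r3_ring1⟩]

theorem a2n_0_r4 : allRows stA2 a2n_0 a2n_0_m4 = true := by
  refine allRows_of fun P => ?_
  cases P
  exacts [⟨a2n_0_r4_one0, a2n_0_r4_one1⟩,
    ⟨a2n_0_r4_two0, a2n_0_r4_two1⟩,
    ⟨a2n_0_r4_twoE0, a2n_0_r4_twoE1⟩,
    ⟨a2n_0_r4_thrR0, a2n_0_r4_thrR1⟩,
    ⟨a2n_0_r4_thrL0, a2n_0_r4_thrL1⟩,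
    ⟨a2n_0_r4_threeE0, a2n_0_r4_threeE1⟩,
    ⟨a2n_0_r4_ring0, a2n_0_r4_ring1⟩]

theorem a2n_0_ok : a2n_0.ok stA2 = true := by
  have h : (PC.all.all fun P => PC.all.all fun Q => pairOk stA2 a2n_0 P Q) = true := by decide +kernel
  have d0 : mdOk stA2 a2n_0_m0.md = true := by decide +kernel
  have d1 : mdOk stA2 a2n_0_m1.md = true := by decide +kernel
  have d2 : mdOk stA2 a2n_0_m2.md = true := by decide +kernel
  have d3 : mdOk stA2 a2n_0_m3.md = true := by decide +kernel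
  have d4 : mdOk stA2 a2n_0_m4.md = true := by decide +kernel
  unfold Piece.ok
  rw [h, Bool.true_and]
  show List.all [a2n_0_m0, a2n_0_m1, a2n_0_m2, a2n_0_m3, a2n_0_m4] _ = true
  rw [List.all_eq_true]
  intro m hm
  simp only [List.mem_cons, List.not_mem_nil, or_false] at hm
  rcases hm with rfl | rfl | rfl | rfl | rfl
  · rw [a2n_0_r0, d0]; rfl
  · rw [a2n_0_r1, d1]; rfl
  · rw [a2n_0_r2, d2]; rfl
  · rw [a2n_0_r3, d3]; rfl
  · rw [a2n_0_r4, d4]; rfl

end OR

end Pool.Agent.Work.MP_b30479_gtS.G2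

end

section

set_option deprecated.oldSectionVars true

namespace Pool.Agent.Work.MP_b30479_gtS.G2

namespace OR

theorem a2n_2_r0 : allRows stA2 a2n_2 a2n_2_m0 = true := by
  refine allRows_of fun P => ?_
  cases P
  exacts [⟨a2n_2_r0_one0, a2n_2_r0_one1⟩,
    ⟨a2n_2_r0_two0, a2n_2_r0_two1⟩,
    ⟨a2n_2_r0_twoE0, a2n_2_r0_twoE1⟩,
    ⟨a2n_2_r0_thrR0, a2n_2_r0_thrR1⟩,
    ⟨a2n_2_r0_thrL0, a2n_2_r0_thrL1⟩,
    ⟨a2n_2_r0_threeE0, a2n_2_r0_threeE1⟩,
    ⟨a2n_2_r0_ring0, a2n_2_r0_ring1⟩]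

theorem a2n_2_r1 : allRows stA2 a2n_2 a2n_2_m1 = true := by
  refine allRows_of fun P => ?_
  cases P
  exacts [⟨a2n_2_r1_one0, a2n_2_r1_one1⟩,
    ⟨a2n_2_r1_two0, a2n_2_r1_two1⟩,
    ⟨a2n_2_r1_twoE0, a2n_2_r1_twoE1⟩,
    ⟨a2n_2_r1_thrR0, a2n_2_r1_thrR1⟩,
    ⟨a2n_2_r1_thrL0, a2n_2_r1_thrL1⟩,
    ⟨a2n_2_r1_threeE0, a2n_2_r1_threeE1⟩,
    ⟨a2n_2_r1_ring0, a2n_2_r1_ring1⟩]

theorem a2n_2_r2 : allRows stA2 a2n_2 a2n_2_m2 = true := by
  refine allRows_of fun P => ?_
  cases P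
  exacts [⟨a2n_2_r2_one0, a2n_2_r2_one1⟩,
    ⟨a2n_2_r2_two0, a2n_2_r2_two1⟩,
    ⟨a2n_2_r2_twoE0, a2n_2_r2_twoE1⟩,
    ⟨a2n_2_r2_thrR0, a2n_2_r2_thrR1⟩,
    ⟨a2n_2_r2_thrL0, a2n_2_r2_thrL1⟩,
    ⟨a2n_2_r2_threeE0, a2n_2_r2_threeE1⟩,
    ⟨a2n_2_r2_ring0, a2n_2_r2_ring1⟩]

theorem a2n_2_ok : a2n_2.ok stA2 = true := by
  have h : (PC.all.all fun P => PC.all.all fun Q => pairOk stA2 a2n_2 P Q) = true := by decide +kernel
  have d0 : mdOk stA2 a2n_2_m0.md = true := by decide +kernel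
  have d1 : mdOk stA2 a2n_2_m1.md = true := by decide +kernel
  have d2 : mdOk stA2 a2n_2_m2.md = true := by decide +kernel
  unfold Piece.ok
  rw [h, Bool.true_and]
  show List.all [a2n_2_m0, a2n_2_m1, a2n_2_m2] _ = true
  rw [List.all_eq_true]
  intro m hm
  simp only [List.mem_cons, List.not_mem_nil, or_false] at hm
  rcases hm with rfl | rfl | rfl
  · rw [a2n_2_r0, d0]; rfl
  · rw [a2n_2_r1, d1]; rfl
  · rw [a2n_2_r2, d2]; rfl

end OR

end Pool.Agent.Work.MP_b30479_gtS.G2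

end

section

set_option deprecated.oldSectionVars true

namespace Pool.Agent.Work.MP_b30479_gtS.G2

namespace OR

theorem a2x_0_r0 : allRows stA2X a2x_0 a2x_0_m0 = true := by
  refine allRows_of fun P => ?_
  cases P
  exacts [⟨a2x_0_r0_one0, a2x_0_r0_one1⟩,
    ⟨a2x_0_r0_two0, a2x_0_r0_two1⟩,
    ⟨a2x_0_r0_twoE0, a2x_0_r0_twoE1⟩,
    ⟨a2x_0_r0_thrR0, a2x_0_r0_thrR1⟩,
    ⟨a2x_0_r0_thrL0, a2x_0_r0_thrL1⟩,
    ⟨a2x_0_r0_threeE0, a2x_0_r0_threeE1⟩,
    ⟨a2x_0_r0_ring0, a2x_0_r0_ring1⟩]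

theorem a2x_0_r1 : allRows stA2X a2x_0 a2x_0_m1 = true := by
  refine allRows_of fun P => ?_
  cases P
  exacts [⟨a2x_0_r1_one0, a2x_0_r1_one1⟩,
    ⟨a2x_0_r1_two0, a2x_0_r1_two1⟩,
    ⟨a2x_0_r1_twoE0, a2x_0_r1_twoE1⟩,
    ⟨a2x_0_r1_thrR0, a2x_0_r1_thrR1⟩,
    ⟨a2x_0_r1_thrL0, a2x_0_r1_thrL1⟩,
    ⟨a2x_0_r1_threeE0, a2x_0_r1_threeE1⟩,
    ⟨a2x_0_r1_ring0, a2x_0_r1_ring1⟩]

theorem a2x_0_r2 : allRows stA2X a2x_0 a2x_0_m2 = true := by
  refine allRows_of fun P => ?_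
  cases P
  exacts [⟨a2x_0_r2_one0, a2x_0_r2_one1⟩,
    ⟨a2x_0_r2_two0, a2x_0_r2_two1⟩,
    ⟨a2x_0_r2_twoE0, a2x_0_r2_twoE1⟩,
    ⟨a2x_0_r2_thrR0, a2x_0_r2_thrR1⟩,
    ⟨a2x_0_r2_thrL0, a2x_0_r2_thrL1⟩,
    ⟨a2x_0_r2_threeE0, a2x_0_r2_threeE1⟩,
    ⟨a2x_0_r2_ring0, a2x_0_r2_ring1⟩]

theorem a2x_0_r3 : allRows stA2X a2x_0 a2x_0_m3 = true := by
  refine allRows_of fun P => ?_
  cases P
  exacts [⟨a2x_0_r3_one0, a2x_0_r3_one1⟩,
    ⟨a2x_0_r3_two0, a2x_0_r3_two1⟩,
    ⟨a2x_0_r3_twoE0, a2x_0_r3_twoE1⟩,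
    ⟨a2x_0_r3_thrR0, a2x_0_r3_thrR1⟩,
    ⟨a2x_0_r3_thrL0, a2x_0_r3_thrL1⟩,
    ⟨a2x_0_r3_threeE0, a2x_0_r3_threeE1⟩,
    ⟨a2x_0_r3_ring0, a2x_0_r3_ring1⟩]

theorem a2x_0_r4 : allRows stA2X a2x_0 a2x_0_m4 = true := by
  refine allRows_of fun P => ?_
  cases P
  exacts [⟨a2x_0_r4_one0, a2x_0_r4_one1⟩,
    ⟨a2x_0_r4_two0, a2x_0_r4_two1⟩,
    ⟨a2x_0_r4_twoE0, a2x_0_r4_twoE1⟩,
    ⟨a2x_0_r4_thrR0, a2x_0_r4_thrR1⟩,
    ⟨a2x_0_r4_thrL0, a2x_0_r4_thrL1⟩,
    ⟨a2x_0_r4_threeE0, a2x_0_r4_threeE1⟩,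
    ⟨a2x_0_r4_ring0, a2x_0_r4_ring1⟩]

theorem a2x_0_ok : a2x_0.ok stA2X = true := by
  have h : (PC.all.all fun P => PC.all.all fun Q => pairOk stA2X a2x_0 P Q) = true := by decide +kernel
  have d0 : mdOk stA2X a2x_0_m0.md = true := by decide +kernel
  have d1 : mdOk stA2X a2x_0_m1.md = true := by decide +kernel
  have d2 : mdOk stA2X a2x_0_m2.md = true := by decide +kernel
  have d3 : mdOk stA2X a2x_0_m3.md = true := by decide +kernel
  have d4 : mdOk stA2X a2x_0_m4.md = true := by decide +kernel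
  unfold Piece.ok
  rw [h, Bool.true_and]
  show List.all [a2x_0_m0, a2x_0_m1, a2x_0_m2, a2x_0_m3, a2x_0_m4] _ = true
  rw [List.all_eq_true]
  intro m hm
  simp only [List.mem_cons, List.not_mem_nil, or_false] at hm
  rcases hm with rfl | rfl | rfl | rfl | rfl
  · rw [a2x_0_r0, d0]; rfl
  · rw [a2x_0_r1, d1]; rfl
  · rw [a2x_0_r2, d2]; rfl
  · rw [a2x_0_r3, d3]; rfl
  · rw [a2x_0_r4, d4]; rfl

end OR

end Pool.Agent.Work.MP_b30479_gtS.G2

end

section

/-!
# Hinges between two digits `1` are at most `.70`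
-/

set_option deprecated.oldSectionVars true

namespace Pool.Agent.Work.MP_b30479_gtS.G2

open Finset VOL Filter Topology SR

namespace OR

/-- no caps: the end of the path -/
def gA (P : PC) : ℤ := 10 * ((pp1 P).XM : ℤ)

theorem goodA {S : Stage} (hpp : S.pp = pp1)
    (h : PC.all.all (fun P => (pp1 P).good && decide ((pp1 P).XM ≤ 1000) &&
      (S.bins P).all fun b => b.ok (pp1 P)) = true) : S.good := by
  intro P
  have h1 := List.all_eq_true.1 h P (PC.mem_all P)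
  simp only [Bool.and_eq_true, decide_eq_true_eq] at h1
  obtain ⟨⟨h1, h2⟩, h3⟩ := h1
  rw [hpp]
  refine ⟨h1, h2, fun i hi => ?_⟩
  rw [List.all_eq_true] at h3
  apply h3
  rw [List.getD_eq_getElem _ _ hi]
  exact List.getElem_mem hi

theorem stA3_ok : StOk stA3 fA gA :=
  ⟨goodA rfl (by decide +kernel), rfl, rfl, Or.inl ⟨rfl, by decide⟩, by decide +kernel⟩
theorem stA3Z_ok : StOk stA3Z fA gA :=
  ⟨goodA rfl (by decide +kernel), rfl, rfl, Or.inl ⟨rfl, by decide⟩, by decide +kernel⟩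
theorem stA2_ok : StOk stA2 fA gA :=
  ⟨goodA rfl (by decide +kernel), rfl, rfl, Or.inl ⟨rfl, by decide⟩, by decide +kernel⟩
theorem stA2X_ok : StOk stA2X fA gA :=
  ⟨goodA rfl (by decide +kernel), rfl, rfl, Or.inl ⟨rfl, by decide⟩, by decide +kernel⟩
theorem stA2Z_ok : StOk stA2Z fA gA :=
  ⟨goodA rfl (by decide +kernel), rfl, rfl, Or.inl ⟨rfl, by decide⟩, by decide +kernel⟩
theorem stA2E_ok : StOk stA2E fA gA :=
  ⟨goodA rfl (by decide +kernel), rfl, rfl, Or.inl ⟨rfl, by decide⟩, by decide +kernel⟩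

theorem pA3 : POk stA3 [a3n_0, a3n_1, a3n_2]
    7000 8000 0 820 := by
  refine ⟨?_, by decide +kernel⟩
  intro p hp
  simp only [List.mem_cons, List.not_mem_nil, or_false] at hp
  rcases hp with rfl | rfl | rfl
  · exact ⟨a3n_0_ok, by decide, by decide, by decide⟩
  · exact ⟨a3n_1_ok, by decide, by decide, by decide⟩
  · exact ⟨a3n_2_ok, by decide, by decide, by decide⟩

theorem pA3Z : POk stA3Z [a3z_0, a3z_1, a3z_2, a3z_3, a3z_4, a3z_5, a3z_6, a3z_7, a3z_8]
    7000 8000 0 820 := by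
  refine ⟨?_, by decide +kernel⟩
  intro p hp
  simp only [List.mem_cons, List.not_mem_nil, or_false] at hp
  rcases hp with rfl | rfl | rfl | rfl | rfl | rfl | rfl | rfl | rfl
  · exact ⟨a3z_0_ok, by decide, by decide, by decide⟩
  · exact ⟨a3z_1_ok, by decide, by decide, by decide⟩
  · exact ⟨a3z_2_ok, by decide, by decide, by decide⟩
  · exact ⟨a3z_3_ok, by decide, by decide, by decide⟩
  · exact ⟨a3z_4_ok, by decide, by decide, by decide⟩
  · exact ⟨a3z_5_ok, by decide, by decide, by decide⟩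
  · exact ⟨a3z_6_ok, by decide, by decide, by decide⟩
  · exact ⟨a3z_7_ok, by decide, by decide, by decide⟩
  · exact ⟨a3z_8_ok, by decide, by decide, by decide⟩

theorem pA2 : POk stA2 [a2n_0, a2n_1, a2n_2]
    7000 8600 0 820 := by
  refine ⟨?_, by decide +kernel⟩
  intro p hp
  simp only [List.mem_cons, List.not_mem_nil, or_false] at hp
  rcases hp with rfl | rfl | rfl
  · exact ⟨a2n_0_ok, by decide, by decide, by decide⟩
  · exact ⟨a2n_1_ok, by decide, by decide, by decide⟩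
  · exact ⟨a2n_2_ok, by decide, by decide, by decide⟩

theorem pA2Xl : POk stA2X [a2x_0, a2x_1, a2x_2, a2x_3, a2x_4, a2x_5, a2x_7, a2x_8, a2x_9, a2x_10]
    7000 8600 0 400 := by
  refine ⟨?_, by decide +kernel⟩
  intro p hp
  simp only [List.mem_cons, List.not_mem_nil, or_false] at hp
  rcases hp with rfl | rfl | rfl | rfl | rfl | rfl | rfl | rfl | rfl | rfl
  · exact ⟨a2x_0_ok, by decide, by decide, by decide⟩
  · exact ⟨a2x_1_ok, by decide, by decide, by decide⟩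
  · exact ⟨a2x_2_ok, by decide, by decide, by decide⟩
  · exact ⟨a2x_3_ok, by decide, by decide, by decide⟩
  · exact ⟨a2x_4_ok, by decide, by decide, by decide⟩
  · exact ⟨a2x_5_ok, by decide, by decide, by decide⟩
  · exact ⟨a2x_7_ok, by decide, by decide, by decide⟩
  · exact ⟨a2x_8_ok, by decide, by decide, by decide⟩
  · exact ⟨a2x_9_ok, by decide, by decide, by decide⟩
  · exact ⟨a2x_10_ok, by decide, by decide, by decide⟩

theorem pA2Xh : POk stA2X [a2x_0, a2x_1, a2x_2, a2x_3, a2x_4, a2x_6, a2x_7, a2x_8, a2x_9, a2x_10]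
    7000 8600 400 820 := by
  refine ⟨?_, by decide +kernel⟩
  intro p hp
  simp only [List.mem_cons, List.not_mem_nil, or_false] at hp
  rcases hp with rfl | rfl | rfl | rfl | rfl | rfl | rfl | rfl | rfl | rfl
  · exact ⟨a2x_0_ok, by decide, by decide, by decide⟩
  · exact ⟨a2x_1_ok, by decide, by decide, by decide⟩
  · exact ⟨a2x_2_ok, by decide, by decide, by decide⟩
  · exact ⟨a2x_3_ok, by decide, by decide, by decide⟩
  · exact ⟨a2x_4_ok, by decide, by decide, by decide⟩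
  · exact ⟨a2x_6_ok, by decide, by decide, by decide⟩
  · exact ⟨a2x_7_ok, by decide, by decide, by decide⟩
  · exact ⟨a2x_8_ok, by decide, by decide, by decide⟩
  · exact ⟨a2x_9_ok, by decide, by decide, by decide⟩
  · exact ⟨a2x_10_ok, by decide, by decide, by decide⟩

theorem pA2Z : POk stA2Z [a2z_0, a2z_1, a2z_2, a2z_3]
    7000 8600 0 820 := by
  refine ⟨?_, by decide +kernel⟩
  intro p hp
  simp only [List.mem_cons, List.not_mem_nil, or_false] at hp
  rcases hp with rfl | rfl | rfl | rfl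
  · exact ⟨a2z_0_ok, by decide, by decide, by decide⟩
  · exact ⟨a2z_1_ok, by decide, by decide, by decide⟩
  · exact ⟨a2z_2_ok, by decide, by decide, by decide⟩
  · exact ⟨a2z_3_ok, by decide, by decide, by decide⟩

theorem pA2E : POk stA2E [a2e_0, a2e_1, a2e_2, a2e_3, a2e_4, a2e_5, a2e_6, a2e_7]
    7000 8600 0 820 := by
  refine ⟨?_, by decide +kernel⟩
  intro p hp
  simp only [List.mem_cons, List.not_mem_nil, or_false] at hp
  rcases hp with rfl | rfl | rfl | rfl | rfl | rfl | rfl | rfl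
  · exact ⟨a2e_0_ok, by decide, by decide, by decide⟩
  · exact ⟨a2e_1_ok, by decide, by decide, by decide⟩
  · exact ⟨a2e_2_ok, by decide, by decide, by decide⟩
  · exact ⟨a2e_3_ok, by decide, by decide, by decide⟩
  · exact ⟨a2e_4_ok, by decide, by decide, by decide⟩
  · exact ⟨a2e_5_ok, by decide, by decide, by decide⟩
  · exact ⟨a2e_6_ok, by decide, by decide, by decide⟩
  · exact ⟨a2e_7_ok, by decide, by decide, by decide⟩

/-- the classes `P`, `Q` are not both regions with three crossings on the same side -/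
def n33 (P Q : PC) : Prop := ¬(P = .thrR ∧ Q = .thrR) ∧ ¬(P = .thrL ∧ Q = .thrL)

theorem kindA {P Q : PC} (hn : n33 P Q) : ((P = .one ∨ Q = .one) ∧
      (stA3.kind P Q = true ∨ stA3Z.kind P Q = true)) ∨
    (¬(P = .one ∨ Q = .one) ∧ (stA2.kind P Q = true ∨ stA2X.kind P Q = true ∨
      stA2Z.kind P Q = true ∨ stA2E.kind P Q = true)) := by
  unfold n33 at hn
  cases P <;> cases Q <;> simp_all [stA3, stA3Z, stA2, stA2X, stA2Z, stA2E]

theorem pw_t (P Q : PC) : (pw1 P Q).t1 ≤ 820 ∧ -820 ≤ (pw1 P Q).t0 := by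
  cases P <;> cases Q <;> decide

set_option deprecated.oldSectionVars false
variable {M : ℕ} {b : Fin (M + 1) → ℤ} {zs : DD (tyW b) ⊕ ZZ (tyW b) → ℂ}
set_option deprecated.oldSectionVars false
variable {y : DD (tyW b) ⊕ ZZ (tyW b) → ℝ}
set_option deprecated.oldSectionVars false
variable {h h' h'' : Fin M} {i j k l : Fin (M + 1)} {s : Fin 3}

theorem Ctx.n33 (C : Ctx b h h' h'' i j k l s) : n33 (cP b k s) (cQ b l s) := by
  unfold OR.n33 cP cQ
  rcases C.A.slot with rfl | rfl <;> cases clsW b k <;> cases clsW b l <;> simp [pcOf]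

theorem Ctx.xm (C : Ctx b h h' h'' i j k l s) :
    wXM b h = (if cP b k s = .one ∨ cQ b l s = .one then 80 / 100 else 86 / 100) ∧
      wcl b h = 15 / 100 ∧ wcr b h = 20 / 100 := by
  obtain ⟨h1, h2, h3⟩ := own_par C.A C.ci C.cj
  refine ⟨?_, h2, h3⟩
  rw [h1, C.oc_i', C.oc_j']
  unfold cP cQ
  simp only [pcOf_one]

/-- the outer hinges are below the end of their path -/
theorem Ctx.capP (C : Ctx b h h' h'' i j k l s) (hy : Mx b zs y) :
    y (.inl (.inl h')) ≤ (gA (cP b k s) : ℝ) / 10000 := by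
  have h1 := (C.rh hy).reM
  rw [C.A1.re] at h1
  unfold gA
  push_cast
  linarith only [h1]

theorem Ctx.capQ (C : Ctx b h h' h'' i j k l s) (hy : Mx b zs y) :
    y (.inl (.inl h'')) ≤ (gA (cQ b l s) : ℝ) / 10000 := by
  have h1 := (C.rh' hy).reM
  rw [C.A2.re] at h1
  unfold gA
  push_cast
  linarith only [h1]

/-- the hinge `1|1` with the largest value, beyond `.70` -/
theorem Ctx.capA_false (C : Ctx b h h' h'' i j k l s) (hb : ClassW b) (hP : LocP b zs)
    (hF : Flo b zs y) (hy : Mx b zs y) (hpos : ∀ h : Fin M, 0 < y (.inl (.inl h)))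
    (hx : 70 / 100 < y (.inl (.inl h))) (hT0 : 0 ≤ hT b zs i h)
    (mP : clsW b k = .one → y (.inl (.inl h')) ≤ y (.inl (.inl h)))
    (mQ : clsW b l = .one → y (.inl (.inl h'')) ≤ y (.inl (.inl h))) : False := by
  obtain ⟨x1, x2, x3⟩ := C.xm
  have hxM : y (.inl (.inl h)) ≤ wXM b h := by
    have := (C.A.rh hy (zs := zs)).reM
    rwa [C.A.re] at this
  have gP := C.capP hy
  have gQ := C.capQ hy
  have p1 := hpos h
  have p2 := hpos h'
  have p3 := hpos h''
  have xP : (gA (cP b k s) : ℝ) ≤ 8000 := by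
    have : gA (cP b k s) ≤ 8000 := by cases cP b k s <;> decide
    exact_mod_cast this
  have xQ : (gA (cQ b l s) : ℝ) ≤ 8000 := by
    have : gA (cQ b l s) ≤ 8000 := by cases cQ b l s <;> decide
    exact_mod_cast this
  have ht1 : hT b zs i h ≤ ((820 : ℤ) : ℝ) / 10000 := by
    have e1 := (C.win hP).t1
    have e2 : ((pw1 (cP b k s) (cQ b l s)).t1 : ℝ) ≤ 820 := by
      exact_mod_cast (pw_t (cP b k s) (cQ b l s)).1
    push_cast
    linarith only [e1, e2]
  have ht0 : ((0 : ℤ) : ℝ) / 10000 ≤ hT b zs i h := by push_cast; linarith only [hT0]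
  have hx0 : ((7000 : ℤ) : ℝ) / 10000 ≤ y (.inl (.inl h)) := by push_cast; linarith only [hx]
  rcases kindA C.n33 with ⟨c1, c2⟩ | ⟨c1, c2⟩
  · rw [if_pos c1] at x1
    have hx1 : y (.inl (.inl h)) ≤ ((8000 : ℤ) : ℝ) / 10000 := by push_cast; linarith only [x1, hxM]
    rcases c2 with c2 | c2
    · refine C.stage_false hb hP hF hy hpos stA3_ok ⟨?_, ?_, Or.inl ⟨rfl, ?_⟩⟩ pA3 c2 hx0 hx1
        ht0 ht1 ?_ ?_ ?_ ?_ (fun _ => mP) (fun _ => mQ) gP gQ
      · rw [x1]; norm_num [stA3]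
      · rw [x3]; norm_num [stA3]
      · rw [x1, x3]; linarith only [hx, p1]
      all_goals simp only [stA3]; push_cast; linarith only [p1, p2, x1, hxM, gP, xP, p3, gQ, xQ]
    · refine C.stage_false hb hP hF hy hpos stA3Z_ok ⟨?_, ?_, Or.inl ⟨rfl, ?_⟩⟩ pA3Z c2 hx0 hx1
        ht0 ht1 ?_ ?_ ?_ ?_ (fun _ => mP) (fun _ => mQ) gP gQ
      · rw [x1]; norm_num [stA3Z]
      · rw [x3]; norm_num [stA3Z]
      · rw [x1, x3]; linarith only [hx, p1]
      all_goals simp only [stA3Z]; push_cast; linarith only [p1, p2, x1, hxM, gP, xP, p3, gQ, xQ]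
  · rw [if_neg c1] at x1
    have hx1 : y (.inl (.inl h)) ≤ ((8600 : ℤ) : ℝ) / 10000 := by push_cast; linarith only [x1, hxM]
    rcases c2 with c2 | c2 | c2 | c2
    · refine C.stage_false hb hP hF hy hpos stA2_ok ⟨?_, ?_, Or.inl ⟨rfl, ?_⟩⟩ pA2 c2 hx0 hx1
        ht0 ht1 ?_ ?_ ?_ ?_ (fun _ => mP) (fun _ => mQ) gP gQ
      · rw [x1]; norm_num [stA2]
      · rw [x3]; norm_num [stA2]
      · rw [x1, x3]; linarith only [hx, p1]
      all_goals simp only [stA2]; push_cast; linarith only [p1, p2, x1, hxM, gP, xP, p3, gQ, xQ]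
    · rcases le_total (hT b zs i h) (((400 : ℤ) : ℝ) / 10000) with ht | ht
      · refine C.stage_false hb hP hF hy hpos stA2X_ok ⟨?_, ?_, Or.inl ⟨rfl, ?_⟩⟩ pA2Xl c2 hx0 hx1
          ht0 ht ?_ ?_ ?_ ?_ (fun _ => mP) (fun _ => mQ) gP gQ
        · rw [x1]; norm_num [stA2X]
        · rw [x3]; norm_num [stA2X]
        · rw [x1, x3]; linarith only [hx, p1]
        all_goals simp only [stA2X]; push_cast; linarith only [p1, p2, x1, hxM, gP, xP, p3, gQ, xQ]
      · refine C.stage_false hb hP hF hy hpos stA2X_ok ⟨?_, ?_, Or.inl ⟨rfl, ?_⟩⟩ pA2Xh c2 hx0 hx1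
          ht ht1 ?_ ?_ ?_ ?_ (fun _ => mP) (fun _ => mQ) gP gQ
        · rw [x1]; norm_num [stA2X]
        · rw [x3]; norm_num [stA2X]
        · rw [x1, x3]; linarith only [hx, p1]
        all_goals simp only [stA2X]; push_cast; linarith only [p1, p2, x1, hxM, gP, xP, p3, gQ, xQ]
    · refine C.stage_false hb hP hF hy hpos stA2Z_ok ⟨?_, ?_, Or.inl ⟨rfl, ?_⟩⟩ pA2Z c2 hx0 hx1
        ht0 ht1 ?_ ?_ ?_ ?_ (fun _ => mP) (fun _ => mQ) gP gQ
      · rw [x1]; norm_num [stA2Z]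
      · rw [x3]; norm_num [stA2Z]
      · rw [x1, x3]; linarith only [hx, p1]
      all_goals simp only [stA2Z]; push_cast; linarith only [p1, p2, x1, hxM, gP, xP, p3, gQ, xQ]
    · refine C.stage_false hb hP hF hy hpos stA2E_ok ⟨?_, ?_, Or.inl ⟨rfl, ?_⟩⟩ pA2E c2 hx0 hx1
        ht0 ht1 ?_ ?_ ?_ ?_ (fun _ => mP) (fun _ => mQ) gP gQ
      · rw [x1]; norm_num [stA2E]
      · rw [x3]; norm_num [stA2E]
      · rw [x1, x3]; linarith only [hx, p1]
      all_goals simp only [stA2E]; push_cast; linarith only [p1, p2, x1, hxM, gP, xP, p3, gQ, xQ]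

/-- the largest hinge between two digits `1` -/
theorem exists_max_ctx (hb : ClassW b) (zs : DD (tyW b) ⊕ ZZ (tyW b) → ℂ) (A : Adj h i s j)
    (ci : clsW b i = .one) (cj : clsW b j = .one) :
    ∃ (h0 h1 h2 : Fin M) (i0 j0 k0 l0 : Fin (M + 1)) (s0 : Fin 3),
      Ctx b h0 h1 h2 i0 j0 k0 l0 s0 ∧ y (.inl (.inl h)) ≤ y (.inl (.inl h0)) ∧
      (∀ {h' : Fin M} {i' j' : Fin (M + 1)} {s' : Fin 3}, Adj h' i' s' j' → clsW b i' = .one →
        clsW b j' = .one → y (.inl (.inl h')) ≤ y (.inl (.inl h0))) := by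
  classical
  have hB : ∀ {h : Fin M} {i j : Fin (M + 1)} {s : Fin 3}, Adj h i s j → clsW b i = .one →
      clsW b j = .one → clsW b h.castSucc = .one ∧ clsW b h.succ = .one := by
    intro h i j s A ci cj
    cases A
    · exact ⟨ci, cj⟩
    · exact ⟨cj, ci⟩
  obtain ⟨h0, hm, hmax⟩ := (Finset.univ.filter fun h : Fin M =>
    clsW b h.castSucc = .one ∧ clsW b h.succ = .one).exists_max_image
      (fun h => y (.inl (.inl h))) ⟨h, by
        rw [Finset.mem_filter]
        exact ⟨Finset.mem_univ h, hB A ci cj⟩⟩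
  rw [Finset.mem_filter] at hm
  obtain ⟨h1, h2, k0, l0, C⟩ := exists_ctx zs y hb (Adj.l (h := h0)) hm.2.1 hm.2.2
  refine ⟨h0, h1, h2, _, _, k0, l0, _, C, hmax h ?_, fun A' ci' cj' => hmax _ ?_⟩
  · rw [Finset.mem_filter]
    exact ⟨Finset.mem_univ _, hB A ci cj⟩
  · rw [Finset.mem_filter]
    exact ⟨Finset.mem_univ _, hB A' ci' cj'⟩

/-- **Round A: every hinge between two digits `1` is at most `.70`.** -/
theorem capA (hb : ClassW b) (hP : LocP b zs) (hF : Flo b zs y) (hy : Mx b zs y)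
    (hpos : ∀ h : Fin M, 0 < y (.inl (.inl h))) (A : Adj h i s j) (ci : clsW b i = .one)
    (cj : clsW b j = .one) : y (.inl (.inl h)) ≤ 70 / 100 := by
  obtain ⟨h0, h1, h2, i0, j0, k0, l0, s0, C, hle, hmax⟩ := exists_max_ctx (y := y) hb zs A ci cj
  by_contra hcon
  push Not at hcon
  have hx := hcon.trans_le hle
  rcases le_total 0 (hT b zs i0 h0) with hT | hT
  · exact C.capA_false hb hP hF hy hpos hx hT (fun hk => hmax C.A1 C.ci hk)
      (fun hl => hmax C.A2 C.cj hl)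
  · have e := C.hT_j (zs := zs) hb
    exact C.symm.capA_false hb hP hF hy hpos hx (by rw [e]; linarith only [hT])
      (fun hl => hmax C.A2 C.cj hl) (fun hk => hmax C.A1 C.ci hk)

/-- the floors of the round `L0` -/
theorem Flo.of (hb : ClassW b) (hX : LocX b zs) (hy : Mx b zs y)
    (hpos : ∀ h : Fin M, 0 < y (.inl (.inl h))) (hF : Flr b y F0) : Flo b zs y := by
  refine ⟨fun A ci => ?_, fun A ci cj A1 A2 n1 n2 => floor_one_one hb hX hy hpos hF A ci cj A1 A2
    n1 n2⟩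
  have h1 := hF A
  rw [ci] at h1
  exact h1

end OR

end Pool.Agent.Work.MP_b30479_gtS.G2

end

section

/-!
# The sum of the two hinges of a digit `1` next to a digit `1` is at most `.95`
-/

set_option deprecated.oldSectionVars true

namespace Pool.Agent.Work.MP_b30479_gtS.G2

open Finset VOL Filter Topology SR

namespace OR

/-- the caps before the round of the sums -/
def gS : PC → ℤ
  | .one => 7000
  | .two => 5600
  | .twoE => 3700
  | .thrR => 6500
  | .thrL => 3900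
  | .threeE => 6000
  | .ring => 6500

theorem stS3L_ok : StOk stS3L fA gS :=
  ⟨goodA rfl (by decide +kernel), rfl, rfl, Or.inl ⟨rfl, by decide⟩, by decide +kernel⟩

theorem stS3F_ok : StOk stS3F fA gS :=
  ⟨goodA rfl (by decide +kernel), rfl, rfl, Or.inl ⟨rfl, by decide⟩, by decide +kernel⟩

theorem stS2F_ok : StOk stS2F fA gS :=
  ⟨goodA rfl (by decide +kernel), rfl, rfl, Or.inl ⟨rfl, by decide⟩, by decide +kernel⟩

theorem stS3R_ok : StOk stS3R fA gS :=
  ⟨goodA rfl (by decide +kernel), rfl, rfl, Or.inl ⟨rfl, by decide⟩, by decide +kernel⟩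

theorem stS3Z_ok : StOk stS3Z fA gS :=
  ⟨goodA rfl (by decide +kernel), rfl, rfl, Or.inl ⟨rfl, by decide⟩, by decide +kernel⟩

theorem stS2R_ok : StOk stS2R fA gS :=
  ⟨goodA rfl (by decide +kernel), rfl, rfl, Or.inl ⟨rfl, by decide⟩, by decide +kernel⟩

theorem pS3L : POk stS3L [s3l_0, s3l_1] 3000 4750 (-820) 820 := by
  refine ⟨?_, by decide +kernel⟩
  intro p hp
  simp only [List.mem_cons, List.not_mem_nil, or_false] at hp
  rcases hp with rfl | rfl
  · exact ⟨s3l_0_ok, by decide, by decide, by decide⟩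
  · exact ⟨s3l_1_ok, by decide, by decide, by decide⟩

theorem pS3F : POk stS3F [s3f_0, s3f_1] 4750 6000 (-820) 820 := by
  refine ⟨?_, by decide +kernel⟩
  intro p hp
  simp only [List.mem_cons, List.not_mem_nil, or_false] at hp
  rcases hp with rfl | rfl
  · exact ⟨s3f_0_ok, by decide, by decide, by decide⟩
  · exact ⟨s3f_1_ok, by decide, by decide, by decide⟩

theorem pS2F : POk stS2F [s2f_0, s2f_1, s2f_2, s2f_3, s2f_4, s2f_5, s2f_6, s2f_7, s2f_8, s2f_9, s2f_10, s2f_11, s2f_12, s2f_13, s2f_14] 3000 6600 (-820) 820 := by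
  refine ⟨?_, by decide +kernel⟩
  intro p hp
  simp only [List.mem_cons, List.not_mem_nil, or_false] at hp
  rcases hp with rfl | rfl | rfl | rfl | rfl | rfl | rfl | rfl | rfl | rfl | rfl | rfl | rfl | rfl | rfl
  · exact ⟨s2f_0_ok, by decide, by decide, by decide⟩
  · exact ⟨s2f_1_ok, by decide, by decide, by decide⟩
  · exact ⟨s2f_2_ok, by decide, by decide, by decide⟩
  · exact ⟨s2f_3_ok, by decide, by decide, by decide⟩
  · exact ⟨s2f_4_ok, by decide, by decide, by decide⟩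
  · exact ⟨s2f_5_ok, by decide, by decide, by decide⟩
  · exact ⟨s2f_6_ok, by decide, by decide, by decide⟩
  · exact ⟨s2f_7_ok, by decide, by decide, by decide⟩
  · exact ⟨s2f_8_ok, by decide, by decide, by decide⟩
  · exact ⟨s2f_9_ok, by decide, by decide, by decide⟩
  · exact ⟨s2f_10_ok, by decide, by decide, by decide⟩
  · exact ⟨s2f_11_ok, by decide, by decide, by decide⟩
  · exact ⟨s2f_12_ok, by decide, by decide, by decide⟩
  · exact ⟨s2f_13_ok, by decide, by decide, by decide⟩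
  · exact ⟨s2f_14_ok, by decide, by decide, by decide⟩

theorem pS3R : POk stS3R [s3r_0, s3r_1, s3r_2, s3r_3] 6000 7000 (-820) 820 := by
  refine ⟨?_, by decide +kernel⟩
  intro p hp
  simp only [List.mem_cons, List.not_mem_nil, or_false] at hp
  rcases hp with rfl | rfl | rfl | rfl
  · exact ⟨s3r_0_ok, by decide, by decide, by decide⟩
  · exact ⟨s3r_1_ok, by decide, by decide, by decide⟩
  · exact ⟨s3r_2_ok, by decide, by decide, by decide⟩
  · exact ⟨s3r_3_ok, by decide, by decide, by decide⟩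

theorem pS3Z : POk stS3Z [s3z_0, s3z_1, s3z_2, s3z_3] 6000 7000 (-820) 820 := by
  refine ⟨?_, by decide +kernel⟩
  intro p hp
  simp only [List.mem_cons, List.not_mem_nil, or_false] at hp
  rcases hp with rfl | rfl | rfl | rfl
  · exact ⟨s3z_0_ok, by decide, by decide, by decide⟩
  · exact ⟨s3z_1_ok, by decide, by decide, by decide⟩
  · exact ⟨s3z_2_ok, by decide, by decide, by decide⟩
  · exact ⟨s3z_3_ok, by decide, by decide, by decide⟩

theorem pS2R : POk stS2R [s2r_0, s2r_1] 6600 7000 (-820) 820 := by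
  refine ⟨?_, by decide +kernel⟩
  intro p hp
  simp only [List.mem_cons, List.not_mem_nil, or_false] at hp
  rcases hp with rfl | rfl
  · exact ⟨s2r_0_ok, by decide, by decide, by decide⟩
  · exact ⟨s2r_1_ok, by decide, by decide, by decide⟩

/-- the stage of a hinge: runs of three or more digits `1` -/
theorem kindS3 {P Q : PC} (hc : P = .one ∨ Q = .one) : stS3F.kind P Q = true ∧
    (P ≠ .one → stS3L.kind P Q = true) ∧ (stS3R.kind P Q = true ∨ stS3Z.kind P Q = true) := by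
  cases P <;> cases Q <;> simp_all [stS3F, stS3L, stS3R, stS3Z]

theorem kindS2 {P Q : PC} (hn : n33 P Q) (hc : ¬ (P = .one ∨ Q = .one)) :
    stS2F.kind P Q = true ∧ stS2R.kind P Q = true := by
  unfold n33 at hn
  cases P <;> cases Q <;> simp_all [stS2F, stS2R]

set_option deprecated.oldSectionVars false
variable {M : ℕ} {b : Fin (M + 1) → ℤ} {zs : DD (tyW b) ⊕ ZZ (tyW b) → ℂ}
set_option deprecated.oldSectionVars false
variable {y : DD (tyW b) ⊕ ZZ (tyW b) → ℝ}
set_option deprecated.oldSectionVars false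
variable {h h' h'' : Fin M} {i j k l : Fin (M + 1)} {s : Fin 3}

/-- the caps at the digits `1` -/
def CapS (b : Fin (M + 1) → ℤ) (y : DD (tyW b) ⊕ ZZ (tyW b) → ℝ) : Prop :=
  ∀ {h : Fin M} {i j : Fin (M + 1)} {p : Fin 3}, Adj h i p j → clsW b i = .one →
    y (.inl (.inl h)) ≤ (gS (pcOf (clsW b j) p) : ℝ) / 10000

theorem Ctx.hTr (C : Ctx b h h' h'' i j k l s) (hP : LocP b zs) :
    ((-820 : ℤ) : ℝ) / 10000 ≤ hT b zs i h ∧ hT b zs i h ≤ ((820 : ℤ) : ℝ) / 10000 := by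
  have e1 := (C.win hP).t1
  have e0 := (C.win hP).t0
  have e2 : ((pw1 (cP b k s) (cQ b l s)).t1 : ℝ) ≤ 820 := by
    exact_mod_cast (pw_t (cP b k s) (cQ b l s)).1
  have e3 : (-820 : ℝ) ≤ ((pw1 (cP b k s) (cQ b l s)).t0 : ℝ) := by
    exact_mod_cast (pw_t (cP b k s) (cQ b l s)).2
  push_cast
  constructor <;> linarith only [e0, e3, e1, e2]

/-- the contradiction at a hinge `1|1` of a digit with large sum -/
theorem Ctx.sum_false (C : Ctx b h h' h'' i j k l s) (hb : ClassW b) (hP : LocP b zs)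
    (hF : Flo b zs y) (hc : CapS b y) (hy : Mx b zs y) (hpos : ∀ h : Fin M, 0 < y (.inl (.inl h)))
    (hx : 95 / 100 < y (.inl (.inl h)) + y (.inl (.inl h')))
    (mP : clsW b k = .one → y (.inl (.inl h')) ≤ y (.inl (.inl h)))
    (mQ : clsW b l = .one → 475 / 1000 ≤ y (.inl (.inl h)) →
      y (.inl (.inl h'')) ≤ y (.inl (.inl h))) : False := by
  obtain ⟨x1, x2, x3⟩ := C.xm
  have gP : y (.inl (.inl h')) ≤ (gS (cP b k s) : ℝ) / 10000 := hc C.A1 C.ci
  have gQ : y (.inl (.inl h'')) ≤ (gS (cQ b l s) : ℝ) / 10000 := hc C.A2 C.cj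
  have gO : y (.inl (.inl h)) ≤ 70 / 100 := by
    have h1 := hc C.A C.ci
    rw [C.cj] at h1
    simp only [pcOf, gS] at h1
    push_cast at h1
    linarith only [h1]
  obtain ⟨ht0, ht1⟩ := C.hTr hP
  have p1 := hpos h
  have p3 := hpos h''
  have bP : (gS (cP b k s) : ℝ) ≤ 7000 := by
    have : gS (cP b k s) ≤ 7000 := by cases cP b k s <;> decide
    exact_mod_cast this
  have bQ : (gS (cQ b l s) : ℝ) ≤ 7000 := by
    have : gS (cQ b l s) ≤ 7000 := by cases cQ b l s <;> decide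
    exact_mod_cast this
  have bP' : cP b k s ≠ .one → (gS (cP b k s) : ℝ) ≤ 6500 := by
    intro hn
    have : gS (cP b k s) ≤ 6500 := by
      revert hn
      cases cP b k s <;> simp [gS]
    exact_mod_cast this
  have hone : cP b k s = .one → 475 / 1000 ≤ y (.inl (.inl h)) := by
    intro e
    have := mP (pcOf_one.1 e)
    linarith only [hx, this]
  by_cases c1 : cP b k s = .one ∨ cQ b l s = .one
  · obtain ⟨k1, k2, k3⟩ := kindS3 c1
    rw [if_pos c1] at x1
    rcases lt_or_ge (y (.inl (.inl h))) (475 / 1000) with hl | hl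
    · have hn : cP b k s ≠ .one := fun e => absurd (hone e) (not_le.2 hl)
      have := bP' hn
      refine C.stage_false hb hP hF hy hpos stS3L_ok ⟨?_, ?_, Or.inr ⟨rfl, ?_, ?_⟩⟩ pS3L (k2 hn)
        ?_ ?_ ht0 ht1 ?_ ?_ ?_ ?_ (fun hm => absurd hm (by decide)) (fun hm => absurd hm (by decide))
        gP gQ
      · rw [x1]; norm_num [stS3L]
      · rw [x3]; norm_num [stS3L]
      · rw [x2]; linarith only [hx, gP, p1, bP]
      · rw [x1, x3]; linarith only [p1, hl]
      · push_cast; linarith only [hx, gP, this]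
      · push_cast; linarith only [hl]
      all_goals simp only [stS3L]; push_cast; linarith only [hx, gP, p1, bP, hl, p3, gQ, bQ]
    · rcases le_total (y (.inl (.inl h))) (60 / 100) with hf | hf
      · refine C.stage_false hb hP hF hy hpos stS3F_ok ⟨?_, ?_, Or.inr ⟨rfl, ?_, ?_⟩⟩ pS3F k1
          ?_ ?_ ht0 ht1 ?_ ?_ ?_ ?_ (fun _ => mP) (fun _ e => mQ e hl) gP gQ
        · rw [x1]; norm_num [stS3F]
        · rw [x3]; norm_num [stS3F]
        · rw [x2]; linarith only [hx, gP, p1, bP]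
        · rw [x1, x3]; linarith only [hf]
        · push_cast; linarith only [hl]
        · push_cast; linarith only [hf]
        all_goals simp only [stS3F]; push_cast; linarith only [hx, gP, p1, bP, hf, p3, gQ, bQ]
      · rcases eq_or_lt_of_le hf with he | hlt
        · refine C.stage_false hb hP hF hy hpos stS3F_ok ⟨?_, ?_, Or.inr ⟨rfl, ?_, ?_⟩⟩ pS3F k1
            ?_ ?_ ht0 ht1 ?_ ?_ ?_ ?_ (fun _ => mP) (fun _ e => mQ e hl) gP gQ
          · rw [x1]; norm_num [stS3F]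
          · rw [x3]; norm_num [stS3F]
          · rw [x2]; linarith only [hx, gP, p1, bP]
          · rw [x1, x3]; linarith only [he]
          · push_cast; linarith only [hl]
          · push_cast; linarith only [he]
          all_goals simp only [stS3F]; push_cast; linarith only [hx, gP, p1, bP, he, p3, gQ, bQ]
        · rcases k3 with k3 | k3
          · refine C.stage_false hb hP hF hy hpos stS3R_ok ⟨?_, ?_, Or.inl ⟨rfl, ?_⟩⟩ pS3R k3
              ?_ ?_ ht0 ht1 ?_ ?_ ?_ ?_ (fun _ => mP) (fun _ e => mQ e hl) gP gQ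
            · rw [x1]; norm_num [stS3R]
            · rw [x3]; norm_num [stS3R]
            · rw [x1, x3]; linarith only [hlt]
            · push_cast; linarith only [hlt]
            · push_cast; linarith only [gO]
            all_goals simp only [stS3R]; push_cast; linarith only [hx, gP, gO, bP, hlt, p3, gQ, bQ]
          · refine C.stage_false hb hP hF hy hpos stS3Z_ok ⟨?_, ?_, Or.inl ⟨rfl, ?_⟩⟩ pS3Z k3
              ?_ ?_ ht0 ht1 ?_ ?_ ?_ ?_ (fun _ => mP) (fun _ e => mQ e hl) gP gQ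
            · rw [x1]; norm_num [stS3Z]
            · rw [x3]; norm_num [stS3Z]
            · rw [x1, x3]; linarith only [hlt]
            · push_cast; linarith only [hlt]
            · push_cast; linarith only [gO]
            all_goals simp only [stS3Z]; push_cast; linarith only [hx, gP, gO, bP, hlt, p3, gQ, bQ]
  · obtain ⟨k1, k2⟩ := kindS2 C.n33 c1
    rw [if_neg c1] at x1
    have hn : cP b k s ≠ .one := fun e => c1 (Or.inl e)
    have hn' : cQ b l s ≠ .one := fun e => c1 (Or.inr e)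
    have := bP' hn
    have nP : ∀ {S : Stage}, S.mx = true → clsW b k = .one →
        y (.inl (.inl h')) ≤ y (.inl (.inl h)) := fun _ e => absurd (pcOf_one.2 e) hn
    have nQ : ∀ {S : Stage}, S.mx = true → clsW b l = .one →
        y (.inl (.inl h'')) ≤ y (.inl (.inl h)) := fun _ e => absurd (pcOf_one.2 e) hn'
    rcases le_or_gt (y (.inl (.inl h))) (66 / 100) with hf | hf
    · refine C.stage_false hb hP hF hy hpos stS2F_ok ⟨?_, ?_, Or.inr ⟨rfl, ?_, ?_⟩⟩ pS2F k1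
        ?_ ?_ ht0 ht1 ?_ ?_ ?_ ?_ nP nQ gP gQ
      · rw [x1]; norm_num [stS2F]
      · rw [x3]; norm_num [stS2F]
      · rw [x2]; linarith only [hx, gP, p1, bP]
      · rw [x1, x3]; linarith only [hf]
      · push_cast; linarith only [hx, gP, this]
      · push_cast; linarith only [hf]
      all_goals simp only [stS2F]; push_cast; linarith only [hx, gP, p1, bP, hf, p3, gQ, bQ]
    · refine C.stage_false hb hP hF hy hpos stS2R_ok ⟨?_, ?_, Or.inl ⟨rfl, ?_⟩⟩ pS2R k2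
        ?_ ?_ ht0 ht1 ?_ ?_ ?_ ?_ nP nQ gP gQ
      · rw [x1]; norm_num [stS2R]
      · rw [x3]; norm_num [stS2R]
      · rw [x1, x3]; linarith only [hf]
      · push_cast; linarith only [hf]
      · push_cast; linarith only [gO]
      all_goals simp only [stS2R]; push_cast; linarith only [hx, gP, gO, p1, bP, p3, gQ, bQ]

/-- **Round S at the digits `1` next to a digit `1`: the sum of the two hinges is at most `.95`.** -/
theorem sum_one (hb : ClassW b) (hP : LocP b zs) (hF : Flo b zs y) (hc : CapS b y)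
    (hy : Mx b zs y) (hpos : ∀ h : Fin M, 0 < y (.inl (.inl h))) (A : Adj h i s j)
    (A1 : Adj h' i s.rev k) (ci : clsW b i = .one) (cj : clsW b j = .one) :
    y (.inl (.inl h)) + y (.inl (.inl h')) ≤ 95 / 100 := by
  classical
  by_contra hcon
  push Not at hcon
  let Bad : Fin M → Prop := fun h => ∃ (h' : Fin M) (i j k : Fin (M + 1)) (s : Fin 3),
    Adj h i s j ∧ Adj h' i s.rev k ∧ clsW b i = .one ∧ clsW b j = .one ∧
      95 / 100 < y (.inl (.inl h)) + y (.inl (.inl h')) ∧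
      (clsW b k = .one → y (.inl (.inl h')) ≤ y (.inl (.inl h)))
  have hne : ∃ h, Bad h := by
    by_cases hk : clsW b k = .one ∧ y (.inl (.inl h)) < y (.inl (.inl h'))
    · refine ⟨h', h, i, k, j, s.rev, A1, ?_, ci, hk.1, by linarith only [hcon], fun _ => hk.2.le⟩
      rw [Fin.rev_rev]
      exact A
    · refine ⟨h, h', i, j, k, s, A, A1, ci, cj, hcon, fun e => ?_⟩
      by_contra hc'
      exact hk ⟨e, not_le.1 hc'⟩
  obtain ⟨hx, hBx⟩ := hne
  obtain ⟨h0, hm, hmax⟩ := (Finset.univ.filter Bad).exists_max_image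
    (fun h => y (.inl (.inl h))) ⟨hx, by rw [Finset.mem_filter]; exact ⟨Finset.mem_univ _, hBx⟩⟩
  rw [Finset.mem_filter] at hm
  obtain ⟨h1, i0, j0, k0, s0, B1, B2, d1, d2, d3, d4⟩ := hm.2
  have e2 := clsW_inner hb (Or.inl d2)
  rcases B1.symm.other b zs y with ⟨f1, -⟩ | ⟨-, h2, l0, B3⟩
  · rw [f1] at e2
    exact absurd e2 (by decide)
  have B3' := B3
  rw [Fin.rev_rev] at B3
  have C : Ctx b h0 h1 h2 i0 j0 k0 l0 s0 := ⟨B1, B2, B3, d1, d2⟩
  refine C.sum_false hb hP hF hc hy hpos d3 d4 fun el hl => ?_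
  by_contra hc'
  push Not at hc'
  have hb2 : Bad h2 := ⟨h0, j0, l0, i0, s0, B3, B1.symm, d2, el, by linarith only [hl, hc'], fun _ => hc'.le⟩
  have := hmax h2 (by rw [Finset.mem_filter]; exact ⟨Finset.mem_univ _, hb2⟩)
  linarith only [hc', this]

end OR

end Pool.Agent.Work.MP_b30479_gtS.G2

end

section

/-!
# Caps of the hinges between two digits `1` after the first left round
-/

set_option deprecated.oldSectionVars true

namespace Pool.Agent.Work.MP_b30479_gtS.G2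

open Finset VOL Filter Topology SR

namespace OR

/-- floors after the first left round -/
def fR : PC → ℤ
  | .one => 1250
  | .two => 1500
  | .twoE => 1250
  | .thrR => 1300
  | .thrL => 1100
  | .threeE => 1200
  | .ring => 1200

/-- floors after the second left round -/
def fT : PC → ℤ
  | .one => 1500
  | .two => 1600
  | .twoE => 1400
  | .thrR => 1300
  | .thrL => 1500
  | .threeE => 1400
  | .ring => 1450

/-- bounds of the partners, from the sums -/
def gR (_ : PC) : ℤ := 3400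
def gT (_ : PC) : ℤ := 3500

theorem stR3_ok : StOk stR3 fR gR :=
  ⟨goodA rfl (by decide +kernel), rfl, rfl, Or.inr rfl, by decide +kernel⟩

theorem stR3Z_ok : StOk stR3Z fR gR :=
  ⟨goodA rfl (by decide +kernel), rfl, rfl, Or.inr rfl, by decide +kernel⟩

theorem stR2R_ok : StOk stR2R fR gR :=
  ⟨goodA rfl (by decide +kernel), rfl, rfl, Or.inr rfl, by decide +kernel⟩

theorem stR2Z_ok : StOk stR2Z fR gR :=
  ⟨goodA rfl (by decide +kernel), rfl, rfl, Or.inr rfl, by decide +kernel⟩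

theorem stR2F_ok : StOk stR2F fR gR :=
  ⟨goodA rfl (by decide +kernel), rfl, rfl, Or.inr rfl, by decide +kernel⟩

theorem stR2G_ok : StOk stR2G fR gR :=
  ⟨goodA rfl (by decide +kernel), rfl, rfl, Or.inr rfl, by decide +kernel⟩

theorem stT3_ok : StOk stT3 fT gT :=
  ⟨goodA rfl (by decide +kernel), rfl, rfl, Or.inr rfl, by decide +kernel⟩

theorem stT3Z_ok : StOk stT3Z fT gT :=
  ⟨goodA rfl (by decide +kernel), rfl, rfl, Or.inr rfl, by decide +kernel⟩

theorem stT2_ok : StOk stT2 fT gT :=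
  ⟨goodA rfl (by decide +kernel), rfl, rfl, Or.inr rfl, by decide +kernel⟩

theorem stT2Z_ok : StOk stT2Z fT gT :=
  ⟨goodA rfl (by decide +kernel), rfl, rfl, Or.inr rfl, by decide +kernel⟩

theorem pR3 : POk stR3 [r3n_0, r3n_1] 6400 7000 0 820 := by
  refine ⟨?_, by decide +kernel⟩
  intro p hp
  simp only [List.mem_cons, List.not_mem_nil, or_false] at hp
  rcases hp with rfl | rfl
  · exact ⟨r3n_0_ok, by decide, by decide, by decide⟩
  · exact ⟨r3n_1_ok, by decide, by decide, by decide⟩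

theorem pR3Z : POk stR3Z [r3z_0, r3z_1, r3z_2] 6400 7000 0 820 := by
  refine ⟨?_, by decide +kernel⟩
  intro p hp
  simp only [List.mem_cons, List.not_mem_nil, or_false] at hp
  rcases hp with rfl | rfl | rfl
  · exact ⟨r3z_0_ok, by decide, by decide, by decide⟩
  · exact ⟨r3z_1_ok, by decide, by decide, by decide⟩
  · exact ⟨r3z_2_ok, by decide, by decide, by decide⟩

theorem pR2R : POk stR2R [r2r_0, r2r_1] 6600 7000 0 820 := by
  refine ⟨?_, by decide +kernel⟩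
  intro p hp
  simp only [List.mem_cons, List.not_mem_nil, or_false] at hp
  rcases hp with rfl | rfl
  · exact ⟨r2r_0_ok, by decide, by decide, by decide⟩
  · exact ⟨r2r_1_ok, by decide, by decide, by decide⟩

theorem pR2Z : POk stR2Z [r2z_0, r2z_1] 6600 7000 0 820 := by
  refine ⟨?_, by decide +kernel⟩
  intro p hp
  simp only [List.mem_cons, List.not_mem_nil, or_false] at hp
  rcases hp with rfl | rfl
  · exact ⟨r2z_0_ok, by decide, by decide, by decide⟩
  · exact ⟨r2z_1_ok, by decide, by decide, by decide⟩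

theorem pR2F : POk stR2F [r2f_0, r2f_1] 6400 6600 0 820 := by
  refine ⟨?_, by decide +kernel⟩
  intro p hp
  simp only [List.mem_cons, List.not_mem_nil, or_false] at hp
  rcases hp with rfl | rfl
  · exact ⟨r2f_0_ok, by decide, by decide, by decide⟩
  · exact ⟨r2f_1_ok, by decide, by decide, by decide⟩

theorem pR2G : POk stR2G [r2g_0, r2g_1] 6400 6600 0 820 := by
  refine ⟨?_, by decide +kernel⟩
  intro p hp
  simp only [List.mem_cons, List.not_mem_nil, or_false] at hp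
  rcases hp with rfl | rfl
  · exact ⟨r2g_0_ok, by decide, by decide, by decide⟩
  · exact ⟨r2g_1_ok, by decide, by decide, by decide⟩

theorem pT3 : POk stT3 [t3n_0, t3n_1] 6000 6400 0 820 := by
  refine ⟨?_, by decide +kernel⟩
  intro p hp
  simp only [List.mem_cons, List.not_mem_nil, or_false] at hp
  rcases hp with rfl | rfl
  · exact ⟨t3n_0_ok, by decide, by decide, by decide⟩
  · exact ⟨t3n_1_ok, by decide, by decide, by decide⟩

theorem pT3Z : POk stT3Z [t3z_0, t3z_1, t3z_2, t3z_3] 6000 6400 0 820 := by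
  refine ⟨?_, by decide +kernel⟩
  intro p hp
  simp only [List.mem_cons, List.not_mem_nil, or_false] at hp
  rcases hp with rfl | rfl | rfl | rfl
  · exact ⟨t3z_0_ok, by decide, by decide, by decide⟩
  · exact ⟨t3z_1_ok, by decide, by decide, by decide⟩
  · exact ⟨t3z_2_ok, by decide, by decide, by decide⟩
  · exact ⟨t3z_3_ok, by decide, by decide, by decide⟩

theorem pT2 : POk stT2 [t2n_0, t2n_1] 6000 6400 0 820 := by
  refine ⟨?_, by decide +kernel⟩
  intro p hp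
  simp only [List.mem_cons, List.not_mem_nil, or_false] at hp
  rcases hp with rfl | rfl
  · exact ⟨t2n_0_ok, by decide, by decide, by decide⟩
  · exact ⟨t2n_1_ok, by decide, by decide, by decide⟩

theorem pT2Z : POk stT2Z [t2z_0, t2z_1] 6150 6400 0 820 := by
  refine ⟨?_, by decide +kernel⟩
  intro p hp
  simp only [List.mem_cons, List.not_mem_nil, or_false] at hp
  rcases hp with rfl | rfl
  · exact ⟨t2z_0_ok, by decide, by decide, by decide⟩
  · exact ⟨t2z_1_ok, by decide, by decide, by decide⟩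

theorem kindR3 {P Q : PC} (hc : P = .one ∨ Q = .one) :
    (stR3.kind P Q = true ∨ stR3Z.kind P Q = true) ∧
      (stT3.kind P Q = true ∨ stT3Z.kind P Q = true) := by
  cases P <;> cases Q <;> simp_all [stR3, stR3Z, stT3, stT3Z]

theorem kindR2 {P Q : PC} (hn : n33 P Q) (hc : ¬ (P = .one ∨ Q = .one)) :
    (stR2R.kind P Q = true ∧ stR2F.kind P Q = true) ∨
      (stR2Z.kind P Q = true ∧ stR2G.kind P Q = true) := by
  unfold n33 at hn
  cases P <;> cases Q <;> simp_all [stR2R, stR2Z, stR2F, stR2G]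

/-- a region with three crossings -/
def isT (P : PC) : Prop := P = .thrR ∨ P = .thrL

theorem kindT2 {P Q : PC} (hn : n33 P Q) (hc : ¬ (P = .one ∨ Q = .one)) (ht : isT P ∨ isT Q) :
    (¬ (P = .ring ∨ Q = .ring) → stT2.kind P Q = true) ∧
      (P = .ring ∨ Q = .ring → stT2Z.kind P Q = true) := by
  unfold n33 at hn
  unfold isT at ht
  cases P <;> cases Q <;> simp_all [stT2, stT2Z]

set_option deprecated.oldSectionVars false
variable {M : ℕ} {b : Fin (M + 1) → ℤ} {zs : DD (tyW b) ⊕ ZZ (tyW b) → ℂ}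
set_option deprecated.oldSectionVars false
variable {y : DD (tyW b) ⊕ ZZ (tyW b) → ℝ}
set_option deprecated.oldSectionVars false
variable {h h' h'' : Fin M} {i j k l : Fin (M + 1)} {s : Fin 3}

/-- floors of the hinges of the digits `1` -/
def FlP (b : Fin (M + 1) → ℤ) (y : DD (tyW b) ⊕ ZZ (tyW b) → ℝ) (f : PC → ℤ) : Prop :=
  ∀ {h : Fin M} {i j : Fin (M + 1)} {p : Fin 3}, Adj h i p j → clsW b i = .one →
    (f (pcOf (clsW b j) p) : ℝ) / 10000 ≤ y (.inl (.inl h))

/-- the conditions at the hinge `h` of a round with sums at most `.95` -/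
structure Ctx.RC (C : Ctx b h h' h'' i j k l s) (zs : DD (tyW b) ⊕ ZZ (tyW b) → ℂ)
    (y : DD (tyW b) ⊕ ZZ (tyW b) → ℝ) : Prop where
  hb : ClassW b
  hP : LocP b zs
  hy : Mx b zs y
  hpos : ∀ h : Fin M, 0 < y (.inl (.inl h))
  sP : y (.inl (.inl h)) + y (.inl (.inl h')) ≤ 95 / 100
  sQ : y (.inl (.inl h)) + y (.inl (.inl h'')) ≤ 95 / 100
  hT0 : 0 ≤ hT b zs i h
  mP : clsW b k = .one → y (.inl (.inl h')) ≤ y (.inl (.inl h))
  mQ : clsW b l = .one → y (.inl (.inl h'')) ≤ y (.inl (.inl h))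

theorem Ctx.r_false {C : Ctx b h h' h'' i j k l s} (R : C.RC zs y) {S : Stage}
    {f g : PC → ℤ} (hF : FlP b y f) (hS : StOk S f g) (hf : ¬ f .one < 850)
    (H : OwnOk b y S h) {L : List Piece} {a c : ℤ}
    (hL : POk S L a c 0 820) (hk : S.kind (cP b k s) (cQ b l s) = true)
    (hx0 : (a : ℝ) / 10000 ≤ y (.inl (.inl h))) (hx1 : y (.inl (.inl h)) ≤ (c : ℝ) / 10000)
    (e1 : S.slp = 0) (e2 : S.scp = 9500) (e3 : S.slq = 0) (e4 : S.scq = 9500)
    (gP : y (.inl (.inl h')) ≤ (g (cP b k s) : ℝ) / 10000)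
    (gQ : y (.inl (.inl h'')) ≤ (g (cQ b l s) : ℝ) / 10000) : False := by
  have p1 := R.hpos h
  have p2 := R.hpos h'
  have p3 := R.hpos h''
  have sP := R.sP
  have sQ := R.sQ
  refine C.stage_false' R.hb R.hP R.hy R.hpos hS H hL hk hx0 hx1 (by push_cast; linarith only [C, R, R.hT0])
    (C.hTr R.hP).2 ?_ ?_ ?_ ?_ (fun _ => R.mP) (fun _ => R.mQ) (hF C.A1 C.ci) (hF C.A2 C.cj) gP gQ
    (fun hc => absurd hc hf) (fun hc => absurd hc hf)
  · rw [e1]; push_cast; linarith only [p1, p2]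
  · rw [e2]; push_cast; linarith only [sP]
  · rw [e3]; push_cast; linarith only [p1, p3]
  · rw [e4]; push_cast; linarith only [sQ]

/-- the hinges `1|1` beyond `.64` -/
theorem Ctx.capR_false {C : Ctx b h h' h'' i j k l s} (R : C.RC zs y) (hF : FlP b y fR)
    (h70 : y (.inl (.inl h)) ≤ 70 / 100)
    (hx : (if cP b k s = .one ∨ cQ b l s = .one then 64 / 100 else 64 / 100) <
      y (.inl (.inl h))) : False := by
  obtain ⟨x1, x2, x3⟩ := C.xm
  have sP := R.sP
  have sQ := R.sQ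
  have hf : ¬ fR .one < 850 := by decide
  have hx61 : 64 / 100 < y (.inl (.inl h)) := by
    split_ifs at hx <;> linarith only [hx]
  have gP : y (.inl (.inl h')) ≤ (gR (cP b k s) : ℝ) / 10000 := by
    unfold gR; push_cast; linarith only [sP, hx61]
  have gQ : y (.inl (.inl h'')) ≤ (gR (cQ b l s) : ℝ) / 10000 := by
    unfold gR; push_cast; linarith only [sQ, hx61]
  by_cases c1 : cP b k s = .one ∨ cQ b l s = .one
  · rw [if_pos c1] at x1 hx
    rcases (kindR3 c1).1 with k3 | k3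
    · refine C.r_false R hF stR3_ok hf ⟨?_, ?_, Or.inl ⟨rfl, ?_⟩⟩ pR3 k3 ?_ ?_ rfl rfl rfl rfl gP gQ
      · rw [x1]; norm_num [stR3]
      · rw [x3]; norm_num [stR3]
      · rw [x1, x3]; linarith only [hx]
      all_goals push_cast; linarith only [hx, h70]
    · refine C.r_false R hF stR3Z_ok hf ⟨?_, ?_, Or.inl ⟨rfl, ?_⟩⟩ pR3Z k3 ?_ ?_ rfl rfl rfl rfl
        gP gQ
      · rw [x1]; norm_num [stR3Z]
      · rw [x3]; norm_num [stR3Z]
      · rw [x1, x3]; linarith only [hx]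
      all_goals push_cast; linarith only [hx, h70]
  · rw [if_neg c1] at x1 hx
    rcases kindR2 C.n33 c1 with ⟨k1, k2⟩ | ⟨k1, k2⟩
    · rcases le_or_gt (y (.inl (.inl h))) (66 / 100) with hl | hl
      · refine C.r_false R hF stR2F_ok hf ⟨?_, ?_, Or.inr ⟨rfl, ?_, ?_⟩⟩ pR2F k2 ?_ ?_ rfl rfl rfl
          rfl gP gQ
        · rw [x1]; norm_num [stR2F]
        · rw [x3]; norm_num [stR2F]
        · rw [x2]; linarith only [hx, hl]
        · rw [x1, x3]; linarith only [hl]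
        all_goals push_cast; linarith only [hx, hl]
      · refine C.r_false R hF stR2R_ok hf ⟨?_, ?_, Or.inl ⟨rfl, ?_⟩⟩ pR2R k1 ?_ ?_ rfl rfl rfl rfl
          gP gQ
        · rw [x1]; norm_num [stR2R]
        · rw [x3]; norm_num [stR2R]
        · rw [x1, x3]; linarith only [hl]
        all_goals push_cast; linarith only [hl, h70]
    · rcases le_or_gt (y (.inl (.inl h))) (66 / 100) with hl | hl
      · refine C.r_false R hF stR2G_ok hf ⟨?_, ?_, Or.inr ⟨rfl, ?_, ?_⟩⟩ pR2G k2 ?_ ?_ rfl rfl rfl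
          rfl gP gQ
        · rw [x1]; norm_num [stR2G]
        · rw [x3]; norm_num [stR2G]
        · rw [x2]; linarith only [hx, hl]
        · rw [x1, x3]; linarith only [hl]
        all_goals push_cast; linarith only [hx, hl]
      · refine C.r_false R hF stR2Z_ok hf ⟨?_, ?_, Or.inl ⟨rfl, ?_⟩⟩ pR2Z k1 ?_ ?_ rfl rfl rfl rfl
          gP gQ
        · rw [x1]; norm_num [stR2Z]
        · rw [x3]; norm_num [stR2Z]
        · rw [x1, x3]; linarith only [hl]
        all_goals push_cast; linarith only [hl, h70]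

/-- next to another digit `1`: beyond `.60` -/
theorem Ctx.capT3_false {C : Ctx b h h' h'' i j k l s} (R : C.RC zs y) (hF : FlP b y fT)
    (h61 : y (.inl (.inl h)) ≤ 64 / 100) (hx : 60 / 100 < y (.inl (.inl h)))
    (c1 : cP b k s = .one ∨ cQ b l s = .one) : False := by
  obtain ⟨x1, x2, x3⟩ := C.xm
  have sP := R.sP
  have sQ := R.sQ
  have hf : ¬ fT .one < 850 := by decide
  have gP : y (.inl (.inl h')) ≤ (gT (cP b k s) : ℝ) / 10000 := by
    unfold gT; push_cast; linarith only [hx, sP]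
  have gQ : y (.inl (.inl h'')) ≤ (gT (cQ b l s) : ℝ) / 10000 := by
    unfold gT; push_cast; linarith only [hx, sQ]
  rw [if_pos c1] at x1
  rcases (kindR3 c1).2 with k3 | k3
  · refine C.r_false R hF stT3_ok hf ⟨?_, ?_, Or.inl ⟨rfl, ?_⟩⟩ pT3 k3 ?_ ?_ rfl rfl rfl rfl gP gQ
    · rw [x1]; norm_num [stT3]
    · rw [x3]; norm_num [stT3]
    · rw [x1, x3]; linarith only [hx]
    all_goals push_cast; linarith only [hx, h61]
  · refine C.r_false R hF stT3Z_ok hf ⟨?_, ?_, Or.inl ⟨rfl, ?_⟩⟩ pT3Z k3 ?_ ?_ rfl rfl rfl rfl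
      gP gQ
    · rw [x1]; norm_num [stT3Z]
    · rw [x3]; norm_num [stT3Z]
    · rw [x1, x3]; linarith only [hx]
    all_goals push_cast; linarith only [hx, h61]

/-- next to a region with three crossings: beyond `.60`, beyond `.615` if the other outer neighbour
is a ring -/
theorem Ctx.capT2_false {C : Ctx b h h' h'' i j k l s} (R : C.RC zs y) (hF : FlP b y fT)
    (h64 : y (.inl (.inl h)) ≤ 64 / 100)
    (hx : (if cP b k s = .ring ∨ cQ b l s = .ring then 615 / 1000 else 60 / 100) <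
      y (.inl (.inl h)))
    (c1 : ¬ (cP b k s = .one ∨ cQ b l s = .one)) (c2 : isT (cP b k s) ∨ isT (cQ b l s)) :
    False := by
  obtain ⟨x1, x2, x3⟩ := C.xm
  have sP := R.sP
  have sQ := R.sQ
  have hf : ¬ fT .one < 850 := by decide
  have hx60 : 60 / 100 < y (.inl (.inl h)) := by
    split_ifs at hx <;> linarith only [hx]
  have gP : y (.inl (.inl h')) ≤ (gT (cP b k s) : ℝ) / 10000 := by
    unfold gT; push_cast; linarith only [sP, hx60]
  have gQ : y (.inl (.inl h'')) ≤ (gT (cQ b l s) : ℝ) / 10000 := by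
    unfold gT; push_cast; linarith only [sQ, hx60]
  rw [if_neg c1] at x1
  obtain ⟨k1, k2⟩ := kindT2 C.n33 c1 c2
  by_cases c3 : cP b k s = .ring ∨ cQ b l s = .ring
  · rw [if_pos c3] at hx
    refine C.r_false R hF stT2Z_ok hf ⟨?_, ?_, Or.inr ⟨rfl, ?_, ?_⟩⟩ pT2Z (k2 c3) ?_ ?_ rfl rfl rfl
      rfl gP gQ
    · rw [x1]; norm_num [stT2Z]
    · rw [x3]; norm_num [stT2Z]
    · rw [x2]; linarith only [h64, hx60]
    · rw [x1, x3]; linarith only [h64, hx60]
    all_goals push_cast; linarith only [hx, h64]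
  · refine C.r_false R hF stT2_ok hf ⟨?_, ?_, Or.inr ⟨rfl, ?_, ?_⟩⟩ pT2 (k1 c3) ?_ ?_ rfl rfl rfl
      rfl gP gQ
    · rw [x1]; norm_num [stT2]
    · rw [x3]; norm_num [stT2]
    · rw [x2]; linarith only [h64, hx60]
    · rw [x1, x3]; linarith only [h64, hx60]
    all_goals push_cast; linarith only [hx60, h64]

/-- the conditions of a round at a hinge, one of the two orientations -/
theorem Ctx.rc (C : Ctx b h h' h'' i j k l s) (hb : ClassW b) (hP : LocP b zs) (hy : Mx b zs y)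
    (hpos : ∀ h : Fin M, 0 < y (.inl (.inl h))) (hS : Sum1 b y (95 / 100))
    (mP : clsW b k = .one → y (.inl (.inl h')) ≤ y (.inl (.inl h)))
    (mQ : clsW b l = .one → y (.inl (.inl h'')) ≤ y (.inl (.inl h))) :
    C.RC zs y ∨ C.symm.RC zs y := by
  have e := C.hT_j (zs := zs) hb
  have s1 := hS C.A C.A1 C.ci
  have s2 := hS C.symm.A C.symm.A1 C.cj
  rcases le_total 0 (hT b zs i h) with hT | hT
  · exact Or.inl ⟨hb, hP, hy, hpos, s1, s2, hT, mP, mQ⟩
  · exact Or.inr ⟨hb, hP, hy, hpos, s2, s1, by rw [e]; linarith only [hT], mQ, mP⟩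

/-- the largest hinge `1|1` next to another digit `1` -/
theorem exists_max3 (C : Ctx b h h' h'' i j k l s) (hc : clsW b k = .one ∨ clsW b l = .one) :
    ∃ (h0 h1 h2 : Fin M) (i0 j0 k0 l0 : Fin (M + 1)) (s0 : Fin 3),
      Ctx b h0 h1 h2 i0 j0 k0 l0 s0 ∧ (clsW b k0 = .one ∨ clsW b l0 = .one) ∧
      y (.inl (.inl h)) ≤ y (.inl (.inl h0)) ∧
      (∀ {g g' g'' : Fin M} {i' j' k' l' : Fin (M + 1)} {s' : Fin 3},
        Ctx b g g' g'' i' j' k' l' s' → (clsW b k' = .one ∨ clsW b l' = .one) →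
        y (.inl (.inl g)) ≤ y (.inl (.inl h0))) := by
  classical
  let Bad : Fin M → Prop := fun h => ∃ (h1 h2 : Fin M) (i0 j0 k0 l0 : Fin (M + 1)) (s0 : Fin 3),
    Ctx b h h1 h2 i0 j0 k0 l0 s0 ∧ (clsW b k0 = .one ∨ clsW b l0 = .one)
  obtain ⟨h0, hm, hmax⟩ := (Finset.univ.filter Bad).exists_max_image
    (fun h => y (.inl (.inl h))) ⟨h, by
      rw [Finset.mem_filter]; exact ⟨Finset.mem_univ _, h', h'', i, j, k, l, s, C, hc⟩⟩
  rw [Finset.mem_filter] at hm
  obtain ⟨h1, h2, i0, j0, k0, l0, s0, C0, hc0⟩ := hm.2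
  refine ⟨h0, h1, h2, i0, j0, k0, l0, s0, C0, hc0, hmax h ?_, fun C' hc' => hmax _ ?_⟩
  · rw [Finset.mem_filter]; exact ⟨Finset.mem_univ _, h', h'', i, j, k, l, s, C, hc⟩
  · rw [Finset.mem_filter]; exact ⟨Finset.mem_univ _, _, _, _, _, _, _, _, C', hc'⟩

/-- an outer hinge which is itself between two digits `1` -/
theorem Ctx.outer (C : Ctx b h h' h'' i j k l s) (zs : DD (tyW b) ⊕ ZZ (tyW b) → ℂ)
    (y : DD (tyW b) ⊕ ZZ (tyW b) → ℝ) (hb : ClassW b) (hk : clsW b k = .one) :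
    ∃ h3 m, Ctx b h' h h3 i k j m s.rev := by
  have e2 := clsW_inner hb (Or.inl hk)
  rcases C.A1.symm.other b zs y with ⟨f1, -⟩ | ⟨-, h3, m, B3⟩
  · rw [f1] at e2
    exact absurd e2 (by decide)
  rw [Fin.rev_rev] at B3
  exact ⟨h3, m, C.A1, by rw [Fin.rev_rev]; exact C.A, B3, C.ci, hk⟩

theorem Ctx.rc3 (C : Ctx b h h' h'' i j k l s) (hb : ClassW b) (hP : LocP b zs) (hy : Mx b zs y)
    (hpos : ∀ h : Fin M, 0 < y (.inl (.inl h))) (hS : Sum1 b y (95 / 100))
    (hmax : ∀ {g g' g'' : Fin M} {i' j' k' l' : Fin (M + 1)} {s' : Fin 3},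
        Ctx b g g' g'' i' j' k' l' s' → (clsW b k' = .one ∨ clsW b l' = .one) →
        y (.inl (.inl g)) ≤ y (.inl (.inl h))) : C.RC zs y ∨ C.symm.RC zs y := by
  refine C.rc hb hP hy hpos hS (fun hk => ?_) (fun hl => ?_)
  · obtain ⟨h3, m, C'⟩ := C.outer zs y hb hk
    exact hmax C' (Or.inl C.cj)
  · obtain ⟨h3, m, C'⟩ := C.symm.outer zs y hb hl
    exact hmax C' (Or.inl C.ci)

theorem Ctx.rc2 (C : Ctx b h h' h'' i j k l s) (hb : ClassW b) (hP : LocP b zs) (hy : Mx b zs y)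
    (hpos : ∀ h : Fin M, 0 < y (.inl (.inl h))) (hS : Sum1 b y (95 / 100))
    (hc : ¬ (clsW b k = .one ∨ clsW b l = .one)) : C.RC zs y ∨ C.symm.RC zs y :=
  C.rc hb hP hy hpos hS (fun hk => absurd (Or.inl hk) hc) (fun hl => absurd (Or.inr hl) hc)

/-- **Round R1.3: the hinges `1|1` are at most `.64`.** -/
theorem capR (hb : ClassW b) (hP : LocP b zs) (hF : FlP b y fR) (hy : Mx b zs y)
    (hpos : ∀ h : Fin M, 0 < y (.inl (.inl h))) (hS : Sum1 b y (95 / 100))
    (h70 : ∀ {h : Fin M} {i j : Fin (M + 1)} {p : Fin 3}, Adj h i p j → clsW b i = .one →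
      clsW b j = .one → y (.inl (.inl h)) ≤ 70 / 100)
    (C : Ctx b h h' h'' i j k l s) : y (.inl (.inl h)) ≤ 64 / 100 ∧
      (clsW b k = .one ∨ clsW b l = .one → y (.inl (.inl h)) ≤ 64 / 100) := by
  have key : clsW b k = .one ∨ clsW b l = .one → y (.inl (.inl h)) ≤ 64 / 100 := by
    intro hc
    obtain ⟨h0, h1, h2, i0, j0, k0, l0, s0, C0, hc0, hle, hmax⟩ := exists_max3 (y := y) C hc
    by_contra hcon
    push Not at hcon
    have hx := hcon.trans_le hle
    have h7 := h70 C0.A C0.ci C0.cj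
    have hc1 : cP b k0 s0 = .one ∨ cQ b l0 s0 = .one := by
      unfold cP cQ
      simpa only [pcOf_one] using hc0
    rcases C0.rc3 hb hP hy hpos hS hmax with R | R
    · refine C0.capR_false R hF h7 ?_
      rw [if_pos hc1]
      exact hx
    · refine C0.symm.capR_false R hF h7 ?_
      rw [cP_rev, cQ_rev, if_pos hc1.symm]
      exact hx
  refine ⟨?_, key⟩
  by_cases hc : clsW b k = .one ∨ clsW b l = .one
  · linarith only [key, hc, key hc]
  · by_contra hcon
    push Not at hcon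
    have h7 := h70 C.A C.ci C.cj
    have hc1 : ¬ (cP b k s = .one ∨ cQ b l s = .one) := by
      unfold cP cQ
      simpa only [pcOf_one] using hc
    rcases C.rc2 hb hP hy hpos hS hc with R | R
    · refine C.capR_false R hF h7 ?_
      rw [if_neg hc1]
      exact hcon
    · refine C.symm.capR_false R hF h7 ?_
      rw [cP_rev, cQ_rev, if_neg (fun h => hc1 h.symm)]
      exact hcon

/-- **Round R2: the hinges `1|1` are at most `.60` next to another digit `1`; next to a region with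
three crossings they are at most `.60`, `.615` if the other outer neighbour is a ring.** -/
theorem capT (hb : ClassW b) (hP : LocP b zs) (hF : FlP b y fT) (hy : Mx b zs y)
    (hpos : ∀ h : Fin M, 0 < y (.inl (.inl h))) (hS : Sum1 b y (95 / 100))
    (h64 : ∀ {h h' h'' : Fin M} {i j k l : Fin (M + 1)} {s : Fin 3},
      Ctx b h h' h'' i j k l s → y (.inl (.inl h)) ≤ 64 / 100 ∧
      (clsW b k = .one ∨ clsW b l = .one → y (.inl (.inl h)) ≤ 64 / 100))
    (C : Ctx b h h' h'' i j k l s) :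
    (clsW b k = .one ∨ clsW b l = .one → y (.inl (.inl h)) ≤ 60 / 100) ∧
      (clsW b k = .three ∨ clsW b l = .three → y (.inl (.inl h)) ≤ 615 / 1000 ∧
        (clsW b k ≠ .ring → clsW b l ≠ .ring → y (.inl (.inl h)) ≤ 60 / 100)) := by
  have key : clsW b k = .one ∨ clsW b l = .one → y (.inl (.inl h)) ≤ 60 / 100 := by
    intro hc
    obtain ⟨h0, h1, h2, i0, j0, k0, l0, s0, C0, hc0, hle, hmax⟩ := exists_max3 (y := y) C hc
    by_contra hcon
    push Not at hcon
    have hx := hcon.trans_le hle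
    have h7 := (h64 C0).2 hc0
    have hc1 : cP b k0 s0 = .one ∨ cQ b l0 s0 = .one := by
      unfold cP cQ
      simpa only [pcOf_one] using hc0
    rcases C0.rc3 hb hP hy hpos hS hmax with R | R
    · exact C0.capT3_false R hF h7 hx hc1
    · exact C0.symm.capT3_false R hF h7 hx (by rw [cP_rev, cQ_rev]; exact hc1.symm)
  refine ⟨key, fun h3 => ?_⟩
  by_cases hc : clsW b k = .one ∨ clsW b l = .one
  · have := key hc
    exact ⟨by linarith only [this], fun _ _ => this⟩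
  have hc1 : ¬ (cP b k s = .one ∨ cQ b l s = .one) := by
    unfold cP cQ
    simpa only [pcOf_one] using hc
  have h3' : isT (cP b k s) ∨ isT (cQ b l s) := by
    unfold isT cP cQ
    rcases C.A.slot with rfl | rfl <;> rcases h3 with h3 | h3 <;> simp [h3, pcOf]
  have h6 := (h64 C).1
  have hring : ∀ {c : Cl} {t : Fin 3}, pcOf c t = .ring → c = .ring := by
    intro c t
    cases c <;> simp [pcOf]
    split_ifs <;> simp
  have main : ¬ ((if cP b k s = .ring ∨ cQ b l s = .ring then (615 / 1000 : ℝ) else 60 / 100) <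
      y (.inl (.inl h))) := by
    intro hx
    rcases C.rc2 hb hP hy hpos hS hc with R | R
    · exact C.capT2_false R hF h6 hx hc1 h3'
    · refine C.symm.capT2_false R hF h6 ?_ ?_ ?_
      · have e : (if cQ b l s = .ring ∨ cP b k s = .ring then (615 / 1000 : ℝ) else 60 / 100) =
            (if cP b k s = .ring ∨ cQ b l s = .ring then 615 / 1000 else 60 / 100) :=
          if_congr or_comm rfl rfl
        rw [cP_rev, cQ_rev, e]
        exact hx
      · rw [cP_rev, cQ_rev]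
        exact fun h => hc1 h.symm
      · rw [cP_rev, cQ_rev]
        exact h3'.symm
  push Not at main
  refine ⟨?_, fun n1 n2 => ?_⟩
  · split_ifs at main <;> linarith only [main]
  · rw [if_neg] at main
    · exact main
    · rintro (e | e)
      · exact n1 (hring e)
      · exact n2 (hring e)

end OR

end Pool.Agent.Work.MP_b30479_gtS.G2

end

section

/-!
# Caps of the hinges `1 | 1` in the rounds with the floors `F1` and `F2`
-/

namespace Pool.Agent.Work.MP_b30479_gtS.G2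

open Finset VOL Filter Topology SR

namespace OR

variable {M : ℕ} {b : Fin (M + 1) → ℤ} {zs : DD (tyW b) ⊕ ZZ (tyW b) → ℂ}
variable {y : DD (tyW b) ⊕ ZZ (tyW b) → ℝ}
variable {h h' h'' : Fin M} {i j k l : Fin (M + 1)} {s : Fin 3}

theorem FlP.of1 (hF : Flr b y F1) : FlP b y fR := by
  intro h i j p A ci
  have h1 := hF A
  rw [ci] at h1
  refine le_trans ?_ h1
  rcases A.slot with rfl | rfl <;> generalize clsW b j = B <;> cases B <;>
    simp [F1, fR, pcOf] <;> norm_num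

theorem FlP.of2 (hF : Flr b y F2) : FlP b y fT := by
  intro h i j p A ci
  have h1 := hF A
  rw [ci] at h1
  refine le_trans ?_ h1
  rcases A.slot with rfl | rfl <;> generalize clsW b j = B <;> cases B <;>
    simp [F2, fT, pcOf] <;> norm_num

/-- **Round `R1.3`: the hinge `1 | 1` is at most `.64`.** -/
theorem cap11R (hb : ClassW b) (hP : LocP b zs) (hF : Flr b y F1) (hy : Mx b zs y)
    (hpos : ∀ h : Fin M, 0 < y (.inl (.inl h))) (hS : Sum1 b y (95 / 100))
    (h70 : ∀ {h : Fin M} {i j : Fin (M + 1)} {p : Fin 3}, Adj h i p j → clsW b i = .one →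
      clsW b j = .one → y (.inl (.inl h)) ≤ 70 / 100)
    (A : Adj h i s j) (A1 : Adj h' i s.rev k) (A2 : Adj h'' j s l) (ci : clsW b i = .one)
    (cj : clsW b j = .one) : y (.inl (.inl h)) ≤ 64 / 100 ∧
      (clsW b k = .one ∨ clsW b l = .one → y (.inl (.inl h)) ≤ 64 / 100) :=
  capR hb hP (FlP.of1 hF) hy hpos hS h70 ⟨A, A1, A2, ci, cj⟩

/-- **Round `R2`: the hinge `1 | 1` is at most `.60` next to another `1`; it is at most `.615`
next to a `3`, and at most `.60` if moreover the other outer neighbour is not a ring.** -/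
theorem cap11T (hb : ClassW b) (hP : LocP b zs) (hF : Flr b y F2) (hy : Mx b zs y)
    (hpos : ∀ h : Fin M, 0 < y (.inl (.inl h))) (hS : Sum1 b y (95 / 100))
    (h64 : ∀ {h h' h'' : Fin M} {i j k l : Fin (M + 1)} {s : Fin 3}, Adj h i s j →
      Adj h' i s.rev k → Adj h'' j s l → clsW b i = .one → clsW b j = .one →
      y (.inl (.inl h)) ≤ 64 / 100 ∧
      (clsW b k = .one ∨ clsW b l = .one → y (.inl (.inl h)) ≤ 64 / 100))
    (A : Adj h i s j) (A1 : Adj h' i s.rev k) (A2 : Adj h'' j s l) (ci : clsW b i = .one)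
    (cj : clsW b j = .one) :
    (clsW b k = .one ∨ clsW b l = .one → y (.inl (.inl h)) ≤ 60 / 100) ∧
      (clsW b k = .three ∨ clsW b l = .three → y (.inl (.inl h)) ≤ 615 / 1000 ∧
        (clsW b k ≠ .ring → clsW b l ≠ .ring → y (.inl (.inl h)) ≤ 60 / 100)) :=
  capT hb hP (FlP.of2 hF) hy hpos hS (fun C => h64 C.A C.A1 C.A2 C.ci C.cj) ⟨A, A1, A2, ci, cj⟩

end OR

end Pool.Agent.Work.MP_b30479_gtS.G2

end
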