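import Pool.Agent.Work.MP_b30479_gt.TBS.G2.RngC
import Pool.Agent.Work.MP_b30479_gt.TBS.G2.RLevT
import Pool.Agent.Work.MP_b30479_gt.TBS.G2.ML3q_1
import Pool.Agent.Work.MP_b30479_gt.TBS.G2.WExcZ

section

/-!
# Part of `RC3e`
-/
set_option linter.unusedSimpArgs false

namespace Pool.Agent.Work.MP_b30479_gtS.G2

open VOL NumIs

namespace RC3e

section
variable {x m σ s η : ℝ}

theorem num_ramp2 (h1 : 32 / 100 ≤ x) (h1' : x ≤ 60 / 100) (h2 : 0 ≤ m) (h2' : m ≤ 171 / 1000)
    (h3 : 0 ≤ s) (h3' : s ≤ 1 / 4) (h4 : 0 ≤ η) (h4' : η ≤ 418 / 1000 * s) :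
    lnA (x + s) (-(m * (60 / 100 - x)) + η) + lnA (x - s) (-(m * (60 / 100 - x)) - η) -
      2 * lnA x (-(m * (60 / 100 - x))) + m * (2 * lnB x (-(m * (60 / 100 - x))) -
        lnB (x + s) (-(m * (60 / 100 - x)) + η) - lnB (x - s) (-(m * (60 / 100 - x)) - η)) ≤
      4 / 100 := by
  have g : chk [rR, cR] 40 [V.of 10000 3200 6000, V.of 10000 0 1710, V.of 10000 0 2500,
    V.of 10000 0 1045] = true := num_ramp2_h1
  obtain ⟨f, hf, h⟩ := chk4 g (by norm_num) (x := x) (y := m) (z := s) (w := η)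
    (le_trans (by norm_num) h1) (le_trans h1' (by norm_num)) (le_trans (by norm_num) h2)
    (le_trans h2' (by norm_num)) (le_trans (by norm_num) h3) (le_trans h3' (by norm_num))
    (le_trans (by norm_num) h4) (by norm_num; linarith only [h3', h4'])
  simp only [List.mem_cons, List.not_mem_nil, or_false] at hf
  rcases hf with rfl | rfl
  · simp only [rR, tE, E.val, lkR_zero, lkR_one, lkR_succ] at h
    simp only [Int.cast_ofNat, Nat.cast_ofNat, Int.cast_one, Nat.cast_one, div_one] at h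
    rw [show (60 : ℝ) / 100 = 6 / 10 by norm_num]
    linarith only [h]
  · simp only [cR, E.val, lkR_zero, lkR_one, lkR_succ] at h
    push_cast at h
    linarith only [h4', h]

end

end RC3e

end Pool.Agent.Work.MP_b30479_gtS.G2

end

section

/-!
# The hinge `3e | Z` on its right ramp, ring side

Path of the hinge: `w = x - i m (60/100 - x)`, `0 ≤ m ≤ 171/1000`; path of the ring variable:
`ζ = LT.zt ρ σ`, `-1/2 < σ ≤ 0`, `0 < ρ ≤ 1045/10000`.

* `rc1`: `26/100 ≤ x ≤ 28/100`: `S4 m w ζ ≤ 10/100`;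
* `rc1'`: `28/100 ≤ x ≤ 1/2`: `S4 m w ζ < 0`;
* `rc2`: `32/100 ≤ x ≤ 60/100`: `S4 m w ζ + π m ≤ 4/100`.
-/

set_option linter.unusedSimpArgs false

namespace Pool.Agent.Work.MP_b30479_gtS.G2

open VOL NumIs

namespace RC3e

/-! ### values at the two points of the ring -/

/-! ### numbers -/

/-! ### the rows -/

variable {w : ℂ} {m ρ σ : ℝ}

/-- on `[26/100, 28/100]` -/
theorem rc1 (hm : 0 ≤ m) (hm' : m ≤ 171 / 1000) (hw : w.im = -(m * (60 / 100 - w.re)))
    (hx : 26 / 100 ≤ w.re) (hx' : w.re ≤ 28 / 100) (hρ : 0 < ρ) (hρ' : ρ ≤ 1045 / 10000)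
    (hσ : -(1 / 2) < σ) (hσ' : σ ≤ 0) : S4 m w (LT.zt ρ σ) ≤ 10 / 100 := by
  have hp := Real.pi_pos
  have ht : w.im ≤ 0 := by
    rw [hw]
    have := mul_nonneg hm (show 0 ≤ 60 / 100 - w.re by linarith only [hx', hρ, hρ'])
    linarith only [this]
  have hC : 0 < Real.cosh (2 * Real.pi * w.im) - Real.cos (2 * Real.pi * w.re) := by
    have h1 := Real.one_le_cosh (2 * Real.pi * w.im)
    have h2 : Real.cos (2 * Real.pi * w.re) ≤ 0 := by
      apply Real.cos_nonpos_of_pi_div_two_le_of_le <;> nlinarith only [hp, hx, hx']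
    linarith only [hρ, hρ', h1, h2]
  have hth := th_pos (c := σ) (by rw [abs_lt]; constructor <;> linarith only [hσ, hρ, hρ', hσ'])
  have a2 := YY_hinge_nonpos (x := w.re) (t := w.im) (σ := σ) (η := ρ * LT.th σ) (by linarith only [hx, hρ, hρ'])
    (by linarith only [hx', hρ, hρ']) ht hσ' hσ.le (mul_pos hρ hth).le (re_im_eq w) (zt_eq ρ σ)
  have a3 := mul_nonpos_of_nonneg_of_nonpos hm a2
  suffices h : LL (w + 1 / 2 + LT.zt ρ σ) + LL (w + 1 / 2 - LT.zt ρ σ) - 2 * LL w ≤ 10 / 100 by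
    unfold S4
    linarith only [a3, h]
  rcases le_total σ (-(1 / 4)) with h | h
  · have hη : 0 < 4 * ρ * (σ + 1 / 2) := by
      have : 0 < σ + 1 / 2 := by linarith only [hσ]
      positivity
    refine LL_part_le (zt_im_ramp hσ h) (K := Real.exp (2 / 10)) (Real.exp_pos _)
      (by rw [Real.log_exp]; norm_num) ?_ ?_ hC ?_
    · have h1 := Real.one_le_cosh (2 * Real.pi * (w.im + 4 * ρ * (σ + 1 / 2)))
      have h2 : 0 < Real.cos (2 * Real.pi * (w.re + σ)) := by
        apply Real.cos_pos_of_mem_Ioo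
        constructor <;> nlinarith only [hx, hp, hρ, hρ', hσ, hx', h]
      linarith only [hρ, hρ', h1, h2]
    · have h1 : 1 < Real.cosh (2 * Real.pi * (w.im - 4 * ρ * (σ + 1 / 2))) := by
        rw [Real.one_lt_cosh]
        apply mul_ne_zero (by positivity)
        linarith only [ht, hη]
      have h2 := Real.neg_one_le_cos (2 * Real.pi * (w.re - σ))
      linarith only [h1, h2]
    · have key := num_ramp (x := w.re) (m := m) (s := σ + 1 / 2) (η := 4 * ρ * (σ + 1 / 2)) hx hx'
        hm hm' (by linarith only [hσ]) (by linarith only [h]) hη.le (by nlinarith only [hρ', hσ])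
      rw [← hw] at key
      have e1 : Real.cos (2 * Real.pi * (w.re + (σ + 1 / 2))) =
          -Real.cos (2 * Real.pi * (w.re + σ)) := by
        rw [show 2 * Real.pi * (w.re + (σ + 1 / 2)) = 2 * Real.pi * (w.re + σ) + Real.pi by ring,
          Real.cos_add_pi]
      have e2 : Real.cos (2 * Real.pi * (w.re - (σ + 1 / 2))) =
          -Real.cos (2 * Real.pi * (w.re - σ)) := by
        rw [show 2 * Real.pi * (w.re - (σ + 1 / 2)) = 2 * Real.pi * (w.re - σ) - Real.pi by ring,
          Real.cos_sub_pi]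
      rw [e1, e2, sub_neg_eq_add, sub_neg_eq_add] at key
      exact key
  · refine LL_part_le (zt_im_flat h hσ') (K := Real.exp (2 / 10)) (Real.exp_pos _)
      (by rw [Real.log_exp]; norm_num) ?_ ?_ hC ?_
    · have h1 := Real.one_le_cosh (2 * Real.pi * (w.im + ρ))
      have h2 : -1 < Real.cos (2 * Real.pi * (w.re + σ)) := by
        rw [← Real.cos_pi]
        apply Real.cos_lt_cos_of_nonneg_of_le_pi <;> nlinarith only [hx, hp, hρ, hρ', hσ, h, hx', hσ']
      linarith only [h1, h2]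
    · have h1 : 1 < Real.cosh (2 * Real.pi * (w.im - ρ)) := by
        rw [Real.one_lt_cosh]
        apply mul_ne_zero (by positivity)
        linarith only [hρ, ht]
      have h2 := Real.neg_one_le_cos (2 * Real.pi * (w.re - σ))
      linarith only [h1, h2]
    · have key := num_flat (x := w.re) (m := m) (σ := σ) (η := ρ) hx hx'
        hm hm' h hσ' hρ.le hρ'
      rw [← hw] at key
      exact key

/-- on `[32/100, 60/100]`, shift `π` -/
theorem rc2 (hm : 0 ≤ m) (hm' : m ≤ 171 / 1000) (hw : w.im = -(m * (60 / 100 - w.re)))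
    (hx : 32 / 100 ≤ w.re) (hx' : w.re ≤ 60 / 100) (hρ : 0 < ρ) (hρ' : ρ ≤ 1045 / 10000)
    (hσ : -(1 / 2) < σ) (hσ' : σ ≤ 0) : S4 m w (LT.zt ρ σ) + Real.pi * m ≤ 4 / 100 := by
  have hp := Real.pi_pos
  have ht0 := mul_nonneg hm (show 0 ≤ 60 / 100 - w.re by linarith only [hx'])
  have ht1 : m * (60 / 100 - w.re) ≤ 171 / 1000 * (28 / 100) :=
    mul_le_mul hm' (by linarith only [hx]) (by linarith only [hx']) (by norm_num)
  have ht : w.im ≤ 0 := by
    rw [hw]
    linarith only [ht0]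
  have hws : w ∈ strip := ⟨by linarith only [hx, hρ, hρ'], by linarith only [hx', hρ, hρ']⟩
  have w1 := Num.LL_lnA hws
  have w2 := Num.YY_lnB hws
  rw [hw] at w1 w2
  rcases le_total σ (-(1 / 4)) with h | h
  · have hη : 0 < 4 * ρ * (σ + 1 / 2) := by
      have : 0 < σ + 1 / 2 := by linarith only [hσ]
      positivity
    have hz := zt_im_ramp (ρ := ρ) hσ h
    set ζ := LT.zt ρ σ
    set η := 4 * ρ * (σ + 1 / 2) with hη'
    set s := σ + 1 / 2 with hs
    have key := num_ramp2 (x := w.re) (m := m) (s := s) (η := η) hx hx'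
        hm hm' (by linarith only [hσ, hs]) (by linarith only [h, hs]) hη.le (by nlinarith only [hs, hρ, hρ', hσ])
    have ur := u_re (w := w) hz
    have ui := u_im (w := w) hz
    have vr := v_re (w := w) hz
    have vi := v_im (w := w) hz
    have us : w + 1 / 2 + ζ ∈ strip := ⟨by rw [ur]; linarith only [hx, hρ, hρ', hσ], by rw [ur]; linarith only [hx', hρ, hρ', h]⟩
    have vr1 : (w + 1 / 2 - ζ - 1).re = w.re - s := by
      rw [Complex.sub_re, vr, Complex.one_re, hs]
      ring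
    have vi1 : (w + 1 / 2 - ζ - 1).im = w.im - η := by
      rw [Complex.sub_im, vi, Complex.one_im]
      ring
    have vs : w + 1 / 2 - ζ - 1 ∈ strip := ⟨by rw [vr1]; linarith only [hx, hρ, hρ', h, hs], by rw [vr1]; linarith only [hx', hρ, hρ', hσ, hs]⟩
    have e1 := Num.LL_lnA us
    have e2 := Num.YY_lnB us
    have e3 := Num.LL_lnA vs
    have e4 := Num.YY_lnB vs
    have e5 := LL_add_one (w + 1 / 2 - ζ - 1)
    have e6 := YY_add_one (w + 1 / 2 - ζ - 1)
    rw [sub_add_cancel] at e5 e6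
    rw [vi1, if_neg (by linarith only [hw, ht0, hη]), if_pos (by linarith only [hw, ht0, hη])] at e6
    rw [ur, ui, hw, show w.re + 1 / 2 + σ = w.re + s by rw [hs]; ring] at e1 e2
    rw [vr1, vi1, hw] at e3 e4
    unfold S4
    rw [e5, e6, e1, e2, e3, e4, w1, w2]
    linarith only [key]
  · have hz := zt_im_flat (ρ := ρ) h hσ'
    set ζ := LT.zt ρ σ
    have ur := u_re (w := w) hz
    have ui := u_im (w := w) hz
    have vr := v_re (w := w) hz
    have vi := v_im (w := w) hz
    have vi0 : (w + 1 / 2 - ζ).im < 0 := by rw [vi]; linarith only [hw, hρ, ht0]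
    have va : 1 - (w + 1 / 2 - ζ).re = 1 / 2 - w.re + σ := by rw [vr]; ring
    have vt : -(w + 1 / 2 - ζ).im = ρ - -(m * (60 / 100 - w.re)) := by rw [vi, hw]; ring
    have k1 := (LL_sq (w + 1 / 2 - ζ)).le
    have k2 := LL_le_lin vi0
    have k3 := (YY_right (v := w + 1 / 2 - ζ) (by rw [vr]; linarith only [hx, hρ, hρ', hσ']) (by rw [vr]; linarith only [hx', hρ, hρ', h]) vi0).le
    have k4 := YY_nonpos (v := w + 1 / 2 - ζ) (by rw [vr]; linarith only [hx, hρ, hρ', hσ']) vi0
    rw [va, vt] at k1 k2 k3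
    have k3' : YY (w + 1 / 2 - ζ) ≤ Ya (1 / 2 - w.re + σ) (ρ - -(m * (60 / 100 - w.re))) := by
      unfold Ya
      linarith only [k3]
    have k5 : 1 / 2 - w.re + σ ≤ 0 → YY (w + 1 / 2 - ζ) ≤ -(1 / 2 * Real.pi) := by
      intro h1
      have h2 : Real.sin (Real.pi * (1 / 2 - w.re + σ)) ≤ 0 := by
        apply Real.sin_nonpos_of_nonpos_of_neg_pi_le <;> nlinarith only [hρ, hρ', hp, h1, hx', hσ]
      have h3 : 0 < Real.cos (Real.pi * (1 / 2 - w.re + σ)) := by
        apply Real.cos_pos_of_mem_Ioo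
        constructor <;> nlinarith only [hx', hp, hρ, hρ', h, hx, hσ']
      have h4 : 0 < Real.sinh (Real.pi * (ρ - -(m * (60 / 100 - w.re)))) := by
        rw [Real.sinh_pos_iff]
        apply mul_pos hp
        linarith only [hρ, ht0]
      have h5 := Real.cosh_pos (Real.pi * (ρ - -(m * (60 / 100 - w.re))))
      have h6 : Real.sin (Real.pi * (1 / 2 - w.re + σ)) *
          Real.cosh (Real.pi * (ρ - -(m * (60 / 100 - w.re)))) *
          (Real.cos (Real.pi * (1 / 2 - w.re + σ)) *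
            Real.sinh (Real.pi * (ρ - -(m * (60 / 100 - w.re)))))⁻¹ ≤ 0 :=
        mul_nonpos_of_nonpos_of_nonneg (mul_nonpos_of_nonpos_of_nonneg h2 h5.le) (by positivity)
      have h7 := Real.arctan_strictMono.monotone h6
      rw [Real.arctan_zero] at h7
      linarith only [k3, h7]
    rcases le_total (w.re + σ) (4 / 10) with c | c
    · have us : w + 1 / 2 + ζ ∈ strip := ⟨by rw [ur]; linarith only [hx, hρ, hρ', h], by rw [ur]; linarith only [hρ, hρ', c]⟩
      have e1 := Num.LL_lnA us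
      have e2 := Num.YY_lnB us
      rw [ur, ui, hw] at e1 e2
      unfold S4
      rw [e1, e2, w1, w2]
      rcases le_total 0 (1 / 2 - w.re + σ) with d | d
      · have key := num_F1a (x := w.re) (m := m) (σ := σ) (η := ρ) hx hm hm' hσ' hρ.le hρ' c d
          k1 k2 k3' k4
        linarith only [key]
      · have key := num_F1b (x := w.re) (m := m) (σ := σ) (η := ρ) hx hx' hm hm' h hσ' hρ.le hρ' c d
          k1 k2 k3' (k5 d)
        linarith only [key]
    · have lu := MR.LL_rect kr_10_11 le_rfl (by norm_num) (u := w + 1 / 2 + ζ)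
        (by rw [ur, abs_le]; constructor <;> linarith only [c, hx', hσ'])
        (by rw [ui, abs_le, hw]; constructor <;> linarith only [hρ, hρ', ht1, ht0])
      unfold S4
      rw [w1, w2]
      rcases le_total (w.re + σ) (5 / 10) with c' | c'
      · have yu := (abs_le.1 (MR.YY_abs_le (u := w + 1 / 2 + ζ) (by rw [ur]; linarith only [hρ, hρ', c])
          (by rw [ur]; linarith only [c']))).2
        have yu' := mul_le_mul_of_nonneg_left yu hm
        rcases le_total 0 (1 / 2 - w.re + σ) with d | d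
        · have key := num_F2a (x := w.re) (m := m) (σ := σ) (η := ρ) hm hm' hσ' hρ.le hρ' c d
            k1 k2 k3' k4
          linarith only [lu, yu', key]
        · have key := num_F2b (x := w.re) (m := m) (σ := σ) (η := ρ) hx' hm hm' hσ' hρ.le hρ' c d c'
            k1 k2 k3' (k5 d)
          linarith only [lu, yu', key]
      · have yu := (abs_le.1 (MR.YY_abs_pi (u := w + 1 / 2 + ζ) (by rw [ur]; linarith only [hρ, hρ', c'])
          (by rw [ur]; linarith only [hx', hρ, hρ', hσ']))).2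
        have yu' := mul_le_mul_of_nonneg_left yu hm
        have key := num_F3 (x := w.re) (m := m) (σ := σ) (η := ρ) hx' hm hm' hσ' hρ.le hρ' c'
          k1 k2 k3' (k5 (by linarith only [hσ', c']))
        linarith only [lu, yu', key]

end RC3e

end Pool.Agent.Work.MP_b30479_gtS.G2

end

section

/-!
# Part of `RC3e`
-/
set_option linter.unusedSimpArgs false

namespace Pool.Agent.Work.MP_b30479_gtS.G2

open VOL NumIs

namespace RC3e

variable {w : ℂ} {m ρ σ : ℝ}

/-- on `[28/100, 1/2]` -/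
theorem rc1' (hm : 0 ≤ m) (hm' : m ≤ 171 / 1000) (hw : w.im = -(m * (60 / 100 - w.re)))
    (hx : 28 / 100 ≤ w.re) (hx' : w.re ≤ 1 / 2) (hρ : 0 < ρ) (hρ' : ρ ≤ 1045 / 10000)
    (hσ : -(1 / 2) < σ) (hσ' : σ ≤ 0) : S4 m w (LT.zt ρ σ) < 0 := by
  have ht0 := mul_nonneg hm (show 0 ≤ 60 / 100 - w.re by linarith only [hx', hρ, hρ'])
  have ht : w.im ≤ 0 := by
    rw [hw]
    linarith only [ht0]
  have hs : |σ| < 1 / 2 := by
    rw [abs_lt]
    constructor <;> linarith only [hσ, hρ, hρ', hσ']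
  have a1 := LL_neg_rr (w := w) (by linarith only [hx, hρ, hρ']) (by linarith only [hx', hρ, hρ']) hρ hρ' (by
    rw [abs_of_nonpos ht, hw]
    have : m * (60 / 100 - w.re) ≤ 171 / 1000 * (32 / 100) :=
      mul_le_mul hm' (by linarith only [hx]) (by linarith only [hx', hρ, hρ']) (by norm_num)
    linarith only [hρ, hρ', this]) hs
  have a2 := YY_hinge_nonpos (x := w.re) (t := w.im) (σ := σ) (η := ρ * LT.th σ) (by linarith only [hx, hρ, hρ'])
    hx' ht hσ' hσ.le (mul_pos hρ (th_pos hs)).le (re_im_eq w) (zt_eq ρ σ)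
  have a3 := mul_nonpos_of_nonneg_of_nonpos hm a2
  unfold S4
  linarith only [a1, a3]

end RC3e

end Pool.Agent.Work.MP_b30479_gtS.G2

end

section

/-!
# Cap of the hinges between an end with three crossings and a ring
-/

namespace Pool.Agent.Work.MP_b30479_gtS.G2

open Finset VOL Filter Topology

namespace SR

variable {M : ℕ} {b : Fin (M + 1) → ℤ} {zs : DD (tyW b) ⊕ ZZ (tyW b) → ℂ}
variable {y : DD (tyW b) ⊕ ZZ (tyW b) → ℝ}
variable {h h' : Fin M} {i j j' : Fin (M + 1)} {p : Fin 3}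

/-- the side of a ring next to an end with three crossings on the right ramp -/
theorem ring_3e_side (hb : ClassW b) (hL : Loc b zs) (hX : LocX b zs) (hR : LocR b zs)
    (hy : Mx b zs y) (hσ : ∀ v : ZZ (tyW b), ofs (b v.1) (y (.inr v)) ≤ 0) (A : Adj h i p j)
    (hi : clsW b i = .ring) (hj : clsW b j = .threeE)
    (hcon : 26 / 100 < y (.inl (.inl h))) :
    (y (.inl (.inl h)) ≤ 32 / 100 → Sw b zs y i p (slL b zs y h) ≤ 10 / 100) ∧
    (32 / 100 ≤ y (.inl (.inl h)) → Sw b zs y i p (slL b zs y h) +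
      Real.pi * ofs (b i) (slL b zs y h) ≤ 4 / 100) := by
  obtain ⟨e1, e2⟩ := A.symm.XM3 hj
  rw [hi] at e2
  simp only [cr3] at e2
  obtain ⟨v, hv, c1, -, z1⟩ := A.ring hb hL hy hi
  have hσv := hσ v
  have hhalf := ring_lt_half hb hL hX hR hy v
  rw [hv] at hσv
  have ht := tyW_of_ring hb hi
  rw [OY_ring ht] at z1
  have hs := ofs_slL_ramp (b := b) (zs := zs) (y := y) (h := h) (b i) (by rw [e1, e2]; linarith only [hcon])
  have hbx := A.box hb hL
  rw [hi, hj] at hbx
  simp only [hbox] at hbx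
  obtain ⟨-, -, t0, t1⟩ := hbx
  have hrh := A.rh hy
  rw [e1, e2] at hrh
  have q3 := wcl_pos (b := b) h
  have q1 := w_sum (b := b) h
  rw [e1, e2] at q1
  have hr := A.re (zs := zs) (y := y)
  have hM := hrh.reM
  rw [hr] at hM
  have hw : (Yw b zs y i p).im = -(-(ofs (b i) (zs (.inl (.inl h))).im / (34 / 100)) *
      (60 / 100 - (Yw b zs y i p).re)) := by
    rw [hrh.im, tr_c q3 (by norm_num) q1 (by rw [hr]; linarith only [hcon]) (by rw [hr]; exact hM)]
    ring
  rw [e2] at hs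
  rw [A.side_ring hb hi, hs, z1]
  have hm0 : 0 ≤ -(ofs (b i) (zs (.inl (.inl h))).im / (34 / 100)) := by
    rw [← neg_div]
    exact div_nonneg (by linarith only [t1, q3, q1]) (by norm_num)
  have hm1 : -(ofs (b i) (zs (.inl (.inl h))).im / (34 / 100)) ≤ 171 / 1000 := by
    rw [← neg_div, div_le_iff₀ (by norm_num)]
    linarith only [t0, q3, q1]
  have hs' : -(1 / 2) < ofs (b i) (y (.inr v)) := by
    have := abs_lt.1 (show |ofs (b i) (y (.inr v))| < 1 / 2 by rw [abs_ofs]; exact hhalf)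
    exact this.1
  have hρ0 := hL.rpos v
  rw [← hr]
  rw [← hr] at hcon
  constructor
  · intro hx
    rcases le_total (Yw b zs y i p).re (28 / 100) with h28 | h28
    · exact RC3e.rc1 hm0 hm1 hw hcon.le h28 hρ0 c1.1 hs' hσv
    · have := RC3e.rc1' hm0 hm1 hw h28 (by linarith only [hx]) hρ0 c1.1 hs' hσv
      linarith only [q3, q1, this]
  · intro hx
    exact RC3e.rc2 hm0 hm1 hw hx (by rw [hr]; exact hM) hρ0 c1.1 hs' hσv

/-- **Cap of the hinges between an end with three crossings and a ring**: `26/100`. -/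
theorem cap_3EZ (hb : ClassW b) (hL : Loc b zs) (hX : LocX b zs) (hR : LocR b zs)
    (hC : Crit b zs) (hy : Mx b zs y) (hpos : ∀ h : Fin M, 0 < y (.inl (.inl h)))
    (hσ : ∀ v : ZZ (tyW b), ofs (b v.1) (y (.inr v)) ≤ 0) (A : Adj h i p j)
    (hi : clsW b i = .threeE) (hj : clsW b j = .ring) : y (.inl (.inl h)) ≤ 26 / 100 := by
  by_contra hcon
  push Not at hcon
  have hop := A.opp hb (Or.inl (by rw [hi]; decide))
  obtain ⟨e1, e2⟩ := A.XM3 hi
  rw [hj] at e2
  simp only [cr3] at e2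
  obtain ⟨k1, k2⟩ := threeE_RZ hb hL hC hy A hi hj (by rw [e1, e2]; linarith only [hcon])
  obtain ⟨k3, k4⟩ := ring_3e_side hb hL hX hR hy hσ A.symm hj hi hcon
  rcases le_total (y (.inl (.inl h))) (32 / 100) with h32 | h32
  · refine rstep_false hb hy (hpos h) (RSide.of_sum A ?_)
    have := k1 h32
    have := k3 h32
    linarith
  · exact rstep_false hb hy (hpos h) (RStep.of_adj A (c := Real.pi) (fun h => absurd h (by omega))
      (by norm_num) (k2 h32) (k4 h32))

end SR

end Pool.Agent.Work.MP_b30479_gtS.G2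

end
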