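import Pool.Agent.Work.MP_b30479_gt.TBS.G2.LRB
import Pool.Agent.Work.MP_b30479_gt.TBS.NumU.Tree

section

/-!
# Left ramps of the hinges `1 | ring`, ring variable on the ramp, `145/1000 ≤ x ≤ 16/100`
-/

set_option deprecated.oldSectionVars true

namespace Pool.Agent.Work.MP_b30479_gtS.G2

open VOL NumIs

namespace LR

/-- a negative constant -/
def eN (n d : ℕ) (_ : F) : F := (F.rat n d).neg

lemma ev_eN (n d : ℕ) : Ev (eN n d) (fun _ => -((n : ℝ) / d)) := by
  intro X ε x hε hX
  have h := F.Encl.rat n d ε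
  unfold F.Encl at *
  unfold eN
  rw [F.toA_neg]
  exact A.Encl.neg h

theorem cq4_1 : okB 10000 (tst cB (eN 2 100) (rP 16 1) (eK 0 1)) 0 0 0 0 40 1450 1600 2375 5000 625 1200 0 1045
    0x57f03fdf8181fdf8182fdf8182 = true := by
  decide +kernel

theorem cq4_2 : okB 10000 (tst cB (eN 2 100) (rQ 16 93) (eK 0 1)) 0 0 0 0 40 1450 1600 2375 5000 1200 2500 0 1045
    0x10204040468d003498303f0183081008d260fe030600204140850d0410502000418d2007e0339f01fc060be03060820a1a340010614883102fe830604105fa0c78211f41fe040417cf803e82fa0befd020c18208102041a0c084000818d260c680f80c6901a000fc063480301f0182061050d0410690040c08d0840181003468d02040032664093200007c07f0183082880d000c1842040183083480321f01820604084203400d200c08301f3e01f80fe030608104080068a0064183081c68114001932008800f80c1810e4008822048000444a110004117fbf4001fa0c1822853e8203f817dfa04182f9f417d05f7e8107f7e81fbf4181060c101 = true := by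
  decide +kernel

theorem cq4_3 : okB 10000 (tst cB (eK 10 100) (rP 16 1) (eK 0 1)) 0 0 0 0 40 1450 1600 5000 8000 625 1200 0 1045
    0xcfc0cafe06c0101fdf8182 = true := by
  decide +kernel

theorem cq4_4 : okB 10000 (tst cB (eK 10 100) (rQ 16 93) (eK 0 1)) 0 0 0 0 40 1450 1600 5000 8000 1200 2500 0 1045
    0x102000e285000243e02f80c183081018d1a34101f80c1820a1028500081851c043020428882fa0be7d05f4103fa0c1820810204000418d1a346820207e03143450003f01801a34690060408d143418101f0182061020400102070410382000c0831a3400a1a04680380c0fc06288100007e03f80c103041020d1a000830a142800614414060c0821bf00fd05f41fd060c288002410b2807f0207f7e830608101 = true := by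
  decide +kernel

theorem cq5_1 : okB 10000 (tst cB (eK 28 100) (rP 20 2) (eK 0 1)) 0 0 0 0 40 1450 1600 8000 9875 625 1200 0 725
    0x1fbf03 = true := by
  decide +kernel

theorem cq5_2 : okB 10000 (tst cB (eK 28 100) (rQ 20 193) (eK 0 1)) 0 0 0 0 40 1450 1600 8000 9875 1200 2500 0 725
    0x1020408001811410500021c5001a0868d003410d1a0068200040fc060c2040810201000c08d1a40001560be03060820d03f01852807e830477e83fc08102 = true := by
  decide +kernel

set_option deprecated.oldSectionVars false
variable {m x s ρ : ℝ} {w ζ : ℂ}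

/-- lower bounds on `[145/1000, 16/100]`, other hinge `≤ 1/2` -/
noncomputable def eP3 (m : ℝ) : ℝ :=
  if -(1 / 2) ≤ m then -(2 / 100) else if -(8 / 10) ≤ m then 10 / 100 else 28 / 100

theorem one_P4' (hw : W x m w) (hz : ZR s ρ ζ) (hρ : ρ ≤ 1045 / 10000)
    (hm : m ≤ -(2375 / 10000)) (hm' : -(8 / 10) ≤ m) (hx0 : 145 / 1000 ≤ x) (hx : x ≤ 16 / 100)
    (hF : FP 4 s ρ w ζ) : eP3 m ≤ S4 m w ζ + (Real.pi - 6 * x) * m := by
  have hm0 : m < 0 := by linarith only [hm]
  have hx4 : x < 1 / 4 := by linarith only [hm', hx, hm0]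
  have hs1 := hz.lo
  have hs2 := hz.hi
  unfold eP3
  rcases le_or_gt (-(1 / 2)) m with hm1 | hm1
  · rw [if_pos hm1]
    rcases lt_or_ge s (12 / 100) with hs | hs
    · have h5 := box (ev_eN 2 100) (ev_rP 16 1) ev_k0 cq4_1 hw hz hx4 hm0
        (by push_cast; linarith only [hx0]) (by push_cast; linarith only [hx]) (by push_cast; linarith only [hm])
        (by push_cast; linarith only [hm1]) (by push_cast; linarith only [hs1]) (by push_cast; linarith only [hs])
        (by push_cast; linarith only [hρ]) (FP4s hw hz hx4 hs hF)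
      push_cast at h5
      linarith only [h5]
    · have h5 := box (ev_eN 2 100) (ev_rQ 16 93) ev_k0 cq4_2 hw hz hx4 hm0
        (by push_cast; linarith only [hx0]) (by push_cast; linarith only [hx]) (by push_cast; linarith only [hm])
        (by push_cast; linarith only [hm1]) (by push_cast; linarith only [hs]) (by push_cast; linarith only [hs2])
        (by push_cast; linarith only [hρ]) (FP4b hw hz hx4 hs hF)
      push_cast at h5
      linarith only [h5]
  · rw [if_neg (not_le.mpr hm1), if_pos hm']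
    rcases lt_or_ge s (12 / 100) with hs | hs
    · have h5 := box (ev_eK 10 100) (ev_rP 16 1) ev_k0 cq4_3 hw hz hx4 hm0
        (by push_cast; linarith only [hx0]) (by push_cast; linarith only [hx]) (by push_cast; linarith only [hm1])
        (by push_cast; linarith only [hm']) (by push_cast; linarith only [hs1]) (by push_cast; linarith only [hs])
        (by push_cast; linarith only [hρ]) (FP4s hw hz hx4 hs hF)
      push_cast at h5
      linarith only [h5]
    · have h5 := box (ev_eK 10 100) (ev_rQ 16 93) ev_k0 cq4_4 hw hz hx4 hm0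
        (by push_cast; linarith only [hx0]) (by push_cast; linarith only [hx]) (by push_cast; linarith only [hm1])
        (by push_cast; linarith only [hm']) (by push_cast; linarith only [hs]) (by push_cast; linarith only [hs2])
        (by push_cast; linarith only [hρ]) (FP4b hw hz hx4 hs hF)
      push_cast at h5
      linarith only [h5]

theorem one_P5' (hw : W x m w) (hz : ZR s ρ ζ) (hρ : ρ ≤ 725 / 10000)
    (hm : m ≤ -(2375 / 10000)) (hm' : -(9875 / 10000) ≤ m) (hx0 : 145 / 1000 ≤ x)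
    (hx : x ≤ 16 / 100) (hF : FP 5 s ρ w ζ) : eP3 m ≤ S4 m w ζ + (Real.pi - 6 * x) * m := by
  rcases le_or_gt (-(8 / 10)) m with hm8 | hm8
  · exact one_P4' hw hz (by linarith only [hρ]) hm hm8 hx0 hx (FP_mono hz (by norm_num) hF)
  have hm0 : m < 0 := by linarith only [hm', hm8]
  have hx4 : x < 1 / 4 := by linarith only [hm', hx, hm8]
  have hs1 := hz.lo
  have hs2 := hz.hi
  unfold eP3
  rw [if_neg (by linarith only [hx0, hm8, hx4]), if_neg (not_le.mpr hm8)]
  rcases lt_or_ge s (12 / 100) with hs | hs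
  · have h5 := box (ev_eK 28 100) (ev_rP 20 2) ev_k0 cq5_1 hw hz hx4 hm0
      (by push_cast; linarith only [hx0]) (by push_cast; linarith only [hx]) (by push_cast; linarith only [hm8])
      (by push_cast; linarith only [hm']) (by push_cast; linarith only [hs1]) (by push_cast; linarith only [hs])
      (by push_cast; linarith only [hρ]) (FP5s hw hz hx4 hs hF)
    push_cast at h5
    linarith only [h5]
  · have h5 := box (ev_eK 28 100) (ev_rQ 20 193) ev_k0 cq5_2 hw hz hx4 hm0
      (by push_cast; linarith only [hx0]) (by push_cast; linarith only [hx]) (by push_cast; linarith only [hm8])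
      (by push_cast; linarith only [hm']) (by push_cast; linarith only [hs]) (by push_cast; linarith only [hs2])
      (by push_cast; linarith only [hρ]) (FP5b hw hz hx4 hs hF)
    push_cast at h5
    linarith only [h5]

lemma eP3_ge (h0 : 145 / 1000 ≤ x) (h1 : x ≤ 16 / 100) (_ : m ≤ 0) (hm' : -(9875 / 10000) ≤ m) :
    -(18 / 100) ≤ eP3 m + 2 * x * m := by
  unfold eP3
  split_ifs with h2 h3 <;> nlinarith

/-- the same with the shift `π - 4 x` -/
theorem one_P4c (hw : W x m w) (hz : ZR s ρ ζ) (hρ : ρ ≤ 1045 / 10000)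
    (hm : m ≤ -(2375 / 10000)) (hm' : -(8 / 10) ≤ m) (hx0 : 145 / 1000 ≤ x) (hx : x ≤ 16 / 100)
    (hF : FP 4 s ρ w ζ) : -(18 / 100) ≤ S4 m w ζ + (Real.pi - 4 * x) * m := by
  have h1 := one_P4' hw hz hρ hm hm' hx0 hx hF
  have h2 := eP3_ge hx0 hx (by linarith only [hm]) (show -(9875 / 10000) ≤ m by linarith only [hm'])
  linarith only [h1, h2]

theorem one_P5c (hw : W x m w) (hz : ZR s ρ ζ) (hρ : ρ ≤ 725 / 10000)
    (hm : m ≤ -(2375 / 10000)) (hm' : -(9875 / 10000) ≤ m) (hx0 : 145 / 1000 ≤ x)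
    (hx : x ≤ 16 / 100) (hF : FP 5 s ρ w ζ) :
    -(18 / 100) ≤ S4 m w ζ + (Real.pi - 4 * x) * m := by
  have h1 := one_P5' hw hz hρ hm hm' hx0 hx hF
  have h2 := eP3_ge hx0 hx (by linarith only [hm]) hm'
  linarith only [h1, h2]

end LR

end Pool.Agent.Work.MP_b30479_gtS.G2

end

section

/-!
# Left ramp of `1 | ring` on `145/1000 ≤ x ≤ 16/100`, ring variable on the flat part, `c = π - 4 x`
-/

set_option linter.unusedSimpArgs false
set_option linter.unusedVariables false
set_option linter.unusedTactic false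

set_option deprecated.oldSectionVars true

namespace Pool.Agent.Work.MP_b30479_gtS.G2

open VOL

namespace LR

open NumUs
open NumUs.E (emb)
open NumIs (V)

/-- 171 boxes -/
theorem c_flZ {x M y r : ℝ} (a0 : 1450 / 10000 ≤ x) (b0 : x ≤ 1600 / 10000)
    (a1 : 2375 / 10000 ≤ M) (b1 : M ≤ 9875 / 10000) (a2 : 0 / 10000 ≤ y) (b2 : y ≤ 2500 / 10000)
    (a3 : 0 / 10000 ≤ r) (b3 : r ≤ 3233 / 10000) (hF : fF x M y r ≤ 0) :
    0 < fD (Real.pi - 4 * x) (-(22 / 100)) x M y r := by
  have h : chkT [(emb (.add (.sub (.add (.lnA (.sub (.add (.var 0) (.q 1 2)) (.var 2)) (.sub (.mul (.var 3)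
      (.var 3)) (.mul (.var 1) (.var 0)))) (.lnA (.add (.add (.var 0) (.q 1 2)) (.var 2)) (.add
      (.mul (.var 3) (.var 3)) (.mul (.var 1) (.var 0))))) (.mul (.q 2 1) (.lnA (.var 0) (.mul
      (.var 1) (.var 0))))) (.sub (.mul (.var 1) (.sub (.add (.sub (.lnB (.sub (.add (.var 0) (.q
      1 2)) (.var 2)) (.sub (.mul (.var 3) (.var 3)) (.mul (.var 1) (.var 0)))) (.lnB (.add (.add
      (.var 0) (.q 1 2)) (.var 2)) (.add (.mul (.var 3) (.var 3)) (.mul (.var 1) (.var 0)))))
      (.mul (.q 2 1) (.lnB (.var 0) (.mul (.var 1) (.var 0))))) (.sub .pi (.mul (.q 4 1) (.var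
      0))))) (.q (-22) 100)))), (emb (.add (.add (.sub (.add (.lnA (.sub (.add (.var 0) (.q 1 2))
      (.var 2)) (.sub (.mul (.var 3) (.var 3)) (.mul (.var 1) (.var 0)))) (.lnA (.add (.add (.var
      0) (.q 1 2)) (.var 2)) (.add (.mul (.var 3) (.var 3)) (.mul (.var 1) (.var 0))))) (.mul (.q
      2 1) (.lnA (.var 0) (.mul (.var 1) (.var 0))))) (.sub (.mul (.var 1) (.sub (.add (.sub (.lnB
      (.sub (.add (.var 0) (.q 1 2)) (.var 2)) (.sub (.mul (.var 3) (.var 3)) (.mul (.var 1) (.var
      0)))) (.lnB (.add (.add (.var 0) (.q 1 2)) (.var 2)) (.add (.mul (.var 3) (.var 3)) (.mul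
      (.var 1) (.var 0))))) (.mul (.q 2 1) (.lnB (.var 0) (.mul (.var 1) (.var 0))))) (.sub .pi
      (.mul (.q 4 1) (.var 0))))) (.q (-22) 100))) (.mul (.q 5 10) (.sub (.sub (.lnA (.sub (.add
      (.var 0) (.q 1 2)) (.var 2)) (.sub (.mul (.var 3) (.var 3)) (.mul (.var 1) (.var 0)))) (.lnA
      (.add (.add (.var 0) (.q 1 2)) (.var 2)) (.add (.mul (.var 3) (.var 3)) (.mul (.var 1) (.var
      0))))) (.mul (.q 953 100) (.var 3)))))), (emb (.add (.add (.sub (.add (.lnA (.sub (.add
      (.var 0) (.q 1 2)) (.var 2)) (.sub (.mul (.var 3) (.var 3)) (.mul (.var 1) (.var 0)))) (.lnA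
      (.add (.add (.var 0) (.q 1 2)) (.var 2)) (.add (.mul (.var 3) (.var 3)) (.mul (.var 1) (.var
      0))))) (.mul (.q 2 1) (.lnA (.var 0) (.mul (.var 1) (.var 0))))) (.sub (.mul (.var 1) (.sub
      (.add (.sub (.lnB (.sub (.add (.var 0) (.q 1 2)) (.var 2)) (.sub (.mul (.var 3) (.var 3))
      (.mul (.var 1) (.var 0)))) (.lnB (.add (.add (.var 0) (.q 1 2)) (.var 2)) (.add (.mul (.var
      3) (.var 3)) (.mul (.var 1) (.var 0))))) (.mul (.q 2 1) (.lnB (.var 0) (.mul (.var 1) (.var
      0))))) (.sub .pi (.mul (.q 4 1) (.var 0))))) (.q (-22) 100))) (.mul (.q 10 10) (.sub (.sub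
      (.lnA (.sub (.add (.var 0) (.q 1 2)) (.var 2)) (.sub (.mul (.var 3) (.var 3)) (.mul (.var 1)
      (.var 0)))) (.lnA (.add (.add (.var 0) (.q 1 2)) (.var 2)) (.add (.mul (.var 3) (.var 3))
      (.mul (.var 1) (.var 0))))) (.mul (.q 953 100) (.var 3)))))), (emb (.add (.add (.sub (.add
      (.lnA (.sub (.add (.var 0) (.q 1 2)) (.var 2)) (.sub (.mul (.var 3) (.var 3)) (.mul (.var 1)
      (.var 0)))) (.lnA (.add (.add (.var 0) (.q 1 2)) (.var 2)) (.add (.mul (.var 3) (.var 3))
      (.mul (.var 1) (.var 0))))) (.mul (.q 2 1) (.lnA (.var 0) (.mul (.var 1) (.var 0))))) (.sub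
      (.mul (.var 1) (.sub (.add (.sub (.lnB (.sub (.add (.var 0) (.q 1 2)) (.var 2)) (.sub (.mul
      (.var 3) (.var 3)) (.mul (.var 1) (.var 0)))) (.lnB (.add (.add (.var 0) (.q 1 2)) (.var 2))
      (.add (.mul (.var 3) (.var 3)) (.mul (.var 1) (.var 0))))) (.mul (.q 2 1) (.lnB (.var 0)
      (.mul (.var 1) (.var 0))))) (.sub .pi (.mul (.q 4 1) (.var 0))))) (.q (-22) 100))) (.mul (.q
      15 10) (.sub (.sub (.lnA (.sub (.add (.var 0) (.q 1 2)) (.var 2)) (.sub (.mul (.var 3) (.var
      3)) (.mul (.var 1) (.var 0)))) (.lnA (.add (.add (.var 0) (.q 1 2)) (.var 2)) (.add (.mul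
      (.var 3) (.var 3)) (.mul (.var 1) (.var 0))))) (.mul (.q 953 100) (.var 3)))))), (emb (.add
      (.add (.sub (.add (.lnA (.sub (.add (.var 0) (.q 1 2)) (.var 2)) (.sub (.mul (.var 3) (.var
      3)) (.mul (.var 1) (.var 0)))) (.lnA (.add (.add (.var 0) (.q 1 2)) (.var 2)) (.add (.mul
      (.var 3) (.var 3)) (.mul (.var 1) (.var 0))))) (.mul (.q 2 1) (.lnA (.var 0) (.mul (.var 1)
      (.var 0))))) (.sub (.mul (.var 1) (.sub (.add (.sub (.lnB (.sub (.add (.var 0) (.q 1 2))
      (.var 2)) (.sub (.mul (.var 3) (.var 3)) (.mul (.var 1) (.var 0)))) (.lnB (.add (.add (.var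
      0) (.q 1 2)) (.var 2)) (.add (.mul (.var 3) (.var 3)) (.mul (.var 1) (.var 0))))) (.mul (.q
      2 1) (.lnB (.var 0) (.mul (.var 1) (.var 0))))) (.sub .pi (.mul (.q 4 1) (.var 0))))) (.q
      (-22) 100))) (.mul (.q 20 10) (.sub (.sub (.lnA (.sub (.add (.var 0) (.q 1 2)) (.var 2))
      (.sub (.mul (.var 3) (.var 3)) (.mul (.var 1) (.var 0)))) (.lnA (.add (.add (.var 0) (.q 1
      2)) (.var 2)) (.add (.mul (.var 3) (.var 3)) (.mul (.var 1) (.var 0))))) (.mul (.q 953 100)
      (.var 3)))))), (emb (.add (.add (.sub (.add (.lnA (.sub (.add (.var 0) (.q 1 2)) (.var 2))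
      (.sub (.mul (.var 3) (.var 3)) (.mul (.var 1) (.var 0)))) (.lnA (.add (.add (.var 0) (.q 1
      2)) (.var 2)) (.add (.mul (.var 3) (.var 3)) (.mul (.var 1) (.var 0))))) (.mul (.q 2 1)
      (.lnA (.var 0) (.mul (.var 1) (.var 0))))) (.sub (.mul (.var 1) (.sub (.add (.sub (.lnB
      (.sub (.add (.var 0) (.q 1 2)) (.var 2)) (.sub (.mul (.var 3) (.var 3)) (.mul (.var 1) (.var
      0)))) (.lnB (.add (.add (.var 0) (.q 1 2)) (.var 2)) (.add (.mul (.var 3) (.var 3)) (.mul
      (.var 1) (.var 0))))) (.mul (.q 2 1) (.lnB (.var 0) (.mul (.var 1) (.var 0))))) (.sub .pi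
      (.mul (.q 4 1) (.var 0))))) (.q (-22) 100))) (.mul (.q 30 10) (.sub (.sub (.lnA (.sub (.add
      (.var 0) (.q 1 2)) (.var 2)) (.sub (.mul (.var 3) (.var 3)) (.mul (.var 1) (.var 0)))) (.lnA
      (.add (.add (.var 0) (.q 1 2)) (.var 2)) (.add (.mul (.var 3) (.var 3)) (.mul (.var 1) (.var
      0))))) (.mul (.q 953 100) (.var 3)))))), (emb (.sub (.sub (.lnA (.sub (.add (.var 0) (.q 1
      2)) (.var 2)) (.sub (.mul (.var 3) (.var 3)) (.mul (.var 1) (.var 0)))) (.lnA (.add (.add
      (.var 0) (.q 1 2)) (.var 2)) (.add (.mul (.var 3) (.var 3)) (.mul (.var 1) (.var 0)))))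
      (.mul (.q 953 100) (.var 3))))] 26
      214051831483662022969538441147315810513691224700580191383672847591316539562270582656379967315605405598595227803046565533912260691411629025648272131736232069908522358664752004350078228679097982692165302832085756509911534586459119335475138377188582945349444420983745580824315553690440963191295956723270486731371915242457425703486383193380506617975967096994966673259678880049356029656195901520810643534549299499794
      [V.of 10000 1450 1600 0, V.of 10000 2375 9875 0, V.of 10000 0 2500 0, V.of 10000 0 3233 0] = true := by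
    decide +kernel
  obtain ⟨f, hf, hp⟩ := chkT4 h (by norm_num) (x := x) (y := M) (z := y) (w := r)
    (le_trans (by norm_num) a0) (le_trans b0 (by norm_num))
    (le_trans (by norm_num) a1) (le_trans b1 (by norm_num))
    (le_trans (by norm_num) a2) (le_trans b2 (by norm_num))
    (le_trans (by norm_num) a3) (le_trans b3 (by norm_num))
  unfold fF at hF
  unfold fD
  simp only [List.mem_cons, List.not_mem_nil, or_false] at hf
  rcases hf with rfl | rfl | rfl | rfl | rfl | rfl | rfl
  · simp only [NumUs.E.val, NumIs.E.val, NumIs.lkR] at hp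
    push_cast at hp
    try simp only [div_one] at hp
    rw [show r ^ 2 = r * r by ring] at hF ⊢
    linarith only [hp]
  · simp only [NumUs.E.val, NumIs.E.val, NumIs.lkR] at hp
    push_cast at hp
    try simp only [div_one] at hp
    rw [show r ^ 2 = r * r by ring] at hF ⊢
    linarith only [hF, hp]
  · simp only [NumUs.E.val, NumIs.E.val, NumIs.lkR] at hp
    push_cast at hp
    try simp only [div_one] at hp
    rw [show r ^ 2 = r * r by ring] at hF ⊢
    linarith only [hF, hp]
  · simp only [NumUs.E.val, NumIs.E.val, NumIs.lkR] at hp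
    push_cast at hp
    try simp only [div_one] at hp
    rw [show r ^ 2 = r * r by ring] at hF ⊢
    linarith only [hF, hp]
  · simp only [NumUs.E.val, NumIs.E.val, NumIs.lkR] at hp
    push_cast at hp
    try simp only [div_one] at hp
    rw [show r ^ 2 = r * r by ring] at hF ⊢
    linarith only [hF, hp]
  · simp only [NumUs.E.val, NumIs.E.val, NumIs.lkR] at hp
    push_cast at hp
    try simp only [div_one] at hp
    rw [show r ^ 2 = r * r by ring] at hF ⊢
    linarith only [hF, hp]
  · simp only [NumUs.E.val, NumIs.E.val, NumIs.lkR] at hp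
    push_cast at hp
    try simp only [div_one] at hp
    rw [show r ^ 2 = r * r by ring] at hF ⊢
    exfalso
    linarith only [hF, hp]

/-- 49 boxes -/
theorem c_flN {x M y r : ℝ} (a0 : 1450 / 10000 ≤ x) (b0 : x ≤ 1600 / 10000)
    (a1 : 2375 / 10000 ≤ M) (b1 : M ≤ 9875 / 10000) (a2 : 0 / 10000 ≤ y) (b2 : y ≤ 2050 / 10000)
    (a3 : 0 / 10000 ≤ r) (b3 : r ≤ 3233 / 10000) :
    0 < fD (Real.pi - 4 * x) (-(22 / 100)) x M y r := by
  have h : chkT [(emb (.add (.sub (.add (.lnA (.sub (.add (.var 0) (.q 1 2)) (.var 2)) (.sub (.mul (.var 3)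
      (.var 3)) (.mul (.var 1) (.var 0)))) (.lnA (.add (.add (.var 0) (.q 1 2)) (.var 2)) (.add
      (.mul (.var 3) (.var 3)) (.mul (.var 1) (.var 0))))) (.mul (.q 2 1) (.lnA (.var 0) (.mul
      (.var 1) (.var 0))))) (.sub (.mul (.var 1) (.sub (.add (.sub (.lnB (.sub (.add (.var 0) (.q
      1 2)) (.var 2)) (.sub (.mul (.var 3) (.var 3)) (.mul (.var 1) (.var 0)))) (.lnB (.add (.add
      (.var 0) (.q 1 2)) (.var 2)) (.add (.mul (.var 3) (.var 3)) (.mul (.var 1) (.var 0)))))
      (.mul (.q 2 1) (.lnB (.var 0) (.mul (.var 1) (.var 0))))) (.sub .pi (.mul (.q 4 1) (.var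
      0))))) (.q (-22) 100))))] 26
      335152791172960793534740358304270937683986214212349167526111012132846440030891724865095154259275036134461345500762898
      [V.of 10000 1450 1600 0, V.of 10000 2375 9875 0, V.of 10000 0 2050 0, V.of 10000 0 3233 0] = true := by
    decide +kernel
  obtain ⟨f, hf, hp⟩ := chkT4 h (by norm_num) (x := x) (y := M) (z := y) (w := r)
    (le_trans (by norm_num) a0) (le_trans b0 (by norm_num))
    (le_trans (by norm_num) a1) (le_trans b1 (by norm_num))
    (le_trans (by norm_num) a2) (le_trans b2 (by norm_num))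
    (le_trans (by norm_num) a3) (le_trans b3 (by norm_num))
  unfold fD
  simp only [List.mem_cons, List.not_mem_nil, or_false] at hf
  subst hf
  simp only [NumUs.E.val, NumIs.E.val, NumIs.lkR] at hp
  push_cast at hp
  try simp only [div_one] at hp
  rw [show r ^ 2 = r * r by ring]
  linarith only [hp]

set_option deprecated.oldSectionVars false
variable {m x : ℝ} {w ζ : ℂ}

/-- ring variable on the flat part, `c = π - 4 x`; the hypotheses of `one_flatC` -/
theorem one_flatC4 {b : ℝ} (hw : W x m w) (hz : ZF ζ) (hm : m ≤ -(2375 / 10000))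
    (hm' : -(9875 / 10000) ≤ m) (hx0 : 145 / 1000 ≤ x) (hx : x ≤ 16 / 100)
    (hb : b ^ 2 * ζ.im ≤ 23 / 10) (hF : -(2 * Real.pi * b * ζ.im) + Dm 0 w ζ ≤ 0) :
    -(22 / 100) ≤ S4 m w ζ + (Real.pi - 4 * x) * m := by
  have h0 := hw.pos
  have hx4 : x < 1 / 4 := by linarith only [hx, h0]
  have hp := Real.pi_lt_d4
  have hp0 := Real.pi_pos
  have hr : Real.sqrt ζ.im ^ 2 = ζ.im := Real.sq_sqrt hz.pos.le
  have hr0 := Real.sqrt_nonneg ζ.im
  have hG : Dm 0 w ζ ≤ 953 / 100 * Real.sqrt ζ.im := by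
    set r := Real.sqrt ζ.im with hrd
    rw [← hr] at hF hb
    have h1 : (2 * Real.pi * (b * r)) ^ 2 ≤ (953 / 100) ^ 2 := by
      have e : (2 * Real.pi * (b * r)) ^ 2 = 4 * Real.pi ^ 2 * (b ^ 2 * r ^ 2) := by ring
      have e2 : Real.pi ^ 2 ≤ 3.1416 ^ 2 := pow_le_pow_left₀ hp0.le hp.le 2
      have e3 : 0 ≤ b ^ 2 * r ^ 2 := by positivity
      rw [e]
      have : 4 * Real.pi ^ 2 * (b ^ 2 * r ^ 2) ≤ 4 * 3.1416 ^ 2 * (23 / 10) :=
        mul_le_mul (by linarith only [e2]) hb e3 (by norm_num)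
      refine this.trans (by norm_num)
    have h2 : 2 * Real.pi * (b * r) ≤ 953 / 100 := (abs_le.mp (abs_le_of_sq_le_sq h1 (by norm_num))).2
    have h3 : 2 * Real.pi * b * r ^ 2 = 2 * Real.pi * (b * r) * r := by ring
    have h4 := mul_le_mul_of_nonneg_right h2 hr0
    linarith only [hF, h4]
  have hz1 := hz.lo
  have hz2 := hz.hi
  have hr1 := r_le hz hr
  have key := c_flZ (x := x) (M := -m) (y := -ζ.re) (r := Real.sqrt ζ.im) (by linarith only [hx0])
    (by linarith only [hx]) (by linarith only [hm]) (by linarith only [hm']) (by linarith only [hz2]) (by linarith only [hz1]) (by linarith only [hr0])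
    (by linarith only [hr1]) (by rw [← Dm_fF hw hr]; linarith only [hG])
  rw [← S4_fD hw hz hr hx4] at key
  linarith only [key]

/-- the same, the condition only for `σ ≤ -205/1000` -/
theorem one_flatC4S (hw : W x m w) (hz : ZF ζ) (hm : m ≤ -(2375 / 10000))
    (hm' : -(9875 / 10000) ≤ m) (hx0 : 145 / 1000 ≤ x) (hx : x ≤ 16 / 100)
    (hG : ζ.re ≤ -(205 / 1000) → Dm 0 w ζ ≤ 953 / 100 * Real.sqrt ζ.im) :
    -(22 / 100) ≤ S4 m w ζ + (Real.pi - 4 * x) * m := by
  have hx4 : x < 1 / 4 := by linarith only [hx]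
  have hr : Real.sqrt ζ.im ^ 2 = ζ.im := Real.sq_sqrt hz.pos.le
  have hr0 := Real.sqrt_nonneg ζ.im
  have hz1 := hz.lo
  have hz2 := hz.hi
  have hr1 := r_le hz hr
  rcases le_total ζ.re (-(205 / 1000)) with hs | hs
  · have hG := hG hs
    have key := c_flZ (x := x) (M := -m) (y := -ζ.re) (r := Real.sqrt ζ.im) (by linarith only [hx0])
      (by linarith only [hx]) (by linarith only [hm]) (by linarith only [hm']) (by linarith only [hz2]) (by linarith only [hz1]) (by linarith only [hr0])
      (by linarith only [hr1]) (by rw [← Dm_fF hw hr]; linarith only [hG])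
    rw [← S4_fD hw hz hr hx4] at key
    linarith only [key]
  · have key := c_flN (x := x) (M := -m) (y := -ζ.re) (r := Real.sqrt ζ.im) (by linarith only [hx0])
      (by linarith only [hx]) (by linarith only [hm]) (by linarith only [hm']) (by linarith only [hz2]) (by linarith only [hs]) (by linarith only [hr0])
      (by linarith only [hr1])
    rw [← S4_fD hw hz hr hx4] at key
    linarith only [key]

end LR

end Pool.Agent.Work.MP_b30479_gtS.G2

end
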