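import Pool.Agent.Work.MP_b30479_gt.TBS.G2.LR0
import Pool.Agent.Work.MP_b30479_gt.TBS.NumU.Tree

section

/-!
# Left ramps of the ring|ring hinges, heights `≥ 0` (block C)

`LR.rr_flat`, `LR.rr_P4`, `LR.rr_P5`, `LR.rr_X4`, `LR.rr_X5`.  Certificates found with `NumUs.cert`.
-/

set_option linter.unusedSimpArgs false

namespace Pool.Agent.Work.MP_b30479_gtS.G2

open VOL NumUs

namespace LRC

open LR
open NumIs (V)

variable {m x s ρ : ℝ} {w ζ : ℂ}

/-- 21 boxes -/
theorem q4a {x y s r : ℝ} (a0 : 100 / 10000 ≤ x) (b0 : x ≤ 1000 / 10000) (a1 : 0 ≤ y) (b1 : y ≤ 5600 / 10000)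
    (a2 : 625 / 10000 ≤ s) (b2 : s ≤ 1200 / 10000) (a3 : 0 ≤ r) (b3 : r ≤ 1045 / 10000) :
    ∃ e ∈ l1a (RG gg1 4), 0 < e.val [x, y, s, r] := by
  have h : chkT (l1a (RG gg1 4)) 24
      18412055681338844806987451081017002308894564352000
      [V.of 10000 100 1000, V.of 10000 0 5600, V.of 10000 625 1200, V.of 10000 0 1045] =
        true := by
    decide +kernel
  exact chkT4 h (by norm_num) (by push_cast; linarith only [a0]) (by push_cast; linarith only [b0])
    (by push_cast; linarith only [a1]) (by push_cast; linarith only [b1]) (by push_cast; linarith only [a2])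
    (by push_cast; linarith only [b2]) (by push_cast; linarith only [a3]) (by push_cast; linarith only [b3])

/-- 23 boxes -/
theorem q4b {x y s r : ℝ} (a0 : 100 / 10000 ≤ x) (b0 : x ≤ 1000 / 10000) (a1 : 0 ≤ y) (b1 : y ≤ 5600 / 10000)
    (a2 : 625 / 10000 ≤ s) (b2 : s ≤ 1200 / 10000) (a3 : 0 ≤ r) (b3 : r ≤ 1045 / 10000) :
    ∃ e ∈ l1b (RG gg1 4), 0 < e.val [x, y, s, r] := by
  have h : chkT (l1b (RG gg1 4)) 24
      916119942658967984702100684633954951228678675214434304
      [V.of 10000 100 1000, V.of 10000 0 5600, V.of 10000 625 1200, V.of 10000 0 1045] =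
        true := by
    decide +kernel
  exact chkT4 h (by norm_num) (by push_cast; linarith only [a0]) (by push_cast; linarith only [b0])
    (by push_cast; linarith only [a1]) (by push_cast; linarith only [b1]) (by push_cast; linarith only [a2])
    (by push_cast; linarith only [b2]) (by push_cast; linarith only [a3]) (by push_cast; linarith only [b3])

/-- 22 boxes -/
theorem q4c {x y s r : ℝ} (a0 : 100 / 10000 ≤ x) (b0 : x ≤ 1000 / 10000) (a1 : 0 ≤ y) (b1 : y ≤ 5600 / 10000)
    (a2 : 625 / 10000 ≤ s) (b2 : s ≤ 1200 / 10000) (a3 : 0 ≤ r) (b3 : r ≤ 1045 / 10000) :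
    ∃ e ∈ l2 (RG gg1 4), 0 < e.val [x, y, s, r] := by
  have h : chkT (l2 (RG gg1 4)) 24
      3580091377294475978513290127193353183809700944740352
      [V.of 10000 100 1000, V.of 10000 0 5600, V.of 10000 625 1200, V.of 10000 0 1045] =
        true := by
    decide +kernel
  exact chkT4 h (by norm_num) (by push_cast; linarith only [a0]) (by push_cast; linarith only [b0])
    (by push_cast; linarith only [a1]) (by push_cast; linarith only [b1]) (by push_cast; linarith only [a2])
    (by push_cast; linarith only [b2]) (by push_cast; linarith only [a3]) (by push_cast; linarith only [b3])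

/-- 52 boxes -/
theorem q4d {x y s r : ℝ} (a0 : 100 / 10000 ≤ x) (b0 : x ≤ 1000 / 10000) (a1 : 0 ≤ y) (b1 : y ≤ 5600 / 10000)
    (a2 : 625 / 10000 ≤ s) (b2 : s ≤ 1200 / 10000) (a3 : 0 ≤ r) (b3 : r ≤ 1045 / 10000) :
    ∃ e ∈ l3 (RG gg1 4), 0 < e.val [x, y, s, r] := by
  have h : chkT (l3 (RG gg1 4)) 24
      7789462791746698408671507545370056218267776357877416683870482979964501661977621530782475804207462941347353379328508065612224
      [V.of 10000 100 1000, V.of 10000 0 5600, V.of 10000 625 1200, V.of 10000 0 1045] =
        true := by
    decide +kernel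
  exact chkT4 h (by norm_num) (by push_cast; linarith only [a0]) (by push_cast; linarith only [b0])
    (by push_cast; linarith only [a1]) (by push_cast; linarith only [b1]) (by push_cast; linarith only [a2])
    (by push_cast; linarith only [b2]) (by push_cast; linarith only [a3]) (by push_cast; linarith only [b3])

/-- 11 boxes -/
theorem q4e {x y s r : ℝ} (a0 : 100 / 10000 ≤ x) (b0 : x ≤ 1000 / 10000) (a1 : 0 ≤ y) (b1 : y ≤ 5600 / 10000)
    (a2 : 625 / 10000 ≤ s) (b2 : s ≤ 1200 / 10000) (a3 : 0 ≤ r) (b3 : r ≤ 1045 / 10000) :
    ∃ e ∈ l1c (RG gg1 4), 0 < e.val [x, y, s, r] := by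
  have h : chkT (l1c (RG gg1 4)) 24
      15230095514882347111620816
      [V.of 10000 100 1000, V.of 10000 0 5600, V.of 10000 625 1200, V.of 10000 0 1045] =
        true := by
    decide +kernel
  exact chkT4 h (by norm_num) (by push_cast; linarith only [a0]) (by push_cast; linarith only [b0])
    (by push_cast; linarith only [a1]) (by push_cast; linarith only [b1]) (by push_cast; linarith only [a2])
    (by push_cast; linarith only [b2]) (by push_cast; linarith only [a3]) (by push_cast; linarith only [b3])

/-- 1 boxes -/
theorem q4f {x y s r : ℝ} (a0 : 0 ≤ x) (b0 : x ≤ 100 / 10000) (a1 : 0 ≤ y) (b1 : y ≤ 5600 / 10000)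
    (a2 : 625 / 10000 ≤ s) (b2 : s ≤ 1200 / 10000) (a3 : 0 ≤ r) (b3 : r ≤ 1045 / 10000) :
    ∃ e ∈ s1 10 (RG gg1 4), 0 < e.val [x, y, s, r] := by
  have h : chkT (s1 10 (RG gg1 4)) 24
      8
      [V.of 10000 0 100, V.of 10000 0 5600, V.of 10000 625 1200, V.of 10000 0 1045] =
        true := by
    decide +kernel
  exact chkT4 h (by norm_num) (by push_cast; linarith only [a0]) (by push_cast; linarith only [b0])
    (by push_cast; linarith only [a1]) (by push_cast; linarith only [b1]) (by push_cast; linarith only [a2])
    (by push_cast; linarith only [b2]) (by push_cast; linarith only [a3]) (by push_cast; linarith only [b3])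

/-- 1 boxes -/
theorem q4g {x y s r : ℝ} (a0 : 0 ≤ x) (b0 : x ≤ 100 / 10000) (a1 : 0 ≤ y) (b1 : y ≤ 5600 / 10000)
    (a2 : 625 / 10000 ≤ s) (b2 : s ≤ 1200 / 10000) (a3 : 0 ≤ r) (b3 : r ≤ 1045 / 10000) :
    ∃ e ∈ s2 10 (RG gg1 4), 0 < e.val [x, y, s, r] := by
  have h : chkT (s2 10 (RG gg1 4)) 24
      8
      [V.of 10000 0 100, V.of 10000 0 5600, V.of 10000 625 1200, V.of 10000 0 1045] =
        true := by
    decide +kernel
  exact chkT4 h (by norm_num) (by push_cast; linarith only [a0]) (by push_cast; linarith only [b0])
    (by push_cast; linarith only [a1]) (by push_cast; linarith only [b1]) (by push_cast; linarith only [a2])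
    (by push_cast; linarith only [b2]) (by push_cast; linarith only [a3]) (by push_cast; linarith only [b3])

/-- 6 boxes -/
theorem q5a {x y s r : ℝ} (a0 : 100 / 10000 ≤ x) (b0 : x ≤ 1000 / 10000) (a1 : 0 ≤ y) (b1 : y ≤ 4650 / 10000)
    (a2 : 625 / 10000 ≤ s) (b2 : s ≤ 1200 / 10000) (a3 : 0 ≤ r) (b3 : r ≤ 725 / 10000) :
    ∃ e ∈ l1a (RG gg1 5), 0 < e.val [x, y, s, r] := by
  have h : chkT (l1a (RG gg1 5)) 24
      10516648529920
      [V.of 10000 100 1000, V.of 10000 0 4650, V.of 10000 625 1200, V.of 10000 0 725] =
        true := by
    decide +kernel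
  exact chkT4 h (by norm_num) (by push_cast; linarith only [a0]) (by push_cast; linarith only [b0])
    (by push_cast; linarith only [a1]) (by push_cast; linarith only [b1]) (by push_cast; linarith only [a2])
    (by push_cast; linarith only [b2]) (by push_cast; linarith only [a3]) (by push_cast; linarith only [b3])

/-- 11 boxes -/
theorem q5b {x y s r : ℝ} (a0 : 100 / 10000 ≤ x) (b0 : x ≤ 1000 / 10000) (a1 : 0 ≤ y) (b1 : y ≤ 4650 / 10000)
    (a2 : 625 / 10000 ≤ s) (b2 : s ≤ 1200 / 10000) (a3 : 0 ≤ r) (b3 : r ≤ 725 / 10000) :
    ∃ e ∈ l1b (RG gg1 5), 0 < e.val [x, y, s, r] := by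
  have h : chkT (l1b (RG gg1 5)) 24
      11563038959822591064805376
      [V.of 10000 100 1000, V.of 10000 0 4650, V.of 10000 625 1200, V.of 10000 0 725] =
        true := by
    decide +kernel
  exact chkT4 h (by norm_num) (by push_cast; linarith only [a0]) (by push_cast; linarith only [b0])
    (by push_cast; linarith only [a1]) (by push_cast; linarith only [b1]) (by push_cast; linarith only [a2])
    (by push_cast; linarith only [b2]) (by push_cast; linarith only [a3]) (by push_cast; linarith only [b3])

/-- 6 boxes -/
theorem q5c {x y s r : ℝ} (a0 : 100 / 10000 ≤ x) (b0 : x ≤ 1000 / 10000) (a1 : 0 ≤ y) (b1 : y ≤ 4650 / 10000)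
    (a2 : 625 / 10000 ≤ s) (b2 : s ≤ 1200 / 10000) (a3 : 0 ≤ r) (b3 : r ≤ 725 / 10000) :
    ∃ e ∈ l2 (RG gg1 5), 0 < e.val [x, y, s, r] := by
  have h : chkT (l2 (RG gg1 5)) 24
      10516648529920
      [V.of 10000 100 1000, V.of 10000 0 4650, V.of 10000 625 1200, V.of 10000 0 725] =
        true := by
    decide +kernel
  exact chkT4 h (by norm_num) (by push_cast; linarith only [a0]) (by push_cast; linarith only [b0])
    (by push_cast; linarith only [a1]) (by push_cast; linarith only [b1]) (by push_cast; linarith only [a2])
    (by push_cast; linarith only [b2]) (by push_cast; linarith only [a3]) (by push_cast; linarith only [b3])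

/-- 8 boxes -/
theorem q5d {x y s r : ℝ} (a0 : 100 / 10000 ≤ x) (b0 : x ≤ 1000 / 10000) (a1 : 0 ≤ y) (b1 : y ≤ 4650 / 10000)
    (a2 : 625 / 10000 ≤ s) (b2 : s ≤ 1200 / 10000) (a3 : 0 ≤ r) (b3 : r ≤ 725 / 10000) :
    ∃ e ∈ l3 (RG gg1 5), 0 < e.val [x, y, s, r] := by
  have h : chkT (l3 (RG gg1 5)) 24
      614767881439350976
      [V.of 10000 100 1000, V.of 10000 0 4650, V.of 10000 625 1200, V.of 10000 0 725] =
        true := by
    decide +kernel
  exact chkT4 h (by norm_num) (by push_cast; linarith only [a0]) (by push_cast; linarith only [b0])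
    (by push_cast; linarith only [a1]) (by push_cast; linarith only [b1]) (by push_cast; linarith only [a2])
    (by push_cast; linarith only [b2]) (by push_cast; linarith only [a3]) (by push_cast; linarith only [b3])

/-- 3 boxes -/
theorem q5e {x y s r : ℝ} (a0 : 100 / 10000 ≤ x) (b0 : x ≤ 1000 / 10000) (a1 : 0 ≤ y) (b1 : y ≤ 4650 / 10000)
    (a2 : 625 / 10000 ≤ s) (b2 : s ≤ 1200 / 10000) (a3 : 0 ≤ r) (b3 : r ≤ 725 / 10000) :
    ∃ e ∈ l1c (RG gg1 5), 0 < e.val [x, y, s, r] := by
  have h : chkT (l1c (RG gg1 5)) 24
      626896
      [V.of 10000 100 1000, V.of 10000 0 4650, V.of 10000 625 1200, V.of 10000 0 725] =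
        true := by
    decide +kernel
  exact chkT4 h (by norm_num) (by push_cast; linarith only [a0]) (by push_cast; linarith only [b0])
    (by push_cast; linarith only [a1]) (by push_cast; linarith only [b1]) (by push_cast; linarith only [a2])
    (by push_cast; linarith only [b2]) (by push_cast; linarith only [a3]) (by push_cast; linarith only [b3])

/-- 1 boxes -/
theorem q5f {x y s r : ℝ} (a0 : 0 ≤ x) (b0 : x ≤ 100 / 10000) (a1 : 0 ≤ y) (b1 : y ≤ 4650 / 10000)
    (a2 : 625 / 10000 ≤ s) (b2 : s ≤ 1200 / 10000) (a3 : 0 ≤ r) (b3 : r ≤ 725 / 10000) :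
    ∃ e ∈ s1 10 (RG gg1 5), 0 < e.val [x, y, s, r] := by
  have h : chkT (s1 10 (RG gg1 5)) 24
      8
      [V.of 10000 0 100, V.of 10000 0 4650, V.of 10000 625 1200, V.of 10000 0 725] =
        true := by
    decide +kernel
  exact chkT4 h (by norm_num) (by push_cast; linarith only [a0]) (by push_cast; linarith only [b0])
    (by push_cast; linarith only [a1]) (by push_cast; linarith only [b1]) (by push_cast; linarith only [a2])
    (by push_cast; linarith only [b2]) (by push_cast; linarith only [a3]) (by push_cast; linarith only [b3])

/-- 1 boxes -/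
theorem q5g {x y s r : ℝ} (a0 : 0 ≤ x) (b0 : x ≤ 100 / 10000) (a1 : 0 ≤ y) (b1 : y ≤ 4650 / 10000)
    (a2 : 625 / 10000 ≤ s) (b2 : s ≤ 1200 / 10000) (a3 : 0 ≤ r) (b3 : r ≤ 725 / 10000) :
    ∃ e ∈ s2 10 (RG gg1 5), 0 < e.val [x, y, s, r] := by
  have h : chkT (s2 10 (RG gg1 5)) 24
      8
      [V.of 10000 0 100, V.of 10000 0 4650, V.of 10000 625 1200, V.of 10000 0 725] =
        true := by
    decide +kernel
  exact chkT4 h (by norm_num) (by push_cast; linarith only [a0]) (by push_cast; linarith only [b0])
    (by push_cast; linarith only [a1]) (by push_cast; linarith only [b1]) (by push_cast; linarith only [a2])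
    (by push_cast; linarith only [b2]) (by push_cast; linarith only [a3]) (by push_cast; linarith only [b3])

/-- 36 boxes -/
theorem t4a {x y s r : ℝ} (a0 : 100 / 10000 ≤ x) (b0 : x ≤ 1000 / 10000) (a1 : 0 ≤ y) (b1 : y ≤ 5600 / 10000)
    (a2 : 1200 / 10000 ≤ s) (b2 : s ≤ 2500 / 10000) (a3 : 0 ≤ r) (b3 : r ≤ 1045 / 10000) :
    ∃ e ∈ l1a (RG gg2 4), 0 < e.val [x, y, s, r] := by
  have h : chkT (l1a (RG gg2 4)) 24
      24538824623685732668218538635542344500095798271729944304037023327148909636189524992000
      [V.of 10000 100 1000, V.of 10000 0 5600, V.of 10000 1200 2500, V.of 10000 0 1045] =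
        true := by
    decide +kernel
  exact chkT4 h (by norm_num) (by push_cast; linarith only [a0]) (by push_cast; linarith only [b0])
    (by push_cast; linarith only [a1]) (by push_cast; linarith only [b1]) (by push_cast; linarith only [a2])
    (by push_cast; linarith only [b2]) (by push_cast; linarith only [a3]) (by push_cast; linarith only [b3])

/-- 38 boxes -/
theorem t4b {x y s r : ℝ} (a0 : 100 / 10000 ≤ x) (b0 : x ≤ 1000 / 10000) (a1 : 0 ≤ y) (b1 : y ≤ 5600 / 10000)
    (a2 : 1200 / 10000 ≤ s) (b2 : s ≤ 2500 / 10000) (a3 : 0 ≤ r) (b3 : r ≤ 1045 / 10000) :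
    ∃ e ∈ l1b (RG gg2 4), 0 < e.val [x, y, s, r] := by
  have h : chkT (l1b (RG gg2 4)) 24
      1354044236258679018963938244933689628623496089602791683409295296440245188976733471854174208
      [V.of 10000 100 1000, V.of 10000 0 5600, V.of 10000 1200 2500, V.of 10000 0 1045] =
        true := by
    decide +kernel
  exact chkT4 h (by norm_num) (by push_cast; linarith only [a0]) (by push_cast; linarith only [b0])
    (by push_cast; linarith only [a1]) (by push_cast; linarith only [b1]) (by push_cast; linarith only [a2])
    (by push_cast; linarith only [b2]) (by push_cast; linarith only [a3]) (by push_cast; linarith only [b3])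

/-- 28 boxes -/
theorem t4c {x y s r : ℝ} (a0 : 100 / 10000 ≤ x) (b0 : x ≤ 1000 / 10000) (a1 : 0 ≤ y) (b1 : y ≤ 5600 / 10000)
    (a2 : 1200 / 10000 ≤ s) (b2 : s ≤ 2500 / 10000) (a3 : 0 ≤ r) (b3 : r ≤ 1045 / 10000) :
    ∃ e ∈ l2 (RG gg2 4), 0 < e.val [x, y, s, r] := by
  have h : chkT (l2 (RG gg2 4)) 24
      1235392645728696115892042432061597752713601592075892582679167242240
      [V.of 10000 100 1000, V.of 10000 0 5600, V.of 10000 1200 2500, V.of 10000 0 1045] =
        true := by
    decide +kernel
  exact chkT4 h (by norm_num) (by push_cast; linarith only [a0]) (by push_cast; linarith only [b0])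
    (by push_cast; linarith only [a1]) (by push_cast; linarith only [b1]) (by push_cast; linarith only [a2])
    (by push_cast; linarith only [b2]) (by push_cast; linarith only [a3]) (by push_cast; linarith only [b3])

/-- 1 boxes -/
theorem t4f {x y s r : ℝ} (a0 : 0 ≤ x) (b0 : x ≤ 100 / 10000) (a1 : 0 ≤ y) (b1 : y ≤ 5600 / 10000)
    (a2 : 1200 / 10000 ≤ s) (b2 : s ≤ 2500 / 10000) (a3 : 0 ≤ r) (b3 : r ≤ 1045 / 10000) :
    ∃ e ∈ s1 10 (RG gg2 4), 0 < e.val [x, y, s, r] := by
  have h : chkT (s1 10 (RG gg2 4)) 24
      8
      [V.of 10000 0 100, V.of 10000 0 5600, V.of 10000 1200 2500, V.of 10000 0 1045] =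
        true := by
    decide +kernel
  exact chkT4 h (by norm_num) (by push_cast; linarith only [a0]) (by push_cast; linarith only [b0])
    (by push_cast; linarith only [a1]) (by push_cast; linarith only [b1]) (by push_cast; linarith only [a2])
    (by push_cast; linarith only [b2]) (by push_cast; linarith only [a3]) (by push_cast; linarith only [b3])

/-- 1 boxes -/
theorem t4g {x y s r : ℝ} (a0 : 0 ≤ x) (b0 : x ≤ 100 / 10000) (a1 : 0 ≤ y) (b1 : y ≤ 5600 / 10000)
    (a2 : 1200 / 10000 ≤ s) (b2 : s ≤ 2500 / 10000) (a3 : 0 ≤ r) (b3 : r ≤ 1045 / 10000) :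
    ∃ e ∈ s2 10 (RG gg2 4), 0 < e.val [x, y, s, r] := by
  have h : chkT (s2 10 (RG gg2 4)) 24
      8
      [V.of 10000 0 100, V.of 10000 0 5600, V.of 10000 1200 2500, V.of 10000 0 1045] =
        true := by
    decide +kernel
  exact chkT4 h (by norm_num) (by push_cast; linarith only [a0]) (by push_cast; linarith only [b0])
    (by push_cast; linarith only [a1]) (by push_cast; linarith only [b1]) (by push_cast; linarith only [a2])
    (by push_cast; linarith only [b2]) (by push_cast; linarith only [a3]) (by push_cast; linarith only [b3])

/-- 12 boxes -/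
theorem t5a {x y s r : ℝ} (a0 : 100 / 10000 ≤ x) (b0 : x ≤ 1000 / 10000) (a1 : 0 ≤ y) (b1 : y ≤ 4650 / 10000)
    (a2 : 1200 / 10000 ≤ s) (b2 : s ≤ 2500 / 10000) (a3 : 0 ≤ r) (b3 : r ≤ 725 / 10000) :
    ∃ e ∈ l1a (RG gg2 5), 0 < e.val [x, y, s, r] := by
  have h : chkT (l1a (RG gg2 5)) 24
      2961382178470769000436994048
      [V.of 10000 100 1000, V.of 10000 0 4650, V.of 10000 1200 2500, V.of 10000 0 725] =
        true := by
    decide +kernel
  exact chkT4 h (by norm_num) (by push_cast; linarith only [a0]) (by push_cast; linarith only [b0])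
    (by push_cast; linarith only [a1]) (by push_cast; linarith only [b1]) (by push_cast; linarith only [a2])
    (by push_cast; linarith only [b2]) (by push_cast; linarith only [a3]) (by push_cast; linarith only [b3])

/-- 12 boxes -/
theorem t5b {x y s r : ℝ} (a0 : 100 / 10000 ≤ x) (b0 : x ≤ 1000 / 10000) (a1 : 0 ≤ y) (b1 : y ≤ 4650 / 10000)
    (a2 : 1200 / 10000 ≤ s) (b2 : s ≤ 2500 / 10000) (a3 : 0 ≤ r) (b3 : r ≤ 725 / 10000) :
    ∃ e ∈ l1b (RG gg2 5), 0 < e.val [x, y, s, r] := by
  have h : chkT (l1b (RG gg2 5)) 24
      3253906947419468359917899776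
      [V.of 10000 100 1000, V.of 10000 0 4650, V.of 10000 1200 2500, V.of 10000 0 725] =
        true := by
    decide +kernel
  exact chkT4 h (by norm_num) (by push_cast; linarith only [a0]) (by push_cast; linarith only [b0])
    (by push_cast; linarith only [a1]) (by push_cast; linarith only [b1]) (by push_cast; linarith only [a2])
    (by push_cast; linarith only [b2]) (by push_cast; linarith only [a3]) (by push_cast; linarith only [b3])

/-- 9 boxes -/
theorem t5c {x y s r : ℝ} (a0 : 100 / 10000 ≤ x) (b0 : x ≤ 1000 / 10000) (a1 : 0 ≤ y) (b1 : y ≤ 4650 / 10000)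
    (a2 : 1200 / 10000 ≤ s) (b2 : s ≤ 2500 / 10000) (a3 : 0 ≤ r) (b3 : r ≤ 725 / 10000) :
    ∃ e ∈ l2 (RG gg2 5), 0 < e.val [x, y, s, r] := by
  have h : chkT (l2 (RG gg2 5)) 24
      215709660259591761920
      [V.of 10000 100 1000, V.of 10000 0 4650, V.of 10000 1200 2500, V.of 10000 0 725] =
        true := by
    decide +kernel
  exact chkT4 h (by norm_num) (by push_cast; linarith only [a0]) (by push_cast; linarith only [b0])
    (by push_cast; linarith only [a1]) (by push_cast; linarith only [b1]) (by push_cast; linarith only [a2])
    (by push_cast; linarith only [b2]) (by push_cast; linarith only [a3]) (by push_cast; linarith only [b3])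

/-- 1 boxes -/
theorem t5f {x y s r : ℝ} (a0 : 0 ≤ x) (b0 : x ≤ 100 / 10000) (a1 : 0 ≤ y) (b1 : y ≤ 4650 / 10000)
    (a2 : 1200 / 10000 ≤ s) (b2 : s ≤ 2500 / 10000) (a3 : 0 ≤ r) (b3 : r ≤ 725 / 10000) :
    ∃ e ∈ s1 10 (RG gg2 5), 0 < e.val [x, y, s, r] := by
  have h : chkT (s1 10 (RG gg2 5)) 24
      8
      [V.of 10000 0 100, V.of 10000 0 4650, V.of 10000 1200 2500, V.of 10000 0 725] =
        true := by
    decide +kernel
  exact chkT4 h (by norm_num) (by push_cast; linarith only [a0]) (by push_cast; linarith only [b0])
    (by push_cast; linarith only [a1]) (by push_cast; linarith only [b1]) (by push_cast; linarith only [a2])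
    (by push_cast; linarith only [b2]) (by push_cast; linarith only [a3]) (by push_cast; linarith only [b3])

/-- 1 boxes -/
theorem t5g {x y s r : ℝ} (a0 : 0 ≤ x) (b0 : x ≤ 100 / 10000) (a1 : 0 ≤ y) (b1 : y ≤ 4650 / 10000)
    (a2 : 1200 / 10000 ≤ s) (b2 : s ≤ 2500 / 10000) (a3 : 0 ≤ r) (b3 : r ≤ 725 / 10000) :
    ∃ e ∈ s2 10 (RG gg2 5), 0 < e.val [x, y, s, r] := by
  have h : chkT (s2 10 (RG gg2 5)) 24
      8
      [V.of 10000 0 100, V.of 10000 0 4650, V.of 10000 1200 2500, V.of 10000 0 725] =
        true := by
    decide +kernel
  exact chkT4 h (by norm_num) (by push_cast; linarith only [a0]) (by push_cast; linarith only [b0])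
    (by push_cast; linarith only [a1]) (by push_cast; linarith only [b1]) (by push_cast; linarith only [a2])
    (by push_cast; linarith only [b2]) (by push_cast; linarith only [a3]) (by push_cast; linarith only [b3])

/-- 51 boxes -/
theorem x4a {x y s r : ℝ} (a0 : 100 / 10000 ≤ x) (b0 : x ≤ 1000 / 10000) (a1 : 0 ≤ y) (b1 : y ≤ 5600 / 10000)
    (a2 : 625 / 10000 ≤ s) (b2 : s ≤ 2500 / 10000) (a3 : 0 ≤ r) (b3 : r ≤ 1045 / 10000) :
    ∃ e ∈ l1a (RX 4), 0 < e.val [x, y, s, r] := by
  have h : chkT (l1a (RX 4)) 24
      27452860319787060436720099818894408609797354725657249095968335567017198298921662504541713863179728286240164398317773521408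
      [V.of 10000 100 1000, V.of 10000 0 5600, V.of 10000 625 2500, V.of 10000 0 1045] =
        true := by
    decide +kernel
  exact chkT4 h (by norm_num) (by push_cast; linarith only [a0]) (by push_cast; linarith only [b0])
    (by push_cast; linarith only [a1]) (by push_cast; linarith only [b1]) (by push_cast; linarith only [a2])
    (by push_cast; linarith only [b2]) (by push_cast; linarith only [a3]) (by push_cast; linarith only [b3])

/-- 74 boxes -/
theorem x4b {x y s r : ℝ} (a0 : 100 / 10000 ≤ x) (b0 : x ≤ 1000 / 10000) (a1 : 0 ≤ y) (b1 : y ≤ 5600 / 10000)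
    (a2 : 625 / 10000 ≤ s) (b2 : s ≤ 2500 / 10000) (a3 : 0 ≤ r) (b3 : r ≤ 1045 / 10000) :
    ∃ e ∈ l1b (RX 4), 0 < e.val [x, y, s, r] := by
  have h : chkT (l1b (RX 4)) 24
      673142176387130105452244838772309639057775928229079649356015802270884902412094160331199222996913436630476813710376540885431262600962185920768048355383706103542707845819279737344
      [V.of 10000 100 1000, V.of 10000 0 5600, V.of 10000 625 2500, V.of 10000 0 1045] =
        true := by
    decide +kernel
  exact chkT4 h (by norm_num) (by push_cast; linarith only [a0]) (by push_cast; linarith only [b0])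
    (by push_cast; linarith only [a1]) (by push_cast; linarith only [b1]) (by push_cast; linarith only [a2])
    (by push_cast; linarith only [b2]) (by push_cast; linarith only [a3]) (by push_cast; linarith only [b3])

/-- 42 boxes -/
theorem x4c {x y s r : ℝ} (a0 : 100 / 10000 ≤ x) (b0 : x ≤ 1000 / 10000) (a1 : 0 ≤ y) (b1 : y ≤ 5600 / 10000)
    (a2 : 625 / 10000 ≤ s) (b2 : s ≤ 2500 / 10000) (a3 : 0 ≤ r) (b3 : r ≤ 1045 / 10000) :
    ∃ e ∈ l2 (RX 4), 0 < e.val [x, y, s, r] := by
  have h : chkT (l2 (RX 4)) 24
      6360174496096912085264122080706098958972302175351997659108821893777652584964309330112615406539637248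
      [V.of 10000 100 1000, V.of 10000 0 5600, V.of 10000 625 2500, V.of 10000 0 1045] =
        true := by
    decide +kernel
  exact chkT4 h (by norm_num) (by push_cast; linarith only [a0]) (by push_cast; linarith only [b0])
    (by push_cast; linarith only [a1]) (by push_cast; linarith only [b1]) (by push_cast; linarith only [a2])
    (by push_cast; linarith only [b2]) (by push_cast; linarith only [a3]) (by push_cast; linarith only [b3])

/-- 12 boxes -/
theorem x4d {x y s r : ℝ} (a0 : 100 / 10000 ≤ x) (b0 : x ≤ 1000 / 10000) (a1 : 0 ≤ y) (b1 : y ≤ 5600 / 10000)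
    (a2 : 625 / 10000 ≤ s) (b2 : s ≤ 2500 / 10000) (a3 : 0 ≤ r) (b3 : r ≤ 1045 / 10000) :
    ∃ e ∈ l3 (RX 4), 0 < e.val [x, y, s, r] := by
  have h : chkT (l3 (RX 4)) 24
      3956212255356581724612010688
      [V.of 10000 100 1000, V.of 10000 0 5600, V.of 10000 625 2500, V.of 10000 0 1045] =
        true := by
    decide +kernel
  exact chkT4 h (by norm_num) (by push_cast; linarith only [a0]) (by push_cast; linarith only [b0])
    (by push_cast; linarith only [a1]) (by push_cast; linarith only [b1]) (by push_cast; linarith only [a2])
    (by push_cast; linarith only [b2]) (by push_cast; linarith only [a3]) (by push_cast; linarith only [b3])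

/-- 10 boxes -/
theorem x4e {x y s r : ℝ} (a0 : 100 / 10000 ≤ x) (b0 : x ≤ 1000 / 10000) (a1 : 0 ≤ y) (b1 : y ≤ 5600 / 10000)
    (a2 : 625 / 10000 ≤ s) (b2 : s ≤ 2500 / 10000) (a3 : 0 ≤ r) (b3 : r ≤ 1045 / 10000) :
    ∃ e ∈ l1c (RX 4), 0 < e.val [x, y, s, r] := by
  have h : chkT (l1c (RX 4)) 24
      65404199177456544916176
      [V.of 10000 100 1000, V.of 10000 0 5600, V.of 10000 625 2500, V.of 10000 0 1045] =
        true := by
    decide +kernel
  exact chkT4 h (by norm_num) (by push_cast; linarith only [a0]) (by push_cast; linarith only [b0])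
    (by push_cast; linarith only [a1]) (by push_cast; linarith only [b1]) (by push_cast; linarith only [a2])
    (by push_cast; linarith only [b2]) (by push_cast; linarith only [a3]) (by push_cast; linarith only [b3])

/-- 3 boxes -/
theorem x4f {x y s r : ℝ} (a0 : 0 ≤ x) (b0 : x ≤ 100 / 10000) (a1 : 0 ≤ y) (b1 : y ≤ 5600 / 10000)
    (a2 : 625 / 10000 ≤ s) (b2 : s ≤ 2500 / 10000) (a3 : 0 ≤ r) (b3 : r ≤ 1045 / 10000) :
    ∃ e ∈ s1 10 (RX 4), 0 < e.val [x, y, s, r] := by
  have h : chkT (s1 10 (RX 4)) 24
      559138
      [V.of 10000 0 100, V.of 10000 0 5600, V.of 10000 625 2500, V.of 10000 0 1045] =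
        true := by
    decide +kernel
  exact chkT4 h (by norm_num) (by push_cast; linarith only [a0]) (by push_cast; linarith only [b0])
    (by push_cast; linarith only [a1]) (by push_cast; linarith only [b1]) (by push_cast; linarith only [a2])
    (by push_cast; linarith only [b2]) (by push_cast; linarith only [a3]) (by push_cast; linarith only [b3])

/-- 3 boxes -/
theorem x4g {x y s r : ℝ} (a0 : 0 ≤ x) (b0 : x ≤ 100 / 10000) (a1 : 0 ≤ y) (b1 : y ≤ 5600 / 10000)
    (a2 : 625 / 10000 ≤ s) (b2 : s ≤ 2500 / 10000) (a3 : 0 ≤ r) (b3 : r ≤ 1045 / 10000) :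
    ∃ e ∈ s2 10 (RX 4), 0 < e.val [x, y, s, r] := by
  have h : chkT (s2 10 (RX 4)) 24
      563250
      [V.of 10000 0 100, V.of 10000 0 5600, V.of 10000 625 2500, V.of 10000 0 1045] =
        true := by
    decide +kernel
  exact chkT4 h (by norm_num) (by push_cast; linarith only [a0]) (by push_cast; linarith only [b0])
    (by push_cast; linarith only [a1]) (by push_cast; linarith only [b1]) (by push_cast; linarith only [a2])
    (by push_cast; linarith only [b2]) (by push_cast; linarith only [a3]) (by push_cast; linarith only [b3])

/-- 28 boxes -/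
theorem x5a {x y s r : ℝ} (a0 : 100 / 10000 ≤ x) (b0 : x ≤ 1000 / 10000) (a1 : 0 ≤ y) (b1 : y ≤ 4650 / 10000)
    (a2 : 625 / 10000 ≤ s) (b2 : s ≤ 2500 / 10000) (a3 : 0 ≤ r) (b3 : r ≤ 725 / 10000) :
    ∃ e ∈ l1a (RX 5), 0 < e.val [x, y, s, r] := by
  have h : chkT (l1a (RX 5)) 24
      1119612652929196557636755759911449030660848288853334097366797648384
      [V.of 10000 100 1000, V.of 10000 0 4650, V.of 10000 625 2500, V.of 10000 0 725] =
        true := by
    decide +kernel
  exact chkT4 h (by norm_num) (by push_cast; linarith only [a0]) (by push_cast; linarith only [b0])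
    (by push_cast; linarith only [a1]) (by push_cast; linarith only [b1]) (by push_cast; linarith only [a2])
    (by push_cast; linarith only [b2]) (by push_cast; linarith only [a3]) (by push_cast; linarith only [b3])

/-- 43 boxes -/
theorem x5b {x y s r : ℝ} (a0 : 100 / 10000 ≤ x) (b0 : x ≤ 1000 / 10000) (a1 : 0 ≤ y) (b1 : y ≤ 4650 / 10000)
    (a2 : 625 / 10000 ≤ s) (b2 : s ≤ 2500 / 10000) (a3 : 0 ≤ r) (b3 : r ≤ 725 / 10000) :
    ∃ e ∈ l1b (RX 5), 0 < e.val [x, y, s, r] := by
  have h : chkT (l1b (RX 5)) 24
      1488220482719540913631203649238611317689919512988495241311499564492914120345274045877450754273414480384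
      [V.of 10000 100 1000, V.of 10000 0 4650, V.of 10000 625 2500, V.of 10000 0 725] =
        true := by
    decide +kernel
  exact chkT4 h (by norm_num) (by push_cast; linarith only [a0]) (by push_cast; linarith only [b0])
    (by push_cast; linarith only [a1]) (by push_cast; linarith only [b1]) (by push_cast; linarith only [a2])
    (by push_cast; linarith only [b2]) (by push_cast; linarith only [a3]) (by push_cast; linarith only [b3])

/-- 25 boxes -/
theorem x5c {x y s r : ℝ} (a0 : 100 / 10000 ≤ x) (b0 : x ≤ 1000 / 10000) (a1 : 0 ≤ y) (b1 : y ≤ 4650 / 10000)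
    (a2 : 625 / 10000 ≤ s) (b2 : s ≤ 2500 / 10000) (a3 : 0 ≤ r) (b3 : r ≤ 725 / 10000) :
    ∃ e ∈ l2 (RX 5), 0 < e.val [x, y, s, r] := by
  have h : chkT (l2 (RX 5)) 24
      72989132476914222427013943570756564103064196875212081463808
      [V.of 10000 100 1000, V.of 10000 0 4650, V.of 10000 625 2500, V.of 10000 0 725] =
        true := by
    decide +kernel
  exact chkT4 h (by norm_num) (by push_cast; linarith only [a0]) (by push_cast; linarith only [b0])
    (by push_cast; linarith only [a1]) (by push_cast; linarith only [b1]) (by push_cast; linarith only [a2])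
    (by push_cast; linarith only [b2]) (by push_cast; linarith only [a3]) (by push_cast; linarith only [b3])

/-- 7 boxes -/
theorem x5d {x y s r : ℝ} (a0 : 100 / 10000 ≤ x) (b0 : x ≤ 1000 / 10000) (a1 : 0 ≤ y) (b1 : y ≤ 4650 / 10000)
    (a2 : 625 / 10000 ≤ s) (b2 : s ≤ 2500 / 10000) (a3 : 0 ≤ r) (b3 : r ≤ 725 / 10000) :
    ∃ e ∈ l3 (RX 5), 0 < e.val [x, y, s, r] := by
  have h : chkT (l3 (RX 5)) 24
      3598158378640064
      [V.of 10000 100 1000, V.of 10000 0 4650, V.of 10000 625 2500, V.of 10000 0 725] =
        true := by
    decide +kernel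
  exact chkT4 h (by norm_num) (by push_cast; linarith only [a0]) (by push_cast; linarith only [b0])
    (by push_cast; linarith only [a1]) (by push_cast; linarith only [b1]) (by push_cast; linarith only [a2])
    (by push_cast; linarith only [b2]) (by push_cast; linarith only [a3]) (by push_cast; linarith only [b3])

/-- 7 boxes -/
theorem x5e {x y s r : ℝ} (a0 : 100 / 10000 ≤ x) (b0 : x ≤ 1000 / 10000) (a1 : 0 ≤ y) (b1 : y ≤ 4650 / 10000)
    (a2 : 625 / 10000 ≤ s) (b2 : s ≤ 2500 / 10000) (a3 : 0 ≤ r) (b3 : r ≤ 725 / 10000) :
    ∃ e ∈ l1c (RX 5), 0 < e.val [x, y, s, r] := by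
  have h : chkT (l1c (RX 5)) 24
      3898394058695376
      [V.of 10000 100 1000, V.of 10000 0 4650, V.of 10000 625 2500, V.of 10000 0 725] =
        true := by
    decide +kernel
  exact chkT4 h (by norm_num) (by push_cast; linarith only [a0]) (by push_cast; linarith only [b0])
    (by push_cast; linarith only [a1]) (by push_cast; linarith only [b1]) (by push_cast; linarith only [a2])
    (by push_cast; linarith only [b2]) (by push_cast; linarith only [a3]) (by push_cast; linarith only [b3])

/-- 3 boxes -/
theorem x5f {x y s r : ℝ} (a0 : 0 ≤ x) (b0 : x ≤ 100 / 10000) (a1 : 0 ≤ y) (b1 : y ≤ 4650 / 10000)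
    (a2 : 625 / 10000 ≤ s) (b2 : s ≤ 2500 / 10000) (a3 : 0 ≤ r) (b3 : r ≤ 725 / 10000) :
    ∃ e ∈ s1 10 (RX 5), 0 < e.val [x, y, s, r] := by
  have h : chkT (s1 10 (RX 5)) 24
      559122
      [V.of 10000 0 100, V.of 10000 0 4650, V.of 10000 625 2500, V.of 10000 0 725] =
        true := by
    decide +kernel
  exact chkT4 h (by norm_num) (by push_cast; linarith only [a0]) (by push_cast; linarith only [b0])
    (by push_cast; linarith only [a1]) (by push_cast; linarith only [b1]) (by push_cast; linarith only [a2])
    (by push_cast; linarith only [b2]) (by push_cast; linarith only [a3]) (by push_cast; linarith only [b3])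

/-- 2 boxes -/
theorem x5g {x y s r : ℝ} (a0 : 0 ≤ x) (b0 : x ≤ 100 / 10000) (a1 : 0 ≤ y) (b1 : y ≤ 4650 / 10000)
    (a2 : 625 / 10000 ≤ s) (b2 : s ≤ 2500 / 10000) (a3 : 0 ≤ r) (b3 : r ≤ 725 / 10000) :
    ∃ e ∈ s2 10 (RX 5), 0 < e.val [x, y, s, r] := by
  have h : chkT (s2 10 (RX 5)) 24
      2194
      [V.of 10000 0 100, V.of 10000 0 4650, V.of 10000 625 2500, V.of 10000 0 725] =
        true := by
    decide +kernel
  exact chkT4 h (by norm_num) (by push_cast; linarith only [a0]) (by push_cast; linarith only [b0])
    (by push_cast; linarith only [a1]) (by push_cast; linarith only [b1]) (by push_cast; linarith only [a2])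
    (by push_cast; linarith only [b2]) (by push_cast; linarith only [a3]) (by push_cast; linarith only [b3])

/-- 9 boxes -/
theorem fa {x y s r : ℝ} (a0 : 100 / 10000 ≤ x) (b0 : x ≤ 1000 / 10000) (a1 : 0 ≤ y) (b1 : y ≤ 5600 / 10000)
    (a2 : 0 ≤ s) (b2 : s ≤ 2500 / 10000) (a3 : 0 ≤ r) (b3 : r ≤ 1045 / 10000) :
    ∃ e ∈ [fD], 0 < e.val [x, y, s, r] := by
  have h : chkT ([fD]) 24
      156905560630763225088
      [V.of 10000 100 1000, V.of 10000 0 5600, V.of 10000 0 2500, V.of 10000 0 1045] =
        true := by
    decide +kernel
  exact chkT4 h (by norm_num) (by push_cast; linarith only [a0]) (by push_cast; linarith only [b0])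
    (by push_cast; linarith only [a1]) (by push_cast; linarith only [b1]) (by push_cast; linarith only [a2])
    (by push_cast; linarith only [b2]) (by push_cast; linarith only [a3]) (by push_cast; linarith only [b3])

/-- 1 boxes -/
theorem fb {x y s r : ℝ} (a0 : 0 ≤ x) (b0 : x ≤ 100 / 10000) (a1 : 0 ≤ y) (b1 : y ≤ 5600 / 10000)
    (a2 : 0 ≤ s) (b2 : s ≤ 2500 / 10000) (a3 : 0 ≤ r) (b3 : r ≤ 1045 / 10000) :
    ∃ e ∈ [fS 10], 0 < e.val [x, y, s, r] := by
  have h : chkT ([fS 10]) 24
      8
      [V.of 10000 0 100, V.of 10000 0 5600, V.of 10000 0 2500, V.of 10000 0 1045] =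
        true := by
    decide +kernel
  exact chkT4 h (by norm_num) (by push_cast; linarith only [a0]) (by push_cast; linarith only [b0])
    (by push_cast; linarith only [a1]) (by push_cast; linarith only [b1]) (by push_cast; linarith only [a2])
    (by push_cast; linarith only [b2]) (by push_cast; linarith only [a3]) (by push_cast; linarith only [b3])

end LRC

namespace LR

open LRC

variable {m x s ρ : ℝ} {w ζ : ℂ}

/-- **Flat part.** -/
theorem rr_flat (hw : W x m w) (hz : ZF ζ) (hm : 0 ≤ m) (hm' : m ≤ 56 / 100)
    (hx : x ≤ 1 / 10) : 0 < S4 m w ζ := by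
  have x0 := hw.pos
  have z0 := hz.lo
  have z1 := hz.hi
  have z2 := hz.pos
  have z3 := hz.cap
  exact keyF hw hz hm hx
    (fun h => fa (by linarith only [h]) (by linarith only [hx]) hm (by linarith only [hm']) (by linarith only [z1]) (by linarith only [z0])
      (by linarith only [z2]) (by linarith only [z3]))
    (fun h => fb (by linarith only [x0]) (by linarith only [h]) hm (by linarith only [hm']) (by linarith only [z1]) (by linarith only [z0])
      (by linarith only [z2]) (by linarith only [z3]))

/-- **Ramp, `b = 4`, other hinge `≤ 1/2`.** -/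
theorem rr_P4 (hw : W x m w) (hz : ZR s ρ ζ) (hρ : ρ ≤ 1045 / 10000) (hm : 0 ≤ m)
    (hm' : m ≤ 56 / 100) (hx : x ≤ 1 / 10) (hF : FP 4 s ρ w ζ) : 0 < S4 m w ζ := by
  have x0 := hw.pos
  have s0 := hz.lo
  have s1 := hz.hi
  have r0 := hz.pos
  unfold FP at hF
  unfold gE at hF
  split_ifs at hF with h12
  · have hR : Dm (4 * ρ) w ζ ≤ (RG gg1 4).val [x, m, s, ρ] := by
      simp only [RG, RX, gg1, gg2, LRC.hb, E.val, NumIs.lkR]
      push_cast
      linarith only [hF]
    rcases le_total (1 / 100) x with h | h
    · refine key hw hz hm hx hR (fun _ _ _ => ?_) (fun _ _ h5 => ?_) (fun _ _ => ?_) (fun _ _ => ?_)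
        (fun _ _ h5 => ?_)
      · exact q4a (by linarith only [h]) (by linarith only [hx]) hm (by linarith only [hm']) (by linarith only [s0])
          (by linarith only [h12]) (by linarith only [r0]) (by linarith only [hρ])
      · exact q4e (by linarith only [h]) (by linarith only [hx]) hm (by linarith only [hm']) (by linarith only [s0])
          (by linarith only [h12]) (by linarith only [r0]) (by linarith only [hρ])
      · exact q4b (by linarith only [h]) (by linarith only [hx]) hm (by linarith only [hm']) (by linarith only [s0])
          (by linarith only [h12]) (by linarith only [r0]) (by linarith only [hρ])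
      · exact q4c (by linarith only [h]) (by linarith only [hx]) hm (by linarith only [hm']) (by linarith only [s0])
          (by linarith only [h12]) (by linarith only [r0]) (by linarith only [hρ])
      · exact q4d (by linarith only [h]) (by linarith only [hx]) hm (by linarith only [hm']) (by linarith only [s0])
          (by linarith only [h12]) (by linarith only [r0]) (by linarith only [hρ])
    · refine keyS (n := 10) hw hz hm (by push_cast; linarith only [h]) (by norm_num) hR (fun _ => ?_)
        (fun _ => ?_)
      · exact q4f (by linarith only [x0]) (by linarith only [h]) hm (by linarith only [hm']) (by linarith only [s0])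
          (by linarith only [h12]) (by linarith only [r0]) (by linarith only [hρ])
      · exact q4g (by linarith only [x0]) (by linarith only [h]) hm (by linarith only [hm']) (by linarith only [s0])
          (by linarith only [h12]) (by linarith only [r0]) (by linarith only [hρ])
  · have hR : Dm (4 * ρ) w ζ ≤ (RG gg2 4).val [x, m, s, ρ] := by
      simp only [RG, RX, gg1, gg2, LRC.hb, E.val, NumIs.lkR]
      push_cast
      linarith only [hF]
    rcases le_total (1 / 100) x with h | h
    · refine key hw hz hm hx hR (fun _ _ _ => ?_) (fun _ _ h5 => ?_) (fun _ _ => ?_) (fun _ _ => ?_)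
        (fun _ _ h5 => ?_)
      · exact t4a (by linarith only [h]) (by linarith only [hx]) hm (by linarith only [hm']) (by linarith only [h12])
          (by linarith only [s1]) (by linarith only [r0]) (by linarith only [hρ])
      · exfalso
        linarith only [hx, x0, h12, h5]
      · exact t4b (by linarith only [h]) (by linarith only [hx]) hm (by linarith only [hm']) (by linarith only [h12])
          (by linarith only [s1]) (by linarith only [r0]) (by linarith only [hρ])
      · exact t4c (by linarith only [h]) (by linarith only [hx]) hm (by linarith only [hm']) (by linarith only [h12])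
          (by linarith only [s1]) (by linarith only [r0]) (by linarith only [hρ])
      · exfalso
        linarith only [hx, x0, h12, h5]
    · refine keyS (n := 10) hw hz hm (by push_cast; linarith only [h]) (by norm_num) hR (fun _ => ?_)
        (fun _ => ?_)
      · exact t4f (by linarith only [x0]) (by linarith only [h]) hm (by linarith only [hm']) (by linarith only [h12])
          (by linarith only [s1]) (by linarith only [r0]) (by linarith only [hρ])
      · exact t4g (by linarith only [x0]) (by linarith only [h]) hm (by linarith only [hm']) (by linarith only [h12])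
          (by linarith only [s1]) (by linarith only [r0]) (by linarith only [hρ])

/-- **Ramp, `b ≥ 5`, other hinge `≤ 1/2`.** -/
theorem rr_P5 (hw : W x m w) (hz : ZR s ρ ζ) (hρ : ρ ≤ 725 / 10000) (hm : 0 ≤ m)
    (hm' : m ≤ 465 / 1000) (hx : x ≤ 1 / 10) (hF : FP 5 s ρ w ζ) : 0 < S4 m w ζ := by
  have x0 := hw.pos
  have s0 := hz.lo
  have s1 := hz.hi
  have r0 := hz.pos
  unfold FP at hF
  unfold gE at hF
  split_ifs at hF with h12
  · have hR : Dm (4 * ρ) w ζ ≤ (RG gg1 5).val [x, m, s, ρ] := by
      simp only [RG, RX, gg1, gg2, LRC.hb, E.val, NumIs.lkR]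
      push_cast
      linarith only [hF]
    rcases le_total (1 / 100) x with h | h
    · refine key hw hz hm hx hR (fun _ _ _ => ?_) (fun _ _ h5 => ?_) (fun _ _ => ?_) (fun _ _ => ?_)
        (fun _ _ h5 => ?_)
      · exact q5a (by linarith only [h]) (by linarith only [hx]) hm (by linarith only [hm']) (by linarith only [s0])
          (by linarith only [h12]) (by linarith only [r0]) (by linarith only [hρ])
      · exact q5e (by linarith only [h]) (by linarith only [hx]) hm (by linarith only [hm']) (by linarith only [s0])
          (by linarith only [h12]) (by linarith only [r0]) (by linarith only [hρ])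
      · exact q5b (by linarith only [h]) (by linarith only [hx]) hm (by linarith only [hm']) (by linarith only [s0])
          (by linarith only [h12]) (by linarith only [r0]) (by linarith only [hρ])
      · exact q5c (by linarith only [h]) (by linarith only [hx]) hm (by linarith only [hm']) (by linarith only [s0])
          (by linarith only [h12]) (by linarith only [r0]) (by linarith only [hρ])
      · exact q5d (by linarith only [h]) (by linarith only [hx]) hm (by linarith only [hm']) (by linarith only [s0])
          (by linarith only [h12]) (by linarith only [r0]) (by linarith only [hρ])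
    · refine keyS (n := 10) hw hz hm (by push_cast; linarith only [h]) (by norm_num) hR (fun _ => ?_)
        (fun _ => ?_)
      · exact q5f (by linarith only [x0]) (by linarith only [h]) hm (by linarith only [hm']) (by linarith only [s0])
          (by linarith only [h12]) (by linarith only [r0]) (by linarith only [hρ])
      · exact q5g (by linarith only [x0]) (by linarith only [h]) hm (by linarith only [hm']) (by linarith only [s0])
          (by linarith only [h12]) (by linarith only [r0]) (by linarith only [hρ])
  · have hR : Dm (4 * ρ) w ζ ≤ (RG gg2 5).val [x, m, s, ρ] := by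
      simp only [RG, RX, gg1, gg2, LRC.hb, E.val, NumIs.lkR]
      push_cast
      linarith only [hF]
    rcases le_total (1 / 100) x with h | h
    · refine key hw hz hm hx hR (fun _ _ _ => ?_) (fun _ _ h5 => ?_) (fun _ _ => ?_) (fun _ _ => ?_)
        (fun _ _ h5 => ?_)
      · exact t5a (by linarith only [h]) (by linarith only [hx]) hm (by linarith only [hm']) (by linarith only [h12])
          (by linarith only [s1]) (by linarith only [r0]) (by linarith only [hρ])
      · exfalso
        linarith only [hρ, hx, r0, h12, h5]
      · exact t5b (by linarith only [h]) (by linarith only [hx]) hm (by linarith only [hm']) (by linarith only [h12])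
          (by linarith only [s1]) (by linarith only [r0]) (by linarith only [hρ])
      · exact t5c (by linarith only [h]) (by linarith only [hx]) hm (by linarith only [hm']) (by linarith only [h12])
          (by linarith only [s1]) (by linarith only [r0]) (by linarith only [hρ])
      · exfalso
        linarith only [hρ, hx, r0, h12, h5]
    · refine keyS (n := 10) hw hz hm (by push_cast; linarith only [h]) (by norm_num) hR (fun _ => ?_)
        (fun _ => ?_)
      · exact t5f (by linarith only [x0]) (by linarith only [h]) hm (by linarith only [hm']) (by linarith only [h12])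
          (by linarith only [s1]) (by linarith only [r0]) (by linarith only [hρ])
      · exact t5g (by linarith only [x0]) (by linarith only [h]) hm (by linarith only [hm']) (by linarith only [h12])
          (by linarith only [s1]) (by linarith only [r0]) (by linarith only [hρ])

/-- **Ramp, `b = 4`, any other hinge.** -/
theorem rr_X4 (hw : W x m w) (hz : ZR s ρ ζ) (hρ : ρ ≤ 1045 / 10000) (hm : 0 ≤ m)
    (hm' : m ≤ 56 / 100) (hx : x ≤ 1 / 10) (hF : FX 4 s ρ w ζ) : 0 < S4 m w ζ := by
  have x0 := hw.pos
  have s0 := hz.lo
  have s1 := hz.hi
  have r0 := hz.pos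
  unfold FX at hF
  have hR : Dm (4 * ρ) w ζ ≤ (RX 4).val [x, m, s, ρ] := by
    simp only [RG, RX, gg1, gg2, LRC.hb, E.val, NumIs.lkR]
    push_cast
    linarith only [hF]
  rcases le_total (1 / 100) x with h | h
  · refine key hw hz hm hx hR (fun _ _ _ => ?_) (fun _ _ h5 => ?_) (fun _ _ => ?_) (fun _ _ => ?_)
      (fun _ _ h5 => ?_)
    · exact x4a (by linarith only [h]) (by linarith only [hx]) hm (by linarith only [hm']) (by linarith only [s0])
        (by linarith only [s1]) (by linarith only [r0]) (by linarith only [hρ])
    · exact x4e (by linarith only [h]) (by linarith only [hx]) hm (by linarith only [hm']) (by linarith only [s0])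
        (by linarith only [s1]) (by linarith only [r0]) (by linarith only [hρ])
    · exact x4b (by linarith only [h]) (by linarith only [hx]) hm (by linarith only [hm']) (by linarith only [s0])
        (by linarith only [s1]) (by linarith only [r0]) (by linarith only [hρ])
    · exact x4c (by linarith only [h]) (by linarith only [hx]) hm (by linarith only [hm']) (by linarith only [s0])
        (by linarith only [s1]) (by linarith only [r0]) (by linarith only [hρ])
    · exact x4d (by linarith only [h]) (by linarith only [hx]) hm (by linarith only [hm']) (by linarith only [s0])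
        (by linarith only [s1]) (by linarith only [r0]) (by linarith only [hρ])
  · refine keyS (n := 10) hw hz hm (by push_cast; linarith only [h]) (by norm_num) hR (fun _ => ?_)
      (fun _ => ?_)
    · exact x4f (by linarith only [x0]) (by linarith only [h]) hm (by linarith only [hm']) (by linarith only [s0])
        (by linarith only [s1]) (by linarith only [r0]) (by linarith only [hρ])
    · exact x4g (by linarith only [x0]) (by linarith only [h]) hm (by linarith only [hm']) (by linarith only [s0])
        (by linarith only [s1]) (by linarith only [r0]) (by linarith only [hρ])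

/-- **Ramp, `b ≥ 5`, any other hinge.** -/
theorem rr_X5 (hw : W x m w) (hz : ZR s ρ ζ) (hρ : ρ ≤ 725 / 10000) (hm : 0 ≤ m)
    (hm' : m ≤ 465 / 1000) (hx : x ≤ 1 / 10) (hF : FX 5 s ρ w ζ) : 0 < S4 m w ζ := by
  have x0 := hw.pos
  have s0 := hz.lo
  have s1 := hz.hi
  have r0 := hz.pos
  unfold FX at hF
  have hR : Dm (4 * ρ) w ζ ≤ (RX 5).val [x, m, s, ρ] := by
    simp only [RG, RX, gg1, gg2, LRC.hb, E.val, NumIs.lkR]
    push_cast
    linarith only [hF]
  rcases le_total (1 / 100) x with h | h
  · refine key hw hz hm hx hR (fun _ _ _ => ?_) (fun _ _ h5 => ?_) (fun _ _ => ?_) (fun _ _ => ?_)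
      (fun _ _ h5 => ?_)
    · exact x5a (by linarith only [h]) (by linarith only [hx]) hm (by linarith only [hm']) (by linarith only [s0])
        (by linarith only [s1]) (by linarith only [r0]) (by linarith only [hρ])
    · exact x5e (by linarith only [h]) (by linarith only [hx]) hm (by linarith only [hm']) (by linarith only [s0])
        (by linarith only [s1]) (by linarith only [r0]) (by linarith only [hρ])
    · exact x5b (by linarith only [h]) (by linarith only [hx]) hm (by linarith only [hm']) (by linarith only [s0])
        (by linarith only [s1]) (by linarith only [r0]) (by linarith only [hρ])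
    · exact x5c (by linarith only [h]) (by linarith only [hx]) hm (by linarith only [hm']) (by linarith only [s0])
        (by linarith only [s1]) (by linarith only [r0]) (by linarith only [hρ])
    · exact x5d (by linarith only [h]) (by linarith only [hx]) hm (by linarith only [hm']) (by linarith only [s0])
        (by linarith only [s1]) (by linarith only [r0]) (by linarith only [hρ])
  · refine keyS (n := 10) hw hz hm (by push_cast; linarith only [h]) (by norm_num) hR (fun _ => ?_)
      (fun _ => ?_)
    · exact x5f (by linarith only [x0]) (by linarith only [h]) hm (by linarith only [hm']) (by linarith only [s0])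
        (by linarith only [s1]) (by linarith only [r0]) (by linarith only [hρ])
    · exact x5g (by linarith only [x0]) (by linarith only [h]) hm (by linarith only [hm']) (by linarith only [s0])
        (by linarith only [s1]) (by linarith only [r0]) (by linarith only [hρ])

/-- first order condition if the gap of the other hinge is nonnegative -/
def FP0 (b s ρ : ℝ) (w ζ : ℂ) : Prop :=
  -(4 * Real.pi * ρ * (2 - b * (1 - 4 * s))) + Dm (4 * ρ) w ζ ≤ 0

theorem FP0.fp {b : ℝ} (hz : ZR s ρ ζ) (h : FP0 b s ρ w ζ) : FP b s ρ w ζ := by
  have s0 := hz.lo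
  have s1 := hz.hi
  have r0 := hz.pos
  refine h.trans ?_
  apply mul_nonneg (by positivity)
  unfold gE
  split_ifs
  · norm_num
  · nlinarith only [s1, s0]

end LR

end Pool.Agent.Work.MP_b30479_gtS.G2

end

section

/-!
# Left ramps of the hinges of a ring, heights `≤ 0`, shift `π / 2`: `FP`, `b = 4`
-/

namespace Pool.Agent.Work.MP_b30479_gtS.G2

open VOL NumUs

namespace LRA

open LR
open NumIs (V)

variable {m x s ρ : ℝ} {w ζ : ℂ}

/-- 206 boxes -/
theorem c_p4a {x y s r : ℝ} (a1 : 100 / 10000 ≤ x) (b1 : x ≤ 1300 / 10000) (a2 : 0 ≤ y) (b2 : y ≤ 11500 / 10000)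
    (a3 : 625 / 10000 ≤ s) (b3 : s ≤ 1200 / 10000) (a4 : 0 ≤ r) (b4 : r ≤ 1045 / 10000) :
    ∃ e ∈ la (RP g1 4) 200 1150, 0 < e.val [x, y, s, r] := by
  have h : chkT (la (RP g1 4) 200 1150) 26
      519550739179786027661035636234514273905243533493567650593673402474610859076610407971076111056579950850072862266585026471069667611702596171686686819469857549552135103203570470897250490492654553294831994289530537206284720231763911698238678808124860890691697132144644143652871617481901695942843091776438845140198740067939927971530307654991135530348398402366494325041848837339067068477689052723303895497729777880960425122390205111439341057216937951595993263649255838974155477765000874886580055113728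
      [V.of 10000 100 1300, V.of 10000 0 11500,
        V.of 10000 625 1200, V.of 10000 0 1045] = true := by
    decide +kernel
  exact chkT4 h (by norm_num) (by push_cast; linarith only [a1]) (by push_cast; linarith only [b1])
    (by push_cast; linarith only [a2]) (by push_cast; linarith only [b2]) (by push_cast; linarith only [a3])
    (by push_cast; linarith only [b3]) (by push_cast; linarith only [a4]) (by push_cast; linarith only [b4])

theorem c_p4b_h1_q1 : Pool.Agent.Work.NumUs.runT (la (RP g2 4) 200 1150) 25
    11226436917259608141478575795226412007926630561438482382849521666283401301366050529963510052393458102990926514472265352403786674977684514120577894626010862104523112316781179136444994012343205556477914336649726991836613284763433414117393683418914753547826459443878937775793461425109466730777820315294484377227228998591106712871769507741436161052732014607592898533551663474167086164915797299190599420280452616034708389206008180739470987545393130572332556735125965721480757082476956660810031838724144100481361340377515269931869086593284761870576631497521931337387359771070403816356561437983748035363100103334831391583017264441607632691257913856741520844460962163824528804931308364938531883387831923599984351501170164567105508420860710133505429036795185908796169101407061410582176498071546968484398789437175059685183199391396542926598051282210820773446316734503127716557009812762980854353021268506251264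
    (Pool.Agent.Work.NumIs.setL 0 ([V.of 10000 100 1300, V.of 10000 0 11500, V.of 10000 1200 2500, V.of 10000 0 1045])) =
    14730041472571766318025462265412768155044372954699151537522214431619092778532222043265948577569612760698098541003734461923171706610279778463167641899750150185991013497021418254151330929327796702930446530043116568737367350076436239053650747609426820398013606229133945386563438555921725584152428105493389525483186398021925909456048191883161467725055138538201260867282814433615429979268104097233378424595581565689734853289156445865509037423814435000388910016906782520565970908469835709470365265918877168227210961750587084958995672979731712806393630029454080675101164854056510962411175261801351958081873414730442410613498192266529531733629353192316333841149968996965599230793828515745405871304400524516044040280272328497688632925624383851990801230134171154977282 := by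
  decide +kernel

theorem c_p4b_h1_q2 : Pool.Agent.Work.NumUs.runT (la (RP g2 4) 200 1150) 23
    57539224502233462179786961974268625605642081854293560693446150123512081166141492356507611631131299846476947425795837741887389478946405384621748601170899024164027396472739915055278636442686705870822056757980924096630341211236079058803323232849323517179740649332554474166263431859069240563095422287083552833918696867273148083812688249543599483300996634914848675262823493881310273356516031629817884471076490490975526770660767366662144677436775136720269179753542119220960823861210295740118614319995613938387542819338230800621076847577077003149975117302555002637113925211158245946918653366411531086257318026290790666458977313541130983334489660907485679066992066394396871995288392639630491684782814548890797032344813783194096222365720249421839067305211606074130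
    (Pool.Agent.Work.NumIs.setL 0 (Pool.Agent.Work.NumIs.setL 1 (Pool.Agent.Work.NumIs.setR 0 ([V.of 10000 100 1300, V.of 10000 0 11500, V.of 10000 1200 2500, V.of 10000 0 1045])))) =
    356521496950478552561909817090655653889765251946214955905971665832552556425847414026763586772253193634324063983377992556284812304431805480169889351832392999415227099770904523185093488464038055506243266054607371707107896640415919882677526434238076806904171188062380735375583454175008343853088486033279983997841703245309607711137896714793321595805570125115835212364677401206680823366852392478543858172955248749059448140276681654064288811960005287914869160922183052903988963037880256964577415029515958524257345219845292518690284672358913014992384214272229055366871998947312801538114554692602246994270387072836832655724450988760900875334164 := by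
  decide +kernel

theorem c_p4b_h1_q3 : Pool.Agent.Work.NumUs.runT (la (RP g2 4) 200 1150) 22
    22282593559404909535119363568165978368110328246638434744123229114534534776615463376672724173265824602145253998961124534767800769026987842510618084489524562463451693735681532699068343029002378469140204128412960731694243540025994992667345402139879800431510699253898795960973965885938021490818030377079998999865106452831850481946118544674582599737848132819739700772792337575417551460428274529908991135809703046816215508767292603379018050747500330494679322557636440806499310189867516060286088439344747407766084076240330782418142792022432063437024013392014315960429499934207050096132159668287640437141899192052302040982778186797556304708385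
    (Pool.Agent.Work.NumIs.setL 3 (Pool.Agent.Work.NumIs.setR 0 (Pool.Agent.Work.NumIs.setL 1 (Pool.Agent.Work.NumIs.setR 0 ([V.of 10000 100 1300, V.of 10000 0 11500, V.of 10000 1200 2500, V.of 10000 0 1045]))))) =
    151805421611472605245349753569305286607725031141765034827853178841356028902170030320674974604805457672432567291512667090666031485974390149736247749098928910400560648890595968001690907220542898785499548177837716435216771102560470263586312477896674162184756346102008873952478370158905851343839339292371689052905414027272997551430973904441681307111399554986834611881098152758738696314571356415602667495626205841893638700672356198368795398627873516336503534890935392888546762655437798145457804697167566601047577010183314411750429474 := by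
  decide +kernel

theorem c_p4b_h1_q4 : Pool.Agent.Work.NumUs.runT (la (RP g2 4) 200 1150) 22
    151805421611472605245349753569305286607725031141765034827853178841356028902170030320674974604805457672432567291512667090666031485974390149736247749098928910400560648890595968001690907220542898785499548177837716435216771102560470263586312477896674162184756346102008873952478370158905851343839339292371689052905414027272997551430973904441681307111399554986834611881098152758738696314571356415602667495626205841893638700672356198368795398627873516336503534890935392888546762655437798145457804697167566601047577010183314411750429473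
    (Pool.Agent.Work.NumIs.setR 3 (Pool.Agent.Work.NumIs.setR 0 (Pool.Agent.Work.NumIs.setL 1 (Pool.Agent.Work.NumIs.setR 0 ([V.of 10000 100 1300, V.of 10000 0 11500, V.of 10000 1200 2500, V.of 10000 0 1045]))))) =
    2602149179141246355544557819700268162258590865454695762931763778943919404692187263363113387239492374461169667697833127135894189795935079519561007726066523361594512350665283395676415209761 := by
  decide +kernel

theorem c_p4b_h1_q5 : Pool.Agent.Work.NumUs.runT (la (RP g2 4) 200 1150) 24
    2602149179141246355544557819700268162258590865454695762931763778943919404692187263363113387239492374461169667697833127135894189795935079519561007726066523361594512350665283395676415209760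
    (Pool.Agent.Work.NumIs.setR 1 (Pool.Agent.Work.NumIs.setR 0 ([V.of 10000 100 1300, V.of 10000 0 11500, V.of 10000 1200 2500, V.of 10000 0 1045]))) =
    1 := by
  decide +kernel

/-- 374 boxes -/
theorem c_p4b {x y s r : ℝ} (a1 : 100 / 10000 ≤ x) (b1 : x ≤ 1300 / 10000) (a2 : 0 ≤ y) (b2 : y ≤ 11500 / 10000)
    (a3 : 1200 / 10000 ≤ s) (b3 : s ≤ 2500 / 10000) (a4 : 0 ≤ r) (b4 : r ≤ 1045 / 10000) :
    ∃ e ∈ la (RP g2 4) 200 1150, 0 < e.val [x, y, s, r] := by
  have h : chkT (la (RP g2 4) 200 1150) 26
      179622990676153730263657212723622592126826088983015718125592346660534420821856808479416160838295329647854824231556245638460586799642952225929246314016173793672369797068498866183119904197491288903646629386395631869385812556214934625878298934702636056765223351102063004412695382801751467692445125044711750035635663977457707405948312123862978576843712233721486376536826615586673378638652756787049590724487241856555334227296130891831535800726290089157320907762015451543692113319631306572960509419586305607701781446040244318909905385492556189929226103960350901398197756337126461061704983007739968565809601653357302265328276231065722123060126621707864333511375394621192460878900933839016510134205310777599749624018722633073688134733771362136086864588722974540738705622512982569314823969144751495750380630994800954962931190262344686825568820515373132375141067752050043464912157004207693669648340296100020224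
      [V.of 10000 100 1300, V.of 10000 0 11500,
        V.of 10000 1200 2500, V.of 10000 0 1045] = true :=
      Pool.Agent.Work.NumUs.chkT_of (Pool.Agent.Work.NumUs.runT_split rfl rfl rfl
        c_p4b_h1_q1
        (Pool.Agent.Work.NumUs.runT_split rfl rfl rfl
          (Pool.Agent.Work.NumUs.runT_split rfl rfl rfl
            c_p4b_h1_q2
            (Pool.Agent.Work.NumUs.runT_split rfl rfl rfl
              c_p4b_h1_q3
              c_p4b_h1_q4))
          c_p4b_h1_q5))
  exact chkT4 h (by norm_num) (by push_cast; linarith only [a1]) (by push_cast; linarith only [b1])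
    (by push_cast; linarith only [a2]) (by push_cast; linarith only [b2]) (by push_cast; linarith only [a3])
    (by push_cast; linarith only [b3]) (by push_cast; linarith only [a4]) (by push_cast; linarith only [b4])

/-- 4 boxes -/
theorem c_p4c {x y s r : ℝ} (a1 : 0 ≤ x) (b1 : x ≤ 100 / 10000) (a2 : 0 ≤ y) (b2 : y ≤ 11500 / 10000)
    (a3 : 625 / 10000 ≤ s) (b3 : s ≤ 1200 / 10000) (a4 : 0 ≤ r) (b4 : r ≤ 1045 / 10000) :
    ∃ e ∈ ls 10 (RP g1 4) 200, 0 < e.val [x, y, s, r] := by
  have h : chkT (ls 10 (RP g1 4) 200) 18
      143163698
      [V.of 10000 0 100, V.of 10000 0 11500,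
        V.of 10000 625 1200, V.of 10000 0 1045] = true := by
    decide +kernel
  exact chkT4 h (by norm_num) (by push_cast; linarith only [a1]) (by push_cast; linarith only [b1])
    (by push_cast; linarith only [a2]) (by push_cast; linarith only [b2]) (by push_cast; linarith only [a3])
    (by push_cast; linarith only [b3]) (by push_cast; linarith only [a4]) (by push_cast; linarith only [b4])

/-- 2 boxes -/
theorem c_p4d {x y s r : ℝ} (a1 : 0 ≤ x) (b1 : x ≤ 100 / 10000) (a2 : 0 ≤ y) (b2 : y ≤ 11500 / 10000)
    (a3 : 1200 / 10000 ≤ s) (b3 : s ≤ 2500 / 10000) (a4 : 0 ≤ r) (b4 : r ≤ 1045 / 10000) :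
    ∃ e ∈ ls 10 (RP g2 4) 200, 0 < e.val [x, y, s, r] := by
  have h : chkT (ls 10 (RP g2 4) 200) 18
      2194
      [V.of 10000 0 100, V.of 10000 0 11500,
        V.of 10000 1200 2500, V.of 10000 0 1045] = true := by
    decide +kernel
  exact chkT4 h (by norm_num) (by push_cast; linarith only [a1]) (by push_cast; linarith only [b1])
    (by push_cast; linarith only [a2]) (by push_cast; linarith only [b2]) (by push_cast; linarith only [a3])
    (by push_cast; linarith only [b3]) (by push_cast; linarith only [a4]) (by push_cast; linarith only [b4])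

end LRA

namespace LR

open LRA

variable {m x s ρ : ℝ} {w ζ : ℂ}

/-- **Ramp, `b = 4`, other hinge `≤ 1/2`.** -/
theorem lo_P4 (hw : W x m w) (hz : ZR s ρ ζ) (hρ : ρ ≤ 1045 / 10000) (hm : m ≤ 0)
    (hm' : -(115 / 100) ≤ m) (hx : x ≤ 13 / 100) (ht : -(115 / 1000) ≤ m * x)
    (hF : FP 4 s ρ w ζ) : 2 / 10 ≤ S4 m w ζ + Real.pi / 2 * m := by
  have x0 := hw.pos
  have s0 := hz.lo
  have s1 := hz.hi
  have r0 := hz.pos
  unfold FP gE at hF
  rcases lt_or_ge s (12 / 100) with hs | hs
  · rw [if_pos hs] at hF
    have hR : Dm (4 * ρ) w ζ ≤ (LRA.RP LRA.g1 4).val [x, -m, s, ρ] := by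
      simp only [LRA.RP, LRA.hb, LRA.g1, E.val, NumIs.lkR]
      push_cast
      linarith only [hF]
    rcases le_total (1 / 100) x with h | h
    · have key := la_key (k := 200) (t := 1150) hw hz hm hx (by push_cast; linarith only [ht]) hR
        (c_p4a (by linarith only [h]) (by linarith only [hx]) (by linarith only [hm]) (by linarith only [hm']) (by linarith only [s0])
          (by linarith only [hs]) (by linarith only [r0]) (by linarith only [hρ]))
      push_cast at key
      linarith only [key]
    · have key := ls_key (n := 10) (k := 200) hw hz hm (by push_cast; linarith only [h]) (by norm_num) hR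
        (c_p4c (by linarith only [x0]) (by linarith only [h]) (by linarith only [hm]) (by linarith only [hm']) (by linarith only [s0])
          (by linarith only [hs]) (by linarith only [r0]) (by linarith only [hρ]))
      push_cast at key
      linarith only [key]
  · rw [if_neg (not_lt.2 hs)] at hF
    have hR : Dm (4 * ρ) w ζ ≤ (LRA.RP LRA.g2 4).val [x, -m, s, ρ] := by
      simp only [LRA.RP, LRA.hb, LRA.g2, E.val, NumIs.lkR]
      push_cast
      linarith only [hF]
    rcases le_total (1 / 100) x with h | h
    · have key := la_key (k := 200) (t := 1150) hw hz hm hx (by push_cast; linarith only [ht]) hR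
        (c_p4b (by linarith only [h]) (by linarith only [hx]) (by linarith only [hm]) (by linarith only [hm']) (by linarith only [hs])
          (by linarith only [s1]) (by linarith only [r0]) (by linarith only [hρ]))
      push_cast at key
      linarith only [key]
    · have key := ls_key (n := 10) (k := 200) hw hz hm (by push_cast; linarith only [h]) (by norm_num) hR
        (c_p4d (by linarith only [x0]) (by linarith only [h]) (by linarith only [hm]) (by linarith only [hm']) (by linarith only [hs])
          (by linarith only [s1]) (by linarith only [r0]) (by linarith only [hρ]))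
      push_cast at key
      linarith only [key]

end LR

end Pool.Agent.Work.MP_b30479_gtS.G2

end

section

/-!
# Left ramps of the hinges of a ring, heights `≤ 0`, shift `π / 2`: `FP`, `b = 5`
-/

namespace Pool.Agent.Work.MP_b30479_gtS.G2

open VOL NumUs

namespace LRA

open LR
open NumIs (V)

variable {m x s ρ : ℝ} {w ζ : ℂ}

/-- 101 boxes -/
theorem c_p5a {x y s r : ℝ} (a1 : 100 / 10000 ≤ x) (b1 : x ≤ 1300 / 10000) (a2 : 0 ≤ y) (b2 : y ≤ 13100 / 10000)
    (a3 : 625 / 10000 ≤ s) (b3 : s ≤ 1200 / 10000) (a4 : 0 ≤ r) (b4 : r ≤ 725 / 10000) :
    ∃ e ∈ la (RP g1 5) 200 1310, 0 < e.val [x, y, s, r] := by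
  have h : chkT (la (RP g1 5) 200 1310) 26
      70891004489188533306862073727944040141184292206746578066275165100082333775233348880542931040811289582177416981386932686715806237762132363970844506162153931206982468500564843698742142483525132626654791884303465384627921268872988002573437960192
      [V.of 10000 100 1300, V.of 10000 0 13100,
        V.of 10000 625 1200, V.of 10000 0 725] = true := by
    decide +kernel
  exact chkT4 h (by norm_num) (by push_cast; linarith only [a1]) (by push_cast; linarith only [b1])
    (by push_cast; linarith only [a2]) (by push_cast; linarith only [b2]) (by push_cast; linarith only [a3])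
    (by push_cast; linarith only [b3]) (by push_cast; linarith only [a4]) (by push_cast; linarith only [b4])

/-- 173 boxes -/
theorem c_p5b {x y s r : ℝ} (a1 : 100 / 10000 ≤ x) (b1 : x ≤ 1300 / 10000) (a2 : 0 ≤ y) (b2 : y ≤ 13100 / 10000)
    (a3 : 1200 / 10000 ≤ s) (b3 : s ≤ 2500 / 10000) (a4 : 0 ≤ r) (b4 : r ≤ 725 / 10000) :
    ∃ e ∈ la (RP g2 5) 200 1310, 0 < e.val [x, y, s, r] := by
  have h : chkT (la (RP g2 5) 200 1310) 26
      15780365660723392080746107080136171509473762522308654034162750633215385549799791243503014296556740550702828511514449611960319584583320898847683960361469433429628104007873944372256788751733544993452525769394625614469120433100863080958253751486846866760943968181811486462899681375009772532946552993024757264796087485426388489184578945524457428298583109261187650286196972404857873546217446396086942121988387822208352256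
      [V.of 10000 100 1300, V.of 10000 0 13100,
        V.of 10000 1200 2500, V.of 10000 0 725] = true := by
    decide +kernel
  exact chkT4 h (by norm_num) (by push_cast; linarith only [a1]) (by push_cast; linarith only [b1])
    (by push_cast; linarith only [a2]) (by push_cast; linarith only [b2]) (by push_cast; linarith only [a3])
    (by push_cast; linarith only [b3]) (by push_cast; linarith only [a4]) (by push_cast; linarith only [b4])

/-- 7 boxes -/
theorem c_p5c {x y s r : ℝ} (a1 : 0 ≤ x) (b1 : x ≤ 100 / 10000) (a2 : 0 ≤ y) (b2 : y ≤ 13100 / 10000)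
    (a3 : 625 / 10000 ≤ s) (b3 : s ≤ 1200 / 10000) (a4 : 0 ≤ r) (b4 : r ≤ 725 / 10000) :
    ∃ e ∈ ls 10 (RP g1 5) 200, 0 < e.val [x, y, s, r] := by
  have h : chkT (ls 10 (RP g1 5) 200) 18
      2683364973750290
      [V.of 10000 0 100, V.of 10000 0 13100,
        V.of 10000 625 1200, V.of 10000 0 725] = true := by
    decide +kernel
  exact chkT4 h (by norm_num) (by push_cast; linarith only [a1]) (by push_cast; linarith only [b1])
    (by push_cast; linarith only [a2]) (by push_cast; linarith only [b2]) (by push_cast; linarith only [a3])
    (by push_cast; linarith only [b3]) (by push_cast; linarith only [a4]) (by push_cast; linarith only [b4])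

/-- 2 boxes -/
theorem c_p5d {x y s r : ℝ} (a1 : 0 ≤ x) (b1 : x ≤ 100 / 10000) (a2 : 0 ≤ y) (b2 : y ≤ 13100 / 10000)
    (a3 : 1200 / 10000 ≤ s) (b3 : s ≤ 2500 / 10000) (a4 : 0 ≤ r) (b4 : r ≤ 725 / 10000) :
    ∃ e ∈ ls 10 (RP g2 5) 200, 0 < e.val [x, y, s, r] := by
  have h : chkT (ls 10 (RP g2 5) 200) 18
      2178
      [V.of 10000 0 100, V.of 10000 0 13100,
        V.of 10000 1200 2500, V.of 10000 0 725] = true := by
    decide +kernel
  exact chkT4 h (by norm_num) (by push_cast; linarith only [a1]) (by push_cast; linarith only [b1])
    (by push_cast; linarith only [a2]) (by push_cast; linarith only [b2]) (by push_cast; linarith only [a3])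
    (by push_cast; linarith only [b3]) (by push_cast; linarith only [a4]) (by push_cast; linarith only [b4])

end LRA

namespace LR

open LRA

variable {m x s ρ : ℝ} {w ζ : ℂ}

/-- **Ramp, `b = 5`, other hinge `≤ 1/2`.** -/
theorem lo_P5 (hw : W x m w) (hz : ZR s ρ ζ) (hρ : ρ ≤ 725 / 10000) (hm : m ≤ 0)
    (hm' : -(131 / 100) ≤ m) (hx : x ≤ 13 / 100) (ht : -(131 / 1000) ≤ m * x)
    (hF : FP 5 s ρ w ζ) : 2 / 10 ≤ S4 m w ζ + Real.pi / 2 * m := by
  have x0 := hw.pos
  have s0 := hz.lo
  have s1 := hz.hi
  have r0 := hz.pos
  unfold FP gE at hF
  rcases lt_or_ge s (12 / 100) with hs | hs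
  · rw [if_pos hs] at hF
    have hR : Dm (4 * ρ) w ζ ≤ (LRA.RP LRA.g1 5).val [x, -m, s, ρ] := by
      simp only [LRA.RP, LRA.hb, LRA.g1, E.val, NumIs.lkR]
      push_cast
      linarith only [hF]
    rcases le_total (1 / 100) x with h | h
    · have key := la_key (k := 200) (t := 1310) hw hz hm hx (by push_cast; linarith only [ht]) hR
        (c_p5a (by linarith only [h]) (by linarith only [hx]) (by linarith only [hm]) (by linarith only [hm']) (by linarith only [s0])
          (by linarith only [hs]) (by linarith only [r0]) (by linarith only [hρ]))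
      push_cast at key
      linarith only [key]
    · have key := ls_key (n := 10) (k := 200) hw hz hm (by push_cast; linarith only [h]) (by norm_num) hR
        (c_p5c (by linarith only [x0]) (by linarith only [h]) (by linarith only [hm]) (by linarith only [hm']) (by linarith only [s0])
          (by linarith only [hs]) (by linarith only [r0]) (by linarith only [hρ]))
      push_cast at key
      linarith only [key]
  · rw [if_neg (not_lt.2 hs)] at hF
    have hR : Dm (4 * ρ) w ζ ≤ (LRA.RP LRA.g2 5).val [x, -m, s, ρ] := by
      simp only [LRA.RP, LRA.hb, LRA.g2, E.val, NumIs.lkR]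
      push_cast
      linarith only [hF]
    rcases le_total (1 / 100) x with h | h
    · have key := la_key (k := 200) (t := 1310) hw hz hm hx (by push_cast; linarith only [ht]) hR
        (c_p5b (by linarith only [h]) (by linarith only [hx]) (by linarith only [hm]) (by linarith only [hm']) (by linarith only [hs])
          (by linarith only [s1]) (by linarith only [r0]) (by linarith only [hρ]))
      push_cast at key
      linarith only [key]
    · have key := ls_key (n := 10) (k := 200) hw hz hm (by push_cast; linarith only [h]) (by norm_num) hR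
        (c_p5d (by linarith only [x0]) (by linarith only [h]) (by linarith only [hm]) (by linarith only [hm']) (by linarith only [hs])
          (by linarith only [s1]) (by linarith only [r0]) (by linarith only [hρ]))
      push_cast at key
      linarith only [key]

end LR

end Pool.Agent.Work.MP_b30479_gtS.G2

end
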