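import Pool.Agent.Work.MP_b30479_gt.TBS.G2.LR0
import Pool.Agent.Work.MP_b30479_gt.TBS.NumU.Tree

section

/-!
# Left ramps of the hinges of a ring, heights `≤ 0`, shift `π / 2`: the flat part

Variables: `x`, `-m`, `-σ`, `η`.
-/

namespace Pool.Agent.Work.MP_b30479_gtS.G2

open VOL NumUs

namespace LRA

open LR

section
open NumUs.E

def fU : E := lnA (sub (add (var 0) (q 1 2)) (var 2)) (add aT (var 3))
def fYu : E := neg (lnB (sub (add (var 0) (q 1 2)) (var 2)) (add aT (var 3)))
def fV : E := lnA (add (add (var 0) (q 1 2)) (var 2)) (sub aT (var 3))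
def fYv : E := neg (lnB (add (add (var 0) (q 1 2)) (var 2)) (sub aT (var 3)))
/-- `D - k / 1000` -/
def fD (k : ℤ) : E :=
  sub (sub (sub (sub (add fU fV) (mul (q 2 1) aLw)) (mul (var 1)
    (sub (add fYu fYv) (mul (q 2 1) aYw)))) (mul (mul (q 1 2) E.pi) (var 1))) (q k 1000)
/-- `D - k / 1000` for `x ≤ n / 1000` -/
def fDS (n k : ℤ) : E :=
  sub (sub (sub (sub (add fU fV) (mul (q 2 1) (aLw0 n))) (mul (var 1) (add fYu fYv)))
    (mul (mul (q 1 2) E.pi) (var 1))) (q k 1000)

end

variable {m x : ℝ} {w ζ : ℂ}

theorem fl_val (hw : W x m w) (hz : ZF ζ) (hx : x ≤ 13 / 100) :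
    fU.val [x, -m, -ζ.re, ζ.im] = LL (w + 1 / 2 + ζ) ∧
    fYu.val [x, -m, -ζ.re, ζ.im] = YY (w + 1 / 2 + ζ) ∧
    fV.val [x, -m, -ζ.re, ζ.im] = LL (w + 1 / 2 - ζ) ∧
    fYv.val [x, -m, -ζ.re, ζ.im] = YY (w + 1 / 2 - ζ) ∧
    aLw.val [x, -m, -ζ.re, ζ.im] = LL w ∧ aYw.val [x, -m, -ζ.re, ζ.im] = YY w := by
  have x0 := hw.pos
  have s0 := hz.lo
  have s1 := hz.hi
  have ure : (w + 1 / 2 + ζ).re = x + 1 / 2 + ζ.re := by simp [hw.re]
  have uim : (w + 1 / 2 + ζ).im = m * x + ζ.im := by simp [hw.im]
  have vre : (w + 1 / 2 - ζ).re = x + 1 / 2 - ζ.re := by simp [hw.re]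
  have vim : (w + 1 / 2 - ζ).im = m * x - ζ.im := by simp [hw.im]
  have us : w + 1 / 2 + ζ ∈ strip := by
    constructor
    · rw [ure]; linarith only [hx, x0, s0]
    · rw [ure]; linarith only [hx, x0, s1]
  have vs : w + 1 / 2 - ζ ∈ strip := by
    constructor
    · rw [vre]; linarith only [hx, x0, s1]
    · rw [vre]; linarith only [hx, x0, s0]
  have ws : w ∈ strip := by
    constructor
    · rw [hw.re]; linarith only [x0]
    · rw [hw.re]; linarith only [hx, x0]
  have tv : aT.val [x, -m, -ζ.re, ζ.im] = m * x := by
    simp only [aT, E.val, NumIs.lkR]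
    ring
  refine ⟨?_, ?_, ?_, ?_, ?_, ?_⟩
  · rw [LL_lnA', ure, uim]
    simp only [fU, E.val, tv, NumIs.lkR]
    push_cast
    rw [sub_neg_eq_add]
  · rw [Num.YY_lnB us, ure, uim]
    simp only [fYu, E.val, tv, NumIs.lkR]
    push_cast
    rw [sub_neg_eq_add]
  · rw [LL_lnA', vre, vim]
    simp only [fV, E.val, tv, NumIs.lkR]
    push_cast
    rw [← sub_eq_add_neg]
  · rw [Num.YY_lnB vs, vre, vim]
    simp only [fYv, E.val, tv, NumIs.lkR]
    push_cast
    rw [← sub_eq_add_neg]
  · rw [LL_lnA', hw.re, hw.im]
    simp only [aLw, E.val, tv, NumIs.lkR]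
  · rw [Num.YY_lnB ws, hw.re, hw.im]
    simp only [aYw, E.val, tv, NumIs.lkR]

theorem fD_key {k t : ℤ} (hw : W x m w) (hz : ZF ζ) (hx : x ≤ 13 / 100)
    (ht : -((t : ℝ) / 10000) ≤ m * x)
    (h : ∃ e ∈ [fD k, eT t], 0 < e.val [x, -m, -ζ.re, ζ.im]) :
    (k : ℝ) / 1000 ≤ S4 m w ζ + Real.pi / 2 * m := by
  obtain ⟨e, he, hp⟩ := h
  obtain ⟨h1, h2, h3, h4, h5, h6⟩ := fl_val hw hz hx
  simp only [List.mem_cons, List.not_mem_nil, or_false] at he
  unfold S4
  rcases he with rfl | rfl
  · simp only [fD, E.val, h1, h2, h3, h4, h5, h6, NumIs.lkR] at hp
    push_cast at hp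
    simp only [div_one] at hp
    linarith only [hp]
  · simp only [eT, E.val, NumIs.lkR] at hp
    push_cast at hp
    linarith only [ht, hp]

theorem fDS_key {n k : ℤ} (hw : W x m w) (hz : ZF ζ) (hm : m ≤ 0)
    (hx : x ≤ (n : ℝ) / 1000) (hn : (n : ℝ) ≤ 130)
    (h : ∃ e ∈ [fDS n k], 0 < e.val [x, -m, -ζ.re, ζ.im]) :
    (k : ℝ) / 1000 ≤ S4 m w ζ + Real.pi / 2 * m := by
  have hp := pos_of_chk h
  obtain ⟨h1, h2, h3, h4, h5, h6⟩ := fl_val hw hz (by linarith only [hx, hn])
  have hray := lnA_ray (m := m) hw.pos hx (by linarith only [hn])
  have e1 : NumIs.lnA x (m * x) = LL w := by rw [LL_lnA', hw.re, hw.im]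
  have e2 : (aLw0 n).val [x, -m, -ζ.re, ζ.im] =
      NumIs.lnA ((n : ℝ) / 1000) (m * ((n : ℝ) / 1000)) := by
    simp only [aLw0, E.val, NumIs.lkR]
    push_cast
    rw [neg_mul, neg_neg]
  rw [e1, ← e2] at hray
  have yw0 : 0 ≤ YY w := by
    have him : w.im ≤ 0 := by
      rw [hw.im]
      exact mul_nonpos_of_nonpos_of_nonneg hm hw.pos.le
    rcases him.lt_or_eq with h | h
    · rw [YY_neg h]
      have := Tr_le_half (s := -w.im) (x := w.re) (by linarith only [h]) (by rw [hw.re]; linarith only [hx, hn])
      linarith only [this]
    · rw [YY_zero h]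
  have c5 : m * YY w ≤ 0 := mul_nonpos_of_nonpos_of_nonneg hm yw0
  unfold S4
  simp only [fDS, E.val, h1, h2, h3, h4, NumIs.lkR] at hp
  push_cast at hp
  simp only [div_one] at hp
  nlinarith only [hray, c5, hp]

open NumIs (V)

/-- 61 boxes -/
theorem c_fA {x y s r : ℝ} (a1 : 200 / 10000 ≤ x) (b1 : x ≤ 1300 / 10000) (a2 : 0 ≤ y) (b2 : y ≤ 13100 / 10000)
    (a3 : 0 ≤ s) (b3 : s ≤ 2500 / 10000) (a4 : 0 ≤ r) (b4 : r ≤ 1045 / 10000) :
    ∃ e ∈ [fD 200, eT 1310], 0 < e.val [x, y, s, r] := by
  have h : chkT ([fD 200, eT 1310]) 22
      26541080515544525649292547112029218602620109916566489911138398111808967700192668607488157229051442684820702914328673219954438232666602387177279488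
      [V.of 10000 200 1300, V.of 10000 0 13100,
        V.of 10000 0 2500, V.of 10000 0 1045] = true := by
    decide +kernel
  exact chkT4 h (by norm_num) (by push_cast; linarith only [a1]) (by push_cast; linarith only [b1])
    (by push_cast; linarith only [a2]) (by push_cast; linarith only [b2]) (by push_cast; linarith only [a3])
    (by push_cast; linarith only [b3]) (by push_cast; linarith only [a4]) (by push_cast; linarith only [b4])

/-- 2 boxes -/
theorem c_fB {x y s r : ℝ} (a1 : 0 ≤ x) (b1 : x ≤ 200 / 10000) (a2 : 0 ≤ y) (b2 : y ≤ 13100 / 10000)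
    (a3 : 0 ≤ s) (b3 : s ≤ 2500 / 10000) (a4 : 0 ≤ r) (b4 : r ≤ 1045 / 10000) :
    ∃ e ∈ [fDS 20 200], 0 < e.val [x, y, s, r] := by
  have h : chkT ([fDS 20 200]) 22
      2178
      [V.of 10000 0 200, V.of 10000 0 13100,
        V.of 10000 0 2500, V.of 10000 0 1045] = true := by
    decide +kernel
  exact chkT4 h (by norm_num) (by push_cast; linarith only [a1]) (by push_cast; linarith only [b1])
    (by push_cast; linarith only [a2]) (by push_cast; linarith only [b2]) (by push_cast; linarith only [a3])
    (by push_cast; linarith only [b3]) (by push_cast; linarith only [a4]) (by push_cast; linarith only [b4])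

end LRA

namespace LR

open LRA

variable {m x : ℝ} {w ζ : ℂ}

/-- **Flat part.** -/
theorem lo_flat (hw : W x m w) (hz : ZF ζ) (hm : m ≤ 0) (hm' : -(131 / 100) ≤ m)
    (hx : x ≤ 13 / 100) (ht : -(131 / 1000) ≤ m * x) :
    2 / 10 ≤ S4 m w ζ + Real.pi / 2 * m := by
  have x0 := hw.pos
  have s0 := hz.lo
  have s1 := hz.hi
  have e0 := hz.pos
  have e1 := hz.cap
  rcases le_total (2 / 100) x with h | h
  · have key := fD_key (k := 200) (t := 1310) hw hz hx (by push_cast; linarith only [ht])
      (c_fA (by linarith only [h]) (by linarith only [hx]) (by linarith only [hm]) (by linarith only [hm']) (by linarith only [s1]) (by linarith only [s0])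
        (by linarith only [e0]) (by linarith only [e1]))
    push_cast at key
    linarith only [key]
  · have key := fDS_key (n := 20) (k := 200) hw hz hm (by push_cast; linarith only [h]) (by norm_num)
      (c_fB (by linarith only [x0]) (by linarith only [h]) (by linarith only [hm]) (by linarith only [hm']) (by linarith only [s1]) (by linarith only [s0])
        (by linarith only [e0]) (by linarith only [e1]))
    push_cast at key
    linarith only [key]

end LR

end Pool.Agent.Work.MP_b30479_gtS.G2

end

section

/-!
# Left ramps of the hinges of a ring: `3 | ring` for `x ≤ 7/100`, and small positive heights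

`lo7_*`: heights `≤ 0`, slopes `≥ -475/1000`, shift `π/2`.  `ps_*`: slopes in `[0, 6/1000]`, four
crossings, `84/1000 ≤ ρ ≤ 895/10000`.
-/

namespace Pool.Agent.Work.MP_b30479_gtS.G2

open VOL NumUs

namespace LRG

open LR LRC
open NumIs (V)

section
open NumUs.E

/-- `YY v`, second form -/
def cB2 : E := neg (add (mul (q 1 2) E.pi) (atan (mul (mul (sinPi (sub (var 0) (var 2)))
  (cosh (mul E.pi (sub cH cT)))) (inv (mul (cosPi (sub (var 0) (var 2)))
    (sinh (mul E.pi (sub cH cT))))))))
/-- `Im v < 0`, `c ≤ 0`, `x ≥ 1/100` -/
def lp (R : E) (k : ℤ) : List E :=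
  [sub (cG R cB) (q k 1000), sub (cG R cB2) (q k 1000), sub (cD cB2) (q k 1000),
    sub (cD (neg E.pi)) (q k 1000)]
/-- the same, small `x` -/
def lpS (n : ℤ) (R : E) (k : ℤ) : List E :=
  [sub (sG n R cB) (q k 1000), sub (sD n (neg E.pi)) (q k 1000)]
/-- flat part -/
def lf (k : ℤ) : List E := [sub LRC.fD (q k 1000)]
def lfS (n k : ℤ) : List E := [sub (LRC.fS n) (q k 1000)]

end

variable {m x s ρ : ℝ} {w ζ : ℂ}

theorem pv (hw : W x m w) (hz : ZR s ρ ζ) (hm : 0 ≤ m) (hx : x ≤ 13 / 100) :
    PV x m s ρ w ζ (LL (w + 1 / 2 + ζ)) (YY (w + 1 / 2 + ζ)) (LL (w + 1 / 2 - ζ))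
      (YY (w + 1 / 2 - ζ)) (LL w) (YY w) := by
  have hp := Real.pi_pos
  have x0 := hw.pos
  have s0 := hz.lo
  have s1 := hz.hi
  have r0 := hz.pos
  have ure : (w + 1 / 2 + ζ).re = x + s := by simp [hw.re, hz.re]
  have uim : (w + 1 / 2 + ζ).im = m * x + 4 * ρ * s := by simp [hw.im, hz.im]
  have vre : (w + 1 / 2 - ζ).re = 1 - (s - x) := by simp [hw.re, hz.re]; ring
  have vim : (w + 1 / 2 - ζ).im = m * x - 4 * ρ * s := by simp [hw.im, hz.im]
  have hd : |s - x| < 1 / 2 := by
    rw [abs_lt]
    constructor <;> linarith only [hx, x0, s0, s1]
  have us : w + 1 / 2 + ζ ∈ strip := by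
    constructor
    · rw [ure]; linarith only [hx, x0, s0]
    · rw [ure]; linarith only [hx, x0, s1]
  have ws : w ∈ strip := by
    constructor
    · rw [hw.re]; linarith only [x0]
    · rw [hw.re]; linarith only [hx, x0]
  have tv : cT.val [x, m, s, ρ] = m * x := by
    simp only [cT, E.val, NumIs.lkR]
  have hv : cH.val [x, m, s, ρ] = 4 * ρ * s := by
    simp only [cH, E.val, NumIs.lkR]
    push_cast
    ring
  have hB : cB.val [x, m, s, ρ] = NumIs.lnB (s - x) (m * x - 4 * ρ * s) := by
    simp only [cB, E.val, tv, hv, NumIs.lkR]
  refine ⟨rfl, ?_, ?_, ?_, ?_, ?_, ?_, ?_, ?_, ?_, ?_, ?_⟩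
  · unfold Dm Dq
    ring
  · rw [LRA.LL_lnA', ure, uim]
    simp only [cLu, E.val, tv, hv, NumIs.lkR]
  · rw [Num.YY_lnB us, ure, uim]
    simp only [cYu, E.val, tv, hv, NumIs.lkR]
  · rw [LRA.LL_lnA', hw.re, hw.im]
    simp only [cLw, E.val, tv, NumIs.lkR]
  · rw [Num.YY_lnB ws, hw.re, hw.im]
    simp only [cYw, E.val, tv, NumIs.lkR]
  · rw [LRA.LL_lnA', vre, vim]
    simp only [cLv, E.val, tv, hv, NumIs.lkR]
    rw [LRA.lnA_cosh, LRA.lnA_cosh,
      show 2 * Real.pi * (1 - (s - x)) = 2 * Real.pi - 2 * Real.pi * (s - x) by ring,
      Real.cos_two_pi_sub]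
  · intro h
    obtain ⟨h1, h2, h3⟩ := YY_neg_im vre vim h hd
    rw [hB]
    exact ⟨h1, h2, fun h4 => h3 (by linarith only [h4])⟩
  · intro h
    rw [hB]
    exact YY_pos_im vre vim h hd
  · exact MR.YY_abs_pi (by rw [vre]; linarith only [hx, x0, s1]) (by rw [vre]; linarith only [hx, x0, s0])
  · rw [Num.YY_lnB ws, hw.re, hw.im]
    have := lnB_nonneg x0 (by linarith only [hx, x0]) (mul_nonneg hm x0.le)
    linarith only [this]
  · rw [hB]
    have := MR.lnB_abs (s - x) (m * x - 4 * ρ * s)
    exact (abs_le.1 this).1

theorem keyP {R : E} {k : ℤ} (hw : W x m w) (hz : ZR s ρ ζ) (hm : 0 ≤ m) (hx : x ≤ 13 / 100)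
    (hF : Dm (4 * ρ) w ζ ≤ R.val [x, m, s, ρ]) (hi' : m * x - 4 * ρ * s < 0)
    (hc : m - 4 * ρ ≤ 0) (h : ∃ e ∈ lp R k, 0 < e.val [x, m, s, ρ]) :
    (k : ℝ) / 1000 ≤ S4 m w ζ := by
  have hi := hi'.le
  have x0 := hw.pos
  have z0 := hz.lo
  have z1 := hz.hi
  have e5 : YY (w + 1 / 2 - ζ) = cB2.val [x, m, s, ρ] := by
    have hd : |s - x| < 1 / 2 := by
      rw [abs_lt]
      constructor <;> linarith only [hx, x0, z0, z1]
    have h1 := LRA.YY_eq_form (v := w + 1 / 2 - ζ) (d := s - x) (h := 4 * ρ * s - m * x)
      (by simp [hw.re, hz.re]; ring) (by simp [hw.im, hz.im]) (by linarith only [hi']) hd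
    rw [h1]
    have e6 : cH.val [x, m, s, ρ] = 4 * ρ * s := by
      simp only [cH, E.val, NumIs.lkR]
      push_cast
      ring
    have e7 : cT.val [x, m, s, ρ] = m * x := by
      simp only [cT, E.val, NumIs.lkR]
    simp only [cB2, E.val, e6, e7, NumIs.lkR]
    push_cast
    rw [show -(s - x) = x - s by ring]
    ring
  have P := pv hw hz hm hx
  obtain ⟨eiv, ecc, eG0, eG, eDD, eD0⟩ := vals (R := R) P
  obtain ⟨hD, hF', lu, yu, lw, yw, lv, yn, yp, ypi, yw0, yb⟩ := P
  rw [hF'] at hF
  rw [hD]
  obtain ⟨y1, y2, y3⟩ := yn hi
  have pp := abs_le.1 ypi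
  have c1 := mul_le_mul_of_nonpos_left y1 hc
  have c3 := mul_le_mul_of_nonneg_left pp.1 hm
  obtain ⟨e, he, hp⟩ := h
  simp only [lp, List.mem_cons, List.not_mem_nil, or_false] at he
  rcases he with rfl | rfl | rfl | rfl
  · have e1 : (E.sub (cG R cB) (E.q k 1000)).val [x, m, s, ρ] =
        (cG R cB).val [x, m, s, ρ] - (E.q k 1000).val [x, m, s, ρ] := rfl
    have e2 : (E.q k 1000).val [x, m, s, ρ] = (k : ℝ) / 1000 := by
      simp only [E.val]
      push_cast
      rfl
    rw [e1, eG, e2] at hp
    linarith only [hF, c1, hp]
  · have e1 : (E.sub (cG R cB2) (E.q k 1000)).val [x, m, s, ρ] =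
        (cG R cB2).val [x, m, s, ρ] - (E.q k 1000).val [x, m, s, ρ] := rfl
    have e2 : (E.q k 1000).val [x, m, s, ρ] = (k : ℝ) / 1000 := by
      simp only [E.val]
      push_cast
      rfl
    rw [e1, eG, e2, ← e5] at hp
    linarith only [hF, hp]
  · have e1 : (E.sub (cD cB2) (E.q k 1000)).val [x, m, s, ρ] =
        (cD cB2).val [x, m, s, ρ] - (E.q k 1000).val [x, m, s, ρ] := rfl
    have e2 : (E.q k 1000).val [x, m, s, ρ] = (k : ℝ) / 1000 := by
      simp only [E.val]
      push_cast
      rfl
    rw [e1, eDD, e2, ← e5] at hp
    linarith only [hp]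
  · have e1 : (E.sub (cD (E.neg E.pi)) (E.q k 1000)).val [x, m, s, ρ] =
        (cD (E.neg E.pi)).val [x, m, s, ρ] - (E.q k 1000).val [x, m, s, ρ] := rfl
    have e2 : (E.q k 1000).val [x, m, s, ρ] = (k : ℝ) / 1000 := by
      simp only [E.val]
      push_cast
      rfl
    have e3 : (E.neg E.pi).val [x, m, s, ρ] = -Real.pi := rfl
    rw [e1, eDD, e2, e3] at hp
    linarith only [c3, hp]

theorem keyPS {R : E} {n k : ℤ} (hw : W x m w) (hz : ZR s ρ ζ) (hm : 0 ≤ m)
    (hx : x ≤ (n : ℝ) / 1000) (hn : (n : ℝ) ≤ 60) (hF : Dm (4 * ρ) w ζ ≤ R.val [x, m, s, ρ])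
    (hi : m * x - 4 * ρ * s ≤ 0) (hc : m - 4 * ρ ≤ 0)
    (h : ∃ e ∈ lpS n R k, 0 < e.val [x, m, s, ρ]) :
    (k : ℝ) / 1000 ≤ S4 m w ζ := by
  have P := pv hw hz hm (by linarith only [hx, hn])
  obtain ⟨eiv, ecc, -⟩ := vals (R := R) P
  obtain ⟨hD, hF', lu, yu, lw, yw, lv, yn, yp, ypi, yw0, yb⟩ := P
  have hray := LRA.lnA_ray (m := m) hw.pos hx (by linarith only [hn])
  have e1 : NumIs.lnA x (m * x) = LL w := by rw [LRA.LL_lnA', hw.re, hw.im]
  have e2 : (cLw0 n).val [x, m, s, ρ] = NumIs.lnA ((n : ℝ) / 1000) (m * ((n : ℝ) / 1000)) := by
    simp only [cLw0, E.val, NumIs.lkR]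
    push_cast
    rfl
  rw [e1, ← e2] at hray
  rw [hF'] at hF
  rw [hD]
  set LU := LL (w + 1 / 2 + ζ)
  set YU := YY (w + 1 / 2 + ζ)
  set LV := LL (w + 1 / 2 - ζ)
  set YV := YY (w + 1 / 2 - ζ)
  set LW := LL w
  set YW := YY w
  have c5 : m * YW ≤ 0 := mul_nonpos_of_nonneg_of_nonpos hm yw0
  obtain ⟨y1, y2, y3⟩ := yn hi
  have pp := abs_le.1 ypi
  have c1 := mul_le_mul_of_nonpos_left y1 hc
  have c3 := mul_le_mul_of_nonneg_left pp.1 hm
  have fG0 : (sG0 n R).val [x, m, s, ρ] = 2 * (LU - (cLw0 n).val [x, m, s, ρ]) +
      (m + 4 * ρ) * YU - R.val [x, m, s, ρ] := by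
    simp only [sG0, E.val, lu, yu, NumIs.lkR]
    push_cast
    ring
  have fG : ∀ yv : E, (sG n R yv).val [x, m, s, ρ] = 2 * (LU - (cLw0 n).val [x, m, s, ρ]) +
      (m + 4 * ρ) * YU - R.val [x, m, s, ρ] + (m - 4 * ρ) * yv.val [x, m, s, ρ] := by
    intro yv
    have : (sG n R yv).val [x, m, s, ρ] = (sG0 n R).val [x, m, s, ρ] +
      LRC.cc.val [x, m, s, ρ] * yv.val [x, m, s, ρ] := rfl
    rw [this, fG0, ecc]
  have fD' : ∀ yv : E, (sD n yv).val [x, m, s, ρ] = LU + LV - 2 * (cLw0 n).val [x, m, s, ρ] +
      m * (YU + yv.val [x, m, s, ρ]) := by
    intro yv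
    simp only [sD, E.val, lu, yu, lv, NumIs.lkR]
    push_cast
    ring
  have e4 : (E.q k 1000).val [x, m, s, ρ] = (k : ℝ) / 1000 := by
    simp only [E.val]
    push_cast
    rfl
  obtain ⟨e, he, hp⟩ := h
  simp only [lpS, List.mem_cons, List.not_mem_nil, or_false] at he
  rcases he with rfl | rfl
  · have e1 : (E.sub (sG n R cB) (E.q k 1000)).val [x, m, s, ρ] =
        (sG n R cB).val [x, m, s, ρ] - (E.q k 1000).val [x, m, s, ρ] := rfl
    rw [e1, fG, e4] at hp
    linarith only [hF, hray, c5, c1, hp]
  · have e1 : (E.sub (sD n (E.neg E.pi)) (E.q k 1000)).val [x, m, s, ρ] =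
        (sD n (E.neg E.pi)).val [x, m, s, ρ] - (E.q k 1000).val [x, m, s, ρ] := rfl
    have e3 : (E.neg E.pi).val [x, m, s, ρ] = -Real.pi := rfl
    rw [e1, fD', e4, e3] at hp
    linarith only [hray, c5, c3, hp]

theorem keyFl {k : ℤ} (hw : W x m w) (hz : ZF ζ) (hm : 0 ≤ m) (hx : x ≤ 13 / 100)
    (h1 : 1 / 100 ≤ x → ∃ e ∈ lf k, 0 < e.val [x, m, -ζ.re, ζ.im])
    (h2 : x ≤ 1 / 100 → ∃ e ∈ lfS 10 k, 0 < e.val [x, m, -ζ.re, ζ.im]) :
    (k : ℝ) / 1000 ≤ S4 m w ζ := by
  have x0 := hw.pos
  have z0 := hz.lo
  have z1 := hz.hi
  have ure : (w + 1 / 2 + ζ).re = x + 1 / 2 - -ζ.re := by simp [hw.re]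
  have uim : (w + 1 / 2 + ζ).im = m * x + ζ.im := by simp [hw.im]
  have vre : (w + 1 / 2 - ζ).re = x + 1 / 2 + -ζ.re := by simp [hw.re]; ring
  have vim : (w + 1 / 2 - ζ).im = m * x - ζ.im := by simp [hw.im]
  have us : w + 1 / 2 + ζ ∈ strip := by
    constructor
    · rw [ure]; linarith only [hx, x0, z0]
    · rw [ure]; linarith only [hx, x0, z1]
  have vs : w + 1 / 2 - ζ ∈ strip := by
    constructor
    · rw [vre]; linarith only [hx, x0, z1]
    · rw [vre]; linarith only [hx, x0, z0]
  have ws : w ∈ strip := by
    constructor
    · rw [hw.re]; linarith only [x0]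
    · rw [hw.re]; linarith only [hx, x0]
  have hD : S4 m w ζ = LL (w + 1 / 2 + ζ) + LL (w + 1 / 2 - ζ) - 2 * LL w +
      m * (YY (w + 1 / 2 + ζ) + YY (w + 1 / 2 - ζ) - 2 * YY w) := rfl
  rw [hD, Num.LL_lnA us, Num.LL_lnA vs, Num.LL_lnA ws, Num.YY_lnB us, Num.YY_lnB vs,
    Num.YY_lnB ws, ure, uim, vre, vim, hw.re, hw.im]
  rcases le_total (1 / 100) x with h | h
  · obtain ⟨e, he, hp⟩ := h1 h
    simp only [lf, List.mem_cons, List.not_mem_nil, or_false] at he
    subst he
    simp only [LRC.fD, fLu, fLv, LRC.fYu, LRC.fYv, cLw, cYw, cT, E.val, NumIs.lkR] at hp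
    push_cast at hp
    linarith only [hp]
  · obtain ⟨e, he, hp⟩ := h2 h
    have hray := LRA.lnA_ray (m := m) hw.pos h (by norm_num)
    have hB := lnB_nonneg x0 (by linarith only [x0, h]) (mul_nonneg hm x0.le)
    have hB' := mul_nonneg hm hB
    simp only [lfS, List.mem_cons, List.not_mem_nil, or_false] at he
    subst he
    simp only [LRC.fS, fLu, fLv, LRC.fYu, LRC.fYv, cLw0, cT, E.val, NumIs.lkR] at hp
    push_cast at hp
    norm_num at hp hray ⊢
    linarith only [hB', hp, hray]

/-- 5 boxes -/
theorem c_fA {x y s r : ℝ} (a0 : 200 / 10000 ≤ x) (b0 : x ≤ 700 / 10000)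
    (a1 : 0 ≤ y) (b1 : y ≤ 4750 / 10000) (a2 : 0 ≤ s) (b2 : s ≤ 2500 / 10000)
    (a3 : 0 ≤ r) (b3 : r ≤ 1045 / 10000) :
    ∃ e ∈ [LRA.fD 300], 0 < e.val [x, y, s, r] := by
  have h : chkT ([LRA.fD 300]) 22
      36549695488
      [V.of 10000 200 700, V.of 10000 0 4750, V.of 10000 0 2500, V.of 10000 0 1045] = true := by
    decide +kernel
  exact chkT4 h (by norm_num) (by push_cast; linarith only [a0]) (by push_cast; linarith only [b0])
    (by push_cast; linarith only [a1]) (by push_cast; linarith only [b1]) (by push_cast; linarith only [a2])
    (by push_cast; linarith only [b2]) (by push_cast; linarith only [a3]) (by push_cast; linarith only [b3])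

/-- 1 boxes -/
theorem c_fB {x y s r : ℝ} (a0 : 0 ≤ x) (b0 : x ≤ 200 / 10000)
    (a1 : 0 ≤ y) (b1 : y ≤ 4750 / 10000) (a2 : 0 ≤ s) (b2 : s ≤ 2500 / 10000)
    (a3 : 0 ≤ r) (b3 : r ≤ 1045 / 10000) :
    ∃ e ∈ [LRA.fDS 20 300], 0 < e.val [x, y, s, r] := by
  have h : chkT ([LRA.fDS 20 300]) 22
      8
      [V.of 10000 0 200, V.of 10000 0 4750, V.of 10000 0 2500, V.of 10000 0 1045] = true := by
    decide +kernel
  exact chkT4 h (by norm_num) (by push_cast; linarith only [a0]) (by push_cast; linarith only [b0])
    (by push_cast; linarith only [a1]) (by push_cast; linarith only [b1]) (by push_cast; linarith only [a2])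
    (by push_cast; linarith only [b2]) (by push_cast; linarith only [a3]) (by push_cast; linarith only [b3])

/-- 31 boxes -/
theorem c_p4a {x y s r : ℝ} (a0 : 100 / 10000 ≤ x) (b0 : x ≤ 700 / 10000)
    (a1 : 0 ≤ y) (b1 : y ≤ 4750 / 10000) (a2 : 625 / 10000 ≤ s) (b2 : s ≤ 1200 / 10000)
    (a3 : 0 ≤ r) (b3 : r ≤ 1045 / 10000) :
    ∃ e ∈ LRA.la (LRA.RP LRA.g1 4) 300 1150, 0 < e.val [x, y, s, r] := by
  have h : chkT (LRA.la (LRA.RP LRA.g1 4) 300 1150) 26
      15044180393911055408840988901694398716450767112508980731644481192220692480
      [V.of 10000 100 700, V.of 10000 0 4750, V.of 10000 625 1200, V.of 10000 0 1045] = true := by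
    decide +kernel
  exact chkT4 h (by norm_num) (by push_cast; linarith only [a0]) (by push_cast; linarith only [b0])
    (by push_cast; linarith only [a1]) (by push_cast; linarith only [b1]) (by push_cast; linarith only [a2])
    (by push_cast; linarith only [b2]) (by push_cast; linarith only [a3]) (by push_cast; linarith only [b3])

/-- 21 boxes -/
theorem c_p4b {x y s r : ℝ} (a0 : 100 / 10000 ≤ x) (b0 : x ≤ 700 / 10000)
    (a1 : 0 ≤ y) (b1 : y ≤ 4750 / 10000) (a2 : 1200 / 10000 ≤ s) (b2 : s ≤ 2500 / 10000)
    (a3 : 0 ≤ r) (b3 : r ≤ 1045 / 10000) :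
    ∃ e ∈ LRA.la (LRA.RP LRA.g2 4) 300 1150, 0 < e.val [x, y, s, r] := by
  have h : chkT (LRA.la (LRA.RP LRA.g2 4) 300 1150) 26
      13984542990191761167269826297542824340193426345984
      [V.of 10000 100 700, V.of 10000 0 4750, V.of 10000 1200 2500, V.of 10000 0 1045] = true := by
    decide +kernel
  exact chkT4 h (by norm_num) (by push_cast; linarith only [a0]) (by push_cast; linarith only [b0])
    (by push_cast; linarith only [a1]) (by push_cast; linarith only [b1]) (by push_cast; linarith only [a2])
    (by push_cast; linarith only [b2]) (by push_cast; linarith only [a3]) (by push_cast; linarith only [b3])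

/-- 1 boxes -/
theorem c_p4c {x y s r : ℝ} (a0 : 0 ≤ x) (b0 : x ≤ 100 / 10000)
    (a1 : 0 ≤ y) (b1 : y ≤ 4750 / 10000) (a2 : 625 / 10000 ≤ s) (b2 : s ≤ 1200 / 10000)
    (a3 : 0 ≤ r) (b3 : r ≤ 1045 / 10000) :
    ∃ e ∈ LRA.ls 10 (LRA.RP LRA.g1 4) 300, 0 < e.val [x, y, s, r] := by
  have h : chkT (LRA.ls 10 (LRA.RP LRA.g1 4) 300) 18
      8
      [V.of 10000 0 100, V.of 10000 0 4750, V.of 10000 625 1200, V.of 10000 0 1045] = true := by
    decide +kernel
  exact chkT4 h (by norm_num) (by push_cast; linarith only [a0]) (by push_cast; linarith only [b0])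
    (by push_cast; linarith only [a1]) (by push_cast; linarith only [b1]) (by push_cast; linarith only [a2])
    (by push_cast; linarith only [b2]) (by push_cast; linarith only [a3]) (by push_cast; linarith only [b3])

/-- 1 boxes -/
theorem c_p4d {x y s r : ℝ} (a0 : 0 ≤ x) (b0 : x ≤ 100 / 10000)
    (a1 : 0 ≤ y) (b1 : y ≤ 4750 / 10000) (a2 : 1200 / 10000 ≤ s) (b2 : s ≤ 2500 / 10000)
    (a3 : 0 ≤ r) (b3 : r ≤ 1045 / 10000) :
    ∃ e ∈ LRA.ls 10 (LRA.RP LRA.g2 4) 300, 0 < e.val [x, y, s, r] := by
  have h : chkT (LRA.ls 10 (LRA.RP LRA.g2 4) 300) 18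
      9
      [V.of 10000 0 100, V.of 10000 0 4750, V.of 10000 1200 2500, V.of 10000 0 1045] = true := by
    decide +kernel
  exact chkT4 h (by norm_num) (by push_cast; linarith only [a0]) (by push_cast; linarith only [b0])
    (by push_cast; linarith only [a1]) (by push_cast; linarith only [b1]) (by push_cast; linarith only [a2])
    (by push_cast; linarith only [b2]) (by push_cast; linarith only [a3]) (by push_cast; linarith only [b3])

/-- 10 boxes -/
theorem c_p5a {x y s r : ℝ} (a0 : 100 / 10000 ≤ x) (b0 : x ≤ 700 / 10000)
    (a1 : 0 ≤ y) (b1 : y ≤ 4750 / 10000) (a2 : 625 / 10000 ≤ s) (b2 : s ≤ 1200 / 10000)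
    (a3 : 0 ≤ r) (b3 : r ≤ 725 / 10000) :
    ∃ e ∈ LRA.la (LRA.RP LRA.g1 5) 300 1310, 0 < e.val [x, y, s, r] := by
  have h : chkT (LRA.la (LRA.RP LRA.g1 5) 300 1310) 26
      60261030712138434134016
      [V.of 10000 100 700, V.of 10000 0 4750, V.of 10000 625 1200, V.of 10000 0 725] = true := by
    decide +kernel
  exact chkT4 h (by norm_num) (by push_cast; linarith only [a0]) (by push_cast; linarith only [b0])
    (by push_cast; linarith only [a1]) (by push_cast; linarith only [b1]) (by push_cast; linarith only [a2])
    (by push_cast; linarith only [b2]) (by push_cast; linarith only [a3]) (by push_cast; linarith only [b3])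

/-- 11 boxes -/
theorem c_p5b {x y s r : ℝ} (a0 : 100 / 10000 ≤ x) (b0 : x ≤ 700 / 10000)
    (a1 : 0 ≤ y) (b1 : y ≤ 4750 / 10000) (a2 : 1200 / 10000 ≤ s) (b2 : s ≤ 2500 / 10000)
    (a3 : 0 ≤ r) (b3 : r ≤ 725 / 10000) :
    ∃ e ∈ LRA.la (LRA.RP LRA.g2 5) 300 1310, 0 < e.val [x, y, s, r] := by
  have h : chkT (LRA.la (LRA.RP LRA.g2 5) 300 1310) 26
      11567746554340806423580672
      [V.of 10000 100 700, V.of 10000 0 4750, V.of 10000 1200 2500, V.of 10000 0 725] = true := by
    decide +kernel
  exact chkT4 h (by norm_num) (by push_cast; linarith only [a0]) (by push_cast; linarith only [b0])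
    (by push_cast; linarith only [a1]) (by push_cast; linarith only [b1]) (by push_cast; linarith only [a2])
    (by push_cast; linarith only [b2]) (by push_cast; linarith only [a3]) (by push_cast; linarith only [b3])

/-- 1 boxes -/
theorem c_p5c {x y s r : ℝ} (a0 : 0 ≤ x) (b0 : x ≤ 100 / 10000)
    (a1 : 0 ≤ y) (b1 : y ≤ 4750 / 10000) (a2 : 625 / 10000 ≤ s) (b2 : s ≤ 1200 / 10000)
    (a3 : 0 ≤ r) (b3 : r ≤ 725 / 10000) :
    ∃ e ∈ LRA.ls 10 (LRA.RP LRA.g1 5) 300, 0 < e.val [x, y, s, r] := by
  have h : chkT (LRA.ls 10 (LRA.RP LRA.g1 5) 300) 18
      8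
      [V.of 10000 0 100, V.of 10000 0 4750, V.of 10000 625 1200, V.of 10000 0 725] = true := by
    decide +kernel
  exact chkT4 h (by norm_num) (by push_cast; linarith only [a0]) (by push_cast; linarith only [b0])
    (by push_cast; linarith only [a1]) (by push_cast; linarith only [b1]) (by push_cast; linarith only [a2])
    (by push_cast; linarith only [b2]) (by push_cast; linarith only [a3]) (by push_cast; linarith only [b3])

/-- 1 boxes -/
theorem c_p5d {x y s r : ℝ} (a0 : 0 ≤ x) (b0 : x ≤ 100 / 10000)
    (a1 : 0 ≤ y) (b1 : y ≤ 4750 / 10000) (a2 : 1200 / 10000 ≤ s) (b2 : s ≤ 2500 / 10000)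
    (a3 : 0 ≤ r) (b3 : r ≤ 725 / 10000) :
    ∃ e ∈ LRA.ls 10 (LRA.RP LRA.g2 5) 300, 0 < e.val [x, y, s, r] := by
  have h : chkT (LRA.ls 10 (LRA.RP LRA.g2 5) 300) 18
      8
      [V.of 10000 0 100, V.of 10000 0 4750, V.of 10000 1200 2500, V.of 10000 0 725] = true := by
    decide +kernel
  exact chkT4 h (by norm_num) (by push_cast; linarith only [a0]) (by push_cast; linarith only [b0])
    (by push_cast; linarith only [a1]) (by push_cast; linarith only [b1]) (by push_cast; linarith only [a2])
    (by push_cast; linarith only [b2]) (by push_cast; linarith only [a3]) (by push_cast; linarith only [b3])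

/-- 43 boxes -/
theorem c_x4a {x y s r : ℝ} (a0 : 100 / 10000 ≤ x) (b0 : x ≤ 700 / 10000)
    (a1 : 0 ≤ y) (b1 : y ≤ 4750 / 10000) (a2 : 625 / 10000 ≤ s) (b2 : s ≤ 2500 / 10000)
    (a3 : 0 ≤ r) (b3 : r ≤ 1045 / 10000) :
    ∃ e ∈ LRA.la (LRA.RX 4) 300 1150, 0 < e.val [x, y, s, r] := by
  have h : chkT (LRA.la (LRA.RX 4) 300 1150) 26
      1338924726007838951978178429082597900507996004776041534124538211721010038530985419127748925123092152832
      [V.of 10000 100 700, V.of 10000 0 4750, V.of 10000 625 2500, V.of 10000 0 1045] = true := by
    decide +kernel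
  exact chkT4 h (by norm_num) (by push_cast; linarith only [a0]) (by push_cast; linarith only [b0])
    (by push_cast; linarith only [a1]) (by push_cast; linarith only [b1]) (by push_cast; linarith only [a2])
    (by push_cast; linarith only [b2]) (by push_cast; linarith only [a3]) (by push_cast; linarith only [b3])

/-- 3 boxes -/
theorem c_x4c {x y s r : ℝ} (a0 : 0 ≤ x) (b0 : x ≤ 100 / 10000)
    (a1 : 0 ≤ y) (b1 : y ≤ 4750 / 10000) (a2 : 625 / 10000 ≤ s) (b2 : s ≤ 2500 / 10000)
    (a3 : 0 ≤ r) (b3 : r ≤ 1045 / 10000) :
    ∃ e ∈ LRA.ls 10 (LRA.RX 4) 300, 0 < e.val [x, y, s, r] := by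
  have h : chkT (LRA.ls 10 (LRA.RX 4) 300) 18
      559138
      [V.of 10000 0 100, V.of 10000 0 4750, V.of 10000 625 2500, V.of 10000 0 1045] = true := by
    decide +kernel
  exact chkT4 h (by norm_num) (by push_cast; linarith only [a0]) (by push_cast; linarith only [b0])
    (by push_cast; linarith only [a1]) (by push_cast; linarith only [b1]) (by push_cast; linarith only [a2])
    (by push_cast; linarith only [b2]) (by push_cast; linarith only [a3]) (by push_cast; linarith only [b3])

/-- 35 boxes -/
theorem c_x5a {x y s r : ℝ} (a0 : 100 / 10000 ≤ x) (b0 : x ≤ 700 / 10000)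
    (a1 : 0 ≤ y) (b1 : y ≤ 4750 / 10000) (a2 : 625 / 10000 ≤ s) (b2 : s ≤ 2500 / 10000)
    (a3 : 0 ≤ r) (b3 : r ≤ 725 / 10000) :
    ∃ e ∈ LRA.la (LRA.RX 5) 300 1310, 0 < e.val [x, y, s, r] := by
  have h : chkT (LRA.la (LRA.RX 5) 300 1310) 26
      72835201007863730807783692334204036408364103895189843697746462540534926707997671936
      [V.of 10000 100 700, V.of 10000 0 4750, V.of 10000 625 2500, V.of 10000 0 725] = true := by
    decide +kernel
  exact chkT4 h (by norm_num) (by push_cast; linarith only [a0]) (by push_cast; linarith only [b0])
    (by push_cast; linarith only [a1]) (by push_cast; linarith only [b1]) (by push_cast; linarith only [a2])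
    (by push_cast; linarith only [b2]) (by push_cast; linarith only [a3]) (by push_cast; linarith only [b3])

/-- 3 boxes -/
theorem c_x5c {x y s r : ℝ} (a0 : 0 ≤ x) (b0 : x ≤ 100 / 10000)
    (a1 : 0 ≤ y) (b1 : y ≤ 4750 / 10000) (a2 : 625 / 10000 ≤ s) (b2 : s ≤ 2500 / 10000)
    (a3 : 0 ≤ r) (b3 : r ≤ 725 / 10000) :
    ∃ e ∈ LRA.ls 10 (LRA.RX 5) 300, 0 < e.val [x, y, s, r] := by
  have h : chkT (LRA.ls 10 (LRA.RX 5) 300) 18
      559138
      [V.of 10000 0 100, V.of 10000 0 4750, V.of 10000 625 2500, V.of 10000 0 725] = true := by
    decide +kernel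
  exact chkT4 h (by norm_num) (by push_cast; linarith only [a0]) (by push_cast; linarith only [b0])
    (by push_cast; linarith only [a1]) (by push_cast; linarith only [b1]) (by push_cast; linarith only [a2])
    (by push_cast; linarith only [b2]) (by push_cast; linarith only [a3]) (by push_cast; linarith only [b3])

/-- 8 boxes -/
theorem c_psa {x y s r : ℝ} (a0 : 100 / 10000 ≤ x) (b0 : x ≤ 1300 / 10000)
    (a1 : 0 ≤ y) (b1 : y ≤ 60 / 10000) (a2 : 625 / 10000 ≤ s) (b2 : s ≤ 1200 / 10000)
    (a3 : 840 / 10000 ≤ r) (b3 : r ≤ 895 / 10000) :
    ∃ e ∈ lp (RG gg1 4) 200, 0 < e.val [x, y, s, r] := by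
  have h : chkT (lp (RG gg1 4) 200) 26
      689218979157803008
      [V.of 10000 100 1300, V.of 10000 0 60, V.of 10000 625 1200, V.of 10000 840 895] = true := by
    decide +kernel
  exact chkT4 h (by norm_num) (by push_cast; linarith only [a0]) (by push_cast; linarith only [b0])
    (by push_cast; linarith only [a1]) (by push_cast; linarith only [b1]) (by push_cast; linarith only [a2])
    (by push_cast; linarith only [b2]) (by push_cast; linarith only [a3]) (by push_cast; linarith only [b3])

/-- 14 boxes -/
theorem c_psb {x y s r : ℝ} (a0 : 100 / 10000 ≤ x) (b0 : x ≤ 1300 / 10000)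
    (a1 : 0 ≤ y) (b1 : y ≤ 60 / 10000) (a2 : 1200 / 10000 ≤ s) (b2 : s ≤ 2500 / 10000)
    (a3 : 840 / 10000 ≤ r) (b3 : r ≤ 895 / 10000) :
    ∃ e ∈ lp (RG gg2 4) 200, 0 < e.val [x, y, s, r] := by
  have h : chkT (lp (RG gg2 4) 200) 26
      215708779254569826396350934712320
      [V.of 10000 100 1300, V.of 10000 0 60, V.of 10000 1200 2500, V.of 10000 840 895] = true := by
    decide +kernel
  exact chkT4 h (by norm_num) (by push_cast; linarith only [a0]) (by push_cast; linarith only [b0])
    (by push_cast; linarith only [a1]) (by push_cast; linarith only [b1]) (by push_cast; linarith only [a2])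
    (by push_cast; linarith only [b2]) (by push_cast; linarith only [a3]) (by push_cast; linarith only [b3])

/-- 8 boxes -/
theorem c_psa12 {x y s r : ℝ} (a0 : 100 / 10000 ≤ x) (b0 : x ≤ 1200 / 10000)
    (a1 : 0 ≤ y) (b1 : y ≤ 60 / 10000) (a2 : 625 / 10000 ≤ s) (b2 : s ≤ 1200 / 10000)
    (a3 : 840 / 10000 ≤ r) (b3 : r ≤ 895 / 10000) :
    ∃ e ∈ lp (RG gg1 4) 300, 0 < e.val [x, y, s, r] := by
  have h : chkT (lp (RG gg1 4) 300) 26
      689218979157803008
      [V.of 10000 100 1200, V.of 10000 0 60, V.of 10000 625 1200, V.of 10000 840 895] = true := by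
    decide +kernel
  exact chkT4 h (by norm_num) (by push_cast; linarith only [a0]) (by push_cast; linarith only [b0])
    (by push_cast; linarith only [a1]) (by push_cast; linarith only [b1]) (by push_cast; linarith only [a2])
    (by push_cast; linarith only [b2]) (by push_cast; linarith only [a3]) (by push_cast; linarith only [b3])

/-- 13 boxes -/
theorem c_psb12 {x y s r : ℝ} (a0 : 100 / 10000 ≤ x) (b0 : x ≤ 1200 / 10000)
    (a1 : 0 ≤ y) (b1 : y ≤ 60 / 10000) (a2 : 1200 / 10000 ≤ s) (b2 : s ≤ 2500 / 10000)
    (a3 : 840 / 10000 ≤ r) (b3 : r ≤ 895 / 10000) :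
    ∃ e ∈ lp (RG gg2 4) 300, 0 < e.val [x, y, s, r] := by
  have h : chkT (lp (RG gg2 4) 300) 26
      842002515296952875310249443328
      [V.of 10000 100 1200, V.of 10000 0 60, V.of 10000 1200 2500, V.of 10000 840 895] = true := by
    decide +kernel
  exact chkT4 h (by norm_num) (by push_cast; linarith only [a0]) (by push_cast; linarith only [b0])
    (by push_cast; linarith only [a1]) (by push_cast; linarith only [b1]) (by push_cast; linarith only [a2])
    (by push_cast; linarith only [b2]) (by push_cast; linarith only [a3]) (by push_cast; linarith only [b3])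

/-- 1 boxes -/
theorem c_psc {x y s r : ℝ} (a0 : 0 ≤ x) (b0 : x ≤ 100 / 10000)
    (a1 : 0 ≤ y) (b1 : y ≤ 60 / 10000) (a2 : 625 / 10000 ≤ s) (b2 : s ≤ 1200 / 10000)
    (a3 : 840 / 10000 ≤ r) (b3 : r ≤ 895 / 10000) :
    ∃ e ∈ lpS 10 (RG gg1 4) 300, 0 < e.val [x, y, s, r] := by
  have h : chkT (lpS 10 (RG gg1 4) 300) 26
      8
      [V.of 10000 0 100, V.of 10000 0 60, V.of 10000 625 1200, V.of 10000 840 895] = true := by
    decide +kernel
  exact chkT4 h (by norm_num) (by push_cast; linarith only [a0]) (by push_cast; linarith only [b0])
    (by push_cast; linarith only [a1]) (by push_cast; linarith only [b1]) (by push_cast; linarith only [a2])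
    (by push_cast; linarith only [b2]) (by push_cast; linarith only [a3]) (by push_cast; linarith only [b3])

/-- 1 boxes -/
theorem c_psd {x y s r : ℝ} (a0 : 0 ≤ x) (b0 : x ≤ 100 / 10000)
    (a1 : 0 ≤ y) (b1 : y ≤ 60 / 10000) (a2 : 1200 / 10000 ≤ s) (b2 : s ≤ 2500 / 10000)
    (a3 : 840 / 10000 ≤ r) (b3 : r ≤ 895 / 10000) :
    ∃ e ∈ lpS 10 (RG gg2 4) 300, 0 < e.val [x, y, s, r] := by
  have h : chkT (lpS 10 (RG gg2 4) 300) 26
      8
      [V.of 10000 0 100, V.of 10000 0 60, V.of 10000 1200 2500, V.of 10000 840 895] = true := by
    decide +kernel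
  exact chkT4 h (by norm_num) (by push_cast; linarith only [a0]) (by push_cast; linarith only [b0])
    (by push_cast; linarith only [a1]) (by push_cast; linarith only [b1]) (by push_cast; linarith only [a2])
    (by push_cast; linarith only [b2]) (by push_cast; linarith only [a3]) (by push_cast; linarith only [b3])

/-- 5 boxes -/
theorem c_psfa {x y s r : ℝ} (a0 : 100 / 10000 ≤ x) (b0 : x ≤ 1300 / 10000)
    (a1 : 0 ≤ y) (b1 : y ≤ 60 / 10000) (a2 : 0 ≤ s) (b2 : s ≤ 2500 / 10000)
    (a3 : 840 / 10000 ≤ r) (b3 : r ≤ 895 / 10000) :
    ∃ e ∈ lf 300, 0 < e.val [x, y, s, r] := by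
  have h : chkT (lf 300) 22
      36549722112
      [V.of 10000 100 1300, V.of 10000 0 60, V.of 10000 0 2500, V.of 10000 840 895] = true := by
    decide +kernel
  exact chkT4 h (by norm_num) (by push_cast; linarith only [a0]) (by push_cast; linarith only [b0])
    (by push_cast; linarith only [a1]) (by push_cast; linarith only [b1]) (by push_cast; linarith only [a2])
    (by push_cast; linarith only [b2]) (by push_cast; linarith only [a3]) (by push_cast; linarith only [b3])

/-- 1 boxes -/
theorem c_psfb {x y s r : ℝ} (a0 : 0 ≤ x) (b0 : x ≤ 100 / 10000)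
    (a1 : 0 ≤ y) (b1 : y ≤ 60 / 10000) (a2 : 0 ≤ s) (b2 : s ≤ 2500 / 10000)
    (a3 : 840 / 10000 ≤ r) (b3 : r ≤ 895 / 10000) :
    ∃ e ∈ lfS 10 300, 0 < e.val [x, y, s, r] := by
  have h : chkT (lfS 10 300) 22
      8
      [V.of 10000 0 100, V.of 10000 0 60, V.of 10000 0 2500, V.of 10000 840 895] = true := by
    decide +kernel
  exact chkT4 h (by norm_num) (by push_cast; linarith only [a0]) (by push_cast; linarith only [b0])
    (by push_cast; linarith only [a1]) (by push_cast; linarith only [b1]) (by push_cast; linarith only [a2])
    (by push_cast; linarith only [b2]) (by push_cast; linarith only [a3]) (by push_cast; linarith only [b3])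

end LRG

namespace LR

open LRG LRC

variable {m x s ρ : ℝ} {w ζ : ℂ}

/-- **`3 | ring`, `x ≤ 7/100`: flat part.** -/
theorem lo7_flat (hw : W x m w) (hz : ZF ζ) (hm : m ≤ 0) (hm' : -(475 / 1000) ≤ m)
    (hx : x ≤ 7 / 100) : 3 / 10 ≤ S4 m w ζ + Real.pi / 2 * m := by
  have x0 := hw.pos
  have s0 := hz.lo
  have s1 := hz.hi
  have e0 := hz.pos
  have e1 := hz.cap
  rcases le_total (2 / 100) x with h | h
  · obtain ⟨e, he, hp⟩ := c_fA (x := x) (y := -m) (s := -ζ.re) (r := ζ.im) (by linarith only [h])
      (by linarith only [hx]) (by linarith only [hm]) (by linarith only [hm']) (by linarith only [s1]) (by linarith only [s0]) (by linarith only [e0])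
        (by linarith only [e1])
    have key := LRA.fD_key (k := 300) (t := 1310) hw hz (by linarith only [hx, x0]) (by push_cast; nlinarith only [hm', hx, x0, hm])
      ⟨e, List.mem_cons.2 (Or.inl (List.mem_singleton.1 he)), hp⟩
    push_cast at key
    linarith only [key]
  · have key := LRA.fDS_key (n := 20) (k := 300) hw hz hm (by push_cast; linarith only [h]) (by norm_num)
      (c_fB (by linarith only [x0]) (by linarith only [h]) (by linarith only [hm]) (by linarith only [hm']) (by linarith only [s1]) (by linarith only [s0])
        (by linarith only [e0]) (by linarith only [e1]))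
    push_cast at key
    linarith only [key]

/-- **`3 | ring`, `x ≤ 7/100`: ramp, `b = 4`, other hinge `≤ 1/2`.** -/
theorem lo7_P4 (hw : W x m w) (hz : ZR s ρ ζ) (hρ : ρ ≤ 1045 / 10000) (hm : m ≤ 0)
    (hm' : -(475 / 1000) ≤ m) (hx : x ≤ 7 / 100) (hF : FP 4 s ρ w ζ) :
    3 / 10 ≤ S4 m w ζ + Real.pi / 2 * m := by
  have x0 := hw.pos
  have s0 := hz.lo
  have s1 := hz.hi
  have r0 := hz.pos
  unfold FP gE at hF
  rcases lt_or_ge s (12 / 100) with hs | hs
  · rw [if_pos hs] at hF
    have hR : Dm (4 * ρ) w ζ ≤ (LRA.RP LRA.g1 4).val [x, -m, s, ρ] := by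
      simp only [LRA.RP, LRA.hb, LRA.g1, E.val, NumIs.lkR]
      push_cast
      linarith only [hF]
    rcases le_total (1 / 100) x with h | h
    · have key := LRA.la_key (k := 300) (t := 1150) hw hz hm (by linarith only [hx, x0])
        (by push_cast; nlinarith only [hm', hx, x0, hm]) hR
        (c_p4a (by linarith only [h]) (by linarith only [hx]) (by linarith only [hm]) (by linarith only [hm']) (by linarith only [s0])
          (by linarith only [hs]) (by linarith only [r0]) (by linarith only [hρ]))
      push_cast at key
      linarith only [key]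
    · have key := LRA.ls_key (n := 10) (k := 300) hw hz hm (by push_cast; linarith only [h]) (by norm_num) hR
        (c_p4c (by linarith only [x0]) (by linarith only [h]) (by linarith only [hm]) (by linarith only [hm']) (by linarith only [s0])
          (by linarith only [hs]) (by linarith only [r0]) (by linarith only [hρ]))
      push_cast at key
      linarith only [key]
  · rw [if_neg (not_lt.2 hs)] at hF
    have hR : Dm (4 * ρ) w ζ ≤ (LRA.RP LRA.g2 4).val [x, -m, s, ρ] := by
      simp only [LRA.RP, LRA.hb, LRA.g2, E.val, NumIs.lkR]
      push_cast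
      linarith only [hF]
    rcases le_total (1 / 100) x with h | h
    · have key := LRA.la_key (k := 300) (t := 1150) hw hz hm (by linarith only [hx, x0])
        (by push_cast; nlinarith only [hm', hx, x0, hm]) hR
        (c_p4b (by linarith only [h]) (by linarith only [hx]) (by linarith only [hm]) (by linarith only [hm']) (by linarith only [hs])
          (by linarith only [s1]) (by linarith only [r0]) (by linarith only [hρ]))
      push_cast at key
      linarith only [key]
    · have key := LRA.ls_key (n := 10) (k := 300) hw hz hm (by push_cast; linarith only [h]) (by norm_num) hR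
        (c_p4d (by linarith only [x0]) (by linarith only [h]) (by linarith only [hm]) (by linarith only [hm']) (by linarith only [hs])
          (by linarith only [s1]) (by linarith only [r0]) (by linarith only [hρ]))
      push_cast at key
      linarith only [key]

/-- **`3 | ring`, `x ≤ 7/100`: ramp, `b = 5`, other hinge `≤ 1/2`.** -/
theorem lo7_P5 (hw : W x m w) (hz : ZR s ρ ζ) (hρ : ρ ≤ 725 / 10000) (hm : m ≤ 0)
    (hm' : -(475 / 1000) ≤ m) (hx : x ≤ 7 / 100) (hF : FP 5 s ρ w ζ) :
    3 / 10 ≤ S4 m w ζ + Real.pi / 2 * m := by
  have x0 := hw.pos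
  have s0 := hz.lo
  have s1 := hz.hi
  have r0 := hz.pos
  unfold FP gE at hF
  rcases lt_or_ge s (12 / 100) with hs | hs
  · rw [if_pos hs] at hF
    have hR : Dm (4 * ρ) w ζ ≤ (LRA.RP LRA.g1 5).val [x, -m, s, ρ] := by
      simp only [LRA.RP, LRA.hb, LRA.g1, E.val, NumIs.lkR]
      push_cast
      linarith only [hF]
    rcases le_total (1 / 100) x with h | h
    · have key := LRA.la_key (k := 300) (t := 1310) hw hz hm (by linarith only [hx, x0])
        (by push_cast; nlinarith only [hm', hx, x0, hm]) hR
        (c_p5a (by linarith only [h]) (by linarith only [hx]) (by linarith only [hm]) (by linarith only [hm']) (by linarith only [s0])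
          (by linarith only [hs]) (by linarith only [r0]) (by linarith only [hρ]))
      push_cast at key
      linarith only [key]
    · have key := LRA.ls_key (n := 10) (k := 300) hw hz hm (by push_cast; linarith only [h]) (by norm_num) hR
        (c_p5c (by linarith only [x0]) (by linarith only [h]) (by linarith only [hm]) (by linarith only [hm']) (by linarith only [s0])
          (by linarith only [hs]) (by linarith only [r0]) (by linarith only [hρ]))
      push_cast at key
      linarith only [key]
  · rw [if_neg (not_lt.2 hs)] at hF
    have hR : Dm (4 * ρ) w ζ ≤ (LRA.RP LRA.g2 5).val [x, -m, s, ρ] := by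
      simp only [LRA.RP, LRA.hb, LRA.g2, E.val, NumIs.lkR]
      push_cast
      linarith only [hF]
    rcases le_total (1 / 100) x with h | h
    · have key := LRA.la_key (k := 300) (t := 1310) hw hz hm (by linarith only [hx, x0])
        (by push_cast; nlinarith only [hm', hx, x0, hm]) hR
        (c_p5b (by linarith only [h]) (by linarith only [hx]) (by linarith only [hm]) (by linarith only [hm']) (by linarith only [hs])
          (by linarith only [s1]) (by linarith only [r0]) (by linarith only [hρ]))
      push_cast at key
      linarith only [key]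
    · have key := LRA.ls_key (n := 10) (k := 300) hw hz hm (by push_cast; linarith only [h]) (by norm_num) hR
        (c_p5d (by linarith only [x0]) (by linarith only [h]) (by linarith only [hm]) (by linarith only [hm']) (by linarith only [hs])
          (by linarith only [s1]) (by linarith only [r0]) (by linarith only [hρ]))
      push_cast at key
      linarith only [key]

/-- **`3 | ring`, `x ≤ 7/100`: ramp, `b = 4`, any other hinge.** -/
theorem lo7_X4 (hw : W x m w) (hz : ZR s ρ ζ) (hρ : ρ ≤ 1045 / 10000) (hm : m ≤ 0)
    (hm' : -(475 / 1000) ≤ m) (hx : x ≤ 7 / 100) (hF : FX 4 s ρ w ζ) :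
    3 / 10 ≤ S4 m w ζ + Real.pi / 2 * m := by
  have x0 := hw.pos
  have s0 := hz.lo
  have s1 := hz.hi
  have r0 := hz.pos
  unfold FX at hF
  have hR : Dm (4 * ρ) w ζ ≤ (LRA.RX 4).val [x, -m, s, ρ] := by
    simp only [LRA.RX, LRA.hb, E.val, NumIs.lkR]
    push_cast
    linarith only [hF]
  rcases le_total (1 / 100) x with h | h
  · have key := LRA.la_key (k := 300) (t := 1150) hw hz hm (by linarith only [hx, x0])
      (by push_cast; nlinarith only [hm', hx, x0, hm]) hR
      (c_x4a (by linarith only [h]) (by linarith only [hx]) (by linarith only [hm]) (by linarith only [hm']) (by linarith only [s0]) (by linarith only [s1])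
        (by linarith only [r0]) (by linarith only [hρ]))
    push_cast at key
    linarith only [key]
  · have key := LRA.ls_key (n := 10) (k := 300) hw hz hm (by push_cast; linarith only [h]) (by norm_num) hR
      (c_x4c (by linarith only [x0]) (by linarith only [h]) (by linarith only [hm]) (by linarith only [hm']) (by linarith only [s0]) (by linarith only [s1])
        (by linarith only [r0]) (by linarith only [hρ]))
    push_cast at key
    linarith only [key]

/-- **`3 | ring`, `x ≤ 7/100`: ramp, `b = 5`, any other hinge.** -/
theorem lo7_X5 (hw : W x m w) (hz : ZR s ρ ζ) (hρ : ρ ≤ 725 / 10000) (hm : m ≤ 0)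
    (hm' : -(475 / 1000) ≤ m) (hx : x ≤ 7 / 100) (hF : FX 5 s ρ w ζ) :
    3 / 10 ≤ S4 m w ζ + Real.pi / 2 * m := by
  have x0 := hw.pos
  have s0 := hz.lo
  have s1 := hz.hi
  have r0 := hz.pos
  unfold FX at hF
  have hR : Dm (4 * ρ) w ζ ≤ (LRA.RX 5).val [x, -m, s, ρ] := by
    simp only [LRA.RX, LRA.hb, E.val, NumIs.lkR]
    push_cast
    linarith only [hF]
  rcases le_total (1 / 100) x with h | h
  · have key := LRA.la_key (k := 300) (t := 1310) hw hz hm (by linarith only [hx, x0])
      (by push_cast; nlinarith only [hm', hx, x0, hm]) hR
      (c_x5a (by linarith only [h]) (by linarith only [hx]) (by linarith only [hm]) (by linarith only [hm']) (by linarith only [s0]) (by linarith only [s1])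
        (by linarith only [r0]) (by linarith only [hρ]))
    push_cast at key
    linarith only [key]
  · have key := LRA.ls_key (n := 10) (k := 300) hw hz hm (by push_cast; linarith only [h]) (by norm_num) hR
      (c_x5c (by linarith only [x0]) (by linarith only [h]) (by linarith only [hm]) (by linarith only [hm']) (by linarith only [s0]) (by linarith only [s1])
        (by linarith only [r0]) (by linarith only [hρ]))
    push_cast at key
    linarith only [key]

/-- **Small positive heights, flat part.** -/
theorem ps_flat (hw : W x m w) (hz : ZF ζ) (hr : 84 / 1000 ≤ ζ.im) (hρ : ζ.im ≤ 895 / 10000)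
    (hm : 0 ≤ m) (hm' : m ≤ 6 / 1000) (hx : x ≤ 13 / 100) :
    3 / 10 ≤ S4 m w ζ + Real.pi / 2 * m := by
  have x0 := hw.pos
  have s0 := hz.lo
  have s1 := hz.hi
  have hpm : 0 ≤ Real.pi / 2 * m := mul_nonneg (by positivity) hm
  have key := keyFl (k := 300) hw hz hm hx
    (fun h => c_psfa (by linarith only [h]) (by linarith only [hx]) (by linarith only [hm]) (by linarith only [hm']) (by linarith only [s1])
      (by linarith only [s0]) (by linarith only [hr]) (by linarith only [hρ]))
    (fun h => c_psfb (by linarith only [x0]) (by linarith only [h]) (by linarith only [hm]) (by linarith only [hm']) (by linarith only [s1])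
      (by linarith only [s0]) (by linarith only [hr]) (by linarith only [hρ]))
  push_cast at key
  linarith only [hpm, key]

/-- **Small positive heights, ramp, `b = 4`, other hinge `≤ 1/2`.** -/
theorem ps_P4 (hw : W x m w) (hz : ZR s ρ ζ) (hr : 84 / 1000 ≤ ρ) (hρ : ρ ≤ 895 / 10000)
    (hm : 0 ≤ m) (hm' : m ≤ 6 / 1000) (hx : x ≤ 13 / 100) (hF : FP 4 s ρ w ζ) :
    2 / 10 ≤ S4 m w ζ + Real.pi / 2 * m := by
  have x0 := hw.pos
  have s0 := hz.lo
  have s1 := hz.hi
  have r0 := hz.pos
  have hpm : 0 ≤ Real.pi / 2 * m := mul_nonneg (by positivity) hm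
  have hmx : m * x ≤ 6 / 1000 * (13 / 100) :=
    mul_le_mul hm' (by linarith only [hx]) x0.le (by norm_num)
  have hrs : 84 / 1000 * (1 / 16) ≤ ρ * s := mul_le_mul hr s0 (by norm_num) r0.le
  have hi : m * x - 4 * ρ * s < 0 := by nlinarith only [hρ, r0, hmx, hrs]
  have hc : m - 4 * ρ ≤ 0 := by linarith only [hr, hm']
  unfold FP gE at hF
  split_ifs at hF with h12
  · have hR : Dm (4 * ρ) w ζ ≤ (RG gg1 4).val [x, m, s, ρ] := by
      simp only [RG, gg1, LRC.hb, E.val, NumIs.lkR]
      push_cast
      linarith only [hF]
    rcases le_total (1 / 100) x with h | h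
    · have key := keyP (k := 200) hw hz hm (by linarith only [hx]) hR hi hc
        (c_psa (by linarith only [h]) (by linarith only [hx]) (by linarith only [hm]) (by linarith only [hm']) (by linarith only [s0])
          (by linarith only [h12]) (by linarith only [hr]) (by linarith only [hρ]))
      push_cast at key
      linarith only [hpm, key]
    · have key := keyPS (n := 10) (k := 300) hw hz hm (by push_cast; linarith only [h]) (by norm_num) hR hi.le
        hc (c_psc (by linarith only [x0]) (by linarith only [h]) (by linarith only [hm]) (by linarith only [hm']) (by linarith only [s0])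
          (by linarith only [h12]) (by linarith only [hr]) (by linarith only [hρ]))
      push_cast at key
      linarith only [x0, hpm, h, key]
  · have hR : Dm (4 * ρ) w ζ ≤ (RG gg2 4).val [x, m, s, ρ] := by
      simp only [RG, gg2, LRC.hb, E.val, NumIs.lkR]
      push_cast
      linarith only [hF]
    rcases le_total (1 / 100) x with h | h
    · have key := keyP (k := 200) hw hz hm (by linarith only [hx]) hR hi hc
        (c_psb (by linarith only [h]) (by linarith only [hx]) (by linarith only [hm]) (by linarith only [hm']) (by linarith only [h12])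
          (by linarith only [s1]) (by linarith only [hr]) (by linarith only [hρ]))
      push_cast at key
      linarith only [hpm, key]
    · have key := keyPS (n := 10) (k := 300) hw hz hm (by push_cast; linarith only [h]) (by norm_num) hR hi.le
        hc (c_psd (by linarith only [x0]) (by linarith only [h]) (by linarith only [hm]) (by linarith only [hm']) (by linarith only [h12])
          (by linarith only [s1]) (by linarith only [hr]) (by linarith only [hρ]))
      push_cast at key
      linarith only [x0, hpm, h, key]

/-- **The same for `x ≤ 12/100`.** -/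
theorem ps12_P4 (hw : W x m w) (hz : ZR s ρ ζ) (hr : 84 / 1000 ≤ ρ) (hρ : ρ ≤ 895 / 10000)
    (hm : 0 ≤ m) (hm' : m ≤ 6 / 1000) (hx : x ≤ 12 / 100) (hF : FP 4 s ρ w ζ) :
    3 / 10 ≤ S4 m w ζ + Real.pi / 2 * m := by
  have x0 := hw.pos
  have s0 := hz.lo
  have s1 := hz.hi
  have r0 := hz.pos
  have hpm : 0 ≤ Real.pi / 2 * m := mul_nonneg (by positivity) hm
  have hmx : m * x ≤ 6 / 1000 * (13 / 100) :=
    mul_le_mul hm' (by linarith only [hρ, hx, r0]) x0.le (by norm_num)
  have hrs : 84 / 1000 * (1 / 16) ≤ ρ * s := mul_le_mul hr s0 (by norm_num) r0.le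
  have hi : m * x - 4 * ρ * s < 0 := by nlinarith only [hρ, r0, hmx, hrs]
  have hc : m - 4 * ρ ≤ 0 := by linarith only [hr, hm']
  unfold FP gE at hF
  split_ifs at hF with h12
  · have hR : Dm (4 * ρ) w ζ ≤ (RG gg1 4).val [x, m, s, ρ] := by
      simp only [RG, gg1, LRC.hb, E.val, NumIs.lkR]
      push_cast
      linarith only [hF]
    rcases le_total (1 / 100) x with h | h
    · have key := keyP (k := 300) hw hz hm (by linarith only [hx]) hR hi hc
        (c_psa12 (by linarith only [h]) (by linarith only [hx]) (by linarith only [hm]) (by linarith only [hm']) (by linarith only [s0])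
          (by linarith only [h12]) (by linarith only [hr]) (by linarith only [hρ]))
      push_cast at key
      linarith only [hpm, key]
    · have key := keyPS (n := 10) (k := 300) hw hz hm (by push_cast; linarith only [h]) (by norm_num) hR hi.le
        hc (c_psc (by linarith only [x0]) (by linarith only [h]) (by linarith only [hm]) (by linarith only [hm']) (by linarith only [s0])
          (by linarith only [h12]) (by linarith only [hr]) (by linarith only [hρ]))
      push_cast at key
      linarith only [hpm, key]
  · have hR : Dm (4 * ρ) w ζ ≤ (RG gg2 4).val [x, m, s, ρ] := by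
      simp only [RG, gg2, LRC.hb, E.val, NumIs.lkR]
      push_cast
      linarith only [hF]
    rcases le_total (1 / 100) x with h | h
    · have key := keyP (k := 300) hw hz hm (by linarith only [hx]) hR hi hc
        (c_psb12 (by linarith only [h]) (by linarith only [hx]) (by linarith only [hm]) (by linarith only [hm']) (by linarith only [h12])
          (by linarith only [s1]) (by linarith only [hr]) (by linarith only [hρ]))
      push_cast at key
      linarith only [hpm, key]
    · have key := keyPS (n := 10) (k := 300) hw hz hm (by push_cast; linarith only [h]) (by norm_num) hR hi.le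
        hc (c_psd (by linarith only [x0]) (by linarith only [h]) (by linarith only [hm]) (by linarith only [hm']) (by linarith only [h12])
          (by linarith only [s1]) (by linarith only [hr]) (by linarith only [hρ]))
      push_cast at key
      linarith only [hpm, key]

end LR

end Pool.Agent.Work.MP_b30479_gtS.G2

end

section

/-!
# Left ramps of the hinges of a ring, heights `≤ 0`, shift `π / 2`: `FX`, `b = 4`
-/

namespace Pool.Agent.Work.MP_b30479_gtS.G2

open VOL NumUs

namespace LRA

open LR
open NumIs (V)

variable {m x s ρ : ℝ} {w ζ : ℂ}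

theorem c_x4a_h1_q1 : Pool.Agent.Work.NumUs.runT (la (RX 4) 180 1150) 25
    24610883679154795131735231956900431628153045182060661688510691334018102865110665782033388747650732002365120313239670630683110759565099692138345450162445014911575060722544520421641804303855903042700892349436085727662006028977453699008482725495216797249311621783579884716559135248281010387999037132552686166150001783202382462659787632162928450226721357697714485191275222422468590578546276448813430650572133431796757992901192746600913272170215776722031582886364487586748630461854620477771882012571870850021144803836319523879964871241296794500700849071542440373207735460010994431414506829161375734256464509035461789168917469691194483706148655258350185773992077401941176266181147375762457456840040108658198508897370325805294734509196336692282075717067494361858319727391026433538784656382498861977356645118060626326444733959316433564908521529020587427850642702238825066158032055016977152666934388742725569958074081554672852784148407906947608079126624305153687682577999138910602622091359256495889597696793574918181272235942118692119273570459021687127591441390464610502458417663808593045033136264546655678913905708129541701604828760721849182502960274234965286876928677971888384048719577131501603098212273257246983809543977744102640093938803796276068914601368590291681894607661895891292101453449767813588428648805033832158068773209708507034567030957155684352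
    (Pool.Agent.Work.NumIs.setL 0 ([V.of 10000 100 1250, V.of 10000 0 11500, V.of 10000 625 1800, V.of 10000 0 1045])) =
    53709465778642959836286367133233822248079766879929091955522370365556505905058611011510363986169546572957395650912216149861065698750148352324693358916297306257284930621390367960297994715615748666380543787929255673117140147142260675799475743314703845878537619839877116738107008675914071449975358446902347710817612927257641898616409298406496413835562605757741138775905994354858216240027817929781607510564709209668167061001135185150455107333441606186012010631031632269599024886970814523562055975548191198469692141184781719413588954311258017876463325601492749452321356445630668730894274650431206338613042869625368598378287254679155693069642579882521930675394809803552166100479381706959808732228918545301206537999731649241691356351809557914158362827821544190325504433424340318754077172696076361953162716108276201971568059761743123351278276916802067601371361922639625334383669423044582923186010465891529054663366540819413693686422520445578530300401827610023453449579504573306716260693230440345402499243860329435782293247824087401286140874007155252199205544258928909913066045635535159679200362587972899330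 := by
  decide +kernel

theorem c_x4a_h1_q2 : Pool.Agent.Work.NumUs.runT (la (RX 4) 180 1150) 23
    209802600697824061860493621614194618156561589374723015451259259240455101191635199263712359320974791300614826761375844335394787885742767001268333433266786352567519260239806124844914041857874018228048999171598654973113828699774455764841702122323061897963037577499519987258230502640289341601466243933212295745381300497100163666470348821900376616545166428741176323343382790448664907187608663788209404338143395350266277582035684316993965263021256274164109416527467313553121190964729744232664281154485121869022234926503053591459331852778351632329934865630831052548130298615744799730055760353246899760207198709474096087415184588590451926053291327666101291700760975795125648829997584792811752860269213067582838039061451754850356860749256085602181104796177906993459001693063829370133113955844048288879541859797953913951437733444309075590930769206258076567856882510311036462436208683767902043695353382388785369778775550075834740962587970490541133985944639101654115037419939739479360393332931407599228512671329411858524582999312841411273987789090450203903146657261441054347914240763809217496876416359269138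
    (Pool.Agent.Work.NumIs.setL 0 (Pool.Agent.Work.NumIs.setL 1 (Pool.Agent.Work.NumIs.setR 0 ([V.of 10000 100 1250, V.of 10000 0 11500, V.of 10000 625 1800, V.of 10000 0 1045])))) =
    889474041682839310320599327246757160151078684428502007965448028705931939527574210908789279075744905840128738810532422468510189569909279689785599743252182616340824144086663117176306162508677057668498168152345527314177635466304627132570095854820332099211626585467592037150563200952136536030494764283236245217178972165708009473469767439960551953880167204148649929459518537048071100891387766303349940928165854473491381525990931960121596740419121382644249825850224833823879222407915348367704684844377728054763874079979671368768937040209397519831074568533035171865971822918286603296622438865084449164809071566561638526131943646682878051186965891162967670656463579037066426121784107499325901649678008765335792721786280245002441335391634492744203076543839612720902520287196250492617716333211131586726712085161508468244472944041341630254016240505952830304974654603335602142504522469140269724650470555663572564467321995121025184730059539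 := by
  decide +kernel

theorem c_x4a_h1_q3 : Pool.Agent.Work.NumUs.runT (la (RX 4) 180 1150) 22
    55592127605177456895037457952922322509442417776781375497840501794120746220473388181799329942234056615008046175658276404281886848119329980611599983953261413521301509005416444823519135156792316104281135509521595457136102216644039195785630990926270756200726661591724502321910200059508533501905922767702265326073685760356750592091860464997534497117510450259290620591219908565504443805711735393959371308010365904593211345374433247507599796276195086415265614115639052113992451400494709272981542802773608003422742129998729460548058565013087344989442160533314698241623238932392912706038902429067778072800566972910102407883246477917679878199185368197685479416028973689816651632611506718707868853104875547833487045111642515312652583461977155796512692283989975795056407517949765655788607270825695724170419505322594279265279559002583851890876015031622051894060915912708475133906532654321266857790654409728973285279207624695064074045628721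
    (Pool.Agent.Work.NumIs.setL 2 (Pool.Agent.Work.NumIs.setR 0 (Pool.Agent.Work.NumIs.setL 1 (Pool.Agent.Work.NumIs.setR 0 ([V.of 10000 100 1250, V.of 10000 0 11500, V.of 10000 625 1800, V.of 10000 0 1045]))))) =
    20531237019832784071608971184697024877099532695275699144088003274791419522846682063403852548260186341060503531176310158891640641967385098552109221863711009110244805259163376022815669949889712298198310387904101436150884571741956406023677002280381333332408322990551436821822866751163006491745809612732022098221287571522647539927089159849588066669547734805141453530877095584379844770289622188514033665262826623806865771881011270345093876782982448608015741148743507015199145584467884856683353213724452165104997558936617088597189509875045004325898573456459971346219877906781430173209320075313769210949897030201837054177973608266538826546749410220331228205452740209592740959541454566196041539940446598022946764040106655477524256069343690442705985795061811915345214696406204632839479713338525163669157847346 := by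
  decide +kernel

theorem c_x4a_h1_q4 : Pool.Agent.Work.NumUs.runT (la (RX 4) 180 1150) 21
    1283202313739549004475560699043564054818720793454731196505500204674463720177917628962740784266261646316281470698519384930727540122961568659506826366481938069390300328697711001425979371868107018637394399244006339759430285733872275376479812642523833333275520186909464801363929171947687905734113100795751381138830473220165471245443072490599254166846733425321340845679818474023740298143101386782127104078926663987929110742563204396568367298936403038000983821796469188449946599029242803542709575857778260319062347433538568037324344367190312770368660841028748209138742369173839385825582504707110575684368564387614815886123350516658676659171838138770701762840796263099546309971340910387252596246277912376434172752506665967345266004333980652669124112191363244709075918525387789552467482083657822729322365459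
    (Pool.Agent.Work.NumIs.setL 1 (Pool.Agent.Work.NumIs.setR 2 (Pool.Agent.Work.NumIs.setR 0 (Pool.Agent.Work.NumIs.setL 1 (Pool.Agent.Work.NumIs.setR 0 ([V.of 10000 100 1250, V.of 10000 0 11500, V.of 10000 625 1800, V.of 10000 0 1045])))))) =
    815870092968274484506720997965986676150553261353206264627502495730332616639667318647431950221699305282784638309870508753677441780197815877143427682622349459904977422572169723342719879651914716691571562952503785334288971653576340547493389223755514288873633657302670363979606771928222216641474037739360727268771050511992459256852632052300840992099850142322290305964043555249093990635546018324 := by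
  decide +kernel

theorem c_x4a_h1_q5 : Pool.Agent.Work.NumUs.runT (la (RX 4) 180 1150) 21
    815870092968274484506720997965986676150553261353206264627502495730332616639667318647431950221699305282784638309870508753677441780197815877143427682622349459904977422572169723342719879651914716691571562952503785334288971653576340547493389223755514288873633657302670363979606771928222216641474037739360727268771050511992459256852632052300840992099850142322290305964043555249093990635546018323
    (Pool.Agent.Work.NumIs.setR 1 (Pool.Agent.Work.NumIs.setR 2 (Pool.Agent.Work.NumIs.setR 0 (Pool.Agent.Work.NumIs.setL 1 (Pool.Agent.Work.NumIs.setR 0 ([V.of 10000 100 1250, V.of 10000 0 11500, V.of 10000 625 1800, V.of 10000 0 1045])))))) =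
    63806239101454972069831570864032378207903889035420274739867107502117317385240173963028613774428931963787904873771854776145646374224249899000421288456365065964104560618271852208574327976303798647635642181822728821435288717192600521749251162401 := by
  decide +kernel

theorem c_x4a_h1_q6 : Pool.Agent.Work.NumUs.runT (la (RX 4) 180 1150) 24
    63806239101454972069831570864032378207903889035420274739867107502117317385240173963028613774428931963787904873771854776145646374224249899000421288456365065964104560618271852208574327976303798647635642181822728821435288717192600521749251162400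
    (Pool.Agent.Work.NumIs.setR 1 (Pool.Agent.Work.NumIs.setR 0 ([V.of 10000 100 1250, V.of 10000 0 11500, V.of 10000 625 1800, V.of 10000 0 1045]))) =
    1 := by
  decide +kernel

/-- 561 boxes -/
theorem c_x4a {x y s r : ℝ} (a1 : 100 / 10000 ≤ x) (b1 : x ≤ 1250 / 10000) (a2 : 0 ≤ y) (b2 : y ≤ 11500 / 10000)
    (a3 : 625 / 10000 ≤ s) (b3 : s ≤ 1800 / 10000) (a4 : 0 ≤ r) (b4 : r ≤ 1045 / 10000) :
    ∃ e ∈ la (RX 4) 180 1150, 0 < e.val [x, y, s, r] := by
  have h : chkT (la (RX 4) 180 1150) 26
      39377413886647672210776371131040690605044872291297058701617106134428964584177065251253421996241171203784192501183473009092977215304159507421352720259912023858520097156071232674626886886169444868321427759097737164259209646363925918413572360792346875598898594853727815546494616397249616620798459412084297865840002853123811940255660211460685520362754172316343176306040355875949744925674042318101489040915413490874812788641908394561461235472345242755250532618183180138797808738967392764435011220114993360033831686138111238207943793986074871201121358514467904597132376736017591090263210926658201174810343214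4567388626702679515059111739298378484133602972383873238431058820258898358012199319309440641738531176142357925212884715752147141387076513211473079909789733115638256422936620554502119981791637706321888970021223115743349062937038536344464329398845610283235821201058528512880271634442670950219883609119329185304874765644546374526511161729266025988882459002921247986222569641953461748103934233563148697198690900355775073899073908377127344346994041463062247433768039334682620937488720530180232746490862622491330072667225677260171549586920047364387759444590030858847550214144779513234104025649571396372115951740952703643905642241503020860740417102633621897444666910313722590334260673623255196285017414858380880541314529100371355336112553072495314490949632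
      [V.of 10000 100 1250, V.of 10000 0 11500,
        V.of 10000 625 1800, V.of 10000 0 1045] = true :=
      Pool.Agent.Work.NumUs.chkT_of (Pool.Agent.Work.NumUs.runT_split rfl rfl rfl
        c_x4a_h1_q1
        (Pool.Agent.Work.NumUs.runT_split rfl rfl rfl
          (Pool.Agent.Work.NumUs.runT_split rfl rfl rfl
            c_x4a_h1_q2
            (Pool.Agent.Work.NumUs.runT_split rfl rfl rfl
              c_x4a_h1_q3
              (Pool.Agent.Work.NumUs.runT_split rfl rfl rfl
                c_x4a_h1_q4
                c_x4a_h1_q5)))
          c_x4a_h1_q6))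
  exact chkT4 h (by norm_num) (by push_cast; linarith only [a1]) (by push_cast; linarith only [b1])
    (by push_cast; linarith only [a2]) (by push_cast; linarith only [b2]) (by push_cast; linarith only [a3])
    (by push_cast; linarith only [b3]) (by push_cast; linarith only [a4]) (by push_cast; linarith only [b4])

theorem c_x4b_h1_q1 : Pool.Agent.Work.NumUs.runT (la (RX 4) 180 1150) 25
    9286290966006726337138850393136071307128474884913469877018300289831442753558071163957960053977418113935326122892211982425311077356221427915846367698144143038722096535752704187262742927923535746399217163071970691377015931101730622789900195800004254561978383442996670707712950854352997210967978403867487862306898773389060984380070614983107578806643169181958489314845456904712105836781158502024845045713622665428231511375576570561752316858786918811592095077510683642462564520757259062325644372744458300411091701715798971416848182144469512989478296283423669984422647750455078634048657620762748671580899323396220888767649496028354111797744968509323353259052150413457574722837859757322627838926657082919296227278304691624112370268242078847894643655615611274408707496293470702356086254335418481102807573940985105935913650264936238754509575548002105593751689408572200154278900862976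
    (Pool.Agent.Work.NumIs.setL 0 ([V.of 10000 100 1250, V.of 10000 0 11500, V.of 10000 1800 2500, V.of 10000 0 1045])) =
    436639302825317997120527036066858249042102672065518898004865031011482746953281371683060385315547771345864327789356530102094021700850915410055599399805696980981860306944065681448620696217016831445147108502355734772137403772944790580375582328391995556860129979566211915287369761529173376918810992270995541452034949058499701297521333718740395179074932271698293070049406410389481958291037559956194841036992954142888754905621756481187296683880958471154595128326663564192606765490049025670111735901279081246328709145404662532284228337863789310718791135013067552234316260160863612427909322718618182263789455030843294275983909635249708123889730227235900753585803985529214407040550872851525217033243940741386974241753826124704323516980955034162213993969016557592549060122587975811328646486171469782352097880397011835796695555396924026180274950658 := by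
  decide +kernel

theorem c_x4b_h1_q2 : Pool.Agent.Work.NumUs.runT (la (RX 4) 180 1150) 23
    1705622276661398426252058734636165035320713562755933195331504027388604480286255358136954630138858481819782530427173945711304772268948888320529685155491003831960391824000256568158674594597721997832605892587327088953661733488065588204592118470281232643984882732680515294091288130973333503589105438558576333797011519759764458193442709838829668668261454186321457304880493790583913899574365468578886097800753727120659198850084986254637877671409994027947637220026029547627370177695504006523873968364371411118471520099236963016735266944780426994995277871144795125915297891253373486046520791869602274467927558714231618265562147012694172358944258700140237318694546818473493777502151847076270379036109143521042868131850883299626263738206855602196148413941470928095894766103859280513002525336607303837312882345300827483580842013269234477266699026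
    (Pool.Agent.Work.NumIs.setL 0 (Pool.Agent.Work.NumIs.setL 1 (Pool.Agent.Work.NumIs.setR 0 ([V.of 10000 100 1250, V.of 10000 0 11500, V.of 10000 1800 2500, V.of 10000 0 1045])))) =
    20530681352725735470797321539497740771455930382432762685973734163750124272478711623344793082191031845030123199155847259739970799261765586604004936188386175933341597758581597929249202300763490731915102883547107569273165024409751338682929088533182327062940256187681263368506955263782056916463270671408799674606640890771388855182727244692161199523520712598385487295252107589052342134495605231302921707321027722828178067724572735866097870257132181427538566782184385654186033190122691636900611546324311820741125833119234723446353649804756195619112754969614306236068690575008814361341962998500891087680168689094755064485571084698180877068941278508670756405647130969261921513790180792065058554994318338622323605118018555023922301472525559515741544627072196472894994628312656369473671833995971531650863661843 := by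
  decide +kernel

theorem c_x4b_h1_q3 : Pool.Agent.Work.NumUs.runT (la (RX 4) 180 1150) 21
    80197974034084904182802037263663049888499728056377979242084899077148922939369967278690597977308718144648918746702528358359260934616271822671894281985883499739615616244459366911129696487357385671543370638855888942473300876600591166730191752082743465089610375733129935033230293999148659829934651060190623728932190979575737715557528299578754685638752783587443309747078545269735711462873457934777037919222764542297570577049112249476944805691922583701322526492907756461664192148916764206643013852829343049770022785622010638462318944549828889137159199100055883734643322558628181098992042962894105811250658941776386970646762049602269051050551869174495142209559105348679380913242893719004134980446556010243451582492259980562196490127052966858365408699500767472246072766846313943256530601546763795511186179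
    (Pool.Agent.Work.NumIs.setL 1 (Pool.Agent.Work.NumIs.setL 2 (Pool.Agent.Work.NumIs.setR 0 (Pool.Agent.Work.NumIs.setL 1 (Pool.Agent.Work.NumIs.setR 0 ([V.of 10000 100 1250, V.of 10000 0 11500, V.of 10000 1800 2500, V.of 10000 0 1045])))))) =
    5558156912177940067950646507872002179984904260824511385580130070301344420231201557525311702935683156293463722099757610866517120716777502190888577379598806228460279618267408913208707379683719770808577345405039831575206033313972415970299078655952208663884652694538195456899543639072820 := by
  decide +kernel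

theorem c_x4b_h1_q4 : Pool.Agent.Work.NumUs.runT (la (RX 4) 180 1150) 21
    5558156912177940067950646507872002179984904260824511385580130070301344420231201557525311702935683156293463722099757610866517120716777502190888577379598806228460279618267408913208707379683719770808577345405039831575206033313972415970299078655952208663884652694538195456899543639072819
    (Pool.Agent.Work.NumIs.setR 1 (Pool.Agent.Work.NumIs.setL 2 (Pool.Agent.Work.NumIs.setR 0 (Pool.Agent.Work.NumIs.setL 1 (Pool.Agent.Work.NumIs.setR 0 ([V.of 10000 100 1250, V.of 10000 0 11500, V.of 10000 1800 2500, V.of 10000 0 1045])))))) =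
    477939321887091829511026178673176298647044296023343244525268473547795090882409716490164208239993626102701973859382995198372429923195643546530058290 := by
  decide +kernel

theorem c_x4b_h1_q5 : Pool.Agent.Work.NumUs.runT (la (RX 4) 180 1150) 22
    477939321887091829511026178673176298647044296023343244525268473547795090882409716490164208239993626102701973859382995198372429923195643546530058289
    (Pool.Agent.Work.NumIs.setR 2 (Pool.Agent.Work.NumIs.setR 0 (Pool.Agent.Work.NumIs.setL 1 (Pool.Agent.Work.NumIs.setR 0 ([V.of 10000 100 1250, V.of 10000 0 11500, V.of 10000 1800 2500, V.of 10000 0 1045]))))) =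
    5232309670318954786995231130983210853831022293047473037881447289428828940683984881921881362089972481 := by
  decide +kernel

theorem c_x4b_h1_q6 : Pool.Agent.Work.NumUs.runT (la (RX 4) 180 1150) 24
    5232309670318954786995231130983210853831022293047473037881447289428828940683984881921881362089972480
    (Pool.Agent.Work.NumIs.setR 1 (Pool.Agent.Work.NumIs.setR 0 ([V.of 10000 100 1250, V.of 10000 0 11500, V.of 10000 1800 2500, V.of 10000 0 1045]))) =
    1 := by
  decide +kernel

/-- 364 boxes -/
theorem c_x4b {x y s r : ℝ} (a1 : 100 / 10000 ≤ x) (b1 : x ≤ 1250 / 10000) (a2 : 0 ≤ y) (b2 : y ≤ 11500 / 10000)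
    (a3 : 1800 / 10000 ≤ s) (b3 : s ≤ 2500 / 10000) (a4 : 0 ≤ r) (b4 : r ≤ 1045 / 10000) :
    ∃ e ∈ la (RX 4) 180 1150, 0 < e.val [x, y, s, r] := by
  have h : chkT (la (RX 4) 180 1150) 26
      148580655456107621394221606290177140914055598158615518032292804637303084056929138623327360863638689822965217966275391718804977237699542846653541883170306288619553544572043266996203886846776571942387474609151531062032254897627689964638403132800068072991654135087946731323407213669647955375487654461879805796910380374224975750081129839729721260906290706911335829037527310475393693388498536032397520731417962646851704182009225128988037069740590700985473521240170938279401032332116144997210309963911332806577467227452783542669570914311512207831652740534778719750762364007281258144778521932203978745294389174339534220282391936453665788763919496149173652144834406615321195565405756117162045422826513326708739636452875065985797924291873261566314298489849780390539319940695531237697380069366695697644921183055761694974618404238979820072153208768033689500027030537155202468462413807616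
      [V.of 10000 100 1250, V.of 10000 0 11500,
        V.of 10000 1800 2500, V.of 10000 0 1045] = true :=
      Pool.Agent.Work.NumUs.chkT_of (Pool.Agent.Work.NumUs.runT_split rfl rfl rfl
        c_x4b_h1_q1
        (Pool.Agent.Work.NumUs.runT_split rfl rfl rfl
          (Pool.Agent.Work.NumUs.runT_split rfl rfl rfl
            c_x4b_h1_q2
            (Pool.Agent.Work.NumUs.runT_split rfl rfl rfl
              (Pool.Agent.Work.NumUs.runT_split rfl rfl rfl
                c_x4b_h1_q3
                c_x4b_h1_q4)
              c_x4b_h1_q5))
          c_x4b_h1_q6))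
  exact chkT4 h (by norm_num) (by push_cast; linarith only [a1]) (by push_cast; linarith only [b1])
    (by push_cast; linarith only [a2]) (by push_cast; linarith only [b2]) (by push_cast; linarith only [a3])
    (by push_cast; linarith only [b3]) (by push_cast; linarith only [a4]) (by push_cast; linarith only [b4])

/-- 6 boxes -/
theorem c_x4c {x y s r : ℝ} (a1 : 0 ≤ x) (b1 : x ≤ 100 / 10000) (a2 : 0 ≤ y) (b2 : y ≤ 11500 / 10000)
    (a3 : 625 / 10000 ≤ s) (b3 : s ≤ 2500 / 10000) (a4 : 0 ≤ r) (b4 : r ≤ 1045 / 10000) :
    ∃ e ∈ ls 10 (RX 4) 180, 0 < e.val [x, y, s, r] := by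
  have h : chkT (ls 10 (RX 4) 180) 18
      10555041591842
      [V.of 10000 0 100, V.of 10000 0 11500,
        V.of 10000 625 2500, V.of 10000 0 1045] = true := by
    decide +kernel
  exact chkT4 h (by norm_num) (by push_cast; linarith only [a1]) (by push_cast; linarith only [b1])
    (by push_cast; linarith only [a2]) (by push_cast; linarith only [b2]) (by push_cast; linarith only [a3])
    (by push_cast; linarith only [b3]) (by push_cast; linarith only [a4]) (by push_cast; linarith only [b4])

end LRA

namespace LR

open LRA

variable {m x s ρ : ℝ} {w ζ : ℂ}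

/-- **Ramp, `b = 4`, any other hinge.** -/
theorem lo_X4 (hw : W x m w) (hz : ZR s ρ ζ) (hρ : ρ ≤ 1045 / 10000) (hm : m ≤ 0)
    (hm' : -(115 / 100) ≤ m) (hx : x ≤ 125 / 1000) (ht : -(115 / 1000) ≤ m * x)
    (hF : FX 4 s ρ w ζ) : 18 / 100 ≤ S4 m w ζ + Real.pi / 2 * m := by
  have x0 := hw.pos
  have s0 := hz.lo
  have s1 := hz.hi
  have r0 := hz.pos
  unfold FX at hF
  have hR : Dm (4 * ρ) w ζ ≤ (LRA.RX 4).val [x, -m, s, ρ] := by
    simp only [LRA.RX, LRA.hb, E.val, NumIs.lkR]
    push_cast
    linarith only [hF]
  rcases le_total (1 / 100) x with h | h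
  · have h2 : ∃ e ∈ la (RX 4) 180 1150, 0 < e.val [x, -m, s, ρ] := by
      rcases le_total s (18 / 100) with h3 | h3
      · exact c_x4a (by linarith only [h]) (by linarith only [hx]) (by linarith only [hm]) (by linarith only [hm']) (by linarith only [s0])
          (by linarith only [h3]) (by linarith only [r0]) (by linarith only [hρ])
      · exact c_x4b (by linarith only [h]) (by linarith only [hx]) (by linarith only [hm]) (by linarith only [hm']) (by linarith only [h3])
          (by linarith only [s1]) (by linarith only [r0]) (by linarith only [hρ])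
    have key := la_key (k := 180) (t := 1150) hw hz hm (by linarith only [hρ, hx, r0]) (by push_cast; linarith only [ht]) hR h2
    push_cast at key
    linarith only [key]
  · have key := ls_key (n := 10) (k := 180) hw hz hm (by push_cast; linarith only [h]) (by norm_num) hR
      (c_x4c (by linarith only [x0]) (by linarith only [h]) (by linarith only [hm]) (by linarith only [hm']) (by linarith only [s0])
        (by linarith only [s1]) (by linarith only [r0]) (by linarith only [hρ]))
    push_cast at key
    linarith only [key]

end LR

end Pool.Agent.Work.MP_b30479_gtS.G2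

end
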