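import Pool.Agent.Work.MP_b30479_gt.TBS.G2.LR0
import Pool.Agent.Work.MP_b30479_gt.TBS.NumU.Tree
import Pool.Agent.Work.MP_b30479_gt.TBS.G2.RngKd
import Pool.Agent.Work.MP_b30479_gt.TBS.G2.RngG
import Pool.Agent.Work.MP_b30479_gt.TBS.G2.RngC

section

/-!
# Left ramps of the hinges of a ring, heights `≤ 0`, shift `π / 2`: `FX`, `b = 5`
-/

namespace Pool.Agent.Work.MP_b30479_gtS.G2

open VOL NumUs

namespace LRA

open LR
open NumIs (V)

variable {m x s ρ : ℝ} {w ζ : ℂ}

/-- 528 boxes -/
theorem c_x5a {x y s r : ℝ} (a1 : 100 / 10000 ≤ x) (b1 : x ≤ 1250 / 10000) (a2 : 0 ≤ y) (b2 : y ≤ 13100 / 10000)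
    (a3 : 625 / 10000 ≤ s) (b3 : s ≤ 2500 / 10000) (a4 : 0 ≤ r) (b4 : r ≤ 725 / 10000) :
    ∃ e ∈ la (RX 5) 180 1310, 0 < e.val [x, y, s, r] := by
  have h : chkT (la (RX 5) 180 1310) 26
      13283623467651499444303675546417343972842364224239219616512618650008845906650913685045381808009607688252693744384639249452563023250387550400160049071319664239084962542670868991377279356926851658517228198027808253355762553102262254937014266928663508613377345428604873661600391096553436523717144430260599966257436579263403361729096546995036942915318893491227308304574845985999493330903886511828743352845747401077955616544290523558394267329452228445038116468461060548418284351369138935833968990163273959784536893066234681576493615627907774468933003127763952536360931972038993888837362607868902973083172269765446878645147960664974369544316211447598027703149927296247112874925889048844679046849100913820921572326744471220225531954822337613315131017735089797352427375145184043820970424179450892954828314641746346844777232777996326382399376233801698927604999949268857332427372122369976508722284879881019804820202677022966101662153567898321383421865459566568723443413691252326039004349118656422250161314928526246466878352967221614972434186134944343165883446764114516522377884047092931746967352878515763018166966896888165378873612731975997751382263439133490049724041199486920829403850651456714932626586921383335451618929165502963528835762588034353187623221394183537914552282906624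
      [V.of 10000 100 1250, V.of 10000 0 13100,
        V.of 10000 625 2500, V.of 10000 0 725] = true := by
    decide +kernel
  exact chkT4 h (by norm_num) (by push_cast; linarith only [a1]) (by push_cast; linarith only [b1])
    (by push_cast; linarith only [a2]) (by push_cast; linarith only [b2]) (by push_cast; linarith only [a3])
    (by push_cast; linarith only [b3]) (by push_cast; linarith only [a4]) (by push_cast; linarith only [b4])

/-- 7 boxes -/
theorem c_x5c {x y s r : ℝ} (a1 : 0 ≤ x) (b1 : x ≤ 100 / 10000) (a2 : 0 ≤ y) (b2 : y ≤ 13100 / 10000)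
    (a3 : 625 / 10000 ≤ s) (b3 : s ≤ 2500 / 10000) (a4 : 0 ≤ r) (b4 : r ≤ 725 / 10000) :
    ∃ e ∈ ls 10 (RX 5) 180, 0 < e.val [x, y, s, r] := by
  have h : chkT (ls 10 (RX 5) 180) 18
      2702090899558946
      [V.of 10000 0 100, V.of 10000 0 13100,
        V.of 10000 625 2500, V.of 10000 0 725] = true := by
    decide +kernel
  exact chkT4 h (by norm_num) (by push_cast; linarith only [a1]) (by push_cast; linarith only [b1])
    (by push_cast; linarith only [a2]) (by push_cast; linarith only [b2]) (by push_cast; linarith only [a3])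
    (by push_cast; linarith only [b3]) (by push_cast; linarith only [a4]) (by push_cast; linarith only [b4])

end LRA

namespace LR

open LRA

variable {m x s ρ : ℝ} {w ζ : ℂ}

/-- **Ramp, `b = 5`, any other hinge.** -/
theorem lo_X5 (hw : W x m w) (hz : ZR s ρ ζ) (hρ : ρ ≤ 725 / 10000) (hm : m ≤ 0)
    (hm' : -(131 / 100) ≤ m) (hx : x ≤ 125 / 1000) (ht : -(131 / 1000) ≤ m * x)
    (hF : FX 5 s ρ w ζ) : 18 / 100 ≤ S4 m w ζ + Real.pi / 2 * m := by
  have x0 := hw.pos
  have s0 := hz.lo
  have s1 := hz.hi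
  have r0 := hz.pos
  unfold FX at hF
  have hR : Dm (4 * ρ) w ζ ≤ (LRA.RX 5).val [x, -m, s, ρ] := by
    simp only [LRA.RX, LRA.hb, E.val, NumIs.lkR]
    push_cast
    linarith only [hF]
  rcases le_total (1 / 100) x with h | h
  · have h2 : ∃ e ∈ la (RX 5) 180 1310, 0 < e.val [x, -m, s, ρ] :=
      c_x5a (by linarith only [h]) (by linarith only [hx]) (by linarith only [hm]) (by linarith only [hm']) (by linarith only [s0])
        (by linarith only [s1]) (by linarith only [r0]) (by linarith only [hρ])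
    have key := la_key (k := 180) (t := 1310) hw hz hm (by linarith only [hρ, hx, r0]) (by push_cast; linarith only [ht]) hR h2
    push_cast at key
    linarith only [key]
  · have key := ls_key (n := 10) (k := 180) hw hz hm (by push_cast; linarith only [h]) (by norm_num) hR
      (c_x5c (by linarith only [x0]) (by linarith only [h]) (by linarith only [hm]) (by linarith only [hm']) (by linarith only [s0])
        (by linarith only [s1]) (by linarith only [r0]) (by linarith only [hρ]))
    push_cast at key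
    linarith only [key]

end LR

end Pool.Agent.Work.MP_b30479_gtS.G2

end

section

/-!
# Ring sides: the first order condition of one hinge on the flat part of the ring path
-/

namespace Pool.Agent.Work.MP_b30479_gtS.G2

open Finset VOL Filter Topology

variable {x t σ η c a b s ρ T θ y K κ m l : ℝ} {w w' ζ : ℂ} {k k' : RKe}

section
open NumIs NumIs.E

/-- constants -/
private theorem cs : 5877 / 10000 ≤ Real.sin (2 * Real.pi * (1 / 10)) ∧
    77 / 100 ≤ Real.sin (2 * Real.pi * (36 / 100)) ∧ 844 / 1000 ≤ Real.sin (2 * Real.pi * (16 / 100)) ∧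
    Real.sin (2 * Real.pi * (16 / 100)) ≤ 8445 / 10000 ∧ 535 / 1000 ≤ Real.cos (2 * Real.pi * (16 / 100)) := by
  have h1 : chk [sub (sinPi (q 2 10)) (q 5877 10000)] 10 [V.of 1 0 0] = true := by decide +kernel
  have h2 : chk [sub (sinPi (q 72 100)) (q 77 100)] 10 [V.of 1 0 0] = true := by decide +kernel
  have h3 : chk [sub (sinPi (q 32 100)) (q 844 1000)] 10 [V.of 1 0 0] = true := by decide +kernel
  have h4 : chk [sub (q 8445 10000) (sinPi (q 32 100))] 10 [V.of 1 0 0] = true := by decide +kernel
  have h5 : chk [sub (cosPi (q 32 100)) (q 535 1000)] 10 [V.of 1 0 0] = true := by decide +kernel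
  have p1 := pos_of_chk (chk1 h1 (by norm_num) (x := 0) (by norm_num) (by norm_num))
  have p2 := pos_of_chk (chk1 h2 (by norm_num) (x := 0) (by norm_num) (by norm_num))
  have p3 := pos_of_chk (chk1 h3 (by norm_num) (x := 0) (by norm_num) (by norm_num))
  have p4 := pos_of_chk (chk1 h4 (by norm_num) (x := 0) (by norm_num) (by norm_num))
  have p5 := pos_of_chk (chk1 h5 (by norm_num) (x := 0) (by norm_num) (by norm_num))
  simp only [E.val] at p1 p2 p3 p4 p5
  simp only [Int.cast_ofNat, Nat.cast_ofNat] at p1 p2 p3 p4 p5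
  rw [show Real.pi * (2 / 10) = 2 * Real.pi * (1 / 10) by ring] at p1
  rw [show Real.pi * (72 / 100) = 2 * Real.pi * (36 / 100) by ring] at p2
  rw [show Real.pi * (32 / 100) = 2 * Real.pi * (16 / 100) by ring] at p3 p4 p5
  refine ⟨?_, ?_, ?_, ?_, ?_⟩ <;> linarith only [p1, p2, p3, p4, p5]

private theorem ch : Real.sinh (2 * Real.pi * (158 / 1000)) ≤ 11642 / 10000 ∧
    Real.sinh (2 * Real.pi * (128 / 1000)) ≤ 8943 / 10000 ∧
    Real.sinh (2 * Real.pi * (131 / 1000)) ≤ 9196 / 10000 ∧
    Real.sinh (2 * Real.pi * (115 / 1000)) ≤ 7873 / 10000 ∧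
    Real.sinh (2 * Real.pi * (385 / 10000)) ≤ 2444 / 10000 ∧
    Real.sinh (2 * Real.pi * (1045 / 10000)) ≤ 7050 / 10000 ∧
    Real.sinh (2 * Real.pi * (725 / 10000)) ≤ 4717 / 10000 := by
  have h1 : chk [sub (q 11642 10000) (sinh (mul (mul (q 2 1) pi) (q 158 1000)))] 10 [V.of 1 0 0] = true := by
    decide +kernel
  have h2 : chk [sub (q 8943 10000) (sinh (mul (mul (q 2 1) pi) (q 128 1000)))] 10 [V.of 1 0 0] = true := by
    decide +kernel
  have h3 : chk [sub (q 9196 10000) (sinh (mul (mul (q 2 1) pi) (q 131 1000)))] 10 [V.of 1 0 0] = true := by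
    decide +kernel
  have h4 : chk [sub (q 7873 10000) (sinh (mul (mul (q 2 1) pi) (q 115 1000)))] 10 [V.of 1 0 0] = true := by
    decide +kernel
  have h5 : chk [sub (q 2444 10000) (sinh (mul (mul (q 2 1) pi) (q 385 10000)))] 10 [V.of 1 0 0] = true := by
    decide +kernel
  have h6 : chk [sub (q 7050 10000) (sinh (mul (mul (q 2 1) pi) (q 1045 10000)))] 10 [V.of 1 0 0] = true := by
    decide +kernel
  have h7 : chk [sub (q 4717 10000) (sinh (mul (mul (q 2 1) pi) (q 725 10000)))] 10 [V.of 1 0 0] = true := by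
    decide +kernel
  have p1 := pos_of_chk (chk1 h1 (by norm_num) (x := 0) (by norm_num) (by norm_num))
  have p2 := pos_of_chk (chk1 h2 (by norm_num) (x := 0) (by norm_num) (by norm_num))
  have p3 := pos_of_chk (chk1 h3 (by norm_num) (x := 0) (by norm_num) (by norm_num))
  have p4 := pos_of_chk (chk1 h4 (by norm_num) (x := 0) (by norm_num) (by norm_num))
  have p5 := pos_of_chk (chk1 h5 (by norm_num) (x := 0) (by norm_num) (by norm_num))
  have p6 := pos_of_chk (chk1 h6 (by norm_num) (x := 0) (by norm_num) (by norm_num))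
  have p7 := pos_of_chk (chk1 h7 (by norm_num) (x := 0) (by norm_num) (by norm_num))
  simp only [E.val] at p1 p2 p3 p4 p5 p6 p7
  simp only [Int.cast_ofNat, Nat.cast_ofNat, Nat.cast_one, div_one] at p1 p2 p3 p4 p5 p6 p7
  refine ⟨?_, ?_, ?_, ?_, ?_, ?_, ?_⟩ <;> linarith only [p1, p2, p3, p4, p5, p6, p7]

end

/-- the ratio of the height and the place of a hinge `≤ 36/100` on its path -/
theorem RH.kap {XM cl cr S : ℝ} (hw : RH w T XM cl cr) (hT : T ≤ 0) (hcl : 1 / 10 ≤ cl)
    (hcl' : cl ≤ 16 / 100) (hcr : 0 < cr) (hcc : cl + cr < XM) (hx : w.re ≤ 36 / 100)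
    (hS : Real.sinh (2 * Real.pi * -T) ≤ S) (h1 : S ≤ K * Real.sin (2 * Real.pi * cl))
    (h2 : S ≤ K * (77 / 100)) (hK : 0 ≤ K) :
    Real.sinh (2 * Real.pi * -w.im) ≤ K * Real.sin (2 * Real.pi * w.re) := by
  have hpi := Real.pi_pos
  have hT' : 0 ≤ 2 * Real.pi * -T := by
    have : 0 ≤ -T := by linarith only [hT]
    positivity
  have hc0 : 0 < cl := by linarith only [hcl]
  obtain ⟨c1, c2, c3, -, -⟩ := cs
  rcases le_total w.re cl with h3 | h3
  · have him := hw.im
    rw [tr_a hc0 hcr hcc hw.re0 h3] at him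
    have l0 : 0 ≤ w.re / cl := div_nonneg hw.re0 hc0.le
    have l1 : w.re / cl ≤ 1 := (div_le_one hc0).2 h3
    have a1 := sinh_mul_le l0 l1 hT'
    have a2 := mul_sin_le l0 l1 (show 0 ≤ 2 * Real.pi * cl by positivity) (by nlinarith only [hpi, hcl'])
    have e1 : w.re / cl * (2 * Real.pi * -T) = 2 * Real.pi * -w.im := by rw [him]; ring
    have e2 : w.re / cl * (2 * Real.pi * cl) = 2 * Real.pi * w.re := by field_simp
    rw [e1] at a1
    rw [e2] at a2
    have a3 := mul_le_mul_of_nonneg_left a2 hK
    have a4 := mul_le_mul_of_nonneg_left (hS.trans h1) l0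
    linarith only [a1, a3, a4]
  · have h4 : Real.sinh (2 * Real.pi * -w.im) ≤ Real.sinh (2 * Real.pi * -T) := by
      rw [Real.sinh_le_sinh]
      have := hw.im_ge hT
      apply mul_le_mul_of_nonneg_left _ (by positivity)
      linarith only [this]
    refine h4.trans (hS.trans ?_)
    rcases le_total w.re (1 / 4) with h5 | h5
    · refine h1.trans (mul_le_mul_of_nonneg_left ?_ hK)
      apply Real.sin_le_sin_of_le_of_le_pi_div_two <;> nlinarith only [hpi, hcl, h5, h3]
    · refine h2.trans (mul_le_mul_of_nonneg_left (c2.trans ?_) hK)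
      rw [← Real.sin_pi_sub (2 * Real.pi * w.re), ← Real.sin_pi_sub (2 * Real.pi * (36 / 100))]
      apply Real.sin_le_sin_of_le_of_le_pi_div_two <;> nlinarith only [hpi, h5, hx]

/-- the ratio for all kinds of hinges -/
theorem RKe.ok.kap (hk : k.ok b w) (ht : w.im ≤ 0) (hx : w.re ≤ 36 / 100) :
    Real.sinh (2 * Real.pi * -w.im) ≤ (if b < 5 then 135 / 100 else 16 / 10) *
      Real.sin (2 * Real.pi * w.re) := by
  have hpi := Real.pi_pos
  obtain ⟨c1, c2, c3, -, -⟩ := cs
  obtain ⟨s1, s2, s3, s4, s5, -, -⟩ := ch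
  have mono : ∀ {T a : ℝ}, -a ≤ T → Real.sinh (2 * Real.pi * -T) ≤ Real.sinh (2 * Real.pi * a) := by
    intro T a h
    rw [Real.sinh_le_sinh]
    apply mul_le_mul_of_nonneg_left _ (by positivity)
    linarith only [h]
  have scl : ∀ {cl : ℝ}, 1 / 10 ≤ cl → cl ≤ 1 / 4 → 5877 / 10000 ≤ Real.sin (2 * Real.pi * cl) := by
    intro cl h h'
    refine c1.trans ?_
    apply Real.sin_le_sin_of_le_of_le_pi_div_two <;> nlinarith only [hpi, h', h]
  cases k with
  | no =>
    have h0 : w = 0 := hk
    rw [h0]
    simp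
  | one =>
    obtain ⟨T, cr, t1, t2, t3, t4, ⟨r1, r2⟩, hw⟩ := hk
    split_ifs with h5
    · exact hw.kap (by linarith only [t2]) (by norm_num) le_rfl (by linarith only [r1]) (by linarith only [r2]) hx
        ((mono (by linarith only [t3, h5, t3 h5])).trans s2) (by linarith only [c3]) (by norm_num) (by norm_num)
    · exact hw.kap (by linarith only [t2]) (by norm_num) le_rfl (by linarith only [r1]) (by linarith only [r2]) hx
        ((mono (by linarith only [t1])).trans s1) (by linarith only [c3]) (by norm_num) (by norm_num)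
  | lo =>
    obtain ⟨T, cl, cr, t1, t2, t3, ⟨l1, l2⟩, ⟨r1, r2⟩, hw⟩ := hk
    have hs := scl l1 (by linarith only [l2])
    split_ifs with h5
    · exact hw.kap t2 l1 (by linarith only [l2]) (by linarith only [r1]) (by linarith only [l2, r2]) hx
        ((mono (by linarith only [t3, h5, t3 h5])).trans s4) (by linarith only [hs]) (by norm_num) (by norm_num)
    · exact hw.kap t2 l1 (by linarith only [l2]) (by linarith only [r1]) (by linarith only [l2, r2]) hx
        ((mono (by linarith only [t1])).trans s3) (by linarith only [hs]) (by norm_num) (by norm_num)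
  | rr =>
    obtain ⟨T, t1, t2, t3, -, hw⟩ := hk
    rcases le_or_gt T 0 with hT | hT
    · have hs := scl (cl := 1 / 10) le_rfl (by norm_num)
      split_ifs with h5
      · exact hw.kap hT le_rfl (by norm_num) (by norm_num) (by norm_num) hx
          ((mono (by linarith only [t1])).trans s5) (by linarith only [c1]) (by norm_num) (by norm_num)
      · exact hw.kap hT le_rfl (by norm_num) (by norm_num) (by norm_num) hx
          ((mono (by linarith only [t1])).trans s5) (by linarith only [c1]) (by norm_num) (by norm_num)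
    · have h0 : w.im = 0 := le_antisymm ht (by
        rw [hw.im]
        exact mul_nonneg hT.le (le_max_left _ _))
      rw [h0, neg_zero, mul_zero, Real.sinh_zero]
      have hs : 0 ≤ Real.sin (2 * Real.pi * w.re) := by
        apply Real.sin_nonneg_of_nonneg_of_le_pi
        · have := hw.re0
          positivity
        · nlinarith only [hpi, hx, hw.re0]
      split_ifs <;> positivity
  | ps => exact absurd ht (not_le.2 hk.2.1)

/-- the derivative on the flat part in terms of the ring variable -/
theorem D0_le (h0 : 0 ≤ w.re) (hx : w.re ≤ 16 / 100) (ht : w.im ≤ 0) (hρ : 0 < ρ) (h1 : -(1 / 4) ≤ σ)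
    (h2 : σ ≤ 0) (hs : Real.sin (2 * Real.pi * -σ) ≤ 952 / 1000) :
    Dm 0 w (LT.zt ρ σ) ≤ 8445 / 3590 * Real.sin (2 * Real.pi * -σ) := by
  have hpi := Real.pi_pos
  obtain ⟨-, -, -, c4, c5⟩ := cs
  have hzt : LT.zt ρ σ = σ + (ρ : ℂ) * Complex.I := by
    rw [zt_eq, th_of_le (by rw [abs_of_nonpos h2]; linarith only [h1]), mul_one]
  have e1 : w + 1 / 2 + LT.zt ρ σ = ⟨w.re + 1 / 2 + σ, w.im + ρ⟩ := by
    rw [hzt]
    apply Complex.ext <;> simp
  have e2 : w + 1 / 2 - LT.zt ρ σ = ⟨w.re + 1 / 2 - σ, w.im - ρ⟩ := by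
    rw [hzt]
    apply Complex.ext <;> simp
  unfold Dm Dq
  rw [e1, e2, zero_mul, zero_mul, add_zero, add_zero, LL_eq', LL_eq']
  simp only
  set A := 2 * Real.pi * w.re with hA
  set S := 2 * Real.pi * -σ with hS
  have A0 : 0 ≤ A := by positivity
  have S0 : 0 ≤ S := by
    have : 0 ≤ -σ := by linarith only [h2]
    positivity
  have A1 : A ≤ 2 * Real.pi * (16 / 100) := by rw [hA]; nlinarith only [hx, hpi]
  have S1 : S ≤ Real.pi / 2 := by rw [hS]; nlinarith only [h1, hpi]
  have u1 : Real.cos (2 * Real.pi * (w.re + 1 / 2 + σ)) = -Real.cos (A - S) := by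
    rw [show 2 * Real.pi * (w.re + 1 / 2 + σ) = (A - S) + Real.pi by rw [hA, hS]; ring, Real.cos_add_pi]
  have u2 : Real.cos (2 * Real.pi * (w.re + 1 / 2 - σ)) = -Real.cos (A + S) := by
    rw [show 2 * Real.pi * (w.re + 1 / 2 - σ) = (A + S) + Real.pi by rw [hA, hS]; ring, Real.cos_add_pi]
  rw [u1, u2]
  have sA0 : 0 ≤ Real.sin A := Real.sin_nonneg_of_nonneg_of_le_pi A0 (by nlinarith only [hpi, A1])
  have sA1 : Real.sin A ≤ 8445 / 10000 := by
    refine le_trans ?_ c4
    apply Real.sin_le_sin_of_le_of_le_pi_div_two <;> nlinarith only [hpi, A0, A1]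
  have cA1 : 535 / 1000 ≤ Real.cos A := by
    refine c5.trans ?_
    apply Real.cos_le_cos_of_nonneg_of_le_pi <;> nlinarith only [A0, hpi, A1]
  have sS0 : 0 ≤ Real.sin S := Real.sin_nonneg_of_nonneg_of_le_pi S0 (by linarith only [hpi, S1])
  have cS0 : 0 ≤ Real.cos S := Real.cos_nonneg_of_neg_pi_div_two_le_of_le (by linarith only [hpi, S0]) S1
  have cS1 : 306 / 1000 ≤ Real.cos S := by
    have := Real.sin_sq_add_cos_sq S
    nlinarith only [hs, this, sS0, cS0]
  have hden : 359 / 1000 ≤ Real.cosh (2 * Real.pi * (w.im - ρ)) + Real.cos (A + S) := by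
    rw [Real.cos_add]
    have := Real.one_le_cosh (2 * Real.pi * (w.im - ρ))
    have k1 : 535 / 1000 * (306 / 1000) ≤ Real.cos A * Real.cos S := mul_le_mul cA1 cS1 (by norm_num)
      (by linarith only [cA1])
    have k2 : Real.sin A * Real.sin S ≤ 8445 / 10000 * (952 / 1000) := mul_le_mul sA1 hs sS0 (by norm_num)
    nlinarith only [this, k1, k2]
  have hdiff : (Real.cosh (2 * Real.pi * (w.im + ρ)) + Real.cos (A - S)) -
      (Real.cosh (2 * Real.pi * (w.im - ρ)) + Real.cos (A + S)) ≤ 2 * (Real.sin A * Real.sin S) := by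
    rw [mul_add, mul_sub, Real.cosh_add, Real.cosh_sub, Real.cos_add, Real.cos_sub]
    have : Real.sinh (2 * Real.pi * w.im) * Real.sinh (2 * Real.pi * ρ) ≤ 0 := by
      apply mul_nonpos_of_nonpos_of_nonneg
      · rw [Real.sinh_nonpos_iff]
        exact mul_nonpos_of_nonneg_of_nonpos (by positivity) ht
      · rw [Real.sinh_nonneg_iff]
        positivity
    linarith only [this]
  set N1 := Real.cosh (2 * Real.pi * (w.im + ρ)) + Real.cos (A - S) with hN1
  set N2 := Real.cosh (2 * Real.pi * (w.im - ρ)) + Real.cos (A + S) with hN2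
  rw [show 2 * Real.cosh (2 * Real.pi * (w.im + ρ)) - 2 * -Real.cos (A - S) = 2 * N1 by rw [hN1]; ring,
    show 2 * Real.cosh (2 * Real.pi * (w.im - ρ)) - 2 * -Real.cos (A + S) = 2 * N2 by rw [hN2]; ring]
  have hN1p : 0 < N1 := by
    rw [hN1]
    have := Real.one_le_cosh (2 * Real.pi * (w.im + ρ))
    have : 0 < Real.cos (A - S) + 1 := by
      have h3 : 0 ≤ Real.cos (A - S) := by
        rw [Real.cos_sub]
        have : 0 ≤ Real.cos A := by linarith only [cA1]
        positivity
      linarith only [h3]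
    linarith
  have hN2p : 0 < N2 := by linarith only [hden]
  rw [Real.log_mul two_ne_zero hN1p.ne', Real.log_mul two_ne_zero hN2p.ne']
  have h3 := Real.log_le_sub_one_of_pos (div_pos hN1p hN2p)
  rw [Real.log_div hN1p.ne' hN2p.ne'] at h3
  have h4 : N1 / N2 - 1 ≤ 2 * (8445 / 3590 * Real.sin S) := by
    rw [div_sub_one hN2p.ne', div_le_iff₀ hN2p]
    have h5 : Real.sin A * Real.sin S ≤ 8445 / 10000 * Real.sin S := mul_le_mul_of_nonneg_right sA1 sS0
    have h6 : 2 * (8445 / 3590 * Real.sin S) * (359 / 1000) ≤ 2 * (8445 / 3590 * Real.sin S) * N2 :=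
      mul_le_mul_of_nonneg_left hden (by positivity)
    linarith only [hdiff, h5, h6]
  linarith only [h3, h4]

/-- **The first order condition of one hinge on the flat part** -/
theorem RM.flat_le (h : RM b ρ w w' σ) (hc : RCap b ρ) (hk' : k'.ok b w') (h0 : 0 ≤ w.re)
    (hx : w.re ≤ 16 / 100) (ht : w.im ≤ 0) (hx' : w'.re ≤ 36 / 100) (h1 : -(1 / 4) ≤ σ) (h2 : σ ≤ 0) :
    -(2 * Real.pi * b * ρ) + Dm 0 w (LT.zt ρ σ) ≤ 0 := by
  have hpi := Real.pi_pos
  have hρ := h.ρ0
  have hb := h.b4
  have foc := h.right_flat h1 h2 h0 (by linarith only [hx, h2]) hk'.re_nonneg (by linarith only [hx', h2])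
  by_cases hD : 0 ≤ Dm 0 w' (LT.zt ρ σ)
  · linarith only [foc, hD]
  push Not at hD
  obtain ⟨-, -, -, -, -, s6, s7⟩ := ch
  have hzt : LT.zt ρ σ = σ + (ρ : ℂ) * Complex.I := by
    rw [zt_eq, th_of_le (by rw [abs_of_nonpos h2]; linarith only [h1]), mul_one]
  have hsh : 0 < Real.sinh (2 * Real.pi * ρ) := by
    rw [Real.sinh_pos_iff]
    positivity
  have hsσ : 0 ≤ Real.sin (2 * Real.pi * -σ) := by
    apply Real.sin_nonneg_of_nonneg_of_le_pi
    · have : 0 ≤ -σ := by linarith only [h2]
      positivity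
    · nlinarith only [hpi, h1]
  have hsx : 0 ≤ Real.sin (2 * Real.pi * w'.re) := by
    have := hk'.re_nonneg
    apply Real.sin_nonneg_of_nonneg_of_le_pi
    · positivity
    · nlinarith only [hpi, hx']
  have eσ : Real.sin (2 * Real.pi * σ) = -Real.sin (2 * Real.pi * -σ) := by
    rw [mul_neg, Real.sin_neg, neg_neg]
  have hne : ∀ (_ : w'.im - ρ ≠ 0), Real.sinh (2 * Real.pi * w'.im) * Real.sinh (2 * Real.pi * ρ) <
      Real.sin (2 * Real.pi * w'.re) * Real.sin (2 * Real.pi * σ) := by
    intro hne
    by_contra hcon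
    push Not at hcon
    have := LL_ring_nonneg (x := w'.re) (t := w'.im) (σ := σ) (η := ρ) (re_im_eq w') hzt hne hcon
    unfold Dm Dq at hD
    linarith only [hD, this]
  have ht' : w'.im ≤ 0 := by
    by_contra hcon
    push Not at hcon
    by_cases h3 : w'.im - ρ = 0
    · -- `t' = ρ`
      unfold Dm Dq at hD
      rw [zero_mul, zero_mul, add_zero, add_zero] at hD
      have e1 : w' + 1 / 2 + LT.zt ρ σ = ⟨w'.re + 1 / 2 + σ, w'.im + ρ⟩ := by
        rw [hzt]
        apply Complex.ext <;> simp
      have e2 : w' + 1 / 2 - LT.zt ρ σ = ⟨w'.re + 1 / 2 - σ, w'.im - ρ⟩ := by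
        rw [hzt]
        apply Complex.ext <;> simp
      rw [e1, e2, h3] at hD
      have h6 := hk'.re_nonneg
      have hns : w'.re + 1 / 2 - σ ≠ 1 := by
        intro h7
        apply h.symm.ns (by linarith only [h1]) h2 h6 (by linarith only [hx', h2]) h0 (by linarith only [hx, h2])
        rw [e2, h7, h3]
        apply Complex.ext <;> simp
      have : LL ⟨w'.re + 1 / 2 - σ, 0⟩ ≤ LL ⟨w'.re + 1 / 2 + σ, w'.im + ρ⟩ := by
        apply LL_mk_le (sin_ne_02 (by linarith only [h2, h6]) (by linarith only [hx', h1]) (Or.inr hns))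
        have k1 := Real.one_le_cosh (2 * Real.pi * (w'.im + ρ))
        rw [mul_zero, Real.cosh_zero]
        have k2 : Real.cos (2 * Real.pi * (w'.re + 1 / 2 + σ)) ≤ Real.cos (2 * Real.pi * (w'.re + 1 / 2 - σ)) := by
          have g1 : Real.cos (2 * Real.pi * (w'.re + 1 / 2 + σ)) = -Real.cos (2 * Real.pi * w'.re + 2 * Real.pi * σ) := by
            rw [← Real.cos_add_pi]
            congr 1
            ring
          have g2 : Real.cos (2 * Real.pi * (w'.re + 1 / 2 - σ)) = -Real.cos (2 * Real.pi * w'.re - 2 * Real.pi * σ) := by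
            rw [← Real.cos_add_pi]
            congr 1
            ring
          rw [g1, g2, Real.cos_add, Real.cos_sub, eσ]
          have := mul_nonneg hsx hsσ
          linarith only [this]
        linarith only [k1, k2]
      linarith only [hD, this]
    · have := hne h3
      have k1 : 0 ≤ Real.sinh (2 * Real.pi * w'.im) * Real.sinh (2 * Real.pi * ρ) := by
        apply mul_nonneg _ hsh.le
        rw [Real.sinh_nonneg_iff]
        positivity
      rw [eσ] at this
      have := mul_nonneg hsx hsσ
      linarith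
  have k1 := hne (by linarith only [hρ, ht'])
  rw [eσ] at k1
  have k2 := hk'.kap ht' hx'
  have e3 : Real.sinh (2 * Real.pi * w'.im) = -Real.sinh (2 * Real.pi * -w'.im) := by
    rw [mul_neg, Real.sinh_neg, neg_neg]
  rw [e3] at k1
  set K : ℝ := if b < 5 then 135 / 100 else 16 / 10 with hK
  have hK0 : 0 < K := by rw [hK]; split_ifs <;> norm_num
  have k3 := mul_le_mul_of_nonneg_right k2 hsh.le
  have k4 : Real.sin (2 * Real.pi * w'.re) * Real.sin (2 * Real.pi * -σ) <
      Real.sin (2 * Real.pi * w'.re) * (K * Real.sinh (2 * Real.pi * ρ)) := by linarith only [k1, k3]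
  have k5 : Real.sin (2 * Real.pi * -σ) < K * Real.sinh (2 * Real.pi * ρ) := lt_of_mul_lt_mul_left k4 hsx
  -- the size of `sinh`
  rcases lt_or_ge b 5 with h5 | h5
  · have hKe : K = 135 / 100 := by rw [hK, if_pos h5]
    have r1 : Real.sinh (2 * Real.pi * ρ) ≤ ρ / (1045 / 10000) * (705 / 1000) := by
      have := sinh_mul_le (l := ρ / (1045 / 10000)) (z := 2 * Real.pi * (1045 / 10000)) (by positivity)
        ((div_le_one (by norm_num)).2 hc.1) (by positivity)
      rw [show ρ / (1045 / 10000) * (2 * Real.pi * (1045 / 10000)) = 2 * Real.pi * ρ by ring] at this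
      have := mul_le_mul_of_nonneg_left s6 (show 0 ≤ ρ / (1045 / 10000) by positivity)
      linarith
    rw [hKe] at k5
    have hρ4 := hc.1
    have r2 : Real.sinh (2 * Real.pi * ρ) ≤ 675 / 100 * ρ := by
      refine r1.trans ?_
      nlinarith only [hρ]
    have r3 := D0_le (σ := σ) (ρ := ρ) h0 hx ht hρ h1 h2 (by nlinarith only [hρ, k5, r1, hρ4])
    have hpi3 := Real.pi_gt_d4
    have k6 : 25 ≤ 2 * Real.pi * b := by nlinarith only [hρ, hρ4, hpi3, hpi, hb]
    have k7 := mul_le_mul_of_nonneg_right k6 hρ.le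
    nlinarith only [hρ, k5, r1, r3, k7]
  · have hKe : K = 16 / 10 := by rw [hK, if_neg (not_lt.2 h5)]
    have hρ5 := hc.2.1 h5
    have r1 : Real.sinh (2 * Real.pi * ρ) ≤ ρ / (725 / 10000) * (4717 / 10000) := by
      have := sinh_mul_le (l := ρ / (725 / 10000)) (z := 2 * Real.pi * (725 / 10000)) (by positivity)
        ((div_le_one (by norm_num)).2 hρ5) (by positivity)
      rw [show ρ / (725 / 10000) * (2 * Real.pi * (725 / 10000)) = 2 * Real.pi * ρ by ring] at this
      have := mul_le_mul_of_nonneg_left s7 (show 0 ≤ ρ / (725 / 10000) by positivity)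
      linarith
    rw [hKe] at k5
    have r2 : Real.sinh (2 * Real.pi * ρ) ≤ 651 / 100 * ρ := by
      refine r1.trans ?_
      nlinarith only [hρ]
    have r3 := D0_le (σ := σ) (ρ := ρ) h0 hx ht hρ h1 h2 (by nlinarith only [hρ, k5, hρ5, r1])
    have hpi3 := Real.pi_gt_d4
    have k6 : 31 ≤ 2 * Real.pi * b := by nlinarith only [hρ, hρ5, hpi3, hpi, h5]
    have k7 := mul_le_mul_of_nonneg_right k6 hρ.le
    nlinarith only [hρ, k5, r1, r3, k7]

end Pool.Agent.Work.MP_b30479_gtS.G2

end
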