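import Pool.Agent.Work.MP_b30479_gt.TBS.G2.SStart3
import Pool.Agent.Work.MP_b30479_gt.TBS.G2.RngC
import Pool.Agent.Work.MP_b30479_gt.TBS.G2.RngKd
import Pool.Agent.Work.MP_b30479_gt.TBS.G2.SIm
import Pool.Agent.Work.MP_b30479_gt.TBS.G2.RngP
import Pool.Agent.Work.MP_b30479_gt.TBS.G2.LRaP5
import Pool.Agent.Work.MP_b30479_gt.TBS.G2.LRB
import Pool.Agent.Work.MP_b30479_gt.TBS.G2.LRaX4
import Pool.Agent.Work.MP_b30479_gt.TBS.G2.LRaX5
import Pool.Agent.Work.MP_b30479_gt.TBS.G2.RngP2
import Pool.Agent.Work.MP_b30479_gt.TBS.G2.WRngZ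
import Pool.Agent.Work.MP_b30479_gt.TBS.G2.MLSE
import Pool.Agent.Work.MP_b30479_gt.TBS.G2.ML3j_1
import Pool.Agent.Work.MP_b30479_gt.TBS.G2.WLocF
import Pool.Agent.Work.MP_b30479_gt.TBS.G2.WMid
import Pool.Agent.Work.MP_b30479_gt.TBS.G2.LRF4

section

/-!
# Part of `RngU`
-/
namespace Pool.Agent.Work.MP_b30479_gtS.G2

open Finset VOL Filter Topology

variable {x t σ η c a b s ρ T θ y K κ m l : ℝ} {w w' ζ : ℂ} {k k' : RKe}

/-- convexity of `cosh` -/
theorem cosh_mul_le (hl : 0 ≤ l) (hl1 : l ≤ 1) (z : ℝ) : Real.cosh (l * z) ≤ 1 + l * (Real.cosh z - 1) := by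
  have key : ∀ z : ℝ, Real.exp (l * z) ≤ l * Real.exp z + (1 - l) := by
    intro z
    have h := convexOn_exp.2 (Set.mem_univ z) (Set.mem_univ (0 : ℝ)) hl (sub_nonneg.mpr hl1)
      (by ring)
    simpa using h
  have h1 := key z
  have h2 := key (-z)
  rw [Real.cosh_eq, Real.cosh_eq, show -(l * z) = l * -z by ring]
  linarith only [h1, h2]

theorem mul_cos_le (hl : 0 ≤ l) (hl1 : l ≤ 1) (ha : 0 ≤ a) (ha1 : a ≤ Real.pi / 2) :
    1 - l * (1 - Real.cos a) ≤ Real.cos (l * a) := by
  have h := strictConcaveOn_cos_Icc.concaveOn.2 (show a ∈ Set.Icc (-(Real.pi / 2)) (Real.pi / 2) from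
    ⟨by linarith only [ha, ha1, Real.pi_pos], ha1⟩) (show (0 : ℝ) ∈ Set.Icc (-(Real.pi / 2)) (Real.pi / 2) from
    ⟨by linarith only [ha, ha1, Real.pi_pos], by linarith only [ha, ha1, Real.pi_pos]⟩) hl (sub_nonneg.mpr hl1) (by ring)
  simp only [smul_eq_mul, mul_zero, add_zero, Real.cos_zero, mul_one] at h
  linarith only [h]

theorem sin_s_ge (hs : 0 ≤ s) (hs' : s ≤ 1 / 16) : 612 / 100 * s ≤ Real.sin (2 * Real.pi * s) := by
  have hpi := Real.pi_pos
  have h1 := mul_sin_le (l := 16 * s) (a := Real.pi / 8) (by linarith only [hs]) (by linarith only [hs']) (by positivity)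
    (by linarith only [hpi])
  rw [show 16 * s * (Real.pi / 8) = 2 * Real.pi * s by ring] at h1
  have h2 := mul_le_mul_of_nonneg_left rowU3.1 (show 0 ≤ 16 * s by linarith only [hs])
  linarith only [hs, h1, h2]

end Pool.Agent.Work.MP_b30479_gtS.G2

end

section

/-!
# Ring sides: left ramps, ring variable near the end of its path
-/

namespace Pool.Agent.Work.MP_b30479_gtS.G2

open Finset VOL Filter Topology

variable {x t σ η c a b s ρ T θ y K κ m l : ℝ} {w w' ζ : ℂ} {k k' : RKe}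

/-- **A**, height `≥ 0` -/
theorem posA (hs : 0 < s) (hs' : s ≤ 1 / 16) (hx : s / 4 ≤ x) (hx' : x ≤ 1 / 10) (hη0 : 0 < η)
    (hη : η ≤ 418 / 1000 * s) (ht : 0 ≤ t) (ht1 : t ≤ 56 / 100 * x) (hne : x ≠ s ∨ t ≠ η) :
    55 / 10 * s < LL ⟨x + s, t + η⟩ - LL ⟨x - s, t - η⟩ := by
  have hpi := Real.pi_pos
  have hpi4 := Real.pi_lt_d4
  have hx0 : 0 < x := by linarith only [hx, hη0, hη]
  have hC2 : 0 < Real.cosh (2 * Real.pi * (t - η)) - Real.cos (2 * Real.pi * (x - s)) := by
    rcases hne with h | h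
    · have h1 := Real.one_le_cosh (2 * Real.pi * (t - η))
      have h2 : Real.cos (2 * Real.pi * (x - s)) < 1 := by
        rw [← Real.cos_abs, ← Real.cos_zero]
        have h3 : 0 < |x - s| := abs_pos.mpr (sub_ne_zero.mpr h)
        have h4 : |x - s| ≤ 1 / 2 := by
          rw [abs_le]
          constructor <;> linarith only [hs', hη0, hη, hx0, hx']
        have h5 : |2 * Real.pi * (x - s)| = 2 * Real.pi * |x - s| := by
          rw [abs_mul, abs_of_pos (by positivity)]
        rw [h5]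
        apply Real.cos_lt_cos_of_nonneg_of_le_pi le_rfl
        · nlinarith only [hs', hη0, hη, hpi, h4]
        · positivity
      linarith only [h1, h2]
    · exact cosh_sub_cos_pos (u := ⟨x - s, t - η⟩) (sin_ne_of_im (by
        simp only
        intro hc
        apply h
        linarith only [hc]))
  refine LLp_gt hC2 (by positivity) ?_
  obtain ⟨-, -, -, -, r5, r6⟩ := rowU4
  obtain ⟨-, q2, q3, q4⟩ := rowU3
  have e1 : η ≤ 16 * s * (418 / 16000) := by nlinarith only [hη]
  have hSs := sin_s_ge hs.le hs'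
  have hA0 : 0 ≤ Real.sin (2 * Real.pi * x) := by
    apply Real.sin_nonneg_of_nonneg_of_le_pi
    · positivity
    · nlinarith only [hs, hpi, hs', hx']
  have hN : s * (612 / 100 * Real.sin (2 * Real.pi * x)) ≤
      Real.sin (2 * Real.pi * s) * Real.sin (2 * Real.pi * x) +
      Real.sinh (2 * Real.pi * t) * Real.sinh (2 * Real.pi * η) := by
    have h1 := mul_le_mul_of_nonneg_right hSs hA0
    have h2 : 0 ≤ Real.sinh (2 * Real.pi * t) * Real.sinh (2 * Real.pi * η) := by
      apply mul_nonneg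
      · rw [Real.sinh_nonneg_iff]
        positivity
      · rw [Real.sinh_nonneg_iff]
        positivity
    linarith only [h1, h2]
  refine lt_of_lt_of_le ?_ hN
  rw [show 55 / 10 * s = s * (55 / 10) by ring, mul_assoc]
  apply mul_lt_mul_of_pos_left _ hs
  rcases le_total (1 / 64) x with h64 | h64
  · refine lt_of_le_of_lt ?_ (rowU2 h64 hx')
    have h1 : Real.cosh (2 * Real.pi * η) ≤ 10136 / 10000 := by
      refine le_trans ?_ r5
      rw [Real.cosh_le_cosh, abs_of_pos (by positivity), abs_of_pos (by positivity)]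
      nlinarith only [hs, hs', hpi, hη]
    have h0 : Real.cosh (2 * Real.pi * t) ≤ Real.cosh (2 * Real.pi * (56 / 100 * x)) := by
      rw [Real.cosh_le_cosh, abs_of_nonneg (by positivity), abs_of_pos (by positivity)]
      nlinarith only [hs', hη0, hη, ht1, hpi]
    have h2 : 9238 / 10000 ≤ Real.cos (2 * Real.pi * s) := by
      refine q2.trans ?_
      apply Real.cos_le_cos_of_nonneg_of_le_pi <;> nlinarith only [hs, hpi, hs']
    have h3 : 0 ≤ Real.cos (2 * Real.pi * x) := by
      apply Real.cos_nonneg_of_neg_pi_div_two_le_of_le <;> nlinarith only [hs, hpi, hs', hx, hx']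
    have h5 := mul_le_mul h0 h1 (Real.cosh_pos _).le (Real.cosh_pos _).le
    have h6 := mul_le_mul_of_nonneg_right h2 h3
    linarith only [h5, h6]
  · -- scaling
    set l := 64 * x with hl
    have l0 : 0 < l := by linarith only [hx0]
    have l1 : l ≤ 1 := by linarith only [h64]
    have k1 : l * (98 / 1000) ≤ Real.sin (2 * Real.pi * x) := by
      have h1 := mul_sin_le (l := l) (a := Real.pi / 32) l0.le l1 (by positivity) (by linarith only [hpi])
      rw [show l * (Real.pi / 32) = 2 * Real.pi * x by rw [hl]; ring] at h1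
      have h2 := mul_le_mul_of_nonneg_left q3 l0.le
      linarith only [h1, h2]
    have k3 : Real.cosh (2 * Real.pi * t) ≤ 1 + l * (16 / 10000) := by
      have h1 : Real.cosh (2 * Real.pi * t) ≤ Real.cosh (l * (2 * Real.pi * (56 / 6400))) := by
        rw [Real.cosh_le_cosh, abs_of_nonneg (by positivity), abs_of_pos (by positivity), hl]
        nlinarith only [hs', hη0, hη, ht1, hpi]
      have h2 := cosh_mul_le l0.le l1 (2 * Real.pi * (56 / 6400))
      have h3 := mul_le_mul_of_nonneg_left r6 l0.le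
      linarith only [h1, h2, h3]
    have k4 : Real.cosh (2 * Real.pi * η) ≤ 1 + l * (136 / 10000) := by
      have h1 : Real.cosh (2 * Real.pi * η) ≤ Real.cosh (l * (2 * Real.pi * (418 / 16000))) := by
        rw [Real.cosh_le_cosh, abs_of_pos (by positivity), abs_of_pos (by positivity), hl]
        nlinarith only [hs, hs', hx, hpi, hη]
      have h2 := cosh_mul_le l0.le l1 (2 * Real.pi * (418 / 16000))
      have h3 := mul_le_mul_of_nonneg_left r5 l0.le
      linarith only [h1, h2, h3]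
    have k5 : 1 - l * (762 / 10000) ≤ Real.cos (2 * Real.pi * s) := by
      have h1 := mul_cos_le (l := l) (a := Real.pi / 8) l0.le l1 (by positivity) (by linarith only [hpi])
      have h2 := mul_le_mul_of_nonneg_left q2 l0.le
      have h3 : Real.cos (l * (Real.pi / 8)) ≤ Real.cos (2 * Real.pi * s) := by
        apply Real.cos_le_cos_of_nonneg_of_le_pi
        · positivity
        · nlinarith only [hs, hpi, hs', hx']
        · rw [hl]
          nlinarith only [hs, hs', hx, hpi]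
      linarith only [h1, h2, h3]
    have k6 : 1 - l * (49 / 10000) ≤ Real.cos (2 * Real.pi * x) := by
      have h1 := mul_cos_le (l := l) (a := Real.pi / 32) l0.le l1 (by positivity) (by linarith only [hpi])
      rw [show l * (Real.pi / 32) = 2 * Real.pi * x by rw [hl]; ring] at h1
      have h2 := mul_le_mul_of_nonneg_left q4 l0.le
      linarith only [h1, h2]
    have k7 : Real.cosh (2 * Real.pi * t) * Real.cosh (2 * Real.pi * η) ≤
        (1 + l * (16 / 10000)) * (1 + l * (136 / 10000)) :=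
      mul_le_mul k3 k4 (Real.cosh_pos _).le (by positivity)
    have k8 : (1 - l * (762 / 10000)) * (1 - l * (49 / 10000)) ≤
        Real.cos (2 * Real.pi * s) * Real.cos (2 * Real.pi * x) :=
      mul_le_mul k5 k6 (by linarith only [hx0, h64]) (le_trans (by linarith only [hx0, h64]) k5)
    have k9 : l ^ 2 ≤ l := by nlinarith only [hs, h64, hs', hx]
    nlinarith only [hx0, k1, k7, k8]

end Pool.Agent.Work.MP_b30479_gtS.G2

end

section

/-!
# Part of `RngU`
-/
namespace Pool.Agent.Work.MP_b30479_gtS.G2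

open Finset VOL Filter Topology

variable {x t σ η c a b s ρ T θ y K κ m l : ℝ} {w w' ζ : ℂ} {k k' : RKe}

/-- **A**, height `≤ 0`: the derivative is large unless `x < s / 4` -/
theorem negA (hs : 0 < s) (hs' : s ≤ 1 / 16) (hx : s / 4 ≤ x) (hx' : x ≤ 13 / 100) (hη0 : 0 < η)
    (hη : η ≤ 144 / 100 * s ^ 2) (ht : t ≤ 0) (ht1 : -t ≤ 131 / 100 * x) (ht2 : -t ≤ 131 / 1000) :
    45 / 10 * s < LL ⟨x + s, t + η⟩ - LL ⟨x - s, t - η⟩ := by
  have hpi := Real.pi_pos
  have hpi4 := Real.pi_lt_d4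
  have hx0 : 0 < x := by linarith only [hs, hx]
  have hC2 : 0 < Real.cosh (2 * Real.pi * (t - η)) - Real.cos (2 * Real.pi * (x - s)) :=
    cosh_sub_cos_pos (u := ⟨x - s, t - η⟩) (sin_ne_of_im (by simp only; linarith only [hη0, ht]))
  refine LLp_gt hC2 (by positivity) ?_
  obtain ⟨r1, r2, r3, r4, -, -⟩ := rowU4
  obtain ⟨-, q2, q3, q4⟩ := rowU3
  -- `η ≤ (9 / 1600) (16 s)`
  have e1 : η ≤ 16 * s * (9 / 1600) := by nlinarith only [hη, hs, hs']
  have hSs := sin_s_ge hs.le hs'
  have hA0 : 0 ≤ Real.sin (2 * Real.pi * x) := by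
    apply Real.sin_nonneg_of_nonneg_of_le_pi
    · positivity
    · nlinarith only [hs, hpi, hs', hx']
  have hB0 : 0 ≤ Real.sinh (2 * Real.pi * -t) := by
    rw [Real.sinh_nonneg_iff]
    have : 0 ≤ -t := by linarith only [ht]
    positivity
  have hSη : Real.sinh (2 * Real.pi * η) ≤ 57 / 100 * s := by
    have h1 : Real.sinh (2 * Real.pi * η) ≤ Real.sinh (16 * s * (2 * Real.pi * (9 / 1600))) := by
      rw [Real.sinh_le_sinh]
      nlinarith only [hs, hs', hpi, e1]
    have h2 := sinh_mul_le (l := 16 * s) (z := 2 * Real.pi * (9 / 1600)) (by linarith only [hη0, e1]) (by linarith only [hs'])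
      (by positivity)
    have h3 := mul_le_mul_of_nonneg_left r1 (show 0 ≤ 16 * s by linarith only [hη0, e1])
    linarith only [hη0, e1, h1, h2, h3]
  have hN : s * (612 / 100 * Real.sin (2 * Real.pi * x) - 57 / 100 * Real.sinh (2 * Real.pi * -t)) ≤
      Real.sin (2 * Real.pi * s) * Real.sin (2 * Real.pi * x) +
      Real.sinh (2 * Real.pi * t) * Real.sinh (2 * Real.pi * η) := by
    have h1 := mul_le_mul_of_nonneg_right hSs hA0
    have h2 := mul_le_mul_of_nonneg_left hSη hB0
    have h3 : Real.sinh (2 * Real.pi * t) = -Real.sinh (2 * Real.pi * -t) := by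
      rw [mul_neg, Real.sinh_neg, neg_neg]
    rw [h3]
    linarith only [h1, h2]
  refine lt_of_lt_of_le ?_ hN
  rw [show 45 / 10 * s = s * (9 / 2) by ring, mul_assoc]
  apply mul_lt_mul_of_pos_left _ hs
  have hct : Real.cosh (2 * Real.pi * t) = Real.cosh (2 * Real.pi * -t) := by
    rw [mul_neg, Real.cosh_neg]
  rw [hct]
  rcases le_total (1 / 64) x with h64 | h64
  · refine lt_of_le_of_lt ?_ (rowU1 h64 hx' (by linarith only [ht] : 0 ≤ -t) ht2 ht1)
    have h1 : Real.cosh (2 * Real.pi * η) ≤ 10007 / 10000 := by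
      refine le_trans ?_ r2
      rw [Real.cosh_le_cosh, abs_of_pos (by positivity), abs_of_pos (by positivity)]
      nlinarith only [hs, hs', hpi, e1]
    have h2 : 9238 / 10000 ≤ Real.cos (2 * Real.pi * s) := by
      refine q2.trans ?_
      apply Real.cos_le_cos_of_nonneg_of_le_pi <;> nlinarith only [hs, hpi, hs']
    have h3 : 0 ≤ Real.cos (2 * Real.pi * x) := by
      apply Real.cos_nonneg_of_neg_pi_div_two_le_of_le <;> nlinarith only [hs, hpi, hs', hx, hx']
    have h4 := Real.cosh_pos (2 * Real.pi * -t)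
    have h5 := mul_le_mul_of_nonneg_left h1 h4.le
    have h6 := mul_le_mul_of_nonneg_right h2 h3
    linarith only [h5, h6]
  · -- scaling
    set l := 64 * x with hl
    have l0 : 0 < l := by linarith only [hx, hη0, e1]
    have l1 : l ≤ 1 := by linarith only [h64]
    have k1 : l * (98 / 1000) ≤ Real.sin (2 * Real.pi * x) := by
      have h1 := mul_sin_le (l := l) (a := Real.pi / 32) l0.le l1 (by positivity) (by linarith only [hpi])
      rw [show l * (Real.pi / 32) = 2 * Real.pi * x by rw [hl]; ring] at h1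
      have h2 := mul_le_mul_of_nonneg_left q3 l0.le
      linarith only [h1, h2]
    have k2 : Real.sinh (2 * Real.pi * -t) ≤ l * (1290 / 10000) := by
      have h1 : Real.sinh (2 * Real.pi * -t) ≤ Real.sinh (l * (2 * Real.pi * (131 / 6400))) := by
        rw [Real.sinh_le_sinh, hl]
        nlinarith only [hs, hs', ht1, hpi]
      have h2 := sinh_mul_le (l := l) (z := 2 * Real.pi * (131 / 6400)) l0.le l1 (by positivity)
      have h3 := mul_le_mul_of_nonneg_left r3 l0.le
      linarith only [h1, h2, h3]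
    have k3 : Real.cosh (2 * Real.pi * -t) ≤ 1 + l * (84 / 10000) := by
      have h1 : Real.cosh (2 * Real.pi * -t) ≤ Real.cosh (l * (2 * Real.pi * (131 / 6400))) := by
        rw [Real.cosh_le_cosh, abs_of_nonneg (by have : 0 ≤ -t := by linarith only [ht]
                                                 positivity), abs_of_pos (by positivity), hl]
        nlinarith only [hs, hs', ht1, hpi]
      have h2 := cosh_mul_le l0.le l1 (2 * Real.pi * (131 / 6400))
      have h3 := mul_le_mul_of_nonneg_left r4 l0.le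
      linarith only [h1, h2, h3]
    have k4 : Real.cosh (2 * Real.pi * η) ≤ 1 + l * (7 / 10000) := by
      have h1 : Real.cosh (2 * Real.pi * η) ≤ Real.cosh (l * (2 * Real.pi * (9 / 1600))) := by
        rw [Real.cosh_le_cosh, abs_of_pos (by positivity), abs_of_pos (by positivity), hl]
        nlinarith only [hs, hs', hx, hpi, e1]
      have h2 := cosh_mul_le l0.le l1 (2 * Real.pi * (9 / 1600))
      have h3 := mul_le_mul_of_nonneg_left r2 l0.le
      linarith only [h1, h2, h3]
    have k5 : 1 - l * (762 / 10000) ≤ Real.cos (2 * Real.pi * s) := by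
      have h1 := mul_cos_le (l := l) (a := Real.pi / 8) l0.le l1 (by positivity) (by linarith only [hpi])
      have h2 := mul_le_mul_of_nonneg_left q2 l0.le
      have h3 : Real.cos (l * (Real.pi / 8)) ≤ Real.cos (2 * Real.pi * s) := by
        apply Real.cos_le_cos_of_nonneg_of_le_pi
        · positivity
        · nlinarith only [hs', hpi, hη0, e1, h64]
        · rw [hl]
          nlinarith only [hs, hs', hx, hpi]
      linarith only [h1, h2, h3]
    have k6 : 1 - l * (49 / 10000) ≤ Real.cos (2 * Real.pi * x) := by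
      have h1 := mul_cos_le (l := l) (a := Real.pi / 32) l0.le l1 (by positivity) (by linarith only [hpi])
      rw [show l * (Real.pi / 32) = 2 * Real.pi * x by rw [hl]; ring] at h1
      have h2 := mul_le_mul_of_nonneg_left q4 l0.le
      linarith only [h1, h2]
    have k7 : Real.cosh (2 * Real.pi * -t) * Real.cosh (2 * Real.pi * η) ≤
        (1 + l * (84 / 10000)) * (1 + l * (7 / 10000)) :=
      mul_le_mul k3 k4 (Real.cosh_pos _).le (by positivity)
    have k8 : (1 - l * (762 / 10000)) * (1 - l * (49 / 10000)) ≤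
        Real.cos (2 * Real.pi * s) * Real.cos (2 * Real.pi * x) :=
      mul_le_mul k5 k6 (by linarith only [hs', hx', hη0, e1]) (le_trans (by linarith only [hs', hx', hη0, e1]) k5)
    have k9 : l ^ 2 ≤ l := by nlinarith only [hs, h64, hs', hx]
    nlinarith only [hx, hη0, e1, k1, k2, k7, k8]

end Pool.Agent.Work.MP_b30479_gtS.G2

end

section

/-!
# Ring sides: lower bounds on the left ramps
-/

namespace Pool.Agent.Work.MP_b30479_gtS.G2

open Finset VOL Filter Topology

variable {x t σ η c a b s ρ T θ y K κ m l : ℝ} {w w' ζ : ℂ} {k k' : RKe}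

theorem S4_ramp (h0 : 0 ≤ s) (h1 : s ≤ 1 / 4) (m ρ : ℝ) (w : ℂ) :
    S4 m w (LT.zt ρ (-(1 / 2) + s)) = LL ⟨w.re + s, w.im + 4 * ρ * s⟩ +
      LL ⟨w.re + 1 - s, w.im - 4 * ρ * s⟩ - 2 * LL w +
      m * (YY ⟨w.re + s, w.im + 4 * ρ * s⟩ + YY ⟨w.re + 1 - s, w.im - 4 * ρ * s⟩ - 2 * YY w) := by
  unfold S4
  have e1 : w + 1 / 2 + LT.zt ρ (-(1 / 2) + s) = ⟨w.re + s, w.im + 4 * ρ * s⟩ := by
    rw [zt_eq, th_ramp h0 h1]
    apply Complex.ext <;> simp
  have e2 : w + 1 / 2 - LT.zt ρ (-(1 / 2) + s) = ⟨w.re + 1 - s, w.im - 4 * ρ * s⟩ := by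
    rw [zt_eq, th_ramp h0 h1]
    apply Complex.ext <;> simp
    ring
  rw [e1, e2]

theorem LR.W.eq (hw : LR.W x m w) : w = ⟨x, m * x⟩ := by
  apply Complex.ext
  · exact hw.re
  · exact hw.im

/-- the ring variable near the end, height `≤ 0` -/
theorem tiny_bound_neg (hρ : 0 < ρ) (hs : 0 < s) (hs' : s ≤ 1 / 16) (H : HOk ρ w) (hw : LR.W x m w)
    (hm : m ≤ 0) (hm' : -(131 / 100) ≤ m) (hx : x ≤ 13 / 100) (ht : -(131 / 1000) ≤ m * x)
    (hF : Dm (4 * ρ) w (LT.zt ρ (-(1 / 2) + s)) ≤ 45 / 10 * s - 4 * Real.pi * ρ) :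
    Real.log 24 - Real.log (1 + (-m) ^ 2) - 282 / 1000 + 2 * -m * Real.arctan (99 / 100 * -m) -
      -m * (-m / 5) ≤ S4 m w (LT.zt ρ (-(1 / 2) + s)) := by
  obtain ⟨hE, hρs⟩ := tiny_neg hρ hs hs' H hF
  have hx0 := hw.pos
  rw [hw.re, hw.im] at hE
  have η0 : 0 < 4 * ρ * s := by positivity
  rcases le_or_gt (s / 4) x with h1 | h1
  · exfalso
    have h2 : 0 ≤ -m := by linarith only [hm]
    have := negA (x := x) (t := m * x) (η := 4 * ρ * s) hs hs' h1 hx η0 (by nlinarith only [hs, hρs])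
      (by nlinarith only [hs, hs', hm, hx0]) (by nlinarith only [hs, hs', hm', hx0]) (by linarith only [ht])
    linarith only [hE, this]
  · rw [S4_ramp hs.le (by linarith only [hs', hx0, h1]), hw.re, hw.im]
    have key := negB (x := x) (m := -m) (η := 4 * ρ * s) hs hs' hx0 h1.le η0 (by linarith only [hm]) (by linarith only [hm'])
      (by rw [neg_mul, neg_neg]; exact hE)
    rw [neg_mul m x, neg_neg (m * x), neg_neg m] at key
    rw [hw.eq]
    exact key

/-- **Left ramp of a hinge with shift `π / 2`** -/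
theorem RPl.lo (P : RPl b ρ w w' σ) (hb : 4 ≤ b) (hρ : 0 < ρ) (hc : RCap b ρ) (H : HOk ρ w)
    (hw : LR.W x m w) (hm : m ≤ 0) (hm' : -(131 / 100) ≤ m) (hm4 : b < 5 → -(115 / 100) ≤ m)
    (hx : x ≤ 13 / 100) (ht : -(131 / 1000) ≤ m * x) (ht4 : b < 5 → -(115 / 1000) ≤ m * x)
    (hX : 1 / 2 < w'.re → x ≤ 125 / 1000) :
    18 / 100 ≤ S4 m w (LT.zt ρ σ) + Real.pi / 2 * m ∧
      (w'.re ≤ 1 / 2 → 2 / 10 ≤ S4 m w (LT.zt ρ σ) + Real.pi / 2 * m) := by
  cases P with
  | flat h =>
    have := LR.lo_flat hw h hm hm' hx ht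
    exact ⟨by linarith only [this], fun _ => this⟩
  | pos s e h hs hF =>
    have hFP := FP_of h.pos (by linarith only [h, h.lo]) h.hi hF
    have : 2 / 10 ≤ S4 m w (LT.zt ρ σ) + Real.pi / 2 * m := by
      rcases lt_or_ge b 5 with h5 | h5
      · exact LR.lo_P4 hw h hc.1 hm (hm4 h5) hx (ht4 h5) (LR.FP_mono h hb hFP)
      · exact LR.lo_P5 hw h (hc.2.1 h5) hm hm' hx ht (LR.FP_mono h h5 hFP)
    exact ⟨by linarith only [this], fun _ => this⟩
  | far s e h hF hx' =>
    refine ⟨?_, fun h2 => absurd h2 (not_le.2 hx')⟩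
    rcases lt_or_ge b 5 with h5 | h5
    · exact LR.lo_X4 hw h hc.1 hm (hm4 h5) (hX hx') (ht4 h5) (LR.FX_mono h hb hF)
    · exact LR.lo_X5 hw h (hc.2.1 h5) hm hm' (hX hx') ht (LR.FX_mono h h5 hF)
  | tiny s e h0 h1 hF hx' =>
    refine ⟨?_, fun h2 => absurd h2 (not_le.2 hx')⟩
    subst e
    have k1 := tiny_bound_neg hρ h0 h1 H hw hm hm' hx ht hF
    have k2 := rowU5 (m := -m) (by linarith only [hm]) (by linarith only [hm'])
    linarith only [k1, k2]

/-- **Left ramp of a hinge next to a digit `1`**, shift `π - 6 x`, first round -/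
theorem RPl.one (P : RPl b ρ w w' σ) (hb : 4 ≤ b) (hρ : 0 < ρ) (hc : RCap b ρ) (H : HOk ρ w)
    (hw : LR.W x m w) (hm : m ≤ -(2375 / 10000)) (hm' : -(9875 / 10000) ≤ m)
    (hm4 : b < 5 → -(8 / 10) ≤ m) (hx : x ≤ 12 / 100) :
    min (LR.eC x m) (LR.eL0 x m) ≤ S4 m w (LT.zt ρ σ) + (Real.pi - 6 * x) * m := by
  have hx0 := hw.pos
  cases P with
  | flat h => exact (min_le_right _ _).trans (LR.one_flatL hw h hm hm' hx)
  | pos s e h hs hF =>
    have hFP := FP_of h.pos (by linarith only [hx, hx0, h, h.lo]) h.hi hF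
    refine (min_le_left _ _).trans ?_
    rcases lt_or_ge b 5 with h5 | h5
    · exact LR.one_P4 hw h hc.1 hm (hm4 h5) (by linarith only [hx, hx0]) (LR.FP_mono h hb hFP)
    · exact LR.one_P5 hw h (hc.2.1 h5) hm hm' (by linarith only [hx, hx0]) (LR.FP_mono h h5 hFP)
  | far s e h hF hx' =>
    refine (min_le_right _ _).trans ?_
    rcases lt_or_ge b 5 with h5 | h5
    · exact LR.one_X4 hw h hc.1 hm (hm4 h5) hx (LR.FX_mono h hb hF)
    · exact LR.one_X5 hw h (hc.2.1 h5) hm hm' hx (LR.FX_mono h h5 hF)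
  | tiny s e h0 h1 hF hx' =>
    subst e
    refine (min_le_right _ _).trans ?_
    have k1 := tiny_bound_neg hρ h0 h1 H hw (by linarith only [hm, h0, h1]) (by linarith only [hm', h0, h1]) (by linarith only [hx, h0, h1])
      (by nlinarith only [hm', hx, h0, h1, hm]) hF
    have k2 := rowU6 (m := -m) (by linarith only [hm, h0, h1]) (by linarith only [hm'])
    have k3 : LR.eL0 x m ≤ 35 / 100 := by
      unfold LR.eL0
      split_ifs
      · exact min_le_left _ _
      · linarith only [hx0, h0, h1]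
    have k4 : 0 ≤ x * -m := mul_nonneg hx0.le (by linarith only [hm, h0, h1])
    linarith only [k1, k2, k3, k4]

/-- **Left ramp of a hinge next to a digit `1`**, all rounds in which the other hinge is `≤ 1/2` -/
theorem RPl.oneC (P : RPl b ρ w w' σ) (hb : 4 ≤ b) (hρ : 0 < ρ) (hc : RCap b ρ)
    (hbρ : b ^ 2 * ρ ≤ 23 / 10) (hfl : -(1 / 4) ≤ σ → -(2 * Real.pi * b * ρ) + Dm 0 w (LT.zt ρ σ) ≤ 0)
    (hσ : σ ≤ 0) (hw : LR.W x m w) (hm : m ≤ -(2375 / 10000)) (hm' : -(9875 / 10000) ≤ m)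
    (hm4 : b < 5 → -(8 / 10) ≤ m) (hx : x ≤ 16 / 100) (hx' : w'.re ≤ 1 / 2) :
    LR.eC x m ≤ S4 m w (LT.zt ρ σ) + (Real.pi - 6 * x) * m := by
  cases P with
  | flat h =>
    have h4 : -(1 / 4) ≤ σ := by
      have := h.lo
      rwa [zt_re] at this
    have e : (LT.zt ρ σ).im = ρ := by
      rw [zt_im, th_of_le (by rw [abs_of_nonpos hσ]; linarith only [h4]), mul_one]
    exact LR.one_flatC (b := b) hw h hm hm' hx (by rw [e]; exact hbρ) (by rw [e]; exact hfl h4)
  | pos s e h hs hF =>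
    have hFP := FP_of h.pos (by linarith only [h, h.lo]) h.hi hF
    rcases lt_or_ge b 5 with h5 | h5
    · exact LR.one_P4 hw h hc.1 hm (hm4 h5) hx (LR.FP_mono h hb hFP)
    · exact LR.one_P5 hw h (hc.2.1 h5) hm hm' hx (LR.FP_mono h h5 hFP)
  | far s e h hF hxx => exact absurd hx' (not_le.2 hxx)
  | tiny s e h0 h1 hF hxx => exact absurd hx' (not_le.2 hxx)

/-- **Left ramp of a ring|ring hinge**, own height `≥ 0` -/
theorem RPl.rr_pos (P : RPl b ρ w w' σ) (hb : 4 ≤ b) (hρ : 0 < ρ) (hc : RCap b ρ)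
    (hns : w + 1 / 2 - LT.zt ρ σ ≠ 1) (hw : LR.W x m w) (hm : 0 ≤ m) (hm' : m ≤ 56 / 100)
    (hm5 : 5 ≤ b → m ≤ 465 / 1000) (hx : x ≤ 1 / 10) : 0 < S4 m w (LT.zt ρ σ) := by
  have hx0 := hw.pos
  cases P with
  | flat h => exact LR.rr_flat hw h hm hm' hx
  | pos s e h hs hF =>
    have hFP := FP_of h.pos (by linarith only [hx, hx0, h, h.lo]) h.hi hF
    rcases lt_or_ge b 5 with h5 | h5
    · exact LR.rr_P4 hw h hc.1 hm hm' hx (LR.FP_mono h hb hFP)
    · exact LR.rr_P5 hw h (hc.2.1 h5) hm (hm5 h5) hx (LR.FP_mono h h5 hFP)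
  | far s e h hF hx' =>
    rcases lt_or_ge b 5 with h5 | h5
    · exact LR.rr_X4 hw h hc.1 hm hm' hx (LR.FX_mono h hb hF)
    · exact LR.rr_X5 hw h (hc.2.1 h5) hm (hm5 h5) hx (LR.FX_mono h h5 hF)
  | tiny s e h0 h1 hF hx' =>
    subst e
    have t0 : 0 ≤ w.im := by
      rw [hw.im]
      positivity
    have hE := tiny_pos hρ hc.1 h0 h1 (by rw [hw.re]; exact hx0.le) (by rw [hw.re]; linarith only [hx, h0, h1]) t0 hF
    rw [hw.re, hw.im] at hE
    have η0 : 0 < 4 * ρ * s := by positivity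
    rcases le_or_gt (s / 4) x with h2 | h2
    · exfalso
      have hne : x ≠ s ∨ m * x ≠ 4 * ρ * s := by
        by_contra hcon
        push Not at hcon
        apply hns
        rw [zt_eq, th_ramp h0.le (by linarith only [h0, h1])]
        apply Complex.ext
        · simp
          rw [hw.re, hcon.1]
          ring
        · simp
          rw [hw.im, hcon.2]
          ring
      have := posA (x := x) (t := m * x) (η := 4 * ρ * s) h0 h1 h2 hx η0
        (by nlinarith only [h0, hc, hc.1]) (by positivity) (by nlinarith only [hm', hx0]) hne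
      linarith only [hE, this]
    · rw [S4_ramp h0.le (by linarith only [hx0, h1, h2]), hw.re, hw.im, hw.eq]
      exact posB (x := x) (m := m) h0 h1 hx0 h2.le hm hm' hE

end Pool.Agent.Work.MP_b30479_gtS.G2

end

section

/-!
# Rings in a word: the left ramps of the hinges
-/

set_option deprecated.oldSectionVars true

namespace Pool.Agent.Work.MP_b30479_gtS.G2

open Finset VOL Filter Topology

theorem eL0_le_eC {x m : ℝ} (h0 : 0 ≤ x) (h1 : x ≤ 12 / 100) : LR.eL0 x m ≤ LR.eC x m := by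
  unfold LR.eL0 LR.eC
  split_ifs
  · exact le_min (min_le_left _ _) ((min_le_right _ _).trans (by linarith only [h0]))
  · exact le_min (by linarith only [h0]) (by linarith only [h1])

/-- **Left ramp of a hinge next to a digit `1`**, shift `π - 6 x`, first round -/
theorem RPl.oneL {b ρ σ x m : ℝ} {w w' : ℂ} (P : RPl b ρ w w' σ) (hb : 4 ≤ b) (hρ : 0 < ρ) (hc : RCap b ρ)
    (H : HOk ρ w) (hw : LR.W x m w) (hm : m ≤ -(2375 / 10000)) (hm' : -(9875 / 10000) ≤ m)
    (hm4 : b < 5 → -(8 / 10) ≤ m) (hx : x ≤ 12 / 100) :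
    LR.eL0 x m ≤ S4 m w (LT.zt ρ σ) + (Real.pi - 6 * x) * m :=
  (le_min (eL0_le_eC hw.pos.le hx) le_rfl).trans (P.one hb hρ hc H hw hm hm' hm4 hx)

/-- a ring|ring hinge on its left ramp: the side of the ring is positive -/
theorem RPl.rr_side {b ρ σ x m : ℝ} {w w' : ℂ} (P : RPl b ρ w w' σ) (hb : 4 ≤ b) (hρ : 0 < ρ)
    (hc : RCap b ρ) (hk : RKe.ok .rr b w) (hns : w + 1 / 2 - LT.zt ρ σ ≠ 1) (hw : LR.W x m w)
    (hm0 : -(385 / 1000) ≤ m) (hm' : m ≤ 56 / 100) (hm5 : 5 ≤ b → m ≤ 465 / 1000)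
    (hx : x ≤ 1 / 10) : 0 < S4 m w (LT.zt ρ σ) := by
  have hpi := Real.pi_pos
  have hx0 := hw.pos
  rcases le_total 0 m with h | h
  · exact P.rr_pos hb hρ hc hns hw h hm' hm5 hx
  · have him : w.im ≤ 0 := by
      rw [hw.im]
      exact mul_nonpos_of_nonpos_of_nonneg h hx0.le
    have H := HOk_of hρ hb hc hk (fun _ => him) (by rw [hw.re]; linarith only [hx, hx0])
    have key := (P.lo hb hρ hc H hw h (by linarith only [hm0, hx, hx0]) (fun _ => by linarith only [hm0, hx, hx0]) (by linarith only [hx, hx0])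
      (by nlinarith only [hx, hx0, hm0]) (fun _ => by nlinarith only [hx, hx0, hm0]) (fun _ => by linarith only [hx, hx0])).1
    have : Real.pi / 2 * m ≤ 0 := mul_nonpos_of_nonneg_of_nonpos (by positivity) h
    linarith only [hx, hx0, key, this]

section
open NumIs
open NumIs.E

/-- final row, hinges `3 | ring` -/
theorem rowU7t {m : ℝ} (h0 : 0 ≤ m) (h1 : m ≤ 475 / 1000) :
    3 / 10 < Real.log 24 - Real.log (1 + m ^ 2) - 282 / 1000 + 2 * m * Real.arctan (99 / 100 * m) -
      m * (m / 5) - Real.pi / 2 * m := by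
  have h : chk [sub (sub (add (sub (sub (log (q 24 1)) (log (add (q 1 1) (mul (var 0) (var 0)))))
      (q 282 1000)) (mul (mul (q 2 1) (var 0)) (atan (mul (q 99 100) (var 0)))))
      (add (mul (q 1 5) (mul (var 0) (var 0))) (mul (mul (q 1 2) pi) (var 0)))) (q 30 100)] 20
      [V.of 10000 0 4750] = true := by decide +kernel
  have hp := pos_of_chk (chk1 h (by norm_num) (x := m)
    (by norm_num; linarith only [h0]) (by norm_num; linarith only [h1]))
  simp only [E.val, NumIs.lkR] at hp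
  simp only [Int.cast_ofNat, Nat.cast_ofNat, Int.cast_one, Nat.cast_one, div_one] at hp
  rw [show m * m = m ^ 2 by ring] at hp
  linarith only [hp]

end

/-- **Left ramp of a hinge `3 | ring`**, `x ≤ 7/100` -/
theorem RPl.three {b ρ σ x m : ℝ} {w w' : ℂ} (P : RPl b ρ w w' σ) (hb : 4 ≤ b) (hρ : 0 < ρ)
    (hc : RCap b ρ) (H : HOk ρ w) (hw : LR.W x m w) (hm : m ≤ 0) (hm' : -(475 / 1000) ≤ m)
    (hx : x ≤ 7 / 100) : 3 / 10 ≤ S4 m w (LT.zt ρ σ) + Real.pi / 2 * m := by
  have hx0 := hw.pos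
  cases P with
  | flat h => exact LR.lo7_flat hw h hm hm' hx
  | pos s e h hs hF =>
    have hFP := FP_of h.pos (by linarith only [hx, hx0, h, h.lo]) h.hi hF
    rcases lt_or_ge b 5 with h5 | h5
    · exact LR.lo7_P4 hw h hc.1 hm hm' hx (LR.FP_mono h hb hFP)
    · exact LR.lo7_P5 hw h (hc.2.1 h5) hm hm' hx (LR.FP_mono h h5 hFP)
  | far s e h hF hx' =>
    rcases lt_or_ge b 5 with h5 | h5
    · exact LR.lo7_X4 hw h hc.1 hm hm' hx (LR.FX_mono h hb hF)
    · exact LR.lo7_X5 hw h (hc.2.1 h5) hm hm' hx (LR.FX_mono h h5 hF)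
  | tiny s e h0 h1 hF hx' =>
    subst e
    have k1 := tiny_bound_neg hρ h0 h1 H hw hm (by linarith only [hm', h0, h1]) (by linarith only [hx, h0, h1]) (by nlinarith only [hm', h0, h1, hm, hx]) hF
    have k2 := rowU7t (m := -m) (by linarith only [hm]) (by linarith only [hm'])
    linarith only [k1, k2]

namespace SR

set_option deprecated.oldSectionVars false
variable {M : ℕ} {b : Fin (M + 1) → ℤ} {zs : DD (tyW b) ⊕ ZZ (tyW b) → ℂ}
set_option deprecated.oldSectionVars false
variable {y : DD (tyW b) ⊕ ZZ (tyW b) → ℝ}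
set_option deprecated.oldSectionVars false
variable {h h' : Fin M} {i j j' : Fin (M + 1)} {p : Fin 3}

/-- the other hinge of a ring is bounded -/
theorem Adj.other_le (A : Adj h i p j) {C : ℝ} (hC : 0 ≤ C)
    (H : ∀ {h' j'}, Adj h' i p.rev j' → y (.inl (.inl h')) ≤ C) : (Yw b zs y i p.rev).re ≤ C := by
  rcases A.other b zs y with ⟨-, h0⟩ | ⟨-, h', j', A'⟩
  · rw [h0]
    exact hC
  · rw [A'.re]
    exact H A'

/-- a hinge on its left ramp -/
theorem Adj.lw (A : Adj h i p j) (hy : Mx b zs y) (h0 : 0 < y (.inl (.inl h)))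
    (hx : y (.inl (.inl h)) ≤ wcl b h) :
    LR.W (y (.inl (.inl h))) (ofs (b i) ((zs (.inl (.inl h))).im / wcl b h)) (Yw b zs y i p) := by
  have hrh := A.rh hy
  obtain ⟨g1, g2, g3⟩ := A.good (b := b)
  refine ⟨A.re, ?_, h0⟩
  rw [hrh.im, A.re, tr_a g1 g2 g3 h0.le hx, ofs_div]
  ring

/-- the height of a hinge next to `2`, `3` -/
theorem Adj.t_lo (A : Adj h i p j) (hb : ClassW b) (hL : Loc b zs) (hX : LocX b zs)
    (hc : clsW b i = .ring) (hj1 : clsW b j ≠ .one) (hj : clsW b j ≠ .ring)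
    (h0 : 0 < y (.inl (.inl h))) (hE : ¬Exh b zs y h i j) :
    -(131 / 1000) ≤ ofs (b i) (zs (.inl (.inl h))).im ∧ ofs (b i) (zs (.inl (.inl h))).im ≤ 0 ∧
      (((b i).natAbs : ℝ) < 5 → -(115 / 1000) ≤ ofs (b i) (zs (.inl (.inl h))).im) := by
  have h4 := ring_four hb (tyW_of_ring hb hc)
  have hop := A.opp hb (Or.inr hj)
  have hop' : b j * b i < 0 := by rwa [mul_comm] at hop
  obtain ⟨-, -, t0, t1⟩ := A.box hb hL
  rw [hc, A.ss hop] at t0 t1
  have eo := ofs_opp hop' (zs (.inl (.inl h))).im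
  refine ⟨?_, ?_, fun h5 => ?_⟩
  · refine le_trans ?_ t0
    generalize clsW b j = B at hj hj1
    cases B <;> first | exact absurd rfl hj | exact absurd rfl hj1 | norm_num [hbox]
  · by_cases h3 : clsW b j = .three
    · by_contra hcon
      exact hE ⟨h3, not_le.1 hcon, h0⟩
    · refine t1.trans ?_
      generalize clsW b j = B at hj hj1 h3
      cases B <;> first | exact absurd rfl hj | exact absurd rfl hj1 | exact absurd rfl h3 | norm_num [hbox]
  · have := natAbs_lt (c := 5) (k := 5) (by norm_num) h5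
    have := hX.lo4 A.symm hj1 hj hc (by omega)
    linarith only [eo, this]

/-- the height of a hinge next to a digit `1` -/
theorem Adj.t_one (A : Adj h i p j) (hb : ClassW b) (hL : Loc b zs) (hX : LocX b zs)
    (hc : clsW b i = .ring) (hj : clsW b j = .one) :
    -(158 / 1000) ≤ ofs (b i) (zs (.inl (.inl h))).im ∧
      ofs (b i) (zs (.inl (.inl h))).im ≤ -(38 / 1000) ∧
      (((b i).natAbs : ℝ) < 5 → -(128 / 1000) ≤ ofs (b i) (zs (.inl (.inl h))).im) := by
  have h4 := ring_four hb (tyW_of_ring hb hc)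
  have hop := A.opp hb (Or.inr (by rw [hj]; decide))
  have hop' : b j * b i < 0 := by rwa [mul_comm] at hop
  obtain ⟨-, -, t0, t1⟩ := A.box hb hL
  rw [hc, A.ss hop, hj] at t0 t1
  have eo := ofs_opp hop' (zs (.inl (.inl h))).im
  simp only [hbox] at t0 t1
  refine ⟨t0, t1, fun h5 => ?_⟩
  have := natAbs_lt (c := 5) (k := 5) (by norm_num) h5
  have := hX.one4 A.symm hj hc (by omega)
  linarith only [eo, this]

/-- the place of the ring variable -/
theorem Adj.rpl (A : Adj h i p j) (hb : ClassW b) (hL : Loc b zs) (hX : LocX b zs)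
    (hR : LocR b zs) (hy : Mx b zs y) (hc : clsW b i = .ring) (hx : y (.inl (.inl h)) ≤ 1 / 2) :
    ∃ ρ σ : ℝ, ∃ k' : RKe, RPk b zs y i p ((b i).natAbs : ℝ) ρ σ (rkw b zs y h i j) k' ∧
      RPl ((b i).natAbs : ℝ) ρ (Yw b zs y i p) (Yw b zs y i p.rev) σ ∧
      (∀ v : ZZ (tyW b), v.1 = i → ρ = (zs (.inr v)).im ∧ σ = ofs (b i) (y (.inr v))) := by
  obtain ⟨v, hv, k', P⟩ := A.rpk hb hL hX hR hy hc
  refine ⟨_, _, k', P, P.rm.place P.cap P.ok P.ok' P.lt P.le (by rw [A.re]; exact hx) P.cp P.cp',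
    fun v' hv' => ?_⟩
  have : v' = v := by
    apply Subtype.ext
    rw [hv', hv]
  rw [this]
  exact ⟨rfl, rfl⟩

/-- **The side of a ring at a ring|ring hinge on its left ramp.** -/
theorem Adj.ring_L_ring (A : Adj h i p j) (hb : ClassW b) (hL : Loc b zs) (hX : LocX b zs)
    (hR : LocR b zs) (hy : Mx b zs y) (hc : clsW b i = .ring) (hj : clsW b j = .ring)
    (h0 : 0 < y (.inl (.inl h))) (hx : y (.inl (.inl h)) ≤ 1 / 10) :
    0 < Sw b zs y i p ((zs (.inl (.inl h))).im / wcl b h) := by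
  obtain ⟨ρ, σ, k', P, Q, -⟩ := A.rpl hb hL hX hR hy hc (by linarith only [h0, hx])
  obtain ⟨-, e2, -⟩ := A.par_rr hc hj
  have hw := A.lw hy h0 (by rw [e2]; exact hx)
  obtain ⟨t1, t2, t3, t4⟩ := A.rrt hb hL hX hR hc hj
  have hk := P.ok
  rw [rkw_rr.2 hj] at hk
  have hns : Yw b zs y i p + 1 / 2 - LT.zt ρ σ ≠ 1 := by
    intro hs
    have h1 := congrArg Complex.re hs
    simp only [Complex.sub_re, Complex.add_re, zt_re, A.re, Complex.one_re] at h1
    norm_num at h1
    have h2 := P.rm.ns (abs_lt.1 P.lt).1 P.le P.ok.re_nonneg (by rw [A.re]; linarith only [h0, hx, h1, P.le])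
      P.ok'.re_nonneg (by linarith only [h0, hx, h1, P, P.ok'.re_le])
    exact h2 hs
  rw [A.side_ring hb hc, P.z]
  have em : ofs (b i) ((zs (.inl (.inl h))).im / wcl b h) = ofs (b i) (zs (.inl (.inl h))).im * 10 := by
    rw [ofs_div, e2]
    ring
  refine Q.rr_side P.rm.b4 P.rm.ρ0 P.cap hk hns hw ?_ ?_ ?_ hx
  · rw [em]
    linarith only [t1]
  · rw [em]
    linarith only [t2]
  · intro h5
    rw [em]
    linarith only [t4, h5, t4 h5]

/-- **Floor of the ring|ring hinges.** -/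
theorem rr_floor (hb : ClassW b) (hL : Loc b zs) (hX : LocX b zs) (hR : LocR b zs) (hy : Mx b zs y)
    (hpos : ∀ h : Fin M, 0 < y (.inl (.inl h))) (A : Adj h i p j) (hc : clsW b i = .ring)
    (hj : clsW b j = .ring) : 1 / 10 ≤ y (.inl (.inl h)) := by
  have key := left_step' hb hy hpos (Bad := fun h => clsW b h.castSucc = .ring ∧
    clsW b h.succ = .ring ∧ y (.inl (.inl h)) < 1 / 10) (fun _ => 0) (fun h hB => by
      obtain ⟨e1, -, -⟩ := (Adj.l (h := h)).par_rr hB.1 hB.2.1
      rw [e1]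
      linarith only [hB, hB.2.2]) (fun {h i j p} A _ hB _ => by
      have hij : clsW b i = .ring ∧ clsW b j = .ring := by
        cases A
        · exact ⟨hB.1, hB.2.1⟩
        · exact ⟨hB.2.1, hB.1⟩
      obtain ⟨-, e2, -⟩ := A.par_rr hij.1 hij.2
      have h1 := A.ring_L_ring hb hL hX hR hy hij.1 hij.2 (hpos h) hB.2.2.le
      have h2 := A.symm.ring_L_ring hb hL hX hR hy hij.2 hij.1 (hpos h) hB.2.2.le
      rw [slR_ramp (by rw [e2]; exact hB.2.2)]
      exact LStep.of_adj A (c := 0) (e1 := Sw b zs y i p ((zs (.inl (.inl h))).im / wcl b h))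
        (e2 := Sw b zs y j p.rev ((zs (.inl (.inl h))).im / wcl b h)) (fun _ => rfl)
        (by linarith only [h1, h2]) (by linarith only []) (by linarith only [])) h
  by_contra hcon
  push Not at hcon
  apply key
  cases A
  · exact ⟨hc, hj, hcon⟩
  · exact ⟨hj, hc, hcon⟩

/-- the condition on a hinge that is not next to a ring and not exceptional -/
theorem Adj.hok (A : Adj h i p j) {B ρ σ : ℝ} {k' : RKe} (P : RPk b zs y i p B ρ σ (rkw b zs y h i j) k')
    (hj : clsW b j ≠ .ring) (hE : ¬Exh b zs y h i j) (hx : y (.inl (.inl h)) ≤ 1 / 2) :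
    HOk ρ (Yw b zs y i p) := by
  have hk := P.ok
  rw [rkw_neg hE] at hk
  exact HOk_of P.rm.ρ0 P.rm.b4 P.cap hk (fun hu => absurd hu (by rw [rkd_up hj]; decide))
    (by rw [A.re]; exact hx)

theorem not_exh (hj : clsW b j = .one) : ¬Exh b zs y h i j := fun hE => by
  have := hE.1
  rw [hj] at this
  exact absurd this (by decide)

/-- **The side of a ring at a hinge `1 | ring` on its left ramp**, first rounds -/
theorem Adj.ring_L_one (A : Adj h i p j) (hb : ClassW b) (hL : Loc b zs) (hX : LocX b zs)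
    (hR : LocR b zs) (hy : Mx b zs y) (hc : clsW b i = .ring) (hj : clsW b j = .one)
    (h0 : 0 < y (.inl (.inl h))) (hx : y (.inl (.inl h)) ≤ 12 / 100) :
    LR.eL0 (y (.inl (.inl h))) (ofs (b i) (zs (.inl (.inl h))).im / (16 / 100)) ≤
      Sw b zs y i p ((zs (.inl (.inl h))).im / wcl b h) +
        (Real.pi - 6 * y (.inl (.inl h))) * ofs (b i) ((zs (.inl (.inl h))).im / wcl b h) := by
  obtain ⟨ρ, σ, k', P, Q, -⟩ := A.rpl hb hL hX hR hy hc (by linarith only [h0, hx])
  obtain ⟨-, e2, -⟩ := A.par_ring_one hc hj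
  have hw := A.lw hy h0 (by rw [e2]; linarith only [h0, hx])
  obtain ⟨t1, t2, t3⟩ := A.t_one hb hL hX hc hj
  have H := A.hok P (by rw [hj]; decide) (not_exh hj) (by linarith only [h0, hx])
  rw [A.side_ring hb hc, P.z]
  rw [ofs_div, e2] at hw ⊢
  exact Q.oneL P.rm.b4 P.rm.ρ0 P.cap H hw (by rw [div_le_iff₀ (by norm_num)]; linarith only [t2])
    (by rw [le_div_iff₀ (by norm_num)]; linarith only [t1])
    (fun h5 => by rw [le_div_iff₀ (by norm_num)]; linarith only [t3, h5, t3 h5]) hx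

/-- the bound `b² ρ ≤ 2.3` -/
theorem RPk.sq {B ρ σ : ℝ} {k k' : RKe} (P : RPk b zs y i p B ρ σ k k') (hb : ClassW b)
    (hc : clsW b i = .ring) (hB : B = ((b i).natAbs : ℝ)) : B ^ 2 * ρ ≤ 23 / 10 := by
  obtain ⟨c4, c5, c6, c7, c8⟩ := P.cap
  have h4 := ring_four hb (tyW_of_ring hb hc)
  have hρ := P.rm.ρ0
  rcases (show (b i).natAbs = 4 ∨ (b i).natAbs = 5 ∨ (b i).natAbs = 6 ∨ (b i).natAbs = 7 ∨
    8 ≤ (b i).natAbs by omega) with h5 | h5 | h5 | h5 | h5
  · rw [hB, h5]
    norm_num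
    linarith only [c4, hρ]
  · rw [hB, h5] at c5 ⊢
    have := c5 (by norm_num)
    norm_num
    linarith only [hρ, this]
  · rw [hB, h5] at c6 ⊢
    have := c6 (by norm_num)
    norm_num
    linarith only [hρ, this]
  · rw [hB, h5] at c7 ⊢
    have := c7 (by norm_num)
    norm_num
    linarith only [hρ, this]
  · rw [hB] at c8 ⊢
    exact c8 (by exact_mod_cast h5)

/-- the same, all rounds in which the other hinge is `≤ 36/100` -/
theorem Adj.ring_LC_one (A : Adj h i p j) (hb : ClassW b) (hL : Loc b zs) (hX : LocX b zs)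
    (hR : LocR b zs) (hy : Mx b zs y) (hc : clsW b i = .ring) (hj : clsW b j = .one)
    (h0 : 0 < y (.inl (.inl h))) (hx : y (.inl (.inl h)) ≤ 16 / 100)
    (H : ∀ {h' j'}, Adj h' i p.rev j' → y (.inl (.inl h')) ≤ 36 / 100) :
    LR.eC (y (.inl (.inl h))) (ofs (b i) (zs (.inl (.inl h))).im / (16 / 100)) ≤
      Sw b zs y i p ((zs (.inl (.inl h))).im / wcl b h) +
        (Real.pi - 6 * y (.inl (.inl h))) * ofs (b i) ((zs (.inl (.inl h))).im / wcl b h) := by
  obtain ⟨ρ, σ, k', P, Q, -⟩ := A.rpl hb hL hX hR hy hc (by linarith only [h0, hx])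
  obtain ⟨-, e2, -⟩ := A.par_ring_one hc hj
  have hw := A.lw hy h0 (by rw [e2]; exact hx)
  obtain ⟨t1, t2, t3⟩ := A.t_one hb hL hX hc hj
  have hH := A.other_le (zs := zs) (by norm_num) H
  have hbρ := P.sq hb hc rfl
  have hfl : -(1 / 4) ≤ σ → -(2 * Real.pi * ((b i).natAbs : ℝ) * ρ) + Dm 0 (Yw b zs y i p) (LT.zt ρ σ) ≤ 0 := by
    intro h5
    exact P.rm.flat_le P.cap P.ok' P.ok.re_nonneg (by rw [A.re]; exact hx) (by
      rw [hw.im, ofs_div, e2]
      exact mul_nonpos_of_nonpos_of_nonneg (div_nonpos_of_nonpos_of_nonneg (by linarith only [h0, hx, t2]) (by norm_num))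
        h0.le) hH h5 P.le
  rw [A.side_ring hb hc, P.z]
  rw [ofs_div, e2] at hw ⊢
  exact Q.oneC P.rm.b4 P.rm.ρ0 P.cap hbρ hfl P.le hw (by rw [div_le_iff₀ (by norm_num)]; linarith only [t2])
    (by rw [le_div_iff₀ (by norm_num)]; linarith only [t1])
    (fun h5 => by rw [le_div_iff₀ (by norm_num)]; linarith only [t3, h5, t3 h5]) hx (by linarith only [h0, hx, hH])

/-- the side of an exceptional ring on the left ramp -/
theorem Adj.ring_L_exc (A : Adj h i p j) (hb : ClassW b) (hL : Loc b zs) (hX : LocX b zs)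
    (hR : LocR b zs) (hy : Mx b zs y) (hc : clsW b i = .ring) (hE : Exh b zs y h i j)
    (hx : y (.inl (.inl h)) ≤ wcl b h) :
    2 / 10 ≤ Sw b zs y i p ((zs (.inl (.inl h))).im / wcl b h) +
        Real.pi / 2 * ofs (b i) ((zs (.inl (.inl h))).im / wcl b h) ∧
      (y (.inl (.inl h)) ≤ 12 / 100 → 3 / 10 ≤ Sw b zs y i p ((zs (.inl (.inl h))).im / wcl b h) +
        Real.pi / 2 * ofs (b i) ((zs (.inl (.inl h))).im / wcl b h)) := by
  have E := A.exc hb hR hc hE
  have hop := A.opp hb (Or.inr (by rw [hE.1]; decide))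
  have hop' : b j * b i < 0 := by rwa [mul_comm] at hop
  have eo := ofs_opp hop' (zs (.inl (.inl h))).im
  have hlo := E.lo
  have hj : clsW b j ≠ .ring := by rw [hE.1]; decide
  have hj1 : clsW b j ≠ .one := by rw [hE.1]; decide
  obtain ⟨-, ⟨e1, e2⟩, -⟩ := A.par_ring_lo hc hj1 hj
  have e12 : 12 / 100 ≤ wcl b h := by
    rw [A.cl_eq b, hc, hE.1]
    unfold hpp
    split_ifs <;> simp only [hp] <;> norm_num
  obtain ⟨v, hv, k', P⟩ := A.rpk hb hL hX hR hy hc
  have Q := P.rm.place P.cap P.ok P.ok' P.lt P.le (by rw [A.re]; linarith only [hx, e2]) P.cp P.cp'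
  have hw := A.lw hy hE.2.2 hx
  have hk' : k' = .rr := P.oth (rkw_pos hE)
  have hx27 : (Yw b zs y i p.rev).re ≤ 27 / 100 := by
    have := P.cp'
    rw [hk'] at this
    exact this
  have hr0 := E.r0 v hv
  have hr1 := E.r1 v hv
  have c0 : 0 < wcl b h := by linarith only [e12]
  have hT := hE.2.1
  rw [A.side_ring hb hc, P.z]
  rw [ofs_div] at hw ⊢
  have hm0 : 0 ≤ ofs (b i) (zs (.inl (.inl h))).im / wcl b h := div_nonneg hT.le c0.le
  have hm1 : ofs (b i) (zs (.inl (.inl h))).im / wcl b h ≤ 6 / 1000 := by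
    rw [div_le_iff₀ c0]
    linarith only [eo, hlo, e12, hT]
  have hb4 : ((b i).natAbs : ℝ) = 4 := by
    rw [E.n4]
    norm_num
  cases Q with
  | flat hz =>
    have h4 : -(1 / 4) ≤ ofs (b i) (y (.inr v)) := by
      have := hz.lo
      rwa [zt_re] at this
    have e : (LT.zt (zs (.inr v)).im (ofs (b i) (y (.inr v)))).im = (zs (.inr v)).im := by
      rw [zt_im, th_of_le (by rw [abs_of_nonpos P.le]; linarith only [h4]), mul_one]
    have := LR.ps_flat hw hz (by rw [e]; exact hr0) (by rw [e]; exact hr1) hm0 hm1 (by linarith only [hx, e2])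
    exact ⟨by linarith only [eo, hlo, hT, this], fun _ => this⟩
  | pos s e hz hs hF =>
    have hFP := FP_of hz.pos (by linarith only [eo, hlo, hT, hz, hz.lo]) hz.hi hF
    rw [hb4] at hFP
    exact ⟨LR.ps_P4 hw hz hr0 hr1 hm0 hm1 (by linarith only [hx, e2]) hFP,
      fun h12 => LR.ps12_P4 hw hz hr0 hr1 hm0 hm1 h12 hFP⟩
  | far s e hz hF hx' => exact absurd hx27 (by linarith only [eo, hlo, hx27, hT, hx'])
  | tiny s e h0 h1 hF hx' => exact absurd hx27 (by linarith only [eo, hlo, hx27, hT, hx'])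

/-- **The side of a ring at a hinge next to `2`, `3` on its left ramp** -/
theorem Adj.ring_L_lo (A : Adj h i p j) (hb : ClassW b) (hL : Loc b zs) (hX : LocX b zs)
    (hR : LocR b zs) (hy : Mx b zs y) (hc : clsW b i = .ring) (hj1 : clsW b j ≠ .one)
    (hj : clsW b j ≠ .ring) (h0 : 0 < y (.inl (.inl h))) (hx : y (.inl (.inl h)) ≤ wcl b h)
    (hx' : y (.inl (.inl h)) ≤ 125 / 1000) :
    18 / 100 ≤ Sw b zs y i p ((zs (.inl (.inl h))).im / wcl b h) +
        Real.pi / 2 * ofs (b i) ((zs (.inl (.inl h))).im / wcl b h) := by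
  by_cases hE : Exh b zs y h i j
  · have := (A.ring_L_exc hb hL hX hR hy hc hE hx).1
    linarith only [h0, hx', this]
  obtain ⟨ρ, σ, k', P, Q, -⟩ := A.rpl hb hL hX hR hy hc (by linarith only [h0, hx'])
  obtain ⟨-, ⟨e1, e2⟩, -⟩ := A.par_ring_lo hc hj1 hj
  have hw := A.lw hy h0 hx
  obtain ⟨t1, t2, t3⟩ := A.t_lo hb hL hX hc hj1 hj h0 hE
  have H := A.hok P hj hE (by linarith only [h0, hx'])
  rw [A.side_ring hb hc, P.z]
  rw [ofs_div] at hw ⊢
  set T := ofs (b i) (zs (.inl (.inl h))).im with hT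
  set c := wcl b h with hcl
  set x := y (.inl (.inl h)) with hxd
  have c0 : 0 < c := by linarith only [h0, hx]
  have k1 : ∀ a : ℝ, 0 ≤ a → -a ≤ T → -a ≤ T / c * x := by
    intro a ha hTa
    have h1 : x / c ≤ 1 := (div_le_one c0).2 hx
    have h2 : 0 ≤ x / c := by positivity
    have h3 : T / c * x = T * (x / c) := by ring
    rw [h3]
    have h4 : -T * (x / c) ≤ a * 1 := mul_le_mul (by linarith only [hTa]) h1 h2 ha
    linarith only [h4]
  refine (Q.lo P.rm.b4 P.rm.ρ0 P.cap H hw (div_nonpos_of_nonpos_of_nonneg t2 c0.le)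
    (by rw [le_div_iff₀ c0]; linarith only [t1, e1]) (fun h5 => by rw [le_div_iff₀ c0]; linarith only [e1, t3, h5, t3 h5])
    (by linarith only [h0, hx']) (k1 _ (by norm_num) t1) (fun h5 => k1 _ (by norm_num) (t3 h5)) (fun _ => hx')).1

/-- **The side of a ring at a hinge `3 | ring`**, `x ≤ 7/100` -/
theorem Adj.ring_L_three (A : Adj h i p j) (hb : ClassW b) (hL : Loc b zs) (hX : LocX b zs)
    (hR : LocR b zs) (hy : Mx b zs y) (hc : clsW b i = .ring) (hj : clsW b j = .three)
    (h0 : 0 < y (.inl (.inl h))) (hx : y (.inl (.inl h)) ≤ 7 / 100) :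
    3 / 10 ≤ Sw b zs y i p ((zs (.inl (.inl h))).im / wcl b h) +
        Real.pi / 2 * ofs (b i) ((zs (.inl (.inl h))).im / wcl b h) := by
  have hj1 : clsW b j ≠ .one := by rw [hj]; decide
  have hj2 : clsW b j ≠ .ring := by rw [hj]; decide
  have e12 : 12 / 100 ≤ wcl b h := by
    rw [A.cl_eq b, hc, hj]
    unfold hpp
    split_ifs <;> simp only [hp] <;> norm_num
  by_cases hE : Exh b zs y h i j
  · exact (A.ring_L_exc hb hL hX hR hy hc hE (by linarith only [h0, hx, e12])).2 (by linarith only [h0, hx])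
  obtain ⟨ρ, σ, k', P, Q, -⟩ := A.rpl hb hL hX hR hy hc (by linarith only [h0, hx])
  have hw := A.lw hy h0 (by linarith only [h0, hx, e12])
  obtain ⟨-, t2, -⟩ := A.t_lo hb hL hX hc hj1 hj2 h0 hE
  have t1 : -(57 / 1000) ≤ ofs (b i) (zs (.inl (.inl h))).im := by
    have hop := A.opp hb (Or.inr hj2)
    obtain ⟨-, -, t0, -⟩ := A.box hb hL
    rw [hc, A.ss hop, hj] at t0
    simp only [hbox] at t0
    exact t0
  have H := A.hok P hj2 hE (by linarith only [h0, hx])
  rw [A.side_ring hb hc, P.z]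
  rw [ofs_div] at hw ⊢
  have c0 : 0 < wcl b h := by linarith only [h0, hx, e12]
  exact Q.three P.rm.b4 P.rm.ρ0 P.cap H hw (div_nonpos_of_nonpos_of_nonneg t2 c0.le)
    (by rw [le_div_iff₀ c0]; linarith only [e12, t1]) hx

/-- the same, if the other hinge is `≤ 1/2` -/
theorem Adj.ring_LC_lo (A : Adj h i p j) (hb : ClassW b) (hL : Loc b zs) (hX : LocX b zs)
    (hR : LocR b zs) (hy : Mx b zs y) (hc : clsW b i = .ring) (hj1 : clsW b j ≠ .one)
    (hj : clsW b j ≠ .ring) (h0 : 0 < y (.inl (.inl h))) (hx : y (.inl (.inl h)) ≤ wcl b h)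
    (H' : ∀ {h' j'}, Adj h' i p.rev j' → y (.inl (.inl h')) ≤ 1 / 2) :
    2 / 10 ≤ Sw b zs y i p ((zs (.inl (.inl h))).im / wcl b h) +
        Real.pi / 2 * ofs (b i) ((zs (.inl (.inl h))).im / wcl b h) := by
  by_cases hE : Exh b zs y h i j
  · have := (A.ring_L_exc hb hL hX hR hy hc hE hx).1
    linarith only [this]
  obtain ⟨-, ⟨e1, e2⟩, -⟩ := A.par_ring_lo hc hj1 hj
  obtain ⟨ρ, σ, k', P, Q, -⟩ := A.rpl hb hL hX hR hy hc (by linarith only [h0, hx, e2])
  have hw := A.lw hy h0 hx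
  obtain ⟨t1, t2, t3⟩ := A.t_lo hb hL hX hc hj1 hj h0 hE
  have H := A.hok P hj hE (by linarith only [h0, hx, e2])
  rw [A.side_ring hb hc, P.z]
  rw [ofs_div] at hw ⊢
  set T := ofs (b i) (zs (.inl (.inl h))).im with hT
  set c := wcl b h with hcl
  set x := y (.inl (.inl h)) with hxd
  have c0 : 0 < c := by linarith only [h0, hx]
  have hoth := A.other_half (zs := zs) H'
  have k1 : ∀ a : ℝ, 0 ≤ a → -a ≤ T → -a ≤ T / c * x := by
    intro a ha hTa
    have h1 : x / c ≤ 1 := (div_le_one c0).2 hx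
    have h2 : 0 ≤ x / c := by positivity
    have h3 : T / c * x = T * (x / c) := by ring
    rw [h3]
    have h4 : -T * (x / c) ≤ a * 1 := mul_le_mul (by linarith only [hTa]) h1 h2 ha
    linarith only [h4]
  refine (Q.lo P.rm.b4 P.rm.ρ0 P.cap H hw (div_nonpos_of_nonpos_of_nonneg t2 c0.le)
    (by rw [le_div_iff₀ c0]; linarith only [t1, e1]) (fun h5 => by rw [le_div_iff₀ c0]; linarith only [e1, t3, h5, t3 h5])
    (by linarith only [e2, hx]) (k1 _ (by norm_num) t1) (fun h5 => k1 _ (by norm_num) (t3 h5))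
    (fun hx'' => absurd hoth (not_le.2 hx''))).2 hoth

end SR

end Pool.Agent.Work.MP_b30479_gtS.G2

end

section

/-!
# The left rounds
-/

namespace Pool.Agent.Work.MP_b30479_gtS.G2

open Finset VOL Filter Topology

namespace SR

open ML

variable {M : ℕ} {b : Fin (M + 1) → ℤ} {zs : DD (tyW b) ⊕ ZZ (tyW b) → ℂ}
variable {y : DD (tyW b) ⊕ ZZ (tyW b) → ℝ}
variable {h h' h1 h2 : Fin M} {i j j' j1 j2 : Fin (M + 1)} {p : Fin 3}

/-! ### bounds for the interior regions with three crossings and for the rings -/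

/-- lower bounds of the side of a ring in the round `n`; `B`: the class across the hinge, `x`: the
hinge, `T`: height of the saddle point in the own frame -/
noncomputable def eRT (n : ℕ) (B : Cl) (x T : ℝ) : ℝ :=
  match B with
  | .one => if n ≤ 1 then LR.eL0 x (T / (16 / 100)) else LR.eC x (T / (16 / 100))
  | _ => 18 / 100

/-- the sides of the rings in the round `n` with floors `F` -/
def RingSd (b : Fin (M + 1) → ℤ) (zs : DD (tyW b) ⊕ ZZ (tyW b) → ℂ)
    (y : DD (tyW b) ⊕ ZZ (tyW b) → ℝ) (n : ℕ) (F : Tab) : Prop :=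
  ∀ {h : Fin M} {i j : Fin (M + 1)} {p : Fin 3}, Adj h i p j → clsW b i = .ring →
    clsW b j ≠ .ring → y (.inl (.inl h)) < F p .ring (clsW b j) →
    eRT n (clsW b j) (y (.inl (.inl h))) (ofs (b i) (zs (.inl (.inl h))).im) ≤
      Sw b zs y i p ((zs (.inl (.inl h))).im / wcl b h) +
      shL (clsW b j) .ring (y (.inl (.inl h))) * ofs (b i) ((zs (.inl (.inl h))).im / wcl b h)

/-! ### shifts -/

theorem shO_three (n : ℕ) (p : Fin 3) (x : ℝ) : shO n (k7 p .three) x = shL .one .three x := by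
  unfold shL sh1
  rw [if_pos rfl]
  have : ∀ K : K7, K = .threeA ∨ K = .threeB → shO n K x = Real.pi - 9 / 2 * x := by
    rintro K (rfl | rfl) <;> rcases n with _ | _ | n <;> simp only [shO, cR] <;> push_cast <;> ring
  refine this _ ?_
  unfold k7
  simp only
  split_ifs
  · exact Or.inl rfl
  · exact Or.inr rfl

theorem shO_threeE (n : ℕ) (p : Fin 3) (x : ℝ) : shO n (k7 p .threeE) x = shL .one .threeE x := by
  unfold shL sh1
  rw [if_pos rfl]
  rcases n with _ | _ | n <;> simp only [k7, shO, cR] <;> push_cast <;> ring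

theorem shO_ring (n : ℕ) (p : Fin 3) (x : ℝ) : shO n (k7 p .ring) x = shL .one .ring x := by
  unfold shL sh1
  rw [if_pos rfl]
  rcases n with _ | _ | n <;> simp only [k7, shO, cR] <;> push_cast <;> ring

/-! ### steps at the hinges of the regions with at least three crossings -/

private theorem e02 : ((0 : Fin 3) = 2) ↔ False := by decide

private theorem e20 : ((2 : Fin 3) = 0) ↔ False := by decide

theorem p_rev (A : Adj h i p j) : (p = 2 ∧ p.rev = 0) ∨ (p = 0 ∧ p.rev = 2) := by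
  cases A
  · exact Or.inl ⟨rfl, rfl⟩
  · exact Or.inr ⟨rfl, rfl⟩

/-- own side of a digit `1` in the round `n` -/
def OneSd (b : Fin (M + 1) → ℤ) (zs : DD (tyW b) ⊕ ZZ (tyW b) → ℂ)
    (y : DD (tyW b) ⊕ ZZ (tyW b) → ℝ) (n : ℕ) (h : Fin M) (i : Fin (M + 1)) (p : Fin 3)
    (j : Fin (M + 1)) : Prop :=
  (eO n (k7 p (clsW b j)) : ℝ) / 1000 ≤ Sw b zs y i p ((zs (.inl (.inl h))).im / wcl b h) +
    shO n (k7 p (clsW b j)) (y (.inl (.inl h))) *
      ofs (b i) ((zs (.inl (.inl h))).im / wcl b h)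

/-- own side of a digit `2` in the round `n` -/
def TwoSd (b : Fin (M + 1) → ℤ) (zs : DD (tyW b) ⊕ ZZ (tyW b) → ℂ)
    (y : DD (tyW b) ⊕ ZZ (tyW b) → ℝ) (n : ℕ) (h : Fin M) (i : Fin (M + 1)) (p : Fin 3) : Prop :=
  (if n = 0 then 1 / 10 else 2 / 10 : ℝ) ≤
    Sw b zs y i p ((zs (.inl (.inl h))).im / wcl b h) +
      Real.pi / 2 * ofs (b i) ((zs (.inl (.inl h))).im / wcl b h)

/-- **A step next to an interior region with three crossings.** -/
theorem step_three (hb : ClassW b) (hL : Loc b zs) (hy : Mx b zs y)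
    (hpos : ∀ h : Fin M, 0 < y (.inl (.inl h))) {n : ℕ} (hn : n ≤ 2) {F : Tab} (hF : TSym F)
    (hFw : ∀ h : Fin M, F 2 (clsW b h.castSucc) (clsW b h.succ) ≤ wcl b h)
    (S3 : ThreeSd b zs y n F) (A : Adj h i p j) (hr : rkC (clsW b i) ≤ rkC (clsW b j))
    (hj : clsW b j = .three) (hx : y (.inl (.inl h)) < F p (clsW b i) (clsW b j))
    (hv : n = 2 → clsW b i = .one → p = 2 → F p .one .three ≤ y (.inl (.inl h))) (o1 : clsW b i = .one → OneSd b zs y n h i p j) (o2 : clsW b i = .two → TwoSd b zs y n h i p) :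
    LStep b zs y h ((zs (.inl (.inl h))).im / wcl b h) := by
  have hx' : y (.inl (.inl h)) < F p.rev .three (clsW b i) := by
    have := hx
    rwa [← A.tab_symm hF b, hj] at this
  have hcl : y (.inl (.inl h)) ≤ wcl b h := by
    have := hFw h
    rw [← A.tab hF b] at this
    exact (hx.trans_le this).le
  have s3 := S3 A.symm hj hx'
  rcases hi : clsW b i with _ | _ | _ | _ | _ | _
  · -- `1`
    have s1 := o1 hi
    unfold OneSd at s1
    rw [hj, shO_three] at s1
    rw [hi, shL_comm] at s3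
    have hn2 : n = 2 → p ≠ 2 := by
      intro h1 h2
      have := hv h1 hi h2
      rw [hi, hj] at hx
      linarith only [hx, this]
    refine LStep.opp A hb (by rw [hi]; decide) ?_ s1 s3.le
    rcases p_rev A with ⟨rfl, h2⟩ | ⟨rfl, h2⟩ <;> rw [h2] <;> interval_cases n <;>
      first
      | exact absurd rfl (hn2 rfl)
      | norm_num [e3T, k7, eO, e02, e20]
  · -- `2`
    have s1 := o2 hi
    unfold TwoSd at s1
    rw [hi, shL_of_ne (by decide) (by decide)] at s3
    refine (LStep.opp A hb (by rw [hi]; decide) ?_ s1 le_rfl)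
    refine lt_of_le_of_lt ?_ (add_lt_add_of_le_of_lt le_rfl s3)
    rcases p_rev A with ⟨rfl, h2⟩ | ⟨rfl, h2⟩ <;> rw [h2] <;> interval_cases n <;>
      norm_num [e3T, e02, e20]
  · -- `2` at an end
    have s1 := A.twoE_L hb hL hy hpos hi (by rw [hj]; decide) hcl
    rw [hj] at s1
    rw [hi, shL_of_ne (by decide) (by decide)] at s3
    refine (LStep.opp A hb (by rw [hi]; decide) ?_ s1 le_rfl)
    refine lt_of_le_of_lt ?_ (add_lt_add_of_le_of_lt le_rfl s3)
    rcases p_rev A with ⟨rfl, h2⟩ | ⟨rfl, h2⟩ <;> rw [h2] <;>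
      norm_num [e3T, k7, eE2, e02, e20]
  · -- `3`
    have hx'' := hx
    rw [hi, hj] at hx''
    have s1 := S3 A hi (by rw [hj]; exact hx'')
    rw [hj, shL_of_ne (by decide) (by decide)] at s1
    rw [hi, shL_of_ne (by decide) (by decide)] at s3
    refine (LStep.opp A hb (c := Real.pi / 2) (by rw [hi]; decide) ?_ le_rfl le_rfl)
    refine lt_of_le_of_lt ?_ (add_lt_add s1 s3)
    rcases p_rev A with ⟨rfl, h2⟩ | ⟨rfl, h2⟩ <;> rw [h2] <;> norm_num [e3T, e02, e20]
  all_goals
    rw [hi, hj] at hr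
    exact absurd hr (by decide)

/-- **A step next to an end with three crossings.** -/
theorem step_threeE (hb : ClassW b) (hL : Loc b zs) (hC : Crit b zs) (hy : Mx b zs y)
    (hpos : ∀ h : Fin M, 0 < y (.inl (.inl h))) {n : ℕ} (hn : n ≤ 2) {F : Tab} (hF : TSym F)
    (hFw : ∀ h : Fin M, F 2 (clsW b h.castSucc) (clsW b h.succ) ≤ wcl b h)
    (hF0 : n = 0 → ∀ p, F p .one .threeE ≤ 7 / 100)
    (S3 : ThreeSd b zs y n F) (A : Adj h i p j) (hr : rkC (clsW b i) ≤ rkC (clsW b j))
    (hj : clsW b j = .threeE) (hx : y (.inl (.inl h)) < F p (clsW b i) (clsW b j))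
    (o1 : clsW b i = .one → OneSd b zs y n h i p j) (o2 : clsW b i = .two → TwoSd b zs y n h i p) :
    LStep b zs y h ((zs (.inl (.inl h))).im / wcl b h) := by
  have hcl : y (.inl (.inl h)) ≤ wcl b h := by
    have := hFw h
    rw [← A.tab hF b] at this
    exact (hx.trans_le this).le
  have s3 := threeE_L hb hL hC hy hpos A.symm hj hcl
  rw [hj] at s3
  rcases hi : clsW b i with _ | _ | _ | _ | _ | _
  · -- `1`
    have s1 := o1 hi
    unfold OneSd at s1
    rw [hj, shO_threeE] at s1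
    rw [hi, shL_comm] at s3
    rcases Nat.eq_zero_or_pos n with h0 | h0
    · have hx7 : y (.inl (.inl h)) ≤ 7 / 100 := by
        have := hx
        rw [hi, hj] at this
        exact (this.trans_le (hF0 h0 p)).le
      have s4 := threeE_L0 hb hL hC hy hpos A.symm hj hi hx7
      rw [hj, hi, shL_comm] at s4
      refine LStep.opp A hb (by rw [hi]; decide) ?_ s1 s4.le
      subst h0
      unfold k7
      simp only [eO]
      norm_num
    · refine LStep.opp A hb (by rw [hi]; decide) ?_ s1 s3.le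
      unfold b3E k7
      interval_cases n <;> simp only [eO] <;> norm_num
  · -- `2`
    have s1 := o2 hi
    unfold TwoSd at s1
    rw [hi, shL_of_ne (by decide) (by decide)] at s3
    refine LStep.opp A hb (by rw [hi]; decide) ?_ s1 s3.le
    unfold b3E
    split_ifs <;> norm_num
  · -- `2` at an end
    have s1 := A.twoE_L hb hL hy hpos hi (by rw [hj]; decide) hcl
    rw [hj] at s1
    rw [hi, shL_of_ne (by decide) (by decide)] at s3
    refine LStep.opp A hb (by rw [hi]; decide) ?_ s1 s3.le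
    unfold b3E k7
    simp only [eE2]
    norm_num
  · -- `3`
    have hx'' := hx
    rw [hi, hj] at hx''
    have s1 := S3 A hi (by rw [hj]; exact hx'')
    rw [hj, shL_of_ne (by decide) (by decide)] at s1
    rw [hi, shL_of_ne (by decide) (by decide)] at s3
    refine (LStep.opp A hb (c := Real.pi / 2) (by rw [hi]; decide) ?_ le_rfl le_rfl)
    refine lt_of_le_of_lt ?_ (add_lt_add s1 s3)
    rcases p_rev A with ⟨rfl, h2⟩ | ⟨rfl, h2⟩ <;> rw [h2] <;> norm_num [e3T, b3E, e02, e20]
  · -- `3` at an end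
    have s1 := threeE_L hb hL hC hy hpos A hi hcl
    rw [hi, hj, shL_of_ne (by decide) (by decide)] at s1
    rw [hi, shL_of_ne (by decide) (by decide)] at s3
    refine LStep.opp A hb (by rw [hi]; decide) ?_ s1.le s3.le
    unfold b3E
    norm_num
  · rw [hi, hj] at hr
    exact absurd hr (by decide)

theorem eRT_one {n : ℕ} (hn : n ≤ 2) {p : Fin 3} {x T : ℝ} (h0 : 0 < x)
    (hx : x < if n = 0 then 7 / 100 else if n = 1 then 12 / 100 else 145 / 1000) :
    0 < (eO n (k7 p .ring) : ℝ) / 1000 + eRT n .one x T := by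
  unfold eRT k7 LR.eL0 LR.eC
  simp only
  interval_cases n
  · norm_num [eO] at hx ⊢
    split_ifs
    · rw [← sub_lt_iff_lt_add', lt_min_iff]
      constructor <;> linarith only [h0, hx]
    · linarith only [h0, hx]
  · norm_num [eO] at hx ⊢
    split_ifs
    · rw [← sub_lt_iff_lt_add', lt_min_iff]
      constructor <;> linarith only [h0, hx]
    · linarith only [h0, hx]
  · norm_num [eO] at hx ⊢
    split_ifs
    · rw [← sub_lt_iff_lt_add', lt_min_iff]
      constructor <;> linarith only [h0, hx]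
    · rw [← sub_lt_iff_lt_add', lt_min_iff]
      constructor <;> linarith only [h0, hx]

/-- **A step next to a ring.** -/
theorem step_ring (hb : ClassW b) (hL : Loc b zs) (hC : Crit b zs) (hy : Mx b zs y)
    (hpos : ∀ h : Fin M, 0 < y (.inl (.inl h))) {n : ℕ} (hn : n ≤ 2) {F : Tab} (hF : TSym F)
    (hFw : ∀ h : Fin M, F 2 (clsW b h.castSucc) (clsW b h.succ) ≤ wcl b h)
    (hF0 : ∀ p, F p .one .ring ≤ if n = 0 then 7 / 100 else if n = 1 then 12 / 100 else 145 / 1000)
    (hFR : ∀ p, F p .ring .ring ≤ 10 / 100)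
    (hZZ : ∀ {h : Fin M} {i j : Fin (M + 1)} {p : Fin 3}, Adj h i p j → clsW b i = .ring →
      clsW b j = .ring → 10 / 100 ≤ y (.inl (.inl h)))
    (S3 : ThreeSd b zs y n F) (SR : RingSd b zs y n F) (A : Adj h i p j)
    (hj : clsW b j = .ring) (hx : y (.inl (.inl h)) < F p (clsW b i) (clsW b j))
    (o1 : clsW b i = .one → OneSd b zs y n h i p j) (o2 : clsW b i = .two → TwoSd b zs y n h i p) :
    LStep b zs y h ((zs (.inl (.inl h))).im / wcl b h) := by
  have hcl : y (.inl (.inl h)) ≤ wcl b h := by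
    have := hFw h
    rw [← A.tab hF b] at this
    exact (hx.trans_le this).le
  have hx' : y (.inl (.inl h)) < F p.rev .ring (clsW b i) := by
    have := hx
    rwa [← A.tab_symm hF b, hj] at this
  by_cases hir : clsW b i = .ring
  · exfalso
    rw [hir, hj] at hx
    linarith [hFR p, hZZ A hir hj]
  have s3 := SR A.symm hj hir hx'
  rcases hi : clsW b i with _ | _ | _ | _ | _ | _
  · -- `1`
    have s1 := o1 hi
    unfold OneSd at s1
    rw [hj, shO_ring] at s1
    rw [hi] at s3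
    refine LStep.opp A hb (by rw [hi]; decide) ?_ s1 s3
    have h0 := hF0 p
    rw [hi, hj] at hx
    exact eRT_one hn (hpos h) (hx.trans_le h0)
  · -- `2`
    have s1 := o2 hi
    unfold TwoSd at s1
    rw [hi, shL_of_ne (by decide) (by decide)] at s3
    refine LStep.opp A hb (by rw [hi]; decide) ?_ s1 s3
    unfold eRT
    split_ifs <;> norm_num
  · -- `2` at an end
    have s1 := A.twoE_L hb hL hy hpos hi (by rw [hj]; decide) hcl
    rw [hj] at s1
    rw [hi, shL_of_ne (by decide) (by decide)] at s3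
    refine LStep.opp A hb (by rw [hi]; decide) ?_ s1 s3
    unfold eRT k7
    simp only [eE2]
    norm_num
  · -- `3`
    have hx'' := hx
    rw [hi, hj] at hx''
    have s1 := S3 A hi (by rw [hj]; exact hx'')
    rw [hj, shL_of_ne (by decide) (by decide)] at s1
    rw [hi, shL_of_ne (by decide) (by decide)] at s3
    refine (LStep.opp A hb (by rw [hi]; decide) ?_ le_rfl s3)
    refine lt_of_le_of_lt ?_ (add_lt_add_of_lt_of_le s1 le_rfl)
    rcases p_rev A with ⟨rfl, -⟩ | ⟨rfl, -⟩ <;> interval_cases n <;>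
      norm_num [e3T, eRT, e02, e20]
  · -- `3` at an end
    have s1 := threeE_L hb hL hC hy hpos A hi hcl
    rw [hi, hj, shL_of_ne (by decide) (by decide)] at s1
    rw [hi, shL_of_ne (by decide) (by decide)] at s3
    refine LStep.opp A hb (by rw [hi]; decide) ?_ s1.le s3
    unfold b3E eRT
    norm_num
  · exact absurd hi hir

/-! ### the sides of the rings -/

theorem shL_ring (x : ℝ) : shL .one .ring x = Real.pi - 6 * x := by
  unfold shL sh1
  rw [if_pos rfl]

/-- the side of a ring in the first rounds -/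
theorem ringSd_lo (hb : ClassW b) (H : LocA b zs) (hy : Mx b zs y)
    (hpos : ∀ h : Fin M, 0 < y (.inl (.inl h))) {n : ℕ} (hn : n ≤ 1) {F : Tab}
    (hF : TSym F) (hFw : ∀ h : Fin M, F 2 (clsW b h.castSucc) (clsW b h.succ) ≤ wcl b h)
    (hF1 : ∀ p, F p .ring .one ≤ 12 / 100)
    (hF2 : ∀ p B, B ≠ .one → B ≠ .ring → F p .ring B ≤ 125 / 1000) : RingSd b zs y n F := by
  intro h i j p A hc hj hx
  by_cases hj1 : clsW b j = .one
  · rw [hj1] at hx ⊢
    rw [shL_ring]
    have := A.ring_L_one hb H.L H.X H.R hy hc hj1 (hpos h) (hx.le.trans (hF1 p))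
    unfold eRT
    rw [if_pos hn]
    exact this
  · have hcl : y (.inl (.inl h)) ≤ wcl b h := by
      have := hFw h
      rw [← A.tab hF b, hc] at this
      exact (hx.trans_le this).le
    rw [shL_of_ne hj1 (by decide)]
    have := A.ring_L_lo hb H.L H.X H.R hy hc hj1 hj (hpos h) hcl (hx.le.trans (hF2 p _ hj1 hj))
    rcases hj3 : clsW b j with _ | _ | _ | _ | _ | _ <;>
      first | exact absurd hj3 hj1 | exact absurd hj3 hj | exact this

/-- the side of a ring in the round `L2` -/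
theorem ringSd_hi (hb : ClassW b) (H : LocA b zs) (hy : Mx b zs y)
    (hpos : ∀ h : Fin M, 0 < y (.inl (.inl h)))
    (hC : ∀ {h : Fin M} {i j : Fin (M + 1)} {p : Fin 3}, Adj h i p j → clsW b i = .ring →
      y (.inl (.inl h)) ≤ 36 / 100) : RingSd b zs y 2 F2 := by
  intro h i j p A hc hj hx
  by_cases hj1 : clsW b j = .one
  · rw [hj1] at hx ⊢
    rw [shL_ring]
    have := A.ring_LC_one hb H.L H.X H.R hy hc hj1 (hpos h) (by simp only [F2] at hx; linarith only [hx])
      (fun A' => hC A' hc)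
    unfold eRT
    rw [if_neg (by norm_num)]
    exact this
  · have hcl : y (.inl (.inl h)) ≤ wcl b h := by
      have := F2_wcl (b := b) h
      rw [← A.tab F2_sym b, hc] at this
      exact (hx.trans_le this).le
    rw [shL_of_ne hj1 (by decide)]
    have := A.ring_LC_lo hb H.L H.X H.R hy hc hj1 hj (hpos h) hcl
      (fun A' => (hC A' hc).trans (by norm_num))
    refine le_trans ?_ this
    rcases hj3 : clsW b j with _ | _ | _ | _ | _ | _
    · exact absurd hj3 hj1
    all_goals norm_num [eRT]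

/-! ### the rounds -/

/-- the classes larger than the digits `1`, `2` -/
theorem Cl.cases_big (A : Cl) : A.small ∨ A = .three ∨ A = .threeE ∨ A = .ring := by
  cases A <;> simp [Cl.small]

/-- **The round `L0`.** -/
theorem left_0 (hb : ClassW b) (H : LocA b zs) (hy : Mx b zs y)
    (hpos : ∀ h : Fin M, 0 < y (.inl (.inl h))) (S3 : ThreeSd b zs y 0 F0) : Flr b y F0 := by
  have hZZ : ∀ {h : Fin M} {i j : Fin (M + 1)} {p : Fin 3}, Adj h i p j → clsW b i = .ring →
      clsW b j = .ring → 10 / 100 ≤ y (.inl (.inl h)) := by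
    intro h i j p A hc hj
    have := rr_floor hb H.L H.X H.R hy hpos A hc hj
    linarith only [this]
  have SR : RingSd b zs y 0 F0 := by
    refine ringSd_lo hb H hy hpos (by norm_num) F0_sym (fun h => F0_wcl h) ?_ ?_
    · intro p
      norm_num [F0]
    · intro p B h1 h2
      cases B <;> first | exact absurd rfl h1 | exact absurd rfl h2 | norm_num [F0]
  intro _ _ _ _ A0
  refine left_round hb hy hpos F0_sym F0_pos (fun h => F0_wcl h) ?_ A0
  clear A0
  intro h i j p A hr hx ho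
  have o1 : clsW b i = .one → OneSd b zs y 0 h i p j := by
    intro hi
    obtain ⟨h1, j1, A1⟩ := A.other_one hb hi
    exact A.one_L0 A1 hb H.X hy hpos hi hx (ho A1)
  have o2 : clsW b j ≠ .one → clsW b i = .two → TwoSd b zs y 0 h i p := by
    intro hj hi
    obtain ⟨h1, j1, A1⟩ := A.other' b (clsW_inner hb (Or.inr (Or.inl hi)))
    have := A.two_L0 A1 hb H.L hy hpos hi hj (by
      rw [hi, F0_two p hj] at hx
      exact hx.le)
    unfold TwoSd
    rw [if_pos rfl]
    exact this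
  rcases (clsW b j).cases_big with hj | hj | hj | hj
  · exact step_L0 hb H.L H.X hy hpos A hr hj hx ho
  · exact step_three hb H.L hy hpos (by norm_num) F0_sym (fun h => F0_wcl h) S3 A hr hj hx
      (fun h0 => absurd h0 (by norm_num)) o1 (o2 (by rw [hj]; decide))
  · refine step_threeE hb H.L H.C hy hpos (by norm_num) F0_sym (fun h => F0_wcl h) ?_ S3 A hr hj hx
      o1 (o2 (by rw [hj]; decide))
    intro _ p
    simp only [F0]
    norm_num
  · refine step_ring hb H.L H.C hy hpos (by norm_num) F0_sym (fun h => F0_wcl h) ?_ ?_ hZZ S3 SR A hj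
      hx o1 (o2 (by rw [hj]; decide))
    · intro p
      simp only [F0, if_true]
      norm_num
    · intro p
      simp only [F0]
      norm_num

/-- **The round `L1`.** -/
theorem left_1 (hb : ClassW b) (H : LocA b zs) (hy : Mx b zs y)
    (hpos : ∀ h : Fin M, 0 < y (.inl (.inl h))) (hF : Flr b y F0) (hC : Cap b y C1)
    (S3 : ThreeSd b zs y 1 F1) : Flr b y F1 := by
  have hZZ : ∀ {h : Fin M} {i j : Fin (M + 1)} {p : Fin 3}, Adj h i p j → clsW b i = .ring →
      clsW b j = .ring → 10 / 100 ≤ y (.inl (.inl h)) := by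
    intro h i j p A hc hj
    have := rr_floor hb H.L H.X H.R hy hpos A hc hj
    linarith only [this]
  have SR : RingSd b zs y 1 F1 := by
    refine ringSd_lo hb H hy hpos le_rfl F1_sym (fun h => F1_wcl h) ?_ ?_
    · intro p
      norm_num [F1]
    · intro p B h1 h2
      cases B <;> first | exact absurd rfl h1 | exact absurd rfl h2 | (simp only [F1]; try split_ifs) <;> norm_num
  intro _ _ _ _ A0
  refine left_round hb hy hpos F1_sym F1_pos (fun h => F1_wcl h) ?_ A0
  clear A0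
  intro h i j p A hr hx ho
  have hcl : y (.inl (.inl h)) ≤ wcl b h := by
    have := F1_wcl (b := b) h
    rw [← A.tab F1_sym b] at this
    exact (hx.trans_le this).le
  have o1 : clsW b i = .one → OneSd b zs y 1 h i p j := by
    intro hi
    obtain ⟨h1, j1, A1⟩ := A.other_one hb hi
    have c1 := hC A1
    rw [hi] at c1
    exact A.one_L1 A1 hb H.X hy hpos hF hi (c1.trans (C1_one _ _ _)) hx (ho A1)
  have two_y : ∀ {h' : Fin M} {i j' : Fin (M + 1)} {q : Fin 3}, Adj h' i q j' → clsW b i = .two →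
      70 / 1000 ≤ y (.inl (.inl h')) ∧ y (.inl (.inl h')) ≤ 56 / 100 := by
    intro h' i j' q A' hi
    have g1 := hF A'
    have g2 := hC A'
    rw [hi] at g1 g2
    rw [C1_two] at g2
    refine ⟨le_trans ?_ g1, g2⟩
    cases clsW b j' <;> simp only [F0] <;> norm_num
  have o2 : clsW b j ≠ .one → clsW b i = .two → TwoSd b zs y 1 h i p := by
    intro hj hi
    obtain ⟨h1, j1, A1⟩ := A.other' b (clsW_inner hb (Or.inr (Or.inl hi)))
    have := A.two_L1 A1 hb H.L hy hpos hi hj (two_y A hi).1 hcl (two_y A1 hi).1 (two_y A1 hi).2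
    unfold TwoSd
    rw [if_neg (by norm_num)]
    exact this
  rcases (clsW b j).cases_big with hj | hj | hj | hj
  · exact step_L1 hb H.L H.X hy hpos hF hC A hr hj hx ho
  · exact step_three hb H.L hy hpos (by norm_num) F1_sym (fun h => F1_wcl h) S3 A hr hj hx
      (fun h0 => absurd h0 (by norm_num)) o1 (o2 (by rw [hj]; decide))
  · exact step_threeE hb H.L H.C hy hpos (by norm_num) F1_sym (fun h => F1_wcl h)
      (fun h0 => absurd h0 (by norm_num)) S3 A hr hj hx o1 (o2 (by rw [hj]; decide))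
  · refine step_ring hb H.L H.C hy hpos (by norm_num) F1_sym (fun h => F1_wcl h) ?_ ?_ hZZ S3 SR A hj
      hx o1 (o2 (by rw [hj]; decide))
    · intro p
      simp only [F1]
      norm_num
    · intro p
      simp only [F1]
      norm_num

/-- **The round `L2`.** -/
theorem left_2 (hb : ClassW b) (H : LocA b zs) (hy : Mx b zs y)
    (hpos : ∀ h : Fin M, 0 < y (.inl (.inl h))) (hF : Flr b y F1) (hC : Cap b y C2)
    (hR : ∀ {h : Fin M} {i j : Fin (M + 1)} {p : Fin 3}, Adj h i p j → clsW b i = .ring →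
      y (.inl (.inl h)) ≤ 36 / 100)
    (S3 : ThreeSd b zs y 2 F2) : Flr b y F2 := by
  have SR : RingSd b zs y 2 F2 := ringSd_hi hb H hy hpos hR
  intro _ _ _ _ A0
  refine left_round hb hy hpos F2_sym F2_pos (fun h => F2_wcl h) ?_ A0
  clear A0
  intro h i j p A hr hx ho
  have hcl : y (.inl (.inl h)) ≤ wcl b h := by
    have := F2_wcl (b := b) h
    rw [← A.tab F2_sym b] at this
    exact (hx.trans_le this).le
  have o1 : clsW b i = .one → OneSd b zs y 2 h i p j := by
    intro hi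
    obtain ⟨h1, j1, A1⟩ := A.other_one hb hi
    have c1 := hC A1
    rw [hi] at c1
    exact A.one_L2 A1 hb H.X hy hpos hF hi (c1.trans (C2_one _ _ _)) hx (ho A1)
  have two_y : ∀ {h' : Fin M} {i j' : Fin (M + 1)} {q : Fin 3}, Adj h' i q j' → clsW b i = .two →
      70 / 1000 ≤ y (.inl (.inl h')) ∧ y (.inl (.inl h')) ≤ 56 / 100 := by
    intro h' i j' q A' hi
    have g1 := hF A'
    have g2 := hC A'
    rw [hi] at g1 g2
    rw [C2_two] at g2
    refine ⟨le_trans ?_ g1, g2⟩
    cases clsW b j' <;> simp only [F1] <;> (try split_ifs) <;> norm_num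
  have o2 : clsW b j ≠ .one → clsW b i = .two → TwoSd b zs y 2 h i p := by
    intro hj hi
    obtain ⟨h1, j1, A1⟩ := A.other' b (clsW_inner hb (Or.inr (Or.inl hi)))
    have := A.two_L1 A1 hb H.L hy hpos hi hj (two_y A hi).1 hcl (two_y A1 hi).1 (two_y A1 hi).2
    unfold TwoSd
    rw [if_neg (by norm_num)]
    exact this
  rcases (clsW b j).cases_big with hj | hj | hj | hj
  · exact step_L2 hb H.L H.X hy hpos hF hC A hr hj hx ho
  · refine step_three hb H.L hy hpos (by norm_num) F2_sym (fun h => F2_wcl h) S3 A hr hj hx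
      ?_ o1 (o2 (by rw [hj]; decide))
    intro _ hi hp
    have := hF A
    rw [hi, hj, hp] at this
    rw [hp]
    simpa only [F1, F2, e20, if_false] using this
  · exact step_threeE hb H.L H.C hy hpos (by norm_num) F2_sym (fun h => F2_wcl h)
      (fun h0 => absurd h0 (by norm_num)) S3 A hr hj hx o1 (o2 (by rw [hj]; decide))
  · refine step_ring hb H.L H.C hy hpos (by norm_num) F2_sym (fun h => F2_wcl h) ?_ ?_ ?_ S3 SR A hj
      hx o1 (o2 (by rw [hj]; decide))
    · intro p
      simp only [F2]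
      norm_num
    · intro p
      simp only [F2]
      norm_num
    · intro h i j p A hi hj
      have := hF A
      rw [hi, hj] at this
      simp only [F1] at this
      linarith only [this]

end SR

end Pool.Agent.Work.MP_b30479_gtS.G2

end

section

/-!
# The side of a ring at a hinge `1 | ring` in the round `L3`
-/

namespace Pool.Agent.Work.MP_b30479_gtS.G2

open Finset VOL Filter Topology

/-- **Left ramp of a hinge next to a digit `1`**, `145/1000 ≤ x ≤ 16/100`, shift `π - 4 x`; the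
other hinge is `≤ 1/2` -/
theorem RPl.oneC4 {b ρ σ x m : ℝ} {w w' : ℂ} (P : RPl b ρ w w' σ) (hb : 4 ≤ b)
    (hc : RCap b ρ) (hbρ : b ^ 2 * ρ ≤ 23 / 10)
    (hfl : -(1 / 4) ≤ σ → -(2 * Real.pi * b * ρ) + Dm 0 w (LT.zt ρ σ) ≤ 0)
    (hσ : σ ≤ 0) (hw : LR.W x m w) (hm : m ≤ -(2375 / 10000)) (hm' : -(9875 / 10000) ≤ m)
    (hm4 : b < 5 → -(8 / 10) ≤ m) (hx0 : 145 / 1000 ≤ x) (hx : x ≤ 16 / 100)
    (hx' : w'.re ≤ 1 / 2) :
    -(22 / 100) ≤ S4 m w (LT.zt ρ σ) + (Real.pi - 4 * x) * m := by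
  cases P with
  | flat h =>
    have h4 : -(1 / 4) ≤ σ := by
      have := h.lo
      rwa [zt_re] at this
    have e : (LT.zt ρ σ).im = ρ := by
      rw [zt_im, th_of_le (by rw [abs_of_nonpos hσ]; linarith only [h4]), mul_one]
    exact LR.one_flatC4 (b := b) hw h hm hm' hx0 hx (by rw [e]; exact hbρ)
      (by rw [e]; exact hfl h4)
  | pos s e h hs hF =>
    have hFP := FP_of h.pos (by linarith only [h, h.lo]) h.hi hF
    rcases lt_or_ge b 5 with h5 | h5
    · have := LR.one_P4c hw h hc.1 hm (hm4 h5) hx0 hx (LR.FP_mono h hb hFP)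
      linarith only [this]
    · have := LR.one_P5c hw h (hc.2.1 h5) hm hm' hx0 hx (LR.FP_mono h h5 hFP)
      linarith only [this]
  | far s e h hF hxx => exact absurd hx' (not_le.2 hxx)
  | tiny s e h0 h1 hF hxx => exact absurd hx' (not_le.2 hxx)

namespace SR

variable {M : ℕ} {b : Fin (M + 1) → ℤ} {zs : DD (tyW b) ⊕ ZZ (tyW b) → ℂ}
variable {y : DD (tyW b) ⊕ ZZ (tyW b) → ℝ}
variable {h h' : Fin M} {i j j' : Fin (M + 1)} {p : Fin 3}

/-- **The side of a ring at a hinge `1 | ring` in the round `L3`.** -/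
theorem Adj.ring_L3_one (A : Adj h i p j) (hb : ClassW b) (hL : Loc b zs) (hX : LocX b zs)
    (hR : LocR b zs) (hy : Mx b zs y) (hc : clsW b i = .ring) (hj : clsW b j = .one)
    (hx0 : 145 / 1000 ≤ y (.inl (.inl h))) (hx : y (.inl (.inl h)) ≤ 16 / 100)
    (H : ∀ {h' j'}, Adj h' i p.rev j' → y (.inl (.inl h')) ≤ 36 / 100) :
    -(22 / 100) ≤ Sw b zs y i p ((zs (.inl (.inl h))).im / wcl b h) +
        (Real.pi - 4 * y (.inl (.inl h))) * ofs (b i) ((zs (.inl (.inl h))).im / wcl b h) := by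
  obtain ⟨ρ, σ, k', P, Q, -⟩ := A.rpl hb hL hX hR hy hc (by linarith only [hx])
  obtain ⟨-, e2, -⟩ := A.par_ring_one hc hj
  have h0 : 0 < y (.inl (.inl h)) := by linarith only [hx0]
  have hw := A.lw hy h0 (by rw [e2]; exact hx)
  obtain ⟨t1, t2, t3⟩ := A.t_one hb hL hX hc hj
  have hH := A.other_le (zs := zs) (by norm_num) H
  rw [A.side_ring hb hc, P.z]
  have hbρ : ((b i).natAbs : ℝ) ^ 2 * ρ ≤ 23 / 10 := by
    obtain ⟨c4, c5, c6, c7, c8⟩ := P.cap
    have h4 := ring_four hb (tyW_of_ring hb hc)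
    have hρ := P.rm.ρ0
    rcases (show (b i).natAbs = 4 ∨ (b i).natAbs = 5 ∨ (b i).natAbs = 6 ∨ (b i).natAbs = 7 ∨
      8 ≤ (b i).natAbs by omega) with h5 | h5 | h5 | h5 | h5
    · rw [h5]
      norm_num
      linarith only [c4, hρ]
    · rw [h5] at c5 ⊢
      have := c5 (by norm_num)
      norm_num
      linarith only [hρ, this]
    · rw [h5] at c6 ⊢
      have := c6 (by norm_num)
      norm_num
      linarith only [hρ, this]
    · rw [h5] at c7 ⊢
      have := c7 (by norm_num)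
      norm_num
      linarith only [hρ, this]
    · exact c8 (by exact_mod_cast h5)
  have hfl : -(1 / 4) ≤ σ → -(2 * Real.pi * ((b i).natAbs : ℝ) * ρ) + Dm 0 (Yw b zs y i p) (LT.zt ρ σ) ≤ 0 := by
    intro h5
    exact P.rm.flat_le P.cap P.ok' P.ok.re_nonneg (by rw [A.re]; exact hx) (by
      rw [hw.im, ofs_div, e2]
      exact mul_nonpos_of_nonpos_of_nonneg (div_nonpos_of_nonpos_of_nonneg (by linarith only [hx, h0, t2]) (by norm_num))
        h0.le) hH h5 P.le
  rw [ofs_div, e2] at hw ⊢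
  exact Q.oneC4 P.rm.b4 P.cap hbρ hfl P.le hw (by rw [div_le_iff₀ (by norm_num)]; linarith only [t2])
    (by rw [le_div_iff₀ (by norm_num)]; linarith only [t1])
    (fun h5 => by rw [le_div_iff₀ (by norm_num)]; linarith only [t3, h5, t3 h5]) hx0 hx (by linarith only [hH])

end SR

end Pool.Agent.Work.MP_b30479_gtS.G2

end
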