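import Pool.Agent.Work.MP_b30479_gt.TBS.G2.ML3r
import Pool.Agent.Work.MP_b30479_gt.TBS.NumU.Tree

section

/-!
# Part of `ML3u`
-/
set_option deprecated.oldSectionVars true

namespace Pool.Agent.Work.MP_b30479_gtS.G2

open Finset VOL Filter Topology

namespace L3

open NumIs (V lkR)
open NumUs NumUs.E

set_option linter.unusedTactic false

theorem d1_one_A_h2_q4 : Pool.Agent.Work.NumUs.runT (altI (q 3 10) (var 3) (gU (q 3 10) (var 3)) (fe 37 400 3606 7534 751 104344 (var 1)) (-110) 1010 9500) 26
    97477629871313180954833020650719245342497402069016240293988391196175349764407443463433168207166542169474875501120313988769144343231429337712159189844340522947243151741245622703180479348893619778835283213775082177586797952257264207720322235254744143375915370833074520076803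
    (Pool.Agent.Work.NumIs.setR 2 (Pool.Agent.Work.NumIs.setL 2 ([V.of 10000 3500 3900 4, V.of 10000 100 580 4, V.of 10000 1500 6000 4, V.of 10000 (-610) 650 4]))) =
    499605286205110756303333228334238539643740678559285323870733729957108006489437773391320780952973040762963430728664989706318512691 := by
  decide +kernel

theorem d1_one_A_h2_q5 : Pool.Agent.Work.NumUs.runT (altI (q 3 10) (var 3) (gU (q 3 10) (var 3)) (fe 37 400 3606 7534 751 104344 (var 1)) (-110) 1010 9500) 27
    499605286205110756303333228334238539643740678559285323870733729957108006489437773391320780952973040762963430728664989706318512690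
    (Pool.Agent.Work.NumIs.setR 2 ([V.of 10000 3500 3900 4, V.of 10000 100 580 4, V.of 10000 1500 6000 4, V.of 10000 (-610) 650 4])) =
    1 := by
  decide +kernel

theorem d1_one_B_h2_q1 : Pool.Agent.Work.NumUs.runT (altI (q 3 10) (var 3) (gU (q 3 10) (var 3)) (fe 45 400 9516 7121 10921 163227 (var 1)) (-110) 1010 9500) 27
    105242629999024596746163706171290631453538248264373967901015518842246751120853639250686792234995023311971329992916215824696722697237997252498851387175864160762560420400002775451136785992133595953861193269393094801905281973088250981408717767667270939502677853507365077863263428195093213180942811603660132777030683157293301092847110594845629068770037624111018130465330998689552703366877778726412162085759435316713139870001067170472163244345934192933471388418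
    (Pool.Agent.Work.NumIs.setL 2 ([V.of 10000 3900 5000 4, V.of 10000 100 580 4, V.of 10000 1500 5600 4, V.of 10000 (-610) 650 4])) =
    142927627448349245126000742794692602866879522604389706840952484693965585078897104835399895419058802564491596985612814054903538601173359878418947 := by
  decide +kernel

theorem d1_one_B_h2_q2 : Pool.Agent.Work.NumUs.runT (altI (q 3 10) (var 3) (gU (q 3 10) (var 3)) (fe 45 400 9516 7121 10921 163227 (var 1)) (-110) 1010 9500) 27
    142927627448349245126000742794692602866879522604389706840952484693965585078897104835399895419058802564491596985612814054903538601173359878418946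
    (Pool.Agent.Work.NumIs.setR 2 ([V.of 10000 3900 5000 4, V.of 10000 100 580 4, V.of 10000 1500 5600 4, V.of 10000 (-610) 650 4])) =
    1 := by
  decide +kernel

end L3

end Pool.Agent.Work.MP_b30479_gtS.G2

end

section

/-!
# Value moves of a hinge `1 | 3e`: the digit `1`, other neighbour of class `one`
-/

set_option deprecated.oldSectionVars true

namespace Pool.Agent.Work.MP_b30479_gtS.G2

open Finset VOL Filter Topology

namespace L3

open NumIs (V lkR)
open NumUs NumUs.E

set_option linter.unusedTactic false

theorem d1_one_B {a T k K : ℝ} (a0 : 3900 / 10000 ≤ a) (a1 : a ≤ 5000 / 10000)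
    (T0 : 100 / 10000 ≤ T) (T1 : T ≤ 580 / 10000) (K0 : -(610 / 10000) ≤ K)
    (K1 : K ≤ 650 / 10000) (S0 : -(110 / 10000) ≤ T + K) (S1 : T + K ≤ 1010 / 10000)
    (k0 : 7 / 100 ≤ k) (k1 : k ≤ 7000 / 10000) :
    0 < D1 (3 / 10) a T k (K * tr 0 (80 / 100) (15 / 100) (20 / 100) k) +
      fr 45 400 9516 7121 10921 163227 a T := by
  have cv : ((q 3 10) : E).val [a, T, k, K] = 3 / 10 := by
    simp only [E.val]; norm_num
  have fv : (fe 45 400 9516 7121 10921 163227 (var 1)).val [a, T, k, K] = fr 45 400 9516 7121 10921 163227 a T :=
    fe_val (by simp only [E.val, lkR])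
  have p1 : ((q 1 1) : E).val [a, T, k, K] = 1 := by simp only [E.val]; norm_num
  have p2 : ((q (-1) 1) : E).val [a, T, k, K] = -1 := by simp only [E.val]; norm_num
  rcases le_total k (1500 / 10000) with c0 | c0
  · have e : tr 0 (80 / 100) (15 / 100) (20 / 100) k = k / (15 / 100) :=
      tr_a (by norm_num) (by norm_num) (by norm_num) (by linarith only [k0]) (by linarith only [k0, k1, c0])
    have tv : (mul (mul (q 10000 1500) (var 2)) (var 3)).val [a, T, k, K] = K * tr 0 (80 / 100) (15 / 100) (20 / 100) k := by
      rw [e]; simp only [E.val, lkR]; push_cast; ring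
    obtain ⟨y1, y2⟩ := hts (a := a) (T := T) (K := K) (r := tr 0 (80 / 100) (15 / 100) (20 / 100) k) (by linarith only [a0]) (by linarith only [a1])
      (by linarith only [T0]) (by linarith only [T1]) (tr01 _ _ _ _).1
      (tr01 _ _ _ _).2 (by linarith only [K0]) (by linarith only [K1]) (by linarith only [S1])
    have Rr : Row1 (q 3 10) (mul (mul (q 10000 1500) (var 2)) (var 3)) (gU (q 3 10) (mul (mul (q 10000 1500) (var 2)) (var 3)))
      (fe 45 400 9516 7121 10921 163227 (var 1)) a T k K (3 / 10) (K * tr 0 (80 / 100) (15 / 100) (20 / 100) k)
      (fr 45 400 9516 7121 10921 163227 a T) (-110) 1010 :=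
      ⟨cv, tv, fv, gU_le cv tv, by push_cast; linarith only [S0],
        by push_cast; linarith only [S1]⟩
    have hc : chkT (altI (q 3 10) (mul (mul (q 10000 1500) (var 2)) (var 3)) (gU (q 3 10) (mul (mul (q 10000 1500) (var 2)) (var 3))) (fe 45 400 9516 7121 10921 163227 (var 1)) (-110) 1010 9500)
        28 9930295172951149418219627542621870052425386279195158572620692492506908857869968081263221842572645439586825252555260864412013375064318881287184632348711849597393253948851556564038987790869001150512
        [V.of 10000 3900 5000 4, V.of 10000 100 580 4, V.of 10000 700 1500 4, V.of 10000 (-610) 650 4] = true := by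
      decide +kernel
    exact rowI1 Rr hc ⟨by push_cast; linarith only [a0], by push_cast; linarith only [a1]⟩
      ⟨by push_cast; linarith only [T0], by push_cast; linarith only [T1]⟩
      ⟨by push_cast; linarith only [a0, a1, k0, k1, c0], by push_cast; linarith only [a0, a1, k0, k1, c0]⟩
      ⟨by push_cast; linarith only [K0], by push_cast; linarith only [K1]⟩ (by push_cast; linarith only [a0, a1, k0, k1, c0])
  rcases le_total k (6000 / 10000) with c1 | c1
  · have e : tr 0 (80 / 100) (15 / 100) (20 / 100) k = 1 :=
      tr_b (by norm_num) (by norm_num) (by linarith only [k0, k1, c0, c1]) (by linarith only [k0, k1, c0, c1])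
    have tv : (var 3).val [a, T, k, K] = K * tr 0 (80 / 100) (15 / 100) (20 / 100) k := by
      rw [e]; simp only [E.val, lkR]; ring
    obtain ⟨y1, y2⟩ := hts (a := a) (T := T) (K := K) (r := tr 0 (80 / 100) (15 / 100) (20 / 100) k) (by linarith only [a0]) (by linarith only [a1])
      (by linarith only [T0]) (by linarith only [T1]) (tr01 _ _ _ _).1
      (tr01 _ _ _ _).2 (by linarith only [K0]) (by linarith only [K1]) (by linarith only [S1])
    have Rr : Row1 (q 3 10) (var 3) (gU (q 3 10) (var 3))
      (fe 45 400 9516 7121 10921 163227 (var 1)) a T k K (3 / 10) (K * tr 0 (80 / 100) (15 / 100) (20 / 100) k)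
      (fr 45 400 9516 7121 10921 163227 a T) (-110) 1010 :=
      ⟨cv, tv, fv, gU_le cv tv, by push_cast; linarith only [S0],
        by push_cast; linarith only [S1]⟩
    rcases le_total (a + k) (95 / 100) with d0 | d0
    · have hc : chkT (altI (q 3 10) (var 3) (gU (q 3 10) (var 3)) (fe 45 400 9516 7121 10921 163227 (var 1)) (-110) 1010 9500)
          28 1683882079984393547938619298740650103256611972229983486416248301475948017933658228010988675759920372991541279886659453195147563155807956039981622194813826572200966726400044407218188575874137535261779092310289516830484511569412015702539484282676335032042845656117841245812214851121491410895084985658562124432490930516692817485553769517530065100320601985776290087445295979032843253870044459622594593372150965067410237920017074727554611909534947086935542214690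
          [V.of 10000 3900 5000 4, V.of 10000 100 580 4, V.of 10000 1500 5600 4, V.of 10000 (-610) 650 4] = true :=
      Pool.Agent.Work.NumUs.chkT_of (Pool.Agent.Work.NumUs.runT_split rfl rfl rfl
        d1_one_B_h2_q1
        d1_one_B_h2_q2)
      exact rowI1 Rr hc ⟨by push_cast; linarith only [a0], by push_cast; linarith only [a1]⟩
        ⟨by push_cast; linarith only [T0], by push_cast; linarith only [T1]⟩
        ⟨by push_cast; linarith only [a0, a1, k0, k1, c0, c1, d0], by push_cast; linarith only [a0, a1, k0, k1, c0, c1, d0]⟩
        ⟨by push_cast; linarith only [K0], by push_cast; linarith only [K1]⟩ (by push_cast; linarith only [a0, a1, k0, k1, c0, c1, d0])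
    · rcases le_total (a + k) (1) with d1 | d1
      · rcases le_total 0 (4 * T * (6 / 10 - a) + K * tr 0 (80 / 100) (15 / 100) (20 / 100) k) with y | y
        · have hc : chkT (altN (q 3 10) (var 3) (gU (q 3 10) (var 3)) (fe 45 400 9516 7121 10921 163227 (var 1)) (q 1 1) (-110) 1010)
              28 283876141287918681571021667295731809289182126385060976703740277472338742212751362
              [V.of 10000 3900 5000 4, V.of 10000 100 580 4, V.of 10000 4500 6000 4, V.of 10000 (-610) 650 4] = true := by
            decide +kernel
          exact rowN1 Rr p1 (Or.inl rfl) hc ⟨by push_cast; linarith only [a0], by push_cast; linarith only [a1]⟩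
            ⟨by push_cast; linarith only [T0], by push_cast; linarith only [T1]⟩
            ⟨by push_cast; linarith only [a0, a1, k0, k1, c0, c1, d0, d1], by push_cast; linarith only [a0, a1, k0, k1, c0, c1, d0, d1]⟩
            ⟨by push_cast; linarith only [K0], by push_cast; linarith only [K1]⟩
            (by push_cast; linarith only [a0, a1, k0, k1, c0, c1, d0, d1]) (by push_cast; linarith only [a0, a1, k0, k1, c0, c1, d0, d1]) (by linarith only [y])
        · have hc : chkT (altN (q 3 10) (var 3) (gU (q 3 10) (var 3)) (fe 45 400 9516 7121 10921 163227 (var 1)) (q (-1) 1) (-110) 1010)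
              28 12890291027642786820321282
              [V.of 10000 3900 5000 4, V.of 10000 100 580 4, V.of 10000 4500 6000 4, V.of 10000 (-610) 650 4] = true := by
            decide +kernel
          exact rowN1 Rr p2 (Or.inr rfl) hc ⟨by push_cast; linarith only [a0], by push_cast; linarith only [a1]⟩
            ⟨by push_cast; linarith only [T0], by push_cast; linarith only [T1]⟩
            ⟨by push_cast; linarith only [a0, a1, k0, k1, c0, c1, d0, d1], by push_cast; linarith only [a0, a1, k0, k1, c0, c1, d0, d1]⟩
            ⟨by push_cast; linarith only [K0], by push_cast; linarith only [K1]⟩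
            (by push_cast; linarith only [a0, a1, k0, k1, c0, c1, d0, d1]) (by push_cast; linarith only [a0, a1, k0, k1, c0, c1, d0, d1]) (by linarith only [y])
      · rcases le_total (a + k) (107 / 100) with d2 | d2
        · rcases le_total 0 (4 * T * (6 / 10 - a) + K * tr 0 (80 / 100) (15 / 100) (20 / 100) k) with y | y
          · have hc : chkT (altH (q 3 10) (var 3) (gU (q 3 10) (var 3)) (fe 45 400 9516 7121 10921 163227 (var 1)) (q 1 1) (-110) 1010)
                28 2451
                [V.of 10000 3900 5000 4, V.of 10000 100 580 4, V.of 10000 5000 6000 4, V.of 10000 (-610) 650 4] = true := by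
              decide +kernel
            exact rowH1 Rr p1 (Or.inl rfl) hc ⟨by push_cast; linarith only [a0], by push_cast; linarith only [a1]⟩
              ⟨by push_cast; linarith only [T0], by push_cast; linarith only [T1]⟩
              ⟨by push_cast; linarith only [a0, a1, k0, k1, c0, c1, d0, d1, d2], by push_cast; linarith only [a0, a1, k0, k1, c0, c1, d0, d1, d2]⟩
              ⟨by push_cast; linarith only [K0], by push_cast; linarith only [K1]⟩
              (by push_cast; linarith only [a0, a1, k0, k1, c0, c1, d0, d1, d2]) (by push_cast; linarith only [a0, a1, k0, k1, c0, c1, d0, d1, d2]) (by linarith only [y]) (by linarith only [(abs_le.1 y1).1, (abs_le.1 y1).2])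
          · have hc : chkT (altH (q 3 10) (var 3) (gU (q 3 10) (var 3)) (fe 45 400 9516 7121 10921 163227 (var 1)) (q (-1) 1) (-110) 1010)
                28 9
                [V.of 10000 3900 5000 4, V.of 10000 100 580 4, V.of 10000 5000 6000 4, V.of 10000 (-610) 650 4] = true := by
              decide +kernel
            exact rowH1 Rr p2 (Or.inr rfl) hc ⟨by push_cast; linarith only [a0], by push_cast; linarith only [a1]⟩
              ⟨by push_cast; linarith only [T0], by push_cast; linarith only [T1]⟩
              ⟨by push_cast; linarith only [a0, a1, k0, k1, c0, c1, d0, d1, d2], by push_cast; linarith only [a0, a1, k0, k1, c0, c1, d0, d1, d2]⟩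
              ⟨by push_cast; linarith only [K0], by push_cast; linarith only [K1]⟩
              (by push_cast; linarith only [a0, a1, k0, k1, c0, c1, d0, d1, d2]) (by push_cast; linarith only [a0, a1, k0, k1, c0, c1, d0, d1, d2]) (by linarith only [y]) (by linarith only [(abs_le.1 y1).1, (abs_le.1 y1).2])
        · rcases le_total 0 (4 * T * (6 / 10 - a) + K * tr 0 (80 / 100) (15 / 100) (20 / 100) k) with y | y
          · have hc : chkT (altB (q 3 10) (var 3) (gU (q 3 10) (var 3)) (fe 45 400 9516 7121 10921 163227 (var 1)) (q 1 1) (-110) 1010)
                28 9361019371712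
                [V.of 10000 3900 5000 4, V.of 10000 100 580 4, V.of 10000 5700 6000 4, V.of 10000 (-610) 650 4] = true := by
              decide +kernel
            exact rowB1 Rr p1 (Or.inl rfl) hc ⟨by push_cast; linarith only [a0], by push_cast; linarith only [a1]⟩
              ⟨by push_cast; linarith only [T0], by push_cast; linarith only [T1]⟩
              ⟨by push_cast; linarith only [a0, a1, k0, k1, c0, c1, d0, d1, d2], by push_cast; linarith only [a0, a1, k0, k1, c0, c1, d0, d1, d2]⟩
              ⟨by push_cast; linarith only [K0], by push_cast; linarith only [K1]⟩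
              (by push_cast; linarith only [a0, a1, k0, k1, c0, c1, d0, d1, d2]) (by linarith only [y])
          · have hc : chkT (altB (q 3 10) (var 3) (gU (q 3 10) (var 3)) (fe 45 400 9516 7121 10921 163227 (var 1)) (q (-1) 1) (-110) 1010)
                28 36645372096
                [V.of 10000 3900 5000 4, V.of 10000 100 580 4, V.of 10000 5700 6000 4, V.of 10000 (-610) 650 4] = true := by
              decide +kernel
            exact rowB1 Rr p2 (Or.inr rfl) hc ⟨by push_cast; linarith only [a0], by push_cast; linarith only [a1]⟩
              ⟨by push_cast; linarith only [T0], by push_cast; linarith only [T1]⟩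
              ⟨by push_cast; linarith only [a0, a1, k0, k1, c0, c1, d0, d1, d2], by push_cast; linarith only [a0, a1, k0, k1, c0, c1, d0, d1, d2]⟩
              ⟨by push_cast; linarith only [K0], by push_cast; linarith only [K1]⟩
              (by push_cast; linarith only [a0, a1, k0, k1, c0, c1, d0, d1, d2]) (by linarith only [y])
  rcases le_total k (6600 / 10000) with c2 | c2
  · have e : tr 0 (80 / 100) (15 / 100) (20 / 100) k = (80 / 100 - k) / (20 / 100) :=
      tr_c (by norm_num) (by norm_num) (by norm_num) (by linarith only [k0, k1, c0, c1, c2]) (by linarith only [k0, k1, c0, c1, c2])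
    have tv : (mul (mul (q 10000 2000) (sub (q 8000 10000) (var 2))) (var 3)).val [a, T, k, K] = K * tr 0 (80 / 100) (15 / 100) (20 / 100) k := by
      rw [e]; simp only [E.val, lkR]; push_cast; ring
    obtain ⟨y1, y2⟩ := hts (a := a) (T := T) (K := K) (r := tr 0 (80 / 100) (15 / 100) (20 / 100) k) (by linarith only [a0]) (by linarith only [a1])
      (by linarith only [T0]) (by linarith only [T1]) (tr01 _ _ _ _).1
      (tr01 _ _ _ _).2 (by linarith only [K0]) (by linarith only [K1]) (by linarith only [S1])
    have Rr : Row1 (q 3 10) (mul (mul (q 10000 2000) (sub (q 8000 10000) (var 2))) (var 3)) (gU (q 3 10) (mul (mul (q 10000 2000) (sub (q 8000 10000) (var 2))) (var 3)))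
      (fe 45 400 9516 7121 10921 163227 (var 1)) a T k K (3 / 10) (K * tr 0 (80 / 100) (15 / 100) (20 / 100) k)
      (fr 45 400 9516 7121 10921 163227 a T) (-110) 1010 :=
      ⟨cv, tv, fv, gU_le cv tv, by push_cast; linarith only [S0],
        by push_cast; linarith only [S1]⟩
    rcases le_total (a + k) (1) with d0 | d0
    · rcases le_total 0 (4 * T * (6 / 10 - a) + K * tr 0 (80 / 100) (15 / 100) (20 / 100) k) with y | y
      · have hc : chkT (altN (q 3 10) (mul (mul (q 10000 2000) (sub (q 8000 10000) (var 2))) (var 3)) (gU (q 3 10) (mul (mul (q 10000 2000) (sub (q 8000 10000) (var 2))) (var 3))) (fe 45 400 9516 7121 10921 163227 (var 1)) (q 1 1) (-110) 1010)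
            28 2451
            [V.of 10000 3900 5000 4, V.of 10000 100 580 4, V.of 10000 6000 6100 4, V.of 10000 (-610) 650 4] = true := by
          decide +kernel
        exact rowN1 Rr p1 (Or.inl rfl) hc ⟨by push_cast; linarith only [a0], by push_cast; linarith only [a1]⟩
          ⟨by push_cast; linarith only [T0], by push_cast; linarith only [T1]⟩
          ⟨by push_cast; linarith only [a0, a1, k0, k1, c0, c1, c2, d0], by push_cast; linarith only [a0, a1, k0, k1, c0, c1, c2, d0]⟩
          ⟨by push_cast; linarith only [K0], by push_cast; linarith only [K1]⟩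
          (by push_cast; linarith only [a0, a1, k0, k1, c0, c1, c2, d0]) (by push_cast; linarith only [a0, a1, k0, k1, c0, c1, c2, d0]) (by linarith only [y])
      · have hc : chkT (altN (q 3 10) (mul (mul (q 10000 2000) (sub (q 8000 10000) (var 2))) (var 3)) (gU (q 3 10) (mul (mul (q 10000 2000) (sub (q 8000 10000) (var 2))) (var 3))) (fe 45 400 9516 7121 10921 163227 (var 1)) (q (-1) 1) (-110) 1010)
            28 9
            [V.of 10000 3900 5000 4, V.of 10000 100 580 4, V.of 10000 6000 6100 4, V.of 10000 (-610) 650 4] = true := by
          decide +kernel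
        exact rowN1 Rr p2 (Or.inr rfl) hc ⟨by push_cast; linarith only [a0], by push_cast; linarith only [a1]⟩
          ⟨by push_cast; linarith only [T0], by push_cast; linarith only [T1]⟩
          ⟨by push_cast; linarith only [a0, a1, k0, k1, c0, c1, c2, d0], by push_cast; linarith only [a0, a1, k0, k1, c0, c1, c2, d0]⟩
          ⟨by push_cast; linarith only [K0], by push_cast; linarith only [K1]⟩
          (by push_cast; linarith only [a0, a1, k0, k1, c0, c1, c2, d0]) (by push_cast; linarith only [a0, a1, k0, k1, c0, c1, c2, d0]) (by linarith only [y])
    · rcases le_total (a + k) (107 / 100) with d1 | d1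
      · rcases le_total 0 (4 * T * (6 / 10 - a) + K * tr 0 (80 / 100) (15 / 100) (20 / 100) k) with y | y
        · have hc : chkT (altH (q 3 10) (mul (mul (q 10000 2000) (sub (q 8000 10000) (var 2))) (var 3)) (gU (q 3 10) (mul (mul (q 10000 2000) (sub (q 8000 10000) (var 2))) (var 3))) (fe 45 400 9516 7121 10921 163227 (var 1)) (q 1 1) (-110) 1010)
              28 160667955
              [V.of 10000 3900 5000 4, V.of 10000 100 580 4, V.of 10000 6000 6600 4, V.of 10000 (-610) 650 4] = true := by
            decide +kernel
          exact rowH1 Rr p1 (Or.inl rfl) hc ⟨by push_cast; linarith only [a0], by push_cast; linarith only [a1]⟩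
            ⟨by push_cast; linarith only [T0], by push_cast; linarith only [T1]⟩
            ⟨by push_cast; linarith only [a0, a1, k0, k1, c0, c1, c2, d0, d1], by push_cast; linarith only [a0, a1, k0, k1, c0, c1, c2, d0, d1]⟩
            ⟨by push_cast; linarith only [K0], by push_cast; linarith only [K1]⟩
            (by push_cast; linarith only [a0, a1, k0, k1, c0, c1, c2, d0, d1]) (by push_cast; linarith only [a0, a1, k0, k1, c0, c1, c2, d0, d1]) (by linarith only [y]) (by linarith only [(abs_le.1 y1).1, (abs_le.1 y1).2])
        · have hc : chkT (altH (q 3 10) (mul (mul (q 10000 2000) (sub (q 8000 10000) (var 2))) (var 3)) (gU (q 3 10) (mul (mul (q 10000 2000) (sub (q 8000 10000) (var 2))) (var 3))) (fe 45 400 9516 7121 10921 163227 (var 1)) (q (-1) 1) (-110) 1010)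
              28 628995
              [V.of 10000 3900 5000 4, V.of 10000 100 580 4, V.of 10000 6000 6600 4, V.of 10000 (-610) 650 4] = true := by
            decide +kernel
          exact rowH1 Rr p2 (Or.inr rfl) hc ⟨by push_cast; linarith only [a0], by push_cast; linarith only [a1]⟩
            ⟨by push_cast; linarith only [T0], by push_cast; linarith only [T1]⟩
            ⟨by push_cast; linarith only [a0, a1, k0, k1, c0, c1, c2, d0, d1], by push_cast; linarith only [a0, a1, k0, k1, c0, c1, c2, d0, d1]⟩
            ⟨by push_cast; linarith only [K0], by push_cast; linarith only [K1]⟩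
            (by push_cast; linarith only [a0, a1, k0, k1, c0, c1, c2, d0, d1]) (by push_cast; linarith only [a0, a1, k0, k1, c0, c1, c2, d0, d1]) (by linarith only [y]) (by linarith only [(abs_le.1 y1).1, (abs_le.1 y1).2])
      · rcases le_total 0 (4 * T * (6 / 10 - a) + K * tr 0 (80 / 100) (15 / 100) (20 / 100) k) with y | y
        · have hc : chkT (altB (q 3 10) (mul (mul (q 10000 2000) (sub (q 8000 10000) (var 2))) (var 3)) (gU (q 3 10) (mul (mul (q 10000 2000) (sub (q 8000 10000) (var 2))) (var 3))) (fe 45 400 9516 7121 10921 163227 (var 1)) (q 1 1) (-110) 1010)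
              28 674223008655877281456637263904
              [V.of 10000 3900 5000 4, V.of 10000 100 580 4, V.of 10000 6000 6600 4, V.of 10000 (-610) 650 4] = true := by
            decide +kernel
          exact rowB1 Rr p1 (Or.inl rfl) hc ⟨by push_cast; linarith only [a0], by push_cast; linarith only [a1]⟩
            ⟨by push_cast; linarith only [T0], by push_cast; linarith only [T1]⟩
            ⟨by push_cast; linarith only [a0, a1, k0, k1, c0, c1, c2, d0, d1], by push_cast; linarith only [a0, a1, k0, k1, c0, c1, c2, d0, d1]⟩
            ⟨by push_cast; linarith only [K0], by push_cast; linarith only [K1]⟩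
            (by push_cast; linarith only [a0, a1, k0, k1, c0, c1, c2, d0, d1]) (by linarith only [y])
        · have hc : chkT (altB (q 3 10) (mul (mul (q 10000 2000) (sub (q 8000 10000) (var 2))) (var 3)) (gU (q 3 10) (mul (mul (q 10000 2000) (sub (q 8000 10000) (var 2))) (var 3))) (fe 45 400 9516 7121 10921 163227 (var 1)) (q (-1) 1) (-110) 1010)
              28 2640537343558482323862372384
              [V.of 10000 3900 5000 4, V.of 10000 100 580 4, V.of 10000 6000 6600 4, V.of 10000 (-610) 650 4] = true := by
            decide +kernel
          exact rowB1 Rr p2 (Or.inr rfl) hc ⟨by push_cast; linarith only [a0], by push_cast; linarith only [a1]⟩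
            ⟨by push_cast; linarith only [T0], by push_cast; linarith only [T1]⟩
            ⟨by push_cast; linarith only [a0, a1, k0, k1, c0, c1, c2, d0, d1], by push_cast; linarith only [a0, a1, k0, k1, c0, c1, c2, d0, d1]⟩
            ⟨by push_cast; linarith only [K0], by push_cast; linarith only [K1]⟩
            (by push_cast; linarith only [a0, a1, k0, k1, c0, c1, c2, d0, d1]) (by linarith only [y])
  have e : tr 0 (80 / 100) (15 / 100) (20 / 100) k = (80 / 100 - k) / (20 / 100) :=
    tr_c (by norm_num) (by norm_num) (by norm_num) (by linarith only [k0, k1, c0, c1, c2]) (by linarith only [k0, k1, c0, c1, c2])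
  have tv : (mul (mul (q 10000 2000) (sub (q 8000 10000) (var 2))) (var 3)).val [a, T, k, K] = K * tr 0 (80 / 100) (15 / 100) (20 / 100) k := by
    rw [e]; simp only [E.val, lkR]; push_cast; ring
  obtain ⟨y1, y2⟩ := hts (a := a) (T := T) (K := K) (r := tr 0 (80 / 100) (15 / 100) (20 / 100) k) (by linarith only [a0]) (by linarith only [a1])
    (by linarith only [T0]) (by linarith only [T1]) (tr01 _ _ _ _).1
    (tr01 _ _ _ _).2 (by linarith only [K0]) (by linarith only [K1]) (by linarith only [S1])
  have Rr : Row1 (q 3 10) (mul (mul (q 10000 2000) (sub (q 8000 10000) (var 2))) (var 3)) (gL (mul (mul (q 10000 2000) (sub (q 8000 10000) (var 2))) (var 3)))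
    (fe 45 400 9516 7121 10921 163227 (var 1)) a T k K (3 / 10) (K * tr 0 (80 / 100) (15 / 100) (20 / 100) k)
    (fr 45 400 9516 7121 10921 163227 a T) (-110) 1010 :=
    ⟨cv, tv, fv, gL_le tv (by linarith only [k0, k1, c0, c1, c2]) (by linarith only [k1]) y2, by push_cast; linarith only [S0],
      by push_cast; linarith only [S1]⟩
  rcases le_total (a + k) (107 / 100) with d0 | d0
  · rcases le_total 0 (4 * T * (6 / 10 - a) + K * tr 0 (80 / 100) (15 / 100) (20 / 100) k) with y | y
    · have hc : chkT (altH (q 3 10) (mul (mul (q 10000 2000) (sub (q 8000 10000) (var 2))) (var 3)) (gL (mul (mul (q 10000 2000) (sub (q 8000 10000) (var 2))) (var 3))) (fe 45 400 9516 7121 10921 163227 (var 1)) (q 1 1) (-110) 1010)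
          28 2451
          [V.of 10000 3900 5000 4, V.of 10000 100 580 4, V.of 10000 6600 6800 4, V.of 10000 (-610) 650 4] = true := by
        decide +kernel
      exact rowH1 Rr p1 (Or.inl rfl) hc ⟨by push_cast; linarith only [a0], by push_cast; linarith only [a1]⟩
        ⟨by push_cast; linarith only [T0], by push_cast; linarith only [T1]⟩
        ⟨by push_cast; linarith only [a0, a1, k0, k1, c0, c1, c2, d0], by push_cast; linarith only [a0, a1, k0, k1, c0, c1, c2, d0]⟩
        ⟨by push_cast; linarith only [K0], by push_cast; linarith only [K1]⟩
        (by push_cast; linarith only [a0, a1, k0, k1, c0, c1, c2, d0]) (by push_cast; linarith only [a0, a1, k0, k1, c0, c1, c2, d0]) (by linarith only [y]) (by linarith only [(abs_le.1 y1).1, (abs_le.1 y1).2])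
    · have hc : chkT (altH (q 3 10) (mul (mul (q 10000 2000) (sub (q 8000 10000) (var 2))) (var 3)) (gL (mul (mul (q 10000 2000) (sub (q 8000 10000) (var 2))) (var 3))) (fe 45 400 9516 7121 10921 163227 (var 1)) (q (-1) 1) (-110) 1010)
          28 143164208
          [V.of 10000 3900 5000 4, V.of 10000 100 580 4, V.of 10000 6600 6800 4, V.of 10000 (-610) 650 4] = true := by
        decide +kernel
      exact rowH1 Rr p2 (Or.inr rfl) hc ⟨by push_cast; linarith only [a0], by push_cast; linarith only [a1]⟩
        ⟨by push_cast; linarith only [T0], by push_cast; linarith only [T1]⟩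
        ⟨by push_cast; linarith only [a0, a1, k0, k1, c0, c1, c2, d0], by push_cast; linarith only [a0, a1, k0, k1, c0, c1, c2, d0]⟩
        ⟨by push_cast; linarith only [K0], by push_cast; linarith only [K1]⟩
        (by push_cast; linarith only [a0, a1, k0, k1, c0, c1, c2, d0]) (by push_cast; linarith only [a0, a1, k0, k1, c0, c1, c2, d0]) (by linarith only [y]) (by linarith only [(abs_le.1 y1).1, (abs_le.1 y1).2])
  · rcases le_total 0 (4 * T * (6 / 10 - a) + K * tr 0 (80 / 100) (15 / 100) (20 / 100) k) with y | y
    · have hc : chkT (altB (q 3 10) (mul (mul (q 10000 2000) (sub (q 8000 10000) (var 2))) (var 3)) (gL (mul (mul (q 10000 2000) (sub (q 8000 10000) (var 2))) (var 3))) (fe 45 400 9516 7121 10921 163227 (var 1)) (q 1 1) (-110) 1010)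
          28 559152
          [V.of 10000 3900 5000 4, V.of 10000 100 580 4, V.of 10000 6600 7000 4, V.of 10000 (-610) 650 4] = true := by
        decide +kernel
      exact rowB1 Rr p1 (Or.inl rfl) hc ⟨by push_cast; linarith only [a0], by push_cast; linarith only [a1]⟩
        ⟨by push_cast; linarith only [T0], by push_cast; linarith only [T1]⟩
        ⟨by push_cast; linarith only [a0, a1, k0, k1, c0, c1, c2, d0], by push_cast; linarith only [a0, a1, k0, k1, c0, c1, c2, d0]⟩
        ⟨by push_cast; linarith only [K0], by push_cast; linarith only [K1]⟩
        (by push_cast; linarith only [a0, a1, k0, k1, c0, c1, c2, d0]) (by linarith only [y])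
    · have hc : chkT (altB (q 3 10) (mul (mul (q 10000 2000) (sub (q 8000 10000) (var 2))) (var 3)) (gL (mul (mul (q 10000 2000) (sub (q 8000 10000) (var 2))) (var 3))) (fe 45 400 9516 7121 10921 163227 (var 1)) (q (-1) 1) (-110) 1010)
          28 143163440
          [V.of 10000 3900 5000 4, V.of 10000 100 580 4, V.of 10000 6600 7000 4, V.of 10000 (-610) 650 4] = true := by
        decide +kernel
      exact rowB1 Rr p2 (Or.inr rfl) hc ⟨by push_cast; linarith only [a0], by push_cast; linarith only [a1]⟩
        ⟨by push_cast; linarith only [T0], by push_cast; linarith only [T1]⟩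
        ⟨by push_cast; linarith only [a0, a1, k0, k1, c0, c1, c2, d0], by push_cast; linarith only [a0, a1, k0, k1, c0, c1, c2, d0]⟩
        ⟨by push_cast; linarith only [K0], by push_cast; linarith only [K1]⟩
        (by push_cast; linarith only [a0, a1, k0, k1, c0, c1, c2, d0]) (by linarith only [y])

end L3

end Pool.Agent.Work.MP_b30479_gtS.G2

end

section

/-!
# Part of `ML3u`
-/
set_option deprecated.oldSectionVars true

namespace Pool.Agent.Work.MP_b30479_gtS.G2

open Finset VOL Filter Topology

namespace L3

open NumIs (V lkR)
open NumUs NumUs.E

set_option linter.unusedTactic false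

theorem d1_one_A_h2_q1 : Pool.Agent.Work.NumUs.runT (altI (q 3 10) (var 3) (gU (q 3 10) (var 3)) (fe 37 400 3606 7534 751 104344 (var 1)) (-110) 1010 9500) 25
    45250021142268451798057112457960972267695925672122725633647255794444874993642831040226737349079574093575205121792671263652208771506104349865449463722714395949408869684902105943512590488953749628691643123257178425730979357758818181282673768374961995825366627800142168382610461607915241856308239657937519982594140417589841649520875014130547627178191724740432570168755779298439936670072092010011783291110931425679537728702099365575306665461491391558056658156802991288660579636370918949102489701095616538123747978600375886872924333090093433432250842097050343752562725849456902125557319064400212182832693799567008253004160647982525998122538312234301785029184662514996820252894861451898955559209559688512000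
    (Pool.Agent.Work.NumIs.setL 3 (Pool.Agent.Work.NumIs.setL 2 (Pool.Agent.Work.NumIs.setL 2 ([V.of 10000 3500 3900 4, V.of 10000 100 580 4, V.of 10000 1500 6000 4, V.of 10000 (-610) 650 4])))) =
    658474471744098290190698934863917708101448452684020239883790138911643225490738856609484898931689881917194072183231346769785286909698397355757325767229695279811987270439598155550085218986405374434131126665410970246462665931304482820017056195865181446793818435983007197248086764126713996757582057877698680132658634357937868473831258803410275536271972301480601456842207397835444668745506962441312255266689046776148282933021246071079901091601516113704662102926566022341439087705961995366705955545994460962883720328687572136884036198754524716528988823077093456996411635910872459143244764191334429529272802749867089049136275541714363471292575009782766356208371326138102744195128055462540295545617 := by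
  decide +kernel

theorem d1_one_A_h2_q2 : Pool.Agent.Work.NumUs.runT (altI (q 3 10) (var 3) (gU (q 3 10) (var 3)) (fe 37 400 3606 7534 751 104344 (var 1)) (-110) 1010 9500) 24
    41154654484006143136918683428994856756340528292751264992736883681977701593171178538092806183230617619824629511451959173111580431856149834734832860451855954988249204402474884721880326186650335902133195416588185640403916620706530176251066012241573840424613652248937949828005422757919624797348878617356167508291164647371116779614453675213142221016998268842537591052637962364715291796594185152582015954168065423509267683313827879442493818225094757106541381432910376396339942981622624710419122221624653810180232520542973258555252262422157794783061801442318341062275727244429528696452797761958401845579550171866693065571017221357147716955785938111422897263023207883631421512195503466408768471601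
    (Pool.Agent.Work.NumIs.setL 0 (Pool.Agent.Work.NumIs.setR 3 (Pool.Agent.Work.NumIs.setL 2 (Pool.Agent.Work.NumIs.setL 2 ([V.of 10000 3500 3900 4, V.of 10000 100 580 4, V.of 10000 1500 6000 4, V.of 10000 (-610) 650 4]))))) =
    350834762949941448514206548563555955745696574325663088371166807091342997028510443740609744554327112431968307115047010388460006070296314333225114446622206692623611696170435288676907889848700757687700848947331464532323408432907290227776000629464476159949375209260455949767984880695564551122006088253407981693169933896033461837874392124516286324219985929293301841982944998284680182729748526221013434302144406857155790217953495822175338788 := by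
  decide +kernel

theorem d1_one_A_h2_q3 : Pool.Agent.Work.NumUs.runT (altI (q 3 10) (var 3) (gU (q 3 10) (var 3)) (fe 37 400 3606 7534 751 104344 (var 1)) (-110) 1010 9500) 24
    350834762949941448514206548563555955745696574325663088371166807091342997028510443740609744554327112431968307115047010388460006070296314333225114446622206692623611696170435288676907889848700757687700848947331464532323408432907290227776000629464476159949375209260455949767984880695564551122006088253407981693169933896033461837874392124516286324219985929293301841982944998284680182729748526221013434302144406857155790217953495822175338787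
    (Pool.Agent.Work.NumIs.setR 0 (Pool.Agent.Work.NumIs.setR 3 (Pool.Agent.Work.NumIs.setL 2 (Pool.Agent.Work.NumIs.setL 2 ([V.of 10000 3500 3900 4, V.of 10000 100 580 4, V.of 10000 1500 6000 4, V.of 10000 (-610) 650 4]))))) =
    97477629871313180954833020650719245342497402069016240293988391196175349764407443463433168207166542169474875501120313988769144343231429337712159189844340522947243151741245622703180479348893619778835283213775082177586797952257264207720322235254744143375915370833074520076804 := by
  decide +kernel

end L3

end Pool.Agent.Work.MP_b30479_gtS.G2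

end

section

/-!
# Part of `ML3u`
-/
set_option deprecated.oldSectionVars true

namespace Pool.Agent.Work.MP_b30479_gtS.G2

open Finset VOL Filter Topology

namespace L3

open NumIs (V lkR)
open NumUs NumUs.E

set_option linter.unusedTactic false

theorem d1_one_A {a T k K : ℝ} (a0 : 3500 / 10000 ≤ a) (a1 : a ≤ 3900 / 10000)
    (T0 : 100 / 10000 ≤ T) (T1 : T ≤ 580 / 10000) (K0 : -(610 / 10000) ≤ K)
    (K1 : K ≤ 650 / 10000) (S0 : -(110 / 10000) ≤ T + K) (S1 : T + K ≤ 1010 / 10000)
    (k0 : 7 / 100 ≤ k) (k1 : k ≤ 7000 / 10000) :
    0 < D1 (3 / 10) a T k (K * tr 0 (80 / 100) (15 / 100) (20 / 100) k) +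
      fr 37 400 3606 7534 751 104344 a T := by
  have cv : ((q 3 10) : E).val [a, T, k, K] = 3 / 10 := by
    simp only [E.val]; norm_num
  have fv : (fe 37 400 3606 7534 751 104344 (var 1)).val [a, T, k, K] = fr 37 400 3606 7534 751 104344 a T :=
    fe_val (by simp only [E.val, lkR])
  have p1 : ((q 1 1) : E).val [a, T, k, K] = 1 := by simp only [E.val]; norm_num
  have p2 : ((q (-1) 1) : E).val [a, T, k, K] = -1 := by simp only [E.val]; norm_num
  rcases le_total k (1500 / 10000) with c0 | c0
  · have e : tr 0 (80 / 100) (15 / 100) (20 / 100) k = k / (15 / 100) :=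
      tr_a (by norm_num) (by norm_num) (by norm_num) (by linarith only [k0]) (by linarith only [k0, k1, c0])
    have tv : (mul (mul (q 10000 1500) (var 2)) (var 3)).val [a, T, k, K] = K * tr 0 (80 / 100) (15 / 100) (20 / 100) k := by
      rw [e]; simp only [E.val, lkR]; push_cast; ring
    obtain ⟨y1, y2⟩ := hts (a := a) (T := T) (K := K) (r := tr 0 (80 / 100) (15 / 100) (20 / 100) k) (by linarith only [a0]) (by linarith only [a1])
      (by linarith only [T0]) (by linarith only [T1]) (tr01 _ _ _ _).1
      (tr01 _ _ _ _).2 (by linarith only [K0]) (by linarith only [K1]) (by linarith only [S1])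
    have Rr : Row1 (q 3 10) (mul (mul (q 10000 1500) (var 2)) (var 3)) (gU (q 3 10) (mul (mul (q 10000 1500) (var 2)) (var 3)))
      (fe 37 400 3606 7534 751 104344 (var 1)) a T k K (3 / 10) (K * tr 0 (80 / 100) (15 / 100) (20 / 100) k)
      (fr 37 400 3606 7534 751 104344 a T) (-110) 1010 :=
      ⟨cv, tv, fv, gU_le cv tv, by push_cast; linarith only [S0],
        by push_cast; linarith only [S1]⟩
    have hc : chkT (altI (q 3 10) (mul (mul (q 10000 1500) (var 2)) (var 3)) (gU (q 3 10) (mul (mul (q 10000 1500) (var 2)) (var 3))) (fe 37 400 3606 7534 751 104344 (var 1)) (-110) 1010 9500)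
        28 206744548520431543399377824795534179517881777939618709811985313373904833817750984907261174710074909963981481107895519070070293025300459292637402487920618162114726587110676652416295695460724560391715846333662148854019
        [V.of 10000 3500 3900 4, V.of 10000 100 580 4, V.of 10000 700 1500 4, V.of 10000 (-610) 650 4] = true := by
      decide +kernel
    exact rowI1 Rr hc ⟨by push_cast; linarith only [a0], by push_cast; linarith only [a1]⟩
      ⟨by push_cast; linarith only [T0], by push_cast; linarith only [T1]⟩
      ⟨by push_cast; linarith only [a0, a1, k0, k1, c0], by push_cast; linarith only [a0, a1, k0, k1, c0]⟩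
      ⟨by push_cast; linarith only [K0], by push_cast; linarith only [K1]⟩ (by push_cast; linarith only [a0, a1, k0, k1, c0])
  rcases le_total k (6000 / 10000) with c1 | c1
  · have e : tr 0 (80 / 100) (15 / 100) (20 / 100) k = 1 :=
      tr_b (by norm_num) (by norm_num) (by linarith only [k0, k1, c0, c1]) (by linarith only [k0, k1, c0, c1])
    have tv : (var 3).val [a, T, k, K] = K * tr 0 (80 / 100) (15 / 100) (20 / 100) k := by
      rw [e]; simp only [E.val, lkR]; ring
    obtain ⟨y1, y2⟩ := hts (a := a) (T := T) (K := K) (r := tr 0 (80 / 100) (15 / 100) (20 / 100) k) (by linarith only [a0]) (by linarith only [a1])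
      (by linarith only [T0]) (by linarith only [T1]) (tr01 _ _ _ _).1
      (tr01 _ _ _ _).2 (by linarith only [K0]) (by linarith only [K1]) (by linarith only [S1])
    have Rr : Row1 (q 3 10) (var 3) (gU (q 3 10) (var 3))
      (fe 37 400 3606 7534 751 104344 (var 1)) a T k K (3 / 10) (K * tr 0 (80 / 100) (15 / 100) (20 / 100) k)
      (fr 37 400 3606 7534 751 104344 a T) (-110) 1010 :=
      ⟨cv, tv, fv, gU_le cv tv, by push_cast; linarith only [S0],
        by push_cast; linarith only [S1]⟩
    rcases le_total (a + k) (95 / 100) with d0 | d0
    · have hc : chkT (altI (q 3 10) (var 3) (gU (q 3 10) (var 3)) (fe 37 400 3606 7534 751 104344 (var 1)) (-110) 1010 9500)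
          28 185344086598731578564841932627808142408482511553014684195419159734046207973961035940768716181829935487284040178862781495919447128089003417048881003408238165808778730229359025944627570642754558479120970232861402831794091449380119270533831755263844334900701707469382321695172450746020830643438549638912081848705599150447991396437504057878723080921873304536811807411223672006409980600615288873008264360390375119583386536763799001396456101730268739821800071810265052318353734190575284015523797815687645340154871720347139632631498068337022703338499449229518208010496925079375471106282778887783269100882713803026465804305042014136426488309916926911700111479540377661426975755857352506978121970522356484145152802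
          [V.of 10000 3500 3900 4, V.of 10000 100 580 4, V.of 10000 1500 6000 4, V.of 10000 (-610) 650 4] = true :=
      Pool.Agent.Work.NumUs.chkT_of (Pool.Agent.Work.NumUs.runT_split rfl rfl rfl
        (Pool.Agent.Work.NumUs.runT_split rfl rfl rfl
          (Pool.Agent.Work.NumUs.runT_split rfl rfl rfl
            d1_one_A_h2_q1
            (Pool.Agent.Work.NumUs.runT_split rfl rfl rfl
              d1_one_A_h2_q2
              d1_one_A_h2_q3))
          d1_one_A_h2_q4)
        d1_one_A_h2_q5)
      exact rowI1 Rr hc ⟨by push_cast; linarith only [a0], by push_cast; linarith only [a1]⟩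
        ⟨by push_cast; linarith only [T0], by push_cast; linarith only [T1]⟩
        ⟨by push_cast; linarith only [a0, a1, k0, k1, c0, c1, d0], by push_cast; linarith only [a0, a1, k0, k1, c0, c1, d0]⟩
        ⟨by push_cast; linarith only [K0], by push_cast; linarith only [K1]⟩ (by push_cast; linarith only [a0, a1, k0, k1, c0, c1, d0])
    · rcases le_total 0 (4 * T * (6 / 10 - a) + K * tr 0 (80 / 100) (15 / 100) (20 / 100) k) with y | y
      · have hc : chkT (altN (q 3 10) (var 3) (gU (q 3 10) (var 3)) (fe 37 400 3606 7534 751 104344 (var 1)) (q 1 1) (-110) 1010)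
            28 740978271586092916626721580317395565163011
            [V.of 10000 3500 3900 4, V.of 10000 100 580 4, V.of 10000 5600 6000 4, V.of 10000 (-610) 650 4] = true := by
          decide +kernel
        exact rowN1 Rr p1 (Or.inl rfl) hc ⟨by push_cast; linarith only [a0], by push_cast; linarith only [a1]⟩
          ⟨by push_cast; linarith only [T0], by push_cast; linarith only [T1]⟩
          ⟨by push_cast; linarith only [a0, a1, k0, k1, c0, c1, d0], by push_cast; linarith only [a0, a1, k0, k1, c0, c1, d0]⟩
          ⟨by push_cast; linarith only [K0], by push_cast; linarith only [K1]⟩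
          (by push_cast; linarith only [a0, a1, k0, k1, c0, c1, d0]) (by push_cast; linarith only [a0, a1, k0, k1, c0, c1, d0]) (by linarith only [y])
      · have hc : chkT (altN (q 3 10) (var 3) (gU (q 3 10) (var 3)) (fe 37 400 3606 7534 751 104344 (var 1)) (q (-1) 1) (-110) 1010)
            28 3001918058672643
            [V.of 10000 3500 3900 4, V.of 10000 100 580 4, V.of 10000 5600 6000 4, V.of 10000 (-610) 650 4] = true := by
          decide +kernel
        exact rowN1 Rr p2 (Or.inr rfl) hc ⟨by push_cast; linarith only [a0], by push_cast; linarith only [a1]⟩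
          ⟨by push_cast; linarith only [T0], by push_cast; linarith only [T1]⟩
          ⟨by push_cast; linarith only [a0, a1, k0, k1, c0, c1, d0], by push_cast; linarith only [a0, a1, k0, k1, c0, c1, d0]⟩
          ⟨by push_cast; linarith only [K0], by push_cast; linarith only [K1]⟩
          (by push_cast; linarith only [a0, a1, k0, k1, c0, c1, d0]) (by push_cast; linarith only [a0, a1, k0, k1, c0, c1, d0]) (by linarith only [y])
  rcases le_total k (6600 / 10000) with c2 | c2
  · have e : tr 0 (80 / 100) (15 / 100) (20 / 100) k = (80 / 100 - k) / (20 / 100) :=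
      tr_c (by norm_num) (by norm_num) (by norm_num) (by linarith only [k0, k1, c0, c1, c2]) (by linarith only [k0, k1, c0, c1, c2])
    have tv : (mul (mul (q 10000 2000) (sub (q 8000 10000) (var 2))) (var 3)).val [a, T, k, K] = K * tr 0 (80 / 100) (15 / 100) (20 / 100) k := by
      rw [e]; simp only [E.val, lkR]; push_cast; ring
    obtain ⟨y1, y2⟩ := hts (a := a) (T := T) (K := K) (r := tr 0 (80 / 100) (15 / 100) (20 / 100) k) (by linarith only [a0]) (by linarith only [a1])
      (by linarith only [T0]) (by linarith only [T1]) (tr01 _ _ _ _).1
      (tr01 _ _ _ _).2 (by linarith only [K0]) (by linarith only [K1]) (by linarith only [S1])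
    have Rr : Row1 (q 3 10) (mul (mul (q 10000 2000) (sub (q 8000 10000) (var 2))) (var 3)) (gU (q 3 10) (mul (mul (q 10000 2000) (sub (q 8000 10000) (var 2))) (var 3)))
      (fe 37 400 3606 7534 751 104344 (var 1)) a T k K (3 / 10) (K * tr 0 (80 / 100) (15 / 100) (20 / 100) k)
      (fr 37 400 3606 7534 751 104344 a T) (-110) 1010 :=
      ⟨cv, tv, fv, gU_le cv tv, by push_cast; linarith only [S0],
        by push_cast; linarith only [S1]⟩
    rcases le_total (a + k) (1) with d0 | d0
    · rcases le_total 0 (4 * T * (6 / 10 - a) + K * tr 0 (80 / 100) (15 / 100) (20 / 100) k) with y | y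
      · have hc : chkT (altN (q 3 10) (mul (mul (q 10000 2000) (sub (q 8000 10000) (var 2))) (var 3)) (gU (q 3 10) (mul (mul (q 10000 2000) (sub (q 8000 10000) (var 2))) (var 3))) (fe 37 400 3606 7534 751 104344 (var 1)) (q 1 1) (-110) 1010)
            28 80097289102687286434641540698415654411614410289417098578401000687335600645697961226148626670131
            [V.of 10000 3500 3900 4, V.of 10000 100 580 4, V.of 10000 6000 6500 4, V.of 10000 (-610) 650 4] = true := by
          decide +kernel
        exact rowN1 Rr p1 (Or.inl rfl) hc ⟨by push_cast; linarith only [a0], by push_cast; linarith only [a1]⟩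
          ⟨by push_cast; linarith only [T0], by push_cast; linarith only [T1]⟩
          ⟨by push_cast; linarith only [a0, a1, k0, k1, c0, c1, c2, d0], by push_cast; linarith only [a0, a1, k0, k1, c0, c1, c2, d0]⟩
          ⟨by push_cast; linarith only [K0], by push_cast; linarith only [K1]⟩
          (by push_cast; linarith only [a0, a1, k0, k1, c0, c1, c2, d0]) (by push_cast; linarith only [a0, a1, k0, k1, c0, c1, c2, d0]) (by linarith only [y])
      · have hc : chkT (altN (q 3 10) (mul (mul (q 10000 2000) (sub (q 8000 10000) (var 2))) (var 3)) (gU (q 3 10) (mul (mul (q 10000 2000) (sub (q 8000 10000) (var 2))) (var 3))) (fe 37 400 3606 7534 751 104344 (var 1)) (q (-1) 1) (-110) 1010)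
            28 45811900723
            [V.of 10000 3500 3900 4, V.of 10000 100 580 4, V.of 10000 6000 6500 4, V.of 10000 (-610) 650 4] = true := by
          decide +kernel
        exact rowN1 Rr p2 (Or.inr rfl) hc ⟨by push_cast; linarith only [a0], by push_cast; linarith only [a1]⟩
          ⟨by push_cast; linarith only [T0], by push_cast; linarith only [T1]⟩
          ⟨by push_cast; linarith only [a0, a1, k0, k1, c0, c1, c2, d0], by push_cast; linarith only [a0, a1, k0, k1, c0, c1, c2, d0]⟩
          ⟨by push_cast; linarith only [K0], by push_cast; linarith only [K1]⟩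
          (by push_cast; linarith only [a0, a1, k0, k1, c0, c1, c2, d0]) (by push_cast; linarith only [a0, a1, k0, k1, c0, c1, c2, d0]) (by linarith only [y])
    · rcases le_total 0 (4 * T * (6 / 10 - a) + K * tr 0 (80 / 100) (15 / 100) (20 / 100) k) with y | y
      · have hc : chkT (altH (q 3 10) (mul (mul (q 10000 2000) (sub (q 8000 10000) (var 2))) (var 3)) (gU (q 3 10) (mul (mul (q 10000 2000) (sub (q 8000 10000) (var 2))) (var 3))) (fe 37 400 3606 7534 751 104344 (var 1)) (q 1 1) (-110) 1010)
            28 41113852211
            [V.of 10000 3500 3900 4, V.of 10000 100 580 4, V.of 10000 6100 6600 4, V.of 10000 (-610) 650 4] = true := by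
          decide +kernel
        exact rowH1 Rr p1 (Or.inl rfl) hc ⟨by push_cast; linarith only [a0], by push_cast; linarith only [a1]⟩
          ⟨by push_cast; linarith only [T0], by push_cast; linarith only [T1]⟩
          ⟨by push_cast; linarith only [a0, a1, k0, k1, c0, c1, c2, d0], by push_cast; linarith only [a0, a1, k0, k1, c0, c1, c2, d0]⟩
          ⟨by push_cast; linarith only [K0], by push_cast; linarith only [K1]⟩
          (by push_cast; linarith only [a0, a1, k0, k1, c0, c1, c2, d0]) (by push_cast; linarith only [a0, a1, k0, k1, c0, c1, c2, d0]) (by linarith only [y]) (by linarith only [(abs_le.1 y1).1, (abs_le.1 y1).2])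
      · have hc : chkT (altH (q 3 10) (mul (mul (q 10000 2000) (sub (q 8000 10000) (var 2))) (var 3)) (gU (q 3 10) (mul (mul (q 10000 2000) (sub (q 8000 10000) (var 2))) (var 3))) (fe 37 400 3606 7534 751 104344 (var 1)) (q (-1) 1) (-110) 1010)
            28 629043
            [V.of 10000 3500 3900 4, V.of 10000 100 580 4, V.of 10000 6100 6600 4, V.of 10000 (-610) 650 4] = true := by
          decide +kernel
        exact rowH1 Rr p2 (Or.inr rfl) hc ⟨by push_cast; linarith only [a0], by push_cast; linarith only [a1]⟩
          ⟨by push_cast; linarith only [T0], by push_cast; linarith only [T1]⟩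
          ⟨by push_cast; linarith only [a0, a1, k0, k1, c0, c1, c2, d0], by push_cast; linarith only [a0, a1, k0, k1, c0, c1, c2, d0]⟩
          ⟨by push_cast; linarith only [K0], by push_cast; linarith only [K1]⟩
          (by push_cast; linarith only [a0, a1, k0, k1, c0, c1, c2, d0]) (by push_cast; linarith only [a0, a1, k0, k1, c0, c1, c2, d0]) (by linarith only [y]) (by linarith only [(abs_le.1 y1).1, (abs_le.1 y1).2])
  have e : tr 0 (80 / 100) (15 / 100) (20 / 100) k = (80 / 100 - k) / (20 / 100) :=
    tr_c (by norm_num) (by norm_num) (by norm_num) (by linarith only [k0, k1, c0, c1, c2]) (by linarith only [k0, k1, c0, c1, c2])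
  have tv : (mul (mul (q 10000 2000) (sub (q 8000 10000) (var 2))) (var 3)).val [a, T, k, K] = K * tr 0 (80 / 100) (15 / 100) (20 / 100) k := by
    rw [e]; simp only [E.val, lkR]; push_cast; ring
  obtain ⟨y1, y2⟩ := hts (a := a) (T := T) (K := K) (r := tr 0 (80 / 100) (15 / 100) (20 / 100) k) (by linarith only [a0]) (by linarith only [a1])
    (by linarith only [T0]) (by linarith only [T1]) (tr01 _ _ _ _).1
    (tr01 _ _ _ _).2 (by linarith only [K0]) (by linarith only [K1]) (by linarith only [S1])
  have Rr : Row1 (q 3 10) (mul (mul (q 10000 2000) (sub (q 8000 10000) (var 2))) (var 3)) (gL (mul (mul (q 10000 2000) (sub (q 8000 10000) (var 2))) (var 3)))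
    (fe 37 400 3606 7534 751 104344 (var 1)) a T k K (3 / 10) (K * tr 0 (80 / 100) (15 / 100) (20 / 100) k)
    (fr 37 400 3606 7534 751 104344 a T) (-110) 1010 :=
    ⟨cv, tv, fv, gL_le tv (by linarith only [k0, k1, c0, c1, c2]) (by linarith only [k1]) y2, by push_cast; linarith only [S0],
      by push_cast; linarith only [S1]⟩
  rcases le_total (a + k) (107 / 100) with d0 | d0
  · rcases le_total 0 (4 * T * (6 / 10 - a) + K * tr 0 (80 / 100) (15 / 100) (20 / 100) k) with y | y
    · have hc : chkT (altH (q 3 10) (mul (mul (q 10000 2000) (sub (q 8000 10000) (var 2))) (var 3)) (gL (mul (mul (q 10000 2000) (sub (q 8000 10000) (var 2))) (var 3))) (fe 37 400 3606 7534 751 104344 (var 1)) (q 1 1) (-110) 1010)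
          28 9
          [V.of 10000 3500 3900 4, V.of 10000 100 580 4, V.of 10000 6600 7000 4, V.of 10000 (-610) 650 4] = true := by
        decide +kernel
      exact rowH1 Rr p1 (Or.inl rfl) hc ⟨by push_cast; linarith only [a0], by push_cast; linarith only [a1]⟩
        ⟨by push_cast; linarith only [T0], by push_cast; linarith only [T1]⟩
        ⟨by push_cast; linarith only [a0, a1, k0, k1, c0, c1, c2, d0], by push_cast; linarith only [a0, a1, k0, k1, c0, c1, c2, d0]⟩
        ⟨by push_cast; linarith only [K0], by push_cast; linarith only [K1]⟩
        (by push_cast; linarith only [a0, a1, k0, k1, c0, c1, c2, d0]) (by push_cast; linarith only [a0, a1, k0, k1, c0, c1, c2, d0]) (by linarith only [y]) (by linarith only [(abs_le.1 y1).1, (abs_le.1 y1).2])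
    · have hc : chkT (altH (q 3 10) (mul (mul (q 10000 2000) (sub (q 8000 10000) (var 2))) (var 3)) (gL (mul (mul (q 10000 2000) (sub (q 8000 10000) (var 2))) (var 3))) (fe 37 400 3606 7534 751 104344 (var 1)) (q (-1) 1) (-110) 1010)
          28 691735321708868401
          [V.of 10000 3500 3900 4, V.of 10000 100 580 4, V.of 10000 6600 7000 4, V.of 10000 (-610) 650 4] = true := by
        decide +kernel
      exact rowH1 Rr p2 (Or.inr rfl) hc ⟨by push_cast; linarith only [a0], by push_cast; linarith only [a1]⟩
        ⟨by push_cast; linarith only [T0], by push_cast; linarith only [T1]⟩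
        ⟨by push_cast; linarith only [a0, a1, k0, k1, c0, c1, c2, d0], by push_cast; linarith only [a0, a1, k0, k1, c0, c1, c2, d0]⟩
        ⟨by push_cast; linarith only [K0], by push_cast; linarith only [K1]⟩
        (by push_cast; linarith only [a0, a1, k0, k1, c0, c1, c2, d0]) (by push_cast; linarith only [a0, a1, k0, k1, c0, c1, c2, d0]) (by linarith only [y]) (by linarith only [(abs_le.1 y1).1, (abs_le.1 y1).2])
  · rcases le_total 0 (4 * T * (6 / 10 - a) + K * tr 0 (80 / 100) (15 / 100) (20 / 100) k) with y | y
    · have hc : chkT (altB (q 3 10) (mul (mul (q 10000 2000) (sub (q 8000 10000) (var 2))) (var 3)) (gL (mul (mul (q 10000 2000) (sub (q 8000 10000) (var 2))) (var 3))) (fe 37 400 3606 7534 751 104344 (var 1)) (q 1 1) (-110) 1010)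
          28 36566481920
          [V.of 10000 3500 3900 4, V.of 10000 100 580 4, V.of 10000 6800 7000 4, V.of 10000 (-610) 650 4] = true := by
        decide +kernel
      exact rowB1 Rr p1 (Or.inl rfl) hc ⟨by push_cast; linarith only [a0], by push_cast; linarith only [a1]⟩
        ⟨by push_cast; linarith only [T0], by push_cast; linarith only [T1]⟩
        ⟨by push_cast; linarith only [a0, a1, k0, k1, c0, c1, c2, d0], by push_cast; linarith only [a0, a1, k0, k1, c0, c1, c2, d0]⟩
        ⟨by push_cast; linarith only [K0], by push_cast; linarith only [K1]⟩
        (by push_cast; linarith only [a0, a1, k0, k1, c0, c1, c2, d0]) (by linarith only [y])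
    · have hc : chkT (altB (q 3 10) (mul (mul (q 10000 2000) (sub (q 8000 10000) (var 2))) (var 3)) (gL (mul (mul (q 10000 2000) (sub (q 8000 10000) (var 2))) (var 3))) (fe 37 400 3606 7534 751 104344 (var 1)) (q (-1) 1) (-110) 1010)
          28 36650562323
          [V.of 10000 3500 3900 4, V.of 10000 100 580 4, V.of 10000 6800 7000 4, V.of 10000 (-610) 650 4] = true := by
        decide +kernel
      exact rowB1 Rr p2 (Or.inr rfl) hc ⟨by push_cast; linarith only [a0], by push_cast; linarith only [a1]⟩
        ⟨by push_cast; linarith only [T0], by push_cast; linarith only [T1]⟩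
        ⟨by push_cast; linarith only [a0, a1, k0, k1, c0, c1, c2, d0], by push_cast; linarith only [a0, a1, k0, k1, c0, c1, c2, d0]⟩
        ⟨by push_cast; linarith only [K0], by push_cast; linarith only [K1]⟩
        (by push_cast; linarith only [a0, a1, k0, k1, c0, c1, c2, d0]) (by linarith only [y])

end L3

end Pool.Agent.Work.MP_b30479_gtS.G2

end
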