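import Pool.Agent.Work.MP_b30479_gt.TBS.G2.ML3r
import Pool.Agent.Work.MP_b30479_gt.TBS.NumU.Tree
import Pool.Agent.Work.MP_b30479_gt.TBS.G2.MPFocD

section

/-!
# Value moves of a hinge `1 | 3e`: the end with three crossings
-/

set_option deprecated.oldSectionVars true

namespace Pool.Agent.Work.MP_b30479_gtS.G2

open Finset VOL Filter Topology

namespace L3

open NumIs (V lkR)
open NumUs NumUs.E

set_option linter.unusedTactic false

theorem v3_two_C {T h μ a : ℝ} {v : ℂ} (hT : HT .one T h) (H : MaxM v h μ) (hr : v.re = a)
    (hi : v.im = 4 * T * (6 / 10 - a)) (a0 : 5000 / 10000 ≤ a) (a1 : a ≤ 6000 / 10000)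
    (T0 : -(590 / 10000) ≤ T) (T1 : T ≤ -(300 / 10000))
    (hk : 453 / 10000 + 1 / 3 * T ≤ h) :
    Wm v (mpt h μ) ≤ tg (3 / 10) T h + uu a (4 * T * (6 / 10 - a)) -
      fr 55 400 17398 5893 19307 174738 a (-T) := by
  obtain ⟨t0, t1, h0, h1⟩ := hT
  have cv : ∀ μ : ℝ, ((q 3 10) : E).val [a, T, h, μ] = 3 / 10 := fun μ => by
    simp only [E.val]; norm_num
  have fv : ∀ μ : ℝ, (fe 55 400 17398 5893 19307 174738 (neg (var 1))).val [a, T, h, μ] = fr 55 400 17398 5893 19307 174738 a (-T) :=
    fun μ => fe_val (by simp only [E.val, lkR])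
  refine val_one ⟨t0, t1, h0, h1⟩ H hr hi (by linarith only [a0]) (by linarith only [a1]) ?_ ?_
  · intro w c
    have hc : chkT (alt3 xSL (q 3 10) (fe 55 400 17398 5893 19307 174738 (neg (var 1))) 453)
        28 2178
        [V.of 10000 5000 5200 4, V.of 10000 (-590) (-300) 4, V.of 10000 50 620 4, V.of 10000 5500 5700 4] = true := by
      decide +kernel
    exact row3_of xSL_val hc ⟨by push_cast; linarith only [a0], by push_cast; linarith only [a1, w, c]⟩
      ⟨by push_cast; linarith only [T0], by push_cast; linarith only [T1]⟩
      ⟨by push_cast; linarith only [w, a0], by push_cast; linarith only [c]⟩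
      h0 (by linarith only [h1, T1]) h1 (by push_cast; linarith only [h0, T1, hk]) w (cv μ) (fv μ)
  · intro m0 m1 w
    have hc : chkT (alt3 xSR (q 3 10) (fe 55 400 17398 5893 19307 174738 (neg (var 1))) 453)
        28 1268906284467809978249084239149334702296784493263561853648606984130597696678236469138241401266084433882208568128365906323023282043787900911928761476900939338587199875473535219883845969291070956795917771865425002720273053765420419130669589705886407761273620514031174306416684324124492547
        [V.of 10000 5000 6000 4, V.of 10000 (-590) (-300) 4, V.of 10000 50 620 4, V.of 10000 5700 7700 4] = true := by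
      decide +kernel
    exact row3_of xSR_val hc ⟨by push_cast; linarith only [a0], by push_cast; linarith only [a1]⟩
      ⟨by push_cast; linarith only [T0], by push_cast; linarith only [T1]⟩
      ⟨by push_cast; linarith only [m0], by push_cast; linarith only [m1]⟩
      h0 (by linarith only [h1, T1]) h1 (by push_cast; linarith only [h0, T1, hk]) w (cv μ) (fv μ)

theorem v3_twoE_A {T h μ a : ℝ} {v : ℂ} (hT : HT .one T h) (H : MaxM v h μ) (hr : v.re = a)
    (hi : v.im = 4 * T * (6 / 10 - a)) (a0 : 3500 / 10000 ≤ a) (a1 : a ≤ 3900 / 10000)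
    (T0 : -(780 / 10000) ≤ T) (T1 : T ≤ -(690 / 10000)) :
    Wm v (mpt h μ) ≤ tg (3 / 10) T h + uu a (4 * T * (6 / 10 - a)) -
      fr 37 735 3079 9602 817 93176 a (-T) := by
  obtain ⟨t0, t1, h0, h1⟩ := hT
  have cv : ∀ μ : ℝ, ((q 3 10) : E).val [a, T, h, μ] = 3 / 10 := fun μ => by
    simp only [E.val]; norm_num
  have fv : ∀ μ : ℝ, (fe 37 735 3079 9602 817 93176 (neg (var 1))).val [a, T, h, μ] = fr 37 735 3079 9602 817 93176 a (-T) :=
    fun μ => fe_val (by simp only [E.val, lkR])
  refine val_one ⟨t0, t1, h0, h1⟩ H hr hi (by linarith only [a0]) (by linarith only [a1]) ?_ ?_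
  · intro w c
    have hc : chkT (alt3 xSL (q 3 10) (fe 37 735 3079 9602 817 93176 (neg (var 1))) (-1000))
        28 3502373070437280035492283780167562508247748460022592179441705011
        [V.of 10000 3500 3900 4, V.of 10000 (-780) (-690) 4, V.of 10000 50 620 4, V.of 10000 4000 5700 4] = true := by
      decide +kernel
    exact row3_of xSL_val hc ⟨by push_cast; linarith only [a0], by push_cast; linarith only [a1, w, c]⟩
      ⟨by push_cast; linarith only [T0], by push_cast; linarith only [T1]⟩
      ⟨by push_cast; linarith only [w, a0], by push_cast; linarith only [c]⟩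
      h0 (by linarith only [h1, T1]) h1 (by push_cast; linarith only [h0, T1]) w (cv μ) (fv μ)
  · intro m0 m1 w
    have hc : chkT (alt3 xSR (q 3 10) (fe 37 735 3079 9602 817 93176 (neg (var 1))) (-1000))
        28 2640461785694693166219797283
        [V.of 10000 3500 3900 4, V.of 10000 (-780) (-690) 4, V.of 10000 50 620 4, V.of 10000 5700 7700 4] = true := by
      decide +kernel
    exact row3_of xSR_val hc ⟨by push_cast; linarith only [a0], by push_cast; linarith only [a1]⟩
      ⟨by push_cast; linarith only [T0], by push_cast; linarith only [T1]⟩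
      ⟨by push_cast; linarith only [m0], by push_cast; linarith only [m1]⟩
      h0 (by linarith only [h1, T1]) h1 (by push_cast; linarith only [h0, T1]) w (cv μ) (fv μ)

theorem v3_twoE_B {T h μ a : ℝ} {v : ℂ} (hT : HT .one T h) (H : MaxM v h μ) (hr : v.re = a)
    (hi : v.im = 4 * T * (6 / 10 - a)) (a0 : 3900 / 10000 ≤ a) (a1 : a ≤ 5000 / 10000)
    (T0 : -(780 / 10000) ≤ T) (T1 : T ≤ -(690 / 10000)) :
    Wm v (mpt h μ) ≤ tg (3 / 10) T h + uu a (4 * T * (6 / 10 - a)) -
      fr 45 735 11037 9968 8728 100016 a (-T) := by
  obtain ⟨t0, t1, h0, h1⟩ := hT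
  have cv : ∀ μ : ℝ, ((q 3 10) : E).val [a, T, h, μ] = 3 / 10 := fun μ => by
    simp only [E.val]; norm_num
  have fv : ∀ μ : ℝ, (fe 45 735 11037 9968 8728 100016 (neg (var 1))).val [a, T, h, μ] = fr 45 735 11037 9968 8728 100016 a (-T) :=
    fun μ => fe_val (by simp only [E.val, lkR])
  refine val_one ⟨t0, t1, h0, h1⟩ H hr hi (by linarith only [a0]) (by linarith only [a1]) ?_ ?_
  · intro w c
    have hc : chkT (alt3 xSL (q 3 10) (fe 45 735 11037 9968 8728 100016 (neg (var 1))) (-1000))
        28 209492264648773839747986994239512202263796096405193502723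
        [V.of 10000 3900 5000 4, V.of 10000 (-780) (-690) 4, V.of 10000 50 620 4, V.of 10000 4400 5700 4] = true := by
      decide +kernel
    exact row3_of xSL_val hc ⟨by push_cast; linarith only [a0], by push_cast; linarith only [a1, w, c]⟩
      ⟨by push_cast; linarith only [T0], by push_cast; linarith only [T1]⟩
      ⟨by push_cast; linarith only [w, a0], by push_cast; linarith only [c]⟩
      h0 (by linarith only [h1, T1]) h1 (by push_cast; linarith only [h0, T1]) w (cv μ) (fv μ)
  · intro m0 m1 w
    have hc : chkT (alt3 xSR (q 3 10) (fe 45 735 11037 9968 8728 100016 (neg (var 1))) (-1000))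
        28 15035673522010178535148404163648223057677385354337333864245005253961851651
        [V.of 10000 3900 5000 4, V.of 10000 (-780) (-690) 4, V.of 10000 50 620 4, V.of 10000 5700 7700 4] = true := by
      decide +kernel
    exact row3_of xSR_val hc ⟨by push_cast; linarith only [a0], by push_cast; linarith only [a1]⟩
      ⟨by push_cast; linarith only [T0], by push_cast; linarith only [T1]⟩
      ⟨by push_cast; linarith only [m0], by push_cast; linarith only [m1]⟩
      h0 (by linarith only [h1, T1]) h1 (by push_cast; linarith only [h0, T1]) w (cv μ) (fv μ)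

theorem v3_twoE_C {T h μ a : ℝ} {v : ℂ} (hT : HT .one T h) (H : MaxM v h μ) (hr : v.re = a)
    (hi : v.im = 4 * T * (6 / 10 - a)) (a0 : 5000 / 10000 ≤ a) (a1 : a ≤ 6000 / 10000)
    (T0 : -(780 / 10000) ≤ T) (T1 : T ≤ -(690 / 10000)) :
    Wm v (mpt h μ) ≤ tg (3 / 10) T h + uu a (4 * T * (6 / 10 - a)) -
      fr 55 735 20721 9678 19055 107500 a (-T) := by
  obtain ⟨t0, t1, h0, h1⟩ := hT
  have cv : ∀ μ : ℝ, ((q 3 10) : E).val [a, T, h, μ] = 3 / 10 := fun μ => by
    simp only [E.val]; norm_num
  have fv : ∀ μ : ℝ, (fe 55 735 20721 9678 19055 107500 (neg (var 1))).val [a, T, h, μ] = fr 55 735 20721 9678 19055 107500 a (-T) :=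
    fun μ => fe_val (by simp only [E.val, lkR])
  refine val_one ⟨t0, t1, h0, h1⟩ H hr hi (by linarith only [a0]) (by linarith only [a1]) ?_ ?_
  · intro w c
    have hc : chkT (alt3 xSL (q 3 10) (fe 55 735 20721 9678 19055 107500 (neg (var 1))) (-1000))
        28 8
        [V.of 10000 5000 5200 4, V.of 10000 (-780) (-690) 4, V.of 10000 50 620 4, V.of 10000 5500 5700 4] = true := by
      decide +kernel
    exact row3_of xSL_val hc ⟨by push_cast; linarith only [a0], by push_cast; linarith only [a1, w, c]⟩
      ⟨by push_cast; linarith only [T0], by push_cast; linarith only [T1]⟩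
      ⟨by push_cast; linarith only [w, a0], by push_cast; linarith only [c]⟩
      h0 (by linarith only [h1, T1]) h1 (by push_cast; linarith only [h0, T1]) w (cv μ) (fv μ)
  · intro m0 m1 w
    have hc : chkT (alt3 xSR (q 3 10) (fe 55 735 20721 9678 19055 107500 (neg (var 1))) (-1000))
        28 13674865405903039927967831361628455101043275007385142313366275
        [V.of 10000 5000 6000 4, V.of 10000 (-780) (-690) 4, V.of 10000 50 620 4, V.of 10000 5700 7700 4] = true := by
      decide +kernel
    exact row3_of xSR_val hc ⟨by push_cast; linarith only [a0], by push_cast; linarith only [a1]⟩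
      ⟨by push_cast; linarith only [T0], by push_cast; linarith only [T1]⟩
      ⟨by push_cast; linarith only [m0], by push_cast; linarith only [m1]⟩
      h0 (by linarith only [h1, T1]) h1 (by push_cast; linarith only [h0, T1]) w (cv μ) (fv μ)

end L3

end Pool.Agent.Work.MP_b30479_gtS.G2

end

section

/-!
# Part of `ML3u`
-/
set_option deprecated.oldSectionVars true

namespace Pool.Agent.Work.MP_b30479_gtS.G2

open Finset VOL Filter Topology

namespace L3

open NumIs (V lkR)
open NumUs NumUs.E

set_option linter.unusedTactic false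

theorem d1_one_C {a T k K : ℝ} (a0 : 5000 / 10000 ≤ a) (a1 : a ≤ 6000 / 10000)
    (T0 : 100 / 10000 ≤ T) (T1 : T ≤ 580 / 10000) (K0 : -(610 / 10000) ≤ K)
    (K1 : K ≤ 650 / 10000) (S0 : -(110 / 10000) ≤ T + K) (S1 : T + K ≤ 1010 / 10000)
    (k0 : 7 / 100 ≤ k) (k1 : k ≤ 7000 / 10000) :
    0 < D1 (3 / 10) a T k (K * tr 0 (80 / 100) (15 / 100) (20 / 100) k) +
      fr 55 400 16147 5733 20145 196602 a T := by
  have cv : ((q 3 10) : E).val [a, T, k, K] = 3 / 10 := by
    simp only [E.val]; norm_num
  have fv : (fe 55 400 16147 5733 20145 196602 (var 1)).val [a, T, k, K] = fr 55 400 16147 5733 20145 196602 a T :=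
    fe_val (by simp only [E.val, lkR])
  have p1 : ((q 1 1) : E).val [a, T, k, K] = 1 := by simp only [E.val]; norm_num
  have p2 : ((q (-1) 1) : E).val [a, T, k, K] = -1 := by simp only [E.val]; norm_num
  rcases le_total k (1500 / 10000) with c0 | c0
  · have e : tr 0 (80 / 100) (15 / 100) (20 / 100) k = k / (15 / 100) :=
      tr_a (by norm_num) (by norm_num) (by norm_num) (by linarith only [k0]) (by linarith only [k0, k1, c0])
    have tv : (mul (mul (q 10000 1500) (var 2)) (var 3)).val [a, T, k, K] = K * tr 0 (80 / 100) (15 / 100) (20 / 100) k := by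
      rw [e]; simp only [E.val, lkR]; push_cast; ring
    obtain ⟨y1, y2⟩ := hts (a := a) (T := T) (K := K) (r := tr 0 (80 / 100) (15 / 100) (20 / 100) k) (by linarith only [a0]) (by linarith only [a1])
      (by linarith only [T0]) (by linarith only [T1]) (tr01 _ _ _ _).1
      (tr01 _ _ _ _).2 (by linarith only [K0]) (by linarith only [K1]) (by linarith only [S1])
    have Rr : Row1 (q 3 10) (mul (mul (q 10000 1500) (var 2)) (var 3)) (gU (q 3 10) (mul (mul (q 10000 1500) (var 2)) (var 3)))
      (fe 55 400 16147 5733 20145 196602 (var 1)) a T k K (3 / 10) (K * tr 0 (80 / 100) (15 / 100) (20 / 100) k)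
      (fr 55 400 16147 5733 20145 196602 a T) (-110) 1010 :=
      ⟨cv, tv, fv, gU_le cv tv, by push_cast; linarith only [S0],
        by push_cast; linarith only [S1]⟩
    have hc : chkT (altI (q 3 10) (mul (mul (q 10000 1500) (var 2)) (var 3)) (gU (q 3 10) (mul (mul (q 10000 1500) (var 2)) (var 3))) (fe 55 400 16147 5733 20145 196602 (var 1)) (-110) 1010 9500)
        28 741315938982146997028603969756967948812848
        [V.of 10000 5000 6000 4, V.of 10000 100 580 4, V.of 10000 700 1500 4, V.of 10000 (-610) 650 4] = true := by
      decide +kernel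
    exact rowI1 Rr hc ⟨by push_cast; linarith only [a0], by push_cast; linarith only [a1]⟩
      ⟨by push_cast; linarith only [T0], by push_cast; linarith only [T1]⟩
      ⟨by push_cast; linarith only [a0, a1, k0, k1, c0], by push_cast; linarith only [a0, a1, k0, k1, c0]⟩
      ⟨by push_cast; linarith only [K0], by push_cast; linarith only [K1]⟩ (by push_cast; linarith only [a0, a1, k0, k1, c0])
  rcases le_total k (6000 / 10000) with c1 | c1
  · have e : tr 0 (80 / 100) (15 / 100) (20 / 100) k = 1 :=
      tr_b (by norm_num) (by norm_num) (by linarith only [k0, k1, c0, c1]) (by linarith only [k0, k1, c0, c1])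
    have tv : (var 3).val [a, T, k, K] = K * tr 0 (80 / 100) (15 / 100) (20 / 100) k := by
      rw [e]; simp only [E.val, lkR]; ring
    obtain ⟨y1, y2⟩ := hts (a := a) (T := T) (K := K) (r := tr 0 (80 / 100) (15 / 100) (20 / 100) k) (by linarith only [a0]) (by linarith only [a1])
      (by linarith only [T0]) (by linarith only [T1]) (tr01 _ _ _ _).1
      (tr01 _ _ _ _).2 (by linarith only [K0]) (by linarith only [K1]) (by linarith only [S1])
    have Rr : Row1 (q 3 10) (var 3) (gU (q 3 10) (var 3))
      (fe 55 400 16147 5733 20145 196602 (var 1)) a T k K (3 / 10) (K * tr 0 (80 / 100) (15 / 100) (20 / 100) k)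
      (fr 55 400 16147 5733 20145 196602 a T) (-110) 1010 :=
      ⟨cv, tv, fv, gU_le cv tv, by push_cast; linarith only [S0],
        by push_cast; linarith only [S1]⟩
    rcases le_total (a + k) (95 / 100) with d0 | d0
    · have hc : chkT (altI (q 3 10) (var 3) (gU (q 3 10) (var 3)) (fe 55 400 16147 5733 20145 196602 (var 1)) (-110) 1010 9500)
          28 9376173700707948301360848564471823377090216158906782243564367971165916767760887545723224379647275925150330816839181588508581332002505340269776875554
          [V.of 10000 5000 6000 4, V.of 10000 100 580 4, V.of 10000 1500 4500 4, V.of 10000 (-610) 650 4] = true := by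
        decide +kernel
      exact rowI1 Rr hc ⟨by push_cast; linarith only [a0], by push_cast; linarith only [a1]⟩
        ⟨by push_cast; linarith only [T0], by push_cast; linarith only [T1]⟩
        ⟨by push_cast; linarith only [a0, a1, k0, k1, c0, c1, d0], by push_cast; linarith only [a0, a1, k0, k1, c0, c1, d0]⟩
        ⟨by push_cast; linarith only [K0], by push_cast; linarith only [K1]⟩ (by push_cast; linarith only [a0, a1, k0, k1, c0, c1, d0])
    · rcases le_total (a + k) (1) with d1 | d1
      · rcases le_total 0 (4 * T * (6 / 10 - a) + K * tr 0 (80 / 100) (15 / 100) (20 / 100) k) with y | y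
        · have hc : chkT (altN (q 3 10) (var 3) (gU (q 3 10) (var 3)) (fe 55 400 16147 5733 20145 196602 (var 1)) (q 1 1) (-110) 1010)
              28 2989903352406779751186887170
              [V.of 10000 5000 6000 4, V.of 10000 100 580 4, V.of 10000 3500 5000 4, V.of 10000 (-610) 650 4] = true := by
            decide +kernel
          exact rowN1 Rr p1 (Or.inl rfl) hc ⟨by push_cast; linarith only [a0], by push_cast; linarith only [a1]⟩
            ⟨by push_cast; linarith only [T0], by push_cast; linarith only [T1]⟩
            ⟨by push_cast; linarith only [a0, a1, k0, k1, c0, c1, d0, d1], by push_cast; linarith only [a0, a1, k0, k1, c0, c1, d0, d1]⟩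
            ⟨by push_cast; linarith only [K0], by push_cast; linarith only [K1]⟩
            (by push_cast; linarith only [a0, a1, k0, k1, c0, c1, d0, d1]) (by push_cast; linarith only [a0, a1, k0, k1, c0, c1, d0, d1]) (by linarith only [y])
        · have hc : chkT (altN (q 3 10) (var 3) (gU (q 3 10) (var 3)) (fe 55 400 16147 5733 20145 196602 (var 1)) (q (-1) 1) (-110) 1010)
              28 177926688
              [V.of 10000 5000 6000 4, V.of 10000 100 580 4, V.of 10000 3500 5000 4, V.of 10000 (-610) 650 4] = true := by
            decide +kernel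
          exact rowN1 Rr p2 (Or.inr rfl) hc ⟨by push_cast; linarith only [a0], by push_cast; linarith only [a1]⟩
            ⟨by push_cast; linarith only [T0], by push_cast; linarith only [T1]⟩
            ⟨by push_cast; linarith only [a0, a1, k0, k1, c0, c1, d0, d1], by push_cast; linarith only [a0, a1, k0, k1, c0, c1, d0, d1]⟩
            ⟨by push_cast; linarith only [K0], by push_cast; linarith only [K1]⟩
            (by push_cast; linarith only [a0, a1, k0, k1, c0, c1, d0, d1]) (by push_cast; linarith only [a0, a1, k0, k1, c0, c1, d0, d1]) (by linarith only [y])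
      · rcases le_total (a + k) (107 / 100) with d2 | d2
        · rcases le_total 0 (4 * T * (6 / 10 - a) + K * tr 0 (80 / 100) (15 / 100) (20 / 100) k) with y | y
          · have hc : chkT (altH (q 3 10) (var 3) (gU (q 3 10) (var 3)) (fe 55 400 16147 5733 20145 196602 (var 1)) (q 1 1) (-110) 1010)
                28 9
                [V.of 10000 5000 6000 4, V.of 10000 100 580 4, V.of 10000 4000 5700 4, V.of 10000 (-610) 650 4] = true := by
              decide +kernel
            exact rowH1 Rr p1 (Or.inl rfl) hc ⟨by push_cast; linarith only [a0], by push_cast; linarith only [a1]⟩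
              ⟨by push_cast; linarith only [T0], by push_cast; linarith only [T1]⟩
              ⟨by push_cast; linarith only [a0, a1, k0, k1, c0, c1, d0, d1, d2], by push_cast; linarith only [a0, a1, k0, k1, c0, c1, d0, d1, d2]⟩
              ⟨by push_cast; linarith only [K0], by push_cast; linarith only [K1]⟩
              (by push_cast; linarith only [a0, a1, k0, k1, c0, c1, d0, d1, d2]) (by push_cast; linarith only [a0, a1, k0, k1, c0, c1, d0, d1, d2]) (by linarith only [y]) (by linarith only [(abs_le.1 y1).1, (abs_le.1 y1).2])
          · have hc : chkT (altH (q 3 10) (var 3) (gU (q 3 10) (var 3)) (fe 55 400 16147 5733 20145 196602 (var 1)) (q (-1) 1) (-110) 1010)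
                28 9
                [V.of 10000 5000 6000 4, V.of 10000 100 580 4, V.of 10000 4000 5700 4, V.of 10000 (-610) 650 4] = true := by
              decide +kernel
            exact rowH1 Rr p2 (Or.inr rfl) hc ⟨by push_cast; linarith only [a0], by push_cast; linarith only [a1]⟩
              ⟨by push_cast; linarith only [T0], by push_cast; linarith only [T1]⟩
              ⟨by push_cast; linarith only [a0, a1, k0, k1, c0, c1, d0, d1, d2], by push_cast; linarith only [a0, a1, k0, k1, c0, c1, d0, d1, d2]⟩
              ⟨by push_cast; linarith only [K0], by push_cast; linarith only [K1]⟩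
              (by push_cast; linarith only [a0, a1, k0, k1, c0, c1, d0, d1, d2]) (by push_cast; linarith only [a0, a1, k0, k1, c0, c1, d0, d1, d2]) (by linarith only [y]) (by linarith only [(abs_le.1 y1).1, (abs_le.1 y1).2])
        · rcases le_total 0 (4 * T * (6 / 10 - a) + K * tr 0 (80 / 100) (15 / 100) (20 / 100) k) with y | y
          · have hc : chkT (altB (q 3 10) (var 3) (gU (q 3 10) (var 3)) (fe 55 400 16147 5733 20145 196602 (var 1)) (q 1 1) (-110) 1010)
                28 2640483779979546777983435266
                [V.of 10000 5000 6000 4, V.of 10000 100 580 4, V.of 10000 4700 6000 4, V.of 10000 (-610) 650 4] = true := by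
              decide +kernel
            exact rowB1 Rr p1 (Or.inl rfl) hc ⟨by push_cast; linarith only [a0], by push_cast; linarith only [a1]⟩
              ⟨by push_cast; linarith only [T0], by push_cast; linarith only [T1]⟩
              ⟨by push_cast; linarith only [a0, a1, k0, k1, c0, c1, d0, d1, d2], by push_cast; linarith only [a0, a1, k0, k1, c0, c1, d0, d1, d2]⟩
              ⟨by push_cast; linarith only [K0], by push_cast; linarith only [K1]⟩
              (by push_cast; linarith only [a0, a1, k0, k1, c0, c1, d0, d1, d2]) (by linarith only [y])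
          · have hc : chkT (altB (q 3 10) (var 3) (gU (q 3 10) (var 3)) (fe 55 400 16147 5733 20145 196602 (var 1)) (q (-1) 1) (-110) 1010)
                28 10314543680469179763311106
                [V.of 10000 5000 6000 4, V.of 10000 100 580 4, V.of 10000 4700 6000 4, V.of 10000 (-610) 650 4] = true := by
              decide +kernel
            exact rowB1 Rr p2 (Or.inr rfl) hc ⟨by push_cast; linarith only [a0], by push_cast; linarith only [a1]⟩
              ⟨by push_cast; linarith only [T0], by push_cast; linarith only [T1]⟩
              ⟨by push_cast; linarith only [a0, a1, k0, k1, c0, c1, d0, d1, d2], by push_cast; linarith only [a0, a1, k0, k1, c0, c1, d0, d1, d2]⟩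
              ⟨by push_cast; linarith only [K0], by push_cast; linarith only [K1]⟩
              (by push_cast; linarith only [a0, a1, k0, k1, c0, c1, d0, d1, d2]) (by linarith only [y])
  rcases le_total k (6600 / 10000) with c2 | c2
  · have e : tr 0 (80 / 100) (15 / 100) (20 / 100) k = (80 / 100 - k) / (20 / 100) :=
      tr_c (by norm_num) (by norm_num) (by norm_num) (by linarith only [k0, k1, c0, c1, c2]) (by linarith only [k0, k1, c0, c1, c2])
    have tv : (mul (mul (q 10000 2000) (sub (q 8000 10000) (var 2))) (var 3)).val [a, T, k, K] = K * tr 0 (80 / 100) (15 / 100) (20 / 100) k := by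
      rw [e]; simp only [E.val, lkR]; push_cast; ring
    obtain ⟨y1, y2⟩ := hts (a := a) (T := T) (K := K) (r := tr 0 (80 / 100) (15 / 100) (20 / 100) k) (by linarith only [a0]) (by linarith only [a1])
      (by linarith only [T0]) (by linarith only [T1]) (tr01 _ _ _ _).1
      (tr01 _ _ _ _).2 (by linarith only [K0]) (by linarith only [K1]) (by linarith only [S1])
    have Rr : Row1 (q 3 10) (mul (mul (q 10000 2000) (sub (q 8000 10000) (var 2))) (var 3)) (gU (q 3 10) (mul (mul (q 10000 2000) (sub (q 8000 10000) (var 2))) (var 3)))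
      (fe 55 400 16147 5733 20145 196602 (var 1)) a T k K (3 / 10) (K * tr 0 (80 / 100) (15 / 100) (20 / 100) k)
      (fr 55 400 16147 5733 20145 196602 a T) (-110) 1010 :=
      ⟨cv, tv, fv, gU_le cv tv, by push_cast; linarith only [S0],
        by push_cast; linarith only [S1]⟩
    rcases le_total 0 (4 * T * (6 / 10 - a) + K * tr 0 (80 / 100) (15 / 100) (20 / 100) k) with y | y
    · have hc : chkT (altB (q 3 10) (mul (mul (q 10000 2000) (sub (q 8000 10000) (var 2))) (var 3)) (gU (q 3 10) (mul (mul (q 10000 2000) (sub (q 8000 10000) (var 2))) (var 3))) (fe 55 400 16147 5733 20145 196602 (var 1)) (q 1 1) (-110) 1010)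
          28 2179
          [V.of 10000 5000 6000 4, V.of 10000 100 580 4, V.of 10000 6000 6600 4, V.of 10000 (-610) 650 4] = true := by
        decide +kernel
      exact rowB1 Rr p1 (Or.inl rfl) hc ⟨by push_cast; linarith only [a0], by push_cast; linarith only [a1]⟩
        ⟨by push_cast; linarith only [T0], by push_cast; linarith only [T1]⟩
        ⟨by push_cast; linarith only [a0, a1, k0, k1, c0, c1, c2], by push_cast; linarith only [a0, a1, k0, k1, c0, c1, c2]⟩
        ⟨by push_cast; linarith only [K0], by push_cast; linarith only [K1]⟩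
        (by push_cast; linarith only [a0, a1, k0, k1, c0, c1, c2]) (by linarith only [y])
    · have hc : chkT (altB (q 3 10) (mul (mul (q 10000 2000) (sub (q 8000 10000) (var 2))) (var 3)) (gU (q 3 10) (mul (mul (q 10000 2000) (sub (q 8000 10000) (var 2))) (var 3))) (fe 55 400 16147 5733 20145 196602 (var 1)) (q (-1) 1) (-110) 1010)
          28 2179
          [V.of 10000 5000 6000 4, V.of 10000 100 580 4, V.of 10000 6000 6600 4, V.of 10000 (-610) 650 4] = true := by
        decide +kernel
      exact rowB1 Rr p2 (Or.inr rfl) hc ⟨by push_cast; linarith only [a0], by push_cast; linarith only [a1]⟩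
        ⟨by push_cast; linarith only [T0], by push_cast; linarith only [T1]⟩
        ⟨by push_cast; linarith only [a0, a1, k0, k1, c0, c1, c2], by push_cast; linarith only [a0, a1, k0, k1, c0, c1, c2]⟩
        ⟨by push_cast; linarith only [K0], by push_cast; linarith only [K1]⟩
        (by push_cast; linarith only [a0, a1, k0, k1, c0, c1, c2]) (by linarith only [y])
  have e : tr 0 (80 / 100) (15 / 100) (20 / 100) k = (80 / 100 - k) / (20 / 100) :=
    tr_c (by norm_num) (by norm_num) (by norm_num) (by linarith only [k0, k1, c0, c1, c2]) (by linarith only [k0, k1, c0, c1, c2])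
  have tv : (mul (mul (q 10000 2000) (sub (q 8000 10000) (var 2))) (var 3)).val [a, T, k, K] = K * tr 0 (80 / 100) (15 / 100) (20 / 100) k := by
    rw [e]; simp only [E.val, lkR]; push_cast; ring
  obtain ⟨y1, y2⟩ := hts (a := a) (T := T) (K := K) (r := tr 0 (80 / 100) (15 / 100) (20 / 100) k) (by linarith only [a0]) (by linarith only [a1])
    (by linarith only [T0]) (by linarith only [T1]) (tr01 _ _ _ _).1
    (tr01 _ _ _ _).2 (by linarith only [K0]) (by linarith only [K1]) (by linarith only [S1])
  have Rr : Row1 (q 3 10) (mul (mul (q 10000 2000) (sub (q 8000 10000) (var 2))) (var 3)) (gL (mul (mul (q 10000 2000) (sub (q 8000 10000) (var 2))) (var 3)))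
    (fe 55 400 16147 5733 20145 196602 (var 1)) a T k K (3 / 10) (K * tr 0 (80 / 100) (15 / 100) (20 / 100) k)
    (fr 55 400 16147 5733 20145 196602 a T) (-110) 1010 :=
    ⟨cv, tv, fv, gL_le tv (by linarith only [k0, k1, c0, c1, c2]) (by linarith only [k1]) y2, by push_cast; linarith only [S0],
      by push_cast; linarith only [S1]⟩
  rcases le_total 0 (4 * T * (6 / 10 - a) + K * tr 0 (80 / 100) (15 / 100) (20 / 100) k) with y | y
  · have hc : chkT (altB (q 3 10) (mul (mul (q 10000 2000) (sub (q 8000 10000) (var 2))) (var 3)) (gL (mul (mul (q 10000 2000) (sub (q 8000 10000) (var 2))) (var 3))) (fe 55 400 16147 5733 20145 196602 (var 1)) (q 1 1) (-110) 1010)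
        28 8
        [V.of 10000 5000 6000 4, V.of 10000 100 580 4, V.of 10000 6600 7000 4, V.of 10000 (-610) 650 4] = true := by
      decide +kernel
    exact rowB1 Rr p1 (Or.inl rfl) hc ⟨by push_cast; linarith only [a0], by push_cast; linarith only [a1]⟩
      ⟨by push_cast; linarith only [T0], by push_cast; linarith only [T1]⟩
      ⟨by push_cast; linarith only [a0, a1, k0, k1, c0, c1, c2], by push_cast; linarith only [a0, a1, k0, k1, c0, c1, c2]⟩
      ⟨by push_cast; linarith only [K0], by push_cast; linarith only [K1]⟩
      (by push_cast; linarith only [a0, a1, k0, k1, c0, c1, c2]) (by linarith only [y])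
  · have hc : chkT (altB (q 3 10) (mul (mul (q 10000 2000) (sub (q 8000 10000) (var 2))) (var 3)) (gL (mul (mul (q 10000 2000) (sub (q 8000 10000) (var 2))) (var 3))) (fe 55 400 16147 5733 20145 196602 (var 1)) (q (-1) 1) (-110) 1010)
        28 8
        [V.of 10000 5000 6000 4, V.of 10000 100 580 4, V.of 10000 6600 7000 4, V.of 10000 (-610) 650 4] = true := by
      decide +kernel
    exact rowB1 Rr p2 (Or.inr rfl) hc ⟨by push_cast; linarith only [a0], by push_cast; linarith only [a1]⟩
      ⟨by push_cast; linarith only [T0], by push_cast; linarith only [T1]⟩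
      ⟨by push_cast; linarith only [a0, a1, k0, k1, c0, c1, c2], by push_cast; linarith only [a0, a1, k0, k1, c0, c1, c2]⟩
      ⟨by push_cast; linarith only [K0], by push_cast; linarith only [K1]⟩
      (by push_cast; linarith only [a0, a1, k0, k1, c0, c1, c2]) (by linarith only [y])

end L3

end Pool.Agent.Work.MP_b30479_gtS.G2

end

section

/-!
# Value moves of a hinge `1 | 3e`: the digit `1`, other neighbour of class `twoE`
-/

set_option deprecated.oldSectionVars true

namespace Pool.Agent.Work.MP_b30479_gtS.G2

open Finset VOL Filter Topology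

namespace L3

open NumIs (V lkR)
open NumUs NumUs.E

set_option linter.unusedTactic false

theorem d1_twoE_A {a T k K : ℝ} (a0 : 3500 / 10000 ≤ a) (a1 : a ≤ 3900 / 10000)
    (T0 : 690 / 10000 ≤ T) (T1 : T ≤ 780 / 10000) (K0 : -(240 / 10000) ≤ K)
    (K1 : K ≤ -(110 / 10000)) (S0 : 510 / 10000 ≤ T + K) (S1 : T + K ≤ 640 / 10000)
    (k0 : 7 / 100 ≤ k) (k1 : k ≤ 7000 / 10000) :
    0 < D1 (3 / 10) a T k (K * tr 0 (70 / 100) (14 / 100) (35 / 100) k) +
      fr 37 735 3079 9602 817 93176 a T := by
  have cv : ((q 3 10) : E).val [a, T, k, K] = 3 / 10 := by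
    simp only [E.val]; norm_num
  have fv : (fe 37 735 3079 9602 817 93176 (var 1)).val [a, T, k, K] = fr 37 735 3079 9602 817 93176 a T :=
    fe_val (by simp only [E.val, lkR])
  have p1 : ((q 1 1) : E).val [a, T, k, K] = 1 := by simp only [E.val]; norm_num
  have p2 : ((q (-1) 1) : E).val [a, T, k, K] = -1 := by simp only [E.val]; norm_num
  rcases le_total k (1400 / 10000) with c0 | c0
  · have e : tr 0 (70 / 100) (14 / 100) (35 / 100) k = k / (14 / 100) :=
      tr_a (by norm_num) (by norm_num) (by norm_num) (by linarith only [k0]) (by linarith only [k0, k1, c0])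
    have tv : (mul (mul (q 10000 1400) (var 2)) (var 3)).val [a, T, k, K] = K * tr 0 (70 / 100) (14 / 100) (35 / 100) k := by
      rw [e]; simp only [E.val, lkR]; push_cast; ring
    obtain ⟨y1, y2⟩ := hts (a := a) (T := T) (K := K) (r := tr 0 (70 / 100) (14 / 100) (35 / 100) k) (by linarith only [a0]) (by linarith only [a1])
      (by linarith only [T0]) (by linarith only [T1]) (tr01 _ _ _ _).1
      (tr01 _ _ _ _).2 (by linarith only [K0]) (by linarith only [K1]) (by linarith only [S1])
    have Rr : Row1 (q 3 10) (mul (mul (q 10000 1400) (var 2)) (var 3)) (gU (q 3 10) (mul (mul (q 10000 1400) (var 2)) (var 3)))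
      (fe 37 735 3079 9602 817 93176 (var 1)) a T k K (3 / 10) (K * tr 0 (70 / 100) (14 / 100) (35 / 100) k)
      (fr 37 735 3079 9602 817 93176 a T) 510 640 :=
      ⟨cv, tv, fv, gU_le cv tv, by push_cast; linarith only [S0],
        by push_cast; linarith only [S1]⟩
    have hc : chkT (altI (q 3 10) (mul (mul (q 10000 1400) (var 2)) (var 3)) (gU (q 3 10) (mul (mul (q 10000 1400) (var 2)) (var 3))) (fe 37 735 3079 9602 817 93176 (var 1)) 510 640 9500)
        28 2178
        [V.of 10000 3500 3900 4, V.of 10000 690 780 4, V.of 10000 700 1400 4, V.of 10000 (-240) (-110) 4] = true := by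
      decide +kernel
    exact rowI1 Rr hc ⟨by push_cast; linarith only [a0], by push_cast; linarith only [a1]⟩
      ⟨by push_cast; linarith only [T0], by push_cast; linarith only [T1]⟩
      ⟨by push_cast; linarith only [a0, a1, k0, k1, c0], by push_cast; linarith only [a0, a1, k0, k1, c0]⟩
      ⟨by push_cast; linarith only [K0], by push_cast; linarith only [K1]⟩ (by push_cast; linarith only [a0, a1, k0, k1, c0])
  rcases le_total k (3500 / 10000) with c1 | c1
  · have e : tr 0 (70 / 100) (14 / 100) (35 / 100) k = 1 :=
      tr_b (by norm_num) (by norm_num) (by linarith only [k0, k1, c0, c1]) (by linarith only [k0, k1, c0, c1])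
    have tv : (var 3).val [a, T, k, K] = K * tr 0 (70 / 100) (14 / 100) (35 / 100) k := by
      rw [e]; simp only [E.val, lkR]; ring
    obtain ⟨y1, y2⟩ := hts (a := a) (T := T) (K := K) (r := tr 0 (70 / 100) (14 / 100) (35 / 100) k) (by linarith only [a0]) (by linarith only [a1])
      (by linarith only [T0]) (by linarith only [T1]) (tr01 _ _ _ _).1
      (tr01 _ _ _ _).2 (by linarith only [K0]) (by linarith only [K1]) (by linarith only [S1])
    have Rr : Row1 (q 3 10) (var 3) (gU (q 3 10) (var 3))
      (fe 37 735 3079 9602 817 93176 (var 1)) a T k K (3 / 10) (K * tr 0 (70 / 100) (14 / 100) (35 / 100) k)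
      (fr 37 735 3079 9602 817 93176 a T) 510 640 :=
      ⟨cv, tv, fv, gU_le cv tv, by push_cast; linarith only [S0],
        by push_cast; linarith only [S1]⟩
    have hc : chkT (altI (q 3 10) (var 3) (gU (q 3 10) (var 3)) (fe 37 735 3079 9602 817 93176 (var 1)) 510 640 9500)
        28 2395321020219906
        [V.of 10000 3500 3900 4, V.of 10000 690 780 4, V.of 10000 1400 3500 4, V.of 10000 (-240) (-110) 4] = true := by
      decide +kernel
    exact rowI1 Rr hc ⟨by push_cast; linarith only [a0], by push_cast; linarith only [a1]⟩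
      ⟨by push_cast; linarith only [T0], by push_cast; linarith only [T1]⟩
      ⟨by push_cast; linarith only [a0, a1, k0, k1, c0, c1], by push_cast; linarith only [a0, a1, k0, k1, c0, c1]⟩
      ⟨by push_cast; linarith only [K0], by push_cast; linarith only [K1]⟩ (by push_cast; linarith only [a0, a1, k0, k1, c0, c1])
  rcases le_total k (6600 / 10000) with c2 | c2
  · have e : tr 0 (70 / 100) (14 / 100) (35 / 100) k = (70 / 100 - k) / (35 / 100) :=
      tr_c (by norm_num) (by norm_num) (by norm_num) (by linarith only [k0, k1, c0, c1, c2]) (by linarith only [k0, k1, c0, c1, c2])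
    have tv : (mul (mul (q 10000 3500) (sub (q 7000 10000) (var 2))) (var 3)).val [a, T, k, K] = K * tr 0 (70 / 100) (14 / 100) (35 / 100) k := by
      rw [e]; simp only [E.val, lkR]; push_cast; ring
    obtain ⟨y1, y2⟩ := hts (a := a) (T := T) (K := K) (r := tr 0 (70 / 100) (14 / 100) (35 / 100) k) (by linarith only [a0]) (by linarith only [a1])
      (by linarith only [T0]) (by linarith only [T1]) (tr01 _ _ _ _).1
      (tr01 _ _ _ _).2 (by linarith only [K0]) (by linarith only [K1]) (by linarith only [S1])
    have Rr : Row1 (q 3 10) (mul (mul (q 10000 3500) (sub (q 7000 10000) (var 2))) (var 3)) (gU (q 3 10) (mul (mul (q 10000 3500) (sub (q 7000 10000) (var 2))) (var 3)))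
      (fe 37 735 3079 9602 817 93176 (var 1)) a T k K (3 / 10) (K * tr 0 (70 / 100) (14 / 100) (35 / 100) k)
      (fr 37 735 3079 9602 817 93176 a T) 510 640 :=
      ⟨cv, tv, fv, gU_le cv tv, by push_cast; linarith only [S0],
        by push_cast; linarith only [S1]⟩
    rcases le_total (a + k) (95 / 100) with d0 | d0
    · have hc : chkT (altI (q 3 10) (mul (mul (q 10000 3500) (sub (q 7000 10000) (var 2))) (var 3)) (gU (q 3 10) (mul (mul (q 10000 3500) (sub (q 7000 10000) (var 2))) (var 3))) (fe 37 735 3079 9602 817 93176 (var 1)) 510 640 9500)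
          28 2395321020219938
          [V.of 10000 3500 3900 4, V.of 10000 690 780 4, V.of 10000 3500 6000 4, V.of 10000 (-240) (-110) 4] = true := by
        decide +kernel
      exact rowI1 Rr hc ⟨by push_cast; linarith only [a0], by push_cast; linarith only [a1]⟩
        ⟨by push_cast; linarith only [T0], by push_cast; linarith only [T1]⟩
        ⟨by push_cast; linarith only [a0, a1, k0, k1, c0, c1, c2, d0], by push_cast; linarith only [a0, a1, k0, k1, c0, c1, c2, d0]⟩
        ⟨by push_cast; linarith only [K0], by push_cast; linarith only [K1]⟩ (by push_cast; linarith only [a0, a1, k0, k1, c0, c1, c2, d0])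
    · rcases le_total (a + k) (1) with d1 | d1
      · rcases le_total 0 (4 * T * (6 / 10 - a) + K * tr 0 (70 / 100) (14 / 100) (35 / 100) k) with y | y
        · have hc : chkT (altN (q 3 10) (mul (mul (q 10000 3500) (sub (q 7000 10000) (var 2))) (var 3)) (gU (q 3 10) (mul (mul (q 10000 3500) (sub (q 7000 10000) (var 2))) (var 3))) (fe 37 735 3079 9602 817 93176 (var 1)) (q 1 1) 510 640)
              28 2703157971396610
              [V.of 10000 3500 3900 4, V.of 10000 690 780 4, V.of 10000 5600 6500 4, V.of 10000 (-240) (-110) 4] = true := by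
            decide +kernel
          exact rowN1 Rr p1 (Or.inl rfl) hc ⟨by push_cast; linarith only [a0], by push_cast; linarith only [a1]⟩
            ⟨by push_cast; linarith only [T0], by push_cast; linarith only [T1]⟩
            ⟨by push_cast; linarith only [a0, a1, k0, k1, c0, c1, c2, d0, d1], by push_cast; linarith only [a0, a1, k0, k1, c0, c1, c2, d0, d1]⟩
            ⟨by push_cast; linarith only [K0], by push_cast; linarith only [K1]⟩
            (by push_cast; linarith only [a0, a1, k0, k1, c0, c1, c2, d0, d1]) (by push_cast; linarith only [a0, a1, k0, k1, c0, c1, c2, d0, d1]) (by linarith only [y])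
        · have hc : chkT (altN (q 3 10) (mul (mul (q 10000 3500) (sub (q 7000 10000) (var 2))) (var 3)) (gU (q 3 10) (mul (mul (q 10000 3500) (sub (q 7000 10000) (var 2))) (var 3))) (fe 37 735 3079 9602 817 93176 (var 1)) (q (-1) 1) 510 640)
              28 9
              [V.of 10000 3500 3900 4, V.of 10000 690 780 4, V.of 10000 5600 6500 4, V.of 10000 (-240) (-110) 4] = true := by
            decide +kernel
          exact rowN1 Rr p2 (Or.inr rfl) hc ⟨by push_cast; linarith only [a0], by push_cast; linarith only [a1]⟩
            ⟨by push_cast; linarith only [T0], by push_cast; linarith only [T1]⟩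
            ⟨by push_cast; linarith only [a0, a1, k0, k1, c0, c1, c2, d0, d1], by push_cast; linarith only [a0, a1, k0, k1, c0, c1, c2, d0, d1]⟩
            ⟨by push_cast; linarith only [K0], by push_cast; linarith only [K1]⟩
            (by push_cast; linarith only [a0, a1, k0, k1, c0, c1, c2, d0, d1]) (by push_cast; linarith only [a0, a1, k0, k1, c0, c1, c2, d0, d1]) (by linarith only [y])
      · rcases le_total 0 (4 * T * (6 / 10 - a) + K * tr 0 (70 / 100) (14 / 100) (35 / 100) k) with y | y
        · have hc : chkT (altH (q 3 10) (mul (mul (q 10000 3500) (sub (q 7000 10000) (var 2))) (var 3)) (gU (q 3 10) (mul (mul (q 10000 3500) (sub (q 7000 10000) (var 2))) (var 3))) (fe 37 735 3079 9602 817 93176 (var 1)) (q 1 1) 510 640)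
              28 9
              [V.of 10000 3500 3900 4, V.of 10000 690 780 4, V.of 10000 6100 6600 4, V.of 10000 (-240) (-110) 4] = true := by
            decide +kernel
          exact rowH1 Rr p1 (Or.inl rfl) hc ⟨by push_cast; linarith only [a0], by push_cast; linarith only [a1]⟩
            ⟨by push_cast; linarith only [T0], by push_cast; linarith only [T1]⟩
            ⟨by push_cast; linarith only [a0, a1, k0, k1, c0, c1, c2, d0, d1], by push_cast; linarith only [a0, a1, k0, k1, c0, c1, c2, d0, d1]⟩
            ⟨by push_cast; linarith only [K0], by push_cast; linarith only [K1]⟩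
            (by push_cast; linarith only [a0, a1, k0, k1, c0, c1, c2, d0, d1]) (by push_cast; linarith only [a0, a1, k0, k1, c0, c1, c2, d0, d1]) (by linarith only [y]) (by linarith only [(abs_le.1 y1).1, (abs_le.1 y1).2])
        · have hc : chkT (altH (q 3 10) (mul (mul (q 10000 3500) (sub (q 7000 10000) (var 2))) (var 3)) (gU (q 3 10) (mul (mul (q 10000 3500) (sub (q 7000 10000) (var 2))) (var 3))) (fe 37 735 3079 9602 817 93176 (var 1)) (q (-1) 1) 510 640)
              28 9
              [V.of 10000 3500 3900 4, V.of 10000 690 780 4, V.of 10000 6100 6600 4, V.of 10000 (-240) (-110) 4] = true := by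
            decide +kernel
          exact rowH1 Rr p2 (Or.inr rfl) hc ⟨by push_cast; linarith only [a0], by push_cast; linarith only [a1]⟩
            ⟨by push_cast; linarith only [T0], by push_cast; linarith only [T1]⟩
            ⟨by push_cast; linarith only [a0, a1, k0, k1, c0, c1, c2, d0, d1], by push_cast; linarith only [a0, a1, k0, k1, c0, c1, c2, d0, d1]⟩
            ⟨by push_cast; linarith only [K0], by push_cast; linarith only [K1]⟩
            (by push_cast; linarith only [a0, a1, k0, k1, c0, c1, c2, d0, d1]) (by push_cast; linarith only [a0, a1, k0, k1, c0, c1, c2, d0, d1]) (by linarith only [y]) (by linarith only [(abs_le.1 y1).1, (abs_le.1 y1).2])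
  have e : tr 0 (70 / 100) (14 / 100) (35 / 100) k = (70 / 100 - k) / (35 / 100) :=
    tr_c (by norm_num) (by norm_num) (by norm_num) (by linarith only [k0, k1, c0, c1, c2]) (by linarith only [k0, k1, c0, c1, c2])
  have tv : (mul (mul (q 10000 3500) (sub (q 7000 10000) (var 2))) (var 3)).val [a, T, k, K] = K * tr 0 (70 / 100) (14 / 100) (35 / 100) k := by
    rw [e]; simp only [E.val, lkR]; push_cast; ring
  obtain ⟨y1, y2⟩ := hts (a := a) (T := T) (K := K) (r := tr 0 (70 / 100) (14 / 100) (35 / 100) k) (by linarith only [a0]) (by linarith only [a1])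
    (by linarith only [T0]) (by linarith only [T1]) (tr01 _ _ _ _).1
    (tr01 _ _ _ _).2 (by linarith only [K0]) (by linarith only [K1]) (by linarith only [S1])
  have Rr : Row1 (q 3 10) (mul (mul (q 10000 3500) (sub (q 7000 10000) (var 2))) (var 3)) (gL (mul (mul (q 10000 3500) (sub (q 7000 10000) (var 2))) (var 3)))
    (fe 37 735 3079 9602 817 93176 (var 1)) a T k K (3 / 10) (K * tr 0 (70 / 100) (14 / 100) (35 / 100) k)
    (fr 37 735 3079 9602 817 93176 a T) 510 640 :=
    ⟨cv, tv, fv, gL_le tv (by linarith only [k0, k1, c0, c1, c2]) (by linarith only [k1]) y2, by push_cast; linarith only [S0],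
      by push_cast; linarith only [S1]⟩
  rcases le_total (a + k) (107 / 100) with d0 | d0
  · rcases le_total 0 (4 * T * (6 / 10 - a) + K * tr 0 (70 / 100) (14 / 100) (35 / 100) k) with y | y
    · have hc : chkT (altH (q 3 10) (mul (mul (q 10000 3500) (sub (q 7000 10000) (var 2))) (var 3)) (gL (mul (mul (q 10000 3500) (sub (q 7000 10000) (var 2))) (var 3))) (fe 37 735 3079 9602 817 93176 (var 1)) (q 1 1) 510 640)
          28 9
          [V.of 10000 3500 3900 4, V.of 10000 690 780 4, V.of 10000 6600 7000 4, V.of 10000 (-240) (-110) 4] = true := by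
        decide +kernel
      exact rowH1 Rr p1 (Or.inl rfl) hc ⟨by push_cast; linarith only [a0], by push_cast; linarith only [a1]⟩
        ⟨by push_cast; linarith only [T0], by push_cast; linarith only [T1]⟩
        ⟨by push_cast; linarith only [a0, a1, k0, k1, c0, c1, c2, d0], by push_cast; linarith only [a0, a1, k0, k1, c0, c1, c2, d0]⟩
        ⟨by push_cast; linarith only [K0], by push_cast; linarith only [K1]⟩
        (by push_cast; linarith only [a0, a1, k0, k1, c0, c1, c2, d0]) (by push_cast; linarith only [a0, a1, k0, k1, c0, c1, c2, d0]) (by linarith only [y]) (by linarith only [(abs_le.1 y1).1, (abs_le.1 y1).2])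
    · have hc : chkT (altH (q 3 10) (mul (mul (q 10000 3500) (sub (q 7000 10000) (var 2))) (var 3)) (gL (mul (mul (q 10000 3500) (sub (q 7000 10000) (var 2))) (var 3))) (fe 37 735 3079 9602 817 93176 (var 1)) (q (-1) 1) 510 640)
          28 9
          [V.of 10000 3500 3900 4, V.of 10000 690 780 4, V.of 10000 6600 7000 4, V.of 10000 (-240) (-110) 4] = true := by
        decide +kernel
      exact rowH1 Rr p2 (Or.inr rfl) hc ⟨by push_cast; linarith only [a0], by push_cast; linarith only [a1]⟩
        ⟨by push_cast; linarith only [T0], by push_cast; linarith only [T1]⟩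
        ⟨by push_cast; linarith only [a0, a1, k0, k1, c0, c1, c2, d0], by push_cast; linarith only [a0, a1, k0, k1, c0, c1, c2, d0]⟩
        ⟨by push_cast; linarith only [K0], by push_cast; linarith only [K1]⟩
        (by push_cast; linarith only [a0, a1, k0, k1, c0, c1, c2, d0]) (by push_cast; linarith only [a0, a1, k0, k1, c0, c1, c2, d0]) (by linarith only [y]) (by linarith only [(abs_le.1 y1).1, (abs_le.1 y1).2])
  · rcases le_total 0 (4 * T * (6 / 10 - a) + K * tr 0 (70 / 100) (14 / 100) (35 / 100) k) with y | y
    · have hc : chkT (altB (q 3 10) (mul (mul (q 10000 3500) (sub (q 7000 10000) (var 2))) (var 3)) (gL (mul (mul (q 10000 3500) (sub (q 7000 10000) (var 2))) (var 3))) (fe 37 735 3079 9602 817 93176 (var 1)) (q 1 1) 510 640)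
          28 8
          [V.of 10000 3500 3900 4, V.of 10000 690 780 4, V.of 10000 6800 7000 4, V.of 10000 (-240) (-110) 4] = true := by
        decide +kernel
      exact rowB1 Rr p1 (Or.inl rfl) hc ⟨by push_cast; linarith only [a0], by push_cast; linarith only [a1]⟩
        ⟨by push_cast; linarith only [T0], by push_cast; linarith only [T1]⟩
        ⟨by push_cast; linarith only [a0, a1, k0, k1, c0, c1, c2, d0], by push_cast; linarith only [a0, a1, k0, k1, c0, c1, c2, d0]⟩
        ⟨by push_cast; linarith only [K0], by push_cast; linarith only [K1]⟩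
        (by push_cast; linarith only [a0, a1, k0, k1, c0, c1, c2, d0]) (by linarith only [y])
    · have hc : chkT (altB (q 3 10) (mul (mul (q 10000 3500) (sub (q 7000 10000) (var 2))) (var 3)) (gL (mul (mul (q 10000 3500) (sub (q 7000 10000) (var 2))) (var 3))) (fe 37 735 3079 9602 817 93176 (var 1)) (q (-1) 1) 510 640)
          28 8
          [V.of 10000 3500 3900 4, V.of 10000 690 780 4, V.of 10000 6800 7000 4, V.of 10000 (-240) (-110) 4] = true := by
        decide +kernel
      exact rowB1 Rr p2 (Or.inr rfl) hc ⟨by push_cast; linarith only [a0], by push_cast; linarith only [a1]⟩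
        ⟨by push_cast; linarith only [T0], by push_cast; linarith only [T1]⟩
        ⟨by push_cast; linarith only [a0, a1, k0, k1, c0, c1, c2, d0], by push_cast; linarith only [a0, a1, k0, k1, c0, c1, c2, d0]⟩
        ⟨by push_cast; linarith only [K0], by push_cast; linarith only [K1]⟩
        (by push_cast; linarith only [a0, a1, k0, k1, c0, c1, c2, d0]) (by linarith only [y])

theorem d1_twoE_B {a T k K : ℝ} (a0 : 3900 / 10000 ≤ a) (a1 : a ≤ 5000 / 10000)
    (T0 : 690 / 10000 ≤ T) (T1 : T ≤ 780 / 10000) (K0 : -(240 / 10000) ≤ K)
    (K1 : K ≤ -(110 / 10000)) (S0 : 510 / 10000 ≤ T + K) (S1 : T + K ≤ 640 / 10000)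
    (k0 : 7 / 100 ≤ k) (k1 : k ≤ 7000 / 10000) :
    0 < D1 (3 / 10) a T k (K * tr 0 (70 / 100) (14 / 100) (35 / 100) k) +
      fr 45 735 11037 9968 8728 100016 a T := by
  have cv : ((q 3 10) : E).val [a, T, k, K] = 3 / 10 := by
    simp only [E.val]; norm_num
  have fv : (fe 45 735 11037 9968 8728 100016 (var 1)).val [a, T, k, K] = fr 45 735 11037 9968 8728 100016 a T :=
    fe_val (by simp only [E.val, lkR])
  have p1 : ((q 1 1) : E).val [a, T, k, K] = 1 := by simp only [E.val]; norm_num
  have p2 : ((q (-1) 1) : E).val [a, T, k, K] = -1 := by simp only [E.val]; norm_num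
  rcases le_total k (1400 / 10000) with c0 | c0
  · have e : tr 0 (70 / 100) (14 / 100) (35 / 100) k = k / (14 / 100) :=
      tr_a (by norm_num) (by norm_num) (by norm_num) (by linarith only [k0]) (by linarith only [k0, k1, c0])
    have tv : (mul (mul (q 10000 1400) (var 2)) (var 3)).val [a, T, k, K] = K * tr 0 (70 / 100) (14 / 100) (35 / 100) k := by
      rw [e]; simp only [E.val, lkR]; push_cast; ring
    obtain ⟨y1, y2⟩ := hts (a := a) (T := T) (K := K) (r := tr 0 (70 / 100) (14 / 100) (35 / 100) k) (by linarith only [a0]) (by linarith only [a1])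
      (by linarith only [T0]) (by linarith only [T1]) (tr01 _ _ _ _).1
      (tr01 _ _ _ _).2 (by linarith only [K0]) (by linarith only [K1]) (by linarith only [S1])
    have Rr : Row1 (q 3 10) (mul (mul (q 10000 1400) (var 2)) (var 3)) (gU (q 3 10) (mul (mul (q 10000 1400) (var 2)) (var 3)))
      (fe 45 735 11037 9968 8728 100016 (var 1)) a T k K (3 / 10) (K * tr 0 (70 / 100) (14 / 100) (35 / 100) k)
      (fr 45 735 11037 9968 8728 100016 a T) 510 640 :=
      ⟨cv, tv, fv, gU_le cv tv, by push_cast; linarith only [S0],
        by push_cast; linarith only [S1]⟩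
    have hc : chkT (altI (q 3 10) (mul (mul (q 10000 1400) (var 2)) (var 3)) (gU (q 3 10) (mul (mul (q 10000 1400) (var 2)) (var 3))) (fe 45 735 11037 9968 8728 100016 (var 1)) 510 640 9500)
        28 559136
        [V.of 10000 3900 5000 4, V.of 10000 690 780 4, V.of 10000 700 1400 4, V.of 10000 (-240) (-110) 4] = true := by
      decide +kernel
    exact rowI1 Rr hc ⟨by push_cast; linarith only [a0], by push_cast; linarith only [a1]⟩
      ⟨by push_cast; linarith only [T0], by push_cast; linarith only [T1]⟩
      ⟨by push_cast; linarith only [a0, a1, k0, k1, c0], by push_cast; linarith only [a0, a1, k0, k1, c0]⟩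
      ⟨by push_cast; linarith only [K0], by push_cast; linarith only [K1]⟩ (by push_cast; linarith only [a0, a1, k0, k1, c0])
  rcases le_total k (3500 / 10000) with c1 | c1
  · have e : tr 0 (70 / 100) (14 / 100) (35 / 100) k = 1 :=
      tr_b (by norm_num) (by norm_num) (by linarith only [k0, k1, c0, c1]) (by linarith only [k0, k1, c0, c1])
    have tv : (var 3).val [a, T, k, K] = K * tr 0 (70 / 100) (14 / 100) (35 / 100) k := by
      rw [e]; simp only [E.val, lkR]; ring
    obtain ⟨y1, y2⟩ := hts (a := a) (T := T) (K := K) (r := tr 0 (70 / 100) (14 / 100) (35 / 100) k) (by linarith only [a0]) (by linarith only [a1])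
      (by linarith only [T0]) (by linarith only [T1]) (tr01 _ _ _ _).1
      (tr01 _ _ _ _).2 (by linarith only [K0]) (by linarith only [K1]) (by linarith only [S1])
    have Rr : Row1 (q 3 10) (var 3) (gU (q 3 10) (var 3))
      (fe 45 735 11037 9968 8728 100016 (var 1)) a T k K (3 / 10) (K * tr 0 (70 / 100) (14 / 100) (35 / 100) k)
      (fr 45 735 11037 9968 8728 100016 a T) 510 640 :=
      ⟨cv, tv, fv, gU_le cv tv, by push_cast; linarith only [S0],
        by push_cast; linarith only [S1]⟩
    have hc : chkT (altI (q 3 10) (var 3) (gU (q 3 10) (var 3)) (fe 45 735 11037 9968 8728 100016 (var 1)) 510 640 9500)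
        28 9380754391554
        [V.of 10000 3900 5000 4, V.of 10000 690 780 4, V.of 10000 1400 3500 4, V.of 10000 (-240) (-110) 4] = true := by
      decide +kernel
    exact rowI1 Rr hc ⟨by push_cast; linarith only [a0], by push_cast; linarith only [a1]⟩
      ⟨by push_cast; linarith only [T0], by push_cast; linarith only [T1]⟩
      ⟨by push_cast; linarith only [a0, a1, k0, k1, c0, c1], by push_cast; linarith only [a0, a1, k0, k1, c0, c1]⟩
      ⟨by push_cast; linarith only [K0], by push_cast; linarith only [K1]⟩ (by push_cast; linarith only [a0, a1, k0, k1, c0, c1])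
  rcases le_total k (6600 / 10000) with c2 | c2
  · have e : tr 0 (70 / 100) (14 / 100) (35 / 100) k = (70 / 100 - k) / (35 / 100) :=
      tr_c (by norm_num) (by norm_num) (by norm_num) (by linarith only [k0, k1, c0, c1, c2]) (by linarith only [k0, k1, c0, c1, c2])
    have tv : (mul (mul (q 10000 3500) (sub (q 7000 10000) (var 2))) (var 3)).val [a, T, k, K] = K * tr 0 (70 / 100) (14 / 100) (35 / 100) k := by
      rw [e]; simp only [E.val, lkR]; push_cast; ring
    obtain ⟨y1, y2⟩ := hts (a := a) (T := T) (K := K) (r := tr 0 (70 / 100) (14 / 100) (35 / 100) k) (by linarith only [a0]) (by linarith only [a1])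
      (by linarith only [T0]) (by linarith only [T1]) (tr01 _ _ _ _).1
      (tr01 _ _ _ _).2 (by linarith only [K0]) (by linarith only [K1]) (by linarith only [S1])
    have Rr : Row1 (q 3 10) (mul (mul (q 10000 3500) (sub (q 7000 10000) (var 2))) (var 3)) (gU (q 3 10) (mul (mul (q 10000 3500) (sub (q 7000 10000) (var 2))) (var 3)))
      (fe 45 735 11037 9968 8728 100016 (var 1)) a T k K (3 / 10) (K * tr 0 (70 / 100) (14 / 100) (35 / 100) k)
      (fr 45 735 11037 9968 8728 100016 a T) 510 640 :=
      ⟨cv, tv, fv, gU_le cv tv, by push_cast; linarith only [S0],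
        by push_cast; linarith only [S1]⟩
    rcases le_total (a + k) (95 / 100) with d0 | d0
    · have hc : chkT (altI (q 3 10) (mul (mul (q 10000 3500) (sub (q 7000 10000) (var 2))) (var 3)) (gU (q 3 10) (mul (mul (q 10000 3500) (sub (q 7000 10000) (var 2))) (var 3))) (fe 45 735 11037 9968 8728 100016 (var 1)) 510 640 9500)
          28 3626966403666555695209677314
          [V.of 10000 3900 5000 4, V.of 10000 690 780 4, V.of 10000 3500 5600 4, V.of 10000 (-240) (-110) 4] = true := by
        decide +kernel
      exact rowI1 Rr hc ⟨by push_cast; linarith only [a0], by push_cast; linarith only [a1]⟩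
        ⟨by push_cast; linarith only [T0], by push_cast; linarith only [T1]⟩
        ⟨by push_cast; linarith only [a0, a1, k0, k1, c0, c1, c2, d0], by push_cast; linarith only [a0, a1, k0, k1, c0, c1, c2, d0]⟩
        ⟨by push_cast; linarith only [K0], by push_cast; linarith only [K1]⟩ (by push_cast; linarith only [a0, a1, k0, k1, c0, c1, c2, d0])
    · rcases le_total (a + k) (1) with d1 | d1
      · rcases le_total 0 (4 * T * (6 / 10 - a) + K * tr 0 (70 / 100) (14 / 100) (35 / 100) k) with y | y
        · have hc : chkT (altN (q 3 10) (mul (mul (q 10000 3500) (sub (q 7000 10000) (var 2))) (var 3)) (gU (q 3 10) (mul (mul (q 10000 3500) (sub (q 7000 10000) (var 2))) (var 3))) (fe 45 735 11037 9968 8728 100016 (var 1)) (q 1 1) 510 640)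
              28 10557577527810
              [V.of 10000 3900 5000 4, V.of 10000 690 780 4, V.of 10000 4500 6100 4, V.of 10000 (-240) (-110) 4] = true := by
            decide +kernel
          exact rowN1 Rr p1 (Or.inl rfl) hc ⟨by push_cast; linarith only [a0], by push_cast; linarith only [a1]⟩
            ⟨by push_cast; linarith only [T0], by push_cast; linarith only [T1]⟩
            ⟨by push_cast; linarith only [a0, a1, k0, k1, c0, c1, c2, d0, d1], by push_cast; linarith only [a0, a1, k0, k1, c0, c1, c2, d0, d1]⟩
            ⟨by push_cast; linarith only [K0], by push_cast; linarith only [K1]⟩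
            (by push_cast; linarith only [a0, a1, k0, k1, c0, c1, c2, d0, d1]) (by push_cast; linarith only [a0, a1, k0, k1, c0, c1, c2, d0, d1]) (by linarith only [y])
        · have hc : chkT (altN (q 3 10) (mul (mul (q 10000 3500) (sub (q 7000 10000) (var 2))) (var 3)) (gU (q 3 10) (mul (mul (q 10000 3500) (sub (q 7000 10000) (var 2))) (var 3))) (fe 45 735 11037 9968 8728 100016 (var 1)) (q (-1) 1) 510 640)
              28 11
              [V.of 10000 3900 5000 4, V.of 10000 690 780 4, V.of 10000 4500 6100 4, V.of 10000 (-240) (-110) 4] = true := by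
            decide +kernel
          exact rowN1 Rr p2 (Or.inr rfl) hc ⟨by push_cast; linarith only [a0], by push_cast; linarith only [a1]⟩
            ⟨by push_cast; linarith only [T0], by push_cast; linarith only [T1]⟩
            ⟨by push_cast; linarith only [a0, a1, k0, k1, c0, c1, c2, d0, d1], by push_cast; linarith only [a0, a1, k0, k1, c0, c1, c2, d0, d1]⟩
            ⟨by push_cast; linarith only [K0], by push_cast; linarith only [K1]⟩
            (by push_cast; linarith only [a0, a1, k0, k1, c0, c1, c2, d0, d1]) (by push_cast; linarith only [a0, a1, k0, k1, c0, c1, c2, d0, d1]) (by linarith only [y])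
      · rcases le_total (a + k) (107 / 100) with d2 | d2
        · rcases le_total 0 (4 * T * (6 / 10 - a) + K * tr 0 (70 / 100) (14 / 100) (35 / 100) k) with y | y
          · have hc : chkT (altH (q 3 10) (mul (mul (q 10000 3500) (sub (q 7000 10000) (var 2))) (var 3)) (gU (q 3 10) (mul (mul (q 10000 3500) (sub (q 7000 10000) (var 2))) (var 3))) (fe 45 735 11037 9968 8728 100016 (var 1)) (q 1 1) 510 640)
                28 9
                [V.of 10000 3900 5000 4, V.of 10000 690 780 4, V.of 10000 5000 6600 4, V.of 10000 (-240) (-110) 4] = true := by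
              decide +kernel
            exact rowH1 Rr p1 (Or.inl rfl) hc ⟨by push_cast; linarith only [a0], by push_cast; linarith only [a1]⟩
              ⟨by push_cast; linarith only [T0], by push_cast; linarith only [T1]⟩
              ⟨by push_cast; linarith only [a0, a1, k0, k1, c0, c1, c2, d0, d1, d2], by push_cast; linarith only [a0, a1, k0, k1, c0, c1, c2, d0, d1, d2]⟩
              ⟨by push_cast; linarith only [K0], by push_cast; linarith only [K1]⟩
              (by push_cast; linarith only [a0, a1, k0, k1, c0, c1, c2, d0, d1, d2]) (by push_cast; linarith only [a0, a1, k0, k1, c0, c1, c2, d0, d1, d2]) (by linarith only [y]) (by linarith only [(abs_le.1 y1).1, (abs_le.1 y1).2])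
          · have hc : chkT (altH (q 3 10) (mul (mul (q 10000 3500) (sub (q 7000 10000) (var 2))) (var 3)) (gU (q 3 10) (mul (mul (q 10000 3500) (sub (q 7000 10000) (var 2))) (var 3))) (fe 45 735 11037 9968 8728 100016 (var 1)) (q (-1) 1) 510 640)
                28 9
                [V.of 10000 3900 5000 4, V.of 10000 690 780 4, V.of 10000 5000 6600 4, V.of 10000 (-240) (-110) 4] = true := by
              decide +kernel
            exact rowH1 Rr p2 (Or.inr rfl) hc ⟨by push_cast; linarith only [a0], by push_cast; linarith only [a1]⟩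
              ⟨by push_cast; linarith only [T0], by push_cast; linarith only [T1]⟩
              ⟨by push_cast; linarith only [a0, a1, k0, k1, c0, c1, c2, d0, d1, d2], by push_cast; linarith only [a0, a1, k0, k1, c0, c1, c2, d0, d1, d2]⟩
              ⟨by push_cast; linarith only [K0], by push_cast; linarith only [K1]⟩
              (by push_cast; linarith only [a0, a1, k0, k1, c0, c1, c2, d0, d1, d2]) (by push_cast; linarith only [a0, a1, k0, k1, c0, c1, c2, d0, d1, d2]) (by linarith only [y]) (by linarith only [(abs_le.1 y1).1, (abs_le.1 y1).2])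
        · rcases le_total 0 (4 * T * (6 / 10 - a) + K * tr 0 (70 / 100) (14 / 100) (35 / 100) k) with y | y
          · have hc : chkT (altB (q 3 10) (mul (mul (q 10000 3500) (sub (q 7000 10000) (var 2))) (var 3)) (gU (q 3 10) (mul (mul (q 10000 3500) (sub (q 7000 10000) (var 2))) (var 3))) (fe 45 735 11037 9968 8728 100016 (var 1)) (q 1 1) 510 640)
                28 9356733189152
                [V.of 10000 3900 5000 4, V.of 10000 690 780 4, V.of 10000 5700 6600 4, V.of 10000 (-240) (-110) 4] = true := by
              decide +kernel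
            exact rowB1 Rr p1 (Or.inl rfl) hc ⟨by push_cast; linarith only [a0], by push_cast; linarith only [a1]⟩
              ⟨by push_cast; linarith only [T0], by push_cast; linarith only [T1]⟩
              ⟨by push_cast; linarith only [a0, a1, k0, k1, c0, c1, c2, d0, d1, d2], by push_cast; linarith only [a0, a1, k0, k1, c0, c1, c2, d0, d1, d2]⟩
              ⟨by push_cast; linarith only [K0], by push_cast; linarith only [K1]⟩
              (by push_cast; linarith only [a0, a1, k0, k1, c0, c1, c2, d0, d1, d2]) (by linarith only [y])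
          · have hc : chkT (altB (q 3 10) (mul (mul (q 10000 3500) (sub (q 7000 10000) (var 2))) (var 3)) (gU (q 3 10) (mul (mul (q 10000 3500) (sub (q 7000 10000) (var 2))) (var 3))) (fe 45 735 11037 9968 8728 100016 (var 1)) (q (-1) 1) 510 640)
                28 9
                [V.of 10000 3900 5000 4, V.of 10000 690 780 4, V.of 10000 5700 6600 4, V.of 10000 (-240) (-110) 4] = true := by
              decide +kernel
            exact rowB1 Rr p2 (Or.inr rfl) hc ⟨by push_cast; linarith only [a0], by push_cast; linarith only [a1]⟩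
              ⟨by push_cast; linarith only [T0], by push_cast; linarith only [T1]⟩
              ⟨by push_cast; linarith only [a0, a1, k0, k1, c0, c1, c2, d0, d1, d2], by push_cast; linarith only [a0, a1, k0, k1, c0, c1, c2, d0, d1, d2]⟩
              ⟨by push_cast; linarith only [K0], by push_cast; linarith only [K1]⟩
              (by push_cast; linarith only [a0, a1, k0, k1, c0, c1, c2, d0, d1, d2]) (by linarith only [y])
  have e : tr 0 (70 / 100) (14 / 100) (35 / 100) k = (70 / 100 - k) / (35 / 100) :=
    tr_c (by norm_num) (by norm_num) (by norm_num) (by linarith only [k0, k1, c0, c1, c2]) (by linarith only [k0, k1, c0, c1, c2])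
  have tv : (mul (mul (q 10000 3500) (sub (q 7000 10000) (var 2))) (var 3)).val [a, T, k, K] = K * tr 0 (70 / 100) (14 / 100) (35 / 100) k := by
    rw [e]; simp only [E.val, lkR]; push_cast; ring
  obtain ⟨y1, y2⟩ := hts (a := a) (T := T) (K := K) (r := tr 0 (70 / 100) (14 / 100) (35 / 100) k) (by linarith only [a0]) (by linarith only [a1])
    (by linarith only [T0]) (by linarith only [T1]) (tr01 _ _ _ _).1
    (tr01 _ _ _ _).2 (by linarith only [K0]) (by linarith only [K1]) (by linarith only [S1])
  have Rr : Row1 (q 3 10) (mul (mul (q 10000 3500) (sub (q 7000 10000) (var 2))) (var 3)) (gL (mul (mul (q 10000 3500) (sub (q 7000 10000) (var 2))) (var 3)))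
    (fe 45 735 11037 9968 8728 100016 (var 1)) a T k K (3 / 10) (K * tr 0 (70 / 100) (14 / 100) (35 / 100) k)
    (fr 45 735 11037 9968 8728 100016 a T) 510 640 :=
    ⟨cv, tv, fv, gL_le tv (by linarith only [k0, k1, c0, c1, c2]) (by linarith only [k1]) y2, by push_cast; linarith only [S0],
      by push_cast; linarith only [S1]⟩
  rcases le_total (a + k) (107 / 100) with d0 | d0
  · rcases le_total 0 (4 * T * (6 / 10 - a) + K * tr 0 (70 / 100) (14 / 100) (35 / 100) k) with y | y
    · have hc : chkT (altH (q 3 10) (mul (mul (q 10000 3500) (sub (q 7000 10000) (var 2))) (var 3)) (gL (mul (mul (q 10000 3500) (sub (q 7000 10000) (var 2))) (var 3))) (fe 45 735 11037 9968 8728 100016 (var 1)) (q 1 1) 510 640)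
          28 8
          [V.of 10000 3900 5000 4, V.of 10000 690 780 4, V.of 10000 6600 6800 4, V.of 10000 (-240) (-110) 4] = true := by
        decide +kernel
      exact rowH1 Rr p1 (Or.inl rfl) hc ⟨by push_cast; linarith only [a0], by push_cast; linarith only [a1]⟩
        ⟨by push_cast; linarith only [T0], by push_cast; linarith only [T1]⟩
        ⟨by push_cast; linarith only [a0, a1, k0, k1, c0, c1, c2, d0], by push_cast; linarith only [a0, a1, k0, k1, c0, c1, c2, d0]⟩
        ⟨by push_cast; linarith only [K0], by push_cast; linarith only [K1]⟩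
        (by push_cast; linarith only [a0, a1, k0, k1, c0, c1, c2, d0]) (by push_cast; linarith only [a0, a1, k0, k1, c0, c1, c2, d0]) (by linarith only [y]) (by linarith only [(abs_le.1 y1).1, (abs_le.1 y1).2])
    · have hc : chkT (altH (q 3 10) (mul (mul (q 10000 3500) (sub (q 7000 10000) (var 2))) (var 3)) (gL (mul (mul (q 10000 3500) (sub (q 7000 10000) (var 2))) (var 3))) (fe 45 735 11037 9968 8728 100016 (var 1)) (q (-1) 1) 510 640)
          28 8
          [V.of 10000 3900 5000 4, V.of 10000 690 780 4, V.of 10000 6600 6800 4, V.of 10000 (-240) (-110) 4] = true := by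
        decide +kernel
      exact rowH1 Rr p2 (Or.inr rfl) hc ⟨by push_cast; linarith only [a0], by push_cast; linarith only [a1]⟩
        ⟨by push_cast; linarith only [T0], by push_cast; linarith only [T1]⟩
        ⟨by push_cast; linarith only [a0, a1, k0, k1, c0, c1, c2, d0], by push_cast; linarith only [a0, a1, k0, k1, c0, c1, c2, d0]⟩
        ⟨by push_cast; linarith only [K0], by push_cast; linarith only [K1]⟩
        (by push_cast; linarith only [a0, a1, k0, k1, c0, c1, c2, d0]) (by push_cast; linarith only [a0, a1, k0, k1, c0, c1, c2, d0]) (by linarith only [y]) (by linarith only [(abs_le.1 y1).1, (abs_le.1 y1).2])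
  · rcases le_total 0 (4 * T * (6 / 10 - a) + K * tr 0 (70 / 100) (14 / 100) (35 / 100) k) with y | y
    · have hc : chkT (altB (q 3 10) (mul (mul (q 10000 3500) (sub (q 7000 10000) (var 2))) (var 3)) (gL (mul (mul (q 10000 3500) (sub (q 7000 10000) (var 2))) (var 3))) (fe 45 735 11037 9968 8728 100016 (var 1)) (q 1 1) 510 640)
          28 8
          [V.of 10000 3900 5000 4, V.of 10000 690 780 4, V.of 10000 6600 7000 4, V.of 10000 (-240) (-110) 4] = true := by
        decide +kernel
      exact rowB1 Rr p1 (Or.inl rfl) hc ⟨by push_cast; linarith only [a0], by push_cast; linarith only [a1]⟩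
        ⟨by push_cast; linarith only [T0], by push_cast; linarith only [T1]⟩
        ⟨by push_cast; linarith only [a0, a1, k0, k1, c0, c1, c2, d0], by push_cast; linarith only [a0, a1, k0, k1, c0, c1, c2, d0]⟩
        ⟨by push_cast; linarith only [K0], by push_cast; linarith only [K1]⟩
        (by push_cast; linarith only [a0, a1, k0, k1, c0, c1, c2, d0]) (by linarith only [y])
    · have hc : chkT (altB (q 3 10) (mul (mul (q 10000 3500) (sub (q 7000 10000) (var 2))) (var 3)) (gL (mul (mul (q 10000 3500) (sub (q 7000 10000) (var 2))) (var 3))) (fe 45 735 11037 9968 8728 100016 (var 1)) (q (-1) 1) 510 640)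
          28 8
          [V.of 10000 3900 5000 4, V.of 10000 690 780 4, V.of 10000 6600 7000 4, V.of 10000 (-240) (-110) 4] = true := by
        decide +kernel
      exact rowB1 Rr p2 (Or.inr rfl) hc ⟨by push_cast; linarith only [a0], by push_cast; linarith only [a1]⟩
        ⟨by push_cast; linarith only [T0], by push_cast; linarith only [T1]⟩
        ⟨by push_cast; linarith only [a0, a1, k0, k1, c0, c1, c2, d0], by push_cast; linarith only [a0, a1, k0, k1, c0, c1, c2, d0]⟩
        ⟨by push_cast; linarith only [K0], by push_cast; linarith only [K1]⟩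
        (by push_cast; linarith only [a0, a1, k0, k1, c0, c1, c2, d0]) (by linarith only [y])

theorem d1_twoE_C {a T k K : ℝ} (a0 : 5000 / 10000 ≤ a) (a1 : a ≤ 6000 / 10000)
    (T0 : 690 / 10000 ≤ T) (T1 : T ≤ 780 / 10000) (K0 : -(240 / 10000) ≤ K)
    (K1 : K ≤ -(110 / 10000)) (S0 : 510 / 10000 ≤ T + K) (S1 : T + K ≤ 640 / 10000)
    (k0 : 7 / 100 ≤ k) (k1 : k ≤ 7000 / 10000) :
    0 < D1 (3 / 10) a T k (K * tr 0 (70 / 100) (14 / 100) (35 / 100) k) +
      fr 55 735 20721 9678 19055 107500 a T := by
  have cv : ((q 3 10) : E).val [a, T, k, K] = 3 / 10 := by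
    simp only [E.val]; norm_num
  have fv : (fe 55 735 20721 9678 19055 107500 (var 1)).val [a, T, k, K] = fr 55 735 20721 9678 19055 107500 a T :=
    fe_val (by simp only [E.val, lkR])
  have p1 : ((q 1 1) : E).val [a, T, k, K] = 1 := by simp only [E.val]; norm_num
  have p2 : ((q (-1) 1) : E).val [a, T, k, K] = -1 := by simp only [E.val]; norm_num
  rcases le_total k (1400 / 10000) with c0 | c0
  · have e : tr 0 (70 / 100) (14 / 100) (35 / 100) k = k / (14 / 100) :=
      tr_a (by norm_num) (by norm_num) (by norm_num) (by linarith only [k0]) (by linarith only [k0, k1, c0])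
    have tv : (mul (mul (q 10000 1400) (var 2)) (var 3)).val [a, T, k, K] = K * tr 0 (70 / 100) (14 / 100) (35 / 100) k := by
      rw [e]; simp only [E.val, lkR]; push_cast; ring
    obtain ⟨y1, y2⟩ := hts (a := a) (T := T) (K := K) (r := tr 0 (70 / 100) (14 / 100) (35 / 100) k) (by linarith only [a0]) (by linarith only [a1])
      (by linarith only [T0]) (by linarith only [T1]) (tr01 _ _ _ _).1
      (tr01 _ _ _ _).2 (by linarith only [K0]) (by linarith only [K1]) (by linarith only [S1])
    have Rr : Row1 (q 3 10) (mul (mul (q 10000 1400) (var 2)) (var 3)) (gU (q 3 10) (mul (mul (q 10000 1400) (var 2)) (var 3)))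
      (fe 55 735 20721 9678 19055 107500 (var 1)) a T k K (3 / 10) (K * tr 0 (70 / 100) (14 / 100) (35 / 100) k)
      (fr 55 735 20721 9678 19055 107500 a T) 510 640 :=
      ⟨cv, tv, fv, gU_le cv tv, by push_cast; linarith only [S0],
        by push_cast; linarith only [S1]⟩
    have hc : chkT (altI (q 3 10) (mul (mul (q 10000 1400) (var 2)) (var 3)) (gU (q 3 10) (mul (mul (q 10000 1400) (var 2)) (var 3))) (fe 55 735 20721 9678 19055 107500 (var 1)) 510 640 9500)
        28 2176
        [V.of 10000 5000 6000 4, V.of 10000 690 780 4, V.of 10000 700 1400 4, V.of 10000 (-240) (-110) 4] = true := by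
      decide +kernel
    exact rowI1 Rr hc ⟨by push_cast; linarith only [a0], by push_cast; linarith only [a1]⟩
      ⟨by push_cast; linarith only [T0], by push_cast; linarith only [T1]⟩
      ⟨by push_cast; linarith only [a0, a1, k0, k1, c0], by push_cast; linarith only [a0, a1, k0, k1, c0]⟩
      ⟨by push_cast; linarith only [K0], by push_cast; linarith only [K1]⟩ (by push_cast; linarith only [a0, a1, k0, k1, c0])
  rcases le_total k (3500 / 10000) with c1 | c1
  · have e : tr 0 (70 / 100) (14 / 100) (35 / 100) k = 1 :=
      tr_b (by norm_num) (by norm_num) (by linarith only [k0, k1, c0, c1]) (by linarith only [k0, k1, c0, c1])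
    have tv : (var 3).val [a, T, k, K] = K * tr 0 (70 / 100) (14 / 100) (35 / 100) k := by
      rw [e]; simp only [E.val, lkR]; ring
    obtain ⟨y1, y2⟩ := hts (a := a) (T := T) (K := K) (r := tr 0 (70 / 100) (14 / 100) (35 / 100) k) (by linarith only [a0]) (by linarith only [a1])
      (by linarith only [T0]) (by linarith only [T1]) (tr01 _ _ _ _).1
      (tr01 _ _ _ _).2 (by linarith only [K0]) (by linarith only [K1]) (by linarith only [S1])
    have Rr : Row1 (q 3 10) (var 3) (gU (q 3 10) (var 3))
      (fe 55 735 20721 9678 19055 107500 (var 1)) a T k K (3 / 10) (K * tr 0 (70 / 100) (14 / 100) (35 / 100) k)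
      (fr 55 735 20721 9678 19055 107500 a T) 510 640 :=
      ⟨cv, tv, fv, gU_le cv tv, by push_cast; linarith only [S0],
        by push_cast; linarith only [S1]⟩
    have hc : chkT (altI (q 3 10) (var 3) (gU (q 3 10) (var 3)) (fe 55 735 20721 9678 19055 107500 (var 1)) 510 640 9500)
        28 36549199906
        [V.of 10000 5000 6000 4, V.of 10000 690 780 4, V.of 10000 1400 3500 4, V.of 10000 (-240) (-110) 4] = true := by
      decide +kernel
    exact rowI1 Rr hc ⟨by push_cast; linarith only [a0], by push_cast; linarith only [a1]⟩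
      ⟨by push_cast; linarith only [T0], by push_cast; linarith only [T1]⟩
      ⟨by push_cast; linarith only [a0, a1, k0, k1, c0, c1], by push_cast; linarith only [a0, a1, k0, k1, c0, c1]⟩
      ⟨by push_cast; linarith only [K0], by push_cast; linarith only [K1]⟩ (by push_cast; linarith only [a0, a1, k0, k1, c0, c1])
  rcases le_total k (6600 / 10000) with c2 | c2
  · have e : tr 0 (70 / 100) (14 / 100) (35 / 100) k = (70 / 100 - k) / (35 / 100) :=
      tr_c (by norm_num) (by norm_num) (by norm_num) (by linarith only [k0, k1, c0, c1, c2]) (by linarith only [k0, k1, c0, c1, c2])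
    have tv : (mul (mul (q 10000 3500) (sub (q 7000 10000) (var 2))) (var 3)).val [a, T, k, K] = K * tr 0 (70 / 100) (14 / 100) (35 / 100) k := by
      rw [e]; simp only [E.val, lkR]; push_cast; ring
    obtain ⟨y1, y2⟩ := hts (a := a) (T := T) (K := K) (r := tr 0 (70 / 100) (14 / 100) (35 / 100) k) (by linarith only [a0]) (by linarith only [a1])
      (by linarith only [T0]) (by linarith only [T1]) (tr01 _ _ _ _).1
      (tr01 _ _ _ _).2 (by linarith only [K0]) (by linarith only [K1]) (by linarith only [S1])
    have Rr : Row1 (q 3 10) (mul (mul (q 10000 3500) (sub (q 7000 10000) (var 2))) (var 3)) (gU (q 3 10) (mul (mul (q 10000 3500) (sub (q 7000 10000) (var 2))) (var 3)))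
      (fe 55 735 20721 9678 19055 107500 (var 1)) a T k K (3 / 10) (K * tr 0 (70 / 100) (14 / 100) (35 / 100) k)
      (fr 55 735 20721 9678 19055 107500 a T) 510 640 :=
      ⟨cv, tv, fv, gU_le cv tv, by push_cast; linarith only [S0],
        by push_cast; linarith only [S1]⟩
    rcases le_total (a + k) (95 / 100) with d0 | d0
    · have hc : chkT (altI (q 3 10) (mul (mul (q 10000 3500) (sub (q 7000 10000) (var 2))) (var 3)) (gU (q 3 10) (mul (mul (q 10000 3500) (sub (q 7000 10000) (var 2))) (var 3))) (fe 55 735 20721 9678 19055 107500 (var 1)) 510 640 9500)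
          28 929540657689561767001977260034
          [V.of 10000 5000 6000 4, V.of 10000 690 780 4, V.of 10000 3500 4500 4, V.of 10000 (-240) (-110) 4] = true := by
        decide +kernel
      exact rowI1 Rr hc ⟨by push_cast; linarith only [a0], by push_cast; linarith only [a1]⟩
        ⟨by push_cast; linarith only [T0], by push_cast; linarith only [T1]⟩
        ⟨by push_cast; linarith only [a0, a1, k0, k1, c0, c1, c2, d0], by push_cast; linarith only [a0, a1, k0, k1, c0, c1, c2, d0]⟩
        ⟨by push_cast; linarith only [K0], by push_cast; linarith only [K1]⟩ (by push_cast; linarith only [a0, a1, k0, k1, c0, c1, c2, d0])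
    · rcases le_total (a + k) (1) with d1 | d1
      · rcases le_total 0 (4 * T * (6 / 10 - a) + K * tr 0 (70 / 100) (14 / 100) (35 / 100) k) with y | y
        · have hc : chkT (altN (q 3 10) (mul (mul (q 10000 3500) (sub (q 7000 10000) (var 2))) (var 3)) (gU (q 3 10) (mul (mul (q 10000 3500) (sub (q 7000 10000) (var 2))) (var 3))) (fe 55 735 20721 9678 19055 107500 (var 1)) (q 1 1) 510 640)
              28 160989698
              [V.of 10000 5000 6000 4, V.of 10000 690 780 4, V.of 10000 3500 5000 4, V.of 10000 (-240) (-110) 4] = true := by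
            decide +kernel
          exact rowN1 Rr p1 (Or.inl rfl) hc ⟨by push_cast; linarith only [a0], by push_cast; linarith only [a1]⟩
            ⟨by push_cast; linarith only [T0], by push_cast; linarith only [T1]⟩
            ⟨by push_cast; linarith only [a0, a1, k0, k1, c0, c1, c2, d0, d1], by push_cast; linarith only [a0, a1, k0, k1, c0, c1, c2, d0, d1]⟩
            ⟨by push_cast; linarith only [K0], by push_cast; linarith only [K1]⟩
            (by push_cast; linarith only [a0, a1, k0, k1, c0, c1, c2, d0, d1]) (by push_cast; linarith only [a0, a1, k0, k1, c0, c1, c2, d0, d1]) (by linarith only [y])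
        · have hc : chkT (altN (q 3 10) (mul (mul (q 10000 3500) (sub (q 7000 10000) (var 2))) (var 3)) (gU (q 3 10) (mul (mul (q 10000 3500) (sub (q 7000 10000) (var 2))) (var 3))) (fe 55 735 20721 9678 19055 107500 (var 1)) (q (-1) 1) 510 640)
              28 10
              [V.of 10000 5000 6000 4, V.of 10000 690 780 4, V.of 10000 3500 5000 4, V.of 10000 (-240) (-110) 4] = true := by
            decide +kernel
          exact rowN1 Rr p2 (Or.inr rfl) hc ⟨by push_cast; linarith only [a0], by push_cast; linarith only [a1]⟩
            ⟨by push_cast; linarith only [T0], by push_cast; linarith only [T1]⟩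
            ⟨by push_cast; linarith only [a0, a1, k0, k1, c0, c1, c2, d0, d1], by push_cast; linarith only [a0, a1, k0, k1, c0, c1, c2, d0, d1]⟩
            ⟨by push_cast; linarith only [K0], by push_cast; linarith only [K1]⟩
            (by push_cast; linarith only [a0, a1, k0, k1, c0, c1, c2, d0, d1]) (by push_cast; linarith only [a0, a1, k0, k1, c0, c1, c2, d0, d1]) (by linarith only [y])
      · rcases le_total (a + k) (107 / 100) with d2 | d2
        · rcases le_total 0 (4 * T * (6 / 10 - a) + K * tr 0 (70 / 100) (14 / 100) (35 / 100) k) with y | y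
          · have hc : chkT (altH (q 3 10) (mul (mul (q 10000 3500) (sub (q 7000 10000) (var 2))) (var 3)) (gU (q 3 10) (mul (mul (q 10000 3500) (sub (q 7000 10000) (var 2))) (var 3))) (fe 55 735 20721 9678 19055 107500 (var 1)) (q 1 1) 510 640)
                28 9
                [V.of 10000 5000 6000 4, V.of 10000 690 780 4, V.of 10000 4000 5700 4, V.of 10000 (-240) (-110) 4] = true := by
              decide +kernel
            exact rowH1 Rr p1 (Or.inl rfl) hc ⟨by push_cast; linarith only [a0], by push_cast; linarith only [a1]⟩
              ⟨by push_cast; linarith only [T0], by push_cast; linarith only [T1]⟩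
              ⟨by push_cast; linarith only [a0, a1, k0, k1, c0, c1, c2, d0, d1, d2], by push_cast; linarith only [a0, a1, k0, k1, c0, c1, c2, d0, d1, d2]⟩
              ⟨by push_cast; linarith only [K0], by push_cast; linarith only [K1]⟩
              (by push_cast; linarith only [a0, a1, k0, k1, c0, c1, c2, d0, d1, d2]) (by push_cast; linarith only [a0, a1, k0, k1, c0, c1, c2, d0, d1, d2]) (by linarith only [y]) (by linarith only [(abs_le.1 y1).1, (abs_le.1 y1).2])
          · have hc : chkT (altH (q 3 10) (mul (mul (q 10000 3500) (sub (q 7000 10000) (var 2))) (var 3)) (gU (q 3 10) (mul (mul (q 10000 3500) (sub (q 7000 10000) (var 2))) (var 3))) (fe 55 735 20721 9678 19055 107500 (var 1)) (q (-1) 1) 510 640)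
                28 9
                [V.of 10000 5000 6000 4, V.of 10000 690 780 4, V.of 10000 4000 5700 4, V.of 10000 (-240) (-110) 4] = true := by
              decide +kernel
            exact rowH1 Rr p2 (Or.inr rfl) hc ⟨by push_cast; linarith only [a0], by push_cast; linarith only [a1]⟩
              ⟨by push_cast; linarith only [T0], by push_cast; linarith only [T1]⟩
              ⟨by push_cast; linarith only [a0, a1, k0, k1, c0, c1, c2, d0, d1, d2], by push_cast; linarith only [a0, a1, k0, k1, c0, c1, c2, d0, d1, d2]⟩
              ⟨by push_cast; linarith only [K0], by push_cast; linarith only [K1]⟩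
              (by push_cast; linarith only [a0, a1, k0, k1, c0, c1, c2, d0, d1, d2]) (by push_cast; linarith only [a0, a1, k0, k1, c0, c1, c2, d0, d1, d2]) (by linarith only [y]) (by linarith only [(abs_le.1 y1).1, (abs_le.1 y1).2])
        · rcases le_total 0 (4 * T * (6 / 10 - a) + K * tr 0 (70 / 100) (14 / 100) (35 / 100) k) with y | y
          · have hc : chkT (altB (q 3 10) (mul (mul (q 10000 3500) (sub (q 7000 10000) (var 2))) (var 3)) (gU (q 3 10) (mul (mul (q 10000 3500) (sub (q 7000 10000) (var 2))) (var 3))) (fe 55 735 20721 9678 19055 107500 (var 1)) (q 1 1) 510 640)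
                28 2401883830403586
                [V.of 10000 5000 6000 4, V.of 10000 690 780 4, V.of 10000 4700 6600 4, V.of 10000 (-240) (-110) 4] = true := by
              decide +kernel
            exact rowB1 Rr p1 (Or.inl rfl) hc ⟨by push_cast; linarith only [a0], by push_cast; linarith only [a1]⟩
              ⟨by push_cast; linarith only [T0], by push_cast; linarith only [T1]⟩
              ⟨by push_cast; linarith only [a0, a1, k0, k1, c0, c1, c2, d0, d1, d2], by push_cast; linarith only [a0, a1, k0, k1, c0, c1, c2, d0, d1, d2]⟩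
              ⟨by push_cast; linarith only [K0], by push_cast; linarith only [K1]⟩
              (by push_cast; linarith only [a0, a1, k0, k1, c0, c1, c2, d0, d1, d2]) (by linarith only [y])
          · have hc : chkT (altB (q 3 10) (mul (mul (q 10000 3500) (sub (q 7000 10000) (var 2))) (var 3)) (gU (q 3 10) (mul (mul (q 10000 3500) (sub (q 7000 10000) (var 2))) (var 3))) (fe 55 735 20721 9678 19055 107500 (var 1)) (q (-1) 1) 510 640)
                28 9382358794754
                [V.of 10000 5000 6000 4, V.of 10000 690 780 4, V.of 10000 4700 6600 4, V.of 10000 (-240) (-110) 4] = true := by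
              decide +kernel
            exact rowB1 Rr p2 (Or.inr rfl) hc ⟨by push_cast; linarith only [a0], by push_cast; linarith only [a1]⟩
              ⟨by push_cast; linarith only [T0], by push_cast; linarith only [T1]⟩
              ⟨by push_cast; linarith only [a0, a1, k0, k1, c0, c1, c2, d0, d1, d2], by push_cast; linarith only [a0, a1, k0, k1, c0, c1, c2, d0, d1, d2]⟩
              ⟨by push_cast; linarith only [K0], by push_cast; linarith only [K1]⟩
              (by push_cast; linarith only [a0, a1, k0, k1, c0, c1, c2, d0, d1, d2]) (by linarith only [y])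
  have e : tr 0 (70 / 100) (14 / 100) (35 / 100) k = (70 / 100 - k) / (35 / 100) :=
    tr_c (by norm_num) (by norm_num) (by norm_num) (by linarith only [k0, k1, c0, c1, c2]) (by linarith only [k0, k1, c0, c1, c2])
  have tv : (mul (mul (q 10000 3500) (sub (q 7000 10000) (var 2))) (var 3)).val [a, T, k, K] = K * tr 0 (70 / 100) (14 / 100) (35 / 100) k := by
    rw [e]; simp only [E.val, lkR]; push_cast; ring
  obtain ⟨y1, y2⟩ := hts (a := a) (T := T) (K := K) (r := tr 0 (70 / 100) (14 / 100) (35 / 100) k) (by linarith only [a0]) (by linarith only [a1])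
    (by linarith only [T0]) (by linarith only [T1]) (tr01 _ _ _ _).1
    (tr01 _ _ _ _).2 (by linarith only [K0]) (by linarith only [K1]) (by linarith only [S1])
  have Rr : Row1 (q 3 10) (mul (mul (q 10000 3500) (sub (q 7000 10000) (var 2))) (var 3)) (gL (mul (mul (q 10000 3500) (sub (q 7000 10000) (var 2))) (var 3)))
    (fe 55 735 20721 9678 19055 107500 (var 1)) a T k K (3 / 10) (K * tr 0 (70 / 100) (14 / 100) (35 / 100) k)
    (fr 55 735 20721 9678 19055 107500 a T) 510 640 :=
    ⟨cv, tv, fv, gL_le tv (by linarith only [k0, k1, c0, c1, c2]) (by linarith only [k1]) y2, by push_cast; linarith only [S0],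
      by push_cast; linarith only [S1]⟩
  rcases le_total 0 (4 * T * (6 / 10 - a) + K * tr 0 (70 / 100) (14 / 100) (35 / 100) k) with y | y
  · have hc : chkT (altB (q 3 10) (mul (mul (q 10000 3500) (sub (q 7000 10000) (var 2))) (var 3)) (gL (mul (mul (q 10000 3500) (sub (q 7000 10000) (var 2))) (var 3))) (fe 55 735 20721 9678 19055 107500 (var 1)) (q 1 1) 510 640)
        28 8
        [V.of 10000 5000 6000 4, V.of 10000 690 780 4, V.of 10000 6600 7000 4, V.of 10000 (-240) (-110) 4] = true := by
      decide +kernel
    exact rowB1 Rr p1 (Or.inl rfl) hc ⟨by push_cast; linarith only [a0], by push_cast; linarith only [a1]⟩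
      ⟨by push_cast; linarith only [T0], by push_cast; linarith only [T1]⟩
      ⟨by push_cast; linarith only [a0, a1, k0, k1, c0, c1, c2], by push_cast; linarith only [a0, a1, k0, k1, c0, c1, c2]⟩
      ⟨by push_cast; linarith only [K0], by push_cast; linarith only [K1]⟩
      (by push_cast; linarith only [a0, a1, k0, k1, c0, c1, c2]) (by linarith only [y])
  · have hc : chkT (altB (q 3 10) (mul (mul (q 10000 3500) (sub (q 7000 10000) (var 2))) (var 3)) (gL (mul (mul (q 10000 3500) (sub (q 7000 10000) (var 2))) (var 3))) (fe 55 735 20721 9678 19055 107500 (var 1)) (q (-1) 1) 510 640)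
        28 8
        [V.of 10000 5000 6000 4, V.of 10000 690 780 4, V.of 10000 6600 7000 4, V.of 10000 (-240) (-110) 4] = true := by
      decide +kernel
    exact rowB1 Rr p2 (Or.inr rfl) hc ⟨by push_cast; linarith only [a0], by push_cast; linarith only [a1]⟩
      ⟨by push_cast; linarith only [T0], by push_cast; linarith only [T1]⟩
      ⟨by push_cast; linarith only [a0, a1, k0, k1, c0, c1, c2], by push_cast; linarith only [a0, a1, k0, k1, c0, c1, c2]⟩
      ⟨by push_cast; linarith only [K0], by push_cast; linarith only [K1]⟩
      (by push_cast; linarith only [a0, a1, k0, k1, c0, c1, c2]) (by linarith only [y])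

end L3

end Pool.Agent.Work.MP_b30479_gtS.G2

end

section

/-!
# Value moves of a hinge `1 | 3e`: the digit `1`, other hinge `1 | 1` with the long path
-/

set_option deprecated.oldSectionVars true

namespace Pool.Agent.Work.MP_b30479_gtS.G2

open Finset VOL Filter Topology

namespace L3

open NumIs (V lkR)
open NumUs NumUs.E

set_option linter.unusedTactic false

theorem d1_oneX_A {a T k K : ℝ} (a0 : 3500 / 10000 ≤ a) (a1 : a ≤ 3900 / 10000)
    (T0 : 100 / 10000 ≤ T) (T1 : T ≤ 580 / 10000) (K0 : -(610 / 10000) ≤ K)
    (K1 : K ≤ 650 / 10000) (S0 : -(110 / 10000) ≤ T + K) (S1 : T + K ≤ 1010 / 10000)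
    (k0 : 6000 / 10000 ≤ k) (k1 : k ≤ 7000 / 10000) :
    0 < D1 (3 / 10) a T k (K * tr 0 (86 / 100) (15 / 100) (20 / 100) k) +
      fr 37 400 3606 7534 751 104344 a T := by
  have cv : ((q 3 10) : E).val [a, T, k, K] = 3 / 10 := by
    simp only [E.val]; norm_num
  have fv : (fe 37 400 3606 7534 751 104344 (var 1)).val [a, T, k, K] = fr 37 400 3606 7534 751 104344 a T :=
    fe_val (by simp only [E.val, lkR])
  have p1 : ((q 1 1) : E).val [a, T, k, K] = 1 := by simp only [E.val]; norm_num
  have p2 : ((q (-1) 1) : E).val [a, T, k, K] = -1 := by simp only [E.val]; norm_num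
  rcases le_total k (6600 / 10000) with c0 | c0
  · have e : tr 0 (86 / 100) (15 / 100) (20 / 100) k = 1 :=
      tr_b (by norm_num) (by norm_num) (by linarith only [k0, k1, c0]) (by linarith only [k0, k1, c0])
    have tv : (var 3).val [a, T, k, K] = K * tr 0 (86 / 100) (15 / 100) (20 / 100) k := by
      rw [e]; simp only [E.val, lkR]; ring
    obtain ⟨y1, y2⟩ := hts (a := a) (T := T) (K := K) (r := tr 0 (86 / 100) (15 / 100) (20 / 100) k) (by linarith only [a0]) (by linarith only [a1])
      (by linarith only [T0]) (by linarith only [T1]) (tr01 _ _ _ _).1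
      (tr01 _ _ _ _).2 (by linarith only [K0]) (by linarith only [K1]) (by linarith only [S1])
    have Rr : Row1 (q 3 10) (var 3) (gU (q 3 10) (var 3))
      (fe 37 400 3606 7534 751 104344 (var 1)) a T k K (3 / 10) (K * tr 0 (86 / 100) (15 / 100) (20 / 100) k)
      (fr 37 400 3606 7534 751 104344 a T) (-110) 1010 :=
      ⟨cv, tv, fv, gU_le cv tv, by push_cast; linarith only [S0],
        by push_cast; linarith only [S1]⟩
    rcases le_total (a + k) (1) with d0 | d0
    · rcases le_total 0 (4 * T * (6 / 10 - a) + K * tr 0 (86 / 100) (15 / 100) (20 / 100) k) with y | y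
      · have hc : chkT (altN (q 3 10) (var 3) (gU (q 3 10) (var 3)) (fe 37 400 3606 7534 751 104344 (var 1)) (q 1 1) (-110) 1010)
            28 411943598387515228095961236687147812817990374706391397021704052830472217531480448434112698931
            [V.of 10000 3500 3900 4, V.of 10000 100 580 4, V.of 10000 6000 6500 4, V.of 10000 (-610) 650 4] = true := by
          decide +kernel
        exact rowN1 Rr p1 (Or.inl rfl) hc ⟨by push_cast; linarith only [a0], by push_cast; linarith only [a1]⟩
          ⟨by push_cast; linarith only [T0], by push_cast; linarith only [T1]⟩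
          ⟨by push_cast; linarith only [a0, a1, k0, k1, c0, d0], by push_cast; linarith only [a0, a1, k0, k1, c0, d0]⟩
          ⟨by push_cast; linarith only [K0], by push_cast; linarith only [K1]⟩
          (by push_cast; linarith only [a0, a1, k0, k1, c0, d0]) (by push_cast; linarith only [a0, a1, k0, k1, c0, d0]) (by linarith only [y])
      · have hc : chkT (altN (q 3 10) (var 3) (gU (q 3 10) (var 3)) (fe 37 400 3606 7534 751 104344 (var 1)) (q (-1) 1) (-110) 1010)
            28 178889491
            [V.of 10000 3500 3900 4, V.of 10000 100 580 4, V.of 10000 6000 6500 4, V.of 10000 (-610) 650 4] = true := by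
          decide +kernel
        exact rowN1 Rr p2 (Or.inr rfl) hc ⟨by push_cast; linarith only [a0], by push_cast; linarith only [a1]⟩
          ⟨by push_cast; linarith only [T0], by push_cast; linarith only [T1]⟩
          ⟨by push_cast; linarith only [a0, a1, k0, k1, c0, d0], by push_cast; linarith only [a0, a1, k0, k1, c0, d0]⟩
          ⟨by push_cast; linarith only [K0], by push_cast; linarith only [K1]⟩
          (by push_cast; linarith only [a0, a1, k0, k1, c0, d0]) (by push_cast; linarith only [a0, a1, k0, k1, c0, d0]) (by linarith only [y])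
    · rcases le_total 0 (4 * T * (6 / 10 - a) + K * tr 0 (86 / 100) (15 / 100) (20 / 100) k) with y | y
      · have hc : chkT (altH (q 3 10) (var 3) (gU (q 3 10) (var 3)) (fe 37 400 3606 7534 751 104344 (var 1)) (q 1 1) (-110) 1010)
            28 160667955
            [V.of 10000 3500 3900 4, V.of 10000 100 580 4, V.of 10000 6100 6600 4, V.of 10000 (-610) 650 4] = true := by
          decide +kernel
        exact rowH1 Rr p1 (Or.inl rfl) hc ⟨by push_cast; linarith only [a0], by push_cast; linarith only [a1]⟩
          ⟨by push_cast; linarith only [T0], by push_cast; linarith only [T1]⟩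
          ⟨by push_cast; linarith only [a0, a1, k0, k1, c0, d0], by push_cast; linarith only [a0, a1, k0, k1, c0, d0]⟩
          ⟨by push_cast; linarith only [K0], by push_cast; linarith only [K1]⟩
          (by push_cast; linarith only [a0, a1, k0, k1, c0, d0]) (by push_cast; linarith only [a0, a1, k0, k1, c0, d0]) (by linarith only [y]) (by linarith only [(abs_le.1 y1).1, (abs_le.1 y1).2])
      · have hc : chkT (altH (q 3 10) (var 3) (gU (q 3 10) (var 3)) (fe 37 400 3606 7534 751 104344 (var 1)) (q (-1) 1) (-110) 1010)
            28 629043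
            [V.of 10000 3500 3900 4, V.of 10000 100 580 4, V.of 10000 6100 6600 4, V.of 10000 (-610) 650 4] = true := by
          decide +kernel
        exact rowH1 Rr p2 (Or.inr rfl) hc ⟨by push_cast; linarith only [a0], by push_cast; linarith only [a1]⟩
          ⟨by push_cast; linarith only [T0], by push_cast; linarith only [T1]⟩
          ⟨by push_cast; linarith only [a0, a1, k0, k1, c0, d0], by push_cast; linarith only [a0, a1, k0, k1, c0, d0]⟩
          ⟨by push_cast; linarith only [K0], by push_cast; linarith only [K1]⟩
          (by push_cast; linarith only [a0, a1, k0, k1, c0, d0]) (by push_cast; linarith only [a0, a1, k0, k1, c0, d0]) (by linarith only [y]) (by linarith only [(abs_le.1 y1).1, (abs_le.1 y1).2])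
  have e : tr 0 (86 / 100) (15 / 100) (20 / 100) k = (86 / 100 - k) / (20 / 100) :=
    tr_c (by norm_num) (by norm_num) (by norm_num) (by linarith only [k0, k1, c0]) (by linarith only [k0, k1, c0])
  have tv : (mul (mul (q 10000 2000) (sub (q 8600 10000) (var 2))) (var 3)).val [a, T, k, K] = K * tr 0 (86 / 100) (15 / 100) (20 / 100) k := by
    rw [e]; simp only [E.val, lkR]; push_cast; ring
  obtain ⟨y1, y2⟩ := hts (a := a) (T := T) (K := K) (r := tr 0 (86 / 100) (15 / 100) (20 / 100) k) (by linarith only [a0]) (by linarith only [a1])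
    (by linarith only [T0]) (by linarith only [T1]) (tr01 _ _ _ _).1
    (tr01 _ _ _ _).2 (by linarith only [K0]) (by linarith only [K1]) (by linarith only [S1])
  have Rr : Row1 (q 3 10) (mul (mul (q 10000 2000) (sub (q 8600 10000) (var 2))) (var 3)) (gL (mul (mul (q 10000 2000) (sub (q 8600 10000) (var 2))) (var 3)))
    (fe 37 400 3606 7534 751 104344 (var 1)) a T k K (3 / 10) (K * tr 0 (86 / 100) (15 / 100) (20 / 100) k)
    (fr 37 400 3606 7534 751 104344 a T) (-110) 1010 :=
    ⟨cv, tv, fv, gL_le tv (by linarith only [k0, k1, c0]) (by linarith only [k1]) y2, by push_cast; linarith only [S0],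
      by push_cast; linarith only [S1]⟩
  rcases le_total (a + k) (107 / 100) with d0 | d0
  · rcases le_total 0 (4 * T * (6 / 10 - a) + K * tr 0 (86 / 100) (15 / 100) (20 / 100) k) with y | y
    · have hc : chkT (altH (q 3 10) (mul (mul (q 10000 2000) (sub (q 8600 10000) (var 2))) (var 3)) (gL (mul (mul (q 10000 2000) (sub (q 8600 10000) (var 2))) (var 3))) (fe 37 400 3606 7534 751 104344 (var 1)) (q 1 1) (-110) 1010)
          28 2451
          [V.of 10000 3500 3900 4, V.of 10000 100 580 4, V.of 10000 6600 7000 4, V.of 10000 (-610) 650 4] = true := by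
        decide +kernel
      exact rowH1 Rr p1 (Or.inl rfl) hc ⟨by push_cast; linarith only [a0], by push_cast; linarith only [a1]⟩
        ⟨by push_cast; linarith only [T0], by push_cast; linarith only [T1]⟩
        ⟨by push_cast; linarith only [a0, a1, k0, k1, c0, d0], by push_cast; linarith only [a0, a1, k0, k1, c0, d0]⟩
        ⟨by push_cast; linarith only [K0], by push_cast; linarith only [K1]⟩
        (by push_cast; linarith only [a0, a1, k0, k1, c0, d0]) (by push_cast; linarith only [a0, a1, k0, k1, c0, d0]) (by linarith only [y]) (by linarith only [(abs_le.1 y1).1, (abs_le.1 y1).2])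
    · have hc : chkT (altH (q 3 10) (mul (mul (q 10000 2000) (sub (q 8600 10000) (var 2))) (var 3)) (gL (mul (mul (q 10000 2000) (sub (q 8600 10000) (var 2))) (var 3))) (fe 37 400 3606 7534 751 104344 (var 1)) (q (-1) 1) (-110) 1010)
          28 1221724254944110130697010272156011949084502705844793554253011736812250415772795465207918899
          [V.of 10000 3500 3900 4, V.of 10000 100 580 4, V.of 10000 6600 7000 4, V.of 10000 (-610) 650 4] = true := by
        decide +kernel
      exact rowH1 Rr p2 (Or.inr rfl) hc ⟨by push_cast; linarith only [a0], by push_cast; linarith only [a1]⟩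
        ⟨by push_cast; linarith only [T0], by push_cast; linarith only [T1]⟩
        ⟨by push_cast; linarith only [a0, a1, k0, k1, c0, d0], by push_cast; linarith only [a0, a1, k0, k1, c0, d0]⟩
        ⟨by push_cast; linarith only [K0], by push_cast; linarith only [K1]⟩
        (by push_cast; linarith only [a0, a1, k0, k1, c0, d0]) (by push_cast; linarith only [a0, a1, k0, k1, c0, d0]) (by linarith only [y]) (by linarith only [(abs_le.1 y1).1, (abs_le.1 y1).2])
  · rcases le_total 0 (4 * T * (6 / 10 - a) + K * tr 0 (86 / 100) (15 / 100) (20 / 100) k) with y | y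
    · have hc : chkT (altB (q 3 10) (mul (mul (q 10000 2000) (sub (q 8600 10000) (var 2))) (var 3)) (gL (mul (mul (q 10000 2000) (sub (q 8600 10000) (var 2))) (var 3))) (fe 37 400 3606 7534 751 104344 (var 1)) (q 1 1) (-110) 1010)
          28 614807322117046579
          [V.of 10000 3500 3900 4, V.of 10000 100 580 4, V.of 10000 6800 7000 4, V.of 10000 (-610) 650 4] = true := by
        decide +kernel
      exact rowB1 Rr p1 (Or.inl rfl) hc ⟨by push_cast; linarith only [a0], by push_cast; linarith only [a1]⟩
        ⟨by push_cast; linarith only [T0], by push_cast; linarith only [T1]⟩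
        ⟨by push_cast; linarith only [a0, a1, k0, k1, c0, d0], by push_cast; linarith only [a0, a1, k0, k1, c0, d0]⟩
        ⟨by push_cast; linarith only [K0], by push_cast; linarith only [K1]⟩
        (by push_cast; linarith only [a0, a1, k0, k1, c0, d0]) (by linarith only [y])
    · have hc : chkT (altB (q 3 10) (mul (mul (q 10000 2000) (sub (q 8600 10000) (var 2))) (var 3)) (gL (mul (mul (q 10000 2000) (sub (q 8600 10000) (var 2))) (var 3))) (fe 37 400 3606 7534 751 104344 (var 1)) (q (-1) 1) (-110) 1010)
          28 157380682103135088947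
          [V.of 10000 3500 3900 4, V.of 10000 100 580 4, V.of 10000 6800 7000 4, V.of 10000 (-610) 650 4] = true := by
        decide +kernel
      exact rowB1 Rr p2 (Or.inr rfl) hc ⟨by push_cast; linarith only [a0], by push_cast; linarith only [a1]⟩
        ⟨by push_cast; linarith only [T0], by push_cast; linarith only [T1]⟩
        ⟨by push_cast; linarith only [a0, a1, k0, k1, c0, d0], by push_cast; linarith only [a0, a1, k0, k1, c0, d0]⟩
        ⟨by push_cast; linarith only [K0], by push_cast; linarith only [K1]⟩
        (by push_cast; linarith only [a0, a1, k0, k1, c0, d0]) (by linarith only [y])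

theorem d1_oneX_B {a T k K : ℝ} (a0 : 3900 / 10000 ≤ a) (a1 : a ≤ 5000 / 10000)
    (T0 : 100 / 10000 ≤ T) (T1 : T ≤ 580 / 10000) (K0 : -(610 / 10000) ≤ K)
    (K1 : K ≤ 650 / 10000) (S0 : -(110 / 10000) ≤ T + K) (S1 : T + K ≤ 1010 / 10000)
    (k0 : 6000 / 10000 ≤ k) (k1 : k ≤ 7000 / 10000) :
    0 < D1 (3 / 10) a T k (K * tr 0 (86 / 100) (15 / 100) (20 / 100) k) +
      fr 45 400 9516 7121 10921 163227 a T := by
  have cv : ((q 3 10) : E).val [a, T, k, K] = 3 / 10 := by
    simp only [E.val]; norm_num
  have fv : (fe 45 400 9516 7121 10921 163227 (var 1)).val [a, T, k, K] = fr 45 400 9516 7121 10921 163227 a T :=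
    fe_val (by simp only [E.val, lkR])
  have p1 : ((q 1 1) : E).val [a, T, k, K] = 1 := by simp only [E.val]; norm_num
  have p2 : ((q (-1) 1) : E).val [a, T, k, K] = -1 := by simp only [E.val]; norm_num
  rcases le_total k (6600 / 10000) with c0 | c0
  · have e : tr 0 (86 / 100) (15 / 100) (20 / 100) k = 1 :=
      tr_b (by norm_num) (by norm_num) (by linarith only [k0, k1, c0]) (by linarith only [k0, k1, c0])
    have tv : (var 3).val [a, T, k, K] = K * tr 0 (86 / 100) (15 / 100) (20 / 100) k := by
      rw [e]; simp only [E.val, lkR]; ring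
    obtain ⟨y1, y2⟩ := hts (a := a) (T := T) (K := K) (r := tr 0 (86 / 100) (15 / 100) (20 / 100) k) (by linarith only [a0]) (by linarith only [a1])
      (by linarith only [T0]) (by linarith only [T1]) (tr01 _ _ _ _).1
      (tr01 _ _ _ _).2 (by linarith only [K0]) (by linarith only [K1]) (by linarith only [S1])
    have Rr : Row1 (q 3 10) (var 3) (gU (q 3 10) (var 3))
      (fe 45 400 9516 7121 10921 163227 (var 1)) a T k K (3 / 10) (K * tr 0 (86 / 100) (15 / 100) (20 / 100) k)
      (fr 45 400 9516 7121 10921 163227 a T) (-110) 1010 :=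
      ⟨cv, tv, fv, gU_le cv tv, by push_cast; linarith only [S0],
        by push_cast; linarith only [S1]⟩
    rcases le_total (a + k) (1) with d0 | d0
    · rcases le_total 0 (4 * T * (6 / 10 - a) + K * tr 0 (86 / 100) (15 / 100) (20 / 100) k) with y | y
      · have hc : chkT (altN (q 3 10) (var 3) (gU (q 3 10) (var 3)) (fe 45 400 9516 7121 10921 163227 (var 1)) (q 1 1) (-110) 1010)
            28 2451
            [V.of 10000 3900 5000 4, V.of 10000 100 580 4, V.of 10000 6000 6100 4, V.of 10000 (-610) 650 4] = true := by
          decide +kernel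
        exact rowN1 Rr p1 (Or.inl rfl) hc ⟨by push_cast; linarith only [a0], by push_cast; linarith only [a1]⟩
          ⟨by push_cast; linarith only [T0], by push_cast; linarith only [T1]⟩
          ⟨by push_cast; linarith only [a0, a1, k0, k1, c0, d0], by push_cast; linarith only [a0, a1, k0, k1, c0, d0]⟩
          ⟨by push_cast; linarith only [K0], by push_cast; linarith only [K1]⟩
          (by push_cast; linarith only [a0, a1, k0, k1, c0, d0]) (by push_cast; linarith only [a0, a1, k0, k1, c0, d0]) (by linarith only [y])
      · have hc : chkT (altN (q 3 10) (var 3) (gU (q 3 10) (var 3)) (fe 45 400 9516 7121 10921 163227 (var 1)) (q (-1) 1) (-110) 1010)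
            28 9
            [V.of 10000 3900 5000 4, V.of 10000 100 580 4, V.of 10000 6000 6100 4, V.of 10000 (-610) 650 4] = true := by
          decide +kernel
        exact rowN1 Rr p2 (Or.inr rfl) hc ⟨by push_cast; linarith only [a0], by push_cast; linarith only [a1]⟩
          ⟨by push_cast; linarith only [T0], by push_cast; linarith only [T1]⟩
          ⟨by push_cast; linarith only [a0, a1, k0, k1, c0, d0], by push_cast; linarith only [a0, a1, k0, k1, c0, d0]⟩
          ⟨by push_cast; linarith only [K0], by push_cast; linarith only [K1]⟩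
          (by push_cast; linarith only [a0, a1, k0, k1, c0, d0]) (by push_cast; linarith only [a0, a1, k0, k1, c0, d0]) (by linarith only [y])
    · rcases le_total (a + k) (107 / 100) with d1 | d1
      · rcases le_total 0 (4 * T * (6 / 10 - a) + K * tr 0 (86 / 100) (15 / 100) (20 / 100) k) with y | y
        · have hc : chkT (altH (q 3 10) (var 3) (gU (q 3 10) (var 3)) (fe 45 400 9516 7121 10921 163227 (var 1)) (q 1 1) (-110) 1010)
              28 627603
              [V.of 10000 3900 5000 4, V.of 10000 100 580 4, V.of 10000 6000 6600 4, V.of 10000 (-610) 650 4] = true := by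
            decide +kernel
          exact rowH1 Rr p1 (Or.inl rfl) hc ⟨by push_cast; linarith only [a0], by push_cast; linarith only [a1]⟩
            ⟨by push_cast; linarith only [T0], by push_cast; linarith only [T1]⟩
            ⟨by push_cast; linarith only [a0, a1, k0, k1, c0, d0, d1], by push_cast; linarith only [a0, a1, k0, k1, c0, d0, d1]⟩
            ⟨by push_cast; linarith only [K0], by push_cast; linarith only [K1]⟩
            (by push_cast; linarith only [a0, a1, k0, k1, c0, d0, d1]) (by push_cast; linarith only [a0, a1, k0, k1, c0, d0, d1]) (by linarith only [y]) (by linarith only [(abs_le.1 y1).1, (abs_le.1 y1).2])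
        · have hc : chkT (altH (q 3 10) (var 3) (gU (q 3 10) (var 3)) (fe 45 400 9516 7121 10921 163227 (var 1)) (q (-1) 1) (-110) 1010)
              28 2451
              [V.of 10000 3900 5000 4, V.of 10000 100 580 4, V.of 10000 6000 6600 4, V.of 10000 (-610) 650 4] = true := by
            decide +kernel
          exact rowH1 Rr p2 (Or.inr rfl) hc ⟨by push_cast; linarith only [a0], by push_cast; linarith only [a1]⟩
            ⟨by push_cast; linarith only [T0], by push_cast; linarith only [T1]⟩
            ⟨by push_cast; linarith only [a0, a1, k0, k1, c0, d0, d1], by push_cast; linarith only [a0, a1, k0, k1, c0, d0, d1]⟩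
            ⟨by push_cast; linarith only [K0], by push_cast; linarith only [K1]⟩
            (by push_cast; linarith only [a0, a1, k0, k1, c0, d0, d1]) (by push_cast; linarith only [a0, a1, k0, k1, c0, d0, d1]) (by linarith only [y]) (by linarith only [(abs_le.1 y1).1, (abs_le.1 y1).2])
      · rcases le_total 0 (4 * T * (6 / 10 - a) + K * tr 0 (86 / 100) (15 / 100) (20 / 100) k) with y | y
        · have hc : chkT (altB (q 3 10) (var 3) (gU (q 3 10) (var 3)) (fe 45 400 9516 7121 10921 163227 (var 1)) (q 1 1) (-110) 1010)
              28 674526848967416388756388757536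
              [V.of 10000 3900 5000 4, V.of 10000 100 580 4, V.of 10000 6000 6600 4, V.of 10000 (-610) 650 4] = true := by
            decide +kernel
          exact rowB1 Rr p1 (Or.inl rfl) hc ⟨by push_cast; linarith only [a0], by push_cast; linarith only [a1]⟩
            ⟨by push_cast; linarith only [T0], by push_cast; linarith only [T1]⟩
            ⟨by push_cast; linarith only [a0, a1, k0, k1, c0, d0, d1], by push_cast; linarith only [a0, a1, k0, k1, c0, d0, d1]⟩
            ⟨by push_cast; linarith only [K0], by push_cast; linarith only [K1]⟩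
            (by push_cast; linarith only [a0, a1, k0, k1, c0, d0, d1]) (by linarith only [y])
        · have hc : chkT (altB (q 3 10) (var 3) (gU (q 3 10) (var 3)) (fe 45 400 9516 7121 10921 163227 (var 1)) (q (-1) 1) (-110) 1010)
              28 40291406932545473610288
              [V.of 10000 3900 5000 4, V.of 10000 100 580 4, V.of 10000 6000 6600 4, V.of 10000 (-610) 650 4] = true := by
            decide +kernel
          exact rowB1 Rr p2 (Or.inr rfl) hc ⟨by push_cast; linarith only [a0], by push_cast; linarith only [a1]⟩
            ⟨by push_cast; linarith only [T0], by push_cast; linarith only [T1]⟩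
            ⟨by push_cast; linarith only [a0, a1, k0, k1, c0, d0, d1], by push_cast; linarith only [a0, a1, k0, k1, c0, d0, d1]⟩
            ⟨by push_cast; linarith only [K0], by push_cast; linarith only [K1]⟩
            (by push_cast; linarith only [a0, a1, k0, k1, c0, d0, d1]) (by linarith only [y])
  have e : tr 0 (86 / 100) (15 / 100) (20 / 100) k = (86 / 100 - k) / (20 / 100) :=
    tr_c (by norm_num) (by norm_num) (by norm_num) (by linarith only [k0, k1, c0]) (by linarith only [k0, k1, c0])
  have tv : (mul (mul (q 10000 2000) (sub (q 8600 10000) (var 2))) (var 3)).val [a, T, k, K] = K * tr 0 (86 / 100) (15 / 100) (20 / 100) k := by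
    rw [e]; simp only [E.val, lkR]; push_cast; ring
  obtain ⟨y1, y2⟩ := hts (a := a) (T := T) (K := K) (r := tr 0 (86 / 100) (15 / 100) (20 / 100) k) (by linarith only [a0]) (by linarith only [a1])
    (by linarith only [T0]) (by linarith only [T1]) (tr01 _ _ _ _).1
    (tr01 _ _ _ _).2 (by linarith only [K0]) (by linarith only [K1]) (by linarith only [S1])
  have Rr : Row1 (q 3 10) (mul (mul (q 10000 2000) (sub (q 8600 10000) (var 2))) (var 3)) (gL (mul (mul (q 10000 2000) (sub (q 8600 10000) (var 2))) (var 3)))
    (fe 45 400 9516 7121 10921 163227 (var 1)) a T k K (3 / 10) (K * tr 0 (86 / 100) (15 / 100) (20 / 100) k)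
    (fr 45 400 9516 7121 10921 163227 a T) (-110) 1010 :=
    ⟨cv, tv, fv, gL_le tv (by linarith only [k0, k1, c0]) (by linarith only [k1]) y2, by push_cast; linarith only [S0],
      by push_cast; linarith only [S1]⟩
  rcases le_total (a + k) (107 / 100) with d0 | d0
  · rcases le_total 0 (4 * T * (6 / 10 - a) + K * tr 0 (86 / 100) (15 / 100) (20 / 100) k) with y | y
    · have hc : chkT (altH (q 3 10) (mul (mul (q 10000 2000) (sub (q 8600 10000) (var 2))) (var 3)) (gL (mul (mul (q 10000 2000) (sub (q 8600 10000) (var 2))) (var 3))) (fe 45 400 9516 7121 10921 163227 (var 1)) (q 1 1) (-110) 1010)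
          28 2451
          [V.of 10000 3900 5000 4, V.of 10000 100 580 4, V.of 10000 6600 6800 4, V.of 10000 (-610) 650 4] = true := by
        decide +kernel
      exact rowH1 Rr p1 (Or.inl rfl) hc ⟨by push_cast; linarith only [a0], by push_cast; linarith only [a1]⟩
        ⟨by push_cast; linarith only [T0], by push_cast; linarith only [T1]⟩
        ⟨by push_cast; linarith only [a0, a1, k0, k1, c0, d0], by push_cast; linarith only [a0, a1, k0, k1, c0, d0]⟩
        ⟨by push_cast; linarith only [K0], by push_cast; linarith only [K1]⟩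
        (by push_cast; linarith only [a0, a1, k0, k1, c0, d0]) (by push_cast; linarith only [a0, a1, k0, k1, c0, d0]) (by linarith only [y]) (by linarith only [(abs_le.1 y1).1, (abs_le.1 y1).2])
    · have hc : chkT (altH (q 3 10) (mul (mul (q 10000 2000) (sub (q 8600 10000) (var 2))) (var 3)) (gL (mul (mul (q 10000 2000) (sub (q 8600 10000) (var 2))) (var 3))) (fe 45 400 9516 7121 10921 163227 (var 1)) (q (-1) 1) (-110) 1010)
          28 3832384490516496
          [V.of 10000 3900 5000 4, V.of 10000 100 580 4, V.of 10000 6600 6800 4, V.of 10000 (-610) 650 4] = true := by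
        decide +kernel
      exact rowH1 Rr p2 (Or.inr rfl) hc ⟨by push_cast; linarith only [a0], by push_cast; linarith only [a1]⟩
        ⟨by push_cast; linarith only [T0], by push_cast; linarith only [T1]⟩
        ⟨by push_cast; linarith only [a0, a1, k0, k1, c0, d0], by push_cast; linarith only [a0, a1, k0, k1, c0, d0]⟩
        ⟨by push_cast; linarith only [K0], by push_cast; linarith only [K1]⟩
        (by push_cast; linarith only [a0, a1, k0, k1, c0, d0]) (by push_cast; linarith only [a0, a1, k0, k1, c0, d0]) (by linarith only [y]) (by linarith only [(abs_le.1 y1).1, (abs_le.1 y1).2])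
  · rcases le_total 0 (4 * T * (6 / 10 - a) + K * tr 0 (86 / 100) (15 / 100) (20 / 100) k) with y | y
    · have hc : chkT (altB (q 3 10) (mul (mul (q 10000 2000) (sub (q 8600 10000) (var 2))) (var 3)) (gL (mul (mul (q 10000 2000) (sub (q 8600 10000) (var 2))) (var 3))) (fe 45 400 9516 7121 10921 163227 (var 1)) (q 1 1) (-110) 1010)
          28 143145008
          [V.of 10000 3900 5000 4, V.of 10000 100 580 4, V.of 10000 6600 7000 4, V.of 10000 (-610) 650 4] = true := by
        decide +kernel
      exact rowB1 Rr p1 (Or.inl rfl) hc ⟨by push_cast; linarith only [a0], by push_cast; linarith only [a1]⟩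
        ⟨by push_cast; linarith only [T0], by push_cast; linarith only [T1]⟩
        ⟨by push_cast; linarith only [a0, a1, k0, k1, c0, d0], by push_cast; linarith only [a0, a1, k0, k1, c0, d0]⟩
        ⟨by push_cast; linarith only [K0], by push_cast; linarith only [K1]⟩
        (by push_cast; linarith only [a0, a1, k0, k1, c0, d0]) (by linarith only [y])
    · have hc : chkT (altB (q 3 10) (mul (mul (q 10000 2000) (sub (q 8600 10000) (var 2))) (var 3)) (gL (mul (mul (q 10000 2000) (sub (q 8600 10000) (var 2))) (var 3))) (fe 45 400 9516 7121 10921 163227 (var 1)) (q (-1) 1) (-110) 1010)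
          28 157051922627951788336
          [V.of 10000 3900 5000 4, V.of 10000 100 580 4, V.of 10000 6600 7000 4, V.of 10000 (-610) 650 4] = true := by
        decide +kernel
      exact rowB1 Rr p2 (Or.inr rfl) hc ⟨by push_cast; linarith only [a0], by push_cast; linarith only [a1]⟩
        ⟨by push_cast; linarith only [T0], by push_cast; linarith only [T1]⟩
        ⟨by push_cast; linarith only [a0, a1, k0, k1, c0, d0], by push_cast; linarith only [a0, a1, k0, k1, c0, d0]⟩
        ⟨by push_cast; linarith only [K0], by push_cast; linarith only [K1]⟩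
        (by push_cast; linarith only [a0, a1, k0, k1, c0, d0]) (by linarith only [y])

theorem d1_oneX_C {a T k K : ℝ} (a0 : 5000 / 10000 ≤ a) (a1 : a ≤ 6000 / 10000)
    (T0 : 100 / 10000 ≤ T) (T1 : T ≤ 580 / 10000) (K0 : -(610 / 10000) ≤ K)
    (K1 : K ≤ 650 / 10000) (S0 : -(110 / 10000) ≤ T + K) (S1 : T + K ≤ 1010 / 10000)
    (k0 : 6000 / 10000 ≤ k) (k1 : k ≤ 7000 / 10000) :
    0 < D1 (3 / 10) a T k (K * tr 0 (86 / 100) (15 / 100) (20 / 100) k) +
      fr 55 400 16147 5733 20145 196602 a T := by
  have cv : ((q 3 10) : E).val [a, T, k, K] = 3 / 10 := by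
    simp only [E.val]; norm_num
  have fv : (fe 55 400 16147 5733 20145 196602 (var 1)).val [a, T, k, K] = fr 55 400 16147 5733 20145 196602 a T :=
    fe_val (by simp only [E.val, lkR])
  have p1 : ((q 1 1) : E).val [a, T, k, K] = 1 := by simp only [E.val]; norm_num
  have p2 : ((q (-1) 1) : E).val [a, T, k, K] = -1 := by simp only [E.val]; norm_num
  rcases le_total k (6600 / 10000) with c0 | c0
  · have e : tr 0 (86 / 100) (15 / 100) (20 / 100) k = 1 :=
      tr_b (by norm_num) (by norm_num) (by linarith only [k0, k1, c0]) (by linarith only [k0, k1, c0])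
    have tv : (var 3).val [a, T, k, K] = K * tr 0 (86 / 100) (15 / 100) (20 / 100) k := by
      rw [e]; simp only [E.val, lkR]; ring
    obtain ⟨y1, y2⟩ := hts (a := a) (T := T) (K := K) (r := tr 0 (86 / 100) (15 / 100) (20 / 100) k) (by linarith only [a0]) (by linarith only [a1])
      (by linarith only [T0]) (by linarith only [T1]) (tr01 _ _ _ _).1
      (tr01 _ _ _ _).2 (by linarith only [K0]) (by linarith only [K1]) (by linarith only [S1])
    have Rr : Row1 (q 3 10) (var 3) (gU (q 3 10) (var 3))
      (fe 55 400 16147 5733 20145 196602 (var 1)) a T k K (3 / 10) (K * tr 0 (86 / 100) (15 / 100) (20 / 100) k)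
      (fr 55 400 16147 5733 20145 196602 a T) (-110) 1010 :=
      ⟨cv, tv, fv, gU_le cv tv, by push_cast; linarith only [S0],
        by push_cast; linarith only [S1]⟩
    rcases le_total 0 (4 * T * (6 / 10 - a) + K * tr 0 (86 / 100) (15 / 100) (20 / 100) k) with y | y
    · have hc : chkT (altB (q 3 10) (var 3) (gU (q 3 10) (var 3)) (fe 55 400 16147 5733 20145 196602 (var 1)) (q 1 1) (-110) 1010)
          28 2179
          [V.of 10000 5000 6000 4, V.of 10000 100 580 4, V.of 10000 6000 6600 4, V.of 10000 (-610) 650 4] = true := by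
        decide +kernel
      exact rowB1 Rr p1 (Or.inl rfl) hc ⟨by push_cast; linarith only [a0], by push_cast; linarith only [a1]⟩
        ⟨by push_cast; linarith only [T0], by push_cast; linarith only [T1]⟩
        ⟨by push_cast; linarith only [a0, a1, k0, k1, c0], by push_cast; linarith only [a0, a1, k0, k1, c0]⟩
        ⟨by push_cast; linarith only [K0], by push_cast; linarith only [K1]⟩
        (by push_cast; linarith only [a0, a1, k0, k1, c0]) (by linarith only [y])
    · have hc : chkT (altB (q 3 10) (var 3) (gU (q 3 10) (var 3)) (fe 55 400 16147 5733 20145 196602 (var 1)) (q (-1) 1) (-110) 1010)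
          28 2179
          [V.of 10000 5000 6000 4, V.of 10000 100 580 4, V.of 10000 6000 6600 4, V.of 10000 (-610) 650 4] = true := by
        decide +kernel
      exact rowB1 Rr p2 (Or.inr rfl) hc ⟨by push_cast; linarith only [a0], by push_cast; linarith only [a1]⟩
        ⟨by push_cast; linarith only [T0], by push_cast; linarith only [T1]⟩
        ⟨by push_cast; linarith only [a0, a1, k0, k1, c0], by push_cast; linarith only [a0, a1, k0, k1, c0]⟩
        ⟨by push_cast; linarith only [K0], by push_cast; linarith only [K1]⟩
        (by push_cast; linarith only [a0, a1, k0, k1, c0]) (by linarith only [y])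
  have e : tr 0 (86 / 100) (15 / 100) (20 / 100) k = (86 / 100 - k) / (20 / 100) :=
    tr_c (by norm_num) (by norm_num) (by norm_num) (by linarith only [k0, k1, c0]) (by linarith only [k0, k1, c0])
  have tv : (mul (mul (q 10000 2000) (sub (q 8600 10000) (var 2))) (var 3)).val [a, T, k, K] = K * tr 0 (86 / 100) (15 / 100) (20 / 100) k := by
    rw [e]; simp only [E.val, lkR]; push_cast; ring
  obtain ⟨y1, y2⟩ := hts (a := a) (T := T) (K := K) (r := tr 0 (86 / 100) (15 / 100) (20 / 100) k) (by linarith only [a0]) (by linarith only [a1])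
    (by linarith only [T0]) (by linarith only [T1]) (tr01 _ _ _ _).1
    (tr01 _ _ _ _).2 (by linarith only [K0]) (by linarith only [K1]) (by linarith only [S1])
  have Rr : Row1 (q 3 10) (mul (mul (q 10000 2000) (sub (q 8600 10000) (var 2))) (var 3)) (gL (mul (mul (q 10000 2000) (sub (q 8600 10000) (var 2))) (var 3)))
    (fe 55 400 16147 5733 20145 196602 (var 1)) a T k K (3 / 10) (K * tr 0 (86 / 100) (15 / 100) (20 / 100) k)
    (fr 55 400 16147 5733 20145 196602 a T) (-110) 1010 :=
    ⟨cv, tv, fv, gL_le tv (by linarith only [k0, k1, c0]) (by linarith only [k1]) y2, by push_cast; linarith only [S0],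
      by push_cast; linarith only [S1]⟩
  rcases le_total 0 (4 * T * (6 / 10 - a) + K * tr 0 (86 / 100) (15 / 100) (20 / 100) k) with y | y
  · have hc : chkT (altB (q 3 10) (mul (mul (q 10000 2000) (sub (q 8600 10000) (var 2))) (var 3)) (gL (mul (mul (q 10000 2000) (sub (q 8600 10000) (var 2))) (var 3))) (fe 55 400 16147 5733 20145 196602 (var 1)) (q 1 1) (-110) 1010)
        28 8
        [V.of 10000 5000 6000 4, V.of 10000 100 580 4, V.of 10000 6600 7000 4, V.of 10000 (-610) 650 4] = true := by
      decide +kernel
    exact rowB1 Rr p1 (Or.inl rfl) hc ⟨by push_cast; linarith only [a0], by push_cast; linarith only [a1]⟩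
      ⟨by push_cast; linarith only [T0], by push_cast; linarith only [T1]⟩
      ⟨by push_cast; linarith only [a0, a1, k0, k1, c0], by push_cast; linarith only [a0, a1, k0, k1, c0]⟩
      ⟨by push_cast; linarith only [K0], by push_cast; linarith only [K1]⟩
      (by push_cast; linarith only [a0, a1, k0, k1, c0]) (by linarith only [y])
  · have hc : chkT (altB (q 3 10) (mul (mul (q 10000 2000) (sub (q 8600 10000) (var 2))) (var 3)) (gL (mul (mul (q 10000 2000) (sub (q 8600 10000) (var 2))) (var 3))) (fe 55 400 16147 5733 20145 196602 (var 1)) (q (-1) 1) (-110) 1010)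
        28 8
        [V.of 10000 5000 6000 4, V.of 10000 100 580 4, V.of 10000 6600 7000 4, V.of 10000 (-610) 650 4] = true := by
      decide +kernel
    exact rowB1 Rr p2 (Or.inr rfl) hc ⟨by push_cast; linarith only [a0], by push_cast; linarith only [a1]⟩
      ⟨by push_cast; linarith only [T0], by push_cast; linarith only [T1]⟩
      ⟨by push_cast; linarith only [a0, a1, k0, k1, c0], by push_cast; linarith only [a0, a1, k0, k1, c0]⟩
      ⟨by push_cast; linarith only [K0], by push_cast; linarith only [K1]⟩
      (by push_cast; linarith only [a0, a1, k0, k1, c0]) (by linarith only [y])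

end L3

end Pool.Agent.Work.MP_b30479_gtS.G2

end

section

/-!
# Part of `WE31`
-/
namespace Pool.Agent.Work.MP_b30479_gtS.G2

open Finset VOL Filter Topology NumUs

namespace L3

theorem fin_twoE {T h μ a k K : ℝ} {v : ℂ} (hT : HT .one T h) (H : MaxM v h μ) (hr : v.re = a)
    (hi : v.im = 4 * T * (6 / 10 - a)) (a0 : 35 / 100 ≤ a) (a1 : a ≤ 60 / 100)
    (T0 : 69 / 1000 ≤ -T) (T1 : -T ≤ 78 / 1000) (K0 : -(24 / 1000) ≤ K) (K1 : K ≤ -(11 / 1000))
    (S0 : 51 / 1000 ≤ -T + K) (S1 : -T + K ≤ 64 / 1000) (k0 : 7 / 100 ≤ k)
    (k1 : k ≤ 70 / 100) :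
    ∃ B, Wm v (mpt h μ) ≤ tg (3 / 10) T h + uu a (4 * T * (6 / 10 - a)) - B ∧
      0 < D1 (3 / 10) a (-T) k (K * tr 0 (70 / 100) (14 / 100) (35 / 100) k) + B := by
  rcases le_total a (39 / 100) with h1 | h1
  · exact ⟨_, v3_twoE_A hT H hr hi (by linarith only [a0]) (by linarith only [h1]) (by linarith only [T1]) (by linarith only [T0]),
      d1_twoE_A (by linarith only [a0]) (by linarith only [h1]) (by linarith only [T0]) (by linarith only [T1]) (by linarith only [K0])
        (by linarith only [K1]) (by linarith only [S0]) (by linarith only [S1]) k0 (by linarith only [k1])⟩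
  rcases le_total a (50 / 100) with h2 | h2
  · exact ⟨_, v3_twoE_B hT H hr hi (by linarith only [h1]) (by linarith only [h2]) (by linarith only [T1]) (by linarith only [T0]),
      d1_twoE_B (by linarith only [h1]) (by linarith only [h2]) (by linarith only [T0]) (by linarith only [T1]) (by linarith only [K0])
        (by linarith only [K1]) (by linarith only [S0]) (by linarith only [S1]) k0 (by linarith only [k1])⟩
  · exact ⟨_, v3_twoE_C hT H hr hi (by linarith only [h2]) (by linarith only [a1]) (by linarith only [T1]) (by linarith only [T0]),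
      d1_twoE_C (by linarith only [h2]) (by linarith only [a1]) (by linarith only [T0]) (by linarith only [T1]) (by linarith only [K0])
        (by linarith only [K1]) (by linarith only [S0]) (by linarith only [S1]) k0 (by linarith only [k1])⟩

end L3

namespace SR

variable {M : ℕ} {b : Fin (M + 1) → ℤ} {zs : DD (tyW b) ⊕ ZZ (tyW b) → ℂ}
variable {y : DD (tyW b) ⊕ ZZ (tyW b) → ℝ}
variable {h h' : Fin M} {i j j' : Fin (M + 1)} {p : Fin 3}

theorem hpp_11 (q : Fin 3) (Q : Cl) : ((hpp q .threeE .one .one Q).XM = 80 / 100 ∨
    (hpp q .threeE .one .one Q).XM = 86 / 100) ∧ (hpp q .threeE .one .one Q).cl = 15 / 100 ∧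
    (hpp q .threeE .one .one Q).cr = 20 / 100 := by
  unfold hpp hp
  cases Q <;> split_ifs <;> simp

end SR

end Pool.Agent.Work.MP_b30479_gtS.G2

end
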