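import Pool.Agent.Work.MP_b30479_gt.TBS.G2.ML3t_0
import Pool.Agent.Work.MP_b30479_gt.TBS.G2.ML3r
import Pool.Agent.Work.MP_b30479_gt.TBS.NumU.Tree
import Pool.Agent.Work.MP_b30479_gt.TBS.G2.ML3u_2
import Pool.Agent.Work.MP_b30479_gt.TBS.G2.ML3x
import Pool.Agent.Work.MP_b30479_gt.TBS.G2.WE31_2

section

/-!
# Part of `ML3t`
-/
set_option deprecated.oldSectionVars true

namespace Pool.Agent.Work.MP_b30479_gtS.G2

open Finset VOL Filter Topology

namespace L3

open NumIs (V lkR)
open NumUs NumUs.E

set_option linter.unusedTactic false

theorem v3_one_A {T h μ a : ℝ} {v : ℂ} (hT : HT .one T h) (H : MaxM v h μ) (hr : v.re = a)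
    (hi : v.im = 4 * T * (6 / 10 - a)) (a0 : 3500 / 10000 ≤ a) (a1 : a ≤ 3900 / 10000)
    (T0 : -(580 / 10000) ≤ T) (T1 : T ≤ -(100 / 10000)) :
    Wm v (mpt h μ) ≤ tg (3 / 10) T h + uu a (4 * T * (6 / 10 - a)) -
      fr 37 400 3606 7534 751 104344 a (-T) := by
  obtain ⟨t0, t1, h0, h1⟩ := hT
  have cv : ∀ μ : ℝ, ((q 3 10) : E).val [a, T, h, μ] = 3 / 10 := fun μ => by
    simp only [E.val]; norm_num
  have fv : ∀ μ : ℝ, (fe 37 400 3606 7534 751 104344 (neg (var 1))).val [a, T, h, μ] = fr 37 400 3606 7534 751 104344 a (-T) :=
    fun μ => fe_val (by simp only [E.val, lkR])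
  refine val_one ⟨t0, t1, h0, h1⟩ H hr hi (by linarith only [a0]) (by linarith only [a1]) ?_ ?_
  · intro w c
    have hc : chkT (alt3 xSL (q 3 10) (fe 37 400 3606 7534 751 104344 (neg (var 1))) (-1000))
        28 8155930351856926016548192417111708462368538158907159645349209839429144488320462396065897231273016970449270188059747802564855500416424172282473388199204694096971517560396166112406284041075374770473695674099472419815920851689652586469395621630671185756020744712555622553848931685701328618607770069389697784967284474621962000928773375807966281245709341329841437255792747557654783062323479956731507132611972575644327599607099318567723161713758377493764458029120379970495752203976687060719708436755504823757853629855538139758149616647709351204806104294741575717330825241442897177533498054789515054276355092336575545334859958876186729573073960714627500715891922921891599335511676249976654895053402145587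
        [V.of 10000 3500 3900 4, V.of 10000 (-580) (-100) 4, V.of 10000 50 620 4, V.of 10000 4000 5700 4] = true :=
      Pool.Agent.Work.NumUs.chkT_of (Pool.Agent.Work.NumUs.runT_split rfl rfl rfl
        v3_one_A_h1_q1
        (Pool.Agent.Work.NumUs.runT_split rfl rfl rfl
          (Pool.Agent.Work.NumUs.runT_split rfl rfl rfl
            v3_one_A_h1_q2
            (Pool.Agent.Work.NumUs.runT_split rfl rfl rfl
              v3_one_A_h1_q3
              v3_one_A_h1_q4))
          v3_one_A_h1_q5))
    exact row3_of xSL_val hc ⟨by push_cast; linarith only [a0], by push_cast; linarith only [a1, w, c]⟩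
      ⟨by push_cast; linarith only [T0], by push_cast; linarith only [T1]⟩
      ⟨by push_cast; linarith only [w, a0], by push_cast; linarith only [c]⟩
      h0 (by linarith only [h1, T1]) h1 (by push_cast; linarith only [h0, T1]) w (cv μ) (fv μ)
  · intro m0 m1 w
    have hc : chkT (alt3 xSR (q 3 10) (fe 37 400 3606 7534 751 104344 (neg (var 1))) (-1000))
        28 152053887314496338604705345616011443975117171265299403959625107360133954826438249411311225033280910473035683923699903900909571546277947619082710831372268541597929210555541438697819501139989283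
        [V.of 10000 3500 3900 4, V.of 10000 (-580) (-100) 4, V.of 10000 50 620 4, V.of 10000 5700 7700 4] = true := by
      decide +kernel
    exact row3_of xSR_val hc ⟨by push_cast; linarith only [a0], by push_cast; linarith only [a1]⟩
      ⟨by push_cast; linarith only [T0], by push_cast; linarith only [T1]⟩
      ⟨by push_cast; linarith only [m0], by push_cast; linarith only [m1]⟩
      h0 (by linarith only [h1, T1]) h1 (by push_cast; linarith only [h0, T1]) w (cv μ) (fv μ)

end L3

end Pool.Agent.Work.MP_b30479_gtS.G2

end

section

/-!
# Part of `ML3t`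
-/
set_option deprecated.oldSectionVars true

namespace Pool.Agent.Work.MP_b30479_gtS.G2

open Finset VOL Filter Topology

namespace L3

open NumIs (V lkR)
open NumUs NumUs.E

set_option linter.unusedTactic false

theorem v3_one_C {T h μ a : ℝ} {v : ℂ} (hT : HT .one T h) (H : MaxM v h μ) (hr : v.re = a)
    (hi : v.im = 4 * T * (6 / 10 - a)) (a0 : 5000 / 10000 ≤ a) (a1 : a ≤ 6000 / 10000)
    (T0 : -(580 / 10000) ≤ T) (T1 : T ≤ -(100 / 10000)) :
    Wm v (mpt h μ) ≤ tg (3 / 10) T h + uu a (4 * T * (6 / 10 - a)) -
      fr 55 400 16147 5733 20145 196602 a (-T) := by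
  obtain ⟨t0, t1, h0, h1⟩ := hT
  have cv : ∀ μ : ℝ, ((q 3 10) : E).val [a, T, h, μ] = 3 / 10 := fun μ => by
    simp only [E.val]; norm_num
  have fv : ∀ μ : ℝ, (fe 55 400 16147 5733 20145 196602 (neg (var 1))).val [a, T, h, μ] = fr 55 400 16147 5733 20145 196602 a (-T) :=
    fun μ => fe_val (by simp only [E.val, lkR])
  refine val_one ⟨t0, t1, h0, h1⟩ H hr hi (by linarith only [a0]) (by linarith only [a1]) ?_ ?_
  · intro w c
    have hc : chkT (alt3 xSL (q 3 10) (fe 55 400 16147 5733 20145 196602 (neg (var 1))) (-1000))
        28 2178
        [V.of 10000 5000 5200 4, V.of 10000 (-580) (-100) 4, V.of 10000 50 620 4, V.of 10000 5500 5700 4] = true := by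
      decide +kernel
    exact row3_of xSL_val hc ⟨by push_cast; linarith only [a0], by push_cast; linarith only [a1, w, c]⟩
      ⟨by push_cast; linarith only [T0], by push_cast; linarith only [T1]⟩
      ⟨by push_cast; linarith only [w, a0], by push_cast; linarith only [c]⟩
      h0 (by linarith only [h1, T1]) h1 (by push_cast; linarith only [h0, T1]) w (cv μ) (fv μ)
  · intro m0 m1 w
    have hc : chkT (alt3 xSR (q 3 10) (fe 55 400 16147 5733 20145 196602 (neg (var 1))) (-1000))
        28 9063069316827096844651495684848430500502475966095307378810880859005999215481456912680786833541885153085835565679051193971780784026104921738819117391273307964939619958305828396776686339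
        [V.of 10000 5000 6000 4, V.of 10000 (-580) (-100) 4, V.of 10000 50 620 4, V.of 10000 5700 7700 4] = true := by
      decide +kernel
    exact row3_of xSR_val hc ⟨by push_cast; linarith only [a0], by push_cast; linarith only [a1]⟩
      ⟨by push_cast; linarith only [T0], by push_cast; linarith only [T1]⟩
      ⟨by push_cast; linarith only [m0], by push_cast; linarith only [m1]⟩
      h0 (by linarith only [h1, T1]) h1 (by push_cast; linarith only [h0, T1]) w (cv μ) (fv μ)

end L3

end Pool.Agent.Work.MP_b30479_gtS.G2

end

section

/-!
# Part of `WE31`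
-/
namespace Pool.Agent.Work.MP_b30479_gtS.G2

open Finset VOL Filter Topology NumUs

namespace L3

theorem fin_one {T h μ a k K XM : ℝ} {v : ℂ} (hT : HT .one T h) (H : MaxM v h μ) (hr : v.re = a)
    (hi : v.im = 4 * T * (6 / 10 - a)) (a0 : 35 / 100 ≤ a) (a1 : a ≤ 60 / 100)
    (T0 : 10 / 1000 ≤ -T) (T1 : -T ≤ 58 / 1000) (K0 : -(61 / 1000) ≤ K) (K1 : K ≤ 65 / 1000)
    (S0 : -(11 / 1000) ≤ -T + K) (S1 : -T + K ≤ 101 / 1000) (k0 : 7 / 100 ≤ k)
    (k1 : k ≤ 70 / 100) (hXM : XM = 80 / 100 ∨ XM = 86 / 100) :
    ∃ B, Wm v (mpt h μ) ≤ tg (3 / 10) T h + uu a (4 * T * (6 / 10 - a)) - B ∧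
      0 < D1 (3 / 10) a (-T) k (K * tr 0 XM (15 / 100) (20 / 100) k) + B := by
  rcases le_total a (39 / 100) with h1 | h1
  · exact ⟨_, v3_one_A hT H hr hi (by linarith only [a0]) (by linarith only [h1]) (by linarith only [T1]) (by linarith only [T0]),
      dd_one hXM (d1_one_A (by linarith only [a0]) (by linarith only [h1]) (by linarith only [T0]) (by linarith only [T1]) (by linarith only [K0])
        (by linarith only [K1]) (by linarith only [S0]) (by linarith only [S1]) k0 (by linarith only [k1]))
        (fun h => d1_oneX_A (by linarith only [a0]) (by linarith only [h1]) (by linarith only [T0]) (by linarith only [T1]) (by linarith only [K0])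
        (by linarith only [K1]) (by linarith only [S0]) (by linarith only [S1]) (by linarith only [h]) (by linarith only [k1])) (by linarith only [k0])⟩
  rcases le_total a (50 / 100) with h2 | h2
  · exact ⟨_, v3_one_B hT H hr hi (by linarith only [h1]) (by linarith only [h2]) (by linarith only [T1]) (by linarith only [T0]),
      dd_one hXM (d1_one_B (by linarith only [h1]) (by linarith only [h2]) (by linarith only [T0]) (by linarith only [T1]) (by linarith only [K0])
        (by linarith only [K1]) (by linarith only [S0]) (by linarith only [S1]) k0 (by linarith only [k1]))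
        (fun h => d1_oneX_B (by linarith only [h1]) (by linarith only [h2]) (by linarith only [T0]) (by linarith only [T1]) (by linarith only [K0])
        (by linarith only [K1]) (by linarith only [S0]) (by linarith only [S1]) (by linarith only [h]) (by linarith only [k1])) (by linarith only [k0])⟩
  · exact ⟨_, v3_one_C hT H hr hi (by linarith only [h2]) (by linarith only [a1]) (by linarith only [T1]) (by linarith only [T0]),
      dd_one hXM (d1_one_C (by linarith only [h2]) (by linarith only [a1]) (by linarith only [T0]) (by linarith only [T1]) (by linarith only [K0])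
        (by linarith only [K1]) (by linarith only [S0]) (by linarith only [S1]) k0 (by linarith only [k1]))
        (fun h => d1_oneX_C (by linarith only [h2]) (by linarith only [a1]) (by linarith only [T0]) (by linarith only [T1]) (by linarith only [K0])
        (by linarith only [K1]) (by linarith only [S0]) (by linarith only [S1]) (by linarith only [h]) (by linarith only [k1])) (by linarith only [k0])⟩

end L3

end Pool.Agent.Work.MP_b30479_gtS.G2

end
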