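import Pool.Agent.Work.MP_b30479_gt.TBS.G2.ML3t_0
import Pool.Agent.Work.MP_b30479_gt.TBS.G2.ML3x
import Pool.Agent.Work.MP_b30479_gt.TBS.G2.ML3v

section

/-!
# Part of `ML3t`
-/
set_option deprecated.oldSectionVars true

namespace Pool.Agent.Work.MP_b30479_gtS.G2

open Finset VOL Filter Topology

namespace L3

open NumIs (V lkR)
open NumUs NumUs.E

set_option linter.unusedTactic false

theorem v3_two_A {T h μ a : ℝ} {v : ℂ} (hT : HT .one T h) (H : MaxM v h μ) (hr : v.re = a)
    (hi : v.im = 4 * T * (6 / 10 - a)) (a0 : 3500 / 10000 ≤ a) (a1 : a ≤ 3900 / 10000)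
    (T0 : -(590 / 10000) ≤ T) (T1 : T ≤ -(300 / 10000))
    (hk : 453 / 10000 + 1 / 3 * T ≤ h) :
    Wm v (mpt h μ) ≤ tg (3 / 10) T h + uu a (4 * T * (6 / 10 - a)) -
      fr 37 400 4493 8150 443 140925 a (-T) := by
  obtain ⟨t0, t1, h0, h1⟩ := hT
  have cv : ∀ μ : ℝ, ((q 3 10) : E).val [a, T, h, μ] = 3 / 10 := fun μ => by
    simp only [E.val]; norm_num
  have fv : ∀ μ : ℝ, (fe 37 400 4493 8150 443 140925 (neg (var 1))).val [a, T, h, μ] = fr 37 400 4493 8150 443 140925 a (-T) :=
    fun μ => fe_val (by simp only [E.val, lkR])
  refine val_one ⟨t0, t1, h0, h1⟩ H hr hi (by linarith only [a0]) (by linarith only [a1]) ?_ ?_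
  · intro w c
    have hc : chkT (alt3 xSL (q 3 10) (fe 37 400 4493 8150 443 140925 (neg (var 1))) 453)
        28 44943959916330301098655969103878846211672111754025184658258857555911171000691464440687211374019551040749932133521354203872458705002831302770097418869665397749548740132524881999390454434836999757773939666056449002987795648304208530509160725083629597636800667727906046649107858756478915449302039253287615405799616523288174838377778368208831205424188497175000806092546088230191647920876072236342656445701333041095050396201023162987652102714079819806919684272628451135458985851472295608254696460970017696725601940541151130610941730852943940421060144297574341786878981717558577244962718048249512933050733705279096775417869573333413309690493034512903914366998005736514102940738940394588843162330692954979882467379686788916842960196489312254808319913980770810830565905469391700124352117516634593839549255584708721327692384442879653161236024154772359220343931542988378402936462703819297229205812109369881524033952464117811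
        [V.of 10000 3500 3900 4, V.of 10000 (-590) (-300) 4, V.of 10000 50 620 4, V.of 10000 4000 5700 4] = true :=
      Pool.Agent.Work.NumUs.chkT_of (Pool.Agent.Work.NumUs.runT_split rfl rfl rfl
        v3_two_A_h1_q1
        (Pool.Agent.Work.NumUs.runT_split rfl rfl rfl
          (Pool.Agent.Work.NumUs.runT_split rfl rfl rfl
            v3_two_A_h1_q2
            (Pool.Agent.Work.NumUs.runT_split rfl rfl rfl
              (Pool.Agent.Work.NumUs.runT_split rfl rfl rfl
                v3_two_A_h1_q3
                v3_two_A_h1_q4)
              v3_two_A_h1_q5))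
          v3_two_A_h1_q6))
    exact row3_of xSL_val hc ⟨by push_cast; linarith only [a0], by push_cast; linarith only [a1, w, c]⟩
      ⟨by push_cast; linarith only [T0], by push_cast; linarith only [T1]⟩
      ⟨by push_cast; linarith only [w, a0], by push_cast; linarith only [c]⟩
      h0 (by linarith only [h1, T1]) h1 (by push_cast; linarith only [h0, T1, hk]) w (cv μ) (fv μ)
  · intro m0 m1 w
    have hc : chkT (alt3 xSR (q 3 10) (fe 37 400 4493 8150 443 140925 (neg (var 1))) 453)
        28 151733261524744334555724266072808079769274463021992877712819974760550065371403671982863924598832686296701907840647215837816200806539461258212555565061870073181335105196758180767602984823792163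
        [V.of 10000 3500 3900 4, V.of 10000 (-590) (-300) 4, V.of 10000 50 620 4, V.of 10000 5700 7700 4] = true := by
      decide +kernel
    exact row3_of xSR_val hc ⟨by push_cast; linarith only [a0], by push_cast; linarith only [a1]⟩
      ⟨by push_cast; linarith only [T0], by push_cast; linarith only [T1]⟩
      ⟨by push_cast; linarith only [m0], by push_cast; linarith only [m1]⟩
      h0 (by linarith only [h1, T1]) h1 (by push_cast; linarith only [h0, T1, hk]) w (cv μ) (fv μ)

end L3

end Pool.Agent.Work.MP_b30479_gtS.G2

end

section

/-!
# Part of `WE31`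
-/
namespace Pool.Agent.Work.MP_b30479_gtS.G2

open Finset VOL Filter Topology NumUs

namespace L3

theorem fin_two {T h μ a k K : ℝ} {v : ℂ} (hT : HT .one T h) (H : MaxM v h μ) (hr : v.re = a)
    (hi : v.im = 4 * T * (6 / 10 - a)) (a0 : 35 / 100 ≤ a) (a1 : a ≤ 60 / 100)
    (T0 : 30 / 1000 ≤ -T) (T1 : -T ≤ 59 / 1000) (K0 : 32 / 1000 ≤ K) (K1 : K ≤ 91 / 1000)
    (S0 : 83 / 1000 ≤ -T + K) (S1 : -T + K ≤ 134 / 1000) (k0 : 7 / 100 ≤ k)
    (k1 : k ≤ 56 / 100) (hk : 453 / 10000 + 1 / 3 * T ≤ h) :
    ∃ B, Wm v (mpt h μ) ≤ tg (3 / 10) T h + uu a (4 * T * (6 / 10 - a)) - B ∧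
      0 < D1 (3 / 10) a (-T) k (K * tr 0 (80 / 100) (16 / 100) (29 / 100) k) + B := by
  rcases le_total a (39 / 100) with h1 | h1
  · exact ⟨_, v3_two_A hT H hr hi (by linarith only [a0]) (by linarith only [h1]) (by linarith only [T1]) (by linarith only [T0]) hk,
      d1_two_A (by linarith only [a0]) (by linarith only [h1]) (by linarith only [T0]) (by linarith only [T1]) (by linarith only [K0])
        (by linarith only [K1]) (by linarith only [S0]) (by linarith only [S1]) k0 (by linarith only [k1])⟩
  rcases le_total a (50 / 100) with h2 | h2
  · exact ⟨_, v3_two_B hT H hr hi (by linarith only [h1]) (by linarith only [h2]) (by linarith only [T1]) (by linarith only [T0]) hk,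
      d1_two_B (by linarith only [h1]) (by linarith only [h2]) (by linarith only [T0]) (by linarith only [T1]) (by linarith only [K0])
        (by linarith only [K1]) (by linarith only [S0]) (by linarith only [S1]) k0 (by linarith only [k1])⟩
  · exact ⟨_, v3_two_C hT H hr hi (by linarith only [h2]) (by linarith only [a1]) (by linarith only [T1]) (by linarith only [T0]) hk,
      d1_two_C (by linarith only [h2]) (by linarith only [a1]) (by linarith only [T0]) (by linarith only [T1]) (by linarith only [K0])
        (by linarith only [K1]) (by linarith only [S0]) (by linarith only [S1]) k0 (by linarith only [k1])⟩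

end L3

end Pool.Agent.Work.MP_b30479_gtS.G2

end
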