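import Pool.Agent.Work.MP_b30479_gt.TBS.G2.WE31_2
import Pool.Agent.Work.MP_b30479_gt.TBS.G2.ML3j_1
import Pool.Agent.Work.MP_b30479_gt.TBS.G2.WLocX
import Pool.Agent.Work.MP_b30479_gt.TBS.G2.ML3t_4
import Pool.Agent.Work.MP_b30479_gt.TBS.G2.ML3x
import Pool.Agent.Work.MP_b30479_gt.TBS.G2.ML3q_1
import Pool.Agent.Work.MP_b30479_gt.TBS.G2.ML3t_3

section

/-!
# Part of `WE31`
-/
namespace Pool.Agent.Work.MP_b30479_gtS.G2

open Finset VOL Filter Topology NumUs

namespace SR

variable {M : ℕ} {b : Fin (M + 1) → ℤ} {zs : DD (tyW b) ⊕ ZZ (tyW b) → ℂ}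
variable {y : DD (tyW b) ⊕ ZZ (tyW b) → ℝ}
variable {h h' : Fin M} {i j j' : Fin (M + 1)} {p : Fin 3}

/-- the height of the inner variable of an end with three crossings next to a digit `1` -/
theorem Adj.height_13 (A : Adj h i p j) (hb : ClassW b) (hL : Loc b zs) (hC : Crit b zs)
    (hi : clsW b i = .one) (hj : clsW b j = .threeE) :
    6 * Real.pi * hE zs hj = Real.pi * ((Ys b zs i p.rev).im - (Ys b zs i p).im) +
      LL (Ys b zs i p + Ys b zs i p.rev) := by
  have hpi := Real.pi_pos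
  have hop := A.opp hb (Or.inl (by rw [hi]; decide))
  have h0 := A.crit_sum hC 0
  rw [A.rs_one _ _ hb hi, A.symm.rs_threeE _ _ hb hj, ofs_zero', ofs_zero'] at h0
  obtain ⟨c1, c2⟩ := A.symm.crit3 hb hC hj
  have h1 := A.symm.boxE hb hL hj
  have h3 := hbox_re (clsW b i) (ssW b h)
  have h4 : Ys b zs j p.rev ∈ strip := by
    unfold Box.In at h1
    exact ⟨by linarith only [h1, h3, h1.1], by linarith only [h1, h3, h1.2.1]⟩
  have h5 := L3.height3 h4 (A.symm.strip3 hb hL hj) c1 c2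
  have e : Ys b zs j p.rev = starRingEnd ℂ (Ys b zs i p) := by
    rw [A.Ys_eq, A.symm.Ys_eq]
    exact ofr_opp hop _
  have e2 : (Ys b zs j 1).im = hE zs hj := by
    rw [Ys_mE hj, ofr_im]
    rfl
  have e3 : ∀ i p, ofr (b i) (xx (tyW b) i zs p) = Ys b zs i p := fun _ _ => rfl
  rw [e3, e3, e3, e3] at h0
  unfold S1 S3 at h0
  rw [c1] at h0
  rw [e] at h0 h5 
  rw [LL_conj] at h0 h5
  rw [Complex.conj_im] at h0 h5
  rw [e2] at h0 h5
  have h6 : LL (Ys b zs i p) = Real.pi * (2 * hE zs hj + (Ys b zs i p).im) := by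
    rw [h5]
    field_simp
    ring
  rw [h6] at h0
  linarith only [hj, h0]

end SR

end Pool.Agent.Work.MP_b30479_gtS.G2

end

section

/-!
# Cap of the hinges between a digit `1` and an end with three crossings

Value steps: the hinge is moved to `3/10` and the inner variable of the end with it.
-/

namespace Pool.Agent.Work.MP_b30479_gtS.G2

open Finset VOL Filter Topology NumUs

namespace SR

variable {M : ℕ} {b : Fin (M + 1) → ℤ} {zs : DD (tyW b) ⊕ ZZ (tyW b) → ℂ}
variable {y : DD (tyW b) ⊕ ZZ (tyW b) → ℝ}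
variable {h h' : Fin M} {i j j' : Fin (M + 1)} {p : Fin 3}

/-! ### the height of the inner variable -/

/-- the digit `1` between a digit `2` and an end with three crossings -/
theorem Adj.height_two (A : Adj h i p j) (A' : Adj h' i p.rev j') (hb : ClassW b)
    (hL : Loc b zs) (hX : LocX b zs) (hC : Crit b zs) (hi : clsW b i = .one)
    (hj : clsW b j = .threeE) (hj' : clsW b j' = .two) :
    453 / 10000 + 1 / 3 * ofs (b j) (zs (.inl (.inl h))).im ≤ hE zs hj := by
  have hpi := Real.pi_pos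
  have hop := A.opp hb (Or.inl (by rw [hi]; decide))
  have hop' := A'.opp hb (Or.inl (by rw [hi]; decide))
  have h1 := A.height_13 hb hL hC hi hj
  obtain ⟨-, -, s0, s1⟩ := hX.win A A' hi
  rw [hj, hj'] at s0 s1
  simp only [cw] at s0 s1
  obtain ⟨x0, x1, -, -⟩ := A.box hb hL
  obtain ⟨z0, z1, -, -⟩ := A'.box hb hL
  rw [hi, hj] at x0 x1
  rw [hi, hj'] at z0 z1
  simp only [hbox] at x0 x1 z0 z1
  have r1 : (Ys b zs i p + Ys b zs i p.rev).re = (zs (.inl (.inl h))).re + (zs (.inl (.inl h'))).re := by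
    rw [Complex.add_re, A.Ys_re, A'.Ys_re]
  have r2 : (Ys b zs i p + Ys b zs i p.rev).im = ofs (b i) (zs (.inl (.inl h))).im +
      ofs (b i) (zs (.inl (.inl h'))).im := by
    rw [Complex.add_im, A.Ys_im, A'.Ys_im]
  rw [Num.LL_lnA (u := Ys b zs i p + Ys b zs i p.rev) ⟨by rw [r1]; linarith only [x0, z0], by rw [r1]; linarith only [x1, z1]⟩, r1,
    r2, A.Ys_im, A'.Ys_im] at h1
  rw [ofs_opp hop]
  have h2 := sad_row (x := (zs (.inl (.inl h))).re + (zs (.inl (.inl h'))).re)
    (t := ofs (b i) (zs (.inl (.inl h))).im + ofs (b i) (zs (.inl (.inl h'))).im)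
    (by linarith only [x0, z0]) (by linarith only [x1, z1]) s0 s1
  have h3 : 6 * Real.pi * (453 / 10000 - 1 / 3 * ofs (b i) (zs (.inl (.inl h))).im) ≤
      6 * Real.pi * hE zs hj := by
    rw [h1]
    have := Real.pi_lt_d4
    nlinarith only [h2, this]
  have h4 := le_of_mul_le_mul_left h3 (by positivity)
  linarith only [hj, h4]

/-! ### the gains -/

end SR

/-! ### the rows together -/

namespace SR

variable {M : ℕ} {b : Fin (M + 1) → ℤ} {zs : DD (tyW b) ⊕ ZZ (tyW b) → ℂ}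
variable {y : DD (tyW b) ⊕ ZZ (tyW b) → ℝ}
variable {h h' : Fin M} {i j j' : Fin (M + 1)} {p : Fin 3}

/-- **Cap of the hinges between a digit `1` and an end with three crossings**: `35/100`. -/
theorem cap_13E (hb : ClassW b) (hL : Loc b zs) (hX : LocX b zs) (hC : Crit b zs)
    (hy : Mx b zs y) (hF : ∀ h : Fin M, 7 / 100 ≤ y (.inl (.inl h)))
    (h11 : ∀ {h : Fin M} {i j : Fin (M + 1)} {p : Fin 3}, Adj h i p j → clsW b i = .one →
      clsW b j = .one → y (.inl (.inl h)) ≤ 70 / 100)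
    (h12 : ∀ {h : Fin M} {i j : Fin (M + 1)} {p : Fin 3}, Adj h i p j → clsW b i = .one →
      clsW b j = .two → y (.inl (.inl h)) ≤ 56 / 100)
    (A : Adj h i p j) (hi : clsW b i = .one) (hj : clsW b j = .threeE) :
    y (.inl (.inl h)) ≤ 35 / 100 := by
  by_contra hcon
  push Not at hcon
  have hop := A.opp hb (Or.inl (by rw [hi]; decide))
  have hrr : p.rev.rev = p := Fin.rev_rev p
  obtain ⟨h', j', A'⟩ := A.other_one hb hi
  have A2 : Adj h i p.rev.rev j := by rw [hrr]; exact A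
  have hok := okp_of hb A A' hi
  obtain ⟨a0, a1, s0, s1⟩ := hX.win A A' hi
  obtain ⟨b0, b1, -, -⟩ := hX.win A' A2 hi
  have hT := A.symm.HT3 hb hL hC hj
  have H := A.symm.maxM hb hy hj
  obtain ⟨e1, e2⟩ := A.symm.XM3 hj
  rw [hi] at e2 hT
  simp only [cr3] at e2
  obtain ⟨-, x1, r1, r2, -⟩ := A.symm.ramp3 hy hj (by rw [e1, e2]; linarith only [hcon])
  rw [hi] at r2
  simp only [cr3] at r2
  rw [show ((25 : ℝ) / 100)⁻¹ = 4 by norm_num] at r2
  have hTT : ofs (b j) (zs (.inl (.inl h))).im = -ofs (b i) (zs (.inl (.inl h))).im := ofs_opp hop _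
  have hT' := hT
  obtain ⟨q0, q1, q2, q3⟩ := hT'
  have hf := hF h'
  have hXM' : y (.inl (.inl h')) ≤ wXM b h' := by
    have := (A'.rh hy).reM
    rwa [A'.re] at this
  have g := fun B hB => gain_13 (B := B) hb hy A A' hi hj hcon (by linarith only [hj, q1, q3]) (by linarith only [hj, q0, q2]) hB
  have hxm := A'.XM_eq b
  have hcl := A'.cl_eq b
  have hcr := A'.cr_eq b
  rw [hrr, A.oc_eq b, hi, hj] at hxm hcl hcr
  rw [hj] at a0 a1 s0 s1 b0 b1
  cases hP : clsW b j' with
  | one =>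
    rw [hP] at a0 a1 s0 s1 b0 b1 hxm hcl hcr
    simp only [cw] at a0 a1 s0 s1 b0 b1
    obtain ⟨u1, u2, u3⟩ := hpp_11 p.rev (oc b j' p.rev)
    rw [← hxm] at u1
    rw [u2] at hcl
    rw [u3] at hcr
    rw [hcl, hcr] at g
    obtain ⟨B, g1, g2⟩ := L3.fin_one (k := y (.inl (.inl h')))
      (K := ofs (b i) (zs (.inl (.inl h'))).im) hT H r1 r2 hcon.le (by linarith only [x1])
      (by linarith only [a0, hTT]) (by linarith only [a1, hTT]) b0 b1 (by linarith only [s0, hTT]) (by linarith only [s1, hTT]) hf (h11 A' hi hP) u1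
    have := g B g1
    rw [hTT, neg_neg] at g2
    linarith only [g2, this]
  | two =>
    rw [hP] at a0 a1 s0 s1 b0 b1 hxm hcl hcr
    simp only [cw] at a0 a1 s0 s1 b0 b1
    have hpar : ∀ Q, SR.hpp p.rev .threeE .one .two Q = ⟨80 / 100, 16 / 100, 29 / 100⟩ := by
      intro Q
      unfold SR.hpp hp hp1
      split_ifs <;> rfl
    rw [hpar] at hxm hcl hcr
    rw [hxm, hcl, hcr] at g
    obtain ⟨B, g1, g2⟩ := L3.fin_two (k := y (.inl (.inl h')))
      (K := ofs (b i) (zs (.inl (.inl h'))).im) hT H r1 r2 hcon.le (by linarith only [x1])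
      (by linarith only [a0, hTT]) (by linarith only [a1, hTT]) b0 b1 (by linarith only [s0, hTT]) (by linarith only [s1, hTT]) hf (h12 A' hi hP)
      (A.height_two A' hb hL hX hC hi hj hP)
    have := g B g1
    rw [hTT, neg_neg] at g2
    linarith only [g2, this]
  | twoE =>
    rw [hP] at a0 a1 s0 s1 b0 b1 hxm hcl hcr
    simp only [cw] at a0 a1 s0 s1 b0 b1
    have hpar : ∀ Q, SR.hpp p.rev .threeE .one .twoE Q = ⟨70 / 100, 14 / 100, 35 / 100⟩ := by
      intro Q
      unfold SR.hpp hp hp1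
      split_ifs <;> rfl
    rw [hpar] at hxm hcl hcr
    rw [hxm, hcl, hcr] at g
    rw [hxm] at hXM'
    obtain ⟨B, g1, g2⟩ := L3.fin_twoE (k := y (.inl (.inl h')))
      (K := ofs (b i) (zs (.inl (.inl h'))).im) hT H r1 r2 hcon.le (by linarith only [x1])
      (by linarith only [a0, hTT]) (by linarith only [a1, hTT]) b0 b1 (by linarith only [s0, hTT]) (by linarith only [s1, hTT]) hf hXM'
    have := g B g1
    rw [hTT, neg_neg] at g2
    linarith only [g2, this]
  | three =>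
    rw [hj, hP] at hok
    simp [ML.okp] at hok
  | threeE =>
    rw [hj, hP] at hok
    simp [ML.okp] at hok
  | ring =>
    rw [hj, hP] at hok
    simp [ML.okp] at hok

end SR

end Pool.Agent.Work.MP_b30479_gtS.G2

end
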