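import Pool.Agent.Work.MP_b30479_gt.TBS.G2.C23R
import Pool.Agent.Work.MP_b30479_gt.TBS.G2.ML3q_1
import Pool.Agent.Work.MP_b30479_gt.TBS.G2.WCap12
import Pool.Agent.Work.MP_b30479_gt.TBS.G2.S0RG_1

section

/-!
# Right ramps next to a `3` or `3e`: the sides of the regions `2`, `2e` in a word

`2 | 3e <= .30`.
-/

set_option linter.unusedTactic false
set_option linter.unreachableTactic false

namespace Pool.Agent.Work.MP_b30479_gtS.G2

open Finset VOL Filter Topology

namespace SR

/-- the other hinge of a digit `2` -/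
theorem p2_core {P C Q : Cl} {p' : Fin 3} {T' : ℝ} {w : ℂ}
    (hrh : RH w T' (hpp p' P .two C Q).XM (hpp p' P .two C Q).cl (hpp p' P .two C Q).cr)
    (b0 : (hbox .two C false).t0 ≤ T') (b1 : T' ≤ (hbox .two C false).t1) (hF : 7 / 100 ≤ w.re)
    (h60 : C = .one → w.re ≤ 60 / 100) : C23.P2 w.re w.im := by
  have hM := hrh.reM
  cases C
  case one =>
    have e : hpp p' P .two .one Q = ⟨80 / 100, 16 / 100, 29 / 100⟩ := by
      unfold hpp hp hp1; split_ifs <;> rfl
    rw [e] at hrh hM
    simp only [hbox] at b0 b1 hrh hM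
    have h6 := h60 rfl
    obtain ⟨⟨c1, c2, c3⟩, ⟨d1, d2, d3⟩, -⟩ := RH_bd (18 / 1000) (985 / 10000) hrh (by norm_num)
      (by norm_num) (by norm_num) (by norm_num) (by linarith only [b1]) (by linarith only [b0])
    exact ⟨hF, h6, by linarith only [d1], by linarith only [c1], by linarith only [hF, c2], by linarith only [hF, d2], by linarith only [h6, c1], by linarith only [h6, d3]⟩
  case two =>
    have e : hpp p' P .two .two Q = ⟨60 / 100, 10 / 100, 28 / 100⟩ := by
      unfold hpp hp; split_ifs <;> rfl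
    rw [e] at hrh hM
    simp only [hbox] at b0 b1 hrh hM
    obtain ⟨⟨c1, c2, c3⟩, ⟨d1, d2, d3⟩, -⟩ := RH_bd (41 / 1000) (41 / 1000) hrh (by norm_num)
      (by norm_num) (by norm_num) (by norm_num) (by linarith only [b1]) (by linarith only [b0])
    exact ⟨hF, hM, by linarith only [d1], by linarith only [c1], by linarith only [hF, c2], by linarith only [hF, d1], by linarith only [hM, c3], by linarith only [hM, d1]⟩
  case twoE =>
    have e : hpp p' P .two .twoE Q = ⟨60 / 100, 10 / 100, 33 / 100⟩ := by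
      unfold hpp hp; split_ifs <;> rfl
    rw [e] at hrh hM
    simp only [hbox] at b0 b1 hrh hM
    obtain ⟨⟨c1, c2, c3⟩, ⟨d1, d2, d3⟩, -⟩ := RH_bd 0 (85 / 1000) hrh (by norm_num)
      (by norm_num) (by norm_num) (by norm_num) (by linarith only [b1]) (by linarith only [b0])
    exact ⟨hF, hM, by linarith only [d1], by linarith only [c1], by linarith only [hF, c1], by linarith only [hF, d2], by linarith only [hM, c1], by linarith only [hM, d3]⟩
  case three =>
    have e1 : (hpp p' P .two .three Q).XM = 60 / 100 := by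
      unfold hpp hp; split_ifs <;> rfl
    have e2 : 12 / 100 ≤ (hpp p' P .two .three Q).cl := by
      unfold hpp hp; split_ifs <;> simp only [] <;> norm_num
    have e3 : 25 / 100 ≤ (hpp p' P .two .three Q).cr := by
      unfold hpp hp; split_ifs <;> simp only [] <;> norm_num
    rw [e1] at hrh hM
    simp only [hbox] at b0 b1
    obtain ⟨⟨c1, c2, c3⟩, ⟨d1, d2, d3⟩, -⟩ := RH_bd (57 / 1000) (5 / 1000) hrh (by linarith only [e2])
      (by linarith only [e3]) (by norm_num) (by norm_num) (by linarith only [b1]) (by linarith only [b0])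
    have c2' : w.im ≤ 57 / 120 * w.re := by
      rcases le_total 0 w.im with h | h
      · have := (mul_le_mul_of_nonneg_left e2 h).trans c2
        linarith only [this]
      · linarith only [hF, h]
    have c3' : w.im ≤ 57 / 250 * (60 / 100 - w.re) := by
      rcases le_total 0 w.im with h | h
      · have := (mul_le_mul_of_nonneg_left e3 h).trans c3
        linarith only [this]
      · linarith only [hM, h]
    have d2' : -w.im ≤ 5 / 120 * w.re := by
      rcases le_total 0 (-w.im) with h | h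
      · have := (mul_le_mul_of_nonneg_left e2 h).trans d2
        linarith only [this]
      · linarith only [hF, d1, h]
    have d3' : -w.im ≤ 5 / 250 * (60 / 100 - w.re) := by
      rcases le_total 0 (-w.im) with h | h
      · have := (mul_le_mul_of_nonneg_left e3 h).trans d3
        linarith only [this]
      · linarith only [hM, h]
    exact ⟨hF, hM, by linarith only [d1], by linarith only [c1], by linarith only [hF, c2'], by linarith only [hF, d1], by linarith only [hM, c3'], by linarith only [hM, d1]⟩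
  case threeE =>
    have e : hpp p' P .two .threeE Q = ⟨60 / 100, 10 / 100, 30 / 100⟩ := by
      unfold hpp hp; split_ifs <;> rfl
    rw [e] at hrh hM
    simp only [hbox] at b0 b1 hrh hM
    obtain ⟨⟨c1, c2, c3⟩, ⟨d1, d2, d3⟩, -⟩ := RH_bd (26 / 1000) (13 / 1000) hrh (by norm_num)
      (by norm_num) (by norm_num) (by norm_num) (by linarith only [b1]) (by linarith only [b0])
    exact ⟨hF, hM, by linarith only [d1], by linarith only [c1], by linarith only [hF, c2], by linarith only [hF, d1], by linarith only [hM, c3], by linarith only [hM, d1]⟩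
  case ring =>
    have e : hpp p' P .two .ring Q = ⟨60 / 100, 125 / 1000, 30 / 100⟩ := by
      unfold hpp hp; split_ifs <;> rfl
    rw [e] at hrh hM
    simp only [hbox] at b0 b1 hrh hM
    obtain ⟨⟨c1, c2, c3⟩, ⟨d1, d2, d3⟩, -⟩ := RH_bd (96 / 1000) 0 hrh (by norm_num)
      (by norm_num) (by norm_num) (by norm_num) (by linarith only [b1]) (by linarith only [b0])
    exact ⟨hF, hM, by linarith only [d1], by linarith only [c1], by linarith only [c2], by linarith only [hF, d1], by linarith only [c3], by linarith only [hM, d1]⟩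

variable {M : ℕ} {b : Fin (M + 1) → ℤ} {zs : DD (tyW b) ⊕ ZZ (tyW b) → ℂ}
variable {y : DD (tyW b) ⊕ ZZ (tyW b) → ℝ}
variable {h h' : Fin M} {i j j' : Fin (M + 1)} {p : Fin 3}

/-- the other hinge of a digit `2` in a word -/
theorem Adj.p2 (A : Adj h i p j) (hb : ClassW b) (hL : Loc b zs) (hy : Mx b zs y)
    (hF : ∀ h : Fin M, 7 / 100 ≤ y (.inl (.inl h)))
    (h12 : ∀ {h : Fin M} {i j : Fin (M + 1)} {p : Fin 3}, Adj h i p j → clsW b i = .two →
      clsW b j = .one → y (.inl (.inl h)) ≤ 60 / 100)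
    (hc : clsW b i = .two) : C23.P2 (Yw b zs y i p.rev).re (Yw b zs y i p.rev).im := by
  obtain ⟨h', j', A'⟩ := A.other' b (clsW_inner hb (Or.inr (Or.inl hc)))
  have hop := A'.opp hb (Or.inl (by rw [hc]; decide))
  obtain ⟨-, -, c0, c1⟩ := A'.box hb hL
  rw [hc, A'.ss hop] at c0 c1
  have hrh := A'.rh hy
  rw [A'.XM_eq b, A'.cl_eq b, A'.cr_eq b, hc] at hrh
  exact p2_core hrh c0 c1 (by rw [A'.re]; exact hF h')
    (fun hj => by rw [A'.re]; exact h12 A' hc hj)

/-- data of the own hinge on a right ramp which ends at `60/100` -/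
theorem Adj.ramp60 (A : Adj h i p j) (hy : Mx b zs y) (hX : wXM b h = 60 / 100) {cl cr : ℝ}
    (hcl : wcl b h = cl) (hcr : wcr b h = cr) (h0 : 0 < cl) (h0' : 0 < cr) (h00 : cl + cr < 60 / 100)
    (h1 : wXM b h - wcr b h < y (.inl (.inl h))) :
    (Yw b zs y i p).re = y (.inl (.inl h)) ∧ y (.inl (.inl h)) ≤ 60 / 100 ∧
    (Yw b zs y i p).im = ofs (b i) (zs (.inl (.inl h))).im *
      ((60 / 100 - (Yw b zs y i p).re) / cr) ∧
    ofs (b i) (slL b zs y h) = -ofs (b i) (zs (.inl (.inl h))).im / cr := by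
  have hrh := A.rh hy
  rw [hX, hcl, hcr] at hrh
  have hre := A.re (zs := zs) (y := y)
  refine ⟨hre, ?_, ?_, ?_⟩
  · rw [← hre]; exact hrh.reM
  · exact MR.RH_right hrh h0 h0' h00 (by rw [hre]; rw [hX, hcr] at h1; linarith only [h1])
  · rw [ofs_slL_ramp _ h1, hcr, neg_div]

/-- upper bounds of the side of a digit `2` next to an interior `3` (shift `π/2`) -/
noncomputable def r23 (x : ℝ) : ℝ :=
  open Classical in
  if x ≤ 36 / 100 then -(2 / 100) - 3 * (x - 33 / 100) else
    if x ≤ 37 / 100 then -(13 / 100) else -(14 / 100)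

/-- **The side of a digit `2` on the right ramp of `2 | 3`** (slot `0` of the `3`) -/
theorem two_R3 (hb : ClassW b) (hL : Loc b zs) (hy : Mx b zs y)
    (hF : ∀ h : Fin M, 7 / 100 ≤ y (.inl (.inl h)))
    (h12 : ∀ {h : Fin M} {i j : Fin (M + 1)} {p : Fin 3}, Adj h i p j → clsW b i = .two →
      clsW b j = .one → y (.inl (.inl h)) ≤ 60 / 100)
    (A : Adj h i 2 j) (hc : clsW b i = .two) (hj : clsW b j = .three)
    (h1 : wXM b h - wcr b h < y (.inl (.inl h))) (h2 : y (.inl (.inl h)) ≤ 50 / 100) :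
    Sw b zs y i 2 (slL b zs y h) + Real.pi / 2 * ofs (b i) (slL b zs y h) <
      r23 (y (.inl (.inl h))) := by
  have hop := A.opp hb (Or.inl (by rw [hc]; decide))
  have P := A.p2 hb hL hy hF h12 hc
  obtain ⟨-, -, T0, T1⟩ := A.box hb hL
  rw [hc, hj, A.ss hop] at T0 T1
  simp only [hbox] at T0 T1
  have hX : wXM b h = 60 / 100 := by
    rw [A.XM_eq b, hc, hj]; unfold hpp hp; rfl
  have hcl : wcl b h = 12 / 100 := by
    rw [A.cl_eq b, hc, hj]; unfold hpp hp; rfl
  have hcr : wcr b h = 27 / 100 ∨ wcr b h = 25 / 100 := by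
    rw [A.cr_eq b, hc, hj]
    unfold hpp hp
    first | exact Or.inl rfl | exact Or.inr rfl
  rw [A.side_two hb (Or.inl hc)]
  unfold r23
  rcases hcr with hcr | hcr
  · obtain ⟨a0, a1, a2, a3⟩ := A.ramp60 hy hX hcl hcr (by norm_num) (by norm_num) (by norm_num) h1
    rw [hX, hcr] at h1
    rw [a3]
    split_ifs with h3 h4
    · have := C23.side27i (v := Yw b zs y i (Fin.rev 2)) T0 T1 (by rw [a0]; linarith only [h1])
        (by rw [a0]; exact h3) a2 P
      try rw [a0] at this
      linarith only [this]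
    · have := C23.side27h (v := Yw b zs y i (Fin.rev 2)) T0 T1 (by rw [a0]; linarith only [h3])
        (by rw [a0]; exact h4) a2 P
      linarith only [this]
    · have := C23.side27j (v := Yw b zs y i (Fin.rev 2)) T0 T1 (by rw [a0]; linarith only [h4])
        (by rw [a0]; exact h2) a2 P
      linarith only [this]
  · obtain ⟨a0, a1, a2, a3⟩ := A.ramp60 hy hX hcl hcr (by norm_num) (by norm_num) (by norm_num) h1
    rw [hX, hcr] at h1
    rw [a3]
    split_ifs with h3 h4
    · have := C23.side25i (v := Yw b zs y i (Fin.rev 2)) T0 T1 (by rw [a0]; linarith only [h1, h3])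
        (by rw [a0]; exact h3) a2 P
      try rw [a0] at this
      linarith only [this]
    · have := C23.side25h (v := Yw b zs y i (Fin.rev 2)) T0 T1 (by rw [a0]; linarith only [h3])
        (by rw [a0]; exact h4) a2 P
      linarith only [this]
    · have := C23.side25j (v := Yw b zs y i (Fin.rev 2)) T0 T1 (by rw [a0]; linarith only [h4])
        (by rw [a0]; exact h2) a2 P
      linarith only [this]

/-- upper bounds of the side of a digit `2` at the slot `2` of an interior `3` (shift `π/2`) -/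
noncomputable def r32 (x : ℝ) : ℝ :=
  open Classical in
  if x ≤ 33 / 100 then 12 / 100 - 4 * (x - 30 / 100) else r23 x

/-- **The side of a digit `2` on the right ramp of `3 | 2`** (slot `2` of the `3`) -/
theorem two_R32 (hb : ClassW b) (hL : Loc b zs) (hy : Mx b zs y)
    (hF : ∀ h : Fin M, 7 / 100 ≤ y (.inl (.inl h)))
    (h12 : ∀ {h : Fin M} {i j : Fin (M + 1)} {p : Fin 3}, Adj h i p j → clsW b i = .two →
      clsW b j = .one → y (.inl (.inl h)) ≤ 60 / 100)
    (A : Adj h i 0 j) (hc : clsW b i = .two) (hj : clsW b j = .three)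
    (h1 : wXM b h - wcr b h < y (.inl (.inl h))) (h2 : y (.inl (.inl h)) ≤ 54 / 100) :
    Sw b zs y i 0 (slL b zs y h) + Real.pi / 2 * ofs (b i) (slL b zs y h) <
      r32 (y (.inl (.inl h))) := by
  have hop := A.opp hb (Or.inl (by rw [hc]; decide))
  have P := A.p2 hb hL hy hF h12 hc
  obtain ⟨-, -, T0, T1⟩ := A.box hb hL
  rw [hc, hj, A.ss hop] at T0 T1
  simp only [hbox] at T0 T1
  have hX : wXM b h = 60 / 100 := by
    rw [A.XM_eq b, hc, hj]; unfold hpp hp; rfl
  have hcl : wcl b h = 13 / 100 := by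
    rw [A.cl_eq b, hc, hj]; unfold hpp hp; rfl
  have hcr : wcr b h = 30 / 100 := by
    rw [A.cr_eq b, hc, hj]; unfold hpp hp; rfl
  rw [A.side_two hb (Or.inl hc)]
  unfold r32 r23
  obtain ⟨a0, a1, a2, a3⟩ := A.ramp60 hy hX hcl hcr (by norm_num) (by norm_num) (by norm_num) h1
  rw [hX, hcr] at h1
  rw [a3]
  split_ifs with h3 h4 h5
  · have := C23.side30i (v := Yw b zs y i (Fin.rev 0)) T0 T1 (by rw [a0]; linarith only [h1])
      (by rw [a0]; exact h3) a2 P
    rw [a0] at this
    linarith only [this]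
  · have := C23.side30j (v := Yw b zs y i (Fin.rev 0)) T0 T1 (by rw [a0]; linarith only [h3])
      (by rw [a0]; exact h4) a2 P
    rw [a0] at this
    linarith only [this]
  · have := C23.side30h (v := Yw b zs y i (Fin.rev 0)) T0 T1 (by rw [a0]; linarith only [h4])
      (by rw [a0]; exact h5) a2 P
    linarith only [this]
  · have := C23.side30k (v := Yw b zs y i (Fin.rev 0)) T0 T1 (by rw [a0]; linarith only [h5])
      (by rw [a0]; exact h2) a2 P
    linarith only [this]

/-- **The side of a digit `2` on the right ramp of `2 | 3e`** -/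
theorem two_R3e (hb : ClassW b) (hL : Loc b zs) (hy : Mx b zs y)
    (hF : ∀ h : Fin M, 7 / 100 ≤ y (.inl (.inl h)))
    (h12 : ∀ {h : Fin M} {i j : Fin (M + 1)} {p : Fin 3}, Adj h i p j → clsW b i = .two →
      clsW b j = .one → y (.inl (.inl h)) ≤ 60 / 100)
    (A : Adj h i p j) (hc : clsW b i = .two) (hj : clsW b j = .threeE)
    (h1 : wXM b h - wcr b h < y (.inl (.inl h))) :
    (y (.inl (.inl h)) ≤ 40 / 100 → Sw b zs y i p (slL b zs y h) < 25 / 100) ∧
    (40 / 100 ≤ y (.inl (.inl h)) → Sw b zs y i p (slL b zs y h) < -(4 / 100)) := by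
  have hop := A.opp hb (Or.inl (by rw [hc]; decide))
  have P := A.p2 hb hL hy hF h12 hc
  obtain ⟨-, -, T0, T1⟩ := A.box hb hL
  rw [hc, hj, A.ss hop] at T0 T1
  simp only [hbox] at T0 T1
  have hX : wXM b h = 60 / 100 := by
    rw [A.XM_eq b, hc, hj]; unfold hpp hp; split_ifs <;> rfl
  have hcl : wcl b h = 10 / 100 := by
    rw [A.cl_eq b, hc, hj]; unfold hpp hp; split_ifs <;> rfl
  have hcr : wcr b h = 30 / 100 := by
    rw [A.cr_eq b, hc, hj]; unfold hpp hp; split_ifs <;> rfl
  rw [A.side_two hb (Or.inl hc)]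
  obtain ⟨a0, a1, a2, a3⟩ := A.ramp60 hy hX hcl hcr (by norm_num) (by norm_num) (by norm_num) h1
  rw [hX, hcr] at h1
  rw [a3]
  constructor
  · intro h3
    exact C23.sideEi (v := Yw b zs y i p.rev) T0 T1 (by rw [a0]; linarith only [h1]) (by rw [a0]; exact h3) a2 P
  · intro h3
    have := C23.sideEj (v := Yw b zs y i p.rev) T0 T1 (by rw [a0]; exact h3) (by rw [a0]; exact a1) a2 P
    linarith only [this]

/-- **Cap of the hinges `2 | 3e`**: the flat end -/
theorem cap_two_threeE (hb : ClassW b) (hL : Loc b zs) (hC : Crit b zs) (hy : Mx b zs y)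
    (hpos : ∀ h : Fin M, 0 < y (.inl (.inl h)))
    (hF : ∀ h : Fin M, 7 / 100 ≤ y (.inl (.inl h)))
    (h12 : ∀ {h : Fin M} {i j : Fin (M + 1)} {p : Fin 3}, Adj h i p j → clsW b i = .two →
      clsW b j = .one → y (.inl (.inl h)) ≤ 60 / 100)
    (A : Adj h i p j) (hc : clsW b i = .two) (hj : clsW b j = .threeE) :
    y (.inl (.inl h)) ≤ wXM b h - wcr b h := by
  by_contra hcon
  push Not at hcon
  have hop := A.opp hb (Or.inl (by rw [hc]; decide))
  obtain ⟨k1, k2⟩ := two_R3e hb hL hy hF h12 A hc hj hcon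
  have k3 := threeE_R hb hL hC hy A.symm hj (by rw [hc]; decide) (by rw [hc]; decide) hcon
  rw [hc] at k3
  unfold r3E at k3
  simp only at k3
  refine rstep_false hb hy (hpos h) (RStep.of_adj A (c := 0) (fun h => absurd h (by omega))
    (e1 := Sw b zs y i p (slL b zs y h)) (e2 := Sw b zs y j p.rev (slL b zs y h)) ?_
    (by linarith only []) (by linarith only []))
  split_ifs at k3 with h3
  · linarith only [k3, k1, h3, k1 (by linarith only [h3])]
  · linarith only [k3, k2, h3, k2 (by linarith only [h3])]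

/-- **The side of an end `2e` on the right ramp next to an interior `3`** (both slots), shift
`5/2` -/
theorem twoE_R3 (hb : ClassW b) (hL : Loc b zs) (hy : Mx b zs y)
    (A : Adj h i p j) (hc : clsW b i = .twoE) (hj : clsW b j = .three)
    (h1 : wXM b h - wcr b h < y (.inl (.inl h))) :
    (y (.inl (.inl h)) ≤ 50 / 100 → Sw b zs y i p (slL b zs y h) +
      5 / 2 * ofs (b i) (slL b zs y h) < -(58 / 100)) ∧
    (50 / 100 ≤ y (.inl (.inl h)) → y (.inl (.inl h)) ≤ 54 / 100 →
      Sw b zs y i p (slL b zs y h) + 5 / 2 * ofs (b i) (slL b zs y h) < -(48 / 100)) := by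
  have hop := A.opp hb (Or.inl (by rw [hc]; decide))
  obtain ⟨-, -, T0, T1⟩ := A.box hb hL
  rw [hc, hj, A.ss hop] at T0 T1
  simp only [hbox] at T0 T1
  have hX : wXM b h = 60 / 100 := by
    rw [A.XM_eq b, hc, hj]; unfold hpp hp; split_ifs <;> rfl
  have hcl : wcl b h = 12 / 100 ∨ wcl b h = 13 / 100 := by
    rw [A.cl_eq b, hc, hj]
    unfold hpp hp
    split_ifs <;> first | exact Or.inl rfl | exact Or.inr rfl
  have hcr : wcr b h = 30 / 100 := by
    rw [A.cr_eq b, hc, hj]; unfold hpp hp; split_ifs <;> rfl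
  have hcl0 : 0 < wcl b h := by rcases hcl with h | h <;> rw [h] <;> norm_num
  have hcl1 : wcl b h + 30 / 100 < 60 / 100 := by rcases hcl with h | h <;> rw [h] <;> norm_num
  have hv : Yw b zs y i p.rev = 0 := by
    rcases A.other b zs y with h5 | h5
    · exact h5.2
    · rw [clsW_end (Or.inl hc)] at h5
      exact absurd h5.1 (by decide)
  rw [A.side_two hb (Or.inr hc), hv]
  obtain ⟨a0, a1, a2, a3⟩ := A.ramp60 hy hX rfl hcr hcl0 (by norm_num) hcl1 h1
  rw [hX, hcr] at h1
  rw [a3, MR.S2_zero_eq, a2, a0]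
  · constructor
    · intro h3
      have := C23.rowe (by linarith only [h1]) h3 T0 T1
      linarith only [this]
    · intro h3 h4
      have := C23.rowe' h3 h4 T0 T1
      linarith only [this]
  · constructor <;> rw [a0] <;> linarith only [h1, hcl0, hcl1, a1]

end SR

end Pool.Agent.Work.MP_b30479_gtS.G2

end

section

/-!
# The hinges `2 | 3` (slot `0` of an interior `3`): from `36/100` to the flat end `33/100`
-/

namespace Pool.Agent.Work.MP_b30479_gtS.G2

open Finset VOL Filter Topology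

namespace SR

variable {M : ℕ} {b : Fin (M + 1) → ℤ} {zs : DD (tyW b) ⊕ ZZ (tyW b) → ℂ}
variable {y : DD (tyW b) ⊕ ZZ (tyW b) → ℝ}
variable {h h' : Fin M} {i j j' : Fin (M + 1)} {p : Fin 3}

/-- **`2 | 3 ≤ 33/100`**, from the side of the digit `3` in `(33/100, 36/100]` (shift `π / 2`) -/
theorem cap23_of (hb : ClassW b) (hL : Loc b zs) (hy : Mx b zs y)
    (hF : ∀ h : Fin M, 7 / 100 ≤ y (.inl (.inl h)))
    (h12 : ∀ {h : Fin M} {i j : Fin (M + 1)} {p : Fin 3}, Adj h i p j → clsW b i = .two →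
      clsW b j = .one → y (.inl (.inl h)) ≤ 60 / 100)
    (A : Adj h i 2 j) (hi : clsW b i = .two) (hj : clsW b j = .three)
    (h36 : y (.inl (.inl h)) ≤ 36 / 100)
    (h3 : 33 / 100 < y (.inl (.inl h)) →
      Sw b zs y j 0 (slL b zs y h) + Real.pi / 2 * ofs (b j) (slL b zs y h) ≤ 2 / 100) :
    y (.inl (.inl h)) ≤ 33 / 100 := by
  by_contra hcon
  push Not at hcon
  have hop := A.opp hb (Or.inl (by rw [hi]; decide))
  have hX : wXM b h = 60 / 100 := by
    rw [A.XM_eq b, hi, hj]; unfold hpp hp; rfl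
  have hcr : wcr b h = 27 / 100 := by
    rw [A.cr_eq b, hi, hj]
    unfold hpp hp
    rfl
  have h1 : wXM b h - wcr b h < y (.inl (.inl h)) := by rw [hX, hcr]; linarith
  have k1 := two_R3 hb hL hy hF h12 A hi hj h1 (by linarith)
  unfold r23 at k1
  rw [if_pos h36] at k1
  have k2 := h3 hcon
  have e2 : (2 : Fin 3).rev = 0 := rfl
  refine rstep_false hb hy (by linarith) (RStep.of_adj A (c := Real.pi / 2)
    (fun h => absurd h (not_lt.2 hop.le))
    (e1 := -(2 / 100) - 3 * (y (.inl (.inl h)) - 33 / 100)) (e2 := 2 / 100)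
    (by linarith) k1.le ?_)
  rw [e2]
  exact k2

end SR

end Pool.Agent.Work.MP_b30479_gtS.G2

end

section

/-!
# Caps of the hinges at the slot `0` of an interior `3`

`2 | 3`: `36/100`; `2e | 3`, `3e | 3`: the flat end `30/100`. Hypotheses: all hinges are at least
`7/100`; the hinge in the slot `2` of the `3` is at most `39/100` next to `1`, `3`, `31/100` else.
-/

namespace Pool.Agent.Work.MP_b30479_gtS.G2

open Finset VOL Filter Topology

namespace SR

variable {M : ℕ} {b : Fin (M + 1) → ℤ} {zs : DD (tyW b) ⊕ ZZ (tyW b) → ℂ}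
variable {y : DD (tyW b) ⊕ ZZ (tyW b) → ℝ}
variable {h h' : Fin M} {i j k j' : Fin (M + 1)} {p : Fin 3}

/-- **`2 | 3 ≤ 36/100`** -/
theorem s0r_cap_two (hb : ClassW b) (hL : Loc b zs) (hX : LocX b zs) (hy : Mx b zs y)
    (hpos : ∀ h : Fin M, 0 < y (.inl (.inl h))) (hF : ∀ h : Fin M, 7 / 100 ≤ y (.inl (.inl h)))
    (h12 : ∀ {h : Fin M} {i j : Fin (M + 1)} {p : Fin 3}, Adj h i p j → clsW b i = .two →
      clsW b j = .one → y (.inl (.inl h)) ≤ 60 / 100)
    (A : Adj h i 0 j) (A' : Adj h' i 2 k) (hi : clsW b i = .three) (hj : clsW b j = .two)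
    (hc : y (.inl (.inl h')) ≤ cap2 (clsW b k)) : y (.inl (.inl h)) ≤ 36 / 100 := by
  by_contra hcon
  push Not at hcon
  have hop := A.opp hb (Or.inl (by rw [hi]; decide))
  obtain ⟨q1, q2, q3⟩ := A.par_s0_two hi hj
  have hx1 := s0_2 hb hL hX hy A A' hi hj (hc.trans (cap2_le _))
  have k1 := s0r_two hb hL hX hy hpos A A' hi hj (hF h') hc hcon.le hx1
  have A2 : Adj h j 2 i := A.symm
  have k2 := two_R3 hb hL hy hF h12 A2 hj hi (by rw [q1, q2]; linarith only [hcon]) (by linarith only [hx1])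
  have k3 : r23 (y (.inl (.inl h))) ≤ -(13 / 100) := by
    unfold r23
    split_ifs with c1 c2
    · exact absurd c1 (not_le.2 hcon)
    · exact le_rfl
    · norm_num
  refine rstep_false hb hy (hpos h) (RStep.of_adj A (c := Real.pi / 2) (fun h => absurd h ?_)
    (e1 := 125 / 1000) (e2 := -(13 / 100)) (by norm_num) k1.le (k2.le.trans k3))
  exact not_lt.2 hop.le

/-- **`2e | 3 ≤ 30/100`** -/
theorem s0r_cap_twoE (hb : ClassW b) (hL : Loc b zs) (hX : LocX b zs) (hy : Mx b zs y)
    (hpos : ∀ h : Fin M, 0 < y (.inl (.inl h)))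
    (A : Adj h i 0 j) (A' : Adj h' i 2 k) (hi : clsW b i = .three) (hj : clsW b j = .twoE)
    (h7 : 7 / 100 ≤ y (.inl (.inl h')))
    (hc : y (.inl (.inl h')) ≤ cap2 (clsW b k)) : y (.inl (.inl h)) ≤ 30 / 100 := by
  by_contra hcon
  push Not at hcon
  have hop := A.opp hb (Or.inl (by rw [hi]; decide))
  obtain ⟨q1, q2, q3⟩ := A.par_s0 hi (Or.inl hj)
  have hx1 := s0_2e hb hL hX hy A A' hi hj (hc.trans (cap2_le _))
  have k1 := s0r_twoE hb hL hX hy hpos A A' hi hj h7 hc hcon hx1
  have A2 : Adj h j 2 i := A.symm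
  have k2 := (twoE_R3 hb hL hy A2 hj hi (by rw [q1, q2]; linarith only [hcon])).1 (by linarith only [hx1])
  refine rstep_false hb hy (hpos h) (RStep.of_adj A (c := 5 / 2) (fun h => absurd h ?_)
    (e1 := 57 / 100) (e2 := -(58 / 100)) (by norm_num) k1.le k2.le)
  exact not_lt.2 hop.le

/-- **`3e | 3 ≤ 30/100`** -/
theorem s0r_cap_threeE (hb : ClassW b) (hL : Loc b zs) (hX : LocX b zs) (hC : Crit b zs)
    (hy : Mx b zs y) (hpos : ∀ h : Fin M, 0 < y (.inl (.inl h)))
    (A : Adj h i 0 j) (A' : Adj h' i 2 k) (hi : clsW b i = .three) (hj : clsW b j = .threeE)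
    (h7 : 7 / 100 ≤ y (.inl (.inl h')))
    (hc : y (.inl (.inl h')) ≤ cap2 (clsW b k)) : y (.inl (.inl h)) ≤ 30 / 100 := by
  by_contra hcon
  push Not at hcon
  obtain ⟨q1, q2, q3⟩ := A.par_s0 hi (Or.inr (Or.inr hj))
  have hx1 := s0_33 hb hL hX hy A A' hi (Or.inr hj) (hc.trans (cap2_le _))
  have k1 := s0r_three hb hL hX hy hpos A A' hi (Or.inr (Or.inl hj))
    (fun h0 => absurd h0 (by rw [hj]; decide)) h7 hc hcon hx1
  have A2 : Adj h j 2 i := A.symm
  have k2 := threeE_R3 hb hL hC hy A2 hj hi (by rw [q1, q2]; linarith only [hcon]) le_rfl Real.pi_pos.le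
  rw [hj] at k1
  unfold s0rB at k1
  unfold r3E3 at k2
  refine rstep_false hb hy (hpos h) (RSide.of_sum A ?_)
  have e : (0 : Fin 3).rev = 2 := rfl
  rw [e]
  rw [if_pos rfl] at k1
  simp only [zero_mul, add_zero, zero_div, mul_zero, sub_zero] at k2
  split_ifs at k1 k2 <;> linarith

end SR

end Pool.Agent.Work.MP_b30479_gtS.G2

end
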