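import Pool.Agent.Work.MP_b30479_gt.TBS.G2.ZNw
import Pool.Agent.Work.MP_b30479_gt.TBS.G2.WE31_5
import Pool.Agent.Work.MP_b30479_gt.TBS.G2.RC3e_2
import Pool.Agent.Work.MP_b30479_gt.TBS.G2.WSide2
import Pool.Agent.Work.MP_b30479_gt.TBS.G2.WCap12
import Pool.Agent.Work.MP_b30479_gt.TBS.G2.CF3D
import Pool.Agent.Work.MP_b30479_gt.TBS.G2.OA2x_0
import Pool.Agent.Work.MP_b30479_gt.TBS.G2.R32
import Pool.Agent.Work.MP_b30479_gt.TBS.G2.S2Ld
import Pool.Agent.Work.MP_b30479_gt.TBS.G2.WTab
import Pool.Agent.Work.MP_b30479_gt.TBS.G2.WChK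
import Pool.Agent.Work.MP_b30479_gt.TBS.G2.MLSE
import Pool.Agent.Work.MP_b30479_gt.TBS.G2.RngU_2
import Pool.Agent.Work.MP_b30479_gt.TBS.G2.TW2c

section

/-!
# The right rounds, put together
-/

namespace Pool.Agent.Work.MP_b30479_gtS.G2

open Finset VOL Filter Topology

namespace SR

/-- caps after the first right round -/
noncomputable def C0 : Tab := fun p A B =>
  match A, B with
  | .one, .one => 70 / 100
  | .one, .two => 56 / 100
  | .two, .one => 56 / 100
  | .one, .twoE => 35 / 100
  | .twoE, .one => 35 / 100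
  | .one, .three => if p = 0 then 385 / 1000 else 65 / 100
  | .three, .one => if p = 2 then 385 / 1000 else 65 / 100
  | .one, .threeE => 35 / 100
  | .threeE, .one => 35 / 100
  | .one, .ring => 65 / 100
  | .ring, .one => 65 / 100
  | .two, .two => 32 / 100
  | .two, .twoE => 27 / 100
  | .twoE, .two => 27 / 100
  | .two, .three => if p = 0 then 30 / 100 else 36 / 100
  | .three, .two => if p = 2 then 30 / 100 else 36 / 100
  | .two, .ring => 32 / 100
  | .ring, .two => 32 / 100
  | .ring, .three => if p = 0 then 30 / 100 else 40 / 100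
  | .three, .ring => if p = 2 then 30 / 100 else 40 / 100
  | .threeE, .ring => 26 / 100
  | .ring, .threeE => 26 / 100
  | .ring, .ring => 27 / 100
  | .three, .three => 31 / 100
  | _, _ => 30 / 100

/-- caps after the second right round -/
noncomputable def C1x : Tab := fun p A B =>
  match A, B with
  | .one, .one => 64 / 100
  | .one, .two => 56 / 100
  | .two, .one => 56 / 100
  | .one, .twoE => 35 / 100
  | .twoE, .one => 35 / 100
  | .one, .three => if p = 0 then 385 / 1000 else 47 / 100
  | .three, .one => if p = 2 then 385 / 1000 else 47 / 100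
  | .one, .threeE => 35 / 100
  | .threeE, .one => 35 / 100
  | .one, .ring => 36 / 100
  | .ring, .one => 36 / 100
  | .two, .two => 32 / 100
  | .two, .twoE => 27 / 100
  | .twoE, .two => 27 / 100
  | .two, .three => if p = 0 then 30 / 100 else 36 / 100
  | .three, .two => if p = 2 then 30 / 100 else 36 / 100
  | .threeE, .ring => 26 / 100
  | .ring, .threeE => 26 / 100
  | .ring, .ring => 27 / 100
  | .three, .three => 31 / 100
  | _, _ => 30 / 100

/-- caps after the last right round -/
noncomputable def C3 : Tab := fun p A B =>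
  match A, B with
  | .one, .one => 64 / 100
  | .one, .two => 495 / 1000
  | .two, .one => 495 / 1000
  | .one, .twoE => 35 / 100
  | .twoE, .one => 35 / 100
  | .one, .three => if p = 0 then 36 / 100 else 42 / 100
  | .three, .one => if p = 2 then 36 / 100 else 42 / 100
  | .one, .threeE => 35 / 100
  | .threeE, .one => 35 / 100
  | .one, .ring => 36 / 100
  | .ring, .one => 36 / 100
  | .two, .two => 32 / 100
  | .two, .twoE => 27 / 100
  | .twoE, .two => 27 / 100
  | .two, .three => if p = 0 then 30 / 100 else 33 / 100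
  | .three, .two => if p = 2 then 30 / 100 else 33 / 100
  | .threeE, .ring => 26 / 100
  | .ring, .threeE => 26 / 100
  | .ring, .ring => 27 / 100
  | _, _ => 30 / 100

variable {M : ℕ} {b : Fin (M + 1) → ℤ} {zs : DD (tyW b) ⊕ ZZ (tyW b) → ℂ}
variable {y : DD (tyW b) ⊕ ZZ (tyW b) → ℝ}
variable {h h' : Fin M} {i j j' : Fin (M + 1)} {p : Fin 3}

/-- **The caps which are not yet proved.** -/
structure ROpen (b : Fin (M + 1) → ℤ) (zs : DD (tyW b) ⊕ ZZ (tyW b) → ℂ)
    (y : DD (tyW b) ⊕ ZZ (tyW b) → ℝ) : Prop where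
  /-- `S0`, helper71: `3 | 3`, no floors -/
  c33 : ∀ {h h' : Fin M} {i k l : Fin (M + 1)}, Adj h i 2 k → Adj h' k 2 l →
    clsW b i = .three → clsW b k = .three → y (.inl (.inl h')) ≤ VL.cpR (clsW b l) →
    y (.inl (.inl h)) ≤ VL.cpR .three
  /-- `S0`, helper59: `3 | 3e`, slot 2, no floors -/
  c3E : ∀ {h : Fin M} {i k : Fin (M + 1)}, Adj h i 2 k → clsW b i = .three →
    clsW b k = .threeE → y (.inl (.inl h)) ≤ 30 / 100
  /-- `S0`, helper59: `3 | ring`, slot 2, no floors -/
  c3Z : ∀ {h : Fin M} {i k : Fin (M + 1)}, Adj h i 2 k → clsW b i = .three →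
    clsW b k = .ring → y (.inl (.inl h)) ≤ 30 / 100
  /-- `R0`, helper34 / helper59: `3 | 3`, floors `F0` -/
  s33 : Flr b y F0 → Cap3 b y → ∀ {h : Fin M} {i j : Fin (M + 1)}, Adj h i 2 j →
    clsW b i = .three → clsW b j = .three → y (.inl (.inl h)) ≤ 31 / 100
  /-- `R2`, helper34 / helper59: `3 | 3`, floors `F2` -/
  s33' : Flr b y F2 → Cap b y C1x → ∀ {h : Fin M} {i j : Fin (M + 1)}, Adj h i 2 j →
    clsW b i = .three → clsW b j = .three → y (.inl (.inl h)) ≤ 30 / 100
  /-- `R0`: `{2, 2e, 3e} | 3`, slot 0, floors `F0` -/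
  s0_lo : Flr b y F0 → (∀ {h : Fin M} {i j : Fin (M + 1)} {p : Fin 3}, Adj h i p j →
      clsW b i = .two → clsW b j = .one → y (.inl (.inl h)) ≤ 60 / 100) →
    ∀ {h h' : Fin M} {i j k : Fin (M + 1)}, Adj h i 0 j → Adj h' i 2 k →
    clsW b i = .three → (y (.inl (.inl h')) ≤ if clsW b k = .one then 385 / 1000 else 31 / 100) →
    clsW b j ≠ .one → clsW b j ≠ .three → clsW b j ≠ .ring →
    y (.inl (.inl h)) ≤ if clsW b j = .two then 36 / 100 else 30 / 100
  /-- `R0`, helper71: `ring | 3`, slot 0, floors `F0` -/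
  s0_Z : Flr b y F0 → ∀ {h h' : Fin M} {i j k : Fin (M + 1)}, Adj h i 0 j → Adj h' i 2 k →
    clsW b i = .three → (y (.inl (.inl h')) ≤ if clsW b k = .one then 385 / 1000 else 31 / 100) →
    clsW b j = .ring → y (.inl (.inl h)) ≤ 40 / 100
  /-- `R1`, helper71: `ring | 3`, slot 0, floors `F1`; the other hinge of the ring is `≤ 1/2` -/
  s0_Z' : Flr b y F1 → ∀ {h h' : Fin M} {i j k : Fin (M + 1)}, Adj h i 0 j → Adj h' i 2 k →
    clsW b i = .three → (y (.inl (.inl h')) ≤ if clsW b k = .one then 385 / 1000 else 31 / 100) →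
    clsW b j = .ring →
    (∀ {h1 : Fin M} {j1 : Fin (M + 1)}, Adj h1 j 0 j1 → y (.inl (.inl h1)) ≤ 1 / 2) →
    y (.inl (.inl h)) ≤ 30 / 100
  /-- `R1.1`, helper89 / helper52: `1 | 3`, slot 0 -/
  s0_one : Flr b y F1 → Cap b y C0 → Sum1 b y (95 / 100) →
    ∀ {h : Fin M} {i j : Fin (M + 1)}, Adj h i 0 j → clsW b i = .three → clsW b j = .one →
    y (.inl (.inl h)) ≤ 47 / 100
  /-- `R2`, helper89: `1 | 3`, slot 0 -/
  s0_one' : Flr b y F2 → Cap b y C1x → Sum1 b y (95 / 100) →
    (∀ {h : Fin M} {i j : Fin (M + 1)} {p : Fin 3}, Adj h i p j → clsW b i = .one →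
      clsW b j = .two → y (.inl (.inl h)) ≤ 495 / 1000) →
    ∀ {h h' : Fin M} {i j k : Fin (M + 1)}, Adj h i 0 j → Adj h' i 2 k →
    clsW b i = .three → clsW b j = .one →
    y (.inl (.inl h)) ≤ 42 / 100 ∧ (clsW b k = .twoE → y (.inl (.inl h)) ≤ 40 / 100)
  /-- `R2`, helper28 / helper34: `2 | 3`, slot 0 -/
  s0_two : Flr b y F2 → Cap b y C1x → Sum1 b y (95 / 100) →
    ∀ {h : Fin M} {i j : Fin (M + 1)}, Adj h i 0 j → clsW b i = .three →
    clsW b j = .two → y (.inl (.inl h)) ≤ 33 / 100

theorem Cap.of_rk {C : Tab} (hC : TSym C)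
    (H : ∀ {h : Fin M} {i j : Fin (M + 1)} {p : Fin 3}, Adj h i p j →
      rkC (clsW b i) ≤ rkC (clsW b j) → y (.inl (.inl h)) ≤ C p (clsW b i) (clsW b j)) :
    Cap b y C := by
  intro h i j p A
  rcases le_total (rkC (clsW b i)) (rkC (clsW b j)) with hr | hr
  · exact H A hr
  · have := H A.symm hr
    rwa [A.tab hC b, ← A.symm.tab hC b]

theorem C0_sym : TSym C0 := by
  intro A B
  cases A <;> cases B <;> rfl

theorem C1x_sym : TSym C1x := by
  intro A B
  cases A <;> cases B <;> rfl

theorem C3_sym : TSym C3 := by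
  intro A B
  cases A <;> cases B <;> rfl

theorem C0_C1 (p : Fin 3) (A B : Cl) : C0 p A B ≤ C1 p A B := by
  cases A <;> cases B <;> simp only [C0, C1] <;> (try split_ifs) <;> norm_num

theorem C1x_C2 (p : Fin 3) (A B : Cl) : C1x p A B ≤ C2 p A B := by
  cases A <;> cases B <;> simp only [C1x, C2, C1] <;> (try split_ifs) <;> norm_num

/-- floors `.07` -/
theorem F0_ge (p : Fin 3) (A B : Cl) : 70 / 1000 ≤ F0 p A B := by
  cases A <;> cases B <;> norm_num [F0]

/-- the hinge is on its path -/
theorem Adj.le_XM (A : Adj h i p j) (hy : Mx b zs y) : y (.inl (.inl h)) ≤ wXM b h := by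
  have := (A.rh hy).reM
  rwa [A.re] at this

/-- the end of the path of a hinge of a digit `1` next to a digit not `1` or `2` -/
theorem Adj.XM_one70 (A : Adj h i p j) (hi : clsW b i = .one) (h1 : clsW b j ≠ .one)
    (h2 : clsW b j ≠ .two) : wXM b h ≤ 70 / 100 := by
  rw [A.XM_eq b, hi]
  revert h1 h2
  generalize clsW b j = B
  intro h1 h2
  cases B <;> first
    | exact absurd rfl h1
    | exact absurd rfl h2
    | (unfold hpp hp hp1; split_ifs <;> norm_num)

theorem Adj.XM_one_65 (A : Adj h i p j) (hi : clsW b i = .one)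
    (hj : clsW b j = .three ∨ clsW b j = .ring) : wXM b h = 65 / 100 := by
  rw [A.XM_eq b, hi]
  rcases hj with hj | hj <;> rw [hj] <;> unfold hpp hp hp1 <;> split_ifs <;> rfl

theorem C0_one_three (hp : p = 0 ∨ p = 2) : C0 p .one .three = C0 p.rev .three .one := by
  rcases hp with rfl | rfl <;> rfl

/-- **The caps of the interior `3`, first round.** -/
theorem three_0 (hb : ClassW b) (H : LocA b zs) (hy : Mx b zs y)
    (hpos : ∀ h : Fin M, 0 < y (.inl (.inl h))) (O : ROpen b zs y) (hF : Flr b y F0)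
    (h21 : ∀ {h : Fin M} {i j : Fin (M + 1)} {p : Fin 3}, Adj h i p j → clsW b i = .two →
      clsW b j = .one → y (.inl (.inl h)) ≤ 60 / 100)
    (hw : Cap3 b y) (A : Adj h i p j) (hi : clsW b i = .three) :
    y (.inl (.inl h)) ≤ C0 p .three (clsW b j) := by
  have e0 : ¬ (0 : Fin 3) = 2 := by decide
  have two : ∀ {h : Fin M} {i j : Fin (M + 1)}, Adj h i 2 j → clsW b i = .three →
      y (.inl (.inl h)) ≤ C0 2 .three (clsW b j) := by
    intro h i j A hi
    cases hj : clsW b j
    · obtain ⟨h', k, B⟩ := A.symm.other_one hb hj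
      have B2 : Adj h' j 2 k := B
      have := cap_three_one A B2 hb H.L H.X hy (hpos h) hi hj
      have h2 : cap31 (clsW b k) ≤ 385 / 1000 := by
        cases clsW b k <;> norm_num [cap31]
      simpa only [C0, if_true] using this.trans h2
    · have := cap_three_two A hb H.L H.X hy (hpos h) hi hj
      simpa only [C0, if_true] using this
    · have := cap_three_twoE A hb H.L H.X hy (hpos h) hi hj
      simpa only [C0] using this
    · have := O.s33 hF hw A hi hj
      simpa only [C0] using this
    · have := O.c3E A hi hj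
      simpa only [C0] using this
    · have := O.c3Z A hi hj
      simpa only [C0, if_true] using this
  rcases A.slot with rfl | rfl
  · obtain ⟨h', k, A'⟩ := A.other' b (clsW_inner hb (Or.inr (Or.inr hi)))
    have A2 : Adj h' i 2 k := A'
    have c39 : y (.inl (.inl h')) ≤ if clsW b k = .one then 385 / 1000 else 31 / 100 := by
      refine (two A2 hi).trans ?_
      cases clsW b k <;> simp only [C0] <;> split_ifs <;> norm_num
    cases hj : clsW b j
    · have h1 := A.symm.le_XM hy
      rw [A.symm.XM_one_65 hj (Or.inl hi)] at h1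
      simpa only [C0, e0, if_false] using h1
    · have := O.s0_lo hF h21 A A2 hi c39 (by rw [hj]; decide) (by rw [hj]; decide)
        (by rw [hj]; decide)
      rw [hj, if_pos rfl] at this
      simpa only [C0, e0, if_false] using this
    · have := O.s0_lo hF h21 A A2 hi c39 (by rw [hj]; decide) (by rw [hj]; decide)
        (by rw [hj]; decide)
      rw [hj, if_neg (by decide)] at this
      simpa only [C0] using this
    · have := two A.symm hj
      rw [hi] at this
      simpa only [C0] using this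
    · have := O.s0_lo hF h21 A A2 hi c39 (by rw [hj]; decide) (by rw [hj]; decide)
        (by rw [hj]; decide)
      rw [hj, if_neg (by decide)] at this
      simpa only [C0] using this
    · have := O.s0_Z hF A A2 hi c39 hj
      simpa only [C0, e0, if_false] using this
  · exact two A hi

/-- **Caps after `S0`, `A`, `R0`.** -/
theorem caps_0 (hb : ClassW b) (H : LocA b zs) (hy : Mx b zs y)
    (hpos : ∀ h : Fin M, 0 < y (.inl (.inl h))) (O : ROpen b zs y) (hF : Flr b y F0)
    (hw : Cap3 b y) : Cap b y C0 := by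
  have hF7 : ∀ h : Fin M, 7 / 100 ≤ y (.inl (.inl h)) := fun h => by
    have h1 := F0_ge 2 (clsW b h.castSucc) (clsW b h.succ)
    have h2 := hF (Adj.l (h := h))
    linarith only [h1, h2]
  have h11 : ∀ {h : Fin M} {i j : Fin (M + 1)} {p : Fin 3}, Adj h i p j → clsW b i = .one →
      clsW b j = .one → y (.inl (.inl h)) ≤ 70 / 100 := fun A hi hj =>
    OR.capA hb H.P (OR.Flo.of hb H.X hy hpos hF) hy hpos A hi hj
  have h12 : ∀ {h : Fin M} {i j : Fin (M + 1)} {p : Fin 3}, Adj h i p j → clsW b i = .one →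
      clsW b j = .two → y (.inl (.inl h)) ≤ 56 / 100 := fun A hi hj => by
    obtain ⟨h', j', A'⟩ := A.other_one hb hi
    exact (cap12 hb H.L H.X hy hpos hF7 h11 A A' hi hj).1
  have h21 : ∀ {h : Fin M} {i j : Fin (M + 1)} {p : Fin 3}, Adj h i p j → clsW b i = .two →
      clsW b j = .one → y (.inl (.inl h)) ≤ 60 / 100 := fun A hi hj => by
    have := h12 A.symm hj hi
    linarith only [this]
  have h70 : ∀ {h : Fin M} {i j : Fin (M + 1)} {p : Fin 3}, Adj h i p j → clsW b i = .one →
      y (.inl (.inl h)) ≤ 70 / 100 := fun {h i j p} A hi => by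
    by_cases k1 : clsW b j = .one
    · exact h11 A hi k1
    · by_cases k2 : clsW b j = .two
      · have := h12 A hi k2
        linarith only [this]
      · exact (A.le_XM hy).trans (A.XM_one70 hi k1 k2)
  intro _ _ _ _ A0
  refine Cap.of_rk C0_sym ?_ A0
  clear A0
  intro h i j p A hr
  have A1 := A.symm
  cases hi : clsW b i <;> cases hj : clsW b j <;> rw [hi, hj] at hr
  case one.one => exact h11 A hi hj
  case one.two => exact h12 A hi hj
  case one.twoE => exact cap_one_twoE hb H.X hy hpos hF h70 A hi hj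
  case one.three =>
    rw [C0_one_three A.slot]
    have := three_0 hb H hy hpos O hF h21 hw A1 hj
    rwa [hi] at this
  case one.threeE => exact cap_13E hb H.L H.X H.C hy hF7 h11 h12 A hi hj
  case one.ring =>
    have h1 := A.le_XM hy
    rw [A.XM_one_65 hi (Or.inr hj)] at h1
    exact h1
  case two.two =>
    have h1 := cap_two_two hb H.L hy hpos h21 A (Or.inl hi) (Or.inl hj)
    refine h1.trans ?_
    rw [A.XM_eq b, A.cr_eq b, hi, hj]
    unfold hpp hp
    split_ifs <;> simp only [C0] <;> norm_num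
  case two.twoE =>
    have h1 := cap_two_two hb H.L hy hpos h21 A (Or.inl hi) (Or.inr hj)
    refine h1.trans ?_
    rw [A.XM_eq b, A.cr_eq b, hi, hj]
    unfold hpp hp
    split_ifs <;> simp only [C0] <;> norm_num
  case two.three =>
    have := three_0 hb H hy hpos O hF h21 hw A1 hj
    rw [hi] at this
    rcases A.slot with rfl | rfl
    · exact this
    · exact this
  case two.threeE =>
    have h1 := cap_two_threeE hb H.L H.C hy hpos hF7 h21 A hi hj
    refine h1.trans ?_
    rw [A.XM_eq b, A.cr_eq b, hi, hj]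
    unfold hpp hp
    split_ifs <;> simp only [C0] <;> norm_num
  case two.ring =>
    obtain ⟨ρ, hn⟩ := A1.rnp hb H.L H.X H.R hy hj
    have h1 := cap_two_ring hb H.L hy hpos h21 A (Or.inl hi) hj hn
    rw [if_pos hi] at h1
    exact h1
  case twoE.twoE =>
    have h1 := cap_two_two hb H.L hy hpos h21 A (Or.inr hi) (Or.inr hj)
    refine h1.trans ?_
    rw [A.XM_eq b, A.cr_eq b, hi, hj]
    unfold hpp hp
    split_ifs <;> simp only [C0] <;> norm_num
  case twoE.three =>
    have := three_0 hb H hy hpos O hF h21 hw A1 hj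
    rw [hi] at this
    rcases A.slot with rfl | rfl
    · exact this
    · exact this
  case twoE.threeE =>
    have h1 := cap_3e hb H.L H.C hy hpos A1 hj (Or.inl hi)
    refine h1.trans ?_
    rw [A.XM_eq b, A.cr_eq b, hi, hj]
    unfold hpp hp
    split_ifs <;> simp only [C0] <;> norm_num
  case twoE.ring =>
    obtain ⟨ρ, hn⟩ := A1.rnp hb H.L H.X H.R hy hj
    have h1 := cap_two_ring hb H.L hy hpos h21 A (Or.inr hi) hj hn
    rw [if_neg (by rw [hi]; decide)] at h1
    exact h1
  case three.three =>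
    have := three_0 hb H hy hpos O hF h21 hw A hi
    rwa [hj] at this
  case three.threeE =>
    have := three_0 hb H hy hpos O hF h21 hw A hi
    rwa [hj] at this
  case three.ring =>
    have := three_0 hb H hy hpos O hF h21 hw A hi
    rwa [hj] at this
  case threeE.threeE =>
    have h1 := cap_3e hb H.L H.C hy hpos A hi (Or.inr hj)
    refine h1.trans ?_
    rw [A.XM_eq b, A.cr_eq b, hi, hj]
    unfold hpp hp
    split_ifs <;> simp only [C0] <;> norm_num
  case threeE.ring =>
    exact cap_3EZ hb H.L H.X H.R H.C hy hpos (ring_nonpos hb H.L H.X H.R hy) A hi hj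
  case ring.ring => exact A.rr_cap hb H.L H.X H.R hy hi hj
  all_goals exact absurd hr (by decide)

/-- **`S`**: the sums of the two hinges of the digits `1`. -/
theorem sum_S (hb : ClassW b) (H : LocA b zs) (hy : Mx b zs y)
    (hpos : ∀ h : Fin M, 0 < y (.inl (.inl h))) (hF : Flr b y F0) (hC : Cap b y C0) :
    Sum1 b y (95 / 100) := by
  have hCS : OR.CapS b y := by
    intro h i j p A hi
    have h1 := hC A
    rw [hi] at h1
    refine h1.trans ?_
    rcases A.slot with rfl | rfl <;> cases clsW b j <;>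
      simp only [C0, OR.pcOf, OR.gS] <;> (try split_ifs) <;> norm_num
  have hC2 : Cap2 b y := by
    intro h i j p A hi
    have h1 := hC A
    rw [hi] at h1
    refine h1.trans ?_
    rcases A.slot with rfl | rfl <;> cases clsW b j <;> simp only [C0] <;> (try split_ifs) <;>
      norm_num
  have h31 : ∀ {h : Fin M} {i j : Fin (M + 1)}, Adj h i 0 j → clsW b i = .one →
      clsW b j = .three → y (.inl (.inl h)) ≤ 39 / 100 := fun A hi hj => by
    have h1 := hC A
    rw [hi, hj] at h1
    simp only [C0, if_true] at h1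
    linarith only [h1]
  have key : ∀ {h h' : Fin M} {i j j' : Fin (M + 1)} {p : Fin 3}, Adj h i p j →
      Adj h' i p.rev j' → clsW b i = .one → rkC (clsW b j) ≤ rkC (clsW b j') →
      y (.inl (.inl h)) + y (.inl (.inl h')) ≤ 95 / 100 := by
    intro h h' i j j' p A A' hi hr
    have c1 := hC A
    have c2 := hC A'
    rw [hi] at c1 c2
    cases hj : clsW b j <;> cases hj' : clsW b j' <;> rw [hj, hj'] at hr <;>
      rw [hj] at c1 <;> rw [hj'] at c2
    case one.one => exact OR.sum_one hb H.P (OR.Flo.of hb H.X hy hpos hF) hCS hy hpos A A' hi hj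
    case one.two => exact OR.sum_one hb H.P (OR.Flo.of hb H.X hy hpos hF) hCS hy hpos A A' hi hj
    case one.twoE => exact OR.sum_one hb H.P (OR.Flo.of hb H.X hy hpos hF) hCS hy hpos A A' hi hj
    case one.three => exact OR.sum_one hb H.P (OR.Flo.of hb H.X hy hpos hF) hCS hy hpos A A' hi hj
    case one.threeE => exact OR.sum_one hb H.P (OR.Flo.of hb H.X hy hpos hF) hCS hy hpos A A' hi hj
    case one.ring => exact OR.sum_one hb H.P (OR.Flo.of hb H.X hy hpos hF) hCS hy hpos A A' hi hj
    case two.two => exact sum1_two hb H.L H.X hy hpos hC2 h31 A A' hi hj (Or.inl hj')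
    case two.three => exact sum1_two hb H.L H.X hy hpos hC2 h31 A A' hi hj (Or.inr (Or.inl hj'))
    case two.ring => exact sum1_two hb H.L H.X hy hpos hC2 h31 A A' hi hj (Or.inr (Or.inr hj'))
    case two.twoE => simp only [C0] at c1 c2; linarith only [c1, c2]
    case two.threeE => simp only [C0] at c1 c2; linarith only [c1, c2]
    case twoE.twoE => simp only [C0] at c1 c2; linarith only [c1, c2]
    case twoE.threeE => simp only [C0] at c1 c2; linarith only [c1, c2]
    case twoE.three =>
      exact sum1_twoE hb H.X hy hpos A A' hi hj (Or.inl hj') (by simpa only [C0] using c1)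
    case twoE.ring =>
      exact sum1_twoE hb H.X hy hpos A A' hi hj (Or.inr hj') (by simpa only [C0] using c1)
    all_goals first
      | exact absurd hr (by decide)
      | (have hok := okp_of hb A A' hi
         rw [hj, hj'] at hok
         exact absurd hok (by unfold ML.okp; decide))
  intro h h' i j j' p A A' hi
  rcases le_total (rkC (clsW b j)) (rkC (clsW b j')) with hr | hr
  · exact key A A' hi hr
  · have A2 : Adj h i p.rev.rev j := by rw [Fin.rev_rev]; exact A
    have := key A' A2 hi hr
    linarith only [this]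

/-- the caps after the second right round which see more than two classes -/
structure CapX (b : Fin (M + 1) → ℤ) (y : DD (tyW b) ⊕ ZZ (tyW b) → ℝ) : Prop where
  /-- three digits `1` -/
  c111 : ∀ {h h' h'' : Fin M} {i j k l : Fin (M + 1)} {s : Fin 3}, Adj h i s j →
    Adj h' i s.rev k → Adj h'' j s l → clsW b i = .one → clsW b j = .one →
    y (.inl (.inl h)) ≤ 64 / 100 ∧
      (clsW b k = .one ∨ clsW b l = .one → y (.inl (.inl h)) ≤ 64 / 100)

/-- the other hinge of a region inside the word -/
theorem Adj.other_three (A : Adj h i 0 j) (hb : ClassW b) (hi : clsW b i = .three) :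
    ∃ (h' : Fin M) (k : Fin (M + 1)), Adj h' i 2 k := by
  obtain ⟨h', k, B⟩ := A.other' b (clsW_inner hb (Or.inr (Or.inr hi)))
  exact ⟨h', k, B⟩

/-- **The second right round.** -/
theorem caps_1 (hb : ClassW b) (H : LocA b zs) (hy : Mx b zs y)
    (hpos : ∀ h : Fin M, 0 < y (.inl (.inl h))) (O : ROpen b zs y) (hF : Flr b y F1)
    (hC : Cap b y C0) (hS : Sum1 b y (95 / 100))
    (h1Z : ∀ {h : Fin M} {i j : Fin (M + 1)} {p : Fin 3}, Adj h i p j → clsW b i = .one →
      clsW b j = .ring → y (.inl (.inl h)) ≤ 36 / 100) : Cap b y C1x ∧ CapX b y := by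
  have h70 : ∀ {h : Fin M} {i j : Fin (M + 1)} {p : Fin 3}, Adj h i p j → clsW b i = .one →
      clsW b j = .one → y (.inl (.inl h)) ≤ 70 / 100 := fun A hi hj => by
    have := hC A
    rwa [hi, hj] at this
  have h21 : ∀ {h : Fin M} {i j : Fin (M + 1)} {p : Fin 3}, Adj h i p j → clsW b i = .two →
      clsW b j = .one → y (.inl (.inl h)) ≤ 60 / 100 := fun A hi hj => by
    have := hC A
    rw [hi, hj] at this
    simp only [C0] at this
    linarith only [this]
  have h111 : ∀ {h h' h'' : Fin M} {i j k l : Fin (M + 1)} {s : Fin 3}, Adj h i s j →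
      Adj h' i s.rev k → Adj h'' j s l → clsW b i = .one → clsW b j = .one →
      y (.inl (.inl h)) ≤ 64 / 100 ∧
        (clsW b k = .one ∨ clsW b l = .one → y (.inl (.inl h)) ≤ 64 / 100) :=
    fun A A1 A2 hi hj => OR.cap11R hb H.P hF hy hpos hS h70 A A1 A2 hi hj
  -- the hinges of a ring
  have hR : ∀ {h : Fin M} {i j : Fin (M + 1)} {p : Fin 3}, Adj h i p j → clsW b i = .ring →
      y (.inl (.inl h)) ≤ 1 / 2 := fun {h i j p} A hi => by
    by_cases hj : clsW b j = .one
    · have := h1Z A.symm hj hi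
      linarith only [this]
    · have h1 := hC A
      rw [hi] at h1
      refine h1.trans ?_
      revert hj
      generalize clsW b j = B
      intro hj
      cases B <;> first
        | exact absurd rfl hj
        | (simp only [C0]; (try split_ifs) <;> norm_num)
  refine ⟨Cap.of_rk C1x_sym ?_, ⟨h111⟩⟩
  intro h i j p A hr
  have A1 := A.symm
  have c := hC A
  cases hi : clsW b i <;> cases hj : clsW b j <;> rw [hi, hj] at hr c
  case one.one =>
    obtain ⟨h', k, B1⟩ := A.other_one hb hi
    obtain ⟨h'', l, B2⟩ := A1.other_one hb hj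
    rw [Fin.rev_rev] at B2
    exact (h111 A B1 B2 hi hj).1
  case one.three =>
    rcases A.slot with rfl | rfl
    · exact c
    · have A3 : Adj h j 0 i := A1
      have := O.s0_one hF hC hS A3 hj hi
      simpa only [C1x, show ¬ (2 : Fin 3) = 0 by decide, if_false] using this
  case one.ring => exact h1Z A hi hj
  case two.ring =>
    obtain ⟨ρ, hn⟩ := A1.rns hb H.L H.X H.R hy hj (hR A1 hj) (fun B => hR B hj)
    exact cap_two_ring' hb H.L hy hpos h21 A hi hj c hn
  case three.ring =>
    rcases A.slot with rfl | rfl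
    · obtain ⟨h', k, B⟩ := A.other_three hb hi
      have c39 : y (.inl (.inl h')) ≤ if clsW b k = .one then 385 / 1000 else 31 / 100 := by
        have := hC B
        rw [hi] at this
        refine this.trans ?_
        cases clsW b k <;> simp only [C0] <;> split_ifs <;> norm_num
      exact O.s0_Z' hF A B hi c39 hj (fun B => hR B hj)
    · simpa only [C0, C1x, if_true] using c
  all_goals first
    | exact absurd hr (by decide)
    | exact c

/-- the caps after the last right round which see more than two classes -/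
structure CapY (b : Fin (M + 1) → ℤ) (y : DD (tyW b) ⊕ ZZ (tyW b) → ℝ) : Prop where
  c111 : ∀ {h h' h'' : Fin M} {i j k l : Fin (M + 1)} {s : Fin 3}, Adj h i s j →
    Adj h' i s.rev k → Adj h'' j s l → clsW b i = .one → clsW b j = .one →
    (clsW b k = .one ∨ clsW b l = .one → y (.inl (.inl h)) ≤ 60 / 100) ∧
      (clsW b k = .three ∨ clsW b l = .three → y (.inl (.inl h)) ≤ 615 / 1000 ∧
        (clsW b k ≠ .ring → clsW b l ≠ .ring → y (.inl (.inl h)) ≤ 60 / 100))
  c132e : ∀ {h h' : Fin M} {i j k : Fin (M + 1)}, Adj h i 0 j → Adj h' i 2 k →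
    clsW b i = .three → clsW b j = .one → clsW b k = .twoE → y (.inl (.inl h)) ≤ 40 / 100

/-- **The last right rounds.** -/
theorem caps_3 (hb : ClassW b) (H : LocA b zs) (hy : Mx b zs y)
    (hpos : ∀ h : Fin M, 0 < y (.inl (.inl h))) (O : ROpen b zs y) (hF : Flr b y F2)
    (hC : Cap b y C1x) (hX : CapX b y) (hS : Sum1 b y (95 / 100))
    (h16 : ∀ {h : Fin M} {i j : Fin (M + 1)} {p : Fin 3}, Adj h i p j → clsW b i = .one →
      clsW b j = .ring → 16 / 100 ≤ y (.inl (.inl h))) :
    Cap b y C3 ∧ CapY b y := by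
  have h2C : ∀ {h : Fin M} {i j : Fin (M + 1)} {p : Fin 3}, Adj h i p j → clsW b i = .two →
      y (.inl (.inl h)) ≤ if clsW b j = .one then 56 / 100 else 36 / 100 := fun {h i j p} A hi => by
    have h1 := hC A
    rw [hi] at h1
    refine h1.trans ?_
    rcases A.slot with rfl | rfl <;> cases clsW b j <;> simp only [C1x] <;> (try split_ifs) <;>
      norm_num
  have h11 : ∀ {h : Fin M} {i j : Fin (M + 1)} {p : Fin 3}, Adj h i p j → clsW b i = .one →
      clsW b j = .one → y (.inl (.inl h)) ≤ 70 / 100 := fun A hi hj => by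
    have := hC A
    rw [hi, hj] at this
    simp only [C1x] at this
    linarith only [this]
  have hZ : ∀ {h : Fin M} {i j : Fin (M + 1)} {p : Fin 3}, Adj h i p j → clsW b i = .ring →
      y (.inl (.inl h)) ≤ 38 / 100 := fun {h i j p} A hi => by
    have h1 := hC A
    rw [hi] at h1
    refine h1.trans ?_
    cases clsW b j <;> simp only [C1x] <;> norm_num
  have h12 : ∀ {h : Fin M} {i j : Fin (M + 1)} {p : Fin 3}, Adj h i p j → clsW b i = .one →
      clsW b j = .two → y (.inl (.inl h)) ≤ 495 / 1000 := fun {h i j p} A hi hj => by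
    obtain ⟨h', j', A'⟩ := A.other_one hb hi
    have h21 : clsW b j' = .ring → ∀ {h2 : Fin M} {j2 : Fin (M + 1)}, Adj h2 j p j2 →
        clsW b j2 = .ring → ofs (b j) (zs (.inl (.inl h2))).im ≤ 60 / 1000 :=
      fun hj' {h2 j2} B hj2 => H.T.twoZ B A.symm A' hj hj2 hi hj'
    have h51 := cap12b hb H.L H.X hy hpos hF hS h2C A A' hi hj (fun hj' => h11 A' hi hj') h21
    exact cap12_R3 hb H.L H.X H.R H.T hy hF hS h2C hZ h16 A A' hi hj h51 (fun hj' => h11 A' hi hj')
  have h2 : ∀ {h : Fin M} {i j : Fin (M + 1)} {p : Fin 3}, Adj h i p j → clsW b i = .two →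
      y (.inl (.inl h)) ≤ 56 / 100 := fun A hi =>
    (h2C A hi).trans (by split_ifs <;> norm_num)
  have h2e : ∀ {h : Fin M} {i j : Fin (M + 1)} {p : Fin 3}, Adj h i p j → clsW b i = .one →
      clsW b j = .twoE → y (.inl (.inl h)) ≤ 37 / 100 := fun A hi hj => by
    have := hC A
    rw [hi, hj] at this
    simp only [C1x] at this
    linarith only [this]
  refine ⟨Cap.of_rk C3_sym ?_, ⟨fun A A1 A2 hi hj =>
    OR.cap11T hb H.P hF hy hpos hS hX.c111 A A1 A2 hi hj,
    fun A A' hi hj hk => (O.s0_one' hF hC hS h12 A A' hi hj).2 hk⟩⟩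
  intro h i j p A hr
  have A1 := A.symm
  have c := hC A
  cases hi : clsW b i <;> cases hj : clsW b j <;> rw [hi, hj] at hr c
  case one.two => exact h12 A hi hj
  case one.three =>
    rcases A.slot with rfl | rfl
    · have A3 : Adj h j 2 i := A1
      obtain ⟨h', k, B⟩ := A.other_one hb hi
      have B2 : Adj h' i 2 k := B
      have := cap_three_one_flat A3 B2 hb H.L H.X hy (hpos h) hF h2 h2e hj hi
      simpa only [C3, if_true] using this
    · have A3 : Adj h j 0 i := A1
      obtain ⟨h', k, B⟩ := A3.other_three hb hj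
      have := (O.s0_one' hF hC hS h12 A3 B hj hi).1
      simpa only [C3, show ¬ (2 : Fin 3) = 0 by decide, if_false] using this
  case two.three =>
    rcases A.slot with rfl | rfl
    · exact c
    · have A3 : Adj h j 0 i := A1
      have := O.s0_two hF hC hS A3 hj hi
      simpa only [C3, show ¬ (2 : Fin 3) = 0 by decide, if_false] using this
  case three.three =>
    rcases A.slot with rfl | rfl
    · have A3 : Adj h j 2 i := A1
      exact O.s33' hF hC A3 hj hi
    · exact O.s33' hF hC A hi hj
  all_goals first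
    | exact absurd hr (by decide)
    | exact c

/-- **The right half of the flat part.** -/
theorem flat_right (hb : ClassW b) (hC : Cap b y C3) (hY : CapY b y) (h : Fin M) :
    y (.inl (.inl h)) ≤ wXM b h - wcr b h := by
  have A : Adj h h.castSucc 2 h.succ := Adj.l
  have c := hC A
  rw [A.XM_eq b, A.cr_eq b]
  unfold hpp
  rw [if_pos rfl]
  by_cases h11 : clsW b h.castSucc = .one ∧ clsW b h.succ = .one
  · obtain ⟨hi, hj⟩ := h11
    obtain ⟨h', k, B1⟩ := A.other_one hb hi
    obtain ⟨h'', l, B2⟩ := A.symm.other_one hb hj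
    rw [Fin.rev_rev] at B2
    have k1 : oc b h.castSucc (2 : Fin 3).rev = clsW b k := B1.oc_eq b
    have k2 : oc b h.succ 2 = clsW b l := B2.oc_eq b
    have h60 := (hY.c111 A B1 B2 hi hj).1
    rw [k1, k2, hi, hj]
    rw [hi, hj] at c
    simp only [C3] at c
    unfold hp
    by_cases hk : clsW b k = .one ∨ clsW b l = .one
    · have := h60 hk
      rw [if_pos hk]
      norm_num
      linarith only [this]
    · rw [if_neg hk]
      norm_num
      linarith only [c]
  · generalize oc b h.castSucc (2 : Fin 3).rev = P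
    generalize oc b h.succ 2 = Q
    revert c h11
    generalize clsW b h.castSucc = B
    generalize clsW b h.succ = C
    intro c h11
    refine c.trans ?_
    cases B <;> cases C <;> first
      | exact absurd ⟨rfl, rfl⟩ h11
      | (simp only [C3, hp, hp1, if_true, show ¬ (2 : Fin 3) = 0 by decide, if_false]; norm_num)

end SR

end Pool.Agent.Work.MP_b30479_gtS.G2

end

section

/-!
# The location of a maximiser on the main paths, all rounds
-/

namespace Pool.Agent.Work.MP_b30479_gtS.G2

open Finset VOL Filter Topology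

namespace SR

open ML

variable {M : ℕ} {b : Fin (M + 1) → ℤ} {zs : DD (tyW b) ⊕ ZZ (tyW b) → ℂ}
variable {y : DD (tyW b) ⊕ ZZ (tyW b) → ℝ}
variable {h h' : Fin M} {i j j' k : Fin (M + 1)} {p : Fin 3}

theorem C0_three (B : Cl) (hB : B ≠ .one) : C0 0 .three B ≤ 1 / 2 := by
  cases B <;> first | exact absurd rfl hB | (simp only [C0]; (try split_ifs) <;> norm_num)

theorem C1x_three (B : Cl) : C1x 0 .three B ≤ 47 / 100 := by
  cases B <;> simp only [C1x] <;> (try split_ifs) <;> norm_num

theorem C1x_ring (p : Fin 3) (B : Cl) : C1x p .ring B ≤ 36 / 100 := by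
  cases B <;> simp only [C1x] <;> norm_num

theorem C3_half (p : Fin 3) (A B : Cl) (hAB : A ≠ .one ∨ B ≠ .one) : C3 p A B < 1 / 2 := by
  cases A <;> cases B <;> first
    | exact absurd rfl (hAB.resolve_left (fun h => h rfl))
    | (simp only [C3]; (try split_ifs) <;> norm_num)

/-- the windows of the hinge at the slot `0` of an interior region with three crossings -/
theorem v3_of (hf : Flat b y) (hC : Cap b y C3) (hY : CapY b y) (A : Adj h i 0 j)
    (A' : Adj h' i 2 k) (hi : clsW b i = .three) :
    y (.inl (.inl h)) ∈ Set.Icc (((M3.prm (clsW b j) (clsW b k)).vl : ℝ) / 10000)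
      (((M3.prm (clsW b j) (clsW b k)).vh : ℝ) / 10000) := by
  obtain ⟨fa, fb⟩ := hf h
  obtain ⟨x1, x2, x3⟩ := A.par_three0 hi
  have c := hC A
  rw [hi] at c
  rw [x2] at fa
  have hE := fun h1 h2 => hY.c132e A A' hi h1 h2
  constructor
  · refine le_trans ?_ fa
    cases clsW b j <;> cases clsW b k <;> norm_num [VL.pL, M3.prm, M3.p11, M3.p1E, M3.p1N, M3.p1Z,
      M3.pE1, M3.pEE, M3.pEN, M3.pEZ, M3.pN1, M3.pNE, M3.pNN, M3.pNZ, M3.pD1, M3.pDE, M3.pDN,
      M3.pDZ]
  · revert c hE
    generalize clsW b j = J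
    generalize clsW b k = K
    intro c hE
    cases J
    · by_cases hK : K = .twoE
      · subst hK
        refine (hE rfl rfl).trans ?_
        norm_num [M3.prm, M3.p1E]
      · refine c.trans ?_
        cases K <;> first
          | exact absurd rfl hK
          | (simp only [C3, show ¬ (0 : Fin 3) = 2 by decide, if_false]
             norm_num [M3.prm, M3.p11, M3.p1N, M3.p1Z])
    all_goals
      refine c.trans ?_
      simp only [C3, show ¬ (0 : Fin 3) = 2 by decide, if_false]
      cases K <;> norm_num [M3.prm, M3.pE1, M3.pEE, M3.pEN, M3.pEZ, M3.pN1, M3.pNE, M3.pNN, M3.pNZ,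
        M3.pD1, M3.pDE, M3.pDN, M3.pDZ]

/-- the windows of the hinge at the slot `2` of an interior region with three crossings -/
theorem u3_of (hf : Flat b y) (hC : Cap b y C3) (A' : Adj h' i 2 k) (hi : clsW b i = .three)
    (J : Cl) :
    y (.inl (.inl h')) ∈ Set.Icc (((M3.prm J (clsW b k)).ul : ℝ) / 10000)
      (((M3.prm J (clsW b k)).uh : ℝ) / 10000) := by
  obtain ⟨fa, fb⟩ := hf h'
  obtain ⟨x1, x2, x3⟩ := A'.par_three2 hi
  have c := hC A'
  rw [hi] at c
  rw [x2] at fa
  constructor
  · refine le_trans ?_ fa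
    cases J <;> cases clsW b k <;> norm_num [VL.pR, M3.prm, M3.p11, M3.p1E, M3.p1N, M3.p1Z,
      M3.pE1, M3.pEE, M3.pEN, M3.pEZ, M3.pN1, M3.pNE, M3.pNN, M3.pNZ, M3.pD1, M3.pDE, M3.pDN,
      M3.pDZ]
  · refine c.trans ?_
    cases J <;> cases clsW b k <;> simp only [C3, if_true] <;> norm_num [M3.prm, M3.p11, M3.p1E,
      M3.p1N, M3.p1Z, M3.pE1, M3.pEE, M3.pEN, M3.pEZ, M3.pN1, M3.pNE, M3.pNN, M3.pNZ, M3.pD1,
      M3.pDE, M3.pDN, M3.pDZ]

/-- **The location of a maximiser on the main paths.** -/
theorem pushIn_of (hb : ClassW b) (H : LocA b zs) (hy : Mx b zs y)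
    (hpos : ∀ h : Fin M, 0 < y (.inl (.inl h))) (O : ROpen b zs y) : PushIn b zs y := by
  -- the slots `2` of the interior regions with three crossings
  have hw : Cap3 b y := cap3_of hb H hy hpos O.c33
    (fun A hi hk => (O.c3E A hi hk).trans (by norm_num [VL.cpR]))
    (fun A hi hk => (O.c3Z A hi hk).trans (by norm_num [VL.cpR]))
  have f0 : Flr b y F0 := left_0 hb H hy hpos (threeSd_0 hb H hy hpos hw)
  have c0 : Cap b y C0 := caps_0 hb H hy hpos O f0 hw
  have hS : Sum1 b y (95 / 100) := sum_S hb H hy hpos f0 c0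
  have f1 : Flr b y F1 := by
    refine left_1 hb H hy hpos f0 (fun A => (c0 A).trans (C0_C1 _ _ _)) ?_
    refine threeSd_1 hb H hy hpos hw f0 fun A hc h1 => ?_
    have := c0 A
    rw [hc] at this
    exact this.trans (C0_three _ h1)
  have h1Z : ∀ {h : Fin M} {i j : Fin (M + 1)} {p : Fin 3}, Adj h i p j → clsW b i = .one →
      clsW b j = .ring → y (.inl (.inl h)) ≤ 36 / 100 := by
    intro h i j p A hi hj
    refine cap_1Z hb H hy hpos f1 ?_ ?_ ?_ ?_ hS A hi hj
    · intro h i j p A hi
      have := c0 A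
      rw [hi] at this
      refine this.trans ?_
      cases clsW b j <;> simp only [C0] <;> (try split_ifs) <;> norm_num
    · intro h i j p A hi hj
      have := c0 A
      rwa [hi, hj] at this
    · intro h i j p A hi
      have := c0 A
      rw [hi] at this
      refine this.trans ?_
      cases clsW b j <;> simp only [C0] <;> (try split_ifs) <;> norm_num
    · intro h i j p A hi hj
      have := c0 A
      rw [hi] at this
      refine this.trans ?_
      rcases hj' : clsW b j with _ | _ | _ | _ | _ | _ <;>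
        first | exact absurd hj' hj | (simp only [C0]; (try split_ifs) <;> norm_num)
  obtain ⟨c1, hX⟩ := caps_1 hb H hy hpos O f1 c0 hS h1Z
  have f2 : Flr b y F2 := by
    refine left_2 hb H hy hpos f1 (fun A => (c1 A).trans (C1x_C2 _ _ _)) ?_ ?_
    · intro h i j p A hi
      have := c1 A
      rw [hi] at this
      exact this.trans (C1x_ring _ _)
    · refine threeSd_2 hb H hy hpos hw f1 fun A hc => ?_
      have := c1 A
      rw [hc] at this
      exact this.trans (C1x_three _)
  have h16 : ∀ {h : Fin M} {i j : Fin (M + 1)} {p : Fin 3}, Adj h i p j → clsW b i = .one →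
      clsW b j = .ring → 160 / 1000 ≤ y (.inl (.inl h)) := fun A hi hj =>
    left_3 hb H hy hpos f2 (fun A => (c1 A).trans (C1x_C2 _ _ _))
      (fun A hc hj h1 h2 => A.ring_L3_one hb H.L H.X H.R hy hc hj h1 (by linarith)
        (fun B => by
          have := c1 B
          rw [hc] at this
          exact this.trans (C1x_ring _ _))) A hi hj
  obtain ⟨c3, hY⟩ := caps_3 hb H hy hpos O f2 c1 hX hS
    (fun A hi hj => le_trans (by norm_num) (h16 A hi hj))
  have hf : Flat b y := fun h => ⟨flat_left f2 h16 h, flat_right hb c3 hY h⟩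
  have hsum : Sum1 b y (90 / 100) := by
    refine flat_sum1 hb H.L H.X H.P hy hf c3 ?_ ?_ ?_ hS
    · intro p
      simp only [C3]
      norm_num
    · intro p
      simp only [C3]
      norm_num
    · intro p
      simp only [C3]
      split_ifs <;> norm_num
  refine ⟨hf, ?_, ?_, hsum, ?_, ?_, ?_⟩
  · intro h i j p A hi hj
    have := c3 A
    rwa [hi, hj] at this
  · intro h i j p A hij
    exact (c3 A).trans_lt (C3_half _ _ _ hij)
  · intro h h' i j k A A' hi
    exact v3_of hf c3 hY A A' hi
  · intro h h' i j k A A' hi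
    exact u3_of hf c3 A' hi _
  · intro i hc
    obtain ⟨g, g', l, l', B, B', -⟩ : ∃ (g g' : Fin M) (l l' : Fin (M + 1)), Adj g i 0 l ∧
        Adj g' i 2 l' ∧ True := by
      have he := clsW_inner hb (Or.inr (Or.inr hc))
      have hne : i ≠ 0 ∧ i ≠ Fin.last M := by
        unfold isEnd at he
        simpa using he
      obtain ⟨m, rfl⟩ : ∃ m : Fin M, i = m.castSucc := ⟨i.castPred hne.2, by simp⟩
      obtain ⟨g, g', l, l', B, B', -⟩ := (Adj.l (h := m)).both b he
      exact ⟨g, g', l, l', B, B', trivial⟩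
    have hv := v3_of hf c3 hY B B' hc
    have hu := u3_of hf c3 B' hc (clsW b l)
    refine ⟨?_, mid_lt hb H.L H.X hy hpos hf B B' hc hu hv⟩
    refine mid_gt hb H.L H.X hy B B' hc ?_ (hw B' hc)
    have c := c3 B
    rw [hc] at c
    refine c.trans ?_
    cases clsW b l <;> simp only [C3, VL.cpL] <;> (try split_ifs) <;> norm_num

end SR

end Pool.Agent.Work.MP_b30479_gtS.G2

end
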