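import Pool.Agent.Work.MP_b30479_gt.TBS.G2.WLocF
import Pool.Agent.Work.MP_b30479_gt.TBS.G2.RWl
import Pool.Agent.Work.MP_b30479_gt.TBS.G2.RGe4
import Pool.Agent.Work.MP_b30479_gt.TBS.G2.TW2c
import Pool.Agent.Work.MP_b30479_gt.TBS.G2.WRngZ
import Pool.Agent.Work.MP_b30479_gt.TBS.G2.WPush2
import Pool.Agent.Work.MP_b30479_gt.TBS.G2.R42
import Pool.Agent.Work.MP_b30479_gt.TBS.G2.ML3q_1
import Pool.Agent.Work.MP_b30479_gt.TBS.G2.WChA
import Pool.Agent.Work.MP_b30479_gt.TBS.G2.V33D
import Pool.Agent.Work.MP_b30479_gt.TBS.G2.R32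
import Pool.Agent.Work.MP_b30479_gt.TBS.G2.WSide2
import Pool.Agent.Work.MP_b30479_gt.TBS.G2.S0RAG
import Pool.Agent.Work.MP_b30479_gt.TBS.G2.V2BL_4
import Pool.Agent.Work.MP_b30479_gt.TBS.G2.V3MidRC_4
import Pool.Agent.Work.MP_b30479_gt.TBS.G2.S2Ld
import Pool.Agent.Work.MP_b30479_gt.TBS.G2.VZ3S

section

/-!
# The caps of the rings in the flat part
-/

namespace Pool.Agent.Work.MP_b30479_gtS.G2

open Finset VOL Filter Topology

namespace SR

variable {M : ℕ} {b : Fin (M + 1) → ℤ} {zs : DD (tyW b) ⊕ ZZ (tyW b) → ℂ}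
variable {y : DD (tyW b) ⊕ ZZ (tyW b) → ℝ}
variable {h h' : Fin M} {i j j' k : Fin (M + 1)} {p : Fin 3}

/-- right end of the flat part next to a ring -/
theorem Adj.flat_ring (A : Adj h i p j) (hc : clsW b i = .ring) (hj : clsW b j ≠ .ring) :
    wXM b h - wcr b h ≤ fcp (clsW b j) := by
  rw [A.XM_eq b, A.cr_eq b, hc]
  unfold hpp
  rcases hj' : clsW b j with _ | _ | _ | _ | _ | _ <;> first | exact absurd hj' hj |
    (split_ifs <;> simp only [hp, hp1, fcp] <;> norm_num)

/-- **The caps of the rings.** -/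
theorem Flat.capped (hf : Flat b y) (hb : ClassW b) (H : LocA b zs) (hy : Mx b zs y) :
    Capped b y := by
  intro h i j p A hc
  by_cases hj : clsW b j = .ring
  · rw [hj]
    exact A.rr_cap hb H.L H.X H.R hy hc hj
  · exact (hf h).2.trans (A.flat_ring hc hj)

end SR

end Pool.Agent.Work.MP_b30479_gtS.G2

end

section

/-!
# Rings in a word: push-back and inner statement
-/

namespace Pool.Agent.Work.MP_b30479_gtS.G2

open Finset VOL Filter Topology

namespace SR

variable {M : ℕ} {b : Fin (M + 1) → ℤ} {zs : DD (tyW b) ⊕ ZZ (tyW b) → ℂ}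
variable {y : DD (tyW b) ⊕ ZZ (tyW b) → ℝ}
variable {h h' h2 h3 : Fin M} {i j k g g' : Fin (M + 1)} {p : Fin 3} {v : ZZ (tyW b)}

/-- the word `4 2` -/
theorem RFacts.at42 (F : RFacts b zs) (A : Adj h i p j) (hc : clsW b i = .ring) (hv : v.1 = i)
    (he : isEnd i = true) (hj : clsW b j = .twoE) (h4 : (b i).natAbs = 4) :
    RC.RP1 ((b i).natAbs : ℝ) (zs (.inl (.inl h))).re (1 / 2 + ofs (b i) (zs (.inr v)).re)
      (ofs (b i) (zs (.inl (.inl h))).im) (zs (.inr v)).im (fcl (clsW b j)) (fcp (clsW b j))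
      (fun _ => 0) (fun _ => 0) ∧
    RC.LI (zs (.inl (.inl h))).re (1 / 2 + ofs (b i) (zs (.inr v)).re)
      (ofs (b i) (zs (.inl (.inl h))).im) (zs (.inr v)).im ∧
    RC.RampOK1 ((b i).natAbs : ℝ) (zs (.inl (.inl h))).re (1 / 2 + ofs (b i) (zs (.inr v)).re)
      (ofs (b i) (zs (.inl (.inl h))).im) (zs (.inr v)).im (fcl (clsW b j)) (fcp (clsW b j)) := by
  have w := F.H.hG.w42 v hv A h4 he hj
  have w1 := w.x0
  have w2 := w.x1
  have w3 := w.t0
  have w4 := w.t1
  have w5 := w.s0
  have w6 := w.s1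
  have w7 := w.r1
  simp only [ofr_re, ofr_im, ofz_re, ofz_im] at w1 w2 w3 w4 w5 w6 w7
  have q := ((F.H4.four v hv A hc h4).adj A hv).r0
  rw [he, hj] at q
  simp only [r4, mk4] at q
  push_cast at q
  have hD := A.ring_crit1 he F.H.hC hv
  have e : 1 / 2 + ofs (b i) (zs (.inr v)).re = 1 / 2 - -ofs (b i) (zs (.inr v)).re := by ring
  rw [h4, e] at hD
  rw [h4, e, hj]
  push_cast at hD ⊢
  exact RC.r42 w1 w2 w3 w4 w5 w6 (by linarith only [q]) w7 hD

/-- **The push of an interior ring, with slacks.** -/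
theorem RFacts.push2 (F : RFacts b zs) (A : Adj h i p j) (A' : Adj h' i p.rev k) (hy : Mx b zs y)
    (hf : Flat b y) (hc : clsW b i = .ring) (R : RingSt b zs y) (hv : v.1 = i)
    (hK : Capped b y) (he : isEnd i = false) :
    ∃ f g, Sl b zs h i j p f g ∧
      PushQ (tyW b) b i p p.rev (Xw b zs y i) (xx (tyW b) i zs) f g := by
  obtain ⟨f, g, f', g', S, S', P⟩ := F.prI A A' hc hv he
  have H := F.H
  have hys := H.ys A hc hv
  have h4 : (0 : ℝ) < ((b i).natAbs : ℝ) := by
    have := ring_four H.hb (tyW_of_ring H.hb hc)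
    exact_mod_cast (show 0 < (b i).natAbs by omega)
  exact ⟨f, g, S, A.push_ring2 A' H.hb H.hL hy hf hc R hv
    (RC.Pr.RP2 P S.fnn S.gnn (H.int A hc hv he) (H.int A' hc hv he) h4
      (rbet_nonneg _ _) ⟨hys.1, by linarith only [hys, hys.2]⟩ (A.ring_crit2 A' H.hC hv) (fcl_pos' _)
      (by linarith only [fcp_lt' (clsW b j)])) (A.in_flat hc hf hK) (A'.in_flat hc hf hK) (fcl_pos' _)
      (fcl_pos' _) (fcp_lt' _) (fcp_lt' _)⟩

/-- **The push of a ring at an end, with slacks.** -/
theorem RFacts.push1 (F : RFacts b zs) (A : Adj h i p j) (hy : Mx b zs y)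
    (hf : Flat b y) (hc : clsW b i = .ring) (R : RingSt b zs y) (hv : v.1 = i)
    (hK : Capped b y) (he : isEnd i = true) :
    ∃ f g, Sl b zs h i j p f g ∧
      PushQ (tyW b) b i p p.rev (Xw b zs y i) (xx (tyW b) i zs) f g := by
  have H := F.H
  have hys := H.ys A hc hv
  have hx := A.in_flat hc hf hK
  by_cases hj : clsW b j = .twoE ∧ (b i).natAbs = 4
  · exact ⟨_, _, Sl.zero b zs h i j p, A.push_ring1 he H.hb H.hL hy hf hc R hv
      (F.at42 A hc hv he hj.1 hj.2).1 hx (fcl_pos' _) (fcp_lt' _)⟩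
  · obtain ⟨f, g, S, P⟩ := F.enI A hc hv he
    refine ⟨f, g, S, A.push_ring1 he H.hb H.hL hy hf hc R hv
      (RC.En.RP1 P S.fnn S.gnn (H.en A hc hv he fun h0 => ?_) ⟨hys.1, by linarith only [hys, hys.2]⟩
        (A.ring_crit1 he H.hC hv) (fcl_pos' _) (by linarith only [fcp_lt' (clsW b j)])) hx
      (fcl_pos' _) (fcp_lt' _)⟩
    rcases (ring_four H.hb (tyW_of_ring H.hb hc)).eq_or_lt with h5 | h5
    · exact absurd ⟨h0, h5.symm⟩ hj
    · exact h5

/-- **The push of a ring, with slacks.** -/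
theorem RFacts.pushR (F : RFacts b zs) (A : Adj h i p j) (hy : Mx b zs y)
    (hf : Flat b y) (hc : clsW b i = .ring) (R : RingSt b zs y) (hv : v.1 = i)
    (hK : Capped b y) :
    ∃ f g, Sl b zs h i j p f g ∧
      PushQ (tyW b) b i p p.rev (Xw b zs y i) (xx (tyW b) i zs) f g := by
  rcases he : isEnd i with _ | _
  · obtain ⟨h', k, A'⟩ := A.other' b he
    exact F.push2 A A' hy hf hc R hv hK he
  · exact F.push1 A hy hf hc R hv hK he

/-- **The neighbour pays for the slacks.** -/
theorem Sl.pay {f g : ℝ → ℝ} (S : Sl b zs h i j p f g) (A : Adj h i p j) (hb : ClassW b)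
    (H : LocA b zs) (hy : Mx b zs y) (hpos : ∀ h : Fin M, 0 < y (.inl (.inl h)))
    (I : PushIn b zs y) (hK : Capped b y) (hc : clsW b i = .ring) (hj : clsW b j ≠ .ring) :
    PushQ (tyW b) b j p.rev p (Xw b zs y j) (xx (tyW b) j zs) (fun m => -f m)
      (fun m => -g m) := by
  have hB := A.symm
  have hop := A.opp hb (Or.inr hj)
  have hT := ofs_opp hop (zs (.inl (.inl h))).im
  rcases S.up with e | ⟨h1, ⟨h2, k, A2, hk⟩, hx, ht⟩
  · rcases S.dn with e' | ⟨h2, h4, e'⟩
    · have P := push_digit hb H hy hpos I hB hj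
      rw [Fin.rev_rev] at P
      rw [e, e']
      simp only [neg_zero]
      refine ⟨fun a c => ?_, fun a c => ?_⟩
      · rw [add_zero]; exact P.1 a c
      · rw [add_zero]; exact P.2 a c
    · have P := hB.pushQ_twoE hb H.L H.X hy I.flat h2 hc h4
        (I.half hB (Or.inl (by rw [h2]; decide))).le
      rw [Fin.rev_rev] at P
      rw [e, e']
      simp only [neg_zero]
      exact P
  · have e' : g = fun _ => 0 := by
      rcases S.dn with e' | ⟨h5, -, -⟩
      · exact e'
      · rw [h1] at h5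
        exact absurd h5 (by decide)
    have h36 := hK A hc
    rw [h1] at h36
    have P := fun (c : ℝ) (hh : (c = 38 / 100 ∧ ofs (b j) (zs (.inl (.inl h))).im ≤ 128 / 1000) ∨
      (c = 355 / 1000 ∧ ofs (b j) (zs (.inl (.inl h))).im ≤ 138 / 1000)) =>
      hB.pushQ_one A2.rev2 hb H.L H.X H.P H.S hy I.flat I.c64 I.sum h1 hc hk h36 hx hh
    rcases ht with ⟨h6, e⟩ | ⟨h6, e⟩
    · have Q := P _ (Or.inl ⟨rfl, by linarith only [hT, h6]⟩)
      rw [Fin.rev_rev] at Q
      rw [e, e']
      simp only [neg_zero]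
      exact Q
    · have Q := P _ (Or.inr ⟨rfl, by linarith only [hT, h6]⟩)
      rw [Fin.rev_rev] at Q
      rw [e, e']
      simp only [neg_zero]
      exact Q

/-- the sum form from the two sides of a hinge -/
theorem PushS.of_adj (hC : Crit b zs) (A : Adj h i p j) {f g f' g' : ℝ → ℝ}
    (h1 : PushQ (tyW b) b i p p.rev (Xw b zs y i) (xx (tyW b) i zs) f g)
    (h2 : PushQ (tyW b) b j p.rev p (Xw b zs y j) (xx (tyW b) j zs) f' g')
    (hf : ∀ m, f m + f' m ≤ 0) (hg : ∀ m, g m + g' m ≤ 0) :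
    PushS (tyW b) b (wpar b zs) zs y h := by
  cases A
  · exact PushS.of_q hC.inn hC.dT h1 h2 (hf _) (hg _)
  · exact PushS.of_q hC.inn hC.dT h2 h1 (by rw [add_comm]; exact hf _)
      (by rw [add_comm]; exact hg _)

/-- **The push of the hinges of the rings.** -/
theorem RFacts.hq (F : RFacts b zs) (H : LocA b zs) (hy : Mx b zs y)
    (I : PushIn b zs y) (A : Adj h i p j) (hc : clsW b i = .ring) :
    PushS (tyW b) b (wpar b zs) zs y h := by
  have hb := F.H.hb
  have hf := I.flat
  have hpos : ∀ h : Fin M, 0 < y (.inl (.inl h)) := fun h => (wcl_pos h).trans_le (hf h).1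
  have hK : Capped b y := hf.capped hb H hy
  have R := ringSt hb F.H.hL F.H.hX F.H.hR hy hf
  obtain ⟨v, hv, -⟩ := A.ring hb F.H.hL hy hc
  obtain ⟨f, g, S, P⟩ := F.pushR A hy hf hc R hv hK
  by_cases hj : clsW b j = .ring
  · obtain ⟨w, hw, -⟩ := A.symm.ring hb F.H.hL hy hj
    obtain ⟨f', g', S', P'⟩ := F.pushR A.symm hy hf hj R hw hK
    rw [Fin.rev_rev] at P'
    have e : f = fun _ => 0 := by
      rcases S.up with e | ⟨h1, -⟩
      · exact e
      · rw [hj] at h1
        exact absurd h1 (by decide)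
    have e1 : g = fun _ => 0 := by
      rcases S.dn with e | ⟨h1, -⟩
      · exact e
      · rw [hj] at h1
        exact absurd h1 (by decide)
    have e2 : f' = fun _ => 0 := by
      rcases S'.up with e | ⟨h1, -⟩
      · exact e
      · rw [hc] at h1
        exact absurd h1 (by decide)
    have e3 : g' = fun _ => 0 := by
      rcases S'.dn with e | ⟨h1, -⟩
      · exact e
      · rw [hc] at h1
        exact absurd h1 (by decide)
    exact PushS.of_adj F.H.hC A P P' (fun m => by rw [e, e2]; simp) (fun m => by rw [e1, e3]; simp)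
  · exact PushS.of_adj F.H.hC A P (S.pay A hb H hy hpos I hK hc hj) (fun m => by simp)
      (fun m => by simp)

/-- **The ring variables if the hinges are at the saddle point.** -/
theorem RFacts.hrin (F : RFacts b zs) (H : LocA b zs) (hy : Mx b zs y)
    (I : PushIn b zs y) (hh : ∀ h : Fin M, y (.inl (.inl h)) = (zs (.inl (.inl h))).re)
    (v : ZZ (tyW b)) : y (.inr v) = (zs (.inr v)).re := by
  have G := F.H
  have hb := G.hb
  have hf := I.flat
  have hK : Capped b y := hf.capped hb H hy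
  have R := ringSt hb G.hL G.hX G.hR hy hf
  have hc := clsW_ring hb v
  obtain ⟨h, p, j, A⟩ := ring_adj_v hb G.hL G.hC v
  have hys := G.ys A hc rfl
  have f1 := G.xs_flat A hc
  rcases he : isEnd v.1 with _ | _
  · obtain ⟨h', k, A'⟩ := A.other' b he
    obtain ⟨f, g, f', g', -, -, P⟩ := F.prI A A' hc rfl he
    exact A.in_ring2 A' hb G.hL G.hC hy hf hc R rfl P.lp P.lq (G.int A hc rfl he)
      (G.int A' hc rfl he) (ralp_pos _ _) hys.1 f1 (G.xs_flat A' hc) (fcl_pos' _) (fcl_pos' _)
      (fcp_lt' _) (fcp_lt' _) (hh _) (hh _)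
  · by_cases hj : clsW b j = .twoE ∧ (b v.1).natAbs = 4
    · obtain ⟨-, l, r⟩ := F.at42 A hc rfl he hj.1 hj.2
      exact A.in_ring1 he hb G.hL G.hC hy hf hc R rfl l r hys.1 f1 (fcl_pos' _) (fcp_lt' _) (hh _)
    · obtain ⟨f, g, -, P⟩ := F.enI A hc rfl he
      refine A.in_ring1 he hb G.hL G.hC hy hf hc R rfl P.l (G.en A hc rfl he fun h0 => ?_) hys.1 f1
        (fcl_pos' _) (fcp_lt' _) (hh _)
      rcases (ring_four hb (tyW_of_ring hb hc)).eq_or_lt with h5 | h5
      · exact absurd ⟨h0, h5.symm⟩ hj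
      · exact h5

end SR

end Pool.Agent.Work.MP_b30479_gtS.G2

end

section

/-!
# Caps of the slot-2 hinges of an interior region with three crossings: `3 | 3e`, `3 | ring`

No floors, no caps of other hinges.
-/

namespace Pool.Agent.Work.MP_b30479_gtS.G2

open Finset VOL Filter Topology

namespace SR

variable {M : ℕ} {b : Fin (M + 1) → ℤ} {zs : DD (tyW b) ⊕ ZZ (tyW b) → ℂ}
variable {y : DD (tyW b) ⊕ ZZ (tyW b) → ℝ}
variable {h h' : Fin M} {i j j' : Fin (M + 1)} {p : Fin 3}

/-- **`3 | 3e`** with the interior `3` on the left: the flat end, without any information. -/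
theorem cap_three_threeE (A : Adj h i 2 j) (hb : ClassW b) (hL : Loc b zs) (hX : LocX b zs)
    (hC : Crit b zs) (hy : Mx b zs y) (h0 : 0 < y (.inl (.inl h))) (hi : clsW b i = .three)
    (hj : clsW b j = .threeE) : y (.inl (.inl h)) ≤ 30 / 100 := by
  by_contra hcon
  push Not at hcon
  have hj1 : clsW b j ≠ .one := by rw [hj]; decide
  obtain ⟨e1, e2, e3⟩ := A.par_three hi hj1
  have hw : wXM b h - wcr b h < y (.inl (.inl h)) := by rw [e1, e3]; linarith only [hcon]
  have s1 := A.own_three_threeE hb hL hX hy hi hj hcon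
  have s2 := threeE_R hb hL hC hy A.symm hj (by rw [hi]; decide) (by rw [hi]; decide) hw
  have s3 : r3E (clsW b i) (y (.inl (.inl h))) ≤ 3 / 100 := by
    rw [hi]
    unfold r3E
    simp only
    split_ifs <;> norm_num
  exact rstep_false hb hy h0 (RSide.of_sum A (by linarith only [s1, s2, s3]))

/-- the side of a ring in the slot 2 of an interior `3` on the right ramp, height `≥ 0` in the
frame of the `3` -/
theorem ring_three_side (hb : ClassW b) (hL : Loc b zs) (hX : LocX b zs) (hR : LocR b zs)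
    (hy : Mx b zs y) (A : Adj h i 2 j) (hi : clsW b i = .three) (hj : clsW b j = .ring)
    (hx : 30 / 100 < y (.inl (.inl h))) (hT : 0 ≤ ofs (b i) (zs (.inl (.inl h))).im) :
    Sw b zs y j 0 (slL b zs y h) < 0 ∧
      (10 / 1000 ≤ ofs (b i) (zs (.inl (.inl h))).im → 36 / 100 ≤ y (.inl (.inl h)) →
        Sw b zs y j 0 (slL b zs y h) + Real.pi * ofs (b j) (slL b zs y h) ≤ 1 / 10) := by
  have hj1 : clsW b j ≠ .one := by rw [hj]; decide
  have hop := A.opp hb (Or.inl (by rw [hi]; decide))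
  have A' := A.symm
  have e0 : (2 : Fin 3).rev = 0 := rfl
  rw [e0] at A'
  obtain ⟨v, hv, k', P⟩ := A'.rpk hb hL hX hR hy hj
  obtain ⟨t1, t2⟩ := A.im_three hb hL hi
  rw [hj] at t1 t2
  norm_num [hbox] at t1 t2
  set T := ofs (b i) (zs (.inl (.inl h))).im with hTd
  have hTj : ofs (b j) (zs (.inl (.inl h))).im = -T := by rw [ofs_opp hop, hTd]
  have hsl : ofs (b j) (slL b zs y h) = T / (30 / 100) := by
    rw [A.slope_three hi hj1 hx, hTj]
    unfold MR.mR
    push_cast
    rw [neg_neg]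
  have him : (Yw b zs y j 0).im = -(T / (30 / 100) * (60 / 100 - y (.inl (.inl h)))) := by
    rw [A.height_three A' hi hj1 hy hx, A'.re, hTj]
    unfold MR.tR
    push_cast
    ring
  have hM := (A.rh hy).reM
  rw [(A.par_three hi hj1).1, A.re] at hM
  have hm0 : 0 ≤ T / (30 / 100) := div_nonneg hT (by norm_num)
  have hm1 : T / (30 / 100) ≤ 384 / 1000 := by
    rw [div_le_iff₀ (by norm_num)]
    linarith only [t2]
  have hE : ¬Exh b zs y h j i := fun hE => by
    have := hE.2.1
    rw [hTj] at this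
    linarith only [hT, this]
  have hk := P.ok
  rw [rkw_neg hE, hi] at hk
  constructor
  · rw [A'.side_ring hb hj, hsl, P.z]
    exact P.rm.right_lo P.cap hk P.le P.lt hm0 (fun _ => hm1) (by linarith only [t2])
      (by rw [A'.re]; linarith only [hx])
  · intro hT10 h36
    rw [A'.side_ring hb hj, hsl, P.z]
    have hW : RZ2.W (y (.inl (.inl h))) (T / (30 / 100)) (Yw b zs y j 0) := ⟨A'.re .., him, hM⟩
    have hσ := abs_lt.1 P.lt
    rcases zt_cases P.rm.ρ0 hσ.1 P.le with hz | hz
    · exact RZ2.g2_flat hW hz h36 hT10 (by linarith only [t2]) P.cap.1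
    · exact RZ2.g2_ramp hW hz h36 hT10 (by linarith only [t2]) P.cap.1

/-- **`3 | ring`** with the interior `3` on the left, height `≥ 0` in the frame of the `3`: the
flat end, without any information. -/
theorem cap_three_ring (A : Adj h i 2 j) (hb : ClassW b) (hL : Loc b zs) (hX : LocX b zs)
    (hR : LocR b zs) (hy : Mx b zs y) (h0 : 0 < y (.inl (.inl h))) (hi : clsW b i = .three)
    (hj : clsW b j = .ring) (hT : 0 ≤ ofs (b i) (zs (.inl (.inl h))).im) :
    y (.inl (.inl h)) ≤ 30 / 100 := by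
  by_contra hcon
  push Not at hcon
  have hj1 : clsW b j ≠ .one := by rw [hj]; decide
  have hop := A.opp hb (Or.inl (by rw [hi]; decide))
  obtain ⟨s1, s2⟩ := ring_three_side hb hL hX hR hy A hi hj hcon hT
  rcases le_total (y (.inl (.inl h))) (50 / 100) with hx | hx
  · have s3 := A.own_three_ring hb hL hX hy hi hj hcon hx
    exact rstep_false hb hy h0 (RSide.of_sum A (by
      show _ + Sw b zs y j 0 (slL b zs y h) < 0
      linarith only [h0, s1, hx, s3]))
  · have s3 := A.own_three_ring_b hb hL hX hy hi hj hx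
    have e1 : ofs (b i) (slL b zs y h) = -(ofs (b i) (zs (.inl (.inl h))).im / (30 / 100)) := by
      rw [A.slope_three hi hj1 hcon]
      unfold MR.mR
      push_cast
      ring
    have e2 : ofs (b j) (slL b zs y h) = -ofs (b i) (slL b zs y h) := ofs_opp hop _
    rcases le_total (10 / 1000) (ofs (b i) (zs (.inl (.inl h))).im) with hT1 | hT1
    · have s4 := s2 hT1 (by linarith only [h0, hx])
      rw [e2] at s4
      exact rstep_false hb hy h0 (RSide.of_sum A (by
        show _ + Sw b zs y j 0 (slL b zs y h) < 0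
        linarith only [s3, s4]))
    · have hp := Real.pi_lt_d2
      have hp0 := Real.pi_pos
      have s5 : Real.pi * (ofs (b i) (zs (.inl (.inl h))).im / (30 / 100)) ≤ 315 / 100 * (1 / 30) :=
        mul_le_mul (by linarith only [hp, hp]) (by rw [div_le_iff₀ (by norm_num)]; linarith only [hT1])
          (div_nonneg hT (by norm_num)) (by norm_num)
      rw [e1] at s3
      exact rstep_false hb hy h0 (RSide.of_sum A (by
        show _ + Sw b zs y j 0 (slL b zs y h) < 0
        linarith only [s1, s3, s5]))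

end SR

end Pool.Agent.Work.MP_b30479_gtS.G2

end

section

/-!
# All caps
-/

namespace Pool.Agent.Work.MP_b30479_gtS.G2

open Finset VOL Filter Topology

namespace SR

open ML

variable {M : ℕ} {b : Fin (M + 1) → ℤ} {zs : DD (tyW b) ⊕ ZZ (tyW b) → ℂ}
variable {y : DD (tyW b) ⊕ ZZ (tyW b) → ℝ}
variable {h h' : Fin M} {i j j' k : Fin (M + 1)} {p : Fin 3}

theorem cap2_of {k : Fin (M + 1)}
    (hc : y (.inl (.inl h')) ≤ if clsW b k = .one then 385 / 1000 else 31 / 100) :
    y (.inl (.inl h')) ≤ cap2 (clsW b k) := by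
  refine hc.trans ?_
  rcases hk : clsW b k with _ | _ | _ | _ | _ | _ <;> simp [cap2] <;> norm_num

theorem cap2_cpR (K : Cl) : VL.cpR K = cap2 K := by
  cases K <;> rfl

/-- the two sides of `3 | 3` -/
theorem side_33 (hb : ClassW b) (H : LocA b zs) (hy : Mx b zs y)
    (hpos : ∀ h : Fin M, 0 < y (.inl (.inl h))) (hF : Flr b y F0) (hw : Cap3 b y)
    (A : Adj h i 2 j) (hi : clsW b i = .three) (hj : clsW b j = .three) :
    y (.inl (.inl h)) ≤ 1 / 2 ∧
    (30 / 100 < y (.inl (.inl h)) → y (.inl (.inl h)) ≤ 40 / 100 →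
      Sw b zs y j 0 (slL b zs y h) < 66 / 100 - 3 / 2 * y (.inl (.inl h))) ∧
    (40 / 100 < y (.inl (.inl h)) → y (.inl (.inl h)) ≤ 1 / 2 →
      Sw b zs y j 0 (slL b zs y h) < 0) := by
  have A0 : Adj h j 0 i := A.symm
  obtain ⟨h', k, B⟩ := A0.other_three hb hj
  have h7 : 7 / 100 ≤ y (.inl (.inl h')) := by
    have h1 := F0_ge 2 (clsW b j) (clsW b k)
    have h2 := hF B
    linarith only [h1, h2]
  have hc : y (.inl (.inl h')) ≤ cap2 (clsW b k) := by
    rw [← cap2_cpR]
    exact hw B hj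
  refine ⟨?_, fun h1 h2 => ?_, fun h1 h2 => ?_⟩
  · exact s0_cap hb H.L H.X hy A0 B hj (by rw [hi]; decide) (by rw [hi]; decide)
      (hc.trans (cap2_le _))
  · have := s0r_three hb H.L H.X hy hpos A0 B hj (Or.inl hi) (fun h3 => by rw [hi] at h3; cases h3)
      h7 hc h1 (by linarith only [h2])
    unfold s0rB at this
    rwa [if_pos h2] at this
  · have := s0r_three hb H.L H.X hy hpos A0 B hj (Or.inl hi) (fun h3 => by rw [hi] at h3; cases h3)
      h7 hc (by linarith only [h1, h2]) h2
    unfold s0rB at this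
    rwa [if_neg (not_le.2 h1), if_neg (by rw [hi]; decide)] at this

/-- **`3 | 3` at most `31/100`.** -/
theorem s33_31 (hb : ClassW b) (H : LocA b zs) (hy : Mx b zs y)
    (hpos : ∀ h : Fin M, 0 < y (.inl (.inl h))) (hF : Flr b y F0) (hw : Cap3 b y)
    (A : Adj h i 2 j) (hi : clsW b i = .three) (hj : clsW b j = .three) :
    y (.inl (.inl h)) ≤ 31 / 100 := by
  obtain ⟨s1, s2, s3⟩ := side_33 hb H hy hpos hF hw A hi hj
  exact cap33_31 A hb H.L H.X hy (hpos h) hi hj s1 s2 s3

/-- **`3 | 3` at most `30/100`.** -/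
theorem s33_30 (hb : ClassW b) (H : LocA b zs) (hy : Mx b zs y)
    (hpos : ∀ h : Fin M, 0 < y (.inl (.inl h))) (hF : Flr b y F0) (hw : Cap3 b y)
    (A : Adj h i 2 j) (hi : clsW b i = .three) (hj : clsW b j = .three) :
    y (.inl (.inl h)) ≤ 30 / 100 := by
  obtain ⟨s1, s2, s3⟩ := side_33 hb H hy hpos hF hw A hi hj
  refine cap33_30 A hb H.L H.X hy (hpos h) hi hj (fun _ hm => ?_) s1 s2 s3
  obtain ⟨h0, j0, B⟩ := A.other' b (clsW_inner hb (Or.inr (Or.inr hi)))
  exact H.Q.three hm B A hi hj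

/-- floors of a later round -/
theorem Flr.zero_of_one (hF : Flr b y F1) : Flr b y F0 := fun A => (F0_le _ _ _).trans (hF A)

theorem Flr.one_of_two (hF : Flr b y F2) : Flr b y F1 := fun A => (F1_le A.slot _ _).trans (hF A)

theorem Flr.seven (hF : Flr b y F0) (h : Fin M) : 7 / 100 ≤ y (.inl (.inl h)) := by
  have h1 := F0_ge 2 (clsW b h.castSucc) (clsW b h.succ)
  have h2 := hF (Adj.l (h := h))
  linarith only [h1, h2]

/-- the slots `2`, without floors -/
theorem cap3_open (hb : ClassW b) (H : LocA b zs) (hy : Mx b zs y)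
    (hpos : ∀ h : Fin M, 0 < y (.inl (.inl h))) : Cap3 b y :=
  cap3_of hb H hy hpos (fun A A' hi hk hw => cap33_S0 hb H.L H.X hy hpos A A' hi hk hw)
    (fun A hi hk => (cap_three_threeE A hb H.L H.X H.C hy (hpos _) hi hk).trans
      (by norm_num [VL.cpR]))
    (fun {h i k} A hi hk => by
      have : y (.inl (.inl h)) ≤ 30 / 100 := by
        rcases le_or_gt 0 (ofs (b i) (zs (.inl (.inl h))).im) with hT | hT
        · exact cap_three_ring A hb H.L H.X H.R hy (hpos _) hi hk hT
        · exact c3Z_of hb H hy A hi hk hT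
      exact this.trans (by norm_num [VL.cpR]))

/-- **All caps.** -/
theorem ROpen.of (hb : ClassW b) (H : LocA b zs) (hy : Mx b zs y)
    (hpos : ∀ h : Fin M, 0 < y (.inl (.inl h))) : ROpen b zs y where
  c33 A A' hi hk hw := cap33_S0 hb H.L H.X hy hpos A A' hi hk hw
  c3E A hi hk := cap_three_threeE A hb H.L H.X H.C hy (hpos _) hi hk
  c3Z {h i k} A hi hk := by
    rcases le_or_gt 0 (ofs (b i) (zs (.inl (.inl h))).im) with hT | hT
    · exact cap_three_ring A hb H.L H.X H.R hy (hpos _) hi hk hT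
    · exact c3Z_of hb H hy A hi hk hT
  s33 hF hw _ _ _ A hi hj := s33_31 hb H hy hpos hF hw A hi hj
  s33' hF hC _ _ _ A hi hj := s33_30 hb H hy hpos (Flr.zero_of_one (Flr.one_of_two hF))
    (cap3_open hb H hy hpos) A hi hj
  s0_lo hF h21 h h' i j k A A' hi hc h1 h3 hZ := by
    have hc' := cap2_of hc
    have h7 := hF.seven
    rcases hj : clsW b j with _ | _ | _ | _ | _ | _
    · exact absurd hj h1
    · rw [if_pos rfl]
      exact s0r_cap_two hb H.L H.X hy hpos h7 h21 A A' hi hj hc'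
    · rw [if_neg (by decide)]
      exact s0r_cap_twoE hb H.L H.X hy hpos A A' hi hj (h7 _) hc'
    · exact absurd hj h3
    · rw [if_neg (by decide)]
      exact s0r_cap_threeE hb H.L H.X H.C hy hpos A A' hi hj (h7 _) hc'
    · exact absurd hj hZ
  s0_Z hF _ _ _ _ _ A A' hi hc hj := s0_Z_of hb H hy hpos A A' hi hj (hF.seven _) (cap2_of hc)
  s0_Z' hF _ _ _ _ _ A A' hi hc hj hR := s0_Z'_of hb H hy hpos A A' hi hj
    (Flr.seven (Flr.zero_of_one hF) _) (cap2_of hc) hR
  s0_one hF hC hS h i j A hi hj := by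
    obtain ⟨h', k, B⟩ := A.other_three hb hi
    have A2 : Adj h j 2 i := A.symm
    have h7 := Flr.seven (Flr.zero_of_one hF)
    have h11 : ∀ {h : Fin M} {i j : Fin (M + 1)} {p : Fin 3}, Adj h i p j → clsW b i = .one →
        clsW b j = .one → y (.inl (.inl h)) ≤ 70 / 100 := fun A hi hj => by
      have := hC A
      rwa [hi, hj] at this
    have hB := hC B
    rw [hi] at hB
    have w1 : y (.inl (.inl h')) ≤ 39 / 100 := by
      refine hB.trans ?_
      cases clsW b k <;> simp only [C0, if_true] <;> norm_num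
    have w2 : clsW b k ≠ .one → y (.inl (.inl h')) ≤ 31 / 100 := fun hk => by
      refine hB.trans ?_
      rcases hk' : clsW b k with _ | _ | _ | _ | _ | _ <;> first
        | exact absurd hk' hk
        | (simp only [C0, if_true]; norm_num)
    refine (HX.cap13_R1 hb H.L H.X H.P (Mid13.of H.N H.O) hy hpos hF
      (fun A => (hC A).trans (C0_C1 _ _ _)) hS ?_ ?_ A2 B hj hi w1 w2
      (fun A' h2 hk => by
        obtain ⟨t1, -⟩ := H.U.tail (tyW_isMid (Or.inl hi)) A B A' hi hj h2 hk
        unfold hI mI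
        linarith only [hi, t1])).1
    · intro h h' i j j' p A A' hi hj hZ
      exact (cap12 hb H.L H.X hy hpos h7 h11 A A' hi hj).2 hZ
    · intro h i j p A hi hj
      have := hC A
      rwa [hi, hj] at this
  s0_one' hF hC hS h12 h h' i j k A A' hi hj := by
    have A2 : Adj h j 2 i := A.symm
    have hB := hC A'
    have hA := hC A
    rw [hi] at hB
    rw [hi, hj] at hA
    simp only [C1x, show ¬ (0 : Fin 3) = 2 by decide, if_false] at hA
    refine HX.cap13_R2 hb H.L H.X H.O hy hpos hF hS h12 ?_ A2 A' hj hi ?_ (fun hk => ?_) hA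
      (fun hk hx hx' => ?_)
    · intro h i j p A hi hj
      have := hC A
      rwa [hi, hj] at this
    · refine hB.trans ?_
      cases clsW b k <;> simp only [C1x, if_true] <;> norm_num
    · refine hB.trans ?_
      rcases hk' : clsW b k with _ | _ | _ | _ | _ | _ <;> first
        | exact absurd hk' hk
        | (simp only [C1x, if_true]; norm_num)
    · rw [hk] at hB
      exact s0_mid_twoE hb H.L H.X H.O hy hpos hF hS A A' hi hj hk
        (by simpa only [C1x] using hB) hx (by linarith only [hx'])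
  s0_two hF hC hS h i j A hi hj := by
    obtain ⟨h', k, B⟩ := A.other_three hb hi
    have A2 : Adj h j 2 i := A.symm
    have hB := hC B
    have fB := hF B
    rw [hi] at hB fB
    refine cap23_of hb H.L hy (Flr.seven (Flr.zero_of_one (Flr.one_of_two hF))) ?_ A2 hj hi ?_ fun h33 => ?_
    · intro h i j p A hi hj
      have := hC A
      rw [hi, hj] at this
      simp only [C1x] at this
      linarith only [this]
    · have := hC A
      rw [hi, hj] at this
      simpa only [C1x, show ¬ (0 : Fin 3) = 2 by decide, if_false] using this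
    · have h36 := hC A
      rw [hi, hj] at h36
      simp only [C1x, show ¬ (0 : Fin 3) = 2 by decide, if_false] at h36
      have := s0a_two hb H.L H.X H.D hy hpos A B hi hj (fun hk => ?_) (fun hk => ?_) h33 h36
      · linarith only [this]
      · rw [hk] at hB fB
        simp only [C1x, F2, if_true] at hB fB
        constructor <;> linarith only [fB, hB]
      · rcases hk' : clsW b k with _ | _ | _ | _ | _ | _ <;> rw [hk'] at hB fB <;>
          simp only [C1x, F2, if_true] at hB fB <;> first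
          | exact absurd hk' hk
          | (constructor <;> linarith only [fB, hB])

/-- **The parts of the argument on the main paths.** -/
theorem mainPartsS_open (hM : 1 ≤ M) (hb : ClassW b) (H : LocA b zs)
    (hrin : ∀ y, Mx b zs y → PushIn b zs y →
      (∀ h : Fin M, y (.inl (.inl h)) = (zs (.inl (.inl h))).re) →
      ∀ v : ZZ (tyW b), y (.inr v) = (zs (.inr v)).re)
    (hq : ∀ y, Mx b zs y → PushIn b zs y → ∀ {h : Fin M} {i j : Fin (M + 1)} {p : Fin 3},
      Adj h i p j → clsW b i = .ring → PushS (tyW b) b (wpar b zs) zs y h) :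
    MainPartsS b zs :=
  mainPartsS_of hM hb H
    (fun y hy hpos => pushIn_of hb H hy hpos (ROpen.of hb H hy hpos)) hrin hq

end SR

end Pool.Agent.Work.MP_b30479_gtS.G2

end

section

/-!
# The parts of the argument on the main paths, rings included
-/

namespace Pool.Agent.Work.MP_b30479_gtS.G2

open Finset VOL Filter Topology

namespace SR

variable {M : ℕ} {b : Fin (M + 1) → ℤ} {zs : DD (tyW b) ⊕ ZZ (tyW b) → ℂ}

/-- **The parts of the argument on the main paths.** -/
theorem mainPartsS_all (hM : 1 ≤ M) (F : RFacts b zs) (H : LocA b zs) : MainPartsS b zs :=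
  mainPartsS_open hM F.H.hb H (fun _ hy I hh v => F.hrin H hy I hh v)
    fun _ hy I _ _ _ _ A hc => F.hq H hy I A hc

end SR

end Pool.Agent.Work.MP_b30479_gtS.G2

end
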