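import Pool.Agent.Work.MP_b30479_gt.TBS.G2.WLocF
import Pool.Agent.Work.MP_b30479_gt.TBS.G2.CN.TGoal
import Pool.Agent.Work.MP_b30479_gt.TBS.G2.CN.TUt
import Pool.Agent.Work.MP_b30479_gt.TBS.G2.CN.TDatc
import Pool.Agent.Work.MP_b30479_gt.TBS.G2.CN.TTabG
import Pool.Agent.Work.MP_b30479_gt.TBS.G2.CN.TLgK
import Pool.Agent.Work.MP_b30479_gt.TBS.G2.CN.LocRTd
import Pool.Agent.Work.MP_b30479_gt.TBS.G2.RKind
import Pool.Agent.Work.MP_b30479_gt.TBS.G2.RLvl3
import Pool.Agent.Work.MP_b30479_gt.TBS.G2.RPush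
import Pool.Agent.Work.MP_b30479_gt.TBS.G2.RLvl6
import Pool.Agent.Work.MP_b30479_gt.TBS.G2.RWl

section

/-!
# Windows of the rings with four crossings next to a digit `2` at an end

`rf4 k s`: the hinge to the digit `2`, by the class `k` at the other hinge (`s`: equal signs);
`rg4 k s`: the other hinge.
-/

namespace Pool.Agent.Work.MP_b30479_gtS.G2

namespace SR

/-- the hinge to the digit `2` -/
noncomputable def rf4 : Cl → Bool → R4
  | .two, _ => mk4 1715 1852 1771 1964 1437 1609 443 620 (-1072) (-928) 3752 3309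
  | .twoE, _ => mk4 1683 1803 1843 1963 1341 1461 341 461 (-1060) (-940) 3707 3366
  | .three, _ => mk4 1729 1857 1839 1998 1476 1619 494 642 (-1049) (-916) 3792 3298
  | .threeE, _ => mk4 1712 1832 1896 2016 1424 1544 449 569 (-1035) (-915) 3788 3339
  | .ring, false => mk4 1731 1886 1872 2031 1478 1702 513 735 (-1037) (-903) 3840 3327
  | .ring, true => mk4 1742 1886 1891 2118 1495 1702 561 735 (-1026) (-870) 3936 3375
  | _, _ => mk4 0 4000 0 2500 (-10000) 10000 (-10000) 10000 (-10000) 10000 6500 10000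

/-- the other hinge -/
noncomputable def rg4 : Cl → Bool → R4
  | .two, _ => mk4 1980 2462 1771 1964 745 1124 443 620 (-616) (-185) 4294 3851
  | .twoE, _ => mk4 1683 1803 1843 1963 1341 1461 341 461 (-1060) (-940) 3707 3366
  | .three, _ => mk4 1973 2239 1839 1998 617 866 494 642 (-308) (-35) 4138 3644
  | .threeE, _ => mk4 1773 1893 1896 2016 756 876 449 569 (-367) (-247) 3849 3400
  | .ring, false => mk4 1892 2291 1872 2031 386 739 513 735 (-157) 290 4242 3729
  | .ring, true => mk4 1774 2291 1891 2118 168 506 561 735 160 500 4242 3681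
  | _, _ => mk4 0 4000 0 2500 (-10000) 10000 (-10000) 10000 (-10000) 10000 6500 10000

variable {M : ℕ}

/-- **Windows of the rings with four crossings next to a digit `2` at an end.** Region `i` (ring),
`j` (digit `2` at an end), `k` (at the other hinge `h'` of `i`). -/
structure LocR2e (q r : Cl → Bool → R4) (b : Fin (M + 1) → ℤ)
    (zs : DD (tyW b) ⊕ ZZ (tyW b) → ℂ) : Prop where
  own : ∀ {h h' : Fin M} {i j k : Fin (M + 1)} {p : Fin 3} (v : ZZ (tyW b)), v.1 = i →
    Adj h i p j → Adj h' i p.rev k → clsW b i = .ring → (b i).natAbs = 4 → clsW b j = .twoE →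
    clsW b k ≠ .one →
    (q (clsW b k) (ssW b h')).In (ofr (b i) (zs (.inl (.inl h)))) (ofz (b i) (zs (.inr v)))
  par : ∀ {h h' : Fin M} {i j k : Fin (M + 1)} {p : Fin 3} (v : ZZ (tyW b)), v.1 = i →
    Adj h i p j → Adj h' i p.rev k → clsW b i = .ring → (b i).natAbs = 4 → clsW b j = .twoE →
    clsW b k ≠ .one →
    (r (clsW b k) (ssW b h')).In (ofr (b i) (zs (.inl (.inl h')))) (ofz (b i) (zs (.inr v)))

end SR

end Pool.Agent.Work.MP_b30479_gtS.G2

end

section

/-!
# Rings with four crossings next to a digit `2` at an end: conditions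
-/

namespace Pool.Agent.Work.MP_b30479_gtS.G2.CN.TD

open Complex SR

lemma lf_ringA_of {y z : ℂ} (h : (rf4 .ring false).In y z) : ∀ g ∈ lf_ringA, g.G y := by
  have a0 := h.x0
  have a1 := h.x1
  have a2 := h.t0
  have a3 := h.t1
  norm_num [rf4, mk4] at a0 a1 a2 a3
  exact li_box (by norm_num; linarith only [a0]) (by norm_num; linarith only [a1]) (by norm_num; linarith only [a1]) (by norm_num; linarith only [a2]) (by norm_num; linarith only [a3])

lemma lf_ringZ_of {y z : ℂ} (h : (rf4 .ring true).In y z) : ∀ g ∈ lf_ringZ, g.G y := by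
  have a0 := h.x0
  have a1 := h.x1
  have a2 := h.t0
  have a3 := h.t1
  norm_num [rf4, mk4] at a0 a1 a2 a3
  exact li_box (by norm_num; linarith only [a0]) (by norm_num; linarith only [a1]) (by norm_num; linarith only [a1]) (by norm_num; linarith only [a2]) (by norm_num; linarith only [a3])

lemma lf_three3_of {s : Bool} {y z : ℂ} (h : (rf4 .three s).In y z) : ∀ g ∈ lf_three3, g.G y := by
  have a0 := h.x0
  have a1 := h.x1
  have a2 := h.t0
  have a3 := h.t1
  norm_num [rf4, mk4] at a0 a1 a2 a3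
  exact li_box3 (by norm_num; linarith only [a0]) (by norm_num; linarith only [a1]) (by norm_num; linarith only [a2]) (by norm_num; linarith only [a3])

lemma lf_threeE_of {s : Bool} {y z : ℂ} (h : (rf4 .threeE s).In y z) : ∀ g ∈ lf_threeE, g.G y := by
  have a0 := h.x0
  have a1 := h.x1
  have a2 := h.t0
  have a3 := h.t1
  norm_num [rf4, mk4] at a0 a1 a2 a3
  exact li_box (by norm_num; linarith only [a0]) (by norm_num; linarith only [a1]) (by norm_num; linarith only [a1]) (by norm_num; linarith only [a2]) (by norm_num; linarith only [a3])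

lemma lf_two3_of {s : Bool} {y z : ℂ} (h : (rf4 .two s).In y z) : ∀ g ∈ lf_two3, g.G y := by
  have a0 := h.x0
  have a1 := h.x1
  have a2 := h.t0
  have a3 := h.t1
  norm_num [rf4, mk4] at a0 a1 a2 a3
  exact li_box3 (by norm_num; linarith only [a0]) (by norm_num; linarith only [a1]) (by norm_num; linarith only [a2]) (by norm_num; linarith only [a3])

lemma lf_twoE_of {s : Bool} {y z : ℂ} (h : (rf4 .twoE s).In y z) : ∀ g ∈ lf_twoE, g.G y := by
  have a0 := h.x0
  have a1 := h.x1
  have a2 := h.t0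
  have a3 := h.t1
  norm_num [rf4, mk4] at a0 a1 a2 a3
  exact li_box (by norm_num; linarith only [a0]) (by norm_num; linarith only [a1]) (by norm_num; linarith only [a1]) (by norm_num; linarith only [a2]) (by norm_num; linarith only [a3])

end Pool.Agent.Work.MP_b30479_gtS.G2.CN.TD

end

section

/-!
# Rings with four crossings next to a digit `2` at an end
-/

namespace Pool.Agent.Work.MP_b30479_gtS.G2.CN.TD

open Complex SR

noncomputable section

section
variable {K : KFam} (hK : KOK K) (Bx : BoxRows K) {l x : SK} {dl : ℕ} {ll : SK} {dr : ℕ} {rr : SK}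
  {w kl kr : ℂ}
include hK Bx

theorem f4o_two {s' : Bool} {s : Bool} (t : RDt K 4 l x dl ll dr rr w kl kr) (hC : Oh x dr rr .twoE s')
    (hk : Oh l dl ll .two s)
    (hl : (r4 false .two s).In (yH l (RR w kl) (Complex.cos w)) (zeta w))
    (rg : Rg (yH x (RR w kr) (Complex.cos w)) (zeta w)) :
    (rf4 .two s).In (yH x (RR w kr) (Complex.cos w)) (zeta w) := by
  have hN := t.right.ok.right.symm
  have hO := t.right.ok.left
  have hL := t.left.ok.right.symm
  obtain ⟨rfl, rfl, rfl⟩ := hC.twoE hN.zr t.right.ok.ne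
  obtain ⟨rfl, rfl, hle⟩ := hk.two hL.zr t.left.ok.ne
  cases ll
  · exact absurd rfl hle
  · exact b4c_of (tuseC hK Bx ld4 t f4_2_k2a mn mn mn
      (l4_two_of hl) (hK.inH hO k4aa_ok) (hK.inH hN k2ea_ok)
      (aOkH t rfl (kl_a t (hK.inH hL k2aa_ok))) (dOk hK t rfl OR.e)) rg
      (by norm_num) (by norm_num) (by norm_num) (by norm_num)
  · exact absurd (hL.zl rfl) (by norm_num)
  · exact b4c_of (tuseC hK Bx ld4 t f4_2_k2s mn mn mn
      (l4_two_of hl) (hK.inH hO k4aa_ok) (hK.inH hN k2ea_ok)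
      (aOkH t rfl (kl_a t (hK.inH hL k3as_ok))) (dOk hK t rfl OR.e)) rg
      (by norm_num) (by norm_num) (by norm_num) (by norm_num)

theorem f4p_two {s' : Bool} {s : Bool} (t : RDt K 4 l x dl ll dr rr w kl kr) (hC : Oh l dl ll .twoE s')
    (hk : Oh x dr rr .two s)
    (hl : (rf4 .two s).In (yH l (RR w kl) (Complex.cos w)) (zeta w))
    (rg : Rg (yH x (RR w kr) (Complex.cos w)) (zeta w)) :
    (rg4 .two s).In (yH x (RR w kr) (Complex.cos w)) (zeta w) := by
  have hN := t.right.ok.right.symm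
  have hO := t.right.ok.left
  have hL := t.left.ok.right.symm
  obtain ⟨rfl, rfl, rfl⟩ := hC.twoE hL.zr t.left.ok.ne
  obtain ⟨rfl, rfl, hre⟩ := hk.two hN.zr t.right.ok.ne
  cases rr
  · exact absurd rfl hre
  · exact b4c_of (tuseC hK Bx ld4 t g4_2_k2a mn mn mn
      (lf_two3_of hl) (hK.inH hO k4aa_ok) (hK.inH hN k2aa_ok)
      (aOkH t rfl (kl_a t (hK.inH hL k2ea_ok))) (dOk hK t rfl OR.a)) rg
      (by norm_num) (by norm_num) (by norm_num) (by norm_num)
  · exact absurd (hN.zl rfl) (by norm_num)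
  · exact b4c_of (tuseC hK Bx ld4 t g4_2_k2s mn mn mn
      (lf_two3_of hl) (hK.inH hO k4aa_ok) (hK.inH hN k3as_ok)
      (aOkH t rfl (kl_a t (hK.inH hL k2ea_ok))) (dOk hK t rfl OR.s)) rg
      (by norm_num) (by norm_num) (by norm_num) (by norm_num)

theorem f4o_twoE {s' : Bool} {s : Bool} (t : RDt K 4 l x dl ll dr rr w kl kr) (hC : Oh x dr rr .twoE s')
    (hk : Oh l dl ll .twoE s)
    (hl : (r4 false .twoE s).In (yH l (RR w kl) (Complex.cos w)) (zeta w))
    (rg : Rg (yH x (RR w kr) (Complex.cos w)) (zeta w)) :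
    (rf4 .twoE s).In (yH x (RR w kr) (Complex.cos w)) (zeta w) := by
  have hN := t.right.ok.right.symm
  have hO := t.right.ok.left
  have hL := t.left.ok.right.symm
  obtain ⟨rfl, rfl, rfl⟩ := hC.twoE hN.zr t.right.ok.ne
  obtain ⟨rfl, rfl, rfl⟩ := hk.twoE hL.zr t.left.ok.ne
  exact b4c_of (tuseC hK Bx ld4 t f4_2e_k2e mn mn mn
    (l4_twoE_of hl) (hK.inH hO k4aa_ok) (hK.inH hN k2ea_ok)
    (aOkH t rfl (kl_a t (hK.inH hL k2ea_ok))) (dOk hK t rfl OR.e)) rg
    (by norm_num) (by norm_num) (by norm_num) (by norm_num)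

theorem f4p_twoE {s' : Bool} {s : Bool} (t : RDt K 4 l x dl ll dr rr w kl kr) (hC : Oh l dl ll .twoE s')
    (hk : Oh x dr rr .twoE s)
    (hl : (rf4 .twoE s).In (yH l (RR w kl) (Complex.cos w)) (zeta w))
    (rg : Rg (yH x (RR w kr) (Complex.cos w)) (zeta w)) :
    (rg4 .twoE s).In (yH x (RR w kr) (Complex.cos w)) (zeta w) := by
  have hN := t.right.ok.right.symm
  have hO := t.right.ok.left
  have hL := t.left.ok.right.symm
  obtain ⟨rfl, rfl, rfl⟩ := hC.twoE hL.zr t.left.ok.ne
  obtain ⟨rfl, rfl, rfl⟩ := hk.twoE hN.zr t.right.ok.ne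
  exact b4c_of (tuseC hK Bx ld4 t g4_2e_k2e mn mn mn
    (lf_twoE_of hl) (hK.inH hO k4aa_ok) (hK.inH hN k2ea_ok)
    (aOkH t rfl (kl_a t (hK.inH hL k2ea_ok))) (dOk hK t rfl OR.e)) rg
    (by norm_num) (by norm_num) (by norm_num) (by norm_num)

theorem f4o_three {s' : Bool} {s : Bool} (t : RDt K 4 l x dl ll dr rr w kl kr) (hC : Oh x dr rr .twoE s')
    (hk : Oh l dl ll .three s)
    (hl : (r4 false .three s).In (yH l (RR w kl) (Complex.cos w)) (zeta w))
    (rg : Rg (yH x (RR w kr) (Complex.cos w)) (zeta w)) :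
    (rf4 .three s).In (yH x (RR w kr) (Complex.cos w)) (zeta w) := by
  have hN := t.right.ok.right.symm
  have hO := t.right.ok.left
  have hL := t.left.ok.right.symm
  obtain ⟨rfl, rfl, rfl⟩ := hC.twoE hN.zr t.right.ok.ne
  obtain ⟨rfl, rfl, hle⟩ := hk.three hL.zr t.left.ok.ne
  cases ll
  · exact absurd rfl hle
  · exact b4c_of (tuseC hK Bx ld4 t f4_3_k3a mn mn mn
      (l4_three_of hl) (hK.inH hO k4aa_ok) (hK.inH hN k2ea_ok)
      (aOkH t rfl (kl_a t (hK.inH hL k3aa_ok))) (dOk hK t rfl OR.e)) rg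
      (by norm_num) (by norm_num) (by norm_num) (by norm_num)
  · exact absurd (hL.zl rfl) (by norm_num)
  · exact b4c_of (tuseC hK Bx ld4 t f4_3_k3s mn mn mn
      (l4_three_of hl) (hK.inH hO k4aa_ok) (hK.inH hN k2ea_ok)
      (aOkH t rfl (kl_a t (hK.inH hL k4as_ok))) (dOk hK t rfl OR.e)) rg
      (by norm_num) (by norm_num) (by norm_num) (by norm_num)

theorem f4p_three {s' : Bool} {s : Bool} (t : RDt K 4 l x dl ll dr rr w kl kr) (hC : Oh l dl ll .twoE s')
    (hk : Oh x dr rr .three s)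
    (hl : (rf4 .three s).In (yH l (RR w kl) (Complex.cos w)) (zeta w))
    (rg : Rg (yH x (RR w kr) (Complex.cos w)) (zeta w)) :
    (rg4 .three s).In (yH x (RR w kr) (Complex.cos w)) (zeta w) := by
  have hN := t.right.ok.right.symm
  have hO := t.right.ok.left
  have hL := t.left.ok.right.symm
  obtain ⟨rfl, rfl, rfl⟩ := hC.twoE hL.zr t.left.ok.ne
  obtain ⟨rfl, rfl, hre⟩ := hk.three hN.zr t.right.ok.ne
  cases rr
  · exact absurd rfl hre
  · exact b4c_of (tuseC hK Bx ld4 t g4_3_k3a mn mn mn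
      (lf_three3_of hl) (hK.inH hO k4aa_ok) (hK.inH hN k3aa_ok)
      (aOkH t rfl (kl_a t (hK.inH hL k2ea_ok))) (dOk hK t rfl OR.a)) rg
      (by norm_num) (by norm_num) (by norm_num) (by norm_num)
  · exact absurd (hN.zl rfl) (by norm_num)
  · exact b4c_of (tuseC hK Bx ld4 t g4_3_k3s mn mn mn
      (lf_three3_of hl) (hK.inH hO k4aa_ok) (hK.inH hN k4as_ok)
      (aOkH t rfl (kl_a t (hK.inH hL k2ea_ok))) (dOk hK t rfl OR.s)) rg
      (by norm_num) (by norm_num) (by norm_num) (by norm_num)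

theorem f4o_threeE {s' : Bool} {s : Bool} (t : RDt K 4 l x dl ll dr rr w kl kr) (hC : Oh x dr rr .twoE s')
    (hk : Oh l dl ll .threeE s)
    (hl : (r4 false .threeE s).In (yH l (RR w kl) (Complex.cos w)) (zeta w))
    (rg : Rg (yH x (RR w kr) (Complex.cos w)) (zeta w)) :
    (rf4 .threeE s).In (yH x (RR w kr) (Complex.cos w)) (zeta w) := by
  have hN := t.right.ok.right.symm
  have hO := t.right.ok.left
  have hL := t.left.ok.right.symm
  obtain ⟨rfl, rfl, rfl⟩ := hC.twoE hN.zr t.right.ok.ne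
  obtain ⟨rfl, rfl, rfl⟩ := hk.threeE hL.zr t.left.ok.ne
  exact b4c_of (tuseC hK Bx ld4 t f4_3e_k3e mn mn mn
    (l4_threeE_of hl) (hK.inH hO k4aa_ok) (hK.inH hN k2ea_ok)
    (aOkH t rfl (kl_a t (hK.inH hL k3ea_ok))) (dOk hK t rfl OR.e)) rg
    (by norm_num) (by norm_num) (by norm_num) (by norm_num)

theorem f4p_threeE {s' : Bool} {s : Bool} (t : RDt K 4 l x dl ll dr rr w kl kr) (hC : Oh l dl ll .twoE s')
    (hk : Oh x dr rr .threeE s)
    (hl : (rf4 .threeE s).In (yH l (RR w kl) (Complex.cos w)) (zeta w))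
    (rg : Rg (yH x (RR w kr) (Complex.cos w)) (zeta w)) :
    (rg4 .threeE s).In (yH x (RR w kr) (Complex.cos w)) (zeta w) := by
  have hN := t.right.ok.right.symm
  have hO := t.right.ok.left
  have hL := t.left.ok.right.symm
  obtain ⟨rfl, rfl, rfl⟩ := hC.twoE hL.zr t.left.ok.ne
  obtain ⟨rfl, rfl, rfl⟩ := hk.threeE hN.zr t.right.ok.ne
  exact b4c_of (tuseC hK Bx ld4 t g4_3e_k3e mn mn mn
    (lf_threeE_of hl) (hK.inH hO k4aa_ok) (hK.inH hN k3ea_ok)
    (aOkH t rfl (kl_a t (hK.inH hL k2ea_ok))) (dOk hK t rfl OR.e)) rg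
    (by norm_num) (by norm_num) (by norm_num) (by norm_num)

theorem f4o_ringA {s' : Bool} (t : RDt K 4 l x dl ll dr rr w kl kr) (hC : Oh x dr rr .twoE s')
    (hk : Oh l dl ll .ring false)
    (hl : (r4 false .ring false).In (yH l (RR w kl) (Complex.cos w)) (zeta w))
    (rg : Rg (yH x (RR w kr) (Complex.cos w)) (zeta w)) :
    (rf4 .ring false).In (yH x (RR w kr) (Complex.cos w)) (zeta w) := by
  have hN := t.right.ok.right.symm
  have hO := t.right.ok.left
  have hL := t.left.ok.right.symm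
  obtain ⟨rfl, rfl, rfl⟩ := hC.twoE hN.zr t.right.ok.ne
  rcases hk.ring hL.pos t.left.ok.ne with ⟨rfl, -, hl4⟩ | ⟨-, h9, -⟩
  · exact b4c_of (tuseC hK Bx ld4 t f4_Z_kZ mn mn mn
      (l4_ringA_of hl) (hK.inH hO k4aa_ok) (hK.inH hN k2ea_ok)
      (aOkH t rfl (kl_a t (in_nZa hK hL hl4))) (dOk hK t rfl OR.e)) rg
      (by norm_num) (by norm_num) (by norm_num) (by norm_num)
  · exact absurd h9 (by decide)

theorem f4p_ringA {s' : Bool} (t : RDt K 4 l x dl ll dr rr w kl kr) (hC : Oh l dl ll .twoE s')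
    (hk : Oh x dr rr .ring false)
    (hl : (rf4 .ring false).In (yH l (RR w kl) (Complex.cos w)) (zeta w))
    (rg : Rg (yH x (RR w kr) (Complex.cos w)) (zeta w)) :
    (rg4 .ring false).In (yH x (RR w kr) (Complex.cos w)) (zeta w) := by
  have hN := t.right.ok.right.symm
  have hO := t.right.ok.left
  have hL := t.left.ok.right.symm
  obtain ⟨rfl, rfl, rfl⟩ := hC.twoE hL.zr t.left.ok.ne
  rcases hk.ring hN.pos t.right.ok.ne with ⟨rfl, -, hr4⟩ | ⟨-, h9, -⟩
  · exact b4c_of (tuseC hK Bx ld4 t g4_Z_kZ mn mn mn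
      (lf_ringA_of hl) (hK.inH hO k4aa_ok) (in_nZa hK hN hr4)
      (aOkH t rfl (kl_a t (hK.inH hL k2ea_ok))) AllOk.nil) rg
      (by norm_num) (by norm_num) (by norm_num) (by norm_num)
  · exact absurd h9 (by decide)

theorem f4o_ringZ {s' : Bool} (t : RDt K 4 l x dl ll dr rr w kl kr) (hC : Oh x dr rr .twoE s')
    (hk : Oh l dl ll .ring true)
    (hl : (r4 false .ring true).In (yH l (RR w kl) (Complex.cos w)) (zeta w))
    (rg : Rg (yH x (RR w kr) (Complex.cos w)) (zeta w)) :
    (rf4 .ring true).In (yH x (RR w kr) (Complex.cos w)) (zeta w) := by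
  have hN := t.right.ok.right.symm
  have hO := t.right.ok.left
  have hL := t.left.ok.right.symm
  obtain ⟨rfl, rfl, rfl⟩ := hC.twoE hN.zr t.right.ok.ne
  rcases hk.ring hL.pos t.left.ok.ne with ⟨-, h9, -⟩ | ⟨rfl, -, hl4⟩
  · exact absurd h9 (by decide)
  · exact b4c_of (tuseC hK Bx ld4 t f4_Zs_kz mn mn mn
      (l4_ringZ_of hl) (hK.inH hO k4az_ok) (hK.inH hN k2ea_ok)
      (aOkH t rfl (kl_z t (in_nZz hK hL))) (dOk hK t rfl OR.e)) rg
      (by norm_num) (by norm_num) (by norm_num) (by norm_num)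

theorem f4p_ringZ {s' : Bool} (t : RDt K 4 l x dl ll dr rr w kl kr) (hC : Oh l dl ll .twoE s')
    (hk : Oh x dr rr .ring true)
    (hl : (rf4 .ring true).In (yH l (RR w kl) (Complex.cos w)) (zeta w))
    (rg : Rg (yH x (RR w kr) (Complex.cos w)) (zeta w)) :
    (rg4 .ring true).In (yH x (RR w kr) (Complex.cos w)) (zeta w) := by
  have hN := t.right.ok.right.symm
  have hO := t.right.ok.left
  have hL := t.left.ok.right.symm
  obtain ⟨rfl, rfl, rfl⟩ := hC.twoE hL.zr t.left.ok.ne
  rcases hk.ring hN.pos t.right.ok.ne with ⟨-, h9, -⟩ | ⟨rfl, -, hr4⟩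
  · exact absurd h9 (by decide)
  · exact b4c_of (tuseC hK Bx ld4 t g4_Zs_kz mn mn mn
      (lf_ringZ_of hl) (hK.inH hO k4az_ok) (in_nZz hK hN)
      (aOkH t rfl (kl_a t (hK.inH hL k2ea_ok))) AllOk.nil) rg
      (by norm_num) (by norm_num) (by norm_num) (by norm_num)

theorem rf4_of {k : Cl} {s' s : Bool} (t : RDt K 4 l x dl ll dr rr w kl kr) (hC : Oh x dr rr .twoE s')
    (hk : Oh l dl ll k s) (hk1 : k ≠ .one)
    (hl : (r4 false k s).In (yH l (RR w kl) (Complex.cos w)) (zeta w))
    (rg : Rg (yH x (RR w kr) (Complex.cos w)) (zeta w)) :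
    (rf4 k s).In (yH x (RR w kr) (Complex.cos w)) (zeta w) := by
  cases k
  · exact absurd rfl hk1
  · exact f4o_two hK Bx t hC hk hl rg
  · exact f4o_twoE hK Bx t hC hk hl rg
  · exact f4o_three hK Bx t hC hk hl rg
  · exact f4o_threeE hK Bx t hC hk hl rg
  · cases s
    · exact f4o_ringA hK Bx t hC hk hl rg
    · exact f4o_ringZ hK Bx t hC hk hl rg

theorem rg4_of {k : Cl} {s' s : Bool} (t : RDt K 4 l x dl ll dr rr w kl kr) (hC : Oh l dl ll .twoE s')
    (hk : Oh x dr rr k s) (hk1 : k ≠ .one)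
    (hl : (rf4 k s).In (yH l (RR w kl) (Complex.cos w)) (zeta w))
    (rg : Rg (yH x (RR w kr) (Complex.cos w)) (zeta w)) :
    (rg4 k s).In (yH x (RR w kr) (Complex.cos w)) (zeta w) := by
  cases k
  · exact absurd rfl hk1
  · exact f4p_two hK Bx t hC hk hl rg
  · exact f4p_twoE hK Bx t hC hk hl rg
  · exact f4p_three hK Bx t hC hk hl rg
  · exact f4p_threeE hK Bx t hC hk hl rg
  · cases s
    · exact f4p_ringA hK Bx t hC hk hl rg
    · exact f4p_ringZ hK Bx t hC hk hl rg

end

section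
variable {M : ℕ} {b : Fin (M + 1) → ℤ} {w : ℕ → ℂ}
variable (hb : ClassW b) (F : RingFacts) (hw : Sol b w) (hM : 1 ≤ M) {K : KFam} (hK : KOK K)
  (hS : Snd K b w) (Bx : BoxRows K)
include hb F hw hM hK hS Bx

/-- **Windows of the rings with four crossings next to a digit `2` at an end.** -/
theorem locR2e_of : LocR2e rf4 rg4 b (zsW b w) := by
  have key : ∀ {h h' : Fin M} {i j k : Fin (M + 1)} {p : Fin 3} (v : ZZ (tyW b)), v.1 = i →
      Adj h i p j → Adj h' i p.rev k → clsW b i = .ring → (b i).natAbs = 4 →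
      clsW b j = .twoE → clsW b k ≠ .one →
      (rf4 (clsW b k) (ssW b h')).In (ofr (b i) (zsW b w (.inl (.inl h))))
        (ofz (b i) (zsW b w (.inr v))) ∧
      (rg4 (clsW b k) (ssW b h')).In (ofr (b i) (zsW b w (.inl (.inl h'))))
        (ofz (b i) (zsW b w (.inr v))) := by
    intro h h' i j k p v hv A A2 hi hni hj hk1
    have hL := loc_of_boxes hb F hw hM hS Bx
    have A' : Adj h i p.rev.rev j := by rwa [Fin.rev_rev]
    have hui : us b i.val = false := us_of_abs (by omega)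
    have hend : isEnd i = false := mid_of A.symm A2
    obtain ⟨l, x, dl, ll, dr, rr, kl, kr, hE, y1, y2, s1, s2⟩ := pair_sd hb F hw hS A2 A' hui
    rw [Fin.rev_rev] at s2
    have hbx := box_cls Bx hE.right (by omega) s2.cls
    have hbl := box_cls Bx hE.left (by omega) s1.cls
    have hC := oh_of A s2
    have hk := oh_of A2 s1
    rw [hj] at hC
    have he : SK.a = .e ↔ isEnd i = true :=
      ⟨fun h5 => absurd h5 (by decide), fun h5 => by rw [hend] at h5; exact absurd h5 (by decide)⟩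
    subst hv
    have z0 := zb_rg (by omega) (zb_of hL v he)
    have y0 := hb_rg hbx
    have y0' := hb_rg hbl
    have ez := ofz_own (b := b) (w := w) v
    have g4 := (locR4_of hb F hw hM hK hS Bx).four v rfl A2 hi (by omega)
    rw [hend, y1, ez] at g4
    rw [ez, y1, y2]
    rw [hni] at hE
    have q := rf4_of hK Bx hE hC hk hk1 g4 ⟨y0.1, y0.2, z0.1, z0.2⟩
    exact ⟨q, rg4_of hK Bx hE.symm hC hk hk1 q ⟨y0'.1, y0'.2, z0.1, z0.2⟩⟩
  constructor
  · intro h h' i j k p v hv A A2 hi hni hj hk1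
    exact (key v hv A A2 hi hni hj hk1).1
  · intro h h' i j k p v hv A A2 hi hni hj hk1
    exact (key v hv A A2 hi hni hj hk1).2

end

end

end Pool.Agent.Work.MP_b30479_gtS.G2.CN.TD

end

section

/-!
# The data of the hinges without exceptions
-/

namespace Pool.Agent.Work.MP_b30479_gtS.G2

open Real Set VOL Finset Filter Topology

namespace RC

open Row

section
variable {xs ys T ρ cl cp : ℝ}

/-- next to a ring or a digit `3` -/
theorem hd3 (g : GD xs ys cl cp) (hcl : 1 / 10 ≤ cl) (_ : cp ≤ 3 / 10) (x0 : 170 / 1000 ≤ xs)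
    (x1 : xs ≤ 252 / 1000) (s1 : 1 / 2 - ys ≤ 2445 / 10000)
    (c1 : xs + (1 / 2 - ys) ≤ 4465 / 10000) (_ : |T| ≤ 60 / 1000) (_ : |T + ρ| ≤ 1645 / 10000)
    (hq : |T - ρ| ≤ 1200 / 10000) (hq' : |T - ρ| ≤ 5900 / 10000 - 22 / 10 * (1 / 2 - ys)) :
    HD xs ys T ρ cl cp := by
  have y2 := g.y2
  have hf : H2 xs ys T ρ := H2_of cH3 g.xi g.yi (by norm_num; linarith only [x0]) (by norm_num; linarith only [x1])
    (by norm_num; linarith only [y2]) (by norm_num; linarith only [s1]) (by norm_num; linarith only [c1]) (by norm_num; linarith only [hq])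
    (by norm_num; linarith only [hq'])
  have hc0 := ta_lo g.cli (by norm_num) hcl t10_gt
  exact ⟨g, hf, by linarith only [hc0], shq200 (hq.trans (by norm_num))⟩

/-- next to a digit `2` inside -/
theorem hd2 (g : GD xs ys cl cp) (hcl : 1 / 8 ≤ cl) (_ : cp ≤ 3 / 10) (x0 : 186 / 1000 ≤ xs)
    (x1 : xs ≤ 252 / 1000) (s1 : 1 / 2 - ys ≤ 2225 / 10000)
    (c1 : xs + (1 / 2 - ys) ≤ 4495 / 10000) (hT : T ≤ 0) (_ : -(131 / 1000) ≤ T) (hρ : 0 ≤ ρ)
    (_ : T + ρ ≤ 131 / 1000) (hq : ρ - T ≤ 1400 / 10000)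
    (hq' : ρ - T ≤ 3980 / 10000 - 13 / 10 * (1 / 2 - ys)) :
    HD xs ys T ρ cl cp := by
  have y2 := g.y2
  have ea : |T - ρ| = ρ - T := by rw [abs_of_nonpos (by linarith only [hT, hρ])]; ring
  have hf : H2 xs ys T ρ := H2_of cH2 g.xi g.yi (by norm_num; linarith only [x0]) (by norm_num; linarith only [x1])
    (by norm_num; linarith only [y2]) (by norm_num; linarith only [s1]) (by norm_num; linarith only [c1])
    (by rw [ea]; norm_num; linarith only [hq]) (by rw [ea]; norm_num; linarith only [hq'])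
  have hc0 := ta_lo g.cli (by norm_num) hcl t125_gt
  exact ⟨g, hf, by linarith only [hc0], shq200 (by rw [ea]; linarith)⟩

/-- next to a digit `2` at the end -/
theorem hd2e (g : GD xs ys cl cp) (hcl : 1 / 8 ≤ cl) (_ : cp ≤ 3 / 10) (x0 : 164 / 1000 ≤ xs)
    (x1 : xs ≤ 186 / 1000) (s1 : 1 / 2 - ys ≤ 1885 / 10000)
    (c1 : xs + (1 / 2 - ys) ≤ 3740 / 10000) (hT : T ≤ 0) (_ : -(131 / 1000) ≤ T) (hρ : 0 ≤ ρ)
    (_ : T + ρ ≤ 131 / 1000) (hq : ρ - T ≤ 1680 / 10000)
    (hq' : ρ - T ≤ 3520 / 10000 - 105 / 100 * (1 / 2 - ys)) :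
    HD xs ys T ρ cl cp := by
  have y2 := g.y2
  have ea : |T - ρ| = ρ - T := by rw [abs_of_nonpos (by linarith only [hT, hρ])]; ring
  have hf : H2 xs ys T ρ := H2_of cH2e g.xi g.yi (by norm_num; linarith only [x0]) (by norm_num; linarith only [x1])
    (by norm_num; linarith only [y2]) (by norm_num; linarith only [s1]) (by norm_num; linarith only [c1])
    (by rw [ea]; norm_num; linarith only [hq]) (by rw [ea]; norm_num; linarith only [hq'])
  have hc0 := ta_lo g.cli (by norm_num) hcl t125_gt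
  exact ⟨g, hf, by linarith only [hc0], shq200 (by rw [ea]; linarith)⟩

end

end RC

namespace SR

variable {M : ℕ} {b : Fin (M + 1) → ℤ} {zs : DD (tyW b) ⊕ ZZ (tyW b) → ℂ}
variable {y : DD (tyW b) ⊕ ZZ (tyW b) → ℝ}
variable {h h' : Fin M} {i j j' : Fin (M + 1)} {p : Fin 3} {v : ZZ (tyW b)}

/-- **Data of the hinges `ring | ring`, `ring | 3`, `ring | 2`, `ring | 2` at an end.** -/
theorem Adj.hd_lo (A : Adj h i p j) (hb : ClassW b) (hL : Loc b zs)
    (hR : LocR b zs) (hG : LocRg b zs) (hc : clsW b i = .ring) (hv : v.1 = i)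
    (hj : clsW b j ≠ .one) (hE : clsW b j = .twoE → 5 ≤ (b i).natAbs)
    (hρ : (b i).natAbs = 4 → 4 / 1000 ≤ (zs (.inr v)).im) :
    RC.HD (zs (.inl (.inl h))).re (1 / 2 + ofs (b i) (zs (.inr v)).re)
      (ofs (b i) (zs (.inl (.inl h))).im) (zs (.inr v)).im (fcl (clsW b j)) (fcp (clsW b j)) := by
  have h4 := ring_four hb (tyW_of_ring hb hc)
  obtain ⟨b0, b1, hpos, b2⟩ := ring_box hL v
  have s0 : ofs (b i) (zs (.inr v)).re ≤ 0 := by
    rw [hv] at b1
    refine b1.trans ?_
    unfold zbox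
    split_ifs <;> norm_num
  have rr := (ring_cap hb hL v).1
  obtain ⟨x0, x1, t0, t1⟩ := A.box hb hL
  rw [hc] at x0 x1 t0 t1
  by_cases hj2 : clsW b j = .ring
  · -- ring
    have W := hG.three v hv A hc (Or.inr (Or.inr hj2))
    have Ws := W.s
    have Wq := W.q
    have Wqs := W.qs
    have Wc := W.c
    simp only [ofr_re, ofr_im, ofz_re, ofz_im] at Ws Wq Wqs Wc
    obtain ⟨T4, T5⟩ := hR.rr A hc hj2
    have hTr : ofs (b i) (zs (.inl (.inl h))).im - (zs (.inr v)).im ≤ 52 / 1000 := by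
      rcases h4.eq_or_lt with h5 | h5
      · have := hρ h5.symm
        linarith only [T4, this]
      · have := T5 h5
        linarith only [hpos, T4, this]
    have hlo : -(385 / 10000) ≤ ofs (b i) (zs (.inl (.inl h))).im := by
      refine le_trans ?_ t0
      rw [hj2]
      generalize ssW b h = e
      cases e <;> simp only [hbox] <;> norm_num
    have hx0 : 170 / 1000 ≤ (zs (.inl (.inl h))).re := by
      refine le_trans ?_ x0
      rw [hj2]
      generalize ssW b h = e
      cases e <;> simp only [hbox] <;> norm_num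
    have hx1 : (zs (.inl (.inl h))).re ≤ 252 / 1000 := by
      refine x1.trans ?_
      rw [hj2]
      generalize ssW b h = e
      cases e <;> simp only [hbox] <;> norm_num
    rw [hj2]
    simp only [fcl, fcp]
    refine RC.hd3 ⟨by norm_num, by norm_num, by linarith only [hpos, rr, hx0], by linarith only [hpos, rr, hx1], by linarith only [hpos, rr, Wc], by linarith only [hpos, rr, Ws],
      by linarith only [s0]⟩ (by norm_num) (by norm_num) hx0 hx1 (by linarith only [Ws]) (by linarith only [Wc])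
      (abs_le.2 ⟨by linarith only [hpos, Wq, hlo], by linarith only [hpos, rr, T4]⟩) (abs_le.2 ⟨by linarith only [hpos, rr, Wq], by linarith only [hpos, rr, T4]⟩)
      (abs_le.2 ⟨by linarith only [Wq], by linarith only [hpos, rr, T4]⟩) (abs_le.2 ⟨by linarith only [Wqs], by linarith only [hpos, Ws, T4, hTr]⟩)
  · have hop := A.opp hb (Or.inr hj2)
    rw [A.ss hop] at x0 x1 t0 t1
    generalize hC : clsW b j = C at *
    cases C
    · exact absurd rfl hj
    · have W := hG.two v hv A hc hC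
      have Ws := W.s
      have Wq := W.q
      have Wqs := W.qs
      have Wc := W.c
      simp only [ofr_re, ofr_im, ofz_re, ofz_im] at Ws Wq Wqs Wc
      simp only [hbox] at x0 x1 t0 t1
      simp only [fcl, fcp]
      exact RC.hd2 ⟨by norm_num, by norm_num, by linarith only [x0], by linarith only [x1], by linarith only [x1, Ws], by linarith only [Ws],
        by linarith only [s0]⟩ (by norm_num) (by norm_num) x0 x1 (by linarith only [Ws]) (by linarith only [Wc]) (by linarith only [hpos, rr, t1])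
        (by linarith only [hpos, t0, Wq]) hpos.le (by linarith only [hpos, rr, t1]) (by linarith only [Wq]) (by linarith only [Wqs])
    · have W := hG.twoE5 v hv A (hE rfl) hC
      have Ws := W.s
      have Wq := W.q
      have Wqs := W.qs
      have Wc := W.c
      have Wk := W.kap
      simp only [ofr_re, ofr_im, ofz_re, ofz_im] at Ws Wq Wqs Wc Wk
      simp only [hbox] at x0 x1 t0 t1
      simp only [fcl, fcp]
      exact RC.hd2e ⟨by norm_num, by norm_num, by linarith only [x0], by linarith only [x1], by linarith only [x1, Ws], by linarith only [Ws],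
        by linarith only [s0]⟩ (by norm_num) (by norm_num) x0 x1 (by linarith only [Ws]) (by linarith only [Wc]) (by linarith only [hpos, rr, t1])
        (by linarith only [t0]) hpos.le (by linarith only [hpos, rr, t1]) (by linarith only [Wq]) (by linarith only [Wqs])
    · have W := hG.three v hv A hc (Or.inl hC)
      have Ws := W.s
      have Wq := W.q
      have Wqs := W.qs
      have Wc := W.c
      simp only [ofr_re, ofr_im, ofz_re, ofz_im] at Ws Wq Wqs Wc
      simp only [hbox] at x0 x1 t0 t1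
      simp only [fcl, fcp]
      exact RC.hd3 ⟨by norm_num, by norm_num, by linarith only [x0], by linarith only [x1], by linarith only [x1, Ws], by linarith only [Ws],
        by linarith only [s0]⟩ (by norm_num) (by norm_num) (by linarith only [x0]) (by linarith only [x1]) (by linarith only [Ws])
        (by linarith only [Wc])
        (abs_le.2 ⟨by linarith only [hpos, t0, Wq], by linarith only [hpos, rr, t1]⟩) (abs_le.2 ⟨by linarith only [hpos, Wq], by linarith only [hpos, rr, t1]⟩)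
        (abs_le.2 ⟨by linarith only [Wq], by linarith only [hpos, rr, t1]⟩) (abs_le.2 ⟨by linarith only [Wqs], by linarith only [hpos, rr, t1, Ws]⟩)
    · have W := hG.three v hv A hc (Or.inr (Or.inl hC))
      have Ws := W.s
      have Wq := W.q
      have Wqs := W.qs
      have Wc := W.c
      simp only [ofr_re, ofr_im, ofz_re, ofz_im] at Ws Wq Wqs Wc
      simp only [hbox] at x0 x1 t0 t1
      simp only [fcl, fcp]
      exact RC.hd3 ⟨by norm_num, by norm_num, by linarith only [x0], by linarith only [x1], by linarith only [x1, Ws], by linarith only [Ws],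
        by linarith only [s0]⟩ (by norm_num) (by norm_num) (by linarith only [x0]) (by linarith only [x1]) (by linarith only [Ws])
        (by linarith only [x1, Ws])
        (abs_le.2 ⟨by linarith only [hpos, t0, Wq], by linarith only [hpos, rr, t1]⟩) (abs_le.2 ⟨by linarith only [hpos, Wq], by linarith only [hpos, rr, t1]⟩)
        (abs_le.2 ⟨by linarith only [Wq], by linarith only [hpos, rr, t1]⟩) (abs_le.2 ⟨by linarith only [Wqs], by linarith only [hpos, rr, t1, Ws]⟩)
    · exact absurd rfl hj2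

end SR

end Pool.Agent.Work.MP_b30479_gtS.G2

end

section

/-!
# Rings in a word: all facts about the location, data of the hinges
-/

namespace Pool.Agent.Work.MP_b30479_gtS.G2

open Finset VOL Filter Topology

namespace SR

variable {M : ℕ} {b : Fin (M + 1) → ℤ} {zs : DD (tyW b) ⊕ ZZ (tyW b) → ℂ}
variable {y : DD (tyW b) ⊕ ZZ (tyW b) → ℝ}
variable {h h' h2 h3 : Fin M} {i j k g g' : Fin (M + 1)} {p : Fin 3} {v : ZZ (tyW b)}

/-- all facts about the location of the saddle point at the rings -/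
structure RFacts (b : Fin (M + 1) → ℤ) (zs : DD (tyW b) ⊕ ZZ (tyW b) → ℂ) : Prop where
  H : RLoc b zs
  H4 : LocR4 b zs
  w4 : LocRw 4 rq4 rp4 re4 b zs
  w5 : LocRw 5 rq5 rp5 re5 b zs
  w6 : LocRw 6 rq6 rp6 re6 b zs
  k4 : LocRk 4 rk4 ka4 b zs
  k5 : LocRk 5 rk5 ka5 b zs
  h5 : LocRh 5 240 b zs
  d4 : LocR2 4 rw4 b zs
  d5 : LocR2 5 rw5 b zs
  c7 : LocRc 7 rc7 re7 b zs
  e7 : LocRd 7 rd7 b zs
  c8 : LocRc8 rc8 rd8 re8 b zs
  e2 : LocR2e rf4 rg4 b zs

/-- data of a hinge without exceptions -/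
theorem RLoc.lo (H : RLoc b zs) (A : Adj h i p j) (hc : clsW b i = .ring) (hv : v.1 = i)
    (hj : clsW b j ≠ .one) (hE : clsW b j = .twoE → 5 ≤ (b i).natAbs) :
    Lo (clsW b j) (zs (.inl (.inl h))).re (1 / 2 + ofs (b i) (zs (.inr v)).re)
      (ofs (b i) (zs (.inl (.inl h))).im) (zs (.inr v)).im := by
  obtain ⟨l, d⟩ := H.lv A hc hv hj hE
  exact ⟨A.hd_lo H.hb H.hL H.hR H.hG hc hv hj hE fun h4 => H.R4.rho v (by rw [hv]; exact h4), l, d⟩

/-- small height at the hinge of two rings -/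
theorem RLoc.kz (H : RLoc b zs) (A : Adj h i p j) (hc : clsW b i = .ring)
    (h5 : 5 ≤ (b i).natAbs) (hj : clsW b j = .ring) :
    |ofs (b i) (zs (.inl (.inl h))).im| ≤ 47 / 1000 := by
  have T5 := (H.hR.rr A hc hj).2 h5
  obtain ⟨-, -, t0, -⟩ := A.box H.hb H.hL
  rw [hc, hj] at t0
  have : -(385 / 10000) ≤ ofs (b i) (zs (.inl (.inl h))).im := by
    refine le_trans ?_ t0
    generalize ssW b h = e
    cases e <;> simp only [hbox] <;> norm_num
  rw [abs_le]
  constructor <;> linarith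

theorem RLoc.rg (H : RLoc b zs) (A : Adj h i p j) (hc : clsW b i = .ring)
    (h5 : 5 ≤ (b i).natAbs) (hj : clsW b j = .ring) :
    Rg (ssW b h) (zs (.inl (.inl h))).re (ofs (b i) (zs (.inl (.inl h))).im) := by
  have T5 := (H.hR.rr A hc hj).2 h5
  obtain ⟨x0, x1, t0, t1⟩ := A.box H.hb H.hL
  rw [hc, hj] at x0 x1 t0 t1
  generalize ssW b h = e at *
  cases e <;> simp only [hbox] at x0 x1 t0 t1 <;> refine ⟨?_, ?_, ?_, ?_⟩ <;> norm_num <;>
    linarith

/-- the class behind a digit `1` next to a ring -/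
theorem cls_behind (hb : ClassW b) (A : Adj h i p j) (A2 : Adj h2 j p g) (hc : clsW b i = .ring)
    (hj : clsW b j = .one) : clsW b g = .one ∨ clsW b g = .two ∨ clsW b g = .twoE := by
  have A2' : Adj h2 j p.rev.rev g := by rwa [Fin.rev_rev]
  rcases okp_of hb A.symm A2' hj with h0 | h0
  · rw [hc] at h0
    rcases h0 with h0 | h0 | h0 <;> exact absurd h0 (by decide)
  · exact h0

/-- `2 | 1 | 4 | k` -/
theorem RFacts.bd4 (F : RFacts b zs) (A : Adj h i p j) (A2 : Adj h2 j p g) (A' : Adj h' i p.rev k)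
    (hc : clsW b i = .ring) (hv : v.1 = i) (hj : clsW b j = .one) (hg : clsW b g = .two)
    (h4 : (b i).natAbs = 4) (he : isEnd i = false) :
    Bd4 (clsW b k) (ssW b h') (zs (.inl (.inl h))).re (1 / 2 + ofs (b i) (zs (.inr v)).re)
      (ofs (b i) (zs (.inl (.inl h))).im) (zs (.inr v)).im := by
  have A2' : Adj h2 j p.rev.rev g := by rwa [Fin.rev_rev]
  constructor
  · obtain ⟨-, x1, -, -⟩ := A.box F.H.hb F.H.hL
    rw [hc, hj] at x1
    simp only [hbox] at x1
    push_cast
    linarith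
  · obtain ⟨W, hW, hI⟩ := F.H.hG.one v hv A.symm A2' hj (Or.inl h4)
    rw [h4, he, hg] at hW
    have := hI.c
    simp only [ofr_re, ofz_re] at this
    have m1 : W.c1 / 10000 ≤ 4826 / 10000 := by
      simp only [rw1, List.mem_cons, List.not_mem_nil, or_false] at hW
      rcases hW with rfl | rfl | rfl | rfl <;> norm_num
    push_cast
    linarith
  · have := F.k4.kap v hv A A2 A' hc h4 hj hg
    simp only [ofr_re, ofr_im, ofz_im] at this
    exact this
  · intro _ _
    have := ((F.H.hG.kr v hv A.symm A2' hj h4 he).2 hg).1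
    push_cast
    linarith

/-- `2 | 1 | 5 | k` -/
theorem RFacts.bd5 (F : RFacts b zs) (A : Adj h i p j) (A2 : Adj h2 j p g) (A' : Adj h' i p.rev k)
    (hc : clsW b i = .ring) (hv : v.1 = i) (hj : clsW b j = .one) (hg : clsW b g = .two)
    (h5 : (b i).natAbs = 5) :
    Bd5 (clsW b k) (ssW b h') (zs (.inl (.inl h))).re (1 / 2 + ofs (b i) (zs (.inr v)).re)
      (ofs (b i) (zs (.inl (.inl h))).im) (zs (.inr v)).im := by
  constructor
  · have := F.k5.kap v hv A A2 A' hc h5 hj hg
    simp only [ofr_re, ofr_im, ofz_im] at this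
    exact this
  · intro _
    have := F.h5 v hv A A2 A' hc h5 hj
    simp only [ofz_im] at this
    exact this
  · intro hk hs
    have := (F.k5.own v hv A A2 A' hc h5 hj hg).adj A hv
    rw [hk, hs] at this
    exact this

end SR

end Pool.Agent.Work.MP_b30479_gtS.G2

end
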