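import Pool.Agent.Work.MP_b30479_gt.TBS.G2.SWDefs
import Pool.Agent.Work.MP_b30479_gt.TBS.LT.Rogers

/-!
# The complexified volume of a two-bridge link: the formula modulo `π² i`

Neumann's dilogarithm `RN` (the extended Rogers dilogarithm) on the Sakuma-Weeks triangulation, with
logarithms `P i`, `Q i l` of the values `p i`, `q i l` of the Markoff map.
-/

namespace Pool.Agent.Work.MP_b30479_gtS.G2

open Finset

/-- Neumann's function: `w0` is a logarithm of `z` plus a multiple of `π i`, `-w1` a logarithm of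
`1 - z` plus a multiple of `π i` (the formula makes sense for all `w0`, `w1`). -/
noncomputable def RN (z w0 w1 : ℂ) : ℂ :=
  LT.li2 z + (w0 * Complex.log (1 - z) + w1 * Complex.log z +
    Complex.log z * Complex.log (1 - z)) / 2 - Real.pi ^ 2 / 6

/-- Logarithms of the values of the Markoff map.  The first edge of the path is folded onto
`{p 0, q 0 1}`, the last one onto `{p, q (a - 1)}`; the logarithms of `q 0 1 = i p 0` and
`q (a - 1) = ± i p` are replaced by `P 0` and `P (M + 1)`. -/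
structure SWLog {M : ℕ} (a : Fin (M + 2) → ℕ) (p : Fin (M + 2) → ℂ) (q : Fin (M + 2) → ℕ → ℂ)
    (P : Fin (M + 2) → ℂ) (Q : Fin (M + 2) → ℕ → ℂ) : Prop where
  exp_p : ∀ i, Complex.exp (P i) = p i
  exp_q : ∀ i, ∀ l ∈ lays a i, Complex.exp (Q i l) = q i l
  turn : ∀ j : Fin (M + 1), P j.succ = Q j.castSucc (a j.castSucc) ∧ Q j.succ 0 = P j.castSucc ∧
    Q j.succ 1 = Q j.castSucc (a j.castSucc + 1)
  first : Q 0 1 = P 0
  last : Q (Fin.last (M + 1)) (a (Fin.last (M + 1)) - 1) = P (Fin.last (M + 1))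

/-- the logarithm `w0` of a layer -/
noncomputable def swW0 {M : ℕ} (P : Fin (M + 2) → ℂ) (Q : Fin (M + 2) → ℕ → ℂ) (i : Fin (M + 2))
    (l : ℕ) : ℂ := if Even (i : ℕ) then 2 * Q i l - 2 * P i else 2 * P i - 2 * Q i l

/-- the logarithm `w1` of a layer -/
noncomputable def swW1 {M : ℕ} (P : Fin (M + 2) → ℂ) (Q : Fin (M + 2) → ℕ → ℂ) (i : Fin (M + 2))
    (l : ℕ) : ℂ := (if Even (i : ℕ) then 2 * P i else 2 * Q i l) - Q i (l - 1) - Q i (l + 1)

/-- the constant -/
noncomputable def swK {M : ℕ} (a : Fin (M + 2) → ℕ) : ℝ :=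
  (if Even M then 1 / 2 else 1 / 3) - (∑ i : Fin (M + 2), (-1) ^ (i : ℕ) * (a i : ℝ)) / 6

/-- the complexified volume (modulo `π² i`): `-i` times the sum of the values of Neumann's function,
two tetrahedra for every layer, and a constant -/
noncomputable def swCV {M : ℕ} (a : Fin (M + 2) → ℕ) (p : Fin (M + 2) → ℂ)
    (q : Fin (M + 2) → ℕ → ℂ) (P : Fin (M + 2) → ℂ) (Q : Fin (M + 2) → ℕ → ℂ) : ℂ :=
  -(Complex.I * ∑ i, ∑ l ∈ lays a i, 2 * RN (swShape p q i l) (swW0 P Q i l) (swW1 P Q i l)) +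
    Real.pi ^ 2 * Complex.I * swK a

end Pool.Agent.Work.MP_b30479_gtS.G2
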