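import Pool.Agent.Work.MP_b30479_gt.TBS.G2.M3N
import Pool.Agent.Work.MP_b30479_gt.TBS.G2.M3P

section

/-!
# Interior 3-runs, level part: certificates of the determinants, a part
-/

set_option deprecated.oldSectionVars true

namespace Pool.Agent.Work.MP_b30479_gtS.G2

namespace M3

open NumIs (E V chk)

theorem c11_FP0p_RRLRRR :
    chk (esF s11 s11.hP 0 1) 54 (rgt (esF s11 s11.hP 0 1) (rgt (esF s11 s11.hP 0 1) (rgt (esF s11 s11.hP 0 1) (lft (esF s11 s11.hP 0 1) (rgt (esF s11 s11.hP 0 1) (rgt (esF s11 s11.hP 0 1) (boxS3 s11))))))) = true := by decide +kernel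

theorem c11_FP0p_RRRLL :
    chk (esF s11 s11.hP 0 1) 55 (lft (esF s11 s11.hP 0 1) (lft (esF s11 s11.hP 0 1) (rgt (esF s11 s11.hP 0 1) (rgt (esF s11 s11.hP 0 1) (rgt (esF s11 s11.hP 0 1) (boxS3 s11)))))) = true := by decide +kernel

theorem c11_F00m :
    okF s11 0 0 (-1) = true := by decide +kernel

theorem c11_FP0m :
    okF s11 s11.hP 0 (-1) = true := by decide +kernel

theorem c11_FP0p_L :
    chk (esF s11 s11.hP 0 1) 59 (lft (esF s11 s11.hP 0 1) (boxS3 s11)) = true := by decide +kernel

end M3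

end Pool.Agent.Work.MP_b30479_gtS.G2

end

section

/-!
# Interior 3-runs, level part: certificates of the determinants, a part
-/

set_option deprecated.oldSectionVars true

namespace Pool.Agent.Work.MP_b30479_gtS.G2

namespace M3

open NumIs (E V chk)

theorem c1n_GP0p_RRLLL :
    chk (esG s1n s1n.hP 0 1) 55 (lft (esG s1n s1n.hP 0 1) (lft (esG s1n s1n.hP 0 1) (lft (esG s1n s1n.hP 0 1) (rgt (esG s1n s1n.hP 0 1) (rgt (esG s1n s1n.hP 0 1) (boxS3 s1n)))))) = true := by decide +kernel

theorem c1n_FP0p_RL :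
    chk (esF s1n s1n.hP 0 1) 58 (lft (esF s1n s1n.hP 0 1) (rgt (esF s1n s1n.hP 0 1) (boxS3 s1n))) = true := by decide +kernel

theorem c1n_FPRp :
    okF s1n s1n.hP s1n.hR 1 = true := by decide +kernel

theorem c1n_GP0p_L :
    chk (esG s1n s1n.hP 0 1) 59 (lft (esG s1n s1n.hP 0 1) (boxS3 s1n)) = true := by decide +kernel

end M3

end Pool.Agent.Work.MP_b30479_gtS.G2

end

section

/-!
# Interior 3-runs, level part: certificates of the determinants, a part
-/

set_option deprecated.oldSectionVars true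

namespace Pool.Agent.Work.MP_b30479_gtS.G2

namespace M3

open NumIs (E V chk)

theorem cn1_FPRp_R :
    chk (esF sn1 sn1.hP sn1.hR 1) 59 (rgt (esF sn1 sn1.hP sn1.hR 1) (boxS3 sn1)) = true := by decide +kernel

theorem cn1_GP0p_R :
    chk (esG sn1 sn1.hP 0 1) 59 (rgt (esG sn1 sn1.hP 0 1) (boxS3 sn1)) = true := by decide +kernel

theorem cn1_F00m :
    okF sn1 0 0 (-1) = true := by decide +kernel

end M3

end Pool.Agent.Work.MP_b30479_gtS.G2

end

section

/-!
# Interior 3-runs, level part: certificates of the determinants, a part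
-/

set_option deprecated.oldSectionVars true

namespace Pool.Agent.Work.MP_b30479_gtS.G2

namespace M3

open NumIs (E V chk)

theorem cnn_FPRp :
    okF snn snn.hP snn.hR 1 = true := by decide +kernel

theorem cnn_FPRm :
    okF snn snn.hP snn.hR (-1) = true := by decide +kernel

theorem cnn_F0Rm :
    okF snn 0 snn.hR (-1) = true := by decide +kernel

end M3

end Pool.Agent.Work.MP_b30479_gtS.G2

end
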