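import Pool.Agent.Work.MP_b30479_gt.TBS.NumU.GenD
import Pool.Agent.Work.MP_b30479_gt.TBS.NumU.GenC

section

/-!
# Mirrored paths, kind `1 | 2`: expressions of the rows

Hinge between a digit `1` (the lower side) and a digit `2`: it is at `x` on its mirrored path (ramp
`80/100, 16/100, 29/100`, height `16/100`), the target is `c + i e`.  The gains of both sides are
separated by the functions `al1`, ..., `al4` of `x` and of the height `T` of the main path.
-/

namespace Pool.Agent.Work.NumGs

open MP_b30479_gtS.G2
open NumUs (uu uu_neg UU_uu)

namespace K12

/-! ### expressions -/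

def X : E := .var 0
def T : E := .var 1
def Y : E := .var 2
def S : E := .var 3

/-- height of the mirrored path at `x` -/
def ax : E := .mul (E.c 1600) (E.tr 800 160 290 X)

/-- functions between the two sides -/
def al (y0 : ℤ) (l : List (ℤ × ℤ × ℕ)) (q : ℤ) : E := .sub (E.pl X y0 l) (.mul (.q q 10) T)

def al1 : E := al (-244) [(0, 9, 10), (10, -17, 20), (30, -11, 20), (40, -3, 5), (50, -2, 5),
  (60, -11, 20), (80, -9, 20)] 21
def al2 : E := al (-425) [(100, -59, 20), (120, -9, 20), (140, -1, 4), (160, 113, 40),
  (200, -39, 200), (250, -13, 50), (300, -8, 25), (400, -2, 25), (500, 9, 50), (510, 3, 1)] 22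
def al3 : E := al (-951) [(550, 6, 5), (600, 23, 50), (650, 12, 25), (700, 47, 200)] 24
def al4 : E := al (-434) [(740, 73, 30)] 25

/-- side of the `1`: hinge moved from `x - i a` to `c + i e`, other hinge at `y + i s` -/
def gA (c e al s : E) : E :=
  .sub (.add (.sub (.uw (.add c Y) (.add e s)) (.uw (.add X Y) (.sub s ax)))
    (.mul .pi (.add (.mul (.sub c X) s) (.mul (.sub Y (.q 1 1)) (.add e ax))))) al

/-- the same, for large heights -/
def gX (c e al s : E) : E :=
  .sub (.add (.sub (.ux (.add c Y) (.add e s)) (.ux (.add X Y) (.sub s ax)))
    (.mul .pi (.add (.mul (.sub c X) s) (.mul (.sub Y (.q 1 1)) (.add e ax))))) al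

/-- side of the `2`: hinge moved from `x + i a` to `c - i e`, other hinge kept at `y + i s` -/
def gB (c e al s : E) : E :=
  .add (.add (.sub (.uw (.add c Y) (.sub s e)) (.uw (.add X Y) (.add s ax)))
      (.mul (.q 3 1) (.sub (.uw X ax) (.uw c e))))
    (.add (.mul .pi (.add (.add (.mul (.sub c Y) (.add e s)) (.mul (.sub X Y) (.sub ax s)))
      (.add (.mul (.q 1 2) (.add e ax)) (.mul (.q 2 1) ax)))) al)

/-- side of the `2`: the other hinge moved from `y + i s` to `d - i f`, gain `ph` behind it -/
def gR (c e al s d f ph : E) : E :=
  .add (.add (.add (.sub (.uw (.add c d) (.add e f)) (.uw (.add X Y) (.add ax s)))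
      (.mul (.q 3 1) (.sub (.uw X ax) (.uw c e)))) (.mul (.q 2 1) (.sub (.uw Y s) (.uw d f))))
    (.add (.mul .pi (.add (.add (.mul (.sub c d) (.sub e f)) (.mul (.sub X Y) (.sub ax s)))
      (.add (.mul (.q 1 2) (.add (.add e f) (.add ax s))) (.mul (.q 2 1) ax)))) (.add ph al))

/-- positions of the other hinges -/
def sUp : E := .mul S (E.tr 860 150 200 Y)
def sDn : E := .neg (.mul S (E.tr 860 130 200 Y))
def s3a : E := .neg (.mul (.q 1 2) (E.tr 650 130 150 Y))
def hUp : E := .mul S (E.tr 700 140 350 Y)
def bUp : E := .mul S (E.tr 600 125 300 Y)
def bDn : E := .neg (.mul S (E.tr 600 100 270 Y))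
def b3a : E := .neg (.mul (.q 3 10) (E.tr 600 120 270 Y))
def tY : E := E.tr 800 160 290 Y
def tX : E := E.tr 800 160 290 X
def wM : E := .neg (.mul S tY)
def wU : E := .mul (E.c 1600) tY
def wD : E := .neg (.mul (E.c 1600) tY)

/-- lower bounds for the gain behind the other hinge of the `2` at `y`, height `t` of its main path at
the other `1`: main path, moved to `7/20`; mirrored path, moved to `1/4` or `7/20` -/
def phM (y t : E) : E := .sub (.sub (.q (-215) 1000) (.mul (.q 37 100) (.sub y (.q 65 100))))
  (.mul t (.add (.q 113 100) (.mul (.q 91 10) (.sub y (.q 65 100)))))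
def phM0 (y : E) : E := .sub (.q (-215) 1000) (.mul (.q 37 100) (.sub y (.q 65 100)))
def phU (y t : E) : E := .sub (E.pl y (-280) [(0, 4, 1), (50, -1, 5), (100, -4, 5), (150, -14, 5),
  (200, -5, 4)]) (.mul (.q 16 10) t)
def phV (y t : E) : E := .sub (.sub (.q (-12) 100) (.mul (.q 75 100) (.sub y (.q 6 10))))
  (.mul (.q 24 10) t)
def phD (y : E) : E := .sub (.q 100 1000) (.mul (.q 28 10) (.sub y (.q 65 100)))

/-- behind the other hinge: hinge moved from `x + i t` to `d + i f`, penalty `p`, next hinge at
`y + i s` -/
def gF (d f t p ph s : E) : E :=
  .sub (.add (.sub (.sub (.uw (.add d Y) (.add f s)) (.uw d f)) (.sub (.uw (.add X Y) (.add t s))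
    (.uw X t))) (.mul .pi (.add (.add (.mul (.sub d X) s) (.mul (.sub Y (.q 1 1)) (.sub f t)))
    (.mul (.q 2 1) p)))) ph
def gFX (d f t p ph s : E) : E :=
  .sub (.add (.sub (.sub (.ux (.add d Y) (.add f s)) (.uw d f)) (.sub (.ux (.add X Y) (.add t s))
    (.uw X t))) (.mul .pi (.add (.add (.mul (.sub d X) s) (.mul (.sub Y (.q 1 1)) (.sub f t)))
    (.mul (.q 2 1) p)))) ph

/-- targets and their heights -/
def e1 : E := .mul (.q 3 4) T
def c12 : E := E.c 1200
def c20 : E := E.c 2000
def c25 : E := E.c 2500
def c35 : E := E.c 3500
def c50 : E := E.c 5000
def z0 : E := .q 0 1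
def uX : E := .neg ax
def mX : E := .mul T tX

/-! ### values -/

/-- ramp function -/
noncomputable def tR (XM : ℤ) (cl cr : ℕ) (x : ℝ) : ℝ :=
  MP_b30479_gtS.G2.tr 0 ((XM : ℝ) / 1000) ((cl : ℝ) / 1000) ((cr : ℝ) / 1000) x

/-- height of the mirrored path -/
noncomputable def aR (x : ℝ) : ℝ := ((1600 : ℤ) : ℝ) / ((10000 : ℕ) : ℝ) * tR 800 160 290 x

noncomputable def RA (c e al s x y : ℝ) : ℝ :=
  uu (c + y) (e + s) - uu (x + y) (s - aR x) +
    Real.pi * ((c - x) * s + (y - 1) * (e + aR x)) - al

noncomputable def RB (c e al s x y : ℝ) : ℝ :=
  uu (c + y) (s - e) - uu (x + y) (s + aR x) + 3 * (uu x (aR x) - uu c e) +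
    (Real.pi * ((c - y) * (e + s) + (x - y) * (aR x - s) + (1 / 2 * (e + aR x) + 2 * aR x)) + al)

noncomputable def RR (c e al s d f ph x y : ℝ) : ℝ :=
  uu (c + d) (e + f) - uu (x + y) (aR x + s) + 3 * (uu x (aR x) - uu c e) +
    2 * (uu y s - uu d f) + (Real.pi * ((c - d) * (e - f) + (x - y) * (aR x - s) +
      (1 / 2 * (e + f + (aR x + s)) + 2 * aR x)) + (ph + al))

noncomputable def RF (d f t p ph s x y : ℝ) : ℝ :=
  uu (d + y) (f + s) - uu d f - (uu (x + y) (t + s) - uu x t) +
    Real.pi * ((d - x) * s + (y - 1) * (f - t) + 2 * p) - ph

variable {x t y u : ℝ}

theorem ax_val (l : List ℝ) : ax.val (x :: l) = aR x := by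
  unfold ax aR tR
  simp only [E.c, E.val, X, E.tr_val (XM := 800) (cl := 160) (cr := 290) (by norm_num) (by norm_num)
    (by norm_num), NumIs.lkR]

theorem gA_val (c e al s : E) : (gA c e al s).val [x, t, y, u] =
    RA (c.val [x, t, y, u]) (e.val [x, t, y, u]) (al.val [x, t, y, u]) (s.val [x, t, y, u]) x y := by
  unfold RA
  simp only [gA, E.val, ax_val, X, Y, NumIs.lkR]
  norm_num

theorem gX_val (c e al s : E) : (gX c e al s).val [x, t, y, u] =
    RA (c.val [x, t, y, u]) (e.val [x, t, y, u]) (al.val [x, t, y, u]) (s.val [x, t, y, u]) x y := by
  unfold RA
  simp only [gX, E.val, ax_val, X, Y, NumIs.lkR]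
  norm_num

theorem gB_val (c e al s : E) : (gB c e al s).val [x, t, y, u] =
    RB (c.val [x, t, y, u]) (e.val [x, t, y, u]) (al.val [x, t, y, u]) (s.val [x, t, y, u]) x y := by
  unfold RB
  simp only [gB, E.val, ax_val, X, Y, NumIs.lkR]
  norm_num

theorem gR_val (c e al s d f ph : E) : (gR c e al s d f ph).val [x, t, y, u] =
    RR (c.val [x, t, y, u]) (e.val [x, t, y, u]) (al.val [x, t, y, u]) (s.val [x, t, y, u])
      (d.val [x, t, y, u]) (f.val [x, t, y, u]) (ph.val [x, t, y, u]) x y := by
  unfold RR
  simp only [gR, E.val, ax_val, X, Y, NumIs.lkR]
  norm_num

theorem gF_val (d f w p ph s : E) : (gF d f w p ph s).val [x, t, y, u] =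
    RF (d.val [x, t, y, u]) (f.val [x, t, y, u]) (w.val [x, t, y, u]) (p.val [x, t, y, u])
      (ph.val [x, t, y, u]) (s.val [x, t, y, u]) x y := by
  unfold RF
  simp only [gF, E.val, X, Y, NumIs.lkR]
  norm_num

theorem gFX_val (d f w p ph s : E) : (gFX d f w p ph s).val [x, t, y, u] =
    RF (d.val [x, t, y, u]) (f.val [x, t, y, u]) (w.val [x, t, y, u]) (p.val [x, t, y, u])
      (ph.val [x, t, y, u]) (s.val [x, t, y, u]) x y := by
  unfold RF
  simp only [gFX, E.val, X, Y, NumIs.lkR]
  norm_num

end K12

end Pool.Agent.Work.NumGs

end

section

/-!
# Rows: kind `1 | 2`, side of the `1`, first zones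
-/

set_option deprecated.oldSectionVars true

namespace Pool.Agent.Work.NumGs

namespace K12

theorem a1u : chkF [gA c12 e1 al1 sUp] 10000 0 0 0 0 40 0 1000 0 800 0 8600 0 1600 7933827447553490243627204014634372918819909308425160352289119170141473382317494774376590888133582748805806792437834344681387623469874134396867380259567228647912832658554604813065205599533394759930222902055884695383060350509132783915195343546091876843749147443458 = true := by
  decide +kernel

theorem a1d : chkF [gA c12 e1 al1 sDn] 10000 0 0 0 0 40 0 1000 0 800 0 8600 0 1600 410169265497332506788190601115811610157718427876393975951122279370304756165550287320456328463169914005454950316383716288320428457192347651843811965902665930554406256210869973025411804213320766704704882906555398614945705319159533605519618 = true := by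
  decide +kernel

theorem a1t : chkF [gX c12 e1 al1 s3a] 10000 0 0 0 0 40 0 1000 0 770 0 6500 0 0 40664121096944962208755250463793905241182959028347325427432343446322379626205117303337298860547619503169386354921439490 = true := by
  decide +kernel

theorem a1h : chkF [gA c12 e1 al1 hUp] 10000 0 0 0 1600 40 0 1000 800 985 0 7000 0 2200 25035503274235740624902585973247914381952683875587717093132013344665829275932413018567041683223086883508100920975392883009113271413226334127415288172021120580816714902297213992393040658094712152471559021864914388483643535019567251714 = true := by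
  decide +kernel

theorem a2u : chkF [gA c20 T al2 sUp] 10000 0 0 0 0 40 1000 5500 0 800 0 8600 0 1600 683774350000951674715222930316295543768952836773812351110684987132584579627073046263224606672879188076666623790006009949975729759161007165996594611889775609410108430537022915657527731953874771932994821023221159173147224540364541564777589414967558372632441628443510524404122305116733475231625075338912396395670804695630198943077636970989465587083620726437005824357527697755855441222535671190557596002336859128374418413573276247861437271105003725029014321168137590152053657731074 = true := by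
  decide +kernel

theorem a2d : chkF [gA c20 T al2 sDn] 10000 0 0 0 0 40 1000 5500 0 800 0 8600 0 1600 586719920050152332314046004065514423899946933116294088696728382748318258877389399899705842850096102308151597473653591802841631482884669433181623621680903145496339411998013241976928936242452019531735700281149934827021171087838356833348993350386416660653201878890385670017194566438901347156545609169177648987066988225621133328733435403071275323948048407539642446867153686433831030990220382851289885502314098315112191432762679727944869014989711005242091696603108835922642286004810962573338960891700321917336946143994651451546684832270926926754373291081099026452895843262213118878330173679947349904584372627332760008857978475464005550082 = true := by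
  decide +kernel

theorem a2t : chkF [gX c20 T al2 s3a] 10000 0 0 0 0 40 1000 5500 0 770 0 6500 0 0 178837280221669539251924912888397046695510435122759372554318725382564107404636104498301178484625199624402950855903830108362097295618 = true := by
  decide +kernel

theorem a2h : chkF [gA c20 T al2 hUp] 10000 0 0 0 1600 40 1000 5500 800 985 0 7000 0 2200 2129816818491037899617052061948979060710801467126332058331618169744016104426018969399844644054468825810835139226353561015280830223462543011877651293185440510427000137189734235860118162559589817398802481710185793921239169778091969380716546606293079939482151463591673364482 = true := by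
  decide +kernel

end K12

end Pool.Agent.Work.NumGs

end

section

/-!
# Rows: kind `1 | 2`, side of the `1`, last zones
-/

set_option deprecated.oldSectionVars true

namespace Pool.Agent.Work.NumGs

namespace K12

theorem a3u : chkF [gA c35 T al3 sUp] 10000 0 0 0 0 40 5500 7400 0 800 0 8600 0 1600 347442620505726092709404857870068103636289282982640730748734135138757749400040666445590018132103335003691401945856825314577209666054845387631604399514193511705029245273427644985546932186780333875148571784545461895426 = true := by
  decide +kernel

theorem a3d : chkF [gA c35 T al3 sDn] 10000 0 0 0 0 40 5500 7400 0 800 0 8600 0 1600 211146556209691823463384073752580585347320954333281891039755632917629540374657388543039969519404772819985538801992542148496546220868308971158397794681090 = true := by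
  decide +kernel

theorem a3t : chkF [gX c35 T al3 s3a] 10000 0 0 0 0 40 5500 7400 0 770 0 6500 0 0 92057519908497787491624086406534656108328386818 = true := by
  decide +kernel

theorem a3h : chkF [gA c35 T al3 hUp] 10000 0 0 0 1600 40 5500 7400 800 985 0 7000 0 2200 15214707431167978713747625399110326994061924427859996044073452586109063122685767132281259901488334067690250482921691058335551291553996472557854885476375200775785366421762 = true := by
  decide +kernel

theorem a4u : chkF [gA c50 T al4 sUp] 10000 0 0 0 0 40 7400 7800 0 800 0 8600 0 1600 294295346848723096552425417982576858824046733089875200028191716479115116235802480865323294499227672157937221444975202654689205757286530517532510479342823983095596150054913705265150359246999683330 = true := by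
  decide +kernel

theorem a4d : chkF [gA c50 T al4 sDn] 10000 0 0 0 0 40 7400 7800 0 800 0 8600 0 1600 249274110986831499620602085445463617840407837485143023303066674469645770846293885612059897807571538313101420258615035055639268704238262854130314677229320820035462465834746114 = true := by
  decide +kernel

theorem a4t : chkF [gX c50 T al4 s3a] 10000 0 0 0 0 40 7400 7800 0 770 0 6500 0 0 5618830182193754513550032320729078732718338 = true := by
  decide +kernel

theorem a4h : chkF [gA c50 T al4 hUp] 10000 0 0 0 1600 40 7400 7800 800 985 0 7000 0 2200 7831861049894576397648866832284101939104258093017084480825348589280579786781166174466 = true := by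
  decide +kernel

theorem a5u1 : chkF [gA c50 T al4 sUp] 10000 0 0 0 0 40 7800 8000 0 800 0 4000 0 1600 294286470912493951759194291173406452261717036034433636153799983831137931237257142120669662686640438905487824404113550426063456715388897321652607248250594508482179682644177631927798257729130234114 = true := by
  decide +kernel

theorem a5u2 : chkF [gA c50 T al4 sUp] 10000 0 0 0 0 40 7800 8000 0 800 7800 8600 0 1600 1277612758194946736875315970434 = true := by
  decide +kernel

theorem a5u3 : chkF [gA c50 T al4 sUp] 10000 0 0 0 0 40 7800 8000 0 800 4000 7800 0 300 17730170290690 = true := by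
  decide +kernel

theorem a5d : chkF [gA c50 T al4 sDn] 10000 0 0 0 0 40 7800 8000 0 800 0 8600 0 1600 25035503274598604356655577101711319509081346796651335577510802865181970403787400441616792424165702019950494902318695122410867687042519436880003134120487705037667257870665394397936247669975187338862921768297710017964533787788870451458 = true := by
  decide +kernel

theorem a5t : chkF [gX c50 T al4 s3a] 10000 0 0 0 0 40 7800 8000 0 770 0 6500 0 0 5618830182193754513550032320729078732718338 = true := by
  decide +kernel

theorem a5h : chkF [gA c50 T al4 hUp] 10000 0 0 0 1600 40 7800 8000 800 985 0 7000 0 2200 478018862908604516458060719743902706244156377747624785206926331042226085143019778 = true := by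
  decide +kernel

end K12

end Pool.Agent.Work.NumGs

end

section

/-!
# Rows: kind `1 | 2`, side of the `2`, another `1` behind it, second zone
-/

set_option deprecated.oldSectionVars true

namespace Pool.Agent.Work.NumGs

namespace K12

theorem r2m1 : chkF [gB c20 T al2 wM] 10000 0 0 0 180 40 1000 5500 0 985 0 6000 0 1165 153460218134847144007923325274462131695149459904986003257119973428101128528421467205475824710793219953394434890817674287151666372368381302898307677652386717091406981400054071479504504445102509937200071673547945744993857141278617184446188058688152602423412235468080349729690708311059496962 = true := by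
  decide +kernel

theorem r2m2 : chkF [gB c20 T al2 wM, gR c20 T al2 wM c35 S (phM Y S)] 10000 0 0 0 0 40 1000 5500 0 985 6000 8000 0 985 1175885499925882164181662802904850540544162172749247965744896734147285814741584588114997095002892881220234250861445875144187686258266241460103584881327647192005814596341824214753381425115838554534646797112940566677163259851875478753655651272617289051032955810871863288340334528961266083434632492788777005798401033638032540244305074518130458624 = true := by
  decide +kernel

theorem r2m3 : chkF [gB c20 T al2 wM, gR c20 T al2 wM c35 S (phM0 Y)] 10000 0 0 0 180 40 1000 5500 0 985 6000 8000 0 180 367855861215698573338761753426304647866003612078958549633649253516191681717082296687088718087172159781219571402526078014020065416111881323581466866768188757035476497734768056447319882686147854336 = true := by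
  decide +kernel

theorem r2u0 : chkF [gB c20 T al2 wU] 10000 0 0 0 0 40 1000 5500 0 985 0 400 0 0 1082195968 = true := by
  decide +kernel

theorem r2u1 : chkF [gB c20 T al2 wU, gR c20 T al2 wU c25 S (phU Y S)] 10000 0 0 0 0 40 1000 5500 0 985 400 6000 0 985 9789234611173697768159004040498424768998058992719954700560086602347227507115465670658 = true := by
  decide +kernel

theorem r2u2 : chkF [gB c20 T al2 wU, gR c20 T al2 wU c35 S (phV Y S)] 10000 0 0 0 0 40 1000 5500 0 985 6000 8000 0 985 13644532229877491762754793974129590140484988984707177811526361001665869473687580902883357954799279273590631375293863209287581696 = true := by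
  decide +kernel

theorem r2d1 : chkF [gB c20 T al2 wD] 10000 0 0 0 0 40 1000 5500 0 985 0 6500 0 0 4084167885778160194743482461004422337706928684836080591520796048633886876000204074812545350318229454345806187422363395344418504765341668065796212924371953220579955905279614287874 = true := by
  decide +kernel

theorem r2d2 : chkF [gB c20 T al2 wD, gR c20 T al2 wD c25 S (phD Y)] 10000 0 0 0 180 40 1000 5500 0 985 6500 8000 0 180 981667872274932490392915775935724577617255893415585120598027332684606336576293845380724421722216511126520162711404165033986933878908730833141760 = true := by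
  decide +kernel

end K12

end Pool.Agent.Work.NumGs

end
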