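import Pool.Agent.Work.MP_b30479_gt.TBS.G2.MJA

section

/-!
# Mirrored paths, kind `1 | 2`: the gains of the regions
-/

namespace Pool.Agent.Work.NumGs

open MP_b30479_gtS.G2
open NumUs (uu uu_neg UU_uu)

namespace K12

/-- gain of the digit `1` -/
theorem V1_A (c e al s x y : ℝ) : V1 ⟨c, e⟩ ⟨y, s⟩ - V1 ⟨x, -aR x⟩ ⟨y, s⟩ =
    RA c e al s x y + al + (uu x (aR x) - uu c e) := by
  unfold MP_b30479_gtS.G2.V1 RA
  simp only [UU_uu, Complex.add_re, Complex.add_im, Complex.sub_im, Complex.mul_im]
  rw [uu_neg x (aR x), show -aR x + s = s - aR x by ring]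
  ring

/-- gain of the digit `2`, the other hinge kept -/
theorem V2_B (c e al s x y : ℝ) : V2 ⟨c, -e⟩ ⟨y, s⟩ - V2 ⟨x, aR x⟩ ⟨y, s⟩ =
    RB c e al s x y - al - 2 * Real.pi * aR x - (uu x (aR x) - uu c e) := by
  unfold MP_b30479_gtS.G2.V2 RB
  simp only [UU_uu, Complex.add_re, Complex.add_im, Complex.sub_im, Complex.sub_re,
    Complex.mul_im, pow_two]
  rw [uu_neg c e, show -e + s = s - e by ring, add_comm (aR x) s]
  ring

/-- gain of the digit `2`, the other hinge responds -/
theorem V2_R (c e al s d f ph x y : ℝ) : V2 ⟨c, -e⟩ ⟨d, -f⟩ - V2 ⟨x, aR x⟩ ⟨y, s⟩ =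
    RR c e al s d f ph x y - ph - al - 2 * Real.pi * aR x - (uu x (aR x) - uu c e) := by
  have h1 : uu (c + d) (-e + -f) = uu (c + d) (e + f) := by
    rw [← neg_add, uu_neg]
  unfold MP_b30479_gtS.G2.V2 RR
  simp only [UU_uu, Complex.add_re, Complex.add_im, Complex.sub_im, Complex.sub_re,
    Complex.mul_im, pow_two]
  rw [uu_neg c e, uu_neg d f, h1]
  ring

/-- gain of a far digit `1` -/
theorem V1_F (d f t p ph s x y : ℝ) : V1 ⟨d, f⟩ ⟨y, s⟩ - V1 ⟨x, t⟩ ⟨y, s⟩ + 2 * Real.pi * p =
    RF d f t p ph s x y + ph := by
  unfold MP_b30479_gtS.G2.V1 RF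
  simp only [UU_uu, Complex.add_re, Complex.add_im, Complex.sub_im, Complex.mul_im]
  ring

/-! ### values of the parameters -/

variable {x t y u : ℝ}

/-- value of a function of `x` and of the height -/
noncomputable def lR (al : E) (x t : ℝ) : ℝ := al.val [x, t]

theorem al1_val : al1.val [x, t, y, u] = lR al1 x t := rfl

theorem al2_val : al2.val [x, t, y, u] = lR al2 x t := rfl

theorem al3_val : al3.val [x, t, y, u] = lR al3 x t := rfl

theorem al4_val : al4.val [x, t, y, u] = lR al4 x t := rfl

theorem c12_val (xs : List ℝ) : c12.val xs = 12 / 100 := by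
  simp only [c12, E.c, E.val]
  norm_num

theorem c20_val (xs : List ℝ) : c20.val xs = 20 / 100 := by
  simp only [c20, E.c, E.val]
  norm_num

theorem c25_val (xs : List ℝ) : c25.val xs = 25 / 100 := by
  simp only [c25, E.c, E.val]
  norm_num

theorem c35_val (xs : List ℝ) : c35.val xs = 35 / 100 := by
  simp only [c35, E.c, E.val]
  norm_num

theorem c50_val (xs : List ℝ) : c50.val xs = 50 / 100 := by
  simp only [c50, E.c, E.val]
  norm_num

theorem z0_val (xs : List ℝ) : z0.val xs = 0 := by
  simp only [z0, E.val]
  norm_num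

theorem T_val : T.val [x, t, y, u] = t := rfl

theorem S_val : S.val [x, t, y, u] = u := rfl

theorem e1_val : e1.val [x, t, y, u] = 3 / 4 * t := by
  simp only [e1, T, E.val, NumIs.lkR]
  norm_num

theorem tY_val : tY.val [x, t, y, u] = tR 800 160 290 y := by
  simp only [tY, tR, Y, NumIs.lkR, E.val, E.tr_val (XM := 800) (cl := 160) (cr := 290) (by norm_num)
    (by norm_num) (by norm_num)]

theorem tX_val : tX.val [x, t, y, u] = tR 800 160 290 x := by
  simp only [tX, tR, X, NumIs.lkR, E.val, E.tr_val (XM := 800) (cl := 160) (cr := 290) (by norm_num)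
    (by norm_num) (by norm_num)]

theorem aR_eq (y : ℝ) : aR y = 16 / 100 * tR 800 160 290 y := by
  unfold aR
  norm_num

theorem sUp_val : sUp.val [x, t, y, u] = u * tR 860 150 200 y := by
  simp only [sUp, S, tR, Y, NumIs.lkR, E.val, E.tr_val (XM := 860) (cl := 150) (cr := 200)
    (by norm_num) (by norm_num) (by norm_num)]

theorem sDn_val : sDn.val [x, t, y, u] = -(u * tR 860 130 200 y) := by
  simp only [sDn, S, tR, Y, NumIs.lkR, E.val, E.tr_val (XM := 860) (cl := 130) (cr := 200)
    (by norm_num) (by norm_num) (by norm_num)]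

theorem s3a_val : s3a.val [x, t, y, u] = -(1 / 2 * tR 650 130 150 y) := by
  simp only [s3a, tR, Y, NumIs.lkR, E.val, E.tr_val (XM := 650) (cl := 130) (cr := 150)
    (by norm_num) (by norm_num) (by norm_num)]
  norm_num

theorem hUp_val : hUp.val [x, t, y, u] = u * tR 700 140 350 y := by
  simp only [hUp, S, tR, Y, NumIs.lkR, E.val, E.tr_val (XM := 700) (cl := 140) (cr := 350)
    (by norm_num) (by norm_num) (by norm_num)]

theorem bUp_val : bUp.val [x, t, y, u] = u * tR 600 125 300 y := by
  simp only [bUp, S, tR, Y, NumIs.lkR, E.val, E.tr_val (XM := 600) (cl := 125) (cr := 300)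
    (by norm_num) (by norm_num) (by norm_num)]

theorem bDn_val : bDn.val [x, t, y, u] = -(u * tR 600 100 270 y) := by
  simp only [bDn, S, tR, Y, NumIs.lkR, E.val, E.tr_val (XM := 600) (cl := 100) (cr := 270)
    (by norm_num) (by norm_num) (by norm_num)]

theorem b3a_val : b3a.val [x, t, y, u] = -(3 / 10 * tR 600 120 270 y) := by
  simp only [b3a, tR, Y, NumIs.lkR, E.val, E.tr_val (XM := 600) (cl := 120) (cr := 270)
    (by norm_num) (by norm_num) (by norm_num)]
  norm_num

theorem wM_val : wM.val [x, t, y, u] = -(u * tR 800 160 290 y) := by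
  simp only [wM, S, NumIs.lkR, E.val, tY_val]

theorem wU_val : wU.val [x, t, y, u] = aR y := by
  rw [aR_eq]
  simp only [wU, E.c, E.val, tY_val]
  norm_num

theorem wD_val : wD.val [x, t, y, u] = -aR y := by
  rw [aR_eq]
  simp only [wD, E.c, E.val, tY_val]
  norm_num

theorem uX_val : uX.val [x, t, y, u] = -aR x := by
  simp only [uX, E.val, ax_val]

theorem mX_val : mX.val [x, t, y, u] = t * tR 800 160 290 x := by
  simp only [mX, T, E.val, NumIs.lkR, tX_val]

/-! ### gains behind the other hinge of the `2` -/

noncomputable def pM (y t : ℝ) : ℝ :=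
  -215 / 1000 - 37 / 100 * (y - 65 / 100) - t * (113 / 100 + 91 / 10 * (y - 65 / 100))
noncomputable def pM0 (y : ℝ) : ℝ := -215 / 1000 - 37 / 100 * (y - 65 / 100)
noncomputable def pU (y t : ℝ) : ℝ :=
  plR y (-280) [(0, 4, 1), (50, -1, 5), (100, -4, 5), (150, -14, 5), (200, -5, 4)] - 16 / 10 * t
noncomputable def pV (y t : ℝ) : ℝ := -12 / 100 - 75 / 100 * (y - 6 / 10) - 24 / 10 * t
noncomputable def pD (y : ℝ) : ℝ := 100 / 1000 - 28 / 10 * (y - 65 / 100)

theorem phM_val (a c : E) (xs : List ℝ) : (phM a c).val xs = pM (a.val xs) (c.val xs) := by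
  unfold phM pM
  simp only [E.val]
  norm_num

theorem phM0_val (a : E) (xs : List ℝ) : (phM0 a).val xs = pM0 (a.val xs) := by
  unfold phM0 pM0
  simp only [E.val]
  norm_num

theorem phU_val (a c : E) (xs : List ℝ) : (phU a c).val xs = pU (a.val xs) (c.val xs) := by
  unfold phU pU
  simp only [E.val, E.pl_val]
  norm_num

theorem phV_val (a c : E) (xs : List ℝ) : (phV a c).val xs = pV (a.val xs) (c.val xs) := by
  unfold phV pV
  simp only [E.val]
  norm_num

theorem phD_val (a : E) (xs : List ℝ) : (phD a).val xs = pD (a.val xs) := by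
  unfold phD pD
  simp only [E.val]
  norm_num

theorem X_val : X.val [x, t, y, u] = x := rfl

theorem Y_val : Y.val [x, t, y, u] = y := rfl

end K12

end Pool.Agent.Work.NumGs

end

section

/-!
# Mirrored paths, kind `1 | 2`: side of the `1`
-/

namespace Pool.Agent.Work.NumGs

open MP_b30479_gtS.G2
open NumUs (uu uu_neg UU_uu)

namespace K12

variable {x t y s : ℝ}

/-- **Positions of the other hinge of the `1`**; `t` is the height of the hinge `1 | 2`. -/
inductive PA (t y s : ℝ) : Prop
  | u (S : ℝ) (ht : t ≤ 8 / 100) (y0 : 0 ≤ y) (y1 : y ≤ 86 / 100) (S0 : 0 ≤ S) (S1 : S ≤ 16 / 100)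
      (e : s = S * tR 860 150 200 y)
  | d (S : ℝ) (ht : t ≤ 8 / 100) (y0 : 0 ≤ y) (y1 : y ≤ 86 / 100) (S0 : 0 ≤ S) (S1 : S ≤ 16 / 100)
      (e : s = -(S * tR 860 130 200 y))
  | t (t0 : 1 / 100 ≤ t) (ht : t ≤ 77 / 1000) (y0 : 0 ≤ y) (y1 : y ≤ 65 / 100)
      (e : s = -(1 / 2 * tR 650 130 150 y))
  | h (S : ℝ) (ht : 8 / 100 ≤ t) (y0 : 0 ≤ y) (y1 : y ≤ 70 / 100) (S0 : -(16 / 100) ≤ S)
      (S1 : S ≤ 6 / 100) (e : s = S * tR 700 140 350 y)

theorem zA1 (x0 : 0 ≤ x) (x1 : x ≤ 1 / 10) (t0 : 0 ≤ t) (t1 : t ≤ 985 / 10000)
    (h : PA t y s) : 0 < RA (12 / 100) (3 / 4 * t) (lR al1 x t) s x y := by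
  cases h with
  | u S ht y0 y1 S0 S1 e =>
    obtain ⟨e', he, hp⟩ := chkF4 a1u (by norm_num) (x := x) (y := t) (z := y) (w := S)
        (by norm_num; linarith only [x0]) (by norm_num; linarith only [x1]) (by norm_num; linarith only [t0]) (by norm_num; linarith only [ht])
        (by norm_num; linarith only [y0]) (by norm_num; linarith only [y1]) (by norm_num; linarith only [S0]) (by norm_num; linarith only [S1])
    rw [List.mem_singleton] at he
    rw [he, gA_val, c12_val, e1_val, al1_val, sUp_val] at hp
    rw [e]
    exact hp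
  | d S ht y0 y1 S0 S1 e =>
    obtain ⟨e', he, hp⟩ := chkF4 a1d (by norm_num) (x := x) (y := t) (z := y) (w := S)
        (by norm_num; linarith only [x0]) (by norm_num; linarith only [x1]) (by norm_num; linarith only [t0]) (by norm_num; linarith only [ht])
        (by norm_num; linarith only [y0]) (by norm_num; linarith only [y1]) (by norm_num; linarith only [S0]) (by norm_num; linarith only [S1])
    rw [List.mem_singleton] at he
    rw [he, gA_val, c12_val, e1_val, al1_val, sDn_val] at hp
    rw [e]
    exact hp
  | t t0' ht y0 y1 e =>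
    obtain ⟨e', he, hp⟩ := chkF4 a1t (by norm_num) (x := x) (y := t) (z := y) (w := 0)
        (by norm_num; linarith only [x0]) (by norm_num; linarith only [x1]) (by norm_num; linarith only [t0']) (by norm_num; linarith only [ht])
        (by norm_num; linarith only [y0]) (by norm_num; linarith only [y1]) (by norm_num) (by norm_num)
    rw [List.mem_singleton] at he
    rw [he, gX_val, c12_val, e1_val, al1_val, s3a_val] at hp
    rw [e]
    exact hp
  | h S ht y0 y1 S0 S1 e =>
    obtain ⟨e', he, hp⟩ := chkF4 a1h (by norm_num) (x := x) (y := t) (z := y) (w := S)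
        (by norm_num; linarith only [x0]) (by norm_num; linarith only [x1]) (by norm_num; linarith only [ht]) (by norm_num; linarith only [t1])
        (by norm_num; linarith only [y0]) (by norm_num; linarith only [y1]) (by norm_num; linarith only [S0]) (by norm_num; linarith only [S1])
    rw [List.mem_singleton] at he
    rw [he, gA_val, c12_val, e1_val, al1_val, hUp_val] at hp
    rw [e]
    exact hp

theorem zA2 (x0 : 1 / 10 ≤ x) (x1 : x ≤ 55 / 100) (t0 : 0 ≤ t) (t1 : t ≤ 985 / 10000)
    (h : PA t y s) : 0 < RA (20 / 100) (t) (lR al2 x t) s x y := by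
  cases h with
  | u S ht y0 y1 S0 S1 e =>
    obtain ⟨e', he, hp⟩ := chkF4 a2u (by norm_num) (x := x) (y := t) (z := y) (w := S)
        (by norm_num; linarith only [x0]) (by norm_num; linarith only [x1]) (by norm_num; linarith only [t0]) (by norm_num; linarith only [ht])
        (by norm_num; linarith only [y0]) (by norm_num; linarith only [y1]) (by norm_num; linarith only [S0]) (by norm_num; linarith only [S1])
    rw [List.mem_singleton] at he
    rw [he, gA_val, c20_val, T_val, al2_val, sUp_val] at hp
    rw [e]
    exact hp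
  | d S ht y0 y1 S0 S1 e =>
    obtain ⟨e', he, hp⟩ := chkF4 a2d (by norm_num) (x := x) (y := t) (z := y) (w := S)
        (by norm_num; linarith only [x0]) (by norm_num; linarith only [x1]) (by norm_num; linarith only [t0]) (by norm_num; linarith only [ht])
        (by norm_num; linarith only [y0]) (by norm_num; linarith only [y1]) (by norm_num; linarith only [S0]) (by norm_num; linarith only [S1])
    rw [List.mem_singleton] at he
    rw [he, gA_val, c20_val, T_val, al2_val, sDn_val] at hp
    rw [e]
    exact hp
  | t t0' ht y0 y1 e =>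
    obtain ⟨e', he, hp⟩ := chkF4 a2t (by norm_num) (x := x) (y := t) (z := y) (w := 0)
        (by norm_num; linarith only [x0]) (by norm_num; linarith only [x1]) (by norm_num; linarith only [t0']) (by norm_num; linarith only [ht])
        (by norm_num; linarith only [y0]) (by norm_num; linarith only [y1]) (by norm_num) (by norm_num)
    rw [List.mem_singleton] at he
    rw [he, gX_val, c20_val, T_val, al2_val, s3a_val] at hp
    rw [e]
    exact hp
  | h S ht y0 y1 S0 S1 e =>
    obtain ⟨e', he, hp⟩ := chkF4 a2h (by norm_num) (x := x) (y := t) (z := y) (w := S)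
        (by norm_num; linarith only [x0]) (by norm_num; linarith only [x1]) (by norm_num; linarith only [ht]) (by norm_num; linarith only [t1])
        (by norm_num; linarith only [y0]) (by norm_num; linarith only [y1]) (by norm_num; linarith only [S0]) (by norm_num; linarith only [S1])
    rw [List.mem_singleton] at he
    rw [he, gA_val, c20_val, T_val, al2_val, hUp_val] at hp
    rw [e]
    exact hp

theorem zA3 (x0 : 55 / 100 ≤ x) (x1 : x ≤ 74 / 100) (t0 : 0 ≤ t) (t1 : t ≤ 985 / 10000)
    (h : PA t y s) : 0 < RA (35 / 100) (t) (lR al3 x t) s x y := by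
  cases h with
  | u S ht y0 y1 S0 S1 e =>
    obtain ⟨e', he, hp⟩ := chkF4 a3u (by norm_num) (x := x) (y := t) (z := y) (w := S)
        (by norm_num; linarith only [x0]) (by norm_num; linarith only [x1]) (by norm_num; linarith only [t0]) (by norm_num; linarith only [ht])
        (by norm_num; linarith only [y0]) (by norm_num; linarith only [y1]) (by norm_num; linarith only [S0]) (by norm_num; linarith only [S1])
    rw [List.mem_singleton] at he
    rw [he, gA_val, c35_val, T_val, al3_val, sUp_val] at hp
    rw [e]
    exact hp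
  | d S ht y0 y1 S0 S1 e =>
    obtain ⟨e', he, hp⟩ := chkF4 a3d (by norm_num) (x := x) (y := t) (z := y) (w := S)
        (by norm_num; linarith only [x0]) (by norm_num; linarith only [x1]) (by norm_num; linarith only [t0]) (by norm_num; linarith only [ht])
        (by norm_num; linarith only [y0]) (by norm_num; linarith only [y1]) (by norm_num; linarith only [S0]) (by norm_num; linarith only [S1])
    rw [List.mem_singleton] at he
    rw [he, gA_val, c35_val, T_val, al3_val, sDn_val] at hp
    rw [e]
    exact hp
  | t t0' ht y0 y1 e =>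
    obtain ⟨e', he, hp⟩ := chkF4 a3t (by norm_num) (x := x) (y := t) (z := y) (w := 0)
        (by norm_num; linarith only [x0]) (by norm_num; linarith only [x1]) (by norm_num; linarith only [t0']) (by norm_num; linarith only [ht])
        (by norm_num; linarith only [y0]) (by norm_num; linarith only [y1]) (by norm_num) (by norm_num)
    rw [List.mem_singleton] at he
    rw [he, gX_val, c35_val, T_val, al3_val, s3a_val] at hp
    rw [e]
    exact hp
  | h S ht y0 y1 S0 S1 e =>
    obtain ⟨e', he, hp⟩ := chkF4 a3h (by norm_num) (x := x) (y := t) (z := y) (w := S)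
        (by norm_num; linarith only [x0]) (by norm_num; linarith only [x1]) (by norm_num; linarith only [ht]) (by norm_num; linarith only [t1])
        (by norm_num; linarith only [y0]) (by norm_num; linarith only [y1]) (by norm_num; linarith only [S0]) (by norm_num; linarith only [S1])
    rw [List.mem_singleton] at he
    rw [he, gA_val, c35_val, T_val, al3_val, hUp_val] at hp
    rw [e]
    exact hp

theorem zA4 (x0 : 74 / 100 ≤ x) (x1 : x ≤ 78 / 100) (t0 : 0 ≤ t) (t1 : t ≤ 985 / 10000)
    (h : PA t y s) : 0 < RA (50 / 100) (t) (lR al4 x t) s x y := by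
  cases h with
  | u S ht y0 y1 S0 S1 e =>
    obtain ⟨e', he, hp⟩ := chkF4 a4u (by norm_num) (x := x) (y := t) (z := y) (w := S)
        (by norm_num; linarith only [x0]) (by norm_num; linarith only [x1]) (by norm_num; linarith only [t0]) (by norm_num; linarith only [ht])
        (by norm_num; linarith only [y0]) (by norm_num; linarith only [y1]) (by norm_num; linarith only [S0]) (by norm_num; linarith only [S1])
    rw [List.mem_singleton] at he
    rw [he, gA_val, c50_val, T_val, al4_val, sUp_val] at hp
    rw [e]
    exact hp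
  | d S ht y0 y1 S0 S1 e =>
    obtain ⟨e', he, hp⟩ := chkF4 a4d (by norm_num) (x := x) (y := t) (z := y) (w := S)
        (by norm_num; linarith only [x0]) (by norm_num; linarith only [x1]) (by norm_num; linarith only [t0]) (by norm_num; linarith only [ht])
        (by norm_num; linarith only [y0]) (by norm_num; linarith only [y1]) (by norm_num; linarith only [S0]) (by norm_num; linarith only [S1])
    rw [List.mem_singleton] at he
    rw [he, gA_val, c50_val, T_val, al4_val, sDn_val] at hp
    rw [e]
    exact hp
  | t t0' ht y0 y1 e =>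
    obtain ⟨e', he, hp⟩ := chkF4 a4t (by norm_num) (x := x) (y := t) (z := y) (w := 0)
        (by norm_num; linarith only [x0]) (by norm_num; linarith only [x1]) (by norm_num; linarith only [t0']) (by norm_num; linarith only [ht])
        (by norm_num; linarith only [y0]) (by norm_num; linarith only [y1]) (by norm_num) (by norm_num)
    rw [List.mem_singleton] at he
    rw [he, gX_val, c50_val, T_val, al4_val, s3a_val] at hp
    rw [e]
    exact hp
  | h S ht y0 y1 S0 S1 e =>
    obtain ⟨e', he, hp⟩ := chkF4 a4h (by norm_num) (x := x) (y := t) (z := y) (w := S)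
        (by norm_num; linarith only [x0]) (by norm_num; linarith only [x1]) (by norm_num; linarith only [ht]) (by norm_num; linarith only [t1])
        (by norm_num; linarith only [y0]) (by norm_num; linarith only [y1]) (by norm_num; linarith only [S0]) (by norm_num; linarith only [S1])
    rw [List.mem_singleton] at he
    rw [he, gA_val, c50_val, T_val, al4_val, hUp_val] at hp
    rw [e]
    exact hp

/-- the last zone: some positions are left -/
theorem zA5 (x0 : 78 / 100 ≤ x) (x1 : x ≤ 80 / 100) (t0 : 0 ≤ t) (t1 : t ≤ 985 / 10000)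
    (h : PA t y s) : 0 < RA (50 / 100) (t) (lR al4 x t) s x y ∨
      (t ≤ 8 / 100 ∧ 40 / 100 ≤ y ∧ y ≤ 78 / 100 ∧ ∃ S : ℝ, 3 / 100 ≤ S ∧
        s = S * tR 860 150 200 y) := by
  cases h with
  | u S ht y0 y1 S0 S1 e =>
    rcases le_total y (40 / 100) with hy | hy
    · left
      obtain ⟨e', he, hp⟩ := chkF4 a5u1 (by norm_num) (x := x) (y := t) (z := y) (w := S)
        (by norm_num; linarith only [x0]) (by norm_num; linarith only [x1]) (by norm_num; linarith only [t0]) (by norm_num; linarith only [ht])
        (by norm_num; linarith only [y0]) (by norm_num; linarith only [hy]) (by norm_num; linarith only [S0]) (by norm_num; linarith only [S1])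
      rw [List.mem_singleton] at he
      rw [he, gA_val, c50_val, T_val, al4_val, sUp_val] at hp
      rw [e]
      exact hp
    rcases le_total (78 / 100) y with hy' | hy'
    · left
      obtain ⟨e', he, hp⟩ := chkF4 a5u2 (by norm_num) (x := x) (y := t) (z := y) (w := S)
        (by norm_num; linarith only [x0]) (by norm_num; linarith only [x1]) (by norm_num; linarith only [t0]) (by norm_num; linarith only [ht])
        (by norm_num; linarith only [hy']) (by norm_num; linarith only [y1]) (by norm_num; linarith only [S0]) (by norm_num; linarith only [S1])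
      rw [List.mem_singleton] at he
      rw [he, gA_val, c50_val, T_val, al4_val, sUp_val] at hp
      rw [e]
      exact hp
    rcases le_total S (3 / 100) with hS | hS
    · left
      obtain ⟨e', he, hp⟩ := chkF4 a5u3 (by norm_num) (x := x) (y := t) (z := y) (w := S)
        (by norm_num; linarith only [x0]) (by norm_num; linarith only [x1]) (by norm_num; linarith only [t0]) (by norm_num; linarith only [ht])
        (by norm_num; linarith only [hy]) (by norm_num; linarith only [hy']) (by norm_num; linarith only [S0]) (by norm_num; linarith only [hS])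
      rw [List.mem_singleton] at he
      rw [he, gA_val, c50_val, T_val, al4_val, sUp_val] at hp
      rw [e]
      exact hp
    · exact Or.inr ⟨ht, hy, hy', S, hS, e⟩
  | d S ht y0 y1 S0 S1 e =>
    left
    obtain ⟨e', he, hp⟩ := chkF4 a5d (by norm_num) (x := x) (y := t) (z := y) (w := S)
        (by norm_num; linarith only [x0]) (by norm_num; linarith only [x1]) (by norm_num; linarith only [t0]) (by norm_num; linarith only [ht])
        (by norm_num; linarith only [y0]) (by norm_num; linarith only [y1]) (by norm_num; linarith only [S0]) (by norm_num; linarith only [S1])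
    rw [List.mem_singleton] at he
    rw [he, gA_val, c50_val, T_val, al4_val, sDn_val] at hp
    rw [e]
    exact hp
  | t t0' ht y0 y1 e =>
    left
    obtain ⟨e', he, hp⟩ := chkF4 a5t (by norm_num) (x := x) (y := t) (z := y) (w := 0)
        (by norm_num; linarith only [x0]) (by norm_num; linarith only [x1]) (by norm_num; linarith only [t0']) (by norm_num; linarith only [ht])
        (by norm_num; linarith only [y0]) (by norm_num; linarith only [y1]) (by norm_num) (by norm_num)
    rw [List.mem_singleton] at he
    rw [he, gX_val, c50_val, T_val, al4_val, s3a_val] at hp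
    rw [e]
    exact hp
  | h S ht y0 y1 S0 S1 e =>
    left
    obtain ⟨e', he, hp⟩ := chkF4 a5h (by norm_num) (x := x) (y := t) (z := y) (w := S)
        (by norm_num; linarith only [x0]) (by norm_num; linarith only [x1]) (by norm_num; linarith only [ht]) (by norm_num; linarith only [t1])
        (by norm_num; linarith only [y0]) (by norm_num; linarith only [y1]) (by norm_num; linarith only [S0]) (by norm_num; linarith only [S1])
    rw [List.mem_singleton] at he
    rw [he, gA_val, c50_val, T_val, al4_val, hUp_val] at hp
    rw [e]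
    exact hp

end K12

end Pool.Agent.Work.NumGs

end
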