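import Pool.Agent.Work.MP_b30479_gt.TBS.G2.MJA
import Pool.Agent.Work.MP_b30479_gt.TBS.NumU.GenC
import Pool.Agent.Work.MP_b30479_gt.TBS.G2.H13A
import Pool.Agent.Work.MP_b30479_gt.TBS.G2.MJB
import Pool.Agent.Work.MP_b30479_gt.TBS.G2.MJR7
import Pool.Agent.Work.MP_b30479_gt.TBS.G2.MJR8

section

/-!
# Rows: kind `1 | 2`, side of the `2`
-/

set_option deprecated.oldSectionVars true

namespace Pool.Agent.Work.NumGs

namespace K12

theorem b1u : chkF [gB c12 e1 al1 bUp] 10000 0 0 0 0 40 0 1000 0 985 0 6000 0 960 6808118074965126667783199476712171606319196687062663579238400090822503340666376582748123552805537048769715860158612867795783609268604473170536280543552087383223626816781987338456198895353801214028204885174729743984260253022274539818117733033359950852498155669769282057065427961346097327682966601648638738049506269113406271922835311789276433045996955993019328029256493104269393037762035471200163429381624857669119541506 = true := by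
  decide +kernel

theorem b1d_q1 : Pool.Agent.Work.NumIs.runE (Pool.Agent.Work.NumGs.tst [gB c12 e1 al1 bDn])
    0 0 0 0 39 0 6871947675 0 6768868460 0 20615843021 0 5841155524
    1692917657450811613454580963142698461408950334437504792839627343132884477641427033073801605321025009506762392285063707547833121863463856811020902951466630064693318766694797659634427213015432244198058778186448757983624778395018697323720608934952396178758029722420977583106189791516639884796641982221980131379417068631908311642944775405042668702759515300029956302262291745458629102329776037290782955620721002203791391444929197311887767872095904095980325698031774351107622812971623336792665322464172761415938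
    211140187842649178827875546768026515255009839994137341283012866578942548965034997183155076411872483317758794688223739832670872005699908043821265796989184 = true := by
  decide +kernel

theorem b1d_q2 : Pool.Agent.Work.NumIs.runE (Pool.Agent.Work.NumGs.tst [gB c12 e1 al1 bDn])
    0 0 0 0 39 0 6871947675 0 6768868460 20615843021 41231686043 0 5841155524
    211140187842649178827875546768026515255009839994137341283012866578942548965034997183155076411872483317758794688223739832670872005699908043821265796989184
    0 = true := by
  decide +kernel

theorem b1d : chkF [gB c12 e1 al1 bDn] 10000 0 0 0 0 40 0 1000 0 985 0 6000 0 850 216693460153703886522186363282265403060345642808000613483472299921009213138102660233446605481091201216865586212488154566122639598523373671810675577787728648280744802136934100433206683265975327257351523607865441021903971634562393257436237943673906710881027804469885130637592293314129905253970173724413456816565384784884263890296931251845461593953217958403834406689573343418704525098211332773220218319452288282085298104950937255921634287628275724285481689348067116941775720060367787109461161275414113461240066 = true :=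
    Pool.Agent.Work.NumIs.okB_of rfl rfl rfl rfl rfl rfl rfl rfl rfl rfl rfl rfl
    (Pool.Agent.Work.NumIs.runE_split2 rfl rfl rfl
      b1d_q1
      b1d_q2)

theorem b1t_q1 : Pool.Agent.Work.NumIs.runE (Pool.Agent.Work.NumGs.tst [gB c12 e1 al1 b3a])
    0 0 0 0 38 0 6871947675 0 6768868460 0 10307921510 0 2
    1328306934759154996032872629921926586179669972242808657502926564780482478699885802163121705562485086548093262183138706850542219726362808143583332004034601124348913595466655711748693888762852683118360644387633855341473806774141319384073745341750033966226882411808636938651318474083868741160817478052234102580380754259905099970073790662283803470152352811405240378296389677376767087258659667338705292599486564393870573304337106602498159106520885247000412549534038847650186744724690968670865032101549657391985869610513662139511396455478398392665700248417997573586946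
    617154116598388000326707036026898419655580374099735646866875052914858849470765360313960202659575973479402595137820853648690056030821054783578500024411049910715093813915263153957996984446437245828726784 = true := by
  decide +kernel

theorem b1t_q2 : Pool.Agent.Work.NumIs.runE (Pool.Agent.Work.NumGs.tst [gB c12 e1 al1 b3a])
    0 0 0 0 38 0 6871947675 0 6768868460 10307921510 20615843021 0 2
    617154116598388000326707036026898419655580374099735646866875052914858849470765360313960202659575973479402595137820853648690056030821054783578500024411049910715093813915263153957996984446437245828726784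
    928590307389599275599587591434502528875287938023263676693953620503470141460490004511928716958363236407668500246362383250856966307971770455818666545592380049892311042 = true := by
  decide +kernel

theorem b1t_q3 : Pool.Agent.Work.NumIs.runE (Pool.Agent.Work.NumGs.tst [gB c12 e1 al1 b3a])
    0 0 0 0 39 0 6871947675 0 6768868460 20615843021 41231686043 0 2
    928590307389599275599587591434502528875287938023263676693953620503470141460490004511928716958363236407668500246362383250856966307971770455818666545592380049892311042
    0 = true := by
  decide +kernel

theorem b1t : chkF [gB c12 e1 al1 b3a] 10000 0 0 0 0 40 0 1000 0 985 0 6000 0 0 21762980819093995455002585168640845187967712825226177044527948837363424931018928982640586023935755658003960007608544573039283727996728248624469311554102904821332600348125687181290600673490578360211220797646993085914706850187531376788664243679232556502661241435072707602863201879390105455178833560407803536676958277794285157909688986210857836054976148462063458358008048474140951957645879989677347513949987871029175473018259154575329838801238183886854759211565692479900659625569336830703452685951789586710296487698655840493754719526558079265434832870080472245648523522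 = true :=
    Pool.Agent.Work.NumIs.okB_of rfl rfl rfl rfl rfl rfl rfl rfl rfl rfl rfl rfl
    (Pool.Agent.Work.NumIs.runE_split2 rfl rfl rfl
      (Pool.Agent.Work.NumIs.runE_split2 rfl rfl rfl
        b1t_q1
        b1t_q2)
      b1t_q3)

theorem b2u : chkF [gB c20 T al2 bUp] 10000 0 0 0 0 40 1000 5500 0 985 0 6000 0 960 21205575032271416009479203443983625714313386234211150245423774885737829501629536649207173333193110632927929244319060849446161618514104350209285446954063518132490618389520210245118920972405359546655609608824979458 = true := by
  decide +kernel

theorem b2d : chkF [gB c20 T al2 bDn] 10000 0 0 0 0 40 1000 5500 0 985 0 6000 0 850 78996922941026896269357774323919183999553639954195047790654142489361784614757855067090228437444279937119949805836020070411259348959209317391631915630151112261396514692485618683093569911799617016159043586 = true := by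
  decide +kernel

theorem b2t : chkF [gB c20 T al2 b3a] 10000 0 0 0 0 40 1000 5500 0 985 0 6000 0 0 1294285583073607514761807722705889447127541397314529866860771887024894342280165951379224445085278094664843179097331819776237796251366105905874858223388384690284127066898583473387581144386789385879127813292034 = true := by
  decide +kernel

theorem b3u : chkF [gB c35 T al3 bUp] 10000 0 0 0 0 40 5500 7400 0 985 0 6000 0 960 786558494839147838538999039401566216135273310652413832923059852859322556368950893999236709587338210679632343213251403635870580068309256271560962 = true := by
  decide +kernel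

theorem b3d : chkF [gB c35 T al3 bDn] 10000 0 0 0 0 40 5500 7400 0 985 0 6000 0 850 9245950672746996676102348670002865880161261345942772932425671680778085665399310396609147515516500689551618 = true := by
  decide +kernel

theorem b3t : chkF [gB c35 T al3 b3a] 10000 0 0 0 0 40 5500 7400 0 985 0 6000 0 0 7831624848336926001211291949878471919673008244278254101988688556236518019901580935426 = true := by
  decide +kernel

theorem b4u : chkF [gB c50 T al4 bUp] 10000 0 0 0 0 40 7400 8000 0 985 0 6000 0 960 25361832277398035194290617700059253724457132492757209389824671661262195140809693497710959209795642273992757153462168547633001432875636642178692504086507751701204052541115903068653669135057710205672475599819296130268560874393034404721295547022764504975714174031469587531265261551967714819288815781855495182090216052805733024155858823923979270506510865905221208143929503891144107380132716764534291811870529585410 = true := by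
  decide +kernel

theorem b4d : chkF [gB c50 T al4 bDn] 10000 0 0 0 0 40 7400 8000 0 985 0 6000 0 850 34444371821958328920403279467675081312593085079932287418970049478095932337590870381371375642247426 = true := by
  decide +kernel

theorem b4t : chkF [gB c50 T al4 b3a] 10000 0 0 0 0 40 7400 8000 0 985 0 6000 0 0 404885514218737687173602232215362000962142224357404157444354 = true := by
  decide +kernel

end K12

end Pool.Agent.Work.NumGs

end

section

/-!
# Mirrored paths, kind `1 | 2`: side of the `2`, the region behind it
-/

namespace Pool.Agent.Work.NumGs

open MP_b30479_gtS.G2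
open NumUs (uu uu_neg UU_uu)

namespace K12

variable {x t y s : ℝ}

/-- **Positions of the other hinge of the `2`**, no `1` behind it. -/
inductive PB (y s : ℝ) : Prop
  | u (S : ℝ) (y0 : 0 ≤ y) (y1 : y ≤ 60 / 100) (S0 : 0 ≤ S) (S1 : S ≤ 96 / 1000)
      (e : s = S * tR 600 125 300 y)
  | d (S : ℝ) (y0 : 0 ≤ y) (y1 : y ≤ 60 / 100) (S0 : 0 ≤ S) (S1 : S ≤ 85 / 1000)
      (e : s = -(S * tR 600 100 270 y))
  | t (y0 : 0 ≤ y) (y1 : y ≤ 60 / 100) (e : s = -(3 / 10 * tR 600 120 270 y))

theorem zB1 (x0 : 0 ≤ x) (x1 : x ≤ 1 / 10) (t0 : 0 ≤ t) (t1 : t ≤ 985 / 10000)
    (h : PB y s) : 0 < RB (12 / 100) (3 / 4 * t) (lR al1 x t) s x y := by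
  cases h with
  | u S y0 y1 S0 S1 e =>
    obtain ⟨e', he, hp⟩ := chkF4 b1u (by norm_num) (x := x) (y := t) (z := y) (w := S)
        (by norm_num; linarith only [x0]) (by norm_num; linarith only [x1]) (by norm_num; linarith only [t0]) (by norm_num; linarith only [t1])
        (by norm_num; linarith only [y0]) (by norm_num; linarith only [y1]) (by norm_num; linarith only [S0]) (by norm_num; linarith only [S1])
    rw [List.mem_singleton] at he
    rw [he, gB_val, c12_val, e1_val, al1_val, bUp_val] at hp
    rw [e]
    exact hp
  | d S y0 y1 S0 S1 e =>
    obtain ⟨e', he, hp⟩ := chkF4 b1d (by norm_num) (x := x) (y := t) (z := y) (w := S)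
        (by norm_num; linarith only [x0]) (by norm_num; linarith only [x1]) (by norm_num; linarith only [t0]) (by norm_num; linarith only [t1])
        (by norm_num; linarith only [y0]) (by norm_num; linarith only [y1]) (by norm_num; linarith only [S0]) (by norm_num; linarith only [S1])
    rw [List.mem_singleton] at he
    rw [he, gB_val, c12_val, e1_val, al1_val, bDn_val] at hp
    rw [e]
    exact hp
  | t y0 y1 e =>
    obtain ⟨e', he, hp⟩ := chkF4 b1t (by norm_num) (x := x) (y := t) (z := y) (w := 0)
        (by norm_num; linarith only [x0]) (by norm_num; linarith only [x1]) (by norm_num; linarith only [t0]) (by norm_num; linarith only [t1])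
        (by norm_num; linarith only [y0]) (by norm_num; linarith only [y1]) (by norm_num) (by norm_num)
    rw [List.mem_singleton] at he
    rw [he, gB_val, c12_val, e1_val, al1_val, b3a_val] at hp
    rw [e]
    exact hp

theorem zB2 (x0 : 1 / 10 ≤ x) (x1 : x ≤ 55 / 100) (t0 : 0 ≤ t) (t1 : t ≤ 985 / 10000)
    (h : PB y s) : 0 < RB (20 / 100) (t) (lR al2 x t) s x y := by
  cases h with
  | u S y0 y1 S0 S1 e =>
    obtain ⟨e', he, hp⟩ := chkF4 b2u (by norm_num) (x := x) (y := t) (z := y) (w := S)
        (by norm_num; linarith only [x0]) (by norm_num; linarith only [x1]) (by norm_num; linarith only [t0]) (by norm_num; linarith only [t1])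
        (by norm_num; linarith only [y0]) (by norm_num; linarith only [y1]) (by norm_num; linarith only [S0]) (by norm_num; linarith only [S1])
    rw [List.mem_singleton] at he
    rw [he, gB_val, c20_val, T_val, al2_val, bUp_val] at hp
    rw [e]
    exact hp
  | d S y0 y1 S0 S1 e =>
    obtain ⟨e', he, hp⟩ := chkF4 b2d (by norm_num) (x := x) (y := t) (z := y) (w := S)
        (by norm_num; linarith only [x0]) (by norm_num; linarith only [x1]) (by norm_num; linarith only [t0]) (by norm_num; linarith only [t1])
        (by norm_num; linarith only [y0]) (by norm_num; linarith only [y1]) (by norm_num; linarith only [S0]) (by norm_num; linarith only [S1])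
    rw [List.mem_singleton] at he
    rw [he, gB_val, c20_val, T_val, al2_val, bDn_val] at hp
    rw [e]
    exact hp
  | t y0 y1 e =>
    obtain ⟨e', he, hp⟩ := chkF4 b2t (by norm_num) (x := x) (y := t) (z := y) (w := 0)
        (by norm_num; linarith only [x0]) (by norm_num; linarith only [x1]) (by norm_num; linarith only [t0]) (by norm_num; linarith only [t1])
        (by norm_num; linarith only [y0]) (by norm_num; linarith only [y1]) (by norm_num) (by norm_num)
    rw [List.mem_singleton] at he
    rw [he, gB_val, c20_val, T_val, al2_val, b3a_val] at hp
    rw [e]
    exact hp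

theorem zB3 (x0 : 55 / 100 ≤ x) (x1 : x ≤ 74 / 100) (t0 : 0 ≤ t) (t1 : t ≤ 985 / 10000)
    (h : PB y s) : 0 < RB (35 / 100) (t) (lR al3 x t) s x y := by
  cases h with
  | u S y0 y1 S0 S1 e =>
    obtain ⟨e', he, hp⟩ := chkF4 b3u (by norm_num) (x := x) (y := t) (z := y) (w := S)
        (by norm_num; linarith only [x0]) (by norm_num; linarith only [x1]) (by norm_num; linarith only [t0]) (by norm_num; linarith only [t1])
        (by norm_num; linarith only [y0]) (by norm_num; linarith only [y1]) (by norm_num; linarith only [S0]) (by norm_num; linarith only [S1])
    rw [List.mem_singleton] at he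
    rw [he, gB_val, c35_val, T_val, al3_val, bUp_val] at hp
    rw [e]
    exact hp
  | d S y0 y1 S0 S1 e =>
    obtain ⟨e', he, hp⟩ := chkF4 b3d (by norm_num) (x := x) (y := t) (z := y) (w := S)
        (by norm_num; linarith only [x0]) (by norm_num; linarith only [x1]) (by norm_num; linarith only [t0]) (by norm_num; linarith only [t1])
        (by norm_num; linarith only [y0]) (by norm_num; linarith only [y1]) (by norm_num; linarith only [S0]) (by norm_num; linarith only [S1])
    rw [List.mem_singleton] at he
    rw [he, gB_val, c35_val, T_val, al3_val, bDn_val] at hp
    rw [e]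
    exact hp
  | t y0 y1 e =>
    obtain ⟨e', he, hp⟩ := chkF4 b3t (by norm_num) (x := x) (y := t) (z := y) (w := 0)
        (by norm_num; linarith only [x0]) (by norm_num; linarith only [x1]) (by norm_num; linarith only [t0]) (by norm_num; linarith only [t1])
        (by norm_num; linarith only [y0]) (by norm_num; linarith only [y1]) (by norm_num) (by norm_num)
    rw [List.mem_singleton] at he
    rw [he, gB_val, c35_val, T_val, al3_val, b3a_val] at hp
    rw [e]
    exact hp

theorem zB4 (x0 : 74 / 100 ≤ x) (x1 : x ≤ 80 / 100) (t0 : 0 ≤ t) (t1 : t ≤ 985 / 10000)
    (h : PB y s) : 0 < RB (50 / 100) (t) (lR al4 x t) s x y := by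
  cases h with
  | u S y0 y1 S0 S1 e =>
    obtain ⟨e', he, hp⟩ := chkF4 b4u (by norm_num) (x := x) (y := t) (z := y) (w := S)
        (by norm_num; linarith only [x0]) (by norm_num; linarith only [x1]) (by norm_num; linarith only [t0]) (by norm_num; linarith only [t1])
        (by norm_num; linarith only [y0]) (by norm_num; linarith only [y1]) (by norm_num; linarith only [S0]) (by norm_num; linarith only [S1])
    rw [List.mem_singleton] at he
    rw [he, gB_val, c50_val, T_val, al4_val, bUp_val] at hp
    rw [e]
    exact hp
  | d S y0 y1 S0 S1 e =>
    obtain ⟨e', he, hp⟩ := chkF4 b4d (by norm_num) (x := x) (y := t) (z := y) (w := S)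
        (by norm_num; linarith only [x0]) (by norm_num; linarith only [x1]) (by norm_num; linarith only [t0]) (by norm_num; linarith only [t1])
        (by norm_num; linarith only [y0]) (by norm_num; linarith only [y1]) (by norm_num; linarith only [S0]) (by norm_num; linarith only [S1])
    rw [List.mem_singleton] at he
    rw [he, gB_val, c50_val, T_val, al4_val, bDn_val] at hp
    rw [e]
    exact hp
  | t y0 y1 e =>
    obtain ⟨e', he, hp⟩ := chkF4 b4t (by norm_num) (x := x) (y := t) (z := y) (w := 0)
        (by norm_num; linarith only [x0]) (by norm_num; linarith only [x1]) (by norm_num; linarith only [t0]) (by norm_num; linarith only [t1])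
        (by norm_num; linarith only [y0]) (by norm_num; linarith only [y1]) (by norm_num) (by norm_num)
    rw [List.mem_singleton] at he
    rw [he, gB_val, c50_val, T_val, al4_val, b3a_val] at hp
    rw [e]
    exact hp

/-- main path, not below the real axis -/
theorem fM (x0 : 60 / 100 ≤ x) (x1 : x ≤ 80 / 100) (t0 : 0 ≤ t) (t1 : t ≤ 985 / 10000) (h : PA t y s) :
    0 < RF (35 / 100) t (t * tR 800 160 290 x) (0) (pM x t) s x y := by
  cases h with
  | u S ht y0 y1 S0 S1 e =>
    obtain ⟨e', he, hp⟩ := chkF4 fm1u (by norm_num) (x := x) (y := t) (z := y) (w := S)
        (by norm_num; linarith only [x0]) (by norm_num; linarith only [x1]) (by norm_num; linarith only [t0]) (by norm_num; linarith only [ht])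
        (by norm_num; linarith only [y0]) (by norm_num; linarith only [y1]) (by norm_num; linarith only [S0]) (by norm_num; linarith only [S1])
    rw [List.mem_singleton] at he
    rw [he, gF_val, c35_val, T_val, mX_val, z0_val, phM_val, X_val, T_val, sUp_val] at hp
    rw [e]
    exact hp
  | d S ht y0 y1 S0 S1 e =>
    obtain ⟨e', he, hp⟩ := chkF4 fm1d (by norm_num) (x := x) (y := t) (z := y) (w := S)
        (by norm_num; linarith only [x0]) (by norm_num; linarith only [x1]) (by norm_num; linarith only [t0]) (by norm_num; linarith only [ht])
        (by norm_num; linarith only [y0]) (by norm_num; linarith only [y1]) (by norm_num; linarith only [S0]) (by norm_num; linarith only [S1])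
    rw [List.mem_singleton] at he
    rw [he, gF_val, c35_val, T_val, mX_val, z0_val, phM_val, X_val, T_val, sDn_val] at hp
    rw [e]
    exact hp
  | t t0' ht y0 y1 e =>
    obtain ⟨e', he, hp⟩ := chkF4 fm1t (by norm_num) (x := x) (y := t) (z := y) (w := 0)
        (by norm_num; linarith only [x0]) (by norm_num; linarith only [x1]) (by norm_num; linarith only [t0']) (by norm_num; linarith only [t1, ht])
        (by norm_num; linarith only [y0]) (by norm_num; linarith only [y1]) (by norm_num) (by norm_num)
    rw [List.mem_singleton] at he
    rw [he, gFX_val, c35_val, T_val, mX_val, z0_val, phM_val, X_val, T_val, s3a_val] at hp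
    rw [e]
    exact hp
  | h S ht y0 y1 S0 S1 e =>
    obtain ⟨e', he, hp⟩ := chkF4 fm1h (by norm_num) (x := x) (y := t) (z := y) (w := S)
        (by norm_num; linarith only [x0]) (by norm_num; linarith only [x1]) (by norm_num; linarith only [ht]) (by norm_num; linarith only [t1])
        (by norm_num; linarith only [y0]) (by norm_num; linarith only [y1]) (by norm_num; linarith only [S0]) (by norm_num; linarith only [S1])
    rw [List.mem_singleton] at he
    rw [he, gF_val, c35_val, T_val, mX_val, z0_val, phM_val, X_val, T_val, hUp_val] at hp
    rw [e]
    exact hp

/-- main path, not above the real axis -/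
theorem fM0 (x0 : 60 / 100 ≤ x) (x1 : x ≤ 80 / 100) (t0 : -(18 / 1000) ≤ t) (t1 : t ≤ 0) (h : PA t y s) :
    0 < RF (35 / 100) t (t * tR 800 160 290 x) (0) (pM0 x) s x y := by
  cases h with
  | u S ht y0 y1 S0 S1 e =>
    obtain ⟨e', he, hp⟩ := chkF4 fm0u (by norm_num) (x := x) (y := t) (z := y) (w := S)
        (by norm_num; linarith only [x0]) (by norm_num; linarith only [x1]) (by norm_num; linarith only [t0]) (by norm_num; linarith only [t1])
        (by norm_num; linarith only [y0]) (by norm_num; linarith only [y1]) (by norm_num; linarith only [S0]) (by norm_num; linarith only [S1])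
    rw [List.mem_singleton] at he
    rw [he, gF_val, c35_val, T_val, mX_val, z0_val, phM0_val, X_val, sUp_val] at hp
    rw [e]
    exact hp
  | d S ht y0 y1 S0 S1 e =>
    obtain ⟨e', he, hp⟩ := chkF4 fm0d (by norm_num) (x := x) (y := t) (z := y) (w := S)
        (by norm_num; linarith only [x0]) (by norm_num; linarith only [x1]) (by norm_num; linarith only [t0]) (by norm_num; linarith only [t1])
        (by norm_num; linarith only [y0]) (by norm_num; linarith only [y1]) (by norm_num; linarith only [S0]) (by norm_num; linarith only [S1])
    rw [List.mem_singleton] at he
    rw [he, gF_val, c35_val, T_val, mX_val, z0_val, phM0_val, X_val, sDn_val] at hp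
    rw [e]
    exact hp
  | t t0' ht y0 y1 e => linarith only [t1, t0']
  | h S ht y0 y1 S0 S1 e => linarith only [t1, ht]

/-- mirrored path, lower one -/
theorem fU2 (x0 : 4 / 100 ≤ x) (x1 : x ≤ 60 / 100) (t0 : 0 ≤ t) (t1 : t ≤ 985 / 10000) (h : PA t y s) :
    0 < RF (25 / 100) t (-aR x) (aR x) (pU x t) s x y := by
  cases h with
  | u S ht y0 y1 S0 S1 e =>
    obtain ⟨e', he, hp⟩ := chkF4 fu2u (by norm_num) (x := x) (y := t) (z := y) (w := S)
        (by norm_num; linarith only [x0]) (by norm_num; linarith only [x1]) (by norm_num; linarith only [t0]) (by norm_num; linarith only [ht])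
        (by norm_num; linarith only [y0]) (by norm_num; linarith only [y1]) (by norm_num; linarith only [S0]) (by norm_num; linarith only [S1])
    rw [List.mem_singleton] at he
    rw [he, gF_val, c25_val, T_val, uX_val, ax_val, phU_val, X_val, T_val, sUp_val] at hp
    rw [e]
    exact hp
  | d S ht y0 y1 S0 S1 e =>
    obtain ⟨e', he, hp⟩ := chkF4 fu2d (by norm_num) (x := x) (y := t) (z := y) (w := S)
        (by norm_num; linarith only [x0]) (by norm_num; linarith only [x1]) (by norm_num; linarith only [t0]) (by norm_num; linarith only [ht])
        (by norm_num; linarith only [y0]) (by norm_num; linarith only [y1]) (by norm_num; linarith only [S0]) (by norm_num; linarith only [S1])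
    rw [List.mem_singleton] at he
    rw [he, gF_val, c25_val, T_val, uX_val, ax_val, phU_val, X_val, T_val, sDn_val] at hp
    rw [e]
    exact hp
  | t t0' ht y0 y1 e =>
    obtain ⟨e', he, hp⟩ := chkF4 fu2t (by norm_num) (x := x) (y := t) (z := y) (w := 0)
        (by norm_num; linarith only [x0]) (by norm_num; linarith only [x1]) (by norm_num; linarith only [t0']) (by norm_num; linarith only [t1, ht])
        (by norm_num; linarith only [y0]) (by norm_num; linarith only [y1]) (by norm_num) (by norm_num)
    rw [List.mem_singleton] at he
    rw [he, gFX_val, c25_val, T_val, uX_val, ax_val, phU_val, X_val, T_val, s3a_val] at hp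
    rw [e]
    exact hp
  | h S ht y0 y1 S0 S1 e =>
    obtain ⟨e', he, hp⟩ := chkF4 fu2h (by norm_num) (x := x) (y := t) (z := y) (w := S)
        (by norm_num; linarith only [x0]) (by norm_num; linarith only [x1]) (by norm_num; linarith only [ht]) (by norm_num; linarith only [t1])
        (by norm_num; linarith only [y0]) (by norm_num; linarith only [y1]) (by norm_num; linarith only [S0]) (by norm_num; linarith only [S1])
    rw [List.mem_singleton] at he
    rw [he, gF_val, c25_val, T_val, uX_val, ax_val, phU_val, X_val, T_val, hUp_val] at hp
    rw [e]
    exact hp

/-- mirrored path, lower one -/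
theorem fU3 (x0 : 60 / 100 ≤ x) (x1 : x ≤ 80 / 100) (t0 : 0 ≤ t) (t1 : t ≤ 985 / 10000) (h : PA t y s) :
    0 < RF (35 / 100) t (-aR x) (aR x) (pV x t) s x y := by
  cases h with
  | u S ht y0 y1 S0 S1 e =>
    obtain ⟨e', he, hp⟩ := chkF4 fu3u (by norm_num) (x := x) (y := t) (z := y) (w := S)
        (by norm_num; linarith only [x0]) (by norm_num; linarith only [x1]) (by norm_num; linarith only [t0]) (by norm_num; linarith only [ht])
        (by norm_num; linarith only [y0]) (by norm_num; linarith only [y1]) (by norm_num; linarith only [S0]) (by norm_num; linarith only [S1])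
    rw [List.mem_singleton] at he
    rw [he, gF_val, c35_val, T_val, uX_val, ax_val, phV_val, X_val, T_val, sUp_val] at hp
    rw [e]
    exact hp
  | d S ht y0 y1 S0 S1 e =>
    obtain ⟨e', he, hp⟩ := chkF4 fu3d (by norm_num) (x := x) (y := t) (z := y) (w := S)
        (by norm_num; linarith only [x0]) (by norm_num; linarith only [x1]) (by norm_num; linarith only [t0]) (by norm_num; linarith only [ht])
        (by norm_num; linarith only [y0]) (by norm_num; linarith only [y1]) (by norm_num; linarith only [S0]) (by norm_num; linarith only [S1])
    rw [List.mem_singleton] at he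
    rw [he, gF_val, c35_val, T_val, uX_val, ax_val, phV_val, X_val, T_val, sDn_val] at hp
    rw [e]
    exact hp
  | t t0' ht y0 y1 e =>
    obtain ⟨e', he, hp⟩ := chkF4 fu3t (by norm_num) (x := x) (y := t) (z := y) (w := 0)
        (by norm_num; linarith only [x0]) (by norm_num; linarith only [x1]) (by norm_num; linarith only [t0']) (by norm_num; linarith only [t1, ht])
        (by norm_num; linarith only [y0]) (by norm_num; linarith only [y1]) (by norm_num) (by norm_num)
    rw [List.mem_singleton] at he
    rw [he, gFX_val, c35_val, T_val, uX_val, ax_val, phV_val, X_val, T_val, s3a_val] at hp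
    rw [e]
    exact hp
  | h S ht y0 y1 S0 S1 e =>
    obtain ⟨e', he, hp⟩ := chkF4 fu3h (by norm_num) (x := x) (y := t) (z := y) (w := S)
        (by norm_num; linarith only [x0]) (by norm_num; linarith only [x1]) (by norm_num; linarith only [ht]) (by norm_num; linarith only [t1])
        (by norm_num; linarith only [y0]) (by norm_num; linarith only [y1]) (by norm_num; linarith only [S0]) (by norm_num; linarith only [S1])
    rw [List.mem_singleton] at he
    rw [he, gF_val, c35_val, T_val, uX_val, ax_val, phV_val, X_val, T_val, hUp_val] at hp
    rw [e]
    exact hp

/-- mirrored path, upper one -/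
theorem fD2 (x0 : 65 / 100 ≤ x) (x1 : x ≤ 80 / 100) (t0 : -(18 / 1000) ≤ t) (t1 : t ≤ 0) (h : PA t y s) :
    0 < RF (25 / 100) t (aR x) (aR x) (pD x) s x y := by
  cases h with
  | u S ht y0 y1 S0 S1 e =>
    obtain ⟨e', he, hp⟩ := chkF4 fd2u (by norm_num) (x := x) (y := t) (z := y) (w := S)
        (by norm_num; linarith only [x0]) (by norm_num; linarith only [x1]) (by norm_num; linarith only [t0]) (by norm_num; linarith only [t1])
        (by norm_num; linarith only [y0]) (by norm_num; linarith only [y1]) (by norm_num; linarith only [S0]) (by norm_num; linarith only [S1])
    rw [List.mem_singleton] at he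
    rw [he, gF_val, c25_val, T_val, ax_val, phD_val, X_val, sUp_val] at hp
    rw [e]
    exact hp
  | d S ht y0 y1 S0 S1 e =>
    obtain ⟨e', he, hp⟩ := chkF4 fd2d (by norm_num) (x := x) (y := t) (z := y) (w := S)
        (by norm_num; linarith only [x0]) (by norm_num; linarith only [x1]) (by norm_num; linarith only [t0]) (by norm_num; linarith only [t1])
        (by norm_num; linarith only [y0]) (by norm_num; linarith only [y1]) (by norm_num; linarith only [S0]) (by norm_num; linarith only [S1])
    rw [List.mem_singleton] at he
    rw [he, gF_val, c25_val, T_val, ax_val, phD_val, X_val, sDn_val] at hp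
    rw [e]
    exact hp
  | t t0' ht y0 y1 e => linarith only [t1, t0']
  | h S ht y0 y1 S0 S1 e => linarith only [t1, ht]

end K12

end Pool.Agent.Work.NumGs

end
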