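import Pool.Agent.Work.MP_b30479_gt.TBS.G2.MJA
import Pool.Agent.Work.MP_b30479_gt.TBS.NumU.GenC
import Pool.Agent.Work.MP_b30479_gt.TBS.G2.H13A
import Pool.Agent.Work.MP_b30479_gt.TBS.G2.MJR3
import Pool.Agent.Work.MP_b30479_gt.TBS.G2.RngA
import Pool.Agent.Work.MP_b30479_gt.TBS.G2.R3P

section

/-!
# Rows: kind `1 | 2`, side of the `2`, another `1` behind it, first zone
-/

set_option deprecated.oldSectionVars true

namespace Pool.Agent.Work.NumGs

namespace K12

theorem r1m1_q1 : Pool.Agent.Work.NumIs.runE (Pool.Agent.Work.NumGs.tst [gB c12 e1 al1 wM])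
    0 0 0 1236950582 39 0 6871947675 0 6768868460 0 20615843021 0 8005819041
    45641660846800287502993988303912084533406175874737535206091431421244261867558101630453762670269545429315400809169754890874705214296747643856897604957938680462085023708001738368252093196057084000370856114816688230481496711870491269323307846973601103235380446449873607927329511699504126287414706981858334776632712990871262320634410978652873293751334850927564405815830053076947126417636556955209588798335298433296890664526598108793025715132228025846353972947177284045675748704310802616849715270234804845969609421437224725806414742553012193854783841934487147762507427742744834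
    29556705386222740687030730808118675542927235019898992263844250843354430528802134652634390198485123067074201278865072846752778243402160753536137730517221602320485959166409645107331472921435973562225065892082465553232181938077424453382192383815632950394882 = true := by
  decide +kernel

theorem r1m1_q2 : Pool.Agent.Work.NumIs.runE (Pool.Agent.Work.NumGs.tst [gB c12 e1 al1 wM])
    0 0 0 1236950582 39 0 6871947675 0 6768868460 20615843021 41231686043 0 8005819041
    29556705386222740687030730808118675542927235019898992263844250843354430528802134652634390198485123067074201278865072846752778243402160753536137730517221602320485959166409645107331472921435973562225065892082465553232181938077424453382192383815632950394882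
    0 = true := by
  decide +kernel

theorem r1m1 : chkF [gB c12 e1 al1 wM] 10000 0 0 0 180 40 0 1000 0 985 0 6000 0 1165 5842132588390436800383230502900746820275990511966404506379703221919265519047437008698081621794501814952371303573728626031962267429983698413682893434616151099146883034624222511136267929095306752047469582696536093501631579119422882473383404412620941214128697145583821814698177497536528164789082493677866851408987262831521577041204605267567781600170860918728243944426246793849232181457479290266827366186918199462002005059404557925507291536925187308333308537238692357846495834151782734956763554590055020284110005943964764903221087046785560813412331767614354913600950751071338754 = true :=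
    Pool.Agent.Work.NumIs.okB_of rfl rfl rfl rfl rfl rfl rfl rfl rfl rfl rfl rfl
    (Pool.Agent.Work.NumIs.runE_split2 rfl rfl rfl
      r1m1_q1
      r1m1_q2)

theorem r1m2_q1 : Pool.Agent.Work.NumIs.runE (Pool.Agent.Work.NumGs.tst [gB c12 e1 al1 wM, gR c12 e1 al1 wM c35 S (phM Y S)])
    0 0 0 0 39 0 3435973837 0 6768868460 41231686041 54975581390 0 6768868460
    1089305487597256907221467549468363030621342577481312918503479251413966439304692072536909693471521796316575652378415616721684876590344497899758318675524135402750151523107013416612167216237957484696583400433221368596458887489192539086639116518044778771942917693706396608233449759668851383709409565191982717822078715210712363829636060709500807467358165520415191575662942901810770272597252087914981175352120702514207137988610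
    98746751575001808477744230968671212734171814436914572617188201545052277277145073265744573413351944105528106626288009522428538065090528818387223659597254742127264698502921598480395823101570027177281339650 = true := by
  decide +kernel

theorem r1m2_q2 : Pool.Agent.Work.NumIs.runE (Pool.Agent.Work.NumGs.tst [gB c12 e1 al1 wM, gR c12 e1 al1 wM c35 S (phM Y S)])
    0 0 0 0 39 3435973837 6871947675 0 6768868460 41231686041 54975581390 0 6768868460
    98746751575001808477744230968671212734171814436914572617188201545052277277145073265744573413351944105528106626288009522428538065090528818387223659597254742127264698502921598480395823101570027177281339650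
    0 = true := by
  decide +kernel

theorem r1m2 : chkF [gB c12 e1 al1 wM, gR c12 e1 al1 wM c35 S (phM Y S)] 10000 0 0 0 0 40 0 1000 0 985 6000 8000 0 985 139431102412448884124347846331950467919531849917608053568445344180987704231000585284724440764354789928521683504437198940375664203564095731169064790467089331552019394957697717326357403678458558041162675255452335180346737598616645003089806914309731682808693464794418765853881569237612977114804424344573787881226075546971182570193415770816103355821845186613144521684856691431778594892448267253117590445071449921818513662542080 = true :=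
    Pool.Agent.Work.NumIs.okB_of rfl rfl rfl rfl rfl rfl rfl rfl rfl rfl rfl rfl
    (Pool.Agent.Work.NumIs.runE_split0 rfl rfl rfl
      r1m2_q1
      r1m2_q2)

theorem r1m3 : chkF [gB c12 e1 al1 wM, gR c12 e1 al1 wM c35 S (phM0 Y)] 10000 0 0 0 180 40 0 1000 0 985 6000 8000 0 180 189355923025269788720594629846032280040485479069214398302853485104144239073039202377398974786575774849049821184 = true := by
  decide +kernel

theorem r1u0 : chkF [gB c12 e1 al1 wU] 10000 0 0 0 0 40 0 1000 0 985 0 400 0 0 151490189065679071502925328845969061737949587571691590925418977142404651129280718488770908764803618475117379584 = true := by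
  decide +kernel

theorem r1u1 : chkF [gB c12 e1 al1 wU, gR c12 e1 al1 wU c25 S (phU Y S)] 10000 0 0 0 0 40 0 1000 0 985 400 6000 0 985 7023431397290180859850350572220928546078978 = true := by
  decide +kernel

theorem r1u2 : chkF [gB c12 e1 al1 wU, gR c12 e1 al1 wU c35 S (phV Y S)] 10000 0 0 0 0 40 0 1000 0 985 6000 8000 0 985 115073293892189407043830527815947208445717987584 = true := by
  decide +kernel

theorem r1d1 : chkF [gB c12 e1 al1 wD] 10000 0 0 0 0 40 0 1000 0 985 0 6500 0 0 1827512610925403203043997168178711452489807114292742683137149874053180421681396094775380275248215371707656892649974481865333339280596457403311763939633871564746953539621432421749472530583928604845283191321075405538557293228824260419883285594009811999469844379790512279894787224567545057479099738982371395249944161880919085586451767445219203045055201022201501080524259409042406882813101069026591653198988390237533805529226313986 = true := by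
  decide +kernel

theorem r1d2 : chkF [gB c12 e1 al1 wD, gR c12 e1 al1 wD c25 S (phD Y)] 10000 0 0 0 180 40 0 1000 0 985 6500 8000 0 180 597494700624680378508038526947043290715296367359859236775806653509539424613957632 = true := by
  decide +kernel

end K12

end Pool.Agent.Work.NumGs

end

section

/-!
# Rows: kind `1 | 2`, side of the `2`, another `1` behind it, last zones
-/

set_option deprecated.oldSectionVars true

namespace Pool.Agent.Work.NumGs

namespace K12

theorem r3m1 : chkF [gB c35 T al3 wM] 10000 0 0 0 180 40 5500 7400 0 985 0 6000 0 1165 10915857133632454154021558256164973430198931858301080424801637908028107016941175303553359197951914244389998482271561830566461698 = true := by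
  decide +kernel

theorem r3m2 : chkF [gB c35 T al3 wM, gR c35 T al3 wM c35 S (phM Y S)] 10000 0 0 0 0 40 5500 7400 0 985 6000 8000 0 985 1352744962 = true := by
  decide +kernel

theorem r3m3 : chkF [gB c35 T al3 wM, gR c35 T al3 wM c35 S (phM0 Y)] 10000 0 0 0 180 40 5500 7400 0 985 6000 8000 0 180 82562 = true := by
  decide +kernel

theorem r3u0 : chkF [gB c35 T al3 wU] 10000 0 0 0 0 40 5500 7400 0 985 0 400 0 0 66048 = true := by
  decide +kernel

theorem r3u1 : chkF [gB c35 T al3 wU, gR c35 T al3 wU c25 S (phU Y S)] 10000 0 0 0 0 40 5500 7400 0 985 400 6000 0 985 2627936805958929723006411615747101998691173343596719912067844228623959194664982062945278132482 = true := by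
  decide +kernel

theorem r3u2 : chkF [gB c35 T al3 wU, gR c35 T al3 wU c35 S (phV Y S)] 10000 0 0 0 0 40 5500 7400 0 985 6000 8000 0 985 82562 = true := by
  decide +kernel

theorem r3d1 : chkF [gB c35 T al3 wD] 10000 0 0 0 0 40 5500 7400 0 985 0 6500 0 0 564310956094617698125579706781153939841607648918179247829490551061950252398510978528902999831369220354 = true := by
  decide +kernel

theorem r3d2 : chkF [gB c35 T al3 wD, gR c35 T al3 wD c25 S (phD Y)] 10000 0 0 0 180 40 5500 7400 0 985 6500 8000 0 180 82560 = true := by
  decide +kernel

theorem r4m1 : chkF [gB c50 T al4 wM] 10000 0 0 0 180 40 7400 8000 0 985 0 6000 0 1165 211140187842649271863409707445308974702567856131070314414266821798381323943891500183831911027257012422952348612393753789188083939576962486879186761842946 = true := by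
  decide +kernel

theorem r4m2 : chkF [gB c50 T al4 wM, gR c50 T al4 wM c35 S (phM Y S)] 10000 0 0 0 0 40 7400 8000 0 985 6000 8000 0 985 82562 = true := by
  decide +kernel

theorem r4m3 : chkF [gB c50 T al4 wM, gR c50 T al4 wM c35 S (phM0 Y)] 10000 0 0 0 180 40 7400 8000 0 985 6000 8000 0 180 5 = true := by
  decide +kernel

theorem r4u0 : chkF [gB c50 T al4 wU] 10000 0 0 0 0 40 7400 8000 0 985 0 400 0 0 1082130946 = true := by
  decide +kernel

theorem r4u1 : chkF [gB c50 T al4 wU, gR c50 T al4 wU c25 S (phU Y S)] 10000 0 0 0 0 40 7400 8000 0 985 400 6000 0 985 9789471774800794194445487404778667140603085974156910530443533132074307156032870187266 = true := by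
  decide +kernel

theorem r4u2 : chkF [gB c50 T al4 wU, gR c50 T al4 wU c35 S (phV Y S)] 10000 0 0 0 0 40 7400 8000 0 985 6000 8000 0 985 5 = true := by
  decide +kernel

theorem r4d1 : chkF [gB c50 T al4 wD] 10000 0 0 0 0 40 7400 8000 0 985 0 6500 0 0 1508361393221239084433811155568814777183310207549698 = true := by
  decide +kernel

theorem r4d2 : chkF [gB c50 T al4 wD, gR c50 T al4 wD c25 S (phD Y)] 10000 0 0 0 180 40 7400 8000 0 985 6500 8000 0 180 5 = true := by
  decide +kernel

end K12

end Pool.Agent.Work.NumGs

end

section

/-!
# Mirrored paths, kind `1 | 2`: side of the `2`, a `1` behind it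
-/

namespace Pool.Agent.Work.NumGs

open MP_b30479_gtS.G2
open NumUs (uu uu_neg UU_uu)

namespace K12

variable {x t y s T p : ℝ}

/-- **Positions of the other hinge of the `2`**, a `1` behind it; `T` is the height of this hinge in
the frame of the `1`, `p` the penalty. -/
inductive PW (T y s p : ℝ) : Prop
  | main (y0 : 0 ≤ y) (y1 : y ≤ 80 / 100) (T0 : -(18 / 1000) ≤ T) (T1 : T ≤ 985 / 10000)
      (e : s = -(T * tR 800 160 290 y)) (hp : p = 0)
  | up (y0 : 0 ≤ y) (y1 : y ≤ 80 / 100) (T0 : 0 ≤ T) (T1 : T ≤ 985 / 10000) (e : s = aR y)
      (hp : p = aR y)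
  | dn (y0 : 0 ≤ y) (y1 : y ≤ 80 / 100) (T0 : -(18 / 1000) ≤ T) (T1 : T ≤ 0) (e : s = -aR y)
      (hp : p = aR y)

theorem zW1 (x0 : 0 ≤ x) (x1 : x ≤ 1 / 10) (t0 : 0 ≤ t) (t1 : t ≤ 985 / 10000)
    (h : PW T y s p) : 0 < RB (12 / 100) (3 / 4 * t) (lR al1 x t) s x y ∨ ∃ d ph : ℝ,
      (d = 25 / 100 ∨ d = 35 / 100) ∧ 0 < RR (12 / 100) (3 / 4 * t) (lR al1 x t) s d T ph x y ∧
      ∀ k s', PA T k s' → 0 < RF d T (-s) p ph s' y k := by
  cases h with
  | main y0 y1 T0 T1 e hp =>
    rcases le_total y (60 / 100) with hy | hy
    · left
      obtain ⟨e', he, hq⟩ := chkF4 r1m1 (by norm_num) (x := x) (y := t) (z := y) (w := T)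
        (by norm_num; linarith only [x0]) (by norm_num; linarith only [x1]) (by norm_num; linarith only [t0]) (by norm_num; linarith only [t1])
        (by norm_num; linarith only [y0]) (by norm_num; linarith only [hy]) (by norm_num; linarith only [T0]) (by norm_num; linarith only [T1])
      rw [List.mem_singleton] at he
      rw [he, gB_val, c12_val, e1_val, al1_val, wM_val] at hq
      rw [e]
      exact hq
    rcases le_total 0 T with hT | hT
    · obtain ⟨e', he, hq⟩ := chkF4 r1m2 (by norm_num) (x := x) (y := t) (z := y) (w := T)
        (by norm_num; linarith only [x0]) (by norm_num; linarith only [x1]) (by norm_num; linarith only [t0]) (by norm_num; linarith only [t1])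
        (by norm_num; linarith only [hy]) (by norm_num; linarith only [y1]) (by norm_num; linarith only [hT]) (by norm_num; linarith only [T1])
      rw [List.mem_cons, List.mem_singleton] at he
      rcases he with he | he
      · left
        rw [he, gB_val, c12_val, e1_val, al1_val, wM_val] at hq
        rw [e]
        exact hq
      · right
        rw [he, gR_val, c12_val, e1_val, al1_val, wM_val, c35_val, S_val, phM_val, Y_val, S_val] at hq
        refine ⟨35 / 100, pM y T, Or.inr rfl, by rw [e]; exact hq, fun k s' hk => ?_⟩
        rw [e, hp, neg_neg]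
        exact fM (by linarith only [hy]) (by linarith only [y1]) (by linarith only [hT]) (by linarith only [T1]) hk
    · obtain ⟨e', he, hq⟩ := chkF4 r1m3 (by norm_num) (x := x) (y := t) (z := y) (w := T)
        (by norm_num; linarith only [x0]) (by norm_num; linarith only [x1]) (by norm_num; linarith only [t0]) (by norm_num; linarith only [t1])
        (by norm_num; linarith only [hy]) (by norm_num; linarith only [y1]) (by norm_num; linarith only [T0]) (by norm_num; linarith only [hT])
      rw [List.mem_cons, List.mem_singleton] at he
      rcases he with he | he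
      · left
        rw [he, gB_val, c12_val, e1_val, al1_val, wM_val] at hq
        rw [e]
        exact hq
      · right
        rw [he, gR_val, c12_val, e1_val, al1_val, wM_val, c35_val, S_val, phM0_val, Y_val] at hq
        refine ⟨35 / 100, pM0 y, Or.inr rfl, by rw [e]; exact hq, fun k s' hk => ?_⟩
        rw [e, hp, neg_neg]
        exact fM0 (by linarith only [hy]) (by linarith only [y1]) (by linarith only [T0]) (by linarith only [hT]) hk
  | up y0 y1 T0 T1 e hp =>
    rcases le_total y (4 / 100) with hy | hy
    · left
      obtain ⟨e', he, hq⟩ := chkF4 r1u0 (by norm_num) (x := x) (y := t) (z := y) (w := 0)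
        (by norm_num; linarith only [x0]) (by norm_num; linarith only [x1]) (by norm_num; linarith only [t0]) (by norm_num; linarith only [t1])
        (by norm_num; linarith only [y0]) (by norm_num; linarith only [hy]) (by norm_num) (by norm_num)
      rw [List.mem_singleton] at he
      rw [he, gB_val, c12_val, e1_val, al1_val, wU_val] at hq
      rw [e]
      exact hq
    rcases le_total y (60 / 100) with hy' | hy'
    · obtain ⟨e', he, hq⟩ := chkF4 r1u1 (by norm_num) (x := x) (y := t) (z := y) (w := T)
        (by norm_num; linarith only [x0]) (by norm_num; linarith only [x1]) (by norm_num; linarith only [t0]) (by norm_num; linarith only [t1])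
        (by norm_num; linarith only [hy]) (by norm_num; linarith only [hy']) (by norm_num; linarith only [T0]) (by norm_num; linarith only [T1])
      rw [List.mem_cons, List.mem_singleton] at he
      rcases he with he | he
      · left
        rw [he, gB_val, c12_val, e1_val, al1_val, wU_val] at hq
        rw [e]
        exact hq
      · right
        rw [he, gR_val, c12_val, e1_val, al1_val, wU_val, c25_val, S_val, phU_val, Y_val, S_val] at hq
        refine ⟨25 / 100, pU y T, Or.inl rfl, by rw [e]; exact hq, fun k s' hk => ?_⟩
        rw [e, hp]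
        exact fU2 (by linarith only [hy]) (by linarith only [hy']) (by linarith only [T0]) (by linarith only [T1]) hk
    · obtain ⟨e', he, hq⟩ := chkF4 r1u2 (by norm_num) (x := x) (y := t) (z := y) (w := T)
        (by norm_num; linarith only [x0]) (by norm_num; linarith only [x1]) (by norm_num; linarith only [t0]) (by norm_num; linarith only [t1])
        (by norm_num; linarith only [hy']) (by norm_num; linarith only [y1]) (by norm_num; linarith only [T0]) (by norm_num; linarith only [T1])
      rw [List.mem_cons, List.mem_singleton] at he
      rcases he with he | he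
      · left
        rw [he, gB_val, c12_val, e1_val, al1_val, wU_val] at hq
        rw [e]
        exact hq
      · right
        rw [he, gR_val, c12_val, e1_val, al1_val, wU_val, c35_val, S_val, phV_val, Y_val, S_val] at hq
        refine ⟨35 / 100, pV y T, Or.inr rfl, by rw [e]; exact hq, fun k s' hk => ?_⟩
        rw [e, hp]
        exact fU3 (by linarith only [hy']) (by linarith only [y1]) (by linarith only [T0]) (by linarith only [T1]) hk
  | dn y0 y1 T0 T1 e hp =>
    rcases le_total y (65 / 100) with hy | hy
    · left
      obtain ⟨e', he, hq⟩ := chkF4 r1d1 (by norm_num) (x := x) (y := t) (z := y) (w := 0)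
        (by norm_num; linarith only [x0]) (by norm_num; linarith only [x1]) (by norm_num; linarith only [t0]) (by norm_num; linarith only [t1])
        (by norm_num; linarith only [y0]) (by norm_num; linarith only [hy]) (by norm_num) (by norm_num)
      rw [List.mem_singleton] at he
      rw [he, gB_val, c12_val, e1_val, al1_val, wD_val] at hq
      rw [e]
      exact hq
    · obtain ⟨e', he, hq⟩ := chkF4 r1d2 (by norm_num) (x := x) (y := t) (z := y) (w := T)
        (by norm_num; linarith only [x0]) (by norm_num; linarith only [x1]) (by norm_num; linarith only [t0]) (by norm_num; linarith only [t1])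
        (by norm_num; linarith only [hy]) (by norm_num; linarith only [y1]) (by norm_num; linarith only [T0]) (by norm_num; linarith only [T1])
      rw [List.mem_cons, List.mem_singleton] at he
      rcases he with he | he
      · left
        rw [he, gB_val, c12_val, e1_val, al1_val, wD_val] at hq
        rw [e]
        exact hq
      · right
        rw [he, gR_val, c12_val, e1_val, al1_val, wD_val, c25_val, S_val, phD_val, Y_val] at hq
        refine ⟨25 / 100, pD y, Or.inl rfl, by rw [e]; exact hq, fun k s' hk => ?_⟩
        rw [e, hp, neg_neg]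
        exact fD2 (by linarith only [hy]) (by linarith only [y1]) (by linarith only [T0]) (by linarith only [T1]) hk

theorem zW2 (x0 : 1 / 10 ≤ x) (x1 : x ≤ 55 / 100) (t0 : 0 ≤ t) (t1 : t ≤ 985 / 10000)
    (h : PW T y s p) : 0 < RB (20 / 100) (t) (lR al2 x t) s x y ∨ ∃ d ph : ℝ,
      (d = 25 / 100 ∨ d = 35 / 100) ∧ 0 < RR (20 / 100) (t) (lR al2 x t) s d T ph x y ∧
      ∀ k s', PA T k s' → 0 < RF d T (-s) p ph s' y k := by
  cases h with
  | main y0 y1 T0 T1 e hp =>
    rcases le_total y (60 / 100) with hy | hy
    · left
      obtain ⟨e', he, hq⟩ := chkF4 r2m1 (by norm_num) (x := x) (y := t) (z := y) (w := T)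
        (by norm_num; linarith only [x0]) (by norm_num; linarith only [x1]) (by norm_num; linarith only [t0]) (by norm_num; linarith only [t1])
        (by norm_num; linarith only [y0]) (by norm_num; linarith only [hy]) (by norm_num; linarith only [T0]) (by norm_num; linarith only [T1])
      rw [List.mem_singleton] at he
      rw [he, gB_val, c20_val, T_val, al2_val, wM_val] at hq
      rw [e]
      exact hq
    rcases le_total 0 T with hT | hT
    · obtain ⟨e', he, hq⟩ := chkF4 r2m2 (by norm_num) (x := x) (y := t) (z := y) (w := T)
        (by norm_num; linarith only [x0]) (by norm_num; linarith only [x1]) (by norm_num; linarith only [t0]) (by norm_num; linarith only [t1])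
        (by norm_num; linarith only [hy]) (by norm_num; linarith only [y1]) (by norm_num; linarith only [hT]) (by norm_num; linarith only [T1])
      rw [List.mem_cons, List.mem_singleton] at he
      rcases he with he | he
      · left
        rw [he, gB_val, c20_val, T_val, al2_val, wM_val] at hq
        rw [e]
        exact hq
      · right
        rw [he, gR_val, c20_val, T_val, al2_val, wM_val, c35_val, S_val, phM_val, Y_val, S_val] at hq
        refine ⟨35 / 100, pM y T, Or.inr rfl, by rw [e]; exact hq, fun k s' hk => ?_⟩
        rw [e, hp, neg_neg]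
        exact fM (by linarith only [hy]) (by linarith only [y1]) (by linarith only [hT]) (by linarith only [T1]) hk
    · obtain ⟨e', he, hq⟩ := chkF4 r2m3 (by norm_num) (x := x) (y := t) (z := y) (w := T)
        (by norm_num; linarith only [x0]) (by norm_num; linarith only [x1]) (by norm_num; linarith only [t0]) (by norm_num; linarith only [t1])
        (by norm_num; linarith only [hy]) (by norm_num; linarith only [y1]) (by norm_num; linarith only [T0]) (by norm_num; linarith only [hT])
      rw [List.mem_cons, List.mem_singleton] at he
      rcases he with he | he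
      · left
        rw [he, gB_val, c20_val, T_val, al2_val, wM_val] at hq
        rw [e]
        exact hq
      · right
        rw [he, gR_val, c20_val, T_val, al2_val, wM_val, c35_val, S_val, phM0_val, Y_val] at hq
        refine ⟨35 / 100, pM0 y, Or.inr rfl, by rw [e]; exact hq, fun k s' hk => ?_⟩
        rw [e, hp, neg_neg]
        exact fM0 (by linarith only [hy]) (by linarith only [y1]) (by linarith only [T0]) (by linarith only [hT]) hk
  | up y0 y1 T0 T1 e hp =>
    rcases le_total y (4 / 100) with hy | hy
    · left
      obtain ⟨e', he, hq⟩ := chkF4 r2u0 (by norm_num) (x := x) (y := t) (z := y) (w := 0)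
        (by norm_num; linarith only [x0]) (by norm_num; linarith only [x1]) (by norm_num; linarith only [t0]) (by norm_num; linarith only [t1])
        (by norm_num; linarith only [y0]) (by norm_num; linarith only [hy]) (by norm_num) (by norm_num)
      rw [List.mem_singleton] at he
      rw [he, gB_val, c20_val, T_val, al2_val, wU_val] at hq
      rw [e]
      exact hq
    rcases le_total y (60 / 100) with hy' | hy'
    · obtain ⟨e', he, hq⟩ := chkF4 r2u1 (by norm_num) (x := x) (y := t) (z := y) (w := T)
        (by norm_num; linarith only [x0]) (by norm_num; linarith only [x1]) (by norm_num; linarith only [t0]) (by norm_num; linarith only [t1])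
        (by norm_num; linarith only [hy]) (by norm_num; linarith only [hy']) (by norm_num; linarith only [T0]) (by norm_num; linarith only [T1])
      rw [List.mem_cons, List.mem_singleton] at he
      rcases he with he | he
      · left
        rw [he, gB_val, c20_val, T_val, al2_val, wU_val] at hq
        rw [e]
        exact hq
      · right
        rw [he, gR_val, c20_val, T_val, al2_val, wU_val, c25_val, S_val, phU_val, Y_val, S_val] at hq
        refine ⟨25 / 100, pU y T, Or.inl rfl, by rw [e]; exact hq, fun k s' hk => ?_⟩
        rw [e, hp]
        exact fU2 (by linarith only [hy]) (by linarith only [hy']) (by linarith only [T0]) (by linarith only [T1]) hk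
    · obtain ⟨e', he, hq⟩ := chkF4 r2u2 (by norm_num) (x := x) (y := t) (z := y) (w := T)
        (by norm_num; linarith only [x0]) (by norm_num; linarith only [x1]) (by norm_num; linarith only [t0]) (by norm_num; linarith only [t1])
        (by norm_num; linarith only [hy']) (by norm_num; linarith only [y1]) (by norm_num; linarith only [T0]) (by norm_num; linarith only [T1])
      rw [List.mem_cons, List.mem_singleton] at he
      rcases he with he | he
      · left
        rw [he, gB_val, c20_val, T_val, al2_val, wU_val] at hq
        rw [e]
        exact hq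
      · right
        rw [he, gR_val, c20_val, T_val, al2_val, wU_val, c35_val, S_val, phV_val, Y_val, S_val] at hq
        refine ⟨35 / 100, pV y T, Or.inr rfl, by rw [e]; exact hq, fun k s' hk => ?_⟩
        rw [e, hp]
        exact fU3 (by linarith only [hy']) (by linarith only [y1]) (by linarith only [T0]) (by linarith only [T1]) hk
  | dn y0 y1 T0 T1 e hp =>
    rcases le_total y (65 / 100) with hy | hy
    · left
      obtain ⟨e', he, hq⟩ := chkF4 r2d1 (by norm_num) (x := x) (y := t) (z := y) (w := 0)
        (by norm_num; linarith only [x0]) (by norm_num; linarith only [x1]) (by norm_num; linarith only [t0]) (by norm_num; linarith only [t1])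
        (by norm_num; linarith only [y0]) (by norm_num; linarith only [hy]) (by norm_num) (by norm_num)
      rw [List.mem_singleton] at he
      rw [he, gB_val, c20_val, T_val, al2_val, wD_val] at hq
      rw [e]
      exact hq
    · obtain ⟨e', he, hq⟩ := chkF4 r2d2 (by norm_num) (x := x) (y := t) (z := y) (w := T)
        (by norm_num; linarith only [x0]) (by norm_num; linarith only [x1]) (by norm_num; linarith only [t0]) (by norm_num; linarith only [t1])
        (by norm_num; linarith only [hy]) (by norm_num; linarith only [y1]) (by norm_num; linarith only [T0]) (by norm_num; linarith only [T1])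
      rw [List.mem_cons, List.mem_singleton] at he
      rcases he with he | he
      · left
        rw [he, gB_val, c20_val, T_val, al2_val, wD_val] at hq
        rw [e]
        exact hq
      · right
        rw [he, gR_val, c20_val, T_val, al2_val, wD_val, c25_val, S_val, phD_val, Y_val] at hq
        refine ⟨25 / 100, pD y, Or.inl rfl, by rw [e]; exact hq, fun k s' hk => ?_⟩
        rw [e, hp, neg_neg]
        exact fD2 (by linarith only [hy]) (by linarith only [y1]) (by linarith only [T0]) (by linarith only [T1]) hk

theorem zW3 (x0 : 55 / 100 ≤ x) (x1 : x ≤ 74 / 100) (t0 : 0 ≤ t) (t1 : t ≤ 985 / 10000)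
    (h : PW T y s p) : 0 < RB (35 / 100) (t) (lR al3 x t) s x y ∨ ∃ d ph : ℝ,
      (d = 25 / 100 ∨ d = 35 / 100) ∧ 0 < RR (35 / 100) (t) (lR al3 x t) s d T ph x y ∧
      ∀ k s', PA T k s' → 0 < RF d T (-s) p ph s' y k := by
  cases h with
  | main y0 y1 T0 T1 e hp =>
    rcases le_total y (60 / 100) with hy | hy
    · left
      obtain ⟨e', he, hq⟩ := chkF4 r3m1 (by norm_num) (x := x) (y := t) (z := y) (w := T)
        (by norm_num; linarith only [x0]) (by norm_num; linarith only [x1]) (by norm_num; linarith only [t0]) (by norm_num; linarith only [t1])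
        (by norm_num; linarith only [y0]) (by norm_num; linarith only [hy]) (by norm_num; linarith only [T0]) (by norm_num; linarith only [T1])
      rw [List.mem_singleton] at he
      rw [he, gB_val, c35_val, T_val, al3_val, wM_val] at hq
      rw [e]
      exact hq
    rcases le_total 0 T with hT | hT
    · obtain ⟨e', he, hq⟩ := chkF4 r3m2 (by norm_num) (x := x) (y := t) (z := y) (w := T)
        (by norm_num; linarith only [x0]) (by norm_num; linarith only [x1]) (by norm_num; linarith only [t0]) (by norm_num; linarith only [t1])
        (by norm_num; linarith only [hy]) (by norm_num; linarith only [y1]) (by norm_num; linarith only [hT]) (by norm_num; linarith only [T1])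
      rw [List.mem_cons, List.mem_singleton] at he
      rcases he with he | he
      · left
        rw [he, gB_val, c35_val, T_val, al3_val, wM_val] at hq
        rw [e]
        exact hq
      · right
        rw [he, gR_val, c35_val, T_val, al3_val, wM_val, S_val, phM_val, Y_val, S_val] at hq
        refine ⟨35 / 100, pM y T, Or.inr rfl, by rw [e]; exact hq, fun k s' hk => ?_⟩
        rw [e, hp, neg_neg]
        exact fM (by linarith only [hy]) (by linarith only [y1]) (by linarith only [hT]) (by linarith only [T1]) hk
    · obtain ⟨e', he, hq⟩ := chkF4 r3m3 (by norm_num) (x := x) (y := t) (z := y) (w := T)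
        (by norm_num; linarith only [x0]) (by norm_num; linarith only [x1]) (by norm_num; linarith only [t0]) (by norm_num; linarith only [t1])
        (by norm_num; linarith only [hy]) (by norm_num; linarith only [y1]) (by norm_num; linarith only [T0]) (by norm_num; linarith only [hT])
      rw [List.mem_cons, List.mem_singleton] at he
      rcases he with he | he
      · left
        rw [he, gB_val, c35_val, T_val, al3_val, wM_val] at hq
        rw [e]
        exact hq
      · right
        rw [he, gR_val, c35_val, T_val, al3_val, wM_val, S_val, phM0_val, Y_val] at hq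
        refine ⟨35 / 100, pM0 y, Or.inr rfl, by rw [e]; exact hq, fun k s' hk => ?_⟩
        rw [e, hp, neg_neg]
        exact fM0 (by linarith only [hy]) (by linarith only [y1]) (by linarith only [T0]) (by linarith only [hT]) hk
  | up y0 y1 T0 T1 e hp =>
    rcases le_total y (4 / 100) with hy | hy
    · left
      obtain ⟨e', he, hq⟩ := chkF4 r3u0 (by norm_num) (x := x) (y := t) (z := y) (w := 0)
        (by norm_num; linarith only [x0]) (by norm_num; linarith only [x1]) (by norm_num; linarith only [t0]) (by norm_num; linarith only [t1])
        (by norm_num; linarith only [y0]) (by norm_num; linarith only [hy]) (by norm_num) (by norm_num)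
      rw [List.mem_singleton] at he
      rw [he, gB_val, c35_val, T_val, al3_val, wU_val] at hq
      rw [e]
      exact hq
    rcases le_total y (60 / 100) with hy' | hy'
    · obtain ⟨e', he, hq⟩ := chkF4 r3u1 (by norm_num) (x := x) (y := t) (z := y) (w := T)
        (by norm_num; linarith only [x0]) (by norm_num; linarith only [x1]) (by norm_num; linarith only [t0]) (by norm_num; linarith only [t1])
        (by norm_num; linarith only [hy]) (by norm_num; linarith only [hy']) (by norm_num; linarith only [T0]) (by norm_num; linarith only [T1])
      rw [List.mem_cons, List.mem_singleton] at he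
      rcases he with he | he
      · left
        rw [he, gB_val, c35_val, T_val, al3_val, wU_val] at hq
        rw [e]
        exact hq
      · right
        rw [he, gR_val, c35_val, T_val, al3_val, wU_val, c25_val, S_val, phU_val, Y_val, S_val] at hq
        refine ⟨25 / 100, pU y T, Or.inl rfl, by rw [e]; exact hq, fun k s' hk => ?_⟩
        rw [e, hp]
        exact fU2 (by linarith only [hy]) (by linarith only [hy']) (by linarith only [T0]) (by linarith only [T1]) hk
    · obtain ⟨e', he, hq⟩ := chkF4 r3u2 (by norm_num) (x := x) (y := t) (z := y) (w := T)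
        (by norm_num; linarith only [x0]) (by norm_num; linarith only [x1]) (by norm_num; linarith only [t0]) (by norm_num; linarith only [t1])
        (by norm_num; linarith only [hy']) (by norm_num; linarith only [y1]) (by norm_num; linarith only [T0]) (by norm_num; linarith only [T1])
      rw [List.mem_cons, List.mem_singleton] at he
      rcases he with he | he
      · left
        rw [he, gB_val, c35_val, T_val, al3_val, wU_val] at hq
        rw [e]
        exact hq
      · right
        rw [he, gR_val, c35_val, T_val, al3_val, wU_val, S_val, phV_val, Y_val, S_val] at hq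
        refine ⟨35 / 100, pV y T, Or.inr rfl, by rw [e]; exact hq, fun k s' hk => ?_⟩
        rw [e, hp]
        exact fU3 (by linarith only [hy']) (by linarith only [y1]) (by linarith only [T0]) (by linarith only [T1]) hk
  | dn y0 y1 T0 T1 e hp =>
    rcases le_total y (65 / 100) with hy | hy
    · left
      obtain ⟨e', he, hq⟩ := chkF4 r3d1 (by norm_num) (x := x) (y := t) (z := y) (w := 0)
        (by norm_num; linarith only [x0]) (by norm_num; linarith only [x1]) (by norm_num; linarith only [t0]) (by norm_num; linarith only [t1])
        (by norm_num; linarith only [y0]) (by norm_num; linarith only [hy]) (by norm_num) (by norm_num)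
      rw [List.mem_singleton] at he
      rw [he, gB_val, c35_val, T_val, al3_val, wD_val] at hq
      rw [e]
      exact hq
    · obtain ⟨e', he, hq⟩ := chkF4 r3d2 (by norm_num) (x := x) (y := t) (z := y) (w := T)
        (by norm_num; linarith only [x0]) (by norm_num; linarith only [x1]) (by norm_num; linarith only [t0]) (by norm_num; linarith only [t1])
        (by norm_num; linarith only [hy]) (by norm_num; linarith only [y1]) (by norm_num; linarith only [T0]) (by norm_num; linarith only [T1])
      rw [List.mem_cons, List.mem_singleton] at he
      rcases he with he | he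
      · left
        rw [he, gB_val, c35_val, T_val, al3_val, wD_val] at hq
        rw [e]
        exact hq
      · right
        rw [he, gR_val, c35_val, T_val, al3_val, wD_val, c25_val, S_val, phD_val, Y_val] at hq
        refine ⟨25 / 100, pD y, Or.inl rfl, by rw [e]; exact hq, fun k s' hk => ?_⟩
        rw [e, hp, neg_neg]
        exact fD2 (by linarith only [hy]) (by linarith only [y1]) (by linarith only [T0]) (by linarith only [T1]) hk

theorem zW4 (x0 : 74 / 100 ≤ x) (x1 : x ≤ 80 / 100) (t0 : 0 ≤ t) (t1 : t ≤ 985 / 10000)
    (h : PW T y s p) : 0 < RB (50 / 100) (t) (lR al4 x t) s x y ∨ ∃ d ph : ℝ,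
      (d = 25 / 100 ∨ d = 35 / 100) ∧ 0 < RR (50 / 100) (t) (lR al4 x t) s d T ph x y ∧
      ∀ k s', PA T k s' → 0 < RF d T (-s) p ph s' y k := by
  cases h with
  | main y0 y1 T0 T1 e hp =>
    rcases le_total y (60 / 100) with hy | hy
    · left
      obtain ⟨e', he, hq⟩ := chkF4 r4m1 (by norm_num) (x := x) (y := t) (z := y) (w := T)
        (by norm_num; linarith only [x0]) (by norm_num; linarith only [x1]) (by norm_num; linarith only [t0]) (by norm_num; linarith only [t1])
        (by norm_num; linarith only [y0]) (by norm_num; linarith only [hy]) (by norm_num; linarith only [T0]) (by norm_num; linarith only [T1])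
      rw [List.mem_singleton] at he
      rw [he, gB_val, c50_val, T_val, al4_val, wM_val] at hq
      rw [e]
      exact hq
    rcases le_total 0 T with hT | hT
    · obtain ⟨e', he, hq⟩ := chkF4 r4m2 (by norm_num) (x := x) (y := t) (z := y) (w := T)
        (by norm_num; linarith only [x0]) (by norm_num; linarith only [x1]) (by norm_num; linarith only [t0]) (by norm_num; linarith only [t1])
        (by norm_num; linarith only [hy]) (by norm_num; linarith only [y1]) (by norm_num; linarith only [hT]) (by norm_num; linarith only [T1])
      rw [List.mem_cons, List.mem_singleton] at he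
      rcases he with he | he
      · left
        rw [he, gB_val, c50_val, T_val, al4_val, wM_val] at hq
        rw [e]
        exact hq
      · right
        rw [he, gR_val, c50_val, T_val, al4_val, wM_val, c35_val, S_val, phM_val, Y_val, S_val] at hq
        refine ⟨35 / 100, pM y T, Or.inr rfl, by rw [e]; exact hq, fun k s' hk => ?_⟩
        rw [e, hp, neg_neg]
        exact fM (by linarith only [hy]) (by linarith only [y1]) (by linarith only [hT]) (by linarith only [T1]) hk
    · obtain ⟨e', he, hq⟩ := chkF4 r4m3 (by norm_num) (x := x) (y := t) (z := y) (w := T)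
        (by norm_num; linarith only [x0]) (by norm_num; linarith only [x1]) (by norm_num; linarith only [t0]) (by norm_num; linarith only [t1])
        (by norm_num; linarith only [hy]) (by norm_num; linarith only [y1]) (by norm_num; linarith only [T0]) (by norm_num; linarith only [hT])
      rw [List.mem_cons, List.mem_singleton] at he
      rcases he with he | he
      · left
        rw [he, gB_val, c50_val, T_val, al4_val, wM_val] at hq
        rw [e]
        exact hq
      · right
        rw [he, gR_val, c50_val, T_val, al4_val, wM_val, c35_val, S_val, phM0_val, Y_val] at hq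
        refine ⟨35 / 100, pM0 y, Or.inr rfl, by rw [e]; exact hq, fun k s' hk => ?_⟩
        rw [e, hp, neg_neg]
        exact fM0 (by linarith only [hy]) (by linarith only [y1]) (by linarith only [T0]) (by linarith only [hT]) hk
  | up y0 y1 T0 T1 e hp =>
    rcases le_total y (4 / 100) with hy | hy
    · left
      obtain ⟨e', he, hq⟩ := chkF4 r4u0 (by norm_num) (x := x) (y := t) (z := y) (w := 0)
        (by norm_num; linarith only [x0]) (by norm_num; linarith only [x1]) (by norm_num; linarith only [t0]) (by norm_num; linarith only [t1])
        (by norm_num; linarith only [y0]) (by norm_num; linarith only [hy]) (by norm_num) (by norm_num)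
      rw [List.mem_singleton] at he
      rw [he, gB_val, c50_val, T_val, al4_val, wU_val] at hq
      rw [e]
      exact hq
    rcases le_total y (60 / 100) with hy' | hy'
    · obtain ⟨e', he, hq⟩ := chkF4 r4u1 (by norm_num) (x := x) (y := t) (z := y) (w := T)
        (by norm_num; linarith only [x0]) (by norm_num; linarith only [x1]) (by norm_num; linarith only [t0]) (by norm_num; linarith only [t1])
        (by norm_num; linarith only [hy]) (by norm_num; linarith only [hy']) (by norm_num; linarith only [T0]) (by norm_num; linarith only [T1])
      rw [List.mem_cons, List.mem_singleton] at he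
      rcases he with he | he
      · left
        rw [he, gB_val, c50_val, T_val, al4_val, wU_val] at hq
        rw [e]
        exact hq
      · right
        rw [he, gR_val, c50_val, T_val, al4_val, wU_val, c25_val, S_val, phU_val, Y_val, S_val] at hq
        refine ⟨25 / 100, pU y T, Or.inl rfl, by rw [e]; exact hq, fun k s' hk => ?_⟩
        rw [e, hp]
        exact fU2 (by linarith only [hy]) (by linarith only [hy']) (by linarith only [T0]) (by linarith only [T1]) hk
    · obtain ⟨e', he, hq⟩ := chkF4 r4u2 (by norm_num) (x := x) (y := t) (z := y) (w := T)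
        (by norm_num; linarith only [x0]) (by norm_num; linarith only [x1]) (by norm_num; linarith only [t0]) (by norm_num; linarith only [t1])
        (by norm_num; linarith only [hy']) (by norm_num; linarith only [y1]) (by norm_num; linarith only [T0]) (by norm_num; linarith only [T1])
      rw [List.mem_cons, List.mem_singleton] at he
      rcases he with he | he
      · left
        rw [he, gB_val, c50_val, T_val, al4_val, wU_val] at hq
        rw [e]
        exact hq
      · right
        rw [he, gR_val, c50_val, T_val, al4_val, wU_val, c35_val, S_val, phV_val, Y_val, S_val] at hq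
        refine ⟨35 / 100, pV y T, Or.inr rfl, by rw [e]; exact hq, fun k s' hk => ?_⟩
        rw [e, hp]
        exact fU3 (by linarith only [hy']) (by linarith only [y1]) (by linarith only [T0]) (by linarith only [T1]) hk
  | dn y0 y1 T0 T1 e hp =>
    rcases le_total y (65 / 100) with hy | hy
    · left
      obtain ⟨e', he, hq⟩ := chkF4 r4d1 (by norm_num) (x := x) (y := t) (z := y) (w := 0)
        (by norm_num; linarith only [x0]) (by norm_num; linarith only [x1]) (by norm_num; linarith only [t0]) (by norm_num; linarith only [t1])
        (by norm_num; linarith only [y0]) (by norm_num; linarith only [hy]) (by norm_num) (by norm_num)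
      rw [List.mem_singleton] at he
      rw [he, gB_val, c50_val, T_val, al4_val, wD_val] at hq
      rw [e]
      exact hq
    · obtain ⟨e', he, hq⟩ := chkF4 r4d2 (by norm_num) (x := x) (y := t) (z := y) (w := T)
        (by norm_num; linarith only [x0]) (by norm_num; linarith only [x1]) (by norm_num; linarith only [t0]) (by norm_num; linarith only [t1])
        (by norm_num; linarith only [hy]) (by norm_num; linarith only [y1]) (by norm_num; linarith only [T0]) (by norm_num; linarith only [T1])
      rw [List.mem_cons, List.mem_singleton] at he
      rcases he with he | he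
      · left
        rw [he, gB_val, c50_val, T_val, al4_val, wD_val] at hq
        rw [e]
        exact hq
      · right
        rw [he, gR_val, c50_val, T_val, al4_val, wD_val, c25_val, S_val, phD_val, Y_val] at hq
        refine ⟨25 / 100, pD y, Or.inl rfl, by rw [e]; exact hq, fun k s' hk => ?_⟩
        rw [e, hp, neg_neg]
        exact fD2 (by linarith only [hy]) (by linarith only [y1]) (by linarith only [T0]) (by linarith only [T1]) hk

end K12

end Pool.Agent.Work.NumGs

end

section

/-!
# Mirrored paths, kind `1 | 2`: the point above the mirrored one as target; existence of a target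
-/

namespace Pool.Agent.Work.NumGs

open MP_b30479_gtS.G2 MP_b30479_gtS.VOL
open NumUs (uu uu_neg UU_uu)

namespace K12

theorem uu_lip {X : ℝ} (h0 : 0 ≤ X) (h1 : X ≤ 1) (t t' : ℝ) :
    |uu X t - uu X t'| ≤ Real.pi / 2 * |t - t'| := by
  have hp := Real.pi_pos
  rcases h0.eq_or_lt with h0 | h0
  · rw [← h0, NumXs.uu_zero_left, NumXs.uu_zero_left]
    have e : -(Real.pi * |t| / 2) - -(Real.pi * |t'| / 2) = -(Real.pi / 2 * (|t| - |t'|)) := by ring
    rw [e, abs_neg, abs_mul, abs_of_pos (by positivity : 0 < Real.pi / 2)]
    exact mul_le_mul_of_nonneg_left (abs_abs_sub_abs_le _ _) (by positivity)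
  rcases h1.eq_or_lt with h1 | h1
  · have e1 : ∀ t, uu X t = Real.pi / 2 * |t| := by
      intro t
      rw [h1, NumXs.uu_sub_one, sub_self, NumXs.uu_zero_left]
      ring
    rw [e1, e1, ← mul_sub, abs_mul, abs_of_pos (by positivity : 0 < Real.pi / 2)]
    exact mul_le_mul_of_nonneg_left (abs_abs_sub_abs_le _ _) (by positivity)
  · have hd : ∀ t, HasDerivAt (fun y => uu X y) (YY ⟨X, t⟩) t := fun t =>
      hasDerivAt_uu_y (Or.inr ⟨h0, h1⟩)
    have h2 := Convex.norm_image_sub_le_of_norm_hasDerivWithin_le (f := fun y => uu X y)
      (f' := fun t => YY ⟨X, t⟩) (C := Real.pi / 2) (s := Set.univ)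
      (fun t _ => (hd t).hasDerivWithinAt) (fun t _ => NumXs.abs_yy_le h0.le h1.le) convex_univ
      (Set.mem_univ t') (Set.mem_univ t)
    exact h2

theorem uu_mono {x t t' : ℝ} (h0 : 1 / 2 ≤ x) (h1 : x < 1) (ht : 0 ≤ t) (h : t ≤ t') :
    uu x t ≤ uu x t' := by
  have hd : ∀ t, HasDerivAt (fun y => uu x y) (YY ⟨x, t⟩) t := fun t =>
    hasDerivAt_uu_y (Or.inr ⟨by linarith only [h0, h1], h1⟩)
  have hm : MonotoneOn (fun y => uu x y) (Set.Ici 0) := by
    apply monotoneOn_of_deriv_nonneg (convex_Ici 0)
    · exact fun t _ => (hd t).continuousAt.continuousWithinAt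
    · exact fun t _ => (hd t).differentiableAt.differentiableWithinAt
    · intro t ht
      rw [(hd t).deriv]
      rw [interior_Ici] at ht
      exact MR.YY_nonneg h0 (le_of_lt ht)
  exact hm ht (ht.trans h) h

/-- **Target above the mirrored point.** -/
theorem flip {x a e y s y2 s2 : ℝ} (x0 : 78 / 100 ≤ x) (x1 : x < 80 / 100) (y0 : 40 / 100 ≤ y)
    (y1 : y ≤ 78 / 100) (v0 : 0 ≤ y2) (v1 : y2 ≤ 80 / 100) (e0 : 0 ≤ e) (ha : 2 * e ≤ a)
    (a0 : 0 < a) (hs : a ≤ s) :
    0 < V1 ⟨x, e⟩ ⟨y, s⟩ - V1 ⟨x, -a⟩ ⟨y, s⟩ + (V2 ⟨x, -e⟩ ⟨y2, s2⟩ - V2 ⟨x, a⟩ ⟨y2, s2⟩) +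
      2 * Real.pi * a := by
  have hp := Real.pi_pos
  have e1 : V1 ⟨x, e⟩ ⟨y, s⟩ - V1 ⟨x, -a⟩ ⟨y, s⟩ = uu (x + y) (e + s) - uu (x + y) (s - a) +
      Real.pi * ((y - 1) * (e + a)) + (uu x a - uu x e) := by
    unfold MP_b30479_gtS.G2.V1
    simp only [UU_uu, Complex.add_re, Complex.add_im, Complex.sub_im, Complex.mul_im]
    rw [uu_neg x a, show -a + s = s - a by ring]
    ring
  have e2 : V2 ⟨x, -e⟩ ⟨y2, s2⟩ - V2 ⟨x, a⟩ ⟨y2, s2⟩ = uu (x + y2) (s2 - e) - uu (x + y2) (s2 + a) +
      Real.pi * ((x - y2 + 1 / 2) * (e + a)) + 2 * (uu x a - uu x e) := by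
    unfold MP_b30479_gtS.G2.V2
    simp only [UU_uu, Complex.add_re, Complex.add_im, Complex.sub_im, Complex.sub_re,
      Complex.mul_im, pow_two]
    rw [uu_neg x e, show -e + s2 = s2 - e by ring, add_comm a s2]
    ring
  have h1 : Real.pi / 2 * (e + a) ≤ uu (x + y) (e + s) - uu (x + y) (s - a) := by
    rw [NumXs.uu_sub_one (x + y) (e + s), NumXs.uu_sub_one (x + y) (s - a),
      abs_of_nonneg (by linarith only [e0, a0, hs] : 0 ≤ e + s), abs_of_nonneg (by linarith only [hs] : 0 ≤ s - a)]
    have h2 := uu_lip (X := x + y - 1) (by linarith only [x0, x1, y0]) (by linarith only [x0, x1, y1]) (e + s) (s - a)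
    rw [show e + s - (s - a) = e + a by ring, abs_of_nonneg (by linarith only [e0, a0] : 0 ≤ e + a)] at h2
    have h3 := (abs_le.1 h2).1
    nlinarith only [h3]
  have h2 : -(3 / 2 * Real.pi * (e + a)) ≤ uu (x + y2) (s2 - e) - uu (x + y2) (s2 + a) := by
    have hea : |s2 - e - (s2 + a)| = e + a := by
      rw [show s2 - e - (s2 + a) = -(e + a) by ring, abs_neg, abs_of_nonneg (by linarith only [e0, a0])]
    rcases le_total (x + y2) 1 with h | h
    · have h3 := uu_lip (X := x + y2) (by linarith only [x0, x1, v0]) h (s2 - e) (s2 + a)
      rw [hea] at h3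
      have h4 := (abs_le.1 h3).1
      have h5 : 0 ≤ Real.pi * (e + a) := by positivity
      linarith only [h4, h5]
    · rw [NumXs.uu_sub_one (x + y2) (s2 - e), NumXs.uu_sub_one (x + y2) (s2 + a)]
      have h3 := uu_lip (X := x + y2 - 1) (by linarith only [h]) (by linarith only [x0, x1, v1]) (s2 - e) (s2 + a)
      rw [hea] at h3
      have h4 := (abs_le.1 h3).1
      have h5 := abs_sub_abs_le_abs_sub (s2 + a) (s2 - e)
      rw [abs_sub_comm (s2 + a) (s2 - e), hea] at h5
      have h6 := mul_le_mul_of_nonneg_left h5 hp.le
      linarith only [h4, h6]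
  have h3 := uu_mono (x := x) (by linarith only [x0, x1]) (by linarith only [x0, x1]) e0 (by linarith only [ha, a0] : e ≤ a)
  rw [e1, e2]
  have h4 : 0 ≤ (y + x - y2 - 38 / 100) * (e + a) := mul_nonneg (by linarith only [x0, y0, v1]) (by linarith only [e0, a0])
  have h5 := mul_nonneg hp.le h4
  have h6 : 0 ≤ Real.pi * (a - 2 * e) := mul_nonneg hp.le (by linarith only [ha])
  have h7 : 0 < Real.pi * a := mul_pos hp a0
  nlinarith only [h1, h2, h3, h5, h6, h7]

/-! ### existence of a target -/

/-- **Position of the other hinge of the `2`** and what is gained behind it: `F d T ph`, the hinge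
moved to `d - i T`, gain at least `ph`. -/
def K2 (F : ℝ → ℝ → ℝ → Prop) (y s : ℝ) : Prop :=
  PB y s ∨ ∃ T p, PW T y s p ∧ ∀ d ph, (d = 25 / 100 ∨ d = 35 / 100) →
    (∀ k s', PA T k s' → 0 < RF d T (-s) p ph s' y k) → F d T ph

/-- the sum of the gains is positive -/
def Pos (F : ℝ → ℝ → ℝ → Prop) (c e x y s y2 s2 : ℝ) : Prop :=
  0 < V1 ⟨c, e⟩ ⟨y, s⟩ - V1 ⟨x, -aR x⟩ ⟨y, s⟩ + (V2 ⟨c, -e⟩ ⟨y2, s2⟩ - V2 ⟨x, aR x⟩ ⟨y2, s2⟩) +
      2 * Real.pi * aR x ∨
    ∃ d T ph, F d T ph ∧ 0 < V1 ⟨c, e⟩ ⟨y, s⟩ - V1 ⟨x, -aR x⟩ ⟨y, s⟩ +
      (V2 ⟨c, -e⟩ ⟨d, -T⟩ - V2 ⟨x, aR x⟩ ⟨y2, s2⟩ + ph) + 2 * Real.pi * aR x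

variable {F : ℝ → ℝ → ℝ → Prop} {c e l x t y s y2 s2 : ℝ}

theorem Pos.of (hA : 0 < RA c e l s x y) (h : 0 < RB c e l s2 x y2 ∨ ∃ d T ph, F d T ph ∧
    0 < RR c e l s2 d T ph x y2) : Pos F c e x y s y2 s2 := by
  rcases h with h | ⟨d, T, ph, hF, h⟩
  · left
    rw [V1_A c e l s x y, V2_B c e l s2 x y2]
    linarith only [hA, h]
  · right
    refine ⟨d, T, ph, hF, ?_⟩
    rw [V1_A c e l s x y, V2_R c e l s2 d T ph x y2]
    linarith only [hA, h]

theorem K2.zone (h : K2 F y2 s2) (hB : PB y2 s2 → 0 < RB c e l s2 x y2)
    (hW : ∀ T p, PW T y2 s2 p → 0 < RB c e l s2 x y2 ∨ ∃ d ph : ℝ,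
      (d = 25 / 100 ∨ d = 35 / 100) ∧ 0 < RR c e l s2 d T ph x y2 ∧
      ∀ k s', PA T k s' → 0 < RF d T (-s2) p ph s' y2 k) :
    0 < RB c e l s2 x y2 ∨ ∃ d T ph, F d T ph ∧ 0 < RR c e l s2 d T ph x y2 := by
  rcases h with h | ⟨T, p, h, hf⟩
  · exact Or.inl (hB h)
  · rcases hW T p h with h1 | ⟨d, ph, hd, h1, h2⟩
    · exact Or.inl h1
    · exact Or.inr ⟨d, T, ph, hf d ph hd h2, h1⟩

theorem K2.re (h : K2 F y2 s2) : 0 ≤ y2 ∧ y2 ≤ 80 / 100 := by
  rcases h with h | ⟨T, p, h, -⟩
  · cases h <;> constructor <;> linarith
  · cases h <;> constructor <;> linarith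

theorem tR_one {y : ℝ} (h0 : 16 / 100 ≤ y) (h1 : y ≤ 51 / 100) : tR 800 160 290 y = 1 := by
  unfold tR MP_b30479_gtS.G2.tr
  have h2 : 1 ≤ (y - 0) / (((160 : ℕ) : ℝ) / 1000) := by
    rw [le_div_iff₀ (by norm_num)]
    norm_num
    linarith only [h0]
  have h3 : 1 ≤ (((800 : ℤ) : ℝ) / 1000 - y) / (((290 : ℕ) : ℝ) / 1000) := by
    rw [le_div_iff₀ (by norm_num)]
    norm_num
    linarith only [h1]
  rw [min_eq_left (le_min h2 h3), max_eq_right zero_le_one]

theorem tR_12 : tR 800 160 290 (12 / 100) = 3 / 4 := by
  unfold tR MP_b30479_gtS.G2.tr
  norm_num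

/-- **Existence of a target.** -/
theorem key (x0 : 0 < x) (x1 : x < 80 / 100) (t0 : 0 ≤ t) (t1 : t ≤ 985 / 10000) (hA : PA t y s)
    (hB : K2 F y2 s2) :
    ∃ c : ℝ, 0 ≤ c ∧ c ≤ 80 / 100 ∧ Pos F c (t * tR 800 160 290 c) x y s y2 s2 := by
  rcases le_total x (1 / 10) with h | h
  · refine ⟨12 / 100, by norm_num, by norm_num, ?_⟩
    rw [tR_12, mul_comm]
    exact Pos.of (zA1 x0.le h t0 t1 hA) (hB.zone (zB1 x0.le h t0 t1) fun T p =>
      zW1 x0.le h t0 t1)
  rcases le_total x (55 / 100) with h' | h'
  · refine ⟨20 / 100, by norm_num, by norm_num, ?_⟩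
    rw [tR_one (by norm_num) (by norm_num), mul_one]
    exact Pos.of (zA2 h h' t0 t1 hA) (hB.zone (zB2 h h' t0 t1) fun T p => zW2 h h' t0 t1)
  rcases le_total x (74 / 100) with h2 | h2
  · refine ⟨35 / 100, by norm_num, by norm_num, ?_⟩
    rw [tR_one (by norm_num) (by norm_num), mul_one]
    exact Pos.of (zA3 h' h2 t0 t1 hA) (hB.zone (zB3 h' h2 t0 t1) fun T p => zW3 h' h2 t0 t1)
  have h4 := hB.zone (zB4 h2 x1.le t0 t1) fun T p => zW4 h2 x1.le t0 t1
  rcases le_total x (78 / 100) with h3 | h3
  · refine ⟨50 / 100, by norm_num, by norm_num, ?_⟩
    rw [tR_one (by norm_num) (by norm_num), mul_one]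
    exact Pos.of (zA4 h2 h3 t0 t1 hA) h4
  rcases zA5 h3 x1.le t0 t1 hA with h5 | ⟨ht, y0, y1, S, hS, hs⟩
  · refine ⟨50 / 100, by norm_num, by norm_num, ?_⟩
    rw [tR_one (by norm_num) (by norm_num), mul_one]
    exact Pos.of h5 h4
  · -- the point above the mirrored one
    have e1 : tR 800 160 290 x = (80 / 100 - x) / (29 / 100) := by
      unfold tR MP_b30479_gtS.G2.tr
      have h6 : (((800 : ℤ) : ℝ) / 1000 - x) / (((290 : ℕ) : ℝ) / 1000) =
        (80 / 100 - x) / (29 / 100) := by norm_num
      have h7 : (80 / 100 - x) / (29 / 100) ≤ 1 := by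
        rw [div_le_one (by norm_num)]
        linarith only [x1, h3]
      have h8 : 1 ≤ (x - 0) / (((160 : ℕ) : ℝ) / 1000) := by
        rw [le_div_iff₀ (by norm_num)]
        norm_num
        linarith only [x1, h3]
      rw [h6, min_eq_right (h7.trans h8), min_eq_right h7, max_eq_right]
      exact div_nonneg (by linarith only [x1]) (by norm_num)
    have hτ : 0 < tR 800 160 290 x := by
      rw [e1]
      exact div_pos (by linarith only [x1]) (by norm_num)
    have hτ' : tR 800 160 290 x ≤ 2 / 29 := by
      rw [e1, div_le_iff₀ (by norm_num)]
      linarith only [h3]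
    have e2 : 40 / 100 ≤ tR 860 150 200 y := by
      unfold tR MP_b30479_gtS.G2.tr
      refine le_max_of_le_right (le_min (by norm_num) (le_min ?_ ?_))
      · rw [le_div_iff₀ (by norm_num)]
        norm_num
        linarith only [y0]
      · rw [le_div_iff₀ (by norm_num)]
        norm_num
        linarith only [y1]
    have hs' : 12 / 1000 ≤ s := by
      rw [hs]
      nlinarith only [hS, e2, x1, h3]
    have ha := aR_eq x
    refine ⟨x, x0.le, x1.le, Or.inl ?_⟩
    obtain ⟨v0, v1⟩ := hB.re
    refine flip h3 x1 y0 y1 v0 v1 (mul_nonneg t0 hτ.le) ?_ ?_ ?_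
    · rw [ha]
      nlinarith only [e1, x0, x1, ht, t0]
    · rw [ha]
      positivity
    · rw [ha]
      linarith only [h3, e1, hτ, hs']

end K12

end Pool.Agent.Work.NumGs

end
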