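import Pool.Agent.Work.MP_b30479_gt.TBS.G2.MJR3
import Pool.Agent.Work.MP_b30479_gt.TBS.G2.WMainS
import Pool.Agent.Work.MP_b30479_gt.TBS.G2.H13A
import Pool.Agent.Work.MP_b30479_gt.TBS.NumU.GenD
import Pool.Agent.Work.MP_b30479_gt.TBS.G2.MKA
import Pool.Agent.Work.MP_b30479_gt.TBS.NumU.GenC
import Pool.Agent.Work.MP_b30479_gt.TBS.G2.WLocF
import Pool.Agent.Work.MP_b30479_gt.TBS.G2.WMid
import Pool.Agent.Work.MP_b30479_gt.TBS.G2.WMR1

section

/-!
# Mirrored paths, kind `1 | 2`: the other hinge of the digit `1`
-/

namespace Pool.Agent.Work.MP_b30479_gtS.G2

open Finset VOL Filter Topology SR NumGs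

namespace K12

/-! ### positions from linear inequalities -/

/-- a number between `0` and `H τ` -/
theorem exS {H τ t : ℝ} (hH : 0 ≤ H) (hτ : 0 ≤ τ) (h0 : 0 ≤ t) (h1 : t ≤ H * τ) :
    ∃ S : ℝ, 0 ≤ S ∧ S ≤ H ∧ t = S * τ := by
  rcases hτ.eq_or_lt with h2 | h2
  · refine ⟨0, le_rfl, hH, ?_⟩
    rw [← h2] at h1 ⊢
    linarith only [h0, h1]
  · refine ⟨t / τ, div_nonneg h0 hτ, ?_, (div_mul_cancel₀ _ h2.ne').symm⟩
    rwa [div_le_iff₀ h2]

/-- below the three lines of a ramp function -/
theorem le_tR {XM : ℤ} {cl cr : ℕ} {y t H : ℝ} (hcl : 0 < cl) (hcr : 0 < cr) (hH : 0 < H)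
    (h1 : t ≤ H) (h2 : (cl : ℝ) / 1000 * t ≤ H * y)
    (h3 : (cr : ℝ) / 1000 * t ≤ H * ((XM : ℝ) / 1000 - y)) : t ≤ H * K12.tR XM cl cr y := by
  have hcl' : (0 : ℝ) < (cl : ℝ) / 1000 := by positivity
  have hcr' : (0 : ℝ) < (cr : ℝ) / 1000 := by positivity
  unfold K12.tR tr
  rw [← div_le_iff₀' hH]
  refine le_max_of_le_right (le_min ?_ (le_min ?_ ?_))
  · rw [div_le_one hH]
    exact h1
  · rw [sub_zero, le_div_iff₀ hcl', div_mul_eq_mul_div, div_le_iff₀ hH]
    linarith only [h2]
  · rw [le_div_iff₀ hcr', div_mul_eq_mul_div, div_le_iff₀ hH]
    linarith only [h3]

theorem tR_nonneg (XM : ℤ) (cl cr : ℕ) (y : ℝ) : 0 ≤ K12.tR XM cl cr y := le_max_left _ _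

variable {t y s : ℝ}

theorem pa_u (ht : t ≤ 8 / 100) (y0 : 0 ≤ y) (y1 : y ≤ 86 / 100) (s0 : 0 ≤ s) (s1 : s ≤ 16 / 100)
    (s2 : 15 / 16 * s ≤ y) (s3 : 20 / 16 * s ≤ 86 / 100 - y) : K12.PA t y s := by
  obtain ⟨S, a1, a2, a3⟩ := exS (H := 16 / 100) (by norm_num) (tR_nonneg 860 150 200 y) s0
    (le_tR (by norm_num) (by norm_num) (by norm_num) s1 (by norm_num; linarith only [s2])
      (by norm_num; linarith only [s3]))
  exact .u S ht y0 y1 a1 a2 a3

theorem pa_d (ht : t ≤ 8 / 100) (y0 : 0 ≤ y) (y1 : y ≤ 86 / 100) (s0 : s ≤ 0)
    (s1 : -s ≤ 16 / 100) (s2 : 13 / 16 * -s ≤ y) (s3 : 20 / 16 * -s ≤ 86 / 100 - y) :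
    K12.PA t y s := by
  obtain ⟨S, a1, a2, a3⟩ := exS (H := 16 / 100) (by norm_num) (tR_nonneg 860 130 200 y)
    (by linarith only [s0] : 0 ≤ -s)
    (le_tR (by norm_num) (by norm_num) (by norm_num) s1 (by norm_num; linarith only [s2])
      (by norm_num; linarith only [s3]))
  exact .d S ht y0 y1 a1 a2 (by linarith only [a3])

theorem pa_h (ht : 8 / 100 ≤ t) (y0 : 0 ≤ y) (y1 : y ≤ 70 / 100)
    (h1 : 0 ≤ s → s ≤ 6 / 100 ∧ 14 / 6 * s ≤ y ∧ 35 / 6 * s ≤ 70 / 100 - y)
    (h2 : s ≤ 0 → -s ≤ 16 / 100 ∧ 14 / 16 * -s ≤ y ∧ 35 / 16 * -s ≤ 70 / 100 - y) :
    K12.PA t y s := by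
  rcases le_total 0 s with h | h
  · obtain ⟨b1, b2, b3⟩ := h1 h
    obtain ⟨S, a1, a2, a3⟩ := exS (H := 6 / 100) (by norm_num) (tR_nonneg 700 140 350 y) h
      (le_tR (by norm_num) (by norm_num) (by norm_num) b1 (by norm_num; linarith only [b2])
        (by norm_num; linarith only [b3]))
    exact .h S ht y0 y1 (by linarith only [a1]) a2 a3
  · obtain ⟨b1, b2, b3⟩ := h2 h
    obtain ⟨S, a1, a2, a3⟩ := exS (H := 16 / 100) (by norm_num) (tR_nonneg 700 140 350 y)
      (by linarith only [h] : 0 ≤ -s)
      (le_tR (by norm_num) (by norm_num) (by norm_num) b1 (by norm_num; linarith only [b2])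
        (by norm_num; linarith only [b3]))
    exact .h (-S) ht y0 y1 (by linarith only [a2]) (by linarith only [a1]) (by linarith only [a3])

theorem pb_u (y0 : 0 ≤ y) (y1 : y ≤ 60 / 100) (s0 : 0 ≤ s) (s1 : s ≤ 96 / 1000)
    (s2 : 125 / 96 * s ≤ y) (s3 : 300 / 96 * s ≤ 60 / 100 - y) : K12.PB y s := by
  obtain ⟨S, a1, a2, a3⟩ := exS (H := 96 / 1000) (by norm_num) (tR_nonneg 600 125 300 y) s0
    (le_tR (by norm_num) (by norm_num) (by norm_num) s1 (by norm_num; linarith only [s2])
      (by norm_num; linarith only [s3]))
  exact .u S y0 y1 a1 a2 a3

theorem pb_d (y0 : 0 ≤ y) (y1 : y ≤ 60 / 100) (s0 : s ≤ 0) (s1 : -s ≤ 85 / 1000)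
    (s2 : 100 / 85 * -s ≤ y) (s3 : 270 / 85 * -s ≤ 60 / 100 - y) : K12.PB y s := by
  obtain ⟨S, a1, a2, a3⟩ := exS (H := 85 / 1000) (by norm_num) (tR_nonneg 600 100 270 y)
    (by linarith only [s0] : 0 ≤ -s)
    (le_tR (by norm_num) (by norm_num) (by norm_num) s1 (by norm_num; linarith only [s2])
      (by norm_num; linarith only [s3]))
  exact .d S y0 y1 a1 a2 (by linarith only [a3])

end K12

variable {M : ℕ} {b : Fin (M + 1) → ℤ} {zs : DD (tyW b) ⊕ ZZ (tyW b) → ℂ}
variable {R : Finset (DD (tyW b))} {nb : Finset (DD (tyW b) ⊕ ZZ (tyW b))}
variable {z : DD (tyW b) ⊕ ZZ (tyW b) → ℂ} {p : DD (tyW b) → ℝ}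
variable {h h' : Fin M} {i j j' : Fin (M + 1)} {s q : Fin 3} {x c : ℝ}

namespace K12

/-! ### hinges without modes -/

theorem adj_cases {i1 j1 : Fin (M + 1)} {s1 : Fin 3} (A : Adj h i s j) (A1 : Adj h i1 s1 j1) :
    (i1 = i ∧ s1 = s ∧ j1 = j) ∨ (i1 = j ∧ s1 = s.rev ∧ j1 = i) := by
  cases A <;> cases A1
  · exact Or.inl ⟨rfl, rfl, rfl⟩
  · exact Or.inr ⟨rfl, rfl, rfl⟩
  · exact Or.inr ⟨rfl, rfl, rfl⟩
  · exact Or.inl ⟨rfl, rfl, rfl⟩

theorem adj_ring (A : Adj h i s j) : RH1 b (.inl h) ↔ clsW b i = .ring ∨ clsW b j = .ring := by
  cases A
  · exact Iff.rfl
  · exact or_comm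

/-- no mode at the hinge -/
theorem p_zero (hb : ClassW b) (hN : NbT b R nb) (hM : MM b zs R nb z p) (A : Adj h i s j)
    (hi : clsW b i ≠ .ring) (hj : clsW b j ≠ .ring) (k1 : ∀ x, ¬ Md b zs nb z p h i s j x)
    (k2 : ∀ x, ¬ Md b zs nb z p h j s.rev i x) : p (.inl h) = 0 := by
  have hr : clsW b h.castSucc ≠ .ring ∧ clsW b h.succ ≠ .ring := by
    cases A
    · exact ⟨hi, hj⟩
    · exact ⟨hj, hi⟩
  rcases hM.md hb hN.ok.1 h hr.1 hr.2 with h0 | ⟨i1, s1, j1, x, D⟩
  · exact h0
  · rcases adj_cases A D.adj with ⟨rfl, rfl, rfl⟩ | ⟨rfl, rfl, rfl⟩
    · exact (k1 x D).elim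
    · exact (k2 x D).elim

/-- position of a hinge without penalty -/
theorem flat {X : ℂ} (P : NPos b zs nb p h i s X) (hp : p (.inl h) = 0) {lo hi : ℝ} (l0 : lo ≤ 0)
    (h0 : 0 ≤ hi) (T0 : lo ≤ Th b zs h i) (T1 : Th b zs h i ≤ hi) :
    lo * trh b h X.re ≤ X.im ∧ X.im ≤ hi * trh b h X.re := by
  have ht := trh_mem (b := b) h X.re
  cases P with
  | main y y0 y1 hn e hp =>
    rw [e] at ht ⊢
    exact ⟨mul_le_mul_of_nonneg_right T0 ht.1, mul_le_mul_of_nonneg_right T1 ht.1⟩
  | real y y0 y1 hn e hp =>
    rw [e] at ht ⊢
    exact ⟨mul_nonpos_of_nonpos_of_nonneg l0 ht.1, mul_nonneg h0 ht.1⟩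
  | up y y0 y1 hn hr hT e hp' =>
    rw [e] at ht ⊢
    have h2 : mhs b h s.rev * trh b h y = 0 := by rw [← hp', hp]
    simp only
    rw [h2]
    exact ⟨mul_nonpos_of_nonpos_of_nonneg l0 ht.1, mul_nonneg h0 ht.1⟩
  | dn y y0 y1 hn hr hT e hp' =>
    rw [e] at ht ⊢
    have h2 : mhs b h s * trh b h y = 0 := by rw [← hp', hp]
    simp only
    rw [h2, neg_zero]
    exact ⟨mul_nonpos_of_nonpos_of_nonneg l0 ht.1, mul_nonneg h0 ht.1⟩

/-! ### parameters -/

theorem par_one_one (A : Adj h i s j) (hi : clsW b i = .one) (hj : clsW b j = .one) :
    wXM b h ≤ 86 / 100 ∧ wcl b h = 15 / 100 ∧ wcr b h = 20 / 100 := by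
  unfold wXM wcl wcr
  cases A <;> rw [hi, hj] <;> simp only [hp] <;> split_ifs <;> norm_num

theorem par_one_two (A : Adj h i s j)
    (hc : clsW b i = .one ∧ clsW b j = .two ∨ clsW b i = .two ∧ clsW b j = .one) :
    wXM b h = 80 / 100 ∧ wcl b h = 16 / 100 ∧ wcr b h = 29 / 100 := by
  unfold wXM wcl wcr
  rcases hc with ⟨hi, hj⟩ | ⟨hi, hj⟩ <;> cases A <;> rw [hi, hj] <;> exact ⟨rfl, rfl, rfl⟩

theorem par_one_twoE (A : Adj h i s j) (hi : clsW b i = .one) (hj : clsW b j = .twoE) :
    wXM b h = 70 / 100 ∧ wcl b h = 14 / 100 ∧ wcr b h = 35 / 100 := by
  unfold wXM wcl wcr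
  cases A <;> rw [hi, hj] <;> exact ⟨rfl, rfl, rfl⟩

theorem par_one_three2 (A : Adj h i 2 j) (hi : clsW b i = .one) (hj : clsW b j = .three) :
    wXM b h = 65 / 100 ∧ wcl b h = 13 / 100 ∧ wcr b h = 15 / 100 := by
  unfold wXM wcl wcr
  cases A
  rw [hi, hj]
  exact ⟨rfl, rfl, rfl⟩

theorem par_one_three0 (A : Adj h i 0 j) (hi : clsW b i = .one) (hj : clsW b j = .three) :
    wXM b h = 65 / 100 ∧ wcl b h = 15 / 100 ∧ wcr b h = 29 / 100 := by
  unfold wXM wcl wcr
  cases A
  rw [hi, hj]
  exact ⟨rfl, rfl, rfl⟩

theorem par_one_threeE (A : Adj h i s j) (hi : clsW b i = .one) (hj : clsW b j = .threeE) :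
    wXM b h = 60 / 100 ∧ wcl b h = 14 / 100 ∧ wcr b h = 25 / 100 := by
  unfold wXM wcl wcr
  cases A <;> rw [hi, hj] <;> exact ⟨rfl, rfl, rfl⟩

theorem par_one_ring (A : Adj h i s j) (hi : clsW b i = .one) (hj : clsW b j = .ring) :
    wXM b h = 65 / 100 ∧ wcl b h = 16 / 100 ∧ wcr b h = 29 / 100 := by
  unfold wXM wcl wcr
  cases A <;> rw [hi, hj] <;> exact ⟨rfl, rfl, rfl⟩

end K12

end Pool.Agent.Work.MP_b30479_gtS.G2

end

section

/-!
# Part of `MKB`
-/
namespace Pool.Agent.Work.MP_b30479_gtS.G2

namespace MKA

open NumGs

/-- the other hinge of the digit `1` in the trapezoid of height `16/100` -/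
def teE : E := .mul (.var 3) (.mul (.q 1600 10000) (E.tr 860 130 200 (.var 2)))

/-- the other hinge of the digit `1` on the mirrored path of height `1/2` -/
def t3E : E := .neg (.mul (.q 1 2) (E.tr 650 130 150 (.var 2)))

end MKA

end Pool.Agent.Work.MP_b30479_gtS.G2

end

section

/-!
# Part of `MKB`
-/
set_option deprecated.oldSectionVars true

namespace Pool.Agent.Work.MP_b30479_gtS.G2

namespace MKA

open NumGs

theorem r1a_q1 : Pool.Agent.Work.NumIs.runE (Pool.Agent.Work.NumGs.tst [TE 1 3500 teE, TE 1 1500 teE, TE 1 1000 teE])
    0 0 0 68719476736 37 0 24051816859 0 4535485466 0 29549374997 0 34359738368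
    62604457338770419606855522805109562604699365912229938818775968099910407033248190581322304071098453290890431567383918384146149673370795180598242400132008961398456889334157500551757320284665532065508345981837968392600371892398126337532232423409681543227741714399173795720407809127297540966006335686181520266452131238034682855102940342017431192207845804078921698254430807818392169506357569702673806054792468710513122651388116908095513026772772693600393483569325637530344267498790839705162546410749446540160976602550547255024578311649480491637239893699436619907306400267651977974240909256958336668734111105151859172036901090431950319451457562248856246517565003421634092363542637546919404822356612323965816497423381505459219821937362380764114940653487541408860935683052878867481812037879263560989559264663726910504617453931697459339290869820921541831768878161382081097601158846774766130166299425753478839913075562443135824223760790177230278916645029751640036763591760154401761659436522147188352630087677642690417308859328720612116363084400356120304126343255961065502746618521203195209251663877685002671622244774716649935916723023602254074244195525017399684119570368705468004726021665243127140836559630048834967823113399852771048196649661685758900120124761531097588069106862291497564874806293711745650716337903721514382581549346191114686953962982985301968774344087033243026103137378639818350212318830324319745270928949239125169291034409180369957209777169799711924721157843628464345099722366472479336340703716217028131533076549392545256791855247309484679960621517506680005228983537638633475000962728764728486384176726275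
    6700050531480211601692983737291380261298955749998637454289078339946851127600127581667619116947230662736990396023151545940341407634324719178933062189838327964406534066249758580324370528938778921427660121141753435663913318047378672696665808351864718875671648479151954009460316874939515346493936900053508655706127523861467667237578477413611391295725367038227010250473021528021225199765888749922579192712042903144117285839589730178160584445560047019826216043619629329805493350004464674676491741815077581770005493269763446805638732415533574100972547295806705738547912176568675121209934157715452207556097601175520631423900560152030513252780770991967154754825655440982094517529178620899075144954620928515273417568074224752218464068356308886632684013257588774966099485633677033258779995517084751428384845514420180556233619382325083542199033980776088480692012308992834333453065207958979340528867205892783620457982146346161962911250280363553605443652172365991604394691053693203903003887743021086416362751063620024309585340196922360531142743853017806947016361597129295891543892847381892841190772453131579949652523151835049603717342450849428258758492874118424089343714611639792935266993401898886386678153945310297913181394367635157221346606699026513792170125988354291387092213813853526746253547398300792116960224227609914840702829056551638737638683611082568519804601531065219268586233340244180349617747527454245339387294979719427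 = true := by
  decide +kernel

end MKA

end Pool.Agent.Work.MP_b30479_gtS.G2

end

section

/-!
# Part of `MKB`
-/
set_option deprecated.oldSectionVars true

namespace Pool.Agent.Work.MP_b30479_gtS.G2

namespace MKA

open NumGs

theorem r1a_q2 : Pool.Agent.Work.NumIs.runE (Pool.Agent.Work.NumGs.tst [TE 1 3500 teE, TE 1 1500 teE, TE 1 1000 teE])
    0 0 0 68719476736 37 0 24051816859 0 4535485466 29549374997 59098749994 0 34359738368
    67000505314802116016929837372913802612989557499986374542890783399468511276001275816676191169472306627369903960231515459403414076343247191789330621898383279644065340662497585803243705289387789214276601211417534356639133180473786726966658083518647188756716484791519540094603168749395153464939369000535086557061275238614676672375784774136113912957253670382270102504730215280212251997658887499225791927120429031441172858395897301781605844455600470198262160436196293298054933500044646746764917418150775817700054932697634468056387324155335741009725472958067057385479121765686751212099341577154522075560976011755206314239005601520305132527807709919671547548256554409820945175291786208990751449546209285152734175680742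24752218464068356308886632684013257588774966099485633677033258779995517084751428384845514420180556233619382325083542199033980776088480692012308992834333453065207958979340528867205892783620457982146346161962911250280363553605443652172365991604394691053693203903003887743021086416362751063620024309585340196922360531142743853017806947016361597129295891543892847381892841190772453131579949652523151835049603717342450849428258758492874118424089343714611639792935266993401898886386678153945310297913181394367635157221346606699026513792170125988354291387092213813853526746253547398300792116960224227609914840702829056551638737638683611082568519804601531065219268586233340244180349617747527454245339387294979719427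
    51002704709589425559568451608262744786780184235123476795391122399675595437817269992986824636838842017989883253965765058539707328243236838728687715654101985875369566190190684195518048528769765180736069444911999298344489257810775396685960707019287324399398276071461833468463253037958630677509279495121598195940797216201384544851403675657691608266047991014393220657076663418203842095037087780897642343766818837226415667878343070728810416011822065352223007637841997962280837898769362440549616762337820428446135753945507737432211927767457588032295039143724256341658999239447646174083217552866351753664518174797394290544162858127558256666339793150952843318784498803589668539070209296818559702834199988353118509702850285221709121526835355198781614856552529208470681949152597004191247732203802422860278361056065884446850328308760636475789891547591756134776930829628198584136322458784354018544563217444904345062119728295700299630541947246330032106852751463296997376296861857284085011730806534289933850962259848427505494662916084761984134299480279560392095687329324237186 = true := by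
  decide +kernel

theorem r1a_q3 : Pool.Agent.Work.NumIs.runE (Pool.Agent.Work.NumGs.tst [TE 1 3500 teE, TE 1 1500 teE, TE 1 1000 teE])
    0 0 0 68719476736 38 0 24051816859 0 4535485466 0 59098749994 34359738368 68719476737
    51002704709589425559568451608262744786780184235123476795391122399675595437817269992986824636838842017989883253965765058539707328243236838728687715654101985875369566190190684195518048528769765180736069444911999298344489257810775396685960707019287324399398276071461833468463253037958630677509279495121598195940797216201384544851403675657691608266047991014393220657076663418203842095037087780897642343766818837226415667878343070728810416011822065352223007637841997962280837898769362440549616762337820428446135753945507737432211927767457588032295039143724256341658999239447646174083217552866351753664518174797394290544162858127558256666339793150952843318784498803589668539070209296818559702834199988353118509702850285221709121526835355198781614856552529208470681949152597004191247732203802422860278361056065884446850328308760636475789891547591756134776930829628198584136322458784354018544563217444904345062119728295700299630541947246330032106852751463296997376296861857284085011730806534289933850962259848427505494662916084761984134299480279560392095687329324237186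
    4563823954083651559737993693243575726453637328748713038584421081917556280850545353287455552653853206816954596179730086739417202718957536591547476168520801902822443391036952333844397264139810542463451811980835159975231790097298941659867871048903063657399336535169126092936599677525691017745608867059034384550664179523977452591717886877132171769292742758703274383060473602925148964685492924972675974204050800464338352868702993685542559486355172760506001914491203023489633093156782666201792054957075065792398186386267907244344884614816915001773954899019165463168925985876878438480768305910419672199682304593888478842747407749381502896848585944419549338576411842526101763 = true := by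
  decide +kernel

end MKA

end Pool.Agent.Work.MP_b30479_gtS.G2

end

section

/-!
# Part of `MKB`
-/
set_option deprecated.oldSectionVars true

namespace Pool.Agent.Work.MP_b30479_gtS.G2

namespace MKA

open NumGs

theorem r1a_q4 : Pool.Agent.Work.NumIs.runE (Pool.Agent.Work.NumGs.tst [TE 1 3500 teE, TE 1 1500 teE, TE 1 1000 teE])
    0 0 0 68719476736 38 0 24051816859 0 4535485466 0 59098749994 68719476737 103079215105
    35654874641278527810453075728465435362919041630849320613940789702480908444144885572558246505108228178257457782654141302651696896241855754621464657566568764865800338992476190108159353626092269862995717281100274687306498360135147981717717742569555184823432316681008797601067184980669461076137569273898706129302063902531073848372795991227595091947599552802369331117659950022852726286605413476349031048469146878627643381786742138168301245987149787191453139956962523621012758540287364579701500429352148951503110831142718025346444411053257148451359022648587230181007234264663112800631002389925153689060018004639753740958964123042042991381629577690777729207628217519735170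
    23089445164852130011344110930163091894584413534569720907062492918123159287510765932489792783682637827662173997123572712870516988981601552394800788274241932832695073723169908841822350365385637495256603256609610993112319348437142618552789203341801121769444006792705533746828128738319631885422427817887125965419092728897125344411438276293508032659842 = true := by
  decide +kernel

theorem r1a_q5 : Pool.Agent.Work.NumIs.runE (Pool.Agent.Work.NumGs.tst [TE 1 3500 teE, TE 1 1500 teE, TE 1 1000 teE])
    0 0 0 68719476736 38 0 24051816859 0 4535485466 0 59098749994 103079215105 137438953474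
    23089445164852130011344110930163091894584413534569720907062492918123159287510765932489792783682637827662173997123572712870516988981601552394800788274241932832695073723169908841822350365385637495256603256609610993112319348437142618552789203341801121769444006792705533746828128738319631885422427817887125965419092728897125344411438276293508032659842
    0 = true := by
  decide +kernel

theorem r1b_q1 : Pool.Agent.Work.NumIs.runE (Pool.Agent.Work.NumGs.tst [TE 1 3500 teE, TE 1 1500 teE, TE 1 1000 teE])
    0 0 0 68719476736 38 24051816857 48103633717 0 4535485466 0 59098749994 0 34359738368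
    2959491159286985111495845191833248045121305504139154880849334559206440904646052099266381825582073057139258895146737709095583256116704349694965247760962957475828794101772434967386573330809579074394815559945893499871394074444764717210897042659123812061557324108504025068061135981389364948042881647152834747800069153943480513661519096560120566899614748113858097508980068205759779914867284942608367007731194385580107900799282721819584660972845434164285382565945730606287763304567124057231423419526705087952244111060930959100977536983755019959682842751020826845991803517415219136864861680992477027151513829568322906294094021812189794985371419507693532065524447827153418939191642005227171541702392191517434206781446999984374553970928557749743215601947895585497819707513689134173056991369788106369602036885351130937924917300321678188235805780854114041323234532749648646906634313381515884945427979820472774307929205907895990927153553425506343801303005450575973933707211138707396713059569090474399040287122842709885782411223644061016534258164856061634047107814633870450962788890874553071225173762701425815963960777122545085744406633738849170174528858098547149635834052283430782463839581461042324534059237162796620396693460415556532737547736257113705394139974814169571943273534278158663025655140127422495063361208469445818813028440711834569803863007836265396609651776480850929201025384308956020835172629760401780823861469647312235526343882810729762192900072854903603449882563777580124194509315670402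
    43200971367424114626125494253152811553119044769464587702991185661228934910170390225751658147298687319435222157816778794815512898267509129423160664721763931680898499006329083565403555180253275279230362903297829749713910911388923775673683496002842245485920913270284032890263138550922307711486597650236212493989003001089235096611987567935683623566810928704290114785407614625059755359754286710806498340860903154252429186251133723605849363971969979220614712386555762514824993059949865765470664174959853099052370158523311102092974844233451272645614541121112731767466581932947289400675357218989147266588992764800854218878229678511007725390060316319548000115694852075792018542114954073979777967266946675723910404201120132690720452796879641757527085428920974452130649115435258163795788273921955158077645236667176330959964662092104078836045233813038044799331458745278795713398393617539665892076002168639352285357696058869930810694334016296038501699255482634819066569986325852009673252576248479702483696611804934569521100452847709697389739280355590530 = true := by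
  decide +kernel

end MKA

end Pool.Agent.Work.MP_b30479_gtS.G2

end

section

/-!
# Part of `MKB`
-/
set_option deprecated.oldSectionVars true

namespace Pool.Agent.Work.MP_b30479_gtS.G2

namespace MKA

open NumGs

theorem r1b_q2 : Pool.Agent.Work.NumIs.runE (Pool.Agent.Work.NumGs.tst [TE 1 3500 teE, TE 1 1500 teE, TE 1 1000 teE])
    0 0 0 68719476736 38 24051816857 48103633717 0 4535485466 0 59098749994 34359738368 68719476737
    43200971367424114626125494253152811553119044769464587702991185661228934910170390225751658147298687319435222157816778794815512898267509129423160664721763931680898499006329083565403555180253275279230362903297829749713910911388923775673683496002842245485920913270284032890263138550922307711486597650236212493989003001089235096611987567935683623566810928704290114785407614625059755359754286710806498340860903154252429186251133723605849363971969979220614712386555762514824993059949865765470664174959853099052370158523311102092974844233451272645614541121112731767466581932947289400675357218989147266588992764800854218878229678511007725390060316319548000115694852075792018542114954073979777967266946675723910404201120132690720452796879641757527085428920974452130649115435258163795788273921955158077645236667176330959964662092104078836045233813038044799331458745278795713398393617539665892076002168639352285357696058869930810694334016296038501699255482634819066569986325852009673252576248479702483696611804934569521100452847709697389739280355590530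
    143387125701740335904017566407097393611646006632860327463385041579581437330935587043412806013415900239877685035823473148403535474860739197182805799556347361651470910034379033573860422203426006550180066869069337708444891023168559531393115612178163089179911412494764841023151133900061590170625665156415167512518942860985507262380463164194794503861237409429217793262341212974312956956381953237244236117535950853290326632362462114208925659767234647242421630782729520523288030925012926760233104160251764824754936784388586657091914289830537621554945016689704427384872950690908303573251 = true := by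
  decide +kernel

theorem r1b_q3 : Pool.Agent.Work.NumIs.runE (Pool.Agent.Work.NumGs.tst [TE 1 3500 teE, TE 1 1500 teE, TE 1 1000 teE])
    0 0 0 68719476736 38 24051816857 48103633717 0 4535485466 0 59098749994 68719476737 103079215105
    1120211919544846374250137237555448387590984426819221308307695637340479979147934273776662546979811720624044414342370883971902620897349524977990670309033963762902116484643586199795784548464265676173281772414604200847225711118504371339008715720141899134218057910115350320493368233594231173208013009034493496191554241101449275487347368470271832061415917261165764009862040726361819976221734009665970594668249616041330676815331735267257231716931520681581418990490074379088187741601663490314321126251966912693397943628035833258530580389301075168398007942888315838944319927272721121666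
    139712498168651008253929032565416496504827064358329932470246167106703563150107158282613396069511541705620985523002609105389705551451638985556952774767094696780567015170062626123448713816027176744406848482532385741818910736642 = true := by
  decide +kernel

theorem r1b_q4 : Pool.Agent.Work.NumIs.runE (Pool.Agent.Work.NumGs.tst [TE 1 3500 teE, TE 1 1500 teE, TE 1 1000 teE])
    0 0 0 68719476736 38 24051816857 48103633717 0 4535485466 0 59098749994 103079215105 137438953474
    139712498168651008253929032565416496504827064358329932470246167106703563150107158282613396069511541705620985523002609105389705551451638985556952774767094696780567015170062626123448713816027176744406848482532385741818910736642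
    0 = true := by
  decide +kernel

theorem r1c : chkF [TE 1 3500 t3E, TE 1 1500 t3E, TE 1 1000 t3E] 1000 0 0 0 0 40 0 700 0 66 0 650 0 0 1807412156500686581317653389331532321511647636431010212642587441414545844224434120068604491578786244573419815039776817226990981683223890577847840610376187704520713502006890197419705200363622916450167153111525742753916141418940628162383626335911149824 = true := by
  decide +kernel

end MKA

end Pool.Agent.Work.MP_b30479_gtS.G2

end

section

/-!
# Modes `2e | 1`: certificates
-/

namespace Pool.Agent.Work.MP_b30479_gtS.G2

namespace MKA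

open NumGs

theorem r1a : chkF [TE 1 3500 teE, TE 1 1500 teE, TE 1 1000 teE] 1000 0 0 0 1000 40 0 350 0 66 0 860 0 2000 1312910629169170630193562733617811294355704846215648406536736590526633099305905093740012326273122635158974503424023192071488660798089098545819652459216428574146966623809070705971189677496268899022449587925034590904786551148865154450083962912184604677431449918356561240426446777269302926319421188969469475898306199301069112189448415441425398596010682437157187973376760774779567750645967900171017777154201353411900161946038921500463213351225737999294523948543783993980365412736242070693610445303960233105916724039920852769693044554323313119980209175515609063118474319341068809126352713300486896615090785723914317663555311956015454763382631295853133750968044820556867800683881694167971236620148142484295599992044393709368137680155833915442251760213427044406755289895857110226972170788625733354563761910080642178185795027477671902483125262266852532955777663738987541379964654778313943394105151733177596560813862419287471800425083886417588338905999574337114063788399869913239632676106212940203480948936333437234940401089589450891410550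75176375638408039169011925260441216076524978323239472545404414858722797933873786571846407627522393514336309363133681289782350725237871409637047185787307954569659672701276174350440177912728038509267700231303612648904719883894464369014303594468338701172329768470174814891069467465381330459661374463388547974877377693591994419053250809939678678246759889252332784464859652307802434419187754729827029031393281431216502398611199805462352825614081121258254572960292492985165579479871972980100854551711675070371552815605580415548777336682168986325973283925935469365218988554407874677548989861101955 = true :=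
    Pool.Agent.Work.NumIs.okB_of rfl rfl rfl rfl rfl rfl rfl rfl rfl rfl rfl rfl
    (Pool.Agent.Work.NumIs.runE_split3 rfl rfl rfl
      (Pool.Agent.Work.NumIs.runE_split3 rfl rfl rfl
        (Pool.Agent.Work.NumIs.runE_split2 rfl rfl rfl
          r1a_q1
          r1a_q2)
        r1a_q3)
      (Pool.Agent.Work.NumIs.runE_split3 rfl rfl rfl
        r1a_q4
        r1a_q5))

theorem r1b : chkF [TE 1 3500 teE, TE 1 1500 teE, TE 1 1000 teE] 1000 0 0 0 1000 40 350 700 0 66 0 860 0 2000 4848830315375796406674792762299593597126746937981591356783549741803832778172091759438039983033668496816961773808415062582203606821608406540231061931561709528397896256343957450566161745198414355488465813415351910189292051570302512678333714692708453681655519819372994671511365191908335530873457290695204450795633301820998473583032887804101536808328803309745106958712943748316823412518559649969548505466788881334448784669544811429207508537909959334765170796045485025341871398202776055367964130552553616100956751562229283391041596594184224701944369563272522704472970882933095033839389378138074361285040258364740249672243645337091760104032533721405082936155255320008161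5899715862613641978539251993665821642043907227647743992692259693490171792844422314321272796278087904282774291365746602608334759559772329592929286961845048470375436055441913513804453039874584570243430918296590442756258945892021378625934261112109594967915350483819323495936840548441302236756929858947296581987746767979978332553876064220654958768659025488184295694897285773001713812227814434961333468574333188088677518953246928100160568753533372375778684836358287177304804139480811086596499633505112611729939887547702657717445166026541675259828579425655448478232371982110836550949177589347355354266718593585613351535012333815847690159118110039563400295432657972622697591666491520389372258052534705862261624029599896517935445363468365994422777018146318701563666863618175970996423768474793654740638922875924931872754802840627943866755 = true :=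
    Pool.Agent.Work.NumIs.okB_of rfl rfl rfl rfl rfl rfl rfl rfl rfl rfl rfl rfl
    (Pool.Agent.Work.NumIs.runE_split3 rfl rfl rfl
      (Pool.Agent.Work.NumIs.runE_split3 rfl rfl rfl
        r1b_q1
        r1b_q2)
      (Pool.Agent.Work.NumIs.runE_split3 rfl rfl rfl
        r1b_q3
        r1b_q4))

end MKA

end Pool.Agent.Work.MP_b30479_gtS.G2

end

section

/-!
# Modes `2e | 1` and `1 | 2e`
-/

namespace Pool.Agent.Work.MP_b30479_gtS.G2

open Finset VOL Filter Topology SR NumGs

namespace MKA

theorem row1 {x T y t : ℝ} (x0 : 0 ≤ x) (x1 : x ≤ 700 / 1000) (T0 : 0 ≤ T) (T1 : T ≤ 66 / 1000)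
    (h : (0 ≤ y ∧ y ≤ 86 / 100 ∧ ∃ θ : ℝ, -1 ≤ θ ∧ θ ≤ 1 ∧
      t = θ * (16 / 100 * tr 0 (86 / 100) (13 / 100) (20 / 100) y)) ∨
      (0 ≤ y ∧ y ≤ 65 / 100 ∧ t = -(1 / 2 * tr 0 (65 / 100) (13 / 100) (15 / 100) y))) :
    ∃ c : ℝ, 0 ≤ c ∧ c ≤ 700 / 1000 ∧ 0 < G1 c T x ⟨y, t⟩ := by
  rcases h with ⟨y0, y1, θ, θ0, θ1, ht⟩ | ⟨y0, y1, ht⟩
  · have hv : teE.val [x, T, y, θ] = t := by
      rw [ht, teE]
      simp only [E.val, NumIs.lkR, E.tr_val (XM := 860) (cl := 130) (cr := 200) (by norm_num)
        (by norm_num) (by norm_num), q16]
      norm_num
    have hr : ∃ e ∈ [TE 1 3500 teE, TE 1 1500 teE, TE 1 1000 teE], 0 < e.val [x, T, y, θ] := by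
      rcases le_total x (350 / 1000) with hx | hx
      · exact chkF4 r1a (by norm_num) (by norm_num; linarith only [x0]) (by norm_num; linarith only [hx])
          (by norm_num; linarith only [T0]) (by norm_num; linarith only [T1]) (by norm_num; linarith only [y0])
          (by norm_num; linarith only [y1]) (by norm_num; linarith only [θ0]) (by norm_num; linarith only [θ1])
      · exact chkF4 r1b (by norm_num) (by norm_num; linarith only [hx]) (by norm_num; linarith only [x1])
          (by norm_num; linarith only [T0]) (by norm_num; linarith only [T1]) (by norm_num; linarith only [y0])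
          (by norm_num; linarith only [y1]) (by norm_num; linarith only [θ0]) (by norm_num; linarith only [θ1])
    obtain ⟨e, he, hp⟩ := hr
    simp only [List.mem_cons, List.not_mem_nil, or_false] at he
    rcases he with rfl | rfl | rfl
    · rw [TE_val, hv] at hp
      exact ⟨_, by norm_num, by norm_num, hp⟩
    · rw [TE_val, hv] at hp
      exact ⟨_, by norm_num, by norm_num, hp⟩
    · rw [TE_val, hv] at hp
      exact ⟨_, by norm_num, by norm_num, hp⟩
  · have hv : t3E.val [x, T, y, 0] = t := by
      rw [ht, t3E]
      simp only [E.val, E.tr_val (XM := 650) (cl := 130) (cr := 150) (by norm_num)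
        (by norm_num) (by norm_num), NumIs.lkR]
      norm_num
    obtain ⟨e, he, hp⟩ := chkF4 r1c (by norm_num) (x := x) (y := T) (z := y) (w := 0)
      (by norm_num; linarith only [x0]) (by norm_num; linarith only [x1])
      (by norm_num; linarith only [T0]) (by norm_num; linarith only [T1]) (by norm_num; linarith only [y0])
      (by norm_num; linarith only [y1]) (by norm_num) (by norm_num)
    simp only [List.mem_cons, List.not_mem_nil, or_false] at he
    rcases he with rfl | rfl | rfl
    · rw [TE_val, hv] at hp
      exact ⟨_, by norm_num, by norm_num, hp⟩
    · rw [TE_val, hv] at hp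
      exact ⟨_, by norm_num, by norm_num, hp⟩
    · rw [TE_val, hv] at hp
      exact ⟨_, by norm_num, by norm_num, hp⟩

theorem row2 {x T y t : ℝ} (x0 : 0 ≤ x) (x1 : x ≤ 700 / 1000) (T0 : 0 ≤ T) (T1 : T ≤ 1 / 1000)
    (y0 : 0 ≤ y) (y1 : y ≤ 700 / 1000) (h : ∃ θ : ℝ, -1 ≤ θ ∧ θ ≤ 1 ∧ t = θ * (16 / 100 * τ7 y)) :
    ∃ c : ℝ, 0 ≤ c ∧ c ≤ 700 / 1000 ∧ 0 < G2 c T x ⟨y, t⟩ := by
  obtain ⟨θ, θ0, θ1, ht⟩ := h
  have hv : t2E.val [x, T, y, θ] = t := by
    rw [ht, t2E]
    unfold τ7
    simp only [E.val, NumIs.lkR, E.tr_val (XM := 700) (cl := 140) (cr := 350) (by norm_num)
      (by norm_num) (by norm_num), q16]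
  obtain ⟨e, he, hp⟩ := chkF4 r2 (by norm_num) (x := x) (y := T) (z := y) (w := θ)
    (by norm_num; linarith only [x0]) (by norm_num; linarith only [x1])
    (by norm_num; linarith only [T0]) (by norm_num; linarith only [T1]) (by norm_num; linarith only [y0])
    (by norm_num; linarith only [y1]) (by norm_num; linarith only [θ0]) (by norm_num; linarith only [θ1])
  simp only [List.mem_cons, List.not_mem_nil, or_false] at he
  rcases he with rfl | rfl
  · rw [TE_val', hv] at hp
    exact ⟨_, by norm_num, by norm_num, hp⟩
  · rw [TE_val', hv] at hp
    exact ⟨_, by norm_num, by norm_num, hp⟩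

end MKA

variable {M : ℕ} {b : Fin (M + 1) → ℤ} {zs : DD (tyW b) ⊕ ZZ (tyW b) → ℂ}

/-- **Modes `2e | 1`.** -/
theorem kd_twoE_one (hb : ClassW b) (L : LocA b zs) (s : Fin 3) : Kd b zs .twoE .one s := by
  intro R nb z p h i j x hN hM hq D hi hj
  obtain ⟨hXM, ht, hm⟩ := MKA.par_twoE D.adj (Or.inl ⟨hi, hj⟩)
  have B := D.adj.symm
  obtain ⟨h', j', A'⟩ := B.other' b (clsW_inner hb (Or.inl hj))
  have P := hM.npos hb hN hq B D.nn A'
  have hTj := (Th_mem hb L.L B (by rw [hj]; decide)).1
  rw [hj, hi, D.Tj] at hTj
  simp only [hbox] at hTj
  have hx1 := D.x1
  rw [hXM] at hx1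
  have key : ∀ c, 0 ≤ c → c ≤ 700 / 1000 →
      MKA.G1 c (Th b zs h i) x (Ow b z j s.rev.rev) ≤ 0 := by
    intro c h0 h1
    have k1 := keep_twoE (zs := zs) (nb := nb) (z := z) (p := p) (c := c) hb D.adj hi
    have k2 := keep_one (zs := zs) (nb := nb) (z := z) (p := p) (c := c) hb B hj
    have := D.star hb hN.ok.1 hM h0 (by rw [hXM]; exact h1) k1 k2
    rw [D.own, D.opp, hm, ht] at this
    unfold tgo at this
    rw [D.Tj, ht, neg_mul] at this
    unfold MKA.G1
    exact this
  obtain ⟨c, h0, h1, h2⟩ := MKA.row1 (x := x) (T := Th b zs h i) (y := (Ow b z j s.rev.rev).re)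
    (t := (Ow b z j s.rev.rev).im) D.x0.le hx1.le D.T0 (by linarith only [hTj]) (by
      rcases MKA.one_pos hb L.L A' hj P with h3 | ⟨-, -, h3⟩
      · exact Or.inl h3
      · exact Or.inr h3)
  exact absurd h2 (not_lt.2 (key c h0 h1))

/-- **Modes `1 | 2e`.** -/
theorem kd_one_twoE (hb : ClassW b) (L : LocA b zs) (s : Fin 3) : Kd b zs .one .twoE s := by
  intro R nb z p h i j x hN hM hq D hi hj
  obtain ⟨hXM, ht, hm⟩ := MKA.par_twoE D.adj (Or.inr ⟨hi, hj⟩)
  have B := D.adj.symm
  obtain ⟨h', j', A'⟩ := D.adj.other' b (clsW_inner hb (Or.inl hi))
  have P := hM.npos hb hN hq D.adj D.nn A'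
  obtain ⟨-, hT1, -, -⟩ := L.X.win D.adj A' hi
  have hT0 := D.T0
  have hx1 := D.x1
  rw [hXM] at hx1
  -- the other neighbour is a `2` at an end
  have hP : clsW b j' = .twoE := by
    by_contra hc
    have hT1' : Th b zs h i ≤ (cw (clsW b j') (clsW b j)).t1 := hT1
    rw [hj] at hT1'
    have hk := okp_of hb D.adj A' hi
    rcases hP : clsW b j' <;> rw [hP] at hT1' hc <;> simp only [cw] at hT1' <;>
      first | exact hc rfl | linarith only [hT0, hT1']
  rw [hj, hP] at hT1
  simp only [cw] at hT1
  have hT1' : Th b zs h i ≤ 1 / 1000 := hT1
  obtain ⟨hXM', ht', hm'⟩ := MKA.par_twoE A' (Or.inr ⟨hi, hP⟩)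
  have hX0 := P.re
  rw [hXM'] at hX0
  have hTh := MKA.Th_one hb L.L A' hi
  have him := P.abs_im hTh fun _ => ⟨(hm' _).le, (hm' _).le⟩
  rw [ht'] at him
  have key : ∀ c, 0 ≤ c → c ≤ 700 / 1000 →
      MKA.G2 c (Th b zs h i) x (Ow b z i s.rev) ≤ 0 := by
    intro c h0 h1
    have k1 := keep_one (zs := zs) (nb := nb) (z := z) (p := p) (c := c) hb D.adj hi
    have k2 := keep_twoE (zs := zs) (nb := nb) (z := z) (p := p) (c := c) hb B hj
    have := D.star hb hN.ok.1 hM h0 (by rw [hXM]; exact h1) k1 k2
    rw [D.own, D.opp, hm, ht] at this
    unfold tgo at this
    rw [D.Tj, ht, neg_mul] at this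
    unfold MKA.G2
    exact this
  obtain ⟨c, h0, h1, h2⟩ := MKA.row2 (x := x) (T := Th b zs h i) (y := (Ow b z i s.rev).re)
    (t := (Ow b z i s.rev).im) D.x0.le hx1.le hT0 hT1' hX0.1 hX0.2 (MKA.theta him)
  exact absurd h2 (not_lt.2 (key c h0 h1))

end Pool.Agent.Work.MP_b30479_gtS.G2

end

section

/-!
# Mirrored paths, kind `1 | 2`: positions of the other hinge of the digit `1`
-/

namespace Pool.Agent.Work.MP_b30479_gtS.G2

open Finset VOL Filter Topology SR NumGs

variable {M : ℕ} {b : Fin (M + 1) → ℤ} {zs : DD (tyW b) ⊕ ZZ (tyW b) → ℂ}
variable {R : Finset (DD (tyW b))} {nb : Finset (DD (tyW b) ⊕ ZZ (tyW b))}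
variable {z : DD (tyW b) ⊕ ZZ (tyW b) → ℂ} {p : DD (tyW b) → ℝ}
variable {h h' : Fin M} {i j j' : Fin (M + 1)} {s q : Fin 3} {x c : ℝ}

namespace K12

/-- from bounds by multiples of the ramp function -/
theorem pa_of {T : ℝ} {X : ℂ} (Hu Hd XM cl cr : ℝ) (hT : T ≤ 8 / 100)
    (hre : 0 ≤ X.re ∧ X.re ≤ wXM b h) (hX : wXM b h ≤ XM ∧ cl ≤ wcl b h ∧ cr ≤ wcr b h)
    (h2 : X.im ≤ Hu * trh b h X.re) (h1 : -X.im ≤ Hd * trh b h X.re) (hXM : XM ≤ 86 / 100)
    (u1 : Hu ≤ 16 / 100) (u2 : 15 / 16 * Hu ≤ cl) (u3 : 20 / 16 * Hu ≤ cr) (d1 : Hd ≤ 16 / 100)
    (d2 : 13 / 16 * Hd ≤ cl) (d3 : 20 / 16 * Hd ≤ cr) : K12.PA T X.re X.im := by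
  obtain ⟨t0, t1, t2, t3⟩ := trh_ub (b := b) h hre.1 hre.2
  have e2 := mul_le_mul_of_nonneg_right hX.2.1 t0
  have e3 := mul_le_mul_of_nonneg_right hX.2.2 t0
  rcases le_total 0 X.im with h0 | h0
  · have f1 := mul_le_mul_of_nonneg_right u1 t0
    have f2 := mul_le_mul_of_nonneg_right u2 t0
    have f3 := mul_le_mul_of_nonneg_right u3 t0
    exact pa_u hT hre.1 (by linarith only [hre, hX, hXM, hre.2, hX.1]) h0 (by linarith only [h2, t1, f1]) (by linarith only [h2, t2, e2, f2])
      (by linarith only [hX, h2, hXM, t3, e3, f3, hX.1])
  · have f1 := mul_le_mul_of_nonneg_right d1 t0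
    have f2 := mul_le_mul_of_nonneg_right d2 t0
    have f3 := mul_le_mul_of_nonneg_right d3 t0
    exact pa_d hT hre.1 (by linarith only [hre, hX, hXM, hre.2, hX.1]) h0 (by linarith only [h1, t1, f1]) (by linarith only [h1, t2, e2, f2])
      (by linarith only [hX, h1, hXM, t3, e3, f3, hX.1])

/-- positions at a hinge with the main path above -/
theorem pos_two {X : ℂ} (P : NPos b zs nb p h i s X) {Hu Hd : ℝ} (T0 : 0 < Th b zs h i)
    (T1 : Th b zs h i ≤ Hu) (d0 : 0 ≤ Hd) (h2 : ¬ RH1 b (.inl h) → mhs b h s ≤ Hd) :
    X.im ≤ Hu * trh b h X.re ∧ -X.im ≤ Hd * trh b h X.re := by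
  have ht := trh_mem (b := b) h X.re
  have u0 : 0 ≤ Hu := by linarith only [T0, T1]
  cases P with
  | main y y0 y1 hn e hp =>
    rw [e] at ht ⊢
    have a1 := mul_le_mul_of_nonneg_right T1 ht.1
    have a2 := mul_nonneg T0.le ht.1
    have a3 := mul_nonneg d0 ht.1
    simp only at a1 a2 a3 ⊢
    exact ⟨a1, by linarith only [a2, a3]⟩
  | real y y0 y1 hn e hp =>
    rw [e] at ht ⊢
    simp only [neg_zero]
    exact ⟨mul_nonneg u0 ht.1, mul_nonneg d0 ht.1⟩
  | up y y0 y1 hn hr hT e hp => exact absurd hT (not_le.2 T0)
  | dn y y0 y1 hn hr hT e hp =>
    rw [e] at ht ⊢
    have a1 := mul_le_mul_of_nonneg_right (h2 hr) ht.1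
    have a2 := mul_nonneg (mhs_pos (b := b) h s).le ht.1
    have a3 := mul_nonneg u0 ht.1
    simp only [neg_neg] at a1 a2 a3 ⊢
    exact ⟨by linarith only [a2, a3], a1⟩

/-- **The other hinge of a digit `1` next to a digit `2`.** -/
theorem k1_pos (hb : ClassW b) (L : LocA b zs) (hN : NbT b R nb) (hM : MM b zs R nb z p)
    (hq : ∀ h : Fin M, RH1 b (.inl h) → p (.inl h) = 0) (A : Adj h i s j)
    (hn : Sum.inl (Sum.inl h) ∉ nb) (A' : Adj h' i s.rev j') (hi : clsW b i = .one)
    (hj : clsW b j = .two) :
    K12.PA (Th b zs h i) (Ow b z i s.rev).re (Ow b z i s.rev).im := by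
  have P := hM.npos hb hN hq A hn A'
  have hre := P.re
  obtain ⟨-, hT, -, -⟩ := L.X.win A A' hi
  have A2 : Adj h i s.rev.rev j := by rwa [Fin.rev_rev]
  obtain ⟨hU0, hU1, -, -⟩ := L.X.win A' A2 hi
  have hT' : Th b zs h i ≤ (cw (clsW b j') (clsW b j)).t1 := hT
  have hU0' : (cw (clsW b j) (clsW b j')).t0 ≤ Th b zs h' i := hU0
  have hU1' : Th b zs h' i ≤ (cw (clsW b j) (clsW b j')).t1 := hU1
  have hT0' : (cw (clsW b j') (clsW b j)).t0 ≤ Th b zs h i := (L.X.win A A' hi).1
  clear hT hU0 hU1
  rw [hj] at hT' hU0' hU1' hT0'
  have ht := trh_ub (b := b) h' hre.1 hre.2
  rcases hC : clsW b j' <;> rw [hC] at hT' hU0' hU1' hT0' <;>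
    simp only [cw] at hT' hU0' hU1' hT0'
  case one =>
    obtain ⟨e1, e2, e3⟩ := par_one_one A' hi hC
    have hm : ∀ q, mhs b h' q = 16 / 100 := mhs_adj A' (by rw [hi]; simp) (by rw [hC]; simp)
    have h2 := P.two (Hu := 16 / 100) (Hd := 16 / 100) (by norm_num) (by norm_num) (by linarith only [hU1'])
      (by linarith only [hU0']) fun _ => ⟨(hm _).le, (hm _).le⟩
    exact pa_of _ _ (86 / 100) (15 / 100) (20 / 100) (by linarith only [hT']) hre ⟨e1, e2.ge, e3.ge⟩
      h2.1 h2.2 le_rfl (by norm_num) (by norm_num) (by norm_num) (by norm_num) (by norm_num)
      (by norm_num)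
  case two =>
    obtain ⟨e1, e2, e3⟩ := par_one_two A' (Or.inl ⟨hi, hC⟩)
    have hm : ∀ q, mhs b h' q = 16 / 100 := mhs_adj A' (by rw [hi]; simp) (by rw [hC]; simp)
    have h2 := P.two (Hu := 16 / 100) (Hd := 16 / 100) (by norm_num) (by norm_num) (by linarith only [hU1'])
      (by linarith only [hU0']) fun _ => ⟨(hm _).le, (hm _).le⟩
    exact pa_of _ _ (80 / 100) (16 / 100) (29 / 100) (by linarith only [hT']) hre ⟨e1.le, e2.ge, e3.ge⟩
      h2.1 h2.2 (by norm_num) (by norm_num) (by norm_num) (by norm_num) (by norm_num)
      (by norm_num) (by norm_num)
  case twoE =>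
    obtain ⟨e1, e2, e3⟩ := par_one_twoE A' hi hC
    have hp0 : p (.inl h') = 0 := p_zero hb hN hM A' (by rw [hi]; decide) (by rw [hC]; decide)
      (fun x D => kd_one_twoE hb L _ hN hM hq D hi hC)
      (fun x D => kd_twoE_one hb L _ hN hM hq D hC hi)
    obtain ⟨f1, f2⟩ := flat P hp0 (lo := -(49 / 1000)) (hi := 0) (by norm_num) le_rfl
      (by linarith only [hU0']) (by linarith only [hU1'])
    rcases le_total (Th b zs h i) (8 / 100) with h8 | h8
    · exact pa_of 0 (49 / 1000) (70 / 100) (14 / 100) (35 / 100) h8 hre
        ⟨e1.le, e2.ge, e3.ge⟩ f2 (by linarith only [f1]) (by norm_num) (by norm_num) (by norm_num)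
        (by norm_num) (by norm_num) (by norm_num) (by norm_num)
    · rw [e1, e2, e3] at ht
      rw [e1] at hre
      refine pa_h h8 hre.1 (by linarith only [hre, hre.2]) (fun h0 => ?_) fun h0 => ?_
      · refine ⟨?_, ?_, ?_⟩ <;> linarith only [f2, hre, hre.2]
      · refine ⟨?_, ?_, ?_⟩ <;> linarith only [ht, f1, hre, ht.2.1]
  case three =>
    rcases A'.slot with hs | hs
    · -- the `3` is to the left
      rw [hs] at A' P hre ⊢
      obtain ⟨e1, e2, e3⟩ := par_one_three0 A' hi hC
      have hm : ∀ q, mhs b h' q = 16 / 100 := mhs_adj A' (by rw [hi]; simp) (by simp)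
      have h2 := pos_two P (Hu := 94 / 1000) (Hd := 16 / 100) (by linarith only [hU0']) (by linarith only [hU1'])
        (by norm_num) fun _ => (hm _).le
      exact pa_of _ _ (65 / 100) (15 / 100) (29 / 100) (by linarith only [hT']) hre ⟨e1.le, e2.ge, e3.ge⟩
        h2.1 h2.2 (by norm_num) (by norm_num) (by norm_num) (by norm_num) (by norm_num)
        (by norm_num) (by norm_num)
    · -- the `3` is to the right
      rw [hs] at A' P hre ⊢
      obtain ⟨e1, e2, e3⟩ := par_one_three2 A' hi hC
      have htr : ∀ y, trh b h' y = K12.tR 650 130 150 y := by
        intro y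
        unfold K12.tR trh
        rw [e1, e2, e3]
        norm_num
      have hmain : p (.inl h') = 0 → K12.PA (Th b zs h i) (Ow b z i 2).re (Ow b z i 2).im := by
        intro hp0
        obtain ⟨f1, f2⟩ := flat P hp0 (lo := 0) (hi := 94 / 1000) le_rfl (by norm_num)
          (by linarith only [hU0']) (by linarith only [hU1'])
        exact pa_of (94 / 1000) 0 (65 / 100) (13 / 100) (15 / 100) (by linarith only [hT']) hre
          ⟨e1.le, e2.ge, e3.ge⟩ f2 (by linarith only [f1]) (by norm_num) (by norm_num) (by norm_num)
          (by norm_num) (by norm_num) (by norm_num) (by norm_num)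
      cases P with
      | main y y0 y1 hn e hp => exact hmain hp
      | real y y0 y1 hn e hp => exact hmain hp
      | up y y0 y1 hn hr hT e hp => linarith only [hU0', hT]
      | dn y y0 y1 hn hr hT e hp =>
        have hm : mhs b h' 2 = 1 / 2 := by
          unfold mhs
          cases A'
          rw [hi, hC]
          simp
        rw [hm, htr] at e
        rw [e]
        exact .t (by linarith only [hT0']) (by linarith only [hT']) y0 (by simp only; linarith only [e1, y1]) rfl
  case threeE =>
    obtain ⟨e1, e2, e3⟩ := par_one_threeE A' hi hC
    have hm : ∀ q, mhs b h' q = 16 / 100 := mhs_adj A' (by rw [hi]; simp) (by rw [hC]; simp)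
    have h2 := pos_two P (Hu := 59 / 1000) (Hd := 16 / 100) (by linarith only [hU0']) (by linarith only [hU1'])
      (by norm_num) fun _ => (hm _).le
    rcases le_total (Th b zs h i) (8 / 100) with h8 | h8
    · exact pa_of _ _ (60 / 100) (14 / 100) (25 / 100) h8 hre ⟨e1.le, e2.ge, e3.ge⟩
        h2.1 h2.2 (by norm_num) (by norm_num) (by norm_num) (by norm_num) (by norm_num)
        (by norm_num) (by norm_num)
    · rw [e1, e2, e3] at ht
      rw [e1] at hre
      refine pa_h h8 hre.1 (by linarith only [hre, hre.2]) (fun h0 => ?_) fun h0 => ?_
      · refine ⟨?_, ?_, ?_⟩ <;> linarith only [ht, h2, hre, ht.1, ht.2.1, ht.2.2.1, ht.2.2.2, h2.1]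
      · refine ⟨?_, ?_, ?_⟩ <;> linarith only [ht, h2, ht.1, ht.2.1, ht.2.2.1, ht.2.2.2, h2.2]
  case ring =>
    obtain ⟨e1, e2, e3⟩ := par_one_ring A' hi hC
    have h2 := pos_two P (Hu := 145 / 1000) (Hd := 0) (by linarith only [hU0']) (by linarith only [hU1']) le_rfl
      fun hr => absurd ((adj_ring A').2 (Or.inr hC)) hr
    exact pa_of _ _ (65 / 100) (16 / 100) (29 / 100) (by linarith only [hT']) hre ⟨e1.le, e2.ge, e3.ge⟩
      h2.1 h2.2 (by norm_num) (by norm_num) (by norm_num) (by norm_num) (by norm_num)
      (by norm_num) (by norm_num)

end K12

end Pool.Agent.Work.MP_b30479_gtS.G2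

end
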