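import Pool.Agent.Work.MP_b30479_gt.TBS.NumU.GenD
import Pool.Agent.Work.MP_b30479_gt.TBS.G2.H13A
import Pool.Agent.Work.MP_b30479_gt.TBS.NumU.GenC

section

/-!
# Mirrored paths: expressions of the rows of `WMGf*` and `WMGr*`

Definitions only, in a file with few imports (the certificates need nothing else).
-/

namespace Pool.Agent.Work.MP_b30479_gtS.G2.KE

open NumGs

/-- height of the mirrored path of the hinge, variable `0` -/
def hh (cl : ℕ) : E := .mul (E.c 1600) (E.tr 600 cl 300 (.var 0))

/-- ramp function of the inner variable of an end, variable `1` -/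
def li : E := E.tr 770 100 200 (.var 1)

/-- expressions: bound `O` of the old value minus the value; lower path -/
def oD (y0 : ℤ) (l : List (ℤ × ℤ × ℕ)) (cl : ℕ) (t : E) : E :=
  .sub (E.pl (.var 0) y0 l) (E.V3e (.var 0) (.neg (hh cl)) (.var 1) t)

/-- upper path -/
def oU (y0 : ℤ) (l : List (ℤ × ℤ × ℕ)) (cl : ℕ) (t : E) : E :=
  .sub (E.pl (.var 0) y0 l) (E.V3e (.var 0) (hh cl) (.var 1) t)

/-- modes of the inner variable -/
def oDp (y0 : ℤ) (l : List (ℤ × ℤ × ℕ)) (cl : ℕ) (t : E) : E :=
  .sub (.add (E.pl (.var 0) y0 l) (.mul .pi (.mul (E.c 3200) li)))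
    (E.V3e (.var 0) (.neg (hh cl)) (.var 1) t)

def oUp (y0 : ℤ) (l : List (ℤ × ℤ × ℕ)) (cl : ℕ) (t : E) : E :=
  .sub (.add (E.pl (.var 0) y0 l) (.mul .pi (.mul (E.c 3200) li)))
    (E.V3e (.var 0) (hh cl) (.var 1) t)

def aff (n0 n1 : ℤ) (t : E) : E := .add (E.c n0) (.mul (E.c n1) t)

/-- penalty of the mode -/
def P2 (cl : ℕ) : E := .mul .pi (.mul (.q 2 1) (hh cl))

/-- new value of an end `3`, upper height -/
def nP (n0 n1 : ℤ) : E :=
  .sub (E.V3e (E.c 1500) (.var 0) (E.c 3000) (.var 1)) (aff n0 n1 (.var 0))

/-- new value of an end `3`, lower height -/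
def nN (n0 n1 : ℤ) : E :=
  .sub (E.V3e (E.c 1500) (.neg (.var 0)) (E.c 3000) (.var 1)) (aff n0 n1 (.var 0))

/-- height of the other hinge of a `2` -/
def kk : E := .sub (.mul (.var 2) (.mul (E.c 1600) (E.tr 800 100 290 (.var 1))))
  (.mul (.sub (.q 1 1) (.var 2)) (.mul (E.c 3000) (E.tr 800 120 470 (.var 1))))

/-- height of the inner variable of a `3` -/
def ll : E := .mul (.var 2) (.mul (E.c 1600) (E.tr 800 50 50 (.var 1)))

/-- `2` on the lower path -/
def fD (n0 n1 y0 : ℤ) (l : List (ℤ × ℤ × ℕ)) (cl : ℕ) (k : E) : E :=
  .sub (.add (.add (E.dV2 (E.c 1500) (.var 3) (.var 0) (.neg (hh cl)) (.var 1) k)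
    (aff n0 n1 (.var 3))) (P2 cl)) (E.pl (.var 0) y0 l)

/-- `2` on the upper path -/
def fU (n0 n1 y0 : ℤ) (l : List (ℤ × ℤ × ℕ)) (cl : ℕ) (k : E) : E :=
  .sub (.add (.add (E.dV2 (E.c 1500) (.neg (.var 3)) (.var 0) (hh cl) (.var 1) k)
    (aff n0 n1 (.var 3))) (P2 cl)) (E.pl (.var 0) y0 l)

/-- `2` at an end on the lower path -/
def fE (n0 n1 y0 : ℤ) (l : List (ℤ × ℤ × ℕ)) : E :=
  .sub (.add (.add (.sub (E.V2e (E.c 1500) (.var 1)) (E.V2e (.var 0) (.neg (hh 100))))
    (aff n0 n1 (.var 1))) (P2 100)) (E.pl (.var 0) y0 l)

/-- two ends with two crossings -/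
def fEE : E := .add (.add (.sub (E.V2e (E.c 1500) (.var 1)) (E.V2e (.var 0) (.neg (hh 100))))
  (.sub (E.V2e (E.c 1500) (.neg (.var 1))) (E.V2e (.var 0) (hh 100)))) (P2 100)

/-- two ends with three crossings -/
def fTT (n y0 : ℤ) (l : List (ℤ × ℤ × ℕ)) (y0' : ℤ) (l' : List (ℤ × ℤ × ℕ)) : E :=
  .sub (.add (E.c n) (P2 100)) (.add (E.pl (.var 0) y0 l) (E.pl (.var 0) y0' l'))

def eVF (x t y s : E) : E :=
  .sub (.uw y s) (.add (.mul .pi (.sub (.add (.mul x s) (.mul y t)) s))
    (.add (.uw (.sub y x) (.sub s t)) (.uw x t)))

/-- hinge in the slot `2` of the `3`: ramp function -/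
def uW : E := .mul (E.c 1600) (E.tr 650 130 290 (.var 2))

/-- ramp function of the inner variable `y` -/
def tL (y : E) : E := E.tr 800 50 50 y

/-- far gain: inner variable `y + i t` (variables `0`, `1`) to `m + i T` -/
def gL (m : ℤ) (t : E) : E :=
  E.dV2 (E.c m) (.var 1) (.var 0) t (.var 2) (.mul (.var 3) uW)

def penL : E := .mul .pi (.mul (E.c 3200) (tL (.var 0)))

/-- the bounds of the losses -/
def e30 (y T : E) : E :=
  E.mx (.add (E.pl y (-80) [(0, 3, 1), (10, -43, 40), (50, 7, 40), (100, -32, 25), (150, -9, 10), (200, -31, 50), (250, -23, 50), (275, -21, 25), (300, 39, 20)])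
    (.mul (E.c 5000) T)) (E.pl y (-80)
    [(0, 3, 1), (10, -43, 40), (50, -261, 200), (100, -23, 100), (200, -59, 100), (250, -3, 5), (300, 51, 50), (350, -1, 10), (450, -3, 25), (500, -1, 10), (600, -3, 25), (700, -17, 50), (750, 21, 25)])

def e45 (y : E) : E := E.pl y 8 [(600, -17, 100), (700, -1, 100), (750, 14, 25)]

def em (y : E) : E := E.pl y (-90) [(0, -75, 8), (48, 75, 8), (750, 111, 10)]

/-- rows -/
def g30m : E := .add (gL 3000 (.mul (.var 1) (tL (.var 0)))) (e30 (.var 0) (.var 1))

def g45m : E := .add (gL 4500 (.mul (.var 1) (tL (.var 0)))) (e45 (.var 0))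

def g30u : E := .add (.add (gL 3000 (.mul (E.c 1600) (tL (.var 0)))) penL) (em (.var 0))

def g30d : E := .add (.add (gL 3000 (.neg (.mul (E.c 1600) (tL (.var 0))))) penL) (em (.var 0))

/-- old value of the end `3` -/
def oL : List (ℤ × ℤ × ℕ) := [(0, 127, 25), (25, -11, 15), (100, -673, 150), (300, -39, 25), (350, 3, 25), (450, -17, 50), (525, -13, 75)]

def bas (n0 n1 : ℤ) : E := .add (aff n0 n1 (.var 1)) (.sub (P2 120) (E.pl (.var 0) 252 oL))

def eK (cc n0 n1 : ℤ) (t : E) : E :=
  .add (bas n0 n1) (.sub (E.Va (E.c cc) (.neg (.var 1)) (.var 2) t) (E.Va (.var 0) (hh 120) (.var 2) t))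

def eR (cc m n0 n1 : ℤ) (t : E) : E :=
  .add (bas n0 n1) (.sub (eVF (E.c cc) (.neg (.var 1)) (E.c m) (.var 3)) (eVF (.var 0) (hh 120) (.var 2) t))

def tM : E := .mul (.var 3) (tL (.var 2))

def tU : E := .mul (E.c 1600) (tL (.var 2))

/-- new value of an end `3`, general targets -/
def nQ (cc m n0 n1 : ℤ) : E :=
  .sub (E.V3e (E.c cc) (.var 0) (E.c m) (.var 1)) (aff n0 n1 (.var 0))

/-- the rows -/
def rM (cc n0 n1 : ℤ) : List E := [eK cc n0 n1 tM, .sub (eR cc 3000 n0 n1 tM) (e30 (.var 2) (.var 3))]

def rM3 (cc n0 n1 : ℤ) : List E := [eK cc n0 n1 tM, .sub (eR cc 3000 n0 n1 tM) (e30 (.var 2) (.var 3)),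
  .sub (eR cc 4500 n0 n1 tM) (e45 (.var 2))]

def rU (cc n0 n1 : ℤ) : List E := [eK cc n0 n1 tU, .sub (eR cc 3000 n0 n1 tU) (em (.var 2))]

def rD (cc n0 n1 : ℤ) : List E :=
  [eK cc n0 n1 (.neg tU), .sub (eR cc 3000 n0 n1 (.neg tU)) (em (.var 2))]

end Pool.Agent.Work.MP_b30479_gtS.G2.KE

end

section

/-!
# Pieces of the certificates of `WMGf2`, part 3
-/


set_option deprecated.oldSectionVars true

namespace Pool.Agent.Work.MP_b30479_gtS.G2.KE
open NumGs

theorem l30m300_p6_q1 : Pool.Agent.Work.NumIs.runE (Pool.Agent.Work.NumGs.tst [g30m])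
    0 8452495639 0 68719476736 35 20615843020 34359738370 0 8796093024 22333829940 33500744910 120259084289 137438953474
    33606539646977629713399538868501744954445610065104446705204982674040747357700985421315632205192319179558770853501561748096265435376876293661192466650560569881784860322476859642953840308375892563716843124339637479131995021938084969091719407928652298398766252452159366758343290258167793320670274121517775207665273781870901885907330040066628886057220748259188606654200310395112451845464030530426431096483065657554609262989645259198493506780964425919227966971950816583247429693690893103192733796015241003857721192568258723187504696115971200171361667035246752413389619626812905110780260879794943381538980881912945645787278372034901148211420681413157344633511085110193804429076238369365277099646733327191994287941022328791048685273070195230411646235098542126791807142611324514354544554260963938237572605867453668277633932624545852757619488454627201686591730090048185451672902424160123240704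
    305968046244809414786723310142021974682754656246927481753075831974768842982033180919133879395117990914074550603662274695297591495074587647751177150983639617647939661689389182807250537732870965189134152450376170544694301496266558795401839300342885892945492069946864520121029872511618075683074547884949750248827540019051779128858352742823435983471962155993999160461045315355844338963551951909789530819776647028824486670525330507594407944246381511246641262838918128467865006673840119790889773225361217871460766500287441950717712989077657379977121435143329316082044620916759078757812100722910355167673285096519587171250224450052621561616804703288515095418761854425681499887924600588830974784651334763735833215540313631213374963715 = true := by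
  decide +kernel

theorem l30m300_p6_q2 : Pool.Agent.Work.NumIs.runE (Pool.Agent.Work.NumGs.tst [g30m])
    0 8452495639 0 68719476736 34 20615843020 34359738370 0 8796093024 33500744910 44667659880 120259084289 128849018881
    2390375361287573553021275860484546677209020751929120951195904937302881585797134225930733432774359304016207426591111521057012433555270215998056071492059684512874528606948352990681644826038054415540110566018563832380424230439582490589076869533928796038636656796459879063445545878997016216274019905351169923818965156398842024444205880803308093620874704343703118441101916526217533898152749624295230709529505054912691302113479144590581312064424855556614384865929047878655195364639375935866326353323134514620787238283495640239982132727169198281071261212057260281890973600912180302795407036897737149747447539816559274775392378516036105950131286744441524182959076987700636717874410942100241990505088552841686196996408700243854491904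
    18196222270863081532379409017047779710326662294608939298625211760802809025758491300028758978491731734610997755126855051829400986513219867737295211498079834164236546837281714518193807942633034412296830527941435858712175736235166528851572937866188297741345230375987948968332802063167881983308570390952130962950238887333029879440087958632865036234545136273628965726322944 = true := by
  decide +kernel

theorem l30m300_p6_q3 : Pool.Agent.Work.NumIs.runE (Pool.Agent.Work.NumGs.tst [g30m])
    0 8452495639 0 68719476736 34 20615843020 34359738370 0 8796093024 33500744910 44667659880 128849018881 137438953474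
    18196222270863081532379409017047779710326662294608939298625211760802809025758491300028758978491731734610997755126855051829400986513219867737295211498079834164236546837281714518193807942633034412296830527941435858712175736235166528851572937866188297741345230375987948968332802063167881983308570390952130962950238887333029879440087958632865036234545136273628965726322944
    0 = true := by
  decide +kernel

theorem l30m300_p6 : Pool.Agent.Work.NumIs.runE (Pool.Agent.Work.NumGs.tst [g30m])
    0 8452495639 0 68719476736 36 20615843020 34359738370 0 8796093024 22333829940 44667659880 120259084289 137438953474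
    4301637074813136603315140975168223354169038088333369178266237782277215661785726133928400922264616854983522669248199903756321975728240165588632635731271752944868462121277038034298091559472114248155755919915473597328895362808074876043740084214867494195042080313876398945067941153045477545045795087554275226581155044079475441396138245128528497415324255777176141651737639730574393836219395907894583180349832404166989985662674593177407168867963446517661179772409704522655671000792434317208669925889950848493788312648737116568000601102844313621934293380511584308913871312232051854179873392613752752836989552884857042660771631620467346971061847220884140113089418894104806966921758511278755468754781865880575268856450858085254231714952984989492690718092613392229351314254249537837381702945403384094409293551034069539537143375941869152975294522192281815883741451526167737814131510292495774810114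
    0 = true :=
    (Pool.Agent.Work.NumIs.runE_split2 rfl rfl rfl
      l30m300_p6_q1
      (Pool.Agent.Work.NumIs.runE_split3 rfl rfl rfl
        l30m300_p6_q2
        l30m300_p6_q3))

end Pool.Agent.Work.MP_b30479_gtS.G2.KE

end

section

/-!
# Pieces of the certificates of `WMGr2`, part 2
-/


set_option deprecated.oldSectionVars true

namespace Pool.Agent.Work.MP_b30479_gtS.G2.KE
open NumGs

theorem oldD130m_p4 : Pool.Agent.Work.NumIs.runE (Pool.Agent.Work.NumGs.tst [oD 275 [(0, 9, 2), (100, -927, 200), (300, -317, 200), (350, 3, 20), (450, -119, 300)] 130 (.mul (.var 2) li)])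
    0 0 3092376454 0 39 0 41231686043 26456998544 52913997088 0 7146825582 0 2
    18675090251372510380667156423369894344301167844782886612574065733465086930615146731583339569311034437952197874510076672939111854478501166444437261110353764709448106446959991078101058973075243780994758424839472655840581684177918336198980189208091442432929574862694370108280781524721689998588732252750508907530839030466928521707496524857112115993098560761178442991311885641105789922101992492211687771697388387879477835735215044017886967500606362320157310649316783224774838124918147223885154600537283927147459190624276676717713675832128907972637703835327979299857983594013640396255000393399297619419077662973726101451995721238910511309125274886458796559857642785747451367713960009289844215571487645016513660871295641325666432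
    0 = true := by
  decide +kernel

theorem oldD130u : chkF [oDp 275 [(0, 9, 2), (100, -927, 200), (300, -317, 200), (350, 3, 20), (450, -119, 300)] 130 (.mul (E.c 1600) li)]
    1000 0 0 0 0 40 0 600 0 770 0 0 0 0 129985860492708479404588871900439245598454619113680096870540104274329218481159907341598210586135224471768645792568413550745845882672603475099875979788824783576279975638780726103424979695425661497117790219239703684026982675409844085337936191551779054984059761618599937 = true := by
  decide +kernel

theorem oldD130d : chkF [oDp 275 [(0, 9, 2), (100, -927, 200), (300, -317, 200), (350, 3, 20), (450, -119, 300)] 130 (.mul (E.c (-1600)) li)]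
    1000 0 0 0 0 40 0 600 0 770 0 0 0 0 796823069700840035137700558463301673921454225412544465968942095256108907536281057317912880861329657880019149850361160515989245974945538224585109052101549175656807085691837704745559509833122547013170609175282692456436625171699388258075387962423137090863882028811987806869922084199705403911228503781206019307156177355292673 = true := by
  decide +kernel

end Pool.Agent.Work.MP_b30479_gtS.G2.KE

end

section

/-!
# Mirrored paths: rows of the kind `3 | 3`, end and slot `0`
-/

set_option deprecated.oldSectionVars true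

namespace Pool.Agent.Work.MP_b30479_gtS.G2.KE

open NumGs

theorem c7mb : chkF (rM 2000 3165 (-12000))
    1000 0 0 0 123 40 500 600 5 28 0 600 0 128 48007720631936454301833434044008454572977999289214376432216738457416344237867634622595309963568275736288719239172616428174547101202761416962 = true := by
  decide +kernel

theorem c7mc : chkF (rM3 2000 3165 (-12000))
    1000 0 0 0 123 40 500 600 5 28 600 800 0 128 6633845132168176706300347517321512519215454645118094816491651074 = true := by
  decide +kernel

theorem c7ub : chkF (rU 2000 3165 (-12000))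
    1000 0 0 0 123 40 500 600 5 28 0 800 0 128 24712250669020109526023938914044702545509473211157348610 = true := by
  decide +kernel

theorem c7db : chkF (rD 2000 3165 (-12000))
    1000 0 0 0 123 40 500 600 5 28 0 800 0 128 6646500554000594184737908952021465443910236431683024663577919746 = true := by
  decide +kernel

theorem c7n : chkF [nQ 2000 3500 3165 (-12000)]
    1000 0 45 0 0 40 5 28 0 104 0 0 0 0 6633842772172937227151774402127669858718236249940686206075469953 = true := by
  decide +kernel

end Pool.Agent.Work.MP_b30479_gtS.G2.KE

end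

section

/-!
# Mirrored paths: hinge in the slot `0` of an interior `3` on the lower side, definitions

Rows `aE` (gain of the `3`, target `cc`, plus a piecewise linear function `ph`), `bE` (gain of the
other region plus the penalty minus `ph`), `fE`, `gE` (derivatives in the height, for the move onto
the main path at the same real part).
-/

namespace Pool.Agent.Work.MP_b30479_gtS.G2

namespace KS

open NumGs KE

/-- a target with a function `ph` -/
structure Qr where
  cc : ℤ
  y0 : ℤ
  l : List (ℤ × ℤ × ℕ)
  k : ℤ

/-- a mirrored path, thousandths -/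
structure Pt where
  X : ℕ
  cl : ℕ
  cr : ℕ

def P2 : Pt := ⟨600, 120, 270⟩
def P3 : Pt := ⟨600, 130, 300⟩

def Pt.ok (P : Pt) : Prop := 0 < P.cl ∧ 0 < P.cr ∧ P.cl + P.cr ≤ P.X

theorem P2_ok : P2.ok := ⟨by decide, by decide, by decide⟩
theorem P3_ok : P3.ok := ⟨by decide, by decide, by decide⟩

/-! ### expressions -/

def dS0 (x' t' x t y k : E) : E :=
  .sub (.add (.sub (.uw (.sub y x) (.sub k t)) (.uw (.sub y x') (.sub k t')))
    (.sub (.uw x t) (.uw x' t')))
    (.mul .pi (.add (.mul (.sub x' x) k) (.mul y (.sub t' t))))
/-- height of the mirrored path -/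
def hh (P : Pt) : E := .mul (E.c 1600) (E.tr P.X P.cl P.cr (.var 0))
/-- height of the target -/
def tt (P : Pt) (cc : ℤ) : E := .mul (.var 3) (E.tr P.X P.cl P.cr (E.c cc))
def pn (P : Pt) : E := .mul .pi (.mul (.q 2 1) (hh P))
def ph (q : Qr) : E := .add (E.pl (.var 0) q.y0 q.l) (.mul (E.c q.k) (.var 3))
def aE (P : Pt) (q : Qr) : E :=
  .add (dS0 (E.c q.cc) (tt P q.cc) (.var 0) (.neg (hh P)) (.var 1) ll) (ph q)
def bE (P : Pt) (Y : E) (q : Qr) : E :=
  .sub (.add (E.dV2 (E.c q.cc) (.neg (tt P q.cc)) (.var 0) (hh P) (.var 1) Y) (pn P)) (ph q)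
/-- derivative in the height `var 3`, slot `0` -/
def fE (n : ℤ) : E :=
  .add (.sub (.sub (.yw (.sub (.var 1) (.var 0)) (.sub ll (.var 3))) (.yw (.var 0) (.var 3)))
    (.mul .pi (.var 1))) (E.c n)
def fE' (n : ℤ) : E :=
  .add (.neg (.add (.add (.yw (.sub (.var 0) (.var 1)) (.sub ll (.var 3))) (.yw (.var 0) (.var 3)))
    (.mul .pi (.add (.q 1 1) (.var 1))))) (E.c n)
/-- minus the derivative in the height, `V2` -/
def gE (Y : E) (n : ℤ) : E :=
  .add (.add (.sub (.mul (.q 2 1) (.yw (.var 0) (.var 3)))
    (.yw (.add (.var 0) (.var 1)) (.add (.var 3) Y)))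
    (.mul .pi (.add (.sub (.var 0) (.var 1)) (.q 1 2)))) (E.c n)
def exN (K : ℤ) : E := .sub (E.c (-K)) ll
def exP (K : ℤ) : E := .sub ll (E.c K)

end KS

end Pool.Agent.Work.MP_b30479_gtS.G2

end

section

/-!
# Mirrored paths: targets of the kind `3 | 2`, slot `0` of the `3`
-/

namespace Pool.Agent.Work.MP_b30479_gtS.G2.KS.K2

def q1 : Qr := ⟨1000, 108, [(0, 23, 5), (20, -21, 10), (40, 1, 1), (60, 1, 2), (80, 1, 5),
  (100, 9, 20)], 0⟩
def q2 : Qr := ⟨1500, 569, [(120, 19, 40), (160, 3, 20), (200, 2, 5), (320, -71, 40),
  (340, -5, 4), (360, -1, 20)], 0⟩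
def q3 : Qr := ⟨2500, 533, [(380, -1, 1), (400, 1, 20), (460, -4, 5), (480, -2, 5)], 0⟩
def q4 : Qr := ⟨3500, 294, [(500, -17, 15), (530, -11, 30), (540, -7, 5)], 0⟩
def q5 : Qr := ⟨1500, 134, [(550, -123, 25)], 0⟩
def q6 : Qr := ⟨2000, 193, [(550, -126, 25)], 0⟩
def q7 : Qr := ⟨2500, 231, [(550, -128, 25)], 0⟩
def q8 : Qr := ⟨3000, 254, [(550, -129, 25)], 0⟩
def q9 : Qr := ⟨3500, 267, [(550, -26, 5)], 0⟩
def q10 : Qr := ⟨4000, 245, [(550, -12, 5), (560, -113, 40)], 0⟩
def q11 : Qr := ⟨4500, 196, [(550, -31, 20), (570, -43, 12)], 0⟩

def M1 : List Qr := [q1]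
def M2 : List Qr := [q2]
def M3 : List Qr := [q3]
def M4 : List Qr := [q4]
def M5 : List Qr := [q5, q6, q7, q8, q9, q10, q11]

end Pool.Agent.Work.MP_b30479_gtS.G2.KS.K2

end

section

/-!
# Mirrored paths: targets of the kind `3 | 3`, slot `0` of the lower one
-/

namespace Pool.Agent.Work.MP_b30479_gtS.G2.KS.K3

def B100 : Qr := ⟨1000, 111, [(0, 57, 10), (20, -107, 30), (50, 61, 60), (130, -623, 180),
  (220, 193, 360)], 0⟩
def B150 : Qr := ⟨1500, 126, [(0, 19, 4), (20, -31, 10), (40, 103, 60), (100, 5, 6),
  (130, -591, 140), (270, 41, 84), (300, -133, 60)], 0⟩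
def B200 : Qr := ⟨2000, 210, [(60, 19, 5), (110, 1, 1), (130, -233, 60), (250, -209, 300),
  (300, -1187, 600), (540, -101, 40)], 0⟩
def B250 : Qr := ⟨2500, 462, [(240, 19, 15), (300, -103, 60), (360, -6, 5), (420, -7, 30),
  (480, 83, 420), (550, -39, 35), (560, -17, 10)], 0⟩
def B300 : Qr := ⟨3000, 407, [(400, -4, 5), (420, -73, 75), (570, -743, 300), (590, -11, 20)], 0⟩
def B350 : Qr := ⟨3500, 323, [(440, -21, 20), (460, -157, 220), (570, -81, 110), (580, -1, 1),
  (590, -6, 5)], 0⟩
def B400 : Qr := ⟨4000, 214, [(500, -62, 35), (570, -67, 140), (590, -7, 4)], 0⟩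
def B450 : Qr := ⟨4500, 191, [(500, -23, 20), (520, -111, 140), (590, -67, 70)], 0⟩
def B500 : Qr := ⟨5000, 120, [(540, -121, 60)], 0⟩
def C200 : Qr := ⟨2000, 121, [(560, -22, 5), (590, -1, 5)], 21000⟩
def C250 : Qr := ⟨2500, 119, [(560, -11, 5), (570, -4, 5), (580, -31, 20)], 22000⟩
def C275 : Qr := ⟨2750, 112, [(560, -9, 4), (580, -21, 20), (590, -3, 2)], 23000⟩
def C300 : Qr := ⟨3000, 101, [(560, -67, 30), (590, -5, 3)], 23000⟩
def C325 : Qr := ⟨3250, 99, [(560, -11, 5), (590, -11, 10)], 20000⟩
def C350 : Qr := ⟨3500, 97, [(560, -67, 30), (590, -11, 30)], 17000⟩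
def C375 : Qr := ⟨3750, 99, [(560, -67, 30), (590, -4, 15)], 12000⟩
def C400 : Qr := ⟨4000, 99, [(560, -67, 30), (590, -1, 6)], 8000⟩
def C450 : Qr := ⟨4500, 98, [(560, -9, 4)], 2000⟩
def D200 : Qr := ⟨2000, 34, [(580, -9, 2)], 22000⟩
def D225 : Qr := ⟨2250, 52, [(580, -9, 2)], 23000⟩
def D250 : Qr := ⟨2500, 67, [(580, -67, 15), (595, -1, 3)], 24000⟩
def D275 : Qr := ⟨2750, 66, [(580, -11, 5), (585, -9, 5), (590, -7, 10)], 24000⟩
def D300 : Qr := ⟨3000, 54, [(580, -34, 15), (595, -38, 15)], 25000⟩
def D325 : Qr := ⟨3250, 47, [(580, -34, 15), (595, -2, 15)], 24000⟩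
def D350 : Qr := ⟨3500, 60, [(580, -9, 4)], 14000⟩
def D375 : Qr := ⟨3750, 72, [(580, -23, 10)], 5000⟩
def D400 : Qr := ⟨4000, 81, [(580, -23, 10)], -3000⟩
def D450 : Qr := ⟨4500, 81, [(580, -23, 10)], -10000⟩

def Lm0 : List Qr := [B100, B150]
def Lm1 : List Qr := [B100, B150, B200]
def Lm2 : List Qr := [B100, B150, B200]
def Lm3 : List Qr := [B150, B200, B250]
def Lm4 : List Qr := [B150, B200, B250]
def Lm5 : List Qr := [B200, B250, B300, B350]
def Lm6 : List Qr := [B200, B250, B300, B350, B400, B450]
def Lm7 : List Qr := [B200, B250, B300, B350, B400, B450, B500]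
def LC : List Qr := [C200, C250, C275, C300, C325, C350, C375, C400, C450]
def LD : List Qr := [D200, D225, D250, D275, D300, D325, D350, D375, D400, D450]

end Pool.Agent.Work.MP_b30479_gtS.G2.KS.K3

end

section

/-!
# Part of `WMSt9`
-/
set_option linter.style.longLine false

set_option deprecated.oldSectionVars true

namespace Pool.Agent.Work.MP_b30479_gtS.G2.KS.K3

open NumGs KE

theorem r_f2 : chkF ([fE 37500, fE' 37500])
    10000 0 0 10000 107 40 5800 6000 0 1200 0 20000 0 112
    0x14281 = true := by
  decide +kernel

theorem r_f4 : chkF ([fE 35400, fE' 35400])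
    10000 0 0 10000 107 40 5800 6000 0 1000 0 20000 0 115
    0x50a101020a14101 = true := by
  decide +kernel

theorem r_f5 : chkF ([fE 32930, fE' 32930, .sub ll (E.c 305)])
    10000 0 0 10000 27 40 5950 6000 0 400 0 20000 0 32
    0x1830404043060808201041008504082840408281 = true := by
  decide +kernel

theorem r_g1 : chkF ([gE ll 23300])
    10000 0 0 10000 30 40 5600 5800 0 8000 0 20000 0 244
    0x40810003 = true := by
  decide +kernel

theorem r_g2 : chkF ([gE ll 23000])
    10000 0 0 10000 15 40 5800 6000 0 8000 0 20000 0 122
    0x4 = true := by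
  decide +kernel

theorem r_g3 : chkF ([gE ll 22290])
    10000 0 0 10000 5 40 5950 6000 0 8000 0 20000 0 32
    0x4 = true := by
  decide +kernel

end Pool.Agent.Work.MP_b30479_gtS.G2.KS.K3

end
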