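import Pool.Agent.Work.MP_b30479_gt.TBS.G2.MKE
import Pool.Agent.Work.MP_b30479_gt.TBS.G2.H13A
import Pool.Agent.Work.MP_b30479_gt.TBS.G2.WMMD
import Pool.Agent.Work.MP_b30479_gt.TBS.G2.WMGa
import Pool.Agent.Work.MP_b30479_gt.TBS.G2.MKA
import Pool.Agent.Work.MP_b30479_gt.TBS.G2.WLocF
import Pool.Agent.Work.MP_b30479_gt.TBS.G2.WMainS
import Pool.Agent.Work.MP_b30479_gt.TBS.G2.WMid

section

/-!
# Modes `1 | 3`, the `3` at an end: certificates with the first order condition
-/

set_option deprecated.oldSectionVars true

namespace Pool.Agent.Work.MP_b30479_gtS.G2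

namespace MKE

open NumGs

theorem kR1_q1 : Pool.Agent.Work.NumIs.runE (Pool.Agent.Work.NumGs.tstD [kR 2500 (phE (-1086) [(360, 157, 80)] (2044) [(360, -71, 80)])])
    0 0 0 68719476736 39 24739011624 32985348833 687194767 5360119187 0 25426206394 0 137438953474
    5411781904089108049126393078432432331479621340529354448778066484682740939265866687553803846184513566596201271222371828472442556702984150698837633313227451237122451977594329106054712002739825719423235942302970258743805304942009778161131495884045236826135309756778187707177002851094145434131158527600278536926031785884948573752475713973588004705056967328593050737965624050273087020922978736498412028113418730681075428018723342049382943020630296390761588211226649850920669703385834249566817465968060020034209874435751656556897400022387810115107443979863435672655599186874000284666593933152129050013423232189531858115401683920435606492707062648642289565954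
    81075876406800318219164425346615004944351664466885166347619576165273738975967268263639575572301386915841565226339887030461720753480158412292485441378622853954350938358961429965100259580510890871028272238783967038839206026225077287481340523744933243375248123676247564839641492843401072406601516063591059965501353540438797653158820311191207069273786215937103266858350980858358022487624387808795398996302041641177471782514982860580822640306482595870787698510444444829000420202463041894036962773959151996243595094188842164021372318720960630574986547911855210754 = true := by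
  decide +kernel

theorem kR1_q2 : Pool.Agent.Work.NumIs.runE (Pool.Agent.Work.NumGs.tstD [kR 2500 (phE (-1086) [(360, 157, 80)] (2044) [(360, -71, 80)])])
    0 0 0 68719476736 38 32985348833 41231686043 687194767 5360119187 0 12713103197 0 137438953474
    633405284428127486087222073020429726127747378647540362090777938791201085749744283309684184158604585280012228330780367425482193386563737596035042510770491046518366705929386171602345777972741334929908376865499742490931297079883416308447972841757290963869125966220684100309699162839070878176574344246805155980479324534678106665303283681181305228701454812008619272330867037955922050684565529756214054658609700321698998300898303598287676877394395280240528894612847225226565782831742514797163771671555874970653086673350329406416971240007504926367082405561368834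
    41734274292059688397851695295281016973662641400364285018965433623128375625954859576626361465056489339913326231209823360588233216120910949457046599099625158128228891148544047108107283542840001886855440846407412808236717891866497496734943978920225689570612161439915228347164609526003547169402062685860421244087433002642730830890539386349938528051120030989925851355216087146178953533230435763697115814896916912562579201976139299628998805693108755811859136070213044333354991618 = true := by
  decide +kernel

theorem kR1_q3 : Pool.Agent.Work.NumIs.runE (Pool.Agent.Work.NumGs.tstD [kR 2500 (phE (-1086) [(360, 157, 80)] (2044) [(360, -71, 80)])])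
    0 0 0 68719476736 37 32985348833 41231686043 687194767 5360119187 12713103197 19069654795 0 137438953474
    326049017906716315608216369494382945106739385940345976710667450180690434577772340442393448945753822968072861181326745004595572000944616792633176555465821547876788212098000368032088152678437514741058131612557912564349358530207011693241749835314263199770407511249337721462223511921902712260953614733284540969433070333146334616332338955858894750399375242108795713712625680829523074478362779403883717303882163379395150015438588278351553169477412154780149500548539408854335872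
    111545895529125086747937274109435754801365041421398534149972065821094220165473504129453449674671965321576898121369819450425929708989615103038624176854762015303839616579581585294670092365509126801922784477474677718617385785124865079358279672984581613059863018162684153661539878007480699213912165125415215458419906913046647464671779229354776687156844562907540729411744386408765727007170030726319740664872231448032760144331137 = true := by
  decide +kernel

theorem kR1_q4 : Pool.Agent.Work.NumIs.runE (Pool.Agent.Work.NumGs.tstD [kR 2500 (phE (-1086) [(360, 157, 80)] (2044) [(360, -71, 80)])])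
    0 0 0 68719476736 36 32985348833 41231686043 687194767 3023656977 19069654795 25426206394 0 137438953474
    871452308821289740218259953979966834385664386104676048046656764227298595042761751011355075583374729074819516573201714456452575851481367992489251381677828244561247004527981135114610096605540053140021753730270919676698326446288008432486559945192043852030179829395969950480780296933442962608688790042306370768905522758176933317748275229334192868412848147715161948529253018818482242243515865049372973944314308187755938627587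
    1294305183381717996909968166669170019971698986957434205130460089482655761198641218973645168311045844844081564865160373894403662303744103401390809559037846068534947169019146252922782567037967459419298090500099 = true := by
  decide +kernel

theorem kR1_q5 : Pool.Agent.Work.NumIs.runE (Pool.Agent.Work.NumGs.tstD [kR 2500 (phE (-1086) [(360, 157, 80)] (2044) [(360, -71, 80)])])
    0 0 0 68719476736 36 32985348833 41231686043 3023656977 5360119187 19069654795 25426206394 0 137438953474
    1294305183381717996909968166669170019971698986957434205130460089482655761198641218973645168311045844844081564865160373894403662303744103401390809559037846068534947169019146252922782567037967459419298090500099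
    0 = true := by
  decide +kernel

theorem kR1 : chkD [kR 2500 (phE (-1086) [(360, 157, 80)] (2044) [(360, -71, 80)])] 1000 0 0 0 1000 40 360 600 10 78 0 370 0 2000 692708083723405830288178314039351338429391531587757369443592510039390840226030936006886892311617736524313762716463594044472647257981971289451217064093113758351673853132074125575003136350697692086174200614780193119207079032577251604624831473157790313745319648867608026518656364940050615568788291532835652726532068593273417440316891388619264602247291818059910494459599878434955138678141278271796739598517597527177654786396587782321016706640677938017483291037011180917845722033386783944552635643911682564378863927776212039282867202865639694733752829422519766099916695919872036437324023443472518401718173720260077838771415541815757631066504019026213064442112 = true :=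
    Pool.Agent.Work.NumIs.okB_of rfl rfl rfl rfl rfl rfl rfl rfl rfl rfl rfl rfl
    (Pool.Agent.Work.NumIs.runE_split0 rfl rfl rfl
      kR1_q1
      (Pool.Agent.Work.NumIs.runE_split2 rfl rfl rfl
        kR1_q2
        (Pool.Agent.Work.NumIs.runE_split2 rfl rfl rfl
          kR1_q3
          (Pool.Agent.Work.NumIs.runE_split1 rfl rfl rfl
            kR1_q4
            kR1_q5))))

theorem oRm_q1 : Pool.Agent.Work.NumIs.runE (Pool.Agent.Work.NumGs.tstD [.of (inn 7700 tm (E.c 0)), .of (inn 0 tm (E.c 0)), oldR (E.pl (.var 0) (940) [(360, -119, 60)]) tm (E.c 0)])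
    0 0 3092376454 0 39 24739011624 32985348833 0 52913997088 0 7146825582 0 2
    22852132448657828652413583448908143443087194626653045114378044569665611672925417029215754561820058218912894986082231478640582336946903781816551064321401228249826386643421930680262023686708524329825645050961747774972275604905247358604233195512862045988777494671266312620725191086115991981872285301825818611755118297523449093610521770178224700463148017165407632511154084251154234292377069580152160421392090616334797838204427721166720946334838911645709070566856482385155162425092922255886364657754967445192259508255824531149918623094384110842989362417243740088915207004789846358202542397848916389471965952040888575428089031926165854733465936085161502838979553464793264305354518197460143393905485190964454686670961862590702351719047117305081634417990897643002310053374000725088584283264723095230827736010455276030198037494476601986793220910433816869371356919565017453765661928298944957140518747927401891614331834358166294944304832521780198616491455746174421416499009548837107390066162853089749335860616300424582836084825137371991328103670092577427545916095202698223947920922011439401642290310101560118850547161049795157428320739348495301189075426293784222487299732894921583392702072445069732279956012893999216826511779051911251855310336345660525121740864191427261665568648341293175891416915654585157071547966439553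
    149272434549768324851393829069467700759903818211859856960430987572284311713689477351641301361745802900965057900641833019206896580983936998819262865381492964025593464708795180770309158768335591675693177974352684707821180325794484072019396932716713733066133606227556917848288335810307788176342533897541107911800050630064854982946173390291232902587007845089739775064307295998092199991854601007248215498448982974146597545733060451155829059695070732811267213605389691287944358154854095860337102966070973901114205177414827774031217645197095701649695535302909645625331187124306191317339553684232337235004981563010495736518847239096392155849634999974950780987090972090282423466452393165466982803738904865524278632574028861335795100347909460362661952770893746673874441222944729045289016983241152625098922213039550030125847344339577555675874245845931749628486399886384882997684201700421923865831765697212249615875887709670808480389728368596613958227985214360762602679514195487161878118817210411321046174511447913212129772634646932945301841091654225448673226217345746373729761745387440219100709845816535476993182096441473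 = true := by
  decide +kernel

theorem oRm_q2 : Pool.Agent.Work.NumIs.runE (Pool.Agent.Work.NumGs.tstD [.of (inn 7700 tm (E.c 0)), .of (inn 0 tm (E.c 0)), oldR (E.pl (.var 0) (940) [(360, -119, 60)]) tm (E.c 0)])
    0 0 3092376454 0 38 32985348833 41231686043 0 26456998544 0 7146825582 0 2
    1166190894920065037901514289605216412186748579780155132503367090408471185263199041809697666888639085163789514848764320462553879538937007803275491135792913781449948943037462349768040302877621809966352952924630349279852971295269406812651538536849326039579168798652788420689752623518029595127676046074539905560937895547381679554266979611650257051460998789763591992689900749985095312436364070369126683581632679485520293326039534774654914528867740100088025106292106963187065298084797623908883616922429483602454727948553341984618887853102310169138246369553981606447899899408642119666715263158065134648476418461019497941553494055440563717575273437304302976461648219455331433331659321605210803154210194261908426816984600479185899221468042659083296506022607395889644072054255695666320445181571504883585329789371484610358182377652949653717767545671341793972549999112381898419407825784546280201810669509470700124030372731803191253044752879661046548656134487193457833433704652243452172803259456338445673238370686821969763848708179163635170633528548636317759579823013643544763763635839376711724295670441683414009235128449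
    393824648452099628040828687190697981204105084387759373188807742529699770153043879437442951838537459574460804302862694601144321861912381671917745803325874726367758482519346439281996294993155750870897380967729563472611150477509173482089450477641148905350340930577195465767700571625500048833971950313886518360728655777031833943957663597186718076614374939546173437348878660537918694552908106222814994609354290901264036266132727836385473601979842475875401261024262009551433411702448469962961869549965392061141717740393278329210808142913256259215376391961526367623864352211694821892797685859468270125303671105540574676736288274111860338470826687434708027754224104766851902959469151596108280617827495577257624319180933008588650488972514803994973961688027660256402448796665140932118193895949469352387656331604488997423680896481361491998170776287871181411469038355740977416928039795043614722 = true := by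
  decide +kernel

theorem oRm_q3 : Pool.Agent.Work.NumIs.runE (Pool.Agent.Work.NumGs.tstD [.of (inn 7700 tm (E.c 0)), .of (inn 0 tm (E.c 0)), oldR (E.pl (.var 0) (940) [(360, -119, 60)]) tm (E.c 0)])
    0 0 3092376454 0 36 32985348833 37108517438 26456998544 52913997088 0 3573412791 0 2
    24037148953375221438038860302166624829352116967026328929980941316509995736880119594570492665926358616605273700125896887276875113642113139155135852253776533591782133942831203569457781676828353934991295225081150114295114164887034514287686186379464654867574519688549527939923130592376711964964108295525300192915567369203603145993509741039228398230857845431284999838188394808222576571832770155201110510824846856766603776009077626732511816527089994865441971498062866793910730694729520871762809420774254886544294295678300679273120614191482925977501000485933005836417501966045826531542827506071061409015116644625279216109392594855460225736744792934247316147108404831961175717741037084723405799427947728104103046825008118199990874571076343017271359966310281998071438525187081355720104607907072104027566914770781799159160210966879973876841478044914012537321108298079893641169924303896705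
    21979326540865448631074748685086922839335477339884021020310063223248575881462371951211311118402075592659003174871638086392229935832870176254981857368923856071942368997186120884466125384369943693292326704394883498962328961586610579728610524911148298620132318375410822093427303901087622475447211639847921022063479202419484265305409184751905111880585763521598269221860890265940582375589287296195293926937699165311151958469012899869868480213190167322946574024867736990894914905297222897645351345475570839659305801687186474606554077915558065942384598944229221220337211716943983621687979483284050943435150389354433585792350573679487328821583678925861977980646381638840318957542997154442721705221898391109735122929945508139777886001421037573708130455034683312329705193759691451442135169 = true := by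
  decide +kernel

theorem oRm_q4 : Pool.Agent.Work.NumIs.runE (Pool.Agent.Work.NumGs.tstD [.of (inn 7700 tm (E.c 0)), .of (inn 0 tm (E.c 0)), oldR (E.pl (.var 0) (940) [(360, -119, 60)]) tm (E.c 0)])
    0 0 3092376454 0 36 37108517438 41231686043 26456998544 52913997088 0 3573412791 0 2
    21979326540865448631074748685086922839335477339884021020310063223248575881462371951211311118402075592659003174871638086392229935832870176254981857368923856071942368997186120884466125384369943693292326704394883498962328961586610579728610524911148298620132318375410822093427303901087622475447211639847921022063479202419484265305409184751905111880585763521598269221860890265940582375589287296195293926937699165311151958469012899869868480213190167322946574024867736990894914905297222897645351345475570839659305801687186474606554077915558065942384598944229221220337211716943983621687979483284050943435150389354433585792350573679487328821583678925861977980646381638840318957542997154442721705221898391109735122929945508139777886001421037573708130455034683312329705193759691451442135169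
    373897957147409152079666097719236130529196246956113522511111007750339749837517431777504915896337649630026709109802958080333729591335723731341473641665978871148907696106766464 = true := by
  decide +kernel

theorem oRm_q5 : Pool.Agent.Work.NumIs.runE (Pool.Agent.Work.NumGs.tstD [.of (inn 7700 tm (E.c 0)), .of (inn 0 tm (E.c 0)), oldR (E.pl (.var 0) (940) [(360, -119, 60)]) tm (E.c 0)])
    0 0 3092376454 0 37 32985348833 41231686043 26456998544 52913997088 3573412791 7146825582 0 2
    373897957147409152079666097719236130529196246956113522511111007750339749837517431777504915896337649630026709109802958080333729591335723731341473641665978871148907696106766464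
    0 = true := by
  decide +kernel

theorem oRm : chkD [.of (inn 7700 tm (E.c 0)), .of (inn 0 tm (E.c 0)), oldR (E.pl (.var 0) (940) [(360, -119, 60)]) tm (E.c 0)] 1000 0 0 45 0 40 360 600 0 770 0 104 0 0 2925072953428202067508938681460242360715160912211589774640389704917198294134453379739616583912967452020850558218525629265994539129203684072518536233139357215977777490358007127073539031898691114217682566523103715196451277427871661901341849025646341886563519317922088015452824459022846973679652518633704782304655142083001483982146786582812761659282946197172176961427722784147741989424264906259476533938187598890854123290166748309340281130859380690650761032557629745299860790411894048753454676192635832984609217056745539987189583756081166187902638389407198731381146496613100333849925426924661297852411641861233737654795396086549229405883639818900672363389382843493537831085378329274898354419902104443450199893883118411609901020038031015050449205502834898304295686831872092811338788257884556189545950209338275331865348799293005054309532276535528559279533685704322234082004726822264954513986399734707442126634474797845285752871018562787865422910906335510325941311873222251149745928468845195487914990158886454346603018857617583614889997269771849910725877260185945372665333878017464243410213159692999695212870036614373780150825054636607398552201654565604380478374365810549962674265865272968925731834369650431899753793507718644640237479723052244547215582830616502689493192786987685526514101365203786900105158139704262784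 = true :=
    Pool.Agent.Work.NumIs.okB_of rfl rfl rfl rfl rfl rfl rfl rfl rfl rfl rfl rfl
    (Pool.Agent.Work.NumIs.runE_split0 rfl rfl rfl
      oRm_q1
      (Pool.Agent.Work.NumIs.runE_split1 rfl rfl rfl
        oRm_q2
        (Pool.Agent.Work.NumIs.runE_split2 rfl rfl rfl
          (Pool.Agent.Work.NumIs.runE_split0 rfl rfl rfl
            oRm_q3
            oRm_q4)
          oRm_q5)))

theorem oRu : chkD [.of (inn 7700 tu pp), .of (inn 0 tu pp), oldR (E.pl (.var 0) (940) [(360, -119, 60)]) tu pp] 1000 0 0 0 0 40 360 600 0 770 0 0 0 0 996758857538769249524104498872061618441392164397543659569095570991739848210850271430289777368987259693420331691027510345856 = true := by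
  decide +kernel

theorem oRd : chkD [.of (inn 7700 (.neg tu) pp), .of (inn 0 (.neg tu) pp), oldR (E.pl (.var 0) (940) [(360, -119, 60)]) (.neg tu) pp] 1000 0 0 0 0 40 360 600 0 770 0 0 0 0 715160891607597462981289617481177451771599556135362221933214322730317866227220608 = true := by
  decide +kernel

theorem sp : chkF [.sub (V3x (.var 0) sE (E.c 0) (E.c 0)) (V3x (.var 0) sE (.var 0) sE)] 1000 0 0 0 0 40 360 600 0 0 0 0 0 0 66048 = true := by
  decide +kernel

end MKE

end Pool.Agent.Work.MP_b30479_gtS.G2

end

section

/-!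
# Modes `1 | 3`, the `3` at an end: the inequalities
-/

namespace Pool.Agent.Work.MP_b30479_gtS.G2

open Finset VOL Filter Topology

namespace MKE

open NumGs

/-! ### values of the expressions -/

theorem tkE_val (x T y θ : ℝ) : tkE.val [x, T, y, θ] =
    θ * (16 / 100 * tr 0 (86 / 100) (13 / 100) (20 / 100) y) := by
  show θ * ((E.c 1600).val [x, T, y, θ] * (E.tr 860 130 200 (.var 2)).val [x, T, y, θ]) = _
  rw [c_val, E.tr_val (by norm_num) (by norm_num) (by norm_num)]
  show θ * (((1600 : ℤ) : ℝ) / 10000 * tr 0 _ _ _ y) = _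
  norm_num

theorem kk_val (cn : ℤ) (a0 : ℤ) (a : List (ℤ × ℤ × ℕ)) (s0 : ℤ) (s : List (ℤ × ℤ × ℕ))
    (x T y θ : ℝ) : (kk cn (phE a0 a s0 s)).val [x, T, y, θ] =
      Gk (cn / 10000) T x ⟨y, θ * (16 / 100 * tr 0 (86 / 100) (13 / 100) (20 / 100) y)⟩ -
        ph a0 a s0 s x T := by
  show (dk (E.c cn) (.mul (.var 1) (tauE (E.c cn))) (.var 0) sE (.var 2) tkE).val [x, T, y, θ] -
    (phE a0 a s0 s).val [x, T, y, θ] = _
  rw [dk_val, ph_val, tkE_val, sE_val, c_val]
  have e1 : (E.mul (.var 1) (tauE (E.c cn))).val [x, T, y, θ] = T * τ6 (cn / 10000) := by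
    show T * (tauE (E.c cn)).val [x, T, y, θ] = _
    rw [tauE_val, c_val]
  rw [e1]
  rfl

theorem kR_val (cn : ℤ) (a0 : ℤ) (a : List (ℤ × ℤ × ℕ)) (s0 : ℤ) (s : List (ℤ × ℤ × ℕ))
    (x T y θ : ℝ) : (kR cn (phE a0 a s0 s)).val [x, T, y, θ] =
      Gk (cn / 10000) T x ⟨y, θ * (16 / 100 * tr 0 (86 / 100) (13 / 100) (20 / 100) y)⟩ -
        ph a0 a s0 s x T + 2 / 10 * dh1 ⟨x, -(16 / 100 * τ6 x)⟩
          ⟨y, θ * (16 / 100 * tr 0 (86 / 100) (13 / 100) (20 / 100) y)⟩ (64 / 100) := by
  show (kk cn (phE a0 a s0 s)).val [x, T, y, θ] + mu.val [x, T, y, θ] *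
    (D.dh1 (.var 0) (.neg sE) (.var 2) tkE mR).val [x, T, y, θ] = _
  rw [kk_val, D.dh1_val]
  have e1 : (E.neg sE).val [x, T, y, θ] = -(16 / 100 * τ6 x) := by
    show -(sE.val [x, T, y, θ]) = _
    rw [sE_val]
  have e2 : mR.val [x, T, y, θ] = 64 / 100 := by
    show ((64 : ℤ) : ℝ) / ((100 : ℕ) : ℝ) = _
    norm_num
  have e3 : mu.val [x, T, y, θ] = 2 / 10 := by
    show ((2 : ℤ) : ℝ) / ((10 : ℕ) : ℝ) = _
    norm_num
  rw [e1, e2, e3, tkE_val]
  rfl

theorem tm_val (x y T w : ℝ) : tm.val [x, y, T, w] = T * τl y := by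
  show T * (tlE (.var 1)).val [x, y, T, w] = _
  rw [tlE_val]
  rfl

theorem tu_val (x y T w : ℝ) : tu.val [x, y, T, w] = 16 / 100 * τl y := by
  show (E.c 1600).val [x, y, T, w] * (tlE (.var 1)).val [x, y, T, w] = _
  rw [tlE_val, c_val]
  show ((1600 : ℤ) : ℝ) / 10000 * τl y = _
  norm_num

theorem pp_val (x y T w : ℝ) : pp.val [x, y, T, w] = 2 * Real.pi * (16 / 100 * τl y) := by
  show Real.pi * ((E.c 3200).val [x, y, T, w] * (tlE (.var 1)).val [x, y, T, w]) = _
  rw [tlE_val, c_val]
  show Real.pi * (((3200 : ℤ) : ℝ) / 10000 * τl y) = _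
  push_cast
  ring

theorem tm'_val (x T y w : ℝ) : tm'.val [x, T, y, w] = w * τl y := by
  show w * (tlE (.var 2)).val [x, T, y, w] = _
  rw [tlE_val]
  rfl

theorem tu'_val (x T y w : ℝ) : tu'.val [x, T, y, w] = 16 / 100 * τl y := by
  show (E.c 1600).val [x, T, y, w] * (tlE (.var 2)).val [x, T, y, w] = _
  rw [tlE_val, c_val]
  show ((1600 : ℤ) : ℝ) / 10000 * τl y = _
  norm_num

theorem pp'_val (x T y w : ℝ) : pp'.val [x, T, y, w] = 2 * Real.pi * (16 / 100 * τl y) := by
  show Real.pi * ((E.c 3200).val [x, T, y, w] * (tlE (.var 2)).val [x, T, y, w]) = _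
  rw [tlE_val, c_val]
  show Real.pi * (((3200 : ℤ) : ℝ) / 10000 * τl y) = _
  push_cast
  ring

/-- value of the digit `3`, the hinge on its mirrored path at `x` -/
noncomputable def W (x : ℝ) (X : ℂ) : ℝ := V3 ⟨x, 16 / 100 * τ6 x⟩ X 0

theorem W_val (y t : E) (x : ℝ) (xs : List ℝ) : (V3x (.var 0) sE y t).val (x :: xs) =
    W x ⟨y.val (x :: xs), t.val (x :: xs)⟩ := by
  rw [V3x_val, sE_val]
  rfl

theorem old_val (O t p : E) (x y T w : ℝ) : (old O t p).val [x, y, T, w] =
    O.val [x, y, T, w] + p.val [x, y, T, w] - W x ⟨y, t.val [x, y, T, w]⟩ := by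
  show O.val [x, y, T, w] + p.val [x, y, T, w] - (V3x (.var 0) sE (.var 1) t).val [x, y, T, w] = _
  rw [W_val]
  rfl

theorem inn_val (mn : ℤ) (t p : E) (x y T w : ℝ) : (inn mn t p).val [x, y, T, w] =
    W x ⟨mn / 10000, T * τl (mn / 10000)⟩ - W x ⟨y, t.val [x, y, T, w]⟩ + p.val [x, y, T, w] := by
  show (V3x (.var 0) sE (E.c mn) (.mul (.var 2) (tlE (E.c mn)))).val [x, y, T, w] -
    (V3x (.var 0) sE (.var 1) t).val [x, y, T, w] + p.val [x, y, T, w] = _
  rw [W_val, W_val, c_val]
  have e1 : (E.mul (.var 2) (tlE (E.c mn))).val [x, y, T, w] = T * τl (mn / 10000) := by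
    show T * (tlE (E.c mn)).val [x, y, T, w] = _
    rw [tlE_val, c_val]
  rw [e1]
  rfl

theorem oldR_val (O t p : E) (x y T w : ℝ) : (oldR O t p).val [x, y, T, w] =
    O.val [x, y, T, w] + p.val [x, y, T, w] - W x ⟨y, t.val [x, y, T, w]⟩ +
      2 / 10 * dh3a ⟨x, 16 / 100 * τ6 x⟩ ⟨y, t.val [x, y, T, w]⟩ (-(64 / 100)) := by
  show (old O t p).val [x, y, T, w] + mu.val [x, y, T, w] *
    (D.dh3a (.var 0) sE (.var 1) t (.neg mR)).val [x, y, T, w] = _
  rw [old_val, D.dh3a_val]
  have e2 : (E.neg mR).val [x, y, T, w] = -(64 / 100) := by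
    show -(((64 : ℤ) : ℝ) / ((100 : ℕ) : ℝ)) = _
    norm_num
  have e3 : mu.val [x, y, T, w] = 2 / 10 := by
    show ((2 : ℤ) : ℝ) / ((10 : ℕ) : ℝ) = _
    norm_num
  rw [e2, e3, sE_val]
  rfl

/-- value of the digit `3` at the target `c` -/
noncomputable def N (c T : ℝ) (X : ℂ) : ℝ := V3 ⟨c, -(T * τ6 c)⟩ X 0

theorem N_val (cn : ℤ) (y t : E) (x T : ℝ) (xs : List ℝ) :
    (V3x (E.c cn) (.neg (.mul (.var 1) (tauE (E.c cn)))) y t).val (x :: T :: xs) =
      N (cn / 10000) T ⟨y.val (x :: T :: xs), t.val (x :: T :: xs)⟩ := by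
  rw [V3x_val, c_val]
  have e1 : (E.neg (.mul (.var 1) (tauE (E.c cn)))).val (x :: T :: xs) = -(T * τ6 (cn / 10000)) := by
    show -(T * (tauE (E.c cn)).val (x :: T :: xs)) = _
    rw [tauE_val, c_val]
  rw [e1]
  rfl

theorem pen_val (x : ℝ) (xs : List ℝ) : (E.mul .pi (.mul (E.c 3200) (tauE (.var 0)))).val (x :: xs) =
    2 * Real.pi * (16 / 100 * τ6 x) := by
  show Real.pi * ((E.c 3200).val (x :: xs) * (tauE (.var 0)).val (x :: xs)) = _
  rw [tauE_val, c_val]
  show Real.pi * (((3200 : ℤ) : ℝ) / 10000 * τ6 x) = _
  push_cast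
  ring

theorem clo_val (cn mn : ℤ) (O ex : E) (a0 : ℤ) (a : List (ℤ × ℤ × ℕ)) (s0 : ℤ)
    (s : List (ℤ × ℤ × ℕ)) (x T u w : ℝ) : (clo cn mn O (phE a0 a s0 s) ex).val [x, T, u, w] =
      N (cn / 10000) T ⟨mn / 10000, u * τl (mn / 10000)⟩ + ph a0 a s0 s x T -
        O.val [x, T, u, w] + (2 * Real.pi * (16 / 100 * τ6 x) + ex.val [x, T, u, w]) := by
  show (V3x (E.c cn) (.neg (.mul (.var 1) (tauE (E.c cn)))) (E.c mn)
    (.mul (.var 2) (tlE (E.c mn)))).val [x, T, u, w] + (phE a0 a s0 s).val [x, T, u, w] -
    O.val [x, T, u, w] + ((E.mul .pi (.mul (E.c 3200) (tauE (.var 0)))).val [x, T, u, w] +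
      ex.val [x, T, u, w]) = _
  rw [N_val, ph_val, pen_val, c_val]
  have e1 : (E.mul (.var 2) (tlE (E.c mn))).val [x, T, u, w] = u * τl (mn / 10000) := by
    show u * (tlE (E.c mn)).val [x, T, u, w] = _
    rw [tlE_val, c_val]
  rw [e1]

theorem keep_val (cn : ℤ) (t : E) (a0 : ℤ) (a : List (ℤ × ℤ × ℕ)) (s0 : ℤ)
    (s : List (ℤ × ℤ × ℕ)) (x T y w : ℝ) : (keep cn (phE a0 a s0 s) t).val [x, T, y, w] =
      N (cn / 10000) T ⟨y, t.val [x, T, y, w]⟩ + ph a0 a s0 s x T - W x ⟨y, t.val [x, T, y, w]⟩ +
        2 * Real.pi * (16 / 100 * τ6 x) := by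
  show (V3x (E.c cn) (.neg (.mul (.var 1) (tauE (E.c cn)))) (.var 2) t).val [x, T, y, w] +
    (phE a0 a s0 s).val [x, T, y, w] - (V3x (.var 0) sE (.var 2) t).val [x, T, y, w] +
    (E.mul .pi (.mul (E.c 3200) (tauE (.var 0)))).val [x, T, y, w] = _
  rw [N_val, ph_val, pen_val, W_val]
  rfl

theorem resp_val (cn mn : ℤ) (t p : E) (a0 : ℤ) (a : List (ℤ × ℤ × ℕ)) (s0 : ℤ)
    (s : List (ℤ × ℤ × ℕ)) (x T y w : ℝ) : (resp cn mn (phE a0 a s0 s) t p).val [x, T, y, w] =
      N (cn / 10000) T ⟨mn / 10000, w * τl (mn / 10000)⟩ + ph a0 a s0 s x T -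
        W x ⟨y, t.val [x, T, y, w]⟩ + (p.val [x, T, y, w] + 2 * Real.pi * (16 / 100 * τ6 x)) := by
  show (V3x (E.c cn) (.neg (.mul (.var 1) (tauE (E.c cn)))) (E.c mn)
    (.mul (.var 3) (tlE (E.c mn)))).val [x, T, y, w] + (phE a0 a s0 s).val [x, T, y, w] -
    (V3x (.var 0) sE (.var 2) t).val [x, T, y, w] + (p.val [x, T, y, w] +
    (E.mul .pi (.mul (E.c 3200) (tauE (.var 0)))).val [x, T, y, w]) = _
  rw [N_val, ph_val, pen_val, W_val, c_val]
  have e1 : (E.mul (.var 3) (tlE (E.c mn))).val [x, T, y, w] = w * τl (mn / 10000) := by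
    show w * (tlE (E.c mn)).val [x, T, y, w] = _
    rw [tlE_val, c_val]
  rw [e1]
  rfl

theorem z_val (xs : List ℝ) : (E.c 0).val xs = 0 := by
  rw [c_val]
  norm_num

end MKE

end Pool.Agent.Work.MP_b30479_gtS.G2

end

section

/-!
# The kink of the first order condition at an end with three crossings

If the difference of the inner variable and of the hinge of an end `3` is real and in `(-1, 0)`, then
the value is not differentiable along the mirrored path, and the hinge is not at a maximum.
-/

namespace Pool.Agent.Work.MP_b30479_gtS.G2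

open Finset VOL Filter Topology

/-- the value of a digit `3` with one of the two branches at the kink -/
noncomputable def V3s (σ : ℝ) (u v w : ℂ) : ℝ :=
  -(Real.pi / 2 * (2 * u * v + (v - w) ^ 2 - v + w).im) + UU (v + w) - UU (v - u + 1) - UU v -
    UU u - 2 * UU w + σ * (Real.pi * (v - u).im)

theorem V3s_le {σ : ℝ} (h : |σ| ≤ 1) (u v w : ℂ) : V3s σ u v w ≤ V3 u v w := by
  have h1 := UU_add_one (v - u)
  have h2 : σ * (Real.pi * (v - u).im) ≤ Real.pi * |(v - u).im| := by
    have h3 : σ * (Real.pi * (v - u).im) ≤ |σ * (Real.pi * (v - u).im)| := le_abs_self _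
    rw [abs_mul, abs_mul, abs_of_pos Real.pi_pos] at h3
    have h4 : |σ| * (Real.pi * |(v - u).im|) ≤ 1 * (Real.pi * |(v - u).im|) :=
      mul_le_mul_of_nonneg_right h (by positivity)
    linarith only [h3, h4]
  unfold V3s V3
  linarith only [h1, h2]

theorem V3s_eq {σ : ℝ} {u v : ℂ} (w : ℂ) (h : (v - u).im = 0) : V3s σ u v w = V3 u v w := by
  have h1 := UU_add_one (v - u)
  rw [h, abs_zero, mul_zero, add_zero] at h1
  unfold V3s V3
  rw [h, h1]
  ring

theorem hasDerivAt_V3s {g : ℝ → ℂ} {m t : ℝ} (σ : ℝ) (hg : HasDerivAt g (1 + m * Complex.I) t)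
    (v w : ℂ) (h1 : DOk (g t)) (h2 : v - g t + 1 ∈ strip) :
    HasDerivAt (fun t => V3s σ (g t) v w) (-(Real.pi * (v.im + m * v.re)) - dU (g t) m +
      dU (v - g t + 1) m - σ * (Real.pi * m)) t := by
  have a1 := hasDerivAt_dU hg h1
  have a2 : HasDerivAt (fun t => UU (v - g t + 1)) (-dU (v - g t + 1) m) t := by
    refine (hasDerivAt_UU ((hg.const_sub v).add_const 1) (Or.inr h2)).congr_deriv ?_
    unfold dU
    simp
    ring
  have a4 : HasDerivAt (fun t => 2 * g t * v + (v - w) ^ 2 - v + w)
      (2 * (1 + m * Complex.I) * v) t := by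
    have := (((hg.const_mul 2).mul_const v).add_const ((v - w) ^ 2 - v + w))
    refine (this.congr_of_eventuallyEq (Eventually.of_forall fun s => ?_)).congr_deriv rfl
    ring
  have a3 := ((hasDerivAt_im' a4).const_mul (Real.pi / 2)).neg
  have a5 := ((hasDerivAt_im' (hg.const_sub v)).const_mul Real.pi).const_mul σ
  refine (((((a3.add_const (UU (v + w))).sub a2).sub_const (UU v)).sub a1 |>.sub_const
    (2 * UU w)).add a5).congr_deriv ?_
  simp
  ring

namespace SR

variable {M : ℕ} {b : Fin (M + 1) → ℤ} {zs : DD (tyW b) ⊕ ZZ (tyW b) → ℂ}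
variable {R : Finset (DD (tyW b))} {nb : Finset (DD (tyW b) ⊕ ZZ (tyW b))}
variable {z : DD (tyW b) ⊕ ZZ (tyW b) → ℂ} {p : DD (tyW b) → ℝ}
variable {h h' : Fin M} {i j j' : Fin (M + 1)} {s : Fin 3} {x c : ℝ}

/-- **A kink is no maximum.** -/
theorem Md.kinkE (hb : ClassW b) (hR : ∀ i ∈ R, Sum.inl i ∈ nb) (hM : MM b zs R nb z p)
    (D : Md b zs nb z p h i s j x) (hj : clsW b j = .threeE) {di dt : ℝ}
    (ki : HasDerivAt (fun y => OV b i (Function.update (Ow b z i) s
      ⟨y, -mhs b h s * trh b h y⟩)) di x) (kt : HasDerivAt (trh b h) dt x) (h0 : dt ≠ 0)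
    (e0 : (Ow b z j 1 - Ow b z j s.rev).im = 0) (e1 : -1 < (Ow b z j 1 - Ow b z j s.rev).re)
    (e2 : (Ow b z j 1 - Ow b z j s.rev).re < 0) : False := by
  have B := D.adj.symm
  have hOV : ∀ u : ℂ, OV b j (Function.update (Ow b z j) s.rev u) = V3 u (Ow b z j 1) 0 := by
    intro u
    rw [B.OV_threeE hj (endOk_upd B (Ow_endOk z j) _), Function.update_self,
      Function.update_of_ne (by rcases B.slot with hs | hs <;> rw [hs] <;> decide)]
  have hx : (⟨x, mhs b h s * trh b h x⟩ : ℂ) = Ow b z j s.rev := D.opp.symm
  have hg := hasDerivAt_curve (a := mhs b h s) kt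
  have hst : Ow b z j 1 - (⟨x, mhs b h s * trh b h x⟩ : ℂ) + 1 ∈ strip := by
    rw [hx]
    unfold strip
    constructor
    · rw [Complex.add_re, Complex.one_re]; linarith only [e1]
    · rw [Complex.add_re, Complex.one_re]; linarith only [e2]
  have key : ∀ σ : ℝ, |σ| ≤ 1 → di + (-(Real.pi * ((Ow b z j 1).im + mhs b h s * dt *
      (Ow b z j 1).re)) - dU (Ow b z j s.rev) (mhs b h s * dt) +
      dU (Ow b z j 1 - Ow b z j s.rev + 1) (mhs b h s * dt) - σ * (Real.pi * (mhs b h s * dt))) -
      2 * Real.pi * (mhs b h s * dt) = 0 := by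
    intro σ hσ
    have kj := hasDerivAt_V3s σ hg (Ow b z j 1) 0 (by rw [hx]; exact D.ok_opp) hst
    rw [hx] at kj
    have hmax : IsLocalMax (fun y => OV b i (Function.update (Ow b z i) s
        ⟨y, -mhs b h s * trh b h y⟩) + V3s σ ⟨y, mhs b h s * trh b h y⟩ (Ow b z j 1) 0 -
        2 * Real.pi * (mhs b h s * trh b h y)) x := by
      filter_upwards [Ioo_mem_nhds D.x0 D.x1] with y hy
      have h1 := D.mstep hb hR hM hy.1.le hy.2.le
      rw [hOV, hOV] at h1
      have h2 := V3s_le hσ (⟨y, mhs b h s * trh b h y⟩ : ℂ) (Ow b z j 1) 0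
      have h3 : V3s σ ⟨x, mhs b h s * trh b h x⟩ (Ow b z j 1) 0 =
          V3 ⟨x, mhs b h s * trh b h x⟩ (Ow b z j 1) 0 := V3s_eq 0 (by rw [hx]; exact e0)
      simp only [neg_mul] at h1 ⊢
      rw [h3]
      linarith only [h1, h2]
    exact hmax.hasDerivAt_eq_zero ((ki.add kj).sub ((kt.const_mul (mhs b h s)).const_mul
      (2 * Real.pi)))
  have a1 := key 1 (by norm_num)
  have a2 := key (-1) (by norm_num)
  have a3 : Real.pi * (mhs b h s * dt) = 0 := by linarith only [a1, a2]
  rcases mul_eq_zero.1 a3 with h4 | h4
  · exact Real.pi_ne_zero h4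
  · rcases mul_eq_zero.1 h4 with h5 | h5
    · exact (mhs_pos h s).ne' h5
    · exact h0 h5

end SR

end Pool.Agent.Work.MP_b30479_gtS.G2

end

section

/-!
# Modes `1 | 3`, the `3` at an end: the inequalities
-/

namespace Pool.Agent.Work.MP_b30479_gtS.G2

open Finset VOL Filter Topology

namespace MKE

open NumGs

/-- bound for the gain of the digit `1` -/
noncomputable def φ0 (x T : ℝ) : ℝ := ph (-54) [(0, -22, 5)] (823) [(0, -19, 5)] x T
/-- bound for the gain of the digit `1` -/
noncomputable def φ1 (x T : ℝ) : ℝ := ph (-159) [(20, -79, 15)] (1200) [(20, -59, 15)] x T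
/-- bound for the gain of the digit `1` -/
noncomputable def φ2 (x T : ℝ) : ℝ := ph (-316) [(50, -179, 45)] (1880) [(50, 25, 3)] x T
/-- bound for the gain of the digit `1` -/
noncomputable def φ3 (x T : ℝ) : ℝ := ph (-709) [] (2090) [] x T
/-- bound for the gain of the digit `1` -/
noncomputable def φK (x T : ℝ) : ℝ := ph (-658) [(360, 69, 28), (500, -283, 700)] (1954) [(360, -3, 10)] x T
/-- bound for the gain of the digit `1` -/
noncomputable def φR (x T : ℝ) : ℝ := ph (-1086) [(360, 157, 80)] (2044) [(360, -71, 80)] x T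
/-- bound for the old value of the digit `3` -/
noncomputable def Oo (x : ℝ) : ℝ := plR x (329) [(50, 31, 20), (70, -17, 60), (85, 19, 15), (100, 89, 120), (140, -2771, 840), (350, -583, 210), (360, 3, 2), (400, -1, 5), (500, -7, 20), (580, 3, 10)]
/-- bound for the old value of the digit `3`, with the first order condition -/
noncomputable def OR (x : ℝ) : ℝ := plR x (940) [(360, -119, 60)]

/-- the other hinge of the digit `1` -/
def KP (X : ℂ) : Prop := 0 ≤ X.re ∧ X.re ≤ 86 / 100 ∧ ∃ θ : ℝ, -1 ≤ θ ∧ θ ≤ 1 ∧
  X.im = θ * (16 / 100 * tr 0 (86 / 100) (13 / 100) (20 / 100) X.re)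

/-- the inner variable of the digit `3` and its penalty -/
def LP (u q : ℝ) (X : ℂ) : Prop := ∃ y : ℝ, 0 ≤ y ∧ y ≤ 77 / 100 ∧
  ((X = ⟨y, u * τl y⟩ ∧ q = 0) ∨ (X = ⟨y, 16 / 100 * τl y⟩ ∧ q = 16 / 100 * τl y) ∨
    (X = ⟨y, -(16 / 100 * τl y)⟩ ∧ q = 16 / 100 * τl y))

variable {x T u q : ℝ} {X : ℂ}

theorem KP.eq {X : ℂ} {θ : ℝ}
    (h : X.im = θ * (16 / 100 * tr 0 (86 / 100) (13 / 100) (20 / 100) X.re)) :
    (⟨X.re, θ * (16 / 100 * tr 0 (86 / 100) (13 / 100) (20 / 100) X.re)⟩ : ℂ) = X := by
  rw [← h]

theorem g0 (x0 : 0 / 1000 ≤ x) (x1 : x ≤ 20 / 1000) (T0 : 10 / 1000 ≤ T) (T1 : T ≤ 78 / 1000)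
    (hX : KP X) : φ0 x T < Gk (550 / 10000) T x X := by
  obtain ⟨y0, y1, θ, θ0, θ1, ht⟩ := hX
  have h := KE.chk1 k0 (by norm_num) (x := x) (y := T) (z := X.re) (w := θ)
    (by constructor <;> push_cast <;> linarith only [x0, x1]) (by constructor <;> push_cast <;> linarith only [T0, T1])
    (by constructor <;> push_cast <;> linarith only [y0, y1]) (by constructor <;> push_cast <;> linarith only [θ0, θ1])
  rw [kk_val, KP.eq ht] at h
  push_cast at h
  unfold φ0
  linarith only [h]

theorem g1 (x0 : 20 / 1000 ≤ x) (x1 : x ≤ 50 / 1000) (T0 : 10 / 1000 ≤ T) (T1 : T ≤ 78 / 1000)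
    (hX : KP X) : φ1 x T < Gk (850 / 10000) T x X := by
  obtain ⟨y0, y1, θ, θ0, θ1, ht⟩ := hX
  have h := KE.chk1 k1 (by norm_num) (x := x) (y := T) (z := X.re) (w := θ)
    (by constructor <;> push_cast <;> linarith only [x0, x1]) (by constructor <;> push_cast <;> linarith only [T0, T1])
    (by constructor <;> push_cast <;> linarith only [y0, y1]) (by constructor <;> push_cast <;> linarith only [θ0, θ1])
  rw [kk_val, KP.eq ht] at h
  push_cast at h
  unfold φ1
  linarith only [h]

theorem g2 (x0 : 50 / 1000 ≤ x) (x1 : x ≤ 140 / 1000) (T0 : 10 / 1000 ≤ T) (T1 : T ≤ 78 / 1000)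
    (hX : KP X) : φ2 x T < Gk (2000 / 10000) T x X := by
  obtain ⟨y0, y1, θ, θ0, θ1, ht⟩ := hX
  have h := KE.chk1 k2 (by norm_num) (x := x) (y := T) (z := X.re) (w := θ)
    (by constructor <;> push_cast <;> linarith only [x0, x1]) (by constructor <;> push_cast <;> linarith only [T0, T1])
    (by constructor <;> push_cast <;> linarith only [y0, y1]) (by constructor <;> push_cast <;> linarith only [θ0, θ1])
  rw [kk_val, KP.eq ht] at h
  push_cast at h
  unfold φ2
  linarith only [h]

theorem g3 (x0 : 140 / 1000 ≤ x) (x1 : x ≤ 360 / 1000) (T0 : 10 / 1000 ≤ T) (T1 : T ≤ 78 / 1000)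
    (hX : KP X) : φ3 x T < Gk (2500 / 10000) T x X := by
  obtain ⟨y0, y1, θ, θ0, θ1, ht⟩ := hX
  have h := KE.chk1 k3 (by norm_num) (x := x) (y := T) (z := X.re) (w := θ)
    (by constructor <;> push_cast <;> linarith only [x0, x1]) (by constructor <;> push_cast <;> linarith only [T0, T1])
    (by constructor <;> push_cast <;> linarith only [y0, y1]) (by constructor <;> push_cast <;> linarith only [θ0, θ1])
  rw [kk_val, KP.eq ht] at h
  push_cast at h
  unfold φ3
  linarith only [h]

theorem gK (x0 : 360 / 1000 ≤ x) (x1 : x ≤ 600 / 1000) (T0 : 10 / 1000 ≤ T) (T1 : T ≤ 78 / 1000)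
    (hy : 370 / 1000 ≤ X.re) (hX : KP X) : φK x T < Gk (3000 / 10000) T x X := by
  obtain ⟨y0, y1, θ, θ0, θ1, ht⟩ := hX
  have h := KE.chk1 kK (by norm_num) (x := x) (y := T) (z := X.re) (w := θ)
    (by constructor <;> push_cast <;> linarith only [x0, x1]) (by constructor <;> push_cast <;> linarith only [T0, T1])
    (by constructor <;> push_cast <;> linarith only [hy, y1]) (by constructor <;> push_cast <;> linarith only [θ0, θ1])
  rw [kk_val, KP.eq ht] at h
  push_cast at h
  unfold φK
  linarith only [h]

theorem gR (x0 : 360 / 1000 ≤ x) (x1 : x ≤ 600 / 1000) (T0 : 10 / 1000 ≤ T) (T1 : T ≤ 78 / 1000)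
    (hy : X.re ≤ 370 / 1000) (hX : KP X) : φR x T < Gk (2500 / 10000) T x X +
      2 / 10 * dh1 ⟨x, -(16 / 100 * τ6 x)⟩ X (64 / 100) := by
  obtain ⟨y0, y1, θ, θ0, θ1, ht⟩ := hX
  obtain ⟨e, he, h⟩ := chkD4 kR1 (by norm_num) (x := x) (y := T) (z := X.re) (w := θ)
    (by push_cast; linarith only [x0]) (by push_cast; linarith only [x1]) (by push_cast; linarith only [T0])
    (by push_cast; linarith only [T1]) (by push_cast; linarith only [y0]) (by push_cast; linarith only [hy])
    (by push_cast; linarith only [θ0]) (by push_cast; linarith only [θ1])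
  rw [List.mem_singleton] at he
  rw [he, kR_val, KP.eq ht] at h
  push_cast at h
  unfold φR
  linarith only [h]

theorem oO (x0 : 50 / 1000 ≤ x) (x1 : x ≤ 600 / 1000) (u0 : -(45 / 1000) ≤ u) (u1 : u ≤ 59 / 1000)
    (hX : LP u q X) : W x X - 2 * Real.pi * q < Oo x := by
  obtain ⟨y, y0, y1, ⟨rfl, rfl⟩ | ⟨rfl, rfl⟩ | ⟨rfl, rfl⟩⟩ := hX
  · have h := KE.chk1 om (by norm_num) (x := x) (y := y) (z := u) (w := 0)
      (by constructor <;> push_cast <;> linarith only [x0, x1]) (by constructor <;> push_cast <;> linarith only [y0, y1])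
      (by constructor <;> push_cast <;> linarith only [u0, u1]) (by constructor <;> norm_num)
    rw [old_val, tm_val, z_val, E.pl_val] at h
    have e : (E.var 0).val [x, y, u, 0] = x := rfl
    rw [e] at h
    unfold Oo
    linarith only [h]
  · have h := KE.chk1 ou (by norm_num) (x := x) (y := y) (z := 0) (w := 0)
      (by constructor <;> push_cast <;> linarith only [x0, x1]) (by constructor <;> push_cast <;> linarith only [y0, y1])
      (by constructor <;> norm_num) (by constructor <;> norm_num)
    rw [old_val, tu_val, pp_val, E.pl_val] at h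
    have e : (E.var 0).val [x, y, 0, 0] = x := rfl
    rw [e] at h
    unfold Oo
    linarith only [h]
  · have h := KE.chk1 od (by norm_num) (x := x) (y := y) (z := 0) (w := 0)
      (by constructor <;> push_cast <;> linarith only [x0, x1]) (by constructor <;> push_cast <;> linarith only [y0, y1])
      (by constructor <;> norm_num) (by constructor <;> norm_num)
    have e' : (E.neg tu).val [x, y, 0, 0] = -(16 / 100 * τl y) := by
      show -(tu.val [x, y, 0, 0]) = _
      rw [tu_val]
    rw [old_val, e', pp_val, E.pl_val] at h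
    have e : (E.var 0).val [x, y, 0, 0] = x := rfl
    rw [e] at h
    unfold Oo
    linarith only [h]

theorem τl_77 : τl (((7700 : ℤ) : ℝ) / 10000) = 0 := by
  unfold τl tr
  norm_num

theorem τl_0 : τl (((0 : ℤ) : ℝ) / 10000) = 0 := by
  unfold τl tr
  norm_num

/-- the alternatives with the first order condition -/
def AltR (x q : ℝ) (X : ℂ) : Prop :=
  0 < W x ⟨77 / 100, 0⟩ - W x X + 2 * Real.pi * q ∨ 0 < W x 0 - W x X + 2 * Real.pi * q ∨
    W x X - 2 * Real.pi * q - 2 / 10 * dh3a ⟨x, 16 / 100 * τ6 x⟩ X (-(64 / 100)) < OR x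

theorem c0 : (⟨((0 : ℤ) : ℝ) / 10000, 0⟩ : ℂ) = 0 := by
  apply Complex.ext <;> norm_num

theorem c77 : (⟨((7700 : ℤ) : ℝ) / 10000, 0⟩ : ℂ) = ⟨77 / 100, 0⟩ := by
  apply Complex.ext <;> norm_num

theorem oR (x0 : 360 / 1000 ≤ x) (x1 : x ≤ 600 / 1000) (u0 : -(45 / 1000) ≤ u) (u1 : u ≤ 59 / 1000)
    (hX : LP u q X) : AltR x q X := by
  obtain ⟨y, y0, y1, ⟨rfl, rfl⟩ | ⟨rfl, rfl⟩ | ⟨rfl, rfl⟩⟩ := hX
  · obtain ⟨e, he, h⟩ := chkD4 oRm (by norm_num) (x := x) (y := y) (z := u) (w := 0)
      (by push_cast; linarith only [x0]) (by push_cast; linarith only [x1]) (by push_cast; linarith only [y0])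
      (by push_cast; linarith only [y1]) (by push_cast; linarith only [u0]) (by push_cast; linarith only [u1])
      (by norm_num) (by norm_num)
    have e0 : (E.var 0).val [x, y, u, 0] = x := rfl
    simp only [List.mem_cons, List.not_mem_nil, or_false] at he
    rcases he with rfl | rfl | rfl
    · left
      change 0 < (inn 7700 tm (E.c 0)).val [x, y, u, 0] at h
      rw [inn_val, τl_77, mul_zero, c77, tm_val, z_val] at h
      linarith only [h]
    · right; left
      change 0 < (inn 0 tm (E.c 0)).val [x, y, u, 0] at h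
      rw [inn_val, τl_0, mul_zero, c0, tm_val, z_val] at h
      linarith only [h]
    · right; right
      rw [oldR_val, tm_val, z_val, E.pl_val, e0] at h
      unfold OR
      linarith only [h]
  · obtain ⟨e, he, h⟩ := chkD4 oRu (by norm_num) (x := x) (y := y) (z := 0) (w := 0)
      (by push_cast; linarith only [x0]) (by push_cast; linarith only [x1]) (by push_cast; linarith only [y0])
      (by push_cast; linarith only [y1]) (by push_cast; linarith only []) (by push_cast; linarith only [])
      (by norm_num) (by norm_num)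
    have e0 : (E.var 0).val [x, y, 0, 0] = x := rfl
    simp only [List.mem_cons, List.not_mem_nil, or_false] at he
    rcases he with rfl | rfl | rfl
    · left
      change 0 < (inn 7700 tu pp).val [x, y, 0, 0] at h
      rw [inn_val, τl_77, mul_zero, c77, tu_val, pp_val] at h
      linarith only [h]
    · right; left
      change 0 < (inn 0 tu pp).val [x, y, 0, 0] at h
      rw [inn_val, τl_0, mul_zero, c0, tu_val, pp_val] at h
      linarith only [h]
    · right; right
      rw [oldR_val, tu_val, pp_val, E.pl_val, e0] at h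
      unfold OR
      linarith only [h]
  · obtain ⟨e, he, h⟩ := chkD4 oRd (by norm_num) (x := x) (y := y) (z := 0) (w := 0)
      (by push_cast; linarith only [x0]) (by push_cast; linarith only [x1]) (by push_cast; linarith only [y0])
      (by push_cast; linarith only [y1]) (by push_cast; linarith only []) (by push_cast; linarith only [])
      (by norm_num) (by norm_num)
    have e0 : (E.var 0).val [x, y, 0, 0] = x := rfl
    have e' : (E.neg tu).val [x, y, 0, 0] = -(16 / 100 * τl y) := by
      show -(tu.val [x, y, 0, 0]) = _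
      rw [tu_val]
    simp only [List.mem_cons, List.not_mem_nil, or_false] at he
    rcases he with rfl | rfl | rfl
    · left
      change 0 < (inn 7700 (.neg tu) pp).val [x, y, 0, 0] at h
      rw [inn_val, τl_77, mul_zero, c77, e', pp_val] at h
      linarith only [h]
    · right; left
      change 0 < (inn 0 (.neg tu) pp).val [x, y, 0, 0] at h
      rw [inn_val, τl_0, mul_zero, c0, e', pp_val] at h
      linarith only [h]
    · right; right
      rw [oldR_val, e', pp_val, E.pl_val, e0] at h
      unfold OR
      linarith only [h]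

theorem spL (x0 : 360 / 1000 ≤ x) (x1 : x ≤ 600 / 1000) :
    0 < W x 0 - W x ⟨x, 16 / 100 * τ6 x⟩ := by
  have h := KE.chk1 sp (by norm_num) (x := x) (y := 0) (z := 0) (w := 0)
    (by constructor <;> push_cast <;> linarith only [x0, x1]) (by constructor <;> norm_num)
    (by constructor <;> norm_num) (by constructor <;> norm_num)
  change 0 < (V3x (.var 0) sE (E.c 0) (E.c 0)).val [x, 0, 0, 0] -
    (V3x (.var 0) sE (.var 0) sE).val [x, 0, 0, 0] at h
  rw [W_val, W_val, z_val, sE_val] at h
  exact h

theorem cl2 (x0 : 50 / 1000 ≤ x) (x1 : x ≤ 140 / 1000) (T0 : 10 / 1000 ≤ T) (T1 : T ≤ 78 / 1000)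
    (u0 : -(45 / 1000) ≤ u) (u1 : u ≤ 59 / 1000) :
    Oo x < N (2000 / 10000) T ⟨4 / 10, u * τl (4 / 10)⟩ + φ2 x T + 2 * Real.pi * (16 / 100 * τ6 x) := by
  have h := KE.chk1 c2 (by norm_num) (x := x) (y := T) (z := u) (w := 0)
    (by constructor <;> push_cast <;> linarith only [x0, x1]) (by constructor <;> push_cast <;> linarith only [T0, T1])
    (by constructor <;> push_cast <;> linarith only [u0, u1]) (by constructor <;> norm_num)
  rw [clo_val, E.pl_val, z_val] at h
  have e : (E.var 0).val [x, T, u, 0] = x := rfl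
  rw [e] at h
  push_cast at h
  rw [show (4000 : ℝ) / 10000 = 4 / 10 by norm_num] at h
  unfold φ2 Oo
  linarith only [h]

theorem cl3 (x0 : 140 / 1000 ≤ x) (x1 : x ≤ 360 / 1000) (T0 : 10 / 1000 ≤ T) (T1 : T ≤ 78 / 1000)
    (u0 : -(45 / 1000) ≤ u) (u1 : u ≤ 59 / 1000) :
    Oo x < N (2500 / 10000) T ⟨4 / 10, u * τl (4 / 10)⟩ + φ3 x T + 2 * Real.pi * (16 / 100 * τ6 x) := by
  have h := KE.chk1 c3 (by norm_num) (x := x) (y := T) (z := u) (w := 0)
    (by constructor <;> push_cast <;> linarith only [x0, x1]) (by constructor <;> push_cast <;> linarith only [T0, T1])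
    (by constructor <;> push_cast <;> linarith only [u0, u1]) (by constructor <;> norm_num)
  rw [clo_val, E.pl_val, z_val] at h
  have e : (E.var 0).val [x, T, u, 0] = x := rfl
  rw [e] at h
  push_cast at h
  rw [show (4000 : ℝ) / 10000 = 4 / 10 by norm_num] at h
  unfold φ3 Oo
  linarith only [h]

theorem clK (x0 : 360 / 1000 ≤ x) (x1 : x ≤ 600 / 1000) (T0 : 10 / 1000 ≤ T) (T1 : T ≤ 78 / 1000)
    (u0 : -(45 / 1000) ≤ u) (u1 : u ≤ 59 / 1000) :
    Oo x < N (3000 / 10000) T ⟨4 / 10, u * τl (4 / 10)⟩ + φK x T + 2 * Real.pi * (16 / 100 * τ6 x) := by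
  have h := KE.chk1 cK (by norm_num) (x := x) (y := T) (z := u) (w := 0)
    (by constructor <;> push_cast <;> linarith only [x0, x1]) (by constructor <;> push_cast <;> linarith only [T0, T1])
    (by constructor <;> push_cast <;> linarith only [u0, u1]) (by constructor <;> norm_num)
  rw [clo_val, E.pl_val, z_val] at h
  have e : (E.var 0).val [x, T, u, 0] = x := rfl
  rw [e] at h
  push_cast at h
  rw [show (4000 : ℝ) / 10000 = 4 / 10 by norm_num] at h
  unfold φK Oo
  linarith only [h]

theorem clR (x0 : 360 / 1000 ≤ x) (x1 : x ≤ 600 / 1000) (T0 : 10 / 1000 ≤ T) (T1 : T ≤ 78 / 1000)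
    (u0 : -(45 / 1000) ≤ u) (u1 : u ≤ 59 / 1000) :
    OR x < N (2500 / 10000) T ⟨4 / 10, u * τl (4 / 10)⟩ + φR x T + 2 * Real.pi * (16 / 100 * τ6 x) + 2 / 10 * (2 * Real.pi * (64 / 100)) := by
  have h := KE.chk1 cR (by norm_num) (x := x) (y := T) (z := u) (w := 0)
    (by constructor <;> push_cast <;> linarith only [x0, x1]) (by constructor <;> push_cast <;> linarith only [T0, T1])
    (by constructor <;> push_cast <;> linarith only [u0, u1]) (by constructor <;> norm_num)
  have e' : (E.mul .pi (.mul (.q 2 1) (.mul mu mR))).val [x, T, u, 0] =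
      2 / 10 * (2 * Real.pi * (64 / 100)) := by
    show Real.pi * (((2 : ℤ) : ℝ) / ((1 : ℕ) : ℝ) * ((((2 : ℤ) : ℝ) / ((10 : ℕ) : ℝ)) *
      (((64 : ℤ) : ℝ) / ((100 : ℕ) : ℝ)))) = _
    push_cast
    ring
  rw [clo_val, E.pl_val, e'] at h
  have e : (E.var 0).val [x, T, u, 0] = x := rfl
  rw [e] at h
  push_cast at h
  rw [show (4000 : ℝ) / 10000 = 4 / 10 by norm_num] at h
  unfold φR OR
  linarith only [h]

theorem sL0 (x0 : 0 / 1000 ≤ x) (x1 : x ≤ 20 / 1000) (T0 : 10 / 1000 ≤ T) (T1 : T ≤ 78 / 1000)
    (u0 : -(45 / 1000) ≤ u) (u1 : u ≤ 59 / 1000) (hX : LP u q X) :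
    0 < N (550 / 10000) T X + φ0 x T - W x X + 2 * Real.pi * (16 / 100 * τ6 x) ∨
    0 < N (550 / 10000) T ⟨2000 / 10000, u * τl (2000 / 10000)⟩ + φ0 x T - W x X +
      (2 * Real.pi * q + 2 * Real.pi * (16 / 100 * τ6 x)) := by
  obtain ⟨y, y0, y1, ⟨rfl, rfl⟩ | ⟨rfl, rfl⟩ | ⟨rfl, rfl⟩⟩ := hX
  · obtain ⟨e, he, h⟩ := chkF4 s0m (by norm_num) (x := x) (y := T) (z := y) (w := u)
      (by push_cast; linarith only [x0]) (by push_cast; linarith only [x1]) (by push_cast; linarith only [T0])
      (by push_cast; linarith only [T1]) (by push_cast; linarith only [y0]) (by push_cast; linarith only [y1])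
      (by push_cast; linarith only [u0]) (by push_cast; linarith only [u1])
    simp only [List.mem_cons, List.not_mem_nil, or_false] at he
    rcases he with rfl | rfl
    · left
      rw [keep_val, tm'_val] at h
      push_cast at h
      unfold φ0
      linarith only [h]
    · right
      rw [resp_val, tm'_val, z_val] at h
      push_cast at h
      unfold φ0
      linarith only [h]
  · obtain ⟨e, he, h⟩ := chkF4 s0u (by norm_num) (x := x) (y := T) (z := y) (w := u)
      (by push_cast; linarith only [x0]) (by push_cast; linarith only [x1]) (by push_cast; linarith only [T0])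
      (by push_cast; linarith only [T1]) (by push_cast; linarith only [y0]) (by push_cast; linarith only [y1])
      (by push_cast; linarith only [u0]) (by push_cast; linarith only [u1])
    simp only [List.mem_cons, List.not_mem_nil, or_false] at he
    rcases he with rfl | rfl
    · left
      rw [keep_val, tu'_val] at h
      push_cast at h
      unfold φ0
      linarith only [h]
    · right
      rw [resp_val, tu'_val, pp'_val] at h
      push_cast at h
      unfold φ0
      linarith only [h]
  · obtain ⟨e, he, h⟩ := chkF4 s0d (by norm_num) (x := x) (y := T) (z := y) (w := u)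
      (by push_cast; linarith only [x0]) (by push_cast; linarith only [x1]) (by push_cast; linarith only [T0])
      (by push_cast; linarith only [T1]) (by push_cast; linarith only [y0]) (by push_cast; linarith only [y1])
      (by push_cast; linarith only [u0]) (by push_cast; linarith only [u1])
    have e' : (E.neg tu').val [x, T, y, u] = -(16 / 100 * τl y) := by
      show -(tu'.val [x, T, y, u]) = _
      rw [tu'_val]
    simp only [List.mem_cons, List.not_mem_nil, or_false] at he
    rcases he with rfl | rfl
    · left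
      rw [keep_val, e'] at h
      push_cast at h
      unfold φ0
      linarith only [h]
    · right
      rw [resp_val, e', pp'_val] at h
      push_cast at h
      unfold φ0
      linarith only [h]

theorem sL1 (x0 : 20 / 1000 ≤ x) (x1 : x ≤ 50 / 1000) (T0 : 10 / 1000 ≤ T) (T1 : T ≤ 78 / 1000)
    (u0 : -(45 / 1000) ≤ u) (u1 : u ≤ 59 / 1000) (hX : LP u q X) :
    0 < N (850 / 10000) T X + φ1 x T - W x X + 2 * Real.pi * (16 / 100 * τ6 x) ∨
    0 < N (850 / 10000) T ⟨2000 / 10000, u * τl (2000 / 10000)⟩ + φ1 x T - W x X +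
      (2 * Real.pi * q + 2 * Real.pi * (16 / 100 * τ6 x)) ∨
    0 < N (850 / 10000) T ⟨3000 / 10000, u * τl (3000 / 10000)⟩ + φ1 x T - W x X +
      (2 * Real.pi * q + 2 * Real.pi * (16 / 100 * τ6 x)) := by
  obtain ⟨y, y0, y1, ⟨rfl, rfl⟩ | ⟨rfl, rfl⟩ | ⟨rfl, rfl⟩⟩ := hX
  · obtain ⟨e, he, h⟩ := chkF4 s1m (by norm_num) (x := x) (y := T) (z := y) (w := u)
      (by push_cast; linarith only [x0]) (by push_cast; linarith only [x1]) (by push_cast; linarith only [T0])
      (by push_cast; linarith only [T1]) (by push_cast; linarith only [y0]) (by push_cast; linarith only [y1])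
      (by push_cast; linarith only [u0]) (by push_cast; linarith only [u1])
    simp only [List.mem_cons, List.not_mem_nil, or_false] at he
    rcases he with rfl | rfl | rfl
    · left
      rw [keep_val, tm'_val] at h
      push_cast at h
      unfold φ1
      linarith only [h]
    · right; left
      rw [resp_val, tm'_val, z_val] at h
      push_cast at h
      unfold φ1
      linarith only [h]
    · right; right
      rw [resp_val, tm'_val, z_val] at h
      push_cast at h
      unfold φ1
      linarith only [h]
  · obtain ⟨e, he, h⟩ := chkF4 s1u (by norm_num) (x := x) (y := T) (z := y) (w := u)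
      (by push_cast; linarith only [x0]) (by push_cast; linarith only [x1]) (by push_cast; linarith only [T0])
      (by push_cast; linarith only [T1]) (by push_cast; linarith only [y0]) (by push_cast; linarith only [y1])
      (by push_cast; linarith only [u0]) (by push_cast; linarith only [u1])
    simp only [List.mem_cons, List.not_mem_nil, or_false] at he
    rcases he with rfl | rfl | rfl
    · left
      rw [keep_val, tu'_val] at h
      push_cast at h
      unfold φ1
      linarith only [h]
    · right; left
      rw [resp_val, tu'_val, pp'_val] at h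
      push_cast at h
      unfold φ1
      linarith only [h]
    · right; right
      rw [resp_val, tu'_val, pp'_val] at h
      push_cast at h
      unfold φ1
      linarith only [h]
  · obtain ⟨e, he, h⟩ := chkF4 s1d (by norm_num) (x := x) (y := T) (z := y) (w := u)
      (by push_cast; linarith only [x0]) (by push_cast; linarith only [x1]) (by push_cast; linarith only [T0])
      (by push_cast; linarith only [T1]) (by push_cast; linarith only [y0]) (by push_cast; linarith only [y1])
      (by push_cast; linarith only [u0]) (by push_cast; linarith only [u1])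
    have e' : (E.neg tu').val [x, T, y, u] = -(16 / 100 * τl y) := by
      show -(tu'.val [x, T, y, u]) = _
      rw [tu'_val]
    simp only [List.mem_cons, List.not_mem_nil, or_false] at he
    rcases he with rfl | rfl | rfl
    · left
      rw [keep_val, e'] at h
      push_cast at h
      unfold φ1
      linarith only [h]
    · right; left
      rw [resp_val, e', pp'_val] at h
      push_cast at h
      unfold φ1
      linarith only [h]
    · right; right
      rw [resp_val, e', pp'_val] at h
      push_cast at h
      unfold φ1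
      linarith only [h]

end MKE

end Pool.Agent.Work.MP_b30479_gtS.G2

end

section

/-!
# Modes `1 | 3`, the `3` at an end
-/

namespace Pool.Agent.Work.MP_b30479_gtS.G2

open Finset VOL Filter Topology SR NumGs

namespace MKE

theorem τl_nonneg (y : ℝ) : 0 ≤ τl y := by
  unfold τl tr
  exact le_max_left _ _

theorem LP.q0 {u q : ℝ} {X : ℂ} (h : LP u q X) : 0 ≤ q := by
  obtain ⟨y, y0, y1, ⟨-, rfl⟩ | ⟨-, rfl⟩ | ⟨-, rfl⟩⟩ := h
  · exact le_rfl
  · have := τl_nonneg y; positivity
  · have := τl_nonneg y; positivity

theorem τl_77' : τl (77 / 100) = 0 := by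
  unfold τl tr
  norm_num

theorem τl_0' : τl 0 = 0 := by
  unfold τl tr
  norm_num

/-- **The contradiction.** -/
theorem no13 {x T u q : ℝ} {K L : ℂ} (x0 : 0 ≤ x) (x1 : x ≤ 600 / 1000) (T0 : 10 / 1000 ≤ T)
    (T1 : T ≤ 78 / 1000) (u0 : -(45 / 1000) ≤ u) (u1 : u ≤ 59 / 1000) (hK : KP K) (hL : LP u q L)
    (keyK : ∀ c, 0 ≤ c → c ≤ 6 / 10 → Gk c T x K + (N c T L - W x L) +
      2 * Real.pi * (16 / 100 * τ6 x) ≤ 0)
    (keyI : ∀ c c', 0 ≤ c → c ≤ 6 / 10 → 0 ≤ c' → c' ≤ 77 / 100 → Gk c T x K +
      (N c T ⟨c', u * τl c'⟩ - W x L + 2 * Real.pi * q) + 2 * Real.pi * (16 / 100 * τ6 x) ≤ 0)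
    (keyJ : ∀ c', 0 ≤ c' → c' ≤ 77 / 100 → W x ⟨c', u * τl c'⟩ - W x L + 2 * Real.pi * q ≤ 0)
    (foc : 360 / 1000 ≤ x → K.re ≤ 370 / 1000 → L ≠ ⟨x, 16 / 100 * τ6 x⟩ →
      dh1 ⟨x, -(16 / 100 * τ6 x)⟩ K (64 / 100) + dh3a ⟨x, 16 / 100 * τ6 x⟩ L (-(64 / 100)) +
        2 * Real.pi * (64 / 100) = 0) : False := by
  rcases le_total x (20 / 1000) with h0 | h0
  · have a1 := g0 (by linarith only [x0]) h0 T0 T1 hK
    rcases sL0 (by linarith only [x0]) h0 T0 T1 u0 u1 hL with h | h
    · have := keyK (550 / 10000) (by norm_num) (by norm_num)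
      linarith only [a1, h, this]
    · have := keyI (550 / 10000) (2000 / 10000) (by norm_num) (by norm_num) (by norm_num)
        (by norm_num)
      linarith only [a1, h, this]
  rcases le_total x (50 / 1000) with h1 | h1
  · have a1 := g1 h0 h1 T0 T1 hK
    rcases sL1 h0 h1 T0 T1 u0 u1 hL with h | h | h
    · have := keyK (850 / 10000) (by norm_num) (by norm_num)
      linarith only [a1, h, this]
    · have := keyI (850 / 10000) (2000 / 10000) (by norm_num) (by norm_num) (by norm_num)
        (by norm_num)
      linarith only [a1, h, this]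
    · have := keyI (850 / 10000) (3000 / 10000) (by norm_num) (by norm_num) (by norm_num)
        (by norm_num)
      linarith only [a1, h, this]
  rcases le_total x (140 / 1000) with h2 | h2
  · have a1 := g2 h1 h2 T0 T1 hK
    have a2 := oO h1 x1 u0 u1 hL
    have a3 := cl2 h1 h2 T0 T1 u0 u1
    have := keyI (2000 / 10000) (4 / 10) (by norm_num) (by norm_num) (by norm_num) (by norm_num)
    linarith only [a1, a2, a3, this]
  rcases le_total x (360 / 1000) with h3 | h3
  · have a1 := g3 h2 h3 T0 T1 hK
    have a2 := oO h1 x1 u0 u1 hL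
    have a3 := cl3 h2 h3 T0 T1 u0 u1
    have := keyI (2500 / 10000) (4 / 10) (by norm_num) (by norm_num) (by norm_num) (by norm_num)
    linarith only [a1, a2, a3, this]
  rcases le_total K.re (370 / 1000) with h4 | h4
  · by_cases hL0 : L = ⟨x, 16 / 100 * τ6 x⟩
    · have a1 := spL h3 x1
      have a2 := keyJ 0 le_rfl (by norm_num)
      rw [τl_0', mul_zero, show (⟨0, 0⟩ : ℂ) = 0 from rfl, hL0] at a2
      have a3 : 0 ≤ 2 * Real.pi * q := mul_nonneg (by positivity) hL.q0
      linarith only [a1, a2, a3]
    · have a1 := gR h3 x1 T0 T1 h4 hK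
      have a3 := clR h3 x1 T0 T1 u0 u1
      rcases oR h3 x1 u0 u1 hL with h | h | h
      · have := keyJ (77 / 100) (by norm_num) le_rfl
        rw [τl_77', mul_zero] at this
        linarith only [h, this]
      · have := keyJ 0 le_rfl (by norm_num)
        rw [τl_0', mul_zero, show (⟨0, 0⟩ : ℂ) = 0 from rfl] at this
        linarith only [h, this]
      · have b1 := keyI (2500 / 10000) (4 / 10) (by norm_num) (by norm_num) (by norm_num)
          (by norm_num)
        have b2 := foc h3 h4 hL0
        linarith only [a1, a3, h, b1, b2]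
  · have a1 := gK h3 x1 T0 T1 h4 hK
    have a2 := oO h1 x1 u0 u1 hL
    have a3 := clK h3 x1 T0 T1 u0 u1
    have := keyI (3000 / 10000) (4 / 10) (by norm_num) (by norm_num) (by norm_num) (by norm_num)
    linarith only [a1, a2, a3, this]

end MKE

variable {M : ℕ} {b : Fin (M + 1) → ℤ} {zs : DD (tyW b) ⊕ ZZ (tyW b) → ℂ}
variable {R : Finset (DD (tyW b))} {nb : Finset (DD (tyW b) ⊕ ZZ (tyW b))}
variable {z : DD (tyW b) ⊕ ZZ (tyW b) → ℂ} {p : DD (tyW b) → ℝ}
variable {h h' : Fin M} {i j j' : Fin (M + 1)} {s : Fin 3} {x c : ℝ}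

namespace MKE

/-- parameters of a hinge between a digit `1` and a `3` at an end -/
theorem par_threeE (A : Adj h i s j) (hi : clsW b i = .one) (hj : clsW b j = .threeE) :
    wXM b h = 6 / 10 ∧ wcl b h = 14 / 100 ∧ wcr b h = 25 / 100 ∧ (∀ x, trh b h x = τ6 x) ∧
      ∀ q, mhs b h q = 16 / 100 := by
  have h1 : wXM b h = 600 / 1000 ∧ wcl b h = 140 / 1000 ∧ wcr b h = 250 / 1000 := by
    rw [A.XM_eq b, A.cl_eq b, A.cr_eq b]
    unfold hpp
    rw [hi, hj]
    simp only [hp, hp1]
    split_ifs <;> norm_num
  refine ⟨by rw [h1.1]; norm_num, by rw [h1.2.1]; norm_num, by rw [h1.2.2]; norm_num,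
    fun x => ?_, fun q => ?_⟩
  · unfold trh τ6
    rw [h1.1, h1.2.1, h1.2.2]
    norm_num
  · unfold mhs
    cases A with
    | l => rw [hi, hj]; simp
    | r => rw [hi, hj]; simp

theorem LP_of (hL : Loc b zs) (m : {i : Fin (M + 1) // (tyW b i).isMid = true})
    (hc : clsW b m.1 = .threeE) {X : ℂ} (I : IPos b zs p m X) :
    LP (SR.Tm b zs m) (p (.inr m)) X := by
  have e : ∀ y, trm b m y = τl y := by
    intro y
    rw [trmE m hc]
    unfold τl
    norm_num
  have hx : ∀ y : ℝ, y ≤ (mp (clsW b m.1)).XM → y ≤ 77 / 100 := by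
    intro y hy
    rw [hc] at hy
    exact hy
  cases I with
  | main y y0 y1 e' hp => exact ⟨y, y0, hx y y1, Or.inl ⟨by rw [e', e], hp⟩⟩
  | up y y0 y1 _ e' hp => exact ⟨y, y0, hx y y1, Or.inr (Or.inl ⟨by rw [e', e], by rw [hp, e]⟩)⟩
  | dn y y0 y1 _ e' hp => exact ⟨y, y0, hx y y1, Or.inr (Or.inr ⟨by rw [e', e], by rw [hp, e]⟩)⟩

theorem tgi_eq (m : {i : Fin (M + 1) // (tyW b i).isMid = true}) (hc : clsW b m.1 = .threeE)
    (y : ℝ) : tgi b zs m y = ⟨y, SR.Tm b zs m * τl y⟩ := by
  unfold tgi
  have e := trmE m hc y
  unfold trm at e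
  rw [e]
  unfold τl SR.Tm
  norm_num

end MKE

/-- **Modes `1 | 3`, the `3` at an end.** -/
theorem kd_one_threeE (hb : ClassW b) (L : LocA b zs) (s : Fin 3) : Kd b zs .one .threeE s := by
  intro R nb z p h i j x hN hM hq D hi hj
  obtain ⟨m, rfl⟩ : ∃ m : {i : Fin (M + 1) // (tyW b i).isMid = true}, m.1 = j :=
    ⟨⟨j, tyW_isMid (Or.inr hj)⟩, rfl⟩
  obtain ⟨hXM, hcl, hcr, ht, hm⟩ := MKE.par_threeE D.adj hi hj
  have B := D.adj.symm
  obtain ⟨h', j', A'⟩ := D.adj.other' b (clsW_inner hb (Or.inl hi))
  have P := hM.npos hb hN hq D.adj D.nn A'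
  obtain ⟨hT0, hT1, -, -⟩ := L.X.win D.adj A' hi
  have hTT : 10 / 1000 ≤ Th b zs h i ∧ Th b zs h i ≤ 78 / 1000 := by
    have hT0' : (cw (clsW b j') (clsW b m.1)).t0 ≤ Th b zs h i := hT0
    have hT1' : Th b zs h i ≤ (cw (clsW b j') (clsW b m.1)).t1 := hT1
    rw [hj] at hT0' hT1'
    have hk := okp_of hb D.adj A' hi
    rw [hj] at hk
    unfold ML.okp at hk
    rcases hP : clsW b j' <;> rw [hP] at hT0' hT1' hk <;> simp only [cw] at hT0' hT1' <;>
      first | (constructor <;> linarith only [hT0', hT1']) | (exfalso; simp at hk)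
  obtain ⟨hnn, I⟩ := hM.ipos hN m B D.nn
  have hLP := MKE.LP_of L.L m hj I
  have hu := TmE_mem L.L m hj
  have hx1 := D.x1
  rw [hXM] at hx1
  have hown : Ow b z i s = ⟨x, -(16 / 100 * MKE.τ6 x)⟩ := by rw [D.own, hm, ht]
  have hopp : Ow b z m.1 s.rev = ⟨x, 16 / 100 * MKE.τ6 x⟩ := by rw [D.opp, hm, ht]
  have htg : ∀ c, tgo b zs h i c = ⟨c, Th b zs h i * MKE.τ6 c⟩ := fun c => by
    unfold tgo; rw [ht]
  have htg' : ∀ c, tgo b zs h m.1 c = ⟨c, -(Th b zs h i * MKE.τ6 c)⟩ := fun c => by
    unfold tgo; rw [ht, D.Tj, neg_mul]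
  refine MKE.no13 (K := Ow b z i s.rev) (L := Ow b z m.1 1) D.x0.le (by linarith only [hx1]) hTT.1 hTT.2
    hu.1 hu.2 ?_ hLP ?_ ?_ ?_ ?_
  · rcases MKA.one_pos hb L.L A' hi P with h3 | ⟨h3, -, -⟩
    · exact h3
    · exfalso
      have hk := okp_of hb D.adj A' hi
      rw [hj, h3] at hk
      unfold ML.okp at hk
      simp at hk
  · intro c c0 c1
    have k1 := keep_one (zs := zs) (nb := nb) (z := z) (p := p) (c := c) hb D.adj hi
    have k2 := keep_threeE (zs := zs) (nb := nb) (z := z) (p := p) (c := c) B hj
    have := D.star hb hN.ok.1 hM c0 (by rw [hXM]; exact c1) k1 k2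
    rw [hown, hopp, hm, ht, htg, htg'] at this
    exact this
  · intro c c' c0 c1 c0' c1'
    have k1 := keep_one (zs := zs) (nb := nb) (z := z) (p := p) (c := c) hb D.adj hi
    have k2 := inner_threeE (zs := zs) (z := z) (p := p) (c := c) m B hj hnn c0' c1'
    have := D.star hb hN.ok.1 hM c0 (by rw [hXM]; exact c1) k1 k2
    rw [hown, hopp, hm, ht, htg, htg', MKE.tgi_eq m hj] at this
    exact this
  · intro c' c0 c1
    have := hM.inner3E hb hN.ok.1 m B hj hnn c0 c1
    rw [hopp, MKE.tgi_eq m hj] at this
    exact this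
  · intro hx hK hne
    have hkt := (trh_right (b := b) (h := h) (x := x) (by rw [hXM, hcr]; linarith only [hx]) D.x1).2
    have hK0 := P.re.1
    have dK : DOk (Ow b z i s + Ow b z i s.rev) := by
      right
      rw [hown]
      unfold strip
      constructor
      · show 0 < x + _
        linarith only [hx, hK0, D.x0]
      · show x + _ < 1
        linarith only [hx1, hK]
    have ki := der_one hb D.adj hi (a := -mhs b h s) hkt D.own' D.ok_own dK
    have e1 : -mhs b h s * -(1 / wcr b h) = 64 / 100 := by
      rw [hm, hcr]; norm_num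
    have e2 : mhs b h s * -(1 / wcr b h) = -(64 / 100) := by
      rw [hm, hcr]; norm_num
    by_cases hd : DOk (Ow b z m.1 1 - Ow b z m.1 s.rev)
    · have kj := der_threeE B hj (a := mhs b h s) hkt (by rw [D.opp]) D.ok_opp hd
      have hf := D.foc hb hN.ok.1 hM ki kj hkt
      rw [e1, e2, hown, hopp] at hf
      linarith only [hf]
    · exfalso
      unfold DOk at hd
      push Not at hd
      obtain ⟨d1, d2⟩ := hd
      obtain ⟨y, y0, y1, hy⟩ := hLP
      have hre : (Ow b z m.1 1).re = y := by
        rcases hy with ⟨e, -⟩ | ⟨e, -⟩ | ⟨e, -⟩ <;> rw [e]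
      have hre2 : (Ow b z m.1 s.rev).re = x := by rw [hopp]
      rcases lt_trichotomy (Ow b z m.1 1 - Ow b z m.1 s.rev).re 0 with h4 | h4 | h4
      · refine D.kinkE hb hN.ok.1 hM hj ki hkt ?_ d1 ?_ h4
        · rw [hcr]; norm_num
        · rw [Complex.sub_re, hre, hre2]
          linarith only [hx1, y0]
      · apply hne
        have : Ow b z m.1 1 - Ow b z m.1 s.rev = 0 := Complex.ext h4 d1
        rw [← hopp]
        exact sub_eq_zero.1 this
      · apply d2
        unfold strip
        refine ⟨h4, ?_⟩
        rw [Complex.sub_re, hre, hre2]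
        linarith only [hx, y1, D.x0]

end Pool.Agent.Work.MP_b30479_gtS.G2

end

section

/-!
# The kind `1 | 3`, slot `0` of the `3`: consequences of maximality

`M13.H x T Tl pl k l w`: the hinge `1 | 3` is on its mirrored path at `x`; `T` height of the saddle
point in the frame of the `1`; `k` the other hinge of the `1`, `l` the inner variable of the `3` (`Tl`
height of its saddle point, `pl` its penalty), `w` the hinge of the `3` in the slot `2`.  The moves
`keep`, `resp`, `inner`, the move along the mirrored path `mir`, and the first order conditions.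
-/

namespace Pool.Agent.Work.MP_b30479_gtS.G2

open Finset VOL Filter Topology

namespace M13

/-- ramp function of the hinge -/
noncomputable def τ (x : ℝ) : ℝ := tr 0 (65 / 100) (13 / 100) (15 / 100) x

/-- ramp function of the inner variable -/
noncomputable def τl (y : ℝ) : ℝ := tr 0 (8 / 10) (5 / 100) (5 / 100) y

/-- mirrored position in the frame of the `1` -/
noncomputable def um (x : ℝ) : ℂ := ⟨x, -(1 / 2 * τ x)⟩

/-- mirrored position in the frame of the `3` -/
noncomputable def up (x : ℝ) : ℂ := ⟨x, 1 / 2 * τ x⟩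

/-- target in the frame of the `1` -/
noncomputable def cm (T c : ℝ) : ℂ := ⟨c, T * τ c⟩

/-- target in the frame of the `3` -/
noncomputable def cp (T c : ℝ) : ℂ := ⟨c, -(T * τ c)⟩

/-- target of the inner variable -/
noncomputable def li (Tl y : ℝ) : ℂ := ⟨y, Tl * τl y⟩

/-- positions of the other hinge of the `1`, by the class of the other neighbour -/
inductive KP (T : ℝ) (k : ℂ) : Prop
  | one : 21 / 1000 ≤ T → T ≤ 92 / 1000 → 0 ≤ k.re → k.re ≤ 86 / 100 →
      |k.im| ≤ 16 / 100 * tr 0 (86 / 100) (15 / 100) (20 / 100) k.re → KP T k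
  | two : 46 / 1000 ≤ T → T ≤ 94 / 1000 → 0 ≤ k.re → k.re ≤ 80 / 100 →
      |k.im| ≤ 16 / 100 * tr 0 (80 / 100) (16 / 100) (29 / 100) k.re → KP T k
  /-- a `2` at an end, main path (or real) -/
  | em : 87 / 1000 ≤ T → T ≤ 1145 / 10000 → 0 ≤ k.re → k.re ≤ 70 / 100 →
      (∃ s : ℝ, -(45 / 1000) ≤ s ∧ s ≤ 0 ∧
        k.im = s * tr 0 (70 / 100) (14 / 100) (35 / 100) k.re) → KP T k
  /-- a `2` at an end, mirrored path -/
  | eu : 87 / 1000 ≤ T → T ≤ 1145 / 10000 → 0 ≤ k.re → k.re ≤ 70 / 100 →
      k.im = 16 / 100 * tr 0 (70 / 100) (14 / 100) (35 / 100) k.re → KP T k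

/-- positions of the inner variable and its penalty -/
inductive LP (Tl pl : ℝ) (l : ℂ) : Prop
  | main : l.im = Tl * τl l.re → pl = 0 → LP Tl pl l
  | up : Tl ≤ 0 → l.im = 16 / 100 * τl l.re → pl = 16 / 100 * τl l.re → LP Tl pl l
  | dn : 0 ≤ Tl → l.im = -(16 / 100 * τl l.re) → pl = 16 / 100 * τl l.re → LP Tl pl l

/-- **Consequences of maximality.** -/
structure H (x T Tl pl : ℝ) (k l w : ℂ) : Prop where
  x0 : 0 < x
  x1 : x < 65 / 100
  kp : KP T k
  lp : LP Tl pl l
  l0 : 0 ≤ l.re
  l1 : l.re ≤ 8 / 10
  t0 : -(90 / 1000) ≤ Tl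
  t1 : Tl ≤ 5 / 1000
  s0 : -(45 / 1000) ≤ Tl + T
  s1 : Tl + T ≤ 84 / 1000
  w0 : 0 ≤ w.re
  w1 : w.re ≤ 65 / 100
  w2 : |w.im| ≤ 16 / 100 * tr 0 (65 / 100) (13 / 100) (29 / 100) w.re
  /-- star move, the inner variable is kept -/
  keep : ∀ c : ℝ, 0 ≤ c → c ≤ 65 / 100 → V1 (cm T c) k - V1 (um x) k +
    (V3 (cp T c) l w - V3 (up x) l w) + 2 * Real.pi * (1 / 2 * τ x) ≤ 0
  /-- star move, the inner variable is moved to its main path -/
  resp : ∀ c y : ℝ, 0 ≤ c → c ≤ 65 / 100 → 0 ≤ y → y ≤ 8 / 10 → V1 (cm T c) k - V1 (um x) k +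
    (V3 (cp T c) (li Tl y) w - V3 (up x) l w) + 2 * Real.pi * pl +
      2 * Real.pi * (1 / 2 * τ x) ≤ 0
  /-- the inner variable is moved to its main path -/
  inner : ∀ y : ℝ, 0 ≤ y → y ≤ 8 / 10 →
    V3 (up x) (li Tl y) w - V3 (up x) l w + 2 * Real.pi * pl ≤ 0
  /-- the hinge is moved along the mirrored path -/
  mir : ∀ y : ℝ, 0 ≤ y → y ≤ 65 / 100 →
    V1 (um y) k + V3 (up y) l w - 2 * Real.pi * (1 / 2 * τ y) ≤
      V1 (um x) k + V3 (up x) l w - 2 * Real.pi * (1 / 2 * τ x)

/-! ### the value of the digit `1` at a kink -/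

/-- the value of a digit `1` with one of the two branches at the kink -/
noncomputable def V1s (σ : ℝ) (u k : ℂ) : ℝ :=
  Real.pi * (u * k - u - k).im + UU (u + k - 1) - UU u - UU k + σ * (Real.pi * (u + k).im)

theorem V1s_le {σ : ℝ} (h : |σ| ≤ 1) (u k : ℂ) : V1s σ u k ≤ V1 u k := by
  have h1 := UU_add_one (u + k - 1)
  rw [sub_add_cancel] at h1
  have e : (u + k - 1).im = (u + k).im := by simp
  rw [e] at h1
  have h2 : σ * (Real.pi * (u + k).im) ≤ Real.pi * |(u + k).im| := by
    have h3 : σ * (Real.pi * (u + k).im) ≤ |σ * (Real.pi * (u + k).im)| := le_abs_self _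
    rw [abs_mul, abs_mul, abs_of_pos Real.pi_pos] at h3
    have h4 : |σ| * (Real.pi * |(u + k).im|) ≤ 1 * (Real.pi * |(u + k).im|) :=
      mul_le_mul_of_nonneg_right h (by positivity)
    linarith only [h3, h4]
  unfold V1s V1
  linarith only [h1, h2]

theorem V1s_eq {σ : ℝ} {u k : ℂ} (h : (u + k).im = 0) : V1s σ u k = V1 u k := by
  have h1 := UU_add_one (u + k - 1)
  rw [sub_add_cancel] at h1
  have e : (u + k - 1).im = (u + k).im := by simp
  rw [e, h, abs_zero, mul_zero, add_zero] at h1
  unfold V1s V1
  rw [h, h1]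
  ring

theorem hasDerivAt_V1s {g : ℝ → ℂ} {m t : ℝ} (σ : ℝ) (hg : HasDerivAt g (1 + m * Complex.I) t)
    (k : ℂ) (h1 : DOk (g t)) (h2 : g t + k - 1 ∈ strip) :
    HasDerivAt (fun t => V1s σ (g t) k) (Real.pi * (k.im + m * (k.re - 1)) +
      dU (g t + k - 1) m - dU (g t) m + σ * (Real.pi * m)) t := by
  have a1 := hasDerivAt_dU hg h1
  have a2 := hasDerivAt_dU ((hg.add_const k).sub_const 1) (Or.inr h2)
  have a3 := (hasDerivAt_im' (((hg.mul_const k).sub hg).sub_const k)).const_mul Real.pi
  have a5 := ((hasDerivAt_im' (hg.add_const k)).const_mul Real.pi).const_mul σ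
  refine ((((a3.add a2).sub a1).sub_const (UU k)).add a5).congr_deriv ?_
  simp
  ring

/-! ### first order conditions -/

variable {x T Tl pl : ℝ} {k l w : ℂ}

theorem τ_pos (x0 : 0 < x) (x1 : x < 65 / 100) : 0 < τ x := by
  unfold τ tr
  refine lt_max_of_lt_right (lt_min one_pos (lt_min ?_ ?_))
  · exact div_pos (by linarith only [x0]) (by norm_num)
  · exact div_pos (by linarith only [x1]) (by norm_num)

theorem H.ok_um (h : H x T Tl pl k l w) : DOk (um x) := by
  refine Or.inl (ne_of_lt ?_)
  have := τ_pos h.x0 h.x1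
  show -(1 / 2 * τ x) < 0
  linarith only [this]

theorem H.ok_up (h : H x T Tl pl k l w) : DOk (up x) := by
  refine Or.inl (ne_of_gt ?_)
  have := τ_pos h.x0 h.x1
  show 0 < 1 / 2 * τ x
  linarith only [this]

theorem hasDerivAt_line (a μ : ℝ) (x : ℝ) : HasDerivAt (fun y : ℝ => (⟨y, a + μ * (y - x)⟩ : ℂ))
    (1 + (μ : ℝ) * Complex.I) x := by
  have e : (fun y : ℝ => (⟨y, a + μ * (y - x)⟩ : ℂ)) =
      fun y : ℝ => (y : ℂ) + ((a + μ * (y - x) : ℝ) : ℂ) * Complex.I := by
    funext y
    apply Complex.ext <;> simp
  rw [e]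
  have h1 : HasDerivAt (fun y : ℝ => a + μ * (y - x)) μ x := by
    have := (((hasDerivAt_id x).sub_const x).const_mul μ).const_add a
    simpa using this
  exact ((hasDerivAt_id x).ofReal_comp).add ((h1.ofReal_comp).mul_const Complex.I)

/-- right slopes, with minorants of the values -/
theorem H.der_right (h : H x T Tl pl k l w) {μ d1 d3 : ℝ} {f1 f3 : ℝ → ℝ}
    (hμ : ∀ᶠ y in 𝓝[≥] x, 1 / 2 * τ y = 1 / 2 * τ x + μ * (y - x))
    (k1 : HasDerivAt f1 d1 x) (k3 : HasDerivAt f3 d3 x)
    (e1 : f1 x = V1 (um x) k) (e3 : f3 x = V3 (up x) l w)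
    (m1 : ∀ y, 1 / 2 * τ y = 1 / 2 * τ x + μ * (y - x) → f1 y ≤ V1 (um y) k)
    (m3 : ∀ y, 1 / 2 * τ y = 1 / 2 * τ x + μ * (y - x) → f3 y ≤ V3 (up y) l w) :
    d1 + d3 - 2 * Real.pi * μ ≤ 0 := by
  have kt : HasDerivAt (fun y : ℝ => 1 / 2 * τ x + μ * (y - x)) μ x := by
    have := (((hasDerivAt_id x).sub_const x).const_mul μ).const_add (1 / 2 * τ x)
    simpa using this
  refine SR.der_nonpos_of ((k1.add k3).sub (kt.const_mul (2 * Real.pi))) ?_
  have h1 : ∀ᶠ y in 𝓝[≥] x, y ∈ Set.Ioo 0 (65 / 100 : ℝ) :=
    (Ioo_mem_nhds h.x0 h.x1 : _ ∈ 𝓝 x) |> mem_nhdsWithin_of_mem_nhds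
  filter_upwards [h1, hμ] with y hy hy2
  have a1 := h.mir y hy.1.le hy.2.le
  have a2 := m1 y hy2
  have a3 := m3 y hy2
  simp only [Pi.add_apply, Pi.sub_apply]
  rw [e1, e3, ← hy2]
  simp only [sub_self, mul_zero, add_zero]
  linarith only [a1, a2, a3]

/-- left slopes, with minorants of the values -/
theorem H.der_left (h : H x T Tl pl k l w) {μ d1 d3 : ℝ} {f1 f3 : ℝ → ℝ}
    (hμ : ∀ᶠ y in 𝓝[≤] x, 1 / 2 * τ y = 1 / 2 * τ x + μ * (y - x))
    (k1 : HasDerivAt f1 d1 x) (k3 : HasDerivAt f3 d3 x)
    (e1 : f1 x = V1 (um x) k) (e3 : f3 x = V3 (up x) l w)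
    (m1 : ∀ y, 1 / 2 * τ y = 1 / 2 * τ x + μ * (y - x) → f1 y ≤ V1 (um y) k)
    (m3 : ∀ y, 1 / 2 * τ y = 1 / 2 * τ x + μ * (y - x) → f3 y ≤ V3 (up y) l w) :
    0 ≤ d1 + d3 - 2 * Real.pi * μ := by
  have kt : HasDerivAt (fun y : ℝ => 1 / 2 * τ x + μ * (y - x)) μ x := by
    have := (((hasDerivAt_id x).sub_const x).const_mul μ).const_add (1 / 2 * τ x)
    simpa using this
  refine SR.der_nonneg_of ((k1.add k3).sub (kt.const_mul (2 * Real.pi))) ?_
  have h1 : ∀ᶠ y in 𝓝[≤] x, y ∈ Set.Ioo 0 (65 / 100 : ℝ) :=
    (Ioo_mem_nhds h.x0 h.x1 : _ ∈ 𝓝 x) |> mem_nhdsWithin_of_mem_nhds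
  filter_upwards [h1, hμ] with y hy hy2
  have a1 := h.mir y hy.1.le hy.2.le
  have a2 := m1 y hy2
  have a3 := m3 y hy2
  simp only [Pi.add_apply, Pi.sub_apply]
  rw [e1, e3, ← hy2]
  simp only [sub_self, mul_zero, add_zero]
  linarith only [a1, a2, a3]

theorem um_of {μ y : ℝ} (hy : 1 / 2 * τ y = 1 / 2 * τ x + μ * (y - x)) :
    (⟨y, -(1 / 2 * τ x) + -μ * (y - x)⟩ : ℂ) = um y := by
  unfold um
  rw [hy]
  congr 1
  ring

theorem up_of {μ y : ℝ} (hy : 1 / 2 * τ y = 1 / 2 * τ x + μ * (y - x)) :
    (⟨y, 1 / 2 * τ x + μ * (y - x)⟩ : ℂ) = up y := by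
  unfold up
  rw [hy]

theorem self_um (μ : ℝ) : (⟨x, -(1 / 2 * τ x) + -μ * (x - x)⟩ : ℂ) = um x := by
  unfold um
  simp

theorem self_up (μ : ℝ) : (⟨x, 1 / 2 * τ x + μ * (x - x)⟩ : ℂ) = up x := by
  unfold up
  simp

/-- **First order condition, right slopes** -/
theorem H.foc_right (h : H x T Tl pl k l w) {μ : ℝ}
    (hμ : ∀ᶠ y in 𝓝[≥] x, 1 / 2 * τ y = 1 / 2 * τ x + μ * (y - x))
    (o1 : DOk (um x + k)) (o3 : DOk (l - up x)) :
    dh1 (um x) k (-μ) + dh3a (up x) l μ - 2 * Real.pi * μ ≤ 0 := by
  have g1 := hasDerivAt_V1 (hasDerivAt_line (-(1 / 2 * τ x)) (-μ) x) k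
    (by rw [self_um]; exact h.ok_um) (by rw [self_um]; exact o1)
  have g3 := hasDerivAt_V3a (hasDerivAt_line (1 / 2 * τ x) μ x) l w
    (by rw [self_up]; exact h.ok_up) (by rw [self_up]; exact o3)
  rw [self_um] at g1
  rw [self_up] at g3
  refine h.der_right hμ g1 g3 ?_ ?_ ?_ ?_
  · simp only [self_um]
  · simp only [self_up]
  · intro y hy
    simp only [um_of hy, le_refl]
  · intro y hy
    simp only [up_of hy, le_refl]

/-- **First order condition, left slopes** -/
theorem H.foc_left (h : H x T Tl pl k l w) {μ : ℝ}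
    (hμ : ∀ᶠ y in 𝓝[≤] x, 1 / 2 * τ y = 1 / 2 * τ x + μ * (y - x))
    (o1 : DOk (um x + k)) (o3 : DOk (l - up x)) :
    0 ≤ dh1 (um x) k (-μ) + dh3a (up x) l μ - 2 * Real.pi * μ := by
  have g1 := hasDerivAt_V1 (hasDerivAt_line (-(1 / 2 * τ x)) (-μ) x) k
    (by rw [self_um]; exact h.ok_um) (by rw [self_um]; exact o1)
  have g3 := hasDerivAt_V3a (hasDerivAt_line (1 / 2 * τ x) μ x) l w
    (by rw [self_up]; exact h.ok_up) (by rw [self_up]; exact o3)
  rw [self_um] at g1
  rw [self_up] at g3
  refine h.der_left hμ g1 g3 ?_ ?_ ?_ ?_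
  · simp only [self_um]
  · simp only [self_up]
  · intro y hy
    simp only [um_of hy, le_refl]
  · intro y hy
    simp only [up_of hy, le_refl]

/-! ### the ramp -/

theorem tau_flat (h0 : 13 / 100 ≤ x) (h1 : x ≤ 50 / 100) : τ x = 1 := by
  unfold τ tr
  rw [sub_zero, min_eq_left (le_min ((one_le_div (by norm_num)).2 h0)
    ((one_le_div (by norm_num)).2 (by linarith only [h1])))]
  norm_num

theorem tau_right (h0 : 50 / 100 ≤ x) (h1 : x ≤ 65 / 100) : τ x = (65 / 100 - x) / (15 / 100) := by
  unfold τ tr
  have a1 : (65 / 100 - x) / (15 / 100) ≤ 1 := by rw [div_le_one (by norm_num)]; linarith only [h0]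
  have a2 : 1 ≤ (x - 0) / (13 / 100) := by rw [le_div_iff₀ (by norm_num)]; linarith only [h0]
  have a3 : 0 ≤ (65 / 100 - x) / (15 / 100) := div_nonneg (by linarith only [h1]) (by norm_num)
  rw [min_eq_right (a1.trans a2), min_eq_right a1, max_eq_right a3]

theorem tau_left (h0 : 0 ≤ x) (h1 : x ≤ 13 / 100) : τ x = x / (13 / 100) := by
  unfold τ tr
  rw [sub_zero]
  have a1 : x / (13 / 100) ≤ 1 := by rw [div_le_one (by norm_num)]; linarith only [h1]
  have a2 : 1 ≤ (65 / 100 - x) / (15 / 100) := by rw [le_div_iff₀ (by norm_num)]; linarith only [h1]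
  have a3 : 0 ≤ x / (13 / 100) := div_nonneg h0 (by norm_num)
  rw [min_eq_left (a1.trans a2), min_eq_right a1, max_eq_right a3]

theorem mu_flat (h0 : 13 / 100 ≤ x) (h1 : x < 50 / 100) :
    ∀ᶠ y in 𝓝[≥] x, 1 / 2 * τ y = 1 / 2 * τ x + 0 * (y - x) := by
  have e : ∀ᶠ y in 𝓝[≥] x, y < 50 / 100 := mem_nhdsWithin_of_mem_nhds (Iio_mem_nhds h1)
  filter_upwards [e, self_mem_nhdsWithin] with y hy hy2
  rw [tau_flat (h0.trans hy2) hy.le, tau_flat h0 h1.le]
  ring

theorem mu_right (h0 : 50 / 100 ≤ x) (h1 : x < 65 / 100) :
    ∀ᶠ y in 𝓝[≥] x, 1 / 2 * τ y = 1 / 2 * τ x + -(10 / 3) * (y - x) := by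
  have e : ∀ᶠ y in 𝓝[≥] x, y < 65 / 100 := mem_nhdsWithin_of_mem_nhds (Iio_mem_nhds h1)
  filter_upwards [e, self_mem_nhdsWithin] with y hy hy2
  rw [tau_right (h0.trans hy2) hy.le, tau_right h0 h1.le]
  ring

theorem mu_right' (h0 : 50 / 100 < x) (h1 : x < 65 / 100) :
    ∀ᶠ y in 𝓝 x, 1 / 2 * τ y = 1 / 2 * τ x + -(10 / 3) * (y - x) := by
  filter_upwards [Ioo_mem_nhds h0 h1] with y hy
  rw [tau_right hy.1.le hy.2.le, tau_right h0.le h1.le]
  ring

theorem mu_left (h0 : 0 < x) (h1 : x < 13 / 100) :
    ∀ᶠ y in 𝓝 x, 1 / 2 * τ y = 1 / 2 * τ x + 50 / 13 * (y - x) := by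
  filter_upwards [Ioo_mem_nhds h0 h1] with y hy
  rw [tau_left hy.1.le hy.2.le, tau_left h0.le h1.le]
  ring

/-! ### kinks -/

theorem H.k_re (h : H x T Tl pl k l w) : 0 ≤ k.re ∧ k.re ≤ 86 / 100 := by
  cases h.kp with
  | one _ _ a b _ => exact ⟨a, b⟩
  | two _ _ a b _ => exact ⟨a, by linarith only [b]⟩
  | em _ _ a b _ => exact ⟨a, by linarith only [b]⟩
  | eu _ _ a b _ => exact ⟨a, by linarith only [b]⟩

/-- minorant of the value of the `1` at a point where `u + k ≠ 1`: it has the derivatives `d1 + σ e1`
for all `|σ| ≤ 1`, and `e1 = 0` only if the value is differentiable -/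
theorem H.min1 (h : H x T Tl pl k l w) (h1 : um x + k ≠ 1) :
    (DOk (um x + k) ∨ ((um x + k).im = 0 ∧ um x + k - 1 ∈ strip)) := by
  have hk := h.k_re
  have h0 := h.x0
  have h2 := h.x1
  by_cases hi : (um x + k).im = 0
  · by_cases hr : (um x + k).re < 1
    · left; right
      refine ⟨?_, hr⟩
      show 0 < x + k.re
      linarith only [hk, h0]
    · right
      refine ⟨hi, ?_, ?_⟩
      · rcases (not_lt.1 hr).lt_or_eq with h3 | h3
        · rw [Complex.sub_re, Complex.one_re]; linarith only [h3]
        · exact absurd (Complex.ext h3.symm (by rw [hi]; rfl)) h1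
      · rw [Complex.sub_re, Complex.one_re]
        show x + k.re - 1 < 1
        linarith only [hk, h0, h2]
  · exact Or.inl (Or.inl hi)

theorem H.min3 (h : H x T Tl pl k l w) (h1 : l ≠ up x) :
    (DOk (l - up x) ∨ ((l - up x).im = 0 ∧ l - up x + 1 ∈ strip)) := by
  have h0 := h.x0
  have h2 := h.x1
  have l0 := h.l0
  have l1 := h.l1
  have er : (l - up x).re = l.re - x := rfl
  by_cases hi : (l - up x).im = 0
  · by_cases hr : 0 < (l - up x).re
    · left; right
      refine ⟨hr, ?_⟩
      rw [er]
      linarith only [h0, l1]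
    · right
      refine ⟨hi, ?_, ?_⟩
      · rw [Complex.add_re, Complex.one_re, er]; linarith only [h0, h2, l0]
      · rcases (not_lt.1 hr).lt_or_eq with h3 | h3
        · rw [Complex.add_re, Complex.one_re]; linarith only [h3]
        · exact absurd (sub_eq_zero.1 (Complex.ext h3 hi)) h1
  · exact Or.inl (Or.inl hi)

/-- **The first order condition inside a ramp**: the value is differentiable off the two singular
points. -/
theorem H.foc (h : H x T Tl pl k l w) {μ : ℝ} (h0 : μ ≠ 0)
    (hμ : ∀ᶠ y in 𝓝 x, 1 / 2 * τ y = 1 / 2 * τ x + μ * (y - x))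
    (h1 : um x + k ≠ 1) (h3 : l ≠ up x) : DOk (um x + k) ∧ DOk (l - up x) ∧
      dh1 (um x) k (-μ) + dh3a (up x) l μ - 2 * Real.pi * μ = 0 := by
  have hr := hμ.filter_mono (nhdsWithin_le_nhds (s := Set.Ici x))
  have hl := hμ.filter_mono (nhdsWithin_le_nhds (s := Set.Iic x))
  have E : ∀ {d1 d3 : ℝ} {f1 f3 : ℝ → ℝ}, HasDerivAt f1 d1 x → HasDerivAt f3 d3 x →
      f1 x = V1 (um x) k → f3 x = V3 (up x) l w →
      (∀ y, 1 / 2 * τ y = 1 / 2 * τ x + μ * (y - x) → f1 y ≤ V1 (um y) k) →
      (∀ y, 1 / 2 * τ y = 1 / 2 * τ x + μ * (y - x) → f3 y ≤ V3 (up y) l w) →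
      d1 + d3 - 2 * Real.pi * μ = 0 := fun k1 k3 e1 e3 m1 m3 =>
    le_antisymm (h.der_right hr k1 k3 e1 e3 m1 m3) (h.der_left hl k1 k3 e1 e3 m1 m3)
  have L1 := hasDerivAt_line (-(1 / 2 * τ x)) (-μ) x
  have L3 := hasDerivAt_line (1 / 2 * τ x) μ x
  -- the value of the `3`: a minorant
  obtain ⟨d3, f3, k3, e3, m3⟩ : ∃ (d3 : ℝ) (f3 : ℝ → ℝ), HasDerivAt f3 d3 x ∧
      f3 x = V3 (up x) l w ∧
      (∀ y, 1 / 2 * τ y = 1 / 2 * τ x + μ * (y - x) → f3 y ≤ V3 (up y) l w) := by
    rcases h.min3 h3 with o3 | ⟨i3, r3⟩
    · refine ⟨_, _, hasDerivAt_V3a L3 l w (by rw [self_up]; exact h.ok_up)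
        (by rw [self_up]; exact o3), ?_, ?_⟩
      · simp only [self_up]
      · intro y hy
        simp only [up_of hy, le_refl]
    · refine ⟨_, _, hasDerivAt_V3s 0 L3 l w (by rw [self_up]; exact h.ok_up)
        (by rw [self_up]; exact r3), ?_, ?_⟩
      · simp only [self_up]
        exact V3s_eq w i3
      · intro y hy
        simp only [up_of hy]
        exact V3s_le (by norm_num) _ _ _
  have o1 : DOk (um x + k) := by
    rcases h.min1 h1 with o1 | ⟨i1, r1⟩
    · exact o1
    · exfalso
      have key : ∀ σ : ℝ, |σ| ≤ 1 → Real.pi * (k.im + -μ * (k.re - 1)) +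
          dU (um x + k - 1) (-μ) - dU (um x) (-μ) + σ * (Real.pi * -μ) + d3 -
            2 * Real.pi * μ = 0 := by
        intro σ hσ
        have g1 := hasDerivAt_V1s σ L1 k (by rw [self_um]; exact h.ok_um)
          (by rw [self_um]; exact r1)
        rw [self_um] at g1
        refine E g1 k3 ?_ e3 ?_ m3
        · simp only [self_um]
          exact V1s_eq i1
        · intro y hy
          simp only [um_of hy]
          exact V1s_le hσ _ _
      have a1 := key 1 (by norm_num)
      have a2 := key (-1) (by norm_num)
      have a3 : Real.pi * μ = 0 := by linarith only [a1, a2]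
      rcases mul_eq_zero.1 a3 with h4 | h4
      · exact Real.pi_ne_zero h4
      · exact h0 h4
  have g1 := hasDerivAt_V1 L1 k (by rw [self_um]; exact h.ok_um) (by rw [self_um]; exact o1)
  rw [self_um] at g1
  have e1 : (fun t => V1 (⟨t, -(1 / 2 * τ x) + -μ * (t - x)⟩ : ℂ) k) x = V1 (um x) k := by
    simp only [self_um]
  have m1 : ∀ y, 1 / 2 * τ y = 1 / 2 * τ x + μ * (y - x) →
      (fun t => V1 (⟨t, -(1 / 2 * τ x) + -μ * (t - x)⟩ : ℂ) k) y ≤ V1 (um y) k := by
    intro y hy
    simp only [um_of hy, le_refl]
  have o3 : DOk (l - up x) := by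
    rcases h.min3 h3 with o3 | ⟨i3, r3⟩
    · exact o3
    · exfalso
      have key : ∀ σ : ℝ, |σ| ≤ 1 → dh1 (um x) k (-μ) + (-(Real.pi * (l.im + μ * l.re)) -
          dU (up x) μ + dU (l - up x + 1) μ - σ * (Real.pi * μ)) - 2 * Real.pi * μ = 0 := by
        intro σ hσ
        have g3 := hasDerivAt_V3s σ L3 l w (by rw [self_up]; exact h.ok_up)
          (by rw [self_up]; exact r3)
        rw [self_up] at g3
        refine E g1 g3 e1 ?_ m1 ?_
        · simp only [self_up]
          exact V3s_eq w i3
        · intro y hy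
          simp only [up_of hy]
          exact V3s_le hσ _ _ _
      have a1 := key 1 (by norm_num)
      have a2 := key (-1) (by norm_num)
      have a3 : Real.pi * μ = 0 := by linarith only [a1, a2]
      rcases mul_eq_zero.1 a3 with h4 | h4
      · exact Real.pi_ne_zero h4
      · exact h0 h4
  refine ⟨o1, o3, ?_⟩
  exact le_antisymm (h.foc_right hr o1 o3) (h.foc_left hl o1 o3)

end M13

end Pool.Agent.Work.MP_b30479_gtS.G2

end
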