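import Pool.Agent.Work.MP_b30479_gt.TBS.G2.WMGa
import Pool.Agent.Work.MP_b30479_gt.TBS.G2.WLocX
import Pool.Agent.Work.MP_b30479_gt.TBS.G2.H13A

section

/-!
# Mirrored paths: rows of the kinds of hinges with an end `3`, definitions
-/

namespace Pool.Agent.Work.MP_b30479_gtS.G2

open Finset VOL Filter Topology

namespace KE

open NumGs

/-! ### parameters of neighbours -/

theorem par_mem {a b k : ℝ} (h1 : -a ≤ k) (h2 : k ≤ b) :
    ∃ s : ℝ, 0 ≤ s ∧ s ≤ 1 ∧ k = s * b - (1 - s) * a := by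
  by_cases h : a + b = 0
  · exact ⟨0, le_rfl, zero_le_one, by linarith only [h1, h2, h]⟩
  · have hp : 0 < a + b := lt_of_le_of_ne (by linarith only [h1, h2]) (Ne.symm h)
    refine ⟨(k + a) / (a + b), div_nonneg (by linarith only [h1]) hp.le, (div_le_one hp).2 (by linarith only [h2]), ?_⟩
    field_simp
    ring

theorem par_abs {a k : ℝ} (h1 : |k| ≤ a) : ∃ θ : ℝ, -1 ≤ θ ∧ θ ≤ 1 ∧ k = θ * a := by
  rw [abs_le] at h1
  obtain ⟨s, s0, s1, e⟩ := par_mem (a := a) (b := a) h1.1 h1.2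
  exact ⟨2 * s - 1, by linarith only [s0], by linarith only [s1], by rw [e]; ring⟩

/-- a linear bound by a ramp function -/
theorem le_tr {H XM cl cr y k : ℝ} (hl : 0 < cl) (hr : 0 < cr) (h1 : k ≤ H)
    (h2 : cl * k ≤ H * y) (h3 : cr * k ≤ H * (XM - y)) (h4 : 0 < H) : k ≤ H * tr 0 XM cl cr y := by
  unfold tr
  refine le_trans ?_ (mul_le_mul_of_nonneg_left (le_max_right _ _) h4.le)
  have e1 : k ≤ H * ((y - 0) / cl) := by
    rw [sub_zero, mul_div_assoc', le_div_iff₀ hl]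
    linarith only [h2]
  have e2 : k ≤ H * ((XM - y) / cr) := by
    rw [mul_div_assoc', le_div_iff₀ hr]
    linarith only [h3]
  rw [mul_min_of_nonneg _ _ h4.le, mul_min_of_nonneg _ _ h4.le]
  exact le_min (by linarith only [h1]) (le_min e1 e2)

/-- the other hinge of a digit `2` -/
theorem d2_par {y β : ℝ} (h : KR.D2.In y β) : ∃ s : ℝ, 0 ≤ s ∧ s ≤ 1 ∧
    β = s * (16 / 100 * tr 0 (8 / 10) (1 / 10) (29 / 100) y) -
      (1 - s) * (3 / 10 * tr 0 (8 / 10) (12 / 100) (47 / 100) y) := by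
  obtain ⟨h1, h2, h3, h4, h5, h6⟩ := h
  simp only [KR.D2] at h1 h2 h3 h4 h5 h6
  push_cast at h1 h2 h3 h4 h5 h6
  have e1 : β ≤ 16 / 100 * tr 0 (8 / 10) (1 / 10) (29 / 100) y :=
    le_tr (by norm_num) (by norm_num) (by linarith only [h6]) (by linarith only [h1]) (by linarith only [h2]) (by norm_num)
  have e2 : -β ≤ 3 / 10 * tr 0 (8 / 10) (12 / 100) (47 / 100) y :=
    le_tr (by norm_num) (by norm_num) (by linarith only [h5]) (by linarith only [h3]) (by linarith only [h4]) (by norm_num)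
  exact par_mem (by linarith only [e2]) e1

/-- the inner variable of a digit `3` -/
theorem dl_par {y β : ℝ} (h : KR.DL.In y β) : ∃ θ : ℝ, -1 ≤ θ ∧ θ ≤ 1 ∧
    β = θ * (16 / 100 * tr 0 (8 / 10) (5 / 100) (5 / 100) y) := by
  obtain ⟨h1, h2, h3, h4, h5, h6⟩ := h
  simp only [KR.DL] at h1 h2 h3 h4 h5 h6
  push_cast at h1 h2 h3 h4 h5 h6
  have e1 : β ≤ 16 / 100 * tr 0 (8 / 10) (5 / 100) (5 / 100) y :=
    le_tr (by norm_num) (by norm_num) (by linarith only [h6]) (by linarith only [h1]) (by linarith only [h2]) (by norm_num)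
  have e2 : -β ≤ 16 / 100 * tr 0 (8 / 10) (5 / 100) (5 / 100) y :=
    le_tr (by norm_num) (by norm_num) (by linarith only [h5]) (by linarith only [h3]) (by linarith only [h4]) (by norm_num)
  exact par_abs (abs_le.2 ⟨by linarith only [e2], e1⟩)

/-! ### expressions -/

theorem v0 (x y z w : ℝ) : NumIs.lkR [x, y, z, w] 0 = x := rfl
theorem v1 (x y z w : ℝ) : NumIs.lkR [x, y, z, w] 1 = y := rfl
theorem v2 (x y z w : ℝ) : NumIs.lkR [x, y, z, w] 2 = z := rfl
theorem v3 (x y z w : ℝ) : NumIs.lkR [x, y, z, w] 3 = w := rfl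

theorem nP_val {n0 n1 : ℤ} {x y z w : ℝ} : (nP n0 n1).val [x, y, z, w] =
    V3 ⟨15 / 100, x⟩ ⟨3 / 10, y⟩ 0 - ((n0 : ℝ) / 10000 + (n1 : ℝ) / 10000 * x) := by
  simp only [nP, aff, E.val, E.V3e_val, E.c, v0, v1]
  push_cast
  norm_num

theorem nN_val {n0 n1 : ℤ} {x y z w : ℝ} : (nN n0 n1).val [x, y, z, w] =
    V3 ⟨15 / 100, -x⟩ ⟨3 / 10, y⟩ 0 - ((n0 : ℝ) / 10000 + (n1 : ℝ) / 10000 * x) := by
  simp only [nN, aff, E.val, E.V3e_val, E.c, v0, v1]
  push_cast
  norm_num

theorem kk_val {x y z w : ℝ} : kk.val [x, y, z, w] =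
    z * (16 / 100 * tr 0 (8 / 10) (1 / 10) (29 / 100) y) -
      (1 - z) * (3 / 10 * tr 0 (8 / 10) (12 / 100) (47 / 100) y) := by
  simp only [kk, E.val, E.c]
  rw [E.tr_val (by norm_num) (by norm_num) (by norm_num),
    E.tr_val (by norm_num) (by norm_num) (by norm_num)]
  simp only [E.val, v0, v1, v2]
  norm_num

theorem ll_val {x y z w : ℝ} : ll.val [x, y, z, w] =
    z * (16 / 100 * tr 0 (8 / 10) (5 / 100) (5 / 100) y) := by
  simp only [ll, E.val, E.c]
  rw [E.tr_val (by norm_num) (by norm_num) (by norm_num)]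
  simp only [E.val, v1, v2]
  norm_num

theorem P2_val {cl : ℕ} (h0 : 0 < cl) (h1 : cl ≤ 300) {x y z w : ℝ} : (P2 cl).val [x, y, z, w] =
    2 * Real.pi * (16 / 100 * tr 0 (6 / 10) ((cl : ℝ) / 1000) (3 / 10) x) := by
  simp only [P2, E.val]
  rw [hh_val h0 h1]
  push_cast
  ring

theorem fD_val {n0 n1 y0 : ℤ} {l : List (ℤ × ℤ × ℕ)} {cl : ℕ} (h0 : 0 < cl) (h1 : cl ≤ 300) {k : E}
    {x y z w : ℝ} : (fD n0 n1 y0 l cl k).val [x, y, z, w] =
    V2 ⟨15 / 100, w⟩ ⟨y, k.val [x, y, z, w]⟩ -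
      V2 ⟨x, -(16 / 100 * tr 0 (6 / 10) ((cl : ℝ) / 1000) (3 / 10) x)⟩ ⟨y, k.val [x, y, z, w]⟩ +
      ((n0 : ℝ) / 10000 + (n1 : ℝ) / 10000 * w) +
      2 * Real.pi * (16 / 100 * tr 0 (6 / 10) ((cl : ℝ) / 1000) (3 / 10) x) - plR x y0 l := by
  simp only [fD, aff, E.val, E.dV2_val, E.pl_val, E.c, v0, v1, v3, P2_val h0 h1, hh_val h0 h1]
  push_cast
  rw [show (1500 : ℝ) / 10000 = 15 / 100 by norm_num]

theorem fU_val {n0 n1 y0 : ℤ} {l : List (ℤ × ℤ × ℕ)} {cl : ℕ} (h0 : 0 < cl) (h1 : cl ≤ 300) {k : E}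
    {x y z w : ℝ} : (fU n0 n1 y0 l cl k).val [x, y, z, w] =
    V2 ⟨15 / 100, -w⟩ ⟨y, k.val [x, y, z, w]⟩ -
      V2 ⟨x, 16 / 100 * tr 0 (6 / 10) ((cl : ℝ) / 1000) (3 / 10) x⟩ ⟨y, k.val [x, y, z, w]⟩ +
      ((n0 : ℝ) / 10000 + (n1 : ℝ) / 10000 * w) +
      2 * Real.pi * (16 / 100 * tr 0 (6 / 10) ((cl : ℝ) / 1000) (3 / 10) x) - plR x y0 l := by
  simp only [fU, aff, E.val, E.dV2_val, E.pl_val, E.c, v0, v1, v3, P2_val h0 h1, hh_val h0 h1]
  push_cast
  rw [show (1500 : ℝ) / 10000 = 15 / 100 by norm_num]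

theorem fE_val {n0 n1 y0 : ℤ} {l : List (ℤ × ℤ × ℕ)} {x y z w : ℝ} :
    (fE n0 n1 y0 l).val [x, y, z, w] =
    V2 ⟨15 / 100, y⟩ 0 - V2 ⟨x, -(16 / 100 * tr 0 (6 / 10) (1 / 10) (3 / 10) x)⟩ 0 +
      ((n0 : ℝ) / 10000 + (n1 : ℝ) / 10000 * y) +
      2 * Real.pi * (16 / 100 * tr 0 (6 / 10) (1 / 10) (3 / 10) x) - plR x y0 l := by
  simp only [fE, aff, E.val, E.V2e_val, E.pl_val, E.c, v0, v1, P2_val (show 0 < 100 by norm_num)
    (by norm_num), hh_val (show 0 < 100 by norm_num) (by norm_num)]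
  push_cast
  rw [show (1500 : ℝ) / 10000 = 15 / 100 by norm_num, show (100 : ℝ) / 1000 = 1 / 10 by norm_num]

theorem fEE_val {x y z w : ℝ} : fEE.val [x, y, z, w] =
    V2 ⟨15 / 100, y⟩ 0 - V2 ⟨x, -(16 / 100 * tr 0 (6 / 10) (1 / 10) (3 / 10) x)⟩ 0 +
      (V2 ⟨15 / 100, -y⟩ 0 - V2 ⟨x, 16 / 100 * tr 0 (6 / 10) (1 / 10) (3 / 10) x⟩ 0) +
      2 * Real.pi * (16 / 100 * tr 0 (6 / 10) (1 / 10) (3 / 10) x) := by
  simp only [fEE, E.val, E.V2e_val, E.c, v0, v1, P2_val (show 0 < 100 by norm_num)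
    (by norm_num), hh_val (show 0 < 100 by norm_num) (by norm_num)]
  push_cast
  rw [show (1500 : ℝ) / 10000 = 15 / 100 by norm_num, show (100 : ℝ) / 1000 = 1 / 10 by norm_num]

theorem fTT_val {n y0 y0' : ℤ} {l l' : List (ℤ × ℤ × ℕ)} {x y z w : ℝ} :
    (fTT n y0 l y0' l').val [x, y, z, w] =
    (n : ℝ) / 10000 + 2 * Real.pi * (16 / 100 * tr 0 (6 / 10) (1 / 10) (3 / 10) x) -
      (plR x y0 l + plR x y0' l') := by
  simp only [fTT, E.val, E.pl_val, E.c, v0, P2_val (show 0 < 100 by norm_num) (by norm_num)]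
  push_cast
  rw [show (100 : ℝ) / 1000 = 1 / 10 by norm_num]

end KE

end Pool.Agent.Work.MP_b30479_gtS.G2

end

section

/-!
# Mirrored paths: far gains of the inner variable of an interior `3`, definitions

If the inner variable of a `3` moves to `m` on its main path then the part of the value which
depends on the hinge in the slot `2` loses at most `ψ`.
-/

namespace Pool.Agent.Work.MP_b30479_gtS.G2

open Finset VOL Filter Topology

namespace KE

open NumGs

/-- the part of the value of a `3` without the hinge in the slot `2` -/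
noncomputable def VF (u v : ℂ) : ℝ := -(Real.pi * (u * v - v).im) - UU (v - u) + UU v - UU u

/-- the part which depends on the hinge in the slot `0` -/
noncomputable def VA (u v : ℂ) : ℝ := -(Real.pi * (u * v).im) - UU (v - u) - UU u

theorem V3_VF (u v w : ℂ) : V3 u v w = VF u v + V2 v w := by
  unfold V3 VF V2
  simp only [Complex.sub_im, Complex.add_im, Complex.mul_im, pow_two, Complex.sub_re,
    Complex.mul_re, Complex.re_ofNat, Complex.im_ofNat]
  ring

theorem V3_VA (u u' v w : ℂ) : V3 u v w - V3 u' v w = VA u v - VA u' v := by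
  unfold V3 VA
  simp only [Complex.sub_im, Complex.add_im, Complex.mul_im, pow_two, Complex.sub_re,
    Complex.mul_re, Complex.re_ofNat, Complex.im_ofNat]
  ring

theorem eVF_val {x t y s : E} {xs : List ℝ} :
    (eVF x t y s).val xs = VF ⟨x.val xs, t.val xs⟩ ⟨y.val xs, s.val xs⟩ := by
  unfold VF
  simp only [eVF, E.val, NumUs.UU_uu, Complex.add_im, Complex.sub_im, Complex.sub_re,
    Complex.mul_im]
  ring

theorem eVA_val {x t y s : E} {xs : List ℝ} :
    (E.Va x t y s).val xs = VA ⟨x.val xs, t.val xs⟩ ⟨y.val xs, s.val xs⟩ := by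
  unfold VA
  simp only [E.Va, E.val, NumUs.UU_uu, Complex.add_im, Complex.sub_im, Complex.sub_re,
    Complex.mul_im]
  ring

noncomputable def ψ30 (y T : ℝ) : ℝ :=
  max (plR y (-80) [(0, 3, 1), (10, -43, 40), (50, 7, 40), (100, -32, 25), (150, -9, 10), (200, -31, 50), (250, -23, 50), (275, -21, 25), (300, 39, 20)] + 5000 / 10000 * T) (plR y (-80)
    [(0, 3, 1), (10, -43, 40), (50, -261, 200), (100, -23, 100), (200, -59, 100), (250, -3, 5), (300, 51, 50), (350, -1, 10), (450, -3, 25), (500, -1, 10), (600, -3, 25), (700, -17, 50), (750, 21, 25)])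
noncomputable def ψ45 (y : ℝ) : ℝ := plR y 8 [(600, -17, 100), (700, -1, 100), (750, 14, 25)]
noncomputable def ψm (y : ℝ) : ℝ := plR y (-90) [(0, -75, 8), (48, 75, 8), (750, 111, 10)]

theorem e30_val {y T : E} {xs : List ℝ} : (e30 y T).val xs = ψ30 (y.val xs) (T.val xs) := by
  unfold e30 ψ30
  rw [E.mx_val]
  simp only [E.val, E.pl_val, E.c]
  push_cast
  rfl

theorem e45_val {y : E} {xs : List ℝ} : (e45 y).val xs = ψ45 (y.val xs) := by
  unfold e45 ψ45
  rw [E.pl_val]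

theorem em_val {y : E} {xs : List ℝ} : (em y).val xs = ψm (y.val xs) := by
  unfold em ψm
  rw [E.pl_val]

theorem tL_val {y : E} {xs : List ℝ} :
    (tL y).val xs = tr 0 (8 / 10) (5 / 100) (5 / 100) (y.val xs) := by
  unfold tL
  rw [E.tr_val (by norm_num) (by norm_num) (by norm_num)]
  norm_num

theorem uW_val {x y z w : ℝ} :
    uW.val [x, y, z, w] = 16 / 100 * tr 0 (65 / 100) (13 / 100) (29 / 100) z := by
  unfold uW
  simp only [E.val, E.c]
  rw [E.tr_val (by norm_num) (by norm_num) (by norm_num)]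
  simp only [E.val, v2]
  norm_num

theorem gL_val {m : ℤ} {t : E} {x y z w : ℝ} : (gL m t).val [x, y, z, w] =
    V2 ⟨(m : ℝ) / 10000, y⟩ ⟨z, w * (16 / 100 * tr 0 (65 / 100) (13 / 100) (29 / 100) z)⟩ -
      V2 ⟨x, t.val [x, y, z, w]⟩
        ⟨z, w * (16 / 100 * tr 0 (65 / 100) (13 / 100) (29 / 100) z)⟩ := by
  unfold gL
  rw [E.dV2_val]
  simp only [E.val, v0, v1, v2, v3, E.c, uW_val]
  push_cast
  rfl

theorem penL_val {x y z w : ℝ} : penL.val [x, y, z, w] =
    2 * Real.pi * (16 / 100 * tr 0 (8 / 10) (5 / 100) (5 / 100) x) := by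
  unfold penL
  simp only [E.val, v0, E.c, tL_val]
  push_cast
  ring

theorem g30m_val {x y z w : ℝ} : g30m.val [x, y, z, w] =
    V2 ⟨3 / 10, y⟩ ⟨z, w * (16 / 100 * tr 0 (65 / 100) (13 / 100) (29 / 100) z)⟩ -
      V2 ⟨x, y * tr 0 (8 / 10) (5 / 100) (5 / 100) x⟩
        ⟨z, w * (16 / 100 * tr 0 (65 / 100) (13 / 100) (29 / 100) z)⟩ + ψ30 x y := by
  unfold g30m
  rw [E.val, gL_val, e30_val]
  simp only [E.val, v0, v1, tL_val]
  norm_num

theorem g45m_val {x y z w : ℝ} : g45m.val [x, y, z, w] =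
    V2 ⟨45 / 100, y⟩ ⟨z, w * (16 / 100 * tr 0 (65 / 100) (13 / 100) (29 / 100) z)⟩ -
      V2 ⟨x, y * tr 0 (8 / 10) (5 / 100) (5 / 100) x⟩
        ⟨z, w * (16 / 100 * tr 0 (65 / 100) (13 / 100) (29 / 100) z)⟩ + ψ45 x := by
  unfold g45m
  rw [E.val, gL_val, e45_val]
  simp only [E.val, v0, v1, tL_val]
  norm_num

theorem g30u_val {x y z w : ℝ} : g30u.val [x, y, z, w] =
    V2 ⟨3 / 10, y⟩ ⟨z, w * (16 / 100 * tr 0 (65 / 100) (13 / 100) (29 / 100) z)⟩ -
      V2 ⟨x, 16 / 100 * tr 0 (8 / 10) (5 / 100) (5 / 100) x⟩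
        ⟨z, w * (16 / 100 * tr 0 (65 / 100) (13 / 100) (29 / 100) z)⟩ +
      2 * Real.pi * (16 / 100 * tr 0 (8 / 10) (5 / 100) (5 / 100) x) + ψm x := by
  unfold g30u
  rw [E.val, E.val, gL_val, em_val, penL_val]
  simp only [E.val, v0, tL_val, E.c]
  norm_num

theorem g30d_val {x y z w : ℝ} : g30d.val [x, y, z, w] =
    V2 ⟨3 / 10, y⟩ ⟨z, w * (16 / 100 * tr 0 (65 / 100) (13 / 100) (29 / 100) z)⟩ -
      V2 ⟨x, -(16 / 100 * tr 0 (8 / 10) (5 / 100) (5 / 100) x)⟩
        ⟨z, w * (16 / 100 * tr 0 (65 / 100) (13 / 100) (29 / 100) z)⟩ +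
      2 * Real.pi * (16 / 100 * tr 0 (8 / 10) (5 / 100) (5 / 100) x) + ψm x := by
  unfold g30d
  rw [E.val, E.val, gL_val, em_val, penL_val]
  simp only [E.val, v0, tL_val, E.c]
  norm_num

end KE

namespace SR

variable {M : ℕ} {b : Fin (M + 1) → ℤ} {zs : DD (tyW b) ⊕ ZZ (tyW b) → ℂ}
variable {R : Finset (DD (tyW b))} {nb : Finset (DD (tyW b) ⊕ ZZ (tyW b))}
variable {z : DD (tyW b) ⊕ ZZ (tyW b) → ℂ} {p : DD (tyW b) → ℝ}
variable {h h' : Fin M} {i j j' : Fin (M + 1)} {s : Fin 3} {x c : ℝ}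

/-- the hinge in the slot `2` of an interior `3` -/
theorem NPos.w3 (hb : ClassW b) (hL : Loc b zs) (A' : Adj h' i 2 j') (hi : clsW b i = .three) {X : ℂ}
    (h0 : NPos b zs nb p h' i 2 X) : 0 ≤ X.re ∧ X.re ≤ 65 / 100 ∧
      |X.im| ≤ 16 / 100 * tr 0 (65 / 100) (13 / 100) (29 / 100) X.re := by
  have hT := Th_mem hb hL A' (by rw [hi]; decide)
  have hre := h0.re
  have ht := trh_ub (b := b) h' hre.1 hre.2
  rw [hi] at hT
  have hH : |Th b zs h' i| ≤ 16 / 100 := by
    rw [abs_le]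
    rcases hj : clsW b j' <;> rw [hj] at hT <;> simp only [hbox] at hT <;>
      constructor <;> linarith only [hT, hT.1, hT.2]
  cases A' with
  | l =>
    have hm : ∀ q, mhs b h' q = 16 / 100 := by
      intro q
      unfold mhs
      rw [hi, if_neg (fun h3 => absurd h3.1 (by decide)), if_neg (fun h3 => absurd h3.1 (by decide))]
    have h3 := h0.abs_im hH fun _ => ⟨(hm _).le, (hm _).le⟩
    unfold wXM wcl wcr at ht
    unfold wXM at hre
    rw [hi] at ht hre
    have key : 13 / 100 * trh b h' X.re ≤ X.re ∧ 29 / 100 * trh b h' X.re ≤ 65 / 100 - X.re ∧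
        X.re ≤ 65 / 100 := by
      rcases hj : clsW b h'.succ <;> rw [hj] at ht hre <;> simp only [hp] at ht hre <;>
        refine ⟨?_, ?_, ?_⟩ <;> linarith only [hre, ht, ht.1, ht.2.1, ht.2.2.1, ht.2.2.2, hre.1, hre.2]
    refine ⟨hre.1, key.2.2, h3.trans ?_⟩
    refine KE.le_tr (by norm_num) (by norm_num) ?_ ?_ ?_ (by norm_num)
    · linarith only [ht, ht.2.1]
    · linarith only [key, key.1]
    · linarith only [key, key.2.1]

/-- height of the inner variable of an interior `3` -/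
theorem Tm3_mem (hX : LocX b zs) (m : {i : Fin (M + 1) // (tyW b i).isMid = true})
    (A : Adj h m.1 0 j) (A' : Adj h' m.1 2 j') (hc : clsW b m.1 = .three) :
    -(123 / 1000) ≤ Tm b zs m ∧ Tm b zs m ≤ 5 / 1000 := by
  have h1 := hX.mid m.2 A A' hc
  obtain ⟨h2, h3, -, -⟩ := h1
  have e : ofs (b m.1) (zs (.inl (.inr ⟨m.1, m.2⟩))).im = Tm b zs m := rfl
  rw [e] at h2 h3
  rcases hj : clsW b j <;> rcases hk : clsW b j' <;> rw [hj, hk] at h2 h3 <;>
    simp only [mw] at h2 h3 <;> constructor <;> linarith only [h2, h3]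

theorem trm3 (m : {i : Fin (M + 1) // (tyW b i).isMid = true}) (hc : clsW b m.1 = .three) (y : ℝ) :
    trm b m y = tr 0 (8 / 10) (5 / 100) (5 / 100) y := by
  unfold trm
  rw [hc]
  rfl

theorem tgi_3 (m : {i : Fin (M + 1) // (tyW b i).isMid = true}) (hc : clsW b m.1 = .three)
    {y : ℝ} (h0 : 5 / 100 ≤ y) (h1 : y ≤ 75 / 100) : tgi b zs m y = ⟨y, Tm b zs m⟩ := by
  have h2 := trm3 m hc y
  unfold trm at h2
  unfold tgi
  rw [h2]
  have h3 : tr 0 (8 / 10) (5 / 100) (5 / 100) y = 1 := by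
    unfold tr
    rw [sub_zero, min_eq_left (le_min ((one_le_div (by norm_num)).2 h0)
      ((one_le_div (by norm_num)).2 (by linarith only [h1])))]
    norm_num
  rw [h3, mul_one]
  rfl

end SR

end Pool.Agent.Work.MP_b30479_gtS.G2

end

section

/-!
# Mirrored paths: a lower `3` with the hinge in its slot `2`, definitions

The inner variable `l` is kept, or it moves to `m` on its main path.  `VB`: the part of the value
without the part `VA` of the hinge `u` in the slot `0`; `Chi`: the loss in the slot `0` if `l` leaves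
its upper mirrored path.
-/

namespace Pool.Agent.Work.MP_b30479_gtS.G2

open Finset VOL Filter Topology

namespace KE

open NumGs

/-- the part of the value of a `3` besides `VA` -/
noncomputable def VB (l w : ℂ) : ℝ := Real.pi * l.im + UU l + V2 l w

theorem V3_VAB (u l w : ℂ) : V3 u l w = VA u l + VB l w := by
  rw [V3_VF]
  unfold VF VA VB
  simp only [Complex.sub_im]
  ring

def eVB (x t y k : E) : E :=
  .sub (.sub (.uw (.add x y) (.add t k)) (.mul .pi (.add (.mul (.sub x y) (.sub t k))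
    (.mul (.q 1 2) (.sub k t))))) (.add (.uw x t) (.mul (.q 2 1) (.uw y k)))

theorem eVB_val {x t y k : E} {xs : List ℝ} :
    (eVB x t y k).val xs = VB ⟨x.val xs, t.val xs⟩ ⟨y.val xs, k.val xs⟩ := by
  unfold VB V2
  simp only [eVB, E.val, NumUs.UU_uu, Complex.add_re, Complex.add_im, Complex.sub_im, Complex.sub_re,
    Complex.mul_im, pow_two]
  push_cast
  ring

/-- `VA u l' - VA u l` for `u = x + i t`, `l = y + i s`, `l' = y' + i s'` -/
def eAd (x t y s y' s' : E) : E :=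
  .sub (.sub (.uw (.sub y x) (.sub s t)) (.uw (.sub y' x) (.sub s' t)))
    (.mul .pi (.add (.mul x (.sub s' s)) (.mul (.sub y' y) t)))
def eAx (x t y s y' s' : E) : E :=
  .sub (.sub (.ux (.sub y x) (.sub s t)) (.ux (.sub y' x) (.sub s' t)))
    (.mul .pi (.add (.mul x (.sub s' s)) (.mul (.sub y' y) t)))

theorem eAd_val {x t y s y' s' : E} {xs : List ℝ} : (eAd x t y s y' s').val xs =
    VA ⟨x.val xs, t.val xs⟩ ⟨y'.val xs, s'.val xs⟩ - VA ⟨x.val xs, t.val xs⟩ ⟨y.val xs, s.val xs⟩ := by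
  unfold VA
  simp only [eAd, E.val, NumUs.UU_uu, Complex.sub_im, Complex.sub_re, Complex.mul_im]
  ring

theorem eAx_val {x t y s y' s' : E} {xs : List ℝ} : (eAx x t y s y' s').val xs =
    VA ⟨x.val xs, t.val xs⟩ ⟨y'.val xs, s'.val xs⟩ - VA ⟨x.val xs, t.val xs⟩ ⟨y.val xs, s.val xs⟩ := by
  unfold VA
  simp only [eAx, E.val, NumUs.UU_uu, Complex.sub_im, Complex.sub_re, Complex.mul_im]
  ring

/-- bounds of the losses: maximum of two functions `piecewise linear in y + linear in T` -/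
def eCh (a0 : ℤ) (A : List (ℤ × ℤ × ℕ)) (a : ℤ) (b0 : ℤ) (B : List (ℤ × ℤ × ℕ)) (b : ℤ) (y T : E) :
    E := E.mx (.add (E.pl y a0 A) (.mul (E.c a) T)) (.add (E.pl y b0 B) (.mul (E.c b) T))
noncomputable def ch (a0 : ℤ) (A : List (ℤ × ℤ × ℕ)) (a : ℤ) (b0 : ℤ) (B : List (ℤ × ℤ × ℕ)) (b : ℤ)
    (y T : ℝ) : ℝ :=
  max (plR y a0 A + (a : ℝ) / 10000 * T) (plR y b0 B + (b : ℝ) / 10000 * T)

theorem eCh_val {a0 : ℤ} {A : List (ℤ × ℤ × ℕ)} {a : ℤ} {b0 : ℤ} {B : List (ℤ × ℤ × ℕ)} {b : ℤ}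
    {y T : E} {xs : List ℝ} :
    (eCh a0 A a b0 B b y T).val xs = ch a0 A a b0 B b (y.val xs) (T.val xs) := by
  unfold eCh ch
  rw [E.mx_val]
  simp only [E.val, E.pl_val, E.c]
  push_cast
  rfl

def c20 (y T : E) : E := eCh 640 [(0, -65, 2), (10, 9, 5), (20, 1, 5), (30, 7, 20), (50, 603, 20)] 17450 296 [(0, -79, 5), (20, 1, 3), (50, 232, 15), (750, 91, 5)] 10000 y T
def c25 (y T : E) : E := eCh 797 [(0, -327, 10), (10, 2, 1), (20, 13, 30), (50, 454, 15)] 15800 300 [(0, -331, 20), (20, 3, 4), (50, 79, 5), (750, 921, 50)] 8000 y T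
def c35 (y T : E) : E := eCh 640 [(0, -166, 5), (5, 18, 5), (10, 1, 5), (20, 1, 10), (30, 7, 20), (50, 579, 20)] 11170 268 [(0, -309, 20), (20, -1, 60), (50, 232, 15), (750, 171, 10)] 10300 y T
noncomputable def χ20 (y T : ℝ) : ℝ := ch 640 [(0, -65, 2), (10, 9, 5), (20, 1, 5), (30, 7, 20), (50, 603, 20)] 17450 296 [(0, -79, 5), (20, 1, 3), (50, 232, 15), (750, 91, 5)] 10000 y T
noncomputable def χ25 (y T : ℝ) : ℝ := ch 797 [(0, -327, 10), (10, 2, 1), (20, 13, 30), (50, 454, 15)] 15800 300 [(0, -331, 20), (20, 3, 4), (50, 79, 5), (750, 921, 50)] 8000 y T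
noncomputable def χ35 (y T : ℝ) : ℝ := ch 640 [(0, -166, 5), (5, 18, 5), (10, 1, 5), (20, 1, 10), (30, 7, 20), (50, 579, 20)] 11170 268 [(0, -309, 20), (20, -1, 60), (50, 232, 15), (750, 171, 10)] 10300 y T

/-- ramp functions of the hinge in the slot `0`, height `s` (variable `3`) -/
def t65 (s : E) : E := .mul s (E.tr 650 130 150 (.var 2))
def t60 (s : E) : E := .mul s (E.tr 600 120 270 (.var 2))

/-- rows: variables `y`, `T`, `u.re`, `s` -/
def rC (ch : E) (m : ℤ) (t : E) : E :=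
  .add (.add ch (.mul .pi (.mul (E.c 3200) (tL (.var 0)))))
    (eAd (.var 2) t (.var 0) (.mul (E.c 1600) (tL (.var 0))) (E.c m) (.var 1))
def rX (ch : E) (m : ℤ) (t : E) : E :=
  .add (.add ch (.mul .pi (.mul (E.c 3200) (tL (.var 0)))))
    (eAx (.var 2) t (.var 0) (.mul (E.c 1600) (tL (.var 0))) (E.c m) (.var 1))

/-- **Loss in the slot `0`** if the inner variable leaves its upper mirrored path for `m` -/
def Chi (P : ℂ → Prop) (T0 m : ℝ) (χ : ℝ → ℝ → ℝ) : Prop :=
  ∀ {u : ℂ} {y T : ℝ}, P u → 0 ≤ y → y ≤ 8 / 10 → T0 ≤ T → T ≤ 0 →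
    0 < χ y T + 2 * Real.pi * (16 / 100 * tr 0 (8 / 10) (5 / 100) (5 / 100) y) +
      (VA u ⟨m, T⟩ - VA u ⟨y, 16 / 100 * tr 0 (8 / 10) (5 / 100) (5 / 100) y⟩)

/-- positions of the hinge in the slot `0`, digit `1` behind -/
def U1 (u : ℂ) : Prop := 0 ≤ u.re ∧ u.re ≤ 65 / 100 ∧
  ((-(1145 / 10000) * tr 0 (65 / 100) (13 / 100) (15 / 100) u.re ≤ u.im ∧ u.im ≤ 0) ∨
    u.im = 1 / 2 * tr 0 (65 / 100) (13 / 100) (15 / 100) u.re)
/-- no digit `1` behind -/
def U2 (u : ℂ) : Prop := 0 ≤ u.re ∧ u.re ≤ 6 / 10 ∧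
  (|u.im| ≤ 16 / 100 * tr 0 (6 / 10) (12 / 100) (27 / 100) u.re ∨
    u.im = 3 / 10 * tr 0 (6 / 10) (12 / 100) (27 / 100) u.re)

theorem rC_val {c : E} {m : ℤ} {t : E} {y T x s : ℝ} : (rC c m t).val [y, T, x, s] =
    c.val [y, T, x, s] + 2 * Real.pi * (16 / 100 * tr 0 (8 / 10) (5 / 100) (5 / 100) y) +
      (VA ⟨x, t.val [y, T, x, s]⟩ ⟨(m : ℝ) / 10000, T⟩ -
        VA ⟨x, t.val [y, T, x, s]⟩ ⟨y, 16 / 100 * tr 0 (8 / 10) (5 / 100) (5 / 100) y⟩) := by
  unfold rC
  rw [E.val, E.val, eAd_val]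
  simp only [E.val, v0, v1, v2, E.c, tL_val]
  norm_num
  ring

theorem rX_val {c : E} {m : ℤ} {t : E} {y T x s : ℝ} : (rX c m t).val [y, T, x, s] =
    c.val [y, T, x, s] + 2 * Real.pi * (16 / 100 * tr 0 (8 / 10) (5 / 100) (5 / 100) y) +
      (VA ⟨x, t.val [y, T, x, s]⟩ ⟨(m : ℝ) / 10000, T⟩ -
        VA ⟨x, t.val [y, T, x, s]⟩ ⟨y, 16 / 100 * tr 0 (8 / 10) (5 / 100) (5 / 100) y⟩) := by
  unfold rX
  rw [E.val, E.val, eAx_val]
  simp only [E.val, v0, v1, v2, E.c, tL_val]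
  norm_num
  ring

theorem t65_val {s : E} {y T x z : ℝ} : (t65 s).val [y, T, x, z] =
    s.val [y, T, x, z] * tr 0 (65 / 100) (13 / 100) (15 / 100) x := by
  unfold t65
  rw [E.val, E.tr_val (by norm_num) (by norm_num) (by norm_num)]
  simp only [E.val, v2]
  norm_num

theorem t60_val {s : E} {y T x z : ℝ} : (t60 s).val [y, T, x, z] =
    s.val [y, T, x, z] * tr 0 (6 / 10) (12 / 100) (27 / 100) x := by
  unfold t60
  rw [E.val, E.tr_val (by norm_num) (by norm_num) (by norm_num)]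
  simp only [E.val, v2]
  norm_num

/-! ### rows with the variables `x`, `T`, `y`, `T_l` -/

/-- inner variable kept at `y + i s` -/
def kE (c n : ℤ) (d : ℕ) (s : E) : E :=
  E.dV2 (E.c c) (.mul (.q n d) (.var 1)) (.var 0) (.neg (hh 130)) (.var 2) s
/-- inner variable from its upper mirrored path to `m` -/
def rE (c n : ℤ) (d : ℕ) (m : ℤ) (ch : E) : E :=
  .sub (.sub (eVB (E.c m) (.var 3) (E.c c) (.mul (.q n d) (.var 1)))
    (eVB (.var 2) (.mul (E.c 1600) (tL (.var 2))) (.var 0) (.neg (hh 130)))) ch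

theorem kE_val {c n : ℤ} {d : ℕ} {s : E} {x T y L : ℝ} : (kE c n d s).val [x, T, y, L] =
    V2 ⟨(c : ℝ) / 10000, (n : ℝ) / d * T⟩ ⟨y, s.val [x, T, y, L]⟩ -
      V2 ⟨x, -(16 / 100 * tr 0 (6 / 10) (13 / 100) (3 / 10) x)⟩ ⟨y, s.val [x, T, y, L]⟩ := by
  unfold kE
  rw [E.dV2_val]
  simp only [E.val, v0, v1, v2, E.c, hh_val (cl := 130) (by norm_num) (by norm_num)]
  norm_num

theorem rE_val {c n : ℤ} {d : ℕ} {m : ℤ} {h : E} {x T y L : ℝ} :
    (rE c n d m h).val [x, T, y, L] =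
    VB ⟨(m : ℝ) / 10000, L⟩ ⟨(c : ℝ) / 10000, (n : ℝ) / d * T⟩ -
      VB ⟨y, 16 / 100 * tr 0 (8 / 10) (5 / 100) (5 / 100) y⟩
        ⟨x, -(16 / 100 * tr 0 (6 / 10) (13 / 100) (3 / 10) x)⟩ - h.val [x, T, y, L] := by
  unfold rE
  rw [E.val, E.val, eVB_val, eVB_val]
  simp only [E.val, v0, v1, v2, v3, E.c, tL_val, hh_val (cl := 130) (by norm_num) (by norm_num)]
  norm_num

/-- gains for the target `c` (height `t T` there) for `x0 ≤ x`: at least `φ` -/
structure TabH (c t x0 : ℝ) (φ : ℝ → ℝ) : Prop where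
  main : ∀ {x T y L : ℝ}, x0 ≤ x → x ≤ 6 / 10 → 0 ≤ T → T ≤ 22 / 1000 → 0 ≤ y → y ≤ 8 / 10 →
    -(116 / 1000) ≤ L → L ≤ 5 / 1000 →
    φ x < V2 ⟨c, t * T⟩ ⟨y, L * tr 0 (8 / 10) (5 / 100) (5 / 100) y⟩ -
      V2 ⟨x, -(16 / 100 * tr 0 (6 / 10) (13 / 100) (3 / 10) x)⟩
        ⟨y, L * tr 0 (8 / 10) (5 / 100) (5 / 100) y⟩
  dn : ∀ {x T y : ℝ}, x0 ≤ x → x ≤ 6 / 10 → 0 ≤ T → T ≤ 22 / 1000 → 0 ≤ y → y ≤ 8 / 10 →
    φ x < V2 ⟨c, t * T⟩ ⟨y, -(16 / 100 * tr 0 (8 / 10) (5 / 100) (5 / 100) y)⟩ -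
      V2 ⟨x, -(16 / 100 * tr 0 (6 / 10) (13 / 100) (3 / 10) x)⟩
        ⟨y, -(16 / 100 * tr 0 (8 / 10) (5 / 100) (5 / 100) y)⟩
  one : ∀ {x T y L : ℝ}, x0 ≤ x → x ≤ 6 / 10 → 0 ≤ T → T ≤ 22 / 1000 → 0 ≤ y → y ≤ 8 / 10 →
    -(82 / 1000) ≤ L → L ≤ 0 →
    φ x < V2 ⟨c, t * T⟩ ⟨y, 16 / 100 * tr 0 (8 / 10) (5 / 100) (5 / 100) y⟩ -
      V2 ⟨x, -(16 / 100 * tr 0 (6 / 10) (13 / 100) (3 / 10) x)⟩
        ⟨y, 16 / 100 * tr 0 (8 / 10) (5 / 100) (5 / 100) y⟩ ∨
    φ x < VB ⟨2 / 10, L⟩ ⟨c, t * T⟩ - VB ⟨y, 16 / 100 * tr 0 (8 / 10) (5 / 100) (5 / 100) y⟩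
      ⟨x, -(16 / 100 * tr 0 (6 / 10) (13 / 100) (3 / 10) x)⟩ - χ20 y L ∨
    φ x < VB ⟨25 / 100, L⟩ ⟨c, t * T⟩ - VB ⟨y, 16 / 100 * tr 0 (8 / 10) (5 / 100) (5 / 100) y⟩
      ⟨x, -(16 / 100 * tr 0 (6 / 10) (13 / 100) (3 / 10) x)⟩ - χ25 y L
  oth : ∀ {x T y L : ℝ}, x0 ≤ x → x ≤ 6 / 10 → 0 ≤ T → T ≤ 22 / 1000 → 0 ≤ y → y ≤ 8 / 10 →
    -(116 / 1000) ≤ L → L ≤ 0 →
    φ x < V2 ⟨c, t * T⟩ ⟨y, 16 / 100 * tr 0 (8 / 10) (5 / 100) (5 / 100) y⟩ -
      V2 ⟨x, -(16 / 100 * tr 0 (6 / 10) (13 / 100) (3 / 10) x)⟩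
        ⟨y, 16 / 100 * tr 0 (8 / 10) (5 / 100) (5 / 100) y⟩ ∨
    φ x < VB ⟨35 / 100, L⟩ ⟨c, t * T⟩ - VB ⟨y, 16 / 100 * tr 0 (8 / 10) (5 / 100) (5 / 100) y⟩
      ⟨x, -(16 / 100 * tr 0 (6 / 10) (13 / 100) (3 / 10) x)⟩ - χ35 y L

/-- lists of rows -/
def lM (c n : ℤ) (d : ℕ) (p : E) : List E := [.sub (kE c n d (.mul (.var 3) (tL (.var 2)))) p]
def lD (c n : ℤ) (d : ℕ) (p : E) : List E :=
  [.sub (kE c n d (.neg (.mul (E.c 1600) (tL (.var 2))))) p]
def lO (c n : ℤ) (d : ℕ) (p : E) : List E :=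
  [.sub (kE c n d (.mul (E.c 1600) (tL (.var 2)))) p,
    .sub (rE c n d 2000 (c20 (.var 2) (.var 3))) p, .sub (rE c n d 2500 (c25 (.var 2) (.var 3))) p]
def lT (c n : ℤ) (d : ℕ) (p : E) : List E :=
  [.sub (kE c n d (.mul (E.c 1600) (tL (.var 2)))) p,
    .sub (rE c n d 3500 (c35 (.var 2) (.var 3))) p]

/-- the bounds -/
def p20 : E := E.pl (.var 0) 90 [(0, -103, 20), (20, 3, 4), (40, 11, 60), (100, 11, 60), (130, 404, 105), (200, 3, 35), (260, 1, 10), (300, 81, 50), (350, 1, 10), (400, 3, 25), (450, 1, 10), (500, 11, 100), (540, 0, 1)]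
def pl2 (a k : ℤ) : E := .add (.q a 1000) (.mul (.q k 60) (.sub (.var 0) (.q 540 1000)))
noncomputable def q20 (x : ℝ) : ℝ := plR x 90 [(0, -103, 20), (20, 3, 4), (40, 11, 60), (100, 11, 60), (130, 404, 105), (200, 3, 35), (260, 1, 10), (300, 81, 50), (350, 1, 10), (400, 3, 25), (450, 1, 10), (500, 11, 100), (540, 0, 1)]

end KE

end Pool.Agent.Work.MP_b30479_gtS.G2

end

section

/-!
# Part of `WMHbr2`
-/
set_option deprecated.oldSectionVars true

namespace Pool.Agent.Work.MP_b30479_gtS.G2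

namespace KE

open NumGs

theorem hm20_q18 : Pool.Agent.Work.NumIs.runE (Pool.Agent.Work.NumGs.tst (lM 2000 1 1 p20))
    0 0 0 7971459302 46 10307921510 20615843021 0 1511828490 41231686042 54975581390 0 8315056687
    14278084010604184918391252596040697753013324550715493292269811679255367811864446939635178498013789943854688911299039377873697338147735553707838362592679693448250266741085143476097809799146359126304863068730534178705938950301299314382702966275339110200273553733693517812812293881060079172638432134600267712785952085647742863259175695802554467570643119999778043289553608441507525328177941061825946700466108118291269921196277762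
    78999277598379957691537324060155726132755963988944653881827751241237059970727101287598473057082183322015067100896508080093153655925524171994081939816530897052092429420308382440684448136605747847855374338 = true := by
  decide +kernel

theorem hd20_q1 : Pool.Agent.Work.NumIs.runE (Pool.Agent.Work.NumGs.tst (lD 2000 1 1 p20))
    0 0 0 0 49 0 41231686043 0 1511828490 0 27487790695 0 2
    550617880934255706503437476561212107263529991246561036160282247943556665289614913792273721787491261547938479485340418482755142148113904105170755802950014955345583246340572841544533676149121431189983366460227885776788295267051834419392121313809466774109605478125072985295721537808149331295589928244802438429786805857905001105810127172047022253744379497154922889814978147773762500964386821239381732429979663936146716307126439407334935752842337722383057180223073584516615532494428330489901999322900100339178411076261919253574942182637298549377581102419769441896299570122622738761299777979202406023271733630419984232440088030729820178146756459856113761232734426077278083148478481578828035071898356795366227477911801163259024760469189771596055798653236730168310783220962707615148142141370544829057781023383595054654855161141486309683266153950705049246793978564319871331357464576426096256352512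
    18434240879345559170767520873361562226302899906169441313732091231401604767945476451849938682689583916688799708236039263907832371762405099732208166984375438016351695787824668625161019421793928206959329963469143199493323475275427287404573979087411255447681928295502112208005830029895659352406681638977803935539955340235621345379767880887468127102568741563027041663995265427906790462290791843846940487649883602265050077542864973578251081505238882444630125072685851622324243862243349565482634851966735966176367610097188309894414591099947347557220608 = true := by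
  decide +kernel

theorem hd20_q2 : Pool.Agent.Work.NumIs.runE (Pool.Agent.Work.NumGs.tst (lD 2000 1 1 p20))
    0 0 0 0 48 0 20615843021 0 1511828490 27487790695 54975581390 0 2
    144017506869887181021621256823137204892991405516948760263531962745325037249574034780077645958512374349131247720594056749279940404393789841657876304565433109502747623342380223634070464232765064116869765339602681246041589650589275682848234211620400433185015064808610251625045547108559838690677200304514093246405901095590791760779436569433344742988818293461148762999963011155521800486646811280054222559764715642695703730803632606080086574259678769098672852130358215799408155173776168480333084780990124735752871953884283671050113992968338652790786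
    10915691869639030088406221126894806105847343109043050636303090841200275984737275290974565060299582662718874860533544110331559938 = true := by
  decide +kernel

end KE

end Pool.Agent.Work.MP_b30479_gtS.G2

end
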