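import Pool.Agent.Work.MP_b30479_gt.TBS.G2.MKN
import Pool.Agent.Work.MP_b30479_gt.TBS.G2.H13A
import Pool.Agent.Work.MP_b30479_gt.TBS.G2.WMMD
import Pool.Agent.Work.MP_b30479_gt.TBS.G2.MKQ_7
import Pool.Agent.Work.MP_b30479_gt.TBS.G2.MKR
import Pool.Agent.Work.MP_b30479_gt.TBS.G2.WMGa
import Pool.Agent.Work.MP_b30479_gt.TBS.G2.WMGb
import Pool.Agent.Work.MP_b30479_gt.TBS.G2.MKA
import Pool.Agent.Work.MP_b30479_gt.TBS.G2.WLocF
import Pool.Agent.Work.MP_b30479_gt.TBS.G2.WMid

section

/-!
# Part of `MKO`
-/
set_option deprecated.oldSectionVars true

namespace Pool.Agent.Work.MP_b30479_gtS.G2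

namespace MKN

open NumGs

theorem p2_q7 : Pool.Agent.Work.NumIs.runE (Pool.Agent.Work.NumGs.tst [.sub (G2E 3000) (phE (-480) [(530, 83, 54)] 2330)])
    0 0 0 0 35 50337016710 54975581390 618475291 1236950583 0 27487790695 34359738369 68719476738
    1198980418397368699798445776345324653439869407336259775719915329413742464378035815133474708462913309295325438667087676788087298449116370222733678324648483196774072358276310716564745710737686457243958619525427427547839017190147662314078742582741816531070724056465651636087223407328919809
    29175955988073980422033999143293179013578745596923085344054829988075320377602 = true := by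
  decide +kernel

theorem p2_q8 : Pool.Agent.Work.NumIs.runE (Pool.Agent.Work.NumGs.tst [.sub (G2E 3000) (phE (-480) [(530, 83, 54)] 2330)])
    0 0 0 0 37 45698452030 54975581390 618475291 1236950583 27487790695 54975581390 0 68719476738
    29175955988073980422033999143293179013578745596923085344054829988075320377602
    0 = true := by
  decide +kernel

theorem s2 : chkF [.add (.add (G2s 3000) (phE (-410) [(530, 9, 7), (600, -1, 28), (640, -21, 20), (740, -23, 15)] 0)) penE] 1000 0 0 0 0 40 530 800 0 18 0 0 0 0 66048 = true := by
  decide +kernel

end MKN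

end Pool.Agent.Work.MP_b30479_gtS.G2

end

section

/-!
# Modes `2 | 1`: certificates, gain of the digit `2`
-/

namespace Pool.Agent.Work.MP_b30479_gtS.G2

namespace MKN

open NumGs

theorem a2 : chkF [.sub (G2E 1000) (phE (75) [(0, -63, 10), (20, 19, 10), (50, -1, 50), (100, -3, 100), (160, 19, 5)] 1250)] 1000 0 0 0 0 40 0 200 0 18 0 800 0 1000 28016098436085562180310757904392890103772206604213064231271524452890563479237531055214548425132922834913554556992679167259270937614264532157272388848041952217988734608933677758701772473017631667606632043245655725138017257190965507954731995589062593292300756672821405031594647733046499616511402479477613928294066945011707012963774379814010094717964119475275576397181302399244069579598698575010450462543660115945900267800660365269711110094282143563179296833088379951896299704873065776531908306021485287478780863072731657352369248904325752870184197023301237425615363773290080544246157491111156835690690520922301987478579727348484814578791316889285366965710831232845730471911100603674787790848529627299188462377280675682612453189289065781749628705006128516440151010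2073792574522454834903596301753112887609598405329981431256198956704238547324314601821524265522755823431138837203908411795375226009482206156745890463482868703800153363083314496384422212429491735412579734987634304744533550883481586338658885193693749123823734738566692983307501510821906842489611299474647267364998619214557931336149928821343906097496215513436255018005718303194060048184424885398691092385754427714428035616988447967071673522695707355486959972812233766665001614394512510659180848719012866543722232053760345011266015036736803723263169752092043120740871917525388198086743995673561926508743950075252030139631128760642241781288245569566900551735010549700766093334668629564637611217849555499428072254754084186162749272737881344166266582613771774143151248525508228973229888242656058963911004978376974128225244243184753836268898651845654472927673009772715439680979202107371943274606990622010474898337044949410188791409903894415001710700410795980360462242355181660897262397868935302827089507199389565056 = true :=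
    Pool.Agent.Work.NumIs.okB_of rfl rfl rfl rfl rfl rfl rfl rfl rfl rfl rfl rfl
    (Pool.Agent.Work.NumIs.runE_split0 rfl rfl rfl
      (Pool.Agent.Work.NumIs.runE_split1 rfl rfl rfl
        (Pool.Agent.Work.NumIs.runE_split2 rfl rfl rfl
          (Pool.Agent.Work.NumIs.runE_split2 rfl rfl rfl
            a2_q1
            a2_q2)
          a2_q3)
        (Pool.Agent.Work.NumIs.runE_split2 rfl rfl rfl
          (Pool.Agent.Work.NumIs.runE_split2 rfl rfl rfl
            a2_q4
            a2_q5)
          a2_q6))
      a2_q7)

theorem c2 : chkF [.sub (G2E 2000) (phE (-591) [(400, -4, 55), (510, 103, 55)] 2120)] 1000 0 0 0 0 40 400 530 0 18 0 800 0 1000 965479537100835943930501208034859023761607616762340957723646624931140046648454010024586932250609940827055845910463380353800440976519244362761314245773193366440395872378680108331969021766067663828339857040724606815827421070909149910376532780794087785328884825082817648190362113352369597594849109634563289292691457530139164105932511358784667648741330722718005776697207662082379406316366797388611368466340545555382321456040263594012117777306565468315262143011383751807547023676925069271082392303822357859846687507149197513167577847060014746289769069116155052354377087808689684152196693824116974621560908832968024702626896622417643630944387272243904324359453814707469815034353865734611664208608133248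 = true :=
    Pool.Agent.Work.NumIs.okB_of rfl rfl rfl rfl rfl rfl rfl rfl rfl rfl rfl rfl
    (Pool.Agent.Work.NumIs.runE_split0 rfl rfl rfl
      c2_q1
      c2_q2)

theorem p2 : chkF [.sub (G2E 3000) (phE (-480) [(530, 83, 54)] 2330)] 1000 0 0 0 0 40 530 800 0 18 0 800 0 1000 125914667026497354280119013092971579823326843944021977675034640427331787657143000928349685042381401749799883097524363079270069304682510638532309943446398055307429769538203066545830807961565775333762332500422463909074212521188275602376935495126056128080301789442673461742137612580514932670851094419449398834536277615872413823014705620462229806949056612098631559631376222039857870474788362026375994552804122876357671002476616542787669631499119820166140759889090922494120564595016917818872164174915601667382720501296347052117357319788150767403874969692687056596906644567531652388254611020299690262263177406957664188870796360701828257367922530763064181034864488533343338061357080289904525559975670388652059925507365198155289577622596953505220196226340840496347217008273597187180554913523407215302375506258297905614163970616135430609419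25402668369559352542572393851763215849716710755288589891592134163423315999656194968367575274859294503662579363956001916760762645158033500481668338741134342889779363923558819917038565988506463870666930138285227183481891034070307497370577868909029843640023216359448224405833863480989132872494964703086516703608876479759351869598325299856580421855254779906305678411038045970439910076279461235126947326012355724192695977879966619368289041244727522140253090214291081146776673218841818311423111410012951022226092392822698072080613279549841151601475113748779294241616946930211838388735329298285787623588134691906881321189217827378627141497150690226885120497788017440693533761847407745453494680677856316145566640856003255129284730222288661614863012283169513520035356084873404227362543295227628700297362729619379613274077535153623445191352029661831832114451451394488396163154614176144392216189755866829802073612637011033037457908982636264671867591600390169844673059578893434719757069891293846490029593360374123759415796983465878115848656083331035790047632296019657795559235755962729141184416040739696903347244706042963125156803118774474488853030153246722726797700364566672158446750869880344489746530575573818328481855264993096503081332176059122818515072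 = true :=
    Pool.Agent.Work.NumIs.okB_of rfl rfl rfl rfl rfl rfl rfl rfl rfl rfl rfl rfl
    (Pool.Agent.Work.NumIs.runE_split0 rfl rfl rfl
      (Pool.Agent.Work.NumIs.runE_split1 rfl rfl rfl
        p2_q1
        p2_q2)
      (Pool.Agent.Work.NumIs.runE_split1 rfl rfl rfl
        (Pool.Agent.Work.NumIs.runE_split2 rfl rfl rfl
          p2_q3
          p2_q4)
        (Pool.Agent.Work.NumIs.runE_split2 rfl rfl rfl
          (Pool.Agent.Work.NumIs.runE_split3 rfl rfl rfl
            p2_q5
            (Pool.Agent.Work.NumIs.runE_split0 rfl rfl rfl
              p2_q6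
              p2_q7))
          p2_q8)))

end MKN

end Pool.Agent.Work.MP_b30479_gtS.G2

end

section

/-!
# Part of `MKP`
-/
set_option deprecated.oldSectionVars true

namespace Pool.Agent.Work.MP_b30479_gtS.G2

namespace MKN

open NumGs

theorem a1_q1 : Pool.Agent.Work.NumIs.runE (Pool.Agent.Work.NumGs.tst [.add (.add (G1E 1000) (phE (75) [(0, -63, 10), (20, 19, 10), (50, -1, 50), (100, -3, 100), (160, 19, 5)] 1250)) penE])
    0 0 0 68719476736 38 0 6871947674 0 618475291 0 59098749994 0 137438953474
    3167494356169342600955828140578648080839384287817247354055582148453636574065540515212488406094129010585987034058208074354914676508515978644036451387157835233841952841156462947028716636842188675131265494993825534366169113409671763740264607817233392744180352190118633622459300798717758330560974600159370602079679657848180742507110579634133560474882966834012266278310165563179285725804220129083122176229279161103216723933918555693660278731922218662313028499096449247596563001288011846533757803624917516416380877629679863178031106348843533286867627297469429514915973275676511117525569517812518309965722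089455147084475254656790430856602565540411875998139256433455602591729877697251461420703752952953713910249068245529228990618871222383988740724537029720385621715691382384793316232702073837518059278228009490489182796412351986816563134664701629288992894076815202454682420438581974316913761832874079423317210254472901550222553964649788246141100812033738649214961774207401945040306390375705463890823999482021941533890324939494660640631925958483729647908451749624045760077610452562296649902673102489163608208799913626455072011636667907826112088622104266041132012696234757151170199989743065970646621555294466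
    334619481601584895443869314752945232680903260369950297068077527770291717183707948128742419988728133901523343990194126573591900936552290437370474205940981506033334250017766860983055819681351578565081012694592007915460574309048286213276591810507311356084768754970813839190811476877428387589457033182097458265195989006193631515883283718135145353815773840439814263664103819005578272953660680873919732747285496684063477155952219359164723978033554054189757743027486222073558727454703832846171784605354095842749142894493502245967043344783452116841181250820306077927444116702474819250316042844520520523351562155841876968876131039764150296660875552661438784581803464455547661779988318941744538167574449491037552072066666741332259427055023251335541530442364352776823403420821945340869977671171178923185847009495192553685677382693847298 = true := by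
  decide +kernel

theorem a1_q2 : Pool.Agent.Work.NumIs.runE (Pool.Agent.Work.NumGs.tst [.add (.add (G1E 1000) (phE (75) [(0, -63, 10), (20, 19, 10), (50, -1, 50), (100, -3, 100), (160, 19, 5)] 1250)) penE])
    0 0 0 68719476736 38 0 6871947674 618475291 1236950583 0 59098749994 0 137438953474
    334619481601584895443869314752945232680903260369950297068077527770291717183707948128742419988728133901523343990194126573591900936552290437370474205940981506033334250017766860983055819681351578565081012694592007915460574309048286213276591810507311356084768754970813839190811476877428387589457033182097458265195989006193631515883283718135145353815773840439814263664103819005578272953660680873919732747285496684063477155952219359164723978033554054189757743027486222073558727454703832846171784605354095842749142894493502245967043344783452116841181250820306077927444116702474819250316042844520520523351562155841876968876131039764150296660875552661438784581803464455547661779988318941744538167574449491037552072066666741332259427055023251335541530442364352776823403420821945340869977671171178923185847009495192553685677382693847298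
    674945614356209832455928980746361427897308907956208285991554624265418236886737937876172430619447237756128765151330162993858992555598712309552995326407707529278756494503683356915089396225614280224437786662725881301026450973604897306918227118796559182721696609396798632568852393772774471358927115157761 = true := by
  decide +kernel

end MKN

end Pool.Agent.Work.MP_b30479_gtS.G2

end

section

/-!
# Modes `2 | 1`: certificates, gain of the digit `1`
-/

namespace Pool.Agent.Work.MP_b30479_gtS.G2

namespace MKN

open NumGs

theorem a1 : chkF [.add (.add (G1E 1000) (phE (75) [(0, -63, 10), (20, 19, 10), (50, -1, 50), (100, -3, 100), (160, 19, 5)] 1250)) penE] 1000 0 0 0 1000 40 0 200 0 18 0 860 0 2000 518962275314785091740602882552405701564724721715977806488466579202643816294898158012414100454462097094408115660096810902309220599155257941038932195271939724712665553495074889241184933780224192533506538699788375550553147541040621771204953344775519067206508902829036932703731842861917524879110078490111279444734715141845932852364997367256442548204825286084569707038337525871294173315763425948978737353405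09775515102804933321616484930006743813630563336658929196224472622088213102786093609087854590648588965984299084674878308861646419452449372039205641739133172383306148683958149538930979840299990478390713633129832042572296854419154576433814108176353513577405736592862902316191767943916810288381193648705520734134750887782299586107539271528030814694938798026189887608992453693156590777753895883214487707492174770936419974952002570398346471494270859576554540277017516776465727067208315073869808917271629172809284018998846324156822130624775795704360774028737933708614073467540379899915558320387260407513447490091259083808680519936113474903797426551332073465840365733111569654780668312005396111182456556892977784855839899838655167001823020459984556294817906896015110261164772556631950392863074247561944531072 = true :=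
    Pool.Agent.Work.NumIs.okB_of rfl rfl rfl rfl rfl rfl rfl rfl rfl rfl rfl rfl
    (Pool.Agent.Work.NumIs.runE_split0 rfl rfl rfl
      (Pool.Agent.Work.NumIs.runE_split1 rfl rfl rfl
        a1_q1
        a1_q2)
      a1_q3)

theorem c1 : chkF [.add (.add (G1E 2000) (phE (-591) [(400, -4, 55), (510, 103, 55)] 2120)) penE] 1000 0 0 0 1000 40 400 530 0 18 0 860 0 2000 59696302718391875789476396086970445618596761180849969102585604743894460082737747982404970103240102364096018859859291688580587092695889003378711345584678733925225492703395156000449802764412316504034865940965166411024409704815810754222424362342891484764528825235767336967219972885879618437387799317310435298619058298167348613311195979766975067500851491903904097967545244230258801837152238618587605526528613623245271795564123223584706836391365834058808500822521542474154232692497953765734207091569360672550823055024144514416718622383857490692636643298548779581609297710776883645299828423889238150638434094301379988704753104820980949578445987975051521984310287355661607630594034679065574916485067823339532540969212808677920642693256524470803228955546370514919323133491891860620854363725743494106032523544179531721190515061243933474942253556578718302146204162772297156952192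 = true :=
    Pool.Agent.Work.NumIs.okB_of rfl rfl rfl rfl rfl rfl rfl rfl rfl rfl rfl rfl
    (Pool.Agent.Work.NumIs.runE_split0 rfl rfl rfl
      c1_q1
      c1_q2)

theorem q1 : chkF [.sub (G1E 3000) (phE (-410) [(530, 9, 7), (600, -1, 28), (640, -21, 20), (740, -23, 15)] 0)] 1000 0 0 0 1000 40 530 800 0 18 0 860 0 2000 103919057952091666654058757239984384832508471853363014113038880322623930335615405835276204679853631225083618467244293847997844069333897946864383926304258416042101418965325337170877987062678959281158670578323205267178578276197251527852712158500600707849358701669081184328729111480044970462120808202776287929030388843694303523220118365864112314049306192364539042874547364366940907664590089978507491982700930805121043380900330873061532013189659144570711803720626186410810597411134746902310262271499433567395049018805943580644551253217505161249491836504470485203610615753164553594546777624760693820372661655857608944155142696145011312487661625468817178764546665848080490987697658312996912153300964586109897862325030639654969281136785428641712154428043918880982176285425234497536787770587097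73784372487075599051641667834025072322626136179457276497079237160741792334154052371999172236341677261105819344594548482118456144784353231106363039940389824059871758932263752145613025825005556371820734775253051904477588649637293557636515015785200747349071738447420992710723628554514912231806968029943255573865245590347564792513339371403751430306561374117170966921542960173368272018676370428352282200331381643284763226408680418218658685376511008548975583966258720854731287952872496771501883328353626526179297791331342293392203486586797163142883406026678240636411558067645164415485137249184953505103124433895648359114715502472904456208852092851712875245009072466714927424346413585282549536009548463996140558211751462623600808300650686147297688460143781525592617858925464918516847587235858691004450821142476365016679812877791665990023075232180276085866260620324839813934408363849129270972945743875622860576987059093632 = true :=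
    Pool.Agent.Work.NumIs.okB_of rfl rfl rfl rfl rfl rfl rfl rfl rfl rfl rfl rfl
    (Pool.Agent.Work.NumIs.runE_split0 rfl rfl rfl
      (Pool.Agent.Work.NumIs.runE_split1 rfl rfl rfl
        q1_q1
        q1_q2)
      (Pool.Agent.Work.NumIs.runE_split1 rfl rfl rfl
        q1_q3
        q1_q4))

end MKN

end Pool.Agent.Work.MP_b30479_gtS.G2

end

section

/-!
# The first order condition at kinks

`SubD f d x`: `d` is the derivative at `x` of a function below `f` which touches `f` at `x`.  At a
maximum the first order condition holds for all choices of such derivatives (`Md.foc_sub`); hence a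
mode where the value of a digit `1` or `2` has a kink (the sum of its hinges is real and between `1`
and `2`) is no maximum (`kink_one`, `kink_two`).
-/

namespace Pool.Agent.Work.MP_b30479_gtS.G2

open Finset VOL Filter Topology

/-- `d` is the derivative at `x` of a function below `f` which touches `f` at `x` -/
def SubD (f : ℝ → ℝ) (d x : ℝ) : Prop :=
  ∃ g : ℝ → ℝ, HasDerivAt g d x ∧ g x = f x ∧ ∀ᶠ y in 𝓝 x, g y ≤ f y

theorem SubD.of_der {f : ℝ → ℝ} {d x : ℝ} (h : HasDerivAt f d x) : SubD f d x :=
  ⟨f, h, rfl, Eventually.of_forall fun _ => le_rfl⟩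

theorem SubD.add {f g : ℝ → ℝ} {d e x : ℝ} (hf : SubD f d x) (hg : HasDerivAt g e x) :
    SubD (fun y => f y + g y) (d + e) x := by
  obtain ⟨k, h1, h2, h3⟩ := hf
  refine ⟨fun y => k y + g y, h1.add hg, ?_, ?_⟩
  · simp only [h2]
  · filter_upwards [h3] with y hy
    linarith

/-- the kink of `UU` between `1` and `2` -/
theorem subD_UU {g : ℝ → ℂ} {m x : ℝ} (hg : HasDerivAt g (1 + m * Complex.I) x)
    (h0 : (g x).im = 0) (h1 : g x - 1 ∈ strip) {σ : ℝ} (hσ : |σ| ≤ 1) :
    SubD (fun t => UU (g t)) (dU (g x - 1) m + σ * (Real.pi * m)) x := by
  have a1 := hasDerivAt_dU (hg.sub_const 1) (Or.inr h1)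
  have a2 := ((hasDerivAt_im' hg).const_mul Real.pi).const_mul σ
  have key : ∀ w : ℂ, UU w = UU (w - 1) + Real.pi * |w.im| := by
    intro w
    have h2 := UU_add_one (w - 1)
    rw [sub_add_cancel] at h2
    rw [h2]
    simp
  refine ⟨fun t => UU (g t - 1) + σ * (Real.pi * (g t).im), ?_, ?_, ?_⟩
  · refine (a1.add a2).congr_deriv ?_
    simp
  · show UU (g x - 1) + σ * (Real.pi * (g x).im) = UU (g x)
    rw [key (g x), h0]
    simp
  · refine Eventually.of_forall fun t => ?_
    show UU (g t - 1) + σ * (Real.pi * (g t).im) ≤ UU (g t)
    rw [key (g t)]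
    have h3 : σ * (Real.pi * (g t).im) ≤ |σ * (Real.pi * (g t).im)| := le_abs_self _
    rw [abs_mul, abs_mul, abs_of_pos Real.pi_pos] at h3
    have h4 : |σ| * (Real.pi * |(g t).im|) ≤ 1 * (Real.pi * |(g t).im|) :=
      mul_le_mul_of_nonneg_right hσ (by positivity)
    linarith

namespace SR

variable {M : ℕ} {b : Fin (M + 1) → ℤ} {zs : DD (tyW b) ⊕ ZZ (tyW b) → ℂ}
variable {R : Finset (DD (tyW b))} {nb : Finset (DD (tyW b) ⊕ ZZ (tyW b))}
variable {z : DD (tyW b) ⊕ ZZ (tyW b) → ℂ} {p : DD (tyW b) → ℝ}
variable {h h' : Fin M} {i j j' : Fin (M + 1)} {s : Fin 3} {x c : ℝ}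

/-- **The first order condition** for functions below the values. -/
theorem Md.foc_sub (hb : ClassW b) (hR : ∀ i ∈ R, Sum.inl i ∈ nb) (hM : MM b zs R nb z p)
    (D : Md b zs nb z p h i s j x) {di dj dt : ℝ}
    (ki : SubD (fun y => OV b i (Function.update (Ow b z i) s
      ⟨y, -mhs b h s * trh b h y⟩)) di x)
    (kj : SubD (fun y => OV b j (Function.update (Ow b z j) s.rev
      ⟨y, mhs b h s * trh b h y⟩)) dj x) (kt : HasDerivAt (trh b h) dt x) :
    di + dj - 2 * Real.pi * (mhs b h s * dt) = 0 := by
  obtain ⟨f, f1, f2, f3⟩ := ki
  obtain ⟨g, g1, g2, g3⟩ := kj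
  have hmax : IsLocalMax (fun y => f y + g y - 2 * Real.pi * (mhs b h s * trh b h y)) x := by
    filter_upwards [Ioo_mem_nhds D.x0 D.x1, f3, g3] with y hy h1 h2
    have h3 := D.mstep hb hR hM hy.1.le hy.2.le
    simp only [neg_mul] at h1 f2
    rw [f2, g2]
    linarith
  exact hmax.hasDerivAt_eq_zero ((f1.add g1).sub ((kt.const_mul (mhs b h s)).const_mul
    (2 * Real.pi)))

/-- the kink of a digit `1` -/
theorem kink_one (hb : ClassW b) (A : Adj h i s j) (hc : clsW b i = .one) {τ : ℝ → ℝ} {a dt : ℝ}
    (kt : HasDerivAt τ dt x) (e0 : Ow b z i s = ⟨x, a * τ x⟩) (h1 : DOk (Ow b z i s))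
    (h2 : (Ow b z i s + Ow b z i s.rev).im = 0) (h3 : Ow b z i s + Ow b z i s.rev - 1 ∈ strip) :
    ∃ C : ℝ, ∀ σ : ℝ, |σ| ≤ 1 → SubD (fun y => OV b i (Function.update (Ow b z i) s
      ⟨y, a * τ y⟩)) (C + σ * (Real.pi * (a * dt))) x := by
  have hg := hasDerivAt_curve (a := a) kt
  set k := Ow b z i s.rev with hk
  have a1 := hasDerivAt_dU hg (by rw [← e0]; exact h1)
  have a3 := (hasDerivAt_im' (((hg.mul_const k).sub hg).sub_const k)).const_mul Real.pi
  obtain ⟨C, a4⟩ : ∃ C, HasDerivAt (fun y : ℝ => Real.pi * ((⟨y, a * τ y⟩ : ℂ) * k -
      ⟨y, a * τ y⟩ - k).im - UU ⟨y, a * τ y⟩ - UU k) C x := ⟨_, (a3.sub a1).sub_const (UU k)⟩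
  refine ⟨dU (Ow b z i s + k - 1) (a * dt) + C, fun σ hσ => ?_⟩
  · have a2 := subD_UU (hg.add_const k) (by rw [← e0]; exact h2) (by rw [← e0]; exact h3) hσ
    have a5 := a2.add a4
    rw [← e0] at a5
    obtain ⟨g, g1, g2, g3⟩ := a5
    have hf : ∀ y : ℝ, OV b i (Function.update (Ow b z i) s ⟨y, a * τ y⟩) =
        UU ((⟨y, a * τ y⟩ : ℂ) + k) + (Real.pi * ((⟨y, a * τ y⟩ : ℂ) * k - ⟨y, a * τ y⟩ - k).im -
          UU ⟨y, a * τ y⟩ - UU k) := by
      intro y
      have e1 : OV b i (Function.update (Ow b z i) s ⟨y, a * τ y⟩) =
          V1 (⟨y, a * τ y⟩ : ℂ) (Ow b z i s.rev) := by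
        rw [OV_one hb hc]
        cases A
        · rw [Function.update_self, Function.update_of_ne (by decide), V1_comm]
          rfl
        · rw [Function.update_self, Function.update_of_ne (by decide)]
          rfl
      rw [e1, ← hk]
      unfold V1
      ring
    refine ⟨g, ?_, ?_, ?_⟩
    · refine g1.congr_deriv ?_
      ring
    · rw [g2]
      exact (hf x).symm
    · filter_upwards [g3] with y hy
      rw [hf]
      exact hy

/-- the kink of a digit `2` -/
theorem kink_two (hb : ClassW b) (A : Adj h i s j) (hc : clsW b i = .two ∨ clsW b i = .twoE)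
    {τ : ℝ → ℝ} {a dt : ℝ}
    (kt : HasDerivAt τ dt x) (e0 : Ow b z i s = ⟨x, a * τ x⟩) (h1 : DOk (Ow b z i s))
    (h2 : (Ow b z i s + Ow b z i s.rev).im = 0) (h3 : Ow b z i s + Ow b z i s.rev - 1 ∈ strip) :
    ∃ C : ℝ, ∀ σ : ℝ, |σ| ≤ 1 → SubD (fun y => OV b i (Function.update (Ow b z i) s
      ⟨y, a * τ y⟩)) (C + σ * (Real.pi * (a * dt))) x := by
  have hg := hasDerivAt_curve (a := a) kt
  set k := Ow b z i s.rev with hk
  have a1 := hasDerivAt_dU hg (by rw [← e0]; exact h1)
  have a6 : HasDerivAt (fun t : ℝ => ((⟨t, a * τ t⟩ : ℂ) - k) ^ 2 + ⟨t, a * τ t⟩ + k)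
      (2 * ((⟨x, a * τ x⟩ : ℂ) - k) * (1 + (a * dt : ℝ) * Complex.I) +
        (1 + (a * dt : ℝ) * Complex.I)) x := by
    have := (((hg.sub_const k).fun_pow 2).add hg).add_const k
    refine this.congr_deriv ?_
    norm_num
  have a3 := ((hasDerivAt_im' a6).const_mul (Real.pi / 2)).neg
  obtain ⟨C, a4⟩ : ∃ C, HasDerivAt (fun y : ℝ => -(Real.pi / 2 * (((⟨y, a * τ y⟩ : ℂ) - k) ^ 2 +
      (⟨y, a * τ y⟩ : ℂ) + k).im) - 2 * UU (⟨y, a * τ y⟩ : ℂ) - 2 * UU k) C x :=
    ⟨_, (a3.sub (a1.const_mul 2)).sub_const (2 * UU k)⟩
  refine ⟨dU (Ow b z i s + k - 1) (a * dt) + C, fun σ hσ => ?_⟩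
  · have a2 := subD_UU (hg.add_const k) (by rw [← e0]; exact h2) (by rw [← e0]; exact h3) hσ
    have a5 := a2.add a4
    rw [← e0] at a5
    obtain ⟨g, g1, g2, g3⟩ := a5
    have hf : ∀ y : ℝ, OV b i (Function.update (Ow b z i) s ⟨y, a * τ y⟩) =
        UU ((⟨y, a * τ y⟩ : ℂ) + k) + (-(Real.pi / 2 * (((⟨y, a * τ y⟩ : ℂ) - k) ^ 2 +
          (⟨y, a * τ y⟩ : ℂ) + k).im) - 2 * UU (⟨y, a * τ y⟩ : ℂ) - 2 * UU k) := by
      intro y
      have e1 : OV b i (Function.update (Ow b z i) s ⟨y, a * τ y⟩) =
          V2 (⟨y, a * τ y⟩ : ℂ) (Ow b z i s.rev) := by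
        rw [OV_two hb hc (endOk_upd A (Ow_endOk z i) _)]
        cases A
        · rw [Function.update_self, Function.update_of_ne (by decide), V2_comm]
          rfl
        · rw [Function.update_self, Function.update_of_ne (by decide)]
          rfl
      rw [e1, ← hk]
      unfold V2
      ring
    refine ⟨g, ?_, ?_, ?_⟩
    · refine g1.congr_deriv ?_
      ring
    · rw [g2]
      exact (hf x).symm
    · filter_upwards [g3] with y hy
      rw [hf]
      exact hy

end SR

end Pool.Agent.Work.MP_b30479_gtS.G2

end

section

/-!
# Modes `2 | 1`: the inequalities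
-/

namespace Pool.Agent.Work.MP_b30479_gtS.G2

open Finset VOL Filter Topology

namespace MKN

open NumGs

/-- a bound -/
noncomputable def φA (x T : ℝ) : ℝ := ph (75) [(0, -63, 10), (20, 19, 10), (50, -1, 50), (100, -3, 100), (160, 19, 5)] 1250 x T
/-- a bound -/
noncomputable def φB (x T : ℝ) : ℝ := ph (-600) [(200, -63, 200)] 1930 x T
/-- a bound -/
noncomputable def φC (x T : ℝ) : ℝ := ph (-591) [(400, -4, 55), (510, 103, 55)] 2120 x T
/-- a bound -/
noncomputable def φR (x T : ℝ) : ℝ := ph (-870) [(530, 7, 5), (600, 7, 30), (660, 41, 210), (730, 3, 5)] 2200 x T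
/-- a bound -/
noncomputable def φp (x T : ℝ) : ℝ := ph (-480) [(530, 83, 54)] 2330 x T
/-- a bound -/
noncomputable def φq (x T : ℝ) : ℝ := ph (-410) [(530, 9, 7), (600, -1, 28), (640, -21, 20), (740, -23, 15)] 0 x T

/-- the other hinge of the digit `2` -/
def MP (X : ℂ) : Prop := 0 ≤ X.re ∧ X.re ≤ 8 / 10 ∧ ∃ s : ℝ, 0 ≤ s ∧ s ≤ 1 ∧ X.im = tm2 X.re s
/-- the other hinge of the digit `1` -/
def KP (X : ℂ) : Prop := 0 ≤ X.re ∧ X.re ≤ 86 / 100 ∧ ∃ θ : ℝ, -1 ≤ θ ∧ θ ≤ 1 ∧ X.im = tk1 X.re θ

variable {x T : ℝ} {X : ℂ}

theorem MP.eq {X : ℂ} {s : ℝ} (h : X.im = tm2 X.re s) : (⟨X.re, tm2 X.re s⟩ : ℂ) = X := by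
  rw [← h]
theorem KP.eq {X : ℂ} {s : ℝ} (h : X.im = tk1 X.re s) : (⟨X.re, tk1 X.re s⟩ : ℂ) = X := by
  rw [← h]

theorem gA2 (x0 : 0 / 1000 ≤ x) (x1 : x ≤ 200 / 1000) (T0 : 0 ≤ T) (T1 : T ≤ 18 / 1000)
    (hX : MP X) : φA x T < M2 (1000 / 10000) T x X := by
  obtain ⟨y0, y1, s, s0, s1, ht⟩ := hX
  have h := KE.chk1 a2 (by norm_num) (x := x) (y := T) (z := X.re) (w := s)
    (by constructor <;> push_cast <;> linarith only [x0, x1]) (by constructor <;> push_cast <;> linarith only [T0, T1])
    (by constructor <;> push_cast <;> linarith only [y0, y1]) (by constructor <;> push_cast <;> linarith only [s0, s1])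
  rw [show ∀ a b : E, ∀ l, (E.sub a b).val l = a.val l - b.val l from fun _ _ _ => rfl, G2E_val,
    ph_val, MP.eq ht] at h
  push_cast at h
  unfold φA
  linarith only [h]

theorem gA1 (x0 : 0 / 1000 ≤ x) (x1 : x ≤ 200 / 1000) (T0 : 0 ≤ T) (T1 : T ≤ 18 / 1000)
    (hX : KP X) : 0 < M1 (1000 / 10000) T x X + φA x T + 2 * Real.pi * (16 / 100 * τ8 x) := by
  obtain ⟨y0, y1, θ, θ0, θ1, ht⟩ := hX
  have h := KE.chk1 a1 (by norm_num) (x := x) (y := T) (z := X.re) (w := θ)
    (by constructor <;> push_cast <;> linarith only [x0, x1]) (by constructor <;> push_cast <;> linarith only [T0, T1])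
    (by constructor <;> push_cast <;> linarith only [y0, y1]) (by constructor <;> push_cast <;> linarith only [θ0, θ1])
  rw [show ∀ a b c : E, ∀ l, (E.add (E.add a b) c).val l = a.val l + b.val l + c.val l from
    fun _ _ _ _ => rfl, G1E_val, ph_val, penE_val, KP.eq ht] at h
  push_cast at h
  unfold φA
  linarith only [h]

theorem gB2 (x0 : 200 / 1000 ≤ x) (x1 : x ≤ 400 / 1000) (T0 : 0 ≤ T) (T1 : T ≤ 18 / 1000)
    (hX : MP X) : φB x T < M2 (1500 / 10000) T x X := by
  obtain ⟨y0, y1, s, s0, s1, ht⟩ := hX
  have h := KE.chk1 b2 (by norm_num) (x := x) (y := T) (z := X.re) (w := s)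
    (by constructor <;> push_cast <;> linarith only [x0, x1]) (by constructor <;> push_cast <;> linarith only [T0, T1])
    (by constructor <;> push_cast <;> linarith only [y0, y1]) (by constructor <;> push_cast <;> linarith only [s0, s1])
  rw [show ∀ a b : E, ∀ l, (E.sub a b).val l = a.val l - b.val l from fun _ _ _ => rfl, G2E_val,
    ph_val, MP.eq ht] at h
  push_cast at h
  unfold φB
  linarith only [h]

theorem gB1 (x0 : 200 / 1000 ≤ x) (x1 : x ≤ 400 / 1000) (T0 : 0 ≤ T) (T1 : T ≤ 18 / 1000)
    (hX : KP X) : 0 < M1 (1500 / 10000) T x X + φB x T + 2 * Real.pi * (16 / 100 * τ8 x) := by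
  obtain ⟨y0, y1, θ, θ0, θ1, ht⟩ := hX
  have h := KE.chk1 b1 (by norm_num) (x := x) (y := T) (z := X.re) (w := θ)
    (by constructor <;> push_cast <;> linarith only [x0, x1]) (by constructor <;> push_cast <;> linarith only [T0, T1])
    (by constructor <;> push_cast <;> linarith only [y0, y1]) (by constructor <;> push_cast <;> linarith only [θ0, θ1])
  rw [show ∀ a b c : E, ∀ l, (E.add (E.add a b) c).val l = a.val l + b.val l + c.val l from
    fun _ _ _ _ => rfl, G1E_val, ph_val, penE_val, KP.eq ht] at h
  push_cast at h
  unfold φB
  linarith only [h]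

theorem gC2 (x0 : 400 / 1000 ≤ x) (x1 : x ≤ 530 / 1000) (T0 : 0 ≤ T) (T1 : T ≤ 18 / 1000)
    (hX : MP X) : φC x T < M2 (2000 / 10000) T x X := by
  obtain ⟨y0, y1, s, s0, s1, ht⟩ := hX
  have h := KE.chk1 c2 (by norm_num) (x := x) (y := T) (z := X.re) (w := s)
    (by constructor <;> push_cast <;> linarith only [x0, x1]) (by constructor <;> push_cast <;> linarith only [T0, T1])
    (by constructor <;> push_cast <;> linarith only [y0, y1]) (by constructor <;> push_cast <;> linarith only [s0, s1])
  rw [show ∀ a b : E, ∀ l, (E.sub a b).val l = a.val l - b.val l from fun _ _ _ => rfl, G2E_val,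
    ph_val, MP.eq ht] at h
  push_cast at h
  unfold φC
  linarith only [h]

theorem gC1 (x0 : 400 / 1000 ≤ x) (x1 : x ≤ 530 / 1000) (T0 : 0 ≤ T) (T1 : T ≤ 18 / 1000)
    (hX : KP X) : 0 < M1 (2000 / 10000) T x X + φC x T + 2 * Real.pi * (16 / 100 * τ8 x) := by
  obtain ⟨y0, y1, θ, θ0, θ1, ht⟩ := hX
  have h := KE.chk1 c1 (by norm_num) (x := x) (y := T) (z := X.re) (w := θ)
    (by constructor <;> push_cast <;> linarith only [x0, x1]) (by constructor <;> push_cast <;> linarith only [T0, T1])
    (by constructor <;> push_cast <;> linarith only [y0, y1]) (by constructor <;> push_cast <;> linarith only [θ0, θ1])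
  rw [show ∀ a b c : E, ∀ l, (E.add (E.add a b) c).val l = a.val l + b.val l + c.val l from
    fun _ _ _ _ => rfl, G1E_val, ph_val, penE_val, KP.eq ht] at h
  push_cast at h
  unfold φC
  linarith only [h]

theorem gP2 (x0 : 530 / 1000 ≤ x) (x1 : x ≤ 800 / 1000) (T0 : 0 ≤ T) (T1 : T ≤ 18 / 1000)
    (hX : MP X) : φp x T < M2 (3000 / 10000) T x X := by
  obtain ⟨y0, y1, s, s0, s1, ht⟩ := hX
  have h := KE.chk1 p2 (by norm_num) (x := x) (y := T) (z := X.re) (w := s)
    (by constructor <;> push_cast <;> linarith only [x0, x1]) (by constructor <;> push_cast <;> linarith only [T0, T1])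
    (by constructor <;> push_cast <;> linarith only [y0, y1]) (by constructor <;> push_cast <;> linarith only [s0, s1])
  rw [show ∀ a b : E, ∀ l, (E.sub a b).val l = a.val l - b.val l from fun _ _ _ => rfl, G2E_val,
    ph_val, MP.eq ht] at h
  push_cast at h
  unfold φp
  linarith only [h]

theorem gQ1 (x0 : 530 / 1000 ≤ x) (x1 : x ≤ 800 / 1000) (T0 : 0 ≤ T) (T1 : T ≤ 18 / 1000)
    (hX : KP X) : φq x T < M1 (3000 / 10000) T x X := by
  obtain ⟨y0, y1, θ, θ0, θ1, ht⟩ := hX
  have h := KE.chk1 q1 (by norm_num) (x := x) (y := T) (z := X.re) (w := θ)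
    (by constructor <;> push_cast <;> linarith only [x0, x1]) (by constructor <;> push_cast <;> linarith only [T0, T1])
    (by constructor <;> push_cast <;> linarith only [y0, y1]) (by constructor <;> push_cast <;> linarith only [θ0, θ1])
  rw [show ∀ a b : E, ∀ l, (E.sub a b).val l = a.val l - b.val l from fun _ _ _ => rfl, G1E_val,
    ph_val, KP.eq ht] at h
  push_cast at h
  unfold φq
  linarith only [h]

theorem gR2 (x0 : 530 / 1000 ≤ x) (x1 : x ≤ 800 / 1000) (T0 : 0 ≤ T) (T1 : T ≤ 18 / 1000)
    (hX : MP X) : 0 < M2 (3000 / 10000) T x X + φq x T + 2 * Real.pi * (16 / 100 * τ8 x) ∨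
      0 < M2 (2000 / 10000) T x X - φR x T + 2 / 10 * dh2 ⟨x, -(16 / 100 * τ8 x)⟩ X (16 / 29) := by
  obtain ⟨y0, y1, s, s0, s1, ht⟩ := hX
  obtain ⟨e, he, h⟩ := chkD4 r2 (by norm_num) (x := x) (y := T) (z := X.re) (w := s)
    (by push_cast; linarith only [x0]) (by push_cast; linarith only [x1]) (by push_cast; linarith only [T0])
    (by push_cast; linarith only [T1]) (by push_cast; linarith only [y0]) (by push_cast; linarith only [y1])
    (by push_cast; linarith only [s0]) (by push_cast; linarith only [s1])
  simp only [List.mem_cons, List.not_mem_nil, or_false] at he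
  rcases he with rfl | rfl
  · left
    rw [show ∀ a b c : E, ∀ l, (D.of (E.add (E.add a b) c)).val l = a.val l + b.val l + c.val l from
      fun _ _ _ _ => rfl, G2E_val, ph_val, penE_val, MP.eq ht] at h
    push_cast at h
    unfold φq
    linarith only [h]
  · right
    rw [R2_val, MP.eq ht] at h
    push_cast at h
    unfold φR
    linarith only [h]

theorem gR1 (x0 : 530 / 1000 ≤ x) (x1 : x ≤ 800 / 1000) (T0 : 0 ≤ T) (T1 : T ≤ 18 / 1000)
    (hX : KP X) : 0 < M1 (3000 / 10000) T x X + φp x T + 2 * Real.pi * (16 / 100 * τ8 x) ∨
      0 < M1 (2000 / 10000) T x X + φR x T + 2 * Real.pi * (16 / 100 * τ8 x) +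
        2 / 10 * (2 * Real.pi * (16 / 29)) +
        2 / 10 * dh1 ⟨x, 16 / 100 * τ8 x⟩ X (-(16 / 29)) := by
  obtain ⟨y0, y1, θ, θ0, θ1, ht⟩ := hX
  obtain ⟨e, he, h⟩ := chkD4 r1 (by norm_num) (x := x) (y := T) (z := X.re) (w := θ)
    (by push_cast; linarith only [x0]) (by push_cast; linarith only [x1]) (by push_cast; linarith only [T0])
    (by push_cast; linarith only [T1]) (by push_cast; linarith only [y0]) (by push_cast; linarith only [y1])
    (by push_cast; linarith only [θ0]) (by push_cast; linarith only [θ1])
  simp only [List.mem_cons, List.not_mem_nil, or_false] at he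
  rcases he with rfl | rfl
  · left
    rw [show ∀ a b c : E, ∀ l, (D.of (E.add (E.add a b) c)).val l = a.val l + b.val l + c.val l from
      fun _ _ _ _ => rfl, G1E_val, ph_val, penE_val, KP.eq ht] at h
    push_cast at h
    unfold φp
    linarith only [h]
  · right
    rw [R1_val, KP.eq ht] at h
    push_cast at h
    unfold φR
    linarith only [h]

theorem gS2 (x0 : 530 / 1000 ≤ x) (x1 : x ≤ 800 / 1000) (T0 : 0 ≤ T) (T1 : T ≤ 18 / 1000) :
    0 < M2 (3000 / 10000) T x ⟨1 - x, 16 / 100 * τ8 x⟩ + φq x T +
      2 * Real.pi * (16 / 100 * τ8 x) := by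
  have h := KE.chk1 s2 (by norm_num) (x := x) (y := T) (z := 0) (w := 0)
    (by constructor <;> push_cast <;> linarith only [x0, x1]) (by constructor <;> push_cast <;> linarith only [T0, T1])
    (by constructor <;> norm_num) (by constructor <;> norm_num)
  rw [show ∀ a b c : E, ∀ l, (E.add (E.add a b) c).val l = a.val l + b.val l + c.val l from
    fun _ _ _ _ => rfl, G2s_val, ph_val, penE_val] at h
  push_cast at h
  unfold φq
  linarith only [h]

theorem gS1 (x0 : 530 / 1000 ≤ x) (x1 : x ≤ 800 / 1000) (T0 : 0 ≤ T) (T1 : T ≤ 18 / 1000) :
    0 < M1 (3000 / 10000) T x ⟨1 - x, -(16 / 100 * τ8 x)⟩ + φp x T +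
      2 * Real.pi * (16 / 100 * τ8 x) := by
  have h := KE.chk1 s1 (by norm_num) (x := x) (y := T) (z := 0) (w := 0)
    (by constructor <;> push_cast <;> linarith only [x0, x1]) (by constructor <;> push_cast <;> linarith only [T0, T1])
    (by constructor <;> norm_num) (by constructor <;> norm_num)
  rw [show ∀ a b c : E, ∀ l, (E.add (E.add a b) c).val l = a.val l + b.val l + c.val l from
    fun _ _ _ _ => rfl, G1s_val, ph_val, penE_val] at h
  push_cast at h
  unfold φp
  linarith only [h]

/-- **The contradiction.** -/
theorem no21 {K : ℂ} (x0 : 0 ≤ x) (x1 : x ≤ 800 / 1000) (T0 : 0 ≤ T) (T1 : T ≤ 18 / 1000)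
    (hM : MP X) (hK : KP K)
    (key : ∀ c, 0 ≤ c → c ≤ 8 / 10 → M2 c T x X + M1 c T x K +
      2 * Real.pi * (16 / 100 * τ8 x) ≤ 0)
    (foc : 530 / 1000 ≤ x → X = ⟨1 - x, 16 / 100 * τ8 x⟩ ∨ K = ⟨1 - x, -(16 / 100 * τ8 x)⟩ ∨
      dh2 ⟨x, -(16 / 100 * τ8 x)⟩ X (16 / 29) + dh1 ⟨x, 16 / 100 * τ8 x⟩ K (-(16 / 29)) +
        2 * Real.pi * (16 / 29) = 0) : False := by
  rcases le_total x (200 / 1000) with h0 | h0
  · have a1 := gA2 (by linarith only [x0]) h0 T0 T1 hM
    have a2 := gA1 (by linarith only [x0]) h0 T0 T1 hK
    have := key (1000 / 10000) (by norm_num) (by norm_num)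
    linarith only [a1, a2, this]
  rcases le_total x (400 / 1000) with h1 | h1
  · have a1 := gB2 h0 h1 T0 T1 hM
    have a2 := gB1 h0 h1 T0 T1 hK
    have := key (1500 / 10000) (by norm_num) (by norm_num)
    linarith only [a1, a2, this]
  rcases le_total x (530 / 1000) with h2 | h2
  · have a1 := gC2 h1 h2 T0 T1 hM
    have a2 := gC1 h1 h2 T0 T1 hK
    have := key (2000 / 10000) (by norm_num) (by norm_num)
    linarith only [a1, a2, this]
  have k2 := key (2000 / 10000) (by norm_num) (by norm_num)
  have k3 := key (3000 / 10000) (by norm_num) (by norm_num)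
  have p2 := gP2 h2 x1 T0 T1 hM
  have q1 := gQ1 h2 x1 T0 T1 hK
  rcases foc h2 with rfl | rfl | hf
  · have := gS2 h2 x1 T0 T1
    linarith only [q1, k3, this]
  · have := gS1 h2 x1 T0 T1
    linarith only [p2, k3, this]
  · rcases gR2 h2 x1 T0 T1 hM with h3 | h3
    · linarith only [k3, q1, h3]
    · rcases gR1 h2 x1 T0 T1 hK with h4 | h4
      · linarith only [k3, p2, h4]
      · linarith only [k2, hf, h3, h4]

end MKN

end Pool.Agent.Work.MP_b30479_gtS.G2

end

section

/-!
# Modes `2 | 1`
-/

namespace Pool.Agent.Work.MP_b30479_gtS.G2

open Finset VOL Filter Topology SR NumGs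

variable {M : ℕ} {b : Fin (M + 1) → ℤ} {zs : DD (tyW b) ⊕ ZZ (tyW b) → ℂ}
variable {R : Finset (DD (tyW b))} {nb : Finset (DD (tyW b) ⊕ ZZ (tyW b))}
variable {z : DD (tyW b) ⊕ ZZ (tyW b) → ℂ} {p : DD (tyW b) → ℝ}
variable {h h' : Fin M} {i j j' : Fin (M + 1)} {s : Fin 3} {x c : ℝ}

namespace MKN

/-- parameters of a hinge between a digit `2` and a digit `1` -/
theorem par_two_one (A : Adj h i s j) (hi : clsW b i = .two) (hj : clsW b j = .one) :
    wXM b h = 8 / 10 ∧ wcr b h = 29 / 100 ∧ (∀ x, trh b h x = τ8 x) ∧
      ∀ q, mhs b h q = 16 / 100 := by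
  have h1 : wXM b h = 800 / 1000 ∧ wcl b h = 160 / 1000 ∧ wcr b h = 290 / 1000 := by
    rw [A.XM_eq b, A.cl_eq b, A.cr_eq b]
    unfold hpp
    rw [hi, hj]
    simp only [hp, hp1]
    split_ifs <;> norm_num
  refine ⟨by rw [h1.1]; norm_num, by rw [h1.2.2]; norm_num, fun x => ?_, fun q => ?_⟩
  · unfold trh τ8
    rw [h1.1, h1.2.1, h1.2.2]
    norm_num
  · unfold mhs
    cases A with
    | l => rw [hi, hj]; simp
    | r => rw [hi, hj]; simp

/-- the positions of the sum of two hinges -/
theorem sum_cases {u X : ℂ} (h0 : 0 < u.re) (h1 : 0 ≤ X.re) (h2 : u.re + X.re < 2) :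
    DOk (u + X) ∨ X = ⟨1 - u.re, -u.im⟩ ∨ ((u + X).im = 0 ∧ u + X - 1 ∈ strip) := by
  by_cases hi : (u + X).im = 0
  · rcases lt_trichotomy (u.re + X.re) 1 with h3 | h3 | h3
    · left; right
      exact ⟨by rw [Complex.add_re]; linarith only [h0, h1], by rw [Complex.add_re]; exact h3⟩
    · right; left
      rw [Complex.add_im] at hi
      apply Complex.ext
      · show X.re = 1 - u.re
        linarith only [h3]
      · show X.im = -u.im
        linarith only [hi]
    · right; right
      refine ⟨hi, ?_, ?_⟩
      · rw [Complex.sub_re, Complex.add_re, Complex.one_re]; linarith only [h3]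
      · rw [Complex.sub_re, Complex.add_re, Complex.one_re]; linarith only [h2]
  · left; left
    exact hi

end MKN

/-- **Modes `2 | 1`.** -/
theorem kd_two_one (hb : ClassW b) (L : LocA b zs) (s : Fin 3) : Kd b zs .two .one s := by
  intro R nb z p h i j x hN hM hq D hi hj
  obtain ⟨hXM, hcr, ht, hm⟩ := MKN.par_two_one D.adj hi hj
  have B := D.adj.symm
  obtain ⟨h2, j2, A2⟩ := D.adj.other' b (clsW_inner hb (Or.inr (Or.inl hi)))
  obtain ⟨h1, j1, A1⟩ := B.other' b (clsW_inner hb (Or.inl hj))
  have P1 := hM.npos hb hN hq B D.nn A1
  have P2 := (hM.npos hb hN hq D.adj D.nn A2).d2 hb L.L A2 hi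
  have hT1 := (Th_mem hb L.L D.adj (by rw [hi]; decide)).2
  rw [hi, hj] at hT1
  simp only [hbox] at hT1
  have hT0 := D.T0
  have hx0 := D.x0
  have hx1 := D.x1
  rw [hXM] at hx1
  have hown : Ow b z i s = ⟨x, -(16 / 100 * MKN.τ8 x)⟩ := by rw [D.own, hm, ht]
  have hopp : Ow b z j s.rev = ⟨x, 16 / 100 * MKN.τ8 x⟩ := by rw [D.opp, hm, ht]
  have htg : ∀ c, tgo b zs h i c = ⟨c, Th b zs h i * MKN.τ8 c⟩ := fun c => by
    unfold tgo; rw [ht]
  have htg' : ∀ c, tgo b zs h j c = ⟨c, -(Th b zs h i * MKN.τ8 c)⟩ := fun c => by
    unfold tgo; rw [ht, D.Tj, neg_mul]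
  have hMP : MKN.MP (Ow b z i s.rev) := by
    obtain ⟨m0, m1, m2⟩ := P2
    obtain ⟨t, t0, t1, e⟩ := KE.d2_par m2
    exact ⟨m0, m1, t, t0, t1, e⟩
  have hKP : MKN.KP (Ow b z j s.rev.rev) := by
    rcases MKA.one_pos hb L.L A1 hj P1 with h3 | ⟨h3, -, -⟩
    · exact h3
    · exfalso
      obtain ⟨hw, -, -, -⟩ := L.X.win B A1 hj
      have hw' : (cw (clsW b j1) (clsW b i)).t0 ≤ Th b zs h j := hw
      rw [h3, hi, D.Tj] at hw'
      simp only [cw] at hw'
      linarith only [hT0, hx0, hx1, hw']
  refine MKN.no21 (X := Ow b z i s.rev) (K := Ow b z j s.rev.rev) hx0.le (by linarith only [hx1]) hT0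
    (by linarith only [hT1]) hMP hKP ?_ ?_
  · intro c c0 c1
    have k1 := keep_two (zs := zs) (nb := nb) (z := z) (p := p) (c := c) hb D.adj (Or.inl hi)
    have k2 := keep_one (zs := zs) (nb := nb) (z := z) (p := p) (c := c) hb B hj
    have := D.star hb hN.ok.1 hM c0 (by rw [hXM]; exact c1) k1 k2
    rw [hown, hopp, hm, ht, htg, htg'] at this
    exact this
  · intro hx
    have hkt := (trh_right (b := b) (h := h) (x := x) (by rw [hXM, hcr]; linarith only [hx0, hx]) D.x1).2
    have e1 : -mhs b h s * -(1 / wcr b h) = 16 / 29 := by
      rw [hm, hcr]; norm_num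
    have e2 : mhs b h s * -(1 / wcr b h) = -(16 / 29) := by
      rw [hm, hcr]; norm_num
    have r1 : (Ow b z i s).re = x := by rw [hown]
    have r2 : (Ow b z j s.rev).re = x := by rw [hopp]
    have r3 := hMP.1
    have r4 := hMP.2.1
    have r5 := hKP.1
    have r6 := hKP.2.1
    rcases MKN.sum_cases (u := Ow b z i s) (X := Ow b z i s.rev) (by rw [r1]; exact hx0) r3
      (by rw [r1]; linarith only [P2, hx0, hx1]) with m1 | m1 | m1
    · have ki := der_two hb D.adj (Or.inl hi) (a := -mhs b h s) hkt D.own' D.ok_own m1
      rcases MKN.sum_cases (u := Ow b z j s.rev) (X := Ow b z j s.rev.rev)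
        (by rw [r2]; exact hx0) r5 (by rw [r2]; linarith only [hx0, hx1, r6]) with n1 | n1 | n1
      · right; right
        have kj := der_one hb B hj (a := mhs b h s) hkt (by rw [D.opp]) D.ok_opp n1
        have hf := D.foc hb hN.ok.1 hM ki kj hkt
        rw [e1, e2, hown, hopp] at hf
        linarith only [hf]
      · right; left
        rw [n1, hopp]
      · exfalso
        obtain ⟨C, hC⟩ := kink_one hb B hj (a := mhs b h s) hkt (by rw [D.opp]) D.ok_opp n1.1 n1.2
        have f1 := D.foc_sub hb hN.ok.1 hM (SubD.of_der ki) (hC 1 (by norm_num)) hkt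
        have f2 := D.foc_sub hb hN.ok.1 hM (SubD.of_der ki) (hC (-1) (by norm_num)) hkt
        rw [e2] at f1 f2
        have := Real.pi_pos
        linarith only [f1, f2, this]
    · left
      rw [m1, hown, neg_neg]
    · obtain ⟨C, hC⟩ := kink_two hb D.adj (Or.inl hi) (a := -mhs b h s) hkt D.own' D.ok_own
        m1.1 m1.2
      rcases MKN.sum_cases (u := Ow b z j s.rev) (X := Ow b z j s.rev.rev)
        (by rw [r2]; exact hx0) r5 (by rw [r2]; linarith only [hx0, hx1, r6]) with n1 | n1 | n1
      · exfalso
        have kj := der_one hb B hj (a := mhs b h s) hkt (by rw [D.opp]) D.ok_opp n1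
        have f1 := D.foc_sub hb hN.ok.1 hM (hC 1 (by norm_num)) (SubD.of_der kj) hkt
        have f2 := D.foc_sub hb hN.ok.1 hM (hC (-1) (by norm_num)) (SubD.of_der kj) hkt
        rw [e1] at f1 f2
        have := Real.pi_pos
        linarith only [f1, f2, this]
      · right; left
        rw [n1, hopp]
      · exfalso
        obtain ⟨C', hC'⟩ := kink_one hb B hj (a := mhs b h s) hkt (by rw [D.opp]) D.ok_opp
          n1.1 n1.2
        have f1 := D.foc_sub hb hN.ok.1 hM (hC 1 (by norm_num)) (hC' 0 (by norm_num)) hkt
        have f2 := D.foc_sub hb hN.ok.1 hM (hC (-1) (by norm_num)) (hC' 0 (by norm_num)) hkt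
        rw [e1] at f1 f2
        have := Real.pi_pos
        linarith only [f1, f2, this]

end Pool.Agent.Work.MP_b30479_gtS.G2

end
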