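import Pool.Agent.Work.MP_b30479_gt.TBS.G2.ML3h

section

/-!
# END 3: the side on the left ramp
-/

set_option deprecated.oldSectionVars true

namespace Pool.Agent.Work.MP_b30479_gtS.G2

open Finset VOL Filter Topology

namespace L3

open Pool.Agent.Work.NumIs Pool.Agent.Work.NumIs.E

/-- the height on the left ramp; variables `a T h x`, `icl = 1 / cl` -/
def etL (icl : E) : E := mul (mul icl (var 1)) (var 0)

/-- side plus shift -/
def eS (icl c : E) : E :=
  add (sub (neg (mul pi (add (etL icl) (mul (q 2 1) (var 2))))) (lnA (var 0) (etL icl)))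
    (mul (mul icl (var 1)) (add (sub (lnB (var 0) (etL icl)) (lnB (var 3) (sub (var 2) (etL icl))))
      (sub c (mul pi (add (var 3) (var 0))))))

/-- the same for small `a`, with a constant for the logarithm -/
def eS0 (icl c : E) : E :=
  add (sub (q 25 10) (mul pi (add (etL icl) (mul (q 2 1) (var 2)))))
    (mul (mul icl (var 1)) (sub (sub c (mul pi (add (var 3) (var 0))))
      (lnB (var 3) (sub (var 2) (etL icl)))))

/-- the first order condition of the inner variable -/
def eK (icl : E) : E := add (lnA (var 3) (sub (var 2) (etL icl))) (mul pi (add (etL icl) (var 2)))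

theorem LL_small {a m : ℝ} (a0 : 0 < a) (a1 : a ≤ 1 / 100) (hm : |m| ≤ 7 / 10) {v : ℂ} (hr : v.re = a)
    (hi : v.im = m * a) : LL v ≤ -(25 / 10) := by
  have hm2 : m ^ 2 ≤ 49 / 100 := by
    rw [← sq_abs]
    have := pow_le_pow_left₀ (abs_nonneg m) hm 2
    linarith only [this]
  have hpi := Real.pi_pos
  have hia : |v.im| ≤ 115 / 1000 := by
    rw [hi, abs_mul, abs_of_pos a0]
    nlinarith only [a1, a0, hm]
  have h1 := arg_le hia
  rw [hr, hi] at h1
  have i2 : (m * a) ^ 2 ≤ 49 / 100 * a ^ 2 := by nlinarith only [hm2, sq_nonneg a]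
  have a2 : a ^ 2 ≤ (1 / 100) ^ 2 := pow_le_pow_left₀ a0.le a1 2
  have z1 : 2 * Real.cosh (2 * Real.pi * (m * a)) - 2 * Real.cos (2 * Real.pi * a) ≤ 589 / 100000 := by
    refine h1.trans ?_
    have : (m * a) ^ 2 * (1 + 1106 / 100 * (m * a) ^ 2) ≤ 49 / 100 * a ^ 2 * (1 + 1106 / 100 * (1 / 100) ^ 2) := by
      apply mul_le_mul i2 (by linarith only [a0, a1, i2, a2]) (by positivity) (by positivity)
    nlinarith only [a0, a1, a2, this]
  have hpos : 0 < 2 * Real.cosh (2 * Real.pi * (m * a)) - 2 * Real.cos (2 * Real.pi * a) := by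
    have h4 : Real.cos (2 * Real.pi * a) = 1 - 2 * Real.sin (Real.pi * a) ^ 2 := by
      rw [mul_assoc, Real.cos_two_mul, Real.cos_sq']
      ring
    have h5 := sin_pi_pos a0 (by linarith only [a0, a1])
    have h6 := Real.one_le_cosh (2 * Real.pi * (m * a))
    rw [h4]
    have := pow_pos h5 2
    linarith only [h6, this]
  rw [LL_eq', hr, hi]
  have h7 : Real.log (2 * Real.cosh (2 * Real.pi * (m * a)) - 2 * Real.cos (2 * Real.pi * a)) ≤
      Real.log (589 / 100000) := Real.log_le_log hpos z1
  have h8 : Real.log (589 / 100000) < -(51 / 10) := by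
    have h : chk [sub (q (-51) 10) (log (q 589 100000))] 1 [] = true := by decide +kernel
    have hp := pos_of_chk (chk_sound h (xs := []) List.Forall₂.nil)
    simp only [E.val] at hp
    push_cast at hp
    linarith only [hp]
  linarith only [z1, hpos, h7, h8]

/-- **The side on the left ramp from numerical rows.** -/
theorem left_bound {B : SR.Cl} {T h μ a k c e : ℝ} {v : ℂ} (hT : HT B T h) (L : LocM v h μ)
    (k0 : 0 < k) (kT : |k * T| ≤ 7 / 10) (hr : v.re = a) (hi : v.im = k * T * a) (a0 : 0 < a)
    (ka : k * a ≤ 1)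
    (row : 1 / 100 ≤ a → ∀ x, 1 / 20 ≤ x → x ≤ 1 / 2 →
      NumIs.lnA x (h - k * T * a) + Real.pi * (k * T * a + h) = 0 →
      e < -(Real.pi * (k * T * a + 2 * h)) - NumIs.lnA a (k * T * a) +
        k * T * (NumIs.lnB a (k * T * a) - NumIs.lnB x (h - k * T * a) + (c - Real.pi * (x + a))))
    (row0 : a ≤ 1 / 100 → ∀ x, 1 / 20 ≤ x → x ≤ 1 / 2 →
      e < 25 / 10 - Real.pi * (k * T * a + 2 * h) +
        k * T * (c - Real.pi * (x + a) - NumIs.lnB x (h - k * T * a))) :
    e < S3 1 (k * T) v (mpt h μ) + c * (k * T) := by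
  have hx := x_ge_class (τ := k * a) hT L (by positivity) ka (by rw [hi]; ring)
  have ha1 : a < 57 / 100 := by rw [← hr]; linarith only [hr, a0, hx, L, L.2.1, L.2.2.1]
  rw [S3_loc L]
  obtain ⟨l1, l2, l3, l4, l5⟩ := L
  rw [hr] at hx l3 l4
  have hst : v ∈ strip := ⟨by rw [hr]; exact a0, by rw [hr]; linarith only [l2, l3]⟩
  have yb : (mpt h μ - v).im = h - k * T * a := by rw [Complex.sub_im, mpt_mid l1.le l2.le, hi]
  have xb : (mpt h μ - v).re = μ - a := by rw [Complex.sub_re, mpt_re, hr]
  have hsu : mpt h μ - v ∈ strip := ⟨by rw [xb]; exact l3, by rw [xb]; linarith only [a0, l2, l3]⟩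
  rw [Num.LL_lnA hsu, xb, yb, hi] at l5
  rcases le_total (1 / 100) a with c1 | c1
  · have := row c1 (μ - a) hx.2 l4.le (by rw [l5]; ring)
    rw [Num.LL_lnA hst, Num.YY_lnB hst, Num.YY_lnB hsu, xb, yb, hr, hi]
    have e1 : μ - a + a = μ := by ring
    rw [e1] at this
    linarith only [this]
  · have h0 := row0 c1 (μ - a) hx.2 l4.le
    have hL := LL_small a0 c1 kT hr hi
    rw [Num.YY_lnB hsu, xb, yb, hi]
    have e1 : μ - a + a = μ := by ring
    rw [e1] at h0
    have hY : 0 ≤ -(k * T * YY v) := by
      rcases lt_trichotomy v.im 0 with d | d | d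
      · rw [YY_neg d]
        have h1 := Tr_le_half (s := -v.im) (x := v.re) (by linarith only [d]) (by rw [hr]; linarith only [a0, c1])
        have h2 : k * T < 0 := by
          rw [hi] at d
          by_contra hc
          push Not at hc
          nlinarith only [d, a0, hc]
        nlinarith only [hi, h1, a0, d]
      · rw [YY_zero d]
        simp
      · rw [YY_pos d]
        have h1 := Tr_le_half (s := v.im) (x := v.re) d (by rw [hr]; linarith only [a0, c1])
        have h2 : 0 < k * T := by
          rw [hi] at d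
          by_contra hc
          push Not at hc
          nlinarith only [d, a0, hc]
        nlinarith only [hi, h1, a0, d]
    linarith only [h0, hL, hY]

/-- evaluation of the expressions -/
theorem eS_val {icl c : E} {k γ a T h x : ℝ} (hk : icl.val [a, T, h, x] = k)
    (hc : c.val [a, T, h, x] = γ) : (eS icl c).val [a, T, h, x] =
      -(Real.pi * (k * T * a + 2 * h)) - NumIs.lnA a (k * T * a) +
        k * T * (NumIs.lnB a (k * T * a) - NumIs.lnB x (h - k * T * a) + (γ - Real.pi * (x + a))) := by
  simp only [eS, etL, E.val, lkR, hk, hc]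
  norm_num

theorem eS0_val {icl c : E} {k γ a T h x : ℝ} (hk : icl.val [a, T, h, x] = k)
    (hc : c.val [a, T, h, x] = γ) : (eS0 icl c).val [a, T, h, x] =
      25 / 10 - Real.pi * (k * T * a + 2 * h) +
        k * T * (γ - Real.pi * (x + a) - NumIs.lnB x (h - k * T * a)) := by
  simp only [eS0, etL, E.val, lkR, hk, hc]
  norm_num

theorem eK_val {icl : E} {k a T h x : ℝ} (hk : icl.val [a, T, h, x] = k) :
    (eK icl).val [a, T, h, x] =
      NumIs.lnA x (h - k * T * a) + Real.pi * (k * T * a + h) := by
  simp only [eK, etL, E.val, lkR, hk]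

end L3

end Pool.Agent.Work.MP_b30479_gtS.G2

end

section

/-!
# END 3: the side on the left ramp, numerical rows
-/

set_option deprecated.oldSectionVars true

namespace Pool.Agent.Work.MP_b30479_gtS.G2

open Finset VOL Filter Topology

namespace L3

open Pool.Agent.Work.NumIs Pool.Agent.Work.NumIs.E

/-- end 3 next to `threeE`, left ramp, `cl = 1 / 10` -/
theorem left_threeE {T h μ a : ℝ} {v : ℂ} (hT : HT .threeE T h) (L : LocM v h μ)
    (hr : v.re = a) (hi : v.im = 10 * T * a) (a0 : 0 < a) (a1 : a ≤ 1 / 10) :
    40 / 100 < S3 1 (10 * T) v (mpt h μ) + (Real.pi / 2) * (10 * T) := by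
  have hT' := hT
  obtain ⟨T0, T1, h0, h1⟩ := hT
  have kv : ∀ x : ℝ, ((q 10 1) : E).val [a, T, h, x] = 10 := fun x => by
    simp only [E.val]; norm_num
  have cv : ∀ x : ℝ, ((mul (q 1 2) pi) : E).val [a, T, h, x] = (Real.pi / 2) := fun x => by
    simp only [E.val, lkR]; push_cast; ring
  refine left_bound hT' L (by norm_num) (by rw [abs_le]; constructor <;> linarith only [a0, a1, T0, T1]) hr hi a0
    (by linarith only [a1]) ?_ ?_
  · intro a2 x x0 x1 hK
    have hc : chk [sub (eS (q 10 1) (mul (q 1 2) pi)) (q 40 100), eK (q 10 1), neg (eK (q 10 1))] 30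
      [V.of 10000 100 1000, V.of 10000 (-10) 10, V.of 10000 (-20) 20, V.of 10000 500 5000] = true := by
      decide +kernel
    obtain ⟨e, he, hp⟩ := chk4 hc (by norm_num) (x := a) (y := T) (z := h) (w := x)
      (by norm_num; linarith only [a2]) (by norm_num; linarith only [a1]) (by norm_num; linarith only [T0])
      (by norm_num; linarith only [T1]) (by norm_num; linarith only [h0]) (by norm_num; linarith only [h1])
      (by norm_num; linarith only [x0]) (by norm_num; linarith only [x1])
    simp only [List.mem_cons, List.not_mem_nil, or_false] at he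
    rcases he with rfl | rfl | rfl
    · rw [E.val, eS_val (kv x) (cv x)] at hp
      simp only [E.val] at hp
      push_cast at hp
      linarith only [hp]
    · rw [eK_val (kv x)] at hp
      linarith only [hK, hp]
    · rw [E.val, eK_val (kv x)] at hp
      linarith only [hK, hp]
  · intro a2 x x0 x1
    have hc : chk [sub (eS0 (q 10 1) (mul (q 1 2) pi)) (q 40 100)] 30
      [V.of 10000 0 100, V.of 10000 (-10) 10, V.of 10000 (-20) 20, V.of 10000 500 5000] = true := by
      decide +kernel
    have hp := pos_of_chk (chk4 hc (by norm_num) (x := a) (y := T) (z := h) (w := x)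
      (by norm_num; linarith only [a0]) (by norm_num; linarith only [a2]) (by norm_num; linarith only [T0])
      (by norm_num; linarith only [T1]) (by norm_num; linarith only [h0]) (by norm_num; linarith only [h1])
      (by norm_num; linarith only [x0]) (by norm_num; linarith only [x1]))
    rw [E.val, eS0_val (kv x) (cv x)] at hp
    simp only [E.val] at hp
    push_cast at hp
    linarith only [hp]

/-- end 3 next to `ring`, left ramp, `cl = 1 / 10` -/
theorem left_ring {T h μ a : ℝ} {v : ℂ} (hT : HT .ring T h) (L : LocM v h μ)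
    (hr : v.re = a) (hi : v.im = 10 * T * a) (a0 : 0 < a) (a1 : a ≤ 1 / 10) :
    10 / 100 < S3 1 (10 * T) v (mpt h μ) + (Real.pi / 2) * (10 * T) := by
  have hT' := hT
  obtain ⟨T0, T1, h1, h0⟩ := hT
  have kv : ∀ x : ℝ, ((q 10 1) : E).val [a, T, h, x] = 10 := fun x => by
    simp only [E.val]; norm_num
  have cv : ∀ x : ℝ, ((mul (q 1 2) pi) : E).val [a, T, h, x] = (Real.pi / 2) := fun x => by
    simp only [E.val, lkR]; push_cast; ring
  refine left_bound hT' L (by norm_num) (by rw [abs_le]; constructor <;> linarith only [a0, a1, T0, T1]) hr hi a0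
    (by linarith only [a1]) ?_ ?_
  · intro a2 x x0 x1 hK
    have hc : chk [sub (eS (q 10 1) (mul (q 1 2) pi)) (q 10 100), eK (q 10 1), neg (eK (q 10 1))] 30
      [V.of 10000 100 1000, V.of 10000 180 580, V.of 10000 90 590, V.of 10000 500 5000] = true := by
      decide +kernel
    obtain ⟨e, he, hp⟩ := chk4 hc (by norm_num) (x := a) (y := T) (z := h) (w := x)
      (by norm_num; linarith only [a2]) (by norm_num; linarith only [a1]) (by norm_num; linarith only [T0])
      (by norm_num; linarith only [T1]) (by norm_num; linarith only [T0, h0]) (by norm_num; linarith only [h1])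
      (by norm_num; linarith only [x0]) (by norm_num; linarith only [x1])
    simp only [List.mem_cons, List.not_mem_nil, or_false] at he
    rcases he with rfl | rfl | rfl
    · rw [E.val, eS_val (kv x) (cv x)] at hp
      simp only [E.val] at hp
      push_cast at hp
      linarith only [hp]
    · rw [eK_val (kv x)] at hp
      linarith only [hK, hp]
    · rw [E.val, eK_val (kv x)] at hp
      linarith only [hK, hp]
  · intro a2 x x0 x1
    have hc : chk [sub (eS0 (q 10 1) (mul (q 1 2) pi)) (q 10 100)] 30
      [V.of 10000 0 100, V.of 10000 180 580, V.of 10000 90 590, V.of 10000 500 5000] = true := by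
      decide +kernel
    have hp := pos_of_chk (chk4 hc (by norm_num) (x := a) (y := T) (z := h) (w := x)
      (by norm_num; linarith only [a0]) (by norm_num; linarith only [a2]) (by norm_num; linarith only [T0])
      (by norm_num; linarith only [T1]) (by norm_num; linarith only [T0, h0]) (by norm_num; linarith only [h1])
      (by norm_num; linarith only [x0]) (by norm_num; linarith only [x1]))
    rw [E.val, eS0_val (kv x) (cv x)] at hp
    simp only [E.val] at hp
    push_cast at hp
    linarith only [hp]

end L3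

end Pool.Agent.Work.MP_b30479_gtS.G2

end

section

/-!
# Part of `ML3j`
-/
set_option deprecated.oldSectionVars true

namespace Pool.Agent.Work.MP_b30479_gtS.G2

open Finset VOL Filter Topology

namespace L3

open Pool.Agent.Work.NumIs Pool.Agent.Work.NumIs.E

def cN : E := sub (var 2) (add (q 655 10000) (mul (q 38 100) (var 1)))

theorem cN_val {a T h x : ℝ} (hp : 0 < cN.val [a, T, h, x]) : 655 / 10000 + 38 / 100 * T < h := by
  simp only [cN, E.val, lkR] at hp
  push_cast at hp
  linarith only [hp]

theorem left_one_h1_q1 : chk [sub (eS (q 100 14) (sub pi (mul (q 9 2) (var 0)))) (q (-34) 100), eK (q 100 14), neg (eK (q 100 14)), cN] 26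
    (NumIs.setL 0 (NumIs.setL 0 (NumIs.setL 3 (NumIs.setL 3 [V.of 10000 100 1400, V.of 10000 (-780) (-100), V.of 10000 50 620, V.of 10000 500 5000])))) = true := by
  decide +kernel

theorem left_one_h1_q2 : chk [sub (eS (q 100 14) (sub pi (mul (q 9 2) (var 0)))) (q (-34) 100), eK (q 100 14), neg (eK (q 100 14)), cN] 26
    (NumIs.setR 0 (NumIs.setL 0 (NumIs.setL 3 (NumIs.setL 3 [V.of 10000 100 1400, V.of 10000 (-780) (-100), V.of 10000 50 620, V.of 10000 500 5000])))) = true := by
  decide +kernel

theorem left_one_h1_q3 : chk [sub (eS (q 100 14) (sub pi (mul (q 9 2) (var 0)))) (q (-34) 100), eK (q 100 14), neg (eK (q 100 14)), cN] 26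
    (NumIs.setL 0 (NumIs.setR 0 (NumIs.setL 3 (NumIs.setL 3 [V.of 10000 100 1400, V.of 10000 (-780) (-100), V.of 10000 50 620, V.of 10000 500 5000])))) = true := by
  decide +kernel

theorem left_one_h1_q4 : chk [sub (eS (q 100 14) (sub pi (mul (q 9 2) (var 0)))) (q (-34) 100), eK (q 100 14), neg (eK (q 100 14)), cN] 25
    (NumIs.setL 2 (NumIs.setR 0 (NumIs.setR 0 (NumIs.setL 3 (NumIs.setL 3 [V.of 10000 100 1400, V.of 10000 (-780) (-100), V.of 10000 50 620, V.of 10000 500 5000]))))) = true := by
  decide +kernel

theorem left_one_h1_q5 : chk [sub (eS (q 100 14) (sub pi (mul (q 9 2) (var 0)))) (q (-34) 100), eK (q 100 14), neg (eK (q 100 14)), cN] 24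
    (NumIs.setL 1 (NumIs.setR 2 (NumIs.setR 0 (NumIs.setR 0 (NumIs.setL 3 (NumIs.setL 3 [V.of 10000 100 1400, V.of 10000 (-780) (-100), V.of 10000 50 620, V.of 10000 500 5000])))))) = true := by
  decide +kernel

theorem left_one_h1_q6 : chk [sub (eS (q 100 14) (sub pi (mul (q 9 2) (var 0)))) (q (-34) 100), eK (q 100 14), neg (eK (q 100 14)), cN] 24
    (NumIs.setR 1 (NumIs.setR 2 (NumIs.setR 0 (NumIs.setR 0 (NumIs.setL 3 (NumIs.setL 3 [V.of 10000 100 1400, V.of 10000 (-780) (-100), V.of 10000 50 620, V.of 10000 500 5000])))))) = true := by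
  decide +kernel

theorem left_one_h1_q7 : chk [sub (eS (q 100 14) (sub pi (mul (q 9 2) (var 0)))) (q (-34) 100), eK (q 100 14), neg (eK (q 100 14)), cN] 28
    (NumIs.setR 3 (NumIs.setL 3 [V.of 10000 100 1400, V.of 10000 (-780) (-100), V.of 10000 50 620, V.of 10000 500 5000])) = true := by
  decide +kernel

theorem left_one_h1_q8 : chk [sub (eS (q 100 14) (sub pi (mul (q 9 2) (var 0)))) (q (-34) 100), eK (q 100 14), neg (eK (q 100 14)), cN] 29
    (NumIs.setR 3 [V.of 10000 100 1400, V.of 10000 (-780) (-100), V.of 10000 50 620, V.of 10000 500 5000]) = true := by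
  decide +kernel

theorem left_one_h1 : chk [sub (eS (q 100 14) (sub pi (mul (q 9 2) (var 0)))) (q (-34) 100), eK (q 100 14), neg (eK (q 100 14)), cN] 30
    [V.of 10000 100 1400, V.of 10000 (-780) (-100), V.of 10000 50 620, V.of 10000 500 5000] = true :=
  NumIs.chk_node (i := 3) (by decide +kernel)
    (NumIs.chk_node (i := 3) (by decide +kernel)
      (NumIs.chk_node (i := 0) (by decide +kernel)
        (NumIs.chk_node (i := 0) (by decide +kernel)
          left_one_h1_q1
          left_one_h1_q2)
        (NumIs.chk_node (i := 0) (by decide +kernel)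
          left_one_h1_q3
          (NumIs.chk_node (i := 2) (by decide +kernel)
            left_one_h1_q4
            (NumIs.chk_node (i := 1) (by decide +kernel)
              left_one_h1_q5
              left_one_h1_q6))))
      left_one_h1_q7)
    left_one_h1_q8

theorem left_one_h2 : chk [sub (eS0 (q 100 14) (sub pi (mul (q 9 2) (var 0)))) (q (-34) 100)] 30
    [V.of 10000 0 100, V.of 10000 (-780) (-100), V.of 10000 50 620, V.of 10000 500 5000] = true := by
  decide +kernel

end L3

end Pool.Agent.Work.MP_b30479_gtS.G2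

end

section

/-!
# END 3: the side on the left ramp, further numerical rows
-/

set_option deprecated.oldSectionVars true

namespace Pool.Agent.Work.MP_b30479_gtS.G2

open Finset VOL Filter Topology

namespace L3

open Pool.Agent.Work.NumIs Pool.Agent.Work.NumIs.E

theorem left_one0_h1_q1 : chk [sub (eS (q 100 14) (sub pi (mul (q 9 2) (var 0)))) (q (-9) 100), eK (q 100 14), neg (eK (q 100 14)), cN] 26
    (NumIs.setL 1 (NumIs.setL 0 (NumIs.setL 0 (NumIs.setL 3 [V.of 10000 100 700, V.of 10000 (-780) (-100), V.of 10000 50 620, V.of 10000 500 5000])))) = true := by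
  decide +kernel

theorem left_one0_h1_q2 : chk [sub (eS (q 100 14) (sub pi (mul (q 9 2) (var 0)))) (q (-9) 100), eK (q 100 14), neg (eK (q 100 14)), cN] 26
    (NumIs.setR 1 (NumIs.setL 0 (NumIs.setL 0 (NumIs.setL 3 [V.of 10000 100 700, V.of 10000 (-780) (-100), V.of 10000 50 620, V.of 10000 500 5000])))) = true := by
  decide +kernel

theorem left_one0_h1_q3 : chk [sub (eS (q 100 14) (sub pi (mul (q 9 2) (var 0)))) (q (-9) 100), eK (q 100 14), neg (eK (q 100 14)), cN] 26
    (NumIs.setL 1 (NumIs.setR 0 (NumIs.setL 0 (NumIs.setL 3 [V.of 10000 100 700, V.of 10000 (-780) (-100), V.of 10000 50 620, V.of 10000 500 5000])))) = true := by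
  decide +kernel

theorem left_one0_h1_q4 : chk [sub (eS (q 100 14) (sub pi (mul (q 9 2) (var 0)))) (q (-9) 100), eK (q 100 14), neg (eK (q 100 14)), cN] 26
    (NumIs.setR 1 (NumIs.setR 0 (NumIs.setL 0 (NumIs.setL 3 [V.of 10000 100 700, V.of 10000 (-780) (-100), V.of 10000 50 620, V.of 10000 500 5000])))) = true := by
  decide +kernel

theorem left_one0_h1_q5 : chk [sub (eS (q 100 14) (sub pi (mul (q 9 2) (var 0)))) (q (-9) 100), eK (q 100 14), neg (eK (q 100 14)), cN] 26
    (NumIs.setL 0 (NumIs.setL 1 (NumIs.setR 0 (NumIs.setL 3 [V.of 10000 100 700, V.of 10000 (-780) (-100), V.of 10000 50 620, V.of 10000 500 5000])))) = true := by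
  decide +kernel

theorem left_one0_h1_q6 : chk [sub (eS (q 100 14) (sub pi (mul (q 9 2) (var 0)))) (q (-9) 100), eK (q 100 14), neg (eK (q 100 14)), cN] 25
    (NumIs.setL 1 (NumIs.setR 0 (NumIs.setL 1 (NumIs.setR 0 (NumIs.setL 3 [V.of 10000 100 700, V.of 10000 (-780) (-100), V.of 10000 50 620, V.of 10000 500 5000]))))) = true := by
  decide +kernel

theorem left_one0_h1_q7 : chk [sub (eS (q 100 14) (sub pi (mul (q 9 2) (var 0)))) (q (-9) 100), eK (q 100 14), neg (eK (q 100 14)), cN] 25
    (NumIs.setR 1 (NumIs.setR 0 (NumIs.setL 1 (NumIs.setR 0 (NumIs.setL 3 [V.of 10000 100 700, V.of 10000 (-780) (-100), V.of 10000 50 620, V.of 10000 500 5000]))))) = true := by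
  decide +kernel

theorem left_one0_h1_q8 : chk [sub (eS (q 100 14) (sub pi (mul (q 9 2) (var 0)))) (q (-9) 100), eK (q 100 14), neg (eK (q 100 14)), cN] 27
    (NumIs.setR 1 (NumIs.setR 0 (NumIs.setL 3 [V.of 10000 100 700, V.of 10000 (-780) (-100), V.of 10000 50 620, V.of 10000 500 5000]))) = true := by
  decide +kernel

theorem left_one0_h1_q9 : chk [sub (eS (q 100 14) (sub pi (mul (q 9 2) (var 0)))) (q (-9) 100), eK (q 100 14), neg (eK (q 100 14)), cN] 29
    (NumIs.setR 3 [V.of 10000 100 700, V.of 10000 (-780) (-100), V.of 10000 50 620, V.of 10000 500 5000]) = true := by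
  decide +kernel

theorem left_one0_h1 : chk [sub (eS (q 100 14) (sub pi (mul (q 9 2) (var 0)))) (q (-9) 100), eK (q 100 14), neg (eK (q 100 14)), cN] 30
    [V.of 10000 100 700, V.of 10000 (-780) (-100), V.of 10000 50 620, V.of 10000 500 5000] = true :=
  NumIs.chk_node (i := 3) (by decide +kernel)
    (NumIs.chk_node (i := 0) (by decide +kernel)
      (NumIs.chk_node (i := 0) (by decide +kernel)
        (NumIs.chk_node (i := 1) (by decide +kernel)
          left_one0_h1_q1
          left_one0_h1_q2)
        (NumIs.chk_node (i := 1) (by decide +kernel)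
          left_one0_h1_q3
          left_one0_h1_q4))
      (NumIs.chk_node (i := 1) (by decide +kernel)
        (NumIs.chk_node (i := 0) (by decide +kernel)
          left_one0_h1_q5
          (NumIs.chk_node (i := 1) (by decide +kernel)
            left_one0_h1_q6
            left_one0_h1_q7))
        left_one0_h1_q8))
    left_one0_h1_q9

theorem left_one0_h2 : chk [sub (eS0 (q 100 14) (sub pi (mul (q 9 2) (var 0)))) (q (-9) 100)] 30
    [V.of 10000 0 100, V.of 10000 (-780) (-100), V.of 10000 50 620, V.of 10000 500 5000] = true := by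
  decide +kernel

/-- end 3 next to `one`, left ramp, `cl = 14 / 100`, first round -/
theorem left_one0 {T h μ a : ℝ} {v : ℂ} (hT : HT .one T h) (L : LocM v h μ)
    (hr : v.re = a) (hi : v.im = (100 / 14) * T * a) (a0 : 0 < a) (a1 : a ≤ 7 / 100) :
    -(9 / 100) < S3 1 ((100 / 14) * T) v (mpt h μ) + (Real.pi - 9 / 2 * a) * ((100 / 14) * T) := by
  have hT' := hT
  obtain ⟨T0, T1, h0, h1⟩ := hT
  have kv : ∀ x : ℝ, ((q 100 14) : E).val [a, T, h, x] = (100 / 14) := fun x => by
    simp only [E.val]; norm_num
  have cv : ∀ x : ℝ, ((sub pi (mul (q 9 2) (var 0))) : E).val [a, T, h, x] = (Real.pi - 9 / 2 * a) := fun x => by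
    simp only [E.val, lkR]; push_cast; ring
  refine left_bound hT' L (by norm_num) (by rw [abs_le]; constructor <;> linarith only [a0, a1, T0, T1]) hr hi a0
    (by linarith only [a0, a1]) ?_ ?_
  · intro a2 x x0 x1 hK
    have hc : chk [sub (eS (q 100 14) (sub pi (mul (q 9 2) (var 0)))) (q (-9) 100), eK (q 100 14), neg (eK (q 100 14)), cN] 30
      [V.of 10000 100 700, V.of 10000 (-780) (-100), V.of 10000 50 620, V.of 10000 500 5000] = true := left_one0_h1
    obtain ⟨e, he, hp⟩ := chk4 hc (by norm_num) (x := a) (y := T) (z := h) (w := x)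
      (by norm_num; linarith only [a2]) (by norm_num; linarith only [a1]) (by norm_num; linarith only [T0])
      (by norm_num; linarith only [T1]) (by norm_num; linarith only [h0]) (by norm_num; linarith only [a0, a1, T1, h1])
      (by norm_num; linarith only [x0]) (by norm_num; linarith only [x1])
    simp only [List.mem_cons, List.not_mem_nil, or_false] at he
    rcases he with rfl | rfl | rfl | rfl
    · rw [E.val, eS_val (kv x) (cv x)] at hp
      simp only [E.val] at hp
      push_cast at hp
      linarith only [hp]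
    · rw [eK_val (kv x)] at hp
      linarith only [hK, hp]
    · rw [E.val, eK_val (kv x)] at hp
      linarith only [hK, hp]
    · exact absurd (cN_val hp) (by linarith only [h1])
  · intro a2 x x0 x1
    have hc : chk [sub (eS0 (q 100 14) (sub pi (mul (q 9 2) (var 0)))) (q (-9) 100)] 30
      [V.of 10000 0 100, V.of 10000 (-780) (-100), V.of 10000 50 620, V.of 10000 500 5000] = true := left_one0_h2
    have hp := pos_of_chk (chk4 hc (by norm_num) (x := a) (y := T) (z := h) (w := x)
      (by norm_num; linarith only [a0]) (by norm_num; linarith only [a2]) (by norm_num; linarith only [T0])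
      (by norm_num; linarith only [T1]) (by norm_num; linarith only [h0]) (by norm_num; linarith only [a0, T1, h1, a2])
      (by norm_num; linarith only [x0]) (by norm_num; linarith only [x1]))
    rw [E.val, eS0_val (kv x) (cv x)] at hp
    simp only [E.val] at hp
    push_cast at hp
    linarith only [hp]

/-- end 3 next to `three`, left ramp, `cl = 12 / 100` -/
theorem left_three12 {T h μ a : ℝ} {v : ℂ} (hT : HT .three T h) (L : LocM v h μ)
    (hr : v.re = a) (hi : v.im = (100 / 12) * T * a) (a0 : 0 < a) (a1 : a ≤ 12 / 100) :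
    4 / 100 < S3 1 ((100 / 12) * T) v (mpt h μ) + (Real.pi / 2) * ((100 / 12) * T) := by
  have hT' := hT
  obtain ⟨T0, T1, h1, h0⟩ := hT
  have kv : ∀ x : ℝ, ((q 100 12) : E).val [a, T, h, x] = (100 / 12) := fun x => by
    simp only [E.val]; norm_num
  have cv : ∀ x : ℝ, ((mul (q 1 2) pi) : E).val [a, T, h, x] = (Real.pi / 2) := fun x => by
    simp only [E.val]; push_cast; ring
  refine left_bound hT' L (by norm_num) (by rw [abs_le]; constructor <;> linarith only [a0, a1, T0, T1]) hr hi a0
    (by linarith only [a1]) ?_ ?_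
  · intro a2 x x0 x1 hK
    have hc : chk [sub (eS (q 100 12) (mul (q 1 2) pi)) (q 4 100), eK (q 100 12), neg (eK (q 100 12))] 30
      [V.of 10000 100 1200, V.of 10000 50 280, V.of 10000 0 430, V.of 10000 500 5000] = true := by
      decide +kernel
    obtain ⟨e, he, hp⟩ := chk4 hc (by norm_num) (x := a) (y := T) (z := h) (w := x)
      (by norm_num; linarith only [a2]) (by norm_num; linarith only [a1]) (by norm_num; linarith only [T0])
      (by norm_num; linarith only [T1]) (by norm_num; linarith only [a0, a1, T0, h0]) (by norm_num; linarith only [h1])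
      (by norm_num; linarith only [x0]) (by norm_num; linarith only [x1])
    simp only [List.mem_cons, List.not_mem_nil, or_false] at he
    rcases he with rfl | rfl | rfl
    · rw [E.val, eS_val (kv x) (cv x)] at hp
      simp only [E.val] at hp
      push_cast at hp
      linarith only [hp]
    · rw [eK_val (kv x)] at hp
      linarith only [hK, hp]
    · rw [E.val, eK_val (kv x)] at hp
      linarith only [hK, hp]
  · intro a2 x x0 x1
    have hc : chk [sub (eS0 (q 100 12) (mul (q 1 2) pi)) (q 4 100)] 30
      [V.of 10000 0 100, V.of 10000 50 280, V.of 10000 0 430, V.of 10000 500 5000] = true := by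
      decide +kernel
    have hp := pos_of_chk (chk4 hc (by norm_num) (x := a) (y := T) (z := h) (w := x)
      (by norm_num; linarith only [a0]) (by norm_num; linarith only [a2]) (by norm_num; linarith only [T0])
      (by norm_num; linarith only [T1]) (by norm_num; linarith only [a0, T0, h0, a2]) (by norm_num; linarith only [h1])
      (by norm_num; linarith only [x0]) (by norm_num; linarith only [x1]))
    rw [E.val, eS0_val (kv x) (cv x)] at hp
    simp only [E.val] at hp
    push_cast at hp
    linarith only [hp]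

/-- end 3 next to `three`, left ramp, `cl = 13 / 100` -/
theorem left_three13 {T h μ a : ℝ} {v : ℂ} (hT : HT .three T h) (L : LocM v h μ)
    (hr : v.re = a) (hi : v.im = (100 / 13) * T * a) (a0 : 0 < a) (a1 : a ≤ 13 / 100) :
    -(4 / 100) < S3 1 ((100 / 13) * T) v (mpt h μ) + (Real.pi / 2) * ((100 / 13) * T) := by
  have hT' := hT
  obtain ⟨T0, T1, h1, h0⟩ := hT
  have kv : ∀ x : ℝ, ((q 100 13) : E).val [a, T, h, x] = (100 / 13) := fun x => by
    simp only [E.val]; norm_num
  have cv : ∀ x : ℝ, ((mul (q 1 2) pi) : E).val [a, T, h, x] = (Real.pi / 2) := fun x => by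
    simp only [E.val]; push_cast; ring
  refine left_bound hT' L (by norm_num) (by rw [abs_le]; constructor <;> linarith only [a0, a1, T0, T1]) hr hi a0
    (by linarith only [a1]) ?_ ?_
  · intro a2 x x0 x1 hK
    have hc : chk [sub (eS (q 100 13) (mul (q 1 2) pi)) (q (-4) 100), eK (q 100 13), neg (eK (q 100 13))] 30
      [V.of 10000 100 1300, V.of 10000 50 280, V.of 10000 0 430, V.of 10000 500 5000] = true := by
      decide +kernel
    obtain ⟨e, he, hp⟩ := chk4 hc (by norm_num) (x := a) (y := T) (z := h) (w := x)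
      (by norm_num; linarith only [a2]) (by norm_num; linarith only [a1]) (by norm_num; linarith only [T0])
      (by norm_num; linarith only [T1]) (by norm_num; linarith only [a0, a1, T0, h0]) (by norm_num; linarith only [h1])
      (by norm_num; linarith only [x0]) (by norm_num; linarith only [x1])
    simp only [List.mem_cons, List.not_mem_nil, or_false] at he
    rcases he with rfl | rfl | rfl
    · rw [E.val, eS_val (kv x) (cv x)] at hp
      simp only [E.val] at hp
      push_cast at hp
      linarith only [hp]
    · rw [eK_val (kv x)] at hp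
      linarith only [hK, hp]
    · rw [E.val, eK_val (kv x)] at hp
      linarith only [hK, hp]
  · intro a2 x x0 x1
    have hc : chk [sub (eS0 (q 100 13) (mul (q 1 2) pi)) (q (-4) 100)] 30
      [V.of 10000 0 100, V.of 10000 50 280, V.of 10000 0 430, V.of 10000 500 5000] = true := by
      decide +kernel
    have hp := pos_of_chk (chk4 hc (by norm_num) (x := a) (y := T) (z := h) (w := x)
      (by norm_num; linarith only [a0]) (by norm_num; linarith only [a2]) (by norm_num; linarith only [T0])
      (by norm_num; linarith only [T1]) (by norm_num; linarith only [a0, T0, h0, a2]) (by norm_num; linarith only [h1])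
      (by norm_num; linarith only [x0]) (by norm_num; linarith only [x1]))
    rw [E.val, eS0_val (kv x) (cv x)] at hp
    simp only [E.val] at hp
    push_cast at hp
    linarith only [hp]

end L3

end Pool.Agent.Work.MP_b30479_gtS.G2

end
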