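import Pool.Agent.Work.MP_b30479_gt.TBS.G2.MRBase
import Pool.Agent.Work.MP_b30479_gt.TBS.G2.Num.RF
import Pool.Agent.Work.MP_b30479_gt.TBS.G2.ML3e

/-!
# END 3: the side on the right ramp, all states of the inner variable
-/

namespace Pool.Agent.Work.MP_b30479_gtS.G2

open Finset VOL Filter Topology

namespace L3

open NumIs (lnA lnB)
open NumUs (uu UU_uu)

/-! ### the inner variable does not sit at the hinge -/

theorem UU_zero' : UU 0 = 0 := by
  have h := UU_neg 0
  simp at h
  linarith only [h]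

theorem ne_hinge {v : ℂ} {h μ a t : ℝ} (ha : v.re = a) (ht : v.im = t) (H : MaxM v h μ)
    (a0 : 1 / 10 ≤ a) (a1 : a ≤ 6 / 10) (hh : |h| ≤ 655 / 10000) :
    (mpt h μ - v).re ≠ 0 ∨ (mpt h μ - v).im ≠ 0 := by
  by_contra hcon
  push Not at hcon
  obtain ⟨h1, h2⟩ := hcon
  rw [Complex.sub_re, mpt_re, ha] at h1
  rw [Complex.sub_im, ht] at h2
  have hμ : μ = a := by linarith only [h1]
  subst hμ
  have hpi := Real.pi_pos
  have hp2 : Real.pi < 32 / 10 := by linarith only [Real.pi_lt_d2]
  have hz : mpt h μ - v = 0 := by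
    apply Complex.ext
    · rw [Complex.sub_re, mpt_re, ha]; simp
    · rw [Complex.sub_im, ht, h2]; simp
  have hh' := abs_le.1 hh
  -- the two heights
  obtain ⟨y', e', b1, b2, b3⟩ : ∃ y', (mpt h (μ + 1 / 20)).im = y' ∧ |t| ≤ 655 / 10000 ∧
      y' - t ≤ 655 / 40000 ∧ -(655 / 40000) ≤ y' - t := by
    rcases le_total μ (52 / 100) with c | c
    · have e1 := mpt_mid (h := h) (c := μ) (by linarith only [a0]) (by linarith only [c])
      have e2 := mpt_mid (h := h) (c := μ + 1 / 20) (by linarith only [a0]) (by linarith only [c])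
      refine ⟨h, e2, ?_, ?_, ?_⟩
      · rw [show t = h by linarith only [h2, e1]]; exact hh
      · linarith only [h2, e1]
      · linarith only [h2, e1]
    rcases le_total μ (57 / 100) with c' | c'
    · have e1 := mpt_mid (h := h) (c := μ) (by linarith only [c]) (by linarith only [c'])
      have e2 := mpt_right (h := h) (c := μ + 1 / 20) (by linarith only [c]) (by linarith only [a1])
      refine ⟨_, e2, ?_, ?_, ?_⟩
      · rw [show t = h by linarith only [h2, e1]]; exact hh
      · nlinarith only [h2, c', e1, hh', c]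
      · nlinarith only [h2, hh', e1, c', c]
    · have e1 := mpt_right (h := h) (c := μ) (by linarith only [c']) (by linarith only [a1])
      have e2 := mpt_right (h := h) (c := μ + 1 / 20) (by linarith only [c']) (by linarith only [a1])
      refine ⟨_, e2, ?_, ?_, ?_⟩
      · rw [show t = h * (5 * (77 / 100 - μ)) by linarith only [h2, e1], abs_mul,
          abs_of_nonneg (a := 5 * (77 / 100 - μ)) (by linarith only [a1])]
        have : |h| * (5 * (77 / 100 - μ)) ≤ |h| * 1 :=
          mul_le_mul_of_nonneg_left (by linarith only [c']) (abs_nonneg _)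
        linarith only [hh, this]
      · nlinarith only [h2, hh', e1]
      · nlinarith only [h2, hh', e1]
  have b1' := abs_le.1 b1
  have e1 := H.mx (μ + 1 / 20) (by linarith only [a0]) (by linarith only [a1])
  have e3 := Wm_ge (v := v) (m := mpt h (μ + 1 / 20)) (by rw [mpt_re, ha]; linarith only [])
  rw [Wm_val v (mpt h μ), hz, UU_zero'] at e1
  rw [mpt_re, ha, ht, e', show μ + 1 / 20 - μ = 1 / 20 by ring] at e3
  rw [mpt_re, ha, ht, show (mpt h μ).im = t by linarith only [h2]] at e1
  have l := lam_20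
  have k1 : (y' - t) * (2 * μ - 45 / 100) ≤ 655 / 40000 * (75 / 100) := by
    rcases le_total 0 (2 * μ - 45 / 100) with c | c
    · calc _ ≤ 655 / 40000 * (2 * μ - 45 / 100) := mul_le_mul_of_nonneg_right b2 c
        _ ≤ _ := by linarith only [a1]
    · calc (y' - t) * (2 * μ - 45 / 100) ≤ -(655 / 40000) * (2 * μ - 45 / 100) :=
            mul_le_mul_of_nonpos_right b3 c
        _ ≤ _ := by linarith only [a0]
  have k2 : Real.pi * (t / 10 + (y' - t) * (2 * μ - 45 / 100)) ≤ 32 / 10 * (2 / 100) := by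
    calc _ ≤ Real.pi * (2 / 100) := mul_le_mul_of_nonneg_left (by linarith only [b1', k1]) hpi.le
      _ ≤ _ := mul_le_mul_of_nonneg_right hp2.le (by norm_num)
  nlinarith only [e1, e3, l, k2]

/-! ### level states to the left of the hinge -/

theorem Lr_sub_lt {ρ p q : ℝ} (hρ : 0 ≤ ρ) (h0 : 0 ≤ p) (hpq : p < q) (h1 : q ≤ 1 / 2) :
    DT.Lr ρ q - DT.Lr ρ p < (q - p) * DT.el ρ q := by
  have hc : Continuous (DT.Lr ρ) := by
    unfold DT.Lr
    exact intervalIntegral.continuous_primitive (fun a b => DT.el_intble ρ a b) 0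
  have hd : ∀ x ∈ Set.Ioo p q, HasDerivAt (DT.Lr ρ) (DT.el ρ x) x := by
    intro x hx
    rcases hρ.lt_or_eq with h | h
    · exact DT.hasDerivAt_Lr h
    · rw [← h]
      exact DT.hasDerivAt_Lr_zero (sin_pi_pos (h0.trans_lt hx.1) (by linarith only [h0, hpq, h1, hx, hx.2])).ne'
  obtain ⟨c, hc1, hc2⟩ := exists_hasDerivAt_eq_slope (DT.Lr ρ) (DT.el ρ) hpq hc.continuousOn hd
  have h2 : DT.el ρ c < DT.el ρ q := by
    have := LL_lt (u := (c : ℂ) + (ρ : ℂ) * Complex.I) (u' := (q : ℂ) + (ρ : ℂ) * Complex.I)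
      (by simp) (by simpa using h0.trans_lt hc1.1) (by simpa using hc1.2)
      (by simp; linarith only [h1, hc1, hc1.2])
    unfold LL at this
    simpa [abs_of_nonneg hρ] using this
  rw [hc2, div_lt_iff₀ (by linarith only [hpq])] at h2
  linarith only [h2]

/-- no state on the level to the left of the hinge -/
theorem level_false {v : ℂ} {h μ a t : ℝ} (ha : v.re = a) (ht : v.im = t) (H : MaxM v h μ)
    (h0 : 1 / 10 < μ) (h1 : μ < 57 / 100) (hw : μ < a) (a1 : a ≤ 6 / 10) : False := by
  have hx : (mpt h μ - v).re = μ - a := by rw [Complex.sub_re, mpt_re, ha]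
  have hsin : Complex.sin (Real.pi * (mpt h μ - v)) ≠ 0 := by
    apply sin_ne_of_re
    · rw [hx]; exact abs_pos.2 (by linarith only [hw])
    · rw [hx, abs_lt]; constructor <;> linarith only [h0, hw, a1]
  have hl := H.level_left h0 h1.le hsin
  rw [ht] at hl
  rcases le_or_gt (2 * a - μ) (57 / 100) with c | c
  · exact reflect_false ha ht H h0.le hw (by linarith only [h0, hw, c]) c hl
  -- comparison with the end of the level
  have e1 := H.mx (57 / 100) (by norm_num) (by norm_num)
  have i1 : (mpt h (57 / 100)).im = h := mpt_mid (by norm_num) le_rfl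
  have i2 : (mpt h μ).im = h := mpt_mid h0.le h1.le
  rw [Wm_val, Wm_val, mpt_re, mpt_re, i1, i2, ha, ht] at e1
  unfold UU at e1
  rw [Complex.sub_im, Complex.sub_im, Complex.sub_re, Complex.sub_re, mpt_re, mpt_re, i1, i2, ha,
    ht, show μ - a = -(a - μ) by ring, DT.Lr_neg] at e1
  rw [LL_left ha ht i2] at hl
  set ρ := |h - t| with hρ
  have hρ0 : 0 ≤ ρ := abs_nonneg _
  rcases le_or_gt a (57 / 100) with d | d
  · have k1 := Lr_lt (ρ := ρ) (w := a - μ) hρ0 (by linarith only [hw]) (by linarith only [h0, hw, d])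
    have k2 : DT.Lr ρ (57 / 100 - a) ≤ (57 / 100 - a) * DT.el ρ (a - μ) := by
      rcases d.eq_or_lt with d | d
      · rw [d, sub_self, zero_mul, DT.Lr_zero_right]
      · have k3 := Lr_lt (ρ := ρ) (w := 57 / 100 - a) hρ0 (by linarith only [d]) (by linarith only [h0, hw, d])
        have k4 : DT.el ρ (57 / 100 - a) ≤ DT.el ρ (a - μ) := by
          have := LL_lt (u := ((57 / 100 - a : ℝ) : ℂ) + (ρ : ℂ) * Complex.I)
            (u' := ((a - μ : ℝ) : ℂ) + (ρ : ℂ) * Complex.I) (by simp)
            (by simp only [Complex.add_re, Complex.ofReal_re, Complex.mul_re, Complex.I_re,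
              Complex.ofReal_im, Complex.I_im]; linarith only [d])
            (by simp only [Complex.add_re, Complex.ofReal_re, Complex.mul_re, Complex.I_re,
              Complex.ofReal_im, Complex.I_im]; linarith only [c])
            (by simp only [Complex.add_re, Complex.ofReal_re, Complex.mul_re, Complex.I_re,
              Complex.ofReal_im, Complex.I_im]; linarith only [h0, hw, d])
          unfold LL at this
          simp only [Complex.add_im, Complex.add_re, Complex.ofReal_im, Complex.ofReal_re,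
            Complex.mul_im, Complex.mul_re, Complex.I_re, Complex.I_im, mul_one, mul_zero,
            add_zero, zero_add, sub_zero, abs_of_nonneg hρ0] at this
          exact this.le
        have := mul_le_mul_of_nonneg_left k4 (show 0 ≤ 57 / 100 - a by linarith only [d])
        linarith only [k3, this]
    have k5 := mul_le_mul_of_nonneg_left hl (show 0 ≤ 57 / 100 - μ by linarith only [hw, d])
    nlinarith only [e1, k1, k2, k5]
  · have k1 := Lr_sub_lt (ρ := ρ) (p := a - 57 / 100) (q := a - μ) hρ0 (by linarith only [d])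
      (by linarith only [h1]) (by linarith only [h0, a1])
    rw [show 57 / 100 - a = -(a - 57 / 100) by ring, DT.Lr_neg] at e1
    have k5 := mul_le_mul_of_nonneg_left hl (show 0 ≤ 57 / 100 - μ by linarith only [h1])
    nlinarith only [e1, k1, k5]

/-! ### closed forms -/

noncomputable def gA (a t h μ σ : ℝ) : ℝ := uu (a - μ) (t - 10 * h * μ) -
  Real.pi * (t * μ + 10 * h * μ * (a + μ - 1 / 2) - σ * (10 * h * μ - t))

noncomputable def DA (a t h μ σ s : ℝ) : ℝ := lnA (a - μ) (t - 10 * h * μ) - lnA a t -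
  Real.pi * (10 * h * μ) + s * (lnB a t - lnB (a - μ) (t - 10 * h * μ) - Real.pi * (μ + σ))

noncomputable def V77 (a t : ℝ) : ℝ := -(Real.pi * (77 / 100) * t + uu (77 / 100 - a) (-t))

noncomputable def V57 (a t h : ℝ) : ℝ :=
  -(Real.pi * (57 / 100 * t + h * (a + 7 / 100)) + uu (57 / 100 - a) (h - t))

noncomputable def DB (a t h μ s β : ℝ) : ℝ := -(Real.pi * (t + 2 * h)) - lnA a t +
  s * (lnB a t - Real.pi * μ) + β

noncomputable def bb (s y : ℝ) : ℝ :=
  open Classical in if 0 ≤ s ∧ 0 ≤ y then 0 else |s| * (Real.pi / 2)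

noncomputable def DC (a t h μ s : ℝ) : ℝ := lnA (μ - a) (5 * h * (77 / 100 - μ) - t) - lnA a t -
  Real.pi * (5 * h * (77 / 100 - μ)) +
  s * (lnB a t - lnB (μ - a) (5 * h * (77 / 100 - μ) - t) - Real.pi * μ)

noncomputable def FC (a t h μ : ℝ) : ℝ := -(Real.pi * (t + 5 * h * (77 / 100 - μ))) +
  5 * h * (Real.pi * (a + μ - 1 / 2) - lnB (μ - a) (5 * h * (77 / 100 - μ) - t)) -
  lnA (μ - a) (5 * h * (77 / 100 - μ) - t)

noncomputable def DR (a t h μ s : ℝ) : ℝ := -(35 / 100) - lnA a t -
  Real.pi * (5 * h * (77 / 100 - μ)) + s * (lnB a t - Real.pi * μ) + |s| * Real.pi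

theorem YY_nonpos {u : ℂ} (hy : 0 ≤ u.im) (hx : u.re ≤ 1 / 2) : YY u ≤ 0 := by
  rcases hy.eq_or_lt with hy | hy
  · rw [YY_zero hy.symm]
  · rw [YY_pos hy]
    linarith only [hy, hx, Tr_le_half hy hx]

theorem YY_nonneg {u : ℂ} (hy : u.im ≤ 0) (hx : u.re ≤ 1 / 2) : 0 ≤ YY u := by
  have h := YY_nonpos (u := starRingEnd ℂ u) (by simpa using hy) (by simpa using hx)
  rw [YY_conj] at h
  linarith only [h]

/-- `|YY u| ≤ π` near the imaginary axis -/
theorem YY_abs_pi {u : ℂ} (h0 : |u.re| ≤ 1 / 2) : |YY u| ≤ Real.pi := by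
  have hpi := Real.pi_pos
  have h1 := abs_le.1 h0
  rcases le_or_gt 0 u.re with c | c
  · have := MR.YY_abs_le (u := u) c (by linarith only [h1])
    linarith only [hpi, this]
  · have h2 : 0 ≤ (-u).re := by simp; exact c.le
    have h3 : (-u).re ≤ 1 / 2 := by simp; linarith only [h1]
    have h4 := abs_le.1 (MR.YY_abs_le h2 (by linarith only [h1, c, h3]))
    rcases lt_trichotomy (-u).im 0 with d | d | d
    · have e := YY_neg_of_neg d
      rw [neg_neg] at e
      have := YY_nonneg d.le h3
      rw [e, abs_le]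
      constructor <;> linarith only [this, hpi, h4]
    · rw [YY_zero (by simpa using d), abs_zero]
      exact hpi.le
    · have e := YY_neg_of_pos d
      rw [neg_neg] at e
      have := YY_nonpos d.le h3
      rw [e, abs_le]
      constructor <;> linarith only [hpi, h4, this]

theorem Wm_left {v : ℂ} {h μ a t σ : ℝ} (ha : v.re = a) (ht : v.im = t) (m0 : 0 ≤ μ)
    (m1 : μ ≤ 1 / 10) (hσ : σ = 1 ∨ σ = -1) (hy : 0 ≤ σ * (10 * h * μ - t)) :
    Wm v (mpt h μ) = gA a t h μ σ := by
  have i := mpt_left (h := h) m0 m1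
  have e : UU (mpt h μ - v) = -uu (a - μ) (t - 10 * h * μ) - Real.pi * (σ * (10 * h * μ - t)) := by
    have h1 := UU_neg (v - mpt h μ)
    have h2 : UU (v - mpt h μ) = uu (a - μ) (t - 10 * h * μ) := by
      rw [UU_uu, Complex.sub_re, Complex.sub_im, mpt_re, i, ha, ht]
    have h3 : |(v - mpt h μ).im| = σ * (10 * h * μ - t) := by
      rw [Complex.sub_im, i, ht, abs_sub_comm]
      rcases hσ with rfl | rfl
      · rw [abs_of_nonneg (by linarith only [hy])]; ring
      · rw [abs_of_nonpos (by linarith only [hy])]; ring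
    rw [neg_sub, h2, h3] at h1
    exact h1
  rw [Wm_val, e, mpt_re, i, ha, ht]
  unfold gA
  ring

theorem V77_le {v : ℂ} {h μ a t : ℝ} (ha : v.re = a) (ht : v.im = t) (H : MaxM v h μ) :
    V77 a t ≤ Wm v (mpt h μ) := by
  have h1 := H.mx (77 / 100) (by norm_num) le_rfl
  have i := mpt_right (h := h) (c := 77 / 100) (by norm_num) le_rfl
  rw [Wm_val v (mpt h (77 / 100)), UU_uu, Complex.sub_re, Complex.sub_im, mpt_re, i, ha, ht,
    sub_self, mul_zero, mul_zero, zero_mul, zero_sub, sub_zero] at h1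
  unfold V77
  linarith only [h1]

theorem V57_le {v : ℂ} {h μ a t : ℝ} (ha : v.re = a) (ht : v.im = t) (H : MaxM v h μ) :
    V57 a t h ≤ Wm v (mpt h μ) := by
  have h1 := H.mx (57 / 100) (by norm_num) (by norm_num)
  have i := mpt_mid (h := h) (c := 57 / 100) (by norm_num) le_rfl
  rw [Wm_val v (mpt h (57 / 100)), UU_uu, Complex.sub_re, Complex.sub_im, mpt_re, i, ha, ht] at h1
  unfold V57
  linarith only [h1]

/-- the side if the inner variable is on its left ramp -/
theorem S3_left {v : ℂ} {h μ a t s : ℝ} (ha : v.re = a) (ht : v.im = t) (m0 : 0 ≤ μ)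
    (m1 : μ ≤ 1 / 10) (hw : μ < a) (a1 : a < 1) :
    (0 < 10 * h * μ - t → S3 1 s v (mpt h μ) = DA a t h μ 1 s) ∧
    (10 * h * μ - t < 0 → S3 1 s v (mpt h μ) = DA a t h μ (-1) s) ∧
    (10 * h * μ - t = 0 → S3 1 s v (mpt h μ) = (DA a t h μ 1 s + DA a t h μ (-1) s) / 2) := by
  have i := mpt_left (h := h) m0 m1
  have hv : v ∈ strip := ⟨by rw [ha]; linarith only [m0, hw], by rw [ha]; exact a1⟩
  have xb : (v - mpt h μ).re = a - μ := by rw [Complex.sub_re, mpt_re, ha]
  have yb : (v - mpt h μ).im = t - 10 * h * μ := by rw [Complex.sub_im, i, ht]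
  have hu : v - mpt h μ ∈ strip := ⟨by rw [xb]; linarith only [hw], by rw [xb]; linarith only [m0, a1]⟩
  have eL : LL (mpt h μ - v) = lnA (a - μ) (t - 10 * h * μ) := by
    rw [← neg_sub, LL_neg, Num.LL_lnA hu, xb, yb]
  have eV : LL v = lnA a t := by rw [Num.LL_lnA hv, ha, ht]
  have eB : YY v = -lnB a t := by rw [Num.YY_lnB hv, ha, ht]
  have eU := Num.YY_lnB hu
  rw [xb, yb] at eU
  have eN : mpt h μ - v = -(v - mpt h μ) := (neg_sub _ _).symm
  unfold S3 DA
  rw [eL, eV, eB, mpt_re, i]
  refine ⟨fun hc => ?_, fun hc => ?_, fun hc => ?_⟩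
  · rw [eN, YY_neg_of_neg (by rw [yb]; linarith only [hc]), eU]
    ring
  · rw [eN, YY_neg_of_pos (by rw [yb]; linarith only [hc]), eU]
    ring
  · have h0 : (mpt h μ - v).im = 0 := by rw [Complex.sub_im, i, ht]; exact hc
    have h1 : lnB (a - μ) (t - 10 * h * μ) = 0 := by
      rw [show t - 10 * h * μ = 0 by linarith only [hc]]
      unfold lnB
      simp
    rw [YY_zero h0, h1]
    ring

/-- **The side on the right ramp from rows.** -/
theorem right3 {v : ℂ} {h μ a t s γ e : ℝ} (ha : v.re = a) (ht : v.im = t) (H : MaxM v h μ)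
    (a0 : 26 / 100 ≤ a) (a1 : a ≤ 6 / 10) (hh : |h| ≤ 655 / 10000)
    (htr : 52 / 100 ≤ a → |t| ≤ 25 / 1000)
    (rA : μ ≤ 1 / 10 → 0 ≤ μ → ∀ σ, (σ = 1 ∨ σ = -1) → 0 ≤ σ * (10 * h * μ - t) →
      gA a t h μ σ < V57 a t h ∨ gA a t h μ σ < V77 a t ∨ DA a t h μ σ s + γ * s ≤ e)
    (rB : a ≤ μ → μ ≤ 57 / 100 → DB a t h μ s (bb s (h - t)) + γ * s ≤ e)
    (rC : 57 / 100 ≤ μ → μ ≤ 77 / 100 → 1 / 20 ≤ μ - a → 0 ≤ FC a t h μ → DC a t h μ s + γ * s ≤ e)
    (rR : 52 / 100 ≤ a → 57 / 100 ≤ μ → μ ≤ 65 / 100 → DR a t h μ s + γ * s ≤ e) :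
    S3 1 s v (mpt h μ) + γ * s ≤ e := by
  have hpi := Real.pi_pos
  have hv : v ∈ strip := ⟨by rw [ha]; linarith only [a0], by rw [ha]; linarith only [a1]⟩
  have eV : LL v = lnA a t := by rw [Num.LL_lnA hv, ha, ht]
  have eB : YY v = -lnB a t := by rw [Num.YY_lnB hv, ha, ht]
  have xb : (mpt h μ - v).re = μ - a := by rw [Complex.sub_re, mpt_re, ha]
  have hne := ne_hinge ha ht H (by linarith only [a0]) a1 hh
  have m0 := H.m0
  have m1 := H.m1
  rcases le_or_gt μ (1 / 10) with c | c
  · -- left ramp of the inner variable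
    have val : ∀ σ, (σ = 1 ∨ σ = -1) → 0 ≤ σ * (10 * h * μ - t) → DA a t h μ σ s + γ * s ≤ e := by
      intro σ hσ hy
      have w := Wm_left ha ht m0 c hσ hy
      rcases rA c m0 σ hσ hy with r | r | r
      · exact absurd (V57_le ha ht H) (by rw [w]; linarith only [r])
      · exact absurd (V77_le ha ht H) (by rw [w]; linarith only [r])
      · exact r
    obtain ⟨s1, s2, s3⟩ := S3_left (h := h) (s := s) ha ht m0 c (by linarith only [a0, c]) (by linarith only [a1])
    rcases lt_trichotomy (10 * h * μ - t) 0 with d | d | d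
    · rw [s2 d]
      exact val (-1) (Or.inr rfl) (by linarith only [d])
    · rw [s3 d]
      have v1 := val 1 (Or.inl rfl) (by linarith only [d])
      have v2 := val (-1) (Or.inr rfl) (by linarith only [d])
      linarith only [v1, v2]
    · rw [s1 d]
      exact val 1 (Or.inl rfl) (by linarith only [d])
  -- the crude row
  have crude : μ - a ≤ 1 / 20 → a - μ ≤ 1 / 20 → 57 / 100 ≤ μ → S3 1 s v (mpt h μ) + γ * s ≤ e := by
    intro d1 d2 d3
    have i := mpt_right (h := h) d3 m1
    have ia : |(mpt h μ - v).im| ≤ 92 / 1000 := by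
      have t1 := abs_le.1 (htr (by linarith only [d1, d3]))
      have h1 := abs_le.1 hh
      rw [Complex.sub_im, i, ht, abs_le]
      constructor <;> nlinarith only [d3, t1, m1, h1]
    have hx : |(mpt h μ - v).re| ≤ 1 / 20 := by rw [xb, abs_le]; constructor <;> linarith only [a1, d3, d1]
    have l := LL_le_half (u := mpt h μ - v) (by linarith only [ia]) hne (by linarith only [hx])
    have l1 : (mpt h μ - v).re ^ 2 ≤ (1 / 20) ^ 2 := by
      rw [← sq_abs]; exact pow_le_pow_left₀ (abs_nonneg _) hx 2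
    have l2 : (mpt h μ - v).im ^ 2 ≤ (92 / 1000) ^ 2 := by
      rw [← sq_abs]; exact pow_le_pow_left₀ (abs_nonneg _) ia 2
    have l3 : LL (mpt h μ - v) ≤ -(35 / 100) := by
      nlinarith only [l, l1, l2, sq_nonneg ((mpt h μ - v).im)]
    have hY := YY_abs_pi (u := mpt h μ - v) (by linarith only [hx])
    have hS : s * YY (mpt h μ - v) ≤ |s| * Real.pi := by
      calc s * YY (mpt h μ - v) ≤ |s * YY (mpt h μ - v)| := le_abs_self _
        _ = |s| * |YY (mpt h μ - v)| := abs_mul _ _
        _ ≤ _ := mul_le_mul_of_nonneg_left hY (abs_nonneg _)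
    have r := rR (by linarith only [d1, d3]) d3 (by linarith only [a1, d1])
    unfold DR at r
    unfold S3
    rw [eV, eB, mpt_re, i]
    linarith only [l3, hS, r]
  rcases le_or_gt μ (57 / 100) with c1 | c1
  · rcases lt_or_ge μ a with w | w
    · rcases c1.eq_or_lt with c1 | c1
      · exact crude (by linarith only [a1, w, c1]) (by linarith only [a1, w, c1]) c1.ge
      · exact (level_false ha ht H c c1 w a1).elim
    · -- level
      have i := mpt_mid (h := h) c.le c1
      have yb : (mpt h μ - v).im = h - t := by rw [Complex.sub_im, i, ht]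
      have hsin : Complex.sin (Real.pi * (mpt h μ - v)) ≠ 0 := by
        rcases hne with h1 | h1
        · apply sin_ne_of_re (abs_pos.2 h1)
          rw [xb, abs_lt]
          constructor <;> linarith only [w, a0, m1]
        · exact sin_ne_of_im h1
      have l := H.level_left c c1 hsin
      rw [ht] at l
      have hS : s * YY (mpt h μ - v) ≤ bb s (h - t) := by
        unfold bb
        split_ifs with hb
        · have := YY_nonpos (u := mpt h μ - v) (by rw [yb]; exact hb.2) (by rw [xb]; linarith only [a0, m1, c1])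
          exact mul_nonpos_of_nonneg_of_nonpos hb.1 this
        · have hY := MR.YY_abs_le (u := mpt h μ - v) (by rw [xb]; linarith only [w]) (by rw [xb]; linarith only [a0, m1])
          calc s * YY (mpt h μ - v) ≤ |s * YY (mpt h μ - v)| := le_abs_self _
            _ = |s| * |YY (mpt h μ - v)| := abs_mul _ _
            _ ≤ _ := mul_le_mul_of_nonneg_left hY (abs_nonneg _)
      have r := rB w c1
      unfold DB at r
      unfold S3
      rw [eV, eB, mpt_re, i]
      linarith only [l, hS, r]
  · rcases le_or_gt (μ - a) (1 / 20) with w | w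
    · exact crude w (by linarith only [a1, c1]) c1.le
    · have i := mpt_right (h := h) c1.le m1
      have yb : (mpt h μ - v).im = 5 * h * (77 / 100 - μ) - t := by rw [Complex.sub_im, i, ht]
      have hu : mpt h μ - v ∈ strip := ⟨by rw [xb]; linarith only [w], by rw [xb]; linarith only [a0, m1]⟩
      have f := H.ramp_right c1 (Or.inr hu)
      have eL := Num.LL_lnA hu
      have eY := Num.YY_lnB hu
      rw [xb, yb] at eL eY
      rw [eL, eY, ha, ht] at f
      have r := rC c1.le m1 w.le (by unfold FC; linarith only [f])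
      unfold DC at r
      unfold S3
      rw [eL, eY, eV, eB, mpt_re, i]
      linarith only [r]

end L3

end Pool.Agent.Work.MP_b30479_gtS.G2
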