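import Pool.Agent.Work.MP_b30479_gt.TBS.NumI.LnAff
import Pool.Agent.Work.MP_b30479_gt.TBS.G2.MLevB

section

/-!
# Certificates with a given subdivision and alternatives

`T` is a binary tree; a leaf names the clause (a list of expressions, all positive) which holds on
its box.
-/

namespace Pool.Agent.Work.NumIs

/-- subdivision: `a`, ..., `e` clauses `0`, ..., `4`; `x`, `y`, `z`, `w` bisect variable `0`, ..., `3` -/
inductive Tr
  | a | b | c | d | e
  | x (l r : Tr) | y (l r : Tr) | z (l r : Tr) | w (l r : Tr)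

/-- all expressions are positive -/
def allP (env : List A) : List E → Bool
  | [] => true
  | e :: es => cond (posO (e.ev env)) (allP env es) false

/-- the clause number `n` holds -/
def allN (env : List A) : List (List E) → ℕ → Bool
  | [], _ => false
  | c :: _, 0 => allP env c
  | _ :: t, n + 1 => allN env t n

/-- the checker -/
def runT (cs : List (List E)) : Tr → List V → Bool
  | .a, vs => allN (mkEnv 0 vs) cs 0
  | .b, vs => allN (mkEnv 0 vs) cs 1
  | .c, vs => allN (mkEnv 0 vs) cs 2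
  | .d, vs => allN (mkEnv 0 vs) cs 3
  | .e, vs => allN (mkEnv 0 vs) cs 4
  | .x l r, vs => cond (runT cs l (setL 0 vs)) (runT cs r (setR 0 vs)) false
  | .y l r, vs => cond (runT cs l (setL 1 vs)) (runT cs r (setR 1 vs)) false
  | .z l r, vs => cond (runT cs l (setL 2 vs)) (runT cs r (setR 2 vs)) false
  | .w l r, vs => cond (runT cs l (setL 3 vs)) (runT cs r (setR 3 vs)) false

theorem allP_spec {env : List A} {ε : ℕ → ℝ} {xs : List ℝ} (hε : ∀ i, |ε i| ≤ 1)
    (henv : List.Forall₂ (fun a x => a.Encl ε x) env xs) :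
    ∀ {es : List E}, allP env es = true → ∀ e ∈ es, 0 < e.val xs
  | [], _ => by simp
  | e :: es, h => by
    unfold allP at h
    rcases h1 : posO (e.ev env) with _ | _
    · rw [h1, cond_false] at h
      exact absurd h (by simp)
    · rw [h1, cond_true] at h
      intro e' he'
      rcases List.mem_cons.1 he' with rfl | he'
      · rcases h2 : e'.ev env with _ | c
        · rw [h2] at h1; exact absurd h1 (by simp [posO])
        · rw [h2] at h1
          exact posA_spec hε (E.ev_sound hε e' henv h2) h1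
      · exact allP_spec hε henv h e' he'

theorem allN_spec {env : List A} {ε : ℕ → ℝ} {xs : List ℝ} (hε : ∀ i, |ε i| ≤ 1)
    (henv : List.Forall₂ (fun a x => a.Encl ε x) env xs) :
    ∀ {cs : List (List E)} {n : ℕ}, allN env cs n = true → ∃ c ∈ cs, ∀ e ∈ c, 0 < e.val xs
  | [], _, h => absurd h (by simp [allN])
  | c :: _, 0, h => ⟨c, List.mem_cons_self, allP_spec hε henv h⟩
  | _ :: t, n + 1, h => by
    obtain ⟨c, hc, h'⟩ := allN_spec hε henv (cs := t) (n := n) h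
    exact ⟨c, List.mem_cons_of_mem _ hc, h'⟩

theorem runT_sound {cs : List (List E)} : ∀ {T : Tr} {vs : List V}, runT cs T vs = true →
    ∀ {xs : List ℝ}, List.Forall₂ V.Mem vs xs → ∃ c ∈ cs, ∀ e ∈ c, 0 < e.val xs := by
  have leaf : ∀ (n : ℕ) {vs : List V}, allN (mkEnv 0 vs) cs n = true →
      ∀ {xs : List ℝ}, List.Forall₂ V.Mem vs xs → ∃ c ∈ cs, ∀ e ∈ c, 0 < e.val xs :=
    fun n vs h xs hx => allN_spec (eps_le hx) (mkEnv_spec hx (fun n => rfl)) h
  have node : ∀ (i : ℕ) {l r : Tr},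
      (∀ {vs : List V}, runT cs l vs = true → ∀ {xs : List ℝ}, List.Forall₂ V.Mem vs xs →
        ∃ c ∈ cs, ∀ e ∈ c, 0 < e.val xs) →
      (∀ {vs : List V}, runT cs r vs = true → ∀ {xs : List ℝ}, List.Forall₂ V.Mem vs xs →
        ∃ c ∈ cs, ∀ e ∈ c, 0 < e.val xs) →
      ∀ {vs : List V}, cond (runT cs l (setL i vs)) (runT cs r (setR i vs)) false = true →
      ∀ {xs : List ℝ}, List.Forall₂ V.Mem vs xs → ∃ c ∈ cs, ∀ e ∈ c, 0 < e.val xs := by
    intro i l r hl hr vs h xs hx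
    rcases h2 : runT cs l (setL i vs) with _ | _
    · rw [h2] at h; exact absurd h (by simp)
    · rw [h2, cond_true] at h
      rcases set_split (i := i) hx with h3 | h3
      · exact hl h2 h3
      · exact hr h h3
  intro T
  induction T with
  | a => exact fun h => leaf 0 h
  | b => exact fun h => leaf 1 h
  | c => exact fun h => leaf 2 h
  | d => exact fun h => leaf 3 h
  | e => exact fun h => leaf 4 h
  | x l r hl hr => exact fun h => node 0 hl hr h
  | y l r hl hr => exact fun h => node 1 hl hr h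
  | z l r hl hr => exact fun h => node 2 hl hr h
  | w l r hl hr => exact fun h => node 3 hl hr h

theorem runT2 {cs : List (List E)} {T : Tr} {N : ℕ} {l1 h1 l2 h2 : ℤ} {k1 k2 : ℕ}
    (h : runT cs T [V.of N l1 h1 k1, V.of N l2 h2 k2] = true) (hN : 0 < N) {x y : ℝ}
    (a1 : (l1 : ℝ) / N ≤ x) (b1 : x ≤ (h1 : ℝ) / N)
    (a2 : (l2 : ℝ) / N ≤ y) (b2 : y ≤ (h2 : ℝ) / N) : ∃ c ∈ cs, ∀ e ∈ c, 0 < e.val [x, y] :=
  runT_sound h (List.Forall₂.cons (V.of_mem hN a1 b1) (List.Forall₂.cons (V.of_mem hN a2 b2)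
    List.Forall₂.nil))

theorem runT3 {cs : List (List E)} {T : Tr} {N : ℕ} {l1 h1 l2 h2 l3 h3 : ℤ} {k1 k2 k3 : ℕ}
    (h : runT cs T [V.of N l1 h1 k1, V.of N l2 h2 k2, V.of N l3 h3 k3] = true) (hN : 0 < N)
    {x y z : ℝ} (a1 : (l1 : ℝ) / N ≤ x) (b1 : x ≤ (h1 : ℝ) / N)
    (a2 : (l2 : ℝ) / N ≤ y) (b2 : y ≤ (h2 : ℝ) / N)
    (a3 : (l3 : ℝ) / N ≤ z) (b3 : z ≤ (h3 : ℝ) / N) : ∃ c ∈ cs, ∀ e ∈ c, 0 < e.val [x, y, z] :=
  runT_sound h (List.Forall₂.cons (V.of_mem hN a1 b1) (List.Forall₂.cons (V.of_mem hN a2 b2)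
    (List.Forall₂.cons (V.of_mem hN a3 b3) List.Forall₂.nil)))

/-! ### search (for `#eval` only) -/

/-- the first clause which holds -/
def firstC (env : List A) : List (List E) → ℕ → Option ℕ
  | [], _ => none
  | c :: t, n => if allP env c then some n else firstC env t (n + 1)

end Pool.Agent.Work.NumIs

end

section

/-!
# Level push of a digit `1`: rows with two variables

The inequalities are affine in `sinh (π t) ^ 2`, so it is enough to check them at the two ends of its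
range.
-/

namespace Pool.Agent.Work.MP_b30479_gtS.G2

open Real Set VOL NumIs NumIs.E

namespace MQ

/-! ### expressions: variables `u`, `v`; then `p`, `q`, `p'`, `s`, `σ`, `κ` -/

def bd (e : E) : E :=
  lt (sinPi (var 0)) (lt (cosPi (var 0)) (lt (sinPi (var 1)) (lt (add (var 0) (var 1))
    (lt (sinPi (var 5)) (lt (cosPi (var 5)) e)))))

def f1 (S T : ℤ) : E :=
  sub (add (mul (mul (var 6) (mul (sq (var 2)) (var 4))) (sub (q 1 1) (var 7)))
    (mul (mul (sq (var 2)) (var 3)) (q T 100000)))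
    (mul (mul (mul (add (var 2) (var 4)) (var 7)) (var 6)) (q S 100000))

def f2 (S T : ℤ) : E :=
  add (add (mul (mul (var 6) (mul (sq (var 2)) (var 4))) (add (q 1 1) (var 7)))
    (mul (mul (sq (var 2)) (var 3)) (q T 100000)))
    (mul (mul (mul (sub (var 4) (var 2)) (var 7)) (var 6)) (q S 100000))

def dn (S T : ℤ) : E :=
  mul (add (q S 100000) (sq (var 2))) (add (q T 100000) (sq (var 6)))

/-- `α (gh u - g)` -/
def el (α g : ℤ) : E :=
  mul (q α 100) (sub (log (mul (sinPi (mul (q 1 2) (var 0)))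
    (inv (cosPi (mul (q 1 2) (var 0)))))) (q g 10000))

def sL : E := sub (q 1 2) (add (var 0) (var 1))
def sR : E := sub (add (var 0) (var 1)) (q 1 2)

def gP (P : ℤ) : E :=
  sub (mul (sinPi (mul (q 1 2) (var 0))) (sinPi (mul (q 1 2) (var 1))))
    (mul (q P 1000) (mul (cosPi (mul (q 1 2) (var 0))) (cosPi (mul (q 1 2) (var 1)))))

/-- clauses of a strict row -/
def cS (S0 S1 T P : ℤ) : List (List E) :=
  [[sL, bd (f1 S0 T), bd (f1 S1 T)], [sR, bd (f2 S0 T), bd (f2 S1 T)],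
    [bd (f1 S0 T), bd (f1 S1 T), bd (f2 S0 T), bd (f2 S1 T)], [gP P]]

def g1 (S T α g : ℤ) : E := bd (sub (f1 S T) (mul (el α g) (dn S T)))
def g2 (S T α g : ℤ) : E := bd (sub (f2 S T) (mul (el α g) (dn S T)))
def g3 (S α g : ℤ) : E :=
  bd (sub (mul (sq (var 2)) (var 3)) (mul (el α g) (add (q S 100000) (sq (var 2)))))

/-- clauses of a row with slack `α (gh u - g)` -/
def cL (S0 S1 T P α g : ℤ) : List (List E) :=
  [[sL, g1 S0 T α g, g1 S1 T α g], [sR, g2 S0 T α g, g2 S1 T α g, g3 S0 α g, g3 S1 α g],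
    [g1 S0 T α g, g1 S1 T α g, g2 S0 T α g, g2 S1 T α g, g3 S0 α g, g3 S1 α g], [gP P]]

variable {S0 S1 T P α g u0 u1 v0 v1 : ℤ} {tr : Tr} {u v t t' : ℝ}

theorem affine_pos {A B s0 s1 s : ℝ} (h0 : 0 < A - B * s0) (h1 : 0 < A - B * s1) (hs0 : s0 ≤ s)
    (hs1 : s ≤ s1) : 0 < A - B * s := by
  rcases le_total 0 B with hB | hB
  · have := mul_le_mul_of_nonneg_left hs1 hB
    linarith only [h1, this]
  · have := mul_le_mul_of_nonpos_left hs0 hB
    linarith only [h0, this]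

/-- the two cases -/
def Two (u v s0 s1 : ℝ) (F1 F2 : ℝ → ℝ) : Prop :=
  (u + v ≤ 1 / 2 → 0 < F1 s0 ∧ 0 < F1 s1) ∧ (1 / 2 < u + v → 0 < F2 s0 ∧ 0 < F2 s1)

noncomputable def F1 (u v T : ℝ) (s : ℝ) : ℝ :=
  sin (π * (u + v)) * (sin (π * u) ^ 2 * sin (π * v)) * (1 - cos (π * (u + v))) +
    sin (π * u) ^ 2 * cos (π * u) * T -
    (sin (π * u) + sin (π * v)) * cos (π * (u + v)) * sin (π * (u + v)) * s

noncomputable def F2 (u v T : ℝ) (s : ℝ) : ℝ :=
  sin (π * (u + v)) * (sin (π * u) ^ 2 * sin (π * v)) * (1 + cos (π * (u + v))) +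
    sin (π * u) ^ 2 * cos (π * u) * T +
    (sin (π * v) - sin (π * u)) * cos (π * (u + v)) * sin (π * (u + v)) * s

noncomputable def DN (u v T : ℝ) (s : ℝ) : ℝ :=
  (s + sin (π * u) ^ 2) * (T + sin (π * (u + v)) ^ 2)

noncomputable def EL (α g : ℤ) (u : ℝ) : ℝ :=
  (α : ℝ) / 100 * (log (sin (π * (1 / 2 * u)) / cos (π * (1 / 2 * u))) - (g : ℝ) / 10000)

theorem bd_f1 (S T : ℤ) : (bd (f1 S T)).val [u, v] = F1 u v ((T : ℝ) / 100000) ((S : ℝ) / 100000) := by
  simp only [bd, f1, val, lkR_zero, lkR_succ, List.cons_append, List.nil_append, F1]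
  push_cast
  ring

theorem bd_f2 (S T : ℤ) : (bd (f2 S T)).val [u, v] = F2 u v ((T : ℝ) / 100000) ((S : ℝ) / 100000) := by
  simp only [bd, f2, val, lkR_zero, lkR_succ, List.cons_append, List.nil_append, F2]
  push_cast
  ring

theorem g1_val (S T α g : ℤ) : (g1 S T α g).val [u, v] =
    F1 u v ((T : ℝ) / 100000) ((S : ℝ) / 100000) -
      EL α g u * DN u v ((T : ℝ) / 100000) ((S : ℝ) / 100000) := by
  simp only [g1, bd, f1, el, dn, val, lkR_zero, lkR_succ, List.cons_append, List.nil_append, F1, DN,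
    EL]
  push_cast
  ring_nf

theorem g2_val (S T α g : ℤ) : (g2 S T α g).val [u, v] =
    F2 u v ((T : ℝ) / 100000) ((S : ℝ) / 100000) -
      EL α g u * DN u v ((T : ℝ) / 100000) ((S : ℝ) / 100000) := by
  simp only [g2, bd, f2, el, dn, val, lkR_zero, lkR_succ, List.cons_append, List.nil_append, F2, DN,
    EL]
  push_cast
  ring_nf

theorem g3_val (S α g : ℤ) : (g3 S α g).val [u, v] =
    sin (π * u) ^ 2 * cos (π * u) - EL α g u * ((S : ℝ) / 100000 + sin (π * u) ^ 2) := by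
  simp only [g3, bd, el, val, lkR_zero, lkR_succ, List.cons_append, List.nil_append, EL]
  push_cast
  ring_nf

theorem sL_val : sL.val [u, v] = 1 / 2 - (u + v) := by
  simp only [sL, val, lkR_zero, lkR_succ]
  push_cast
  ring

theorem sR_val : sR.val [u, v] = u + v - 1 / 2 := by
  simp only [sR, val, lkR_zero, lkR_succ]
  push_cast
  ring

theorem gP_neg (hu : u ∈ Ioo (0 : ℝ) 1) (hv : v ∈ Ioo (0 : ℝ) 1) (hP : 0 < P)
    (h : gh u + gh v ≤ Real.log ((P : ℝ) / 1000)) : ¬ 0 < (gP P).val [u, v] := by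
  have hP' : (0 : ℝ) < (P : ℝ) / 1000 := by
    have : (0 : ℝ) < P := by exact_mod_cast hP
    positivity
  have := (gh_sum_le hu hv hP').1 h
  simp only [gP, val, lkR_zero, lkR_succ]
  push_cast
  linarith only [this]

theorem EL_gh : EL α g u = (α : ℝ) / 100 * (gh u - (g : ℝ) / 10000) := by
  unfold EL gh
  rw [tan_eq_sin_div_cos]
  have : π * u / 2 = π * (1 / 2 * u) := by ring
  rw [this]

/-- **A strict row.** -/
theorem row_str (h : runT (cS S0 S1 T P) tr [V.of 1000 u0 u1 4, V.of 1000 v0 v1 4] = true)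
    (hP0 : 0 < P) (a0 : (u0 : ℝ) / 1000 ≤ u) (a1 : u ≤ (u1 : ℝ) / 1000)
    (b0 : (v0 : ℝ) / 1000 ≤ v) (b1 : v ≤ (v1 : ℝ) / 1000) (hu : 0 < u) (hu' : u ≤ 1 / 2)
    (hv : 0 < v) (hs : u + v < 1) (hS0 : (S0 : ℝ) / 100000 ≤ sinh (π * t) ^ 2)
    (hS1 : sinh (π * t) ^ 2 ≤ (S1 : ℝ) / 100000)
    (hT : (T : ℝ) / 100000 ≤ sinh (π * (t + t')) ^ 2)
    (hP : gh u + gh v ≤ Real.log ((P : ℝ) / 1000)) :
    sin (π * v) * |CC (lv u t + lv v t')| <
      sin (π * u) * (1 * CC (lv u t) - CC (lv u t + lv v t')) := by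
  have key : Two u v ((S0 : ℝ) / 100000) ((S1 : ℝ) / 100000) (F1 u v ((T : ℝ) / 100000))
      (F2 u v ((T : ℝ) / 100000)) := by
    obtain ⟨c, hc, hpos⟩ := runT2 h (by norm_num) (x := u) (y := v) (by exact_mod_cast a0)
      (by exact_mod_cast a1) (by exact_mod_cast b0) (by exact_mod_cast b1)
    simp only [cS, List.mem_cons, List.not_mem_nil, or_false] at hc
    rcases hc with rfl | rfl | rfl | rfl
    · simp only [List.mem_cons, List.not_mem_nil, or_false, forall_eq_or_imp, forall_eq, bd_f1,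
        sL_val] at hpos
      exact ⟨fun _ => hpos.2, fun h => by linarith only [hpos, h, hpos.1]⟩
    · simp only [List.mem_cons, List.not_mem_nil, or_false, forall_eq_or_imp, forall_eq, bd_f2,
        sR_val] at hpos
      exact ⟨fun h => by linarith only [hpos, h, hpos.1], fun _ => hpos.2⟩
    · simp only [List.mem_cons, List.not_mem_nil, or_false, forall_eq_or_imp, forall_eq, bd_f2,
        bd_f1] at hpos
      exact ⟨fun _ => ⟨hpos.1, hpos.2.1⟩, fun _ => hpos.2.2⟩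
    · exact absurd (hpos _ List.mem_cons_self)
        (gP_neg ⟨hu, by linarith only [hv, hs]⟩ ⟨hv, by linarith only [hu, hs]⟩ hP0 hP)
  refine k1_level_str hu hu' hv hs hT (fun h1 => ?_) (fun h1 => ?_)
  · have k := key.1 h1
    have := affine_pos (s := sinh (π * t) ^ 2) (A := sin (π * (u + v)) * (sin (π * u) ^ 2 *
      sin (π * v)) * (1 - cos (π * (u + v))) + sin (π * u) ^ 2 * cos (π * u) * ((T : ℝ) / 100000))
      (B := (sin (π * u) + sin (π * v)) * cos (π * (u + v)) * sin (π * (u + v)))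
      (by simpa only [F1] using k.1) (by simpa only [F1] using k.2) hS0 hS1
    unfold P1r
    linarith only [this]
  · have k := key.2 h1
    have := affine_pos (s := sinh (π * t) ^ 2) (A := sin (π * (u + v)) * (sin (π * u) ^ 2 *
      sin (π * v)) * (1 + cos (π * (u + v))) + sin (π * u) ^ 2 * cos (π * u) * ((T : ℝ) / 100000))
      (B := -((sin (π * v) - sin (π * u)) * cos (π * (u + v)) * sin (π * (u + v))))
      (by have := k.1; simp only [F2] at this; linarith only [this])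
      (by have := k.2; simp only [F2] at this; linarith only [this]) hS0 hS1
    unfold P2r
    linarith only [this]

/-- **A row with slack.** -/
theorem row_lin (h : runT (cL S0 S1 T P α g) tr [V.of 1000 u0 u1 4, V.of 1000 v0 v1 4] = true)
    (hP0 : 0 < P) (hT0 : 0 ≤ T) (a0 : (u0 : ℝ) / 1000 ≤ u) (a1 : u ≤ (u1 : ℝ) / 1000)
    (b0 : (v0 : ℝ) / 1000 ≤ v) (b1 : v ≤ (v1 : ℝ) / 1000) (hu : 0 < u)
    (hv : 0 < v) (hs : u + v < 1) (hS0 : (S0 : ℝ) / 100000 ≤ sinh (π * t) ^ 2)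
    (hS1 : sinh (π * t) ^ 2 ≤ (S1 : ℝ) / 100000)
    (hT : (T : ℝ) / 100000 ≤ sinh (π * (t + t')) ^ 2)
    (hP : gh u + gh v ≤ Real.log ((P : ℝ) / 1000)) :
    π * ((α : ℝ) / 100) * (gh u - (g : ℝ) / 10000) + sin (π * v) * |CC (lv u t + lv v t')| ≤
      sin (π * u) * (1 * CC (lv u t) - CC (lv u t + lv v t')) := by
  have hT0' : (0 : ℝ) ≤ (T : ℝ) / 100000 := by
    have : (0 : ℝ) ≤ T := by exact_mod_cast hT0
    positivity
  have key : Two u v ((S0 : ℝ) / 100000) ((S1 : ℝ) / 100000)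
      (fun s => F1 u v ((T : ℝ) / 100000) s - EL α g u * DN u v ((T : ℝ) / 100000) s)
      (fun s => F2 u v ((T : ℝ) / 100000) s - EL α g u * DN u v ((T : ℝ) / 100000) s) ∧
      (1 / 2 < u + v →
        0 < sin (π * u) ^ 2 * cos (π * u) - EL α g u * ((S0 : ℝ) / 100000 + sin (π * u) ^ 2) ∧
        0 < sin (π * u) ^ 2 * cos (π * u) - EL α g u * ((S1 : ℝ) / 100000 + sin (π * u) ^ 2)) := by
    obtain ⟨c, hc, hpos⟩ := runT2 h (by norm_num) (x := u) (y := v) (by exact_mod_cast a0)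
      (by exact_mod_cast a1) (by exact_mod_cast b0) (by exact_mod_cast b1)
    simp only [cL, List.mem_cons, List.not_mem_nil, or_false] at hc
    rcases hc with rfl | rfl | rfl | rfl
    · simp only [List.mem_cons, List.not_mem_nil, or_false, forall_eq_or_imp, forall_eq, g1_val,
        sL_val] at hpos
      exact ⟨⟨fun _ => hpos.2, fun h => by linarith only [hpos, h, hpos.1]⟩, fun h => by linarith only [hpos, h, hpos.1]⟩
    · simp only [List.mem_cons, List.not_mem_nil, or_false, forall_eq_or_imp, forall_eq, g2_val,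
        g3_val, sR_val] at hpos
      exact ⟨⟨fun h => by linarith only [hpos, h, hpos.1], fun _ => ⟨hpos.2.1, hpos.2.2.1⟩⟩,
        fun _ => hpos.2.2.2⟩
    · simp only [List.mem_cons, List.not_mem_nil, or_false, forall_eq_or_imp, forall_eq, g2_val,
        g1_val, g3_val] at hpos
      exact ⟨⟨fun _ => ⟨hpos.1, hpos.2.1⟩, fun _ => ⟨hpos.2.2.1, hpos.2.2.2.1⟩⟩,
        fun _ => hpos.2.2.2.2⟩
    · exact absurd (hpos _ List.mem_cons_self)
        (gP_neg ⟨hu, by linarith only [hv, hs]⟩ ⟨hv, by linarith only [hu, hs]⟩ hP0 hP)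
  have e := EL_gh (α := α) (g := g) (u := u)
  rw [e] at key
  set ℓ := (α : ℝ) / 100 * (gh u - (g : ℝ) / 10000) with hℓ
  have hk := k1_level_lin (t := t) (t' := t') (ℓ := ℓ) hu hv hs hT0' hT (fun h1 => ?_)
    (fun h1 => ?_) (fun h1 => ?_)
  · have e2 : π * ((α : ℝ) / 100) * (gh u - (g : ℝ) / 10000) = π * ℓ := by rw [hℓ]; ring
    rw [e2]
    exact hk
  · have k := key.1.1 h1
    have := affine_pos (s := sinh (π * t) ^ 2) (A := sin (π * (u + v)) * (sin (π * u) ^ 2 *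
      sin (π * v)) * (1 - cos (π * (u + v))) + sin (π * u) ^ 2 * cos (π * u) * ((T : ℝ) / 100000) -
      ℓ * (sin (π * u) ^ 2 * ((T : ℝ) / 100000 + sin (π * (u + v)) ^ 2)))
      (B := (sin (π * u) + sin (π * v)) * cos (π * (u + v)) * sin (π * (u + v)) +
        ℓ * ((T : ℝ) / 100000 + sin (π * (u + v)) ^ 2))
      (by have := k.1; simp only [F1, DN] at this; linarith only [this])
      (by have := k.2; simp only [F1, DN] at this; linarith only [this]) hS0 hS1
    unfold P1r dnr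
    linarith only [this]
  · have k := key.1.2 h1
    have := affine_pos (s := sinh (π * t) ^ 2) (A := sin (π * (u + v)) * (sin (π * u) ^ 2 *
      sin (π * v)) * (1 + cos (π * (u + v))) + sin (π * u) ^ 2 * cos (π * u) * ((T : ℝ) / 100000) -
      ℓ * (sin (π * u) ^ 2 * ((T : ℝ) / 100000 + sin (π * (u + v)) ^ 2)))
      (B := -((sin (π * v) - sin (π * u)) * cos (π * (u + v)) * sin (π * (u + v))) +
        ℓ * ((T : ℝ) / 100000 + sin (π * (u + v)) ^ 2))
      (by have := k.1; simp only [F2, DN] at this; linarith only [this])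
      (by have := k.2; simp only [F2, DN] at this; linarith only [this]) hS0 hS1
    unfold P2r dnr
    linarith only [this]
  · have k := key.2 h1
    have := affine_pos (s := sinh (π * t) ^ 2) (A := sin (π * u) ^ 2 * cos (π * u) -
      ℓ * sin (π * u) ^ 2) (B := ℓ)
      (by linarith only [k, k.1]) (by linarith only [k, k.2]) hS0 hS1
    linarith only [this]

end MQ

end Pool.Agent.Work.MP_b30479_gtS.G2

end

section

/-!
# Level push of a digit `1`: from rows to finite differences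
-/

namespace Pool.Agent.Work.MP_b30479_gtS.G2

open Real Set VOL NumIs NumIs.E

namespace MQ

variable {S0 S1 T P α g u0 u1 v0 v1 t0 t1 τ : ℤ} {tr : Tr} {t t' : ℝ}

/-- the level inequality on a box, strict form -/
def LevS (u0 u1 v0 v1 P : ℤ) (t t' : ℝ) : Prop :=
  ∀ u v : ℝ, (u0 : ℝ) / 1000 ≤ u → u ≤ (u1 : ℝ) / 1000 → (v0 : ℝ) / 1000 ≤ v →
    v ≤ (v1 : ℝ) / 1000 → u ≤ 1 / 2 → u + v < 1 → gh u + gh v ≤ Real.log ((P : ℝ) / 1000) →
    sin (π * v) * |CC (lv u t + lv v t')| <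
      sin (π * u) * (1 * CC (lv u t) - CC (lv u t + lv v t'))

/-- the level inequality on a box, with slack -/
def LevL (u0 u1 v0 v1 P α g : ℤ) (t t' : ℝ) : Prop :=
  ∀ u v : ℝ, (u0 : ℝ) / 1000 ≤ u → u ≤ (u1 : ℝ) / 1000 → (v0 : ℝ) / 1000 ≤ v →
    v ≤ (v1 : ℝ) / 1000 → u + v < 1 → gh u + gh v ≤ Real.log ((P : ℝ) / 1000) →
    π * ((α : ℝ) / 100) * (gh u - (g : ℝ) / 10000) + sin (π * v) * |CC (lv u t + lv v t')| ≤
      sin (π * u) * (1 * CC (lv u t) - CC (lv u t + lv v t'))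

/-- numerical check of the bounds for `sinh ^ 2` -/
def okS (t0 t1 τ S0 S1 T : ℤ) : Bool :=
  (decide (S0 ≤ 0) || (chk [sub (sq (E.sinh (mul pi (q t0 10000)))) (q S0 100000)] 1 [] &&
    decide (0 ≤ t0))) &&
  (decide (0 ≤ t1) && chk [sub (q S1 100000) (sq (E.sinh (mul pi (q t1 10000))))] 1 []) &&
  (decide (T ≤ 0) || (chk [sub (sq (E.sinh (mul pi (q τ 10000)))) (q T 100000)] 1 [] &&
    decide (0 ≤ τ)))

theorem sinh_sq_le {a b : ℝ} (h0 : 0 ≤ a) (h : a ≤ b) : sinh (π * a) ^ 2 ≤ sinh (π * b) ^ 2 := by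
  have hp := pi_pos
  have h1 : 0 ≤ sinh (π * a) := sinh_nonneg_iff.2 (by positivity)
  have h2 : sinh (π * a) ≤ sinh (π * b) := sinh_le_sinh.2 (by nlinarith only [h, hp])
  nlinarith only [h1, h2]

theorem sinh_sq_abs (a : ℝ) : sinh (π * a) ^ 2 = sinh (π * |a|) ^ 2 := by
  rw [← sq_abs (sinh (π * a)), abs_sinh, abs_mul, abs_of_pos pi_pos]

theorem okS_spec (h : okS t0 t1 τ S0 S1 T = true) (h1 : |t| ≤ (t1 : ℝ) / 10000)
    (h2 : t0 ≤ 0 ∨ (t0 : ℝ) / 10000 ≤ t) (h3 : τ ≤ 0 ∨ (τ : ℝ) / 10000 ≤ t + t')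
    (h0 : t0 ≤ 0 → S0 ≤ 0) (h0' : τ ≤ 0 → T ≤ 0) :
    (S0 : ℝ) / 100000 ≤ sinh (π * t) ^ 2 ∧ sinh (π * t) ^ 2 ≤ (S1 : ℝ) / 100000 ∧
      (T : ℝ) / 100000 ≤ sinh (π * (t + t')) ^ 2 := by
  simp only [okS, Bool.and_eq_true, Bool.or_eq_true, decide_eq_true_eq] at h
  obtain ⟨⟨k1, k2⟩, k3⟩ := h
  refine ⟨?_, ?_, ?_⟩
  · rcases k1 with k1 | ⟨k1, k1'⟩
    · have : (S0 : ℝ) ≤ 0 := by exact_mod_cast k1
      have h5 := sq_nonneg (sinh (π * t))
      have : (S0 : ℝ) / 100000 ≤ 0 := div_nonpos_of_nonpos_of_nonneg this (by norm_num)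
      linarith
    · rcases h2 with h2 | h2
      · have : (S0 : ℝ) ≤ 0 := by exact_mod_cast h0 h2
        have h5 := sq_nonneg (sinh (π * t))
        have : (S0 : ℝ) / 100000 ≤ 0 := div_nonpos_of_nonpos_of_nonneg this (by norm_num)
        linarith
      · have h6 := chk0 k1
        simp only [val] at h6
        have h7 : (0 : ℝ) ≤ (t0 : ℝ) / 10000 := by
          have : (0 : ℝ) ≤ t0 := by exact_mod_cast k1'
          positivity
        have h8 := sinh_sq_le h7 h2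
        push_cast at h6
        linarith only [h6, h8]
  · have h6 := chk0 k2.2
    simp only [val] at h6
    have h8 := sinh_sq_le (abs_nonneg t) h1
    rw [sinh_sq_abs t]
    push_cast at h6
    linarith only [h6, h8]
  · rcases k3 with k3 | ⟨k3, k3'⟩
    · have : (T : ℝ) ≤ 0 := by exact_mod_cast k3
      have h5 := sq_nonneg (sinh (π * (t + t')))
      have : (T : ℝ) / 100000 ≤ 0 := div_nonpos_of_nonpos_of_nonneg this (by norm_num)
      linarith
    · rcases h3 with h3 | h3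
      · have : (T : ℝ) ≤ 0 := by exact_mod_cast h0' h3
        have h5 := sq_nonneg (sinh (π * (t + t')))
        have : (T : ℝ) / 100000 ≤ 0 := div_nonpos_of_nonpos_of_nonneg this (by norm_num)
        linarith
      · have h6 := chk0 k3
        simp only [val] at h6
        have h7 : (0 : ℝ) ≤ (τ : ℝ) / 10000 := by
          have : (0 : ℝ) ≤ τ := by exact_mod_cast k3'
          positivity
        have h8 := sinh_sq_le h7 h3
        push_cast at h6
        linarith only [h6, h8]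

/-- side conditions of a row -/
def okR (t0 t1 τ S0 S1 T P u0 v0 : ℤ) : Bool :=
  okS t0 t1 τ S0 S1 T && decide (t0 ≤ 0 → S0 ≤ 0) && decide (τ ≤ 0 → T ≤ 0) && decide (0 < P) &&
    decide (0 ≤ T) && decide (0 < u0) && decide (0 < v0)

theorem levS_of (h : runT (cS S0 S1 T P) tr [V.of 1000 u0 u1 4, V.of 1000 v0 v1 4] = true)
    (hk : okR t0 t1 τ S0 S1 T P u0 v0 = true) (h1 : |t| ≤ (t1 : ℝ) / 10000)
    (h2 : t0 ≤ 0 ∨ (t0 : ℝ) / 10000 ≤ t) (h3 : τ ≤ 0 ∨ (τ : ℝ) / 10000 ≤ t + t') :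
    LevS u0 u1 v0 v1 P t t' := by
  simp only [okR, Bool.and_eq_true, decide_eq_true_eq] at hk
  obtain ⟨⟨⟨⟨⟨⟨k1, k2⟩, k3⟩, k4⟩, k5⟩, k6⟩, k7⟩ := hk
  obtain ⟨m1, m2, m3⟩ := okS_spec k1 h1 h2 h3 k2 k3
  have k6' : (0 : ℝ) < (u0 : ℝ) / 1000 := by
    have : (0 : ℝ) < u0 := by exact_mod_cast k6
    positivity
  have k7' : (0 : ℝ) < (v0 : ℝ) / 1000 := by
    have : (0 : ℝ) < v0 := by exact_mod_cast k7
    positivity
  intro u v a0 a1 b0 b1 hu hs hP
  exact row_str h k4 a0 a1 b0 b1 (by linarith only [k6', a0]) hu (by linarith only [k7', b0]) hs m1 m2 m3 hP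

theorem levL_of (h : runT (cL S0 S1 T P α g) tr [V.of 1000 u0 u1 4, V.of 1000 v0 v1 4] = true)
    (hk : okR t0 t1 τ S0 S1 T P u0 v0 = true) (h1 : |t| ≤ (t1 : ℝ) / 10000)
    (h2 : t0 ≤ 0 ∨ (t0 : ℝ) / 10000 ≤ t) (h3 : τ ≤ 0 ∨ (τ : ℝ) / 10000 ≤ t + t') :
    LevL u0 u1 v0 v1 P α g t t' := by
  simp only [okR, Bool.and_eq_true, decide_eq_true_eq] at hk
  obtain ⟨⟨⟨⟨⟨⟨k1, k2⟩, k3⟩, k4⟩, k5⟩, k6⟩, k7⟩ := hk
  obtain ⟨m1, m2, m3⟩ := okS_spec k1 h1 h2 h3 k2 k3
  have k6' : (0 : ℝ) < (u0 : ℝ) / 1000 := by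
    have : (0 : ℝ) < u0 := by exact_mod_cast k6
    positivity
  have k7' : (0 : ℝ) < (v0 : ℝ) / 1000 := by
    have : (0 : ℝ) < v0 := by exact_mod_cast k7
    positivity
  intro u v a0 a1 b0 b1 hs hP
  exact row_lin h k4 k5 a0 a1 b0 b1 (by linarith only [k6', a0]) (by linarith only [k7', b0]) hs m1 m2 m3 hP

/-! ### finite differences -/

theorem mem_uIcc_bd {l r a b c : ℝ} (h : c ∈ uIcc a b) (ha : l ≤ a) (hb : l ≤ b) (ha' : a ≤ r)
    (hb' : b ≤ r) : l ≤ c ∧ c ≤ r := by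
  rcases mem_uIcc.1 h with h | h
  · exact ⟨ha.trans h.1, h.2.trans hb'⟩
  · exact ⟨hb.trans h.1, h.2.trans ha'⟩

variable {a a' x x' : ℝ}

theorem LevS.fd (H : LevS u0 u1 v0 v1 P t t') (ha : (u0 : ℝ) / 1000 ≤ a)
    (hx : x ≤ (u1 : ℝ) / 1000) (hx2 : x ≤ 1 / 2) (ha' : (v0 : ℝ) / 1000 ≤ a')
    (hx' : (v0 : ℝ) / 1000 ≤ x') (hb' : a' ≤ (v1 : ℝ) / 1000) (hy' : x' ≤ (v1 : ℝ) / 1000)
    (p1 : 0 < a) (p2 : 0 < a') (p4 : 0 < x') (hlt : a < x)
    (hg : |gh x' - gh a'| ≤ gh x - gh a) (hs : a + a' < 1) (hs1 : x + x' < 1)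
    (hP : gh a + gh a' ≤ Real.log ((P : ℝ) / 1000))
    (hP' : gh x + gh x' ≤ Real.log ((P : ℝ) / 1000)) :
    LL (lv x t + lv x' t') - LL (lv x t) < LL (lv a t + lv a' t') - LL (lv a t) := by
  have := lev_fd (k := 1) (τ := t) (τ' := t') ⟨p1, by linarith only [hx2, p1, hlt]⟩ ⟨p2, by linarith only [p1, hs]⟩
    ⟨p1.trans hlt, by linarith only [hx2, p1, hlt]⟩ ⟨p4, by linarith only [p1, hlt, hs1]⟩ hlt hg hs hs1 (fun u u' hu hu' hsum hmax => by
      obtain ⟨q1, q2⟩ := mem_uIcc_bd hu' ha' hx' hb' hy'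
      exact H u u' (ha.trans hu.1) (hu.2.trans hx) q1 q2 (hu.2.trans hx2) hsum
        (hmax.trans (max_le hP hP')))
  linarith only [this]

theorem LevL.fd (H : LevL u0 u1 v0 v1 P α g t t') (hα : 0 < α) (ha : (u0 : ℝ) / 1000 ≤ a)
    (hx : x ≤ (u1 : ℝ) / 1000) (ha' : (v0 : ℝ) / 1000 ≤ a')
    (hx' : (v0 : ℝ) / 1000 ≤ x') (hb' : a' ≤ (v1 : ℝ) / 1000) (hy' : x' ≤ (v1 : ℝ) / 1000)
    (p1 : 0 < a) (p2 : 0 < a') (p4 : 0 < x') (hlt : a < x)
    (hg : |gh x' - gh a'| ≤ gh x - gh a) (hs : a + a' < 1) (hs1 : x + x' < 1)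
    (hg0 : 2 * ((g : ℝ) / 10000) < gh a + gh x)
    (hP : gh a + gh a' ≤ Real.log ((P : ℝ) / 1000))
    (hP' : gh x + gh x' ≤ Real.log ((P : ℝ) / 1000)) :
    LL (lv x t + lv x' t') - LL (lv x t) < LL (lv a t + lv a' t') - LL (lv a t) := by
  have hα' : (0 : ℝ) < α := by exact_mod_cast hα
  have hp := pi_pos
  have := lev_fd_lin (k := 1) (τ := t) (τ' := t') (α := π * ((α : ℝ) / 100))
    (g0 := (g : ℝ) / 10000) ⟨p1, by linarith only [p4, hlt, hs1]⟩ ⟨p2, by linarith only [p1, hs]⟩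
    ⟨p1.trans hlt, by linarith only [p4, hs1]⟩ ⟨p4, by linarith only [p1, hlt, hs1]⟩ hlt hg hs hs1 (by positivity) hg0
    (fun u u' hu hu' hsum hmax => by
      obtain ⟨q1, q2⟩ := mem_uIcc_bd hu' ha' hx' hb' hy'
      exact H u u' (ha.trans hu.1) (hu.2.trans hx) q1 q2 hsum
        (hmax.trans (max_le hP hP')))
  linarith only [this]

/-- the gauge at a rational point -/
def ghE (n : ℤ) : E := E.log (mul (sinPi (q n 2000)) (inv (cosPi (q n 2000))))

theorem ghE_val (n : ℤ) : (ghE n).val [] = gh ((n : ℝ) / 1000) := by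
  simp only [ghE, val]
  unfold gh
  rw [tan_eq_sin_div_cos]
  have : π * ((n : ℝ) / 1000) / 2 = π * ((n : ℝ) / ((2000 : ℕ) : ℝ)) := by push_cast; ring
  rw [this]
  simp only [div_eq_mul_inv]

def okG (a x g : ℤ) : Bool := chk [sub (add (ghE a) (ghE x)) (q (2 * g) 10000)] 1 []

theorem okG_spec {n m : ℤ} (h : okG n m g = true) (hn : 0 < n) (hm : 0 < m)
    (h1 : (n : ℝ) / 1000 ≤ a) (h2 : (m : ℝ) / 1000 ≤ x) (ha : a < 1) (hx : x < 1) :
    2 * ((g : ℝ) / 10000) < gh a + gh x := by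
  have h6 := chk0 h
  simp only [val, ghE_val] at h6
  push_cast at h6
  have hn' : (0 : ℝ) < n := by exact_mod_cast hn
  have hm' : (0 : ℝ) < m := by exact_mod_cast hm
  have n1 : (n : ℝ) / 1000 ∈ Ioo (0 : ℝ) 1 := ⟨by positivity, by linarith only [h1, ha]⟩
  have m1 : (m : ℝ) / 1000 ∈ Ioo (0 : ℝ) 1 := ⟨by positivity, by linarith only [h2, hx]⟩
  have k1 : gh ((n : ℝ) / 1000) ≤ gh a := by
    rcases h1.eq_or_lt with e | e
    · rw [e]
    · exact ((gh_lt n1 ⟨n1.1.trans e, ha⟩).2 e).le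
  have k2 : gh ((m : ℝ) / 1000) ≤ gh x := by
    rcases h2.eq_or_lt with e | e
    · rw [e]
    · exact ((gh_lt m1 ⟨m1.1.trans e, hx⟩).2 e).le
  linarith only [h6, k1, k2]

end MQ

end Pool.Agent.Work.MP_b30479_gtS.G2

end

section

/-!
# Level push of a digit `1` with constant slack

The slack `μ` is constant in the gauge.  The rows are bilinear in the squares of the hyperbolic
sines of the two heights, so it is enough to check them at the four corners.
-/

namespace Pool.Agent.Work.MP_b30479_gtS.G2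

open Real Set VOL NumIs NumIs.E

namespace MQ

/-! ### the core -/

theorem k1_core_c {p q p' σ κ S T μ : ℝ} (hp : 0 < p) (hσ : 0 < σ)
    (hS : 0 ≤ S) (hT : 0 ≤ T) (h0 : q * σ - p * κ = p')
    (h1 : 0 ≤ κ → 0 ≤ σ * (p ^ 2 * p') * (1 - κ) + p ^ 2 * q * T - (p + p') * κ * σ * S -
      μ * ((S + p ^ 2) * (T + σ ^ 2)))
    (h2 : κ < 0 → 0 ≤ σ * (p ^ 2 * p') * (1 + κ) + p ^ 2 * q * T + (p' - p) * κ * σ * S -
      μ * ((S + p ^ 2) * (T + σ ^ 2))) :
    μ + p' * |σ * κ / (T + σ ^ 2)| ≤ p * (p * q / (S + p ^ 2) - σ * κ / (T + σ ^ 2)) := by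
  have hA : 0 < S + p ^ 2 := by positivity
  have hB : 0 < T + σ ^ 2 := by positivity
  have e3 : p * (p * q / (S + p ^ 2)) = p ^ 2 * q / (S + p ^ 2) := by ring
  rcases le_or_gt 0 κ with hk | hk
  · have a1 : 0 ≤ σ * κ / (T + σ ^ 2) := by positivity
    rw [abs_of_nonneg a1]
    have h := h1 hk
    rw [mul_sub, e3, ← sub_nonneg]
    have e : p ^ 2 * q / (S + p ^ 2) - p * (σ * κ / (T + σ ^ 2)) -
        (μ + p' * (σ * κ / (T + σ ^ 2))) =
        (p ^ 2 * q * (T + σ ^ 2) - (p + p') * (σ * κ) * (S + p ^ 2) -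
          μ * ((S + p ^ 2) * (T + σ ^ 2))) / ((S + p ^ 2) * (T + σ ^ 2)) := by
      field_simp
      ring
    rw [e]
    apply div_nonneg _ (by positivity)
    have e2 : p ^ 2 * q * (T + σ ^ 2) - (p + p') * (σ * κ) * (S + p ^ 2) =
        σ * p ^ 2 * (q * σ - p * κ - p' * κ) + p ^ 2 * q * T - (p + p') * κ * σ * S := by ring
    rw [e2, h0]
    nlinarith only [h]
  · have a1 : σ * κ / (T + σ ^ 2) ≤ 0 := by
      apply div_nonpos_of_nonpos_of_nonneg
      · nlinarith only [hσ, hk]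
      · positivity
    rw [abs_of_nonpos a1]
    have h := h2 hk
    rw [mul_sub, e3, ← sub_nonneg]
    have e : p ^ 2 * q / (S + p ^ 2) - p * (σ * κ / (T + σ ^ 2)) -
        (μ + p' * -(σ * κ / (T + σ ^ 2))) =
        (p ^ 2 * q * (T + σ ^ 2) + (p' - p) * (σ * κ) * (S + p ^ 2) -
          μ * ((S + p ^ 2) * (T + σ ^ 2))) / ((S + p ^ 2) * (T + σ ^ 2)) := by
      field_simp
      ring
    rw [e]
    apply div_nonneg _ (by positivity)
    have e2 : p ^ 2 * q * (T + σ ^ 2) + (p' - p) * (σ * κ) * (S + p ^ 2) =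
        σ * p ^ 2 * (q * σ - p * κ + p' * κ) + p ^ 2 * q * T + (p' - p) * κ * σ * S := by ring
    rw [e2, h0]
    nlinarith only [h]

theorem bil_pos {a b c d s t s0 s1 t0 t1 : ℝ} (h00 : 0 < a + b * s0 + c * t0 + d * (s0 * t0))
    (h01 : 0 < a + b * s0 + c * t1 + d * (s0 * t1)) (h10 : 0 < a + b * s1 + c * t0 + d * (s1 * t0))
    (h11 : 0 < a + b * s1 + c * t1 + d * (s1 * t1)) (hs0 : s0 ≤ s) (hs1 : s ≤ s1) (ht0 : t0 ≤ t)
    (ht1 : t ≤ t1) : 0 < a + b * s + c * t + d * (s * t) := by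
  have k0 := affine_pos (A := a + b * s0) (B := -(c + d * s0)) (s := t) (s0 := t0) (s1 := t1)
    (by linarith only [h00]) (by linarith only [h01]) ht0 ht1
  have k1 := affine_pos (A := a + b * s1) (B := -(c + d * s1)) (s := t) (s0 := t0) (s1 := t1)
    (by linarith only [h10]) (by linarith only [h11]) ht0 ht1
  have k2 := affine_pos (A := a + c * t) (B := -(b + d * t)) (s := s) (s0 := s0) (s1 := s1)
    (by linarith only [k0]) (by linarith only [k1]) hs0 hs1
  linarith only [k2]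

/-! ### rows -/

/-- the slack `μ - α (gh u - g)` -/
def sk (μ α g : ℤ) : E := sub (q μ 10000) (el α g)

def c1E (S T μ α g : ℤ) : E := bd (sub (f1 S T) (mul (sk μ α g) (dn S T)))
def c2E (S T μ α g : ℤ) : E := bd (sub (f2 S T) (mul (sk μ α g) (dn S T)))

def gQ (Q : ℤ) : E :=
  sub (mul (q Q 1000) (mul (cosPi (mul (q 1 2) (var 0))) (cosPi (mul (q 1 2) (var 1)))))
    (mul (sinPi (mul (q 1 2) (var 0))) (sinPi (mul (q 1 2) (var 1))))

/-- clauses of a row with slack `μ - α (gh u - g)` -/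
def cC (S0 S1 T0 T1 μ α g P Q : ℤ) : List (List E) :=
  [[sL, c1E S0 T0 μ α g, c1E S0 T1 μ α g, c1E S1 T0 μ α g, c1E S1 T1 μ α g],
    [sR, c2E S0 T0 μ α g, c2E S0 T1 μ α g, c2E S1 T0 μ α g, c2E S1 T1 μ α g],
    [c1E S0 T0 μ α g, c1E S0 T1 μ α g, c1E S1 T0 μ α g, c1E S1 T1 μ α g,
      c2E S0 T0 μ α g, c2E S0 T1 μ α g, c2E S1 T0 μ α g, c2E S1 T1 μ α g], [gP P], [gQ Q]]

variable {S0 S1 T0 T1 μ α g P Q u0 u1 v0 v1 : ℤ} {tr : Tr} {u v t t' : ℝ}

/-- the slack -/
noncomputable def SLK (μ α g : ℤ) (u : ℝ) : ℝ :=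
  (μ : ℝ) / 10000 - (α : ℝ) / 100 * (gh u - (g : ℝ) / 10000)

theorem c1E_val (S T μ α g : ℤ) : (c1E S T μ α g).val [u, v] =
    F1 u v ((T : ℝ) / 100000) ((S : ℝ) / 100000) -
      SLK μ α g u * DN u v ((T : ℝ) / 100000) ((S : ℝ) / 100000) := by
  unfold SLK
  rw [← EL_gh]
  simp only [c1E, sk, bd, f1, el, dn, val, lkR_zero, lkR_succ, List.cons_append, List.nil_append, F1,
    DN, EL]
  push_cast
  ring_nf

theorem c2E_val (S T μ α g : ℤ) : (c2E S T μ α g).val [u, v] =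
    F2 u v ((T : ℝ) / 100000) ((S : ℝ) / 100000) -
      SLK μ α g u * DN u v ((T : ℝ) / 100000) ((S : ℝ) / 100000) := by
  unfold SLK
  rw [← EL_gh]
  simp only [c2E, sk, bd, f2, el, dn, val, lkR_zero, lkR_succ, List.cons_append, List.nil_append, F2,
    DN, EL]
  push_cast
  ring_nf

theorem gQ_neg (hu : u ∈ Ioo (0 : ℝ) 1) (hv : v ∈ Ioo (0 : ℝ) 1) (hQ : 0 < Q)
    (h : Real.log ((Q : ℝ) / 1000) ≤ gh u + gh v) : ¬ 0 < (gQ Q).val [u, v] := by
  intro hc
  have hQ' : (0 : ℝ) < (Q : ℝ) / 1000 := by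
    have : (0 : ℝ) < Q := by exact_mod_cast hQ
    positivity
  simp only [gQ, val, lkR_zero, lkR_succ] at hc
  push_cast at hc
  have hpi := pi_pos
  have a1 : 0 < sin (π * (1 / 2 * u)) := sin_pi_pos (by linarith only [hu, hu.1]) (by linarith only [hu, hu.2])
  have a2 : 0 < sin (π * (1 / 2 * v)) := sin_pi_pos (by linarith only [hv, hv.1]) (by linarith only [hv, hv.2])
  have a3 : 0 < cos (π * (1 / 2 * u)) :=
    cos_pos_of_mem_Ioo ⟨by nlinarith only [hpi, hu, hu.1], by nlinarith only [hpi, hu, hu.2]⟩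
  have a4 : 0 < cos (π * (1 / 2 * v)) :=
    cos_pos_of_mem_Ioo ⟨by nlinarith only [hpi, hv, hv.1], by nlinarith only [hpi, hv, hv.2]⟩
  have e1 : gh u = Real.log (sin (π * (1 / 2 * u)) / cos (π * (1 / 2 * u))) := by
    unfold gh
    rw [tan_eq_sin_div_cos]
    have : π * u / 2 = π * (1 / 2 * u) := by ring
    rw [this]
  have e2 : gh v = Real.log (sin (π * (1 / 2 * v)) / cos (π * (1 / 2 * v))) := by
    unfold gh
    rw [tan_eq_sin_div_cos]
    have : π * v / 2 = π * (1 / 2 * v) := by ring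
    rw [this]
  rw [e1, e2, ← Real.log_mul (by positivity) (by positivity),
    Real.log_le_log_iff hQ' (by positivity), div_mul_div_comm, le_div_iff₀ (by positivity)] at h
  linarith only [h, hc]

/-- **A row with slack.** -/
theorem row_con (h : runT (cC S0 S1 T0 T1 μ α g P Q) tr [V.of 1000 u0 u1 4, V.of 1000 v0 v1 4] = true)
    (hP0 : 0 < P) (hQ0 : 0 < Q) (a0 : (u0 : ℝ) / 1000 ≤ u) (a1 : u ≤ (u1 : ℝ) / 1000)
    (b0 : (v0 : ℝ) / 1000 ≤ v) (b1 : v ≤ (v1 : ℝ) / 1000) (hu : 0 < u)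
    (hv : 0 < v) (hs : u + v < 1) (hS0 : (S0 : ℝ) / 100000 ≤ sinh (π * t) ^ 2)
    (hS1 : sinh (π * t) ^ 2 ≤ (S1 : ℝ) / 100000)
    (hT0 : (T0 : ℝ) / 100000 ≤ sinh (π * (t + t')) ^ 2)
    (hT1 : sinh (π * (t + t')) ^ 2 ≤ (T1 : ℝ) / 100000)
    (hP : gh u + gh v ≤ Real.log ((P : ℝ) / 1000))
    (hQ : Real.log ((Q : ℝ) / 1000) ≤ gh u + gh v) :
    π * SLK μ α g u + sin (π * v) * |CC (lv u t + lv v t')| ≤
      sin (π * u) * (1 * CC (lv u t) - CC (lv u t + lv v t')) := by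
  have hpi := pi_pos
  have s1 : 0 < sin (π * u) := sin_pi_pos hu (by linarith only [hv, hs])
  have s3 : 0 < sin (π * (u + v)) := sin_pi_pos (by linarith only [hu, hv]) hs
  have hb1 : (∀ S ∈ [S0, S1], ∀ T ∈ [T0, T1], 0 < (c1E S T μ α g).val [u, v]) →
      0 < F1 u v (sinh (π * (t + t')) ^ 2) (sinh (π * t) ^ 2) -
        SLK μ α g u * DN u v (sinh (π * (t + t')) ^ 2) (sinh (π * t) ^ 2) := by
    intro hk
    have k00 := hk S0 (by simp) T0 (by simp)
    have k01 := hk S0 (by simp) T1 (by simp)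
    have k10 := hk S1 (by simp) T0 (by simp)
    have k11 := hk S1 (by simp) T1 (by simp)
    rw [c1E_val] at k00 k01 k10 k11
    unfold F1 DN at *
    have := bil_pos
      (a := sin (π * (u + v)) * (sin (π * u) ^ 2 * sin (π * v)) * (1 - cos (π * (u + v))) -
        SLK μ α g u * (sin (π * u) ^ 2 * sin (π * (u + v)) ^ 2))
      (b := -((sin (π * u) + sin (π * v)) * cos (π * (u + v)) * sin (π * (u + v))) -
        SLK μ α g u * sin (π * (u + v)) ^ 2)
      (c := sin (π * u) ^ 2 * cos (π * u) - SLK μ α g u * sin (π * u) ^ 2)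
      (d := -(SLK μ α g u)) (s := sinh (π * t) ^ 2) (t := sinh (π * (t + t')) ^ 2)
      (s0 := (S0 : ℝ) / 100000) (s1 := (S1 : ℝ) / 100000) (t0 := (T0 : ℝ) / 100000)
      (t1 := (T1 : ℝ) / 100000) (by linarith only [k00]) (by linarith only [k01]) (by linarith only [k10]) (by linarith only [k11])
      hS0 hS1 hT0 hT1
    linarith only [this]
  have hb2 : (∀ S ∈ [S0, S1], ∀ T ∈ [T0, T1], 0 < (c2E S T μ α g).val [u, v]) →
      0 < F2 u v (sinh (π * (t + t')) ^ 2) (sinh (π * t) ^ 2) -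
        SLK μ α g u * DN u v (sinh (π * (t + t')) ^ 2) (sinh (π * t) ^ 2) := by
    intro hk
    have k00 := hk S0 (by simp) T0 (by simp)
    have k01 := hk S0 (by simp) T1 (by simp)
    have k10 := hk S1 (by simp) T0 (by simp)
    have k11 := hk S1 (by simp) T1 (by simp)
    rw [c2E_val] at k00 k01 k10 k11
    unfold F2 DN at *
    have := bil_pos
      (a := sin (π * (u + v)) * (sin (π * u) ^ 2 * sin (π * v)) * (1 + cos (π * (u + v))) -
        SLK μ α g u * (sin (π * u) ^ 2 * sin (π * (u + v)) ^ 2))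
      (b := (sin (π * v) - sin (π * u)) * cos (π * (u + v)) * sin (π * (u + v)) -
        SLK μ α g u * sin (π * (u + v)) ^ 2)
      (c := sin (π * u) ^ 2 * cos (π * u) - SLK μ α g u * sin (π * u) ^ 2)
      (d := -(SLK μ α g u)) (s := sinh (π * t) ^ 2) (t := sinh (π * (t + t')) ^ 2)
      (s0 := (S0 : ℝ) / 100000) (s1 := (S1 : ℝ) / 100000) (t0 := (T0 : ℝ) / 100000)
      (t1 := (T1 : ℝ) / 100000) (by linarith only [k00]) (by linarith only [k01]) (by linarith only [k10]) (by linarith only [k11])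
      hS0 hS1 hT0 hT1
    linarith only [this]
  have key : (u + v ≤ 1 / 2 → 0 < F1 u v (sinh (π * (t + t')) ^ 2) (sinh (π * t) ^ 2) -
        SLK μ α g u * DN u v (sinh (π * (t + t')) ^ 2) (sinh (π * t) ^ 2)) ∧
      (1 / 2 < u + v → 0 < F2 u v (sinh (π * (t + t')) ^ 2) (sinh (π * t) ^ 2) -
        SLK μ α g u * DN u v (sinh (π * (t + t')) ^ 2) (sinh (π * t) ^ 2)) := by
    obtain ⟨c, hc, hpos⟩ := runT2 h (by norm_num) (x := u) (y := v) (by exact_mod_cast a0)
      (by exact_mod_cast a1) (by exact_mod_cast b0) (by exact_mod_cast b1)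
    simp only [cC, List.mem_cons, List.not_mem_nil, or_false] at hc
    rcases hc with rfl | rfl | rfl | rfl | rfl
    · simp only [List.mem_cons, List.not_mem_nil, or_false, forall_eq_or_imp, forall_eq,
        sL_val] at hpos
      obtain ⟨p0, p1, p2, p3, p4⟩ := hpos
      refine ⟨fun _ => hb1 ?_, fun h => by linarith only [p0, h]⟩
      simp only [List.mem_cons, List.not_mem_nil, or_false, forall_eq_or_imp, forall_eq]
      exact ⟨⟨p1, p2⟩, p3, p4⟩
    · simp only [List.mem_cons, List.not_mem_nil, or_false, forall_eq_or_imp, forall_eq,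
        sR_val] at hpos
      obtain ⟨p0, p1, p2, p3, p4⟩ := hpos
      refine ⟨fun h => by linarith only [p0, h], fun _ => hb2 ?_⟩
      simp only [List.mem_cons, List.not_mem_nil, or_false, forall_eq_or_imp, forall_eq]
      exact ⟨⟨p1, p2⟩, p3, p4⟩
    · simp only [List.mem_cons, List.not_mem_nil, or_false, forall_eq_or_imp, forall_eq] at hpos
      obtain ⟨p1, p2, p3, p4, p5, p6, p7, p8⟩ := hpos
      refine ⟨fun _ => hb1 ?_, fun _ => hb2 ?_⟩ <;>
        simp only [List.mem_cons, List.not_mem_nil, or_false, forall_eq_or_imp, forall_eq]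
      · exact ⟨⟨p1, p2⟩, p3, p4⟩
      · exact ⟨⟨p5, p6⟩, p7, p8⟩
    · exact absurd (hpos _ List.mem_cons_self)
        (gP_neg ⟨hu, by linarith only [hv, hs]⟩ ⟨hv, by linarith only [hu, hs]⟩ hP0 hP)
    · exact absurd (hpos _ List.mem_cons_self)
        (gQ_neg ⟨hu, by linarith only [hv, hs]⟩ ⟨hv, by linarith only [hu, hs]⟩ hQ0 hQ)
  have core := k1_core_c (p := sin (π * u)) (q := cos (π * u)) (p' := sin (π * v))
    (σ := sin (π * (u + v))) (κ := cos (π * (u + v))) (S := sinh (π * t) ^ 2)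
    (T := sinh (π * (t + t')) ^ 2) (μ := SLK μ α g u) s1 s3 (sq_nonneg _) (sq_nonneg _) sin_sum
    (fun hk => by
      have := key.1 (half_of_cos_nonneg hs hk)
      unfold F1 DN at this
      linarith only [this])
    (fun hk => by
      have := key.2 (half_of_cos_neg (by linarith only [hu, hv]) hk)
      unfold F2 DN at this
      linarith only [this])
  have e1 : CC (lv u t) = π * (sin (π * u) * cos (π * u) / (sinh (π * t) ^ 2 + sin (π * u) ^ 2)) := by
    rw [CC_eq, lv_re, lv_im]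
  have e2 : CC (lv u t + lv v t') = π * (sin (π * (u + v)) * cos (π * (u + v)) /
      (sinh (π * (t + t')) ^ 2 + sin (π * (u + v)) ^ 2)) := by
    rw [lv_add, CC_eq, lv_re, lv_im]
  rw [e1, e2, abs_mul, abs_of_pos hpi, one_mul]
  generalize sin (π * u) * cos (π * u) / (sinh (π * t) ^ 2 + sin (π * u) ^ 2) = X at *
  generalize sin (π * (u + v)) * cos (π * (u + v)) /
      (sinh (π * (t + t')) ^ 2 + sin (π * (u + v)) ^ 2) = Y at *
  have := mul_le_mul_of_nonneg_left core hpi.le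
  linarith only [this]

/-! ### finite differences -/

theorem lev_fd_c {a a' x x' τ τ' μ α g0 : ℝ} (ha : a ∈ Ioo (0 : ℝ) 1) (ha' : a' ∈ Ioo (0 : ℝ) 1)
    (hx : x ∈ Ioo (0 : ℝ) 1) (hx' : x' ∈ Ioo (0 : ℝ) 1) (hlt : a < x)
    (hg : |gh x' - gh a'| ≤ gh x - gh a) (hs : a + a' < 1) (hs1 : x + x' < 1)
    (hL : ∀ u u' : ℝ, u ∈ Icc a x → u' ∈ uIcc a' x' → u + u' < 1 →
      gh u + gh u' ≤ max (gh a + gh a') (gh x + gh x') →
      min (gh a + gh a') (gh x + gh x') ≤ gh u + gh u' →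
      π * (μ - α * (gh u - g0)) + sin (π * u') * |CC (lv u τ + lv u' τ')| ≤
        sin (π * u) * (1 * CC (lv u τ) - CC (lv u τ + lv u' τ'))) :
    LL (lv x τ + lv x' τ') - LL (lv x τ) + (μ - α * ((gh a + gh x) / 2 - g0)) * (gh x - gh a) ≤
      LL (lv a τ + lv a' τ') - LL (lv a τ) := by
  have hpi := Real.pi_pos
  have hΔ : 0 < gh x - gh a := by
    have := (gh_lt ha hx).2 hlt
    linarith only [this]
  have hsum : ∀ θ ∈ Icc (0 : ℝ) 1, gh (gc a x θ) + gh (gc a' x' θ) ≤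
      max (gh a + gh a') (gh x + gh x') := by
    intro θ hθ
    rw [gh_gc, gh_gc]
    have h1 := le_max_left (gh a + gh a') (gh x + gh x')
    have h2 := le_max_right (gh a + gh a') (gh x + gh x')
    have h3 : 0 ≤ 1 - θ := by linarith only [hθ, hθ.2]
    have h4 := mul_le_mul_of_nonneg_left h1 h3
    have h5 := mul_le_mul_of_nonneg_left h2 hθ.1
    nlinarith only [h4, h5]
  have hsum' : ∀ θ ∈ Icc (0 : ℝ) 1, min (gh a + gh a') (gh x + gh x') ≤
      gh (gc a x θ) + gh (gc a' x' θ) := by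
    intro θ hθ
    rw [gh_gc, gh_gc]
    have h1 := min_le_left (gh a + gh a') (gh x + gh x')
    have h2 := min_le_right (gh a + gh a') (gh x + gh x')
    have h3 : 0 ≤ 1 - θ := by linarith only [hθ, hθ.2]
    have h4 := mul_le_mul_of_nonneg_left h1 h3
    have h5 := mul_le_mul_of_nonneg_left h2 hθ.1
    nlinarith only [h4, h5]
  have hmax : max (gh a + gh a') (gh x + gh x') < 0 :=
    max_lt ((add_lt_one_iff ha ha').1 hs) ((add_lt_one_iff hx hx').1 hs1)
  have hone : ∀ θ ∈ Icc (0 : ℝ) 1, gc a x θ + gc a' x' θ < 1 := fun θ hθ =>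
    (add_lt_one_iff (gc_mem _ _ _) (gc_mem _ _ _)).2 ((hsum θ hθ).trans_lt hmax)
  set F : ℝ → ℝ := fun θ => LL (lv (gc a x θ + gc a' x' θ) (τ + τ')) - LL (lv (gc a x θ) τ) +
    (gh x - gh a) * ((μ - α * (gh a - g0)) * θ - α * (gh x - gh a) * (θ ^ 2 / 2)) with hF
  have hder : ∀ θ ∈ Icc (0 : ℝ) 1, HasDerivAt F
      (CC (lv (gc a x θ + gc a' x' θ) (τ + τ')) *
          ((gh x - gh a) * (sin (π * gc a x θ) / π) + (gh x' - gh a') * (sin (π * gc a' x' θ) / π)) -
        CC (lv (gc a x θ) τ) * ((gh x - gh a) * (sin (π * gc a x θ) / π)) +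
        (gh x - gh a) * (μ - α * (gh a - g0) - α * (gh x - gh a) * θ)) θ := by
    intro θ hθ
    have m1 := gc_mem a x θ
    have m2 := gc_mem a' x' θ
    have h1 := hasDerivAt_gc a x θ
    have h2 := hasDerivAt_gc a' x' θ
    have h3 := (hasDerivAt_LL_lv (t := τ) m1.1 m1.2).comp θ h1
    have h4 := (hasDerivAt_LL_lv (t := τ + τ') (add_pos m1.1 m2.1) (hone θ hθ)).comp θ (h1.add h2)
    have h5 : HasDerivAt (fun θ : ℝ => (gh x - gh a) * ((μ - α * (gh a - g0)) * θ -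
        α * (gh x - gh a) * (θ ^ 2 / 2)))
        ((gh x - gh a) * (μ - α * (gh a - g0) - α * (gh x - gh a) * θ)) θ := by
      have e1 := ((hasDerivAt_id' θ).const_mul (μ - α * (gh a - g0))).sub
        ((((hasDerivAt_id' θ).pow 2).div_const 2).const_mul (α * (gh x - gh a)))
      refine (e1.const_mul (gh x - gh a)).congr_deriv ?_
      simp
    exact (h4.sub h3).add h5
  have hneg : ∀ θ ∈ Icc (0 : ℝ) 1,
      CC (lv (gc a x θ + gc a' x' θ) (τ + τ')) *
          ((gh x - gh a) * (sin (π * gc a x θ) / π) + (gh x' - gh a') * (sin (π * gc a' x' θ) / π)) -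
        CC (lv (gc a x θ) τ) * ((gh x - gh a) * (sin (π * gc a x θ) / π)) +
        (gh x - gh a) * (μ - α * (gh a - g0) - α * (gh x - gh a) * θ) ≤ 0 := by
    intro θ hθ
    have m1 := gc_mem a x θ
    have m2 := gc_mem a' x' θ
    have h1 := hL _ _ (gc_mem_Icc ha hx hlt.le hθ.1 hθ.2) (gc_mem_uIcc ha' hx' hθ.1 hθ.2)
      (hone θ hθ) (hsum θ hθ) (hsum' θ hθ)
    rw [lv_add] at h1
    have e0 : gh (gc a x θ) - g0 = (gh a - g0) + (gh x - gh a) * θ := by
      rw [gh_gc]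
      ring
    rw [e0] at h1
    set c := CC (lv (gc a x θ + gc a' x' θ) (τ + τ'))
    set d := CC (lv (gc a x θ) τ)
    have s2 : 0 < sin (π * gc a' x' θ) :=
      sin_pos_of_pos_of_lt_pi (mul_pos hpi m2.1) (by nlinarith only [hpi, m2, m2.2])
    set p := sin (π * gc a x θ)
    set p' := sin (π * gc a' x' θ)
    have e : c * ((gh x - gh a) * (p / π) + (gh x' - gh a') * (p' / π)) -
        d * ((gh x - gh a) * (p / π)) +
          (gh x - gh a) * (μ - α * (gh a - g0) - α * (gh x - gh a) * θ) =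
        ((gh x' - gh a') * c * p' - (gh x - gh a) * (p * (1 * d - c)) +
          (gh x - gh a) * (π * (μ - α * ((gh a - g0) + (gh x - gh a) * θ)))) / π := by
      field_simp
      ring
    rw [e]
    apply div_nonpos_of_nonpos_of_nonneg _ hpi.le
    have h2 : (gh x' - gh a') * c * p' ≤ (gh x - gh a) * (p' * |c|) := by
      have h3 : (gh x' - gh a') * c ≤ (gh x - gh a) * |c| := by
        calc (gh x' - gh a') * c ≤ |(gh x' - gh a') * c| := le_abs_self _
          _ = |gh x' - gh a'| * |c| := abs_mul _ _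
          _ ≤ _ := mul_le_mul_of_nonneg_right hg (abs_nonneg _)
      calc (gh x' - gh a') * c * p' ≤ (gh x - gh a) * |c| * p' := mul_le_mul_of_nonneg_right h3 s2.le
        _ = _ := by ring
    have h4 := mul_le_mul_of_nonneg_left h1 hΔ.le
    linarith only [h2, h4]
  have hanti : F 1 ≤ F 0 := by
    have hc : ContinuousOn F (Icc 0 1) := fun θ hθ => (hder θ hθ).continuousAt.continuousWithinAt
    have := antitoneOn_of_deriv_nonpos (convex_Icc (0 : ℝ) 1) hc
      (fun θ hθ => by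
        rw [interior_Icc] at hθ
        exact (hder θ ⟨hθ.1.le, hθ.2.le⟩).differentiableAt.differentiableWithinAt) (by
      intro θ hθ
      rw [interior_Icc] at hθ
      rw [(hder θ ⟨hθ.1.le, hθ.2.le⟩).deriv]
      exact hneg θ ⟨hθ.1.le, hθ.2.le⟩)
    exact this ⟨le_rfl, zero_le_one⟩ ⟨zero_le_one, le_rfl⟩ zero_le_one
  simp only [hF, gc_one hx, gc_one hx', gc_zero ha, gc_zero ha'] at hanti
  rw [lv_add, lv_add]
  linarith only [hanti]

end MQ

end Pool.Agent.Work.MP_b30479_gtS.G2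

end
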