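import Pool.Agent.Work.MP_b30479_gt.TBS.G2.MLA
import Pool.Agent.Work.MP_b30479_gt.TBS.G2.MLT
import Pool.Agent.Work.MP_b30479_gt.TBS.G2.MPWall
import Pool.Agent.Work.MP_b30479_gt.TBS.G2.RMon

section

/-!
# The left ramps: monotonicity in the height of the partner
-/

namespace Pool.Agent.Work.MP_b30479_gtS.G2

open Real Set VOL NumIs

theorem HH_eq {a : ℝ} (b m : ℝ) (h0 : 0 < a) (h1 : a < 1) :
    HH a b m = LL (lv a b) + π * b + m * (π * a + YY (lv a b)) := by
  unfold HH
  rw [LL_lv _ h0 h1, YY_lv _ h0 h1]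
  ring

theorem hasDerivAt_lv_im (a b : ℝ) : HasDerivAt (fun b : ℝ => lv a b) Complex.I b := by
  unfold lv
  have h1 : HasDerivAt (fun b : ℝ => (b : ℂ) * Complex.I) (1 * Complex.I) b :=
    (Complex.ofRealCLM.hasDerivAt (x := b)).mul_const Complex.I
  rw [one_mul] at h1
  exact h1.const_add _

theorem hasDerivAt_HH {a b : ℝ} (m : ℝ) (h0 : 0 < a) (h1 : a < 1) :
    HasDerivAt (fun b => HH a b m) (SS (lv a b) + π - m * CC (lv a b)) b := by
  have e : (fun b => HH a b m) = fun b => LL (lv a b) + π * b + m * (π * a + YY (lv a b)) := by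
    funext b
    exact HH_eq b m h0 h1
  rw [e]
  have hg := hasDerivAt_lv_im a b
  have hs : lv a b ∈ strip := lv_strip b h0 h1
  have k1 := hasDerivAt_LL' hg (Or.inr hs)
  have k2 := hasDerivAt_YY hg (Or.inr hs)
  have k3 := (k1.add ((hasDerivAt_id' b).const_mul π)).add ((k2.const_add (π * a)).const_mul m)
  refine k3.congr_deriv ?_
  rw [Complex.I_re, Complex.I_im]
  ring

/-- on a vertical line `HH` increases above a point where the derivative is not negative -/
theorem HH_mono {a b0 b : ℝ} (m : ℝ) (h0 : 0 < a) (h1 : a < 1) (hb : b0 ≤ b)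
    (hc : cos (2 * π * a) + m * sin (2 * π * a) ≤ exp (2 * π * b0)) :
    HH a b0 m ≤ HH a b m := by
  have hpi := pi_pos
  have hmono : MonotoneOn (fun b => HH a b m) (Ici b0) := by
    apply monotoneOn_of_deriv_nonneg (convex_Ici b0)
    · exact fun z _ => (hasDerivAt_HH m h0 h1).continuousAt.continuousWithinAt
    · exact fun z _ => (hasDerivAt_HH m h0 h1).differentiableAt.differentiableWithinAt
    · intro z hz
      rw [interior_Ici] at hz
      rw [(hasDerivAt_HH m h0 h1).deriv]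
      have hp := cosh_sub_cos_pos (u := lv a z) (sin_ne_of_strip (lv_strip z h0 h1))
      unfold SS CC
      rw [lv_re, lv_im] at *
      have hz' : b0 ≤ z := le_of_lt hz
      have e1 : exp (2 * π * b0) ≤ exp (2 * π * z) :=
        exp_le_exp.2 (mul_le_mul_of_nonneg_left hz' (by positivity))
      have e2 : exp (2 * π * z) = cosh (2 * π * z) + sinh (2 * π * z) := (cosh_add_sinh _).symm
      have e3 : π * (sinh (2 * π * z) / (cosh (2 * π * z) - cos (2 * π * a))) + π -
          m * (π * (sin (2 * π * a) / (cosh (2 * π * z) - cos (2 * π * a)))) =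
          π * ((cosh (2 * π * z) + sinh (2 * π * z) - (cos (2 * π * a) + m * sin (2 * π * a))) /
            (cosh (2 * π * z) - cos (2 * π * a))) := by
        have hne := hp.ne'
        rw [show cosh (2 * π * z) + sinh (2 * π * z) - (cos (2 * π * a) + m * sin (2 * π * a)) =
          sinh (2 * π * z) + (cosh (2 * π * z) - cos (2 * π * a)) - m * sin (2 * π * a) by ring]
        generalize cosh (2 * π * z) - cos (2 * π * a) = D at hne hp ⊢
        field_simp
      rw [e3]
      apply mul_nonneg hpi.le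
      apply div_nonneg _ hp.le
      rw [← e2]
      linarith
  exact hmono self_mem_Ici hb hb

theorem lnA_one_sub (a b : ℝ) : lnA (1 - a) b = lnA a b := Num.A_one_sub a b

theorem lnB_one_sub (a b : ℝ) : lnB (1 - a) b = -lnB a b := Num.B_one_sub a b

theorem g0_neg (m : ℝ) : g0 (-m) = g0 m := by
  unfold g0
  rw [arctan_neg]
  ring_nf

/-- lower bound on a vertical line, real part above `1 / 2` -/
theorem HH_low' {a : ℝ} (b m : ℝ) (ha : 1 / 2 < a) (ha' : a < 1) :
    log (sin (2 * π * (1 - a))) + (2 * π * a - π) * m + g0 m ≤ HH a b m := by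
  have h := HH_low (a := 1 - a) b (-m) (by linarith) (by linarith)
  rw [g0_neg] at h
  unfold HH at *
  rw [lnA_one_sub, lnB_one_sub] at h
  linarith

end Pool.Agent.Work.MP_b30479_gtS.G2

end

section

/-!
# Sides at slope `0`: rows with three variables

`w` is the own hinge, `x` the other hinge, `T` the height of the own hinge; the height of the other
hinge is `K`.
-/

namespace Pool.Agent.Work.MP_b30479_gtS.G2

open Real Set VOL NumIs NumIs.E

namespace MF

/-! ### expressions: variables `w`, `x`, `T`; then `K`, `T + K` -/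

/-- factor of the height of the other hinge: `1` (`c = 0`) or `(X - x) / c` (thousandths) -/
def eTr (X : ℤ) : ℕ → E
  | 0 => q 1 1
  | c + 1 => mul (q 1000 (c + 1)) (sub (q X 1000) (var 1))

noncomputable def rTr (X : ℤ) (c : ℕ) (x : ℝ) : ℝ :=
  match c with
  | 0 => 1
  | c + 1 => 1000 / ((c : ℝ) + 1) * ((X : ℝ) / 1000 - x)

def eV (j : ℕ) (n e : ℤ) (K : E) : E :=
  lt K (lt (add (var 2) (var 3)) (sub (sub (add (mul E.pi (add (var 3) (mul (q n 10) (var 2))))
    (E.lnA (add (var 0) (var 1)) (var 4))) (mul (q j 1) (E.lnA (var 0) (var 2)))) (q e 1000)))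

def eM (K : E) : E :=
  sub (E.exp (mul (mul (q 2 1) E.pi) (add (var 2) K))) (cosPi (mul (q 2 1) (add (var 0) (var 1))))

def eW (j : ℕ) (n e : ℤ) : E :=
  sub (sub (add (mul E.pi (mul (q (n - 10) 10) (var 2)))
    (E.log (sinPi (mul (q 2 1) (sub (q 1 1) (add (var 0) (var 1)))))))
    (mul (q j 1) (E.lnA (var 0) (var 2)))) (q e 1000)

def kA (a X : ℤ) (c : ℕ) : E := mul (q a 10000) (eTr X c)
def kS (s X : ℤ) (c : ℕ) : E := mul (sub (q s 10000) (var 2)) (eTr X c)

/-- clauses of a row: `e` in thousandths, `a`, `s` in ten thousandths -/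
def row (j : ℕ) (n e a s X : ℤ) (c : ℕ) : List (List E) :=
  [[eV j n e (kA a X c), eM (kA a X c)], [eV j n e (kS s X c), eM (kS s X c)],
    [sub (add (var 0) (var 1)) (q 1 2), eW j n e]]

def bx (w0 w1 x0 x1 t0 t1 : ℤ) : List V := [V.of 10000 w0 w1 4, V.of 10000 x0 x1 4, V.of 10000 t0 t1 4]

/-- the side at slope `0` with the shift `n / 10 π` -/
noncomputable def fs (j : ℕ) (n : ℝ) (w x T K : ℝ) : ℝ :=
  π * (K + n / 10 * T) + lnA (w + x) (T + K) - j * lnA w T

variable {j c : ℕ} {n e a s X w0 w1 x0 x1 t0 t1 : ℤ} {w x T K : ℝ} {tr : Tr}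

theorem eTr_val (X : ℤ) (c : ℕ) (w x : ℝ) (t : List ℝ) : (eTr X c).val (w :: x :: t) = rTr X c x := by
  cases c
  · simp [eTr, rTr, val]
  · simp only [eTr, rTr, val, lkR_one]
    push_cast
    ring

theorem kA_val (a X : ℤ) (c : ℕ) (w x : ℝ) (t : List ℝ) :
    (kA a X c).val (w :: x :: t) = (a : ℝ) / 10000 * rTr X c x := by
  simp only [kA, val, eTr_val]
  push_cast
  ring

theorem kS_val (s X : ℤ) (c : ℕ) (w x T : ℝ) (t : List ℝ) :
    (kS s X c).val (w :: x :: T :: t) = ((s : ℝ) / 10000 - T) * rTr X c x := by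
  simp only [kS, val, eTr_val, lkR_succ, lkR_zero]
  push_cast
  ring

theorem eV_val {k : E} {κ : ℝ} (hk : k.val [w, x, T] = κ) :
    (eV j n e k).val [w, x, T] = fs j n w x T κ - (e : ℝ) / 1000 := by
  simp only [eV, val, lkR_zero, lkR_succ, List.cons_append, List.nil_append, hk, fs]
  push_cast
  ring

theorem eM_val {k : E} {κ : ℝ} (hk : k.val [w, x, T] = κ) (h : 0 < (eM k).val [w, x, T]) :
    cos (2 * π * (w + x)) + 0 * sin (2 * π * (w + x)) ≤ Real.exp (2 * π * (T + κ)) := by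
  simp only [eM, val, lkR_zero, lkR_succ, hk] at h
  push_cast at h
  have e1 : π * (2 / 1 * (w + x)) = 2 * π * (w + x) := by ring
  rw [e1, div_one] at h
  linarith only [h]

theorem eW_val (h : 0 < (eW j n e).val [w, x, T]) :
    (e : ℝ) / 1000 < π * ((n - 10) / 10 * T) + log (sin (2 * π * (1 - (w + x)))) - j * lnA w T := by
  simp only [eW, val, lkR_zero, lkR_succ] at h
  push_cast at h
  have e1 : π * (2 / 1 * (1 / 1 - (w + x))) = 2 * π * (1 - (w + x)) := by ring
  rw [e1, div_one] at h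
  linarith only [h]

theorem fs_mono (hw : 0 < w) (hx : 0 < x) (hs : w + x < 1) {κ : ℝ} (hk : κ ≤ K)
    (h : cos (2 * π * (w + x)) + 0 * sin (2 * π * (w + x)) ≤ Real.exp (2 * π * (T + κ))) :
    fs j n w x T κ ≤ fs j n w x T K := by
  have h1 := HH_mono (0 : ℝ) (by linarith only [hw, hx]) hs (show T + κ ≤ T + K by linarith only [hk]) h
  unfold HH at h1
  unfold fs
  linarith only [h1]

/-- **Soundness of a row.** -/
theorem row_of (h : runT (row j n e a s X c) tr (bx w0 w1 x0 x1 t0 t1) = true)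
    (hw : (w0 : ℝ) / 10000 ≤ w ∧ w ≤ (w1 : ℝ) / 10000)
    (hx : (x0 : ℝ) / 10000 ≤ x ∧ x ≤ (x1 : ℝ) / 10000)
    (hT : (t0 : ℝ) / 10000 ≤ T ∧ T ≤ (t1 : ℝ) / 10000) (hw' : 0 < w) (hx' : 0 < x)
    (hs : w + x < 1) (h1 : (a : ℝ) / 10000 * rTr X c x ≤ K)
    (h2 : ((s : ℝ) / 10000 - T) * rTr X c x ≤ K) :
    (e : ℝ) / 1000 < fs j n w x T K := by
  obtain ⟨cl, hcl, hp⟩ := runT3 h (by norm_num) (x := w) (y := x) (z := T) (by push_cast; exact hw.1)
    (by push_cast; exact hw.2) (by push_cast; exact hx.1) (by push_cast; exact hx.2)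
    (by push_cast; exact hT.1) (by push_cast; exact hT.2)
  simp only [row, List.mem_cons, List.not_mem_nil, or_false] at hcl
  rcases hcl with rfl | rfl | rfl
  · have g1 := hp _ List.mem_cons_self
    have g2 := hp _ (List.mem_cons_of_mem _ List.mem_cons_self)
    rw [eV_val (kA_val _ _ _ _ _ _)] at g1
    have g3 := fs_mono (j := j) (n := n) hw' hx' hs h1 (eM_val (kA_val _ _ _ _ _ _) g2)
    linarith only [g1, g3]
  · have g1 := hp _ List.mem_cons_self
    have g2 := hp _ (List.mem_cons_of_mem _ List.mem_cons_self)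
    rw [eV_val (kS_val _ _ _ _ _ _ _)] at g1
    have g3 := fs_mono (j := j) (n := n) hw' hx' hs h2 (eM_val (kS_val _ _ _ _ _ _ _) g2)
    linarith only [g1, g3]
  · have g1 := hp _ List.mem_cons_self
    have g2 := eW_val (hp _ (List.mem_cons_of_mem _ List.mem_cons_self))
    simp only [val, lkR_zero, lkR_succ] at g1
    push_cast at g1
    have g3 := HH_low' (a := w + x) (T + K) 0 (by linarith only [g1]) hs
    have g4 : g0 0 = 0 := by simp [g0]
    rw [g4] at g3
    unfold HH at g3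
    unfold fs
    linarith only [g2, g3]

/-! ### the side of a `2` at an end: variables `w`, `T` -/

def rowE (n e : ℤ) : List (List E) :=
  [[sub (sub (mul E.pi (mul (q n 10) (var 1))) (E.lnA (var 0) (var 1))) (q e 1000)]]

def bxE (w0 w1 t0 t1 : ℤ) : List V := [V.of 10000 w0 w1 4, V.of 10000 t0 t1 4]

theorem rowE_of (h : runT (rowE n e) tr (bxE w0 w1 t0 t1) = true)
    (hw : (w0 : ℝ) / 10000 ≤ w ∧ w ≤ (w1 : ℝ) / 10000)
    (hT : (t0 : ℝ) / 10000 ≤ T ∧ T ≤ (t1 : ℝ) / 10000) :
    (e : ℝ) / 1000 < π * (n / 10 * T) - lnA w T := by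
  obtain ⟨cl, hcl, hp⟩ := runT2 h (by norm_num) (x := w) (y := T) (by push_cast; exact hw.1)
    (by push_cast; exact hw.2) (by push_cast; exact hT.1) (by push_cast; exact hT.2)
  simp only [rowE, List.mem_cons, List.not_mem_nil, or_false] at hcl
  subst hcl
  have g1 := hp _ List.mem_cons_self
  simp only [val, lkR_zero, lkR_succ] at g1
  push_cast at g1
  linarith only [g1]

/-! ### the sides -/

theorem S1_fs (hw : 0 < w) (hx : 0 < x) (hs : w + x < 1) (n : ℝ) :
    S1 1 0 (lv w T) (lv x K) + n / 10 * π * T = fs 1 n w x T K := by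
  unfold S1 fs
  rw [lv_add, LL_lv _ (by linarith only [hw, hx]) hs, LL_lv _ hw (by linarith only [hx, hs]), lv_im]
  push_cast
  ring

theorem S2_fs (hw : 0 < w) (hx : 0 < x) (hs : w + x < 1) (n : ℝ) :
    S2 1 0 (lv w T) (lv x K) + (n + 10) / 10 * π * T = fs 2 n w x T K := by
  unfold S2 fs
  rw [lv_add, LL_lv _ (by linarith only [hw, hx]) hs, LL_lv _ hw (by linarith only [hx, hs]), lv_im, lv_im]
  push_cast
  ring

theorem S2E_fs (hw : 0 < w) (hs : w < 1) (n : ℝ) :
    S2 1 0 (lv w T) 0 + (n + 10) / 10 * π * T = π * (n / 10 * T) - lnA w T := by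
  unfold S2
  rw [add_zero, LL_lv _ hw hs, lv_im]
  simp only [Complex.zero_im, Complex.zero_re]
  ring

end MF

end Pool.Agent.Work.MP_b30479_gtS.G2

end

section

/-!
# The left ramps: rows with certificates

Everything is in the own frame of the region (digit `1` or `2`) whose side is estimated; `x`, `μ`:
position and slope of the own hinge, `y`, `k`: position and height of the other hinge.
-/

namespace Pool.Agent.Work.MP_b30479_gtS.G2

open Real Set VOL NumIs

namespace ML

/-- `Re ((1 + i μ) log (2 sin π x (1 + i μ)))` -/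
noncomputable def NN (x μ : ℝ) : ℝ := lnA x (x * μ) - μ * lnB x (x * μ)

/-- the side of a digit `j` with the shift `c` -/
noncomputable def sd (j : ℕ) (c x μ y k : ℝ) : ℝ :=
  HH (x + y) (x * μ + k) μ - j * (NN x μ + 2 * π * (x * μ)) + (c - π / j) * μ

/-- the side of a digit `2` at an end with the shift `c` -/
noncomputable def sE (c x μ : ℝ) : ℝ := -(NN x μ + 2 * π * (x * μ)) + (c - π / 2) * μ

theorem S1_sd {x μ y k : ℝ} (c : ℝ) (hx : 0 < x) (hy : 0 < y) (hs : x + y < 1) :
    S1 1 μ (lv x (x * μ)) (lv y k) + c * μ = sd 1 c x μ y k := by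
  unfold S1 sd HH NN
  rw [lv_add, LL_lv _ (by linarith only [hx, hy]) hs, LL_lv _ hx (by linarith only [hy, hs]), YY_lv _ (by linarith only [hx, hy]) hs,
    YY_lv _ hx (by linarith only [hy, hs]), lv_re, lv_im]
  push_cast
  ring

theorem S2_sd {x μ y k : ℝ} (c : ℝ) (hx : 0 < x) (hy : 0 < y) (hs : x + y < 1) :
    S2 1 μ (lv x (x * μ)) (lv y k) + c * μ = sd 2 c x μ y k := by
  unfold S2 sd HH NN
  rw [lv_add, LL_lv _ (by linarith only [hx, hy]) hs, LL_lv _ hx (by linarith only [hy, hs]), YY_lv _ (by linarith only [hx, hy]) hs,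
    YY_lv _ hx (by linarith only [hy, hs]), lv_re, lv_im, lv_re, lv_im]
  push_cast
  ring

theorem S2_sE {x μ : ℝ} (c : ℝ) (hx : 0 < x) (hs : x < 1) :
    S2 1 μ (lv x (x * μ)) 0 + c * μ = sE c x μ := by
  unfold S2 sE NN
  rw [add_zero, LL_lv _ hx hs, YY_lv _ hx hs, lv_re, lv_im]
  simp only [Complex.zero_im, Complex.zero_re]
  ring

/-! ### the expressions; variables `x μ y` -/

open E

/-- shift `p / 2 π + a / 1000 - b / 1000 x` -/
def cE (p a b : ℤ) : E := sub (add (mul (q p 2) E.pi) (q a 1000)) (mul (q b 1000) (var 0))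

/-- real shift -/
noncomputable def cR (p a b : ℤ) (x : ℝ) : ℝ := (p : ℝ) / 2 * π + (a : ℝ) / 1000 - (b : ℝ) / 1000 * x

/-- `s / 1000 - l / 1000 μ` -/
def kE (s l : ℤ) : E := sub (q s 1000) (mul (q l 1000) (var 1))

/-- the side with partner at height `k`; `3 = x μ`, `4 = x + y`, `5 = x μ + k` -/
def rF (j : ℕ) (c k : E) : E :=
  lt (mul (var 0) (var 1)) (lt (add (var 0) (var 2)) (lt (add (var 3) k)
   (add (add (sub (E.lnA (var 4) (var 5)) (mul (q j 1) (E.lnA (var 0) (var 3))))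
      (mul E.pi (sub k (mul (q (2 * j - 2) 1) (var 3)))))
    (mul (var 1) (add (add (sub (mul E.pi (var 2)) (E.lnB (var 4) (var 5)))
      (mul (q j 1) (E.lnB (var 0) (var 3)))) (sub c (mul (q 1 j) E.pi)))))))

/-- the condition of monotonicity -/
def rC (k : E) : E :=
  lt (mul (q 2 1) (add (var 0) (var 2)))
   (sub (E.exp (mul (mul (q 2 1) E.pi) (add (mul (var 0) (var 1)) k)))
     (add (cosPi (var 3)) (mul (var 1) (sinPi (var 3)))))

/-- vertical minimum, `x + y < 1 / 2` -/
def rL (j : ℕ) (c : E) : E :=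
  lt (mul (var 0) (var 1)) (lt (add (var 0) (var 2))
   (add (add (sub (E.log (sinPi (mul (q 2 1) (var 4)))) (mul (q j 1) (E.lnA (var 0) (var 3))))
      (sub (sub (mul (q 1 2) (E.log (add (q 1 1) (sq (var 1))))) (mul (var 1) (E.atan (var 1))))
        (mul E.pi (mul (q (2 * j - 2) 1) (var 3)))))
    (mul (var 1) (add (add (mul (mul (q 2 1) E.pi) (var 2)) (mul (q j 1) (E.lnB (var 0) (var 3))))
      (sub c (mul (q 1 j) E.pi))))))

/-- vertical minimum, `1 / 2 < x + y` -/
def rP (j : ℕ) (c : E) : E :=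
  lt (mul (var 0) (var 1)) (lt (add (var 0) (var 2))
   (add (add (sub (E.log (sinPi (mul (q 2 1) (sub (q 1 1) (var 4)))))
        (mul (q j 1) (E.lnA (var 0) (var 3))))
      (sub (sub (mul (q 1 2) (E.log (add (q 1 1) (sq (var 1))))) (mul (var 1) (E.atan (var 1))))
        (mul E.pi (mul (q (2 * j - 2) 1) (var 3)))))
    (mul (var 1) (add (add (mul E.pi (sub (mul (q 2 1) (var 2)) (q 1 1)))
      (mul (q j 1) (E.lnB (var 0) (var 3)))) (sub c (mul (q 1 j) E.pi))))))

/-- the clauses of a row: partner at height at least `a / 1000` and `s / 1000 - l / 1000 μ`, bound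
`e / 1000`, escape `y < ra / rb x` -/
def row (j : ℕ) (c : E) (e a s l ra : ℤ) (rb : ℕ) : List (List E) :=
  [[sub (rF j c (q a 1000)) (q e 1000), rC (q a 1000)],
   [sub (rF j c (kE s l)) (q e 1000), rC (kE s l)],
   [sub (q 1 2) (add (var 0) (var 2)), sub (rL j c) (q e 1000)],
   [sub (add (var 0) (var 2)) (q 1 2), sub (rP j c) (q e 1000)],
   [sub (mul (q ra rb) (var 0)) (var 2)]]

/-- box -/
def bx (x0 x1 m0 m1 y0 y1 : ℤ) : List V :=
  [V.of 10000 (10 * x0) (10 * x1) 4, V.of 10000 m0 m1 4, V.of 10000 (10 * y0) (10 * y1) 4]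

/-! ### soundness -/

variable {j rb : ℕ} {p ca cb e a s l ra x0 x1 m0 m1 y0 y1 : ℤ} {x μ y k c : ℝ} {T : Tr}

theorem rg {p : ℤ} {z : ℝ} (h : (p : ℝ) / 1000 ≤ z) :
    (((10 * p : ℤ) : ℝ)) / ((10000 : ℕ) : ℝ) ≤ z := by
  push_cast
  linarith only [h]

theorem rg' {p : ℤ} {z : ℝ} (h : z ≤ (p : ℝ) / 1000) :
    z ≤ (((10 * p : ℤ) : ℝ)) / ((10000 : ℕ) : ℝ) := by
  push_cast
  linarith only [h]

theorem rm {p : ℤ} {z : ℝ} (h : (p : ℝ) / 10000 ≤ z) : (p : ℝ) / ((10000 : ℕ) : ℝ) ≤ z := by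
  push_cast
  linarith only [h]

theorem rm' {p : ℤ} {z : ℝ} (h : z ≤ (p : ℝ) / 10000) : z ≤ (p : ℝ) / ((10000 : ℕ) : ℝ) := by
  push_cast
  linarith only [h]

theorem cE_val (x μ y : ℝ) (t : List ℝ) : (cE p ca cb).val (x :: μ :: y :: t) = cR p ca cb x := by
  simp only [cE, cR, val, lkR_zero]
  push_cast
  ring

theorem rC_val (kk : E) (x μ y κ : ℝ) (hk : kk.val [x, μ, y, 2 * (x + y)] = κ)
    (h : 0 < (rC kk).val [x, μ, y]) :
    cos (2 * π * (x + y)) + μ * sin (2 * π * (x + y)) ≤ Real.exp (2 * π * (x * μ + κ)) := by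
  unfold rC at h
  simp only [val, lkR_zero, lkR_succ, List.cons_append, List.nil_append] at h
  push_cast at h
  norm_num at h
  rw [hk] at h
  have e1 : π * (2 * (x + y)) = 2 * π * (x + y) := by ring
  rw [e1] at h
  linarith only [h]

theorem rF_val (kk : E) (x μ y κ : ℝ) (hj : j = 1 ∨ j = 2)
    (hk : kk.val [x, μ, y, x * μ, x + y] = κ) (hk' : kk.val [x, μ, y, x * μ, x + y, x * μ + κ] = κ) :
    (rF j (cE p ca cb) kk).val [x, μ, y] = sd j (cR p ca cb x) x μ y κ := by
  unfold rF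
  simp only [val, lkR_zero, lkR_succ, List.cons_append, List.nil_append, cE_val]
  rw [hk, hk']
  unfold sd HH NN
  rcases hj with rfl | rfl
  · push_cast
    ring
  · push_cast
    ring

theorem rL_val (x μ y : ℝ) (hj : j = 1 ∨ j = 2) :
    (rL j (cE p ca cb)).val [x, μ, y] = log (sin (2 * π * (x + y))) + 2 * π * (x + y) * μ + g0 μ -
      j * (NN x μ + 2 * π * (x * μ)) + (cR p ca cb x - π / j) * μ := by
  unfold rL
  simp only [val, lkR_zero, lkR_succ, List.cons_append, List.nil_append, cE_val]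
  have e1 : π * (((2 : ℤ) : ℝ) / ((1 : ℕ) : ℝ) * (x + y)) = 2 * π * (x + y) := by push_cast; ring
  rw [e1]
  unfold g0 NN
  rcases hj with rfl | rfl
  · push_cast
    rw [show (1 : ℝ) / 1 + μ ^ 2 = 1 + μ ^ 2 by norm_num]
    ring
  · push_cast
    rw [show (1 : ℝ) / 1 + μ ^ 2 = 1 + μ ^ 2 by norm_num]
    ring

theorem rP_val (x μ y : ℝ) (hj : j = 1 ∨ j = 2) :
    (rP j (cE p ca cb)).val [x, μ, y] = log (sin (2 * π * (1 - (x + y)))) +
      (2 * π * (x + y) - π) * μ + g0 μ -
      j * (NN x μ + 2 * π * (x * μ)) + (cR p ca cb x - π / j) * μ := by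
  unfold rP
  simp only [val, lkR_zero, lkR_succ, List.cons_append, List.nil_append, cE_val]
  have e1 : π * (((2 : ℤ) : ℝ) / ((1 : ℕ) : ℝ) * (((1 : ℤ) : ℝ) / ((1 : ℕ) : ℝ) - (x + y))) =
      2 * π * (1 - (x + y)) := by push_cast; ring
  rw [e1]
  unfold g0 NN
  rcases hj with rfl | rfl
  · push_cast
    rw [show (1 : ℝ) / 1 + μ ^ 2 = 1 + μ ^ 2 by norm_num]
    ring
  · push_cast
    rw [show (1 : ℝ) / 1 + μ ^ 2 = 1 + μ ^ 2 by norm_num]
    ring

theorem sd_mono (c : ℝ) (hx : 0 < x) (hy : 0 < y) (hs : x + y < 1) {κ : ℝ} (hk : κ ≤ k)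
    (h : cos (2 * π * (x + y)) + μ * sin (2 * π * (x + y)) ≤ Real.exp (2 * π * (x * μ + κ))) :
    sd j c x μ y κ ≤ sd j c x μ y k := by
  unfold sd
  have := HH_mono μ (by linarith only [hx, hy]) hs (show x * μ + κ ≤ x * μ + k by linarith only [hk]) h
  linarith only [this]

/-- **Soundness of a row.** -/
theorem row_of (hj : j = 1 ∨ j = 2) (h : runT (row j (cE p ca cb) e a s l ra rb) T
      (bx x0 x1 m0 m1 y0 y1) = true)
    (hx : (x0 : ℝ) / 1000 ≤ x ∧ x ≤ (x1 : ℝ) / 1000)
    (hm : (m0 : ℝ) / 10000 ≤ μ ∧ μ ≤ (m1 : ℝ) / 10000)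
    (hy : (y0 : ℝ) / 1000 ≤ y ∧ y ≤ (y1 : ℝ) / 1000)
    (h0 : 0 < x) (h0' : 0 < y) (hs : x + y < 1) (ha : (a : ℝ) / 1000 ≤ k)
    (hb : (s : ℝ) / 1000 - (l : ℝ) / 1000 * μ ≤ k) (hr : (ra : ℝ) / rb * x ≤ y) :
    (e : ℝ) / 1000 < sd j (cR p ca cb x) x μ y k := by
  obtain ⟨cl, hcl, hp⟩ := runT3 h (by norm_num) (rg hx.1) (rg' hx.2) (rm hm.1) (rm' hm.2)
    (rg hy.1) (rg' hy.2)
  simp only [row, List.mem_cons, List.not_mem_nil, or_false] at hcl
  rcases hcl with rfl | rfl | rfl | rfl | rfl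
  · have h1 := hp _ List.mem_cons_self
    have h2 := hp _ (List.mem_cons_of_mem _ List.mem_cons_self)
    rw [E.val, rF_val _ x μ y ((a : ℝ) / 1000) hj (by simp [val]) (by simp [val])] at h1
    have h3 := rC_val _ x μ y ((a : ℝ) / 1000) (by simp [val]) h2
    simp only [val] at h1
    push_cast at h1
    have h4 := sd_mono (j := j) (cR p ca cb x) h0 h0' hs ha h3
    linarith only [h1, h4]
  · have h1 := hp _ List.mem_cons_self
    have h2 := hp _ (List.mem_cons_of_mem _ List.mem_cons_self)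
    have ev : ∀ t : List ℝ, (kE s l).val (x :: μ :: t) = (s : ℝ) / 1000 - (l : ℝ) / 1000 * μ := by
      intro t
      simp only [kE, val, lkR_one]
      push_cast
      ring
    rw [E.val, rF_val _ x μ y _ hj (ev _) (ev _)] at h1
    have h3 := rC_val _ x μ y _ (ev _) h2
    simp only [val] at h1
    push_cast at h1
    have h4 := sd_mono (j := j) (cR p ca cb x) h0 h0' hs hb h3
    linarith only [h1, h4]
  · have h1 := hp _ List.mem_cons_self
    have h2 := hp _ (List.mem_cons_of_mem _ List.mem_cons_self)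
    rw [E.val, rL_val x μ y hj] at h2
    simp only [val, lkR_zero, lkR_succ] at h1 h2
    push_cast at h1 h2
    have h3 := HH_low (a := x + y) (x * μ + k) μ (by linarith only [h0, h0']) (by linarith only [h1])
    unfold sd
    linarith only [h2, h3]
  · have h1 := hp _ List.mem_cons_self
    have h2 := hp _ (List.mem_cons_of_mem _ List.mem_cons_self)
    rw [E.val, rP_val x μ y hj] at h2
    simp only [val, lkR_zero, lkR_succ] at h1 h2
    push_cast at h1 h2
    have h3 := HH_low' (a := x + y) (x * μ + k) μ (by linarith only [h1]) hs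
    unfold sd
    linarith only [h2, h3]
  · exfalso
    have h1 := hp _ List.mem_cons_self
    simp only [val, lkR_zero, lkR_succ] at h1
    linarith only [hr, h1]

end ML

end Pool.Agent.Work.MP_b30479_gtS.G2

end

section

/-!
# The left ramps: rows in the neighbourhood of the wall
-/

namespace Pool.Agent.Work.MP_b30479_gtS.G2

open Real Set VOL NumIs

namespace ML

theorem g0_nonpos (m : ℝ) : g0 m ≤ 0 := by
  have h := log_cos_le (m := m) (ψ := 0) (by linarith only [pi_pos]) (by linarith only [pi_pos])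
  rw [cos_zero, log_one] at h
  unfold g0
  linarith only [h]

theorem NN_le {x μ : ℝ} (h0 : 0 < x) (h1 : x ≤ 1 / 50) (hm : |μ| ≤ 132 / 100) :
    NN x μ ≤ log (2 * π * x) + g0 μ + 1 / 50 := HH_small h0 h1 hm

theorem log_two_pi_le {x : ℝ} (h0 : 0 < x) (h1 : x ≤ 1 / 50) :
    log (2 * π * x) ≤ log (π / 25) := by
  have := pi_pos
  apply log_le_log (by positivity)
  nlinarith only [h1, this]

/-- the sine on a short interval -/
theorem sin_short {x y : ℝ} (h0 : 0 < x) (h1 : x ≤ 1 / 50) (h2 : 0 ≤ y) (h3 : y ≤ 47 / 100) :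
    log (sin (π * (2 * (y + 1 / 50)))) - log (π / 25) ≤
      log (sin (π * (2 * (x + y)))) - log (2 * π * x) := by
  have hpi := pi_pos
  have a1 : 0 < sin (π * (2 * (y + 1 / 50))) :=
    sin_pos_of_pos_of_lt_pi (by positivity) (by nlinarith only [h0, hpi, h1, h3])
  have a2 : 0 < sin (π * (2 * (x + y))) :=
    sin_pos_of_pos_of_lt_pi (by positivity) (by nlinarith only [h0, hpi, h1, h3])
  have a3 : 0 ≤ sin (π * (2 * y)) := sin_nonneg_of_nonneg_of_le_pi (by positivity) (by nlinarith only [h0, hpi, h1, h3])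
  have m1 : π * (2 * y) ∈ Icc 0 π := ⟨by positivity, by nlinarith only [h0, hpi, h1, h3]⟩
  have m2 : π * (2 * (y + 1 / 50)) ∈ Icc 0 π := ⟨by positivity, by nlinarith only [h0, hpi, h1, h3]⟩
  have hc := strictConcaveOn_sin_Icc.concaveOn.2 m1 m2
    (show 0 ≤ 1 - 50 * x by linarith only [h1]) (show 0 ≤ 50 * x by linarith only [h0]) (by ring)
  simp only [smul_eq_mul] at hc
  have e : (1 - 50 * x) * (π * (2 * y)) + 50 * x * (π * (2 * (y + 1 / 50))) =
      π * (2 * (x + y)) := by ring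
  rw [e] at hc
  have h4 : 50 * x * sin (π * (2 * (y + 1 / 50))) ≤ sin (π * (2 * (x + y))) := by
    have := mul_nonneg (show 0 ≤ 1 - 50 * x by linarith only [h1]) a3
    linarith only [hc, this]
  rw [← log_div a1.ne' (by positivity), ← log_div a2.ne' (by positivity)]
  apply log_le_log (by positivity)
  rw [div_le_div_iff₀ (by positivity) (by positivity)]
  have h5 := mul_le_mul_of_nonneg_right h4 (show 0 ≤ π / 25 by positivity)
  linarith only [h5]

/-- the sine close to the wall -/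
theorem sin_close {x y : ℝ} (h0 : 0 < x) (h1 : x ≤ 1 / 50) (h2 : 7 / 9 * x ≤ y)
    (h3 : y ≤ 3 / 100) :
    53 / 100 ≤ log (sin (π * (2 * (x + y)))) - log (2 * π * x) := by
  have hpi := pi_pos
  have hpi4 : π < 3.1416 := pi_lt_d4
  have hs0 : 0 < x + y := by linarith only [h0, h2]
  have hs1 : x + y ≤ 1 / 20 := by linarith only [h1, h3]
  set z := π * (2 * (x + y)) with hz
  have hz0 : 0 < z := by positivity
  have hz1 : z ≤ 0.31416 := by
    rw [hz]
    nlinarith only [h3, hpi4, h0, h1, hpi, h2]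
  have a2 : 0 < sin z := sin_pos_of_pos_of_lt_pi hz0 (by linarith only [h0, h1, hz1, pi_gt_d4])
  have b1 := sin_gt_sub_cube hz0
  have b2 : z * (975 / 1000) ≤ sin z := by
    have h5 : z ^ 2 ≤ 0.31416 ^ 2 := pow_le_pow_left₀ hz0.le hz1 2
    have h6 : z ^ 3 / 6 = z * (z ^ 2 / 6) := by ring
    rw [h6] at b1
    norm_num at h5
    nlinarith only [hz1, h0, a2, b1, h1, hz0]
  have h7 : 2 * π * x * (17 / 10) ≤ sin z := by
    refine le_trans ?_ b2
    rw [hz]
    have : x * (17 / 10) ≤ (x + y) * (975 / 1000) := by linarith only [h0, h2]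
    nlinarith only [h0, hz0, h1, h2, hpi]
  rw [← log_div a2.ne' (by positivity)]
  have h8 : 17 / 10 ≤ sin z / (2 * π * x) := by
    rw [le_div_iff₀ (by positivity)]
    linarith only [h7]
  have h9 : log (17 / 10) ≤ log (sin z / (2 * π * x)) := log_le_log (by norm_num) h8
  have h10 : (53 : ℝ) / 100 ≤ log (17 / 10) := by
    rw [le_log_iff_exp_le (by norm_num)]
    have h11 := exp_one_lt_d9
    have h12 : exp (53 / 100) ^ 100 = exp 1 ^ 53 := by
      rw [← exp_nat_mul, ← exp_nat_mul]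
      norm_num
    by_contra hc
    push Not at hc
    have h13 : (17 / 10 : ℝ) ^ 100 < exp (53 / 100) ^ 100 :=
      pow_lt_pow_left₀ hc (by norm_num) (by norm_num)
    have h14 : exp 1 ^ 53 ≤ (2.7182818286 : ℝ) ^ 53 :=
      pow_le_pow_left₀ (exp_pos 1).le h11.le 53
    rw [h12] at h13
    have h15 : (2.7182818286 : ℝ) ^ 53 < (17 / 10 : ℝ) ^ 100 := by norm_num
    linarith only [h0, h1, h13, h14]
  linarith only [h9, h10]


/-! ### the expressions; variables `x μ y`, `x ≤ 1 / 50` -/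

open E

/-- `j (log (π / 25) + 1 / 50)` -/
def nW (j : ℕ) : E := mul (q j 1) (add (E.log (mul (q 1 25) E.pi)) (q 1 50))

def nS (j : ℕ) (c : E) : E :=
  add (sub (sub (E.log (sinPi (mul (q 2 1) (add (var 2) (q 1 50)))))
      (mul E.pi (mul (q (2 * j - 2) 1) (mul (var 0) (var 1))))) (nW j))
    (mul (var 1) (add (mul (mul (q 2 1) E.pi) (var 2)) (sub c (mul (q 1 j) E.pi))))

def n0 (c : E) : E :=
  add (q 51 100) (mul (var 1) (add (mul (mul (q 2 1) E.pi) (var 2)) (sub c E.pi)))

def nF (j : ℕ) (c k : E) : E :=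
  lt (mul (var 0) (var 1)) (lt (add (var 0) (var 2)) (lt (add (var 3) k)
   (add (sub (add (E.lnA (var 4) (var 5))
      (mul E.pi (sub k (mul (q (2 * j - 2) 1) (var 3))))) (nW j))
    (mul (var 1) (add (sub (mul E.pi (var 2)) (E.lnB (var 4) (var 5)))
      (sub c (mul (q 1 j) E.pi)))))))

def nP (j : ℕ) (c : E) : E :=
  add (sub (sub (E.log (sinPi (mul (q 2 1) (sub (q 1 1) (add (var 0) (var 2))))))
      (mul E.pi (mul (q (2 * j - 2) 1) (mul (var 0) (var 1))))) (nW j))
    (mul (var 1) (add (mul E.pi (sub (mul (q 2 1) (var 2)) (q 1 1))) (sub c (mul (q 1 j) E.pi))))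

/-- the clauses of a row at the wall -/
def rowN (j : ℕ) (c : E) (e a : ℤ) : List (List E) :=
  [[sub (q 47 100) (var 2), sub (nS j c) (q e 1000)],
   [sub (q 1 1) (q (j - 1) 1), sub (q 3 100) (var 2), sub (n0 c) (q e 1000)],
   [sub (nF j c (q a 1000)) (q e 1000), rC (q a 1000)],
   [sub (add (var 0) (var 2)) (q 1 2), sub (nP j c) (q e 1000)]]

variable {j : ℕ} {p ca cb e a m0 m1 y0 y1 : ℤ} {x μ y k c : ℝ} {T : Tr}

theorem nW_val (xs : List ℝ) : (nW j).val xs = j * (Real.log (π / 25) + 1 / 50) := by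
  simp only [nW, val]
  push_cast
  rw [show (1 : ℝ) / 25 * π = π / 25 by ring]
  ring

/-- the side in terms of a lower bound of `HH` near the wall -/
theorem sd_wall (hj : j = 1 ∨ j = 2) (h0 : 0 < x) (h1 : x ≤ 1 / 50) (hμ : |μ| ≤ 132 / 100)
    (c : ℝ) : HH (x + y) (x * μ + k) μ - j * (Real.log (π / 25) + 1 / 50) - j * (2 * π * (x * μ)) +
      (c - π / j) * μ ≤ sd j c x μ y k := by
  have h2 := NN_le h0 h1 hμ
  have h3 := log_two_pi_le h0 h1
  have h4 := g0_nonpos μ
  unfold sd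
  rcases hj with rfl | rfl
  · push_cast
    linarith only [h2, h3, h4]
  · push_cast
    linarith only [h2, h3, h4]

/-- **Soundness of a row at the wall.** -/
theorem rowN_of (hj : j = 1 ∨ j = 2) (h : runT (rowN j (cE p ca cb) e a) T
      (bx 0 20 m0 m1 y0 y1) = true) (h0 : 0 < x) (h1 : x ≤ 1 / 50) (hμ : |μ| ≤ 132 / 100)
    (hm : (m0 : ℝ) / 10000 ≤ μ ∧ μ ≤ (m1 : ℝ) / 10000)
    (hy : (y0 : ℝ) / 1000 ≤ y ∧ y ≤ (y1 : ℝ) / 1000)
    (h0' : 0 < y) (hs : x + y < 1) (ha : (a : ℝ) / 1000 ≤ k) (hr : j = 1 → 7 / 9 * x ≤ y) :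
    (e : ℝ) / 1000 < sd j (cR p ca cb x) x μ y k := by
  obtain ⟨cl, hcl, hp⟩ := runT3 h (by norm_num) (rg (p := 0) (z := x) (by push_cast; linarith only [h0]))
    (rg' (p := 20) (z := x) (by push_cast; linarith only [h1])) (rm hm.1) (rm' hm.2) (rg hy.1) (rg' hy.2)
  have hw := sd_wall (y := y) (k := k) hj h0 h1 hμ (cR p ca cb x)
  simp only [rowN, List.mem_cons, List.not_mem_nil, or_false] at hcl
  rcases hcl with rfl | rfl | rfl | rfl
  · have p1 := hp _ List.mem_cons_self
    have p2 := hp _ (List.mem_cons_of_mem _ List.mem_cons_self)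
    simp only [nS, val, lkR_zero, lkR_succ, cE_val, nW_val] at p1 p2
    push_cast at p1
    have h2 := NN_le h0 h1 hμ
    have h3 := log_two_pi_le h0 h1
    have h4 := g0_nonpos μ
    have h5 := sin_short h0 h1 h0'.le (by linarith only [p1])
    have h6 := HH_low (a := x + y) (x * μ + k) μ (by linarith only [h0, h0']) (by linarith only [h0, h1, p1])
    have e1 : 2 * π * (x + y) = π * (2 * (x + y)) := by ring
    rw [e1] at h6
    have e2 : π * (((2 : ℤ) : ℝ) / ((1 : ℕ) : ℝ) * (y + ((1 : ℤ) : ℝ) / ((50 : ℕ) : ℝ))) =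
        π * (2 * (y + 1 / 50)) := by push_cast; ring
    rw [e2] at p2
    unfold sd
    rcases hj with rfl | rfl
    · push_cast at p2 ⊢
      linarith only [h2, h5, h6, p2]
    · push_cast at p2 ⊢
      linarith only [h2, h3, h4, h5, h6, p2]
  · have p0 := hp _ List.mem_cons_self
    have p1 := hp _ (List.mem_cons_of_mem _ List.mem_cons_self)
    have p2 := hp _ (List.mem_cons_of_mem _ (List.mem_cons_of_mem _ List.mem_cons_self))
    simp only [n0, val, lkR_zero, lkR_succ, cE_val] at p0 p1 p2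
    rcases hj with rfl | rfl
    · push_cast at p1 p2
      have h2 := NN_le h0 h1 hμ
      have h5 := sin_close h0 h1 (hr rfl) (by linarith only [p1])
      have h6 := HH_low (a := x + y) (x * μ + k) μ (by linarith only [h0, h0']) (by linarith only [h0, h1, p1])
      have e1 : 2 * π * (x + y) = π * (2 * (x + y)) := by ring
      rw [e1] at h6
      unfold sd
      push_cast
      linarith only [p2, h2, h5, h6]
    · exfalso
      norm_num at p0
  · have p1 := hp _ List.mem_cons_self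
    have p2 := hp _ (List.mem_cons_of_mem _ List.mem_cons_self)
    simp only [nF, val, lkR_zero, lkR_succ, List.cons_append, List.nil_append, cE_val, nW_val] at p1
    have h3 := rC_val _ x μ y ((a : ℝ) / 1000) (by simp [val]) p2
    have h4 := sd_mono (j := j) (cR p ca cb x) h0 h0' hs ha h3
    have h7 := sd_wall (y := y) (k := (a : ℝ) / 1000) hj h0 h1 hμ (cR p ca cb x)
    unfold HH at h7
    rcases hj with rfl | rfl
    · push_cast at p1 h7 h4 ⊢
      linarith only [h4, p1, h7]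
    · push_cast at p1 h7 h4 ⊢
      linarith only [h4, h7, p1]
  · have p1 := hp _ List.mem_cons_self
    have p2 := hp _ (List.mem_cons_of_mem _ List.mem_cons_self)
    simp only [nP, val, lkR_zero, lkR_succ, cE_val, nW_val] at p1 p2
    push_cast at p1
    have h2 := NN_le h0 h1 hμ
    have h3 := log_two_pi_le h0 h1
    have h4 := g0_nonpos μ
    have h6 := HH_low' (a := x + y) (x * μ + k) μ (by linarith only [p1]) hs
    have e2 : π * (((2 : ℤ) : ℝ) / ((1 : ℕ) : ℝ) * (((1 : ℤ) : ℝ) / ((1 : ℕ) : ℝ) - (x + y))) =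
        2 * π * (1 - (x + y)) := by push_cast; ring
    rw [e2] at p2
    unfold sd
    rcases hj with rfl | rfl
    · push_cast at p2 ⊢
      linarith only [h2, h3, h6, p2]
    · push_cast at p2 ⊢
      linarith only [h2, h3, h4, h6, p2]

/-! ### the side of an end -/

/-- variables `x μ` -/
def eE (c : E) : E :=
  lt (mul (var 0) (var 1))
   (sub (mul (var 1) (sub (add (E.lnB (var 0) (var 2)) c) (mul (q 1 2) E.pi)))
     (add (E.lnA (var 0) (var 2)) (mul (mul (q 2 1) E.pi) (var 2))))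

def nE (c : E) : E :=
  sub (sub (mul (var 1) (sub c (mul (q 1 2) E.pi))) (mul (mul (q 2 1) E.pi)
    (mul (var 0) (var 1)))) (nW 1)

/-- shift, variables `x μ` -/
theorem cE_val2 (x μ : ℝ) (t : List ℝ) : (cE p ca cb).val (x :: μ :: t) = cR p ca cb x := by
  simp only [cE, cR, val, lkR_zero]
  push_cast
  ring

variable {x0 x1 : ℤ}

theorem rowE_of (h : runT [[sub (eE (cE p ca cb)) (q e 1000)]] T
      [V.of 10000 (10 * x0) (10 * x1) 4, V.of 10000 m0 m1 4] = true)
    (hx : (x0 : ℝ) / 1000 ≤ x ∧ x ≤ (x1 : ℝ) / 1000)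
    (hm : (m0 : ℝ) / 10000 ≤ μ ∧ μ ≤ (m1 : ℝ) / 10000) :
    (e : ℝ) / 1000 < sE (cR p ca cb x) x μ := by
  obtain ⟨cl, hcl, hp⟩ := runT2 h (by norm_num) (rg hx.1) (rg' hx.2) (rm hm.1) (rm' hm.2)
  simp only [List.mem_cons, List.not_mem_nil, or_false] at hcl
  subst hcl
  have p1 := hp _ List.mem_cons_self
  simp only [eE, val, lkR_zero, lkR_succ, List.cons_append, List.nil_append, cE_val2] at p1
  unfold sE NN
  push_cast at p1
  linarith only [p1]

theorem rowNE_of (h : runT [[sub (nE (cE p ca cb)) (q e 1000)]] T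
      [V.of 10000 (10 * 0) (10 * 20) 4, V.of 10000 m0 m1 4] = true)
    (h0 : 0 < x) (h1 : x ≤ 1 / 50) (hμ : |μ| ≤ 132 / 100)
    (hm : (m0 : ℝ) / 10000 ≤ μ ∧ μ ≤ (m1 : ℝ) / 10000) :
    (e : ℝ) / 1000 < sE (cR p ca cb x) x μ := by
  obtain ⟨cl, hcl, hp⟩ := runT2 h (by norm_num) (rg (p := 0) (z := x) (by push_cast; linarith only [h0]))
    (rg' (p := 20) (z := x) (by push_cast; linarith only [h1])) (rm hm.1) (rm' hm.2)
  simp only [List.mem_cons, List.not_mem_nil, or_false] at hcl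
  subst hcl
  have p1 := hp _ List.mem_cons_self
  simp only [nE, val, lkR_zero, lkR_succ, cE_val2, nW_val] at p1
  have h2 := NN_le h0 h1 hμ
  have h3 := log_two_pi_le h0 h1
  have h4 := g0_nonpos μ
  unfold sE
  push_cast at p1
  linarith only [h2, h3, h4, p1]

end ML

end Pool.Agent.Work.MP_b30479_gtS.G2

end

section

/-!
# The left ramp of the hinge at slot `2` of an inner digit `3`: rows with certificates

The side is the one of a digit `2` whose partner is the inner variable.  Variables `x`, `μ`: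
position and slope of the own hinge, `y`, `k`: position and height of the inner variable.
-/

namespace Pool.Agent.Work.MP_b30479_gtS.G2

open Real Set VOL NumIs

/-- on a vertical line `HH` decreases below a point where the derivative is not positive -/
theorem HH_anti {a b b1 : ℝ} (m : ℝ) (h0 : 0 < a) (h1 : a < 1) (hb : b ≤ b1)
    (hc : exp (2 * π * b1) ≤ cos (2 * π * a) + m * sin (2 * π * a)) :
    HH a b1 m ≤ HH a b m := by
  have hpi := pi_pos
  have hanti : AntitoneOn (fun b => HH a b m) (Iic b1) := by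
    apply antitoneOn_of_deriv_nonpos (convex_Iic b1)
    · exact fun z _ => (hasDerivAt_HH m h0 h1).continuousAt.continuousWithinAt
    · exact fun z _ => (hasDerivAt_HH m h0 h1).differentiableAt.differentiableWithinAt
    · intro z hz
      rw [interior_Iic] at hz
      rw [(hasDerivAt_HH m h0 h1).deriv]
      have hp := cosh_sub_cos_pos (u := lv a z) (sin_ne_of_strip (lv_strip z h0 h1))
      unfold SS CC
      rw [lv_re, lv_im] at *
      have hz' : z ≤ b1 := le_of_lt hz
      have e1 : exp (2 * π * z) ≤ exp (2 * π * b1) :=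
        exp_le_exp.2 (mul_le_mul_of_nonneg_left hz' (by positivity))
      have e2 : exp (2 * π * z) = cosh (2 * π * z) + sinh (2 * π * z) := (cosh_add_sinh _).symm
      have e3 : π * (sinh (2 * π * z) / (cosh (2 * π * z) - cos (2 * π * a))) + π -
          m * (π * (sin (2 * π * a) / (cosh (2 * π * z) - cos (2 * π * a)))) =
          π * ((cosh (2 * π * z) + sinh (2 * π * z) - (cos (2 * π * a) + m * sin (2 * π * a))) /
            (cosh (2 * π * z) - cos (2 * π * a))) := by
        have hne := hp.ne'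
        rw [show cosh (2 * π * z) + sinh (2 * π * z) - (cos (2 * π * a) + m * sin (2 * π * a)) =
          sinh (2 * π * z) + (cosh (2 * π * z) - cos (2 * π * a)) - m * sin (2 * π * a) by ring]
        generalize cosh (2 * π * z) - cos (2 * π * a) = D at hne hp ⊢
        field_simp
      rw [e3]
      apply mul_nonpos_of_nonneg_of_nonpos hpi.le
      apply div_nonpos_of_nonpos_of_nonneg _ hp.le
      rw [← e2]
      linarith only [hc, e1]
  exact hanti hb self_mem_Iic hb

namespace ML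

open E

/-- the condition of monotonicity below `k` -/
def rC' (k : E) : E :=
  lt (mul (q 2 1) (add (var 0) (var 2)))
   (sub (add (cosPi (var 3)) (mul (var 1) (sinPi (var 3))))
     (E.exp (mul (mul (q 2 1) E.pi) (add (mul (var 0) (var 1)) k))))

/-- the clauses of a row: partner at height between `ka` and `kb`, bound `e / 1000`, escape `F` -/
def rowS (c : E) (e : ℤ) (ka kb F : E) : List (List E) :=
  [[sub (rF 2 c ka) (q e 1000), rC ka],
   [sub (rF 2 c kb) (q e 1000), rC' kb],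
   [sub (q 1 2) (add (var 0) (var 2)), sub (rL 2 c) (q e 1000)],
   [sub (add (var 0) (var 2)) (q 1 2), sub (rP 2 c) (q e 1000)],
   [F, sub (var 2) (q 1 2)]]

/-- no escape -/
def fN0 : E := q (-1) 1

/-- height `a / 1000` -/
def kQ (a : ℤ) : E := q a 1000

/-- height `a / 1000 * 20 * (8 / 10 - y)` -/
def kR (a : ℤ) : E := mul (q (20 * a) 1000) (sub (q 8 10) (var 2))

/-- height `a / 1000 * 20 * y` -/
def kL (a : ℤ) : E := mul (q (20 * a) 1000) (var 2)

variable {p ca cb e m0 m1 x0 x1 y0 y1 : ℤ} {x μ y k κa κb : ℝ} {ka kb F : E} {T : Tr}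

theorem rC'_val (kk : E) (x μ y κ : ℝ) (hk : kk.val [x, μ, y, 2 * (x + y)] = κ)
    (h : 0 < (rC' kk).val [x, μ, y]) :
    Real.exp (2 * π * (x * μ + κ)) ≤ cos (2 * π * (x + y)) + μ * sin (2 * π * (x + y)) := by
  unfold rC' at h
  simp only [val, lkR_zero, lkR_succ, List.cons_append, List.nil_append] at h
  push_cast at h
  norm_num at h
  rw [hk] at h
  have e1 : π * (2 * (x + y)) = 2 * π * (x + y) := by ring
  rw [e1] at h
  linarith only [h]

theorem S2_sd0 {x μ y k : ℝ} (c : ℝ) (hx : 0 < x) (hy : 0 ≤ y) (hs : x + y < 1) :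
    S2 1 μ (lv x (x * μ)) (lv y k) + c * μ = sd 2 c x μ y k := by
  unfold S2 sd HH NN
  rw [lv_add, LL_lv _ (by linarith only [hx, hy]) hs, LL_lv _ hx (by linarith only [hy, hs]), YY_lv _ (by linarith only [hx, hy]) hs,
    YY_lv _ hx (by linarith only [hy, hs]), lv_re, lv_im, lv_re, lv_im]
  push_cast
  ring

theorem sd_mono0 {j : ℕ} (c : ℝ) (hx : 0 < x) (hy : 0 ≤ y) (hs : x + y < 1) {κ : ℝ} (hk : κ ≤ k)
    (h : cos (2 * π * (x + y)) + μ * sin (2 * π * (x + y)) ≤ Real.exp (2 * π * (x * μ + κ))) :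
    sd j c x μ y κ ≤ sd j c x μ y k := by
  unfold sd
  have := HH_mono μ (by linarith only [hx, hy]) hs (show x * μ + κ ≤ x * μ + k by linarith only [hk]) h
  linarith only [this]

theorem sd_anti {j : ℕ} (c : ℝ) (hx : 0 < x) (hy : 0 ≤ y) (hs : x + y < 1) {κ : ℝ} (hk : k ≤ κ)
    (h : Real.exp (2 * π * (x * μ + κ)) ≤ cos (2 * π * (x + y)) + μ * sin (2 * π * (x + y))) :
    sd j c x μ y κ ≤ sd j c x μ y k := by
  unfold sd
  have := HH_anti μ (by linarith only [hx, hy]) hs (show x * μ + k ≤ x * μ + κ by linarith only [hk]) h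
  linarith only [this]

/-- the expression `kk` is the function `κ` of `x μ y` -/
def IsK (kk : E) (x μ y κ : ℝ) : Prop := ∀ t : List ℝ, kk.val (x :: μ :: y :: t) = κ

theorem isK_Q (a : ℤ) (x μ y : ℝ) : IsK (kQ a) x μ y ((a : ℝ) / 1000) := by
  intro t
  simp only [kQ, val]
  push_cast
  rfl

theorem isK_R (a : ℤ) (x μ y : ℝ) : IsK (kR a) x μ y ((a : ℝ) / 1000 * (20 * (8 / 10 - y))) := by
  intro t
  simp only [kR, val, lkR_zero, lkR_succ]
  push_cast
  ring

theorem isK_L (a : ℤ) (x μ y : ℝ) : IsK (kL a) x μ y ((a : ℝ) / 1000 * (20 * y)) := by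
  intro t
  simp only [kL, val, lkR_zero, lkR_succ]
  push_cast
  ring

/-- **Soundness of a row.** -/
theorem rowS_of (h : runT (rowS (cE p ca cb) e ka kb F) T (bx x0 x1 m0 m1 y0 y1) = true)
    (hx : (x0 : ℝ) / 1000 ≤ x ∧ x ≤ (x1 : ℝ) / 1000)
    (hm : (m0 : ℝ) / 10000 ≤ μ ∧ μ ≤ (m1 : ℝ) / 10000)
    (hy : (y0 : ℝ) / 1000 ≤ y ∧ y ≤ (y1 : ℝ) / 1000)
    (h0 : 0 < x) (h0' : 0 ≤ y) (hs : x + y < 1) (ha : IsK ka x μ y κa) (hb : IsK kb x μ y κb)
    (hka : κa ≤ k) (hkb : k ≤ κb) :
    (e : ℝ) / 1000 < sd 2 (cR p ca cb x) x μ y k ∨ (0 < F.val [x, μ, y] ∧ 1 / 2 < y) := by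
  obtain ⟨cl, hcl, hp⟩ := runT3 h (by norm_num) (rg hx.1) (rg' hx.2) (rm hm.1) (rm' hm.2)
    (rg hy.1) (rg' hy.2)
  simp only [rowS, List.mem_cons, List.not_mem_nil, or_false] at hcl
  rcases hcl with rfl | rfl | rfl | rfl | rfl
  · left
    have h1 := hp _ List.mem_cons_self
    have h2 := hp _ (List.mem_cons_of_mem _ List.mem_cons_self)
    rw [E.val, rF_val _ x μ y κa (Or.inr rfl) (ha _) (ha _)] at h1
    have h3 := rC_val _ x μ y κa (ha _) h2
    simp only [val] at h1
    push_cast at h1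
    have h4 := sd_mono0 (j := 2) (cR p ca cb x) h0 h0' hs hka h3
    linarith only [h1, h4]
  · left
    have h1 := hp _ List.mem_cons_self
    have h2 := hp _ (List.mem_cons_of_mem _ List.mem_cons_self)
    rw [E.val, rF_val _ x μ y κb (Or.inr rfl) (hb _) (hb _)] at h1
    have h3 := rC'_val _ x μ y κb (hb _) h2
    simp only [val] at h1
    push_cast at h1
    have h4 := sd_anti (j := 2) (cR p ca cb x) h0 h0' hs hkb h3
    linarith only [h1, h4]
  · left
    have h1 := hp _ List.mem_cons_self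
    have h2 := hp _ (List.mem_cons_of_mem _ List.mem_cons_self)
    rw [E.val, rL_val x μ y (Or.inr rfl)] at h2
    simp only [val, lkR_zero, lkR_succ] at h1 h2
    push_cast at h1 h2
    have h3 := HH_low (a := x + y) (x * μ + k) μ (by linarith only [h0, h0']) (by linarith only [h1])
    unfold sd
    push_cast
    linarith only [h2, h3]
  · left
    have h1 := hp _ List.mem_cons_self
    have h2 := hp _ (List.mem_cons_of_mem _ List.mem_cons_self)
    rw [E.val, rP_val x μ y (Or.inr rfl)] at h2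
    simp only [val, lkR_zero, lkR_succ] at h1 h2
    push_cast at h1 h2
    have h3 := HH_low' (a := x + y) (x * μ + k) μ (by linarith only [h1]) hs
    unfold sd
    push_cast
    linarith only [h2, h3]
  · right
    have h1 := hp _ List.mem_cons_self
    have h2 := hp _ (List.mem_cons_of_mem _ List.mem_cons_self)
    simp only [val, lkR_zero, lkR_succ] at h2
    push_cast at h2
    exact ⟨h1, by linarith only [h2]⟩

/-- **Soundness of a row at the wall.** -/
theorem rowW_of {a : ℤ} (h : runT (rowN 2 (cE p ca cb) e a) T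
      (bx 0 20 m0 m1 y0 y1) = true) (h0 : 0 < x) (h1 : x ≤ 1 / 50) (hμ : |μ| ≤ 132 / 100)
    (hm : (m0 : ℝ) / 10000 ≤ μ ∧ μ ≤ (m1 : ℝ) / 10000)
    (hy : (y0 : ℝ) / 1000 ≤ y ∧ y ≤ (y1 : ℝ) / 1000)
    (h0' : 0 ≤ y) (hs : x + y < 1) (ha : (a : ℝ) / 1000 ≤ k) :
    (e : ℝ) / 1000 < sd 2 (cR p ca cb x) x μ y k := by
  obtain ⟨cl, hcl, hp⟩ := runT3 h (by norm_num) (rg (p := 0) (z := x) (by push_cast; linarith only [h0]))
    (rg' (p := 20) (z := x) (by push_cast; linarith only [h1])) (rm hm.1) (rm' hm.2) (rg hy.1) (rg' hy.2)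
  have hw := sd_wall (y := y) (k := k) (j := 2) (Or.inr rfl) h0 h1 hμ (cR p ca cb x)
  simp only [rowN, List.mem_cons, List.not_mem_nil, or_false] at hcl
  rcases hcl with rfl | rfl | rfl | rfl
  · have p1 := hp _ List.mem_cons_self
    have p2 := hp _ (List.mem_cons_of_mem _ List.mem_cons_self)
    simp only [nS, val, lkR_zero, lkR_succ, cE_val, nW_val] at p1 p2
    push_cast at p1
    have h2 := NN_le h0 h1 hμ
    have h3 := log_two_pi_le h0 h1
    have h4 := g0_nonpos μ
    have h5 := sin_short h0 h1 h0' (by linarith only [p1])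
    have h6 := HH_low (a := x + y) (x * μ + k) μ (by linarith only [h0, h0']) (by linarith only [h0, h1, p1])
    have e1 : 2 * π * (x + y) = π * (2 * (x + y)) := by ring
    rw [e1] at h6
    have e2 : π * (((2 : ℤ) : ℝ) / ((1 : ℕ) : ℝ) * (y + ((1 : ℤ) : ℝ) / ((50 : ℕ) : ℝ))) =
        π * (2 * (y + 1 / 50)) := by push_cast; ring
    rw [e2] at p2
    unfold sd
    push_cast at p2 ⊢
    linarith only [h2, h3, h4, h5, h6, p2]
  · have p0 := hp _ List.mem_cons_self
    exfalso
    simp only [val] at p0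
    norm_num at p0
  · have p1 := hp _ List.mem_cons_self
    have p2 := hp _ (List.mem_cons_of_mem _ List.mem_cons_self)
    simp only [nF, val, lkR_zero, lkR_succ, List.cons_append, List.nil_append, cE_val, nW_val] at p1
    have h3 := rC_val _ x μ y ((a : ℝ) / 1000) (by simp [val]) p2
    have h4 := sd_mono0 (j := 2) (cR p ca cb x) h0 h0' hs ha h3
    have h7 := sd_wall (y := y) (k := (a : ℝ) / 1000) (j := 2) (Or.inr rfl) h0 h1 hμ
      (cR p ca cb x)
    unfold HH at h7
    push_cast at p1 h7 h4 ⊢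
    linarith only [h4, h7, p1]
  · have p1 := hp _ List.mem_cons_self
    have p2 := hp _ (List.mem_cons_of_mem _ List.mem_cons_self)
    simp only [nP, val, lkR_zero, lkR_succ, cE_val, nW_val] at p1 p2
    push_cast at p1
    have h2 := NN_le h0 h1 hμ
    have h3 := log_two_pi_le h0 h1
    have h4 := g0_nonpos μ
    have h6 := HH_low' (a := x + y) (x * μ + k) μ (by linarith only [p1]) hs
    have e2 : π * (((2 : ℤ) : ℝ) / ((1 : ℕ) : ℝ) * (((1 : ℤ) : ℝ) / ((1 : ℕ) : ℝ) - (x + y))) =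
        2 * π * (1 - (x + y)) := by push_cast; ring
    rw [e2] at p2
    unfold sd
    push_cast at p2 ⊢
    linarith only [h2, h3, h4, h6, p2]

/-! ### the escape: first-order condition of the inner variable on its level part -/

/-- `SM 0 < 0` at height `a / 1000` of the inner variable, slot `0` hinge at most `um / 100`, height
of the slot `0` hinge at least `-Tm / 10000` -/
def fF (a um Tm : ℤ) : E :=
  lt (mul (var 0) (var 1)) (lt (add (var 0) (var 2))
   (sub (sub (add (E.log (mul (q 2 1) (sinPi (sub (var 2) (q um 100)))))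
        (E.lnA (var 2) (q a 1000))) (E.lnA (var 4) (add (var 3) (q a 1000))))
      (mul E.pi (sub (add (var 3) (q Tm 10000)) (q a 1000)))))

theorem fF_val (a um Tm : ℤ) (x μ y : ℝ) : (fF a um Tm).val [x, μ, y] =
    Real.log (2 * sin (π * (y - um / 100))) + NumIs.lnA y (a / 1000) - NumIs.lnA (x + y) (x * μ + a / 1000) -
      π * (x * μ + Tm / 10000 - a / 1000) := by
  unfold fF
  simp only [val, lkR_zero, lkR_succ, List.cons_append, List.nil_append]
  push_cast
  rw [show (2 : ℝ) / 1 = 2 by norm_num]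

theorem lnA_abs {x s t : ℝ} (h : |s| ≤ |t|) (hs : s ≠ 0 ∨ 0 < sin (π * x)) : NumIs.lnA x s ≤ NumIs.lnA x t := by
  unfold NumIs.lnA
  have h1 : sinh (π * s) ^ 2 ≤ sinh (π * t) ^ 2 := by
    rw [sq_le_sq, abs_sinh, abs_sinh, sinh_le_sinh, abs_mul, abs_mul]
    exact mul_le_mul_of_nonneg_left h (abs_nonneg _)
  have h2 : 0 < sin (π * x) ^ 2 + sinh (π * s) ^ 2 := by
    rcases hs with hs | hs
    · have : sinh (π * s) ≠ 0 := by
        rw [Ne, sinh_eq_zero]
        exact mul_ne_zero pi_pos.ne' hs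
      positivity
    · positivity
  apply div_le_div_of_nonneg_right _ (by norm_num)
  apply Real.log_le_log (by positivity)
  linarith only [h1]

theorem log_sin_le_lnA {x : ℝ} (t : ℝ) (h0 : 0 < x) (h1 : x < 1) :
    Real.log (2 * sin (π * x)) ≤ NumIs.lnA x t := by
  have hs : 0 < sin (π * x) := sin_pos_of_pos_of_lt_pi (by positivity) (by nlinarith only [h1, pi_pos])
  have e : Real.log (2 * sin (π * x)) = Real.log (4 * sin (π * x) ^ 2) / 2 := by
    rw [show 4 * sin (π * x) ^ 2 = (2 * sin (π * x)) ^ 2 by ring, Real.log_pow]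
    push_cast
    ring
  rw [e]
  unfold NumIs.lnA
  apply div_le_div_of_nonneg_right _ (by norm_num)
  apply Real.log_le_log (by positivity)
  nlinarith only [sq_nonneg (sinh (π * t))]

theorem sin_le_of_mid {z0 z : ℝ} (h0 : 0 ≤ z0) (h1 : z0 ≤ z) (h2 : z ≤ π - z0) (_ : z0 ≤ π / 2) :
    sin z0 ≤ sin z := by
  rcases le_total z (π / 2) with h | h
  · exact sin_le_sin_of_le_of_le_pi_div_two (by linarith only [h0, h1, h2, pi_pos]) h h1
  · rw [← sin_pi_sub z]
    exact sin_le_sin_of_le_of_le_pi_div_two (by linarith only [h0, h1, h2, pi_pos]) (by linarith only [h]) (by linarith only [h2])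

theorem SM_neg {u : ℂ} {a um Tm : ℤ} (hf : 0 < (fF a um Tm).val [x, μ, y])
    (hu0 : 7 / 100 ≤ u.re) (hu1 : u.re ≤ (um : ℝ) / 100) (hT : -((Tm : ℝ) / 10000) ≤ u.im)
    (hy0 : 1 / 4 ≤ y) (hy1 : y ≤ 3 / 4) (hum : (um : ℝ) / 100 < y)
    (h2 : 2 * y ≤ 107 / 100 + (um : ℝ) / 100) (h0 : 0 < x) (hs : x + y < 1)
    (ha : (a : ℝ) / 1000 ≤ k) (hab : |x * μ + k| ≤ |x * μ + (a : ℝ) / 1000|) :
    SM 0 u (lv y k) (lv x (x * μ)) < 0 := by
  have hpi := pi_pos
  rw [fF_val] at hf
  have k1 : NumIs.lnA (x + y) (x * μ + k) ≤ NumIs.lnA (x + y) (x * μ + a / 1000) :=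
    lnA_abs hab (Or.inr (sin_pos_of_pos_of_lt_pi (by positivity) (by nlinarith only [hs, hpi])))
  have k2 : HH y ((a : ℝ) / 1000) 0 ≤ HH y k 0 := by
    apply HH_mono 0 (by linarith only [hy0, h0, hs]) (by linarith only [h0, hs]) ha
    have : cos (2 * π * y) ≤ 0 := by
      apply cos_nonpos_of_pi_div_two_le_of_le <;> nlinarith only [hy0, hpi, hy1]
    have := exp_pos (2 * π * ((a : ℝ) / 1000))
    linarith
  unfold HH at k2
  have k3 : Real.log (2 * sin (π * (y - um / 100))) ≤ LL (lv y k - u) := by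
    have hst : lv y k - u ∈ strip := by
      constructor <;> rw [Complex.sub_re, lv_re] <;> linarith only [hu1, hum, hu0, hy0, h0, hs]
    have e : LL (lv y k - u) = NumIs.lnA (y - u.re) (k - u.im) := by
      rw [Num.LL_lnA hst, Complex.sub_re, Complex.sub_im, lv_re, lv_im]
    rw [e]
    refine le_trans ?_ (log_sin_le_lnA (k - u.im) (by linarith only [hu1, hum]) (by linarith only [hu0, hy0, h0, hs]))
    have h3 : 0 < sin (π * (y - um / 100)) :=
      sin_pos_of_pos_of_lt_pi (mul_pos hpi (by linarith only [hum])) (by nlinarith only [hpi, hu0, hu1, hy1])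
    apply Real.log_le_log (by positivity)
    apply mul_le_mul_of_nonneg_left _ (by norm_num)
    apply sin_le_of_mid
    · apply mul_nonneg hpi.le; linarith only [hum]
    · apply mul_le_mul_of_nonneg_left _ hpi.le; linarith only [hu1]
    · nlinarith only [hu0, hpi, h2]
    · nlinarith only [hu0, hpi, hu1, h2]
  have e1 : LL (lv y k + lv x (x * μ)) = NumIs.lnA (x + y) (x * μ + k) := by
    rw [add_comm (lv y k), lv_add, LL_lv _ (by linarith only [hy0, h0, hs]) hs]
  unfold SM
  rw [e1, LL_lv k (by linarith only [hy0, h0, hs]) (by linarith only [h0, hs]), lv_im, lv_im, zero_mul, add_zero]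
  have h4 : π * (-((Tm : ℝ) / 10000)) ≤ π * u.im := mul_le_mul_of_nonneg_left hT hpi.le
  linarith only [hf, k1, k2, k3, h4]

end ML

end Pool.Agent.Work.MP_b30479_gtS.G2

end
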