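import Pool.Agent.Work.MP_b30479_gt.TBS.G2.MLT
import Pool.Agent.Work.MP_b30479_gt.TBS.G2.MLA

section

/-!
# Flat parts: sums of the two sides at slope `0`, real inequalities

Sides of digits `1`, `2`, `2` at an end.
-/

namespace Pool.Agent.Work.MP_b30479_gtS.G2

open Real Set VOL NumIs NumIs.E

namespace MQ

variable {x v v' t k r s z : ℝ}

theorem LLlv (h0 : 0 < x) (h1 : x < 1) (t : ℝ) :
    LL (lv x t) = Real.log (4 * (sin (π * x) ^ 2 + sinh (π * t) ^ 2)) / 2 := by
  rw [LL_lv t h0 h1]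
  rfl

theorem LL_ge_sin (h0 : 0 < x) (h1 : x < 1) (t : ℝ) : Real.log (2 * sin (π * x)) ≤ LL (lv x t) := by
  have hs := sin_pi_pos h0 h1
  rw [LLlv h0 h1]
  have e : Real.log (2 * sin (π * x)) = Real.log ((2 * sin (π * x)) ^ 2) / 2 := by
    rw [Real.log_pow]; push_cast; ring
  rw [e]
  have : Real.log ((2 * sin (π * x)) ^ 2) ≤ Real.log (4 * (sin (π * x) ^ 2 + sinh (π * t) ^ 2)) := by
    apply Real.log_le_log (by positivity)
    nlinarith only [sq_nonneg (sinh (π * t))]
  linarith only [this]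

theorem LL_le_of {A H : ℝ} (h0 : 0 < x) (h1 : x < 1) (hA : sin (π * x) ^ 2 ≤ A)
    (hH : sinh (π * t) ^ 2 ≤ H) : LL (lv x t) ≤ Real.log (4 * (A + H)) / 2 := by
  have hs := sin_pi_pos h0 h1
  rw [LLlv h0 h1]
  have : Real.log (4 * (sin (π * x) ^ 2 + sinh (π * t) ^ 2)) ≤ Real.log (4 * (A + H)) := by
    apply Real.log_le_log (by positivity)
    linarith only [hA, hH]
  linarith only [this]

theorem LL_le_exp (h0 : 0 < x) (h1 : x < 1) (t : ℝ) :
    LL (lv x t) ≤ Real.log (exp (π * t) + exp (-(π * t))) := by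
  have hs := sin_pi_pos h0 h1
  rw [LLlv h0 h1]
  have e0 : 0 < exp (π * t) + exp (-(π * t)) := by positivity
  have e : Real.log (exp (π * t) + exp (-(π * t))) =
      Real.log ((exp (π * t) + exp (-(π * t))) ^ 2) / 2 := by
    rw [Real.log_pow]; push_cast; ring
  rw [e]
  have : Real.log (4 * (sin (π * x) ^ 2 + sinh (π * t) ^ 2)) ≤
      Real.log ((exp (π * t) + exp (-(π * t))) ^ 2) := by
    apply Real.log_le_log (by positivity)
    have h2 : exp (π * t) + exp (-(π * t)) = 2 * cosh (π * t) := by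
      rw [Real.cosh_eq]; ring
    rw [h2]
    have h3 := Real.cosh_sq (π * t)
    have h4 := Real.sin_sq_le_one (π * x)
    nlinarith only [h3, h4]
  linarith only [this]

theorem sinh_sq_le' {a H : ℝ} (h0 : |t| ≤ a) (h : sinh (π * a) ^ 2 ≤ H) : sinh (π * t) ^ 2 ≤ H := by
  rw [sinh_sq_abs t]
  exact (sinh_sq_le (abs_nonneg t) h0).trans h

theorem sum_pos {κ A B c : ℝ} (hB : 0 < B) (hc : exp (-κ) ≤ c) (h : c * B < A) :
    0 < κ + Real.log A - Real.log B := by
  have hc0 : 0 < c := (exp_pos _).trans_le hc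
  have h1 : Real.log (c * B) < Real.log A := Real.log_lt_log (by positivity) h
  rw [Real.log_mul hc0.ne' hB.ne'] at h1
  have h2 : -κ ≤ Real.log c := by
    rw [Real.le_log_iff_exp_le hc0]
    exact hc
  linarith only [h1, h2]

/-- `exp (π a) ≤ c` from a numerical check -/
theorem exp_le {n c : ℤ} {d e : ℕ} (h : chk [sub (q c e) (E.exp (mul pi (q n d)))] 1 [] = true)
    {κ : ℝ} (hκ : -κ ≤ π * ((n : ℝ) / d)) : exp (-κ) ≤ (c : ℝ) / e := by
  have h6 := chk0 h
  simp only [val] at h6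
  exact (exp_le_exp.2 hκ).trans (by linarith only [h6])

theorem sinh_le_c {n c : ℤ} {d e : ℕ}
    (h : chk [sub (q c e) (sq (E.sinh (mul pi (q n d))))] 1 [] = true) :
    sinh (π * ((n : ℝ) / d)) ^ 2 ≤ (c : ℝ) / e := by
  have h6 := chk0 h
  simp only [val] at h6
  linarith only [h6]

/-! ### lower bounds on the flat parts -/

/-- variables `x`, `v`, `v'` -/
def eA (c H : ℤ) : E :=
  sub (mul (sinPi (add (var 0) (var 1))) (sinPi (add (var 0) (var 2))))
    (mul (q c 10000) (add (sq (sinPi (var 0))) (q H 10000)))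

/-- variables `x`, `v` -/
def eB (c H : ℤ) : E :=
  sub (sinPi (add (var 0) (var 1))) (mul (q c 10000) (add (sq (sinPi (var 0))) (q H 10000)))

theorem cA : runT [[eA 10820 600]] (.z .a .a)
    [V.of 100 15 19 4, V.of 100 16 36 4, V.of 100 13 60 4] = true := by decide +kernel

theorem cB : runT [[eB 18730 373]] .a [V.of 100 14 20 4, V.of 100 13 51 4] = true := by
  decide +kernel

theorem cB' : runT [[eB 22540 507]] .a [V.of 100 14 15 4, V.of 100 15 64 4] = true := by
  decide +kernel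

/-- **`1 | 1` next to a ring, `x ≤ .19`.** -/
theorem flat_11Z (hx0 : 15 / 100 ≤ x) (hx1 : x ≤ 19 / 100) (hv0 : 16 / 100 ≤ v)
    (hv1 : v ≤ 36 / 100) (hv0' : 13 / 100 ≤ v') (hv1' : v' ≤ 60 / 100) (ht : |t| ≤ 77 / 1000)
    (hk : -(25 / 1000) ≤ k + r) :
    0 < π * k + LL (lv (x + v) (t + k)) - LL (lv x t) +
      (π * r + LL (lv (x + v') (-t + r)) - LL (lv x (-t))) := by
  obtain ⟨c, hc, hpos⟩ := runT3 cA (by norm_num) (x := x) (y := v) (z := v') (by push_cast; linarith only [hx0])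
    (by push_cast; linarith only [hx1]) (by push_cast; linarith only [hv0]) (by push_cast; linarith only [hv1])
    (by push_cast; linarith only [hv0']) (by push_cast; linarith only [hv1'])
  simp only [List.mem_cons, List.not_mem_nil, or_false] at hc
  subst hc
  have h1 := hpos _ List.mem_cons_self
  simp only [eA, val, lkR_zero, lkR_succ] at h1
  push_cast at h1
  have hp := pi_pos
  have hH : sinh (π * t) ^ 2 ≤ 600 / 10000 := by
    have h2 := sinh_le_c (n := 77) (c := 600) (d := 1000) (e := 10000) (by decide +kernel)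
    push_cast at h2
    exact sinh_sq_le' ht h2
  have hE : exp (-(π * (k + r))) ≤ 10820 / 10000 := by
    have := exp_le (n := 25) (c := 10820) (d := 1000) (e := 10000) (by decide +kernel)
      (κ := π * (k + r)) (by push_cast; nlinarith only [hk, hp])
    push_cast at this
    exact this
  have s1 := sin_pi_pos (u := x + v) (by linarith only [hx0, hv0]) (by linarith only [hx1, hv1])
  have s2 := sin_pi_pos (u := x + v') (by linarith only [hx0, hv0']) (by linarith only [hx1, hv1'])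
  have s3 := sin_pi_pos (u := x) (by linarith only [hx0]) (by linarith only [hx1])
  have key := sum_pos (κ := π * (k + r)) (A := sin (π * (x + v)) * sin (π * (x + v')))
    (B := sin (π * x) ^ 2 + sinh (π * t) ^ 2) (by positivity) hE (by nlinarith only [h1, hH])
  have g1 := LL_ge_sin (x := x + v) (by linarith only [hx0, hv0]) (by linarith only [hx1, hv1]) (t + k)
  have g2 := LL_ge_sin (x := x + v') (by linarith only [hx0, hv0']) (by linarith only [hx1, hv1']) (-t + r)
  have g3 := LLlv (x := x) (by linarith only [hx0]) (by linarith only [hx1]) t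
  have g4 := LLlv (x := x) (by linarith only [hx0]) (by linarith only [hx1]) (-t)
  have e1 : sinh (π * -t) ^ 2 = sinh (π * t) ^ 2 := by rw [mul_neg, sinh_neg, neg_sq]
  rw [e1] at g4
  have hB : 0 < sin (π * x) ^ 2 + sinh (π * t) ^ 2 := by positivity
  rw [Real.log_mul (by norm_num) hB.ne'] at g3 g4
  rw [Real.log_mul (by norm_num) s1.ne'] at g1
  rw [Real.log_mul (by norm_num) s2.ne'] at g2
  rw [Real.log_mul s1.ne' s2.ne'] at key
  have e4 : Real.log 4 = 2 * Real.log 2 := by
    rw [show (4 : ℝ) = 2 ^ 2 by norm_num, Real.log_pow]; push_cast; ring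
  rw [e4] at g3 g4
  rw [g3, g4]
  linarith only [key, g1, g2]

/-- the side of a `2` at an end and of the digit `1` next to it -/
theorem flat_E_core {c H : ℝ} (hx0 : 0 < x) (hv : 0 < v) (hs : x + v < 1)
    (hH : sinh (π * t) ^ 2 ≤ H) (hE : exp (-(π * (t + k))) ≤ c)
    (h : 2 * c * (sin (π * x) ^ 2 + H) < sin (π * (x + v))) :
    0 < π * k + LL (lv (x + v) (t + k)) - LL (lv x t) + (-(π * -t) - LL (lv x (-t))) := by
  have s1 := sin_pi_pos (u := x + v) (by linarith only [hx0, hv]) hs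
  have s3 := sin_pi_pos (u := x) hx0 (by linarith only [hv, hs])
  have hc : 0 < c := (exp_pos _).trans_le hE
  have hB : 0 < sin (π * x) ^ 2 + sinh (π * t) ^ 2 := by positivity
  have key := sum_pos (κ := π * (t + k)) (A := sin (π * (x + v)))
    (B := 2 * (sin (π * x) ^ 2 + sinh (π * t) ^ 2)) (by positivity) hE (by
      have : c * (2 * (sin (π * x) ^ 2 + sinh (π * t) ^ 2)) ≤ 2 * c * (sin (π * x) ^ 2 + H) := by
        have := mul_le_mul_of_nonneg_left hH hc.le
        linarith only [this]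
      linarith only [h, this])
  have g1 := LL_ge_sin (x := x + v) (by linarith only [hx0, hv]) hs (t + k)
  have g3 := LLlv (x := x) hx0 (by linarith only [hv, hs]) t
  have g4 := LLlv (x := x) hx0 (by linarith only [hv, hs]) (-t)
  have e1 : sinh (π * -t) ^ 2 = sinh (π * t) ^ 2 := by rw [mul_neg, sinh_neg, neg_sq]
  rw [e1] at g4
  rw [Real.log_mul (by norm_num) hB.ne'] at g3 g4 key
  rw [Real.log_mul (by norm_num) s1.ne'] at g1
  have e4 : Real.log 4 = 2 * Real.log 2 := by
    rw [show (4 : ℝ) = 2 ^ 2 by norm_num, Real.log_pow]; push_cast; ring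
  rw [e4] at g3 g4
  rw [g3, g4]
  linarith only [key, g1]

/-- **`1 | 2` at an end, other neighbour not a `1`, `x ≤ .20`.** -/
theorem flat_E (hx0 : 14 / 100 ≤ x) (hx1 : x ≤ 20 / 100) (hv0 : 13 / 100 ≤ v)
    (hv1 : v ≤ 51 / 100) (ht : |t| ≤ 61 / 1000) (hk : 21 / 1000 ≤ t + k) :
    0 < π * k + LL (lv (x + v) (t + k)) - LL (lv x t) + (-(π * -t) - LL (lv x (-t))) := by
  obtain ⟨c, hc, hpos⟩ := runT2 cB (by norm_num) (x := x) (y := v) (by push_cast; linarith only [hx0])
    (by push_cast; linarith only [hx1]) (by push_cast; linarith only [hv0]) (by push_cast; linarith only [hv1])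
  simp only [List.mem_cons, List.not_mem_nil, or_false] at hc
  subst hc
  have h1 := hpos _ List.mem_cons_self
  simp only [eB, val, lkR_zero, lkR_succ] at h1
  push_cast at h1
  have hp := pi_pos
  have h2 := sinh_le_c (n := 61) (c := 373) (d := 1000) (e := 10000) (by decide +kernel)
  have h3 := exp_le (n := -21) (c := 9365) (d := 1000) (e := 10000) (by decide +kernel)
      (κ := π * (t + k)) (by push_cast; nlinarith only [hk, hp])
  push_cast at h2 h3
  exact flat_E_core (c := 9365 / 10000) (H := 373 / 10000) (by linarith only [hx0]) (by linarith only [hv0])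
    (by linarith only [hx1, hv1]) (sinh_sq_le' ht h2) h3 (by linarith only [h1])

/-- **`1 | 2` at an end, other neighbour a `1`, `x ≤ .15`.** -/
theorem flat_E1 (hx0 : 14 / 100 ≤ x) (hx1 : x ≤ 15 / 100) (hv0 : 15 / 100 ≤ v)
    (hv1 : v ≤ 64 / 100) (ht : |t| ≤ 71 / 1000) (hk : -(38 / 1000) ≤ t + k) :
    0 < π * k + LL (lv (x + v) (t + k)) - LL (lv x t) + (-(π * -t) - LL (lv x (-t))) := by
  obtain ⟨c, hc, hpos⟩ := runT2 cB' (by norm_num) (x := x) (y := v) (by push_cast; linarith only [hx0])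
    (by push_cast; linarith only [hx1]) (by push_cast; linarith only [hv0]) (by push_cast; linarith only [hv1])
  simp only [List.mem_cons, List.not_mem_nil, or_false] at hc
  subst hc
  have h1 := hpos _ List.mem_cons_self
  simp only [eB, val, lkR_zero, lkR_succ] at h1
  push_cast at h1
  have hp := pi_pos
  have h2 := sinh_le_c (n := 71) (c := 507) (d := 1000) (e := 10000) (by decide +kernel)
  have h3 := exp_le (n := 38) (c := 11270) (d := 1000) (e := 10000) (by decide +kernel)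
      (κ := π * (t + k)) (by push_cast; nlinarith only [hk, hp])
  push_cast at h2 h3
  exact flat_E_core (c := 11270 / 10000) (H := 507 / 10000) (by linarith only [hx0]) (by linarith only [hv0])
    (by linarith only [hx1, hv1]) (sinh_sq_le' ht h2) h3 (by linarith only [h1])

/-! ### sums -/

theorem sin_sq_le_955 (h0 : 90 / 100 ≤ s) (h1 : s ≤ 1) : sin (π * s) ^ 2 ≤ 955 / 10000 := by
  have hp := pi_pos
  have h2 : sin (π * s) = sin (π * (1 - s)) := by
    rw [show π * (1 - s) = π - π * s by ring, sin_pi_sub]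
  have h3 : 0 ≤ sin (π * (1 - s)) := sin_nonneg_of_nonneg_of_le_pi (by nlinarith only [h1, hp]) (by nlinarith only [hp, h0])
  have h4 : sin (π * (1 - s)) ≤ sin (π * (1 / 10)) :=
    sin_le_sin_of_le_of_le_pi_div_two (by nlinarith only [hp, h1]) (by nlinarith only [hp]) (by nlinarith only [h0, hp])
  have h5 := chk0 (e := sub (q 955 10000) (sq (sinPi (q 1 10)))) (by decide +kernel)
  simp only [val] at h5
  push_cast at h5
  rw [h2]
  nlinarith only [h5, h3, h4]

/-- `sin` is large between `.45` and `x1` -/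
theorem sin_ge_of {x1 c : ℝ} (h0 : 45 / 100 ≤ x) (h1 : x ≤ x1) (hx1 : x1 ≤ 1)
    (h2 : c ≤ sin (π * (45 / 100))) (h3 : c ≤ sin (π * x1)) : c ≤ sin (π * x) := by
  have hp := pi_pos
  rcases le_total x (1 / 2) with h | h
  · exact h2.trans (sin_le_sin_of_le_of_le_pi_div_two (by nlinarith only [hp]) (by nlinarith only [hp, h]) (by nlinarith only [h0, hp]))
  · have e : ∀ y, sin (π * y) = sin (π * (1 - y)) := fun y => by
      rw [show π * (1 - y) = π - π * y by ring, sin_pi_sub]
    rw [e x]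
    rw [e x1] at h3
    exact h3.trans (sin_le_sin_of_le_of_le_pi_div_two (by nlinarith only [hp, hx1]) (by nlinarith only [hp, h]) (by nlinarith only [h1, hp]))

/-- core of the sum rows at a hinge `1 | 1` -/
theorem flat_sum_core {H1 H2 c1 S4 : ℝ} (hx0 : 0 < x) (hx1 : x < 1) (hs0 : 90 / 100 ≤ x + v)
    (hs1 : x + v < 1) (hv' : 0 < v') (hs' : x + v' < 1)
    (hc : k + r ≤ c1) (hH1 : sinh (π * (t + k)) ^ 2 ≤ H1) (hH2 : sinh (π * (-t + r)) ^ 2 ≤ H2)
    (hS : S4 ≤ sin (π * x)) (hS0 : 0 < S4)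
    (hnum : Real.exp (2 * (π * c1)) * ((955 / 10000 + H1) * (1 + H2)) < (S4 ^ 2) ^ 2) :
    π * k + LL (lv (x + v) (t + k)) - LL (lv x t) +
      (π * r + LL (lv (x + v') (-t + r)) - LL (lv x (-t))) < 0 := by
  have hp := pi_pos
  have hH1' : 0 ≤ H1 := (sq_nonneg _).trans hH1
  have hH2' : 0 ≤ H2 := (sq_nonneg _).trans hH2
  have g1 := LL_le_of (x := x + v) (by linarith only [hs0, hs1]) hs1 (sin_sq_le_955 hs0 hs1.le) hH1
  have g2 := LL_le_of (x := x + v') (by linarith only [hx0, hv']) hs' (Real.sin_sq_le_one _) hH2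
  have g3 := LL_ge_sin (x := x) hx0 hx1 t
  have g4 := LL_ge_sin (x := x) hx0 hx1 (-t)
  have g5 : Real.log (2 * S4) ≤ Real.log (2 * sin (π * x)) :=
    Real.log_le_log (by positivity) (by linarith only [hS])
  have hn := Real.log_lt_log (by positivity) hnum
  rw [Real.log_mul (exp_pos _).ne' (by positivity), Real.log_exp, Real.log_mul (by positivity)
    (by positivity), Real.log_pow, Real.log_pow] at hn
  rw [Real.log_mul (by norm_num) (by positivity)] at g1 g2 g5
  have e4 : Real.log 4 = 2 * Real.log 2 := by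
    rw [show (4 : ℝ) = 2 ^ 2 by norm_num, Real.log_pow]; push_cast; ring
  rw [e4] at g1 g2
  push_cast at hn
  have h9 : π * (k + r) ≤ π * c1 := mul_le_mul_of_nonneg_left hc hp.le
  linarith only [g1, g2, g3, g4, g5, hn, h9]

/-- numerical check of a sum row: `c1`, `a1`, `b1` in thousandths, `x1` in hundredths -/
def okF (c1 a1 b1 x1 : ℤ) : Bool :=
  chk [sub (sq (sq (sinPi (q x1 100))))
    (mul (E.exp (mul (q 2 1) (mul pi (q c1 1000))))
      (mul (add (q 955 10000) (sq (E.sinh (mul pi (q a1 1000)))))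
        (add (q 1 1) (sq (E.sinh (mul pi (q b1 1000)))))))] 1 [] &&
  chk [sub (sinPi (q 45 100)) (sinPi (q x1 100))] 1 []

theorem flat_sum {c1 a1 b1 x1 : ℤ} (hok : okF c1 a1 b1 x1 = true) (hx0 : 45 / 100 ≤ x)
    (hx1 : x ≤ (x1 : ℝ) / 100) (hx2 : (x1 : ℝ) / 100 ≤ 1 - 1 / 100) (hs0 : 90 / 100 ≤ x + v)
    (hs1 : x + v < 1) (hv' : 0 < v') (hs' : x + v' < 1) (hc : k + r ≤ (c1 : ℝ) / 1000)
    (ha : |t + k| ≤ (a1 : ℝ) / 1000) (hb : |-t + r| ≤ (b1 : ℝ) / 1000) :
    π * k + LL (lv (x + v) (t + k)) - LL (lv x t) +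
      (π * r + LL (lv (x + v') (-t + r)) - LL (lv x (-t))) < 0 := by
  simp only [okF, Bool.and_eq_true] at hok
  have h1 := chk0 hok.1
  have h2 := chk0 hok.2
  simp only [val] at h1 h2
  push_cast at h1 h2
  have hpos : 0 < sin (π * ((x1 : ℝ) / 100)) := sin_pi_pos (by linarith only [hx0, hx1, hs0, hs1]) (by linarith only [hx2, hs0, hs1])
  exact flat_sum_core (c1 := (c1 : ℝ) / 1000) (S4 := sin (π * ((x1 : ℝ) / 100))) (by linarith only [hx0, hs0, hs1])
    (by linarith only [hx1, hx2, hs0, hs1]) hs0 hs1 hv' hs' hc (sinh_sq_le' ha le_rfl) (sinh_sq_le' hb le_rfl)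
    (sin_ge_of hx0 hx1 (by linarith only [hx2, hs0, hs1]) (by linarith only [h2]) le_rfl) hpos (by linarith only [h1])

/-- one of the outer neighbours is a digit `1` -/
theorem okF_X : okF 118 144 144 60 = true := by decide +kernel

/-- no outer neighbour is a digit `1` -/
theorem okF_Y : okF 172 102 102 64 = true := by decide +kernel

/-- the sum at a hinge `1 | 2` -/
theorem flat_sum_two (hx0 : 45 / 100 ≤ x) (hx1 : x ≤ 51 / 100) (hs0 : 90 / 100 ≤ x + v)
    (hs1 : x + v < 1) (hv' : 0 < v') (hs' : x + v' < 1) (hS : |t + k| ≤ 148 / 1000)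
    (ht0 : -(18 / 1000) ≤ t) (ht1 : t ≤ 79 / 1000) (hr : r ≤ 96 / 1000) :
    π * k + LL (lv (x + v) (t + k)) - LL (lv x t) +
      (π * (r - -t) + LL (lv (x + v') (-t + r)) - 2 * LL (lv x (-t))) < 0 := by
  have hp := pi_pos
  have g1 := LL_le_of (x := x + v) (H := Real.sinh (π * (148 / 1000)) ^ 2) (by linarith only [hs0, hs1]) hs1
    (sin_sq_le_955 hs0 hs1.le) (sinh_sq_le' hS le_rfl)
  have g2 := LL_le_exp (x := x + v') (by linarith only [hx0, hs0, hs1, hv']) hs' (-t + r)
  have g3 := LL_ge_sin (x := x) (by linarith only [hx0, hs0, hs1]) (by linarith only [hx1, hs0, hs1]) t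
  have g4 := LL_ge_sin (x := x) (by linarith only [hx0, hs0, hs1]) (by linarith only [hx1, hs0, hs1]) (-t)
  -- `π r + log (e^(π z) + e^(-π z)) ≤ log G`, `z = r - t`
  have h1 := chk0 (e := sub (q 322 100) (add (E.exp (mul pi (q 210 1000)))
    (E.exp (mul pi (q 79 1000))))) (by decide +kernel)
  simp only [val] at h1
  push_cast at h1
  have h2 : π * r + Real.log (Real.exp (π * (-t + r)) + Real.exp (-(π * (-t + r)))) ≤
      Real.log (322 / 100) := by
    have e1 : π * r = Real.log (Real.exp (π * r)) := (Real.log_exp _).symm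
    nth_rewrite 1 [e1]
    rw [← Real.log_mul (exp_pos _).ne' (by positivity)]
    apply Real.log_le_log (by positivity)
    rw [mul_add, ← Real.exp_add, ← Real.exp_add]
    have k1 : Real.exp (π * r + π * (-t + r)) ≤ Real.exp (π * (210 / 1000)) := by
      apply Real.exp_le_exp.2
      nlinarith only [hs0, hs1, ht0, hp, hr]
    have k2 : Real.exp (π * r + -(π * (-t + r))) ≤ Real.exp (π * (79 / 1000)) := by
      apply Real.exp_le_exp.2
      nlinarith only [hs0, hs1, ht1, hp]
    linarith only [h1, k1, k2]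
  have h3 := chk0 (e := sub (mul (q 3 2) (E.log (mul (q 4 1) (q 9755 10000))))
    (add (mul pi (q 148 1000)) (add (mul (q 1 2) (E.log (mul (q 4 1) (add (q 955 10000)
      (sq (E.sinh (mul pi (q 148 1000)))))))) (E.log (q 322 100))))) (by decide +kernel)
  simp only [val] at h3
  push_cast at h3
  have h4 : Real.log (4 * (9755 / 10000)) / 2 ≤ Real.log (2 * sin (π * x)) := by
    have a1 := chk0 (e := sub (sq (sinPi (q 45 100))) (q 9755 10000)) (by decide +kernel)
    have a2 := chk0 (e := sub (sinPi (q 51 100)) (sinPi (q 45 100))) (by decide +kernel)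
    simp only [val] at a1 a2
    push_cast at a1 a2
    have a3 : sin (π * (45 / 100)) ≤ sin (π * x) := sin_ge_of hx0 hx1 (by norm_num) le_rfl (by linarith only [a2])
    have a4 : 0 < sin (π * (45 / 100)) := sin_pi_pos (by norm_num) (by norm_num)
    have e : Real.log (2 * sin (π * x)) = Real.log ((2 * sin (π * x)) ^ 2) / 2 := by
      rw [Real.log_pow]; push_cast; ring
    rw [e]
    have : Real.log (4 * (9755 / 10000)) ≤ Real.log ((2 * sin (π * x)) ^ 2) := by
      apply Real.log_le_log (by positivity)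
      nlinarith only [hs0, a1, hs1, a3, a4]
    linarith only [this]
  have h5 : π * (t + k) ≤ π * (148 / 1000) :=
    mul_le_mul_of_nonneg_left ((le_abs_self _).trans hS) hp.le
  linarith only [g1, g2, g3, g4, h2, h3, h4, h5]

end MQ

end Pool.Agent.Work.MP_b30479_gtS.G2

end

section

/-!
# Level push of a digit `1` between a ring and a `2`, upwards, with slack
-/

namespace Pool.Agent.Work.MP_b30479_gtS.G2

open Real Set VOL NumIs NumIs.E

namespace MQ

theorem q1 : runT (cC 3968 17061 8977 13631 3850 4 (-6809) 359 165)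
    (.y (.y (.x (.y .e (.x .e (.y .e (.x (.y .e .a) .c)))) (.y (.x .e (.y .e (.x (.y .e .c) (.y (.x .e
    (.y .e (.y .e .b))) .b)))) (.x (.y (.x (.y .e .c) .c) .c) (.y .b .b)))) (.x (.y (.x (.y (.x .e .c)
    .c) .c) .c) (.x .b (.x .b .b)))) (.y (.x (.y .b .b) (.x (.y .b .b) (.y .b (.y .b (.x .b (.y .b (.x
    .b .b))))))) (.x (.y (.x .b .b) (.x (.x .b .b) (.y (.x .b .b) (.x (.y .b .b) (.y (.x .b .b) (.x
    (.y .b (.x .b (.y .b (.x .b (.y (.x .b .d) .d))))) (.y (.x .b (.y (.x .b .d) .d)) (.x (.y (.x (.y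
    .b .d) .d) .d) .d)))))))) (.y (.x (.y .b (.x .b (.y .b (.x .b .b)))) (.y (.x (.y .b .b) (.y (.x .b
    (.y (.x .b (.y .b .d)) (.x (.y .b .d) .d))) (.x (.y (.x .b (.y .b .d)) .d) .d))) (.x (.y (.x .b
    (.y (.x .b .b) .d)) (.x (.y (.x .b .d) .d) .d)) .d))) (.x (.y (.x (.y .b (.x .b (.y .b (.x .b
    .d)))) (.y (.x (.y .b .b) .d) .d)) (.x (.y (.x (.y .b (.x (.y .b .d) .d)) .d) .d) .d)) .d)))))
    [V.of 1000 256 360 4, V.of 1000 140 392 4] = true := by decide +kernel

theorem q2 : runT (cC 3968 17061 13630 20625 3870 6 (-6809) 359 165)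
    (.y (.y (.x (.y .e (.y .e (.x .e (.x (.y .e .a) .c)))) (.y (.x .e (.y .e (.x (.y .e .c) (.y (.x .b
    (.y .e .b)) .b)))) (.x (.y (.x (.y .e .c) .c) .c) (.y .b .b)))) (.x (.y (.x (.y (.x .e .c) .c) .c)
    .c) (.x .b (.x .b .b)))) (.y (.x (.y .b .b) (.x (.y .b .b) (.y .b (.x .b (.y .b (.x .b .b))))))
    (.x (.y (.x .b .b) (.x (.y .b .b) (.y .b (.x .b (.y .b (.x .b (.y (.x .b .b) (.x (.y .b .d)
    .d)))))))) (.y (.x (.y .b (.x .b (.y .b .b))) (.y (.x .b (.y (.x .b (.x .b (.y (.y .b .d) .d)))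
    (.x (.y .b .d) .d))) (.x (.y (.x .b (.y .b .d)) (.x (.y .b .d) .d)) .d))) (.x (.y (.x (.y .b (.x
    .b .b)) (.y (.x .b .d) .d)) (.x (.y (.x (.y .b (.x .b .d)) .d) .d) .d)) .d)))))
    [V.of 1000 256 360 4, V.of 1000 140 392 4] = true := by decide +kernel

theorem q3 : runT (cC 3968 17061 20624 38671 3920 10 (-6809) 359 165)
    (.y (.y (.x (.y .e (.y .e (.x .e (.x (.y .e .a) .c)))) (.y (.x .e (.y .e (.x (.y .e .c) (.y (.y .e
    .b) .b)))) (.x (.y (.x (.y .e .c) .c) .c) (.y .b .b)))) (.x (.y (.x (.y (.y .e (.x .e .c)) .c) .c)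
    (.x .c .b)) (.x .b (.x .b .b)))) (.y (.x (.y .b .b) (.x (.y .b .b) (.y .b (.y .b (.x .b (.y .b
    .b)))))) (.x (.y (.x .b .b) (.x (.y .b .b) (.y .b (.x .b (.y .b (.x .b (.y .b (.x .b .d))))))))
    (.y (.x (.y .b (.x .b .b)) (.y (.x .b (.y (.x .b (.x .b (.y .b .d))) (.x (.y .b .d) .d))) (.x (.y
    (.x .b .b) (.x (.y .b .b) .d)) .d))) (.x (.y (.x (.y .b .b) (.y (.x .b .d) .d)) (.x (.y (.x .b .d)
    .d) .d)) .d)))))
    [V.of 1000 256 360 4, V.of 1000 140 392 4] = true := by decide +kernel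

theorem q4 : runT (cC 3968 20004 8977 38671 3560 0 (-6809) 359 165)
    (.y (.y (.x (.y .e (.y .e (.x .e (.x (.y .e .a) .c)))) (.y (.x .e (.y .e (.y (.x .e .b) .c))) (.x
    (.y (.x (.y .e .c) .c) .c) .b))) (.x (.y (.x (.y (.x .e .c) .c) .c) .c) (.x .b .b))) (.y (.x (.y
    .b .b) (.x (.y .b .b) (.y .b (.x .b (.y .b .b))))) (.x (.y (.x .b .b) (.x .b (.y .b (.x .b .b))))
    (.y (.x (.y .b .b) (.y (.x .b (.x .b (.y .b .d))) (.x (.y .b (.x .b .d)) .d))) (.x (.y (.x .b (.y
    .b .d)) (.x (.y (.x .b .b) .d) .d)) .d)))))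
    [V.of 1000 256 360 4, V.of 1000 140 392 4] = true := by decide +kernel

/-! ### numerical facts -/

/-- the gauge at a rational point -/
def ghF (n : ℤ) : E := E.log (mul (sinPi (q n 20000)) (inv (cosPi (q n 20000))))

theorem ghF_val (n : ℤ) : (ghF n).val [] = gh ((n : ℝ) / 10000) := by
  simp only [ghF, val]
  unfold gh
  rw [tan_eq_sin_div_cos]
  have : π * ((n : ℝ) / 10000) / 2 = π * ((n : ℝ) / ((20000 : ℕ) : ℝ)) := by push_cast; ring
  rw [this]
  simp only [div_eq_mul_inv]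

theorem gh_num1 : Real.log ((165 : ℤ) / 1000) < gh ((2563 : ℤ) / 10000) + gh ((2360 : ℤ) / 10000) := by
  have h := chk0 (e := sub (add (ghF 2563) (ghF 2360)) (E.log (q 165 1000))) (by decide +kernel)
  simp only [val, ghF_val] at h
  push_cast at h ⊢
  linarith only [h]

theorem gh_num2 : gh ((2983 : ℤ) / 10000) + gh ((3920 : ℤ) / 10000) < Real.log ((359 : ℤ) / 1000) := by
  have h := chk0 (e := sub (E.log (q 359 1000)) (add (ghF 2983) (ghF 3920))) (by decide +kernel)
  simp only [val, ghF_val] at h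
  push_cast at h ⊢
  linarith only [h]

theorem gh_num3 : gh ((1400 : ℤ) / 10000) + gh ((3600 : ℤ) / 10000) < Real.log ((165 : ℤ) / 1000) := by
  have h := chk0 (e := sub (E.log (q 165 1000)) (add (ghF 1400) (ghF 3600))) (by decide +kernel)
  simp only [val, ghF_val] at h
  push_cast at h ⊢
  linarith only [h]

/-- the mean slack is more than `c` -/
def okM (μ α g c : ℤ) : Bool :=
  chk [sub (sub (q μ 10000) (mul (q α 100) (sub (mul (q 1 2) (add (ghF 2983) (ghF 3600))) (q g 10000))))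
    (q c 10000)] 1 []

theorem okM_spec {μ α g c : ℤ} (h : okM μ α g c = true) : (c : ℝ) / 10000 < (μ : ℝ) / 10000 -
    (α : ℝ) / 100 * ((gh ((2983 : ℤ) / 10000) + gh ((3600 : ℤ) / 10000)) / 2 - (g : ℝ) / 10000) := by
  have h := chk0 h
  simp only [val, ghF_val] at h
  push_cast at h ⊢
  linarith only [h]

def okI (n0 n1 c0 c1 : ℤ) : Bool :=
  chk [sub (sq (E.sinh (mul pi (q n0 10000)))) (q c0 100000)] 1 [] && decide (0 ≤ n0) &&
    chk [sub (q c1 100000) (sq (E.sinh (mul pi (q n1 10000))))] 1 []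

theorem okI_spec {n0 n1 c0 c1 : ℤ} (h : okI n0 n1 c0 c1 = true) {τ : ℝ} (h0 : (n0 : ℝ) / 10000 ≤ τ)
    (h1 : τ ≤ (n1 : ℝ) / 10000) : (c0 : ℝ) / 100000 ≤ sinh (π * τ) ^ 2 ∧
      sinh (π * τ) ^ 2 ≤ (c1 : ℝ) / 100000 := by
  simp only [okI, Bool.and_eq_true, decide_eq_true_eq] at h
  obtain ⟨⟨k1, k2⟩, k3⟩ := h
  have k1 := chk0 k1
  have k3 := chk0 k3
  simp only [val] at k1 k3
  push_cast at k1 k3
  have k2' : (0 : ℝ) ≤ (n0 : ℝ) / 10000 := by
    have : (0 : ℝ) ≤ n0 := by exact_mod_cast k2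
    positivity
  have g1 := sinh_sq_le k2' h0
  have g2 := sinh_sq_le (k2'.trans h0) h1
  constructor <;> linarith only [k1, g1, k3, g2]

theorem gh_le {a b : ℝ} (ha : a ∈ Ioo (0 : ℝ) 1) (hb : b ∈ Ioo (0 : ℝ) 1) (h : a ≤ b) :
    gh a ≤ gh b := by
  rcases h.eq_or_lt with e | e
  · rw [e]
  · exact ((gh_lt ha hb).2 e).le

theorem le_of_gh {a b : ℝ} (ha : a ∈ Ioo (0 : ℝ) 1) (hb : b ∈ Ioo (0 : ℝ) 1) (h : gh a ≤ gh b) :
    a ≤ b := by
  by_contra hc
  push Not at hc
  linarith only [h, hb, ha, hc, (gh_lt hb ha).2 hc]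

theorem LL_sin_le {s r τ : ℝ} (hs : s ∈ Ioo (0 : ℝ) 1) (hr : r ∈ Ioo (0 : ℝ) 1)
    (h : sin (π * s) ≤ sin (π * r)) : LL (lv s τ) ≤ LL (lv r τ) := by
  have p1 := sin_pi_pos hs.1 hs.2
  rw [LLlv hs.1 hs.2, LLlv hr.1 hr.2]
  have : Real.log (4 * (sin (π * s) ^ 2 + sinh (π * τ) ^ 2)) ≤
      Real.log (4 * (sin (π * r) ^ 2 + sinh (π * τ) ^ 2)) := by
    apply Real.log_le_log (by positivity)
    nlinarith only [h, p1]
  linarith only [this]

variable {S0 S1 T0 T1 μ α g : ℤ} {tr : Tr} {a a' x x' t t' : ℝ}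

/-- **Upwards with slack.** -/
theorem slk (h : runT (cC S0 S1 T0 T1 μ α g 359 165) tr [V.of 1000 256 360 4, V.of 1000 140 392 4] =
      true) (hα : 0 ≤ α) (a0 : 2563 / 10000 ≤ a) (a1 : a ≤ 2983 / 10000) (b0 : 236 / 1000 ≤ a')
    (b1 : a' ≤ 392 / 1000) (hx : x ≤ 360 / 1000) (hx' : 0 < x') (hs1 : x + x' < 1) (hlt : a < x)
    (hg : |gh x' - gh a'| ≤ gh x - gh a)
    (hS : (S0 : ℝ) / 100000 ≤ sinh (π * t) ^ 2 ∧ sinh (π * t) ^ 2 ≤ (S1 : ℝ) / 100000)
    (hT : (T0 : ℝ) / 100000 ≤ sinh (π * (t + t')) ^ 2 ∧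
      sinh (π * (t + t')) ^ 2 ≤ (T1 : ℝ) / 100000) {c : ℤ} (hc : okM μ α g c = true) :
    LL (lv x t + lv x' t') - LL (lv x t) + (c : ℝ) / 10000 * (gh x - gh a) <
      LL (lv a t + lv a' t') - LL (lv a t) := by
  have A : a ∈ Ioo (0 : ℝ) 1 := ⟨by linarith only [a0, hx, hlt], by linarith only [a0, hx, hlt]⟩
  have A' : a' ∈ Ioo (0 : ℝ) 1 := ⟨by linarith only [a0, b0, hx, hlt], by linarith only [a0, b1, hx, hlt]⟩
  have X : x ∈ Ioo (0 : ℝ) 1 := ⟨by linarith only [a0, hx, hlt], by linarith only [a0, hx, hlt]⟩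
  have X' : x' ∈ Ioo (0 : ℝ) 1 := ⟨hx', by linarith only [a0, hx, hs1, hlt, X.1]⟩
  have n1 := gh_num1
  have n2 := gh_num2
  have n3 := gh_num3
  push_cast at n1 n2 n3
  have ga0 : gh (2563 / 10000) ≤ gh a := gh_le ⟨by norm_num, by norm_num⟩ A a0
  have ga1 : gh a ≤ gh (2983 / 10000) := gh_le A ⟨by norm_num, by norm_num⟩ a1
  have gb0 : gh (2360 / 10000) ≤ gh a' := gh_le ⟨by norm_num, by norm_num⟩ A' (by linarith only [b0])
  have gb1 : gh a' ≤ gh (3920 / 10000) := gh_le A' ⟨by norm_num, by norm_num⟩ (by linarith only [b1])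
  have gx : gh x ≤ gh (3600 / 10000) := gh_le X ⟨by norm_num, by norm_num⟩ (by linarith only [hx])
  have hP : gh a + gh a' ≤ Real.log (((359 : ℤ) : ℝ) / 1000) := by push_cast; linarith only [n2, ga1, gb1]
  have hQ : Real.log (((165 : ℤ) : ℝ) / 1000) ≤ gh a + gh a' := by push_cast; linarith only [n1, ga0, gb0]
  have hm : 0 < gh x - gh a := by linarith only [A, X, hlt, (gh_lt A X).2 hlt]
  obtain ⟨g1, g2⟩ := abs_le.1 hg
  set w := ghi (gh a + gh a' - gh x) with hw
  have W : w ∈ Ioo (0 : ℝ) 1 := ghi_mem _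
  have gw : gh w = gh a + gh a' - gh x := gh_ghi _
  have hwx : w ≤ x' := le_of_gh W X' (by linarith only [g1, gw])
  have hwa : w ≤ a' := le_of_gh W A' (by linarith only [hm, gw])
  have hw14 : 140 / 1000 ≤ w := by
    by_contra hcon
    push Not at hcon
    have := gh_le W ⟨by norm_num, by norm_num⟩ (show w ≤ 1400 / 10000 by linarith only [hcon])
    push_cast at hQ
    linarith only [n1, n3, ga0, gb0, gx, gw, this]
  have fin : ∀ z : ℝ, z ∈ Ioo (0 : ℝ) 1 → w ≤ z → z ≤ 392 / 1000 → x + z < 1 →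
      |gh z - gh a'| ≤ gh x - gh a → gh x + gh z ≤ Real.log (((359 : ℤ) : ℝ) / 1000) →
      LL (lv x t + lv x' t') ≤ LL (lv x t + lv z t') →
      LL (lv x t + lv x' t') - LL (lv x t) + (c : ℝ) / 10000 * (gh x - gh a) <
        LL (lv a t + lv a' t') - LL (lv a t) := by
    intro z Z hwz hz hxz hgz hPz hLz
    have gz : gh a + gh a' ≤ gh x + gh z := by
      have := gh_le W Z hwz
      linarith only [gw, this]
    have key := lev_fd_c (τ := t) (τ' := t') (μ := (μ : ℝ) / 10000) (α := (α : ℝ) / 100)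
      (g0 := (g : ℝ) / 10000) A A' X Z hlt hgz (by linarith only [a0, b1, hx, hlt]) hxz
      (fun u u' hu hu' hsum hmax hmin => by
        obtain ⟨q1, q2⟩ := mem_uIcc_bd (l := 140 / 1000) (r := 392 / 1000) hu' (by linarith only [a0, b0, hx, hlt])
          (by linarith only [hw14, hwz]) b1 hz
        exact row_con (μ := μ) (α := α) (g := g) h (by norm_num) (by norm_num)
          (by push_cast; linarith only [a0, hx, hlt, hu, hu.1]) (by push_cast; linarith only [hx, hu, hu.2]) (by push_cast; exact q1)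
          (by push_cast; exact q2) (by linarith only [a0, hx, hlt, hu, hu.1]) (by linarith only [a0, hx, hlt, q1]) hsum hS.1 hS.2 hT.1 hT.2
          (hmax.trans (max_le hP hPz)) ((le_min hQ (hQ.trans gz)).trans hmin))
    have hM := okM_spec hc
    push_cast at hM
    have hα' : (0 : ℝ) ≤ (α : ℝ) / 100 := by
      have : (0 : ℝ) ≤ α := by exact_mod_cast hα
      positivity
    have h1 : (α : ℝ) / 100 * ((gh a + gh x) / 2 - (g : ℝ) / 10000) ≤
        (α : ℝ) / 100 * ((gh (2983 / 10000) + gh (3600 / 10000)) / 2 - (g : ℝ) / 10000) :=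
      mul_le_mul_of_nonneg_left (by linarith only [ga1, gx]) hα'
    have h2 : (c : ℝ) / 10000 * (gh x - gh a) <
        ((μ : ℝ) / 10000 - (α : ℝ) / 100 * ((gh a + gh x) / 2 - (g : ℝ) / 10000)) *
          (gh x - gh a) := mul_lt_mul_of_pos_right (by linarith only [hM, h1]) hm
    linarith only [hLz, key, h2]
  rcases le_or_gt (1 / 2) (x + w) with hh | hh
  · refine fin w W le_rfl (hwa.trans b1) (by linarith only [a0, b1, hx, hlt, hwa]) ?_ (by rw [gw]; linarith only [n2, ga1, gb1]) ?_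
    · rw [gw, abs_le]
      constructor <;> linarith only [hm]
    · rw [lv_add, lv_add]
      refine LL_sin_le ⟨by linarith only [a0, hx, hx', hlt, X.1], hs1⟩ ⟨by linarith only [a0, hx, hlt, hw14, X.1], by linarith only [a0, b1, hx, hlt, hwa]⟩ ?_
      have hpi := pi_pos
      have e : ∀ s, sin (π * s) = sin (π * (1 - s)) := fun s => by
        rw [show π * (1 - s) = π - π * s by ring, sin_pi_sub]
      rw [e (x + x'), e (x + w)]
      exact sin_le_sin_of_le_of_le_pi_div_two (by nlinarith only [hpi, hs1]) (by nlinarith only [a0, hx, hlt, hh, hpi]) (by nlinarith only [a0, hx, hlt, hwx, hpi])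
  · have hz0 : w ≤ min x' (1 / 2 - x) := le_min hwx (by linarith only [hh])
    have hz1 : min x' (1 / 2 - x) ≤ x' := min_le_left _ _
    have hz2 : min x' (1 / 2 - x) ≤ 1 / 2 - x := min_le_right _ _
    have Z : min x' (1 / 2 - x) ∈ Ioo (0 : ℝ) 1 := ⟨by linarith only [a0, hx, hlt, hw14, hz0, W.1], by linarith only [a0, hs1, hlt, hw14, hh, hz1, X'.2]⟩
    refine fin _ Z hz0 (by linarith only [a0, hlt, hw14, hh, hz2]) (by linarith only [hs1, hz1]) ?_ ?_ ?_
    · have k1 := gh_le Z X' hz1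
      have k2 := gh_le W Z hz0
      rw [abs_le]
      constructor <;> linarith only [gw, k2, g2, k1]
    · have hc4 : (7 : ℝ) / 10 ≤ Real.cos (π * ((1 / 2) / 2)) := by
        have h := chk0 (e := sub (cosPi (q 1 4)) (q 7 10)) (by decide +kernel)
        simp only [val] at h
        push_cast at h
        have e : (1 : ℝ) / 2 / 2 = 1 / 4 := by norm_num
        rw [e]
        linarith only [h]
      exact gh_sum_of_sum X Z (s := 1 / 2) (by linarith only [hz2]) (by norm_num) hc4 (by norm_num)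
        (by norm_num) (by norm_num)
    · rw [lv_add, lv_add]
      refine LL_sin_le ⟨by linarith only [a0, hx, hx', hlt, X.1], hs1⟩ ⟨by linarith only [a0, hx, hlt, hw14, hz0, X.1, Z.1], by linarith only [hs1, hz1]⟩ ?_
      rcases min_cases x' (1 / 2 - x) with ⟨e, -⟩ | ⟨e, -⟩
      · rw [e]
      · rw [e, show x + (1 / 2 - x) = 1 / 2 by ring, show π * (1 / 2) = π / 2 by ring,
          sin_pi_div_two]
        exact sin_le_one _

theorem q1_i : okI 630 1280 3968 17061 = true := by decide +kernel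

theorem q1_j : okI 940 1150 8977 13631 = true := by decide +kernel

theorem q2_i : okI 630 1280 3968 17061 = true := by decide +kernel

theorem q2_j : okI 1150 1400 13630 20625 = true := by decide +kernel

theorem q3_i : okI 630 1280 3968 17061 = true := by decide +kernel

theorem q3_j : okI 1400 1870 20624 38671 = true := by decide +kernel

theorem q4_i : okI 630 1380 3968 20004 = true := by decide +kernel

theorem q4_j : okI 940 1870 8977 38671 = true := by decide +kernel

/-- **`1 | ring` upwards, other neighbour a `2`, height at most `.128`.** -/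
theorem slack_38 (a0 : 2563 / 10000 ≤ a) (a1 : a ≤ 2983 / 10000) (b0 : 236 / 1000 ≤ a')
    (b1 : a' ≤ 392 / 1000) (hx : x ≤ 360 / 1000) (hx' : 0 < x') (hs1 : x + x' < 1) (hlt : a < x)
    (hg : |gh x' - gh a'| ≤ gh x - gh a) (t0 : 63 / 1000 ≤ t) (t1 : t ≤ 128 / 1000)
    (s0 : 94 / 1000 ≤ t + t') (s1 : t + t' ≤ 187 / 1000) :
    LL (lv x t + lv x' t') - LL (lv x t) + 38 / 100 * (gh x - gh a) <
      LL (lv a t + lv a' t') - LL (lv a t) := by
  have e : (38 : ℝ) / 100 = ((3800 : ℤ) : ℝ) / 10000 := by norm_num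
  rw [e]
  rcases le_total (t + t') (115 / 1000) with h1 | h1
  · exact slk q1 (by norm_num) a0 a1 b0 b1 hx hx' hs1 hlt hg
      (okI_spec q1_i (by push_cast; linarith only [t0]) (by push_cast; linarith only [t1]))
      (okI_spec q1_j (by push_cast; linarith only [s0]) (by push_cast; linarith only [h1])) (by decide +kernel)
  rcases le_total (t + t') (140 / 1000) with h2 | h2
  · exact slk q2 (by norm_num) a0 a1 b0 b1 hx hx' hs1 hlt hg
      (okI_spec q2_i (by push_cast; linarith only [t0]) (by push_cast; linarith only [t1]))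
      (okI_spec q2_j (by push_cast; linarith only [h1]) (by push_cast; linarith only [h2])) (by decide +kernel)
  · exact slk q3 (by norm_num) a0 a1 b0 b1 hx hx' hs1 hlt hg
      (okI_spec q3_i (by push_cast; linarith only [t0]) (by push_cast; linarith only [t1]))
      (okI_spec q3_j (by push_cast; linarith only [h2]) (by push_cast; linarith only [s1])) (by decide +kernel)

/-- **`1 | ring` upwards, other neighbour a `2`, height at most `.138`.** -/
theorem slack_355 (a0 : 2563 / 10000 ≤ a) (a1 : a ≤ 2983 / 10000) (b0 : 236 / 1000 ≤ a')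
    (b1 : a' ≤ 392 / 1000) (hx : x ≤ 360 / 1000) (hx' : 0 < x') (hs1 : x + x' < 1) (hlt : a < x)
    (hg : |gh x' - gh a'| ≤ gh x - gh a) (t0 : 63 / 1000 ≤ t) (t1 : t ≤ 138 / 1000)
    (s0 : 94 / 1000 ≤ t + t') (s1 : t + t' ≤ 187 / 1000) :
    LL (lv x t + lv x' t') - LL (lv x t) + 355 / 1000 * (gh x - gh a) <
      LL (lv a t + lv a' t') - LL (lv a t) := by
  have e : (355 : ℝ) / 1000 = ((3550 : ℤ) : ℝ) / 10000 := by norm_num
  rw [e]
  exact slk q4 (by norm_num) a0 a1 b0 b1 hx hx' hs1 hlt hg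
      (okI_spec q4_i (by push_cast; linarith only [t0]) (by push_cast; linarith only [t1]))
      (okI_spec q4_j (by push_cast; linarith only [s0]) (by push_cast; linarith only [s1])) (by decide +kernel)

end MQ

end Pool.Agent.Work.MP_b30479_gtS.G2

end
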