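import Pool.Agent.Work.MP_b30479_gt.TBS.G2.OTab

section

set_option deprecated.oldSectionVars true

namespace Pool.Agent.Work.MP_b30479_gtS.G2

namespace OR

/-- windows -/
def a2e_2_wp : PC → Win
  | .one => ⟨0, 0, 0, 0, 0, 0⟩
  | .two => ⟨0, 0, 0, 0, 0, 0⟩
  | .twoE => ⟨-790, -360, -310, 250, 230, 820⟩
  | .thrR => ⟨0, 0, 0, 0, 0, 0⟩
  | .thrL => ⟨0, 0, 0, 0, 0, 0⟩
  | .threeE => ⟨0, 0, 0, 0, 0, 0⟩
  | .ring => ⟨0, 0, 0, 0, 0, 0⟩

/-- windows -/
def a2e_2_wq : PC → Win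
  | .one => ⟨0, 0, 0, 0, 0, 0⟩
  | .two => ⟨0, 0, 0, 0, 0, 0⟩
  | .twoE => ⟨0, 0, 0, 0, 0, 0⟩
  | .thrR => ⟨0, 0, 0, 0, 0, 0⟩
  | .thrL => ⟨0, 0, 0, 0, 0, 0⟩
  | .threeE => ⟨0, 0, 0, 0, 0, 0⟩
  | .ring => ⟨600, 1300, 110, 690, -820, -230⟩

/-- mode -/
def a2e_2_m0 : Mode where
  md := .V 300 1000
  lam := 1000
  ct := 1000
  gp := fun
    | .one => [e00, e00, e00, e00, e00, e00, e00, e00]
    | .two => [e00, e00, e00, e00, e00, e00]
    | .twoE => [⟨926, [8]⟩, ⟨-405, [2178]⟩, ⟨-1015, [612913426222712850, 557443, 8, 8, 143136818, 36643018802]⟩, ⟨-1015, [0, 0, 0, 0, 143164194, 36649927458]⟩, ⟨-1476, [0, 0, 0, 0, 8, 8]⟩, e00]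
    | .thrR => [e00, e00, e00, e00, e00, e00]
    | .thrL => [e00, e00, e00, e00, e00, e00]
    | .threeE => [e00, e00, e00, e00, e00, e00]
    | .ring => [e00, e00, e00, e00, e00, e00]
  gq := fun
    | .one => [e00, e00, e00, e00, e00, e00, e00, e00]
    | .two => [e00, e00, e00, e00, e00, e00]
    | .twoE => [e00, e00, e00, e00, e00, e00]
    | .thrR => [e00, e00, e00, e00, e00, e00]
    | .thrL => [e00, e00, e00, e00, e00, e00]
    | .threeE => [e00, e00, e00, e00, e00, e00]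
    | .ring => [⟨341, [142836354]⟩, ⟨341, [142706707]⟩, ⟨-269, [2682952311998515, 2179, 8, 8, 2179, 13]⟩, ⟨-269, [0, 2179, 8, 8, 9381157016354, 13]⟩, ⟨-1600, [0, 0, 0, 0, 743348957272677381235341065332848013289522, 8]⟩, ⟨-1788, [0, 0, 0, 0, 2178, 557954]⟩]

/-- mode -/
def a2e_2_m1 : Mode where
  md := .D
  lam := 0
  ct := 12000
  gp := fun
    | .one => [e00, e00, e00, e00, e00, e00, e00, e00]
    | .two => [e00, e00, e00, e00, e00, e00]
    | .twoE => [e00, ⟨-4189, [11306237189915612992323432558181778210]⟩, e00, e00, e00, e00]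
    | .thrR => [e00, e00, e00, e00, e00, e00]
    | .thrL => [e00, e00, e00, e00, e00, e00]
    | .threeE => [e00, e00, e00, e00, e00, e00]
    | .ring => [e00, e00, e00, e00, e00, e00]
  gq := fun
    | .one => [e00, e00, e00, e00, e00, e00, e00, e00]
    | .two => [e00, e00, e00, e00, e00, e00]
    | .twoE => [e00, e00, e00, e00, e00, e00]
    | .thrR => [e00, e00, e00, e00, e00, e00]
    | .thrL => [e00, e00, e00, e00, e00, e00]
    | .threeE => [e00, e00, e00, e00, e00, e00]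
    | .ring => [⟨4185, [9360940479106]⟩, ⟨4185, [156907684294406209827]⟩, e00, e00, e00, e00]

/-- mode -/
def a2e_2_m2 : Mode where
  md := .V 150 1000
  lam := 0
  ct := -2000
  gp := fun
    | .one => [e00, e00, e00, e00, e00, e00, e00, e00]
    | .two => [e00, e00, e00, e00, e00, e00]
    | .twoE => [e00, e00, e00, e00, e00, ⟨-1414, [0, 0, 0, 0, 557698, 8]⟩]
    | .thrR => [e00, e00, e00, e00, e00, e00]
    | .thrL => [e00, e00, e00, e00, e00, e00]
    | .threeE => [e00, e00, e00, e00, e00, e00]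
    | .ring => [e00, e00, e00, e00, e00, e00]
  gq := fun
    | .one => [e00, e00, e00, e00, e00, e00, e00, e00]
    | .two => [e00, e00, e00, e00, e00, e00]
    | .twoE => [e00, e00, e00, e00, e00, e00]
    | .thrR => [e00, e00, e00, e00, e00, e00]
    | .thrL => [e00, e00, e00, e00, e00, e00]
    | .threeE => [e00, e00, e00, e00, e00, e00]
    | .ring => [⟨1410, [928522843387159282556187281426]⟩, ⟨1410, [3569618969259939879838648339]⟩, ⟨1410, [10451861735443, 40861008259, 9360906486145, 8, 36566040963, 13]⟩, ⟨1410, [0, 209748355, 821264, 8, 157389974044754318114, 13]⟩, ⟨1141, [0, 0, 0, 0, 143140914, 8]⟩, ⟨-2063, [0, 0, 0, 0, 8, 8]⟩]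

/-- mode -/
def a2e_2_m3 : Mode where
  md := .V 550 1000
  lam := 250
  ct := 1500
  gp := fun
    | .one => [e00, e00, e00, e00, e00, e00, e00, e00]
    | .two => [e00, e00, e00, e00, e00, e00]
    | .twoE => [⟨-227, [143163682]⟩, e00, e00, e00, e00, e00]
    | .thrR => [e00, e00, e00, e00, e00, e00]
    | .thrL => [e00, e00, e00, e00, e00, e00]
    | .threeE => [e00, e00, e00, e00, e00, e00]
    | .ring => [e00, e00, e00, e00, e00, e00]
  gq := fun
    | .one => [e00, e00, e00, e00, e00, e00, e00, e00]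
    | .two => [e00, e00, e00, e00, e00, e00]
    | .twoE => [e00, e00, e00, e00, e00, e00]
    | .thrR => [e00, e00, e00, e00, e00, e00]
    | .thrL => [e00, e00, e00, e00, e00, e00]
    | .threeE => [e00, e00, e00, e00, e00, e00]
    | .ring => [⟨56, [3924556073246509899851578461526465976370]⟩, ⟨56, [673971951565782467537970366499]⟩, ⟨56, [142706739, 2179, 8, 8, 2179, 13]⟩, ⟨56, [0, 2179, 8, 8, 2396420900918050, 13]⟩, e00, e00]

/-- piece -/
def a2e_2 : Piece := ⟨7600, 7750, 0, 820, a2e_2_wp, a2e_2_wq, [a2e_2_m0, a2e_2_m1, a2e_2_m2, a2e_2_m3]⟩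

set_option linter.defProp false

def a2e_2_r0_one0 : rowsOk stA2E a2e_2 a2e_2_m0 false .one = true := by decide +kernel

def a2e_2_r0_one1 : rowsOk stA2E a2e_2 a2e_2_m0 true .one = true := by decide +kernel

def a2e_2_r0_two0 : rowsOk stA2E a2e_2 a2e_2_m0 false .two = true := by decide +kernel

def a2e_2_r0_two1 : rowsOk stA2E a2e_2 a2e_2_m0 true .two = true := by decide +kernel

def a2e_2_r0_twoE0 : rowsOk stA2E a2e_2 a2e_2_m0 false .twoE = true := by decide +kernel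

def a2e_2_r0_twoE1 : rowsOk stA2E a2e_2 a2e_2_m0 true .twoE = true := by decide +kernel

def a2e_2_r0_thrR0 : rowsOk stA2E a2e_2 a2e_2_m0 false .thrR = true := by decide +kernel

def a2e_2_r0_thrR1 : rowsOk stA2E a2e_2 a2e_2_m0 true .thrR = true := by decide +kernel

def a2e_2_r0_thrL0 : rowsOk stA2E a2e_2 a2e_2_m0 false .thrL = true := by decide +kernel

def a2e_2_r0_thrL1 : rowsOk stA2E a2e_2 a2e_2_m0 true .thrL = true := by decide +kernel

def a2e_2_r0_threeE0 : rowsOk stA2E a2e_2 a2e_2_m0 false .threeE = true := by decide +kernel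

def a2e_2_r0_threeE1 : rowsOk stA2E a2e_2 a2e_2_m0 true .threeE = true := by decide +kernel

def a2e_2_r0_ring0 : rowsOk stA2E a2e_2 a2e_2_m0 false .ring = true := by decide +kernel

def a2e_2_r0_ring1 : rowsOk stA2E a2e_2 a2e_2_m0 true .ring = true := by decide +kernel

def a2e_2_r1_one0 : rowsOk stA2E a2e_2 a2e_2_m1 false .one = true := by decide +kernel

def a2e_2_r1_one1 : rowsOk stA2E a2e_2 a2e_2_m1 true .one = true := by decide +kernel

def a2e_2_r1_two0 : rowsOk stA2E a2e_2 a2e_2_m1 false .two = true := by decide +kernel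

def a2e_2_r1_two1 : rowsOk stA2E a2e_2 a2e_2_m1 true .two = true := by decide +kernel

def a2e_2_r1_twoE0 : rowsOk stA2E a2e_2 a2e_2_m1 false .twoE = true := by decide +kernel

def a2e_2_r1_twoE1 : rowsOk stA2E a2e_2 a2e_2_m1 true .twoE = true := by decide +kernel

def a2e_2_r1_thrR0 : rowsOk stA2E a2e_2 a2e_2_m1 false .thrR = true := by decide +kernel

def a2e_2_r1_thrR1 : rowsOk stA2E a2e_2 a2e_2_m1 true .thrR = true := by decide +kernel

def a2e_2_r1_thrL0 : rowsOk stA2E a2e_2 a2e_2_m1 false .thrL = true := by decide +kernel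

def a2e_2_r1_thrL1 : rowsOk stA2E a2e_2 a2e_2_m1 true .thrL = true := by decide +kernel

def a2e_2_r1_threeE0 : rowsOk stA2E a2e_2 a2e_2_m1 false .threeE = true := by decide +kernel

def a2e_2_r1_threeE1 : rowsOk stA2E a2e_2 a2e_2_m1 true .threeE = true := by decide +kernel

def a2e_2_r1_ring0 : rowsOk stA2E a2e_2 a2e_2_m1 false .ring = true := by decide +kernel

def a2e_2_r1_ring1 : rowsOk stA2E a2e_2 a2e_2_m1 true .ring = true := by decide +kernel

def a2e_2_r2_one0 : rowsOk stA2E a2e_2 a2e_2_m2 false .one = true := by decide +kernel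

def a2e_2_r2_one1 : rowsOk stA2E a2e_2 a2e_2_m2 true .one = true := by decide +kernel

def a2e_2_r2_two0 : rowsOk stA2E a2e_2 a2e_2_m2 false .two = true := by decide +kernel

def a2e_2_r2_two1 : rowsOk stA2E a2e_2 a2e_2_m2 true .two = true := by decide +kernel

def a2e_2_r2_twoE0 : rowsOk stA2E a2e_2 a2e_2_m2 false .twoE = true := by decide +kernel

def a2e_2_r2_twoE1 : rowsOk stA2E a2e_2 a2e_2_m2 true .twoE = true := by decide +kernel

def a2e_2_r2_thrR0 : rowsOk stA2E a2e_2 a2e_2_m2 false .thrR = true := by decide +kernel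

def a2e_2_r2_thrR1 : rowsOk stA2E a2e_2 a2e_2_m2 true .thrR = true := by decide +kernel

def a2e_2_r2_thrL0 : rowsOk stA2E a2e_2 a2e_2_m2 false .thrL = true := by decide +kernel

def a2e_2_r2_thrL1 : rowsOk stA2E a2e_2 a2e_2_m2 true .thrL = true := by decide +kernel

def a2e_2_r2_threeE0 : rowsOk stA2E a2e_2 a2e_2_m2 false .threeE = true := by decide +kernel

def a2e_2_r2_threeE1 : rowsOk stA2E a2e_2 a2e_2_m2 true .threeE = true := by decide +kernel

def a2e_2_r2_ring0 : rowsOk stA2E a2e_2 a2e_2_m2 false .ring = true := by decide +kernel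

def a2e_2_r2_ring1 : rowsOk stA2E a2e_2 a2e_2_m2 true .ring = true := by decide +kernel

def a2e_2_r3_one0 : rowsOk stA2E a2e_2 a2e_2_m3 false .one = true := by decide +kernel

def a2e_2_r3_one1 : rowsOk stA2E a2e_2 a2e_2_m3 true .one = true := by decide +kernel

def a2e_2_r3_two0 : rowsOk stA2E a2e_2 a2e_2_m3 false .two = true := by decide +kernel

def a2e_2_r3_two1 : rowsOk stA2E a2e_2 a2e_2_m3 true .two = true := by decide +kernel

def a2e_2_r3_twoE0 : rowsOk stA2E a2e_2 a2e_2_m3 false .twoE = true := by decide +kernel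

def a2e_2_r3_twoE1 : rowsOk stA2E a2e_2 a2e_2_m3 true .twoE = true := by decide +kernel

def a2e_2_r3_thrR0 : rowsOk stA2E a2e_2 a2e_2_m3 false .thrR = true := by decide +kernel

def a2e_2_r3_thrR1 : rowsOk stA2E a2e_2 a2e_2_m3 true .thrR = true := by decide +kernel

def a2e_2_r3_thrL0 : rowsOk stA2E a2e_2 a2e_2_m3 false .thrL = true := by decide +kernel

def a2e_2_r3_thrL1 : rowsOk stA2E a2e_2 a2e_2_m3 true .thrL = true := by decide +kernel

def a2e_2_r3_threeE0 : rowsOk stA2E a2e_2 a2e_2_m3 false .threeE = true := by decide +kernel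

def a2e_2_r3_threeE1 : rowsOk stA2E a2e_2 a2e_2_m3 true .threeE = true := by decide +kernel

def a2e_2_r3_ring0 : rowsOk stA2E a2e_2 a2e_2_m3 false .ring = true := by decide +kernel

def a2e_2_r3_ring1 : rowsOk stA2E a2e_2 a2e_2_m3 true .ring = true := by decide +kernel

theorem a2e_2_r0 : allRows stA2E a2e_2 a2e_2_m0 = true := by
  refine allRows_of fun P => ?_
  cases P
  exacts [⟨a2e_2_r0_one0, a2e_2_r0_one1⟩,
    ⟨a2e_2_r0_two0, a2e_2_r0_two1⟩,
    ⟨a2e_2_r0_twoE0, a2e_2_r0_twoE1⟩,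
    ⟨a2e_2_r0_thrR0, a2e_2_r0_thrR1⟩,
    ⟨a2e_2_r0_thrL0, a2e_2_r0_thrL1⟩,
    ⟨a2e_2_r0_threeE0, a2e_2_r0_threeE1⟩,
    ⟨a2e_2_r0_ring0, a2e_2_r0_ring1⟩]

theorem a2e_2_r1 : allRows stA2E a2e_2 a2e_2_m1 = true := by
  refine allRows_of fun P => ?_
  cases P
  exacts [⟨a2e_2_r1_one0, a2e_2_r1_one1⟩,
    ⟨a2e_2_r1_two0, a2e_2_r1_two1⟩,
    ⟨a2e_2_r1_twoE0, a2e_2_r1_twoE1⟩,
    ⟨a2e_2_r1_thrR0, a2e_2_r1_thrR1⟩,
    ⟨a2e_2_r1_thrL0, a2e_2_r1_thrL1⟩,
    ⟨a2e_2_r1_threeE0, a2e_2_r1_threeE1⟩,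
    ⟨a2e_2_r1_ring0, a2e_2_r1_ring1⟩]

theorem a2e_2_r2 : allRows stA2E a2e_2 a2e_2_m2 = true := by
  refine allRows_of fun P => ?_
  cases P
  exacts [⟨a2e_2_r2_one0, a2e_2_r2_one1⟩,
    ⟨a2e_2_r2_two0, a2e_2_r2_two1⟩,
    ⟨a2e_2_r2_twoE0, a2e_2_r2_twoE1⟩,
    ⟨a2e_2_r2_thrR0, a2e_2_r2_thrR1⟩,
    ⟨a2e_2_r2_thrL0, a2e_2_r2_thrL1⟩,
    ⟨a2e_2_r2_threeE0, a2e_2_r2_threeE1⟩,
    ⟨a2e_2_r2_ring0, a2e_2_r2_ring1⟩]

theorem a2e_2_r3 : allRows stA2E a2e_2 a2e_2_m3 = true := by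
  refine allRows_of fun P => ?_
  cases P
  exacts [⟨a2e_2_r3_one0, a2e_2_r3_one1⟩,
    ⟨a2e_2_r3_two0, a2e_2_r3_two1⟩,
    ⟨a2e_2_r3_twoE0, a2e_2_r3_twoE1⟩,
    ⟨a2e_2_r3_thrR0, a2e_2_r3_thrR1⟩,
    ⟨a2e_2_r3_thrL0, a2e_2_r3_thrL1⟩,
    ⟨a2e_2_r3_threeE0, a2e_2_r3_threeE1⟩,
    ⟨a2e_2_r3_ring0, a2e_2_r3_ring1⟩]

theorem a2e_2_ok : a2e_2.ok stA2E = true := by
  have h : (PC.all.all fun P => PC.all.all fun Q => pairOk stA2E a2e_2 P Q) = true := by decide +kernel
  have d0 : mdOk stA2E a2e_2_m0.md = true := by decide +kernel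
  have d1 : mdOk stA2E a2e_2_m1.md = true := by decide +kernel
  have d2 : mdOk stA2E a2e_2_m2.md = true := by decide +kernel
  have d3 : mdOk stA2E a2e_2_m3.md = true := by decide +kernel
  unfold Piece.ok
  rw [h, Bool.true_and]
  show List.all [a2e_2_m0, a2e_2_m1, a2e_2_m2, a2e_2_m3] _ = true
  rw [List.all_eq_true]
  intro m hm
  simp only [List.mem_cons, List.not_mem_nil, or_false] at hm
  rcases hm with rfl | rfl | rfl | rfl
  · rw [a2e_2_r0, d0]; rfl
  · rw [a2e_2_r1, d1]; rfl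
  · rw [a2e_2_r2, d2]; rfl
  · rw [a2e_2_r3, d3]; rfl

end OR

end Pool.Agent.Work.MP_b30479_gtS.G2

end

section

set_option deprecated.oldSectionVars true

namespace Pool.Agent.Work.MP_b30479_gtS.G2

namespace OR

/-- windows -/
def a2e_3_wp : PC → Win
  | .one => ⟨0, 0, 0, 0, 0, 0⟩
  | .two => ⟨0, 0, 0, 0, 0, 0⟩
  | .twoE => ⟨-790, -360, -310, 250, 230, 820⟩
  | .thrR => ⟨0, 0, 0, 0, 0, 0⟩
  | .thrL => ⟨0, 0, 0, 0, 0, 0⟩
  | .threeE => ⟨0, 0, 0, 0, 0, 0⟩
  | .ring => ⟨0, 0, 0, 0, 0, 0⟩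

/-- windows -/
def a2e_3_wq : PC → Win
  | .one => ⟨0, 0, 0, 0, 0, 0⟩
  | .two => ⟨0, 0, 0, 0, 0, 0⟩
  | .twoE => ⟨0, 0, 0, 0, 0, 0⟩
  | .thrR => ⟨0, 0, 0, 0, 0, 0⟩
  | .thrL => ⟨0, 0, 0, 0, 0, 0⟩
  | .threeE => ⟨0, 0, 0, 0, 0, 0⟩
  | .ring => ⟨600, 1300, 110, 690, -820, -230⟩

/-- mode -/
def a2e_3_m0 : Mode where
  md := .V 300 1000
  lam := 1250
  ct := 1500
  gp := fun
    | .one => [e00, e00, e00, e00, e00, e00, e00, e00]
    | .two => [e00, e00, e00, e00, e00, e00]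
    | .twoE => [⟨771, [8]⟩, ⟨-696, [9348055205922]⟩, ⟨-696, [36532487042, 2179, 8, 8, 13, 36649904178]⟩, ⟨-696, [0, 0, 0, 0, 13, 2178]⟩, ⟨-1435, [0, 0, 0, 0, 8, 8]⟩, e00]
    | .thrR => [e00, e00, e00, e00, e00, e00]
    | .thrL => [e00, e00, e00, e00, e00, e00]
    | .threeE => [e00, e00, e00, e00, e00, e00]
    | .ring => [e00, e00, e00, e00, e00, e00]
  gq := fun
    | .one => [e00, e00, e00, e00, e00, e00, e00, e00]
    | .two => [e00, e00, e00, e00, e00, e00]
    | .twoE => [e00, e00, e00, e00, e00, e00]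
    | .thrR => [e00, e00, e00, e00, e00, e00]
    | .thrL => [e00, e00, e00, e00, e00, e00]
    | .threeE => [e00, e00, e00, e00, e00, e00]
    | .ring => [⟨-145, [829088398693642882]⟩, ⟨-145, [628278753329514531]⟩, ⟨-145, [2179, 2179, 8, 8, 2179, 8]⟩, ⟨-145, [0, 0, 0, 0, 559154, 13]⟩, ⟨-1613, [0, 0, 0, 0, 743380850863591509142358960290696851040306, 8]⟩, ⟨-1795, [0, 0, 0, 0, 2178, 557954]⟩]

/-- mode -/
def a2e_3_m1 : Mode where
  md := .V 150 1000
  lam := 0
  ct := -2000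
  gp := fun
    | .one => [e00, e00, e00, e00, e00, e00, e00, e00]
    | .two => [e00, e00, e00, e00, e00, e00]
    | .twoE => [e00, e00, e00, e00, e00, ⟨-1398, [0, 0, 0, 0, 557698, 8]⟩]
    | .thrR => [e00, e00, e00, e00, e00, e00]
    | .thrL => [e00, e00, e00, e00, e00, e00]
    | .threeE => [e00, e00, e00, e00, e00, e00]
    | .ring => [e00, e00, e00, e00, e00, e00]
  gq := fun
    | .one => [e00, e00, e00, e00, e00, e00, e00, e00]
    | .two => [e00, e00, e00, e00, e00, e00]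
    | .twoE => [e00, e00, e00, e00, e00, e00]
    | .thrR => [e00, e00, e00, e00, e00, e00]
    | .thrL => [e00, e00, e00, e00, e00, e00]
    | .threeE => [e00, e00, e00, e00, e00, e00]
    | .ring => [⟨1394, [59876884425084134486511322782730258]⟩, ⟨1394, [233921933850426168255183713306643]⟩, ⟨1394, [40861008259, 40861008259, 2677875627098497, 8, 40861008259, 8]⟩, ⟨1394, [0, 0, 0, 0, 2402989157914674, 13]⟩, ⟨1198, [0, 0, 0, 0, 143140914, 8]⟩, ⟨-1975, [0, 0, 0, 0, 8, 8]⟩]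

/-- mode -/
def a2e_3_m2 : Mode where
  md := .V 550 1000
  lam := 250
  ct := 1500
  gp := fun
    | .one => [e00, e00, e00, e00, e00, e00, e00, e00]
    | .two => [e00, e00, e00, e00, e00, e00]
    | .twoE => [⟨-115, [143163682]⟩, e00, e00, e00, e00, e00]
    | .thrR => [e00, e00, e00, e00, e00, e00]
    | .thrL => [e00, e00, e00, e00, e00, e00]
    | .threeE => [e00, e00, e00, e00, e00, e00]
    | .ring => [e00, e00, e00, e00, e00, e00]
  gq := fun
    | .one => [e00, e00, e00, e00, e00, e00, e00, e00]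
    | .two => [e00, e00, e00, e00, e00, e00]
    | .twoE => [e00, e00, e00, e00, e00, e00]
    | .thrR => [e00, e00, e00, e00, e00, e00]
    | .thrL => [e00, e00, e00, e00, e00, e00]
    | .threeE => [e00, e00, e00, e00, e00, e00]
    | .ring => [⟨-57, [80974328243739407762086848335528085449950959237485947078479611793277234]⟩, ⟨-57, [1005715353648842399238325504925300020511027]⟩, ⟨-57, [557443, 2179, 8, 8, 2179, 8]⟩, ⟨-57, [0, 0, 0, 0, 9361018094130, 13]⟩, e00, e00]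

/-- piece -/
def a2e_3 : Piece := ⟨7750, 7900, 0, 820, a2e_3_wp, a2e_3_wq, [a2e_3_m0, a2e_3_m1, a2e_3_m2]⟩

set_option linter.defProp false

def a2e_3_r0_one0 : rowsOk stA2E a2e_3 a2e_3_m0 false .one = true := by decide +kernel

def a2e_3_r0_one1 : rowsOk stA2E a2e_3 a2e_3_m0 true .one = true := by decide +kernel

def a2e_3_r0_two0 : rowsOk stA2E a2e_3 a2e_3_m0 false .two = true := by decide +kernel

def a2e_3_r0_two1 : rowsOk stA2E a2e_3 a2e_3_m0 true .two = true := by decide +kernel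

def a2e_3_r0_twoE0 : rowsOk stA2E a2e_3 a2e_3_m0 false .twoE = true := by decide +kernel

def a2e_3_r0_twoE1 : rowsOk stA2E a2e_3 a2e_3_m0 true .twoE = true := by decide +kernel

def a2e_3_r0_thrR0 : rowsOk stA2E a2e_3 a2e_3_m0 false .thrR = true := by decide +kernel

def a2e_3_r0_thrR1 : rowsOk stA2E a2e_3 a2e_3_m0 true .thrR = true := by decide +kernel

def a2e_3_r0_thrL0 : rowsOk stA2E a2e_3 a2e_3_m0 false .thrL = true := by decide +kernel

def a2e_3_r0_thrL1 : rowsOk stA2E a2e_3 a2e_3_m0 true .thrL = true := by decide +kernel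

def a2e_3_r0_threeE0 : rowsOk stA2E a2e_3 a2e_3_m0 false .threeE = true := by decide +kernel

def a2e_3_r0_threeE1 : rowsOk stA2E a2e_3 a2e_3_m0 true .threeE = true := by decide +kernel

def a2e_3_r0_ring0 : rowsOk stA2E a2e_3 a2e_3_m0 false .ring = true := by decide +kernel

def a2e_3_r0_ring1 : rowsOk stA2E a2e_3 a2e_3_m0 true .ring = true := by decide +kernel

def a2e_3_r1_one0 : rowsOk stA2E a2e_3 a2e_3_m1 false .one = true := by decide +kernel

def a2e_3_r1_one1 : rowsOk stA2E a2e_3 a2e_3_m1 true .one = true := by decide +kernel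

def a2e_3_r1_two0 : rowsOk stA2E a2e_3 a2e_3_m1 false .two = true := by decide +kernel

def a2e_3_r1_two1 : rowsOk stA2E a2e_3 a2e_3_m1 true .two = true := by decide +kernel

def a2e_3_r1_twoE0 : rowsOk stA2E a2e_3 a2e_3_m1 false .twoE = true := by decide +kernel

def a2e_3_r1_twoE1 : rowsOk stA2E a2e_3 a2e_3_m1 true .twoE = true := by decide +kernel

def a2e_3_r1_thrR0 : rowsOk stA2E a2e_3 a2e_3_m1 false .thrR = true := by decide +kernel

def a2e_3_r1_thrR1 : rowsOk stA2E a2e_3 a2e_3_m1 true .thrR = true := by decide +kernel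

def a2e_3_r1_thrL0 : rowsOk stA2E a2e_3 a2e_3_m1 false .thrL = true := by decide +kernel

def a2e_3_r1_thrL1 : rowsOk stA2E a2e_3 a2e_3_m1 true .thrL = true := by decide +kernel

def a2e_3_r1_threeE0 : rowsOk stA2E a2e_3 a2e_3_m1 false .threeE = true := by decide +kernel

def a2e_3_r1_threeE1 : rowsOk stA2E a2e_3 a2e_3_m1 true .threeE = true := by decide +kernel

def a2e_3_r1_ring0 : rowsOk stA2E a2e_3 a2e_3_m1 false .ring = true := by decide +kernel

def a2e_3_r1_ring1 : rowsOk stA2E a2e_3 a2e_3_m1 true .ring = true := by decide +kernel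

def a2e_3_r2_one0 : rowsOk stA2E a2e_3 a2e_3_m2 false .one = true := by decide +kernel

def a2e_3_r2_one1 : rowsOk stA2E a2e_3 a2e_3_m2 true .one = true := by decide +kernel

def a2e_3_r2_two0 : rowsOk stA2E a2e_3 a2e_3_m2 false .two = true := by decide +kernel

def a2e_3_r2_two1 : rowsOk stA2E a2e_3 a2e_3_m2 true .two = true := by decide +kernel

def a2e_3_r2_twoE0 : rowsOk stA2E a2e_3 a2e_3_m2 false .twoE = true := by decide +kernel

def a2e_3_r2_twoE1 : rowsOk stA2E a2e_3 a2e_3_m2 true .twoE = true := by decide +kernel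

def a2e_3_r2_thrR0 : rowsOk stA2E a2e_3 a2e_3_m2 false .thrR = true := by decide +kernel

def a2e_3_r2_thrR1 : rowsOk stA2E a2e_3 a2e_3_m2 true .thrR = true := by decide +kernel

def a2e_3_r2_thrL0 : rowsOk stA2E a2e_3 a2e_3_m2 false .thrL = true := by decide +kernel

def a2e_3_r2_thrL1 : rowsOk stA2E a2e_3 a2e_3_m2 true .thrL = true := by decide +kernel

def a2e_3_r2_threeE0 : rowsOk stA2E a2e_3 a2e_3_m2 false .threeE = true := by decide +kernel

def a2e_3_r2_threeE1 : rowsOk stA2E a2e_3 a2e_3_m2 true .threeE = true := by decide +kernel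

def a2e_3_r2_ring0 : rowsOk stA2E a2e_3 a2e_3_m2 false .ring = true := by decide +kernel

def a2e_3_r2_ring1 : rowsOk stA2E a2e_3 a2e_3_m2 true .ring = true := by decide +kernel

theorem a2e_3_r0 : allRows stA2E a2e_3 a2e_3_m0 = true := by
  refine allRows_of fun P => ?_
  cases P
  exacts [⟨a2e_3_r0_one0, a2e_3_r0_one1⟩,
    ⟨a2e_3_r0_two0, a2e_3_r0_two1⟩,
    ⟨a2e_3_r0_twoE0, a2e_3_r0_twoE1⟩,
    ⟨a2e_3_r0_thrR0, a2e_3_r0_thrR1⟩,
    ⟨a2e_3_r0_thrL0, a2e_3_r0_thrL1⟩,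
    ⟨a2e_3_r0_threeE0, a2e_3_r0_threeE1⟩,
    ⟨a2e_3_r0_ring0, a2e_3_r0_ring1⟩]

theorem a2e_3_r1 : allRows stA2E a2e_3 a2e_3_m1 = true := by
  refine allRows_of fun P => ?_
  cases P
  exacts [⟨a2e_3_r1_one0, a2e_3_r1_one1⟩,
    ⟨a2e_3_r1_two0, a2e_3_r1_two1⟩,
    ⟨a2e_3_r1_twoE0, a2e_3_r1_twoE1⟩,
    ⟨a2e_3_r1_thrR0, a2e_3_r1_thrR1⟩,
    ⟨a2e_3_r1_thrL0, a2e_3_r1_thrL1⟩,
    ⟨a2e_3_r1_threeE0, a2e_3_r1_threeE1⟩,
    ⟨a2e_3_r1_ring0, a2e_3_r1_ring1⟩]

theorem a2e_3_r2 : allRows stA2E a2e_3 a2e_3_m2 = true := by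
  refine allRows_of fun P => ?_
  cases P
  exacts [⟨a2e_3_r2_one0, a2e_3_r2_one1⟩,
    ⟨a2e_3_r2_two0, a2e_3_r2_two1⟩,
    ⟨a2e_3_r2_twoE0, a2e_3_r2_twoE1⟩,
    ⟨a2e_3_r2_thrR0, a2e_3_r2_thrR1⟩,
    ⟨a2e_3_r2_thrL0, a2e_3_r2_thrL1⟩,
    ⟨a2e_3_r2_threeE0, a2e_3_r2_threeE1⟩,
    ⟨a2e_3_r2_ring0, a2e_3_r2_ring1⟩]

theorem a2e_3_ok : a2e_3.ok stA2E = true := by
  have h : (PC.all.all fun P => PC.all.all fun Q => pairOk stA2E a2e_3 P Q) = true := by decide +kernel
  have d0 : mdOk stA2E a2e_3_m0.md = true := by decide +kernel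
  have d1 : mdOk stA2E a2e_3_m1.md = true := by decide +kernel
  have d2 : mdOk stA2E a2e_3_m2.md = true := by decide +kernel
  unfold Piece.ok
  rw [h, Bool.true_and]
  show List.all [a2e_3_m0, a2e_3_m1, a2e_3_m2] _ = true
  rw [List.all_eq_true]
  intro m hm
  simp only [List.mem_cons, List.not_mem_nil, or_false] at hm
  rcases hm with rfl | rfl | rfl
  · rw [a2e_3_r0, d0]; rfl
  · rw [a2e_3_r1, d1]; rfl
  · rw [a2e_3_r2, d2]; rfl

end OR

end Pool.Agent.Work.MP_b30479_gtS.G2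

end

section

set_option deprecated.oldSectionVars true

namespace Pool.Agent.Work.MP_b30479_gtS.G2

namespace OR

/-- windows -/
def s2f_10_wp : PC → Win
  | .one => ⟨0, 0, 0, 0, 0, 0⟩
  | .two => ⟨-230, 780, -360, 760, -660, 530⟩
  | .twoE => ⟨-790, -140, -520, 270, -160, 820⟩
  | .thrR => ⟨100, 920, -70, 910, -630, 480⟩
  | .thrL => ⟨100, 920, -70, 910, -630, 480⟩
  | .threeE => ⟨-20, 610, 0, 860, -380, 650⟩
  | .ring => ⟨270, 1300, 110, 1120, -820, 440⟩

/-- windows -/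
def s2f_10_wq : PC → Win
  | .one => ⟨0, 0, 0, 0, 0, 0⟩
  | .two => ⟨-230, 780, -360, 760, -660, 530⟩
  | .twoE => ⟨-790, -140, -520, 270, -160, 820⟩
  | .thrR => ⟨100, 920, -70, 910, -630, 480⟩
  | .thrL => ⟨100, 920, -70, 910, -630, 480⟩
  | .threeE => ⟨-20, 610, 0, 860, -380, 650⟩
  | .ring => ⟨270, 1300, 110, 1120, -820, 440⟩

/-- mode -/
def s2f_10_m0 : Mode where
  md := .D
  lam := 2000
  ct := 0
  gp := fun
    | .one => [e00, e00, e00, e00, e00, e00, e00, e00]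
    | .two => [e00, e00, e00, e00, ⟨-4433, [44206160885905192971142635377406257, 8, 44206160885905192971142635377406257]⟩, ⟨-4082, [0, 8, 985818528134834388398472640626876252644053082195989879199116061168171696075042]⟩]
    | .twoE => [e00, e00, e00, e00, e00]
    | .thrR => [e00, e00, e00, e00, ⟨-4584, [172680315960567160043527707590961, 8, 40168398575952578773297]⟩, ⟨-4584, [0, 8, 1190690020624945855822992620049924269926905594650187236884929747008097367476246468284842164317005746722]⟩]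
    | .thrL => [e00, e00, e00, e00, e00]
    | .threeE => [e00, e00, e00, e00, ⟨-4213, [2396420783486993, 8, 9361017636897]⟩, ⟨-4213, [0, 0, 9352434123042]⟩]
    | .ring => [e00, e00, e00, e00, ⟨-5153, [912940928242701542578684879425683757035104630433394993, 8, 189861748502831236415590683097481128641245458]⟩, ⟨-4466, [0, 0, 11306390136962938329458873279144206626]⟩]
  gq := fun
    | .one => [e00, e00, e00, e00, e00, e00, e00, e00]
    | .two => [⟨1662, [557442]⟩, ⟨1662, [8]⟩, ⟨1662, [2177]⟩, ⟨1662, [673913372527999497034546026530]⟩, ⟨1662, [44300706912091866522290419004880914, 8, 157387727270162497841]⟩, ⟨1662, [0, 8, 48604607583080225607054527603272754868744433954]⟩]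
    | .twoE => [⟨3122, [8]⟩, ⟨3122, [8]⟩, ⟨3122, [8]⟩, ⟨3122, [2178]⟩, ⟨3122, [8]⟩]
    | .thrR => [⟨2129, [8]⟩, ⟨2129, [2177]⟩, ⟨1442, [2177]⟩, ⟨1442, [673913372527999497034546026530]⟩, ⟨1442, [10283101997803068843374610, 8, 9380536260657]⟩, ⟨1442, [0, 8, 190261571405000072362704266845762178805600802]⟩]
    | .thrL => [⟨1778, [2177]⟩, ⟨1778, [2177]⟩, ⟨1442, [2177]⟩, ⟨1442, [36566042642]⟩, ⟨1442, [142837809]⟩]
    | .threeE => [⟨1982, [8]⟩, ⟨1982, [8]⟩, ⟨1982, [8]⟩, ⟨1982, [557442]⟩, ⟨1982, [157387727261572171794, 8, 142706737]⟩, ⟨1982, [0, 0, 143144978]⟩]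
    | .ring => [⟨1560, [12659441500546]⟩, ⟨1560, [12659552519041]⟩, ⟨1560, [36566041473]⟩, ⟨942, [11311449769802721749519496707860628242]⟩, ⟨942, [230022421333261778384335643105645400414708017628756480230099789578770, 8, 156907724953105215762]⟩, ⟨942, [0, 0, 157410808347108778274]⟩]

/-- mode -/
def s2f_10_m1 : Mode where
  md := .V 300 1000
  lam := 750
  ct := 0
  gp := fun
    | .one => [e00, e00, e00, e00, e00, e00, e00, e00]
    | .two => [e00, e00, e00, e00, e00, ⟨-1603, [0, 0, 0, 0, 87207195705897530174326887110751592724635685378763402631568085198143969190065474808270140665191762524377874, 3185391527675680168139028134737070317994114764841746]⟩]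
    | .twoE => [e00, e00, e00, e00, e00]
    | .thrR => [e00, e00, e00, e00, e00, e00]
    | .thrL => [e00, e00, e00, e00, e00]
    | .threeE => [e00, e00, e00, e00, e00, e00]
    | .ring => [e00, e00, e00, e00, e00, ⟨-1977, [0, 0, 0, 0, 2897060262424129485323116331501233602834, 53392387125216200871387160902080396203067608487606776574482]⟩]
  gq := fun
    | .one => [e00, e00, e00, e00, e00, e00, e00, e00]
    | .two => [e00, e00, e00, e00, e00, e00]
    | .twoE => [e00, e00, e00, e00, e00]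
    | .thrR => [⟨736, [8]⟩, ⟨736, [8]⟩, e00, e00, e00, e00]
    | .thrL => [⟨840, [8]⟩, ⟨840, [8]⟩, e00, e00, e00]
    | .threeE => [e00, e00, e00, e00, e00, e00]
    | .ring => [⟨549, [557442]⟩, ⟨549, [2177]⟩, ⟨549, [2177]⟩, e00, e00, e00]

/-- piece -/
def s2f_10 : Piece := ⟨5100, 5400, -820, 820, s2f_10_wp, s2f_10_wq, [s2f_10_m0, s2f_10_m1]⟩

set_option linter.defProp false

def s2f_10_r0_one0 : rowsOk stS2F s2f_10 s2f_10_m0 false .one = true := by decide +kernel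

def s2f_10_r0_one1 : rowsOk stS2F s2f_10 s2f_10_m0 true .one = true := by decide +kernel

def s2f_10_r0_two0 : rowsOk stS2F s2f_10 s2f_10_m0 false .two = true := by decide +kernel

def s2f_10_r0_two1 : rowsOk stS2F s2f_10 s2f_10_m0 true .two = true := by decide +kernel

def s2f_10_r0_twoE0 : rowsOk stS2F s2f_10 s2f_10_m0 false .twoE = true := by decide +kernel

def s2f_10_r0_twoE1 : rowsOk stS2F s2f_10 s2f_10_m0 true .twoE = true := by decide +kernel

def s2f_10_r0_thrR0 : rowsOk stS2F s2f_10 s2f_10_m0 false .thrR = true := by decide +kernel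

def s2f_10_r0_thrR1 : rowsOk stS2F s2f_10 s2f_10_m0 true .thrR = true := by decide +kernel

def s2f_10_r0_thrL0 : rowsOk stS2F s2f_10 s2f_10_m0 false .thrL = true := by decide +kernel

def s2f_10_r0_thrL1 : rowsOk stS2F s2f_10 s2f_10_m0 true .thrL = true := by decide +kernel

def s2f_10_r0_threeE0 : rowsOk stS2F s2f_10 s2f_10_m0 false .threeE = true := by decide +kernel

def s2f_10_r0_threeE1 : rowsOk stS2F s2f_10 s2f_10_m0 true .threeE = true := by decide +kernel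

def s2f_10_r0_ring0 : rowsOk stS2F s2f_10 s2f_10_m0 false .ring = true := by decide +kernel

def s2f_10_r0_ring1 : rowsOk stS2F s2f_10 s2f_10_m0 true .ring = true := by decide +kernel

def s2f_10_r1_one0 : rowsOk stS2F s2f_10 s2f_10_m1 false .one = true := by decide +kernel

def s2f_10_r1_one1 : rowsOk stS2F s2f_10 s2f_10_m1 true .one = true := by decide +kernel

def s2f_10_r1_two0 : rowsOk stS2F s2f_10 s2f_10_m1 false .two = true := by decide +kernel

def s2f_10_r1_two1 : rowsOk stS2F s2f_10 s2f_10_m1 true .two = true := by decide +kernel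

def s2f_10_r1_twoE0 : rowsOk stS2F s2f_10 s2f_10_m1 false .twoE = true := by decide +kernel

def s2f_10_r1_twoE1 : rowsOk stS2F s2f_10 s2f_10_m1 true .twoE = true := by decide +kernel

def s2f_10_r1_thrR0 : rowsOk stS2F s2f_10 s2f_10_m1 false .thrR = true := by decide +kernel

def s2f_10_r1_thrR1 : rowsOk stS2F s2f_10 s2f_10_m1 true .thrR = true := by decide +kernel

def s2f_10_r1_thrL0 : rowsOk stS2F s2f_10 s2f_10_m1 false .thrL = true := by decide +kernel

def s2f_10_r1_thrL1 : rowsOk stS2F s2f_10 s2f_10_m1 true .thrL = true := by decide +kernel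

def s2f_10_r1_threeE0 : rowsOk stS2F s2f_10 s2f_10_m1 false .threeE = true := by decide +kernel

def s2f_10_r1_threeE1 : rowsOk stS2F s2f_10 s2f_10_m1 true .threeE = true := by decide +kernel

def s2f_10_r1_ring0 : rowsOk stS2F s2f_10 s2f_10_m1 false .ring = true := by decide +kernel

def s2f_10_r1_ring1 : rowsOk stS2F s2f_10 s2f_10_m1 true .ring = true := by decide +kernel

theorem s2f_10_r0 : allRows stS2F s2f_10 s2f_10_m0 = true := by
  refine allRows_of fun P => ?_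
  cases P
  exacts [⟨s2f_10_r0_one0, s2f_10_r0_one1⟩,
    ⟨s2f_10_r0_two0, s2f_10_r0_two1⟩,
    ⟨s2f_10_r0_twoE0, s2f_10_r0_twoE1⟩,
    ⟨s2f_10_r0_thrR0, s2f_10_r0_thrR1⟩,
    ⟨s2f_10_r0_thrL0, s2f_10_r0_thrL1⟩,
    ⟨s2f_10_r0_threeE0, s2f_10_r0_threeE1⟩,
    ⟨s2f_10_r0_ring0, s2f_10_r0_ring1⟩]

theorem s2f_10_r1 : allRows stS2F s2f_10 s2f_10_m1 = true := by
  refine allRows_of fun P => ?_
  cases P
  exacts [⟨s2f_10_r1_one0, s2f_10_r1_one1⟩,
    ⟨s2f_10_r1_two0, s2f_10_r1_two1⟩,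
    ⟨s2f_10_r1_twoE0, s2f_10_r1_twoE1⟩,
    ⟨s2f_10_r1_thrR0, s2f_10_r1_thrR1⟩,
    ⟨s2f_10_r1_thrL0, s2f_10_r1_thrL1⟩,
    ⟨s2f_10_r1_threeE0, s2f_10_r1_threeE1⟩,
    ⟨s2f_10_r1_ring0, s2f_10_r1_ring1⟩]

theorem s2f_10_ok : s2f_10.ok stS2F = true := by
  have h : (PC.all.all fun P => PC.all.all fun Q => pairOk stS2F s2f_10 P Q) = true := by decide +kernel
  have d0 : mdOk stS2F s2f_10_m0.md = true := by decide +kernel
  have d1 : mdOk stS2F s2f_10_m1.md = true := by decide +kernel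
  unfold Piece.ok
  rw [h, Bool.true_and]
  show List.all [s2f_10_m0, s2f_10_m1] _ = true
  rw [List.all_eq_true]
  intro m hm
  simp only [List.mem_cons, List.not_mem_nil, or_false] at hm
  rcases hm with rfl | rfl
  · rw [s2f_10_r0, d0]; rfl
  · rw [s2f_10_r1, d1]; rfl

end OR

end Pool.Agent.Work.MP_b30479_gtS.G2

end

section

set_option deprecated.oldSectionVars true

namespace Pool.Agent.Work.MP_b30479_gtS.G2

namespace OR

/-- windows -/
def s2f_4_wp : PC → Win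
  | .one => ⟨0, 0, 0, 0, 0, 0⟩
  | .two => ⟨-230, 780, -360, 760, -660, 530⟩
  | .twoE => ⟨-790, -140, -520, 270, -160, 820⟩
  | .thrR => ⟨100, 920, -70, 910, -630, 480⟩
  | .thrL => ⟨100, 920, -70, 910, -630, 480⟩
  | .threeE => ⟨-20, 610, 0, 860, -380, 650⟩
  | .ring => ⟨270, 1300, 110, 1120, -820, 440⟩

/-- windows -/
def s2f_4_wq : PC → Win
  | .one => ⟨0, 0, 0, 0, 0, 0⟩
  | .two => ⟨-230, 780, -360, 760, -660, 530⟩
  | .twoE => ⟨-790, -140, -520, 270, -160, 820⟩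
  | .thrR => ⟨100, 920, -70, 910, -630, 480⟩
  | .thrL => ⟨100, 920, -70, 910, -630, 480⟩
  | .threeE => ⟨-20, 610, 0, 860, -380, 650⟩
  | .ring => ⟨270, 1300, 110, 1120, -820, 440⟩

/-- mode -/
def s2f_4_m0 : Mode where
  md := .D
  lam := 500
  ct := 0
  gp := fun
    | .one => [e00, e00, e00, e00, e00, e00, e00, e00]
    | .two => [e00, e00, e00, e00, e00, e00]
    | .twoE => [e00, e00, e00, e00, e00]
    | .thrR => [e00, e00, e00, e00, e00, ⟨-5084, [613477495173841681, 8, 0]⟩]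
    | .thrL => [e00, e00, e00, e00, e00]
    | .threeE => [e00, e00, e00, e00, e00, ⟨-8902, [9352426660514]⟩]
    | .ring => [e00, e00, e00, e00, e00, ⟨-5280, [9360906945297, 2177, 0]⟩]
  gq := fun
    | .one => [e00, e00, e00, e00, e00, e00, e00, e00]
    | .two => [⟨4505, [557697]⟩, ⟨4505, [2177]⟩, ⟨4505, [2177]⟩, ⟨4505, [142706706]⟩, ⟨4505, [557442]⟩, ⟨4505, [557442]⟩]
    | .twoE => [⟨4860, [8]⟩, ⟨4860, [8]⟩, ⟨4860, [8]⟩, ⟨4860, [8]⟩, ⟨4860, [8]⟩]
    | .thrR => [⟨4521, [36549264001]⟩, ⟨4521, [10292549363861348629885313]⟩, ⟨4521, [143135361]⟩, ⟨4521, [36532922386]⟩, ⟨4521, [2178]⟩, ⟨4521, [157049957293814351906, 8, 0]⟩]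
    | .thrL => [⟨4455, [212390745249241270305]⟩, ⟨4455, [12659475362177]⟩, ⟨4455, [9382408651137]⟩, ⟨4455, [36532918290]⟩, ⟨4455, [8]⟩]
    | .threeE => [⟨4560, [8]⟩, ⟨4560, [8]⟩, ⟨4560, [8]⟩, ⟨4560, [8]⟩, ⟨4560, [2178]⟩, ⟨4560, [557442]⟩]
    | .ring => [⟨8278, [8]⟩, ⟨8278, [8]⟩, ⟨8278, [8]⟩, ⟨8278, [2177]⟩, ⟨4325, [40186815383279601090850]⟩, ⟨4325, [2394221759858706, 8, 0]⟩]

/-- mode -/
def s2f_4_m1 : Mode where
  md := .V 300 1000
  lam := 0
  ct := 0
  gp := fun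
    | .one => [e00, e00, e00, e00, e00, e00, e00, e00]
    | .two => [e00, e00, e00, e00, e00, e00]
    | .twoE => [e00, e00, e00, e00, e00]
    | .thrR => [e00, e00, e00, e00, e00, ⟨-404, [35403690854730475511613529310404448197965636788070747715798449118785598679909349019455646061427661441102206051271890690592684511979012229123095167619945207730420049833493393470333202, 613483583131648785, 557953, 559121, 36532916689, 614760625890427153]⟩]
    | .thrL => [e00, e00, e00, e00, e00]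
    | .threeE => [e00, e00, e00, e00, e00, e00]
    | .ring => [e00, e00, e00, e00, e00, ⟨-404, [104042096540413705009893369250510071622452280219420215557610147096590427089512382346283701110779006857171674396304839358881846766348284165493010, 612920633178226961, 557441, 143163665, 36532916689, 2401408692826129]⟩]
  gq := fun
    | .one => [e00, e00, e00, e00, e00, e00, e00, e00]
    | .two => [e00, e00, e00, e00, e00, e00]
    | .twoE => [e00, e00, e00, e00, e00]
    | .thrR => [e00, e00, e00, e00, e00, e00]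
    | .thrL => [e00, e00, e00, e00, e00]
    | .threeE => [e00, e00, e00, e00, e00, e00]
    | .ring => [⟨400, [59783053511663785790656760806643745]⟩, ⟨400, [216188563969024735249]⟩, ⟨400, [212725295855576823825]⟩, ⟨400, [1002993085411972729562952813577273266481201]⟩, e00, e00]

/-- piece -/
def s2f_4 : Piece := ⟨3450, 3600, -820, 820, s2f_4_wp, s2f_4_wq, [s2f_4_m0, s2f_4_m1]⟩

set_option linter.defProp false

def s2f_4_r0_one0 : rowsOk stS2F s2f_4 s2f_4_m0 false .one = true := by decide +kernel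

def s2f_4_r0_one1 : rowsOk stS2F s2f_4 s2f_4_m0 true .one = true := by decide +kernel

def s2f_4_r0_two0 : rowsOk stS2F s2f_4 s2f_4_m0 false .two = true := by decide +kernel

def s2f_4_r0_two1 : rowsOk stS2F s2f_4 s2f_4_m0 true .two = true := by decide +kernel

def s2f_4_r0_twoE0 : rowsOk stS2F s2f_4 s2f_4_m0 false .twoE = true := by decide +kernel

def s2f_4_r0_twoE1 : rowsOk stS2F s2f_4 s2f_4_m0 true .twoE = true := by decide +kernel

def s2f_4_r0_thrR0 : rowsOk stS2F s2f_4 s2f_4_m0 false .thrR = true := by decide +kernel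

def s2f_4_r0_thrR1 : rowsOk stS2F s2f_4 s2f_4_m0 true .thrR = true := by decide +kernel

def s2f_4_r0_thrL0 : rowsOk stS2F s2f_4 s2f_4_m0 false .thrL = true := by decide +kernel

def s2f_4_r0_thrL1 : rowsOk stS2F s2f_4 s2f_4_m0 true .thrL = true := by decide +kernel

def s2f_4_r0_threeE0 : rowsOk stS2F s2f_4 s2f_4_m0 false .threeE = true := by decide +kernel

def s2f_4_r0_threeE1 : rowsOk stS2F s2f_4 s2f_4_m0 true .threeE = true := by decide +kernel

def s2f_4_r0_ring0 : rowsOk stS2F s2f_4 s2f_4_m0 false .ring = true := by decide +kernel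

def s2f_4_r0_ring1 : rowsOk stS2F s2f_4 s2f_4_m0 true .ring = true := by decide +kernel

def s2f_4_r1_one0 : rowsOk stS2F s2f_4 s2f_4_m1 false .one = true := by decide +kernel

def s2f_4_r1_one1 : rowsOk stS2F s2f_4 s2f_4_m1 true .one = true := by decide +kernel

def s2f_4_r1_two0 : rowsOk stS2F s2f_4 s2f_4_m1 false .two = true := by decide +kernel

def s2f_4_r1_two1 : rowsOk stS2F s2f_4 s2f_4_m1 true .two = true := by decide +kernel

def s2f_4_r1_twoE0 : rowsOk stS2F s2f_4 s2f_4_m1 false .twoE = true := by decide +kernel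

def s2f_4_r1_twoE1 : rowsOk stS2F s2f_4 s2f_4_m1 true .twoE = true := by decide +kernel

def s2f_4_r1_thrR0 : rowsOk stS2F s2f_4 s2f_4_m1 false .thrR = true := by decide +kernel

def s2f_4_r1_thrR1 : rowsOk stS2F s2f_4 s2f_4_m1 true .thrR = true := by decide +kernel

def s2f_4_r1_thrL0 : rowsOk stS2F s2f_4 s2f_4_m1 false .thrL = true := by decide +kernel

def s2f_4_r1_thrL1 : rowsOk stS2F s2f_4 s2f_4_m1 true .thrL = true := by decide +kernel

def s2f_4_r1_threeE0 : rowsOk stS2F s2f_4 s2f_4_m1 false .threeE = true := by decide +kernel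

def s2f_4_r1_threeE1 : rowsOk stS2F s2f_4 s2f_4_m1 true .threeE = true := by decide +kernel

def s2f_4_r1_ring0 : rowsOk stS2F s2f_4 s2f_4_m1 false .ring = true := by decide +kernel

def s2f_4_r1_ring1 : rowsOk stS2F s2f_4 s2f_4_m1 true .ring = true := by decide +kernel

theorem s2f_4_r0 : allRows stS2F s2f_4 s2f_4_m0 = true := by
  refine allRows_of fun P => ?_
  cases P
  exacts [⟨s2f_4_r0_one0, s2f_4_r0_one1⟩,
    ⟨s2f_4_r0_two0, s2f_4_r0_two1⟩,
    ⟨s2f_4_r0_twoE0, s2f_4_r0_twoE1⟩,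
    ⟨s2f_4_r0_thrR0, s2f_4_r0_thrR1⟩,
    ⟨s2f_4_r0_thrL0, s2f_4_r0_thrL1⟩,
    ⟨s2f_4_r0_threeE0, s2f_4_r0_threeE1⟩,
    ⟨s2f_4_r0_ring0, s2f_4_r0_ring1⟩]

theorem s2f_4_r1 : allRows stS2F s2f_4 s2f_4_m1 = true := by
  refine allRows_of fun P => ?_
  cases P
  exacts [⟨s2f_4_r1_one0, s2f_4_r1_one1⟩,
    ⟨s2f_4_r1_two0, s2f_4_r1_two1⟩,
    ⟨s2f_4_r1_twoE0, s2f_4_r1_twoE1⟩,
    ⟨s2f_4_r1_thrR0, s2f_4_r1_thrR1⟩,
    ⟨s2f_4_r1_thrL0, s2f_4_r1_thrL1⟩,
    ⟨s2f_4_r1_threeE0, s2f_4_r1_threeE1⟩,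
    ⟨s2f_4_r1_ring0, s2f_4_r1_ring1⟩]

theorem s2f_4_ok : s2f_4.ok stS2F = true := by
  have h : (PC.all.all fun P => PC.all.all fun Q => pairOk stS2F s2f_4 P Q) = true := by decide +kernel
  have d0 : mdOk stS2F s2f_4_m0.md = true := by decide +kernel
  have d1 : mdOk stS2F s2f_4_m1.md = true := by decide +kernel
  unfold Piece.ok
  rw [h, Bool.true_and]
  show List.all [s2f_4_m0, s2f_4_m1] _ = true
  rw [List.all_eq_true]
  intro m hm
  simp only [List.mem_cons, List.not_mem_nil, or_false] at hm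
  rcases hm with rfl | rfl
  · rw [s2f_4_r0, d0]; rfl
  · rw [s2f_4_r1, d1]; rfl

end OR

end Pool.Agent.Work.MP_b30479_gtS.G2

end
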