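import Pool.Agent.Work.MP_b30479_gt.TBS.G2.OTab
import Pool.Agent.Work.MP_b30479_gt.TBS.G2.OS2f_1

section

set_option deprecated.oldSectionVars true

namespace Pool.Agent.Work.MP_b30479_gtS.G2

namespace OR

set_option linter.defProp false

def a2n_1_r0_one0 : rowsOk stA2 a2n_1 a2n_1_m0 false .one = true := by decide +kernel

def a2n_1_r0_one1 : rowsOk stA2 a2n_1 a2n_1_m0 true .one = true := by decide +kernel

def a2n_1_r0_two0 : rowsOk stA2 a2n_1 a2n_1_m0 false .two = true := by decide +kernel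

def a2n_1_r0_two1_0 : cellOk stA2 a2n_1 a2n_1_m0 true .two ((stA2.bins .two).getD 0 b00)
    ((a2n_1_m0.g true .two).getD 0 e00) = true := by decide +kernel

def a2n_1_r0_two1_1 : cellOk stA2 a2n_1 a2n_1_m0 true .two ((stA2.bins .two).getD 1 b00)
    ((a2n_1_m0.g true .two).getD 1 e00) = true := by decide +kernel

def a2n_1_r0_two1_2 : cellOk stA2 a2n_1 a2n_1_m0 true .two ((stA2.bins .two).getD 2 b00)
    ((a2n_1_m0.g true .two).getD 2 e00) = true := by decide +kernel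

def a2n_1_r0_two1_3 : cellOk stA2 a2n_1 a2n_1_m0 true .two ((stA2.bins .two).getD 3 b00)
    ((a2n_1_m0.g true .two).getD 3 e00) = true := by decide +kernel

def a2n_1_r0_two1_4 : cellOk stA2 a2n_1 a2n_1_m0 true .two ((stA2.bins .two).getD 4 b00)
    ((a2n_1_m0.g true .two).getD 4 e00) = true := by decide +kernel

def a2n_1_r0_two1_5 : cellOk stA2 a2n_1 a2n_1_m0 true .two ((stA2.bins .two).getD 5 b00)
    ((a2n_1_m0.g true .two).getD 5 e00) = true := by decide +kernel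

theorem a2n_1_r0_two1 : rowsOk stA2 a2n_1 a2n_1_m0 true .two = true := by
  refine rowsOk_of fun i hi => ?_
  have hi : i < 6 := hi
  interval_cases i
  exacts [a2n_1_r0_two1_0, a2n_1_r0_two1_1, a2n_1_r0_two1_2, a2n_1_r0_two1_3, a2n_1_r0_two1_4, a2n_1_r0_two1_5]

def a2n_1_r0_twoE0 : rowsOk stA2 a2n_1 a2n_1_m0 false .twoE = true := by decide +kernel

def a2n_1_r0_twoE1 : rowsOk stA2 a2n_1 a2n_1_m0 true .twoE = true := by decide +kernel

def a2n_1_r0_thrR0 : rowsOk stA2 a2n_1 a2n_1_m0 false .thrR = true := by decide +kernel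

def a2n_1_r0_thrR1_0 : cellOk stA2 a2n_1 a2n_1_m0 true .thrR ((stA2.bins .thrR).getD 0 b00)
    ((a2n_1_m0.g true .thrR).getD 0 e00) = true := by decide +kernel

def a2n_1_r0_thrR1_1 : cellOk stA2 a2n_1 a2n_1_m0 true .thrR ((stA2.bins .thrR).getD 1 b00)
    ((a2n_1_m0.g true .thrR).getD 1 e00) = true := by decide +kernel

def a2n_1_r0_thrR1_2 : cellOk stA2 a2n_1 a2n_1_m0 true .thrR ((stA2.bins .thrR).getD 2 b00)
    ((a2n_1_m0.g true .thrR).getD 2 e00) = true := by decide +kernel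

def a2n_1_r0_thrR1_3 : cellOk stA2 a2n_1 a2n_1_m0 true .thrR ((stA2.bins .thrR).getD 3 b00)
    ((a2n_1_m0.g true .thrR).getD 3 e00) = true := by decide +kernel

def a2n_1_r0_thrR1_4 : cellOk stA2 a2n_1 a2n_1_m0 true .thrR ((stA2.bins .thrR).getD 4 b00)
    ((a2n_1_m0.g true .thrR).getD 4 e00) = true := by decide +kernel

def a2n_1_r0_thrR1_5 : cellOk stA2 a2n_1 a2n_1_m0 true .thrR ((stA2.bins .thrR).getD 5 b00)
    ((a2n_1_m0.g true .thrR).getD 5 e00) = true := by decide +kernel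

theorem a2n_1_r0_thrR1 : rowsOk stA2 a2n_1 a2n_1_m0 true .thrR = true := by
  refine rowsOk_of fun i hi => ?_
  have hi : i < 6 := hi
  interval_cases i
  exacts [a2n_1_r0_thrR1_0, a2n_1_r0_thrR1_1, a2n_1_r0_thrR1_2, a2n_1_r0_thrR1_3, a2n_1_r0_thrR1_4, a2n_1_r0_thrR1_5]

def a2n_1_r0_thrL0 : rowsOk stA2 a2n_1 a2n_1_m0 false .thrL = true := by decide +kernel

def a2n_1_r0_thrL1_0 : cellOk stA2 a2n_1 a2n_1_m0 true .thrL ((stA2.bins .thrL).getD 0 b00)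
    ((a2n_1_m0.g true .thrL).getD 0 e00) = true := by decide +kernel

def a2n_1_r0_thrL1_1 : cellOk stA2 a2n_1 a2n_1_m0 true .thrL ((stA2.bins .thrL).getD 1 b00)
    ((a2n_1_m0.g true .thrL).getD 1 e00) = true := by decide +kernel

def a2n_1_r0_thrL1_2 : cellOk stA2 a2n_1 a2n_1_m0 true .thrL ((stA2.bins .thrL).getD 2 b00)
    ((a2n_1_m0.g true .thrL).getD 2 e00) = true := by decide +kernel

def a2n_1_r0_thrL1_3 : cellOk stA2 a2n_1 a2n_1_m0 true .thrL ((stA2.bins .thrL).getD 3 b00)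
    ((a2n_1_m0.g true .thrL).getD 3 e00) = true := by decide +kernel

def a2n_1_r0_thrL1_4 : cellOk stA2 a2n_1 a2n_1_m0 true .thrL ((stA2.bins .thrL).getD 4 b00)
    ((a2n_1_m0.g true .thrL).getD 4 e00) = true := by decide +kernel

def a2n_1_r0_thrL1_5 : cellOk stA2 a2n_1 a2n_1_m0 true .thrL ((stA2.bins .thrL).getD 5 b00)
    ((a2n_1_m0.g true .thrL).getD 5 e00) = true := by decide +kernel

theorem a2n_1_r0_thrL1 : rowsOk stA2 a2n_1 a2n_1_m0 true .thrL = true := by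
  refine rowsOk_of fun i hi => ?_
  have hi : i < 6 := hi
  interval_cases i
  exacts [a2n_1_r0_thrL1_0, a2n_1_r0_thrL1_1, a2n_1_r0_thrL1_2, a2n_1_r0_thrL1_3, a2n_1_r0_thrL1_4, a2n_1_r0_thrL1_5]

def a2n_1_r0_threeE0 : rowsOk stA2 a2n_1 a2n_1_m0 false .threeE = true := by decide +kernel

def a2n_1_r0_threeE1 : rowsOk stA2 a2n_1 a2n_1_m0 true .threeE = true := by decide +kernel

def a2n_1_r0_ring0 : rowsOk stA2 a2n_1 a2n_1_m0 false .ring = true := by decide +kernel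

def a2n_1_r0_ring1 : rowsOk stA2 a2n_1 a2n_1_m0 true .ring = true := by decide +kernel

def a2n_1_r1_one0 : rowsOk stA2 a2n_1 a2n_1_m1 false .one = true := by decide +kernel

def a2n_1_r1_one1 : rowsOk stA2 a2n_1 a2n_1_m1 true .one = true := by decide +kernel

def a2n_1_r1_two0 : rowsOk stA2 a2n_1 a2n_1_m1 false .two = true := by decide +kernel

def a2n_1_r1_two1_0 : cellOk stA2 a2n_1 a2n_1_m1 true .two ((stA2.bins .two).getD 0 b00)
    ((a2n_1_m1.g true .two).getD 0 e00) = true := by decide +kernel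

def a2n_1_r1_two1_1 : cellOk stA2 a2n_1 a2n_1_m1 true .two ((stA2.bins .two).getD 1 b00)
    ((a2n_1_m1.g true .two).getD 1 e00) = true := by decide +kernel

def a2n_1_r1_two1_2 : cellOk stA2 a2n_1 a2n_1_m1 true .two ((stA2.bins .two).getD 2 b00)
    ((a2n_1_m1.g true .two).getD 2 e00) = true := by decide +kernel

def a2n_1_r1_two1_3 : cellOk stA2 a2n_1 a2n_1_m1 true .two ((stA2.bins .two).getD 3 b00)
    ((a2n_1_m1.g true .two).getD 3 e00) = true := by decide +kernel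

def a2n_1_r1_two1_4 : cellOk stA2 a2n_1 a2n_1_m1 true .two ((stA2.bins .two).getD 4 b00)
    ((a2n_1_m1.g true .two).getD 4 e00) = true := by decide +kernel

def a2n_1_r1_two1_5 : cellOk stA2 a2n_1 a2n_1_m1 true .two ((stA2.bins .two).getD 5 b00)
    ((a2n_1_m1.g true .two).getD 5 e00) = true := by decide +kernel

theorem a2n_1_r1_two1 : rowsOk stA2 a2n_1 a2n_1_m1 true .two = true := by
  refine rowsOk_of fun i hi => ?_
  have hi : i < 6 := hi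
  interval_cases i
  exacts [a2n_1_r1_two1_0, a2n_1_r1_two1_1, a2n_1_r1_two1_2, a2n_1_r1_two1_3, a2n_1_r1_two1_4, a2n_1_r1_two1_5]

def a2n_1_r1_twoE0 : rowsOk stA2 a2n_1 a2n_1_m1 false .twoE = true := by decide +kernel

def a2n_1_r1_twoE1 : rowsOk stA2 a2n_1 a2n_1_m1 true .twoE = true := by decide +kernel

end OR

end Pool.Agent.Work.MP_b30479_gtS.G2

end

section

set_option deprecated.oldSectionVars true

namespace Pool.Agent.Work.MP_b30479_gtS.G2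

namespace OR

theorem a2n_1_r0 : allRows stA2 a2n_1 a2n_1_m0 = true := by
  refine allRows_of fun P => ?_
  cases P
  exacts [⟨a2n_1_r0_one0, a2n_1_r0_one1⟩,
    ⟨a2n_1_r0_two0, a2n_1_r0_two1⟩,
    ⟨a2n_1_r0_twoE0, a2n_1_r0_twoE1⟩,
    ⟨a2n_1_r0_thrR0, a2n_1_r0_thrR1⟩,
    ⟨a2n_1_r0_thrL0, a2n_1_r0_thrL1⟩,
    ⟨a2n_1_r0_threeE0, a2n_1_r0_threeE1⟩,
    ⟨a2n_1_r0_ring0, a2n_1_r0_ring1⟩]

theorem a2n_1_r1 : allRows stA2 a2n_1 a2n_1_m1 = true := by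
  refine allRows_of fun P => ?_
  cases P
  exacts [⟨a2n_1_r1_one0, a2n_1_r1_one1⟩,
    ⟨a2n_1_r1_two0, a2n_1_r1_two1⟩,
    ⟨a2n_1_r1_twoE0, a2n_1_r1_twoE1⟩,
    ⟨a2n_1_r1_thrR0, a2n_1_r1_thrR1⟩,
    ⟨a2n_1_r1_thrL0, a2n_1_r1_thrL1⟩,
    ⟨a2n_1_r1_threeE0, a2n_1_r1_threeE1⟩,
    ⟨a2n_1_r1_ring0, a2n_1_r1_ring1⟩]

theorem a2n_1_r2 : allRows stA2 a2n_1 a2n_1_m2 = true := by
  refine allRows_of fun P => ?_
  cases P
  exacts [⟨a2n_1_r2_one0, a2n_1_r2_one1⟩,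
    ⟨a2n_1_r2_two0, a2n_1_r2_two1⟩,
    ⟨a2n_1_r2_twoE0, a2n_1_r2_twoE1⟩,
    ⟨a2n_1_r2_thrR0, a2n_1_r2_thrR1⟩,
    ⟨a2n_1_r2_thrL0, a2n_1_r2_thrL1⟩,
    ⟨a2n_1_r2_threeE0, a2n_1_r2_threeE1⟩,
    ⟨a2n_1_r2_ring0, a2n_1_r2_ring1⟩]

theorem a2n_1_r3 : allRows stA2 a2n_1 a2n_1_m3 = true := by
  refine allRows_of fun P => ?_
  cases P
  exacts [⟨a2n_1_r3_one0, a2n_1_r3_one1⟩,
    ⟨a2n_1_r3_two0, a2n_1_r3_two1⟩,
    ⟨a2n_1_r3_twoE0, a2n_1_r3_twoE1⟩,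
    ⟨a2n_1_r3_thrR0, a2n_1_r3_thrR1⟩,
    ⟨a2n_1_r3_thrL0, a2n_1_r3_thrL1⟩,
    ⟨a2n_1_r3_threeE0, a2n_1_r3_threeE1⟩,
    ⟨a2n_1_r3_ring0, a2n_1_r3_ring1⟩]

theorem a2n_1_r4 : allRows stA2 a2n_1 a2n_1_m4 = true := by
  refine allRows_of fun P => ?_
  cases P
  exacts [⟨a2n_1_r4_one0, a2n_1_r4_one1⟩,
    ⟨a2n_1_r4_two0, a2n_1_r4_two1⟩,
    ⟨a2n_1_r4_twoE0, a2n_1_r4_twoE1⟩,
    ⟨a2n_1_r4_thrR0, a2n_1_r4_thrR1⟩,
    ⟨a2n_1_r4_thrL0, a2n_1_r4_thrL1⟩,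
    ⟨a2n_1_r4_threeE0, a2n_1_r4_threeE1⟩,
    ⟨a2n_1_r4_ring0, a2n_1_r4_ring1⟩]

theorem a2n_1_ok : a2n_1.ok stA2 = true := by
  have h : (PC.all.all fun P => PC.all.all fun Q => pairOk stA2 a2n_1 P Q) = true := by decide +kernel
  have d0 : mdOk stA2 a2n_1_m0.md = true := by decide +kernel
  have d1 : mdOk stA2 a2n_1_m1.md = true := by decide +kernel
  have d2 : mdOk stA2 a2n_1_m2.md = true := by decide +kernel
  have d3 : mdOk stA2 a2n_1_m3.md = true := by decide +kernel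
  have d4 : mdOk stA2 a2n_1_m4.md = true := by decide +kernel
  unfold Piece.ok
  rw [h, Bool.true_and]
  show List.all [a2n_1_m0, a2n_1_m1, a2n_1_m2, a2n_1_m3, a2n_1_m4] _ = true
  rw [List.all_eq_true]
  intro m hm
  simp only [List.mem_cons, List.not_mem_nil, or_false] at hm
  rcases hm with rfl | rfl | rfl | rfl | rfl
  · rw [a2n_1_r0, d0]; rfl
  · rw [a2n_1_r1, d1]; rfl
  · rw [a2n_1_r2, d2]; rfl
  · rw [a2n_1_r3, d3]; rfl
  · rw [a2n_1_r4, d4]; rfl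

end OR

end Pool.Agent.Work.MP_b30479_gtS.G2

end
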