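import Pool.Agent.Work.MP_b30479_gt.TBS.G2.OKz
import Pool.Agent.Work.MP_b30479_gt.TBS.G2.OTab

section

set_option deprecated.oldSectionVars true

namespace Pool.Agent.Work.MP_b30479_gtS.G2

namespace OR

/-- windows -/
def t2n_0_wp : PC → Win
  | .one => ⟨0, 0, 0, 0, 0, 0⟩
  | .two => ⟨-120, 590, -210, 640, 0, 310⟩
  | .twoE => ⟨-680, -330, -320, 190, 240, 630⟩
  | .thrR => ⟨220, 800, 110, 910, 0, 300⟩
  | .thrL => ⟨220, 800, 110, 910, 0, 300⟩
  | .threeE => ⟨70, 430, 230, 760, 40, 440⟩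
  | .ring => ⟨0, 0, 0, 0, 0, 0⟩

/-- windows -/
def t2n_0_wq : PC → Win
  | .one => ⟨0, 0, 0, 0, 0, 0⟩
  | .two => ⟨-120, 590, -210, 640, -300, 0⟩
  | .twoE => ⟨0, 0, 0, 0, 0, 0⟩
  | .thrR => ⟨220, 920, -70, 910, -630, 0⟩
  | .thrL => ⟨220, 920, -70, 910, -630, 0⟩
  | .threeE => ⟨0, 0, 0, 0, 0, 0⟩
  | .ring => ⟨0, 0, 0, 0, 0, 0⟩

/-- mode -/
def t2n_0_m0 : Mode where
  md := .D
  lam := 4000
  ct := 1000
  gp := fun
    | .one => [e00, e00, e00]
    | .two => [⟨-2445, [8]⟩, ⟨-2445, [8]⟩, ⟨-2445, [157051839730737645618]⟩]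
    | .twoE => [⟨395, [8]⟩, ⟨395, [8]⟩, ⟨395, [142705282]⟩]
    | .thrR => [⟨-2266, [36650364962]⟩, ⟨-2266, [8]⟩, ⟨-2266, [9380613556274]⟩]
    | .thrL => [⟨-2845, [614891446030336802]⟩, ⟨-2845, [2179]⟩, ⟨-2845, [2395320845830194]⟩]
    | .threeE => [⟨-2005, [2178]⟩, ⟨-2005, [8]⟩, ⟨-2005, [36644684418]⟩]
    | .ring => [e00, e00, e00, e00]
  gq := fun
    | .one => [e00, e00, e00]
    | .two => [⟨-2338, [2178]⟩, ⟨-2338, [8]⟩, ⟨-2338, [2394201738412674]⟩]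
    | .twoE => [e00, e00, e00]
    | .thrR => [⟨-2159, [44301260059037948945376979916566818]⟩, ⟨-2159, [8]⟩, ⟨-2159, [172680323938114486113368406132770]⟩]
    | .thrL => [⟨-2738, [11340473538019285414432128713247174946]⟩, ⟨-2738, [2179]⟩, ⟨-2738, [172680323938114486113368406132770]⟩]
    | .threeE => [e00, e00, e00]
    | .ring => [e00, e00, e00, e00]

/-- piece -/
def t2n_0 : Piece := ⟨6000, 6200, 0, 820, t2n_0_wp, t2n_0_wq, [t2n_0_m0]⟩

set_option linter.defProp false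

def t2n_0_r0_one0 : rowsOk stT2 t2n_0 t2n_0_m0 false .one = true := by decide +kernel

def t2n_0_r0_one1 : rowsOk stT2 t2n_0 t2n_0_m0 true .one = true := by decide +kernel

def t2n_0_r0_two0 : rowsOk stT2 t2n_0 t2n_0_m0 false .two = true := by decide +kernel

def t2n_0_r0_two1 : rowsOk stT2 t2n_0 t2n_0_m0 true .two = true := by decide +kernel

def t2n_0_r0_twoE0 : rowsOk stT2 t2n_0 t2n_0_m0 false .twoE = true := by decide +kernel

def t2n_0_r0_twoE1 : rowsOk stT2 t2n_0 t2n_0_m0 true .twoE = true := by decide +kernel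

def t2n_0_r0_thrR0 : rowsOk stT2 t2n_0 t2n_0_m0 false .thrR = true := by decide +kernel

def t2n_0_r0_thrR1 : rowsOk stT2 t2n_0 t2n_0_m0 true .thrR = true := by decide +kernel

def t2n_0_r0_thrL0 : rowsOk stT2 t2n_0 t2n_0_m0 false .thrL = true := by decide +kernel

def t2n_0_r0_thrL1 : rowsOk stT2 t2n_0 t2n_0_m0 true .thrL = true := by decide +kernel

def t2n_0_r0_threeE0 : rowsOk stT2 t2n_0 t2n_0_m0 false .threeE = true := by decide +kernel

def t2n_0_r0_threeE1 : rowsOk stT2 t2n_0 t2n_0_m0 true .threeE = true := by decide +kernel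

def t2n_0_r0_ring0 : rowsOk stT2 t2n_0 t2n_0_m0 false .ring = true := by decide +kernel

def t2n_0_r0_ring1 : rowsOk stT2 t2n_0 t2n_0_m0 true .ring = true := by decide +kernel

theorem t2n_0_r0 : allRows stT2 t2n_0 t2n_0_m0 = true := by
  refine allRows_of fun P => ?_
  cases P
  exacts [⟨t2n_0_r0_one0, t2n_0_r0_one1⟩,
    ⟨t2n_0_r0_two0, t2n_0_r0_two1⟩,
    ⟨t2n_0_r0_twoE0, t2n_0_r0_twoE1⟩,
    ⟨t2n_0_r0_thrR0, t2n_0_r0_thrR1⟩,
    ⟨t2n_0_r0_thrL0, t2n_0_r0_thrL1⟩,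
    ⟨t2n_0_r0_threeE0, t2n_0_r0_threeE1⟩,
    ⟨t2n_0_r0_ring0, t2n_0_r0_ring1⟩]

theorem t2n_0_ok : t2n_0.ok stT2 = true := by
  have h : (PC.all.all fun P => PC.all.all fun Q => pairOk stT2 t2n_0 P Q) = true := by decide +kernel
  have d0 : mdOk stT2 t2n_0_m0.md = true := by decide +kernel
  unfold Piece.ok
  rw [h, Bool.true_and]
  show List.all [t2n_0_m0] _ = true
  rw [List.all_eq_true]
  intro m hm
  simp only [List.mem_cons, List.not_mem_nil, or_false] at hm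
  rcases hm with rfl
  · rw [t2n_0_r0, d0]; rfl

end OR

end Pool.Agent.Work.MP_b30479_gtS.G2

end

section

set_option deprecated.oldSectionVars true

namespace Pool.Agent.Work.MP_b30479_gtS.G2

namespace OR

/-- windows -/
def t2z_1_wp : PC → Win
  | .one => ⟨0, 0, 0, 0, 0, 0⟩
  | .two => ⟨0, 0, 0, 0, 0, 0⟩
  | .twoE => ⟨0, 0, 0, 0, 0, 0⟩
  | .thrR => ⟨100, 700, 100, 850, 0, 480⟩
  | .thrL => ⟨100, 700, 100, 850, 0, 480⟩
  | .threeE => ⟨0, 0, 0, 0, 0, 0⟩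
  | .ring => ⟨390, 1120, 310, 980, 0, 270⟩

/-- windows -/
def t2z_1_wq : PC → Win
  | .one => ⟨0, 0, 0, 0, 0, 0⟩
  | .two => ⟨0, 0, 0, 0, 0, 0⟩
  | .twoE => ⟨0, 0, 0, 0, 0, 0⟩
  | .thrR => ⟨100, 700, 100, 850, -270, 0⟩
  | .thrL => ⟨100, 700, 100, 850, -270, 0⟩
  | .threeE => ⟨0, 0, 0, 0, 0, 0⟩
  | .ring => ⟨390, 1120, 310, 980, -480, 0⟩

/-- mode -/
def t2z_1_m0 : Mode where
  md := .D
  lam := 4000
  ct := 1000
  gp := fun
    | .one => [e00, e00, e00]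
    | .two => [e00, e00, e00]
    | .twoE => [e00, e00, e00]
    | .thrR => [⟨-2639, [9382415008034]⟩, ⟨-2639, [2179]⟩, ⟨-2639, [175827426906017923634]⟩]
    | .thrL => [⟨-2639, [2178]⟩, ⟨-2639, [2179]⟩, ⟨-2639, [175827426906017923634]⟩]
    | .threeE => [e00, e00, e00]
    | .ring => [⟨-3385, [844479597416515635]⟩, ⟨-3385, [10293495917029405572106275]⟩, ⟨-3385, [559154]⟩, ⟨-3385, [36912203826]⟩]
  gq := fun
    | .one => [e00, e00, e00]
    | .two => [e00, e00, e00]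
    | .twoE => [e00, e00, e00]
    | .thrR => [⟨-2659, [9382498865698]⟩, ⟨-2659, [8]⟩, ⟨-2659, [40939718706]⟩]
    | .thrL => [⟨-2659, [8]⟩, ⟨-2659, [8]⟩, ⟨-2659, [40939718706]⟩]
    | .threeE => [e00, e00, e00]
    | .ring => [⟨-3405, [2394201627591187]⟩, ⟨-3405, [613484064085121074]⟩, ⟨-3405, [2178]⟩, ⟨-3405, [45011821937384199062306]⟩]

/-- piece -/
def t2z_1 : Piece := ⟨6275, 6400, 0, 820, t2z_1_wp, t2z_1_wq, [t2z_1_m0]⟩

set_option linter.defProp false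

def t2z_1_r0_one0 : rowsOk stT2Z t2z_1 t2z_1_m0 false .one = true := by decide +kernel

def t2z_1_r0_one1 : rowsOk stT2Z t2z_1 t2z_1_m0 true .one = true := by decide +kernel

def t2z_1_r0_two0 : rowsOk stT2Z t2z_1 t2z_1_m0 false .two = true := by decide +kernel

def t2z_1_r0_two1 : rowsOk stT2Z t2z_1 t2z_1_m0 true .two = true := by decide +kernel

def t2z_1_r0_twoE0 : rowsOk stT2Z t2z_1 t2z_1_m0 false .twoE = true := by decide +kernel

def t2z_1_r0_twoE1 : rowsOk stT2Z t2z_1 t2z_1_m0 true .twoE = true := by decide +kernel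

def t2z_1_r0_thrR0 : rowsOk stT2Z t2z_1 t2z_1_m0 false .thrR = true := by decide +kernel

def t2z_1_r0_thrR1 : rowsOk stT2Z t2z_1 t2z_1_m0 true .thrR = true := by decide +kernel

def t2z_1_r0_thrL0 : rowsOk stT2Z t2z_1 t2z_1_m0 false .thrL = true := by decide +kernel

def t2z_1_r0_thrL1 : rowsOk stT2Z t2z_1 t2z_1_m0 true .thrL = true := by decide +kernel

def t2z_1_r0_threeE0 : rowsOk stT2Z t2z_1 t2z_1_m0 false .threeE = true := by decide +kernel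

def t2z_1_r0_threeE1 : rowsOk stT2Z t2z_1 t2z_1_m0 true .threeE = true := by decide +kernel

def t2z_1_r0_ring0 : rowsOk stT2Z t2z_1 t2z_1_m0 false .ring = true := by decide +kernel

def t2z_1_r0_ring1 : rowsOk stT2Z t2z_1 t2z_1_m0 true .ring = true := by decide +kernel

theorem t2z_1_r0 : allRows stT2Z t2z_1 t2z_1_m0 = true := by
  refine allRows_of fun P => ?_
  cases P
  exacts [⟨t2z_1_r0_one0, t2z_1_r0_one1⟩,
    ⟨t2z_1_r0_two0, t2z_1_r0_two1⟩,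
    ⟨t2z_1_r0_twoE0, t2z_1_r0_twoE1⟩,
    ⟨t2z_1_r0_thrR0, t2z_1_r0_thrR1⟩,
    ⟨t2z_1_r0_thrL0, t2z_1_r0_thrL1⟩,
    ⟨t2z_1_r0_threeE0, t2z_1_r0_threeE1⟩,
    ⟨t2z_1_r0_ring0, t2z_1_r0_ring1⟩]

theorem t2z_1_ok : t2z_1.ok stT2Z = true := by
  have h : (PC.all.all fun P => PC.all.all fun Q => pairOk stT2Z t2z_1 P Q) = true := by decide +kernel
  have d0 : mdOk stT2Z t2z_1_m0.md = true := by decide +kernel
  unfold Piece.ok
  rw [h, Bool.true_and]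
  show List.all [t2z_1_m0] _ = true
  rw [List.all_eq_true]
  intro m hm
  simp only [List.mem_cons, List.not_mem_nil, or_false] at hm
  rcases hm with rfl
  · rw [t2z_1_r0, d0]; rfl

end OR

end Pool.Agent.Work.MP_b30479_gtS.G2

end
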