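import Pool.Agent.Work.MP_b30479_gt.TBS.G2.TRa

section

/-!
# Part of `R3VA`
-/
set_option linter.unusedVariables false
set_option linter.unusedTactic false
set_option linter.unreachableTactic false
set_option linter.unusedSimpArgs false
set_option linter.unnecessarySeqFocus false

set_option deprecated.oldSectionVars true

namespace Pool.Agent.Work.MP_b30479_gtS.G2

open VOL NumUs

namespace R3V

open E

theorem o1_13 {x T m t : ℝ} (h1 : 3600 / 10000 ≤ x ∧ x ≤ 6500 / 10000)
    (h2 : -(920 / 10000) ≤ T ∧ T ≤ -(210 / 10000)) (h3 : 5000 / 10000 ≤ m ∧ m ≤ 6567 / 10000)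
    (h4 : -(1230 / 10000) ≤ t ∧ t ≤ -(150 / 10000)) (a0 : 26 / 100 + m ≤ 11 / 12) (a1 : 1 / 1 ≤ x + m) (a2 : x + m ≤ 13 / 12) :
    48 / 1000 + 115 / 100 * (x - 36 / 100) < gw (26 / 100) T x (MR.tR 65 29 x T) m t (lb 1 (-1) (26 / 100 + m) (T + t))
      (ub 3 (-1) (x + m) (MR.tR 65 29 x T + t)) := by
  have h := posT (G := sub (gwE 65 29 26 tv 1 3 (-1) (-1)) (gl 48 1000 115 100 36 100)) (al := [cge 26 11 12, zle 1 1, zge 13 12])
    (fuel := 26) (c := 341185239189328367274272473012855007061374839846974307842733969895327490390491395)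
    (x := x) (T := T) (x' := m) (t' := t)
    (by decide +kernel : chkT [sub (gwE 65 29 26 tv 1 3 (-1) (-1)) (gl 48 1000 115 100 36 100), cge 26 11 12, zle 1 1, zge 13 12] 26
      341185239189328367274272473012855007061374839846974307842733969895327490390491395
      [NumIs.V.of 10000 3600 6500, NumIs.V.of 10000 (-920) (-210), NumIs.V.of 10000 5000 6567, NumIs.V.of 10000 (-1230) (-150)] = true)
    ⟨by norm_num; linarith only [h1], by norm_num; linarith only [h1]⟩ ⟨by norm_num; linarith only [h2], by norm_num; linarith only [h2]⟩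
    ⟨by norm_num; linarith only [h3], by norm_num; linarith only [h3]⟩ ⟨by norm_num; linarith only [h4], by norm_num; linarith only [h4]⟩
    (by
      intro e he
      simp only [List.mem_cons, List.not_mem_nil, or_false] at he
      rcases he with rfl | rfl | rfl <;>
        (simp only [zge, zle, cge, cle, ypos, yneg, tv, E.val, NumIs.E.val, MR.tE_val, NumIs.lkR]
         norm_num
         linarith only [a0, a1, a2]))
  rw [E.val, gwE_val] at h
  simp only [gl, tv, tK, E.val, NumIs.E.val, NumIs.lkR] at h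
  push_cast at h
  linarith only [h]

theorem o1_14 {x T m t : ℝ} (h1 : 3600 / 10000 ≤ x ∧ x ≤ 6500 / 10000)
    (h2 : -(920 / 10000) ≤ T ∧ T ≤ -(210 / 10000)) (h3 : 5000 / 10000 ≤ m ∧ m ≤ 6567 / 10000)
    (h4 : -(1230 / 10000) ≤ t ∧ t ≤ -(150 / 10000)) (a0 : 26 / 100 + m ≤ 11 / 12) (a1 : 13 / 12 ≤ x + m) :
    48 / 1000 + 115 / 100 * (x - 36 / 100) < gw (26 / 100) T x (MR.tR 65 29 x T) m t (lb 1 (-1) (26 / 100 + m) (T + t))
      (ub 4 (-1) (x + m) (MR.tR 65 29 x T + t)) := by
  have h := posT (G := sub (gwE 65 29 26 tv 1 4 (-1) (-1)) (gl 48 1000 115 100 36 100)) (al := [cge 26 11 12, zle 13 12])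
    (fuel := 26) (c := 64745439895615441379777995579625240738811876070247959061849173254759313414899802144)
    (x := x) (T := T) (x' := m) (t' := t)
    (by decide +kernel : chkT [sub (gwE 65 29 26 tv 1 4 (-1) (-1)) (gl 48 1000 115 100 36 100), cge 26 11 12, zle 13 12] 26
      64745439895615441379777995579625240738811876070247959061849173254759313414899802144
      [NumIs.V.of 10000 3600 6500, NumIs.V.of 10000 (-920) (-210), NumIs.V.of 10000 5000 6567, NumIs.V.of 10000 (-1230) (-150)] = true)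
    ⟨by norm_num; linarith only [h1], by norm_num; linarith only [h1]⟩ ⟨by norm_num; linarith only [h2], by norm_num; linarith only [h2]⟩
    ⟨by norm_num; linarith only [h3], by norm_num; linarith only [h3]⟩ ⟨by norm_num; linarith only [h4], by norm_num; linarith only [h4]⟩
    (by
      intro e he
      simp only [List.mem_cons, List.not_mem_nil, or_false] at he
      rcases he with rfl | rfl <;>
        (simp only [zge, zle, cge, cle, ypos, yneg, tv, E.val, NumIs.E.val, MR.tE_val, NumIs.lkR]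
         norm_num
         linarith only [a0, a1]))
  rw [E.val, gwE_val] at h
  simp only [gl, tv, tK, E.val, NumIs.E.val, NumIs.lkR] at h
  push_cast at h
  linarith only [h]

theorem o1_23 {x T m t : ℝ} (h1 : 3600 / 10000 ≤ x ∧ x ≤ 6500 / 10000)
    (h2 : -(920 / 10000) ≤ T ∧ T ≤ -(210 / 10000)) (h3 : 6566 / 10000 ≤ m ∧ m ≤ 7234 / 10000)
    (h4 : -(1230 / 10000) ≤ t ∧ t ≤ -(150 / 10000)) (a0 : 11 / 12 ≤ 26 / 100 + m) (a1 : 26 / 100 + m ≤ 1 / 1) (a2 : 1 / 1 ≤ x + m) (a3 : x + m ≤ 13 / 12) :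
    48 / 1000 + 115 / 100 * (x - 36 / 100) < gw (26 / 100) T x (MR.tR 65 29 x T) m t (lb 2 (-1) (26 / 100 + m) (T + t))
      (ub 3 (-1) (x + m) (MR.tR 65 29 x T + t)) := by
  have h := posT (G := sub (gwE 65 29 26 tv 2 3 (-1) (-1)) (gl 48 1000 115 100 36 100)) (al := [cle 26 11 12, cge 26 1 1, zle 1 1, zge 13 12])
    (fuel := 26) (c := 88227287931436363760745190931303936390986668240780509950478604464820227)
    (x := x) (T := T) (x' := m) (t' := t)
    (by decide +kernel : chkT [sub (gwE 65 29 26 tv 2 3 (-1) (-1)) (gl 48 1000 115 100 36 100), cle 26 11 12, cge 26 1 1, zle 1 1, zge 13 12] 26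
      88227287931436363760745190931303936390986668240780509950478604464820227
      [NumIs.V.of 10000 3600 6500, NumIs.V.of 10000 (-920) (-210), NumIs.V.of 10000 6566 7234, NumIs.V.of 10000 (-1230) (-150)] = true)
    ⟨by norm_num; linarith only [h1], by norm_num; linarith only [h1]⟩ ⟨by norm_num; linarith only [h2], by norm_num; linarith only [h2]⟩
    ⟨by norm_num; linarith only [a0], by norm_num; linarith only [h3]⟩ ⟨by norm_num; linarith only [h4], by norm_num; linarith only [h4]⟩
    (by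
      intro e he
      simp only [List.mem_cons, List.not_mem_nil, or_false] at he
      rcases he with rfl | rfl | rfl | rfl <;>
        (simp only [zge, zle, cge, cle, ypos, yneg, tv, E.val, NumIs.E.val, MR.tE_val, NumIs.lkR]
         norm_num
         linarith only [a0, h3, h1, a3]))
  rw [E.val, gwE_val] at h
  simp only [gl, tv, tK, E.val, NumIs.E.val, NumIs.lkR] at h
  push_cast at h
  linarith only [h]

theorem o1_24 {x T m t : ℝ} (h1 : 3600 / 10000 ≤ x ∧ x ≤ 6500 / 10000)
    (h2 : -(920 / 10000) ≤ T ∧ T ≤ -(210 / 10000)) (h3 : 6566 / 10000 ≤ m ∧ m ≤ 7400 / 10000)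
    (h4 : -(1230 / 10000) ≤ t ∧ t ≤ -(150 / 10000)) (a0 : 11 / 12 ≤ 26 / 100 + m) (a1 : 26 / 100 + m ≤ 1 / 1) (a2 : 13 / 12 ≤ x + m) :
    48 / 1000 + 115 / 100 * (x - 36 / 100) < gw (26 / 100) T x (MR.tR 65 29 x T) m t (lb 2 (-1) (26 / 100 + m) (T + t))
      (ub 4 (-1) (x + m) (MR.tR 65 29 x T + t)) := by
  have h := posT (G := sub (gwE 65 29 26 tv 2 4 (-1) (-1)) (gl 48 1000 115 100 36 100)) (al := [cle 26 11 12, cge 26 1 1, zle 13 12])
    (fuel := 26) (c := 1082439592209170959770118969931028102147447809257964331054007241680404590938785718757097984)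
    (x := x) (T := T) (x' := m) (t' := t)
    (by decide +kernel : chkT [sub (gwE 65 29 26 tv 2 4 (-1) (-1)) (gl 48 1000 115 100 36 100), cle 26 11 12, cge 26 1 1, zle 13 12] 26
      1082439592209170959770118969931028102147447809257964331054007241680404590938785718757097984
      [NumIs.V.of 10000 3600 6500, NumIs.V.of 10000 (-920) (-210), NumIs.V.of 10000 6566 7400, NumIs.V.of 10000 (-1230) (-150)] = true)
    ⟨by norm_num; linarith only [h1], by norm_num; linarith only [h1]⟩ ⟨by norm_num; linarith only [h2], by norm_num; linarith only [h2]⟩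
    ⟨by norm_num; linarith only [a0], by norm_num; linarith only [h3]⟩ ⟨by norm_num; linarith only [h4], by norm_num; linarith only [h4]⟩
    (by
      intro e he
      simp only [List.mem_cons, List.not_mem_nil, or_false] at he
      rcases he with rfl | rfl | rfl <;>
        (simp only [zge, zle, cge, cle, ypos, yneg, tv, E.val, NumIs.E.val, MR.tE_val, NumIs.lkR]
         norm_num
         linarith only [a0, h3, a2]))
  rw [E.val, gwE_val] at h
  simp only [gl, tv, tK, E.val, NumIs.E.val, NumIs.lkR] at h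
  push_cast at h
  linarith only [h]

end R3V

end Pool.Agent.Work.MP_b30479_gtS.G2

end

section

/-!
# Part of `R3VB`
-/
set_option linter.unusedVariables false
set_option linter.unusedTactic false
set_option linter.unreachableTactic false
set_option linter.unusedSimpArgs false
set_option linter.unnecessarySeqFocus false

set_option deprecated.oldSectionVars true

namespace Pool.Agent.Work.MP_b30479_gtS.G2

open VOL NumUs

namespace R3V

open E

theorem d1_12 {x T m t : ℝ} (h1 : 3600 / 10000 ≤ x ∧ x ≤ 6500 / 10000)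
    (h2 : 210 / 10000 ≤ T ∧ T ≤ 920 / 10000) (h3 : 2666 / 10000 ≤ m ∧ m ≤ 6400 / 10000)
    (h4 : -(910 / 10000) ≤ t ∧ t ≤ 490 / 10000) (a0 : 26 / 100 + m ≤ 11 / 12) (a1 : 11 / 12 ≤ x + m) (a2 : x + m ≤ 1 / 1) (a3 : T + t ≤ 111 / 1000) (a4 : -(22 / 1000) ≤ T + t) :
    -(48 / 1000 + 115 / 100 * (x - 36 / 100)) < g1 (26 / 100) T x (MR.tR 65 29 x T) m t (lb 1 1 (26 / 100 + m) (T + t))
      (ub 2 1 (x + m) (MR.tR 65 29 x T + t)) := by
  have h := posT (G := add (g1E 65 29 26 tv 1 2 1 1) (gl 48 1000 115 100 36 100)) (al := [cge 26 11 12, zle 11 12, zge 1 1, emb (.sub (.add (.var 1) (.var 3)) (.q 111 1000)), emb (.sub (.q (-22) 1000) (.add (.var 1) (.var 3)))])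
    (fuel := 28) (c := 229426183499672481431152337183840150508374464221522912101529889144867)
    (x := x) (T := T) (x' := m) (t' := t)
    (by decide +kernel : chkT [add (g1E 65 29 26 tv 1 2 1 1) (gl 48 1000 115 100 36 100), cge 26 11 12, zle 11 12, zge 1 1, emb (.sub (.add (.var 1) (.var 3)) (.q 111 1000)), emb (.sub (.q (-22) 1000) (.add (.var 1) (.var 3)))] 28
      229426183499672481431152337183840150508374464221522912101529889144867
      [NumIs.V.of 10000 3600 6500, NumIs.V.of 10000 210 920, NumIs.V.of 10000 2666 6400, NumIs.V.of 10000 (-910) 490] = true)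
    ⟨by norm_num; linarith only [h1], by norm_num; linarith only [h1]⟩ ⟨by norm_num; linarith only [h2], by norm_num; linarith only [h2]⟩
    ⟨by norm_num; linarith only [h1, a1], by norm_num; linarith only [h3]⟩ ⟨by norm_num; linarith only [h4], by norm_num; linarith only [h4]⟩
    (by
      intro e he
      simp only [List.mem_cons, List.not_mem_nil, or_false] at he
      rcases he with rfl | rfl | rfl | rfl | rfl <;>
        (simp only [zge, zle, cge, cle, ypos, yneg, tv, E.val, NumIs.E.val, MR.tE_val, NumIs.lkR]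
         norm_num
         linarith only [h3, a1, a2, a3, a4]))
  rw [E.val, g1E_val] at h
  simp only [gl, tv, tK, E.val, NumIs.E.val, NumIs.lkR] at h
  push_cast at h
  linarith only [h]

theorem d1_13p {x T m t : ℝ} (h1 : 3600 / 10000 ≤ x ∧ x ≤ 6500 / 10000)
    (h2 : 210 / 10000 ≤ T ∧ T ≤ 920 / 10000) (h3 : 3500 / 10000 ≤ m ∧ m ≤ 6567 / 10000)
    (h4 : -(910 / 10000) ≤ t ∧ t ≤ 490 / 10000) (a0 : 26 / 100 + m ≤ 11 / 12) (a1 : 1 / 1 ≤ x + m) (a2 : x + m ≤ 13 / 12) (a3 : 0 ≤ MR.tR 65 29 x T + t) (a4 : T + t ≤ 111 / 1000) (a5 : -(22 / 1000) ≤ T + t) :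
    -(48 / 1000 + 115 / 100 * (x - 36 / 100)) < g1 (26 / 100) T x (MR.tR 65 29 x T) m t (lb 1 1 (26 / 100 + m) (T + t))
      (ub 3 1 (x + m) (MR.tR 65 29 x T + t)) := by
  have h := posT (G := add (g1E 65 29 26 tv 1 3 1 1) (gl 48 1000 115 100 36 100)) (al := [cge 26 11 12, zle 1 1, zge 13 12, yneg 65 29, emb (.sub (.add (.var 1) (.var 3)) (.q 111 1000)), emb (.sub (.q (-22) 1000) (.add (.var 1) (.var 3)))])
    (fuel := 28) (c := 2903244261885299253117981657128990539811)
    (x := x) (T := T) (x' := m) (t' := t)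
    (by decide +kernel : chkT [add (g1E 65 29 26 tv 1 3 1 1) (gl 48 1000 115 100 36 100), cge 26 11 12, zle 1 1, zge 13 12, yneg 65 29, emb (.sub (.add (.var 1) (.var 3)) (.q 111 1000)), emb (.sub (.q (-22) 1000) (.add (.var 1) (.var 3)))] 28
      2903244261885299253117981657128990539811
      [NumIs.V.of 10000 3600 6500, NumIs.V.of 10000 210 920, NumIs.V.of 10000 3500 6567, NumIs.V.of 10000 (-910) 490] = true)
    ⟨by norm_num; linarith only [h1], by norm_num; linarith only [h1]⟩ ⟨by norm_num; linarith only [h2], by norm_num; linarith only [h2]⟩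
    ⟨by norm_num; linarith only [h3], by norm_num; linarith only [h3]⟩ ⟨by norm_num; linarith only [h4], by norm_num; linarith only [h4]⟩
    (by
      intro e he
      simp only [List.mem_cons, List.not_mem_nil, or_false] at he
      rcases he with rfl | rfl | rfl | rfl | rfl | rfl <;>
        (simp only [zge, zle, cge, cle, ypos, yneg, tv, E.val, NumIs.E.val, MR.tE_val, NumIs.lkR]
         norm_num
         linarith only [a0, a1, a2, a3, a4, a5]))
  rw [E.val, g1E_val] at h
  simp only [gl, tv, tK, E.val, NumIs.E.val, NumIs.lkR] at h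
  push_cast at h
  linarith only [h]

theorem d1_13m {x T m t : ℝ} (h1 : 3600 / 10000 ≤ x ∧ x ≤ 6500 / 10000)
    (h2 : 210 / 10000 ≤ T ∧ T ≤ 920 / 10000) (h3 : 3500 / 10000 ≤ m ∧ m ≤ 6567 / 10000)
    (h4 : -(910 / 10000) ≤ t ∧ t ≤ 490 / 10000) (a0 : 26 / 100 + m ≤ 11 / 12) (a1 : 1 / 1 ≤ x + m) (a2 : x + m ≤ 13 / 12) (a3 : MR.tR 65 29 x T + t ≤ 0) (a4 : T + t ≤ 111 / 1000) (a5 : -(22 / 1000) ≤ T + t) :
    -(48 / 1000 + 115 / 100 * (x - 36 / 100)) < g1 (26 / 100) T x (MR.tR 65 29 x T) m t (lb 1 1 (26 / 100 + m) (T + t))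
      (ub 3 (-1) (x + m) (MR.tR 65 29 x T + t)) := by
  have h := posT (G := add (g1E 65 29 26 tv 1 3 1 (-1)) (gl 48 1000 115 100 36 100)) (al := [cge 26 11 12, zle 1 1, zge 13 12, ypos 65 29, emb (.sub (.add (.var 1) (.var 3)) (.q 111 1000)), emb (.sub (.q (-22) 1000) (.add (.var 1) (.var 3)))])
    (fuel := 28) (c := 10278378836463481646620707)
    (x := x) (T := T) (x' := m) (t' := t)
    (by decide +kernel : chkT [add (g1E 65 29 26 tv 1 3 1 (-1)) (gl 48 1000 115 100 36 100), cge 26 11 12, zle 1 1, zge 13 12, ypos 65 29, emb (.sub (.add (.var 1) (.var 3)) (.q 111 1000)), emb (.sub (.q (-22) 1000) (.add (.var 1) (.var 3)))] 28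
      10278378836463481646620707
      [NumIs.V.of 10000 3600 6500, NumIs.V.of 10000 210 920, NumIs.V.of 10000 3500 6567, NumIs.V.of 10000 (-910) 490] = true)
    ⟨by norm_num; linarith only [h1], by norm_num; linarith only [h1]⟩ ⟨by norm_num; linarith only [h2], by norm_num; linarith only [h2]⟩
    ⟨by norm_num; linarith only [h3], by norm_num; linarith only [h3]⟩ ⟨by norm_num; linarith only [h4], by norm_num; linarith only [h4]⟩
    (by
      intro e he
      simp only [List.mem_cons, List.not_mem_nil, or_false] at he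
      rcases he with rfl | rfl | rfl | rfl | rfl | rfl <;>
        (simp only [zge, zle, cge, cle, ypos, yneg, tv, E.val, NumIs.E.val, MR.tE_val, NumIs.lkR]
         norm_num
         linarith only [a0, a1, a2, a3, a4, a5]))
  rw [E.val, g1E_val] at h
  simp only [gl, tv, tK, E.val, NumIs.E.val, NumIs.lkR] at h
  push_cast at h
  linarith only [h]

end R3V

end Pool.Agent.Work.MP_b30479_gtS.G2

end

section

/-!
# Part of `R3VB`
-/
set_option linter.unusedVariables false
set_option linter.unusedTactic false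
set_option linter.unreachableTactic false
set_option linter.unusedSimpArgs false
set_option linter.unnecessarySeqFocus false

set_option deprecated.oldSectionVars true

namespace Pool.Agent.Work.MP_b30479_gtS.G2

open VOL NumUs

namespace R3V

open E

theorem d1_24m {x T m t : ℝ} (h1 : 3600 / 10000 ≤ x ∧ x ≤ 6500 / 10000)
    (h2 : 210 / 10000 ≤ T ∧ T ≤ 920 / 10000) (h3 : 6566 / 10000 ≤ m ∧ m ≤ 7400 / 10000)
    (h4 : -(910 / 10000) ≤ t ∧ t ≤ 490 / 10000) (a0 : 11 / 12 ≤ 26 / 100 + m) (a1 : 26 / 100 + m ≤ 1 / 1) (a2 : 13 / 12 ≤ x + m) (a3 : MR.tR 65 29 x T + t ≤ 0) (a4 : T + t ≤ 111 / 1000) (a5 : -(22 / 1000) ≤ T + t) :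
    -(48 / 1000 + 115 / 100 * (x - 36 / 100)) < g1 (26 / 100) T x (MR.tR 65 29 x T) m t (lb 2 1 (26 / 100 + m) (T + t))
      (ub 4 (-1) (x + m) (MR.tR 65 29 x T + t)) := by
  have h := posT (G := add (g1E 65 29 26 tv 2 4 1 (-1)) (gl 48 1000 115 100 36 100)) (al := [cle 26 11 12, cge 26 1 1, zle 13 12, ypos 65 29, emb (.sub (.add (.var 1) (.var 3)) (.q 111 1000)), emb (.sub (.q (-22) 1000) (.add (.var 1) (.var 3)))])
    (fuel := 28) (c := 58679219989127254460875688838279498451010498688529194566780190781997568)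
    (x := x) (T := T) (x' := m) (t' := t)
    (by decide +kernel : chkT [add (g1E 65 29 26 tv 2 4 1 (-1)) (gl 48 1000 115 100 36 100), cle 26 11 12, cge 26 1 1, zle 13 12, ypos 65 29, emb (.sub (.add (.var 1) (.var 3)) (.q 111 1000)), emb (.sub (.q (-22) 1000) (.add (.var 1) (.var 3)))] 28
      58679219989127254460875688838279498451010498688529194566780190781997568
      [NumIs.V.of 10000 3600 6500, NumIs.V.of 10000 210 920, NumIs.V.of 10000 6566 7400, NumIs.V.of 10000 (-910) 490] = true)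
    ⟨by norm_num; linarith only [h1], by norm_num; linarith only [h1]⟩ ⟨by norm_num; linarith only [h2], by norm_num; linarith only [h2]⟩
    ⟨by norm_num; linarith only [a0], by norm_num; linarith only [h3]⟩ ⟨by norm_num; linarith only [h4], by norm_num; linarith only [h4]⟩
    (by
      intro e he
      simp only [List.mem_cons, List.not_mem_nil, or_false] at he
      rcases he with rfl | rfl | rfl | rfl | rfl | rfl <;>
        (simp only [zge, zle, cge, cle, ypos, yneg, tv, E.val, NumIs.E.val, MR.tE_val, NumIs.lkR]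
         norm_num
         linarith only [a0, h3, a2, a3, a4, a5]))
  rw [E.val, g1E_val] at h
  simp only [gl, tv, tK, E.val, NumIs.E.val, NumIs.lkR] at h
  push_cast at h
  linarith only [h]

theorem d1_34p {x T m t : ℝ} (h1 : 3600 / 10000 ≤ x ∧ x ≤ 6500 / 10000)
    (h2 : 210 / 10000 ≤ T ∧ T ≤ 920 / 10000) (h3 : 7400 / 10000 ≤ m ∧ m ≤ 8234 / 10000)
    (h4 : -(910 / 10000) ≤ t ∧ t ≤ 490 / 10000) (a0 : 1 / 1 ≤ 26 / 100 + m) (a1 : 26 / 100 + m ≤ 13 / 12) (a2 : 13 / 12 ≤ x + m) (a3 : 0 ≤ MR.tR 65 29 x T + t) (a4 : T + t ≤ 111 / 1000) (a5 : -(22 / 1000) ≤ T + t) :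
    -(48 / 1000 + 115 / 100 * (x - 36 / 100)) < g1 (26 / 100) T x (MR.tR 65 29 x T) m t (lb 3 1 (26 / 100 + m) (T + t))
      (ub 4 1 (x + m) (MR.tR 65 29 x T + t)) := by
  have h := posT (G := add (g1E 65 29 26 tv 3 4 1 1) (gl 48 1000 115 100 36 100)) (al := [cle 26 1 1, cge 26 13 12, zle 13 12, yneg 65 29, emb (.sub (.add (.var 1) (.var 3)) (.q 111 1000)), emb (.sub (.q (-22) 1000) (.add (.var 1) (.var 3)))])
    (fuel := 28) (c := 40149930849485495730944)
    (x := x) (T := T) (x' := m) (t' := t)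
    (by decide +kernel : chkT [add (g1E 65 29 26 tv 3 4 1 1) (gl 48 1000 115 100 36 100), cle 26 1 1, cge 26 13 12, zle 13 12, yneg 65 29, emb (.sub (.add (.var 1) (.var 3)) (.q 111 1000)), emb (.sub (.q (-22) 1000) (.add (.var 1) (.var 3)))] 28
      40149930849485495730944
      [NumIs.V.of 10000 3600 6500, NumIs.V.of 10000 210 920, NumIs.V.of 10000 7400 8234, NumIs.V.of 10000 (-910) 490] = true)
    ⟨by norm_num; linarith only [h1], by norm_num; linarith only [h1]⟩ ⟨by norm_num; linarith only [h2], by norm_num; linarith only [h2]⟩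
    ⟨by norm_num; linarith only [h3], by norm_num; linarith only [h3]⟩ ⟨by norm_num; linarith only [h4], by norm_num; linarith only [h4]⟩
    (by
      intro e he
      simp only [List.mem_cons, List.not_mem_nil, or_false] at he
      rcases he with rfl | rfl | rfl | rfl | rfl | rfl <;>
        (simp only [zge, zle, cge, cle, ypos, yneg, tv, E.val, NumIs.E.val, MR.tE_val, NumIs.lkR]
         norm_num
         linarith only [h3, a1, h1, a3, a4, a5]))
  rw [E.val, g1E_val] at h
  simp only [gl, tv, tK, E.val, NumIs.E.val, NumIs.lkR] at h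
  push_cast at h
  linarith only [h]

theorem d1_44p {x T m t : ℝ} (h1 : 3600 / 10000 ≤ x ∧ x ≤ 6500 / 10000)
    (h2 : 210 / 10000 ≤ T ∧ T ≤ 920 / 10000) (h3 : 8233 / 10000 ≤ m ∧ m ≤ 8600 / 10000)
    (h4 : -(910 / 10000) ≤ t ∧ t ≤ 490 / 10000) (a0 : 13 / 12 ≤ 26 / 100 + m) (a1 : 13 / 12 ≤ x + m) (a2 : 0 ≤ MR.tR 65 29 x T + t) (a3 : T + t ≤ 111 / 1000) (a4 : -(22 / 1000) ≤ T + t) :
    -(48 / 1000 + 115 / 100 * (x - 36 / 100)) < g1 (26 / 100) T x (MR.tR 65 29 x T) m t (lb 4 1 (26 / 100 + m) (T + t))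
      (ub 4 1 (x + m) (MR.tR 65 29 x T + t)) := by
  have h := posT (G := add (g1E 65 29 26 tv 4 4 1 1) (gl 48 1000 115 100 36 100)) (al := [cle 26 13 12, zle 13 12, yneg 65 29, emb (.sub (.add (.var 1) (.var 3)) (.q 111 1000)), emb (.sub (.q (-22) 1000) (.add (.var 1) (.var 3)))])
    (fuel := 28) (c := 36649927424)
    (x := x) (T := T) (x' := m) (t' := t)
    (by decide +kernel : chkT [add (g1E 65 29 26 tv 4 4 1 1) (gl 48 1000 115 100 36 100), cle 26 13 12, zle 13 12, yneg 65 29, emb (.sub (.add (.var 1) (.var 3)) (.q 111 1000)), emb (.sub (.q (-22) 1000) (.add (.var 1) (.var 3)))] 28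
      36649927424
      [NumIs.V.of 10000 3600 6500, NumIs.V.of 10000 210 920, NumIs.V.of 10000 8233 8600, NumIs.V.of 10000 (-910) 490] = true)
    ⟨by norm_num; linarith only [h1], by norm_num; linarith only [h1]⟩ ⟨by norm_num; linarith only [h2], by norm_num; linarith only [h2]⟩
    ⟨by norm_num; linarith only [a0], by norm_num; linarith only [h3]⟩ ⟨by norm_num; linarith only [h4], by norm_num; linarith only [h4]⟩
    (by
      intro e he
      simp only [List.mem_cons, List.not_mem_nil, or_false] at he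
      rcases he with rfl | rfl | rfl | rfl | rfl <;>
        (simp only [zge, zle, cge, cle, ypos, yneg, tv, E.val, NumIs.E.val, MR.tE_val, NumIs.lkR]
         norm_num
         linarith only [a0, h1, a2, a3, a4]))
  rw [E.val, g1E_val] at h
  simp only [gl, tv, tK, E.val, NumIs.E.val, NumIs.lkR] at h
  push_cast at h
  linarith only [h]

end R3V

end Pool.Agent.Work.MP_b30479_gtS.G2

end

section

/-!
# Value rows at `3 | 2`, near the right end
-/

set_option linter.unusedVariables false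
set_option linter.unusedTactic false
set_option linter.unreachableTactic false
set_option linter.unusedSimpArgs false
set_option linter.unnecessarySeqFocus false

set_option deprecated.oldSectionVars true

namespace Pool.Agent.Work.MP_b30479_gtS.G2

open VOL NumUs

namespace R3V

open E

theorem c2o_m {x T m t : ℝ} (h1 : 5600 / 10000 ≤ x ∧ x ≤ 6000 / 10000)
    (h2 : -(570 / 10000) ≤ T ∧ T ≤ 50 / 10000) (h3 : 7000 / 10000 ≤ m ∧ m ≤ 8000 / 10000)
    (h4 : -(1160 / 10000) ≤ t ∧ t ≤ 50 / 10000) (a0 : MR.tR 60 30 x T + t ≤ 0) :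
    30 / 100 < gw (20 / 100) T x (MR.tR 60 30 x T) m t (lb 2 (-1) (20 / 100 + m) (T + t))
      (ub 4 (-1) (x + m) (MR.tR 60 30 x T + t)) := by
  have h := posT (G := sub (gwE 60 30 20 tv 2 4 (-1) (-1)) (q 30 100)) (al := [ypos 60 30])
    (fuel := 24) (c := 2179)
    (x := x) (T := T) (x' := m) (t' := t)
    (by decide +kernel : chkT [sub (gwE 60 30 20 tv 2 4 (-1) (-1)) (q 30 100), ypos 60 30] 24
      2179
      [NumIs.V.of 10000 5600 6000, NumIs.V.of 10000 (-570) 50, NumIs.V.of 10000 7000 8000, NumIs.V.of 10000 (-1160) 50] = true)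
    ⟨by norm_num; linarith only [h1], by norm_num; linarith only [h1]⟩ ⟨by norm_num; linarith only [h2], by norm_num; linarith only [h2]⟩
    ⟨by norm_num; linarith only [h3], by norm_num; linarith only [h3]⟩ ⟨by norm_num; linarith only [h4], by norm_num; linarith only [h4]⟩
    (by
      intro e he
      simp only [List.mem_cons, List.not_mem_nil, or_false] at he
      rcases he with rfl <;>
        (simp only [zge, zle, cge, cle, ypos, yneg, tv, E.val, NumIs.E.val, MR.tE_val, NumIs.lkR]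
         norm_num
         linarith only [a0]))
  rw [E.val, gwE_val] at h
  simp only [gl, tv, tK, E.val, NumIs.E.val, NumIs.lkR] at h
  push_cast at h
  linarith only [h]

theorem c2o_p {x T m t : ℝ} (h1 : 5600 / 10000 ≤ x ∧ x ≤ 6000 / 10000)
    (h2 : -(570 / 10000) ≤ T ∧ T ≤ 50 / 10000) (h3 : 7000 / 10000 ≤ m ∧ m ≤ 8000 / 10000)
    (h4 : -(1160 / 10000) ≤ t ∧ t ≤ 50 / 10000) (a0 : 0 ≤ MR.tR 60 30 x T + t) :
    30 / 100 < gw (20 / 100) T x (MR.tR 60 30 x T) m t (lb 2 (-1) (20 / 100 + m) (T + t))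
      (ub 4 1 (x + m) (MR.tR 60 30 x T + t)) := by
  have h := posT (G := sub (gwE 60 30 20 tv 2 4 (-1) 1) (q 30 100)) (al := [yneg 60 30])
    (fuel := 24) (c := 2179)
    (x := x) (T := T) (x' := m) (t' := t)
    (by decide +kernel : chkT [sub (gwE 60 30 20 tv 2 4 (-1) 1) (q 30 100), yneg 60 30] 24
      2179
      [NumIs.V.of 10000 5600 6000, NumIs.V.of 10000 (-570) 50, NumIs.V.of 10000 7000 8000, NumIs.V.of 10000 (-1160) 50] = true)
    ⟨by norm_num; linarith only [h1], by norm_num; linarith only [h1]⟩ ⟨by norm_num; linarith only [h2], by norm_num; linarith only [h2]⟩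
    ⟨by norm_num; linarith only [h3], by norm_num; linarith only [h3]⟩ ⟨by norm_num; linarith only [h4], by norm_num; linarith only [h4]⟩
    (by
      intro e he
      simp only [List.mem_cons, List.not_mem_nil, or_false] at he
      rcases he with rfl <;>
        (simp only [zge, zle, cge, cle, ypos, yneg, tv, E.val, NumIs.E.val, MR.tE_val, NumIs.lkR]
         norm_num
         linarith only [a0]))
  rw [E.val, gwE_val] at h
  simp only [gl, tv, tK, E.val, NumIs.E.val, NumIs.lkR] at h
  push_cast at h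
  linarith only [h]

theorem c2d_11 {x T m t : ℝ} (h1 : 5600 / 10000 ≤ x ∧ x ≤ 6000 / 10000)
    (h2 : -(50 / 10000) ≤ T ∧ T ≤ 570 / 10000) (h3 : 0 / 10000 ≤ m ∧ m ≤ 3567 / 10000)
    (h4 : -(985 / 10000) ≤ t ∧ t ≤ 960 / 10000) (a0 : 20 / 100 + m ≤ 11 / 12) (a1 : x + m ≤ 11 / 12) :
    -(30 / 100) < gw (20 / 100) T x (MR.tR 60 30 x T) m t (lb 1 1 (20 / 100 + m) (T + t))
      (ub 1 1 (x + m) (MR.tR 60 30 x T + t)) := by
  have h := posT (G := add (gwE 60 30 20 tv 1 1 1 1) (q 30 100)) (al := [cge 20 11 12, zge 11 12])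
    (fuel := 24) (c := 36566172290)
    (x := x) (T := T) (x' := m) (t' := t)
    (by decide +kernel : chkT [add (gwE 60 30 20 tv 1 1 1 1) (q 30 100), cge 20 11 12, zge 11 12] 24
      36566172290
      [NumIs.V.of 10000 5600 6000, NumIs.V.of 10000 (-50) 570, NumIs.V.of 10000 0 3567, NumIs.V.of 10000 (-985) 960] = true)
    ⟨by norm_num; linarith only [h1], by norm_num; linarith only [h1]⟩ ⟨by norm_num; linarith only [h2], by norm_num; linarith only [h2]⟩
    ⟨by norm_num; linarith only [h3], by norm_num; linarith only [h3]⟩ ⟨by norm_num; linarith only [h4], by norm_num; linarith only [h4]⟩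
    (by
      intro e he
      simp only [List.mem_cons, List.not_mem_nil, or_false] at he
      rcases he with rfl | rfl <;>
        (simp only [zge, zle, cge, cle, ypos, yneg, tv, E.val, NumIs.E.val, MR.tE_val, NumIs.lkR]
         norm_num
         linarith only [h3, a1]))
  rw [E.val, gwE_val] at h
  simp only [gl, tv, tK, E.val, NumIs.E.val, NumIs.lkR] at h
  push_cast at h
  linarith only [h]

theorem c2d_12 {x T m t : ℝ} (h1 : 5600 / 10000 ≤ x ∧ x ≤ 6000 / 10000)
    (h2 : -(50 / 10000) ≤ T ∧ T ≤ 570 / 10000) (h3 : 3166 / 10000 ≤ m ∧ m ≤ 4400 / 10000)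
    (h4 : -(985 / 10000) ≤ t ∧ t ≤ 960 / 10000) (a0 : 20 / 100 + m ≤ 11 / 12) (a1 : 11 / 12 ≤ x + m) (a2 : x + m ≤ 1 / 1) :
    -(30 / 100) < gw (20 / 100) T x (MR.tR 60 30 x T) m t (lb 1 1 (20 / 100 + m) (T + t))
      (ub 2 1 (x + m) (MR.tR 60 30 x T + t)) := by
  have h := posT (G := add (gwE 60 30 20 tv 1 2 1 1) (q 30 100)) (al := [cge 20 11 12, zle 11 12, zge 1 1])
    (fuel := 24) (c := 8)
    (x := x) (T := T) (x' := m) (t' := t)
    (by decide +kernel : chkT [add (gwE 60 30 20 tv 1 2 1 1) (q 30 100), cge 20 11 12, zle 11 12, zge 1 1] 24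
      8
      [NumIs.V.of 10000 5600 6000, NumIs.V.of 10000 (-50) 570, NumIs.V.of 10000 3166 4400, NumIs.V.of 10000 (-985) 960] = true)
    ⟨by norm_num; linarith only [h1], by norm_num; linarith only [h1]⟩ ⟨by norm_num; linarith only [h2], by norm_num; linarith only [h2]⟩
    ⟨by norm_num; linarith only [h1, a1], by norm_num; linarith only [h3]⟩ ⟨by norm_num; linarith only [h4], by norm_num; linarith only [h4]⟩
    (by
      intro e he
      simp only [List.mem_cons, List.not_mem_nil, or_false] at he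
      rcases he with rfl | rfl | rfl <;>
        (simp only [zge, zle, cge, cle, ypos, yneg, tv, E.val, NumIs.E.val, MR.tE_val, NumIs.lkR]
         norm_num
         linarith only [h3, a1, a2]))
  rw [E.val, gwE_val] at h
  simp only [gl, tv, tK, E.val, NumIs.E.val, NumIs.lkR] at h
  push_cast at h
  linarith only [h]

theorem c2d_13m {x T m t : ℝ} (h1 : 5600 / 10000 ≤ x ∧ x ≤ 6000 / 10000)
    (h2 : -(50 / 10000) ≤ T ∧ T ≤ 570 / 10000) (h3 : 4000 / 10000 ≤ m ∧ m ≤ 5234 / 10000)
    (h4 : -(985 / 10000) ≤ t ∧ t ≤ 960 / 10000) (a0 : 20 / 100 + m ≤ 11 / 12) (a1 : 1 / 1 ≤ x + m) (a2 : x + m ≤ 13 / 12) (a3 : MR.tR 60 30 x T + t ≤ 0) :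
    -(30 / 100) < gw (20 / 100) T x (MR.tR 60 30 x T) m t (lb 1 1 (20 / 100 + m) (T + t))
      (ub 3 (-1) (x + m) (MR.tR 60 30 x T + t)) := by
  have h := posT (G := add (gwE 60 30 20 tv 1 3 1 (-1)) (q 30 100)) (al := [cge 20 11 12, zle 1 1, zge 13 12, ypos 60 30])
    (fuel := 24) (c := 8)
    (x := x) (T := T) (x' := m) (t' := t)
    (by decide +kernel : chkT [add (gwE 60 30 20 tv 1 3 1 (-1)) (q 30 100), cge 20 11 12, zle 1 1, zge 13 12, ypos 60 30] 24
      8
      [NumIs.V.of 10000 5600 6000, NumIs.V.of 10000 (-50) 570, NumIs.V.of 10000 4000 5234, NumIs.V.of 10000 (-985) 960] = true)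
    ⟨by norm_num; linarith only [h1], by norm_num; linarith only [h1]⟩ ⟨by norm_num; linarith only [h2], by norm_num; linarith only [h2]⟩
    ⟨by norm_num; linarith only [h3], by norm_num; linarith only [h3]⟩ ⟨by norm_num; linarith only [h4], by norm_num; linarith only [h4]⟩
    (by
      intro e he
      simp only [List.mem_cons, List.not_mem_nil, or_false] at he
      rcases he with rfl | rfl | rfl | rfl <;>
        (simp only [zge, zle, cge, cle, ypos, yneg, tv, E.val, NumIs.E.val, MR.tE_val, NumIs.lkR]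
         norm_num
         linarith only [h3, a1, a2, a3]))
  rw [E.val, gwE_val] at h
  simp only [gl, tv, tK, E.val, NumIs.E.val, NumIs.lkR] at h
  push_cast at h
  linarith only [h]

theorem c2d_13p {x T m t : ℝ} (h1 : 5600 / 10000 ≤ x ∧ x ≤ 6000 / 10000)
    (h2 : -(50 / 10000) ≤ T ∧ T ≤ 570 / 10000) (h3 : 4000 / 10000 ≤ m ∧ m ≤ 5234 / 10000)
    (h4 : -(985 / 10000) ≤ t ∧ t ≤ 960 / 10000) (a0 : 20 / 100 + m ≤ 11 / 12) (a1 : 1 / 1 ≤ x + m) (a2 : x + m ≤ 13 / 12) (a3 : 0 ≤ MR.tR 60 30 x T + t) :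
    -(30 / 100) < gw (20 / 100) T x (MR.tR 60 30 x T) m t (lb 1 1 (20 / 100 + m) (T + t))
      (ub 3 1 (x + m) (MR.tR 60 30 x T + t)) := by
  have h := posT (G := add (gwE 60 30 20 tv 1 3 1 1) (q 30 100)) (al := [cge 20 11 12, zle 1 1, zge 13 12, yneg 60 30])
    (fuel := 24) (c := 8)
    (x := x) (T := T) (x' := m) (t' := t)
    (by decide +kernel : chkT [add (gwE 60 30 20 tv 1 3 1 1) (q 30 100), cge 20 11 12, zle 1 1, zge 13 12, yneg 60 30] 24
      8
      [NumIs.V.of 10000 5600 6000, NumIs.V.of 10000 (-50) 570, NumIs.V.of 10000 4000 5234, NumIs.V.of 10000 (-985) 960] = true)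
    ⟨by norm_num; linarith only [h1], by norm_num; linarith only [h1]⟩ ⟨by norm_num; linarith only [h2], by norm_num; linarith only [h2]⟩
    ⟨by norm_num; linarith only [h3], by norm_num; linarith only [h3]⟩ ⟨by norm_num; linarith only [h4], by norm_num; linarith only [h4]⟩
    (by
      intro e he
      simp only [List.mem_cons, List.not_mem_nil, or_false] at he
      rcases he with rfl | rfl | rfl | rfl <;>
        (simp only [zge, zle, cge, cle, ypos, yneg, tv, E.val, NumIs.E.val, MR.tE_val, NumIs.lkR]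
         norm_num
         linarith only [h3, a1, a2, a3]))
  rw [E.val, gwE_val] at h
  simp only [gl, tv, tK, E.val, NumIs.E.val, NumIs.lkR] at h
  push_cast at h
  linarith only [h]

theorem c2d_14m {x T m t : ℝ} (h1 : 5600 / 10000 ≤ x ∧ x ≤ 6000 / 10000)
    (h2 : -(50 / 10000) ≤ T ∧ T ≤ 570 / 10000) (h3 : 4833 / 10000 ≤ m ∧ m ≤ 7167 / 10000)
    (h4 : -(985 / 10000) ≤ t ∧ t ≤ 960 / 10000) (a0 : 20 / 100 + m ≤ 11 / 12) (a1 : 13 / 12 ≤ x + m) (a2 : MR.tR 60 30 x T + t ≤ 0) :
    -(30 / 100) < gw (20 / 100) T x (MR.tR 60 30 x T) m t (lb 1 1 (20 / 100 + m) (T + t))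
      (ub 4 (-1) (x + m) (MR.tR 60 30 x T + t)) := by
  have h := posT (G := add (gwE 60 30 20 tv 1 4 1 (-1)) (q 30 100)) (al := [cge 20 11 12, zle 13 12, ypos 60 30])
    (fuel := 24) (c := 559154)
    (x := x) (T := T) (x' := m) (t' := t)
    (by decide +kernel : chkT [add (gwE 60 30 20 tv 1 4 1 (-1)) (q 30 100), cge 20 11 12, zle 13 12, ypos 60 30] 24
      559154
      [NumIs.V.of 10000 5600 6000, NumIs.V.of 10000 (-50) 570, NumIs.V.of 10000 4833 7167, NumIs.V.of 10000 (-985) 960] = true)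
    ⟨by norm_num; linarith only [h1], by norm_num; linarith only [h1]⟩ ⟨by norm_num; linarith only [h2], by norm_num; linarith only [h2]⟩
    ⟨by norm_num; linarith only [h1, a1], by norm_num; linarith only [h3]⟩ ⟨by norm_num; linarith only [h4], by norm_num; linarith only [h4]⟩
    (by
      intro e he
      simp only [List.mem_cons, List.not_mem_nil, or_false] at he
      rcases he with rfl | rfl | rfl <;>
        (simp only [zge, zle, cge, cle, ypos, yneg, tv, E.val, NumIs.E.val, MR.tE_val, NumIs.lkR]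
         norm_num
         linarith only [a0, a1, a2]))
  rw [E.val, gwE_val] at h
  simp only [gl, tv, tK, E.val, NumIs.E.val, NumIs.lkR] at h
  push_cast at h
  linarith only [h]

theorem c2d_14p {x T m t : ℝ} (h1 : 5600 / 10000 ≤ x ∧ x ≤ 6000 / 10000)
    (h2 : -(50 / 10000) ≤ T ∧ T ≤ 570 / 10000) (h3 : 4833 / 10000 ≤ m ∧ m ≤ 7167 / 10000)
    (h4 : -(985 / 10000) ≤ t ∧ t ≤ 960 / 10000) (a0 : 20 / 100 + m ≤ 11 / 12) (a1 : 13 / 12 ≤ x + m) (a2 : 0 ≤ MR.tR 60 30 x T + t) :
    -(30 / 100) < gw (20 / 100) T x (MR.tR 60 30 x T) m t (lb 1 1 (20 / 100 + m) (T + t))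
      (ub 4 1 (x + m) (MR.tR 60 30 x T + t)) := by
  have h := posT (G := add (gwE 60 30 20 tv 1 4 1 1) (q 30 100)) (al := [cge 20 11 12, zle 13 12, yneg 60 30])
    (fuel := 24) (c := 143164194)
    (x := x) (T := T) (x' := m) (t' := t)
    (by decide +kernel : chkT [add (gwE 60 30 20 tv 1 4 1 1) (q 30 100), cge 20 11 12, zle 13 12, yneg 60 30] 24
      143164194
      [NumIs.V.of 10000 5600 6000, NumIs.V.of 10000 (-50) 570, NumIs.V.of 10000 4833 7167, NumIs.V.of 10000 (-985) 960] = true)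
    ⟨by norm_num; linarith only [h1], by norm_num; linarith only [h1]⟩ ⟨by norm_num; linarith only [h2], by norm_num; linarith only [h2]⟩
    ⟨by norm_num; linarith only [h1, a1], by norm_num; linarith only [h3]⟩ ⟨by norm_num; linarith only [h4], by norm_num; linarith only [h4]⟩
    (by
      intro e he
      simp only [List.mem_cons, List.not_mem_nil, or_false] at he
      rcases he with rfl | rfl | rfl <;>
        (simp only [zge, zle, cge, cle, ypos, yneg, tv, E.val, NumIs.E.val, MR.tE_val, NumIs.lkR]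
         norm_num
         linarith only [a0, a1, a2]))
  rw [E.val, gwE_val] at h
  simp only [gl, tv, tK, E.val, NumIs.E.val, NumIs.lkR] at h
  push_cast at h
  linarith only [h]

theorem c2d_24m {x T m t : ℝ} (h1 : 5600 / 10000 ≤ x ∧ x ≤ 6000 / 10000)
    (h2 : -(50 / 10000) ≤ T ∧ T ≤ 570 / 10000) (h3 : 7166 / 10000 ≤ m ∧ m ≤ 8000 / 10000)
    (h4 : -(985 / 10000) ≤ t ∧ t ≤ 960 / 10000) (a0 : 11 / 12 ≤ 20 / 100 + m) (a1 : 13 / 12 ≤ x + m) (a2 : MR.tR 60 30 x T + t ≤ 0) :
    -(30 / 100) < gw (20 / 100) T x (MR.tR 60 30 x T) m t (lb 2 1 (20 / 100 + m) (T + t))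
      (ub 4 (-1) (x + m) (MR.tR 60 30 x T + t)) := by
  have h := posT (G := add (gwE 60 30 20 tv 2 4 1 (-1)) (q 30 100)) (al := [cle 20 11 12, zle 13 12, ypos 60 30])
    (fuel := 24) (c := 2179)
    (x := x) (T := T) (x' := m) (t' := t)
    (by decide +kernel : chkT [add (gwE 60 30 20 tv 2 4 1 (-1)) (q 30 100), cle 20 11 12, zle 13 12, ypos 60 30] 24
      2179
      [NumIs.V.of 10000 5600 6000, NumIs.V.of 10000 (-50) 570, NumIs.V.of 10000 7166 8000, NumIs.V.of 10000 (-985) 960] = true)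
    ⟨by norm_num; linarith only [h1], by norm_num; linarith only [h1]⟩ ⟨by norm_num; linarith only [h2], by norm_num; linarith only [h2]⟩
    ⟨by norm_num; linarith only [a0], by norm_num; linarith only [h3]⟩ ⟨by norm_num; linarith only [h4], by norm_num; linarith only [h4]⟩
    (by
      intro e he
      simp only [List.mem_cons, List.not_mem_nil, or_false] at he
      rcases he with rfl | rfl | rfl <;>
        (simp only [zge, zle, cge, cle, ypos, yneg, tv, E.val, NumIs.E.val, MR.tE_val, NumIs.lkR]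
         norm_num
         linarith only [a0, h1, a2]))
  rw [E.val, gwE_val] at h
  simp only [gl, tv, tK, E.val, NumIs.E.val, NumIs.lkR] at h
  push_cast at h
  linarith only [h]

theorem c2d_24p {x T m t : ℝ} (h1 : 5600 / 10000 ≤ x ∧ x ≤ 6000 / 10000)
    (h2 : -(50 / 10000) ≤ T ∧ T ≤ 570 / 10000) (h3 : 7166 / 10000 ≤ m ∧ m ≤ 8000 / 10000)
    (h4 : -(985 / 10000) ≤ t ∧ t ≤ 960 / 10000) (a0 : 11 / 12 ≤ 20 / 100 + m) (a1 : 13 / 12 ≤ x + m) (a2 : 0 ≤ MR.tR 60 30 x T + t) :
    -(30 / 100) < gw (20 / 100) T x (MR.tR 60 30 x T) m t (lb 2 1 (20 / 100 + m) (T + t))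
      (ub 4 1 (x + m) (MR.tR 60 30 x T + t)) := by
  have h := posT (G := add (gwE 60 30 20 tv 2 4 1 1) (q 30 100)) (al := [cle 20 11 12, zle 13 12, yneg 60 30])
    (fuel := 24) (c := 2179)
    (x := x) (T := T) (x' := m) (t' := t)
    (by decide +kernel : chkT [add (gwE 60 30 20 tv 2 4 1 1) (q 30 100), cle 20 11 12, zle 13 12, yneg 60 30] 24
      2179
      [NumIs.V.of 10000 5600 6000, NumIs.V.of 10000 (-50) 570, NumIs.V.of 10000 7166 8000, NumIs.V.of 10000 (-985) 960] = true)
    ⟨by norm_num; linarith only [h1], by norm_num; linarith only [h1]⟩ ⟨by norm_num; linarith only [h2], by norm_num; linarith only [h2]⟩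
    ⟨by norm_num; linarith only [a0], by norm_num; linarith only [h3]⟩ ⟨by norm_num; linarith only [h4], by norm_num; linarith only [h4]⟩
    (by
      intro e he
      simp only [List.mem_cons, List.not_mem_nil, or_false] at he
      rcases he with rfl | rfl | rfl <;>
        (simp only [zge, zle, cge, cle, ypos, yneg, tv, E.val, NumIs.E.val, MR.tE_val, NumIs.lkR]
         norm_num
         linarith only [a0, h1, a2]))
  rw [E.val, gwE_val] at h
  simp only [gl, tv, tK, E.val, NumIs.E.val, NumIs.lkR] at h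
  push_cast at h
  linarith only [h]

end R3V

end Pool.Agent.Work.MP_b30479_gtS.G2

end
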