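import Mathlib
import Pool.Agent.Work.MP_b30479_gt.TBS.G2.RCF
import Pool.Agent.Work.MP_b30479_gt.TBS.G2.RDw
import Pool.Agent.Work.MP_b30479_gt.TBS.G2.RRowA

section

/-!
# Rings on the level part: comparison of the contributions to the derivative

Polynomial identities in `α = (a + B)²`, `p = a B`.
-/

namespace Pool.Agent.Work.MP_b30479_gtS.G2

namespace RC

def np (α p u : ℝ) : ℝ := 4 * α * (1 - p) ^ 2 + u * (α + (1 - p) ^ 2) ^ 2
def nm (α p v : ℝ) : ℝ := 4 * (α - 4 * p) * (1 + p) ^ 2 + v * (α + (1 - p) ^ 2) ^ 2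

/-- the factors `k_m`, `c_m`, `d_m` -/
def km (α p m : ℝ) : ℝ := 1 + m * (α - 2 * p) + m ^ 2 * p ^ 2
def cm (α p m : ℝ) : ℝ := 1 - m * (α - 2 * p) + m ^ 2 * p ^ 2 - 4 * m * p
def dm (α p m : ℝ) : ℝ := 1 - m * (α - 2 * p) + m ^ 2 * p ^ 2 + 4 * m * p

/-- the decisive expression -/
def ff (α p v m : ℝ) : ℝ :=
  32 * (α - 4 * p) * m * p - v * (cm α p 1 * km α p m + cm α p m * km α p 1)

/-- **diagonal identity** -/
theorem diag_id (α p u v m : ℝ) :
    np (m * α) (m * p) u * nm α p v - np α p u * nm (m * α) (m * p) v =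
      2 * (1 - m) * (1 - m * p ^ 2) * (α * ff α p v m +
        (α - 4 * p) * u * (dm α p m * km α p 1 + dm α p 1 * km α p m)) := by
  unfold np nm ff km cm dm
  ring

theorem ff_id (α p v m m0 : ℝ) : ff α p v m * km α p m0 - ff α p v m0 * km α p m =
    (m - m0) * (1 - m * m0 * p ^ 2) * (32 * (α - 4 * p) * p + 2 * α * v * km α p 1) := by
  unfold ff km cm
  ring

/-- **anti-diagonal identity** -/
theorem anti_id (α α' p u v : ℝ) :
    np α' p u * nm α p v - np α p u * nm α' p v =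
      (α - α') * (4 * (1 - p) ^ 2 * (16 * p * (1 + p) ^ 2 - v * (1 - p) ^ 4) +
        4 * v * (1 - p) ^ 2 * (α * α') +
        4 * u * (1 + p) ^ 2 * ((1 + p) ^ 4 - (α - 4 * p) * (α' - 4 * p))) := by
  unfold np nm
  ring

section
variable {α α' p u v m m0 : ℝ}

theorem km_pos (hp : 0 < p) (hα : 4 * p ≤ α) (hm : 0 ≤ m) : 0 < km α p m := by
  unfold km
  have : 0 ≤ m * (α - 2 * p) := mul_nonneg hm (by linarith only [hp, hα])
  positivity

theorem dm_nonneg (hp : 0 < p) (hm : 0 ≤ m) (h : m * (α - 4 * p) ≤ 1) : 0 ≤ dm α p m := by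
  unfold dm
  have h1 : 0 ≤ m * p := by positivity
  nlinarith only [h, h1]

theorem ff_pos (hp : 0 < p) (hα : 4 * p < α) (hv : 0 ≤ v) (h0 : 0 ≤ m0) (h1 : m0 < m)
    (h2 : m * m0 * p ^ 2 < 1) (hf : 0 ≤ ff α p v m0) : 0 < ff α p v m := by
  have k0 := km_pos hp hα.le h0
  have k := km_pos hp hα.le (h0.trans h1.le)
  have k1 := km_pos hp hα.le zero_le_one
  have id := ff_id α p v m m0
  have a1 : 0 < (m - m0) * (1 - m * m0 * p ^ 2) * (32 * (α - 4 * p) * p + 2 * α * v * km α p 1) := by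
    have b1 : 0 < m - m0 := by linarith only [h1]
    have b2 : 0 < 1 - m * m0 * p ^ 2 := by linarith only [h2]
    have b3 : 0 < 32 * (α - 4 * p) * p := by
      have : 0 < α - 4 * p := by linarith only [hα]
      positivity
    have b4 : 0 ≤ 2 * α * v * km α p 1 := by
      have : 0 < α := by linarith only [hp, hα]
      positivity
    positivity
  have a2 : 0 < ff α p v m * km α p m0 := by
    have := mul_nonneg hf k.le
    linarith only [id, a1, this]
  exact (pos_iff_pos_of_mul_pos a2).2 k0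

theorem diag_pos (hp : 0 < p) (hα : 4 * p < α) (hm : 0 < m) (hu : 0 ≤ u)
    (hf : 0 < ff α p v m) (h1 : α - 4 * p ≤ 1) (h2 : m * (α - 4 * p) ≤ 1) :
    0 < α * ff α p v m +
        (α - 4 * p) * u * (dm α p m * km α p 1 + dm α p 1 * km α p m) := by
  have k := km_pos hp hα.le hm.le
  have k1 := km_pos hp hα.le zero_le_one
  have d := dm_nonneg hp hm.le h2
  have d1 := dm_nonneg (α := α) hp zero_le_one (by linarith only [h1])
  have : 0 < α := by linarith only [hp, hα]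
  have : 0 < α - 4 * p := by linarith only [hα]
  positivity

/-- the contribution increases along the diagonal, going down -/
theorem diag_dn (hp : 0 < p) (hα : 4 * p < α) (hm : 0 < m) (hm1 : m < 1) (hp1 : m * p ^ 2 < 1)
    (hu : 0 ≤ u) (hf : 0 < ff α p v m) (h1 : α - 4 * p ≤ 1) :
    np α p u * nm (m * α) (m * p) v < np (m * α) (m * p) u * nm α p v := by
  have h := diag_pos hp hα hm hu hf h1 (by nlinarith only [h1, hα, hm1])
  have id := diag_id α p u v m
  have : 0 < 2 * (1 - m) * (1 - m * p ^ 2) := by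
    have : 0 < 1 - m := by linarith only [hm1]
    have : 0 < 1 - m * p ^ 2 := by linarith only [hp1]
    positivity
  nlinarith only [id, this, h, mul_pos this h]

/-- the contribution decreases along the diagonal, going up -/
theorem diag_up (hp : 0 < p) (hα : 4 * p < α) (hm1 : 1 < m) (hp1 : m * p ^ 2 < 1)
    (hu : 0 ≤ u) (hf : 0 < ff α p v m) (h1 : m * (α - 4 * p) ≤ 1) :
    np (m * α) (m * p) u * nm α p v < np α p u * nm (m * α) (m * p) v := by
  have h := diag_pos hp hα (by linarith only [hm1]) hu hf (by nlinarith only [h1, hα, hm1]) h1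
  have id := diag_id α p u v m
  have : 0 < 2 * (m - 1) * (1 - m * p ^ 2) := by
    have : 0 < m - 1 := by linarith only [hm1]
    have : 0 < 1 - m * p ^ 2 := by linarith only [hp1]
    positivity
  nlinarith only [id, this, h, mul_pos this h]

/-- the contribution increases when `α` decreases -/
theorem anti_lt (hp : 0 < p) (hp1 : p < 1) (h : α' < α) (hα' : 4 * p ≤ α') (hu : 0 ≤ u) (hv : 0 ≤ v)
    (hv1 : v < 16 * p) (hβ : α - 4 * p ≤ 1) :
    np α p u * nm α' p v < np α' p u * nm α p v := by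
  have id := anti_id α α' p u v
  have b0 : 0 < (1 - p) ^ 2 := by
    have : 0 < 1 - p := by linarith only [hp1]
    positivity
  have b1 : 0 < 16 * p * (1 + p) ^ 2 - v * (1 - p) ^ 4 := by
    have c1 : (1 - p) ^ 4 ≤ 1 := pow_le_one₀ (by linarith only [hp1]) (by linarith only [hp])
    have c2 : 1 ≤ (1 + p) ^ 2 := one_le_pow₀ (by linarith only [hp])
    nlinarith only [hv1, hp, c2, hv, c1]
  have b2 : 0 ≤ (1 + p) ^ 4 - (α - 4 * p) * (α' - 4 * p) := by
    have c2 : 1 ≤ (1 + p) ^ 4 := one_le_pow₀ (by linarith only [hp])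
    have : (α - 4 * p) * (α' - 4 * p) ≤ 1 := mul_le_one₀ hβ (by linarith only [hα']) (by linarith only [h, hβ])
    linarith only [c2, this]
  have b3 : 0 < α * α' := mul_pos (by linarith only [hp, h, hα']) (by linarith only [hp, hα'])
  have : 0 < (α - α') * (4 * (1 - p) ^ 2 * (16 * p * (1 + p) ^ 2 - v * (1 - p) ^ 4) +
        4 * v * (1 - p) ^ 2 * (α * α') +
        4 * u * (1 + p) ^ 2 * ((1 + p) ^ 4 - (α - 4 * p) * (α' - 4 * p))) := by
    have : 0 < α - α' := by linarith only [h]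
    positivity
  linarith only [id, this]

theorem np_pos (hp1 : p < 1) (hα : 0 < α) (hu : 0 ≤ u) : 0 < np α p u := by
  unfold np
  have : 0 < 1 - p := by linarith only [hp1]
  positivity

theorem nm_pos (hp : 0 < p) (hα : 4 * p < α) (hv : 0 ≤ v) : 0 < nm α p v := by
  unfold nm
  have : 0 < α - 4 * p := by linarith only [hα]
  positivity

end

/-- transitivity of the comparison of quotients `a / b < c / d ≤ e / f` (`f = 0` is allowed) -/
theorem quot_trans {a b c d e f : ℝ} (hb : 0 < b) (hd : 0 < d) (he : 0 < e) (hf : 0 ≤ f)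
    (h1 : a * d < c * b) (h2 : c * f ≤ e * d) : a * f < e * b := by
  rcases hf.lt_or_eq with h3 | h3
  · have h4 : a * d * f < c * b * f := mul_lt_mul_of_pos_right h1 h3
    have h5 : b * (c * f) ≤ b * (e * d) := mul_le_mul_of_nonneg_left h2 hb.le
    have h6 : a * f * d < e * b * d := by linarith only [h4, h5]
    exact lt_of_mul_lt_mul_right h6 hd.le
  · rw [← h3, mul_zero]
    positivity

/-! ### the two claims -/

section
variable {a B a' B' u v : ℝ}

theorem quad_id (a B a' B' : ℝ) : a' * B' * (a + B) ^ 2 - a * B * (a' + B') ^ 2 =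
    (a * a' - B * B') * (a * B' - a' * B) := by ring

theorem NP_np (a B u : ℝ) :
    4 * (a + B) ^ 2 * (1 - a * B) ^ 2 + u * ((1 + a ^ 2) * (1 + B ^ 2)) ^ 2 =
      np ((a + B) ^ 2) (a * B) u := by
  unfold np
  ring

theorem NM_nm (a B v : ℝ) :
    4 * (B - a) ^ 2 * (1 + a * B) ^ 2 + v * ((1 + a ^ 2) * (1 + B ^ 2)) ^ 2 =
      nm ((a + B) ^ 2) (a * B) v := by
  unfold nm
  ring

/-- **The ring variable moves down more than the hinge**: the contribution increases. -/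
theorem z_dn (ha : 0 < a) (haB : a < B) (hB1 : B ≤ 1) (ha' : 0 < a') (hB' : 0 < B')
    (h1 : a * B' < a' * B) (h2 : a' * B' < a * B) (hK : a * a' < B * B') (hu : 0 ≤ u) (hv : 0 ≤ v)
    (hv1 : v < 16 * (a' * B')) (hf : 0 < ff ((a + B) ^ 2) (a * B) v (a' * B' / (a * B))) :
    np ((a + B) ^ 2) (a * B) u * nm ((a' + B') ^ 2) (a' * B') v <
      np ((a' + B') ^ 2) (a' * B') u * nm ((a + B) ^ 2) (a * B) v := by
  have hB : 0 < B := ha.trans haB
  have hp : 0 < a * B := by positivity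
  have hp' : 0 < a' * B' := by positivity
  have hp1 : a * B < 1 := by nlinarith only [haB, hB1, ha]
  set m := a' * B' / (a * B) with hm
  have hm0 : 0 < m := by positivity
  have hm1 : m < 1 := (div_lt_one hp).2 h2
  have hmp : m * (a * B) = a' * B' := by rw [hm]; field_simp
  have hα : 4 * (a * B) < (a + B) ^ 2 := by nlinarith only [haB, sq_pos_of_pos (sub_pos.2 haB)]
  have hβ : (a + B) ^ 2 - 4 * (a * B) ≤ 1 := by nlinarith only [hB1, ha, haB, h2, hp', hp1]
  have e1 := diag_dn (m := m) hp hα hm0 hm1 (by nlinarith only [hB1, hm1, ha, haB, h2, hp', hp1, hv, hv1, mul_pos hp hp]) hu hf hβ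
  rw [hmp] at e1
  have hlt : (a' + B') ^ 2 < m * (a + B) ^ 2 := by
    have h3 := quad_id a B a' B'
    have h4 : 0 < (a * a' - B * B') * (a * B' - a' * B) :=
      mul_pos_of_neg_of_neg (by linarith only [hK]) (by linarith only [h1])
    have h5 : a * B * (a' + B') ^ 2 < a * B * (m * (a + B) ^ 2) := by
      have : a * B * (m * (a + B) ^ 2) = a' * B' * (a + B) ^ 2 := by rw [← hmp]; ring
      linarith only [h4, this]
    exact lt_of_mul_lt_mul_left h5 hp.le
  have hα' : 4 * (a' * B') ≤ (a' + B') ^ 2 := by nlinarith only [sq_nonneg (a' - B')]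
  have e2 := anti_lt (u := u) (v := v) hp' (h2.trans hp1) hlt hα' hu hv hv1 (by
    have : m * (a + B) ^ 2 - 4 * (a' * B') = m * ((a + B) ^ 2 - 4 * (a * B)) := by
      rw [← hmp]; ring
    rw [this]
    nlinarith only [ha, hB1, hmp, hm1, haB, h2, hv, hβ, hv1])
  refine quot_trans (nm_pos hp hα hv) (nm_pos hp' (by linarith only [hlt, hα']) hv)
    (np_pos (h2.trans hp1) (by positivity) hu) ?_ e1 e2.le
  unfold nm
  have : 0 ≤ (a' + B') ^ 2 - 4 * (a' * B') := by linarith only [hα']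
  positivity

/-- **The ring variable moves up more than the hinge**: the contribution decreases. -/
theorem z_up (ha : 0 < a) (haB : a < B) (ha' : 0 < a') (hB' : 0 < B') (hB1 : B' ≤ 1)
    (h1 : a' * B < a * B') (h2 : a * B < a' * B') (hu : 0 ≤ u) (hv : 0 ≤ v)
    (hv1 : v < 16 * (a * B)) (hf : 0 < ff ((a + B) ^ 2) (a * B) v (a' * B' / (a * B))) :
    np ((a' + B') ^ 2) (a' * B') u * nm ((a + B) ^ 2) (a * B) v <
      np ((a + B) ^ 2) (a * B) u * nm ((a' + B') ^ 2) (a' * B') v := by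
  have hB : 0 < B := ha.trans haB
  have hp : 0 < a * B := by positivity
  have hp' : 0 < a' * B' := by positivity
  have hBB : B < B' := by
    by_contra hcon
    push Not at hcon
    have h3 : a' < a := by
      by_contra h4
      push Not at h4
      nlinarith only [h1, ha, hcon, h4, haB]
    nlinarith only [h2, ha, h3, haB, ha', hcon]
  have haB' : a' < B' := by nlinarith only [h1, ha, haB, ha']
  have hp1 : a' * B' < 1 := by nlinarith only [hB1, haB', ha']
  set m := a' * B' / (a * B) with hm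
  have hm1 : 1 < m := (one_lt_div hp).2 h2
  have hmp : m * (a * B) = a' * B' := by rw [hm]; field_simp
  have hα : 4 * (a * B) < (a + B) ^ 2 := by nlinarith only [haB, sq_pos_of_pos (sub_pos.2 haB)]
  have hlt : m * (a + B) ^ 2 < (a' + B') ^ 2 := by
    have h3 := quad_id a B a' B'
    have h6 : a * a' < B * B' := by nlinarith only [ha, haB', haB, hB']
    have h4 : (a * a' - B * B') * (a * B' - a' * B) < 0 :=
      mul_neg_of_neg_of_pos (by linarith only [h6]) (by linarith only [h1])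
    have h5 : a * B * (m * (a + B) ^ 2) < a * B * (a' + B') ^ 2 := by
      have : a * B * (m * (a + B) ^ 2) = a' * B' * (a + B) ^ 2 := by rw [← hmp]; ring
      linarith only [h4, this]
    exact lt_of_mul_lt_mul_left h5 hp.le
  have hβ' : (a' + B') ^ 2 - 4 * (a' * B') ≤ 1 := by nlinarith only [hB1, h2, ha, haB, ha', haB', hB']
  have hmβ : m * ((a + B) ^ 2 - 4 * (a * B)) ≤ 1 := by
    have : m * ((a + B) ^ 2 - 4 * (a * B)) = m * (a + B) ^ 2 - 4 * (a' * B') := by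
      rw [← hmp]; ring
    linarith only [hmp, hlt, hβ']
  have e1 := diag_up (m := m) hp hα hm1 (by nlinarith only [hB1, h2, haB', ha', hv, hp1, hmp, hv1]) hu hf hmβ
  rw [hmp] at e1
  have hα' : 4 * (a' * B') < m * (a + B) ^ 2 := by
    rw [← hmp]
    nlinarith only [hmp, h2, hα, hv, hv1]
  have e2 := anti_lt (u := u) (v := v) hp' hp1 hlt hα'.le hu hv (by linarith only [h2, hv1]) hβ'
  refine quot_trans (nm_pos hp' (by linarith only [hlt, hα']) hv) (nm_pos hp' hα' hv)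
    (np_pos (h2.trans hp1) (by positivity) hu) (nm_pos hp hα hv).le e2 e1.le

end

end RC

end Pool.Agent.Work.MP_b30479_gtS.G2

end

section

/-!
# Rings on the level part: the level theorem

The ring variable of a maximiser on the flat part of its path: equality in the first order
condition; push-back from comparison statements for the single hinges.
-/

namespace Pool.Agent.Work.MP_b30479_gtS.G2

open Real Set VOL Filter Topology

/-- **First order condition inside the flat part.** -/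
theorem RM.flat_eq {b ρ σ : ℝ} {w w' : ℂ} (h : RM b ρ w w' σ) (h0 : -(1 / 4) < σ)
    (h1 : σ < 1 / 4)
    (a1 : Complex.sin (Real.pi * (w + 1 / 2 + LT.zt ρ σ)) ≠ 0)
    (a2 : Complex.sin (Real.pi * (w + 1 / 2 - LT.zt ρ σ)) ≠ 0)
    (a3 : Complex.sin (Real.pi * (w' + 1 / 2 + LT.zt ρ σ)) ≠ 0)
    (a4 : Complex.sin (Real.pi * (w' + 1 / 2 - LT.zt ρ σ)) ≠ 0) :
    -(2 * Real.pi * b * ρ) + Dm 0 w (LT.zt ρ σ) + Dm 0 w' (LT.zt ρ σ) = 0 := by
  set ζ := LT.zt ρ σ with hζ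
  have hth : LT.th σ = 1 := th_of_le (abs_le.2 ⟨h0.le, h1.le⟩)
  set F : ℝ → ℝ := fun s => -(2 * Real.pi * ρ * (b * (σ + s) + 1)) +
    fR w (ζ + s * (1 + ((0 : ℝ) : ℂ) * Complex.I)) +
    fR w' (ζ + s * (1 + ((0 : ℝ) : ℂ) * Complex.I)) with hF
  have hev : ∀ᶠ s : ℝ in 𝓝 0, rg b ρ w w' (σ + s) = F s := by
    have e1 : ∀ᶠ s : ℝ in 𝓝 0, s < 1 / 4 - σ := gt_mem_nhds (by linarith only [h1])
    have e2 : ∀ᶠ s : ℝ in 𝓝 0, -(1 / 4) - σ < s := lt_mem_nhds (by linarith only [h0])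
    filter_upwards [e1, e2] with s hs1 hs2
    have e3 : LT.th (σ + s) = 1 := th_of_le (abs_le.2 ⟨by linarith only [hs2], by linarith only [hs1]⟩)
    have e4 : LT.zt ρ (σ + s) = ζ + s * (1 + ((0 : ℝ) : ℂ) * Complex.I) := by
      rw [hζ, zt_eq, zt_eq, e3, hth]
      push_cast
      ring
    unfold rg
    rw [e4, e3, hF]
    ring
  have hmax : IsLocalMax F 0 := by
    have e1 : ∀ᶠ s : ℝ in 𝓝 0, s < 1 / 4 - σ := gt_mem_nhds (by linarith only [h1])
    have e2 : ∀ᶠ s : ℝ in 𝓝 0, -(1 / 4) - σ < s := lt_mem_nhds (by linarith only [h0])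
    filter_upwards [hev, e1, e2] with s hs hs1 hs2
    have h5 := hev.self_of_nhds
    rw [← hs, ← h5, add_zero]
    exact h.mx _ (abs_le.2 ⟨by linarith only [hs2], by linarith only [hs1]⟩)
  have q : ∀ {v : ℂ}, Complex.sin (Real.pi * (v + 1 / 2 + ζ)) ≠ 0 →
      Complex.sin (Real.pi * (v + 1 / 2 - ζ)) ≠ 0 →
      HasDerivAt (fun s : ℝ => fR v (ζ + s * (1 + ((0 : ℝ) : ℂ) * Complex.I))) (Dm 0 v ζ) 0 := by
    intro v b1 b2
    have := hasDerivAt_fR (w := v) (ζ := ζ) (m := 0) (s := 0) ⟨by simpa using b1, fun h => absurd rfl h⟩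
      ⟨by simpa using b2, fun h => absurd rfl h⟩
    simpa using this
  have hd : HasDerivAt F (-(2 * Real.pi * b * ρ) + Dm 0 w ζ + Dm 0 w' ζ) 0 := by
    have p1 : HasDerivAt (fun s : ℝ => -(2 * Real.pi * ρ * (b * (σ + s) + 1)))
        (-(2 * Real.pi * b * ρ)) 0 := by
      have a2 : HasDerivAt (fun s : ℝ => b * (σ + s) + 1) b 0 := by
        simpa using (((hasDerivAt_id (0 : ℝ)).const_add σ).const_mul b).add_const 1
      refine ((a2.const_mul (2 * Real.pi * ρ)).neg).congr_deriv ?_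
      ring
    exact (p1.add (q a1 a2)).add (q a3 a4)
  exact hmax.hasDerivAt_eq_zero hd

namespace RC

/-- comparison statements for one hinge on the flat part; `(xs, ys)` saddle point (`ys = 1/2 + σ*`),
`[cl, cp]` flat part of the path of the hinge -/
structure LH (xs ys T ρ cl cp : ℝ) : Prop where
  hx : xs ∈ Ioo (0 : ℝ) 1
  up : ∀ x y, x ∈ Icc cl cp → ys < y → y ≤ 1 / 2 → |gh x - gh xs| < gh y - gh ys →
    Dx x y T ρ < Dx xs ys T ρ
  wup : ∀ x y, x ∈ Icc cl cp → y ∈ Icc (1 / 4 : ℝ) (1 / 2) → xs < x → Nz x y T ρ →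
    |gh y - gh ys| ≤ gh x - gh xs → Sx x y T ρ < Sx xs ys T ρ
  wdn : ∀ x y, x ∈ Icc cl cp → y ∈ Icc (1 / 4 : ℝ) (1 / 2) → x < xs → Nz x y T ρ →
    |gh y - gh ys| ≤ gh xs - gh x → Sx xs ys T ρ < Sx x y T ρ

/-- ring variable down more than the hinges: `p` the hinge considered, `q` the other one -/
def DnOK (xs T cl cp xs' T' cl' cp' ys ρ : ℝ) : Prop :=
  ∀ x x' y, x ∈ Icc cl cp → x' ∈ Icc cl' cp' → 1 / 4 ≤ y → y < ys → x ≠ xs → Nz x y T ρ →
    Nz x' y T' ρ → |gh x' - gh xs'| ≤ |gh x - gh xs| → |gh x - gh xs| < gh ys - gh y →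
    Dx x y T ρ + Dx x' y T' ρ ≤ Dx xs ys T ρ + Dx xs' ys T' ρ →
    (xs < x → Sx x y T ρ < Sx xs ys T ρ) ∧ (x < xs → Sx xs ys T ρ < Sx x y T ρ)

/-- the same for a single hinge -/
def DnOK1 (xs T cl cp ys ρ : ℝ) : Prop :=
  ∀ x y, x ∈ Icc cl cp → 1 / 4 ≤ y → y < ys → x ≠ xs → Nz x y T ρ →
    |gh x - gh xs| < gh ys - gh y → Dx x y T ρ ≤ Dx xs ys T ρ →
    (xs < x → Sx x y T ρ < Sx xs ys T ρ) ∧ (x < xs → Sx xs ys T ρ < Sx x y T ρ)

/-- ring variable down: the contribution increases -/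
def DnG (xs T cl cp ys ρ : ℝ) : Prop :=
  ∀ x y, x ∈ Icc cl cp → 1 / 4 ≤ y → y < ys → Nz x y T ρ → |gh x - gh xs| < gh ys - gh y →
    Dx xs ys T ρ < Dx x y T ρ

section
variable {xs T cl cp xs' T' cl' cp' ys ρ : ℝ}

theorem DnG.ok1 (h : DnG xs T cl cp ys ρ) : DnOK1 xs T cl cp ys ρ :=
  fun x y hx h1 h2 _ hn h3 h4 => absurd h4 (not_le.2 (h x y hx h1 h2 hn h3))

theorem DnG.ok (h : DnG xs T cl cp ys ρ) (h' : DnG xs' T' cl' cp' ys ρ) :
    DnOK xs T cl cp xs' T' cl' cp' ys ρ := by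
  intro x x' y hx hx' h1 h2 _ hn hn' h3 h4 h5
  have a1 := h x y hx h1 h2 hn h4
  have a2 := h' x' y hx' h1 h2 hn' (h3.trans_lt h4)
  exfalso
  linarith only [h5, a1, a2]

variable {x x' y : ℝ}

/-- **Level theorem, two hinges.** -/
theorem level_two (hp : LH xs ys T ρ cl cp) (hq : LH xs' ys T' ρ cl' cp')
    (hd : DnOK xs T cl cp xs' T' cl' cp' ys ρ) (hys : ys ∈ Ioo (0 : ℝ) 1) (hx : x ∈ Icc cl cp)
    (hx0 : x ∈ Ioo (0 : ℝ) 1) (hx' : x' ∈ Icc cl' cp') (hy : y ∈ Icc (1 / 4 : ℝ) (1 / 2))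
    (hn : Nz x y T ρ) (hn' : Nz x' y T' ρ)
    (hN : |gh x' - gh xs'| ≤ |gh x - gh xs|)
    (F1 : Dx x y T ρ + Dx x' y T' ρ ≤ Dx xs ys T ρ + Dx xs' ys T' ρ)
    (F2 : 1 / 4 < y → Dx x y T ρ + Dx x' y T' ρ = Dx xs ys T ρ + Dx xs' ys T' ρ)
    (hys4 : 1 / 4 ≤ ys) :
    (xs < x → Sx x y T ρ < Sx xs ys T ρ) ∧ (x < xs → Sx xs ys T ρ < Sx x y T ρ) := by
  have hy0 : y ∈ Ioo (0 : ℝ) 1 := ⟨by linarith only [hy, hy.1], by linarith only [hy, hy.2]⟩
  rcases eq_or_ne x xs with he | hne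
  · exact ⟨fun h => absurd he h.ne', fun h => absurd he h.ne⟩
  rcases le_or_gt |gh y - gh ys| |gh x - gh xs| with h1 | h1
  · refine ⟨fun h => ?_, fun h => ?_⟩
    · have h2 := (gh_lt hp.hx hx0).2 h
      rw [abs_of_pos (by linarith only [h2] : (0 : ℝ) < gh x - gh xs)] at h1
      exact hp.wup x y hx hy h hn h1
    · have h2 := (gh_lt hx0 hp.hx).2 h
      rw [abs_of_neg (by linarith only [h2] : gh x - gh xs < 0)] at h1
      exact hp.wdn x y hx hy h hn (by linarith only [h1])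
  · rcases lt_or_ge y ys with h2 | h2
    · have h3 := (gh_lt hy0 hys).2 h2
      rw [abs_of_neg (by linarith only [h3] : gh y - gh ys < 0)] at h1
      exact hd x x' y hx hx' hy.1 h2 hne hn hn' hN (by linarith only [h1]) F1
    · exfalso
      have h3 : ys < y := by
        rcases h2.lt_or_eq with h | h
        · exact h
        · exfalso
          rw [h, sub_self, abs_zero] at h1
          exact absurd h1 (not_lt.2 (abs_nonneg _))
      have h4 := (gh_lt hys hy0).2 h3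
      rw [abs_of_pos (by linarith only [h4] : 0 < gh y - gh ys)] at h1
      have a1 := hp.up x y hx h3 hy.2 h1
      have a2 := hq.up x' y hx' h3 hy.2 (hN.trans_lt h1)
      have := F2 (by linarith only [hys4, h3])
      linarith only [a1, a2, this]

/-- **Level theorem, one hinge.** -/
theorem level_one (hp : LH xs ys T ρ cl cp) (hd : DnOK1 xs T cl cp ys ρ) (hys : ys ∈ Ioo (0 : ℝ) 1)
    (hx : x ∈ Icc cl cp) (hx0 : x ∈ Ioo (0 : ℝ) 1) (hy : y ∈ Icc (1 / 4 : ℝ) (1 / 2))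
    (hn : Nz x y T ρ) (F1 : Dx x y T ρ ≤ Dx xs ys T ρ) (F2 : 1 / 4 < y → Dx x y T ρ = Dx xs ys T ρ)
    (hys4 : 1 / 4 ≤ ys) :
    (xs < x → Sx x y T ρ < Sx xs ys T ρ) ∧ (x < xs → Sx xs ys T ρ < Sx x y T ρ) := by
  have hy0 : y ∈ Ioo (0 : ℝ) 1 := ⟨by linarith only [hy, hy.1], by linarith only [hy, hy.2]⟩
  rcases eq_or_ne x xs with he | hne
  · exact ⟨fun h => absurd he h.ne', fun h => absurd he h.ne⟩
  rcases le_or_gt |gh y - gh ys| |gh x - gh xs| with h1 | h1
  · refine ⟨fun h => ?_, fun h => ?_⟩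
    · have h2 := (gh_lt hp.hx hx0).2 h
      rw [abs_of_pos (by linarith only [h2] : (0 : ℝ) < gh x - gh xs)] at h1
      exact hp.wup x y hx hy h hn h1
    · have h2 := (gh_lt hx0 hp.hx).2 h
      rw [abs_of_neg (by linarith only [h2] : gh x - gh xs < 0)] at h1
      exact hp.wdn x y hx hy h hn (by linarith only [h1])
  · rcases lt_or_ge y ys with h2 | h2
    · have h3 := (gh_lt hy0 hys).2 h2
      rw [abs_of_neg (by linarith only [h3] : gh y - gh ys < 0)] at h1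
      exact hd x y hx hy.1 h2 hne hn (by linarith only [h1]) F1
    · exfalso
      have h3 : ys < y := by
        rcases h2.lt_or_eq with h | h
        · exact h
        · exfalso
          rw [h, sub_self, abs_zero] at h1
          exact absurd h1 (not_lt.2 (abs_nonneg _))
      have h4 := (gh_lt hys hy0).2 h3
      rw [abs_of_pos (by linarith only [h4] : 0 < gh y - gh ys)] at h1
      have a1 := hp.up x y hx h3 hy.2 h1
      have := F2 (by linarith only [hys4, h3])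
      linarith only [a1, this]

end

end RC

end Pool.Agent.Work.MP_b30479_gtS.G2

end

section

/-!
# Rings on the level part: one hinge

`(xs, ys)`: saddle point, `(x, y)`: another point; `ys = 1/2 + σ*`.
-/

namespace Pool.Agent.Work.MP_b30479_gtS.G2

open Real Set VOL

namespace RC

theorem NP_eq (a B u : ℝ) : NP a B u = np ((a + B) ^ 2) (a * B) u := by
  unfold NP kq np
  ring

theorem NM_eq (a B v : ℝ) : NM a B v = nm ((a + B) ^ 2) (a * B) v := by
  unfold NM kq nm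
  ring

theorem ta_mul_lt {x y x' y' : ℝ} (hx : x ∈ Ioo (0 : ℝ) 1) (hy : y ∈ Ioo (0 : ℝ) 1)
    (hx' : x' ∈ Ioo (0 : ℝ) 1) (hy' : y' ∈ Ioo (0 : ℝ) 1) :
    ta x * ta y < ta x' * ta y' ↔ gh x + gh y < gh x' + gh y' := by
  rw [ta_eq_exp hx, ta_eq_exp hy, ta_eq_exp hx', ta_eq_exp hy', ← Real.exp_add, ← Real.exp_add,
    Real.exp_lt_exp]

theorem ta_mul_le {x y x' y' : ℝ} (hx : x ∈ Ioo (0 : ℝ) 1) (hy : y ∈ Ioo (0 : ℝ) 1)
    (hx' : x' ∈ Ioo (0 : ℝ) 1) (hy' : y' ∈ Ioo (0 : ℝ) 1) :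
    ta x * ta y ≤ ta x' * ta y' ↔ gh x + gh y ≤ gh x' + gh y' := by
  rw [ta_eq_exp hx, ta_eq_exp hy, ta_eq_exp hx', ta_eq_exp hy', ← Real.exp_add, ← Real.exp_add,
    Real.exp_le_exp]

theorem ta_lt {x y : ℝ} (hx : x ∈ Ioo (0 : ℝ) 1) (hy : y ∈ Ioo (0 : ℝ) 1) :
    ta x < ta y ↔ gh x < gh y := by
  rw [ta_eq_exp hx, ta_eq_exp hy, Real.exp_lt_exp]

theorem ta_lt' {x y : ℝ} (hx : x ∈ Ioo (0 : ℝ) 1) (hy : y ∈ Ioo (0 : ℝ) 1) :
    ta x < ta y ↔ x < y := by
  rw [ta_lt hx hy, gh_lt hx hy]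

theorem ta_le' {x y : ℝ} (hx : x ∈ Ioo (0 : ℝ) 1) (hy : y ∈ Ioo (0 : ℝ) 1) :
    ta x ≤ ta y ↔ x ≤ y := by
  rw [← not_lt, ← not_lt, ta_lt' hy hx]

theorem ta_half : ta (1 / 2) = 1 := by
  unfold ta
  rw [show π * (1 / 2) / 2 = π / 4 by ring, Real.tan_pi_div_four]

theorem ta_le_one {y : ℝ} (hy : y ∈ Ioo (0 : ℝ) 1) (h : y ≤ 1 / 2) : ta y ≤ 1 := by
  rw [← ta_half]
  exact (ta_le' hy ⟨by norm_num, by norm_num⟩).2 h

theorem gh_half : gh (1 / 2) = 0 := by
  rw [← log_ta, ta_half, Real.log_one]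

theorem add_lt_iff {x y : ℝ} (hx : x ∈ Ioo (0 : ℝ) 1) (hy : y ∈ Ioo (0 : ℝ) 1) :
    ta x * ta y < 1 ↔ x + y < 1 := by
  rw [add_lt_one_iff hx hy, ta_eq_exp hx, ta_eq_exp hy, ← Real.exp_add, Real.exp_lt_one_iff]

section
variable {x y xs ys T η : ℝ}

theorem NM_pos_of (hx : x ∈ Ioo (0 : ℝ) 1) (hy : y ∈ Ioo (0 : ℝ) 1) (hn : Nz x y T η) :
    0 < NM (ta x) (ta y) (shq (T - η)) := by
  have h := MM_pos_of hn.2
  rw [sin_sub_ta hx hy] at h
  have hk := kq_pos (ta x) (ta y)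
  have e : NM (ta x) (ta y) (shq (T - η)) = kq (ta x) (ta y) ^ 2 *
      ((2 * (ta y - ta x) * (1 + ta x * ta y) / kq (ta x) (ta y)) ^ 2 + shq (T - η)) := by
    unfold NM
    field_simp
    ring
  rw [e]
  positivity

theorem NP_pos_of (hx : x ∈ Ioo (0 : ℝ) 1) (hy : y ∈ Ioo (0 : ℝ) 1) (h : x + y < 1) (t : ℝ) :
    0 < NP (ta x) (ta y) (shq t) :=
  NP_pos (ta_pos hx) (ta_pos hy) ((add_lt_iff hx hy).2 h) (shq_nonneg t)

/-- **The ring variable moves down more than the hinge.** -/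
theorem zdn (hxs : xs ∈ Ioo (0 : ℝ) 1) (hys : ys ∈ Ioo (0 : ℝ) 1) (hx : x ∈ Ioo (0 : ℝ) 1)
    (hy : y ∈ Ioo (0 : ℝ) 1) (hs : xs < ys) (hy1 : ys ≤ 1 / 2) (hxy : x + y < 1)
    (hN : |gh x - gh xs| < gh ys - gh y)
    (hK : ta xs * ta x < ta ys * ta y) (hv : shq (T - η) < 16 * (ta x * ta y))
    (hf : 0 < ff ((ta xs + ta ys) ^ 2) (ta xs * ta ys) (shq (T - η))
      (ta x * ta y / (ta xs * ta ys))) (hn : Nz x y T η) :
    Dx xs ys T η < Dx x y T η := by
  have hN' := abs_lt.1 hN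
  have h1 : ta xs * ta y < ta x * ta ys := (ta_mul_lt hxs hy hx hys).2 (by linarith only [hN'])
  have h2 : ta x * ta y < ta xs * ta ys := (ta_mul_lt hx hy hxs hys).2 (by linarith only [hN'])
  have hns : Nz xs ys T η := Nz_of hxs.1 hs (by linarith only [hs, hy1])
  have key := z_dn (u := shq (T + η)) (v := shq (T - η)) (ta_pos hxs) ((ta_lt' hxs hys).2 hs)
    (ta_le_one hys hy1) (ta_pos hx) (ta_pos hy) h1 h2 hK (shq_nonneg _) (shq_nonneg _) hv hf
  rw [← NP_eq, ← NM_eq, ← NP_eq, ← NM_eq] at key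
  exact Dx_lt hxs hys hx hy (NP_pos_of hxs hys (by linarith only [hs, hy1]) _) (NM_pos_of hxs hys hns)
    (NP_pos_of hx hy hxy _) (NM_pos_of hx hy hn) key

/-- **The ring variable moves up more than the hinge.** -/
theorem zup (hxs : xs ∈ Ioo (0 : ℝ) 1) (hys : ys ∈ Ioo (0 : ℝ) 1) (hx : x ∈ Ioo (0 : ℝ) 1)
    (hy : y ∈ Ioo (0 : ℝ) 1) (hs : xs < ys) (hy1 : y ≤ 1 / 2)
    (hN : |gh x - gh xs| < gh y - gh ys) (hv : shq (T - η) < 16 * (ta xs * ta ys))
    (hf : 0 < ff ((ta xs + ta ys) ^ 2) (ta xs * ta ys) (shq (T - η))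
      (ta x * ta y / (ta xs * ta ys))) :
    Dx x y T η < Dx xs ys T η := by
  have hN' := abs_lt.1 hN
  have h1 : ta x * ta ys < ta xs * ta y := (ta_mul_lt hx hys hxs hy).2 (by linarith only [hN'])
  have h2 : ta xs * ta ys < ta x * ta y := (ta_mul_lt hxs hys hx hy).2 (by linarith only [hN'])
  have hyy : ys < y := (gh_lt hys hy).1 (by linarith only [hN', abs_nonneg (gh x - gh xs)])
  have hns : Nz xs ys T η := Nz_of hxs.1 hs (by linarith only [hs, hy1, hyy])
  have hxy : x < y := by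
    have := (gh_lt hxs hys).2 hs
    exact (gh_lt hx hy).1 (by linarith only [hN', this])
  have hn : Nz x y T η := Nz_of hx.1 hxy (by linarith only [hy1, hxy])
  have key := z_up (u := shq (T + η)) (v := shq (T - η)) (ta_pos hxs) ((ta_lt' hxs hys).2 hs)
    (ta_pos hx) (ta_pos hy) (ta_le_one hy hy1) h1 h2 (shq_nonneg _) (shq_nonneg _) hv hf
  rw [← NP_eq, ← NM_eq, ← NP_eq, ← NM_eq] at key
  exact Dx_lt hx hy hxs hys (NP_pos_of hx hy (by linarith only [hy1, hxy]) _) (NM_pos_of hx hy hn)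
    (NP_pos_of hxs hys (by linarith only [hs, hy1, hyy]) _) (NM_pos_of hxs hys hns) key

/-- comparison of the sides along `gh x + gh y = const` -/
theorem wanti {x1 y1 x2 y2 : ℝ} (hx1 : x1 ∈ Ioo (0 : ℝ) 1) (hy1 : y1 ∈ Ioo (0 : ℝ) 1)
    (hx2 : x2 ∈ Ioo (0 : ℝ) 1) (hy2 : y2 ∈ Ioo (0 : ℝ) 1) (hg : gh x1 + gh y1 = gh x2 + gh y2)
    (h1 : x1 + y1 < 1) (h : x1 < x2) (h2 : x2 ≤ 1 / 2)
    (hα : (ta x2 + ta y2) ^ 2 ≤ (ta x1 + ta y1) ^ 2)
    (hcos : kq (ta x1) (ta y1) ≤ 2 * (1 + ta x1 * ta y1) ^ 2)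
    (hs : HS (ta x1) (ta y1) (shq (T - η))) (hn1 : Nz x1 y1 T η) (hn2 : Nz x2 y2 T η) :
    Sx x2 y2 T η < Sx x1 y1 T η := by
  have hp : ta x1 * ta y1 = ta x2 * ta y2 := by
    rw [ta_eq_exp hx1, ta_eq_exp hy1, ta_eq_exp hx2, ta_eq_exp hy2, ← Real.exp_add, ← Real.exp_add,
      hg]
  have hp1 := (add_lt_iff hx1 hy1).2 h1
  have h3 : x2 + y2 < 1 := (add_lt_iff hx2 hy2).1 (by rw [← hp]; exact hp1)
  have m1 := NM_pos_of hx1 hy1 hn1
  refine Sx_lt hx2 hy2 hx1 hy1 (NP_pos_of hx2 hy2 h3 _) (NM_pos_of hx2 hy2 hn2)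
    (NP_pos_of hx1 hy1 h1 _) m1 ?_
  exact w_anti (ta_pos hx1) (ta_pos hy1) hp hp1 ((ta_lt' hx1 hx2).2 h) (ta_le_one hx2 h2) hα hcos
    (shq_nonneg _) (shq_nonneg _) (shq_nonneg _) hs m1

end

/-- the common point of the diagonal through the saddle point and the antidiagonal -/
noncomputable def xd (xs ys x y : ℝ) : ℝ := ghi ((gh xs + gh x + (gh y - gh ys)) / 2)
noncomputable def yd (xs ys x y : ℝ) : ℝ := ghi ((gh ys + gh y + (gh x - gh xs)) / 2)

section
variable {x y xs ys T η : ℝ}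

/-- **Own hinge up.** -/
theorem wup (hxs : xs ∈ Ioo (0 : ℝ) 1) (hys : ys ∈ Ioo (0 : ℝ) 1) (hx : x ∈ Ioo (0 : ℝ) 1)
    (hy : y ∈ Ioo (0 : ℝ) 1) (hs : xs < ys) (hxy : x + y < 1) (hx2 : x ≤ 1 / 2)
    (hlt : xs < x) (hN : |gh y - gh ys| ≤ gh x - gh xs)
    (hK : ta xs * ta x ≤ ta ys * ta y) (hn : Nz x y T η)
    (hrow : ∀ x' y', x' ∈ Icc xs x → y' ∈ Ioo (0 : ℝ) 1 → ys ≤ y' → gh x' - gh xs = gh y' - gh ys →
      ta x' * ta y' ≤ ta x * ta y → 0 < Real.cos (π * x') + Real.cos (π * y') ∧ 0 < WW x' y' T η ∧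
      kq (ta x') (ta y') ≤ 2 * (1 + ta x' * ta y') ^ 2 ∧ HS (ta x') (ta y') (shq (T - η))) :
    Sx x y T η < Sx xs ys T η := by
  have hN' := abs_le.1 hN
  have hgs := (gh_lt hxs hys).2 hs
  have hgx := (gh_lt hxs hx).2 hlt
  set X := xd xs ys x y with hX
  set Y := yd xs ys x y with hY
  have gX : gh X = (gh xs + gh x + (gh y - gh ys)) / 2 := gh_ghi _
  have gY : gh Y = (gh ys + gh y + (gh x - gh xs)) / 2 := gh_ghi _
  have hXi : X ∈ Ioo (0 : ℝ) 1 := ghi_mem _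
  have hYi : Y ∈ Ioo (0 : ℝ) 1 := ghi_mem _
  have hXxs : xs ≤ X := by
    by_contra hcon
    push Not at hcon
    have := (gh_lt hXi hxs).2 hcon
    linarith only [hN', gX, this]
  have hXx : X ≤ x := by
    by_contra hcon
    push Not at hcon
    have := (gh_lt hx hXi).2 hcon
    linarith only [hN', gX, this]
  have hYys : ys ≤ Y := by
    by_contra hcon
    push Not at hcon
    have := (gh_lt hYi hys).2 hcon
    linarith only [hN', gY, this]
  have hXY : X < Y := (gh_lt hXi hYi).1 (by linarith only [hgs, gX, gY])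
  have hpXY : ta X * ta Y = ta x * ta y := by
    rw [ta_eq_exp hXi, ta_eq_exp hYi, ta_eq_exp hx, ta_eq_exp hy, ← Real.exp_add, ← Real.exp_add]
    congr 1
    linarith only [gX, gY]
  have hXY1 : X + Y < 1 := (add_lt_iff hXi hYi).1 (by rw [hpXY]; exact (add_lt_iff hx hy).2 hxy)
  have hnXY : Nz X Y T η := Nz_of hXi.1 hXY hXY1
  -- diagonal part
  have hdiag : X = xs ∨ Sx X Y T η < Sx xs ys T η := by
    rcases hXxs.lt_or_eq with h | h
    · right
      have := diag_mono (T := T) (η := η) (c := 0) (a1 := 0) hxs hys hXi hYi h hs (by linarith only [gX, gY]) hXY1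
        (fun x' y' h1 h2 h3 => ?_)
      · simpa using this
      · have hy'0 : y' ∈ Ioo (0 : ℝ) 1 := ⟨hys.1.trans_le h2.1, h2.2.trans_lt hYi.2⟩
        have hx'0 : x' ∈ Ioo (0 : ℝ) 1 := ⟨hxs.1.trans_le h1.1, h1.2.trans_lt hXi.2⟩
        obtain ⟨r1, r2, -, -⟩ := hrow x' y' ⟨h1.1, h1.2.trans hXx⟩ hy'0 h2.1 h3 (by
          rw [← hpXY]
          apply mul_le_mul ((ta_le' hx'0 hXi).2 h1.2) ((ta_le' hy'0 hYi).2 h2.2) (ta_pos hy'0).le
            (ta_pos hXi).le)
        refine ⟨r1, ?_⟩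
        simpa using r2
    · left
      exact h.symm
  have hanti : X = x ∨ Sx x y T η < Sx X Y T η := by
    rcases hXx.lt_or_eq with h | h
    · right
      obtain ⟨-, -, r3, r4⟩ := hrow X Y ⟨hXxs, hXx⟩ hYi hYys (by linarith only [gX, gY]) hpXY.le
      refine wanti hXi hYi hx hy (by linarith only [gX, gY]) hXY1 h hx2 ?_ r3 r4 hnXY hn
      -- `α`
      have hax := ta_pos hxs
      have hay := ta_pos hys
      have hq := quad_id (ta xs) (ta ys) (ta x) (ta y)
      have h5 : 0 ≤ (ta xs * ta x - ta ys * ta y) * (ta xs * ta y - ta x * ta ys) := by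
        apply mul_nonneg_of_nonpos_of_nonpos (by linarith only [hK])
        have := (ta_mul_le hxs hy hx hys).2 (by linarith only [hN'])
        linarith only [this]
      have h6 : ta xs * ta ys * (ta X + ta Y) ^ 2 = ta x * ta y * (ta xs + ta ys) ^ 2 := by
        have e1 : ta X * ta ys = ta Y * ta xs := by
          rw [ta_eq_exp hXi, ta_eq_exp hYi, ta_eq_exp hxs, ta_eq_exp hys, ← Real.exp_add,
            ← Real.exp_add]
          congr 1
          linarith only [gX, gY]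
        rw [← hpXY]
        linear_combination (ta X * ta xs - ta Y * ta ys) * e1
      have h7 : ta xs * ta ys * (ta x + ta y) ^ 2 ≤ ta xs * ta ys * (ta X + ta Y) ^ 2 := by
        linarith only [h5, h6]
      exact le_of_mul_le_mul_left h7 (by positivity)
    · left
      exact h
  rcases hdiag with h | h
  · rcases hanti with h' | h'
    · exfalso
      rw [h'] at h
      exact hlt.ne' h
    · have : Y = ys := by
        have e : gh Y = gh ys := by
          have : gh X = gh xs := by rw [h]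
          linarith only [hN', gY, gX, this]
        rw [← ghi_gh hYi, e, ghi_gh hys]
      rwa [h, this] at h'
  · rcases hanti with h' | h'
    · have : Y = y := by
        have e : gh Y = gh y := by
          have : gh X = gh x := by rw [h']
          linarith only [hN', gY, gX, this]
        rw [← ghi_gh hYi, e, ghi_gh hy]
      rwa [h', this] at h
    · exact h'.trans h

/-- **Own hinge down.** -/
theorem wdn (hxs : xs ∈ Ioo (0 : ℝ) 1) (hys : ys ∈ Ioo (0 : ℝ) 1) (hx : x ∈ Ioo (0 : ℝ) 1)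
    (hy : y ∈ Ioo (0 : ℝ) 1) (hs : xs < ys) (hxys : xs + ys < 1) (hxy : x + y < 1)
    (hxs2 : xs ≤ 1 / 2) (hlt : x < xs) (hN : |gh y - gh ys| ≤ gh xs - gh x) (hn : Nz x y T η)
    (hrow : ∀ x' y', x' ∈ Icc x xs → y' ∈ Ioo (0 : ℝ) 1 → y' ≤ ys → gh x' - gh xs = gh y' - gh ys →
      ta x * ta y ≤ ta x' * ta y' → 0 < Real.cos (π * x') + Real.cos (π * y') ∧ 0 < WW x' y' T η)
    (hcos : kq (ta x) (ta y) ≤ 2 * (1 + ta x * ta y) ^ 2)
    (hHS : HS (ta x) (ta y) (shq (T - η))) :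
    Sx xs ys T η < Sx x y T η := by
  have hN' := abs_le.1 hN
  have hgs := (gh_lt hxs hys).2 hs
  have hgx := (gh_lt hx hxs).2 hlt
  set X := xd xs ys x y with hX
  set Y := yd xs ys x y with hY
  have gX : gh X = (gh xs + gh x + (gh y - gh ys)) / 2 := gh_ghi _
  have gY : gh Y = (gh ys + gh y + (gh x - gh xs)) / 2 := gh_ghi _
  have hXi : X ∈ Ioo (0 : ℝ) 1 := ghi_mem _
  have hYi : Y ∈ Ioo (0 : ℝ) 1 := ghi_mem _
  have hXxs : X ≤ xs := by
    by_contra hcon
    push Not at hcon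
    have := (gh_lt hxs hXi).2 hcon
    linarith only [hN', gX, this]
  have hXx : x ≤ X := by
    by_contra hcon
    push Not at hcon
    have := (gh_lt hXi hx).2 hcon
    linarith only [hN', gX, this]
  have hYys : Y ≤ ys := by
    by_contra hcon
    push Not at hcon
    have := (gh_lt hys hYi).2 hcon
    linarith only [hN', gY, this]
  have hXY : X < Y := (gh_lt hXi hYi).1 (by linarith only [hgs, gX, gY])
  have hpXY : ta X * ta Y = ta x * ta y := by
    rw [ta_eq_exp hXi, ta_eq_exp hYi, ta_eq_exp hx, ta_eq_exp hy, ← Real.exp_add, ← Real.exp_add]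
    congr 1
    linarith only [gX, gY]
  have hXY1 : X + Y < 1 := (add_lt_iff hXi hYi).1 (by rw [hpXY]; exact (add_lt_iff hx hy).2 hxy)
  have hnXY : Nz X Y T η := Nz_of hXi.1 hXY hXY1
  -- diagonal part
  have hdiag : X = xs ∨ Sx xs ys T η < Sx X Y T η := by
    rcases hXxs.lt_or_eq with h | h
    · right
      have := diag_mono (T := T) (η := η) (c := 0) (a1 := 0) hXi hYi hxs hys h hXY (by linarith only [gX, gY]) hxys
        (fun x' y' h1 h2 h3 => ?_)
      · simpa using this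
      · have hy'0 : y' ∈ Ioo (0 : ℝ) 1 := ⟨hYi.1.trans_le h2.1, h2.2.trans_lt hys.2⟩
        have hx'0 : x' ∈ Ioo (0 : ℝ) 1 := ⟨hXi.1.trans_le h1.1, h1.2.trans_lt hxs.2⟩
        obtain ⟨r1, r2⟩ := hrow x' y' ⟨hXx.trans h1.1, h1.2⟩ hy'0 h2.2 (by linarith only [gX, gY, h3]) (by
          rw [← hpXY]
          apply mul_le_mul ((ta_le' hXi hx'0).2 h1.1) ((ta_le' hYi hy'0).2 h2.1) (ta_pos hYi).le
            (ta_pos hx'0).le)
        refine ⟨r1, ?_⟩
        simpa using r2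
    · left
      exact h
  have hanti : X = x ∨ Sx X Y T η < Sx x y T η := by
    rcases hXx.lt_or_eq with h | h
    · right
      refine wanti hx hy hXi hYi (by linarith only [gX, gY]) hxy h (hXxs.trans hxs2) ?_ hcos hHS hn hnXY
      -- `α`
      have hax := ta_pos hxs
      have hay := ta_pos hys
      have hq := quad_id (ta xs) (ta ys) (ta x) (ta y)
      have h5 : (ta xs * ta x - ta ys * ta y) * (ta xs * ta y - ta x * ta ys) ≤ 0 := by
        have b1 := (ta_mul_le hxs hx hys hy).2 (by linarith only [hN', hgs])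
        have b2 := (ta_mul_le hx hys hxs hy).2 (by linarith only [hN'])
        apply mul_nonpos_of_nonpos_of_nonneg (by linarith only [b1]) (by linarith only [b2])
      have h6 : ta xs * ta ys * (ta X + ta Y) ^ 2 = ta x * ta y * (ta xs + ta ys) ^ 2 := by
        have e1 : ta X * ta ys = ta Y * ta xs := by
          rw [ta_eq_exp hXi, ta_eq_exp hYi, ta_eq_exp hxs, ta_eq_exp hys, ← Real.exp_add,
            ← Real.exp_add]
          congr 1
          linarith only [gX, gY]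
        rw [← hpXY]
        linear_combination (ta X * ta xs - ta Y * ta ys) * e1
      have h7 : ta xs * ta ys * (ta X + ta Y) ^ 2 ≤ ta xs * ta ys * (ta x + ta y) ^ 2 := by
        linarith only [h5, h6]
      exact le_of_mul_le_mul_left h7 (by positivity)
    · left
      exact h.symm
  rcases hdiag with h | h
  · rcases hanti with h' | h'
    · exfalso
      rw [h'] at h
      exact hlt.ne h
    · have : Y = ys := by
        have e : gh Y = gh ys := by
          have : gh X = gh xs := by rw [h]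
          linarith only [gX, gY, this, hN']
        rw [← ghi_gh hYi, e, ghi_gh hys]
      rwa [h, this] at h'
  · rcases hanti with h' | h'
    · have : Y = y := by
        have e : gh Y = gh y := by
          have : gh X = gh x := by rw [h']
          linarith only [gX, gY, this, hN']
        rw [← ghi_gh hYi, e, ghi_gh hy]
      rwa [h', this] at h
    · exact h.trans h'

end

end RC

end Pool.Agent.Work.MP_b30479_gtS.G2

end

section

/-!
# Rings on the level part: comparison statements from data of the saddle point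
-/

namespace Pool.Agent.Work.MP_b30479_gtS.G2

open Real Set VOL

namespace RC

open Row

/-- ranges at the saddle point; `(xs, ys)`: saddle point, `[cl, cp]` flat part of the path -/
structure GD (xs ys cl cp : ℝ) : Prop where
  cl0 : 0 < cl
  cp2 : cp < 1 / 2
  xl : cl ≤ xs
  xc : xs ≤ cp
  hs : xs < ys
  y4 : 1 / 4 ≤ ys
  y2 : ys ≤ 1 / 2

section
variable {xs ys T ρ cl cp a0 a1 p0 κ1 : ℝ}

theorem GD.xi (g : GD xs ys cl cp) : xs ∈ Ioo (0 : ℝ) 1 :=
  ⟨g.cl0.trans_le g.xl, by linarith only [g, g.xc, g.cp2]⟩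

theorem GD.yi (g : GD xs ys cl cp) : ys ∈ Ioo (0 : ℝ) 1 :=
  ⟨by linarith only [g, g.y4], by linarith only [g, g.y2]⟩

theorem GD.x1 (g : GD xs ys cl cp) {x : ℝ} (hx : x ∈ Icc cl cp) : x ∈ Ioo (0 : ℝ) 1 :=
  ⟨g.cl0.trans_le hx.1, by linarith only [hx, g, hx.2, g.cp2]⟩

theorem GD.cli (g : GD xs ys cl cp) : cl ∈ Ioo (0 : ℝ) 1 := g.x1 ⟨le_rfl, g.xl.trans g.xc⟩
theorem GD.cpi (g : GD xs ys cl cp) : cp ∈ Ioo (0 : ℝ) 1 := g.x1 ⟨g.xl.trans g.xc, le_rfl⟩

theorem quarter_mem : (1 / 4 : ℝ) ∈ Ioo (0 : ℝ) 1 := ⟨by norm_num, by norm_num⟩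

theorem t8_le {y : ℝ} (hy : y ∈ Ioo (0 : ℝ) 1) (h : 1 / 4 ≤ y) : 4142 / 10000 < ta y :=
  t8_gt.trans_le ((ta_le' quarter_mem hy).2 h)

/-- `k ≤ 2 (1 + a B)²` -/
theorem hcos_of {a B : ℝ} (h : a < B) (h1 : B * (1 - a) ≤ 1 + a) :
    kq a B ≤ 2 * (1 + a * B) ^ 2 := by
  unfold kq
  have h2 : (B - a) ^ 2 ≤ (1 + a * B) ^ 2 :=
    pow_le_pow_left₀ (by linarith only [h]) (by linarith only [h1]) 2
  nlinarith only [h2]

/-- `cos πx + cos πy > 0` -/
theorem coscos {x y : ℝ} (hx : x ∈ Ioo (0 : ℝ) 1) (hy : y ∈ Ioo (0 : ℝ) 1) (hp : ta x * ta y < 1) :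
    0 < Real.cos (π * x) + Real.cos (π * y) := by
  rw [cos_ta hx, cos_ta hy]
  have hax := ta_pos hx
  have hay := ta_pos hy
  have e : (1 - ta x ^ 2) / (1 + ta x ^ 2) + (1 - ta y ^ 2) / (1 + ta y ^ 2) =
      2 * (1 - ta x * ta y) * (1 + ta x * ta y) / ((1 + ta x ^ 2) * (1 + ta y ^ 2)) := by
    field_simp
    ring
  rw [e]
  have : 0 < 1 - ta x * ta y := by linarith only [hp]
  positivity

/-- diagonal relation in terms of `ta` -/
theorem diag_ta {x y : ℝ} (hxs : xs ∈ Ioo (0 : ℝ) 1) (hys : ys ∈ Ioo (0 : ℝ) 1)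
    (hx : x ∈ Ioo (0 : ℝ) 1) (hy : y ∈ Ioo (0 : ℝ) 1) (h : gh x - gh xs = gh y - gh ys) :
    ta x * ta ys = ta xs * ta y := by
  rw [ta_eq_exp hxs, ta_eq_exp hys, ta_eq_exp hx, ta_eq_exp hy, ← Real.exp_add, ← Real.exp_add]
  congr 1
  linarith only [h]

/-- the condition for the ring variable going down or up -/
theorem ff_of (hxs : xs ∈ Ioo (0 : ℝ) 1) (hys : ys ∈ Ioo (0 : ℝ) 1) (hs : xs < ys)
    (y4 : 1 / 4 ≤ ys) (y2 : ys ≤ 1 / 2) {x y v : ℝ} (hx : x ∈ Ioo (0 : ℝ) 1)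
    (hy : y ∈ Ioo (0 : ℝ) 1) (hxy : ta x * ta y < 1) (hv : 0 ≤ v)
    (hf : 0 ≤ ff ((ta xs + ta ys) ^ 2) (ta xs * ta ys) v ((4142 / 10000 / ta ys) ^ 2))
    (hm : (4142 / 10000) ^ 2 * ta xs < ta x * ta y * ta ys) :
    0 < ff ((ta xs + ta ys) ^ 2) (ta xs * ta ys) v (ta x * ta y / (ta xs * ta ys)) := by
  have hax := ta_pos hxs
  have hay := ta_pos hys
  have hB1 := ta_le_one hys y2
  have hB := t8_le hys y4
  have hlt := (ta_lt' hxs hys).2 hs
  refine ff_pos (by positivity) ?_ hv (by positivity) ?_ ?_ hf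
  · nlinarith only [hlt, sq_nonneg (ta xs - ta ys), mul_pos (sub_pos.2 hlt) (sub_pos.2 hlt)]
  · rw [div_pow, div_lt_div_iff₀ (by positivity) (by positivity)]
    calc (4142 / 10000 : ℝ) ^ 2 * (ta xs * ta ys) = (4142 / 10000) ^ 2 * ta xs * ta ys := by ring
      _ < ta x * ta y * ta ys * ta ys := mul_lt_mul_of_pos_right hm hay
      _ = _ := by ring
  · rw [div_pow]
    have e : ta x * ta y / (ta xs * ta ys) * ((4142 / 10000) ^ 2 / ta ys ^ 2) *
        (ta xs * ta ys) ^ 2 = ta x * ta y * (ta xs * ((4142 / 10000) ^ 2 / ta ys)) := by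
      field_simp
    rw [e]
    have h1 : ta xs * ((4142 / 10000) ^ 2 / ta ys) < 1 := by
      rw [← mul_div_assoc, div_lt_one hay]
      nlinarith only [hax, hlt]
    have h2 : 0 < ta xs * ((4142 / 10000) ^ 2 / ta ys) := by positivity
    have h3 : 0 < ta x * ta y := mul_pos (ta_pos hx) (ta_pos hy)
    calc ta x * ta y * (ta xs * ((4142 / 10000) ^ 2 / ta ys)) <
        1 * (ta xs * ((4142 / 10000) ^ 2 / ta ys)) := mul_lt_mul_of_pos_right hxy h2
      _ < 1 := by linarith only [h1]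

/-- the condition (H2) at the saddle point -/
def H2 (xs ys T ρ : ℝ) : Prop :=
  0 ≤ ff ((ta xs + ta ys) ^ 2) (ta xs * ta ys) (shq (T - ρ)) ((4142 / 10000 / ta ys) ^ 2)

theorem GD.dn (g : GD xs ys cl cp) (hf : H2 xs ys T ρ) (hκ : ta xs * ta cp ≤ 4142 / 10000 * ta ys)
    (ha : 158 / 1000 ≤ ta cl) (hv : shq (T - ρ) ≤ 45 / 100) : DnG xs T cl cp ys ρ := by
  intro x y hx h1 h2 hn hN
  have hxi := g.x1 hx
  have hyi : y ∈ Ioo (0 : ℝ) 1 := ⟨by linarith only [h1], by linarith only [h2, g, g.y2]⟩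
  have hax := ta_pos g.xi
  have hay := ta_pos g.yi
  have h8 := t8_le hyi h1
  have hx1 := (ta_le' g.cli hxi).2 hx.1
  have hx2 := (ta_le' hxi g.cpi).2 hx.2
  have hxy : x + y < 1 := by linarith only [h2, hx, g, hx.2, g.cp2, g.y2]
  have hN' := abs_lt.1 hN
  refine zdn g.xi g.yi hxi hyi g.hs g.y2 hxy hN ?_ ?_ ?_ hn
  · calc ta xs * ta x ≤ ta xs * ta cp := mul_le_mul_of_nonneg_left hx2 hax.le
      _ ≤ 4142 / 10000 * ta ys := hκ
      _ < ta y * ta ys := mul_lt_mul_of_pos_right h8 hay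
      _ = _ := mul_comm _ _
  · have : (158 / 1000 : ℝ) * (4142 / 10000) ≤ ta x * ta y :=
      mul_le_mul (ha.trans hx1) h8.le (by norm_num) (ta_pos hxi).le
    linarith only [hv, this]
  · refine ff_of g.xi g.yi g.hs g.y4 g.y2 hxi hyi ((add_lt_iff hxi hyi).2 hxy) (shq_nonneg _) hf ?_
    have h3 : ta xs * ta y < ta x * ta ys := (ta_mul_lt g.xi hyi hxi g.yi).2 (by linarith only [hN'])
    calc (4142 / 10000 : ℝ) ^ 2 * ta xs = ta xs * (4142 / 10000) * (4142 / 10000) := by ring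
      _ < ta xs * ta y * ta y := by
        have : ta xs * (4142 / 10000) < ta xs * ta y := mul_lt_mul_of_pos_left h8 hax
        nlinarith only [this, h8]
      _ < ta x * ta ys * ta y := mul_lt_mul_of_pos_right h3 (ta_pos hyi)
      _ = _ := by ring

theorem GD.up (g : GD xs ys cl cp) (hf : H2 xs ys T ρ) (ha : 158 / 1000 ≤ ta cl)
    (hv : shq (T - ρ) ≤ 45 / 100) : ∀ x y, x ∈ Icc cl cp → ys < y → y ≤ 1 / 2 →
    |gh x - gh xs| < gh y - gh ys → Dx x y T ρ < Dx xs ys T ρ := by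
  intro x y hx h1 h2 hN
  have hxi := g.x1 hx
  have hyi : y ∈ Ioo (0 : ℝ) 1 := ⟨by linarith only [h1, g, g.y4], by linarith only [h2]⟩
  have hax := ta_pos g.xi
  have hay := ta_pos g.yi
  have h8 := t8_le g.yi g.y4
  have hx1 := (ta_le' g.cli g.xi).2 g.xl
  have hN' := abs_lt.1 hN
  have hxy : x + y < 1 := by linarith only [h2, hx, g, hx.2, g.cp2]
  refine zup g.xi g.yi hxi hyi g.hs h2 hN ?_ ?_
  · have : (158 / 1000 : ℝ) * (4142 / 10000) ≤ ta xs * ta ys :=
      mul_le_mul (ha.trans hx1) h8.le (by norm_num) hax.le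
    linarith only [hv, this]
  · refine ff_of g.xi g.yi g.hs g.y4 g.y2 hxi hyi ((add_lt_iff hxi hyi).2 hxy) (shq_nonneg _) hf ?_
    have h3 : ta xs * ta ys < ta x * ta y := (ta_mul_lt g.xi g.yi hxi hyi).2 (by linarith only [hN'])
    calc (4142 / 10000 : ℝ) ^ 2 * ta xs = ta xs * (4142 / 10000) * (4142 / 10000) := by ring
      _ < ta xs * ta ys * ta ys := by
        have : ta xs * (4142 / 10000) < ta xs * ta ys := mul_lt_mul_of_pos_left h8 hax
        nlinarith only [this, hay]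
      _ < ta x * ta y * ta ys := mul_lt_mul_of_pos_right h3 hay

/-- the row on the diagonal through the saddle point -/
structure DR (xs ys T ρ a0 a1 p0 : ℝ) : Prop where
  W : ∀ x y, x ∈ Ioo (0 : ℝ) 1 → y ∈ Ioo (0 : ℝ) 1 → a0 ≤ ta x → ta x ≤ a1 →
    ta x * ta ys = ta xs * ta y → p0 ≤ ta x * ta y → ta x * ta y ≤ a1 →
    kq (ta x) (ta y) ≤ 2 * (1 + ta x * ta y) ^ 2 ∧ 0 < WW x y T ρ
  U : ∀ x y, x ∈ Ioo (0 : ℝ) 1 → y ∈ Ioo (0 : ℝ) 1 → ta xs ≤ ta x → ta x ≤ a1 →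
    ta x * ta ys = ta xs * ta y → ta x * ta y ≤ a1 → HS (ta x) (ta y) (shq (T - ρ))

theorem GD.wup (g : GD xs ys cl cp) (hr : DR xs ys T ρ a0 a1 p0) (ha0 : a0 ≤ ta cl)
    (ha1 : ta cp ≤ a1) (ha1' : a1 < 1) (hp0 : p0 ≤ a0 * (4142 / 10000))
    (hK : ∀ x y, x ∈ Icc cl cp → y ∈ Icc (1 / 4 : ℝ) (1 / 2) → xs < x →
      |gh y - gh ys| ≤ gh x - gh xs → ta xs * ta x ≤ ta ys * ta y) :
    ∀ x y, x ∈ Icc cl cp → y ∈ Icc (1 / 4 : ℝ) (1 / 2) → xs < x → Nz x y T ρ →
    |gh y - gh ys| ≤ gh x - gh xs → Sx x y T ρ < Sx xs ys T ρ := by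
  intro x y hx hy h1 hn hN
  have hxi := g.x1 hx
  have hyi : y ∈ Ioo (0 : ℝ) 1 := ⟨by linarith only [hy, hy.1], by linarith only [hy, hy.2]⟩
  have hxy : x + y < 1 := by linarith only [hx, g, hy, hx.2, g.cp2, hy.2]
  have hy1 := ta_le_one hyi hy.2
  have h8 := t8_le g.yi g.y4
  have hx2 := (ta_le' hxi g.cpi).2 hx.2
  refine RC.wup g.xi g.yi hxi hyi g.hs hxy (by linarith only [hx, g, hx.2, g.cp2]) h1 hN (hK x y hx hy h1 hN) hn ?_
  intro x' y' hx' hy' hyy hd hp
  have hxi' : x' ∈ Ioo (0 : ℝ) 1 := ⟨g.xi.1.trans_le hx'.1, hx'.2.trans_lt hxi.2⟩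
  have e := diag_ta g.xi g.yi hxi' hy' hd
  have a1' := (ta_le' g.xi hxi').2 hx'.1
  have a2 := (ta_le' hxi' hxi).2 hx'.2
  have a3 := (ta_le' g.cli g.xi).2 g.xl
  have a4 := (ta_le' g.yi hy').2 hyy
  have hpa : ta x' * ta y' ≤ a1 := by
    have : ta x * ta y ≤ a1 * 1 := mul_le_mul (hx2.trans ha1) hy1 (ta_pos hyi).le
      ((ta_pos hxi).le.trans (hx2.trans ha1))
    linarith only [hp, this]
  have hp0' : p0 ≤ ta x' * ta y' := by
    have : a0 * (4142 / 10000) ≤ ta x' * ta y' :=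
      mul_le_mul (by linarith only [ha0, a1', a3]) (by linarith only [h8, a4]) (by norm_num) (ta_pos hxi').le
    linarith only [hp0, this]
  obtain ⟨w1, w2⟩ := hr.W x' y' hxi' hy' (by linarith only [ha0, a1', a3]) (by linarith only [ha1, hx2, a2]) e hp0' hpa
  exact ⟨coscos hxi' hy' (by linarith only [ha1', hpa]), w2, w1, hr.U x' y' hxi' hy' a1' (by linarith only [ha1, hx2, a2]) e hpa⟩

theorem GD.wdn (g : GD xs ys cl cp) (hr : DR xs ys T ρ a0 a1 p0) (ha0 : a0 ≤ ta cl)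
    (ha1 : ta cp ≤ a1) (ha1' : a1 ≤ 55 / 100) (hp0 : p0 ≤ a0 * (4142 / 10000))
    (ha0' : 158 / 1000 ≤ a0) (hv : shq (T - ρ) ≤ 45 / 100) (hκ : ta xs ≤ 94 / 100 * ta ys) :
    ∀ x y, x ∈ Icc cl cp → y ∈ Icc (1 / 4 : ℝ) (1 / 2) → x < xs → Nz x y T ρ →
    |gh y - gh ys| ≤ gh xs - gh x → Sx xs ys T ρ < Sx x y T ρ := by
  intro x y hx hy h1 hn hN
  have hxi := g.x1 hx
  have hyi : y ∈ Ioo (0 : ℝ) 1 := ⟨by linarith only [hy, hy.1], by linarith only [hy, hy.2]⟩
  have hxy : x + y < 1 := by linarith only [hx, g, hy, hx.2, g.cp2, hy.2]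
  have hxys : xs + ys < 1 := by linarith only [g, g.xc, g.cp2, g.y2]
  have hy1 := ta_le_one hyi hy.2
  have hys1 := ta_le_one g.yi g.y2
  have h8 := t8_le hyi hy.1
  have hxc := (ta_le' g.xi g.cpi).2 g.xc
  have hx1 := (ta_le' g.cli hxi).2 hx.1
  have hx2 := (ta_lt' hxi g.xi).2 h1
  have hN' := abs_le.1 hN
  have hN1 : ta x * ta ys ≤ ta xs * ta y :=
    (ta_mul_le hxi g.yi g.xi hyi).2 (by linarith only [hN'])
  have hκ' : ta x ≤ 94 / 100 * ta y := by
    have h2 : ta x * ta ys ≤ 94 / 100 * ta y * ta ys := by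
      nlinarith only [hN1, hκ, hyi, ta_pos hyi, mul_le_mul_of_nonneg_right hκ (ta_pos hyi).le]
    exact le_of_mul_le_mul_right h2 (ta_pos g.yi)
  have hax := ta_pos hxi
  have hay := ta_pos hyi
  have hpp : ta x * ta y ≤ 55 / 100 := by nlinarith only [ha1, ha1', hy1, hxc, hx2, ha0, ha0', hx1]
  have hcos : kq (ta x) (ta y) ≤ 2 * (1 + ta x * ta y) ^ 2 := by
    apply hcos_of
    · nlinarith only [ha1, ha1', h8, hxc, hx2, hκ']
    · nlinarith only [hy1, hax, hκ, hys1, hx2]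
  refine RC.wdn g.xi g.yi hxi hyi g.hs hxys hxy (by linarith only [g, g.xc, g.cp2]) h1 hN hn ?_ hcos
    (hsD (by linarith only [ha0, ha0', hx1]) (by linarith only [ha1, ha1', hxc, hx2]) (by linarith only [ha1, ha1', h8, hxc, hx2, hax]) hy1 hκ' hpp (shq_nonneg _) hv hcos)
  intro x' y' hx' hy' hyy hd hp
  have hxi' : x' ∈ Ioo (0 : ℝ) 1 := ⟨hxi.1.trans_le hx'.1, hx'.2.trans_lt g.xi.2⟩
  have e := diag_ta g.xi g.yi hxi' hy' hd
  have a1'' := (ta_le' hxi hxi').2 hx'.1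
  have a2 := (ta_le' hxi' g.xi).2 hx'.2
  have a4 := (ta_le' hy' g.yi).2 hyy
  have hax' := ta_pos hxi'
  have hay' := ta_pos hy'
  have hpa : ta x' * ta y' ≤ a1 := by nlinarith only [ha1, hys1, hxc, a2, a4, ha0, ha0', hx1, a1'']
  have hp0' : p0 ≤ ta x' * ta y' := by
    have : a0 * (4142 / 10000) ≤ ta x * ta y :=
      mul_le_mul (by linarith only [ha0, hx1]) h8.le (by norm_num) hax.le
    linarith only [hp0, hp, this]
  obtain ⟨w1, w2⟩ := hr.W x' y' hxi' hy' (by linarith only [ha0, hx1, a1'']) (by linarith only [ha1, hxc, a2]) e hp0' hpa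
  exact ⟨coscos hxi' hy' (by nlinarith only [ha1, ha1', hxc, hx2, hax, hpa]), w2⟩

end

end RC

end Pool.Agent.Work.MP_b30479_gtS.G2

end

section

/-!
# Rings on the level part: the condition `H2`
-/

namespace Pool.Agent.Work.MP_b30479_gtS.G2

open Real Set VOL

namespace RC

namespace Row

open NumIs NumIs.E

/-- the polynomial of `H2`, multiplied by `B²` -/
noncomputable def h2f (a B v : ℝ) : ℝ :=
  32 * (17156164 / 100000000) * ((B - a) ^ 2 * (a * B)) -
    v * (((1 - a ^ 2) * (1 - B ^ 2) - 4 * (a * B)) *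
        ((1 + 17156164 / 100000000) * (B ^ 2 + 17156164 / 100000000 * a ^ 2)) +
      ((1 - 17156164 / 100000000) * (B ^ 2 - 17156164 / 100000000 * a ^ 2) -
        4 * (17156164 / 100000000) * (a * B)) * ((1 + a ^ 2) * (1 + B ^ 2)))

theorem h2f_eq {a B : ℝ} (hB : 0 < B) (v : ℝ) :
    ff ((a + B) ^ 2) (a * B) v ((4142 / 10000 / B) ^ 2) * B ^ 2 = h2f a B v := by
  unfold ff cm km h2f
  field_simp
  ring

theorem ff_nonneg {a B v : ℝ} (ha : 0 < a) (hB : 0 < B) {w : ℝ} (hv : 0 ≤ v) (hvw : v ≤ w)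
    (h : 0 < h2f a B w) : 0 ≤ ff ((a + B) ^ 2) (a * B) v ((4142 / 10000 / B) ^ 2) := by
  have e := h2f_eq (a := a) hB v
  have h1 : 0 ≤ h2f a B v := by
    unfold h2f at h ⊢
    set P := ((1 - a ^ 2) * (1 - B ^ 2) - 4 * (a * B)) *
        ((1 + 17156164 / 100000000) * (B ^ 2 + 17156164 / 100000000 * a ^ 2)) +
      ((1 - 17156164 / 100000000) * (B ^ 2 - 17156164 / 100000000 * a ^ 2) -
        4 * (17156164 / 100000000) * (a * B)) * ((1 + a ^ 2) * (1 + B ^ 2))
    have h2 : 0 ≤ 32 * (17156164 / 100000000) * ((B - a) ^ 2 * (a * B)) := by positivity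
    rcases le_total P 0 with hP | hP
    · have := mul_nonneg hv (sub_nonneg.2 hP)
      nlinarith only [h2, this]
    · have := mul_le_mul_of_nonneg_right hvw hP
      linarith only [h, this]
  rw [← e] at h1
  exact nonneg_of_mul_nonneg_left h1 (by positivity)

/-- `tan (π z / 2)` -/
def tanE (z : E) : E := dv (sinPi (mul (q 1 2) z)) (cosPi (mul (q 1 2) z))

/-- variables `x`, `s`; `2 = a`, `3 = B`, `4 = v`, `5 = a²`, `6 = B²` -/
def eh2 (w : E) : E := lt (tanE (var 0)) <| lt (tanE (sub (q 1 2) (var 1))) <|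
  lt (sq (sinh (mul pi w))) <| lt (sq (var 2)) <| lt (sq (var 3)) <|
  sub (mul (mul (q 32 1) (q 17156164 100000000)) (mul (sq (sub (var 3) (var 2))) (mul (var 2) (var 3))))
   (mul (var 4) (add (mul (sub (mul (sub one (var 5)) (sub one (var 6)))
      (mul four (mul (var 2) (var 3)))) (mul (add one (q 17156164 100000000))
        (add (var 6) (mul (q 17156164 100000000) (var 5)))))
     (mul (sub (mul (sub one (q 17156164 100000000)) (sub (var 6) (mul (q 17156164 100000000) (var 5))))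
      (mul (mul four (q 17156164 100000000)) (mul (var 2) (var 3))))
      (mul (add one (var 5)) (add one (var 6))))))

theorem ta_div (x : ℝ) : Real.sin (π * (1 / 2 * x)) * (Real.cos (π * (1 / 2 * x)))⁻¹ = ta x := by
  unfold ta
  rw [Real.tan_eq_sin_div_cos, ← div_eq_mul_inv]
  congr 2 <;> ring

theorem eh2_val0 (x s : ℝ) (n : ℤ) (d : ℕ) : (eh2 (q n d)).val [x, s] =
    h2f (ta x) (ta (1 / 2 - s)) (shq (n / d)) := by
  simp only [eh2, tanE, dv, one, four, E.val, lkR_zero, lkR_succ, List.cons_append,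
    List.nil_append, h2f]
  push_cast
  rw [ta_div, ta_div]
  unfold shq
  ring

theorem eh2_val1 (x s : ℝ) (n m : ℤ) (d e : ℕ) : (eh2 (sub (q n d) (mul (q m e) (var 1)))).val [x, s] =
    h2f (ta x) (ta (1 / 2 - s)) (shq (n / d - m / e * s)) := by
  simp only [eh2, tanE, dv, one, four, E.val, lkR_zero, lkR_succ, List.cons_append,
    List.nil_append, h2f]
  push_cast
  rw [ta_div, ta_div]
  unfold shq
  ring

/-- the list of a row -/
def h2l (c1 q1 A C : ℤ) : List E := [eh2 (q q1 10000), eh2 (sub (q C 10000) (mul (q A 100) (var 1))),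
  sub (add (var 0) (var 1)) (q c1 10000)]

theorem H2_of {x0 x1 s0 s1 c1 q1 A C : ℤ} {n : ℕ}
    (h : chk (h2l c1 q1 A C) n [V.of 10000 x0 x1, V.of 10000 s0 s1] = true)
    {xs ys T ρ : ℝ} (hxs : xs ∈ Ioo (0 : ℝ) 1) (hys : ys ∈ Ioo (0 : ℝ) 1)
    (h0 : (x0 : ℝ) / 10000 ≤ xs) (h1 : xs ≤ x1 / 10000) (h2 : (s0 : ℝ) / 10000 ≤ 1 / 2 - ys)
    (h3 : 1 / 2 - ys ≤ s1 / 10000) (h4 : xs + (1 / 2 - ys) ≤ c1 / 10000)
    (h5 : |T - ρ| ≤ q1 / 10000) (h6 : |T - ρ| ≤ C / 10000 - A / 100 * (1 / 2 - ys)) :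
    H2 xs ys T ρ := by
  obtain ⟨e, he, hp⟩ := chk2 h (by norm_num) (x := xs) (y := 1 / 2 - ys) (by push_cast; linarith only [h0])
    (by push_cast; linarith only [h1]) (by push_cast; linarith only [h2]) (by push_cast; linarith only [h3])
  have ey : 1 / 2 - (1 / 2 - ys) = ys := by ring
  simp only [h2l, List.mem_cons, List.not_mem_nil, or_false] at he
  unfold H2
  rcases he with rfl | rfl | rfl
  · rw [eh2_val0, ey] at hp
    refine ff_nonneg (ta_pos hxs) (ta_pos hys) (shq_nonneg _) (shq_mono ?_) hp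
    rw [abs_of_nonneg (a := (q1 : ℝ) / (10000 : ℕ)) (by push_cast; exact (abs_nonneg _).trans h5)]
    push_cast
    exact h5
  · rw [eh2_val1, ey] at hp
    refine ff_nonneg (ta_pos hxs) (ta_pos hys) (shq_nonneg _) (shq_mono ?_) hp
    push_cast
    rw [abs_of_nonneg (a := (C : ℝ) / 10000 - A / 100 * (1 / 2 - ys)) ((abs_nonneg _).trans h6)]
    exact h6
  · exfalso
    simp only [E.val, lkR_zero, lkR_one] at hp
    push_cast at hp
    linarith only [h4, hp]

end Row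

end RC

end Pool.Agent.Work.MP_b30479_gtS.G2

end

section

/-!
# The push of a ring: real form of the first order conditions
-/

namespace Pool.Agent.Work.MP_b30479_gtS.G2

open Real Set VOL Filter Topology

namespace RC

theorem zt_flat (ρ : ℝ) {σ : ℝ} (h0 : -(1 / 4) ≤ σ) (h1 : σ ≤ 1 / 4) :
    LT.zt ρ σ = lv ((1 / 2 + σ) - 1 / 2) ρ := by
  rw [zt_eq, th_of_le (abs_le.2 ⟨h0, h1⟩)]
  unfold lv
  push_cast
  ring

theorem sin_lv_conj {x t : ℝ} (h : Complex.sin (π * lv x t) ≠ 0) :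
    Complex.sin (π * lv x (-t)) ≠ 0 := by
  intro h1
  apply h
  have e : lv x (-t) = (starRingEnd ℂ) (lv x t) := by
    apply Complex.ext <;> simp [lv]
  rw [e] at h1
  have h2 : (starRingEnd ℂ) (Complex.sin ((π : ℂ) * lv x t)) = 0 := by
    rw [← Complex.sin_conj, map_mul, Complex.conj_ofReal]
    exact h1
  simpa using h2

/-- nonsingular factors -/
theorem Nz_of_sin {x y T η : ℝ} (h1 : Complex.sin (π * (lv x T + 1 / 2 + lv (y - 1 / 2) η)) ≠ 0)
    (h2 : Complex.sin (π * (lv x T + 1 / 2 - lv (y - 1 / 2) η)) ≠ 0) : Nz x y T η := by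
  constructor
  · have e : lv x T + 1 / 2 + lv (y - 1 / 2) η = lv (x + y) (T + η) := by
      unfold lv
      push_cast
      ring
    rw [e] at h1
    exact h1
  · have e : lv x T + 1 / 2 - lv (y - 1 / 2) η = 1 - lv (y - x) (η - T) := by
      unfold lv
      push_cast
      ring
    rw [e] at h2
    have e2 : Complex.sin (π * (1 - lv (y - x) (η - T))) = Complex.sin (π * lv (y - x) (η - T)) := by
      rw [mul_sub, mul_one, Complex.sin_pi_sub]
    rw [e2] at h2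
    have := sin_lv_conj h2
    rwa [neg_sub] at this

theorem sin_of_Nz {x y T η : ℝ} (h : Nz x y T η) :
    Complex.sin (π * (lv x T + 1 / 2 + lv (y - 1 / 2) η)) ≠ 0 ∧
    Complex.sin (π * (lv x T + 1 / 2 - lv (y - 1 / 2) η)) ≠ 0 := by
  constructor
  · have e : lv x T + 1 / 2 + lv (y - 1 / 2) η = lv (x + y) (T + η) := by
      unfold lv
      push_cast
      ring
    rw [e]
    exact h.1
  · have e : lv x T + 1 / 2 - lv (y - 1 / 2) η = 1 - lv (y - x) (η - T) := by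
      unfold lv
      push_cast
      ring
    rw [e, mul_sub, mul_one, Complex.sin_pi_sub]
    have := sin_lv_conj h.2
    rwa [neg_sub] at this

section
variable {b ρ σ x x' T T' : ℝ}

/-- flat part, one side -/
theorem flat_le_two (h : RM b ρ (lv x T) (lv x' T') σ) (h0 : -(1 / 4) ≤ σ) (h1 : σ ≤ 0)
    (hx : 0 ≤ x) (hx1 : x < 1 / 2) (hx' : 0 ≤ x') (hx1' : x' < 1 / 2) :
    Dx x (1 / 2 + σ) T ρ + Dx x' (1 / 2 + σ) T' ρ ≤ 2 * π * b * ρ := by
  have key := h.right_flat h0 h1 (by rw [lv_re]; exact hx) (by rw [lv_re]; linarith only [h1, hx1])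
    (by rw [lv_re]; exact hx') (by rw [lv_re]; linarith only [h1, hx1'])
  rw [zt_flat ρ h0 (by linarith only [h1]), Dm_eq, Dm_eq] at key
  linarith only [key]

theorem flat_le_one (h : RM b ρ (lv x T) 0 σ) (h0 : -(1 / 4) ≤ σ) (h1 : σ ≤ 0)
    (hx : 0 ≤ x) (hx1 : x < 1 / 2) : Dx x (1 / 2 + σ) T ρ ≤ 2 * π * b * ρ := by
  have key := h.right_flat h0 h1 (by rw [lv_re]; exact hx) (by rw [lv_re]; linarith only [h1, hx1])
    (by simp) (by simp; linarith only [h1])
  rw [zt_flat ρ h0 (by linarith only [h1]), Dm_eq, Dm_zero_left] at key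
  linarith only [key]

theorem flat_eq_two (h : RM b ρ (lv x T) (lv x' T') σ) (h0 : -(1 / 4) < σ) (h1 : σ < 1 / 4)
    (hn : Nz x (1 / 2 + σ) T ρ) (hn' : Nz x' (1 / 2 + σ) T' ρ) :
    Dx x (1 / 2 + σ) T ρ + Dx x' (1 / 2 + σ) T' ρ = 2 * π * b * ρ := by
  have e := zt_flat ρ h0.le h1.le
  obtain ⟨a1, a2⟩ := sin_of_Nz hn
  obtain ⟨a3, a4⟩ := sin_of_Nz hn'
  have key := h.flat_eq h0 h1 (by rw [e]; exact a1) (by rw [e]; exact a2) (by rw [e]; exact a3)
    (by rw [e]; exact a4)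
  rw [e, Dm_eq, Dm_eq] at key
  linarith only [key]

theorem sin_half_ne {ζ : ℂ} (h0 : -(1 / 2) < ζ.re) (h1 : ζ.re < 1 / 2) :
    Complex.sin (π * (0 + 1 / 2 + ζ)) ≠ 0 ∧ Complex.sin (π * (0 + 1 / 2 - ζ)) ≠ 0 := by
  constructor
  · apply sin_ne_of_strip
    constructor <;> simp <;> linarith only [h0, h1]
  · apply sin_ne_of_strip
    constructor <;> simp <;> linarith only [h1, h0]

theorem flat_eq_one (h : RM b ρ (lv x T) 0 σ) (h0 : -(1 / 4) < σ) (h1 : σ < 1 / 4)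
    (hn : Nz x (1 / 2 + σ) T ρ) : Dx x (1 / 2 + σ) T ρ = 2 * π * b * ρ := by
  have e := zt_flat ρ h0.le h1.le
  obtain ⟨a1, a2⟩ := sin_of_Nz hn
  have a3 := sin_half_ne (ζ := lv ((1 / 2 + σ) - 1 / 2) ρ) (by rw [lv_re]; linarith only [h0])
    (by rw [lv_re]; linarith only [h1])
  have key := h.flat_eq h0 h1 (by rw [e]; exact a1) (by rw [e]; exact a2) (by rw [e]; exact a3.1)
    (by rw [e]; exact a3.2)
  rw [e, Dm_eq, Dm_zero_left] at key
  linarith only [key]

end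

/-! ### the push of a ring -/

/-- what is known about the ring variable of a maximiser; `T`, `x` one hinge -/
structure St (b ρ σ T x : ℝ) : Prop where
  neg : σ ≤ 0
  ge : -(1 / 4) - 1 / (2 * b) ≤ σ
  /-- the height of the hinge on the ramp -/
  t : σ < -(1 / 4) → 1 / 2 + σ ≤ x → T ≤ 4 * ρ * (1 / 2 + σ)
  /-- no factor is singular -/
  nz : -(1 / 4) ≤ σ → Nz x (1 / 2 + σ) T ρ
  nr : σ < -(1 / 4) → ¬ (x = 1 / 2 + σ ∧ T = 4 * ρ * (1 / 2 + σ))

section
variable {lam α β b ρ σ xs ys T cl cp xs' T' cl' cp' x x' : ℝ}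

theorem St.adm (h : St b ρ σ T x) (hx : x ∈ Icc cl cp) (hσ : σ < -(1 / 4)) :
    Adm b T ρ cl cp x (1 / 2 + σ) :=
  ⟨hx.1, hx.2, by linarith only [h, h.ge], by linarith only [hσ], fun h1 => h.t hσ h1, h.nr hσ⟩

theorem St.lo (h : St b ρ σ T x) (hb : 4 ≤ b) : -(1 / 2) < σ := by
  have h1 : 1 / (2 * b) ≤ 1 / 8 := by
    apply one_div_le_one_div_of_le (by norm_num)
    linarith only [hb]
  linarith only [h1, h, h.ge]

/-- the first order conditions of a ring with two hinges push the hinge `x` back, with slacks `f`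
(up) and `g` (down) -/
structure RP2 (b xs ys T ρ cl cp xs' T' cl' cp' : ℝ) (f g : ℝ → ℝ) : Prop where
  lev : ∀ x x' y, x ∈ Icc cl cp → x' ∈ Icc cl' cp' → y ∈ Icc (1 / 4 : ℝ) (1 / 2) →
    Nz x y T ρ → Nz x' y T' ρ → |gh x' - gh xs'| ≤ |gh x - gh xs| →
    Dx x y T ρ + Dx x' y T' ρ ≤ 2 * π * b * ρ →
    (1 / 4 < y → Dx x y T ρ + Dx x' y T' ρ = 2 * π * b * ρ) →
    (xs < x → Sx x y T ρ < Sx xs ys T ρ + f (gh x - gh xs)) ∧
      (x < xs → Sx xs ys T ρ < Sx x y T ρ + g (gh xs - gh x))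
  ramp : ∀ x x' y, Adm b T ρ cl cp x y → Adm b T' ρ cl' cp' x' y →
    |gh x' - gh xs'| ≤ |gh x - gh xs| → Fr x y T ρ + Fr x' y T' ρ ≤ Rr b y ρ →
    (xs < x → Sx x y T (4 * ρ * y) < Sx xs ys T ρ + f (gh x - gh xs)) ∧
      (x < xs → Sx xs ys T ρ < Sx x y T (4 * ρ * y) + g (gh xs - gh x))

/-- the same for a ring at an end -/
structure RP1 (b xs ys T ρ cl cp : ℝ) (f g : ℝ → ℝ) : Prop where
  lev : ∀ x y, x ∈ Icc cl cp → y ∈ Icc (1 / 4 : ℝ) (1 / 2) → Nz x y T ρ →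
    Dx x y T ρ ≤ 2 * π * b * ρ → (1 / 4 < y → Dx x y T ρ = 2 * π * b * ρ) →
    (xs < x → Sx x y T ρ < Sx xs ys T ρ + f (gh x - gh xs)) ∧
      (x < xs → Sx xs ys T ρ < Sx x y T ρ + g (gh xs - gh x))
  ramp : ∀ x y, Adm b T ρ cl cp x y → Fr x y T ρ ≤ Rr b y ρ →
    (xs < x → Sx x y T (4 * ρ * y) < Sx xs ys T ρ + f (gh x - gh xs)) ∧
      (x < xs → Sx xs ys T ρ < Sx x y T (4 * ρ * y) + g (gh xs - gh x))

/-- **Interior ring, no slack.** -/
theorem RP2.of (hp : LH xs ys T ρ cl cp) (hq : LH xs' ys T' ρ cl' cp')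
    (hd : DnOK xs T cl cp xs' T' cl' cp' ys ρ) (rp : RampOK lam α β b xs ys T ρ cl cp)
    (rq : RampOK lam α β b xs' ys T' ρ cl' cp') (hb : 0 < b) (hβ : 0 ≤ β)
    (hys : ys ∈ Ioo (1 / 4 : ℝ) 1) (hD : Dx xs ys T ρ + Dx xs' ys T' ρ = 2 * π * b * ρ)
    (hcl : 0 < cl) (hcp : cp < 1) :
    RP2 b xs ys T ρ cl cp xs' T' cl' cp' (fun _ => 0) (fun _ => 0) := by
  constructor
  · intro x x' y hx hx' hy hn hn' hN F1 F2
    rw [← hD] at F1 F2
    simpa only [add_zero] using level_two hp hq hd ⟨by linarith only [hys, hys.1], hys.2⟩ hx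
      ⟨by linarith only [hcl, hx, hx.1], by linarith only [hcp, hx, hx.2]⟩ hx' hy hn hn' hN F1 F2 hys.1.le
  · intro x x' y ha ha' hN foc
    simpa only [add_zero] using ramp_two rp rq hb hβ hD ha ha' hN foc

/-- **Ring at an end, no slack.** -/
theorem RP1.of (hp : LH xs ys T ρ cl cp) (hd : DnOK1 xs T cl cp ys ρ)
    (rp : RampOK1 b xs ys T ρ cl cp) (hys : ys ∈ Ioo (1 / 4 : ℝ) 1)
    (hD : Dx xs ys T ρ = 2 * π * b * ρ) (hcl : 0 < cl) (hcp : cp < 1) :
    RP1 b xs ys T ρ cl cp (fun _ => 0) (fun _ => 0) := by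
  constructor
  · intro x y hx hy hn F1 F2
    rw [← hD] at F1 F2
    simpa only [add_zero] using level_one hp hd ⟨by linarith only [hys, hys.1], hys.2⟩ hx
      ⟨by linarith only [hcl, hx, hx.1], by linarith only [hcp, hx, hx.2]⟩ hy hn F1 F2 hys.1.le
  · intro x y ha foc
    simpa only [add_zero] using ramp_one rp ha foc

/-- **The push of an interior ring.** -/
theorem push_two {f g : ℝ → ℝ} (H : RP2 b xs ys T ρ cl cp xs' T' cl' cp' f g)
    (hM : RM b ρ (lv x T) (lv x' T') σ) (s : St b ρ σ T x) (s' : St b ρ σ T' x')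
    (hx : x ∈ Icc cl cp) (hx' : x' ∈ Icc cl' cp') (hcl : 0 < cl) (hcl' : 0 < cl')
    (hcp : cp < 1 / 2) (hcp' : cp' < 1 / 2) (hN : |gh x' - gh xs'| ≤ |gh x - gh xs|) :
    (xs < x → S4 0 (lv x T) (LT.zt ρ σ) < S4 0 (lv xs T) (lv (ys - 1 / 2) ρ) +
      f (gh x - gh xs)) ∧
    (x < xs → S4 0 (lv xs T) (lv (ys - 1 / 2) ρ) < S4 0 (lv x T) (LT.zt ρ σ) +
      g (gh xs - gh x)) := by
  have h4 := hM.b4
  have hlo := s.lo h4
  rw [S4_eq]
  rcases le_or_gt (-(1 / 4)) σ with hσ | hσ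
  · rw [zt_flat ρ hσ (by linarith only [s, s.neg]), S4_eq]
    exact H.lev x x' _ hx hx' ⟨by linarith only [hσ], by linarith only [s, s.neg]⟩ (s.nz hσ) (s'.nz hσ) hN
      (flat_le_two hM hσ s.neg (by linarith only [hcl, hx, hx.1]) (by linarith only [hcp, hx, hx.2])
        (by linarith only [hcl', hx', hx'.1]) (by linarith only [hcp', hx', hx'.2]))
      (fun hy => flat_eq_two hM (by linarith only [hy]) (by linarith only [s, s.neg]) (s.nz hσ) (s'.nz hσ))
  · rw [zt_lv ρ hσ.le, S4_eq]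
    exact H.ramp x x' _ (s.adm hx hσ) (s'.adm hx' hσ) hN
      (foc_two hM hlo hσ (by linarith only [hcl, hx, hx.1]) (by linarith only [hcp, hx, hx.2]) (by linarith only [hcl', hx', hx'.1])
        (by linarith only [hcp', hx', hx'.2]))

/-- **The push of a ring at an end.** -/
theorem push_one {f g : ℝ → ℝ} (H : RP1 b xs ys T ρ cl cp f g)
    (hM : RM b ρ (lv x T) 0 σ) (s : St b ρ σ T x)
    (hx : x ∈ Icc cl cp) (hcl : 0 < cl) (hcp : cp < 1 / 2) :
    (xs < x → S4 0 (lv x T) (LT.zt ρ σ) < S4 0 (lv xs T) (lv (ys - 1 / 2) ρ) +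
      f (gh x - gh xs)) ∧
    (x < xs → S4 0 (lv xs T) (lv (ys - 1 / 2) ρ) < S4 0 (lv x T) (LT.zt ρ σ) +
      g (gh xs - gh x)) := by
  have h4 := hM.b4
  have hlo := s.lo h4
  rw [S4_eq]
  rcases le_or_gt (-(1 / 4)) σ with hσ | hσ
  · rw [zt_flat ρ hσ (by linarith only [s, s.neg]), S4_eq]
    exact H.lev x _ hx ⟨by linarith only [hσ], by linarith only [s, s.neg]⟩ (s.nz hσ)
      (flat_le_one hM hσ s.neg (by linarith only [hcl, hx, hx.1]) (by linarith only [hcp, hx, hx.2]))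
      (fun hy => flat_eq_one hM (by linarith only [hy]) (by linarith only [s, s.neg]) (s.nz hσ))
  · rw [zt_lv ρ hσ.le, S4_eq]
    exact H.ramp x _ (s.adm hx hσ) (foc_one hM hlo hσ (by linarith only [hcl, hx, hx.1]) (by linarith only [hcp, hx, hx.2]))

/-! ### the ring variable if the hinges are at the saddle point -/

/-- contribution of a hinge at the saddle point -/
structure LI (xs ys T ρ : ℝ) : Prop where
  up : ∀ y, ys < y → y ≤ 1 / 2 → Dx xs y T ρ < Dx xs ys T ρ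
  dn : ∀ y, 1 / 4 ≤ y → y < ys → Nz xs y T ρ → Dx xs ys T ρ < Dx xs y T ρ

theorem LI.of (h : LH xs ys T ρ cl cp) (hd : DnG xs T cl cp ys ρ) (hx : xs ∈ Icc cl cp)
    (hys : ys ∈ Ioc (1 / 4 : ℝ) (1 / 2)) : LI xs ys T ρ := by
  constructor
  · intro y h1 h2
    refine h.up xs y hx h1 h2 ?_
    rw [sub_self, abs_zero, sub_pos]
    exact (gh_lt ⟨by linarith only [h1, h2, hys, hys.1], by linarith only [h1, h2, hys.2]⟩ ⟨by linarith only [h1, hys, hys.1], by linarith only [h2]⟩).2 h1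
  · intro y h1 h2 hn
    refine hd xs y hx h1 h2 hn ?_
    rw [sub_self, abs_zero, sub_pos]
    exact (gh_lt ⟨by linarith only [h1], by linarith only [h2, hys, hys.2]⟩ ⟨by linarith only [h1, h2, hys.1], by linarith only [h1, h2, hys, hys.2]⟩).2 h2

/-- **Inner statement, interior ring.** -/
theorem in_two (hp : LI xs ys T ρ) (hq : LI xs' ys T' ρ)
    (rp : RampOK lam α β b xs ys T ρ cl cp) (rq : RampOK lam α β b xs' ys T' ρ cl' cp')
    (hα : 0 < α) (hD : Dx xs ys T ρ + Dx xs' ys T' ρ = 2 * π * b * ρ) (hys : 1 / 4 < ys)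
    (hM : RM b ρ (lv xs T) (lv xs' T') σ) (s : St b ρ σ T xs) (s' : St b ρ σ T' xs')
    (hx : xs ∈ Icc cl cp) (hx' : xs' ∈ Icc cl' cp') (hcl : 0 < cl) (hcl' : 0 < cl')
    (hcp : cp < 1 / 2) (hcp' : cp' < 1 / 2) : 1 / 2 + σ = ys := by
  have h4 := hM.b4
  have hlo := s.lo h4
  rcases le_or_gt (-(1 / 4)) σ with hσ | hσ
  · have F1 := flat_le_two hM hσ s.neg (by linarith only [hcl, hx, hx.1]) (by linarith only [hcp, hx, hx.2])
        (by linarith only [hcl', hx', hx'.1]) (by linarith only [hcp', hx', hx'.2])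
    rcases lt_trichotomy (1 / 2 + σ) ys with h | h | h
    · have h1 := hp.dn _ (by linarith only [hσ]) h (s.nz hσ)
      have h2 := hq.dn _ (by linarith only [hσ]) h (s'.nz hσ)
      exfalso
      linarith only [hD, F1, h1, h2]
    · exact h
    · have F2 := flat_eq_two hM (by linarith only [hys, h]) (by linarith only [hys, h, s, s.neg]) (s.nz hσ) (s'.nz hσ)
      have h1 := hp.up _ h (by linarith only [s, s.neg])
      have h2 := hq.up _ h (by linarith only [s, s.neg])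
      exfalso
      linarith only [hD, F2, h1, h2]
  · have h1 := ramp_two_in rp rq hα (by linarith only [h4, hlo, hσ]) hD (s.adm hx hσ) (s'.adm hx' hσ)
    have h2 := foc_two hM hlo hσ (by linarith only [hcl, hx, hx.1]) (by linarith only [hcp, hx, hx.2]) (by linarith only [hcl', hx', hx'.1])
        (by linarith only [hcp', hx', hx'.2])
    exfalso
    linarith only [h1, h2]

/-- **Inner statement, ring at an end.** -/
theorem in_one (hp : LI xs ys T ρ) (rp : RampOK1 b xs ys T ρ cl cp)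
    (hD : Dx xs ys T ρ = 2 * π * b * ρ) (hys : 1 / 4 < ys)
    (hM : RM b ρ (lv xs T) 0 σ) (s : St b ρ σ T xs)
    (hx : xs ∈ Icc cl cp) (hcl : 0 < cl) (hcp : cp < 1 / 2) : 1 / 2 + σ = ys := by
  have h4 := hM.b4
  have hlo := s.lo h4
  rcases le_or_gt (-(1 / 4)) σ with hσ | hσ
  · have F1 := flat_le_one hM hσ s.neg (by linarith only [hcl, hx, hx.1]) (by linarith only [hcp, hx, hx.2])
    rcases lt_trichotomy (1 / 2 + σ) ys with h | h | h
    · have h1 := hp.dn _ (by linarith only [hσ]) h (s.nz hσ)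
      exfalso
      linarith only [hD, F1, h1]
    · exact h
    · have F2 := flat_eq_one hM (by linarith only [hys, h]) (by linarith only [hys, h, s, s.neg]) (s.nz hσ)
      have h1 := hp.up _ h (by linarith only [s, s.neg])
      exfalso
      linarith only [hD, F2, h1]
  · have h1 := rp.eq _ (s.adm hx hσ)
    have h2 := foc_one hM hlo hσ (by linarith only [hcl, hx, hx.1]) (by linarith only [hcp, hx, hx.2])
    exfalso
    linarith only [h1, h2]

end

end RC

end Pool.Agent.Work.MP_b30479_gtS.G2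

end
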