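import Pool.Agent.Work.MP_b30479_gt.TBS.G2.RRT

section

/-!
# Rings with the ring variable on the ramp: certificates, I5_two, I5_twoE, I5_three, I5_threeE
-/

set_option deprecated.oldSectionVars true

namespace Pool.Agent.Work.MP_b30479_gtS.G2

open NumIs

namespace RQ

theorem cI5_two_0_pl : okB 10000 (tP 5 1 6 10 0 4130 6444 0 0 42712 0 1400)
    0 1580 0 0 40 1250 1860 620 1480 1500 2500 0 725
    0x76ec0fb2e0608f02edd81f605981013d9809e0478183edd807607dbb0303dbb0304b97015c0972e000c19ecc04f030400f1e0018182edd81f6ec0c076ec001765c0fb2e04001f6ec00f0304783033c08176ec03b02edd8003ecb812e5c00183ecb81f65c0c0029c7819e0408081 = true := by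
  decide +kernel

theorem cI5_two_0_pm : okB 10000 (tP 5 1 6 10 0 4130 0 1500 0 0 0 1400)
    0 1580 0 0 40 1860 2190 620 1480 1500 2500 0 725
    0x763c0cf023c0cf02edd801e3c0419e0478181edd80f6ec0c04e047830307dbb01edd81809c181839c781820204f1e9c040863c04182 = true := by
  decide +kernel

theorem cI5_two_0_pr : okB 10000 (tP 5 1 6 10 0 4130 0 7879 29124 0 0 1400)
    0 1580 0 0 40 2190 3000 620 1480 1500 2500 0 725
    0xd9b013d3809e3c0019e3c001006cd81ce9c0eb4e060674e02080013cd809e3c780810078f010c78080040db3606d9b0300d8f1e000c102 = true := by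
  decide +kernel

theorem cI5_two_0_db : okB 10000 (tD 1 5 1 6 10 0 4130 1270 1860 0 11985 61571 0 0 9953 61571 0 0 1400)
    0 1580 0 0 40 1250 1860 620 1480 1500 2500 0 725
    0x6fde08f02de9c16f4e08080de9c11e05bd3804e080034e78106049c7834e08003dfbc0ef05bf782dfbc10101bd3824fbc080075f7803d5c0023c9c027060c101 = true := by
  decide +kernel

theorem cI5_two_0_da : okB 10000 (tD 0 5 1 6 10 0 4130 1270 0 0 7855 42713 0 1500 0 0 0 0 1400)
    0 1580 0 0 40 1860 2190 620 1480 1500 2500 0 725
    0x6fde013833c9c1823c9c1823c0b7ef015c11e055d3834e08181 = true := by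
  decide +kernel

theorem cI5_two_0_ua : okB 10000 (tU 0 5 1 6 10 0 4130 920 0 9444 0 0 42713 1500 0 0 0 0 1400)
    0 1580 0 0 40 1860 2190 620 1480 1500 2500 0 725
    0x1f9c04f033c0cf029c7819e067814e9c0cf033c08081 = true := by
  decide +kernel

theorem cI5_two_0_ub : okB 10000 (tU 1 5 1 6 10 0 4130 920 2190 9444 0 0 42713 9626 0 0 37106 0 1400)
    0 1580 0 0 40 2190 3000 620 1480 1500 2500 0 725
    0xdcf800e0dbce007c1816e780360c001b66c0c1026cd811e3c08f020609b8706dc383053cf833e0c0379e01ba7000db87001c300060c0b66c0cf9f02780036cd8f020608101 = true := by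
  decide +kernel

theorem cI5_two_1_pl : okB 10000 (tP 5 1 6 10 0 4460 6625 0 0 37105 0 1400)
    0 1580 0 0 40 1250 2190 620 1480 1500 2500 0 725
    0x1d8f033c0fb760678180edd81ae5c00f030604f7602781f6cc0cf030008f1e3c0009e060bb7607d811e0478f013c0c1f6ec0cf023c7809e060c0f6ec0fb2e060fb2e060bb7605d81765c0c1813c7809e06080003c7819e040bb7605dbb0200797003c0c1f6ec0bb76020171e0478183033a7033c1818305dbb00ec0972e00b8b02060fb1e060bb7601d81765c0c1f63c0c1010138f003c0cf060608101 = true := by
  decide +kernel

theorem cI5_two_1_pm : okB 10000 (tP 5 1 6 10 0 4460 0 1500 0 0 0 1400)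
    0 1580 0 0 40 2190 2520 620 1480 1500 2500 0 725
    0x138f033c0a74e06781016c0a74e075a703033a70104d81013c78302027811eac04f020c7809e040c083 = true := by
  decide +kernel

theorem cI5_two_1_pr : okB 10000 (tP 5 1 6 10 0 4460 0 8840 29124 0 0 1400)
    0 1580 0 0 40 2520 3000 620 1480 1500 2500 0 725
    0xd9b016cd80806cd80023c1819e04d8f026c080836cd819e3c001027cd9b0006d8f023c1810306f9f036c7819e3c0010302d8f1e000db1e0608101 = true := by
  decide +kernel

theorem cI5_two_1_db : okB 10000 (tD 1 5 1 6 10 0 4460 1270 2190 0 14016 61571 0 0 11985 61571 0 0 1400)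
    0 1580 0 0 40 1250 2190 620 1480 1500 2500 0 725
    0x15f7804e0d3a700093834e781a7040abef015c1271e0c1d74e0d38304077a7049f781009c1a74e0138305bf7804e0f7ef05bc1814f5c0d7049c7830608080 = true := by
  decide +kernel

theorem cI5_two_1_da : okB 10000 (tD 0 5 1 6 10 0 4460 1270 0 0 7851 37106 0 1500 0 0 0 0 1400)
    0 1580 0 0 40 2190 2520 620 1480 1500 2500 0 725
    0x15d3834e0eba70604f57029c1827efc082 = true := by
  decide +kernel

theorem cI5_two_1_ua : okB 10000 (tU 0 5 1 6 10 0 4460 1250 0 9626 0 0 37106 1500 0 0 0 0 1400)
    0 1580 0 0 40 2190 2520 620 1480 1500 2500 0 725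
    0x1e9c0674e0204f4e0209b023c181060478f013c08083 = true := by
  decide +kernel

theorem cI5_two_1_ub : okB 10000 (tU 1 5 1 6 10 0 4460 1250 2520 9626 0 0 37106 9844 0 0 33115 0 1400)
    0 1580 0 0 40 2520 3000 620 1480 1500 2500 0 725
    0xd9b016cd81813cd80863c041836c781b63c0c0826c7819e3c041026cd81b63c0c1b66c0db1e060c0b66c05b063c0418304d8f1e020db1e0608101 = true := by
  decide +kernel

theorem cI5_twoE_pl : okB 10000 (tP 5 1 6 10 0 3740 6342 0 0 47819 0 1680)
    0 1580 0 0 40 1250 1640 270 700 1500 2500 0 725
    0x1dbb03ec0bb03ec0bef607d81fdec0c0f6ec00101edd80ae2c0c183edd81f6ec0c082ec781ce3c0c102 = true := by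
  decide +kernel

theorem cI5_twoE_pm : okB 10000 (tP 5 1 6 10 0 3740 0 1500 0 0 0 1680)
    0 1580 0 0 40 1640 1860 270 700 1500 2500 0 725
    0x1dbb760407b03ec0bb02fbd81f607d817dec0fb0203d8101edd80f6047bb01060e71e0478182 = true := by
  decide +kernel

theorem cI5_twoE_pr : okB 10000 (tP 5 1 6 10 0 3740 0 6918 29124 0 0 1680)
    0 1580 0 0 40 1860 3000 270 700 1500 2500 0 725
    0x4e9c0cf06060db1e0609b36060a75603dbb7d0206702013bb7602027020738f760004f020c7808306da7003c0db1e0408100 = true := by
  decide +kernel

theorem cI5_twoE_db : okB 10000 (tD 1 5 1 6 10 0 3740 1270 1640 0 9953 61571 0 0 8598 61571 0 0 1680)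
    0 1580 0 0 40 1250 1640 270 700 1500 2500 0 725
    0x1bf7ef0203783fbbc1fd03f40efdfbc0800607b7603bf7ef0404002dfbf780029f780060fb1e07dbb03033a7013c0c102 = true := by
  decide +kernel

theorem cI5_twoE_da : okB 10000 (tD 0 5 1 6 10 0 3740 1270 0 0 7395 47820 0 1500 0 0 0 0 1680)
    0 1580 0 0 40 1640 1860 270 700 1500 2500 0 725
    0x6fde0f783dfbc1829c78182 = true := by
  decide +kernel

theorem cI5_twoE_ua : okB 10000 (tU 0 5 1 6 10 0 3740 590 0 9342 0 0 47820 1500 0 0 0 0 1680)
    0 1580 0 0 40 1640 1860 270 700 1500 2500 0 725
    0x1dfb833e7c0833e1c182 = true := by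
  decide +kernel

theorem cI5_twoE_ub : okB 10000 (tU 1 5 1 6 10 0 3740 590 1860 9342 0 0 47820 9444 0 0 42713 0 1680)
    0 1580 0 0 40 1860 3000 270 700 1500 2500 0 725
    0x1f9e04f836e7c1826e7c383060a79f061c1cf3e0cf8302d8f803e0c100 = true := by
  decide +kernel

theorem cI5_three_0_pl : okB 10000 (tP 5 1 6 10 0 4050 6454 0 0 42310 0 1200)
    0 1580 0 0 40 1200 1880 1010 1590 1500 2500 0 725
    0x76ec03b023d980033c08f06060fb7603d81f6ec0fb0301d9703ec0c11e3c003030400f06060bb7601d819e3c001f6ec00f0305dbb00ec0fb2e060972e0478183019bb003c0cf1e000811e0c0c101 = true := by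
  decide +kernel

theorem cI5_three_0_pm : okB 10000 (tP 5 1 6 10 0 4050 0 1500 0 0 0 1200)
    0 1580 0 0 40 1880 2110 1010 1590 1500 2500 0 725
    0x1ecc04f020c0cf06060bb76019819e04781813c18182 = true := by
  decide +kernel

theorem cI5_three_0_pr : okB 10000 (tP 5 1 6 10 0 4050 0 7646 29124 0 0 1200)
    0 1580 0 0 40 2110 3000 1010 1590 1500 2500 0 725
    0xd9b016c08f1e04781033c7809e0538f033c080863c041b63c0c100 = true := by
  decide +kernel

theorem cI5_three_0_db : okB 10000 (tD 1 5 1 6 10 0 4050 1270 1880 0 12006 64006 0 0 10534 64006 0 0 1200)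
    0 1580 0 0 40 1200 1880 1010 1590 1500 2500 0 725
    0x1bcf024e78103dfbc06f040538f0618f01040cf1e0218182dfbc11e4e001271e0c1efde09383de9c1270608080 = true := by
  decide +kernel

theorem cI5_three_0_da : okB 10000 (tD 0 5 1 6 10 0 4050 1270 0 0 7428 42311 0 1500 0 0 0 0 1200)
    0 1580 0 0 40 1880 2110 1010 1590 1500 2500 0 725
    0x7b7813c08f020c78083 = true := by
  decide +kernel

theorem cI5_three_0_ua : okB 10000 (tU 0 5 1 6 10 0 4050 840 0 9454 0 0 42311 1500 0 0 0 0 1200)
    0 1580 0 0 40 1880 2110 1010 1590 1500 2500 0 725
    0x7b31f0404f820e78083 = true := by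
  decide +kernel

theorem cI5_three_0_ub : okB 10000 (tU 1 5 1 6 10 0 4050 840 2110 9454 0 0 42311 9578 0 0 38289 0 1200)
    0 1580 0 0 40 2110 3000 1010 1590 1500 2500 0 725
    0x373c7c0803e7c0836c780363c001826c780360408f86007c386000809e6c04f060008103 = true := by
  decide +kernel

theorem cI5_three_1_pl : okB 10000 (tP 5 1 6 10 0 4280 6578 0 0 38288 0 1200)
    0 1580 0 0 40 1200 2110 1010 1590 1500 2500 0 725
    0x763c0fb76060331e0608f06060cf06060bb760198176ec0c09e3c0011e3c003023c0c1813c18182edd8176ec03b020078176ec03b02ec0809e05dbb005cb80023c0bb7600781013c0819eec0572e02b81003c0832e03d8b0200181030c08180 = true := by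
  decide +kernel

theorem cI5_three_1_pm : okB 10000 (tP 5 1 6 10 0 4280 0 1500 0 0 0 1200)
    0 1580 0 0 40 2110 2340 1010 1590 1500 2500 0 725
    0x1e9c04f039d381ce04781010c780836c78182 = true := by
  decide +kernel

theorem cI5_three_1_pr : okB 10000 (tP 5 1 6 10 0 4280 0 8316 29124 0 0 1200)
    0 1580 0 0 40 2340 3000 1010 1590 1500 2500 0 725
    0x363c0e71e06181806c781826d3a7030078f0006d8f030405b1e0c0c19e3c00102 = true := by
  decide +kernel

theorem cI5_three_1_db : okB 10000 (tD 1 5 1 6 10 0 4280 1270 2110 0 13478 64006 0 0 12006 64006 0 0 1200)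
    0 1580 0 0 40 1200 2110 1010 1590 1500 2500 0 725
    0x1bd3834e08f024e3c183de9c027049c1271e0c180de9c16f4e0802706783033c0816fde093834e9c0270608001 = true := by
  decide +kernel

theorem cI5_three_1_da : okB 10000 (tD 0 5 1 6 10 0 4280 1270 0 0 7460 38289 0 1500 0 0 0 0 1200)
    0 1580 0 0 40 2110 2340 1010 1590 1500 2500 0 725
    0x1e0c0eba7049c1817e9c182 = true := by
  decide +kernel

theorem cI5_three_1_ua : okB 10000 (tU 0 5 1 6 10 0 4280 1070 0 9578 0 0 38289 1500 0 0 0 0 1200)
    0 1580 0 0 40 2110 2340 1010 1590 1500 2500 0 725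
    0x1e9c7c1013c083860218103 = true := by
  decide +kernel

theorem cI5_three_1_ub : okB 10000 (tU 1 5 1 6 10 0 4280 1070 2340 9578 0 0 38289 9720 0 0 35132 0 1200)
    0 1580 0 0 40 2340 3000 1010 1590 1500 2500 0 725
    0xd8f006c780013c181836c781826d380363c0019e0c0cf0206d9b030405b1e3c0419e3c08102 = true := by
  decide +kernel

theorem cI5_threeE_pl : okB 10000 (tP 5 1 6 10 0 3890 6373 0 0 46042 0 1200)
    0 1580 0 0 40 1000 1710 1000 1400 1500 2500 0 725
    0x76ec03b03ecb81823c78003edd81f605d8166cc00181cc7819e060bb76ec0007606b8b0307dbb00ec0fb0303dbb035c5818305d9702ec04f030400f1e0078102 = true := by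
  decide +kernel

theorem cI5_threeE_pm : okB 10000 (tP 5 1 6 10 0 3890 0 1500 0 0 0 1200)
    0 1580 0 0 40 1710 1950 1000 1400 1500 2500 0 725
    0x198f03edd81f60404f033c783030208f02 = true := by
  decide +kernel

theorem cI5_threeE_pr : okB 10000 (tP 5 1 6 10 0 3890 0 7803 32322 0 0 1200)
    0 1580 0 0 40 1950 2600 1000 1400 1500 2500 0 725
    0x7b31e04781003d3801e06781013c0cf060678102 = true := by
  decide +kernel

theorem cI5_threeE_db : okB 10000 (tD 1 5 1 6 10 0 3890 1270 1710 0 13369 76249 0 0 11539 76249 0 0 1200)
    0 1580 0 0 40 1000 1710 1000 1400 1500 2500 0 725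
    0x1bf7804e0f7ef009c181dfbc19e4e001823c78f02027819e040b7ef009c1ef4e0c16f4e0cf273c0800205bf7804e0f7a7060b7a707bd3830408080 = true := by
  decide +kernel

theorem cI5_threeE_da : okB 10000 (tD 0 5 1 6 10 0 3890 1270 0 0 7479 46043 0 1500 0 0 0 0 1200)
    0 1580 0 0 40 1710 1950 1000 1400 1500 2500 0 725
    0x6fde0d3833c08f02 = true := by
  decide +kernel

theorem cI5_threeE_ua : okB 10000 (tU 0 5 1 6 10 0 3890 680 0 9373 0 0 46043 1500 0 0 0 0 1200)
    0 1580 0 0 40 1710 1950 1000 1400 1500 2500 0 725
    0x1f3e04f833e0cf82 = true := by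
  decide +kernel

theorem cI5_threeE_ub : okB 10000 (tU 1 5 1 6 10 0 3890 680 1950 9373 0 0 46043 9490 0 0 40977 0 1200)
    0 1580 0 0 40 1950 2600 1000 1400 1500 2500 0 725
    0x1f3e1c1810e0db1e0478002 = true := by
  decide +kernel

end RQ

end Pool.Agent.Work.MP_b30479_gtS.G2

end

section

/-!
# Rings with the ring variable on the ramp: rows `b = 5`, inside, two, twoE, three, threeE
-/

set_option deprecated.oldSectionVars true

namespace Pool.Agent.Work.MP_b30479_gtS.G2

open Real NumIs

namespace RQ

open RC

theorem hL5b : lam 6 10 1 = 6 / 10 := by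
  unfold lam
  norm_num

theorem sI5_two_0 {xs s T ρ : ℝ} (hW : (wTwo (127 / 1000) (194 / 1000) 0 (725 / 10000)).In xs s T ρ)
    (ha : 1860 / 10000 ≤ xs) (he : xs ≤ 2190 / 10000) :
    RampOK (6 / 10) (15 / 100) (75 / 100) 5 xs (1 / 2 - s) T ρ (125 / 1000) (30 / 100) := by
  have hN : Nums (wTwo (127 / 1000) (194 / 1000) 0 (725 / 10000)) ((5 : ℕ) : ℝ) (1860 / 10000) (2190 / 10000) (125 / 1000) (30 / 100)
      5 4130 920 1270 0 1400 620 1480 1500 725 :=
    ⟨by norm_num, le_rfl, by norm_num, by norm_num, by norm_num, by norm_num, by norm_num [wTwo],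
      by norm_num, Or.inr (by norm_num [wTwo]), by norm_num, by norm_num [wTwo],
      by norm_num [wTwo], by norm_num, by norm_num [wTwo], by norm_num [wTwo], by norm_num,
      by norm_num [wTwo], fun h => by norm_num at h, by norm_num [wTwo]⟩
  have hS : ∀ x y, RC.Adm 5 T ρ (125 / 1000) (30 / 100) x y →
      Sd ((5 : ℕ) : ℝ) 5 4130 920 1270 0 1400 620 1480 1500 725 xs s T ρ x y :=
    fun x y hA => Sd.of hN hW ha he (by push_cast; exact hA)
  have ht0 : -(960 / 10000 : ℝ) ≤ T := le_trans (by norm_num [wTwo]) hW.t0
  have ht1 : T ≤ -(100 / 10000 : ℝ) := le_trans hW.t1 (by norm_num [wTwo])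
  have hT : |T| ≤ ((960 : ℕ) : ℝ) / 10000 := by
    rw [abs_le]
    push_cast
    constructor <;> linarith only [ht0, ht1]
  have kc : kC 7500 1860 2190 960 = true := by decide +kernel
  have ud : kU 7500 1250 61571 = true := by decide +kernel
  have ua : kU 7500 1860 42713 = true := by decide +kernel
  have ue : kU 7500 2190 37106 = true := by decide +kernel
  refine ⟨fun x y hA => ?_, fun x y hA hx => ?_, fun x y hA hx => ?_⟩
  · have hx0 := hA.x0
    have hx1 := hA.x1
    rcases le_total x (1860 / 10000) with hc | hc
    · have h := piP cI5_two_0_pl (by norm_num) hL5b (hS x y hA) (Or.inl rfl)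
        (by push_cast; linarith only [hx0]) (by push_cast; linarith only [hc])
      have g0 := gL (be := 7500) (p := 1860) (G := 42712) (x := x) (y := 1860 / 10000)
        (by decide +kernel) (by linarith only [hx0]) hc (by push_cast; exact le_rfl) (by norm_num)
      have gm := gh_mono (x := 1860 / 10000) (y := xs) (by norm_num) ha (by linarith only [he])
      unfold lin at h
      push_cast at h g0
      linarith only [g0, gm, h, neg_abs_le (gh x - gh xs)]
    rcases le_total x (2190 / 10000) with hc2 | hc2
    · have h := piP cI5_two_0_pm (by norm_num) hL5b (hS x y hA) (Or.inl rfl)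
        (by push_cast; linarith only [hc]) (by push_cast; linarith only [hc2])
      unfold lin at h
      push_cast at h
      linarith only [h, abs_nonneg (gh x - gh xs)]
    · have h := piP cI5_two_0_pr (by norm_num) hL5b (hS x y hA) (Or.inl rfl)
        (by push_cast; linarith only [hc2]) (by push_cast; linarith only [hx1])
      have g0 := gL (be := 7500) (p := 3000) (G := 29124) (x := 2190 / 10000) (y := x)
        (by decide +kernel) (by norm_num) hc2 (by push_cast; linarith only [hx1]) (by norm_num)
      have gm := gh_mono (x := xs) (y := 2190 / 10000) (by linarith only [ha]) he (by norm_num)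
      unfold lin at h
      push_cast at h g0
      linarith only [g0, gm, h, le_abs_self (gh x - gh xs)]
  · have hx0 := hA.x0
    have hx1 := hA.x1
    have gm := gh_mono (x := x) (y := xs) (by linarith only [hx0]) hx.le (by linarith only [he, hx, hx0])
    rcases le_total x (1860 / 10000) with hc | hc
    · have h := piD1 cI5_two_0_db (by norm_num) hL5b (hS x y hA) (by norm_num) (by norm_num)
        (by push_cast; linarith only [hx0]) (by push_cast; linarith only [hc]) (by push_cast; exact ha)
      have g1 := gU (x := x) (y := xs) ud (by norm_num) (by push_cast; linarith only [hx0]) hx.le (by linarith only [he, hx, hx0])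
      have g2 := gU (x := x) (y := 1860 / 10000) ud (by norm_num) (by push_cast; linarith only [hx0]) hc
        (by norm_num)
      have g3 := gS (u := 1860 / 10000) (v := xs) kc (by norm_num) (by norm_num)
        (by push_cast; exact le_rfl) ha (by push_cast; exact he) hT
      push_cast at h g1 g2 g3
      exact dn_fin (gz := gh (1860 / 10000)) h gm (by unfold lin; push_cast; linarith only [he, hx, hx0, g1])
        (by unfold lin; push_cast; linarith only [g2]) (by linarith only [g3])
    · have h := piD0 cI5_two_0_da (by norm_num) hL5b (hS x y hA) (by norm_num) (by norm_num)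
        (by push_cast; linarith only [hc]) (by push_cast; linarith only [he, hx]) hx.le
      have g1 := gU (x := x) (y := xs) ua (by norm_num) (by push_cast; linarith only [hc]) hx.le (by linarith only [he, hx, hc])
      have g3 := gS (u := x) (v := xs) kc (by norm_num) (by norm_num)
        (by push_cast; exact hc) hx.le (by push_cast; exact he) hT
      push_cast at h g1 g3
      exact dn_fin (gz := gh x) h gm (by unfold lin; push_cast; linarith only [he, hx, hc, g1])
        (by unfold lin; push_cast; linarith only []) (by linarith only [g3])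
  · have hx0 := hA.x0
    have hx1 := hA.x1
    have gm := gh_mono (x := xs) (y := x) (by linarith only [ha, hx, hx1]) hx.le (by linarith only [ha, hx, hx1])
    have g1 := gU (x := xs) (y := x) ua (by norm_num) (by push_cast; linarith only [ha]) hx.le (by linarith only [ha, hx, hx1])
    rcases le_total x (2190 / 10000) with hc | hc
    · have h := piU0 cI5_two_0_ua (by norm_num) hL5b (hS x y hA) (by norm_num)
        (by push_cast; linarith only [ha, hx]) (by push_cast; linarith only [hc])
      have g3 := gS (u := xs) (v := x) kc (by norm_num) (by norm_num)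
        (by push_cast; exact ha) hx.le (by push_cast; exact hc) hT
      push_cast at h g1 g3
      exact up_fin (gz := gh x) h gm (by unfold lin; push_cast; linarith only [ha, hx, g1, hc])
        (by unfold lin; push_cast; linarith only []) (by linarith only [g3])
    · have h := piU1 cI5_two_0_ub (by norm_num) hL5b (hS x y hA) (by norm_num)
        (by push_cast; linarith only [hc]) (by push_cast; linarith only [hx1])
      have g2 := gU (x := 2190 / 10000) (y := x) ue (by norm_num) (by push_cast; exact le_rfl) hc
        (by linarith only [ha, hx, hx1])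
      have g3 := gS (u := xs) (v := 2190 / 10000) kc (by norm_num) (by norm_num)
        (by push_cast; exact ha) he (by push_cast; exact le_rfl) hT
      push_cast at h g1 g2 g3
      exact up_fin (gz := gh (2190 / 10000)) h gm (by unfold lin; push_cast; linarith only [ha, hx, hx1, g1])
        (by unfold lin; push_cast; linarith only [ha, hx, hx1, g2]) (by linarith only [g3])

theorem sI5_two_1 {xs s T ρ : ℝ} (hW : (wTwo (127 / 1000) (194 / 1000) 0 (725 / 10000)).In xs s T ρ)
    (ha : 2190 / 10000 ≤ xs) (he : xs ≤ 2520 / 10000) :
    RampOK (6 / 10) (15 / 100) (75 / 100) 5 xs (1 / 2 - s) T ρ (125 / 1000) (30 / 100) := by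
  have hN : Nums (wTwo (127 / 1000) (194 / 1000) 0 (725 / 10000)) ((5 : ℕ) : ℝ) (2190 / 10000) (2520 / 10000) (125 / 1000) (30 / 100)
      5 4460 1250 1270 0 1400 620 1480 1500 725 :=
    ⟨by norm_num, le_rfl, by norm_num, by norm_num, by norm_num, by norm_num, by norm_num [wTwo],
      by norm_num, Or.inr (by norm_num [wTwo]), by norm_num, by norm_num [wTwo],
      by norm_num [wTwo], by norm_num, by norm_num [wTwo], by norm_num [wTwo], by norm_num,
      by norm_num [wTwo], fun h => by norm_num at h, by norm_num [wTwo]⟩
  have hS : ∀ x y, RC.Adm 5 T ρ (125 / 1000) (30 / 100) x y →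
      Sd ((5 : ℕ) : ℝ) 5 4460 1250 1270 0 1400 620 1480 1500 725 xs s T ρ x y :=
    fun x y hA => Sd.of hN hW ha he (by push_cast; exact hA)
  have ht0 : -(960 / 10000 : ℝ) ≤ T := le_trans (by norm_num [wTwo]) hW.t0
  have ht1 : T ≤ -(100 / 10000 : ℝ) := le_trans hW.t1 (by norm_num [wTwo])
  have hT : |T| ≤ ((960 : ℕ) : ℝ) / 10000 := by
    rw [abs_le]
    push_cast
    constructor <;> linarith only [ht0, ht1]
  have kc : kC 7500 2190 2520 960 = true := by decide +kernel
  have ud : kU 7500 1250 61571 = true := by decide +kernel
  have ua : kU 7500 2190 37106 = true := by decide +kernel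
  have ue : kU 7500 2520 33115 = true := by decide +kernel
  refine ⟨fun x y hA => ?_, fun x y hA hx => ?_, fun x y hA hx => ?_⟩
  · have hx0 := hA.x0
    have hx1 := hA.x1
    rcases le_total x (2190 / 10000) with hc | hc
    · have h := piP cI5_two_1_pl (by norm_num) hL5b (hS x y hA) (Or.inl rfl)
        (by push_cast; linarith only [hx0]) (by push_cast; linarith only [hc])
      have g0 := gL (be := 7500) (p := 2190) (G := 37105) (x := x) (y := 2190 / 10000)
        (by decide +kernel) (by linarith only [hx0]) hc (by push_cast; exact le_rfl) (by norm_num)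
      have gm := gh_mono (x := 2190 / 10000) (y := xs) (by norm_num) ha (by linarith only [he])
      unfold lin at h
      push_cast at h g0
      linarith only [g0, gm, h, neg_abs_le (gh x - gh xs)]
    rcases le_total x (2520 / 10000) with hc2 | hc2
    · have h := piP cI5_two_1_pm (by norm_num) hL5b (hS x y hA) (Or.inl rfl)
        (by push_cast; linarith only [hc]) (by push_cast; linarith only [hc2])
      unfold lin at h
      push_cast at h
      linarith only [h, abs_nonneg (gh x - gh xs)]
    · have h := piP cI5_two_1_pr (by norm_num) hL5b (hS x y hA) (Or.inl rfl)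
        (by push_cast; linarith only [hc2]) (by push_cast; linarith only [hx1])
      have g0 := gL (be := 7500) (p := 3000) (G := 29124) (x := 2520 / 10000) (y := x)
        (by decide +kernel) (by norm_num) hc2 (by push_cast; linarith only [hx1]) (by norm_num)
      have gm := gh_mono (x := xs) (y := 2520 / 10000) (by linarith only [ha]) he (by norm_num)
      unfold lin at h
      push_cast at h g0
      linarith only [g0, gm, h, le_abs_self (gh x - gh xs)]
  · have hx0 := hA.x0
    have hx1 := hA.x1
    have gm := gh_mono (x := x) (y := xs) (by linarith only [hx0]) hx.le (by linarith only [he, hx, hx0])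
    rcases le_total x (2190 / 10000) with hc | hc
    · have h := piD1 cI5_two_1_db (by norm_num) hL5b (hS x y hA) (by norm_num) (by norm_num)
        (by push_cast; linarith only [hx0]) (by push_cast; linarith only [hc]) (by push_cast; exact ha)
      have g1 := gU (x := x) (y := xs) ud (by norm_num) (by push_cast; linarith only [hx0]) hx.le (by linarith only [he, hx, hx0])
      have g2 := gU (x := x) (y := 2190 / 10000) ud (by norm_num) (by push_cast; linarith only [hx0]) hc
        (by norm_num)
      have g3 := gS (u := 2190 / 10000) (v := xs) kc (by norm_num) (by norm_num)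
        (by push_cast; exact le_rfl) ha (by push_cast; exact he) hT
      push_cast at h g1 g2 g3
      exact dn_fin (gz := gh (2190 / 10000)) h gm (by unfold lin; push_cast; linarith only [he, hx, hx0, g1])
        (by unfold lin; push_cast; linarith only [g2]) (by linarith only [g3])
    · have h := piD0 cI5_two_1_da (by norm_num) hL5b (hS x y hA) (by norm_num) (by norm_num)
        (by push_cast; linarith only [hc]) (by push_cast; linarith only [he, hx]) hx.le
      have g1 := gU (x := x) (y := xs) ua (by norm_num) (by push_cast; linarith only [hc]) hx.le (by linarith only [he, hx, hc])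
      have g3 := gS (u := x) (v := xs) kc (by norm_num) (by norm_num)
        (by push_cast; exact hc) hx.le (by push_cast; exact he) hT
      push_cast at h g1 g3
      exact dn_fin (gz := gh x) h gm (by unfold lin; push_cast; linarith only [he, hx, hc, g1])
        (by unfold lin; push_cast; linarith only []) (by linarith only [g3])
  · have hx0 := hA.x0
    have hx1 := hA.x1
    have gm := gh_mono (x := xs) (y := x) (by linarith only [ha, hx, hx1]) hx.le (by linarith only [ha, hx, hx1])
    have g1 := gU (x := xs) (y := x) ua (by norm_num) (by push_cast; linarith only [ha]) hx.le (by linarith only [ha, hx, hx1])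
    rcases le_total x (2520 / 10000) with hc | hc
    · have h := piU0 cI5_two_1_ua (by norm_num) hL5b (hS x y hA) (by norm_num)
        (by push_cast; linarith only [ha, hx]) (by push_cast; linarith only [hc])
      have g3 := gS (u := xs) (v := x) kc (by norm_num) (by norm_num)
        (by push_cast; exact ha) hx.le (by push_cast; exact hc) hT
      push_cast at h g1 g3
      exact up_fin (gz := gh x) h gm (by unfold lin; push_cast; linarith only [ha, hx, g1, hc])
        (by unfold lin; push_cast; linarith only []) (by linarith only [g3])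
    · have h := piU1 cI5_two_1_ub (by norm_num) hL5b (hS x y hA) (by norm_num)
        (by push_cast; linarith only [hc]) (by push_cast; linarith only [hx1])
      have g2 := gU (x := 2520 / 10000) (y := x) ue (by norm_num) (by push_cast; exact le_rfl) hc
        (by linarith only [ha, hx, hx1])
      have g3 := gS (u := xs) (v := 2520 / 10000) kc (by norm_num) (by norm_num)
        (by push_cast; exact ha) he (by push_cast; exact le_rfl) hT
      push_cast at h g1 g2 g3
      exact up_fin (gz := gh (2520 / 10000)) h gm (by unfold lin; push_cast; linarith only [ha, hx, hx1, g1])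
        (by unfold lin; push_cast; linarith only [ha, hx, hx1, g2]) (by linarith only [g3])

theorem sI5_twoE {xs s T ρ : ℝ} (hW : (wTwoE (127 / 1000) (194 / 1000) 0 (725 / 10000)).In xs s T ρ)
    (ha : 1640 / 10000 ≤ xs) (he : xs ≤ 1860 / 10000) :
    RampOK (6 / 10) (15 / 100) (75 / 100) 5 xs (1 / 2 - s) T ρ (125 / 1000) (30 / 100) := by
  have hN : Nums (wTwoE (127 / 1000) (194 / 1000) 0 (725 / 10000)) ((5 : ℕ) : ℝ) (1640 / 10000) (1860 / 10000) (125 / 1000) (30 / 100)
      5 3740 590 1270 0 1680 270 700 1500 725 :=
    ⟨by norm_num, le_rfl, by norm_num, by norm_num, by norm_num, by norm_num, by norm_num [wTwoE],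
      by norm_num, Or.inl (by norm_num [wTwoE]), by norm_num, by norm_num [wTwoE],
      by norm_num [wTwoE], by norm_num, by norm_num [wTwoE], by norm_num [wTwoE], by norm_num,
      by norm_num [wTwoE], fun h => by norm_num at h, by norm_num [wTwoE]⟩
  have hS : ∀ x y, RC.Adm 5 T ρ (125 / 1000) (30 / 100) x y →
      Sd ((5 : ℕ) : ℝ) 5 3740 590 1270 0 1680 270 700 1500 725 xs s T ρ x y :=
    fun x y hA => Sd.of hN hW ha he (by push_cast; exact hA)
  have ht0 : -(1310 / 10000 : ℝ) ≤ T := le_trans (by norm_num [wTwoE]) hW.t0
  have ht1 : T ≤ -(880 / 10000 : ℝ) := le_trans hW.t1 (by norm_num [wTwoE])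
  have hT : |T| ≤ ((1310 : ℕ) : ℝ) / 10000 := by
    rw [abs_le]
    push_cast
    constructor <;> linarith only [ht0, ht1]
  have kc : kC 7500 1640 1860 1310 = true := by decide +kernel
  have ud : kU 7500 1250 61571 = true := by decide +kernel
  have ua : kU 7500 1640 47820 = true := by decide +kernel
  have ue : kU 7500 1860 42713 = true := by decide +kernel
  refine ⟨fun x y hA => ?_, fun x y hA hx => ?_, fun x y hA hx => ?_⟩
  · have hx0 := hA.x0
    have hx1 := hA.x1
    rcases le_total x (1640 / 10000) with hc | hc
    · have h := piP cI5_twoE_pl (by norm_num) hL5b (hS x y hA) (Or.inl rfl)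
        (by push_cast; linarith only [hx0]) (by push_cast; linarith only [hc])
      have g0 := gL (be := 7500) (p := 1640) (G := 47819) (x := x) (y := 1640 / 10000)
        (by decide +kernel) (by linarith only [hx0]) hc (by push_cast; exact le_rfl) (by norm_num)
      have gm := gh_mono (x := 1640 / 10000) (y := xs) (by norm_num) ha (by linarith only [he])
      unfold lin at h
      push_cast at h g0
      linarith only [g0, gm, h, neg_abs_le (gh x - gh xs)]
    rcases le_total x (1860 / 10000) with hc2 | hc2
    · have h := piP cI5_twoE_pm (by norm_num) hL5b (hS x y hA) (Or.inl rfl)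
        (by push_cast; linarith only [hc]) (by push_cast; linarith only [hc2])
      unfold lin at h
      push_cast at h
      linarith only [h, abs_nonneg (gh x - gh xs)]
    · have h := piP cI5_twoE_pr (by norm_num) hL5b (hS x y hA) (Or.inl rfl)
        (by push_cast; linarith only [hc2]) (by push_cast; linarith only [hx1])
      have g0 := gL (be := 7500) (p := 3000) (G := 29124) (x := 1860 / 10000) (y := x)
        (by decide +kernel) (by norm_num) hc2 (by push_cast; linarith only [hx1]) (by norm_num)
      have gm := gh_mono (x := xs) (y := 1860 / 10000) (by linarith only [ha]) he (by norm_num)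
      unfold lin at h
      push_cast at h g0
      linarith only [g0, gm, h, le_abs_self (gh x - gh xs)]
  · have hx0 := hA.x0
    have hx1 := hA.x1
    have gm := gh_mono (x := x) (y := xs) (by linarith only [hx0]) hx.le (by linarith only [he, hx, hx0])
    rcases le_total x (1640 / 10000) with hc | hc
    · have h := piD1 cI5_twoE_db (by norm_num) hL5b (hS x y hA) (by norm_num) (by norm_num)
        (by push_cast; linarith only [hx0]) (by push_cast; linarith only [hc]) (by push_cast; exact ha)
      have g1 := gU (x := x) (y := xs) ud (by norm_num) (by push_cast; linarith only [hx0]) hx.le (by linarith only [he, hx, hx0])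
      have g2 := gU (x := x) (y := 1640 / 10000) ud (by norm_num) (by push_cast; linarith only [hx0]) hc
        (by norm_num)
      have g3 := gS (u := 1640 / 10000) (v := xs) kc (by norm_num) (by norm_num)
        (by push_cast; exact le_rfl) ha (by push_cast; exact he) hT
      push_cast at h g1 g2 g3
      exact dn_fin (gz := gh (1640 / 10000)) h gm (by unfold lin; push_cast; linarith only [he, hx, hx0, g1])
        (by unfold lin; push_cast; linarith only [g2]) (by linarith only [g3])
    · have h := piD0 cI5_twoE_da (by norm_num) hL5b (hS x y hA) (by norm_num) (by norm_num)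
        (by push_cast; linarith only [hc]) (by push_cast; linarith only [he, hx]) hx.le
      have g1 := gU (x := x) (y := xs) ua (by norm_num) (by push_cast; linarith only [hc]) hx.le (by linarith only [he, hx, hc])
      have g3 := gS (u := x) (v := xs) kc (by norm_num) (by norm_num)
        (by push_cast; exact hc) hx.le (by push_cast; exact he) hT
      push_cast at h g1 g3
      exact dn_fin (gz := gh x) h gm (by unfold lin; push_cast; linarith only [he, hx, hc, g1])
        (by unfold lin; push_cast; linarith only []) (by linarith only [g3])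
  · have hx0 := hA.x0
    have hx1 := hA.x1
    have gm := gh_mono (x := xs) (y := x) (by linarith only [ha, hx, hx1]) hx.le (by linarith only [ha, hx, hx1])
    have g1 := gU (x := xs) (y := x) ua (by norm_num) (by push_cast; linarith only [ha]) hx.le (by linarith only [ha, hx, hx1])
    rcases le_total x (1860 / 10000) with hc | hc
    · have h := piU0 cI5_twoE_ua (by norm_num) hL5b (hS x y hA) (by norm_num)
        (by push_cast; linarith only [ha, hx]) (by push_cast; linarith only [hc])
      have g3 := gS (u := xs) (v := x) kc (by norm_num) (by norm_num)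
        (by push_cast; exact ha) hx.le (by push_cast; exact hc) hT
      push_cast at h g1 g3
      exact up_fin (gz := gh x) h gm (by unfold lin; push_cast; linarith only [ha, hx, g1, hc])
        (by unfold lin; push_cast; linarith only []) (by linarith only [g3])
    · have h := piU1 cI5_twoE_ub (by norm_num) hL5b (hS x y hA) (by norm_num)
        (by push_cast; linarith only [hc]) (by push_cast; linarith only [hx1])
      have g2 := gU (x := 1860 / 10000) (y := x) ue (by norm_num) (by push_cast; exact le_rfl) hc
        (by linarith only [ha, hx, hx1])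
      have g3 := gS (u := xs) (v := 1860 / 10000) kc (by norm_num) (by norm_num)
        (by push_cast; exact ha) he (by push_cast; exact le_rfl) hT
      push_cast at h g1 g2 g3
      exact up_fin (gz := gh (1860 / 10000)) h gm (by unfold lin; push_cast; linarith only [ha, hx, hx1, g1])
        (by unfold lin; push_cast; linarith only [ha, hx, hx1, g2]) (by linarith only [g3])

theorem sI5_three_0 {xs s T ρ : ℝ} (hW : (wThree (127 / 1000) (194 / 1000) 0 (725 / 10000)).In xs s T ρ)
    (ha : 1880 / 10000 ≤ xs) (he : xs ≤ 2110 / 10000) :
    RampOK (6 / 10) (15 / 100) (75 / 100) 5 xs (1 / 2 - s) T ρ (12 / 100) (30 / 100) := by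
  have hN : Nums (wThree (127 / 1000) (194 / 1000) 0 (725 / 10000)) ((5 : ℕ) : ℝ) (1880 / 10000) (2110 / 10000) (12 / 100) (30 / 100)
      5 4050 840 1270 0 1200 1010 1590 1500 725 :=
    ⟨by norm_num, le_rfl, by norm_num, by norm_num, by norm_num, by norm_num, by norm_num [wThree],
      by norm_num, Or.inr (by norm_num [wThree]), by norm_num, by norm_num [wThree],
      by norm_num [wThree], by norm_num, by norm_num [wThree], by norm_num [wThree], by norm_num,
      by norm_num [wThree], fun h => by norm_num at h, by norm_num [wThree]⟩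
  have hS : ∀ x y, RC.Adm 5 T ρ (12 / 100) (30 / 100) x y →
      Sd ((5 : ℕ) : ℝ) 5 4050 840 1270 0 1200 1010 1590 1500 725 xs s T ρ x y :=
    fun x y hA => Sd.of hN hW ha he (by push_cast; exact hA)
  have ht0 : -(570 / 10000 : ℝ) ≤ T := le_trans (by norm_num [wThree]) hW.t0
  have ht1 : T ≤ (10 / 10000 : ℝ) := le_trans hW.t1 (by norm_num [wThree])
  have hT : |T| ≤ ((570 : ℕ) : ℝ) / 10000 := by
    rw [abs_le]
    push_cast
    constructor <;> linarith only [ht0, ht1]
  have kc : kC 7500 1880 2110 570 = true := by decide +kernel
  have ud : kU 7500 1200 64006 = true := by decide +kernel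
  have ua : kU 7500 1880 42311 = true := by decide +kernel
  have ue : kU 7500 2110 38289 = true := by decide +kernel
  refine ⟨fun x y hA => ?_, fun x y hA hx => ?_, fun x y hA hx => ?_⟩
  · have hx0 := hA.x0
    have hx1 := hA.x1
    rcases le_total x (1880 / 10000) with hc | hc
    · have h := piP cI5_three_0_pl (by norm_num) hL5b (hS x y hA) (Or.inl rfl)
        (by push_cast; linarith only [hx0]) (by push_cast; linarith only [hc])
      have g0 := gL (be := 7500) (p := 1880) (G := 42310) (x := x) (y := 1880 / 10000)
        (by decide +kernel) (by linarith only [hx0]) hc (by push_cast; exact le_rfl) (by norm_num)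
      have gm := gh_mono (x := 1880 / 10000) (y := xs) (by norm_num) ha (by linarith only [he])
      unfold lin at h
      push_cast at h g0
      linarith only [g0, gm, h, neg_abs_le (gh x - gh xs)]
    rcases le_total x (2110 / 10000) with hc2 | hc2
    · have h := piP cI5_three_0_pm (by norm_num) hL5b (hS x y hA) (Or.inl rfl)
        (by push_cast; linarith only [hc]) (by push_cast; linarith only [hc2])
      unfold lin at h
      push_cast at h
      linarith only [h, abs_nonneg (gh x - gh xs)]
    · have h := piP cI5_three_0_pr (by norm_num) hL5b (hS x y hA) (Or.inl rfl)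
        (by push_cast; linarith only [hc2]) (by push_cast; linarith only [hx1])
      have g0 := gL (be := 7500) (p := 3000) (G := 29124) (x := 2110 / 10000) (y := x)
        (by decide +kernel) (by norm_num) hc2 (by push_cast; linarith only [hx1]) (by norm_num)
      have gm := gh_mono (x := xs) (y := 2110 / 10000) (by linarith only [ha]) he (by norm_num)
      unfold lin at h
      push_cast at h g0
      linarith only [g0, gm, h, le_abs_self (gh x - gh xs)]
  · have hx0 := hA.x0
    have hx1 := hA.x1
    have gm := gh_mono (x := x) (y := xs) (by linarith only [hx0]) hx.le (by linarith only [he, hx, hx0])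
    rcases le_total x (1880 / 10000) with hc | hc
    · have h := piD1 cI5_three_0_db (by norm_num) hL5b (hS x y hA) (by norm_num) (by norm_num)
        (by push_cast; linarith only [hx0]) (by push_cast; linarith only [hc]) (by push_cast; exact ha)
      have g1 := gU (x := x) (y := xs) ud (by norm_num) (by push_cast; linarith only [hx0]) hx.le (by linarith only [he, hx, hx0])
      have g2 := gU (x := x) (y := 1880 / 10000) ud (by norm_num) (by push_cast; linarith only [hx0]) hc
        (by norm_num)
      have g3 := gS (u := 1880 / 10000) (v := xs) kc (by norm_num) (by norm_num)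
        (by push_cast; exact le_rfl) ha (by push_cast; exact he) hT
      push_cast at h g1 g2 g3
      exact dn_fin (gz := gh (1880 / 10000)) h gm (by unfold lin; push_cast; linarith only [he, hx, hx0, g1])
        (by unfold lin; push_cast; linarith only [g2]) (by linarith only [g3])
    · have h := piD0 cI5_three_0_da (by norm_num) hL5b (hS x y hA) (by norm_num) (by norm_num)
        (by push_cast; linarith only [hc]) (by push_cast; linarith only [he, hx]) hx.le
      have g1 := gU (x := x) (y := xs) ua (by norm_num) (by push_cast; linarith only [hc]) hx.le (by linarith only [he, hx, hc])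
      have g3 := gS (u := x) (v := xs) kc (by norm_num) (by norm_num)
        (by push_cast; exact hc) hx.le (by push_cast; exact he) hT
      push_cast at h g1 g3
      exact dn_fin (gz := gh x) h gm (by unfold lin; push_cast; linarith only [he, hx, hc, g1])
        (by unfold lin; push_cast; linarith only []) (by linarith only [g3])
  · have hx0 := hA.x0
    have hx1 := hA.x1
    have gm := gh_mono (x := xs) (y := x) (by linarith only [ha, hx, hx1]) hx.le (by linarith only [ha, hx, hx1])
    have g1 := gU (x := xs) (y := x) ua (by norm_num) (by push_cast; linarith only [ha]) hx.le (by linarith only [ha, hx, hx1])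
    rcases le_total x (2110 / 10000) with hc | hc
    · have h := piU0 cI5_three_0_ua (by norm_num) hL5b (hS x y hA) (by norm_num)
        (by push_cast; linarith only [ha, hx]) (by push_cast; linarith only [hc])
      have g3 := gS (u := xs) (v := x) kc (by norm_num) (by norm_num)
        (by push_cast; exact ha) hx.le (by push_cast; exact hc) hT
      push_cast at h g1 g3
      exact up_fin (gz := gh x) h gm (by unfold lin; push_cast; linarith only [ha, hx, g1, hc])
        (by unfold lin; push_cast; linarith only []) (by linarith only [g3])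
    · have h := piU1 cI5_three_0_ub (by norm_num) hL5b (hS x y hA) (by norm_num)
        (by push_cast; linarith only [hc]) (by push_cast; linarith only [hx1])
      have g2 := gU (x := 2110 / 10000) (y := x) ue (by norm_num) (by push_cast; exact le_rfl) hc
        (by linarith only [ha, hx, hx1])
      have g3 := gS (u := xs) (v := 2110 / 10000) kc (by norm_num) (by norm_num)
        (by push_cast; exact ha) he (by push_cast; exact le_rfl) hT
      push_cast at h g1 g2 g3
      exact up_fin (gz := gh (2110 / 10000)) h gm (by unfold lin; push_cast; linarith only [ha, hx, hx1, g1])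
        (by unfold lin; push_cast; linarith only [ha, hx, hx1, g2]) (by linarith only [g3])

theorem sI5_three_1 {xs s T ρ : ℝ} (hW : (wThree (127 / 1000) (194 / 1000) 0 (725 / 10000)).In xs s T ρ)
    (ha : 2110 / 10000 ≤ xs) (he : xs ≤ 2340 / 10000) :
    RampOK (6 / 10) (15 / 100) (75 / 100) 5 xs (1 / 2 - s) T ρ (12 / 100) (30 / 100) := by
  have hN : Nums (wThree (127 / 1000) (194 / 1000) 0 (725 / 10000)) ((5 : ℕ) : ℝ) (2110 / 10000) (2340 / 10000) (12 / 100) (30 / 100)
      5 4280 1070 1270 0 1200 1010 1590 1500 725 :=
    ⟨by norm_num, le_rfl, by norm_num, by norm_num, by norm_num, by norm_num, by norm_num [wThree],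
      by norm_num, Or.inr (by norm_num [wThree]), by norm_num, by norm_num [wThree],
      by norm_num [wThree], by norm_num, by norm_num [wThree], by norm_num [wThree], by norm_num,
      by norm_num [wThree], fun h => by norm_num at h, by norm_num [wThree]⟩
  have hS : ∀ x y, RC.Adm 5 T ρ (12 / 100) (30 / 100) x y →
      Sd ((5 : ℕ) : ℝ) 5 4280 1070 1270 0 1200 1010 1590 1500 725 xs s T ρ x y :=
    fun x y hA => Sd.of hN hW ha he (by push_cast; exact hA)
  have ht0 : -(570 / 10000 : ℝ) ≤ T := le_trans (by norm_num [wThree]) hW.t0
  have ht1 : T ≤ (10 / 10000 : ℝ) := le_trans hW.t1 (by norm_num [wThree])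
  have hT : |T| ≤ ((570 : ℕ) : ℝ) / 10000 := by
    rw [abs_le]
    push_cast
    constructor <;> linarith only [ht0, ht1]
  have kc : kC 7500 2110 2340 570 = true := by decide +kernel
  have ud : kU 7500 1200 64006 = true := by decide +kernel
  have ua : kU 7500 2110 38289 = true := by decide +kernel
  have ue : kU 7500 2340 35132 = true := by decide +kernel
  refine ⟨fun x y hA => ?_, fun x y hA hx => ?_, fun x y hA hx => ?_⟩
  · have hx0 := hA.x0
    have hx1 := hA.x1
    rcases le_total x (2110 / 10000) with hc | hc
    · have h := piP cI5_three_1_pl (by norm_num) hL5b (hS x y hA) (Or.inl rfl)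
        (by push_cast; linarith only [hx0]) (by push_cast; linarith only [hc])
      have g0 := gL (be := 7500) (p := 2110) (G := 38288) (x := x) (y := 2110 / 10000)
        (by decide +kernel) (by linarith only [hx0]) hc (by push_cast; exact le_rfl) (by norm_num)
      have gm := gh_mono (x := 2110 / 10000) (y := xs) (by norm_num) ha (by linarith only [he])
      unfold lin at h
      push_cast at h g0
      linarith only [g0, gm, h, neg_abs_le (gh x - gh xs)]
    rcases le_total x (2340 / 10000) with hc2 | hc2
    · have h := piP cI5_three_1_pm (by norm_num) hL5b (hS x y hA) (Or.inl rfl)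
        (by push_cast; linarith only [hc]) (by push_cast; linarith only [hc2])
      unfold lin at h
      push_cast at h
      linarith only [h, abs_nonneg (gh x - gh xs)]
    · have h := piP cI5_three_1_pr (by norm_num) hL5b (hS x y hA) (Or.inl rfl)
        (by push_cast; linarith only [hc2]) (by push_cast; linarith only [hx1])
      have g0 := gL (be := 7500) (p := 3000) (G := 29124) (x := 2340 / 10000) (y := x)
        (by decide +kernel) (by norm_num) hc2 (by push_cast; linarith only [hx1]) (by norm_num)
      have gm := gh_mono (x := xs) (y := 2340 / 10000) (by linarith only [ha]) he (by norm_num)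
      unfold lin at h
      push_cast at h g0
      linarith only [g0, gm, h, le_abs_self (gh x - gh xs)]
  · have hx0 := hA.x0
    have hx1 := hA.x1
    have gm := gh_mono (x := x) (y := xs) (by linarith only [hx0]) hx.le (by linarith only [he, hx, hx0])
    rcases le_total x (2110 / 10000) with hc | hc
    · have h := piD1 cI5_three_1_db (by norm_num) hL5b (hS x y hA) (by norm_num) (by norm_num)
        (by push_cast; linarith only [hx0]) (by push_cast; linarith only [hc]) (by push_cast; exact ha)
      have g1 := gU (x := x) (y := xs) ud (by norm_num) (by push_cast; linarith only [hx0]) hx.le (by linarith only [he, hx, hx0])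
      have g2 := gU (x := x) (y := 2110 / 10000) ud (by norm_num) (by push_cast; linarith only [hx0]) hc
        (by norm_num)
      have g3 := gS (u := 2110 / 10000) (v := xs) kc (by norm_num) (by norm_num)
        (by push_cast; exact le_rfl) ha (by push_cast; exact he) hT
      push_cast at h g1 g2 g3
      exact dn_fin (gz := gh (2110 / 10000)) h gm (by unfold lin; push_cast; linarith only [he, hx, hx0, g1])
        (by unfold lin; push_cast; linarith only [g2]) (by linarith only [g3])
    · have h := piD0 cI5_three_1_da (by norm_num) hL5b (hS x y hA) (by norm_num) (by norm_num)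
        (by push_cast; linarith only [hc]) (by push_cast; linarith only [he, hx]) hx.le
      have g1 := gU (x := x) (y := xs) ua (by norm_num) (by push_cast; linarith only [hc]) hx.le (by linarith only [he, hx, hc])
      have g3 := gS (u := x) (v := xs) kc (by norm_num) (by norm_num)
        (by push_cast; exact hc) hx.le (by push_cast; exact he) hT
      push_cast at h g1 g3
      exact dn_fin (gz := gh x) h gm (by unfold lin; push_cast; linarith only [he, hx, hc, g1])
        (by unfold lin; push_cast; linarith only []) (by linarith only [g3])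
  · have hx0 := hA.x0
    have hx1 := hA.x1
    have gm := gh_mono (x := xs) (y := x) (by linarith only [ha, hx, hx1]) hx.le (by linarith only [ha, hx, hx1])
    have g1 := gU (x := xs) (y := x) ua (by norm_num) (by push_cast; linarith only [ha]) hx.le (by linarith only [ha, hx, hx1])
    rcases le_total x (2340 / 10000) with hc | hc
    · have h := piU0 cI5_three_1_ua (by norm_num) hL5b (hS x y hA) (by norm_num)
        (by push_cast; linarith only [ha, hx]) (by push_cast; linarith only [hc])
      have g3 := gS (u := xs) (v := x) kc (by norm_num) (by norm_num)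
        (by push_cast; exact ha) hx.le (by push_cast; exact hc) hT
      push_cast at h g1 g3
      exact up_fin (gz := gh x) h gm (by unfold lin; push_cast; linarith only [ha, hx, g1, hc])
        (by unfold lin; push_cast; linarith only []) (by linarith only [g3])
    · have h := piU1 cI5_three_1_ub (by norm_num) hL5b (hS x y hA) (by norm_num)
        (by push_cast; linarith only [hc]) (by push_cast; linarith only [hx1])
      have g2 := gU (x := 2340 / 10000) (y := x) ue (by norm_num) (by push_cast; exact le_rfl) hc
        (by linarith only [ha, hx, hx1])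
      have g3 := gS (u := xs) (v := 2340 / 10000) kc (by norm_num) (by norm_num)
        (by push_cast; exact ha) he (by push_cast; exact le_rfl) hT
      push_cast at h g1 g2 g3
      exact up_fin (gz := gh (2340 / 10000)) h gm (by unfold lin; push_cast; linarith only [ha, hx, hx1, g1])
        (by unfold lin; push_cast; linarith only [ha, hx, hx1, g2]) (by linarith only [g3])

theorem sI5_threeE {xs s T ρ : ℝ} (hW : (wThreeE (127 / 1000) (194 / 1000) 0 (725 / 10000)).In xs s T ρ)
    (ha : 1710 / 10000 ≤ xs) (he : xs ≤ 1950 / 10000) :
    RampOK (6 / 10) (15 / 100) (75 / 100) 5 xs (1 / 2 - s) T ρ (10 / 100) (26 / 100) := by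
  have hN : Nums (wThreeE (127 / 1000) (194 / 1000) 0 (725 / 10000)) ((5 : ℕ) : ℝ) (1710 / 10000) (1950 / 10000) (10 / 100) (26 / 100)
      5 3890 680 1270 0 1200 1000 1400 1500 725 :=
    ⟨by norm_num, le_rfl, by norm_num, by norm_num, by norm_num, by norm_num,
      by norm_num [wThreeE], by norm_num, Or.inr (by norm_num [wThreeE]), by norm_num,
      by norm_num [wThreeE], by norm_num [wThreeE], by norm_num, by norm_num [wThreeE],
      by norm_num [wThreeE], by norm_num, by norm_num [wThreeE], fun h => by norm_num at h,
      by norm_num [wThreeE]⟩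
  have hS : ∀ x y, RC.Adm 5 T ρ (10 / 100) (26 / 100) x y →
      Sd ((5 : ℕ) : ℝ) 5 3890 680 1270 0 1200 1000 1400 1500 725 xs s T ρ x y :=
    fun x y hA => Sd.of hN hW ha he (by push_cast; exact hA)
  have ht0 : -(580 / 10000 : ℝ) ≤ T := le_trans (by norm_num [wThreeE]) hW.t0
  have ht1 : T ≤ -(180 / 10000 : ℝ) := le_trans hW.t1 (by norm_num [wThreeE])
  have hT : |T| ≤ ((580 : ℕ) : ℝ) / 10000 := by
    rw [abs_le]
    push_cast
    constructor <;> linarith only [ht0, ht1]
  have kc : kC 7500 1710 1950 580 = true := by decide +kernel
  have ud : kU 7500 1000 76249 = true := by decide +kernel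
  have ua : kU 7500 1710 46043 = true := by decide +kernel
  have ue : kU 7500 1950 40977 = true := by decide +kernel
  refine ⟨fun x y hA => ?_, fun x y hA hx => ?_, fun x y hA hx => ?_⟩
  · have hx0 := hA.x0
    have hx1 := hA.x1
    rcases le_total x (1710 / 10000) with hc | hc
    · have h := piP cI5_threeE_pl (by norm_num) hL5b (hS x y hA) (Or.inl rfl)
        (by push_cast; linarith only [hx0]) (by push_cast; linarith only [hc])
      have g0 := gL (be := 7500) (p := 1710) (G := 46042) (x := x) (y := 1710 / 10000)
        (by decide +kernel) (by linarith only [hx0]) hc (by push_cast; exact le_rfl) (by norm_num)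
      have gm := gh_mono (x := 1710 / 10000) (y := xs) (by norm_num) ha (by linarith only [he])
      unfold lin at h
      push_cast at h g0
      linarith only [g0, gm, h, neg_abs_le (gh x - gh xs)]
    rcases le_total x (1950 / 10000) with hc2 | hc2
    · have h := piP cI5_threeE_pm (by norm_num) hL5b (hS x y hA) (Or.inl rfl)
        (by push_cast; linarith only [hc]) (by push_cast; linarith only [hc2])
      unfold lin at h
      push_cast at h
      linarith only [h, abs_nonneg (gh x - gh xs)]
    · have h := piP cI5_threeE_pr (by norm_num) hL5b (hS x y hA) (Or.inl rfl)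
        (by push_cast; linarith only [hc2]) (by push_cast; linarith only [hx1])
      have g0 := gL (be := 7500) (p := 2600) (G := 32322) (x := 1950 / 10000) (y := x)
        (by decide +kernel) (by norm_num) hc2 (by push_cast; linarith only [hx1]) (by norm_num)
      have gm := gh_mono (x := xs) (y := 1950 / 10000) (by linarith only [ha]) he (by norm_num)
      unfold lin at h
      push_cast at h g0
      linarith only [g0, gm, h, le_abs_self (gh x - gh xs)]
  · have hx0 := hA.x0
    have hx1 := hA.x1
    have gm := gh_mono (x := x) (y := xs) (by linarith only [hx0]) hx.le (by linarith only [he, hx, hx0])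
    rcases le_total x (1710 / 10000) with hc | hc
    · have h := piD1 cI5_threeE_db (by norm_num) hL5b (hS x y hA) (by norm_num) (by norm_num)
        (by push_cast; linarith only [hx0]) (by push_cast; linarith only [hc]) (by push_cast; exact ha)
      have g1 := gU (x := x) (y := xs) ud (by norm_num) (by push_cast; linarith only [hx0]) hx.le (by linarith only [he, hx, hx0])
      have g2 := gU (x := x) (y := 1710 / 10000) ud (by norm_num) (by push_cast; linarith only [hx0]) hc
        (by norm_num)
      have g3 := gS (u := 1710 / 10000) (v := xs) kc (by norm_num) (by norm_num)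
        (by push_cast; exact le_rfl) ha (by push_cast; exact he) hT
      push_cast at h g1 g2 g3
      exact dn_fin (gz := gh (1710 / 10000)) h gm (by unfold lin; push_cast; linarith only [he, hx, hx0, g1])
        (by unfold lin; push_cast; linarith only [g2]) (by linarith only [g3])
    · have h := piD0 cI5_threeE_da (by norm_num) hL5b (hS x y hA) (by norm_num) (by norm_num)
        (by push_cast; linarith only [hc]) (by push_cast; linarith only [he, hx]) hx.le
      have g1 := gU (x := x) (y := xs) ua (by norm_num) (by push_cast; linarith only [hc]) hx.le (by linarith only [he, hx, hc])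
      have g3 := gS (u := x) (v := xs) kc (by norm_num) (by norm_num)
        (by push_cast; exact hc) hx.le (by push_cast; exact he) hT
      push_cast at h g1 g3
      exact dn_fin (gz := gh x) h gm (by unfold lin; push_cast; linarith only [he, hx, hc, g1])
        (by unfold lin; push_cast; linarith only []) (by linarith only [g3])
  · have hx0 := hA.x0
    have hx1 := hA.x1
    have gm := gh_mono (x := xs) (y := x) (by linarith only [ha, hx, hx1]) hx.le (by linarith only [ha, hx, hx1])
    have g1 := gU (x := xs) (y := x) ua (by norm_num) (by push_cast; linarith only [ha]) hx.le (by linarith only [ha, hx, hx1])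
    rcases le_total x (1950 / 10000) with hc | hc
    · have h := piU0 cI5_threeE_ua (by norm_num) hL5b (hS x y hA) (by norm_num)
        (by push_cast; linarith only [ha, hx]) (by push_cast; linarith only [hc])
      have g3 := gS (u := xs) (v := x) kc (by norm_num) (by norm_num)
        (by push_cast; exact ha) hx.le (by push_cast; exact hc) hT
      push_cast at h g1 g3
      exact up_fin (gz := gh x) h gm (by unfold lin; push_cast; linarith only [ha, hx, g1, hc])
        (by unfold lin; push_cast; linarith only []) (by linarith only [g3])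
    · have h := piU1 cI5_threeE_ub (by norm_num) hL5b (hS x y hA) (by norm_num)
        (by push_cast; linarith only [hc]) (by push_cast; linarith only [hx1])
      have g2 := gU (x := 1950 / 10000) (y := x) ue (by norm_num) (by push_cast; exact le_rfl) hc
        (by linarith only [ha, hx, hx1])
      have g3 := gS (u := xs) (v := 1950 / 10000) kc (by norm_num) (by norm_num)
        (by push_cast; exact ha) he (by push_cast; exact le_rfl) hT
      push_cast at h g1 g2 g3
      exact up_fin (gz := gh (1950 / 10000)) h gm (by unfold lin; push_cast; linarith only [ha, hx, hx1, g1])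
        (by unfold lin; push_cast; linarith only [ha, hx, hx1, g2]) (by linarith only [g3])

end RQ

namespace RC

open RQ

theorem I5_two : RowI (wTwo (127 / 1000) (194 / 1000) 0 (725 / 10000)) 5 (6 / 10) (15 / 100) (75 / 100) (125 / 1000) (30 / 100) := by
  intro xs s T ρ hW
  have h0 : (1860 / 10000 : ℝ) ≤ xs := le_trans (by norm_num [wTwo]) hW.x0
  have h1 : xs ≤ (2520 / 10000 : ℝ) := le_trans hW.x1 (by norm_num [wTwo])
  rcases le_total xs (2190 / 10000) with k0 | k0
  · exact RQ.sI5_two_0 hW h0 k0
  exact RQ.sI5_two_1 hW k0 h1

theorem I5_twoE : RowI (wTwoE (127 / 1000) (194 / 1000) 0 (725 / 10000)) 5 (6 / 10) (15 / 100) (75 / 100) (125 / 1000) (30 / 100) := by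
  intro xs s T ρ hW
  have h0 : (1640 / 10000 : ℝ) ≤ xs := le_trans (by norm_num [wTwoE]) hW.x0
  have h1 : xs ≤ (1860 / 10000 : ℝ) := le_trans hW.x1 (by norm_num [wTwoE])
  exact RQ.sI5_twoE hW h0 h1

theorem I5_three : RowI (wThree (127 / 1000) (194 / 1000) 0 (725 / 10000)) 5 (6 / 10) (15 / 100) (75 / 100) (12 / 100) (30 / 100) := by
  intro xs s T ρ hW
  have h0 : (1880 / 10000 : ℝ) ≤ xs := le_trans (by norm_num [wThree]) hW.x0
  have h1 : xs ≤ (2340 / 10000 : ℝ) := le_trans hW.x1 (by norm_num [wThree])
  rcases le_total xs (2110 / 10000) with k0 | k0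
  · exact RQ.sI5_three_0 hW h0 k0
  exact RQ.sI5_three_1 hW k0 h1

theorem I5_threeE : RowI (wThreeE (127 / 1000) (194 / 1000) 0 (725 / 10000)) 5 (6 / 10) (15 / 100) (75 / 100) (10 / 100) (26 / 100) := by
  intro xs s T ρ hW
  have h0 : (1710 / 10000 : ℝ) ≤ xs := le_trans (by norm_num [wThreeE]) hW.x0
  have h1 : xs ≤ (1950 / 10000 : ℝ) := le_trans hW.x1 (by norm_num [wThreeE])
  exact RQ.sI5_threeE hW h0 h1

end RC

end Pool.Agent.Work.MP_b30479_gtS.G2

end
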