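import Pool.Agent.Work.MP_b30479_gt.TBS.G2.RRT

section

/-!
# Rings with the ring variable on the ramp: certificates, I5_rr
-/

set_option deprecated.oldSectionVars true

namespace Pool.Agent.Work.MP_b30479_gtS.G2

open NumIs

namespace RQ

theorem cI5_rr_0_pl0 : okB 10000 (tP 5 1 6 10 0 3900 9198 0 0 64005 0 1200)
    0 1580 0 0 40 1000 1200 1195 1965 1500 2500 0 725
    0x765c0bb03ec0fb2e07d81760607b760398182cc1811e0c0c082 = true := by
  decide +kernel

theorem cI5_rr_0_pl1 : okB 10000 (tP 5 1 6 10 0 3900 8158 0 0 55338 0 1200)
    0 1580 0 0 40 1200 1400 1195 1965 1500 2500 0 725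
    0x1dbb03ec0fb7603d8181ec581f6ec0c082cc780e6060831e0218182 = true := by
  decide +kernel

theorem cI5_rr_0_pl2 : okB 10000 (tP 5 1 6 10 0 3900 6891 0 0 46286 0 1200)
    0 1580 0 0 40 1400 1700 1195 1965 1500 2500 0 725
    0x1dbb003c08f02edd80760478101cc78086059b3013c08083cc780860418300060c31e0218182 = true := by
  decide +kernel

theorem cI5_rr_0_pl3 : okB 10000 (tP 5 1 6 10 0 3900 6424 0 0 43542 0 1200)
    0 1580 0 0 40 1700 1820 1195 1965 1500 2500 0 725
    0x660c08f1e06043030c0bb76039819e047811e0c0c181 = true := by
  decide +kernel

theorem cI5_rr_0_pm : okB 10000 (tP 5 1 6 10 0 3900 0 1500 0 0 0 1200)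
    0 1580 0 0 40 1820 1960 1195 1965 1500 2500 0 725
    0x783033c043030c08f76027819e047811e0c0c181 = true := by
  decide +kernel

theorem cI5_rr_0_pr : okB 10000 (tP 5 1 6 10 0 3900 0 7657 31411 0 0 1200)
    0 1580 0 0 40 1960 2700 1195 1965 1500 2500 0 725
    0x1e0c0cf1e9c781810004306020cf063c04006060830600780860678102 = true := by
  decide +kernel

theorem cI5_rr_0_db : okB 10000 (tD 1 5 1 6 10 0 3900 1270 1820 0 13445 76249 0 0 12378 76249 0 0 1200)
    0 1580 0 0 40 1000 1820 1195 1965 1500 2500 0 725
    0x7b301de9c1803c0b30605bf302000c36f0018103dfbc16f07bd382de0c0a74e03783de0c000de7816fde0806fde01382069c78307bd383de03783dfbc06f06080010c7809e02181e6cc00f010c0f7ef06013ef029c78306040060c780810dbc0063c0411e4e000863c043030600102 = true := by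
  decide +kernel

theorem cI5_rr_0_da : okB 10000 (tD 0 5 1 6 10 0 3900 1270 0 0 7035 43543 0 1500 0 0 0 0 1200)
    0 1580 0 0 40 1820 1960 1195 1965 1500 2500 0 725
    0x1e0c0cf1e02043030c18102 = true := by
  decide +kernel

theorem cI5_rr_0_ua : okB 10000 (tU 0 5 1 6 10 0 3900 690 0 9424 0 0 43543 1500 0 0 0 0 1200)
    0 1580 0 0 40 1820 1960 1195 1965 1500 2500 0 725
    0x1f3e0439f020c3030e1c082 = true := by
  decide +kernel

theorem cI5_rr_0_ub : okB 10000 (tU 1 5 1 6 10 0 3900 690 1960 9424 0 0 43543 9495 0 0 40795 0 1200)
    0 1580 0 0 40 1960 2700 1195 1965 1500 2500 0 725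
    0x1c3800e0cf9f021c1810e780860678102 = true := by
  decide +kernel

theorem cI5_rr_1_pl0 : okB 10000 (tP 5 1 6 10 0 4040 9736 0 0 64005 0 1200)
    0 1580 0 0 40 1000 1200 1195 1965 1500 2500 0 725
    0x1dbb00ec07b02ec08306000bb76067811e0407b2e03d81e60418103 = true := by
  decide +kernel

theorem cI5_rr_1_pl1 : okB 10000 (tP 5 1 6 10 0 4040 8696 0 0 55338 0 1200)
    0 1580 0 0 40 1200 1400 1195 1965 1500 2500 0 725
    0x1dbb03ec0fb16060bb7603d81f6ec0c101cc780e6060831e0218182 = true := by
  decide +kernel

theorem cI5_rr_1_pl2 : okB 10000 (tP 5 1 6 10 0 4040 7429 0 0 46286 0 1200)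
    0 1580 0 0 40 1400 1700 1195 1965 1500 2500 0 725
    0x1dbb003c0b31e020f306040fb7601d8166ec0419e0c0c1813c181860678303020831e0218182 = true := by
  decide +kernel

theorem cI5_rr_1_pl3 : okB 10000 (tP 5 1 6 10 0 4040 6495 0 0 40794 0 1200)
    0 1580 0 0 40 1700 1960 1195 1965 1500 2500 0 725
    0x1ecc181033c7801e060731e07db30302781010c78086060c31e0c0c082 = true := by
  decide +kernel

theorem cI5_rr_1_pm : okB 10000 (tP 5 1 6 10 0 4040 0 1500 0 0 0 1200)
    0 1580 0 0 40 1960 2100 1195 1965 1500 2500 0 725
    0x783030c083023dd809e067811e040431e0218183 = true := by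
  decide +kernel

theorem cI5_rr_1_pr : okB 10000 (tP 5 1 6 10 0 4040 0 8097 31411 0 0 1200)
    0 1580 0 0 40 2100 2700 1195 1965 1500 2500 0 725
    0x1e0c0c3033c183030008f4e3c0c08606783030404f060678102 = true := by
  decide +kernel

theorem cI5_rr_1_db : okB 10000 (tD 1 5 1 6 10 0 4040 1270 1960 0 14513 76249 0 0 13445 76249 0 0 1200)
    0 1580 0 0 40 1000 1960 1195 1965 1500 2500 0 725
    0x79380de9c0014e0b30605bf302009c0830dbc0060c08103dfbc0274e0019e4fbc080049c783060431e0c0809e3c000860c001824fbc1efcc08302049d3824e7810203bf7824e7810203bc7824e0478f020c1a7de0f783de3c1ef0c0b7801e0c102de9c1274e081a71e3c0030604000 = true := by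
  decide +kernel

theorem cI5_rr_1_da : okB 10000 (tD 0 5 1 6 10 0 4040 1270 0 0 7067 40795 0 1500 0 0 0 0 1200)
    0 1580 0 0 40 1960 2100 1195 1965 1500 2500 0 725
    0x783030c0c3023c793820218181 = true := by
  decide +kernel

theorem cI5_rr_1_ua : okB 10000 (tU 0 5 1 6 10 0 4040 830 0 9495 0 0 40795 1500 0 0 0 0 1200)
    0 1580 0 0 40 1960 2100 1195 1965 1500 2500 0 725
    0x70e04f010e1c0820e1c083 = true := by
  decide +kernel

theorem cI5_rr_1_ub : okB 10000 (tU 1 5 1 6 10 0 4040 830 2100 9495 0 0 40795 9573 0 0 38443 0 1200)
    0 1580 0 0 40 2100 2700 1195 1965 1500 2500 0 725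
    0x1e0e0c3033c7c08606783030404f060678102 = true := by
  decide +kernel

theorem cI5_rr_2_pl0 : okB 10000 (tP 5 1 6 10 0 4180 10213 0 0 64005 0 1200)
    0 1580 0 0 40 1000 1200 1195 1965 1500 2500 0 725
    0x765c0fb03ec0fb76060bb7606b8b030607b1e03981820c1801e0218182 = true := by
  decide +kernel

theorem cI5_rr_2_pl1 : okB 10000 (tP 5 1 6 10 0 4180 9173 0 0 55338 0 1200)
    0 1580 0 0 40 1200 1400 1195 1965 1500 2500 0 725
    0x76ec07b02ec0fb76060bb2e07d812e2c0c181cc780e6060831e0218182 = true := by
  decide +kernel

theorem cI5_rr_2_pl2 : okB 10000 (tP 5 1 6 10 0 4180 7906 0 0 46286 0 1200)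
    0 1580 0 0 40 1400 1700 1195 1965 1500 2500 0 725
    0x1dbb003c0b366020cf06060bb7601d819eec0411e04073060798f010218301040c31e0218182 = true := by
  decide +kernel

theorem cI5_rr_2_pl3 : okB 10000 (tP 5 1 6 10 0 4180 6572 0 0 38442 0 1200)
    0 1580 0 0 40 1700 2100 1195 1965 1500 2500 0 725
    0x78366000cf1e3c0c0010c18300000f31e0678176ec0f3020278303060431e0278086060831e0218182 = true := by
  decide +kernel

theorem cI5_rr_2_pm : okB 10000 (tP 5 1 6 10 0 4180 0 1500 0 0 0 1200)
    0 1580 0 0 40 2100 2240 1195 1965 1500 2500 0 725
    0x783033d3809e0604f020c183010218103 = true := by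
  decide +kernel

theorem cI5_rr_2_pr : okB 10000 (tP 5 1 6 10 0 4180 0 8537 31411 0 0 1200)
    0 1580 0 0 40 2240 2700 1195 1965 1500 2500 0 725
    0x783033c181820c180033c7811e9c00f0202783030604f060678102 = true := by
  decide +kernel

theorem cI5_rr_2_db : okB 10000 (tD 1 5 1 6 10 0 4180 1270 2100 0 15580 76249 0 0 14513 76249 0 0 1200)
    0 1580 0 0 40 1000 2100 1195 1965 1500 2500 0 725
    0x1e4e013804e08f060418f0107bc36f0008003de7816f4e080274e001810c3c006049c0861e001830c780860478f02021830206093a7009c06fde0b78007bc7801e0c1ef0d980024e04783de3c1800d98302de000270218780060816fde093a7000938f060f7a7049d382069c7830600080 = true := by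
  decide +kernel

theorem cI5_rr_2_da : okB 10000 (tD 0 5 1 6 10 0 4180 1270 0 0 7112 38443 0 1500 0 0 0 0 1200)
    0 1580 0 0 40 2100 2240 1195 1965 1500 2500 0 725
    0x78f010c9c0830c0cf02 = true := by
  decide +kernel

theorem cI5_rr_2_ua : okB 10000 (tU 0 5 1 6 10 0 4180 970 0 9573 0 0 38443 1500 0 0 0 0 1200)
    0 1580 0 0 40 2100 2240 1195 1965 1500 2500 0 725
    0x7cf010e7c0830c0cf02 = true := by
  decide +kernel

theorem cI5_rr_2_ub : okB 10000 (tU 1 5 1 6 10 0 4180 970 2240 9573 0 0 38443 9656 0 0 36415 0 1200)
    0 1580 0 0 40 2240 2700 1195 1965 1500 2500 0 725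
    0x78306040cf4e02781010c18086040cf1e3c08082 = true := by
  decide +kernel

theorem cI5_rr_3_pl0 : okB 10000 (tP 5 1 6 10 0 4320 10642 0 0 64005 0 1200)
    0 1580 0 0 40 1000 1200 1195 1965 1500 2500 0 725
    0x1dbb03ec0bb03ecb81f60607b76060bb06060b306040bb2e07d81765c0419eec0c11e0c0c101 = true := by
  decide +kernel

theorem cI5_rr_3_pl1 : okB 10000 (tP 5 1 6 10 0 4320 9602 0 0 55338 0 1200)
    0 1580 0 0 40 1200 1400 1195 1965 1500 2500 0 725
    0x1dbb03ec0fb2e05d8181edd8182cc18182ecb81f604bbb030678303040431e0218182 = true := by
  decide +kernel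

theorem cI5_rr_3_pl2 : okB 10000 (tP 5 1 6 10 0 4320 8334 0 0 46286 0 1200)
    0 1580 0 0 40 1400 1700 1195 1965 1500 2500 0 725
    0xbbb00ec0f3023c18182edd801e0478101ecb817603d8f020678101cc181060478f2e04040e6cc04302060c31e0218182 = true := by
  decide +kernel

theorem cI5_rr_3_pl3 : okB 10000 (tP 5 1 6 10 0 4320 6656 0 0 36414 0 1200)
    0 1580 0 0 40 1700 2240 1195 1965 1500 2500 0 725
    0x783030c0cf06060671e06181ce3c0cf030204f66067809e3c78080021b3000798f03ec781813c181830200f06061819e3c003030208306001811e0c0c082 = true := by
  decide +kernel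

theorem cI5_rr_3_pm : okB 10000 (tP 5 1 6 10 0 4320 0 1500 0 0 0 1200)
    0 1580 0 0 40 2240 2380 1195 1965 1500 2500 0 725
    0x1e0c180830c0e71e061830106783030404f060678102 = true := by
  decide +kernel

theorem cI5_rr_3_pr : okB 10000 (tP 5 1 6 10 0 4320 0 8976 31411 0 0 1200)
    0 1580 0 0 40 2380 2700 1195 1965 1500 2500 0 725
    0x1e0c0c3033c08f060609b1e9c040063c041b63c0c1013c783030278102 = true := by
  decide +kernel

theorem cI5_rr_3_db : okB 10000 (tD 1 5 1 6 10 0 4320 1270 2240 0 16648 76249 0 0 15580 76249 0 0 1200)
    0 1580 0 0 40 1000 2240 1195 1965 1500 2500 0 725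
    0x9c31e03bc0034e9c0010c3c00f040c31e0dbc003009c08f06083060478303021830004093a7009c06fde0b78007bc302de00302de3c780043c1804e9c101043c7821e0f78f0400180de9c16f009c1a74e001271e0c19e0c0d38f060016f4e9c0024e0938f060f7a7049d382069c7830600001 = true := by
  decide +kernel

theorem cI5_rr_3_da : okB 10000 (tD 0 5 1 6 10 0 4320 1270 0 0 7167 36415 0 1500 0 0 0 0 1200)
    0 1580 0 0 40 2240 2380 1195 1965 1500 2500 0 725
    0x9cf010c9c0834e0830f043c183 = true := by
  decide +kernel

theorem cI5_rr_3_ua : okB 10000 (tU 0 5 1 6 10 0 4320 1110 0 9656 0 0 36415 1500 0 0 0 0 1200)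
    0 1580 0 0 40 2240 2380 1195 1965 1500 2500 0 725
    0x1cf813c780813c083860218103 = true := by
  decide +kernel

theorem cI5_rr_3_ub : okB 10000 (tU 1 5 1 6 10 0 4320 1110 2380 9656 0 0 36415 9747 0 0 34653 0 1200)
    0 1580 0 0 40 2380 2700 1195 1965 1500 2500 0 725
    0x78306040cf023c7809e04781010c1809e0478103 = true := by
  decide +kernel

theorem cI5_rr_4_pl0 : okB 10000 (tP 5 1 6 10 0 4460 11032 0 0 64005 0 1200)
    0 1580 0 0 40 1000 1200 1195 1965 1500 2500 0 725
    0x76edd8180ec05702ec057025c0bb2e03d81f603d8176040fb7603d81f605d8103edd81f65c041f6ec0c176ec0c1010cb80860418182 = true := by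
  decide +kernel

theorem cI5_rr_4_pl1 : okB 10000 (tP 5 1 6 10 0 4460 9992 0 0 55338 0 1200)
    0 1580 0 0 40 1200 1400 1195 1965 1500 2500 0 725
    0x76ec07b01ec0bb7603d8083edd80f6060fb2e03d8182ecb8086060bb7606b81765c0970203d9701ec0b302060431e0218182 = true := by
  decide +kernel

theorem cI5_rr_4_pl2 : okB 10000 (tP 5 1 6 10 0 4460 8724 0 0 46286 0 1200)
    0 1580 0 0 40 1400 1700 1195 1965 1500 2500 0 725
    0x76ec0fb760603b16060fb7607d8b03060577606780e60608f060c04186060bb2e07d812e5c0330307dbb033c7818302783033c18180040431e0218182 = true := by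
  decide +kernel

theorem cI5_rr_4_pl3 : okB 10000 (tP 5 1 6 10 0 4460 6747 0 0 34652 0 1200)
    0 1580 0 0 40 1700 2380 1195 1965 1500 2500 0 725
    0x783033c780010c0e71e06181ce3c0cf030204f06cc0019e3c0c09eec00f023c080f63c0cf02ed98181021b3000c0cf0606780810600f060c0018606783033c181800208f0600780860c08182 = true := by
  decide +kernel

theorem cI5_rr_4_pm : okB 10000 (tP 5 1 6 10 0 4460 0 1500 0 0 0 1200)
    0 1580 0 0 40 2380 2520 1195 1965 1500 2500 0 725
    0x78306020c3033c181829d381b604783030604f1e0278102 = true := by
  decide +kernel

theorem cI5_rr_4_pr : okB 10000 (tP 5 1 6 10 0 4460 0 9416 31411 0 0 1200)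
    0 1580 0 0 40 2520 2700 1195 1965 1500 2500 0 725
    0x1e3c04f026cd81810c181363c0c0833c783030278102 = true := by
  decide +kernel

theorem cI5_rr_4_db : okB 10000 (tD 1 5 1 6 10 0 4460 1270 2380 0 17715 76249 0 0 16648 76249 0 0 1200)
    0 1580 0 0 40 1000 2380 1195 1965 1500 2500 0 725
    0x1e4e053804e187800618780049c0830c3c00f060d3863c043030c1800200093ef1e09381063c780069c7830c093811e0c783049f783de0f78f049c08f1e0018f0608000afbc027069d380049c78306d93803c3c00305bd3824e093a7040f7ef049d38004013a7003c780060c001 = true := by
  decide +kernel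

theorem cI5_rr_4_da : okB 10000 (tD 0 5 1 6 10 0 4460 1270 0 0 7233 34653 0 1500 0 0 0 0 1200)
    0 1580 0 0 40 2380 2520 1195 1965 1500 2500 0 725
    0x64e04783ae3c1814e3c1824e3c182 = true := by
  decide +kernel

theorem cI5_rr_4_ua : okB 10000 (tU 0 5 1 6 10 0 4460 1250 0 9747 0 0 34653 1500 0 0 0 0 1200)
    0 1580 0 0 40 2380 2520 1195 1965 1500 2500 0 725
    0x1cf823c04f1e0204f020e180860418103 = true := by
  decide +kernel

theorem cI5_rr_4_ub : okB 10000 (tU 1 5 1 6 10 0 4460 1250 2520 9747 0 0 34653 9844 0 0 33115 0 1200)
    0 1580 0 0 40 2520 2700 1195 1965 1500 2500 0 725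
    0x78f023c09b1e04781010c7809e0478103 = true := by
  decide +kernel

end RQ

end Pool.Agent.Work.MP_b30479_gtS.G2

end

section

/-!
# Rings with the ring variable on the ramp: rows `b = 5`, inside, rr
-/

set_option deprecated.oldSectionVars true

namespace Pool.Agent.Work.MP_b30479_gtS.G2

open Real NumIs

namespace RQ

open RC

theorem hL5c : lam 6 10 1 = 6 / 10 := by
  unfold lam
  norm_num

theorem sI5_rr_0 {xs s T ρ : ℝ} (hW : (wRr (127 / 1000) (194 / 1000) 0 (725 / 10000)).In xs s T ρ)
    (ha : 1820 / 10000 ≤ xs) (he : xs ≤ 1960 / 10000) :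
    RampOK (6 / 10) (15 / 100) (75 / 100) 5 xs (1 / 2 - s) T ρ (10 / 100) (27 / 100) := by
  have hN : Nums (wRr (127 / 1000) (194 / 1000) 0 (725 / 10000)) ((5 : ℕ) : ℝ) (1820 / 10000) (1960 / 10000) (10 / 100) (27 / 100)
      5 3900 690 1270 0 1200 1195 1965 1500 725 :=
    ⟨by norm_num, le_rfl, by norm_num, by norm_num, by norm_num, by norm_num, by norm_num [wRr],
      by norm_num, Or.inr (by norm_num [wRr]), by norm_num, by norm_num [wRr], by norm_num [wRr],
      by norm_num, by norm_num [wRr], by norm_num [wRr], by norm_num, by norm_num [wRr],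
      fun h => by norm_num at h, by norm_num [wRr]⟩
  have hS : ∀ x y, RC.Adm 5 T ρ (10 / 100) (27 / 100) x y →
      Sd ((5 : ℕ) : ℝ) 5 3900 690 1270 0 1200 1195 1965 1500 725 xs s T ρ x y :=
    fun x y hA => Sd.of hN hW ha he (by push_cast; exact hA)
  have ht0 : -(385 / 10000 : ℝ) ≤ T := le_trans (by norm_num [wRr]) hW.t0
  have ht1 : T ≤ (385 / 10000 : ℝ) := le_trans hW.t1 (by norm_num [wRr])
  have hT : |T| ≤ ((385 : ℕ) : ℝ) / 10000 := by
    rw [abs_le]
    push_cast
    constructor <;> linarith only [ht0, ht1]
  have kc : kC 7500 1820 1960 385 = true := by decide +kernel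
  have ud : kU 7500 1000 76249 = true := by decide +kernel
  have ua : kU 7500 1820 43543 = true := by decide +kernel
  have ue : kU 7500 1960 40795 = true := by decide +kernel
  refine ⟨fun x y hA => ?_, fun x y hA hx => ?_, fun x y hA hx => ?_⟩
  · have hx0 := hA.x0
    have hx1 := hA.x1
    rcases le_total x (1200 / 10000) with hc | hc
    · have h := piP cI5_rr_0_pl0 (by norm_num) hL5c (hS x y hA) (Or.inl rfl)
        (by push_cast; linarith only [hx0]) (by push_cast; linarith only [hc])
      have g0 := gL (be := 7500) (p := 1200) (G := 64005) (x := x) (y := 1200 / 10000)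
        (by decide +kernel) (by linarith only [hx0]) hc (by push_cast; exact le_rfl) (by norm_num)
      have g1 := gL (be := 7500) (p := 1400) (G := 55338) (x := 1200 / 10000) (y := 1400 / 10000)
        (by decide +kernel) (by norm_num) (by norm_num) (by push_cast; exact le_rfl) (by norm_num)
      have g2 := gL (be := 7500) (p := 1700) (G := 46286) (x := 1400 / 10000) (y := 1700 / 10000)
        (by decide +kernel) (by norm_num) (by norm_num) (by push_cast; exact le_rfl) (by norm_num)
      have g3 := gL (be := 7500) (p := 1820) (G := 43542) (x := 1700 / 10000) (y := 1820 / 10000)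
        (by decide +kernel) (by norm_num) (by norm_num) (by push_cast; exact le_rfl) (by norm_num)
      have gm := gh_mono (x := 1820 / 10000) (y := xs) (by norm_num) ha (by linarith only [he])
      unfold lin at h
      push_cast at h g0 g1 g2 g3
      linarith only [g0, g1, g2, g3, gm, h, neg_abs_le (gh x - gh xs)]
    rcases le_total x (1400 / 10000) with hc | hc
    · have h := piP cI5_rr_0_pl1 (by norm_num) hL5c (hS x y hA) (Or.inl rfl)
        (by push_cast; linarith) (by push_cast; linarith only [hc])
      have g0 := gL (be := 7500) (p := 1400) (G := 55338) (x := x) (y := 1400 / 10000)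
        (by decide +kernel) (by linarith) hc (by push_cast; exact le_rfl) (by norm_num)
      have g1 := gL (be := 7500) (p := 1700) (G := 46286) (x := 1400 / 10000) (y := 1700 / 10000)
        (by decide +kernel) (by norm_num) (by norm_num) (by push_cast; exact le_rfl) (by norm_num)
      have g2 := gL (be := 7500) (p := 1820) (G := 43542) (x := 1700 / 10000) (y := 1820 / 10000)
        (by decide +kernel) (by norm_num) (by norm_num) (by push_cast; exact le_rfl) (by norm_num)
      have gm := gh_mono (x := 1820 / 10000) (y := xs) (by norm_num) ha (by linarith only [he])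
      unfold lin at h
      push_cast at h g0 g1 g2
      linarith only [g0, g1, g2, gm, h, neg_abs_le (gh x - gh xs)]
    rcases le_total x (1700 / 10000) with hc | hc
    · have h := piP cI5_rr_0_pl2 (by norm_num) hL5c (hS x y hA) (Or.inl rfl)
        (by push_cast; linarith) (by push_cast; linarith only [hc])
      have g0 := gL (be := 7500) (p := 1700) (G := 46286) (x := x) (y := 1700 / 10000)
        (by decide +kernel) (by linarith) hc (by push_cast; exact le_rfl) (by norm_num)
      have g1 := gL (be := 7500) (p := 1820) (G := 43542) (x := 1700 / 10000) (y := 1820 / 10000)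
        (by decide +kernel) (by norm_num) (by norm_num) (by push_cast; exact le_rfl) (by norm_num)
      have gm := gh_mono (x := 1820 / 10000) (y := xs) (by norm_num) ha (by linarith only [he])
      unfold lin at h
      push_cast at h g0 g1
      linarith only [g0, g1, gm, h, neg_abs_le (gh x - gh xs)]
    rcases le_total x (1820 / 10000) with hc | hc
    · have h := piP cI5_rr_0_pl3 (by norm_num) hL5c (hS x y hA) (Or.inl rfl)
        (by push_cast; linarith) (by push_cast; linarith only [hc])
      have g0 := gL (be := 7500) (p := 1820) (G := 43542) (x := x) (y := 1820 / 10000)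
        (by decide +kernel) (by linarith) hc (by push_cast; exact le_rfl) (by norm_num)
      have gm := gh_mono (x := 1820 / 10000) (y := xs) (by norm_num) ha (by linarith only [he])
      unfold lin at h
      push_cast at h g0
      linarith only [g0, gm, h, neg_abs_le (gh x - gh xs)]
    rcases le_total x (1960 / 10000) with hc2 | hc2
    · have h := piP cI5_rr_0_pm (by norm_num) hL5c (hS x y hA) (Or.inl rfl)
        (by push_cast; linarith only [hc]) (by push_cast; linarith only [hc2])
      unfold lin at h
      push_cast at h
      linarith only [h, abs_nonneg (gh x - gh xs)]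
    · have h := piP cI5_rr_0_pr (by norm_num) hL5c (hS x y hA) (Or.inl rfl)
        (by push_cast; linarith only [hc2]) (by push_cast; linarith only [hx1])
      have g0 := gL (be := 7500) (p := 2700) (G := 31411) (x := 1960 / 10000) (y := x)
        (by decide +kernel) (by norm_num) hc2 (by push_cast; linarith only [hx1]) (by norm_num)
      have gm := gh_mono (x := xs) (y := 1960 / 10000) (by linarith only [ha]) he (by norm_num)
      unfold lin at h
      push_cast at h g0
      linarith only [g0, gm, h, le_abs_self (gh x - gh xs)]
  · have hx0 := hA.x0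
    have hx1 := hA.x1
    have gm := gh_mono (x := x) (y := xs) (by linarith only [hx0]) hx.le (by linarith only [he, hx, hx0])
    rcases le_total x (1820 / 10000) with hc | hc
    · have h := piD1 cI5_rr_0_db (by norm_num) hL5c (hS x y hA) (by norm_num) (by norm_num)
        (by push_cast; linarith only [hx0]) (by push_cast; linarith only [hc]) (by push_cast; exact ha)
      have g1 := gU (x := x) (y := xs) ud (by norm_num) (by push_cast; linarith only [hx0]) hx.le (by linarith only [he, hx, hx0])
      have g2 := gU (x := x) (y := 1820 / 10000) ud (by norm_num) (by push_cast; linarith only [hx0]) hc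
        (by norm_num)
      have g3 := gS (u := 1820 / 10000) (v := xs) kc (by norm_num) (by norm_num)
        (by push_cast; exact le_rfl) ha (by push_cast; exact he) hT
      push_cast at h g1 g2 g3
      exact dn_fin (gz := gh (1820 / 10000)) h gm (by unfold lin; push_cast; linarith only [he, hx, hx0, g1])
        (by unfold lin; push_cast; linarith only [g2]) (by linarith only [g3])
    · have h := piD0 cI5_rr_0_da (by norm_num) hL5c (hS x y hA) (by norm_num) (by norm_num)
        (by push_cast; linarith only [hc]) (by push_cast; linarith only [he, hx]) hx.le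
      have g1 := gU (x := x) (y := xs) ua (by norm_num) (by push_cast; linarith only [hc]) hx.le (by linarith only [he, hx, hc])
      have g3 := gS (u := x) (v := xs) kc (by norm_num) (by norm_num)
        (by push_cast; exact hc) hx.le (by push_cast; exact he) hT
      push_cast at h g1 g3
      exact dn_fin (gz := gh x) h gm (by unfold lin; push_cast; linarith only [he, hx, hc, g1])
        (by unfold lin; push_cast; linarith only []) (by linarith only [g3])
  · have hx0 := hA.x0
    have hx1 := hA.x1
    have gm := gh_mono (x := xs) (y := x) (by linarith only [ha, hx, hx1]) hx.le (by linarith only [ha, hx, hx1])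
    have g1 := gU (x := xs) (y := x) ua (by norm_num) (by push_cast; linarith only [ha]) hx.le (by linarith only [ha, hx, hx1])
    rcases le_total x (1960 / 10000) with hc | hc
    · have h := piU0 cI5_rr_0_ua (by norm_num) hL5c (hS x y hA) (by norm_num)
        (by push_cast; linarith only [ha, hx]) (by push_cast; linarith only [hc])
      have g3 := gS (u := xs) (v := x) kc (by norm_num) (by norm_num)
        (by push_cast; exact ha) hx.le (by push_cast; exact hc) hT
      push_cast at h g1 g3
      exact up_fin (gz := gh x) h gm (by unfold lin; push_cast; linarith only [ha, hx, g1, hc])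
        (by unfold lin; push_cast; linarith only []) (by linarith only [g3])
    · have h := piU1 cI5_rr_0_ub (by norm_num) hL5c (hS x y hA) (by norm_num)
        (by push_cast; linarith only [hc]) (by push_cast; linarith only [hx1])
      have g2 := gU (x := 1960 / 10000) (y := x) ue (by norm_num) (by push_cast; exact le_rfl) hc
        (by linarith only [ha, hx, hx1])
      have g3 := gS (u := xs) (v := 1960 / 10000) kc (by norm_num) (by norm_num)
        (by push_cast; exact ha) he (by push_cast; exact le_rfl) hT
      push_cast at h g1 g2 g3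
      exact up_fin (gz := gh (1960 / 10000)) h gm (by unfold lin; push_cast; linarith only [ha, hx, hx1, g1])
        (by unfold lin; push_cast; linarith only [ha, hx, hx1, g2]) (by linarith only [g3])

theorem sI5_rr_1 {xs s T ρ : ℝ} (hW : (wRr (127 / 1000) (194 / 1000) 0 (725 / 10000)).In xs s T ρ)
    (ha : 1960 / 10000 ≤ xs) (he : xs ≤ 2100 / 10000) :
    RampOK (6 / 10) (15 / 100) (75 / 100) 5 xs (1 / 2 - s) T ρ (10 / 100) (27 / 100) := by
  have hN : Nums (wRr (127 / 1000) (194 / 1000) 0 (725 / 10000)) ((5 : ℕ) : ℝ) (1960 / 10000) (2100 / 10000) (10 / 100) (27 / 100)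
      5 4040 830 1270 0 1200 1195 1965 1500 725 :=
    ⟨by norm_num, le_rfl, by norm_num, by norm_num, by norm_num, by norm_num, by norm_num [wRr],
      by norm_num, Or.inr (by norm_num [wRr]), by norm_num, by norm_num [wRr], by norm_num [wRr],
      by norm_num, by norm_num [wRr], by norm_num [wRr], by norm_num, by norm_num [wRr],
      fun h => by norm_num at h, by norm_num [wRr]⟩
  have hS : ∀ x y, RC.Adm 5 T ρ (10 / 100) (27 / 100) x y →
      Sd ((5 : ℕ) : ℝ) 5 4040 830 1270 0 1200 1195 1965 1500 725 xs s T ρ x y :=
    fun x y hA => Sd.of hN hW ha he (by push_cast; exact hA)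
  have ht0 : -(385 / 10000 : ℝ) ≤ T := le_trans (by norm_num [wRr]) hW.t0
  have ht1 : T ≤ (385 / 10000 : ℝ) := le_trans hW.t1 (by norm_num [wRr])
  have hT : |T| ≤ ((385 : ℕ) : ℝ) / 10000 := by
    rw [abs_le]
    push_cast
    constructor <;> linarith only [ht0, ht1]
  have kc : kC 7500 1960 2100 385 = true := by decide +kernel
  have ud : kU 7500 1000 76249 = true := by decide +kernel
  have ua : kU 7500 1960 40795 = true := by decide +kernel
  have ue : kU 7500 2100 38443 = true := by decide +kernel
  refine ⟨fun x y hA => ?_, fun x y hA hx => ?_, fun x y hA hx => ?_⟩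
  · have hx0 := hA.x0
    have hx1 := hA.x1
    rcases le_total x (1200 / 10000) with hc | hc
    · have h := piP cI5_rr_1_pl0 (by norm_num) hL5c (hS x y hA) (Or.inl rfl)
        (by push_cast; linarith only [hx0]) (by push_cast; linarith only [hc])
      have g0 := gL (be := 7500) (p := 1200) (G := 64005) (x := x) (y := 1200 / 10000)
        (by decide +kernel) (by linarith only [hx0]) hc (by push_cast; exact le_rfl) (by norm_num)
      have g1 := gL (be := 7500) (p := 1400) (G := 55338) (x := 1200 / 10000) (y := 1400 / 10000)
        (by decide +kernel) (by norm_num) (by norm_num) (by push_cast; exact le_rfl) (by norm_num)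
      have g2 := gL (be := 7500) (p := 1700) (G := 46286) (x := 1400 / 10000) (y := 1700 / 10000)
        (by decide +kernel) (by norm_num) (by norm_num) (by push_cast; exact le_rfl) (by norm_num)
      have g3 := gL (be := 7500) (p := 1960) (G := 40794) (x := 1700 / 10000) (y := 1960 / 10000)
        (by decide +kernel) (by norm_num) (by norm_num) (by push_cast; exact le_rfl) (by norm_num)
      have gm := gh_mono (x := 1960 / 10000) (y := xs) (by norm_num) ha (by linarith only [he])
      unfold lin at h
      push_cast at h g0 g1 g2 g3
      linarith only [g0, g1, g2, g3, gm, h, neg_abs_le (gh x - gh xs)]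
    rcases le_total x (1400 / 10000) with hc | hc
    · have h := piP cI5_rr_1_pl1 (by norm_num) hL5c (hS x y hA) (Or.inl rfl)
        (by push_cast; linarith) (by push_cast; linarith only [hc])
      have g0 := gL (be := 7500) (p := 1400) (G := 55338) (x := x) (y := 1400 / 10000)
        (by decide +kernel) (by linarith) hc (by push_cast; exact le_rfl) (by norm_num)
      have g1 := gL (be := 7500) (p := 1700) (G := 46286) (x := 1400 / 10000) (y := 1700 / 10000)
        (by decide +kernel) (by norm_num) (by norm_num) (by push_cast; exact le_rfl) (by norm_num)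
      have g2 := gL (be := 7500) (p := 1960) (G := 40794) (x := 1700 / 10000) (y := 1960 / 10000)
        (by decide +kernel) (by norm_num) (by norm_num) (by push_cast; exact le_rfl) (by norm_num)
      have gm := gh_mono (x := 1960 / 10000) (y := xs) (by norm_num) ha (by linarith only [he])
      unfold lin at h
      push_cast at h g0 g1 g2
      linarith only [g0, g1, g2, gm, h, neg_abs_le (gh x - gh xs)]
    rcases le_total x (1700 / 10000) with hc | hc
    · have h := piP cI5_rr_1_pl2 (by norm_num) hL5c (hS x y hA) (Or.inl rfl)
        (by push_cast; linarith) (by push_cast; linarith only [hc])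
      have g0 := gL (be := 7500) (p := 1700) (G := 46286) (x := x) (y := 1700 / 10000)
        (by decide +kernel) (by linarith) hc (by push_cast; exact le_rfl) (by norm_num)
      have g1 := gL (be := 7500) (p := 1960) (G := 40794) (x := 1700 / 10000) (y := 1960 / 10000)
        (by decide +kernel) (by norm_num) (by norm_num) (by push_cast; exact le_rfl) (by norm_num)
      have gm := gh_mono (x := 1960 / 10000) (y := xs) (by norm_num) ha (by linarith only [he])
      unfold lin at h
      push_cast at h g0 g1
      linarith only [g0, g1, gm, h, neg_abs_le (gh x - gh xs)]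
    rcases le_total x (1960 / 10000) with hc | hc
    · have h := piP cI5_rr_1_pl3 (by norm_num) hL5c (hS x y hA) (Or.inl rfl)
        (by push_cast; linarith) (by push_cast; linarith only [hc])
      have g0 := gL (be := 7500) (p := 1960) (G := 40794) (x := x) (y := 1960 / 10000)
        (by decide +kernel) (by linarith) hc (by push_cast; exact le_rfl) (by norm_num)
      have gm := gh_mono (x := 1960 / 10000) (y := xs) (by norm_num) ha (by linarith only [he])
      unfold lin at h
      push_cast at h g0
      linarith only [g0, gm, h, neg_abs_le (gh x - gh xs)]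
    rcases le_total x (2100 / 10000) with hc2 | hc2
    · have h := piP cI5_rr_1_pm (by norm_num) hL5c (hS x y hA) (Or.inl rfl)
        (by push_cast; linarith only [hc]) (by push_cast; linarith only [hc2])
      unfold lin at h
      push_cast at h
      linarith only [h, abs_nonneg (gh x - gh xs)]
    · have h := piP cI5_rr_1_pr (by norm_num) hL5c (hS x y hA) (Or.inl rfl)
        (by push_cast; linarith only [hc2]) (by push_cast; linarith only [hx1])
      have g0 := gL (be := 7500) (p := 2700) (G := 31411) (x := 2100 / 10000) (y := x)
        (by decide +kernel) (by norm_num) hc2 (by push_cast; linarith only [hx1]) (by norm_num)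
      have gm := gh_mono (x := xs) (y := 2100 / 10000) (by linarith only [ha]) he (by norm_num)
      unfold lin at h
      push_cast at h g0
      linarith only [g0, gm, h, le_abs_self (gh x - gh xs)]
  · have hx0 := hA.x0
    have hx1 := hA.x1
    have gm := gh_mono (x := x) (y := xs) (by linarith only [hx0]) hx.le (by linarith only [he, hx, hx0])
    rcases le_total x (1960 / 10000) with hc | hc
    · have h := piD1 cI5_rr_1_db (by norm_num) hL5c (hS x y hA) (by norm_num) (by norm_num)
        (by push_cast; linarith only [hx0]) (by push_cast; linarith only [hc]) (by push_cast; exact ha)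
      have g1 := gU (x := x) (y := xs) ud (by norm_num) (by push_cast; linarith only [hx0]) hx.le (by linarith only [he, hx, hx0])
      have g2 := gU (x := x) (y := 1960 / 10000) ud (by norm_num) (by push_cast; linarith only [hx0]) hc
        (by norm_num)
      have g3 := gS (u := 1960 / 10000) (v := xs) kc (by norm_num) (by norm_num)
        (by push_cast; exact le_rfl) ha (by push_cast; exact he) hT
      push_cast at h g1 g2 g3
      exact dn_fin (gz := gh (1960 / 10000)) h gm (by unfold lin; push_cast; linarith only [he, hx, hx0, g1])
        (by unfold lin; push_cast; linarith only [g2]) (by linarith only [g3])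
    · have h := piD0 cI5_rr_1_da (by norm_num) hL5c (hS x y hA) (by norm_num) (by norm_num)
        (by push_cast; linarith only [hc]) (by push_cast; linarith only [he, hx]) hx.le
      have g1 := gU (x := x) (y := xs) ua (by norm_num) (by push_cast; linarith only [hc]) hx.le (by linarith only [he, hx, hc])
      have g3 := gS (u := x) (v := xs) kc (by norm_num) (by norm_num)
        (by push_cast; exact hc) hx.le (by push_cast; exact he) hT
      push_cast at h g1 g3
      exact dn_fin (gz := gh x) h gm (by unfold lin; push_cast; linarith only [he, hx, hc, g1])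
        (by unfold lin; push_cast; linarith only []) (by linarith only [g3])
  · have hx0 := hA.x0
    have hx1 := hA.x1
    have gm := gh_mono (x := xs) (y := x) (by linarith only [ha, hx, hx1]) hx.le (by linarith only [ha, hx, hx1])
    have g1 := gU (x := xs) (y := x) ua (by norm_num) (by push_cast; linarith only [ha]) hx.le (by linarith only [ha, hx, hx1])
    rcases le_total x (2100 / 10000) with hc | hc
    · have h := piU0 cI5_rr_1_ua (by norm_num) hL5c (hS x y hA) (by norm_num)
        (by push_cast; linarith only [ha, hx]) (by push_cast; linarith only [hc])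
      have g3 := gS (u := xs) (v := x) kc (by norm_num) (by norm_num)
        (by push_cast; exact ha) hx.le (by push_cast; exact hc) hT
      push_cast at h g1 g3
      exact up_fin (gz := gh x) h gm (by unfold lin; push_cast; linarith only [ha, hx, g1, hc])
        (by unfold lin; push_cast; linarith only []) (by linarith only [g3])
    · have h := piU1 cI5_rr_1_ub (by norm_num) hL5c (hS x y hA) (by norm_num)
        (by push_cast; linarith only [hc]) (by push_cast; linarith only [hx1])
      have g2 := gU (x := 2100 / 10000) (y := x) ue (by norm_num) (by push_cast; exact le_rfl) hc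
        (by linarith only [ha, hx, hx1])
      have g3 := gS (u := xs) (v := 2100 / 10000) kc (by norm_num) (by norm_num)
        (by push_cast; exact ha) he (by push_cast; exact le_rfl) hT
      push_cast at h g1 g2 g3
      exact up_fin (gz := gh (2100 / 10000)) h gm (by unfold lin; push_cast; linarith only [ha, hx, hx1, g1])
        (by unfold lin; push_cast; linarith only [ha, hx, hx1, g2]) (by linarith only [g3])

theorem sI5_rr_2 {xs s T ρ : ℝ} (hW : (wRr (127 / 1000) (194 / 1000) 0 (725 / 10000)).In xs s T ρ)
    (ha : 2100 / 10000 ≤ xs) (he : xs ≤ 2240 / 10000) :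
    RampOK (6 / 10) (15 / 100) (75 / 100) 5 xs (1 / 2 - s) T ρ (10 / 100) (27 / 100) := by
  have hN : Nums (wRr (127 / 1000) (194 / 1000) 0 (725 / 10000)) ((5 : ℕ) : ℝ) (2100 / 10000) (2240 / 10000) (10 / 100) (27 / 100)
      5 4180 970 1270 0 1200 1195 1965 1500 725 :=
    ⟨by norm_num, le_rfl, by norm_num, by norm_num, by norm_num, by norm_num, by norm_num [wRr],
      by norm_num, Or.inr (by norm_num [wRr]), by norm_num, by norm_num [wRr], by norm_num [wRr],
      by norm_num, by norm_num [wRr], by norm_num [wRr], by norm_num, by norm_num [wRr],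
      fun h => by norm_num at h, by norm_num [wRr]⟩
  have hS : ∀ x y, RC.Adm 5 T ρ (10 / 100) (27 / 100) x y →
      Sd ((5 : ℕ) : ℝ) 5 4180 970 1270 0 1200 1195 1965 1500 725 xs s T ρ x y :=
    fun x y hA => Sd.of hN hW ha he (by push_cast; exact hA)
  have ht0 : -(385 / 10000 : ℝ) ≤ T := le_trans (by norm_num [wRr]) hW.t0
  have ht1 : T ≤ (385 / 10000 : ℝ) := le_trans hW.t1 (by norm_num [wRr])
  have hT : |T| ≤ ((385 : ℕ) : ℝ) / 10000 := by
    rw [abs_le]
    push_cast
    constructor <;> linarith only [ht0, ht1]
  have kc : kC 7500 2100 2240 385 = true := by decide +kernel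
  have ud : kU 7500 1000 76249 = true := by decide +kernel
  have ua : kU 7500 2100 38443 = true := by decide +kernel
  have ue : kU 7500 2240 36415 = true := by decide +kernel
  refine ⟨fun x y hA => ?_, fun x y hA hx => ?_, fun x y hA hx => ?_⟩
  · have hx0 := hA.x0
    have hx1 := hA.x1
    rcases le_total x (1200 / 10000) with hc | hc
    · have h := piP cI5_rr_2_pl0 (by norm_num) hL5c (hS x y hA) (Or.inl rfl)
        (by push_cast; linarith only [hx0]) (by push_cast; linarith only [hc])
      have g0 := gL (be := 7500) (p := 1200) (G := 64005) (x := x) (y := 1200 / 10000)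
        (by decide +kernel) (by linarith only [hx0]) hc (by push_cast; exact le_rfl) (by norm_num)
      have g1 := gL (be := 7500) (p := 1400) (G := 55338) (x := 1200 / 10000) (y := 1400 / 10000)
        (by decide +kernel) (by norm_num) (by norm_num) (by push_cast; exact le_rfl) (by norm_num)
      have g2 := gL (be := 7500) (p := 1700) (G := 46286) (x := 1400 / 10000) (y := 1700 / 10000)
        (by decide +kernel) (by norm_num) (by norm_num) (by push_cast; exact le_rfl) (by norm_num)
      have g3 := gL (be := 7500) (p := 2100) (G := 38442) (x := 1700 / 10000) (y := 2100 / 10000)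
        (by decide +kernel) (by norm_num) (by norm_num) (by push_cast; exact le_rfl) (by norm_num)
      have gm := gh_mono (x := 2100 / 10000) (y := xs) (by norm_num) ha (by linarith only [he])
      unfold lin at h
      push_cast at h g0 g1 g2 g3
      linarith only [g0, g1, g2, g3, gm, h, neg_abs_le (gh x - gh xs)]
    rcases le_total x (1400 / 10000) with hc | hc
    · have h := piP cI5_rr_2_pl1 (by norm_num) hL5c (hS x y hA) (Or.inl rfl)
        (by push_cast; linarith) (by push_cast; linarith only [hc])
      have g0 := gL (be := 7500) (p := 1400) (G := 55338) (x := x) (y := 1400 / 10000)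
        (by decide +kernel) (by linarith) hc (by push_cast; exact le_rfl) (by norm_num)
      have g1 := gL (be := 7500) (p := 1700) (G := 46286) (x := 1400 / 10000) (y := 1700 / 10000)
        (by decide +kernel) (by norm_num) (by norm_num) (by push_cast; exact le_rfl) (by norm_num)
      have g2 := gL (be := 7500) (p := 2100) (G := 38442) (x := 1700 / 10000) (y := 2100 / 10000)
        (by decide +kernel) (by norm_num) (by norm_num) (by push_cast; exact le_rfl) (by norm_num)
      have gm := gh_mono (x := 2100 / 10000) (y := xs) (by norm_num) ha (by linarith only [he])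
      unfold lin at h
      push_cast at h g0 g1 g2
      linarith only [g0, g1, g2, gm, h, neg_abs_le (gh x - gh xs)]
    rcases le_total x (1700 / 10000) with hc | hc
    · have h := piP cI5_rr_2_pl2 (by norm_num) hL5c (hS x y hA) (Or.inl rfl)
        (by push_cast; linarith) (by push_cast; linarith only [hc])
      have g0 := gL (be := 7500) (p := 1700) (G := 46286) (x := x) (y := 1700 / 10000)
        (by decide +kernel) (by linarith) hc (by push_cast; exact le_rfl) (by norm_num)
      have g1 := gL (be := 7500) (p := 2100) (G := 38442) (x := 1700 / 10000) (y := 2100 / 10000)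
        (by decide +kernel) (by norm_num) (by norm_num) (by push_cast; exact le_rfl) (by norm_num)
      have gm := gh_mono (x := 2100 / 10000) (y := xs) (by norm_num) ha (by linarith only [he])
      unfold lin at h
      push_cast at h g0 g1
      linarith only [g0, g1, gm, h, neg_abs_le (gh x - gh xs)]
    rcases le_total x (2100 / 10000) with hc | hc
    · have h := piP cI5_rr_2_pl3 (by norm_num) hL5c (hS x y hA) (Or.inl rfl)
        (by push_cast; linarith) (by push_cast; linarith only [hc])
      have g0 := gL (be := 7500) (p := 2100) (G := 38442) (x := x) (y := 2100 / 10000)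
        (by decide +kernel) (by linarith) hc (by push_cast; exact le_rfl) (by norm_num)
      have gm := gh_mono (x := 2100 / 10000) (y := xs) (by norm_num) ha (by linarith only [he])
      unfold lin at h
      push_cast at h g0
      linarith only [g0, gm, h, neg_abs_le (gh x - gh xs)]
    rcases le_total x (2240 / 10000) with hc2 | hc2
    · have h := piP cI5_rr_2_pm (by norm_num) hL5c (hS x y hA) (Or.inl rfl)
        (by push_cast; linarith only [hc]) (by push_cast; linarith only [hc2])
      unfold lin at h
      push_cast at h
      linarith only [h, abs_nonneg (gh x - gh xs)]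
    · have h := piP cI5_rr_2_pr (by norm_num) hL5c (hS x y hA) (Or.inl rfl)
        (by push_cast; linarith only [hc2]) (by push_cast; linarith only [hx1])
      have g0 := gL (be := 7500) (p := 2700) (G := 31411) (x := 2240 / 10000) (y := x)
        (by decide +kernel) (by norm_num) hc2 (by push_cast; linarith only [hx1]) (by norm_num)
      have gm := gh_mono (x := xs) (y := 2240 / 10000) (by linarith only [ha]) he (by norm_num)
      unfold lin at h
      push_cast at h g0
      linarith only [g0, gm, h, le_abs_self (gh x - gh xs)]
  · have hx0 := hA.x0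
    have hx1 := hA.x1
    have gm := gh_mono (x := x) (y := xs) (by linarith only [hx0]) hx.le (by linarith only [he, hx, hx0])
    rcases le_total x (2100 / 10000) with hc | hc
    · have h := piD1 cI5_rr_2_db (by norm_num) hL5c (hS x y hA) (by norm_num) (by norm_num)
        (by push_cast; linarith only [hx0]) (by push_cast; linarith only [hc]) (by push_cast; exact ha)
      have g1 := gU (x := x) (y := xs) ud (by norm_num) (by push_cast; linarith only [hx0]) hx.le (by linarith only [he, hx, hx0])
      have g2 := gU (x := x) (y := 2100 / 10000) ud (by norm_num) (by push_cast; linarith only [hx0]) hc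
        (by norm_num)
      have g3 := gS (u := 2100 / 10000) (v := xs) kc (by norm_num) (by norm_num)
        (by push_cast; exact le_rfl) ha (by push_cast; exact he) hT
      push_cast at h g1 g2 g3
      exact dn_fin (gz := gh (2100 / 10000)) h gm (by unfold lin; push_cast; linarith only [he, hx, hx0, g1])
        (by unfold lin; push_cast; linarith only [g2]) (by linarith only [g3])
    · have h := piD0 cI5_rr_2_da (by norm_num) hL5c (hS x y hA) (by norm_num) (by norm_num)
        (by push_cast; linarith only [hc]) (by push_cast; linarith only [he, hx]) hx.le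
      have g1 := gU (x := x) (y := xs) ua (by norm_num) (by push_cast; linarith only [hc]) hx.le (by linarith only [he, hx, hc])
      have g3 := gS (u := x) (v := xs) kc (by norm_num) (by norm_num)
        (by push_cast; exact hc) hx.le (by push_cast; exact he) hT
      push_cast at h g1 g3
      exact dn_fin (gz := gh x) h gm (by unfold lin; push_cast; linarith only [he, hx, hc, g1])
        (by unfold lin; push_cast; linarith only []) (by linarith only [g3])
  · have hx0 := hA.x0
    have hx1 := hA.x1
    have gm := gh_mono (x := xs) (y := x) (by linarith only [ha, hx, hx1]) hx.le (by linarith only [ha, hx, hx1])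
    have g1 := gU (x := xs) (y := x) ua (by norm_num) (by push_cast; linarith only [ha]) hx.le (by linarith only [ha, hx, hx1])
    rcases le_total x (2240 / 10000) with hc | hc
    · have h := piU0 cI5_rr_2_ua (by norm_num) hL5c (hS x y hA) (by norm_num)
        (by push_cast; linarith only [ha, hx]) (by push_cast; linarith only [hc])
      have g3 := gS (u := xs) (v := x) kc (by norm_num) (by norm_num)
        (by push_cast; exact ha) hx.le (by push_cast; exact hc) hT
      push_cast at h g1 g3
      exact up_fin (gz := gh x) h gm (by unfold lin; push_cast; linarith only [ha, hx, g1, hc])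
        (by unfold lin; push_cast; linarith only []) (by linarith only [g3])
    · have h := piU1 cI5_rr_2_ub (by norm_num) hL5c (hS x y hA) (by norm_num)
        (by push_cast; linarith only [hc]) (by push_cast; linarith only [hx1])
      have g2 := gU (x := 2240 / 10000) (y := x) ue (by norm_num) (by push_cast; exact le_rfl) hc
        (by linarith only [ha, hx, hx1])
      have g3 := gS (u := xs) (v := 2240 / 10000) kc (by norm_num) (by norm_num)
        (by push_cast; exact ha) he (by push_cast; exact le_rfl) hT
      push_cast at h g1 g2 g3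
      exact up_fin (gz := gh (2240 / 10000)) h gm (by unfold lin; push_cast; linarith only [ha, hx, hx1, g1])
        (by unfold lin; push_cast; linarith only [ha, hx, hx1, g2]) (by linarith only [g3])

theorem sI5_rr_3 {xs s T ρ : ℝ} (hW : (wRr (127 / 1000) (194 / 1000) 0 (725 / 10000)).In xs s T ρ)
    (ha : 2240 / 10000 ≤ xs) (he : xs ≤ 2380 / 10000) :
    RampOK (6 / 10) (15 / 100) (75 / 100) 5 xs (1 / 2 - s) T ρ (10 / 100) (27 / 100) := by
  have hN : Nums (wRr (127 / 1000) (194 / 1000) 0 (725 / 10000)) ((5 : ℕ) : ℝ) (2240 / 10000) (2380 / 10000) (10 / 100) (27 / 100)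
      5 4320 1110 1270 0 1200 1195 1965 1500 725 :=
    ⟨by norm_num, le_rfl, by norm_num, by norm_num, by norm_num, by norm_num, by norm_num [wRr],
      by norm_num, Or.inr (by norm_num [wRr]), by norm_num, by norm_num [wRr], by norm_num [wRr],
      by norm_num, by norm_num [wRr], by norm_num [wRr], by norm_num, by norm_num [wRr],
      fun h => by norm_num at h, by norm_num [wRr]⟩
  have hS : ∀ x y, RC.Adm 5 T ρ (10 / 100) (27 / 100) x y →
      Sd ((5 : ℕ) : ℝ) 5 4320 1110 1270 0 1200 1195 1965 1500 725 xs s T ρ x y :=
    fun x y hA => Sd.of hN hW ha he (by push_cast; exact hA)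
  have ht0 : -(385 / 10000 : ℝ) ≤ T := le_trans (by norm_num [wRr]) hW.t0
  have ht1 : T ≤ (385 / 10000 : ℝ) := le_trans hW.t1 (by norm_num [wRr])
  have hT : |T| ≤ ((385 : ℕ) : ℝ) / 10000 := by
    rw [abs_le]
    push_cast
    constructor <;> linarith only [ht0, ht1]
  have kc : kC 7500 2240 2380 385 = true := by decide +kernel
  have ud : kU 7500 1000 76249 = true := by decide +kernel
  have ua : kU 7500 2240 36415 = true := by decide +kernel
  have ue : kU 7500 2380 34653 = true := by decide +kernel
  refine ⟨fun x y hA => ?_, fun x y hA hx => ?_, fun x y hA hx => ?_⟩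
  · have hx0 := hA.x0
    have hx1 := hA.x1
    rcases le_total x (1200 / 10000) with hc | hc
    · have h := piP cI5_rr_3_pl0 (by norm_num) hL5c (hS x y hA) (Or.inl rfl)
        (by push_cast; linarith only [hx0]) (by push_cast; linarith only [hc])
      have g0 := gL (be := 7500) (p := 1200) (G := 64005) (x := x) (y := 1200 / 10000)
        (by decide +kernel) (by linarith only [hx0]) hc (by push_cast; exact le_rfl) (by norm_num)
      have g1 := gL (be := 7500) (p := 1400) (G := 55338) (x := 1200 / 10000) (y := 1400 / 10000)
        (by decide +kernel) (by norm_num) (by norm_num) (by push_cast; exact le_rfl) (by norm_num)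
      have g2 := gL (be := 7500) (p := 1700) (G := 46286) (x := 1400 / 10000) (y := 1700 / 10000)
        (by decide +kernel) (by norm_num) (by norm_num) (by push_cast; exact le_rfl) (by norm_num)
      have g3 := gL (be := 7500) (p := 2240) (G := 36414) (x := 1700 / 10000) (y := 2240 / 10000)
        (by decide +kernel) (by norm_num) (by norm_num) (by push_cast; exact le_rfl) (by norm_num)
      have gm := gh_mono (x := 2240 / 10000) (y := xs) (by norm_num) ha (by linarith only [he])
      unfold lin at h
      push_cast at h g0 g1 g2 g3
      linarith only [g0, g1, g2, g3, gm, h, neg_abs_le (gh x - gh xs)]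
    rcases le_total x (1400 / 10000) with hc | hc
    · have h := piP cI5_rr_3_pl1 (by norm_num) hL5c (hS x y hA) (Or.inl rfl)
        (by push_cast; linarith) (by push_cast; linarith only [hc])
      have g0 := gL (be := 7500) (p := 1400) (G := 55338) (x := x) (y := 1400 / 10000)
        (by decide +kernel) (by linarith) hc (by push_cast; exact le_rfl) (by norm_num)
      have g1 := gL (be := 7500) (p := 1700) (G := 46286) (x := 1400 / 10000) (y := 1700 / 10000)
        (by decide +kernel) (by norm_num) (by norm_num) (by push_cast; exact le_rfl) (by norm_num)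
      have g2 := gL (be := 7500) (p := 2240) (G := 36414) (x := 1700 / 10000) (y := 2240 / 10000)
        (by decide +kernel) (by norm_num) (by norm_num) (by push_cast; exact le_rfl) (by norm_num)
      have gm := gh_mono (x := 2240 / 10000) (y := xs) (by norm_num) ha (by linarith only [he])
      unfold lin at h
      push_cast at h g0 g1 g2
      linarith only [g0, g1, g2, gm, h, neg_abs_le (gh x - gh xs)]
    rcases le_total x (1700 / 10000) with hc | hc
    · have h := piP cI5_rr_3_pl2 (by norm_num) hL5c (hS x y hA) (Or.inl rfl)
        (by push_cast; linarith) (by push_cast; linarith only [hc])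
      have g0 := gL (be := 7500) (p := 1700) (G := 46286) (x := x) (y := 1700 / 10000)
        (by decide +kernel) (by linarith) hc (by push_cast; exact le_rfl) (by norm_num)
      have g1 := gL (be := 7500) (p := 2240) (G := 36414) (x := 1700 / 10000) (y := 2240 / 10000)
        (by decide +kernel) (by norm_num) (by norm_num) (by push_cast; exact le_rfl) (by norm_num)
      have gm := gh_mono (x := 2240 / 10000) (y := xs) (by norm_num) ha (by linarith only [he])
      unfold lin at h
      push_cast at h g0 g1
      linarith only [g0, g1, gm, h, neg_abs_le (gh x - gh xs)]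
    rcases le_total x (2240 / 10000) with hc | hc
    · have h := piP cI5_rr_3_pl3 (by norm_num) hL5c (hS x y hA) (Or.inl rfl)
        (by push_cast; linarith) (by push_cast; linarith only [hc])
      have g0 := gL (be := 7500) (p := 2240) (G := 36414) (x := x) (y := 2240 / 10000)
        (by decide +kernel) (by linarith) hc (by push_cast; exact le_rfl) (by norm_num)
      have gm := gh_mono (x := 2240 / 10000) (y := xs) (by norm_num) ha (by linarith only [he])
      unfold lin at h
      push_cast at h g0
      linarith only [g0, gm, h, neg_abs_le (gh x - gh xs)]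
    rcases le_total x (2380 / 10000) with hc2 | hc2
    · have h := piP cI5_rr_3_pm (by norm_num) hL5c (hS x y hA) (Or.inl rfl)
        (by push_cast; linarith only [hc]) (by push_cast; linarith only [hc2])
      unfold lin at h
      push_cast at h
      linarith only [h, abs_nonneg (gh x - gh xs)]
    · have h := piP cI5_rr_3_pr (by norm_num) hL5c (hS x y hA) (Or.inl rfl)
        (by push_cast; linarith only [hc2]) (by push_cast; linarith only [hx1])
      have g0 := gL (be := 7500) (p := 2700) (G := 31411) (x := 2380 / 10000) (y := x)
        (by decide +kernel) (by norm_num) hc2 (by push_cast; linarith only [hx1]) (by norm_num)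
      have gm := gh_mono (x := xs) (y := 2380 / 10000) (by linarith only [ha]) he (by norm_num)
      unfold lin at h
      push_cast at h g0
      linarith only [g0, gm, h, le_abs_self (gh x - gh xs)]
  · have hx0 := hA.x0
    have hx1 := hA.x1
    have gm := gh_mono (x := x) (y := xs) (by linarith only [hx0]) hx.le (by linarith only [he, hx, hx0])
    rcases le_total x (2240 / 10000) with hc | hc
    · have h := piD1 cI5_rr_3_db (by norm_num) hL5c (hS x y hA) (by norm_num) (by norm_num)
        (by push_cast; linarith only [hx0]) (by push_cast; linarith only [hc]) (by push_cast; exact ha)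
      have g1 := gU (x := x) (y := xs) ud (by norm_num) (by push_cast; linarith only [hx0]) hx.le (by linarith only [he, hx, hx0])
      have g2 := gU (x := x) (y := 2240 / 10000) ud (by norm_num) (by push_cast; linarith only [hx0]) hc
        (by norm_num)
      have g3 := gS (u := 2240 / 10000) (v := xs) kc (by norm_num) (by norm_num)
        (by push_cast; exact le_rfl) ha (by push_cast; exact he) hT
      push_cast at h g1 g2 g3
      exact dn_fin (gz := gh (2240 / 10000)) h gm (by unfold lin; push_cast; linarith only [he, hx, hx0, g1])
        (by unfold lin; push_cast; linarith only [g2]) (by linarith only [g3])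
    · have h := piD0 cI5_rr_3_da (by norm_num) hL5c (hS x y hA) (by norm_num) (by norm_num)
        (by push_cast; linarith only [hc]) (by push_cast; linarith only [he, hx]) hx.le
      have g1 := gU (x := x) (y := xs) ua (by norm_num) (by push_cast; linarith only [hc]) hx.le (by linarith only [he, hx, hc])
      have g3 := gS (u := x) (v := xs) kc (by norm_num) (by norm_num)
        (by push_cast; exact hc) hx.le (by push_cast; exact he) hT
      push_cast at h g1 g3
      exact dn_fin (gz := gh x) h gm (by unfold lin; push_cast; linarith only [he, hx, hc, g1])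
        (by unfold lin; push_cast; linarith only []) (by linarith only [g3])
  · have hx0 := hA.x0
    have hx1 := hA.x1
    have gm := gh_mono (x := xs) (y := x) (by linarith only [ha, hx, hx1]) hx.le (by linarith only [ha, hx, hx1])
    have g1 := gU (x := xs) (y := x) ua (by norm_num) (by push_cast; linarith only [ha]) hx.le (by linarith only [ha, hx, hx1])
    rcases le_total x (2380 / 10000) with hc | hc
    · have h := piU0 cI5_rr_3_ua (by norm_num) hL5c (hS x y hA) (by norm_num)
        (by push_cast; linarith only [ha, hx]) (by push_cast; linarith only [hc])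
      have g3 := gS (u := xs) (v := x) kc (by norm_num) (by norm_num)
        (by push_cast; exact ha) hx.le (by push_cast; exact hc) hT
      push_cast at h g1 g3
      exact up_fin (gz := gh x) h gm (by unfold lin; push_cast; linarith only [ha, hx, g1, hc])
        (by unfold lin; push_cast; linarith only []) (by linarith only [g3])
    · have h := piU1 cI5_rr_3_ub (by norm_num) hL5c (hS x y hA) (by norm_num)
        (by push_cast; linarith only [hc]) (by push_cast; linarith only [hx1])
      have g2 := gU (x := 2380 / 10000) (y := x) ue (by norm_num) (by push_cast; exact le_rfl) hc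
        (by linarith only [ha, hx, hx1])
      have g3 := gS (u := xs) (v := 2380 / 10000) kc (by norm_num) (by norm_num)
        (by push_cast; exact ha) he (by push_cast; exact le_rfl) hT
      push_cast at h g1 g2 g3
      exact up_fin (gz := gh (2380 / 10000)) h gm (by unfold lin; push_cast; linarith only [ha, hx, hx1, g1])
        (by unfold lin; push_cast; linarith only [ha, hx, hx1, g2]) (by linarith only [g3])

theorem sI5_rr_4 {xs s T ρ : ℝ} (hW : (wRr (127 / 1000) (194 / 1000) 0 (725 / 10000)).In xs s T ρ)
    (ha : 2380 / 10000 ≤ xs) (he : xs ≤ 2520 / 10000) :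
    RampOK (6 / 10) (15 / 100) (75 / 100) 5 xs (1 / 2 - s) T ρ (10 / 100) (27 / 100) := by
  have hN : Nums (wRr (127 / 1000) (194 / 1000) 0 (725 / 10000)) ((5 : ℕ) : ℝ) (2380 / 10000) (2520 / 10000) (10 / 100) (27 / 100)
      5 4460 1250 1270 0 1200 1195 1965 1500 725 :=
    ⟨by norm_num, le_rfl, by norm_num, by norm_num, by norm_num, by norm_num, by norm_num [wRr],
      by norm_num, Or.inr (by norm_num [wRr]), by norm_num, by norm_num [wRr], by norm_num [wRr],
      by norm_num, by norm_num [wRr], by norm_num [wRr], by norm_num, by norm_num [wRr],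
      fun h => by norm_num at h, by norm_num [wRr]⟩
  have hS : ∀ x y, RC.Adm 5 T ρ (10 / 100) (27 / 100) x y →
      Sd ((5 : ℕ) : ℝ) 5 4460 1250 1270 0 1200 1195 1965 1500 725 xs s T ρ x y :=
    fun x y hA => Sd.of hN hW ha he (by push_cast; exact hA)
  have ht0 : -(385 / 10000 : ℝ) ≤ T := le_trans (by norm_num [wRr]) hW.t0
  have ht1 : T ≤ (385 / 10000 : ℝ) := le_trans hW.t1 (by norm_num [wRr])
  have hT : |T| ≤ ((385 : ℕ) : ℝ) / 10000 := by
    rw [abs_le]
    push_cast
    constructor <;> linarith only [ht0, ht1]
  have kc : kC 7500 2380 2520 385 = true := by decide +kernel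
  have ud : kU 7500 1000 76249 = true := by decide +kernel
  have ua : kU 7500 2380 34653 = true := by decide +kernel
  have ue : kU 7500 2520 33115 = true := by decide +kernel
  refine ⟨fun x y hA => ?_, fun x y hA hx => ?_, fun x y hA hx => ?_⟩
  · have hx0 := hA.x0
    have hx1 := hA.x1
    rcases le_total x (1200 / 10000) with hc | hc
    · have h := piP cI5_rr_4_pl0 (by norm_num) hL5c (hS x y hA) (Or.inl rfl)
        (by push_cast; linarith only [hx0]) (by push_cast; linarith only [hc])
      have g0 := gL (be := 7500) (p := 1200) (G := 64005) (x := x) (y := 1200 / 10000)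
        (by decide +kernel) (by linarith only [hx0]) hc (by push_cast; exact le_rfl) (by norm_num)
      have g1 := gL (be := 7500) (p := 1400) (G := 55338) (x := 1200 / 10000) (y := 1400 / 10000)
        (by decide +kernel) (by norm_num) (by norm_num) (by push_cast; exact le_rfl) (by norm_num)
      have g2 := gL (be := 7500) (p := 1700) (G := 46286) (x := 1400 / 10000) (y := 1700 / 10000)
        (by decide +kernel) (by norm_num) (by norm_num) (by push_cast; exact le_rfl) (by norm_num)
      have g3 := gL (be := 7500) (p := 2380) (G := 34652) (x := 1700 / 10000) (y := 2380 / 10000)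
        (by decide +kernel) (by norm_num) (by norm_num) (by push_cast; exact le_rfl) (by norm_num)
      have gm := gh_mono (x := 2380 / 10000) (y := xs) (by norm_num) ha (by linarith only [he])
      unfold lin at h
      push_cast at h g0 g1 g2 g3
      linarith only [g0, g1, g2, g3, gm, h, neg_abs_le (gh x - gh xs)]
    rcases le_total x (1400 / 10000) with hc | hc
    · have h := piP cI5_rr_4_pl1 (by norm_num) hL5c (hS x y hA) (Or.inl rfl)
        (by push_cast; linarith) (by push_cast; linarith only [hc])
      have g0 := gL (be := 7500) (p := 1400) (G := 55338) (x := x) (y := 1400 / 10000)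
        (by decide +kernel) (by linarith) hc (by push_cast; exact le_rfl) (by norm_num)
      have g1 := gL (be := 7500) (p := 1700) (G := 46286) (x := 1400 / 10000) (y := 1700 / 10000)
        (by decide +kernel) (by norm_num) (by norm_num) (by push_cast; exact le_rfl) (by norm_num)
      have g2 := gL (be := 7500) (p := 2380) (G := 34652) (x := 1700 / 10000) (y := 2380 / 10000)
        (by decide +kernel) (by norm_num) (by norm_num) (by push_cast; exact le_rfl) (by norm_num)
      have gm := gh_mono (x := 2380 / 10000) (y := xs) (by norm_num) ha (by linarith only [he])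
      unfold lin at h
      push_cast at h g0 g1 g2
      linarith only [g0, g1, g2, gm, h, neg_abs_le (gh x - gh xs)]
    rcases le_total x (1700 / 10000) with hc | hc
    · have h := piP cI5_rr_4_pl2 (by norm_num) hL5c (hS x y hA) (Or.inl rfl)
        (by push_cast; linarith) (by push_cast; linarith only [hc])
      have g0 := gL (be := 7500) (p := 1700) (G := 46286) (x := x) (y := 1700 / 10000)
        (by decide +kernel) (by linarith) hc (by push_cast; exact le_rfl) (by norm_num)
      have g1 := gL (be := 7500) (p := 2380) (G := 34652) (x := 1700 / 10000) (y := 2380 / 10000)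
        (by decide +kernel) (by norm_num) (by norm_num) (by push_cast; exact le_rfl) (by norm_num)
      have gm := gh_mono (x := 2380 / 10000) (y := xs) (by norm_num) ha (by linarith only [he])
      unfold lin at h
      push_cast at h g0 g1
      linarith only [g0, g1, gm, h, neg_abs_le (gh x - gh xs)]
    rcases le_total x (2380 / 10000) with hc | hc
    · have h := piP cI5_rr_4_pl3 (by norm_num) hL5c (hS x y hA) (Or.inl rfl)
        (by push_cast; linarith) (by push_cast; linarith only [hc])
      have g0 := gL (be := 7500) (p := 2380) (G := 34652) (x := x) (y := 2380 / 10000)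
        (by decide +kernel) (by linarith) hc (by push_cast; exact le_rfl) (by norm_num)
      have gm := gh_mono (x := 2380 / 10000) (y := xs) (by norm_num) ha (by linarith only [he])
      unfold lin at h
      push_cast at h g0
      linarith only [g0, gm, h, neg_abs_le (gh x - gh xs)]
    rcases le_total x (2520 / 10000) with hc2 | hc2
    · have h := piP cI5_rr_4_pm (by norm_num) hL5c (hS x y hA) (Or.inl rfl)
        (by push_cast; linarith only [hc]) (by push_cast; linarith only [hc2])
      unfold lin at h
      push_cast at h
      linarith only [h, abs_nonneg (gh x - gh xs)]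
    · have h := piP cI5_rr_4_pr (by norm_num) hL5c (hS x y hA) (Or.inl rfl)
        (by push_cast; linarith only [hc2]) (by push_cast; linarith only [hx1])
      have g0 := gL (be := 7500) (p := 2700) (G := 31411) (x := 2520 / 10000) (y := x)
        (by decide +kernel) (by norm_num) hc2 (by push_cast; linarith only [hx1]) (by norm_num)
      have gm := gh_mono (x := xs) (y := 2520 / 10000) (by linarith only [ha]) he (by norm_num)
      unfold lin at h
      push_cast at h g0
      linarith only [g0, gm, h, le_abs_self (gh x - gh xs)]
  · have hx0 := hA.x0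
    have hx1 := hA.x1
    have gm := gh_mono (x := x) (y := xs) (by linarith only [hx0]) hx.le (by linarith only [he, hx, hx0])
    rcases le_total x (2380 / 10000) with hc | hc
    · have h := piD1 cI5_rr_4_db (by norm_num) hL5c (hS x y hA) (by norm_num) (by norm_num)
        (by push_cast; linarith only [hx0]) (by push_cast; linarith only [hc]) (by push_cast; exact ha)
      have g1 := gU (x := x) (y := xs) ud (by norm_num) (by push_cast; linarith only [hx0]) hx.le (by linarith only [he, hx, hx0])
      have g2 := gU (x := x) (y := 2380 / 10000) ud (by norm_num) (by push_cast; linarith only [hx0]) hc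
        (by norm_num)
      have g3 := gS (u := 2380 / 10000) (v := xs) kc (by norm_num) (by norm_num)
        (by push_cast; exact le_rfl) ha (by push_cast; exact he) hT
      push_cast at h g1 g2 g3
      exact dn_fin (gz := gh (2380 / 10000)) h gm (by unfold lin; push_cast; linarith only [he, hx, hx0, g1])
        (by unfold lin; push_cast; linarith only [g2]) (by linarith only [g3])
    · have h := piD0 cI5_rr_4_da (by norm_num) hL5c (hS x y hA) (by norm_num) (by norm_num)
        (by push_cast; linarith only [hc]) (by push_cast; linarith only [he, hx]) hx.le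
      have g1 := gU (x := x) (y := xs) ua (by norm_num) (by push_cast; linarith only [hc]) hx.le (by linarith only [he, hx, hc])
      have g3 := gS (u := x) (v := xs) kc (by norm_num) (by norm_num)
        (by push_cast; exact hc) hx.le (by push_cast; exact he) hT
      push_cast at h g1 g3
      exact dn_fin (gz := gh x) h gm (by unfold lin; push_cast; linarith only [he, hx, hc, g1])
        (by unfold lin; push_cast; linarith only []) (by linarith only [g3])
  · have hx0 := hA.x0
    have hx1 := hA.x1
    have gm := gh_mono (x := xs) (y := x) (by linarith only [ha, hx, hx1]) hx.le (by linarith only [ha, hx, hx1])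
    have g1 := gU (x := xs) (y := x) ua (by norm_num) (by push_cast; linarith only [ha]) hx.le (by linarith only [ha, hx, hx1])
    rcases le_total x (2520 / 10000) with hc | hc
    · have h := piU0 cI5_rr_4_ua (by norm_num) hL5c (hS x y hA) (by norm_num)
        (by push_cast; linarith only [ha, hx]) (by push_cast; linarith only [hc])
      have g3 := gS (u := xs) (v := x) kc (by norm_num) (by norm_num)
        (by push_cast; exact ha) hx.le (by push_cast; exact hc) hT
      push_cast at h g1 g3
      exact up_fin (gz := gh x) h gm (by unfold lin; push_cast; linarith only [ha, hx, g1, hc])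
        (by unfold lin; push_cast; linarith only []) (by linarith only [g3])
    · have h := piU1 cI5_rr_4_ub (by norm_num) hL5c (hS x y hA) (by norm_num)
        (by push_cast; linarith only [hc]) (by push_cast; linarith only [hx1])
      have g2 := gU (x := 2520 / 10000) (y := x) ue (by norm_num) (by push_cast; exact le_rfl) hc
        (by linarith only [ha, hx, hx1])
      have g3 := gS (u := xs) (v := 2520 / 10000) kc (by norm_num) (by norm_num)
        (by push_cast; exact ha) he (by push_cast; exact le_rfl) hT
      push_cast at h g1 g2 g3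
      exact up_fin (gz := gh (2520 / 10000)) h gm (by unfold lin; push_cast; linarith only [ha, hx, hx1, g1])
        (by unfold lin; push_cast; linarith only [ha, hx, hx1, g2]) (by linarith only [g3])

end RQ

namespace RC

open RQ

theorem I5_rr : RowI (wRr (127 / 1000) (194 / 1000) 0 (725 / 10000)) 5 (6 / 10) (15 / 100) (75 / 100) (10 / 100) (27 / 100) := by
  intro xs s T ρ hW
  have h0 : (1820 / 10000 : ℝ) ≤ xs := le_trans (by norm_num [wRr]) hW.x0
  have h1 : xs ≤ (2520 / 10000 : ℝ) := le_trans hW.x1 (by norm_num [wRr])
  rcases le_total xs (1960 / 10000) with k0 | k0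
  · exact RQ.sI5_rr_0 hW h0 k0
  rcases le_total xs (2100 / 10000) with k1 | k1
  · exact RQ.sI5_rr_1 hW k0 k1
  rcases le_total xs (2240 / 10000) with k2 | k2
  · exact RQ.sI5_rr_2 hW k1 k2
  rcases le_total xs (2380 / 10000) with k3 | k3
  · exact RQ.sI5_rr_3 hW k2 k3
  exact RQ.sI5_rr_4 hW k3 h1

end RC

end Pool.Agent.Work.MP_b30479_gtS.G2

end
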