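import Pool.Agent.Work.MP_b30479_gt.TBS.G2.RRT

section

/-!
# Rings with the ring variable on the ramp: certificates, I5_rs
-/

set_option deprecated.oldSectionVars true

namespace Pool.Agent.Work.MP_b30479_gtS.G2

open NumIs

namespace RQ

theorem cI5_rs_0_pl0 : okB 10000 (tP 5 1 6 10 0 3777 8675 0 0 64005 0 1200)
    0 1580 0 0 40 1000 1200 1570 2045 1500 2500 0 725
    0x1dbb01ec0fb03edd8182ec18182cc18102 = true := by
  decide +kernel

theorem cI5_rs_0_pl1 : okB 10000 (tP 5 1 6 10 0 3777 7635 0 0 55338 0 1200)
    0 1580 0 0 40 1200 1400 1570 2045 1500 2500 0 725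
    0x76ec03b03ec0fb76060b30606083060418102 = true := by
  decide +kernel

theorem cI5_rs_0_pl2 : okB 10000 (tP 5 1 6 10 0 3777 6368 0 0 46286 0 1200)
    0 1580 0 0 40 1400 1700 1570 2045 1500 2500 0 725
    0x1eec03302cd9801e0404302cc780860418103cc181060618103 = true := by
  decide +kernel

theorem cI5_rs_0_pm : okB 10000 (tP 5 1 6 10 0 3777 0 1500 0 0 0 1200)
    0 1580 0 0 40 1700 1837 1570 2045 1500 2500 0 725
    0x660c08f1e0404306020c302 = true := by
  decide +kernel

theorem cI5_rs_0_pr : okB 10000 (tP 5 1 6 10 0 3777 0 7271 31411 0 0 1200)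
    0 1580 0 0 40 1837 2700 1570 2045 1500 2500 0 725
    0x783033c043030c180060608f060c08002 = true := by
  decide +kernel

theorem cI5_rs_0_db : okB 10000 (tD 1 5 1 6 10 0 3777 1270 1700 0 12507 76249 0 0 11463 76249 0 0 1200)
    0 1580 0 0 40 1000 1700 1570 2045 1500 2500 0 725
    0x7b301de7816f020336f4e040030dbc06f060c366001819e0c0c082de9c06f4e0416fde0378007bd3804e9c00203bf782de3c181060031e0218186059b7804e0436f1e040030d9b31e02040060608002 = true := by
  decide +kernel

theorem cI5_rs_0_da : okB 10000 (tD 0 5 1 6 10 0 3777 1270 0 0 7003 46287 0 1500 0 0 0 0 1200)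
    0 1580 0 0 40 1700 1837 1570 2045 1500 2500 0 725
    0x1e0c0c3030c08302 = true := by
  decide +kernel

theorem cI5_rs_0_ua : okB 10000 (tU 0 5 1 6 10 0 3777 567 0 9368 0 0 46287 1500 0 0 0 0 1200)
    0 1580 0 0 40 1700 1837 1570 2045 1500 2500 0 725
    0x1cf810e0c382 = true := by
  decide +kernel

theorem cI5_rs_0_ub : okB 10000 (tU 1 5 1 6 10 0 3777 567 1837 9368 0 0 46287 9433 0 0 43186 0 1200)
    0 1580 0 0 40 1837 2700 1570 2045 1500 2500 0 725
    0x73e043833e1c002 = true := by
  decide +kernel

theorem cI5_rs_1_pl0 : okB 10000 (tP 5 1 6 10 0 3913 9267 0 0 64005 0 1200)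
    0 1580 0 0 40 1000 1200 1570 2045 1500 2500 0 725
    0x1dbb03ec0bb03edd8182ec18182cc18102 = true := by
  decide +kernel

theorem cI5_rs_1_pl1 : okB 10000 (tP 5 1 6 10 0 3913 8227 0 0 55338 0 1200)
    0 1580 0 0 40 1200 1400 1570 2045 1500 2500 0 725
    0x1dbb01ec0bb03edd8182cc181820c18182 = true := by
  decide +kernel

theorem cI5_rs_1_pl2 : okB 10000 (tP 5 1 6 10 0 3913 6960 0 0 46286 0 1200)
    0 1580 0 0 40 1400 1700 1570 2045 1500 2500 0 725
    0x78f00cc0fb2e0678101cc181830d9801e02181820c18102 = true := by
  decide +kernel

theorem cI5_rs_1_pl3 : okB 10000 (tP 5 1 6 10 0 3913 6433 0 0 43185 0 1200)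
    0 1580 0 0 40 1700 1837 1570 2045 1500 2500 0 725
    0x78f01cc0c3030c780860608302 = true := by
  decide +kernel

theorem cI5_rs_1_pm : okB 10000 (tP 5 1 6 10 0 3913 0 1500 0 0 0 1200)
    0 1580 0 0 40 1837 1973 1570 2045 1500 2500 0 725
    0x783020c780830c0c302 = true := by
  decide +kernel

theorem cI5_rs_1_pr : okB 10000 (tP 5 1 6 10 0 3913 0 7698 31411 0 0 1200)
    0 1580 0 0 40 1973 2700 1570 2045 1500 2500 0 725
    0x1e0c0c3033c183030008f060c08002 = true := by
  decide +kernel

theorem cI5_rs_1_db : okB 10000 (tD 1 5 1 6 10 0 3913 1270 1837 0 13544 76249 0 0 12507 76249 0 0 1200)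
    0 1580 0 0 40 1000 1837 1570 2045 1500 2500 0 725
    0x7b303de781010c78082dfbc1e6cc0016f3c09383020036f0c0800f060c31e021818604093a703bc1ef07bd381de0c166cc003023c181010c1818305bf782de0d3a701bc181de9c0e6de00366000810f1e047830608000 = true := by
  decide +kernel

theorem cI5_rs_1_da : okB 10000 (tD 0 5 1 6 10 0 3913 1270 0 0 7021 43186 0 1500 0 0 0 0 1200)
    0 1580 0 0 40 1837 1973 1570 2045 1500 2500 0 725
    0x63c043030c08302 = true := by
  decide +kernel

theorem cI5_rs_1_ua : okB 10000 (tU 0 5 1 6 10 0 3913 703 0 9433 0 0 43186 1500 0 0 0 0 1200)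
    0 1580 0 0 40 1837 1973 1570 2045 1500 2500 0 725
    0x1cf810e0c382 = true := by
  decide +kernel

theorem cI5_rs_1_ub : okB 10000 (tU 1 5 1 6 10 0 3913 703 1973 9433 0 0 43186 9502 0 0 40561 0 1200)
    0 1580 0 0 40 1973 2700 1570 2045 1500 2500 0 725
    0x1cf810e0cf060078102 = true := by
  decide +kernel

theorem cI5_rs_2_pl0 : okB 10000 (tP 5 1 6 10 0 4050 9783 0 0 64005 0 1200)
    0 1580 0 0 40 1000 1200 1570 2045 1500 2500 0 725
    0x1dbb01ec0fb03edd8182ec18182cc18102 = true := by
  decide +kernel

theorem cI5_rs_2_pl1 : okB 10000 (tP 5 1 6 10 0 4050 8743 0 0 55338 0 1200)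
    0 1580 0 0 40 1200 1400 1570 2045 1500 2500 0 725
    0x1dbb00ec0fb03edd8182cc181820c18182 = true := by
  decide +kernel

theorem cI5_rs_2_pl2 : okB 10000 (tP 5 1 6 10 0 4050 7475 0 0 46286 0 1200)
    0 1580 0 0 40 1400 1700 1570 2045 1500 2500 0 725
    0xb9700ec04f02cc78083cc181830d9801e02181820c18102 = true := by
  decide +kernel

theorem cI5_rs_2_pl3 : okB 10000 (tP 5 1 6 10 0 4050 6502 0 0 40560 0 1200)
    0 1580 0 0 40 1700 1973 1570 2045 1500 2500 0 725
    0x78366000c3023c78f0100781010c181830c18082 = true := by
  decide +kernel

theorem cI5_rs_2_pm : okB 10000 (tP 5 1 6 10 0 4050 0 1500 0 0 0 1200)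
    0 1580 0 0 40 1973 2110 1570 2045 1500 2500 0 725
    0x1e0c180830c083030c18102 = true := by
  decide +kernel

theorem cI5_rs_2_pr : okB 10000 (tP 5 1 6 10 0 4050 0 8128 31411 0 0 1200)
    0 1580 0 0 40 2110 2700 1570 2045 1500 2500 0 725
    0x1e0c0c3033c183000c080023c78002 = true := by
  decide +kernel

theorem cI5_rs_2_db : okB 10000 (tD 1 5 1 6 10 0 4050 1270 1973 0 14589 76249 0 0 13544 76249 0 0 1200)
    0 1580 0 0 40 1000 1973 1570 2045 1500 2500 0 725
    0x1e4e013a7009c1010d9806f009c0830dbc00f060c36f0dd8002009c0860c0c1820c7808606181024fbc1ef01bc1efde0378305bd382de0d38f06000ef0dd8002de013811fbc0030c1808606181660c0b7801e3c0830c3c0030008100 = true := by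
  decide +kernel

theorem cI5_rs_2_da : okB 10000 (tD 0 5 1 6 10 0 4050 1270 0 0 7059 40561 0 1500 0 0 0 0 1200)
    0 1580 0 0 40 1973 2110 1570 2045 1500 2500 0 725
    0x18f010c0c302 = true := by
  decide +kernel

theorem cI5_rs_2_ua : okB 10000 (tU 0 5 1 6 10 0 4050 840 0 9502 0 0 40561 1500 0 0 0 0 1200)
    0 1580 0 0 40 1973 2110 1570 2045 1500 2500 0 725
    0x1cf810e0c382 = true := by
  decide +kernel

theorem cI5_rs_2_ub : okB 10000 (tU 1 5 1 6 10 0 4050 840 2110 9502 0 0 40561 9578 0 0 38289 0 1200)
    0 1580 0 0 40 2110 2700 1570 2045 1500 2500 0 725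
    0x1c3003e043833c78082 = true := by
  decide +kernel

theorem cI5_rs_3_pl0 : okB 10000 (tP 5 1 6 10 0 4187 10245 0 0 64005 0 1200)
    0 1580 0 0 40 1000 1200 1570 2045 1500 2500 0 725
    0x76ec057025c0bb7600b8083cc0bb160618103cc18102 = true := by
  decide +kernel

theorem cI5_rs_3_pl1 : okB 10000 (tP 5 1 6 10 0 4187 9205 0 0 55338 0 1200)
    0 1580 0 0 40 1200 1400 1570 2045 1500 2500 0 725
    0x1dbb03ec0fb2e05d8181ecb80f6060bb2e02181820c18182 = true := by
  decide +kernel

theorem cI5_rs_3_pl2 : okB 10000 (tP 5 1 6 10 0 4187 7938 0 0 46286 0 1200)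
    0 1580 0 0 40 1400 1700 1570 2045 1500 2500 0 725
    0xb9700ec0572e020b31e0208302edd80660418106040f30607981060418103 = true := by
  decide +kernel

theorem cI5_rs_3_pl3 : okB 10000 (tP 5 1 6 10 0 4187 6578 0 0 38288 0 1200)
    0 1580 0 0 40 1700 2110 1570 2045 1500 2500 0 725
    0x78366000c3023c78f1e020001e040430600181830c18102 = true := by
  decide +kernel

theorem cI5_rs_3_pm : okB 10000 (tP 5 1 6 10 0 4187 0 1500 0 0 0 1200)
    0 1580 0 0 40 2110 2247 1570 2045 1500 2500 0 725
    0x783030c0c3060608f02 = true := by
  decide +kernel

theorem cI5_rs_3_pr : okB 10000 (tP 5 1 6 10 0 4187 0 8559 31411 0 0 1200)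
    0 1580 0 0 40 2247 2700 1570 2045 1500 2500 0 725
    0x183020c180023c781010c181033c78102 = true := by
  decide +kernel

theorem cI5_rs_3_db : okB 10000 (tD 1 5 1 6 10 0 4187 1270 2110 0 15634 76249 0 0 14589 76249 0 0 1200)
    0 1580 0 0 40 1000 2110 1570 2045 1500 2500 0 725
    0x9d3a7000436601bc027020c36f003c1830d98302df98100009c0861e001820c780860418182dfbc1660c0b7800c0810f1e0878307bf782df98302de00102de3c103009d3824e013a70c3c003040b78f043c782000c080 = true := by
  decide +kernel

theorem cI5_rs_3_da : okB 10000 (tD 0 5 1 6 10 0 4187 1270 0 0 7104 38289 0 1500 0 0 0 0 1200)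
    0 1580 0 0 40 2110 2247 1570 2045 1500 2500 0 725
    0x18f010c0d382 = true := by
  decide +kernel

theorem cI5_rs_3_ua : okB 10000 (tU 0 5 1 6 10 0 4187 977 0 9578 0 0 38289 1500 0 0 0 0 1200)
    0 1580 0 0 40 2110 2247 1570 2045 1500 2500 0 725
    0x1cf810e0c302 = true := by
  decide +kernel

theorem cI5_rs_3_ub : okB 10000 (tU 1 5 1 6 10 0 4187 977 2247 9578 0 0 38289 9661 0 0 36321 0 1200)
    0 1580 0 0 40 2247 2700 1570 2045 1500 2500 0 725
    0x1c3023c780013c083060418103 = true := by
  decide +kernel

theorem cI5_rs_4_pl0 : okB 10000 (tP 5 1 6 10 0 4323 10662 0 0 64005 0 1200)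
    0 1580 0 0 40 1000 1200 1570 2045 1500 2500 0 725
    0x1d9702ec07b03ecb8181edd8183ecb80f6060bb160798102cc18102 = true := by
  decide +kernel

theorem cI5_rs_4_pl1 : okB 10000 (tP 5 1 6 10 0 4323 9622 0 0 55338 0 1200)
    0 1580 0 0 40 1200 1400 1570 2045 1500 2500 0 725
    0x76ec0fb02ec0fb2e07d8181ecb80f6060bb1e02181820c18182 = true := by
  decide +kernel

theorem cI5_rs_4_pl2 : okB 10000 (tP 5 1 6 10 0 4323 8355 0 0 46286 0 1200)
    0 1580 0 0 40 1400 1700 1570 2045 1500 2500 0 725
    0xbbb005c0b366000fb760678101cc181e6ec0c003cc1811e02181820c18102 = true := by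
  decide +kernel

theorem cI5_rs_4_pl3 : okB 10000 (tP 5 1 6 10 0 4323 6661 0 0 36320 0 1200)
    0 1580 0 0 40 1700 2247 1570 2045 1500 2500 0 725
    0x783030c0cf1e00181813d983020798f033c080860c003030600306007808606083060218102 = true := by
  decide +kernel

theorem cI5_rs_4_pm : okB 10000 (tP 5 1 6 10 0 4323 0 1500 0 0 0 1200)
    0 1580 0 0 40 2247 2383 1570 2045 1500 2500 0 725
    0x183030c08f010c0cf02 = true := by
  decide +kernel

theorem cI5_rs_4_pr : okB 10000 (tP 5 1 6 10 0 4323 0 8986 31411 0 0 1200)
    0 1580 0 0 40 2383 2700 1570 2045 1500 2500 0 725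
    0x1e0c0cf023c781010c181033c78102 = true := by
  decide +kernel

theorem cI5_rs_4_db : okB 10000 (tD 1 5 1 6 10 0 4323 1270 2247 0 16671 76249 0 0 15634 76249 0 0 1200)
    0 1580 0 0 40 1000 2247 1570 2045 1500 2500 0 725
    0x270dbc0060c03780020d3a7000430f003c1830c1b306040001e3c18183029c0861e001820c18f0100181860c00102de9c0ef07bd381de007830598302de007834e0431e0c0c0821e0c16fde01381de0f7ef0c3c002043c1a71e0c7830208000 = true := by
  decide +kernel

theorem cI5_rs_4_da : okB 10000 (tD 0 5 1 6 10 0 4323 1270 0 0 7156 36321 0 1500 0 0 0 0 1200)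
    0 1580 0 0 40 2247 2383 1570 2045 1500 2500 0 725
    0x18f010c0d382 = true := by
  decide +kernel

theorem cI5_rs_4_ua : okB 10000 (tU 0 5 1 6 10 0 4323 1113 0 9661 0 0 36321 1500 0 0 0 0 1200)
    0 1580 0 0 40 2247 2383 1570 2045 1500 2500 0 725
    0x1cf810e0cf02 = true := by
  decide +kernel

theorem cI5_rs_4_ub : okB 10000 (tU 1 5 1 6 10 0 4323 1113 2383 9661 0 0 36321 9749 0 0 34618 0 1200)
    0 1580 0 0 40 2383 2700 1570 2045 1500 2500 0 725
    0x783030c0cf023c18182 = true := by
  decide +kernel

theorem cI5_rs_5_pl0 : okB 10000 (tP 5 1 6 10 0 4460 11040 0 0 64005 0 1200)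
    0 1580 0 0 40 1000 1200 1570 2045 1500 2500 0 725
    0x1dbb76eddbb03ec0fb03ec04000ec0fb01ec080760203b02eddbb03000fb760607b02edd8181ec09702ecb80ae03d81f605d8103ec0bb7606b8176ec0c0ae0407b06040bb7607d817605dbb03ec080f60418103 = true := by
  decide +kernel

theorem cI5_rs_5_pl1 : okB 10000 (tP 5 1 6 10 0 4460 10000 0 0 55338 0 1200)
    0 1580 0 0 40 1200 1400 1570 2045 1500 2500 0 725
    0x1dbb015c0bb7607d80ae0403b2e03d8176040f302edd81ae0478101ec581f605d8b03ec080e6040c3060018182 = true := by
  decide +kernel

theorem cI5_rs_5_pl2 : okB 10000 (tP 5 1 6 10 0 4460 8732 0 0 46286 0 1200)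
    0 1580 0 0 40 1400 1700 1570 2045 1500 2500 0 725
    0x765c0b303cc58183edd81f605d81662c0c180cc18106060bb2e04b970007dbb0306b9703cc0c11e0c0c1010c18182 = true := by
  decide +kernel

theorem cI5_rs_5_pl3 : okB 10000 (tP 5 1 6 10 0 4460 6749 0 0 34617 0 1200)
    0 1580 0 0 40 1700 2383 1570 2045 1500 2500 0 725
    0x1e0c0c3023c780e6ec0030206183000400f1e027bb003c0cf0200781013c180020c181e60c0c3020d9800100181060c00103 = true := by
  decide +kernel

theorem cI5_rs_5_pm : okB 10000 (tP 5 1 6 10 0 4460 0 1500 0 0 0 1200)
    0 1580 0 0 40 2383 2520 1570 2045 1500 2500 0 725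
    0x1e0c0c3033c181813c181823c78102 = true := by
  decide +kernel

theorem cI5_rs_5_pr : okB 10000 (tP 5 1 6 10 0 4460 0 9416 31411 0 0 1200)
    0 1580 0 0 40 2520 2700 1570 2045 1500 2500 0 725
    0x79b013c0cf0606781023c78102 = true := by
  decide +kernel

theorem cI5_rs_5_db : okB 10000 (tD 1 5 1 6 10 0 4460 1270 2383 0 17715 76249 0 0 16671 76249 0 0 1200)
    0 1580 0 0 40 1000 2383 1570 2045 1500 2500 0 725
    0x9c30603bf782de000034e9c0010c3c00f060d3ef07bc1ef4e07783000031e3c18780060c783009c08f07bf7824e04783de3c18000093860c08f060404783009c7821e0c783de007830c3c780003c1824e3c780063c7800604002 = true := by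
  decide +kernel

theorem cI5_rs_5_da : okB 10000 (tD 0 5 1 6 10 0 4460 1270 0 0 7224 34618 0 1500 0 0 0 0 1200)
    0 1580 0 0 40 2383 2520 1570 2045 1500 2500 0 725
    0x64e047834e09382 = true := by
  decide +kernel

theorem cI5_rs_5_ua : okB 10000 (tU 0 5 1 6 10 0 4460 1250 0 9749 0 0 34618 1500 0 0 0 0 1200)
    0 1580 0 0 40 2383 2520 1570 2045 1500 2500 0 725
    0x63e08f010c0cf02 = true := by
  decide +kernel

theorem cI5_rs_5_ub : okB 10000 (tU 1 5 1 6 10 0 4460 1250 2520 9749 0 0 34618 9844 0 0 33115 0 1200)
    0 1580 0 0 40 2520 2700 1570 2045 1500 2500 0 725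
    0x1e6c04f023c18103 = true := by
  decide +kernel

end RQ

end Pool.Agent.Work.MP_b30479_gtS.G2

end

section

/-!
# Rings with the ring variable on the ramp: rows `b = 5`, inside, rs
-/

set_option deprecated.oldSectionVars true

namespace Pool.Agent.Work.MP_b30479_gtS.G2

open Real NumIs

namespace RQ

open RC

theorem hL5d : lam 6 10 1 = 6 / 10 := by
  unfold lam
  norm_num

theorem sI5_rs_0 {xs s T ρ : ℝ} (hW : (wRs (127 / 1000) (194 / 1000) 0 (725 / 10000)).In xs s T ρ)
    (ha : 1700 / 10000 ≤ xs) (he : xs ≤ 1837 / 10000) :
    RampOK (6 / 10) (15 / 100) (75 / 100) 5 xs (1 / 2 - s) T ρ (10 / 100) (27 / 100) := by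
  have hN : Nums (wRs (127 / 1000) (194 / 1000) 0 (725 / 10000)) ((5 : ℕ) : ℝ) (1700 / 10000) (1837 / 10000) (10 / 100) (27 / 100)
      5 3777 567 1270 0 1200 1570 2045 1500 725 :=
    ⟨by norm_num, le_rfl, by norm_num, by norm_num, by norm_num, by norm_num, by norm_num [wRs],
      by norm_num, Or.inr (by norm_num [wRs]), by norm_num, by norm_num [wRs], by norm_num [wRs],
      by norm_num, by norm_num [wRs], by norm_num [wRs], by norm_num, by norm_num [wRs],
      fun h => by norm_num at h, by norm_num [wRs]⟩
  have hS : ∀ x y, RC.Adm 5 T ρ (10 / 100) (27 / 100) x y →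
      Sd ((5 : ℕ) : ℝ) 5 3777 567 1270 0 1200 1570 2045 1500 725 xs s T ρ x y :=
    fun x y hA => Sd.of hN hW ha he (by push_cast; exact hA)
  have ht0 : -(10 / 10000 : ℝ) ≤ T := le_trans (by norm_num [wRs]) hW.t0
  have ht1 : T ≤ (465 / 10000 : ℝ) := le_trans hW.t1 (by norm_num [wRs])
  have hT : |T| ≤ ((465 : ℕ) : ℝ) / 10000 := by
    rw [abs_le]
    push_cast
    constructor <;> linarith only [ht0, ht1]
  have kc : kC 7500 1700 1837 465 = true := by decide +kernel
  have ud : kU 7500 1000 76249 = true := by decide +kernel
  have ua : kU 7500 1700 46287 = true := by decide +kernel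
  have ue : kU 7500 1837 43186 = true := by decide +kernel
  refine ⟨fun x y hA => ?_, fun x y hA hx => ?_, fun x y hA hx => ?_⟩
  · have hx0 := hA.x0
    have hx1 := hA.x1
    rcases le_total x (1200 / 10000) with hc | hc
    · have h := piP cI5_rs_0_pl0 (by norm_num) hL5d (hS x y hA) (Or.inl rfl)
        (by push_cast; linarith only [hx0]) (by push_cast; linarith only [hc])
      have g0 := gL (be := 7500) (p := 1200) (G := 64005) (x := x) (y := 1200 / 10000)
        (by decide +kernel) (by linarith only [hx0]) hc (by push_cast; exact le_rfl) (by norm_num)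
      have g1 := gL (be := 7500) (p := 1400) (G := 55338) (x := 1200 / 10000) (y := 1400 / 10000)
        (by decide +kernel) (by norm_num) (by norm_num) (by push_cast; exact le_rfl) (by norm_num)
      have g2 := gL (be := 7500) (p := 1700) (G := 46286) (x := 1400 / 10000) (y := 1700 / 10000)
        (by decide +kernel) (by norm_num) (by norm_num) (by push_cast; exact le_rfl) (by norm_num)
      have gm := gh_mono (x := 1700 / 10000) (y := xs) (by norm_num) ha (by linarith only [he])
      unfold lin at h
      push_cast at h g0 g1 g2
      linarith only [g0, g1, g2, gm, h, neg_abs_le (gh x - gh xs)]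
    rcases le_total x (1400 / 10000) with hc | hc
    · have h := piP cI5_rs_0_pl1 (by norm_num) hL5d (hS x y hA) (Or.inl rfl)
        (by push_cast; linarith) (by push_cast; linarith only [hc])
      have g0 := gL (be := 7500) (p := 1400) (G := 55338) (x := x) (y := 1400 / 10000)
        (by decide +kernel) (by linarith) hc (by push_cast; exact le_rfl) (by norm_num)
      have g1 := gL (be := 7500) (p := 1700) (G := 46286) (x := 1400 / 10000) (y := 1700 / 10000)
        (by decide +kernel) (by norm_num) (by norm_num) (by push_cast; exact le_rfl) (by norm_num)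
      have gm := gh_mono (x := 1700 / 10000) (y := xs) (by norm_num) ha (by linarith only [he])
      unfold lin at h
      push_cast at h g0 g1
      linarith only [g0, g1, gm, h, neg_abs_le (gh x - gh xs)]
    rcases le_total x (1700 / 10000) with hc | hc
    · have h := piP cI5_rs_0_pl2 (by norm_num) hL5d (hS x y hA) (Or.inl rfl)
        (by push_cast; linarith) (by push_cast; linarith only [hc])
      have g0 := gL (be := 7500) (p := 1700) (G := 46286) (x := x) (y := 1700 / 10000)
        (by decide +kernel) (by linarith) hc (by push_cast; exact le_rfl) (by norm_num)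
      have gm := gh_mono (x := 1700 / 10000) (y := xs) (by norm_num) ha (by linarith only [he])
      unfold lin at h
      push_cast at h g0
      linarith only [g0, gm, h, neg_abs_le (gh x - gh xs)]
    rcases le_total x (1837 / 10000) with hc2 | hc2
    · have h := piP cI5_rs_0_pm (by norm_num) hL5d (hS x y hA) (Or.inl rfl)
        (by push_cast; linarith only [hc]) (by push_cast; linarith only [hc2])
      unfold lin at h
      push_cast at h
      linarith only [h, abs_nonneg (gh x - gh xs)]
    · have h := piP cI5_rs_0_pr (by norm_num) hL5d (hS x y hA) (Or.inl rfl)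
        (by push_cast; linarith only [hc2]) (by push_cast; linarith only [hx1])
      have g0 := gL (be := 7500) (p := 2700) (G := 31411) (x := 1837 / 10000) (y := x)
        (by decide +kernel) (by norm_num) hc2 (by push_cast; linarith only [hx1]) (by norm_num)
      have gm := gh_mono (x := xs) (y := 1837 / 10000) (by linarith only [ha]) he (by norm_num)
      unfold lin at h
      push_cast at h g0
      linarith only [g0, gm, h, le_abs_self (gh x - gh xs)]
  · have hx0 := hA.x0
    have hx1 := hA.x1
    have gm := gh_mono (x := x) (y := xs) (by linarith only [hx0]) hx.le (by linarith only [he, hx, hx0])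
    rcases le_total x (1700 / 10000) with hc | hc
    · have h := piD1 cI5_rs_0_db (by norm_num) hL5d (hS x y hA) (by norm_num) (by norm_num)
        (by push_cast; linarith only [hx0]) (by push_cast; linarith only [hc]) (by push_cast; exact ha)
      have g1 := gU (x := x) (y := xs) ud (by norm_num) (by push_cast; linarith only [hx0]) hx.le (by linarith only [he, hx, hx0])
      have g2 := gU (x := x) (y := 1700 / 10000) ud (by norm_num) (by push_cast; linarith only [hx0]) hc
        (by norm_num)
      have g3 := gS (u := 1700 / 10000) (v := xs) kc (by norm_num) (by norm_num)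
        (by push_cast; exact le_rfl) ha (by push_cast; exact he) hT
      push_cast at h g1 g2 g3
      exact dn_fin (gz := gh (1700 / 10000)) h gm (by unfold lin; push_cast; linarith only [he, hx, hx0, g1])
        (by unfold lin; push_cast; linarith only [g2]) (by linarith only [g3])
    · have h := piD0 cI5_rs_0_da (by norm_num) hL5d (hS x y hA) (by norm_num) (by norm_num)
        (by push_cast; linarith only [hc]) (by push_cast; linarith only [he, hx]) hx.le
      have g1 := gU (x := x) (y := xs) ua (by norm_num) (by push_cast; linarith only [hc]) hx.le (by linarith only [he, hx, hc])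
      have g3 := gS (u := x) (v := xs) kc (by norm_num) (by norm_num)
        (by push_cast; exact hc) hx.le (by push_cast; exact he) hT
      push_cast at h g1 g3
      exact dn_fin (gz := gh x) h gm (by unfold lin; push_cast; linarith only [he, hx, hc, g1])
        (by unfold lin; push_cast; linarith only []) (by linarith only [g3])
  · have hx0 := hA.x0
    have hx1 := hA.x1
    have gm := gh_mono (x := xs) (y := x) (by linarith only [ha, hx, hx1]) hx.le (by linarith only [ha, hx, hx1])
    have g1 := gU (x := xs) (y := x) ua (by norm_num) (by push_cast; linarith only [ha]) hx.le (by linarith only [ha, hx, hx1])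
    rcases le_total x (1837 / 10000) with hc | hc
    · have h := piU0 cI5_rs_0_ua (by norm_num) hL5d (hS x y hA) (by norm_num)
        (by push_cast; linarith only [ha, hx]) (by push_cast; linarith only [hc])
      have g3 := gS (u := xs) (v := x) kc (by norm_num) (by norm_num)
        (by push_cast; exact ha) hx.le (by push_cast; exact hc) hT
      push_cast at h g1 g3
      exact up_fin (gz := gh x) h gm (by unfold lin; push_cast; linarith only [ha, hx, g1, hc])
        (by unfold lin; push_cast; linarith only []) (by linarith only [g3])
    · have h := piU1 cI5_rs_0_ub (by norm_num) hL5d (hS x y hA) (by norm_num)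
        (by push_cast; linarith only [hc]) (by push_cast; linarith only [hx1])
      have g2 := gU (x := 1837 / 10000) (y := x) ue (by norm_num) (by push_cast; exact le_rfl) hc
        (by linarith only [ha, hx, hx1])
      have g3 := gS (u := xs) (v := 1837 / 10000) kc (by norm_num) (by norm_num)
        (by push_cast; exact ha) he (by push_cast; exact le_rfl) hT
      push_cast at h g1 g2 g3
      exact up_fin (gz := gh (1837 / 10000)) h gm (by unfold lin; push_cast; linarith only [ha, hx, hx1, g1])
        (by unfold lin; push_cast; linarith only [ha, hx, hx1, g2]) (by linarith only [g3])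

theorem sI5_rs_1 {xs s T ρ : ℝ} (hW : (wRs (127 / 1000) (194 / 1000) 0 (725 / 10000)).In xs s T ρ)
    (ha : 1837 / 10000 ≤ xs) (he : xs ≤ 1973 / 10000) :
    RampOK (6 / 10) (15 / 100) (75 / 100) 5 xs (1 / 2 - s) T ρ (10 / 100) (27 / 100) := by
  have hN : Nums (wRs (127 / 1000) (194 / 1000) 0 (725 / 10000)) ((5 : ℕ) : ℝ) (1837 / 10000) (1973 / 10000) (10 / 100) (27 / 100)
      5 3913 703 1270 0 1200 1570 2045 1500 725 :=
    ⟨by norm_num, le_rfl, by norm_num, by norm_num, by norm_num, by norm_num, by norm_num [wRs],
      by norm_num, Or.inr (by norm_num [wRs]), by norm_num, by norm_num [wRs], by norm_num [wRs],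
      by norm_num, by norm_num [wRs], by norm_num [wRs], by norm_num, by norm_num [wRs],
      fun h => by norm_num at h, by norm_num [wRs]⟩
  have hS : ∀ x y, RC.Adm 5 T ρ (10 / 100) (27 / 100) x y →
      Sd ((5 : ℕ) : ℝ) 5 3913 703 1270 0 1200 1570 2045 1500 725 xs s T ρ x y :=
    fun x y hA => Sd.of hN hW ha he (by push_cast; exact hA)
  have ht0 : -(10 / 10000 : ℝ) ≤ T := le_trans (by norm_num [wRs]) hW.t0
  have ht1 : T ≤ (465 / 10000 : ℝ) := le_trans hW.t1 (by norm_num [wRs])
  have hT : |T| ≤ ((465 : ℕ) : ℝ) / 10000 := by
    rw [abs_le]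
    push_cast
    constructor <;> linarith only [ht0, ht1]
  have kc : kC 7500 1837 1973 465 = true := by decide +kernel
  have ud : kU 7500 1000 76249 = true := by decide +kernel
  have ua : kU 7500 1837 43186 = true := by decide +kernel
  have ue : kU 7500 1973 40561 = true := by decide +kernel
  refine ⟨fun x y hA => ?_, fun x y hA hx => ?_, fun x y hA hx => ?_⟩
  · have hx0 := hA.x0
    have hx1 := hA.x1
    rcases le_total x (1200 / 10000) with hc | hc
    · have h := piP cI5_rs_1_pl0 (by norm_num) hL5d (hS x y hA) (Or.inl rfl)
        (by push_cast; linarith only [hx0]) (by push_cast; linarith only [hc])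
      have g0 := gL (be := 7500) (p := 1200) (G := 64005) (x := x) (y := 1200 / 10000)
        (by decide +kernel) (by linarith only [hx0]) hc (by push_cast; exact le_rfl) (by norm_num)
      have g1 := gL (be := 7500) (p := 1400) (G := 55338) (x := 1200 / 10000) (y := 1400 / 10000)
        (by decide +kernel) (by norm_num) (by norm_num) (by push_cast; exact le_rfl) (by norm_num)
      have g2 := gL (be := 7500) (p := 1700) (G := 46286) (x := 1400 / 10000) (y := 1700 / 10000)
        (by decide +kernel) (by norm_num) (by norm_num) (by push_cast; exact le_rfl) (by norm_num)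
      have g3 := gL (be := 7500) (p := 1837) (G := 43185) (x := 1700 / 10000) (y := 1837 / 10000)
        (by decide +kernel) (by norm_num) (by norm_num) (by push_cast; exact le_rfl) (by norm_num)
      have gm := gh_mono (x := 1837 / 10000) (y := xs) (by norm_num) ha (by linarith only [he])
      unfold lin at h
      push_cast at h g0 g1 g2 g3
      linarith only [g0, g1, g2, g3, gm, h, neg_abs_le (gh x - gh xs)]
    rcases le_total x (1400 / 10000) with hc | hc
    · have h := piP cI5_rs_1_pl1 (by norm_num) hL5d (hS x y hA) (Or.inl rfl)
        (by push_cast; linarith) (by push_cast; linarith only [hc])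
      have g0 := gL (be := 7500) (p := 1400) (G := 55338) (x := x) (y := 1400 / 10000)
        (by decide +kernel) (by linarith) hc (by push_cast; exact le_rfl) (by norm_num)
      have g1 := gL (be := 7500) (p := 1700) (G := 46286) (x := 1400 / 10000) (y := 1700 / 10000)
        (by decide +kernel) (by norm_num) (by norm_num) (by push_cast; exact le_rfl) (by norm_num)
      have g2 := gL (be := 7500) (p := 1837) (G := 43185) (x := 1700 / 10000) (y := 1837 / 10000)
        (by decide +kernel) (by norm_num) (by norm_num) (by push_cast; exact le_rfl) (by norm_num)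
      have gm := gh_mono (x := 1837 / 10000) (y := xs) (by norm_num) ha (by linarith only [he])
      unfold lin at h
      push_cast at h g0 g1 g2
      linarith only [g0, g1, g2, gm, h, neg_abs_le (gh x - gh xs)]
    rcases le_total x (1700 / 10000) with hc | hc
    · have h := piP cI5_rs_1_pl2 (by norm_num) hL5d (hS x y hA) (Or.inl rfl)
        (by push_cast; linarith) (by push_cast; linarith only [hc])
      have g0 := gL (be := 7500) (p := 1700) (G := 46286) (x := x) (y := 1700 / 10000)
        (by decide +kernel) (by linarith) hc (by push_cast; exact le_rfl) (by norm_num)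
      have g1 := gL (be := 7500) (p := 1837) (G := 43185) (x := 1700 / 10000) (y := 1837 / 10000)
        (by decide +kernel) (by norm_num) (by norm_num) (by push_cast; exact le_rfl) (by norm_num)
      have gm := gh_mono (x := 1837 / 10000) (y := xs) (by norm_num) ha (by linarith only [he])
      unfold lin at h
      push_cast at h g0 g1
      linarith only [g0, g1, gm, h, neg_abs_le (gh x - gh xs)]
    rcases le_total x (1837 / 10000) with hc | hc
    · have h := piP cI5_rs_1_pl3 (by norm_num) hL5d (hS x y hA) (Or.inl rfl)
        (by push_cast; linarith) (by push_cast; linarith only [hc])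
      have g0 := gL (be := 7500) (p := 1837) (G := 43185) (x := x) (y := 1837 / 10000)
        (by decide +kernel) (by linarith) hc (by push_cast; exact le_rfl) (by norm_num)
      have gm := gh_mono (x := 1837 / 10000) (y := xs) (by norm_num) ha (by linarith only [he])
      unfold lin at h
      push_cast at h g0
      linarith only [g0, gm, h, neg_abs_le (gh x - gh xs)]
    rcases le_total x (1973 / 10000) with hc2 | hc2
    · have h := piP cI5_rs_1_pm (by norm_num) hL5d (hS x y hA) (Or.inl rfl)
        (by push_cast; linarith only [hc]) (by push_cast; linarith only [hc2])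
      unfold lin at h
      push_cast at h
      linarith only [h, abs_nonneg (gh x - gh xs)]
    · have h := piP cI5_rs_1_pr (by norm_num) hL5d (hS x y hA) (Or.inl rfl)
        (by push_cast; linarith only [hc2]) (by push_cast; linarith only [hx1])
      have g0 := gL (be := 7500) (p := 2700) (G := 31411) (x := 1973 / 10000) (y := x)
        (by decide +kernel) (by norm_num) hc2 (by push_cast; linarith only [hx1]) (by norm_num)
      have gm := gh_mono (x := xs) (y := 1973 / 10000) (by linarith only [ha]) he (by norm_num)
      unfold lin at h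
      push_cast at h g0
      linarith only [g0, gm, h, le_abs_self (gh x - gh xs)]
  · have hx0 := hA.x0
    have hx1 := hA.x1
    have gm := gh_mono (x := x) (y := xs) (by linarith only [hx0]) hx.le (by linarith only [he, hx, hx0])
    rcases le_total x (1837 / 10000) with hc | hc
    · have h := piD1 cI5_rs_1_db (by norm_num) hL5d (hS x y hA) (by norm_num) (by norm_num)
        (by push_cast; linarith only [hx0]) (by push_cast; linarith only [hc]) (by push_cast; exact ha)
      have g1 := gU (x := x) (y := xs) ud (by norm_num) (by push_cast; linarith only [hx0]) hx.le (by linarith only [he, hx, hx0])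
      have g2 := gU (x := x) (y := 1837 / 10000) ud (by norm_num) (by push_cast; linarith only [hx0]) hc
        (by norm_num)
      have g3 := gS (u := 1837 / 10000) (v := xs) kc (by norm_num) (by norm_num)
        (by push_cast; exact le_rfl) ha (by push_cast; exact he) hT
      push_cast at h g1 g2 g3
      exact dn_fin (gz := gh (1837 / 10000)) h gm (by unfold lin; push_cast; linarith only [he, hx, hx0, g1])
        (by unfold lin; push_cast; linarith only [g2]) (by linarith only [g3])
    · have h := piD0 cI5_rs_1_da (by norm_num) hL5d (hS x y hA) (by norm_num) (by norm_num)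
        (by push_cast; linarith only [hc]) (by push_cast; linarith only [he, hx]) hx.le
      have g1 := gU (x := x) (y := xs) ua (by norm_num) (by push_cast; linarith only [hc]) hx.le (by linarith only [he, hx, hc])
      have g3 := gS (u := x) (v := xs) kc (by norm_num) (by norm_num)
        (by push_cast; exact hc) hx.le (by push_cast; exact he) hT
      push_cast at h g1 g3
      exact dn_fin (gz := gh x) h gm (by unfold lin; push_cast; linarith only [he, hx, hc, g1])
        (by unfold lin; push_cast; linarith only []) (by linarith only [g3])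
  · have hx0 := hA.x0
    have hx1 := hA.x1
    have gm := gh_mono (x := xs) (y := x) (by linarith only [ha, hx, hx1]) hx.le (by linarith only [ha, hx, hx1])
    have g1 := gU (x := xs) (y := x) ua (by norm_num) (by push_cast; linarith only [ha]) hx.le (by linarith only [ha, hx, hx1])
    rcases le_total x (1973 / 10000) with hc | hc
    · have h := piU0 cI5_rs_1_ua (by norm_num) hL5d (hS x y hA) (by norm_num)
        (by push_cast; linarith only [ha, hx]) (by push_cast; linarith only [hc])
      have g3 := gS (u := xs) (v := x) kc (by norm_num) (by norm_num)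
        (by push_cast; exact ha) hx.le (by push_cast; exact hc) hT
      push_cast at h g1 g3
      exact up_fin (gz := gh x) h gm (by unfold lin; push_cast; linarith only [ha, hx, g1, hc])
        (by unfold lin; push_cast; linarith only []) (by linarith only [g3])
    · have h := piU1 cI5_rs_1_ub (by norm_num) hL5d (hS x y hA) (by norm_num)
        (by push_cast; linarith only [hc]) (by push_cast; linarith only [hx1])
      have g2 := gU (x := 1973 / 10000) (y := x) ue (by norm_num) (by push_cast; exact le_rfl) hc
        (by linarith only [ha, hx, hx1])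
      have g3 := gS (u := xs) (v := 1973 / 10000) kc (by norm_num) (by norm_num)
        (by push_cast; exact ha) he (by push_cast; exact le_rfl) hT
      push_cast at h g1 g2 g3
      exact up_fin (gz := gh (1973 / 10000)) h gm (by unfold lin; push_cast; linarith only [ha, hx, hx1, g1])
        (by unfold lin; push_cast; linarith only [ha, hx, hx1, g2]) (by linarith only [g3])

theorem sI5_rs_2 {xs s T ρ : ℝ} (hW : (wRs (127 / 1000) (194 / 1000) 0 (725 / 10000)).In xs s T ρ)
    (ha : 1973 / 10000 ≤ xs) (he : xs ≤ 2110 / 10000) :
    RampOK (6 / 10) (15 / 100) (75 / 100) 5 xs (1 / 2 - s) T ρ (10 / 100) (27 / 100) := by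
  have hN : Nums (wRs (127 / 1000) (194 / 1000) 0 (725 / 10000)) ((5 : ℕ) : ℝ) (1973 / 10000) (2110 / 10000) (10 / 100) (27 / 100)
      5 4050 840 1270 0 1200 1570 2045 1500 725 :=
    ⟨by norm_num, le_rfl, by norm_num, by norm_num, by norm_num, by norm_num, by norm_num [wRs],
      by norm_num, Or.inr (by norm_num [wRs]), by norm_num, by norm_num [wRs], by norm_num [wRs],
      by norm_num, by norm_num [wRs], by norm_num [wRs], by norm_num, by norm_num [wRs],
      fun h => by norm_num at h, by norm_num [wRs]⟩
  have hS : ∀ x y, RC.Adm 5 T ρ (10 / 100) (27 / 100) x y →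
      Sd ((5 : ℕ) : ℝ) 5 4050 840 1270 0 1200 1570 2045 1500 725 xs s T ρ x y :=
    fun x y hA => Sd.of hN hW ha he (by push_cast; exact hA)
  have ht0 : -(10 / 10000 : ℝ) ≤ T := le_trans (by norm_num [wRs]) hW.t0
  have ht1 : T ≤ (465 / 10000 : ℝ) := le_trans hW.t1 (by norm_num [wRs])
  have hT : |T| ≤ ((465 : ℕ) : ℝ) / 10000 := by
    rw [abs_le]
    push_cast
    constructor <;> linarith only [ht0, ht1]
  have kc : kC 7500 1973 2110 465 = true := by decide +kernel
  have ud : kU 7500 1000 76249 = true := by decide +kernel
  have ua : kU 7500 1973 40561 = true := by decide +kernel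
  have ue : kU 7500 2110 38289 = true := by decide +kernel
  refine ⟨fun x y hA => ?_, fun x y hA hx => ?_, fun x y hA hx => ?_⟩
  · have hx0 := hA.x0
    have hx1 := hA.x1
    rcases le_total x (1200 / 10000) with hc | hc
    · have h := piP cI5_rs_2_pl0 (by norm_num) hL5d (hS x y hA) (Or.inl rfl)
        (by push_cast; linarith only [hx0]) (by push_cast; linarith only [hc])
      have g0 := gL (be := 7500) (p := 1200) (G := 64005) (x := x) (y := 1200 / 10000)
        (by decide +kernel) (by linarith only [hx0]) hc (by push_cast; exact le_rfl) (by norm_num)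
      have g1 := gL (be := 7500) (p := 1400) (G := 55338) (x := 1200 / 10000) (y := 1400 / 10000)
        (by decide +kernel) (by norm_num) (by norm_num) (by push_cast; exact le_rfl) (by norm_num)
      have g2 := gL (be := 7500) (p := 1700) (G := 46286) (x := 1400 / 10000) (y := 1700 / 10000)
        (by decide +kernel) (by norm_num) (by norm_num) (by push_cast; exact le_rfl) (by norm_num)
      have g3 := gL (be := 7500) (p := 1973) (G := 40560) (x := 1700 / 10000) (y := 1973 / 10000)
        (by decide +kernel) (by norm_num) (by norm_num) (by push_cast; exact le_rfl) (by norm_num)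
      have gm := gh_mono (x := 1973 / 10000) (y := xs) (by norm_num) ha (by linarith only [he])
      unfold lin at h
      push_cast at h g0 g1 g2 g3
      linarith only [g0, g1, g2, g3, gm, h, neg_abs_le (gh x - gh xs)]
    rcases le_total x (1400 / 10000) with hc | hc
    · have h := piP cI5_rs_2_pl1 (by norm_num) hL5d (hS x y hA) (Or.inl rfl)
        (by push_cast; linarith) (by push_cast; linarith only [hc])
      have g0 := gL (be := 7500) (p := 1400) (G := 55338) (x := x) (y := 1400 / 10000)
        (by decide +kernel) (by linarith) hc (by push_cast; exact le_rfl) (by norm_num)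
      have g1 := gL (be := 7500) (p := 1700) (G := 46286) (x := 1400 / 10000) (y := 1700 / 10000)
        (by decide +kernel) (by norm_num) (by norm_num) (by push_cast; exact le_rfl) (by norm_num)
      have g2 := gL (be := 7500) (p := 1973) (G := 40560) (x := 1700 / 10000) (y := 1973 / 10000)
        (by decide +kernel) (by norm_num) (by norm_num) (by push_cast; exact le_rfl) (by norm_num)
      have gm := gh_mono (x := 1973 / 10000) (y := xs) (by norm_num) ha (by linarith only [he])
      unfold lin at h
      push_cast at h g0 g1 g2
      linarith only [g0, g1, g2, gm, h, neg_abs_le (gh x - gh xs)]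
    rcases le_total x (1700 / 10000) with hc | hc
    · have h := piP cI5_rs_2_pl2 (by norm_num) hL5d (hS x y hA) (Or.inl rfl)
        (by push_cast; linarith) (by push_cast; linarith only [hc])
      have g0 := gL (be := 7500) (p := 1700) (G := 46286) (x := x) (y := 1700 / 10000)
        (by decide +kernel) (by linarith) hc (by push_cast; exact le_rfl) (by norm_num)
      have g1 := gL (be := 7500) (p := 1973) (G := 40560) (x := 1700 / 10000) (y := 1973 / 10000)
        (by decide +kernel) (by norm_num) (by norm_num) (by push_cast; exact le_rfl) (by norm_num)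
      have gm := gh_mono (x := 1973 / 10000) (y := xs) (by norm_num) ha (by linarith only [he])
      unfold lin at h
      push_cast at h g0 g1
      linarith only [g0, g1, gm, h, neg_abs_le (gh x - gh xs)]
    rcases le_total x (1973 / 10000) with hc | hc
    · have h := piP cI5_rs_2_pl3 (by norm_num) hL5d (hS x y hA) (Or.inl rfl)
        (by push_cast; linarith) (by push_cast; linarith only [hc])
      have g0 := gL (be := 7500) (p := 1973) (G := 40560) (x := x) (y := 1973 / 10000)
        (by decide +kernel) (by linarith) hc (by push_cast; exact le_rfl) (by norm_num)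
      have gm := gh_mono (x := 1973 / 10000) (y := xs) (by norm_num) ha (by linarith only [he])
      unfold lin at h
      push_cast at h g0
      linarith only [g0, gm, h, neg_abs_le (gh x - gh xs)]
    rcases le_total x (2110 / 10000) with hc2 | hc2
    · have h := piP cI5_rs_2_pm (by norm_num) hL5d (hS x y hA) (Or.inl rfl)
        (by push_cast; linarith only [hc]) (by push_cast; linarith only [hc2])
      unfold lin at h
      push_cast at h
      linarith only [h, abs_nonneg (gh x - gh xs)]
    · have h := piP cI5_rs_2_pr (by norm_num) hL5d (hS x y hA) (Or.inl rfl)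
        (by push_cast; linarith only [hc2]) (by push_cast; linarith only [hx1])
      have g0 := gL (be := 7500) (p := 2700) (G := 31411) (x := 2110 / 10000) (y := x)
        (by decide +kernel) (by norm_num) hc2 (by push_cast; linarith only [hx1]) (by norm_num)
      have gm := gh_mono (x := xs) (y := 2110 / 10000) (by linarith only [ha]) he (by norm_num)
      unfold lin at h
      push_cast at h g0
      linarith only [g0, gm, h, le_abs_self (gh x - gh xs)]
  · have hx0 := hA.x0
    have hx1 := hA.x1
    have gm := gh_mono (x := x) (y := xs) (by linarith only [hx0]) hx.le (by linarith only [he, hx, hx0])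
    rcases le_total x (1973 / 10000) with hc | hc
    · have h := piD1 cI5_rs_2_db (by norm_num) hL5d (hS x y hA) (by norm_num) (by norm_num)
        (by push_cast; linarith only [hx0]) (by push_cast; linarith only [hc]) (by push_cast; exact ha)
      have g1 := gU (x := x) (y := xs) ud (by norm_num) (by push_cast; linarith only [hx0]) hx.le (by linarith only [he, hx, hx0])
      have g2 := gU (x := x) (y := 1973 / 10000) ud (by norm_num) (by push_cast; linarith only [hx0]) hc
        (by norm_num)
      have g3 := gS (u := 1973 / 10000) (v := xs) kc (by norm_num) (by norm_num)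
        (by push_cast; exact le_rfl) ha (by push_cast; exact he) hT
      push_cast at h g1 g2 g3
      exact dn_fin (gz := gh (1973 / 10000)) h gm (by unfold lin; push_cast; linarith only [he, hx, hx0, g1])
        (by unfold lin; push_cast; linarith only [g2]) (by linarith only [g3])
    · have h := piD0 cI5_rs_2_da (by norm_num) hL5d (hS x y hA) (by norm_num) (by norm_num)
        (by push_cast; linarith only [hc]) (by push_cast; linarith only [he, hx]) hx.le
      have g1 := gU (x := x) (y := xs) ua (by norm_num) (by push_cast; linarith only [hc]) hx.le (by linarith only [he, hx, hc])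
      have g3 := gS (u := x) (v := xs) kc (by norm_num) (by norm_num)
        (by push_cast; exact hc) hx.le (by push_cast; exact he) hT
      push_cast at h g1 g3
      exact dn_fin (gz := gh x) h gm (by unfold lin; push_cast; linarith only [he, hx, hc, g1])
        (by unfold lin; push_cast; linarith only []) (by linarith only [g3])
  · have hx0 := hA.x0
    have hx1 := hA.x1
    have gm := gh_mono (x := xs) (y := x) (by linarith only [ha, hx, hx1]) hx.le (by linarith only [ha, hx, hx1])
    have g1 := gU (x := xs) (y := x) ua (by norm_num) (by push_cast; linarith only [ha]) hx.le (by linarith only [ha, hx, hx1])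
    rcases le_total x (2110 / 10000) with hc | hc
    · have h := piU0 cI5_rs_2_ua (by norm_num) hL5d (hS x y hA) (by norm_num)
        (by push_cast; linarith only [ha, hx]) (by push_cast; linarith only [hc])
      have g3 := gS (u := xs) (v := x) kc (by norm_num) (by norm_num)
        (by push_cast; exact ha) hx.le (by push_cast; exact hc) hT
      push_cast at h g1 g3
      exact up_fin (gz := gh x) h gm (by unfold lin; push_cast; linarith only [ha, hx, g1, hc])
        (by unfold lin; push_cast; linarith only []) (by linarith only [g3])
    · have h := piU1 cI5_rs_2_ub (by norm_num) hL5d (hS x y hA) (by norm_num)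
        (by push_cast; linarith only [hc]) (by push_cast; linarith only [hx1])
      have g2 := gU (x := 2110 / 10000) (y := x) ue (by norm_num) (by push_cast; exact le_rfl) hc
        (by linarith only [ha, hx, hx1])
      have g3 := gS (u := xs) (v := 2110 / 10000) kc (by norm_num) (by norm_num)
        (by push_cast; exact ha) he (by push_cast; exact le_rfl) hT
      push_cast at h g1 g2 g3
      exact up_fin (gz := gh (2110 / 10000)) h gm (by unfold lin; push_cast; linarith only [ha, hx, hx1, g1])
        (by unfold lin; push_cast; linarith only [ha, hx, hx1, g2]) (by linarith only [g3])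

theorem sI5_rs_3 {xs s T ρ : ℝ} (hW : (wRs (127 / 1000) (194 / 1000) 0 (725 / 10000)).In xs s T ρ)
    (ha : 2110 / 10000 ≤ xs) (he : xs ≤ 2247 / 10000) :
    RampOK (6 / 10) (15 / 100) (75 / 100) 5 xs (1 / 2 - s) T ρ (10 / 100) (27 / 100) := by
  have hN : Nums (wRs (127 / 1000) (194 / 1000) 0 (725 / 10000)) ((5 : ℕ) : ℝ) (2110 / 10000) (2247 / 10000) (10 / 100) (27 / 100)
      5 4187 977 1270 0 1200 1570 2045 1500 725 :=
    ⟨by norm_num, le_rfl, by norm_num, by norm_num, by norm_num, by norm_num, by norm_num [wRs],
      by norm_num, Or.inr (by norm_num [wRs]), by norm_num, by norm_num [wRs], by norm_num [wRs],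
      by norm_num, by norm_num [wRs], by norm_num [wRs], by norm_num, by norm_num [wRs],
      fun h => by norm_num at h, by norm_num [wRs]⟩
  have hS : ∀ x y, RC.Adm 5 T ρ (10 / 100) (27 / 100) x y →
      Sd ((5 : ℕ) : ℝ) 5 4187 977 1270 0 1200 1570 2045 1500 725 xs s T ρ x y :=
    fun x y hA => Sd.of hN hW ha he (by push_cast; exact hA)
  have ht0 : -(10 / 10000 : ℝ) ≤ T := le_trans (by norm_num [wRs]) hW.t0
  have ht1 : T ≤ (465 / 10000 : ℝ) := le_trans hW.t1 (by norm_num [wRs])
  have hT : |T| ≤ ((465 : ℕ) : ℝ) / 10000 := by
    rw [abs_le]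
    push_cast
    constructor <;> linarith only [ht0, ht1]
  have kc : kC 7500 2110 2247 465 = true := by decide +kernel
  have ud : kU 7500 1000 76249 = true := by decide +kernel
  have ua : kU 7500 2110 38289 = true := by decide +kernel
  have ue : kU 7500 2247 36321 = true := by decide +kernel
  refine ⟨fun x y hA => ?_, fun x y hA hx => ?_, fun x y hA hx => ?_⟩
  · have hx0 := hA.x0
    have hx1 := hA.x1
    rcases le_total x (1200 / 10000) with hc | hc
    · have h := piP cI5_rs_3_pl0 (by norm_num) hL5d (hS x y hA) (Or.inl rfl)
        (by push_cast; linarith only [hx0]) (by push_cast; linarith only [hc])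
      have g0 := gL (be := 7500) (p := 1200) (G := 64005) (x := x) (y := 1200 / 10000)
        (by decide +kernel) (by linarith only [hx0]) hc (by push_cast; exact le_rfl) (by norm_num)
      have g1 := gL (be := 7500) (p := 1400) (G := 55338) (x := 1200 / 10000) (y := 1400 / 10000)
        (by decide +kernel) (by norm_num) (by norm_num) (by push_cast; exact le_rfl) (by norm_num)
      have g2 := gL (be := 7500) (p := 1700) (G := 46286) (x := 1400 / 10000) (y := 1700 / 10000)
        (by decide +kernel) (by norm_num) (by norm_num) (by push_cast; exact le_rfl) (by norm_num)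
      have g3 := gL (be := 7500) (p := 2110) (G := 38288) (x := 1700 / 10000) (y := 2110 / 10000)
        (by decide +kernel) (by norm_num) (by norm_num) (by push_cast; exact le_rfl) (by norm_num)
      have gm := gh_mono (x := 2110 / 10000) (y := xs) (by norm_num) ha (by linarith only [he])
      unfold lin at h
      push_cast at h g0 g1 g2 g3
      linarith only [g0, g1, g2, g3, gm, h, neg_abs_le (gh x - gh xs)]
    rcases le_total x (1400 / 10000) with hc | hc
    · have h := piP cI5_rs_3_pl1 (by norm_num) hL5d (hS x y hA) (Or.inl rfl)
        (by push_cast; linarith) (by push_cast; linarith only [hc])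
      have g0 := gL (be := 7500) (p := 1400) (G := 55338) (x := x) (y := 1400 / 10000)
        (by decide +kernel) (by linarith) hc (by push_cast; exact le_rfl) (by norm_num)
      have g1 := gL (be := 7500) (p := 1700) (G := 46286) (x := 1400 / 10000) (y := 1700 / 10000)
        (by decide +kernel) (by norm_num) (by norm_num) (by push_cast; exact le_rfl) (by norm_num)
      have g2 := gL (be := 7500) (p := 2110) (G := 38288) (x := 1700 / 10000) (y := 2110 / 10000)
        (by decide +kernel) (by norm_num) (by norm_num) (by push_cast; exact le_rfl) (by norm_num)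
      have gm := gh_mono (x := 2110 / 10000) (y := xs) (by norm_num) ha (by linarith only [he])
      unfold lin at h
      push_cast at h g0 g1 g2
      linarith only [g0, g1, g2, gm, h, neg_abs_le (gh x - gh xs)]
    rcases le_total x (1700 / 10000) with hc | hc
    · have h := piP cI5_rs_3_pl2 (by norm_num) hL5d (hS x y hA) (Or.inl rfl)
        (by push_cast; linarith) (by push_cast; linarith only [hc])
      have g0 := gL (be := 7500) (p := 1700) (G := 46286) (x := x) (y := 1700 / 10000)
        (by decide +kernel) (by linarith) hc (by push_cast; exact le_rfl) (by norm_num)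
      have g1 := gL (be := 7500) (p := 2110) (G := 38288) (x := 1700 / 10000) (y := 2110 / 10000)
        (by decide +kernel) (by norm_num) (by norm_num) (by push_cast; exact le_rfl) (by norm_num)
      have gm := gh_mono (x := 2110 / 10000) (y := xs) (by norm_num) ha (by linarith only [he])
      unfold lin at h
      push_cast at h g0 g1
      linarith only [g0, g1, gm, h, neg_abs_le (gh x - gh xs)]
    rcases le_total x (2110 / 10000) with hc | hc
    · have h := piP cI5_rs_3_pl3 (by norm_num) hL5d (hS x y hA) (Or.inl rfl)
        (by push_cast; linarith) (by push_cast; linarith only [hc])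
      have g0 := gL (be := 7500) (p := 2110) (G := 38288) (x := x) (y := 2110 / 10000)
        (by decide +kernel) (by linarith) hc (by push_cast; exact le_rfl) (by norm_num)
      have gm := gh_mono (x := 2110 / 10000) (y := xs) (by norm_num) ha (by linarith only [he])
      unfold lin at h
      push_cast at h g0
      linarith only [g0, gm, h, neg_abs_le (gh x - gh xs)]
    rcases le_total x (2247 / 10000) with hc2 | hc2
    · have h := piP cI5_rs_3_pm (by norm_num) hL5d (hS x y hA) (Or.inl rfl)
        (by push_cast; linarith only [hc]) (by push_cast; linarith only [hc2])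
      unfold lin at h
      push_cast at h
      linarith only [h, abs_nonneg (gh x - gh xs)]
    · have h := piP cI5_rs_3_pr (by norm_num) hL5d (hS x y hA) (Or.inl rfl)
        (by push_cast; linarith only [hc2]) (by push_cast; linarith only [hx1])
      have g0 := gL (be := 7500) (p := 2700) (G := 31411) (x := 2247 / 10000) (y := x)
        (by decide +kernel) (by norm_num) hc2 (by push_cast; linarith only [hx1]) (by norm_num)
      have gm := gh_mono (x := xs) (y := 2247 / 10000) (by linarith only [ha]) he (by norm_num)
      unfold lin at h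
      push_cast at h g0
      linarith only [g0, gm, h, le_abs_self (gh x - gh xs)]
  · have hx0 := hA.x0
    have hx1 := hA.x1
    have gm := gh_mono (x := x) (y := xs) (by linarith only [hx0]) hx.le (by linarith only [he, hx, hx0])
    rcases le_total x (2110 / 10000) with hc | hc
    · have h := piD1 cI5_rs_3_db (by norm_num) hL5d (hS x y hA) (by norm_num) (by norm_num)
        (by push_cast; linarith only [hx0]) (by push_cast; linarith only [hc]) (by push_cast; exact ha)
      have g1 := gU (x := x) (y := xs) ud (by norm_num) (by push_cast; linarith only [hx0]) hx.le (by linarith only [he, hx, hx0])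
      have g2 := gU (x := x) (y := 2110 / 10000) ud (by norm_num) (by push_cast; linarith only [hx0]) hc
        (by norm_num)
      have g3 := gS (u := 2110 / 10000) (v := xs) kc (by norm_num) (by norm_num)
        (by push_cast; exact le_rfl) ha (by push_cast; exact he) hT
      push_cast at h g1 g2 g3
      exact dn_fin (gz := gh (2110 / 10000)) h gm (by unfold lin; push_cast; linarith only [he, hx, hx0, g1])
        (by unfold lin; push_cast; linarith only [g2]) (by linarith only [g3])
    · have h := piD0 cI5_rs_3_da (by norm_num) hL5d (hS x y hA) (by norm_num) (by norm_num)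
        (by push_cast; linarith only [hc]) (by push_cast; linarith only [he, hx]) hx.le
      have g1 := gU (x := x) (y := xs) ua (by norm_num) (by push_cast; linarith only [hc]) hx.le (by linarith only [he, hx, hc])
      have g3 := gS (u := x) (v := xs) kc (by norm_num) (by norm_num)
        (by push_cast; exact hc) hx.le (by push_cast; exact he) hT
      push_cast at h g1 g3
      exact dn_fin (gz := gh x) h gm (by unfold lin; push_cast; linarith only [he, hx, hc, g1])
        (by unfold lin; push_cast; linarith only []) (by linarith only [g3])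
  · have hx0 := hA.x0
    have hx1 := hA.x1
    have gm := gh_mono (x := xs) (y := x) (by linarith only [ha, hx, hx1]) hx.le (by linarith only [ha, hx, hx1])
    have g1 := gU (x := xs) (y := x) ua (by norm_num) (by push_cast; linarith only [ha]) hx.le (by linarith only [ha, hx, hx1])
    rcases le_total x (2247 / 10000) with hc | hc
    · have h := piU0 cI5_rs_3_ua (by norm_num) hL5d (hS x y hA) (by norm_num)
        (by push_cast; linarith only [ha, hx]) (by push_cast; linarith only [hc])
      have g3 := gS (u := xs) (v := x) kc (by norm_num) (by norm_num)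
        (by push_cast; exact ha) hx.le (by push_cast; exact hc) hT
      push_cast at h g1 g3
      exact up_fin (gz := gh x) h gm (by unfold lin; push_cast; linarith only [ha, hx, g1, hc])
        (by unfold lin; push_cast; linarith only []) (by linarith only [g3])
    · have h := piU1 cI5_rs_3_ub (by norm_num) hL5d (hS x y hA) (by norm_num)
        (by push_cast; linarith only [hc]) (by push_cast; linarith only [hx1])
      have g2 := gU (x := 2247 / 10000) (y := x) ue (by norm_num) (by push_cast; exact le_rfl) hc
        (by linarith only [ha, hx, hx1])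
      have g3 := gS (u := xs) (v := 2247 / 10000) kc (by norm_num) (by norm_num)
        (by push_cast; exact ha) he (by push_cast; exact le_rfl) hT
      push_cast at h g1 g2 g3
      exact up_fin (gz := gh (2247 / 10000)) h gm (by unfold lin; push_cast; linarith only [ha, hx, hx1, g1])
        (by unfold lin; push_cast; linarith only [ha, hx, hx1, g2]) (by linarith only [g3])

theorem sI5_rs_4 {xs s T ρ : ℝ} (hW : (wRs (127 / 1000) (194 / 1000) 0 (725 / 10000)).In xs s T ρ)
    (ha : 2247 / 10000 ≤ xs) (he : xs ≤ 2383 / 10000) :
    RampOK (6 / 10) (15 / 100) (75 / 100) 5 xs (1 / 2 - s) T ρ (10 / 100) (27 / 100) := by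
  have hN : Nums (wRs (127 / 1000) (194 / 1000) 0 (725 / 10000)) ((5 : ℕ) : ℝ) (2247 / 10000) (2383 / 10000) (10 / 100) (27 / 100)
      5 4323 1113 1270 0 1200 1570 2045 1500 725 :=
    ⟨by norm_num, le_rfl, by norm_num, by norm_num, by norm_num, by norm_num, by norm_num [wRs],
      by norm_num, Or.inr (by norm_num [wRs]), by norm_num, by norm_num [wRs], by norm_num [wRs],
      by norm_num, by norm_num [wRs], by norm_num [wRs], by norm_num, by norm_num [wRs],
      fun h => by norm_num at h, by norm_num [wRs]⟩
  have hS : ∀ x y, RC.Adm 5 T ρ (10 / 100) (27 / 100) x y →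
      Sd ((5 : ℕ) : ℝ) 5 4323 1113 1270 0 1200 1570 2045 1500 725 xs s T ρ x y :=
    fun x y hA => Sd.of hN hW ha he (by push_cast; exact hA)
  have ht0 : -(10 / 10000 : ℝ) ≤ T := le_trans (by norm_num [wRs]) hW.t0
  have ht1 : T ≤ (465 / 10000 : ℝ) := le_trans hW.t1 (by norm_num [wRs])
  have hT : |T| ≤ ((465 : ℕ) : ℝ) / 10000 := by
    rw [abs_le]
    push_cast
    constructor <;> linarith only [ht0, ht1]
  have kc : kC 7500 2247 2383 465 = true := by decide +kernel
  have ud : kU 7500 1000 76249 = true := by decide +kernel
  have ua : kU 7500 2247 36321 = true := by decide +kernel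
  have ue : kU 7500 2383 34618 = true := by decide +kernel
  refine ⟨fun x y hA => ?_, fun x y hA hx => ?_, fun x y hA hx => ?_⟩
  · have hx0 := hA.x0
    have hx1 := hA.x1
    rcases le_total x (1200 / 10000) with hc | hc
    · have h := piP cI5_rs_4_pl0 (by norm_num) hL5d (hS x y hA) (Or.inl rfl)
        (by push_cast; linarith only [hx0]) (by push_cast; linarith only [hc])
      have g0 := gL (be := 7500) (p := 1200) (G := 64005) (x := x) (y := 1200 / 10000)
        (by decide +kernel) (by linarith only [hx0]) hc (by push_cast; exact le_rfl) (by norm_num)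
      have g1 := gL (be := 7500) (p := 1400) (G := 55338) (x := 1200 / 10000) (y := 1400 / 10000)
        (by decide +kernel) (by norm_num) (by norm_num) (by push_cast; exact le_rfl) (by norm_num)
      have g2 := gL (be := 7500) (p := 1700) (G := 46286) (x := 1400 / 10000) (y := 1700 / 10000)
        (by decide +kernel) (by norm_num) (by norm_num) (by push_cast; exact le_rfl) (by norm_num)
      have g3 := gL (be := 7500) (p := 2247) (G := 36320) (x := 1700 / 10000) (y := 2247 / 10000)
        (by decide +kernel) (by norm_num) (by norm_num) (by push_cast; exact le_rfl) (by norm_num)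
      have gm := gh_mono (x := 2247 / 10000) (y := xs) (by norm_num) ha (by linarith only [he])
      unfold lin at h
      push_cast at h g0 g1 g2 g3
      linarith only [g0, g1, g2, g3, gm, h, neg_abs_le (gh x - gh xs)]
    rcases le_total x (1400 / 10000) with hc | hc
    · have h := piP cI5_rs_4_pl1 (by norm_num) hL5d (hS x y hA) (Or.inl rfl)
        (by push_cast; linarith) (by push_cast; linarith only [hc])
      have g0 := gL (be := 7500) (p := 1400) (G := 55338) (x := x) (y := 1400 / 10000)
        (by decide +kernel) (by linarith) hc (by push_cast; exact le_rfl) (by norm_num)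
      have g1 := gL (be := 7500) (p := 1700) (G := 46286) (x := 1400 / 10000) (y := 1700 / 10000)
        (by decide +kernel) (by norm_num) (by norm_num) (by push_cast; exact le_rfl) (by norm_num)
      have g2 := gL (be := 7500) (p := 2247) (G := 36320) (x := 1700 / 10000) (y := 2247 / 10000)
        (by decide +kernel) (by norm_num) (by norm_num) (by push_cast; exact le_rfl) (by norm_num)
      have gm := gh_mono (x := 2247 / 10000) (y := xs) (by norm_num) ha (by linarith only [he])
      unfold lin at h
      push_cast at h g0 g1 g2
      linarith only [g0, g1, g2, gm, h, neg_abs_le (gh x - gh xs)]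
    rcases le_total x (1700 / 10000) with hc | hc
    · have h := piP cI5_rs_4_pl2 (by norm_num) hL5d (hS x y hA) (Or.inl rfl)
        (by push_cast; linarith) (by push_cast; linarith only [hc])
      have g0 := gL (be := 7500) (p := 1700) (G := 46286) (x := x) (y := 1700 / 10000)
        (by decide +kernel) (by linarith) hc (by push_cast; exact le_rfl) (by norm_num)
      have g1 := gL (be := 7500) (p := 2247) (G := 36320) (x := 1700 / 10000) (y := 2247 / 10000)
        (by decide +kernel) (by norm_num) (by norm_num) (by push_cast; exact le_rfl) (by norm_num)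
      have gm := gh_mono (x := 2247 / 10000) (y := xs) (by norm_num) ha (by linarith only [he])
      unfold lin at h
      push_cast at h g0 g1
      linarith only [g0, g1, gm, h, neg_abs_le (gh x - gh xs)]
    rcases le_total x (2247 / 10000) with hc | hc
    · have h := piP cI5_rs_4_pl3 (by norm_num) hL5d (hS x y hA) (Or.inl rfl)
        (by push_cast; linarith) (by push_cast; linarith only [hc])
      have g0 := gL (be := 7500) (p := 2247) (G := 36320) (x := x) (y := 2247 / 10000)
        (by decide +kernel) (by linarith) hc (by push_cast; exact le_rfl) (by norm_num)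
      have gm := gh_mono (x := 2247 / 10000) (y := xs) (by norm_num) ha (by linarith only [he])
      unfold lin at h
      push_cast at h g0
      linarith only [g0, gm, h, neg_abs_le (gh x - gh xs)]
    rcases le_total x (2383 / 10000) with hc2 | hc2
    · have h := piP cI5_rs_4_pm (by norm_num) hL5d (hS x y hA) (Or.inl rfl)
        (by push_cast; linarith only [hc]) (by push_cast; linarith only [hc2])
      unfold lin at h
      push_cast at h
      linarith only [h, abs_nonneg (gh x - gh xs)]
    · have h := piP cI5_rs_4_pr (by norm_num) hL5d (hS x y hA) (Or.inl rfl)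
        (by push_cast; linarith only [hc2]) (by push_cast; linarith only [hx1])
      have g0 := gL (be := 7500) (p := 2700) (G := 31411) (x := 2383 / 10000) (y := x)
        (by decide +kernel) (by norm_num) hc2 (by push_cast; linarith only [hx1]) (by norm_num)
      have gm := gh_mono (x := xs) (y := 2383 / 10000) (by linarith only [ha]) he (by norm_num)
      unfold lin at h
      push_cast at h g0
      linarith only [g0, gm, h, le_abs_self (gh x - gh xs)]
  · have hx0 := hA.x0
    have hx1 := hA.x1
    have gm := gh_mono (x := x) (y := xs) (by linarith only [hx0]) hx.le (by linarith only [he, hx, hx0])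
    rcases le_total x (2247 / 10000) with hc | hc
    · have h := piD1 cI5_rs_4_db (by norm_num) hL5d (hS x y hA) (by norm_num) (by norm_num)
        (by push_cast; linarith only [hx0]) (by push_cast; linarith only [hc]) (by push_cast; exact ha)
      have g1 := gU (x := x) (y := xs) ud (by norm_num) (by push_cast; linarith only [hx0]) hx.le (by linarith only [he, hx, hx0])
      have g2 := gU (x := x) (y := 2247 / 10000) ud (by norm_num) (by push_cast; linarith only [hx0]) hc
        (by norm_num)
      have g3 := gS (u := 2247 / 10000) (v := xs) kc (by norm_num) (by norm_num)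
        (by push_cast; exact le_rfl) ha (by push_cast; exact he) hT
      push_cast at h g1 g2 g3
      exact dn_fin (gz := gh (2247 / 10000)) h gm (by unfold lin; push_cast; linarith only [he, hx, hx0, g1])
        (by unfold lin; push_cast; linarith only [g2]) (by linarith only [g3])
    · have h := piD0 cI5_rs_4_da (by norm_num) hL5d (hS x y hA) (by norm_num) (by norm_num)
        (by push_cast; linarith only [hc]) (by push_cast; linarith only [he, hx]) hx.le
      have g1 := gU (x := x) (y := xs) ua (by norm_num) (by push_cast; linarith only [hc]) hx.le (by linarith only [he, hx, hc])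
      have g3 := gS (u := x) (v := xs) kc (by norm_num) (by norm_num)
        (by push_cast; exact hc) hx.le (by push_cast; exact he) hT
      push_cast at h g1 g3
      exact dn_fin (gz := gh x) h gm (by unfold lin; push_cast; linarith only [he, hx, hc, g1])
        (by unfold lin; push_cast; linarith only []) (by linarith only [g3])
  · have hx0 := hA.x0
    have hx1 := hA.x1
    have gm := gh_mono (x := xs) (y := x) (by linarith only [ha, hx, hx1]) hx.le (by linarith only [ha, hx, hx1])
    have g1 := gU (x := xs) (y := x) ua (by norm_num) (by push_cast; linarith only [ha]) hx.le (by linarith only [ha, hx, hx1])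
    rcases le_total x (2383 / 10000) with hc | hc
    · have h := piU0 cI5_rs_4_ua (by norm_num) hL5d (hS x y hA) (by norm_num)
        (by push_cast; linarith only [ha, hx]) (by push_cast; linarith only [hc])
      have g3 := gS (u := xs) (v := x) kc (by norm_num) (by norm_num)
        (by push_cast; exact ha) hx.le (by push_cast; exact hc) hT
      push_cast at h g1 g3
      exact up_fin (gz := gh x) h gm (by unfold lin; push_cast; linarith only [ha, hx, g1, hc])
        (by unfold lin; push_cast; linarith only []) (by linarith only [g3])
    · have h := piU1 cI5_rs_4_ub (by norm_num) hL5d (hS x y hA) (by norm_num)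
        (by push_cast; linarith only [hc]) (by push_cast; linarith only [hx1])
      have g2 := gU (x := 2383 / 10000) (y := x) ue (by norm_num) (by push_cast; exact le_rfl) hc
        (by linarith only [ha, hx, hx1])
      have g3 := gS (u := xs) (v := 2383 / 10000) kc (by norm_num) (by norm_num)
        (by push_cast; exact ha) he (by push_cast; exact le_rfl) hT
      push_cast at h g1 g2 g3
      exact up_fin (gz := gh (2383 / 10000)) h gm (by unfold lin; push_cast; linarith only [ha, hx, hx1, g1])
        (by unfold lin; push_cast; linarith only [ha, hx, hx1, g2]) (by linarith only [g3])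

theorem sI5_rs_5 {xs s T ρ : ℝ} (hW : (wRs (127 / 1000) (194 / 1000) 0 (725 / 10000)).In xs s T ρ)
    (ha : 2383 / 10000 ≤ xs) (he : xs ≤ 2520 / 10000) :
    RampOK (6 / 10) (15 / 100) (75 / 100) 5 xs (1 / 2 - s) T ρ (10 / 100) (27 / 100) := by
  have hN : Nums (wRs (127 / 1000) (194 / 1000) 0 (725 / 10000)) ((5 : ℕ) : ℝ) (2383 / 10000) (2520 / 10000) (10 / 100) (27 / 100)
      5 4460 1250 1270 0 1200 1570 2045 1500 725 :=
    ⟨by norm_num, le_rfl, by norm_num, by norm_num, by norm_num, by norm_num, by norm_num [wRs],
      by norm_num, Or.inr (by norm_num [wRs]), by norm_num, by norm_num [wRs], by norm_num [wRs],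
      by norm_num, by norm_num [wRs], by norm_num [wRs], by norm_num, by norm_num [wRs],
      fun h => by norm_num at h, by norm_num [wRs]⟩
  have hS : ∀ x y, RC.Adm 5 T ρ (10 / 100) (27 / 100) x y →
      Sd ((5 : ℕ) : ℝ) 5 4460 1250 1270 0 1200 1570 2045 1500 725 xs s T ρ x y :=
    fun x y hA => Sd.of hN hW ha he (by push_cast; exact hA)
  have ht0 : -(10 / 10000 : ℝ) ≤ T := le_trans (by norm_num [wRs]) hW.t0
  have ht1 : T ≤ (465 / 10000 : ℝ) := le_trans hW.t1 (by norm_num [wRs])
  have hT : |T| ≤ ((465 : ℕ) : ℝ) / 10000 := by
    rw [abs_le]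
    push_cast
    constructor <;> linarith only [ht0, ht1]
  have kc : kC 7500 2383 2520 465 = true := by decide +kernel
  have ud : kU 7500 1000 76249 = true := by decide +kernel
  have ua : kU 7500 2383 34618 = true := by decide +kernel
  have ue : kU 7500 2520 33115 = true := by decide +kernel
  refine ⟨fun x y hA => ?_, fun x y hA hx => ?_, fun x y hA hx => ?_⟩
  · have hx0 := hA.x0
    have hx1 := hA.x1
    rcases le_total x (1200 / 10000) with hc | hc
    · have h := piP cI5_rs_5_pl0 (by norm_num) hL5d (hS x y hA) (Or.inl rfl)
        (by push_cast; linarith only [hx0]) (by push_cast; linarith only [hc])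
      have g0 := gL (be := 7500) (p := 1200) (G := 64005) (x := x) (y := 1200 / 10000)
        (by decide +kernel) (by linarith only [hx0]) hc (by push_cast; exact le_rfl) (by norm_num)
      have g1 := gL (be := 7500) (p := 1400) (G := 55338) (x := 1200 / 10000) (y := 1400 / 10000)
        (by decide +kernel) (by norm_num) (by norm_num) (by push_cast; exact le_rfl) (by norm_num)
      have g2 := gL (be := 7500) (p := 1700) (G := 46286) (x := 1400 / 10000) (y := 1700 / 10000)
        (by decide +kernel) (by norm_num) (by norm_num) (by push_cast; exact le_rfl) (by norm_num)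
      have g3 := gL (be := 7500) (p := 2383) (G := 34617) (x := 1700 / 10000) (y := 2383 / 10000)
        (by decide +kernel) (by norm_num) (by norm_num) (by push_cast; exact le_rfl) (by norm_num)
      have gm := gh_mono (x := 2383 / 10000) (y := xs) (by norm_num) ha (by linarith only [he])
      unfold lin at h
      push_cast at h g0 g1 g2 g3
      linarith only [g0, g1, g2, g3, gm, h, neg_abs_le (gh x - gh xs)]
    rcases le_total x (1400 / 10000) with hc | hc
    · have h := piP cI5_rs_5_pl1 (by norm_num) hL5d (hS x y hA) (Or.inl rfl)
        (by push_cast; linarith) (by push_cast; linarith only [hc])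
      have g0 := gL (be := 7500) (p := 1400) (G := 55338) (x := x) (y := 1400 / 10000)
        (by decide +kernel) (by linarith) hc (by push_cast; exact le_rfl) (by norm_num)
      have g1 := gL (be := 7500) (p := 1700) (G := 46286) (x := 1400 / 10000) (y := 1700 / 10000)
        (by decide +kernel) (by norm_num) (by norm_num) (by push_cast; exact le_rfl) (by norm_num)
      have g2 := gL (be := 7500) (p := 2383) (G := 34617) (x := 1700 / 10000) (y := 2383 / 10000)
        (by decide +kernel) (by norm_num) (by norm_num) (by push_cast; exact le_rfl) (by norm_num)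
      have gm := gh_mono (x := 2383 / 10000) (y := xs) (by norm_num) ha (by linarith only [he])
      unfold lin at h
      push_cast at h g0 g1 g2
      linarith only [g0, g1, g2, gm, h, neg_abs_le (gh x - gh xs)]
    rcases le_total x (1700 / 10000) with hc | hc
    · have h := piP cI5_rs_5_pl2 (by norm_num) hL5d (hS x y hA) (Or.inl rfl)
        (by push_cast; linarith) (by push_cast; linarith only [hc])
      have g0 := gL (be := 7500) (p := 1700) (G := 46286) (x := x) (y := 1700 / 10000)
        (by decide +kernel) (by linarith) hc (by push_cast; exact le_rfl) (by norm_num)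
      have g1 := gL (be := 7500) (p := 2383) (G := 34617) (x := 1700 / 10000) (y := 2383 / 10000)
        (by decide +kernel) (by norm_num) (by norm_num) (by push_cast; exact le_rfl) (by norm_num)
      have gm := gh_mono (x := 2383 / 10000) (y := xs) (by norm_num) ha (by linarith only [he])
      unfold lin at h
      push_cast at h g0 g1
      linarith only [g0, g1, gm, h, neg_abs_le (gh x - gh xs)]
    rcases le_total x (2383 / 10000) with hc | hc
    · have h := piP cI5_rs_5_pl3 (by norm_num) hL5d (hS x y hA) (Or.inl rfl)
        (by push_cast; linarith) (by push_cast; linarith only [hc])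
      have g0 := gL (be := 7500) (p := 2383) (G := 34617) (x := x) (y := 2383 / 10000)
        (by decide +kernel) (by linarith) hc (by push_cast; exact le_rfl) (by norm_num)
      have gm := gh_mono (x := 2383 / 10000) (y := xs) (by norm_num) ha (by linarith only [he])
      unfold lin at h
      push_cast at h g0
      linarith only [g0, gm, h, neg_abs_le (gh x - gh xs)]
    rcases le_total x (2520 / 10000) with hc2 | hc2
    · have h := piP cI5_rs_5_pm (by norm_num) hL5d (hS x y hA) (Or.inl rfl)
        (by push_cast; linarith only [hc]) (by push_cast; linarith only [hc2])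
      unfold lin at h
      push_cast at h
      linarith only [h, abs_nonneg (gh x - gh xs)]
    · have h := piP cI5_rs_5_pr (by norm_num) hL5d (hS x y hA) (Or.inl rfl)
        (by push_cast; linarith only [hc2]) (by push_cast; linarith only [hx1])
      have g0 := gL (be := 7500) (p := 2700) (G := 31411) (x := 2520 / 10000) (y := x)
        (by decide +kernel) (by norm_num) hc2 (by push_cast; linarith only [hx1]) (by norm_num)
      have gm := gh_mono (x := xs) (y := 2520 / 10000) (by linarith only [ha]) he (by norm_num)
      unfold lin at h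
      push_cast at h g0
      linarith only [g0, gm, h, le_abs_self (gh x - gh xs)]
  · have hx0 := hA.x0
    have hx1 := hA.x1
    have gm := gh_mono (x := x) (y := xs) (by linarith only [hx0]) hx.le (by linarith only [he, hx, hx0])
    rcases le_total x (2383 / 10000) with hc | hc
    · have h := piD1 cI5_rs_5_db (by norm_num) hL5d (hS x y hA) (by norm_num) (by norm_num)
        (by push_cast; linarith only [hx0]) (by push_cast; linarith only [hc]) (by push_cast; exact ha)
      have g1 := gU (x := x) (y := xs) ud (by norm_num) (by push_cast; linarith only [hx0]) hx.le (by linarith only [he, hx, hx0])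
      have g2 := gU (x := x) (y := 2383 / 10000) ud (by norm_num) (by push_cast; linarith only [hx0]) hc
        (by norm_num)
      have g3 := gS (u := 2383 / 10000) (v := xs) kc (by norm_num) (by norm_num)
        (by push_cast; exact le_rfl) ha (by push_cast; exact he) hT
      push_cast at h g1 g2 g3
      exact dn_fin (gz := gh (2383 / 10000)) h gm (by unfold lin; push_cast; linarith only [he, hx, hx0, g1])
        (by unfold lin; push_cast; linarith only [g2]) (by linarith only [g3])
    · have h := piD0 cI5_rs_5_da (by norm_num) hL5d (hS x y hA) (by norm_num) (by norm_num)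
        (by push_cast; linarith only [hc]) (by push_cast; linarith only [he, hx]) hx.le
      have g1 := gU (x := x) (y := xs) ua (by norm_num) (by push_cast; linarith only [hc]) hx.le (by linarith only [he, hx, hc])
      have g3 := gS (u := x) (v := xs) kc (by norm_num) (by norm_num)
        (by push_cast; exact hc) hx.le (by push_cast; exact he) hT
      push_cast at h g1 g3
      exact dn_fin (gz := gh x) h gm (by unfold lin; push_cast; linarith only [he, hx, hc, g1])
        (by unfold lin; push_cast; linarith only []) (by linarith only [g3])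
  · have hx0 := hA.x0
    have hx1 := hA.x1
    have gm := gh_mono (x := xs) (y := x) (by linarith only [ha, hx, hx1]) hx.le (by linarith only [ha, hx, hx1])
    have g1 := gU (x := xs) (y := x) ua (by norm_num) (by push_cast; linarith only [ha]) hx.le (by linarith only [ha, hx, hx1])
    rcases le_total x (2520 / 10000) with hc | hc
    · have h := piU0 cI5_rs_5_ua (by norm_num) hL5d (hS x y hA) (by norm_num)
        (by push_cast; linarith only [ha, hx]) (by push_cast; linarith only [hc])
      have g3 := gS (u := xs) (v := x) kc (by norm_num) (by norm_num)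
        (by push_cast; exact ha) hx.le (by push_cast; exact hc) hT
      push_cast at h g1 g3
      exact up_fin (gz := gh x) h gm (by unfold lin; push_cast; linarith only [ha, hx, g1, hc])
        (by unfold lin; push_cast; linarith only []) (by linarith only [g3])
    · have h := piU1 cI5_rs_5_ub (by norm_num) hL5d (hS x y hA) (by norm_num)
        (by push_cast; linarith only [hc]) (by push_cast; linarith only [hx1])
      have g2 := gU (x := 2520 / 10000) (y := x) ue (by norm_num) (by push_cast; exact le_rfl) hc
        (by linarith only [ha, hx, hx1])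
      have g3 := gS (u := xs) (v := 2520 / 10000) kc (by norm_num) (by norm_num)
        (by push_cast; exact ha) he (by push_cast; exact le_rfl) hT
      push_cast at h g1 g2 g3
      exact up_fin (gz := gh (2520 / 10000)) h gm (by unfold lin; push_cast; linarith only [ha, hx, hx1, g1])
        (by unfold lin; push_cast; linarith only [ha, hx, hx1, g2]) (by linarith only [g3])

end RQ

namespace RC

open RQ

theorem I5_rs : RowI (wRs (127 / 1000) (194 / 1000) 0 (725 / 10000)) 5 (6 / 10) (15 / 100) (75 / 100) (10 / 100) (27 / 100) := by
  intro xs s T ρ hW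
  have h0 : (1700 / 10000 : ℝ) ≤ xs := le_trans (by norm_num [wRs]) hW.x0
  have h1 : xs ≤ (2520 / 10000 : ℝ) := le_trans hW.x1 (by norm_num [wRs])
  rcases le_total xs (1837 / 10000) with k0 | k0
  · exact RQ.sI5_rs_0 hW h0 k0
  rcases le_total xs (1973 / 10000) with k1 | k1
  · exact RQ.sI5_rs_1 hW k0 k1
  rcases le_total xs (2110 / 10000) with k2 | k2
  · exact RQ.sI5_rs_2 hW k1 k2
  rcases le_total xs (2247 / 10000) with k3 | k3
  · exact RQ.sI5_rs_3 hW k2 k3
  rcases le_total xs (2383 / 10000) with k4 | k4
  · exact RQ.sI5_rs_4 hW k3 k4
  exact RQ.sI5_rs_5 hW k4 h1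

end RC

end Pool.Agent.Work.MP_b30479_gtS.G2

end
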