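import Pool.Agent.Work.MP_b30479_gt.TBS.G2.RRT

section

/-!
# Rings with the ring variable on the ramp: certificates, I6, E6
-/

set_option deprecated.oldSectionVars true

namespace Pool.Agent.Work.MP_b30479_gtS.G2

open NumIs

namespace RQ

theorem cI6_one_0_pl : okB 10000 (tP 6 1 6 10 0 4240 4017 0 0 20177 0 10000)
    0 1580 0 0 40 1600 2140 0 1200 1666 2500 0 520
    0x660c0fb1e0604f1e0208f02ecb81f65c0c09e9c04f2e000c14e3c0c101 = true := by
  decide +kernel

theorem cI6_one_0_pm : okB 10000 (tP 6 1 6 10 0 4240 0 300 0 0 0 10000)
    0 1580 0 0 40 2140 2560 0 1200 1666 2500 0 520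
    0x7a7013c0db029c7811e073a7039c0c0b63c0c101 = true := by
  decide +kernel

theorem cI6_one_0_pr : okB 10000 (tP 6 1 6 10 0 4240 0 3856 13888 0 0 10000)
    0 1580 0 0 40 2560 3600 0 1200 1666 2500 0 520
    0xd9b016c08f3602d81036c783020609b3e02d81366c05b0206d9b016c09b2602781030605b1e04d8f0302d8f0204f9b037cf81816c78f000608080 = true := by
  decide +kernel

theorem cI6_one_0_db : okB 10000 (tD 1 6 1 6 10 0 4240 1090 2140 0 6378 26085 0 0 5283 26085 0 0 10000)
    0 1580 0 0 40 1600 2140 0 1200 1666 2500 0 520
    0x1beb823c0abef00781013c780a70078103dfbc1d74e0c1573c0816fae0ab82de9c127040c081 = true := by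
  decide +kernel

theorem cI6_one_0_da : okB 10000 (tD 0 6 1 6 10 0 4240 1090 0 0 4866 20178 0 300 0 0 0 0 10000)
    0 1580 0 0 40 2140 2560 0 1200 1666 2500 0 520
    0x1e3d5c0817e0abd7015c13f0404f27055d3837e08083 = true := by
  decide +kernel

theorem cI6_one_0_ua : okB 10000 (tU 0 6 1 6 10 0 4240 1470 0 4618 0 0 20178 300 0 0 0 0 10000)
    0 1580 0 0 40 2140 2560 0 1200 1666 2500 0 520
    0x7a7013c0db029c781ce3c0c0ce3c0c1363c0c101 = true := by
  decide +kernel

theorem cI6_one_0_ub : okB 10000 (tU 1 6 1 6 10 0 4240 1470 2560 4618 0 0 20178 4766 0 0 17446 0 10000)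
    0 1580 0 0 40 2560 3600 0 1200 1666 2500 0 520
    0xfdf807ef813e7c000036cd81be6c0c0807efc03f7c013be00d80030605f3e00f9f26000c1bf7cf80be000c0b66c0df3e06040027cf81be7cf800302d8f1e020c0366c0533e02780030409fbf02fc13f7e05f8202fdf027c09fbf00fc10100fdf80ae02bbf0205fbe00fc0be7e040027c9803f02f9f8104f93024ef81014cf808006081816cd80b604d81363c09b020c7809e040c1bf7e05b1e04d81837efc1bf7e0c0816cf809e3c04f020608080 = true := by
  decide +kernel

theorem cI6_one_1_pl : okB 10000 (tP 6 1 6 10 0 4660 4165 0 0 17445 0 10000)
    0 1580 0 0 40 1600 2560 0 1200 1666 2500 0 520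
    0x1e3c780800c780039c781f63c0c0013c7809e3c040023c781829dd804e047811e3c00302075bb009c0ab1e060e71e0608081 = true := by
  decide +kernel

theorem cI6_one_1_pm : okB 10000 (tP 6 1 6 10 0 4660 0 300 0 0 0 10000)
    0 1580 0 0 40 2560 2980 0 1200 1666 2500 0 520
    0xd9b016cd80813c7809e6c040836cd80860c04f1e02041823c7809e04d8f1e020c082 = true := by
  decide +kernel

theorem cI6_one_1_pr : okB 10000 (tP 6 1 6 10 0 4660 0 4439 13888 0 0 10000)
    0 1580 0 0 40 2980 3600 0 1200 1666 2500 0 520
    0xf9b006c09b3606d81017cf803e04f93020278f013c09b1e04040036c7811e3c04f020609f3e06f9b030159f3e000c0b67c0531e00f808304d9f013c7813e020c101 = true := by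
  decide +kernel

theorem cI6_one_1_db : okB 10000 (tD 1 6 1 6 10 0 4660 1090 2560 0 7474 26085 0 0 6378 26085 0 0 10000)
    0 1580 0 0 40 1600 2560 0 1200 1666 2500 0 520
    0x15cf02ae9c101af5c0d704077a7049c16fae0ab8202013d7023d381069d3a7020400f4e047a70200103 = true := by
  decide +kernel

theorem cI6_one_1_da : okB 10000 (tD 0 6 1 6 10 0 4660 1090 0 0 4899 17446 0 300 0 0 0 0 10000)
    0 1580 0 0 40 2560 2980 0 1200 1666 2500 0 520
    0xfdf817e09fbf06fc101 = true := by
  decide +kernel

theorem cI6_one_1_ua : okB 10000 (tU 0 6 1 6 10 0 4660 1890 0 4766 0 0 17446 300 0 0 0 0 10000)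
    0 1580 0 0 40 2560 2980 0 1200 1666 2500 0 520
    0x363c181036c7819e0c0c1013c7809e0409b1e06f9b0302d9b013c7808304d8f1e020c101 = true := by
  decide +kernel

theorem cI6_one_1_ub : okB 10000 (tU 1 6 1 6 10 0 4660 1890 2980 4766 0 0 17446 4950 0 0 15605 0 10000)
    0 1580 0 0 40 2980 3600 0 1200 1666 2500 0 520
    0xf9f006c01f3600f80b6000df3e4c081be7c080be7c040360c18083000eb3e7c041be7c980037cf818106d9b036cd81810005f3e7c041be7c0c03e7c0df3e06040b63c780836cd81810009b3602d813e3c00f027c7801e0404182acf803e04f80567c01f027c001d67c01b007cf80b6000df3e00d800206f9b027c981037cd8100055dfbf020df3e060ab3e06f813fac0df02020df3e06d9f03040ab5606f9f0306f9f020400081 = true := by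
  decide +kernel

theorem cI6_two_pl : okB 10000 (tP 6 1 6 10 0 4200 3936 0 0 22779 0 1400)
    0 1580 0 0 40 1250 1860 620 1480 1666 2500 0 520
    0x78f01cd980803c08f063c000833c0bb7600781f6ec033030398f030478101 = true := by
  decide +kernel

theorem cI6_two_pm : okB 10000 (tP 6 1 6 10 0 4200 0 300 0 0 0 1400)
    0 1580 0 0 40 1860 2520 620 1480 1666 2500 0 520
    0x1e0c083033c08f4e027819e0478101 = true := by
  decide +kernel

theorem cI6_two_pr : okB 10000 (tP 6 1 6 10 0 4200 0 4215 15532 0 0 1400)
    0 1580 0 0 40 2520 3000 620 1480 1666 2500 0 520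
    0xd9b016c08f1e0278103 = true := by
  decide +kernel

theorem cI6_two_db : okB 10000 (tD 1 6 1 6 10 0 4200 1090 1860 0 7976 32838 0 0 5808 32838 0 0 1400)
    0 1580 0 0 40 1250 1860 620 1480 1666 2500 0 520
    0x1bd3833c09380de7816f00053a7029c0033c9cf03000b7ef03bc11e9c0416f4e0cf0207bf781de0f7a70608001 = true := by
  decide +kernel

theorem cI6_two_da : okB 10000 (tD 0 6 1 6 10 0 4200 1090 0 0 5441 22780 0 300 0 0 0 0 1400)
    0 1580 0 0 40 1860 2520 620 1480 1666 2500 0 520
    0x1e3c043033c08f02afbf780007819e0c0c13f3c00101 = true := by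
  decide +kernel

theorem cI6_two_ua : okB 10000 (tU 0 6 1 6 10 0 4200 1430 0 4537 0 0 22780 300 0 0 0 0 1400)
    0 1580 0 0 40 1860 2520 620 1480 1666 2500 0 520
    0x78f070604f023c7801f067814e3e0cf023c08081 = true := by
  decide +kernel

theorem cI6_two_ub : okB 10000 (tU 1 6 1 6 10 0 4200 1430 2520 4537 0 0 22780 4750 0 0 17661 0 1400)
    0 1580 0 0 40 2520 3000 620 1480 1666 2500 0 520
    0x363c09b1e0604f1e0409b1e06d8f0302d8f030479b013c08101 = true := by
  decide +kernel

theorem cI6_twoE_pl : okB 10000 (tP 6 1 6 10 0 3540 3882 0 0 25503 0 1680)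
    0 1580 0 0 40 1250 1640 270 700 1666 2500 0 520
    0x76ec03b023c0bb060478183 = true := by
  decide +kernel

theorem cI6_twoE_pm : okB 10000 (tP 6 1 6 10 0 3540 0 300 0 0 0 1680)
    0 1580 0 0 40 1640 1860 270 700 1666 2500 0 520
    0x1d8f023c0cf02 = true := by
  decide +kernel

theorem cI6_twoE_pr : okB 10000 (tP 6 1 6 10 0 3540 0 3189 15532 0 0 1680)
    0 1580 0 0 40 1860 3000 270 700 1666 2500 0 520
    0x7a7013c08f4e027811e0400f060678103 = true := by
  decide +kernel

theorem cI6_twoE_db : okB 10000 (tD 1 6 1 6 10 0 3540 1090 1640 0 5808 32838 0 0 5086 32838 0 0 1680)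
    0 1580 0 0 40 1250 1640 270 700 1666 2500 0 520
    0x1dbb760207b023dd8083dfbc1f605bf7ef0007782de080efdfd81010603b1e0478182 = true := by
  decide +kernel

theorem cI6_twoE_da : okB 10000 (tD 0 6 1 6 10 0 3540 1090 0 0 4444 25504 0 300 0 0 0 0 1680)
    0 1580 0 0 40 1640 1860 270 700 1666 2500 0 520
    0x1d8f023c0cf02 = true := by
  decide +kernel

theorem cI6_twoE_ua : okB 10000 (tU 0 6 1 6 10 0 3540 770 0 4482 0 0 25504 300 0 0 0 0 1680)
    0 1580 0 0 40 1640 1860 270 700 1666 2500 0 520
    0x1dd7823e0cf82 = true := by
  decide +kernel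

theorem cI6_twoE_ub : okB 10000 (tU 1 6 1 6 10 0 3540 770 1860 4482 0 0 25504 4537 0 0 22780 0 1680)
    0 1580 0 0 40 1860 3000 270 700 1666 2500 0 520
    0x1f3e7c0800e7c0033e7801f3c00102 = true := by
  decide +kernel

theorem cI6_three_pl : okB 10000 (tP 6 1 6 10 0 4020 3942 0 0 22565 0 1200)
    0 1580 0 0 40 1200 1880 1010 1590 1666 2500 0 520
    0x78f01cc0f36603981803c181820c78082 = true := by
  decide +kernel

theorem cI6_three_pm : okB 10000 (tP 6 1 6 10 0 4020 0 300 0 0 0 1200)
    0 1580 0 0 40 1880 2340 1010 1590 1666 2500 0 520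
    0x783030c18002 = true := by
  decide +kernel

theorem cI6_three_pr : okB 10000 (tP 6 1 6 10 0 4020 0 3935 15532 0 0 1200)
    0 1580 0 0 40 2340 3000 1010 1590 1666 2500 0 520
    0x783033c08f02 = true := by
  decide +kernel

theorem cI6_three_db : okB 10000 (tD 1 6 1 6 10 0 4020 1090 1880 0 7689 34137 0 0 6118 34137 0 0 1200)
    0 1580 0 0 40 1200 1880 1010 1590 1666 2500 0 520
    0x1ede077ef0200f1e0208f023c780860418f01060d39e043c30207bd3824e0c080 = true := by
  decide +kernel

theorem cI6_three_da : okB 10000 (tD 0 6 1 6 10 0 4020 1090 0 0 4981 22566 0 300 0 0 0 0 1200)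
    0 1580 0 0 40 1880 2340 1010 1590 1666 2500 0 520
    0x1e3c043030c18002 = true := by
  decide +kernel

theorem cI6_three_ua : okB 10000 (tU 0 6 1 6 10 0 4020 1250 0 4542 0 0 22566 300 0 0 0 0 1200)
    0 1580 0 0 40 1880 2340 1010 1590 1666 2500 0 520
    0x1f0e0cf87061c101 = true := by
  decide +kernel

theorem cI6_three_ub : okB 10000 (tU 1 6 1 6 10 0 4020 1250 2340 4542 0 0 22566 4684 0 0 18737 0 1200)
    0 1580 0 0 40 2340 3000 1010 1590 1666 2500 0 520
    0xd8f000c180836c181823c78102 = true := by
  decide +kernel

theorem cI6_threeE_pl : okB 10000 (tP 6 1 6 10 0 3630 3899 0 0 24556 0 1200)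
    0 1580 0 0 40 1000 1710 1000 1400 1666 2500 0 520
    0x66ec781003c0cf060608f02 = true := by
  decide +kernel

theorem cI6_threeE_pm : okB 10000 (tP 6 1 6 10 0 3630 0 300 0 0 0 1200)
    0 1580 0 0 40 1710 1950 1000 1400 1666 2500 0 520
    0x78302 = true := by
  decide +kernel

theorem cI6_threeE_pr : okB 10000 (tP 6 1 6 10 0 3630 0 3662 17238 0 0 1200)
    0 1580 0 0 40 1950 2600 1000 1400 1666 2500 0 520
    0x78f02 = true := by
  decide +kernel

theorem cI6_threeE_db : okB 10000 (tD 1 6 1 6 10 0 3630 1090 1710 0 7630 40666 0 0 6654 40666 0 0 1200)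
    0 1580 0 0 40 1000 1710 1000 1400 1666 2500 0 520
    0x66dfbc0803c0cf06060b7a7069c1a7de040003dbcf033c08002 = true := by
  decide +kernel

theorem cI6_threeE_da : okB 10000 (tD 0 6 1 6 10 0 3630 1090 0 0 4489 24557 0 300 0 0 0 0 1200)
    0 1580 0 0 40 1710 1950 1000 1400 1666 2500 0 520
    0x78302 = true := by
  decide +kernel

theorem cI6_threeE_ua : okB 10000 (tU 0 6 1 6 10 0 3630 860 0 4499 0 0 24557 300 0 0 0 0 1200)
    0 1580 0 0 40 1710 1950 1000 1400 1666 2500 0 520
    0x7c382 = true := by
  decide +kernel

theorem cI6_threeE_ub : okB 10000 (tU 1 6 1 6 10 0 3630 860 1950 4499 0 0 24557 4561 0 0 21855 0 1200)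
    0 1580 0 0 40 1950 2600 1000 1400 1666 2500 0 520
    0x7cf02 = true := by
  decide +kernel

theorem cI6_rr_pl : okB 10000 (tP 6 1 6 10 0 4200 3926 0 0 23222 0 1200)
    0 1580 0 0 40 1000 1820 1195 1965 1666 2500 0 520
    0x663c043033d980e6060731e03d970203dbb7601d8080ec0bb2e040731e03d8083019b303cd98081060031e0398f01001b300060831e0218182 = true := by
  decide +kernel

theorem cI6_rr_pm : okB 10000 (tP 6 1 6 10 0 4200 0 300 0 0 0 1200)
    0 1580 0 0 40 1820 2520 1195 1965 1666 2500 0 520
    0x18f013c043030c18102 = true := by
  decide +kernel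

theorem cI6_rr_pr : okB 10000 (tP 6 1 6 10 0 4200 0 4522 16752 0 0 1200)
    0 1580 0 0 40 2520 2700 1195 1965 1666 2500 0 520
    0x1e0c0cf02 = true := by
  decide +kernel

theorem cI6_rr_db : okB 10000 (tD 1 6 1 6 10 0 4200 1090 1820 0 9948 40666 0 0 7102 40666 0 0 1200)
    0 1580 0 0 40 1000 1820 1195 1965 1666 2500 0 520
    0x66de00302df981003dbc0270078f000404306040b7ef067816fde0801e04077ef0c0816fde0806f4e093800203306049c0861e041ef1e0378101bf781001878f003c7800200103 = true := by
  decide +kernel

theorem cI6_rr_da : okB 10000 (tD 0 6 1 6 10 0 4200 1090 0 0 5553 23223 0 300 0 0 0 0 1200)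
    0 1580 0 0 40 1820 2520 1195 1965 1666 2500 0 520
    0x1831e0200f1e020430600083060218103 = true := by
  decide +kernel

theorem cI6_rr_ua : okB 10000 (tU 0 6 1 6 10 0 4200 1430 0 4526 0 0 23223 300 0 0 0 0 1200)
    0 1580 0 0 40 1820 2520 1195 1965 1666 2500 0 520
    0x1cf813e780810e180833c18002 = true := by
  decide +kernel

theorem cI6_rr_ub : okB 10000 (tU 1 6 1 6 10 0 4200 1430 2520 4526 0 0 23223 4750 0 0 17661 0 1200)
    0 1580 0 0 40 2520 2700 1195 1965 1666 2500 0 520
    0x18f013c08f02 = true := by
  decide +kernel

theorem cI6_rs_0_pl : okB 10000 (tP 6 1 6 10 0 3790 3896 0 0 24686 0 1200)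
    0 1580 0 0 40 1000 1700 1570 2045 1666 2500 0 520
    0x660c0b36603981000c083660018103 = true := by
  decide +kernel

theorem cI6_rs_0_pm : okB 10000 (tP 6 1 6 10 0 3790 0 300 0 0 0 1200)
    0 1580 0 0 40 1700 2110 1570 2045 1666 2500 0 520
    0x60c0c302 = true := by
  decide +kernel

theorem cI6_rs_0_pr : okB 10000 (tP 6 1 6 10 0 3790 0 3835 16752 0 0 1200)
    0 1580 0 0 40 2110 2700 1570 2045 1666 2500 0 520
    0x18302 = true := by
  decide +kernel

theorem cI6_rs_0_db : okB 10000 (tD 1 6 1 6 10 0 3790 1090 1700 0 8281 40666 0 0 6614 40666 0 0 1200)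
    0 1580 0 0 40 1000 1700 1570 2045 1666 2500 0 520
    0x19bb020c0b36f01bc0e60400302de9c0ef07bc066de003660008100cc18186041816f0c087ef0400003 = true := by
  decide +kernel

theorem cI6_rs_0_da : okB 10000 (tD 0 6 1 6 10 0 3790 1090 0 0 4909 24687 0 300 0 0 0 0 1200)
    0 1580 0 0 40 1700 2110 1570 2045 1666 2500 0 520
    0x183010c08302 = true := by
  decide +kernel

theorem cI6_rs_0_ua : okB 10000 (tU 0 6 1 6 10 0 3790 1020 0 4496 0 0 24687 300 0 0 0 0 1200)
    0 1580 0 0 40 1700 2110 1570 2045 1666 2500 0 520
    0x1c382 = true := by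
  decide +kernel

theorem cI6_rs_0_ub : okB 10000 (tU 1 6 1 6 10 0 3790 1020 2110 4496 0 0 24687 4608 0 0 20421 0 1200)
    0 1580 0 0 40 2110 2700 1570 2045 1666 2500 0 520
    0x1cf02 = true := by
  decide +kernel

theorem cI6_rs_1_pl : okB 10000 (tP 6 1 6 10 0 4200 4008 0 0 20420 0 1200)
    0 1580 0 0 40 1000 2110 1570 2045 1666 2500 0 520
    0x1b3000c08302cd98086059b301cc0d77600b8101ec080060400366cd981800018103 = true := by
  decide +kernel

theorem cI6_rs_1_pm : okB 10000 (tP 6 1 6 10 0 4200 0 300 0 0 0 1200)
    0 1580 0 0 40 2110 2520 1570 2045 1666 2500 0 520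
    0x18302 = true := by
  decide +kernel

theorem cI6_rs_1_pr : okB 10000 (tP 6 1 6 10 0 4200 0 4522 16752 0 0 1200)
    0 1580 0 0 40 2520 2700 1570 2045 1666 2500 0 520
    0x78302 = true := by
  decide +kernel

theorem cI6_rs_1_db : okB 10000 (tD 1 6 1 6 10 0 4200 1090 2110 0 9948 40666 0 0 8281 40666 0 0 1200)
    0 1580 0 0 40 1000 2110 1570 2045 1666 2500 0 520
    0x18f01de0030600780820dbc302000c30f000c302de3c10f1e0418f07bc78f0008000 = true := by
  decide +kernel

theorem cI6_rs_1_da : okB 10000 (tD 0 6 1 6 10 0 4200 1090 0 0 4847 20421 0 300 0 0 0 0 1200)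
    0 1580 0 0 40 2110 2520 1570 2045 1666 2500 0 520
    0x19382 = true := by
  decide +kernel

theorem cI6_rs_1_ua : okB 10000 (tU 0 6 1 6 10 0 4200 1430 0 4608 0 0 20421 300 0 0 0 0 1200)
    0 1580 0 0 40 2110 2520 1570 2045 1666 2500 0 520
    0x18f82 = true := by
  decide +kernel

theorem cI6_rs_1_ub : okB 10000 (tU 1 6 1 6 10 0 4200 1430 2520 4608 0 0 20421 4750 0 0 17661 0 1200)
    0 1580 0 0 40 2520 2700 1570 2045 1666 2500 0 520
    0x78302 = true := by
  decide +kernel

theorem cE6_one_e : okB 10000 (tP 6 2 5 12 1 4720 0 0 0 0 0 10000)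
    0 1580 0 0 40 2140 2980 0 1200 1666 2500 0 300
    0x343800e02b080158540809c06d0101 = true := by
  decide +kernel

theorem cE6_one_db : okB 10000 (tD 1 6 2 5 12 1 4720 1360 2140 0 0 0 0 0 0 0 0 0 10000)
    0 1580 0 0 40 1600 2140 0 1200 1666 2500 0 300
    0x1c99c400108095ab036c11c0730101 = true := by
  decide +kernel

theorem cE6_one_da : okB 10000 (tD 0 6 2 5 12 1 4720 1360 0 0 0 0 0 0 0 0 0 0 10000)
    0 1580 0 0 40 2140 2980 0 1200 1666 2500 0 300
    0x343800e0256ac004070660004d0101 = true := by
  decide +kernel

theorem cE6_one_ua : okB 10000 (tU 0 6 2 5 12 1 4720 1620 0 0 0 0 0 0 0 0 0 0 10000)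
    0 1580 0 0 40 2140 2980 0 1200 1666 2500 0 300
    0x343800e02b080158540809c06d0101 = true := by
  decide +kernel

theorem cE6_one_ub : okB 10000 (tU 1 6 2 5 12 1 4720 1620 2980 0 0 0 0 0 0 0 0 0 10000)
    0 1580 0 0 40 2980 3600 0 1200 1666 2500 0 300
    0x3498d003404101816809a0280f8042033203600041ce80a800104d1a0204d1a013808181 = true := by
  decide +kernel

theorem cE6_two_e : okB 10000 (tP 6 2 5 12 1 4260 0 0 0 0 0 1400)
    0 1580 0 0 40 1860 2520 620 1480 1666 2500 0 300
    0x1c09300800808203 = true := by
  decide +kernel

theorem cE6_two_db : okB 10000 (tD 1 6 2 5 12 1 4260 1360 1860 0 0 0 0 0 0 0 0 0 1400)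
    0 1580 0 0 40 1250 1860 620 1480 1666 2500 0 300
    0x1c5604e0326ac080380ce02 = true := by
  decide +kernel

theorem cE6_two_da : okB 10000 (tD 0 6 2 5 12 1 4260 1360 0 0 0 0 0 0 0 0 0 0 1400)
    0 1580 0 0 40 1860 2520 620 1480 1666 2500 0 300
    0x1c09300800808203 = true := by
  decide +kernel

theorem cE6_two_ua : okB 10000 (tU 0 6 2 5 12 1 4260 1160 0 0 0 0 0 0 0 0 0 0 1400)
    0 1580 0 0 40 1860 2520 620 1480 1666 2500 0 300
    0x1c09300800808203 = true := by
  decide +kernel

theorem cE6_two_ub : okB 10000 (tU 1 6 2 5 12 1 4260 1160 2520 0 0 0 0 0 0 0 0 0 1400)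
    0 1580 0 0 40 2520 3000 620 1480 1666 2500 0 300
    0xd0e02 = true := by
  decide +kernel

theorem cE6_twoE_e : okB 10000 (tP 6 2 5 12 1 3600 0 0 0 0 0 1680)
    0 1580 0 0 40 1640 1860 270 700 1666 2500 0 300
    0x320c08203 = true := by
  decide +kernel

theorem cE6_twoE_db : okB 10000 (tD 1 6 2 5 12 1 3600 1360 1640 0 0 0 0 0 0 0 0 0 1680)
    0 1580 0 0 40 1250 1640 270 700 1666 2500 0 300
    0x1e9902380ce02 = true := by
  decide +kernel

theorem cE6_twoE_da : okB 10000 (tD 0 6 2 5 12 1 3600 1360 0 0 0 0 0 0 0 0 0 0 1680)
    0 1580 0 0 40 1640 1860 270 700 1666 2500 0 300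
    0x320c08203 = true := by
  decide +kernel

theorem cE6_twoE_ua : okB 10000 (tU 0 6 2 5 12 1 3600 500 0 0 0 0 0 0 0 0 0 0 1680)
    0 1580 0 0 40 1640 1860 270 700 1666 2500 0 300
    0x330a08283 = true := by
  decide +kernel

theorem cE6_twoE_ub : okB 10000 (tU 1 6 2 5 12 1 3600 500 1860 0 0 0 0 0 0 0 0 0 1680)
    0 1580 0 0 40 1860 3000 270 700 1666 2500 0 300
    0x1d3808fab0210180 = true := by
  decide +kernel

theorem cE6_three_e : okB 10000 (tP 6 2 5 12 1 4080 0 0 0 0 0 1200)
    0 1580 0 0 40 1880 2340 1010 1590 1666 2500 0 300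
    0x10200 = true := by
  decide +kernel

theorem cE6_three_db : okB 10000 (tD 1 6 2 5 12 1 4080 1360 1880 0 0 0 0 0 0 0 0 0 1200)
    0 1580 0 0 40 1200 1880 1010 1590 1666 2500 0 300
    0x71480080c202 = true := by
  decide +kernel

theorem cE6_three_da : okB 10000 (tD 0 6 2 5 12 1 4080 1360 0 0 0 0 0 0 0 0 0 0 1200)
    0 1580 0 0 40 1880 2340 1010 1590 1666 2500 0 300
    0x10200 = true := by
  decide +kernel

theorem cE6_three_ua : okB 10000 (tU 0 6 2 5 12 1 4080 980 0 0 0 0 0 0 0 0 0 0 1200)
    0 1580 0 0 40 1880 2340 1010 1590 1666 2500 0 300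
    0x14e81 = true := by
  decide +kernel

theorem cE6_three_ub : okB 10000 (tU 1 6 2 5 12 1 4080 980 2340 0 0 0 0 0 0 0 0 0 1200)
    0 1580 0 0 40 2340 3000 1010 1590 1666 2500 0 300
    0x40808202 = true := by
  decide +kernel

theorem cE6_threeE_e : okB 10000 (tP 6 2 5 12 1 3690 0 0 0 0 0 1200)
    0 1580 0 0 40 1710 1950 1000 1400 1666 2500 0 300
    0x1c = true := by
  decide +kernel

theorem cE6_threeE_db : okB 10000 (tD 1 6 2 5 12 1 3690 1360 1710 0 0 0 0 0 0 0 0 0 1200)
    0 1580 0 0 40 1000 1710 1000 1400 1666 2500 0 300
    0x202601002080ce02 = true := by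
  decide +kernel

theorem cE6_threeE_da : okB 10000 (tD 0 6 2 5 12 1 3690 1360 0 0 0 0 0 0 0 0 0 0 1200)
    0 1580 0 0 40 1710 1950 1000 1400 1666 2500 0 300
    0x1c = true := by
  decide +kernel

theorem cE6_threeE_ua : okB 10000 (tU 0 6 2 5 12 1 3690 590 0 0 0 0 0 0 0 0 0 0 1200)
    0 1580 0 0 40 1710 1950 1000 1400 1666 2500 0 300
    0x5 = true := by
  decide +kernel

theorem cE6_threeE_ub : okB 10000 (tU 1 6 2 5 12 1 3690 590 1950 0 0 0 0 0 0 0 0 0 1200)
    0 1580 0 0 40 1950 2600 1000 1400 1666 2500 0 300
    0x1d = true := by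
  decide +kernel

theorem cE6_rr_e : okB 10000 (tP 6 2 5 12 1 4260 0 0 0 0 0 1200)
    0 1580 0 0 40 1820 2520 1195 1965 1666 2500 0 300
    0x10202 = true := by
  decide +kernel

theorem cE6_rr_db : okB 10000 (tD 1 6 2 5 12 1 4260 1360 1820 0 0 0 0 0 0 0 0 0 1200)
    0 1580 0 0 40 1000 1820 1195 1965 1666 2500 0 300
    0x40800880384c001080c202 = true := by
  decide +kernel

theorem cE6_rr_da : okB 10000 (tD 0 6 2 5 12 1 4260 1360 0 0 0 0 0 0 0 0 0 0 1200)
    0 1580 0 0 40 1820 2520 1195 1965 1666 2500 0 300
    0x10202 = true := by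
  decide +kernel

theorem cE6_rr_ua : okB 10000 (tU 0 6 2 5 12 1 4260 1160 0 0 0 0 0 0 0 0 0 0 1200)
    0 1580 0 0 40 1820 2520 1195 1965 1666 2500 0 300
    0x10202 = true := by
  decide +kernel

theorem cE6_rr_ub : okB 10000 (tU 1 6 2 5 12 1 4260 1160 2520 0 0 0 0 0 0 0 0 0 1200)
    0 1580 0 0 40 2520 2700 1195 1965 1666 2500 0 300
    0x1c = true := by
  decide +kernel

theorem cE6_rs_e : okB 10000 (tP 6 2 5 12 1 4260 0 0 0 0 0 1200)
    0 1580 0 0 40 1700 2520 1570 2045 1666 2500 0 300
    0x10200 = true := by
  decide +kernel

theorem cE6_rs_db : okB 10000 (tD 1 6 2 5 12 1 4260 1360 1700 0 0 0 0 0 0 0 0 0 1200)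
    0 1580 0 0 40 1000 1700 1570 2045 1666 2500 0 300
    0x4c800980080c202 = true := by
  decide +kernel

theorem cE6_rs_da : okB 10000 (tD 0 6 2 5 12 1 4260 1360 0 0 0 0 0 0 0 0 0 0 1200)
    0 1580 0 0 40 1700 2520 1570 2045 1666 2500 0 300
    0x10200 = true := by
  decide +kernel

theorem cE6_rs_ua : okB 10000 (tU 0 6 2 5 12 1 4260 1160 0 0 0 0 0 0 0 0 0 0 1200)
    0 1580 0 0 40 1700 2520 1570 2045 1666 2500 0 300
    0x10200 = true := by
  decide +kernel

theorem cE6_rs_ub : okB 10000 (tU 1 6 2 5 12 1 4260 1160 2520 0 0 0 0 0 0 0 0 0 1200)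
    0 1580 0 0 40 2520 2700 1570 2045 1666 2500 0 300
    0x4 = true := by
  decide +kernel

end RQ

end Pool.Agent.Work.MP_b30479_gtS.G2

end

section

/-!
# Rings with the ring variable on the ramp: the rows `b = 6`
-/

set_option deprecated.oldSectionVars true

namespace Pool.Agent.Work.MP_b30479_gtS.G2

open Real NumIs

namespace RQ

open RC

theorem hL : lam 6 10 1 = 6 / 10 := by
  unfold lam
  norm_num

theorem sI6_one_0 {xs s T ρ : ℝ} (hW : (wOne (109 / 1000) (168 / 1000) 0 (52 / 1000)).In xs s T ρ)
    (ha : 2140 / 10000 ≤ xs) (he : xs ≤ 2560 / 10000) :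
    RampOK (6 / 10) (3 / 100) (4 / 10) 6 xs (1 / 2 - s) T ρ (16 / 100) (36 / 100) := by
  have hN : Nums (wOne (109 / 1000) (168 / 1000) 0 (52 / 1000)) ((6 : ℕ) : ℝ) (2140 / 10000) (2560 / 10000) (16 / 100) (36 / 100)
      6 4240 1470 1090 0 10000 0 1200 1666 520 :=
    ⟨by norm_num, le_rfl, by norm_num, by norm_num, by norm_num, by norm_num, by norm_num [wOne],
      by norm_num, Or.inr (by norm_num [wOne]), by norm_num, by norm_num [wOne],
      by norm_num [wOne], by norm_num, by norm_num [wOne], by norm_num [wOne], by norm_num,
      by norm_num [wOne], fun h => by norm_num at h, by norm_num [wOne]⟩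
  have hS : ∀ x y, RC.Adm 6 T ρ (16 / 100) (36 / 100) x y →
      Sd ((6 : ℕ) : ℝ) 6 4240 1470 1090 0 10000 0 1200 1666 520 xs s T ρ x y :=
    fun x y hA => Sd.of hN hW ha he (by push_cast; exact hA)
  have ht0 : -(1580 / 10000 : ℝ) ≤ T := le_trans (by norm_num [wOne]) hW.t0
  have ht1 : T ≤ -(380 / 10000 : ℝ) := le_trans hW.t1 (by norm_num [wOne])
  have hT : |T| ≤ ((1580 : ℕ) : ℝ) / 10000 := by
    rw [abs_le]
    push_cast
    constructor <;> linarith only [ht0, ht1]
  have kc : kC 4000 2140 2560 1580 = true := by decide +kernel
  have ud : kU 4000 1600 26085 = true := by decide +kernel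
  have ua : kU 4000 2140 20178 = true := by decide +kernel
  have ue : kU 4000 2560 17446 = true := by decide +kernel
  refine ⟨fun x y hA => ?_, fun x y hA hx => ?_, fun x y hA hx => ?_⟩
  · have hx0 := hA.x0
    have hx1 := hA.x1
    rcases le_total x (2140 / 10000) with hc | hc
    · have h := piP cI6_one_0_pl (by norm_num) hL (hS x y hA) (Or.inl rfl)
        (by push_cast; linarith only [hx0]) (by push_cast; linarith only [hc])
      have g0 := gL (be := 4000) (p := 2140) (G := 20177) (x := x) (y := 2140 / 10000)
        (by decide +kernel) (by linarith only [hx0]) hc (by push_cast; exact le_rfl) (by norm_num)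
      have gm := gh_mono (x := 2140 / 10000) (y := xs) (by norm_num) ha (by linarith only [he])
      unfold lin at h
      push_cast at h g0
      linarith only [g0, gm, h, neg_abs_le (gh x - gh xs)]
    rcases le_total x (2560 / 10000) with hc2 | hc2
    · have h := piP cI6_one_0_pm (by norm_num) hL (hS x y hA) (Or.inl rfl)
        (by push_cast; linarith only [hc]) (by push_cast; linarith only [hc2])
      unfold lin at h
      push_cast at h
      linarith only [h, abs_nonneg (gh x - gh xs)]
    · have h := piP cI6_one_0_pr (by norm_num) hL (hS x y hA) (Or.inl rfl)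
        (by push_cast; linarith only [hc2]) (by push_cast; linarith only [hx1])
      have g0 := gL (be := 4000) (p := 3600) (G := 13888) (x := 2560 / 10000) (y := x)
        (by decide +kernel) (by norm_num) hc2 (by push_cast; linarith only [hx1]) (by norm_num)
      have gm := gh_mono (x := xs) (y := 2560 / 10000) (by linarith only [ha]) he (by norm_num)
      unfold lin at h
      push_cast at h g0
      linarith only [g0, gm, h, le_abs_self (gh x - gh xs)]
  · have hx0 := hA.x0
    have hx1 := hA.x1
    have gm := gh_mono (x := x) (y := xs) (by linarith only [hx0]) hx.le (by linarith only [he, hx, hx0])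
    rcases le_total x (2140 / 10000) with hc | hc
    · have h := piD1 cI6_one_0_db (by norm_num) hL (hS x y hA) (by norm_num) (by norm_num)
        (by push_cast; linarith only [hx0]) (by push_cast; linarith only [hc]) (by push_cast; exact ha)
      have g1 := gU (x := x) (y := xs) ud (by norm_num) (by push_cast; linarith only [hx0]) hx.le (by linarith only [he, hx, hx0])
      have g2 := gU (x := x) (y := 2140 / 10000) ud (by norm_num) (by push_cast; linarith only [hx0]) hc
        (by norm_num)
      have g3 := gS (u := 2140 / 10000) (v := xs) kc (by norm_num) (by norm_num)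
        (by push_cast; exact le_rfl) ha (by push_cast; exact he) hT
      push_cast at h g1 g2 g3
      exact dn_fin (gz := gh (2140 / 10000)) h gm (by unfold lin; push_cast; linarith only [he, hx, hx0, g1])
        (by unfold lin; push_cast; linarith only [g2]) (by linarith only [g3])
    · have h := piD0 cI6_one_0_da (by norm_num) hL (hS x y hA) (by norm_num) (by norm_num)
        (by push_cast; linarith only [hc]) (by push_cast; linarith only [he, hx]) hx.le
      have g1 := gU (x := x) (y := xs) ua (by norm_num) (by push_cast; linarith only [hc]) hx.le (by linarith only [he, hx, hc])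
      have g3 := gS (u := x) (v := xs) kc (by norm_num) (by norm_num)
        (by push_cast; exact hc) hx.le (by push_cast; exact he) hT
      push_cast at h g1 g3
      exact dn_fin (gz := gh x) h gm (by unfold lin; push_cast; linarith only [he, hx, hc, g1])
        (by unfold lin; push_cast; linarith only []) (by linarith only [g3])
  · have hx0 := hA.x0
    have hx1 := hA.x1
    have gm := gh_mono (x := xs) (y := x) (by linarith only [ha, hx, hx1]) hx.le (by linarith only [ha, hx, hx1])
    have g1 := gU (x := xs) (y := x) ua (by norm_num) (by push_cast; linarith only [ha]) hx.le (by linarith only [ha, hx, hx1])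
    rcases le_total x (2560 / 10000) with hc | hc
    · have h := piU0 cI6_one_0_ua (by norm_num) hL (hS x y hA) (by norm_num)
        (by push_cast; linarith only [ha, hx]) (by push_cast; linarith only [hc])
      have g3 := gS (u := xs) (v := x) kc (by norm_num) (by norm_num)
        (by push_cast; exact ha) hx.le (by push_cast; exact hc) hT
      push_cast at h g1 g3
      exact up_fin (gz := gh x) h gm (by unfold lin; push_cast; linarith only [ha, hx, g1, hc])
        (by unfold lin; push_cast; linarith only []) (by linarith only [g3])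
    · have h := piU1 cI6_one_0_ub (by norm_num) hL (hS x y hA) (by norm_num)
        (by push_cast; linarith only [hc]) (by push_cast; linarith only [hx1])
      have g2 := gU (x := 2560 / 10000) (y := x) ue (by norm_num) (by push_cast; exact le_rfl) hc
        (by linarith only [ha, hx, hx1])
      have g3 := gS (u := xs) (v := 2560 / 10000) kc (by norm_num) (by norm_num)
        (by push_cast; exact ha) he (by push_cast; exact le_rfl) hT
      push_cast at h g1 g2 g3
      exact up_fin (gz := gh (2560 / 10000)) h gm (by unfold lin; push_cast; linarith only [ha, hx, hx1, g1])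
        (by unfold lin; push_cast; linarith only [ha, hx, hx1, g2]) (by linarith only [g3])

theorem sI6_one_1 {xs s T ρ : ℝ} (hW : (wOne (109 / 1000) (168 / 1000) 0 (52 / 1000)).In xs s T ρ)
    (ha : 2560 / 10000 ≤ xs) (he : xs ≤ 2980 / 10000) :
    RampOK (6 / 10) (3 / 100) (4 / 10) 6 xs (1 / 2 - s) T ρ (16 / 100) (36 / 100) := by
  have hN : Nums (wOne (109 / 1000) (168 / 1000) 0 (52 / 1000)) ((6 : ℕ) : ℝ) (2560 / 10000) (2980 / 10000) (16 / 100) (36 / 100)
      6 4660 1890 1090 0 10000 0 1200 1666 520 :=
    ⟨by norm_num, le_rfl, by norm_num, by norm_num, by norm_num, by norm_num, by norm_num [wOne],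
      by norm_num, Or.inr (by norm_num [wOne]), by norm_num, by norm_num [wOne],
      by norm_num [wOne], by norm_num, by norm_num [wOne], by norm_num [wOne], by norm_num,
      by norm_num [wOne], fun h => by norm_num at h, by norm_num [wOne]⟩
  have hS : ∀ x y, RC.Adm 6 T ρ (16 / 100) (36 / 100) x y →
      Sd ((6 : ℕ) : ℝ) 6 4660 1890 1090 0 10000 0 1200 1666 520 xs s T ρ x y :=
    fun x y hA => Sd.of hN hW ha he (by push_cast; exact hA)
  have ht0 : -(1580 / 10000 : ℝ) ≤ T := le_trans (by norm_num [wOne]) hW.t0
  have ht1 : T ≤ -(380 / 10000 : ℝ) := le_trans hW.t1 (by norm_num [wOne])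
  have hT : |T| ≤ ((1580 : ℕ) : ℝ) / 10000 := by
    rw [abs_le]
    push_cast
    constructor <;> linarith only [ht0, ht1]
  have kc : kC 4000 2560 2980 1580 = true := by decide +kernel
  have ud : kU 4000 1600 26085 = true := by decide +kernel
  have ua : kU 4000 2560 17446 = true := by decide +kernel
  have ue : kU 4000 2980 15605 = true := by decide +kernel
  refine ⟨fun x y hA => ?_, fun x y hA hx => ?_, fun x y hA hx => ?_⟩
  · have hx0 := hA.x0
    have hx1 := hA.x1
    rcases le_total x (2560 / 10000) with hc | hc
    · have h := piP cI6_one_1_pl (by norm_num) hL (hS x y hA) (Or.inl rfl)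
        (by push_cast; linarith only [hx0]) (by push_cast; linarith only [hc])
      have g0 := gL (be := 4000) (p := 2560) (G := 17445) (x := x) (y := 2560 / 10000)
        (by decide +kernel) (by linarith only [hx0]) hc (by push_cast; exact le_rfl) (by norm_num)
      have gm := gh_mono (x := 2560 / 10000) (y := xs) (by norm_num) ha (by linarith only [he])
      unfold lin at h
      push_cast at h g0
      linarith only [g0, gm, h, neg_abs_le (gh x - gh xs)]
    rcases le_total x (2980 / 10000) with hc2 | hc2
    · have h := piP cI6_one_1_pm (by norm_num) hL (hS x y hA) (Or.inl rfl)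
        (by push_cast; linarith only [hc]) (by push_cast; linarith only [hc2])
      unfold lin at h
      push_cast at h
      linarith only [h, abs_nonneg (gh x - gh xs)]
    · have h := piP cI6_one_1_pr (by norm_num) hL (hS x y hA) (Or.inl rfl)
        (by push_cast; linarith only [hc2]) (by push_cast; linarith only [hx1])
      have g0 := gL (be := 4000) (p := 3600) (G := 13888) (x := 2980 / 10000) (y := x)
        (by decide +kernel) (by norm_num) hc2 (by push_cast; linarith only [hx1]) (by norm_num)
      have gm := gh_mono (x := xs) (y := 2980 / 10000) (by linarith only [ha]) he (by norm_num)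
      unfold lin at h
      push_cast at h g0
      linarith only [g0, gm, h, le_abs_self (gh x - gh xs)]
  · have hx0 := hA.x0
    have hx1 := hA.x1
    have gm := gh_mono (x := x) (y := xs) (by linarith only [hx0]) hx.le (by linarith only [he, hx, hx0])
    rcases le_total x (2560 / 10000) with hc | hc
    · have h := piD1 cI6_one_1_db (by norm_num) hL (hS x y hA) (by norm_num) (by norm_num)
        (by push_cast; linarith only [hx0]) (by push_cast; linarith only [hc]) (by push_cast; exact ha)
      have g1 := gU (x := x) (y := xs) ud (by norm_num) (by push_cast; linarith only [hx0]) hx.le (by linarith only [he, hx, hx0])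
      have g2 := gU (x := x) (y := 2560 / 10000) ud (by norm_num) (by push_cast; linarith only [hx0]) hc
        (by norm_num)
      have g3 := gS (u := 2560 / 10000) (v := xs) kc (by norm_num) (by norm_num)
        (by push_cast; exact le_rfl) ha (by push_cast; exact he) hT
      push_cast at h g1 g2 g3
      exact dn_fin (gz := gh (2560 / 10000)) h gm (by unfold lin; push_cast; linarith only [he, hx, hx0, g1])
        (by unfold lin; push_cast; linarith only [g2]) (by linarith only [g3])
    · have h := piD0 cI6_one_1_da (by norm_num) hL (hS x y hA) (by norm_num) (by norm_num)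
        (by push_cast; linarith only [hc]) (by push_cast; linarith only [he, hx]) hx.le
      have g1 := gU (x := x) (y := xs) ua (by norm_num) (by push_cast; linarith only [hc]) hx.le (by linarith only [he, hx, hc])
      have g3 := gS (u := x) (v := xs) kc (by norm_num) (by norm_num)
        (by push_cast; exact hc) hx.le (by push_cast; exact he) hT
      push_cast at h g1 g3
      exact dn_fin (gz := gh x) h gm (by unfold lin; push_cast; linarith only [he, hx, hc, g1])
        (by unfold lin; push_cast; linarith only []) (by linarith only [g3])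
  · have hx0 := hA.x0
    have hx1 := hA.x1
    have gm := gh_mono (x := xs) (y := x) (by linarith only [ha, hx, hx1]) hx.le (by linarith only [ha, hx, hx1])
    have g1 := gU (x := xs) (y := x) ua (by norm_num) (by push_cast; linarith only [ha]) hx.le (by linarith only [ha, hx, hx1])
    rcases le_total x (2980 / 10000) with hc | hc
    · have h := piU0 cI6_one_1_ua (by norm_num) hL (hS x y hA) (by norm_num)
        (by push_cast; linarith only [ha, hx]) (by push_cast; linarith only [hc])
      have g3 := gS (u := xs) (v := x) kc (by norm_num) (by norm_num)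
        (by push_cast; exact ha) hx.le (by push_cast; exact hc) hT
      push_cast at h g1 g3
      exact up_fin (gz := gh x) h gm (by unfold lin; push_cast; linarith only [ha, hx, g1, hc])
        (by unfold lin; push_cast; linarith only []) (by linarith only [g3])
    · have h := piU1 cI6_one_1_ub (by norm_num) hL (hS x y hA) (by norm_num)
        (by push_cast; linarith only [hc]) (by push_cast; linarith only [hx1])
      have g2 := gU (x := 2980 / 10000) (y := x) ue (by norm_num) (by push_cast; exact le_rfl) hc
        (by linarith only [ha, hx, hx1])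
      have g3 := gS (u := xs) (v := 2980 / 10000) kc (by norm_num) (by norm_num)
        (by push_cast; exact ha) he (by push_cast; exact le_rfl) hT
      push_cast at h g1 g2 g3
      exact up_fin (gz := gh (2980 / 10000)) h gm (by unfold lin; push_cast; linarith only [ha, hx, hx1, g1])
        (by unfold lin; push_cast; linarith only [ha, hx, hx1, g2]) (by linarith only [g3])

theorem sI6_two {xs s T ρ : ℝ} (hW : (wTwo (109 / 1000) (168 / 1000) 0 (52 / 1000)).In xs s T ρ)
    (ha : 1860 / 10000 ≤ xs) (he : xs ≤ 2520 / 10000) :
    RampOK (6 / 10) (3 / 100) (4 / 10) 6 xs (1 / 2 - s) T ρ (125 / 1000) (30 / 100) := by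
  have hN : Nums (wTwo (109 / 1000) (168 / 1000) 0 (52 / 1000)) ((6 : ℕ) : ℝ) (1860 / 10000) (2520 / 10000) (125 / 1000) (30 / 100)
      6 4200 1430 1090 0 1400 620 1480 1666 520 :=
    ⟨by norm_num, le_rfl, by norm_num, by norm_num, by norm_num, by norm_num, by norm_num [wTwo],
      by norm_num, Or.inr (by norm_num [wTwo]), by norm_num, by norm_num [wTwo],
      by norm_num [wTwo], by norm_num, by norm_num [wTwo], by norm_num [wTwo], by norm_num,
      by norm_num [wTwo], fun h => by norm_num at h, by norm_num [wTwo]⟩
  have hS : ∀ x y, RC.Adm 6 T ρ (125 / 1000) (30 / 100) x y →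
      Sd ((6 : ℕ) : ℝ) 6 4200 1430 1090 0 1400 620 1480 1666 520 xs s T ρ x y :=
    fun x y hA => Sd.of hN hW ha he (by push_cast; exact hA)
  have ht0 : -(960 / 10000 : ℝ) ≤ T := le_trans (by norm_num [wTwo]) hW.t0
  have ht1 : T ≤ -(100 / 10000 : ℝ) := le_trans hW.t1 (by norm_num [wTwo])
  have hT : |T| ≤ ((960 : ℕ) : ℝ) / 10000 := by
    rw [abs_le]
    push_cast
    constructor <;> linarith only [ht0, ht1]
  have kc : kC 4000 1860 2520 960 = true := by decide +kernel
  have ud : kU 4000 1250 32838 = true := by decide +kernel
  have ua : kU 4000 1860 22780 = true := by decide +kernel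
  have ue : kU 4000 2520 17661 = true := by decide +kernel
  refine ⟨fun x y hA => ?_, fun x y hA hx => ?_, fun x y hA hx => ?_⟩
  · have hx0 := hA.x0
    have hx1 := hA.x1
    rcases le_total x (1860 / 10000) with hc | hc
    · have h := piP cI6_two_pl (by norm_num) hL (hS x y hA) (Or.inl rfl)
        (by push_cast; linarith only [hx0]) (by push_cast; linarith only [hc])
      have g0 := gL (be := 4000) (p := 1860) (G := 22779) (x := x) (y := 1860 / 10000)
        (by decide +kernel) (by linarith only [hx0]) hc (by push_cast; exact le_rfl) (by norm_num)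
      have gm := gh_mono (x := 1860 / 10000) (y := xs) (by norm_num) ha (by linarith only [he])
      unfold lin at h
      push_cast at h g0
      linarith only [g0, gm, h, neg_abs_le (gh x - gh xs)]
    rcases le_total x (2520 / 10000) with hc2 | hc2
    · have h := piP cI6_two_pm (by norm_num) hL (hS x y hA) (Or.inl rfl)
        (by push_cast; linarith only [hc]) (by push_cast; linarith only [hc2])
      unfold lin at h
      push_cast at h
      linarith only [h, abs_nonneg (gh x - gh xs)]
    · have h := piP cI6_two_pr (by norm_num) hL (hS x y hA) (Or.inl rfl)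
        (by push_cast; linarith only [hc2]) (by push_cast; linarith only [hx1])
      have g0 := gL (be := 4000) (p := 3000) (G := 15532) (x := 2520 / 10000) (y := x)
        (by decide +kernel) (by norm_num) hc2 (by push_cast; linarith only [hx1]) (by norm_num)
      have gm := gh_mono (x := xs) (y := 2520 / 10000) (by linarith only [ha]) he (by norm_num)
      unfold lin at h
      push_cast at h g0
      linarith only [g0, gm, h, le_abs_self (gh x - gh xs)]
  · have hx0 := hA.x0
    have hx1 := hA.x1
    have gm := gh_mono (x := x) (y := xs) (by linarith only [hx0]) hx.le (by linarith only [he, hx, hx0])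
    rcases le_total x (1860 / 10000) with hc | hc
    · have h := piD1 cI6_two_db (by norm_num) hL (hS x y hA) (by norm_num) (by norm_num)
        (by push_cast; linarith only [hx0]) (by push_cast; linarith only [hc]) (by push_cast; exact ha)
      have g1 := gU (x := x) (y := xs) ud (by norm_num) (by push_cast; linarith only [hx0]) hx.le (by linarith only [he, hx, hx0])
      have g2 := gU (x := x) (y := 1860 / 10000) ud (by norm_num) (by push_cast; linarith only [hx0]) hc
        (by norm_num)
      have g3 := gS (u := 1860 / 10000) (v := xs) kc (by norm_num) (by norm_num)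
        (by push_cast; exact le_rfl) ha (by push_cast; exact he) hT
      push_cast at h g1 g2 g3
      exact dn_fin (gz := gh (1860 / 10000)) h gm (by unfold lin; push_cast; linarith only [he, hx, hx0, g1])
        (by unfold lin; push_cast; linarith only [g2]) (by linarith only [g3])
    · have h := piD0 cI6_two_da (by norm_num) hL (hS x y hA) (by norm_num) (by norm_num)
        (by push_cast; linarith only [hc]) (by push_cast; linarith only [he, hx]) hx.le
      have g1 := gU (x := x) (y := xs) ua (by norm_num) (by push_cast; linarith only [hc]) hx.le (by linarith only [he, hx, hc])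
      have g3 := gS (u := x) (v := xs) kc (by norm_num) (by norm_num)
        (by push_cast; exact hc) hx.le (by push_cast; exact he) hT
      push_cast at h g1 g3
      exact dn_fin (gz := gh x) h gm (by unfold lin; push_cast; linarith only [he, hx, hc, g1])
        (by unfold lin; push_cast; linarith only []) (by linarith only [g3])
  · have hx0 := hA.x0
    have hx1 := hA.x1
    have gm := gh_mono (x := xs) (y := x) (by linarith only [ha, hx, hx1]) hx.le (by linarith only [ha, hx, hx1])
    have g1 := gU (x := xs) (y := x) ua (by norm_num) (by push_cast; linarith only [ha]) hx.le (by linarith only [ha, hx, hx1])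
    rcases le_total x (2520 / 10000) with hc | hc
    · have h := piU0 cI6_two_ua (by norm_num) hL (hS x y hA) (by norm_num)
        (by push_cast; linarith only [ha, hx]) (by push_cast; linarith only [hc])
      have g3 := gS (u := xs) (v := x) kc (by norm_num) (by norm_num)
        (by push_cast; exact ha) hx.le (by push_cast; exact hc) hT
      push_cast at h g1 g3
      exact up_fin (gz := gh x) h gm (by unfold lin; push_cast; linarith only [ha, hx, g1, hc])
        (by unfold lin; push_cast; linarith only []) (by linarith only [g3])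
    · have h := piU1 cI6_two_ub (by norm_num) hL (hS x y hA) (by norm_num)
        (by push_cast; linarith only [hc]) (by push_cast; linarith only [hx1])
      have g2 := gU (x := 2520 / 10000) (y := x) ue (by norm_num) (by push_cast; exact le_rfl) hc
        (by linarith only [ha, hx, hx1])
      have g3 := gS (u := xs) (v := 2520 / 10000) kc (by norm_num) (by norm_num)
        (by push_cast; exact ha) he (by push_cast; exact le_rfl) hT
      push_cast at h g1 g2 g3
      exact up_fin (gz := gh (2520 / 10000)) h gm (by unfold lin; push_cast; linarith only [ha, hx, hx1, g1])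
        (by unfold lin; push_cast; linarith only [ha, hx, hx1, g2]) (by linarith only [g3])

theorem sI6_twoE {xs s T ρ : ℝ} (hW : (wTwoE (109 / 1000) (168 / 1000) 0 (52 / 1000)).In xs s T ρ)
    (ha : 1640 / 10000 ≤ xs) (he : xs ≤ 1860 / 10000) :
    RampOK (6 / 10) (3 / 100) (4 / 10) 6 xs (1 / 2 - s) T ρ (125 / 1000) (30 / 100) := by
  have hN : Nums (wTwoE (109 / 1000) (168 / 1000) 0 (52 / 1000)) ((6 : ℕ) : ℝ) (1640 / 10000) (1860 / 10000) (125 / 1000) (30 / 100)
      6 3540 770 1090 0 1680 270 700 1666 520 :=
    ⟨by norm_num, le_rfl, by norm_num, by norm_num, by norm_num, by norm_num, by norm_num [wTwoE],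
      by norm_num, Or.inr (by norm_num [wTwoE]), by norm_num, by norm_num [wTwoE],
      by norm_num [wTwoE], by norm_num, by norm_num [wTwoE], by norm_num [wTwoE], by norm_num,
      by norm_num [wTwoE], fun h => by norm_num at h, by norm_num [wTwoE]⟩
  have hS : ∀ x y, RC.Adm 6 T ρ (125 / 1000) (30 / 100) x y →
      Sd ((6 : ℕ) : ℝ) 6 3540 770 1090 0 1680 270 700 1666 520 xs s T ρ x y :=
    fun x y hA => Sd.of hN hW ha he (by push_cast; exact hA)
  have ht0 : -(1310 / 10000 : ℝ) ≤ T := le_trans (by norm_num [wTwoE]) hW.t0
  have ht1 : T ≤ -(880 / 10000 : ℝ) := le_trans hW.t1 (by norm_num [wTwoE])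
  have hT : |T| ≤ ((1310 : ℕ) : ℝ) / 10000 := by
    rw [abs_le]
    push_cast
    constructor <;> linarith only [ht0, ht1]
  have kc : kC 4000 1640 1860 1310 = true := by decide +kernel
  have ud : kU 4000 1250 32838 = true := by decide +kernel
  have ua : kU 4000 1640 25504 = true := by decide +kernel
  have ue : kU 4000 1860 22780 = true := by decide +kernel
  refine ⟨fun x y hA => ?_, fun x y hA hx => ?_, fun x y hA hx => ?_⟩
  · have hx0 := hA.x0
    have hx1 := hA.x1
    rcases le_total x (1640 / 10000) with hc | hc
    · have h := piP cI6_twoE_pl (by norm_num) hL (hS x y hA) (Or.inl rfl)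
        (by push_cast; linarith only [hx0]) (by push_cast; linarith only [hc])
      have g0 := gL (be := 4000) (p := 1640) (G := 25503) (x := x) (y := 1640 / 10000)
        (by decide +kernel) (by linarith only [hx0]) hc (by push_cast; exact le_rfl) (by norm_num)
      have gm := gh_mono (x := 1640 / 10000) (y := xs) (by norm_num) ha (by linarith only [he])
      unfold lin at h
      push_cast at h g0
      linarith only [g0, gm, h, neg_abs_le (gh x - gh xs)]
    rcases le_total x (1860 / 10000) with hc2 | hc2
    · have h := piP cI6_twoE_pm (by norm_num) hL (hS x y hA) (Or.inl rfl)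
        (by push_cast; linarith only [hc]) (by push_cast; linarith only [hc2])
      unfold lin at h
      push_cast at h
      linarith only [h, abs_nonneg (gh x - gh xs)]
    · have h := piP cI6_twoE_pr (by norm_num) hL (hS x y hA) (Or.inl rfl)
        (by push_cast; linarith only [hc2]) (by push_cast; linarith only [hx1])
      have g0 := gL (be := 4000) (p := 3000) (G := 15532) (x := 1860 / 10000) (y := x)
        (by decide +kernel) (by norm_num) hc2 (by push_cast; linarith only [hx1]) (by norm_num)
      have gm := gh_mono (x := xs) (y := 1860 / 10000) (by linarith only [ha]) he (by norm_num)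
      unfold lin at h
      push_cast at h g0
      linarith only [g0, gm, h, le_abs_self (gh x - gh xs)]
  · have hx0 := hA.x0
    have hx1 := hA.x1
    have gm := gh_mono (x := x) (y := xs) (by linarith only [hx0]) hx.le (by linarith only [he, hx, hx0])
    rcases le_total x (1640 / 10000) with hc | hc
    · have h := piD1 cI6_twoE_db (by norm_num) hL (hS x y hA) (by norm_num) (by norm_num)
        (by push_cast; linarith only [hx0]) (by push_cast; linarith only [hc]) (by push_cast; exact ha)
      have g1 := gU (x := x) (y := xs) ud (by norm_num) (by push_cast; linarith only [hx0]) hx.le (by linarith only [he, hx, hx0])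
      have g2 := gU (x := x) (y := 1640 / 10000) ud (by norm_num) (by push_cast; linarith only [hx0]) hc
        (by norm_num)
      have g3 := gS (u := 1640 / 10000) (v := xs) kc (by norm_num) (by norm_num)
        (by push_cast; exact le_rfl) ha (by push_cast; exact he) hT
      push_cast at h g1 g2 g3
      exact dn_fin (gz := gh (1640 / 10000)) h gm (by unfold lin; push_cast; linarith only [he, hx, hx0, g1])
        (by unfold lin; push_cast; linarith only [g2]) (by linarith only [g3])
    · have h := piD0 cI6_twoE_da (by norm_num) hL (hS x y hA) (by norm_num) (by norm_num)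
        (by push_cast; linarith only [hc]) (by push_cast; linarith only [he, hx]) hx.le
      have g1 := gU (x := x) (y := xs) ua (by norm_num) (by push_cast; linarith only [hc]) hx.le (by linarith only [he, hx, hc])
      have g3 := gS (u := x) (v := xs) kc (by norm_num) (by norm_num)
        (by push_cast; exact hc) hx.le (by push_cast; exact he) hT
      push_cast at h g1 g3
      exact dn_fin (gz := gh x) h gm (by unfold lin; push_cast; linarith only [he, hx, hc, g1])
        (by unfold lin; push_cast; linarith only []) (by linarith only [g3])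
  · have hx0 := hA.x0
    have hx1 := hA.x1
    have gm := gh_mono (x := xs) (y := x) (by linarith only [ha, hx, hx1]) hx.le (by linarith only [ha, hx, hx1])
    have g1 := gU (x := xs) (y := x) ua (by norm_num) (by push_cast; linarith only [ha]) hx.le (by linarith only [ha, hx, hx1])
    rcases le_total x (1860 / 10000) with hc | hc
    · have h := piU0 cI6_twoE_ua (by norm_num) hL (hS x y hA) (by norm_num)
        (by push_cast; linarith only [ha, hx]) (by push_cast; linarith only [hc])
      have g3 := gS (u := xs) (v := x) kc (by norm_num) (by norm_num)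
        (by push_cast; exact ha) hx.le (by push_cast; exact hc) hT
      push_cast at h g1 g3
      exact up_fin (gz := gh x) h gm (by unfold lin; push_cast; linarith only [ha, hx, g1, hc])
        (by unfold lin; push_cast; linarith only []) (by linarith only [g3])
    · have h := piU1 cI6_twoE_ub (by norm_num) hL (hS x y hA) (by norm_num)
        (by push_cast; linarith only [hc]) (by push_cast; linarith only [hx1])
      have g2 := gU (x := 1860 / 10000) (y := x) ue (by norm_num) (by push_cast; exact le_rfl) hc
        (by linarith only [ha, hx, hx1])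
      have g3 := gS (u := xs) (v := 1860 / 10000) kc (by norm_num) (by norm_num)
        (by push_cast; exact ha) he (by push_cast; exact le_rfl) hT
      push_cast at h g1 g2 g3
      exact up_fin (gz := gh (1860 / 10000)) h gm (by unfold lin; push_cast; linarith only [ha, hx, hx1, g1])
        (by unfold lin; push_cast; linarith only [ha, hx, hx1, g2]) (by linarith only [g3])

theorem sI6_three {xs s T ρ : ℝ} (hW : (wThree (109 / 1000) (168 / 1000) 0 (52 / 1000)).In xs s T ρ)
    (ha : 1880 / 10000 ≤ xs) (he : xs ≤ 2340 / 10000) :
    RampOK (6 / 10) (3 / 100) (4 / 10) 6 xs (1 / 2 - s) T ρ (12 / 100) (30 / 100) := by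
  have hN : Nums (wThree (109 / 1000) (168 / 1000) 0 (52 / 1000)) ((6 : ℕ) : ℝ) (1880 / 10000) (2340 / 10000) (12 / 100) (30 / 100)
      6 4020 1250 1090 0 1200 1010 1590 1666 520 :=
    ⟨by norm_num, le_rfl, by norm_num, by norm_num, by norm_num, by norm_num, by norm_num [wThree],
      by norm_num, Or.inr (by norm_num [wThree]), by norm_num, by norm_num [wThree],
      by norm_num [wThree], by norm_num, by norm_num [wThree], by norm_num [wThree], by norm_num,
      by norm_num [wThree], fun h => by norm_num at h, by norm_num [wThree]⟩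
  have hS : ∀ x y, RC.Adm 6 T ρ (12 / 100) (30 / 100) x y →
      Sd ((6 : ℕ) : ℝ) 6 4020 1250 1090 0 1200 1010 1590 1666 520 xs s T ρ x y :=
    fun x y hA => Sd.of hN hW ha he (by push_cast; exact hA)
  have ht0 : -(570 / 10000 : ℝ) ≤ T := le_trans (by norm_num [wThree]) hW.t0
  have ht1 : T ≤ (10 / 10000 : ℝ) := le_trans hW.t1 (by norm_num [wThree])
  have hT : |T| ≤ ((570 : ℕ) : ℝ) / 10000 := by
    rw [abs_le]
    push_cast
    constructor <;> linarith only [ht0, ht1]
  have kc : kC 4000 1880 2340 570 = true := by decide +kernel
  have ud : kU 4000 1200 34137 = true := by decide +kernel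
  have ua : kU 4000 1880 22566 = true := by decide +kernel
  have ue : kU 4000 2340 18737 = true := by decide +kernel
  refine ⟨fun x y hA => ?_, fun x y hA hx => ?_, fun x y hA hx => ?_⟩
  · have hx0 := hA.x0
    have hx1 := hA.x1
    rcases le_total x (1880 / 10000) with hc | hc
    · have h := piP cI6_three_pl (by norm_num) hL (hS x y hA) (Or.inl rfl)
        (by push_cast; linarith only [hx0]) (by push_cast; linarith only [hc])
      have g0 := gL (be := 4000) (p := 1880) (G := 22565) (x := x) (y := 1880 / 10000)
        (by decide +kernel) (by linarith only [hx0]) hc (by push_cast; exact le_rfl) (by norm_num)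
      have gm := gh_mono (x := 1880 / 10000) (y := xs) (by norm_num) ha (by linarith only [he])
      unfold lin at h
      push_cast at h g0
      linarith only [g0, gm, h, neg_abs_le (gh x - gh xs)]
    rcases le_total x (2340 / 10000) with hc2 | hc2
    · have h := piP cI6_three_pm (by norm_num) hL (hS x y hA) (Or.inl rfl)
        (by push_cast; linarith only [hc]) (by push_cast; linarith only [hc2])
      unfold lin at h
      push_cast at h
      linarith only [h, abs_nonneg (gh x - gh xs)]
    · have h := piP cI6_three_pr (by norm_num) hL (hS x y hA) (Or.inl rfl)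
        (by push_cast; linarith only [hc2]) (by push_cast; linarith only [hx1])
      have g0 := gL (be := 4000) (p := 3000) (G := 15532) (x := 2340 / 10000) (y := x)
        (by decide +kernel) (by norm_num) hc2 (by push_cast; linarith only [hx1]) (by norm_num)
      have gm := gh_mono (x := xs) (y := 2340 / 10000) (by linarith only [ha]) he (by norm_num)
      unfold lin at h
      push_cast at h g0
      linarith only [g0, gm, h, le_abs_self (gh x - gh xs)]
  · have hx0 := hA.x0
    have hx1 := hA.x1
    have gm := gh_mono (x := x) (y := xs) (by linarith only [hx0]) hx.le (by linarith only [he, hx, hx0])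
    rcases le_total x (1880 / 10000) with hc | hc
    · have h := piD1 cI6_three_db (by norm_num) hL (hS x y hA) (by norm_num) (by norm_num)
        (by push_cast; linarith only [hx0]) (by push_cast; linarith only [hc]) (by push_cast; exact ha)
      have g1 := gU (x := x) (y := xs) ud (by norm_num) (by push_cast; linarith only [hx0]) hx.le (by linarith only [he, hx, hx0])
      have g2 := gU (x := x) (y := 1880 / 10000) ud (by norm_num) (by push_cast; linarith only [hx0]) hc
        (by norm_num)
      have g3 := gS (u := 1880 / 10000) (v := xs) kc (by norm_num) (by norm_num)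
        (by push_cast; exact le_rfl) ha (by push_cast; exact he) hT
      push_cast at h g1 g2 g3
      exact dn_fin (gz := gh (1880 / 10000)) h gm (by unfold lin; push_cast; linarith only [he, hx, hx0, g1])
        (by unfold lin; push_cast; linarith only [g2]) (by linarith only [g3])
    · have h := piD0 cI6_three_da (by norm_num) hL (hS x y hA) (by norm_num) (by norm_num)
        (by push_cast; linarith only [hc]) (by push_cast; linarith only [he, hx]) hx.le
      have g1 := gU (x := x) (y := xs) ua (by norm_num) (by push_cast; linarith only [hc]) hx.le (by linarith only [he, hx, hc])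
      have g3 := gS (u := x) (v := xs) kc (by norm_num) (by norm_num)
        (by push_cast; exact hc) hx.le (by push_cast; exact he) hT
      push_cast at h g1 g3
      exact dn_fin (gz := gh x) h gm (by unfold lin; push_cast; linarith only [he, hx, hc, g1])
        (by unfold lin; push_cast; linarith only []) (by linarith only [g3])
  · have hx0 := hA.x0
    have hx1 := hA.x1
    have gm := gh_mono (x := xs) (y := x) (by linarith only [ha, hx, hx1]) hx.le (by linarith only [ha, hx, hx1])
    have g1 := gU (x := xs) (y := x) ua (by norm_num) (by push_cast; linarith only [ha]) hx.le (by linarith only [ha, hx, hx1])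
    rcases le_total x (2340 / 10000) with hc | hc
    · have h := piU0 cI6_three_ua (by norm_num) hL (hS x y hA) (by norm_num)
        (by push_cast; linarith only [ha, hx]) (by push_cast; linarith only [hc])
      have g3 := gS (u := xs) (v := x) kc (by norm_num) (by norm_num)
        (by push_cast; exact ha) hx.le (by push_cast; exact hc) hT
      push_cast at h g1 g3
      exact up_fin (gz := gh x) h gm (by unfold lin; push_cast; linarith only [ha, hx, g1, hc])
        (by unfold lin; push_cast; linarith only []) (by linarith only [g3])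
    · have h := piU1 cI6_three_ub (by norm_num) hL (hS x y hA) (by norm_num)
        (by push_cast; linarith only [hc]) (by push_cast; linarith only [hx1])
      have g2 := gU (x := 2340 / 10000) (y := x) ue (by norm_num) (by push_cast; exact le_rfl) hc
        (by linarith only [ha, hx, hx1])
      have g3 := gS (u := xs) (v := 2340 / 10000) kc (by norm_num) (by norm_num)
        (by push_cast; exact ha) he (by push_cast; exact le_rfl) hT
      push_cast at h g1 g2 g3
      exact up_fin (gz := gh (2340 / 10000)) h gm (by unfold lin; push_cast; linarith only [ha, hx, hx1, g1])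
        (by unfold lin; push_cast; linarith only [ha, hx, hx1, g2]) (by linarith only [g3])

theorem sI6_threeE {xs s T ρ : ℝ} (hW : (wThreeE (109 / 1000) (168 / 1000) 0 (52 / 1000)).In xs s T ρ)
    (ha : 1710 / 10000 ≤ xs) (he : xs ≤ 1950 / 10000) :
    RampOK (6 / 10) (3 / 100) (4 / 10) 6 xs (1 / 2 - s) T ρ (10 / 100) (26 / 100) := by
  have hN : Nums (wThreeE (109 / 1000) (168 / 1000) 0 (52 / 1000)) ((6 : ℕ) : ℝ) (1710 / 10000) (1950 / 10000) (10 / 100) (26 / 100)
      6 3630 860 1090 0 1200 1000 1400 1666 520 :=
    ⟨by norm_num, le_rfl, by norm_num, by norm_num, by norm_num, by norm_num,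
      by norm_num [wThreeE], by norm_num, Or.inr (by norm_num [wThreeE]), by norm_num,
      by norm_num [wThreeE], by norm_num [wThreeE], by norm_num, by norm_num [wThreeE],
      by norm_num [wThreeE], by norm_num, by norm_num [wThreeE], fun h => by norm_num at h,
      by norm_num [wThreeE]⟩
  have hS : ∀ x y, RC.Adm 6 T ρ (10 / 100) (26 / 100) x y →
      Sd ((6 : ℕ) : ℝ) 6 3630 860 1090 0 1200 1000 1400 1666 520 xs s T ρ x y :=
    fun x y hA => Sd.of hN hW ha he (by push_cast; exact hA)
  have ht0 : -(580 / 10000 : ℝ) ≤ T := le_trans (by norm_num [wThreeE]) hW.t0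
  have ht1 : T ≤ -(180 / 10000 : ℝ) := le_trans hW.t1 (by norm_num [wThreeE])
  have hT : |T| ≤ ((580 : ℕ) : ℝ) / 10000 := by
    rw [abs_le]
    push_cast
    constructor <;> linarith only [ht0, ht1]
  have kc : kC 4000 1710 1950 580 = true := by decide +kernel
  have ud : kU 4000 1000 40666 = true := by decide +kernel
  have ua : kU 4000 1710 24557 = true := by decide +kernel
  have ue : kU 4000 1950 21855 = true := by decide +kernel
  refine ⟨fun x y hA => ?_, fun x y hA hx => ?_, fun x y hA hx => ?_⟩
  · have hx0 := hA.x0
    have hx1 := hA.x1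
    rcases le_total x (1710 / 10000) with hc | hc
    · have h := piP cI6_threeE_pl (by norm_num) hL (hS x y hA) (Or.inl rfl)
        (by push_cast; linarith only [hx0]) (by push_cast; linarith only [hc])
      have g0 := gL (be := 4000) (p := 1710) (G := 24556) (x := x) (y := 1710 / 10000)
        (by decide +kernel) (by linarith only [hx0]) hc (by push_cast; exact le_rfl) (by norm_num)
      have gm := gh_mono (x := 1710 / 10000) (y := xs) (by norm_num) ha (by linarith only [he])
      unfold lin at h
      push_cast at h g0
      linarith only [g0, gm, h, neg_abs_le (gh x - gh xs)]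
    rcases le_total x (1950 / 10000) with hc2 | hc2
    · have h := piP cI6_threeE_pm (by norm_num) hL (hS x y hA) (Or.inl rfl)
        (by push_cast; linarith only [hc]) (by push_cast; linarith only [hc2])
      unfold lin at h
      push_cast at h
      linarith only [h, abs_nonneg (gh x - gh xs)]
    · have h := piP cI6_threeE_pr (by norm_num) hL (hS x y hA) (Or.inl rfl)
        (by push_cast; linarith only [hc2]) (by push_cast; linarith only [hx1])
      have g0 := gL (be := 4000) (p := 2600) (G := 17238) (x := 1950 / 10000) (y := x)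
        (by decide +kernel) (by norm_num) hc2 (by push_cast; linarith only [hx1]) (by norm_num)
      have gm := gh_mono (x := xs) (y := 1950 / 10000) (by linarith only [ha]) he (by norm_num)
      unfold lin at h
      push_cast at h g0
      linarith only [g0, gm, h, le_abs_self (gh x - gh xs)]
  · have hx0 := hA.x0
    have hx1 := hA.x1
    have gm := gh_mono (x := x) (y := xs) (by linarith only [hx0]) hx.le (by linarith only [he, hx, hx0])
    rcases le_total x (1710 / 10000) with hc | hc
    · have h := piD1 cI6_threeE_db (by norm_num) hL (hS x y hA) (by norm_num) (by norm_num)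
        (by push_cast; linarith only [hx0]) (by push_cast; linarith only [hc]) (by push_cast; exact ha)
      have g1 := gU (x := x) (y := xs) ud (by norm_num) (by push_cast; linarith only [hx0]) hx.le (by linarith only [he, hx, hx0])
      have g2 := gU (x := x) (y := 1710 / 10000) ud (by norm_num) (by push_cast; linarith only [hx0]) hc
        (by norm_num)
      have g3 := gS (u := 1710 / 10000) (v := xs) kc (by norm_num) (by norm_num)
        (by push_cast; exact le_rfl) ha (by push_cast; exact he) hT
      push_cast at h g1 g2 g3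
      exact dn_fin (gz := gh (1710 / 10000)) h gm (by unfold lin; push_cast; linarith only [he, hx, hx0, g1])
        (by unfold lin; push_cast; linarith only [g2]) (by linarith only [g3])
    · have h := piD0 cI6_threeE_da (by norm_num) hL (hS x y hA) (by norm_num) (by norm_num)
        (by push_cast; linarith only [hc]) (by push_cast; linarith only [he, hx]) hx.le
      have g1 := gU (x := x) (y := xs) ua (by norm_num) (by push_cast; linarith only [hc]) hx.le (by linarith only [he, hx, hc])
      have g3 := gS (u := x) (v := xs) kc (by norm_num) (by norm_num)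
        (by push_cast; exact hc) hx.le (by push_cast; exact he) hT
      push_cast at h g1 g3
      exact dn_fin (gz := gh x) h gm (by unfold lin; push_cast; linarith only [he, hx, hc, g1])
        (by unfold lin; push_cast; linarith only []) (by linarith only [g3])
  · have hx0 := hA.x0
    have hx1 := hA.x1
    have gm := gh_mono (x := xs) (y := x) (by linarith only [ha, hx, hx1]) hx.le (by linarith only [ha, hx, hx1])
    have g1 := gU (x := xs) (y := x) ua (by norm_num) (by push_cast; linarith only [ha]) hx.le (by linarith only [ha, hx, hx1])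
    rcases le_total x (1950 / 10000) with hc | hc
    · have h := piU0 cI6_threeE_ua (by norm_num) hL (hS x y hA) (by norm_num)
        (by push_cast; linarith only [ha, hx]) (by push_cast; linarith only [hc])
      have g3 := gS (u := xs) (v := x) kc (by norm_num) (by norm_num)
        (by push_cast; exact ha) hx.le (by push_cast; exact hc) hT
      push_cast at h g1 g3
      exact up_fin (gz := gh x) h gm (by unfold lin; push_cast; linarith only [ha, hx, g1, hc])
        (by unfold lin; push_cast; linarith only []) (by linarith only [g3])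
    · have h := piU1 cI6_threeE_ub (by norm_num) hL (hS x y hA) (by norm_num)
        (by push_cast; linarith only [hc]) (by push_cast; linarith only [hx1])
      have g2 := gU (x := 1950 / 10000) (y := x) ue (by norm_num) (by push_cast; exact le_rfl) hc
        (by linarith only [ha, hx, hx1])
      have g3 := gS (u := xs) (v := 1950 / 10000) kc (by norm_num) (by norm_num)
        (by push_cast; exact ha) he (by push_cast; exact le_rfl) hT
      push_cast at h g1 g2 g3
      exact up_fin (gz := gh (1950 / 10000)) h gm (by unfold lin; push_cast; linarith only [ha, hx, hx1, g1])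
        (by unfold lin; push_cast; linarith only [ha, hx, hx1, g2]) (by linarith only [g3])

theorem sI6_rr {xs s T ρ : ℝ} (hW : (wRr (109 / 1000) (168 / 1000) 0 (52 / 1000)).In xs s T ρ)
    (ha : 1820 / 10000 ≤ xs) (he : xs ≤ 2520 / 10000) :
    RampOK (6 / 10) (3 / 100) (4 / 10) 6 xs (1 / 2 - s) T ρ (10 / 100) (27 / 100) := by
  have hN : Nums (wRr (109 / 1000) (168 / 1000) 0 (52 / 1000)) ((6 : ℕ) : ℝ) (1820 / 10000) (2520 / 10000) (10 / 100) (27 / 100)
      6 4200 1430 1090 0 1200 1195 1965 1666 520 :=
    ⟨by norm_num, le_rfl, by norm_num, by norm_num, by norm_num, by norm_num, by norm_num [wRr],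
      by norm_num, Or.inr (by norm_num [wRr]), by norm_num, by norm_num [wRr], by norm_num [wRr],
      by norm_num, by norm_num [wRr], by norm_num [wRr], by norm_num, by norm_num [wRr],
      fun h => by norm_num at h, by norm_num [wRr]⟩
  have hS : ∀ x y, RC.Adm 6 T ρ (10 / 100) (27 / 100) x y →
      Sd ((6 : ℕ) : ℝ) 6 4200 1430 1090 0 1200 1195 1965 1666 520 xs s T ρ x y :=
    fun x y hA => Sd.of hN hW ha he (by push_cast; exact hA)
  have ht0 : -(385 / 10000 : ℝ) ≤ T := le_trans (by norm_num [wRr]) hW.t0
  have ht1 : T ≤ (385 / 10000 : ℝ) := le_trans hW.t1 (by norm_num [wRr])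
  have hT : |T| ≤ ((385 : ℕ) : ℝ) / 10000 := by
    rw [abs_le]
    push_cast
    constructor <;> linarith only [ht0, ht1]
  have kc : kC 4000 1820 2520 385 = true := by decide +kernel
  have ud : kU 4000 1000 40666 = true := by decide +kernel
  have ua : kU 4000 1820 23223 = true := by decide +kernel
  have ue : kU 4000 2520 17661 = true := by decide +kernel
  refine ⟨fun x y hA => ?_, fun x y hA hx => ?_, fun x y hA hx => ?_⟩
  · have hx0 := hA.x0
    have hx1 := hA.x1
    rcases le_total x (1820 / 10000) with hc | hc
    · have h := piP cI6_rr_pl (by norm_num) hL (hS x y hA) (Or.inl rfl)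
        (by push_cast; linarith only [hx0]) (by push_cast; linarith only [hc])
      have g0 := gL (be := 4000) (p := 1820) (G := 23222) (x := x) (y := 1820 / 10000)
        (by decide +kernel) (by linarith only [hx0]) hc (by push_cast; exact le_rfl) (by norm_num)
      have gm := gh_mono (x := 1820 / 10000) (y := xs) (by norm_num) ha (by linarith only [he])
      unfold lin at h
      push_cast at h g0
      linarith only [g0, gm, h, neg_abs_le (gh x - gh xs)]
    rcases le_total x (2520 / 10000) with hc2 | hc2
    · have h := piP cI6_rr_pm (by norm_num) hL (hS x y hA) (Or.inl rfl)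
        (by push_cast; linarith only [hc]) (by push_cast; linarith only [hc2])
      unfold lin at h
      push_cast at h
      linarith only [h, abs_nonneg (gh x - gh xs)]
    · have h := piP cI6_rr_pr (by norm_num) hL (hS x y hA) (Or.inl rfl)
        (by push_cast; linarith only [hc2]) (by push_cast; linarith only [hx1])
      have g0 := gL (be := 4000) (p := 2700) (G := 16752) (x := 2520 / 10000) (y := x)
        (by decide +kernel) (by norm_num) hc2 (by push_cast; linarith only [hx1]) (by norm_num)
      have gm := gh_mono (x := xs) (y := 2520 / 10000) (by linarith only [ha]) he (by norm_num)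
      unfold lin at h
      push_cast at h g0
      linarith only [g0, gm, h, le_abs_self (gh x - gh xs)]
  · have hx0 := hA.x0
    have hx1 := hA.x1
    have gm := gh_mono (x := x) (y := xs) (by linarith only [hx0]) hx.le (by linarith only [he, hx, hx0])
    rcases le_total x (1820 / 10000) with hc | hc
    · have h := piD1 cI6_rr_db (by norm_num) hL (hS x y hA) (by norm_num) (by norm_num)
        (by push_cast; linarith only [hx0]) (by push_cast; linarith only [hc]) (by push_cast; exact ha)
      have g1 := gU (x := x) (y := xs) ud (by norm_num) (by push_cast; linarith only [hx0]) hx.le (by linarith only [he, hx, hx0])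
      have g2 := gU (x := x) (y := 1820 / 10000) ud (by norm_num) (by push_cast; linarith only [hx0]) hc
        (by norm_num)
      have g3 := gS (u := 1820 / 10000) (v := xs) kc (by norm_num) (by norm_num)
        (by push_cast; exact le_rfl) ha (by push_cast; exact he) hT
      push_cast at h g1 g2 g3
      exact dn_fin (gz := gh (1820 / 10000)) h gm (by unfold lin; push_cast; linarith only [he, hx, hx0, g1])
        (by unfold lin; push_cast; linarith only [g2]) (by linarith only [g3])
    · have h := piD0 cI6_rr_da (by norm_num) hL (hS x y hA) (by norm_num) (by norm_num)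
        (by push_cast; linarith only [hc]) (by push_cast; linarith only [he, hx]) hx.le
      have g1 := gU (x := x) (y := xs) ua (by norm_num) (by push_cast; linarith only [hc]) hx.le (by linarith only [he, hx, hc])
      have g3 := gS (u := x) (v := xs) kc (by norm_num) (by norm_num)
        (by push_cast; exact hc) hx.le (by push_cast; exact he) hT
      push_cast at h g1 g3
      exact dn_fin (gz := gh x) h gm (by unfold lin; push_cast; linarith only [he, hx, hc, g1])
        (by unfold lin; push_cast; linarith only []) (by linarith only [g3])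
  · have hx0 := hA.x0
    have hx1 := hA.x1
    have gm := gh_mono (x := xs) (y := x) (by linarith only [ha, hx, hx1]) hx.le (by linarith only [ha, hx, hx1])
    have g1 := gU (x := xs) (y := x) ua (by norm_num) (by push_cast; linarith only [ha]) hx.le (by linarith only [ha, hx, hx1])
    rcases le_total x (2520 / 10000) with hc | hc
    · have h := piU0 cI6_rr_ua (by norm_num) hL (hS x y hA) (by norm_num)
        (by push_cast; linarith only [ha, hx]) (by push_cast; linarith only [hc])
      have g3 := gS (u := xs) (v := x) kc (by norm_num) (by norm_num)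
        (by push_cast; exact ha) hx.le (by push_cast; exact hc) hT
      push_cast at h g1 g3
      exact up_fin (gz := gh x) h gm (by unfold lin; push_cast; linarith only [ha, hx, g1, hc])
        (by unfold lin; push_cast; linarith only []) (by linarith only [g3])
    · have h := piU1 cI6_rr_ub (by norm_num) hL (hS x y hA) (by norm_num)
        (by push_cast; linarith only [hc]) (by push_cast; linarith only [hx1])
      have g2 := gU (x := 2520 / 10000) (y := x) ue (by norm_num) (by push_cast; exact le_rfl) hc
        (by linarith only [ha, hx, hx1])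
      have g3 := gS (u := xs) (v := 2520 / 10000) kc (by norm_num) (by norm_num)
        (by push_cast; exact ha) he (by push_cast; exact le_rfl) hT
      push_cast at h g1 g2 g3
      exact up_fin (gz := gh (2520 / 10000)) h gm (by unfold lin; push_cast; linarith only [ha, hx, hx1, g1])
        (by unfold lin; push_cast; linarith only [ha, hx, hx1, g2]) (by linarith only [g3])

theorem sI6_rs_0 {xs s T ρ : ℝ} (hW : (wRs (109 / 1000) (168 / 1000) 0 (52 / 1000)).In xs s T ρ)
    (ha : 1700 / 10000 ≤ xs) (he : xs ≤ 2110 / 10000) :
    RampOK (6 / 10) (3 / 100) (4 / 10) 6 xs (1 / 2 - s) T ρ (10 / 100) (27 / 100) := by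
  have hN : Nums (wRs (109 / 1000) (168 / 1000) 0 (52 / 1000)) ((6 : ℕ) : ℝ) (1700 / 10000) (2110 / 10000) (10 / 100) (27 / 100)
      6 3790 1020 1090 0 1200 1570 2045 1666 520 :=
    ⟨by norm_num, le_rfl, by norm_num, by norm_num, by norm_num, by norm_num, by norm_num [wRs],
      by norm_num, Or.inr (by norm_num [wRs]), by norm_num, by norm_num [wRs], by norm_num [wRs],
      by norm_num, by norm_num [wRs], by norm_num [wRs], by norm_num, by norm_num [wRs],
      fun h => by norm_num at h, by norm_num [wRs]⟩
  have hS : ∀ x y, RC.Adm 6 T ρ (10 / 100) (27 / 100) x y →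
      Sd ((6 : ℕ) : ℝ) 6 3790 1020 1090 0 1200 1570 2045 1666 520 xs s T ρ x y :=
    fun x y hA => Sd.of hN hW ha he (by push_cast; exact hA)
  have ht0 : -(10 / 10000 : ℝ) ≤ T := le_trans (by norm_num [wRs]) hW.t0
  have ht1 : T ≤ (465 / 10000 : ℝ) := le_trans hW.t1 (by norm_num [wRs])
  have hT : |T| ≤ ((465 : ℕ) : ℝ) / 10000 := by
    rw [abs_le]
    push_cast
    constructor <;> linarith only [ht0, ht1]
  have kc : kC 4000 1700 2110 465 = true := by decide +kernel
  have ud : kU 4000 1000 40666 = true := by decide +kernel
  have ua : kU 4000 1700 24687 = true := by decide +kernel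
  have ue : kU 4000 2110 20421 = true := by decide +kernel
  refine ⟨fun x y hA => ?_, fun x y hA hx => ?_, fun x y hA hx => ?_⟩
  · have hx0 := hA.x0
    have hx1 := hA.x1
    rcases le_total x (1700 / 10000) with hc | hc
    · have h := piP cI6_rs_0_pl (by norm_num) hL (hS x y hA) (Or.inl rfl)
        (by push_cast; linarith only [hx0]) (by push_cast; linarith only [hc])
      have g0 := gL (be := 4000) (p := 1700) (G := 24686) (x := x) (y := 1700 / 10000)
        (by decide +kernel) (by linarith only [hx0]) hc (by push_cast; exact le_rfl) (by norm_num)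
      have gm := gh_mono (x := 1700 / 10000) (y := xs) (by norm_num) ha (by linarith only [he])
      unfold lin at h
      push_cast at h g0
      linarith only [g0, gm, h, neg_abs_le (gh x - gh xs)]
    rcases le_total x (2110 / 10000) with hc2 | hc2
    · have h := piP cI6_rs_0_pm (by norm_num) hL (hS x y hA) (Or.inl rfl)
        (by push_cast; linarith only [hc]) (by push_cast; linarith only [hc2])
      unfold lin at h
      push_cast at h
      linarith only [h, abs_nonneg (gh x - gh xs)]
    · have h := piP cI6_rs_0_pr (by norm_num) hL (hS x y hA) (Or.inl rfl)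
        (by push_cast; linarith only [hc2]) (by push_cast; linarith only [hx1])
      have g0 := gL (be := 4000) (p := 2700) (G := 16752) (x := 2110 / 10000) (y := x)
        (by decide +kernel) (by norm_num) hc2 (by push_cast; linarith only [hx1]) (by norm_num)
      have gm := gh_mono (x := xs) (y := 2110 / 10000) (by linarith only [ha]) he (by norm_num)
      unfold lin at h
      push_cast at h g0
      linarith only [g0, gm, h, le_abs_self (gh x - gh xs)]
  · have hx0 := hA.x0
    have hx1 := hA.x1
    have gm := gh_mono (x := x) (y := xs) (by linarith only [hx0]) hx.le (by linarith only [he, hx, hx0])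
    rcases le_total x (1700 / 10000) with hc | hc
    · have h := piD1 cI6_rs_0_db (by norm_num) hL (hS x y hA) (by norm_num) (by norm_num)
        (by push_cast; linarith only [hx0]) (by push_cast; linarith only [hc]) (by push_cast; exact ha)
      have g1 := gU (x := x) (y := xs) ud (by norm_num) (by push_cast; linarith only [hx0]) hx.le (by linarith only [he, hx, hx0])
      have g2 := gU (x := x) (y := 1700 / 10000) ud (by norm_num) (by push_cast; linarith only [hx0]) hc
        (by norm_num)
      have g3 := gS (u := 1700 / 10000) (v := xs) kc (by norm_num) (by norm_num)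
        (by push_cast; exact le_rfl) ha (by push_cast; exact he) hT
      push_cast at h g1 g2 g3
      exact dn_fin (gz := gh (1700 / 10000)) h gm (by unfold lin; push_cast; linarith only [he, hx, hx0, g1])
        (by unfold lin; push_cast; linarith only [g2]) (by linarith only [g3])
    · have h := piD0 cI6_rs_0_da (by norm_num) hL (hS x y hA) (by norm_num) (by norm_num)
        (by push_cast; linarith only [hc]) (by push_cast; linarith only [he, hx]) hx.le
      have g1 := gU (x := x) (y := xs) ua (by norm_num) (by push_cast; linarith only [hc]) hx.le (by linarith only [he, hx, hc])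
      have g3 := gS (u := x) (v := xs) kc (by norm_num) (by norm_num)
        (by push_cast; exact hc) hx.le (by push_cast; exact he) hT
      push_cast at h g1 g3
      exact dn_fin (gz := gh x) h gm (by unfold lin; push_cast; linarith only [he, hx, hc, g1])
        (by unfold lin; push_cast; linarith only []) (by linarith only [g3])
  · have hx0 := hA.x0
    have hx1 := hA.x1
    have gm := gh_mono (x := xs) (y := x) (by linarith only [ha, hx, hx1]) hx.le (by linarith only [ha, hx, hx1])
    have g1 := gU (x := xs) (y := x) ua (by norm_num) (by push_cast; linarith only [ha]) hx.le (by linarith only [ha, hx, hx1])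
    rcases le_total x (2110 / 10000) with hc | hc
    · have h := piU0 cI6_rs_0_ua (by norm_num) hL (hS x y hA) (by norm_num)
        (by push_cast; linarith only [ha, hx]) (by push_cast; linarith only [hc])
      have g3 := gS (u := xs) (v := x) kc (by norm_num) (by norm_num)
        (by push_cast; exact ha) hx.le (by push_cast; exact hc) hT
      push_cast at h g1 g3
      exact up_fin (gz := gh x) h gm (by unfold lin; push_cast; linarith only [ha, hx, g1, hc])
        (by unfold lin; push_cast; linarith only []) (by linarith only [g3])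
    · have h := piU1 cI6_rs_0_ub (by norm_num) hL (hS x y hA) (by norm_num)
        (by push_cast; linarith only [hc]) (by push_cast; linarith only [hx1])
      have g2 := gU (x := 2110 / 10000) (y := x) ue (by norm_num) (by push_cast; exact le_rfl) hc
        (by linarith only [ha, hx, hx1])
      have g3 := gS (u := xs) (v := 2110 / 10000) kc (by norm_num) (by norm_num)
        (by push_cast; exact ha) he (by push_cast; exact le_rfl) hT
      push_cast at h g1 g2 g3
      exact up_fin (gz := gh (2110 / 10000)) h gm (by unfold lin; push_cast; linarith only [ha, hx, hx1, g1])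
        (by unfold lin; push_cast; linarith only [ha, hx, hx1, g2]) (by linarith only [g3])

theorem sI6_rs_1 {xs s T ρ : ℝ} (hW : (wRs (109 / 1000) (168 / 1000) 0 (52 / 1000)).In xs s T ρ)
    (ha : 2110 / 10000 ≤ xs) (he : xs ≤ 2520 / 10000) :
    RampOK (6 / 10) (3 / 100) (4 / 10) 6 xs (1 / 2 - s) T ρ (10 / 100) (27 / 100) := by
  have hN : Nums (wRs (109 / 1000) (168 / 1000) 0 (52 / 1000)) ((6 : ℕ) : ℝ) (2110 / 10000) (2520 / 10000) (10 / 100) (27 / 100)
      6 4200 1430 1090 0 1200 1570 2045 1666 520 :=
    ⟨by norm_num, le_rfl, by norm_num, by norm_num, by norm_num, by norm_num, by norm_num [wRs],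
      by norm_num, Or.inr (by norm_num [wRs]), by norm_num, by norm_num [wRs], by norm_num [wRs],
      by norm_num, by norm_num [wRs], by norm_num [wRs], by norm_num, by norm_num [wRs],
      fun h => by norm_num at h, by norm_num [wRs]⟩
  have hS : ∀ x y, RC.Adm 6 T ρ (10 / 100) (27 / 100) x y →
      Sd ((6 : ℕ) : ℝ) 6 4200 1430 1090 0 1200 1570 2045 1666 520 xs s T ρ x y :=
    fun x y hA => Sd.of hN hW ha he (by push_cast; exact hA)
  have ht0 : -(10 / 10000 : ℝ) ≤ T := le_trans (by norm_num [wRs]) hW.t0
  have ht1 : T ≤ (465 / 10000 : ℝ) := le_trans hW.t1 (by norm_num [wRs])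
  have hT : |T| ≤ ((465 : ℕ) : ℝ) / 10000 := by
    rw [abs_le]
    push_cast
    constructor <;> linarith only [ht0, ht1]
  have kc : kC 4000 2110 2520 465 = true := by decide +kernel
  have ud : kU 4000 1000 40666 = true := by decide +kernel
  have ua : kU 4000 2110 20421 = true := by decide +kernel
  have ue : kU 4000 2520 17661 = true := by decide +kernel
  refine ⟨fun x y hA => ?_, fun x y hA hx => ?_, fun x y hA hx => ?_⟩
  · have hx0 := hA.x0
    have hx1 := hA.x1
    rcases le_total x (2110 / 10000) with hc | hc
    · have h := piP cI6_rs_1_pl (by norm_num) hL (hS x y hA) (Or.inl rfl)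
        (by push_cast; linarith only [hx0]) (by push_cast; linarith only [hc])
      have g0 := gL (be := 4000) (p := 2110) (G := 20420) (x := x) (y := 2110 / 10000)
        (by decide +kernel) (by linarith only [hx0]) hc (by push_cast; exact le_rfl) (by norm_num)
      have gm := gh_mono (x := 2110 / 10000) (y := xs) (by norm_num) ha (by linarith only [he])
      unfold lin at h
      push_cast at h g0
      linarith only [g0, gm, h, neg_abs_le (gh x - gh xs)]
    rcases le_total x (2520 / 10000) with hc2 | hc2
    · have h := piP cI6_rs_1_pm (by norm_num) hL (hS x y hA) (Or.inl rfl)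
        (by push_cast; linarith only [hc]) (by push_cast; linarith only [hc2])
      unfold lin at h
      push_cast at h
      linarith only [h, abs_nonneg (gh x - gh xs)]
    · have h := piP cI6_rs_1_pr (by norm_num) hL (hS x y hA) (Or.inl rfl)
        (by push_cast; linarith only [hc2]) (by push_cast; linarith only [hx1])
      have g0 := gL (be := 4000) (p := 2700) (G := 16752) (x := 2520 / 10000) (y := x)
        (by decide +kernel) (by norm_num) hc2 (by push_cast; linarith only [hx1]) (by norm_num)
      have gm := gh_mono (x := xs) (y := 2520 / 10000) (by linarith only [ha]) he (by norm_num)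
      unfold lin at h
      push_cast at h g0
      linarith only [g0, gm, h, le_abs_self (gh x - gh xs)]
  · have hx0 := hA.x0
    have hx1 := hA.x1
    have gm := gh_mono (x := x) (y := xs) (by linarith only [hx0]) hx.le (by linarith only [he, hx, hx0])
    rcases le_total x (2110 / 10000) with hc | hc
    · have h := piD1 cI6_rs_1_db (by norm_num) hL (hS x y hA) (by norm_num) (by norm_num)
        (by push_cast; linarith only [hx0]) (by push_cast; linarith only [hc]) (by push_cast; exact ha)
      have g1 := gU (x := x) (y := xs) ud (by norm_num) (by push_cast; linarith only [hx0]) hx.le (by linarith only [he, hx, hx0])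
      have g2 := gU (x := x) (y := 2110 / 10000) ud (by norm_num) (by push_cast; linarith only [hx0]) hc
        (by norm_num)
      have g3 := gS (u := 2110 / 10000) (v := xs) kc (by norm_num) (by norm_num)
        (by push_cast; exact le_rfl) ha (by push_cast; exact he) hT
      push_cast at h g1 g2 g3
      exact dn_fin (gz := gh (2110 / 10000)) h gm (by unfold lin; push_cast; linarith only [he, hx, hx0, g1])
        (by unfold lin; push_cast; linarith only [g2]) (by linarith only [g3])
    · have h := piD0 cI6_rs_1_da (by norm_num) hL (hS x y hA) (by norm_num) (by norm_num)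
        (by push_cast; linarith only [hc]) (by push_cast; linarith only [he, hx]) hx.le
      have g1 := gU (x := x) (y := xs) ua (by norm_num) (by push_cast; linarith only [hc]) hx.le (by linarith only [he, hx, hc])
      have g3 := gS (u := x) (v := xs) kc (by norm_num) (by norm_num)
        (by push_cast; exact hc) hx.le (by push_cast; exact he) hT
      push_cast at h g1 g3
      exact dn_fin (gz := gh x) h gm (by unfold lin; push_cast; linarith only [he, hx, hc, g1])
        (by unfold lin; push_cast; linarith only []) (by linarith only [g3])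
  · have hx0 := hA.x0
    have hx1 := hA.x1
    have gm := gh_mono (x := xs) (y := x) (by linarith only [ha, hx, hx1]) hx.le (by linarith only [ha, hx, hx1])
    have g1 := gU (x := xs) (y := x) ua (by norm_num) (by push_cast; linarith only [ha]) hx.le (by linarith only [ha, hx, hx1])
    rcases le_total x (2520 / 10000) with hc | hc
    · have h := piU0 cI6_rs_1_ua (by norm_num) hL (hS x y hA) (by norm_num)
        (by push_cast; linarith only [ha, hx]) (by push_cast; linarith only [hc])
      have g3 := gS (u := xs) (v := x) kc (by norm_num) (by norm_num)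
        (by push_cast; exact ha) hx.le (by push_cast; exact hc) hT
      push_cast at h g1 g3
      exact up_fin (gz := gh x) h gm (by unfold lin; push_cast; linarith only [ha, hx, g1, hc])
        (by unfold lin; push_cast; linarith only []) (by linarith only [g3])
    · have h := piU1 cI6_rs_1_ub (by norm_num) hL (hS x y hA) (by norm_num)
        (by push_cast; linarith only [hc]) (by push_cast; linarith only [hx1])
      have g2 := gU (x := 2520 / 10000) (y := x) ue (by norm_num) (by push_cast; exact le_rfl) hc
        (by linarith only [ha, hx, hx1])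
      have g3 := gS (u := xs) (v := 2520 / 10000) kc (by norm_num) (by norm_num)
        (by push_cast; exact ha) he (by push_cast; exact le_rfl) hT
      push_cast at h g1 g2 g3
      exact up_fin (gz := gh (2520 / 10000)) h gm (by unfold lin; push_cast; linarith only [ha, hx, hx1, g1])
        (by unfold lin; push_cast; linarith only [ha, hx, hx1, g2]) (by linarith only [g3])

end RQ

namespace RC

open RQ

theorem I6_one : RowI (wOne (109 / 1000) (168 / 1000) 0 (52 / 1000)) 6 (6 / 10) (3 / 100) (4 / 10) (16 / 100) (36 / 100) := by
  intro xs s T ρ hW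
  have h0 : (2140 / 10000 : ℝ) ≤ xs := le_trans (by norm_num [wOne]) hW.x0
  have h1 : xs ≤ (2980 / 10000 : ℝ) := le_trans hW.x1 (by norm_num [wOne])
  rcases le_total xs (2560 / 10000) with k0 | k0
  · exact RQ.sI6_one_0 hW h0 k0
  exact RQ.sI6_one_1 hW k0 h1

theorem I6_two : RowI (wTwo (109 / 1000) (168 / 1000) 0 (52 / 1000)) 6 (6 / 10) (3 / 100) (4 / 10) (125 / 1000) (30 / 100) := by
  intro xs s T ρ hW
  have h0 : (1860 / 10000 : ℝ) ≤ xs := le_trans (by norm_num [wTwo]) hW.x0
  have h1 : xs ≤ (2520 / 10000 : ℝ) := le_trans hW.x1 (by norm_num [wTwo])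
  exact RQ.sI6_two hW h0 h1

theorem I6_twoE : RowI (wTwoE (109 / 1000) (168 / 1000) 0 (52 / 1000)) 6 (6 / 10) (3 / 100) (4 / 10) (125 / 1000) (30 / 100) := by
  intro xs s T ρ hW
  have h0 : (1640 / 10000 : ℝ) ≤ xs := le_trans (by norm_num [wTwoE]) hW.x0
  have h1 : xs ≤ (1860 / 10000 : ℝ) := le_trans hW.x1 (by norm_num [wTwoE])
  exact RQ.sI6_twoE hW h0 h1

theorem I6_three : RowI (wThree (109 / 1000) (168 / 1000) 0 (52 / 1000)) 6 (6 / 10) (3 / 100) (4 / 10) (12 / 100) (30 / 100) := by
  intro xs s T ρ hW
  have h0 : (1880 / 10000 : ℝ) ≤ xs := le_trans (by norm_num [wThree]) hW.x0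
  have h1 : xs ≤ (2340 / 10000 : ℝ) := le_trans hW.x1 (by norm_num [wThree])
  exact RQ.sI6_three hW h0 h1

theorem I6_threeE : RowI (wThreeE (109 / 1000) (168 / 1000) 0 (52 / 1000)) 6 (6 / 10) (3 / 100) (4 / 10) (10 / 100) (26 / 100) := by
  intro xs s T ρ hW
  have h0 : (1710 / 10000 : ℝ) ≤ xs := le_trans (by norm_num [wThreeE]) hW.x0
  have h1 : xs ≤ (1950 / 10000 : ℝ) := le_trans hW.x1 (by norm_num [wThreeE])
  exact RQ.sI6_threeE hW h0 h1

theorem I6_rr : RowI (wRr (109 / 1000) (168 / 1000) 0 (52 / 1000)) 6 (6 / 10) (3 / 100) (4 / 10) (10 / 100) (27 / 100) := by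
  intro xs s T ρ hW
  have h0 : (1820 / 10000 : ℝ) ≤ xs := le_trans (by norm_num [wRr]) hW.x0
  have h1 : xs ≤ (2520 / 10000 : ℝ) := le_trans hW.x1 (by norm_num [wRr])
  exact RQ.sI6_rr hW h0 h1

theorem I6_rs : RowI (wRs (109 / 1000) (168 / 1000) 0 (52 / 1000)) 6 (6 / 10) (3 / 100) (4 / 10) (10 / 100) (27 / 100) := by
  intro xs s T ρ hW
  have h0 : (1700 / 10000 : ℝ) ≤ xs := le_trans (by norm_num [wRs]) hW.x0
  have h1 : xs ≤ (2520 / 10000 : ℝ) := le_trans hW.x1 (by norm_num [wRs])
  rcases le_total xs (2110 / 10000) with k0 | k0
  · exact RQ.sI6_rs_0 hW h0 k0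
  exact RQ.sI6_rs_1 hW k0 h1

theorem E6_one : RowE (wOne (136 / 1000) (174 / 1000) 0 (30 / 1000)) 6 (16 / 100) (36 / 100) := by
  intro xs s T ρ hW hD
  have ha : (2140 / 10000 : ℝ) ≤ xs := le_trans (by norm_num [wOne]) hW.x0
  have he : xs ≤ (2980 / 10000 : ℝ) := le_trans hW.x1 (by norm_num [wOne])
  have hN : Nums (wOne (136 / 1000) (174 / 1000) 0 (30 / 1000)) ((6 : ℕ) : ℝ) (2140 / 10000) (2980 / 10000) (16 / 100) (36 / 100)
      6 4720 1620 1360 0 10000 0 1200 1666 300 :=
    ⟨by norm_num, le_rfl, by norm_num, by norm_num, by norm_num, by norm_num, by norm_num [wOne],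
      by norm_num, Or.inr (by norm_num [wOne]), by norm_num, by norm_num [wOne],
      by norm_num [wOne], by norm_num, by norm_num [wOne], by norm_num [wOne], by norm_num,
      by norm_num [wOne], fun h => by norm_num at h, by norm_num [wOne]⟩
  have hS : ∀ x y, RC.Adm 6 T ρ (16 / 100) (36 / 100) x y →
      Sd ((6 : ℕ) : ℝ) 6 4720 1620 1360 0 10000 0 1200 1666 300 xs s T ρ x y :=
    fun x y hA => Sd.of hN hW ha he (by push_cast; exact hA)
  refine RampOK1.of (by norm_num) hD (fun y hA => ?_) (fun x y hA hx => ?_) (fun x y hA hx => ?_)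
  · have h := eP cE6_one_e (by norm_num) (hS xs y hA) (Or.inl rfl)
      (by push_cast; linarith only [ha]) (by push_cast; linarith only [he])
    push_cast at h
    exact h
  · have hx0 := hA.x0
    have hx1 := hA.x1
    rcases le_total x (2140 / 10000) with hc | hc
    · have h := eD1 cE6_one_db (by norm_num) (hS x y hA) (by norm_num) (by norm_num)
        (by norm_num) (by push_cast; linarith only [hx0]) (by push_cast; linarith only [hc]) (by push_cast; exact ha)
      push_cast at h
      exact h
    · have h := eD0 cE6_one_da (by norm_num) (hS x y hA) (by norm_num) (by norm_num)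
        (by push_cast; linarith only [hc]) (by push_cast; linarith only [he, hx]) hx.le
      push_cast at h
      exact h
  · have hx0 := hA.x0
    have hx1 := hA.x1
    rcases le_total x (2980 / 10000) with hc | hc
    · have h := eU0 cE6_one_ua (by norm_num) (hS x y hA) (by norm_num)
        (by push_cast; linarith only [ha, hx]) (by push_cast; linarith only [hc]) hx.le
      push_cast at h
      exact h
    · have h := eU1 cE6_one_ub (by norm_num) (hS x y hA) (by norm_num) (by norm_num)
        (by push_cast; linarith only [hc]) (by push_cast; linarith only [hx1]) (by push_cast; exact he)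
      push_cast at h
      exact h

theorem E6_two : RowE (wTwo (136 / 1000) (174 / 1000) 0 (30 / 1000)) 6 (125 / 1000) (30 / 100) := by
  intro xs s T ρ hW hD
  have ha : (1860 / 10000 : ℝ) ≤ xs := le_trans (by norm_num [wTwo]) hW.x0
  have he : xs ≤ (2520 / 10000 : ℝ) := le_trans hW.x1 (by norm_num [wTwo])
  have hN : Nums (wTwo (136 / 1000) (174 / 1000) 0 (30 / 1000)) ((6 : ℕ) : ℝ) (1860 / 10000) (2520 / 10000) (125 / 1000) (30 / 100)
      6 4260 1160 1360 0 1400 620 1480 1666 300 :=
    ⟨by norm_num, le_rfl, by norm_num, by norm_num, by norm_num, by norm_num, by norm_num [wTwo],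
      by norm_num, Or.inr (by norm_num [wTwo]), by norm_num, by norm_num [wTwo],
      by norm_num [wTwo], by norm_num, by norm_num [wTwo], by norm_num [wTwo], by norm_num,
      by norm_num [wTwo], fun h => by norm_num at h, by norm_num [wTwo]⟩
  have hS : ∀ x y, RC.Adm 6 T ρ (125 / 1000) (30 / 100) x y →
      Sd ((6 : ℕ) : ℝ) 6 4260 1160 1360 0 1400 620 1480 1666 300 xs s T ρ x y :=
    fun x y hA => Sd.of hN hW ha he (by push_cast; exact hA)
  refine RampOK1.of (by norm_num) hD (fun y hA => ?_) (fun x y hA hx => ?_) (fun x y hA hx => ?_)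
  · have h := eP cE6_two_e (by norm_num) (hS xs y hA) (Or.inl rfl)
      (by push_cast; linarith only [ha]) (by push_cast; linarith only [he])
    push_cast at h
    exact h
  · have hx0 := hA.x0
    have hx1 := hA.x1
    rcases le_total x (1860 / 10000) with hc | hc
    · have h := eD1 cE6_two_db (by norm_num) (hS x y hA) (by norm_num) (by norm_num)
        (by norm_num) (by push_cast; linarith only [hx0]) (by push_cast; linarith only [hc]) (by push_cast; exact ha)
      push_cast at h
      exact h
    · have h := eD0 cE6_two_da (by norm_num) (hS x y hA) (by norm_num) (by norm_num)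
        (by push_cast; linarith only [hc]) (by push_cast; linarith only [he, hx]) hx.le
      push_cast at h
      exact h
  · have hx0 := hA.x0
    have hx1 := hA.x1
    rcases le_total x (2520 / 10000) with hc | hc
    · have h := eU0 cE6_two_ua (by norm_num) (hS x y hA) (by norm_num)
        (by push_cast; linarith only [ha, hx]) (by push_cast; linarith only [hc]) hx.le
      push_cast at h
      exact h
    · have h := eU1 cE6_two_ub (by norm_num) (hS x y hA) (by norm_num) (by norm_num)
        (by push_cast; linarith only [hc]) (by push_cast; linarith only [hx1]) (by push_cast; exact he)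
      push_cast at h
      exact h

theorem E6_twoE : RowE (wTwoE (136 / 1000) (174 / 1000) 0 (30 / 1000)) 6 (125 / 1000) (30 / 100) := by
  intro xs s T ρ hW hD
  have ha : (1640 / 10000 : ℝ) ≤ xs := le_trans (by norm_num [wTwoE]) hW.x0
  have he : xs ≤ (1860 / 10000 : ℝ) := le_trans hW.x1 (by norm_num [wTwoE])
  have hN : Nums (wTwoE (136 / 1000) (174 / 1000) 0 (30 / 1000)) ((6 : ℕ) : ℝ) (1640 / 10000) (1860 / 10000) (125 / 1000) (30 / 100)
      6 3600 500 1360 0 1680 270 700 1666 300 :=
    ⟨by norm_num, le_rfl, by norm_num, by norm_num, by norm_num, by norm_num, by norm_num [wTwoE],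
      by norm_num, Or.inr (by norm_num [wTwoE]), by norm_num, by norm_num [wTwoE],
      by norm_num [wTwoE], by norm_num, by norm_num [wTwoE], by norm_num [wTwoE], by norm_num,
      by norm_num [wTwoE], fun h => by norm_num at h, by norm_num [wTwoE]⟩
  have hS : ∀ x y, RC.Adm 6 T ρ (125 / 1000) (30 / 100) x y →
      Sd ((6 : ℕ) : ℝ) 6 3600 500 1360 0 1680 270 700 1666 300 xs s T ρ x y :=
    fun x y hA => Sd.of hN hW ha he (by push_cast; exact hA)
  refine RampOK1.of (by norm_num) hD (fun y hA => ?_) (fun x y hA hx => ?_) (fun x y hA hx => ?_)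
  · have h := eP cE6_twoE_e (by norm_num) (hS xs y hA) (Or.inl rfl)
      (by push_cast; linarith only [ha]) (by push_cast; linarith only [he])
    push_cast at h
    exact h
  · have hx0 := hA.x0
    have hx1 := hA.x1
    rcases le_total x (1640 / 10000) with hc | hc
    · have h := eD1 cE6_twoE_db (by norm_num) (hS x y hA) (by norm_num) (by norm_num)
        (by norm_num) (by push_cast; linarith only [hx0]) (by push_cast; linarith only [hc]) (by push_cast; exact ha)
      push_cast at h
      exact h
    · have h := eD0 cE6_twoE_da (by norm_num) (hS x y hA) (by norm_num) (by norm_num)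
        (by push_cast; linarith only [hc]) (by push_cast; linarith only [he, hx]) hx.le
      push_cast at h
      exact h
  · have hx0 := hA.x0
    have hx1 := hA.x1
    rcases le_total x (1860 / 10000) with hc | hc
    · have h := eU0 cE6_twoE_ua (by norm_num) (hS x y hA) (by norm_num)
        (by push_cast; linarith only [ha, hx]) (by push_cast; linarith only [hc]) hx.le
      push_cast at h
      exact h
    · have h := eU1 cE6_twoE_ub (by norm_num) (hS x y hA) (by norm_num) (by norm_num)
        (by push_cast; linarith only [hc]) (by push_cast; linarith only [hx1]) (by push_cast; exact he)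
      push_cast at h
      exact h

theorem E6_three : RowE (wThree (136 / 1000) (174 / 1000) 0 (30 / 1000)) 6 (12 / 100) (30 / 100) := by
  intro xs s T ρ hW hD
  have ha : (1880 / 10000 : ℝ) ≤ xs := le_trans (by norm_num [wThree]) hW.x0
  have he : xs ≤ (2340 / 10000 : ℝ) := le_trans hW.x1 (by norm_num [wThree])
  have hN : Nums (wThree (136 / 1000) (174 / 1000) 0 (30 / 1000)) ((6 : ℕ) : ℝ) (1880 / 10000) (2340 / 10000) (12 / 100) (30 / 100)
      6 4080 980 1360 0 1200 1010 1590 1666 300 :=
    ⟨by norm_num, le_rfl, by norm_num, by norm_num, by norm_num, by norm_num, by norm_num [wThree],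
      by norm_num, Or.inr (by norm_num [wThree]), by norm_num, by norm_num [wThree],
      by norm_num [wThree], by norm_num, by norm_num [wThree], by norm_num [wThree], by norm_num,
      by norm_num [wThree], fun h => by norm_num at h, by norm_num [wThree]⟩
  have hS : ∀ x y, RC.Adm 6 T ρ (12 / 100) (30 / 100) x y →
      Sd ((6 : ℕ) : ℝ) 6 4080 980 1360 0 1200 1010 1590 1666 300 xs s T ρ x y :=
    fun x y hA => Sd.of hN hW ha he (by push_cast; exact hA)
  refine RampOK1.of (by norm_num) hD (fun y hA => ?_) (fun x y hA hx => ?_) (fun x y hA hx => ?_)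
  · have h := eP cE6_three_e (by norm_num) (hS xs y hA) (Or.inl rfl)
      (by push_cast; linarith only [ha]) (by push_cast; linarith only [he])
    push_cast at h
    exact h
  · have hx0 := hA.x0
    have hx1 := hA.x1
    rcases le_total x (1880 / 10000) with hc | hc
    · have h := eD1 cE6_three_db (by norm_num) (hS x y hA) (by norm_num) (by norm_num)
        (by norm_num) (by push_cast; linarith only [hx0]) (by push_cast; linarith only [hc]) (by push_cast; exact ha)
      push_cast at h
      exact h
    · have h := eD0 cE6_three_da (by norm_num) (hS x y hA) (by norm_num) (by norm_num)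
        (by push_cast; linarith only [hc]) (by push_cast; linarith only [he, hx]) hx.le
      push_cast at h
      exact h
  · have hx0 := hA.x0
    have hx1 := hA.x1
    rcases le_total x (2340 / 10000) with hc | hc
    · have h := eU0 cE6_three_ua (by norm_num) (hS x y hA) (by norm_num)
        (by push_cast; linarith only [ha, hx]) (by push_cast; linarith only [hc]) hx.le
      push_cast at h
      exact h
    · have h := eU1 cE6_three_ub (by norm_num) (hS x y hA) (by norm_num) (by norm_num)
        (by push_cast; linarith only [hc]) (by push_cast; linarith only [hx1]) (by push_cast; exact he)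
      push_cast at h
      exact h

theorem E6_threeE : RowE (wThreeE (136 / 1000) (174 / 1000) 0 (30 / 1000)) 6 (10 / 100) (26 / 100) := by
  intro xs s T ρ hW hD
  have ha : (1710 / 10000 : ℝ) ≤ xs := le_trans (by norm_num [wThreeE]) hW.x0
  have he : xs ≤ (1950 / 10000 : ℝ) := le_trans hW.x1 (by norm_num [wThreeE])
  have hN : Nums (wThreeE (136 / 1000) (174 / 1000) 0 (30 / 1000)) ((6 : ℕ) : ℝ) (1710 / 10000) (1950 / 10000) (10 / 100) (26 / 100)
      6 3690 590 1360 0 1200 1000 1400 1666 300 :=
    ⟨by norm_num, le_rfl, by norm_num, by norm_num, by norm_num, by norm_num,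
      by norm_num [wThreeE], by norm_num, Or.inr (by norm_num [wThreeE]), by norm_num,
      by norm_num [wThreeE], by norm_num [wThreeE], by norm_num, by norm_num [wThreeE],
      by norm_num [wThreeE], by norm_num, by norm_num [wThreeE], fun h => by norm_num at h,
      by norm_num [wThreeE]⟩
  have hS : ∀ x y, RC.Adm 6 T ρ (10 / 100) (26 / 100) x y →
      Sd ((6 : ℕ) : ℝ) 6 3690 590 1360 0 1200 1000 1400 1666 300 xs s T ρ x y :=
    fun x y hA => Sd.of hN hW ha he (by push_cast; exact hA)
  refine RampOK1.of (by norm_num) hD (fun y hA => ?_) (fun x y hA hx => ?_) (fun x y hA hx => ?_)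
  · have h := eP cE6_threeE_e (by norm_num) (hS xs y hA) (Or.inl rfl)
      (by push_cast; linarith only [ha]) (by push_cast; linarith only [he])
    push_cast at h
    exact h
  · have hx0 := hA.x0
    have hx1 := hA.x1
    rcases le_total x (1710 / 10000) with hc | hc
    · have h := eD1 cE6_threeE_db (by norm_num) (hS x y hA) (by norm_num) (by norm_num)
        (by norm_num) (by push_cast; linarith only [hx0]) (by push_cast; linarith only [hc]) (by push_cast; exact ha)
      push_cast at h
      exact h
    · have h := eD0 cE6_threeE_da (by norm_num) (hS x y hA) (by norm_num) (by norm_num)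
        (by push_cast; linarith only [hc]) (by push_cast; linarith only [he, hx]) hx.le
      push_cast at h
      exact h
  · have hx0 := hA.x0
    have hx1 := hA.x1
    rcases le_total x (1950 / 10000) with hc | hc
    · have h := eU0 cE6_threeE_ua (by norm_num) (hS x y hA) (by norm_num)
        (by push_cast; linarith only [ha, hx]) (by push_cast; linarith only [hc]) hx.le
      push_cast at h
      exact h
    · have h := eU1 cE6_threeE_ub (by norm_num) (hS x y hA) (by norm_num) (by norm_num)
        (by push_cast; linarith only [hc]) (by push_cast; linarith only [hx1]) (by push_cast; exact he)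
      push_cast at h
      exact h

theorem E6_rr : RowE (wRr (136 / 1000) (174 / 1000) 0 (30 / 1000)) 6 (10 / 100) (27 / 100) := by
  intro xs s T ρ hW hD
  have ha : (1820 / 10000 : ℝ) ≤ xs := le_trans (by norm_num [wRr]) hW.x0
  have he : xs ≤ (2520 / 10000 : ℝ) := le_trans hW.x1 (by norm_num [wRr])
  have hN : Nums (wRr (136 / 1000) (174 / 1000) 0 (30 / 1000)) ((6 : ℕ) : ℝ) (1820 / 10000) (2520 / 10000) (10 / 100) (27 / 100)
      6 4260 1160 1360 0 1200 1195 1965 1666 300 :=
    ⟨by norm_num, le_rfl, by norm_num, by norm_num, by norm_num, by norm_num, by norm_num [wRr],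
      by norm_num, Or.inr (by norm_num [wRr]), by norm_num, by norm_num [wRr], by norm_num [wRr],
      by norm_num, by norm_num [wRr], by norm_num [wRr], by norm_num, by norm_num [wRr],
      fun h => by norm_num at h, by norm_num [wRr]⟩
  have hS : ∀ x y, RC.Adm 6 T ρ (10 / 100) (27 / 100) x y →
      Sd ((6 : ℕ) : ℝ) 6 4260 1160 1360 0 1200 1195 1965 1666 300 xs s T ρ x y :=
    fun x y hA => Sd.of hN hW ha he (by push_cast; exact hA)
  refine RampOK1.of (by norm_num) hD (fun y hA => ?_) (fun x y hA hx => ?_) (fun x y hA hx => ?_)
  · have h := eP cE6_rr_e (by norm_num) (hS xs y hA) (Or.inl rfl)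
      (by push_cast; linarith only [ha]) (by push_cast; linarith only [he])
    push_cast at h
    exact h
  · have hx0 := hA.x0
    have hx1 := hA.x1
    rcases le_total x (1820 / 10000) with hc | hc
    · have h := eD1 cE6_rr_db (by norm_num) (hS x y hA) (by norm_num) (by norm_num)
        (by norm_num) (by push_cast; linarith only [hx0]) (by push_cast; linarith only [hc]) (by push_cast; exact ha)
      push_cast at h
      exact h
    · have h := eD0 cE6_rr_da (by norm_num) (hS x y hA) (by norm_num) (by norm_num)
        (by push_cast; linarith only [hc]) (by push_cast; linarith only [he, hx]) hx.le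
      push_cast at h
      exact h
  · have hx0 := hA.x0
    have hx1 := hA.x1
    rcases le_total x (2520 / 10000) with hc | hc
    · have h := eU0 cE6_rr_ua (by norm_num) (hS x y hA) (by norm_num)
        (by push_cast; linarith only [ha, hx]) (by push_cast; linarith only [hc]) hx.le
      push_cast at h
      exact h
    · have h := eU1 cE6_rr_ub (by norm_num) (hS x y hA) (by norm_num) (by norm_num)
        (by push_cast; linarith only [hc]) (by push_cast; linarith only [hx1]) (by push_cast; exact he)
      push_cast at h
      exact h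

theorem E6_rs : RowE (wRs (136 / 1000) (174 / 1000) 0 (30 / 1000)) 6 (10 / 100) (27 / 100) := by
  intro xs s T ρ hW hD
  have ha : (1700 / 10000 : ℝ) ≤ xs := le_trans (by norm_num [wRs]) hW.x0
  have he : xs ≤ (2520 / 10000 : ℝ) := le_trans hW.x1 (by norm_num [wRs])
  have hN : Nums (wRs (136 / 1000) (174 / 1000) 0 (30 / 1000)) ((6 : ℕ) : ℝ) (1700 / 10000) (2520 / 10000) (10 / 100) (27 / 100)
      6 4260 1160 1360 0 1200 1570 2045 1666 300 :=
    ⟨by norm_num, le_rfl, by norm_num, by norm_num, by norm_num, by norm_num, by norm_num [wRs],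
      by norm_num, Or.inr (by norm_num [wRs]), by norm_num, by norm_num [wRs], by norm_num [wRs],
      by norm_num, by norm_num [wRs], by norm_num [wRs], by norm_num, by norm_num [wRs],
      fun h => by norm_num at h, by norm_num [wRs]⟩
  have hS : ∀ x y, RC.Adm 6 T ρ (10 / 100) (27 / 100) x y →
      Sd ((6 : ℕ) : ℝ) 6 4260 1160 1360 0 1200 1570 2045 1666 300 xs s T ρ x y :=
    fun x y hA => Sd.of hN hW ha he (by push_cast; exact hA)
  refine RampOK1.of (by norm_num) hD (fun y hA => ?_) (fun x y hA hx => ?_) (fun x y hA hx => ?_)
  · have h := eP cE6_rs_e (by norm_num) (hS xs y hA) (Or.inl rfl)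
      (by push_cast; linarith only [ha]) (by push_cast; linarith only [he])
    push_cast at h
    exact h
  · have hx0 := hA.x0
    have hx1 := hA.x1
    rcases le_total x (1700 / 10000) with hc | hc
    · have h := eD1 cE6_rs_db (by norm_num) (hS x y hA) (by norm_num) (by norm_num)
        (by norm_num) (by push_cast; linarith only [hx0]) (by push_cast; linarith only [hc]) (by push_cast; exact ha)
      push_cast at h
      exact h
    · have h := eD0 cE6_rs_da (by norm_num) (hS x y hA) (by norm_num) (by norm_num)
        (by push_cast; linarith only [hc]) (by push_cast; linarith only [he, hx]) hx.le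
      push_cast at h
      exact h
  · have hx0 := hA.x0
    have hx1 := hA.x1
    rcases le_total x (2520 / 10000) with hc | hc
    · have h := eU0 cE6_rs_ua (by norm_num) (hS x y hA) (by norm_num)
        (by push_cast; linarith only [ha, hx]) (by push_cast; linarith only [hc]) hx.le
      push_cast at h
      exact h
    · have h := eU1 cE6_rs_ub (by norm_num) (hS x y hA) (by norm_num) (by norm_num)
        (by push_cast; linarith only [hc]) (by push_cast; linarith only [hx1]) (by push_cast; exact he)
      push_cast at h
      exact h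

end RC

end Pool.Agent.Work.MP_b30479_gtS.G2

end
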