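import Pool.Agent.Work.MP_b30479_gt.TBS.G2.RVa

/-!
# Values at a ring|ring hinge: rows
-/

set_option linter.unusedSimpArgs false

namespace Pool.Agent.Work.MP_b30479_gtS.G2

open VOL NumUs

namespace RV

variable {T s ρ x t : ℝ}

/-- left ramp of the ring variable (`σ = -1/2 + s`, `η = 4ρs`), target height `0` -/
theorem r1 (h0 : 0 ≤ T) (h1 : T ≤ 56 / 1000) (h2 : 116 / 1000 ≤ s) (h3 : s ≤ 1 / 4) (h4 : 0 ≤ ρ)
    (h5 : ρ ≤ 1045 / 10000) :
    fu (48 / 100) 0 (-(1 / 2) + s) (4 * ρ * s) < fu (105 / 1000) T (-(1 / 2) + s) (4 * ρ * s) := by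
  have h : chk [E.sub a0 a48] 24
      [NumIs.V.of 10000 0 560, NumIs.V.of 10000 1160 2500, NumIs.V.of 10000 0 1045] = true := by
    decide +kernel
  have hp := pos_of_chk (chk3 h (by norm_num) (x := T) (y := s) (z := ρ)
    (by norm_num; linarith only [h0]) (by norm_num; linarith only [h1]) (by norm_num; linarith only [h2]) (by norm_num; linarith only [h3])
    (by norm_num; linarith only [h4]) (by norm_num; linarith only [h5]))
  simp only [a0, a48, eT, es, ee, x0, E.val, NumIs.lkR] at hp
  push_cast at hp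
  unfold fu
  have e : 0 ≤ 4 * ρ * s := by positivity
  rw [show (48 / 100 : ℝ) + 1 / 2 + (-(1 / 2) + s) = 48 / 100 + s by ring,
    beyond (show (48 / 100 : ℝ) + 1 / 2 - (-(1 / 2) + s) = (48 / 100 - s) + 1 by ring),
    show (105 / 1000 : ℝ) + 1 / 2 + (-(1 / 2) + s) = 105 / 1000 + s by ring,
    before (show (105 / 1000 : ℝ) + 1 / 2 - (-(1 / 2) + s) = 1 - (s - 105 / 1000) by ring),
    zero_add, zero_sub, uu_neg, abs_neg, abs_of_nonneg e]
  simp only [div_one, zero_div] at hp
  linarith only [hp]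

/-- target height `T ≥ η` -/
theorem r2 (h0 : 0 ≤ T) (h1 : T ≤ 56 / 1000) (h2 : 99 / 1000 ≤ s) (h3 : s ≤ 1 / 4) (h4 : 0 ≤ ρ)
    (h5 : ρ ≤ 1045 / 10000) (h6 : 4 * ρ * s ≤ T) :
    fu (48 / 100) T (-(1 / 2) + s) (4 * ρ * s) < fu (105 / 1000) T (-(1 / 2) + s) (4 * ρ * s) := by
  unfold fu
  have e : 0 ≤ 4 * ρ * s := by positivity
  have e' : 0 ≤ T - 4 * ρ * s := by linarith only [h6]
  rw [show (48 / 100 : ℝ) + 1 / 2 + (-(1 / 2) + s) = 48 / 100 + s by ring,
    beyond (show (48 / 100 : ℝ) + 1 / 2 - (-(1 / 2) + s) = (48 / 100 - s) + 1 by ring),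
    show (105 / 1000 : ℝ) + 1 / 2 + (-(1 / 2) + s) = 105 / 1000 + s by ring, abs_of_nonneg e']
  rcases le_total s (11 / 100) with hs | hs
  · have h : chk [E.sub a0' a1, E.sub ee eT] 24
        [NumIs.V.of 10000 0 560, NumIs.V.of 10000 990 1100, NumIs.V.of 10000 0 1045] = true := by
      decide +kernel
    obtain ⟨f, hf, hp⟩ := chk3 h (by norm_num) (x := T) (y := s) (z := ρ)
      (by norm_num; linarith only [h0]) (by norm_num; linarith only [h1]) (by norm_num; linarith only [h2]) (by norm_num; linarith only [hs])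
      (by norm_num; linarith only [h4]) (by norm_num; linarith only [h5])
    have h7 : uu (6 / 1000 + 1) (T - 4 * ρ * s) ≤
        uu (105 / 1000 + 1 / 2 - (-(1 / 2) + s)) (T - 4 * ρ * s) :=
      anti1 (by linarith only [hs]) (by linarith only [h2]) (by linarith only []) (by rw [abs_of_nonneg e']; linarith only [h1, e])
    rw [uu_add_one, abs_of_nonneg e'] at h7
    simp only [List.mem_cons, List.not_mem_nil, or_false] at hf
    rcases hf with rfl | rfl
    · simp only [a0', a1, eT, es, ee, x0, E.val, NumIs.lkR] at hp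
      push_cast at hp
      simp only [div_one, zero_div] at hp
      linarith only [h7, hp]
    · simp only [eT, es, ee, x0, E.val, NumIs.lkR] at hp
      push_cast at hp
      simp only [div_one, zero_div] at hp
      linarith only [h6, hp]
  · have h : chk [E.sub a0 a1, E.sub ee eT] 24
        [NumIs.V.of 10000 0 560, NumIs.V.of 10000 1100 2500, NumIs.V.of 10000 0 1045] = true := by
      decide +kernel
    obtain ⟨f, hf, hp⟩ := chk3 h (by norm_num) (x := T) (y := s) (z := ρ)
      (by norm_num; linarith only [h0]) (by norm_num; linarith only [h1]) (by norm_num; linarith only [hs]) (by norm_num; linarith only [h3])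
      (by norm_num; linarith only [h4]) (by norm_num; linarith only [h5])
    rw [before (show (105 / 1000 : ℝ) + 1 / 2 - (-(1 / 2) + s) = 1 - (s - 105 / 1000) by ring)]
    simp only [List.mem_cons, List.not_mem_nil, or_false] at hf
    rcases hf with rfl | rfl
    · simp only [a0, a1, eT, es, ee, x0, E.val, NumIs.lkR] at hp
      push_cast at hp
      simp only [div_one, zero_div] at hp
      linarith only [hp]
    · simp only [eT, es, ee, x0, E.val, NumIs.lkR] at hp
      push_cast at hp
      simp only [div_one, zero_div] at hp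
      linarith only [h6, hp]

/-- flat part, `σ = -s` -/
theorem r3 (h0 : 0 ≤ T) (h1 : T ≤ 56 / 1000) (h2 : 3 / 100 ≤ s) (h3 : s ≤ 1 / 4) (h4 : 0 ≤ ρ)
    (h5 : ρ ≤ 1045 / 10000) : fu (48 / 100) 0 (-s) ρ < fu (105 / 1000) T (-s) ρ := by
  have h : chk [E.sub b0 b10] 24
      [NumIs.V.of 10000 0 560, NumIs.V.of 10000 300 2500, NumIs.V.of 10000 0 1045] = true := by
    decide +kernel
  have hp := pos_of_chk (chk3 h (by norm_num) (x := T) (y := s) (z := ρ)
    (by norm_num; linarith only [h0]) (by norm_num; linarith only [h1]) (by norm_num; linarith only [h2]) (by norm_num; linarith only [h3])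
    (by norm_num; linarith only [h4]) (by norm_num; linarith only [h5]))
  simp only [b0, b10, eT, es, er, x0, xh, E.val, NumIs.lkR] at hp
  push_cast at hp
  simp only [div_one, zero_div] at hp
  unfold fu
  rw [show (48 / 100 : ℝ) + 1 / 2 + -s = 98 / 100 - s by ring,
    beyond (show (48 / 100 : ℝ) + 1 / 2 - -s = (s - 2 / 100) + 1 by ring),
    show (105 / 1000 : ℝ) + 1 / 2 + -s = 605 / 1000 - s by ring,
    show (105 / 1000 : ℝ) + 1 / 2 - -s = 605 / 1000 + s by ring,
    zero_add, zero_sub, uu_neg, abs_neg, abs_of_nonneg h4]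
  linarith only [hp]

end RV

end Pool.Agent.Work.MP_b30479_gtS.G2
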