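import Pool.Agent.Work.MP_b30479_gt.TBS.G2.RVa
import Pool.Agent.Work.MP_b30479_gt.TBS.G2.WVal

section

/-!
# Part of `RVe`
-/
set_option linter.unusedSimpArgs false

namespace Pool.Agent.Work.MP_b30479_gtS.G2

open VOL NumUs

namespace RV

variable {T s ρ x t : ℝ}

/-- ramp, `σ = 1/2 - s > 0` -/
theorem r8b (h0 : 0 ≤ T) (h1 : T ≤ 385 / 10000) (h2 : 62 / 1000 ≤ s) (h3 : s ≤ 1 / 4) (h4 : 0 ≤ ρ)
    (h5 : ρ ≤ 725 / 10000) :
    fu (48 / 100) T (1 / 2 - s) (4 * ρ * s) < fu (105 / 1000) T (1 / 2 - s) (4 * ρ * s) := by
  unfold fu
  have e : 0 ≤ 4 * ρ * s := by positivity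
  have e' : 0 ≤ T + 4 * ρ * s := by linarith only [h0, e]
  rw [beyond (show (48 / 100 : ℝ) + 1 / 2 + (1 / 2 - s) = (48 / 100 - s) + 1 by ring),
    show (48 / 100 : ℝ) + 1 / 2 - (1 / 2 - s) = 48 / 100 + s by ring,
    show (105 / 1000 : ℝ) + 1 / 2 - (1 / 2 - s) = 105 / 1000 + s by ring, abs_of_nonneg e']
  rcases le_total s (11 / 100) with hs | hs
  · rcases le_total s (1 / 10) with hs' | hs'
    · have h : chk [E.sub d0' d1] 24
          [NumIs.V.of 10000 0 385, NumIs.V.of 10000 620 1000, NumIs.V.of 10000 0 725] = true := by
        decide +kernel
      have hp := pos_of_chk (chk3 h (by norm_num) (x := T) (y := s) (z := ρ)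
        (by norm_num; linarith only [h0]) (by norm_num; linarith only [h1]) (by norm_num; linarith only [h2])
        (by norm_num; linarith only [hs']) (by norm_num; linarith only [h4]) (by norm_num; linarith only [h5]))
      rw [beyond (show (105 / 1000 : ℝ) + 1 / 2 + (1 / 2 - s) = (105 / 1000 - s) + 1 by ring),
        abs_of_nonneg e']
      simp only [d0', d1, eT, es, ee, x0, E.val, NumIs.lkR] at hp
      push_cast at hp
      simp only [div_one, zero_div] at hp
      linarith only [hp]
    · have h : chk [E.sub d0'' d1] 24
          [NumIs.V.of 10000 0 385, NumIs.V.of 10000 1000 1100, NumIs.V.of 10000 0 725] = true := by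
        decide +kernel
      have hp := pos_of_chk (chk3 h (by norm_num) (x := T) (y := s) (z := ρ)
        (by norm_num; linarith only [h0]) (by norm_num; linarith only [h1]) (by norm_num; linarith only [hs'])
        (by norm_num; linarith only [hs]) (by norm_num; linarith only [h4]) (by norm_num; linarith only [h5]))
      have h7 : uu (5 / 1000 + 1) (T + 4 * ρ * s) ≤
          uu (105 / 1000 + 1 / 2 + (1 / 2 - s)) (T + 4 * ρ * s) :=
        anti1 (by linarith only [hs]) (by linarith only [hs']) (by linarith only []) (by rw [abs_of_nonneg e']; nlinarith only [h1, h3, h5, hs, h2])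
      rw [uu_add_one, abs_of_nonneg e'] at h7
      simp only [d0'', d1, eT, es, ee, x0, E.val, NumIs.lkR] at hp
      push_cast at hp
      simp only [div_one, zero_div] at hp
      linarith only [h7, hp]
  · have h : chk [E.sub d0 d1] 24
        [NumIs.V.of 10000 0 385, NumIs.V.of 10000 1100 2500, NumIs.V.of 10000 0 725] = true := by
      decide +kernel
    have hp := pos_of_chk (chk3 h (by norm_num) (x := T) (y := s) (z := ρ)
      (by norm_num; linarith only [h0]) (by norm_num; linarith only [h1]) (by norm_num; linarith only [hs])
      (by norm_num; linarith only [h3]) (by norm_num; linarith only [h4]) (by norm_num; linarith only [h5]))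
    rw [before (show (105 / 1000 : ℝ) + 1 / 2 + (1 / 2 - s) = 1 - (s - 105 / 1000) by ring)]
    simp only [d0, d1, eT, es, ee, x0, E.val, NumIs.lkR] at hp
    push_cast at hp
    simp only [div_one, zero_div] at hp
    linarith only [hp]

end RV

end Pool.Agent.Work.MP_b30479_gtS.G2

end

section

/-!
# Part of `V2BSt`
-/
set_option deprecated.oldSectionVars true

namespace Pool.Agent.Work.MP_b30479_gtS.G2

open VOL NumUs

namespace V2A.B

open NumUs.E

theorem eM_ok {x T s t : ℝ} {l0 l1 : ℤ} (M : MOk T t) (h0 : (l0 : ℝ) / 10000 ≤ x + s)
    (h1 : x + s ≤ l1 / 10000) : ∀ e ∈ eM l0 l1, e.val [x, T, s, t] ≤ 0 := by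
  have e2 : vxs.val [x, T, s, t] = x + s := rfl
  have e3 : vt.val [x, T, s, t] = t := rfl
  have e4 : vT.val [x, T, s, t] = T := rfl
  have s0 := M.s0
  have s1 := M.s1
  refine all_cons ?_ (all_cons ?_ (all_cons ?_ (all_cons ?_ all_nil)))
  · simp only [E.val, e3, e4]
    push_cast
    linarith only [s1]
  · simp only [E.val, e3, e4]
    push_cast
    linarith only [s0]
  · simp only [E.val, e2]
    push_cast
    linarith only [h0]
  · simp only [E.val, e2]
    push_cast
    linarith only [h1]

theorem h65_mem {x T : ℝ} (hx : 1 / 2 ≤ x) (hx' : x ≤ 65 / 100) (hT : T ≤ 0) :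
    T ≤ h65 x T ∧ h65 x T ≤ 0 := by
  unfold h65
  have r0 : 0 ≤ 13 / 3 - 20 / 3 * x := by linarith only [hx']
  have r1 : 13 / 3 - 20 / 3 * x ≤ 1 := by linarith only [hx]
  constructor
  · have := mul_le_mul_of_nonneg_left r1 (by linarith only [hT] : 0 ≤ -T)
    linarith only [this]
  · have := mul_nonneg (by linarith only [hT] : 0 ≤ -T) r0
    linarith only [this]

section
open NumIs (V)

theorem st_I_1 : chkT (S1 (q 34 100) vT (eq (-5650) (-270) 0 0 0 0 500 0) (eM 3800 5400)) 60
    21626759580114004998159972259764371234684532707241315631983149599616315090915524285272232281452427137877219047086233524997098628535086098659152251525884602648790151159662864349306782134558398588389128267081525619810760578179909187676230259195506798912071596512524294402643921547570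
    [V.of 10000 4100 5000, V.of 10000 (-1145) (-210), V.of 10000 (-1200) (-100), V.of 10000 (-900) 50] = true := by
  decide +kernel

end

end V2A.B

end Pool.Agent.Work.MP_b30479_gtS.G2

end

section

/-!
# Part of `V2BSt`
-/
set_option deprecated.oldSectionVars true

namespace Pool.Agent.Work.MP_b30479_gtS.G2

open VOL NumUs

namespace V2A.B

open NumUs.E

section
open NumIs (V)

theorem st_I_2 : chkT (S2 (q 34 100) vT (eq (-5650) (-270) 0 0 0 0 500 0) (eM 3800 5400)) 60
    692273367595041498477761170279231716047932540190643660953977493596886157528226116766964470305635731151812192164776752422185510915772594269461536726314960832283003720850820036027361173997784779668726027453180147814620483675643078295873410960073891803813966442827684377034260914223013549656105889230743180513180996085295897349530838729855006969263158606657943777901125712323895072260402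
    [V.of 10000 4100 5000, V.of 10000 (-1145) (-210), V.of 10000 (-1200) (-100), V.of 10000 (-900) 50] = true := by
  decide +kernel

end

end V2A.B

end Pool.Agent.Work.MP_b30479_gtS.G2

end

section

/-!
# Part of `V2BSt`
-/
set_option deprecated.oldSectionVars true

namespace Pool.Agent.Work.MP_b30479_gtS.G2

open VOL NumUs

namespace V2A.B

open NumUs.E

section
open NumIs (V)

theorem st_I_3 : chkT (S3 (q 34 100) vT (eq (-5650) (-270) 0 0 0 0 500 0) (eM 3800 5400)) 60
    9352434092051
    [V.of 10000 4100 5000, V.of 10000 (-1145) (-210), V.of 10000 (-100) 0, V.of 10000 (-900) 50] = true := by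
  decide +kernel

theorem st_I_4 : chkT (S4 (q 34 100) vT (eq (-5650) (-270) 0 0 0 0 500 0) (eM 3800 5400)) 60
    612634171659550769
    [V.of 10000 4100 5000, V.of 10000 (-1145) (-210), V.of 10000 (-100) 0, V.of 10000 (-900) 50] = true := by
  decide +kernel

theorem st_I_5 : chkT (S5 (q 34 100) vT (eq (-5650) (-270) 0 0 0 0 500 0) (eM 3800 5400)) 60
    2897094959818679090332335370314006933779
    [V.of 10000 4100 5000, V.of 10000 (-1145) (-210), V.of 10000 0 100, V.of 10000 (-900) 50] = true := by
  decide +kernel

theorem st_I_6 : chkT (S6 (q 34 100) vT (eq (-5650) (-270) 0 0 0 0 500 0) (eM 3800 5400)) 60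
    304679757260773739184554194755211643180859285667195923082053024407247469344703086081628436272007361933618
    [V.of 10000 4100 5000, V.of 10000 (-1145) (-210), V.of 10000 100 400, V.of 10000 (-900) 50] = true := by
  decide +kernel

theorem st_34_1_q1 : Pool.Agent.Work.NumUs.runT (S1 (q 34 100) ex65 (eq (-6000) (-1301) 299 (-16249) 16698 940 500 70) (eM 3800 5600)) 58
    9300907945457497284039340568666758845308996624658155918483064287989248517323659206124418820986905700214618547863232351943821494793020796400574967323796070837144588175695772567253988915802754849759650101268076978743063014004455419607855576506945466822171668541799242364743330268396978268715453271990362929910956148880940306275669530086877001452668669785996466983919003616348093559416851722769432565482536596581772870424140478389177004266690149736680726034654639139396026164029406888882950455799502786777542439026535571882575090361379327008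
    (Pool.Agent.Work.NumIs.setL 2 (Pool.Agent.Work.NumIs.setL 2 ([V.of 10000 5000 6000, V.of 10000 (-1145) (-210), V.of 10000 (-2200) (-100), V.of 10000 (-900) 50]))) =
    8350030638743666904474154461355580292981797603002597762491561646911374819333050950883331134992842701331911484586474275939012922885843332293716144454487729602535388443805664525284793932225542240221577255411243298072625960716129263090798696686980176060063153363800768438016516023454312237714660744377372243119932488535629597702563693816545720453046305 := by
  decide +kernel

end

end V2A.B

end Pool.Agent.Work.MP_b30479_gtS.G2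

end

section

/-!
# Part of `V2BSt`
-/
set_option deprecated.oldSectionVars true

namespace Pool.Agent.Work.MP_b30479_gtS.G2

open VOL NumUs

namespace V2A.B

open NumUs.E

section
open NumIs (V)

theorem st_34_1_q2 : Pool.Agent.Work.NumUs.runT (S1 (q 34 100) ex65 (eq (-6000) (-1301) 299 (-16249) 16698 940 500 70) (eM 3800 5600)) 58
    8350030638743666904474154461355580292981797603002597762491561646911374819333050950883331134992842701331911484586474275939012922885843332293716144454487729602535388443805664525284793932225542240221577255411243298072625960716129263090798696686980176060063153363800768438016516023454312237714660744377372243119932488535629597702563693816545720453046304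
    (Pool.Agent.Work.NumIs.setR 2 (Pool.Agent.Work.NumIs.setL 2 ([V.of 10000 5000 6000, V.of 10000 (-1145) (-210), V.of 10000 (-2200) (-100), V.of 10000 (-900) 50]))) =
    222213094516300878091030203562152660132271535928172083936009723639295492553438588067380035063658422330714315678099490759249075015927321620002759174474870758983604046804452107513305294649685646255839211974857934296351039672299297629502714115 := by
  decide +kernel

theorem st_34_1_q3 : Pool.Agent.Work.NumUs.runT (S1 (q 34 100) ex65 (eq (-6000) (-1301) 299 (-16249) 16698 940 500 70) (eM 3800 5600)) 59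
    222213094516300878091030203562152660132271535928172083936009723639295492553438588067380035063658422330714315678099490759249075015927321620002759174474870758983604046804452107513305294649685646255839211974857934296351039672299297629502714114
    (Pool.Agent.Work.NumIs.setR 2 ([V.of 10000 5000 6000, V.of 10000 (-1145) (-210), V.of 10000 (-2200) (-100), V.of 10000 (-900) 50])) =
    1 := by
  decide +kernel

end

end V2A.B

end Pool.Agent.Work.MP_b30479_gtS.G2

end

section

/-!
# Part of `V2BSt`
-/
set_option deprecated.oldSectionVars true

namespace Pool.Agent.Work.MP_b30479_gtS.G2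

open VOL NumUs

namespace V2A.B

open NumUs.E

section
open NumIs (V)

theorem st_34_2_q1 : Pool.Agent.Work.NumUs.runT (S2 (q 34 100) ex65 (eq (-6000) (-1301) 299 (-16249) 16698 940 500 70) (eM 3800 5600)) 59
    168779419589873433938788094662569408031843389201830754389700736809757285909005346127394306286947820777065555493930025129331575170778981025337006360769254721188263572230547860977247565753500468776939823126135767499751485352559838419262037594303137244129717427195043620299167340146407873863132936240836344920373944523875502688789925863465885733463196711239462747983969381280546603522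
    (Pool.Agent.Work.NumIs.setL 2 ([V.of 10000 5000 6000, V.of 10000 (-1145) (-210), V.of 10000 (-2200) (-100), V.of 10000 (-900) 50])) =
    9031550531672280234521968160018188032455774396556634283253317240602343385833836448427193635029686072101929986256454067225342546992944070055832047862704664504759434872032442032947605763 := by
  decide +kernel

end

end V2A.B

end Pool.Agent.Work.MP_b30479_gtS.G2

end

section

/-!
# Part of `V2BSt`
-/
set_option deprecated.oldSectionVars true

namespace Pool.Agent.Work.MP_b30479_gtS.G2

open VOL NumUs

namespace V2A.B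

open NumUs.E

section
open NumIs (V)

theorem st_34_2_q2 : Pool.Agent.Work.NumUs.runT (S2 (q 34 100) ex65 (eq (-6000) (-1301) 299 (-16249) 16698 940 500 70) (eM 3800 5600)) 59
    9031550531672280234521968160018188032455774396556634283253317240602343385833836448427193635029686072101929986256454067225342546992944070055832047862704664504759434872032442032947605762
    (Pool.Agent.Work.NumIs.setR 2 ([V.of 10000 5000 6000, V.of 10000 (-1145) (-210), V.of 10000 (-2200) (-100), V.of 10000 (-900) 50])) =
    1 := by
  decide +kernel

theorem st_34_3 : chkT (S3 (q 34 100) ex65 (eq (-6000) (-1301) 299 (-16249) 16698 940 500 70) (eM 3800 5600)) 60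
    9360895379457
    [V.of 10000 5000 6000, V.of 10000 (-1145) (-210), V.of 10000 (-100) 0, V.of 10000 (-900) 50] = true := by
  decide +kernel

theorem st_34_4 : chkT (S4 (q 34 100) ex65 (eq (-6000) (-1301) 299 (-16249) 16698 940 500 70) (eM 3800 5600)) 60
    559105
    [V.of 10000 5000 6000, V.of 10000 (-1145) (-210), V.of 10000 (-100) 0, V.of 10000 (-900) 50] = true := by
  decide +kernel

theorem st_34_5 : chkT (S5 (q 34 100) ex65 (eq (-6000) (-1301) 299 (-16249) 16698 940 500 70) (eM 3800 5600)) 60
    16539483637970756650553114635010954584574716583267283018155746805859461963567102890033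
    [V.of 10000 5000 6000, V.of 10000 (-1145) (-210), V.of 10000 0 100, V.of 10000 (-900) 50] = true := by
  decide +kernel

theorem st_34_6 : chkT (S6 (q 34 100) ex65 (eq (-6000) (-1301) 299 (-16249) 16698 940 500 70) (eM 3800 5600)) 60
    1054688751676567547602494803603022183952500334978681400373194229979016990512539128635893955834358484401885568426364969711108887676777843898775375504642482930831201073426968983392500118524939523143232145000015986994
    [V.of 10000 5000 6000, V.of 10000 (-1145) (-210), V.of 10000 100 400, V.of 10000 (-900) 50] = true := by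
  decide +kernel

end

end V2A.B

end Pool.Agent.Work.MP_b30479_gtS.G2

end

section

/-!
# Part of `V2BSt`
-/
set_option deprecated.oldSectionVars true

namespace Pool.Agent.Work.MP_b30479_gtS.G2

open VOL NumUs

namespace V2A.B

open NumUs.E

section
open NumIs (V)

theorem st_40_1 : chkT (S1 (q 40 100) ex65 (eq (-3560) (-1291) 215 (-15993) 12027 747 500 70) (eM 5600 6400)) 60
    209192949573944885144276352577140902899250639009922941632
    [V.of 10000 5200 6000, V.of 10000 (-1145) (-210), V.of 10000 (-400) (-100), V.of 10000 (-900) 50] = true := by
  decide +kernel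

theorem st_40_2 : chkT (S2 (q 40 100) ex65 (eq (-3560) (-1291) 215 (-15993) 12027 747 500 70) (eM 5600 6400)) 60
    740975589208299261200997157192337633391296
    [V.of 10000 5200 6000, V.of 10000 (-1145) (-210), V.of 10000 (-400) (-100), V.of 10000 (-900) 50] = true := by
  decide +kernel

theorem st_40_3 : chkT (S3 (q 40 100) ex65 (eq (-3560) (-1291) 215 (-15993) 12027 747 500 70) (eM 5600 6400)) 60
    36516149265
    [V.of 10000 5200 6000, V.of 10000 (-1145) (-210), V.of 10000 (-100) 0, V.of 10000 (-900) 50] = true := by
  decide +kernel

theorem st_40_4 : chkT (S4 (q 40 100) ex65 (eq (-3560) (-1291) 215 (-15993) 12027 747 500 70) (eM 5600 6400)) 60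
    2177
    [V.of 10000 5200 6000, V.of 10000 (-1145) (-210), V.of 10000 (-100) 0, V.of 10000 (-900) 50] = true := by
  decide +kernel

theorem st_40_5 : chkT (S5 (q 40 100) ex65 (eq (-3560) (-1291) 215 (-15993) 12027 747 500 70) (eM 5600 6400)) 60
    230002675727790220605682678711456806473300364524877381793401133531155
    [V.of 10000 5200 6000, V.of 10000 (-1145) (-210), V.of 10000 0 100, V.of 10000 (-900) 50] = true := by
  decide +kernel

theorem st_40_6 : chkT (S6 (q 40 100) ex65 (eq (-3560) (-1291) 215 (-15993) 12027 747 500 70) (eM 5600 6400)) 60
    2542155439939003924396049045687884754430219784860422629436223605362335824522339972322756969001636527198422806983627234726841208847650549838646731044211785598147246399500018600748885917760274253938994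
    [V.of 10000 5200 6000, V.of 10000 (-1145) (-210), V.of 10000 100 400, V.of 10000 (-900) 50] = true := by
  decide +kernel

theorem st_34e_1 : chkT (S1 (q 34 100) ex65 (eq (-18200) (-1129) (-1263) (-16161) 20569 1341 600 70) (eM 4600 5600)) 60
    1566863886218165468192526442097620759243822703211524441373892484521565398040882
    [V.of 10000 6000 6500, V.of 10000 (-1145) (-210), V.of 10000 (-1900) (-100), V.of 10000 (-900) 50] = true := by
  decide +kernel

theorem st_34e_2 : chkT (S2 (q 34 100) ex65 (eq (-18200) (-1129) (-1263) (-16161) 20569 1341 600 70) (eM 4600 5600)) 60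
    58024166035
    [V.of 10000 6000 6500, V.of 10000 (-1145) (-210), V.of 10000 (-1900) (-100), V.of 10000 (-900) 50] = true := by
  decide +kernel

theorem st_34e_3 : chkT (S3 (q 34 100) ex65 (eq (-18200) (-1129) (-1263) (-16161) 20569 1341 600 70) (eM 4600 5600)) 60
    13
    [V.of 10000 6000 6500, V.of 10000 (-1145) (-210), V.of 10000 (-100) 0, V.of 10000 (-900) 50] = true := by
  decide +kernel

theorem st_34e_4 : chkT (S4 (q 34 100) ex65 (eq (-18200) (-1129) (-1263) (-16161) 20569 1341 600 70) (eM 4600 5600)) 60
    8
    [V.of 10000 6000 6500, V.of 10000 (-1145) (-210), V.of 10000 (-100) 0, V.of 10000 (-900) 50] = true := by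
  decide +kernel

theorem st_34e_5 : chkT (S5 (q 34 100) ex65 (eq (-18200) (-1129) (-1263) (-16161) 20569 1341 600 70) (eM 4600 5600)) 60
    12
    [V.of 10000 6000 6500, V.of 10000 (-1145) (-210), V.of 10000 0 100, V.of 10000 (-900) 50] = true := by
  decide +kernel

theorem st_34e_6 : chkT (S6 (q 34 100) ex65 (eq (-18200) (-1129) (-1263) (-16161) 20569 1341 600 70) (eM 4600 5600)) 60
    12
    [V.of 10000 6000 6500, V.of 10000 (-1145) (-210), V.of 10000 100 400, V.of 10000 (-900) 50] = true := by
  decide +kernel

end

end V2A.B

end Pool.Agent.Work.MP_b30479_gtS.G2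

end

section

/-!
# Part of `V2BSt`
-/
set_option deprecated.oldSectionVars true

namespace Pool.Agent.Work.MP_b30479_gtS.G2

open VOL NumUs

namespace V2A.B

open NumUs.E

section
open NumIs (V)

theorem st_44e_1 : chkT (S1 (q 44 100) ex65 (eq (-14600) (-1119) (-1384) (-15445) 12133 1255 600 70) (eM 5600 6900)) 60
    3858908084868758079236295269540797492019894101695748964060673801716995469618
    [V.of 10000 6000 6500, V.of 10000 (-1145) (-210), V.of 10000 (-900) (-100), V.of 10000 (-900) 50] = true := by
  decide +kernel

theorem st_44e_2 : chkT (S2 (q 44 100) ex65 (eq (-14600) (-1119) (-1384) (-15445) 12133 1255 600 70) (eM 5600 6900)) 60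
    10313676681214440181565490
    [V.of 10000 6000 6500, V.of 10000 (-1145) (-210), V.of 10000 (-900) (-100), V.of 10000 (-900) 50] = true := by
  decide +kernel

theorem st_44e_3 : chkT (S3 (q 44 100) ex65 (eq (-14600) (-1119) (-1384) (-15445) 12133 1255 600 70) (eM 5600 6900)) 60
    9348134241041
    [V.of 10000 6000 6500, V.of 10000 (-1145) (-210), V.of 10000 (-100) 0, V.of 10000 (-900) 50] = true := by
  decide +kernel

theorem st_44e_4 : chkT (S4 (q 44 100) ex65 (eq (-14600) (-1119) (-1384) (-15445) 12133 1255 600 70) (eM 5600 6900)) 60
    8
    [V.of 10000 6000 6500, V.of 10000 (-1145) (-210), V.of 10000 (-100) 0, V.of 10000 (-900) 50] = true := by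
  decide +kernel

theorem st_44e_5 : chkT (S5 (q 44 100) ex65 (eq (-14600) (-1119) (-1384) (-15445) 12133 1255 600 70) (eM 5600 6900)) 60
    673913885115769637423172550963
    [V.of 10000 6000 6500, V.of 10000 (-1145) (-210), V.of 10000 0 100, V.of 10000 (-900) 50] = true := by
  decide +kernel

theorem st_44e_6 : chkT (S6 (q 44 100) ex65 (eq (-14600) (-1119) (-1384) (-15445) 12133 1255 600 70) (eM 5600 6900)) 60
    15073455359758041942417398591916843801941613103652506677214732804944827186
    [V.of 10000 6000 6500, V.of 10000 (-1145) (-210), V.of 10000 100 400, V.of 10000 (-900) 50] = true := by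
  decide +kernel

end

end V2A.B

end Pool.Agent.Work.MP_b30479_gtS.G2

end
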