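import Pool.Agent.Work.MP_b30479_gt.TBS.G2.RRT
import Pool.Agent.Work.MP_b30479_gt.TBS.G2.RRC7
import Pool.Agent.Work.MP_b30479_gt.TBS.G2.WLocF
import Pool.Agent.Work.MP_b30479_gt.TBS.G2.RPush
import Pool.Agent.Work.MP_b30479_gt.TBS.G2.RRC6
import Pool.Agent.Work.MP_b30479_gt.TBS.G2.RRC5a
import Pool.Agent.Work.MP_b30479_gt.TBS.G2.RRC5b
import Pool.Agent.Work.MP_b30479_gt.TBS.G2.RRC5c

section

/-!
# Rings with the ring variable on the ramp: the rows `b = 5`
-/

namespace Pool.Agent.Work.MP_b30479_gtS.G2

open Real NumIs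

namespace RC

open RQ

theorem E5_one : RowE (wOne5e 0 (43 / 1000)) 5 (16 / 100) (36 / 100) := by
  intro xs s T ρ hW hD
  have ha : (2166 / 10000 : ℝ) ≤ xs := le_trans (by norm_num [wOne5e]) hW.x0
  have he : xs ≤ (2783 / 10000 : ℝ) := le_trans hW.x1 (by norm_num [wOne5e])
  have hN : Nums (wOne5e 0 (43 / 1000)) ((5 : ℕ) : ℝ) (2166 / 10000) (2783 / 10000) (16 / 100) (36 / 100)
      5 4580 1203 1580 785 1521 200 1200 1500 430 :=
    ⟨by norm_num, le_rfl, by norm_num, by norm_num, by norm_num, by norm_num, by norm_num [wOne5e],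
      by norm_num, Or.inl (by norm_num [wOne5e]), by norm_num, by norm_num [wOne5e],
      by norm_num [wOne5e], by norm_num, by norm_num [wOne5e], by norm_num [wOne5e], by norm_num,
      by norm_num [wOne5e], fun _ => by norm_num [wOne5e], by norm_num [wOne5e]⟩
  have hS : ∀ x y, RC.Adm 5 T ρ (16 / 100) (36 / 100) x y →
      Sd ((5 : ℕ) : ℝ) 5 4580 1203 1580 785 1521 200 1200 1500 430 xs s T ρ x y :=
    fun x y hA => Sd.of hN hW ha he (by push_cast; exact hA)
  refine RampOK1.of (by norm_num) hD (fun y hA => ?_) (fun x y hA hx => ?_) (fun x y hA hx => ?_)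
  · have h := eP cE5_one_e (by norm_num) (hS xs y hA) (Or.inl rfl)
      (by push_cast; linarith only [ha]) (by push_cast; linarith only [he])
    push_cast at h
    exact h
  · have hx0 := hA.x0
    have hx1 := hA.x1
    rcases le_total x (2166 / 10000) with hc | hc
    · have h := eD1 cE5_one_db (by norm_num) (hS x y hA) (by norm_num) (by norm_num)
        (by norm_num) (by push_cast; linarith only [hx0]) (by push_cast; linarith only [hc]) (by push_cast; exact ha)
      push_cast at h
      exact h
    · have h := eD0 cE5_one_da (by norm_num) (hS x y hA) (by norm_num) (by norm_num)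
        (by push_cast; linarith only [hc]) (by push_cast; linarith only [he, hx]) hx.le
      push_cast at h
      exact h
  · have hx0 := hA.x0
    have hx1 := hA.x1
    rcases le_total x (2783 / 10000) with hc | hc
    · have h := eU0 cE5_one_ua (by norm_num) (hS x y hA) (by norm_num)
        (by push_cast; linarith only [ha, hx]) (by push_cast; linarith only [hc]) hx.le
      push_cast at h
      exact h
    · have h := eU1 cE5_one_ub (by norm_num) (hS x y hA) (by norm_num) (by norm_num)
        (by push_cast; linarith only [hc]) (by push_cast; linarith only [hx1]) (by push_cast; exact he)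
      push_cast at h
      exact h

theorem E5_two : RowE (wTwo (158 / 1000) (206 / 1000) 0 (43 / 1000)) 5 (125 / 1000) (30 / 100) := by
  intro xs s T ρ hW hD
  have ha : (1860 / 10000 : ℝ) ≤ xs := le_trans (by norm_num [wTwo]) hW.x0
  have he : xs ≤ (2520 / 10000 : ℝ) := le_trans hW.x1 (by norm_num [wTwo])
  have hN : Nums (wTwo (158 / 1000) (206 / 1000) 0 (43 / 1000)) ((5 : ℕ) : ℝ) (1860 / 10000) (2520 / 10000) (125 / 1000) (30 / 100)
      5 4495 940 1580 0 1400 620 1480 1500 430 :=
    ⟨by norm_num, le_rfl, by norm_num, by norm_num, by norm_num, by norm_num, by norm_num [wTwo],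
      by norm_num, Or.inl (by norm_num [wTwo]), by norm_num, by norm_num [wTwo],
      by norm_num [wTwo], by norm_num, by norm_num [wTwo], by norm_num [wTwo], by norm_num,
      by norm_num [wTwo], fun h => by norm_num at h, by norm_num [wTwo]⟩
  have hS : ∀ x y, RC.Adm 5 T ρ (125 / 1000) (30 / 100) x y →
      Sd ((5 : ℕ) : ℝ) 5 4495 940 1580 0 1400 620 1480 1500 430 xs s T ρ x y :=
    fun x y hA => Sd.of hN hW ha he (by push_cast; exact hA)
  refine RampOK1.of (by norm_num) hD (fun y hA => ?_) (fun x y hA hx => ?_) (fun x y hA hx => ?_)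
  · have h := eP cE5_two_e (by norm_num) (hS xs y hA) (Or.inl rfl)
      (by push_cast; linarith only [ha]) (by push_cast; linarith only [he])
    push_cast at h
    exact h
  · have hx0 := hA.x0
    have hx1 := hA.x1
    rcases le_total x (1860 / 10000) with hc | hc
    · have h := eD1 cE5_two_db (by norm_num) (hS x y hA) (by norm_num) (by norm_num)
        (by norm_num) (by push_cast; linarith only [hx0]) (by push_cast; linarith only [hc]) (by push_cast; exact ha)
      push_cast at h
      exact h
    · have h := eD0 cE5_two_da (by norm_num) (hS x y hA) (by norm_num) (by norm_num)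
        (by push_cast; linarith only [hc]) (by push_cast; linarith only [he, hx]) hx.le
      push_cast at h
      exact h
  · have hx0 := hA.x0
    have hx1 := hA.x1
    rcases le_total x (2520 / 10000) with hc | hc
    · have h := eU0 cE5_two_ua (by norm_num) (hS x y hA) (by norm_num)
        (by push_cast; linarith only [ha, hx]) (by push_cast; linarith only [hc]) hx.le
      push_cast at h
      exact h
    · have h := eU1 cE5_two_ub (by norm_num) (hS x y hA) (by norm_num) (by norm_num)
        (by push_cast; linarith only [hc]) (by push_cast; linarith only [hx1]) (by push_cast; exact he)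
      push_cast at h
      exact h

theorem E5_twoE : RowE (wTwoE (158 / 1000) (206 / 1000) 0 (43 / 1000)) 5 (125 / 1000) (30 / 100) := by
  intro xs s T ρ hW hD
  have ha : (1640 / 10000 : ℝ) ≤ xs := le_trans (by norm_num [wTwoE]) hW.x0
  have he : xs ≤ (1860 / 10000 : ℝ) := le_trans hW.x1 (by norm_num [wTwoE])
  have hN : Nums (wTwoE (158 / 1000) (206 / 1000) 0 (43 / 1000)) ((5 : ℕ) : ℝ) (1640 / 10000) (1860 / 10000) (125 / 1000) (30 / 100)
      5 3740 420 1580 0 1680 270 700 1500 430 :=
    ⟨by norm_num, le_rfl, by norm_num, by norm_num, by norm_num, by norm_num, by norm_num [wTwoE],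
      by norm_num, Or.inl (by norm_num [wTwoE]), by norm_num, by norm_num [wTwoE],
      by norm_num [wTwoE], by norm_num, by norm_num [wTwoE], by norm_num [wTwoE], by norm_num,
      by norm_num [wTwoE], fun h => by norm_num at h, by norm_num [wTwoE]⟩
  have hS : ∀ x y, RC.Adm 5 T ρ (125 / 1000) (30 / 100) x y →
      Sd ((5 : ℕ) : ℝ) 5 3740 420 1580 0 1680 270 700 1500 430 xs s T ρ x y :=
    fun x y hA => Sd.of hN hW ha he (by push_cast; exact hA)
  refine RampOK1.of (by norm_num) hD (fun y hA => ?_) (fun x y hA hx => ?_) (fun x y hA hx => ?_)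
  · have h := eP cE5_twoE_e (by norm_num) (hS xs y hA) (Or.inl rfl)
      (by push_cast; linarith only [ha]) (by push_cast; linarith only [he])
    push_cast at h
    exact h
  · have hx0 := hA.x0
    have hx1 := hA.x1
    rcases le_total x (1640 / 10000) with hc | hc
    · have h := eD1 cE5_twoE_db (by norm_num) (hS x y hA) (by norm_num) (by norm_num)
        (by norm_num) (by push_cast; linarith only [hx0]) (by push_cast; linarith only [hc]) (by push_cast; exact ha)
      push_cast at h
      exact h
    · have h := eD0 cE5_twoE_da (by norm_num) (hS x y hA) (by norm_num) (by norm_num)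
        (by push_cast; linarith only [hc]) (by push_cast; linarith only [he, hx]) hx.le
      push_cast at h
      exact h
  · have hx0 := hA.x0
    have hx1 := hA.x1
    rcases le_total x (1860 / 10000) with hc | hc
    · have h := eU0 cE5_twoE_ua (by norm_num) (hS x y hA) (by norm_num)
        (by push_cast; linarith only [ha, hx]) (by push_cast; linarith only [hc]) hx.le
      push_cast at h
      exact h
    · have h := eU1 cE5_twoE_ub (by norm_num) (hS x y hA) (by norm_num) (by norm_num)
        (by push_cast; linarith only [hc]) (by push_cast; linarith only [hx1]) (by push_cast; exact he)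
      push_cast at h
      exact h

theorem E5_three : RowE (wThree (158 / 1000) (206 / 1000) 0 (43 / 1000)) 5 (12 / 100) (30 / 100) := by
  intro xs s T ρ hW hD
  have ha : (1880 / 10000 : ℝ) ≤ xs := le_trans (by norm_num [wThree]) hW.x0
  have he : xs ≤ (2340 / 10000 : ℝ) := le_trans hW.x1 (by norm_num [wThree])
  have hN : Nums (wThree (158 / 1000) (206 / 1000) 0 (43 / 1000)) ((5 : ℕ) : ℝ) (1880 / 10000) (2340 / 10000) (12 / 100) (30 / 100)
      5 4400 760 1580 0 1200 1010 1590 1500 430 :=
    ⟨by norm_num, le_rfl, by norm_num, by norm_num, by norm_num, by norm_num, by norm_num [wThree],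
      by norm_num, Or.inr (by norm_num [wThree]), by norm_num, by norm_num [wThree],
      by norm_num [wThree], by norm_num, by norm_num [wThree], by norm_num [wThree], by norm_num,
      by norm_num [wThree], fun h => by norm_num at h, by norm_num [wThree]⟩
  have hS : ∀ x y, RC.Adm 5 T ρ (12 / 100) (30 / 100) x y →
      Sd ((5 : ℕ) : ℝ) 5 4400 760 1580 0 1200 1010 1590 1500 430 xs s T ρ x y :=
    fun x y hA => Sd.of hN hW ha he (by push_cast; exact hA)
  refine RampOK1.of (by norm_num) hD (fun y hA => ?_) (fun x y hA hx => ?_) (fun x y hA hx => ?_)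
  · have h := eP cE5_three_e (by norm_num) (hS xs y hA) (Or.inl rfl)
      (by push_cast; linarith only [ha]) (by push_cast; linarith only [he])
    push_cast at h
    exact h
  · have hx0 := hA.x0
    have hx1 := hA.x1
    rcases le_total x (1880 / 10000) with hc | hc
    · have h := eD1 cE5_three_db (by norm_num) (hS x y hA) (by norm_num) (by norm_num)
        (by norm_num) (by push_cast; linarith only [hx0]) (by push_cast; linarith only [hc]) (by push_cast; exact ha)
      push_cast at h
      exact h
    · have h := eD0 cE5_three_da (by norm_num) (hS x y hA) (by norm_num) (by norm_num)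
        (by push_cast; linarith only [hc]) (by push_cast; linarith only [he, hx]) hx.le
      push_cast at h
      exact h
  · have hx0 := hA.x0
    have hx1 := hA.x1
    rcases le_total x (2340 / 10000) with hc | hc
    · have h := eU0 cE5_three_ua (by norm_num) (hS x y hA) (by norm_num)
        (by push_cast; linarith only [ha, hx]) (by push_cast; linarith only [hc]) hx.le
      push_cast at h
      exact h
    · have h := eU1 cE5_three_ub (by norm_num) (hS x y hA) (by norm_num) (by norm_num)
        (by push_cast; linarith only [hc]) (by push_cast; linarith only [hx1]) (by push_cast; exact he)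
      push_cast at h
      exact h

theorem E5_threeE : RowE (wThreeE (158 / 1000) (206 / 1000) 0 (43 / 1000)) 5 (10 / 100) (26 / 100) := by
  intro xs s T ρ hW hD
  have ha : (1710 / 10000 : ℝ) ≤ xs := le_trans (by norm_num [wThreeE]) hW.x0
  have he : xs ≤ (1950 / 10000 : ℝ) := le_trans hW.x1 (by norm_num [wThreeE])
  have hN : Nums (wThreeE (158 / 1000) (206 / 1000) 0 (43 / 1000)) ((5 : ℕ) : ℝ) (1710 / 10000) (1950 / 10000) (10 / 100) (26 / 100)
      5 4010 370 1580 0 1200 1000 1400 1500 430 :=
    ⟨by norm_num, le_rfl, by norm_num, by norm_num, by norm_num, by norm_num,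
      by norm_num [wThreeE], by norm_num, Or.inr (by norm_num [wThreeE]), by norm_num,
      by norm_num [wThreeE], by norm_num [wThreeE], by norm_num, by norm_num [wThreeE],
      by norm_num [wThreeE], by norm_num, by norm_num [wThreeE], fun h => by norm_num at h,
      by norm_num [wThreeE]⟩
  have hS : ∀ x y, RC.Adm 5 T ρ (10 / 100) (26 / 100) x y →
      Sd ((5 : ℕ) : ℝ) 5 4010 370 1580 0 1200 1000 1400 1500 430 xs s T ρ x y :=
    fun x y hA => Sd.of hN hW ha he (by push_cast; exact hA)
  refine RampOK1.of (by norm_num) hD (fun y hA => ?_) (fun x y hA hx => ?_) (fun x y hA hx => ?_)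
  · have h := eP cE5_threeE_e (by norm_num) (hS xs y hA) (Or.inl rfl)
      (by push_cast; linarith only [ha]) (by push_cast; linarith only [he])
    push_cast at h
    exact h
  · have hx0 := hA.x0
    have hx1 := hA.x1
    rcases le_total x (1710 / 10000) with hc | hc
    · have h := eD1 cE5_threeE_db (by norm_num) (hS x y hA) (by norm_num) (by norm_num)
        (by norm_num) (by push_cast; linarith only [hx0]) (by push_cast; linarith only [hc]) (by push_cast; exact ha)
      push_cast at h
      exact h
    · have h := eD0 cE5_threeE_da (by norm_num) (hS x y hA) (by norm_num) (by norm_num)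
        (by push_cast; linarith only [hc]) (by push_cast; linarith only [he, hx]) hx.le
      push_cast at h
      exact h
  · have hx0 := hA.x0
    have hx1 := hA.x1
    rcases le_total x (1950 / 10000) with hc | hc
    · have h := eU0 cE5_threeE_ua (by norm_num) (hS x y hA) (by norm_num)
        (by push_cast; linarith only [ha, hx]) (by push_cast; linarith only [hc]) hx.le
      push_cast at h
      exact h
    · have h := eU1 cE5_threeE_ub (by norm_num) (hS x y hA) (by norm_num) (by norm_num)
        (by push_cast; linarith only [hc]) (by push_cast; linarith only [hx1]) (by push_cast; exact he)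
      push_cast at h
      exact h

theorem E5_rr : RowE (wRr (158 / 1000) (206 / 1000) 0 (43 / 1000)) 5 (10 / 100) (27 / 100) := by
  intro xs s T ρ hW hD
  have ha : (1820 / 10000 : ℝ) ≤ xs := le_trans (by norm_num [wRr]) hW.x0
  have he : xs ≤ (2520 / 10000 : ℝ) := le_trans hW.x1 (by norm_num [wRr])
  have hN : Nums (wRr (158 / 1000) (206 / 1000) 0 (43 / 1000)) ((5 : ℕ) : ℝ) (1820 / 10000) (2520 / 10000) (10 / 100) (27 / 100)
      5 4465 940 1580 0 1200 1195 1965 1500 430 :=
    ⟨by norm_num, le_rfl, by norm_num, by norm_num, by norm_num, by norm_num, by norm_num [wRr],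
      by norm_num, Or.inl (by norm_num [wRr]), by norm_num, by norm_num [wRr], by norm_num [wRr],
      by norm_num, by norm_num [wRr], by norm_num [wRr], by norm_num, by norm_num [wRr],
      fun h => by norm_num at h, by norm_num [wRr]⟩
  have hS : ∀ x y, RC.Adm 5 T ρ (10 / 100) (27 / 100) x y →
      Sd ((5 : ℕ) : ℝ) 5 4465 940 1580 0 1200 1195 1965 1500 430 xs s T ρ x y :=
    fun x y hA => Sd.of hN hW ha he (by push_cast; exact hA)
  refine RampOK1.of (by norm_num) hD (fun y hA => ?_) (fun x y hA hx => ?_) (fun x y hA hx => ?_)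
  · have h := eP cE5_rr_e (by norm_num) (hS xs y hA) (Or.inl rfl)
      (by push_cast; linarith only [ha]) (by push_cast; linarith only [he])
    push_cast at h
    exact h
  · have hx0 := hA.x0
    have hx1 := hA.x1
    rcases le_total x (1820 / 10000) with hc | hc
    · have h := eD1 cE5_rr_db (by norm_num) (hS x y hA) (by norm_num) (by norm_num)
        (by norm_num) (by push_cast; linarith only [hx0]) (by push_cast; linarith only [hc]) (by push_cast; exact ha)
      push_cast at h
      exact h
    · have h := eD0 cE5_rr_da (by norm_num) (hS x y hA) (by norm_num) (by norm_num)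
        (by push_cast; linarith only [hc]) (by push_cast; linarith only [he, hx]) hx.le
      push_cast at h
      exact h
  · have hx0 := hA.x0
    have hx1 := hA.x1
    rcases le_total x (2520 / 10000) with hc | hc
    · have h := eU0 cE5_rr_ua (by norm_num) (hS x y hA) (by norm_num)
        (by push_cast; linarith only [ha, hx]) (by push_cast; linarith only [hc]) hx.le
      push_cast at h
      exact h
    · have h := eU1 cE5_rr_ub (by norm_num) (hS x y hA) (by norm_num) (by norm_num)
        (by push_cast; linarith only [hc]) (by push_cast; linarith only [hx1]) (by push_cast; exact he)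
      push_cast at h
      exact h

theorem E5_rs : RowE (wRs (158 / 1000) (206 / 1000) 0 (43 / 1000)) 5 (10 / 100) (27 / 100) := by
  intro xs s T ρ hW hD
  have ha : (1700 / 10000 : ℝ) ≤ xs := le_trans (by norm_num [wRs]) hW.x0
  have he : xs ≤ (2520 / 10000 : ℝ) := le_trans hW.x1 (by norm_num [wRs])
  have hN : Nums (wRs (158 / 1000) (206 / 1000) 0 (43 / 1000)) ((5 : ℕ) : ℝ) (1700 / 10000) (2520 / 10000) (10 / 100) (27 / 100)
      5 4465 940 1580 0 1200 1570 2045 1500 430 :=
    ⟨by norm_num, le_rfl, by norm_num, by norm_num, by norm_num, by norm_num, by norm_num [wRs],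
      by norm_num, Or.inl (by norm_num [wRs]), by norm_num, by norm_num [wRs], by norm_num [wRs],
      by norm_num, by norm_num [wRs], by norm_num [wRs], by norm_num, by norm_num [wRs],
      fun h => by norm_num at h, by norm_num [wRs]⟩
  have hS : ∀ x y, RC.Adm 5 T ρ (10 / 100) (27 / 100) x y →
      Sd ((5 : ℕ) : ℝ) 5 4465 940 1580 0 1200 1570 2045 1500 430 xs s T ρ x y :=
    fun x y hA => Sd.of hN hW ha he (by push_cast; exact hA)
  refine RampOK1.of (by norm_num) hD (fun y hA => ?_) (fun x y hA hx => ?_) (fun x y hA hx => ?_)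
  · have h := eP cE5_rs_e (by norm_num) (hS xs y hA) (Or.inl rfl)
      (by push_cast; linarith only [ha]) (by push_cast; linarith only [he])
    push_cast at h
    exact h
  · have hx0 := hA.x0
    have hx1 := hA.x1
    rcases le_total x (1700 / 10000) with hc | hc
    · have h := eD1 cE5_rs_db (by norm_num) (hS x y hA) (by norm_num) (by norm_num)
        (by norm_num) (by push_cast; linarith only [hx0]) (by push_cast; linarith only [hc]) (by push_cast; exact ha)
      push_cast at h
      exact h
    · have h := eD0 cE5_rs_da (by norm_num) (hS x y hA) (by norm_num) (by norm_num)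
        (by push_cast; linarith only [hc]) (by push_cast; linarith only [he, hx]) hx.le
      push_cast at h
      exact h
  · have hx0 := hA.x0
    have hx1 := hA.x1
    rcases le_total x (2520 / 10000) with hc | hc
    · have h := eU0 cE5_rs_ua (by norm_num) (hS x y hA) (by norm_num)
        (by push_cast; linarith only [ha, hx]) (by push_cast; linarith only [hc]) hx.le
      push_cast at h
      exact h
    · have h := eU1 cE5_rs_ub (by norm_num) (hS x y hA) (by norm_num) (by norm_num)
        (by push_cast; linarith only [hc]) (by push_cast; linarith only [hx1]) (by push_cast; exact he)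
      push_cast at h
      exact h

end RC

end Pool.Agent.Work.MP_b30479_gtS.G2

end

section

/-!
# Rings with the ring variable on the ramp: the rows `b ≥ 7`
-/

namespace Pool.Agent.Work.MP_b30479_gtS.G2

open Real NumIs

namespace RQ

theorem lam12 : lam 1 2 1 = 1 / 2 := by
  unfold lam
  norm_num

end RQ

namespace RC

open RQ

theorem I7_one {b : ℝ} (hb : 7 ≤ b) : RowI (wOne 0 (155 / 1000) 0 (40 / 1000)) b (1 / 2) (1 / 50) 0
    (16 / 100) (36 / 100) := by
  intro xs s T ρ hW
  have ha : (2140 / 10000 : ℝ) ≤ xs := le_trans (by norm_num [wOne]) hW.x0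
  have he : xs ≤ (2980 / 10000 : ℝ) := le_trans hW.x1 (by norm_num [wOne])
  have hN : Nums (wOne 0 (155 / 1000) 0 (40 / 1000)) b (2140 / 10000) (2980 / 10000) (16 / 100) (36 / 100)
      7 4530 4999 0 0 10000 0 1200 1785 400 :=
    ⟨by norm_num, by push_cast; exact hb, by norm_num, by norm_num, by norm_num, by norm_num,
      by norm_num [wOne], by norm_num, Or.inr (by norm_num [wOne]), by norm_num,
      by norm_num [wOne], by norm_num [wOne], by norm_num, by norm_num [wOne], by norm_num [wOne],
      by norm_num, by norm_num [wOne], fun h => by norm_num at h, by norm_num [wOne]⟩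
  refine RampOK.of_pos (by norm_num) fun x y hA => ?_
  have h := piP cI7_one_p (by norm_num) lam12 (Sd.of hN hW ha he hA) (Or.inr (by norm_num))
    (by push_cast; linarith only [hA, hA.x0]) (by push_cast; linarith only [hA, hA.x1])
  unfold lin at h
  push_cast at h
  linarith only [h]

theorem I7_two {b : ℝ} (hb : 7 ≤ b) : RowI (wTwo 0 (155 / 1000) 0 (40 / 1000)) b (1 / 2) (1 / 50) 0
    (125 / 1000) (30 / 100) := by
  intro xs s T ρ hW
  have ha : (1860 / 10000 : ℝ) ≤ xs := le_trans (by norm_num [wTwo]) hW.x0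
  have he : xs ≤ (2520 / 10000 : ℝ) := le_trans hW.x1 (by norm_num [wTwo])
  have hN : Nums (wTwo 0 (155 / 1000) 0 (40 / 1000)) b (1860 / 10000) (2520 / 10000) (125 / 1000) (30 / 100)
      7 4070 4999 0 0 1400 620 1480 1785 400 :=
    ⟨by norm_num, by push_cast; exact hb, by norm_num, by norm_num, by norm_num, by norm_num,
      by norm_num [wTwo], by norm_num, Or.inr (by norm_num [wTwo]), by norm_num,
      by norm_num [wTwo], by norm_num [wTwo], by norm_num, by norm_num [wTwo], by norm_num [wTwo],
      by norm_num, by norm_num [wTwo], fun h => by norm_num at h, by norm_num [wTwo]⟩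
  refine RampOK.of_pos (by norm_num) fun x y hA => ?_
  have h := piP cI7_two_p (by norm_num) lam12 (Sd.of hN hW ha he hA) (Or.inr (by norm_num))
    (by push_cast; linarith only [hA, hA.x0]) (by push_cast; linarith only [hA, hA.x1])
  unfold lin at h
  push_cast at h
  linarith only [h]

theorem I7_twoE {b : ℝ} (hb : 7 ≤ b) : RowI (wTwoE 0 (155 / 1000) 0 (40 / 1000)) b (1 / 2) (1 / 50) 0
    (125 / 1000) (30 / 100) := by
  intro xs s T ρ hW
  have ha : (1640 / 10000 : ℝ) ≤ xs := le_trans (by norm_num [wTwoE]) hW.x0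
  have he : xs ≤ (1860 / 10000 : ℝ) := le_trans hW.x1 (by norm_num [wTwoE])
  have hN : Nums (wTwoE 0 (155 / 1000) 0 (40 / 1000)) b (1640 / 10000) (1860 / 10000) (125 / 1000) (30 / 100)
      7 3410 4999 0 0 1680 270 700 1785 400 :=
    ⟨by norm_num, by push_cast; exact hb, by norm_num, by norm_num, by norm_num, by norm_num,
      by norm_num [wTwoE], by norm_num, Or.inr (by norm_num [wTwoE]), by norm_num,
      by norm_num [wTwoE], by norm_num [wTwoE], by norm_num, by norm_num [wTwoE],
      by norm_num [wTwoE], by norm_num, by norm_num [wTwoE], fun h => by norm_num at h,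
      by norm_num [wTwoE]⟩
  refine RampOK.of_pos (by norm_num) fun x y hA => ?_
  have h := piP cI7_twoE_p (by norm_num) lam12 (Sd.of hN hW ha he hA) (Or.inr (by norm_num))
    (by push_cast; linarith only [hA, hA.x0]) (by push_cast; linarith only [hA, hA.x1])
  unfold lin at h
  push_cast at h
  linarith only [h]

theorem I7_three {b : ℝ} (hb : 7 ≤ b) : RowI (wThree 0 (155 / 1000) 0 (40 / 1000)) b (1 / 2) (1 / 50) 0
    (12 / 100) (30 / 100) := by
  intro xs s T ρ hW
  have ha : (1880 / 10000 : ℝ) ≤ xs := le_trans (by norm_num [wThree]) hW.x0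
  have he : xs ≤ (2340 / 10000 : ℝ) := le_trans hW.x1 (by norm_num [wThree])
  have hN : Nums (wThree 0 (155 / 1000) 0 (40 / 1000)) b (1880 / 10000) (2340 / 10000) (12 / 100) (30 / 100)
      7 3890 4999 0 0 1200 1010 1590 1785 400 :=
    ⟨by norm_num, by push_cast; exact hb, by norm_num, by norm_num, by norm_num, by norm_num,
      by norm_num [wThree], by norm_num, Or.inr (by norm_num [wThree]), by norm_num,
      by norm_num [wThree], by norm_num [wThree], by norm_num, by norm_num [wThree],
      by norm_num [wThree], by norm_num, by norm_num [wThree], fun h => by norm_num at h,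
      by norm_num [wThree]⟩
  refine RampOK.of_pos (by norm_num) fun x y hA => ?_
  have h := piP cI7_three_p (by norm_num) lam12 (Sd.of hN hW ha he hA) (Or.inr (by norm_num))
    (by push_cast; linarith only [hA, hA.x0]) (by push_cast; linarith only [hA, hA.x1])
  unfold lin at h
  push_cast at h
  linarith only [h]

theorem I7_threeE {b : ℝ} (hb : 7 ≤ b) : RowI (wThreeE 0 (155 / 1000) 0 (40 / 1000)) b (1 / 2) (1 / 50) 0
    (10 / 100) (26 / 100) := by
  intro xs s T ρ hW
  have ha : (1710 / 10000 : ℝ) ≤ xs := le_trans (by norm_num [wThreeE]) hW.x0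
  have he : xs ≤ (1950 / 10000 : ℝ) := le_trans hW.x1 (by norm_num [wThreeE])
  have hN : Nums (wThreeE 0 (155 / 1000) 0 (40 / 1000)) b (1710 / 10000) (1950 / 10000) (10 / 100) (26 / 100)
      7 3500 4999 0 0 1200 1000 1400 1785 400 :=
    ⟨by norm_num, by push_cast; exact hb, by norm_num, by norm_num, by norm_num, by norm_num,
      by norm_num [wThreeE], by norm_num, Or.inr (by norm_num [wThreeE]), by norm_num,
      by norm_num [wThreeE], by norm_num [wThreeE], by norm_num, by norm_num [wThreeE],
      by norm_num [wThreeE], by norm_num, by norm_num [wThreeE], fun h => by norm_num at h,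
      by norm_num [wThreeE]⟩
  refine RampOK.of_pos (by norm_num) fun x y hA => ?_
  have h := piP cI7_threeE_p (by norm_num) lam12 (Sd.of hN hW ha he hA) (Or.inr (by norm_num))
    (by push_cast; linarith only [hA, hA.x0]) (by push_cast; linarith only [hA, hA.x1])
  unfold lin at h
  push_cast at h
  linarith only [h]

theorem I7_rr {b : ℝ} (hb : 7 ≤ b) : RowI (wRr 0 (155 / 1000) 0 (40 / 1000)) b (1 / 2) (1 / 50) 0
    (10 / 100) (27 / 100) := by
  intro xs s T ρ hW
  have ha : (1820 / 10000 : ℝ) ≤ xs := le_trans (by norm_num [wRr]) hW.x0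
  have he : xs ≤ (2520 / 10000 : ℝ) := le_trans hW.x1 (by norm_num [wRr])
  have hN : Nums (wRr 0 (155 / 1000) 0 (40 / 1000)) b (1820 / 10000) (2520 / 10000) (10 / 100) (27 / 100)
      7 4070 4999 0 0 1200 1195 1965 1785 400 :=
    ⟨by norm_num, by push_cast; exact hb, by norm_num, by norm_num, by norm_num, by norm_num,
      by norm_num [wRr], by norm_num, Or.inr (by norm_num [wRr]), by norm_num, by norm_num [wRr],
      by norm_num [wRr], by norm_num, by norm_num [wRr], by norm_num [wRr], by norm_num,
      by norm_num [wRr], fun h => by norm_num at h, by norm_num [wRr]⟩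
  refine RampOK.of_pos (by norm_num) fun x y hA => ?_
  have h := piP cI7_rr_p (by norm_num) lam12 (Sd.of hN hW ha he hA) (Or.inr (by norm_num))
    (by push_cast; linarith only [hA, hA.x0]) (by push_cast; linarith only [hA, hA.x1])
  unfold lin at h
  push_cast at h
  linarith only [h]

theorem I7_rs {b : ℝ} (hb : 7 ≤ b) : RowI (wRs 0 (155 / 1000) 0 (40 / 1000)) b (1 / 2) (1 / 50) 0
    (10 / 100) (27 / 100) := by
  intro xs s T ρ hW
  have ha : (1700 / 10000 : ℝ) ≤ xs := le_trans (by norm_num [wRs]) hW.x0
  have he : xs ≤ (2520 / 10000 : ℝ) := le_trans hW.x1 (by norm_num [wRs])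
  have hN : Nums (wRs 0 (155 / 1000) 0 (40 / 1000)) b (1700 / 10000) (2520 / 10000) (10 / 100) (27 / 100)
      7 4070 4999 0 0 1200 1570 2045 1785 400 :=
    ⟨by norm_num, by push_cast; exact hb, by norm_num, by norm_num, by norm_num, by norm_num,
      by norm_num [wRs], by norm_num, Or.inr (by norm_num [wRs]), by norm_num, by norm_num [wRs],
      by norm_num [wRs], by norm_num, by norm_num [wRs], by norm_num [wRs], by norm_num,
      by norm_num [wRs], fun h => by norm_num at h, by norm_num [wRs]⟩
  refine RampOK.of_pos (by norm_num) fun x y hA => ?_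
  have h := piP cI7_rs_p (by norm_num) lam12 (Sd.of hN hW ha he hA) (Or.inr (by norm_num))
    (by push_cast; linarith only [hA, hA.x0]) (by push_cast; linarith only [hA, hA.x1])
  unfold lin at h
  push_cast at h
  linarith only [h]

theorem E7_one {b : ℝ} (hb : 7 ≤ b) : RowE (wOne 0 (155 / 1000) 0 (22 / 1000)) b
    (16 / 100) (36 / 100) := by
  intro xs s T ρ hW hD
  have ha : (2140 / 10000 : ℝ) ≤ xs := le_trans (by norm_num [wOne]) hW.x0
  have he : xs ≤ (2980 / 10000 : ℝ) := le_trans hW.x1 (by norm_num [wOne])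
  have hN : Nums (wOne 0 (155 / 1000) 0 (22 / 1000)) b (2140 / 10000) (2980 / 10000) (16 / 100) (36 / 100)
      7 4530 4999 0 0 10000 0 1200 1785 220 :=
    ⟨by norm_num, by push_cast; exact hb, by norm_num, by norm_num, by norm_num, by norm_num,
      by norm_num [wOne], by norm_num, Or.inr (by norm_num [wOne]), by norm_num,
      by norm_num [wOne], by norm_num [wOne], by norm_num, by norm_num [wOne], by norm_num [wOne],
      by norm_num, by norm_num [wOne], fun h => by norm_num at h, by norm_num [wOne]⟩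
  have key : ∀ x y, RC.Adm b T ρ (16 / 100) (36 / 100) x y → ∃ l, 0 < Ph 1 l b xs (1 / 2 - s) T ρ x y :=
    fun x y hA => eP cE7_one_p (by norm_num) (Sd.of hN hW ha he hA)
      (Or.inr ⟨rfl, by norm_num⟩) (by push_cast; linarith only [hA, hA.x0]) (by push_cast; linarith only [hA, hA.x1])
  exact RampOK1.of (by linarith only [hb]) hD (fun y hA => key _ _ hA)
    (fun x y hA _ => (key _ _ hA).imp fun l h => Or.inl h)
    (fun x y hA _ => (key _ _ hA).imp fun l h => Or.inl h)

theorem E7_two {b : ℝ} (hb : 7 ≤ b) : RowE (wTwo 0 (155 / 1000) 0 (22 / 1000)) b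
    (125 / 1000) (30 / 100) := by
  intro xs s T ρ hW hD
  have ha : (1860 / 10000 : ℝ) ≤ xs := le_trans (by norm_num [wTwo]) hW.x0
  have he : xs ≤ (2520 / 10000 : ℝ) := le_trans hW.x1 (by norm_num [wTwo])
  have hN : Nums (wTwo 0 (155 / 1000) 0 (22 / 1000)) b (1860 / 10000) (2520 / 10000) (125 / 1000) (30 / 100)
      7 4070 4999 0 0 1400 620 1480 1785 220 :=
    ⟨by norm_num, by push_cast; exact hb, by norm_num, by norm_num, by norm_num, by norm_num,
      by norm_num [wTwo], by norm_num, Or.inr (by norm_num [wTwo]), by norm_num,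
      by norm_num [wTwo], by norm_num [wTwo], by norm_num, by norm_num [wTwo], by norm_num [wTwo],
      by norm_num, by norm_num [wTwo], fun h => by norm_num at h, by norm_num [wTwo]⟩
  have key : ∀ x y, RC.Adm b T ρ (125 / 1000) (30 / 100) x y → ∃ l, 0 < Ph 1 l b xs (1 / 2 - s) T ρ x y :=
    fun x y hA => eP cE7_two_p (by norm_num) (Sd.of hN hW ha he hA)
      (Or.inr ⟨rfl, by norm_num⟩) (by push_cast; linarith only [hA, hA.x0]) (by push_cast; linarith only [hA, hA.x1])
  exact RampOK1.of (by linarith only [hb]) hD (fun y hA => key _ _ hA)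
    (fun x y hA _ => (key _ _ hA).imp fun l h => Or.inl h)
    (fun x y hA _ => (key _ _ hA).imp fun l h => Or.inl h)

theorem E7_twoE {b : ℝ} (hb : 7 ≤ b) : RowE (wTwoE 0 (155 / 1000) 0 (22 / 1000)) b
    (125 / 1000) (30 / 100) := by
  intro xs s T ρ hW hD
  have ha : (1640 / 10000 : ℝ) ≤ xs := le_trans (by norm_num [wTwoE]) hW.x0
  have he : xs ≤ (1860 / 10000 : ℝ) := le_trans hW.x1 (by norm_num [wTwoE])
  have hN : Nums (wTwoE 0 (155 / 1000) 0 (22 / 1000)) b (1640 / 10000) (1860 / 10000) (125 / 1000) (30 / 100)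
      7 3410 4999 0 0 1680 270 700 1785 220 :=
    ⟨by norm_num, by push_cast; exact hb, by norm_num, by norm_num, by norm_num, by norm_num,
      by norm_num [wTwoE], by norm_num, Or.inr (by norm_num [wTwoE]), by norm_num,
      by norm_num [wTwoE], by norm_num [wTwoE], by norm_num, by norm_num [wTwoE],
      by norm_num [wTwoE], by norm_num, by norm_num [wTwoE], fun h => by norm_num at h,
      by norm_num [wTwoE]⟩
  have key : ∀ x y, RC.Adm b T ρ (125 / 1000) (30 / 100) x y → ∃ l, 0 < Ph 1 l b xs (1 / 2 - s) T ρ x y :=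
    fun x y hA => eP cE7_twoE_p (by norm_num) (Sd.of hN hW ha he hA)
      (Or.inr ⟨rfl, by norm_num⟩) (by push_cast; linarith only [hA, hA.x0]) (by push_cast; linarith only [hA, hA.x1])
  exact RampOK1.of (by linarith only [hb]) hD (fun y hA => key _ _ hA)
    (fun x y hA _ => (key _ _ hA).imp fun l h => Or.inl h)
    (fun x y hA _ => (key _ _ hA).imp fun l h => Or.inl h)

theorem E7_three {b : ℝ} (hb : 7 ≤ b) : RowE (wThree 0 (155 / 1000) 0 (22 / 1000)) b
    (12 / 100) (30 / 100) := by
  intro xs s T ρ hW hD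
  have ha : (1880 / 10000 : ℝ) ≤ xs := le_trans (by norm_num [wThree]) hW.x0
  have he : xs ≤ (2340 / 10000 : ℝ) := le_trans hW.x1 (by norm_num [wThree])
  have hN : Nums (wThree 0 (155 / 1000) 0 (22 / 1000)) b (1880 / 10000) (2340 / 10000) (12 / 100) (30 / 100)
      7 3890 4999 0 0 1200 1010 1590 1785 220 :=
    ⟨by norm_num, by push_cast; exact hb, by norm_num, by norm_num, by norm_num, by norm_num,
      by norm_num [wThree], by norm_num, Or.inr (by norm_num [wThree]), by norm_num,
      by norm_num [wThree], by norm_num [wThree], by norm_num, by norm_num [wThree],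
      by norm_num [wThree], by norm_num, by norm_num [wThree], fun h => by norm_num at h,
      by norm_num [wThree]⟩
  have key : ∀ x y, RC.Adm b T ρ (12 / 100) (30 / 100) x y → ∃ l, 0 < Ph 1 l b xs (1 / 2 - s) T ρ x y :=
    fun x y hA => eP cE7_three_p (by norm_num) (Sd.of hN hW ha he hA)
      (Or.inr ⟨rfl, by norm_num⟩) (by push_cast; linarith only [hA, hA.x0]) (by push_cast; linarith only [hA, hA.x1])
  exact RampOK1.of (by linarith only [hb]) hD (fun y hA => key _ _ hA)
    (fun x y hA _ => (key _ _ hA).imp fun l h => Or.inl h)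
    (fun x y hA _ => (key _ _ hA).imp fun l h => Or.inl h)

theorem E7_threeE {b : ℝ} (hb : 7 ≤ b) : RowE (wThreeE 0 (155 / 1000) 0 (22 / 1000)) b
    (10 / 100) (26 / 100) := by
  intro xs s T ρ hW hD
  have ha : (1710 / 10000 : ℝ) ≤ xs := le_trans (by norm_num [wThreeE]) hW.x0
  have he : xs ≤ (1950 / 10000 : ℝ) := le_trans hW.x1 (by norm_num [wThreeE])
  have hN : Nums (wThreeE 0 (155 / 1000) 0 (22 / 1000)) b (1710 / 10000) (1950 / 10000) (10 / 100) (26 / 100)
      7 3500 4999 0 0 1200 1000 1400 1785 220 :=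
    ⟨by norm_num, by push_cast; exact hb, by norm_num, by norm_num, by norm_num, by norm_num,
      by norm_num [wThreeE], by norm_num, Or.inr (by norm_num [wThreeE]), by norm_num,
      by norm_num [wThreeE], by norm_num [wThreeE], by norm_num, by norm_num [wThreeE],
      by norm_num [wThreeE], by norm_num, by norm_num [wThreeE], fun h => by norm_num at h,
      by norm_num [wThreeE]⟩
  have key : ∀ x y, RC.Adm b T ρ (10 / 100) (26 / 100) x y → ∃ l, 0 < Ph 1 l b xs (1 / 2 - s) T ρ x y :=
    fun x y hA => eP cE7_threeE_p (by norm_num) (Sd.of hN hW ha he hA)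
      (Or.inr ⟨rfl, by norm_num⟩) (by push_cast; linarith only [hA, hA.x0]) (by push_cast; linarith only [hA, hA.x1])
  exact RampOK1.of (by linarith only [hb]) hD (fun y hA => key _ _ hA)
    (fun x y hA _ => (key _ _ hA).imp fun l h => Or.inl h)
    (fun x y hA _ => (key _ _ hA).imp fun l h => Or.inl h)

theorem E7_rr {b : ℝ} (hb : 7 ≤ b) : RowE (wRr 0 (155 / 1000) 0 (22 / 1000)) b
    (10 / 100) (27 / 100) := by
  intro xs s T ρ hW hD
  have ha : (1820 / 10000 : ℝ) ≤ xs := le_trans (by norm_num [wRr]) hW.x0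
  have he : xs ≤ (2520 / 10000 : ℝ) := le_trans hW.x1 (by norm_num [wRr])
  have hN : Nums (wRr 0 (155 / 1000) 0 (22 / 1000)) b (1820 / 10000) (2520 / 10000) (10 / 100) (27 / 100)
      7 4070 4999 0 0 1200 1195 1965 1785 220 :=
    ⟨by norm_num, by push_cast; exact hb, by norm_num, by norm_num, by norm_num, by norm_num,
      by norm_num [wRr], by norm_num, Or.inr (by norm_num [wRr]), by norm_num, by norm_num [wRr],
      by norm_num [wRr], by norm_num, by norm_num [wRr], by norm_num [wRr], by norm_num,
      by norm_num [wRr], fun h => by norm_num at h, by norm_num [wRr]⟩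
  have key : ∀ x y, RC.Adm b T ρ (10 / 100) (27 / 100) x y → ∃ l, 0 < Ph 1 l b xs (1 / 2 - s) T ρ x y :=
    fun x y hA => eP cE7_rr_p (by norm_num) (Sd.of hN hW ha he hA)
      (Or.inr ⟨rfl, by norm_num⟩) (by push_cast; linarith only [hA, hA.x0]) (by push_cast; linarith only [hA, hA.x1])
  exact RampOK1.of (by linarith only [hb]) hD (fun y hA => key _ _ hA)
    (fun x y hA _ => (key _ _ hA).imp fun l h => Or.inl h)
    (fun x y hA _ => (key _ _ hA).imp fun l h => Or.inl h)

theorem E7_rs {b : ℝ} (hb : 7 ≤ b) : RowE (wRs 0 (155 / 1000) 0 (22 / 1000)) b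
    (10 / 100) (27 / 100) := by
  intro xs s T ρ hW hD
  have ha : (1700 / 10000 : ℝ) ≤ xs := le_trans (by norm_num [wRs]) hW.x0
  have he : xs ≤ (2520 / 10000 : ℝ) := le_trans hW.x1 (by norm_num [wRs])
  have hN : Nums (wRs 0 (155 / 1000) 0 (22 / 1000)) b (1700 / 10000) (2520 / 10000) (10 / 100) (27 / 100)
      7 4070 4999 0 0 1200 1570 2045 1785 220 :=
    ⟨by norm_num, by push_cast; exact hb, by norm_num, by norm_num, by norm_num, by norm_num,
      by norm_num [wRs], by norm_num, Or.inr (by norm_num [wRs]), by norm_num, by norm_num [wRs],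
      by norm_num [wRs], by norm_num, by norm_num [wRs], by norm_num [wRs], by norm_num,
      by norm_num [wRs], fun h => by norm_num at h, by norm_num [wRs]⟩
  have key : ∀ x y, RC.Adm b T ρ (10 / 100) (27 / 100) x y → ∃ l, 0 < Ph 1 l b xs (1 / 2 - s) T ρ x y :=
    fun x y hA => eP cE7_rs_p (by norm_num) (Sd.of hN hW ha he hA)
      (Or.inr ⟨rfl, by norm_num⟩) (by push_cast; linarith only [hA, hA.x0]) (by push_cast; linarith only [hA, hA.x1])
  exact RampOK1.of (by linarith only [hb]) hD (fun y hA => key _ _ hA)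
    (fun x y hA _ => (key _ _ hA).imp fun l h => Or.inl h)
    (fun x y hA _ => (key _ _ hA).imp fun l h => Or.inl h)

end RC

end Pool.Agent.Work.MP_b30479_gtS.G2

end

section

/-!
# The ramp part of the rings in a word, four crossings
-/

namespace Pool.Agent.Work.MP_b30479_gtS.G2

open Finset VOL Filter Topology

namespace RC

variable {W W' : RWp} {b lam α β cl cp : ℝ}

theorem RowI.mono (H : RowI W b lam α β cl cp)
    (h : ∀ xs s T ρ, W'.In xs s T ρ → W.In xs s T ρ) : RowI W' b lam α β cl cp :=
  fun xs s T ρ hI => H xs s T ρ (h xs s T ρ hI)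

theorem RowE.mono (H : RowE W b cl cp)
    (h : ∀ xs s T ρ, W'.In xs s T ρ → W.In xs s T ρ) : RowE W' b cl cp :=
  fun xs s T ρ hI hD => H xs s T ρ (h xs s T ρ hI) hD

end RC

namespace SR

/-- window of the saddle point, interior ring with four crossings, by the class of the neighbour;
`e`: equal signs; `[s0, s1]`: range of minus the real part of the ring variable -/
noncomputable def w4 (C : Cl) (e : Bool) (s0 s1 : ℝ) : RC.RWp :=
  match C, e with
  | .one, _ => ⟨2250 / 10000, 2980 / 10000, -(1280 / 10000), -(380 / 10000), s0, s1, 330 / 10000,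
      850 / 10000, 4826 / 10000, 4150 / 10000, 960 / 10000, 1861 / 10000, 0, 1⟩
  | .two, _ => ⟨1985 / 10000, 2520 / 10000, -(680 / 10000), -(100 / 10000), s0, s1, 420 / 10000,
      910 / 10000, 4495 / 10000, 3750 / 10000, 730 / 10000, 1360 / 10000, 13 / 10, 398 / 1000⟩
  | .twoE, _ => ⟨1720 / 10000, 1845 / 10000, -(1120 / 10000), -(880 / 10000), s0, s1, 320 / 10000,
      730 / 10000, 3925 / 10000, 3290 / 10000, 1320 / 10000, 1710 / 10000, 11 / 10, 391 / 1000⟩
  | .three, _ => ⟨1950 / 10000, 2340 / 10000, -(360 / 10000), 10 / 10000, s0, s1, 470 / 10000,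
      930 / 10000, 4330 / 10000, 3560 / 10000, 600 / 10000, 1100 / 10000, 22 / 10, 59 / 100⟩
  | .threeE, _ => ⟨1750 / 10000, 1950 / 10000, -(420 / 10000), -(180 / 10000), s0, s1, 430 / 10000,
      870 / 10000, 4060 / 10000, 3320 / 10000, 740 / 10000, 1140 / 10000, 22 / 10, 59 / 100⟩
  | .ring, false => ⟨1870 / 10000, 2370 / 10000, -(200 / 10000), 385 / 10000, s0, s1, 490 / 10000,
      1045 / 10000, 4380 / 10000, 3560 / 10000, 370 / 10000, 980 / 10000, 22 / 10, 59 / 100⟩
  | .ring, true => ⟨1730 / 10000, 2370 / 10000, 120 / 10000, 560 / 10000, s0, s1, 530 / 10000,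
      1045 / 10000, 4380 / 10000, 3560 / 10000, 140 / 10000, 730 / 10000, 22 / 10, 59 / 100⟩

/-- window of the saddle point, ring with four crossings at an end -/
noncomputable def w4e (C : Cl) (e : Bool) : RC.RWp :=
  match C, e with
  | .one, _ => ⟨2160 / 10000, 2751 / 10000, -(1150 / 10000), -(380 / 10000), 1965 / 10000,
      2153 / 10000, 220 / 10000, 500 / 10000, 4738 / 10000, 4380 / 10000, 848 / 10000,
      1403 / 10000, 0, 1⟩
  | .two, _ => ⟨1910 / 10000, 2380 / 10000, -(560 / 10000), -(110 / 10000), 2040 / 10000,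
      2225 / 10000, 320 / 10000, 530 / 10000, 4490 / 10000, 4020 / 10000, 580 / 10000,
      970 / 10000, 13 / 10, 398 / 1000⟩
  | .twoE, _ => ⟨1667 / 10000, 1670 / 10000, -(930 / 10000), -(925 / 10000), 2183 / 10000,
      2187 / 10000, 180 / 10000, 265 / 10000, 3930 / 10000, 3700 / 10000, 1110 / 10000,
      1270 / 10000, 0, 1⟩
  | .three, _ => ⟨1880 / 10000, 2150 / 10000, -(270 / 10000), 10 / 10000, 2130 / 10000,
      2340 / 10000, 380 / 10000, 550 / 10000, 4360 / 10000, 3850 / 10000, 470 / 10000,
      740 / 10000, 22 / 10, 59 / 100⟩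
  | .threeE, _ => ⟨1710 / 10000, 1820 / 10000, -(340 / 10000), -(180 / 10000), 2200 / 10000,
      2360 / 10000, 310 / 10000, 450 / 10000, 4100 / 10000, 3670 / 10000, 570 / 10000,
      730 / 10000, 22 / 10, 59 / 100⟩
  | .ring, false => ⟨1820 / 10000, 2170 / 10000, -(130 / 10000), 340 / 10000, 2180 / 10000,
      2390 / 10000, 400 / 10000, 650 / 10000, 4465 / 10000, 3820 / 10000, 280 / 10000,
      630 / 10000, 22 / 10, 59 / 100⟩
  | .ring, true => ⟨1700 / 10000, 2170 / 10000, 160 / 10000, 490 / 10000, 2220 / 10000,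
      2445 / 10000, 440 / 10000, 650 / 10000, 4465 / 10000, 3820 / 10000, 110 / 10000,
      440 / 10000, 22 / 10, 59 / 100⟩

/-- ends of the ranges of `s` -/
noncomputable def s4a (C : Cl) (e : Bool) : ℝ :=
  match C, e with
  | .one, _ => 1510 / 10000
  | .two, _ => 1610 / 10000
  | .twoE, _ => 1660 / 10000
  | .three, _ => 1650 / 10000
  | .threeE, _ => 1690 / 10000
  | .ring, false => 1670 / 10000
  | .ring, true => 1680 / 10000

noncomputable def s4b (C : Cl) : ℝ :=
  match C with
  | .one => 2004 / 10000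
  | .two => 2110 / 10000
  | .twoE => 2080 / 10000
  | _ => 2130 / 10000

noncomputable def s4c (C : Cl) (e : Bool) : ℝ :=
  match C, e with
  | .three, _ => 2140 / 10000
  | .threeE, _ => 2170 / 10000
  | .ring, false => 2170 / 10000
  | .ring, true => 2260 / 10000
  | _, _ => 2130 / 10000

/-- **The rows of the ramp part, four crossings.** -/
structure Rows4 : Prop where
  ia : ∀ C e, RC.RowI (w4 C e (s4a C e) (2000 / 10000)) 4 (65 / 100) (14 / 100) 1 (fcl C) (fcp C)
  ib : ∀ C e, RC.RowI (w4 C e (2000 / 10000) (s4b C)) 4 (65 / 100) (14 / 100) (11 / 10)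
    (fcl C) (fcp C)
  ic : ∀ C e, C ≠ .one → C ≠ .two → C ≠ .twoE →
    RC.RowI (w4 C e (2130 / 10000) (s4c C e)) 4 (65 / 100) (8 / 100) (11 / 10) (fcl C) (fcp C)
  e : ∀ C e, C ≠ .twoE → RC.RowE (w4e C e) 4 (fcl C) (fcp C)

variable {M : ℕ} {b : Fin (M + 1) → ℤ} {zs : DD (tyW b) ⊕ ZZ (tyW b) → ℂ}
variable {y : DD (tyW b) ⊕ ZZ (tyW b) → ℝ}
variable {h h' : Fin M} {i j j' : Fin (M + 1)} {p : Fin 3} {v : ZZ (tyW b)}

/-- the windows of `LocR4` in real form -/
theorem LocR4.real (H4 : LocR4 b zs) (A : Adj h i p j) (hc : clsW b i = .ring) (hv : v.1 = i)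
    (h4 : (b i).natAbs = 4) {B : R4} (hB : r4 (isEnd i) (clsW b j) (ssW b h) = B) :
    (B.x0 ≤ (zs (.inl (.inl h))).re ∧ (zs (.inl (.inl h))).re ≤ B.x1) ∧
    (B.s0 ≤ -ofs (b i) (zs (.inr v)).re ∧ -ofs (b i) (zs (.inr v)).re ≤ B.s1) ∧
    (B.q0 ≤ (zs (.inr v)).im - ofs (b i) (zs (.inl (.inl h))).im ∧
      (zs (.inr v)).im - ofs (b i) (zs (.inl (.inl h))).im ≤ B.q1) ∧
    (B.r0 ≤ (zs (.inr v)).im ∧ (zs (.inr v)).im ≤ B.r1) ∧
    (B.t0 ≤ ofs (b i) (zs (.inl (.inl h))).im ∧ ofs (b i) (zs (.inl (.inl h))).im ≤ B.t1) ∧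
    ((zs (.inl (.inl h))).re - ofs (b i) (zs (.inr v)).re ≤ B.c1 ∧
      (zs (.inl (.inl h))).re - ofs (b i) (zs (.inr v)).re ≤ B.cr + (zs (.inr v)).im) := by
  have hI := H4.four v hv A hc h4
  rw [hB] at hI
  obtain ⟨a1, a2, a3, a4, a5, a6, a7, a8, a9, a10, a11, a12⟩ := hI
  simp only [ofr_re, ofr_im, ofz_re, ofz_im] at a1 a2 a3 a4 a5 a6 a7 a8 a9 a10 a11 a12
  exact ⟨⟨a1, a2⟩, ⟨a3, a4⟩, ⟨a5, a6⟩, ⟨a7, a8⟩, ⟨a9, a10⟩, ⟨a11, a12⟩⟩

/-- **The saddle point is in the window**, interior ring with four crossings. -/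
theorem Adj.in_w4 (A : Adj h i p j) (hb : ClassW b) (hL : Loc b zs) (hX : LocX b zs)
    (hR : LocR b zs) (hG : LocRg b zs) (H4 : LocR4 b zs) (hc : clsW b i = .ring) (hv : v.1 = i)
    (h4 : (b i).natAbs = 4) (he : isEnd i = false) {s0 s1 : ℝ}
    (a0 : s0 ≤ -ofs (b i) (zs (.inr v)).re) (a1 : -ofs (b i) (zs (.inr v)).re ≤ s1) :
    (w4 (clsW b j) (ssW b h) s0 s1).In (zs (.inl (.inl h))).re
      (-ofs (b i) (zs (.inr v)).re) (ofs (b i) (zs (.inl (.inl h))).im) (zs (.inr v)).im := by
  have hpos := hL.rpos v
  obtain ⟨x0, x1, t0, t1⟩ := A.box hb hL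
  rw [hc] at x0 x1 t0 t1
  have rr := (ring_cap hb hL v).1
  by_cases hj : clsW b j = .ring
  · -- ring
    have W := hG.three v hv A hc (Or.inr (Or.inr hj))
    have Wqs := W.qs
    simp only [ofr_im, ofz_re, ofz_im] at Wqs
    have hT := (hR.rr A hc hj).1
    have key := H4.real A hc hv h4 rfl
    rw [he] at key
    rw [hj] at x0 x1 t0 t1 key ⊢
    generalize ssW b h = e at *
    cases e
    · simp only [hbox] at x0 x1 t0 t1
      norm_num [r4, mk4] at key
      obtain ⟨⟨k1, k2⟩, ⟨k3, k4⟩, ⟨k5, k6⟩, ⟨k7, k8⟩, ⟨k9, k10⟩, k11, k12⟩ := key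
      unfold w4
      constructor <;> (try simp only) <;> linarith only [k1, k2, k9, t1, a0, a1, hpos, k7, rr, k11, k12, k5, k6, Wqs]
    · simp only [hbox] at x0 x1 t0 t1
      norm_num [r4, mk4] at key
      obtain ⟨⟨k1, k2⟩, ⟨k3, k4⟩, ⟨k5, k6⟩, ⟨k7, k8⟩, ⟨k9, k10⟩, k11, k12⟩ := key
      unfold w4
      constructor <;> (try simp only) <;> linarith only [k1, k2, k9, hT, a0, a1, hpos, k7, rr, k11, k12, k5, k6, Wqs]
  · have hop := A.opp hb (Or.inr hj)
    have hop' : b j * b i < 0 := by rwa [mul_comm] at hop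
    have eo := ofs_opp hop' (zs (.inl (.inl h))).im
    have e : ssW b h = false := A.ss hop
    have key := H4.real A hc hv h4 rfl
    rw [he] at key
    rw [e] at x0 x1 t0 t1 key ⊢
    generalize hC : clsW b j = C at *
    cases C
    · obtain ⟨h', j', A'⟩ := A.symm.other_one hb hC
      obtain ⟨W, hW, hI⟩ := hG.one v hv A.symm A' hC (Or.inl h4)
      have hT := hX.one4 A.symm hC hc h4
      have hk := (hG.kr v hv A.symm A' hC h4 he).1
      rw [h4, he] at hW
      have i0 := hI.x0
      have i1 := hI.x1
      have i2 := hI.s0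
      have i3 := hI.s1
      have i4 := hI.q0
      have i5 := hI.q1
      have i6 := hI.c
      simp only [ofr_re, ofr_im, ofz_re, ofz_im] at i0 i1 i2 i3 i4 i5 i6
      simp only [hbox] at x0 x1 t0 t1
      norm_num [r4, mk4] at key
      obtain ⟨⟨k1, k2⟩, ⟨k3, k4⟩, ⟨k5, k6⟩, ⟨k7, k8⟩, ⟨k9, k10⟩, k11, k12⟩ := key
      have m1 : W.c1 / 10000 ≤ 4826 / 10000 ∧ W.q1 / 10000 ≤ 1861 / 10000 := by
        generalize clsW b j' = P at hW
        cases P <;> simp only [rw1, List.mem_cons, List.not_mem_nil, or_false] at hW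
        · rcases hW with rfl | rfl | rfl | rfl | rfl <;> norm_num
        · rcases hW with rfl | rfl | rfl | rfl <;> norm_num
        · rcases hW with rfl | rfl <;> norm_num
      unfold w4
      constructor <;> (try simp only) <;> linarith only [k1, x1, eo, hT, t1, a0, a1, hpos, k7, hk, i6, m1, k12, k5, i5, m1.1, m1.2]
    · have W := hG.two v hv A hc hC
      have Wqs := W.qs
      have Wc := W.c
      simp only [ofr_re, ofr_im, ofz_re, ofz_im] at Wqs Wc
      simp only [hbox] at x0 x1 t0 t1
      norm_num [r4, mk4] at key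
      obtain ⟨⟨k1, k2⟩, ⟨k3, k4⟩, ⟨k5, k6⟩, ⟨k7, k8⟩, ⟨k9, k10⟩, k11, k12⟩ := key
      unfold w4
      constructor <;> (try simp only) <;> linarith only [k1, x1, k9, t1, a0, a1, hpos, k7, k8, Wc, k12, k5, k6, Wqs]
    · have W := hG.twoE4 v hv A h4 he hC
      have w0 := W.x0
      have w1 := W.x1
      have Wq := W.q
      have Wqs := W.qs
      simp only [ofr_re, ofr_im, ofz_re, ofz_im] at w0 w1 Wq Wqs
      simp only [hbox] at x0 x1 t0 t1
      norm_num [r4, mk4] at key
      obtain ⟨⟨k1, k2⟩, ⟨k3, k4⟩, ⟨k5, k6⟩, ⟨k7, k8⟩, ⟨k9, k10⟩, k11, k12⟩ := key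
      have Ws := W.s
      simp only [ofz_re] at Ws
      unfold w4
      constructor <;> (try simp only) <;> linarith only [w0, w1, k9, t1, a0, a1, hpos, k7, k8, Ws, k12, k5, Wq, Wqs]
    · have W := hG.three v hv A hc (Or.inl hC)
      have Wqs := W.qs
      simp only [ofr_im, ofz_re, ofz_im] at Wqs
      simp only [hbox] at x0 x1 t0 t1
      norm_num [r4, mk4] at key
      obtain ⟨⟨k1, k2⟩, ⟨k3, k4⟩, ⟨k5, k6⟩, ⟨k7, k8⟩, ⟨k9, k10⟩, k11, k12⟩ := key
      have h3 := hX.three A.symm hC hc
      unfold w4
      constructor <;> (try simp only) <;> linarith only [k1, x1, k9, eo, h3, a0, a1, hpos, k7, k8, k11, k12, k5, k6, k4]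
    · have W := hG.three v hv A hc (Or.inr (Or.inl hC))
      have Wqs := W.qs
      simp only [ofr_im, ofz_re, ofz_im] at Wqs
      simp only [hbox] at x0 x1 t0 t1
      norm_num [r4, mk4] at key
      obtain ⟨⟨k1, k2⟩, ⟨k3, k4⟩, ⟨k5, k6⟩, ⟨k7, k8⟩, ⟨k9, k10⟩, k11, k12⟩ := key
      unfold w4
      constructor <;> (try simp only) <;> linarith only [k1, x1, k9, t1, a0, a1, hpos, k7, k8, k11, k12, k5, k6, Wqs]
    · exact absurd rfl hj

end SR

end Pool.Agent.Work.MP_b30479_gtS.G2

end

section

/-!
# The rows of the ramp part, at least five crossings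
-/

namespace Pool.Agent.Work.MP_b30479_gtS.G2

namespace SR

/-- **The rows of the ramp part, at least five crossings.** -/
theorem rows5 : Rows5 where
  i7 n hn C e := by
    cases C
    · exact RC.I7_one hn
    · exact RC.I7_two hn
    · exact RC.I7_twoE hn
    · exact RC.I7_three hn
    · exact RC.I7_threeE hn
    · cases e
      · exact RC.I7_rr hn
      · exact RC.I7_rs hn
  e7 n hn C e := by
    cases C
    · exact RC.E7_one hn
    · exact RC.E7_two hn
    · exact RC.E7_twoE hn
    · exact RC.E7_three hn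
    · exact RC.E7_threeE hn
    · cases e
      · exact RC.E7_rr hn
      · exact RC.E7_rs hn
  i6 C e := by
    cases C
    · exact RC.I6_one
    · exact RC.I6_two
    · exact RC.I6_twoE
    · exact RC.I6_three
    · exact RC.I6_threeE
    · cases e
      · exact RC.I6_rr
      · exact RC.I6_rs
  e6 C e := by
    cases C
    · exact RC.E6_one
    · exact RC.E6_two
    · exact RC.E6_twoE
    · exact RC.E6_three
    · exact RC.E6_threeE
    · cases e
      · exact RC.E6_rr
      · exact RC.E6_rs
  i5o := RC.I5_one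
  i5 C e hC := by
    cases C
    · exact absurd rfl hC
    · exact RC.I5_two
    · exact RC.I5_twoE
    · exact RC.I5_three
    · exact RC.I5_threeE
    · cases e
      · exact RC.I5_rr
      · exact RC.I5_rs
  e5o := RC.E5_one
  e5 C e hC := by
    cases C
    · exact absurd rfl hC
    · exact RC.E5_two
    · exact RC.E5_twoE
    · exact RC.E5_three
    · exact RC.E5_threeE
    · cases e
      · exact RC.E5_rr
      · exact RC.E5_rs

end SR

end Pool.Agent.Work.MP_b30479_gtS.G2

end
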