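import Pool.Agent.Work.MP_b30479_gt.TBS.G2.RRT
import Pool.Agent.Work.MP_b30479_gt.TBS.G2.RZD
import Pool.Agent.Work.MP_b30479_gt.TBS.G2.RZ0

section

/-!
# Rings with the ring variable on the ramp, `b = 4`: kernel evaluation on a box

As `RRT`, with three lower bounds of `1/2 - xs - s`: a constant, one in terms of `ρ`, one in terms
of `ρ - T`.
-/

namespace Pool.Agent.Work.MP_b30479_gtS.G2

open VOL NumIs

namespace RQ4

open RC RQ
open LR (rat1 mulq1)
open RZ1 (negE enc4)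

/-- lower bounds of `1/2 - xs - s` -/
noncomputable def ag (cm c cr ek ad an : ℕ) (t r : ℝ) : ℝ :=
  cond (Nat.beq cm 0) (((5000 - c : ℕ) : ℝ) / 10000)
    (cond (Nat.beq cm 1) (((5000 - cr : ℕ) : ℝ) / 10000 - r)
      ((ad : ℝ) / an * (r - t) + 1 / 2 - (ek : ℝ) / 10000))

/-- their forms -/
def agF (cm c cr ek ad an : ℕ) (R q : F) (C : F → Bool) : Bool :=
  cond (Nat.beq cm 0) (C (F.rat (5000 - c) 10000))
    (cond (Nat.beq cm 1)
      (cond (posF ((F.rat (5000 - cr) 10000).sub R)) (C ((F.rat (5000 - cr) 10000).sub R)) false)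
      (cond (posF (((F.mulq ad an q).add (F.rat 1 2)).sub (F.rat ek 10000)))
        (C (((F.mulq ad an q).add (F.rat 1 2)).sub (F.rat ek 10000))) false))

theorem agF_some {cm c cr ek ad an : ℕ} {R q : F} {C : F → Bool} {ε : ℕ → ℝ} {t r : ℝ}
    (hε : ∀ i, |ε i| ≤ 1) (h1 : R.Encl ε r) (h2 : q.Encl ε (r - t)) (hc : c + 1 ≤ 5000)
    (ha : 0 < an) (h : agF cm c cr ek ad an R q C = true) :
    ∃ z : F, z.Encl ε (ag cm c cr ek ad an t r) ∧ 0 < ag cm c cr ek ad an t r ∧ C z = true := by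
  unfold agF at h
  unfold ag
  rcases e0 : Nat.beq cm 0 with _ | _
  swap
  · rw [e0, cond_true] at h
    rw [cond_true]
    refine ⟨_, r4_encl (5000 - c) ε, ?_, h⟩
    have : (0 : ℝ) < ((5000 - c : ℕ) : ℝ) := by
      have : 0 < 5000 - c := by omega
      exact_mod_cast this
    positivity
  rw [e0, cond_false] at h
  rw [cond_false]
  rcases e1 : Nat.beq cm 1 with _ | _
  swap
  · rw [e1, cond_true] at h
    rw [cond_true]
    obtain ⟨g, h⟩ := cond_ff h
    have k := F.Encl.sub (r4_encl (5000 - cr) ε) h1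
    exact ⟨_, k, posF_spec hε k g, h⟩
  rw [e1, cond_false] at h
  rw [cond_false]
  obtain ⟨g, h⟩ := cond_ff h
  have k := F.Encl.sub (F.Encl.add (F.Encl.mulq (n := ad) (d := an) ha hε h2) (half_encl ε))
    (r4_encl ek ε)
  exact ⟨_, k, posF_spec hε k g, h⟩

noncomputable def PA4 (b w ln ld u1 v1 u2 v2 : ℕ) (u x t y r : ℝ) : Prop :=
  0 < An x t y r + Ln x t y r + Hb x t y r - (1 - lam ln ld 1) * ((w : ℝ) / 2 * Rr b y r) +
    lin u1 v1 u2 v2 x ∧
  0 < An x t y r + Ln x t y r + Hb x t y r - (1 - lam ln ld 1) * ((w : ℝ) / 2 * Rr b y r) +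
    lin u1 v1 u2 v2 x - lam ln ld 1 * kr b y *
      (lnA (1 / 2) (t + r) - lnA u (r - t))

noncomputable def PC4 (rg b w ln ld m a u1 v1 u2 v2 : ℕ) (u x t y r : ℝ) : Prop :=
  (rg = 0 ∧ 0 < 2 * Ln x t y r + Hb x t y r - (1 - lam ln ld 1) * ((w : ℝ) / 2 * Rr b y r) +
    (1 - lam ln ld 1 * kr b y) * lnA (((5000 - m : ℕ) : ℝ) / 10000) (t + r) +
    (1 + lam ln ld 1 * kr b y) * lnA u (r - t) +
    lin u1 v1 u2 v2 x) ∨
  (rg ≠ 0 ∧ 0 < 2 * Ln x t y r + Hb x t y r - (1 - lam ln ld 1) * ((w : ℝ) / 2 * Rr b y r) +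
    (1 - lam ln ld 1 * kr b y) * lnA (((5000 - m : ℕ) : ℝ) / 10000) (t + r) +
    (1 + lam ln ld 1 * kr b y) * lnA u (r - t) +
    2 * (lnA x t - lnA ((a : ℝ) / 10000) t) + lin u1 v1 u2 v2 x)

/-- `A + L + W` -/
def gA4 (b w ln ld c cr ek ad an u1 v1 u2 v2 cm lf nf : ℕ) (X T Y R q H d s W4 : F) : Bool :=
  bO (F.lnA (X.add Y) (T.add H)) fun au => bO (F.lnB (X.add Y) (T.add H)) fun bu =>
  bO (F.lnA (F.rat 1 2) (T.add R)) fun Lh => agF cm c cr ek ad an R q fun u =>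
  bO (F.lnA u q) fun Lc => lF lf d s fun L => nF nf d s fun N =>
    let E1 := (((au.add L).add (W4.mul (N.sub bu))).sub (lwF w ln ld 1 (rrF b Y W4))).add
      (linF u1 v1 u2 v2 X)
    cond (posF E1) (posF (E1.sub ((lkF' b ln ld 1 Y).mul (Lh.sub Lc)))) false

def gC4 (rg b w ln ld c cr ek ad an m a u1 v1 u2 v2 cm lf nf : ℕ) (X T Y R q H d s W4 : F) :
    Bool :=
  bO (F.lnB (X.add Y) (T.add H)) fun bu =>
  agF cm c cr ek ad an R q fun u => bO (F.lnA u q) fun Lc =>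
  bO (F.lnA (F.rat (5000 - m) 10000) (T.add R)) fun Lm =>
  lF lf d s fun L => nF nf d s fun N =>
    let lk := lkF' b ln ld 1 Y
    let G := ((((L.add L).add (W4.mul (N.sub bu))).sub (lwF w ln ld 1 (rrF b Y W4))).add
      (((F.rat 1 1).sub lk).mul Lm)).add (((F.rat 1 1).add lk).mul Lc)
    let li := linF u1 v1 u2 v2 X
    cond (Nat.beq rg 0) (posF (G.add li))
      (bO (F.lnA (F.rat a 10000) T) fun aa => bO (F.lnA X T) fun ax =>
        posF ((G.add (F.mulq 2 1 (ax.sub aa))).add li))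

section
variable {rg b w ln ld c cr ek ad an m a u1 v1 u2 v2 cm lf nf q0 q1 : ℕ} {ε : ℕ → ℝ}
  {X T Y R q H d s W4 : F} {x t y r : ℝ}

theorem gA4_sound (hb : 2 ≤ b) (hl : 0 < ld) (hc : c + 1 ≤ 5000) (ha : 0 < an)
    (E : RQ.En ε X T Y R q H d s W4 x t y r) (D : Dmn q0 q1 x t y r)
    (h : gA4 b w ln ld c cr ek ad an u1 v1 u2 v2 cm lf nf X T Y R q H d s W4 = true) :
    0 < ag cm c cr ek ad an t r ∧
      PA4 b w ln ld u1 v1 u2 v2 (ag cm c cr ek ad an t r) x t y r := by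
  have hε := E.e
  obtain ⟨au, hau, h⟩ := bO_some h
  obtain ⟨bu, hbu, h⟩ := bO_some h
  obtain ⟨Lh, hLh, h⟩ := bO_some h
  obtain ⟨u, eu, hu, h⟩ := agF_some hε E.R E.q hc ha h
  obtain ⟨Lc, hLc, h⟩ := bO_some h
  obtain ⟨L, Lr, eL, hLr, h⟩ := lF_some hε E.d E.s D.dl D.dr D.dn h
  obtain ⟨N, Nr, eN, hNr, h⟩ := nF_some hε E.d E.s D.dl D.dr D.dt h
  have kx := F.Encl.add E.X E.Y
  have kt := F.Encl.add E.T E.H
  have eau := F.Encl.lnA hε kx kt hau
  have ebu := F.Encl.lnB hε kx kt hbu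
  have eLh := F.Encl.lnA hε (half_encl ε) (F.Encl.add E.T E.R) hLh
  have eLc := F.Encl.lnA hε eu E.q hLc
  have k1 := F.Encl.add (F.Encl.sub (F.Encl.add (F.Encl.add eau eL)
    (F.Encl.mul hε E.W (F.Encl.sub eN ebu))) (lwF_encl (w := w) (ln := ln) (j := 1) hl hε
      (rrF_encl hb hε E.Y E.W))) (linF_encl (u1 := u1) (v1 := v1) (u2 := u2) (v2 := v2) hε E.X)
  have k2 := F.Encl.sub k1 (F.Encl.mul hε (lkF'_encl (ln := ln) (j := 1) hb hl hε E.Y)
    (F.Encl.sub eLh eLc))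
  obtain ⟨g1, g2⟩ := cond_ff h
  have p1 := posF_spec hε k1 g1
  have p2 := posF_spec hε k2 g2
  have hw : 4 * r * (Nr - lnB (x + y) (t + 4 * (r * y))) ≤ Hb x t y r := by
    unfold Hb
    exact mul_le_mul_of_nonneg_left (by linarith only [hNr]) (by linarith only [D, D.r0])
  unfold PA4 An Ln
  refine ⟨hu, ?_, ?_⟩ <;> linarith only [hLr, p1, hw, p2]

theorem gC4_sound (hb : 2 ≤ b) (hl : 0 < ld) (hc : c + 1 ≤ 5000) (ha : 0 < an)
    (E : RQ.En ε X T Y R q H d s W4 x t y r) (D : Dmn q0 q1 x t y r)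
    (h : gC4 rg b w ln ld c cr ek ad an m a u1 v1 u2 v2 cm lf nf X T Y R q H d s W4 = true) :
    0 < ag cm c cr ek ad an t r ∧
      PC4 rg b w ln ld m a u1 v1 u2 v2 (ag cm c cr ek ad an t r) x t y r := by
  have hε := E.e
  obtain ⟨bu, hbu, h⟩ := bO_some h
  obtain ⟨u, eu, hu, h⟩ := agF_some hε E.R E.q hc ha h
  obtain ⟨Lc, hLc, h⟩ := bO_some h
  obtain ⟨Lm, hLm, h⟩ := bO_some h
  obtain ⟨L, Lr, eL, hLr, h⟩ := lF_some hε E.d E.s D.dl D.dr D.dn h
  obtain ⟨N, Nr, eN, hNr, h⟩ := nF_some hε E.d E.s D.dl D.dr D.dt h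
  have kx := F.Encl.add E.X E.Y
  have kt := F.Encl.add E.T E.H
  have ebu := F.Encl.lnB hε kx kt hbu
  have eLc := F.Encl.lnA hε eu E.q hLc
  have eLm := F.Encl.lnA hε (r4_encl (5000 - m) ε) (F.Encl.add E.T E.R) hLm
  have ek' := lkF'_encl (ln := ln) (j := 1) hb hl hε E.Y
  have eli := linF_encl (u1 := u1) (v1 := v1) (u2 := u2) (v2 := v2) hε E.X
  have k1 := F.Encl.add (F.Encl.add (F.Encl.sub (F.Encl.add (F.Encl.add eL eL)
    (F.Encl.mul hε E.W (F.Encl.sub eN ebu))) (lwF_encl (w := w) (ln := ln) (j := 1) hl hε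
      (rrF_encl hb hε E.Y E.W))) (F.Encl.mul hε (F.Encl.sub (one_encl ε) ek') eLm))
      (F.Encl.mul hε (F.Encl.add (one_encl ε) ek') eLc)
  have hw : 4 * r * (Nr - lnB (x + y) (t + 4 * (r * y))) ≤ Hb x t y r := by
    unfold Hb
    exact mul_le_mul_of_nonneg_left (by linarith only [hNr]) (by linarith only [D, D.r0])
  refine ⟨hu, ?_⟩
  unfold PC4 Ln
  simp only at h
  rcases h0 : Nat.beq rg 0 with _ | _
  · rw [h0, cond_false] at h
    obtain ⟨aa, haa, h⟩ := bO_some h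
    obtain ⟨ax, hax, h⟩ := bO_some h
    have e2 := F.Encl.lnA hε (r4_encl a ε) E.T haa
    have e3 := F.Encl.lnA hε E.X E.T hax
    have p := posF_spec hε (F.Encl.add (F.Encl.add k1 (two_encl hε (F.Encl.sub e3 e2))) eli) h
    refine Or.inr ⟨Nat.ne_of_beq_eq_false h0, ?_⟩
    linarith only [hLr, hw, p]
  · rw [h0, cond_true] at h
    have p := posF_spec hε (F.Encl.add k1 eli) h
    refine Or.inl ⟨Nat.eq_of_beq_eq_true h0, ?_⟩
    linarith only [hLr, hw, p]

end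

/-! ### tests -/

/-- the hinge beyond its part -/
def tP (b w ln ld c cr ek ad an u1 v1 u2 v2 q0 q1 k : ℕ) (X T Y R : F) : Bool :=
  let q := R.sub T
  let H := F.mulq 4 1 (R.mul Y)
  let d := Y.sub X
  let s := H.sub T
  cond (Nat.ble 120 k) (vac q0 q1 k q d s)
    (fN (Nat.land (Nat.shiftRight k 1) 3) fun cm => fN (Nat.mod (Nat.shiftRight k 3) 3) fun lf =>
      fN (Nat.div (Nat.shiftRight k 3) 3) fun nf =>
        gA4 b w ln ld c cr ek ad an u1 v1 u2 v2 cm lf nf X T Y R q H d s (F.mulq 4 1 R))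

/-- below the saddle point -/
def tD (rg b w ln ld c cr ek ad an s0 a u1 v1 u2 v2 u1' v1' u2' v2' q0 q1 k : ℕ)
    (X T Y R : F) : Bool :=
  let q := R.sub T
  let H := F.mulq 4 1 (R.mul Y)
  let d := Y.sub X
  let s := H.sub T
  cond (Nat.ble 120 k) (vac q0 q1 k q d s)
    (fN (Nat.land (Nat.shiftRight k 1) 3) fun cm => fN (Nat.mod (Nat.shiftRight k 3) 3) fun lf =>
      fN (Nat.div (Nat.shiftRight k 3) 3) fun nf =>
        cond (Nat.beq (Nat.land k 1) 0)
          (gA4 b w ln ld c cr ek ad an u1 v1 u2 v2 cm lf nf X T Y R q H d s (F.mulq 4 1 R))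
          (gB rg b w ln ld s0 a u1' v1' u2' v2' 1 nf X T Y R q H d s (F.mulq 4 1 R)))

/-- above the saddle point -/
def tU (rg b w ln ld c cr ek ad an m a u1 v1 u2 v2 u1' v1' u2' v2' q0 q1 k : ℕ)
    (X T Y R : F) : Bool :=
  let q := R.sub T
  let H := F.mulq 4 1 (R.mul Y)
  let d := Y.sub X
  let s := H.sub T
  cond (Nat.ble 120 k) (vac q0 q1 k q d s)
    (fN (Nat.land (Nat.shiftRight k 1) 3) fun cm => fN (Nat.mod (Nat.shiftRight k 3) 3) fun lf =>
      fN (Nat.div (Nat.shiftRight k 3) 3) fun nf =>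
        cond (Nat.beq (Nat.land k 1) 0)
          (gA4 b w ln ld c cr ek ad an u1 v1 u2 v2 cm lf nf X T Y R q H d s (F.mulq 4 1 R))
          (gC4 rg b w ln ld c cr ek ad an m a u1' v1' u2' v2' cm lf nf X T Y R q H d s
            (F.mulq 4 1 R)))

section
variable {rg b w ln ld c cr ek ad an s0 m a u1 v1 u2 v2 u1' v1' u2' v2' q0 q1 : ℕ}

def QP (b w ln ld c cr ek ad an u1 v1 u2 v2 q0 q1 : ℕ) (x t y r : ℝ) : Prop :=
  Dmn q0 q1 x t y r → ∃ cm, 0 < ag cm c cr ek ad an t r ∧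
    PA4 b w ln ld u1 v1 u2 v2 (ag cm c cr ek ad an t r) x t y r

def QD (rg b w ln ld c cr ek ad an s0 a u1 v1 u2 v2 u1' v1' u2' v2' q0 q1 : ℕ)
    (x t y r : ℝ) : Prop :=
  Dmn q0 q1 x t y r → (∃ cm, 0 < ag cm c cr ek ad an t r ∧
    PA4 b w ln ld u1 v1 u2 v2 (ag cm c cr ek ad an t r) x t y r) ∨
    PB rg b w ln ld s0 a u1' v1' u2' v2' 1 x t y r

def QU (rg b w ln ld c cr ek ad an m a u1 v1 u2 v2 u1' v1' u2' v2' q0 q1 : ℕ)
    (x t y r : ℝ) : Prop :=
  Dmn q0 q1 x t y r → ∃ cm, 0 < ag cm c cr ek ad an t r ∧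
    (PA4 b w ln ld u1 v1 u2 v2 (ag cm c cr ek ad an t r) x t y r ∨
    PC4 rg b w ln ld m a u1' v1' u2' v2' (ag cm c cr ek ad an t r) x t y r)

theorem tP_ok (hb : 2 ≤ b) (hl : 0 < ld) (hc : c + 1 ≤ 5000) (ha : 0 < an) :
    TestOk (tP b w ln ld c cr ek ad an u1 v1 u2 v2 q0 q1)
      (QP b w ln ld c cr ek ad an u1 v1 u2 v2 q0 q1) := by
  intro k X T Y R ε x t y r hε hX hT hY hR h D
  have E := RQ.En.of hε hX hT hY hR
  unfold tP at h
  simp only at h
  rcases h0 : Nat.ble 120 k with _ | _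
  · rw [h0, cond_false, fN_eq, fN_eq, fN_eq] at h
    exact ⟨_, gA4_sound hb hl hc ha E D h⟩
  · rw [h0, cond_true] at h
    exact (vac_sound E D h).elim

theorem tD_ok (hb : 2 ≤ b) (hl : 0 < ld) (hc : c + 1 ≤ 5000) (ha : 0 < an) :
    TestOk (tD rg b w ln ld c cr ek ad an s0 a u1 v1 u2 v2 u1' v1' u2' v2' q0 q1)
      (QD rg b w ln ld c cr ek ad an s0 a u1 v1 u2 v2 u1' v1' u2' v2' q0 q1) := by
  intro k X T Y R ε x t y r hε hX hT hY hR h D
  have E := RQ.En.of hε hX hT hY hR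
  unfold tD at h
  simp only at h
  rcases h0 : Nat.ble 120 k with _ | _
  · rw [h0, cond_false, fN_eq, fN_eq, fN_eq] at h
    rcases h1 : Nat.beq (Nat.land k 1) 0 with _ | _
    · rw [h1, cond_false] at h
      exact Or.inr (gB_sound hb hl E D h)
    · rw [h1, cond_true] at h
      exact Or.inl ⟨_, gA4_sound hb hl hc ha E D h⟩
  · rw [h0, cond_true] at h
    exact (vac_sound E D h).elim

theorem tU_ok (hb : 2 ≤ b) (hl : 0 < ld) (hc : c + 1 ≤ 5000) (ha : 0 < an) :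
    TestOk (tU rg b w ln ld c cr ek ad an m a u1 v1 u2 v2 u1' v1' u2' v2' q0 q1)
      (QU rg b w ln ld c cr ek ad an m a u1 v1 u2 v2 u1' v1' u2' v2' q0 q1) := by
  intro k X T Y R ε x t y r hε hX hT hY hR h D
  have E := RQ.En.of hε hX hT hY hR
  unfold tU at h
  simp only at h
  rcases h0 : Nat.ble 120 k with _ | _
  · rw [h0, cond_false, fN_eq, fN_eq, fN_eq] at h
    rcases h1 : Nat.beq (Nat.land k 1) 0 with _ | _
    · rw [h1, cond_false] at h
      obtain ⟨k1, k2⟩ := gC4_sound hb hl hc ha E D h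
      exact ⟨_, k1, Or.inr k2⟩
    · rw [h1, cond_true] at h
      obtain ⟨k1, k2⟩ := gA4_sound hb hl hc ha E D h
      exact ⟨_, k1, Or.inl k2⟩
  · rw [h0, cond_true] at h
    exact (vac_sound E D h).elim

end

end RQ4

end Pool.Agent.Work.MP_b30479_gtS.G2

end

section

/-!
# Rings at an end with the ring variable on the ramp, `b = 4`: kernel evaluation on a box

The derivative of the ring variable is known at the saddle point: `P - Q = 8 π ρ`.
-/

namespace Pool.Agent.Work.MP_b30479_gtS.G2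

open VOL NumIs

namespace RQ4

open RC RQ
open LR (rat1 mulq1)
open RZ1 (negE enc4)

/-- lower bounds of `1/2 - xs - s`, one more if `xs ≤ x` -/
noncomputable def ag3 (cm c cr ek ad an sh : ℕ) (x t r : ℝ) : ℝ :=
  cond (Nat.beq cm 3) (((5000 - sh : ℕ) : ℝ) / 10000 - x) (ag cm c cr ek ad an t r)

def agF3 (cm c cr ek ad an sh : ℕ) (X R q : F) (C : F → Bool) : Bool :=
  cond (Nat.beq cm 3)
    (cond (posF ((F.rat (5000 - sh) 10000).sub X)) (C ((F.rat (5000 - sh) 10000).sub X)) false)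
    (agF cm c cr ek ad an R q C)

theorem agF3_some {cm c cr ek ad an sh : ℕ} {X R q : F} {C : F → Bool} {ε : ℕ → ℝ} {x t r : ℝ}
    (hε : ∀ i, |ε i| ≤ 1) (h0 : X.Encl ε x) (h1 : R.Encl ε r) (h2 : q.Encl ε (r - t))
    (hc : c + 1 ≤ 5000) (ha : 0 < an) (h : agF3 cm c cr ek ad an sh X R q C = true) :
    ∃ z : F, z.Encl ε (ag3 cm c cr ek ad an sh x t r) ∧ 0 < ag3 cm c cr ek ad an sh x t r ∧
      C z = true := by
  unfold agF3 at h
  unfold ag3
  rcases e0 : Nat.beq cm 3 with _ | _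
  · rw [e0, cond_false] at h
    rw [cond_false]
    exact agF_some hε h1 h2 hc ha h
  · rw [e0, cond_true] at h
    rw [cond_true]
    obtain ⟨g, h⟩ := cond_ff h
    have k := F.Encl.sub (r4_encl (5000 - sh) ε) h0
    exact ⟨_, k, posF_spec hε k g, h⟩

/-! ### the real statements -/

/-- the increment of the side of the hinge from `x` to `z` -/
noncomputable def sd (rg z : ℕ) (x t : ℝ) : ℝ :=
  cond (Nat.beq rg 0) 0 (2 * (lnA ((z : ℝ) / 10000) t - lnA x t))

noncomputable def PE (x t y r : ℝ) : Prop :=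
  0 < An x t y r + Ln x t y r + Hb x t y r - Rr ((4 : ℕ) : ℝ) y r

noncomputable def PV1 (p0 : ℕ) (u t r : ℝ) : Prop :=
  0 < Real.pi * (8 * r) - lnA (((5000 - p0 : ℕ) : ℝ) / 10000) (t + r) + lnA u (r - t)

noncomputable def PV2 (m : ℕ) (v t r : ℝ) : Prop :=
  0 < lnA (((5000 - m : ℕ) : ℝ) / 10000) (t + r) - lnA v (r - t) - Real.pi * (8 * r)

noncomputable def PB1 (rg z p0 : ℕ) (x t y r : ℝ) : Prop :=
  0 < 2 * An x t y r + Hb x t y r - Rr ((4 : ℕ) : ℝ) y r + sd rg z x t -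
    2 * lnA (((5000 - p0 : ℕ) : ℝ) / 10000) (t + r) + Real.pi * (8 * r)

noncomputable def PB2 (rg z : ℕ) (v x t y r : ℝ) : Prop :=
  0 < 2 * An x t y r + Hb x t y r - Rr ((4 : ℕ) : ℝ) y r + sd rg z x t -
    2 * lnA v (r - t) - Real.pi * (8 * r)

noncomputable def PC1 (rg z m : ℕ) (x t y r : ℝ) : Prop :=
  0 < 2 * Ln x t y r + Hb x t y r - Rr ((4 : ℕ) : ℝ) y r - sd rg z x t +
    2 * lnA (((5000 - m : ℕ) : ℝ) / 10000) (t + r) - Real.pi * (8 * r)

noncomputable def PC2 (rg z : ℕ) (u x t y r : ℝ) : Prop :=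
  0 < 2 * Ln x t y r + Hb x t y r - Rr ((4 : ℕ) : ℝ) y r - sd rg z x t +
    2 * lnA u (r - t) + Real.pi * (8 * r)

/-- upper bounds of `1/2 - xs - s`, the second one if `x ≤ xs` -/
noncomputable def bg (k sl a : ℕ) (x : ℝ) : ℝ :=
  cond (Nat.beq k 0) (((5000 - sl - a : ℕ) : ℝ) / 10000) (((5000 - sl : ℕ) : ℝ) / 10000 - x)

def bgF (k sl a : ℕ) (X : F) : F :=
  cond (Nat.beq k 0) (F.rat (5000 - sl - a) 10000) ((F.rat (5000 - sl) 10000).sub X)

lemma bgF_encl {k sl a : ℕ} {X : F} {ε : ℕ → ℝ} {x : ℝ} (h : X.Encl ε x) :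
    (bgF k sl a X).Encl ε (bg k sl a x) := by
  unfold bgF bg
  rcases Nat.beq k 0 with _ | _
  · exact F.Encl.sub (r4_encl (5000 - sl) ε) h
  · exact r4_encl (5000 - sl - a) ε

/-! ### leaves -/

def w8F (R : F) : F := F.pi.mul (F.mulq 8 1 R)

lemma w8F_encl {R : F} {ε : ℕ → ℝ} {r : ℝ} (hε : ∀ i, |ε i| ≤ 1) (h : R.Encl ε r) :
    (w8F R).Encl ε (Real.pi * (8 * r)) := by
  have h1 := mulq1 (n := 8) hε h
  push_cast at h1
  exact F.Encl.mul hε (F.Encl.pi ε) h1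

/-- `2 (lnA z T - lnA X T)` or nothing -/
def sdF (rg z : ℕ) (X T : F) (C : F → Bool) : Bool :=
  cond (Nat.beq rg 0) (C (F.rat 0 1))
    (bO (F.lnA (F.rat z 10000) T) fun aa => bO (F.lnA X T) fun ax => C (F.mulq 2 1 (aa.sub ax)))

theorem sdF_some {rg z : ℕ} {X T : F} {C : F → Bool} {ε : ℕ → ℝ} {x t : ℝ}
    (hε : ∀ i, |ε i| ≤ 1) (h1 : X.Encl ε x) (h2 : T.Encl ε t) (h : sdF rg z X T C = true) :
    ∃ w : F, w.Encl ε (sd rg z x t) ∧ C w = true := by
  unfold sdF at h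
  unfold sd
  rcases e0 : Nat.beq rg 0 with _ | _
  · rw [e0, cond_false] at h
    rw [cond_false]
    obtain ⟨aa, haa, h⟩ := bO_some h
    obtain ⟨ax, hax, h⟩ := bO_some h
    exact ⟨_, two_encl hε (F.Encl.sub (F.Encl.lnA hε (r4_encl z ε) h2 haa)
      (F.Encl.lnA hε h1 h2 hax)), h⟩
  · rw [e0, cond_true] at h
    rw [cond_true]
    have := rat1 0 ε
    rw [Nat.cast_zero] at this
    exact ⟨_, this, h⟩

def gE (lf nf : ℕ) (X T Y H d s W4 : F) : Bool :=
  bO (F.lnA (X.add Y) (T.add H)) fun au => bO (F.lnB (X.add Y) (T.add H)) fun bu =>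
  lF lf d s fun L => nF nf d s fun N =>
    posF ((au.add L).add ((W4.mul (N.sub bu)).sub (rrF 4 Y W4)))

def gV1 (p0 cm c cr ek ad an sh : ℕ) (X T R q : F) : Bool :=
  bO (F.lnA (F.rat (5000 - p0) 10000) (T.add R)) fun Pu =>
  agF3 cm c cr ek ad an sh X R q fun u => bO (F.lnA u q) fun Lc =>
    posF (((w8F R).sub Pu).add Lc)

def gV0 (p0 cm c cr ek ad an : ℕ) (T R q : F) : Bool :=
  bO (F.lnA (F.rat (5000 - p0) 10000) (T.add R)) fun Pu =>
  agF cm c cr ek ad an R q fun u => bO (F.lnA u q) fun Lc =>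
    posF (((w8F R).sub Pu).add Lc)

def gV2 (k m sl a : ℕ) (X T R q : F) : Bool :=
  bO (F.lnA (F.rat (5000 - m) 10000) (T.add R)) fun Pl =>
  bO (F.lnA (bgF k sl a X) q) fun Qu => posF ((Pl.sub Qu).sub (w8F R))

def gB1 (rg z p0 nf : ℕ) (X T Y R H d s W4 : F) : Bool :=
  bO (F.lnA (X.add Y) (T.add H)) fun au => bO (F.lnB (X.add Y) (T.add H)) fun bu =>
  nF nf d s fun N => sdF rg z X T fun S =>
  bO (F.lnA (F.rat (5000 - p0) 10000) (T.add R)) fun Pu =>
    posF (((((au.add au).add ((W4.mul (N.sub bu)).sub (rrF 4 Y W4))).add S).sub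
      (F.mulq 2 1 Pu)).add (w8F R))

def gB2 (rg z k sl a nf : ℕ) (X T Y R q H d s W4 : F) : Bool :=
  bO (F.lnA (X.add Y) (T.add H)) fun au => bO (F.lnB (X.add Y) (T.add H)) fun bu =>
  nF nf d s fun N => sdF rg z X T fun S => bO (F.lnA (bgF k sl a X) q) fun Qu =>
    posF (((((au.add au).add ((W4.mul (N.sub bu)).sub (rrF 4 Y W4))).add S).sub
      (F.mulq 2 1 Qu)).sub (w8F R))

def gC1 (rg z m lf nf : ℕ) (X T Y R H d s W4 : F) : Bool :=
  bO (F.lnB (X.add Y) (T.add H)) fun bu =>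
  lF lf d s fun L => nF nf d s fun N => sdF rg z X T fun S =>
  bO (F.lnA (F.rat (5000 - m) 10000) (T.add R)) fun Pl =>
    posF (((((L.add L).add ((W4.mul (N.sub bu)).sub (rrF 4 Y W4))).sub S).add
      (F.mulq 2 1 Pl)).sub (w8F R))

def gC2 (rg z cm c cr ek ad an sh lf nf : ℕ) (X T Y R q H d s W4 : F) : Bool :=
  bO (F.lnB (X.add Y) (T.add H)) fun bu =>
  lF lf d s fun L => nF nf d s fun N => sdF rg z X T fun S =>
  agF3 cm c cr ek ad an sh X R q fun u => bO (F.lnA u q) fun Lc =>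
    posF (((((L.add L).add ((W4.mul (N.sub bu)).sub (rrF 4 Y W4))).sub S).add
      (F.mulq 2 1 Lc)).add (w8F R))

section
variable {rg z c cr ek ad an sh sl p0 m a cm k lf nf q0 q1 : ℕ} {ε : ℕ → ℝ}
  {X T Y R q H d s W4 : F} {x t y r : ℝ}

lemma hb_le {Nr : ℝ} (D : Dmn q0 q1 x t y r) (h : Nr ≤ -YY (lv (y - x) (4 * (r * y) - t))) :
    4 * r * (Nr - lnB (x + y) (t + 4 * (r * y))) ≤ Hb x t y r := by
  unfold Hb
  exact mul_le_mul_of_nonneg_left (by linarith only [h]) (by linarith only [D, D.r0])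

theorem gE_sound (E : RQ.En ε X T Y R q H d s W4 x t y r) (D : Dmn q0 q1 x t y r)
    (h : gE lf nf X T Y H d s W4 = true) : PE x t y r := by
  have hε := E.e
  obtain ⟨au, hau, h⟩ := bO_some h
  obtain ⟨bu, hbu, h⟩ := bO_some h
  obtain ⟨L, Lr, eL, hLr, h⟩ := lF_some hε E.d E.s D.dl D.dr D.dn h
  obtain ⟨N, Nr, eN, hNr, h⟩ := nF_some hε E.d E.s D.dl D.dr D.dt h
  have kx := F.Encl.add E.X E.Y
  have kt := F.Encl.add E.T E.H
  have eau := F.Encl.lnA hε kx kt hau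
  have ebu := F.Encl.lnB hε kx kt hbu
  have k1 := F.Encl.add (F.Encl.add eau eL) (F.Encl.sub
    (F.Encl.mul hε E.W (F.Encl.sub eN ebu)) (rrF_encl (b := 4) (by norm_num) hε E.Y E.W))
  have p1 := posF_spec hε k1 h
  have hw := hb_le D hNr
  unfold PE An Ln
  linarith only [hLr, p1, hw]

theorem gV1_sound (hc : c + 1 ≤ 5000) (ha : 0 < an) (E : RQ.En ε X T Y R q H d s W4 x t y r)
    (h : gV1 p0 cm c cr ek ad an sh X T R q = true) :
    0 < ag3 cm c cr ek ad an sh x t r ∧ PV1 p0 (ag3 cm c cr ek ad an sh x t r) t r := by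
  have hε := E.e
  obtain ⟨Pu, hPu, h⟩ := bO_some h
  obtain ⟨u, eu, hu, h⟩ := agF3_some hε E.X E.R E.q hc ha h
  obtain ⟨Lc, hLc, h⟩ := bO_some h
  have e1 := F.Encl.lnA hε (r4_encl (5000 - p0) ε) (F.Encl.add E.T E.R) hPu
  have e2 := F.Encl.lnA hε eu E.q hLc
  have p1 := posF_spec hε (F.Encl.add (F.Encl.sub (w8F_encl hε E.R) e1) e2) h
  exact ⟨hu, p1⟩

theorem gV0_sound (hc : c + 1 ≤ 5000) (ha : 0 < an) (E : RQ.En ε X T Y R q H d s W4 x t y r)
    (h : gV0 p0 cm c cr ek ad an T R q = true) :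
    0 < ag cm c cr ek ad an t r ∧ PV1 p0 (ag cm c cr ek ad an t r) t r := by
  have hε := E.e
  obtain ⟨Pu, hPu, h⟩ := bO_some h
  obtain ⟨u, eu, hu, h⟩ := agF_some hε E.R E.q hc ha h
  obtain ⟨Lc, hLc, h⟩ := bO_some h
  have e1 := F.Encl.lnA hε (r4_encl (5000 - p0) ε) (F.Encl.add E.T E.R) hPu
  have e2 := F.Encl.lnA hε eu E.q hLc
  have p1 := posF_spec hε (F.Encl.add (F.Encl.sub (w8F_encl hε E.R) e1) e2) h
  exact ⟨hu, p1⟩

theorem gV2_sound (E : RQ.En ε X T Y R q H d s W4 x t y r)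
    (h : gV2 k m sl a X T R q = true) : PV2 m (bg k sl a x) t r := by
  have hε := E.e
  obtain ⟨Pl, hPl, h⟩ := bO_some h
  obtain ⟨Qu, hQu, h⟩ := bO_some h
  have e1 := F.Encl.lnA hε (r4_encl (5000 - m) ε) (F.Encl.add E.T E.R) hPl
  have e2 := F.Encl.lnA hε (bgF_encl (k := k) (sl := sl) (a := a) E.X) E.q hQu
  exact posF_spec hε (F.Encl.sub (F.Encl.sub e1 e2) (w8F_encl hε E.R)) h

theorem gB1_sound (E : RQ.En ε X T Y R q H d s W4 x t y r) (D : Dmn q0 q1 x t y r)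
    (h : gB1 rg z p0 nf X T Y R H d s W4 = true) : PB1 rg z p0 x t y r := by
  have hε := E.e
  obtain ⟨au, hau, h⟩ := bO_some h
  obtain ⟨bu, hbu, h⟩ := bO_some h
  obtain ⟨N, Nr, eN, hNr, h⟩ := nF_some hε E.d E.s D.dl D.dr D.dt h
  obtain ⟨S, eS, h⟩ := sdF_some hε E.X E.T h
  obtain ⟨Pu, hPu, h⟩ := bO_some h
  have kx := F.Encl.add E.X E.Y
  have kt := F.Encl.add E.T E.H
  have eau := F.Encl.lnA hε kx kt hau
  have ebu := F.Encl.lnB hε kx kt hbu
  have e1 := F.Encl.lnA hε (r4_encl (5000 - p0) ε) (F.Encl.add E.T E.R) hPu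
  have p1 := posF_spec hε (F.Encl.add (F.Encl.sub (F.Encl.add (F.Encl.add (F.Encl.add eau eau)
    (F.Encl.sub (F.Encl.mul hε E.W (F.Encl.sub eN ebu))
      (rrF_encl (b := 4) (by norm_num) hε E.Y E.W))) eS) (two_encl hε e1)) (w8F_encl hε E.R)) h
  have hw := hb_le D hNr
  unfold PB1 An
  linarith only [p1, hw]

theorem gB2_sound (E : RQ.En ε X T Y R q H d s W4 x t y r) (D : Dmn q0 q1 x t y r)
    (h : gB2 rg z k sl a nf X T Y R q H d s W4 = true) :
    PB2 rg z (bg k sl a x) x t y r := by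
  have hε := E.e
  obtain ⟨au, hau, h⟩ := bO_some h
  obtain ⟨bu, hbu, h⟩ := bO_some h
  obtain ⟨N, Nr, eN, hNr, h⟩ := nF_some hε E.d E.s D.dl D.dr D.dt h
  obtain ⟨S, eS, h⟩ := sdF_some hε E.X E.T h
  obtain ⟨Qu, hQu, h⟩ := bO_some h
  have kx := F.Encl.add E.X E.Y
  have kt := F.Encl.add E.T E.H
  have eau := F.Encl.lnA hε kx kt hau
  have ebu := F.Encl.lnB hε kx kt hbu
  have e1 := F.Encl.lnA hε (bgF_encl (k := k) (sl := sl) (a := a) E.X) E.q hQu
  have p1 := posF_spec hε (F.Encl.sub (F.Encl.sub (F.Encl.add (F.Encl.add (F.Encl.add eau eau)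
    (F.Encl.sub (F.Encl.mul hε E.W (F.Encl.sub eN ebu))
      (rrF_encl (b := 4) (by norm_num) hε E.Y E.W))) eS) (two_encl hε e1)) (w8F_encl hε E.R)) h
  have hw := hb_le D hNr
  unfold PB2 An
  linarith only [p1, hw]

theorem gC1_sound (E : RQ.En ε X T Y R q H d s W4 x t y r) (D : Dmn q0 q1 x t y r)
    (h : gC1 rg z m lf nf X T Y R H d s W4 = true) : PC1 rg z m x t y r := by
  have hε := E.e
  obtain ⟨bu, hbu, h⟩ := bO_some h
  obtain ⟨L, Lr, eL, hLr, h⟩ := lF_some hε E.d E.s D.dl D.dr D.dn h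
  obtain ⟨N, Nr, eN, hNr, h⟩ := nF_some hε E.d E.s D.dl D.dr D.dt h
  obtain ⟨S, eS, h⟩ := sdF_some hε E.X E.T h
  obtain ⟨Pl, hPl, h⟩ := bO_some h
  have kx := F.Encl.add E.X E.Y
  have kt := F.Encl.add E.T E.H
  have ebu := F.Encl.lnB hε kx kt hbu
  have e1 := F.Encl.lnA hε (r4_encl (5000 - m) ε) (F.Encl.add E.T E.R) hPl
  have p1 := posF_spec hε (F.Encl.sub (F.Encl.add (F.Encl.sub (F.Encl.add (F.Encl.add eL eL)
    (F.Encl.sub (F.Encl.mul hε E.W (F.Encl.sub eN ebu))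
      (rrF_encl (b := 4) (by norm_num) hε E.Y E.W))) eS) (two_encl hε e1)) (w8F_encl hε E.R)) h
  have hw := hb_le D hNr
  unfold PC1 Ln
  linarith only [hLr, p1, hw]

theorem gC2_sound (hc : c + 1 ≤ 5000) (ha : 0 < an) (E : RQ.En ε X T Y R q H d s W4 x t y r)
    (D : Dmn q0 q1 x t y r)
    (h : gC2 rg z cm c cr ek ad an sh lf nf X T Y R q H d s W4 = true) :
    0 < ag3 cm c cr ek ad an sh x t r ∧
      PC2 rg z (ag3 cm c cr ek ad an sh x t r) x t y r := by
  have hε := E.e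
  obtain ⟨bu, hbu, h⟩ := bO_some h
  obtain ⟨L, Lr, eL, hLr, h⟩ := lF_some hε E.d E.s D.dl D.dr D.dn h
  obtain ⟨N, Nr, eN, hNr, h⟩ := nF_some hε E.d E.s D.dl D.dr D.dt h
  obtain ⟨S, eS, h⟩ := sdF_some hε E.X E.T h
  obtain ⟨u, eu, hu, h⟩ := agF3_some hε E.X E.R E.q hc ha h
  obtain ⟨Lc, hLc, h⟩ := bO_some h
  have kx := F.Encl.add E.X E.Y
  have kt := F.Encl.add E.T E.H
  have ebu := F.Encl.lnB hε kx kt hbu
  have e1 := F.Encl.lnA hε eu E.q hLc
  have p1 := posF_spec hε (F.Encl.add (F.Encl.add (F.Encl.sub (F.Encl.add (F.Encl.add eL eL)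
    (F.Encl.sub (F.Encl.mul hε E.W (F.Encl.sub eN ebu))
      (rrF_encl (b := 4) (by norm_num) hε E.Y E.W))) eS) (two_encl hε e1)) (w8F_encl hε E.R)) h
  have hw := hb_le D hNr
  refine ⟨hu, ?_⟩
  unfold PC2 Ln
  linarith only [hLr, p1, hw]

end

/-! ### tests -/

/-- at the saddle point -/
def uE (c cr ek ad an sl sh a p0 m q0 q1 k : ℕ) (X T Y R : F) : Bool :=
  let q := R.sub T
  let H := F.mulq 4 1 (R.mul Y)
  let d := Y.sub X
  let s := H.sub T
  cond (Nat.ble 120 k) (vac q0 q1 k q d s)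
    (cond (Nat.ble 94 k) (fN (Nat.sub k 94) fun k' => gV2 k' m sl a X T R q)
      (cond (Nat.ble 90 k) (fN (Nat.sub k 90) fun cm => gV1 p0 cm c cr ek ad an sh X T R q)
        (fN (Nat.mod k 3) fun lf => fN (Nat.div k 3) fun nf =>
          gE lf nf X T Y H d s (F.mulq 4 1 R))))

/-- below the saddle point -/
def uD (rg c cr ek ad an sl a p0 m q0 q1 k : ℕ) (X T Y R : F) : Bool :=
  let q := R.sub T
  let H := F.mulq 4 1 (R.mul Y)
  let d := Y.sub X
  let s := H.sub T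
  cond (Nat.ble 120 k) (vac q0 q1 k q d s)
    (cond (Nat.ble 94 k) (fN (Nat.sub k 94) fun k' => gV2 k' m sl a X T R q)
      (cond (Nat.ble 90 k) (fN (Nat.sub k 90) fun cm => gV0 p0 cm c cr ek ad an T R q)
        (cond (Nat.ble 20 k) (fN (Nat.sub k 20) fun nf =>
            gB2 rg a (cond (Nat.beq rg 0) 1 0) sl a nf X T Y R q H d s (F.mulq 4 1 R))
          (cond (Nat.ble 15 k) (fN (Nat.sub k 15) fun nf =>
              gB1 rg a p0 nf X T Y R H d s (F.mulq 4 1 R))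
            (fN (Nat.mod k 3) fun lf => fN (Nat.div k 3) fun nf =>
              gE lf nf X T Y H d s (F.mulq 4 1 R))))))

/-- above the saddle point -/
def uU (rg c cr ek ad an sl sh a e p0 m q0 q1 k : ℕ) (X T Y R : F) : Bool :=
  let q := R.sub T
  let H := F.mulq 4 1 (R.mul Y)
  let d := Y.sub X
  let s := H.sub T
  cond (Nat.ble 120 k) (vac q0 q1 k q d s)
    (cond (Nat.ble 94 k) (gV2 0 m sl a X T R q)
      (cond (Nat.ble 90 k) (fN (Nat.sub k 90) fun cm => gV1 p0 cm c cr ek ad an sh X T R q)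
        (cond (Nat.ble 30 k) (fN (Nat.div (Nat.sub k 30) 15) fun cm =>
            fN (Nat.mod (Nat.mod (Nat.sub k 30) 15) 3) fun lf =>
            fN (Nat.div (Nat.mod (Nat.sub k 30) 15) 3) fun nf =>
              gC2 rg e cm c cr ek ad an sh lf nf X T Y R q H d s (F.mulq 4 1 R))
          (cond (Nat.ble 15 k) (fN (Nat.mod (Nat.sub k 15) 3) fun lf =>
              fN (Nat.div (Nat.sub k 15) 3) fun nf =>
                gC1 rg e m lf nf X T Y R H d s (F.mulq 4 1 R))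
            (fN (Nat.mod k 3) fun lf => fN (Nat.div k 3) fun nf =>
              gE lf nf X T Y H d s (F.mulq 4 1 R))))))

section
variable {rg c cr ek ad an sl sh a e p0 m q0 q1 : ℕ}

/-- the last alternatives: the derivative of the ring variable is not `8 π ρ` -/
def RE (c cr ek ad an sl sh a p0 m q0 q1 : ℕ) (x t y r : ℝ) : Prop :=
  Dmn q0 q1 x t y r → PE x t y r ∨
    (∃ cm, 0 < ag3 cm c cr ek ad an sh x t r ∧ PV1 p0 (ag3 cm c cr ek ad an sh x t r) t r) ∨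
    ∃ k, PV2 m (bg k sl a x) t r

def RD (rg c cr ek ad an sl a p0 m q0 q1 : ℕ) (x t y r : ℝ) : Prop :=
  Dmn q0 q1 x t y r → PE x t y r ∨ PB1 rg a p0 x t y r ∨
    PB2 rg a (bg (cond (Nat.beq rg 0) 1 0) sl a x) x t y r ∨
    (∃ cm, 0 < ag cm c cr ek ad an t r ∧ PV1 p0 (ag cm c cr ek ad an t r) t r) ∨
    ∃ k, PV2 m (bg k sl a x) t r

def RU (rg c cr ek ad an sl sh a e p0 m q0 q1 : ℕ) (x t y r : ℝ) : Prop :=
  Dmn q0 q1 x t y r → PE x t y r ∨ PC1 rg e m x t y r ∨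
    (∃ cm, 0 < ag3 cm c cr ek ad an sh x t r ∧
      PC2 rg e (ag3 cm c cr ek ad an sh x t r) x t y r) ∨
    (∃ cm, 0 < ag3 cm c cr ek ad an sh x t r ∧ PV1 p0 (ag3 cm c cr ek ad an sh x t r) t r) ∨
    PV2 m (bg 0 sl a x) t r

theorem uE_ok (hc : c + 1 ≤ 5000) (ha : 0 < an) :
    TestOk (uE c cr ek ad an sl sh a p0 m q0 q1) (RE c cr ek ad an sl sh a p0 m q0 q1) := by
  intro k X T Y R ε x t y r hε hX hT hY hR h D
  have E := RQ.En.of hε hX hT hY hR
  unfold uE at h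
  simp only at h
  rcases h0 : Nat.ble 120 k with _ | _
  swap
  · rw [h0, cond_true] at h
    exact (vac_sound E D h).elim
  rw [h0, cond_false] at h
  rcases h1 : Nat.ble 94 k with _ | _
  swap
  · rw [h1, cond_true, fN_eq] at h
    exact Or.inr (Or.inr ⟨_, gV2_sound E h⟩)
  rw [h1, cond_false] at h
  rcases h2 : Nat.ble 90 k with _ | _
  swap
  · rw [h2, cond_true, fN_eq] at h
    exact Or.inr (Or.inl ⟨_, gV1_sound hc ha E h⟩)
  rw [h2, cond_false, fN_eq, fN_eq] at h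
  exact Or.inl (gE_sound E D h)

theorem uD_ok (hc : c + 1 ≤ 5000) (ha : 0 < an) :
    TestOk (uD rg c cr ek ad an sl a p0 m q0 q1) (RD rg c cr ek ad an sl a p0 m q0 q1) := by
  intro k X T Y R ε x t y r hε hX hT hY hR h D
  have E := RQ.En.of hε hX hT hY hR
  unfold uD at h
  simp only at h
  rcases h0 : Nat.ble 120 k with _ | _
  swap
  · rw [h0, cond_true] at h
    exact (vac_sound E D h).elim
  rw [h0, cond_false] at h
  rcases h1 : Nat.ble 94 k with _ | _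
  swap
  · rw [h1, cond_true, fN_eq] at h
    exact Or.inr (Or.inr (Or.inr (Or.inr ⟨_, gV2_sound E h⟩)))
  rw [h1, cond_false] at h
  rcases h2 : Nat.ble 90 k with _ | _
  swap
  · rw [h2, cond_true, fN_eq] at h
    exact Or.inr (Or.inr (Or.inr (Or.inl ⟨_, gV0_sound hc ha E h⟩)))
  rw [h2, cond_false] at h
  rcases h3 : Nat.ble 20 k with _ | _
  swap
  · rw [h3, cond_true, fN_eq] at h
    exact Or.inr (Or.inr (Or.inl (gB2_sound E D h)))
  rw [h3, cond_false] at h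
  rcases h4 : Nat.ble 15 k with _ | _
  swap
  · rw [h4, cond_true, fN_eq] at h
    exact Or.inr (Or.inl (gB1_sound E D h))
  rw [h4, cond_false, fN_eq, fN_eq] at h
  exact Or.inl (gE_sound E D h)

theorem uU_ok (hc : c + 1 ≤ 5000) (ha : 0 < an) :
    TestOk (uU rg c cr ek ad an sl sh a e p0 m q0 q1)
      (RU rg c cr ek ad an sl sh a e p0 m q0 q1) := by
  intro k X T Y R ε x t y r hε hX hT hY hR h D
  have E := RQ.En.of hε hX hT hY hR
  unfold uU at h
  simp only at h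
  rcases h0 : Nat.ble 120 k with _ | _
  swap
  · rw [h0, cond_true] at h
    exact (vac_sound E D h).elim
  rw [h0, cond_false] at h
  rcases h1 : Nat.ble 94 k with _ | _
  swap
  · rw [h1, cond_true] at h
    exact Or.inr (Or.inr (Or.inr (Or.inr (gV2_sound E h))))
  rw [h1, cond_false] at h
  rcases h2 : Nat.ble 90 k with _ | _
  swap
  · rw [h2, cond_true, fN_eq] at h
    exact Or.inr (Or.inr (Or.inr (Or.inl ⟨_, gV1_sound hc ha E h⟩)))
  rw [h2, cond_false] at h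
  rcases h3 : Nat.ble 30 k with _ | _
  swap
  · rw [h3, cond_true, fN_eq, fN_eq, fN_eq] at h
    exact Or.inr (Or.inr (Or.inl ⟨_, gC2_sound hc ha E D h⟩))
  rw [h3, cond_false] at h
  rcases h4 : Nat.ble 15 k with _ | _
  swap
  · rw [h4, cond_true, fN_eq, fN_eq] at h
    exact Or.inr (Or.inl (gC1_sound E D h))
  rw [h4, cond_false, fN_eq, fN_eq] at h
  exact Or.inl (gE_sound E D h)

end

end RQ4

end Pool.Agent.Work.MP_b30479_gtS.G2

end

section

/-!
# Rings with the ring variable on the ramp, `b = 4`: reduction and use of the certificates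
-/

namespace Pool.Agent.Work.MP_b30479_gtS.G2

open Real Set VOL NumIs

namespace RQ4

open RC RQ
open LR (rat1 mulq1)
open RZ1 (negE enc4)

/-! ### the side of the hinge and the gauge -/

theorem side_gauge4 {a e u v t τ β κ : ℝ} (ha : 0 < a) (he : e ≤ 1 / 2) (hau : a ≤ u)
    (huv : u ≤ v) (hve : v ≤ e) (ht : |t| ≤ τ) (hκ : 0 ≤ κ)
    (hc : β * sinh (π * τ) ^ 2 ≤ sin (π * a) ^ 2 * (2 * cos (π * e) - β) +
      κ * (sin (π * a) * (sin (π * a) ^ 2 + sinh (π * τ) ^ 2)))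
    (hc2 : β ≤ 2 * cos (π * e) + κ * sin (π * a)) :
    β * (gh v - gh u) ≤ 2 * (lnA v t - lnA u t) + κ * π * (v - u) := by
  have hpi := pi_pos
  rcases huv.eq_or_lt with h | h
  · rw [h]
    simp
  have hd : ∀ z ∈ Icc u v, HasDerivAt (fun z => 2 * lnA z t + κ * π * z - β * gh z)
      (2 * (π * sin (π * z) * cos (π * z) / (sin (π * z) ^ 2 + sinh (π * t) ^ 2)) + κ * π * 1 -
        β * (π / sin (π * z))) z := fun z hz =>
    (((hasDerivAt_lnA (by linarith only [ha, hau, hz, hz.1]) (by linarith only [ha, he, hau, hve, h, hz, hz.2])).const_mul 2).add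
      ((hasDerivAt_id' z).const_mul (κ * π))).sub
      ((hasDerivAt_gh (by linarith only [ha, hau, hz, hz.1]) (by linarith only [ha, he, hau, hve, h, hz, hz.2])).const_mul β)
  have hmono : MonotoneOn (fun z => 2 * lnA z t + κ * π * z - β * gh z) (Icc u v) := by
    apply monotoneOn_of_deriv_nonneg (convex_Icc u v)
    · exact fun z hz => (hd z hz).continuousAt.continuousWithinAt
    · intro z hz
      rw [interior_Icc] at hz
      exact (hd z ⟨hz.1.le, hz.2.le⟩).differentiableAt.differentiableWithinAt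
    · intro z hz
      rw [interior_Icc] at hz
      rw [(hd z ⟨hz.1.le, hz.2.le⟩).deriv]
      have hz1 := hz.1
      have hz2 := hz.2
      have hsa : 0 < sin (π * a) := sin_pos_of_pos_of_lt_pi (by positivity) (by nlinarith only [hpi, he, hau, huv, hve])
      have hm : sin (π * a) ≤ sin (π * z) :=
        sin_le_sin_of_le_of_le_pi_div_two (by nlinarith only [hpi, ha]) (by nlinarith only [ha, he, hpi, hau, huv, hve, hz2]) (by nlinarith only [ha, he, hau, hpi, huv, hve, hz1])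
      have hs : 0 < sin (π * z) := by linarith only [hsa, hm]
      have hcos : cos (π * e) ≤ cos (π * z) :=
        cos_le_cos_of_nonneg_of_le_pi (by nlinarith only [ha, hpi, he, hau, huv, hve, hz1]) (by nlinarith only [hpi, he]) (by nlinarith only [ha, he, hau, huv, hve, hpi, hz2])
      have hsh : sinh (π * t) ^ 2 ≤ sinh (π * τ) ^ 2 := by
        have h0τ : 0 ≤ τ := (abs_nonneg t).trans ht
        rw [← sq_abs (sinh (π * t)), abs_sinh, abs_mul, abs_of_pos hpi]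
        have h1 : 0 ≤ sinh (π * |t|) := sinh_nonneg_iff.2 (by positivity)
        exact pow_le_pow_left₀ h1 (sinh_le_sinh.2 (mul_le_mul_of_nonneg_left ht hpi.le)) 2
      have hsq : sin (π * a) ^ 2 ≤ sin (π * z) ^ 2 := pow_le_pow_left₀ hsa.le hm 2
      have hM : 0 < sin (π * z) ^ 2 + sinh (π * t) ^ 2 := by positivity
      have k1 : β * (sin (π * z) ^ 2 + sinh (π * t) ^ 2) ≤ 2 * sin (π * z) ^ 2 * cos (π * z) +
          κ * (sin (π * z) * (sin (π * z) ^ 2 + sinh (π * t) ^ 2)) := by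
        have e1 : κ * (sin (π * a) * (sin (π * z) ^ 2 + sinh (π * t) ^ 2)) ≤
            κ * (sin (π * z) * (sin (π * z) ^ 2 + sinh (π * t) ^ 2)) :=
          mul_le_mul_of_nonneg_left (mul_le_mul_of_nonneg_right hm hM.le) hκ
        have e2 : sin (π * z) ^ 2 * cos (π * e) ≤ sin (π * z) ^ 2 * cos (π * z) :=
          mul_le_mul_of_nonneg_left hcos (by positivity)
        have e3 : sin (π * a) ^ 2 * (2 * cos (π * e) + κ * sin (π * a) - β) ≤
            sin (π * z) ^ 2 * (2 * cos (π * e) + κ * sin (π * a) - β) :=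
          mul_le_mul_of_nonneg_right hsq (by linarith only [hc2])
        rcases le_total β (κ * sin (π * a)) with h5 | h5
        · have e4 : β * sinh (π * t) ^ 2 ≤ κ * sin (π * a) * sinh (π * t) ^ 2 :=
            mul_le_mul_of_nonneg_right h5 (by positivity)
          have e5 : 0 ≤ sin (π * z) ^ 2 * (2 * cos (π * e) + κ * sin (π * a) - β) :=
            mul_nonneg (by positivity) (by linarith only [hc2])
          linarith only [e1, e2, e4, e5]
        · have e4 : (β - κ * sin (π * a)) * sinh (π * t) ^ 2 ≤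
              (β - κ * sin (π * a)) * sinh (π * τ) ^ 2 :=
            mul_le_mul_of_nonneg_left hsh (by linarith only [h5])
          linarith only [hc, e1, e2, e3, e4]
      have e1 : 2 * (π * sin (π * z) * cos (π * z) / (sin (π * z) ^ 2 + sinh (π * t) ^ 2)) +
          κ * π * 1 - β * (π / sin (π * z)) = π * (2 * sin (π * z) ^ 2 * cos (π * z) +
          κ * (sin (π * z) * (sin (π * z) ^ 2 + sinh (π * t) ^ 2)) -
            β * (sin (π * z) ^ 2 + sinh (π * t) ^ 2)) /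
              ((sin (π * z) ^ 2 + sinh (π * t) ^ 2) * sin (π * z)) := by
        field_simp
      rw [e1]
      apply div_nonneg _ (by positivity)
      exact mul_nonneg hpi.le (by linarith only [k1])
  have := hmono ⟨le_rfl, h.le⟩ ⟨h.le, le_rfl⟩ h.le
  simp only at this
  linarith only [this]

/-- condition of `side_gauge4` -/
def kC4 (be a e t ka : ℕ) : Bool :=
  bO (F.hyp false (F.pi.mul (F.rat t 10000))) fun sh =>
    cond (posF (((F.mulq 2 1 (F.rat e 10000).cosPi).sub (F.rat be 10000)).add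
        (F.mulq ka 10000 (F.rat a 10000).sinPi)))
      (posF ((((F.rat a 10000).sinPi.sqn.mul ((F.mulq 2 1 (F.rat e 10000).cosPi).sub
        (F.rat be 10000))).add (F.mulq ka 10000 ((F.rat a 10000).sinPi.mul
          ((F.rat a 10000).sinPi.sqn.add sh.sqn)))).sub (F.mulq be 10000 sh.sqn))) false

theorem kC4_sound {be a e t ka : ℕ} (h : kC4 be a e t ka = true) :
    (be : ℝ) / 10000 * sinh (π * ((t : ℝ) / 10000)) ^ 2 ≤
      sin (π * ((a : ℝ) / 10000)) ^ 2 * (2 * cos (π * ((e : ℝ) / 10000)) - (be : ℝ) / 10000) +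
      (ka : ℝ) / 10000 * (sin (π * ((a : ℝ) / 10000)) * (sin (π * ((a : ℝ) / 10000)) ^ 2 +
        sinh (π * ((t : ℝ) / 10000)) ^ 2)) ∧
    (be : ℝ) / 10000 ≤ 2 * cos (π * ((e : ℝ) / 10000)) +
      (ka : ℝ) / 10000 * sin (π * ((a : ℝ) / 10000)) := by
  obtain ⟨sh, hsh, h⟩ := bO_some h
  obtain ⟨g1, g2⟩ := cond_ff h
  have e1 := F.Encl.sinh hε0 (F.Encl.mul hε0 (F.Encl.pi (fun _ => 0)) (r4_encl t (fun _ => 0))) hsh
  have e2 := F.Encl.sub (two_encl hε0 (F.Encl.cosPi hε0 (r4_encl e (fun _ => 0))))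
    (r4_encl be (fun _ => 0))
  have sa := F.Encl.sinPi hε0 (r4_encl a (fun _ => 0))
  have e3 := F.Encl.mul hε0 (F.Encl.sqn hε0 sa) e2
  have e4 := F.Encl.mulq (n := be) (d := 10000) (by norm_num) hε0 (F.Encl.sqn hε0 e1)
  have e5 := F.Encl.mulq (n := ka) (d := 10000) (by norm_num) hε0 sa
  have e6 := F.Encl.mulq (n := ka) (d := 10000) (by norm_num) hε0 (F.Encl.mul hε0 sa
    (F.Encl.add (F.Encl.sqn hε0 sa) (F.Encl.sqn hε0 e1)))
  have p1 := posF_spec hε0 (F.Encl.add e2 e5) g1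
  have p2 := posF_spec hε0 (F.Encl.sub (F.Encl.add e3 e6) e4) g2
  push_cast at p1 p2
  constructor <;> linarith only [p2, p1]

theorem gS4 {be a e t ka : ℕ} (h : kC4 be a e t ka = true) {u v T : ℝ} (ha : 0 < a)
    (he : e ≤ 5000) (hau : (a : ℝ) / 10000 ≤ u) (huv : u ≤ v) (hve : v ≤ (e : ℝ) / 10000)
    (hT : |T| ≤ (t : ℝ) / 10000) :
    (be : ℝ) / 10000 * (gh v - gh u) ≤ 2 * (lnA v T - lnA u T) +
      (ka : ℝ) * 31416 / 10 ^ 8 * ((e : ℝ) / 10000 - (a : ℝ) / 10000) := by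
  have h1 : (e : ℝ) ≤ ((5000 : ℕ) : ℝ) := Nat.cast_le.mpr he
  have h2 : (0 : ℝ) < a := by exact_mod_cast ha
  push_cast at h1
  obtain ⟨c1, c2⟩ := kC4_sound h
  have := side_gauge4 (a := (a : ℝ) / 10000) (e := (e : ℝ) / 10000) (by positivity) (by linarith only [h1])
    hau huv hve hT (by positivity) c1 c2
  have k0 : (0 : ℝ) ≤ (ka : ℝ) / 10000 := by positivity
  have hpi : π ≤ 31416 / 10000 := by linarith only [pi_lt_d4]
  have k1 : (ka : ℝ) / 10000 * π * (v - u) ≤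
      (ka : ℝ) / 10000 * (31416 / 10000) * ((e : ℝ) / 10000 - (a : ℝ) / 10000) := by
    apply mul_le_mul _ (by linarith only [hau, hve]) (by linarith only [huv]) (by positivity)
    exact mul_le_mul_of_nonneg_left hpi k0
  have k2 : (ka : ℝ) * 31416 / 10 ^ 8 * ((e : ℝ) / 10000 - (a : ℝ) / 10000) =
      (ka : ℝ) / 10000 * (31416 / 10000) * ((e : ℝ) / 10000 - (a : ℝ) / 10000) := by ring
  linarith only [this, k1]

theorem dn_fin4 {P S α β gx gs l1 l2 As Az : ℝ} (h : -l1 < P ∨ -l2 < P + S - 2 * (As - Az))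
    (hm : gx ≤ gs) (h1 : β * (gs - gx) ≤ α - l1) (h2 : β * (gs - gx) ≤ α - l2 + 2 * (As - Az)) :
    β * |gx - gs| - α < P ∨ β * |gx - gs| - α < P + S := by
  rw [abs_of_nonpos (by linarith only [hm]), neg_sub]
  rcases h with h | h
  · left; linarith only [h1, h]
  · right; linarith only [h2, h]

/-- the linear terms as real numbers -/
theorem dn_fin5 {P S α β gx gs l1 l2 As Az : ℝ} (h : l1 < P ∨ l2 < P + S - 2 * (As - Az))
    (hm : gx ≤ gs) (h1 : β * (gs - gx) ≤ α + l1) (h2 : β * (gs - gx) ≤ α + l2 + 2 * (As - Az)) :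
    β * |gx - gs| - α < P ∨ β * |gx - gs| - α < P + S := by
  rw [abs_of_nonpos (by linarith only [hm]), neg_sub]
  rcases h with h | h
  · left; linarith only [h1, h]
  · right; linarith only [h2, h]

theorem up_fin5 {P S α β gx gs l1 l2 As Az : ℝ} (h : l1 < P ∨ l2 < P - S - 2 * (Az - As))
    (hm : gs ≤ gx) (h1 : β * (gx - gs) ≤ α + l1) (h2 : β * (gx - gs) ≤ α + l2 + 2 * (Az - As)) :
    β * |gx - gs| - α < P ∨ β * |gx - gs| - α < P - S := by
  rw [abs_of_nonneg (by linarith only [hm])]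
  rcases h with h | h
  · left; linarith only [h1, h]
  · right; linarith only [h2, h]

theorem up_fin4 {P S α β gx gs l1 l2 As Az : ℝ} (h : -l1 < P ∨ -l2 < P - S - 2 * (Az - As))
    (hm : gs ≤ gx) (h1 : β * (gx - gs) ≤ α - l1) (h2 : β * (gx - gs) ≤ α - l2 + 2 * (Az - As)) :
    β * |gx - gs| - α < P ∨ β * |gx - gs| - α < P - S := by
  rw [abs_of_nonneg (by linarith only [hm])]
  rcases h with h | h
  · left; linarith only [h1, h]
  · right; linarith only [h2, h]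

/-! ### the saddle point -/

/-- the saddle point, units `1/10000` -/
structure Nm (c cr ek ad an m s0 q0 q1 t0 t1 r0 r1 : ℕ) (xs s T ρ : ℝ) : Prop where
  xs0 : 0 < xs
  xs1 : xs < 1 / 2
  hs0 : (s0 : ℝ) / 10000 ≤ s
  s5 : s0 + 1 ≤ 5000
  hc : xs + s ≤ (c : ℝ) / 10000
  c5 : c + 1 ≤ 5000
  hcr : xs + s ≤ (cr : ℝ) / 10000 + ρ
  cr5 : cr ≤ 5000
  hek : xs + s ≤ (ek : ℝ) / 10000 - (ad : ℝ) / an * (ρ - T)
  an0 : 0 < an
  hm0 : xs - s ≤ (m : ℝ) / 10000
  hm1 : s - xs ≤ (m : ℝ) / 10000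
  m5 : m + 1 ≤ 5000
  ht0 : ((t0 : ℝ) - (1580 : ℕ)) / (10000 : ℕ) ≤ T
  ht1 : T ≤ ((t1 : ℝ) - (1580 : ℕ)) / (10000 : ℕ)
  hr0 : ((r0 : ℝ) - (0 : ℕ)) / (10000 : ℕ) ≤ ρ
  hr1 : ρ ≤ ((r1 : ℝ) - (0 : ℕ)) / (10000 : ℕ)
  pos : 0 < ρ
  lo : 1 ≤ q0 → (q0 : ℝ) / 10000 ≤ ρ - T
  hi : ρ - T ≤ (q1 : ℝ) / 10000

section
variable {b c cr ek ad an m s0 q0 q1 t0 t1 r0 r1 rg w ln ld a u1 v1 u2 v2 u1' v1' u2' v2' xl xh
  code yl : ℕ} {xs s T ρ x y u cl cp : ℝ}

lemma Nm.s00 (h : Nm c cr ek ad an m s0 q0 q1 t0 t1 r0 r1 xs s T ρ) : 0 ≤ s :=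
  le_trans (by positivity) h.hs0

lemma Nm.sum (h : Nm c cr ek ad an m s0 q0 q1 t0 t1 r0 r1 xs s T ρ) : xs + s < 1 / 2 := by
  have h1 := h.hc
  have h2 : ((c + 1 : ℕ) : ℝ) ≤ ((5000 : ℕ) : ℝ) := Nat.cast_le.mpr h.c5
  push_cast at h2
  linarith only [h1, h2]

lemma Nm.ag_le (h : Nm c cr ek ad an m s0 q0 q1 t0 t1 r0 r1 xs s T ρ) (cm : ℕ) :
    ag cm c cr ek ad an T ρ ≤ 1 / 2 - s - xs := by
  unfold ag
  rcases Nat.beq cm 0 with _ | _
  · rw [cond_false]
    rcases Nat.beq cm 1 with _ | _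
    · rw [cond_false]
      linarith only [h, h.hek]
    · rw [cond_true, Nat.cast_sub h.cr5]
      push_cast
      linarith only [h, h.hcr]
  · rw [cond_true, cast_sub h.c5]
    linarith only [h, h.hc]

lemma Nm.Q_ge (h : Nm c cr ek ad an m s0 q0 q1 t0 t1 r0 r1 xs s T ρ) (h0 : 0 < u)
    (hu : u ≤ 1 / 2 - s - xs) :
    lnA u (ρ - T) ≤ LL (lv (1 / 2 - s - xs) (T - ρ)) := by
  rw [LL_lv _ (by linarith only [h0, hu, h.sum]) (by linarith only [h0, hu, h, h.s00, h.xs0]),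
    ← lnA_even (1 / 2 - s - xs) (T - ρ), neg_sub]
  exact lnA_mono h0 hu (by linarith only [h, h.s00, h.xs0])

lemma Nm.Q_le (h : Nm c cr ek ad an m s0 q0 q1 t0 t1 r0 r1 xs s T ρ) {z : ℝ} (hz : z ≤ xs)
    (hz0 : 0 ≤ z) :
    LL (lv (1 / 2 - s - xs) (T - ρ)) ≤ lnA (((5000 - s0 : ℕ) : ℝ) / 10000 - z) (ρ - T) := by
  rw [LL_lv _ (by linarith only [h, h.sum]) (by linarith only [hz, hz0, h, h.s00, h.xs0]),
    ← lnA_even (1 / 2 - s - xs) (T - ρ), neg_sub, cast_sub h.s5]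
  have h2 := h.hs0
  have hm : (0 : ℝ) ≤ s0 := Nat.cast_nonneg s0
  exact lnA_mono (by linarith [h.sum]) (by linarith) (by linarith)

lemma Nm.P_le (h : Nm c cr ek ad an m s0 q0 q1 t0 t1 r0 r1 xs s T ρ) :
    LL (lv (xs + (1 / 2 - s)) (T + ρ)) ≤ lnA (1 / 2) (T + ρ) :=
  LL_le_half (by linarith only [h, h.sum, h.xs0]) (by linarith only [h, h.s00, h.xs1])

lemma Nm.P_ge (h : Nm c cr ek ad an m s0 q0 q1 t0 t1 r0 r1 xs s T ρ) :
    lnA (((5000 - m : ℕ) : ℝ) / 10000) (T + ρ) ≤ LL (lv (xs + (1 / 2 - s)) (T + ρ)) := by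
  have h2 : ((m + 1 : ℕ) : ℝ) ≤ ((5000 : ℕ) : ℝ) := Nat.cast_le.mpr h.m5
  push_cast at h2
  have h3 := h.hm0
  have h4 := h.hm1
  rw [cast_sub h.m5]
  have hm : (0 : ℝ) ≤ m := Nat.cast_nonneg m
  exact lnA_le_LL (by linarith only [h2]) (by linarith only [h4]) (by linarith only [h3])

lemma Fr_eq4 (D : Dmn q0 q1 x T y ρ) :
    Fr x y T ρ = An x T y ρ + Ln x T y ρ + Hb x T y ρ :=
  Fr_split (by linarith only [D, D.x0, D.y0]) (by linarith only [D, D.x1, D.y1])

lemma Sx_eq4 (D : Dmn q0 q1 x T y ρ) :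
    Sx x y T (4 * ρ * y) = An x T y ρ - Ln x T y ρ - 2 * lnA x T := by
  unfold Sx An Ln
  rw [LL_lv _ (by linarith only [D, D.x0, D.y0]) (by linarith only [D, D.x1, D.y1]),
    LL_lv _ D.x0 (by linarith only [D, D.x1]), ← LL_lv_neg (y - x) (T - 4 * ρ * y)]
  have e1 : 4 * ρ * y = 4 * (ρ * y) := by ring
  have e2 : -(T - 4 * (ρ * y)) = 4 * (ρ * y) - T := by ring
  rw [e1, e2]
  ring

/-- the hinge beyond its part -/
theorem Nm.PhA (h : Nm c cr ek ad an m s0 q0 q1 t0 t1 r0 r1 xs s T ρ) (D : Dmn q0 q1 x T y ρ)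
    (hk : 0 ≤ kr b y) (h0 : 0 < u) (hu : u ≤ 1 / 2 - s - xs)
    (hA : PA4 b w ln ld u1 v1 u2 v2 u x T y ρ) :
    -lin u1 v1 u2 v2 x < Ph ((w : ℝ) / 2) (lam ln ld 1) b xs (1 / 2 - s) T ρ x y := by
  obtain ⟨-, h2⟩ := hA
  have hl := lam_nonneg ln ld 1
  set l := lam ln ld 1
  have hD : Dx xs (1 / 2 - s) T ρ ≤ lnA (1 / 2) (T + ρ) - lnA u (ρ - T) := by
    unfold Dx
    have := h.P_le
    have := h.Q_ge h0 hu
    linarith
  have hU := mul_le_mul_of_nonneg_left (mul_le_mul_of_nonneg_left hD hk) hl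
  unfold Ph Sp
  rw [Fr_eq4 D]
  linarith only [h2, hU]

/-- with the increment of the side, below -/
theorem Nm.PhB (h : Nm c cr ek ad an m s0 q0 q1 t0 t1 r0 r1 xs s T ρ) (D : Dmn q0 q1 x T y ρ)
    (hk : 0 ≤ kr b y) (hl1 : lam ln ld 1 * (4 / b) ≤ 1) (ha : s0 + a + 1 ≤ 5000)
    (hB : PB rg b w ln ld s0 a u1 v1 u2 v2 1 x T y ρ) (h0 : rg = 0 → x ≤ xs)
    (h1 : rg ≠ 0 → (a : ℝ) / 10000 ≤ xs) {z : ℝ} (hz0 : rg = 0 → z = x)
    (hz1 : rg ≠ 0 → z = (a : ℝ) / 10000) :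
    -lin u1 v1 u2 v2 x < Ph ((w : ℝ) / 2) (lam ln ld 1) b xs (1 / 2 - s) T ρ x y +
      dS xs (1 / 2 - s) T ρ x y - 2 * (lnA xs T - lnA z T) := by
  have hl := lam_nonneg ln ld 1
  set l := lam ln ld 1
  have hk4 := kr_le (B := b) D.y1
  have hlk : l * kr b y ≤ 1 := (mul_le_mul_of_nonneg_left hk4 hl).trans hl1
  have hlk0 : 0 ≤ l * kr b y := mul_nonneg hl hk
  have hP := h.P_le
  have e2 : LL (lv xs T) = lnA xs T := LL_lv _ h.xs0 (by linarith only [h, h.xs1])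
  unfold Ph Sp dS
  rw [Fr_eq4 D, Sx_eq4 D]
  unfold Dx Sx
  rw [e2]
  set P := LL (lv (xs + (1 / 2 - s)) (T + ρ))
  have k1 : (1 + l * kr b y) * P ≤ (1 + l * kr b y) * lnA (1 / 2) (T + ρ) :=
    mul_le_mul_of_nonneg_left hP (by linarith only [hlk0])
  rcases hB with ⟨hr, hB⟩ | ⟨hr, hB⟩
  · rw [hz0 hr]
    have hQ := h.Q_le (h0 hr) D.x0.le
    have k2 := mul_le_mul_of_nonneg_left hQ (show 0 ≤ 1 - l * kr b y by linarith only [hlk])
    linarith only [k1, hB, k2]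
  · rw [hz1 hr]
    have hQ := h.Q_le (h1 hr) (by positivity)
    have e3 : ((5000 - s0 : ℕ) : ℝ) / 10000 - (a : ℝ) / 10000 =
        ((5000 - s0 - a : ℕ) : ℝ) / 10000 := by
      rw [Nat.cast_sub (show a ≤ 5000 - s0 by omega)]
      ring
    rw [e3] at hQ
    have k2 := mul_le_mul_of_nonneg_left hQ (show 0 ≤ 1 - l * kr b y by linarith only [hlk])
    linarith only [k1, hB, k2]

/-- with the increment of the side, above -/
theorem Nm.PhC (h : Nm c cr ek ad an m s0 q0 q1 t0 t1 r0 r1 xs s T ρ) (D : Dmn q0 q1 x T y ρ)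
    (hk : 0 ≤ kr b y) (hl1 : lam ln ld 1 * (4 / b) ≤ 1) (h0 : 0 < u) (hu : u ≤ 1 / 2 - s - xs)
    (hB : PC4 rg b w ln ld m a u1 v1 u2 v2 u x T y ρ) {z : ℝ} (hz0 : rg = 0 → z = x)
    (hz1 : rg ≠ 0 → z = (a : ℝ) / 10000) :
    -lin u1 v1 u2 v2 x < Ph ((w : ℝ) / 2) (lam ln ld 1) b xs (1 / 2 - s) T ρ x y -
      dS xs (1 / 2 - s) T ρ x y - 2 * (lnA z T - lnA xs T) := by
  have hl := lam_nonneg ln ld 1
  set l := lam ln ld 1
  have hk4 := kr_le (B := b) D.y1
  have hlk : l * kr b y ≤ 1 := (mul_le_mul_of_nonneg_left hk4 hl).trans hl1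
  have hlk0 : 0 ≤ l * kr b y := mul_nonneg hl hk
  have hP := h.P_ge
  have hQ := h.Q_ge h0 hu
  have e2 : LL (lv xs T) = lnA xs T := LL_lv _ h.xs0 (by linarith only [h, h.xs1])
  unfold Ph Sp dS
  rw [Fr_eq4 D, Sx_eq4 D]
  unfold Dx Sx
  rw [e2]
  set P := LL (lv (xs + (1 / 2 - s)) (T + ρ))
  set Q := LL (lv (1 / 2 - s - xs) (T - ρ))
  have k1 := mul_le_mul_of_nonneg_left hP (show 0 ≤ 1 - l * kr b y by linarith only [hlk])
  have k2 := mul_le_mul_of_nonneg_left hQ (show 0 ≤ 1 + l * kr b y by linarith only [hlk0])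
  rcases hB with ⟨hr, hB⟩ | ⟨hr, hB⟩
  · rw [hz0 hr]
    linarith only [k1, k2, hB]
  · rw [hz1 hr]
    linarith only [k1, k2, hB]

/-! ### numerals -/

lemma n0 {n : ℕ} (h : 0 < n) : (0 : ℝ) < (n : ℝ) / 10000 := by
  have : (0 : ℝ) < n := by exact_mod_cast h
  positivity

lemma nle {m n : ℕ} (h : m ≤ n) : (m : ℝ) / 10000 ≤ (n : ℝ) / 10000 := by
  have : (m : ℝ) ≤ n := by exact_mod_cast h
  linarith only [this]

lemma nhalf {n : ℕ} (h : n ≤ 5000) : (n : ℝ) / 10000 ≤ 1 / 2 := by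
  have : (n : ℝ) ≤ ((5000 : ℕ) : ℝ) := by exact_mod_cast h
  push_cast at this
  linarith only [this]

/-! ### the pieces: `b = 4`, `w = 1`, `lam = 65 / 100` -/

lemma kr4 (h : 1 / 8 ≤ y) : 0 ≤ kr ((4 : ℕ) : ℝ) y := by
  apply kr_nonneg (by norm_num)
  push_cast
  linarith only [h]

lemma lam4v : lam 65 100 1 = 65 / 100 := by
  unfold lam
  norm_num

lemma lam4b : lam 65 100 1 * (4 / ((4 : ℕ) : ℝ)) ≤ 1 := by
  rw [lam4v]
  norm_num

lemma Nm.dmn (h : Nm c cr ek ad an m s0 q0 q1 t0 t1 r0 r1 xs s T ρ)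
    (hA : RC.Adm 4 T ρ cl cp x y) (hcl : 0 < cl) (hcp : cp < 1 / 2) : Dmn q0 q1 x T y ρ :=
  Dmn.of hA hcl hcp (by norm_num) h.pos h.lo h.hi

lemma Adm.y8 (hA : RC.Adm 4 T ρ cl cp x y) : 1 / 8 ≤ y := by
  have := hA.y0
  norm_num at this
  linarith only [this]

lemma ycast (hA : RC.Adm 4 T ρ cl cp x y) : (((1250 : ℕ) : ℝ) - (0 : ℕ)) / (10000 : ℕ) ≤ y := by
  have := Adm.y8 hA
  push_cast
  linarith only [this]

/-- the hinge beyond its part -/
theorem piP (cert : okB 10000 (tP 4 1 65 100 c cr ek ad an u1 v1 u2 v2 q0 q1) 0 1580 0 0 40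
      xl xh t0 t1 1250 2500 r0 r1 code = true)
    (h : Nm c cr ek ad an m s0 q0 q1 t0 t1 r0 r1 xs s T ρ) (hA : RC.Adm 4 T ρ cl cp x y)
    (hcl : 0 < cl) (hcp : cp < 1 / 2)
    (hx : (xl : ℝ) / 10000 ≤ x) (hx' : x ≤ (xh : ℝ) / 10000) :
    -lin u1 v1 u2 v2 x < Ph (1 / 2) (65 / 100) 4 xs (1 / 2 - s) T ρ x y := by
  have D := h.dmn hA hcl hcp
  obtain ⟨cm, hu, hp⟩ := okB_sound (by norm_num) (tP_ok (by norm_num) (by norm_num) h.c5 h.an0)
    cert (xb hx) (xb' hx') h.ht0 h.ht1 (ycast hA) (by push_cast; linarith only [D, D.y1]) h.hr0 h.hr1 D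
  have := h.PhA D (kr4 (Adm.y8 hA)) hu (h.ag_le cm) hp
  rw [lam4v, half1] at this
  push_cast at this
  exact this

/-- below the saddle point, `a ≤ x ≤ e` -/
theorem piD0 (cert : okB 10000 (tD 0 4 1 65 100 c cr ek ad an s0 a u1 v1 u2 v2 u1' v1' u2' v2'
      q0 q1) 0 1580 0 0 40 xl xh t0 t1 1250 2500 r0 r1 code = true)
    (h : Nm c cr ek ad an m s0 q0 q1 t0 t1 r0 r1 xs s T ρ) (hA : RC.Adm 4 T ρ cl cp x y)
    (hcl : 0 < cl) (hcp : cp < 1 / 2) (ha : s0 + a + 1 ≤ 5000)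
    (hx : (xl : ℝ) / 10000 ≤ x) (hx' : x ≤ (xh : ℝ) / 10000) (hxs : x ≤ xs) :
    -lin u1 v1 u2 v2 x < Ph (1 / 2) (65 / 100) 4 xs (1 / 2 - s) T ρ x y ∨
      -lin u1' v1' u2' v2' x < Ph (1 / 2) (65 / 100) 4 xs (1 / 2 - s) T ρ x y +
        dS xs (1 / 2 - s) T ρ x y - 2 * (lnA xs T - lnA x T) := by
  have D := h.dmn hA hcl hcp
  have hp := okB_sound (by norm_num) (tD_ok (by norm_num) (by norm_num) h.c5 h.an0)
    cert (xb hx) (xb' hx') h.ht0 h.ht1 (ycast hA) (by push_cast; linarith only [D, D.y1]) h.hr0 h.hr1 D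
  rcases hp with ⟨cm, hu, hp⟩ | hp
  · have := h.PhA D (kr4 (Adm.y8 hA)) hu (h.ag_le cm) hp
    rw [lam4v, half1] at this
    push_cast at this
    exact Or.inl this
  · have := h.PhB D (kr4 (Adm.y8 hA)) lam4b ha hp (fun _ => hxs) (fun hr => absurd rfl hr)
      (fun _ => rfl) (fun hr => absurd rfl hr)
    rw [lam4v, half1] at this
    push_cast at this
    exact Or.inr this

/-- below the saddle point, `x ≤ a` -/
theorem piD1 (cert : okB 10000 (tD 1 4 1 65 100 c cr ek ad an s0 a u1 v1 u2 v2 u1' v1' u2' v2'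
      q0 q1) 0 1580 0 0 40 xl xh t0 t1 1250 2500 r0 r1 code = true)
    (h : Nm c cr ek ad an m s0 q0 q1 t0 t1 r0 r1 xs s T ρ) (hA : RC.Adm 4 T ρ cl cp x y)
    (hcl : 0 < cl) (hcp : cp < 1 / 2) (ha : s0 + a + 1 ≤ 5000)
    (hx : (xl : ℝ) / 10000 ≤ x) (hx' : x ≤ (xh : ℝ) / 10000) (hxs : (a : ℝ) / 10000 ≤ xs) :
    -lin u1 v1 u2 v2 x < Ph (1 / 2) (65 / 100) 4 xs (1 / 2 - s) T ρ x y ∨
      -lin u1' v1' u2' v2' x < Ph (1 / 2) (65 / 100) 4 xs (1 / 2 - s) T ρ x y +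
        dS xs (1 / 2 - s) T ρ x y - 2 * (lnA xs T - lnA ((a : ℝ) / 10000) T) := by
  have D := h.dmn hA hcl hcp
  have hp := okB_sound (by norm_num) (tD_ok (by norm_num) (by norm_num) h.c5 h.an0)
    cert (xb hx) (xb' hx') h.ht0 h.ht1 (ycast hA) (by push_cast; linarith only [D, D.y1]) h.hr0 h.hr1 D
  rcases hp with ⟨cm, hu, hp⟩ | hp
  · have := h.PhA D (kr4 (Adm.y8 hA)) hu (h.ag_le cm) hp
    rw [lam4v, half1] at this
    push_cast at this
    exact Or.inl this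
  · have := h.PhB D (kr4 (Adm.y8 hA)) lam4b ha hp (fun hr => absurd hr one_ne_zero)
      (fun _ => hxs) (fun hr => absurd hr one_ne_zero) (fun _ => rfl)
    rw [lam4v, half1] at this
    push_cast at this
    exact Or.inr this

/-- above the saddle point, `a ≤ x ≤ e` -/
theorem piU0 (cert : okB 10000 (tU 0 4 1 65 100 c cr ek ad an m a u1 v1 u2 v2 u1' v1' u2' v2'
      q0 q1) 0 1580 0 0 40 xl xh t0 t1 1250 2500 r0 r1 code = true)
    (h : Nm c cr ek ad an m s0 q0 q1 t0 t1 r0 r1 xs s T ρ) (hA : RC.Adm 4 T ρ cl cp x y)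
    (hcl : 0 < cl) (hcp : cp < 1 / 2)
    (hx : (xl : ℝ) / 10000 ≤ x) (hx' : x ≤ (xh : ℝ) / 10000) :
    -lin u1 v1 u2 v2 x < Ph (1 / 2) (65 / 100) 4 xs (1 / 2 - s) T ρ x y ∨
      -lin u1' v1' u2' v2' x < Ph (1 / 2) (65 / 100) 4 xs (1 / 2 - s) T ρ x y -
        dS xs (1 / 2 - s) T ρ x y - 2 * (lnA x T - lnA xs T) := by
  have D := h.dmn hA hcl hcp
  obtain ⟨cm, hu, hp⟩ := okB_sound (by norm_num) (tU_ok (by norm_num) (by norm_num) h.c5 h.an0)
    cert (xb hx) (xb' hx') h.ht0 h.ht1 (ycast hA) (by push_cast; linarith only [D, D.y1]) h.hr0 h.hr1 D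
  rcases hp with hp | hp
  · have := h.PhA D (kr4 (Adm.y8 hA)) hu (h.ag_le cm) hp
    rw [lam4v, half1] at this
    push_cast at this
    exact Or.inl this
  · have := h.PhC D (kr4 (Adm.y8 hA)) lam4b hu (h.ag_le cm) hp (fun _ => rfl)
      (fun hr => absurd rfl hr)
    rw [lam4v, half1] at this
    push_cast at this
    exact Or.inr this

/-- above the saddle point, `e ≤ x` -/
theorem piU1 (cert : okB 10000 (tU 1 4 1 65 100 c cr ek ad an m a u1 v1 u2 v2 u1' v1' u2' v2'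
      q0 q1) 0 1580 0 0 40 xl xh t0 t1 1250 2500 r0 r1 code = true)
    (h : Nm c cr ek ad an m s0 q0 q1 t0 t1 r0 r1 xs s T ρ) (hA : RC.Adm 4 T ρ cl cp x y)
    (hcl : 0 < cl) (hcp : cp < 1 / 2)
    (hx : (xl : ℝ) / 10000 ≤ x) (hx' : x ≤ (xh : ℝ) / 10000) :
    -lin u1 v1 u2 v2 x < Ph (1 / 2) (65 / 100) 4 xs (1 / 2 - s) T ρ x y ∨
      -lin u1' v1' u2' v2' x < Ph (1 / 2) (65 / 100) 4 xs (1 / 2 - s) T ρ x y -
        dS xs (1 / 2 - s) T ρ x y - 2 * (lnA ((a : ℝ) / 10000) T - lnA xs T) := by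
  have D := h.dmn hA hcl hcp
  obtain ⟨cm, hu, hp⟩ := okB_sound (by norm_num) (tU_ok (by norm_num) (by norm_num) h.c5 h.an0)
    cert (xb hx) (xb' hx') h.ht0 h.ht1 (ycast hA) (by push_cast; linarith only [D, D.y1]) h.hr0 h.hr1 D
  rcases hp with hp | hp
  · have := h.PhA D (kr4 (Adm.y8 hA)) hu (h.ag_le cm) hp
    rw [lam4v, half1] at this
    push_cast at this
    exact Or.inl this
  · have := h.PhC D (kr4 (Adm.y8 hA)) lam4b hu (h.ag_le cm) hp
      (fun hr => absurd hr one_ne_zero) (fun _ => rfl)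
    rw [lam4v, half1] at this
    push_cast at this
    exact Or.inr this

end

end RQ4

end Pool.Agent.Work.MP_b30479_gtS.G2

end

section

/-!
# Rings at an end with the ring variable on the ramp, `b = 4`: use of the certificates
-/

namespace Pool.Agent.Work.MP_b30479_gtS.G2

open Real Set VOL NumIs

namespace RQ4

open RC RQ
open LR (rat1 mulq1)
open RZ1 (negE enc4)

/-- the saddle point of a ring at an end, units `1/10000` -/
structure NE (p0 sh a : ℕ) (xs s T ρ : ℝ) : Prop where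
  hD : Dx xs (1 / 2 - s) T ρ = 2 * π * 4 * ρ
  hsh : s ≤ (sh : ℝ) / 10000
  sh5 : sh ≤ 5000
  hp : (p0 : ℝ) ≤ 0 ∨ (p0 : ℝ) / 10000 ≤ s - xs ∨ (p0 : ℝ) / 10000 ≤ xs - s
  p5 : p0 + 1 ≤ 5000
  ha : (a : ℝ) / 10000 ≤ xs

section
variable {c cr ek ad an m s0 q0 q1 t0 t1 r0 r1 rg a e sh p0 xl xh code cm k : ℕ}
  {xs s T ρ x y cl cp : ℝ}

lemma PQ (g : NE p0 sh a xs s T ρ) : LL (lv (xs + (1 / 2 - s)) (T + ρ)) -
    LL (lv (1 / 2 - s - xs) (T - ρ)) = π * (8 * ρ) := by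
  have := g.hD
  unfold Dx at this
  linarith only [this]

lemma P_le' (h : Nm c cr ek ad an m s0 q0 q1 t0 t1 r0 r1 xs s T ρ) (g : NE p0 sh a xs s T ρ) :
    LL (lv (xs + (1 / 2 - s)) (T + ρ)) ≤ lnA (((5000 - p0 : ℕ) : ℝ) / 10000) (T + ρ) := by
  have h5 := h.sum
  have h6 := h.xs0
  have h7 := h.s00
  have h8 : (0 : ℝ) ≤ p0 := Nat.cast_nonneg p0
  rw [LL_lv _ (by linarith only [h5, h6]) (by linarith only [h5, h7]), cast_sub g.p5]
  rcases g.hp with h1 | h1 | h1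
  · have : (p0 : ℝ) = 0 := le_antisymm h1 h8
    rw [this, zero_div, sub_zero]
    have := LL_le_half (t := T + ρ) (show 0 < xs + (1 / 2 - s) by linarith only [h5, h6]) (by linarith only [h5, h7])
    rwa [LL_lv _ (by linarith only [h5, h6]) (by linarith only [h5, h7])] at this
  · exact lnA_mono (by linarith) (by linarith) (by linarith)
  · have e1 : lnA (xs + (1 / 2 - s)) (T + ρ) = lnA (1 - (xs + (1 / 2 - s))) (T + ρ) := by
      unfold lnA
      have : sin (π * (xs + (1 / 2 - s))) = sin (π * (1 - (xs + (1 / 2 - s)))) := by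
        rw [mul_sub π 1, mul_one, sin_pi_sub]
      rw [this]
    rw [e1]
    exact lnA_mono (by linarith [h.xs1]) (by linarith) (by linarith)

lemma ag3_le (h : Nm c cr ek ad an m s0 q0 q1 t0 t1 r0 r1 xs s T ρ) (g : NE p0 sh a xs s T ρ)
    (hx : xs ≤ x) (cm : ℕ) : ag3 cm c cr ek ad an sh x T ρ ≤ 1 / 2 - s - xs := by
  unfold ag3
  rcases Nat.beq cm 3 with _ | _
  · rw [cond_false]
    exact h.ag_le cm
  · rw [cond_true, Nat.cast_sub g.sh5]
    push_cast
    linarith only [hx, g, g.hsh]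

lemma Q_le_bg (h : Nm c cr ek ad an m s0 q0 q1 t0 t1 r0 r1 xs s T ρ) (g : NE p0 sh a xs s T ρ)
    (ha : s0 + a ≤ 5000) (hx0 : 0 < x) (hk : Nat.beq k 0 = true ∨ x ≤ xs) :
    LL (lv (1 / 2 - s - xs) (T - ρ)) ≤ lnA (bg k s0 a x) (ρ - T) := by
  unfold bg
  rcases h1 : Nat.beq k 0 with _ | _
  · rw [cond_false]
    rw [h1] at hk
    exact h.Q_le (hk.resolve_left Bool.false_ne_true) hx0.le
  · rw [cond_true]
    have := h.Q_le g.ha (by positivity)
    have e3 : ((5000 - s0 : ℕ) : ℝ) / 10000 - (a : ℝ) / 10000 =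
        ((5000 - s0 - a : ℕ) : ℝ) / 10000 := by
      rw [Nat.cast_sub (show a ≤ 5000 - s0 by omega)]
      ring
    rwa [e3] at this

lemma V1_false (h : Nm c cr ek ad an m s0 q0 q1 t0 t1 r0 r1 xs s T ρ) (g : NE p0 sh a xs s T ρ)
    {u : ℝ} (h0 : 0 < u) (hu : u ≤ 1 / 2 - s - xs) (hv : PV1 p0 u T ρ) : False := by
  have h1 := P_le' h g
  have h2 := h.Q_ge h0 hu
  have h3 := PQ g
  unfold PV1 at hv
  linarith only [hv, h1, h2, h3]

lemma V2_false (h : Nm c cr ek ad an m s0 q0 q1 t0 t1 r0 r1 xs s T ρ) (g : NE p0 sh a xs s T ρ)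
    (ha : s0 + a ≤ 5000) (hx0 : 0 < x) (hk : Nat.beq k 0 = true ∨ x ≤ xs)
    (hv : PV2 m (bg k s0 a x) T ρ) : False := by
  have h1 := h.P_ge
  have h2 := Q_le_bg h g ha hx0 hk
  have h3 := PQ g
  unfold PV2 at hv
  linarith only [hv, h1, h2, h3]

lemma Rr4c (y ρ : ℝ) : Rr ((4 : ℕ) : ℝ) y ρ = Rr 4 y ρ := by norm_num

lemma dS_eq4 (D : Dmn q0 q1 x T y ρ) (hx0 : 0 < xs) (hx1 : xs < 1) :
    dS xs (1 / 2 - s) T ρ x y = An x T y ρ - Ln x T y ρ - 2 * lnA x T -
      (LL (lv (xs + (1 / 2 - s)) (T + ρ)) + LL (lv (1 / 2 - s - xs) (T - ρ)) - 2 * lnA xs T) := by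
  unfold dS
  rw [Sx_eq4 D]
  have e2 : LL (lv xs T) = lnA xs T := LL_lv _ hx0 hx1
  unfold Sx
  rw [e2]

/-- at the saddle point -/
theorem qE (cert : okB 10000 (uE c cr ek ad an s0 sh a p0 m q0 q1) 0 1580 0 0 40
      xl xh t0 t1 1250 2500 r0 r1 code = true)
    (h : Nm c cr ek ad an m s0 q0 q1 t0 t1 r0 r1 xs s T ρ) (g : NE p0 sh a xs s T ρ)
    (hA : RC.Adm 4 T ρ cl cp xs y) (hcl : 0 < cl) (hcp : cp < 1 / 2) (ha : s0 + a ≤ 5000)
    (hx : (xl : ℝ) / 10000 ≤ xs) (hx' : xs ≤ (xh : ℝ) / 10000) :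
    Rr 4 y ρ < Fr xs y T ρ := by
  have D := h.dmn hA hcl hcp
  have hp := okB_sound (by norm_num) (uE_ok h.c5 h.an0) cert (xb hx) (xb' hx') h.ht0 h.ht1
    (ycast hA) (by push_cast; linarith only [D, D.y1]) h.hr0 h.hr1 D
  rcases hp with hp | ⟨cm, h1, hp⟩ | ⟨k, hp⟩
  · unfold PE at hp
    rw [Rr4c] at hp
    rw [Fr_eq4 D]
    linarith only [hp]
  · exact (V1_false h g h1 (ag3_le h g le_rfl cm) hp).elim
  · exact (V2_false h g ha D.x0 (Or.inr le_rfl) hp).elim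

/-- below the saddle point -/
theorem qD (cert : okB 10000 (uD rg c cr ek ad an s0 a p0 m q0 q1) 0 1580 0 0 40
      xl xh t0 t1 1250 2500 r0 r1 code = true)
    (h : Nm c cr ek ad an m s0 q0 q1 t0 t1 r0 r1 xs s T ρ) (g : NE p0 sh a xs s T ρ)
    (hA : RC.Adm 4 T ρ cl cp x y) (hcl : 0 < cl) (hcp : cp < 1 / 2) (ha : s0 + a ≤ 5000)
    (ha0 : 0 < a) (hx : (xl : ℝ) / 10000 ≤ x) (hx' : x ≤ (xh : ℝ) / 10000) (hxs : x < xs) :
    Rr 4 y ρ < Fr x y T ρ ∨ Rr 4 y ρ < Fr x y T ρ + dS xs (1 / 2 - s) T ρ x y := by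
  have D := h.dmn hA hcl hcp
  have hp := okB_sound (by norm_num) (uD_ok h.c5 h.an0) cert (xb hx) (xb' hx') h.ht0 h.ht1
    (ycast hA) (by push_cast; linarith only [D, D.y1]) h.hr0 h.hr1 D
  have hpq := PQ g
  have hside : sd rg a x T ≤ 2 * (lnA xs T - lnA x T) := by
    unfold sd
    rcases Nat.beq rg 0 with _ | _
    · rw [cond_false]
      have := lnA_mono (t := T) (n0 ha0) g.ha h.xs1.le
      linarith only [this]
    · rw [cond_true]
      have := lnA_mono (t := T) D.x0 hxs.le h.xs1.le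
      linarith only [this]
  rw [dS_eq4 D h.xs0 (by linarith only [h, h.xs1]), Fr_eq4 D]
  rcases hp with hp | hp | hp | ⟨cm, h1, hp⟩ | ⟨k, hp⟩
  · left
    unfold PE at hp
    rw [Rr4c] at hp
    linarith only [hp]
  · right
    unfold PB1 at hp
    rw [Rr4c] at hp
    have := P_le' h g
    linarith only [hpq, hside, hp, this]
  · right
    unfold PB2 at hp
    rw [Rr4c] at hp
    have := Q_le_bg (k := cond (Nat.beq rg 0) 1 0) h g ha D.x0 (Or.inr hxs.le)
    linarith only [hpq, hside, hp, this]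
  · exact (V1_false h g h1 (h.ag_le cm) hp).elim
  · exact (V2_false h g ha D.x0 (Or.inr hxs.le) hp).elim

/-- above the saddle point -/
theorem qU (cert : okB 10000 (uU rg c cr ek ad an s0 sh a e p0 m q0 q1) 0 1580 0 0 40
      xl xh t0 t1 1250 2500 r0 r1 code = true)
    (h : Nm c cr ek ad an m s0 q0 q1 t0 t1 r0 r1 xs s T ρ) (g : NE p0 sh a xs s T ρ)
    (hA : RC.Adm 4 T ρ cl cp x y) (hcl : 0 < cl) (hcp : cp < 1 / 2) (ha : s0 + a ≤ 5000)
    (he5 : e ≤ 5000) (he : xs ≤ (e : ℝ) / 10000)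
    (hx : (xl : ℝ) / 10000 ≤ x) (hx' : x ≤ (xh : ℝ) / 10000) (hxs : xs < x) :
    Rr 4 y ρ < Fr x y T ρ ∨ Rr 4 y ρ < Fr x y T ρ - dS xs (1 / 2 - s) T ρ x y := by
  have D := h.dmn hA hcl hcp
  have hp := okB_sound (by norm_num) (uU_ok h.c5 h.an0) cert (xb hx) (xb' hx') h.ht0 h.ht1
    (ycast hA) (by push_cast; linarith only [D, D.y1]) h.hr0 h.hr1 D
  have hpq := PQ g
  have hside : -sd rg e x T ≤ 2 * (lnA x T - lnA xs T) := by
    unfold sd
    rcases Nat.beq rg 0 with _ | _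
    · rw [cond_false]
      have := lnA_mono (t := T) h.xs0 he (nhalf he5)
      linarith only [this]
    · rw [cond_true]
      have := lnA_mono (t := T) h.xs0 hxs.le D.x1.le
      linarith only [this]
  rw [dS_eq4 D h.xs0 (by linarith only [h, h.xs1]), Fr_eq4 D]
  rcases hp with hp | hp | ⟨cm, h1, hp⟩ | ⟨cm, h1, hp⟩ | hp
  · left
    unfold PE at hp
    rw [Rr4c] at hp
    linarith only [hp]
  · right
    unfold PC1 at hp
    rw [Rr4c] at hp
    have := h.P_ge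
    linarith only [hpq, hside, hp, this]
  · right
    unfold PC2 at hp
    rw [Rr4c] at hp
    have := h.Q_ge h1 (ag3_le h g hxs.le cm)
    linarith only [hpq, hside, hp, this]
  · exact (V1_false h g h1 (ag3_le h g hxs.le cm) hp).elim
  · exact (V2_false h g ha D.x0 (Or.inl rfl) hp).elim

end

end RQ4

end Pool.Agent.Work.MP_b30479_gtS.G2

end

section

/-!
# Right ramp of a hinge `1 | ring`, the side of the ring: the rows
-/

namespace Pool.Agent.Work.MP_b30479_gtS.G2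

open VOL NumIs

namespace RZ1

open LR

variable {x m T s ρ b : ℝ} {w ζ : ℂ}

lemma mT_eq (T : ℝ) : T / (29 / 100) = mT T := by
  unfold mT
  ring

theorem w_eq (hw : W x (mT T) w) : w = ⟨x, -(kT T x)⟩ := by
  apply Complex.ext
  · exact hw.re
  · exact hw.im

theorem kT_nonneg (hT : 0 ≤ T) (hx : x ≤ 65 / 100) : 0 ≤ kT T x := by
  unfold kT mT
  have : 0 ≤ 65 / 100 - x := by linarith only [hx]
  positivity

theorem ur_eq (hw : W x (mT T) w) (hz : ZR s ρ ζ) :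
    w + 1 / 2 + ζ = ⟨x + s, 4 * ρ * s - kT T x⟩ := by
  rw [w_eq hw]
  apply Complex.ext
  · have h : ((1 : ℂ) / 2).re = 1 / 2 := by norm_num
    simp only [Complex.add_re, h, hz.re]
    ring
  · have h : ((1 : ℂ) / 2).im = 0 := by norm_num
    simp only [Complex.add_im, h, hz.im]
    ring

theorem vr_eq (hw : W x (mT T) w) (hz : ZR s ρ ζ) :
    w + 1 / 2 - ζ = ⟨1 + (x - s), -(4 * ρ * s + kT T x)⟩ := by
  rw [w_eq hw]
  apply Complex.ext
  · have h : ((1 : ℂ) / 2).re = 1 / 2 := by norm_num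
    simp only [Complex.sub_re, Complex.add_re, h, hz.re]
    ring
  · have h : ((1 : ℂ) / 2).im = 0 := by norm_num
    simp only [Complex.sub_im, Complex.add_im, h, hz.im]
    ring

theorem YY_w (hw : W x (mT T) w) (h0 : 0 < x) : YY w = lnB x (kT T x) := by
  rw [w_eq hw, Num.YY_lnB (u := ⟨x, -(kT T x)⟩) ⟨h0, by simp only; linarith only [h0, hw, hw.hi]⟩, lnB_neg,
    neg_neg]

theorem LL_w (hw : W x (mT T) w) : LL w = lnA x (kT T x) := by
  rw [w_eq hw, LL_lnA', lnA_neg]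

/-- domain of the ramp -/
structure DR (x T s ρ : ℝ) : Prop where
  x0 : 36 / 100 ≤ x
  x1 : x ≤ 65 / 100
  t0 : 0 ≤ T
  s0 : 0 < s
  s1 : s ≤ 1 / 4
  r0 : 0 < ρ

theorem S4_ramp (hw : W x (mT T) w) (hz : ZR s ρ ζ) (hD : DR x T s ρ) :
    S4 (mT T) w ζ = Sr x (mT T) (kT T x) s ρ := by
  have h1 := hD.x0
  have h2 := hD.x1
  have h3 := hD.s0
  have h4 := hD.s1
  have h5 := hD.r0
  have hk := kT_nonneg hD.t0 hD.x1
  have ht : 0 < 4 * ρ * s + kT T x := by positivity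
  unfold S4 Sr
  rw [LL_w hw, YY_w hw (by linarith only [h1, h3, h4]), ur_eq hw hz, vr_eq hw hz, LL_lnA' ⟨x + s, _⟩,
    Num.YY_lnB (u := ⟨x + s, 4 * ρ * s - kT T x⟩) ⟨by simp only; linarith only [h1, h3, h4], by simp only; linarith only [h2, h3, h4]⟩,
    LL_near', YY_right (by linarith only [h1, h3, h4]) (by linarith only [h2, h3, h4]) ht]
  ring

theorem Dm_ramp (hw : W x (mT T) w) (hz : ZR s ρ ζ) (hD : DR x T s ρ) (b : ℝ) :
    Dm (4 * ρ) w ζ - 4 * Real.pi * ρ * (2 - b * (1 - 4 * s)) =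
      Fr (b - 1) (4 * b) x (kT T x) s ρ := by
  have h1 := hD.x0
  have h2 := hD.x1
  have h3 := hD.s0
  have h4 := hD.s1
  have h5 := hD.r0
  have hk := kT_nonneg hD.t0 hD.x1
  have ht : 0 < 4 * ρ * s + kT T x := by positivity
  unfold Dm Dq Fr
  rw [ur_eq hw hz, vr_eq hw hz, LL_lnA' ⟨x + s, _⟩,
    Num.YY_lnB (u := ⟨x + s, 4 * ρ * s - kT T x⟩) ⟨by simp only; linarith only [h1, h3, h4], by simp only; linarith only [h2, h3, h4]⟩,
    LL_near', YY_right (by linarith only [h1, h3, h4]) (by linarith only [h2, h3, h4]) ht]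
  ring

theorem sinh_le {y : ℝ} (h0 : 0 ≤ y) (h1 : y ≤ 657 / 1000) : Real.sinh y ≤ 108 / 100 * y := by
  have a1 := Real.exp_bound' (x := y) h0 (by linarith only [h1]) (n := 6) (by norm_num)
  have a2 : 1 - y + y ^ 2 / 2 - y ^ 3 / 6 ≤ Real.exp (-y) := by
    have h := Real.exp_bound (x := -y) (by rw [abs_neg, abs_of_nonneg h0]; linarith only [h1]) (n := 6)
      (by norm_num)
    rw [abs_neg, abs_of_nonneg h0] at h
    norm_num [Finset.sum_range_succ, Nat.factorial] at h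
    have h2 := (abs_le.mp h).1
    have y4 : 0 ≤ y ^ 4 := by positivity
    have y5 : y ^ 5 ≤ y ^ 4 * (657 / 1000) := by
      have : y ^ 5 = y ^ 4 * y := by ring
      rw [this]
      exact mul_le_mul_of_nonneg_left h1 y4
    have y6 : y ^ 6 ≤ y ^ 4 * (657 / 1000) := by
      have e : y ^ 6 = y ^ 5 * y := by ring
      have : y ^ 5 * y ≤ y ^ 5 * 1 := mul_le_mul_of_nonneg_left (by linarith only [h1]) (by positivity)
      linarith only [y5, this]
    nlinarith only [h2, y4, y5, y6]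
  norm_num [Finset.sum_range_succ, Nat.factorial] at a1
  rw [Real.sinh_eq]
  have y3 : y ^ 3 ≤ y * (657 / 1000) ^ 2 := by
    have e : y ^ 3 = y * y ^ 2 := by ring
    rw [e]
    exact mul_le_mul_of_nonneg_left (pow_le_pow_left₀ h0 h1 2) h0
  have y4 : y ^ 4 ≤ y * (657 / 1000) ^ 3 := by
    have e : y ^ 4 = y * y ^ 3 := by ring
    rw [e]
    exact mul_le_mul_of_nonneg_left (pow_le_pow_left₀ h0 h1 3) h0
  have y5 : y ^ 5 ≤ y * (657 / 1000) ^ 4 := by
    have e : y ^ 5 = y * y ^ 4 := by ring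
    rw [e]
    exact mul_le_mul_of_nonneg_left (pow_le_pow_left₀ h0 h1 4) h0
  have y6 : y ^ 6 ≤ y * (657 / 1000) ^ 5 := by
    have e : y ^ 6 = y * y ^ 5 := by ring
    rw [e]
    exact mul_le_mul_of_nonneg_left (pow_le_pow_left₀ h0 h1 5) h0
  norm_num at y3 y4 y5 y6
  nlinarith only [h0, a2, a1, y3, y4, y5, y6]

theorem Gr_le {b1 b4 k : ℝ} (h : Fr b1 b4 x k s ρ ≤ 0) (hx : 36 / 100 ≤ x) (hx' : x ≤ 1 / 2)
    (hs : 0 < s) (hs' : s ≤ 1 / 4) (hr : 0 < ρ) (hr' : ρ ≤ 1045 / 10000) (hk : 0 ≤ k) :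
    Gr b1 b4 x k s ρ ≤ 0 := by
  have hp := Real.pi_pos
  have hp4 := Real.pi_lt_d4
  set η := 4 * ρ * s with hη
  have hη0 : 0 < η := by positivity
  have hη1 : η ≤ 1045 / 10000 := by
    have : ρ * s ≤ 1045 / 10000 * (1 / 4) := mul_le_mul hr' hs' hs.le (by norm_num)
    rw [hη]
    linarith only [this]
  set a := Real.sin (Real.pi * (x + s)) ^ 2 with ha
  have hsin : 0 < Real.sin (Real.pi * (x + s)) :=
    Real.sin_pos_of_pos_of_lt_pi (by nlinarith only [hp, hx, hs]) (by nlinarith only [hx', hp, hs, hs'])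
  have ha0 : 0 < a := by positivity
  have haa : Real.sin (Real.pi * (x - s)) ^ 2 ≤ a := by
    have e : a - Real.sin (Real.pi * (x - s)) ^ 2 =
        Real.sin (Real.pi * (2 * x)) * Real.sin (Real.pi * (2 * s)) := by
      have e1 : Real.pi * (x + s) = Real.pi * x + Real.pi * s := by ring
      have e2 : Real.pi * (x - s) = Real.pi * x - Real.pi * s := by ring
      have e3 : Real.pi * (2 * x) = 2 * (Real.pi * x) := by ring
      have e4 : Real.pi * (2 * s) = 2 * (Real.pi * s) := by ring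
      rw [ha, e1, e2, e3, e4, Real.sin_add, Real.sin_sub, Real.sin_two_mul, Real.sin_two_mul]
      ring
    have h1 : 0 ≤ Real.sin (Real.pi * (2 * x)) :=
      Real.sin_nonneg_of_nonneg_of_le_pi (by positivity) (by nlinarith only [hx', hp])
    have h2 : 0 ≤ Real.sin (Real.pi * (2 * s)) :=
      Real.sin_nonneg_of_nonneg_of_le_pi (by positivity) (by nlinarith only [hp, hs'])
    have := mul_nonneg h1 h2
    linarith only [e, this]
  set B2 := Real.sinh (Real.pi * (η + k)) ^ 2 with hB2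
  set B1 := Real.sinh (Real.pi * (η - k)) ^ 2 with hB1
  have hB1n : 0 ≤ B1 := by positivity
  have hB2n : 0 ≤ B2 := by positivity
  have hBB : B2 - B1 = Real.sinh (2 * (Real.pi * η)) * Real.sinh (2 * (Real.pi * k)) := by
    have e1 : Real.pi * (η + k) = Real.pi * η + Real.pi * k := by ring
    have e2 : Real.pi * (η - k) = Real.pi * η - Real.pi * k := by ring
    rw [hB2, hB1, e1, e2, Real.sinh_add, Real.sinh_sub, Real.sinh_two_mul, Real.sinh_two_mul]
    ring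
  have hsk : 0 ≤ Real.sinh (2 * (Real.pi * k)) := Real.sinh_nonneg_iff.mpr (by positivity)
  have hsη := sinh_le (y := 2 * (Real.pi * η)) (by positivity) (by nlinarith only [hs', hp4, hs, hr', hr, hη0, hp, hη1])
  have l1 : lnA (x - s) (η + k) ≤ Real.log (4 * (a + B2)) / 2 := by
    unfold lnA
    have hs2 : 0 < Real.sinh (Real.pi * (η + k)) := Real.sinh_pos_iff.mpr (by positivity)
    have h1 : 0 < 4 * (Real.sin (Real.pi * (x - s)) ^ 2 + Real.sinh (Real.pi * (η + k)) ^ 2) := by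
      have := sq_nonneg (Real.sin (Real.pi * (x - s)))
      positivity
    have := Real.log_le_log h1 (show _ ≤ 4 * (a + B2) by linarith only [haa])
    linarith only [this]
  have l2 : lnA (x + s) (η - k) = Real.log (4 * (a + B1)) / 2 := by
    unfold lnA
    rfl
  have l3 : Real.log (4 * (a + B2)) - Real.log (4 * (a + B1)) ≤ (B2 - B1) / a := by
    have h1 := Real.log_div (x := 4 * (a + B2)) (y := 4 * (a + B1)) (by positivity) (by positivity)
    have h2 := Real.log_le_sub_one_of_pos (x := 4 * (a + B2) / (4 * (a + B1))) (by positivity)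
    have h3 : 4 * (a + B2) / (4 * (a + B1)) - 1 = (B2 - B1) / (a + B1) := by
      field_simp
      ring
    have h4 : (B2 - B1) / (a + B1) ≤ (B2 - B1) / a := by
      apply div_le_div_of_nonneg_left _ ha0 (by linarith only [hB1n])
      rw [hBB]
      exact mul_nonneg (Real.sinh_nonneg_iff.mpr (by positivity)) hsk
    rw [← h1]
    linarith only [h2, h3, h4]
  have l4 : (B2 - B1) / a ≤ 108 / 100 * (2 * (Real.pi * η)) * Real.sinh (2 * (Real.pi * k)) * a⁻¹ := by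
    rw [hBB, div_eq_mul_inv]
    apply mul_le_mul_of_nonneg_right _ (by positivity)
    exact mul_le_mul_of_nonneg_right hsη hsk
  have key : 4 * ρ * Gr b1 b4 x k s ρ ≤ Fr b1 b4 x k s ρ := by
    unfold Gr Fr
    rw [← hη, ← ha]
    have e : 4 * ρ * (Real.pi * (b1 - b4 * s) - (lnB (x + s) (η - k) + lnB (x - s) (η + k)) -
        108 / 100 * (Real.pi * s * (Real.sinh (2 * (Real.pi * k)) * a⁻¹))) =
        4 * ρ * (Real.pi * (b1 - b4 * s) - (lnB (x + s) (η - k) + lnB (x - s) (η + k))) -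
        108 / 100 * (2 * (Real.pi * η)) * Real.sinh (2 * (Real.pi * k)) * a⁻¹ / 2 := by
      rw [hη]
      ring
    rw [e]
    linarith only [l1, l2, l3, l4]
  by_contra hc
  rw [not_le] at hc
  have := mul_pos (show 0 < 4 * ρ by positivity) hc
  linarith only [h, key, this]

/-! ### flat part -/

theorem uf_eq (hw : W x (mT T) w) (hz : ZF ρ ζ) :
    w + 1 / 2 + ζ = uC x (-ζ.re) ρ (kT T x) := by
  rw [w_eq hw]
  apply Complex.ext
  · have h : ((1 : ℂ) / 2).re = 1 / 2 := by norm_num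
    simp only [Complex.add_re, h, uC]
    ring
  · have h : ((1 : ℂ) / 2).im = 0 := by norm_num
    simp only [Complex.add_im, h, uC, hz.im]
    ring

theorem vf_eq (hw : W x (mT T) w) (hz : ZF ρ ζ) :
    w + 1 / 2 - ζ = vC' x (-ζ.re) ρ (kT T x) := by
  rw [w_eq hw]
  apply Complex.ext
  · have h : ((1 : ℂ) / 2).re = 1 / 2 := by norm_num
    simp only [Complex.sub_re, Complex.add_re, h, vC']
    ring
  · have h : ((1 : ℂ) / 2).im = 0 := by norm_num
    simp only [Complex.sub_im, Complex.add_im, h, vC', hz.im]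
    ring

theorem S4_flat (hw : W x (mT T) w) (hz : ZF ρ ζ) (h0 : 0 < x) :
    S4 (mT T) w ζ = Sf x (mT T) (kT T x) (-ζ.re) ρ := by
  unfold S4 Sf
  rw [LL_w hw, YY_w hw h0, uf_eq hw hz, vf_eq hw hz]

theorem dF (hw : W x (mT T) w) (hz : ZF ρ ζ) (h0 : 36 / 100 ≤ x) (hT : 0 ≤ T) :
    DF x T (-ζ.re) ρ :=
  ⟨by linarith only [h0], hw.hi, hT, by linarith only [hz, hz.hi], by linarith only [hz, hz.lo], hz.pos⟩

/-- box of the ramp, region II -/
theorem boxR {b : ℕ} (hb1 : 1 ≤ b) {side : Bool} {B : F → F} {β : ℝ → ℝ} (hB : EvB B β)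
    {l0 h0 l1 h1 l2 h2 h3 c : ℕ}
    (h : okB 10000 (tR (b - 1) (4 * b) side B) 0 0 0 0 40 l0 h0 l1 h1 l2 h2 0 h3 c = true)
    (hw : W x (mT T) w) (hz : ZR s ρ ζ) (hD : DR x T s ρ) (hx : x ≤ 1 / 2)
    (hρ : ρ ≤ 1045 / 10000) (hside : side = true → ρ + T ≤ 163 / 1000) (hF : FM b s ρ w ζ)
    (c0 : (l0 : ℝ) / 10000 ≤ x) (c0' : x ≤ (h0 : ℝ) / 10000)
    (c1 : (l1 : ℝ) / 10000 ≤ T) (c1' : T ≤ (h1 : ℝ) / 10000)
    (c2 : (l2 : ℝ) / 10000 ≤ s) (c2' : s ≤ (h2 : ℝ) / 10000) (c3' : ρ ≤ (h3 : ℝ) / 10000) :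
    S4 (mT T) w ζ ≤ -β T := by
  have c3 : ((0 : ℕ) : ℝ) / 10000 ≤ ρ := by
    rw [Nat.cast_zero, zero_div]
    exact hz.pos.le
  have e1 : (((b - 1 : ℕ)) : ℝ) = (b : ℝ) - 1 := by
    rw [Nat.cast_sub hb1, Nat.cast_one]
  have e2 : (((4 * b : ℕ)) : ℝ) = 4 * (b : ℝ) := by push_cast; ring
  have hF1 : Fr ((b - 1 : ℕ) : ℝ) ((4 * b : ℕ) : ℝ) x (kT T x) s ρ ≤ 0 := by
    rw [e1, e2, ← Dm_ramp hw hz hD]
    unfold FM at hF
    linarith only [hF]
  have hG := Gr_le hF1 hD.x0 hx hD.s0 hD.s1 hD.r0 hρ (kT_nonneg hD.t0 hD.x1)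
  have := okB_sound0 (tR_ok hB) h c0 c0' c1 c1' c2 c2' c3 c3' hside hF1 hG
  rw [← S4_ramp hw hz hD] at this
  exact this.le

/-- box of the ramp, region III -/
theorem boxR3 {l0 h0 l1 h1 h3 q c : ℕ}
    (h : okB 10000 (tR3 q) 0 0 0 0 40 l0 h0 l1 h1 0 2500 0 h3 c = true)
    (hw : W x (mT T) w) (hz : ZR s ρ ζ) (hD : DR x T s ρ)
    (c0 : (l0 : ℝ) / 10000 ≤ x) (c0' : x ≤ (h0 : ℝ) / 10000)
    (c1 : (l1 : ℝ) / 10000 ≤ T) (c1' : T ≤ (h1 : ℝ) / 10000) (c3' : ρ ≤ (h3 : ℝ) / 10000) :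
    S4 (mT T) w ζ ≤ -min (Real.pi * mT T - 3 / 100) ((q : ℝ) / 100) := by
  have c3 : ((0 : ℕ) : ℝ) / 10000 ≤ ρ := by
    rw [Nat.cast_zero, zero_div]
    exact hz.pos.le
  have c2 : ((0 : ℕ) : ℝ) / 10000 ≤ s := by
    rw [Nat.cast_zero, zero_div]
    exact hz.lo.le
  have c2' : s ≤ ((2500 : ℕ) : ℝ) / 10000 := by
    push_cast
    linarith only [hz, hz.hi]
  rw [S4_ramp hw hz hD]
  rcases okB_sound0 tR3_ok h c0 c0' c1 c1' c2 c2' c3 c3' with h4 | h4
  · exact h4.le.trans (neg_le_neg (min_le_left _ _))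
  · exact h4.le.trans (neg_le_neg (min_le_right _ _))

/-- box of the flat part, region II -/
theorem boxF {side : Bool} {B : F → F} {β : ℝ → ℝ} (hB : EvB B β) {l0 h0 l1 h1 h3 c : ℕ}
    (h : okB 10000 (tF side B) 0 0 0 0 40 l0 h0 l1 h1 0 2500 0 h3 c = true)
    (hw : W x (mT T) w) (hz : ZF ρ ζ) (hx0 : 36 / 100 ≤ x) (hT : 0 ≤ T)
    (hside : side = true → ρ + T ≤ 163 / 1000)
    (c0 : (l0 : ℝ) / 10000 ≤ x) (c0' : x ≤ (h0 : ℝ) / 10000)
    (c1 : (l1 : ℝ) / 10000 ≤ T) (c1' : T ≤ (h1 : ℝ) / 10000) (c3' : ρ ≤ (h3 : ℝ) / 10000) :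
    S4 (mT T) w ζ ≤ -β T := by
  have c3 : ((0 : ℕ) : ℝ) / 10000 ≤ ρ := by
    rw [Nat.cast_zero, zero_div]
    exact hz.pos.le
  have c2 : ((0 : ℕ) : ℝ) / 10000 ≤ -ζ.re := by
    rw [Nat.cast_zero, zero_div]
    linarith only [hz, hz.hi]
  have c2' : -ζ.re ≤ ((2500 : ℕ) : ℝ) / 10000 := by
    push_cast
    linarith only [hz, hz.lo]
  rw [S4_flat hw hz (by linarith only [hx0])]
  exact (okB_sound0 (tF_ok hB) h c0 c0' c1 c1' c2 c2' c3 c3' hside (dF hw hz hx0 hT)).le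

/-- box of the flat part, region III -/
theorem boxF3 {l0 h0 l1 h1 h3 q c : ℕ}
    (h : okB 10000 (tF3 q) 0 0 0 0 40 l0 h0 l1 h1 0 2500 0 h3 c = true)
    (hw : W x (mT T) w) (hz : ZF ρ ζ) (hx0 : 36 / 100 ≤ x) (hT : 0 ≤ T)
    (c0 : (l0 : ℝ) / 10000 ≤ x) (c0' : x ≤ (h0 : ℝ) / 10000)
    (c1 : (l1 : ℝ) / 10000 ≤ T) (c1' : T ≤ (h1 : ℝ) / 10000) (c3' : ρ ≤ (h3 : ℝ) / 10000) :
    S4 (mT T) w ζ ≤ -min (Real.pi * mT T - 3 / 100) ((q : ℝ) / 100) := by
  have c3 : ((0 : ℕ) : ℝ) / 10000 ≤ ρ := by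
    rw [Nat.cast_zero, zero_div]
    exact hz.pos.le
  have c2 : ((0 : ℕ) : ℝ) / 10000 ≤ -ζ.re := by
    rw [Nat.cast_zero, zero_div]
    linarith only [hz, hz.hi]
  have c2' : -ζ.re ≤ ((2500 : ℕ) : ℝ) / 10000 := by
    push_cast
    linarith only [hz, hz.lo]
  rw [S4_flat hw hz (by linarith only [hx0])]
  rcases okB_sound0 tF3_ok h c0 c0' c1 c1' c2 c2' c3 c3' (dF hw hz hx0 hT) with h4 | h4
  · exact h4.le.trans (neg_le_neg (min_le_left _ _))
  · exact h4.le.trans (neg_le_neg (min_le_right _ _))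

/-! ### Region II -/

/-- `b = 4`, any `ρ` -/
theorem a_flat (hw : W x (T / (29 / 100)) w) (hz : ZF ρ ζ) (h1 : 36 / 100 ≤ x) (h2 : x ≤ 1 / 2)
    (h3 : 38 / 1000 ≤ T) (h4 : T ≤ 128 / 1000) (h5 : ρ ≤ 1045 / 10000) :
    S4 (T / (29 / 100)) w ζ ≤ -(36 / 100 + 7 * T) := by
  rw [mT_eq] at hw ⊢
  have hT : 0 ≤ T := by linarith only [h3]
  have hs : false = true → ρ + T ≤ 163 / 1000 := fun h => absurd h Bool.false_ne_true
  rcases le_total x (45 / 100) with h8 | h8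
  · have h9 := boxF (ev_bT (n := 36) (n' := 7) (d' := 1) (by norm_num)) qaF_1 hw hz h1 hT hs
      (by push_cast; linarith only [h1]) (by push_cast; linarith only [h8]) (by push_cast; linarith only [h3])
      (by push_cast; linarith only [h4]) (by push_cast; linarith only [h5])
    push_cast at h9
    linarith only [h9]
  · have h9 := boxF (ev_bT (n := 36) (n' := 7) (d' := 1) (by norm_num)) qaF_2 hw hz h1 hT hs
      (by push_cast; linarith only [h8]) (by push_cast; linarith only [h2]) (by push_cast; linarith only [h3])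
      (by push_cast; linarith only [h4]) (by push_cast; linarith only [h5])
    push_cast at h9
    linarith only [h9]

theorem a_ramp (hw : W x (T / (29 / 100)) w) (hz : ZR s ρ ζ) (h1 : 36 / 100 ≤ x) (h2 : x ≤ 1 / 2)
    (h3 : 38 / 1000 ≤ T) (h4 : T ≤ 128 / 1000) (h5 : ρ ≤ 1045 / 10000) (h6 : 1 / 8 ≤ s)
    (h7 : FM 4 s ρ w ζ) :
    S4 (T / (29 / 100)) w ζ ≤ -(36 / 100 + 7 * T) := by
  rw [mT_eq] at hw ⊢
  have hT : 0 ≤ T := by linarith only [h3]
  have hD : DR x T s ρ := ⟨h1, hw.hi, hT, hz.lo, hz.hi, hz.pos⟩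
  have hz4 := hz.hi
  have hr : ρ ≤ 1045 / 10000 := by linarith only [h5]
  have hs : false = true → ρ + T ≤ 163 / 1000 := fun h => absurd h Bool.false_ne_true
  have hF : FM ((4 : ℕ) : ℝ) s ρ w ζ := by
    push_cast
    exact h7
  rcases le_total x (43 / 100) with h8 | h8
  · rcases le_total T (83 / 1000) with h8 | h8
    · have h9 := boxR (b := 4) (by norm_num) (ev_bT (n := 36) (n' := 7) (d' := 1) (by norm_num)) qaR_1 hw hz hD h2 hr hs hF
        (by push_cast; linarith only [h1]) (by push_cast; linarith) (by push_cast; linarith only [h3])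
        (by push_cast; linarith only [h8]) (by push_cast; linarith only [h6]) (by push_cast; linarith only [hz4])
        (by push_cast; linarith only [h5])
      push_cast at h9
      linarith only [h9]
    · have h9 := boxR (b := 4) (by norm_num) (ev_bT (n := 36) (n' := 7) (d' := 1) (by norm_num)) qaR_3 hw hz hD h2 hr hs hF
        (by push_cast; linarith only [h1]) (by push_cast; linarith) (by push_cast; linarith only [h8])
        (by push_cast; linarith only [h4]) (by push_cast; linarith only [h6]) (by push_cast; linarith only [hz4])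
        (by push_cast; linarith only [h5])
      push_cast at h9
      linarith only [h9]
  · rcases le_total T (83 / 1000) with h8 | h8
    · have h9 := boxR (b := 4) (by norm_num) (ev_bT (n := 36) (n' := 7) (d' := 1) (by norm_num)) qaR_2 hw hz hD h2 hr hs hF
        (by push_cast; linarith) (by push_cast; linarith only [h2]) (by push_cast; linarith only [h3])
        (by push_cast; linarith only [h8]) (by push_cast; linarith only [h6]) (by push_cast; linarith only [hz4])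
        (by push_cast; linarith only [h5])
      push_cast at h9
      linarith only [h9]
    · have h9 := boxR (b := 4) (by norm_num) (ev_bT (n := 36) (n' := 7) (d' := 1) (by norm_num)) qaR_4 hw hz hD h2 hr hs hF
        (by push_cast; linarith) (by push_cast; linarith only [h2]) (by push_cast; linarith only [h8])
        (by push_cast; linarith only [h4]) (by push_cast; linarith only [h6]) (by push_cast; linarith only [hz4])
        (by push_cast; linarith only [h5])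
      push_cast at h9
      linarith only [h9]

/-- `b = 4`, `ρ + T ≤ .163` -/
theorem b_flat (hw : W x (T / (29 / 100)) w) (hz : ZF ρ ζ) (h1 : 36 / 100 ≤ x) (h2 : x ≤ 1 / 2)
    (h3 : 58 / 1000 ≤ T) (h4 : T ≤ 128 / 1000) (h5 : ρ ≤ 1045 / 10000) (h6 : ρ + T ≤ 163 / 1000) :
    S4 (T / (29 / 100)) w ζ ≤ -(12 / 100 + 112 / 10 * T) := by
  rw [mT_eq] at hw ⊢
  have hT : 0 ≤ T := by linarith only [h3]
  have hs : true = true → ρ + T ≤ 163 / 1000 := fun _ => h6
  rcases le_total x (45 / 100) with h8 | h8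
  · have h9 := boxF (ev_bT (n := 12) (n' := 112) (d' := 10) (by norm_num)) qbF_1 hw hz h1 hT hs
      (by push_cast; linarith only [h1]) (by push_cast; linarith only [h8]) (by push_cast; linarith only [h3])
      (by push_cast; linarith only [h4]) (by push_cast; linarith only [h5])
    push_cast at h9
    linarith only [h9]
  · have h9 := boxF (ev_bT (n := 12) (n' := 112) (d' := 10) (by norm_num)) qbF_2 hw hz h1 hT hs
      (by push_cast; linarith only [h8]) (by push_cast; linarith only [h2]) (by push_cast; linarith only [h3])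
      (by push_cast; linarith only [h4]) (by push_cast; linarith only [h5])
    push_cast at h9
    linarith only [h9]

theorem b_ramp (hw : W x (T / (29 / 100)) w) (hz : ZR s ρ ζ) (h1 : 36 / 100 ≤ x) (h2 : x ≤ 1 / 2)
    (h3 : 58 / 1000 ≤ T) (h4 : T ≤ 128 / 1000) (h5 : ρ ≤ 1045 / 10000) (h6 : ρ + T ≤ 163 / 1000)
    (h7 : 1 / 8 ≤ s) (h8 : FM 4 s ρ w ζ) :
    S4 (T / (29 / 100)) w ζ ≤ -(12 / 100 + 112 / 10 * T) := by
  rw [mT_eq] at hw ⊢
  have hT : 0 ≤ T := by linarith only [h3]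
  have hD : DR x T s ρ := ⟨h1, hw.hi, hT, hz.lo, hz.hi, hz.pos⟩
  have hz4 := hz.hi
  have hr : ρ ≤ 1045 / 10000 := by linarith only [h5]
  have hs : true = true → ρ + T ≤ 163 / 1000 := fun _ => h6
  have hF : FM ((4 : ℕ) : ℝ) s ρ w ζ := by
    push_cast
    exact h8
  rcases le_total x (43 / 100) with h8 | h8
  · have h9 := boxR (b := 4) (by norm_num) (ev_bT (n := 12) (n' := 112) (d' := 10) (by norm_num)) qbR_1 hw hz hD h2 hr hs hF
      (by push_cast; linarith only [h1]) (by push_cast; linarith only [h8]) (by push_cast; linarith only [h3])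
      (by push_cast; linarith only [h4]) (by push_cast; linarith only [h7]) (by push_cast; linarith only [hz4])
      (by push_cast; linarith only [h5])
    push_cast at h9
    linarith only [h9]
  · have h9 := boxR (b := 4) (by norm_num) (ev_bT (n := 12) (n' := 112) (d' := 10) (by norm_num)) qbR_2 hw hz hD h2 hr hs hF
      (by push_cast; linarith only [h8]) (by push_cast; linarith only [h2]) (by push_cast; linarith only [h3])
      (by push_cast; linarith only [h4]) (by push_cast; linarith only [h7]) (by push_cast; linarith only [hz4])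
      (by push_cast; linarith only [h5])
    push_cast at h9
    linarith only [h9]

/-- `b ≥ 5` -/
theorem c_flat (hw : W x (T / (29 / 100)) w) (hz : ZF ρ ζ) (h1 : 36 / 100 ≤ x) (h2 : x ≤ 1 / 2)
    (h3 : 38 / 1000 ≤ T) (h4 : T ≤ 158 / 1000) (h5 : ρ ≤ 725 / 10000) :
    S4 (T / (29 / 100)) w ζ ≤ -(42 / 100 + 77 / 10 * T) := by
  rw [mT_eq] at hw ⊢
  have hT : 0 ≤ T := by linarith only [h3]
  have hs : false = true → ρ + T ≤ 163 / 1000 := fun h => absurd h Bool.false_ne_true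
  rcases le_total x (45 / 100) with h8 | h8
  · have h9 := boxF (ev_bT (n := 42) (n' := 77) (d' := 10) (by norm_num)) qcF_1 hw hz h1 hT hs
      (by push_cast; linarith only [h1]) (by push_cast; linarith only [h8]) (by push_cast; linarith only [h3])
      (by push_cast; linarith only [h4]) (by push_cast; linarith only [h5])
    push_cast at h9
    linarith only [h9]
  · have h9 := boxF (ev_bT (n := 42) (n' := 77) (d' := 10) (by norm_num)) qcF_2 hw hz h1 hT hs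
      (by push_cast; linarith only [h8]) (by push_cast; linarith only [h2]) (by push_cast; linarith only [h3])
      (by push_cast; linarith only [h4]) (by push_cast; linarith only [h5])
    push_cast at h9
    linarith only [h9]

theorem c_ramp (hb : 5 ≤ b) (hw : W x (T / (29 / 100)) w) (hz : ZR s ρ ζ) (h1 : 36 / 100 ≤ x)
    (h2 : x ≤ 1 / 2) (h3 : 38 / 1000 ≤ T) (h4 : T ≤ 158 / 1000) (h5 : ρ ≤ 725 / 10000)
    (h6 : 3 / 20 ≤ s) (h7 : FM b s ρ w ζ) :
    S4 (T / (29 / 100)) w ζ ≤ -(42 / 100 + 77 / 10 * T) := by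
  rw [mT_eq] at hw ⊢
  have hT : 0 ≤ T := by linarith only [h3]
  have hD : DR x T s ρ := ⟨h1, hw.hi, hT, hz.lo, hz.hi, hz.pos⟩
  have hz4 := hz.hi
  have hr : ρ ≤ 1045 / 10000 := by linarith only [h5]
  have hs : false = true → ρ + T ≤ 163 / 1000 := fun h => absurd h Bool.false_ne_true
  have hF : FM ((5 : ℕ) : ℝ) s ρ w ζ := by
    unfold FM at h7 ⊢
    push_cast
    have h10 := hz.pos
    have h11 : 0 ≤ 4 * Real.pi * ρ * ((b - 5) * (1 - 4 * s)) :=
      mul_nonneg (by positivity) (mul_nonneg (by linarith only [hb]) (by linarith only [hz4]))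
    linarith only [h7, h11]
  rcases le_total x (43 / 100) with h8 | h8
  · rcases le_total T (83 / 1000) with h8 | h8
    · have h9 := boxR (b := 5) (by norm_num) (ev_bT (n := 42) (n' := 77) (d' := 10) (by norm_num)) qcR_1 hw hz hD h2 hr hs hF
        (by push_cast; linarith only [h1]) (by push_cast; linarith) (by push_cast; linarith only [h3])
        (by push_cast; linarith only [h8]) (by push_cast; linarith only [h6]) (by push_cast; linarith only [hz4])
        (by push_cast; linarith only [h5])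
      push_cast at h9
      linarith only [h9]
    · have h9 := boxR (b := 5) (by norm_num) (ev_bT (n := 42) (n' := 77) (d' := 10) (by norm_num)) qcR_3 hw hz hD h2 hr hs hF
        (by push_cast; linarith only [h1]) (by push_cast; linarith) (by push_cast; linarith only [h8])
        (by push_cast; linarith only [h4]) (by push_cast; linarith only [h6]) (by push_cast; linarith only [hz4])
        (by push_cast; linarith only [h5])
      push_cast at h9
      linarith only [h9]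
  · rcases le_total T (83 / 1000) with h8 | h8
    · have h9 := boxR (b := 5) (by norm_num) (ev_bT (n := 42) (n' := 77) (d' := 10) (by norm_num)) qcR_2 hw hz hD h2 hr hs hF
        (by push_cast; linarith) (by push_cast; linarith only [h2]) (by push_cast; linarith only [h3])
        (by push_cast; linarith only [h8]) (by push_cast; linarith only [h6]) (by push_cast; linarith only [hz4])
        (by push_cast; linarith only [h5])
      push_cast at h9
      linarith only [h9]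
    · have h9 := boxR (b := 5) (by norm_num) (ev_bT (n := 42) (n' := 77) (d' := 10) (by norm_num)) qcR_4 hw hz hD h2 hr hs hF
        (by push_cast; linarith) (by push_cast; linarith only [h2]) (by push_cast; linarith only [h8])
        (by push_cast; linarith only [h4]) (by push_cast; linarith only [h6]) (by push_cast; linarith only [hz4])
        (by push_cast; linarith only [h5])
      push_cast at h9
      linarith only [h9]

/-! ### Region III -/

/-- all `b` -/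
theorem d_flat (hw : W x (T / (29 / 100)) w) (hz : ZF ρ ζ) (h1 : 1 / 2 ≤ x) (h2 : x ≤ 60 / 100)
    (h3 : 38 / 1000 ≤ T) (h4 : T ≤ 158 / 1000) (h5 : ρ ≤ 1045 / 10000) :
    S4 (T / (29 / 100)) w ζ ≤ -min (Real.pi * (T / (29 / 100)) - 3 / 100) (129 / 100) := by
  rw [mT_eq] at hw ⊢
  rcases le_total x (55 / 100) with h8 | h8
  · have h9 := boxF3 qdF_1 hw hz (by linarith only [h1]) (by linarith only [h3])
      (by push_cast; linarith only [h1]) (by push_cast; linarith only [h8]) (by push_cast; linarith only [h3])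
      (by push_cast; linarith only [h4]) (by push_cast; linarith only [h5])
    push_cast at h9
    exact h9
  · have h9 := boxF3 qdF_2 hw hz (by linarith only [h8]) (by linarith only [h3])
      (by push_cast; linarith only [h8]) (by push_cast; linarith only [h2]) (by push_cast; linarith only [h3])
      (by push_cast; linarith only [h4]) (by push_cast; linarith only [h5])
    push_cast at h9
    exact h9

theorem d_ramp (hw : W x (T / (29 / 100)) w) (hz : ZR s ρ ζ) (h1 : 1 / 2 ≤ x) (h2 : x ≤ 60 / 100)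
    (h3 : 38 / 1000 ≤ T) (h4 : T ≤ 158 / 1000) (h5 : ρ ≤ 1045 / 10000) :
    S4 (T / (29 / 100)) w ζ ≤ -min (Real.pi * (T / (29 / 100)) - 3 / 100) (129 / 100) := by
  rw [mT_eq] at hw ⊢
  have hD : DR x T s ρ := ⟨by linarith only [h1], hw.hi, by linarith only [h3], hz.lo, hz.hi, hz.pos⟩
  rcases le_total T (8 / 100) with h8 | h8
  · have h9 := boxR3 qdR_1 hw hz hD
      (by push_cast; linarith only [h1]) (by push_cast; linarith only [h2]) (by push_cast; linarith only [h3])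
      (by push_cast; linarith only [h8]) (by push_cast; linarith only [h5])
    push_cast at h9
    exact h9
  · have h9 := boxR3 qdR_2 hw hz hD
      (by push_cast; linarith only [h1]) (by push_cast; linarith only [h2]) (by push_cast; linarith only [h8])
      (by push_cast; linarith only [h4]) (by push_cast; linarith only [h5])
    push_cast at h9
    exact h9

/-- `b = 4` -/
theorem e_flat (hw : W x (T / (29 / 100)) w) (hz : ZF ρ ζ) (h1 : 60 / 100 ≤ x)
    (h3 : 38 / 1000 ≤ T) (h4 : T ≤ 128 / 1000) (h5 : ρ ≤ 1045 / 10000) :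
    S4 (T / (29 / 100)) w ζ ≤ -min (Real.pi * (T / (29 / 100)) - 3 / 100) (89 / 100) := by
  rw [mT_eq] at hw ⊢
  have hx := hw.hi
  have h9 := boxF3 qeF_1 hw hz (by linarith only [h1]) (by linarith only [h3])
    (by push_cast; linarith only [h1]) (by push_cast; linarith only [hx]) (by push_cast; linarith only [h3])
    (by push_cast; linarith only [h4]) (by push_cast; linarith only [h5])
  push_cast at h9
  exact h9

theorem e_ramp (hw : W x (T / (29 / 100)) w) (hz : ZR s ρ ζ) (h1 : 60 / 100 ≤ x)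
    (h3 : 38 / 1000 ≤ T) (h4 : T ≤ 128 / 1000) (h5 : ρ ≤ 1045 / 10000) :
    S4 (T / (29 / 100)) w ζ ≤ -min (Real.pi * (T / (29 / 100)) - 3 / 100) (89 / 100) := by
  rw [mT_eq] at hw ⊢
  have hx := hw.hi
  have hD : DR x T s ρ := ⟨by linarith only [h1], hw.hi, by linarith only [h3], hz.lo, hz.hi, hz.pos⟩
  have h9 := boxR3 qeR_1 hw hz hD
    (by push_cast; linarith only [h1]) (by push_cast; linarith only [hx]) (by push_cast; linarith only [h3])
    (by push_cast; linarith only [h4]) (by push_cast; linarith only [h5])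
  push_cast at h9
  exact h9

/-- `b ≥ 5` -/
theorem f_flat (hw : W x (T / (29 / 100)) w) (hz : ZF ρ ζ) (h1 : 60 / 100 ≤ x)
    (h3 : 38 / 1000 ≤ T) (h4 : T ≤ 158 / 1000) (h5 : ρ ≤ 725 / 10000) :
    S4 (T / (29 / 100)) w ζ ≤ -min (Real.pi * (T / (29 / 100)) - 3 / 100) (109 / 100) := by
  rw [mT_eq] at hw ⊢
  have hx := hw.hi
  have h9 := boxF3 qfF_1 hw hz (by linarith only [h1]) (by linarith only [h3])
    (by push_cast; linarith only [h1]) (by push_cast; linarith only [hx]) (by push_cast; linarith only [h3])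
    (by push_cast; linarith only [h4]) (by push_cast; linarith only [h5])
  push_cast at h9
  exact h9

theorem f_ramp (hw : W x (T / (29 / 100)) w) (hz : ZR s ρ ζ) (h1 : 60 / 100 ≤ x)
    (h3 : 38 / 1000 ≤ T) (h4 : T ≤ 158 / 1000) (h5 : ρ ≤ 725 / 10000) :
    S4 (T / (29 / 100)) w ζ ≤ -min (Real.pi * (T / (29 / 100)) - 3 / 100) (109 / 100) := by
  rw [mT_eq] at hw ⊢
  have hx := hw.hi
  have hD : DR x T s ρ := ⟨by linarith only [h1], hw.hi, by linarith only [h3], hz.lo, hz.hi, hz.pos⟩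
  have h9 := boxR3 qfR_1 hw hz hD
    (by push_cast; linarith only [h1]) (by push_cast; linarith only [hx]) (by push_cast; linarith only [h3])
    (by push_cast; linarith only [h4]) (by push_cast; linarith only [h5])
  push_cast at h9
  exact h9

end RZ1

end Pool.Agent.Work.MP_b30479_gtS.G2

end
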