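import Pool.Agent.Work.MP_b30479_gt.TBS.G2.RngG

/-!
# Ring sides: level monotonicity for the ring variable near the ends
-/

namespace Pool.Agent.Work.MP_b30479_gtS.G2

open Finset VOL Filter Topology
open NumUs (uu)

variable {x t σ η c a b s ρ T : ℝ}

/-- The level inequality from the quadratic inequality, regular factors -/
theorem LL_neg_Q (h1 : Complex.sin (Real.pi * (⟨x + 1 / 2 + σ, t + η⟩ : ℂ)) ≠ 0)
    (h2 : Complex.sin (Real.pi * (⟨x + 1 / 2 - σ, t - η⟩ : ℂ)) ≠ 0)
    (h0 : Complex.sin (Real.pi * (⟨x, t⟩ : ℂ)) ≠ 0)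
    (hQ : 0 < 2 * (1 - Real.cos (2 * Real.pi * x) * Real.cosh (2 * Real.pi * t)) *
      (1 + Real.cos (2 * Real.pi * σ) * Real.cosh (2 * Real.pi * η)) -
      2 * Real.sin (2 * Real.pi * σ) * Real.sinh (2 * Real.pi * η) *
        Real.sin (2 * Real.pi * x) * Real.sinh (2 * Real.pi * t) -
      (Real.cos (2 * Real.pi * σ) + Real.cosh (2 * Real.pi * η)) ^ 2) :
    LL ⟨x + 1 / 2 + σ, t + η⟩ + LL ⟨x + 1 / 2 - σ, t - η⟩ - 2 * LL ⟨x, t⟩ < 0 := by
  have n1 := cosh_sub_cos_pos h1
  have n2 := cosh_sub_cos_pos h2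
  have n0 := cosh_sub_cos_pos h0
  rw [LL_eq', LL_eq', LL_eq']
  simp only at n0 n1 n2 ⊢
  have e1 : 2 * Real.cosh (2 * Real.pi * (t + η)) - 2 * Real.cos (2 * Real.pi * (x + 1 / 2 + σ)) =
      2 * (Real.cosh (2 * Real.pi * t + 2 * Real.pi * η) +
        Real.cos (2 * Real.pi * x + 2 * Real.pi * σ)) := by
    rw [show 2 * Real.pi * (x + 1 / 2 + σ) = 2 * Real.pi * x + 2 * Real.pi * σ + Real.pi by ring,
      Real.cos_add_pi, mul_add]
    ring
  have e2 : 2 * Real.cosh (2 * Real.pi * (t - η)) - 2 * Real.cos (2 * Real.pi * (x + 1 / 2 - σ)) =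
      2 * (Real.cosh (2 * Real.pi * t - 2 * Real.pi * η) +
        Real.cos (2 * Real.pi * x - 2 * Real.pi * σ)) := by
    rw [show 2 * Real.pi * (x + 1 / 2 - σ) = 2 * Real.pi * x - 2 * Real.pi * σ + Real.pi by ring,
      Real.cos_add_pi, mul_sub]
    ring
  rw [← ring_prod] at hQ
  have m1 : 0 < 2 * Real.cosh (2 * Real.pi * (t + η)) - 2 * Real.cos (2 * Real.pi * (x + 1 / 2 + σ)) :=
    by linarith only [n1]
  have m2 : 0 < 2 * Real.cosh (2 * Real.pi * (t - η)) - 2 * Real.cos (2 * Real.pi * (x + 1 / 2 - σ)) :=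
    by linarith only [n2]
  have m0 : 0 < 2 * Real.cosh (2 * Real.pi * t) - 2 * Real.cos (2 * Real.pi * x) := by linarith only [n0]
  rw [e1] at m1 ⊢
  rw [e2] at m2 ⊢
  have hl : Real.log (2 * (Real.cosh (2 * Real.pi * t + 2 * Real.pi * η) +
        Real.cos (2 * Real.pi * x + 2 * Real.pi * σ))) +
      Real.log (2 * (Real.cosh (2 * Real.pi * t - 2 * Real.pi * η) +
        Real.cos (2 * Real.pi * x - 2 * Real.pi * σ))) <
      2 * Real.log (2 * Real.cosh (2 * Real.pi * t) - 2 * Real.cos (2 * Real.pi * x)) := by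
    rw [← Real.log_mul m1.ne' m2.ne', ← Real.log_rpow m0]
    apply Real.log_lt_log (mul_pos m1 m2)
    rw [Real.rpow_two]
    nlinarith only [hQ]
  linarith only [hl]

/-! ### half angles -/

theorem half_forms (s η : ℝ) : Real.cos (2 * Real.pi * s) = 1 - 2 * Real.sin (Real.pi * s) ^ 2 ∧
    Real.cosh (2 * Real.pi * η) = 1 + 2 * Real.sinh (Real.pi * η) ^ 2 ∧
    Real.sin (2 * Real.pi * s) = 2 * Real.sin (Real.pi * s) * Real.cos (Real.pi * s) ∧
    Real.sinh (2 * Real.pi * η) = 2 * Real.sinh (Real.pi * η) * Real.cosh (Real.pi * η) := by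
  refine ⟨?_, ?_, ?_, ?_⟩
  · rw [show 2 * Real.pi * s = 2 * (Real.pi * s) by ring, Real.cos_two_mul]
    have := Real.sin_sq_add_cos_sq (Real.pi * s)
    linarith only [this]
  · rw [show 2 * Real.pi * η = 2 * (Real.pi * η) by ring, Real.cosh_two_mul, Real.cosh_sq]
    ring
  · rw [show 2 * Real.pi * s = 2 * (Real.pi * s) by ring, Real.sin_two_mul]
  · rw [show 2 * Real.pi * η = 2 * (Real.pi * η) by ring, Real.sinh_two_mul]

/-- the ratio of the half angle forms -/
theorem ratio_quarter (hs : 0 ≤ s) (hs' : s ≤ 1 / 4) (hρ : 0 ≤ ρ) :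
    0 ≤ Real.sinh (Real.pi * (4 * ρ * s)) ∧
    Real.sinh (Real.pi * (4 * ρ * s)) ≤ √2 * Real.sinh (Real.pi * ρ) * Real.sin (Real.pi * s) := by
  have hpi := Real.pi_pos
  have h1 := sinh_mul_le (l := 4 * s) (z := Real.pi * ρ) (by linarith only [hs]) (by linarith only [hs']) (by positivity)
  have h2 := mul_le_sin_quarter (l := 4 * s) (by linarith only [hs]) (by linarith only [hs'])
  rw [show 4 * s * (Real.pi * ρ) = Real.pi * (4 * ρ * s) by ring] at h1
  rw [show 4 * s * (Real.pi / 4) = Real.pi * s by ring] at h2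
  have h3 : 0 ≤ Real.sinh (Real.pi * ρ) := by
    rw [Real.sinh_nonneg_iff]; positivity
  have h4 : √2 * √2 = 2 := Real.mul_self_sqrt (by norm_num)
  have h5 : 0 < √2 := by positivity
  refine ⟨by rw [Real.sinh_nonneg_iff]; positivity, h1.trans ?_⟩
  have h6 := mul_le_mul_of_nonneg_left h2 (mul_nonneg h5.le h3)
  calc 4 * s * Real.sinh (Real.pi * ρ) = √2 * Real.sinh (Real.pi * ρ) * (4 * s * (√2 / 2)) := by
        linear_combination (-(4 * s * Real.sinh (Real.pi * ρ)) / 2) * h4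
    _ ≤ _ := h6

section
open NumIs NumIs.E

private theorem n1 : √2 * Real.sinh (Real.pi * (1045 / 10000)) ≤ 4729 / 10000 := by
  have h : chk [sub (q 47285 100000) (mul (q 14143 10000) (sinh (mul pi (q 1045 10000))))] 10 [V.of 1 0 0] = true := by
    decide +kernel
  have := pos_of_chk (chk1 h (by norm_num) (x := 0) (by norm_num) (by norm_num))
  simp only [E.val] at this
  norm_num at this
  have h1 : √2 ≤ 14143 / 10000 := by
    rw [Real.sqrt_le_left (by norm_num)]
    norm_num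
  have h2 : 0 ≤ Real.sinh (Real.pi * (1045 / 10000)) := by
    rw [Real.sinh_nonneg_iff]
    positivity
  nlinarith only [this, h1, h2]

private theorem n2 : Real.cos (2 * Real.pi * (105 / 1000)) * Real.cosh (2 * Real.pi * (56 / 1000)) ≤
    84 / 100 := by
  have h : chk [sub (q 8399 10000) (mul (cosPi (q 21 100)) (cosh (mul (mul (q 2 1) pi) (q 56 1000))))] 10
      [V.of 1 0 0] = true := by
    decide +kernel
  have := pos_of_chk (chk1 h (by norm_num) (x := 0) (by norm_num) (by norm_num))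
  simp only [E.val] at this
  norm_num at this
  rw [show 2 * Real.pi * (105 / 1000) = Real.pi * (21 / 100) by ring]
  linarith only [this]

/-- `Q` at `x = .105`, `s ∈ [.09, .1]` -/
private def eQ : E := sub (add
  (mul (mul (q 2 1) (sub (q 1 1) (mul (cosPi (q 21 100)) (cosh (mul (mul (q 2 1) pi) (var 0))))))
    (sub (q 1 1) (mul (cosPi (mul (q 2 1) (var 1)))
      (cosh (mul (mul (q 2 1) pi) (mul (mul (q 4 1) (var 2)) (var 1)))))))
  (mul (mul (mul (mul (q 2 1) (sinPi (mul (q 2 1) (var 1))))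
    (sinh (mul (mul (q 2 1) pi) (mul (mul (q 4 1) (var 2)) (var 1))))) (sinPi (q 21 100)))
    (sinh (mul (mul (q 2 1) pi) (var 0)))))
  (sq (sub (cosh (mul (mul (q 2 1) pi) (mul (mul (q 4 1) (var 2)) (var 1))))
    (cosPi (mul (q 2 1) (var 1)))))

private theorem rowQ (h0 : 0 ≤ T) (h1 : T ≤ 56 / 1000) (h2 : 9 / 100 ≤ s) (h3 : s ≤ 1 / 10)
    (h4 : 0 ≤ ρ) (h5 : ρ ≤ 1045 / 10000) : 0 <
    2 * (1 - Real.cos (Real.pi * (21 / 100)) * Real.cosh (2 * Real.pi * T)) *
      (1 - Real.cos (Real.pi * (2 * s)) * Real.cosh (2 * Real.pi * (4 * ρ * s))) +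
    2 * Real.sin (Real.pi * (2 * s)) * Real.sinh (2 * Real.pi * (4 * ρ * s)) *
      Real.sin (Real.pi * (21 / 100)) * Real.sinh (2 * Real.pi * T) -
    (Real.cosh (2 * Real.pi * (4 * ρ * s)) - Real.cos (Real.pi * (2 * s))) ^ 2 := by
  have h : chk [eQ] 30 [V.of 10000 0 560, V.of 10000 900 1000, V.of 10000 0 1045] = true := by
    decide +kernel
  have hp := pos_of_chk (chk3 h (by norm_num) (x := T) (y := s) (z := ρ)
    (by norm_num; linarith only [h0]) (by norm_num; linarith only [h1]) (by norm_num; linarith only [h2]) (by norm_num; linarith only [h3])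
    (by norm_num; linarith only [h4]) (by norm_num; linarith only [h5]))
  simp only [eQ, E.val, NumIs.lkR] at hp
  simp only [Int.cast_ofNat, Nat.cast_ofNat, Int.cast_one, Nat.cast_one, div_one] at hp
  linarith only [hp]

end

theorem cos_anti {x y : ℝ} (h0 : 0 ≤ x) (h : x ≤ y) (h1 : y ≤ 1 / 2) :
    Real.cos (2 * Real.pi * y) ≤ Real.cos (2 * Real.pi * x) := by
  have hpi := Real.pi_pos
  apply Real.cos_le_cos_of_nonneg_of_le_pi
  · positivity
  · nlinarith only [h1, hpi]
  · nlinarith only [h, hpi]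

/-- **the quadratic inequality near the left end of the ring variable** -/
theorem Q_small (hx : 105 / 1000 ≤ x) (hx' : x ≤ 27 / 100) (ht0 : 0 ≤ t) (ht : t ≤ 56 / 1000)
    (hs : 0 < s) (hs' : s ≤ 1 / 10) (hρ : 0 ≤ ρ) (hρ' : ρ ≤ 1045 / 10000) :
    0 < 2 * (1 - Real.cos (2 * Real.pi * x) * Real.cosh (2 * Real.pi * t)) *
      (1 - Real.cos (2 * Real.pi * s) * Real.cosh (2 * Real.pi * (4 * ρ * s))) +
      2 * Real.sin (2 * Real.pi * s) * Real.sinh (2 * Real.pi * (4 * ρ * s)) *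
        Real.sin (2 * Real.pi * x) * Real.sinh (2 * Real.pi * t) -
      (Real.cosh (2 * Real.pi * (4 * ρ * s)) - Real.cos (2 * Real.pi * s)) ^ 2 := by
  have hpi := Real.pi_pos
  have c1 : Real.cos (2 * Real.pi * x) ≤ Real.cos (2 * Real.pi * (105 / 1000)) :=
    cos_anti (by norm_num) hx (by linarith only [hx', hs, hs'])
  have c2 : 0 < Real.cosh (2 * Real.pi * t) := Real.cosh_pos _
  have c3 : 0 ≤ Real.sin (2 * Real.pi * s) := by
    apply Real.sin_nonneg_of_nonneg_of_le_pi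
    · positivity
    · nlinarith only [hpi, hs']
  have c4 : 0 ≤ Real.sinh (2 * Real.pi * (4 * ρ * s)) := by
    rw [Real.sinh_nonneg_iff]; positivity
  have c5 : 0 ≤ Real.sinh (2 * Real.pi * t) := by
    rw [Real.sinh_nonneg_iff]; positivity
  obtain ⟨k1, k2⟩ := ratio_quarter hs.le (by linarith only [hs, hs']) hρ
  have k0 : 0 < Real.sin (Real.pi * s) := by
    apply Real.sin_pos_of_pos_of_lt_pi
    · positivity
    · nlinarith only [hpi, hs']
  have k3 : √2 * Real.sinh (Real.pi * ρ) ≤ 4729 / 10000 := by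
    refine le_trans ?_ n1
    apply mul_le_mul_of_nonneg_left _ (by positivity)
    rw [Real.sinh_le_sinh]
    nlinarith only [hs, hs', hρ', hpi]
  have k4 : Real.sinh (Real.pi * (4 * ρ * s)) ≤ 4729 / 10000 * Real.sin (Real.pi * s) :=
    k2.trans (mul_le_mul_of_nonneg_right k3 k0.le)
  obtain ⟨f1, f2, -, -⟩ := half_forms s (4 * ρ * s)
  have k5 : Real.sinh (Real.pi * (4 * ρ * s)) ^ 2 ≤ 22364 / 100000 * Real.sin (Real.pi * s) ^ 2 := by
    have := mul_self_le_mul_self k1 k4
    nlinarith only [this]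
  have k6 : 0 ≤ Real.sinh (Real.pi * (4 * ρ * s)) ^ 2 := sq_nonneg _
  -- the second factor
  have d2 : 1 - Real.cos (2 * Real.pi * s) * Real.cosh (2 * Real.pi * (4 * ρ * s)) =
      2 * (Real.sin (Real.pi * s) ^ 2 - Real.sinh (Real.pi * (4 * ρ * s)) ^ 2 +
        2 * Real.sin (Real.pi * s) ^ 2 * Real.sinh (Real.pi * (4 * ρ * s)) ^ 2) := by
    rw [f1, f2]
    ring
  have d3 : Real.cosh (2 * Real.pi * (4 * ρ * s)) - Real.cos (2 * Real.pi * s) =
      2 * (Real.sin (Real.pi * s) ^ 2 + Real.sinh (Real.pi * (4 * ρ * s)) ^ 2) := by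
    rw [f1, f2]
    ring
  have p0 : 0 < Real.sin (Real.pi * s) ^ 2 := by positivity
  have d4 : 2 * ((1 - 22364 / 100000) * Real.sin (Real.pi * s) ^ 2) ≤
      1 - Real.cos (2 * Real.pi * s) * Real.cosh (2 * Real.pi * (4 * ρ * s)) := by
    rw [d2]
    nlinarith only [mul_nonneg p0.le k6, k5, p0, k6]
  have c6 : 0 ≤ Real.sin (2 * Real.pi * x) := by
    apply Real.sin_nonneg_of_nonneg_of_le_pi
    · have : 0 ≤ x := by linarith only [hx, hs, hs']
      positivity
    · nlinarith only [hpi, hx']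
  have r1 : 16 / 100 ≤ 1 - Real.cos (2 * Real.pi * x) * Real.cosh (2 * Real.pi * t) := by
    have e1 : Real.cosh (2 * Real.pi * t) ≤ Real.cosh (2 * Real.pi * (56 / 1000)) := by
      rw [Real.cosh_le_cosh, abs_of_nonneg (by positivity), abs_of_nonneg (by positivity)]
      nlinarith only [ht, hpi]
    have e2 : 0 ≤ Real.cos (2 * Real.pi * (105 / 1000)) := by
      apply Real.cos_nonneg_of_neg_pi_div_two_le_of_le <;> nlinarith only [hpi]
    have e3 := mul_le_mul_of_nonneg_right c1 c2.le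
    have e4 := mul_le_mul_of_nonneg_left e1 e2
    linarith only [n2, e3, e4]
  rcases le_total s (9 / 100) with hs9 | hs9
  · have p1 : Real.sin (Real.pi * s) ≤ 2829 / 10000 := by
      have h1 := Real.sin_le (show 0 ≤ Real.pi * s by positivity)
      have h2 : Real.pi * s ≤ 3.1416 * (9 / 100) :=
        mul_le_mul Real.pi_lt_d4.le hs9 hs.le (by norm_num)
      norm_num at h2
      linarith only [hs, hs9, h1, h2]
    have p2 : Real.sin (Real.pi * s) ^ 2 ≤ 8004 / 100000 := by nlinarith only [hs9, p1, hs, p0, hs', k0]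
    have p3 : (Real.cosh (2 * Real.pi * (4 * ρ * s)) - Real.cos (2 * Real.pi * s)) ^ 2 ≤
        4 * ((122364 / 100000) ^ 2 * (8004 / 100000)) * Real.sin (Real.pi * s) ^ 2 := by
      rw [d3]
      have h1 : Real.sin (Real.pi * s) ^ 2 + Real.sinh (Real.pi * (4 * ρ * s)) ^ 2 ≤
          122364 / 100000 * Real.sin (Real.pi * s) ^ 2 := by linarith only [k5]
      have h2 := mul_self_le_mul_self (by positivity) h1
      nlinarith only [h2, p2]
    have p4 : 2 * (16 / 100) * (2 * ((1 - 22364 / 100000) * Real.sin (Real.pi * s) ^ 2)) ≤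
        2 * (1 - Real.cos (2 * Real.pi * x) * Real.cosh (2 * Real.pi * t)) *
        (1 - Real.cos (2 * Real.pi * s) * Real.cosh (2 * Real.pi * (4 * ρ * s))) := by
      apply mul_le_mul
      · linarith only [r1]
      · exact d4
      · nlinarith only [p0]
      · linarith only [p0, r1, p2]
    have p5 : 0 ≤ 2 * Real.sin (2 * Real.pi * s) * Real.sinh (2 * Real.pi * (4 * ρ * s)) *
        Real.sin (2 * Real.pi * x) * Real.sinh (2 * Real.pi * t) := by positivity
    nlinarith only [p0, p3, p4, p5]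
  · have row := rowQ ht0 ht hs9 hs' hρ hρ'
    rw [show Real.pi * (2 * s) = 2 * Real.pi * s by ring,
      show Real.pi * (21 / 100) = 2 * Real.pi * (105 / 1000) by ring] at row
    have q1 : Real.sin (2 * Real.pi * (105 / 1000)) ≤ Real.sin (2 * Real.pi * x) := by
      rcases le_total x (1 / 4) with h | h
      · apply Real.sin_le_sin_of_le_of_le_pi_div_two <;> nlinarith only [hpi, hs, hs', h, hx]
      · rw [← Real.sin_pi_sub (2 * Real.pi * x)]
        apply Real.sin_le_sin_of_le_of_le_pi_div_two <;> nlinarith only [hpi, hs, hs', h, hx']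
    have q2 : 2 * (1 - Real.cos (2 * Real.pi * (105 / 1000)) * Real.cosh (2 * Real.pi * t)) *
        (1 - Real.cos (2 * Real.pi * s) * Real.cosh (2 * Real.pi * (4 * ρ * s))) ≤
        2 * (1 - Real.cos (2 * Real.pi * x) * Real.cosh (2 * Real.pi * t)) *
        (1 - Real.cos (2 * Real.pi * s) * Real.cosh (2 * Real.pi * (4 * ρ * s))) := by
      apply mul_le_mul_of_nonneg_right
      · nlinarith only [hs, hs', c1, c2]
      · nlinarith only [p0, d4]
    have q3 : 2 * Real.sin (2 * Real.pi * s) * Real.sinh (2 * Real.pi * (4 * ρ * s)) *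
        Real.sin (2 * Real.pi * (105 / 1000)) * Real.sinh (2 * Real.pi * t) ≤
        2 * Real.sin (2 * Real.pi * s) * Real.sinh (2 * Real.pi * (4 * ρ * s)) *
        Real.sin (2 * Real.pi * x) * Real.sinh (2 * Real.pi * t) := by
      apply mul_le_mul_of_nonneg_right _ c5
      apply mul_le_mul_of_nonneg_left q1
      positivity
    linarith only [row, q2, q3]

theorem cos_sin_near (s : ℝ) : Real.cos (2 * Real.pi * (-(1 / 2) + s)) = -Real.cos (2 * Real.pi * s) ∧
    Real.sin (2 * Real.pi * (-(1 / 2) + s)) = -Real.sin (2 * Real.pi * s) ∧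
    Real.cos (2 * Real.pi * (1 / 2 - s)) = -Real.cos (2 * Real.pi * s) ∧
    Real.sin (2 * Real.pi * (1 / 2 - s)) = Real.sin (2 * Real.pi * s) := by
  refine ⟨?_, ?_, ?_, ?_⟩
  · rw [show 2 * Real.pi * (-(1 / 2) + s) = 2 * Real.pi * s - Real.pi by ring, Real.cos_sub_pi]
  · rw [show 2 * Real.pi * (-(1 / 2) + s) = 2 * Real.pi * s - Real.pi by ring, Real.sin_sub_pi]
  · rw [show 2 * Real.pi * (1 / 2 - s) = Real.pi - 2 * Real.pi * s by ring, Real.cos_pi_sub]
  · rw [show 2 * Real.pi * (1 / 2 - s) = Real.pi - 2 * Real.pi * s by ring, Real.sin_pi_sub]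

/-- **level monotonicity on `[.105, .27]` near the left end** -/
theorem fu_x_anti_small (ha : 105 / 1000 ≤ a) (hab : a < b) (hb : b ≤ 27 / 100) (ht0 : 0 ≤ t)
    (ht : t ≤ 56 / 1000) (hρ : 0 < ρ) (hρ' : ρ ≤ 1045 / 10000) (hs : 0 < s) (hs' : s ≤ 1 / 10) :
    fu b t (-(1 / 2) + s) (4 * ρ * s) < fu a t (-(1 / 2) + s) (4 * ρ * s) := by
  have hη : 0 < 4 * ρ * s := by positivity
  refine strict_anti_one (f := fun x => fu x t (-(1 / 2) + s) (4 * ρ * s))
    (f' := fun x => LL ⟨x + 1 / 2 + (-(1 / 2) + s), t + 4 * ρ * s⟩ +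
      LL ⟨x + 1 / 2 - (-(1 / 2) + s), t - 4 * ρ * s⟩ - 2 * LL ⟨x, t⟩) 0 hab (continuous_fu_x _ _ _) ?_
  intro x h1 h2 _
  have hσ : |(-(1 / 2) + s)| < 1 / 2 := by rw [abs_lt]; constructor <;> linarith
  refine ⟨hasDerivAt_fu_x (by linarith only [ha, hb, h1, h2]) (by linarith only [ha, hb, h1, h2]) hσ (by linarith only [ht0, hη]) (Or.inr (by
    intro h
    linarith only [ha, hb, hs', h1, h2, h])), ?_⟩
  apply LL_neg_Q
  · exact sin_ne_02 (by linarith only [ha, hb, hs, h1, h2]) (by linarith only [ha, hb, hs', h1, h2]) (Or.inl (by linarith only [ht0, hη]))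
  · exact sin_ne_02 (by linarith only [ha, hb, hs', h1, h2]) (by linarith only [ha, hb, hs, h1, h2]) (Or.inr (by intro h; linarith only [ha, hb, hs', h1, h2, h]))
  · exact sin_ne_of_strip ⟨by simp only; linarith only [ha, hb, h1, h2], by simp only; linarith only [ha, hb, h1, h2]⟩
  · obtain ⟨e1, e2, -, -⟩ := cos_sin_near s
    rw [e1, e2]
    have := Q_small (x := x) (t := t) (by linarith only [ha, h1]) (by linarith only [hb, h2]) ht0 ht hs hs' hρ.le hρ'
    nlinarith only [this, this]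

end Pool.Agent.Work.MP_b30479_gtS.G2
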