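import Pool.Agent.Work.MP_b30479_gt.TBS.G2.RngG

/-!
# Ring sides: the value move of a ring|ring hinge for small `s` and `ρ`
-/

namespace Pool.Agent.Work.MP_b30479_gtS.G2

open Finset VOL Filter Topology
open NumUs (uu uu_neg uu_add_one uu_one_sub)

variable {x t σ η c a b s ρ T θ y K : ℝ}

/-! ### the dependence of `uu` on the height -/

theorem uu_ge_of {y : ℝ} (h0 : 0 ≤ x) (h1 : x ≤ 1 / 2) (hy : 0 ≤ y) :
    uu x 0 - (Real.pi / 2 - Real.pi * x) * y ≤ uu x y := by
  have h := mono_one (f := fun y => uu x y + (Real.pi / 2 - Real.pi * x) * y)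
    (f' := fun y => YY ⟨x, y⟩ + (Real.pi / 2 - Real.pi * x)) 0 hy
    ((continuous_uu_y x).add (by fun_prop)) (by
      intro t h2 _ _
      refine ⟨(hasDerivAt_uu_y (Or.inl h2.ne')).add (by
        simpa using (hasDerivAt_id t).const_mul (Real.pi / 2 - Real.pi * x)), ?_⟩
      rw [YY_mk_pos h2]
      have := pi_mul_le_Tr h0 h1 h2
      linarith only [this])
  linarith only [h]

theorem uu_le_of {y : ℝ} (h0 : 0 ≤ x) (h1 : x ≤ 1 / 2) (hy : 0 ≤ y) : uu x y ≤ uu x 0 := by
  have h := anti_one (f := fun y => uu x y) (f' := fun y => YY ⟨x, y⟩) 0 hy (continuous_uu_y x) (by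
      intro t h2 _ _
      refine ⟨hasDerivAt_uu_y (Or.inl h2.ne'), ?_⟩
      rw [YY_mk_pos h2]
      have := Tr_le_half h2 h1
      linarith only [this])
  exact h

theorem uu_le_of' {y : ℝ} (h0 : 1 / 2 ≤ x) (h1 : x ≤ 1) (hy : 0 ≤ y) :
    uu x y ≤ uu x 0 + (Real.pi * x - Real.pi / 2) * y := by
  have h := anti_one (f := fun y => uu x y - (Real.pi * x - Real.pi / 2) * y)
    (f' := fun y => YY ⟨x, y⟩ - (Real.pi * x - Real.pi / 2)) 0 hy
    ((continuous_uu_y x).sub (by fun_prop)) (by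
      intro t h2 _ _
      refine ⟨(hasDerivAt_uu_y (Or.inl h2.ne')).sub (by
        simpa using (hasDerivAt_id t).const_mul (Real.pi * x - Real.pi / 2)), ?_⟩
      rw [YY_mk_pos h2]
      have := Tr_le_pi_mul h0 h1 h2
      linarith only [this])
  linarith only [h]

/-! ### second differences on the real axis -/

theorem CC_real {x : ℝ} (h0 : 0 < x) (h1 : x < 1) :
    CC ⟨x, 0⟩ = Real.pi * (Real.cos (Real.pi * x) / Real.sin (Real.pi * x)) := by
  have hs : 0 < Real.sin (Real.pi * x) := by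
    apply Real.sin_pos_of_pos_of_lt_pi
    · exact mul_pos Real.pi_pos h0
    · have := mul_lt_mul_of_pos_left h1 Real.pi_pos
      linarith only [this]
  unfold CC
  simp only [mul_zero, Real.cosh_zero]
  congr 1
  rw [show 2 * Real.pi * x = 2 * (Real.pi * x) by ring, Real.sin_two_mul, Real.cos_two_mul]
  have h2 := Real.sin_sq_add_cos_sq (Real.pi * x)
  rw [show 1 - (2 * Real.cos (Real.pi * x) ^ 2 - 1) = 2 * Real.sin (Real.pi * x) ^ 2 by linarith only [h2]]
  field_simp

theorem CC_sum {x τ : ℝ} (h0 : 0 < x - τ) (h1 : x + τ < 1) (hτ : 0 ≤ τ) :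
    0 < Real.sin (Real.pi * x) ^ 2 - Real.sin (Real.pi * τ) ^ 2 ∧
    CC ⟨x + τ, 0⟩ + CC ⟨x - τ, 0⟩ = Real.pi * (Real.sin (2 * (Real.pi * x)) /
      (Real.sin (Real.pi * x) ^ 2 - Real.sin (Real.pi * τ) ^ 2)) := by
  have hpi := Real.pi_pos
  have s1 : 0 < Real.sin (Real.pi * (x + τ)) := by
    apply Real.sin_pos_of_pos_of_lt_pi
    · exact mul_pos hpi (by linarith only [h0, hτ])
    · have := mul_lt_mul_of_pos_left h1 hpi
      linarith only [this]
  have s2 : 0 < Real.sin (Real.pi * (x - τ)) := by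
    apply Real.sin_pos_of_pos_of_lt_pi
    · exact mul_pos hpi (by linarith only [h0])
    · have := mul_lt_mul_of_pos_left (show x - τ < 1 by linarith only [h1, hτ]) hpi
      linarith only [this]
  have e : Real.sin (Real.pi * x) ^ 2 - Real.sin (Real.pi * τ) ^ 2 =
      Real.sin (Real.pi * (x + τ)) * Real.sin (Real.pi * (x - τ)) := by
    rw [mul_add, mul_sub, Real.sin_add, Real.sin_sub]
    have h2 := Real.sin_sq_add_cos_sq (Real.pi * x)
    have h3 := Real.sin_sq_add_cos_sq (Real.pi * τ)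
    linear_combination (-Real.sin (Real.pi * x) ^ 2) * h3 + (Real.sin (Real.pi * τ) ^ 2) * h2
  rw [e]
  refine ⟨mul_pos s1 s2, ?_⟩
  rw [CC_real (by linarith only [h0, hτ]) h1, CC_real h0 (by linarith only [h1, hτ]), ← mul_add]
  congr 1
  rw [div_add_div _ _ s1.ne' s2.ne']
  congr 1
  rw [show 2 * (Real.pi * x) = Real.pi * (x - τ) + Real.pi * (x + τ) by ring, Real.sin_add]
  ring

/-- first derivative of the second difference -/
theorem sd_hasDeriv (h0 : 0 < x - s) (h1 : x + s < 1) (hs : 0 < s) :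
    HasDerivAt (fun s => uu (x + s) 0 + uu (x - s) 0 - 2 * uu x 0)
      (LL ⟨x + s, 0⟩ - LL ⟨x - s, 0⟩) s := by
  have k1 := (hasDerivAt_uu_x (x := x + s) (y := 0) (sin_ne_of_strip ⟨by simp only; linarith only [h0, hs], h1⟩)).comp s
    ((hasDerivAt_id s).const_add x)
  have k2 := (hasDerivAt_uu_x (x := x - s) (y := 0) (sin_ne_of_strip ⟨h0, by simp only; linarith only [h1, hs]⟩)).comp s
    ((hasDerivAt_id s).const_sub x)
  refine HasDerivAt.congr_deriv ((k1.add k2).sub_const _) ?_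
  ring

theorem sd_hasDeriv2 (h0 : 0 < x - s) (h1 : x + s < 1) (hs : 0 < s) :
    HasDerivAt (fun s => LL ⟨x + s, 0⟩ - LL ⟨x - s, 0⟩) (CC ⟨x + s, 0⟩ + CC ⟨x - s, 0⟩) s := by
  have g1 : HasDerivAt (fun s : ℝ => (⟨x + s, 0⟩ : ℂ)) 1 s := by
    have h2 : HasDerivAt (fun s : ℝ => ((x : ℂ) + (s : ℂ))) 1 s := by
      simpa using (Complex.ofRealCLM.hasDerivAt (x := s)).const_add (x : ℂ)
    refine h2.congr_of_eventuallyEq (Filter.Eventually.of_forall fun s => ?_)
    apply Complex.ext <;> simp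
  have g2 : HasDerivAt (fun s : ℝ => (⟨x - s, 0⟩ : ℂ)) (-1) s := by
    have h2 : HasDerivAt (fun s : ℝ => ((x : ℂ) - (s : ℂ))) (-1) s := by
      simpa using (Complex.ofRealCLM.hasDerivAt (x := s)).const_sub (x : ℂ)
    refine h2.congr_of_eventuallyEq (Filter.Eventually.of_forall fun s => ?_)
    apply Complex.ext <;> simp
  have k1 := hasDerivAt_LL g1 (sin_ne_of_strip ⟨by simp only; linarith only [h0, hs], h1⟩)
  have k2 := hasDerivAt_LL g2 (sin_ne_of_strip ⟨h0, by simp only; linarith only [h1, hs]⟩)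
  refine HasDerivAt.congr_deriv (k1.sub k2) ?_
  simp

theorem continuous_sd (x : ℝ) : Continuous fun s => uu (x + s) 0 + uu (x - s) 0 - 2 * uu x 0 := by
  have h1 := (continuous_uu_x 0).comp (show Continuous fun s : ℝ => x + s by fun_prop)
  have h2 := (continuous_uu_x 0).comp (show Continuous fun s : ℝ => x - s by fun_prop)
  exact (h1.add h2).sub continuous_const

theorem LLd_mono {g : ℝ} (h0 : 0 ≤ x - s) (h1 : x + s ≤ 1) (hs : 0 < s) (hx : 0 < x)
    (hK : ∀ τ, 0 < τ → τ < s → g ≤ CC ⟨x + τ, 0⟩ + CC ⟨x - τ, 0⟩) {τ : ℝ} (hτ : 0 < τ)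
    (hτ' : τ < s) : g * τ ≤ LL ⟨x + τ, 0⟩ - LL ⟨x - τ, 0⟩ := by
  have hm : MonotoneOn (fun τ => LL ⟨x + τ, 0⟩ - LL ⟨x - τ, 0⟩ - g * τ) (Set.Icc 0 τ) := by
    apply monotoneOn_of_deriv_nonneg (convex_Icc _ _)
    · intro r hr
      have hr' : x - r ∈ Set.Ioo (0 : ℝ) 1 ∧ x + r ∈ Set.Ioo (0 : ℝ) 1 :=
        ⟨⟨by linarith only [h0, hτ', hr, hr.2], by linarith only [h1, hτ, hτ', hr, hr.1, hr.2]⟩, ⟨by linarith only [h0, hτ, hτ', hr, hr.1], by linarith only [h1, hτ', hr, hr.2]⟩⟩
      have g1 : HasDerivAt (fun s : ℝ => (⟨x + s, 0⟩ : ℂ)) 1 r := by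
        have h2 : HasDerivAt (fun s : ℝ => ((x : ℂ) + (s : ℂ))) 1 r := by
          simpa using (Complex.ofRealCLM.hasDerivAt (x := r)).const_add (x : ℂ)
        refine h2.congr_of_eventuallyEq (Filter.Eventually.of_forall fun s => ?_)
        apply Complex.ext <;> simp
      have g2 : HasDerivAt (fun s : ℝ => (⟨x - s, 0⟩ : ℂ)) (-1) r := by
        have h2 : HasDerivAt (fun s : ℝ => ((x : ℂ) - (s : ℂ))) (-1) r := by
          simpa using (Complex.ofRealCLM.hasDerivAt (x := r)).const_sub (x : ℂ)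
        refine h2.congr_of_eventuallyEq (Filter.Eventually.of_forall fun s => ?_)
        apply Complex.ext <;> simp
      have k1 := hasDerivAt_LL g1 (sin_ne_of_strip ⟨hr'.2.1, hr'.2.2⟩)
      have k2 := hasDerivAt_LL g2 (sin_ne_of_strip ⟨hr'.1.1, hr'.1.2⟩)
      exact ((k1.sub k2).continuousAt.sub (by fun_prop)).continuousWithinAt
    · intro r hr
      rw [interior_Icc] at hr
      exact ((sd_hasDeriv2 (x := x) (s := r) (by linarith only [h0, hτ', hr, hr.2]) (by linarith only [h1, hτ', hr, hr.2]) hr.1).sub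
        ((hasDerivAt_id r).const_mul g)).differentiableAt.differentiableWithinAt
    · intro r hr
      rw [interior_Icc] at hr
      have hd := (sd_hasDeriv2 (x := x) (s := r) (by linarith only [h0, hτ', hr, hr.2]) (by linarith only [h1, hτ', hr, hr.2]) hr.1).sub
        ((hasDerivAt_id r).const_mul g)
      have e : deriv (fun τ => LL ⟨x + τ, 0⟩ - LL ⟨x - τ, 0⟩ - g * τ) r =
          CC ⟨x + r, 0⟩ + CC ⟨x - r, 0⟩ - g * 1 := hd.deriv
      rw [e]
      have := hK r hr.1 (hr.2.trans hτ')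
      linarith only [this]
  have h2 := hm (Set.left_mem_Icc.2 hτ.le) (Set.right_mem_Icc.2 hτ.le) hτ.le
  simp only [add_zero, sub_zero, sub_self, mul_zero] at h2
  linarith only [h2]

theorem sd_ge (h0 : 0 ≤ x - s) (h1 : x + s ≤ 1) (hs : 0 < s) (hx : 0 < x)
    (hK : ∀ τ, 0 < τ → τ < s → 2 * K ≤ CC ⟨x + τ, 0⟩ + CC ⟨x - τ, 0⟩) :
    K * s ^ 2 ≤ uu (x + s) 0 + uu (x - s) 0 - 2 * uu x 0 := by
  have h := mono_one (f := fun s => uu (x + s) 0 + uu (x - s) 0 - 2 * uu x 0 - K * s ^ 2)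
    (f' := fun s => LL ⟨x + s, 0⟩ - LL ⟨x - s, 0⟩ - K * (2 * s)) 0 hs.le
    ((continuous_sd x).sub (by fun_prop)) (by
      intro τ h2 h3 _
      refine ⟨(sd_hasDeriv (by linarith only [h0, h3]) (by linarith only [h1, h3]) h2).sub (by
        simpa using (hasDerivAt_pow 2 τ).const_mul K), ?_⟩
      have := LLd_mono h0 h1 hs hx hK h2 h3
      linarith only [this])
  simp only [add_zero, sub_zero] at h
  nlinarith only [h]

theorem sd_le (h0 : 0 ≤ x - s) (h1 : x + s ≤ 1) (hs : 0 < s) (hx : 0 < x)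
    (hK : ∀ τ, 0 < τ → τ < s → CC ⟨x + τ, 0⟩ + CC ⟨x - τ, 0⟩ ≤ 2 * K) :
    uu (x + s) 0 + uu (x - s) 0 - 2 * uu x 0 ≤ K * s ^ 2 := by
  -- apply the lower bound at `1 - x`
  have key := sd_ge (x := 1 - x) (s := s) (K := -K) (by linarith only [h1]) (by linarith only [h0]) hs (by linarith only [h1, hs]) (by
    intro τ h2 h3
    have e1 : CC ⟨1 - x + τ, 0⟩ = -CC ⟨x - τ, 0⟩ := by
      unfold CC
      simp only
      rw [show 2 * Real.pi * (1 - x + τ) = 2 * Real.pi - 2 * Real.pi * (x - τ) by ring,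
        Real.sin_two_pi_sub, Real.cos_two_pi_sub]
      ring
    have e2 : CC ⟨1 - x - τ, 0⟩ = -CC ⟨x + τ, 0⟩ := by
      unfold CC
      simp only
      rw [show 2 * Real.pi * (1 - x - τ) = 2 * Real.pi - 2 * Real.pi * (x + τ) by ring,
        Real.sin_two_pi_sub, Real.cos_two_pi_sub]
      ring
    rw [e1, e2]
    linarith only [hK, h2, h3, hK τ h2 h3])
  rw [show 1 - x + s = 1 - (x - s) by ring, show 1 - x - s = 1 - (x + s) by ring,
    uu_one_sub, uu_one_sub, uu_one_sub] at key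
  linarith only [key]

section
open NumIs NumIs.E

private theorem m1 : 182 / 10 * Real.sin (Real.pi * (105 / 1000)) ^ 2 ≤ Real.pi * Real.sin (Real.pi * (21 / 100)) := by
  have g : chk [sub (mul pi (sinPi (q 21 100))) (mul (q 182 10) (sq (sinPi (q 105 1000))))] 10 [V.of 1 0 0] = true := by
    decide +kernel
  have h := pos_of_chk (chk1 g (by norm_num) (x := 0) (by norm_num) (by norm_num))
  simp only [E.val] at h
  simp only [Int.cast_ofNat, Nat.cast_ofNat, Int.cast_one] at h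
  linarith only [h]

private theorem m2 : Real.pi * Real.sin (Real.pi * (96 / 100)) + 1 / 2 * Real.sin (Real.pi * (105 / 1000)) ^ 2 ≤
    1 / 2 * Real.sin (Real.pi * (48 / 100)) ^ 2 := by
  have g : chk [sub (mul (q 1 2) (sq (sinPi (q 48 100)))) (add (mul pi (sinPi (q 96 100)))
      (mul (q 1 2) (sq (sinPi (q 105 1000)))))] 10 [V.of 1 0 0] = true := by
    decide +kernel
  have h := pos_of_chk (chk1 g (by norm_num) (x := 0) (by norm_num) (by norm_num))
  simp only [E.val] at h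
  simp only [Int.cast_ofNat, Nat.cast_ofNat, Int.cast_one] at h
  linarith only [h]

end

theorem sd_105 (hs : 0 < s) (hs' : s ≤ 105 / 1000) :
    91 / 10 * s ^ 2 ≤ uu (105 / 1000 + s) 0 + uu (105 / 1000 - s) 0 - 2 * uu (105 / 1000) 0 := by
  have hpi := Real.pi_pos
  refine sd_ge (by linarith only [hs']) (by linarith only [hs, hs']) hs (by norm_num) fun τ h0 h1 => ?_
  obtain ⟨h2, h3⟩ := CC_sum (x := 105 / 1000) (τ := τ) (by linarith only [hs', h1]) (by linarith only [hs', h0, h1]) h0.le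
  rw [h3, ← mul_div_assoc Real.pi, le_div_iff₀ h2,
    show 2 * (Real.pi * (105 / 1000)) = Real.pi * (21 / 100) by ring]
  have := m1
  have := sq_nonneg (Real.sin (Real.pi * τ))
  nlinarith

theorem sd_48 (hs : 0 < s) (hs' : s ≤ 105 / 1000) :
    uu (48 / 100 + s) 0 + uu (48 / 100 - s) 0 - 2 * uu (48 / 100) 0 ≤ 1 / 4 * s ^ 2 := by
  have hpi := Real.pi_pos
  refine sd_le (by linarith only [hs, hs']) (by linarith only [hs, hs']) hs (by norm_num) fun τ h0 h1 => ?_
  obtain ⟨h2, h3⟩ := CC_sum (x := 48 / 100) (τ := τ) (by linarith only [hs', h0, h1]) (by linarith only [hs', h0, h1]) h0.le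
  rw [h3, ← mul_div_assoc Real.pi, div_le_iff₀ h2,
    show 2 * (Real.pi * (48 / 100)) = Real.pi * (96 / 100) by ring]
  have h4 := m2
  have h5 : Real.sin (Real.pi * τ) ≤ Real.sin (Real.pi * (105 / 1000)) := by
    apply Real.sin_le_sin_of_le_of_le_pi_div_two <;> nlinarith only [hs, hpi, hs', h0, h1]
  have h6 : 0 ≤ Real.sin (Real.pi * τ) := by
    apply Real.sin_nonneg_of_nonneg_of_le_pi
    · positivity
    · nlinarith only [hs, hpi, hs', h1]
  have h7 := mul_self_le_mul_self h6 h5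
  nlinarith only [h4, h7]

/-- **left ramp of the ring variable, small `s`, `ρ ≤ .357 s`** -/
theorem r1s (h0 : 0 ≤ T) (hs : 0 < s) (hs' : s ≤ 105 / 1000) (h4 : 0 ≤ ρ)
    (h5 : ρ ≤ 357 / 1000 * s) :
    fu (48 / 100) 0 (-(1 / 2) + s) (4 * ρ * s) < fu (105 / 1000) T (-(1 / 2) + s) (4 * ρ * s) := by
  have hpi := Real.pi_pos
  have hpi' := Real.pi_lt_d4
  set η := 4 * ρ * s with hη
  have η0 : 0 ≤ η := by positivity
  have e1 : fu (48 / 100) 0 (-(1 / 2) + s) η = uu (48 / 100 + s) η + (uu (48 / 100 - s) η +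
      Real.pi * η) - 2 * uu (48 / 100) 0 := by
    unfold fu
    rw [show (48 / 100 : ℝ) + 1 / 2 + (-(1 / 2) + s) = 48 / 100 + s by ring,
      show (48 / 100 : ℝ) + 1 / 2 - (-(1 / 2) + s) = (48 / 100 - s) + 1 by ring, uu_add_one,
      zero_sub, uu_neg, abs_neg, abs_of_nonneg η0, zero_add]
  have e2 : fu (105 / 1000) T (-(1 / 2) + s) η = uu (105 / 1000 + s) (T + η) +
      (uu (105 / 1000 - s) |T - η| + Real.pi * |T - η|) - 2 * uu (105 / 1000) T := by
    unfold fu
    rw [show (105 / 1000 : ℝ) + 1 / 2 + (-(1 / 2) + s) = 105 / 1000 + s by ring,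
      show (105 / 1000 : ℝ) + 1 / 2 - (-(1 / 2) + s) = (105 / 1000 - s) + 1 by ring, uu_add_one]
    have : uu (105 / 1000 - s) |T - η| = uu (105 / 1000 - s) (T - η) := by
      rcases abs_choice (T - η) with h | h <;> rw [h]
      rw [uu_neg]
    rw [this]
  rw [e1, e2]
  have a1 := uu_ge_of (x := 105 / 1000 + s) (y := T + η) (by linarith only [hs, hs']) (by linarith only [hs, hs']) (by linarith only [h0, η0])
  have a2 := uu_ge_of (x := 105 / 1000 - s) (y := |T - η|) (by linarith only [hs']) (by linarith only [hs, hs']) (abs_nonneg _)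
  have a3 := uu_le_of (x := 105 / 1000) (y := T) (by norm_num) (by norm_num) h0
  have b1 := uu_le_of (x := 48 / 100 - s) (y := η) (by linarith only [hs, hs']) (by linarith only [hs, hs']) η0
  have b2 : uu (48 / 100 + s) η ≤ uu (48 / 100 + s) 0 + Real.pi * (85 / 1000) * η := by
    rcases le_total (48 / 100 + s) (1 / 2) with h | h
    · have := uu_le_of (x := 48 / 100 + s) (y := η) (by linarith only [hs, h]) h η0
      have : 0 ≤ Real.pi * (85 / 1000) * η := by positivity
      linarith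
    · have h1 := uu_le_of' (x := 48 / 100 + s) (y := η) h (by linarith only [hs, hs']) η0
      have h2 : (Real.pi * (48 / 100 + s) - Real.pi / 2) * η ≤ Real.pi * (85 / 1000) * η := by
        apply mul_le_mul_of_nonneg_right _ η0
        nlinarith only [hs', hpi]
      linarith only [h1, h2]
  have s1 := sd_105 hs hs'
  have s2 := sd_48 hs hs'
  -- the heights
  have c1 : -(Real.pi * (79 / 100) * η) ≤ -((Real.pi / 2 - Real.pi * (105 / 1000 + s)) * (T + η)) -
      (Real.pi / 2 - Real.pi * (105 / 1000 - s)) * |T - η| + Real.pi * |T - η| := by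
    rcases le_total η T with h | h
    · rw [abs_of_nonneg (by linarith only [h])]
      have k1 : 0 ≤ Real.pi * (T - η) := by
        have : 0 ≤ T - η := by linarith only [h]
        positivity
      have k2 : 0 ≤ Real.pi * s * η := by positivity
      nlinarith only [k1, k2]
    · rw [abs_of_nonpos (by linarith only [h])]
      have k1 : 0 ≤ Real.pi * (η - T) := by
        have : 0 ≤ η - T := by linarith only [h]
        positivity
      have k2 : 0 ≤ Real.pi * s * T := by positivity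
      nlinarith only [k1, k2]
  have c2 : η ≤ 1428 / 1000 * s ^ 2 := by
    rw [hη]
    nlinarith only [hs, h5]
  have c3 : Real.pi * (79 / 100) * η + Real.pi * η + Real.pi * (85 / 1000) * η ≤
      (315 / 100) * (1875 / 1000) * (1428 / 1000 * s ^ 2) := by
    have k1 : Real.pi * (1875 / 1000) * η ≤ (315 / 100) * (1875 / 1000) * η := by
      apply mul_le_mul_of_nonneg_right _ η0
      linarith only [hs, hs', hpi']
    nlinarith only [c2, k1]
  have c4 : 0 < s ^ 2 := by positivity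
  nlinarith only [a1, a2, a3, b1, b2, s1, s2, c1, c3, c4]

end Pool.Agent.Work.MP_b30479_gtS.G2
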