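import Pool.Agent.Work.MP_b30479_gt.TBS.G2.RngH
import Pool.Agent.Work.MP_b30479_gt.TBS.G2.RngC
import Pool.Agent.Work.MP_b30479_gt.TBS.G2.RngK
import Pool.Agent.Work.MP_b30479_gt.TBS.G2.RngJ
import Pool.Agent.Work.MP_b30479_gt.TBS.G2.RVe_1

section

/-!
# Ring sides: more rows for the value move of a ring|ring hinge
-/

namespace Pool.Agent.Work.MP_b30479_gtS.G2

open Finset VOL Filter Topology
open NumUs (uu uu_neg uu_add_one uu_one_sub)

variable {x t σ η c a b s ρ T θ : ℝ}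

/-! ### near the right end of the ring variable -/

section
open NumIs NumIs.E

/-- `x = var 0`, `T = var 1` -/
private def eP (θ θ2 : E) : E := sub (sub
  (mul (sub (q 1 1) (mul (cosPi (mul (q 2 1) (var 0))) (cosh (mul (mul (q 2 1) pi) (var 1)))))
    (sub (q 1 1) (mul θ θ)))
  (mul (mul (mul (q 2 1) θ) (sinPi (mul (q 2 1) (var 0)))) (sinh (mul (mul (q 2 1) pi) (var 1)))))
  (mul (q 381 10000) (mul θ2 θ2))

private theorem rowA (h0 : 105 / 1000 ≤ x) (h1 : x ≤ 27 / 100) (h2 : 0 ≤ T) (h3 : T ≤ 385 / 10000) :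
    0 < (1 - Real.cos (2 * Real.pi * x) * Real.cosh (2 * Real.pi * T)) * (1 - (293 / 1000) * (293 / 1000)) -
      2 * (293 / 1000) * Real.sin (2 * Real.pi * x) * Real.sinh (2 * Real.pi * T) -
      381 / 10000 * ((1 + (293 / 1000) * (293 / 1000)) * (1 + (293 / 1000) * (293 / 1000))) := by
  have h : chk [eP (q 293 1000) (add (q 1 1) (mul (q 293 1000) (q 293 1000)))] 30
      [V.of 10000 1050 2700, V.of 10000 0 385] = true := by
    decide +kernel
  have hp := pos_of_chk (chk2 h (by norm_num) (x := x) (y := T)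
    (by norm_num; linarith only [h0]) (by norm_num; linarith only [h1]) (by norm_num; linarith only [h2]) (by norm_num; linarith only [h3]))
  simp only [eP, E.val, NumIs.lkR] at hp
  simp only [Int.cast_ofNat, Nat.cast_ofNat, Int.cast_one, Nat.cast_one, div_one] at hp
  rw [show Real.pi * (2 * x) = 2 * Real.pi * x by ring] at hp
  linarith only [hp]

private theorem rowB (h0 : 105 / 1000 ≤ x) (h1 : x ≤ 27 / 100) (h2 : 0 ≤ T) (h3 : T ≤ 25 / 1000) :
    0 < (1 - Real.cos (2 * Real.pi * x) * Real.cosh (2 * Real.pi * T)) * (1 - (422 / 1000) * (422 / 1000)) -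
      2 * (422 / 1000) * Real.sin (2 * Real.pi * x) * Real.sinh (2 * Real.pi * T) -
      381 / 10000 * ((1 + (422 / 1000) * (422 / 1000)) * (1 + (422 / 1000) * (422 / 1000))) := by
  have h : chk [eP (q 422 1000) (add (q 1 1) (mul (q 422 1000) (q 422 1000)))] 30
      [V.of 10000 1050 2700, V.of 10000 0 250] = true := by
    decide +kernel
  have hp := pos_of_chk (chk2 h (by norm_num) (x := x) (y := T)
    (by norm_num; linarith only [h0]) (by norm_num; linarith only [h1]) (by norm_num; linarith only [h2]) (by norm_num; linarith only [h3]))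
  simp only [eP, E.val, NumIs.lkR] at hp
  simp only [Int.cast_ofNat, Nat.cast_ofNat, Int.cast_one, Nat.cast_one, div_one] at hp
  rw [show Real.pi * (2 * x) = 2 * Real.pi * x by ring] at hp
  linarith only [hp]

private theorem nA : Real.sinh (Real.pi * (725 / 10000) / 4) ≤ 293 / 1000 * Real.sin (Real.pi / 16) := by
  have g : chk [sub (mul (q 293 1000) (sinPi (q 1 16))) (sinh (mul pi (q 725 40000)))] 10 [V.of 1 0 0] = true := by
    decide +kernel
  have h := pos_of_chk (chk1 g (by norm_num) (x := 0) (by norm_num) (by norm_num))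
  simp only [E.val] at h
  simp only [Int.cast_ofNat, Nat.cast_ofNat, Int.cast_one] at h
  rw [show Real.pi * (725 / 40000) = Real.pi * (725 / 10000) / 4 by ring,
    show Real.pi * (1 / 16) = Real.pi / 16 by ring] at h
  linarith only [h]

private theorem nB : Real.sinh (Real.pi * (1045 / 10000) / 4) ≤ 422 / 1000 * Real.sin (Real.pi / 16) := by
  have g : chk [sub (mul (q 422 1000) (sinPi (q 1 16))) (sinh (mul pi (q 1045 40000)))] 10 [V.of 1 0 0] = true := by
    decide +kernel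
  have h := pos_of_chk (chk1 g (by norm_num) (x := 0) (by norm_num) (by norm_num))
  simp only [E.val] at h
  simp only [Int.cast_ofNat, Nat.cast_ofNat, Int.cast_one] at h
  rw [show Real.pi * (1045 / 40000) = Real.pi * (1045 / 10000) / 4 by ring,
    show Real.pi * (1 / 16) = Real.pi / 16 by ring] at h
  linarith only [h]

private theorem nC : Real.sin (Real.pi / 16) ^ 2 ≤ 381 / 10000 := by
  have g : chk [sub (q 381 10000) (sq (sinPi (q 1 16)))] 10 [V.of 1 0 0] = true := by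
    decide +kernel
  have h := pos_of_chk (chk1 g (by norm_num) (x := 0) (by norm_num) (by norm_num))
  simp only [E.val] at h
  simp only [Int.cast_ofNat, Nat.cast_ofNat, Int.cast_one] at h
  rw [show Real.pi * (1 / 16) = Real.pi / 16 by ring] at h
  linarith only [h]

end

theorem ratio_16 (hs : 0 ≤ s) (hs' : s ≤ 1 / 16) (hρ : 0 ≤ ρ) (hθ : 0 ≤ θ)
    (h : Real.sinh (Real.pi * ρ / 4) ≤ θ * Real.sin (Real.pi / 16)) :
    0 ≤ Real.sinh (Real.pi * (4 * ρ * s)) ∧
    Real.sinh (Real.pi * (4 * ρ * s)) ≤ θ * Real.sin (Real.pi * s) := by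
  have hpi := Real.pi_pos
  have h1 := sinh_mul_le (l := 16 * s) (z := Real.pi * ρ / 4) (by linarith only [hs]) (by linarith only [hs']) (by positivity)
  have h2 := mul_sin_le (l := 16 * s) (a := Real.pi / 16) (by linarith only [hs]) (by linarith only [hs']) (by positivity)
    (by linarith only [hpi])
  rw [show 16 * s * (Real.pi * ρ / 4) = Real.pi * (4 * ρ * s) by ring] at h1
  rw [show 16 * s * (Real.pi / 16) = Real.pi * s by ring] at h2
  refine ⟨by rw [Real.sinh_nonneg_iff]; positivity, h1.trans ?_⟩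
  calc 16 * s * Real.sinh (Real.pi * ρ / 4) ≤ 16 * s * (θ * Real.sin (Real.pi / 16)) :=
        mul_le_mul_of_nonneg_left h (by linarith only [hs])
    _ = θ * (16 * s * Real.sin (Real.pi / 16)) := by ring
    _ ≤ _ := mul_le_mul_of_nonneg_left h2 hθ

/-- the quadratic inequality from its rows -/
theorem Q_pos_of {s1 s2 c1 c2 R I θ : ℝ} (h1 : 0 < s1) (h2 : 0 ≤ s2) (h3 : s2 ≤ θ * s1)
    (hθ1 : θ ≤ 1) (hθ0 : 0 ≤ θ) (hR : 0 ≤ R) (hI : 0 ≤ I) (hc1 : s1 ^ 2 + c1 ^ 2 = 1)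
    (hc2 : c2 ^ 2 = 1 + s2 ^ 2) (hc10 : 0 ≤ c1) (hc20 : 0 ≤ c2) (hs : s1 ^ 2 ≤ 381 / 10000)
    (row : 0 < R * (1 - θ * θ) - 2 * θ * I - 381 / 10000 * ((1 + θ * θ) * (1 + θ * θ))) :
    0 < R * (s1 ^ 2 - s2 ^ 2 + 2 * s1 ^ 2 * s2 ^ 2) - 2 * (s1 * c1) * (s2 * c2) * I -
      (s1 ^ 2 + s2 ^ 2) ^ 2 := by
  have k1 : s2 ^ 2 ≤ θ * θ * s1 ^ 2 := by nlinarith only [h2, h3, mul_self_le_mul_self h2 h3]
  have k2 : c1 * c2 ≤ 1 := by
    have a1 : (c1 * c2) ^ 2 ≤ 1 := by
      have : (c1 * c2) ^ 2 = (1 - s1 ^ 2) * (1 + s2 ^ 2) := by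
        rw [mul_pow, hc2, ← hc1]; ring
      rw [this]
      have b0 : s2 ≤ s1 := h3.trans (by nlinarith only [h1, hθ1])
      have b1 : s2 ^ 2 ≤ s1 ^ 2 := pow_le_pow_left₀ h2 b0 2
      nlinarith only [b1, sq_nonneg s1, sq_nonneg s2, mul_nonneg (sq_nonneg s1) (sq_nonneg s2)]
    nlinarith only [a1, mul_nonneg hc10 hc20]
  have k3 : (s1 * c1) * (s2 * c2) ≤ θ * s1 ^ 2 := by
    have a1 : (s1 * c1) * (s2 * c2) = (s1 * s2) * (c1 * c2) := by ring
    have a2 : s1 * s2 ≤ θ * s1 ^ 2 := by nlinarith only [h1, h3]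
    have a3 : 0 ≤ s1 * s2 := by positivity
    rw [a1]
    nlinarith only [a2, k2, a3, mul_le_mul_of_nonneg_left k2 a3]
  have k4 : (s1 ^ 2 + s2 ^ 2) ^ 2 ≤ (1 + θ * θ) * (1 + θ * θ) * (381 / 10000) * s1 ^ 2 := by
    have a1 : s1 ^ 2 + s2 ^ 2 ≤ (1 + θ * θ) * s1 ^ 2 := by linarith only [k1]
    have a2 := mul_self_le_mul_self (by positivity) a1
    have a3 : s1 ^ 2 * s1 ^ 2 ≤ 381 / 10000 * s1 ^ 2 := mul_le_mul_of_nonneg_right hs (sq_nonneg _)
    have a4 : 0 ≤ (1 + θ * θ) * (1 + θ * θ) := by positivity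
    have a5 := mul_le_mul_of_nonneg_left a3 a4
    nlinarith only [a2, a5]
  have k5 : R * ((1 - θ * θ) * s1 ^ 2) ≤ R * (s1 ^ 2 - s2 ^ 2 + 2 * s1 ^ 2 * s2 ^ 2) := by
    apply mul_le_mul_of_nonneg_left _ hR
    nlinarith only [k1, mul_nonneg (sq_nonneg s1) (sq_nonneg s2)]
  have k6 := mul_le_mul_of_nonneg_right k3 hI
  have k7 : 0 < s1 ^ 2 := by positivity
  have k8 := mul_pos row k7
  nlinarith only [k4, k5, k6, k8]

theorem Q_small_pos (hx : 105 / 1000 ≤ x) (hx' : x ≤ 27 / 100) (ht0 : 0 ≤ t)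
    (hs : 0 < s) (hs' : s ≤ 1 / 16) (hρ : 0 ≤ ρ)
    (hc : (ρ ≤ 725 / 10000 ∧ t ≤ 385 / 10000) ∨ (ρ ≤ 1045 / 10000 ∧ t ≤ 25 / 1000)) :
    0 < 2 * (1 - Real.cos (2 * Real.pi * x) * Real.cosh (2 * Real.pi * t)) *
      (1 - Real.cos (2 * Real.pi * s) * Real.cosh (2 * Real.pi * (4 * ρ * s))) -
      2 * Real.sin (2 * Real.pi * s) * Real.sinh (2 * Real.pi * (4 * ρ * s)) *
        Real.sin (2 * Real.pi * x) * Real.sinh (2 * Real.pi * t) -
      (Real.cosh (2 * Real.pi * (4 * ρ * s)) - Real.cos (2 * Real.pi * s)) ^ 2 := by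
  have hpi := Real.pi_pos
  have k0 : 0 < Real.sin (Real.pi * s) := by
    apply Real.sin_pos_of_pos_of_lt_pi
    · positivity
    · nlinarith only [hpi, hs']
  have c0 : 0 ≤ Real.cos (Real.pi * s) := by
    apply Real.cos_nonneg_of_neg_pi_div_two_le_of_le <;> nlinarith only [hpi, hs, hs']
  have c5 : 0 ≤ Real.sinh (2 * Real.pi * t) := by
    rw [Real.sinh_nonneg_iff]; positivity
  have c6 : 0 ≤ Real.sin (2 * Real.pi * x) := by
    apply Real.sin_nonneg_of_nonneg_of_le_pi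
    · have : 0 ≤ x := by linarith only [hx, hs, hs']
      positivity
    · nlinarith only [hpi, hx']
  have p1 : Real.sin (Real.pi * s) ^ 2 ≤ 381 / 10000 := by
    have h1 : Real.sin (Real.pi * s) ≤ Real.sin (Real.pi / 16) := by
      apply Real.sin_le_sin_of_le_of_le_pi_div_two <;> nlinarith only [hpi, hs, hs']
    have h2 := mul_self_le_mul_self k0.le h1
    nlinarith only [h2, nC]
  have main : ∀ θ : ℝ, 0 ≤ θ → θ ≤ 1 → Real.sinh (Real.pi * ρ / 4) ≤ θ * Real.sin (Real.pi / 16) →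
      0 < (1 - Real.cos (2 * Real.pi * x) * Real.cosh (2 * Real.pi * t)) * (1 - θ * θ) -
      2 * θ * Real.sin (2 * Real.pi * x) * Real.sinh (2 * Real.pi * t) -
      381 / 10000 * ((1 + θ * θ) * (1 + θ * θ)) → 0 ≤ 1 - Real.cos (2 * Real.pi * x) * Real.cosh (2 * Real.pi * t) →
      0 < 2 * (1 - Real.cos (2 * Real.pi * x) * Real.cosh (2 * Real.pi * t)) *
      (1 - Real.cos (2 * Real.pi * s) * Real.cosh (2 * Real.pi * (4 * ρ * s))) -
      2 * Real.sin (2 * Real.pi * s) * Real.sinh (2 * Real.pi * (4 * ρ * s)) *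
        Real.sin (2 * Real.pi * x) * Real.sinh (2 * Real.pi * t) -
      (Real.cosh (2 * Real.pi * (4 * ρ * s)) - Real.cos (2 * Real.pi * s)) ^ 2 := by
    intro θ h0 h1 h2 h3 h4
    obtain ⟨k1, k2⟩ := ratio_16 hs.le hs' hρ h0 h2
    obtain ⟨f1, f2, f3, f4⟩ := half_forms s (4 * ρ * s)
    have key := Q_pos_of (s1 := Real.sin (Real.pi * s)) (s2 := Real.sinh (Real.pi * (4 * ρ * s)))
      (c1 := Real.cos (Real.pi * s)) (c2 := Real.cosh (Real.pi * (4 * ρ * s)))
      (I := Real.sin (2 * Real.pi * x) * Real.sinh (2 * Real.pi * t)) k0 k1 k2 h1 h0 h4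
      (mul_nonneg c6 c5) (Real.sin_sq_add_cos_sq _) (by rw [Real.cosh_sq]; ring) c0
      (Real.cosh_pos _).le p1 (by linarith only [h3])
    rw [f1, f2, f3, f4]
    nlinarith only [key]
  have hR : ∀ T : ℝ, 0 ≤ T → T ≤ 385 / 10000 → 0 ≤ 1 - Real.cos (2 * Real.pi * x) * Real.cosh (2 * Real.pi * T) := by
    intro T hT hT'
    have := rowA hx hx' hT hT'
    have h1 : 0 ≤ Real.sinh (2 * Real.pi * T) := by rw [Real.sinh_nonneg_iff]; positivity
    have h2 := mul_nonneg c6 h1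
    nlinarith only [hs, hs', this, h2]
  rcases hc with ⟨a1, a2⟩ | ⟨a1, a2⟩
  · refine main (293 / 1000) (by norm_num) (by norm_num) (le_trans ?_ nA) (rowA hx hx' ht0 a2)
      (hR t ht0 a2)
    rw [Real.sinh_le_sinh]
    nlinarith only [hs, hs', hpi, a1]
  · refine main (422 / 1000) (by norm_num) (by norm_num) (le_trans ?_ nB) (rowB hx hx' ht0 a2)
      (hR t ht0 (by linarith only [hs, hs', a2]))
    rw [Real.sinh_le_sinh]
    nlinarith only [hs, hs', hpi, a1]

/-- **level monotonicity on `[.105, .27]` near the right end** -/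
theorem fu_x_anti_small_pos (ha : 105 / 1000 ≤ a) (hab : a < b) (hb : b ≤ 27 / 100) (ht0 : 0 ≤ t)
    (hρ : 0 < ρ) (hc : (ρ ≤ 725 / 10000 ∧ t ≤ 385 / 10000) ∨ (ρ ≤ 1045 / 10000 ∧ t ≤ 25 / 1000))
    (hs : 0 < s) (hs' : s ≤ 1 / 16) :
    fu b t (1 / 2 - s) (4 * ρ * s) < fu a t (1 / 2 - s) (4 * ρ * s) := by
  have hη : 0 < 4 * ρ * s := by positivity
  refine strict_anti_one (f := fun x => fu x t (1 / 2 - s) (4 * ρ * s))
    (f' := fun x => LL ⟨x + 1 / 2 + (1 / 2 - s), t + 4 * ρ * s⟩ +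
      LL ⟨x + 1 / 2 - (1 / 2 - s), t - 4 * ρ * s⟩ - 2 * LL ⟨x, t⟩) 0 hab (continuous_fu_x _ _ _) ?_
  intro x h1 h2 _
  have hσ : |(1 / 2 - s)| < 1 / 2 := by rw [abs_lt]; constructor <;> linarith only [hs, hs']
  refine ⟨hasDerivAt_fu_x (by linarith only [ha, hs, hs', h1]) (by linarith only [hb, hs, hs', h2]) hσ (by linarith only [ht0, hη]) (Or.inr (by
    intro h
    linarith only [hb, hs, hs', h2, h])), ?_⟩
  apply LL_neg_Q
  · exact sin_ne_02 (by linarith only [ha, hs, hs', h1]) (by linarith only [hb, hs, hs', h2]) (Or.inl (by linarith only [ht0, hη]))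
  · exact sin_ne_02 (by linarith only [ha, hs, hs', h1]) (by linarith only [hb, hs, hs', h2]) (Or.inr (by intro h; linarith only [hb, hs, hs', h2, h]))
  · exact sin_ne_of_strip ⟨by simp only; linarith only [ha, hs, hs', h1], by simp only; linarith only [hb, hs, hs', h2]⟩
  · obtain ⟨-, -, e1, e2⟩ := cos_sin_near s
    rw [e1, e2]
    have := Q_small_pos (x := x) (t := t) (by linarith only [ha, h1]) (by linarith only [hb, h2]) ht0 hs hs' hρ.le hc
    nlinarith only [this, this]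

end Pool.Agent.Work.MP_b30479_gtS.G2

end

section

/-!
# Ring sides: the value move of a ring|ring hinge from `[.48, .5]` to `.105`, one ring
-/

namespace Pool.Agent.Work.MP_b30479_gtS.G2

open Finset VOL Filter Topology

variable {x t σ η c a b s ρ T θ y K : ℝ} {w w' : ℂ} {k k' : RKe}

section
open NumUs NumUs.E RV
open NumIs (V)

/-- `r1` for `s ∈ [.105, .116]`, `ρ ≤ .042` -/
theorem r1m (h0 : 0 ≤ T) (h1 : T ≤ 56 / 1000) (h2 : 105 / 1000 ≤ s) (h3 : s ≤ 116 / 1000) (h4 : 0 ≤ ρ)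
    (h5 : ρ ≤ 42 / 1000) :
    fu (48 / 100) 0 (-(1 / 2) + s) (4 * ρ * s) < fu (105 / 1000) T (-(1 / 2) + s) (4 * ρ * s) := by
  have h : chk [E.sub (E.sub (E.uu (E.add x0 es) (E.add eT ee)) (E.mul (q 2 1) (E.uu x0 eT))) a48] 24
      [NumIs.V.of 10000 0 560, NumIs.V.of 10000 1050 1160, NumIs.V.of 10000 0 420] = true := by
    decide +kernel
  have hp := pos_of_chk (chk3 h (by norm_num) (x := T) (y := s) (z := ρ)
    (by norm_num; linarith only [h0]) (by norm_num; linarith only [h1]) (by norm_num; linarith only [h2]) (by norm_num; linarith only [h3])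
    (by norm_num; linarith only [h4]) (by norm_num; linarith only [h5]))
  simp only [a48, eT, es, ee, x0, E.val, NumIs.lkR] at hp
  push_cast at hp
  have e : 0 ≤ 4 * ρ * s := by positivity
  have e1 : 4 * ρ * s ≤ 2 / 100 := by nlinarith only [h3, h5, h2]
  have k0 : uu 0 (T - 4 * ρ * s) ≤ 0 := by
    have h6 := uu_add_one 0 (T - 4 * ρ * s)
    have h7 := uu_one_sub 0 (T - 4 * ρ * s)
    rw [zero_add] at h6
    rw [sub_zero] at h7
    have h8 : 0 ≤ Real.pi * |T - 4 * ρ * s| := by positivity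
    linarith only [h6, h7, h8]
  have k1 := anti0 (a := 0) (b := s - 105 / 1000) (y := T - 4 * ρ * s) (by linarith only [h2])
    (fun v hv => ⟨hv.1.ne', by rw [abs_le]; constructor <;> linarith only [hv, h3, hv.1, hv.2]⟩)
    (by rw [abs_le]; constructor <;> linarith only [h0, e1, h1, e])
  unfold fu
  rw [show (48 / 100 : ℝ) + 1 / 2 + (-(1 / 2) + s) = 48 / 100 + s by ring,
    beyond (show (48 / 100 : ℝ) + 1 / 2 - (-(1 / 2) + s) = (48 / 100 - s) + 1 by ring),
    show (105 / 1000 : ℝ) + 1 / 2 + (-(1 / 2) + s) = 105 / 1000 + s by ring,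
    before (show (105 / 1000 : ℝ) + 1 / 2 - (-(1 / 2) + s) = 1 - (s - 105 / 1000) by ring),
    zero_sub, uu_neg, abs_neg, abs_of_nonneg e, zero_add]
  simp only [div_one, zero_div] at hp
  linarith only [k0, k1, hp]

end

/-- chain of the level monotonicity from `x` to `c` -/
theorem fu_to_c (hc : c = 48 / 100 ∨ c = 46 / 100) (hx : 48 / 100 ≤ x) (hx' : x ≤ 1 / 2) (ht0 : 0 ≤ t)
    (ht : t ≤ 56 / 1000) (hρ : 0 < ρ) (hρ' : ρ ≤ 1045 / 10000) (hσ : |σ| < 1 / 2) :
    fu x t σ (ρ * LT.th σ) ≤ fu c t σ (ρ * LT.th σ) := by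
  apply fu_x_anti_le (a := c) (b := x) _ _ (by linarith only [hx', hρ, hρ']) ht0 ht hρ hρ' hσ
  · rcases hc with rfl | rfl <;> norm_num
  · rcases hc with rfl | rfl <;> linarith only [hx, hρ, hρ']

theorem th_flat (hs : 0 ≤ s) (hs' : s ≤ 1 / 4) : LT.th s = 1 ∧ LT.th (-s) = 1 := by
  constructor <;> apply th_of_le <;> rw [abs_le] <;> constructor <;> linarith only [hs, hs']

/-- flat part, `σ = -s ≤ 0` -/
theorem gain_flat_neg (hx : 48 / 100 ≤ x) (hx' : x ≤ 1 / 2) (ht0 : 0 ≤ t) (htT : t ≤ T)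
    (hT : T ≤ 56 / 1000) (hρ : 0 < ρ) (hρ' : ρ ≤ 1045 / 10000) (hs : 0 ≤ s) (hs' : s ≤ 1 / 4) :
    fu x t (-s) ρ < fu (105 / 1000) T (-s) ρ := by
  have hσ : |(-s)| < 1 / 2 := by rw [abs_lt]; constructor <;> linarith only [hρ, hρ', hs', hs]
  have hT0 : 0 ≤ T := ht0.trans htT
  rcases le_total (3 / 100) s with h3 | h3
  · have k1 := fu_to_c (c := 48 / 100) (Or.inl rfl) hx hx' ht0 (htT.trans hT) hρ hρ' hσ
    rw [(th_flat hs hs').2, mul_one] at k1
    rcases le_total ρ t with h4 | h4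
    · have k2 := fu_t_mono (c := 48 / 100) (σ := -s) (η := ρ) (by norm_num) (by norm_num)
        (by linarith only [htT, hT, hρ, h3, h4]) (by linarith only [htT, hT, hρ, hs', h4]) hρ h4 htT
      have k3 := RV.r4 hT0 hT h3 hs' hρ.le (h4.trans htT)
      linarith only [k1, k2, k3]
    · have k2 := fu_t_anti (c := 48 / 100) (σ := -s) (η := ρ) (by norm_num) (by norm_num)
        (by linarith only [hρ, hρ', h3]) (by linarith only [hρ, hρ', hs']) le_rfl ht0 h4
      have k3 := RV.r3 hT0 hT h3 hs' hρ.le hρ'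
      linarith only [k1, k2, k3]
  · have k1 := fu_to_c (c := 46 / 100) (Or.inr rfl) hx hx' ht0 (htT.trans hT) hρ hρ' hσ
    rw [(th_flat hs hs').2, mul_one] at k1
    have k2 := fu_s_mono (x := 46 / 100) (t := t) (a := -s) (b := 0) (by norm_num) le_rfl ht0 hρ
      (by linarith only [h3]) (by linarith only [hs]) le_rfl
    have k3 := fu_t_mono_pos (c := 46 / 100) (σ := 0) (η := ρ) (by norm_num) (by norm_num)
      le_rfl (by norm_num) hρ ht0 htT
    have k4 := RV.r5 hT0 hT hρ.le hρ'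
    have k5 := fu_s_mono (x := 105 / 1000) (t := T) (a := -(3 / 100)) (b := -s) (by norm_num)
      (by norm_num) hT0 hρ le_rfl (by linarith only [h3]) (by linarith only [hs])
    linarith only [k1, k2, k3, k4, k5]

/-- flat part, `σ = s ≥ 0` -/
theorem gain_flat_pos (hx : 48 / 100 ≤ x) (hx' : x ≤ 1 / 2) (ht0 : 0 ≤ t) (htT : t ≤ T)
    (hT : T ≤ 56 / 1000) (hρ : 0 < ρ) (hρ' : ρ ≤ 1045 / 10000) (hs : 0 ≤ s) (hs' : s ≤ 1 / 4)
    (hc : s ≤ 17 / 100 ∨ ρ ≤ 85 / 1000 ∨ T ≤ 25 / 1000) :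
    fu x t s ρ < fu (105 / 1000) T s ρ := by
  have hσ : |s| < 1 / 2 := by rw [abs_lt]; constructor <;> linarith only [hρ, hρ', hs, hs']
  have hT0 : 0 ≤ T := ht0.trans htT
  rcases le_total s (3 / 100) with h3 | h3
  · have k1 := fu_to_c (c := 46 / 100) (Or.inr rfl) hx hx' ht0 (htT.trans hT) hρ hρ' hσ
    rw [(th_flat hs hs').1, mul_one] at k1
    have k2 := fu_t_mono_pos (c := 46 / 100) (σ := s) (η := ρ) (by norm_num) (by norm_num)
      hs (by linarith only [hρ, hρ', hs']) hρ ht0 htT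
    have k3 := RV.r6b hT0 hT hs h3 hρ.le hρ'
    linarith only [k1, k2, k3]
  · have k1 := fu_to_c (c := 48 / 100) (Or.inl rfl) hx hx' ht0 (htT.trans hT) hρ hρ' hσ
    rw [(th_flat hs hs').1, mul_one] at k1
    have k2 := fu_t_mono_pos (c := 48 / 100) (σ := s) (η := ρ) (by norm_num) (by norm_num)
      hs (by linarith only [hρ, hρ', hs']) hρ ht0 htT
    have k3 : fu (48 / 100) T s ρ < fu (105 / 1000) T s ρ := by
      rcases le_total s (17 / 100) with h4 | h4
      · exact RV.r6 hT0 hT h3 h4 hρ.le hρ'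
      · rcases le_total ρ (85 / 1000) with h5 | h5
        · exact RV.r6c hT0 hT (by linarith only [hρ, h4, h5]) hs' hρ.le h5
        · rcases hc with hc | hc | hc
          · exact RV.r6 hT0 hT h3 hc hρ.le hρ'
          · exact RV.r6c hT0 hT (by linarith only [hρ, h4, hc]) hs' hρ.le hc
          · exact RV.r7 hT0 hc (by linarith only [hρ, hρ', h4]) hs' h5 hρ'
    linarith only [k1, k2, k3]

/-- ramp at the right end, `σ = 1/2 - s` -/
theorem gain_ramp_pos (hx : 48 / 100 ≤ x) (hx' : x ≤ 1 / 2) (ht0 : 0 ≤ t) (htT : t ≤ T)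
    (hρ : 0 < ρ) (hs : 0 < s) (hs' : s ≤ 1 / 4)
    (hc : (ρ ≤ 725 / 10000 ∧ T ≤ 385 / 10000) ∨ (ρ ≤ 1045 / 10000 ∧ T ≤ 25 / 1000)) :
    fu x t (1 / 2 - s) (4 * ρ * s) < fu (105 / 1000) T (1 / 2 - s) (4 * ρ * s) := by
  have hσ : |(1 / 2 - s)| < 1 / 2 := by rw [abs_lt]; constructor <;> linarith only [hs, hs']
  have hT0 : 0 ≤ T := ht0.trans htT
  have hρ' : ρ ≤ 1045 / 10000 := by rcases hc with hc | hc <;> linarith only [hρ, hc, hc.1]
  have hT : T ≤ 56 / 1000 := by rcases hc with hc | hc <;> linarith only [hρ, hc, hρ', hc.2]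
  have hη : 0 < 4 * ρ * s := by positivity
  have eth : ρ * LT.th (1 / 2 - s) = 4 * ρ * s := by
    rw [show (1 / 2 - s : ℝ) = -(-(1 / 2) + s) by ring, th_neg, th_ramp hs.le hs']
  have k1 := fu_to_c (c := 48 / 100) (Or.inl rfl) hx hx' ht0 (htT.trans hT) hρ hρ' hσ
  rw [eth] at k1
  have k2 := fu_t_mono_pos (c := 48 / 100) (σ := 1 / 2 - s) (η := 4 * ρ * s) (by norm_num)
    (by norm_num) (by linarith only [hρ, hs', hρ']) (by linarith only [hs]) hη ht0 htT
  rcases le_total s (1 / 16) with h1 | h1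
  · have k3 := fu_x_anti (a := 27 / 100) (b := 48 / 100) (t := T) (σ := 1 / 2 - s) (ρ := ρ) le_rfl
      (by norm_num) (by norm_num) hT0 hT hρ hρ' hσ
    rw [eth] at k3
    have k4 := fu_x_anti_small_pos (a := 105 / 1000) (b := 27 / 100) (t := T) (ρ := ρ) (s := s) le_rfl
      (by norm_num) le_rfl hT0 hρ hc hs h1
    linarith only [k1, k2, k3, k4]
  · have k3 : fu (48 / 100) T (1 / 2 - s) (4 * ρ * s) < fu (105 / 1000) T (1 / 2 - s) (4 * ρ * s) := by
      rcases hc with hc | hc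
      · exact RV.r8b hT0 hc.2 (by linarith only [hs, h1]) hs' hρ.le hc.1
      · exact RV.r8 hT0 hc.2 (by linarith only [hs, h1]) hs' hρ.le hc.1
    linarith only [k1, k2, k3]

/-- ramp at the left end, `σ = -1/2 + s` -/
theorem gain_ramp_neg (hx : 48 / 100 ≤ x) (hx' : x ≤ 1 / 2) (ht0 : 0 ≤ t) (htT : t ≤ T)
    (hT : T ≤ 56 / 1000) (hρ : 0 < ρ) (hρ' : ρ ≤ 1045 / 10000) (hs : 0 < s) (hs' : s ≤ 1 / 4)
    (hc : 4 * ρ * s ≤ t ∨ 116 / 1000 ≤ s ∨ (s ≤ 105 / 1000 ∧ ρ ≤ 357 / 1000 * s) ∨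
      (105 / 1000 ≤ s ∧ ρ ≤ 42 / 1000)) :
    fu x t (-(1 / 2) + s) (4 * ρ * s) < fu (105 / 1000) T (-(1 / 2) + s) (4 * ρ * s) := by
  have hσ : |(-(1 / 2) + s)| < 1 / 2 := by rw [abs_lt]; constructor <;> linarith only [hs, hρ, hρ', hs']
  have hT0 : 0 ≤ T := ht0.trans htT
  have hη : 0 < 4 * ρ * s := by positivity
  have eth := th_ramp hs.le hs' ρ
  have k1 := fu_to_c (c := 48 / 100) (Or.inl rfl) hx hx' ht0 (htT.trans hT) hρ hρ' hσ
  rw [eth] at k1
  rcases le_or_gt (4 * ρ * s) t with h1 | h1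
  · have k2 := fu_t_mono (c := 48 / 100) (σ := -(1 / 2) + s) (η := 4 * ρ * s) (by norm_num)
      (by norm_num) (by linarith only [htT, hT, hs', hη, h1]) (by linarith only [hs]) hη h1 htT
    rcases le_total s (1 / 10) with h2 | h2
    · have k3 := fu_x_anti (a := 27 / 100) (b := 48 / 100) (t := T) (σ := -(1 / 2) + s) (ρ := ρ) le_rfl
        (by norm_num) (by norm_num) hT0 hT hρ hρ' hσ
      rw [eth] at k3
      have k4 := fu_x_anti_small (a := 105 / 1000) (b := 27 / 100) (t := T) (ρ := ρ) (s := s) le_rfl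
        (by norm_num) le_rfl hT0 hT hρ hρ' hs h2
      linarith only [k1, k2, k3, k4]
    · have k3 := RV.r2 hT0 hT (by linarith only [htT, hT, hη, h1, h2]) hs' hρ.le hρ' (h1.trans htT)
      linarith only [k1, k2, k3]
  · have k2 := fu_t_anti (c := 48 / 100) (σ := -(1 / 2) + s) (η := 4 * ρ * s) (a := 0) (by norm_num)
      (by norm_num) (by linarith only [hρ, hρ', hs']) (by linarith only [hs]) le_rfl ht0 h1.le
    have k3 : fu (48 / 100) 0 (-(1 / 2) + s) (4 * ρ * s) <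
        fu (105 / 1000) T (-(1 / 2) + s) (4 * ρ * s) := by
      rcases le_total (116 / 1000) s with h2 | h2
      · exact RV.r1 hT0 hT h2 hs' hρ.le hρ'
      · rcases hc with hc | hc | hc | hc
        · exact absurd h1 (not_lt.2 hc)
        · exact RV.r1 hT0 hT hc hs' hρ.le hρ'
        · exact r1s hT0 hs hc.1 hρ.le hc.2
        · exact r1m hT0 hT hc.1 h2 hρ.le hc.2
    linarith only [k1, k2, k3]

end Pool.Agent.Work.MP_b30479_gtS.G2

end
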