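import Pool.Agent.Work.MP_b30479_gt.TBS.G2.S0RV3_2

/-!
# Part of `S0RV3`
-/
set_option linter.unusedSimpArgs false
set_option linter.unusedVariables false

namespace Pool.Agent.Work.MP_b30479_gtS.G2

open VOL NumUs

namespace S0R

open NumUs.E EV

theorem zon {x T w b r t : ℝ} (ua1 : 3000 / 10000 ≤ x) (ua2 : x ≤ 3800 / 10000) (ua3 : 0 / 10000 ≤ T) (ua4 : T ≤ 570 / 10000) (ua5 : 700 / 10000 ≤ w) (ua6 : w ≤ 3100 / 10000) (ua7 : -(980 / 10000) ≤ b) (ua8 : b ≤ 570 / 10000) (ua9 : 500 / 10000 ≤ r) (ua10 : r ≤ 2500 / 10000) (ua11 : -(1040 / 10000) ≤ t) (ua12 : t ≤ 50 / 10000) (ua13 : r ≤ x - 1300 / 10000) (ua14 : -(98 / 130) * w ≤ b) (ua15 : T - t ≤ 1000 / 10000) (ua16 : t ≤ rui (10 / 3) x T) :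
    0 < rD (4200 / 10000) (1) x (rui (10 / 3) x T) w b r t := by
  have h : chkT [D 10 3 (q 4200 10000) (1), sub EV.r (sub EV.x (q 1300 10000)), sub (mul (q (-98) 130) EV.w) EV.b, sub (sub EV.T EV.t) (q 1000 10000), sub EV.t (a 10 3)] 40
    569026369522660645454272208877430718871809275526959452798148953129256015466901671958336405737445437298919241640077163543958878403062394702830401099746676248241108371097589238067308589446478803917416740806419639059805620241203349867368384787574217206721815124768202846718014768897151228593077572270352280049326754062061336592306557310062705077440657860804635434597664878120233967965052927594231988571328835762084422511891753273476456406034097258994725881119982958920800167067953363904893862937871533776178429599331245578652842862051574857457984083181223165341501037285314485581699316054783467425461266690678994302586891606624315184942089176332356190612336293141693735855431063478537515664426680415986136044195927505649774369897170167169245895451674348270351172831045935707821225143281545229744553131472685850744334642161725976950429572464512197485915504057528473107643998053476926178596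
    [NumIs.V.of 10000 3000 3800, NumIs.V.of 10000 0 570, NumIs.V.of 10000 700 3100, NumIs.V.of 10000 (-980) 570, NumIs.V.of 10000 500 2500, NumIs.V.of 10000 (-1040) 50] = true :=
      Pool.Agent.Work.NumUs.chkT_of (Pool.Agent.Work.NumUs.runT_split rfl rfl rfl
        (Pool.Agent.Work.NumUs.runT_split rfl rfl rfl
          (Pool.Agent.Work.NumUs.runT_split rfl rfl rfl
            zon_h1_q1
            zon_h1_q2)
          zon_h1_q3)
        (Pool.Agent.Work.NumUs.runT_split rfl rfl rfl
          (Pool.Agent.Work.NumUs.runT_split rfl rfl rfl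
            zon_h1_q4
            zon_h1_q5)
          (Pool.Agent.Work.NumUs.runT_split rfl rfl rfl
            zon_h1_q6
            zon_h1_q7)))
  obtain ⟨f, hf, hp⟩ := chkT_sound h (xs := [x, T, w, b, r, t])
    (List.Forall₂.cons (NumIs.V.of_mem (by norm_num) (by norm_num; linarith only [ua1]) (by norm_num; linarith only [ua2])) (List.Forall₂.cons (NumIs.V.of_mem (by norm_num) (by norm_num; linarith only [ua3]) (by norm_num; linarith only [ua4])) (List.Forall₂.cons (NumIs.V.of_mem (by norm_num) (by norm_num; linarith only [ua5]) (by norm_num; linarith only [ua6])) (List.Forall₂.cons (NumIs.V.of_mem (by norm_num) (by norm_num; linarith only [ua7]) (by norm_num; linarith only [ua8])) (List.Forall₂.cons (NumIs.V.of_mem (by norm_num) (by norm_num; linarith only [ua9]) (by norm_num; linarith only [ua10])) (List.Forall₂.cons (NumIs.V.of_mem (by norm_num) (by norm_num; linarith only [ua3, ua15]) (by norm_num; linarith only [ua12])) List.Forall₂.nil))))))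
  by_contra hc
  push Not at hc
  simp only [List.mem_cons, List.not_mem_nil, or_false] at hf
  rcases hf with rfl | rfl | rfl | rfl | rfl
  · simp only [D_val, R_val, h_val, EE.ui_val, EV.a, EV.x, EV.T, EV.w, EV.b, EV.r, EV.t, E.val, NumIs.lkR] at hp
    push_cast at hp
    linarith only [hc, hp]
  · simp only [D_val, R_val, h_val, EE.ui_val, EV.a, EV.x, EV.T, EV.w, EV.b, EV.r, EV.t, E.val, NumIs.lkR] at hp
    push_cast at hp
    linarith only [ua13, hp]
  · simp only [D_val, R_val, h_val, EE.ui_val, EV.a, EV.x, EV.T, EV.w, EV.b, EV.r, EV.t, E.val, NumIs.lkR] at hp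
    push_cast at hp
    linarith only [ua14, hp]
  · simp only [D_val, R_val, h_val, EE.ui_val, EV.a, EV.x, EV.T, EV.w, EV.b, EV.r, EV.t, E.val, NumIs.lkR] at hp
    push_cast at hp
    linarith only [ua15, hp]
  · simp only [D_val, R_val, h_val, EE.ui_val, EV.a, EV.x, EV.T, EV.w, EV.b, EV.r, EV.t, E.val, NumIs.lkR] at hp
    push_cast at hp
    linarith only [ua16, hp]

end S0R

end Pool.Agent.Work.MP_b30479_gtS.G2
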