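import Mathlib
import Pool.Agent.Work.MP_b30479_gt.TBS.G2.SWordA
import Pool.Agent.Work.MP_b30479_gt.TBS.G2.SKapTwo

section

/-!
# Positivity of the inner letters of a ring

`φ_s = x + α s + i (y - β s)`, `u = α - i β`; `a_s = arg sin φ_s`, `ψ₁ = arctan (tanh β / tan α)`
(`arg sin u = -ψ₁`), `ψ₂ = arctan (tan α tanh β)` (`arg cos u = ψ₂`), so that
`arg Fm φ_l u = a_l + a_{l+1} + 2 ψ₁ - ψ₂`.

Proof.  `a_s = arctan (cot x_s tanh y_s)` for `0 < x_s < π`.
(Upper bound) `a_s ≤ max (a_1, a_{a-1}, 0)`: on `y_s ≥ 0, x_s ≤ π/2` it is decreasing in `s`, on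
`y_s ≤ 0, x_s ≥ π/2` increasing, elsewhere `≤ 0`.
(Lower bound) `-a_s < ψ₁ - ψ₂/2`: only for `y_s > 0, x_s > π/2` (or both `<`, by symmetry); let
`r > 0` with `y_s = β r`, `δ = |xc - π/2|` with `xc` the value of `x_s` where `y_s = 0`; then
`|cot x_s| = tan (δ - α r) ≤ (δ - α r) / cos (4/5)`, `tanh (β r) ≤ β r ≤ 1.18 r tanh β`, whereas
`tan (ψ₁ - ψ₂/2) ≥ tanh β (cot α - tan α / 2) / (1 + tanh² β / 2)`.
At an end (`φ_a = π`): `cot (α r) tanh (β r) ≤ cot (2 α) tanh (2 β)
= tanh β (cot α - tan α) / (1 + tanh² β)` for `r ≥ 2`.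
-/

namespace Pool.Agent.Work.MP_b30479_gtS.G2

/-- the invariant of a letter: its shape is `1 - 2 / Fm` -/
noncomputable def Fm (φ u : ℂ) : ℂ :=
  Complex.sin φ * Complex.sin (φ + u) / (Complex.sin u ^ 2 * Complex.cos u)

lemma shape_im_pos {φ u : ℂ} (h : 0 < (Fm φ u).im) :
    0 < (1 - 2 * Complex.sin u ^ 2 * Complex.cos u /
      (Complex.sin φ * Complex.sin (φ + u))).im := by
  have h1 : 2 * Complex.sin u ^ 2 * Complex.cos u / (Complex.sin φ * Complex.sin (φ + u)) =
      2 * (Fm φ u)⁻¹ := by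
    unfold Fm
    rw [inv_div]
    ring
  rw [h1, Complex.sub_im, Complex.one_im, Complex.mul_im, Complex.inv_im, Complex.inv_re]
  have h2 : Fm φ u ≠ 0 := by
    intro h0
    rw [h0] at h
    simp at h
  have h3 : 0 < Complex.normSq (Fm φ u) := Complex.normSq_pos.2 h2
  have h4 : (2 : ℂ).re = 2 := rfl
  have h5 : (2 : ℂ).im = 0 := rfl
  rw [h4, h5, neg_div]
  have h6 : 0 < (Fm φ u).im / Complex.normSq (Fm φ u) := div_pos h h3
  linarith only [h6]

/-- a phase -/
noncomputable def ph4 (α β x y s : ℝ) : ℂ := ((x + α * s : ℝ) : ℂ) + ((y - β * s : ℝ) : ℂ) * Complex.I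

/-! ### Arguments -/

lemma rp_arg_arctan {z : ℂ} (h : 0 < z.re) : z.arg = Real.arctan (z.im / z.re) := by
  symm
  refine Real.arctan_eq_of_tan_eq (Complex.tan_arg z) ?_
  have := Complex.abs_arg_lt_pi_div_two_iff.2 (Or.inl h)
  rw [abs_lt] at this
  exact ⟨this.1, this.2⟩

lemma rp_sin_re (x y : ℝ) : (Complex.sin ((x : ℂ) + (y : ℂ) * Complex.I)).re =
    Real.sin x * Real.cosh y := by
  rw [Complex.sin_add_mul_I, ← Complex.ofReal_sin, ← Complex.ofReal_cos, ← Complex.ofReal_cosh,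
    ← Complex.ofReal_sinh, ← Complex.ofReal_mul, ← Complex.ofReal_mul]
  simp only [Complex.add_re, Complex.mul_re, Complex.ofReal_re, Complex.ofReal_im,
    Complex.I_re, Complex.I_im]
  ring

lemma rp_sin_im (x y : ℝ) : (Complex.sin ((x : ℂ) + (y : ℂ) * Complex.I)).im =
    Real.cos x * Real.sinh y := by
  rw [Complex.sin_add_mul_I, ← Complex.ofReal_sin, ← Complex.ofReal_cos, ← Complex.ofReal_cosh,
    ← Complex.ofReal_sinh, ← Complex.ofReal_mul, ← Complex.ofReal_mul]
  simp only [Complex.ofReal_re, Complex.ofReal_im,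
    Complex.add_im, Complex.mul_im, Complex.I_re, Complex.I_im]
  ring

lemma rp_cos_re (x y : ℝ) : (Complex.cos ((x : ℂ) + (y : ℂ) * Complex.I)).re =
    Real.cos x * Real.cosh y := by
  rw [Complex.cos_add_mul_I, ← Complex.ofReal_sin, ← Complex.ofReal_cos, ← Complex.ofReal_cosh,
    ← Complex.ofReal_sinh, ← Complex.ofReal_mul, ← Complex.ofReal_mul]
  simp only [Complex.sub_re, Complex.mul_re, Complex.ofReal_re, Complex.ofReal_im,
    Complex.I_re, Complex.I_im]
  ring

lemma rp_cos_im (x y : ℝ) : (Complex.cos ((x : ℂ) + (y : ℂ) * Complex.I)).im =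
    - (Real.sin x * Real.sinh y) := by
  rw [Complex.cos_add_mul_I, ← Complex.ofReal_sin, ← Complex.ofReal_cos, ← Complex.ofReal_cosh,
    ← Complex.ofReal_sinh, ← Complex.ofReal_mul, ← Complex.ofReal_mul]
  simp only [Complex.ofReal_re, Complex.ofReal_im,
    Complex.sub_im, Complex.mul_im, Complex.I_re, Complex.I_im]
  ring

/-- `cot x tanh y` -/
noncomputable def rpc (x y : ℝ) : ℝ := Real.cos x / Real.sin x * Real.tanh y

lemma rp_arg_sin {x : ℝ} (y : ℝ) (h0 : 0 < x) (h1 : x < Real.pi) :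
    (Complex.sin ((x : ℂ) + (y : ℂ) * Complex.I)).arg = Real.arctan (rpc x y) := by
  have hs := Real.sin_pos_of_pos_of_lt_pi h0 h1
  have hc := Real.cosh_pos y
  rw [rp_arg_arctan (by rw [rp_sin_re]; positivity), rp_sin_re, rp_sin_im, rpc,
    Real.tanh_eq_sinh_div_cosh]
  congr 1
  field_simp

lemma rp_sin_ne {x : ℝ} (y : ℝ) (h0 : 0 < x) (h1 : x < Real.pi) :
    Complex.sin ((x : ℂ) + (y : ℂ) * Complex.I) ≠ 0 := by
  have hs := Real.sin_pos_of_pos_of_lt_pi h0 h1
  have hc := Real.cosh_pos y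
  intro h
  have := rp_sin_re x y
  rw [h, Complex.zero_re] at this
  have h2 : 0 < Real.sin x * Real.cosh y := by positivity
  linarith only [this, h2]

/-- positivity of the imaginary part from the arguments -/
lemma rp_im_pos {α β : ℝ} (hα : 0 < α) (hα2 : α < Real.pi / 2) {x₁ y₁ x₂ y₂ : ℝ}
    (h1 : 0 < x₁) (h1' : x₁ < Real.pi) (h2 : 0 < x₂) (h2' : x₂ < Real.pi)
    (hx : x₂ = x₁ + α) (hy : y₂ = y₁ - β)
    (hlo : 0 < Real.arctan (rpc x₁ y₁) + Real.arctan (rpc x₂ y₂) +
      2 * Real.arctan (Real.tanh β / Real.tan α) - Real.arctan (Real.tan α * Real.tanh β))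
    (hhi : Real.arctan (rpc x₁ y₁) + Real.arctan (rpc x₂ y₂) +
      2 * Real.arctan (Real.tanh β / Real.tan α) - Real.arctan (Real.tan α * Real.tanh β) <
        Real.pi) :
    0 < (Fm ((x₁ : ℂ) + (y₁ : ℂ) * Complex.I) (α - β * Complex.I)).im := by
  have hpi := Real.pi_pos
  have hsα := Real.sin_pos_of_pos_of_lt_pi hα (by linarith only [hα, hα2])
  have hcα := Real.cos_pos_of_mem_Ioo ⟨by linarith only [hα, hα2], hα2⟩
  have hu : (α : ℂ) - β * Complex.I = (α : ℂ) + ((-β : ℝ) : ℂ) * Complex.I := by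
    push_cast; ring
  have hsum : ((x₁ : ℂ) + (y₁ : ℂ) * Complex.I) + (α - β * Complex.I) =
      (x₂ : ℂ) + (y₂ : ℂ) * Complex.I := by
    rw [hx, hy]; push_cast; ring
  set A := Complex.sin ((x₁ : ℂ) + (y₁ : ℂ) * Complex.I) with hA
  set B := Complex.sin ((x₂ : ℂ) + (y₂ : ℂ) * Complex.I) with hB
  set S := Complex.sin ((α : ℂ) + ((-β : ℝ) : ℂ) * Complex.I) with hS
  set C := Complex.cos ((α : ℂ) + ((-β : ℝ) : ℂ) * Complex.I) with hC
  have hFm : Fm ((x₁ : ℂ) + (y₁ : ℂ) * Complex.I) (α - β * Complex.I) = A * B / (S ^ 2 * C) := by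
    unfold Fm
    rw [hsum, hu]
  have hA0 : A ≠ 0 := rp_sin_ne _ h1 h1'
  have hB0 : B ≠ 0 := rp_sin_ne _ h2 h2'
  have hS0 : S ≠ 0 := rp_sin_ne _ hα (by linarith only [hα, hα2])
  have hCre : 0 < C.re := by
    rw [hC, rp_cos_re]
    have := Real.cosh_pos (-β)
    positivity
  have hC0 : C ≠ 0 := by
    intro h
    rw [h, Complex.zero_re] at hCre
    exact lt_irrefl _ hCre
  have argA : A.arg = Real.arctan (rpc x₁ y₁) := rp_arg_sin _ h1 h1'
  have argB : B.arg = Real.arctan (rpc x₂ y₂) := rp_arg_sin _ h2 h2'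
  have argS : S.arg = - Real.arctan (Real.tanh β / Real.tan α) := by
    rw [hS, rp_arg_sin _ hα (by linarith only [hα, hα2]), rpc, Real.tanh_neg, ← Real.arctan_neg,
      Real.tan_eq_sin_div_cos]
    congr 1
    field_simp
  have argC : C.arg = Real.arctan (Real.tan α * Real.tanh β) := by
    have hch := Real.cosh_pos β
    rw [rp_arg_arctan hCre, hC, rp_cos_re, rp_cos_im, Real.sinh_neg, Real.cosh_neg,
      Real.tanh_eq_sinh_div_cosh, Real.tan_eq_sin_div_cos]
    congr 1
    field_simp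
  set θ := Real.arctan (rpc x₁ y₁) + Real.arctan (rpc x₂ y₂) +
      2 * Real.arctan (Real.tanh β / Real.tan α) - Real.arctan (Real.tan α * Real.tanh β) with hθ
  have key : A * B / (S ^ 2 * C) = ((‖A‖ * ‖B‖ / (‖S‖ ^ 2 * ‖C‖) : ℝ) : ℂ) *
      Complex.exp ((θ : ℝ) * Complex.I) := by
    have eA := Complex.norm_mul_exp_arg_mul_I A
    have eB := Complex.norm_mul_exp_arg_mul_I B
    have eS := Complex.norm_mul_exp_arg_mul_I S
    have eC := Complex.norm_mul_exp_arg_mul_I C
    have hexp : Complex.exp ((θ : ℝ) * Complex.I) = Complex.exp (A.arg * Complex.I) *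
        Complex.exp (B.arg * Complex.I) / (Complex.exp (S.arg * Complex.I) ^ 2 *
        Complex.exp (C.arg * Complex.I)) := by
      rw [← Complex.exp_add, ← Complex.exp_nat_mul, ← Complex.exp_add, ← Complex.exp_sub]
      congr 1
      rw [argA, argB, argS, argC, hθ]
      push_cast
      ring
    rw [hexp]
    conv_lhs => rw [← eA, ← eB, ← eS, ← eC]
    have n1 : (‖S‖ : ℂ) ≠ 0 := by exact_mod_cast (norm_ne_zero_iff.2 hS0)
    have n2 : (‖C‖ : ℂ) ≠ 0 := by exact_mod_cast (norm_ne_zero_iff.2 hC0)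
    have n3 := Complex.exp_ne_zero (S.arg * Complex.I)
    have n4 := Complex.exp_ne_zero (C.arg * Complex.I)
    push_cast
    field_simp
  rw [hFm, key, Complex.im_ofReal_mul, Complex.exp_ofReal_mul_I_im]
  have nA : 0 < ‖A‖ := norm_pos_iff.2 hA0
  have nB : 0 < ‖B‖ := norm_pos_iff.2 hB0
  have nS : 0 < ‖S‖ := norm_pos_iff.2 hS0
  have nC : 0 < ‖C‖ := norm_pos_iff.2 hC0
  have := Real.sin_pos_of_pos_of_lt_pi hlo hhi
  positivity

/-! ### Real inequalities -/

lemma rp_cos_ge : (0.6928 : ℝ) ≤ Real.cos (4 / 5) := by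
  have h := Real.one_sub_sq_div_two_le_cos (x := 2 / 5)
  have h2 : Real.cos (4 / 5) = 2 * Real.cos (2 / 5) ^ 2 - 1 := by
    rw [← Real.cos_two_mul]; norm_num
  rw [h2]
  nlinarith only [h]

/-- bounds for `tan α` -/
lemma rp_tan_bds {α : ℝ} (hα : 0 < α) (hα2 : α ≤ 4 / 5) :
    0 < Real.tan α ∧ Real.tan α ^ 2 ≤ 1.0835 ∧ Real.tan α ≤ α / 0.6928 ∧ 0.6928 ≤ Real.cos α := by
  have hpi := Real.pi_gt_three
  have hc : 0.6928 ≤ Real.cos α := rp_cos_ge.trans
    (Real.cos_le_cos_of_nonneg_of_le_pi hα.le (by linarith only [hα, hα2, hpi]) hα2)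
  have hs := Real.sin_pos_of_pos_of_lt_pi hα (by linarith only [hα, hα2, hpi])
  have hc0 : 0 < Real.cos α := by linarith only [hα, hα2, hc]
  have hsq := Real.sin_sq_add_cos_sq α
  refine ⟨?_, ?_, ?_, hc⟩
  · rw [Real.tan_eq_sin_div_cos]; positivity
  · rw [Real.tan_eq_sin_div_cos, div_pow, div_le_iff₀ (by positivity)]
    nlinarith only [hc, hsq]
  · rw [Real.tan_eq_sin_div_cos, div_le_div_iff₀ hc0 (by norm_num)]
    have := (Real.sin_lt hα).le
    nlinarith only [this, hα, hc]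

/-- `z` below `4/5`: `tan z ≤ z / cos (4/5)` -/
lemma rp_tan_le {z : ℝ} (h0 : 0 < z) (h1 : z ≤ 4 / 5) : Real.tan z ≤ z / 0.6928 :=
  (rp_tan_bds h0 h1).2.2.1

lemma rp_beta_le {β : ℝ} (hβ : 0 < β) {t : ℝ} (ht : t ^ 2 ≤ 1.0835) (ht0 : 0 < t)
    (hh : Real.tanh β ≤ t / 2) : β ≤ 1.18 * Real.tanh β := by
  have hc := Real.cosh_pos β
  have hs : β ≤ Real.sinh β := Real.self_le_sinh_iff.2 hβ.le
  have hs0 : 0 < Real.sinh β := Real.sinh_pos_iff.2 hβ
  have hsq := Real.cosh_sq β
  have h1 : Real.tanh β * Real.cosh β = Real.sinh β := by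
    rw [Real.tanh_eq_sinh_div_cosh]; field_simp
  have hτ : 0 < Real.tanh β := by
    rw [Real.tanh_eq_sinh_div_cosh]; positivity
  have h2 : Real.tanh β ^ 2 ≤ 0.270875 := by nlinarith only [ht, ht0, hh, hτ]
  have h3 : Real.cosh β ≤ 1.18 := by
    by_contra h
    push Not at h
    have h4 : Real.sinh β ^ 2 = Real.tanh β ^ 2 * Real.cosh β ^ 2 := by rw [← h1]; ring
    nlinarith only [hsq, h, h4, h2, hc, sq_nonneg (Real.cosh β)]
  calc β ≤ Real.sinh β := hs
    _ = Real.tanh β * Real.cosh β := h1.symm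
    _ ≤ Real.tanh β * 1.18 := mul_le_mul_of_nonneg_left h3 hτ.le
    _ = _ := by ring

lemma rp_tanh_le {z : ℝ} (hz : 0 ≤ z) : Real.tanh z ≤ z := by
  have hmono : MonotoneOn (fun w : ℝ => w * Real.cosh w - Real.sinh w) (Set.Ici 0) := by
    refine monotoneOn_of_deriv_nonneg (convex_Ici 0) (by fun_prop) (by fun_prop) ?_
    intro w hw
    rw [interior_Ici, Set.mem_Ioi] at hw
    have h1 : HasDerivAt (fun w : ℝ => w * Real.cosh w - Real.sinh w)
        (1 * Real.cosh w + w * Real.sinh w - Real.cosh w) w :=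
      ((hasDerivAt_id w).mul (Real.hasDerivAt_cosh w)).sub (Real.hasDerivAt_sinh w)
    rw [h1.deriv]
    have := Real.sinh_pos_iff.2 hw
    have : 0 < w * Real.sinh w := by positivity
    linarith only [this]
  have h2 := hmono (Set.mem_Ici.2 le_rfl) (Set.mem_Ici.2 hz) hz
  simp only [Real.sinh_zero, zero_mul, sub_zero] at h2
  rw [Real.tanh_eq_sinh_div_cosh, div_le_iff₀ (Real.cosh_pos z)]
  linarith only [h2]

/-- the constant of the lower bound -/
noncomputable def rpK (t τ : ℝ) : ℝ := τ * (1 / t - t / 2) / (1 + τ ^ 2 / 2)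

/-- the inequality for the letters inside -/
lemma rp_inner {α β δ r : ℝ} (hα : 0 < α) (hα2 : α ≤ 4 / 5) (hβ : 0 < β)
    (hh : Real.tanh β ≤ Real.tan α / 2) (hδ : δ ≤ 4 / 5) (hr : 0 < r) (hr2 : α * r < δ) :
    Real.tan (δ - α * r) * Real.tanh (β * r) < rpK (Real.tan α) (Real.tanh β) := by
  obtain ⟨ht0, ht2, ht3, hcα⟩ := rp_tan_bds hα hα2
  have hβ2 := rp_beta_le hβ ht2 ht0 hh
  have hτ0 : 0 < Real.tanh β := by
    have := Real.sinh_pos_iff.2 hβ
    have := Real.cosh_pos β
    rw [Real.tanh_eq_sinh_div_cosh]; positivity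
  set τ := Real.tanh β with hτ
  set t := Real.tan α with ht
  have hτ2 : τ ^ 2 ≤ 0.270875 := by nlinarith only [ht2, hα, hα2, hβ, hh, hβ2, ht0]
  have hz0 : 0 < δ - α * r := by linarith only [hr2]
  have hz1 : δ - α * r ≤ 4 / 5 := by nlinarith only [hδ, hα, hr]
  have htz := rp_tan_le hz0 hz1
  have htz0 := (rp_tan_bds hz0 hz1).1
  have h1 : Real.tanh (β * r) ≤ 1.18 * τ * r := by
    refine (rp_tanh_le (by positivity)).trans ?_
    nlinarith only [hα, hα2, hr, hβ2]
  have h2 : Real.tan (δ - α * r) * Real.tanh (β * r) ≤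
      (δ - α * r) / 0.6928 * (1.18 * τ * r) := by
    refine mul_le_mul htz h1 ?_ (by positivity)
    have h3 : 0 < β * r := by positivity
    have := Real.sinh_pos_iff.2 h3
    have := Real.cosh_pos (β * r)
    rw [Real.tanh_eq_sinh_div_cosh]; positivity
  refine h2.trans_lt ?_
  unfold rpK
  rw [lt_div_iff₀ (by positivity)]
  -- multiply by `α t`
  have h4 : (δ - α * r) * (α * r) ≤ 0.16 := by
    have hw : 0 < α * r := by positivity
    have h6 : (δ - α * r) * (α * r) ≤ (4 / 5 - α * r) * (α * r) :=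
      mul_le_mul_of_nonneg_right (by linarith only [hδ]) hw.le
    nlinarith only [h6, sq_nonneg (α * r - 2 / 5)]
  have h5 : (δ - α * r) / 0.6928 * (1.18 * τ * r) * (1 + τ ^ 2 / 2) * (α * t) <
      τ * (1 / t - t / 2) * (α * t) := by
    have e1 : (δ - α * r) / 0.6928 * (1.18 * τ * r) * (1 + τ ^ 2 / 2) * (α * t) =
        ((δ - α * r) * (α * r)) * (1.18 / 0.6928 * τ * (1 + τ ^ 2 / 2) * t) := by ring
    have e2 : τ * (1 / t - t / 2) * (α * t) = τ * α * (1 - t ^ 2 / 2) := by
      field_simp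
    rw [e1, e2]
    calc ((δ - α * r) * (α * r)) * (1.18 / 0.6928 * τ * (1 + τ ^ 2 / 2) * t)
        ≤ 0.16 * (1.18 / 0.6928 * τ * (1 + τ ^ 2 / 2) * t) :=
          mul_le_mul_of_nonneg_right h4 (by positivity)
      _ ≤ 0.16 * (1.18 / 0.6928 * τ * (1 + τ ^ 2 / 2) * (α / 0.6928)) := by
          gcongr
      _ ≤ 0.16 * (1.18 / 0.6928 * τ * (1 + 0.270875 / 2) * (α / 0.6928)) := by
          gcongr
      _ < τ * α * (1 - 1.0835 / 2) := by
          have h7 : 0 < τ * α := by positivity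
          have h8 : 0.16 * (1.18 / 0.6928 * τ * (1 + 0.270875 / 2) * (α / 0.6928)) =
              τ * α * (0.16 * 1.18 / 0.6928 ^ 2 * (1 + 0.270875 / 2)) := by ring
          rw [h8]
          exact mul_lt_mul_of_pos_left (by norm_num) h7
      _ ≤ τ * α * (1 - t ^ 2 / 2) := by
          gcongr
  exact lt_of_mul_lt_mul_right h5 (by positivity)

/-- the half angle -/
lemma rp_half {t τ : ℝ} (ht : 0 < t) (hτ : 0 < τ) (ht2 : t ^ 2 ≤ 1.0835) (hh : τ ≤ t / 2) {b₁ b₂ : ℝ}
    (h1 : -b₁ < rpK t τ) (h2 : -b₂ < rpK t τ) :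
    0 < Real.arctan b₁ + Real.arctan b₂ + 2 * Real.arctan (τ / t) - Real.arctan (t * τ) := by
  have hK : Real.arctan (rpK t τ) = Real.arctan (τ / t) - Real.arctan (t * τ / 2) := by
    have h3 : τ / t * (-(t * τ / 2)) < 1 := by
      have : τ / t * (-(t * τ / 2)) = -(τ ^ 2 / 2) := by field_simp
      rw [this]
      nlinarith only [sq_nonneg τ]
    have h4 := Real.arctan_add h3
    rw [Real.arctan_neg] at h4
    have h6 : 1 - τ / t * (-(t * τ / 2)) = 1 + τ ^ 2 / 2 := by
      field_simp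
      ring
    have h7 : τ / t + -(t * τ / 2) = τ * (1 / t - t / 2) := by ring
    rw [sub_eq_add_neg, h4, rpK, h6, h7]
  have hx0 : 0 < t * τ := by positivity
  have hx1 : t * τ / 2 < 1 := by nlinarith only [ht2, ht, hh]
  have h5 : Real.arctan (t * τ) ≤ 2 * Real.arctan (t * τ / 2) := by
    rw [Real.two_mul_arctan (by linarith only [hx0]) hx1]
    apply Real.arctan_le_arctan_iff.2
    rw [le_div_iff₀ (by nlinarith only [ht2, ht, hh, hx0, hx1])]
    nlinarith only [hx0, mul_pos hx0 (mul_pos hx0 hx0)]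
  have g1 := Real.arctan_lt_arctan_iff.2 h1
  have g2 := Real.arctan_lt_arctan_iff.2 h2
  rw [Real.arctan_neg, hK] at g1 g2
  linarith only [h5, g1, g2]

/-- the upper bound -/
lemma rp_upper {t τ : ℝ} (ht : 0 < t) (hτ : 0 < τ) {b₁ b₂ : ℝ}
    (h1 : Real.arctan b₁ + Real.arctan (τ / t) < Real.pi / 2)
    (h2 : Real.arctan b₂ + Real.arctan (τ / t) < Real.pi / 2) :
    Real.arctan b₁ + Real.arctan b₂ + 2 * Real.arctan (τ / t) - Real.arctan (t * τ) <
      Real.pi := by
  have : 0 < Real.arctan (t * τ) := Real.arctan_pos.2 (by positivity)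
  linarith only [h1, h2, this]

lemma rp_cot_anti {x x' : ℝ} (h0 : 0 < x) (h1 : x ≤ x') (h2 : x' < Real.pi) :
    Real.cos x' / Real.sin x' ≤ Real.cos x / Real.sin x := by
  have hs := Real.sin_pos_of_pos_of_lt_pi h0 (by linarith only [h1, h2])
  have hs' := Real.sin_pos_of_pos_of_lt_pi (by linarith only [h0, h1] : 0 < x') h2
  rw [div_le_div_iff₀ hs' hs]
  have h3 : 0 ≤ Real.sin (x' - x) :=
    Real.sin_nonneg_of_nonneg_of_le_pi (by linarith only [h1]) (by linarith only [h0, h2])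
  rw [Real.sin_sub] at h3
  linarith only [h3]

lemma rp_tanh_mono {y y' : ℝ} (h : y ≤ y') : Real.tanh y ≤ Real.tanh y' := by
  rw [Real.tanh_eq_sinh_div_cosh, Real.tanh_eq_sinh_div_cosh,
    div_le_div_iff₀ (Real.cosh_pos _) (Real.cosh_pos _)]
  have h3 : 0 ≤ Real.sinh (y' - y) := Real.sinh_nonneg_iff.2 (by linarith only [h])
  rw [Real.sinh_sub] at h3
  linarith only [h3]

lemma rp_tanh_nonneg {y : ℝ} (h : 0 ≤ y) : 0 ≤ Real.tanh y := by
  have := rp_tanh_mono h
  rwa [Real.tanh_zero] at this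

/-- `rpc x y ≤ max (rpc x₁ y₁) (max (rpc x₂ y₂) 0)` -/
lemma rpc_le {x₁ x x₂ y₁ y y₂ : ℝ} (h0 : 0 < x₁) (h1 : x₁ ≤ x) (h2 : x ≤ x₂) (h3 : x₂ < Real.pi)
    (hy1 : y ≤ y₁) (hy2 : y₂ ≤ y) : rpc x y ≤ rpc x₁ y₁ ∨ rpc x y ≤ rpc x₂ y₂ ∨ rpc x y ≤ 0 := by
  have hpi := Real.pi_pos
  have c1 := rp_cot_anti h0 h1 (by linarith only [h2, h3])
  have c2 := rp_cot_anti (by linarith only [h0, h1] : 0 < x) h2 h3
  have hs := Real.sin_pos_of_pos_of_lt_pi (by linarith only [h0, h1] : 0 < x) (by linarith only [h2, h3])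
  have t1 := rp_tanh_mono hy1
  have t2 := rp_tanh_mono hy2
  unfold rpc
  rcases le_total 0 y with hy | hy
  · have ty := rp_tanh_nonneg hy
    rcases le_total 0 (Real.cos x / Real.sin x) with hc | hc
    · left
      exact mul_le_mul c1 t1 ty (hc.trans c1)
    · right; right
      exact mul_nonpos_of_nonpos_of_nonneg hc ty
  · have ty : Real.tanh y ≤ 0 := by
      have := rp_tanh_mono hy
      rwa [Real.tanh_zero] at this
    rcases le_total 0 (Real.cos x / Real.sin x) with hc | hc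
    · right; right
      exact mul_nonpos_of_nonneg_of_nonpos hc ty
    · right; left
      have := mul_le_mul (neg_le_neg c2) (neg_le_neg t2) (by linarith only [ty] : 0 ≤ -Real.tanh y)
        (by linarith only [c2, hc])
      linarith only [this, neg_mul_neg (Real.cos x / Real.sin x) (Real.tanh y),
        neg_mul_neg (Real.cos x₂ / Real.sin x₂) (Real.tanh y₂)]

/-- the lower bound inside -/
lemma rpc_lower {α β xc r : ℝ} (hα : 0 < α) (hα2 : α ≤ 4 / 5) (hβ : 0 < β)
    (hh : Real.tanh β ≤ Real.tan α / 2) (hc : |xc - Real.pi / 2| ≤ 4 / 5)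
    (h0 : 0 < xc - α * r) (h1 : xc - α * r < Real.pi) :
    -rpc (xc - α * r) (β * r) < rpK (Real.tan α) (Real.tanh β) := by
  obtain ⟨ht0, ht2, ht3, hcα⟩ := rp_tan_bds hα hα2
  have hτ0 : 0 < Real.tanh β := by
    have := Real.sinh_pos_iff.2 hβ
    have := Real.cosh_pos β
    rw [Real.tanh_eq_sinh_div_cosh]; positivity
  have hK : 0 < rpK (Real.tan α) (Real.tanh β) := by
    unfold rpK
    have : 0 < 1 / Real.tan α - Real.tan α / 2 := by
      rw [sub_pos, div_lt_div_iff₀ (by norm_num) ht0]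
      nlinarith only [hα, hα2, ht2]
    positivity
  have hs := Real.sin_pos_of_pos_of_lt_pi h0 h1
  rw [abs_le] at hc
  have hcot : ∀ z : ℝ, Real.cos (Real.pi / 2 + z) / Real.sin (Real.pi / 2 + z) = -Real.tan z := by
    intro z
    rw [Real.tan_eq_sin_div_cos, add_comm, Real.cos_add_pi_div_two, Real.sin_add_pi_div_two]
    ring
  have e1 : xc - α * r = Real.pi / 2 + (xc - Real.pi / 2 - α * r) := by ring
  have e2 : rpc (xc - α * r) (β * r) =
      -Real.tan (xc - Real.pi / 2 - α * r) * Real.tanh (β * r) := by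
    unfold rpc
    rw [e1, hcot]
  rw [e2]
  rcases lt_trichotomy r 0 with hr | hr | hr
  · by_cases h2 : α * (-r) < Real.pi / 2 - xc
    · have := rp_inner hα hα2 hβ hh (by linarith only [hc] : Real.pi / 2 - xc ≤ 4 / 5)
        (by linarith only [hr] : 0 < -r) h2
      have e3 : Real.pi / 2 - xc - α * -r = -(xc - Real.pi / 2 - α * r) := by ring
      have e4 : β * -r = -(β * r) := by ring
      rw [e3, e4, Real.tan_neg, Real.tanh_neg] at this
      linarith only [this]
    · push Not at h2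
      have h3 : 0 ≤ Real.tan (xc - Real.pi / 2 - α * r) := by
        apply Real.tan_nonneg_of_nonneg_of_le_pi_div_two
        · linarith only [h2]
        · linarith only [h1]
      have h4 : Real.tanh (β * r) ≤ 0 := by
        have := rp_tanh_mono (by nlinarith only [hα, hα2, hβ, hr] : β * r ≤ 0)
        rwa [Real.tanh_zero] at this
      nlinarith only [hα, hK, hα2, h3, h4]
  · rw [hr]
    simp only [mul_zero, Real.tanh_zero, neg_zero]
    exact hK
  · by_cases h2 : α * r < xc - Real.pi / 2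
    · have := rp_inner hα hα2 hβ hh (by linarith only [hc] : xc - Real.pi / 2 ≤ 4 / 5) hr h2
      linarith only [this]
    · push Not at h2
      have h3 : Real.tan (xc - Real.pi / 2 - α * r) ≤ 0 := by
        have := Real.tan_nonneg_of_nonneg_of_le_pi_div_two
          (by linarith only [h2] : 0 ≤ -(xc - Real.pi / 2 - α * r)) (by linarith only [h0])
        rw [Real.tan_neg] at this
        linarith only [this]
      have h4 : 0 ≤ Real.tanh (β * r) := rp_tanh_nonneg (by positivity)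
      nlinarith only [hα, hK, hα2, h3, h4]

lemma rp_tau_pos {β : ℝ} (hβ : 0 < β) : 0 < Real.tanh β := by
  have := Real.sinh_pos_iff.2 hβ
  have := Real.cosh_pos β
  rw [Real.tanh_eq_sinh_div_cosh]; positivity

theorem mid_pos {α β x y : ℝ} {a l : ℕ} (hα : 0 < α) (hα2 : α ≤ 4 / 5) (hβ : 0 < β)
    (hh : Real.tanh β ≤ Real.tan α / 2) (h1 : 0 < x + α) (h2 : x + α * (a - 1) < Real.pi)
    (hc : |x + α * (y / β) - Real.pi / 2| ≤ 4 / 5)
    (hA : (Complex.sin (ph4 α β x y 1)).arg + Real.arctan (Real.tanh β / Real.tan α) < Real.pi / 2)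
    (hB : (Complex.sin (ph4 α β x y (a - 1))).arg + Real.arctan (Real.tanh β / Real.tan α) <
      Real.pi / 2) (hl : 1 ≤ l) (hl2 : l + 2 ≤ a) :
    0 < (Fm (ph4 α β x y l) (α - β * Complex.I)).im := by
  have hpi := Real.pi_gt_three
  obtain ⟨ht0, ht2, ht3, hcα⟩ := rp_tan_bds hα hα2
  have hτ0 := rp_tau_pos hβ
  have hl' : (1 : ℝ) ≤ l := by exact_mod_cast hl
  have hl2' : (l : ℝ) + 2 ≤ a := by exact_mod_cast hl2
  have hup : ∀ s : ℝ, 1 ≤ s → s ≤ a - 1 →
      Real.arctan (rpc (x + α * s) (y - β * s)) + Real.arctan (Real.tanh β / Real.tan α) <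
        Real.pi / 2 := by
    intro s hs1 hs2
    have g1 : x + α * 1 ≤ x + α * s := by nlinarith only [hα, hs1]
    have g2 : x + α * s ≤ x + α * (a - 1) := by nlinarith only [hα, hs2]
    rw [ph4, rp_arg_sin _ (by linarith only [h1]) (by linarith only [h2, g1, g2])] at hA
    rw [ph4, rp_arg_sin _ (by linarith only [h1, g1, g2]) h2] at hB
    rcases rpc_le (by linarith only [h1] : 0 < x + α * 1) g1 g2 h2
      (by nlinarith only [hα, hα2, hβ, hs1] : y - β * s ≤ y - β * 1) (by nlinarith only [hα, hα2, hβ, hs2] : y - β * (a - 1) ≤ y - β * s)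
      with h | h | h
    · have := Real.arctan_le_arctan_iff.2 h
      linarith only [hA, this]
    · have := Real.arctan_le_arctan_iff.2 h
      linarith only [hB, this]
    · have := Real.arctan_le_arctan_iff.2 h
      rw [Real.arctan_zero] at this
      have := Real.arctan_lt_pi_div_two (Real.tanh β / Real.tan α)
      linarith
  have hlow : ∀ s : ℝ, 1 ≤ s → s ≤ a - 1 →
      -rpc (x + α * s) (y - β * s) < rpK (Real.tan α) (Real.tanh β) := by
    intro s hs1 hs2
    have g1 : x + α * 1 ≤ x + α * s := by nlinarith only [hα, hs1]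
    have g2 : x + α * s ≤ x + α * (a - 1) := by nlinarith only [hα, hs2]
    have e1 : x + α * s = x + α * (y / β) - α * (y / β - s) := by ring
    have e2 : y - β * s = β * (y / β - s) := by field_simp
    rw [e1, e2]
    apply rpc_lower hα hα2 hβ hh hc
    · rw [← e1]; linarith only [h1, g1]
    · rw [← e1]; linarith only [h2, g2]
  have g1 : x + α * 1 ≤ x + α * (l : ℝ) := by nlinarith only [hα, hl']
  have g2 : x + α * ((l : ℝ) + 1) ≤ x + α * (a - 1) := by nlinarith only [hα, hl2']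
  have g3 : x + α * (l : ℝ) < x + α * ((l : ℝ) + 1) := by nlinarith only [hα]
  rw [ph4]
  refine rp_im_pos (x₂ := x + α * ((l : ℝ) + 1)) (y₂ := y - β * ((l : ℝ) + 1)) hα (by linarith only [hα, hα2, hpi])
    (by linarith only [h1, g1]) (by linarith only [hα, h2, g2]) (by linarith only [hα, h1, g1]) (by linarith only [h2, g2]) (by ring) (by ring) ?_ ?_
  · have ht2' : Real.tan α ^ 2 ≤ 1.0835 := ht2
    exact rp_half ht0 hτ0 ht2' hh (hlow _ hl' (by linarith only [hα, hα2, hl2'])) (hlow _ (by linarith only [hα, hα2, hl']) (by linarith only [hl2']))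
  · exact rp_upper ht0 hτ0 (hup _ hl' (by linarith only [hα, hα2, hl2'])) (hup _ (by linarith only [hα, hα2, hl']) (by linarith only [hl2']))

lemma rp_concave {w z : ℝ} (hw : 0 < w) (hwz : w ≤ z) : w * Real.tanh z ≤ z * Real.tanh w := by
  have hd : ∀ v : ℝ, HasDerivAt Real.tanh (1 / Real.cosh v ^ 2) v := by
    intro v
    have h1 : Real.tanh = fun v => Real.sinh v / Real.cosh v := by
      funext v; exact Real.tanh_eq_sinh_div_cosh v
    rw [h1]
    have h2 := (Real.hasDerivAt_sinh v).div (Real.hasDerivAt_cosh v) (Real.cosh_pos v).ne'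
    have h3 : Real.cosh v * Real.cosh v - Real.sinh v * Real.sinh v = 1 := by
      have := Real.cosh_sq v
      nlinarith only [this]
    rwa [h3] at h2
  have hcon : ConcaveOn ℝ (Set.Ici 0) Real.tanh := by
    refine AntitoneOn.concaveOn_of_deriv (convex_Ici 0)
      (fun v _ => (hd v).continuousAt.continuousWithinAt)
      (fun v _ => (hd v).differentiableAt.differentiableWithinAt) ?_
    rw [interior_Ici]
    intro v hv v' hv' hvv
    rw [Set.mem_Ioi] at hv hv'
    rw [(hd v).deriv, (hd v').deriv]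
    have h4 : Real.cosh v ≤ Real.cosh v' := by
      rw [Real.cosh_le_cosh, abs_of_pos hv, abs_of_pos hv']
      exact hvv
    have := Real.cosh_pos v
    gcongr
  have hz : 0 < z := by linarith only [hw, hwz]
  have h5 := hcon.2 (Set.mem_Ici.2 hz.le) (Set.mem_Ici.2 le_rfl)
    (by positivity : 0 ≤ w / z) (by rw [sub_nonneg, div_le_one hz]; exact hwz :
      0 ≤ 1 - w / z) (by ring)
  simp only [smul_eq_mul, mul_zero, add_zero, Real.tanh_zero] at h5
  have h6 : w / z * z = w := by field_simp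
  rw [h6] at h5
  have h7 := mul_le_mul_of_nonneg_left h5 hz.le
  have h8 : z * (w / z * Real.tanh z) = w * Real.tanh z := by field_simp
  linarith only [h7, h8]

lemma rp_convex {w z : ℝ} (hw : 0 < w) (hwz : w ≤ z) (hz2 : z < Real.pi / 2) :
    z * Real.tan w ≤ w * Real.tan z := by
  have hpi := Real.pi_pos
  have hcos : ∀ v ∈ Set.Ico (0 : ℝ) (Real.pi / 2), 0 < Real.cos v := fun v hv =>
    Real.cos_pos_of_mem_Ioo ⟨by linarith only [hw, hwz, hz2, hv, hv.1], hv.2⟩
  have hcon : ConvexOn ℝ (Set.Ico 0 (Real.pi / 2)) Real.tan := by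
    refine MonotoneOn.convexOn_of_deriv (convex_Ico _ _)
      (fun v hv => (Real.hasDerivAt_tan (hcos v hv).ne').continuousAt.continuousWithinAt)
      (fun v hv => (Real.hasDerivAt_tan
        (hcos v (interior_subset hv)).ne').differentiableAt.differentiableWithinAt) ?_
    intro v hv v' hv' hvv
    have m1 := hcos v (interior_subset hv)
    have m2 := hcos v' (interior_subset hv')
    rw [(Real.hasDerivAt_tan m1.ne').deriv, (Real.hasDerivAt_tan m2.ne').deriv]
    have h4 : Real.cos v' ≤ Real.cos v := by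
      have i1 := interior_subset hv
      have i2 := interior_subset hv'
      exact Real.cos_le_cos_of_nonneg_of_le_pi i1.1 (by linarith only [hw, hwz, hz2, i2, i2.2]) hvv
    gcongr
  have hz : 0 < z := by linarith only [hw, hwz]
  have h5 := hcon.2 (⟨hz.le, hz2⟩ : z ∈ Set.Ico 0 (Real.pi / 2))
    (⟨le_rfl, by positivity⟩ : (0 : ℝ) ∈ Set.Ico 0 (Real.pi / 2))
    (by positivity : 0 ≤ w / z) (by rw [sub_nonneg, div_le_one hz]; exact hwz :
      0 ≤ 1 - w / z) (by ring)
  simp only [smul_eq_mul, mul_zero, add_zero, Real.tan_zero] at h5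
  have h6 : w / z * z = w := by field_simp
  rw [h6] at h5
  have h7 := mul_le_mul_of_nonneg_left h5 hz.le
  have h8 : z * (w / z * Real.tan z) = w * Real.tan z := by field_simp
  linarith only [h7, h8]

/-- the lower bound at an end -/
lemma rpc_lower_end {α β r : ℝ} (hα : 0 < α) (hα2 : α ≤ 4 / 5) (hβ : 0 < β) (hr : 2 ≤ r)
    (h1 : α * r < Real.pi) :
    -rpc (Real.pi - α * r) (β * r) < rpK (Real.tan α) (Real.tanh β) := by
  obtain ⟨ht0, ht2, ht3, hcα⟩ := rp_tan_bds hα hα2
  have hτ0 := rp_tau_pos hβ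
  have hpi := Real.pi_gt_three
  have hK : 0 < rpK (Real.tan α) (Real.tanh β) := by
    unfold rpK
    have : 0 < 1 / Real.tan α - Real.tan α / 2 := by
      rw [sub_pos, div_lt_div_iff₀ (by norm_num) ht0]
      nlinarith only [hα, hα2, ht2]
    positivity
  have hr0 : 0 < α * r := by positivity
  have hs := Real.sin_pos_of_pos_of_lt_pi hr0 h1
  have hT : 0 < Real.tanh (β * r) := rp_tau_pos (by positivity)
  have e2 : -rpc (Real.pi - α * r) (β * r) =
      Real.cos (α * r) / Real.sin (α * r) * Real.tanh (β * r) := by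
    unfold rpc
    rw [Real.cos_pi_sub, Real.sin_pi_sub]
    ring
  rw [e2]
  rcases lt_or_ge (α * r) (Real.pi / 2) with h2 | h2
  · have hcr : 0 < Real.cos (α * r) := Real.cos_pos_of_mem_Ioo ⟨by linarith only [hα, hα2, hpi, hr0], h2⟩
    have htr : 0 < Real.tan (α * r) := by rw [Real.tan_eq_sin_div_cos]; positivity
    have c1 := rp_concave (by positivity : 0 < β * 2) (by nlinarith only [hα, hα2, hβ, hr] : β * 2 ≤ β * r)
    have c2 := rp_convex (by positivity : 0 < α * 2) (by nlinarith only [hα, hr] : α * 2 ≤ α * r) h2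
    have d1 : 2 * Real.tanh (β * r) ≤ r * Real.tanh (β * 2) := by
      have : β * (2 * Real.tanh (β * r)) ≤ β * (r * Real.tanh (β * 2)) := by
        calc _ = β * 2 * Real.tanh (β * r) := by ring
          _ ≤ _ := c1
          _ = _ := by ring
      exact le_of_mul_le_mul_left this hβ
    have d2 : r * Real.tan (α * 2) ≤ 2 * Real.tan (α * r) := by
      have : α * (r * Real.tan (α * 2)) ≤ α * (2 * Real.tan (α * r)) := by
        calc _ = α * r * Real.tan (α * 2) := by ring
          _ ≤ _ := c2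
          _ = _ := by ring
      exact le_of_mul_le_mul_left this hα
    have hα4 : α * 2 < Real.pi / 2 := by nlinarith only [h2, hα, hr]
    have hc2 : 0 < Real.cos (α * 2) := Real.cos_pos_of_mem_Ioo ⟨by nlinarith only [hα, hα4], hα4⟩
    have hs2 : 0 < Real.sin (α * 2) :=
      Real.sin_pos_of_pos_of_lt_pi (by positivity) (by linarith only [hα, hα4])
    have ht2p : 0 < Real.tan (α * 2) := by rw [Real.tan_eq_sin_div_cos]; positivity
    have e3 : Real.cos (α * r) / Real.sin (α * r) * Real.tanh (β * r) =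
        Real.tanh (β * r) / Real.tan (α * r) := by
      rw [Real.tan_eq_sin_div_cos]; field_simp
    have hT2 : 0 < Real.tanh (β * 2) := rp_tau_pos (by positivity)
    have d3 : Real.tanh (β * r) / Real.tan (α * r) ≤ Real.tanh (β * 2) / Real.tan (α * 2) := by
      rw [div_le_div_iff₀ htr ht2p]
      have : (2 * Real.tanh (β * r)) * (r * Real.tan (α * 2)) ≤
          (r * Real.tanh (β * 2)) * (2 * Real.tan (α * r)) :=
        mul_le_mul d1 d2 (by positivity) (by positivity)
      have h3 : 0 < 2 * r := by positivity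
      refine le_of_mul_le_mul_left ?_ h3
      calc _ = (2 * Real.tanh (β * r)) * (r * Real.tan (α * 2)) := by ring
        _ ≤ _ := this
        _ = _ := by ring
    rw [e3]
    refine d3.trans_lt ?_
    have f1 : Real.tanh (β * 2) = 2 * Real.tanh β / (1 + Real.tanh β ^ 2) := by
      have hch := Real.cosh_pos β
      rw [mul_comm, Real.tanh_eq_sinh_div_cosh, Real.tanh_eq_sinh_div_cosh, Real.sinh_two_mul,
        Real.cosh_two_mul]
      field_simp
    have hca : 0 < Real.cos α := by linarith only [hcα]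
    have f2 : Real.tan (α * 2) = 2 * Real.tan α / (1 - Real.tan α ^ 2) := by
      rw [mul_comm]
      exact Real.tan_two_mul
    have f3 : 0 < 1 - Real.tan α ^ 2 := by
      by_contra h
      push Not at h
      rw [f2] at ht2p
      have : 2 * Real.tan α / (1 - Real.tan α ^ 2) ≤ 0 :=
        div_nonpos_of_nonneg_of_nonpos (by positivity) h
      linarith only [ht2p, this]
    rw [f1, f2]
    unfold rpK
    set t := Real.tan α with ht
    set τ := Real.tanh β with hτ
    have f4 : 2 * τ / (1 + τ ^ 2) / (2 * t / (1 - t ^ 2)) =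
        τ * (1 / t - t) / (1 + τ ^ 2) := by
      field_simp
    rw [f4]
    have f5 : 0 < 1 / t - t := by
      rw [sub_pos, lt_div_iff₀ ht0]
      nlinarith only [f3]
    calc τ * (1 / t - t) / (1 + τ ^ 2) ≤ τ * (1 / t - t) / (1 + τ ^ 2 / 2) := by
          gcongr
          nlinarith only [sq_nonneg τ]
      _ < τ * (1 / t - t / 2) / (1 + τ ^ 2 / 2) := by
          gcongr
          linarith only [ht0]
  · have hcr : Real.cos (α * r) ≤ 0 :=
      Real.cos_nonpos_of_pi_div_two_le_of_le h2 (by linarith only [hα, hα2, h1, hpi])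
    have : Real.cos (α * r) / Real.sin (α * r) * Real.tanh (β * r) ≤ 0 :=
      mul_nonpos_of_nonpos_of_nonneg (div_nonpos_of_nonpos_of_nonneg hcr hs.le) hT.le
    linarith only [hK, this]

theorem mid_pos_end {α β x y : ℝ} {a l : ℕ} (hα : 0 < α) (hα2 : α ≤ 4 / 5) (hβ : 0 < β)
    (hh : Real.tanh β ≤ Real.tan α / 2) (h1 : 0 < x + α) (hx : x + α * a = Real.pi)
    (hy : y = β * a)
    (hA : (Complex.sin (ph4 α β x y 1)).arg + Real.arctan (Real.tanh β / Real.tan α) < Real.pi / 2)
    (hl : 1 ≤ l) (hl2 : l + 3 ≤ a) :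
    0 < (Fm (ph4 α β x y l) (α - β * Complex.I)).im := by
  have hpi := Real.pi_gt_three
  obtain ⟨ht0, ht2, ht3, hcα⟩ := rp_tan_bds hα hα2
  have hτ0 := rp_tau_pos hβ
  have hl' : (1 : ℝ) ≤ l := by exact_mod_cast hl
  have hl2' : (l : ℝ) + 3 ≤ a := by exact_mod_cast hl2
  have hup : ∀ s : ℝ, 1 ≤ s → s ≤ a - 2 →
      Real.arctan (rpc (x + α * s) (y - β * s)) + Real.arctan (Real.tanh β / Real.tan α) <
        Real.pi / 2 := by
    intro s hs1 hs2
    have g1 : x + α * 1 ≤ x + α * s := by nlinarith only [hα, hs1]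
    have g2 : x + α * s ≤ x + α * (a - 1) := by nlinarith only [hα, hα2, hs2]
    have g3 : x + α * (a - 1) < Real.pi := by nlinarith only [hα, hx]
    rw [ph4, rp_arg_sin _ (by linarith only [h1]) (by linarith only [hα, hx, g1, g2])] at hA
    have hψ := Real.arctan_lt_pi_div_two (Real.tanh β / Real.tan α)
    have hT : 0 ≤ Real.tanh (y - β * s) := rp_tanh_nonneg (by rw [hy]; nlinarith only [hα, hβ, hα2, hs2])
    have c1 := rp_cot_anti (by linarith only [h1] : 0 < x + α * 1) g1 (by linarith only [hα, hx, g2])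
    have t1 := rp_tanh_mono (by nlinarith only [hα, hα2, hβ, hs1] : y - β * s ≤ y - β * 1)
    rcases le_total 0 (Real.cos (x + α * s) / Real.sin (x + α * s)) with hc | hc
    · have : rpc (x + α * s) (y - β * s) ≤ rpc (x + α * 1) (y - β * 1) :=
        mul_le_mul c1 t1 hT (hc.trans c1)
      have := Real.arctan_le_arctan_iff.2 this
      linarith only [hA, this]
    · have : rpc (x + α * s) (y - β * s) ≤ 0 := mul_nonpos_of_nonpos_of_nonneg hc hT
      have := Real.arctan_le_arctan_iff.2 this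
      rw [Real.arctan_zero] at this
      linarith only [hψ, this]
  have hlow : ∀ s : ℝ, 1 ≤ s → s ≤ a - 2 →
      -rpc (x + α * s) (y - β * s) < rpK (Real.tan α) (Real.tanh β) := by
    intro s hs1 hs2
    have e1 : x + α * s = Real.pi - α * (a - s) := by rw [← hx]; ring
    have e2 : y - β * s = β * (a - s) := by rw [hy]; ring
    rw [e1, e2]
    apply rpc_lower_end hα hα2 hβ (by linarith only [hs2])
    nlinarith only [h1, hx, hα, hs1]
  have g1 : x + α * 1 ≤ x + α * (l : ℝ) := by nlinarith only [hα, hl']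
  have g2 : x + α * ((l : ℝ) + 1) ≤ x + α * (a - 1) := by nlinarith only [hα, hα2, hl2']
  have g3 : x + α * (l : ℝ) < x + α * ((l : ℝ) + 1) := by nlinarith only [hα]
  have g4 : x + α * (a - 1) < Real.pi := by nlinarith only [hα, hx]
  rw [ph4]
  refine rp_im_pos (x₂ := x + α * ((l : ℝ) + 1)) (y₂ := y - β * ((l : ℝ) + 1)) hα (by linarith only [hα, hα2, hpi])
    (by linarith only [h1, g1]) (by linarith only [hα, hx, g2]) (by linarith only [hα, h1, g1]) (by linarith only [hα, hx, g2]) (by ring) (by ring) ?_ ?_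
  · exact rp_half ht0 hτ0 ht2 hh (hlow _ hl' (by linarith only [hα, hα2, hl2'])) (hlow _ (by linarith only [hα, hα2, hl']) (by linarith only [hl2']))
  · exact rp_upper ht0 hτ0 (hup _ hl' (by linarith only [hα, hα2, hl2'])) (hup _ (by linarith only [hα, hα2, hl']) (by linarith only [hl2']))

end Pool.Agent.Work.MP_b30479_gtS.G2

end

section

/-!
# Positivity of the layers of a ring: real analysis

`φ_l = (x + α l) + i (y - β l)`, `v_l = sin φ_l / sin (α - i β)`.  `Iv`, `Rv`: imaginary and real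
part of `v`, up to the factor `‖sin (α - i β)‖ ^ 2`.  `Port`: what is needed at an end of the path;
the lower bound propagates because `tanh` is subadditive and `tan` superadditive.
-/

namespace Pool.Agent.Work.MP_b30479_gtS.G2

open Real

/-- imaginary part of `v` -/
noncomputable def Iv (α β X Y : ℝ) : ℝ :=
  sin X * cosh Y * (cos α * sinh β) + cos X * sinh Y * (sin α * cosh β)

/-- real part of `v` -/
noncomputable def Rv (α β X Y : ℝ) : ℝ :=
  sin X * cosh Y * (sin α * cosh β) - cos X * sinh Y * (cos α * sinh β)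

/-- an end of the path, from the index `k` on -/
structure Port (α β x y : ℝ) (k : ℕ) : Prop where
  pos : 0 < x + k * α
  lo : ∀ l : ℕ, k ≤ l → x + l * α < π / 2 → 0 < Iv α β (x + l * α) (y - l * β)
  up : ∀ l : ℕ, k ≤ l → x + l * α < π / 2 → 0 < Rv α β (x + l * α) (y - l * β)

lemma Iv_mirror (α β X Y : ℝ) : Iv α β (π - X) (-Y) = Iv α β X Y := by
  unfold Iv
  rw [sin_pi_sub, cos_pi_sub, cosh_neg, sinh_neg]
  ring

lemma Rv_mirror (α β X Y : ℝ) : Rv α β (π - X) (-Y) = Rv α β X Y := by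
  unfold Rv
  rw [sin_pi_sub, cos_pi_sub, cosh_neg, sinh_neg]
  ring

section
variable {α β : ℝ}

lemma sp_tanh_add {a b : ℝ} (ha : 0 < a) (hb : 0 < b) : tanh (a + b) < tanh a + tanh b := by
  have h1 := cosh_pos a
  have h2 := cosh_pos b
  have h3 := sinh_pos_iff.2 ha
  have h4 := sinh_pos_iff.2 hb
  rw [tanh_eq_sinh_div_cosh, tanh_eq_sinh_div_cosh, tanh_eq_sinh_div_cosh, div_add_div _ _ h1.ne' h2.ne',
    div_lt_div_iff₀ (cosh_pos _) (by positivity), sinh_add, cosh_add]
  have h5 : 0 < sinh a * cosh b + cosh a * sinh b := by positivity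
  nlinarith only [h5, h3, h4, mul_pos h5 (mul_pos h3 h4)]

lemma sp_tan_add {a b : ℝ} (ha : 0 ≤ a) (hb : 0 ≤ b) (h : a + b < π / 2) :
    tan a + tan b ≤ tan (a + b) := by
  have hpi := pi_pos
  have h1 : 0 < cos a := cos_pos_of_mem_Ioo ⟨by linarith only [ha, hb, h], by linarith only [hb, h]⟩
  have h2 : 0 < cos b := cos_pos_of_mem_Ioo ⟨by linarith only [ha, hb, h], by linarith only [ha, h]⟩
  have h3 : 0 < cos (a + b) := cos_pos_of_mem_Ioo ⟨by linarith only [ha, hb, h], by linarith only [h]⟩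
  have h4 : 0 ≤ sin a := sin_nonneg_of_nonneg_of_le_pi ha (by linarith only [ha, hb, h])
  have h5 : 0 ≤ sin b := sin_nonneg_of_nonneg_of_le_pi hb (by linarith only [ha, hb, h])
  have h6 : 0 ≤ sin (a + b) := sin_nonneg_of_nonneg_of_le_pi (by linarith only [ha, hb]) (by linarith only [ha, hb, h])
  rw [tan_eq_sin_div_cos, tan_eq_sin_div_cos, tan_eq_sin_div_cos, div_add_div _ _ h1.ne' h2.ne',
    div_le_div_iff₀ (by positivity) h3]
  have h7 : sin a * cos b + cos a * sin b = sin (a + b) := (sin_add a b).symm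
  rw [h7]
  have h8 : cos (a + b) = cos a * cos b - sin a * sin b := cos_add a b
  nlinarith only [h6, h4, h5, h8, mul_nonneg h6 (mul_nonneg h4 h5)]

lemma sp_tanh_le {a b : ℝ} (h : a ≤ b) : tanh a ≤ tanh b := by
  rw [tanh_eq_sinh_div_cosh, tanh_eq_sinh_div_cosh, div_le_div_iff₀ (cosh_pos _) (cosh_pos _)]
  have h3 : 0 ≤ sinh (b - a) := sinh_nonneg_iff.2 (by linarith only [h])
  rw [sinh_sub] at h3
  linarith only [h3]

lemma sp_tan_lt {a b : ℝ} (ha : 0 ≤ a) (hab : a < b) (h : b < π / 2) : tan a < tan b :=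
  tan_lt_tan_of_nonneg_of_lt_pi_div_two ha h hab

variable (hα : 0 < α) (hα2 : α < π / 2) (hβ : 0 < β)
include hα hα2 hβ
set_option linter.unusedSectionVars false

lemma sp_rho : 0 < tanh β / tan α := by
  have h1 : 0 < tan α := tan_pos_of_pos_of_lt_pi_div_two hα hα2
  have h2 : 0 < tanh β := by
    rw [tanh_eq_sinh_div_cosh]
    exact div_pos (sinh_pos_iff.2 hβ) (cosh_pos _)
  positivity

lemma Iv_eq {X : ℝ} (Y : ℝ) (h0 : 0 ≤ X) (h1 : X < π / 2) : Iv α β X Y =
    cos X * cosh Y * (sin α * cosh β) * (tanh β / tan α * tan X + tanh Y) := by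
  have hpi := pi_pos
  have c1 : 0 < cos X := cos_pos_of_mem_Ioo ⟨by linarith only [hα, hα2, h0], h1⟩
  have c2 : 0 < cos α := cos_pos_of_mem_Ioo ⟨by linarith only [hα, hα2], hα2⟩
  have c3 : 0 < sin α := sin_pos_of_pos_of_lt_pi hα (by linarith only [hα, hα2])
  have c4 := cosh_pos β
  have c5 := cosh_pos Y
  rw [Iv, tan_eq_sin_div_cos, tan_eq_sin_div_cos, tanh_eq_sinh_div_cosh, tanh_eq_sinh_div_cosh]
  field_simp

lemma Iv_pos_iff {X Y : ℝ} (h0 : 0 ≤ X) (h1 : X < π / 2) :
    0 < Iv α β X Y ↔ -tanh Y < tanh β / tan α * tan X := by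
  have hpi := pi_pos
  have c1 : 0 < cos X := cos_pos_of_mem_Ioo ⟨by linarith only [hα, hα2, h0], h1⟩
  have c3 : 0 < sin α := sin_pos_of_pos_of_lt_pi hα (by linarith only [hα, hα2])
  have c4 := cosh_pos β
  have c5 := cosh_pos Y
  rw [Iv_eq hα hα2 hβ Y h0 h1, mul_pos_iff_of_pos_left (by positivity)]
  constructor <;> intro h <;> linarith only [h]

lemma Iv_nonneg {X Y : ℝ} (h0 : 0 ≤ X) (h1 : X < π / 2) (h : 0 ≤ Iv α β X Y) :
    -tanh Y ≤ tanh β / tan α * tan X := by
  have hpi := pi_pos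
  have c1 : 0 < cos X := cos_pos_of_mem_Ioo ⟨by linarith only [hα, hα2, h0], h1⟩
  have c3 : 0 < sin α := sin_pos_of_pos_of_lt_pi hα (by linarith only [hα, hα2])
  have c4 := cosh_pos β
  have c5 := cosh_pos Y
  rw [Iv_eq hα hα2 hβ Y h0 h1] at h
  have := nonneg_of_mul_nonneg_right h (by positivity : 0 < cos X * cosh Y * (sin α * cosh β))
  linarith only [this]

/-- one step of the lower bound -/
lemma lo_step {X Y : ℝ} (h0 : 0 < X) (h1 : X + α < π / 2)
    (h : -tanh Y ≤ tanh β / tan α * tan X) :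
    -tanh (Y - β) < tanh β / tan α * tan (X + α) := by
  have hr := sp_rho hα hα2 hβ
  have ht : 0 < tan α := tan_pos_of_pos_of_lt_pi_div_two hα hα2
  have e : -tanh (Y - β) = tanh (β - Y) := by rw [← tanh_neg]; ring_nf
  have e2 : tanh β = tanh β / tan α * tan α := by field_simp
  rw [e]
  rcases le_or_gt 0 Y with hY | hY
  · have h2 := sp_tanh_le (by linarith only [hY] : β - Y ≤ β)
    have h3 := mul_lt_mul_of_pos_left (sp_tan_lt hα.le (by linarith only [h0] : α < X + α) h1) hr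
    linarith only [e2, h2, h3]
  · have h2 := sp_tanh_add (by linarith only [hY] : 0 < -Y) hβ
    have h3 := mul_le_mul_of_nonneg_left (sp_tan_add h0.le hα.le h1) hr.le
    rw [tanh_neg] at h2
    rw [show β - Y = -Y + β by ring]
    rw [mul_add] at h3
    linarith only [h, e2, h2, h3]

/-- the lower bound along the path -/
lemma lo_path {X Y : ℝ} (h0 : 0 < X) (h : X < π / 2 → -tanh Y ≤ tanh β / tan α * tan X) (n : ℕ)
    (h1 : X + (n + 1 : ℕ) * α < π / 2) :
    -tanh (Y - (n + 1 : ℕ) * β) < tanh β / tan α * tan (X + (n + 1 : ℕ) * α) := by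
  induction n with
  | zero =>
    push_cast at h1 ⊢
    rw [one_mul] at h1
    rw [one_mul, one_mul]
    exact lo_step hα hα2 hβ h0 h1 (h (by linarith only [hα, h1]))
  | succ n ih =>
    push_cast at h1 ih ⊢
    have h2 := ih (by nlinarith only [hα, h1])
    have h3 := lo_step hα hα2 hβ (X := X + (n + 1) * α) (Y := Y - (n + 1) * β) (by positivity)
      (by linarith only [h1]) h2.le
    rw [show Y - ((n : ℝ) + 1 + 1) * β = Y - (n + 1) * β - β by ring,
      show X + ((n : ℝ) + 1 + 1) * α = X + (n + 1) * α + α by ring]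
    exact h3

lemma Rv_of_nonpos {X Y : ℝ} (h0 : 0 < X) (h1 : X ≤ π / 2) (hY : Y ≤ 0) : 0 < Rv α β X Y := by
  have hpi := pi_pos
  have c1 : 0 ≤ cos X := cos_nonneg_of_mem_Icc ⟨by linarith only [hα, hα2, h0], h1⟩
  have c2 : 0 < cos α := cos_pos_of_mem_Ioo ⟨by linarith only [hα, hα2], hα2⟩
  have c3 : 0 < sin α := sin_pos_of_pos_of_lt_pi hα (by linarith only [hα, hα2])
  have c4 := cosh_pos β
  have c5 := cosh_pos Y
  have c6 : 0 < sin X := sin_pos_of_pos_of_lt_pi h0 (by linarith only [hα, hα2, h1])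
  have c7 := sinh_pos_iff.2 hβ
  have c8 : 0 ≤ -sinh Y := by
    have := sinh_nonpos_iff.2 hY
    linarith only [this]
  unfold Rv
  have h2 : 0 < sin X * cosh Y * (sin α * cosh β) := by positivity
  have h3 : 0 ≤ cos X * (-sinh Y) * (cos α * sinh β) := by positivity
  linarith only [h2, h3]

lemma Iv_of_nonneg {X Y : ℝ} (h0 : 0 < X) (h1 : X ≤ π / 2) (hY : 0 ≤ Y) : 0 < Iv α β X Y := by
  have hpi := pi_pos
  have c1 : 0 ≤ cos X := cos_nonneg_of_mem_Icc ⟨by linarith only [hα, hα2, h0], h1⟩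
  have c2 : 0 < cos α := cos_pos_of_mem_Ioo ⟨by linarith only [hα, hα2], hα2⟩
  have c3 : 0 < sin α := sin_pos_of_pos_of_lt_pi hα (by linarith only [hα, hα2])
  have c4 := cosh_pos β
  have c5 := cosh_pos Y
  have c6 : 0 < sin X := sin_pos_of_pos_of_lt_pi h0 (by linarith only [hα, hα2, h1])
  have c7 := sinh_pos_iff.2 hβ
  have c8 : 0 ≤ sinh Y := sinh_nonneg_iff.2 hY
  unfold Iv
  positivity

/-- the upper bound is monotone -/
lemma Rv_mono {X X' Y Y' : ℝ} (h0 : 0 < X) (h1 : X ≤ X') (h2 : X' < π / 2) (hY : Y' ≤ Y)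
    (h : 0 ≤ Y → 0 < Rv α β X Y) : 0 < Rv α β X' Y' := by
  rcases le_or_gt Y' 0 with h3 | h3
  · exact Rv_of_nonpos hα hα2 hβ (by linarith only [h0, h1]) h2.le h3
  have hpi := pi_pos
  have c1 : 0 < cos X := cos_pos_of_mem_Ioo ⟨by linarith only [hα, hα2, h0], by linarith only [h1, h2]⟩
  have c1' : 0 < cos X' := cos_pos_of_mem_Ioo ⟨by linarith only [hα, hα2, h0, h1], by linarith only [h2]⟩
  have c2 : 0 < cos α := cos_pos_of_mem_Ioo ⟨by linarith only [hα, hα2], hα2⟩
  have c3 : 0 < sin α := sin_pos_of_pos_of_lt_pi hα (by linarith only [hα, hα2])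
  have c4 := cosh_pos β
  have c5 := cosh_pos Y
  have c5' := cosh_pos Y'
  have c6 : 0 < sin X := sin_pos_of_pos_of_lt_pi h0 (by linarith only [hα, hα2, h1, h2])
  have c6' : 0 < sin X' := sin_pos_of_pos_of_lt_pi (by linarith only [h0, h1]) (by linarith only [hα, hα2, h2])
  have c7 := sinh_pos_iff.2 hβ
  have c8 : 0 < sinh Y' := sinh_pos_iff.2 h3
  have h4 := h (by linarith only [hY, h3])
  unfold Rv at h4 ⊢
  -- `cot X' tanh Y' ≤ cot X tanh Y`
  have a1 : cos X' * sin X ≤ cos X * sin X' := by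
    have : 0 ≤ sin (X' - X) := sin_nonneg_of_nonneg_of_le_pi (by linarith only [h1]) (by linarith only [hα, hα2, h0, h2])
    rw [sin_sub] at this
    linarith only [this]
  have a2 : sinh Y' * cosh Y ≤ sinh Y * cosh Y' := by
    have : 0 ≤ sinh (Y - Y') := sinh_nonneg_iff.2 (by linarith only [hY])
    rw [sinh_sub] at this
    linarith only [this]
  have a3 : (cos X' * sin X) * (sinh Y' * cosh Y) ≤ (cos X * sin X') * (sinh Y * cosh Y') :=
    mul_le_mul a1 a2 (by positivity) (by positivity)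
  have a4 := mul_le_mul_of_nonneg_right a3 (by positivity : 0 ≤ cos α * sinh β)
  have a5 := mul_lt_mul_of_pos_left h4 (by positivity : 0 < sin X' * cosh Y')
  rw [mul_zero] at a5
  have a6 : 0 < (sin X * cosh Y) *
      (sin X' * cosh Y' * (sin α * cosh β) - cos X' * sinh Y' * (cos α * sinh β)) := by
    nlinarith only [a4, a5]
  exact (mul_pos_iff_of_pos_left (by positivity)).1 a6

/-- neighbour of opposite sign -/
theorem portA {x y : ℝ} (hx : 0 < x) (h0 : x < π / 2 → 0 ≤ Iv α β x y)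
    (h1 : 0 < Iv α β (x + α) (y - β) → 0 < Rv α β (x + α) (y - β)) : Port α β x y 1 := by
  have lo : ∀ l : ℕ, 1 ≤ l → x + l * α < π / 2 → 0 < Iv α β (x + l * α) (y - l * β) := by
    intro l hl h2
    obtain ⟨n, rfl⟩ : ∃ n, l = n + 1 := ⟨l - 1, by omega⟩
    rw [Iv_pos_iff hα hα2 hβ (by positivity) h2]
    exact lo_path hα hα2 hβ hx (fun h3 => Iv_nonneg hα hα2 hβ hx.le h3 (h0 h3)) n h2
  refine ⟨by positivity, lo, fun l hl h2 => ?_⟩
  have hl' : (1 : ℝ) ≤ l := by exact_mod_cast hl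
  refine Rv_mono hα hα2 hβ (X := x + α) (Y := y - β) (by positivity) (by nlinarith only [hα, hl']) h2
    (by nlinarith only [hβ, hl']) fun _ => h1 ?_
  have := lo 1 le_rfl (by push_cast; nlinarith only [h2, hα, hl'])
  push_cast at this
  rwa [one_mul, one_mul] at this

/-- neighbour of equal sign -/
theorem portS {x y : ℝ} (hx : 0 < x + α) (h0 : 0 < Iv α β (x + α) (y - β))
    (h1 : 0 < Rv α β (x + α) (y - β)) : Port α β x y 1 := by
  refine ⟨by push_cast; linarith only [hx], fun l hl h2 => ?_, fun l hl h2 => ?_⟩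
  · obtain ⟨n, rfl⟩ : ∃ n, l = n + 1 := ⟨l - 1, by omega⟩
    rcases n with _ | n
    · push_cast
      rw [one_mul, one_mul]
      exact h0
    · have e1 : x + ((n + 1 + 1 : ℕ) : ℝ) * α = x + α + ((n + 1 : ℕ) : ℝ) * α := by push_cast; ring
      have e2 : y - ((n + 1 + 1 : ℕ) : ℝ) * β = y - β - ((n + 1 : ℕ) : ℝ) * β := by push_cast; ring
      rw [e1] at h2 ⊢
      rw [e2, Iv_pos_iff hα hα2 hβ (by positivity) h2]
      exact lo_path hα hα2 hβ hx (fun h3 => Iv_nonneg hα hα2 hβ hx.le h3 h0.le) n h2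
  · have hl' : (1 : ℝ) ≤ l := by exact_mod_cast hl
    exact Rv_mono hα hα2 hβ (X := x + α) (Y := y - β) hx (by nlinarith only [hα, hl']) h2 (by nlinarith only [hβ, hl'])
      fun _ => h1

/-- free end -/
theorem portF : Port α β 0 0 2 := by
  have ht : 0 < tan α := tan_pos_of_pos_of_lt_pi_div_two hα hα2
  refine ⟨by positivity, fun l hl h2 => ?_, fun l hl h2 => ?_⟩
  · obtain ⟨n, rfl⟩ : ∃ n, l = n + 2 := ⟨l - 2, by omega⟩
    have e1 : 0 + ((n + 2 : ℕ) : ℝ) * α = α + ((n + 1 : ℕ) : ℝ) * α := by push_cast; ring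
    have e2 : 0 - ((n + 2 : ℕ) : ℝ) * β = -β - ((n + 1 : ℕ) : ℝ) * β := by push_cast; ring
    rw [e1] at h2 ⊢
    rw [e2, Iv_pos_iff hα hα2 hβ (by positivity) h2]
    refine lo_path hα hα2 hβ hα (fun h3 => ?_) n h2
    rw [tanh_neg, neg_neg]
    exact (div_mul_cancel₀ _ ht.ne').ge
  · have hl' : (2 : ℝ) ≤ l := by exact_mod_cast hl
    exact Rv_of_nonpos hα hα2 hβ (by positivity) h2.le (by nlinarith only [hβ])

/-- **All layers between two ports are positive.** -/
theorem path_pos {x y x' y' : ℝ} {k k' B : ℕ} (h : Port α β x y k) (h' : Port α β x' y' k')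
    (hX : x + x' + B * α = π) (hY : y + y' = B * β) {l : ℕ} (hl : k ≤ l) (hl' : l + k' ≤ B) :
    0 < Iv α β (x + l * α) (y - l * β) ∧ 0 < Rv α β (x + l * α) (y - l * β) := by
  have hpi := pi_pos
  have p1 : 0 < x + l * α := by
    have h1 := h.pos
    have h2 : (k : ℝ) ≤ l := by exact_mod_cast hl
    nlinarith only [h1, hα, h2]
  obtain ⟨m, rfl⟩ : ∃ m, B = l + m := ⟨B - l, by omega⟩
  push_cast at hX hY
  have p2 : 0 < x' + m * α := by
    have h1 := h'.pos
    have h2 : (k' : ℝ) ≤ m := by exact_mod_cast (by omega : k' ≤ m)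
    nlinarith only [h1, hα, h2]
  rcases lt_trichotomy (x + l * α) (π / 2) with h1 | h1 | h1
  · exact ⟨h.lo l hl h1, h.up l hl h1⟩
  · exact ⟨by
      have c2 : 0 < cos α := cos_pos_of_mem_Ioo ⟨by linarith only [hα, hα2], hα2⟩
      have c7 := sinh_pos_iff.2 hβ
      have c5 := cosh_pos (y - l * β)
      rw [h1, Iv, cos_pi_div_two, sin_pi_div_two]
      simp only [one_mul, zero_mul, add_zero]
      positivity, by
      have c3 : 0 < sin α := sin_pos_of_pos_of_lt_pi hα (by linarith only [hα, hα2])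
      have c4 := cosh_pos β
      have c5 := cosh_pos (y - l * β)
      rw [h1, Rv, cos_pi_div_two, sin_pi_div_two]
      simp only [one_mul, zero_mul, sub_zero]
      positivity⟩
  · have e1 : x' + m * α = π - (x + l * α) := by linarith only [hX]
    have e2 : y' - m * β = -(y - l * β) := by linarith only [hY]
    have h2 : x' + m * α < π / 2 := by linarith only [hX, h1]
    have h3 := h'.lo m (by omega) h2
    have h4 := h'.up m (by omega) h2
    rw [e1, e2, Iv_mirror] at h3
    rw [e1, e2, Rv_mirror] at h4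
    exact ⟨h3, h4⟩

end

end Pool.Agent.Work.MP_b30479_gtS.G2

end

section

/-!
# Positivity of the layers of a ring

Own frame (positive twist region): `W = α - i β`, `κ = cos W`, neighbour `K`, `Q = QQ W K`,
`v_l = sin (i Q + l W) / sin W`, `v_0 = i K / κ`, `v_1 = K (R + i)`, the shape of the layer `l` is
`1 - 1 / v_l ^ 2`.
-/

namespace Pool.Agent.Work.MP_b30479_gtS.G2

open Complex

lemma sp_sin_re (W : ℂ) : (Complex.sin W).re = Real.sin W.re * Real.cosh W.im := by
  conv_lhs => rw [← re_add_im W]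
  exact rp_sin_re _ _

lemma sp_sin_im (W : ℂ) : (Complex.sin W).im = Real.cos W.re * Real.sinh W.im := by
  conv_lhs => rw [← re_add_im W]
  exact rp_sin_im _ _

lemma sp_cos_re (W : ℂ) : (Complex.cos W).re = Real.cos W.re * Real.cosh W.im := by
  conv_lhs => rw [← re_add_im W]
  exact rp_cos_re _ _

lemma sp_cos_im (W : ℂ) : (Complex.cos W).im = -(Real.sin W.re * Real.sinh W.im) := by
  conv_lhs => rw [← re_add_im W]
  exact rp_cos_im _ _

/-- the ring `W` with the neighbour `K` -/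
structure OwnP (W K : ℂ) : Prop where
  w0 : 0 < W.re
  w1 : W.re < 3 / 2
  cr : 0 < (Complex.cos W).re
  ci : 0 < (Complex.cos W).im
  k0 : 0 < K.re
  R0 : 0 < (RR W K).re

/-- the layers -/
noncomputable def vv (W K : ℂ) (l : ℕ) : ℂ := Complex.sin (I * QQ W K + l * W) / Complex.sin W

/-- a positive layer -/
def Lp (v : ℂ) : Prop := 0 < (1 - (v ^ 2)⁻¹).im

lemma lp_of {v : ℂ} (h1 : 0 < v.re) (h2 : 0 < v.im) : Lp v := by
  have h3 : 0 < normSq (v ^ 2) := by
    rw [normSq_pos]
    intro h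
    have := pow_eq_zero_iff (two_ne_zero) |>.1 h
    rw [this] at h1
    simp at h1
  unfold Lp
  rw [sub_im, one_im, inv_im, zero_sub, neg_div, neg_neg]
  apply div_pos _ h3
  rw [pow_two, mul_im]
  positivity

section
set_option linter.unusedSectionVars false
variable {W K : ℂ} (h : OwnP W K)
include h

lemma OwnP.w2 : W.re < Real.pi / 2 := by
  have := Real.pi_gt_three
  linarith only [this, h, h.w1]

lemma OwnP.cne : Complex.cos W ≠ 0 := fun h0 => by
  have := h.cr
  rw [h0] at this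
  exact lt_irrefl _ this

lemma OwnP.im_neg : W.im < 0 := by
  have h1 := h.ci
  have e2 := sp_cos_im W
  have h2 : 0 < Real.sin W.re := Real.sin_pos_of_pos_of_lt_pi h.w0 (by linarith only [h, h.w2, Real.pi_pos])
  by_contra hc
  have h3 : 0 ≤ Real.sinh W.im := Real.sinh_nonneg_iff.2 (not_lt.1 hc)
  have h4 := mul_nonneg h2.le h3
  rw [e2] at h1
  linarith only [h1, h4]

lemma OwnP.kne : K ≠ 0 := fun h0 => by
  have := h.k0
  rw [h0] at this
  exact lt_irrefl _ this

lemma OwnP.sne : Complex.sin W ≠ 0 := by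
  intro h0
  have e2 := sp_sin_re W
  have h2 : 0 < Real.sin W.re := Real.sin_pos_of_pos_of_lt_pi h.w0 (by linarith only [h, h.w2, Real.pi_pos])
  have h3 := Real.cosh_pos W.im
  rw [h0, zero_re] at e2
  have : 0 < Real.sin W.re * Real.cosh W.im := by positivity
  linarith only [e2, this]

lemma OwnP.sq : RR W K ^ 2 = Complex.tan W ^ 2 + (K ^ 2)⁻¹ := RR_sq W K

lemma OwnP.tc : Complex.tan W * Complex.cos W = Complex.sin W := Complex.tan_mul_cos h.cne

/-- `sin (i Q) = i T K`, `cos (i Q) = R K` -/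
lemma OwnP.sinQ : Complex.sin (I * QQ W K) = I * (Complex.tan W * K) ∧
    Complex.cos (I * QQ W K) = RR W K * K := by
  obtain ⟨e1, e2⟩ := exp_QQ h.R0 h.w0.le h.w1.le h.k0
  constructor
  · rw [mul_comm I, Complex.sin_mul_I, Complex.sinh, e1, e2]
    ring
  · rw [mul_comm I, Complex.cos_mul_I, Complex.cosh, e1, e2]
    ring

lemma OwnP.v0 : vv W K 0 = I * K / Complex.cos W := by
  have h1 := h.sne
  have h2 := h.cne
  unfold vv
  rw [Nat.cast_zero, zero_mul, add_zero, h.sinQ.1, ← h.tc]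
  have h3 : Complex.tan W ≠ 0 := fun h0 => h1 (by rw [← h.tc, h0, zero_mul])
  field_simp

lemma OwnP.v1 : vv W K 1 = K * (RR W K + I) := by
  have h1 := h.sne
  unfold vv
  rw [Nat.cast_one, one_mul, Complex.sin_add, h.sinQ.1, h.sinQ.2, div_eq_iff h1]
  linear_combination (I * K) * h.tc

omit h in
lemma vv_add (W K : ℂ) (l : ℕ) :
    vv W K (l + 2) + vv W K l = 2 * Complex.cos W * vv W K (l + 1) := by
  unfold vv
  push_cast
  rw [← add_div, show I * QQ W K + ((l : ℂ) + 2) * W = (I * QQ W K + (l + 1) * W) + W by ring,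
    show I * QQ W K + (l : ℂ) * W = (I * QQ W K + (l + 1) * W) - W by ring, Complex.sin_add,
    Complex.sin_sub]
  ring

lemma OwnP.mul (l : ℕ) : vv W K (l + 2) * vv W K l = vv W K (l + 1) ^ 2 - 1 := by
  have h1 := h.sne
  unfold vv
  push_cast
  rw [show I * QQ W K + ((l : ℂ) + 2) * W = (I * QQ W K + (l + 1) * W) + W by ring,
    show I * QQ W K + (l : ℂ) * W = (I * QQ W K + (l + 1) * W) - W by ring, Complex.sin_add,
    Complex.sin_sub]
  set a := I * QQ W K + ((l : ℂ) + 1) * W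
  field_simp
  have e1 := Complex.sin_sq_add_cos_sq a
  have e2 := Complex.sin_sq_add_cos_sq W
  linear_combination (Complex.sin a ^ 2) * e2 - (Complex.sin W ^ 2) * e1

/-- real and imaginary part -/
lemma OwnP.parts (l : ℕ) :
    (vv W K l).im * normSq (Complex.sin W) =
      Iv W.re (-W.im) (-(QQ W K).im + l * W.re) ((QQ W K).re - l * (-W.im)) ∧
    (vv W K l).re * normSq (Complex.sin W) =
      Rv W.re (-W.im) (-(QQ W K).im + l * W.re) ((QQ W K).re - l * (-W.im)) := by
  have h1 := h.sne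
  have hn : normSq (Complex.sin W) ≠ 0 := fun h0 => h1 (normSq_eq_zero.1 h0)
  set X := -(QQ W K).im + l * W.re with hX
  set Y := (QQ W K).re - l * (-W.im) with hY
  have e0 : I * QQ W K + l * W = (X : ℂ) + (Y : ℂ) * I := by
    apply Complex.ext
    · simp [hX]
    · simp [hY]
  have e3 := sp_sin_re W
  have e4 := sp_sin_im W
  unfold vv
  rw [e0]
  constructor
  · rw [div_im, ← sub_div, div_mul_cancel₀ _ hn, e3, e4, rp_sin_re, rp_sin_im, Iv, Real.cosh_neg,
      Real.sinh_neg]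
    ring
  · rw [div_re, ← add_div, div_mul_cancel₀ _ hn, e3, e4, rp_sin_re, rp_sin_im, Rv, Real.cosh_neg,
      Real.sinh_neg]
    ring

lemma OwnP.nsq : 0 < normSq (Complex.sin W) := normSq_pos.2 h.sne

lemma OwnP.im_iff (l : ℕ) : 0 < (vv W K l).im ↔
    0 < Iv W.re (-W.im) (-(QQ W K).im + l * W.re) ((QQ W K).re - l * (-W.im)) := by
  rw [← (h.parts l).1, mul_pos_iff_of_pos_right h.nsq]

lemma OwnP.re_iff (l : ℕ) : 0 < (vv W K l).re ↔
    0 < Rv W.re (-W.im) (-(QQ W K).im + l * W.re) ((QQ W K).re - l * (-W.im)) := by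
  rw [← (h.parts l).2, mul_pos_iff_of_pos_right h.nsq]

/-- a priori bound for `Im Q` -/
lemma OwnP.imQ : |(QQ W K).im| < Real.pi := by
  have h1 : 0 < (Complex.tan W + RR W K).re := by
    rw [add_re]
    exact add_pos (tan_re_pos h.w0 h.w1.le) h.R0
  have h2 := abs_arg_lt_pi_div_two_iff.2 (Or.inl h1)
  have h3 := abs_arg_lt_pi_div_two_iff.2 (Or.inl h.k0)
  have e : (QQ W K).im = (Complex.tan W + RR W K).arg + K.arg := by
    unfold QQ
    rw [add_im, log_im, log_im]
  rw [e]
  rw [abs_lt] at h2 h3 ⊢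
  constructor <;> linarith only [h2, h3, h2.1, h2.2, h3.1, h3.2]

/-- `Im (T K) < 0` for a neighbour of opposite sign -/
lemma OwnP.tan_im_neg : (Complex.tan W).im < 0 := by
  have h1 := h.im_neg
  have e1 : (Complex.tan W).im * normSq (Complex.cos W) = Real.sinh W.im * Real.cosh W.im := by
    have hn : normSq (Complex.cos W) ≠ 0 := fun h0 => h.cne (normSq_eq_zero.1 h0)
    unfold Complex.tan
    rw [div_im, ← sub_div, div_mul_cancel₀ _ hn, sp_sin_re, sp_sin_im, sp_cos_re, sp_cos_im]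
    linear_combination (Real.sinh W.im * Real.cosh W.im) * (Real.sin_sq_add_cos_sq W.re)
  have h2 : 0 < normSq (Complex.cos W) := normSq_pos.2 h.cne
  have h3 := Real.sinh_neg_iff.2 h1
  have h4 := Real.cosh_pos W.im
  by_contra hc
  have h5 := mul_nonneg (not_lt.1 hc) h2.le
  rw [e1] at h5
  nlinarith only [h5, h3, h4]

lemma OwnP.sinphi (l : ℕ) : Complex.sin (I * QQ W K + l * W) = vv W K l * Complex.sin W := by
  unfold vv
  rw [div_mul_cancel₀ _ h.sne]

/-- **Neighbour of opposite sign.** -/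
theorem OwnP.portA (hk : K.im ≤ 0) (ht : 0 ≤ (K * (starRingEnd ℂ) (Complex.cos W)).re) :
    Port W.re (-W.im) (-(QQ W K).im) (QQ W K).re 1 := by
  have hpi := Real.pi_pos
  have hb : 0 < -W.im := by linarith only [h, h.im_neg]
  refine G2.portA h.w0 h.w2 hb ?_ ?_ ?_
  · -- `Im Q < 0`
    have h1 : (Complex.tan W * K).im < 0 := by
      rw [mul_im]
      have h2 := tan_re_pos h.w0 h.w1.le
      have h3 := h.tan_im_neg
      have h4 := h.k0
      nlinarith only [h2, hk, h3, h4, mul_nonneg h2.le (by linarith only [hk] : 0 ≤ -K.im), mul_pos (by linarith only [h3] : 0 < -(Complex.tan W).im) h4]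
    have h2 := h.sinQ.1
    have h3 := congrArg Complex.re h2
    rw [sp_sin_re] at h3
    have e2 : (I * (Complex.tan W * K)).re = -(Complex.tan W * K).im := by
      rw [mul_re, I_re, I_im]; ring
    have e3 : (I * QQ W K).re = -(QQ W K).im := by rw [mul_re, I_re, I_im]; ring
    rw [e2, e3] at h3
    have h4 : 0 < Real.sin (-(QQ W K).im) * Real.cosh (I * QQ W K).im := by linarith only [h1, h3]
    have h5 : 0 < Real.sin (-(QQ W K).im) := (mul_pos_iff_of_pos_right (Real.cosh_pos _)).1 h4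
    by_contra hc
    have h6 := h.imQ
    rw [abs_lt] at h6
    have := Real.sin_nonpos_of_nonpos_of_neg_pi_le (not_lt.1 hc) (by linarith only [h6])
    linarith only [h5, this]
  · intro _
    have h1 := (h.parts 0).1
    rw [h.v0] at h1
    simp only [Nat.cast_zero, zero_mul, add_zero, sub_zero] at h1
    rw [← h1]
    apply mul_nonneg _ h.nsq.le
    have e : (I * K / Complex.cos W).im =
        (K * (starRingEnd ℂ) (Complex.cos W)).re / normSq (Complex.cos W) := by
      rw [div_im, mul_re, mul_re, mul_im, conj_re, conj_im, I_re, I_im]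
      ring
    rw [e]
    exact div_nonneg ht (normSq_nonneg _)
  · intro h1
    have h2 := h.im_iff 1
    have h3 := h.re_iff 1
    rw [Nat.cast_one, one_mul, one_mul] at h2 h3
    rw [← h2, h.v1, mul_im, add_re, add_im, I_re, I_im, add_zero] at h1
    rw [← h3, h.v1, mul_re, add_re, add_im, I_re, I_im, add_zero]
    have h4 := h.R0
    have h5 := h.k0
    -- `K = a - i c`, `R + i = p + i q`, `a q > c p`
    have h6 : 0 < (RR W K).im + 1 := by
      by_contra hc
      have := mul_nonneg (by linarith only [hc] : 0 ≤ -((RR W K).im + 1)) h5.le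
      nlinarith only [h1, this, hk, h4, mul_nonneg (by linarith only [hk] : 0 ≤ -K.im) h4.le]
    nlinarith only [h5, h4, hk, h6, mul_pos h5 h4, mul_nonneg (by linarith only [hk] : 0 ≤ -K.im) h6.le]

/-- **Neighbour of equal sign.** -/
theorem OwnP.portS (h1 : 0 < (vv W K 1).re) (h2 : 0 < (vv W K 1).im) :
    Port W.re (-W.im) (-(QQ W K).im) (QQ W K).re 1 := by
  have hpi := Real.pi_pos
  have hb : 0 < -W.im := by linarith only [h, h.im_neg]
  have h3 := (h.im_iff 1).1 h2
  have h4 := (h.re_iff 1).1 h1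
  rw [Nat.cast_one, one_mul, one_mul] at h3 h4
  refine G2.portS h.w0 h.w2 hb ?_ h3 h4
  have e := congrArg Complex.re (h.sinphi 1)
  rw [sp_sin_re, mul_re, sp_sin_re, sp_sin_im] at e
  have c2 : 0 < Real.cos W.re := Real.cos_pos_of_mem_Ioo ⟨by linarith only [hpi, h, h.w0], h.w2⟩
  have c3 : 0 < Real.sin W.re := Real.sin_pos_of_pos_of_lt_pi h.w0 (by linarith only [hpi, h, h.w2])
  have c4 := Real.cosh_pos W.im
  have c5 := Real.sinh_neg_iff.2 h.im_neg
  have c6 : 0 < (vv W K 1).re * (Real.sin W.re * Real.cosh W.im) -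
      (vv W K 1).im * (Real.cos W.re * Real.sinh W.im) := by
    have a1 : 0 < (vv W K 1).re * (Real.sin W.re * Real.cosh W.im) := by positivity
    have a2 : 0 < (vv W K 1).im * (Real.cos W.re * -Real.sinh W.im) :=
      mul_pos h2 (mul_pos c2 (by linarith only [c5]))
    linarith only [a1, a2]
  rw [← e] at c6
  have c7 := (mul_pos_iff_of_pos_right (Real.cosh_pos _)).1 c6
  have e3 : (I * QQ W K + (1 : ℕ) * W).re = -(QQ W K).im + W.re := by
    rw [add_re, mul_re, I_re, I_im, Nat.cast_one, one_mul]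
    ring_nf
  rw [e3] at c7
  by_contra hc
  have h6 := h.imQ
  rw [abs_lt] at h6
  have := Real.sin_nonpos_of_nonpos_of_neg_pi_le (not_lt.1 hc) (by linarith only [h6, h, h.w0])
  linarith only [c7, this]

end

/-- **Interior ring.** -/
theorem ring_layers {W K K' : ℂ} (h : OwnP W K) {B : ℕ}
    (hp : Port W.re (-W.im) (-(QQ W K).im) (QQ W K).re 1)
    (hp' : Port W.re (-W.im) (-(QQ W K').im) (QQ W K').re 1)
    (he : (B : ℂ) * W - Real.pi + I * (QQ W K + QQ W K') = 0) {l : ℕ} (hl : 1 ≤ l)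
    (hl' : l + 1 ≤ B) : 0 < (vv W K l).re ∧ 0 < (vv W K l).im := by
  have hb : 0 < -W.im := by linarith only [h, h.im_neg]
  have e1 := congrArg Complex.re he
  have e2 := congrArg Complex.im he
  simp only [sub_re, add_re, mul_re, I_re, I_im, natCast_re, natCast_im, ofReal_re, zero_re,
    add_im] at e1
  simp only [sub_im, add_re, mul_im, I_re, I_im, natCast_re, natCast_im, ofReal_im, zero_im,
    add_im] at e2
  have h1 := path_pos h.w0 h.w2 hb hp hp' (B := B) (by linarith only [e1]) (by linarith only [e2]) hl hl'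
  exact ⟨(h.re_iff l).2 h1.2, (h.im_iff l).2 h1.1⟩

/-- **End ring.** -/
theorem ring_layers_end {W K : ℂ} (h : OwnP W K) {B : ℕ}
    (hp : Port W.re (-W.im) (-(QQ W K).im) (QQ W K).re 1)
    (he : (B : ℂ) * W - Real.pi + I * QQ W K = 0) {l : ℕ} (hl : 1 ≤ l)
    (hl' : l + 2 ≤ B) : 0 < (vv W K l).re ∧ 0 < (vv W K l).im := by
  have hb : 0 < -W.im := by linarith only [h, h.im_neg]
  have e1 := congrArg Complex.re he
  have e2 := congrArg Complex.im he
  simp only [sub_re, add_re, mul_re, I_re, I_im, natCast_re, natCast_im, ofReal_re, zero_re] at e1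
  simp only [sub_im, mul_im, I_re, I_im, natCast_re, natCast_im, ofReal_im, zero_im,
    add_im] at e2
  have h1 := path_pos h.w0 h.w2 hb hp (portF h.w0 h.w2 hb) (B := B) (by linarith only [e1]) (by linarith only [e2]) hl hl'
  exact ⟨(h.re_iff l).2 h1.2, (h.im_iff l).2 h1.1⟩

/-- the same path from the other end -/
lemma vv_mirror {W K K' : ℂ} {B : ℕ}
    (he : (B : ℂ) * W - Real.pi + I * (QQ W K + QQ W K') = 0) {l m : ℕ} (hl : l + m = B) :
    vv W K l = vv W K' m := by
  unfold vv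
  congr 1
  have e : I * QQ W K + l * W = Real.pi - (I * QQ W K' + m * W) := by
    rw [← hl] at he
    push_cast at he
    linear_combination he
  rw [e, Complex.sin_pi_sub]

/-- an end ring: `v_B = 0`, `v_(B - 1) = 1` -/
lemma vv_end {W K : ℂ} (h : OwnP W K) {B : ℕ}
    (he : (B : ℂ) * W - Real.pi + I * QQ W K = 0) : vv W K B = 0 ∧ ∀ m, m + 1 = B → vv W K m = 1 := by
  constructor
  · unfold vv
    rw [show I * QQ W K + B * W = Real.pi by linear_combination he, Complex.sin_pi, zero_div]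
  · rintro m rfl
    unfold vv
    push_cast at he
    rw [show I * QQ W K + m * W = Real.pi - W by linear_combination he, Complex.sin_pi_sub,
      div_self h.sne]

/-- two crossings -/
theorem layer_two {W K K' : ℂ} (h : OwnP W K) (h' : OwnP W K')
    (he : ((2 : ℕ) : ℂ) * W - Real.pi + I * (QQ W K + QQ W K') = 0) : Lp (vv W K 1) := by
  have m0 := vv_mirror he (l := 1) (m := 1) rfl
  have m2 := vv_mirror he (l := 2) (m := 0) rfl
  have r := vv_add W K 0
  rw [zero_add, m2, h'.v0, h.v0, zero_add] at r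
  have a1 := h.v1
  have a2 : vv W K 1 = K' * (RR W K' + I) := m0.trans h'.v1
  set v := vv W K 1 with hv
  set R := RR W K with hR
  set R' := RR W K' with hR'
  have hc := h.cne
  have hk := h.kne
  have hk' := h'.kne
  have p1 : 0 < R.re := h.R0
  have p2 : 0 < R'.re := h'.R0
  have n1 : R + I ≠ 0 := fun h0 => by
    have := congrArg Complex.re h0
    rw [add_re, I_re, zero_re] at this
    linarith only [p1, this]
  have n2 : R' + I ≠ 0 := fun h0 => by
    have := congrArg Complex.re h0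
    rw [add_re, I_re, zero_re] at this
    linarith only [p2, this]
  have n3 : R + R' + 2 * I ≠ 0 := fun h0 => by
    have := congrArg Complex.re h0
    rw [add_re, add_re, mul_re, I_re, zero_re] at this
    simp at this
    linarith only [p1, p2, this]
  have nv : v ≠ 0 := by rw [a1]; exact mul_ne_zero hk n1
  have hT : Complex.tan W ^ 2 = 1 / Complex.cos W ^ 2 - 1 := by
    rw [eq_sub_iff_add_eq, add_comm]
    have := one_add_tan_sq hc
    rw [this]
  have s1 : R ^ 2 = Complex.tan W ^ 2 + (K ^ 2)⁻¹ := h.sq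
  -- `2 κ² (R + i) (R' + i) = i (R + R' + 2 i)`
  have q : 2 * Complex.cos W ^ 2 * ((R + I) * (R' + I)) = I * (R + R' + 2 * I) := by
    have e1 : I * (K + K') = 2 * Complex.cos W ^ 2 * v := by
      field_simp at r
      linear_combination r
    have e2 : v * (2 * Complex.cos W ^ 2 * ((R + I) * (R' + I))) = v * (I * (R + R' + 2 * I)) := by
      linear_combination (-(R + I) * (R' + I)) * e1 + I * (R' + I) * (-a1) + I * (R + I) * (-a2)
    exact mul_left_cancel₀ nv e2
  -- `1 / v² = (R + R') / (R + R' + 2 i)`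
  have e3 : (K ^ 2)⁻¹ * v ^ 2 = (R + I) ^ 2 := by
    rw [a1]
    field_simp
  have e4 : (R + R' + 2 * I) = (R + R') * v ^ 2 := by
    have e5 : (R ^ 2 + 1 - 1 / Complex.cos W ^ 2) * v ^ 2 = (R + I) ^ 2 := by
      rw [← e3, s1, hT]
      ring
    have e6 : 1 / Complex.cos W ^ 2 * (R + R' + 2 * I) = -(2 * I * ((R + I) * (R' + I))) := by
      have hI := Complex.I_sq
      field_simp
      linear_combination I * q + (R + R' + 2 * I) * hI
    have e7 : (R + I) ^ 2 * ((R + R') * v ^ 2) = (R + I) ^ 2 * (R + R' + 2 * I) := by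
      have hI := Complex.I_sq
      have e8 : (R ^ 2 + 1 - 1 / Complex.cos W ^ 2) * (R + R' + 2 * I) = (R + I) ^ 2 * (R + R') := by
        linear_combination (-1) * e6 + (R + R' + 2 * I) * hI
      linear_combination (-v ^ 2) * e8 + (R + R' + 2 * I) * e5
    exact (mul_left_cancel₀ (pow_ne_zero 2 n1) e7).symm
  have e9 : 1 - (v ^ 2)⁻¹ = 2 * I / (R + R' + 2 * I) := by
    rw [eq_div_iff n3, sub_mul, one_mul]
    nth_rewrite 2 [e4]
    have : (v ^ 2)⁻¹ * ((R + R') * v ^ 2) = R + R' := by field_simp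
    rw [this]
    ring
  unfold Lp
  rw [e9, div_im]
  have n4 : 0 < normSq (R + R' + 2 * I) := normSq_pos.2 n3
  have e10 : (2 * I : ℂ).im = 2 := by simp
  have e11 : (2 * I : ℂ).re = 0 := by simp
  have e12 : (R + R' + 2 * I).re = R.re + R'.re := by simp
  rw [e10, e11, e12, zero_mul, zero_div, sub_zero]
  positivity

end Pool.Agent.Work.MP_b30479_gtS.G2

end

section

/-!
# Positivity of the layers of a word from the ring values
-/

namespace Pool.Agent.Work.MP_b30479_gtS.G2

open Complex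

/-! ### the polygons -/

/-- own types which need a bound for `κ⁻²` -/
def typQ : RT → Bool
  | .t3as | .t3ss | .t4 | .t5 | .t6 | .t7 | .t8 => true
  | _ => false

lemma vt_facts (t : RT) {z : ℂ} (hz : z ∈ PolyU (vt t)) : 0 < z.re ∧ 0 < z.im ∧ z.re ≤ 1 ∧
    z.im ≤ 68 / 100 ∧ (t ≠ .t2e → z.im < z.re) := by
  have hz' := KB.polyU_sub _ hz
  refine ⟨KB.poly_re_pos t z hz', ?_, ?_, ?_, ?_⟩
  · by_cases h8 : t = .t8
    · subst h8
      have h1 := hz ((800, 0), (1000, 0)) (by decide)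
      simp only [cr] at h1
      push_cast at h1
      linarith only [h1]
    · have := KB.lin_of (al := 0) (be := 1) (mu := 1) (V := vt t)
        (by revert h8; cases t <;> decide) hz'
      push_cast at this
      linarith only [this]
  · have := KB.lin_of (al := -1) (be := 0) (mu := -1000) (V := vt t) (by cases t <;> decide) hz'
    push_cast at this
    linarith only [this]
  · have := KB.lin_of (al := 0) (be := -1) (mu := -680) (V := vt t) (by cases t <;> decide) hz'
    push_cast at this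
    linarith only [this]
  · intro h2
    have := KB.lin_of (al := 1) (be := -1) (mu := 20) (V := vt t)
      (by revert h2; cases t <;> decide) hz'
    push_cast at this
    linarith only [this]

lemma vt_q (t : RT) (ht : typQ t = true) {z : ℂ} (hz : z ∈ Poly (vt t)) :
    7 / 20 ≤ KB.px z ∧ 0 ≤ KB.py z ∧ KB.py z ≤ 17 / 10 := by
  have h0 : SQ.polyOK 0 0 (-1000) 20 (vt t) = true := by cases t <;> decide
  refine ⟨?_, ?_, ?_⟩
  · have := KB.px_py_of (al := 1000) (be := 0) (ga := 350) (V := vt t) h0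
      (by revert ht; cases t <;> decide) hz
    push_cast at this
    linarith only [this]
  · have := KB.px_py_of (al := 0) (be := 1000) (ga := 0) (V := vt t) h0
      (by revert ht; cases t <;> decide) hz
    push_cast at this
    linarith only [this]
  · have := KB.px_py_of (al := 0) (be := -1000) (ga := -1700) (V := vt t) h0
      (by revert ht; cases t <;> decide) hz
    push_cast at this
    linarith only [this]

/-- the real inequality behind `OwnP.sport` -/
private lemma sport_real {a c x y p q : ℝ} (ha : 0 < a) (k0 : 0 ≤ c) (k1 : c ≤ a) (k2 : a ≤ 1)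
    (k3 : c ≤ 68 / 100) (hp1 : -(13 / 20) ≤ p) (h2 : 0 ≤ q) (h3 : q ≤ 17 / 10)
    (hsr : 0 < x * a + y * c)
    (u1 : x ^ 2 - y ^ 2 = 1 + ((a ^ 2 - c ^ 2) * p + 2 * a * c * q))
    (u2 : 2 * x * y = 2 * a * c * p - (a ^ 2 - c ^ 2) * q) :
    0 < x - c ∧ 0 < y + a := by
  have a2 : a ^ 2 ≤ 1 := pow_le_one₀ ha.le k2
  have c2 : c ^ 2 ≤ (68 / 100) ^ 2 := pow_le_pow_left₀ k0 k3 2
  have ac : c ^ 2 ≤ a ^ 2 := pow_le_pow_left₀ k0 k1 2
  have acq : 0 ≤ 2 * a * c * q := by positivity
  have cc : 0 ≤ c ^ 2 := sq_nonneg c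
  have aa : 0 < a ^ 2 := by positivity
  have m1 : 0 ≤ (a ^ 2 - c ^ 2) * (p + 13 / 20) := mul_nonneg (by linarith only [ac]) (by linarith only [hp1])
  have hur : 1 - 13 / 20 * (a ^ 2 - c ^ 2) + 2 * a * c * q ≤
      1 + ((a ^ 2 - c ^ 2) * p + 2 * a * c * q) := by linarith only [m1]
  -- `Re s > 0`
  have s0 : 0 < x := by
    by_contra hc0
    have hc0 := not_lt.1 hc0
    have h4 : y ^ 2 < x ^ 2 := by linarith only [u1, a2, acq, cc, m1]
    have h5 : |y| < |x| := sq_lt_sq.1 h4
    rw [abs_of_nonpos hc0] at h5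
    have h6 : y * c ≤ -x * c := mul_le_mul_of_nonneg_right (le_trans (le_abs_self _) h5.le) k0
    have h7 : -x * c ≤ -x * a := mul_le_mul_of_nonneg_left k1 (by linarith)
    linarith only [hsr, h6, h7]
  constructor
  · have h8 : c ^ 2 < x ^ 2 := by
      have := sq_nonneg y
      linarith only [u1, a2, c2, acq, m1, this]
    have := lt_of_pow_lt_pow_left₀ 2 s0.le h8
    linarith only [this]
  · by_contra hc0
    have hc0 := not_lt.1 hc0
    -- `y ≤ - a`
    have h4 : a ^ 2 ≤ y ^ 2 := by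
      rw [← neg_sq y]
      exact pow_le_pow_left₀ ha.le (by linarith) 2
    have h5 : 4 * a ^ 2 * (1 + ((a ^ 2 - c ^ 2) * p + 2 * a * c * q) + a ^ 2) ≤ (2 * x * y) ^ 2 := by
      rw [← u1]
      have h9 : (2 * x * y) ^ 2 = 4 * (y ^ 2 * x ^ 2) := by ring
      have h10 : 0 ≤ x ^ 2 - y ^ 2 + a ^ 2 := by
        rw [u1]
        linarith only [ac, acq, cc, m1]
      have h11 : a ^ 2 * (x ^ 2 - y ^ 2 + a ^ 2) ≤ y ^ 2 * x ^ 2 :=
        mul_le_mul h4 (by linarith only [h4]) h10 (sq_nonneg y)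
      rw [h9]
      linarith only [h11]
    rw [u2] at h5
    have h6 : 2 * a * c * p - (a ^ 2 - c ^ 2) * q ≤ 0 := by
      rw [← u2]
      have : 0 ≤ x * (-y) := mul_nonneg s0.le (by linarith)
      linarith only [this]
    have h7 : -(2 * a * c * p - (a ^ 2 - c ^ 2) * q) ≤ a * (a * q + 13 / 10 * c) := by
      have e1 : 0 ≤ a * c * (p + 13 / 20) := mul_nonneg (mul_nonneg ha.le k0) (by linarith only [hp1])
      have e2 : 0 ≤ c ^ 2 * q := mul_nonneg cc h2
      linarith only [e1, e2]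
    have h8 : (2 * a * c * p - (a ^ 2 - c ^ 2) * q) ^ 2 ≤ (a * (a * q + 13 / 10 * c)) ^ 2 := by
      rw [← neg_sq]
      exact pow_le_pow_left₀ (by linarith only [h6]) h7 2
    have h9 : a ^ 2 * (4 * (1 + ((a ^ 2 - c ^ 2) * p + 2 * a * c * q) + a ^ 2)) ≤
        a ^ 2 * (a * q + 13 / 10 * c) ^ 2 := by
      have : (a * (a * q + 13 / 10 * c)) ^ 2 = a ^ 2 * (a * q + 13 / 10 * c) ^ 2 := by ring
      linarith only [h5, h8]
    have h10 := le_of_mul_le_mul_left h9 aa
    have h11 : q ^ 2 ≤ (17 / 10) ^ 2 := pow_le_pow_left₀ h2 h3 2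
    have h12 : a ^ 2 * q ^ 2 ≤ 1 * (17 / 10) ^ 2 := mul_le_mul a2 h11 (sq_nonneg q) (by norm_num)
    linarith only [ac, acq, cc, m1, h10, h12]

/-- a port to a neighbour of equal sign -/
theorem OwnP.sport {W K : ℂ} (h : OwnP W K) (h1 : 7 / 20 ≤ KB.px (Complex.cos W))
    (h2 : 0 ≤ KB.py (Complex.cos W)) (h3 : KB.py (Complex.cos W) ≤ 17 / 10) (k0 : 0 ≤ K.im)
    (k1 : K.im ≤ K.re) (k2 : K.re ≤ 1) (k3 : K.im ≤ 68 / 100) :
    0 < (vv W K 1).re ∧ 0 < (vv W K 1).im := by
  have hK := h.k0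
  have hR := h.R0
  have hKn := h.kne
  have hT : Complex.tan W ^ 2 = (Complex.cos W ^ 2)⁻¹ - 1 := by
    rw [eq_sub_iff_add_eq, add_comm, one_add_tan_sq h.cne, one_div]
  have hTr : (Complex.tan W ^ 2).re = KB.px (Complex.cos W) - 1 := by
    rw [hT, sub_re, KB.inv_sq_re, one_re]
  have hTi : (Complex.tan W ^ 2).im = -KB.py (Complex.cos W) := by
    rw [hT, sub_im, KB.inv_sq_im, one_im, sub_zero]
  obtain ⟨p, hp⟩ : ∃ p, p = KB.px (Complex.cos W) - 1 := ⟨_, rfl⟩
  obtain ⟨q, hq⟩ : ∃ q, q = KB.py (Complex.cos W) := ⟨_, rfl⟩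
  rw [← hp] at hTr
  rw [← hq] at hTi h2 h3
  obtain ⟨s, hs⟩ : ∃ s, s = K * RR W K := ⟨_, rfl⟩
  have hs2 : s ^ 2 = 1 + K ^ 2 * Complex.tan W ^ 2 := by
    rw [hs, mul_pow, h.sq]
    field_simp
    ring
  have hv : vv W K 1 = s + I * K := by rw [h.v1, hs]; ring
  have hRs : RR W K = s / K := by rw [hs]; field_simp
  obtain ⟨T, hTT⟩ : ∃ T, T = Complex.tan W ^ 2 := ⟨_, rfl⟩
  rw [← hTT] at hTr hTi hs2
  have vr : (vv W K 1).re = s.re - K.im := by
    rw [hv, add_re, mul_re, I_re, I_im]; ring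
  have vi : (vv W K 1).im = s.im + K.re := by
    rw [hv, add_im, mul_im, I_re, I_im]; ring
  have hn : 0 < normSq K := normSq_pos.2 hKn
  have hsr : 0 < s.re * K.re + s.im * K.im := by
    have e : (RR W K).re * normSq K = s.re * K.re + s.im * K.im := by
      rw [hRs, div_re, ← add_div, div_mul_cancel₀ _ hn.ne']
    rw [← e]
    positivity
  have u1 : s.re ^ 2 - s.im ^ 2 = 1 + ((K.re ^ 2 - K.im ^ 2) * p + 2 * K.re * K.im * q) := by
    have := congrArg Complex.re hs2
    rw [pow_two, mul_re, add_re, one_re, mul_re, hTr, hTi, pow_two, mul_re, mul_im] at this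
    linear_combination this
  have u2 : 2 * s.re * s.im = 2 * K.re * K.im * p - (K.re ^ 2 - K.im ^ 2) * q := by
    have := congrArg Complex.im hs2
    rw [pow_two, mul_im, add_im, one_im, mul_im, hTr, hTi, pow_two, mul_re, mul_im] at this
    linear_combination this
  rw [vr, vi]
  exact sport_real hK k0 k1 k2 k3 (by linarith only [h1, hp]) h2 h3 hsr u1 u2

end Pool.Agent.Work.MP_b30479_gtS.G2

end
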