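import Pool.Agent.Work.MP_b30479_gt.TBS.G2.SZa
import Pool.Agent.Work.MP_b30479_gt.TBS.G2.Num.Fn
import Pool.Agent.Work.MP_b30479_gt.TBS.NumI.LnAff
import Pool.Agent.Work.MP_b30479_gt.TBS.G2.CN.M3Eq
import Pool.Agent.Work.MP_b30479_gt.TBS.G2.CN.HPoly
import Pool.Agent.Work.MP_b30479_gt.TBS.G2.CN.HMid
import Pool.Agent.Work.MP_b30479_gt.TBS.G2.CN.M3Ra

section

/-!
# The local conditions at the saddle point from the location table
-/

set_option deprecated.oldSectionVars true

namespace Pool.Agent.Work.MP_b30479_gtS.G2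

open Complex Set Filter Topology VOL
open scoped ComplexConjugate

namespace SR

/-! ### bounds of elementary functions -/

section num

open NumIs NumIs.E

lemma sin_pi_pos' {x : ℝ} (h0 : 0 < x) (h1 : x < 1) : 0 < Real.sin (Real.pi * x) :=
  Real.sin_pos_of_pos_of_lt_pi (mul_pos Real.pi_pos h0)
    (by have := mul_lt_mul_of_pos_left h1 Real.pi_pos; linarith only [this])

/-- the expression of `|QQ| < 1` -/
def eQ : E := sub (add (sq (sinPi (var 0))) (sq (sinh (mul pi (var 1)))))
  (mul (sinh (mul pi (var 1))) (cosh (mul pi (var 1))))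

lemma QQ_lt_of {x t : ℝ} (h0 : 0 < x) (h1 : x < 1) (h : 0 < eQ.val [x, |t|]) :
    |NumIs.QQ x t| < 1 := by
  have hM := NumIs.MM_pos (t := t) (sin_pi_pos' h0 h1)
  simp only [eQ, E.val, lkR_zero, lkR_one] at h
  have hc : Real.cosh (Real.pi * |t|) = Real.cosh (Real.pi * t) := by
    rw [← Real.cosh_abs (Real.pi * t), abs_mul, abs_of_pos Real.pi_pos]
  have e : |NumIs.QQ x t| = Real.sinh (Real.pi * |t|) * Real.cosh (Real.pi * |t|) / NumIs.MM x t := by
    unfold NumIs.QQ
    rw [abs_div, abs_of_pos hM, abs_mul, abs_of_pos (Real.cosh_pos _), hc, Real.abs_sinh, abs_mul,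
      abs_of_pos Real.pi_pos]
  rw [e, div_lt_one hM]
  have e2 : Real.sinh (Real.pi * |t|) ^ 2 = Real.sinh (Real.pi * t) ^ 2 := by
    rcases abs_choice t with h | h <;> rw [h]
    rw [mul_neg, Real.sinh_neg, neg_sq]
  unfold NumIs.MM
  rw [e2] at h
  linarith only [h]

lemma QQ_lt_one {x t : ℝ} (h0 : 212 / 1000 ≤ x) (h1 : x ≤ 1 / 2) (ht : |t| ≤ 158 / 1000) :
    |NumIs.QQ x t| < 1 := by
  have h : chk [eQ] 30 [V.of 1000 212 500, V.of 1000 0 158] = true := by decide +kernel
  refine QQ_lt_of (by linarith only [h0]) (by linarith only [h1]) (pos_of_chk (chk2 h (by norm_num) (by norm_num; linarith only [h0])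
    (by norm_num; linarith only [h1]) (by norm_num) (by norm_num; linarith only [ht])))

lemma QQ_lt_two {x t : ℝ} (h0 : 181 / 1000 ≤ x) (h1 : x ≤ 1 / 2) (ht : |t| ≤ 985 / 10000) :
    |NumIs.QQ x t| < 1 := by
  have h : chk [eQ] 30 [V.of 10000 1810 5000, V.of 10000 0 985] = true := by decide +kernel
  refine QQ_lt_of (by linarith only [h0]) (by linarith only [h1]) (pos_of_chk (chk2 h (by norm_num) (by norm_num; linarith only [h0])
    (by norm_num; linarith only [h1]) (by norm_num) (by norm_num; linarith only [ht])))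

/-- `c1 sin π x - c2 cos π x` -/
def eC (c1 c2 : ℤ) : E := sub (mul (q c1 1000) (sinPi (var 0))) (mul (q c2 1000) (cosPi (var 0)))

lemma cot_le_of {c1 c2 : ℤ} {x t : ℝ} (h0 : 0 < x) (h1 : x ≤ 1 / 2)
    (h : 0 < (eC c1 c2).val [x]) (ht : |t| ≤ c2 / 1000) :
    |t| * |Real.cos (Real.pi * x) / Real.sin (Real.pi * x)| < c1 / 1000 := by
  have hs := sin_pi_pos' h0 (by linarith only [h0, h1])
  have hc : 0 ≤ Real.cos (Real.pi * x) := Real.cos_nonneg_of_mem_Icc
    ⟨by nlinarith only [h0, Real.pi_pos], by nlinarith only [h0, h1, Real.pi_pos]⟩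
  simp only [eC, E.val, lkR_zero] at h
  rw [abs_div, abs_of_pos hs, abs_of_nonneg hc, ← mul_div_assoc, div_lt_iff₀ hs]
  have := mul_le_mul_of_nonneg_right ht hc
  push_cast at h
  linarith only [h, this]

lemma cot_one {x t : ℝ} (h0 : 275 / 1000 ≤ x) (h1 : x ≤ 1 / 2) (ht : |t| ≤ 118 / 1000) :
    |t| * |Real.cos (Real.pi * x) / Real.sin (Real.pi * x)| < 102 / 1000 := by
  have h : chk [eC 102 118] 30 [V.of 1000 275 500] = true := by decide +kernel
  have := cot_le_of (t := t) (by linarith only [h0]) h1 (pos_of_chk (chk1 h (by norm_num)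
    (by norm_num; linarith only [h0]) (by norm_num; linarith only [h1]))) (by norm_num; linarith only [ht])
  norm_num at this
  linarith only [this]

lemma cot_two {x t : ℝ} (h0 : 212 / 1000 ≤ x) (h1 : x ≤ 1 / 2) (ht : |t| ≤ 66 / 1000) :
    |t| * |Real.cos (Real.pi * x) / Real.sin (Real.pi * x)| < 102 / 1000 := by
  have h : chk [eC 102 66] 30 [V.of 1000 212 500] = true := by decide +kernel
  have := cot_le_of (t := t) (by linarith only [h0]) h1 (pos_of_chk (chk1 h (by norm_num)
    (by norm_num; linarith only [h0]) (by norm_num; linarith only [h1]))) (by norm_num; linarith only [ht])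
  norm_num at this
  linarith only [this]

lemma cot_sum {x t : ℝ} (h0 : 424 / 1000 ≤ x) (h1 : x ≤ 1 / 2) (ht : |t| ≤ 316 / 1000) :
    |t| * |Real.cos (Real.pi * x) / Real.sin (Real.pi * x)| < 80 / 1000 := by
  have h : chk [eC 80 316] 30 [V.of 1000 424 500] = true := by decide +kernel
  have := cot_le_of (t := t) (by linarith only [h0]) h1 (pos_of_chk (chk1 h (by norm_num)
    (by norm_num; linarith only [h0]) (by norm_num; linarith only [h1]))) (by norm_num; linarith only [ht])
  norm_num at this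
  linarith only [this]

/-- the expression of `K2` -/
def eK2 : E := sub (mul (add (q 1 2) (sub (var 1) (var 0)))
    (mul (sinPi (add (var 0) (var 1))) (sinPi (var 0))))
  (mul (q 197 1000) (add (mul (cosPi (add (var 0) (var 1))) (sinPi (var 0)))
    (mul (cosPi (var 0)) (sinPi (add (var 0) (var 1))))))

lemma k2_num {x y s t : ℝ} (h0 : 181 / 1000 ≤ x) (h1 : 181 / 1000 ≤ y) (h : x + y ≤ 1 / 2)
    (hs : |s| ≤ 197 / 1000) (ht : 2 * |t| ≤ 197 / 1000) :
    |s| * |Real.cos (Real.pi * (x + y)) / Real.sin (Real.pi * (x + y))| +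
      2 * (|t| * |Real.cos (Real.pi * x) / Real.sin (Real.pi * x)|) < 1 / 2 + y - x := by
  have hk : chk [eK2, sub (add (var 0) (var 1)) (q 1 2)] 30 [V.of 1000 181 319, V.of 1000 181 319] =
    true := by decide +kernel
  obtain ⟨e, he, h2⟩ := chk2 hk (by norm_num) (x := x) (y := y) (by norm_num; linarith only [h0])
    (by norm_num; linarith only [h1, h]) (by norm_num; linarith only [h1]) (by norm_num; linarith only [h0, h])
  have hs1 := sin_pi_pos' (x := x) (by linarith only [h0]) (by linarith only [h1, h])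
  have hs2 := sin_pi_pos' (x := x + y) (by linarith only [h0, h1]) (by linarith only [h])
  have hc1 : 0 ≤ Real.cos (Real.pi * x) := Real.cos_nonneg_of_mem_Icc
    ⟨by nlinarith only [h0, Real.pi_pos], by nlinarith only [h1, h, Real.pi_pos]⟩
  have hc2 : 0 ≤ Real.cos (Real.pi * (x + y)) := Real.cos_nonneg_of_mem_Icc
    ⟨by nlinarith only [h0, h1, Real.pi_pos], by nlinarith only [h, Real.pi_pos]⟩
  have h3 : 0 < eK2.val [x, y] := by
    simp only [List.mem_cons, List.not_mem_nil, or_false] at he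
    rcases he with rfl | rfl
    · exact h2
    · simp only [E.val, lkR_zero, lkR_one] at h2
      norm_num at h2
      linarith only [h, h2]
  simp only [eK2, E.val, lkR_zero, lkR_one] at h3
  rw [abs_div, abs_of_pos hs2, abs_of_nonneg hc2, abs_div, abs_of_pos hs1, abs_of_nonneg hc1]
  have g1 : |s| * (Real.cos (Real.pi * (x + y)) / Real.sin (Real.pi * (x + y))) ≤
      197 / 1000 * (Real.cos (Real.pi * (x + y)) / Real.sin (Real.pi * (x + y))) :=
    mul_le_mul_of_nonneg_right hs (by positivity)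
  have g2 : 2 * (|t| * (Real.cos (Real.pi * x) / Real.sin (Real.pi * x))) ≤
      197 / 1000 * (Real.cos (Real.pi * x) / Real.sin (Real.pi * x)) := by
    rw [← mul_assoc]
    exact mul_le_mul_of_nonneg_right ht (by positivity)
  have g3 : 197 / 1000 * (Real.cos (Real.pi * (x + y)) / Real.sin (Real.pi * (x + y))) +
      197 / 1000 * (Real.cos (Real.pi * x) / Real.sin (Real.pi * x)) =
      (197 / 1000 * (Real.cos (Real.pi * (x + y)) * Real.sin (Real.pi * x) +
      Real.cos (Real.pi * x) * Real.sin (Real.pi * (x + y)))) /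
      (Real.sin (Real.pi * (x + y)) * Real.sin (Real.pi * x)) := by
    field_simp
  have g4 : (197 / 1000 * (Real.cos (Real.pi * (x + y)) * Real.sin (Real.pi * x) +
      Real.cos (Real.pi * x) * Real.sin (Real.pi * (x + y)))) /
      (Real.sin (Real.pi * (x + y)) * Real.sin (Real.pi * x)) < 1 / 2 + y - x := by
    rw [div_lt_iff₀ (mul_pos hs2 hs1)]
    push_cast at h3
    linarith only [h3]
  linarith only [g1, g2, g3, g4]

/-- the expression of a lower bound of `PP` -/
def eP (n : ℤ) : E := sub (mul (sinPi (var 0)) (cosPi (var 0)))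
  (mul (q n 100) (add (sq (sinPi (var 0))) (sq (sinh (mul pi (var 1))))))

lemma PP_of {n : ℤ} {x t : ℝ} (h0 : 0 < x) (h1 : x < 1) (h : 0 < (eP n).val [x, |t|]) :
    (n : ℝ) / 100 < NumIs.PP x t := by
  have hM := NumIs.MM_pos (t := t) (sin_pi_pos' h0 h1)
  simp only [eP, E.val, lkR_zero, lkR_one] at h
  unfold NumIs.PP
  rw [lt_div_iff₀ hM]
  have e2 : Real.sinh (Real.pi * |t|) ^ 2 = Real.sinh (Real.pi * t) ^ 2 := by
    rcases abs_choice t with h | h <;> rw [h]
    rw [mul_neg, Real.sinh_neg, neg_sq]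
  unfold NumIs.MM
  rw [e2] at h
  push_cast at h
  linarith only [h]

lemma PP_A {x t : ℝ} (h0 : 174 / 1000 ≤ x) (h1 : x ≤ 314 / 1000) (ht : |t| ≤ 1145 / 10000) :
    50 / 100 < NumIs.PP x t := by
  have h : chk [eP 50] 30 [V.of 10000 1740 3140, V.of 10000 0 1145] = true := by decide +kernel
  have := PP_of (x := x) (t := t) (by linarith only [h0]) (by linarith only [h1]) (pos_of_chk (chk2 h (by norm_num)
    (by norm_num; linarith only [h0]) (by norm_num; linarith only [h1]) (by norm_num) (by norm_num; linarith only [ht])))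
  norm_num at this
  linarith only [this]

lemma PP_B {x t : ℝ} (h0 : 186 / 1000 ≤ x) (h1 : x ≤ 338 / 1000) (ht : |t| ≤ 2745 / 10000) :
    24 / 100 < NumIs.PP x t := by
  have h : chk [eP 24] 30 [V.of 10000 1860 3380, V.of 10000 0 2745] = true := by decide +kernel
  have := PP_of (x := x) (t := t) (by linarith only [h0]) (by linarith only [h1]) (pos_of_chk (chk2 h (by norm_num)
    (by norm_num; linarith only [h0]) (by norm_num; linarith only [h1]) (by norm_num) (by norm_num; linarith only [ht])))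
  norm_num at this
  linarith only [this]

lemma PP_C {x t : ℝ} (h0 : 1 / 2 ≤ x) (h1 : x ≤ 512 / 1000) (ht : |t| ≤ 16 / 100) :
    -(4 / 100) < NumIs.PP x t := by
  have h : chk [eP (-4)] 30 [V.of 1000 500 512, V.of 1000 0 160] = true := by decide +kernel
  have := PP_of (x := x) (t := t) (by linarith only [h0]) (by linarith only [h1]) (pos_of_chk (chk2 h (by norm_num)
    (by norm_num; linarith only [h0]) (by norm_num; linarith only [h1]) (by norm_num) (by norm_num; linarith only [ht])))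
  norm_num at this
  linarith only [this]

end num

/-! ### the local conditions -/

lemma ph'_re_PP {z : ℂ} (hz : z ∈ strip) : (ph' z).re = Real.pi * NumIs.PP z.re z.im := by
  rw [ph'_eq (sin_ne_of_strip hz), ← Num.CC_PP]
  simp

lemma ph'_im_QQ {z : ℂ} (hz : z ∈ strip) : (ph' z).im = -(Real.pi * NumIs.QQ z.re z.im) := by
  rw [ph'_eq (sin_ne_of_strip hz), ← Num.SS_QQ]
  simp

lemma Hg_of_QQ {w : ℂ} (h0 : 0 < w.re) (h1 : w.re < 1 / 2) (h : |NumIs.QQ w.re w.im| < 1) :
    Hg w := by
  refine ⟨h0, h1, ?_⟩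
  rw [ph'_im_QQ ⟨h0, by linarith only [h0, h1]⟩, abs_neg, abs_mul, abs_of_pos Real.pi_pos]
  have := mul_lt_mul_of_pos_left h Real.pi_pos
  linarith only [this]

lemma Hg_one {w : ℂ} (h0 : 212 / 1000 ≤ w.re) (h1 : w.re < 1 / 2) (ht : |w.im| ≤ 158 / 1000) :
    Hg w := Hg_of_QQ (by linarith only [h0, h1]) h1 (QQ_lt_one h0 h1.le ht)

lemma Hg_two {w : ℂ} (h0 : 181 / 1000 ≤ w.re) (h1 : w.re < 1 / 2) (ht : |w.im| ≤ 985 / 10000) :
    Hg w := Hg_of_QQ (by linarith only [h0, h1]) h1 (QQ_lt_two h0 h1.le ht)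

lemma K2_two {w v : ℂ} (h0 : 181 / 1000 ≤ w.re) (ht : |w.im| ≤ 985 / 10000)
    (h0' : 181 / 1000 ≤ v.re) (ht' : |v.im| ≤ 985 / 10000) : K2 w v := by
  unfold K2
  rcases le_or_gt (1 / 2) (w.re + v.re) with h | h
  · exact Or.inl h
  · right
    have h2 := k2_num (s := (w + v).im) (t := w.im) h0 h0' h.le (by
      rw [Complex.add_im]
      have := abs_add_le w.im v.im
      linarith only [ht, ht', this]) (by linarith only [ht])
    unfold hc
    rw [Complex.add_re]
    exact h2

lemma K1s_one {w v : ℂ} (h0 : 212 / 1000 ≤ w.re) (h1 : w.re < 1 / 2) (ht : |w.im| ≤ 158 / 1000)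
    (h0' : 212 / 1000 ≤ v.re) (h1' : v.re < 1 / 2) (ht' : |v.im| ≤ 158 / 1000)
    (hn : 0 ≤ w.im ∨ |w.im| * |Real.cos (Real.pi * w.re) / Real.sin (Real.pi * w.re)| < 102 / 1000) :
    K1s 1 w v := by
  have hpi := Real.pi_pos
  have sw : w ∈ strip := ⟨by linarith only [h0, h1], by linarith only [h0, h1]⟩
  have s2 : 1 - w ∈ strip := ⟨by simp only [Complex.sub_re, Complex.one_re]; linarith only [h0, h1],
    by simp only [Complex.sub_re, Complex.one_re]; linarith only [h0, h1]⟩
  have ss : w + v ∈ strip := ⟨by simp only [Complex.add_re]; linarith only [h0, h1, h0'],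
    by simp only [Complex.add_re]; linarith only [h1, h1']⟩
  unfold K1s
  have e : (jj 1 * (Real.pi * (1 - v)) + ph (w + v) - ph (1 - w)).im =
      Real.pi * (1 - v.re) + (ph (w + v)).im - (ph w).im := by
    rw [Complex.sub_im, Complex.add_im, ph_one_sub_im sw, jj_mul_im]
    unfold jj
    norm_num
  rw [e]
  have i1 := ph_im_le ss
  have i2 := ph_im_lt' sw (by linarith only [h1])
  have a1 := abs_le.1 i1
  have a2 := abs_lt.1 i2
  rw [abs_of_pos (by linarith only [h1] : (0 : ℝ) < 1 / 2 - w.re)] at a2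
  rw [abs_lt]
  have hss : |1 / 2 - (w + v).re| < 1 / 2 := by
    rw [abs_lt, Complex.add_re]
    constructor <;> linarith only [h1, h1', h0, h0']
  have hss' := mul_lt_mul_of_pos_left hss hpi
  have p1 := mul_lt_mul_of_pos_left h1 hpi
  have p2 := mul_lt_mul_of_pos_left h1' hpi
  have p3 := mul_le_mul_of_nonneg_left h0 hpi.le
  constructor
  · nlinarith only [a1, a2, hss', p2, p3]
  · rcases le_or_gt (1 / 2) (w.re + v.re) with h | h
    · rw [Complex.add_re, abs_of_nonpos (by linarith only [h])] at a1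
      nlinarith only [a1, a2]
    · have b1 := ph_im_le_hc ss
      have b2 := ph_im_le_hc sw
      have c1 := cot_sum (x := (w + v).re) (t := (w + v).im) (by rw [Complex.add_re]; linarith only [h0, h0'])
        (by rw [Complex.add_re]; linarith only [h]) (by
          rw [Complex.add_im]
          have := abs_add_le w.im v.im
          linarith only [ht, ht', this])
      have c2 : -(ph w).im < Real.pi * (102 / 1000) := by
        rcases hn with hn | hn
        · have : 0 ≤ (ph w).im := by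
            rw [Num.ph_im sw]
            unfold Num.B
            rw [← Real.arctan_zero]
            apply Real.arctan_strictMono.monotone
            have hs := sin_pi_pos' sw.1 sw.2
            have hcc : 0 ≤ Real.cos (Real.pi * w.re) := Real.cos_nonneg_of_mem_Icc
              ⟨by nlinarith only [a2, p3], by nlinarith only [a2]⟩
            have hsh : 0 ≤ Real.sinh (Real.pi * w.im) := Real.sinh_nonneg_iff.2 (by positivity)
            have hch := Real.cosh_pos (Real.pi * w.im)
            positivity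
          linarith only [a2, p3, this]
        · have h3 := neg_le_of_abs_le b2
          have h4 : Real.pi * hc w < Real.pi * (102 / 1000) := mul_lt_mul_of_pos_left hn hpi
          linarith only [h3, h4]
      have c3 : (ph (w + v)).im < Real.pi * (80 / 1000) := by
        have h3 := le_of_abs_le b1
        have h4 : Real.pi * hc (w + v) < Real.pi * (80 / 1000) := mul_lt_mul_of_pos_left c1 hpi
        linarith only [h3, h4]
      nlinarith only [p3, c2, c3, h0, a2, h1, h0', hpi]

/-- the bounds of the boxes of hinges at a region with one crossing -/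
lemma box_one {B : Cl} {s : Bool} {w : ℂ} (h : (hbox .one B s).In w) : 212 / 1000 ≤ w.re ∧
    |w.im| ≤ 158 / 1000 ∧ (w.re < 1 / 2 →
    0 ≤ w.im ∨ |w.im| * |Real.cos (Real.pi * w.re) / Real.sin (Real.pi * w.re)| < 102 / 1000) := by
  obtain ⟨h1, h2, h3, h4⟩ := h
  cases B <;> simp only [hbox] at h1 h2 h3 h4
  · refine ⟨by linarith only [h1], abs_le.2 ⟨by linarith only [h3], by linarith only [h4]⟩, fun h => Or.inr ?_⟩
    exact cot_one h1 h.le (abs_le.2 ⟨by linarith only [h3], by linarith only [h4]⟩)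
  · refine ⟨by linarith only [h1], abs_le.2 ⟨by linarith only [h3], by linarith only [h4]⟩, fun h => ?_⟩
    rcases le_or_gt 0 w.im with h5 | h5
    · exact Or.inl h5
    · exact Or.inr (cot_two (by linarith only [h1, h3, h5]) h.le (abs_le.2 ⟨by linarith only [h3, h5], by linarith only [h3, h5]⟩))
  · refine ⟨by linarith only [h1], abs_le.2 ⟨by linarith only [h3], by linarith only [h4]⟩, fun h => Or.inr ?_⟩
    exact cot_two (by linarith only [h1, h]) h.le (abs_le.2 ⟨by linarith only [h3], by linarith only [h1, h4, h]⟩)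
  all_goals
    refine ⟨by linarith only [h1], abs_le.2 ⟨by linarith only [h3], by linarith only [h4]⟩, fun _ => Or.inl (by linarith)⟩

/-- **A region with one crossing.** -/
theorem run_one {A B : Cl} {s s' : Bool} {w v : ℂ} (hw : (hbox .one A s).In w) (h1 : w.re < 1 / 2)
    (hv : (hbox .one B s').In v) (h1' : v.re < 1 / 2) : RunOk 1 .one true true ![w, 0, v] := by
  obtain ⟨a1, a2, a3⟩ := box_one hw
  obtain ⟨b1, b2, b3⟩ := box_one hv
  refine ⟨?_, ?_, ?_, ?_, ?_, ?_, Or.inl ⟨?_, ?_⟩⟩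
  · show 0 < w.re
    linarith only [h1, a1]
  · exact h1
  · show 0 < v.re
    linarith only [h1, a1, b1]
  · exact h1'
  · exact K1s_one a1 h1 a2 b1 h1' b2 (a3 h1)
  · exact K1s_one b1 h1' b2 a1 h1 a2 (b3 h1')
  · exact Hg_one a1 h1 a2
  · exact Hg_one b1 h1' b2

/-- the bounds of the boxes of hinges at an inner region with two crossings -/
lemma box_two {B : Cl} {s : Bool} {w : ℂ} (h : (hbox .two B s).In w) : 181 / 1000 ≤ w.re ∧
    w.re < 1 / 2 ∧ |w.im| ≤ 985 / 10000 := by
  obtain ⟨h1, h2, h3, h4⟩ := h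
  cases B <;> simp only [hbox] at h1 h2 h3 h4 <;>
    exact ⟨by linarith only [h1], by linarith only [h2], abs_le.2 ⟨by linarith only [h3], by linarith only [h4]⟩⟩

/-- **A region with two crossings.** -/
theorem run_two {A B : Cl} {s s' : Bool} {w v : ℂ} (hw : (hbox .two A s).In w)
    (hv : (hbox .two B s').In v) : RunOk 1 .two true true ![w, 0, v] := by
  obtain ⟨a1, a2, a3⟩ := box_two hw
  obtain ⟨b1, b2, b3⟩ := box_two hv
  exact ⟨Hg_two a1 a2 a3, Hg_two b1 b2 b3, K2_two a1 a3 b1 b3, K2_two b1 b3 a1 a3⟩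

/-- the bounds of the boxes of hinges at an inner region with three crossings -/
lemma box_three {B : Cl} {s : Bool} {w : ℂ} (h : (hbox .three B s).In w) : 174 / 1000 ≤ w.re ∧
    w.re ≤ 314 / 1000 ∧ |w.im| ≤ 1145 / 10000 := by
  obtain ⟨h1, h2, h3, h4⟩ := h
  cases B <;> simp only [hbox] at h1 h2 h3 h4 <;>
    exact ⟨by linarith only [h1], by linarith only [h2], abs_le.2 ⟨by linarith only [h3], by linarith only [h4]⟩⟩

lemma Hl_three {w l : ℂ} (h0 : 174 / 1000 ≤ w.re) (h1 : w.re ≤ 314 / 1000)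
    (ht : |w.im| ≤ 1145 / 10000) (l0 : 325 / 1000 ≤ l.re) (l1 : l.re ≤ 512 / 1000)
    (lt : |l.im| ≤ 16 / 100) : Hl w l := by
  have hpi := Real.pi_pos
  have sw : w ∈ strip := ⟨by linarith only [h0], by linarith only [h1]⟩
  have sl : l ∈ strip := ⟨by linarith only [l0], by linarith only [l1]⟩
  have slw : l - w ∈ strip := ⟨by simp only [Complex.sub_re]; linarith only [h1, l0],
    by simp only [Complex.sub_re]; linarith only [h0, l1]⟩
  refine ⟨by linarith only [h0], by linarith only [h1], by linarith only [h1, l0], by linarith only [h0, l1], ?_⟩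
  rcases le_or_gt l.re (1 / 2) with h | h
  · have hA := LT.ph'_re_pos sw.1 (by linarith only [h1] : w.re < 1 / 2)
    have hB : 0 < (ph' (l - w)).re := LT.ph'_re_pos slw.1 (by rw [Complex.sub_re]; linarith only [h0, l1])
    have hC := re_nonneg_of_le sl.1 h
    positivity
  · rw [ph'_re_PP sw, ph'_re_PP sl, ph'_re_PP slw]
    have hA := PP_A h0 h1 ht
    have hB := PP_B (x := (l - w).re) (t := (l - w).im) (by rw [Complex.sub_re]; linarith only [h1, h])
      (by rw [Complex.sub_re]; linarith only [h0, l1]) (by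
        rw [Complex.sub_im]
        have := abs_sub l.im w.im
        linarith only [ht, lt, this])
    have hC := PP_C h.le l1 lt
    set A := NumIs.PP w.re w.im
    set B := NumIs.PP (l - w).re (l - w).im
    set C := NumIs.PP l.re l.im
    have e : Real.pi * A * (Real.pi * B) + Real.pi * C * (Real.pi * A + Real.pi * B) =
        Real.pi ^ 2 * (A * B + C * (A + B)) := by ring
    rw [e]
    apply mul_pos (by positivity)
    have h2 : -(4 / 100) * (A + B) < C * (A + B) := mul_lt_mul_of_pos_right hC (by linarith only [l1, h, hA, hB])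
    nlinarith only [l1, h, hA, hB, h2, mul_pos (sub_pos.2 hA) (sub_pos.2 hB)]

/-- **A region with three crossings.** -/
theorem run_three {A B : Cl} {s s' : Bool} {w l v : ℂ} (hw : (hbox .three A s).In w)
    {C : Cl} (hl : (mbox C).In l) (hv : (hbox .three B s').In v) (h3 : 1 / 2 ≤ l.re + v.re) :
    RunOk 1 .threeL true true ![w, l, v] ∧ 0 ≤ w.re + l.re - v.re ∧ w.re + l.re - v.re ≤ 1 := by
  obtain ⟨a1, a2, a3⟩ := box_three hw
  obtain ⟨b1, b2, b3⟩ := box_three hv
  obtain ⟨c1, c2, c3, c4⟩ := hl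
  have hx : (mbox C).x0 = 325 / 1000 ∧ (mbox C).x1 = 512 / 1000 ∧ (mbox C).t0 = -(160 / 1000) ∧
      (mbox C).t1 = 15 / 1000 := by
    cases C <;> exact ⟨rfl, rfl, rfl, rfl⟩
  rw [hx.1] at c1
  rw [hx.2.1] at c2
  rw [hx.2.2.1] at c3
  rw [hx.2.2.2] at c4
  have hlt : |l.im| ≤ 16 / 100 := abs_le.2 ⟨by linarith only [c3], by linarith only [c4]⟩
  refine ⟨⟨Hl_three a1 a2 a3 c1 c2 hlt, ?_, ?_, ?_, h3, ?_, ?_⟩, by linarith only [h3, a1, b2], by linarith only [a2, b1, c2]⟩
  · show w.re < 1 / 2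
    linarith only [a2]
  · show 0 < v.re
    linarith only [b1]
  · show v.re < 1 / 2
    linarith only [b2]
  · show l.re + v.re < 1
    linarith only [b2, c2]
  · show l.re ≤ v.re + 1 / 2
    linarith only [b1, c2]

/-! ### the rows -/

lemma BoxRows.box' {K : KFam} (Bx : BoxRows K) {x : SK} {d : ℕ} {l : SK} {d' : ℕ} {l' : SK}
    {R k k' : ℂ} (h : HDt K x d l d' l' R k k') :
    ∃ B s, (hbox (cK d l) B s).In (yH x R k) := by
  have h1 := Bx.box h
  unfold kbox at h1
  split_ifs at h1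
  · exact ⟨_, _, h1⟩
  · exact ⟨_, _, h1⟩

lemma acot2_neg_I : acot2 (-I) = 1 / 2 := by
  unfold acot2 Complex.arctan
  have h1 : 1 - -I * I = 0 := by
    rw [neg_mul, Complex.I_mul_I]
    norm_num
  rw [h1, div_zero, Complex.log_zero]
  simp

/-- **The conditions of the rows from the boxes.**  `l3`: one inequality at an inner region with
three crossings. -/
theorem rows_of_boxes {K : KFam} (Bx : BoxRows K)
    (l3 : ∀ {l r dl ll dr rr w kl kr}, RDt K 3 l r dl ll dr rr w kl kr →
      1 / 2 ≤ (mH l (RR w kl) (Complex.cos w)).re + (yH r (RR w kr) (Complex.cos w)).re)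
    (hZ : ∀ {d l r dl ll dr rr w kl kr}, 4 ≤ d → RDt K d l r dl ll dr rr w kl kr → ZSide l w kl)
    (hZe : ∀ {d r dr rr w kr}, 4 ≤ d → RDe K d r dr rr w kr → ZSide r w kr) : Rows K where
  ne := by
    intro d l d' l' R k k' h hc
    have h1 := (Bx.sp h).2
    rw [hc, acot2_neg_I] at h1
    norm_num at h1
  absd := by
    intro d l d' l' R k k' h
    have h1 := Bx.sp h
    have h2 := Bx.sp h.rev
    have e0 : fz SK.s.sgn R = R := fz_one R
    have e1 : fz SK.s.sgn k' = k' := fz_one k'
    rw [e0, e1] at h2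
    have e : ∀ k, yH .s R k = acot2 (Sp R k) := by
      intro k
      unfold yH
      rw [Hq_s]
    rw [e, e]
    have g1 : (hbox .one (cK d l) false).In (conj (acot2 (Sp R k))) := by
      rw [hbox_swap, Box.in_neg]
      exact h1.1
    have g2 : (hbox .one (cK d' l') false).In (conj (acot2 (Sp R k'))) := by
      rw [hbox_swap, Box.in_neg]
      exact h2.1
    have hr := run_one g1 (by rw [Complex.conj_re]; exact h1.2) g2
      (by rw [Complex.conj_re]; exact h2.2)
    exact hr.conj one_ne_zero (by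
      show acot2 (Sp R k) = conj (conj (acot2 (Sp R k)))
      rw [Complex.conj_conj]) (by
      show acot2 (Sp R k') = conj (conj (acot2 (Sp R k')))
      rw [Complex.conj_conj]) (fun h => absurd h (by decide)) (fun h => absurd h (by decide))
  one := by
    intro l r dl ll dr rr w kl kr h
    obtain ⟨B, s, h1⟩ := Bx.box' h.left
    obtain ⟨B', s', h2⟩ := Bx.box' h.right
    exact run_one (A := B) h1 (Bx.half h.left).2 h2 (Bx.half h.right).2
  two := by
    intro l r dl ll dr rr w kl kr h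
    obtain ⟨B, s, h1⟩ := Bx.box' h.left
    obtain ⟨B', s', h2⟩ := Bx.box' h.right
    have c1 : cK 2 r = .two := by
      unfold cK
      rw [if_neg (by norm_num), if_pos rfl, if_neg h.right.ok.ne]
    have c2 : cK 2 l = .two := by
      unfold cK
      rw [if_neg (by norm_num), if_pos rfl, if_neg h.left.ok.ne]
    rw [c1] at h1
    rw [c2] at h2
    exact run_two h1 h2
  twoE := fun h => Bx.half h.right
  three := by
    intro l r dl ll dr rr w kl kr h
    obtain ⟨B, s, h1⟩ := Bx.box' h.left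
    obtain ⟨B', s', h2⟩ := Bx.box' h.right
    have c1 : cK 3 r = .three := by
      unfold cK
      rw [if_neg (by norm_num), if_neg (by norm_num), if_pos rfl, if_neg h.right.ok.ne]
    have c2 : cK 3 l = .three := by
      unfold cK
      rw [if_neg (by norm_num), if_neg (by norm_num), if_pos rfl, if_neg h.left.ok.ne]
    rw [c1] at h1
    rw [c2] at h2
    exact run_three h1 (Bx.mid h) h2 (l3 h)
  threeE := by
    intro r dr rr w kr h
    have h0 := Bx.half h.right
    obtain ⟨B, s, h1⟩ := Bx.box' h.right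
    have h2 := Bx.midE h
    have c1 : cK 3 .e = .threeE := rfl
    rw [c1] at h1
    have h3 : 162 / 1000 ≤ (yH r (RR w kr) (Complex.cos w)).re ∧
        (yH r (RR w kr) (Complex.cos w)).re ≤ 274 / 1000 := by
      obtain ⟨a1, a2, a3, a4⟩ := h1
      cases B <;> simp only [hbox] at a1 a2 a3 a4 <;> exact ⟨by linarith only [h0, a1], by linarith only [a2, h0]⟩
    obtain ⟨m1, m2, m3, m4⟩ := h2
    simp only [mboxE] at m1 m2
    exact ⟨h0.1, h0.2, by linarith only [h0, h3, m1], by linarith only [h0, h3, m2], by linarith only [h0, h3, m2]⟩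
  ring := hZ
  ringE := hZe

/-- **The location of the saddle point of a word**: the local conditions and the location table. -/
theorem locOK_of_boxes {M : ℕ} {b : Fin (M + 1) → ℤ} {w : ℕ → ℂ} (hb : ClassW b) (F : RingFacts)
    (hw : Sol b w) (hM : 1 ≤ M) {K : KFam} (hK : Snd K b w) (Bx : BoxRows K)
    (l3 : ∀ {l r dl ll dr rr w kl kr}, RDt K 3 l r dl ll dr rr w kl kr →
      1 / 2 ≤ (mH l (RR w kl) (Complex.cos w)).re + (yH r (RR w kr) (Complex.cos w)).re)
    (hZ : ∀ {d l r dl ll dr rr w kl kr}, 4 ≤ d → RDt K d l r dl ll dr rr w kl kr → ZSide l w kl)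
    (hZe : ∀ {d r dr rr w kr}, 4 ≤ d → RDe K d r dr rr w kr → ZSide r w kr) :
    LocOK b w ∧ Loc b (zsW b w) :=
  ⟨locOK_of_rows hb F hw hM hK (rows_of_boxes Bx l3 hZ hZe), loc_of_boxes hb F hw hM hK Bx⟩

end SR

end Pool.Agent.Work.MP_b30479_gtS.G2

end

section

/-!
# Inner variables of regions with three crossings: the groups
-/

namespace Pool.Agent.Work.MP_b30479_gtS.G2.CN.M3

open Complex SR

/-! ### values of the expressions -/

section vals
variable (u w : ℂ)

lemma v_y1 : y1.val u w = 1 - u := by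
  change Ev.one.val u w - u = _
  rw [Ev.val_one]

lemma v_ky : ky.val u w = 4 * (w * u) := by
  change ((4 : ℕ) : ℂ) * (w * u) = _
  push_cast
  ring

lemma v_den : den.val u w = 4 * w * u + (1 - u) ^ 2 := by
  change ky.val u w + y1.val u w ^ 2 = _
  rw [v_ky, v_y1]
  ring

lemma v_yk : yk.val u w = 1 - u + 4 * w * u := by
  change y1.val u w + ky.val u w = _
  rw [v_ky, v_y1]
  ring

lemma v_vm : vm.val u w = 2 - 4 * w - u := by
  change gz 2 0 0 0 - ((4 : ℕ) : ℂ) * w - u = _
  rw [gz_nat]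
  push_cast
  ring

lemma gz_neg (a : ℕ) : gz 0 a 0 0 = -a := by
  unfold gz
  apply Complex.ext <;> simp

lemma v_laN : laN.val u w = -4 * (w * u) ^ 2 := by
  change gz 0 4 0 0 * (w * u) ^ 2 = _
  rw [gz_neg]
  push_cast
  ring

lemma v_raN : raN.val u w = -(w * (1 - u - 4 * w) ^ 2) := by
  change gz 0 1 0 0 * (w * (y1.val u w - ((4 : ℕ) : ℂ) * w) ^ 2) = _
  rw [gz_neg, v_y1]
  push_cast
  ring

lemma v_lsN : lsN.val u w = -(w * (1 - u + 4 * w * u) ^ 2) := by
  change gz 0 1 0 0 * (w * yk.val u w ^ 2) = _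
  rw [gz_neg, v_yk]
  push_cast
  ring

lemma v_rsN : rsN.val u w = -4 * (w * (2 - 4 * w - u)) ^ 2 := by
  change gz 0 4 0 0 * (w * vm.val u w) ^ 2 = _
  rw [gz_neg, v_vm]
  push_cast
  ring

lemma v_yy : yy.val u w = u * (1 - u) := by
  change u * y1.val u w = _
  rw [v_y1]

lemma v_ym : ym.val u w = u * (2 - 4 * w - u) := by
  change u * vm.val u w = _
  rw [v_vm]

lemma v_em : em.val u w = 1 - 4 * w := by
  change Ev.one.val u w - ((4 : ℕ) : ℂ) * w = _
  rw [Ev.val_one]
  push_cast
  ring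

end vals

/-! ### classes of sides -/

/-- sides: opposite sign, digit `1`; split; digit `2` or `3`; end with two crossings; digit at
least `4` -/
inductive C5
  | u | s | o | e | r

namespace C5

/-- the side of kind `x` with the ring `(d, l)` behind it is in the class -/
def Fits (x : SK) (d : ℕ) (l : SK) : C5 → Prop
  | .u => x = .a ∧ d = 1
  | .s => x = .s
  | .o => x = .a ∧ ((d = 2 ∧ l ≠ .e) ∨ d = 3)
  | .e => x = .a ∧ d = 2 ∧ l = .e
  | .r => x = .a ∧ 4 ≤ d

/-- the box of the word hinge -/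
noncomputable def box : C5 → IB
  | .u => bOne
  | .s => bOne
  | .o => bOth
  | .e => bTwoE
  | .r => bRing

/-- the neighbour, on the left -/
noncomputable def gL : C5 → Grp
  | .u => gLa (mirH hU)
  | .s => gLs hS
  | .o => gLa (mirH hO)
  | .e => gLa (mirH hE)
  | .r => gLa (mirH hR)

/-- the neighbour, on the right -/
noncomputable def gR : C5 → Grp
  | .u => gRa (mirH hU)
  | .s => gRs hS
  | .o => gRa (mirH hO)
  | .e => gRa (mirH hE)
  | .r => gRa (mirH hR)

/-- own value -/
noncomputable def ow : C5 → C5 → List QC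
  | .s, .s => h5
  | .s, _ => h4
  | _, .s => h4
  | _, _ => h3

theorem box_ok (c : C5) : c.box.ok = true := by
  cases c <;> decide +kernel

end C5

theorem h3_ok : okH h3 (pg 3 .a .a) = true := by decide +kernel
theorem h4_ok : okH h4 (pg 4 .a .s) = true := by decide +kernel
theorem h5_ok : okH h5 (pg 5 .s .s) = true := by decide +kernel
theorem hU_ok : okH hU (pg 2 .s .a) = true := by decide +kernel
theorem hE_ok : okH hE (pg 2 .e .a) = true := by decide +kernel

/-- lower bounds of the number of crossings -/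
def sS : SK → ℕ | .e => 3 | .a => 2 | .z => 9 | .s => 3
/-- upper bounds of the number of crossings -/
def tS : SK → ℕ | .e => 3 | .a => 3 | .z => 0 | .s => 4
/-- lower bounds of the number of crossings -/
def sR : SK → ℕ | .e => 4 | .a => 4 | .z => 4 | .s => 5

theorem hS_ok : chkU hS .s sS tS = true := by decide +kernel
theorem hO_ok : chkU hO .a sS tS = true := by decide +kernel
theorem hR_ok : chkU hR .a sR (fun _ => 8) = true := by decide +kernel

/-! ### the equations of a ring with three crossings -/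

lemma acot2_I : acot2 I = 1 / 2 := by
  unfold acot2 Complex.arctan
  have h1 : 1 + I * I = 0 := by
    rw [Complex.I_mul_I]
    norm_num
  rw [h1, zero_div, Complex.log_zero]
  simp

lemma ne_of_half {z : ℂ} (h : (acot2 z).re < 1 / 2) : z ≠ I ∧ z ≠ -I := by
  constructor
  · rintro rfl
    rw [acot2_I] at h
    norm_num at h
  · rintro rfl
    rw [acot2_neg_I] at h
    norm_num at h

section
variable {K : KFam} {l r : SK} {dl : ℕ} {ll : SK} {dr : ℕ} {rr : SK} {w kl kr : ℂ}

theorem tri_of (h : RDt K 3 l r dl ll dr rr w kl kr)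
    (hu : (yH l (RR w kl) (Complex.cos w)).re < 1 / 2)
    (hv : (yH r (RR w kr) (Complex.cos w)).re < 1 / 2) :
    Tri (Hq l (RR w kl) (Complex.cos w)) (Hq r (RR w kr) (Complex.cos w))
      (Sp (Hq l (RR w kl) (Complex.cos w)) (Complex.cos w)) (1 / Complex.cos w ^ 2)
      (Complex.cos w ^ 2) := by
  have hc := h.cos_ne
  have hτ : Complex.tan w ≠ 0 := by
    intro h0
    have := h.tan_re
    rw [h0] at this
    simp at this
  have u1 : Hq l (RR w kl) (Complex.cos w) + I ≠ 0 := fun h0 =>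
    (ne_of_half hu).2 (by linear_combination h0)
  have v1 : Hq r (RR w kr) (Complex.cos w) + I ≠ 0 := fun h0 =>
    (ne_of_half hv).2 (by linear_combination h0)
  have h3 := RE_three Complex.I_mul_I u1 hτ h.reH
  rw [Rs_Sp hc, one_add_tan_sq hc] at h3
  exact ⟨one_div_mul_cancel (pow_ne_zero 2 hc), h3.1, h3.2, u1, v1⟩

end

/-- exponentials -/
structure Exps (U V M κ : ℂ) : Prop where
  eu : cexp (2 * Real.pi * I * acot2 U) * (1 - yv M + 4 * κ * yv M) = 1 - yv M
  ev : cexp (2 * Real.pi * I * acot2 V) * (2 - 4 * κ - yv M) = 1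
  em : cexp (2 * Real.pi * I * acot2 M) * yv M = 1

theorem exps_of {U V M q κ : ℂ} (h : Tri U V M q κ) (hu : (acot2 U).re < 1 / 2)
    (hv : (acot2 V).re < 1 / 2) : Exps U V M κ := by
  obtain ⟨u1, u2⟩ := ne_of_half hu
  obtain ⟨v1, v2⟩ := ne_of_half hv
  have m2 : M ≠ -I := fun h0 => h.m1 (by rw [h0]; ring)
  have m1 : M ≠ I := by
    intro h0
    have := h.um
    rw [h0, sub_self, zero_mul] at this
    exact h.q0 this.symm
  have eu := exp_acot2 u1 u2
  have ev := exp_acot2 v1 v2
  have em := exp_acot2 m1 m2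
  refine ⟨?_, ?_, ?_⟩
  · apply mul_right_cancel₀ h.u1
    linear_combination (cexp (2 * Real.pi * I * acot2 U)) * h.eU + (1 - yv M) * eu
  · apply mul_right_cancel₀ h.v1
    linear_combination (cexp (2 * Real.pi * I * acot2 V)) * h.eV + ev
  · apply mul_right_cancel₀ h.m1
    linear_combination (cexp (2 * Real.pi * I * acot2 M)) * h.hy + em

/-! ### the groups -/

section grp
variable {U V M q κ : ℂ}

lemma gO_ok {H : List QC} {u w : ℂ} (h : Sat H w) : (gO H).Ok u w := by
  refine ⟨w, ?_, h⟩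
  change w * Ev.one.val u w = w
  rw [Ev.val_one, mul_one]

lemma gU_ok {H : List QC} (hE : Exps U V M κ) (h : Sat H (cexp (2 * Real.pi * I * acot2 U))) :
    (gU H).Ok (yv M) κ := by
  refine ⟨_, ?_, h⟩
  change _ * yk.val (yv M) κ = y1.val (yv M) κ
  rw [v_yk, v_y1]
  exact hE.eu

lemma gW_ok {H : List QC} (hE : Exps U V M κ) (h : Sat H (cexp (2 * Real.pi * I * acot2 V))) :
    (gW H).Ok (yv M) κ := by
  refine ⟨_, ?_, h⟩
  change _ * vm.val (yv M) κ = Ev.one.val (yv M) κ
  rw [v_vm, Ev.val_one]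
  exact hE.ev

lemma gLa_ok {H : List QC} {c : ℂ} (h : Sat H c)
    (e : c * (4 * κ * yv M + (1 - yv M) ^ 2) = -4 * (κ * yv M) ^ 2) : (gLa H).Ok (yv M) κ := by
  refine ⟨c, ?_, h⟩
  change c * den.val (yv M) κ = laN.val (yv M) κ
  rw [v_den, v_laN]
  exact e

lemma gLs_ok {H : List QC} {c : ℂ} (h : Sat H c) (e : c * (4 * κ * yv M + (1 - yv M) ^ 2) =
      -(κ * (1 - yv M + 4 * κ * yv M) ^ 2)) : (gLs H).Ok (yv M) κ := by
  refine ⟨c, ?_, h⟩
  change c * den.val (yv M) κ = lsN.val (yv M) κ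
  rw [v_den, v_lsN]
  exact e

lemma gRa_ok {H : List QC} {c : ℂ} (h : Sat H c)
    (e : c * (4 * κ * yv M + (1 - yv M) ^ 2) = -(κ * (1 - yv M - 4 * κ) ^ 2)) :
    (gRa H).Ok (yv M) κ := by
  refine ⟨c, ?_, h⟩
  change c * den.val (yv M) κ = raN.val (yv M) κ
  rw [v_den, v_raN]
  exact e

lemma gRs_ok {H : List QC} {c : ℂ} (h : Sat H c)
    (e : c * (4 * κ * yv M + (1 - yv M) ^ 2) = -4 * (κ * (2 - 4 * κ - yv M)) ^ 2) :
    (gRs H).Ok (yv M) κ := by
  refine ⟨c, ?_, h⟩
  change c * den.val (yv M) κ = rsN.val (yv M) κ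
  rw [v_den, v_rsN]
  exact e

end grp

/-! ### the tables -/

namespace C5

/-- windows of the inner variable -/
noncomputable def mB (c c' : C5) : BB :=
  match c, c' with
  | .u, .u => m_11
  | .u, .s => m_11
  | .u, .o => m_1o
  | .u, .e => m_1e
  | .u, .r => m_1r
  | .s, .u => m_11
  | .s, .s => m_11
  | .s, .o => m_1o
  | .s, .e => m_1e
  | .s, .r => m_1r
  | .o, .u => m_o1
  | .o, .s => m_o1
  | .o, .o => m_oo
  | .o, .e => m_oe
  | .o, .r => m_or
  | .e, .u => m_e1
  | .e, .s => m_e1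
  | .e, .o => m_eo
  | .e, .e => m_ee
  | .e, .r => m_er
  | .r, .u => m_o1
  | .r, .s => m_o1
  | .r, .o => m_oo
  | .r, .e => m_oe
  | .r, .r => m_or

/-- windows of the difference -/
noncomputable def dB (c c' : C5) : TB :=
  match c, c' with
  | .u, .u => s_11
  | .u, .s => s_11
  | .u, .o => s_1o
  | .u, .e => s_1e
  | .u, .r => s_1r
  | .s, .u => s_11
  | .s, .s => s_11
  | .s, .o => s_1o
  | .s, .e => s_1e
  | .s, .r => s_1r
  | .o, .u => s_o1
  | .o, .s => s_o1
  | .o, .o => s_oo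
  | .o, .e => s_oe
  | .o, .r => s_or
  | .e, .u => s_e1
  | .e, .s => s_e1
  | .e, .o => s_eo
  | .e, .e => s_ee
  | .e, .r => s_er
  | .r, .u => s_o1
  | .r, .s => s_o1
  | .r, .o => s_oo
  | .r, .e => s_oe
  | .r, .r => s_or

/-- the additional goal -/
noncomputable def ex : C5 → List Grp
  | .e => [gSm hSm]
  | _ => []

end C5

end Pool.Agent.Work.MP_b30479_gtS.G2.CN.M3

end

section

/-!
# Inner variables of regions with three crossings
-/

set_option deprecated.oldSectionVars true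

namespace Pool.Agent.Work.MP_b30479_gtS.G2.CN.M3

open Complex SR

namespace C5

/-- the runs -/
theorem tab (c c' : C5) : ∃ n code, row [gO (ow c c'), gU c.box.H, gW c'.box.H, c.gL, c'.gR]
    ([gM (mB c c').H, gDf (dB c c').H] ++ ex c') n code root3 = true :=
  match c, c' with
  | .u, .u => ⟨_, _, t_uu⟩
  | .u, .s => ⟨_, _, t_us⟩
  | .u, .o => ⟨_, _, t_uo⟩
  | .u, .e => ⟨_, _, t_ue⟩
  | .u, .r => ⟨_, _, t_ur⟩
  | .s, .u => ⟨_, _, t_su⟩
  | .s, .s => ⟨_, _, t_ss⟩
  | .s, .o => ⟨_, _, t_so⟩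
  | .s, .e => ⟨_, _, t_se⟩
  | .s, .r => ⟨_, _, t_sr⟩
  | .o, .u => ⟨_, _, t_ou⟩
  | .o, .s => ⟨_, _, t_os⟩
  | .o, .o => ⟨_, _, t_oo⟩
  | .o, .e => ⟨_, _, t_oe⟩
  | .o, .r => ⟨_, _, t_or⟩
  | .e, .u => ⟨_, _, t_eu⟩
  | .e, .s => ⟨_, _, t_es⟩
  | .e, .o => ⟨_, _, t_eo⟩
  | .e, .e => ⟨_, _, t_ee⟩
  | .e, .r => ⟨_, _, t_er⟩
  | .r, .u => ⟨_, _, t_ru⟩
  | .r, .s => ⟨_, _, t_rs⟩
  | .r, .o => ⟨_, _, t_ro⟩
  | .r, .e => ⟨_, _, t_re⟩
  | .r, .r => ⟨_, _, t_rr⟩

end C5

theorem m11_ok : m_11.ok = true := by decide +kernel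
theorem m1o_ok : m_1o.ok = true := by decide +kernel
theorem m1e_ok : m_1e.ok = true := by decide +kernel
theorem m1r_ok : m_1r.ok = true := by decide +kernel
theorem mo1_ok : m_o1.ok = true := by decide +kernel
theorem moo_ok : m_oo.ok = true := by decide +kernel
theorem moe_ok : m_oe.ok = true := by decide +kernel
theorem mor_ok : m_or.ok = true := by decide +kernel
theorem me1_ok : m_e1.ok = true := by decide +kernel
theorem meo_ok : m_eo.ok = true := by decide +kernel
theorem mee_ok : m_ee.ok = true := by decide +kernel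
theorem mer_ok : m_er.ok = true := by decide +kernel
theorem s11_ok : s_11.ok = true := by decide +kernel
theorem s1o_ok : s_1o.ok = true := by decide +kernel
theorem s1e_ok : s_1e.ok = true := by decide +kernel
theorem s1r_ok : s_1r.ok = true := by decide +kernel
theorem so1_ok : s_o1.ok = true := by decide +kernel
theorem soo_ok : s_oo.ok = true := by decide +kernel
theorem soe_ok : s_oe.ok = true := by decide +kernel
theorem sor_ok : s_or.ok = true := by decide +kernel
theorem se1_ok : s_e1.ok = true := by decide +kernel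
theorem seo_ok : s_eo.ok = true := by decide +kernel
theorem see_ok : s_ee.ok = true := by decide +kernel
theorem ser_ok : s_er.ok = true := by decide +kernel

namespace C5

theorem mB_ok (c c' : C5) : (mB c c').ok = true :=
  match c, c' with
  | .u, .u => m11_ok
  | .u, .s => m11_ok
  | .u, .o => m1o_ok
  | .u, .e => m1e_ok
  | .u, .r => m1r_ok
  | .s, .u => m11_ok
  | .s, .s => m11_ok
  | .s, .o => m1o_ok
  | .s, .e => m1e_ok
  | .s, .r => m1r_ok
  | .o, .u => mo1_ok
  | .o, .s => mo1_ok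
  | .o, .o => moo_ok
  | .o, .e => moe_ok
  | .o, .r => mor_ok
  | .e, .u => me1_ok
  | .e, .s => me1_ok
  | .e, .o => meo_ok
  | .e, .e => mee_ok
  | .e, .r => mer_ok
  | .r, .u => mo1_ok
  | .r, .s => mo1_ok
  | .r, .o => moo_ok
  | .r, .e => moe_ok
  | .r, .r => mor_ok

theorem dB_ok (c c' : C5) : (dB c c').ok = true :=
  match c, c' with
  | .u, .u => s11_ok
  | .u, .s => s11_ok
  | .u, .o => s1o_ok
  | .u, .e => s1e_ok
  | .u, .r => s1r_ok
  | .s, .u => s11_ok
  | .s, .s => s11_ok
  | .s, .o => s1o_ok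
  | .s, .e => s1e_ok
  | .s, .r => s1r_ok
  | .o, .u => so1_ok
  | .o, .s => so1_ok
  | .o, .o => soo_ok
  | .o, .e => soe_ok
  | .o, .r => sor_ok
  | .e, .u => se1_ok
  | .e, .s => se1_ok
  | .e, .o => seo_ok
  | .e, .e => see_ok
  | .e, .r => ser_ok
  | .r, .u => so1_ok
  | .r, .s => so1_ok
  | .r, .o => soo_ok
  | .r, .e => soe_ok
  | .r, .r => sor_ok

end C5

end Pool.Agent.Work.MP_b30479_gtS.G2.CN.M3

end

section

/-!
# The conditions at a digit of at least `4` from boxes
-/

namespace Pool.Agent.Work.MP_b30479_gtS.G2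

open Complex Set Filter Topology VOL
open scoped ComplexConjugate

namespace SR

/-- real part of the tangent -/
noncomputable def TT (x t : ℝ) : ℝ := Real.sin (Real.pi * x) * Real.cos (Real.pi * x) /
  (Real.cos (Real.pi * x) ^ 2 + Real.sinh (Real.pi * t) ^ 2)

lemma PP_half (x t : ℝ) : NumIs.PP (x + 1 / 2) t = -TT x t := by
  unfold NumIs.PP NumIs.MM TT
  have e1 : Real.sin (Real.pi * (x + 1 / 2)) = Real.cos (Real.pi * x) := by
    rw [show Real.pi * (x + 1 / 2) = Real.pi * x + Real.pi / 2 by ring, Real.sin_add_pi_div_two]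
  have e2 : Real.cos (Real.pi * (x + 1 / 2)) = -Real.sin (Real.pi * x) := by
    rw [show Real.pi * (x + 1 / 2) = Real.pi * x + Real.pi / 2 by ring, Real.cos_add_pi_div_two]
  rw [e1, e2, mul_neg, neg_div, mul_comm (Real.cos (Real.pi * x))]

section ang
variable {x t : ℝ}

lemma cos_pi_pos' (h : |x| < 1 / 2) : 0 < Real.cos (Real.pi * x) := by
  have h1 := abs_lt.1 h
  have hpi := Real.pi_pos
  exact Real.cos_pos_of_mem_Ioo ⟨by nlinarith only [h1, hpi], by nlinarith only [h1, hpi]⟩

lemma TT_nonneg (h0 : 0 ≤ x) (h1 : x < 1 / 2) : 0 ≤ TT x t := by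
  have hc := cos_pi_pos' (x := x) (by rw [abs_of_nonneg h0]; exact h1)
  have hpi := Real.pi_pos
  have hs : 0 ≤ Real.sin (Real.pi * x) := Real.sin_nonneg_of_nonneg_of_le_pi (by positivity)
    (by nlinarith only [hpi, h1])
  unfold TT
  positivity

/-- a lower bound of the tangent to the left of `0` -/
lemma TT_ge {c : ℝ} (h0 : x ≤ 0) (h1 : -(1 / 2) < x)
    (hc : Real.sin (Real.pi * -x) ≤ c * Real.cos (Real.pi * -x)) : -c ≤ TT x t := by
  have hcp := cos_pi_pos' (x := x) (by rw [abs_of_nonpos h0]; linarith only [h1])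
  have e1 : Real.sin (Real.pi * -x) = -Real.sin (Real.pi * x) := by rw [mul_neg, Real.sin_neg]
  have e2 : Real.cos (Real.pi * -x) = Real.cos (Real.pi * x) := by rw [mul_neg, Real.cos_neg]
  rw [e1, e2] at hc
  have hpi := Real.pi_pos
  have hs : 0 ≤ -Real.sin (Real.pi * x) := by
    rw [← e1]
    exact Real.sin_nonneg_of_nonneg_of_le_pi (by nlinarith only [h0, hpi]) (by nlinarith only [hpi, h1])
  have hc0 : 0 ≤ c := by
    by_contra hn
    push Not at hn
    nlinarith only [hc, hs, hcp, hn]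
  unfold TT
  rw [le_div_iff₀ (by positivity)]
  have h3 : 0 ≤ c * Real.sinh (Real.pi * t) ^ 2 := by positivity
  nlinarith only [h3, hc, hcp]

end ang

section num

open NumIs NumIs.E

def eT (c : ℤ) : E := sub (mul (q c 10000) (cosPi (var 0))) (sinPi (var 0))
def ePP (r : ℤ) : E := sub (mul (sinPi (var 0)) (cosPi (var 0)))
  (mul (q r 10000) (add (sq (sinPi (var 0))) (sq (sinh (mul pi (var 1))))))
def eTT (p : ℤ) : E := sub (mul (sinPi (var 0)) (cosPi (var 0)))
  (mul (q p 10000) (add (sq (cosPi (var 0))) (sq (sinh (mul pi (var 1))))))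
def eHC (T : ℤ) : E := sub (mul (q 2400 10000) (sinPi (var 0))) (mul (q T 10000) (cosPi (var 0)))

/-- the check of a box; unit `1/10000`: `X0 ≤ x ≤ X1`, `|t| ≤ T`, `S0 ≤ |σ| ≤ S1`, `|t - ρ| ≤ P` -/
def zchk (X0 X1 T S0 S1 P c p r : ℤ) : Bool :=
  chk [eT c] 40 [V.of 10000 0 (S1 - X0)] &&
  chk [ePP r] 40 [V.of 10000 X0 X1, V.of 10000 0 T] &&
  chk [eTT p] 40 [V.of 10000 (X0 + S0) (X1 + S1), V.of 10000 0 P] &&
  chk [eHC T] 40 [V.of 10000 X0 X1] &&
  decide (0 < X0 ∧ X1 + S1 < 5000 ∧ S1 ≤ 2500 ∧ 0 ≤ S0 ∧ 0 ≤ T ∧ 0 ≤ c ∧ c < p ∧ 0 < r ∧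
    2 * p * c < r * (p - c) ∧ X0 ≤ S1)

lemma sq_sinh_abs (t : ℝ) : Real.sinh (Real.pi * |t|) ^ 2 = Real.sinh (Real.pi * t) ^ 2 := by
  rcases abs_choice t with h | h <;> rw [h]
  rw [mul_neg, Real.sinh_neg, neg_sq]

/-- **The conditions in a box.** -/
theorem zside_of_chk {X0 X1 T S0 S1 P c p r : ℤ} (h : zchk X0 X1 T S0 S1 P c p r = true)
    {y ζ : ℂ} (x0 : (X0 : ℝ) / 10000 ≤ y.re) (x1 : y.re ≤ (X1 : ℝ) / 10000)
    (ht : |y.im| ≤ (T : ℝ) / 10000) (s0 : (S0 : ℝ) / 10000 ≤ -ζ.re)
    (s1 : -ζ.re ≤ (S1 : ℝ) / 10000) (hP : |y.im - ζ.im| ≤ (P : ℝ) / 10000) :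
    KZ y ζ ∧ Hr y ζ := by
  unfold zchk at h
  simp only [Bool.and_eq_true, decide_eq_true_iff] at h
  obtain ⟨⟨⟨⟨k1, k2⟩, k3⟩, k4⟩, d1, d2, d3, d4, d5, d6, d7, d8, d9, d10⟩ := h
  have hpi := Real.pi_pos
  have c1 : (0 : ℝ) < X0 := by exact_mod_cast d1
  have c2 : (X1 : ℝ) + S1 < 5000 := by exact_mod_cast d2
  have c3 : (S1 : ℝ) ≤ 2500 := by exact_mod_cast d3
  have c4 : (0 : ℝ) ≤ S0 := by exact_mod_cast d4
  have c5 : (0 : ℝ) ≤ T := by exact_mod_cast d5
  have c6 : (0 : ℝ) ≤ c := by exact_mod_cast d6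
  have c7 : (c : ℝ) < p := by exact_mod_cast d7
  have c8 : (0 : ℝ) < r := by exact_mod_cast d8
  have c9 : 2 * (p : ℝ) * c < r * (p - c) := by exact_mod_cast d9
  have c10 : (X0 : ℝ) ≤ S1 := by exact_mod_cast d10
  have g0 : 0 < (X0 : ℝ) / 10000 := by positivity
  have g1 : (X1 : ℝ) / 10000 + S1 / 10000 < 1 / 2 := by
    rw [← add_div, div_lt_div_iff₀ (by norm_num) (by norm_num)]
    linarith only [c2]
  have g2 : (0 : ℝ) ≤ S0 / 10000 := by positivity
  have hσ : |ζ.re| = -ζ.re := abs_of_nonpos (by linarith only [s0, c4])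
  -- the bound of the tangent on the left
  have b1 : -((c : ℝ) / 10000) ≤ TT (y.re + ζ.re) (y.im + ζ.im) := by
    rcases le_or_gt 0 (y.re + ζ.re) with hx | hx
    · have := TT_nonneg (t := y.im + ζ.im) hx (by linarith only [x1, s0, s1, c2, c4])
      have : (0 : ℝ) ≤ c / 10000 := by positivity
      linarith
    · refine TT_ge hx.le (by linarith only [x0, s1, c1, c3, hx]) ?_
      have := pos_of_chk (chk1 k1 (by norm_num) (x := -(y.re + ζ.re)) (by push_cast; linarith only [hx])
        (by push_cast; rw [sub_div]; linarith only [x0, s1]))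
      simp only [eT, E.val, lkR_zero] at this
      push_cast at this
      linarith only [this]
  -- the bound of the tangent on the right
  have b2 : (p : ℝ) / 10000 ≤ TT (y.re - ζ.re) (y.im - ζ.im) := by
    have hc := cos_pi_pos' (x := y.re - ζ.re) (by rw [abs_lt]; constructor <;> linarith only [x0, s0, c1, c4, x1, s1, c2])
    have := pos_of_chk (chk2 k3 (by norm_num) (x := y.re - ζ.re) (y := |y.im - ζ.im|)
      (by push_cast; rw [add_div]; linarith only [x0, s0]) (by push_cast; rw [add_div]; linarith only [x1, s1])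
      (by push_cast; rw [zero_div]; exact abs_nonneg _) hP)
    simp only [eTT, E.val, lkR_zero, lkR_one] at this
    rw [sq_sinh_abs] at this
    unfold TT
    rw [le_div_iff₀ (by positivity)]
    push_cast at this
    linarith only [this]
  -- the bound of the cotangent
  have b3 : (r : ℝ) / 10000 ≤ NumIs.PP y.re y.im := by
    have hM := NumIs.MM_pos (t := y.im) (sin_pi_pos' (x := y.re) (by linarith only [x0, c1]) (by linarith only [x1, s0, s1, c2, c4]))
    have := pos_of_chk (chk2 k2 (by norm_num) (x := y.re) (y := |y.im|) x0 x1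
      (by push_cast; rw [zero_div]; exact abs_nonneg _) ht)
    simp only [ePP, E.val, lkR_zero, lkR_one] at this
    rw [sq_sinh_abs] at this
    unfold NumIs.PP
    rw [le_div_iff₀ hM]
    unfold NumIs.MM
    push_cast at this
    linarith only [this]
  have b4 : hc y < 24 / 100 := by
    have hs := sin_pi_pos' (x := y.re) (by linarith only [x0, c1]) (by linarith only [x1, s0, s1, c2, c4])
    have hcc : 0 < Real.cos (Real.pi * y.re) :=
      cos_pi_pos' (by rw [abs_of_pos (by linarith only [x0, c1])]; linarith only [x1, s0, s1, c2, c4])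
    have := pos_of_chk (chk1 k4 (by norm_num) (x := y.re) x0 x1)
    simp only [eHC, E.val, lkR_zero] at this
    unfold hc
    rw [abs_div, abs_of_pos hs, abs_of_pos hcc, ← mul_div_assoc, div_lt_iff₀ hs]
    have h2 := mul_le_mul_of_nonneg_right ht hcc.le
    push_cast at this
    linarith only [h2, this]
  refine ⟨⟨by linarith only [x0, c1], by rw [hσ]; linarith only [x1, s1, c2], Or.inr ?_⟩, ?_⟩
  · rw [hσ]
    have : (S1 : ℝ) / 10000 ≤ 25 / 100 := by
      rw [div_le_div_iff₀ (by norm_num) (by norm_num)]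
      linarith only [c3]
    linarith only [s1, c3, b4]
  · -- the second derivative
    have e1 : (ph' (y + 1 / 2 + ζ)).re = -(Real.pi * TT (y.re + ζ.re) (y.im + ζ.im)) := by
      rw [ph'_re_PP ⟨by simp; linarith only [x0, s1, c1, c3], by simp; linarith only [x1, s0, s1, c2, c4]⟩]
      have e : (y + 1 / 2 + ζ).re = (y.re + ζ.re) + 1 / 2 := by
        simp
        ring
      have e' : (y + 1 / 2 + ζ).im = y.im + ζ.im := by simp
      rw [e, e', PP_half]
      ring
    have e2 : (ph' (y + 1 / 2 - ζ)).re = -(Real.pi * TT (y.re - ζ.re) (y.im - ζ.im)) := by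
      rw [ph'_re_PP ⟨by simp; linarith only [x0, s0, c1, c4], by simp; linarith only [x1, s1, c2]⟩]
      have e : (y + 1 / 2 - ζ).re = (y.re - ζ.re) + 1 / 2 := by
        simp
        ring
      have e' : (y + 1 / 2 - ζ).im = y.im - ζ.im := by simp
      rw [e, e', PP_half]
      ring
    have e3 : (ph' y).re = Real.pi * NumIs.PP y.re y.im :=
      ph'_re_PP ⟨by linarith only [x0, c1], by linarith only [x1, s0, s1, c2, c4]⟩
    unfold Hr
    rw [e1, e2, e3]
    set A := TT (y.re + ζ.re) (y.im + ζ.im)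
    set B := TT (y.re - ζ.re) (y.im - ζ.im)
    set C := NumIs.PP y.re y.im
    have q1 : 0 < (p - c : ℝ) / 10000 := div_pos (by linarith only [c7]) (by norm_num)
    have q2 : (p - c : ℝ) / 10000 ≤ A + B := by rw [sub_div]; linarith only [b1, b2]
    have q3 : 0 < A + B := by linarith only [c7, b1, b2]
    constructor
    · have : 0 < Real.pi * (A + B) := by positivity
      linarith only [this]
    · have hC : 0 < C := lt_of_lt_of_le (by positivity) b3
      have hp : (0 : ℝ) < p := by linarith only [c6, c7]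
      have hB : 0 < B := lt_of_lt_of_le (by positivity) b2
      -- `2 A B + C (A + B) > 0`
      have key : 0 < 2 * A * B + C * (A + B) := by
        have t1 : -((c : ℝ) / 10000) * (2 * B + C) ≤ A * (2 * B + C) :=
          mul_le_mul_of_nonneg_right b1 (by positivity)
        -- `(C - 2 c) B > c C`
        have hr2 : 2 * (c : ℝ) < r := by
          by_contra hn
          push Not at hn
          have := mul_le_mul_of_nonneg_right hn (by linarith only [c7] : (0 : ℝ) ≤ p - c)
          nlinarith only [c9, this, c6]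
        have t2 : ((r : ℝ) / 10000 - 2 * (c / 10000)) * (p / 10000) ≤
            (C - 2 * (c / 10000)) * B := by
          apply mul_le_mul _ b2 (by positivity)
          · have : 0 ≤ ((r : ℝ) - 2 * c) / 10000 := by
              apply div_nonneg _ (by norm_num)
              linarith only [hr2]
            rw [sub_div, mul_div_assoc] at this
            linarith only [b3, hr2]
          · linarith only [b3]
        have t3 : 0 < C * (B - c / 10000) - 2 * (c / 10000) * B := by
          have u1 : 0 < C - 2 * ((c : ℝ) / 10000) := by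
            have : 0 < ((r : ℝ) - 2 * c) / 10000 := div_pos (by linarith only [hr2]) (by norm_num)
            rw [sub_div, mul_div_assoc] at this
            linarith only [b3, hr2]
          have u2 : (C - 2 * ((c : ℝ) / 10000)) * (p / 10000) ≤
              (C - 2 * (c / 10000)) * B := mul_le_mul_of_nonneg_left b2 u1.le
          have u3 : C * ((p : ℝ) / 10000 - c / 10000) ≥ (r / 10000) * (p / 10000 - c / 10000) := by
            apply mul_le_mul_of_nonneg_right b3
            rw [← sub_div]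
            exact q1.le
          have u4 : 0 < (r : ℝ) / 10000 * (p / 10000 - c / 10000) -
              2 * (c / 10000) * (p / 10000) := by
            have : (r : ℝ) / 10000 * (p / 10000 - c / 10000) - 2 * (c / 10000) * (p / 10000) =
                (r * (p - c) - 2 * p * c) / 100000000 := by ring
            rw [this]
            apply div_pos _ (by norm_num)
            linarith only [c9]
          nlinarith only [c9, u2, u3]
        nlinarith only [t1, t3]
      have : 0 < Real.pi ^ 2 * (2 * (2 * A * B + C * (A + B))) := by positivity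
      nlinarith only [this]

end num

/-- the simple case -/
theorem zside_easy {y ζ : ℂ} (h : |ζ.re| < y.re) (h1 : y.re + |ζ.re| < 1 / 2) :
    KZ y ζ ∧ Hr y ζ := by
  have h0 := abs_nonneg ζ.re
  exact ⟨⟨by linarith only [h, h0], h1, Or.inl h.le⟩, Hr_of (by linarith only [h, h0]) (by linarith only [h1, h0]) h (by linarith only [h1])⟩

/-! ### the boxes -/

section boxes

variable {y ζ : ℂ}

/-- digits `5`, `6` -/
theorem zside56 {B : Cl} {s : Bool} (hB : B ≠ .one) (hy : (hbox .ring B s).In y)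
    (s0 : 109 / 1000 ≤ -ζ.re) (s1 : -ζ.re ≤ 206 / 1000) (r0 : 0 ≤ ζ.im)
    (r1 : ζ.im ≤ 725 / 10000) : KZ y ζ ∧ Hr y ζ := by
  obtain ⟨h1, h2, h3, h4⟩ := hy
  have f : ∀ {P : ℝ}, -P ≤ y.im - ζ.im → y.im - ζ.im ≤ P → |y.im - ζ.im| ≤ P :=
    fun h h' => abs_le.2 ⟨h, h'⟩
  cases B
  case one => exact absurd rfl hB
  case two =>
    simp only [hbox] at h1 h2 h3 h4
    refine zside_of_chk (X0 := 1860) (X1 := 2520) (T := 960) (S0 := 1090) (S1 := 2060) (P := 1685)
      (c := 650) (p := 3900) (r := 8200) (by decide +kernel) ?_ ?_ (abs_le.2 ⟨?_, ?_⟩) ?_ ?_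
      (abs_le.2 ⟨?_, ?_⟩) <;> norm_num <;> linarith only [h1, h2, h3, h4, s0, s1, r1, r0]
  case twoE =>
    simp only [hbox] at h1 h2 h3 h4
    refine zside_of_chk (X0 := 1640) (X1 := 1860) (T := 1310) (S0 := 1090) (S1 := 2060) (P := 2035)
      (c := 1350) (p := 5300) (r := 9400) (by decide +kernel) ?_ ?_ (abs_le.2 ⟨?_, ?_⟩) ?_ ?_
      (abs_le.2 ⟨?_, ?_⟩) <;> norm_num <;> linarith only [h1, h2, h3, h4, s0, s1, r1, r0]
  case three =>
    simp only [hbox] at h1 h2 h3 h4
    refine zside_of_chk (X0 := 1880) (X1 := 2340) (T := 570) (S0 := 1090) (S1 := 2060) (P := 1295)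
      (c := 590) (p := 8500) (r := 10200) (by decide +kernel) ?_ ?_ (abs_le.2 ⟨?_, ?_⟩) ?_ ?_
      (abs_le.2 ⟨?_, ?_⟩) <;> norm_num <;> linarith only [h1, h2, h3, h4, s0, s1, r1, r0]
  case threeE =>
    simp only [hbox] at h1 h2 h3 h4
    refine zside_of_chk (X0 := 1710) (X1 := 1950) (T := 580) (S0 := 1090) (S1 := 2060) (P := 1305)
      (c := 1130) (p := 8200) (r := 12700) (by decide +kernel) ?_ ?_ (abs_le.2 ⟨?_, ?_⟩) ?_ ?_
      (abs_le.2 ⟨?_, ?_⟩) <;> norm_num <;> linarith only [h1, h2, h3, h4, s0, s1, r1, r0]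
  case ring =>
    cases s
    · simp only [hbox] at h1 h2 h3 h4
      refine zside_of_chk (X0 := 1820) (X1 := 2520) (T := 385) (S0 := 1090) (S1 := 2060)
        (P := 1110) (c := 780) (p := 8800) (r := 9500) (by decide +kernel) ?_ ?_
        (abs_le.2 ⟨?_, ?_⟩) ?_ ?_ (abs_le.2 ⟨?_, ?_⟩) <;> norm_num <;> linarith only [h1, h2, h3, h4, s0, s1, r1, r0]
    · simp only [hbox] at h1 h2 h3 h4
      refine zside_of_chk (X0 := 1700) (X1 := 2520) (T := 590) (S0 := 1090) (S1 := 2060)
        (P := 735) (c := 1160) (p := 10300) (r := 9100) (by decide +kernel) ?_ ?_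
        (abs_le.2 ⟨?_, ?_⟩) ?_ ?_ (abs_le.2 ⟨?_, ?_⟩) <;> norm_num <;> linarith only [h1, h2, h3, h4, s0, s1, r1, r0]

/-- the digit `4`, inside -/
theorem zside4 {B : Cl} {s : Bool} (hB : B = .one → y.re ≤ 268 / 1000)
    (hy : (hbox .ring B s).In y) (s0 : 144 / 1000 ≤ -ζ.re) (s1 : -ζ.re ≤ 22 / 100)
    (r0 : 0 ≤ ζ.im) (r1 : ζ.im ≤ 1045 / 10000) : KZ y ζ ∧ Hr y ζ := by
  obtain ⟨h1, h2, h3, h4⟩ := hy
  cases B
  case one =>
    have hB' := hB rfl
    simp only [hbox] at h1 h2 h3 h4
    refine zside_of_chk (X0 := 2140) (X1 := 2680) (T := 1580) (S0 := 1440) (S1 := 2200) (P := 2625)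
      (c := 200) (p := 430) (r := 5950) (by decide +kernel) ?_ ?_ (abs_le.2 ⟨?_, ?_⟩) ?_ ?_
      (abs_le.2 ⟨?_, ?_⟩) <;> norm_num <;> linarith only [h1, hB', h3, h4, s0, s1, r1, r0]
  case two =>
    simp only [hbox] at h1 h2 h3 h4
    refine zside_of_chk (X0 := 1860) (X1 := 2520) (T := 960) (S0 := 1440) (S1 := 2200) (P := 2005)
      (c := 1080) (p := 1880) (r := 8300) (by decide +kernel) ?_ ?_ (abs_le.2 ⟨?_, ?_⟩) ?_ ?_
      (abs_le.2 ⟨?_, ?_⟩) <;> norm_num <;> linarith only [h1, h2, h3, h4, s0, s1, r1, r0]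
  case twoE =>
    simp only [hbox] at h1 h2 h3 h4
    refine zside_of_chk (X0 := 1640) (X1 := 1860) (T := 1310) (S0 := 1440) (S1 := 2200) (P := 2355)
      (c := 1790) (p := 3700) (r := 9500) (by decide +kernel) ?_ ?_ (abs_le.2 ⟨?_, ?_⟩) ?_ ?_
      (abs_le.2 ⟨?_, ?_⟩) <;> norm_num <;> linarith only [h1, h2, h3, h4, s0, s1, r1, r0]
  case three =>
    simp only [hbox] at h1 h2 h3 h4
    refine zside_of_chk (X0 := 1880) (X1 := 2340) (T := 570) (S0 := 1440) (S1 := 2200) (P := 1615)
      (c := 1020) (p := 4650) (r := 10200) (by decide +kernel) ?_ ?_ (abs_le.2 ⟨?_, ?_⟩) ?_ ?_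
      (abs_le.2 ⟨?_, ?_⟩) <;> norm_num <;> linarith only [h1, h2, h3, h4, s0, s1, r1, r0]
  case threeE =>
    simp only [hbox] at h1 h2 h3 h4
    refine zside_of_chk (X0 := 1710) (X1 := 1950) (T := 580) (S0 := 1440) (S1 := 2200) (P := 1625)
      (c := 1560) (p := 7100) (r := 12800) (by decide +kernel) ?_ ?_ (abs_le.2 ⟨?_, ?_⟩) ?_ ?_
      (abs_le.2 ⟨?_, ?_⟩) <;> norm_num <;> linarith only [h1, h2, h3, h4, s0, s1, r1, r0]
  case ring =>
    cases s
    · simp only [hbox] at h1 h2 h3 h4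
      refine zside_of_chk (X0 := 1820) (X1 := 2520) (T := 385) (S0 := 1440) (S1 := 2200)
        (P := 1430) (c := 1210) (p := 3850) (r := 9500) (by decide +kernel) ?_ ?_
        (abs_le.2 ⟨?_, ?_⟩) ?_ ?_ (abs_le.2 ⟨?_, ?_⟩) <;> norm_num <;> linarith only [h1, h2, h3, h4, s0, s1, r1, r0]
    · simp only [hbox] at h1 h2 h3 h4
      refine zside_of_chk (X0 := 1700) (X1 := 2520) (T := 590) (S0 := 1440) (S1 := 2200)
        (P := 1055) (c := 1590) (p := 7000) (r := 9100) (by decide +kernel) ?_ ?_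
        (abs_le.2 ⟨?_, ?_⟩) ?_ ?_ (abs_le.2 ⟨?_, ?_⟩) <;> norm_num <;> linarith only [h1, h2, h3, h4, s0, s1, r1, r0]

/-- the digit `4` at an end, the other region has the opposite sign -/
theorem zside4e {B : Cl} (hB : B = .one → y.re ≤ 247 / 1000) (hB2 : B = .two → y.re ≤ 24 / 100)
    (hy : (hbox .ring B false).In y) (s0 : 186 / 1000 ≤ -ζ.re) (s1 : -ζ.re ≤ 2345 / 10000)
    (r0 : 0 ≤ ζ.im) (r1 : ζ.im ≤ 65 / 1000) : KZ y ζ ∧ Hr y ζ := by
  obtain ⟨h1, h2, h3, h4⟩ := hy
  cases B
  case one =>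
    have hB' := hB rfl
    simp only [hbox] at h1 h2 h3 h4
    refine zside_of_chk (X0 := 2140) (X1 := 2470) (T := 1580) (S0 := 1860) (S1 := 2345) (P := 2230)
      (c := 650) (p := 980) (r := 6530) (by decide +kernel) ?_ ?_ (abs_le.2 ⟨?_, ?_⟩) ?_ ?_
      (abs_le.2 ⟨?_, ?_⟩) <;> norm_num <;> linarith only [h1, hB', h3, h4, s0, s1, r1, r0]
  case two =>
    have hB' := hB2 rfl
    simp only [hbox] at h1 h2 h3 h4
    refine zside_of_chk (X0 := 1860) (X1 := 2400) (T := 960) (S0 := 1860) (S1 := 2345) (P := 1610)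
      (c := 1540) (p := 2780) (r := 8820) (by decide +kernel) ?_ ?_ (abs_le.2 ⟨?_, ?_⟩) ?_ ?_
      (abs_le.2 ⟨?_, ?_⟩) <;> norm_num <;> linarith only [h1, hB', h3, h4, s0, s1, r1, r0]
  case twoE =>
    simp only [hbox] at h1 h2 h3 h4
    refine zside_of_chk (X0 := 1640) (X1 := 1860) (T := 1310) (S0 := 1860) (S1 := 2345) (P := 1960)
      (c := 2260) (p := 4860) (r := 9500) (by decide +kernel) ?_ ?_ (abs_le.2 ⟨?_, ?_⟩) ?_ ?_
      (abs_le.2 ⟨?_, ?_⟩) <;> norm_num <;> linarith only [h1, h2, h3, h4, s0, s1, r1, r0]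
  case three =>
    simp only [hbox] at h1 h2 h3 h4
    refine zside_of_chk (X0 := 1880) (X1 := 2340) (T := 570) (S0 := 1860) (S1 := 2345) (P := 1220)
      (c := 1480) (p := 5900) (r := 10200) (by decide +kernel) ?_ ?_ (abs_le.2 ⟨?_, ?_⟩) ?_ ?_
      (abs_le.2 ⟨?_, ?_⟩) <;> norm_num <;> linarith only [h1, h2, h3, h4, s0, s1, r1, r0]
  case threeE =>
    simp only [hbox] at h1 h2 h3 h4
    refine zside_of_chk (X0 := 1710) (X1 := 1950) (T := 580) (S0 := 1860) (S1 := 2345) (P := 1230)
      (c := 2030) (p := 10300) (r := 12800) (by decide +kernel) ?_ ?_ (abs_le.2 ⟨?_, ?_⟩) ?_ ?_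
      (abs_le.2 ⟨?_, ?_⟩) <;> norm_num <;> linarith only [h1, h2, h3, h4, s0, s1, r1, r0]
  case ring =>
    simp only [hbox] at h1 h2 h3 h4
    refine zside_of_chk (X0 := 1820) (X1 := 2520) (T := 385) (S0 := 1860) (S1 := 2345)
      (P := 1035) (c := 1670) (p := 3750) (r := 9500) (by decide +kernel) ?_ ?_
      (abs_le.2 ⟨?_, ?_⟩) ?_ ?_ (abs_le.2 ⟨?_, ?_⟩) <;> norm_num <;> linarith only [h1, h2, h3, h4, s0, s1, r1, r0]

/-- the digit `4` at an end, the other region has the same sign -/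
theorem zside4z (hx : y.re ≤ 24 / 100) (hy : (hbox .ring .ring true).In y)
    (s0 : 186 / 1000 ≤ -ζ.re) (s1 : -ζ.re ≤ 248 / 1000)
    (r0 : 0 ≤ ζ.im) (r1 : ζ.im ≤ 65 / 1000) : KZ y ζ ∧ Hr y ζ := by
  obtain ⟨h1, h2, h3, h4⟩ := hy
  simp only [hbox] at h1 h2 h3 h4
  refine zside_of_chk (X0 := 1700) (X1 := 2400) (T := 590) (S0 := 1860) (S1 := 2480)
    (P := 660) (c := 2510) (p := 8200) (r := 9850) (by decide +kernel) ?_ ?_
    (abs_le.2 ⟨?_, ?_⟩) ?_ ?_ (abs_le.2 ⟨?_, ?_⟩) <;> norm_num <;> linarith only [h1, hx, h3, h4, s0, s1, r1, r0]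

end boxes

/-! ### the rows -/

/-- The statements about digits `4`, `5` which are needed besides the boxes.  -/
structure ZRows (K : KFam) : Prop where
  sE4a : ∀ {dr rr w kr}, RDe K 4 .a dr rr w kr → |(zeta w).re| ≤ 2345 / 10000
  sE4s : ∀ {dr rr w kr}, RDe K 4 .s dr rr w kr → |(zeta w).re| ≤ 2185 / 10000
  sE5 : ∀ {r dr rr w kr}, RDe K 5 r dr rr w kr → r ≠ .z → |(zeta w).re| ≤ 195 / 1000
  s4s : ∀ {r dl ll dr rr w kl kr}, RDt K 4 .s r dl ll dr rr w kl kr →
    |(zeta w).re| ≤ (if r = .z then 203 / 1000 else 200 / 1000)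
  s4 : ∀ {l r dl ll dr rr w kl kr}, RDt K 4 l r dl ll dr rr w kl kr → |(zeta w).re| ≤ 22 / 100
  y41 : ∀ {l l' R k k'}, HDt K .a 4 l 1 l' R k k' → (acot2 R).re ≤ 268 / 1000
  y41e : ∀ {l' R k k'}, HDt K .a 4 .e 1 l' R k k' → (acot2 R).re ≤ 247 / 1000
  y42e : ∀ {l' R k k'}, HDt K .a 4 .e 2 l' R k k' → l' ≠ .e → (acot2 R).re ≤ 24 / 100
  y4z : ∀ {d' l' R k k'}, HDt K .z 4 .e d' l' R k k' → (acot2 R).re ≤ 24 / 100
  y4s : ∀ {d' l' R k k'}, HDt K .s 4 .z d' l' R k k' → (acot2 (Sp R k)).re ≤ 2969 / 10000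
  y4se : ∀ {d' l' R k k'}, HDt K .s 4 .e d' l' R k k' →
    216 / 1000 ≤ (acot2 (Sp R k)).re ∧ (acot2 (Sp R k)).re ≤ 278 / 1000

/-- digits of at least `7` -/
lemma zbox7 {n : ℕ} (h : 7 ≤ n) {e : Bool} {z : ℂ} (hz : (zbox n e).In z) :
    |z.re| ≤ 155 / 1000 := by
  unfold zbox at hz
  rw [if_neg (by omega), if_neg (by omega), if_neg (by omega)] at hz
  rw [abs_le]
  split_ifs at hz <;> obtain ⟨h1, h2, h3, h4⟩ := hz <;> simp only at h1 h2 <;>
    constructor <;> linarith only [h1, h2]

lemma zbox56 {n : ℕ} (h : n = 5 ∨ n = 6) {e : Bool} {z : ℂ} (hz : (zbox n e).In z) :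
    109 / 1000 ≤ -z.re ∧ -z.re ≤ 206 / 1000 ∧ 0 ≤ z.im ∧ z.im ≤ 725 / 10000 := by
  unfold zbox at hz
  rcases h with rfl | rfl <;> norm_num at hz <;> split_ifs at hz <;>
    obtain ⟨h1, h2, h3, h4⟩ := hz <;> simp only at h1 h2 h3 h4 <;>
    refine ⟨?_, ?_, ?_, ?_⟩ <;> linarith only [h2, h1, h3, h4]

lemma zbox4 {e : Bool} {z : ℂ} (hz : (zbox 4 e).In z) :
    144 / 1000 ≤ -z.re ∧ 0 ≤ z.im ∧ z.im ≤ 1045 / 10000 := by
  unfold zbox at hz
  rw [if_pos rfl] at hz
  split_ifs at hz <;> obtain ⟨h1, h2, h3, h4⟩ := hz <;> simp only at h1 h2 h3 h4 <;>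
    refine ⟨?_, ?_, ?_⟩ <;> linarith only [h2, h3, h4]

lemma zbox4e {z : ℂ} (hz : (zbox 4 true).In z) :
    186 / 1000 ≤ -z.re ∧ -z.re ≤ 248 / 1000 ∧ 0 ≤ z.im ∧ z.im ≤ 65 / 1000 := by
  unfold zbox at hz
  rw [if_pos rfl, if_pos rfl] at hz
  obtain ⟨h1, h2, h3, h4⟩ := hz
  simp only at h1 h2 h3 h4
  refine ⟨?_, ?_, ?_, ?_⟩ <;> linarith only [h2, h1, h3, h4]

/-- the hinge next to a ring, with the box -/
lemma ring_hinge {K : KFam} (Bx : BoxRows K) {x : SK} {d : ℕ} {l : SK} {d' : ℕ} {l' : SK}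
    {R k k' : ℂ} (hd : 4 ≤ d) (h : HDt K x d l d' l' R k k') :
    (x = .s ∧ (hbox .ring .one false).In (acot2 (Sp R k))) ∨
    (x ≠ .s ∧ (hbox .ring (cK d' l') (decide (x = .z))).In (acot2 R)) := by
  by_cases hx : x = .s
  · left
    subst hx
    have := (Bx.sp h).1
    rw [cK_ring hd] at this
    exact ⟨rfl, this⟩
  · right
    have := Bx.un hx h
    rw [cK_ring hd] at this
    exact ⟨hx, this⟩

/-- **The conditions at a digit of at least `4`, inside.** -/
theorem hZ_of {K : KFam} (Bx : BoxRows K) (Z : ZRows K) {d : ℕ} {l r : SK} {dl : ℕ} {ll : SK}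
    {dr : ℕ} {rr : SK} {w kl kr : ℂ} (hd : 4 ≤ d) (h : RDt K d l r dl ll dr rr w kl kr) :
    ZSide l w kl := by
  have hz := (Bx.ring hd h).1
  unfold ZSide
  rcases ring_hinge Bx hd h.left with ⟨rfl, hy⟩ | ⟨hl, hy⟩
  · rw [yH_s]
    obtain ⟨h1, h2, h3, h4⟩ := hy
    simp only [hbox] at h1 h2 h3 h4
    by_cases h4' : d = 4
    · subst h4'
      have g1 := Z.s4s h
      by_cases hr : r = .z
      · subst hr
        rw [if_pos rfl] at g1
        have g2 := Z.y4s h.left
        exact zside_easy (by linarith only [h1, g1]) (by linarith only [g1, g2])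
      · rw [if_neg hr] at g1
        exact zside_easy (by linarith only [h1, g1]) (by linarith only [h2, g1])
    · have : |(zeta w).re| ≤ 194 / 1000 := by
        by_cases h7 : 7 ≤ d
        · linarith only [h7, hz, zbox7 h7 hz]
        · have h56 : d = 5 ∨ d = 6 := by omega
          unfold zbox at hz
          rw [abs_le]
          rcases h56 with rfl | rfl <;> norm_num at hz <;> obtain ⟨z1, z2, z3, z4⟩ := hz <;>
            simp only at z1 z2 <;> constructor <;> linarith only [z1, z2]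
      exact zside_easy (by linarith only [h1, this]) (by linarith only [h2, this])
  · rw [yH_ne hl]
    have hlz : l = .z → cK dl ll = .ring := fun h0 => cK_ring (h.left.ok.right.zl h0) ll
    by_cases h4' : d = 4
    · subst h4'
      obtain ⟨z1, z2, z3⟩ := zbox4 hz
      have g1 := Z.s4 h
      have g1' := (abs_le.1 g1).1
      refine zside4 (fun h0 => ?_) hy z1 (by linarith only [g1']) z2 z3
      have hla : l = .a := by
        cases l
        · exact absurd rfl h.left.ok.ne
        · rfl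
        · rw [hlz rfl] at h0
          exact absurd h0 (by decide)
        · exact absurd rfl hl
      subst hla
      rw [cK_one h0] at h
      exact Z.y41 h.left
    · by_cases h7 : 7 ≤ d
      · have z0 := zbox7 h7 hz
        obtain ⟨h1, h2, h3, h4⟩ := hy
        have hx : 164 / 1000 ≤ (acot2 (RR w kl)).re ∧ (acot2 (RR w kl)).re ≤ 298 / 1000 := by
          generalize cK dl ll = B at *
          generalize decide (l = .z) = s at *
          cases B <;> cases s <;> simp only [hbox] at h1 h2 <;> constructor <;> linarith only [h1, h2]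
        exact zside_easy (by linarith only [z0, hx, hx.1]) (by linarith only [z0, hx, hx.2])
      · have h56 : d = 5 ∨ d = 6 := by omega
        by_cases hB : cK dl ll = .one
        · rw [hB] at hy
          obtain ⟨h1, h2, h3, h4⟩ := hy
          have hx : 214 / 1000 ≤ (acot2 (RR w kl)).re ∧ (acot2 (RR w kl)).re ≤ 298 / 1000 := by
            generalize decide (l = .z) = s at *
            cases s <;> simp only [hbox] at h1 h2 <;> constructor <;> linarith only [h1, h2]
          have : |(zeta w).re| ≤ 194 / 1000 := by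
            unfold zbox at hz
            rw [abs_le]
            rcases h56 with rfl | rfl <;> norm_num at hz <;> obtain ⟨z1, z2, z3, z4⟩ := hz <;>
              simp only at z1 z2 <;> constructor <;> linarith only [z1, z2]
          exact zside_easy (by linarith only [hx, this, hx.1]) (by linarith only [hx, this, hx.2])
        · obtain ⟨z1, z2, z3, z4⟩ := zbox56 h56 hz
          exact zside56 hB hy z1 z2 z3 z4

/-- **The conditions at a digit of at least `4`, at an end.** -/
theorem hZe_of {K : KFam} (Bx : BoxRows K) (Z : ZRows K) {d : ℕ} {r : SK}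
    {dr : ℕ} {rr : SK} {w kr : ℂ} (hd : 4 ≤ d) (h : RDe K d r dr rr w kr) :
    ZSide r w kr := by
  have hz := (Bx.ringE hd h).1
  unfold ZSide
  rcases ring_hinge Bx hd h.right with ⟨rfl, hy⟩ | ⟨hl, hy⟩
  · rw [yH_s]
    obtain ⟨h1, h2, h3, h4⟩ := hy
    simp only [hbox] at h1 h2 h3 h4
    by_cases h4' : d = 4
    · subst h4'
      have g1 := (abs_le.1 (Z.sE4s h)).1
      have g2 := Z.y4se h.right
      obtain ⟨z1, z2, z3, z4⟩ := zbox4e hz
      refine zside_of_chk (X0 := 2160) (X1 := 2780) (T := 1580) (S0 := 1860) (S1 := 2185)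
        (P := 2230) (c := 85) (p := 180) (r := 5650) (by decide +kernel) ?_ ?_ (abs_le.2 ⟨?_, ?_⟩)
        ?_ ?_ (abs_le.2 ⟨?_, ?_⟩) <;> norm_num <;> linarith only [g2, h3, h4, z1, g1, z4, z3]
    · have : |(zeta w).re| ≤ 195 / 1000 := by
        by_cases h7 : 7 ≤ d
        · linarith only [h7, hz, zbox7 h7 hz]
        · by_cases h5 : d = 5
          · subst h5
            exact Z.sE5 h (by decide)
          · have h6 : d = 6 := by omega
            subst h6
            unfold zbox at hz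
            rw [abs_le]
            norm_num at hz
            obtain ⟨z1, z2, z3, z4⟩ := hz
            simp only at z1 z2
            constructor <;> linarith only [z1, z2]
      exact zside_easy (by linarith only [h1, this]) (by linarith only [h2, this])
  · rw [yH_ne hl]
    have hlz : r = .z → cK dr rr = .ring := fun h0 => cK_ring (h.right.ok.right.zl h0) rr
    by_cases h4' : d = 4
    · subst h4'
      obtain ⟨z1, z2, z3, z4⟩ := zbox4e hz
      by_cases hrz : r = .z
      · subst hrz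
        rw [hlz rfl] at hy
        exact zside4z (Z.y4z h.right) hy z1 z2 z3 z4
      · have hra : r = .a := by
          cases r
          · exact absurd rfl h.right.ok.ne
          · rfl
          · exact absurd rfl hrz
          · exact absurd rfl hl
        subst hra
        have g1' := (abs_le.1 (Z.sE4a h)).1
        refine zside4e (fun h0 => ?_) (fun h0 => ?_) hy z1 (by linarith only [g1']) z3 z4
        · rw [cK_one h0] at h
          exact Z.y41e h.right
        · rw [(cK_two h0).1] at h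
          exact Z.y42e h.right (cK_two h0).2
    · by_cases h7 : 7 ≤ d
      · have z0 := zbox7 h7 hz
        obtain ⟨h1, h2, h3, h4⟩ := hy
        have hx : 164 / 1000 ≤ (acot2 (RR w kr)).re ∧ (acot2 (RR w kr)).re ≤ 298 / 1000 := by
          generalize cK dr rr = B at *
          generalize decide (r = .z) = s at *
          cases B <;> cases s <;> simp only [hbox] at h1 h2 <;> constructor <;> linarith only [h1, h2]
        exact zside_easy (by linarith only [z0, hx, hx.1]) (by linarith only [z0, hx, hx.2])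
      · have h56 : d = 5 ∨ d = 6 := by omega
        by_cases hB : cK dr rr = .one
        · have hrz : r ≠ .z := fun h0 => by
            rw [hlz h0] at hB
            exact absurd hB (by decide)
          rw [hB] at hy
          obtain ⟨h1, h2, h3, h4⟩ := hy
          have hx : 214 / 1000 ≤ (acot2 (RR w kr)).re ∧ (acot2 (RR w kr)).re ≤ 298 / 1000 := by
            generalize decide (r = .z) = s at *
            cases s <;> simp only [hbox] at h1 h2 <;> constructor <;> linarith only [h1, h2]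
          have : |(zeta w).re| ≤ 195 / 1000 := by
            rcases h56 with rfl | rfl
            · exact Z.sE5 h hrz
            · unfold zbox at hz
              rw [abs_le]
              norm_num at hz
              obtain ⟨z1, z2, z3, z4⟩ := hz
              simp only at z1 z2
              constructor <;> linarith only [z1, z2]
          exact zside_easy (by linarith only [hx, this, hx.1]) (by linarith only [hx, this, hx.2])
        · obtain ⟨z1, z2, z3, z4⟩ := zbox56 h56 hz
          exact zside56 hB hy z1 z2 z3 z4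

end SR

end Pool.Agent.Work.MP_b30479_gtS.G2

end
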