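import Pool.Agent.Work.MP_b30479_gt.TBS.G2.TE1As1
import Pool.Agent.Work.MP_b30479_gt.TBS.NumU.Tree
import Pool.Agent.Work.MP_b30479_gt.TBS.G2.TK3oneB4
import Pool.Agent.Work.MP_b30479_gt.TBS.G2.TE1Bg2
import Pool.Agent.Work.MP_b30479_gt.TBS.G2.TE1T
import Pool.Agent.Work.MP_b30479_gt.TBS.NumI.LnSin

section

/-!
# Tails, rows `E1`, `E2`: certificates (class one)

Variables: `w`, `t`, `s = w + X`, `Y`.  `U`, `S`, `W` stand for `uu (18/100 + X) (t + Y)`, `-uu s Y`,
`uu w 0`.
-/

set_option linter.unusedVariables false
set_option linter.unusedSimpArgs false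
set_option linter.unusedTactic false
set_option linter.unreachableTactic false

namespace Pool.Agent.Work.MP_b30479_gtS.G2

open NumUs
open NumUs.E
open NumIs (V)

namespace TL

namespace E1

/-- 67 boxes -/
theorem k_axAv {w t s Y U S W : ℝ}
    (a0 : 0 ≤ w) (b0 : w ≤ 200 / 10000)
    (a1 : -(800 / 10000) ≤ t) (b1 : t ≤ 800 / 10000)
    (a2 : 1600 / 10000 ≤ s) (b2 : s ≤ 8200 / 10000)
    (a3 : -(960 / 10000) ≤ Y) (b3 : Y ≤ 1360 / 10000)
    (r1 : w ≤ s) (r2 : s - w ≤ 8 / 10)
    (r3 : Y ≤ 85 / 100 * (s - w)) (r4 : Y ≤ 3091 / 10000 * (8 / 10 - (s - w)))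
    (r5 : -(64 / 100 * (s - w)) ≤ Y) (r6 : -(48 / 100 * (8 / 10 - (s - w))) ≤ Y)
    (u0 : uu (18 / 100 + (s - w)) (t + Y) ≤ U)
    (hS : -uu s Y ≤ S) (hW : uu (2 / 100) 0 ≤ W)
    (h1 : Real.pi * ((18 / 100 - w) * Y + t * (s - w - 1)) + U - uu (18 / 100) t + S + W < -(11
      / 1000) - 3927 / 1250 * t)
    (h2 : Real.pi * ((18 / 100 - w) * Y + t * (s - w - 1)) + U - uu (18 / 100) t + S < -(163 /
      5000) + 779 / 1000 * w - 821 / 500 * t) : False := by
  have h : chkT [(.sub (.add (.add (.sub (.add (.mul .pi (.add (.mul (.sub (.q 18 100) (.var 0)) (.var 3))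
      (.mul (.var 1) (.sub (.sub (.var 2) (.var 0)) (.q 1 1))))) (.uu (.add (.q 18 100) (.sub
      (.var 2) (.var 0))) (.add (.var 1) (.var 3)))) (.uu (.q 18 100) (.var 1))) (.neg (.uu (.var
      2) (.var 3)))) (.uu (.q 2 100) (.q 0 1))) (.add (.add (.q (-11) 1000) (.mul (.q 0 1) (.var
      0))) (.mul (.q (-3927) 1250) (.var 1)))), (.sub (.add (.sub (.add (.mul .pi (.add (.mul
      (.sub (.q 18 100) (.var 0)) (.var 3)) (.mul (.var 1) (.sub (.sub (.var 2) (.var 0)) (.q 1
      1))))) (.uu (.add (.q 18 100) (.sub (.var 2) (.var 0))) (.add (.var 1) (.var 3)))) (.uu (.q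
      18 100) (.var 1))) (.neg (.uu (.var 2) (.var 3)))) (.add (.add (.q (-163) 5000) (.mul (.q
      779 1000) (.var 0))) (.mul (.q (-821) 500) (.var 1)))), (.sub (.var 0) (.var 2)), (.sub
      (.sub (.var 2) (.var 0)) (.q 8 10)), (.sub (.var 3) (.mul (.q 85 100) (.sub (.var 2) (.var
      0)))), (.sub (.var 3) (.mul (.q 3091 10000) (.sub (.q 8 10) (.sub (.var 2) (.var 0))))),
      (.sub (.neg (.mul (.q 64 100) (.sub (.var 2) (.var 0)))) (.var 3)), (.sub (.neg (.mul (.q 48
      100) (.sub (.q 8 10) (.sub (.var 2) (.var 0))))) (.var 3))] 34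
      12166259245121920097241309935438221091973716976858848823172791339676385090749806440941292966606244268981214304507709825728174495368823210080425086183933969273634
      [V.of 10000 0 200, V.of 10000 (-800) 800, V.of 10000 1600 8200, V.of 10000 (-960) 1360] = true :=
      Pool.Agent.Work.NumUs.chkT_of k_axAv_p1
  obtain ⟨e, he, hp⟩ := chkT4 h (by norm_num) (x := w) (y := t) (z := s) (w := Y)
    (le_trans (by norm_num) a0) (le_trans b0 (by norm_num))
    (le_trans (by norm_num) a1) (le_trans b1 (by norm_num))
    (le_trans (by norm_num) a2) (le_trans b2 (by norm_num))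
    (le_trans (by norm_num) a3) (le_trans b3 (by norm_num))
  simp only [List.mem_cons, List.not_mem_nil, or_false] at he
  rcases he with rfl | rfl | rfl | rfl | rfl | rfl | rfl | rfl
  · simp only [E.val, NumIs.lkR] at hp
    push_cast at hp
    try simp only [zero_div, div_one] at hp
    linarith only [u0, hS, hW, h1, hp]
  · simp only [E.val, NumIs.lkR] at hp
    push_cast at hp
    try simp only [zero_div, div_one] at hp
    linarith only [u0, hS, h2, hp]
  · simp only [E.val, NumIs.lkR] at hp
    push_cast at hp
    try simp only [zero_div, div_one] at hp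
    linarith only [b0, a2, hp]
  · simp only [E.val, NumIs.lkR] at hp
    push_cast at hp
    try simp only [zero_div, div_one] at hp
    linarith only [r2, hp]
  · simp only [E.val, NumIs.lkR] at hp
    push_cast at hp
    try simp only [zero_div, div_one] at hp
    linarith only [r3, hp]
  · simp only [E.val, NumIs.lkR] at hp
    push_cast at hp
    try simp only [zero_div, div_one] at hp
    linarith only [r4, hp]
  · simp only [E.val, NumIs.lkR] at hp
    push_cast at hp
    try simp only [zero_div, div_one] at hp
    linarith only [r5, hp]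
  · simp only [E.val, NumIs.lkR] at hp
    push_cast at hp
    try simp only [zero_div, div_one] at hp
    linarith only [r6, hp]

end E1

end TL

end Pool.Agent.Work.MP_b30479_gtS.G2

end

section

/-!
# Part of `TE1A`
-/
set_option linter.unusedVariables false
set_option linter.unusedSimpArgs false
set_option linter.unusedTactic false
set_option linter.unreachableTactic false

namespace Pool.Agent.Work.MP_b30479_gtS.G2

open NumUs
open NumUs.E
open NumIs (V)

namespace TL

namespace E1

/-- 536 boxes -/
theorem k_bxA0 {w t s Y U S : ℝ}
    (a0 : 1800 / 10000 ≤ w) (b0 : w ≤ 4000 / 10000)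
    (a1 : -(800 / 10000) ≤ t) (b1 : t ≤ 800 / 10000)
    (a2 : 1800 / 10000 ≤ s) (b2 : s ≤ 9950 / 10000)
    (a3 : -(960 / 10000) ≤ Y) (b3 : Y ≤ 1360 / 10000)
    (r1 : w ≤ s) (r2 : s - w ≤ 8 / 10)
    (r3 : Y ≤ 85 / 100 * (s - w)) (r4 : Y ≤ 3091 / 10000 * (8 / 10 - (s - w)))
    (r5 : -(64 / 100 * (s - w)) ≤ Y) (r6 : -(48 / 100 * (8 / 10 - (s - w))) ≤ Y)
    (u0 : uu (18 / 100 + (s - w)) (t + Y) ≤ U)
    (hS : -uu s Y ≤ S)
    (h1 : Real.pi * ((18 / 100 - w) * Y + t * (s - w - 1)) + U - uu (18 / 100) t + S < 164 / 625
      - 921 / 1000 * w - 1849 / 1000 * t)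
    (h2 : Real.pi * ((18 / 100 - w) * Y + t * (s - w - 1)) + U - uu (18 / 100) t + S < 1451 /
      5000 - 1021 / 1000 * w - 1309 / 500 * t) : False := by
  have h : chkT [(.sub (.add (.sub (.add (.mul .pi (.add (.mul (.sub (.q 18 100) (.var 0)) (.var 3)) (.mul
      (.var 1) (.sub (.sub (.var 2) (.var 0)) (.q 1 1))))) (.uu (.add (.q 18 100) (.sub (.var 2)
      (.var 0))) (.add (.var 1) (.var 3)))) (.uu (.q 18 100) (.var 1))) (.neg (.uu (.var 2) (.var
      3)))) (.add (.add (.q 164 625) (.mul (.q (-921) 1000) (.var 0))) (.mul (.q (-1849) 1000)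
      (.var 1)))), (.sub (.add (.sub (.add (.mul .pi (.add (.mul (.sub (.q 18 100) (.var 0)) (.var
      3)) (.mul (.var 1) (.sub (.sub (.var 2) (.var 0)) (.q 1 1))))) (.uu (.add (.q 18 100) (.sub
      (.var 2) (.var 0))) (.add (.var 1) (.var 3)))) (.uu (.q 18 100) (.var 1))) (.neg (.uu (.var
      2) (.var 3)))) (.add (.add (.q 1451 5000) (.mul (.q (-1021) 1000) (.var 0))) (.mul (.q
      (-1309) 500) (.var 1)))), (.sub (.var 0) (.var 2)), (.sub (.sub (.var 2) (.var 0)) (.q 8
      10)), (.sub (.var 3) (.mul (.q 85 100) (.sub (.var 2) (.var 0)))), (.sub (.var 3) (.mul (.q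
      3091 10000) (.sub (.q 8 10) (.sub (.var 2) (.var 0))))), (.sub (.neg (.mul (.q 64 100) (.sub
      (.var 2) (.var 0)))) (.var 3)), (.sub (.neg (.mul (.q 48 100) (.sub (.q 8 10) (.sub (.var 2)
      (.var 0))))) (.var 3))] 34
      346563299109981870861260943821881003097515422295923165007937507688259128071827945942293127808764602625742863431284336375344678819315303676988879711775431916030989633791579157174126072844851353118192598718282590175463138516837415275585867749405974273371795644110535423833773938808223186429781969850782525438471643336607438395557576760568218353888173070468971783959430838425818944994897499045029219682371576744177750521802623015959158011470344157160108901642021702577267369878846134698213985071407865682760481848029979979240792176176500987750821277999618423020440140597757390348164240715457900295566923041987419604767474445451428546356554612502250546203355093634827418278272275176735505713058046793495356335035023842170986916457189335912880606129044100177631817881197581526233972448921255324160018245492754668450414179513569284349130089387614851254648541532979225271851775669628716843658844932252677155947979048816059492826468742980061533064928327941369621693236516530508072070783413474493352984037641173175640004667146045107610353610645221461150890508264210345335751421325332771881697252913764172536751315198057721043503275073411609165205537549455631130155743654678603434364228163438007245921276721102070528607074551479240158186735257345484101455396492706689733598498816604975776584063524898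
      [V.of 10000 1800 4000, V.of 10000 (-800) 800, V.of 10000 1800 9950, V.of 10000 (-960) 1360] = true :=
      Pool.Agent.Work.NumUs.chkT_of (Pool.Agent.Work.NumUs.runT_split rfl rfl rfl
        k_bxA0_p1
        (Pool.Agent.Work.NumUs.runT_split rfl rfl rfl
          k_bxA0_p2
          k_bxA0_p3))
  obtain ⟨e, he, hp⟩ := chkT4 h (by norm_num) (x := w) (y := t) (z := s) (w := Y)
    (le_trans (by norm_num) a0) (le_trans b0 (by norm_num))
    (le_trans (by norm_num) a1) (le_trans b1 (by norm_num))
    (le_trans (by norm_num) a2) (le_trans b2 (by norm_num))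
    (le_trans (by norm_num) a3) (le_trans b3 (by norm_num))
  simp only [List.mem_cons, List.not_mem_nil, or_false] at he
  rcases he with rfl | rfl | rfl | rfl | rfl | rfl | rfl | rfl
  · simp only [E.val, NumIs.lkR] at hp
    push_cast at hp
    try simp only [zero_div, div_one] at hp
    linarith only [u0, hS, h1, hp]
  · simp only [E.val, NumIs.lkR] at hp
    push_cast at hp
    try simp only [zero_div, div_one] at hp
    linarith only [u0, hS, h2, hp]
  · simp only [E.val, NumIs.lkR] at hp
    push_cast at hp
    try simp only [zero_div, div_one] at hp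
    linarith only [r1, hp]
  · simp only [E.val, NumIs.lkR] at hp
    push_cast at hp
    try simp only [zero_div, div_one] at hp
    linarith only [r2, hp]
  · simp only [E.val, NumIs.lkR] at hp
    push_cast at hp
    try simp only [zero_div, div_one] at hp
    linarith only [r3, hp]
  · simp only [E.val, NumIs.lkR] at hp
    push_cast at hp
    try simp only [zero_div, div_one] at hp
    linarith only [r4, hp]
  · simp only [E.val, NumIs.lkR] at hp
    push_cast at hp
    try simp only [zero_div, div_one] at hp
    linarith only [r5, hp]
  · simp only [E.val, NumIs.lkR] at hp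
    push_cast at hp
    try simp only [zero_div, div_one] at hp
    linarith only [r6, hp]

/-- 42 boxes -/
theorem k_bxc0 {w t s Y U S : ℝ}
    (a0 : 1800 / 10000 ≤ w) (b0 : w ≤ 4000 / 10000)
    (a1 : -(800 / 10000) ≤ t) (b1 : t ≤ 800 / 10000)
    (a2 : 9950 / 10000 ≤ s) (b2 : s ≤ 10050 / 10000)
    (a3 : -(960 / 10000) ≤ Y) (b3 : Y ≤ 1360 / 10000)
    (r1 : w ≤ s) (r2 : s - w ≤ 8 / 10)
    (r3 : Y ≤ 85 / 100 * (s - w)) (r4 : Y ≤ 3091 / 10000 * (8 / 10 - (s - w)))
    (r5 : -(64 / 100 * (s - w)) ≤ Y) (r6 : -(48 / 100 * (8 / 10 - (s - w))) ≤ Y)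
    (u0 : uu (18 / 100 + (s - w)) (t + Y) ≤ U)
    (hS : uu (5 / 1000) Y ≤ S)
    (h1 : Real.pi * ((18 / 100 - w) * Y + t * (s - w - 1)) + U - uu (18 / 100) t + S < 164 / 625
      - 921 / 1000 * w - 1849 / 1000 * t)
    (h2 : Real.pi * ((18 / 100 - w) * Y + t * (s - w - 1)) + U - uu (18 / 100) t + S < 1451 /
      5000 - 1021 / 1000 * w - 1309 / 500 * t) : False := by
  have h : chkT [(.sub (.add (.sub (.add (.mul .pi (.add (.mul (.sub (.q 18 100) (.var 0)) (.var 3)) (.mul
      (.var 1) (.sub (.sub (.var 2) (.var 0)) (.q 1 1))))) (.uu (.add (.q 18 100) (.sub (.var 2)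
      (.var 0))) (.add (.var 1) (.var 3)))) (.uu (.q 18 100) (.var 1))) (.uu (.q 5 1000) (.var
      3))) (.add (.add (.q 164 625) (.mul (.q (-921) 1000) (.var 0))) (.mul (.q (-1849) 1000)
      (.var 1)))), (.sub (.add (.sub (.add (.mul .pi (.add (.mul (.sub (.q 18 100) (.var 0)) (.var
      3)) (.mul (.var 1) (.sub (.sub (.var 2) (.var 0)) (.q 1 1))))) (.uu (.add (.q 18 100) (.sub
      (.var 2) (.var 0))) (.add (.var 1) (.var 3)))) (.uu (.q 18 100) (.var 1))) (.uu (.q 5 1000)
      (.var 3))) (.add (.add (.q 1451 5000) (.mul (.q (-1021) 1000) (.var 0))) (.mul (.q (-1309)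
      500) (.var 1)))), (.sub (.var 0) (.var 2)), (.sub (.sub (.var 2) (.var 0)) (.q 8 10)), (.sub
      (.var 3) (.mul (.q 85 100) (.sub (.var 2) (.var 0)))), (.sub (.var 3) (.mul (.q 3091 10000)
      (.sub (.q 8 10) (.sub (.var 2) (.var 0))))), (.sub (.neg (.mul (.q 64 100) (.sub (.var 2)
      (.var 0)))) (.var 3)), (.sub (.neg (.mul (.q 48 100) (.sub (.q 8 10) (.sub (.var 2) (.var
      0))))) (.var 3))] 34
      7399222058389477993299100812644931117684039675047190420788762581690896442604578785535297890246669056
      [V.of 10000 1800 4000, V.of 10000 (-800) 800, V.of 10000 9950 10050, V.of 10000 (-960) 1360] = true :=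
      Pool.Agent.Work.NumUs.chkT_of k_bxc0_p1
  obtain ⟨e, he, hp⟩ := chkT4 h (by norm_num) (x := w) (y := t) (z := s) (w := Y)
    (le_trans (by norm_num) a0) (le_trans b0 (by norm_num))
    (le_trans (by norm_num) a1) (le_trans b1 (by norm_num))
    (le_trans (by norm_num) a2) (le_trans b2 (by norm_num))
    (le_trans (by norm_num) a3) (le_trans b3 (by norm_num))
  simp only [List.mem_cons, List.not_mem_nil, or_false] at he
  rcases he with rfl | rfl | rfl | rfl | rfl | rfl | rfl | rfl
  · simp only [E.val, NumIs.lkR] at hp
    push_cast at hp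
    try simp only [zero_div, div_one] at hp
    linarith only [u0, hS, h1, hp]
  · simp only [E.val, NumIs.lkR] at hp
    push_cast at hp
    try simp only [zero_div, div_one] at hp
    linarith only [u0, hS, h2, hp]
  · simp only [E.val, NumIs.lkR] at hp
    push_cast at hp
    try simp only [zero_div, div_one] at hp
    linarith only [b0, a2, hp]
  · simp only [E.val, NumIs.lkR] at hp
    push_cast at hp
    try simp only [zero_div, div_one] at hp
    linarith only [r2, hp]
  · simp only [E.val, NumIs.lkR] at hp
    push_cast at hp
    try simp only [zero_div, div_one] at hp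
    linarith only [b0, a2, b3, hp]
  · simp only [E.val, NumIs.lkR] at hp
    push_cast at hp
    try simp only [zero_div, div_one] at hp
    linarith only [r4, hp]
  · simp only [E.val, NumIs.lkR] at hp
    push_cast at hp
    try simp only [zero_div, div_one] at hp
    linarith only [b0, a2, r6, hp]
  · simp only [E.val, NumIs.lkR] at hp
    push_cast at hp
    try simp only [zero_div, div_one] at hp
    linarith only [r6, hp]

end E1

end TL

end Pool.Agent.Work.MP_b30479_gtS.G2

end

section

/-!
# Part of `TE1A`
-/
set_option linter.unusedVariables false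
set_option linter.unusedSimpArgs false
set_option linter.unusedTactic false
set_option linter.unreachableTactic false

namespace Pool.Agent.Work.MP_b30479_gtS.G2

open NumUs
open NumUs.E
open NumIs (V)

namespace TL

namespace E1

/-- 442 boxes -/
theorem k_bxp0 {w t s Y U S : ℝ}
    (a0 : 1800 / 10000 ≤ w) (b0 : w ≤ 4000 / 10000)
    (a1 : -(800 / 10000) ≤ t) (b1 : t ≤ 800 / 10000)
    (a2 : 10050 / 10000 ≤ s) (b2 : s ≤ 12000 / 10000)
    (a3 : 0 ≤ Y) (b3 : Y ≤ 1360 / 10000)
    (r1 : w ≤ s) (r2 : s - w ≤ 8 / 10)
    (r3 : Y ≤ 85 / 100 * (s - w)) (r4 : Y ≤ 3091 / 10000 * (8 / 10 - (s - w)))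
    (r5 : -(64 / 100 * (s - w)) ≤ Y) (r6 : -(48 / 100 * (8 / 10 - (s - w))) ≤ Y)
    (u0 : uu (18 / 100 + (s - w)) (t + Y) ≤ U)
    (hS : -uu (5 / 1000) Y - Real.pi * Y ≤ S)
    (h1 : Real.pi * ((18 / 100 - w) * Y + t * (s - w - 1)) + U - uu (18 / 100) t + S < 164 / 625
      - 921 / 1000 * w - 1849 / 1000 * t)
    (h2 : Real.pi * ((18 / 100 - w) * Y + t * (s - w - 1)) + U - uu (18 / 100) t + S < 1451 /
      5000 - 1021 / 1000 * w - 1309 / 500 * t) : False := by
  have h : chkT [(.sub (.add (.sub (.add (.mul .pi (.add (.mul (.sub (.q 18 100) (.var 0)) (.var 3)) (.mul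
      (.var 1) (.sub (.sub (.var 2) (.var 0)) (.q 1 1))))) (.uu (.add (.q 18 100) (.sub (.var 2)
      (.var 0))) (.add (.var 1) (.var 3)))) (.uu (.q 18 100) (.var 1))) (.sub (.neg (.uu (.q 5
      1000) (.var 3))) (.mul .pi (.var 3)))) (.add (.add (.q 164 625) (.mul (.q (-921) 1000) (.var
      0))) (.mul (.q (-1849) 1000) (.var 1)))), (.sub (.add (.sub (.add (.mul .pi (.add (.mul
      (.sub (.q 18 100) (.var 0)) (.var 3)) (.mul (.var 1) (.sub (.sub (.var 2) (.var 0)) (.q 1
      1))))) (.uu (.add (.q 18 100) (.sub (.var 2) (.var 0))) (.add (.var 1) (.var 3)))) (.uu (.q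
      18 100) (.var 1))) (.sub (.neg (.uu (.q 5 1000) (.var 3))) (.mul .pi (.var 3)))) (.add (.add
      (.q 1451 5000) (.mul (.q (-1021) 1000) (.var 0))) (.mul (.q (-1309) 500) (.var 1)))), (.sub
      (.var 0) (.var 2)), (.sub (.sub (.var 2) (.var 0)) (.q 8 10)), (.sub (.var 3) (.mul (.q 85
      100) (.sub (.var 2) (.var 0)))), (.sub (.var 3) (.mul (.q 3091 10000) (.sub (.q 8 10) (.sub
      (.var 2) (.var 0))))), (.sub (.neg (.mul (.q 64 100) (.sub (.var 2) (.var 0)))) (.var 3)),
      (.sub (.neg (.mul (.q 48 100) (.sub (.q 8 10) (.sub (.var 2) (.var 0))))) (.var 3))] 34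
      14988473963508176034539449543921527584675457020908065339581451048032831153790881890886009661454959364088829969576522369626347646420358658497772450049529994681466629196678775178957042304862380131317249068241671343112996835984797004763614410926537693539292950041756464314754148696955601508778556787996782377755028680311400804083403219647189817284356524785706277878608734153048770734873422149613406082326375098132971787567591426845316199548960637846318973395575011669330401441117944708573125436311050442394806464268248106334569123939545082677602839324820123498023662671820182570288076880762218918658000511485034844357039237654382642074978241713697682167309948694799109007855478227815592837251194105159999878244422451181934337573185940165538476817896486492692308566816440013731811349707026127705091852860806304178806598381436209024161338807143797739106289464598942854077753640631673297020661801881004067113596801572363647576581624774938946807589444876821631651608694094516121022234444229041846022560409710062815070826229655981029371595138182610748401621881261712814595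
      [V.of 10000 1800 4000, V.of 10000 (-800) 800, V.of 10000 10050 12000, V.of 10000 0 1360] = true :=
      Pool.Agent.Work.NumUs.chkT_of (Pool.Agent.Work.NumUs.runT_split rfl rfl rfl
        (Pool.Agent.Work.NumUs.runT_split rfl rfl rfl
          k_bxp0_p1
          k_bxp0_p2)
        k_bxp0_p3)
  obtain ⟨e, he, hp⟩ := chkT4 h (by norm_num) (x := w) (y := t) (z := s) (w := Y)
    (le_trans (by norm_num) a0) (le_trans b0 (by norm_num))
    (le_trans (by norm_num) a1) (le_trans b1 (by norm_num))
    (le_trans (by norm_num) a2) (le_trans b2 (by norm_num))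
    (le_trans (by norm_num) a3) (le_trans b3 (by norm_num))
  simp only [List.mem_cons, List.not_mem_nil, or_false] at he
  rcases he with rfl | rfl | rfl | rfl | rfl | rfl | rfl | rfl
  · simp only [E.val, NumIs.lkR] at hp
    push_cast at hp
    try simp only [zero_div, div_one] at hp
    linarith only [u0, hS, h1, hp]
  · simp only [E.val, NumIs.lkR] at hp
    push_cast at hp
    try simp only [zero_div, div_one] at hp
    linarith only [u0, hS, h2, hp]
  · simp only [E.val, NumIs.lkR] at hp
    push_cast at hp
    try simp only [zero_div, div_one] at hp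
    linarith only [b0, a2, hp]
  · simp only [E.val, NumIs.lkR] at hp
    push_cast at hp
    try simp only [zero_div, div_one] at hp
    linarith only [r2, hp]
  · simp only [E.val, NumIs.lkR] at hp
    push_cast at hp
    try simp only [zero_div, div_one] at hp
    linarith only [b0, a2, b3, hp]
  · simp only [E.val, NumIs.lkR] at hp
    push_cast at hp
    try simp only [zero_div, div_one] at hp
    linarith only [r4, hp]
  · simp only [E.val, NumIs.lkR] at hp
    push_cast at hp
    try simp only [zero_div, div_one] at hp
    linarith only [b0, a2, a3, hp]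
  · simp only [E.val, NumIs.lkR] at hp
    push_cast at hp
    try simp only [zero_div, div_one] at hp
    linarith only [a3, r2, hp]

/-- 453 boxes -/
theorem k_bxn0 {w t s Y U S : ℝ}
    (a0 : 1800 / 10000 ≤ w) (b0 : w ≤ 4000 / 10000)
    (a1 : -(800 / 10000) ≤ t) (b1 : t ≤ 800 / 10000)
    (a2 : 10050 / 10000 ≤ s) (b2 : s ≤ 12000 / 10000)
    (a3 : -(960 / 10000) ≤ Y) (b3 : Y ≤ 0)
    (r1 : w ≤ s) (r2 : s - w ≤ 8 / 10)
    (r3 : Y ≤ 85 / 100 * (s - w)) (r4 : Y ≤ 3091 / 10000 * (8 / 10 - (s - w)))
    (r5 : -(64 / 100 * (s - w)) ≤ Y) (r6 : -(48 / 100 * (8 / 10 - (s - w))) ≤ Y)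
    (u0 : uu (18 / 100 + (s - w)) (t + Y) ≤ U)
    (hS : -uu (5 / 1000) Y + Real.pi * Y ≤ S)
    (h1 : Real.pi * ((18 / 100 - w) * Y + t * (s - w - 1)) + U - uu (18 / 100) t + S < 164 / 625
      - 921 / 1000 * w - 1849 / 1000 * t)
    (h2 : Real.pi * ((18 / 100 - w) * Y + t * (s - w - 1)) + U - uu (18 / 100) t + S < 1451 /
      5000 - 1021 / 1000 * w - 1309 / 500 * t) : False := by
  have h : chkT [(.sub (.add (.sub (.add (.mul .pi (.add (.mul (.sub (.q 18 100) (.var 0)) (.var 3)) (.mul
      (.var 1) (.sub (.sub (.var 2) (.var 0)) (.q 1 1))))) (.uu (.add (.q 18 100) (.sub (.var 2)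
      (.var 0))) (.add (.var 1) (.var 3)))) (.uu (.q 18 100) (.var 1))) (.add (.neg (.uu (.q 5
      1000) (.var 3))) (.mul .pi (.var 3)))) (.add (.add (.q 164 625) (.mul (.q (-921) 1000) (.var
      0))) (.mul (.q (-1849) 1000) (.var 1)))), (.sub (.add (.sub (.add (.mul .pi (.add (.mul
      (.sub (.q 18 100) (.var 0)) (.var 3)) (.mul (.var 1) (.sub (.sub (.var 2) (.var 0)) (.q 1
      1))))) (.uu (.add (.q 18 100) (.sub (.var 2) (.var 0))) (.add (.var 1) (.var 3)))) (.uu (.q
      18 100) (.var 1))) (.add (.neg (.uu (.q 5 1000) (.var 3))) (.mul .pi (.var 3)))) (.add (.add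
      (.q 1451 5000) (.mul (.q (-1021) 1000) (.var 0))) (.mul (.q (-1309) 500) (.var 1)))), (.sub
      (.var 0) (.var 2)), (.sub (.sub (.var 2) (.var 0)) (.q 8 10)), (.sub (.var 3) (.mul (.q 85
      100) (.sub (.var 2) (.var 0)))), (.sub (.var 3) (.mul (.q 3091 10000) (.sub (.q 8 10) (.sub
      (.var 2) (.var 0))))), (.sub (.neg (.mul (.q 64 100) (.sub (.var 2) (.var 0)))) (.var 3)),
      (.sub (.neg (.mul (.q 48 100) (.sub (.q 8 10) (.sub (.var 2) (.var 0))))) (.var 3))] 34
      2917045849777972109362409001553342097649770467370647164552585404550587951688166737291078529223930621209960298229363259891954876343840580281355470092298767251947021699271667266070855640840003350714710256062670996705277774260144144188161253058878654664812759642612789596854613943724205056956455452634184638914233934364916723310608365133239594559683399380340843858594239919948208768681570027794968228496385556591776379075564137092265432249083424558077939753024221689361675181663439797854501450656001949917044325511667382905852085675666197597626950690843636102608468000764136114466904019045260357414641515645528796145377597787713672887313282528578058655985591030835039569980585538045828032145326531000814024497396362132911035240223657513857695388061247655385507463379893884833396517660090468339062731674923482506705533616082834671829382814371111253454705182410102089808229737063743576901492394045885296241809329512550780129208662719699578362000119097541551254611063037870533157745026791894205510423010880504923116166949586469367170014091789213196885719503784360720006463563699323338696903750432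
      [V.of 10000 1800 4000, V.of 10000 (-800) 800, V.of 10000 10050 12000, V.of 10000 (-960) 0] = true :=
      Pool.Agent.Work.NumUs.chkT_of (Pool.Agent.Work.NumUs.runT_split rfl rfl rfl
        k_bxn0_p1
        k_bxn0_p2)
  obtain ⟨e, he, hp⟩ := chkT4 h (by norm_num) (x := w) (y := t) (z := s) (w := Y)
    (le_trans (by norm_num) a0) (le_trans b0 (by norm_num))
    (le_trans (by norm_num) a1) (le_trans b1 (by norm_num))
    (le_trans (by norm_num) a2) (le_trans b2 (by norm_num))
    (le_trans (by norm_num) a3) (le_trans b3 (by norm_num))
  simp only [List.mem_cons, List.not_mem_nil, or_false] at he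
  rcases he with rfl | rfl | rfl | rfl | rfl | rfl | rfl | rfl
  · simp only [E.val, NumIs.lkR] at hp
    push_cast at hp
    try simp only [zero_div, div_one] at hp
    linarith only [u0, hS, h1, hp]
  · simp only [E.val, NumIs.lkR] at hp
    push_cast at hp
    try simp only [zero_div, div_one] at hp
    linarith only [u0, hS, h2, hp]
  · simp only [E.val, NumIs.lkR] at hp
    push_cast at hp
    try simp only [zero_div, div_one] at hp
    linarith only [b0, a2, hp]
  · simp only [E.val, NumIs.lkR] at hp
    push_cast at hp
    try simp only [zero_div, div_one] at hp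
    linarith only [r2, hp]
  · simp only [E.val, NumIs.lkR] at hp
    push_cast at hp
    try simp only [zero_div, div_one] at hp
    linarith only [b0, a2, b3, hp]
  · simp only [E.val, NumIs.lkR] at hp
    push_cast at hp
    try simp only [zero_div, div_one] at hp
    linarith only [b3, r2, hp]
  · simp only [E.val, NumIs.lkR] at hp
    push_cast at hp
    try simp only [zero_div, div_one] at hp
    linarith only [b0, a2, r6, hp]
  · simp only [E.val, NumIs.lkR] at hp
    push_cast at hp
    try simp only [zero_div, div_one] at hp
    linarith only [r6, hp]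

end E1

end TL

end Pool.Agent.Work.MP_b30479_gtS.G2

end

section

/-!
# Part of `TE1A`
-/
set_option linter.unusedVariables false
set_option linter.unusedSimpArgs false
set_option linter.unusedTactic false
set_option linter.unreachableTactic false

namespace Pool.Agent.Work.MP_b30479_gtS.G2

open NumUs
open NumUs.E
open NumIs (V)

namespace TL

namespace E1

/-- 346 boxes -/
theorem k_axlo {w t s Y U S W : ℝ}
    (a0 : 0 ≤ w) (b0 : w ≤ 1600 / 10000)
    (a1 : -(800 / 10000) ≤ t) (b1 : t ≤ 800 / 10000)
    (a2 : 0 ≤ s) (b2 : s ≤ 1600 / 10000)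
    (a3 : -(960 / 10000) ≤ Y) (b3 : Y ≤ 1360 / 10000)
    (r1 : w ≤ s) (r2 : s - w ≤ 8 / 10)
    (r3 : Y ≤ 85 / 100 * (s - w)) (r4 : Y ≤ 3091 / 10000 * (8 / 10 - (s - w)))
    (r5 : -(64 / 100 * (s - w)) ≤ Y) (r6 : -(48 / 100 * (8 / 10 - (s - w))) ≤ Y)
    (u0 : uu (18 / 100 + (s - w)) (t + Y) ≤ U)
    (hS : -uu s Y ≤ S) (hW : 0 ≤ S + W)
    (h1 : Real.pi * ((18 / 100 - w) * Y + t * (s - w - 1)) + U - uu (18 / 100) t + S + W < -(11
      / 1000) - 3927 / 1250 * t)
    (h2 : Real.pi * ((18 / 100 - w) * Y + t * (s - w - 1)) + U - uu (18 / 100) t + S < -(163 /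
      5000) + 779 / 1000 * w - 821 / 500 * t) : False := by
  have h : chkT [(.sub (.sub (.add (.mul .pi (.add (.mul (.sub (.q 18 100) (.var 0)) (.var 3)) (.mul (.var 1)
      (.sub (.sub (.var 2) (.var 0)) (.q 1 1))))) (.uu (.add (.q 18 100) (.sub (.var 2) (.var 0)))
      (.add (.var 1) (.var 3)))) (.uu (.q 18 100) (.var 1))) (.add (.add (.q (-11) 1000) (.mul (.q
      0 1) (.var 0))) (.mul (.q (-3927) 1250) (.var 1)))), (.sub (.add (.sub (.add (.mul .pi (.add
      (.mul (.sub (.q 18 100) (.var 0)) (.var 3)) (.mul (.var 1) (.sub (.sub (.var 2) (.var 0))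
      (.q 1 1))))) (.uu (.add (.q 18 100) (.sub (.var 2) (.var 0))) (.add (.var 1) (.var 3))))
      (.uu (.q 18 100) (.var 1))) (.neg (.uu (.var 2) (.var 3)))) (.add (.add (.q (-163) 5000)
      (.mul (.q 779 1000) (.var 0))) (.mul (.q (-821) 500) (.var 1)))), (.sub (.var 0) (.var 2)),
      (.sub (.sub (.var 2) (.var 0)) (.q 8 10)), (.sub (.var 3) (.mul (.q 85 100) (.sub (.var 2)
      (.var 0)))), (.sub (.var 3) (.mul (.q 3091 10000) (.sub (.q 8 10) (.sub (.var 2) (.var
      0))))), (.sub (.neg (.mul (.q 64 100) (.sub (.var 2) (.var 0)))) (.var 3)), (.sub (.neg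
      (.mul (.q 48 100) (.sub (.q 8 10) (.sub (.var 2) (.var 0))))) (.var 3))] 34
      8912425686931269132414003946769945941670736743757433107836849667919502835550137825007798212101690944016546004142129108721741541711075696142687622142974077934398484773958430381778391782627428399109102640647185820168829839844367204701754091825467631953802260701802701661317109410122206734959004151338435253794407400472442753869429288622256180163680786600054769127363777369988816737902854794034656197668802910619709943490832870718644481221696425414614424923157209977785143462654644634122310252639842999074250175042309401869215096123437753730537447886289009656781850068475871520401793411189697574541403889382779417548693132545440864752266556898745308168763536992441017967520242982985901854760999911125277100304203903526932546683058204218550784847215854833439320216697380343174737450480159597319493637245124455066402321331629580665099040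
      [V.of 10000 0 1600, V.of 10000 (-800) 800, V.of 10000 0 1600, V.of 10000 (-960) 1360] = true :=
      Pool.Agent.Work.NumUs.chkT_of (Pool.Agent.Work.NumUs.runT_split rfl rfl rfl
        k_axlo_p1
        k_axlo_p2)
  obtain ⟨e, he, hp⟩ := chkT4 h (by norm_num) (x := w) (y := t) (z := s) (w := Y)
    (le_trans (by norm_num) a0) (le_trans b0 (by norm_num))
    (le_trans (by norm_num) a1) (le_trans b1 (by norm_num))
    (le_trans (by norm_num) a2) (le_trans b2 (by norm_num))
    (le_trans (by norm_num) a3) (le_trans b3 (by norm_num))
  simp only [List.mem_cons, List.not_mem_nil, or_false] at he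
  rcases he with rfl | rfl | rfl | rfl | rfl | rfl | rfl | rfl
  · simp only [E.val, NumIs.lkR] at hp
    push_cast at hp
    try simp only [zero_div, div_one] at hp
    linarith only [u0, hW, h1, hp]
  · simp only [E.val, NumIs.lkR] at hp
    push_cast at hp
    try simp only [zero_div, div_one] at hp
    linarith only [u0, hS, h2, hp]
  · simp only [E.val, NumIs.lkR] at hp
    push_cast at hp
    try simp only [zero_div, div_one] at hp
    linarith only [r1, hp]
  · simp only [E.val, NumIs.lkR] at hp
    push_cast at hp
    try simp only [zero_div, div_one] at hp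
    linarith only [a0, b2, hp]
  · simp only [E.val, NumIs.lkR] at hp
    push_cast at hp
    try simp only [zero_div, div_one] at hp
    linarith only [r3, hp]
  · simp only [E.val, NumIs.lkR] at hp
    push_cast at hp
    try simp only [zero_div, div_one] at hp
    linarith only [a0, b2, b3, hp]
  · simp only [E.val, NumIs.lkR] at hp
    push_cast at hp
    try simp only [zero_div, div_one] at hp
    linarith only [r5, hp]
  · simp only [E.val, NumIs.lkR] at hp
    push_cast at hp
    try simp only [zero_div, div_one] at hp
    linarith only [a0, b2, a3, hp]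

/-- 1300 boxes -/
theorem k_axAw {w t s Y U S W : ℝ}
    (a0 : 200 / 10000 ≤ w) (b0 : w ≤ 1800 / 10000)
    (a1 : -(800 / 10000) ≤ t) (b1 : t ≤ 800 / 10000)
    (a2 : 1600 / 10000 ≤ s) (b2 : s ≤ 9800 / 10000)
    (a3 : -(960 / 10000) ≤ Y) (b3 : Y ≤ 1360 / 10000)
    (r1 : w ≤ s) (r2 : s - w ≤ 8 / 10)
    (r3 : Y ≤ 85 / 100 * (s - w)) (r4 : Y ≤ 3091 / 10000 * (8 / 10 - (s - w)))
    (r5 : -(64 / 100 * (s - w)) ≤ Y) (r6 : -(48 / 100 * (8 / 10 - (s - w))) ≤ Y)
    (u0 : uu (18 / 100 + (s - w)) (t + Y) ≤ U)
    (hS : -uu s Y ≤ S) (hW : uu w 0 ≤ W)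
    (h1 : Real.pi * ((18 / 100 - w) * Y + t * (s - w - 1)) + U - uu (18 / 100) t + S + W < -(11
      / 1000) - 3927 / 1250 * t)
    (h2 : Real.pi * ((18 / 100 - w) * Y + t * (s - w - 1)) + U - uu (18 / 100) t + S < -(163 /
      5000) + 779 / 1000 * w - 821 / 500 * t) : False := by
  have h : chkT [(.sub (.add (.add (.sub (.add (.mul .pi (.add (.mul (.sub (.q 18 100) (.var 0)) (.var 3))
      (.mul (.var 1) (.sub (.sub (.var 2) (.var 0)) (.q 1 1))))) (.uu (.add (.q 18 100) (.sub
      (.var 2) (.var 0))) (.add (.var 1) (.var 3)))) (.uu (.q 18 100) (.var 1))) (.neg (.uu (.var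
      2) (.var 3)))) (.uu (.var 0) (.q 0 1))) (.add (.add (.q (-11) 1000) (.mul (.q 0 1) (.var
      0))) (.mul (.q (-3927) 1250) (.var 1)))), (.sub (.add (.sub (.add (.mul .pi (.add (.mul
      (.sub (.q 18 100) (.var 0)) (.var 3)) (.mul (.var 1) (.sub (.sub (.var 2) (.var 0)) (.q 1
      1))))) (.uu (.add (.q 18 100) (.sub (.var 2) (.var 0))) (.add (.var 1) (.var 3)))) (.uu (.q
      18 100) (.var 1))) (.neg (.uu (.var 2) (.var 3)))) (.add (.add (.q (-163) 5000) (.mul (.q
      779 1000) (.var 0))) (.mul (.q (-821) 500) (.var 1)))), (.sub (.var 0) (.var 2)), (.sub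
      (.sub (.var 2) (.var 0)) (.q 8 10)), (.sub (.var 3) (.mul (.q 85 100) (.sub (.var 2) (.var
      0)))), (.sub (.var 3) (.mul (.q 3091 10000) (.sub (.q 8 10) (.sub (.var 2) (.var 0))))),
      (.sub (.neg (.mul (.q 64 100) (.sub (.var 2) (.var 0)))) (.var 3)), (.sub (.neg (.mul (.q 48
      100) (.sub (.q 8 10) (.sub (.var 2) (.var 0))))) (.var 3))] 34
      278658837292115432222558623276706749292298829400971014985317995667836075208450760365512885248587101838259234278697378056163621367315782543015717859535612323660558595933327772383495813757015408077977801564368512398842532625451574445062616908586628844855448409499627003414768793564428983587918043913645320043239321550943596665930978314998762724610659181796909711154266781464902145419255559652193079579638143038970930710356432362042215224991299402705443436642828804123171639032441161526490065357672118725144651456531086002792780591604033889158170613752121941743283070446620422982143830407775919474877580262812588178154042264980945342000542009802975784261119975955452010334660717663636283047424857748218590591287777090441128033848881219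4336894856736211095415452697784084072090141453248755525956035551083905303646057427874305493955257753792444459469743034402777077963932234758224003795169034488710612144483528269400847245946291085910021611643222554455200202965637217752755476149346257681199932707973767153651934579570199260420362548510397362187100409009485309218014517650509996015280464287715475009729687767019915352996927225220275154683600847739993105612802452565451475284827197170889749763263881519221046975531511085272403273947805942605332297668949798469417452046126775062069535339865765358174270130478605416014468964547959660999845927723882285906411365664944034621514787564090346476025142130190777419714139911274551851450730105036221764227506332292608215649622518260417869855584860446962890883411464296055748151898450702409812011670553561500669458945303741165118052806283570929076496464261271658975535284962379490919478205294448586132722476305770505386298912674034388374906701597930348119624824465781555559919624304539221712468636785524098729638524735185679369017797805357077990769370920250161107831746681079821707908605032315034885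157393373596289714695296490391749045717081048388610106499220511259485639235702772233951458150260188603388099964043961934687269637132647220885620279508808817309664931125507524456848943787172718663156100630080578000669459767305761880335355240812693563936955746591378823233823332300204801616360239773289566671719324779132922077234724326382076948151583648455305165105368130329692647000465772610343064018456965931016483555376238267307555383618695403142300116887977680026965288794097193506334729901966170323672096222808896040162368768140635123311451558083515439021763623570002754919371112739295703921233841628358978015683393623467767774142741637888131469749988060005874614746405528358612177665227646605058327078755905999688983880781010608906802743195271944016670947603788439693336859952880827483236795875144747327761376247742535422767422819859501344173478702811429917788467540864785847090546986001377487957136560265082304127235694831365803866693740581879230660790532865177097181239677182555099484375448798385389112699887209443854809602702261505104707181600255438936104019756836879571432261910682706207593959669010233988891001502914095214449196513116429173278876340151398887053637342075949775164049274591420785456028123777278780079896467304197836624594683510566610440381086032972737030631405956623632630306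
      [V.of 10000 200 1800, V.of 10000 (-800) 800, V.of 10000 1600 9800, V.of 10000 (-960) 1360] = true :=
      Pool.Agent.Work.NumUs.chkT_of (Pool.Agent.Work.NumUs.runT_split rfl rfl rfl
        k_axAw_p1
        (Pool.Agent.Work.NumUs.runT_split rfl rfl rfl
          k_axAw_p2
          (Pool.Agent.Work.NumUs.runT_split rfl rfl rfl
            (Pool.Agent.Work.NumUs.runT_split rfl rfl rfl
              k_axAw_p3
              (Pool.Agent.Work.NumUs.runT_split rfl rfl rfl
                k_axAw_p4
                (Pool.Agent.Work.NumUs.runT_split rfl rfl rfl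
                  (Pool.Agent.Work.NumUs.runT_split rfl rfl rfl
                    k_axAw_p5
                    (Pool.Agent.Work.NumUs.runT_split rfl rfl rfl
                      k_axAw_p6
                      k_axAw_p7))
                  k_axAw_p8)))
            k_axAw_p9)))
  obtain ⟨e, he, hp⟩ := chkT4 h (by norm_num) (x := w) (y := t) (z := s) (w := Y)
    (le_trans (by norm_num) a0) (le_trans b0 (by norm_num))
    (le_trans (by norm_num) a1) (le_trans b1 (by norm_num))
    (le_trans (by norm_num) a2) (le_trans b2 (by norm_num))
    (le_trans (by norm_num) a3) (le_trans b3 (by norm_num))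
  simp only [List.mem_cons, List.not_mem_nil, or_false] at he
  rcases he with rfl | rfl | rfl | rfl | rfl | rfl | rfl | rfl
  · simp only [E.val, NumIs.lkR] at hp
    push_cast at hp
    try simp only [zero_div, div_one] at hp
    linarith only [u0, hS, hW, h1, hp]
  · simp only [E.val, NumIs.lkR] at hp
    push_cast at hp
    try simp only [zero_div, div_one] at hp
    linarith only [u0, hS, h2, hp]
  · simp only [E.val, NumIs.lkR] at hp
    push_cast at hp
    try simp only [zero_div, div_one] at hp
    linarith only [r1, hp]
  · simp only [E.val, NumIs.lkR] at hp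
    push_cast at hp
    try simp only [zero_div, div_one] at hp
    linarith only [r2, hp]
  · simp only [E.val, NumIs.lkR] at hp
    push_cast at hp
    try simp only [zero_div, div_one] at hp
    linarith only [r3, hp]
  · simp only [E.val, NumIs.lkR] at hp
    push_cast at hp
    try simp only [zero_div, div_one] at hp
    linarith only [r4, hp]
  · simp only [E.val, NumIs.lkR] at hp
    push_cast at hp
    try simp only [zero_div, div_one] at hp
    linarith only [r5, hp]
  · simp only [E.val, NumIs.lkR] at hp
    push_cast at hp
    try simp only [zero_div, div_one] at hp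
    linarith only [r6, hp]

end E1

end TL

end Pool.Agent.Work.MP_b30479_gtS.G2

end

section

/-!
# Tails: the change of the value of an untouched region of class one, `E1b`
-/

namespace Pool.Agent.Work.MP_b30479_gtS.G2

open VOL NumUs

namespace TL

open E1

/-- margin .0114 -/
theorem E1b {w τ X Y : ℝ} (h0 : 9 / 50 ≤ w) (h1 : w ≤ 2 / 5) (h2 : -(2 / 25) ≤ τ)
    (h3 : τ ≤ 2 / 25) (hG : RgA X Y) :
    UU ⟨w, 0⟩ + 164 / 625 - 921 / 1000 * w - 1849 / 1000 * τ ≤
      V1 ⟨9 / 50, τ⟩ ⟨X, Y⟩ - V1 ⟨w, 0⟩ ⟨X, Y⟩ ∨
    UU ⟨w, 0⟩ + 1451 / 5000 - 1021 / 1000 * w - 1309 / 500 * τ ≤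
      V1 ⟨9 / 50, τ⟩ ⟨X, Y⟩ - V1 ⟨w, 0⟩ ⟨X, Y⟩ := by
  obtain ⟨g0, g1, g2, g3, g4, g5, g6, g7⟩ := hG
  by_contra hcon
  obtain ⟨c1, c2⟩ := not_or.1 hcon
  rw [not_le, V1_diff, UU_uu] at c1 c2
  simp only at c1 c2
  rcases le_or_gt (w + X) (995 / 1000) with hs0 | hs0
  · exact k_bxA0 (S := -uu (w + X) Y) (U := uu (18 / 100 + (w + X - w)) (τ + Y)) (w := w) (s := w + X)
      (t := τ) (Y := Y) (by linarith only [h0]) (by linarith only [h1]) (by linarith only [h2]) (by linarith only [h3]) (by linarith only [h0, g0])
      (by linarith only [hs0]) (by linarith only [g6]) (by linarith only [g3]) (by linarith only [g0]) (by linarith only [g1]) (by linarith only [g2])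
      (by linarith only [g4]) (by linarith only [g5]) (by linarith only [g7]) le_rfl le_rfl (by linarith only [c1]) (by linarith only [c2])
  · skip
    rcases le_or_gt (w + X) (1005 / 1000) with hs1 | hs1
    · exact k_bxc0 (S := -uu (w + X) Y) (U := uu (18 / 100 + (w + X - w)) (τ + Y)) (w := w) (s := w + X)
        (t := τ) (Y := Y) (by linarith only [h0]) (by linarith only [h1]) (by linarith only [h2]) (by linarith only [h3]) (by linarith only [hs0])
        (by linarith only [hs1]) (by linarith only [g6]) (by linarith only [h1, g4, hs0]) (by linarith only [h1, hs0]) (by linarith only [g1]) (by linarith only [h1, g4, hs0])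
        (by linarith only [g4]) (by linarith only [g5]) (by linarith only [g7]) le_rfl (S_b (d := 5 / 1000) (by norm_num)
        (by linarith only [hs0]) (by linarith only [hs1]) (abs_le.2 ⟨by linarith only [g6], by linarith only [h1, g4, hs0]⟩)) (by linarith only [c1]) (by linarith only [c2])
    · skip
      have hS := S_p (s := w + X) (Y := Y) (by linarith only [hs1]) (by linarith only [h1, g1]) (abs_le.2 ⟨by linarith only [g6], by linarith only [h1, g4, hs1]⟩)
        (abs_le.2 ⟨by linarith only [h1, g7], by linarith only [h1, g1, g4]⟩)
      rcases le_total 0 Y with hy | hy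
      · rw [abs_of_nonneg hy] at hS
        exact k_bxp0 (S := -uu (w + X) Y) (U := uu (18 / 100 + (w + X - w)) (τ + Y)) (w := w) (s := w +
          X) (t := τ) (Y := Y) (by linarith only [h0]) (by linarith only [h1]) (by linarith only [h2]) (by linarith only [h3]) (by linarith only [hs1])
          (by linarith only [h1, g1]) (by linarith only [hy]) (by linarith only [h1, g4, hs1]) (by linarith only [h1, hs1]) (by linarith only [g1]) (by linarith only [h1, g4, hs1])
          (by linarith only [g4]) (by linarith only [g5]) (by linarith only [g7]) le_rfl hS (by linarith only [c1]) (by linarith only [c2])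
      · rw [abs_of_nonpos hy] at hS
        exact k_bxn0 (S := -uu (w + X) Y) (U := uu (18 / 100 + (w + X - w)) (τ + Y)) (w := w) (s := w +
          X) (t := τ) (Y := Y) (by linarith only [h0]) (by linarith only [h1]) (by linarith only [h2]) (by linarith only [h3]) (by linarith only [hs1])
          (by linarith only [h1, g1]) (by linarith only [g6]) (by linarith only [hy]) (by linarith only [h1, hs1]) (by linarith only [g1]) (by linarith only [h1, hs1, hy])
          (by linarith only [g4]) (by linarith only [g5]) (by linarith only [g7]) le_rfl (by linarith only [hS]) (by linarith only [c1]) (by linarith only [c2])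

end TL

end Pool.Agent.Work.MP_b30479_gtS.G2

end

section

/-!
# Tails: the change of the value of an untouched region of class one, `E1a`
-/

namespace Pool.Agent.Work.MP_b30479_gtS.G2

open VOL NumUs

namespace TL

open E1

/-- margin .0109 -/
theorem E1a {w τ X Y : ℝ} (h0 : 0 ≤ w) (h1 : w ≤ 9 / 50) (h2 : -(2 / 25) ≤ τ)
    (h3 : τ ≤ 2 / 25) (hG : RgA X Y) :
    -(11 / 1000) - 3927 / 1250 * τ ≤
      V1 ⟨9 / 50, τ⟩ ⟨X, Y⟩ - V1 ⟨w, 0⟩ ⟨X, Y⟩ ∨
    UU ⟨w, 0⟩ - 163 / 5000 + 779 / 1000 * w - 821 / 500 * τ ≤
      V1 ⟨9 / 50, τ⟩ ⟨X, Y⟩ - V1 ⟨w, 0⟩ ⟨X, Y⟩ := by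
  obtain ⟨g0, g1, g2, g3, g4, g5, g6, g7⟩ := hG
  by_contra hcon
  obtain ⟨c1, c2⟩ := not_or.1 hcon
  rw [not_le, V1_diff] at c1 c2
  rw [UU_uu] at c2
  simp only at c1 c2
  rcases le_total (w + X) (16 / 100) with h16 | h16
  · exact k_axlo (S := -uu (w + X) Y) (U := uu (18 / 100 + (w + X - w)) (τ + Y)) (w := w) (s := w + X)
      (t := τ) (Y := Y) (W := uu w 0) (by linarith only [h0]) (by linarith only [g0, h16]) (by linarith only [h2]) (by linarith only [h3])
      (by linarith only [h0, g0]) (by linarith only [h16]) (by linarith only [g6]) (by linarith only [g3]) (by linarith only [g0]) (by linarith only [g1])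
      (by linarith only [g2]) (by linarith only [g4]) (by linarith only [g5]) (by linarith only [g7]) le_rfl le_rfl (W_lo h0 (by linarith only [g0])
      h16) (by linarith only [c1]) (by linarith only [c2])
  rcases le_total w (2 / 100) with hw | hw
  · have hW := W_v h0 hw
    exact k_axAv (S := -uu (w + X) Y) (U := uu (18 / 100 + (w + X - w)) (τ + Y)) (w := w) (s := w + X)
      (t := τ) (Y := Y) (W := uu w 0) (by linarith only [h0]) (by linarith only [hw]) (by linarith only [h2]) (by linarith only [h3])
      (by linarith only [h16]) (by linarith only [g1, hw]) (by linarith only [g6]) (by linarith only [g3]) (by linarith only [h16, hw]) (by linarith only [g1])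
      (by linarith only [g2]) (by linarith only [g4]) (by linarith only [g5]) (by linarith only [g7]) le_rfl le_rfl hW (by linarith only [c1])
      (by linarith only [c2])
  · exact k_axAw (S := -uu (w + X) Y) (U := uu (18 / 100 + (w + X - w)) (τ + Y)) (w := w) (s := w + X)
      (t := τ) (Y := Y) (W := uu w 0) (by linarith only [hw]) (by linarith only [h1]) (by linarith only [h2]) (by linarith only [h3])
      (by linarith only [h16]) (by linarith only [h1, g1]) (by linarith only [g6]) (by linarith only [g3]) (by linarith only [g0]) (by linarith only [g1])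
      (by linarith only [g2]) (by linarith only [g4]) (by linarith only [g5]) (by linarith only [g7]) le_rfl le_rfl le_rfl (by linarith only [c1])
      (by linarith only [c2])

end TL

end Pool.Agent.Work.MP_b30479_gtS.G2

end
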