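import Pool.Agent.Work.MP_b30479_gt.TBS.NumU.Tree

section

/-!
# Pieces of the certificates of `TE1A`, part 1
-/

set_option linter.unusedVariables false
set_option linter.unusedSimpArgs false
set_option linter.unusedTactic false
set_option linter.unreachableTactic false
set_option deprecated.oldSectionVars true

namespace Pool.Agent.Work.MP_b30479_gtS.G2
open NumUs
open NumUs.E
open NumIs (V)
namespace TL
namespace E1

theorem k_bxA0_p1 : Pool.Agent.Work.NumUs.runT [(.sub (.add (.sub (.add (.mul .pi (.add (.mul (.sub (.q 18 100) (.var 0)) (.var 3)) (.mul (.var 1) (.sub (.sub (.var 2) (.var 0)) (.q 1 1))))) (.uu (.add (.q 18 100) (.sub (.var 2) (.var 0))) (.add (.var 1) (.var 3)))) (.uu (.q 18 100) (.var 1))) (.neg (.uu (.var 2) (.var 3)))) (.add (.add (.q 164 625) (.mul (.q (-921) 1000) (.var 0))) (.mul (.q (-1849) 1000) (.var 1)))), (.sub (.add (.sub (.add (.mul .pi (.add (.mul (.sub (.q 18 100) (.var 0)) (.var 3)) (.mul (.var 1) (.sub (.sub (.var 2) (.var 0)) (.q 1 1))))) (.uu (.add (.q 18 100) (.sub (.var 2) (.var 0))) (.add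 (.var 1) (.var 3)))) (.uu (.q 18 100) (.var 1))) (.neg (.uu (.var 2) (.var 3)))) (.add (.add (.q 1451 5000) (.mul (.q (-1021) 1000) (.var 0))) (.mul (.q (-1309) 500) (.var 1)))), (.sub (.var 0) (.var 2)), (.sub (.sub (.var 2) (.var 0)) (.q 8 10)), (.sub (.var 3) (.mul (.q 85 100) (.sub (.var 2) (.var 0)))), (.sub (.var 3) (.mul (.q 3091 10000) (.sub (.q 8 10) (.sub (.var 2) (.var 0))))), (.sub (.neg (.mul (.q 64 100) (.sub (.var 2) (.var 0)))) (.var 3)), (.sub (.neg (.mul (.q 48 100) (.sub (.q 8 10) (.sub (.var 2) (.var 0))))) (.var 3))] 33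
    21660206194373866928828808988867562693594713893495197812996094230516195504489246621393320488047787664108928964455271023459042426207206479811804981985964494751936852111973697323382879552803209569887037419892661885966446157302338454724116734337873392085737227756908463989610871175513949151861373115673907839904477708537964899722348547535513647118010816904310736497464427401613684062181093690314326230148223546511109407612663938497447375716896509822506806352626356411079210617427883418638374066962991605172530115501873748702549511011031311734426329874976151438777508787359836896760265044716118768472932690124213725297967152840714284147284663281390659137709693352176713642392017198545969107066127924593459770939688990135686682278574333494555037883065256261101988617574848845389623278057578457760001140343297166778150886219598080271820630586725928203415533845811201579490735979351794802728677808265792322246748690551003718301654296436253845816558020496335601355827282283156754504423963342155834561502352573323477500291696627819225647100665326341321930656766513146583484463832833298242606078307110260783546957199878607565218954692088225572825346096840976945634733978417412714647764260214875452870079795068879408037942159467452509886670953584092756340962280794168108349906176037810986036503970306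
    (Pool.Agent.Work.NumIs.setL 2 ([V.of 10000 1800 4000, V.of 10000 (-800) 800, V.of 10000 1800 9950, V.of 10000 (-960) 1360])) =
    36808591110940672297553032716167678304820069177594401757743448009671113025269898040707628093274619214878201919800477491615773909140889360668746340245658947705272139290391200351062040783302385195457988498083377921869042741342736789308280446730754505952288480875653011576629114126588091843424435650483767241754166492466967720983401056818323398302806136908483408362765443109153608412024026231714388109524658108824575312328619344989884309646731987435407020086693456913685839394233057845651366709833357262175226382114040070303939822110945958959883590295018957314066834275442200666575577663814571902821896922730588187938735166835926667263211832138550612647686491296694066939648949723549895592070842302365648162611841642540696788150399352766086274722022836992538693866126169746404473368008515742072426191156848348232200731636201108353539 := by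
  decide +kernel

theorem k_bxA0_p2 : Pool.Agent.Work.NumUs.runT [(.sub (.add (.sub (.add (.mul .pi (.add (.mul (.sub (.q 18 100) (.var 0)) (.var 3)) (.mul (.var 1) (.sub (.sub (.var 2) (.var 0)) (.q 1 1))))) (.uu (.add (.q 18 100) (.sub (.var 2) (.var 0))) (.add (.var 1) (.var 3)))) (.uu (.q 18 100) (.var 1))) (.neg (.uu (.var 2) (.var 3)))) (.add (.add (.q 164 625) (.mul (.q (-921) 1000) (.var 0))) (.mul (.q (-1849) 1000) (.var 1)))), (.sub (.add (.sub (.add (.mul .pi (.add (.mul (.sub (.q 18 100) (.var 0)) (.var 3)) (.mul (.var 1) (.sub (.sub (.var 2) (.var 0)) (.q 1 1))))) (.uu (.add (.q 18 100) (.sub (.var 2) (.var 0))) (.add (.var 1) (.var 3)))) (.uu (.q 18 100) (.var 1))) (.neg (.uu (.var 2) (.var 3)))) (.add (.add (.q 1451 5000) (.mul (.q (-1021) 1000) (.var 0))) (.mul (.q (-1309) 500) (.var 1)))), (.sub (.var 0) (.var 2)), (.sub (.sub (.var 2) (.var 0)) (.q 8 10)), (.sub (.var 3) (.mul (.q 85 100) (.sub (.var 2) (.var 0)))), (.sub (.var 3) (.mul (.q 3091 10000) (.sub (.q 8 10) (.sub (.var 2) (.var 0))))), (.sub (.neg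 (.mul (.q 64 100) (.sub (.var 2) (.var 0)))) (.var 3)), (.sub (.neg (.mul (.q 48 100) (.sub (.q 8 10) (.sub (.var 2) (.var 0))))) (.var 3))] 32
    2300536944433792018597064544760479894051254323599650109858965500604444564079368627544226755829663700929887619987529843225985869321305585041796646265353684231579508705649450021941377548956399074716124281130211120116815171333921049331767527920672156622018030054728313223539319632911755740214027228155235452609635405779185482561462566051145212393925383556780213022672840194322100525751501639482149256845291131801535957020538709061867769352920749214712938755418341057105364962139566115353210419364584828885951648882127504393996238881934122434992724393438684832129177142215137541660973603988410743926368557670661761746170947927245416703950739508659413290480405706043379183728059357721868474504427643897853010163240102658793549259399959547880392170126427312033668366632885609150279585500532233879526636947303021764512545727262569272096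
    (Pool.Agent.Work.NumIs.setL 2 (Pool.Agent.Work.NumIs.setR 2 ([V.of 10000 1800 4000, V.of 10000 (-800) 800, V.of 10000 1800 9950, V.of 10000 (-960) 1360]))) =
    702799396712506071226402156878933431985150634676007379685838565993068364738507697258869116187016926952674123338830021414623936985579330351937777391197541159389122282573714444682920163502202263628029932591904086768368708635994736308476265512871745157534783967341901023891828098121123460468300663273201838744202905199852615015908967880194469800837782264958904546953696625116365092315011695806447605701530020432219933667559683076544990040981172838529844424473082310250461691263574100138608969215341442636991656268359885723632438528644046742005171902722016062735609370014344343978797310735593475162236796560935308261328145165954858442857741757039352323792784126853118399911596983043 := by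
  decide +kernel

theorem k_bxA0_p3_q1 : Pool.Agent.Work.NumUs.runT [(.sub (.add (.sub (.add (.mul .pi (.add (.mul (.sub (.q 18 100) (.var 0)) (.var 3)) (.mul (.var 1) (.sub (.sub (.var 2) (.var 0)) (.q 1 1))))) (.uu (.add (.q 18 100) (.sub (.var 2) (.var 0))) (.add (.var 1) (.var 3)))) (.uu (.q 18 100) (.var 1))) (.neg (.uu (.var 2) (.var 3)))) (.add (.add (.q 164 625) (.mul (.q (-921) 1000) (.var 0))) (.mul (.q (-1849) 1000) (.var 1)))), (.sub (.add (.sub (.add (.mul .pi (.add (.mul (.sub (.q 18 100) (.var 0)) (.var 3)) (.mul (.var 1) (.sub (.sub (.var 2) (.var 0)) (.q 1 1))))) (.uu (.add (.q 18 100) (.sub (.var 2) (.var 0))) (.add (.var 1) (.var 3)))) (.uu (.q 18 100) (.var 1))) (.neg (.uu (.var 2) (.var 3)))) (.add (.add (.q 1451 5000) (.mul (.q (-1021) 1000) (.var 0))) (.mul (.q (-1309) 500) (.var 1)))), (.sub (.var 0) (.var 2)), (.sub (.sub (.var 2) (.var 0)) (.q 8 10)), (.sub (.var 3) (.mul (.q 85 100) (.sub (.var 2) (.var 0)))), (.sub (.var 3) (.mul (.q 3091 10000) (.sub (.q 8 10) (.sub (.var 2) (.var 0))))), (.sub (.neg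 (.mul (.q 64 100) (.sub (.var 2) (.var 0)))) (.var 3)), (.sub (.neg (.mul (.q 48 100) (.sub (.q 8 10) (.sub (.var 2) (.var 0))))) (.var 3))] 31
    43924962294531629451650134804933339499071914667250461230364910374566772796156731078679319761688557934542132708676876338413996061598708146996111086949846322461820142660857152792682510218887641476751870786994005423023044289749671019279766594554484072345923997958868813993239256132570216279268791454575114921512681574990788438494310492512154362552361391559931534184606039069772818269688230987902975356345626277013745854222480192284061877561323302408115276529567644390653855703973381258663060575958840164811978516772492857727027408040252921375323243920126003920975585625896521498674831920974592197639799785058456766333009072872178652678608859814959520237049007928319899994474811440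
    (Pool.Agent.Work.NumIs.setL 2 ((Pool.Agent.Work.NumIs.setR 2 (Pool.Agent.Work.NumIs.setR 2 ([V.of 10000 1800 4000, V.of 10000 (-800) 800, V.of 10000 1800 9950, V.of 10000 (-960) 1360]))))) =
    169369022731979097086110903784737478191316888169310451032570280457645658213426978589384114363282578942227245352530535814252366641468745477406317838448826428990864368033729277014831036924304925884507735329456443301020157078912817983591203939622515853320795375944101592037086413545696800575308714416929951108749441972614744230884878668551343263787471097501068514246238530008687265861061150500370151118581750659105561294631619015127966492647891540278539908582368139228163512180879573093230198685511683 := by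
  decide +kernel

theorem k_bxA0_p3_q2 : Pool.Agent.Work.NumUs.runT [(.sub (.add (.sub (.add (.mul .pi (.add (.mul (.sub (.q 18 100) (.var 0)) (.var 3)) (.mul (.var 1) (.sub (.sub (.var 2) (.var 0)) (.q 1 1))))) (.uu (.add (.q 18 100) (.sub (.var 2) (.var 0))) (.add (.var 1) (.var 3)))) (.uu (.q 18 100) (.var 1))) (.neg (.uu (.var 2) (.var 3)))) (.add (.add (.q 164 625) (.mul (.q (-921) 1000) (.var 0))) (.mul (.q (-1849) 1000) (.var 1)))), (.sub (.add (.sub (.add (.mul .pi (.add (.mul (.sub (.q 18 100) (.var 0)) (.var 3)) (.mul (.var 1) (.sub (.sub (.var 2) (.var 0)) (.q 1 1))))) (.uu (.add (.q 18 100) (.sub (.var 2) (.var 0))) (.add (.var 1) (.var 3)))) (.uu (.q 18 100) (.var 1))) (.neg (.uu (.var 2) (.var 3)))) (.add (.add (.q 1451 5000) (.mul (.q (-1021) 1000) (.var 0))) (.mul (.q (-1309) 500) (.var 1)))), (.sub (.var 0) (.var 2)), (.sub (.sub (.var 2) (.var 0)) (.q 8 10)), (.sub (.var 3) (.mul (.q 85 100) (.sub (.var 2) (.var 0)))), (.sub (.var 3) (.mul (.q 3091 10000) (.sub (.q 8 10) (.sub (.var 2) (.var 0))))), (.sub (.neg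 (.mul (.q 64 100) (.sub (.var 2) (.var 0)))) (.var 3)), (.sub (.neg (.mul (.q 48 100) (.sub (.q 8 10) (.sub (.var 2) (.var 0))))) (.var 3))] 30
    10585563920748693567881931486546092386957305510581903189535642528602853638339186161836507147705161183889202834533158488390772915091796592337894864903051651811929023002108079813426939807769057867781733458091027706313759817432051123974450246226407240832549710996506349502317900846606050035956794651058121944296840123288421514430304916784458953986716943593816782140389908125542954116316321906273134444911359416194097580914476188445497905790493221267408744286398008701760219511304973318326887417844480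
    (Pool.Agent.Work.NumIs.setL 2 (Pool.Agent.Work.NumIs.setR 2 ((Pool.Agent.Work.NumIs.setR 2 (Pool.Agent.Work.NumIs.setR 2 ([V.of 10000 1800 4000, V.of 10000 (-800) 800, V.of 10000 1800 9950, V.of 10000 (-960) 1360])))))) =
    3233822414964463146223327683024588171528052183921321700537789851411413024851860671814970502819247343431512960030881307831635155833843243282392018217094780669300557685203098275247292308076260808795826581011296187369546065850654644081965623887049677231599818304358116397852493614788894290678819595818758233535742914302804361577013283099825912414724 := by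
  decide +kernel

theorem k_bxA0_p3_q3 : Pool.Agent.Work.NumUs.runT [(.sub (.add (.sub (.add (.mul .pi (.add (.mul (.sub (.q 18 100) (.var 0)) (.var 3)) (.mul (.var 1) (.sub (.sub (.var 2) (.var 0)) (.q 1 1))))) (.uu (.add (.q 18 100) (.sub (.var 2) (.var 0))) (.add (.var 1) (.var 3)))) (.uu (.q 18 100) (.var 1))) (.neg (.uu (.var 2) (.var 3)))) (.add (.add (.q 164 625) (.mul (.q (-921) 1000) (.var 0))) (.mul (.q (-1849) 1000) (.var 1)))), (.sub (.add (.sub (.add (.mul .pi (.add (.mul (.sub (.q 18 100) (.var 0)) (.var 3)) (.mul (.var 1) (.sub (.sub (.var 2) (.var 0)) (.q 1 1))))) (.uu (.add (.q 18 100) (.sub (.var 2) (.var 0))) (.add (.var 1) (.var 3)))) (.uu (.q 18 100) (.var 1))) (.neg (.uu (.var 2) (.var 3)))) (.add (.add (.q 1451 5000) (.mul (.q (-1021) 1000) (.var 0))) (.mul (.q (-1309) 500) (.var 1)))), (.sub (.var 0) (.var 2)), (.sub (.sub (.var 2) (.var 0)) (.q 8 10)), (.sub (.var 3) (.mul (.q 85 100) (.sub (.var 2) (.var 0)))), (.sub (.var 3) (.mul (.q 3091 10000) (.sub (.q 8 10) (.sub (.var 2) (.var 0))))), (.sub (.neg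 (.mul (.q 64 100) (.sub (.var 2) (.var 0)))) (.var 3)), (.sub (.neg (.mul (.q 48 100) (.sub (.q 8 10) (.sub (.var 2) (.var 0))))) (.var 3))] 29
    202113900935278946638957980189036760720503261495082606283611865713213314053241291988435656426202958964469560001930081739477197239615202705149501138568423791831284855325193642202955769254766300549739161313206011710596629115665915255122851492940604826974988644022382274865780850924305893167426224738672389595983932143925272598563330193739119525920
    (Pool.Agent.Work.NumIs.setL 3 (Pool.Agent.Work.NumIs.setR 2 (Pool.Agent.Work.NumIs.setR 2 ((Pool.Agent.Work.NumIs.setR 2 (Pool.Agent.Work.NumIs.setR 2 ([V.of 10000 1800 4000, V.of 10000 (-800) 800, V.of 10000 1800 9950, V.of 10000 (-960) 1360]))))))) =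
    5567243610419721569704196563339677567982164227388911188686414641 := by
  decide +kernel

theorem k_bxA0_p3_q4 : Pool.Agent.Work.NumUs.runT [(.sub (.add (.sub (.add (.mul .pi (.add (.mul (.sub (.q 18 100) (.var 0)) (.var 3)) (.mul (.var 1) (.sub (.sub (.var 2) (.var 0)) (.q 1 1))))) (.uu (.add (.q 18 100) (.sub (.var 2) (.var 0))) (.add (.var 1) (.var 3)))) (.uu (.q 18 100) (.var 1))) (.neg (.uu (.var 2) (.var 3)))) (.add (.add (.q 164 625) (.mul (.q (-921) 1000) (.var 0))) (.mul (.q (-1849) 1000) (.var 1)))), (.sub (.add (.sub (.add (.mul .pi (.add (.mul (.sub (.q 18 100) (.var 0)) (.var 3)) (.mul (.var 1) (.sub (.sub (.var 2) (.var 0)) (.q 1 1))))) (.uu (.add (.q 18 100) (.sub (.var 2) (.var 0))) (.add (.var 1) (.var 3)))) (.uu (.q 18 100) (.var 1))) (.neg (.uu (.var 2) (.var 3)))) (.add (.add (.q 1451 5000) (.mul (.q (-1021) 1000) (.var 0))) (.mul (.q (-1309) 500) (.var 1)))), (.sub (.var 0) (.var 2)), (.sub (.sub (.var 2) (.var 0)) (.q 8 10)), (.sub (.var 3) (.mul (.q 85 100) (.sub (.var 2) (.var 0)))), (.sub (.var 3)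 (.mul (.q 3091 10000) (.sub (.q 8 10) (.sub (.var 2) (.var 0))))), (.sub (.neg (.mul (.q 64 100) (.sub (.var 2) (.var 0)))) (.var 3)), (.sub (.neg (.mul (.q 48 100) (.sub (.q 8 10) (.sub (.var 2) (.var 0))))) (.var 3))] 29
    5567243610419721569704196563339677567982164227388911188686414640
    (Pool.Agent.Work.NumIs.setR 3 (Pool.Agent.Work.NumIs.setR 2 (Pool.Agent.Work.NumIs.setR 2 ((Pool.Agent.Work.NumIs.setR 2 (Pool.Agent.Work.NumIs.setR 2 ([V.of 10000 1800 4000, V.of 10000 (-800) 800, V.of 10000 1800 9950, V.of 10000 (-960) 1360]))))))) =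
    1 := by
  decide +kernel

theorem k_bxA0_p3 : Pool.Agent.Work.NumUs.runT [(.sub (.add (.sub (.add (.mul .pi (.add (.mul (.sub (.q 18 100) (.var 0)) (.var 3)) (.mul (.var 1) (.sub (.sub (.var 2) (.var 0)) (.q 1 1))))) (.uu (.add (.q 18 100) (.sub (.var 2) (.var 0))) (.add (.var 1) (.var 3)))) (.uu (.q 18 100) (.var 1))) (.neg (.uu (.var 2) (.var 3)))) (.add (.add (.q 164 625) (.mul (.q (-921) 1000) (.var 0))) (.mul (.q (-1849) 1000) (.var 1)))), (.sub (.add (.sub (.add (.mul .pi (.add (.mul (.sub (.q 18 100) (.var 0)) (.var 3)) (.mul (.var 1) (.sub (.sub (.var 2) (.var 0)) (.q 1 1))))) (.uu (.add (.q 18 100) (.sub (.var 2) (.var 0))) (.add (.var 1) (.var 3)))) (.uu (.q 18 100) (.var 1))) (.neg (.uu (.var 2) (.var 3)))) (.add (.add (.q 1451 5000) (.mul (.q (-1021) 1000) (.var 0))) (.mul (.q (-1309) 500) (.var 1)))), (.sub (.var 0) (.var 2)), (.sub (.sub (.var 2) (.var 0)) (.q 8 10)), (.sub (.var 3) (.mul (.q 85 100) (.sub (.var 2) (.var 0)))), (.sub (.var 3) (.mul (.q 3091 10000) (.sub (.q 8 10) (.sub (.var 2) (.var 0))))),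 (.sub (.neg (.mul (.q 64 100) (.sub (.var 2) (.var 0)))) (.var 3)), (.sub (.neg (.mul (.q 48 100) (.sub (.q 8 10) (.sub (.var 2) (.var 0))))) (.var 3))] 32
    702799396712506071226402156878933431985150634676007379685838565993068364738507697258869116187016926952674123338830021414623936985579330351937777391197541159389122282573714444682920163502202263628029932591904086768368708635994736308476265512871745157534783967341901023891828098121123460468300663273201838744202905199852615015908967880194469800837782264958904546953696625116365092315011695806447605701530020432219933667559683076544990040981172838529844424473082310250461691263574100138608969215341442636991656268359885723632438528644046742005171902722016062735609370014344343978797310735593475162236796560935308261328145165954858442857741757039352323792784126853118399911596983042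
    (Pool.Agent.Work.NumIs.setR 2 (Pool.Agent.Work.NumIs.setR 2 ([V.of 10000 1800 4000, V.of 10000 (-800) 800, V.of 10000 1800 9950, V.of 10000 (-960) 1360]))) =
    1 :=
      Pool.Agent.Work.NumUs.runT_split rfl rfl rfl
        k_bxA0_p3_q1
        (Pool.Agent.Work.NumUs.runT_split rfl rfl rfl
          k_bxA0_p3_q2
          (Pool.Agent.Work.NumUs.runT_split rfl rfl rfl
            k_bxA0_p3_q3
            k_bxA0_p3_q4))

theorem k_bxc0_p1 : Pool.Agent.Work.NumUs.runT [(.sub (.add (.sub (.add (.mul .pi (.add (.mul (.sub (.q 18 100) (.var 0)) (.var 3)) (.mul (.var 1) (.sub (.sub (.var 2) (.var 0)) (.q 1 1))))) (.uu (.add (.q 18 100) (.sub (.var 2) (.var 0))) (.add (.var 1) (.var 3)))) (.uu (.q 18 100) (.var 1))) (.uu (.q 5 1000) (.var 3))) (.add (.add (.q 164 625) (.mul (.q (-921) 1000) (.var 0))) (.mul (.q (-1849) 1000) (.var 1)))), (.sub (.add (.sub (.add (.mul .pi (.add (.mul (.sub (.q 18 100) (.var 0)) (.var 3)) (.mul (.var 1) (.sub (.sub (.var 2) (.var 0)) (.q 1 1))))) (.uu (.add (.q 18 100) (.sub (.var 2) (.var 0)))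 (.add (.var 1) (.var 3)))) (.uu (.q 18 100) (.var 1))) (.uu (.q 5 1000) (.var 3))) (.add (.add (.q 1451 5000) (.mul (.q (-1021) 1000) (.var 0))) (.mul (.q (-1309) 500) (.var 1)))), (.sub (.var 0) (.var 2)), (.sub (.sub (.var 2) (.var 0)) (.q 8 10)), (.sub (.var 3) (.mul (.q 85 100) (.sub (.var 2) (.var 0)))), (.sub (.var 3) (.mul (.q 3091 10000) (.sub (.q 8 10) (.sub (.var 2) (.var 0))))), (.sub (.neg (.mul (.q 64 100) (.sub (.var 2) (.var 0)))) (.var 3)), (.sub (.neg (.mul (.q 48 100) (.sub (.q 8 10) (.sub (.var 2) (.var 0))))) (.var 3))] 34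
    7399222058389477993299100812644931117684039675047190420788762581690896442604578785535297890246669056
    ([V.of 10000 1800 4000, V.of 10000 (-800) 800, V.of 10000 9950 10050, V.of 10000 (-960) 1360]) =
    1 := by
  decide +kernel

end E1
end TL
end Pool.Agent.Work.MP_b30479_gtS.G2

end

section

/-!
# Pieces of the certificates of `TE1A`, part 2
-/

set_option linter.unusedVariables false
set_option linter.unusedSimpArgs false
set_option linter.unusedTactic false
set_option linter.unreachableTactic false
set_option deprecated.oldSectionVars true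

namespace Pool.Agent.Work.MP_b30479_gtS.G2
open NumUs
open NumUs.E
open NumIs (V)
namespace TL
namespace E1

theorem k_bxp0_p1 : Pool.Agent.Work.NumUs.runT [(.sub (.add (.sub (.add (.mul .pi (.add (.mul (.sub (.q 18 100) (.var 0)) (.var 3)) (.mul (.var 1) (.sub (.sub (.var 2) (.var 0)) (.q 1 1))))) (.uu (.add (.q 18 100) (.sub (.var 2) (.var 0))) (.add (.var 1) (.var 3)))) (.uu (.q 18 100) (.var 1))) (.sub (.neg (.uu (.q 5 1000) (.var 3))) (.mul .pi (.var 3)))) (.add (.add (.q 164 625) (.mul (.q (-921) 1000) (.var 0))) (.mul (.q (-1849) 1000) (.var 1)))), (.sub (.add (.sub (.add (.mul .pi (.add (.mul (.sub (.q 18 100) (.var 0)) (.var 3)) (.mul (.var 1) (.sub (.sub (.var 2) (.var 0)) (.q 1 1))))) (.uu (.add (.q 18 100) (.sub (.var 2) (.var 0))) (.add (.var 1) (.var 3)))) (.uu (.q 18 100) (.var 1))) (.sub (.neg (.uu (.q 5 1000) (.var 3))) (.mul .pi (.var 3)))) (.add (.add (.q 1451 5000) (.mul (.q (-1021) 1000) (.var 0))) (.mul (.q (-1309) 500) (.var 1)))), (.sub (.var 0) (.var 2)), (.sub (.sub (.var 2) (.var 0)) (.q 8 10)), (.sub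 (.var 3) (.mul (.q 85 100) (.sub (.var 2) (.var 0)))), (.sub (.var 3) (.mul (.q 3091 10000) (.sub (.q 8 10) (.sub (.var 2) (.var 0))))), (.sub (.neg (.mul (.q 64 100) (.sub (.var 2) (.var 0)))) (.var 3)), (.sub (.neg (.mul (.q 48 100) (.sub (.q 8 10) (.sub (.var 2) (.var 0))))) (.var 3))] 32
    58548726419953812634919724780943467127638503987922130232740043156378246694495632386273475240058435015971992068658290506352920493829526009756923633005976541724479020299526465542800946503368672387958004172819028684035143890565613299857868792681787865387863086100611188729508393347482818393666237453112431163105580782466409390950793826746835223767017674944165147963315367785346760683099305271927367509087402727081921045185904011114516404488127491587183489826464889333321880629366971517863771235590040790604712751047844165369410640388847979209386091112578607414154932311797588165187800315477417651007814497988417360769684522087432195605383756694131570966054487089059019561935461827404659520512476973281249524392275199929431006145257578771634675069908150362079330339126718803639888084793070811348015050237524625698463274927485191500630229715405459918383943221089620523741225158717473816486960163597672137162487506142045498346021971777105260967146269050084498639096461306703597743103297769694711025626600429932871370414959593675895982793508525823235943835473678565682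
    (Pool.Agent.Work.NumIs.setL 0 (Pool.Agent.Work.NumIs.setL 3 ([V.of 10000 1800 4000, V.of 10000 (-800) 800, V.of 10000 10050 12000, V.of 10000 0 1360]))) =
    624544269871734222632979371301318522136856787869312649005901224206717357837041829813160814108345928182727660553008171658292183929831742418381631682548062829768198393938671769984470652119910837587625303327950068681850554319251971305686359322674457536838324435624946622493985179459989233592619637497702610061437545719311939173604644132320687715104464871015907257365946871929288633303821708537479422824250748236431390759607651062900949604577766246046287582607389939682228910998855949484484084459035449314665098086747996665630228680609293755926666284443641415332954858236298658459340406463740364444400221506200580673632374359892906358253743472995704528920238961155 := by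
  decide +kernel

theorem k_bxp0_p2_q1 : Pool.Agent.Work.NumUs.runT [(.sub (.add (.sub (.add (.mul .pi (.add (.mul (.sub (.q 18 100) (.var 0)) (.var 3)) (.mul (.var 1) (.sub (.sub (.var 2) (.var 0)) (.q 1 1))))) (.uu (.add (.q 18 100) (.sub (.var 2) (.var 0))) (.add (.var 1) (.var 3)))) (.uu (.q 18 100) (.var 1))) (.sub (.neg (.uu (.q 5 1000) (.var 3))) (.mul .pi (.var 3)))) (.add (.add (.q 164 625) (.mul (.q (-921) 1000) (.var 0))) (.mul (.q (-1849) 1000) (.var 1)))), (.sub (.add (.sub (.add (.mul .pi (.add (.mul (.sub (.q 18 100) (.var 0)) (.var 3)) (.mul (.var 1) (.sub (.sub (.var 2) (.var 0)) (.q 1 1))))) (.uu (.add (.q 18 100) (.sub (.var 2) (.var 0))) (.add (.var 1) (.var 3)))) (.uu (.q 18 100) (.var 1))) (.sub (.neg (.uu (.q 5 1000) (.var 3))) (.mul .pi (.var 3)))) (.add (.add (.q 1451 5000) (.mul (.q (-1021) 1000) (.var 0))) (.mul (.q (-1309) 500) (.var 1)))), (.sub (.var 0) (.var 2)), (.sub (.sub (.var 2) (.var 0)) (.q 8 10)), (.sub (.var 3) (.mul (.q 85 100) (.sub (.var 2) (.var 0)))), (.sub (.var 3) (.mul (.q 3091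 10000) (.sub (.q 8 10) (.sub (.var 2) (.var 0))))), (.sub (.neg (.mul (.q 64 100) (.sub (.var 2) (.var 0)))) (.var 3)), (.sub (.neg (.mul (.q 48 100) (.sub (.q 8 10) (.sub (.var 2) (.var 0))))) (.var 3))] 31
    39034016866983388914561210706332407633553549241832040562868826512919834864815114363322550881771620511420478784563010728643261495614483901148851980159253926860512399621166985624029415757494427349226581457996879292615659644953248206605397457667153596052395277226559163905874073716249327099538727343606413128839846607456996198350290258270042982194029054438494203585371679495580539581488856783592463926515671764776961922475478191431309350286110390377892973912961871230139306937428496842780255278689715582166568630421749791601889292538080859745416642777727588458309678639768666153708775403983772777775013844137536292102023397493306647390858967062231533057514935072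
    (Pool.Agent.Work.NumIs.setL 2 ((Pool.Agent.Work.NumIs.setR 0 (Pool.Agent.Work.NumIs.setL 3 ([V.of 10000 1800 4000, V.of 10000 (-800) 800, V.of 10000 10050 12000, V.of 10000 0 1360]))))) =
    1255811561069146223930999248106641388522542214534956585230903311328507645515953952691809034792206250724581401569967444684226145393075662492176775990596643257331321886291972819458188986879853593872189433140167957472772457334370957117081543619561154809408532738844969188623479254322506413538169933419337741199563399758398855844896739564699127326991268292770569758614885777399952509635728724434567391878986709585202673233341984384937262795362260189275288518681440343327685696348533587487596595506893310023300131333207145336259841405436263014255576191374332753174037326462132244 := by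
  decide +kernel

theorem k_bxp0_p2_q2 : Pool.Agent.Work.NumUs.runT [(.sub (.add (.sub (.add (.mul .pi (.add (.mul (.sub (.q 18 100) (.var 0)) (.var 3)) (.mul (.var 1) (.sub (.sub (.var 2) (.var 0)) (.q 1 1))))) (.uu (.add (.q 18 100) (.sub (.var 2) (.var 0))) (.add (.var 1) (.var 3)))) (.uu (.q 18 100) (.var 1))) (.sub (.neg (.uu (.q 5 1000) (.var 3))) (.mul .pi (.var 3)))) (.add (.add (.q 164 625) (.mul (.q (-921) 1000) (.var 0))) (.mul (.q (-1849) 1000) (.var 1)))), (.sub (.add (.sub (.add (.mul .pi (.add (.mul (.sub (.q 18 100) (.var 0)) (.var 3)) (.mul (.var 1) (.sub (.sub (.var 2) (.var 0)) (.q 1 1))))) (.uu (.add (.q 18 100) (.sub (.var 2) (.var 0))) (.add (.var 1) (.var 3)))) (.uu (.q 18 100) (.var 1))) (.sub (.neg (.uu (.q 5 1000) (.var 3))) (.mul .pi (.var 3)))) (.add (.add (.q 1451 5000) (.mul (.q (-1021) 1000) (.var 0))) (.mul (.q (-1309) 500) (.var 1)))), (.sub (.var 0) (.var 2)), (.sub (.sub (.var 2) (.var 0)) (.q 8 10)), (.sub (.var 3) (.mul (.q 85 100) (.sub (.var 2) (.var 0)))), (.sub (.var 3) (.mul (.q 3091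 10000) (.sub (.q 8 10) (.sub (.var 2) (.var 0))))), (.sub (.neg (.mul (.q 64 100) (.sub (.var 2) (.var 0)))) (.var 3)), (.sub (.neg (.mul (.q 48 100) (.sub (.q 8 10) (.sub (.var 2) (.var 0))))) (.var 3))] 29
    4905513910426352437230465812916567923916180525527174161058216059876982990296695127702379042157055666892896099882685330797758380441701806610065531213268137723950476118328018826008550729999428101063239973203781083878017411462386551238599779763910760974252081011113160893060465837197290677883476302419288051560794530306245530644127888924605966121059641768635038119589397567968564490764565329822528874527291834317197942317742126503661182794383828864356595776099376341123772251361459326123424201198801992278516138020340411469765005489985402399435844497555987317086083306492704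
    (Pool.Agent.Work.NumIs.setL 1 (Pool.Agent.Work.NumIs.setL 3 (Pool.Agent.Work.NumIs.setR 2 ((Pool.Agent.Work.NumIs.setR 0 (Pool.Agent.Work.NumIs.setL 3 ([V.of 10000 1800 4000, V.of 10000 (-800) 800, V.of 10000 10050 12000, V.of 10000 0 1360]))))))) =
    2061809907161709570095843617871001817686884527734555976750056852248096747087622751011992004990186963740043936667464639285274567962666304703939546504141482602490539526576949766295842356178205448268019089703937249465646072969129237643307555743367521499754084871729698912327245107141022497 := by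
  decide +kernel

theorem k_bxp0_p2_q3 : Pool.Agent.Work.NumUs.runT [(.sub (.add (.sub (.add (.mul .pi (.add (.mul (.sub (.q 18 100) (.var 0)) (.var 3)) (.mul (.var 1) (.sub (.sub (.var 2) (.var 0)) (.q 1 1))))) (.uu (.add (.q 18 100) (.sub (.var 2) (.var 0))) (.add (.var 1) (.var 3)))) (.uu (.q 18 100) (.var 1))) (.sub (.neg (.uu (.q 5 1000) (.var 3))) (.mul .pi (.var 3)))) (.add (.add (.q 164 625) (.mul (.q (-921) 1000) (.var 0))) (.mul (.q (-1849) 1000) (.var 1)))), (.sub (.add (.sub (.add (.mul .pi (.add (.mul (.sub (.q 18 100) (.var 0)) (.var 3)) (.mul (.var 1) (.sub (.sub (.var 2) (.var 0)) (.q 1 1))))) (.uu (.add (.q 18 100) (.sub (.var 2) (.var 0))) (.add (.var 1) (.var 3)))) (.uu (.q 18 100) (.var 1))) (.sub (.neg (.uu (.q 5 1000) (.var 3))) (.mul .pi (.var 3)))) (.add (.add (.q 1451 5000) (.mul (.q (-1021) 1000) (.var 0))) (.mul (.q (-1309) 500) (.var 1)))), (.sub (.var 0) (.var 2)), (.sub (.sub (.var 2) (.var 0)) (.q 8 10)), (.sub (.var 3) (.mul (.q 85 100) (.sub (.var 2) (.var 0)))), (.sub (.var 3) (.mul (.q 3091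 10000) (.sub (.q 8 10) (.sub (.var 2) (.var 0))))), (.sub (.neg (.mul (.q 64 100) (.sub (.var 2) (.var 0)))) (.var 3)), (.sub (.neg (.mul (.q 48 100) (.sub (.q 8 10) (.sub (.var 2) (.var 0))))) (.var 3))] 29
    2061809907161709570095843617871001817686884527734555976750056852248096747087622751011992004990186963740043936667464639285274567962666304703939546504141482602490539526576949766295842356178205448268019089703937249465646072969129237643307555743367521499754084871729698912327245107141022496
    (Pool.Agent.Work.NumIs.setR 1 (Pool.Agent.Work.NumIs.setL 3 (Pool.Agent.Work.NumIs.setR 2 ((Pool.Agent.Work.NumIs.setR 0 (Pool.Agent.Work.NumIs.setL 3 ([V.of 10000 1800 4000, V.of 10000 (-800) 800, V.of 10000 10050 12000, V.of 10000 0 1360]))))))) =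
    222 := by
  decide +kernel

theorem k_bxp0_p2_q4 : Pool.Agent.Work.NumUs.runT [(.sub (.add (.sub (.add (.mul .pi (.add (.mul (.sub (.q 18 100) (.var 0)) (.var 3)) (.mul (.var 1) (.sub (.sub (.var 2) (.var 0)) (.q 1 1))))) (.uu (.add (.q 18 100) (.sub (.var 2) (.var 0))) (.add (.var 1) (.var 3)))) (.uu (.q 18 100) (.var 1))) (.sub (.neg (.uu (.q 5 1000) (.var 3))) (.mul .pi (.var 3)))) (.add (.add (.q 164 625) (.mul (.q (-921) 1000) (.var 0))) (.mul (.q (-1849) 1000) (.var 1)))), (.sub (.add (.sub (.add (.mul .pi (.add (.mul (.sub (.q 18 100) (.var 0)) (.var 3)) (.mul (.var 1) (.sub (.sub (.var 2) (.var 0)) (.q 1 1))))) (.uu (.add (.q 18 100) (.sub (.var 2) (.var 0))) (.add (.var 1) (.var 3)))) (.uu (.q 18 100) (.var 1))) (.sub (.neg (.uu (.q 5 1000) (.var 3))) (.mul .pi (.var 3)))) (.add (.add (.q 1451 5000) (.mul (.q (-1021) 1000) (.var 0))) (.mul (.q (-1309) 500) (.var 1)))), (.sub (.var 0) (.var 2)), (.sub (.sub (.var 2) (.var 0)) (.q 8 10)), (.sub (.var 3) (.mul (.q 85 100) (.sub (.var 2) (.var 0)))), (.sub (.var 3)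 (.mul (.q 3091 10000) (.sub (.q 8 10) (.sub (.var 2) (.var 0))))), (.sub (.neg (.mul (.q 64 100) (.sub (.var 2) (.var 0)))) (.var 3)), (.sub (.neg (.mul (.q 48 100) (.sub (.q 8 10) (.sub (.var 2) (.var 0))))) (.var 3))] 30
    221
    (Pool.Agent.Work.NumIs.setR 3 (Pool.Agent.Work.NumIs.setR 2 ((Pool.Agent.Work.NumIs.setR 0 (Pool.Agent.Work.NumIs.setL 3 ([V.of 10000 1800 4000, V.of 10000 (-800) 800, V.of 10000 10050 12000, V.of 10000 0 1360])))))) =
    14 := by
  decide +kernel

theorem k_bxp0_p2 : Pool.Agent.Work.NumUs.runT [(.sub (.add (.sub (.add (.mul .pi (.add (.mul (.sub (.q 18 100) (.var 0)) (.var 3)) (.mul (.var 1) (.sub (.sub (.var 2) (.var 0)) (.q 1 1))))) (.uu (.add (.q 18 100) (.sub (.var 2) (.var 0))) (.add (.var 1) (.var 3)))) (.uu (.q 18 100) (.var 1))) (.sub (.neg (.uu (.q 5 1000) (.var 3))) (.mul .pi (.var 3)))) (.add (.add (.q 164 625) (.mul (.q (-921) 1000) (.var 0))) (.mul (.q (-1849) 1000) (.var 1)))), (.sub (.add (.sub (.add (.mul .pi (.add (.mul (.sub (.q 18 100) (.var 0)) (.var 3)) (.mul (.var 1) (.sub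 (.sub (.var 2) (.var 0)) (.q 1 1))))) (.uu (.add (.q 18 100) (.sub (.var 2) (.var 0))) (.add (.var 1) (.var 3)))) (.uu (.q 18 100) (.var 1))) (.sub (.neg (.uu (.q 5 1000) (.var 3))) (.mul .pi (.var 3)))) (.add (.add (.q 1451 5000) (.mul (.q (-1021) 1000) (.var 0))) (.mul (.q (-1309) 500) (.var 1)))), (.sub (.var 0) (.var 2)), (.sub (.sub (.var 2) (.var 0)) (.q 8 10)), (.sub (.var 3) (.mul (.q 85 100) (.sub (.var 2) (.var 0)))), (.sub (.var 3) (.mul (.q 3091 10000) (.sub (.q 8 10) (.sub (.var 2) (.var 0))))), (.sub (.neg (.mul (.q 64 100) (.sub (.var 2) (.var 0)))) (.var 3)), (.sub (.neg (.mul (.q 48 100) (.sub (.q 8 10) (.sub (.var 2) (.var 0))))) (.var 3))] 32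
    624544269871734222632979371301318522136856787869312649005901224206717357837041829813160814108345928182727660553008171658292183929831742418381631682548062829768198393938671769984470652119910837587625303327950068681850554319251971305686359322674457536838324435624946622493985179459989233592619637497702610061437545719311939173604644132320687715104464871015907257365946871929288633303821708537479422824250748236431390759607651062900949604577766246046287582607389939682228910998855949484484084459035449314665098086747996665630228680609293755926666284443641415332954858236298658459340406463740364444400221506200580673632374359892906358253743472995704528920238961154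
    (Pool.Agent.Work.NumIs.setR 0 (Pool.Agent.Work.NumIs.setL 3 ([V.of 10000 1800 4000, V.of 10000 (-800) 800, V.of 10000 10050 12000, V.of 10000 0 1360]))) =
    14 :=
      Pool.Agent.Work.NumUs.runT_split rfl rfl rfl
        k_bxp0_p2_q1
        (Pool.Agent.Work.NumUs.runT_split rfl rfl rfl
          (Pool.Agent.Work.NumUs.runT_split rfl rfl rfl
            k_bxp0_p2_q2
            k_bxp0_p2_q3)
          k_bxp0_p2_q4)

theorem k_bxp0_p3 : Pool.Agent.Work.NumUs.runT [(.sub (.add (.sub (.add (.mul .pi (.add (.mul (.sub (.q 18 100) (.var 0)) (.var 3)) (.mul (.var 1) (.sub (.sub (.var 2) (.var 0)) (.q 1 1))))) (.uu (.add (.q 18 100) (.sub (.var 2) (.var 0))) (.add (.var 1) (.var 3)))) (.uu (.q 18 100) (.var 1))) (.sub (.neg (.uu (.q 5 1000) (.var 3))) (.mul .pi (.var 3)))) (.add (.add (.q 164 625) (.mul (.q (-921) 1000) (.var 0))) (.mul (.q (-1849) 1000) (.var 1)))), (.sub (.add (.sub (.add (.mul .pi (.add (.mul (.sub (.q 18 100) (.var 0)) (.var 3)) (.mul (.var 1) (.sub (.sub (.var 2) (.var 0)) (.q 1 1))))) (.uu (.add (.q 18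 100) (.sub (.var 2) (.var 0))) (.add (.var 1) (.var 3)))) (.uu (.q 18 100) (.var 1))) (.sub (.neg (.uu (.q 5 1000) (.var 3))) (.mul .pi (.var 3)))) (.add (.add (.q 1451 5000) (.mul (.q (-1021) 1000) (.var 0))) (.mul (.q (-1309) 500) (.var 1)))), (.sub (.var 0) (.var 2)), (.sub (.sub (.var 2) (.var 0)) (.q 8 10)), (.sub (.var 3) (.mul (.q 85 100) (.sub (.var 2) (.var 0)))), (.sub (.var 3) (.mul (.q 3091 10000) (.sub (.q 8 10) (.sub (.var 2) (.var 0))))), (.sub (.neg (.mul (.q 64 100) (.sub (.var 2) (.var 0)))) (.var 3)), (.sub (.neg (.mul (.q 48 100) (.sub (.q 8 10) (.sub (.var 2) (.var 0))))) (.var 3))] 33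
    13
    (Pool.Agent.Work.NumIs.setR 3 ([V.of 10000 1800 4000, V.of 10000 (-800) 800, V.of 10000 10050 12000, V.of 10000 0 1360])) =
    1 := by
  decide +kernel

theorem k_bxn0_p1 : Pool.Agent.Work.NumUs.runT [(.sub (.add (.sub (.add (.mul .pi (.add (.mul (.sub (.q 18 100) (.var 0)) (.var 3)) (.mul (.var 1) (.sub (.sub (.var 2) (.var 0)) (.q 1 1))))) (.uu (.add (.q 18 100) (.sub (.var 2) (.var 0))) (.add (.var 1) (.var 3)))) (.uu (.q 18 100) (.var 1))) (.add (.neg (.uu (.q 5 1000) (.var 3))) (.mul .pi (.var 3)))) (.add (.add (.q 164 625) (.mul (.q (-921) 1000) (.var 0))) (.mul (.q (-1849) 1000) (.var 1)))), (.sub (.add (.sub (.add (.mul .pi (.add (.mul (.sub (.q 18 100) (.var 0)) (.var 3)) (.mul (.var 1) (.sub (.sub (.var 2) (.var 0)) (.q 1 1))))) (.uu (.add (.q 18 100) (.sub (.var 2) (.var 0))) (.add (.var 1) (.var 3)))) (.uu (.q 18 100) (.var 1))) (.add (.neg (.uu (.q 5 1000) (.var 3))) (.mul .pi (.var 3)))) (.add (.add (.q 1451 5000) (.mul (.q (-1021) 1000) (.var 0))) (.mul (.q (-1309) 500) (.var 1)))), (.sub (.var 0)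 (.var 2)), (.sub (.sub (.var 2) (.var 0)) (.q 8 10)), (.sub (.var 3) (.mul (.q 85 100) (.sub (.var 2) (.var 0)))), (.sub (.var 3) (.mul (.q 3091 10000) (.sub (.q 8 10) (.sub (.var 2) (.var 0))))), (.sub (.neg (.mul (.q 64 100) (.sub (.var 2) (.var 0)))) (.var 3)), (.sub (.neg (.mul (.q 48 100) (.sub (.q 8 10) (.sub (.var 2) (.var 0))))) (.var 3))] 33
    182315365611123256835150562597083881103110654210665447784536587784411746980510421080692408076495663825622518639335203743247179771490036267584716880768672953246688856204479204129428477552500209419669391003916937294079860891259009011760078316179915916550797477663299349803413371482762816059778465789636539932139620897807295206913022820827474659980212461271302741162139994996763048042598126737185514281024097286986023692222758568266589515567714034879871234564013855585104698853964987365906340666000121869815270344479211431615755354729137349851684418177727256413029250047758507154181501190328772338415094727845549759086099861732104555457080158036128665999099439427189973123786596127864252009082908187550876531087272633306939702513978594616105961753827978461594216461243367802087282353755654271191420729682717656669095851005177166989336425898194453340919073900631380613014358566483973556343274627867831015113083094534423758075541419981223647625007443596346953413191439866908322359064174493387844401438180031557694760434349154335448125880736825824805357468986522545000403972731207708668556484402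
    (Pool.Agent.Work.NumIs.setL 0 ([V.of 10000 1800 4000, V.of 10000 (-800) 800, V.of 10000 10050 12000, V.of 10000 (-960) 0])) =
    411821826536958376811464961480784464258817657632837570838823901091097375860131464710232717503629118308720623794973969760400724878604138627460239218706576808317022583422210965344520557985399861196831795994875769804129214557873629650482431206181740760405995233684871945441108520040636275211301994744519988937411692247248384963960183888395422579351278646037008326874511504843540234034044315676940676529538645413150092714451688045837854775917290809485209230233355501424600474264428523911390405409376992247463273382737124165812456493188019853658759798635341965241138601681177995901088974552126636608557100143067838863331518092187496222349146549544531043606567854788391427 := by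
  decide +kernel

end E1
end TL
end Pool.Agent.Work.MP_b30479_gtS.G2

end

section

/-!
# Pieces of the certificates of `TE1A`, part 5
-/

set_option linter.unusedVariables false
set_option linter.unusedSimpArgs false
set_option linter.unusedTactic false
set_option linter.unreachableTactic false
set_option deprecated.oldSectionVars true

namespace Pool.Agent.Work.MP_b30479_gtS.G2
open NumUs
open NumUs.E
open NumIs (V)
namespace TL
namespace E1

theorem k_axAw_p3_q1 : Pool.Agent.Work.NumUs.runT [(.sub (.add (.add (.sub (.add (.mul .pi (.add (.mul (.sub (.q 18 100) (.var 0)) (.var 3)) (.mul (.var 1) (.sub (.sub (.var 2) (.var 0)) (.q 1 1))))) (.uu (.add (.q 18 100) (.sub (.var 2) (.var 0))) (.add (.var 1) (.var 3)))) (.uu (.q 18 100) (.var 1))) (.neg (.uu (.var 2) (.var 3)))) (.uu (.var 0) (.q 0 1))) (.add (.add (.q (-11) 1000) (.mul (.q 0 1) (.var 0))) (.mul (.q (-3927) 1250) (.var 1)))), (.sub (.add (.sub (.add (.mul .pi (.add (.mul (.sub (.q 18 100) (.var 0)) (.var 3)) (.mul (.var 1) (.sub (.sub (.var 2) (.var 0)) (.q 1 1)))))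 (.uu (.add (.q 18 100) (.sub (.var 2) (.var 0))) (.add (.var 1) (.var 3)))) (.uu (.q 18 100) (.var 1))) (.neg (.uu (.var 2) (.var 3)))) (.add (.add (.q (-163) 5000) (.mul (.q 779 1000) (.var 0))) (.mul (.q (-821) 500) (.var 1)))), (.sub (.var 0) (.var 2)), (.sub (.sub (.var 2) (.var 0)) (.q 8 10)), (.sub (.var 3) (.mul (.q 85 100) (.sub (.var 2) (.var 0)))), (.sub (.var 3) (.mul (.q 3091 10000) (.sub (.q 8 10) (.sub (.var 2) (.var 0))))), (.sub (.neg (.mul (.q 64 100) (.sub (.var 2) (.var 0)))) (.var 3)), (.sub (.neg (.mul (.q 48 100) (.sub (.q 8 10) (.sub (.var 2) (.var 0))))) (.var 3))] 27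
    103791599271444406013453144580240462836021106160099696120753704397477396955022080095182333007335568453324364992806034991156143240555989960264068550537172589527718627480246965933969703045070222693644869429241344613853640611154662953879035945440744303601354360784006968242154133547506911891294584118528957720581596106749063555535227539458740595250158337742754735211811227629247584474031062035463762780550366807455727181841719429769212581945849113043400457158765170611993390654230928591035810554430956513163321302954358083176064750160042956065157269187905048666330654357767523887621162982332947120997736427050949885658323829201458749395635174225513870305417876420070052503558926323555568358137226822062578760579644227357193313840209423158547576504020349537626588954089195971881744272753481061661846587668652048724284349587336445336487980044451792718452923316285665651331691129569299485830709362874549175422937161710341241237748617456293897473411291661198848526842800641823823223000959464130444185462899150321225568473420173113297255253506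8628093341280038674454323231287660099447772059614538573325821979003195134747334245021971437600994351609990559188961341098881280327671984918358269822606150384380397810199596958513691361096924663206067915556805469610041973793084228876467783367988276459043329597533696030679824119508770209193023851569608990028242398511980363385779754094006349023883365573554188209492956793996531164044952419119455292399620361024513901815502926915799299613194867509079531110422033859601165462181632512134628368314584497044055596874260736164976907491558023665320221422206270298674052198445267288464625136276683117273029393902480611487931472912842843944355411261537600761893244754028618269646522033781236892432051860022641371316347727625956437200151708864708422601665788250529182466457230431145024774172545912053207397370586502847534451783632933234155517232740192453410123800827559270565268254892171222021423150011746448335434234200395647761552677079490991541045702800326093825396020568844516746087949296965507264699930941108620782428877329571368907628318568604002983530748376173057161545195542985906862898373642881608530634352997804680740513446672937990533910925995151208565327841303480398496225102909715253040678543436882012063581528381792409528640362487620030723954602405767616039824046351046877129174937751102125104328851467107891963122335082992716602506664878766327915535555726967108980559716821840432169364949782292234797090223142542167967666774869888984486402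
    (Pool.Agent.Work.NumIs.setL 3 (Pool.Agent.Work.NumIs.setL 1 (Pool.Agent.Work.NumIs.setL 0 ((Pool.Agent.Work.NumIs.setL 2 (Pool.Agent.Work.NumIs.setL 3 (Pool.Agent.Work.NumIs.setR 2 (Pool.Agent.Work.NumIs.setR 2 ([V.of 10000 200 1800, V.of 10000 (-800) 800, V.of 10000 1600 9800, V.of 10000 (-960) 1360]))))))))) =
    589986935161985036378684666148276749231747010981619587941814327208916193711855158285188355235593283244522609679768464679660515006139519074759326432156129780694974598874563104879881069820556960471804299170579182679453200598542610770658916098004421562571646750166149605787234881674447205405696104881650158634906779904833135535314042610131881447444802334659668390553470246852882522000703954946992341664044754494714920735087386161519660742816592534401254722290361602358606152473788191577090234173004753945197770138715657612783984121506608494571294552246769448324418217212994044800900400004666989394750865057238512950211337677054977742702903777998891827709359611276738931471521290879738719230188205654386472136705175599656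70280826207899257580934604459542661985886385360342940135606268514425813499341636354899974733305242345600416533948180156387361829759426721173932521271405636053543438396621560783926938383352286172306117599503419032938550954788349634554179219118623587873925784493257801915685937196314597668575497933386585096569237551595314704021648142240477132147093906274872538918976632576989562834285333970839663734581220719383111051661784958877715402030553450477309069408327006261891151006260565612262757722334850504983985766967070271423199612264059054143279139957284529792104210426887410085187962978959593790449887945282684077686190505007075580494528160408309517725570364576917845941668144189946642472591323164809009109553668127568904558360402114761626701631246265811409720499175337585621834583639677331472150428461113072462159408192067962595175500619289829699684902588235230576981750249312543257840688243531111830650200040353924429945350346513801666385054593544302600279339549204103903136571524229887388744019815299704535610773214180614806294194406543579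143073478957627605817935332796036076755241903762511400041861742923470467154094564128145887695133804597512353054340803308458028129781926012956618493199822024850017393760694315479635988265294807192819500703506661894894347301506405405313900051217189954177680948360233927854774887072643467856146192478454901653794795982094170968295451085228771804918070699040234950324113633633290341683334520705599317889588800084682924928415283784975447806647450784026672471492799744114602080085028433817545961141024259264249869971059753807137133344768222743813569556496467903865262641778720370912699960803586916604350283420940093180130638686837751011782741384599204397984341417238293238651168752098487692036493543933373056619011 := by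
  decide +kernel

theorem k_axAw_p3_q2 : Pool.Agent.Work.NumUs.runT [(.sub (.add (.add (.sub (.add (.mul .pi (.add (.mul (.sub (.q 18 100) (.var 0)) (.var 3)) (.mul (.var 1) (.sub (.sub (.var 2) (.var 0)) (.q 1 1))))) (.uu (.add (.q 18 100) (.sub (.var 2) (.var 0))) (.add (.var 1) (.var 3)))) (.uu (.q 18 100) (.var 1))) (.neg (.uu (.var 2) (.var 3)))) (.uu (.var 0) (.q 0 1))) (.add (.add (.q (-11) 1000) (.mul (.q 0 1) (.var 0))) (.mul (.q (-3927) 1250) (.var 1)))), (.sub (.add (.sub (.add (.mul .pi (.add (.mul (.sub (.q 18 100) (.var 0)) (.var 3)) (.mul (.var 1) (.sub (.sub (.var 2) (.var 0)) (.q 1 1))))) (.uu (.add (.q 18 100) (.sub (.var 2) (.var 0))) (.add (.var 1) (.var 3)))) (.uu (.q 18 100) (.var 1))) (.neg (.uu (.var 2) (.var 3)))) (.add (.add (.q (-163) 5000) (.mul (.q 779 1000) (.var 0))) (.mul (.q (-821) 500) (.var 1)))), (.sub (.var 0) (.var 2)), (.sub (.sub (.var 2) (.var 0)) (.q 8 10)), (.sub (.var 3) (.mul (.q 85 100) (.sub (.var 2) (.var 0)))), (.sub (.var 3) (.mul (.q 3091 10000) (.sub (.q 8 10) (.sub (.var 2)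 (.var 0))))), (.sub (.neg (.mul (.q 64 100) (.sub (.var 2) (.var 0)))) (.var 3)), (.sub (.neg (.mul (.q 48 100) (.sub (.q 8 10) (.sub (.var 2) (.var 0))))) (.var 3))] 27
    5899869351619850363786846661482767492317470109816195879418143272089161937118551582851883552355932832445226096797684646796605150061395190747593264321561297806949745988745631048798810698205569604718042991705791826794532005985426107706589160980044215625716467501661496057872348816744472054056961048816501586349067799048331355353140426101318814474448023346596683905534702468528825220007039549469923416640447544947149207350873861615196607428165925344012547222903616023586061524737881915770902341730047539451977701387156576127839841215066084945712945522467694483244182172129940448009004000046669893947508650572385129502113376770549777427029037779988918277093596112767389314715212908797387192301882056543864721367051755996567028082620789925758093460445954266198588638536034294013560626851442581349934163635489997473330524234560041653394818015638736182975942672117393252127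14056360535434383966215607839269383833522861723061175995034190329385509547883496345541792191186235878739257844932578019156859371963145976685754979333865850965692375515953147040216481422404771321470939062748725389189766325769895628342853339708396637345812207193831110516617849588777154020305534504773090694083270062618911510062605656122627577223348505049839857669670702714231996122640590541432791399572845297921042104268874100851879629789595937904498879452826840776861905050070755804945281604083095177255703645769178459416681441899466424725913231648090091095536681275689045583604021147616267016312462658114097204991753375856218345836396773314721504284611130724621594081920679625951755006192898296996849025882352305769817502493125432578406882435311118306502000403539244299453503465138016663850545935443026002793395492041039031365715242298873887440198152997045356107732141806148062941944065435791430734789576276058179353327960360767552419037625114000418617429234704671540945641281458876951338045975123530543408033084580281297819260129566184931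99822024850017393760694315479635988265294807192819500703506661894894347301506405405313900051217189954177680948360233927854774887072643467856146192478454901653794795982094170968295451085228771804918070699040234950324113633633290341683334520705599317889588800084682924928415283784975447806647450784026672471492799744114602080085028433817545961141024259264249869971059753807137133344768222743813569556496467903865262641778720370912699960803586916604350283420940093180130638686837751011782741384599204397984341417238293238651168752098487692036493543933373056619010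
    (Pool.Agent.Work.NumIs.setR 3 (Pool.Agent.Work.NumIs.setL 1 (Pool.Agent.Work.NumIs.setL 0 ((Pool.Agent.Work.NumIs.setL 2 (Pool.Agent.Work.NumIs.setL 3 (Pool.Agent.Work.NumIs.setR 2 (Pool.Agent.Work.NumIs.setR 2 ([V.of 10000 200 1800, V.of 10000 (-800) 800, V.of 10000 1600 9800, V.of 10000 (-960) 1360]))))))))) =
    186555056741570423547602289161608996563182437746162242616835013958771405205060726878984175629449445813548341513347181965144905272471613564984907609877218003733672314353706055163153868469583203863900364133597021490809135132059360396452016126203143263680745236477061006896285272837788346152964406211000818451528045152887708545506136144289612341694235375485554910515670047477213284404912954915519178212679947454944204564399076959647758404277675575469719860258886842730921948412798763333581931064560902352575601719925108957111161282836374364507176429198508882315845152285671415947907641219694949779435408590134388598912363547277410803315146713421037544649622931256906940891120761657481993036437378573084142790483917677492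80666223010218682903303991256788894874195631191484466079329645110332252508793759755712936937300971997138283472554127080389296420327435481567871059324564740770181657498981023836415116087634798182512696987918907051473492925161936285649789261160909332238906639898204132155541943860184928585408386385479016627127124837882962813691233900806253478769977302056114447385694912400697501916056132859635370796498577474046386314902022044699084051789590353570015587833766651348112339885450845358086973044728810065577316794804861063501245349638792739517203492844037449210510306395801273630893475725607290967496399155683104886948114436953828445972498192997604214396870331700850536386239081818968319593192721340895019164243718263786603453192120538341528419125381365330712159524830513301608032695287704308931005442648176997875261002111519115538716438214977381763779992538204151111105423393886222947421253232081563514595582086276791416683997555374986824052076298736967069340912250907504221644097338626850319901279557772597441297221870380617681358034790177149165571471687321565033389707008480505540232832214671169211939184587138374307703992252762496162481629363075088161268367632317394290452340835887634287272706572645991697853134342931502678891300503047835106653008518942143578065309158135529699375109889110341927726756666459662315654849023729127083600953426828886608068796600531715032008196556838083887532568788599126266249043117027242061930532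 := by
  decide +kernel

theorem k_axAw_p3_q3 : Pool.Agent.Work.NumUs.runT [(.sub (.add (.add (.sub (.add (.mul .pi (.add (.mul (.sub (.q 18 100) (.var 0)) (.var 3)) (.mul (.var 1) (.sub (.sub (.var 2) (.var 0)) (.q 1 1))))) (.uu (.add (.q 18 100) (.sub (.var 2) (.var 0))) (.add (.var 1) (.var 3)))) (.uu (.q 18 100) (.var 1))) (.neg (.uu (.var 2) (.var 3)))) (.uu (.var 0) (.q 0 1))) (.add (.add (.q (-11) 1000) (.mul (.q 0 1) (.var 0))) (.mul (.q (-3927) 1250) (.var 1)))), (.sub (.add (.sub (.add (.mul .pi (.add (.mul (.sub (.q 18 100) (.var 0)) (.var 3)) (.mul (.var 1) (.sub (.sub (.var 2) (.var 0)) (.q 1 1))))) (.uu (.add (.q 18 100) (.sub (.var 2) (.var 0))) (.add (.var 1) (.var 3)))) (.uu (.q 18 100) (.var 1))) (.neg (.uu (.var 2) (.var 3)))) (.add (.add (.q (-163) 5000) (.mul (.q 779 1000) (.var 0))) (.mul (.q (-821) 500) (.var 1)))), (.sub (.var 0) (.var 2)), (.sub (.sub (.var 2) (.var 0)) (.q 8 10)), (.sub (.var 3) (.mul (.q 85 100) (.sub (.var 2) (.var 0)))), (.sub (.var 3) (.mul (.q 3091 10000) (.sub (.q 8 10) (.sub (.var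 2) (.var 0))))), (.sub (.neg (.mul (.q 64 100) (.sub (.var 2) (.var 0)))) (.var 3)), (.sub (.neg (.mul (.q 48 100) (.sub (.q 8 10) (.sub (.var 2) (.var 0))))) (.var 3))] 28
    1865550567415704235476022891616089965631824377461622426168350139587714052050607268789841756294494458135483415133471819651449052724716135649849076098772180037336723143537060551631538684695832038639003641335970214908091351320593603964520161262031432636807452364770610068962852728377883461529644062110008184515280451528877085455061361442896123416942353754855549105156700474772132844049129549155191782126799474549442045643990769596477584042776755754697198602588868427309219484127987633335819310645609023525756017199251089571111612828363743645071764291985088823158451522856714159479076412196949497794354085901343885989123635472774108033151467134210375446496229312569069408911207616574819930364373785730841427904839176774928066622301021868290330399125678889487419563119148446607932964511033225250879375975571293693730097199713828347255412708038929642032743548156787105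9324564740770181657498981023836415116087634798182512696987918907051473492925161936285649789261160909332238906639898204132155541943860184928585408386385479016627127124837882962813691233900806253478769977302056114447385694912400697501916056132859635370796498577474046386314902022044699084051789590353570015587833766651348112339885450845358086973044728810065577316794804861063501245349638792739517203492844037449210510306395801273630893475725607290967496399155683104886948114436953828445972498192997604214396870331700850536386239081818968319593192721340895019164243718263786603453192120538341528419125381365330712159524830513301608032695287704308931005442648176997875261002111519115538716438214977381763779992538204151111105423393886222947421253232081563514595582086276791416683997555374986824052076298736967069340912250907504221644097338626850319901279557772597441297221870380617681358034790177149165571471687321565033389707008480505540232832214671169211939184587138374307703992252762496162481629363075088161268367632317394290452340835887634287272706572645991697853134342931502678891300503047835106653008518942143578065309158135529699375109889110341927726756666459662315654849023729127083600953426828886608068796600531715032008196556838083887532568788599126266249043117027242061930531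
    (Pool.Agent.Work.NumIs.setR 1 (Pool.Agent.Work.NumIs.setL 0 ((Pool.Agent.Work.NumIs.setL 2 (Pool.Agent.Work.NumIs.setL 3 (Pool.Agent.Work.NumIs.setR 2 (Pool.Agent.Work.NumIs.setR 2 ([V.of 10000 200 1800, V.of 10000 (-800) 800, V.of 10000 1600 9800, V.of 10000 (-960) 1360])))))))) =
    4250611506462678979620442463350633350063805139614634633455743186257445080854474090278743377905708788755347450534096852053493572482173042417497183038253732030929474538417410747081314878191094058477561553471943088587183563151333316868877729787070107842249750871684789630503957003398239376266944869516357203685625623555010411793513228887058256451305285695104110771815642165588286740031855723635698809523314366674795320313633397415885539538042406961730492131380383700485073783140940147230507737662086698351673575215834974682809432682122335467976317788274601772279949581698365968640992212341837204195511848852907816700284412112728290554282556431834048345236960811491465481768477058325431425555822663545670378494007236790449298565618105636306098872395696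75060564063036691110361595279884526502577933807566130092369004237870763928422874668701819021024737217378771526393407147324407013408102693005302139492725583776893961066542954150878496970620016755785543456927295855435711899429239014537786507094079287684289122421737600800540219623040283715136317080200578984312913083406042996479813770872248486817029288832238207482486850783321889414407368038039355704045081654445251773894438815872217291080472183227513816333620260692713525186263828585165252385667602706575998384674902048253141127625889177380374880021349318831757315984722051754639319206866332903887137993201623751027887066714260350496730364784784699981790963416465224549883523408520880608338720705318996419297489798904449798506522951193304121083625636082191641425862757767277320849602367709145303272673637090199028913105087812102304318301732096050891385362240298957615000061333466273469049697389386476430885326975231765969040737326087588689229092459722381651888387259374219775837672056115215238422701740288961037094731705199685878645766378001268073055908766587914486660544238679242171053835027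 := by
  decide +kernel

theorem k_axAw_p3_q4 : Pool.Agent.Work.NumUs.runT [(.sub (.add (.add (.sub (.add (.mul .pi (.add (.mul (.sub (.q 18 100) (.var 0)) (.var 3)) (.mul (.var 1) (.sub (.sub (.var 2) (.var 0)) (.q 1 1))))) (.uu (.add (.q 18 100) (.sub (.var 2) (.var 0))) (.add (.var 1) (.var 3)))) (.uu (.q 18 100) (.var 1))) (.neg (.uu (.var 2) (.var 3)))) (.uu (.var 0) (.q 0 1))) (.add (.add (.q (-11) 1000) (.mul (.q 0 1) (.var 0))) (.mul (.q (-3927) 1250) (.var 1)))), (.sub (.add (.sub (.add (.mul .pi (.add (.mul (.sub (.q 18 100) (.var 0)) (.var 3)) (.mul (.var 1) (.sub (.sub (.var 2) (.var 0)) (.q 1 1))))) (.uu (.add (.q 18 100) (.sub (.var 2) (.var 0))) (.add (.var 1) (.var 3)))) (.uu (.q 18 100) (.var 1))) (.neg (.uu (.var 2) (.var 3)))) (.add (.add (.q (-163) 5000) (.mul (.q 779 1000) (.var 0))) (.mul (.q (-821) 500) (.var 1)))), (.sub (.var 0) (.var 2)), (.sub (.sub (.var 2) (.var 0)) (.q 8 10)), (.sub (.var 3) (.mul (.q 85 100) (.sub (.var 2) (.var 0)))), (.sub (.var 3) (.mul (.q 3091 10000) (.sub (.q 8 10) (.sub (.var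 2) (.var 0))))), (.sub (.neg (.mul (.q 64 100) (.sub (.var 2) (.var 0)))) (.var 3)), (.sub (.neg (.mul (.q 48 100) (.sub (.q 8 10) (.sub (.var 2) (.var 0))))) (.var 3))] 29
    4250611506462678979620442463350633350063805139614634633455743186257445080854474090278743377905708788755347450534096852053493572482173042417497183038253732030929474538417410747081314878191094058477561553471943088587183563151333316868877729787070107842249750871684789630503957003398239376266944869516357203685625623555010411793513228887058256451305285695104110771815642165588286740031855723635698809523314366674795320313633397415885539538042406961730492131380383700485073783140940147230507737662086698351673575215834974682809432682122335467976317788274601772279949581698365968640992212341837204195511848852907816700284412112728290554282556431834048345236960811491465481768477058325431425555822663545670378494007236790449298565618105636306098872395696750605640630366911103615952798845265025779338075661300923690042378707639284228746687018190210247372173787715263934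07147324407013408102693005302139492725583776893961066542954150878496970620016755785543456927295855435711899429239014537786507094079287684289122421737600800540219623040283715136317080200578984312913083406042996479813770872248486817029288832238207482486850783321889414407368038039355704045081654445251773894438815872217291080472183227513816333620260692713525186263828585165252385667602706575998384674902048253141127625889177380374880021349318831757315984722051754639319206866332903887137993201623751027887066714260350496730364784784699981790963416465224549883523408520880608338720705318996419297489798904449798506522951193304121083625636082191641425862757767277320849602367709145303272673637090199028913105087812102304318301732096050891385362240298957615000061333466273469049697389386476430885326975231765969040737326087588689229092459722381651888387259374219775837672056115215238422701740288961037094731705199685878645766378001268073055908766587914486660544238679242171053835026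
    (Pool.Agent.Work.NumIs.setR 0 ((Pool.Agent.Work.NumIs.setL 2 (Pool.Agent.Work.NumIs.setL 3 (Pool.Agent.Work.NumIs.setR 2 (Pool.Agent.Work.NumIs.setR 2 ([V.of 10000 200 1800, V.of 10000 (-800) 800, V.of 10000 1600 9800, V.of 10000 (-960) 1360]))))))) =
    28958292943991412956594641968172311124858353721712630662936270878611831954692118025684205207758828659329115732919934716355778597165736624426726948277482000232963993538968753747780637111906626545802407112808885798724736467116742011121556372489544745272178592154860899341775988721980224064246777927810165308106046942084734843542822386579186274582626770956420790666336835096749868698318609953103643100108194675171890268407211470064476233515536431946758759545377540467144566352945728268420383752173895920926776775281284193423168950764939348723392335491207770830266026109207186687175717278186554629792393306986001470892864323144300331397299276259523739402972911603720008766271972774695391598382266121942119841641485301116661560428188146260077098284602653816357766488403732161049316540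41135479945624251064722432371894476594375759568510106130941897518442644692596621508752208375527413165190965137156427527174664278735476964895864428257068353329001004721909825494099651577786088480718989972350732345254646095946339566957591144278316381210370484200718624039907983952871831871904369848791099667771653070667449600078925327473672120276051277306000881539224225398778548146315431732199521737561512365797339713390420347979966106470588344161425513922834211069000612392113527887114769732095360310796662220732494763750962203525491985018638694528919874011022363502954243672163106723130713823878245633642042915745807092611332284831886727628155963884874579303207742697999282778917418994078513035838598456675698325588106252340007542727132376992749807619825435719968443399496185359214663933656036015729324644199683535024950136683797956125457454290670290996928283357367346206941857934392995278069304606345595101008135871509931334044885391609766860800667441 := by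
  decide +kernel

theorem k_axAw_p3 : Pool.Agent.Work.NumUs.runT [(.sub (.add (.add (.sub (.add (.mul .pi (.add (.mul (.sub (.q 18 100) (.var 0)) (.var 3)) (.mul (.var 1) (.sub (.sub (.var 2) (.var 0)) (.q 1 1))))) (.uu (.add (.q 18 100) (.sub (.var 2) (.var 0))) (.add (.var 1) (.var 3)))) (.uu (.q 18 100) (.var 1))) (.neg (.uu (.var 2) (.var 3)))) (.uu (.var 0) (.q 0 1))) (.add (.add (.q (-11) 1000) (.mul (.q 0 1) (.var 0))) (.mul (.q (-3927) 1250) (.var 1)))), (.sub (.add (.sub (.add (.mul .pi (.add (.mul (.sub (.q 18 100) (.var 0)) (.var 3)) (.mul (.var 1) (.sub (.sub (.var 2) (.var 0)) (.q 1 1))))) (.uu (.add (.q 18 100) (.sub (.var 2) (.var 0))) (.add (.var 1) (.var 3)))) (.uu (.q 18 100) (.var 1))) (.neg (.uu (.var 2) (.var 3)))) (.add (.add (.q (-163) 5000) (.mul (.q 779 1000) (.var 0))) (.mul (.q (-821) 500) (.var 1)))), (.sub (.var 0) (.var 2)), (.sub (.sub (.var 2) (.var 0)) (.q 8 10)), (.sub (.var 3) (.mul (.q 85 100) (.sub (.var 2) (.var 0)))), (.sub (.var 3) (.mul (.q 3091 10000) (.sub (.q 8 10) (.sub (.var 2) (.var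 0))))), (.sub (.neg (.mul (.q 64 100) (.sub (.var 2) (.var 0)))) (.var 3)), (.sub (.neg (.mul (.q 48 100) (.sub (.q 8 10) (.sub (.var 2) (.var 0))))) (.var 3))] 30
    4251303906158362870311040802006649357763424508317683553106071732120674179277704400698668359980464883848165990105335193237755627133173348772416247830002589267055354981590915724655399036726076321531693851821725475383445119432894994590885312325252886675511474617712925419198633310105883111067426165494946108235022176532441643234722920016230014781446485513943233954275787883693981060056312300972595723491343024433386585368236827843346947356501979670257682725223021388267249281197298835088826800309491978779169640569010507086891612166555359480428841745936590793372903602494157778436962835756357514076067284052006907316564944044091750375245216736277048127709916218166069350545773622212836079949300810631683226033342227552550638134894977972574108733604673517061185083559493467008276245411982584285669236230907987915746686959097300800982547662620745429747831739035060865078546068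66715850693962585550334153422532350614365557724109818337100979804051092650644270483565948111428910379921411929965078299383656034919715739928467129029072065557518364110067032588303841056490795535425576733807435618114999634256682599708727192508106760999500841367286419452133043798565314101772422214445022559547319339479197442210943057754914207207981505300342049205418212067520352273192465647300147801204067527998037624147803149801894166455959350792277685462569602911842315568086430507156842815387276905000560182626538927795490608315102820979164792812510871328887766884499875640894183629998864711393121564617731718975942828865068892637373309596676970343779661653809989245172479697197533174541308542166493315162694535688314336891780483181481355110455818929404835032839742456058465456731305100428879607976452725801272071473051250122043247215425036794631140168441865273905691176029235591756677182139950984569897642306867416753138260881584597002147501074805576993749962992231566350111450576049452710099858530382828916786708818968277223533877203833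3325399749222448113452381938623284820573231319765317595101352123198670135680308822100249987140591976240320370717756210917134780910724828681541924327045645592857001996220541945348804842133689120944070274510431738441243068541478309879007972313143077572354009226899152876139350283582837979055712240538021518193676454619313917468721412429940251821709429310924749291645845318051454024155299119293853888008721100545028514304427330975609273925480949084499938167203867299343426879142033636257657278384372600102258410165718834308268993728881553991852719995563109867065280456303376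
    (Pool.Agent.Work.NumIs.setL 2 (Pool.Agent.Work.NumIs.setL 3 (Pool.Agent.Work.NumIs.setR 2 (Pool.Agent.Work.NumIs.setR 2 ([V.of 10000 200 1800, V.of 10000 (-800) 800, V.of 10000 1600 9800, V.of 10000 (-960) 1360]))))) =
    28958292943991412956594641968172311124858353721712630662936270878611831954692118025684205207758828659329115732919934716355778597165736624426726948277482000232963993538968753747780637111906626545802407112808885798724736467116742011121556372489544745272178592154860899341775988721980224064246777927810165308106046942084734843542822386579186274582626770956420790666336835096749868698318609953103643100108194675171890268407211470064476233515536431946758759545377540467144566352945728268420383752173895920926776775281284193423168950764939348723392335491207770830266026109207186687175717278186554629792393306986001470892864323144300331397299276259523739402972911603720008766271972774695391598382266121942119841641485301116661560428188146260077098284602653816357766488403732161049316540411354799456242510647224323718944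76594375759568510106130941897518442644692596621508752208375527413165190965137156427527174664278735476964895864428257068353329001004721909825494099651577786088480718989972350732345254646095946339566957591144278316381210370484200718624039907983952871831871904369848791099667771653070667449600078925327473672120276051277306000881539224225398778548146315431732199521737561512365797339713390420347979966106470588344161425513922834211069000612392113527887114769732095360310796662220732494763750962203525491985018638694528919874011022363502954243672163106723130713823878245633642042915745807092611332284831886727628155963884874579303207742697999282778917418994078513035838598456675698325588106252340007542727132376992749807619825435719968443399496185359214663933656036015729324644199683535024950136683797956125457454290670290996928283357367346206941857934392995278069304606345595101008135871509931334044885391609766860800667441 :=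
      Pool.Agent.Work.NumUs.runT_split rfl rfl rfl
        (Pool.Agent.Work.NumUs.runT_split rfl rfl rfl
          (Pool.Agent.Work.NumUs.runT_split rfl rfl rfl
            k_axAw_p3_q1
            k_axAw_p3_q2)
          k_axAw_p3_q3)
        k_axAw_p3_q4

theorem k_axAw_p4 : Pool.Agent.Work.NumUs.runT [(.sub (.add (.add (.sub (.add (.mul .pi (.add (.mul (.sub (.q 18 100) (.var 0)) (.var 3)) (.mul (.var 1) (.sub (.sub (.var 2) (.var 0)) (.q 1 1))))) (.uu (.add (.q 18 100) (.sub (.var 2) (.var 0))) (.add (.var 1) (.var 3)))) (.uu (.q 18 100) (.var 1))) (.neg (.uu (.var 2) (.var 3)))) (.uu (.var 0) (.q 0 1))) (.add (.add (.q (-11) 1000) (.mul (.q 0 1) (.var 0))) (.mul (.q (-3927) 1250) (.var 1)))), (.sub (.add (.sub (.add (.mul .pi (.add (.mul (.sub (.q 18 100) (.var 0)) (.var 3)) (.mul (.var 1) (.sub (.sub (.var 2) (.var 0)) (.q 1 1))))) (.uu (.add (.q 18 100) (.sub (.var 2) (.var 0))) (.add (.var 1) (.var 3)))) (.uu (.q 18 100) (.var 1))) (.neg (.uu (.var 2) (.var 3)))) (.add (.add (.q (-163) 5000) (.mul (.q 779 1000) (.var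 0))) (.mul (.q (-821) 500) (.var 1)))), (.sub (.var 0) (.var 2)), (.sub (.sub (.var 2) (.var 0)) (.q 8 10)), (.sub (.var 3) (.mul (.q 85 100) (.sub (.var 2) (.var 0)))), (.sub (.var 3) (.mul (.q 3091 10000) (.sub (.q 8 10) (.sub (.var 2) (.var 0))))), (.sub (.neg (.mul (.q 64 100) (.sub (.var 2) (.var 0)))) (.var 3)), (.sub (.neg (.mul (.q 48 100) (.sub (.q 8 10) (.sub (.var 2) (.var 0))))) (.var 3))] 29
    180989330899946330978716512301076944530364710760703941643351692991323949716825737660526282548492679120806973330749591977223616232285853902667043426734262501456024959618554710923628981949416415911265044455055536242029602919479637569509727328059654657951116200967880620886099929512376400401542362048813533175662793388029592772142639916119914216141417318477629941664605219354686679364491312206897769375676216719824314177545071687902976459472102699667242247158609627919653539705910801677627398451086849505792354845508026208894805942280870929521202096820048567689162663182544916794848232988665966436202458168662509193080402019651877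071233120476622023371268580697523250054789199829841846197489889163262138249010259283131979134752676175914125481864278766586352236040552523326006558228377570967496601515691545152023243404787148484973031881633183868594902665293287288844297013023470463322824435321072276720448416517420967310305991526766066772083062562795119364093381228223611630530044936873271920771578415380996646222934849446517394773825648155262544914002494248997054489491994023115549443729235728316916715600004932832967104507517253204831625055096201514087423659259144714483262470108597594522862333732086901271748747881654411771510089094620177138191812538274507095492944673108255960019424791388795780922734435137720343249063664918408057492125688897718934640229510194170195669613992390352102627682234112943288208267801992920476759747742804661206450483918624955173682338687129907064739912403542231145349256640771250471420445773562046862976239089732498027712468511584950916495853502250983082790262480220939059383542737372257841090893166893187308017709835459137933866120899562204879331537896599693813008491969370708377805336975610428800041715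
    (Pool.Agent.Work.NumIs.setL 0 (Pool.Agent.Work.NumIs.setR 2 (Pool.Agent.Work.NumIs.setL 3 (Pool.Agent.Work.NumIs.setR 2 (Pool.Agent.Work.NumIs.setR 2 ([V.of 10000 200 1800, V.of 10000 (-800) 800, V.of 10000 1600 9800, V.of 10000 (-960) 1360])))))) =
    1403255675905922154476603562283931716275782535862430845688205520112937474350824435852498756566046439651562066738333912607758851923300969054121358513324345880744165899931553978925974498077866857286432123533374496571295643642648792314000367862033073708536454973347594621083538399983737902824216684928101234840710588113425671462379565296587426523770771390068000618921645279791563917730447360637786866863722321542752967186835761488092142913831556249902900097242055283686999765577342927414765343682428059332539719987750690905450603668829270951649775847952655691826486969777427951811493121435328870222379072271041341472419485025770215975249640385411868099319009796829425345193267572366273190801624480238159508185309889036466598159036271762786555343194978626094176364043331498101569970718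390840143158589393009900308924825780554704797791272746029682157387610217830631190635265982527243570489749629699725362970245204698428176161070726001687040840230273034177489161802392676944069656454639153608973021304683172856297548362366256612430745488702011401976819915316472215267273088015215745773257587298618836306909530731658609229509961758934380148391273738456094412623129062967830115911828976345955663086716843531385765226187751629962258305944682564309715440632171886873067102781480258146564824656208477901012958421957849464509024532099808628893494741288539414069271305047644725851974664767689272947230127680064491326083283770262859117018193725063155287491773754849000232905015858 := by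
  decide +kernel

theorem k_axAw_p5 : Pool.Agent.Work.NumUs.runT [(.sub (.add (.add (.sub (.add (.mul .pi (.add (.mul (.sub (.q 18 100) (.var 0)) (.var 3)) (.mul (.var 1) (.sub (.sub (.var 2) (.var 0)) (.q 1 1))))) (.uu (.add (.q 18 100) (.sub (.var 2) (.var 0))) (.add (.var 1) (.var 3)))) (.uu (.q 18 100) (.var 1))) (.neg (.uu (.var 2) (.var 3)))) (.uu (.var 0) (.q 0 1))) (.add (.add (.q (-11) 1000) (.mul (.q 0 1) (.var 0))) (.mul (.q (-3927) 1250) (.var 1)))), (.sub (.add (.sub (.add (.mul .pi (.add (.mul (.sub (.q 18 100) (.var 0)) (.var 3)) (.mul (.var 1) (.sub (.sub (.var 2) (.var 0)) (.q 1 1))))) (.uu (.add (.q 18 100) (.sub (.var 2) (.var 0))) (.add (.var 1) (.var 3)))) (.uu (.q 18 100) (.var 1))) (.neg (.uu (.var 2) (.var 3)))) (.add (.add (.q (-163) 5000) (.mul (.q 779 1000) (.var 0))) (.mul (.q (-821) 500) (.var 1)))), (.sub (.var 0) (.var 2)), (.sub (.sub (.var 2) (.var 0)) (.q 8 10)), (.sub (.var 3) (.mul (.q 85 100) (.sub (.var 2) (.var 0)))), (.sub (.var 3) (.mul (.q 3091 10000) (.sub (.q 8 10) (.sub (.var 2) (.var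 0))))), (.sub (.neg (.mul (.q 64 100) (.sub (.var 2) (.var 0)))) (.var 3)), (.sub (.neg (.mul (.q 48 100) (.sub (.q 8 10) (.sub (.var 2) (.var 0))))) (.var 3))] 27
    5481467484007508415924232665171608266702275530712620490969552812941162009182907952548823267836118904888914323196616846124058015325394410367661556692673226096656898046607632730179587883116667411275125482552244127231623607979096844976563936961066694173970527239639041488607571874936476182907096425500395448596525734818069029149920176939794634858479575742453127417662676874185796553634560002491354948686415318526378778073577193312859933257154516601183203504851778451902342834286495810213927123759484606767733281202151136349416420581364339654881936906065061296197214725693077936763645005606753399306168251058755240126638613381914906153318907755515109762964882018864942754661201454555754651568845625930310578848866754048697649058735436573384981809355385258180376422044263664459257698118714219309213239816444923081737600705291815616372159164178445927295352413400903088419007744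247045197225584491014552199102520330853235063129182523444090003282149504039755817038290596394312772095525934193785050864471418643969912298290493189892307599565242232038971952794204969590887785500059436506926787450385229829323865354420541442302773288120837422454653413040844118799309097902218086390280581938851389308932487670044475645414795904804540071507596416266834825939969421433097918370240157258385018846313314366800831868835772849470738377078514877456615213833158357086208091035342362210359276034248786222450117686250251919242512827227589293425852319238527950341764741229878907159785218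
    (Pool.Agent.Work.NumIs.setL 3 (Pool.Agent.Work.NumIs.setL 1 (Pool.Agent.Work.NumIs.setR 0 (Pool.Agent.Work.NumIs.setR 2 (Pool.Agent.Work.NumIs.setL 3 (Pool.Agent.Work.NumIs.setR 2 (Pool.Agent.Work.NumIs.setR 2 ([V.of 10000 200 1800, V.of 10000 (-800) 800, V.of 10000 1600 9800, V.of 10000 (-960) 1360])))))))) =
    79765850154326594433575994701410065560809387981318584802932350618956290551911049297615293003562239826553767826358916443482419931757531745354376568759809395075090259293321763546258267642648823839774202243312089227134472573803167979008342619069541894335569337121546290125225959854090996419939567938860206757039497240010954980242534321438792319655179391592582795676756022646234437032174319065108356134244463734305154911614622590610232629946469629084214153479141218877373362691818268070549342137521083448776819295048351870346471268296072079900214694586830756397062428378457522729348347720322685189693122098960960867794908894312028222387291429266262417702308186837252909821999513290295066713134956457802190253989345423887391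357256789874713067282709458744767185655976125616354100314465449107509764336861792907047227164740692996065137735555824160778535520547497448614571752954278010950616234687782919386505127772846801018213288371384901838657710315660220742822832698532064572967582002954350683297735979702614275626522292342122706869843608615804099418932953339675308784142544892332908446950756264120417819727363829463753831416952319522132961041833053519349768017097117526084043210458750420210838383175287810090891650119808102900737250404436298919986292740525577361671752298676559949218736631364544167181430905080188978730833019870296362426798923964919030667676056944215238898701998533014884016559317391539214331901562801639279144762538468464486384833307673091 := by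
  decide +kernel

theorem k_axAw_p6_q1 : Pool.Agent.Work.NumUs.runT [(.sub (.add (.add (.sub (.add (.mul .pi (.add (.mul (.sub (.q 18 100) (.var 0)) (.var 3)) (.mul (.var 1) (.sub (.sub (.var 2) (.var 0)) (.q 1 1))))) (.uu (.add (.q 18 100) (.sub (.var 2) (.var 0))) (.add (.var 1) (.var 3)))) (.uu (.q 18 100) (.var 1))) (.neg (.uu (.var 2) (.var 3)))) (.uu (.var 0) (.q 0 1))) (.add (.add (.q (-11) 1000) (.mul (.q 0 1) (.var 0))) (.mul (.q (-3927) 1250) (.var 1)))), (.sub (.add (.sub (.add (.mul .pi (.add (.mul (.sub (.q 18 100) (.var 0)) (.var 3)) (.mul (.var 1) (.sub (.sub (.var 2) (.var 0)) (.q 1 1))))) (.uu (.add (.q 18 100) (.sub (.var 2) (.var 0))) (.add (.var 1) (.var 3)))) (.uu (.q 18 100) (.var 1))) (.neg (.uu (.var 2) (.var 3)))) (.add (.add (.q (-163) 5000) (.mul (.q 779 1000) (.var 0))) (.mul (.q (-821) 500) (.var 1)))), (.sub (.var 0) (.var 2)), (.sub (.sub (.var 2) (.var 0)) (.q 8 10)), (.sub (.var 3) (.mul (.q 85 100) (.sub (.var 2) (.var 0)))), (.sub (.var 3) (.mul (.q 3091 10000) (.sub (.q 8 10) (.sub (.var 2)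 (.var 0))))), (.sub (.neg (.mul (.q 64 100) (.sub (.var 2) (.var 0)))) (.var 3)), (.sub (.neg (.mul (.q 48 100) (.sub (.q 8 10) (.sub (.var 2) (.var 0))))) (.var 3))] 24
    1947408451033364121913476433139894178730697948762660761790340591283112562302515851992560864344781245765472847323215733483457517865174114876815834198237534059450445783528363367828570987369356050775737359455861553396837709321366405737508364723377487654676985769569001223760399410500268467283680857882329266529284600586204955572327498082001765616581528115053290910077051334136582935355818336550496975933702727888309446084341371841070132567052481178813822106424346163998373112593219435316146048279323326386152814820516403084630646198634572263188835317061297763600156942833435613509481145515690556388992238744164083686399142927539751523127232159820859807185258467706369868701159992438844402176146397895561285497786753512875765558027096550611994206773895135917618554104629305520027208629128601312605880414865894707694451677075099246526746968363300257214857116636929066693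1873603030017240291671822001803345978460167676029837228606295142050453542557534233579790730639290054827384663574940027022289486323169583563385381419028838551481895412259717797709700428061444167183628550999104713976306336978545023881769375934927674275248279374883333242441853772831872501957299100958516612111928405864309286714642404250510471594267531275122250305274520580791012278501104877285564392651044082018852230622891734415815779029560593012385457280241771572858105206046122810221600599839896298559253417610599336918105302097543753498999404980868964634951791618277462496297194256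
    (Pool.Agent.Work.NumIs.setL 2 (Pool.Agent.Work.NumIs.setL 0 ((Pool.Agent.Work.NumIs.setL 2 (Pool.Agent.Work.NumIs.setR 3 (Pool.Agent.Work.NumIs.setL 1 (Pool.Agent.Work.NumIs.setR 0 (Pool.Agent.Work.NumIs.setR 2 (Pool.Agent.Work.NumIs.setL 3 (Pool.Agent.Work.NumIs.setR 2 (Pool.Agent.Work.NumIs.setR 2 ([V.of 10000 200 1800, V.of 10000 (-800) 800, V.of 10000 1600 9800, V.of 10000 (-960) 1360])))))))))))) =
    269090362059832299954662614756621880450814146868579441632236733131628992907942705710510454106062985062109269510194900291731554107801757007288127443430422277880971336339910251014823813399481066966333401624578914715239227943801726392233393361991980449471698178306601716651037016912301566406335580092248122475520285918007101748335452534190840065447321415661995751355764662919247583169108639674264647290111828730448435607486748727863203286772607102365877367060888776340352899012031201051342454996346818233509715744689386180052387983502345923346356514999017046315487707506593274095726775564676606090632427466144072132773570980103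2677705591408226991307456172184343234065196629696952715061886292139081256125800482421318082819887216887935013935174938217667981687462724165521534662639332348737015926395446838614268887294267222375767165511227332010700557344840300389509463440472860129520199497443151888972279469766949218384590688372526448137853463849290188903973532209691082062224933801386449352807995752602215156658826567164578128098886894729008734615655556722634594818164787251570828520190289578169521428521051738992038109501286033861998422945045079318398073526102021216267979643027963543214768545262676668827672014348425179370260614721699365292509197260461074667741666177955377998511773551432946096057530054223365793896920257765942568496493931940258605690967166952949776395616049 := by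
  decide +kernel

theorem k_axAw_p6_q2 : Pool.Agent.Work.NumUs.runT [(.sub (.add (.add (.sub (.add (.mul .pi (.add (.mul (.sub (.q 18 100) (.var 0)) (.var 3)) (.mul (.var 1) (.sub (.sub (.var 2) (.var 0)) (.q 1 1))))) (.uu (.add (.q 18 100) (.sub (.var 2) (.var 0))) (.add (.var 1) (.var 3)))) (.uu (.q 18 100) (.var 1))) (.neg (.uu (.var 2) (.var 3)))) (.uu (.var 0) (.q 0 1))) (.add (.add (.q (-11) 1000) (.mul (.q 0 1) (.var 0))) (.mul (.q (-3927) 1250) (.var 1)))), (.sub (.add (.sub (.add (.mul .pi (.add (.mul (.sub (.q 18 100) (.var 0)) (.var 3)) (.mul (.var 1) (.sub (.sub (.var 2) (.var 0)) (.q 1 1))))) (.uu (.add (.q 18 100) (.sub (.var 2) (.var 0))) (.add (.var 1) (.var 3)))) (.uu (.q 18 100) (.var 1))) (.neg (.uu (.var 2) (.var 3)))) (.add (.add (.q (-163) 5000) (.mul (.q 779 1000) (.var 0))) (.mul (.q (-821) 500) (.var 1)))), (.sub (.var 0) (.var 2)), (.sub (.sub (.var 2) (.var 0)) (.q 8 10)), (.sub (.var 3) (.mul (.q 85 100) (.sub (.var 2) (.var 0)))), (.sub (.var 3) (.mul (.q 3091 10000) (.sub (.q 8 10) (.sub (.var 2)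 (.var 0))))), (.sub (.neg (.mul (.q 64 100) (.sub (.var 2) (.var 0)))) (.var 3)), (.sub (.neg (.mul (.q 48 100) (.sub (.q 8 10) (.sub (.var 2) (.var 0))))) (.var 3))] 24
    2690903620598322999546626147566218804508141468685794416322367331316289929079427057105104541060629850621092695101949002917315541078017570072881274434304222778809713363399102510148238133994810669663334016245789147152392279438017263922333933619919804494716981783066017166510370169123015664063355800922481224755202859180071017483354525341908400654473214156619957513557646629192475831691086396742646472901118287304484356074867487278632032867726071023658773670608887763403528990120312010513424549963468182335097157446893861800523879835023459233463565149990170463154877075065932740957267755646766060906324274661440721327735709801032677705591408226991307456172184343234065196629696952715061886292139081256125800482421318082819887216887935013935174938217667981687462724165521534662639332348737015926395446838614268887294267222375767165511227332010700557344840300389509463440472860129520199497443151888972279469766949218384590688372526448137853463849290188903973532209691082062224933801386449352807995752602215156658826567164578128098886894729008734615655556722634594818164787251570828520190289578169521428521051738992038109501286033861998422945045079318398073526102021216267979643027963543214768545262676668827672014348425179370260614721699365292509197260461074667741666177955377998511773551432946096057530054223365793896920257765942568496493931940258605690967166952949776395616048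
    (Pool.Agent.Work.NumIs.setR 2 (Pool.Agent.Work.NumIs.setL 0 ((Pool.Agent.Work.NumIs.setL 2 (Pool.Agent.Work.NumIs.setR 3 (Pool.Agent.Work.NumIs.setL 1 (Pool.Agent.Work.NumIs.setR 0 (Pool.Agent.Work.NumIs.setR 2 (Pool.Agent.Work.NumIs.setL 3 (Pool.Agent.Work.NumIs.setR 2 (Pool.Agent.Work.NumIs.setR 2 ([V.of 10000 200 1800, V.of 10000 (-800) 800, V.of 10000 1600 9800, V.of 10000 (-960) 1360])))))))))))) =
    263331244933434966091220438986088916493096033837095635725718927539966882806882892709005939231800108702757185054621445727724222883654582858762562615535851936676571094092376717537633980054331899787152020825563975893446953263872986259151357482430172663195556841780449995151144768455864580829099618868605847560897221375431283594899078549908213951019280104685556786760902161468558922113085257704421252171013548801197525662104004529539526310458600919837943095276229516772298607113558915448772703130402405940138555066037432622118584170388835102074759080056504339817335966154307966272800805417878480757934002208958875611830963616434058331489120757594445054435549259612101121043735946501985518374537106879281952694631650381885877801667249306968726324311195641623817766859481772455428235009593356030068700076806583002885616757083634061302081876930115767150893985513202746139974087005144864567594989376680624252735305634676730778705371860205619549992890102386640094150925729129233742453094412389664359026962015142768239992326330096345695847473512352053614850221835654655036275861941687059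 := by
  decide +kernel

theorem k_axAw_p6_q3 : Pool.Agent.Work.NumUs.runT [(.sub (.add (.add (.sub (.add (.mul .pi (.add (.mul (.sub (.q 18 100) (.var 0)) (.var 3)) (.mul (.var 1) (.sub (.sub (.var 2) (.var 0)) (.q 1 1))))) (.uu (.add (.q 18 100) (.sub (.var 2) (.var 0))) (.add (.var 1) (.var 3)))) (.uu (.q 18 100) (.var 1))) (.neg (.uu (.var 2) (.var 3)))) (.uu (.var 0) (.q 0 1))) (.add (.add (.q (-11) 1000) (.mul (.q 0 1) (.var 0))) (.mul (.q (-3927) 1250) (.var 1)))), (.sub (.add (.sub (.add (.mul .pi (.add (.mul (.sub (.q 18 100) (.var 0)) (.var 3)) (.mul (.var 1) (.sub (.sub (.var 2) (.var 0)) (.q 1 1))))) (.uu (.add (.q 18 100) (.sub (.var 2) (.var 0))) (.add (.var 1) (.var 3)))) (.uu (.q 18 100) (.var 1))) (.neg (.uu (.var 2) (.var 3)))) (.add (.add (.q (-163) 5000) (.mul (.q 779 1000) (.var 0))) (.mul (.q (-821) 500) (.var 1)))), (.sub (.var 0) (.var 2)), (.sub (.sub (.var 2) (.var 0)) (.q 8 10)), (.sub (.var 3) (.mul (.q 85 100) (.sub (.var 2) (.var 0)))), (.sub (.var 3) (.mul (.q 3091 10000) (.sub (.q 8 10) (.sub (.var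 2) (.var 0))))), (.sub (.neg (.mul (.q 64 100) (.sub (.var 2) (.var 0)))) (.var 3)), (.sub (.neg (.mul (.q 48 100) (.sub (.q 8 10) (.sub (.var 2) (.var 0))))) (.var 3))] 25
    263331244933434966091220438986088916493096033837095635725718927539966882806882892709005939231800108702757185054621445727724222883654582858762562615535851936676571094092376717537633980054331899787152020825563975893446953263872986259151357482430172663195556841780449995151144768455864580829099618868605847560897221375431283594899078549908213951019280104685556786760902161468558922113085257704421252171013548801197525662104004529539526310458600919837943095276229516772298607113558915448772703130402405940138555066037432622118584170388835102074759080056504339817335966154307966272800805417878480757934002208958875611830963616434058331489120757594445054435549259612101121043735946501985518374537106879281952694631650381885877801667249306968726324311195641623817766859481772455428235009593356030068700076806583002885616757083634061302081876930115767150893985513202746139974087005144864567594989376680624252735305634676730778705371860205619549992890102386640094150925729129233742453094412389664359026962015142768239992326330096345695847473512352053614850221835654655036275861941687058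
    (Pool.Agent.Work.NumIs.setR 0 ((Pool.Agent.Work.NumIs.setL 2 (Pool.Agent.Work.NumIs.setR 3 (Pool.Agent.Work.NumIs.setL 1 (Pool.Agent.Work.NumIs.setR 0 (Pool.Agent.Work.NumIs.setR 2 (Pool.Agent.Work.NumIs.setL 3 (Pool.Agent.Work.NumIs.setR 2 (Pool.Agent.Work.NumIs.setR 2 ([V.of 10000 200 1800, V.of 10000 (-800) 800, V.of 10000 1600 9800, V.of 10000 (-960) 1360]))))))))))) =
    11261159336363668331588648587264660996281544539549586140434922892391635522025566690663489122589335958844791725767384992233769421133658706175475101683306916493881331571568479242995128649351696747358642503087901196524790900290136895259252179317400994022400967457628993714735294100760719659651679081367523040042091613980758615363964830418002352228122244492959731436141253288988533130745765733560687798731348639179053330445966490367221502894436867689313917423232338159473454922739931919435379443590712731574782871404007763930598134389605853205758748214443405405892081806953945569297625940676462993868655750228314141727178308182966432455953669462031370020900870533541817867313887129796911904498610252218270623068025412034480753278020445586011406447688164901296598434791100091849929294789768129125188388438104206624586366271164052009707236829494115024108373035164955390141630018154399364566918143996111010425042890085175391523221797174927018489573298080003652649826294721540934765206000609324789624561716411776690839571126295542640433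 := by
  decide +kernel

theorem k_axAw_p6 : Pool.Agent.Work.NumUs.runT [(.sub (.add (.add (.sub (.add (.mul .pi (.add (.mul (.sub (.q 18 100) (.var 0)) (.var 3)) (.mul (.var 1) (.sub (.sub (.var 2) (.var 0)) (.q 1 1))))) (.uu (.add (.q 18 100) (.sub (.var 2) (.var 0))) (.add (.var 1) (.var 3)))) (.uu (.q 18 100) (.var 1))) (.neg (.uu (.var 2) (.var 3)))) (.uu (.var 0) (.q 0 1))) (.add (.add (.q (-11) 1000) (.mul (.q 0 1) (.var 0))) (.mul (.q (-3927) 1250) (.var 1)))), (.sub (.add (.sub (.add (.mul .pi (.add (.mul (.sub (.q 18 100) (.var 0)) (.var 3)) (.mul (.var 1) (.sub (.sub (.var 2) (.var 0)) (.q 1 1))))) (.uu (.add (.q 18 100) (.sub (.var 2) (.var 0))) (.add (.var 1) (.var 3)))) (.uu (.q 18 100) (.var 1))) (.neg (.uu (.var 2) (.var 3)))) (.add (.add (.q (-163) 5000) (.mul (.q 779 1000) (.var 0))) (.mul (.q (-821) 500) (.var 1)))), (.sub (.var 0) (.var 2)), (.sub (.sub (.var 2) (.var 0)) (.q 8 10)), (.sub (.var 3) (.mul (.q 85 100) (.sub (.var 2) (.var 0)))), (.sub (.var 3) (.mul (.q 3091 10000) (.sub (.q 8 10) (.sub (.var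 2) (.var 0))))), (.sub (.neg (.mul (.q 64 100) (.sub (.var 2) (.var 0)))) (.var 3)), (.sub (.neg (.mul (.q 48 100) (.sub (.q 8 10) (.sub (.var 2) (.var 0))))) (.var 3))] 26
    4985365634645412152098499668838129097550586748832411550183271913684768159494440581100955812722639989159610489147432277717651245734845734084648535547488087192193141205832610221641141727665551489985887640207005576695904535862697998688021413691846368395973083570096643132826622490880687276246222996178762922314968577500684686265158395089924519978448711974536424729797251415389652314510894941569272258390278983394072181975913911913139539371654351817763384592446326179835835168238641754409333883595067715548551205940521991896654454268504504993763418411676922274816401773653595170584271732520167824355820131185060054237181805894501763899205714329141401106394261677328306863874969580643441669570934778612636890874334088992961959828549367169566705169341171547949103498507851022131269654090569219360271053862056690451697796293312254071108472239010048658470034218590538410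734559642375684413514667986432461656570485802925063638330523211556364916106894728763796426427043658254035810473875184646917706108498731413392226657643271382669179365225538487756213683309583729706799008909055770806777934422266507526113732960239341484614463559519970133310065114565844959360501068569845380252700653671901263177398948455488130680728132488006431296078150277268682499143296282848585104484518667284996826171039460284010448839431567511811170677063741893522651674932747807439416729753559013452431168874908313430251034957336971200895743847675102454946547658654279030399052081729568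
    (Pool.Agent.Work.NumIs.setL 2 (Pool.Agent.Work.NumIs.setR 3 (Pool.Agent.Work.NumIs.setL 1 (Pool.Agent.Work.NumIs.setR 0 (Pool.Agent.Work.NumIs.setR 2 (Pool.Agent.Work.NumIs.setL 3 (Pool.Agent.Work.NumIs.setR 2 (Pool.Agent.Work.NumIs.setR 2 ([V.of 10000 200 1800, V.of 10000 (-800) 800, V.of 10000 1600 9800, V.of 10000 (-960) 1360]))))))))) =
    11261159336363668331588648587264660996281544539549586140434922892391635522025566690663489122589335958844791725767384992233769421133658706175475101683306916493881331571568479242995128649351696747358642503087901196524790900290136895259252179317400994022400967457628993714735294100760719659651679081367523040042091613980758615363964830418002352228122244492959731436141253288988533130745765733560687798731348639179053330445966490367221502894436867689313917423232338159473454922739931919435379443590712731574782871404007763930598134389605853205758748214443405405892081806953945569297625940676462993868655750228314141727178308182966432455953669462031370020900870533541817867313887129796911904498610252218270623068025412034480753278020445586011406447688164901296598434791100091849929294789768129125188388438104206624586366271164052009707236829494115024108373035164955390141630018154399364566918143996111010425042890085175391523221797174927018489573298080003652649826294721540934765206000609324789624561716411776690839571126295542640433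 :=
      Pool.Agent.Work.NumUs.runT_split rfl rfl rfl
        (Pool.Agent.Work.NumUs.runT_split rfl rfl rfl
          k_axAw_p6_q1
          k_axAw_p6_q2)
        k_axAw_p6_q3

end E1
end TL
end Pool.Agent.Work.MP_b30479_gtS.G2

end

section

/-!
# Pieces of the certificates of `TE1A`, part 6
-/

set_option linter.unusedVariables false
set_option linter.unusedSimpArgs false
set_option linter.unusedTactic false
set_option linter.unreachableTactic false
set_option deprecated.oldSectionVars true

namespace Pool.Agent.Work.MP_b30479_gtS.G2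
open NumUs
open NumUs.E
open NumIs (V)
namespace TL
namespace E1

theorem k_axAw_p7 : Pool.Agent.Work.NumUs.runT [(.sub (.add (.add (.sub (.add (.mul .pi (.add (.mul (.sub (.q 18 100) (.var 0)) (.var 3)) (.mul (.var 1) (.sub (.sub (.var 2) (.var 0)) (.q 1 1))))) (.uu (.add (.q 18 100) (.sub (.var 2) (.var 0))) (.add (.var 1) (.var 3)))) (.uu (.q 18 100) (.var 1))) (.neg (.uu (.var 2) (.var 3)))) (.uu (.var 0) (.q 0 1))) (.add (.add (.q (-11) 1000) (.mul (.q 0 1) (.var 0))) (.mul (.q (-3927) 1250) (.var 1)))), (.sub (.add (.sub (.add (.mul .pi (.add (.mul (.sub (.q 18 100) (.var 0)) (.var 3)) (.mul (.var 1) (.sub (.sub (.var 2) (.var 0)) (.q 1 1))))) (.uu (.add (.q 18 100) (.sub (.var 2) (.var 0))) (.add (.var 1) (.var 3)))) (.uu (.q 18 100) (.var 1))) (.neg (.uu (.var 2) (.var 3)))) (.add (.add (.q (-163) 5000) (.mul (.q 779 1000) (.var 0))) (.mul (.q (-821) 500) (.var 1)))), (.sub (.var 0) (.var 2)), (.sub (.sub (.var 2) (.var 0)) (.q 8 10)), (.sub (.var 3) (.mul (.q 85 100) (.sub (.var 2) (.var 0)))), (.sub (.var 3) (.mul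 (.q 3091 10000) (.sub (.q 8 10) (.sub (.var 2) (.var 0))))), (.sub (.neg (.mul (.q 64 100) (.sub (.var 2) (.var 0)))) (.var 3)), (.sub (.neg (.mul (.q 48 100) (.sub (.q 8 10) (.sub (.var 2) (.var 0))))) (.var 3))] 26
    11261159336363668331588648587264660996281544539549586140434922892391635522025566690663489122589335958844791725767384992233769421133658706175475101683306916493881331571568479242995128649351696747358642503087901196524790900290136895259252179317400994022400967457628993714735294100760719659651679081367523040042091613980758615363964830418002352228122244492959731436141253288988533130745765733560687798731348639179053330445966490367221502894436867689313917423232338159473454922739931919435379443590712731574782871404007763930598134389605853205758748214443405405892081806953945569297625940676462993868655750228314141727178308182966432455953669462031370020900870533541817867313887129796911904498610252218270623068025412034480753278020445586011406447688164901296598434791100091849929294789768129125188388438104206624586366271164052009707236829494115024108373035164955390141630018154399364566918143996111010425042890085175391523221797174927018489573298080003652649826294721540934765206000609324789624561716411776690839571126295542640432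
    (Pool.Agent.Work.NumIs.setR 2 (Pool.Agent.Work.NumIs.setR 3 (Pool.Agent.Work.NumIs.setL 1 (Pool.Agent.Work.NumIs.setR 0 (Pool.Agent.Work.NumIs.setR 2 (Pool.Agent.Work.NumIs.setL 3 (Pool.Agent.Work.NumIs.setR 2 (Pool.Agent.Work.NumIs.setR 2 ([V.of 10000 200 1800, V.of 10000 (-800) 800, V.of 10000 1600 9800, V.of 10000 (-960) 1360]))))))))) =
    27968489872938762625373805898989520666961857763595773769339531216481909943371229815850086667412349562133721787518132034761569118343706378946802730013136657910809695959253563233900545591690024144724213512476077529536787061612638645312988736298154705103401497689803086363242634033618953678593518644100721449099227109412350606395893412066706376842588971702062075247283204213841415336739484633640433871825984651388631347773282711597400367354334861541519345503266958938744526818347292897528001207579947747661996337684959013450845355753190074484568744679827347874509740019815154989340508391232224153849381504358498820091940 := by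
  decide +kernel

theorem k_axAw_p8 : Pool.Agent.Work.NumUs.runT [(.sub (.add (.add (.sub (.add (.mul .pi (.add (.mul (.sub (.q 18 100) (.var 0)) (.var 3)) (.mul (.var 1) (.sub (.sub (.var 2) (.var 0)) (.q 1 1))))) (.uu (.add (.q 18 100) (.sub (.var 2) (.var 0))) (.add (.var 1) (.var 3)))) (.uu (.q 18 100) (.var 1))) (.neg (.uu (.var 2) (.var 3)))) (.uu (.var 0) (.q 0 1))) (.add (.add (.q (-11) 1000) (.mul (.q 0 1) (.var 0))) (.mul (.q (-3927) 1250) (.var 1)))), (.sub (.add (.sub (.add (.mul .pi (.add (.mul (.sub (.q 18 100) (.var 0)) (.var 3)) (.mul (.var 1) (.sub (.sub (.var 2) (.var 0)) (.q 1 1))))) (.uu (.add (.q 18 100) (.sub (.var 2) (.var 0))) (.add (.var 1) (.var 3)))) (.uu (.q 18 100) (.var 1))) (.neg (.uu (.var 2) (.var 3)))) (.add (.add (.q (-163) 5000) (.mul (.q 779 1000) (.var 0))) (.mul (.q (-821) 500) (.var 1)))), (.sub (.var 0) (.var 2)), (.sub (.sub (.var 2) (.var 0)) (.q 8 10)), (.sub (.var 3) (.mul (.q 85 100) (.sub (.var 2) (.var 0)))), (.sub (.var 3) (.mul (.q 3091 10000) (.sub (.q 8 10) (.sub (.var 2) (.var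 0))))), (.sub (.neg (.mul (.q 64 100) (.sub (.var 2) (.var 0)))) (.var 3)), (.sub (.neg (.mul (.q 48 100) (.sub (.q 8 10) (.sub (.var 2) (.var 0))))) (.var 3))] 28
    27968489872938762625373805898989520666961857763595773769339531216481909943371229815850086667412349562133721787518132034761569118343706378946802730013136657910809695959253563233900545591690024144724213512476077529536787061612638645312988736298154705103401497689803086363242634033618953678593518644100721449099227109412350606395893412066706376842588971702062075247283204213841415336739484633640433871825984651388631347773282711597400367354334861541519345503266958938744526818347292897528001207579947747661996337684959013450845355753190074484568744679827347874509740019815154989340508391232224153849381504358498820091939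
    (Pool.Agent.Work.NumIs.setR 1 (Pool.Agent.Work.NumIs.setR 0 (Pool.Agent.Work.NumIs.setR 2 (Pool.Agent.Work.NumIs.setL 3 (Pool.Agent.Work.NumIs.setR 2 (Pool.Agent.Work.NumIs.setR 2 ([V.of 10000 200 1800, V.of 10000 (-800) 800, V.of 10000 1600 9800, V.of 10000 (-960) 1360]))))))) =
    876749139587104840921361973963364525532029890263623353011641031603090589870310331035093769527820397944492066968737129334292743630307408407344426813637922704689045183275030622244 := by
  decide +kernel

theorem k_axAw_p9 : Pool.Agent.Work.NumUs.runT [(.sub (.add (.add (.sub (.add (.mul .pi (.add (.mul (.sub (.q 18 100) (.var 0)) (.var 3)) (.mul (.var 1) (.sub (.sub (.var 2) (.var 0)) (.q 1 1))))) (.uu (.add (.q 18 100) (.sub (.var 2) (.var 0))) (.add (.var 1) (.var 3)))) (.uu (.q 18 100) (.var 1))) (.neg (.uu (.var 2) (.var 3)))) (.uu (.var 0) (.q 0 1))) (.add (.add (.q (-11) 1000) (.mul (.q 0 1) (.var 0))) (.mul (.q (-3927) 1250) (.var 1)))), (.sub (.add (.sub (.add (.mul .pi (.add (.mul (.sub (.q 18 100) (.var 0)) (.var 3)) (.mul (.var 1) (.sub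 (.sub (.var 2) (.var 0)) (.q 1 1))))) (.uu (.add (.q 18 100) (.sub (.var 2) (.var 0))) (.add (.var 1) (.var 3)))) (.uu (.q 18 100) (.var 1))) (.neg (.uu (.var 2) (.var 3)))) (.add (.add (.q (-163) 5000) (.mul (.q 779 1000) (.var 0))) (.mul (.q (-821) 500) (.var 1)))), (.sub (.var 0) (.var 2)), (.sub (.sub (.var 2) (.var 0)) (.q 8 10)), (.sub (.var 3) (.mul (.q 85 100) (.sub (.var 2) (.var 0)))), (.sub (.var 3) (.mul (.q 3091 10000) (.sub (.q 8 10) (.sub (.var 2) (.var 0))))), (.sub (.neg (.mul (.q 64 100) (.sub (.var 2) (.var 0)))) (.var 3)), (.sub (.neg (.mul (.q 48 100) (.sub (.q 8 10) (.sub (.var 2) (.var 0))))) (.var 3))] 31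
    876749139587104840921361973963364525532029890263623353011641031603090589870310331035093769527820397944492066968737129334292743630307408407344426813637922704689045183275030622243
    (Pool.Agent.Work.NumIs.setR 3 (Pool.Agent.Work.NumIs.setR 2 (Pool.Agent.Work.NumIs.setR 2 ([V.of 10000 200 1800, V.of 10000 (-800) 800, V.of 10000 1600 9800, V.of 10000 (-960) 1360])))) =
    1 := by
  decide +kernel

theorem k_axAv_p1 : Pool.Agent.Work.NumUs.runT [(.sub (.add (.add (.sub (.add (.mul .pi (.add (.mul (.sub (.q 18 100) (.var 0)) (.var 3)) (.mul (.var 1) (.sub (.sub (.var 2) (.var 0)) (.q 1 1))))) (.uu (.add (.q 18 100) (.sub (.var 2) (.var 0))) (.add (.var 1) (.var 3)))) (.uu (.q 18 100) (.var 1))) (.neg (.uu (.var 2) (.var 3)))) (.uu (.q 2 100) (.q 0 1))) (.add (.add (.q (-11) 1000) (.mul (.q 0 1) (.var 0))) (.mul (.q (-3927) 1250) (.var 1)))), (.sub (.add (.sub (.add (.mul .pi (.add (.mul (.sub (.q 18 100) (.var 0)) (.var 3)) (.mul (.var 1) (.sub (.sub (.var 2) (.var 0)) (.q 1 1))))) (.uu (.add (.q 18 100) (.sub (.var 2) (.var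 0))) (.add (.var 1) (.var 3)))) (.uu (.q 18 100) (.var 1))) (.neg (.uu (.var 2) (.var 3)))) (.add (.add (.q (-163) 5000) (.mul (.q 779 1000) (.var 0))) (.mul (.q (-821) 500) (.var 1)))), (.sub (.var 0) (.var 2)), (.sub (.sub (.var 2) (.var 0)) (.q 8 10)), (.sub (.var 3) (.mul (.q 85 100) (.sub (.var 2) (.var 0)))), (.sub (.var 3) (.mul (.q 3091 10000) (.sub (.q 8 10) (.sub (.var 2) (.var 0))))), (.sub (.neg (.mul (.q 64 100) (.sub (.var 2) (.var 0)))) (.var 3)), (.sub (.neg (.mul (.q 48 100) (.sub (.q 8 10) (.sub (.var 2) (.var 0))))) (.var 3))] 34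
    12166259245121920097241309935438221091973716976858848823172791339676385090749806440941292966606244268981214304507709825728174495368823210080425086183933969273634
    ([V.of 10000 0 200, V.of 10000 (-800) 800, V.of 10000 1600 8200, V.of 10000 (-960) 1360]) =
    1 := by
  decide +kernel

end E1
end TL
end Pool.Agent.Work.MP_b30479_gtS.G2

end

section

/-!
# Tails: side of a digit `1`: rows
-/

set_option linter.unusedSimpArgs false
set_option linter.unusedVariables false

set_option deprecated.oldSectionVars true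

namespace Pool.Agent.Work.MP_b30479_gtS.G2

open VOL NumUs

namespace TL.K1b

open NumUs.E 

def QQ.t : E := var 0
def QQ.k : E := var 1
def QQ.w : E := var 0

theorem add_le_of_le_neg {a c : ℝ} (h : a ≤ -c) : a + c ≤ 0 := by linarith

theorem f_t_one_0 {t k : ℝ} (b1 : -(180 / 10000) ≤ t) (b2 : t ≤ 790 / 10000) (b3 : -(800 / 10000) ≤ k) (b4 : k ≤ 540 / 10000) (b5 : t + k ≤ 19 / 200) (b6 : -49 / 1000 ≤ t + k) :
    3 / 20 < Real.pi * (7 / 25 * k + t * (9 / 50) - t - k) + uu (23 / 50) (t + k) - uu (7 / 25) t - uu (9 / 50) k + 43 / 20 * t + 3927 / 1250 * k := by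
  have h : chkT [sub (add (add (sub (sub (add (mul pi (sub (sub (add (mul (q 7 25) QQ.k) (mul QQ.t (q 9 50))) QQ.t) QQ.k)) (E.uu (q 23 50) (add QQ.t QQ.k))) (E.uu (q 7 25) QQ.t)) (E.uu (q 9 50) QQ.k)) (mul (q 43 20) QQ.t)) (mul (q 3927 1250) QQ.k)) (q 3 20), sub (add QQ.t QQ.k) (q 19 200), sub (q (-49) 1000) (add QQ.t QQ.k)] 30
    8
    [NumIs.V.of 10000 (-180) 790, NumIs.V.of 10000 (-800) 540] = true := by
    decide +kernel
  obtain ⟨f, hf, hp⟩ := chkT2 h (by norm_num) (x := t) (y := k)
    (le_trans (by norm_num) b1) (le_trans b2 (by norm_num)) (le_trans (by norm_num) b3) (le_trans b4 (by norm_num))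
  by_contra hc
  have hc := not_lt.1 hc
  simp only [List.mem_cons, List.not_mem_nil, or_false] at hf
  rcases hf with rfl | rfl | rfl
  · simp only [E.val, NumIs.lkR, QQ.t, QQ.k, QQ.w] at hp
    push_cast at hp
    try simp only [zero_div, div_one] at hp hc
    first
      | with_reducible exact absurd (sub_pos.1 hp) (not_lt.2 hc)
      | with_reducible exact absurd hp (not_lt.2 (add_le_of_le_neg hc))
      | with_reducible exact absurd (sub_pos.1 hp) (not_lt.2 b5)
      | with_reducible exact absurd (sub_pos.1 hp) (not_lt.2 b6)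
      | linarith
  · simp only [E.val, NumIs.lkR, QQ.t, QQ.k, QQ.w] at hp
    push_cast at hp
    try simp only [zero_div, div_one] at hp hc
    first
      | with_reducible exact absurd (sub_pos.1 hp) (not_lt.2 hc)
      | with_reducible exact absurd hp (not_lt.2 (add_le_of_le_neg hc))
      | with_reducible exact absurd (sub_pos.1 hp) (not_lt.2 b5)
      | with_reducible exact absurd (sub_pos.1 hp) (not_lt.2 b6)
      | linarith
  · simp only [E.val, NumIs.lkR, QQ.t, QQ.k, QQ.w] at hp
    push_cast at hp
    try simp only [zero_div, div_one] at hp hc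
    first
      | with_reducible exact absurd (sub_pos.1 hp) (not_lt.2 hc)
      | with_reducible exact absurd hp (not_lt.2 (add_le_of_le_neg hc))
      | with_reducible exact absurd (sub_pos.1 hp) (not_lt.2 b5)
      | with_reducible exact absurd (sub_pos.1 hp) (not_lt.2 b6)
      | linarith

theorem f_t_one_1 {t k : ℝ} (b1 : -(180 / 10000) ≤ t) (b2 : t ≤ 790 / 10000) (b3 : -(800 / 10000) ≤ k) (b4 : k ≤ 540 / 10000) (b5 : t + k ≤ 19 / 200) (b6 : -49 / 1000 ≤ t + k) :
    19 / 100 < Real.pi * (7 / 25 * k + t * (9 / 50) - t - k) + uu (23 / 50) (t + k) - uu (7 / 25) t - uu (9 / 50) k + 43 / 20 * t + 821 / 500 * k := by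
  have h : chkT [sub (add (add (sub (sub (add (mul pi (sub (sub (add (mul (q 7 25) QQ.k) (mul QQ.t (q 9 50))) QQ.t) QQ.k)) (E.uu (q 23 50) (add QQ.t QQ.k))) (E.uu (q 7 25) QQ.t)) (E.uu (q 9 50) QQ.k)) (mul (q 43 20) QQ.t)) (mul (q 821 500) QQ.k)) (q 19 100), sub (add QQ.t QQ.k) (q 19 200), sub (q (-49) 1000) (add QQ.t QQ.k)] 30
    2177
    [NumIs.V.of 10000 (-180) 790, NumIs.V.of 10000 (-800) 540] = true := by
    decide +kernel
  obtain ⟨f, hf, hp⟩ := chkT2 h (by norm_num) (x := t) (y := k)
    (le_trans (by norm_num) b1) (le_trans b2 (by norm_num)) (le_trans (by norm_num) b3) (le_trans b4 (by norm_num))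
  by_contra hc
  have hc := not_lt.1 hc
  simp only [List.mem_cons, List.not_mem_nil, or_false] at hf
  rcases hf with rfl | rfl | rfl
  · simp only [E.val, NumIs.lkR, QQ.t, QQ.k, QQ.w] at hp
    push_cast at hp
    try simp only [zero_div, div_one] at hp hc
    first
      | with_reducible exact absurd (sub_pos.1 hp) (not_lt.2 hc)
      | with_reducible exact absurd hp (not_lt.2 (add_le_of_le_neg hc))
      | with_reducible exact absurd (sub_pos.1 hp) (not_lt.2 b5)
      | with_reducible exact absurd (sub_pos.1 hp) (not_lt.2 b6)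
      | linarith
  · simp only [E.val, NumIs.lkR, QQ.t, QQ.k, QQ.w] at hp
    push_cast at hp
    try simp only [zero_div, div_one] at hp hc
    first
      | with_reducible exact absurd (sub_pos.1 hp) (not_lt.2 hc)
      | with_reducible exact absurd hp (not_lt.2 (add_le_of_le_neg hc))
      | with_reducible exact absurd (sub_pos.1 hp) (not_lt.2 b5)
      | with_reducible exact absurd (sub_pos.1 hp) (not_lt.2 b6)
      | linarith
  · simp only [E.val, NumIs.lkR, QQ.t, QQ.k, QQ.w] at hp
    push_cast at hp
    try simp only [zero_div, div_one] at hp hc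
    first
      | with_reducible exact absurd (sub_pos.1 hp) (not_lt.2 hc)
      | with_reducible exact absurd hp (not_lt.2 (add_le_of_le_neg hc))
      | with_reducible exact absurd (sub_pos.1 hp) (not_lt.2 b5)
      | with_reducible exact absurd (sub_pos.1 hp) (not_lt.2 b6)
      | linarith

theorem f_t_one_2 {t k : ℝ} (b1 : -(180 / 10000) ≤ t) (b2 : t ≤ 790 / 10000) (b3 : -(800 / 10000) ≤ k) (b4 : k ≤ 540 / 10000) (b5 : t + k ≤ 19 / 200) (b6 : -49 / 1000 ≤ t + k) :
    1 / 5 < Real.pi * (7 / 25 * k + t * (9 / 50) - t - k) + uu (23 / 50) (t + k) - uu (7 / 25) t - uu (9 / 50) k + 43 / 20 * t + 1849 / 1000 * k := by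
  have h : chkT [sub (add (add (sub (sub (add (mul pi (sub (sub (add (mul (q 7 25) QQ.k) (mul QQ.t (q 9 50))) QQ.t) QQ.k)) (E.uu (q 23 50) (add QQ.t QQ.k))) (E.uu (q 7 25) QQ.t)) (E.uu (q 9 50) QQ.k)) (mul (q 43 20) QQ.t)) (mul (q 1849 1000) QQ.k)) (q 1 5), sub (add QQ.t QQ.k) (q 19 200), sub (q (-49) 1000) (add QQ.t QQ.k)] 30
    2177
    [NumIs.V.of 10000 (-180) 790, NumIs.V.of 10000 (-800) 540] = true := by
    decide +kernel
  obtain ⟨f, hf, hp⟩ := chkT2 h (by norm_num) (x := t) (y := k)
    (le_trans (by norm_num) b1) (le_trans b2 (by norm_num)) (le_trans (by norm_num) b3) (le_trans b4 (by norm_num))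
  by_contra hc
  have hc := not_lt.1 hc
  simp only [List.mem_cons, List.not_mem_nil, or_false] at hf
  rcases hf with rfl | rfl | rfl
  · simp only [E.val, NumIs.lkR, QQ.t, QQ.k, QQ.w] at hp
    push_cast at hp
    try simp only [zero_div, div_one] at hp hc
    first
      | with_reducible exact absurd (sub_pos.1 hp) (not_lt.2 hc)
      | with_reducible exact absurd hp (not_lt.2 (add_le_of_le_neg hc))
      | with_reducible exact absurd (sub_pos.1 hp) (not_lt.2 b5)
      | with_reducible exact absurd (sub_pos.1 hp) (not_lt.2 b6)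
      | linarith
  · simp only [E.val, NumIs.lkR, QQ.t, QQ.k, QQ.w] at hp
    push_cast at hp
    try simp only [zero_div, div_one] at hp hc
    first
      | with_reducible exact absurd (sub_pos.1 hp) (not_lt.2 hc)
      | with_reducible exact absurd hp (not_lt.2 (add_le_of_le_neg hc))
      | with_reducible exact absurd (sub_pos.1 hp) (not_lt.2 b5)
      | with_reducible exact absurd (sub_pos.1 hp) (not_lt.2 b6)
      | linarith
  · simp only [E.val, NumIs.lkR, QQ.t, QQ.k, QQ.w] at hp
    push_cast at hp
    try simp only [zero_div, div_one] at hp hc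
    first
      | with_reducible exact absurd (sub_pos.1 hp) (not_lt.2 hc)
      | with_reducible exact absurd hp (not_lt.2 (add_le_of_le_neg hc))
      | with_reducible exact absurd (sub_pos.1 hp) (not_lt.2 b5)
      | with_reducible exact absurd (sub_pos.1 hp) (not_lt.2 b6)
      | linarith

theorem f_t_one_3 {t k : ℝ} (b1 : -(180 / 10000) ≤ t) (b2 : t ≤ 790 / 10000) (b3 : -(800 / 10000) ≤ k) (b4 : k ≤ 540 / 10000) (b5 : t + k ≤ 19 / 200) (b6 : -49 / 1000 ≤ t + k) :
    19 / 100 < Real.pi * (7 / 25 * k + t * (9 / 50) - t - k) + uu (23 / 50) (t + k) - uu (7 / 25) t - uu (9 / 50) k + 43 / 20 * t + 1309 / 500 * k := by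
  have h : chkT [sub (add (add (sub (sub (add (mul pi (sub (sub (add (mul (q 7 25) QQ.k) (mul QQ.t (q 9 50))) QQ.t) QQ.k)) (E.uu (q 23 50) (add QQ.t QQ.k))) (E.uu (q 7 25) QQ.t)) (E.uu (q 9 50) QQ.k)) (mul (q 43 20) QQ.t)) (mul (q 1309 500) QQ.k)) (q 19 100), sub (add QQ.t QQ.k) (q 19 200), sub (q (-49) 1000) (add QQ.t QQ.k)] 30
    8
    [NumIs.V.of 10000 (-180) 790, NumIs.V.of 10000 (-800) 540] = true := by
    decide +kernel
  obtain ⟨f, hf, hp⟩ := chkT2 h (by norm_num) (x := t) (y := k)
    (le_trans (by norm_num) b1) (le_trans b2 (by norm_num)) (le_trans (by norm_num) b3) (le_trans b4 (by norm_num))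
  by_contra hc
  have hc := not_lt.1 hc
  simp only [List.mem_cons, List.not_mem_nil, or_false] at hf
  rcases hf with rfl | rfl | rfl
  · simp only [E.val, NumIs.lkR, QQ.t, QQ.k, QQ.w] at hp
    push_cast at hp
    try simp only [zero_div, div_one] at hp hc
    first
      | with_reducible exact absurd (sub_pos.1 hp) (not_lt.2 hc)
      | with_reducible exact absurd hp (not_lt.2 (add_le_of_le_neg hc))
      | with_reducible exact absurd (sub_pos.1 hp) (not_lt.2 b5)
      | with_reducible exact absurd (sub_pos.1 hp) (not_lt.2 b6)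
      | linarith
  · simp only [E.val, NumIs.lkR, QQ.t, QQ.k, QQ.w] at hp
    push_cast at hp
    try simp only [zero_div, div_one] at hp hc
    first
      | with_reducible exact absurd (sub_pos.1 hp) (not_lt.2 hc)
      | with_reducible exact absurd hp (not_lt.2 (add_le_of_le_neg hc))
      | with_reducible exact absurd (sub_pos.1 hp) (not_lt.2 b5)
      | with_reducible exact absurd (sub_pos.1 hp) (not_lt.2 b6)
      | linarith
  · simp only [E.val, NumIs.lkR, QQ.t, QQ.k, QQ.w] at hp
    push_cast at hp
    try simp only [zero_div, div_one] at hp hc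
    first
      | with_reducible exact absurd (sub_pos.1 hp) (not_lt.2 hc)
      | with_reducible exact absurd hp (not_lt.2 (add_le_of_le_neg hc))
      | with_reducible exact absurd (sub_pos.1 hp) (not_lt.2 b5)
      | with_reducible exact absurd (sub_pos.1 hp) (not_lt.2 b6)
      | linarith

theorem f_t_two_0 {t k : ℝ} (b1 : 50 / 10000 ≤ t) (b2 : t ≤ 790 / 10000) (b3 : 50 / 10000 ≤ k) (b4 : k ≤ 790 / 10000) (b5 : t + k ≤ 13 / 100) (b6 : 21 / 500 ≤ t + k) :
    11 / 50 < Real.pi * (7 / 25 * k + t * (1 / 4) - t - k) + uu (53 / 100) (t + k) - uu (7 / 25) t - uu (1 / 4) k + 43 / 20 * t + 1571 / 1000 * k := by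
  have h : chkT [sub (add (add (sub (sub (add (mul pi (sub (sub (add (mul (q 7 25) QQ.k) (mul QQ.t (q 1 4))) QQ.t) QQ.k)) (E.uu (q 53 100) (add QQ.t QQ.k))) (E.uu (q 7 25) QQ.t)) (E.uu (q 1 4) QQ.k)) (mul (q 43 20) QQ.t)) (mul (q 1571 1000) QQ.k)) (q 11 50), sub (add QQ.t QQ.k) (q 13 100), sub (q 21 500) (add QQ.t QQ.k)] 30
    8
    [NumIs.V.of 10000 50 790, NumIs.V.of 10000 50 790] = true := by
    decide +kernel
  obtain ⟨f, hf, hp⟩ := chkT2 h (by norm_num) (x := t) (y := k)
    (le_trans (by norm_num) b1) (le_trans b2 (by norm_num)) (le_trans (by norm_num) b3) (le_trans b4 (by norm_num))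
  by_contra hc
  have hc := not_lt.1 hc
  simp only [List.mem_cons, List.not_mem_nil, or_false] at hf
  rcases hf with rfl | rfl | rfl
  · simp only [E.val, NumIs.lkR, QQ.t, QQ.k, QQ.w] at hp
    push_cast at hp
    try simp only [zero_div, div_one] at hp hc
    first
      | with_reducible exact absurd (sub_pos.1 hp) (not_lt.2 hc)
      | with_reducible exact absurd hp (not_lt.2 (add_le_of_le_neg hc))
      | with_reducible exact absurd (sub_pos.1 hp) (not_lt.2 b5)
      | with_reducible exact absurd (sub_pos.1 hp) (not_lt.2 b6)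
      | linarith
  · simp only [E.val, NumIs.lkR, QQ.t, QQ.k, QQ.w] at hp
    push_cast at hp
    try simp only [zero_div, div_one] at hp hc
    first
      | with_reducible exact absurd (sub_pos.1 hp) (not_lt.2 hc)
      | with_reducible exact absurd hp (not_lt.2 (add_le_of_le_neg hc))
      | with_reducible exact absurd (sub_pos.1 hp) (not_lt.2 b5)
      | with_reducible exact absurd (sub_pos.1 hp) (not_lt.2 b6)
      | linarith
  · simp only [E.val, NumIs.lkR, QQ.t, QQ.k, QQ.w] at hp
    push_cast at hp
    try simp only [zero_div, div_one] at hp hc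
    first
      | with_reducible exact absurd (sub_pos.1 hp) (not_lt.2 hc)
      | with_reducible exact absurd hp (not_lt.2 (add_le_of_le_neg hc))
      | with_reducible exact absurd (sub_pos.1 hp) (not_lt.2 b5)
      | with_reducible exact absurd (sub_pos.1 hp) (not_lt.2 b6)
      | linarith

theorem f_t_twoE_0 {t k : ℝ} (b1 : 480 / 10000 ≤ t) (b2 : t ≤ 985 / 10000) (b3 : -(490 / 10000) ≤ k) (b4 : k ≤ -(200 / 10000)) (b5 : t + k ≤ 8 / 125) (b6 : 21 / 1000 ≤ t + k) :
    6 / 25 < Real.pi * (7 / 25 * k + t * (11 / 50) - t - k) + uu (1 / 2) (t + k) - uu (7 / 25) t - uu (11 / 50) k + 43 / 20 * t + 1131 / 500 * k := by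
  have h : chkT [sub (add (add (sub (sub (add (mul pi (sub (sub (add (mul (q 7 25) QQ.k) (mul QQ.t (q 11 50))) QQ.t) QQ.k)) (E.uu (q 1 2) (add QQ.t QQ.k))) (E.uu (q 7 25) QQ.t)) (E.uu (q 11 50) QQ.k)) (mul (q 43 20) QQ.t)) (mul (q 1131 500) QQ.k)) (q 6 25), sub (add QQ.t QQ.k) (q 8 125), sub (q 21 1000) (add QQ.t QQ.k)] 30
    8
    [NumIs.V.of 10000 480 985, NumIs.V.of 10000 (-490) (-200)] = true := by
    decide +kernel
  obtain ⟨f, hf, hp⟩ := chkT2 h (by norm_num) (x := t) (y := k)
    (le_trans (by norm_num) b1) (le_trans b2 (by norm_num)) (le_trans (by norm_num) b3) (le_trans b4 (by norm_num))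
  by_contra hc
  have hc := not_lt.1 hc
  simp only [List.mem_cons, List.not_mem_nil, or_false] at hf
  rcases hf with rfl | rfl | rfl
  · simp only [E.val, NumIs.lkR, QQ.t, QQ.k, QQ.w] at hp
    push_cast at hp
    try simp only [zero_div, div_one] at hp hc
    first
      | with_reducible exact absurd (sub_pos.1 hp) (not_lt.2 hc)
      | with_reducible exact absurd hp (not_lt.2 (add_le_of_le_neg hc))
      | with_reducible exact absurd (sub_pos.1 hp) (not_lt.2 b5)
      | with_reducible exact absurd (sub_pos.1 hp) (not_lt.2 b6)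
      | linarith
  · simp only [E.val, NumIs.lkR, QQ.t, QQ.k, QQ.w] at hp
    push_cast at hp
    try simp only [zero_div, div_one] at hp hc
    first
      | with_reducible exact absurd (sub_pos.1 hp) (not_lt.2 hc)
      | with_reducible exact absurd hp (not_lt.2 (add_le_of_le_neg hc))
      | with_reducible exact absurd (sub_pos.1 hp) (not_lt.2 b5)
      | with_reducible exact absurd (sub_pos.1 hp) (not_lt.2 b6)
      | linarith
  · simp only [E.val, NumIs.lkR, QQ.t, QQ.k, QQ.w] at hp
    push_cast at hp
    try simp only [zero_div, div_one] at hp hc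
    first
      | with_reducible exact absurd (sub_pos.1 hp) (not_lt.2 hc)
      | with_reducible exact absurd hp (not_lt.2 (add_le_of_le_neg hc))
      | with_reducible exact absurd (sub_pos.1 hp) (not_lt.2 b5)
      | with_reducible exact absurd (sub_pos.1 hp) (not_lt.2 b6)
      | linarith

theorem f_t_threeA_0 {t k : ℝ} (b1 : 100 / 10000 ≤ t) (b2 : t ≤ 770 / 10000) (b3 : 460 / 10000 ≤ k) (b4 : k ≤ 940 / 10000) (b5 : t + k ≤ 37 / 250) (b6 : 39 / 500 ≤ t + k) :
    97 / 1000 < Real.pi * (7 / 25 * k + t * (3 / 20) - t - k) + uu (43 / 100) (t + k) - uu (7 / 25) t - uu (3 / 20) k + 43 / 20 * t + 851 / 1000 * k := by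
  have h : chkT [sub (add (add (sub (sub (add (mul pi (sub (sub (add (mul (q 7 25) QQ.k) (mul QQ.t (q 3 20))) QQ.t) QQ.k)) (E.uu (q 43 100) (add QQ.t QQ.k))) (E.uu (q 7 25) QQ.t)) (E.uu (q 3 20) QQ.k)) (mul (q 43 20) QQ.t)) (mul (q 851 1000) QQ.k)) (q 97 1000), sub (add QQ.t QQ.k) (q 37 250), sub (q 39 500) (add QQ.t QQ.k)] 30
    36532420992
    [NumIs.V.of 10000 100 770, NumIs.V.of 10000 460 940] = true := by
    decide +kernel
  obtain ⟨f, hf, hp⟩ := chkT2 h (by norm_num) (x := t) (y := k)
    (le_trans (by norm_num) b1) (le_trans b2 (by norm_num)) (le_trans (by norm_num) b3) (le_trans b4 (by norm_num))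
  by_contra hc
  have hc := not_lt.1 hc
  simp only [List.mem_cons, List.not_mem_nil, or_false] at hf
  rcases hf with rfl | rfl | rfl
  · simp only [E.val, NumIs.lkR, QQ.t, QQ.k, QQ.w] at hp
    push_cast at hp
    try simp only [zero_div, div_one] at hp hc
    first
      | with_reducible exact absurd (sub_pos.1 hp) (not_lt.2 hc)
      | with_reducible exact absurd hp (not_lt.2 (add_le_of_le_neg hc))
      | with_reducible exact absurd (sub_pos.1 hp) (not_lt.2 b5)
      | with_reducible exact absurd (sub_pos.1 hp) (not_lt.2 b6)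
      | linarith
  · simp only [E.val, NumIs.lkR, QQ.t, QQ.k, QQ.w] at hp
    push_cast at hp
    try simp only [zero_div, div_one] at hp hc
    first
      | with_reducible exact absurd (sub_pos.1 hp) (not_lt.2 hc)
      | with_reducible exact absurd hp (not_lt.2 (add_le_of_le_neg hc))
      | with_reducible exact absurd (sub_pos.1 hp) (not_lt.2 b5)
      | with_reducible exact absurd (sub_pos.1 hp) (not_lt.2 b6)
      | linarith
  · simp only [E.val, NumIs.lkR, QQ.t, QQ.k, QQ.w] at hp
    push_cast at hp
    try simp only [zero_div, div_one] at hp hc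
    first
      | with_reducible exact absurd (sub_pos.1 hp) (not_lt.2 hc)
      | with_reducible exact absurd hp (not_lt.2 (add_le_of_le_neg hc))
      | with_reducible exact absurd (sub_pos.1 hp) (not_lt.2 b5)
      | with_reducible exact absurd (sub_pos.1 hp) (not_lt.2 b6)
      | linarith

theorem f_t_threeA_1 {t k : ℝ} (b1 : 100 / 10000 ≤ t) (b2 : t ≤ 770 / 10000) (b3 : 460 / 10000 ≤ k) (b4 : k ≤ 940 / 10000) (b5 : t + k ≤ 37 / 250) (b6 : 39 / 500 ≤ t + k) :
    13 / 200 < Real.pi * (7 / 25 * k + t * (3 / 20) - t - k) + uu (43 / 100) (t + k) - uu (7 / 25) t - uu (3 / 20) k + 43 / 20 * t + 113 / 200 * k := by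
  have h : chkT [sub (add (add (sub (sub (add (mul pi (sub (sub (add (mul (q 7 25) QQ.k) (mul QQ.t (q 3 20))) QQ.t) QQ.k)) (E.uu (q 43 100) (add QQ.t QQ.k))) (E.uu (q 7 25) QQ.t)) (E.uu (q 3 20) QQ.k)) (mul (q 43 20) QQ.t)) (mul (q 113 200) QQ.k)) (q 13 200), sub (add QQ.t QQ.k) (q 37 250), sub (q 39 500) (add QQ.t QQ.k)] 30
    2176
    [NumIs.V.of 10000 100 770, NumIs.V.of 10000 460 940] = true := by
    decide +kernel
  obtain ⟨f, hf, hp⟩ := chkT2 h (by norm_num) (x := t) (y := k)
    (le_trans (by norm_num) b1) (le_trans b2 (by norm_num)) (le_trans (by norm_num) b3) (le_trans b4 (by norm_num))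
  by_contra hc
  have hc := not_lt.1 hc
  simp only [List.mem_cons, List.not_mem_nil, or_false] at hf
  rcases hf with rfl | rfl | rfl
  · simp only [E.val, NumIs.lkR, QQ.t, QQ.k, QQ.w] at hp
    push_cast at hp
    try simp only [zero_div, div_one] at hp hc
    first
      | with_reducible exact absurd (sub_pos.1 hp) (not_lt.2 hc)
      | with_reducible exact absurd hp (not_lt.2 (add_le_of_le_neg hc))
      | with_reducible exact absurd (sub_pos.1 hp) (not_lt.2 b5)
      | with_reducible exact absurd (sub_pos.1 hp) (not_lt.2 b6)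
      | linarith
  · simp only [E.val, NumIs.lkR, QQ.t, QQ.k, QQ.w] at hp
    push_cast at hp
    try simp only [zero_div, div_one] at hp hc
    first
      | with_reducible exact absurd (sub_pos.1 hp) (not_lt.2 hc)
      | with_reducible exact absurd hp (not_lt.2 (add_le_of_le_neg hc))
      | with_reducible exact absurd (sub_pos.1 hp) (not_lt.2 b5)
      | with_reducible exact absurd (sub_pos.1 hp) (not_lt.2 b6)
      | linarith
  · simp only [E.val, NumIs.lkR, QQ.t, QQ.k, QQ.w] at hp
    push_cast at hp
    try simp only [zero_div, div_one] at hp hc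
    first
      | with_reducible exact absurd (sub_pos.1 hp) (not_lt.2 hc)
      | with_reducible exact absurd hp (not_lt.2 (add_le_of_le_neg hc))
      | with_reducible exact absurd (sub_pos.1 hp) (not_lt.2 b5)
      | with_reducible exact absurd (sub_pos.1 hp) (not_lt.2 b6)
      | linarith

theorem f_t_threeK_0 {t k : ℝ} (b1 : 100 / 10000 ≤ t) (b2 : t ≤ 770 / 10000) (b3 : 460 / 10000 ≤ k) (b4 : k ≤ 940 / 10000) (b5 : t + k ≤ 37 / 250) (b6 : 39 / 500 ≤ t + k) :
    4 / 25 < Real.pi * (7 / 25 * k + t * (9 / 50) - t - k) + uu (23 / 50) (t + k) - uu (7 / 25) t - uu (9 / 50) k + 43 / 20 * t + 353 / 250 * k := by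
  have h : chkT [sub (add (add (sub (sub (add (mul pi (sub (sub (add (mul (q 7 25) QQ.k) (mul QQ.t (q 9 50))) QQ.t) QQ.k)) (E.uu (q 23 50) (add QQ.t QQ.k))) (E.uu (q 7 25) QQ.t)) (E.uu (q 9 50) QQ.k)) (mul (q 43 20) QQ.t)) (mul (q 353 250) QQ.k)) (q 4 25), sub (add QQ.t QQ.k) (q 37 250), sub (q 39 500) (add QQ.t QQ.k)] 30
    8
    [NumIs.V.of 10000 100 770, NumIs.V.of 10000 460 940] = true := by
    decide +kernel
  obtain ⟨f, hf, hp⟩ := chkT2 h (by norm_num) (x := t) (y := k)
    (le_trans (by norm_num) b1) (le_trans b2 (by norm_num)) (le_trans (by norm_num) b3) (le_trans b4 (by norm_num))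
  by_contra hc
  have hc := not_lt.1 hc
  simp only [List.mem_cons, List.not_mem_nil, or_false] at hf
  rcases hf with rfl | rfl | rfl
  · simp only [E.val, NumIs.lkR, QQ.t, QQ.k, QQ.w] at hp
    push_cast at hp
    try simp only [zero_div, div_one] at hp hc
    first
      | with_reducible exact absurd (sub_pos.1 hp) (not_lt.2 hc)
      | with_reducible exact absurd hp (not_lt.2 (add_le_of_le_neg hc))
      | with_reducible exact absurd (sub_pos.1 hp) (not_lt.2 b5)
      | with_reducible exact absurd (sub_pos.1 hp) (not_lt.2 b6)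
      | linarith
  · simp only [E.val, NumIs.lkR, QQ.t, QQ.k, QQ.w] at hp
    push_cast at hp
    try simp only [zero_div, div_one] at hp hc
    first
      | with_reducible exact absurd (sub_pos.1 hp) (not_lt.2 hc)
      | with_reducible exact absurd hp (not_lt.2 (add_le_of_le_neg hc))
      | with_reducible exact absurd (sub_pos.1 hp) (not_lt.2 b5)
      | with_reducible exact absurd (sub_pos.1 hp) (not_lt.2 b6)
      | linarith
  · simp only [E.val, NumIs.lkR, QQ.t, QQ.k, QQ.w] at hp
    push_cast at hp
    try simp only [zero_div, div_one] at hp hc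
    first
      | with_reducible exact absurd (sub_pos.1 hp) (not_lt.2 hc)
      | with_reducible exact absurd hp (not_lt.2 (add_le_of_le_neg hc))
      | with_reducible exact absurd (sub_pos.1 hp) (not_lt.2 b5)
      | with_reducible exact absurd (sub_pos.1 hp) (not_lt.2 b6)
      | linarith

theorem f_t_threeE_0 {t k : ℝ} (b1 : 320 / 10000 ≤ t) (b2 : t ≤ 910 / 10000) (b3 : 300 / 10000 ≤ k) (b4 : k ≤ 590 / 10000) (b5 : t + k ≤ 67 / 500) (b6 : 83 / 1000 ≤ t + k) :
    9 / 50 < Real.pi * (7 / 25 * k + t * (11 / 50) - t - k) + uu (1 / 2) (t + k) - uu (7 / 25) t - uu (11 / 50) k + 43 / 20 * t + 243 / 200 * k := by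
  have h : chkT [sub (add (add (sub (sub (add (mul pi (sub (sub (add (mul (q 7 25) QQ.k) (mul QQ.t (q 11 50))) QQ.t) QQ.k)) (E.uu (q 1 2) (add QQ.t QQ.k))) (E.uu (q 7 25) QQ.t)) (E.uu (q 11 50) QQ.k)) (mul (q 43 20) QQ.t)) (mul (q 243 200) QQ.k)) (q 9 50), sub (add QQ.t QQ.k) (q 67 500), sub (q 83 1000) (add QQ.t QQ.k)] 30
    8
    [NumIs.V.of 10000 320 910, NumIs.V.of 10000 300 590] = true := by
    decide +kernel
  obtain ⟨f, hf, hp⟩ := chkT2 h (by norm_num) (x := t) (y := k)
    (le_trans (by norm_num) b1) (le_trans b2 (by norm_num)) (le_trans (by norm_num) b3) (le_trans b4 (by norm_num))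
  by_contra hc
  have hc := not_lt.1 hc
  simp only [List.mem_cons, List.not_mem_nil, or_false] at hf
  rcases hf with rfl | rfl | rfl
  · simp only [E.val, NumIs.lkR, QQ.t, QQ.k, QQ.w] at hp
    push_cast at hp
    try simp only [zero_div, div_one] at hp hc
    first
      | with_reducible exact absurd (sub_pos.1 hp) (not_lt.2 hc)
      | with_reducible exact absurd hp (not_lt.2 (add_le_of_le_neg hc))
      | with_reducible exact absurd (sub_pos.1 hp) (not_lt.2 b5)
      | with_reducible exact absurd (sub_pos.1 hp) (not_lt.2 b6)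
      | linarith
  · simp only [E.val, NumIs.lkR, QQ.t, QQ.k, QQ.w] at hp
    push_cast at hp
    try simp only [zero_div, div_one] at hp hc
    first
      | with_reducible exact absurd (sub_pos.1 hp) (not_lt.2 hc)
      | with_reducible exact absurd hp (not_lt.2 (add_le_of_le_neg hc))
      | with_reducible exact absurd (sub_pos.1 hp) (not_lt.2 b5)
      | with_reducible exact absurd (sub_pos.1 hp) (not_lt.2 b6)
      | linarith
  · simp only [E.val, NumIs.lkR, QQ.t, QQ.k, QQ.w] at hp
    push_cast at hp
    try simp only [zero_div, div_one] at hp hc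
    first
      | with_reducible exact absurd (sub_pos.1 hp) (not_lt.2 hc)
      | with_reducible exact absurd hp (not_lt.2 (add_le_of_le_neg hc))
      | with_reducible exact absurd (sub_pos.1 hp) (not_lt.2 b5)
      | with_reducible exact absurd (sub_pos.1 hp) (not_lt.2 b6)
      | linarith

theorem f_t_ring_0 {t k : ℝ} (b1 : -(80 / 10000) ≤ t) (b2 : t ≤ 800 / 10000) (b3 : 630 / 10000 ≤ k) (b4 : k ≤ 1450 / 10000) (b5 : t + k ≤ 187 / 1000) (b6 : 47 / 500 ≤ t + k) :
    7 / 40 < Real.pi * (7 / 25 * k + t * (9 / 50) - t - k) + uu (23 / 50) (t + k) - uu (7 / 25) t - uu (9 / 50) k + 43 / 20 * t + 839 / 500 * k := by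
  have h : chkT [sub (add (add (sub (sub (add (mul pi (sub (sub (add (mul (q 7 25) QQ.k) (mul QQ.t (q 9 50))) QQ.t) QQ.k)) (E.uu (q 23 50) (add QQ.t QQ.k))) (E.uu (q 7 25) QQ.t)) (E.uu (q 9 50) QQ.k)) (mul (q 43 20) QQ.t)) (mul (q 839 500) QQ.k)) (q 7 40), sub (add QQ.t QQ.k) (q 187 1000), sub (q 47 500) (add QQ.t QQ.k)] 30
    8
    [NumIs.V.of 10000 (-80) 800, NumIs.V.of 10000 630 1450] = true := by
    decide +kernel
  obtain ⟨f, hf, hp⟩ := chkT2 h (by norm_num) (x := t) (y := k)
    (le_trans (by norm_num) b1) (le_trans b2 (by norm_num)) (le_trans (by norm_num) b3) (le_trans b4 (by norm_num))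
  by_contra hc
  have hc := not_lt.1 hc
  simp only [List.mem_cons, List.not_mem_nil, or_false] at hf
  rcases hf with rfl | rfl | rfl
  · simp only [E.val, NumIs.lkR, QQ.t, QQ.k, QQ.w] at hp
    push_cast at hp
    try simp only [zero_div, div_one] at hp hc
    first
      | with_reducible exact absurd (sub_pos.1 hp) (not_lt.2 hc)
      | with_reducible exact absurd hp (not_lt.2 (add_le_of_le_neg hc))
      | with_reducible exact absurd (sub_pos.1 hp) (not_lt.2 b5)
      | with_reducible exact absurd (sub_pos.1 hp) (not_lt.2 b6)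
      | linarith
  · simp only [E.val, NumIs.lkR, QQ.t, QQ.k, QQ.w] at hp
    push_cast at hp
    try simp only [zero_div, div_one] at hp hc
    first
      | with_reducible exact absurd (sub_pos.1 hp) (not_lt.2 hc)
      | with_reducible exact absurd hp (not_lt.2 (add_le_of_le_neg hc))
      | with_reducible exact absurd (sub_pos.1 hp) (not_lt.2 b5)
      | with_reducible exact absurd (sub_pos.1 hp) (not_lt.2 b6)
      | linarith
  · simp only [E.val, NumIs.lkR, QQ.t, QQ.k, QQ.w] at hp
    push_cast at hp
    try simp only [zero_div, div_one] at hp hc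
    first
      | with_reducible exact absurd (sub_pos.1 hp) (not_lt.2 hc)
      | with_reducible exact absurd hp (not_lt.2 (add_le_of_le_neg hc))
      | with_reducible exact absurd (sub_pos.1 hp) (not_lt.2 b5)
      | with_reducible exact absurd (sub_pos.1 hp) (not_lt.2 b6)
      | linarith

theorem f_t_ring_1 {t k : ℝ} (b1 : -(80 / 10000) ≤ t) (b2 : t ≤ 800 / 10000) (b3 : 630 / 10000 ≤ k) (b4 : k ≤ 1450 / 10000) (b5 : t + k ≤ 187 / 1000) (b6 : 47 / 500 ≤ t + k) :
    18 / 125 < Real.pi * (7 / 25 * k + t * (9 / 50) - t - k) + uu (23 / 50) (t + k) - uu (7 / 25) t - uu (9 / 50) k + 43 / 20 * t + 1397 / 1000 * k := by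
  have h : chkT [sub (add (add (sub (sub (add (mul pi (sub (sub (add (mul (q 7 25) QQ.k) (mul QQ.t (q 9 50))) QQ.t) QQ.k)) (E.uu (q 23 50) (add QQ.t QQ.k))) (E.uu (q 7 25) QQ.t)) (E.uu (q 9 50) QQ.k)) (mul (q 43 20) QQ.t)) (mul (q 1397 1000) QQ.k)) (q 18 125), sub (add QQ.t QQ.k) (q 187 1000), sub (q 47 500) (add QQ.t QQ.k)] 30
    2176
    [NumIs.V.of 10000 (-80) 800, NumIs.V.of 10000 630 1450] = true := by
    decide +kernel
  obtain ⟨f, hf, hp⟩ := chkT2 h (by norm_num) (x := t) (y := k)
    (le_trans (by norm_num) b1) (le_trans b2 (by norm_num)) (le_trans (by norm_num) b3) (le_trans b4 (by norm_num))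
  by_contra hc
  have hc := not_lt.1 hc
  simp only [List.mem_cons, List.not_mem_nil, or_false] at hf
  rcases hf with rfl | rfl | rfl
  · simp only [E.val, NumIs.lkR, QQ.t, QQ.k, QQ.w] at hp
    push_cast at hp
    try simp only [zero_div, div_one] at hp hc
    first
      | with_reducible exact absurd (sub_pos.1 hp) (not_lt.2 hc)
      | with_reducible exact absurd hp (not_lt.2 (add_le_of_le_neg hc))
      | with_reducible exact absurd (sub_pos.1 hp) (not_lt.2 b5)
      | with_reducible exact absurd (sub_pos.1 hp) (not_lt.2 b6)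
      | linarith
  · simp only [E.val, NumIs.lkR, QQ.t, QQ.k, QQ.w] at hp
    push_cast at hp
    try simp only [zero_div, div_one] at hp hc
    first
      | with_reducible exact absurd (sub_pos.1 hp) (not_lt.2 hc)
      | with_reducible exact absurd hp (not_lt.2 (add_le_of_le_neg hc))
      | with_reducible exact absurd (sub_pos.1 hp) (not_lt.2 b5)
      | with_reducible exact absurd (sub_pos.1 hp) (not_lt.2 b6)
      | linarith
  · simp only [E.val, NumIs.lkR, QQ.t, QQ.k, QQ.w] at hp
    push_cast at hp
    try simp only [zero_div, div_one] at hp hc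
    first
      | with_reducible exact absurd (sub_pos.1 hp) (not_lt.2 hc)
      | with_reducible exact absurd hp (not_lt.2 (add_le_of_le_neg hc))
      | with_reducible exact absurd (sub_pos.1 hp) (not_lt.2 b5)
      | with_reducible exact absurd (sub_pos.1 hp) (not_lt.2 b6)
      | linarith

theorem f_t_touched_0 {t k : ℝ} (b1 : -(180 / 10000) ≤ t) (b2 : t ≤ 985 / 10000) (b3 : -(930 / 10000) ≤ k) (b4 : k ≤ 1450 / 10000) :
    11 / 50 < Real.pi * (7 / 25 * k + t * (1 / 5) - t - k) + uu (12 / 25) (t + k) - uu (7 / 25) t - uu (1 / 5) k + 43 / 20 * t + 59 / 25 * k := by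
  have h : chkT [sub (add (add (sub (sub (add (mul pi (sub (sub (add (mul (q 7 25) QQ.k) (mul QQ.t (q 1 5))) QQ.t) QQ.k)) (E.uu (q 12 25) (add QQ.t QQ.k))) (E.uu (q 7 25) QQ.t)) (E.uu (q 1 5) QQ.k)) (mul (q 43 20) QQ.t)) (mul (q 59 25) QQ.k)) (q 11 50)] 30
    2177
    [NumIs.V.of 10000 (-180) 985, NumIs.V.of 10000 (-930) 1450] = true := by
    decide +kernel
  obtain ⟨f, hf, hp⟩ := chkT2 h (by norm_num) (x := t) (y := k)
    (le_trans (by norm_num) b1) (le_trans b2 (by norm_num)) (le_trans (by norm_num) b3) (le_trans b4 (by norm_num))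
  by_contra hc
  have hc := not_lt.1 hc
  simp only [List.mem_cons, List.not_mem_nil, or_false] at hf
  rcases hf with rfl
  · simp only [E.val, NumIs.lkR, QQ.t, QQ.k, QQ.w] at hp
    push_cast at hp
    try simp only [zero_div, div_one] at hp hc
    first
      | with_reducible exact absurd (sub_pos.1 hp) (not_lt.2 hc)
      | with_reducible exact absurd hp (not_lt.2 (add_le_of_le_neg hc))
      | linarith

theorem f_e_one_0 {t k : ℝ} (b1 : -(660 / 10000) ≤ t) (b2 : t ≤ -(160 / 10000)) (b3 : -(330 / 10000) ≤ k) (b4 : k ≤ 800 / 10000) (b5 : t + k ≤ 37 / 1000) (b6 : -7 / 125 ≤ t + k) :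
    21 / 100 < Real.pi * (7 / 25 * k + t * (9 / 50) - t - k) + uu (23 / 50) (t + k) - uu (7 / 25) t - uu (9 / 50) k + 47 / 20 * t + 3927 / 1250 * k := by
  have h : chkT [sub (add (add (sub (sub (add (mul pi (sub (sub (add (mul (q 7 25) QQ.k) (mul QQ.t (q 9 50))) QQ.t) QQ.k)) (E.uu (q 23 50) (add QQ.t QQ.k))) (E.uu (q 7 25) QQ.t)) (E.uu (q 9 50) QQ.k)) (mul (q 47 20) QQ.t)) (mul (q 3927 1250) QQ.k)) (q 21 100), sub (add QQ.t QQ.k) (q 37 1000), sub (q (-7) 125) (add QQ.t QQ.k)] 30
    8
    [NumIs.V.of 10000 (-660) (-160), NumIs.V.of 10000 (-330) 800] = true := by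
    decide +kernel
  obtain ⟨f, hf, hp⟩ := chkT2 h (by norm_num) (x := t) (y := k)
    (le_trans (by norm_num) b1) (le_trans b2 (by norm_num)) (le_trans (by norm_num) b3) (le_trans b4 (by norm_num))
  by_contra hc
  have hc := not_lt.1 hc
  simp only [List.mem_cons, List.not_mem_nil, or_false] at hf
  rcases hf with rfl | rfl | rfl
  · simp only [E.val, NumIs.lkR, QQ.t, QQ.k, QQ.w] at hp
    push_cast at hp
    try simp only [zero_div, div_one] at hp hc
    first
      | with_reducible exact absurd (sub_pos.1 hp) (not_lt.2 hc)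
      | with_reducible exact absurd hp (not_lt.2 (add_le_of_le_neg hc))
      | with_reducible exact absurd (sub_pos.1 hp) (not_lt.2 b5)
      | with_reducible exact absurd (sub_pos.1 hp) (not_lt.2 b6)
      | linarith
  · simp only [E.val, NumIs.lkR, QQ.t, QQ.k, QQ.w] at hp
    push_cast at hp
    try simp only [zero_div, div_one] at hp hc
    first
      | with_reducible exact absurd (sub_pos.1 hp) (not_lt.2 hc)
      | with_reducible exact absurd hp (not_lt.2 (add_le_of_le_neg hc))
      | with_reducible exact absurd (sub_pos.1 hp) (not_lt.2 b5)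
      | with_reducible exact absurd (sub_pos.1 hp) (not_lt.2 b6)
      | linarith
  · simp only [E.val, NumIs.lkR, QQ.t, QQ.k, QQ.w] at hp
    push_cast at hp
    try simp only [zero_div, div_one] at hp hc
    first
      | with_reducible exact absurd (sub_pos.1 hp) (not_lt.2 hc)
      | with_reducible exact absurd hp (not_lt.2 (add_le_of_le_neg hc))
      | with_reducible exact absurd (sub_pos.1 hp) (not_lt.2 b5)
      | with_reducible exact absurd (sub_pos.1 hp) (not_lt.2 b6)
      | linarith

theorem f_e_one_1 {t k : ℝ} (b1 : -(660 / 10000) ≤ t) (b2 : t ≤ -(160 / 10000)) (b3 : -(330 / 10000) ≤ k) (b4 : k ≤ 800 / 10000) (b5 : t + k ≤ 37 / 1000) (b6 : -7 / 125 ≤ t + k) :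
    21 / 100 < Real.pi * (7 / 25 * k + t * (9 / 50) - t - k) + uu (23 / 50) (t + k) - uu (7 / 25) t - uu (9 / 50) k + 47 / 20 * t + 821 / 500 * k := by
  have h : chkT [sub (add (add (sub (sub (add (mul pi (sub (sub (add (mul (q 7 25) QQ.k) (mul QQ.t (q 9 50))) QQ.t) QQ.k)) (E.uu (q 23 50) (add QQ.t QQ.k))) (E.uu (q 7 25) QQ.t)) (E.uu (q 9 50) QQ.k)) (mul (q 47 20) QQ.t)) (mul (q 821 500) QQ.k)) (q 21 100), sub (add QQ.t QQ.k) (q 37 1000), sub (q (-7) 125) (add QQ.t QQ.k)] 30
    8
    [NumIs.V.of 10000 (-660) (-160), NumIs.V.of 10000 (-330) 800] = true := by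
    decide +kernel
  obtain ⟨f, hf, hp⟩ := chkT2 h (by norm_num) (x := t) (y := k)
    (le_trans (by norm_num) b1) (le_trans b2 (by norm_num)) (le_trans (by norm_num) b3) (le_trans b4 (by norm_num))
  by_contra hc
  have hc := not_lt.1 hc
  simp only [List.mem_cons, List.not_mem_nil, or_false] at hf
  rcases hf with rfl | rfl | rfl
  · simp only [E.val, NumIs.lkR, QQ.t, QQ.k, QQ.w] at hp
    push_cast at hp
    try simp only [zero_div, div_one] at hp hc
    first
      | with_reducible exact absurd (sub_pos.1 hp) (not_lt.2 hc)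
      | with_reducible exact absurd hp (not_lt.2 (add_le_of_le_neg hc))
      | with_reducible exact absurd (sub_pos.1 hp) (not_lt.2 b5)
      | with_reducible exact absurd (sub_pos.1 hp) (not_lt.2 b6)
      | linarith
  · simp only [E.val, NumIs.lkR, QQ.t, QQ.k, QQ.w] at hp
    push_cast at hp
    try simp only [zero_div, div_one] at hp hc
    first
      | with_reducible exact absurd (sub_pos.1 hp) (not_lt.2 hc)
      | with_reducible exact absurd hp (not_lt.2 (add_le_of_le_neg hc))
      | with_reducible exact absurd (sub_pos.1 hp) (not_lt.2 b5)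
      | with_reducible exact absurd (sub_pos.1 hp) (not_lt.2 b6)
      | linarith
  · simp only [E.val, NumIs.lkR, QQ.t, QQ.k, QQ.w] at hp
    push_cast at hp
    try simp only [zero_div, div_one] at hp hc
    first
      | with_reducible exact absurd (sub_pos.1 hp) (not_lt.2 hc)
      | with_reducible exact absurd hp (not_lt.2 (add_le_of_le_neg hc))
      | with_reducible exact absurd (sub_pos.1 hp) (not_lt.2 b5)
      | with_reducible exact absurd (sub_pos.1 hp) (not_lt.2 b6)
      | linarith

theorem f_e_one_2 {t k : ℝ} (b1 : -(660 / 10000) ≤ t) (b2 : t ≤ -(160 / 10000)) (b3 : -(330 / 10000) ≤ k) (b4 : k ≤ 800 / 10000) (b5 : t + k ≤ 37 / 1000) (b6 : -7 / 125 ≤ t + k) :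
    11 / 50 < Real.pi * (7 / 25 * k + t * (9 / 50) - t - k) + uu (23 / 50) (t + k) - uu (7 / 25) t - uu (9 / 50) k + 47 / 20 * t + 1849 / 1000 * k := by
  have h : chkT [sub (add (add (sub (sub (add (mul pi (sub (sub (add (mul (q 7 25) QQ.k) (mul QQ.t (q 9 50))) QQ.t) QQ.k)) (E.uu (q 23 50) (add QQ.t QQ.k))) (E.uu (q 7 25) QQ.t)) (E.uu (q 9 50) QQ.k)) (mul (q 47 20) QQ.t)) (mul (q 1849 1000) QQ.k)) (q 11 50), sub (add QQ.t QQ.k) (q 37 1000), sub (q (-7) 125) (add QQ.t QQ.k)] 30
    8
    [NumIs.V.of 10000 (-660) (-160), NumIs.V.of 10000 (-330) 800] = true := by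
    decide +kernel
  obtain ⟨f, hf, hp⟩ := chkT2 h (by norm_num) (x := t) (y := k)
    (le_trans (by norm_num) b1) (le_trans b2 (by norm_num)) (le_trans (by norm_num) b3) (le_trans b4 (by norm_num))
  by_contra hc
  have hc := not_lt.1 hc
  simp only [List.mem_cons, List.not_mem_nil, or_false] at hf
  rcases hf with rfl | rfl | rfl
  · simp only [E.val, NumIs.lkR, QQ.t, QQ.k, QQ.w] at hp
    push_cast at hp
    try simp only [zero_div, div_one] at hp hc
    first
      | with_reducible exact absurd (sub_pos.1 hp) (not_lt.2 hc)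
      | with_reducible exact absurd hp (not_lt.2 (add_le_of_le_neg hc))
      | with_reducible exact absurd (sub_pos.1 hp) (not_lt.2 b5)
      | with_reducible exact absurd (sub_pos.1 hp) (not_lt.2 b6)
      | linarith
  · simp only [E.val, NumIs.lkR, QQ.t, QQ.k, QQ.w] at hp
    push_cast at hp
    try simp only [zero_div, div_one] at hp hc
    first
      | with_reducible exact absurd (sub_pos.1 hp) (not_lt.2 hc)
      | with_reducible exact absurd hp (not_lt.2 (add_le_of_le_neg hc))
      | with_reducible exact absurd (sub_pos.1 hp) (not_lt.2 b5)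
      | with_reducible exact absurd (sub_pos.1 hp) (not_lt.2 b6)
      | linarith
  · simp only [E.val, NumIs.lkR, QQ.t, QQ.k, QQ.w] at hp
    push_cast at hp
    try simp only [zero_div, div_one] at hp hc
    first
      | with_reducible exact absurd (sub_pos.1 hp) (not_lt.2 hc)
      | with_reducible exact absurd hp (not_lt.2 (add_le_of_le_neg hc))
      | with_reducible exact absurd (sub_pos.1 hp) (not_lt.2 b5)
      | with_reducible exact absurd (sub_pos.1 hp) (not_lt.2 b6)
      | linarith

theorem f_e_one_3 {t k : ℝ} (b1 : -(660 / 10000) ≤ t) (b2 : t ≤ -(160 / 10000)) (b3 : -(330 / 10000) ≤ k) (b4 : k ≤ 800 / 10000) (b5 : t + k ≤ 37 / 1000) (b6 : -7 / 125 ≤ t + k) :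
    23 / 100 < Real.pi * (7 / 25 * k + t * (9 / 50) - t - k) + uu (23 / 50) (t + k) - uu (7 / 25) t - uu (9 / 50) k + 47 / 20 * t + 1309 / 500 * k := by
  have h : chkT [sub (add (add (sub (sub (add (mul pi (sub (sub (add (mul (q 7 25) QQ.k) (mul QQ.t (q 9 50))) QQ.t) QQ.k)) (E.uu (q 23 50) (add QQ.t QQ.k))) (E.uu (q 7 25) QQ.t)) (E.uu (q 9 50) QQ.k)) (mul (q 47 20) QQ.t)) (mul (q 1309 500) QQ.k)) (q 23 100), sub (add QQ.t QQ.k) (q 37 1000), sub (q (-7) 125) (add QQ.t QQ.k)] 30
    8
    [NumIs.V.of 10000 (-660) (-160), NumIs.V.of 10000 (-330) 800] = true := by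
    decide +kernel
  obtain ⟨f, hf, hp⟩ := chkT2 h (by norm_num) (x := t) (y := k)
    (le_trans (by norm_num) b1) (le_trans b2 (by norm_num)) (le_trans (by norm_num) b3) (le_trans b4 (by norm_num))
  by_contra hc
  have hc := not_lt.1 hc
  simp only [List.mem_cons, List.not_mem_nil, or_false] at hf
  rcases hf with rfl | rfl | rfl
  · simp only [E.val, NumIs.lkR, QQ.t, QQ.k, QQ.w] at hp
    push_cast at hp
    try simp only [zero_div, div_one] at hp hc
    first
      | with_reducible exact absurd (sub_pos.1 hp) (not_lt.2 hc)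
      | with_reducible exact absurd hp (not_lt.2 (add_le_of_le_neg hc))
      | with_reducible exact absurd (sub_pos.1 hp) (not_lt.2 b5)
      | with_reducible exact absurd (sub_pos.1 hp) (not_lt.2 b6)
      | linarith
  · simp only [E.val, NumIs.lkR, QQ.t, QQ.k, QQ.w] at hp
    push_cast at hp
    try simp only [zero_div, div_one] at hp hc
    first
      | with_reducible exact absurd (sub_pos.1 hp) (not_lt.2 hc)
      | with_reducible exact absurd hp (not_lt.2 (add_le_of_le_neg hc))
      | with_reducible exact absurd (sub_pos.1 hp) (not_lt.2 b5)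
      | with_reducible exact absurd (sub_pos.1 hp) (not_lt.2 b6)
      | linarith
  · simp only [E.val, NumIs.lkR, QQ.t, QQ.k, QQ.w] at hp
    push_cast at hp
    try simp only [zero_div, div_one] at hp hc
    first
      | with_reducible exact absurd (sub_pos.1 hp) (not_lt.2 hc)
      | with_reducible exact absurd hp (not_lt.2 (add_le_of_le_neg hc))
      | with_reducible exact absurd (sub_pos.1 hp) (not_lt.2 b5)
      | with_reducible exact absurd (sub_pos.1 hp) (not_lt.2 b6)
      | linarith

theorem f_e_two_0 {t k : ℝ} (b1 : -(490 / 10000) ≤ t) (b2 : t ≤ -(200 / 10000)) (b3 : 480 / 10000 ≤ k) (b4 : k ≤ 985 / 10000) (b5 : t + k ≤ 8 / 125) (b6 : 21 / 1000 ≤ t + k) :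
    21 / 100 < Real.pi * (7 / 25 * k + t * (1 / 4) - t - k) + uu (53 / 100) (t + k) - uu (7 / 25) t - uu (1 / 4) k + 47 / 20 * t + 1571 / 1000 * k := by
  have h : chkT [sub (add (add (sub (sub (add (mul pi (sub (sub (add (mul (q 7 25) QQ.k) (mul QQ.t (q 1 4))) QQ.t) QQ.k)) (E.uu (q 53 100) (add QQ.t QQ.k))) (E.uu (q 7 25) QQ.t)) (E.uu (q 1 4) QQ.k)) (mul (q 47 20) QQ.t)) (mul (q 1571 1000) QQ.k)) (q 21 100), sub (add QQ.t QQ.k) (q 8 125), sub (q 21 1000) (add QQ.t QQ.k)] 30
    8
    [NumIs.V.of 10000 (-490) (-200), NumIs.V.of 10000 480 985] = true := by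
    decide +kernel
  obtain ⟨f, hf, hp⟩ := chkT2 h (by norm_num) (x := t) (y := k)
    (le_trans (by norm_num) b1) (le_trans b2 (by norm_num)) (le_trans (by norm_num) b3) (le_trans b4 (by norm_num))
  by_contra hc
  have hc := not_lt.1 hc
  simp only [List.mem_cons, List.not_mem_nil, or_false] at hf
  rcases hf with rfl | rfl | rfl
  · simp only [E.val, NumIs.lkR, QQ.t, QQ.k, QQ.w] at hp
    push_cast at hp
    try simp only [zero_div, div_one] at hp hc
    first
      | with_reducible exact absurd (sub_pos.1 hp) (not_lt.2 hc)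
      | with_reducible exact absurd hp (not_lt.2 (add_le_of_le_neg hc))
      | with_reducible exact absurd (sub_pos.1 hp) (not_lt.2 b5)
      | with_reducible exact absurd (sub_pos.1 hp) (not_lt.2 b6)
      | linarith
  · simp only [E.val, NumIs.lkR, QQ.t, QQ.k, QQ.w] at hp
    push_cast at hp
    try simp only [zero_div, div_one] at hp hc
    first
      | with_reducible exact absurd (sub_pos.1 hp) (not_lt.2 hc)
      | with_reducible exact absurd hp (not_lt.2 (add_le_of_le_neg hc))
      | with_reducible exact absurd (sub_pos.1 hp) (not_lt.2 b5)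
      | with_reducible exact absurd (sub_pos.1 hp) (not_lt.2 b6)
      | linarith
  · simp only [E.val, NumIs.lkR, QQ.t, QQ.k, QQ.w] at hp
    push_cast at hp
    try simp only [zero_div, div_one] at hp hc
    first
      | with_reducible exact absurd (sub_pos.1 hp) (not_lt.2 hc)
      | with_reducible exact absurd hp (not_lt.2 (add_le_of_le_neg hc))
      | with_reducible exact absurd (sub_pos.1 hp) (not_lt.2 b5)
      | with_reducible exact absurd (sub_pos.1 hp) (not_lt.2 b6)
      | linarith

theorem f_e_twoE_0 {t k : ℝ} (b1 : -(60 / 10000) ≤ t) (b2 : t ≤ 10 / 10000) (b3 : -(60 / 10000) ≤ k) (b4 : k ≤ 10 / 10000) (b5 : t + k ≤ 3 / 500) (b6 : -3 / 500 ≤ t + k) :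
    1 / 4 < Real.pi * (7 / 25 * k + t * (11 / 50) - t - k) + uu (1 / 2) (t + k) - uu (7 / 25) t - uu (11 / 50) k + 47 / 20 * t + 1131 / 500 * k := by
  have h : chkT [sub (add (add (sub (sub (add (mul pi (sub (sub (add (mul (q 7 25) QQ.k) (mul QQ.t (q 11 50))) QQ.t) QQ.k)) (E.uu (q 1 2) (add QQ.t QQ.k))) (E.uu (q 7 25) QQ.t)) (E.uu (q 11 50) QQ.k)) (mul (q 47 20) QQ.t)) (mul (q 1131 500) QQ.k)) (q 1 4), sub (add QQ.t QQ.k) (q 3 500), sub (q (-3) 500) (add QQ.t QQ.k)] 30
    8
    [NumIs.V.of 10000 (-60) 10, NumIs.V.of 10000 (-60) 10] = true := by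
    decide +kernel
  obtain ⟨f, hf, hp⟩ := chkT2 h (by norm_num) (x := t) (y := k)
    (le_trans (by norm_num) b1) (le_trans b2 (by norm_num)) (le_trans (by norm_num) b3) (le_trans b4 (by norm_num))
  by_contra hc
  have hc := not_lt.1 hc
  simp only [List.mem_cons, List.not_mem_nil, or_false] at hf
  rcases hf with rfl | rfl | rfl
  · simp only [E.val, NumIs.lkR, QQ.t, QQ.k, QQ.w] at hp
    push_cast at hp
    try simp only [zero_div, div_one] at hp hc
    first
      | with_reducible exact absurd (sub_pos.1 hp) (not_lt.2 hc)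
      | with_reducible exact absurd hp (not_lt.2 (add_le_of_le_neg hc))
      | with_reducible exact absurd (sub_pos.1 hp) (not_lt.2 b5)
      | with_reducible exact absurd (sub_pos.1 hp) (not_lt.2 b6)
      | linarith
  · simp only [E.val, NumIs.lkR, QQ.t, QQ.k, QQ.w] at hp
    push_cast at hp
    try simp only [zero_div, div_one] at hp hc
    first
      | with_reducible exact absurd (sub_pos.1 hp) (not_lt.2 hc)
      | with_reducible exact absurd hp (not_lt.2 (add_le_of_le_neg hc))
      | with_reducible exact absurd (sub_pos.1 hp) (not_lt.2 b5)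
      | with_reducible exact absurd (sub_pos.1 hp) (not_lt.2 b6)
      | linarith
  · simp only [E.val, NumIs.lkR, QQ.t, QQ.k, QQ.w] at hp
    push_cast at hp
    try simp only [zero_div, div_one] at hp hc
    first
      | with_reducible exact absurd (sub_pos.1 hp) (not_lt.2 hc)
      | with_reducible exact absurd hp (not_lt.2 (add_le_of_le_neg hc))
      | with_reducible exact absurd (sub_pos.1 hp) (not_lt.2 b5)
      | with_reducible exact absurd (sub_pos.1 hp) (not_lt.2 b6)
      | linarith

theorem f_e_threeA_0 {t k : ℝ} (b1 : -(450 / 10000) ≤ t) (b2 : t ≤ -(250 / 10000)) (b3 : 870 / 10000 ≤ k) (b4 : k ≤ 1145 / 10000) (b5 : t + k ≤ 77 / 1000) (b6 : 51 / 1000 ≤ t + k) :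
    51 / 500 < Real.pi * (7 / 25 * k + t * (3 / 20) - t - k) + uu (43 / 100) (t + k) - uu (7 / 25) t - uu (3 / 20) k + 47 / 20 * t + 851 / 1000 * k := by
  have h : chkT [sub (add (add (sub (sub (add (mul pi (sub (sub (add (mul (q 7 25) QQ.k) (mul QQ.t (q 3 20))) QQ.t) QQ.k)) (E.uu (q 43 100) (add QQ.t QQ.k))) (E.uu (q 7 25) QQ.t)) (E.uu (q 3 20) QQ.k)) (mul (q 47 20) QQ.t)) (mul (q 851 1000) QQ.k)) (q 51 500), sub (add QQ.t QQ.k) (q 77 1000), sub (q 51 1000) (add QQ.t QQ.k)] 30
    8
    [NumIs.V.of 10000 (-450) (-250), NumIs.V.of 10000 870 1145] = true := by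
    decide +kernel
  obtain ⟨f, hf, hp⟩ := chkT2 h (by norm_num) (x := t) (y := k)
    (le_trans (by norm_num) b1) (le_trans b2 (by norm_num)) (le_trans (by norm_num) b3) (le_trans b4 (by norm_num))
  by_contra hc
  have hc := not_lt.1 hc
  simp only [List.mem_cons, List.not_mem_nil, or_false] at hf
  rcases hf with rfl | rfl | rfl
  · simp only [E.val, NumIs.lkR, QQ.t, QQ.k, QQ.w] at hp
    push_cast at hp
    try simp only [zero_div, div_one] at hp hc
    first
      | with_reducible exact absurd (sub_pos.1 hp) (not_lt.2 hc)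
      | with_reducible exact absurd hp (not_lt.2 (add_le_of_le_neg hc))
      | with_reducible exact absurd (sub_pos.1 hp) (not_lt.2 b5)
      | with_reducible exact absurd (sub_pos.1 hp) (not_lt.2 b6)
      | linarith
  · simp only [E.val, NumIs.lkR, QQ.t, QQ.k, QQ.w] at hp
    push_cast at hp
    try simp only [zero_div, div_one] at hp hc
    first
      | with_reducible exact absurd (sub_pos.1 hp) (not_lt.2 hc)
      | with_reducible exact absurd hp (not_lt.2 (add_le_of_le_neg hc))
      | with_reducible exact absurd (sub_pos.1 hp) (not_lt.2 b5)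
      | with_reducible exact absurd (sub_pos.1 hp) (not_lt.2 b6)
      | linarith
  · simp only [E.val, NumIs.lkR, QQ.t, QQ.k, QQ.w] at hp
    push_cast at hp
    try simp only [zero_div, div_one] at hp hc
    first
      | with_reducible exact absurd (sub_pos.1 hp) (not_lt.2 hc)
      | with_reducible exact absurd hp (not_lt.2 (add_le_of_le_neg hc))
      | with_reducible exact absurd (sub_pos.1 hp) (not_lt.2 b5)
      | with_reducible exact absurd (sub_pos.1 hp) (not_lt.2 b6)
      | linarith

theorem f_e_threeA_1 {t k : ℝ} (b1 : -(450 / 10000) ≤ t) (b2 : t ≤ -(250 / 10000)) (b3 : 870 / 10000 ≤ k) (b4 : k ≤ 1145 / 10000) (b5 : t + k ≤ 77 / 1000) (b6 : 51 / 1000 ≤ t + k) :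
    91 / 1000 < Real.pi * (7 / 25 * k + t * (3 / 20) - t - k) + uu (43 / 100) (t + k) - uu (7 / 25) t - uu (3 / 20) k + 47 / 20 * t + 113 / 200 * k := by
  have h : chkT [sub (add (add (sub (sub (add (mul pi (sub (sub (add (mul (q 7 25) QQ.k) (mul QQ.t (q 3 20))) QQ.t) QQ.k)) (E.uu (q 43 100) (add QQ.t QQ.k))) (E.uu (q 7 25) QQ.t)) (E.uu (q 3 20) QQ.k)) (mul (q 47 20) QQ.t)) (mul (q 113 200) QQ.k)) (q 91 1000), sub (add QQ.t QQ.k) (q 77 1000), sub (q 51 1000) (add QQ.t QQ.k)] 30
    8
    [NumIs.V.of 10000 (-450) (-250), NumIs.V.of 10000 870 1145] = true := by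
    decide +kernel
  obtain ⟨f, hf, hp⟩ := chkT2 h (by norm_num) (x := t) (y := k)
    (le_trans (by norm_num) b1) (le_trans b2 (by norm_num)) (le_trans (by norm_num) b3) (le_trans b4 (by norm_num))
  by_contra hc
  have hc := not_lt.1 hc
  simp only [List.mem_cons, List.not_mem_nil, or_false] at hf
  rcases hf with rfl | rfl | rfl
  · simp only [E.val, NumIs.lkR, QQ.t, QQ.k, QQ.w] at hp
    push_cast at hp
    try simp only [zero_div, div_one] at hp hc
    first
      | with_reducible exact absurd (sub_pos.1 hp) (not_lt.2 hc)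
      | with_reducible exact absurd hp (not_lt.2 (add_le_of_le_neg hc))
      | with_reducible exact absurd (sub_pos.1 hp) (not_lt.2 b5)
      | with_reducible exact absurd (sub_pos.1 hp) (not_lt.2 b6)
      | linarith
  · simp only [E.val, NumIs.lkR, QQ.t, QQ.k, QQ.w] at hp
    push_cast at hp
    try simp only [zero_div, div_one] at hp hc
    first
      | with_reducible exact absurd (sub_pos.1 hp) (not_lt.2 hc)
      | with_reducible exact absurd hp (not_lt.2 (add_le_of_le_neg hc))
      | with_reducible exact absurd (sub_pos.1 hp) (not_lt.2 b5)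
      | with_reducible exact absurd (sub_pos.1 hp) (not_lt.2 b6)
      | linarith
  · simp only [E.val, NumIs.lkR, QQ.t, QQ.k, QQ.w] at hp
    push_cast at hp
    try simp only [zero_div, div_one] at hp hc
    first
      | with_reducible exact absurd (sub_pos.1 hp) (not_lt.2 hc)
      | with_reducible exact absurd hp (not_lt.2 (add_le_of_le_neg hc))
      | with_reducible exact absurd (sub_pos.1 hp) (not_lt.2 b5)
      | with_reducible exact absurd (sub_pos.1 hp) (not_lt.2 b6)
      | linarith

theorem f_e_threeK_0 {t k : ℝ} (b1 : -(450 / 10000) ≤ t) (b2 : t ≤ -(250 / 10000)) (b3 : 870 / 10000 ≤ k) (b4 : k ≤ 1145 / 10000) (b5 : t + k ≤ 77 / 1000) (b6 : 51 / 1000 ≤ t + k) :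
    17 / 100 < Real.pi * (7 / 25 * k + t * (9 / 50) - t - k) + uu (23 / 50) (t + k) - uu (7 / 25) t - uu (9 / 50) k + 47 / 20 * t + 353 / 250 * k := by
  have h : chkT [sub (add (add (sub (sub (add (mul pi (sub (sub (add (mul (q 7 25) QQ.k) (mul QQ.t (q 9 50))) QQ.t) QQ.k)) (E.uu (q 23 50) (add QQ.t QQ.k))) (E.uu (q 7 25) QQ.t)) (E.uu (q 9 50) QQ.k)) (mul (q 47 20) QQ.t)) (mul (q 353 250) QQ.k)) (q 17 100), sub (add QQ.t QQ.k) (q 77 1000), sub (q 51 1000) (add QQ.t QQ.k)] 30
    8
    [NumIs.V.of 10000 (-450) (-250), NumIs.V.of 10000 870 1145] = true := by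
    decide +kernel
  obtain ⟨f, hf, hp⟩ := chkT2 h (by norm_num) (x := t) (y := k)
    (le_trans (by norm_num) b1) (le_trans b2 (by norm_num)) (le_trans (by norm_num) b3) (le_trans b4 (by norm_num))
  by_contra hc
  have hc := not_lt.1 hc
  simp only [List.mem_cons, List.not_mem_nil, or_false] at hf
  rcases hf with rfl | rfl | rfl
  · simp only [E.val, NumIs.lkR, QQ.t, QQ.k, QQ.w] at hp
    push_cast at hp
    try simp only [zero_div, div_one] at hp hc
    first
      | with_reducible exact absurd (sub_pos.1 hp) (not_lt.2 hc)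
      | with_reducible exact absurd hp (not_lt.2 (add_le_of_le_neg hc))
      | with_reducible exact absurd (sub_pos.1 hp) (not_lt.2 b5)
      | with_reducible exact absurd (sub_pos.1 hp) (not_lt.2 b6)
      | linarith
  · simp only [E.val, NumIs.lkR, QQ.t, QQ.k, QQ.w] at hp
    push_cast at hp
    try simp only [zero_div, div_one] at hp hc
    first
      | with_reducible exact absurd (sub_pos.1 hp) (not_lt.2 hc)
      | with_reducible exact absurd hp (not_lt.2 (add_le_of_le_neg hc))
      | with_reducible exact absurd (sub_pos.1 hp) (not_lt.2 b5)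
      | with_reducible exact absurd (sub_pos.1 hp) (not_lt.2 b6)
      | linarith
  · simp only [E.val, NumIs.lkR, QQ.t, QQ.k, QQ.w] at hp
    push_cast at hp
    try simp only [zero_div, div_one] at hp hc
    first
      | with_reducible exact absurd (sub_pos.1 hp) (not_lt.2 hc)
      | with_reducible exact absurd hp (not_lt.2 (add_le_of_le_neg hc))
      | with_reducible exact absurd (sub_pos.1 hp) (not_lt.2 b5)
      | with_reducible exact absurd (sub_pos.1 hp) (not_lt.2 b6)
      | linarith

theorem f_e_threeE_0 {t k : ℝ} (b1 : -(240 / 10000) ≤ t) (b2 : t ≤ -(110 / 10000)) (b3 : 690 / 10000 ≤ k) (b4 : k ≤ 780 / 10000) (b5 : t + k ≤ 8 / 125) (b6 : 51 / 1000 ≤ t + k) :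
    19 / 100 < Real.pi * (7 / 25 * k + t * (11 / 50) - t - k) + uu (1 / 2) (t + k) - uu (7 / 25) t - uu (11 / 50) k + 47 / 20 * t + 243 / 200 * k := by
  have h : chkT [sub (add (add (sub (sub (add (mul pi (sub (sub (add (mul (q 7 25) QQ.k) (mul QQ.t (q 11 50))) QQ.t) QQ.k)) (E.uu (q 1 2) (add QQ.t QQ.k))) (E.uu (q 7 25) QQ.t)) (E.uu (q 11 50) QQ.k)) (mul (q 47 20) QQ.t)) (mul (q 243 200) QQ.k)) (q 19 100), sub (add QQ.t QQ.k) (q 8 125), sub (q 51 1000) (add QQ.t QQ.k)] 30
    8
    [NumIs.V.of 10000 (-240) (-110), NumIs.V.of 10000 690 780] = true := by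
    decide +kernel
  obtain ⟨f, hf, hp⟩ := chkT2 h (by norm_num) (x := t) (y := k)
    (le_trans (by norm_num) b1) (le_trans b2 (by norm_num)) (le_trans (by norm_num) b3) (le_trans b4 (by norm_num))
  by_contra hc
  have hc := not_lt.1 hc
  simp only [List.mem_cons, List.not_mem_nil, or_false] at hf
  rcases hf with rfl | rfl | rfl
  · simp only [E.val, NumIs.lkR, QQ.t, QQ.k, QQ.w] at hp
    push_cast at hp
    try simp only [zero_div, div_one] at hp hc
    first
      | with_reducible exact absurd (sub_pos.1 hp) (not_lt.2 hc)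
      | with_reducible exact absurd hp (not_lt.2 (add_le_of_le_neg hc))
      | with_reducible exact absurd (sub_pos.1 hp) (not_lt.2 b5)
      | with_reducible exact absurd (sub_pos.1 hp) (not_lt.2 b6)
      | linarith
  · simp only [E.val, NumIs.lkR, QQ.t, QQ.k, QQ.w] at hp
    push_cast at hp
    try simp only [zero_div, div_one] at hp hc
    first
      | with_reducible exact absurd (sub_pos.1 hp) (not_lt.2 hc)
      | with_reducible exact absurd hp (not_lt.2 (add_le_of_le_neg hc))
      | with_reducible exact absurd (sub_pos.1 hp) (not_lt.2 b5)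
      | with_reducible exact absurd (sub_pos.1 hp) (not_lt.2 b6)
      | linarith
  · simp only [E.val, NumIs.lkR, QQ.t, QQ.k, QQ.w] at hp
    push_cast at hp
    try simp only [zero_div, div_one] at hp hc
    first
      | with_reducible exact absurd (sub_pos.1 hp) (not_lt.2 hc)
      | with_reducible exact absurd hp (not_lt.2 (add_le_of_le_neg hc))
      | with_reducible exact absurd (sub_pos.1 hp) (not_lt.2 b5)
      | with_reducible exact absurd (sub_pos.1 hp) (not_lt.2 b6)
      | linarith

theorem f_e_ring_0 {t k : ℝ} (b1 : -(610 / 10000) ≤ t) (b2 : t ≤ -(240 / 10000)) (b3 : 1000 / 10000 ≤ k) (b4 : k ≤ 1580 / 10000) (b5 : t + k ≤ 53 / 500) (b6 : 8 / 125 ≤ t + k) :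
    1 / 5 < Real.pi * (7 / 25 * k + t * (9 / 50) - t - k) + uu (23 / 50) (t + k) - uu (7 / 25) t - uu (9 / 50) k + 47 / 20 * t + 839 / 500 * k := by
  have h : chkT [sub (add (add (sub (sub (add (mul pi (sub (sub (add (mul (q 7 25) QQ.k) (mul QQ.t (q 9 50))) QQ.t) QQ.k)) (E.uu (q 23 50) (add QQ.t QQ.k))) (E.uu (q 7 25) QQ.t)) (E.uu (q 9 50) QQ.k)) (mul (q 47 20) QQ.t)) (mul (q 839 500) QQ.k)) (q 1 5), sub (add QQ.t QQ.k) (q 53 500), sub (q 8 125) (add QQ.t QQ.k)] 30
    8
    [NumIs.V.of 10000 (-610) (-240), NumIs.V.of 10000 1000 1580] = true := by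
    decide +kernel
  obtain ⟨f, hf, hp⟩ := chkT2 h (by norm_num) (x := t) (y := k)
    (le_trans (by norm_num) b1) (le_trans b2 (by norm_num)) (le_trans (by norm_num) b3) (le_trans b4 (by norm_num))
  by_contra hc
  have hc := not_lt.1 hc
  simp only [List.mem_cons, List.not_mem_nil, or_false] at hf
  rcases hf with rfl | rfl | rfl
  · simp only [E.val, NumIs.lkR, QQ.t, QQ.k, QQ.w] at hp
    push_cast at hp
    try simp only [zero_div, div_one] at hp hc
    first
      | with_reducible exact absurd (sub_pos.1 hp) (not_lt.2 hc)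
      | with_reducible exact absurd hp (not_lt.2 (add_le_of_le_neg hc))
      | with_reducible exact absurd (sub_pos.1 hp) (not_lt.2 b5)
      | with_reducible exact absurd (sub_pos.1 hp) (not_lt.2 b6)
      | linarith
  · simp only [E.val, NumIs.lkR, QQ.t, QQ.k, QQ.w] at hp
    push_cast at hp
    try simp only [zero_div, div_one] at hp hc
    first
      | with_reducible exact absurd (sub_pos.1 hp) (not_lt.2 hc)
      | with_reducible exact absurd hp (not_lt.2 (add_le_of_le_neg hc))
      | with_reducible exact absurd (sub_pos.1 hp) (not_lt.2 b5)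
      | with_reducible exact absurd (sub_pos.1 hp) (not_lt.2 b6)
      | linarith
  · simp only [E.val, NumIs.lkR, QQ.t, QQ.k, QQ.w] at hp
    push_cast at hp
    try simp only [zero_div, div_one] at hp hc
    first
      | with_reducible exact absurd (sub_pos.1 hp) (not_lt.2 hc)
      | with_reducible exact absurd hp (not_lt.2 (add_le_of_le_neg hc))
      | with_reducible exact absurd (sub_pos.1 hp) (not_lt.2 b5)
      | with_reducible exact absurd (sub_pos.1 hp) (not_lt.2 b6)
      | linarith

theorem f_e_ring_1 {t k : ℝ} (b1 : -(610 / 10000) ≤ t) (b2 : t ≤ -(240 / 10000)) (b3 : 1000 / 10000 ≤ k) (b4 : k ≤ 1580 / 10000) (b5 : t + k ≤ 53 / 500) (b6 : 8 / 125 ≤ t + k) :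
    41 / 250 < Real.pi * (7 / 25 * k + t * (9 / 50) - t - k) + uu (23 / 50) (t + k) - uu (7 / 25) t - uu (9 / 50) k + 47 / 20 * t + 1397 / 1000 * k := by
  have h : chkT [sub (add (add (sub (sub (add (mul pi (sub (sub (add (mul (q 7 25) QQ.k) (mul QQ.t (q 9 50))) QQ.t) QQ.k)) (E.uu (q 23 50) (add QQ.t QQ.k))) (E.uu (q 7 25) QQ.t)) (E.uu (q 9 50) QQ.k)) (mul (q 47 20) QQ.t)) (mul (q 1397 1000) QQ.k)) (q 41 250), sub (add QQ.t QQ.k) (q 53 500), sub (q 8 125) (add QQ.t QQ.k)] 30
    8
    [NumIs.V.of 10000 (-610) (-240), NumIs.V.of 10000 1000 1580] = true := by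
    decide +kernel
  obtain ⟨f, hf, hp⟩ := chkT2 h (by norm_num) (x := t) (y := k)
    (le_trans (by norm_num) b1) (le_trans b2 (by norm_num)) (le_trans (by norm_num) b3) (le_trans b4 (by norm_num))
  by_contra hc
  have hc := not_lt.1 hc
  simp only [List.mem_cons, List.not_mem_nil, or_false] at hf
  rcases hf with rfl | rfl | rfl
  · simp only [E.val, NumIs.lkR, QQ.t, QQ.k, QQ.w] at hp
    push_cast at hp
    try simp only [zero_div, div_one] at hp hc
    first
      | with_reducible exact absurd (sub_pos.1 hp) (not_lt.2 hc)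
      | with_reducible exact absurd hp (not_lt.2 (add_le_of_le_neg hc))
      | with_reducible exact absurd (sub_pos.1 hp) (not_lt.2 b5)
      | with_reducible exact absurd (sub_pos.1 hp) (not_lt.2 b6)
      | linarith
  · simp only [E.val, NumIs.lkR, QQ.t, QQ.k, QQ.w] at hp
    push_cast at hp
    try simp only [zero_div, div_one] at hp hc
    first
      | with_reducible exact absurd (sub_pos.1 hp) (not_lt.2 hc)
      | with_reducible exact absurd hp (not_lt.2 (add_le_of_le_neg hc))
      | with_reducible exact absurd (sub_pos.1 hp) (not_lt.2 b5)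
      | with_reducible exact absurd (sub_pos.1 hp) (not_lt.2 b6)
      | linarith
  · simp only [E.val, NumIs.lkR, QQ.t, QQ.k, QQ.w] at hp
    push_cast at hp
    try simp only [zero_div, div_one] at hp hc
    first
      | with_reducible exact absurd (sub_pos.1 hp) (not_lt.2 hc)
      | with_reducible exact absurd hp (not_lt.2 (add_le_of_le_neg hc))
      | with_reducible exact absurd (sub_pos.1 hp) (not_lt.2 b5)
      | with_reducible exact absurd (sub_pos.1 hp) (not_lt.2 b6)
      | linarith

theorem f_e_touched_0 {t k : ℝ} (b1 : -(660 / 10000) ≤ t) (b2 : t ≤ 10 / 10000) (b3 : -(330 / 10000) ≤ k) (b4 : k ≤ 1580 / 10000) :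
    6 / 25 < Real.pi * (7 / 25 * k + t * (1 / 5) - t - k) + uu (12 / 25) (t + k) - uu (7 / 25) t - uu (1 / 5) k + 47 / 20 * t + 59 / 25 * k := by
  have h : chkT [sub (add (add (sub (sub (add (mul pi (sub (sub (add (mul (q 7 25) QQ.k) (mul QQ.t (q 1 5))) QQ.t) QQ.k)) (E.uu (q 12 25) (add QQ.t QQ.k))) (E.uu (q 7 25) QQ.t)) (E.uu (q 1 5) QQ.k)) (mul (q 47 20) QQ.t)) (mul (q 59 25) QQ.k)) (q 6 25)] 30
    2177
    [NumIs.V.of 10000 (-660) 10, NumIs.V.of 10000 (-330) 1580] = true := by
    decide +kernel
  obtain ⟨f, hf, hp⟩ := chkT2 h (by norm_num) (x := t) (y := k)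
    (le_trans (by norm_num) b1) (le_trans b2 (by norm_num)) (le_trans (by norm_num) b3) (le_trans b4 (by norm_num))
  by_contra hc
  have hc := not_lt.1 hc
  simp only [List.mem_cons, List.not_mem_nil, or_false] at hf
  rcases hf with rfl
  · simp only [E.val, NumIs.lkR, QQ.t, QQ.k, QQ.w] at hp
    push_cast at hp
    try simp only [zero_div, div_one] at hp hc
    first
      | with_reducible exact absurd (sub_pos.1 hp) (not_lt.2 hc)
      | with_reducible exact absurd hp (not_lt.2 (add_le_of_le_neg hc))
      | linarith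

theorem f_h_one_0 {t k : ℝ} (b1 : 100 / 10000 ≤ t) (b2 : t ≤ 580 / 10000) (b3 : -(610 / 10000) ≤ k) (b4 : k ≤ 650 / 10000) (b5 : t + k ≤ 101 / 1000) (b6 : -11 / 1000 ≤ t + k) :
    153 / 1000 < Real.pi * (7 / 25 * k + t * (9 / 50) - t - k) + uu (23 / 50) (t + k) - uu (7 / 25) t - uu (9 / 50) k + 41 / 20 * t + 3927 / 1250 * k := by
  have h : chkT [sub (add (add (sub (sub (add (mul pi (sub (sub (add (mul (q 7 25) QQ.k) (mul QQ.t (q 9 50))) QQ.t) QQ.k)) (E.uu (q 23 50) (add QQ.t QQ.k))) (E.uu (q 7 25) QQ.t)) (E.uu (q 9 50) QQ.k)) (mul (q 41 20) QQ.t)) (mul (q 3927 1250) QQ.k)) (q 153 1000), sub (add QQ.t QQ.k) (q 101 1000), sub (q (-11) 1000) (add QQ.t QQ.k)] 30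
    8
    [NumIs.V.of 10000 100 580, NumIs.V.of 10000 (-610) 650] = true := by
    decide +kernel
  obtain ⟨f, hf, hp⟩ := chkT2 h (by norm_num) (x := t) (y := k)
    (le_trans (by norm_num) b1) (le_trans b2 (by norm_num)) (le_trans (by norm_num) b3) (le_trans b4 (by norm_num))
  by_contra hc
  have hc := not_lt.1 hc
  simp only [List.mem_cons, List.not_mem_nil, or_false] at hf
  rcases hf with rfl | rfl | rfl
  · simp only [E.val, NumIs.lkR, QQ.t, QQ.k, QQ.w] at hp
    push_cast at hp
    try simp only [zero_div, div_one] at hp hc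
    first
      | with_reducible exact absurd (sub_pos.1 hp) (not_lt.2 hc)
      | with_reducible exact absurd hp (not_lt.2 (add_le_of_le_neg hc))
      | with_reducible exact absurd (sub_pos.1 hp) (not_lt.2 b5)
      | with_reducible exact absurd (sub_pos.1 hp) (not_lt.2 b6)
      | linarith
  · simp only [E.val, NumIs.lkR, QQ.t, QQ.k, QQ.w] at hp
    push_cast at hp
    try simp only [zero_div, div_one] at hp hc
    first
      | with_reducible exact absurd (sub_pos.1 hp) (not_lt.2 hc)
      | with_reducible exact absurd hp (not_lt.2 (add_le_of_le_neg hc))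
      | with_reducible exact absurd (sub_pos.1 hp) (not_lt.2 b5)
      | with_reducible exact absurd (sub_pos.1 hp) (not_lt.2 b6)
      | linarith
  · simp only [E.val, NumIs.lkR, QQ.t, QQ.k, QQ.w] at hp
    push_cast at hp
    try simp only [zero_div, div_one] at hp hc
    first
      | with_reducible exact absurd (sub_pos.1 hp) (not_lt.2 hc)
      | with_reducible exact absurd hp (not_lt.2 (add_le_of_le_neg hc))
      | with_reducible exact absurd (sub_pos.1 hp) (not_lt.2 b5)
      | with_reducible exact absurd (sub_pos.1 hp) (not_lt.2 b6)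
      | linarith

theorem f_h_one_1 {t k : ℝ} (b1 : 100 / 10000 ≤ t) (b2 : t ≤ 580 / 10000) (b3 : -(610 / 10000) ≤ k) (b4 : k ≤ 650 / 10000) (b5 : t + k ≤ 101 / 1000) (b6 : -11 / 1000 ≤ t + k) :
    24 / 125 < Real.pi * (7 / 25 * k + t * (9 / 50) - t - k) + uu (23 / 50) (t + k) - uu (7 / 25) t - uu (9 / 50) k + 41 / 20 * t + 821 / 500 * k := by
  have h : chkT [sub (add (add (sub (sub (add (mul pi (sub (sub (add (mul (q 7 25) QQ.k) (mul QQ.t (q 9 50))) QQ.t) QQ.k)) (E.uu (q 23 50) (add QQ.t QQ.k))) (E.uu (q 7 25) QQ.t)) (E.uu (q 9 50) QQ.k)) (mul (q 41 20) QQ.t)) (mul (q 821 500) QQ.k)) (q 24 125), sub (add QQ.t QQ.k) (q 101 1000), sub (q (-11) 1000) (add QQ.t QQ.k)] 30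
    2177
    [NumIs.V.of 10000 100 580, NumIs.V.of 10000 (-610) 650] = true := by
    decide +kernel
  obtain ⟨f, hf, hp⟩ := chkT2 h (by norm_num) (x := t) (y := k)
    (le_trans (by norm_num) b1) (le_trans b2 (by norm_num)) (le_trans (by norm_num) b3) (le_trans b4 (by norm_num))
  by_contra hc
  have hc := not_lt.1 hc
  simp only [List.mem_cons, List.not_mem_nil, or_false] at hf
  rcases hf with rfl | rfl | rfl
  · simp only [E.val, NumIs.lkR, QQ.t, QQ.k, QQ.w] at hp
    push_cast at hp
    try simp only [zero_div, div_one] at hp hc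
    first
      | with_reducible exact absurd (sub_pos.1 hp) (not_lt.2 hc)
      | with_reducible exact absurd hp (not_lt.2 (add_le_of_le_neg hc))
      | with_reducible exact absurd (sub_pos.1 hp) (not_lt.2 b5)
      | with_reducible exact absurd (sub_pos.1 hp) (not_lt.2 b6)
      | linarith
  · simp only [E.val, NumIs.lkR, QQ.t, QQ.k, QQ.w] at hp
    push_cast at hp
    try simp only [zero_div, div_one] at hp hc
    first
      | with_reducible exact absurd (sub_pos.1 hp) (not_lt.2 hc)
      | with_reducible exact absurd hp (not_lt.2 (add_le_of_le_neg hc))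
      | with_reducible exact absurd (sub_pos.1 hp) (not_lt.2 b5)
      | with_reducible exact absurd (sub_pos.1 hp) (not_lt.2 b6)
      | linarith
  · simp only [E.val, NumIs.lkR, QQ.t, QQ.k, QQ.w] at hp
    push_cast at hp
    try simp only [zero_div, div_one] at hp hc
    first
      | with_reducible exact absurd (sub_pos.1 hp) (not_lt.2 hc)
      | with_reducible exact absurd hp (not_lt.2 (add_le_of_le_neg hc))
      | with_reducible exact absurd (sub_pos.1 hp) (not_lt.2 b5)
      | with_reducible exact absurd (sub_pos.1 hp) (not_lt.2 b6)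
      | linarith

theorem f_h_one_2 {t k : ℝ} (b1 : 100 / 10000 ≤ t) (b2 : t ≤ 580 / 10000) (b3 : -(610 / 10000) ≤ k) (b4 : k ≤ 650 / 10000) (b5 : t + k ≤ 101 / 1000) (b6 : -11 / 1000 ≤ t + k) :
    43 / 200 < Real.pi * (7 / 25 * k + t * (9 / 50) - t - k) + uu (23 / 50) (t + k) - uu (7 / 25) t - uu (9 / 50) k + 41 / 20 * t + 1849 / 1000 * k := by
  have h : chkT [sub (add (add (sub (sub (add (mul pi (sub (sub (add (mul (q 7 25) QQ.k) (mul QQ.t (q 9 50))) QQ.t) QQ.k)) (E.uu (q 23 50) (add QQ.t QQ.k))) (E.uu (q 7 25) QQ.t)) (E.uu (q 9 50) QQ.k)) (mul (q 41 20) QQ.t)) (mul (q 1849 1000) QQ.k)) (q 43 200), sub (add QQ.t QQ.k) (q 101 1000), sub (q (-11) 1000) (add QQ.t QQ.k)] 30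
    2177
    [NumIs.V.of 10000 100 580, NumIs.V.of 10000 (-610) 650] = true := by
    decide +kernel
  obtain ⟨f, hf, hp⟩ := chkT2 h (by norm_num) (x := t) (y := k)
    (le_trans (by norm_num) b1) (le_trans b2 (by norm_num)) (le_trans (by norm_num) b3) (le_trans b4 (by norm_num))
  by_contra hc
  have hc := not_lt.1 hc
  simp only [List.mem_cons, List.not_mem_nil, or_false] at hf
  rcases hf with rfl | rfl | rfl
  · simp only [E.val, NumIs.lkR, QQ.t, QQ.k, QQ.w] at hp
    push_cast at hp
    try simp only [zero_div, div_one] at hp hc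
    first
      | with_reducible exact absurd (sub_pos.1 hp) (not_lt.2 hc)
      | with_reducible exact absurd hp (not_lt.2 (add_le_of_le_neg hc))
      | with_reducible exact absurd (sub_pos.1 hp) (not_lt.2 b5)
      | with_reducible exact absurd (sub_pos.1 hp) (not_lt.2 b6)
      | linarith
  · simp only [E.val, NumIs.lkR, QQ.t, QQ.k, QQ.w] at hp
    push_cast at hp
    try simp only [zero_div, div_one] at hp hc
    first
      | with_reducible exact absurd (sub_pos.1 hp) (not_lt.2 hc)
      | with_reducible exact absurd hp (not_lt.2 (add_le_of_le_neg hc))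
      | with_reducible exact absurd (sub_pos.1 hp) (not_lt.2 b5)
      | with_reducible exact absurd (sub_pos.1 hp) (not_lt.2 b6)
      | linarith
  · simp only [E.val, NumIs.lkR, QQ.t, QQ.k, QQ.w] at hp
    push_cast at hp
    try simp only [zero_div, div_one] at hp hc
    first
      | with_reducible exact absurd (sub_pos.1 hp) (not_lt.2 hc)
      | with_reducible exact absurd hp (not_lt.2 (add_le_of_le_neg hc))
      | with_reducible exact absurd (sub_pos.1 hp) (not_lt.2 b5)
      | with_reducible exact absurd (sub_pos.1 hp) (not_lt.2 b6)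
      | linarith

theorem f_h_one_3 {t k : ℝ} (b1 : 100 / 10000 ≤ t) (b2 : t ≤ 580 / 10000) (b3 : -(610 / 10000) ≤ k) (b4 : k ≤ 650 / 10000) (b5 : t + k ≤ 101 / 1000) (b6 : -11 / 1000 ≤ t + k) :
    43 / 200 < Real.pi * (7 / 25 * k + t * (9 / 50) - t - k) + uu (23 / 50) (t + k) - uu (7 / 25) t - uu (9 / 50) k + 41 / 20 * t + 1309 / 500 * k := by
  have h : chkT [sub (add (add (sub (sub (add (mul pi (sub (sub (add (mul (q 7 25) QQ.k) (mul QQ.t (q 9 50))) QQ.t) QQ.k)) (E.uu (q 23 50) (add QQ.t QQ.k))) (E.uu (q 7 25) QQ.t)) (E.uu (q 9 50) QQ.k)) (mul (q 41 20) QQ.t)) (mul (q 1309 500) QQ.k)) (q 43 200), sub (add QQ.t QQ.k) (q 101 1000), sub (q (-11) 1000) (add QQ.t QQ.k)] 30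
    2177
    [NumIs.V.of 10000 100 580, NumIs.V.of 10000 (-610) 650] = true := by
    decide +kernel
  obtain ⟨f, hf, hp⟩ := chkT2 h (by norm_num) (x := t) (y := k)
    (le_trans (by norm_num) b1) (le_trans b2 (by norm_num)) (le_trans (by norm_num) b3) (le_trans b4 (by norm_num))
  by_contra hc
  have hc := not_lt.1 hc
  simp only [List.mem_cons, List.not_mem_nil, or_false] at hf
  rcases hf with rfl | rfl | rfl
  · simp only [E.val, NumIs.lkR, QQ.t, QQ.k, QQ.w] at hp
    push_cast at hp
    try simp only [zero_div, div_one] at hp hc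
    first
      | with_reducible exact absurd (sub_pos.1 hp) (not_lt.2 hc)
      | with_reducible exact absurd hp (not_lt.2 (add_le_of_le_neg hc))
      | with_reducible exact absurd (sub_pos.1 hp) (not_lt.2 b5)
      | with_reducible exact absurd (sub_pos.1 hp) (not_lt.2 b6)
      | linarith
  · simp only [E.val, NumIs.lkR, QQ.t, QQ.k, QQ.w] at hp
    push_cast at hp
    try simp only [zero_div, div_one] at hp hc
    first
      | with_reducible exact absurd (sub_pos.1 hp) (not_lt.2 hc)
      | with_reducible exact absurd hp (not_lt.2 (add_le_of_le_neg hc))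
      | with_reducible exact absurd (sub_pos.1 hp) (not_lt.2 b5)
      | with_reducible exact absurd (sub_pos.1 hp) (not_lt.2 b6)
      | linarith
  · simp only [E.val, NumIs.lkR, QQ.t, QQ.k, QQ.w] at hp
    push_cast at hp
    try simp only [zero_div, div_one] at hp hc
    first
      | with_reducible exact absurd (sub_pos.1 hp) (not_lt.2 hc)
      | with_reducible exact absurd hp (not_lt.2 (add_le_of_le_neg hc))
      | with_reducible exact absurd (sub_pos.1 hp) (not_lt.2 b5)
      | with_reducible exact absurd (sub_pos.1 hp) (not_lt.2 b6)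
      | linarith

theorem f_h_two_0 {t k : ℝ} (b1 : 300 / 10000 ≤ t) (b2 : t ≤ 590 / 10000) (b3 : 320 / 10000 ≤ k) (b4 : k ≤ 910 / 10000) (b5 : t + k ≤ 67 / 500) (b6 : 83 / 1000 ≤ t + k) :
    223 / 1000 < Real.pi * (7 / 25 * k + t * (1 / 4) - t - k) + uu (53 / 100) (t + k) - uu (7 / 25) t - uu (1 / 4) k + 41 / 20 * t + 1571 / 1000 * k := by
  have h : chkT [sub (add (add (sub (sub (add (mul pi (sub (sub (add (mul (q 7 25) QQ.k) (mul QQ.t (q 1 4))) QQ.t) QQ.k)) (E.uu (q 53 100) (add QQ.t QQ.k))) (E.uu (q 7 25) QQ.t)) (E.uu (q 1 4) QQ.k)) (mul (q 41 20) QQ.t)) (mul (q 1571 1000) QQ.k)) (q 223 1000), sub (add QQ.t QQ.k) (q 67 500), sub (q 83 1000) (add QQ.t QQ.k)] 30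
    8
    [NumIs.V.of 10000 300 590, NumIs.V.of 10000 320 910] = true := by
    decide +kernel
  obtain ⟨f, hf, hp⟩ := chkT2 h (by norm_num) (x := t) (y := k)
    (le_trans (by norm_num) b1) (le_trans b2 (by norm_num)) (le_trans (by norm_num) b3) (le_trans b4 (by norm_num))
  by_contra hc
  have hc := not_lt.1 hc
  simp only [List.mem_cons, List.not_mem_nil, or_false] at hf
  rcases hf with rfl | rfl | rfl
  · simp only [E.val, NumIs.lkR, QQ.t, QQ.k, QQ.w] at hp
    push_cast at hp
    try simp only [zero_div, div_one] at hp hc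
    first
      | with_reducible exact absurd (sub_pos.1 hp) (not_lt.2 hc)
      | with_reducible exact absurd hp (not_lt.2 (add_le_of_le_neg hc))
      | with_reducible exact absurd (sub_pos.1 hp) (not_lt.2 b5)
      | with_reducible exact absurd (sub_pos.1 hp) (not_lt.2 b6)
      | linarith
  · simp only [E.val, NumIs.lkR, QQ.t, QQ.k, QQ.w] at hp
    push_cast at hp
    try simp only [zero_div, div_one] at hp hc
    first
      | with_reducible exact absurd (sub_pos.1 hp) (not_lt.2 hc)
      | with_reducible exact absurd hp (not_lt.2 (add_le_of_le_neg hc))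
      | with_reducible exact absurd (sub_pos.1 hp) (not_lt.2 b5)
      | with_reducible exact absurd (sub_pos.1 hp) (not_lt.2 b6)
      | linarith
  · simp only [E.val, NumIs.lkR, QQ.t, QQ.k, QQ.w] at hp
    push_cast at hp
    try simp only [zero_div, div_one] at hp hc
    first
      | with_reducible exact absurd (sub_pos.1 hp) (not_lt.2 hc)
      | with_reducible exact absurd hp (not_lt.2 (add_le_of_le_neg hc))
      | with_reducible exact absurd (sub_pos.1 hp) (not_lt.2 b5)
      | with_reducible exact absurd (sub_pos.1 hp) (not_lt.2 b6)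
      | linarith

theorem f_h_twoE_0 {t k : ℝ} (b1 : 690 / 10000 ≤ t) (b2 : t ≤ 780 / 10000) (b3 : -(240 / 10000) ≤ k) (b4 : k ≤ -(110 / 10000)) (b5 : t + k ≤ 8 / 125) (b6 : 51 / 1000 ≤ t + k) :
    23 / 100 < Real.pi * (7 / 25 * k + t * (11 / 50) - t - k) + uu (1 / 2) (t + k) - uu (7 / 25) t - uu (11 / 50) k + 41 / 20 * t + 1131 / 500 * k := by
  have h : chkT [sub (add (add (sub (sub (add (mul pi (sub (sub (add (mul (q 7 25) QQ.k) (mul QQ.t (q 11 50))) QQ.t) QQ.k)) (E.uu (q 1 2) (add QQ.t QQ.k))) (E.uu (q 7 25) QQ.t)) (E.uu (q 11 50) QQ.k)) (mul (q 41 20) QQ.t)) (mul (q 1131 500) QQ.k)) (q 23 100), sub (add QQ.t QQ.k) (q 8 125), sub (q 51 1000) (add QQ.t QQ.k)] 30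
    8
    [NumIs.V.of 10000 690 780, NumIs.V.of 10000 (-240) (-110)] = true := by
    decide +kernel
  obtain ⟨f, hf, hp⟩ := chkT2 h (by norm_num) (x := t) (y := k)
    (le_trans (by norm_num) b1) (le_trans b2 (by norm_num)) (le_trans (by norm_num) b3) (le_trans b4 (by norm_num))
  by_contra hc
  have hc := not_lt.1 hc
  simp only [List.mem_cons, List.not_mem_nil, or_false] at hf
  rcases hf with rfl | rfl | rfl
  · simp only [E.val, NumIs.lkR, QQ.t, QQ.k, QQ.w] at hp
    push_cast at hp
    try simp only [zero_div, div_one] at hp hc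
    first
      | with_reducible exact absurd (sub_pos.1 hp) (not_lt.2 hc)
      | with_reducible exact absurd hp (not_lt.2 (add_le_of_le_neg hc))
      | with_reducible exact absurd (sub_pos.1 hp) (not_lt.2 b5)
      | with_reducible exact absurd (sub_pos.1 hp) (not_lt.2 b6)
      | linarith
  · simp only [E.val, NumIs.lkR, QQ.t, QQ.k, QQ.w] at hp
    push_cast at hp
    try simp only [zero_div, div_one] at hp hc
    first
      | with_reducible exact absurd (sub_pos.1 hp) (not_lt.2 hc)
      | with_reducible exact absurd hp (not_lt.2 (add_le_of_le_neg hc))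
      | with_reducible exact absurd (sub_pos.1 hp) (not_lt.2 b5)
      | with_reducible exact absurd (sub_pos.1 hp) (not_lt.2 b6)
      | linarith
  · simp only [E.val, NumIs.lkR, QQ.t, QQ.k, QQ.w] at hp
    push_cast at hp
    try simp only [zero_div, div_one] at hp hc
    first
      | with_reducible exact absurd (sub_pos.1 hp) (not_lt.2 hc)
      | with_reducible exact absurd hp (not_lt.2 (add_le_of_le_neg hc))
      | with_reducible exact absurd (sub_pos.1 hp) (not_lt.2 b5)
      | with_reducible exact absurd (sub_pos.1 hp) (not_lt.2 b6)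
      | linarith

theorem f_h_touched_0 {t k : ℝ} (b1 : 100 / 10000 ≤ t) (b2 : t ≤ 780 / 10000) (b3 : -(610 / 10000) ≤ k) (b4 : k ≤ 910 / 10000) :
    21 / 100 < Real.pi * (7 / 25 * k + t * (1 / 5) - t - k) + uu (12 / 25) (t + k) - uu (7 / 25) t - uu (1 / 5) k + 41 / 20 * t + 59 / 25 * k := by
  have h : chkT [sub (add (add (sub (sub (add (mul pi (sub (sub (add (mul (q 7 25) QQ.k) (mul QQ.t (q 1 5))) QQ.t) QQ.k)) (E.uu (q 12 25) (add QQ.t QQ.k))) (E.uu (q 7 25) QQ.t)) (E.uu (q 1 5) QQ.k)) (mul (q 41 20) QQ.t)) (mul (q 59 25) QQ.k)) (q 21 100)] 30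
    8
    [NumIs.V.of 10000 100 780, NumIs.V.of 10000 (-610) 910] = true := by
    decide +kernel
  obtain ⟨f, hf, hp⟩ := chkT2 h (by norm_num) (x := t) (y := k)
    (le_trans (by norm_num) b1) (le_trans b2 (by norm_num)) (le_trans (by norm_num) b3) (le_trans b4 (by norm_num))
  by_contra hc
  have hc := not_lt.1 hc
  simp only [List.mem_cons, List.not_mem_nil, or_false] at hf
  rcases hf with rfl
  · simp only [E.val, NumIs.lkR, QQ.t, QQ.k, QQ.w] at hp
    push_cast at hp
    try simp only [zero_div, div_one] at hp hc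
    first
      | with_reducible exact absurd (sub_pos.1 hp) (not_lt.2 hc)
      | with_reducible exact absurd hp (not_lt.2 (add_le_of_le_neg hc))
      | linarith

theorem f_r_one_0 {t k : ℝ} (b1 : 380 / 10000 ≤ t) (b2 : t ≤ 1360 / 10000) (b3 : -(800 / 10000) ≤ k) (b4 : k ≤ 510 / 10000) (b5 : t + k ≤ 143 / 1000) (b6 : -1 / 100 ≤ t + k) :
    137 / 1000 < Real.pi * (1 / 4 * k + t * (9 / 50) - t - k) + uu (43 / 100) (t + k) - uu (1 / 4) t - uu (9 / 50) k + 21 / 10 * t + 3927 / 1250 * k := by
  have h : chkT [sub (add (add (sub (sub (add (mul pi (sub (sub (add (mul (q 1 4) QQ.k) (mul QQ.t (q 9 50))) QQ.t) QQ.k)) (E.uu (q 43 100) (add QQ.t QQ.k))) (E.uu (q 1 4) QQ.t)) (E.uu (q 9 50) QQ.k)) (mul (q 21 10) QQ.t)) (mul (q 3927 1250) QQ.k)) (q 137 1000), sub (add QQ.t QQ.k) (q 143 1000), sub (q (-1) 100) (add QQ.t QQ.k)] 30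
    8
    [NumIs.V.of 10000 380 1360, NumIs.V.of 10000 (-800) 510] = true := by
    decide +kernel
  obtain ⟨f, hf, hp⟩ := chkT2 h (by norm_num) (x := t) (y := k)
    (le_trans (by norm_num) b1) (le_trans b2 (by norm_num)) (le_trans (by norm_num) b3) (le_trans b4 (by norm_num))
  by_contra hc
  have hc := not_lt.1 hc
  simp only [List.mem_cons, List.not_mem_nil, or_false] at hf
  rcases hf with rfl | rfl | rfl
  · simp only [E.val, NumIs.lkR, QQ.t, QQ.k, QQ.w] at hp
    push_cast at hp
    try simp only [zero_div, div_one] at hp hc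
    first
      | with_reducible exact absurd (sub_pos.1 hp) (not_lt.2 hc)
      | with_reducible exact absurd hp (not_lt.2 (add_le_of_le_neg hc))
      | with_reducible exact absurd (sub_pos.1 hp) (not_lt.2 b5)
      | with_reducible exact absurd (sub_pos.1 hp) (not_lt.2 b6)
      | linarith
  · simp only [E.val, NumIs.lkR, QQ.t, QQ.k, QQ.w] at hp
    push_cast at hp
    try simp only [zero_div, div_one] at hp hc
    first
      | with_reducible exact absurd (sub_pos.1 hp) (not_lt.2 hc)
      | with_reducible exact absurd hp (not_lt.2 (add_le_of_le_neg hc))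
      | with_reducible exact absurd (sub_pos.1 hp) (not_lt.2 b5)
      | with_reducible exact absurd (sub_pos.1 hp) (not_lt.2 b6)
      | linarith
  · simp only [E.val, NumIs.lkR, QQ.t, QQ.k, QQ.w] at hp
    push_cast at hp
    try simp only [zero_div, div_one] at hp hc
    first
      | with_reducible exact absurd (sub_pos.1 hp) (not_lt.2 hc)
      | with_reducible exact absurd hp (not_lt.2 (add_le_of_le_neg hc))
      | with_reducible exact absurd (sub_pos.1 hp) (not_lt.2 b5)
      | with_reducible exact absurd (sub_pos.1 hp) (not_lt.2 b6)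
      | linarith

theorem f_r_one_1 {t k : ℝ} (b1 : 380 / 10000 ≤ t) (b2 : t ≤ 1360 / 10000) (b3 : -(800 / 10000) ≤ k) (b4 : k ≤ 510 / 10000) (b5 : t + k ≤ 143 / 1000) (b6 : -1 / 100 ≤ t + k) :
    9 / 50 < Real.pi * (1 / 4 * k + t * (9 / 50) - t - k) + uu (43 / 100) (t + k) - uu (1 / 4) t - uu (9 / 50) k + 21 / 10 * t + 821 / 500 * k := by
  have h : chkT [sub (add (add (sub (sub (add (mul pi (sub (sub (add (mul (q 1 4) QQ.k) (mul QQ.t (q 9 50))) QQ.t) QQ.k)) (E.uu (q 43 100) (add QQ.t QQ.k))) (E.uu (q 1 4) QQ.t)) (E.uu (q 9 50) QQ.k)) (mul (q 21 10) QQ.t)) (mul (q 821 500) QQ.k)) (q 9 50), sub (add QQ.t QQ.k) (q 143 1000), sub (q (-1) 100) (add QQ.t QQ.k)] 30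
    10451811401857
    [NumIs.V.of 10000 380 1360, NumIs.V.of 10000 (-800) 510] = true := by
    decide +kernel
  obtain ⟨f, hf, hp⟩ := chkT2 h (by norm_num) (x := t) (y := k)
    (le_trans (by norm_num) b1) (le_trans b2 (by norm_num)) (le_trans (by norm_num) b3) (le_trans b4 (by norm_num))
  by_contra hc
  have hc := not_lt.1 hc
  simp only [List.mem_cons, List.not_mem_nil, or_false] at hf
  rcases hf with rfl | rfl | rfl
  · simp only [E.val, NumIs.lkR, QQ.t, QQ.k, QQ.w] at hp
    push_cast at hp
    try simp only [zero_div, div_one] at hp hc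
    first
      | with_reducible exact absurd (sub_pos.1 hp) (not_lt.2 hc)
      | with_reducible exact absurd hp (not_lt.2 (add_le_of_le_neg hc))
      | with_reducible exact absurd (sub_pos.1 hp) (not_lt.2 b5)
      | with_reducible exact absurd (sub_pos.1 hp) (not_lt.2 b6)
      | linarith
  · simp only [E.val, NumIs.lkR, QQ.t, QQ.k, QQ.w] at hp
    push_cast at hp
    try simp only [zero_div, div_one] at hp hc
    first
      | with_reducible exact absurd (sub_pos.1 hp) (not_lt.2 hc)
      | with_reducible exact absurd hp (not_lt.2 (add_le_of_le_neg hc))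
      | with_reducible exact absurd (sub_pos.1 hp) (not_lt.2 b5)
      | with_reducible exact absurd (sub_pos.1 hp) (not_lt.2 b6)
      | linarith
  · simp only [E.val, NumIs.lkR, QQ.t, QQ.k, QQ.w] at hp
    push_cast at hp
    try simp only [zero_div, div_one] at hp hc
    first
      | with_reducible exact absurd (sub_pos.1 hp) (not_lt.2 hc)
      | with_reducible exact absurd hp (not_lt.2 (add_le_of_le_neg hc))
      | with_reducible exact absurd (sub_pos.1 hp) (not_lt.2 b5)
      | with_reducible exact absurd (sub_pos.1 hp) (not_lt.2 b6)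
      | linarith

theorem f_r_one_2 {t k : ℝ} (b1 : 380 / 10000 ≤ t) (b2 : t ≤ 1360 / 10000) (b3 : -(800 / 10000) ≤ k) (b4 : k ≤ 510 / 10000) (b5 : t + k ≤ 143 / 1000) (b6 : -1 / 100 ≤ t + k) :
    189 / 1000 < Real.pi * (1 / 4 * k + t * (9 / 50) - t - k) + uu (43 / 100) (t + k) - uu (1 / 4) t - uu (9 / 50) k + 21 / 10 * t + 1849 / 1000 * k := by
  have h : chkT [sub (add (add (sub (sub (add (mul pi (sub (sub (add (mul (q 1 4) QQ.k) (mul QQ.t (q 9 50))) QQ.t) QQ.k)) (E.uu (q 43 100) (add QQ.t QQ.k))) (E.uu (q 1 4) QQ.t)) (E.uu (q 9 50) QQ.k)) (mul (q 21 10) QQ.t)) (mul (q 1849 1000) QQ.k)) (q 189 1000), sub (add QQ.t QQ.k) (q 143 1000), sub (q (-1) 100) (add QQ.t QQ.k)] 30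
    9352299774081
    [NumIs.V.of 10000 380 1360, NumIs.V.of 10000 (-800) 510] = true := by
    decide +kernel
  obtain ⟨f, hf, hp⟩ := chkT2 h (by norm_num) (x := t) (y := k)
    (le_trans (by norm_num) b1) (le_trans b2 (by norm_num)) (le_trans (by norm_num) b3) (le_trans b4 (by norm_num))
  by_contra hc
  have hc := not_lt.1 hc
  simp only [List.mem_cons, List.not_mem_nil, or_false] at hf
  rcases hf with rfl | rfl | rfl
  · simp only [E.val, NumIs.lkR, QQ.t, QQ.k, QQ.w] at hp
    push_cast at hp
    try simp only [zero_div, div_one] at hp hc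
    first
      | with_reducible exact absurd (sub_pos.1 hp) (not_lt.2 hc)
      | with_reducible exact absurd hp (not_lt.2 (add_le_of_le_neg hc))
      | with_reducible exact absurd (sub_pos.1 hp) (not_lt.2 b5)
      | with_reducible exact absurd (sub_pos.1 hp) (not_lt.2 b6)
      | linarith
  · simp only [E.val, NumIs.lkR, QQ.t, QQ.k, QQ.w] at hp
    push_cast at hp
    try simp only [zero_div, div_one] at hp hc
    first
      | with_reducible exact absurd (sub_pos.1 hp) (not_lt.2 hc)
      | with_reducible exact absurd hp (not_lt.2 (add_le_of_le_neg hc))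
      | with_reducible exact absurd (sub_pos.1 hp) (not_lt.2 b5)
      | with_reducible exact absurd (sub_pos.1 hp) (not_lt.2 b6)
      | linarith
  · simp only [E.val, NumIs.lkR, QQ.t, QQ.k, QQ.w] at hp
    push_cast at hp
    try simp only [zero_div, div_one] at hp hc
    first
      | with_reducible exact absurd (sub_pos.1 hp) (not_lt.2 hc)
      | with_reducible exact absurd hp (not_lt.2 (add_le_of_le_neg hc))
      | with_reducible exact absurd (sub_pos.1 hp) (not_lt.2 b5)
      | with_reducible exact absurd (sub_pos.1 hp) (not_lt.2 b6)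
      | linarith

theorem f_r_one_3 {t k : ℝ} (b1 : 380 / 10000 ≤ t) (b2 : t ≤ 1360 / 10000) (b3 : -(800 / 10000) ≤ k) (b4 : k ≤ 510 / 10000) (b5 : t + k ≤ 143 / 1000) (b6 : -1 / 100 ≤ t + k) :
    24 / 125 < Real.pi * (1 / 4 * k + t * (9 / 50) - t - k) + uu (43 / 100) (t + k) - uu (1 / 4) t - uu (9 / 50) k + 21 / 10 * t + 1309 / 500 * k := by
  have h : chkT [sub (add (add (sub (sub (add (mul pi (sub (sub (add (mul (q 1 4) QQ.k) (mul QQ.t (q 9 50))) QQ.t) QQ.k)) (E.uu (q 43 100) (add QQ.t QQ.k))) (E.uu (q 1 4) QQ.t)) (E.uu (q 9 50) QQ.k)) (mul (q 21 10) QQ.t)) (mul (q 1309 500) QQ.k)) (q 24 125), sub (add QQ.t QQ.k) (q 143 1000), sub (q (-1) 100) (add QQ.t QQ.k)] 30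
    2177
    [NumIs.V.of 10000 380 1360, NumIs.V.of 10000 (-800) 510] = true := by
    decide +kernel
  obtain ⟨f, hf, hp⟩ := chkT2 h (by norm_num) (x := t) (y := k)
    (le_trans (by norm_num) b1) (le_trans b2 (by norm_num)) (le_trans (by norm_num) b3) (le_trans b4 (by norm_num))
  by_contra hc
  have hc := not_lt.1 hc
  simp only [List.mem_cons, List.not_mem_nil, or_false] at hf
  rcases hf with rfl | rfl | rfl
  · simp only [E.val, NumIs.lkR, QQ.t, QQ.k, QQ.w] at hp
    push_cast at hp
    try simp only [zero_div, div_one] at hp hc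
    first
      | with_reducible exact absurd (sub_pos.1 hp) (not_lt.2 hc)
      | with_reducible exact absurd hp (not_lt.2 (add_le_of_le_neg hc))
      | with_reducible exact absurd (sub_pos.1 hp) (not_lt.2 b5)
      | with_reducible exact absurd (sub_pos.1 hp) (not_lt.2 b6)
      | linarith
  · simp only [E.val, NumIs.lkR, QQ.t, QQ.k, QQ.w] at hp
    push_cast at hp
    try simp only [zero_div, div_one] at hp hc
    first
      | with_reducible exact absurd (sub_pos.1 hp) (not_lt.2 hc)
      | with_reducible exact absurd hp (not_lt.2 (add_le_of_le_neg hc))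
      | with_reducible exact absurd (sub_pos.1 hp) (not_lt.2 b5)
      | with_reducible exact absurd (sub_pos.1 hp) (not_lt.2 b6)
      | linarith
  · simp only [E.val, NumIs.lkR, QQ.t, QQ.k, QQ.w] at hp
    push_cast at hp
    try simp only [zero_div, div_one] at hp hc
    first
      | with_reducible exact absurd (sub_pos.1 hp) (not_lt.2 hc)
      | with_reducible exact absurd hp (not_lt.2 (add_le_of_le_neg hc))
      | with_reducible exact absurd (sub_pos.1 hp) (not_lt.2 b5)
      | with_reducible exact absurd (sub_pos.1 hp) (not_lt.2 b6)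
      | linarith

theorem f_r_two_0 {t k : ℝ} (b1 : 630 / 10000 ≤ t) (b2 : t ≤ 1450 / 10000) (b3 : -(80 / 10000) ≤ k) (b4 : k ≤ 800 / 10000) (b5 : t + k ≤ 187 / 1000) (b6 : 47 / 500 ≤ t + k) :
    21 / 100 < Real.pi * (1 / 4 * k + t * (1 / 4) - t - k) + uu (1 / 2) (t + k) - uu (1 / 4) t - uu (1 / 4) k + 21 / 10 * t + 1571 / 1000 * k := by
  have h : chkT [sub (add (add (sub (sub (add (mul pi (sub (sub (add (mul (q 1 4) QQ.k) (mul QQ.t (q 1 4))) QQ.t) QQ.k)) (E.uu (q 1 2) (add QQ.t QQ.k))) (E.uu (q 1 4) QQ.t)) (E.uu (q 1 4) QQ.k)) (mul (q 21 10) QQ.t)) (mul (q 1571 1000) QQ.k)) (q 21 100), sub (add QQ.t QQ.k) (q 187 1000), sub (q 47 500) (add QQ.t QQ.k)] 30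
    8
    [NumIs.V.of 10000 630 1450, NumIs.V.of 10000 (-80) 800] = true := by
    decide +kernel
  obtain ⟨f, hf, hp⟩ := chkT2 h (by norm_num) (x := t) (y := k)
    (le_trans (by norm_num) b1) (le_trans b2 (by norm_num)) (le_trans (by norm_num) b3) (le_trans b4 (by norm_num))
  by_contra hc
  have hc := not_lt.1 hc
  simp only [List.mem_cons, List.not_mem_nil, or_false] at hf
  rcases hf with rfl | rfl | rfl
  · simp only [E.val, NumIs.lkR, QQ.t, QQ.k, QQ.w] at hp
    push_cast at hp
    try simp only [zero_div, div_one] at hp hc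
    first
      | with_reducible exact absurd (sub_pos.1 hp) (not_lt.2 hc)
      | with_reducible exact absurd hp (not_lt.2 (add_le_of_le_neg hc))
      | with_reducible exact absurd (sub_pos.1 hp) (not_lt.2 b5)
      | with_reducible exact absurd (sub_pos.1 hp) (not_lt.2 b6)
      | linarith
  · simp only [E.val, NumIs.lkR, QQ.t, QQ.k, QQ.w] at hp
    push_cast at hp
    try simp only [zero_div, div_one] at hp hc
    first
      | with_reducible exact absurd (sub_pos.1 hp) (not_lt.2 hc)
      | with_reducible exact absurd hp (not_lt.2 (add_le_of_le_neg hc))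
      | with_reducible exact absurd (sub_pos.1 hp) (not_lt.2 b5)
      | with_reducible exact absurd (sub_pos.1 hp) (not_lt.2 b6)
      | linarith
  · simp only [E.val, NumIs.lkR, QQ.t, QQ.k, QQ.w] at hp
    push_cast at hp
    try simp only [zero_div, div_one] at hp hc
    first
      | with_reducible exact absurd (sub_pos.1 hp) (not_lt.2 hc)
      | with_reducible exact absurd hp (not_lt.2 (add_le_of_le_neg hc))
      | with_reducible exact absurd (sub_pos.1 hp) (not_lt.2 b5)
      | with_reducible exact absurd (sub_pos.1 hp) (not_lt.2 b6)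
      | linarith

theorem f_r_twoE_0 {t k : ℝ} (b1 : 1000 / 10000 ≤ t) (b2 : t ≤ 1580 / 10000) (b3 : -(610 / 10000) ≤ k) (b4 : k ≤ -(240 / 10000)) (b5 : t + k ≤ 53 / 500) (b6 : 8 / 125 ≤ t + k) :
    23 / 100 < Real.pi * (1 / 4 * k + t * (11 / 50) - t - k) + uu (47 / 100) (t + k) - uu (1 / 4) t - uu (11 / 50) k + 21 / 10 * t + 1131 / 500 * k := by
  have h : chkT [sub (add (add (sub (sub (add (mul pi (sub (sub (add (mul (q 1 4) QQ.k) (mul QQ.t (q 11 50))) QQ.t) QQ.k)) (E.uu (q 47 100) (add QQ.t QQ.k))) (E.uu (q 1 4) QQ.t)) (E.uu (q 11 50) QQ.k)) (mul (q 21 10) QQ.t)) (mul (q 1131 500) QQ.k)) (q 23 100), sub (add QQ.t QQ.k) (q 53 500), sub (q 8 125) (add QQ.t QQ.k)] 30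
    8
    [NumIs.V.of 10000 1000 1580, NumIs.V.of 10000 (-610) (-240)] = true := by
    decide +kernel
  obtain ⟨f, hf, hp⟩ := chkT2 h (by norm_num) (x := t) (y := k)
    (le_trans (by norm_num) b1) (le_trans b2 (by norm_num)) (le_trans (by norm_num) b3) (le_trans b4 (by norm_num))
  by_contra hc
  have hc := not_lt.1 hc
  simp only [List.mem_cons, List.not_mem_nil, or_false] at hf
  rcases hf with rfl | rfl | rfl
  · simp only [E.val, NumIs.lkR, QQ.t, QQ.k, QQ.w] at hp
    push_cast at hp
    try simp only [zero_div, div_one] at hp hc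
    first
      | with_reducible exact absurd (sub_pos.1 hp) (not_lt.2 hc)
      | with_reducible exact absurd hp (not_lt.2 (add_le_of_le_neg hc))
      | with_reducible exact absurd (sub_pos.1 hp) (not_lt.2 b5)
      | with_reducible exact absurd (sub_pos.1 hp) (not_lt.2 b6)
      | linarith
  · simp only [E.val, NumIs.lkR, QQ.t, QQ.k, QQ.w] at hp
    push_cast at hp
    try simp only [zero_div, div_one] at hp hc
    first
      | with_reducible exact absurd (sub_pos.1 hp) (not_lt.2 hc)
      | with_reducible exact absurd hp (not_lt.2 (add_le_of_le_neg hc))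
      | with_reducible exact absurd (sub_pos.1 hp) (not_lt.2 b5)
      | with_reducible exact absurd (sub_pos.1 hp) (not_lt.2 b6)
      | linarith
  · simp only [E.val, NumIs.lkR, QQ.t, QQ.k, QQ.w] at hp
    push_cast at hp
    try simp only [zero_div, div_one] at hp hc
    first
      | with_reducible exact absurd (sub_pos.1 hp) (not_lt.2 hc)
      | with_reducible exact absurd hp (not_lt.2 (add_le_of_le_neg hc))
      | with_reducible exact absurd (sub_pos.1 hp) (not_lt.2 b5)
      | with_reducible exact absurd (sub_pos.1 hp) (not_lt.2 b6)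
      | linarith

theorem f_r_touched_0 {t k : ℝ} (b1 : 380 / 10000 ≤ t) (b2 : t ≤ 1580 / 10000) (b3 : -(1170 / 10000) ≤ k) (b4 : k ≤ 800 / 10000) :
    1 / 5 < Real.pi * (1 / 4 * k + t * (1 / 5) - t - k) + uu (9 / 20) (t + k) - uu (1 / 4) t - uu (1 / 5) k + 21 / 10 * t + 59 / 25 * k := by
  have h : chkT [sub (add (add (sub (sub (add (mul pi (sub (sub (add (mul (q 1 4) QQ.k) (mul QQ.t (q 1 5))) QQ.t) QQ.k)) (E.uu (q 9 20) (add QQ.t QQ.k))) (E.uu (q 1 4) QQ.t)) (E.uu (q 1 5) QQ.k)) (mul (q 21 10) QQ.t)) (mul (q 59 25) QQ.k)) (q 1 5)] 30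
    2177
    [NumIs.V.of 10000 380 1580, NumIs.V.of 10000 (-1170) 800] = true := by
    decide +kernel
  obtain ⟨f, hf, hp⟩ := chkT2 h (by norm_num) (x := t) (y := k)
    (le_trans (by norm_num) b1) (le_trans b2 (by norm_num)) (le_trans (by norm_num) b3) (le_trans b4 (by norm_num))
  by_contra hc
  have hc := not_lt.1 hc
  simp only [List.mem_cons, List.not_mem_nil, or_false] at hf
  rcases hf with rfl
  · simp only [E.val, NumIs.lkR, QQ.t, QQ.k, QQ.w] at hp
    push_cast at hp
    try simp only [zero_div, div_one] at hp hc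
    first
      | with_reducible exact absurd (sub_pos.1 hp) (not_lt.2 hc)
      | with_reducible exact absurd hp (not_lt.2 (add_le_of_le_neg hc))
      | linarith

theorem r_t_one_0_0_0 {w : ℝ} (b1 : 0 / 10000 ≤ w) (b2 : w ≤ 100 / 10000) :
    -(3 / 20) < 0 * uu (1 / 100) 0 + (-11 / 1000) + (0 / 1) * w - (uu (4 / 5 + w) 0 - uu (4 / 5) 0 - uu (1 / 100) 0) - (-13 / 100) := by
  have h : chkT [add (sub (sub (add (add (mul (q 0 1) (E.uu (q 1 100) (q 0 1))) (q (-11) 1000)) (mul (q 0 1) QQ.w)) (sub (sub (E.uu (add (q 4 5) QQ.w) (q 0 1)) (E.uu (q 4 5) (q 0 1))) (E.uu (q 1 100) (q 0 1)))) (q (-13) 100)) (q 3 20)] 30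
    8
    [NumIs.V.of 10000 0 100] = true := by
    decide +kernel
  obtain ⟨f, hf, hp⟩ := chkT_sound h (xs := [w])
    (List.Forall₂.cons (NumIs.V.of_mem (by norm_num) (le_trans (by norm_num) b1) (le_trans b2 (by norm_num))) List.Forall₂.nil)
  by_contra hc
  have hc := not_lt.1 hc
  simp only [List.mem_cons, List.not_mem_nil, or_false] at hf
  rcases hf with rfl
  · simp only [E.val, NumIs.lkR, QQ.t, QQ.k, QQ.w] at hp
    push_cast at hp
    try simp only [zero_div, div_one] at hp hc
    first
      | with_reducible exact absurd (sub_pos.1 hp) (not_lt.2 hc)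
      | with_reducible exact absurd hp (not_lt.2 (add_le_of_le_neg hc))
      | linarith

theorem r_t_one_0_0_1 {w : ℝ} (b1 : 100 / 10000 ≤ w) (b2 : w ≤ 1800 / 10000) :
    -(3 / 20) < 0 * uu w 0 + (-11 / 1000) + (0 / 1) * w - (uu (4 / 5 + w) 0 - uu (4 / 5) 0 - uu w 0) - (-13 / 100) := by
  have h : chkT [add (sub (sub (add (add (mul (q 0 1) (E.uu QQ.w (q 0 1))) (q (-11) 1000)) (mul (q 0 1) QQ.w)) (sub (sub (E.uu (add (q 4 5) QQ.w) (q 0 1)) (E.uu (q 4 5) (q 0 1))) (E.uu QQ.w (q 0 1)))) (q (-13) 100)) (q 3 20)] 30
    142641152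
    [NumIs.V.of 10000 100 1800] = true := by
    decide +kernel
  obtain ⟨f, hf, hp⟩ := chkT_sound h (xs := [w])
    (List.Forall₂.cons (NumIs.V.of_mem (by norm_num) (le_trans (by norm_num) b1) (le_trans b2 (by norm_num))) List.Forall₂.nil)
  by_contra hc
  have hc := not_lt.1 hc
  simp only [List.mem_cons, List.not_mem_nil, or_false] at hf
  rcases hf with rfl
  · simp only [E.val, NumIs.lkR, QQ.t, QQ.k, QQ.w] at hp
    push_cast at hp
    try simp only [zero_div, div_one] at hp hc
    first
      | with_reducible exact absurd (sub_pos.1 hp) (not_lt.2 hc)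
      | with_reducible exact absurd hp (not_lt.2 (add_le_of_le_neg hc))
      | linarith

theorem r_t_one_1_0_0 {w : ℝ} (b1 : 0 / 10000 ≤ w) (b2 : w ≤ 100 / 10000) :
    -(19 / 100) < 1 * uu (1 / 100) 0 + (-163 / 5000) + (779 / 1000) * w - (uu (4 / 5 + w) 0 - uu (4 / 5) 0 - uu (1 / 100) 0) - (-13 / 100) := by
  have h : chkT [add (sub (sub (add (add (mul (q 1 1) (E.uu (q 1 100) (q 0 1))) (q (-163) 5000)) (mul (q 779 1000) QQ.w)) (sub (sub (E.uu (add (q 4 5) QQ.w) (q 0 1)) (E.uu (q 4 5) (q 0 1))) (E.uu (q 1 100) (q 0 1)))) (q (-13) 100)) (q 19 100)] 30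
    8
    [NumIs.V.of 10000 0 100] = true := by
    decide +kernel
  obtain ⟨f, hf, hp⟩ := chkT_sound h (xs := [w])
    (List.Forall₂.cons (NumIs.V.of_mem (by norm_num) (le_trans (by norm_num) b1) (le_trans b2 (by norm_num))) List.Forall₂.nil)
  by_contra hc
  have hc := not_lt.1 hc
  simp only [List.mem_cons, List.not_mem_nil, or_false] at hf
  rcases hf with rfl
  · simp only [E.val, NumIs.lkR, QQ.t, QQ.k, QQ.w] at hp
    push_cast at hp
    try simp only [zero_div, div_one] at hp hc
    first
      | with_reducible exact absurd (sub_pos.1 hp) (not_lt.2 hc)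
      | with_reducible exact absurd hp (not_lt.2 (add_le_of_le_neg hc))
      | linarith

theorem r_t_one_1_0_1 {w : ℝ} (b1 : 100 / 10000 ≤ w) (b2 : w ≤ 1800 / 10000) :
    -(19 / 100) < 1 * uu w 0 + (-163 / 5000) + (779 / 1000) * w - (uu (4 / 5 + w) 0 - uu (4 / 5) 0 - uu w 0) - (-13 / 100) := by
  have h : chkT [add (sub (sub (add (add (mul (q 1 1) (E.uu QQ.w (q 0 1))) (q (-163) 5000)) (mul (q 779 1000) QQ.w)) (sub (sub (E.uu (add (q 4 5) QQ.w) (q 0 1)) (E.uu (q 4 5) (q 0 1))) (E.uu QQ.w (q 0 1)))) (q (-13) 100)) (q 19 100)] 30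
    36516167680
    [NumIs.V.of 10000 100 1800] = true := by
    decide +kernel
  obtain ⟨f, hf, hp⟩ := chkT_sound h (xs := [w])
    (List.Forall₂.cons (NumIs.V.of_mem (by norm_num) (le_trans (by norm_num) b1) (le_trans b2 (by norm_num))) List.Forall₂.nil)
  by_contra hc
  have hc := not_lt.1 hc
  simp only [List.mem_cons, List.not_mem_nil, or_false] at hf
  rcases hf with rfl
  · simp only [E.val, NumIs.lkR, QQ.t, QQ.k, QQ.w] at hp
    push_cast at hp
    try simp only [zero_div, div_one] at hp hc
    first
      | with_reducible exact absurd (sub_pos.1 hp) (not_lt.2 hc)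
      | with_reducible exact absurd hp (not_lt.2 (add_le_of_le_neg hc))
      | linarith

theorem r_t_one_2_0_0 {w : ℝ} (b1 : 1800 / 10000 ≤ w) (b2 : w ≤ 2000 / 10000) :
    -(1 / 5) < 1 * uu w 0 + (164 / 625) + (-921 / 1000) * w - (uu (49 / 50) 0 - uu (4 / 5) 0 - uu w 0) - (-13 / 100) := by
  have h : chkT [add (sub (sub (add (add (mul (q 1 1) (E.uu QQ.w (q 0 1))) (q 164 625)) (mul (q (-921) 1000) QQ.w)) (sub (sub (E.uu (q 49 50) (q 0 1)) (E.uu (q 4 5) (q 0 1))) (E.uu QQ.w (q 0 1)))) (q (-13) 100)) (q 1 5)] 30
    8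
    [NumIs.V.of 10000 1800 2000] = true := by
    decide +kernel
  obtain ⟨f, hf, hp⟩ := chkT_sound h (xs := [w])
    (List.Forall₂.cons (NumIs.V.of_mem (by norm_num) (le_trans (by norm_num) b1) (le_trans b2 (by norm_num))) List.Forall₂.nil)
  by_contra hc
  have hc := not_lt.1 hc
  simp only [List.mem_cons, List.not_mem_nil, or_false] at hf
  rcases hf with rfl
  · simp only [E.val, NumIs.lkR, QQ.t, QQ.k, QQ.w] at hp
    push_cast at hp
    try simp only [zero_div, div_one] at hp hc
    first
      | with_reducible exact absurd (sub_pos.1 hp) (not_lt.2 hc)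
      | with_reducible exact absurd hp (not_lt.2 (add_le_of_le_neg hc))
      | linarith

theorem r_t_one_3_0_0 {w : ℝ} (b1 : 1800 / 10000 ≤ w) (b2 : w ≤ 2000 / 10000) :
    -(19 / 100) < 1 * uu w 0 + (1451 / 5000) + (-1021 / 1000) * w - (uu (49 / 50) 0 - uu (4 / 5) 0 - uu w 0) - (-13 / 100) := by
  have h : chkT [add (sub (sub (add (add (mul (q 1 1) (E.uu QQ.w (q 0 1))) (q 1451 5000)) (mul (q (-1021) 1000) QQ.w)) (sub (sub (E.uu (q 49 50) (q 0 1)) (E.uu (q 4 5) (q 0 1))) (E.uu QQ.w (q 0 1)))) (q (-13) 100)) (q 19 100)] 30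
    8
    [NumIs.V.of 10000 1800 2000] = true := by
    decide +kernel
  obtain ⟨f, hf, hp⟩ := chkT_sound h (xs := [w])
    (List.Forall₂.cons (NumIs.V.of_mem (by norm_num) (le_trans (by norm_num) b1) (le_trans b2 (by norm_num))) List.Forall₂.nil)
  by_contra hc
  have hc := not_lt.1 hc
  simp only [List.mem_cons, List.not_mem_nil, or_false] at hf
  rcases hf with rfl
  · simp only [E.val, NumIs.lkR, QQ.t, QQ.k, QQ.w] at hp
    push_cast at hp
    try simp only [zero_div, div_one] at hp hc
    first
      | with_reducible exact absurd (sub_pos.1 hp) (not_lt.2 hc)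
      | with_reducible exact absurd hp (not_lt.2 (add_le_of_le_neg hc))
      | linarith

theorem r_t_two_0_0_0 {w : ℝ} (b1 : 0 / 10000 ≤ w) (b2 : w ≤ 100 / 10000) :
    -(11 / 50) < 1 * uu (1 / 100) 0 + (53 / 625) + (-37 / 250) * w - (uu (4 / 5 + w) 0 - uu (4 / 5) 0 - uu (1 / 100) 0) - (-13 / 100) := by
  have h : chkT [add (sub (sub (add (add (mul (q 1 1) (E.uu (q 1 100) (q 0 1))) (q 53 625)) (mul (q (-37) 250) QQ.w)) (sub (sub (E.uu (add (q 4 5) QQ.w) (q 0 1)) (E.uu (q 4 5) (q 0 1))) (E.uu (q 1 100) (q 0 1)))) (q (-13) 100)) (q 11 50)] 30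
    8
    [NumIs.V.of 10000 0 100] = true := by
    decide +kernel
  obtain ⟨f, hf, hp⟩ := chkT_sound h (xs := [w])
    (List.Forall₂.cons (NumIs.V.of_mem (by norm_num) (le_trans (by norm_num) b1) (le_trans b2 (by norm_num))) List.Forall₂.nil)
  by_contra hc
  have hc := not_lt.1 hc
  simp only [List.mem_cons, List.not_mem_nil, or_false] at hf
  rcases hf with rfl
  · simp only [E.val, NumIs.lkR, QQ.t, QQ.k, QQ.w] at hp
    push_cast at hp
    try simp only [zero_div, div_one] at hp hc
    first
      | with_reducible exact absurd (sub_pos.1 hp) (not_lt.2 hc)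
      | with_reducible exact absurd hp (not_lt.2 (add_le_of_le_neg hc))
      | linarith

theorem r_t_two_0_0_1 {w : ℝ} (b1 : 100 / 10000 ≤ w) (b2 : w ≤ 1800 / 10000) :
    -(11 / 50) < 1 * uu w 0 + (53 / 625) + (-37 / 250) * w - (uu (4 / 5 + w) 0 - uu (4 / 5) 0 - uu w 0) - (-13 / 100) := by
  have h : chkT [add (sub (sub (add (add (mul (q 1 1) (E.uu QQ.w (q 0 1))) (q 53 625)) (mul (q (-37) 250) QQ.w)) (sub (sub (E.uu (add (q 4 5) QQ.w) (q 0 1)) (E.uu (q 4 5) (q 0 1))) (E.uu QQ.w (q 0 1)))) (q (-13) 100)) (q 11 50)] 30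
    36516167680
    [NumIs.V.of 10000 100 1800] = true := by
    decide +kernel
  obtain ⟨f, hf, hp⟩ := chkT_sound h (xs := [w])
    (List.Forall₂.cons (NumIs.V.of_mem (by norm_num) (le_trans (by norm_num) b1) (le_trans b2 (by norm_num))) List.Forall₂.nil)
  by_contra hc
  have hc := not_lt.1 hc
  simp only [List.mem_cons, List.not_mem_nil, or_false] at hf
  rcases hf with rfl
  · simp only [E.val, NumIs.lkR, QQ.t, QQ.k, QQ.w] at hp
    push_cast at hp
    try simp only [zero_div, div_one] at hp hc
    first
      | with_reducible exact absurd (sub_pos.1 hp) (not_lt.2 hc)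
      | with_reducible exact absurd hp (not_lt.2 (add_le_of_le_neg hc))
      | linarith

theorem r_t_two_0_0_2 {w : ℝ} (b1 : 1800 / 10000 ≤ w) (b2 : w ≤ 2000 / 10000) :
    -(11 / 50) < 1 * uu w 0 + (53 / 625) + (-37 / 250) * w - (uu (49 / 50) 0 - uu (4 / 5) 0 - uu w 0) - (-13 / 100) := by
  have h : chkT [add (sub (sub (add (add (mul (q 1 1) (E.uu QQ.w (q 0 1))) (q 53 625)) (mul (q (-37) 250) QQ.w)) (sub (sub (E.uu (q 49 50) (q 0 1)) (E.uu (q 4 5) (q 0 1))) (E.uu QQ.w (q 0 1)))) (q (-13) 100)) (q 11 50)] 30
    8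
    [NumIs.V.of 10000 1800 2000] = true := by
    decide +kernel
  obtain ⟨f, hf, hp⟩ := chkT_sound h (xs := [w])
    (List.Forall₂.cons (NumIs.V.of_mem (by norm_num) (le_trans (by norm_num) b1) (le_trans b2 (by norm_num))) List.Forall₂.nil)
  by_contra hc
  have hc := not_lt.1 hc
  simp only [List.mem_cons, List.not_mem_nil, or_false] at hf
  rcases hf with rfl
  · simp only [E.val, NumIs.lkR, QQ.t, QQ.k, QQ.w] at hp
    push_cast at hp
    try simp only [zero_div, div_one] at hp hc
    first
      | with_reducible exact absurd (sub_pos.1 hp) (not_lt.2 hc)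
      | with_reducible exact absurd hp (not_lt.2 (add_le_of_le_neg hc))
      | linarith

theorem r_t_twoE_0_0_0 {w : ℝ} (b1 : 0 / 10000 ≤ w) (b2 : w ≤ 100 / 10000) :
    -(6 / 25) < 1 * uu (1 / 100) 0 + (309 / 2000) + (0 / 1) * w - (uu (4 / 5 + w) 0 - uu (4 / 5) 0 - uu (1 / 100) 0) - (-13 / 100) := by
  have h : chkT [add (sub (sub (add (add (mul (q 1 1) (E.uu (q 1 100) (q 0 1))) (q 309 2000)) (mul (q 0 1) QQ.w)) (sub (sub (E.uu (add (q 4 5) QQ.w) (q 0 1)) (E.uu (q 4 5) (q 0 1))) (E.uu (q 1 100) (q 0 1)))) (q (-13) 100)) (q 6 25)] 30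
    8
    [NumIs.V.of 10000 0 100] = true := by
    decide +kernel
  obtain ⟨f, hf, hp⟩ := chkT_sound h (xs := [w])
    (List.Forall₂.cons (NumIs.V.of_mem (by norm_num) (le_trans (by norm_num) b1) (le_trans b2 (by norm_num))) List.Forall₂.nil)
  by_contra hc
  have hc := not_lt.1 hc
  simp only [List.mem_cons, List.not_mem_nil, or_false] at hf
  rcases hf with rfl
  · simp only [E.val, NumIs.lkR, QQ.t, QQ.k, QQ.w] at hp
    push_cast at hp
    try simp only [zero_div, div_one] at hp hc
    first
      | with_reducible exact absurd (sub_pos.1 hp) (not_lt.2 hc)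
      | with_reducible exact absurd hp (not_lt.2 (add_le_of_le_neg hc))
      | linarith

theorem r_t_twoE_0_0_1 {w : ℝ} (b1 : 100 / 10000 ≤ w) (b2 : w ≤ 1800 / 10000) :
    -(6 / 25) < 1 * uu w 0 + (309 / 2000) + (0 / 1) * w - (uu (4 / 5 + w) 0 - uu (4 / 5) 0 - uu w 0) - (-13 / 100) := by
  have h : chkT [add (sub (sub (add (add (mul (q 1 1) (E.uu QQ.w (q 0 1))) (q 309 2000)) (mul (q 0 1) QQ.w)) (sub (sub (E.uu (add (q 4 5) QQ.w) (q 0 1)) (E.uu (q 4 5) (q 0 1))) (E.uu QQ.w (q 0 1)))) (q (-13) 100)) (q 6 25)] 30
    142641152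
    [NumIs.V.of 10000 100 1800] = true := by
    decide +kernel
  obtain ⟨f, hf, hp⟩ := chkT_sound h (xs := [w])
    (List.Forall₂.cons (NumIs.V.of_mem (by norm_num) (le_trans (by norm_num) b1) (le_trans b2 (by norm_num))) List.Forall₂.nil)
  by_contra hc
  have hc := not_lt.1 hc
  simp only [List.mem_cons, List.not_mem_nil, or_false] at hf
  rcases hf with rfl
  · simp only [E.val, NumIs.lkR, QQ.t, QQ.k, QQ.w] at hp
    push_cast at hp
    try simp only [zero_div, div_one] at hp hc
    first
      | with_reducible exact absurd (sub_pos.1 hp) (not_lt.2 hc)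
      | with_reducible exact absurd hp (not_lt.2 (add_le_of_le_neg hc))
      | linarith

theorem r_t_twoE_0_0_2 {w : ℝ} (b1 : 1800 / 10000 ≤ w) (b2 : w ≤ 2000 / 10000) :
    -(6 / 25) < 1 * uu w 0 + (309 / 2000) + (0 / 1) * w - (uu (49 / 50) 0 - uu (4 / 5) 0 - uu w 0) - (-13 / 100) := by
  have h : chkT [add (sub (sub (add (add (mul (q 1 1) (E.uu QQ.w (q 0 1))) (q 309 2000)) (mul (q 0 1) QQ.w)) (sub (sub (E.uu (q 49 50) (q 0 1)) (E.uu (q 4 5) (q 0 1))) (E.uu QQ.w (q 0 1)))) (q (-13) 100)) (q 6 25)] 30
    8
    [NumIs.V.of 10000 1800 2000] = true := by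
    decide +kernel
  obtain ⟨f, hf, hp⟩ := chkT_sound h (xs := [w])
    (List.Forall₂.cons (NumIs.V.of_mem (by norm_num) (le_trans (by norm_num) b1) (le_trans b2 (by norm_num))) List.Forall₂.nil)
  by_contra hc
  have hc := not_lt.1 hc
  simp only [List.mem_cons, List.not_mem_nil, or_false] at hf
  rcases hf with rfl
  · simp only [E.val, NumIs.lkR, QQ.t, QQ.k, QQ.w] at hp
    push_cast at hp
    try simp only [zero_div, div_one] at hp hc
    first
      | with_reducible exact absurd (sub_pos.1 hp) (not_lt.2 hc)
      | with_reducible exact absurd hp (not_lt.2 (add_le_of_le_neg hc))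
      | linarith

theorem r_t_threeA_0_0_0 {w : ℝ} (b1 : 0 / 10000 ≤ w) (b2 : w ≤ 100 / 10000) :
    -(97 / 1000) < 1 * uu (1 / 100) 0 + (62 / 625) + (-227 / 1000) * w - (uu (4 / 5 + w) 0 - uu (4 / 5) 0 - uu (1 / 100) 0) - (-13 / 100) := by
  have h : chkT [add (sub (sub (add (add (mul (q 1 1) (E.uu (q 1 100) (q 0 1))) (q 62 625)) (mul (q (-227) 1000) QQ.w)) (sub (sub (E.uu (add (q 4 5) QQ.w) (q 0 1)) (E.uu (q 4 5) (q 0 1))) (E.uu (q 1 100) (q 0 1)))) (q (-13) 100)) (q 97 1000)] 30
    8
    [NumIs.V.of 10000 0 100] = true := by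
    decide +kernel
  obtain ⟨f, hf, hp⟩ := chkT_sound h (xs := [w])
    (List.Forall₂.cons (NumIs.V.of_mem (by norm_num) (le_trans (by norm_num) b1) (le_trans b2 (by norm_num))) List.Forall₂.nil)
  by_contra hc
  have hc := not_lt.1 hc
  simp only [List.mem_cons, List.not_mem_nil, or_false] at hf
  rcases hf with rfl
  · simp only [E.val, NumIs.lkR, QQ.t, QQ.k, QQ.w] at hp
    push_cast at hp
    try simp only [zero_div, div_one] at hp hc
    first
      | with_reducible exact absurd (sub_pos.1 hp) (not_lt.2 hc)
      | with_reducible exact absurd hp (not_lt.2 (add_le_of_le_neg hc))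
      | linarith

theorem r_t_threeA_0_0_1 {w : ℝ} (b1 : 100 / 10000 ≤ w) (b2 : w ≤ 1600 / 10000) :
    -(97 / 1000) < 1 * uu w 0 + (62 / 625) + (-227 / 1000) * w - (uu (4 / 5 + w) 0 - uu (4 / 5) 0 - uu w 0) - (-13 / 100) := by
  have h : chkT [add (sub (sub (add (add (mul (q 1 1) (E.uu QQ.w (q 0 1))) (q 62 625)) (mul (q (-227) 1000) QQ.w)) (sub (sub (E.uu (add (q 4 5) QQ.w) (q 0 1)) (E.uu (q 4 5) (q 0 1))) (E.uu QQ.w (q 0 1)))) (q (-13) 100)) (q 97 1000)] 30
    36516167680
    [NumIs.V.of 10000 100 1600] = true := by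
    decide +kernel
  obtain ⟨f, hf, hp⟩ := chkT_sound h (xs := [w])
    (List.Forall₂.cons (NumIs.V.of_mem (by norm_num) (le_trans (by norm_num) b1) (le_trans b2 (by norm_num))) List.Forall₂.nil)
  by_contra hc
  have hc := not_lt.1 hc
  simp only [List.mem_cons, List.not_mem_nil, or_false] at hf
  rcases hf with rfl
  · simp only [E.val, NumIs.lkR, QQ.t, QQ.k, QQ.w] at hp
    push_cast at hp
    try simp only [zero_div, div_one] at hp hc
    first
      | with_reducible exact absurd (sub_pos.1 hp) (not_lt.2 hc)
      | with_reducible exact absurd hp (not_lt.2 (add_le_of_le_neg hc))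
      | linarith

theorem r_t_threeA_1_0_0 {w : ℝ} (b1 : 1600 / 10000 ≤ w) (b2 : w ≤ 1800 / 10000) :
    -(13 / 200) < 1 * uu w 0 + (1289 / 5000) + (-553 / 500) * w - (uu (4 / 5 + w) 0 - uu (4 / 5) 0 - uu w 0) - (-13 / 100) := by
  have h : chkT [add (sub (sub (add (add (mul (q 1 1) (E.uu QQ.w (q 0 1))) (q 1289 5000)) (mul (q (-553) 500) QQ.w)) (sub (sub (E.uu (add (q 4 5) QQ.w) (q 0 1)) (E.uu (q 4 5) (q 0 1))) (E.uu QQ.w (q 0 1)))) (q (-13) 100)) (q 13 200)] 30
    8
    [NumIs.V.of 10000 1600 1800] = true := by
    decide +kernel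
  obtain ⟨f, hf, hp⟩ := chkT_sound h (xs := [w])
    (List.Forall₂.cons (NumIs.V.of_mem (by norm_num) (le_trans (by norm_num) b1) (le_trans b2 (by norm_num))) List.Forall₂.nil)
  by_contra hc
  have hc := not_lt.1 hc
  simp only [List.mem_cons, List.not_mem_nil, or_false] at hf
  rcases hf with rfl
  · simp only [E.val, NumIs.lkR, QQ.t, QQ.k, QQ.w] at hp
    push_cast at hp
    try simp only [zero_div, div_one] at hp hc
    first
      | with_reducible exact absurd (sub_pos.1 hp) (not_lt.2 hc)
      | with_reducible exact absurd hp (not_lt.2 (add_le_of_le_neg hc))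
      | linarith

theorem r_t_threeA_1_0_1 {w : ℝ} (b1 : 1800 / 10000 ≤ w) (b2 : w ≤ 2000 / 10000) :
    -(13 / 200) < 1 * uu w 0 + (1289 / 5000) + (-553 / 500) * w - (uu (49 / 50) 0 - uu (4 / 5) 0 - uu w 0) - (-13 / 100) := by
  have h : chkT [add (sub (sub (add (add (mul (q 1 1) (E.uu QQ.w (q 0 1))) (q 1289 5000)) (mul (q (-553) 500) QQ.w)) (sub (sub (E.uu (q 49 50) (q 0 1)) (E.uu (q 4 5) (q 0 1))) (E.uu QQ.w (q 0 1)))) (q (-13) 100)) (q 13 200)] 30
    8
    [NumIs.V.of 10000 1800 2000] = true := by
    decide +kernel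
  obtain ⟨f, hf, hp⟩ := chkT_sound h (xs := [w])
    (List.Forall₂.cons (NumIs.V.of_mem (by norm_num) (le_trans (by norm_num) b1) (le_trans b2 (by norm_num))) List.Forall₂.nil)
  by_contra hc
  have hc := not_lt.1 hc
  simp only [List.mem_cons, List.not_mem_nil, or_false] at hf
  rcases hf with rfl
  · simp only [E.val, NumIs.lkR, QQ.t, QQ.k, QQ.w] at hp
    push_cast at hp
    try simp only [zero_div, div_one] at hp hc
    first
      | with_reducible exact absurd (sub_pos.1 hp) (not_lt.2 hc)
      | with_reducible exact absurd hp (not_lt.2 (add_le_of_le_neg hc))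
      | linarith

theorem r_t_threeK_0_0_0 {w : ℝ} (b1 : 0 / 10000 ≤ w) (b2 : w ≤ 100 / 10000) :
    -(4 / 25) < 1 * uu (1 / 100) 0 + (7 / 625) + (97 / 1000) * w - (uu (4 / 5 + w) 0 - uu (4 / 5) 0 - uu (1 / 100) 0) - (-13 / 100) := by
  have h : chkT [add (sub (sub (add (add (mul (q 1 1) (E.uu (q 1 100) (q 0 1))) (q 7 625)) (mul (q 97 1000) QQ.w)) (sub (sub (E.uu (add (q 4 5) QQ.w) (q 0 1)) (E.uu (q 4 5) (q 0 1))) (E.uu (q 1 100) (q 0 1)))) (q (-13) 100)) (q 4 25)] 30
    8
    [NumIs.V.of 10000 0 100] = true := by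
    decide +kernel
  obtain ⟨f, hf, hp⟩ := chkT_sound h (xs := [w])
    (List.Forall₂.cons (NumIs.V.of_mem (by norm_num) (le_trans (by norm_num) b1) (le_trans b2 (by norm_num))) List.Forall₂.nil)
  by_contra hc
  have hc := not_lt.1 hc
  simp only [List.mem_cons, List.not_mem_nil, or_false] at hf
  rcases hf with rfl
  · simp only [E.val, NumIs.lkR, QQ.t, QQ.k, QQ.w] at hp
    push_cast at hp
    try simp only [zero_div, div_one] at hp hc
    first
      | with_reducible exact absurd (sub_pos.1 hp) (not_lt.2 hc)
      | with_reducible exact absurd hp (not_lt.2 (add_le_of_le_neg hc))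
      | linarith

theorem r_t_threeK_0_0_1 {w : ℝ} (b1 : 100 / 10000 ≤ w) (b2 : w ≤ 1800 / 10000) :
    -(4 / 25) < 1 * uu w 0 + (7 / 625) + (97 / 1000) * w - (uu (4 / 5 + w) 0 - uu (4 / 5) 0 - uu w 0) - (-13 / 100) := by
  have h : chkT [add (sub (sub (add (add (mul (q 1 1) (E.uu QQ.w (q 0 1))) (q 7 625)) (mul (q 97 1000) QQ.w)) (sub (sub (E.uu (add (q 4 5) QQ.w) (q 0 1)) (E.uu (q 4 5) (q 0 1))) (E.uu QQ.w (q 0 1)))) (q (-13) 100)) (q 4 25)] 30
    36516167680
    [NumIs.V.of 10000 100 1800] = true := by
    decide +kernel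
  obtain ⟨f, hf, hp⟩ := chkT_sound h (xs := [w])
    (List.Forall₂.cons (NumIs.V.of_mem (by norm_num) (le_trans (by norm_num) b1) (le_trans b2 (by norm_num))) List.Forall₂.nil)
  by_contra hc
  have hc := not_lt.1 hc
  simp only [List.mem_cons, List.not_mem_nil, or_false] at hf
  rcases hf with rfl
  · simp only [E.val, NumIs.lkR, QQ.t, QQ.k, QQ.w] at hp
    push_cast at hp
    try simp only [zero_div, div_one] at hp hc
    first
      | with_reducible exact absurd (sub_pos.1 hp) (not_lt.2 hc)
      | with_reducible exact absurd hp (not_lt.2 (add_le_of_le_neg hc))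
      | linarith

theorem r_t_threeK_0_0_2 {w : ℝ} (b1 : 1800 / 10000 ≤ w) (b2 : w ≤ 2000 / 10000) :
    -(4 / 25) < 1 * uu w 0 + (7 / 625) + (97 / 1000) * w - (uu (49 / 50) 0 - uu (4 / 5) 0 - uu w 0) - (-13 / 100) := by
  have h : chkT [add (sub (sub (add (add (mul (q 1 1) (E.uu QQ.w (q 0 1))) (q 7 625)) (mul (q 97 1000) QQ.w)) (sub (sub (E.uu (q 49 50) (q 0 1)) (E.uu (q 4 5) (q 0 1))) (E.uu QQ.w (q 0 1)))) (q (-13) 100)) (q 4 25)] 30
    8
    [NumIs.V.of 10000 1800 2000] = true := by
    decide +kernel
  obtain ⟨f, hf, hp⟩ := chkT_sound h (xs := [w])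
    (List.Forall₂.cons (NumIs.V.of_mem (by norm_num) (le_trans (by norm_num) b1) (le_trans b2 (by norm_num))) List.Forall₂.nil)
  by_contra hc
  have hc := not_lt.1 hc
  simp only [List.mem_cons, List.not_mem_nil, or_false] at hf
  rcases hf with rfl
  · simp only [E.val, NumIs.lkR, QQ.t, QQ.k, QQ.w] at hp
    push_cast at hp
    try simp only [zero_div, div_one] at hp hc
    first
      | with_reducible exact absurd (sub_pos.1 hp) (not_lt.2 hc)
      | with_reducible exact absurd hp (not_lt.2 (add_le_of_le_neg hc))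
      | linarith

theorem r_t_threeE_0_0_0 {w : ℝ} (b1 : 0 / 10000 ≤ w) (b2 : w ≤ 100 / 10000) :
    -(9 / 50) < 1 * uu (1 / 100) 0 + (269 / 2000) + (0 / 1) * w - (uu (4 / 5 + w) 0 - uu (4 / 5) 0 - uu (1 / 100) 0) - (-13 / 100) := by
  have h : chkT [add (sub (sub (add (add (mul (q 1 1) (E.uu (q 1 100) (q 0 1))) (q 269 2000)) (mul (q 0 1) QQ.w)) (sub (sub (E.uu (add (q 4 5) QQ.w) (q 0 1)) (E.uu (q 4 5) (q 0 1))) (E.uu (q 1 100) (q 0 1)))) (q (-13) 100)) (q 9 50)] 30
    8
    [NumIs.V.of 10000 0 100] = true := by
    decide +kernel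
  obtain ⟨f, hf, hp⟩ := chkT_sound h (xs := [w])
    (List.Forall₂.cons (NumIs.V.of_mem (by norm_num) (le_trans (by norm_num) b1) (le_trans b2 (by norm_num))) List.Forall₂.nil)
  by_contra hc
  have hc := not_lt.1 hc
  simp only [List.mem_cons, List.not_mem_nil, or_false] at hf
  rcases hf with rfl
  · simp only [E.val, NumIs.lkR, QQ.t, QQ.k, QQ.w] at hp
    push_cast at hp
    try simp only [zero_div, div_one] at hp hc
    first
      | with_reducible exact absurd (sub_pos.1 hp) (not_lt.2 hc)
      | with_reducible exact absurd hp (not_lt.2 (add_le_of_le_neg hc))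
      | linarith

theorem r_t_threeE_0_0_1 {w : ℝ} (b1 : 100 / 10000 ≤ w) (b2 : w ≤ 1800 / 10000) :
    -(9 / 50) < 1 * uu w 0 + (269 / 2000) + (0 / 1) * w - (uu (4 / 5 + w) 0 - uu (4 / 5) 0 - uu w 0) - (-13 / 100) := by
  have h : chkT [add (sub (sub (add (add (mul (q 1 1) (E.uu QQ.w (q 0 1))) (q 269 2000)) (mul (q 0 1) QQ.w)) (sub (sub (E.uu (add (q 4 5) QQ.w) (q 0 1)) (E.uu (q 4 5) (q 0 1))) (E.uu QQ.w (q 0 1)))) (q (-13) 100)) (q 9 50)] 30
    142641152
    [NumIs.V.of 10000 100 1800] = true := by
    decide +kernel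
  obtain ⟨f, hf, hp⟩ := chkT_sound h (xs := [w])
    (List.Forall₂.cons (NumIs.V.of_mem (by norm_num) (le_trans (by norm_num) b1) (le_trans b2 (by norm_num))) List.Forall₂.nil)
  by_contra hc
  have hc := not_lt.1 hc
  simp only [List.mem_cons, List.not_mem_nil, or_false] at hf
  rcases hf with rfl
  · simp only [E.val, NumIs.lkR, QQ.t, QQ.k, QQ.w] at hp
    push_cast at hp
    try simp only [zero_div, div_one] at hp hc
    first
      | with_reducible exact absurd (sub_pos.1 hp) (not_lt.2 hc)
      | with_reducible exact absurd hp (not_lt.2 (add_le_of_le_neg hc))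
      | linarith

theorem r_t_threeE_0_0_2 {w : ℝ} (b1 : 1800 / 10000 ≤ w) (b2 : w ≤ 2000 / 10000) :
    -(9 / 50) < 1 * uu w 0 + (269 / 2000) + (0 / 1) * w - (uu (49 / 50) 0 - uu (4 / 5) 0 - uu w 0) - (-13 / 100) := by
  have h : chkT [add (sub (sub (add (add (mul (q 1 1) (E.uu QQ.w (q 0 1))) (q 269 2000)) (mul (q 0 1) QQ.w)) (sub (sub (E.uu (q 49 50) (q 0 1)) (E.uu (q 4 5) (q 0 1))) (E.uu QQ.w (q 0 1)))) (q (-13) 100)) (q 9 50)] 30
    8
    [NumIs.V.of 10000 1800 2000] = true := by
    decide +kernel
  obtain ⟨f, hf, hp⟩ := chkT_sound h (xs := [w])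
    (List.Forall₂.cons (NumIs.V.of_mem (by norm_num) (le_trans (by norm_num) b1) (le_trans b2 (by norm_num))) List.Forall₂.nil)
  by_contra hc
  have hc := not_lt.1 hc
  simp only [List.mem_cons, List.not_mem_nil, or_false] at hf
  rcases hf with rfl
  · simp only [E.val, NumIs.lkR, QQ.t, QQ.k, QQ.w] at hp
    push_cast at hp
    try simp only [zero_div, div_one] at hp hc
    first
      | with_reducible exact absurd (sub_pos.1 hp) (not_lt.2 hc)
      | with_reducible exact absurd hp (not_lt.2 (add_le_of_le_neg hc))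
      | linarith

theorem r_t_ring_0_0_0 {w : ℝ} (b1 : 0 / 10000 ≤ w) (b2 : w ≤ 100 / 10000) :
    -(7 / 40) < 1 * uu (1 / 100) 0 + (-67 / 1250) + (543 / 1000) * w - (uu (4 / 5 + w) 0 - uu (4 / 5) 0 - uu (1 / 100) 0) - (-13 / 100) := by
  have h : chkT [add (sub (sub (add (add (mul (q 1 1) (E.uu (q 1 100) (q 0 1))) (q (-67) 1250)) (mul (q 543 1000) QQ.w)) (sub (sub (E.uu (add (q 4 5) QQ.w) (q 0 1)) (E.uu (q 4 5) (q 0 1))) (E.uu (q 1 100) (q 0 1)))) (q (-13) 100)) (q 7 40)] 30
    8
    [NumIs.V.of 10000 0 100] = true := by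
    decide +kernel
  obtain ⟨f, hf, hp⟩ := chkT_sound h (xs := [w])
    (List.Forall₂.cons (NumIs.V.of_mem (by norm_num) (le_trans (by norm_num) b1) (le_trans b2 (by norm_num))) List.Forall₂.nil)
  by_contra hc
  have hc := not_lt.1 hc
  simp only [List.mem_cons, List.not_mem_nil, or_false] at hf
  rcases hf with rfl
  · simp only [E.val, NumIs.lkR, QQ.t, QQ.k, QQ.w] at hp
    push_cast at hp
    try simp only [zero_div, div_one] at hp hc
    first
      | with_reducible exact absurd (sub_pos.1 hp) (not_lt.2 hc)
      | with_reducible exact absurd hp (not_lt.2 (add_le_of_le_neg hc))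
      | linarith

theorem r_t_ring_0_0_1 {w : ℝ} (b1 : 100 / 10000 ≤ w) (b2 : w ≤ 1400 / 10000) :
    -(7 / 40) < 1 * uu w 0 + (-67 / 1250) + (543 / 1000) * w - (uu (4 / 5 + w) 0 - uu (4 / 5) 0 - uu w 0) - (-13 / 100) := by
  have h : chkT [add (sub (sub (add (add (mul (q 1 1) (E.uu QQ.w (q 0 1))) (q (-67) 1250)) (mul (q 543 1000) QQ.w)) (sub (sub (E.uu (add (q 4 5) QQ.w) (q 0 1)) (E.uu (q 4 5) (q 0 1))) (E.uu QQ.w (q 0 1)))) (q (-13) 100)) (q 7 40)] 30
    142641152
    [NumIs.V.of 10000 100 1400] = true := by
    decide +kernel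
  obtain ⟨f, hf, hp⟩ := chkT_sound h (xs := [w])
    (List.Forall₂.cons (NumIs.V.of_mem (by norm_num) (le_trans (by norm_num) b1) (le_trans b2 (by norm_num))) List.Forall₂.nil)
  by_contra hc
  have hc := not_lt.1 hc
  simp only [List.mem_cons, List.not_mem_nil, or_false] at hf
  rcases hf with rfl
  · simp only [E.val, NumIs.lkR, QQ.t, QQ.k, QQ.w] at hp
    push_cast at hp
    try simp only [zero_div, div_one] at hp hc
    first
      | with_reducible exact absurd (sub_pos.1 hp) (not_lt.2 hc)
      | with_reducible exact absurd hp (not_lt.2 (add_le_of_le_neg hc))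
      | linarith

theorem r_t_ring_1_0_0 {w : ℝ} (b1 : 1400 / 10000 ≤ w) (b2 : w ≤ 1800 / 10000) :
    -(18 / 125) < 1 * uu w 0 + (1291 / 10000) + (-18 / 25) * w - (uu (4 / 5 + w) 0 - uu (4 / 5) 0 - uu w 0) - (-13 / 100) := by
  have h : chkT [add (sub (sub (add (add (mul (q 1 1) (E.uu QQ.w (q 0 1))) (q 1291 10000)) (mul (q (-18) 25) QQ.w)) (sub (sub (E.uu (add (q 4 5) QQ.w) (q 0 1)) (E.uu (q 4 5) (q 0 1))) (E.uu QQ.w (q 0 1)))) (q (-13) 100)) (q 18 125)] 30
    8
    [NumIs.V.of 10000 1400 1800] = true := by
    decide +kernel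
  obtain ⟨f, hf, hp⟩ := chkT_sound h (xs := [w])
    (List.Forall₂.cons (NumIs.V.of_mem (by norm_num) (le_trans (by norm_num) b1) (le_trans b2 (by norm_num))) List.Forall₂.nil)
  by_contra hc
  have hc := not_lt.1 hc
  simp only [List.mem_cons, List.not_mem_nil, or_false] at hf
  rcases hf with rfl
  · simp only [E.val, NumIs.lkR, QQ.t, QQ.k, QQ.w] at hp
    push_cast at hp
    try simp only [zero_div, div_one] at hp hc
    first
      | with_reducible exact absurd (sub_pos.1 hp) (not_lt.2 hc)
      | with_reducible exact absurd hp (not_lt.2 (add_le_of_le_neg hc))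
      | linarith

theorem r_t_ring_1_0_1 {w : ℝ} (b1 : 1800 / 10000 ≤ w) (b2 : w ≤ 2000 / 10000) :
    -(18 / 125) < 1 * uu w 0 + (1291 / 10000) + (-18 / 25) * w - (uu (49 / 50) 0 - uu (4 / 5) 0 - uu w 0) - (-13 / 100) := by
  have h : chkT [add (sub (sub (add (add (mul (q 1 1) (E.uu QQ.w (q 0 1))) (q 1291 10000)) (mul (q (-18) 25) QQ.w)) (sub (sub (E.uu (q 49 50) (q 0 1)) (E.uu (q 4 5) (q 0 1))) (E.uu QQ.w (q 0 1)))) (q (-13) 100)) (q 18 125)] 30
    8
    [NumIs.V.of 10000 1800 2000] = true := by
    decide +kernel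
  obtain ⟨f, hf, hp⟩ := chkT_sound h (xs := [w])
    (List.Forall₂.cons (NumIs.V.of_mem (by norm_num) (le_trans (by norm_num) b1) (le_trans b2 (by norm_num))) List.Forall₂.nil)
  by_contra hc
  have hc := not_lt.1 hc
  simp only [List.mem_cons, List.not_mem_nil, or_false] at hf
  rcases hf with rfl
  · simp only [E.val, NumIs.lkR, QQ.t, QQ.k, QQ.w] at hp
    push_cast at hp
    try simp only [zero_div, div_one] at hp hc
    first
      | with_reducible exact absurd (sub_pos.1 hp) (not_lt.2 hc)
      | with_reducible exact absurd hp (not_lt.2 (add_le_of_le_neg hc))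
      | linarith

theorem r_t_touched_0_0_0 {w : ℝ} (b1 : 0 / 10000 ≤ w) (b2 : w ≤ 100 / 10000) :
    -(11 / 50) < 0 * uu (1 / 100) 0 + (0 / 1) + (0 / 1) * w - (uu (4 / 5 + w) 0 - uu (4 / 5) 0 - uu (1 / 100) 0) - (-13 / 100) := by
  have h : chkT [add (sub (sub (add (add (mul (q 0 1) (E.uu (q 1 100) (q 0 1))) (q 0 1)) (mul (q 0 1) QQ.w)) (sub (sub (E.uu (add (q 4 5) QQ.w) (q 0 1)) (E.uu (q 4 5) (q 0 1))) (E.uu (q 1 100) (q 0 1)))) (q (-13) 100)) (q 11 50)] 30
    8
    [NumIs.V.of 10000 0 100] = true := by
    decide +kernel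
  obtain ⟨f, hf, hp⟩ := chkT_sound h (xs := [w])
    (List.Forall₂.cons (NumIs.V.of_mem (by norm_num) (le_trans (by norm_num) b1) (le_trans b2 (by norm_num))) List.Forall₂.nil)
  by_contra hc
  have hc := not_lt.1 hc
  simp only [List.mem_cons, List.not_mem_nil, or_false] at hf
  rcases hf with rfl
  · simp only [E.val, NumIs.lkR, QQ.t, QQ.k, QQ.w] at hp
    push_cast at hp
    try simp only [zero_div, div_one] at hp hc
    first
      | with_reducible exact absurd (sub_pos.1 hp) (not_lt.2 hc)
      | with_reducible exact absurd hp (not_lt.2 (add_le_of_le_neg hc))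
      | linarith

theorem r_t_touched_0_0_1 {w : ℝ} (b1 : 100 / 10000 ≤ w) (b2 : w ≤ 1800 / 10000) :
    -(11 / 50) < 0 * uu w 0 + (0 / 1) + (0 / 1) * w - (uu (4 / 5 + w) 0 - uu (4 / 5) 0 - uu w 0) - (-13 / 100) := by
  have h : chkT [add (sub (sub (add (add (mul (q 0 1) (E.uu QQ.w (q 0 1))) (q 0 1)) (mul (q 0 1) QQ.w)) (sub (sub (E.uu (add (q 4 5) QQ.w) (q 0 1)) (E.uu (q 4 5) (q 0 1))) (E.uu QQ.w (q 0 1)))) (q (-13) 100)) (q 11 50)] 30
    142641152
    [NumIs.V.of 10000 100 1800] = true := by
    decide +kernel
  obtain ⟨f, hf, hp⟩ := chkT_sound h (xs := [w])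
    (List.Forall₂.cons (NumIs.V.of_mem (by norm_num) (le_trans (by norm_num) b1) (le_trans b2 (by norm_num))) List.Forall₂.nil)
  by_contra hc
  have hc := not_lt.1 hc
  simp only [List.mem_cons, List.not_mem_nil, or_false] at hf
  rcases hf with rfl
  · simp only [E.val, NumIs.lkR, QQ.t, QQ.k, QQ.w] at hp
    push_cast at hp
    try simp only [zero_div, div_one] at hp hc
    first
      | with_reducible exact absurd (sub_pos.1 hp) (not_lt.2 hc)
      | with_reducible exact absurd hp (not_lt.2 (add_le_of_le_neg hc))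
      | linarith

theorem r_t_touched_0_0_2 {w : ℝ} (b1 : 1800 / 10000 ≤ w) (b2 : w ≤ 2000 / 10000) :
    -(11 / 50) < 0 * uu w 0 + (0 / 1) + (0 / 1) * w - (uu (49 / 50) 0 - uu (4 / 5) 0 - uu w 0) - (-13 / 100) := by
  have h : chkT [add (sub (sub (add (add (mul (q 0 1) (E.uu QQ.w (q 0 1))) (q 0 1)) (mul (q 0 1) QQ.w)) (sub (sub (E.uu (q 49 50) (q 0 1)) (E.uu (q 4 5) (q 0 1))) (E.uu QQ.w (q 0 1)))) (q (-13) 100)) (q 11 50)] 30
    8
    [NumIs.V.of 10000 1800 2000] = true := by
    decide +kernel
  obtain ⟨f, hf, hp⟩ := chkT_sound h (xs := [w])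
    (List.Forall₂.cons (NumIs.V.of_mem (by norm_num) (le_trans (by norm_num) b1) (le_trans b2 (by norm_num))) List.Forall₂.nil)
  by_contra hc
  have hc := not_lt.1 hc
  simp only [List.mem_cons, List.not_mem_nil, or_false] at hf
  rcases hf with rfl
  · simp only [E.val, NumIs.lkR, QQ.t, QQ.k, QQ.w] at hp
    push_cast at hp
    try simp only [zero_div, div_one] at hp hc
    first
      | with_reducible exact absurd (sub_pos.1 hp) (not_lt.2 hc)
      | with_reducible exact absurd hp (not_lt.2 (add_le_of_le_neg hc))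
      | linarith

theorem r_e_one_0_0_0 {w : ℝ} (b1 : 0 / 10000 ≤ w) (b2 : w ≤ 100 / 10000) :
    -(21 / 100) < 0 * uu (1 / 100) 0 + (-11 / 1000) + (0 / 1) * w - (uu (7 / 10 + w) 0 - uu (7 / 10) 0 - uu (1 / 100) 0) - (-9 / 40) := by
  have h : chkT [add (sub (sub (add (add (mul (q 0 1) (E.uu (q 1 100) (q 0 1))) (q (-11) 1000)) (mul (q 0 1) QQ.w)) (sub (sub (E.uu (add (q 7 10) QQ.w) (q 0 1)) (E.uu (q 7 10) (q 0 1))) (E.uu (q 1 100) (q 0 1)))) (q (-9) 40)) (q 21 100)] 30
    8
    [NumIs.V.of 10000 0 100] = true := by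
    decide +kernel
  obtain ⟨f, hf, hp⟩ := chkT_sound h (xs := [w])
    (List.Forall₂.cons (NumIs.V.of_mem (by norm_num) (le_trans (by norm_num) b1) (le_trans b2 (by norm_num))) List.Forall₂.nil)
  by_contra hc
  have hc := not_lt.1 hc
  simp only [List.mem_cons, List.not_mem_nil, or_false] at hf
  rcases hf with rfl
  · simp only [E.val, NumIs.lkR, QQ.t, QQ.k, QQ.w] at hp
    push_cast at hp
    try simp only [zero_div, div_one] at hp hc
    first
      | with_reducible exact absurd (sub_pos.1 hp) (not_lt.2 hc)
      | with_reducible exact absurd hp (not_lt.2 (add_le_of_le_neg hc))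
      | linarith

theorem r_e_one_0_0_1 {w : ℝ} (b1 : 100 / 10000 ≤ w) (b2 : w ≤ 1800 / 10000) :
    -(21 / 100) < 0 * uu w 0 + (-11 / 1000) + (0 / 1) * w - (uu (7 / 10 + w) 0 - uu (7 / 10) 0 - uu w 0) - (-9 / 40) := by
  have h : chkT [add (sub (sub (add (add (mul (q 0 1) (E.uu QQ.w (q 0 1))) (q (-11) 1000)) (mul (q 0 1) QQ.w)) (sub (sub (E.uu (add (q 7 10) QQ.w) (q 0 1)) (E.uu (q 7 10) (q 0 1))) (E.uu QQ.w (q 0 1)))) (q (-9) 40)) (q 21 100)] 30
    559104
    [NumIs.V.of 10000 100 1800] = true := by
    decide +kernel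
  obtain ⟨f, hf, hp⟩ := chkT_sound h (xs := [w])
    (List.Forall₂.cons (NumIs.V.of_mem (by norm_num) (le_trans (by norm_num) b1) (le_trans b2 (by norm_num))) List.Forall₂.nil)
  by_contra hc
  have hc := not_lt.1 hc
  simp only [List.mem_cons, List.not_mem_nil, or_false] at hf
  rcases hf with rfl
  · simp only [E.val, NumIs.lkR, QQ.t, QQ.k, QQ.w] at hp
    push_cast at hp
    try simp only [zero_div, div_one] at hp hc
    first
      | with_reducible exact absurd (sub_pos.1 hp) (not_lt.2 hc)
      | with_reducible exact absurd hp (not_lt.2 (add_le_of_le_neg hc))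
      | linarith

theorem r_e_one_0_1_0 {w : ℝ} (b1 : 0 / 10000 ≤ w) (b2 : w ≤ 100 / 10000) :
    -(21 / 100) < 0 * uu (1 / 100) 0 + (-11 / 1000) + (0 / 1) * w - (uu (19 / 20 + w) 0 - uu (19 / 20) 0 - uu (1 / 100) 0) - (-1 / 10) := by
  have h : chkT [add (sub (sub (add (add (mul (q 0 1) (E.uu (q 1 100) (q 0 1))) (q (-11) 1000)) (mul (q 0 1) QQ.w)) (sub (sub (E.uu (add (q 19 20) QQ.w) (q 0 1)) (E.uu (q 19 20) (q 0 1))) (E.uu (q 1 100) (q 0 1)))) (q (-1) 10)) (q 21 100)] 30
    8
    [NumIs.V.of 10000 0 100] = true := by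
    decide +kernel
  obtain ⟨f, hf, hp⟩ := chkT_sound h (xs := [w])
    (List.Forall₂.cons (NumIs.V.of_mem (by norm_num) (le_trans (by norm_num) b1) (le_trans b2 (by norm_num))) List.Forall₂.nil)
  by_contra hc
  have hc := not_lt.1 hc
  simp only [List.mem_cons, List.not_mem_nil, or_false] at hf
  rcases hf with rfl
  · simp only [E.val, NumIs.lkR, QQ.t, QQ.k, QQ.w] at hp
    push_cast at hp
    try simp only [zero_div, div_one] at hp hc
    first
      | with_reducible exact absurd (sub_pos.1 hp) (not_lt.2 hc)
      | with_reducible exact absurd hp (not_lt.2 (add_le_of_le_neg hc))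
      | linarith

theorem r_e_one_0_1_1 {w : ℝ} (b1 : 100 / 10000 ≤ w) (b2 : w ≤ 400 / 10000) :
    -(21 / 100) < 0 * uu w 0 + (-11 / 1000) + (0 / 1) * w - (uu (19 / 20 + w) 0 - uu (19 / 20) 0 - uu w 0) - (-1 / 10) := by
  have h : chkT [add (sub (sub (add (add (mul (q 0 1) (E.uu QQ.w (q 0 1))) (q (-11) 1000)) (mul (q 0 1) QQ.w)) (sub (sub (E.uu (add (q 19 20) QQ.w) (q 0 1)) (E.uu (q 19 20) (q 0 1))) (E.uu QQ.w (q 0 1)))) (q (-1) 10)) (q 21 100)] 30
    8
    [NumIs.V.of 10000 100 400] = true := by
    decide +kernel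
  obtain ⟨f, hf, hp⟩ := chkT_sound h (xs := [w])
    (List.Forall₂.cons (NumIs.V.of_mem (by norm_num) (le_trans (by norm_num) b1) (le_trans b2 (by norm_num))) List.Forall₂.nil)
  by_contra hc
  have hc := not_lt.1 hc
  simp only [List.mem_cons, List.not_mem_nil, or_false] at hf
  rcases hf with rfl
  · simp only [E.val, NumIs.lkR, QQ.t, QQ.k, QQ.w] at hp
    push_cast at hp
    try simp only [zero_div, div_one] at hp hc
    first
      | with_reducible exact absurd (sub_pos.1 hp) (not_lt.2 hc)
      | with_reducible exact absurd hp (not_lt.2 (add_le_of_le_neg hc))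
      | linarith

theorem r_e_one_0_1_2 {w : ℝ} (b1 : 400 / 10000 ≤ w) (b2 : w ≤ 500 / 10000) :
    -(21 / 100) < 0 * uu w 0 + (-11 / 1000) + (0 / 1) * w - (uu (99 / 100) 0 - uu (19 / 20) 0 - uu w 0) - (-1 / 10) := by
  have h : chkT [add (sub (sub (add (add (mul (q 0 1) (E.uu QQ.w (q 0 1))) (q (-11) 1000)) (mul (q 0 1) QQ.w)) (sub (sub (E.uu (q 99 100) (q 0 1)) (E.uu (q 19 20) (q 0 1))) (E.uu QQ.w (q 0 1)))) (q (-1) 10)) (q 21 100)] 30
    8
    [NumIs.V.of 10000 400 500] = true := by
    decide +kernel
  obtain ⟨f, hf, hp⟩ := chkT_sound h (xs := [w])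
    (List.Forall₂.cons (NumIs.V.of_mem (by norm_num) (le_trans (by norm_num) b1) (le_trans b2 (by norm_num))) List.Forall₂.nil)
  by_contra hc
  have hc := not_lt.1 hc
  simp only [List.mem_cons, List.not_mem_nil, or_false] at hf
  rcases hf with rfl
  · simp only [E.val, NumIs.lkR, QQ.t, QQ.k, QQ.w] at hp
    push_cast at hp
    try simp only [zero_div, div_one] at hp hc
    first
      | with_reducible exact absurd (sub_pos.1 hp) (not_lt.2 hc)
      | with_reducible exact absurd hp (not_lt.2 (add_le_of_le_neg hc))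
      | linarith

theorem r_e_one_1_0_0 {w : ℝ} (b1 : 0 / 10000 ≤ w) (b2 : w ≤ 100 / 10000) :
    -(21 / 100) < 1 * uu (1 / 100) 0 + (-163 / 5000) + (779 / 1000) * w - (uu (7 / 10 + w) 0 - uu (7 / 10) 0 - uu (1 / 100) 0) - (-9 / 40) := by
  have h : chkT [add (sub (sub (add (add (mul (q 1 1) (E.uu (q 1 100) (q 0 1))) (q (-163) 5000)) (mul (q 779 1000) QQ.w)) (sub (sub (E.uu (add (q 7 10) QQ.w) (q 0 1)) (E.uu (q 7 10) (q 0 1))) (E.uu (q 1 100) (q 0 1)))) (q (-9) 40)) (q 21 100)] 30
    8
    [NumIs.V.of 10000 0 100] = true := by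
    decide +kernel
  obtain ⟨f, hf, hp⟩ := chkT_sound h (xs := [w])
    (List.Forall₂.cons (NumIs.V.of_mem (by norm_num) (le_trans (by norm_num) b1) (le_trans b2 (by norm_num))) List.Forall₂.nil)
  by_contra hc
  have hc := not_lt.1 hc
  simp only [List.mem_cons, List.not_mem_nil, or_false] at hf
  rcases hf with rfl
  · simp only [E.val, NumIs.lkR, QQ.t, QQ.k, QQ.w] at hp
    push_cast at hp
    try simp only [zero_div, div_one] at hp hc
    first
      | with_reducible exact absurd (sub_pos.1 hp) (not_lt.2 hc)
      | with_reducible exact absurd hp (not_lt.2 (add_le_of_le_neg hc))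
      | linarith

theorem r_e_one_1_0_1 {w : ℝ} (b1 : 100 / 10000 ≤ w) (b2 : w ≤ 1800 / 10000) :
    -(21 / 100) < 1 * uu w 0 + (-163 / 5000) + (779 / 1000) * w - (uu (7 / 10 + w) 0 - uu (7 / 10) 0 - uu w 0) - (-9 / 40) := by
  have h : chkT [add (sub (sub (add (add (mul (q 1 1) (E.uu QQ.w (q 0 1))) (q (-163) 5000)) (mul (q 779 1000) QQ.w)) (sub (sub (E.uu (add (q 7 10) QQ.w) (q 0 1)) (E.uu (q 7 10) (q 0 1))) (E.uu QQ.w (q 0 1)))) (q (-9) 40)) (q 21 100)] 30
    143163392
    [NumIs.V.of 10000 100 1800] = true := by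
    decide +kernel
  obtain ⟨f, hf, hp⟩ := chkT_sound h (xs := [w])
    (List.Forall₂.cons (NumIs.V.of_mem (by norm_num) (le_trans (by norm_num) b1) (le_trans b2 (by norm_num))) List.Forall₂.nil)
  by_contra hc
  have hc := not_lt.1 hc
  simp only [List.mem_cons, List.not_mem_nil, or_false] at hf
  rcases hf with rfl
  · simp only [E.val, NumIs.lkR, QQ.t, QQ.k, QQ.w] at hp
    push_cast at hp
    try simp only [zero_div, div_one] at hp hc
    first
      | with_reducible exact absurd (sub_pos.1 hp) (not_lt.2 hc)
      | with_reducible exact absurd hp (not_lt.2 (add_le_of_le_neg hc))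
      | linarith

theorem r_e_one_1_1_0 {w : ℝ} (b1 : 0 / 10000 ≤ w) (b2 : w ≤ 100 / 10000) :
    -(21 / 100) < 1 * uu (1 / 100) 0 + (-163 / 5000) + (779 / 1000) * w - (uu (19 / 20 + w) 0 - uu (19 / 20) 0 - uu (1 / 100) 0) - (-1 / 10) := by
  have h : chkT [add (sub (sub (add (add (mul (q 1 1) (E.uu (q 1 100) (q 0 1))) (q (-163) 5000)) (mul (q 779 1000) QQ.w)) (sub (sub (E.uu (add (q 19 20) QQ.w) (q 0 1)) (E.uu (q 19 20) (q 0 1))) (E.uu (q 1 100) (q 0 1)))) (q (-1) 10)) (q 21 100)] 30
    8
    [NumIs.V.of 10000 0 100] = true := by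
    decide +kernel
  obtain ⟨f, hf, hp⟩ := chkT_sound h (xs := [w])
    (List.Forall₂.cons (NumIs.V.of_mem (by norm_num) (le_trans (by norm_num) b1) (le_trans b2 (by norm_num))) List.Forall₂.nil)
  by_contra hc
  have hc := not_lt.1 hc
  simp only [List.mem_cons, List.not_mem_nil, or_false] at hf
  rcases hf with rfl
  · simp only [E.val, NumIs.lkR, QQ.t, QQ.k, QQ.w] at hp
    push_cast at hp
    try simp only [zero_div, div_one] at hp hc
    first
      | with_reducible exact absurd (sub_pos.1 hp) (not_lt.2 hc)
      | with_reducible exact absurd hp (not_lt.2 (add_le_of_le_neg hc))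
      | linarith

theorem r_e_one_1_1_1 {w : ℝ} (b1 : 100 / 10000 ≤ w) (b2 : w ≤ 400 / 10000) :
    -(21 / 100) < 1 * uu w 0 + (-163 / 5000) + (779 / 1000) * w - (uu (19 / 20 + w) 0 - uu (19 / 20) 0 - uu w 0) - (-1 / 10) := by
  have h : chkT [add (sub (sub (add (add (mul (q 1 1) (E.uu QQ.w (q 0 1))) (q (-163) 5000)) (mul (q 779 1000) QQ.w)) (sub (sub (E.uu (add (q 19 20) QQ.w) (q 0 1)) (E.uu (q 19 20) (q 0 1))) (E.uu QQ.w (q 0 1)))) (q (-1) 10)) (q 21 100)] 30
    8
    [NumIs.V.of 10000 100 400] = true := by
    decide +kernel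
  obtain ⟨f, hf, hp⟩ := chkT_sound h (xs := [w])
    (List.Forall₂.cons (NumIs.V.of_mem (by norm_num) (le_trans (by norm_num) b1) (le_trans b2 (by norm_num))) List.Forall₂.nil)
  by_contra hc
  have hc := not_lt.1 hc
  simp only [List.mem_cons, List.not_mem_nil, or_false] at hf
  rcases hf with rfl
  · simp only [E.val, NumIs.lkR, QQ.t, QQ.k, QQ.w] at hp
    push_cast at hp
    try simp only [zero_div, div_one] at hp hc
    first
      | with_reducible exact absurd (sub_pos.1 hp) (not_lt.2 hc)
      | with_reducible exact absurd hp (not_lt.2 (add_le_of_le_neg hc))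
      | linarith

theorem r_e_one_1_1_2 {w : ℝ} (b1 : 400 / 10000 ≤ w) (b2 : w ≤ 500 / 10000) :
    -(21 / 100) < 1 * uu w 0 + (-163 / 5000) + (779 / 1000) * w - (uu (99 / 100) 0 - uu (19 / 20) 0 - uu w 0) - (-1 / 10) := by
  have h : chkT [add (sub (sub (add (add (mul (q 1 1) (E.uu QQ.w (q 0 1))) (q (-163) 5000)) (mul (q 779 1000) QQ.w)) (sub (sub (E.uu (q 99 100) (q 0 1)) (E.uu (q 19 20) (q 0 1))) (E.uu QQ.w (q 0 1)))) (q (-1) 10)) (q 21 100)] 30
    8
    [NumIs.V.of 10000 400 500] = true := by
    decide +kernel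
  obtain ⟨f, hf, hp⟩ := chkT_sound h (xs := [w])
    (List.Forall₂.cons (NumIs.V.of_mem (by norm_num) (le_trans (by norm_num) b1) (le_trans b2 (by norm_num))) List.Forall₂.nil)
  by_contra hc
  have hc := not_lt.1 hc
  simp only [List.mem_cons, List.not_mem_nil, or_false] at hf
  rcases hf with rfl
  · simp only [E.val, NumIs.lkR, QQ.t, QQ.k, QQ.w] at hp
    push_cast at hp
    try simp only [zero_div, div_one] at hp hc
    first
      | with_reducible exact absurd (sub_pos.1 hp) (not_lt.2 hc)
      | with_reducible exact absurd hp (not_lt.2 (add_le_of_le_neg hc))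
      | linarith

theorem r_e_one_2_0_0 {w : ℝ} (b1 : 1800 / 10000 ≤ w) (b2 : w ≤ 2800 / 10000) :
    -(11 / 50) < 1 * uu w 0 + (164 / 625) + (-921 / 1000) * w - (uu (7 / 10 + w) 0 - uu (7 / 10) 0 - uu w 0) - (-9 / 40) := by
  have h : chkT [add (sub (sub (add (add (mul (q 1 1) (E.uu QQ.w (q 0 1))) (q 164 625)) (mul (q (-921) 1000) QQ.w)) (sub (sub (E.uu (add (q 7 10) QQ.w) (q 0 1)) (E.uu (q 7 10) (q 0 1))) (E.uu QQ.w (q 0 1)))) (q (-9) 40)) (q 11 50)] 30
    2176
    [NumIs.V.of 10000 1800 2800] = true := by
    decide +kernel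
  obtain ⟨f, hf, hp⟩ := chkT_sound h (xs := [w])
    (List.Forall₂.cons (NumIs.V.of_mem (by norm_num) (le_trans (by norm_num) b1) (le_trans b2 (by norm_num))) List.Forall₂.nil)
  by_contra hc
  have hc := not_lt.1 hc
  simp only [List.mem_cons, List.not_mem_nil, or_false] at hf
  rcases hf with rfl
  · simp only [E.val, NumIs.lkR, QQ.t, QQ.k, QQ.w] at hp
    push_cast at hp
    try simp only [zero_div, div_one] at hp hc
    first
      | with_reducible exact absurd (sub_pos.1 hp) (not_lt.2 hc)
      | with_reducible exact absurd hp (not_lt.2 (add_le_of_le_neg hc))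
      | linarith

theorem r_e_one_2_0_1 {w : ℝ} (b1 : 2800 / 10000 ≤ w) (b2 : w ≤ 3000 / 10000) :
    -(11 / 50) < 1 * uu w 0 + (164 / 625) + (-921 / 1000) * w - (uu (49 / 50) 0 - uu (7 / 10) 0 - uu w 0) - (-9 / 40) := by
  have h : chkT [add (sub (sub (add (add (mul (q 1 1) (E.uu QQ.w (q 0 1))) (q 164 625)) (mul (q (-921) 1000) QQ.w)) (sub (sub (E.uu (q 49 50) (q 0 1)) (E.uu (q 7 10) (q 0 1))) (E.uu QQ.w (q 0 1)))) (q (-9) 40)) (q 11 50)] 30
    8
    [NumIs.V.of 10000 2800 3000] = true := by
    decide +kernel
  obtain ⟨f, hf, hp⟩ := chkT_sound h (xs := [w])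
    (List.Forall₂.cons (NumIs.V.of_mem (by norm_num) (le_trans (by norm_num) b1) (le_trans b2 (by norm_num))) List.Forall₂.nil)
  by_contra hc
  have hc := not_lt.1 hc
  simp only [List.mem_cons, List.not_mem_nil, or_false] at hf
  rcases hf with rfl
  · simp only [E.val, NumIs.lkR, QQ.t, QQ.k, QQ.w] at hp
    push_cast at hp
    try simp only [zero_div, div_one] at hp hc
    first
      | with_reducible exact absurd (sub_pos.1 hp) (not_lt.2 hc)
      | with_reducible exact absurd hp (not_lt.2 (add_le_of_le_neg hc))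
      | linarith

theorem r_e_one_3_0_0 {w : ℝ} (b1 : 1800 / 10000 ≤ w) (b2 : w ≤ 2800 / 10000) :
    -(23 / 100) < 1 * uu w 0 + (1451 / 5000) + (-1021 / 1000) * w - (uu (7 / 10 + w) 0 - uu (7 / 10) 0 - uu w 0) - (-9 / 40) := by
  have h : chkT [add (sub (sub (add (add (mul (q 1 1) (E.uu QQ.w (q 0 1))) (q 1451 5000)) (mul (q (-1021) 1000) QQ.w)) (sub (sub (E.uu (add (q 7 10) QQ.w) (q 0 1)) (E.uu (q 7 10) (q 0 1))) (E.uu QQ.w (q 0 1)))) (q (-9) 40)) (q 23 100)] 30
    2176
    [NumIs.V.of 10000 1800 2800] = true := by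
    decide +kernel
  obtain ⟨f, hf, hp⟩ := chkT_sound h (xs := [w])
    (List.Forall₂.cons (NumIs.V.of_mem (by norm_num) (le_trans (by norm_num) b1) (le_trans b2 (by norm_num))) List.Forall₂.nil)
  by_contra hc
  have hc := not_lt.1 hc
  simp only [List.mem_cons, List.not_mem_nil, or_false] at hf
  rcases hf with rfl
  · simp only [E.val, NumIs.lkR, QQ.t, QQ.k, QQ.w] at hp
    push_cast at hp
    try simp only [zero_div, div_one] at hp hc
    first
      | with_reducible exact absurd (sub_pos.1 hp) (not_lt.2 hc)
      | with_reducible exact absurd hp (not_lt.2 (add_le_of_le_neg hc))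
      | linarith

theorem r_e_one_3_0_1 {w : ℝ} (b1 : 2800 / 10000 ≤ w) (b2 : w ≤ 3000 / 10000) :
    -(23 / 100) < 1 * uu w 0 + (1451 / 5000) + (-1021 / 1000) * w - (uu (49 / 50) 0 - uu (7 / 10) 0 - uu w 0) - (-9 / 40) := by
  have h : chkT [add (sub (sub (add (add (mul (q 1 1) (E.uu QQ.w (q 0 1))) (q 1451 5000)) (mul (q (-1021) 1000) QQ.w)) (sub (sub (E.uu (q 49 50) (q 0 1)) (E.uu (q 7 10) (q 0 1))) (E.uu QQ.w (q 0 1)))) (q (-9) 40)) (q 23 100)] 30
    8
    [NumIs.V.of 10000 2800 3000] = true := by
    decide +kernel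
  obtain ⟨f, hf, hp⟩ := chkT_sound h (xs := [w])
    (List.Forall₂.cons (NumIs.V.of_mem (by norm_num) (le_trans (by norm_num) b1) (le_trans b2 (by norm_num))) List.Forall₂.nil)
  by_contra hc
  have hc := not_lt.1 hc
  simp only [List.mem_cons, List.not_mem_nil, or_false] at hf
  rcases hf with rfl
  · simp only [E.val, NumIs.lkR, QQ.t, QQ.k, QQ.w] at hp
    push_cast at hp
    try simp only [zero_div, div_one] at hp hc
    first
      | with_reducible exact absurd (sub_pos.1 hp) (not_lt.2 hc)
      | with_reducible exact absurd hp (not_lt.2 (add_le_of_le_neg hc))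
      | linarith

theorem r_e_two_0_0_0 {w : ℝ} (b1 : 0 / 10000 ≤ w) (b2 : w ≤ 100 / 10000) :
    -(21 / 100) < 1 * uu (1 / 100) 0 + (53 / 625) + (-37 / 250) * w - (uu (7 / 10 + w) 0 - uu (7 / 10) 0 - uu (1 / 100) 0) - (-9 / 40) := by
  have h : chkT [add (sub (sub (add (add (mul (q 1 1) (E.uu (q 1 100) (q 0 1))) (q 53 625)) (mul (q (-37) 250) QQ.w)) (sub (sub (E.uu (add (q 7 10) QQ.w) (q 0 1)) (E.uu (q 7 10) (q 0 1))) (E.uu (q 1 100) (q 0 1)))) (q (-9) 40)) (q 21 100)] 30
    8
    [NumIs.V.of 10000 0 100] = true := by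
    decide +kernel
  obtain ⟨f, hf, hp⟩ := chkT_sound h (xs := [w])
    (List.Forall₂.cons (NumIs.V.of_mem (by norm_num) (le_trans (by norm_num) b1) (le_trans b2 (by norm_num))) List.Forall₂.nil)
  by_contra hc
  have hc := not_lt.1 hc
  simp only [List.mem_cons, List.not_mem_nil, or_false] at hf
  rcases hf with rfl
  · simp only [E.val, NumIs.lkR, QQ.t, QQ.k, QQ.w] at hp
    push_cast at hp
    try simp only [zero_div, div_one] at hp hc
    first
      | with_reducible exact absurd (sub_pos.1 hp) (not_lt.2 hc)
      | with_reducible exact absurd hp (not_lt.2 (add_le_of_le_neg hc))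
      | linarith

theorem r_e_two_0_0_1 {w : ℝ} (b1 : 100 / 10000 ≤ w) (b2 : w ≤ 2800 / 10000) :
    -(21 / 100) < 1 * uu w 0 + (53 / 625) + (-37 / 250) * w - (uu (7 / 10 + w) 0 - uu (7 / 10) 0 - uu w 0) - (-9 / 40) := by
  have h : chkT [add (sub (sub (add (add (mul (q 1 1) (E.uu QQ.w (q 0 1))) (q 53 625)) (mul (q (-37) 250) QQ.w)) (sub (sub (E.uu (add (q 7 10) QQ.w) (q 0 1)) (E.uu (q 7 10) (q 0 1))) (E.uu QQ.w (q 0 1)))) (q (-9) 40)) (q 21 100)] 30
    36516167680
    [NumIs.V.of 10000 100 2800] = true := by
    decide +kernel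
  obtain ⟨f, hf, hp⟩ := chkT_sound h (xs := [w])
    (List.Forall₂.cons (NumIs.V.of_mem (by norm_num) (le_trans (by norm_num) b1) (le_trans b2 (by norm_num))) List.Forall₂.nil)
  by_contra hc
  have hc := not_lt.1 hc
  simp only [List.mem_cons, List.not_mem_nil, or_false] at hf
  rcases hf with rfl
  · simp only [E.val, NumIs.lkR, QQ.t, QQ.k, QQ.w] at hp
    push_cast at hp
    try simp only [zero_div, div_one] at hp hc
    first
      | with_reducible exact absurd (sub_pos.1 hp) (not_lt.2 hc)
      | with_reducible exact absurd hp (not_lt.2 (add_le_of_le_neg hc))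
      | linarith

theorem r_e_two_0_0_2 {w : ℝ} (b1 : 2800 / 10000 ≤ w) (b2 : w ≤ 3000 / 10000) :
    -(21 / 100) < 1 * uu w 0 + (53 / 625) + (-37 / 250) * w - (uu (49 / 50) 0 - uu (7 / 10) 0 - uu w 0) - (-9 / 40) := by
  have h : chkT [add (sub (sub (add (add (mul (q 1 1) (E.uu QQ.w (q 0 1))) (q 53 625)) (mul (q (-37) 250) QQ.w)) (sub (sub (E.uu (q 49 50) (q 0 1)) (E.uu (q 7 10) (q 0 1))) (E.uu QQ.w (q 0 1)))) (q (-9) 40)) (q 21 100)] 30
    8
    [NumIs.V.of 10000 2800 3000] = true := by
    decide +kernel
  obtain ⟨f, hf, hp⟩ := chkT_sound h (xs := [w])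
    (List.Forall₂.cons (NumIs.V.of_mem (by norm_num) (le_trans (by norm_num) b1) (le_trans b2 (by norm_num))) List.Forall₂.nil)
  by_contra hc
  have hc := not_lt.1 hc
  simp only [List.mem_cons, List.not_mem_nil, or_false] at hf
  rcases hf with rfl
  · simp only [E.val, NumIs.lkR, QQ.t, QQ.k, QQ.w] at hp
    push_cast at hp
    try simp only [zero_div, div_one] at hp hc
    first
      | with_reducible exact absurd (sub_pos.1 hp) (not_lt.2 hc)
      | with_reducible exact absurd hp (not_lt.2 (add_le_of_le_neg hc))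
      | linarith

theorem r_e_two_0_1_0 {w : ℝ} (b1 : 0 / 10000 ≤ w) (b2 : w ≤ 100 / 10000) :
    -(21 / 100) < 1 * uu (1 / 100) 0 + (53 / 625) + (-37 / 250) * w - (uu (19 / 20 + w) 0 - uu (19 / 20) 0 - uu (1 / 100) 0) - (-1 / 10) := by
  have h : chkT [add (sub (sub (add (add (mul (q 1 1) (E.uu (q 1 100) (q 0 1))) (q 53 625)) (mul (q (-37) 250) QQ.w)) (sub (sub (E.uu (add (q 19 20) QQ.w) (q 0 1)) (E.uu (q 19 20) (q 0 1))) (E.uu (q 1 100) (q 0 1)))) (q (-1) 10)) (q 21 100)] 30
    8
    [NumIs.V.of 10000 0 100] = true := by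
    decide +kernel
  obtain ⟨f, hf, hp⟩ := chkT_sound h (xs := [w])
    (List.Forall₂.cons (NumIs.V.of_mem (by norm_num) (le_trans (by norm_num) b1) (le_trans b2 (by norm_num))) List.Forall₂.nil)
  by_contra hc
  have hc := not_lt.1 hc
  simp only [List.mem_cons, List.not_mem_nil, or_false] at hf
  rcases hf with rfl
  · simp only [E.val, NumIs.lkR, QQ.t, QQ.k, QQ.w] at hp
    push_cast at hp
    try simp only [zero_div, div_one] at hp hc
    first
      | with_reducible exact absurd (sub_pos.1 hp) (not_lt.2 hc)
      | with_reducible exact absurd hp (not_lt.2 (add_le_of_le_neg hc))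
      | linarith

theorem r_e_two_0_1_1 {w : ℝ} (b1 : 100 / 10000 ≤ w) (b2 : w ≤ 400 / 10000) :
    -(21 / 100) < 1 * uu w 0 + (53 / 625) + (-37 / 250) * w - (uu (19 / 20 + w) 0 - uu (19 / 20) 0 - uu w 0) - (-1 / 10) := by
  have h : chkT [add (sub (sub (add (add (mul (q 1 1) (E.uu QQ.w (q 0 1))) (q 53 625)) (mul (q (-37) 250) QQ.w)) (sub (sub (E.uu (add (q 19 20) QQ.w) (q 0 1)) (E.uu (q 19 20) (q 0 1))) (E.uu QQ.w (q 0 1)))) (q (-1) 10)) (q 21 100)] 30
    8
    [NumIs.V.of 10000 100 400] = true := by
    decide +kernel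
  obtain ⟨f, hf, hp⟩ := chkT_sound h (xs := [w])
    (List.Forall₂.cons (NumIs.V.of_mem (by norm_num) (le_trans (by norm_num) b1) (le_trans b2 (by norm_num))) List.Forall₂.nil)
  by_contra hc
  have hc := not_lt.1 hc
  simp only [List.mem_cons, List.not_mem_nil, or_false] at hf
  rcases hf with rfl
  · simp only [E.val, NumIs.lkR, QQ.t, QQ.k, QQ.w] at hp
    push_cast at hp
    try simp only [zero_div, div_one] at hp hc
    first
      | with_reducible exact absurd (sub_pos.1 hp) (not_lt.2 hc)
      | with_reducible exact absurd hp (not_lt.2 (add_le_of_le_neg hc))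
      | linarith

theorem r_e_two_0_1_2 {w : ℝ} (b1 : 400 / 10000 ≤ w) (b2 : w ≤ 500 / 10000) :
    -(21 / 100) < 1 * uu w 0 + (53 / 625) + (-37 / 250) * w - (uu (99 / 100) 0 - uu (19 / 20) 0 - uu w 0) - (-1 / 10) := by
  have h : chkT [add (sub (sub (add (add (mul (q 1 1) (E.uu QQ.w (q 0 1))) (q 53 625)) (mul (q (-37) 250) QQ.w)) (sub (sub (E.uu (q 99 100) (q 0 1)) (E.uu (q 19 20) (q 0 1))) (E.uu QQ.w (q 0 1)))) (q (-1) 10)) (q 21 100)] 30
    8
    [NumIs.V.of 10000 400 500] = true := by
    decide +kernel
  obtain ⟨f, hf, hp⟩ := chkT_sound h (xs := [w])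
    (List.Forall₂.cons (NumIs.V.of_mem (by norm_num) (le_trans (by norm_num) b1) (le_trans b2 (by norm_num))) List.Forall₂.nil)
  by_contra hc
  have hc := not_lt.1 hc
  simp only [List.mem_cons, List.not_mem_nil, or_false] at hf
  rcases hf with rfl
  · simp only [E.val, NumIs.lkR, QQ.t, QQ.k, QQ.w] at hp
    push_cast at hp
    try simp only [zero_div, div_one] at hp hc
    first
      | with_reducible exact absurd (sub_pos.1 hp) (not_lt.2 hc)
      | with_reducible exact absurd hp (not_lt.2 (add_le_of_le_neg hc))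
      | linarith

theorem r_e_twoE_0_0_0 {w : ℝ} (b1 : 0 / 10000 ≤ w) (b2 : w ≤ 100 / 10000) :
    -(1 / 4) < 1 * uu (1 / 100) 0 + (309 / 2000) + (0 / 1) * w - (uu (7 / 10 + w) 0 - uu (7 / 10) 0 - uu (1 / 100) 0) - (-9 / 40) := by
  have h : chkT [add (sub (sub (add (add (mul (q 1 1) (E.uu (q 1 100) (q 0 1))) (q 309 2000)) (mul (q 0 1) QQ.w)) (sub (sub (E.uu (add (q 7 10) QQ.w) (q 0 1)) (E.uu (q 7 10) (q 0 1))) (E.uu (q 1 100) (q 0 1)))) (q (-9) 40)) (q 1 4)] 30
    8
    [NumIs.V.of 10000 0 100] = true := by
    decide +kernel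
  obtain ⟨f, hf, hp⟩ := chkT_sound h (xs := [w])
    (List.Forall₂.cons (NumIs.V.of_mem (by norm_num) (le_trans (by norm_num) b1) (le_trans b2 (by norm_num))) List.Forall₂.nil)
  by_contra hc
  have hc := not_lt.1 hc
  simp only [List.mem_cons, List.not_mem_nil, or_false] at hf
  rcases hf with rfl
  · simp only [E.val, NumIs.lkR, QQ.t, QQ.k, QQ.w] at hp
    push_cast at hp
    try simp only [zero_div, div_one] at hp hc
    first
      | with_reducible exact absurd (sub_pos.1 hp) (not_lt.2 hc)
      | with_reducible exact absurd hp (not_lt.2 (add_le_of_le_neg hc))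
      | linarith

theorem r_e_twoE_0_0_1 {w : ℝ} (b1 : 100 / 10000 ≤ w) (b2 : w ≤ 2800 / 10000) :
    -(1 / 4) < 1 * uu w 0 + (309 / 2000) + (0 / 1) * w - (uu (7 / 10 + w) 0 - uu (7 / 10) 0 - uu w 0) - (-9 / 40) := by
  have h : chkT [add (sub (sub (add (add (mul (q 1 1) (E.uu QQ.w (q 0 1))) (q 309 2000)) (mul (q 0 1) QQ.w)) (sub (sub (E.uu (add (q 7 10) QQ.w) (q 0 1)) (E.uu (q 7 10) (q 0 1))) (E.uu QQ.w (q 0 1)))) (q (-9) 40)) (q 1 4)] 30
    36516167680
    [NumIs.V.of 10000 100 2800] = true := by
    decide +kernel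
  obtain ⟨f, hf, hp⟩ := chkT_sound h (xs := [w])
    (List.Forall₂.cons (NumIs.V.of_mem (by norm_num) (le_trans (by norm_num) b1) (le_trans b2 (by norm_num))) List.Forall₂.nil)
  by_contra hc
  have hc := not_lt.1 hc
  simp only [List.mem_cons, List.not_mem_nil, or_false] at hf
  rcases hf with rfl
  · simp only [E.val, NumIs.lkR, QQ.t, QQ.k, QQ.w] at hp
    push_cast at hp
    try simp only [zero_div, div_one] at hp hc
    first
      | with_reducible exact absurd (sub_pos.1 hp) (not_lt.2 hc)
      | with_reducible exact absurd hp (not_lt.2 (add_le_of_le_neg hc))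
      | linarith

theorem r_e_twoE_0_0_2 {w : ℝ} (b1 : 2800 / 10000 ≤ w) (b2 : w ≤ 3000 / 10000) :
    -(1 / 4) < 1 * uu w 0 + (309 / 2000) + (0 / 1) * w - (uu (49 / 50) 0 - uu (7 / 10) 0 - uu w 0) - (-9 / 40) := by
  have h : chkT [add (sub (sub (add (add (mul (q 1 1) (E.uu QQ.w (q 0 1))) (q 309 2000)) (mul (q 0 1) QQ.w)) (sub (sub (E.uu (q 49 50) (q 0 1)) (E.uu (q 7 10) (q 0 1))) (E.uu QQ.w (q 0 1)))) (q (-9) 40)) (q 1 4)] 30
    8
    [NumIs.V.of 10000 2800 3000] = true := by
    decide +kernel
  obtain ⟨f, hf, hp⟩ := chkT_sound h (xs := [w])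
    (List.Forall₂.cons (NumIs.V.of_mem (by norm_num) (le_trans (by norm_num) b1) (le_trans b2 (by norm_num))) List.Forall₂.nil)
  by_contra hc
  have hc := not_lt.1 hc
  simp only [List.mem_cons, List.not_mem_nil, or_false] at hf
  rcases hf with rfl
  · simp only [E.val, NumIs.lkR, QQ.t, QQ.k, QQ.w] at hp
    push_cast at hp
    try simp only [zero_div, div_one] at hp hc
    first
      | with_reducible exact absurd (sub_pos.1 hp) (not_lt.2 hc)
      | with_reducible exact absurd hp (not_lt.2 (add_le_of_le_neg hc))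
      | linarith

theorem r_e_twoE_0_1_0 {w : ℝ} (b1 : 0 / 10000 ≤ w) (b2 : w ≤ 100 / 10000) :
    -(1 / 4) < 1 * uu (1 / 100) 0 + (309 / 2000) + (0 / 1) * w - (uu (19 / 20 + w) 0 - uu (19 / 20) 0 - uu (1 / 100) 0) - (-1 / 10) := by
  have h : chkT [add (sub (sub (add (add (mul (q 1 1) (E.uu (q 1 100) (q 0 1))) (q 309 2000)) (mul (q 0 1) QQ.w)) (sub (sub (E.uu (add (q 19 20) QQ.w) (q 0 1)) (E.uu (q 19 20) (q 0 1))) (E.uu (q 1 100) (q 0 1)))) (q (-1) 10)) (q 1 4)] 30
    8
    [NumIs.V.of 10000 0 100] = true := by
    decide +kernel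
  obtain ⟨f, hf, hp⟩ := chkT_sound h (xs := [w])
    (List.Forall₂.cons (NumIs.V.of_mem (by norm_num) (le_trans (by norm_num) b1) (le_trans b2 (by norm_num))) List.Forall₂.nil)
  by_contra hc
  have hc := not_lt.1 hc
  simp only [List.mem_cons, List.not_mem_nil, or_false] at hf
  rcases hf with rfl
  · simp only [E.val, NumIs.lkR, QQ.t, QQ.k, QQ.w] at hp
    push_cast at hp
    try simp only [zero_div, div_one] at hp hc
    first
      | with_reducible exact absurd (sub_pos.1 hp) (not_lt.2 hc)
      | with_reducible exact absurd hp (not_lt.2 (add_le_of_le_neg hc))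
      | linarith

theorem r_e_twoE_0_1_1 {w : ℝ} (b1 : 100 / 10000 ≤ w) (b2 : w ≤ 400 / 10000) :
    -(1 / 4) < 1 * uu w 0 + (309 / 2000) + (0 / 1) * w - (uu (19 / 20 + w) 0 - uu (19 / 20) 0 - uu w 0) - (-1 / 10) := by
  have h : chkT [add (sub (sub (add (add (mul (q 1 1) (E.uu QQ.w (q 0 1))) (q 309 2000)) (mul (q 0 1) QQ.w)) (sub (sub (E.uu (add (q 19 20) QQ.w) (q 0 1)) (E.uu (q 19 20) (q 0 1))) (E.uu QQ.w (q 0 1)))) (q (-1) 10)) (q 1 4)] 30
    8
    [NumIs.V.of 10000 100 400] = true := by
    decide +kernel
  obtain ⟨f, hf, hp⟩ := chkT_sound h (xs := [w])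
    (List.Forall₂.cons (NumIs.V.of_mem (by norm_num) (le_trans (by norm_num) b1) (le_trans b2 (by norm_num))) List.Forall₂.nil)
  by_contra hc
  have hc := not_lt.1 hc
  simp only [List.mem_cons, List.not_mem_nil, or_false] at hf
  rcases hf with rfl
  · simp only [E.val, NumIs.lkR, QQ.t, QQ.k, QQ.w] at hp
    push_cast at hp
    try simp only [zero_div, div_one] at hp hc
    first
      | with_reducible exact absurd (sub_pos.1 hp) (not_lt.2 hc)
      | with_reducible exact absurd hp (not_lt.2 (add_le_of_le_neg hc))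
      | linarith

theorem r_e_twoE_0_1_2 {w : ℝ} (b1 : 400 / 10000 ≤ w) (b2 : w ≤ 500 / 10000) :
    -(1 / 4) < 1 * uu w 0 + (309 / 2000) + (0 / 1) * w - (uu (99 / 100) 0 - uu (19 / 20) 0 - uu w 0) - (-1 / 10) := by
  have h : chkT [add (sub (sub (add (add (mul (q 1 1) (E.uu QQ.w (q 0 1))) (q 309 2000)) (mul (q 0 1) QQ.w)) (sub (sub (E.uu (q 99 100) (q 0 1)) (E.uu (q 19 20) (q 0 1))) (E.uu QQ.w (q 0 1)))) (q (-1) 10)) (q 1 4)] 30
    8
    [NumIs.V.of 10000 400 500] = true := by
    decide +kernel
  obtain ⟨f, hf, hp⟩ := chkT_sound h (xs := [w])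
    (List.Forall₂.cons (NumIs.V.of_mem (by norm_num) (le_trans (by norm_num) b1) (le_trans b2 (by norm_num))) List.Forall₂.nil)
  by_contra hc
  have hc := not_lt.1 hc
  simp only [List.mem_cons, List.not_mem_nil, or_false] at hf
  rcases hf with rfl
  · simp only [E.val, NumIs.lkR, QQ.t, QQ.k, QQ.w] at hp
    push_cast at hp
    try simp only [zero_div, div_one] at hp hc
    first
      | with_reducible exact absurd (sub_pos.1 hp) (not_lt.2 hc)
      | with_reducible exact absurd hp (not_lt.2 (add_le_of_le_neg hc))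
      | linarith

theorem r_e_threeA_0_0_0 {w : ℝ} (b1 : 0 / 10000 ≤ w) (b2 : w ≤ 100 / 10000) :
    -(51 / 500) < 1 * uu (1 / 100) 0 + (62 / 625) + (-227 / 1000) * w - (uu (7 / 10 + w) 0 - uu (7 / 10) 0 - uu (1 / 100) 0) - (-9 / 40) := by
  have h : chkT [add (sub (sub (add (add (mul (q 1 1) (E.uu (q 1 100) (q 0 1))) (q 62 625)) (mul (q (-227) 1000) QQ.w)) (sub (sub (E.uu (add (q 7 10) QQ.w) (q 0 1)) (E.uu (q 7 10) (q 0 1))) (E.uu (q 1 100) (q 0 1)))) (q (-9) 40)) (q 51 500)] 30
    8
    [NumIs.V.of 10000 0 100] = true := by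
    decide +kernel
  obtain ⟨f, hf, hp⟩ := chkT_sound h (xs := [w])
    (List.Forall₂.cons (NumIs.V.of_mem (by norm_num) (le_trans (by norm_num) b1) (le_trans b2 (by norm_num))) List.Forall₂.nil)
  by_contra hc
  have hc := not_lt.1 hc
  simp only [List.mem_cons, List.not_mem_nil, or_false] at hf
  rcases hf with rfl
  · simp only [E.val, NumIs.lkR, QQ.t, QQ.k, QQ.w] at hp
    push_cast at hp
    try simp only [zero_div, div_one] at hp hc
    first
      | with_reducible exact absurd (sub_pos.1 hp) (not_lt.2 hc)
      | with_reducible exact absurd hp (not_lt.2 (add_le_of_le_neg hc))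
      | linarith

theorem r_e_threeA_0_0_1 {w : ℝ} (b1 : 100 / 10000 ≤ w) (b2 : w ≤ 1600 / 10000) :
    -(51 / 500) < 1 * uu w 0 + (62 / 625) + (-227 / 1000) * w - (uu (7 / 10 + w) 0 - uu (7 / 10) 0 - uu w 0) - (-9 / 40) := by
  have h : chkT [add (sub (sub (add (add (mul (q 1 1) (E.uu QQ.w (q 0 1))) (q 62 625)) (mul (q (-227) 1000) QQ.w)) (sub (sub (E.uu (add (q 7 10) QQ.w) (q 0 1)) (E.uu (q 7 10) (q 0 1))) (E.uu QQ.w (q 0 1)))) (q (-9) 40)) (q 51 500)] 30
    559104
    [NumIs.V.of 10000 100 1600] = true := by
    decide +kernel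
  obtain ⟨f, hf, hp⟩ := chkT_sound h (xs := [w])
    (List.Forall₂.cons (NumIs.V.of_mem (by norm_num) (le_trans (by norm_num) b1) (le_trans b2 (by norm_num))) List.Forall₂.nil)
  by_contra hc
  have hc := not_lt.1 hc
  simp only [List.mem_cons, List.not_mem_nil, or_false] at hf
  rcases hf with rfl
  · simp only [E.val, NumIs.lkR, QQ.t, QQ.k, QQ.w] at hp
    push_cast at hp
    try simp only [zero_div, div_one] at hp hc
    first
      | with_reducible exact absurd (sub_pos.1 hp) (not_lt.2 hc)
      | with_reducible exact absurd hp (not_lt.2 (add_le_of_le_neg hc))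
      | linarith

theorem r_e_threeA_0_1_0 {w : ℝ} (b1 : 0 / 10000 ≤ w) (b2 : w ≤ 100 / 10000) :
    -(51 / 500) < 1 * uu (1 / 100) 0 + (62 / 625) + (-227 / 1000) * w - (uu (19 / 20 + w) 0 - uu (19 / 20) 0 - uu (1 / 100) 0) - (-1 / 10) := by
  have h : chkT [add (sub (sub (add (add (mul (q 1 1) (E.uu (q 1 100) (q 0 1))) (q 62 625)) (mul (q (-227) 1000) QQ.w)) (sub (sub (E.uu (add (q 19 20) QQ.w) (q 0 1)) (E.uu (q 19 20) (q 0 1))) (E.uu (q 1 100) (q 0 1)))) (q (-1) 10)) (q 51 500)] 30
    8
    [NumIs.V.of 10000 0 100] = true := by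
    decide +kernel
  obtain ⟨f, hf, hp⟩ := chkT_sound h (xs := [w])
    (List.Forall₂.cons (NumIs.V.of_mem (by norm_num) (le_trans (by norm_num) b1) (le_trans b2 (by norm_num))) List.Forall₂.nil)
  by_contra hc
  have hc := not_lt.1 hc
  simp only [List.mem_cons, List.not_mem_nil, or_false] at hf
  rcases hf with rfl
  · simp only [E.val, NumIs.lkR, QQ.t, QQ.k, QQ.w] at hp
    push_cast at hp
    try simp only [zero_div, div_one] at hp hc
    first
      | with_reducible exact absurd (sub_pos.1 hp) (not_lt.2 hc)
      | with_reducible exact absurd hp (not_lt.2 (add_le_of_le_neg hc))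
      | linarith

theorem r_e_threeA_0_1_1 {w : ℝ} (b1 : 100 / 10000 ≤ w) (b2 : w ≤ 400 / 10000) :
    -(51 / 500) < 1 * uu w 0 + (62 / 625) + (-227 / 1000) * w - (uu (19 / 20 + w) 0 - uu (19 / 20) 0 - uu w 0) - (-1 / 10) := by
  have h : chkT [add (sub (sub (add (add (mul (q 1 1) (E.uu QQ.w (q 0 1))) (q 62 625)) (mul (q (-227) 1000) QQ.w)) (sub (sub (E.uu (add (q 19 20) QQ.w) (q 0 1)) (E.uu (q 19 20) (q 0 1))) (E.uu QQ.w (q 0 1)))) (q (-1) 10)) (q 51 500)] 30
    8
    [NumIs.V.of 10000 100 400] = true := by
    decide +kernel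
  obtain ⟨f, hf, hp⟩ := chkT_sound h (xs := [w])
    (List.Forall₂.cons (NumIs.V.of_mem (by norm_num) (le_trans (by norm_num) b1) (le_trans b2 (by norm_num))) List.Forall₂.nil)
  by_contra hc
  have hc := not_lt.1 hc
  simp only [List.mem_cons, List.not_mem_nil, or_false] at hf
  rcases hf with rfl
  · simp only [E.val, NumIs.lkR, QQ.t, QQ.k, QQ.w] at hp
    push_cast at hp
    try simp only [zero_div, div_one] at hp hc
    first
      | with_reducible exact absurd (sub_pos.1 hp) (not_lt.2 hc)
      | with_reducible exact absurd hp (not_lt.2 (add_le_of_le_neg hc))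
      | linarith

theorem r_e_threeA_0_1_2 {w : ℝ} (b1 : 400 / 10000 ≤ w) (b2 : w ≤ 500 / 10000) :
    -(51 / 500) < 1 * uu w 0 + (62 / 625) + (-227 / 1000) * w - (uu (99 / 100) 0 - uu (19 / 20) 0 - uu w 0) - (-1 / 10) := by
  have h : chkT [add (sub (sub (add (add (mul (q 1 1) (E.uu QQ.w (q 0 1))) (q 62 625)) (mul (q (-227) 1000) QQ.w)) (sub (sub (E.uu (q 99 100) (q 0 1)) (E.uu (q 19 20) (q 0 1))) (E.uu QQ.w (q 0 1)))) (q (-1) 10)) (q 51 500)] 30
    8
    [NumIs.V.of 10000 400 500] = true := by
    decide +kernel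
  obtain ⟨f, hf, hp⟩ := chkT_sound h (xs := [w])
    (List.Forall₂.cons (NumIs.V.of_mem (by norm_num) (le_trans (by norm_num) b1) (le_trans b2 (by norm_num))) List.Forall₂.nil)
  by_contra hc
  have hc := not_lt.1 hc
  simp only [List.mem_cons, List.not_mem_nil, or_false] at hf
  rcases hf with rfl
  · simp only [E.val, NumIs.lkR, QQ.t, QQ.k, QQ.w] at hp
    push_cast at hp
    try simp only [zero_div, div_one] at hp hc
    first
      | with_reducible exact absurd (sub_pos.1 hp) (not_lt.2 hc)
      | with_reducible exact absurd hp (not_lt.2 (add_le_of_le_neg hc))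
      | linarith

theorem r_e_threeA_1_0_0 {w : ℝ} (b1 : 1600 / 10000 ≤ w) (b2 : w ≤ 2800 / 10000) :
    -(91 / 1000) < 1 * uu w 0 + (1289 / 5000) + (-553 / 500) * w - (uu (7 / 10 + w) 0 - uu (7 / 10) 0 - uu w 0) - (-9 / 40) := by
  have h : chkT [add (sub (sub (add (add (mul (q 1 1) (E.uu QQ.w (q 0 1))) (q 1289 5000)) (mul (q (-553) 500) QQ.w)) (sub (sub (E.uu (add (q 7 10) QQ.w) (q 0 1)) (E.uu (q 7 10) (q 0 1))) (E.uu QQ.w (q 0 1)))) (q (-9) 40)) (q 91 1000)] 30
    142641152
    [NumIs.V.of 10000 1600 2800] = true := by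
    decide +kernel
  obtain ⟨f, hf, hp⟩ := chkT_sound h (xs := [w])
    (List.Forall₂.cons (NumIs.V.of_mem (by norm_num) (le_trans (by norm_num) b1) (le_trans b2 (by norm_num))) List.Forall₂.nil)
  by_contra hc
  have hc := not_lt.1 hc
  simp only [List.mem_cons, List.not_mem_nil, or_false] at hf
  rcases hf with rfl
  · simp only [E.val, NumIs.lkR, QQ.t, QQ.k, QQ.w] at hp
    push_cast at hp
    try simp only [zero_div, div_one] at hp hc
    first
      | with_reducible exact absurd (sub_pos.1 hp) (not_lt.2 hc)
      | with_reducible exact absurd hp (not_lt.2 (add_le_of_le_neg hc))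
      | linarith

theorem r_e_threeA_1_0_1 {w : ℝ} (b1 : 2800 / 10000 ≤ w) (b2 : w ≤ 3000 / 10000) :
    -(91 / 1000) < 1 * uu w 0 + (1289 / 5000) + (-553 / 500) * w - (uu (49 / 50) 0 - uu (7 / 10) 0 - uu w 0) - (-9 / 40) := by
  have h : chkT [add (sub (sub (add (add (mul (q 1 1) (E.uu QQ.w (q 0 1))) (q 1289 5000)) (mul (q (-553) 500) QQ.w)) (sub (sub (E.uu (q 49 50) (q 0 1)) (E.uu (q 7 10) (q 0 1))) (E.uu QQ.w (q 0 1)))) (q (-9) 40)) (q 91 1000)] 30
    8
    [NumIs.V.of 10000 2800 3000] = true := by
    decide +kernel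
  obtain ⟨f, hf, hp⟩ := chkT_sound h (xs := [w])
    (List.Forall₂.cons (NumIs.V.of_mem (by norm_num) (le_trans (by norm_num) b1) (le_trans b2 (by norm_num))) List.Forall₂.nil)
  by_contra hc
  have hc := not_lt.1 hc
  simp only [List.mem_cons, List.not_mem_nil, or_false] at hf
  rcases hf with rfl
  · simp only [E.val, NumIs.lkR, QQ.t, QQ.k, QQ.w] at hp
    push_cast at hp
    try simp only [zero_div, div_one] at hp hc
    first
      | with_reducible exact absurd (sub_pos.1 hp) (not_lt.2 hc)
      | with_reducible exact absurd hp (not_lt.2 (add_le_of_le_neg hc))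
      | linarith

theorem r_e_threeK_0_0_0 {w : ℝ} (b1 : 0 / 10000 ≤ w) (b2 : w ≤ 100 / 10000) :
    -(17 / 100) < 1 * uu (1 / 100) 0 + (7 / 625) + (97 / 1000) * w - (uu (7 / 10 + w) 0 - uu (7 / 10) 0 - uu (1 / 100) 0) - (-9 / 40) := by
  have h : chkT [add (sub (sub (add (add (mul (q 1 1) (E.uu (q 1 100) (q 0 1))) (q 7 625)) (mul (q 97 1000) QQ.w)) (sub (sub (E.uu (add (q 7 10) QQ.w) (q 0 1)) (E.uu (q 7 10) (q 0 1))) (E.uu (q 1 100) (q 0 1)))) (q (-9) 40)) (q 17 100)] 30
    8
    [NumIs.V.of 10000 0 100] = true := by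
    decide +kernel
  obtain ⟨f, hf, hp⟩ := chkT_sound h (xs := [w])
    (List.Forall₂.cons (NumIs.V.of_mem (by norm_num) (le_trans (by norm_num) b1) (le_trans b2 (by norm_num))) List.Forall₂.nil)
  by_contra hc
  have hc := not_lt.1 hc
  simp only [List.mem_cons, List.not_mem_nil, or_false] at hf
  rcases hf with rfl
  · simp only [E.val, NumIs.lkR, QQ.t, QQ.k, QQ.w] at hp
    push_cast at hp
    try simp only [zero_div, div_one] at hp hc
    first
      | with_reducible exact absurd (sub_pos.1 hp) (not_lt.2 hc)
      | with_reducible exact absurd hp (not_lt.2 (add_le_of_le_neg hc))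
      | linarith

theorem r_e_threeK_0_0_1 {w : ℝ} (b1 : 100 / 10000 ≤ w) (b2 : w ≤ 2800 / 10000) :
    -(17 / 100) < 1 * uu w 0 + (7 / 625) + (97 / 1000) * w - (uu (7 / 10 + w) 0 - uu (7 / 10) 0 - uu w 0) - (-9 / 40) := by
  have h : chkT [add (sub (sub (add (add (mul (q 1 1) (E.uu QQ.w (q 0 1))) (q 7 625)) (mul (q 97 1000) QQ.w)) (sub (sub (E.uu (add (q 7 10) QQ.w) (q 0 1)) (E.uu (q 7 10) (q 0 1))) (E.uu QQ.w (q 0 1)))) (q (-9) 40)) (q 17 100)] 30
    36516167680
    [NumIs.V.of 10000 100 2800] = true := by
    decide +kernel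
  obtain ⟨f, hf, hp⟩ := chkT_sound h (xs := [w])
    (List.Forall₂.cons (NumIs.V.of_mem (by norm_num) (le_trans (by norm_num) b1) (le_trans b2 (by norm_num))) List.Forall₂.nil)
  by_contra hc
  have hc := not_lt.1 hc
  simp only [List.mem_cons, List.not_mem_nil, or_false] at hf
  rcases hf with rfl
  · simp only [E.val, NumIs.lkR, QQ.t, QQ.k, QQ.w] at hp
    push_cast at hp
    try simp only [zero_div, div_one] at hp hc
    first
      | with_reducible exact absurd (sub_pos.1 hp) (not_lt.2 hc)
      | with_reducible exact absurd hp (not_lt.2 (add_le_of_le_neg hc))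
      | linarith

theorem r_e_threeK_0_0_2 {w : ℝ} (b1 : 2800 / 10000 ≤ w) (b2 : w ≤ 3000 / 10000) :
    -(17 / 100) < 1 * uu w 0 + (7 / 625) + (97 / 1000) * w - (uu (49 / 50) 0 - uu (7 / 10) 0 - uu w 0) - (-9 / 40) := by
  have h : chkT [add (sub (sub (add (add (mul (q 1 1) (E.uu QQ.w (q 0 1))) (q 7 625)) (mul (q 97 1000) QQ.w)) (sub (sub (E.uu (q 49 50) (q 0 1)) (E.uu (q 7 10) (q 0 1))) (E.uu QQ.w (q 0 1)))) (q (-9) 40)) (q 17 100)] 30
    8
    [NumIs.V.of 10000 2800 3000] = true := by
    decide +kernel
  obtain ⟨f, hf, hp⟩ := chkT_sound h (xs := [w])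
    (List.Forall₂.cons (NumIs.V.of_mem (by norm_num) (le_trans (by norm_num) b1) (le_trans b2 (by norm_num))) List.Forall₂.nil)
  by_contra hc
  have hc := not_lt.1 hc
  simp only [List.mem_cons, List.not_mem_nil, or_false] at hf
  rcases hf with rfl
  · simp only [E.val, NumIs.lkR, QQ.t, QQ.k, QQ.w] at hp
    push_cast at hp
    try simp only [zero_div, div_one] at hp hc
    first
      | with_reducible exact absurd (sub_pos.1 hp) (not_lt.2 hc)
      | with_reducible exact absurd hp (not_lt.2 (add_le_of_le_neg hc))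
      | linarith

theorem r_e_threeK_0_1_0 {w : ℝ} (b1 : 0 / 10000 ≤ w) (b2 : w ≤ 100 / 10000) :
    -(17 / 100) < 1 * uu (1 / 100) 0 + (7 / 625) + (97 / 1000) * w - (uu (19 / 20 + w) 0 - uu (19 / 20) 0 - uu (1 / 100) 0) - (-1 / 10) := by
  have h : chkT [add (sub (sub (add (add (mul (q 1 1) (E.uu (q 1 100) (q 0 1))) (q 7 625)) (mul (q 97 1000) QQ.w)) (sub (sub (E.uu (add (q 19 20) QQ.w) (q 0 1)) (E.uu (q 19 20) (q 0 1))) (E.uu (q 1 100) (q 0 1)))) (q (-1) 10)) (q 17 100)] 30
    8
    [NumIs.V.of 10000 0 100] = true := by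
    decide +kernel
  obtain ⟨f, hf, hp⟩ := chkT_sound h (xs := [w])
    (List.Forall₂.cons (NumIs.V.of_mem (by norm_num) (le_trans (by norm_num) b1) (le_trans b2 (by norm_num))) List.Forall₂.nil)
  by_contra hc
  have hc := not_lt.1 hc
  simp only [List.mem_cons, List.not_mem_nil, or_false] at hf
  rcases hf with rfl
  · simp only [E.val, NumIs.lkR, QQ.t, QQ.k, QQ.w] at hp
    push_cast at hp
    try simp only [zero_div, div_one] at hp hc
    first
      | with_reducible exact absurd (sub_pos.1 hp) (not_lt.2 hc)
      | with_reducible exact absurd hp (not_lt.2 (add_le_of_le_neg hc))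
      | linarith

theorem r_e_threeK_0_1_1 {w : ℝ} (b1 : 100 / 10000 ≤ w) (b2 : w ≤ 400 / 10000) :
    -(17 / 100) < 1 * uu w 0 + (7 / 625) + (97 / 1000) * w - (uu (19 / 20 + w) 0 - uu (19 / 20) 0 - uu w 0) - (-1 / 10) := by
  have h : chkT [add (sub (sub (add (add (mul (q 1 1) (E.uu QQ.w (q 0 1))) (q 7 625)) (mul (q 97 1000) QQ.w)) (sub (sub (E.uu (add (q 19 20) QQ.w) (q 0 1)) (E.uu (q 19 20) (q 0 1))) (E.uu QQ.w (q 0 1)))) (q (-1) 10)) (q 17 100)] 30
    8
    [NumIs.V.of 10000 100 400] = true := by
    decide +kernel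
  obtain ⟨f, hf, hp⟩ := chkT_sound h (xs := [w])
    (List.Forall₂.cons (NumIs.V.of_mem (by norm_num) (le_trans (by norm_num) b1) (le_trans b2 (by norm_num))) List.Forall₂.nil)
  by_contra hc
  have hc := not_lt.1 hc
  simp only [List.mem_cons, List.not_mem_nil, or_false] at hf
  rcases hf with rfl
  · simp only [E.val, NumIs.lkR, QQ.t, QQ.k, QQ.w] at hp
    push_cast at hp
    try simp only [zero_div, div_one] at hp hc
    first
      | with_reducible exact absurd (sub_pos.1 hp) (not_lt.2 hc)
      | with_reducible exact absurd hp (not_lt.2 (add_le_of_le_neg hc))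
      | linarith

theorem r_e_threeK_0_1_2 {w : ℝ} (b1 : 400 / 10000 ≤ w) (b2 : w ≤ 500 / 10000) :
    -(17 / 100) < 1 * uu w 0 + (7 / 625) + (97 / 1000) * w - (uu (99 / 100) 0 - uu (19 / 20) 0 - uu w 0) - (-1 / 10) := by
  have h : chkT [add (sub (sub (add (add (mul (q 1 1) (E.uu QQ.w (q 0 1))) (q 7 625)) (mul (q 97 1000) QQ.w)) (sub (sub (E.uu (q 99 100) (q 0 1)) (E.uu (q 19 20) (q 0 1))) (E.uu QQ.w (q 0 1)))) (q (-1) 10)) (q 17 100)] 30
    8
    [NumIs.V.of 10000 400 500] = true := by
    decide +kernel
  obtain ⟨f, hf, hp⟩ := chkT_sound h (xs := [w])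
    (List.Forall₂.cons (NumIs.V.of_mem (by norm_num) (le_trans (by norm_num) b1) (le_trans b2 (by norm_num))) List.Forall₂.nil)
  by_contra hc
  have hc := not_lt.1 hc
  simp only [List.mem_cons, List.not_mem_nil, or_false] at hf
  rcases hf with rfl
  · simp only [E.val, NumIs.lkR, QQ.t, QQ.k, QQ.w] at hp
    push_cast at hp
    try simp only [zero_div, div_one] at hp hc
    first
      | with_reducible exact absurd (sub_pos.1 hp) (not_lt.2 hc)
      | with_reducible exact absurd hp (not_lt.2 (add_le_of_le_neg hc))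
      | linarith

theorem r_e_threeE_0_0_0 {w : ℝ} (b1 : 0 / 10000 ≤ w) (b2 : w ≤ 100 / 10000) :
    -(19 / 100) < 1 * uu (1 / 100) 0 + (269 / 2000) + (0 / 1) * w - (uu (7 / 10 + w) 0 - uu (7 / 10) 0 - uu (1 / 100) 0) - (-9 / 40) := by
  have h : chkT [add (sub (sub (add (add (mul (q 1 1) (E.uu (q 1 100) (q 0 1))) (q 269 2000)) (mul (q 0 1) QQ.w)) (sub (sub (E.uu (add (q 7 10) QQ.w) (q 0 1)) (E.uu (q 7 10) (q 0 1))) (E.uu (q 1 100) (q 0 1)))) (q (-9) 40)) (q 19 100)] 30
    8
    [NumIs.V.of 10000 0 100] = true := by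
    decide +kernel
  obtain ⟨f, hf, hp⟩ := chkT_sound h (xs := [w])
    (List.Forall₂.cons (NumIs.V.of_mem (by norm_num) (le_trans (by norm_num) b1) (le_trans b2 (by norm_num))) List.Forall₂.nil)
  by_contra hc
  have hc := not_lt.1 hc
  simp only [List.mem_cons, List.not_mem_nil, or_false] at hf
  rcases hf with rfl
  · simp only [E.val, NumIs.lkR, QQ.t, QQ.k, QQ.w] at hp
    push_cast at hp
    try simp only [zero_div, div_one] at hp hc
    first
      | with_reducible exact absurd (sub_pos.1 hp) (not_lt.2 hc)
      | with_reducible exact absurd hp (not_lt.2 (add_le_of_le_neg hc))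
      | linarith

theorem r_e_threeE_0_0_1 {w : ℝ} (b1 : 100 / 10000 ≤ w) (b2 : w ≤ 2800 / 10000) :
    -(19 / 100) < 1 * uu w 0 + (269 / 2000) + (0 / 1) * w - (uu (7 / 10 + w) 0 - uu (7 / 10) 0 - uu w 0) - (-9 / 40) := by
  have h : chkT [add (sub (sub (add (add (mul (q 1 1) (E.uu QQ.w (q 0 1))) (q 269 2000)) (mul (q 0 1) QQ.w)) (sub (sub (E.uu (add (q 7 10) QQ.w) (q 0 1)) (E.uu (q 7 10) (q 0 1))) (E.uu QQ.w (q 0 1)))) (q (-9) 40)) (q 19 100)] 30
    36516167680
    [NumIs.V.of 10000 100 2800] = true := by
    decide +kernel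
  obtain ⟨f, hf, hp⟩ := chkT_sound h (xs := [w])
    (List.Forall₂.cons (NumIs.V.of_mem (by norm_num) (le_trans (by norm_num) b1) (le_trans b2 (by norm_num))) List.Forall₂.nil)
  by_contra hc
  have hc := not_lt.1 hc
  simp only [List.mem_cons, List.not_mem_nil, or_false] at hf
  rcases hf with rfl
  · simp only [E.val, NumIs.lkR, QQ.t, QQ.k, QQ.w] at hp
    push_cast at hp
    try simp only [zero_div, div_one] at hp hc
    first
      | with_reducible exact absurd (sub_pos.1 hp) (not_lt.2 hc)
      | with_reducible exact absurd hp (not_lt.2 (add_le_of_le_neg hc))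
      | linarith

theorem r_e_threeE_0_0_2 {w : ℝ} (b1 : 2800 / 10000 ≤ w) (b2 : w ≤ 3000 / 10000) :
    -(19 / 100) < 1 * uu w 0 + (269 / 2000) + (0 / 1) * w - (uu (49 / 50) 0 - uu (7 / 10) 0 - uu w 0) - (-9 / 40) := by
  have h : chkT [add (sub (sub (add (add (mul (q 1 1) (E.uu QQ.w (q 0 1))) (q 269 2000)) (mul (q 0 1) QQ.w)) (sub (sub (E.uu (q 49 50) (q 0 1)) (E.uu (q 7 10) (q 0 1))) (E.uu QQ.w (q 0 1)))) (q (-9) 40)) (q 19 100)] 30
    8
    [NumIs.V.of 10000 2800 3000] = true := by
    decide +kernel
  obtain ⟨f, hf, hp⟩ := chkT_sound h (xs := [w])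
    (List.Forall₂.cons (NumIs.V.of_mem (by norm_num) (le_trans (by norm_num) b1) (le_trans b2 (by norm_num))) List.Forall₂.nil)
  by_contra hc
  have hc := not_lt.1 hc
  simp only [List.mem_cons, List.not_mem_nil, or_false] at hf
  rcases hf with rfl
  · simp only [E.val, NumIs.lkR, QQ.t, QQ.k, QQ.w] at hp
    push_cast at hp
    try simp only [zero_div, div_one] at hp hc
    first
      | with_reducible exact absurd (sub_pos.1 hp) (not_lt.2 hc)
      | with_reducible exact absurd hp (not_lt.2 (add_le_of_le_neg hc))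
      | linarith

theorem r_e_threeE_0_1_0 {w : ℝ} (b1 : 0 / 10000 ≤ w) (b2 : w ≤ 100 / 10000) :
    -(19 / 100) < 1 * uu (1 / 100) 0 + (269 / 2000) + (0 / 1) * w - (uu (19 / 20 + w) 0 - uu (19 / 20) 0 - uu (1 / 100) 0) - (-1 / 10) := by
  have h : chkT [add (sub (sub (add (add (mul (q 1 1) (E.uu (q 1 100) (q 0 1))) (q 269 2000)) (mul (q 0 1) QQ.w)) (sub (sub (E.uu (add (q 19 20) QQ.w) (q 0 1)) (E.uu (q 19 20) (q 0 1))) (E.uu (q 1 100) (q 0 1)))) (q (-1) 10)) (q 19 100)] 30
    8
    [NumIs.V.of 10000 0 100] = true := by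
    decide +kernel
  obtain ⟨f, hf, hp⟩ := chkT_sound h (xs := [w])
    (List.Forall₂.cons (NumIs.V.of_mem (by norm_num) (le_trans (by norm_num) b1) (le_trans b2 (by norm_num))) List.Forall₂.nil)
  by_contra hc
  have hc := not_lt.1 hc
  simp only [List.mem_cons, List.not_mem_nil, or_false] at hf
  rcases hf with rfl
  · simp only [E.val, NumIs.lkR, QQ.t, QQ.k, QQ.w] at hp
    push_cast at hp
    try simp only [zero_div, div_one] at hp hc
    first
      | with_reducible exact absurd (sub_pos.1 hp) (not_lt.2 hc)
      | with_reducible exact absurd hp (not_lt.2 (add_le_of_le_neg hc))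
      | linarith

theorem r_e_threeE_0_1_1 {w : ℝ} (b1 : 100 / 10000 ≤ w) (b2 : w ≤ 400 / 10000) :
    -(19 / 100) < 1 * uu w 0 + (269 / 2000) + (0 / 1) * w - (uu (19 / 20 + w) 0 - uu (19 / 20) 0 - uu w 0) - (-1 / 10) := by
  have h : chkT [add (sub (sub (add (add (mul (q 1 1) (E.uu QQ.w (q 0 1))) (q 269 2000)) (mul (q 0 1) QQ.w)) (sub (sub (E.uu (add (q 19 20) QQ.w) (q 0 1)) (E.uu (q 19 20) (q 0 1))) (E.uu QQ.w (q 0 1)))) (q (-1) 10)) (q 19 100)] 30
    8
    [NumIs.V.of 10000 100 400] = true := by
    decide +kernel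
  obtain ⟨f, hf, hp⟩ := chkT_sound h (xs := [w])
    (List.Forall₂.cons (NumIs.V.of_mem (by norm_num) (le_trans (by norm_num) b1) (le_trans b2 (by norm_num))) List.Forall₂.nil)
  by_contra hc
  have hc := not_lt.1 hc
  simp only [List.mem_cons, List.not_mem_nil, or_false] at hf
  rcases hf with rfl
  · simp only [E.val, NumIs.lkR, QQ.t, QQ.k, QQ.w] at hp
    push_cast at hp
    try simp only [zero_div, div_one] at hp hc
    first
      | with_reducible exact absurd (sub_pos.1 hp) (not_lt.2 hc)
      | with_reducible exact absurd hp (not_lt.2 (add_le_of_le_neg hc))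
      | linarith

theorem r_e_threeE_0_1_2 {w : ℝ} (b1 : 400 / 10000 ≤ w) (b2 : w ≤ 500 / 10000) :
    -(19 / 100) < 1 * uu w 0 + (269 / 2000) + (0 / 1) * w - (uu (99 / 100) 0 - uu (19 / 20) 0 - uu w 0) - (-1 / 10) := by
  have h : chkT [add (sub (sub (add (add (mul (q 1 1) (E.uu QQ.w (q 0 1))) (q 269 2000)) (mul (q 0 1) QQ.w)) (sub (sub (E.uu (q 99 100) (q 0 1)) (E.uu (q 19 20) (q 0 1))) (E.uu QQ.w (q 0 1)))) (q (-1) 10)) (q 19 100)] 30
    8
    [NumIs.V.of 10000 400 500] = true := by
    decide +kernel
  obtain ⟨f, hf, hp⟩ := chkT_sound h (xs := [w])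
    (List.Forall₂.cons (NumIs.V.of_mem (by norm_num) (le_trans (by norm_num) b1) (le_trans b2 (by norm_num))) List.Forall₂.nil)
  by_contra hc
  have hc := not_lt.1 hc
  simp only [List.mem_cons, List.not_mem_nil, or_false] at hf
  rcases hf with rfl
  · simp only [E.val, NumIs.lkR, QQ.t, QQ.k, QQ.w] at hp
    push_cast at hp
    try simp only [zero_div, div_one] at hp hc
    first
      | with_reducible exact absurd (sub_pos.1 hp) (not_lt.2 hc)
      | with_reducible exact absurd hp (not_lt.2 (add_le_of_le_neg hc))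
      | linarith

theorem r_e_ring_0_0_0 {w : ℝ} (b1 : 0 / 10000 ≤ w) (b2 : w ≤ 100 / 10000) :
    -(1 / 5) < 1 * uu (1 / 100) 0 + (-67 / 1250) + (543 / 1000) * w - (uu (7 / 10 + w) 0 - uu (7 / 10) 0 - uu (1 / 100) 0) - (-9 / 40) := by
  have h : chkT [add (sub (sub (add (add (mul (q 1 1) (E.uu (q 1 100) (q 0 1))) (q (-67) 1250)) (mul (q 543 1000) QQ.w)) (sub (sub (E.uu (add (q 7 10) QQ.w) (q 0 1)) (E.uu (q 7 10) (q 0 1))) (E.uu (q 1 100) (q 0 1)))) (q (-9) 40)) (q 1 5)] 30
    8
    [NumIs.V.of 10000 0 100] = true := by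
    decide +kernel
  obtain ⟨f, hf, hp⟩ := chkT_sound h (xs := [w])
    (List.Forall₂.cons (NumIs.V.of_mem (by norm_num) (le_trans (by norm_num) b1) (le_trans b2 (by norm_num))) List.Forall₂.nil)
  by_contra hc
  have hc := not_lt.1 hc
  simp only [List.mem_cons, List.not_mem_nil, or_false] at hf
  rcases hf with rfl
  · simp only [E.val, NumIs.lkR, QQ.t, QQ.k, QQ.w] at hp
    push_cast at hp
    try simp only [zero_div, div_one] at hp hc
    first
      | with_reducible exact absurd (sub_pos.1 hp) (not_lt.2 hc)
      | with_reducible exact absurd hp (not_lt.2 (add_le_of_le_neg hc))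
      | linarith

theorem r_e_ring_0_0_1 {w : ℝ} (b1 : 100 / 10000 ≤ w) (b2 : w ≤ 1400 / 10000) :
    -(1 / 5) < 1 * uu w 0 + (-67 / 1250) + (543 / 1000) * w - (uu (7 / 10 + w) 0 - uu (7 / 10) 0 - uu w 0) - (-9 / 40) := by
  have h : chkT [add (sub (sub (add (add (mul (q 1 1) (E.uu QQ.w (q 0 1))) (q (-67) 1250)) (mul (q 543 1000) QQ.w)) (sub (sub (E.uu (add (q 7 10) QQ.w) (q 0 1)) (E.uu (q 7 10) (q 0 1))) (E.uu QQ.w (q 0 1)))) (q (-9) 40)) (q 1 5)] 30
    559104
    [NumIs.V.of 10000 100 1400] = true := by
    decide +kernel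
  obtain ⟨f, hf, hp⟩ := chkT_sound h (xs := [w])
    (List.Forall₂.cons (NumIs.V.of_mem (by norm_num) (le_trans (by norm_num) b1) (le_trans b2 (by norm_num))) List.Forall₂.nil)
  by_contra hc
  have hc := not_lt.1 hc
  simp only [List.mem_cons, List.not_mem_nil, or_false] at hf
  rcases hf with rfl
  · simp only [E.val, NumIs.lkR, QQ.t, QQ.k, QQ.w] at hp
    push_cast at hp
    try simp only [zero_div, div_one] at hp hc
    first
      | with_reducible exact absurd (sub_pos.1 hp) (not_lt.2 hc)
      | with_reducible exact absurd hp (not_lt.2 (add_le_of_le_neg hc))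
      | linarith

theorem r_e_ring_0_1_0 {w : ℝ} (b1 : 0 / 10000 ≤ w) (b2 : w ≤ 100 / 10000) :
    -(1 / 5) < 1 * uu (1 / 100) 0 + (-67 / 1250) + (543 / 1000) * w - (uu (19 / 20 + w) 0 - uu (19 / 20) 0 - uu (1 / 100) 0) - (-1 / 10) := by
  have h : chkT [add (sub (sub (add (add (mul (q 1 1) (E.uu (q 1 100) (q 0 1))) (q (-67) 1250)) (mul (q 543 1000) QQ.w)) (sub (sub (E.uu (add (q 19 20) QQ.w) (q 0 1)) (E.uu (q 19 20) (q 0 1))) (E.uu (q 1 100) (q 0 1)))) (q (-1) 10)) (q 1 5)] 30
    8
    [NumIs.V.of 10000 0 100] = true := by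
    decide +kernel
  obtain ⟨f, hf, hp⟩ := chkT_sound h (xs := [w])
    (List.Forall₂.cons (NumIs.V.of_mem (by norm_num) (le_trans (by norm_num) b1) (le_trans b2 (by norm_num))) List.Forall₂.nil)
  by_contra hc
  have hc := not_lt.1 hc
  simp only [List.mem_cons, List.not_mem_nil, or_false] at hf
  rcases hf with rfl
  · simp only [E.val, NumIs.lkR, QQ.t, QQ.k, QQ.w] at hp
    push_cast at hp
    try simp only [zero_div, div_one] at hp hc
    first
      | with_reducible exact absurd (sub_pos.1 hp) (not_lt.2 hc)
      | with_reducible exact absurd hp (not_lt.2 (add_le_of_le_neg hc))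
      | linarith

theorem r_e_ring_0_1_1 {w : ℝ} (b1 : 100 / 10000 ≤ w) (b2 : w ≤ 400 / 10000) :
    -(1 / 5) < 1 * uu w 0 + (-67 / 1250) + (543 / 1000) * w - (uu (19 / 20 + w) 0 - uu (19 / 20) 0 - uu w 0) - (-1 / 10) := by
  have h : chkT [add (sub (sub (add (add (mul (q 1 1) (E.uu QQ.w (q 0 1))) (q (-67) 1250)) (mul (q 543 1000) QQ.w)) (sub (sub (E.uu (add (q 19 20) QQ.w) (q 0 1)) (E.uu (q 19 20) (q 0 1))) (E.uu QQ.w (q 0 1)))) (q (-1) 10)) (q 1 5)] 30
    8
    [NumIs.V.of 10000 100 400] = true := by
    decide +kernel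
  obtain ⟨f, hf, hp⟩ := chkT_sound h (xs := [w])
    (List.Forall₂.cons (NumIs.V.of_mem (by norm_num) (le_trans (by norm_num) b1) (le_trans b2 (by norm_num))) List.Forall₂.nil)
  by_contra hc
  have hc := not_lt.1 hc
  simp only [List.mem_cons, List.not_mem_nil, or_false] at hf
  rcases hf with rfl
  · simp only [E.val, NumIs.lkR, QQ.t, QQ.k, QQ.w] at hp
    push_cast at hp
    try simp only [zero_div, div_one] at hp hc
    first
      | with_reducible exact absurd (sub_pos.1 hp) (not_lt.2 hc)
      | with_reducible exact absurd hp (not_lt.2 (add_le_of_le_neg hc))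
      | linarith

theorem r_e_ring_0_1_2 {w : ℝ} (b1 : 400 / 10000 ≤ w) (b2 : w ≤ 500 / 10000) :
    -(1 / 5) < 1 * uu w 0 + (-67 / 1250) + (543 / 1000) * w - (uu (99 / 100) 0 - uu (19 / 20) 0 - uu w 0) - (-1 / 10) := by
  have h : chkT [add (sub (sub (add (add (mul (q 1 1) (E.uu QQ.w (q 0 1))) (q (-67) 1250)) (mul (q 543 1000) QQ.w)) (sub (sub (E.uu (q 99 100) (q 0 1)) (E.uu (q 19 20) (q 0 1))) (E.uu QQ.w (q 0 1)))) (q (-1) 10)) (q 1 5)] 30
    8
    [NumIs.V.of 10000 400 500] = true := by
    decide +kernel
  obtain ⟨f, hf, hp⟩ := chkT_sound h (xs := [w])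
    (List.Forall₂.cons (NumIs.V.of_mem (by norm_num) (le_trans (by norm_num) b1) (le_trans b2 (by norm_num))) List.Forall₂.nil)
  by_contra hc
  have hc := not_lt.1 hc
  simp only [List.mem_cons, List.not_mem_nil, or_false] at hf
  rcases hf with rfl
  · simp only [E.val, NumIs.lkR, QQ.t, QQ.k, QQ.w] at hp
    push_cast at hp
    try simp only [zero_div, div_one] at hp hc
    first
      | with_reducible exact absurd (sub_pos.1 hp) (not_lt.2 hc)
      | with_reducible exact absurd hp (not_lt.2 (add_le_of_le_neg hc))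
      | linarith

theorem r_e_ring_1_0_0 {w : ℝ} (b1 : 1400 / 10000 ≤ w) (b2 : w ≤ 2800 / 10000) :
    -(41 / 250) < 1 * uu w 0 + (1291 / 10000) + (-18 / 25) * w - (uu (7 / 10 + w) 0 - uu (7 / 10) 0 - uu w 0) - (-9 / 40) := by
  have h : chkT [add (sub (sub (add (add (mul (q 1 1) (E.uu QQ.w (q 0 1))) (q 1291 10000)) (mul (q (-18) 25) QQ.w)) (sub (sub (E.uu (add (q 7 10) QQ.w) (q 0 1)) (E.uu (q 7 10) (q 0 1))) (E.uu QQ.w (q 0 1)))) (q (-9) 40)) (q 41 250)] 30
    557184
    [NumIs.V.of 10000 1400 2800] = true := by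
    decide +kernel
  obtain ⟨f, hf, hp⟩ := chkT_sound h (xs := [w])
    (List.Forall₂.cons (NumIs.V.of_mem (by norm_num) (le_trans (by norm_num) b1) (le_trans b2 (by norm_num))) List.Forall₂.nil)
  by_contra hc
  have hc := not_lt.1 hc
  simp only [List.mem_cons, List.not_mem_nil, or_false] at hf
  rcases hf with rfl
  · simp only [E.val, NumIs.lkR, QQ.t, QQ.k, QQ.w] at hp
    push_cast at hp
    try simp only [zero_div, div_one] at hp hc
    first
      | with_reducible exact absurd (sub_pos.1 hp) (not_lt.2 hc)
      | with_reducible exact absurd hp (not_lt.2 (add_le_of_le_neg hc))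
      | linarith

theorem r_e_ring_1_0_1 {w : ℝ} (b1 : 2800 / 10000 ≤ w) (b2 : w ≤ 3000 / 10000) :
    -(41 / 250) < 1 * uu w 0 + (1291 / 10000) + (-18 / 25) * w - (uu (49 / 50) 0 - uu (7 / 10) 0 - uu w 0) - (-9 / 40) := by
  have h : chkT [add (sub (sub (add (add (mul (q 1 1) (E.uu QQ.w (q 0 1))) (q 1291 10000)) (mul (q (-18) 25) QQ.w)) (sub (sub (E.uu (q 49 50) (q 0 1)) (E.uu (q 7 10) (q 0 1))) (E.uu QQ.w (q 0 1)))) (q (-9) 40)) (q 41 250)] 30
    8
    [NumIs.V.of 10000 2800 3000] = true := by
    decide +kernel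
  obtain ⟨f, hf, hp⟩ := chkT_sound h (xs := [w])
    (List.Forall₂.cons (NumIs.V.of_mem (by norm_num) (le_trans (by norm_num) b1) (le_trans b2 (by norm_num))) List.Forall₂.nil)
  by_contra hc
  have hc := not_lt.1 hc
  simp only [List.mem_cons, List.not_mem_nil, or_false] at hf
  rcases hf with rfl
  · simp only [E.val, NumIs.lkR, QQ.t, QQ.k, QQ.w] at hp
    push_cast at hp
    try simp only [zero_div, div_one] at hp hc
    first
      | with_reducible exact absurd (sub_pos.1 hp) (not_lt.2 hc)
      | with_reducible exact absurd hp (not_lt.2 (add_le_of_le_neg hc))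
      | linarith

theorem r_e_touched_0_0_0 {w : ℝ} (b1 : 0 / 10000 ≤ w) (b2 : w ≤ 100 / 10000) :
    -(6 / 25) < 0 * uu (1 / 100) 0 + (0 / 1) + (0 / 1) * w - (uu (7 / 10 + w) 0 - uu (7 / 10) 0 - uu (1 / 100) 0) - (-9 / 40) := by
  have h : chkT [add (sub (sub (add (add (mul (q 0 1) (E.uu (q 1 100) (q 0 1))) (q 0 1)) (mul (q 0 1) QQ.w)) (sub (sub (E.uu (add (q 7 10) QQ.w) (q 0 1)) (E.uu (q 7 10) (q 0 1))) (E.uu (q 1 100) (q 0 1)))) (q (-9) 40)) (q 6 25)] 30
    8
    [NumIs.V.of 10000 0 100] = true := by
    decide +kernel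
  obtain ⟨f, hf, hp⟩ := chkT_sound h (xs := [w])
    (List.Forall₂.cons (NumIs.V.of_mem (by norm_num) (le_trans (by norm_num) b1) (le_trans b2 (by norm_num))) List.Forall₂.nil)
  by_contra hc
  have hc := not_lt.1 hc
  simp only [List.mem_cons, List.not_mem_nil, or_false] at hf
  rcases hf with rfl
  · simp only [E.val, NumIs.lkR, QQ.t, QQ.k, QQ.w] at hp
    push_cast at hp
    try simp only [zero_div, div_one] at hp hc
    first
      | with_reducible exact absurd (sub_pos.1 hp) (not_lt.2 hc)
      | with_reducible exact absurd hp (not_lt.2 (add_le_of_le_neg hc))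
      | linarith

theorem r_e_touched_0_0_1 {w : ℝ} (b1 : 100 / 10000 ≤ w) (b2 : w ≤ 2800 / 10000) :
    -(6 / 25) < 0 * uu w 0 + (0 / 1) + (0 / 1) * w - (uu (7 / 10 + w) 0 - uu (7 / 10) 0 - uu w 0) - (-9 / 40) := by
  have h : chkT [add (sub (sub (add (add (mul (q 0 1) (E.uu QQ.w (q 0 1))) (q 0 1)) (mul (q 0 1) QQ.w)) (sub (sub (E.uu (add (q 7 10) QQ.w) (q 0 1)) (E.uu (q 7 10) (q 0 1))) (E.uu QQ.w (q 0 1)))) (q (-9) 40)) (q 6 25)] 30
    36516167680
    [NumIs.V.of 10000 100 2800] = true := by
    decide +kernel
  obtain ⟨f, hf, hp⟩ := chkT_sound h (xs := [w])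
    (List.Forall₂.cons (NumIs.V.of_mem (by norm_num) (le_trans (by norm_num) b1) (le_trans b2 (by norm_num))) List.Forall₂.nil)
  by_contra hc
  have hc := not_lt.1 hc
  simp only [List.mem_cons, List.not_mem_nil, or_false] at hf
  rcases hf with rfl
  · simp only [E.val, NumIs.lkR, QQ.t, QQ.k, QQ.w] at hp
    push_cast at hp
    try simp only [zero_div, div_one] at hp hc
    first
      | with_reducible exact absurd (sub_pos.1 hp) (not_lt.2 hc)
      | with_reducible exact absurd hp (not_lt.2 (add_le_of_le_neg hc))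
      | linarith

theorem r_e_touched_0_0_2 {w : ℝ} (b1 : 2800 / 10000 ≤ w) (b2 : w ≤ 3000 / 10000) :
    -(6 / 25) < 0 * uu w 0 + (0 / 1) + (0 / 1) * w - (uu (49 / 50) 0 - uu (7 / 10) 0 - uu w 0) - (-9 / 40) := by
  have h : chkT [add (sub (sub (add (add (mul (q 0 1) (E.uu QQ.w (q 0 1))) (q 0 1)) (mul (q 0 1) QQ.w)) (sub (sub (E.uu (q 49 50) (q 0 1)) (E.uu (q 7 10) (q 0 1))) (E.uu QQ.w (q 0 1)))) (q (-9) 40)) (q 6 25)] 30
    8
    [NumIs.V.of 10000 2800 3000] = true := by
    decide +kernel
  obtain ⟨f, hf, hp⟩ := chkT_sound h (xs := [w])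
    (List.Forall₂.cons (NumIs.V.of_mem (by norm_num) (le_trans (by norm_num) b1) (le_trans b2 (by norm_num))) List.Forall₂.nil)
  by_contra hc
  have hc := not_lt.1 hc
  simp only [List.mem_cons, List.not_mem_nil, or_false] at hf
  rcases hf with rfl
  · simp only [E.val, NumIs.lkR, QQ.t, QQ.k, QQ.w] at hp
    push_cast at hp
    try simp only [zero_div, div_one] at hp hc
    first
      | with_reducible exact absurd (sub_pos.1 hp) (not_lt.2 hc)
      | with_reducible exact absurd hp (not_lt.2 (add_le_of_le_neg hc))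
      | linarith

theorem r_e_touched_0_1_0 {w : ℝ} (b1 : 0 / 10000 ≤ w) (b2 : w ≤ 100 / 10000) :
    -(6 / 25) < 0 * uu (1 / 100) 0 + (0 / 1) + (0 / 1) * w - (uu (19 / 20 + w) 0 - uu (19 / 20) 0 - uu (1 / 100) 0) - (-1 / 10) := by
  have h : chkT [add (sub (sub (add (add (mul (q 0 1) (E.uu (q 1 100) (q 0 1))) (q 0 1)) (mul (q 0 1) QQ.w)) (sub (sub (E.uu (add (q 19 20) QQ.w) (q 0 1)) (E.uu (q 19 20) (q 0 1))) (E.uu (q 1 100) (q 0 1)))) (q (-1) 10)) (q 6 25)] 30
    8
    [NumIs.V.of 10000 0 100] = true := by
    decide +kernel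
  obtain ⟨f, hf, hp⟩ := chkT_sound h (xs := [w])
    (List.Forall₂.cons (NumIs.V.of_mem (by norm_num) (le_trans (by norm_num) b1) (le_trans b2 (by norm_num))) List.Forall₂.nil)
  by_contra hc
  have hc := not_lt.1 hc
  simp only [List.mem_cons, List.not_mem_nil, or_false] at hf
  rcases hf with rfl
  · simp only [E.val, NumIs.lkR, QQ.t, QQ.k, QQ.w] at hp
    push_cast at hp
    try simp only [zero_div, div_one] at hp hc
    first
      | with_reducible exact absurd (sub_pos.1 hp) (not_lt.2 hc)
      | with_reducible exact absurd hp (not_lt.2 (add_le_of_le_neg hc))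
      | linarith

theorem r_e_touched_0_1_1 {w : ℝ} (b1 : 100 / 10000 ≤ w) (b2 : w ≤ 400 / 10000) :
    -(6 / 25) < 0 * uu w 0 + (0 / 1) + (0 / 1) * w - (uu (19 / 20 + w) 0 - uu (19 / 20) 0 - uu w 0) - (-1 / 10) := by
  have h : chkT [add (sub (sub (add (add (mul (q 0 1) (E.uu QQ.w (q 0 1))) (q 0 1)) (mul (q 0 1) QQ.w)) (sub (sub (E.uu (add (q 19 20) QQ.w) (q 0 1)) (E.uu (q 19 20) (q 0 1))) (E.uu QQ.w (q 0 1)))) (q (-1) 10)) (q 6 25)] 30
    8
    [NumIs.V.of 10000 100 400] = true := by
    decide +kernel
  obtain ⟨f, hf, hp⟩ := chkT_sound h (xs := [w])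
    (List.Forall₂.cons (NumIs.V.of_mem (by norm_num) (le_trans (by norm_num) b1) (le_trans b2 (by norm_num))) List.Forall₂.nil)
  by_contra hc
  have hc := not_lt.1 hc
  simp only [List.mem_cons, List.not_mem_nil, or_false] at hf
  rcases hf with rfl
  · simp only [E.val, NumIs.lkR, QQ.t, QQ.k, QQ.w] at hp
    push_cast at hp
    try simp only [zero_div, div_one] at hp hc
    first
      | with_reducible exact absurd (sub_pos.1 hp) (not_lt.2 hc)
      | with_reducible exact absurd hp (not_lt.2 (add_le_of_le_neg hc))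
      | linarith

theorem r_e_touched_0_1_2 {w : ℝ} (b1 : 400 / 10000 ≤ w) (b2 : w ≤ 500 / 10000) :
    -(6 / 25) < 0 * uu w 0 + (0 / 1) + (0 / 1) * w - (uu (99 / 100) 0 - uu (19 / 20) 0 - uu w 0) - (-1 / 10) := by
  have h : chkT [add (sub (sub (add (add (mul (q 0 1) (E.uu QQ.w (q 0 1))) (q 0 1)) (mul (q 0 1) QQ.w)) (sub (sub (E.uu (q 99 100) (q 0 1)) (E.uu (q 19 20) (q 0 1))) (E.uu QQ.w (q 0 1)))) (q (-1) 10)) (q 6 25)] 30
    8
    [NumIs.V.of 10000 400 500] = true := by
    decide +kernel
  obtain ⟨f, hf, hp⟩ := chkT_sound h (xs := [w])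
    (List.Forall₂.cons (NumIs.V.of_mem (by norm_num) (le_trans (by norm_num) b1) (le_trans b2 (by norm_num))) List.Forall₂.nil)
  by_contra hc
  have hc := not_lt.1 hc
  simp only [List.mem_cons, List.not_mem_nil, or_false] at hf
  rcases hf with rfl
  · simp only [E.val, NumIs.lkR, QQ.t, QQ.k, QQ.w] at hp
    push_cast at hp
    try simp only [zero_div, div_one] at hp hc
    first
      | with_reducible exact absurd (sub_pos.1 hp) (not_lt.2 hc)
      | with_reducible exact absurd hp (not_lt.2 (add_le_of_le_neg hc))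
      | linarith

theorem r_h_one_0_0_0 {w : ℝ} (b1 : 0 / 10000 ≤ w) (b2 : w ≤ 100 / 10000) :
    -(153 / 1000) < 0 * uu (1 / 100) 0 + (-11 / 1000) + (0 / 1) * w - (uu (3 / 5 + w) 0 - uu (3 / 5) 0 - uu (1 / 100) 0) - (-3 / 20) := by
  have h : chkT [add (sub (sub (add (add (mul (q 0 1) (E.uu (q 1 100) (q 0 1))) (q (-11) 1000)) (mul (q 0 1) QQ.w)) (sub (sub (E.uu (add (q 3 5) QQ.w) (q 0 1)) (E.uu (q 3 5) (q 0 1))) (E.uu (q 1 100) (q 0 1)))) (q (-3) 20)) (q 153 1000)] 30
    8
    [NumIs.V.of 10000 0 100] = true := by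
    decide +kernel
  obtain ⟨f, hf, hp⟩ := chkT_sound h (xs := [w])
    (List.Forall₂.cons (NumIs.V.of_mem (by norm_num) (le_trans (by norm_num) b1) (le_trans b2 (by norm_num))) List.Forall₂.nil)
  by_contra hc
  have hc := not_lt.1 hc
  simp only [List.mem_cons, List.not_mem_nil, or_false] at hf
  rcases hf with rfl
  · simp only [E.val, NumIs.lkR, QQ.t, QQ.k, QQ.w] at hp
    push_cast at hp
    try simp only [zero_div, div_one] at hp hc
    first
      | with_reducible exact absurd (sub_pos.1 hp) (not_lt.2 hc)
      | with_reducible exact absurd hp (not_lt.2 (add_le_of_le_neg hc))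
      | linarith

theorem r_h_one_0_0_1 {w : ℝ} (b1 : 100 / 10000 ≤ w) (b2 : w ≤ 1800 / 10000) :
    -(153 / 1000) < 0 * uu w 0 + (-11 / 1000) + (0 / 1) * w - (uu (3 / 5 + w) 0 - uu (3 / 5) 0 - uu w 0) - (-3 / 20) := by
  have h : chkT [add (sub (sub (add (add (mul (q 0 1) (E.uu QQ.w (q 0 1))) (q (-11) 1000)) (mul (q 0 1) QQ.w)) (sub (sub (E.uu (add (q 3 5) QQ.w) (q 0 1)) (E.uu (q 3 5) (q 0 1))) (E.uu QQ.w (q 0 1)))) (q (-3) 20)) (q 153 1000)] 30
    559104
    [NumIs.V.of 10000 100 1800] = true := by
    decide +kernel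
  obtain ⟨f, hf, hp⟩ := chkT_sound h (xs := [w])
    (List.Forall₂.cons (NumIs.V.of_mem (by norm_num) (le_trans (by norm_num) b1) (le_trans b2 (by norm_num))) List.Forall₂.nil)
  by_contra hc
  have hc := not_lt.1 hc
  simp only [List.mem_cons, List.not_mem_nil, or_false] at hf
  rcases hf with rfl
  · simp only [E.val, NumIs.lkR, QQ.t, QQ.k, QQ.w] at hp
    push_cast at hp
    try simp only [zero_div, div_one] at hp hc
    first
      | with_reducible exact absurd (sub_pos.1 hp) (not_lt.2 hc)
      | with_reducible exact absurd hp (not_lt.2 (add_le_of_le_neg hc))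
      | linarith

theorem r_h_one_1_0_0 {w : ℝ} (b1 : 0 / 10000 ≤ w) (b2 : w ≤ 100 / 10000) :
    -(24 / 125) < 1 * uu (1 / 100) 0 + (-163 / 5000) + (779 / 1000) * w - (uu (3 / 5 + w) 0 - uu (3 / 5) 0 - uu (1 / 100) 0) - (-3 / 20) := by
  have h : chkT [add (sub (sub (add (add (mul (q 1 1) (E.uu (q 1 100) (q 0 1))) (q (-163) 5000)) (mul (q 779 1000) QQ.w)) (sub (sub (E.uu (add (q 3 5) QQ.w) (q 0 1)) (E.uu (q 3 5) (q 0 1))) (E.uu (q 1 100) (q 0 1)))) (q (-3) 20)) (q 24 125)] 30
    8
    [NumIs.V.of 10000 0 100] = true := by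
    decide +kernel
  obtain ⟨f, hf, hp⟩ := chkT_sound h (xs := [w])
    (List.Forall₂.cons (NumIs.V.of_mem (by norm_num) (le_trans (by norm_num) b1) (le_trans b2 (by norm_num))) List.Forall₂.nil)
  by_contra hc
  have hc := not_lt.1 hc
  simp only [List.mem_cons, List.not_mem_nil, or_false] at hf
  rcases hf with rfl
  · simp only [E.val, NumIs.lkR, QQ.t, QQ.k, QQ.w] at hp
    push_cast at hp
    try simp only [zero_div, div_one] at hp hc
    first
      | with_reducible exact absurd (sub_pos.1 hp) (not_lt.2 hc)
      | with_reducible exact absurd hp (not_lt.2 (add_le_of_le_neg hc))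
      | linarith

theorem r_h_one_1_0_1 {w : ℝ} (b1 : 100 / 10000 ≤ w) (b2 : w ≤ 1800 / 10000) :
    -(24 / 125) < 1 * uu w 0 + (-163 / 5000) + (779 / 1000) * w - (uu (3 / 5 + w) 0 - uu (3 / 5) 0 - uu w 0) - (-3 / 20) := by
  have h : chkT [add (sub (sub (add (add (mul (q 1 1) (E.uu QQ.w (q 0 1))) (q (-163) 5000)) (mul (q 779 1000) QQ.w)) (sub (sub (E.uu (add (q 3 5) QQ.w) (q 0 1)) (E.uu (q 3 5) (q 0 1))) (E.uu QQ.w (q 0 1)))) (q (-3) 20)) (q 24 125)] 30
    143163392
    [NumIs.V.of 10000 100 1800] = true := by
    decide +kernel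
  obtain ⟨f, hf, hp⟩ := chkT_sound h (xs := [w])
    (List.Forall₂.cons (NumIs.V.of_mem (by norm_num) (le_trans (by norm_num) b1) (le_trans b2 (by norm_num))) List.Forall₂.nil)
  by_contra hc
  have hc := not_lt.1 hc
  simp only [List.mem_cons, List.not_mem_nil, or_false] at hf
  rcases hf with rfl
  · simp only [E.val, NumIs.lkR, QQ.t, QQ.k, QQ.w] at hp
    push_cast at hp
    try simp only [zero_div, div_one] at hp hc
    first
      | with_reducible exact absurd (sub_pos.1 hp) (not_lt.2 hc)
      | with_reducible exact absurd hp (not_lt.2 (add_le_of_le_neg hc))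
      | linarith

theorem r_h_one_2_0_0 {w : ℝ} (b1 : 1800 / 10000 ≤ w) (b2 : w ≤ 3800 / 10000) :
    -(43 / 200) < 1 * uu w 0 + (164 / 625) + (-921 / 1000) * w - (uu (3 / 5 + w) 0 - uu (3 / 5) 0 - uu w 0) - (-3 / 20) := by
  have h : chkT [add (sub (sub (add (add (mul (q 1 1) (E.uu QQ.w (q 0 1))) (q 164 625)) (mul (q (-921) 1000) QQ.w)) (sub (sub (E.uu (add (q 3 5) QQ.w) (q 0 1)) (E.uu (q 3 5) (q 0 1))) (E.uu QQ.w (q 0 1)))) (q (-3) 20)) (q 43 200)] 30
    142641152
    [NumIs.V.of 10000 1800 3800] = true := by
    decide +kernel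
  obtain ⟨f, hf, hp⟩ := chkT_sound h (xs := [w])
    (List.Forall₂.cons (NumIs.V.of_mem (by norm_num) (le_trans (by norm_num) b1) (le_trans b2 (by norm_num))) List.Forall₂.nil)
  by_contra hc
  have hc := not_lt.1 hc
  simp only [List.mem_cons, List.not_mem_nil, or_false] at hf
  rcases hf with rfl
  · simp only [E.val, NumIs.lkR, QQ.t, QQ.k, QQ.w] at hp
    push_cast at hp
    try simp only [zero_div, div_one] at hp hc
    first
      | with_reducible exact absurd (sub_pos.1 hp) (not_lt.2 hc)
      | with_reducible exact absurd hp (not_lt.2 (add_le_of_le_neg hc))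
      | linarith

theorem r_h_one_2_0_1 {w : ℝ} (b1 : 3800 / 10000 ≤ w) (b2 : w ≤ 4000 / 10000) :
    -(43 / 200) < 1 * uu w 0 + (164 / 625) + (-921 / 1000) * w - (uu (49 / 50) 0 - uu (3 / 5) 0 - uu w 0) - (-3 / 20) := by
  have h : chkT [add (sub (sub (add (add (mul (q 1 1) (E.uu QQ.w (q 0 1))) (q 164 625)) (mul (q (-921) 1000) QQ.w)) (sub (sub (E.uu (q 49 50) (q 0 1)) (E.uu (q 3 5) (q 0 1))) (E.uu QQ.w (q 0 1)))) (q (-3) 20)) (q 43 200)] 30
    8
    [NumIs.V.of 10000 3800 4000] = true := by
    decide +kernel
  obtain ⟨f, hf, hp⟩ := chkT_sound h (xs := [w])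
    (List.Forall₂.cons (NumIs.V.of_mem (by norm_num) (le_trans (by norm_num) b1) (le_trans b2 (by norm_num))) List.Forall₂.nil)
  by_contra hc
  have hc := not_lt.1 hc
  simp only [List.mem_cons, List.not_mem_nil, or_false] at hf
  rcases hf with rfl
  · simp only [E.val, NumIs.lkR, QQ.t, QQ.k, QQ.w] at hp
    push_cast at hp
    try simp only [zero_div, div_one] at hp hc
    first
      | with_reducible exact absurd (sub_pos.1 hp) (not_lt.2 hc)
      | with_reducible exact absurd hp (not_lt.2 (add_le_of_le_neg hc))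
      | linarith

theorem r_h_one_3_0_0 {w : ℝ} (b1 : 1800 / 10000 ≤ w) (b2 : w ≤ 3800 / 10000) :
    -(43 / 200) < 1 * uu w 0 + (1451 / 5000) + (-1021 / 1000) * w - (uu (3 / 5 + w) 0 - uu (3 / 5) 0 - uu w 0) - (-3 / 20) := by
  have h : chkT [add (sub (sub (add (add (mul (q 1 1) (E.uu QQ.w (q 0 1))) (q 1451 5000)) (mul (q (-1021) 1000) QQ.w)) (sub (sub (E.uu (add (q 3 5) QQ.w) (q 0 1)) (E.uu (q 3 5) (q 0 1))) (E.uu QQ.w (q 0 1)))) (q (-3) 20)) (q 43 200)] 30
    142641152
    [NumIs.V.of 10000 1800 3800] = true := by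
    decide +kernel
  obtain ⟨f, hf, hp⟩ := chkT_sound h (xs := [w])
    (List.Forall₂.cons (NumIs.V.of_mem (by norm_num) (le_trans (by norm_num) b1) (le_trans b2 (by norm_num))) List.Forall₂.nil)
  by_contra hc
  have hc := not_lt.1 hc
  simp only [List.mem_cons, List.not_mem_nil, or_false] at hf
  rcases hf with rfl
  · simp only [E.val, NumIs.lkR, QQ.t, QQ.k, QQ.w] at hp
    push_cast at hp
    try simp only [zero_div, div_one] at hp hc
    first
      | with_reducible exact absurd (sub_pos.1 hp) (not_lt.2 hc)
      | with_reducible exact absurd hp (not_lt.2 (add_le_of_le_neg hc))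
      | linarith

theorem r_h_one_3_0_1 {w : ℝ} (b1 : 3800 / 10000 ≤ w) (b2 : w ≤ 4000 / 10000) :
    -(43 / 200) < 1 * uu w 0 + (1451 / 5000) + (-1021 / 1000) * w - (uu (49 / 50) 0 - uu (3 / 5) 0 - uu w 0) - (-3 / 20) := by
  have h : chkT [add (sub (sub (add (add (mul (q 1 1) (E.uu QQ.w (q 0 1))) (q 1451 5000)) (mul (q (-1021) 1000) QQ.w)) (sub (sub (E.uu (q 49 50) (q 0 1)) (E.uu (q 3 5) (q 0 1))) (E.uu QQ.w (q 0 1)))) (q (-3) 20)) (q 43 200)] 30
    8
    [NumIs.V.of 10000 3800 4000] = true := by
    decide +kernel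
  obtain ⟨f, hf, hp⟩ := chkT_sound h (xs := [w])
    (List.Forall₂.cons (NumIs.V.of_mem (by norm_num) (le_trans (by norm_num) b1) (le_trans b2 (by norm_num))) List.Forall₂.nil)
  by_contra hc
  have hc := not_lt.1 hc
  simp only [List.mem_cons, List.not_mem_nil, or_false] at hf
  rcases hf with rfl
  · simp only [E.val, NumIs.lkR, QQ.t, QQ.k, QQ.w] at hp
    push_cast at hp
    try simp only [zero_div, div_one] at hp hc
    first
      | with_reducible exact absurd (sub_pos.1 hp) (not_lt.2 hc)
      | with_reducible exact absurd hp (not_lt.2 (add_le_of_le_neg hc))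
      | linarith

theorem r_h_two_0_0_0 {w : ℝ} (b1 : 0 / 10000 ≤ w) (b2 : w ≤ 100 / 10000) :
    -(223 / 1000) < 1 * uu (1 / 100) 0 + (53 / 625) + (-37 / 250) * w - (uu (3 / 5 + w) 0 - uu (3 / 5) 0 - uu (1 / 100) 0) - (-3 / 20) := by
  have h : chkT [add (sub (sub (add (add (mul (q 1 1) (E.uu (q 1 100) (q 0 1))) (q 53 625)) (mul (q (-37) 250) QQ.w)) (sub (sub (E.uu (add (q 3 5) QQ.w) (q 0 1)) (E.uu (q 3 5) (q 0 1))) (E.uu (q 1 100) (q 0 1)))) (q (-3) 20)) (q 223 1000)] 30
    8
    [NumIs.V.of 10000 0 100] = true := by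
    decide +kernel
  obtain ⟨f, hf, hp⟩ := chkT_sound h (xs := [w])
    (List.Forall₂.cons (NumIs.V.of_mem (by norm_num) (le_trans (by norm_num) b1) (le_trans b2 (by norm_num))) List.Forall₂.nil)
  by_contra hc
  have hc := not_lt.1 hc
  simp only [List.mem_cons, List.not_mem_nil, or_false] at hf
  rcases hf with rfl
  · simp only [E.val, NumIs.lkR, QQ.t, QQ.k, QQ.w] at hp
    push_cast at hp
    try simp only [zero_div, div_one] at hp hc
    first
      | with_reducible exact absurd (sub_pos.1 hp) (not_lt.2 hc)
      | with_reducible exact absurd hp (not_lt.2 (add_le_of_le_neg hc))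
      | linarith

theorem r_h_two_0_0_1 {w : ℝ} (b1 : 100 / 10000 ≤ w) (b2 : w ≤ 3800 / 10000) :
    -(223 / 1000) < 1 * uu w 0 + (53 / 625) + (-37 / 250) * w - (uu (3 / 5 + w) 0 - uu (3 / 5) 0 - uu w 0) - (-3 / 20) := by
  have h : chkT [add (sub (sub (add (add (mul (q 1 1) (E.uu QQ.w (q 0 1))) (q 53 625)) (mul (q (-37) 250) QQ.w)) (sub (sub (E.uu (add (q 3 5) QQ.w) (q 0 1)) (E.uu (q 3 5) (q 0 1))) (E.uu QQ.w (q 0 1)))) (q (-3) 20)) (q 223 1000)] 30
    156835605807622520832
    [NumIs.V.of 10000 100 3800] = true := by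
    decide +kernel
  obtain ⟨f, hf, hp⟩ := chkT_sound h (xs := [w])
    (List.Forall₂.cons (NumIs.V.of_mem (by norm_num) (le_trans (by norm_num) b1) (le_trans b2 (by norm_num))) List.Forall₂.nil)
  by_contra hc
  have hc := not_lt.1 hc
  simp only [List.mem_cons, List.not_mem_nil, or_false] at hf
  rcases hf with rfl
  · simp only [E.val, NumIs.lkR, QQ.t, QQ.k, QQ.w] at hp
    push_cast at hp
    try simp only [zero_div, div_one] at hp hc
    first
      | with_reducible exact absurd (sub_pos.1 hp) (not_lt.2 hc)
      | with_reducible exact absurd hp (not_lt.2 (add_le_of_le_neg hc))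
      | linarith

theorem r_h_two_0_0_2 {w : ℝ} (b1 : 3800 / 10000 ≤ w) (b2 : w ≤ 4000 / 10000) :
    -(223 / 1000) < 1 * uu w 0 + (53 / 625) + (-37 / 250) * w - (uu (49 / 50) 0 - uu (3 / 5) 0 - uu w 0) - (-3 / 20) := by
  have h : chkT [add (sub (sub (add (add (mul (q 1 1) (E.uu QQ.w (q 0 1))) (q 53 625)) (mul (q (-37) 250) QQ.w)) (sub (sub (E.uu (q 49 50) (q 0 1)) (E.uu (q 3 5) (q 0 1))) (E.uu QQ.w (q 0 1)))) (q (-3) 20)) (q 223 1000)] 30
    8
    [NumIs.V.of 10000 3800 4000] = true := by
    decide +kernel
  obtain ⟨f, hf, hp⟩ := chkT_sound h (xs := [w])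
    (List.Forall₂.cons (NumIs.V.of_mem (by norm_num) (le_trans (by norm_num) b1) (le_trans b2 (by norm_num))) List.Forall₂.nil)
  by_contra hc
  have hc := not_lt.1 hc
  simp only [List.mem_cons, List.not_mem_nil, or_false] at hf
  rcases hf with rfl
  · simp only [E.val, NumIs.lkR, QQ.t, QQ.k, QQ.w] at hp
    push_cast at hp
    try simp only [zero_div, div_one] at hp hc
    first
      | with_reducible exact absurd (sub_pos.1 hp) (not_lt.2 hc)
      | with_reducible exact absurd hp (not_lt.2 (add_le_of_le_neg hc))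
      | linarith

theorem r_h_twoE_0_0_0 {w : ℝ} (b1 : 0 / 10000 ≤ w) (b2 : w ≤ 100 / 10000) :
    -(23 / 100) < 1 * uu (1 / 100) 0 + (309 / 2000) + (0 / 1) * w - (uu (3 / 5 + w) 0 - uu (3 / 5) 0 - uu (1 / 100) 0) - (-3 / 20) := by
  have h : chkT [add (sub (sub (add (add (mul (q 1 1) (E.uu (q 1 100) (q 0 1))) (q 309 2000)) (mul (q 0 1) QQ.w)) (sub (sub (E.uu (add (q 3 5) QQ.w) (q 0 1)) (E.uu (q 3 5) (q 0 1))) (E.uu (q 1 100) (q 0 1)))) (q (-3) 20)) (q 23 100)] 30
    8
    [NumIs.V.of 10000 0 100] = true := by
    decide +kernel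
  obtain ⟨f, hf, hp⟩ := chkT_sound h (xs := [w])
    (List.Forall₂.cons (NumIs.V.of_mem (by norm_num) (le_trans (by norm_num) b1) (le_trans b2 (by norm_num))) List.Forall₂.nil)
  by_contra hc
  have hc := not_lt.1 hc
  simp only [List.mem_cons, List.not_mem_nil, or_false] at hf
  rcases hf with rfl
  · simp only [E.val, NumIs.lkR, QQ.t, QQ.k, QQ.w] at hp
    push_cast at hp
    try simp only [zero_div, div_one] at hp hc
    first
      | with_reducible exact absurd (sub_pos.1 hp) (not_lt.2 hc)
      | with_reducible exact absurd hp (not_lt.2 (add_le_of_le_neg hc))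
      | linarith

theorem r_h_twoE_0_0_1 {w : ℝ} (b1 : 100 / 10000 ≤ w) (b2 : w ≤ 3800 / 10000) :
    -(23 / 100) < 1 * uu w 0 + (309 / 2000) + (0 / 1) * w - (uu (3 / 5 + w) 0 - uu (3 / 5) 0 - uu w 0) - (-3 / 20) := by
  have h : chkT [add (sub (sub (add (add (mul (q 1 1) (E.uu QQ.w (q 0 1))) (q 309 2000)) (mul (q 0 1) QQ.w)) (sub (sub (E.uu (add (q 3 5) QQ.w) (q 0 1)) (E.uu (q 3 5) (q 0 1))) (E.uu QQ.w (q 0 1)))) (q (-3) 20)) (q 23 100)] 30
    2393089348468736
    [NumIs.V.of 10000 100 3800] = true := by
    decide +kernel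
  obtain ⟨f, hf, hp⟩ := chkT_sound h (xs := [w])
    (List.Forall₂.cons (NumIs.V.of_mem (by norm_num) (le_trans (by norm_num) b1) (le_trans b2 (by norm_num))) List.Forall₂.nil)
  by_contra hc
  have hc := not_lt.1 hc
  simp only [List.mem_cons, List.not_mem_nil, or_false] at hf
  rcases hf with rfl
  · simp only [E.val, NumIs.lkR, QQ.t, QQ.k, QQ.w] at hp
    push_cast at hp
    try simp only [zero_div, div_one] at hp hc
    first
      | with_reducible exact absurd (sub_pos.1 hp) (not_lt.2 hc)
      | with_reducible exact absurd hp (not_lt.2 (add_le_of_le_neg hc))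
      | linarith

theorem r_h_twoE_0_0_2 {w : ℝ} (b1 : 3800 / 10000 ≤ w) (b2 : w ≤ 4000 / 10000) :
    -(23 / 100) < 1 * uu w 0 + (309 / 2000) + (0 / 1) * w - (uu (49 / 50) 0 - uu (3 / 5) 0 - uu w 0) - (-3 / 20) := by
  have h : chkT [add (sub (sub (add (add (mul (q 1 1) (E.uu QQ.w (q 0 1))) (q 309 2000)) (mul (q 0 1) QQ.w)) (sub (sub (E.uu (q 49 50) (q 0 1)) (E.uu (q 3 5) (q 0 1))) (E.uu QQ.w (q 0 1)))) (q (-3) 20)) (q 23 100)] 30
    8
    [NumIs.V.of 10000 3800 4000] = true := by
    decide +kernel
  obtain ⟨f, hf, hp⟩ := chkT_sound h (xs := [w])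
    (List.Forall₂.cons (NumIs.V.of_mem (by norm_num) (le_trans (by norm_num) b1) (le_trans b2 (by norm_num))) List.Forall₂.nil)
  by_contra hc
  have hc := not_lt.1 hc
  simp only [List.mem_cons, List.not_mem_nil, or_false] at hf
  rcases hf with rfl
  · simp only [E.val, NumIs.lkR, QQ.t, QQ.k, QQ.w] at hp
    push_cast at hp
    try simp only [zero_div, div_one] at hp hc
    first
      | with_reducible exact absurd (sub_pos.1 hp) (not_lt.2 hc)
      | with_reducible exact absurd hp (not_lt.2 (add_le_of_le_neg hc))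
      | linarith

theorem r_h_touched_0_0_0 {w : ℝ} (b1 : 0 / 10000 ≤ w) (b2 : w ≤ 100 / 10000) :
    -(21 / 100) < 0 * uu (1 / 100) 0 + (0 / 1) + (0 / 1) * w - (uu (3 / 5 + w) 0 - uu (3 / 5) 0 - uu (1 / 100) 0) - (-3 / 20) := by
  have h : chkT [add (sub (sub (add (add (mul (q 0 1) (E.uu (q 1 100) (q 0 1))) (q 0 1)) (mul (q 0 1) QQ.w)) (sub (sub (E.uu (add (q 3 5) QQ.w) (q 0 1)) (E.uu (q 3 5) (q 0 1))) (E.uu (q 1 100) (q 0 1)))) (q (-3) 20)) (q 21 100)] 30
    8
    [NumIs.V.of 10000 0 100] = true := by
    decide +kernel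
  obtain ⟨f, hf, hp⟩ := chkT_sound h (xs := [w])
    (List.Forall₂.cons (NumIs.V.of_mem (by norm_num) (le_trans (by norm_num) b1) (le_trans b2 (by norm_num))) List.Forall₂.nil)
  by_contra hc
  have hc := not_lt.1 hc
  simp only [List.mem_cons, List.not_mem_nil, or_false] at hf
  rcases hf with rfl
  · simp only [E.val, NumIs.lkR, QQ.t, QQ.k, QQ.w] at hp
    push_cast at hp
    try simp only [zero_div, div_one] at hp hc
    first
      | with_reducible exact absurd (sub_pos.1 hp) (not_lt.2 hc)
      | with_reducible exact absurd hp (not_lt.2 (add_le_of_le_neg hc))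
      | linarith

theorem r_h_touched_0_0_1 {w : ℝ} (b1 : 100 / 10000 ≤ w) (b2 : w ≤ 3800 / 10000) :
    -(21 / 100) < 0 * uu w 0 + (0 / 1) + (0 / 1) * w - (uu (3 / 5 + w) 0 - uu (3 / 5) 0 - uu w 0) - (-3 / 20) := by
  have h : chkT [add (sub (sub (add (add (mul (q 0 1) (E.uu QQ.w (q 0 1))) (q 0 1)) (mul (q 0 1) QQ.w)) (sub (sub (E.uu (add (q 3 5) QQ.w) (q 0 1)) (E.uu (q 3 5) (q 0 1))) (E.uu QQ.w (q 0 1)))) (q (-3) 20)) (q 21 100)] 30
    9348005265408
    [NumIs.V.of 10000 100 3800] = true := by
    decide +kernel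
  obtain ⟨f, hf, hp⟩ := chkT_sound h (xs := [w])
    (List.Forall₂.cons (NumIs.V.of_mem (by norm_num) (le_trans (by norm_num) b1) (le_trans b2 (by norm_num))) List.Forall₂.nil)
  by_contra hc
  have hc := not_lt.1 hc
  simp only [List.mem_cons, List.not_mem_nil, or_false] at hf
  rcases hf with rfl
  · simp only [E.val, NumIs.lkR, QQ.t, QQ.k, QQ.w] at hp
    push_cast at hp
    try simp only [zero_div, div_one] at hp hc
    first
      | with_reducible exact absurd (sub_pos.1 hp) (not_lt.2 hc)
      | with_reducible exact absurd hp (not_lt.2 (add_le_of_le_neg hc))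
      | linarith

theorem r_h_touched_0_0_2 {w : ℝ} (b1 : 3800 / 10000 ≤ w) (b2 : w ≤ 4000 / 10000) :
    -(21 / 100) < 0 * uu w 0 + (0 / 1) + (0 / 1) * w - (uu (49 / 50) 0 - uu (3 / 5) 0 - uu w 0) - (-3 / 20) := by
  have h : chkT [add (sub (sub (add (add (mul (q 0 1) (E.uu QQ.w (q 0 1))) (q 0 1)) (mul (q 0 1) QQ.w)) (sub (sub (E.uu (q 49 50) (q 0 1)) (E.uu (q 3 5) (q 0 1))) (E.uu QQ.w (q 0 1)))) (q (-3) 20)) (q 21 100)] 30
    8
    [NumIs.V.of 10000 3800 4000] = true := by
    decide +kernel
  obtain ⟨f, hf, hp⟩ := chkT_sound h (xs := [w])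
    (List.Forall₂.cons (NumIs.V.of_mem (by norm_num) (le_trans (by norm_num) b1) (le_trans b2 (by norm_num))) List.Forall₂.nil)
  by_contra hc
  have hc := not_lt.1 hc
  simp only [List.mem_cons, List.not_mem_nil, or_false] at hf
  rcases hf with rfl
  · simp only [E.val, NumIs.lkR, QQ.t, QQ.k, QQ.w] at hp
    push_cast at hp
    try simp only [zero_div, div_one] at hp hc
    first
      | with_reducible exact absurd (sub_pos.1 hp) (not_lt.2 hc)
      | with_reducible exact absurd hp (not_lt.2 (add_le_of_le_neg hc))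
      | linarith

theorem r_r_one_0_0_0 {w : ℝ} (b1 : 0 / 10000 ≤ w) (b2 : w ≤ 100 / 10000) :
    -(137 / 1000) < 0 * uu (1 / 100) 0 + (-11 / 1000) + (0 / 1) * w - (uu (13 / 20 + w) 0 - uu (13 / 20) 0 - uu (1 / 100) 0) - (-27 / 200) := by
  have h : chkT [add (sub (sub (add (add (mul (q 0 1) (E.uu (q 1 100) (q 0 1))) (q (-11) 1000)) (mul (q 0 1) QQ.w)) (sub (sub (E.uu (add (q 13 20) QQ.w) (q 0 1)) (E.uu (q 13 20) (q 0 1))) (E.uu (q 1 100) (q 0 1)))) (q (-27) 200)) (q 137 1000)] 30
    8
    [NumIs.V.of 10000 0 100] = true := by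
    decide +kernel
  obtain ⟨f, hf, hp⟩ := chkT_sound h (xs := [w])
    (List.Forall₂.cons (NumIs.V.of_mem (by norm_num) (le_trans (by norm_num) b1) (le_trans b2 (by norm_num))) List.Forall₂.nil)
  by_contra hc
  have hc := not_lt.1 hc
  simp only [List.mem_cons, List.not_mem_nil, or_false] at hf
  rcases hf with rfl
  · simp only [E.val, NumIs.lkR, QQ.t, QQ.k, QQ.w] at hp
    push_cast at hp
    try simp only [zero_div, div_one] at hp hc
    first
      | with_reducible exact absurd (sub_pos.1 hp) (not_lt.2 hc)
      | with_reducible exact absurd hp (not_lt.2 (add_le_of_le_neg hc))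
      | linarith

theorem r_r_one_0_0_1 {w : ℝ} (b1 : 100 / 10000 ≤ w) (b2 : w ≤ 1800 / 10000) :
    -(137 / 1000) < 0 * uu w 0 + (-11 / 1000) + (0 / 1) * w - (uu (13 / 20 + w) 0 - uu (13 / 20) 0 - uu w 0) - (-27 / 200) := by
  have h : chkT [add (sub (sub (add (add (mul (q 0 1) (E.uu QQ.w (q 0 1))) (q (-11) 1000)) (mul (q 0 1) QQ.w)) (sub (sub (E.uu (add (q 13 20) QQ.w) (q 0 1)) (E.uu (q 13 20) (q 0 1))) (E.uu QQ.w (q 0 1)))) (q (-27) 200)) (q 137 1000)] 30
    559104
    [NumIs.V.of 10000 100 1800] = true := by
    decide +kernel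
  obtain ⟨f, hf, hp⟩ := chkT_sound h (xs := [w])
    (List.Forall₂.cons (NumIs.V.of_mem (by norm_num) (le_trans (by norm_num) b1) (le_trans b2 (by norm_num))) List.Forall₂.nil)
  by_contra hc
  have hc := not_lt.1 hc
  simp only [List.mem_cons, List.not_mem_nil, or_false] at hf
  rcases hf with rfl
  · simp only [E.val, NumIs.lkR, QQ.t, QQ.k, QQ.w] at hp
    push_cast at hp
    try simp only [zero_div, div_one] at hp hc
    first
      | with_reducible exact absurd (sub_pos.1 hp) (not_lt.2 hc)
      | with_reducible exact absurd hp (not_lt.2 (add_le_of_le_neg hc))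
      | linarith

theorem r_r_one_0_1_0 {w : ℝ} (b1 : 0 / 10000 ≤ w) (b2 : w ≤ 100 / 10000) :
    -(137 / 1000) < 0 * uu (1 / 100) 0 + (-11 / 1000) + (0 / 1) * w - (uu (19 / 20 + w) 0 - uu (19 / 20) 0 - uu (1 / 100) 0) - (1 / 50) := by
  have h : chkT [add (sub (sub (add (add (mul (q 0 1) (E.uu (q 1 100) (q 0 1))) (q (-11) 1000)) (mul (q 0 1) QQ.w)) (sub (sub (E.uu (add (q 19 20) QQ.w) (q 0 1)) (E.uu (q 19 20) (q 0 1))) (E.uu (q 1 100) (q 0 1)))) (q 1 50)) (q 137 1000)] 30
    8
    [NumIs.V.of 10000 0 100] = true := by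
    decide +kernel
  obtain ⟨f, hf, hp⟩ := chkT_sound h (xs := [w])
    (List.Forall₂.cons (NumIs.V.of_mem (by norm_num) (le_trans (by norm_num) b1) (le_trans b2 (by norm_num))) List.Forall₂.nil)
  by_contra hc
  have hc := not_lt.1 hc
  simp only [List.mem_cons, List.not_mem_nil, or_false] at hf
  rcases hf with rfl
  · simp only [E.val, NumIs.lkR, QQ.t, QQ.k, QQ.w] at hp
    push_cast at hp
    try simp only [zero_div, div_one] at hp hc
    first
      | with_reducible exact absurd (sub_pos.1 hp) (not_lt.2 hc)
      | with_reducible exact absurd hp (not_lt.2 (add_le_of_le_neg hc))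
      | linarith

theorem r_r_one_0_1_1 {w : ℝ} (b1 : 100 / 10000 ≤ w) (b2 : w ≤ 400 / 10000) :
    -(137 / 1000) < 0 * uu w 0 + (-11 / 1000) + (0 / 1) * w - (uu (19 / 20 + w) 0 - uu (19 / 20) 0 - uu w 0) - (1 / 50) := by
  have h : chkT [add (sub (sub (add (add (mul (q 0 1) (E.uu QQ.w (q 0 1))) (q (-11) 1000)) (mul (q 0 1) QQ.w)) (sub (sub (E.uu (add (q 19 20) QQ.w) (q 0 1)) (E.uu (q 19 20) (q 0 1))) (E.uu QQ.w (q 0 1)))) (q 1 50)) (q 137 1000)] 30
    8
    [NumIs.V.of 10000 100 400] = true := by
    decide +kernel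
  obtain ⟨f, hf, hp⟩ := chkT_sound h (xs := [w])
    (List.Forall₂.cons (NumIs.V.of_mem (by norm_num) (le_trans (by norm_num) b1) (le_trans b2 (by norm_num))) List.Forall₂.nil)
  by_contra hc
  have hc := not_lt.1 hc
  simp only [List.mem_cons, List.not_mem_nil, or_false] at hf
  rcases hf with rfl
  · simp only [E.val, NumIs.lkR, QQ.t, QQ.k, QQ.w] at hp
    push_cast at hp
    try simp only [zero_div, div_one] at hp hc
    first
      | with_reducible exact absurd (sub_pos.1 hp) (not_lt.2 hc)
      | with_reducible exact absurd hp (not_lt.2 (add_le_of_le_neg hc))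
      | linarith

theorem r_r_one_0_1_2 {w : ℝ} (b1 : 400 / 10000 ≤ w) (b2 : w ≤ 500 / 10000) :
    -(137 / 1000) < 0 * uu w 0 + (-11 / 1000) + (0 / 1) * w - (uu (99 / 100) 0 - uu (19 / 20) 0 - uu w 0) - (1 / 50) := by
  have h : chkT [add (sub (sub (add (add (mul (q 0 1) (E.uu QQ.w (q 0 1))) (q (-11) 1000)) (mul (q 0 1) QQ.w)) (sub (sub (E.uu (q 99 100) (q 0 1)) (E.uu (q 19 20) (q 0 1))) (E.uu QQ.w (q 0 1)))) (q 1 50)) (q 137 1000)] 30
    8
    [NumIs.V.of 10000 400 500] = true := by
    decide +kernel
  obtain ⟨f, hf, hp⟩ := chkT_sound h (xs := [w])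
    (List.Forall₂.cons (NumIs.V.of_mem (by norm_num) (le_trans (by norm_num) b1) (le_trans b2 (by norm_num))) List.Forall₂.nil)
  by_contra hc
  have hc := not_lt.1 hc
  simp only [List.mem_cons, List.not_mem_nil, or_false] at hf
  rcases hf with rfl
  · simp only [E.val, NumIs.lkR, QQ.t, QQ.k, QQ.w] at hp
    push_cast at hp
    try simp only [zero_div, div_one] at hp hc
    first
      | with_reducible exact absurd (sub_pos.1 hp) (not_lt.2 hc)
      | with_reducible exact absurd hp (not_lt.2 (add_le_of_le_neg hc))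
      | linarith

theorem r_r_one_1_0_0 {w : ℝ} (b1 : 0 / 10000 ≤ w) (b2 : w ≤ 100 / 10000) :
    -(9 / 50) < 1 * uu (1 / 100) 0 + (-163 / 5000) + (779 / 1000) * w - (uu (13 / 20 + w) 0 - uu (13 / 20) 0 - uu (1 / 100) 0) - (-27 / 200) := by
  have h : chkT [add (sub (sub (add (add (mul (q 1 1) (E.uu (q 1 100) (q 0 1))) (q (-163) 5000)) (mul (q 779 1000) QQ.w)) (sub (sub (E.uu (add (q 13 20) QQ.w) (q 0 1)) (E.uu (q 13 20) (q 0 1))) (E.uu (q 1 100) (q 0 1)))) (q (-27) 200)) (q 9 50)] 30
    8
    [NumIs.V.of 10000 0 100] = true := by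
    decide +kernel
  obtain ⟨f, hf, hp⟩ := chkT_sound h (xs := [w])
    (List.Forall₂.cons (NumIs.V.of_mem (by norm_num) (le_trans (by norm_num) b1) (le_trans b2 (by norm_num))) List.Forall₂.nil)
  by_contra hc
  have hc := not_lt.1 hc
  simp only [List.mem_cons, List.not_mem_nil, or_false] at hf
  rcases hf with rfl
  · simp only [E.val, NumIs.lkR, QQ.t, QQ.k, QQ.w] at hp
    push_cast at hp
    try simp only [zero_div, div_one] at hp hc
    first
      | with_reducible exact absurd (sub_pos.1 hp) (not_lt.2 hc)
      | with_reducible exact absurd hp (not_lt.2 (add_le_of_le_neg hc))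
      | linarith

theorem r_r_one_1_0_1 {w : ℝ} (b1 : 100 / 10000 ≤ w) (b2 : w ≤ 1800 / 10000) :
    -(9 / 50) < 1 * uu w 0 + (-163 / 5000) + (779 / 1000) * w - (uu (13 / 20 + w) 0 - uu (13 / 20) 0 - uu w 0) - (-27 / 200) := by
  have h : chkT [add (sub (sub (add (add (mul (q 1 1) (E.uu QQ.w (q 0 1))) (q (-163) 5000)) (mul (q 779 1000) QQ.w)) (sub (sub (E.uu (add (q 13 20) QQ.w) (q 0 1)) (E.uu (q 13 20) (q 0 1))) (E.uu QQ.w (q 0 1)))) (q (-27) 200)) (q 9 50)] 30
    36516167680
    [NumIs.V.of 10000 100 1800] = true := by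
    decide +kernel
  obtain ⟨f, hf, hp⟩ := chkT_sound h (xs := [w])
    (List.Forall₂.cons (NumIs.V.of_mem (by norm_num) (le_trans (by norm_num) b1) (le_trans b2 (by norm_num))) List.Forall₂.nil)
  by_contra hc
  have hc := not_lt.1 hc
  simp only [List.mem_cons, List.not_mem_nil, or_false] at hf
  rcases hf with rfl
  · simp only [E.val, NumIs.lkR, QQ.t, QQ.k, QQ.w] at hp
    push_cast at hp
    try simp only [zero_div, div_one] at hp hc
    first
      | with_reducible exact absurd (sub_pos.1 hp) (not_lt.2 hc)
      | with_reducible exact absurd hp (not_lt.2 (add_le_of_le_neg hc))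
      | linarith

theorem r_r_one_1_1_0 {w : ℝ} (b1 : 0 / 10000 ≤ w) (b2 : w ≤ 100 / 10000) :
    -(9 / 50) < 1 * uu (1 / 100) 0 + (-163 / 5000) + (779 / 1000) * w - (uu (19 / 20 + w) 0 - uu (19 / 20) 0 - uu (1 / 100) 0) - (1 / 50) := by
  have h : chkT [add (sub (sub (add (add (mul (q 1 1) (E.uu (q 1 100) (q 0 1))) (q (-163) 5000)) (mul (q 779 1000) QQ.w)) (sub (sub (E.uu (add (q 19 20) QQ.w) (q 0 1)) (E.uu (q 19 20) (q 0 1))) (E.uu (q 1 100) (q 0 1)))) (q 1 50)) (q 9 50)] 30
    8
    [NumIs.V.of 10000 0 100] = true := by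
    decide +kernel
  obtain ⟨f, hf, hp⟩ := chkT_sound h (xs := [w])
    (List.Forall₂.cons (NumIs.V.of_mem (by norm_num) (le_trans (by norm_num) b1) (le_trans b2 (by norm_num))) List.Forall₂.nil)
  by_contra hc
  have hc := not_lt.1 hc
  simp only [List.mem_cons, List.not_mem_nil, or_false] at hf
  rcases hf with rfl
  · simp only [E.val, NumIs.lkR, QQ.t, QQ.k, QQ.w] at hp
    push_cast at hp
    try simp only [zero_div, div_one] at hp hc
    first
      | with_reducible exact absurd (sub_pos.1 hp) (not_lt.2 hc)
      | with_reducible exact absurd hp (not_lt.2 (add_le_of_le_neg hc))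
      | linarith

theorem r_r_one_1_1_1 {w : ℝ} (b1 : 100 / 10000 ≤ w) (b2 : w ≤ 400 / 10000) :
    -(9 / 50) < 1 * uu w 0 + (-163 / 5000) + (779 / 1000) * w - (uu (19 / 20 + w) 0 - uu (19 / 20) 0 - uu w 0) - (1 / 50) := by
  have h : chkT [add (sub (sub (add (add (mul (q 1 1) (E.uu QQ.w (q 0 1))) (q (-163) 5000)) (mul (q 779 1000) QQ.w)) (sub (sub (E.uu (add (q 19 20) QQ.w) (q 0 1)) (E.uu (q 19 20) (q 0 1))) (E.uu QQ.w (q 0 1)))) (q 1 50)) (q 9 50)] 30
    2176
    [NumIs.V.of 10000 100 400] = true := by
    decide +kernel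
  obtain ⟨f, hf, hp⟩ := chkT_sound h (xs := [w])
    (List.Forall₂.cons (NumIs.V.of_mem (by norm_num) (le_trans (by norm_num) b1) (le_trans b2 (by norm_num))) List.Forall₂.nil)
  by_contra hc
  have hc := not_lt.1 hc
  simp only [List.mem_cons, List.not_mem_nil, or_false] at hf
  rcases hf with rfl
  · simp only [E.val, NumIs.lkR, QQ.t, QQ.k, QQ.w] at hp
    push_cast at hp
    try simp only [zero_div, div_one] at hp hc
    first
      | with_reducible exact absurd (sub_pos.1 hp) (not_lt.2 hc)
      | with_reducible exact absurd hp (not_lt.2 (add_le_of_le_neg hc))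
      | linarith

theorem r_r_one_1_1_2 {w : ℝ} (b1 : 400 / 10000 ≤ w) (b2 : w ≤ 500 / 10000) :
    -(9 / 50) < 1 * uu w 0 + (-163 / 5000) + (779 / 1000) * w - (uu (99 / 100) 0 - uu (19 / 20) 0 - uu w 0) - (1 / 50) := by
  have h : chkT [add (sub (sub (add (add (mul (q 1 1) (E.uu QQ.w (q 0 1))) (q (-163) 5000)) (mul (q 779 1000) QQ.w)) (sub (sub (E.uu (q 99 100) (q 0 1)) (E.uu (q 19 20) (q 0 1))) (E.uu QQ.w (q 0 1)))) (q 1 50)) (q 9 50)] 30
    8
    [NumIs.V.of 10000 400 500] = true := by
    decide +kernel
  obtain ⟨f, hf, hp⟩ := chkT_sound h (xs := [w])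
    (List.Forall₂.cons (NumIs.V.of_mem (by norm_num) (le_trans (by norm_num) b1) (le_trans b2 (by norm_num))) List.Forall₂.nil)
  by_contra hc
  have hc := not_lt.1 hc
  simp only [List.mem_cons, List.not_mem_nil, or_false] at hf
  rcases hf with rfl
  · simp only [E.val, NumIs.lkR, QQ.t, QQ.k, QQ.w] at hp
    push_cast at hp
    try simp only [zero_div, div_one] at hp hc
    first
      | with_reducible exact absurd (sub_pos.1 hp) (not_lt.2 hc)
      | with_reducible exact absurd hp (not_lt.2 (add_le_of_le_neg hc))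
      | linarith

theorem r_r_one_2_0_0 {w : ℝ} (b1 : 1800 / 10000 ≤ w) (b2 : w ≤ 3300 / 10000) :
    -(189 / 1000) < 1 * uu w 0 + (164 / 625) + (-921 / 1000) * w - (uu (13 / 20 + w) 0 - uu (13 / 20) 0 - uu w 0) - (-27 / 200) := by
  have h : chkT [add (sub (sub (add (add (mul (q 1 1) (E.uu QQ.w (q 0 1))) (q 164 625)) (mul (q (-921) 1000) QQ.w)) (sub (sub (E.uu (add (q 13 20) QQ.w) (q 0 1)) (E.uu (q 13 20) (q 0 1))) (E.uu QQ.w (q 0 1)))) (q (-27) 200)) (q 189 1000)] 30
    142641152
    [NumIs.V.of 10000 1800 3300] = true := by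
    decide +kernel
  obtain ⟨f, hf, hp⟩ := chkT_sound h (xs := [w])
    (List.Forall₂.cons (NumIs.V.of_mem (by norm_num) (le_trans (by norm_num) b1) (le_trans b2 (by norm_num))) List.Forall₂.nil)
  by_contra hc
  have hc := not_lt.1 hc
  simp only [List.mem_cons, List.not_mem_nil, or_false] at hf
  rcases hf with rfl
  · simp only [E.val, NumIs.lkR, QQ.t, QQ.k, QQ.w] at hp
    push_cast at hp
    try simp only [zero_div, div_one] at hp hc
    first
      | with_reducible exact absurd (sub_pos.1 hp) (not_lt.2 hc)
      | with_reducible exact absurd hp (not_lt.2 (add_le_of_le_neg hc))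
      | linarith

theorem r_r_one_2_0_1 {w : ℝ} (b1 : 3300 / 10000 ≤ w) (b2 : w ≤ 3500 / 10000) :
    -(189 / 1000) < 1 * uu w 0 + (164 / 625) + (-921 / 1000) * w - (uu (49 / 50) 0 - uu (13 / 20) 0 - uu w 0) - (-27 / 200) := by
  have h : chkT [add (sub (sub (add (add (mul (q 1 1) (E.uu QQ.w (q 0 1))) (q 164 625)) (mul (q (-921) 1000) QQ.w)) (sub (sub (E.uu (q 49 50) (q 0 1)) (E.uu (q 13 20) (q 0 1))) (E.uu QQ.w (q 0 1)))) (q (-27) 200)) (q 189 1000)] 30
    8
    [NumIs.V.of 10000 3300 3500] = true := by
    decide +kernel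
  obtain ⟨f, hf, hp⟩ := chkT_sound h (xs := [w])
    (List.Forall₂.cons (NumIs.V.of_mem (by norm_num) (le_trans (by norm_num) b1) (le_trans b2 (by norm_num))) List.Forall₂.nil)
  by_contra hc
  have hc := not_lt.1 hc
  simp only [List.mem_cons, List.not_mem_nil, or_false] at hf
  rcases hf with rfl
  · simp only [E.val, NumIs.lkR, QQ.t, QQ.k, QQ.w] at hp
    push_cast at hp
    try simp only [zero_div, div_one] at hp hc
    first
      | with_reducible exact absurd (sub_pos.1 hp) (not_lt.2 hc)
      | with_reducible exact absurd hp (not_lt.2 (add_le_of_le_neg hc))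
      | linarith

theorem r_r_one_3_0_0 {w : ℝ} (b1 : 1800 / 10000 ≤ w) (b2 : w ≤ 3300 / 10000) :
    -(24 / 125) < 1 * uu w 0 + (1451 / 5000) + (-1021 / 1000) * w - (uu (13 / 20 + w) 0 - uu (13 / 20) 0 - uu w 0) - (-27 / 200) := by
  have h : chkT [add (sub (sub (add (add (mul (q 1 1) (E.uu QQ.w (q 0 1))) (q 1451 5000)) (mul (q (-1021) 1000) QQ.w)) (sub (sub (E.uu (add (q 13 20) QQ.w) (q 0 1)) (E.uu (q 13 20) (q 0 1))) (E.uu QQ.w (q 0 1)))) (q (-27) 200)) (q 24 125)] 30
    142641152
    [NumIs.V.of 10000 1800 3300] = true := by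
    decide +kernel
  obtain ⟨f, hf, hp⟩ := chkT_sound h (xs := [w])
    (List.Forall₂.cons (NumIs.V.of_mem (by norm_num) (le_trans (by norm_num) b1) (le_trans b2 (by norm_num))) List.Forall₂.nil)
  by_contra hc
  have hc := not_lt.1 hc
  simp only [List.mem_cons, List.not_mem_nil, or_false] at hf
  rcases hf with rfl
  · simp only [E.val, NumIs.lkR, QQ.t, QQ.k, QQ.w] at hp
    push_cast at hp
    try simp only [zero_div, div_one] at hp hc
    first
      | with_reducible exact absurd (sub_pos.1 hp) (not_lt.2 hc)
      | with_reducible exact absurd hp (not_lt.2 (add_le_of_le_neg hc))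
      | linarith

theorem r_r_one_3_0_1 {w : ℝ} (b1 : 3300 / 10000 ≤ w) (b2 : w ≤ 3500 / 10000) :
    -(24 / 125) < 1 * uu w 0 + (1451 / 5000) + (-1021 / 1000) * w - (uu (49 / 50) 0 - uu (13 / 20) 0 - uu w 0) - (-27 / 200) := by
  have h : chkT [add (sub (sub (add (add (mul (q 1 1) (E.uu QQ.w (q 0 1))) (q 1451 5000)) (mul (q (-1021) 1000) QQ.w)) (sub (sub (E.uu (q 49 50) (q 0 1)) (E.uu (q 13 20) (q 0 1))) (E.uu QQ.w (q 0 1)))) (q (-27) 200)) (q 24 125)] 30
    8
    [NumIs.V.of 10000 3300 3500] = true := by
    decide +kernel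
  obtain ⟨f, hf, hp⟩ := chkT_sound h (xs := [w])
    (List.Forall₂.cons (NumIs.V.of_mem (by norm_num) (le_trans (by norm_num) b1) (le_trans b2 (by norm_num))) List.Forall₂.nil)
  by_contra hc
  have hc := not_lt.1 hc
  simp only [List.mem_cons, List.not_mem_nil, or_false] at hf
  rcases hf with rfl
  · simp only [E.val, NumIs.lkR, QQ.t, QQ.k, QQ.w] at hp
    push_cast at hp
    try simp only [zero_div, div_one] at hp hc
    first
      | with_reducible exact absurd (sub_pos.1 hp) (not_lt.2 hc)
      | with_reducible exact absurd hp (not_lt.2 (add_le_of_le_neg hc))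
      | linarith

theorem r_r_two_0_0_0 {w : ℝ} (b1 : 0 / 10000 ≤ w) (b2 : w ≤ 100 / 10000) :
    -(21 / 100) < 1 * uu (1 / 100) 0 + (53 / 625) + (-37 / 250) * w - (uu (13 / 20 + w) 0 - uu (13 / 20) 0 - uu (1 / 100) 0) - (-27 / 200) := by
  have h : chkT [add (sub (sub (add (add (mul (q 1 1) (E.uu (q 1 100) (q 0 1))) (q 53 625)) (mul (q (-37) 250) QQ.w)) (sub (sub (E.uu (add (q 13 20) QQ.w) (q 0 1)) (E.uu (q 13 20) (q 0 1))) (E.uu (q 1 100) (q 0 1)))) (q (-27) 200)) (q 21 100)] 30
    8
    [NumIs.V.of 10000 0 100] = true := by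
    decide +kernel
  obtain ⟨f, hf, hp⟩ := chkT_sound h (xs := [w])
    (List.Forall₂.cons (NumIs.V.of_mem (by norm_num) (le_trans (by norm_num) b1) (le_trans b2 (by norm_num))) List.Forall₂.nil)
  by_contra hc
  have hc := not_lt.1 hc
  simp only [List.mem_cons, List.not_mem_nil, or_false] at hf
  rcases hf with rfl
  · simp only [E.val, NumIs.lkR, QQ.t, QQ.k, QQ.w] at hp
    push_cast at hp
    try simp only [zero_div, div_one] at hp hc
    first
      | with_reducible exact absurd (sub_pos.1 hp) (not_lt.2 hc)
      | with_reducible exact absurd hp (not_lt.2 (add_le_of_le_neg hc))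
      | linarith

theorem r_r_two_0_0_1 {w : ℝ} (b1 : 100 / 10000 ≤ w) (b2 : w ≤ 3300 / 10000) :
    -(21 / 100) < 1 * uu w 0 + (53 / 625) + (-37 / 250) * w - (uu (13 / 20 + w) 0 - uu (13 / 20) 0 - uu w 0) - (-27 / 200) := by
  have h : chkT [add (sub (sub (add (add (mul (q 1 1) (E.uu QQ.w (q 0 1))) (q 53 625)) (mul (q (-37) 250) QQ.w)) (sub (sub (E.uu (add (q 13 20) QQ.w) (q 0 1)) (E.uu (q 13 20) (q 0 1))) (E.uu QQ.w (q 0 1)))) (q (-27) 200)) (q 21 100)] 30
    612639085186023424
    [NumIs.V.of 10000 100 3300] = true := by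
    decide +kernel
  obtain ⟨f, hf, hp⟩ := chkT_sound h (xs := [w])
    (List.Forall₂.cons (NumIs.V.of_mem (by norm_num) (le_trans (by norm_num) b1) (le_trans b2 (by norm_num))) List.Forall₂.nil)
  by_contra hc
  have hc := not_lt.1 hc
  simp only [List.mem_cons, List.not_mem_nil, or_false] at hf
  rcases hf with rfl
  · simp only [E.val, NumIs.lkR, QQ.t, QQ.k, QQ.w] at hp
    push_cast at hp
    try simp only [zero_div, div_one] at hp hc
    first
      | with_reducible exact absurd (sub_pos.1 hp) (not_lt.2 hc)
      | with_reducible exact absurd hp (not_lt.2 (add_le_of_le_neg hc))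
      | linarith

theorem r_r_two_0_0_2 {w : ℝ} (b1 : 3300 / 10000 ≤ w) (b2 : w ≤ 3500 / 10000) :
    -(21 / 100) < 1 * uu w 0 + (53 / 625) + (-37 / 250) * w - (uu (49 / 50) 0 - uu (13 / 20) 0 - uu w 0) - (-27 / 200) := by
  have h : chkT [add (sub (sub (add (add (mul (q 1 1) (E.uu QQ.w (q 0 1))) (q 53 625)) (mul (q (-37) 250) QQ.w)) (sub (sub (E.uu (q 49 50) (q 0 1)) (E.uu (q 13 20) (q 0 1))) (E.uu QQ.w (q 0 1)))) (q (-27) 200)) (q 21 100)] 30
    8
    [NumIs.V.of 10000 3300 3500] = true := by
    decide +kernel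
  obtain ⟨f, hf, hp⟩ := chkT_sound h (xs := [w])
    (List.Forall₂.cons (NumIs.V.of_mem (by norm_num) (le_trans (by norm_num) b1) (le_trans b2 (by norm_num))) List.Forall₂.nil)
  by_contra hc
  have hc := not_lt.1 hc
  simp only [List.mem_cons, List.not_mem_nil, or_false] at hf
  rcases hf with rfl
  · simp only [E.val, NumIs.lkR, QQ.t, QQ.k, QQ.w] at hp
    push_cast at hp
    try simp only [zero_div, div_one] at hp hc
    first
      | with_reducible exact absurd (sub_pos.1 hp) (not_lt.2 hc)
      | with_reducible exact absurd hp (not_lt.2 (add_le_of_le_neg hc))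
      | linarith

theorem r_r_two_0_1_0 {w : ℝ} (b1 : 0 / 10000 ≤ w) (b2 : w ≤ 100 / 10000) :
    -(21 / 100) < 1 * uu (1 / 100) 0 + (53 / 625) + (-37 / 250) * w - (uu (19 / 20 + w) 0 - uu (19 / 20) 0 - uu (1 / 100) 0) - (1 / 50) := by
  have h : chkT [add (sub (sub (add (add (mul (q 1 1) (E.uu (q 1 100) (q 0 1))) (q 53 625)) (mul (q (-37) 250) QQ.w)) (sub (sub (E.uu (add (q 19 20) QQ.w) (q 0 1)) (E.uu (q 19 20) (q 0 1))) (E.uu (q 1 100) (q 0 1)))) (q 1 50)) (q 21 100)] 30
    8
    [NumIs.V.of 10000 0 100] = true := by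
    decide +kernel
  obtain ⟨f, hf, hp⟩ := chkT_sound h (xs := [w])
    (List.Forall₂.cons (NumIs.V.of_mem (by norm_num) (le_trans (by norm_num) b1) (le_trans b2 (by norm_num))) List.Forall₂.nil)
  by_contra hc
  have hc := not_lt.1 hc
  simp only [List.mem_cons, List.not_mem_nil, or_false] at hf
  rcases hf with rfl
  · simp only [E.val, NumIs.lkR, QQ.t, QQ.k, QQ.w] at hp
    push_cast at hp
    try simp only [zero_div, div_one] at hp hc
    first
      | with_reducible exact absurd (sub_pos.1 hp) (not_lt.2 hc)
      | with_reducible exact absurd hp (not_lt.2 (add_le_of_le_neg hc))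
      | linarith

theorem r_r_two_0_1_1 {w : ℝ} (b1 : 100 / 10000 ≤ w) (b2 : w ≤ 400 / 10000) :
    -(21 / 100) < 1 * uu w 0 + (53 / 625) + (-37 / 250) * w - (uu (19 / 20 + w) 0 - uu (19 / 20) 0 - uu w 0) - (1 / 50) := by
  have h : chkT [add (sub (sub (add (add (mul (q 1 1) (E.uu QQ.w (q 0 1))) (q 53 625)) (mul (q (-37) 250) QQ.w)) (sub (sub (E.uu (add (q 19 20) QQ.w) (q 0 1)) (E.uu (q 19 20) (q 0 1))) (E.uu QQ.w (q 0 1)))) (q 1 50)) (q 21 100)] 30
    8
    [NumIs.V.of 10000 100 400] = true := by
    decide +kernel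
  obtain ⟨f, hf, hp⟩ := chkT_sound h (xs := [w])
    (List.Forall₂.cons (NumIs.V.of_mem (by norm_num) (le_trans (by norm_num) b1) (le_trans b2 (by norm_num))) List.Forall₂.nil)
  by_contra hc
  have hc := not_lt.1 hc
  simp only [List.mem_cons, List.not_mem_nil, or_false] at hf
  rcases hf with rfl
  · simp only [E.val, NumIs.lkR, QQ.t, QQ.k, QQ.w] at hp
    push_cast at hp
    try simp only [zero_div, div_one] at hp hc
    first
      | with_reducible exact absurd (sub_pos.1 hp) (not_lt.2 hc)
      | with_reducible exact absurd hp (not_lt.2 (add_le_of_le_neg hc))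
      | linarith

theorem r_r_two_0_1_2 {w : ℝ} (b1 : 400 / 10000 ≤ w) (b2 : w ≤ 500 / 10000) :
    -(21 / 100) < 1 * uu w 0 + (53 / 625) + (-37 / 250) * w - (uu (99 / 100) 0 - uu (19 / 20) 0 - uu w 0) - (1 / 50) := by
  have h : chkT [add (sub (sub (add (add (mul (q 1 1) (E.uu QQ.w (q 0 1))) (q 53 625)) (mul (q (-37) 250) QQ.w)) (sub (sub (E.uu (q 99 100) (q 0 1)) (E.uu (q 19 20) (q 0 1))) (E.uu QQ.w (q 0 1)))) (q 1 50)) (q 21 100)] 30
    8
    [NumIs.V.of 10000 400 500] = true := by
    decide +kernel
  obtain ⟨f, hf, hp⟩ := chkT_sound h (xs := [w])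
    (List.Forall₂.cons (NumIs.V.of_mem (by norm_num) (le_trans (by norm_num) b1) (le_trans b2 (by norm_num))) List.Forall₂.nil)
  by_contra hc
  have hc := not_lt.1 hc
  simp only [List.mem_cons, List.not_mem_nil, or_false] at hf
  rcases hf with rfl
  · simp only [E.val, NumIs.lkR, QQ.t, QQ.k, QQ.w] at hp
    push_cast at hp
    try simp only [zero_div, div_one] at hp hc
    first
      | with_reducible exact absurd (sub_pos.1 hp) (not_lt.2 hc)
      | with_reducible exact absurd hp (not_lt.2 (add_le_of_le_neg hc))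
      | linarith

theorem r_r_twoE_0_0_0 {w : ℝ} (b1 : 0 / 10000 ≤ w) (b2 : w ≤ 100 / 10000) :
    -(23 / 100) < 1 * uu (1 / 100) 0 + (309 / 2000) + (0 / 1) * w - (uu (13 / 20 + w) 0 - uu (13 / 20) 0 - uu (1 / 100) 0) - (-27 / 200) := by
  have h : chkT [add (sub (sub (add (add (mul (q 1 1) (E.uu (q 1 100) (q 0 1))) (q 309 2000)) (mul (q 0 1) QQ.w)) (sub (sub (E.uu (add (q 13 20) QQ.w) (q 0 1)) (E.uu (q 13 20) (q 0 1))) (E.uu (q 1 100) (q 0 1)))) (q (-27) 200)) (q 23 100)] 30
    8
    [NumIs.V.of 10000 0 100] = true := by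
    decide +kernel
  obtain ⟨f, hf, hp⟩ := chkT_sound h (xs := [w])
    (List.Forall₂.cons (NumIs.V.of_mem (by norm_num) (le_trans (by norm_num) b1) (le_trans b2 (by norm_num))) List.Forall₂.nil)
  by_contra hc
  have hc := not_lt.1 hc
  simp only [List.mem_cons, List.not_mem_nil, or_false] at hf
  rcases hf with rfl
  · simp only [E.val, NumIs.lkR, QQ.t, QQ.k, QQ.w] at hp
    push_cast at hp
    try simp only [zero_div, div_one] at hp hc
    first
      | with_reducible exact absurd (sub_pos.1 hp) (not_lt.2 hc)
      | with_reducible exact absurd hp (not_lt.2 (add_le_of_le_neg hc))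
      | linarith

theorem r_r_twoE_0_0_1 {w : ℝ} (b1 : 100 / 10000 ≤ w) (b2 : w ≤ 3300 / 10000) :
    -(23 / 100) < 1 * uu w 0 + (309 / 2000) + (0 / 1) * w - (uu (13 / 20 + w) 0 - uu (13 / 20) 0 - uu w 0) - (-27 / 200) := by
  have h : chkT [add (sub (sub (add (add (mul (q 1 1) (E.uu QQ.w (q 0 1))) (q 309 2000)) (mul (q 0 1) QQ.w)) (sub (sub (E.uu (add (q 13 20) QQ.w) (q 0 1)) (E.uu (q 13 20) (q 0 1))) (E.uu QQ.w (q 0 1)))) (q (-27) 200)) (q 23 100)] 30
    36516167680
    [NumIs.V.of 10000 100 3300] = true := by
    decide +kernel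
  obtain ⟨f, hf, hp⟩ := chkT_sound h (xs := [w])
    (List.Forall₂.cons (NumIs.V.of_mem (by norm_num) (le_trans (by norm_num) b1) (le_trans b2 (by norm_num))) List.Forall₂.nil)
  by_contra hc
  have hc := not_lt.1 hc
  simp only [List.mem_cons, List.not_mem_nil, or_false] at hf
  rcases hf with rfl
  · simp only [E.val, NumIs.lkR, QQ.t, QQ.k, QQ.w] at hp
    push_cast at hp
    try simp only [zero_div, div_one] at hp hc
    first
      | with_reducible exact absurd (sub_pos.1 hp) (not_lt.2 hc)
      | with_reducible exact absurd hp (not_lt.2 (add_le_of_le_neg hc))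
      | linarith

theorem r_r_twoE_0_0_2 {w : ℝ} (b1 : 3300 / 10000 ≤ w) (b2 : w ≤ 3500 / 10000) :
    -(23 / 100) < 1 * uu w 0 + (309 / 2000) + (0 / 1) * w - (uu (49 / 50) 0 - uu (13 / 20) 0 - uu w 0) - (-27 / 200) := by
  have h : chkT [add (sub (sub (add (add (mul (q 1 1) (E.uu QQ.w (q 0 1))) (q 309 2000)) (mul (q 0 1) QQ.w)) (sub (sub (E.uu (q 49 50) (q 0 1)) (E.uu (q 13 20) (q 0 1))) (E.uu QQ.w (q 0 1)))) (q (-27) 200)) (q 23 100)] 30
    8
    [NumIs.V.of 10000 3300 3500] = true := by
    decide +kernel
  obtain ⟨f, hf, hp⟩ := chkT_sound h (xs := [w])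
    (List.Forall₂.cons (NumIs.V.of_mem (by norm_num) (le_trans (by norm_num) b1) (le_trans b2 (by norm_num))) List.Forall₂.nil)
  by_contra hc
  have hc := not_lt.1 hc
  simp only [List.mem_cons, List.not_mem_nil, or_false] at hf
  rcases hf with rfl
  · simp only [E.val, NumIs.lkR, QQ.t, QQ.k, QQ.w] at hp
    push_cast at hp
    try simp only [zero_div, div_one] at hp hc
    first
      | with_reducible exact absurd (sub_pos.1 hp) (not_lt.2 hc)
      | with_reducible exact absurd hp (not_lt.2 (add_le_of_le_neg hc))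
      | linarith

theorem r_r_twoE_0_1_0 {w : ℝ} (b1 : 0 / 10000 ≤ w) (b2 : w ≤ 100 / 10000) :
    -(23 / 100) < 1 * uu (1 / 100) 0 + (309 / 2000) + (0 / 1) * w - (uu (19 / 20 + w) 0 - uu (19 / 20) 0 - uu (1 / 100) 0) - (1 / 50) := by
  have h : chkT [add (sub (sub (add (add (mul (q 1 1) (E.uu (q 1 100) (q 0 1))) (q 309 2000)) (mul (q 0 1) QQ.w)) (sub (sub (E.uu (add (q 19 20) QQ.w) (q 0 1)) (E.uu (q 19 20) (q 0 1))) (E.uu (q 1 100) (q 0 1)))) (q 1 50)) (q 23 100)] 30
    8
    [NumIs.V.of 10000 0 100] = true := by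
    decide +kernel
  obtain ⟨f, hf, hp⟩ := chkT_sound h (xs := [w])
    (List.Forall₂.cons (NumIs.V.of_mem (by norm_num) (le_trans (by norm_num) b1) (le_trans b2 (by norm_num))) List.Forall₂.nil)
  by_contra hc
  have hc := not_lt.1 hc
  simp only [List.mem_cons, List.not_mem_nil, or_false] at hf
  rcases hf with rfl
  · simp only [E.val, NumIs.lkR, QQ.t, QQ.k, QQ.w] at hp
    push_cast at hp
    try simp only [zero_div, div_one] at hp hc
    first
      | with_reducible exact absurd (sub_pos.1 hp) (not_lt.2 hc)
      | with_reducible exact absurd hp (not_lt.2 (add_le_of_le_neg hc))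
      | linarith

theorem r_r_twoE_0_1_1 {w : ℝ} (b1 : 100 / 10000 ≤ w) (b2 : w ≤ 400 / 10000) :
    -(23 / 100) < 1 * uu w 0 + (309 / 2000) + (0 / 1) * w - (uu (19 / 20 + w) 0 - uu (19 / 20) 0 - uu w 0) - (1 / 50) := by
  have h : chkT [add (sub (sub (add (add (mul (q 1 1) (E.uu QQ.w (q 0 1))) (q 309 2000)) (mul (q 0 1) QQ.w)) (sub (sub (E.uu (add (q 19 20) QQ.w) (q 0 1)) (E.uu (q 19 20) (q 0 1))) (E.uu QQ.w (q 0 1)))) (q 1 50)) (q 23 100)] 30
    8
    [NumIs.V.of 10000 100 400] = true := by
    decide +kernel
  obtain ⟨f, hf, hp⟩ := chkT_sound h (xs := [w])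
    (List.Forall₂.cons (NumIs.V.of_mem (by norm_num) (le_trans (by norm_num) b1) (le_trans b2 (by norm_num))) List.Forall₂.nil)
  by_contra hc
  have hc := not_lt.1 hc
  simp only [List.mem_cons, List.not_mem_nil, or_false] at hf
  rcases hf with rfl
  · simp only [E.val, NumIs.lkR, QQ.t, QQ.k, QQ.w] at hp
    push_cast at hp
    try simp only [zero_div, div_one] at hp hc
    first
      | with_reducible exact absurd (sub_pos.1 hp) (not_lt.2 hc)
      | with_reducible exact absurd hp (not_lt.2 (add_le_of_le_neg hc))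
      | linarith

theorem r_r_twoE_0_1_2 {w : ℝ} (b1 : 400 / 10000 ≤ w) (b2 : w ≤ 500 / 10000) :
    -(23 / 100) < 1 * uu w 0 + (309 / 2000) + (0 / 1) * w - (uu (99 / 100) 0 - uu (19 / 20) 0 - uu w 0) - (1 / 50) := by
  have h : chkT [add (sub (sub (add (add (mul (q 1 1) (E.uu QQ.w (q 0 1))) (q 309 2000)) (mul (q 0 1) QQ.w)) (sub (sub (E.uu (q 99 100) (q 0 1)) (E.uu (q 19 20) (q 0 1))) (E.uu QQ.w (q 0 1)))) (q 1 50)) (q 23 100)] 30
    8
    [NumIs.V.of 10000 400 500] = true := by
    decide +kernel
  obtain ⟨f, hf, hp⟩ := chkT_sound h (xs := [w])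
    (List.Forall₂.cons (NumIs.V.of_mem (by norm_num) (le_trans (by norm_num) b1) (le_trans b2 (by norm_num))) List.Forall₂.nil)
  by_contra hc
  have hc := not_lt.1 hc
  simp only [List.mem_cons, List.not_mem_nil, or_false] at hf
  rcases hf with rfl
  · simp only [E.val, NumIs.lkR, QQ.t, QQ.k, QQ.w] at hp
    push_cast at hp
    try simp only [zero_div, div_one] at hp hc
    first
      | with_reducible exact absurd (sub_pos.1 hp) (not_lt.2 hc)
      | with_reducible exact absurd hp (not_lt.2 (add_le_of_le_neg hc))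
      | linarith

theorem r_r_touched_0_0_0 {w : ℝ} (b1 : 0 / 10000 ≤ w) (b2 : w ≤ 100 / 10000) :
    -(1 / 5) < 0 * uu (1 / 100) 0 + (0 / 1) + (0 / 1) * w - (uu (13 / 20 + w) 0 - uu (13 / 20) 0 - uu (1 / 100) 0) - (-27 / 200) := by
  have h : chkT [add (sub (sub (add (add (mul (q 0 1) (E.uu (q 1 100) (q 0 1))) (q 0 1)) (mul (q 0 1) QQ.w)) (sub (sub (E.uu (add (q 13 20) QQ.w) (q 0 1)) (E.uu (q 13 20) (q 0 1))) (E.uu (q 1 100) (q 0 1)))) (q (-27) 200)) (q 1 5)] 30
    8
    [NumIs.V.of 10000 0 100] = true := by
    decide +kernel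
  obtain ⟨f, hf, hp⟩ := chkT_sound h (xs := [w])
    (List.Forall₂.cons (NumIs.V.of_mem (by norm_num) (le_trans (by norm_num) b1) (le_trans b2 (by norm_num))) List.Forall₂.nil)
  by_contra hc
  have hc := not_lt.1 hc
  simp only [List.mem_cons, List.not_mem_nil, or_false] at hf
  rcases hf with rfl
  · simp only [E.val, NumIs.lkR, QQ.t, QQ.k, QQ.w] at hp
    push_cast at hp
    try simp only [zero_div, div_one] at hp hc
    first
      | with_reducible exact absurd (sub_pos.1 hp) (not_lt.2 hc)
      | with_reducible exact absurd hp (not_lt.2 (add_le_of_le_neg hc))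
      | linarith

theorem r_r_touched_0_0_1 {w : ℝ} (b1 : 100 / 10000 ≤ w) (b2 : w ≤ 3300 / 10000) :
    -(1 / 5) < 0 * uu w 0 + (0 / 1) + (0 / 1) * w - (uu (13 / 20 + w) 0 - uu (13 / 20) 0 - uu w 0) - (-27 / 200) := by
  have h : chkT [add (sub (sub (add (add (mul (q 0 1) (E.uu QQ.w (q 0 1))) (q 0 1)) (mul (q 0 1) QQ.w)) (sub (sub (E.uu (add (q 13 20) QQ.w) (q 0 1)) (E.uu (q 13 20) (q 0 1))) (E.uu QQ.w (q 0 1)))) (q (-27) 200)) (q 1 5)] 30
    9348005265408
    [NumIs.V.of 10000 100 3300] = true := by
    decide +kernel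
  obtain ⟨f, hf, hp⟩ := chkT_sound h (xs := [w])
    (List.Forall₂.cons (NumIs.V.of_mem (by norm_num) (le_trans (by norm_num) b1) (le_trans b2 (by norm_num))) List.Forall₂.nil)
  by_contra hc
  have hc := not_lt.1 hc
  simp only [List.mem_cons, List.not_mem_nil, or_false] at hf
  rcases hf with rfl
  · simp only [E.val, NumIs.lkR, QQ.t, QQ.k, QQ.w] at hp
    push_cast at hp
    try simp only [zero_div, div_one] at hp hc
    first
      | with_reducible exact absurd (sub_pos.1 hp) (not_lt.2 hc)
      | with_reducible exact absurd hp (not_lt.2 (add_le_of_le_neg hc))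
      | linarith

theorem r_r_touched_0_0_2 {w : ℝ} (b1 : 3300 / 10000 ≤ w) (b2 : w ≤ 3500 / 10000) :
    -(1 / 5) < 0 * uu w 0 + (0 / 1) + (0 / 1) * w - (uu (49 / 50) 0 - uu (13 / 20) 0 - uu w 0) - (-27 / 200) := by
  have h : chkT [add (sub (sub (add (add (mul (q 0 1) (E.uu QQ.w (q 0 1))) (q 0 1)) (mul (q 0 1) QQ.w)) (sub (sub (E.uu (q 49 50) (q 0 1)) (E.uu (q 13 20) (q 0 1))) (E.uu QQ.w (q 0 1)))) (q (-27) 200)) (q 1 5)] 30
    8
    [NumIs.V.of 10000 3300 3500] = true := by
    decide +kernel
  obtain ⟨f, hf, hp⟩ := chkT_sound h (xs := [w])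
    (List.Forall₂.cons (NumIs.V.of_mem (by norm_num) (le_trans (by norm_num) b1) (le_trans b2 (by norm_num))) List.Forall₂.nil)
  by_contra hc
  have hc := not_lt.1 hc
  simp only [List.mem_cons, List.not_mem_nil, or_false] at hf
  rcases hf with rfl
  · simp only [E.val, NumIs.lkR, QQ.t, QQ.k, QQ.w] at hp
    push_cast at hp
    try simp only [zero_div, div_one] at hp hc
    first
      | with_reducible exact absurd (sub_pos.1 hp) (not_lt.2 hc)
      | with_reducible exact absurd hp (not_lt.2 (add_le_of_le_neg hc))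
      | linarith

theorem r_r_touched_0_1_0 {w : ℝ} (b1 : 0 / 10000 ≤ w) (b2 : w ≤ 100 / 10000) :
    -(1 / 5) < 0 * uu (1 / 100) 0 + (0 / 1) + (0 / 1) * w - (uu (19 / 20 + w) 0 - uu (19 / 20) 0 - uu (1 / 100) 0) - (1 / 50) := by
  have h : chkT [add (sub (sub (add (add (mul (q 0 1) (E.uu (q 1 100) (q 0 1))) (q 0 1)) (mul (q 0 1) QQ.w)) (sub (sub (E.uu (add (q 19 20) QQ.w) (q 0 1)) (E.uu (q 19 20) (q 0 1))) (E.uu (q 1 100) (q 0 1)))) (q 1 50)) (q 1 5)] 30
    8
    [NumIs.V.of 10000 0 100] = true := by
    decide +kernel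
  obtain ⟨f, hf, hp⟩ := chkT_sound h (xs := [w])
    (List.Forall₂.cons (NumIs.V.of_mem (by norm_num) (le_trans (by norm_num) b1) (le_trans b2 (by norm_num))) List.Forall₂.nil)
  by_contra hc
  have hc := not_lt.1 hc
  simp only [List.mem_cons, List.not_mem_nil, or_false] at hf
  rcases hf with rfl
  · simp only [E.val, NumIs.lkR, QQ.t, QQ.k, QQ.w] at hp
    push_cast at hp
    try simp only [zero_div, div_one] at hp hc
    first
      | with_reducible exact absurd (sub_pos.1 hp) (not_lt.2 hc)
      | with_reducible exact absurd hp (not_lt.2 (add_le_of_le_neg hc))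
      | linarith

theorem r_r_touched_0_1_1 {w : ℝ} (b1 : 100 / 10000 ≤ w) (b2 : w ≤ 400 / 10000) :
    -(1 / 5) < 0 * uu w 0 + (0 / 1) + (0 / 1) * w - (uu (19 / 20 + w) 0 - uu (19 / 20) 0 - uu w 0) - (1 / 50) := by
  have h : chkT [add (sub (sub (add (add (mul (q 0 1) (E.uu QQ.w (q 0 1))) (q 0 1)) (mul (q 0 1) QQ.w)) (sub (sub (E.uu (add (q 19 20) QQ.w) (q 0 1)) (E.uu (q 19 20) (q 0 1))) (E.uu QQ.w (q 0 1)))) (q 1 50)) (q 1 5)] 30
    8
    [NumIs.V.of 10000 100 400] = true := by
    decide +kernel
  obtain ⟨f, hf, hp⟩ := chkT_sound h (xs := [w])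
    (List.Forall₂.cons (NumIs.V.of_mem (by norm_num) (le_trans (by norm_num) b1) (le_trans b2 (by norm_num))) List.Forall₂.nil)
  by_contra hc
  have hc := not_lt.1 hc
  simp only [List.mem_cons, List.not_mem_nil, or_false] at hf
  rcases hf with rfl
  · simp only [E.val, NumIs.lkR, QQ.t, QQ.k, QQ.w] at hp
    push_cast at hp
    try simp only [zero_div, div_one] at hp hc
    first
      | with_reducible exact absurd (sub_pos.1 hp) (not_lt.2 hc)
      | with_reducible exact absurd hp (not_lt.2 (add_le_of_le_neg hc))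
      | linarith

theorem r_r_touched_0_1_2 {w : ℝ} (b1 : 400 / 10000 ≤ w) (b2 : w ≤ 500 / 10000) :
    -(1 / 5) < 0 * uu w 0 + (0 / 1) + (0 / 1) * w - (uu (99 / 100) 0 - uu (19 / 20) 0 - uu w 0) - (1 / 50) := by
  have h : chkT [add (sub (sub (add (add (mul (q 0 1) (E.uu QQ.w (q 0 1))) (q 0 1)) (mul (q 0 1) QQ.w)) (sub (sub (E.uu (q 99 100) (q 0 1)) (E.uu (q 19 20) (q 0 1))) (E.uu QQ.w (q 0 1)))) (q 1 50)) (q 1 5)] 30
    8
    [NumIs.V.of 10000 400 500] = true := by
    decide +kernel
  obtain ⟨f, hf, hp⟩ := chkT_sound h (xs := [w])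
    (List.Forall₂.cons (NumIs.V.of_mem (by norm_num) (le_trans (by norm_num) b1) (le_trans b2 (by norm_num))) List.Forall₂.nil)
  by_contra hc
  have hc := not_lt.1 hc
  simp only [List.mem_cons, List.not_mem_nil, or_false] at hf
  rcases hf with rfl
  · simp only [E.val, NumIs.lkR, QQ.t, QQ.k, QQ.w] at hp
    push_cast at hp
    try simp only [zero_div, div_one] at hp hc
    first
      | with_reducible exact absurd (sub_pos.1 hp) (not_lt.2 hc)
      | with_reducible exact absurd hp (not_lt.2 (add_le_of_le_neg hc))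
      | linarith


end TL.K1b

end Pool.Agent.Work.MP_b30479_gtS.G2

end

section

/-!
# Tails: side of a digit `1` next to a ring, `x >= 95/100`: rows
-/

set_option linter.unusedSimpArgs false
set_option linter.unusedVariables false

set_option deprecated.oldSectionVars true

namespace Pool.Agent.Work.MP_b30479_gtS.G2

open VOL NumUs

namespace TL.K5

open NumUs.E 

def QR.t : E := var 0
def QR.k : E := var 1
def QR.w : E := var 0

theorem f5_one_0 {t k : ℝ} (_ : 380 / 10000 ≤ t) (_ : t ≤ 1360 / 10000) (_ : -(800 / 10000) ≤ k) (_ : k ≤ 510 / 10000) (_ : t + k ≤ 143 / 1000) (_ : -1 / 100 ≤ t + k) :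
    9 / 100 < Real.pi * (1 / 4 * k + t * (9 / 50) - t - k) + uu (43 / 100) (t + k) - uu (1 / 4) t - uu (9 / 50) k + 17 / 10 * t + 3927 / 1250 * k := by
  have h : chkT [sub (add (add (sub (sub (add (mul pi (sub (sub (add (mul (q 1 4) QR.k) (mul QR.t (q 9 50))) QR.t) QR.k)) (E.uu (q 43 100) (add QR.t QR.k))) (E.uu (q 1 4) QR.t)) (E.uu (q 9 50) QR.k)) (mul (q 17 10) QR.t)) (mul (q 3927 1250) QR.k)) (q 9 100), sub (add QR.t QR.k) (q 143 1000), sub (q (-1) 100) (add QR.t QR.k)] 30
    2177
    [NumIs.V.of 10000 380 1360, NumIs.V.of 10000 (-800) 510] = true := by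
    decide +kernel
  obtain ⟨f, hf, hp⟩ := chkT2 h (by norm_num) (x := t) (y := k)
    (by norm_num; linarith) (by norm_num; linarith) (by norm_num; linarith) (by norm_num; linarith)
  by_contra hc
  push Not at hc
  simp only [List.mem_cons, List.not_mem_nil, or_false] at hf
  rcases hf with rfl | rfl | rfl
  · simp only [E.val, NumIs.lkR, QR.t, QR.k, QR.w] at hp
    push_cast at hp
    linarith
  · simp only [E.val, NumIs.lkR, QR.t, QR.k, QR.w] at hp
    push_cast at hp
    linarith
  · simp only [E.val, NumIs.lkR, QR.t, QR.k, QR.w] at hp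
    push_cast at hp
    linarith

theorem f5_one_1 {t k : ℝ} (_ : 380 / 10000 ≤ t) (_ : t ≤ 1360 / 10000) (_ : -(800 / 10000) ≤ k) (_ : k ≤ 510 / 10000) (_ : t + k ≤ 143 / 1000) (_ : -1 / 100 ≤ t + k) :
    73 / 500 < Real.pi * (1 / 4 * k + t * (9 / 50) - t - k) + uu (43 / 100) (t + k) - uu (1 / 4) t - uu (9 / 50) k + 17 / 10 * t + 821 / 500 * k := by
  have h : chkT [sub (add (add (sub (sub (add (mul pi (sub (sub (add (mul (q 1 4) QR.k) (mul QR.t (q 9 50))) QR.t) QR.k)) (E.uu (q 43 100) (add QR.t QR.k))) (E.uu (q 1 4) QR.t)) (E.uu (q 9 50) QR.k)) (mul (q 17 10) QR.t)) (mul (q 821 500) QR.k)) (q 73 500), sub (add QR.t QR.k) (q 143 1000), sub (q (-1) 100) (add QR.t QR.k)] 30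
    14030381439658795469145229620471241020517724029057
    [NumIs.V.of 10000 380 1360, NumIs.V.of 10000 (-800) 510] = true := by
    decide +kernel
  obtain ⟨f, hf, hp⟩ := chkT2 h (by norm_num) (x := t) (y := k)
    (by norm_num; linarith) (by norm_num; linarith) (by norm_num; linarith) (by norm_num; linarith)
  by_contra hc
  push Not at hc
  simp only [List.mem_cons, List.not_mem_nil, or_false] at hf
  rcases hf with rfl | rfl | rfl
  · simp only [E.val, NumIs.lkR, QR.t, QR.k, QR.w] at hp
    push_cast at hp
    linarith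
  · simp only [E.val, NumIs.lkR, QR.t, QR.k, QR.w] at hp
    push_cast at hp
    linarith
  · simp only [E.val, NumIs.lkR, QR.t, QR.k, QR.w] at hp
    push_cast at hp
    linarith

theorem f5_two_0 {t k : ℝ} (_ : 630 / 10000 ≤ t) (_ : t ≤ 1450 / 10000) (_ : -(80 / 10000) ≤ k) (_ : k ≤ 800 / 10000) (_ : t + k ≤ 187 / 1000) (_ : 47 / 500 ≤ t + k) :
    61 / 500 < Real.pi * (1 / 4 * k + t * (1 / 4) - t - k) + uu (1 / 2) (t + k) - uu (1 / 4) t - uu (1 / 4) k + 17 / 10 * t + 1571 / 1000 * k := by
  have h : chkT [sub (add (add (sub (sub (add (mul pi (sub (sub (add (mul (q 1 4) QR.k) (mul QR.t (q 1 4))) QR.t) QR.k)) (E.uu (q 1 2) (add QR.t QR.k))) (E.uu (q 1 4) QR.t)) (E.uu (q 1 4) QR.k)) (mul (q 17 10) QR.t)) (mul (q 1571 1000) QR.k)) (q 61 500), sub (add QR.t QR.k) (q 187 1000), sub (q 47 500) (add QR.t QR.k)] 30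
    8
    [NumIs.V.of 10000 630 1450, NumIs.V.of 10000 (-80) 800] = true := by
    decide +kernel
  obtain ⟨f, hf, hp⟩ := chkT2 h (by norm_num) (x := t) (y := k)
    (by norm_num; linarith) (by norm_num; linarith) (by norm_num; linarith) (by norm_num; linarith)
  by_contra hc
  push Not at hc
  simp only [List.mem_cons, List.not_mem_nil, or_false] at hf
  rcases hf with rfl | rfl | rfl
  · simp only [E.val, NumIs.lkR, QR.t, QR.k, QR.w] at hp
    push_cast at hp
    linarith
  · simp only [E.val, NumIs.lkR, QR.t, QR.k, QR.w] at hp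
    push_cast at hp
    linarith
  · simp only [E.val, NumIs.lkR, QR.t, QR.k, QR.w] at hp
    push_cast at hp
    linarith

theorem f5_twoE_0 {t k : ℝ} (_ : 1000 / 10000 ≤ t) (_ : t ≤ 1580 / 10000) (_ : -(610 / 10000) ≤ k) (_ : k ≤ -(240 / 10000)) (_ : t + k ≤ 53 / 500) (_ : 8 / 125 ≤ t + k) :
    93 / 1000 < Real.pi * (1 / 4 * k + t * (11 / 50) - t - k) + uu (47 / 100) (t + k) - uu (1 / 4) t - uu (11 / 50) k + 17 / 10 * t + 1131 / 500 * k := by
  have h : chkT [sub (add (add (sub (sub (add (mul pi (sub (sub (add (mul (q 1 4) QR.k) (mul QR.t (q 11 50))) QR.t) QR.k)) (E.uu (q 47 100) (add QR.t QR.k))) (E.uu (q 1 4) QR.t)) (E.uu (q 11 50) QR.k)) (mul (q 17 10) QR.t)) (mul (q 1131 500) QR.k)) (q 93 1000), sub (add QR.t QR.k) (q 53 500), sub (q 8 125) (add QR.t QR.k)] 30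
    8
    [NumIs.V.of 10000 1000 1580, NumIs.V.of 10000 (-610) (-240)] = true := by
    decide +kernel
  obtain ⟨f, hf, hp⟩ := chkT2 h (by norm_num) (x := t) (y := k)
    (by norm_num; linarith) (by norm_num; linarith) (by norm_num; linarith) (by norm_num; linarith)
  by_contra hc
  push Not at hc
  simp only [List.mem_cons, List.not_mem_nil, or_false] at hf
  rcases hf with rfl | rfl | rfl
  · simp only [E.val, NumIs.lkR, QR.t, QR.k, QR.w] at hp
    push_cast at hp
    linarith
  · simp only [E.val, NumIs.lkR, QR.t, QR.k, QR.w] at hp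
    push_cast at hp
    linarith
  · simp only [E.val, NumIs.lkR, QR.t, QR.k, QR.w] at hp
    push_cast at hp
    linarith

theorem f5_touched_0 {t k : ℝ} (_ : 380 / 10000 ≤ t) (_ : t ≤ 1580 / 10000) (_ : -(1170 / 10000) ≤ k) (_ : k ≤ 800 / 10000) :
    111 / 1000 < Real.pi * (1 / 4 * k + t * (1 / 5) - t - k) + uu (9 / 20) (t + k) - uu (1 / 4) t - uu (1 / 5) k + 17 / 10 * t + 59 / 25 * k := by
  have h : chkT [sub (add (add (sub (sub (add (mul pi (sub (sub (add (mul (q 1 4) QR.k) (mul QR.t (q 1 5))) QR.t) QR.k)) (E.uu (q 9 20) (add QR.t QR.k))) (E.uu (q 1 4) QR.t)) (E.uu (q 1 5) QR.k)) (mul (q 17 10) QR.t)) (mul (q 59 25) QR.k)) (q 111 1000)] 30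
    8
    [NumIs.V.of 10000 380 1580, NumIs.V.of 10000 (-1170) 800] = true := by
    decide +kernel
  obtain ⟨f, hf, hp⟩ := chkT2 h (by norm_num) (x := t) (y := k)
    (by norm_num; linarith) (by norm_num; linarith) (by norm_num; linarith) (by norm_num; linarith)
  by_contra hc
  push Not at hc
  simp only [List.mem_cons, List.not_mem_nil, or_false] at hf
  rcases hf with rfl
  · simp only [E.val, NumIs.lkR, QR.t, QR.k, QR.w] at hp
    push_cast at hp
    linarith

theorem r5_one_0_0 {w : ℝ} (_ : 0 / 10000 ≤ w) (_ : w ≤ 100 / 10000) :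
    -(9 / 100) < 0 * uu (1 / 100) 0 + (-11 / 1000) + (0 / 1) * w - (uu (19 / 20 + w) 0 - uu (19 / 20) 0 - uu (1 / 100) 0) - (3 / 200) := by
  have h : chkT [add (sub (sub (add (add (mul (q 0 1) (E.uu (q 1 100) (q 0 1))) (q (-11) 1000)) (mul (q 0 1) QR.w)) (sub (sub (E.uu (add (q 19 20) QR.w) (q 0 1)) (E.uu (q 19 20) (q 0 1))) (E.uu (q 1 100) (q 0 1)))) (q 3 200)) (q 9 100)] 30
    8
    [NumIs.V.of 10000 0 100] = true := by
    decide +kernel
  obtain ⟨f, hf, hp⟩ := chkT_sound h (xs := [w])
    (List.Forall₂.cons (NumIs.V.of_mem (by norm_num) (by norm_num; linarith) (by norm_num; linarith)) List.Forall₂.nil)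
  by_contra hc
  push Not at hc
  simp only [List.mem_cons, List.not_mem_nil, or_false] at hf
  rcases hf with rfl
  · simp only [E.val, NumIs.lkR, QR.t, QR.k, QR.w] at hp
    push_cast at hp
    linarith

theorem r5_one_0_1 {w : ℝ} (_ : 100 / 10000 ≤ w) (_ : w ≤ 400 / 10000) :
    -(9 / 100) < 0 * uu w 0 + (-11 / 1000) + (0 / 1) * w - (uu (19 / 20 + w) 0 - uu (19 / 20) 0 - uu w 0) - (3 / 200) := by
  have h : chkT [add (sub (sub (add (add (mul (q 0 1) (E.uu QR.w (q 0 1))) (q (-11) 1000)) (mul (q 0 1) QR.w)) (sub (sub (E.uu (add (q 19 20) QR.w) (q 0 1)) (E.uu (q 19 20) (q 0 1))) (E.uu QR.w (q 0 1)))) (q 3 200)) (q 9 100)] 30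
    2176
    [NumIs.V.of 10000 100 400] = true := by
    decide +kernel
  obtain ⟨f, hf, hp⟩ := chkT_sound h (xs := [w])
    (List.Forall₂.cons (NumIs.V.of_mem (by norm_num) (by norm_num; linarith) (by norm_num; linarith)) List.Forall₂.nil)
  by_contra hc
  push Not at hc
  simp only [List.mem_cons, List.not_mem_nil, or_false] at hf
  rcases hf with rfl
  · simp only [E.val, NumIs.lkR, QR.t, QR.k, QR.w] at hp
    push_cast at hp
    linarith

theorem r5_one_0_2 {w : ℝ} (_ : 400 / 10000 ≤ w) (_ : w ≤ 500 / 10000) :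
    -(9 / 100) < 0 * uu w 0 + (-11 / 1000) + (0 / 1) * w - (uu (99 / 100) 0 - uu (19 / 20) 0 - uu w 0) - (3 / 200) := by
  have h : chkT [add (sub (sub (add (add (mul (q 0 1) (E.uu QR.w (q 0 1))) (q (-11) 1000)) (mul (q 0 1) QR.w)) (sub (sub (E.uu (q 99 100) (q 0 1)) (E.uu (q 19 20) (q 0 1))) (E.uu QR.w (q 0 1)))) (q 3 200)) (q 9 100)] 30
    8
    [NumIs.V.of 10000 400 500] = true := by
    decide +kernel
  obtain ⟨f, hf, hp⟩ := chkT_sound h (xs := [w])
    (List.Forall₂.cons (NumIs.V.of_mem (by norm_num) (by norm_num; linarith) (by norm_num; linarith)) List.Forall₂.nil)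
  by_contra hc
  push Not at hc
  simp only [List.mem_cons, List.not_mem_nil, or_false] at hf
  rcases hf with rfl
  · simp only [E.val, NumIs.lkR, QR.t, QR.k, QR.w] at hp
    push_cast at hp
    linarith

theorem r5_one_1_0 {w : ℝ} (_ : 0 / 10000 ≤ w) (_ : w ≤ 100 / 10000) :
    -(73 / 500) < 1 * uu (1 / 100) 0 + (-163 / 5000) + (779 / 1000) * w - (uu (19 / 20 + w) 0 - uu (19 / 20) 0 - uu (1 / 100) 0) - (3 / 200) := by
  have h : chkT [add (sub (sub (add (add (mul (q 1 1) (E.uu (q 1 100) (q 0 1))) (q (-163) 5000)) (mul (q 779 1000) QR.w)) (sub (sub (E.uu (add (q 19 20) QR.w) (q 0 1)) (E.uu (q 19 20) (q 0 1))) (E.uu (q 1 100) (q 0 1)))) (q 3 200)) (q 73 500)] 30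
    8
    [NumIs.V.of 10000 0 100] = true := by
    decide +kernel
  obtain ⟨f, hf, hp⟩ := chkT_sound h (xs := [w])
    (List.Forall₂.cons (NumIs.V.of_mem (by norm_num) (by norm_num; linarith) (by norm_num; linarith)) List.Forall₂.nil)
  by_contra hc
  push Not at hc
  simp only [List.mem_cons, List.not_mem_nil, or_false] at hf
  rcases hf with rfl
  · simp only [E.val, NumIs.lkR, QR.t, QR.k, QR.w] at hp
    push_cast at hp
    linarith

theorem r5_one_1_1 {w : ℝ} (_ : 100 / 10000 ≤ w) (_ : w ≤ 475 / 10000) :
    -(73 / 500) < 1 * uu w 0 + (-163 / 5000) + (779 / 1000) * w - (uu (19 / 20 + w) 0 - uu (19 / 20) 0 - uu w 0) - (3 / 200) := by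
  have h : chkT [add (sub (sub (add (add (mul (q 1 1) (E.uu QR.w (q 0 1))) (q (-163) 5000)) (mul (q 779 1000) QR.w)) (sub (sub (E.uu (add (q 19 20) QR.w) (q 0 1)) (E.uu (q 19 20) (q 0 1))) (E.uu QR.w (q 0 1)))) (q 3 200)) (q 73 500)] 30
    36515645440
    [NumIs.V.of 10000 100 475] = true := by
    decide +kernel
  obtain ⟨f, hf, hp⟩ := chkT_sound h (xs := [w])
    (List.Forall₂.cons (NumIs.V.of_mem (by norm_num) (by norm_num; linarith) (by norm_num; linarith)) List.Forall₂.nil)
  by_contra hc
  push Not at hc
  simp only [List.mem_cons, List.not_mem_nil, or_false] at hf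
  rcases hf with rfl
  · simp only [E.val, NumIs.lkR, QR.t, QR.k, QR.w] at hp
    push_cast at hp
    linarith

theorem r5_one_1_2 {w : ℝ} (_ : 475 / 10000 ≤ w) (_ : w ≤ 500 / 10000) :
    -(73 / 500) < 1 * uu w 0 + (-163 / 5000) + (779 / 1000) * w - (uu (399 / 400) 0 - uu (19 / 20) 0 - uu w 0) - (3 / 200) := by
  have h : chkT [add (sub (sub (add (add (mul (q 1 1) (E.uu QR.w (q 0 1))) (q (-163) 5000)) (mul (q 779 1000) QR.w)) (sub (sub (E.uu (q 399 400) (q 0 1)) (E.uu (q 19 20) (q 0 1))) (E.uu QR.w (q 0 1)))) (q 3 200)) (q 73 500)] 30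
    8
    [NumIs.V.of 10000 475 500] = true := by
    decide +kernel
  obtain ⟨f, hf, hp⟩ := chkT_sound h (xs := [w])
    (List.Forall₂.cons (NumIs.V.of_mem (by norm_num) (by norm_num; linarith) (by norm_num; linarith)) List.Forall₂.nil)
  by_contra hc
  push Not at hc
  simp only [List.mem_cons, List.not_mem_nil, or_false] at hf
  rcases hf with rfl
  · simp only [E.val, NumIs.lkR, QR.t, QR.k, QR.w] at hp
    push_cast at hp
    linarith

theorem r5_two_0_0 {w : ℝ} (_ : 0 / 10000 ≤ w) (_ : w ≤ 100 / 10000) :
    -(61 / 500) < 1 * uu (1 / 100) 0 + (53 / 625) + (-37 / 250) * w - (uu (19 / 20 + w) 0 - uu (19 / 20) 0 - uu (1 / 100) 0) - (3 / 200) := by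
  have h : chkT [add (sub (sub (add (add (mul (q 1 1) (E.uu (q 1 100) (q 0 1))) (q 53 625)) (mul (q (-37) 250) QR.w)) (sub (sub (E.uu (add (q 19 20) QR.w) (q 0 1)) (E.uu (q 19 20) (q 0 1))) (E.uu (q 1 100) (q 0 1)))) (q 3 200)) (q 61 500)] 30
    8
    [NumIs.V.of 10000 0 100] = true := by
    decide +kernel
  obtain ⟨f, hf, hp⟩ := chkT_sound h (xs := [w])
    (List.Forall₂.cons (NumIs.V.of_mem (by norm_num) (by norm_num; linarith) (by norm_num; linarith)) List.Forall₂.nil)
  by_contra hc
  push Not at hc
  simp only [List.mem_cons, List.not_mem_nil, or_false] at hf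
  rcases hf with rfl
  · simp only [E.val, NumIs.lkR, QR.t, QR.k, QR.w] at hp
    push_cast at hp
    linarith

theorem r5_two_0_1 {w : ℝ} (_ : 100 / 10000 ≤ w) (_ : w ≤ 400 / 10000) :
    -(61 / 500) < 1 * uu w 0 + (53 / 625) + (-37 / 250) * w - (uu (19 / 20 + w) 0 - uu (19 / 20) 0 - uu w 0) - (3 / 200) := by
  have h : chkT [add (sub (sub (add (add (mul (q 1 1) (E.uu QR.w (q 0 1))) (q 53 625)) (mul (q (-37) 250) QR.w)) (sub (sub (E.uu (add (q 19 20) QR.w) (q 0 1)) (E.uu (q 19 20) (q 0 1))) (E.uu QR.w (q 0 1)))) (q 3 200)) (q 61 500)] 30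
    2176
    [NumIs.V.of 10000 100 400] = true := by
    decide +kernel
  obtain ⟨f, hf, hp⟩ := chkT_sound h (xs := [w])
    (List.Forall₂.cons (NumIs.V.of_mem (by norm_num) (by norm_num; linarith) (by norm_num; linarith)) List.Forall₂.nil)
  by_contra hc
  push Not at hc
  simp only [List.mem_cons, List.not_mem_nil, or_false] at hf
  rcases hf with rfl
  · simp only [E.val, NumIs.lkR, QR.t, QR.k, QR.w] at hp
    push_cast at hp
    linarith

theorem r5_two_0_2 {w : ℝ} (_ : 400 / 10000 ≤ w) (_ : w ≤ 500 / 10000) :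
    -(61 / 500) < 1 * uu w 0 + (53 / 625) + (-37 / 250) * w - (uu (99 / 100) 0 - uu (19 / 20) 0 - uu w 0) - (3 / 200) := by
  have h : chkT [add (sub (sub (add (add (mul (q 1 1) (E.uu QR.w (q 0 1))) (q 53 625)) (mul (q (-37) 250) QR.w)) (sub (sub (E.uu (q 99 100) (q 0 1)) (E.uu (q 19 20) (q 0 1))) (E.uu QR.w (q 0 1)))) (q 3 200)) (q 61 500)] 30
    8
    [NumIs.V.of 10000 400 500] = true := by
    decide +kernel
  obtain ⟨f, hf, hp⟩ := chkT_sound h (xs := [w])
    (List.Forall₂.cons (NumIs.V.of_mem (by norm_num) (by norm_num; linarith) (by norm_num; linarith)) List.Forall₂.nil)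
  by_contra hc
  push Not at hc
  simp only [List.mem_cons, List.not_mem_nil, or_false] at hf
  rcases hf with rfl
  · simp only [E.val, NumIs.lkR, QR.t, QR.k, QR.w] at hp
    push_cast at hp
    linarith

theorem r5_twoE_0_0 {w : ℝ} (_ : 0 / 10000 ≤ w) (_ : w ≤ 100 / 10000) :
    -(93 / 1000) < 1 * uu (1 / 100) 0 + (309 / 2000) + (0 / 1) * w - (uu (19 / 20 + w) 0 - uu (19 / 20) 0 - uu (1 / 100) 0) - (3 / 200) := by
  have h : chkT [add (sub (sub (add (add (mul (q 1 1) (E.uu (q 1 100) (q 0 1))) (q 309 2000)) (mul (q 0 1) QR.w)) (sub (sub (E.uu (add (q 19 20) QR.w) (q 0 1)) (E.uu (q 19 20) (q 0 1))) (E.uu (q 1 100) (q 0 1)))) (q 3 200)) (q 93 1000)] 30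
    8
    [NumIs.V.of 10000 0 100] = true := by
    decide +kernel
  obtain ⟨f, hf, hp⟩ := chkT_sound h (xs := [w])
    (List.Forall₂.cons (NumIs.V.of_mem (by norm_num) (by norm_num; linarith) (by norm_num; linarith)) List.Forall₂.nil)
  by_contra hc
  push Not at hc
  simp only [List.mem_cons, List.not_mem_nil, or_false] at hf
  rcases hf with rfl
  · simp only [E.val, NumIs.lkR, QR.t, QR.k, QR.w] at hp
    push_cast at hp
    linarith

theorem r5_twoE_0_1 {w : ℝ} (_ : 100 / 10000 ≤ w) (_ : w ≤ 400 / 10000) :
    -(93 / 1000) < 1 * uu w 0 + (309 / 2000) + (0 / 1) * w - (uu (19 / 20 + w) 0 - uu (19 / 20) 0 - uu w 0) - (3 / 200) := by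
  have h : chkT [add (sub (sub (add (add (mul (q 1 1) (E.uu QR.w (q 0 1))) (q 309 2000)) (mul (q 0 1) QR.w)) (sub (sub (E.uu (add (q 19 20) QR.w) (q 0 1)) (E.uu (q 19 20) (q 0 1))) (E.uu QR.w (q 0 1)))) (q 3 200)) (q 93 1000)] 30
    8
    [NumIs.V.of 10000 100 400] = true := by
    decide +kernel
  obtain ⟨f, hf, hp⟩ := chkT_sound h (xs := [w])
    (List.Forall₂.cons (NumIs.V.of_mem (by norm_num) (by norm_num; linarith) (by norm_num; linarith)) List.Forall₂.nil)
  by_contra hc
  push Not at hc
  simp only [List.mem_cons, List.not_mem_nil, or_false] at hf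
  rcases hf with rfl
  · simp only [E.val, NumIs.lkR, QR.t, QR.k, QR.w] at hp
    push_cast at hp
    linarith

theorem r5_twoE_0_2 {w : ℝ} (_ : 400 / 10000 ≤ w) (_ : w ≤ 500 / 10000) :
    -(93 / 1000) < 1 * uu w 0 + (309 / 2000) + (0 / 1) * w - (uu (99 / 100) 0 - uu (19 / 20) 0 - uu w 0) - (3 / 200) := by
  have h : chkT [add (sub (sub (add (add (mul (q 1 1) (E.uu QR.w (q 0 1))) (q 309 2000)) (mul (q 0 1) QR.w)) (sub (sub (E.uu (q 99 100) (q 0 1)) (E.uu (q 19 20) (q 0 1))) (E.uu QR.w (q 0 1)))) (q 3 200)) (q 93 1000)] 30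
    8
    [NumIs.V.of 10000 400 500] = true := by
    decide +kernel
  obtain ⟨f, hf, hp⟩ := chkT_sound h (xs := [w])
    (List.Forall₂.cons (NumIs.V.of_mem (by norm_num) (by norm_num; linarith) (by norm_num; linarith)) List.Forall₂.nil)
  by_contra hc
  push Not at hc
  simp only [List.mem_cons, List.not_mem_nil, or_false] at hf
  rcases hf with rfl
  · simp only [E.val, NumIs.lkR, QR.t, QR.k, QR.w] at hp
    push_cast at hp
    linarith

theorem r5_touched_0_0 {w : ℝ} (_ : 0 / 10000 ≤ w) (_ : w ≤ 100 / 10000) :
    -(111 / 1000) < 0 * uu (1 / 100) 0 + (0 / 1) + (0 / 1) * w - (uu (19 / 20 + w) 0 - uu (19 / 20) 0 - uu (1 / 100) 0) - (3 / 200) := by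
  have h : chkT [add (sub (sub (add (add (mul (q 0 1) (E.uu (q 1 100) (q 0 1))) (q 0 1)) (mul (q 0 1) QR.w)) (sub (sub (E.uu (add (q 19 20) QR.w) (q 0 1)) (E.uu (q 19 20) (q 0 1))) (E.uu (q 1 100) (q 0 1)))) (q 3 200)) (q 111 1000)] 30
    8
    [NumIs.V.of 10000 0 100] = true := by
    decide +kernel
  obtain ⟨f, hf, hp⟩ := chkT_sound h (xs := [w])
    (List.Forall₂.cons (NumIs.V.of_mem (by norm_num) (by norm_num; linarith) (by norm_num; linarith)) List.Forall₂.nil)
  by_contra hc
  push Not at hc
  simp only [List.mem_cons, List.not_mem_nil, or_false] at hf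
  rcases hf with rfl
  · simp only [E.val, NumIs.lkR, QR.t, QR.k, QR.w] at hp
    push_cast at hp
    linarith

theorem r5_touched_0_1 {w : ℝ} (_ : 100 / 10000 ≤ w) (_ : w ≤ 400 / 10000) :
    -(111 / 1000) < 0 * uu w 0 + (0 / 1) + (0 / 1) * w - (uu (19 / 20 + w) 0 - uu (19 / 20) 0 - uu w 0) - (3 / 200) := by
  have h : chkT [add (sub (sub (add (add (mul (q 0 1) (E.uu QR.w (q 0 1))) (q 0 1)) (mul (q 0 1) QR.w)) (sub (sub (E.uu (add (q 19 20) QR.w) (q 0 1)) (E.uu (q 19 20) (q 0 1))) (E.uu QR.w (q 0 1)))) (q 3 200)) (q 111 1000)] 30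
    8
    [NumIs.V.of 10000 100 400] = true := by
    decide +kernel
  obtain ⟨f, hf, hp⟩ := chkT_sound h (xs := [w])
    (List.Forall₂.cons (NumIs.V.of_mem (by norm_num) (by norm_num; linarith) (by norm_num; linarith)) List.Forall₂.nil)
  by_contra hc
  push Not at hc
  simp only [List.mem_cons, List.not_mem_nil, or_false] at hf
  rcases hf with rfl
  · simp only [E.val, NumIs.lkR, QR.t, QR.k, QR.w] at hp
    push_cast at hp
    linarith

theorem r5_touched_0_2 {w : ℝ} (_ : 400 / 10000 ≤ w) (_ : w ≤ 500 / 10000) :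
    -(111 / 1000) < 0 * uu w 0 + (0 / 1) + (0 / 1) * w - (uu (99 / 100) 0 - uu (19 / 20) 0 - uu w 0) - (3 / 200) := by
  have h : chkT [add (sub (sub (add (add (mul (q 0 1) (E.uu QR.w (q 0 1))) (q 0 1)) (mul (q 0 1) QR.w)) (sub (sub (E.uu (q 99 100) (q 0 1)) (E.uu (q 19 20) (q 0 1))) (E.uu QR.w (q 0 1)))) (q 3 200)) (q 111 1000)] 30
    8
    [NumIs.V.of 10000 400 500] = true := by
    decide +kernel
  obtain ⟨f, hf, hp⟩ := chkT_sound h (xs := [w])
    (List.Forall₂.cons (NumIs.V.of_mem (by norm_num) (by norm_num; linarith) (by norm_num; linarith)) List.Forall₂.nil)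
  by_contra hc
  push Not at hc
  simp only [List.mem_cons, List.not_mem_nil, or_false] at hf
  rcases hf with rfl
  · simp only [E.val, NumIs.lkR, QR.t, QR.k, QR.w] at hp
    push_cast at hp
    linarith

end TL.K5

end Pool.Agent.Work.MP_b30479_gtS.G2

end
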