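import Pool.Agent.Work.MP_b30479_gt.TBS.G2.TE1Bg2
import Pool.Agent.Work.MP_b30479_gt.TBS.G2.TE1T
import Pool.Agent.Work.MP_b30479_gt.TBS.NumI.LnSin

section

/-!
# Tails, rows `E1`, `E2`: certificates (class two, `w ≥ 18/100`)

Variables: `w`, `t`, `s = w + X`, `Y`.  `U`, `S`, `W` stand for `uu (18/100 + X) (t + Y)`, `-uu s Y`,
`uu w 0`.
-/

end

section

/-!
# Tails: the change of the value of an untouched region of class one, `E2b`
-/

namespace Pool.Agent.Work.MP_b30479_gtS.G2

open VOL NumUs

namespace TL

open E1

/-- margin .0268 -/
theorem E2b {w τ X Y : ℝ} (h0 : 9 / 50 ≤ w) (h1 : w ≤ 2 / 5) (h2 : -(9 / 500) ≤ τ)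
    (h3 : τ ≤ 197 / 2000) (hG : RgB X Y) :
    UU ⟨w, 0⟩ + 137 / 625 - 1019 / 1000 * w - 1071 / 500 * τ ≤
      V1 ⟨9 / 50, τ⟩ ⟨X, Y⟩ - V1 ⟨w, 0⟩ ⟨X, Y⟩ := by
  obtain ⟨g0, g1, g2, g3, g4, g5, g6, g7⟩ := hG
  by_contra c1
  rw [not_le, V1_diff, UU_uu] at c1
  simp only at c1
  have hY : 5 / 10 ≤ X → |Y| ≤ 13 / 100 := fun h => abs_le.2 ⟨by linarith only [g6], by linarith only [g4, h]⟩
  rcases le_total X (790 / 1000) with hx1 | hx1
  · skip
    rcases le_or_gt (w + X) (985 / 1000) with hs0 | hs0
    · exact k_dxa0 (S := -uu (w + X) Y) (U := uu (18 / 100 + (w + X - w)) (τ + Y)) (w := w) (s := w + X)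
        (t := τ) (Y := Y) (by linarith only [h0]) (by linarith only [h1]) (by linarith only [h2]) (by linarith only [h3]) (by linarith only [h0, g0])
        (by linarith only [hs0]) (by linarith only [g6]) (by linarith only [g3]) (by linarith only [g0]) (by linarith only [g1]) (by linarith only [g2])
        (by linarith only [g4]) (by linarith only [g5]) (by linarith only [g7]) (by linarith only [hx1]) le_rfl le_rfl (by linarith only [c1])
    · skip
      rcases le_or_gt (w + X) (995 / 1000) with hs1 | hs1
      · exact k_dxb0 (S := -uu (w + X) Y) (U := uu (18 / 100 + (w + X - w)) (τ + Y)) (w := w) (s := w +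
          X) (t := τ) (Y := Y) (by linarith only [h0]) (by linarith only [h1]) (by linarith only [h2]) (by linarith only [h3]) (by linarith only [hs0])
          (by linarith only [hs1]) (by linarith only [g6]) (by linarith only [h1, g4, hs0]) (by linarith only [h1, hs0]) (by linarith only [g1]) (by linarith only [h1, g4, hs0])
          (by linarith only [g4]) (by linarith only [g5]) (by linarith only [g7]) (by linarith only [hx1]) le_rfl (S_b (d := 15 / 1000) (by
          norm_num) (by linarith only [hs0]) (by linarith only [hs1]) (hY (by linarith only [h1, hs0]))) (by linarith only [c1])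
      · skip
        rcases le_or_gt (w + X) (1005 / 1000) with hs2 | hs2
        · exact k_dxc0 (S := -uu (w + X) Y) (U := uu (18 / 100 + (w + X - w)) (τ + Y)) (w := w) (s := w
            + X) (t := τ) (Y := Y) (by linarith only [h0]) (by linarith only [h1]) (by linarith only [h2]) (by linarith only [h3])
            (by linarith only [hs1]) (by linarith only [hs2]) (by linarith only [g6]) (by linarith only [h1, g4, hs1]) (by linarith only [h1, hs1]) (by linarith only [g1])
            (by linarith only [h1, g4, hs1]) (by linarith only [g4]) (by linarith only [g5]) (by linarith only [g7]) (by linarith only [hx1]) le_rfl (S_b (d :=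
            5 / 1000) (by norm_num) (by linarith only [hs1]) (by linarith only [hs2]) (hY (by linarith only [h1, hs1]))) (by linarith only [c1])
        · skip
          have hS := S_p (s := w + X) (Y := Y) (by linarith only [hs2]) (by linarith only [h1, g1]) (abs_le.2 ⟨by linarith only [g6], by linarith only [h1, g4, hs2]⟩)
            (abs_le.2 ⟨by linarith only [h1, g1, g7], by linarith only [h1, g1, g4]⟩)
          rcases le_total 0 Y with hy | hy
          · rw [abs_of_nonneg hy] at hS
            exact k_dxp0 (S := -uu (w + X) Y) (U := uu (18 / 100 + (w + X - w)) (τ + Y)) (w := w) (s :=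
              w + X) (t := τ) (Y := Y) (by linarith only [h0]) (by linarith only [h1]) (by linarith only [h2]) (by linarith only [h3])
              (by linarith only [hs2]) (by linarith only [h1, hx1]) (by linarith only [hy]) (by linarith only [h1, g4, hs2]) (by linarith only [h1, hs2]) (by linarith only [g1])
              (by linarith only [h1, g4, hs2]) (by linarith only [g4]) (by linarith only [g5]) (by linarith only [g7]) (by linarith only [hx1]) le_rfl hS
              (by linarith only [c1])
          · rw [abs_of_nonpos hy] at hS
            exact k_dxn0 (S := -uu (w + X) Y) (U := uu (18 / 100 + (w + X - w)) (τ + Y)) (w := w) (s :=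
              w + X) (t := τ) (Y := Y) (by linarith only [hx1, hs2]) (by linarith only [h1]) (by linarith only [h2]) (by linarith only [h3])
              (by linarith only [hs2]) (by linarith only [h1, hx1]) (by linarith only [g6]) (by linarith only [hy]) (by linarith only [h1, hs2]) (by linarith only [hx1])
              (by linarith only [h1, hs2, hy]) (by linarith only [hx1, hy]) (by linarith only [g5]) (by linarith only [g7]) (by linarith only [hx1]) le_rfl
              (by linarith only [hS]) (by linarith only [c1])
  rcases le_total X (815 / 1000) with hx2 | hx2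
  · have hU : uu (995 / 1000) (τ + Y) ≤ uu (18 / 100 + (w + X - w)) (τ + Y) :=
      U_b (by linarith only [hx1]) (by linarith only [hx2]) (abs_le.2 ⟨by linarith only [h2, g6], by linarith only [h3, g4, hx1]⟩)
    rcases le_or_gt (w + X) (985 / 1000) with hs0 | hs0
    · exact k_dba0 (S := -uu (w + X) Y) (U := uu (18 / 100 + (w + X - w)) (τ + Y)) (w := w) (s := w + X)
        (t := τ) (Y := Y) (by linarith only [h0]) (by linarith only [h1]) (by linarith only [h2]) (by linarith only [h3]) (by linarith only [h0, hx1])
        (by linarith only [hs0]) (by linarith only [g7, hx1]) (by linarith only [g4, hx1]) (by linarith only [hx1]) (by linarith only [g1]) (by linarith only [g4, hx1])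
        (by linarith only [g4]) (by linarith only [g5]) (by linarith only [g7]) (by linarith only [hx1]) (by linarith only [hx2]) hU le_rfl
        (by linarith only [c1])
    · skip
      rcases le_or_gt (w + X) (995 / 1000) with hs1 | hs1
      · exact k_dbb0 (S := -uu (w + X) Y) (U := uu (18 / 100 + (w + X - w)) (τ + Y)) (w := w) (s := w +
          X) (t := τ) (Y := Y) (by linarith only [h0]) (by linarith only [h1]) (by linarith only [h2]) (by linarith only [h3]) (by linarith only [hs0])
          (by linarith only [hs1]) (by linarith only [g7, hx1]) (by linarith only [g4, hx1]) (by linarith only [hx1]) (by linarith only [g1]) (by linarith only [g4, hx1])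
          (by linarith only [g4]) (by linarith only [g5]) (by linarith only [g7]) (by linarith only [hx1]) (by linarith only [hx2]) hU (S_b (d := 15 /
          1000) (by norm_num) (by linarith only [hs0]) (by linarith only [hs1]) (hY (by linarith only [hx1]))) (by linarith only [c1])
      · skip
        rcases le_or_gt (w + X) (1005 / 1000) with hs2 | hs2
        · exact k_dbc0 (S := -uu (w + X) Y) (U := uu (18 / 100 + (w + X - w)) (τ + Y)) (w := w) (s := w
            + X) (t := τ) (Y := Y) (by linarith only [h0]) (by linarith only [h1]) (by linarith only [h2]) (by linarith only [h3])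
            (by linarith only [hs1]) (by linarith only [hs2]) (by linarith only [g7, hx1]) (by linarith only [g4, hx1]) (by linarith only [hx1]) (by linarith only [g1])
            (by linarith only [g4, hx1]) (by linarith only [g4]) (by linarith only [g5]) (by linarith only [g7]) (by linarith only [hx1]) (by linarith only [hx2]) hU
            (S_b (d := 5 / 1000) (by norm_num) (by linarith only [hs1]) (by linarith only [hs2]) (hY (by linarith only [hx1]))) (by linarith only [c1])
        · skip
          have hS := S_p (s := w + X) (Y := Y) (by linarith only [hs2]) (by linarith only [h1, g1]) (abs_le.2 ⟨by linarith only [g6], by linarith only [g4, hx1]⟩)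
            (abs_le.2 ⟨by linarith only [h1, g1, g7], by linarith only [h1, g1, g4]⟩)
          rcases le_total 0 Y with hy | hy
          · rw [abs_of_nonneg hy] at hS
            exact k_dbp0 (S := -uu (w + X) Y) (U := uu (18 / 100 + (w + X - w)) (τ + Y)) (w := w) (s :=
              w + X) (t := τ) (Y := Y) (by linarith only [h0]) (by linarith only [h1]) (by linarith only [h2]) (by linarith only [h3])
              (by linarith only [hs2]) (by linarith only [h1, hx2]) (by linarith only [hy]) (by linarith only [g4, hx1]) (by linarith only [hx1]) (by linarith only [g1])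
              (by linarith only [g4, hx1]) (by linarith only [g4]) (by linarith only [g5]) (by linarith only [g7]) (by linarith only [hx1]) (by linarith only [hx2]) hU
              hS (by linarith only [c1])
          · rw [abs_of_nonpos hy] at hS
            exact k_dbn0 (S := -uu (w + X) Y) (U := uu (18 / 100 + (w + X - w)) (τ + Y)) (w := w) (s :=
              w + X) (t := τ) (Y := Y) (by linarith only [h0]) (by linarith only [h1]) (by linarith only [h2]) (by linarith only [h3])
              (by linarith only [hs2]) (by linarith only [h1, hx2]) (by linarith only [g7, hx1]) (by linarith only [hy]) (by linarith only [hx1]) (by linarith only [g1])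
              (by linarith only [hx1, hy]) (by linarith only [g1, hy]) (by linarith only [g5]) (by linarith only [g7]) (by linarith only [hx1]) (by linarith only [hx2]) hU
              (by linarith only [hS]) (by linarith only [c1])
  rcases le_total X (835 / 1000) with hx3 | hx3
  · obtain ⟨hU, hU'⟩ := U_d (x := 18 / 100 + (w + X - w)) (t := τ + Y) (d := 15 / 1000) (by linarith only [hx2])
      (by linarith only [hx3]) (by norm_num) (abs_le.2 ⟨by linarith only [h2, g6], by linarith only [h3, g4, hx2]⟩)
    rcases le_or_gt (w + X) (1005 / 1000) with hs0 | hs0
    · exact k_dDc0 (S := -uu (w + X) Y) (U := uu (18 / 100 + (w + X - w)) (τ + Y)) (w := w) (s := w + X)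
        (t := τ) (Y := Y) (by linarith only [h0]) (by linarith only [h1]) (by linarith only [h2]) (by linarith only [h3]) (by linarith only [h0, hx2])
        (by linarith only [hs0]) (by linarith only [g7, hx2]) (by linarith only [g4, hx2]) (by linarith only [hx2]) (by linarith only [g1]) (by linarith only [g4, hx2])
        (by linarith only [g4]) (by linarith only [g5]) (by linarith only [g7]) (by linarith only [hx2]) (by linarith only [hx3]) hU hU' (S_b (d := 5 /
        1000) (by norm_num) (by linarith only [h0, hx2]) (by linarith only [hs0]) (hY (by linarith only [hx2]))) (by linarith only [c1])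
    · skip
      have hS := S_p (s := w + X) (Y := Y) (by linarith only [hs0]) (by linarith only [h1, g1]) (abs_le.2 ⟨by linarith only [g6], by linarith only [g4, hx2]⟩)
        (abs_le.2 ⟨by linarith only [h1, g1, g7], by linarith only [h1, g1, g4]⟩)
      rcases le_total 0 Y with hy | hy
      · rw [abs_of_nonneg hy] at hS
        exact k_dDp0 (S := -uu (w + X) Y) (U := uu (18 / 100 + (w + X - w)) (τ + Y)) (w := w) (s := w +
          X) (t := τ) (Y := Y) (by linarith only [h0]) (by linarith only [h1]) (by linarith only [h2]) (by linarith only [h3]) (by linarith only [hs0])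
          (by linarith only [h1, hx3]) (by linarith only [hy]) (by linarith only [g4, hx2]) (by linarith only [hx2]) (by linarith only [g1]) (by linarith only [g4, hx2])
          (by linarith only [g4]) (by linarith only [g5]) (by linarith only [g7]) (by linarith only [hx2]) (by linarith only [hx3]) hU hU' hS
          (by linarith only [c1])
      · rw [abs_of_nonpos hy] at hS
        exact k_dDn0 (S := -uu (w + X) Y) (U := uu (18 / 100 + (w + X - w)) (τ + Y)) (w := w) (s := w +
          X) (t := τ) (Y := Y) (by linarith only [h0]) (by linarith only [h1]) (by linarith only [h2]) (by linarith only [h3]) (by linarith only [hs0])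
          (by linarith only [h1, hx3]) (by linarith only [g7, hx2]) (by linarith only [hy]) (by linarith only [hx2]) (by linarith only [g1]) (by linarith only [hx2, hy])
          (by linarith only [g1, hy]) (by linarith only [g5]) (by linarith only [g7]) (by linarith only [hx2]) (by linarith only [hx3]) hU hU' (by linarith only [hS])
          (by linarith only [c1])
  · obtain ⟨hU, hU'⟩ := U_d (x := 18 / 100 + (w + X - w)) (t := τ + Y) (d := 40 / 1000) (by linarith only [hx3])
      (by linarith only [g1]) (by norm_num) (abs_le.2 ⟨by linarith only [h2, g6], by linarith only [h3, g4, hx3]⟩)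
    have hS := S_p (s := w + X) (Y := Y) (by linarith only [h0, hx3]) (by linarith only [h1, g1]) (abs_le.2 ⟨by linarith only [g6], by linarith only [g4, hx3]⟩)
      (abs_le.2 ⟨by linarith only [h1, g1, g7], by linarith only [h1, g1, g4]⟩)
    rcases le_total 0 Y with hy | hy
    · rw [abs_of_nonneg hy] at hS
      exact k_dGp0 (S := -uu (w + X) Y) (U := uu (18 / 100 + (w + X - w)) (τ + Y)) (w := w) (s := w + X)
        (t := τ) (Y := Y) (by linarith only [h0]) (by linarith only [h1]) (by linarith only [h2]) (by linarith only [h3]) (by linarith only [h0, hx3])
        (by linarith only [h1, g1]) (by linarith only [hy]) (by linarith only [g4, hx3]) (by linarith only [hx3]) (by linarith only [g1]) (by linarith only [g4, hx3])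
        (by linarith only [g4]) (by linarith only [g5]) (by linarith only [g7]) (by linarith only [hx3]) (by linarith only [g1]) hU hU' hS
        (by linarith only [c1])
    · rw [abs_of_nonpos hy] at hS
      exact k_dGn0 (S := -uu (w + X) Y) (U := uu (18 / 100 + (w + X - w)) (τ + Y)) (w := w) (s := w + X)
        (t := τ) (Y := Y) (by linarith only [h0]) (by linarith only [h1]) (by linarith only [h2]) (by linarith only [h3]) (by linarith only [h0, hx3])
        (by linarith only [h1, g1]) (by linarith only [g7, hx3]) (by linarith only [hy]) (by linarith only [hx3]) (by linarith only [g1]) (by linarith only [hx3, hy])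
        (by linarith only [g1, hy]) (by linarith only [g5]) (by linarith only [g7]) (by linarith only [hx3]) (by linarith only [g1]) hU hU' (by linarith only [hS])
        (by linarith only [c1])

end TL

end Pool.Agent.Work.MP_b30479_gtS.G2

end
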