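import Pool.Agent.Work.MP_b30479_gt.TBS.NumU.Tree

section

/-!
# Pieces of the certificates of `TE1C`, part 3
-/

set_option linter.unusedVariables false
set_option linter.unusedSimpArgs false
set_option linter.unusedTactic false
set_option linter.unreachableTactic false
set_option deprecated.oldSectionVars true

namespace Pool.Agent.Work.MP_b30479_gtS.G2
open NumUs
open NumUs.E
open NumIs (V)
namespace TL
namespace E1

theorem k_cfaw_p1 : Pool.Agent.Work.NumUs.runT [(.sub (.add (.add (.sub (.add (.mul .pi (.add (.mul (.sub (.q 18 100) (.var 0)) (.var 3)) (.mul (.var 1) (.sub (.sub (.var 2) (.var 0)) (.q 1 1))))) (.add (.uu (.q 30 1000) (.add (.var 1) (.var 3))) (.mul .pi (.add (.var 1) (.var 3))))) (.uu (.q 18 100) (.var 1))) (.neg (.uu (.var 2) (.var 3)))) (.uu (.var 0) (.q 0 1))) (.add (.add (.q (-30) 1000) (.mul (.q 0 1) (.var 0))) (.mul (.q (-3927) 1250) (.var 1)))), (.sub (.add (.sub (.add (.mul .pi (.add (.mul (.sub (.q 18 100) (.var 0)) (.var 3)) (.mul (.var 1) (.sub (.sub (.var 2) (.var 0)) (.q 1 1))))) (.add (.uu (.q 30 1000) (.add (.var 1) (.var 3))) (.mul .pi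 (.add (.var 1) (.var 3))))) (.uu (.q 18 100) (.var 1))) (.neg (.uu (.var 2) (.var 3)))) (.add (.add (.q (-2039) 10000) (.mul (.q 653 500) (.var 0))) (.mul (.q (-643) 500) (.var 1)))), (.sub (.add (.add (.sub (.add (.mul .pi (.add (.mul (.sub (.q 18 100) (.var 0)) (.var 3)) (.mul (.var 1) (.sub (.sub (.var 2) (.var 0)) (.q 1 1))))) (.sub (.uu (.q 30 1000) (.add (.var 1) (.var 3))) (.mul .pi (.add (.var 1) (.var 3))))) (.uu (.q 18 100) (.var 1))) (.neg (.uu (.var 2) (.var 3)))) (.uu (.var 0) (.q 0 1))) (.add (.add (.q (-30) 1000) (.mul (.q 0 1) (.var 0))) (.mul (.q (-3927) 1250) (.var 1)))), (.sub (.add (.sub (.add (.mul .pi (.add (.mul (.sub (.q 18 100) (.var 0)) (.var 3)) (.mul (.var 1) (.sub (.sub (.var 2) (.var 0)) (.q 1 1))))) (.sub (.uu (.q 30 1000) (.add (.var 1) (.var 3))) (.mul .pi (.add (.var 1) (.var 3))))) (.uu (.q 18 100) (.var 1))) (.neg (.uu (.var 2) (.var 3)))) (.add (.add (.q (-2039) 10000) (.mul (.q 653 500) (.var 0))) (.mul (.q (-643) 500) (.var 1)))), (.sub (.var 3) (.mul (.q 29 100) (.sub (.q 86 100) (.sub (.var 2) (.var 0))))), (.sub (.neg (.mul (.q 465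 1000) (.sub (.q 86 100) (.sub (.var 2) (.var 0))))) (.var 3)), (.sub (.sub (.var 2) (.var 0)) (.q 850 1000)), (.sub (.q 835 1000) (.sub (.var 2) (.var 0)))] 34
    1661250437726730780466599184563576535256542736942602404505696856554238924755481493437488626329002578208105639637608912361183188106858553579244170966181681585526079501702039651738476207228210179495053294843078196175658251945175622982798476472740127969306197984288235196242311370542964134620929450146843163723306920975755395534852332073381301531069500071595488503415482494095650711713304227743098769550786390675601090577006971228001919887053953469859526849715240693616893657213833474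
    ([V.of 10000 200 1800, V.of 10000 (-180) 985, V.of 10000 8550 9850, V.of 10000 (-117) 73]) =
    1 := by
  decide +kernel

theorem k_cfbw_p1 : Pool.Agent.Work.NumUs.runT [(.sub (.add (.add (.sub (.add (.mul .pi (.add (.mul (.sub (.q 18 100) (.var 0)) (.var 3)) (.mul (.var 1) (.sub (.sub (.var 2) (.var 0)) (.q 1 1))))) (.add (.uu (.q 30 1000) (.add (.var 1) (.var 3))) (.mul .pi (.add (.var 1) (.var 3))))) (.uu (.q 18 100) (.var 1))) (.uu (.q 15 1000) (.var 3))) (.uu (.var 0) (.q 0 1))) (.add (.add (.q (-30) 1000) (.mul (.q 0 1) (.var 0))) (.mul (.q (-3927) 1250) (.var 1)))), (.sub (.add (.sub (.add (.mul .pi (.add (.mul (.sub (.q 18 100) (.var 0)) (.var 3)) (.mul (.var 1) (.sub (.sub (.var 2) (.var 0)) (.q 1 1))))) (.add (.uu (.q 30 1000) (.add (.var 1) (.var 3))) (.mul .pi (.add (.var 1) (.var 3))))) (.uu (.q 18 100) (.var 1))) (.uu (.q 15 1000) (.var 3))) (.add (.add (.q (-2039) 10000) (.mul (.q 653 500) (.var 0))) (.mul (.q (-643) 500) (.var 1)))), (.sub (.add (.add (.sub (.add (.mul .pi (.add (.mul (.sub (.q 18 100) (.var 0)) (.var 3)) (.mul (.var 1) (.sub (.sub (.var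 2) (.var 0)) (.q 1 1))))) (.sub (.uu (.q 30 1000) (.add (.var 1) (.var 3))) (.mul .pi (.add (.var 1) (.var 3))))) (.uu (.q 18 100) (.var 1))) (.uu (.q 15 1000) (.var 3))) (.uu (.var 0) (.q 0 1))) (.add (.add (.q (-30) 1000) (.mul (.q 0 1) (.var 0))) (.mul (.q (-3927) 1250) (.var 1)))), (.sub (.add (.sub (.add (.mul .pi (.add (.mul (.sub (.q 18 100) (.var 0)) (.var 3)) (.mul (.var 1) (.sub (.sub (.var 2) (.var 0)) (.q 1 1))))) (.sub (.uu (.q 30 1000) (.add (.var 1) (.var 3))) (.mul .pi (.add (.var 1) (.var 3))))) (.uu (.q 18 100) (.var 1))) (.uu (.q 15 1000) (.var 3))) (.add (.add (.q (-2039) 10000) (.mul (.q 653 500) (.var 0))) (.mul (.q (-643) 500) (.var 1)))), (.sub (.var 3) (.mul (.q 29 100) (.sub (.q 86 100) (.sub (.var 2) (.var 0))))), (.sub (.neg (.mul (.q 465 1000) (.sub (.q 86 100) (.sub (.var 2) (.var 0))))) (.var 3)), (.sub (.sub (.var 2) (.var 0)) (.q 850 1000)), (.sub (.q 835 1000) (.sub (.var 2) (.var 0)))] 34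
    258815472735044418578276539064708393584949369203731057800688983650321
    ([V.of 10000 200 1800, V.of 10000 (-180) 985, V.of 10000 9850 9950, V.of 10000 (-117) 73]) =
    1 := by
  decide +kernel

theorem k_cgaw_p1 : Pool.Agent.Work.NumUs.runT [(.sub (.add (.add (.sub (.add (.mul .pi (.add (.mul (.sub (.q 18 100) (.var 0)) (.var 3)) (.mul (.var 1) (.sub (.sub (.var 2) (.var 0)) (.q 1 1))))) (.add (.uu (.q 40 1000) (.add (.var 1) (.var 3))) (.mul .pi (.add (.var 1) (.var 3))))) (.uu (.q 18 100) (.var 1))) (.neg (.uu (.var 2) (.var 3)))) (.uu (.var 0) (.q 0 1))) (.add (.add (.q (-30) 1000) (.mul (.q 0 1) (.var 0))) (.mul (.q (-3927) 1250) (.var 1)))), (.sub (.add (.sub (.add (.mul .pi (.add (.mul (.sub (.q 18 100) (.var 0)) (.var 3)) (.mul (.var 1) (.sub (.sub (.var 2) (.var 0)) (.q 1 1))))) (.add (.uu (.q 40 1000) (.add (.var 1) (.var 3))) (.mul .pi (.add (.var 1) (.var 3))))) (.uu (.q 18 100) (.var 1))) (.neg (.uu (.var 2) (.var 3)))) (.add (.add (.q (-2039) 10000) (.mul (.q 653 500) (.var 0))) (.mul (.q (-643) 500) (.var 1)))), (.sub (.add (.add (.sub (.add (.mul .pi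 (.add (.mul (.sub (.q 18 100) (.var 0)) (.var 3)) (.mul (.var 1) (.sub (.sub (.var 2) (.var 0)) (.q 1 1))))) (.sub (.uu (.q 40 1000) (.add (.var 1) (.var 3))) (.mul .pi (.add (.var 1) (.var 3))))) (.uu (.q 18 100) (.var 1))) (.neg (.uu (.var 2) (.var 3)))) (.uu (.var 0) (.q 0 1))) (.add (.add (.q (-30) 1000) (.mul (.q 0 1) (.var 0))) (.mul (.q (-3927) 1250) (.var 1)))), (.sub (.add (.sub (.add (.mul .pi (.add (.mul (.sub (.q 18 100) (.var 0)) (.var 3)) (.mul (.var 1) (.sub (.sub (.var 2) (.var 0)) (.q 1 1))))) (.sub (.uu (.q 40 1000) (.add (.var 1) (.var 3))) (.mul .pi (.add (.var 1) (.var 3))))) (.uu (.q 18 100) (.var 1))) (.neg (.uu (.var 2) (.var 3)))) (.add (.add (.q (-2039) 10000) (.mul (.q 653 500) (.var 0))) (.mul (.q (-643) 500) (.var 1)))), (.sub (.var 3) (.mul (.q 29 100) (.sub (.q 86 100) (.sub (.var 2) (.var 0))))), (.sub (.neg (.mul (.q 465 1000) (.sub (.q 86 100) (.sub (.var 2) (.var 0))))) (.var 3)), (.sub (.sub (.var 2) (.var 0)) (.q 860 1000)), (.sub (.q 850 1000) (.sub (.var 2) (.var 0)))] 34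
    607693670557682864098686329665116860271472871981160509667494122589870927328474947611383670629139827949250413506665678838163408796995973763555167290050123478560432087156121407746
    ([V.of 10000 200 1800, V.of 10000 (-180) 985, V.of 10000 8700 9850, V.of 10000 (-47) 29]) =
    1 := by
  decide +kernel

end E1
end TL
end Pool.Agent.Work.MP_b30479_gtS.G2

end

section

/-!
# Tails, rows `E1`, `E2`: certificates (class two, `w ≤ 18/100`)

Variables: `w`, `t`, `s = w + X`, `Y`.  `U`, `S`, `W` stand for `uu (18/100 + X) (t + Y)`, `-uu s Y`,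
`uu w 0`.
-/

set_option linter.unusedVariables false
set_option linter.unusedSimpArgs false
set_option linter.unusedTactic false
set_option linter.unreachableTactic false

set_option deprecated.oldSectionVars true

namespace Pool.Agent.Work.MP_b30479_gtS.G2

open NumUs
open NumUs.E
open NumIs (V)

namespace TL

namespace E1

/-- 4 boxes -/
theorem k_cfpw {w t s Y U S W : ℝ}
    (a0 : 200 / 10000 ≤ w) (b0 : w ≤ 1800 / 10000)
    (a1 : -(180 / 10000) ≤ t) (b1 : t ≤ 985 / 10000)
    (a2 : 10050 / 10000 ≤ s) (b2 : s ≤ 10300 / 10000)
    (a3 : 0 ≤ Y) (b3 : Y ≤ 73 / 10000)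
    (r1 : w ≤ s) (r2 : s - w ≤ 86 / 100)
    (r3 : Y ≤ 907 / 1000 * (s - w)) (r4 : Y ≤ 29 / 100 * (86 / 100 - (s - w)))
    (r5 : -(62 / 100 * (s - w)) ≤ Y) (r6 : -(465 / 1000 * (86 / 100 - (s - w))) ≤ Y)
    (x0 : 835 / 1000 ≤ s - w) (x1 : s - w ≤ 850 / 1000)
    (u0 : uu (30 / 1000) (t + Y) + Real.pi * (t + Y) ≤ U) (u1 : uu (30 / 1000) (t + Y) - Real.pi
      * (t + Y) ≤ U)
    (hS : -uu (5 / 1000) Y - Real.pi * Y ≤ S) (hW : uu w 0 ≤ W)
    (h1 : Real.pi * ((18 / 100 - w) * Y + t * (s - w - 1)) + U - uu (18 / 100) t + S + W < -(30
      / 1000) - 3927 / 1250 * t)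
    (h2 : Real.pi * ((18 / 100 - w) * Y + t * (s - w - 1)) + U - uu (18 / 100) t + S < -(2039 /
      10000) + 653 / 500 * w - 643 / 500 * t) : False := by
  have h : chkT [(.sub (.add (.add (.sub (.add (.mul .pi (.add (.mul (.sub (.q 18 100) (.var 0)) (.var 3))
      (.mul (.var 1) (.sub (.sub (.var 2) (.var 0)) (.q 1 1))))) (.add (.uu (.q 30 1000) (.add
      (.var 1) (.var 3))) (.mul .pi (.add (.var 1) (.var 3))))) (.uu (.q 18 100) (.var 1))) (.sub
      (.neg (.uu (.q 5 1000) (.var 3))) (.mul .pi (.var 3)))) (.uu (.var 0) (.q 0 1))) (.add (.add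
      (.q (-30) 1000) (.mul (.q 0 1) (.var 0))) (.mul (.q (-3927) 1250) (.var 1)))), (.sub (.add
      (.sub (.add (.mul .pi (.add (.mul (.sub (.q 18 100) (.var 0)) (.var 3)) (.mul (.var 1) (.sub
      (.sub (.var 2) (.var 0)) (.q 1 1))))) (.add (.uu (.q 30 1000) (.add (.var 1) (.var 3)))
      (.mul .pi (.add (.var 1) (.var 3))))) (.uu (.q 18 100) (.var 1))) (.sub (.neg (.uu (.q 5
      1000) (.var 3))) (.mul .pi (.var 3)))) (.add (.add (.q (-2039) 10000) (.mul (.q 653 500)
      (.var 0))) (.mul (.q (-643) 500) (.var 1)))), (.sub (.add (.add (.sub (.add (.mul .pi (.add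
      (.mul (.sub (.q 18 100) (.var 0)) (.var 3)) (.mul (.var 1) (.sub (.sub (.var 2) (.var 0))
      (.q 1 1))))) (.sub (.uu (.q 30 1000) (.add (.var 1) (.var 3))) (.mul .pi (.add (.var 1)
      (.var 3))))) (.uu (.q 18 100) (.var 1))) (.sub (.neg (.uu (.q 5 1000) (.var 3))) (.mul .pi
      (.var 3)))) (.uu (.var 0) (.q 0 1))) (.add (.add (.q (-30) 1000) (.mul (.q 0 1) (.var 0)))
      (.mul (.q (-3927) 1250) (.var 1)))), (.sub (.add (.sub (.add (.mul .pi (.add (.mul (.sub (.q
      18 100) (.var 0)) (.var 3)) (.mul (.var 1) (.sub (.sub (.var 2) (.var 0)) (.q 1 1))))) (.sub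
      (.uu (.q 30 1000) (.add (.var 1) (.var 3))) (.mul .pi (.add (.var 1) (.var 3))))) (.uu (.q
      18 100) (.var 1))) (.sub (.neg (.uu (.q 5 1000) (.var 3))) (.mul .pi (.var 3)))) (.add (.add
      (.q (-2039) 10000) (.mul (.q 653 500) (.var 0))) (.mul (.q (-643) 500) (.var 1)))), (.sub
      (.var 3) (.mul (.q 29 100) (.sub (.q 86 100) (.sub (.var 2) (.var 0))))), (.sub (.neg (.mul
      (.q 465 1000) (.sub (.q 86 100) (.sub (.var 2) (.var 0))))) (.var 3)), (.sub (.sub (.var 2)
      (.var 0)) (.q 850 1000)), (.sub (.q 835 1000) (.sub (.var 2) (.var 0)))] 34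
      161067281
      [V.of 10000 200 1800, V.of 10000 (-180) 985, V.of 10000 10050 10300, V.of 10000 0 73] = true := by
    decide +kernel
  obtain ⟨e, he, hp⟩ := chkT4 h (by norm_num) (x := w) (y := t) (z := s) (w := Y)
    (le_trans (by norm_num) a0) (le_trans b0 (by norm_num))
    (le_trans (by norm_num) a1) (le_trans b1 (by norm_num))
    (le_trans (by norm_num) a2) (le_trans b2 (by norm_num))
    (le_trans (by norm_num) a3) (le_trans b3 (by norm_num))
  simp only [List.mem_cons, List.not_mem_nil, or_false] at he
  rcases he with rfl | rfl | rfl | rfl | rfl | rfl | rfl | rfl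
  · simp only [E.val, NumIs.lkR] at hp
    push_cast at hp
    try simp only [zero_div, div_one] at hp
    linarith only [u0, hS, hW, h1, hp]
  · simp only [E.val, NumIs.lkR] at hp
    push_cast at hp
    try simp only [zero_div, div_one] at hp
    linarith only [u0, hS, h2, hp]
  · simp only [E.val, NumIs.lkR] at hp
    push_cast at hp
    try simp only [zero_div, div_one] at hp
    linarith only [u1, hS, hW, h1, hp]
  · simp only [E.val, NumIs.lkR] at hp
    push_cast at hp
    try simp only [zero_div, div_one] at hp
    linarith only [u1, hS, h2, hp]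
  · simp only [E.val, NumIs.lkR] at hp
    push_cast at hp
    try simp only [zero_div, div_one] at hp
    linarith only [r4, hp]
  · simp only [E.val, NumIs.lkR] at hp
    push_cast at hp
    try simp only [zero_div, div_one] at hp
    linarith only [a3, x1, hp]
  · simp only [E.val, NumIs.lkR] at hp
    push_cast at hp
    try simp only [zero_div, div_one] at hp
    linarith only [x1, hp]
  · simp only [E.val, NumIs.lkR] at hp
    push_cast at hp
    try simp only [zero_div, div_one] at hp
    linarith only [x0, hp]

/-- 3 boxes -/
theorem k_cfnw {w t s Y U S W : ℝ}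
    (a0 : 200 / 10000 ≤ w) (b0 : w ≤ 1800 / 10000)
    (a1 : -(180 / 10000) ≤ t) (b1 : t ≤ 985 / 10000)
    (a2 : 10050 / 10000 ≤ s) (b2 : s ≤ 10300 / 10000)
    (a3 : -(117 / 10000) ≤ Y) (b3 : Y ≤ 0)
    (r1 : w ≤ s) (r2 : s - w ≤ 86 / 100)
    (r3 : Y ≤ 907 / 1000 * (s - w)) (r4 : Y ≤ 29 / 100 * (86 / 100 - (s - w)))
    (r5 : -(62 / 100 * (s - w)) ≤ Y) (r6 : -(465 / 1000 * (86 / 100 - (s - w))) ≤ Y)
    (x0 : 835 / 1000 ≤ s - w) (x1 : s - w ≤ 850 / 1000)
    (u0 : uu (30 / 1000) (t + Y) + Real.pi * (t + Y) ≤ U) (u1 : uu (30 / 1000) (t + Y) - Real.pi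
      * (t + Y) ≤ U)
    (hS : -uu (5 / 1000) Y + Real.pi * Y ≤ S) (hW : uu w 0 ≤ W)
    (h1 : Real.pi * ((18 / 100 - w) * Y + t * (s - w - 1)) + U - uu (18 / 100) t + S + W < -(30
      / 1000) - 3927 / 1250 * t)
    (h2 : Real.pi * ((18 / 100 - w) * Y + t * (s - w - 1)) + U - uu (18 / 100) t + S < -(2039 /
      10000) + 653 / 500 * w - 643 / 500 * t) : False := by
  have h : chkT [(.sub (.add (.add (.sub (.add (.mul .pi (.add (.mul (.sub (.q 18 100) (.var 0)) (.var 3))
      (.mul (.var 1) (.sub (.sub (.var 2) (.var 0)) (.q 1 1))))) (.add (.uu (.q 30 1000) (.add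
      (.var 1) (.var 3))) (.mul .pi (.add (.var 1) (.var 3))))) (.uu (.q 18 100) (.var 1))) (.add
      (.neg (.uu (.q 5 1000) (.var 3))) (.mul .pi (.var 3)))) (.uu (.var 0) (.q 0 1))) (.add (.add
      (.q (-30) 1000) (.mul (.q 0 1) (.var 0))) (.mul (.q (-3927) 1250) (.var 1)))), (.sub (.add
      (.sub (.add (.mul .pi (.add (.mul (.sub (.q 18 100) (.var 0)) (.var 3)) (.mul (.var 1) (.sub
      (.sub (.var 2) (.var 0)) (.q 1 1))))) (.add (.uu (.q 30 1000) (.add (.var 1) (.var 3)))
      (.mul .pi (.add (.var 1) (.var 3))))) (.uu (.q 18 100) (.var 1))) (.add (.neg (.uu (.q 5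
      1000) (.var 3))) (.mul .pi (.var 3)))) (.add (.add (.q (-2039) 10000) (.mul (.q 653 500)
      (.var 0))) (.mul (.q (-643) 500) (.var 1)))), (.sub (.add (.add (.sub (.add (.mul .pi (.add
      (.mul (.sub (.q 18 100) (.var 0)) (.var 3)) (.mul (.var 1) (.sub (.sub (.var 2) (.var 0))
      (.q 1 1))))) (.sub (.uu (.q 30 1000) (.add (.var 1) (.var 3))) (.mul .pi (.add (.var 1)
      (.var 3))))) (.uu (.q 18 100) (.var 1))) (.add (.neg (.uu (.q 5 1000) (.var 3))) (.mul .pi
      (.var 3)))) (.uu (.var 0) (.q 0 1))) (.add (.add (.q (-30) 1000) (.mul (.q 0 1) (.var 0)))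
      (.mul (.q (-3927) 1250) (.var 1)))), (.sub (.add (.sub (.add (.mul .pi (.add (.mul (.sub (.q
      18 100) (.var 0)) (.var 3)) (.mul (.var 1) (.sub (.sub (.var 2) (.var 0)) (.q 1 1))))) (.sub
      (.uu (.q 30 1000) (.add (.var 1) (.var 3))) (.mul .pi (.add (.var 1) (.var 3))))) (.uu (.q
      18 100) (.var 1))) (.add (.neg (.uu (.q 5 1000) (.var 3))) (.mul .pi (.var 3)))) (.add (.add
      (.q (-2039) 10000) (.mul (.q 653 500) (.var 0))) (.mul (.q (-643) 500) (.var 1)))), (.sub
      (.var 3) (.mul (.q 29 100) (.sub (.q 86 100) (.sub (.var 2) (.var 0))))), (.sub (.neg (.mul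
      (.q 465 1000) (.sub (.q 86 100) (.sub (.var 2) (.var 0))))) (.var 3)), (.sub (.sub (.var 2)
      (.var 0)) (.q 850 1000)), (.sub (.q 835 1000) (.sub (.var 2) (.var 0)))] 34
      629521
      [V.of 10000 200 1800, V.of 10000 (-180) 985, V.of 10000 10050 10300, V.of 10000 (-117) 0] = true := by
    decide +kernel
  obtain ⟨e, he, hp⟩ := chkT4 h (by norm_num) (x := w) (y := t) (z := s) (w := Y)
    (le_trans (by norm_num) a0) (le_trans b0 (by norm_num))
    (le_trans (by norm_num) a1) (le_trans b1 (by norm_num))
    (le_trans (by norm_num) a2) (le_trans b2 (by norm_num))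
    (le_trans (by norm_num) a3) (le_trans b3 (by norm_num))
  simp only [List.mem_cons, List.not_mem_nil, or_false] at he
  rcases he with rfl | rfl | rfl | rfl | rfl | rfl | rfl | rfl
  · simp only [E.val, NumIs.lkR] at hp
    push_cast at hp
    try simp only [zero_div, div_one] at hp
    linarith only [u0, hS, hW, h1, hp]
  · simp only [E.val, NumIs.lkR] at hp
    push_cast at hp
    try simp only [zero_div, div_one] at hp
    linarith only [u0, hS, h2, hp]
  · simp only [E.val, NumIs.lkR] at hp
    push_cast at hp
    try simp only [zero_div, div_one] at hp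
    linarith only [u1, hS, hW, h1, hp]
  · simp only [E.val, NumIs.lkR] at hp
    push_cast at hp
    try simp only [zero_div, div_one] at hp
    linarith only [u1, hS, h2, hp]
  · simp only [E.val, NumIs.lkR] at hp
    push_cast at hp
    try simp only [zero_div, div_one] at hp
    linarith only [b3, x1, hp]
  · simp only [E.val, NumIs.lkR] at hp
    push_cast at hp
    try simp only [zero_div, div_one] at hp
    linarith only [r6, hp]
  · simp only [E.val, NumIs.lkR] at hp
    push_cast at hp
    try simp only [zero_div, div_one] at hp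
    linarith only [x1, hp]
  · simp only [E.val, NumIs.lkR] at hp
    push_cast at hp
    try simp only [zero_div, div_one] at hp
    linarith only [x0, hp]

/-- 3 boxes -/
theorem k_cfav {w t s Y U S W : ℝ}
    (a0 : 0 ≤ w) (b0 : w ≤ 200 / 10000)
    (a1 : -(180 / 10000) ≤ t) (b1 : t ≤ 985 / 10000)
    (a2 : 8350 / 10000 ≤ s) (b2 : s ≤ 8700 / 10000)
    (a3 : -(117 / 10000) ≤ Y) (b3 : Y ≤ 73 / 10000)
    (r1 : w ≤ s) (r2 : s - w ≤ 86 / 100)
    (r3 : Y ≤ 907 / 1000 * (s - w)) (r4 : Y ≤ 29 / 100 * (86 / 100 - (s - w)))
    (r5 : -(62 / 100 * (s - w)) ≤ Y) (r6 : -(465 / 1000 * (86 / 100 - (s - w))) ≤ Y)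
    (x0 : 835 / 1000 ≤ s - w) (x1 : s - w ≤ 850 / 1000)
    (u0 : uu (30 / 1000) (t + Y) + Real.pi * (t + Y) ≤ U) (u1 : uu (30 / 1000) (t + Y) - Real.pi
      * (t + Y) ≤ U)
    (hS : -uu s Y ≤ S) (hW : uu (2 / 100) 0 ≤ W)
    (h1 : Real.pi * ((18 / 100 - w) * Y + t * (s - w - 1)) + U - uu (18 / 100) t + S + W < -(30
      / 1000) - 3927 / 1250 * t)
    (h2 : Real.pi * ((18 / 100 - w) * Y + t * (s - w - 1)) + U - uu (18 / 100) t + S < -(2039 /
      10000) + 653 / 500 * w - 643 / 500 * t) : False := by
  have h : chkT [(.sub (.add (.add (.sub (.add (.mul .pi (.add (.mul (.sub (.q 18 100) (.var 0)) (.var 3))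
      (.mul (.var 1) (.sub (.sub (.var 2) (.var 0)) (.q 1 1))))) (.add (.uu (.q 30 1000) (.add
      (.var 1) (.var 3))) (.mul .pi (.add (.var 1) (.var 3))))) (.uu (.q 18 100) (.var 1))) (.neg
      (.uu (.var 2) (.var 3)))) (.uu (.q 2 100) (.q 0 1))) (.add (.add (.q (-30) 1000) (.mul (.q 0
      1) (.var 0))) (.mul (.q (-3927) 1250) (.var 1)))), (.sub (.add (.sub (.add (.mul .pi (.add
      (.mul (.sub (.q 18 100) (.var 0)) (.var 3)) (.mul (.var 1) (.sub (.sub (.var 2) (.var 0))
      (.q 1 1))))) (.add (.uu (.q 30 1000) (.add (.var 1) (.var 3))) (.mul .pi (.add (.var 1)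
      (.var 3))))) (.uu (.q 18 100) (.var 1))) (.neg (.uu (.var 2) (.var 3)))) (.add (.add (.q
      (-2039) 10000) (.mul (.q 653 500) (.var 0))) (.mul (.q (-643) 500) (.var 1)))), (.sub (.add
      (.add (.sub (.add (.mul .pi (.add (.mul (.sub (.q 18 100) (.var 0)) (.var 3)) (.mul (.var 1)
      (.sub (.sub (.var 2) (.var 0)) (.q 1 1))))) (.sub (.uu (.q 30 1000) (.add (.var 1) (.var
      3))) (.mul .pi (.add (.var 1) (.var 3))))) (.uu (.q 18 100) (.var 1))) (.neg (.uu (.var 2)
      (.var 3)))) (.uu (.q 2 100) (.q 0 1))) (.add (.add (.q (-30) 1000) (.mul (.q 0 1) (.var 0)))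
      (.mul (.q (-3927) 1250) (.var 1)))), (.sub (.add (.sub (.add (.mul .pi (.add (.mul (.sub (.q
      18 100) (.var 0)) (.var 3)) (.mul (.var 1) (.sub (.sub (.var 2) (.var 0)) (.q 1 1))))) (.sub
      (.uu (.q 30 1000) (.add (.var 1) (.var 3))) (.mul .pi (.add (.var 1) (.var 3))))) (.uu (.q
      18 100) (.var 1))) (.neg (.uu (.var 2) (.var 3)))) (.add (.add (.q (-2039) 10000) (.mul (.q
      653 500) (.var 0))) (.mul (.q (-643) 500) (.var 1)))), (.sub (.var 3) (.mul (.q 29 100)
      (.sub (.q 86 100) (.sub (.var 2) (.var 0))))), (.sub (.neg (.mul (.q 465 1000) (.sub (.q 86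
      100) (.sub (.var 2) (.var 0))))) (.var 3)), (.sub (.sub (.var 2) (.var 0)) (.q 850 1000)),
      (.sub (.q 835 1000) (.sub (.var 2) (.var 0)))] 34
      563985
      [V.of 10000 0 200, V.of 10000 (-180) 985, V.of 10000 8350 8700, V.of 10000 (-117) 73] = true := by
    decide +kernel
  obtain ⟨e, he, hp⟩ := chkT4 h (by norm_num) (x := w) (y := t) (z := s) (w := Y)
    (le_trans (by norm_num) a0) (le_trans b0 (by norm_num))
    (le_trans (by norm_num) a1) (le_trans b1 (by norm_num))
    (le_trans (by norm_num) a2) (le_trans b2 (by norm_num))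
    (le_trans (by norm_num) a3) (le_trans b3 (by norm_num))
  simp only [List.mem_cons, List.not_mem_nil, or_false] at he
  rcases he with rfl | rfl | rfl | rfl | rfl | rfl | rfl | rfl
  · simp only [E.val, NumIs.lkR] at hp
    push_cast at hp
    try simp only [zero_div, div_one] at hp
    linarith only [u0, hS, hW, h1, hp]
  · simp only [E.val, NumIs.lkR] at hp
    push_cast at hp
    try simp only [zero_div, div_one] at hp
    linarith only [u0, hS, h2, hp]
  · simp only [E.val, NumIs.lkR] at hp
    push_cast at hp
    try simp only [zero_div, div_one] at hp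
    linarith only [u1, hS, hW, h1, hp]
  · simp only [E.val, NumIs.lkR] at hp
    push_cast at hp
    try simp only [zero_div, div_one] at hp
    linarith only [u1, hS, h2, hp]
  · simp only [E.val, NumIs.lkR] at hp
    push_cast at hp
    try simp only [zero_div, div_one] at hp
    linarith only [r4, hp]
  · simp only [E.val, NumIs.lkR] at hp
    push_cast at hp
    try simp only [zero_div, div_one] at hp
    linarith only [r6, hp]
  · simp only [E.val, NumIs.lkR] at hp
    push_cast at hp
    try simp only [zero_div, div_one] at hp
    linarith only [x1, hp]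
  · simp only [E.val, NumIs.lkR] at hp
    push_cast at hp
    try simp only [zero_div, div_one] at hp
    linarith only [x0, hp]

/-- 74 boxes -/
theorem k_cgaw {w t s Y U S W : ℝ}
    (a0 : 200 / 10000 ≤ w) (b0 : w ≤ 1800 / 10000)
    (a1 : -(180 / 10000) ≤ t) (b1 : t ≤ 985 / 10000)
    (a2 : 8700 / 10000 ≤ s) (b2 : s ≤ 9850 / 10000)
    (a3 : -(47 / 10000) ≤ Y) (b3 : Y ≤ 29 / 10000)
    (r1 : w ≤ s) (r2 : s - w ≤ 86 / 100)
    (r3 : Y ≤ 907 / 1000 * (s - w)) (r4 : Y ≤ 29 / 100 * (86 / 100 - (s - w)))
    (r5 : -(62 / 100 * (s - w)) ≤ Y) (r6 : -(465 / 1000 * (86 / 100 - (s - w))) ≤ Y)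
    (x0 : 850 / 1000 ≤ s - w) (x1 : s - w ≤ 860 / 1000)
    (u0 : uu (40 / 1000) (t + Y) + Real.pi * (t + Y) ≤ U) (u1 : uu (40 / 1000) (t + Y) - Real.pi
      * (t + Y) ≤ U)
    (hS : -uu s Y ≤ S) (hW : uu w 0 ≤ W)
    (h1 : Real.pi * ((18 / 100 - w) * Y + t * (s - w - 1)) + U - uu (18 / 100) t + S + W < -(30
      / 1000) - 3927 / 1250 * t)
    (h2 : Real.pi * ((18 / 100 - w) * Y + t * (s - w - 1)) + U - uu (18 / 100) t + S < -(2039 /
      10000) + 653 / 500 * w - 643 / 500 * t) : False := by
  have h : chkT [(.sub (.add (.add (.sub (.add (.mul .pi (.add (.mul (.sub (.q 18 100) (.var 0)) (.var 3))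
      (.mul (.var 1) (.sub (.sub (.var 2) (.var 0)) (.q 1 1))))) (.add (.uu (.q 40 1000) (.add
      (.var 1) (.var 3))) (.mul .pi (.add (.var 1) (.var 3))))) (.uu (.q 18 100) (.var 1))) (.neg
      (.uu (.var 2) (.var 3)))) (.uu (.var 0) (.q 0 1))) (.add (.add (.q (-30) 1000) (.mul (.q 0
      1) (.var 0))) (.mul (.q (-3927) 1250) (.var 1)))), (.sub (.add (.sub (.add (.mul .pi (.add
      (.mul (.sub (.q 18 100) (.var 0)) (.var 3)) (.mul (.var 1) (.sub (.sub (.var 2) (.var 0))
      (.q 1 1))))) (.add (.uu (.q 40 1000) (.add (.var 1) (.var 3))) (.mul .pi (.add (.var 1)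
      (.var 3))))) (.uu (.q 18 100) (.var 1))) (.neg (.uu (.var 2) (.var 3)))) (.add (.add (.q
      (-2039) 10000) (.mul (.q 653 500) (.var 0))) (.mul (.q (-643) 500) (.var 1)))), (.sub (.add
      (.add (.sub (.add (.mul .pi (.add (.mul (.sub (.q 18 100) (.var 0)) (.var 3)) (.mul (.var 1)
      (.sub (.sub (.var 2) (.var 0)) (.q 1 1))))) (.sub (.uu (.q 40 1000) (.add (.var 1) (.var
      3))) (.mul .pi (.add (.var 1) (.var 3))))) (.uu (.q 18 100) (.var 1))) (.neg (.uu (.var 2)
      (.var 3)))) (.uu (.var 0) (.q 0 1))) (.add (.add (.q (-30) 1000) (.mul (.q 0 1) (.var 0)))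
      (.mul (.q (-3927) 1250) (.var 1)))), (.sub (.add (.sub (.add (.mul .pi (.add (.mul (.sub (.q
      18 100) (.var 0)) (.var 3)) (.mul (.var 1) (.sub (.sub (.var 2) (.var 0)) (.q 1 1))))) (.sub
      (.uu (.q 40 1000) (.add (.var 1) (.var 3))) (.mul .pi (.add (.var 1) (.var 3))))) (.uu (.q
      18 100) (.var 1))) (.neg (.uu (.var 2) (.var 3)))) (.add (.add (.q (-2039) 10000) (.mul (.q
      653 500) (.var 0))) (.mul (.q (-643) 500) (.var 1)))), (.sub (.var 3) (.mul (.q 29 100)
      (.sub (.q 86 100) (.sub (.var 2) (.var 0))))), (.sub (.neg (.mul (.q 465 1000) (.sub (.q 86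
      100) (.sub (.var 2) (.var 0))))) (.var 3)), (.sub (.sub (.var 2) (.var 0)) (.q 860 1000)),
      (.sub (.q 850 1000) (.sub (.var 2) (.var 0)))] 34
      607693670557682864098686329665116860271472871981160509667494122589870927328474947611383670629139827949250413506665678838163408796995973763555167290050123478560432087156121407746
      [V.of 10000 200 1800, V.of 10000 (-180) 985, V.of 10000 8700 9850, V.of 10000 (-47) 29] = true :=
      Pool.Agent.Work.NumUs.chkT_of k_cgaw_p1
  obtain ⟨e, he, hp⟩ := chkT4 h (by norm_num) (x := w) (y := t) (z := s) (w := Y)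
    (le_trans (by norm_num) a0) (le_trans b0 (by norm_num))
    (le_trans (by norm_num) a1) (le_trans b1 (by norm_num))
    (le_trans (by norm_num) a2) (le_trans b2 (by norm_num))
    (le_trans (by norm_num) a3) (le_trans b3 (by norm_num))
  simp only [List.mem_cons, List.not_mem_nil, or_false] at he
  rcases he with rfl | rfl | rfl | rfl | rfl | rfl | rfl | rfl
  · simp only [E.val, NumIs.lkR] at hp
    push_cast at hp
    try simp only [zero_div, div_one] at hp
    linarith only [u0, hS, hW, h1, hp]
  · simp only [E.val, NumIs.lkR] at hp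
    push_cast at hp
    try simp only [zero_div, div_one] at hp
    linarith only [u0, hS, h2, hp]
  · simp only [E.val, NumIs.lkR] at hp
    push_cast at hp
    try simp only [zero_div, div_one] at hp
    linarith only [u1, hS, hW, h1, hp]
  · simp only [E.val, NumIs.lkR] at hp
    push_cast at hp
    try simp only [zero_div, div_one] at hp
    linarith only [u1, hS, h2, hp]
  · simp only [E.val, NumIs.lkR] at hp
    push_cast at hp
    try simp only [zero_div, div_one] at hp
    linarith only [r4, hp]
  · simp only [E.val, NumIs.lkR] at hp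
    push_cast at hp
    try simp only [zero_div, div_one] at hp
    linarith only [r6, hp]
  · simp only [E.val, NumIs.lkR] at hp
    push_cast at hp
    try simp only [zero_div, div_one] at hp
    linarith only [r2, hp]
  · simp only [E.val, NumIs.lkR] at hp
    push_cast at hp
    try simp only [zero_div, div_one] at hp
    linarith only [x0, hp]

/-- 11 boxes -/
theorem k_cgbw {w t s Y U S W : ℝ}
    (a0 : 200 / 10000 ≤ w) (b0 : w ≤ 1800 / 10000)
    (a1 : -(180 / 10000) ≤ t) (b1 : t ≤ 985 / 10000)
    (a2 : 9850 / 10000 ≤ s) (b2 : s ≤ 9950 / 10000)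
    (a3 : -(47 / 10000) ≤ Y) (b3 : Y ≤ 29 / 10000)
    (r1 : w ≤ s) (r2 : s - w ≤ 86 / 100)
    (r3 : Y ≤ 907 / 1000 * (s - w)) (r4 : Y ≤ 29 / 100 * (86 / 100 - (s - w)))
    (r5 : -(62 / 100 * (s - w)) ≤ Y) (r6 : -(465 / 1000 * (86 / 100 - (s - w))) ≤ Y)
    (x0 : 850 / 1000 ≤ s - w) (x1 : s - w ≤ 860 / 1000)
    (u0 : uu (40 / 1000) (t + Y) + Real.pi * (t + Y) ≤ U) (u1 : uu (40 / 1000) (t + Y) - Real.pi
      * (t + Y) ≤ U)
    (hS : uu (15 / 1000) Y ≤ S) (hW : uu w 0 ≤ W)
    (h1 : Real.pi * ((18 / 100 - w) * Y + t * (s - w - 1)) + U - uu (18 / 100) t + S + W < -(30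
      / 1000) - 3927 / 1250 * t)
    (h2 : Real.pi * ((18 / 100 - w) * Y + t * (s - w - 1)) + U - uu (18 / 100) t + S < -(2039 /
      10000) + 653 / 500 * w - 643 / 500 * t) : False := by
  have h : chkT [(.sub (.add (.add (.sub (.add (.mul .pi (.add (.mul (.sub (.q 18 100) (.var 0)) (.var 3))
      (.mul (.var 1) (.sub (.sub (.var 2) (.var 0)) (.q 1 1))))) (.add (.uu (.q 40 1000) (.add
      (.var 1) (.var 3))) (.mul .pi (.add (.var 1) (.var 3))))) (.uu (.q 18 100) (.var 1))) (.uu
      (.q 15 1000) (.var 3))) (.uu (.var 0) (.q 0 1))) (.add (.add (.q (-30) 1000) (.mul (.q 0 1)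
      (.var 0))) (.mul (.q (-3927) 1250) (.var 1)))), (.sub (.add (.sub (.add (.mul .pi (.add
      (.mul (.sub (.q 18 100) (.var 0)) (.var 3)) (.mul (.var 1) (.sub (.sub (.var 2) (.var 0))
      (.q 1 1))))) (.add (.uu (.q 40 1000) (.add (.var 1) (.var 3))) (.mul .pi (.add (.var 1)
      (.var 3))))) (.uu (.q 18 100) (.var 1))) (.uu (.q 15 1000) (.var 3))) (.add (.add (.q
      (-2039) 10000) (.mul (.q 653 500) (.var 0))) (.mul (.q (-643) 500) (.var 1)))), (.sub (.add
      (.add (.sub (.add (.mul .pi (.add (.mul (.sub (.q 18 100) (.var 0)) (.var 3)) (.mul (.var 1)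
      (.sub (.sub (.var 2) (.var 0)) (.q 1 1))))) (.sub (.uu (.q 40 1000) (.add (.var 1) (.var
      3))) (.mul .pi (.add (.var 1) (.var 3))))) (.uu (.q 18 100) (.var 1))) (.uu (.q 15 1000)
      (.var 3))) (.uu (.var 0) (.q 0 1))) (.add (.add (.q (-30) 1000) (.mul (.q 0 1) (.var 0)))
      (.mul (.q (-3927) 1250) (.var 1)))), (.sub (.add (.sub (.add (.mul .pi (.add (.mul (.sub (.q
      18 100) (.var 0)) (.var 3)) (.mul (.var 1) (.sub (.sub (.var 2) (.var 0)) (.q 1 1))))) (.sub
      (.uu (.q 40 1000) (.add (.var 1) (.var 3))) (.mul .pi (.add (.var 1) (.var 3))))) (.uu (.q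
      18 100) (.var 1))) (.uu (.q 15 1000) (.var 3))) (.add (.add (.q (-2039) 10000) (.mul (.q 653
      500) (.var 0))) (.mul (.q (-643) 500) (.var 1)))), (.sub (.var 3) (.mul (.q 29 100) (.sub
      (.q 86 100) (.sub (.var 2) (.var 0))))), (.sub (.neg (.mul (.q 465 1000) (.sub (.q 86 100)
      (.sub (.var 2) (.var 0))))) (.var 3)), (.sub (.sub (.var 2) (.var 0)) (.q 860 1000)), (.sub
      (.q 850 1000) (.sub (.var 2) (.var 0)))] 34
      11603149141928426414845969
      [V.of 10000 200 1800, V.of 10000 (-180) 985, V.of 10000 9850 9950, V.of 10000 (-47) 29] = true := by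
    decide +kernel
  obtain ⟨e, he, hp⟩ := chkT4 h (by norm_num) (x := w) (y := t) (z := s) (w := Y)
    (le_trans (by norm_num) a0) (le_trans b0 (by norm_num))
    (le_trans (by norm_num) a1) (le_trans b1 (by norm_num))
    (le_trans (by norm_num) a2) (le_trans b2 (by norm_num))
    (le_trans (by norm_num) a3) (le_trans b3 (by norm_num))
  simp only [List.mem_cons, List.not_mem_nil, or_false] at he
  rcases he with rfl | rfl | rfl | rfl | rfl | rfl | rfl | rfl
  · simp only [E.val, NumIs.lkR] at hp
    push_cast at hp
    try simp only [zero_div, div_one] at hp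
    linarith only [u0, hS, hW, h1, hp]
  · simp only [E.val, NumIs.lkR] at hp
    push_cast at hp
    try simp only [zero_div, div_one] at hp
    linarith only [u0, hS, h2, hp]
  · simp only [E.val, NumIs.lkR] at hp
    push_cast at hp
    try simp only [zero_div, div_one] at hp
    linarith only [u1, hS, hW, h1, hp]
  · simp only [E.val, NumIs.lkR] at hp
    push_cast at hp
    try simp only [zero_div, div_one] at hp
    linarith only [u1, hS, h2, hp]
  · simp only [E.val, NumIs.lkR] at hp
    push_cast at hp
    try simp only [zero_div, div_one] at hp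
    linarith only [r4, hp]
  · simp only [E.val, NumIs.lkR] at hp
    push_cast at hp
    try simp only [zero_div, div_one] at hp
    linarith only [r6, hp]
  · simp only [E.val, NumIs.lkR] at hp
    push_cast at hp
    try simp only [zero_div, div_one] at hp
    linarith only [r2, hp]
  · simp only [E.val, NumIs.lkR] at hp
    push_cast at hp
    try simp only [zero_div, div_one] at hp
    linarith only [x0, hp]

/-- 7 boxes -/
theorem k_cgcw {w t s Y U S W : ℝ}
    (a0 : 200 / 10000 ≤ w) (b0 : w ≤ 1800 / 10000)
    (a1 : -(180 / 10000) ≤ t) (b1 : t ≤ 985 / 10000)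
    (a2 : 9950 / 10000 ≤ s) (b2 : s ≤ 10050 / 10000)
    (a3 : -(47 / 10000) ≤ Y) (b3 : Y ≤ 29 / 10000)
    (r1 : w ≤ s) (r2 : s - w ≤ 86 / 100)
    (r3 : Y ≤ 907 / 1000 * (s - w)) (r4 : Y ≤ 29 / 100 * (86 / 100 - (s - w)))
    (r5 : -(62 / 100 * (s - w)) ≤ Y) (r6 : -(465 / 1000 * (86 / 100 - (s - w))) ≤ Y)
    (x0 : 850 / 1000 ≤ s - w) (x1 : s - w ≤ 860 / 1000)
    (u0 : uu (40 / 1000) (t + Y) + Real.pi * (t + Y) ≤ U) (u1 : uu (40 / 1000) (t + Y) - Real.pi
      * (t + Y) ≤ U)
    (hS : uu (5 / 1000) Y ≤ S) (hW : uu w 0 ≤ W)
    (h1 : Real.pi * ((18 / 100 - w) * Y + t * (s - w - 1)) + U - uu (18 / 100) t + S + W < -(30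
      / 1000) - 3927 / 1250 * t)
    (h2 : Real.pi * ((18 / 100 - w) * Y + t * (s - w - 1)) + U - uu (18 / 100) t + S < -(2039 /
      10000) + 653 / 500 * w - 643 / 500 * t) : False := by
  have h : chkT [(.sub (.add (.add (.sub (.add (.mul .pi (.add (.mul (.sub (.q 18 100) (.var 0)) (.var 3))
      (.mul (.var 1) (.sub (.sub (.var 2) (.var 0)) (.q 1 1))))) (.add (.uu (.q 40 1000) (.add
      (.var 1) (.var 3))) (.mul .pi (.add (.var 1) (.var 3))))) (.uu (.q 18 100) (.var 1))) (.uu
      (.q 5 1000) (.var 3))) (.uu (.var 0) (.q 0 1))) (.add (.add (.q (-30) 1000) (.mul (.q 0 1)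
      (.var 0))) (.mul (.q (-3927) 1250) (.var 1)))), (.sub (.add (.sub (.add (.mul .pi (.add
      (.mul (.sub (.q 18 100) (.var 0)) (.var 3)) (.mul (.var 1) (.sub (.sub (.var 2) (.var 0))
      (.q 1 1))))) (.add (.uu (.q 40 1000) (.add (.var 1) (.var 3))) (.mul .pi (.add (.var 1)
      (.var 3))))) (.uu (.q 18 100) (.var 1))) (.uu (.q 5 1000) (.var 3))) (.add (.add (.q (-2039)
      10000) (.mul (.q 653 500) (.var 0))) (.mul (.q (-643) 500) (.var 1)))), (.sub (.add (.add
      (.sub (.add (.mul .pi (.add (.mul (.sub (.q 18 100) (.var 0)) (.var 3)) (.mul (.var 1) (.sub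
      (.sub (.var 2) (.var 0)) (.q 1 1))))) (.sub (.uu (.q 40 1000) (.add (.var 1) (.var 3)))
      (.mul .pi (.add (.var 1) (.var 3))))) (.uu (.q 18 100) (.var 1))) (.uu (.q 5 1000) (.var
      3))) (.uu (.var 0) (.q 0 1))) (.add (.add (.q (-30) 1000) (.mul (.q 0 1) (.var 0))) (.mul
      (.q (-3927) 1250) (.var 1)))), (.sub (.add (.sub (.add (.mul .pi (.add (.mul (.sub (.q 18
      100) (.var 0)) (.var 3)) (.mul (.var 1) (.sub (.sub (.var 2) (.var 0)) (.q 1 1))))) (.sub
      (.uu (.q 40 1000) (.add (.var 1) (.var 3))) (.mul .pi (.add (.var 1) (.var 3))))) (.uu (.q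
      18 100) (.var 1))) (.uu (.q 5 1000) (.var 3))) (.add (.add (.q (-2039) 10000) (.mul (.q 653
      500) (.var 0))) (.mul (.q (-643) 500) (.var 1)))), (.sub (.var 3) (.mul (.q 29 100) (.sub
      (.q 86 100) (.sub (.var 2) (.var 0))))), (.sub (.neg (.mul (.q 465 1000) (.sub (.q 86 100)
      (.sub (.var 2) (.var 0))))) (.var 3)), (.sub (.sub (.var 2) (.var 0)) (.q 860 1000)), (.sub
      (.q 850 1000) (.sub (.var 2) (.var 0)))] 34
      2702166245617937
      [V.of 10000 200 1800, V.of 10000 (-180) 985, V.of 10000 9950 10050, V.of 10000 (-47) 29] = true := by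
    decide +kernel
  obtain ⟨e, he, hp⟩ := chkT4 h (by norm_num) (x := w) (y := t) (z := s) (w := Y)
    (le_trans (by norm_num) a0) (le_trans b0 (by norm_num))
    (le_trans (by norm_num) a1) (le_trans b1 (by norm_num))
    (le_trans (by norm_num) a2) (le_trans b2 (by norm_num))
    (le_trans (by norm_num) a3) (le_trans b3 (by norm_num))
  simp only [List.mem_cons, List.not_mem_nil, or_false] at he
  rcases he with rfl | rfl | rfl | rfl | rfl | rfl | rfl | rfl
  · simp only [E.val, NumIs.lkR] at hp
    push_cast at hp
    try simp only [zero_div, div_one] at hp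
    linarith only [u0, hS, hW, h1, hp]
  · simp only [E.val, NumIs.lkR] at hp
    push_cast at hp
    try simp only [zero_div, div_one] at hp
    linarith only [u0, hS, h2, hp]
  · simp only [E.val, NumIs.lkR] at hp
    push_cast at hp
    try simp only [zero_div, div_one] at hp
    linarith only [u1, hS, hW, h1, hp]
  · simp only [E.val, NumIs.lkR] at hp
    push_cast at hp
    try simp only [zero_div, div_one] at hp
    linarith only [u1, hS, h2, hp]
  · simp only [E.val, NumIs.lkR] at hp
    push_cast at hp
    try simp only [zero_div, div_one] at hp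
    linarith only [r4, hp]
  · simp only [E.val, NumIs.lkR] at hp
    push_cast at hp
    try simp only [zero_div, div_one] at hp
    linarith only [r6, hp]
  · simp only [E.val, NumIs.lkR] at hp
    push_cast at hp
    try simp only [zero_div, div_one] at hp
    linarith only [r2, hp]
  · simp only [E.val, NumIs.lkR] at hp
    push_cast at hp
    try simp only [zero_div, div_one] at hp
    linarith only [x0, hp]

/-- 3 boxes -/
theorem k_cgpw {w t s Y U S W : ℝ}
    (a0 : 200 / 10000 ≤ w) (b0 : w ≤ 1800 / 10000)
    (a1 : -(180 / 10000) ≤ t) (b1 : t ≤ 985 / 10000)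
    (a2 : 10050 / 10000 ≤ s) (b2 : s ≤ 10400 / 10000)
    (a3 : 0 ≤ Y) (b3 : Y ≤ 29 / 10000)
    (r1 : w ≤ s) (r2 : s - w ≤ 86 / 100)
    (r3 : Y ≤ 907 / 1000 * (s - w)) (r4 : Y ≤ 29 / 100 * (86 / 100 - (s - w)))
    (r5 : -(62 / 100 * (s - w)) ≤ Y) (r6 : -(465 / 1000 * (86 / 100 - (s - w))) ≤ Y)
    (x0 : 850 / 1000 ≤ s - w) (x1 : s - w ≤ 860 / 1000)
    (u0 : uu (40 / 1000) (t + Y) + Real.pi * (t + Y) ≤ U) (u1 : uu (40 / 1000) (t + Y) - Real.pi
      * (t + Y) ≤ U)
    (hS : -uu (5 / 1000) Y - Real.pi * Y ≤ S) (hW : uu w 0 ≤ W)
    (h1 : Real.pi * ((18 / 100 - w) * Y + t * (s - w - 1)) + U - uu (18 / 100) t + S + W < -(30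
      / 1000) - 3927 / 1250 * t)
    (h2 : Real.pi * ((18 / 100 - w) * Y + t * (s - w - 1)) + U - uu (18 / 100) t + S < -(2039 /
      10000) + 653 / 500 * w - 643 / 500 * t) : False := by
  have h : chkT [(.sub (.add (.add (.sub (.add (.mul .pi (.add (.mul (.sub (.q 18 100) (.var 0)) (.var 3))
      (.mul (.var 1) (.sub (.sub (.var 2) (.var 0)) (.q 1 1))))) (.add (.uu (.q 40 1000) (.add
      (.var 1) (.var 3))) (.mul .pi (.add (.var 1) (.var 3))))) (.uu (.q 18 100) (.var 1))) (.sub
      (.neg (.uu (.q 5 1000) (.var 3))) (.mul .pi (.var 3)))) (.uu (.var 0) (.q 0 1))) (.add (.add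
      (.q (-30) 1000) (.mul (.q 0 1) (.var 0))) (.mul (.q (-3927) 1250) (.var 1)))), (.sub (.add
      (.sub (.add (.mul .pi (.add (.mul (.sub (.q 18 100) (.var 0)) (.var 3)) (.mul (.var 1) (.sub
      (.sub (.var 2) (.var 0)) (.q 1 1))))) (.add (.uu (.q 40 1000) (.add (.var 1) (.var 3)))
      (.mul .pi (.add (.var 1) (.var 3))))) (.uu (.q 18 100) (.var 1))) (.sub (.neg (.uu (.q 5
      1000) (.var 3))) (.mul .pi (.var 3)))) (.add (.add (.q (-2039) 10000) (.mul (.q 653 500)
      (.var 0))) (.mul (.q (-643) 500) (.var 1)))), (.sub (.add (.add (.sub (.add (.mul .pi (.add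
      (.mul (.sub (.q 18 100) (.var 0)) (.var 3)) (.mul (.var 1) (.sub (.sub (.var 2) (.var 0))
      (.q 1 1))))) (.sub (.uu (.q 40 1000) (.add (.var 1) (.var 3))) (.mul .pi (.add (.var 1)
      (.var 3))))) (.uu (.q 18 100) (.var 1))) (.sub (.neg (.uu (.q 5 1000) (.var 3))) (.mul .pi
      (.var 3)))) (.uu (.var 0) (.q 0 1))) (.add (.add (.q (-30) 1000) (.mul (.q 0 1) (.var 0)))
      (.mul (.q (-3927) 1250) (.var 1)))), (.sub (.add (.sub (.add (.mul .pi (.add (.mul (.sub (.q
      18 100) (.var 0)) (.var 3)) (.mul (.var 1) (.sub (.sub (.var 2) (.var 0)) (.q 1 1))))) (.sub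
      (.uu (.q 40 1000) (.add (.var 1) (.var 3))) (.mul .pi (.add (.var 1) (.var 3))))) (.uu (.q
      18 100) (.var 1))) (.sub (.neg (.uu (.q 5 1000) (.var 3))) (.mul .pi (.var 3)))) (.add (.add
      (.q (-2039) 10000) (.mul (.q 653 500) (.var 0))) (.mul (.q (-643) 500) (.var 1)))), (.sub
      (.var 3) (.mul (.q 29 100) (.sub (.q 86 100) (.sub (.var 2) (.var 0))))), (.sub (.neg (.mul
      (.q 465 1000) (.sub (.q 86 100) (.sub (.var 2) (.var 0))))) (.var 3)), (.sub (.sub (.var 2)
      (.var 0)) (.q 860 1000)), (.sub (.q 850 1000) (.sub (.var 2) (.var 0)))] 34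
      629521
      [V.of 10000 200 1800, V.of 10000 (-180) 985, V.of 10000 10050 10400, V.of 10000 0 29] = true := by
    decide +kernel
  obtain ⟨e, he, hp⟩ := chkT4 h (by norm_num) (x := w) (y := t) (z := s) (w := Y)
    (le_trans (by norm_num) a0) (le_trans b0 (by norm_num))
    (le_trans (by norm_num) a1) (le_trans b1 (by norm_num))
    (le_trans (by norm_num) a2) (le_trans b2 (by norm_num))
    (le_trans (by norm_num) a3) (le_trans b3 (by norm_num))
  simp only [List.mem_cons, List.not_mem_nil, or_false] at he
  rcases he with rfl | rfl | rfl | rfl | rfl | rfl | rfl | rfl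
  · simp only [E.val, NumIs.lkR] at hp
    push_cast at hp
    try simp only [zero_div, div_one] at hp
    linarith only [u0, hS, hW, h1, hp]
  · simp only [E.val, NumIs.lkR] at hp
    push_cast at hp
    try simp only [zero_div, div_one] at hp
    linarith only [u0, hS, h2, hp]
  · simp only [E.val, NumIs.lkR] at hp
    push_cast at hp
    try simp only [zero_div, div_one] at hp
    linarith only [u1, hS, hW, h1, hp]
  · simp only [E.val, NumIs.lkR] at hp
    push_cast at hp
    try simp only [zero_div, div_one] at hp
    linarith only [u1, hS, h2, hp]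
  · simp only [E.val, NumIs.lkR] at hp
    push_cast at hp
    try simp only [zero_div, div_one] at hp
    linarith only [r4, hp]
  · simp only [E.val, NumIs.lkR] at hp
    push_cast at hp
    try simp only [zero_div, div_one] at hp
    linarith only [a3, r2, hp]
  · simp only [E.val, NumIs.lkR] at hp
    push_cast at hp
    try simp only [zero_div, div_one] at hp
    linarith only [r2, hp]
  · simp only [E.val, NumIs.lkR] at hp
    push_cast at hp
    try simp only [zero_div, div_one] at hp
    linarith only [x0, hp]

/-- 3 boxes -/
theorem k_cgnw {w t s Y U S W : ℝ}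
    (a0 : 200 / 10000 ≤ w) (b0 : w ≤ 1800 / 10000)
    (a1 : -(180 / 10000) ≤ t) (b1 : t ≤ 985 / 10000)
    (a2 : 10050 / 10000 ≤ s) (b2 : s ≤ 10400 / 10000)
    (a3 : -(47 / 10000) ≤ Y) (b3 : Y ≤ 0)
    (r1 : w ≤ s) (r2 : s - w ≤ 86 / 100)
    (r3 : Y ≤ 907 / 1000 * (s - w)) (r4 : Y ≤ 29 / 100 * (86 / 100 - (s - w)))
    (r5 : -(62 / 100 * (s - w)) ≤ Y) (r6 : -(465 / 1000 * (86 / 100 - (s - w))) ≤ Y)
    (x0 : 850 / 1000 ≤ s - w) (x1 : s - w ≤ 860 / 1000)
    (u0 : uu (40 / 1000) (t + Y) + Real.pi * (t + Y) ≤ U) (u1 : uu (40 / 1000) (t + Y) - Real.pi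
      * (t + Y) ≤ U)
    (hS : -uu (5 / 1000) Y + Real.pi * Y ≤ S) (hW : uu w 0 ≤ W)
    (h1 : Real.pi * ((18 / 100 - w) * Y + t * (s - w - 1)) + U - uu (18 / 100) t + S + W < -(30
      / 1000) - 3927 / 1250 * t)
    (h2 : Real.pi * ((18 / 100 - w) * Y + t * (s - w - 1)) + U - uu (18 / 100) t + S < -(2039 /
      10000) + 653 / 500 * w - 643 / 500 * t) : False := by
  have h : chkT [(.sub (.add (.add (.sub (.add (.mul .pi (.add (.mul (.sub (.q 18 100) (.var 0)) (.var 3))
      (.mul (.var 1) (.sub (.sub (.var 2) (.var 0)) (.q 1 1))))) (.add (.uu (.q 40 1000) (.add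
      (.var 1) (.var 3))) (.mul .pi (.add (.var 1) (.var 3))))) (.uu (.q 18 100) (.var 1))) (.add
      (.neg (.uu (.q 5 1000) (.var 3))) (.mul .pi (.var 3)))) (.uu (.var 0) (.q 0 1))) (.add (.add
      (.q (-30) 1000) (.mul (.q 0 1) (.var 0))) (.mul (.q (-3927) 1250) (.var 1)))), (.sub (.add
      (.sub (.add (.mul .pi (.add (.mul (.sub (.q 18 100) (.var 0)) (.var 3)) (.mul (.var 1) (.sub
      (.sub (.var 2) (.var 0)) (.q 1 1))))) (.add (.uu (.q 40 1000) (.add (.var 1) (.var 3)))
      (.mul .pi (.add (.var 1) (.var 3))))) (.uu (.q 18 100) (.var 1))) (.add (.neg (.uu (.q 5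
      1000) (.var 3))) (.mul .pi (.var 3)))) (.add (.add (.q (-2039) 10000) (.mul (.q 653 500)
      (.var 0))) (.mul (.q (-643) 500) (.var 1)))), (.sub (.add (.add (.sub (.add (.mul .pi (.add
      (.mul (.sub (.q 18 100) (.var 0)) (.var 3)) (.mul (.var 1) (.sub (.sub (.var 2) (.var 0))
      (.q 1 1))))) (.sub (.uu (.q 40 1000) (.add (.var 1) (.var 3))) (.mul .pi (.add (.var 1)
      (.var 3))))) (.uu (.q 18 100) (.var 1))) (.add (.neg (.uu (.q 5 1000) (.var 3))) (.mul .pi
      (.var 3)))) (.uu (.var 0) (.q 0 1))) (.add (.add (.q (-30) 1000) (.mul (.q 0 1) (.var 0)))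
      (.mul (.q (-3927) 1250) (.var 1)))), (.sub (.add (.sub (.add (.mul .pi (.add (.mul (.sub (.q
      18 100) (.var 0)) (.var 3)) (.mul (.var 1) (.sub (.sub (.var 2) (.var 0)) (.q 1 1))))) (.sub
      (.uu (.q 40 1000) (.add (.var 1) (.var 3))) (.mul .pi (.add (.var 1) (.var 3))))) (.uu (.q
      18 100) (.var 1))) (.add (.neg (.uu (.q 5 1000) (.var 3))) (.mul .pi (.var 3)))) (.add (.add
      (.q (-2039) 10000) (.mul (.q 653 500) (.var 0))) (.mul (.q (-643) 500) (.var 1)))), (.sub
      (.var 3) (.mul (.q 29 100) (.sub (.q 86 100) (.sub (.var 2) (.var 0))))), (.sub (.neg (.mul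
      (.q 465 1000) (.sub (.q 86 100) (.sub (.var 2) (.var 0))))) (.var 3)), (.sub (.sub (.var 2)
      (.var 0)) (.q 860 1000)), (.sub (.q 850 1000) (.sub (.var 2) (.var 0)))] 34
      629521
      [V.of 10000 200 1800, V.of 10000 (-180) 985, V.of 10000 10050 10400, V.of 10000 (-47) 0] = true := by
    decide +kernel
  obtain ⟨e, he, hp⟩ := chkT4 h (by norm_num) (x := w) (y := t) (z := s) (w := Y)
    (le_trans (by norm_num) a0) (le_trans b0 (by norm_num))
    (le_trans (by norm_num) a1) (le_trans b1 (by norm_num))
    (le_trans (by norm_num) a2) (le_trans b2 (by norm_num))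
    (le_trans (by norm_num) a3) (le_trans b3 (by norm_num))
  simp only [List.mem_cons, List.not_mem_nil, or_false] at he
  rcases he with rfl | rfl | rfl | rfl | rfl | rfl | rfl | rfl
  · simp only [E.val, NumIs.lkR] at hp
    push_cast at hp
    try simp only [zero_div, div_one] at hp
    linarith only [u0, hS, hW, h1, hp]
  · simp only [E.val, NumIs.lkR] at hp
    push_cast at hp
    try simp only [zero_div, div_one] at hp
    linarith only [u0, hS, h2, hp]
  · simp only [E.val, NumIs.lkR] at hp
    push_cast at hp
    try simp only [zero_div, div_one] at hp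
    linarith only [u1, hS, hW, h1, hp]
  · simp only [E.val, NumIs.lkR] at hp
    push_cast at hp
    try simp only [zero_div, div_one] at hp
    linarith only [u1, hS, h2, hp]
  · simp only [E.val, NumIs.lkR] at hp
    push_cast at hp
    try simp only [zero_div, div_one] at hp
    linarith only [b3, r2, hp]
  · simp only [E.val, NumIs.lkR] at hp
    push_cast at hp
    try simp only [zero_div, div_one] at hp
    linarith only [r6, hp]
  · simp only [E.val, NumIs.lkR] at hp
    push_cast at hp
    try simp only [zero_div, div_one] at hp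
    linarith only [r2, hp]
  · simp only [E.val, NumIs.lkR] at hp
    push_cast at hp
    try simp only [zero_div, div_one] at hp
    linarith only [x0, hp]

/-- 3 boxes -/
theorem k_cgav {w t s Y U S W : ℝ}
    (a0 : 0 ≤ w) (b0 : w ≤ 200 / 10000)
    (a1 : -(180 / 10000) ≤ t) (b1 : t ≤ 985 / 10000)
    (a2 : 8500 / 10000 ≤ s) (b2 : s ≤ 8800 / 10000)
    (a3 : -(47 / 10000) ≤ Y) (b3 : Y ≤ 29 / 10000)
    (r1 : w ≤ s) (r2 : s - w ≤ 86 / 100)
    (r3 : Y ≤ 907 / 1000 * (s - w)) (r4 : Y ≤ 29 / 100 * (86 / 100 - (s - w)))
    (r5 : -(62 / 100 * (s - w)) ≤ Y) (r6 : -(465 / 1000 * (86 / 100 - (s - w))) ≤ Y)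
    (x0 : 850 / 1000 ≤ s - w) (x1 : s - w ≤ 860 / 1000)
    (u0 : uu (40 / 1000) (t + Y) + Real.pi * (t + Y) ≤ U) (u1 : uu (40 / 1000) (t + Y) - Real.pi
      * (t + Y) ≤ U)
    (hS : -uu s Y ≤ S) (hW : uu (2 / 100) 0 ≤ W)
    (h1 : Real.pi * ((18 / 100 - w) * Y + t * (s - w - 1)) + U - uu (18 / 100) t + S + W < -(30
      / 1000) - 3927 / 1250 * t)
    (h2 : Real.pi * ((18 / 100 - w) * Y + t * (s - w - 1)) + U - uu (18 / 100) t + S < -(2039 /
      10000) + 653 / 500 * w - 643 / 500 * t) : False := by
  have h : chkT [(.sub (.add (.add (.sub (.add (.mul .pi (.add (.mul (.sub (.q 18 100) (.var 0)) (.var 3))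
      (.mul (.var 1) (.sub (.sub (.var 2) (.var 0)) (.q 1 1))))) (.add (.uu (.q 40 1000) (.add
      (.var 1) (.var 3))) (.mul .pi (.add (.var 1) (.var 3))))) (.uu (.q 18 100) (.var 1))) (.neg
      (.uu (.var 2) (.var 3)))) (.uu (.q 2 100) (.q 0 1))) (.add (.add (.q (-30) 1000) (.mul (.q 0
      1) (.var 0))) (.mul (.q (-3927) 1250) (.var 1)))), (.sub (.add (.sub (.add (.mul .pi (.add
      (.mul (.sub (.q 18 100) (.var 0)) (.var 3)) (.mul (.var 1) (.sub (.sub (.var 2) (.var 0))
      (.q 1 1))))) (.add (.uu (.q 40 1000) (.add (.var 1) (.var 3))) (.mul .pi (.add (.var 1)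
      (.var 3))))) (.uu (.q 18 100) (.var 1))) (.neg (.uu (.var 2) (.var 3)))) (.add (.add (.q
      (-2039) 10000) (.mul (.q 653 500) (.var 0))) (.mul (.q (-643) 500) (.var 1)))), (.sub (.add
      (.add (.sub (.add (.mul .pi (.add (.mul (.sub (.q 18 100) (.var 0)) (.var 3)) (.mul (.var 1)
      (.sub (.sub (.var 2) (.var 0)) (.q 1 1))))) (.sub (.uu (.q 40 1000) (.add (.var 1) (.var
      3))) (.mul .pi (.add (.var 1) (.var 3))))) (.uu (.q 18 100) (.var 1))) (.neg (.uu (.var 2)
      (.var 3)))) (.uu (.q 2 100) (.q 0 1))) (.add (.add (.q (-30) 1000) (.mul (.q 0 1) (.var 0)))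
      (.mul (.q (-3927) 1250) (.var 1)))), (.sub (.add (.sub (.add (.mul .pi (.add (.mul (.sub (.q
      18 100) (.var 0)) (.var 3)) (.mul (.var 1) (.sub (.sub (.var 2) (.var 0)) (.q 1 1))))) (.sub
      (.uu (.q 40 1000) (.add (.var 1) (.var 3))) (.mul .pi (.add (.var 1) (.var 3))))) (.uu (.q
      18 100) (.var 1))) (.neg (.uu (.var 2) (.var 3)))) (.add (.add (.q (-2039) 10000) (.mul (.q
      653 500) (.var 0))) (.mul (.q (-643) 500) (.var 1)))), (.sub (.var 3) (.mul (.q 29 100)
      (.sub (.q 86 100) (.sub (.var 2) (.var 0))))), (.sub (.neg (.mul (.q 465 1000) (.sub (.q 86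
      100) (.sub (.var 2) (.var 0))))) (.var 3)), (.sub (.sub (.var 2) (.var 0)) (.q 860 1000)),
      (.sub (.q 850 1000) (.sub (.var 2) (.var 0)))] 34
      563985
      [V.of 10000 0 200, V.of 10000 (-180) 985, V.of 10000 8500 8800, V.of 10000 (-47) 29] = true := by
    decide +kernel
  obtain ⟨e, he, hp⟩ := chkT4 h (by norm_num) (x := w) (y := t) (z := s) (w := Y)
    (le_trans (by norm_num) a0) (le_trans b0 (by norm_num))
    (le_trans (by norm_num) a1) (le_trans b1 (by norm_num))
    (le_trans (by norm_num) a2) (le_trans b2 (by norm_num))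
    (le_trans (by norm_num) a3) (le_trans b3 (by norm_num))
  simp only [List.mem_cons, List.not_mem_nil, or_false] at he
  rcases he with rfl | rfl | rfl | rfl | rfl | rfl | rfl | rfl
  · simp only [E.val, NumIs.lkR] at hp
    push_cast at hp
    try simp only [zero_div, div_one] at hp
    linarith only [u0, hS, hW, h1, hp]
  · simp only [E.val, NumIs.lkR] at hp
    push_cast at hp
    try simp only [zero_div, div_one] at hp
    linarith only [u0, hS, h2, hp]
  · simp only [E.val, NumIs.lkR] at hp
    push_cast at hp
    try simp only [zero_div, div_one] at hp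
    linarith only [u1, hS, hW, h1, hp]
  · simp only [E.val, NumIs.lkR] at hp
    push_cast at hp
    try simp only [zero_div, div_one] at hp
    linarith only [u1, hS, h2, hp]
  · simp only [E.val, NumIs.lkR] at hp
    push_cast at hp
    try simp only [zero_div, div_one] at hp
    linarith only [r4, hp]
  · simp only [E.val, NumIs.lkR] at hp
    push_cast at hp
    try simp only [zero_div, div_one] at hp
    linarith only [r6, hp]
  · simp only [E.val, NumIs.lkR] at hp
    push_cast at hp
    try simp only [zero_div, div_one] at hp
    linarith only [r2, hp]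
  · simp only [E.val, NumIs.lkR] at hp
    push_cast at hp
    try simp only [zero_div, div_one] at hp
    linarith only [x0, hp]

end E1

end TL

end Pool.Agent.Work.MP_b30479_gtS.G2

end

section

/-!
# Tails: a region with three crossings next to a digit `1` in the tail, rows
-/

set_option deprecated.oldSectionVars true

namespace Pool.Agent.Work.MP_b30479_gtS.G2

open VOL NumUs

namespace TL

namespace K3o

section
open NumIs (V)
open NumUs NumUs.E

set_option linter.defProp false in
def p0_a_1 : rowP (p0 false false false false 2) 0 (-3790) false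
    935702540726217333690559444827443521929233849768284682375258512364771136380631944694037286085093633746353721314395540008544973258023985565831873052214853143577358052516995214299871961623666087721288154540106183439465763484910815169844085920399111650183469970873123519910764826785676597680199626262058964821645427665043284521060142435088559548859826786188157745966036778124566514969516898634613079481734811389864510251390673005930878774615995554473725374219080690944871082528771399802589205957375494649297139078645351588178685870361996745807486767257859219661140767641874389093129544989297249468742158246952496358477379157795428905689703888246511541093336808579975879367612902391684673256781726394377850729586162133766434520475544705111247287382390722793500258442454845330873114144099863421476727468804178207966697815687049661966483216262604829358395132953321811289752093769667152774599227525731282105915694031451886561329598795091984 10 350 10 350 = true := by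
  decide +kernel

set_option linter.defProp false in
def p0_a_2 : rowP (p0 false false true false 2) 0 (-3790) true
    3990872863998501285778741671402651548656305465036816 10 350 10 350 = true := by
  decide +kernel

set_option linter.defProp false in
def p0_a_3 : rowP (p0 false true false false 2) 0 (-3790) false
    194703229439566732342523113013248 10 350 0 10 = true := by
  decide +kernel

set_option linter.defProp false in
def p0_a_4 : rowP (p0 false true true true 2) 0 (-3790) true
    8 330 350 0 10 = true := by
  decide +kernel

set_option linter.defProp false in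
def p0_a_5 : rowP (p0 true false false false 2) 0 (-3790) false
    49844101322491714364929892002828561 0 10 10 350 = true := by
  decide +kernel

set_option linter.defProp false in
def p0_a_6 : rowP (p0 true false true false 2) 0 (-3790) true
    2193 0 10 10 350 = true := by
  decide +kernel

set_option linter.defProp false in
def p0_a_7 : rowP (p0 true true false false 2) 0 (-3790) false
    8 0 10 0 10 = true := by
  decide +kernel

set_option linter.defProp false in
def p0_a : R7 p0 false 2 0 (-3790) 350
    935702540726217333690559444827443521929233849768284682375258512364771136380631944694037286085093633746353721314395540008544973258023985565831873052214853143577358052516995214299871961623666087721288154540106183439465763484910815169844085920399111650183469970873123519910764826785676597680199626262058964821645427665043284521060142435088559548859826786188157745966036778124566514969516898634613079481734811389864510251390673005930878774615995554473725374219080690944871082528771399802589205957375494649297139078645351588178685870361996745807486767257859219661140767641874389093129544989297249468742158246952496358477379157795428905689703888246511541093336808579975879367612902391684673256781726394377850729586162133766434520475544705111247287382390722793500258442454845330873114144099863421476727468804178207966697815687049661966483216262604829358395132953321811289752093769667152774599227525731282105915694031451886561329598795091984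
    3990872863998501285778741671402651548656305465036816
    194703229439566732342523113013248
    8
    49844101322491714364929892002828561
    2193
    8 :=
  ⟨p0_a_1, p0_a_2, p0_a_3, p0_a_4, p0_a_5, p0_a_6, p0_a_7⟩

set_option linter.defProp false in
def p0_b_1 : rowP (p0 false false false false 3) 293 (-4990) false
    46527082578343296720720443839602960836102022571375540498982576556063731999944345517503230598509245522426328135490407078717625383391161120118787299028138960290898169760344301860346602290806341769927506103762100803093565377452815641700247515751250054468516562557432802898236912532140421155149216659287756494544400524669145872848092941493963435473147543737128721383924847814443264 10 350 10 160 = true := by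
  decide +kernel

set_option linter.defProp false in
def p0_b_2 : rowP (p0 false false true false 3) 293 (-4990) true
    13960355278183233765188662337414437120 10 350 10 160 = true := by
  decide +kernel

set_option linter.defProp false in
def p0_b_3 : rowP (p0 false true false false 3) 293 (-4990) false
    194703229439566732342523113013248 10 350 0 10 = true := by
  decide +kernel

set_option linter.defProp false in
def p0_b_4 : rowP (p0 false true true true 3) 293 (-4990) true
    8 330 350 0 10 = true := by
  decide +kernel

set_option linter.defProp false in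
def p0_b_5 : rowP (p0 true false false false 3) 293 (-4990) false
    559121 0 10 10 160 = true := by
  decide +kernel

set_option linter.defProp false in
def p0_b_6 : rowP (p0 true false true false 3) 293 (-4990) true
    9 0 10 10 160 = true := by
  decide +kernel

set_option linter.defProp false in
def p0_b_7 : rowP (p0 true true false false 3) 293 (-4990) false
    8 0 10 0 10 = true := by
  decide +kernel

set_option linter.defProp false in
def p0_b : R7 p0 false 3 293 (-4990) 160
    46527082578343296720720443839602960836102022571375540498982576556063731999944345517503230598509245522426328135490407078717625383391161120118787299028138960290898169760344301860346602290806341769927506103762100803093565377452815641700247515751250054468516562557432802898236912532140421155149216659287756494544400524669145872848092941493963435473147543737128721383924847814443264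
    13960355278183233765188662337414437120
    194703229439566732342523113013248
    8
    559121
    9
    8 :=
  ⟨p0_b_1, p0_b_2, p0_b_3, p0_b_4, p0_b_5, p0_b_6, p0_b_7⟩

end

end K3o

end TL

end Pool.Agent.Work.MP_b30479_gtS.G2

end

section

/-!
# Tails: a region with three crossings next to a digit `1` in the tail, rows
-/

set_option deprecated.oldSectionVars true

namespace Pool.Agent.Work.MP_b30479_gtS.G2

open VOL NumUs

namespace TL

namespace K3o

section
open NumIs (V)
open NumUs NumUs.E

set_option linter.defProp false in
def p0_c_1 : rowP (p0 false false false false 3) (-719) (-6600) false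
    217860224825846341832205523929429129215244634488663795025846574540429547517707558510368058012121737409931076996586178431414294349500906086953327304733650093799773150244028124562434843188073972175197711805837737265849896586712173924279419221076907508583615992887207195141996449508163285832898604278932084520730522383247335562716112212555247798192041416171031133592514495000990306310170214606695049713851643640518938784759473530289298856948402657550242604323903466185214772362364222320483347139689802521714559687418217384453578493478731608776687521777926351046371720001554255646950690596620990255177794356534886440929812284788844111546855168955697248900276121121783935518426297075198445643934942246880765682158540248370369074953127743751472509674176438189901546461703132338898072311053854920182186968233939635617635535134716257832431726994350748963492277199424507459352616344581517267819265788284849557796602165487035290226704 10 350 10 350 = true := by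
  decide +kernel

set_option linter.defProp false in
def p0_c_2 : rowP (p0 false false true false 3) (-719) (-6600) true
    15589347124994145647538248045903674406962547757072 10 350 10 350 = true := by
  decide +kernel

set_option linter.defProp false in
def p0_c_3 : rowP (p0 false true false false 3) (-719) (-6600) false
    194703229439566732342523113013248 10 350 0 10 = true := by
  decide +kernel

set_option linter.defProp false in
def p0_c_4 : rowP (p0 false true true true 3) (-719) (-6600) true
    8 330 350 0 10 = true := by
  decide +kernel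

set_option linter.defProp false in
def p0_c_5 : rowP (p0 true false false false 3) (-719) (-6600) false
    12760089938557878877422052350852862225 0 10 10 350 = true := by
  decide +kernel

set_option linter.defProp false in
def p0_c_6 : rowP (p0 true false true false 3) (-719) (-6600) true
    2193 0 10 10 350 = true := by
  decide +kernel

set_option linter.defProp false in
def p0_c_7 : rowP (p0 true true false false 3) (-719) (-6600) false
    8 0 10 0 10 = true := by
  decide +kernel

set_option linter.defProp false in
def p0_c : R7 p0 false 3 (-719) (-6600) 350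
    217860224825846341832205523929429129215244634488663795025846574540429547517707558510368058012121737409931076996586178431414294349500906086953327304733650093799773150244028124562434843188073972175197711805837737265849896586712173924279419221076907508583615992887207195141996449508163285832898604278932084520730522383247335562716112212555247798192041416171031133592514495000990306310170214606695049713851643640518938784759473530289298856948402657550242604323903466185214772362364222320483347139689802521714559687418217384453578493478731608776687521777926351046371720001554255646950690596620990255177794356534886440929812284788844111546855168955697248900276121121783935518426297075198445643934942246880765682158540248370369074953127743751472509674176438189901546461703132338898072311053854920182186968233939635617635535134716257832431726994350748963492277199424507459352616344581517267819265788284849557796602165487035290226704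
    15589347124994145647538248045903674406962547757072
    194703229439566732342523113013248
    8
    12760089938557878877422052350852862225
    2193
    8 :=
  ⟨p0_c_1, p0_c_2, p0_c_3, p0_c_4, p0_c_5, p0_c_6, p0_c_7⟩

set_option linter.defProp false in
def p0_e_1 : rowP (p0 false false false false 3) 0 (-5400) false
    55772217555416663509044614125933857079102626429097931526616723082349964164533134978654222851103164776942355711126061678442059353472231958260051790011814424012741926462471199887983319856146936876850614222294460740057573526198316524615531320595688322197405694179125041956351091074089801173222042695406613637307013730111317904058703329270396205714930700432548388598325060494218117662083185792101454501026808715144304473658805284953019734443362373855822385568373390786713615232307121378030813151532676092834479046608938570907241286899600879952138953987524651811461795955435760022762076371926690212454368308410411435121936506522711454855698308400142840758559123139434447411269401934305897343734592108525646466835194762223142903974886573202950762365113372900635010216457715277674632648172626690002652806923699693179016400897996209054333314996170505944065363023878742374718956327917492641105773968983163950539037372477305129068924944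 10 350 10 350 = true := by
  decide +kernel

set_option linter.defProp false in
def p0_e_2 : rowP (p0 false false true false 3) 0 (-5400) true
    3990872863998501285778741671402651548656305465036816 10 350 10 350 = true := by
  decide +kernel

set_option linter.defProp false in
def p0_e_3 : rowP (p0 false true false false 3) 0 (-5400) false
    194703229439566732342523113013248 10 350 0 10 = true := by
  decide +kernel

set_option linter.defProp false in
def p0_e_4 : rowP (p0 false true true true 3) 0 (-5400) true
    8 330 350 0 10 = true := by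
  decide +kernel

set_option linter.defProp false in
def p0_e_5 : rowP (p0 true false false false 3) 0 (-5400) false
    49844101322491714364929892002828561 0 10 10 350 = true := by
  decide +kernel

set_option linter.defProp false in
def p0_e_6 : rowP (p0 true false true false 3) 0 (-5400) true
    2193 0 10 10 350 = true := by
  decide +kernel

set_option linter.defProp false in
def p0_e_7 : rowP (p0 true true false false 3) 0 (-5400) false
    8 0 10 0 10 = true := by
  decide +kernel

set_option linter.defProp false in
def p0_e : R7 p0 false 3 0 (-5400) 350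
    55772217555416663509044614125933857079102626429097931526616723082349964164533134978654222851103164776942355711126061678442059353472231958260051790011814424012741926462471199887983319856146936876850614222294460740057573526198316524615531320595688322197405694179125041956351091074089801173222042695406613637307013730111317904058703329270396205714930700432548388598325060494218117662083185792101454501026808715144304473658805284953019734443362373855822385568373390786713615232307121378030813151532676092834479046608938570907241286899600879952138953987524651811461795955435760022762076371926690212454368308410411435121936506522711454855698308400142840758559123139434447411269401934305897343734592108525646466835194762223142903974886573202950762365113372900635010216457715277674632648172626690002652806923699693179016400897996209054333314996170505944065363023878742374718956327917492641105773968983163950539037372477305129068924944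
    3990872863998501285778741671402651548656305465036816
    194703229439566732342523113013248
    8
    49844101322491714364929892002828561
    2193
    8 :=
  ⟨p0_e_1, p0_e_2, p0_e_3, p0_e_4, p0_e_5, p0_e_6, p0_e_7⟩

end

end K3o

end TL

end Pool.Agent.Work.MP_b30479_gtS.G2

end

section

/-!
# Tails: a region with three crossings next to a digit `1` in the tail, rows
-/

set_option deprecated.oldSectionVars true

namespace Pool.Agent.Work.MP_b30479_gtS.G2

open VOL NumUs

namespace TL

namespace K3o

section
open NumIs (V)
open NumUs NumUs.E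

set_option linter.defProp false in
def p2_a_1 : rowP (p2 false false false false 1) 0 (-4196) false
    6457981592139819213709523613469278431460175294661046286942357754602514811145494181874561427922407269895132638080238791991861919350239368127908608843585731162927909080556065930794602506236632013147970440016204066838920782294281965987094210646362178421223785943050158185132644509161912010387041605070038505078371138584485931853198290731120947735795006185138430795941625274719272774827889059248186775333779885899666355242314243035027766884908756110920808726232055741216946960020697873959018996450327663439500994896225110099916759575984650065638083484481235308048739421908309705866373048280825037413264834233707370665814537792125907023419015843266910253780109517249843850473916496112218969027135019865172302657442456678373703197028123824878676898389405605165947635584133833605541400613694502601318529457034694621707526921358490705275029688882613098052224116750237977888478419447773927039747036191187601179831796933971379840898904950923153587799993591796448231788966725027634699042317177273226602012640022544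 10 350 10 350 = true := by
  decide +kernel

set_option linter.defProp false in
def p2_a_2 : rowP (p2 false false true false 1) 0 (-4196) true
    2640936251590173760938938384 10 350 10 350 = true := by
  decide +kernel

set_option linter.defProp false in
def p2_a_3 : rowP (p2 false true false false 1) 0 (-4196) false
    49844026736529083479685916931915776 10 350 0 10 = true := by
  decide +kernel

set_option linter.defProp false in
def p2_a_4 : rowP (p2 false true true false 1) 0 (-4196) true
    8 330 350 0 10 = true := by
  decide +kernel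

set_option linter.defProp false in
def p2_a_5 : rowP (p2 true false false false 1) 0 (-4196) false
    49844101322491714364929892002828561 0 10 10 350 = true := by
  decide +kernel

set_option linter.defProp false in
def p2_a_6 : rowP (p2 true false true false 1) 0 (-4196) true
    2193 0 10 10 350 = true := by
  decide +kernel

set_option linter.defProp false in
def p2_a_7 : rowP (p2 true true false true 1) 0 (-4196) false
    8 0 10 0 10 = true := by
  decide +kernel

set_option linter.defProp false in
def p2_a : R7 p2 true 1 0 (-4196) 350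
    6457981592139819213709523613469278431460175294661046286942357754602514811145494181874561427922407269895132638080238791991861919350239368127908608843585731162927909080556065930794602506236632013147970440016204066838920782294281965987094210646362178421223785943050158185132644509161912010387041605070038505078371138584485931853198290731120947735795006185138430795941625274719272774827889059248186775333779885899666355242314243035027766884908756110920808726232055741216946960020697873959018996450327663439500994896225110099916759575984650065638083484481235308048739421908309705866373048280825037413264834233707370665814537792125907023419015843266910253780109517249843850473916496112218969027135019865172302657442456678373703197028123824878676898389405605165947635584133833605541400613694502601318529457034694621707526921358490705275029688882613098052224116750237977888478419447773927039747036191187601179831796933971379840898904950923153587799993591796448231788966725027634699042317177273226602012640022544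
    2640936251590173760938938384
    49844026736529083479685916931915776
    8
    49844101322491714364929892002828561
    2193
    8 :=
  ⟨p2_a_1, p2_a_2, p2_a_3, p2_a_4, p2_a_5, p2_a_6, p2_a_7⟩

set_option linter.defProp false in
def p2_b_1 : rowP (p2 false false false false 2) 293 (-5410) false
    61845100725330536357421153309877862790629024946624349060396639330011018193623964740447662175314280185084244987489984386415827746150130898391151643503802748962552141360965423404350211345326468276243085683624455254393809822859806024018476707852099038003956902227776463142230893804628195337095979505807843619870294488702964637523890033714884626380093012350732082908541874355677054200815691272025922548583536459317504 10 350 10 160 = true := by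
  decide +kernel

set_option linter.defProp false in
def p2_b_2 : rowP (p2 false false true false 2) 293 (-5410) true
    9380502771968 10 350 10 160 = true := by
  decide +kernel

set_option linter.defProp false in
def p2_b_3 : rowP (p2 false true false false 2) 293 (-5410) false
    49844026736529083479685916931915776 10 350 0 10 = true := by
  decide +kernel

set_option linter.defProp false in
def p2_b_4 : rowP (p2 false true true false 2) 293 (-5410) true
    8 330 350 0 10 = true := by
  decide +kernel

set_option linter.defProp false in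
def p2_b_5 : rowP (p2 true false false false 2) 293 (-5410) false
    143163665 0 10 10 160 = true := by
  decide +kernel

set_option linter.defProp false in
def p2_b_6 : rowP (p2 true false true false 2) 293 (-5410) true
    9 0 10 10 160 = true := by
  decide +kernel

set_option linter.defProp false in
def p2_b_7 : rowP (p2 true true false true 2) 293 (-5410) false
    8 0 10 0 10 = true := by
  decide +kernel

set_option linter.defProp false in
def p2_b : R7 p2 true 2 293 (-5410) 160
    61845100725330536357421153309877862790629024946624349060396639330011018193623964740447662175314280185084244987489984386415827746150130898391151643503802748962552141360965423404350211345326468276243085683624455254393809822859806024018476707852099038003956902227776463142230893804628195337095979505807843619870294488702964637523890033714884626380093012350732082908541874355677054200815691272025922548583536459317504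
    9380502771968
    49844026736529083479685916931915776
    8
    143163665
    9
    8 :=
  ⟨p2_b_1, p2_b_2, p2_b_3, p2_b_4, p2_b_5, p2_b_6, p2_b_7⟩

end

end K3o

end TL

end Pool.Agent.Work.MP_b30479_gtS.G2

end

section

/-!
# Tails: a region with three crossings next to a digit `1` in the tail, rows
-/

set_option deprecated.oldSectionVars true

namespace Pool.Agent.Work.MP_b30479_gtS.G2

open VOL NumUs

namespace TL

namespace K3o

section
open NumIs (V)
open NumUs NumUs.E

set_option linter.defProp false in
def n2_one_1 : rowN true 180 3927 1250 5441 (-450) 700 (-900) (-180) (-940) (-210)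
    11340149415438172196481363914138914850 = true := by
  decide +kernel

set_option linter.defProp false in
def n2_one_2 : rowN true 180 163 100 6812 (-450) 700 (-900) (-180) (-1145) (-210)
    48705048186874751379181585941730191015034233345 = true := by
  decide +kernel

set_option linter.defProp false in
def n2_one_3 : rowN true 180 429 250 6692 (-450) 700 (-900) (-180) (-1145) (-210)
    40186817582611833553409 = true := by
  decide +kernel

set_option linter.defProp false in
def n2_two : rowN true 250 1571 1000 6625 (-1050) 140 (-1140) (-150) (-570) 50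
    2177 = true := by
  decide +kernel

set_option linter.defProp false in
def n2_twoE : rowN true 220 2262 1000 5410 (-480) 150 (-1230) (-800) (-980) (-760)
    8 = true := by
  decide +kernel

set_option linter.defProp false in
def n2_thrK : rowN true 180 353 250 6843 (-1050) 140 (-1140) (-150) (-220) 220
    142706704 = true := by
  decide +kernel

set_option linter.defProp false in
def n2_threeE : rowN true 220 1215 1000 5610 (-1050) 140 (-1140) (-150) (-280) (-50)
    8 = true := by
  decide +kernel

set_option linter.defProp false in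
def n2_ring_1 : rowN true 180 839 500 6871 (-1050) 140 (-1140) (-150) (-40) 570
    36643045634 = true := by
  decide +kernel

set_option linter.defProp false in
def n2_ring_2 : rowN true 180 1397 1000 6688 (-1050) 140 (-1140) (-150) (-40) 570
    2177 = true := by
  decide +kernel

set_option linter.defProp false in
def n2_t : rowN true 200 59 25 5351 (-1050) 700 (-1230) (-150) (-1145) 570
    2178 = true := by
  decide +kernel

end

end K3o

end TL

end Pool.Agent.Work.MP_b30479_gtS.G2

end
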