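import Pool.Agent.Work.MP_b30479_gt.TBS.G2.TE1Cs2
import Pool.Agent.Work.MP_b30479_gt.TBS.G2.TK3oneB1
import Pool.Agent.Work.MP_b30479_gt.TBS.G2.TE1T
import Pool.Agent.Work.MP_b30479_gt.TBS.NumI.LnSin

section

/-!
# Tails, rows `E1`, `E2`: certificates (class two, `w ≤ 18/100`)

Variables: `w`, `t`, `s = w + X`, `Y`.  `U`, `S`, `W` stand for `uu (18/100 + X) (t + Y)`, `-uu s Y`,
`uu w 0`.
-/

end

section

/-!
# Tails: the change of the value of an untouched region of class one, `E2a`
-/

namespace Pool.Agent.Work.MP_b30479_gtS.G2

open VOL NumUs

namespace TL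

open E1

/-- margin .030 -/
theorem E2a {w τ X Y : ℝ} (h0 : 0 ≤ w) (h1 : w ≤ 9 / 50) (h2 : -(9 / 500) ≤ τ)
    (h3 : τ ≤ 197 / 2000) (hG : RgB X Y) :
    -(3 / 100) - 3927 / 1250 * τ ≤
      V1 ⟨9 / 50, τ⟩ ⟨X, Y⟩ - V1 ⟨w, 0⟩ ⟨X, Y⟩ ∨
    UU ⟨w, 0⟩ - 2039 / 10000 + 653 / 500 * w - 643 / 500 * τ ≤
      V1 ⟨9 / 50, τ⟩ ⟨X, Y⟩ - V1 ⟨w, 0⟩ ⟨X, Y⟩ := by
  obtain ⟨g0, g1, g2, g3, g4, g5, g6, g7⟩ := hG
  by_contra hcon
  obtain ⟨c1, c2⟩ := not_or.1 hcon
  rw [not_le, V1_diff] at c1 c2
  rw [UU_uu] at c2
  simp only at c1 c2
  have hY : 5 / 10 ≤ X → |Y| ≤ 13 / 100 := fun h => abs_le.2 ⟨by linarith only [g6], by linarith only [g4, h]⟩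
  rcases le_total (w + X) (16 / 100) with h16 | h16
  · exact k_cxlo (S := -uu (w + X) Y) (U := uu (18 / 100 + (w + X - w)) (τ + Y)) (w := w) (s := w + X)
      (t := τ) (Y := Y) (W := uu w 0) h0 (by linarith only [g0, h16]) (le_trans (by norm_num) h2) (le_trans h3 (by norm_num))
      (by linarith only [h0, g0]) (le_trans h16 (by norm_num)) (le_trans (by norm_num) g6) (le_trans g3 (by norm_num)) (by linarith only [g0]) (by linarith only [g1])
      (by linarith only [g2]) (by linarith only [g4]) (by linarith only [g5]) (by linarith only [g7]) le_rfl le_rfl (W_lo h0 (by linarith only [g0])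
      h16) (by linarith only [c1]) (by linarith only [c2])
  rcases le_total X (790 / 1000) with hx1 | hx1
  · skip
    rcases le_total w (2 / 100) with hw | hw
    · have hW := W_v h0 hw
      exact k_cxav (S := -uu (w + X) Y) (U := uu (18 / 100 + (w + X - w)) (τ + Y)) (w := w) (s := w + X)
        (t := τ) (Y := Y) (W := uu w 0) h0 (le_trans hw (by norm_num)) (le_trans (by norm_num) h2) (le_trans h3 (by norm_num))
        (le_trans (by norm_num) h16) (by linarith only [hx1, hw]) (le_trans (by norm_num) g6) (le_trans g3 (by norm_num)) (by linarith only [h16, hw]) (by linarith only [g1])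
        (by linarith only [g2]) (by linarith only [g4]) (by linarith only [g5]) (by linarith only [g7]) (by linarith only [hx1]) le_rfl le_rfl hW
        (by linarith only [c1]) (by linarith only [c2])
    exact k_cxaw (S := -uu (w + X) Y) (U := uu (18 / 100 + (w + X - w)) (τ + Y)) (w := w) (s := w + X)
      (t := τ) (Y := Y) (W := uu w 0) (le_trans (by norm_num) hw) (le_trans h1 (by norm_num)) (le_trans (by norm_num) h2) (le_trans h3 (by norm_num))
      (le_trans (by norm_num) h16) (by linarith only [h1, hx1]) (le_trans (by norm_num) g6) (le_trans g3 (by norm_num)) (by linarith only [g0]) (by linarith only [g1])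
      (by linarith only [g2]) (by linarith only [g4]) (by linarith only [g5]) (by linarith only [g7]) (by linarith only [hx1]) le_rfl le_rfl le_rfl
      (by linarith only [c1]) (by linarith only [c2])
  rcases le_total X (815 / 1000) with hx2 | hx2
  · have hU : uu (995 / 1000) (τ + Y) ≤ uu (18 / 100 + (w + X - w)) (τ + Y) :=
      U_b (by linarith only [hx1]) (by linarith only [hx2]) (abs_le.2 ⟨by linarith only [h2, g6], by linarith only [h3, g4, hx1]⟩)
    rcases le_total w (2 / 100) with hw | hw
    · have hW := W_v h0 hw
      exact k_cbav (S := -uu (w + X) Y) (U := uu (18 / 100 + (w + X - w)) (τ + Y)) (w := w) (s := w + X)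
        (t := τ) (Y := Y) (W := uu w 0) h0 (le_trans hw (by norm_num)) (le_trans (by norm_num) h2) (le_trans h3 (by norm_num))
        (by linarith only [h0, hx1]) (by linarith only [hx2, hw]) (by linarith only [g7, hx1]) (by linarith only [g4, hx1]) (by linarith only [hx1]) (by linarith only [g1])
        (by linarith only [g4, hx1]) (by linarith only [g4]) (by linarith only [g5]) (by linarith only [g7]) (by linarith only [hx1]) (by linarith only [hx2]) hU
        le_rfl hW (by linarith only [c1]) (by linarith only [c2])
    rcases le_or_gt (w + X) (985 / 1000) with hs0 | hs0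
    · exact k_cbaw (S := -uu (w + X) Y) (U := uu (18 / 100 + (w + X - w)) (τ + Y)) (w := w) (s := w + X)
        (t := τ) (Y := Y) (W := uu w 0) (le_trans (by norm_num) hw) (le_trans h1 (by norm_num)) (le_trans (by norm_num) h2) (le_trans h3 (by norm_num))
        (by linarith only [hx1, hw]) (le_trans hs0 (by norm_num)) (by linarith only [g7, hx1]) (by linarith only [g4, hx1]) (by linarith only [hx1]) (by linarith only [g1])
        (by linarith only [g4, hx1]) (by linarith only [g4]) (by linarith only [g5]) (by linarith only [g7]) (by linarith only [hx1]) (by linarith only [hx2]) hU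
        le_rfl le_rfl (by linarith only [c1]) (by linarith only [c2])
    · skip
      exact k_cbbw (S := -uu (w + X) Y) (U := uu (18 / 100 + (w + X - w)) (τ + Y)) (w := w) (s := w + X)
        (t := τ) (Y := Y) (W := uu w 0) (le_trans (by norm_num) hw) (le_trans h1 (by norm_num)) (le_trans (by norm_num) h2) (le_trans h3 (by norm_num))
        (le_trans (by norm_num) hs0.le) (by linarith only [h1, hx2]) (by linarith only [h1, g7, hs0]) (by linarith only [h1, g4, hs0]) (by linarith only [h1, hs0]) (by linarith only [hx2])
        (by linarith only [h1, g4, hs0]) (by linarith only [g4]) (by linarith only [g5]) (by linarith only [g7]) (by linarith only [h1, hs0]) (by linarith only [hx2]) hU (S_b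
        (d := 15 / 1000) (by norm_num) (le_trans (by norm_num) hs0.le) (by linarith only [h1, hx2]) (hY (le_trans (by norm_num) hx1))) le_rfl (by linarith only [c1])
        (by linarith only [c2])
  rcases le_total X (825 / 1000) with hxd | hxd
  · obtain ⟨hU, hU'⟩ := U_d (x := 18 / 100 + (w + X - w)) (t := τ + Y) (d := 5 / 1000)
      (by linarith only [hx2]) (by linarith only [hxd]) (by norm_num) (abs_le.2 ⟨by linarith only [h2, g6], by linarith only [h3, g4, hx2]⟩)
    rcases le_total w (2 / 100) with hw | hw
    · have hW := W_v h0 hw
      exact k_cdav (S := -uu (w + X) Y) (U := uu (18 / 100 + (w + X - w)) (τ + Y)) (w := w) (s := w + X)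
        (t := τ) (Y := Y) (W := uu w 0) h0 (le_trans hw (by norm_num)) (le_trans (by norm_num) h2) (le_trans h3 (by norm_num))
        (by linarith only [h0, hx2]) (by linarith only [hxd, hw]) (by linarith only [g7, hx2]) (by linarith only [g4, hx2]) (by linarith only [hx2]) (by linarith only [g1])
        (by linarith only [g4, hx2]) (by linarith only [g4]) (by linarith only [g5]) (by linarith only [g7]) (by linarith only [hx2]) (by linarith only [hxd]) hU hU'
        le_rfl hW (by linarith only [c1]) (by linarith only [c2])
    rcases le_or_gt (w + X) (985 / 1000) with hs0 | hs0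
    · exact k_cdaw (S := -uu (w + X) Y) (U := uu (18 / 100 + (w + X - w)) (τ + Y)) (w := w) (s := w + X)
        (t := τ) (Y := Y) (W := uu w 0) (le_trans (by norm_num) hw) (le_trans h1 (by norm_num)) (le_trans (by norm_num) h2) (le_trans h3 (by norm_num))
        (by linarith only [hx2, hw]) (le_trans hs0 (by norm_num)) (by linarith only [g7, hx2]) (by linarith only [g4, hx2]) (by linarith only [hx2]) (by linarith only [g1])
        (by linarith only [g4, hx2]) (by linarith only [g4]) (by linarith only [g5]) (by linarith only [g7]) (by linarith only [hx2]) (by linarith only [hxd]) hU hU'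
        le_rfl le_rfl (by linarith only [c1]) (by linarith only [c2])
    · skip
      rcases le_or_gt (w + X) (995 / 1000) with hs1 | hs1
      · exact k_cdbw (S := -uu (w + X) Y) (U := uu (18 / 100 + (w + X - w)) (τ + Y)) (w := w) (s := w +
          X) (t := τ) (Y := Y) (W := uu w 0) (le_trans (by norm_num) hw) (le_trans h1 (by norm_num)) (le_trans (by norm_num) h2) (le_trans h3 (by norm_num))
          (le_trans (by norm_num) hs0.le) (le_trans hs1 (by norm_num)) (by linarith only [g7, hx2]) (by linarith only [g4, hx2]) (by linarith only [h1, hs0]) (by linarith only [hxd])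
          (by linarith only [h1, g4, hs0]) (by linarith only [g4]) (by linarith only [g5]) (by linarith only [g7]) (by linarith only [hx2]) (by linarith only [hxd]) hU hU'
          (S_b (d := 15 / 1000) (by norm_num) (le_trans (by norm_num) hs0.le) (le_trans hs1 (by norm_num)) (hY (le_trans (by norm_num) hx2))) le_rfl (by linarith only [c1])
          (by linarith only [c2])
      · skip
        exact k_cdcw (S := -uu (w + X) Y) (U := uu (18 / 100 + (w + X - w)) (τ + Y)) (w := w) (s := w +
          X) (t := τ) (Y := Y) (W := uu w 0) (le_trans (by norm_num) hw) (le_trans h1 (by norm_num)) (le_trans (by norm_num) h2) (le_trans h3 (by norm_num))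
          (le_trans (by norm_num) hs1.le) (by linarith only [h1, hxd]) (by linarith only [h1, g7, hs1]) (by linarith only [h1, g4, hs1]) (by linarith only [h1, hs1]) (by linarith only [hxd])
          (by linarith only [h1, g4, hs1]) (by linarith only [g4]) (by linarith only [g5]) (by linarith only [g7]) (by linarith only [h1, hs1]) (by linarith only [hxd]) hU hU'
          (S_b (d := 5 / 1000) (by norm_num) (le_trans (by norm_num) hs1.le) (by linarith only [h1, hxd]) (hY (le_trans (by norm_num) hx2))) le_rfl (by linarith only [c1])
          (by linarith only [c2])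
  rcases le_total X (835 / 1000) with hxe | hxe
  · obtain ⟨hU, hU'⟩ := U_d (x := 18 / 100 + (w + X - w)) (t := τ + Y) (d := 15 / 1000)
      (by linarith only [hxd]) (by linarith only [hxe]) (by norm_num) (abs_le.2 ⟨by linarith only [h2, g6], by linarith only [h3, g4, hxd]⟩)
    rcases le_total w (2 / 100) with hw | hw
    · have hW := W_v h0 hw
      exact k_ceav (S := -uu (w + X) Y) (U := uu (18 / 100 + (w + X - w)) (τ + Y)) (w := w) (s := w + X)
        (t := τ) (Y := Y) (W := uu w 0) h0 (le_trans hw (by norm_num)) (le_trans (by norm_num) h2) (le_trans h3 (by norm_num))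
        (by linarith only [h0, hxd]) (by linarith only [hxe, hw]) (by linarith only [g7, hxd]) (by linarith only [g4, hxd]) (by linarith only [hxd]) (by linarith only [g1])
        (by linarith only [g4, hxd]) (by linarith only [g4]) (by linarith only [g5]) (by linarith only [g7]) (by linarith only [hxd]) (by linarith only [hxe]) hU hU'
        le_rfl hW (by linarith only [c1]) (by linarith only [c2])
    rcases le_or_gt (w + X) (985 / 1000) with hs0 | hs0
    · exact k_ceaw (S := -uu (w + X) Y) (U := uu (18 / 100 + (w + X - w)) (τ + Y)) (w := w) (s := w + X)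
        (t := τ) (Y := Y) (W := uu w 0) (le_trans (by norm_num) hw) (le_trans h1 (by norm_num)) (le_trans (by norm_num) h2) (le_trans h3 (by norm_num))
        (by linarith only [hxd, hw]) (le_trans hs0 (by norm_num)) (by linarith only [g7, hxd]) (by linarith only [g4, hxd]) (by linarith only [hxd]) (by linarith only [g1])
        (by linarith only [g4, hxd]) (by linarith only [g4]) (by linarith only [g5]) (by linarith only [g7]) (by linarith only [hxd]) (by linarith only [hxe]) hU hU'
        le_rfl le_rfl (by linarith only [c1]) (by linarith only [c2])
    · skip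
      rcases le_or_gt (w + X) (995 / 1000) with hs1 | hs1
      · exact k_cebw (S := -uu (w + X) Y) (U := uu (18 / 100 + (w + X - w)) (τ + Y)) (w := w) (s := w +
          X) (t := τ) (Y := Y) (W := uu w 0) (le_trans (by norm_num) hw) (le_trans h1 (by norm_num)) (le_trans (by norm_num) h2) (le_trans h3 (by norm_num))
          (le_trans (by norm_num) hs0.le) (le_trans hs1 (by norm_num)) (by linarith only [g7, hxd]) (by linarith only [g4, hxd]) (by linarith only [h1, hs0]) (by linarith only [hxe])
          (by linarith only [h1, g4, hs0]) (by linarith only [g4]) (by linarith only [g5]) (by linarith only [g7]) (by linarith only [hxd]) (by linarith only [hxe]) hU hU'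
          (S_b (d := 15 / 1000) (by norm_num) (le_trans (by norm_num) hs0.le) (le_trans hs1 (by norm_num)) (hY (le_trans (by norm_num) hxd))) le_rfl (by linarith only [c1])
          (by linarith only [c2])
      · skip
        rcases le_or_gt (w + X) (1005 / 1000) with hs2 | hs2
        · exact k_cecw (S := -uu (w + X) Y) (U := uu (18 / 100 + (w + X - w)) (τ + Y)) (w := w) (s := w
            + X) (t := τ) (Y := Y) (W := uu w 0) (le_trans (by norm_num) hw) (le_trans h1 (by norm_num)) (le_trans (by norm_num) h2)
            (le_trans h3 (by norm_num)) (le_trans (by norm_num) hs1.le) (le_trans hs2 (by norm_num)) (by linarith only [g7, hxd]) (by linarith only [g4, hxd]) (by linarith only [h1, hs1])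
            (by linarith only [hxe]) (by linarith only [h1, g4, hs1]) (by linarith only [g4]) (by linarith only [g5]) (by linarith only [g7]) (by linarith only [hxd])
            (by linarith only [hxe]) hU hU' (S_b (d := 5 / 1000) (by norm_num) (le_trans (by norm_num) hs1.le) (le_trans hs2 (by norm_num)) (hY (le_trans (by norm_num) hxd)))
            le_rfl (by linarith only [c1]) (by linarith only [c2])
        · skip
          have hS := S_p (s := w + X) (Y := Y) hs2.le (by linarith only [h1, hxe]) (abs_le.2 ⟨by linarith only [g6], by linarith only [h1, g4, hs2]⟩)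
            (abs_le.2 ⟨by linarith only [h1, g6, hxe], by linarith only [h1, g1, g4]⟩)
          rcases le_total 0 Y with hy | hy
          · rw [abs_of_nonneg hy] at hS
            exact k_cepw (S := -uu (w + X) Y) (U := uu (18 / 100 + (w + X - w)) (τ + Y)) (w := w) (s :=
              w + X) (t := τ) (Y := Y) (W := uu w 0) (le_trans (by norm_num) hw) (le_trans h1 (by norm_num)) (le_trans (by norm_num) h2)
              (le_trans h3 (by norm_num)) (le_trans (by norm_num) hs2.le) (by linarith only [h1, hxe]) hy (by linarith only [h1, g4, hs2]) (by linarith only [h1, hs2])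
              (by linarith only [hxe]) (by linarith only [h1, g4, hs2]) (by linarith only [g4]) (by linarith only [g5]) (by linarith only [g7]) (by linarith only [h1, hs2])
              (by linarith only [hxe]) hU hU' hS le_rfl (by linarith only [c1]) (by linarith only [c2])
          · rw [abs_of_nonpos hy] at hS
            exact k_cenw (S := -uu (w + X) Y) (U := uu (18 / 100 + (w + X - w)) (τ + Y)) (w := w) (s :=
              w + X) (t := τ) (Y := Y) (W := uu w 0) (le_trans (by norm_num) hw) (le_trans h1 (by norm_num)) (le_trans (by norm_num) h2)
              (le_trans h3 (by norm_num)) (le_trans (by norm_num) hs2.le) (by linarith only [h1, hxe]) (by linarith only [h1, g7, hs2]) hy (by linarith only [h1, hs2])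
              (by linarith only [hxe]) (by linarith only [h1, hs2, hy]) (by linarith only [hxe, hy]) (by linarith only [g5]) (by linarith only [g7]) (by linarith only [h1, hs2])
              (by linarith only [hxe]) hU hU' (by linarith only [hS]) le_rfl (by linarith only [c1]) (by linarith only [c2])
  rcases le_total X (850 / 1000) with hxf | hxf
  · obtain ⟨hU, hU'⟩ := U_d (x := 18 / 100 + (w + X - w)) (t := τ + Y) (d := 30 / 1000)
      (by linarith only [hxe]) (by linarith only [hxf]) (by norm_num) (abs_le.2 ⟨by linarith only [h2, g6], by linarith only [h3, g4, hxe]⟩)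
    rcases le_total w (2 / 100) with hw | hw
    · have hW := W_v h0 hw
      exact k_cfav (S := -uu (w + X) Y) (U := uu (18 / 100 + (w + X - w)) (τ + Y)) (w := w) (s := w + X)
        (t := τ) (Y := Y) (W := uu w 0) h0 (le_trans hw (by norm_num)) (le_trans (by norm_num) h2) (le_trans h3 (by norm_num))
        (by linarith only [h0, hxe]) (by linarith only [hxf, hw]) (by linarith only [g7, hxe]) (by linarith only [g4, hxe]) (by linarith only [hxe]) (by linarith only [g1])
        (by linarith only [g4, hxe]) (by linarith only [g4]) (by linarith only [g5]) (by linarith only [g7]) (by linarith only [hxe]) (by linarith only [hxf]) hU hU'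
        le_rfl hW (by linarith only [c1]) (by linarith only [c2])
    rcases le_or_gt (w + X) (985 / 1000) with hs0 | hs0
    · exact k_cfaw (S := -uu (w + X) Y) (U := uu (18 / 100 + (w + X - w)) (τ + Y)) (w := w) (s := w + X)
        (t := τ) (Y := Y) (W := uu w 0) (le_trans (by norm_num) hw) (le_trans h1 (by norm_num)) (le_trans (by norm_num) h2) (le_trans h3 (by norm_num))
        (by linarith only [hxe, hw]) (le_trans hs0 (by norm_num)) (by linarith only [g7, hxe]) (by linarith only [g4, hxe]) (by linarith only [hxe]) (by linarith only [g1])
        (by linarith only [g4, hxe]) (by linarith only [g4]) (by linarith only [g5]) (by linarith only [g7]) (by linarith only [hxe]) (by linarith only [hxf]) hU hU'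
        le_rfl le_rfl (by linarith only [c1]) (by linarith only [c2])
    · skip
      rcases le_or_gt (w + X) (995 / 1000) with hs1 | hs1
      · exact k_cfbw (S := -uu (w + X) Y) (U := uu (18 / 100 + (w + X - w)) (τ + Y)) (w := w) (s := w +
          X) (t := τ) (Y := Y) (W := uu w 0) (le_trans (by norm_num) hw) (le_trans h1 (by norm_num)) (le_trans (by norm_num) h2) (le_trans h3 (by norm_num))
          (le_trans (by norm_num) hs0.le) (le_trans hs1 (by norm_num)) (by linarith only [g7, hxe]) (by linarith only [g4, hxe]) (by linarith only [h1, hs0]) (by linarith only [hxf])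
          (by linarith only [h1, g4, hs0]) (by linarith only [g4]) (by linarith only [g5]) (by linarith only [g7]) (by linarith only [hxe]) (by linarith only [hxf]) hU hU'
          (S_b (d := 15 / 1000) (by norm_num) (le_trans (by norm_num) hs0.le) (le_trans hs1 (by norm_num)) (hY (le_trans (by norm_num) hxe))) le_rfl (by linarith only [c1])
          (by linarith only [c2])
      · skip
        rcases le_or_gt (w + X) (1005 / 1000) with hs2 | hs2
        · exact k_cfcw (S := -uu (w + X) Y) (U := uu (18 / 100 + (w + X - w)) (τ + Y)) (w := w) (s := w
            + X) (t := τ) (Y := Y) (W := uu w 0) (le_trans (by norm_num) hw) (le_trans h1 (by norm_num)) (le_trans (by norm_num) h2)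
            (le_trans h3 (by norm_num)) (le_trans (by norm_num) hs1.le) (le_trans hs2 (by norm_num)) (by linarith only [g7, hxe]) (by linarith only [g4, hxe]) (by linarith only [h1, hs1])
            (by linarith only [hxf]) (by linarith only [h1, g4, hs1]) (by linarith only [g4]) (by linarith only [g5]) (by linarith only [g7]) (by linarith only [hxe])
            (by linarith only [hxf]) hU hU' (S_b (d := 5 / 1000) (by norm_num) (le_trans (by norm_num) hs1.le) (le_trans hs2 (by norm_num)) (hY (le_trans (by norm_num) hxe)))
            le_rfl (by linarith only [c1]) (by linarith only [c2])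
        · skip
          have hS := S_p (s := w + X) (Y := Y) hs2.le (by linarith only [h1, hxf]) (abs_le.2 ⟨by linarith only [g6], by linarith only [h1, g4, hs2]⟩)
            (abs_le.2 ⟨by linarith only [h1, g6, hxf], by linarith only [h1, g1, g4]⟩)
          rcases le_total 0 Y with hy | hy
          · rw [abs_of_nonneg hy] at hS
            exact k_cfpw (S := -uu (w + X) Y) (U := uu (18 / 100 + (w + X - w)) (τ + Y)) (w := w) (s :=
              w + X) (t := τ) (Y := Y) (W := uu w 0) (le_trans (by norm_num) hw) (le_trans h1 (by norm_num)) (le_trans (by norm_num) h2)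
              (le_trans h3 (by norm_num)) (le_trans (by norm_num) hs2.le) (by linarith only [h1, hxf]) hy (by linarith only [g4, hxe]) (by linarith only [h1, hs2])
              (by linarith only [hxf]) (by linarith only [h1, g4, hs2]) (by linarith only [g4]) (by linarith only [g5]) (by linarith only [g7]) (by linarith only [hxe])
              (by linarith only [hxf]) hU hU' hS le_rfl (by linarith only [c1]) (by linarith only [c2])
          · rw [abs_of_nonpos hy] at hS
            exact k_cfnw (S := -uu (w + X) Y) (U := uu (18 / 100 + (w + X - w)) (τ + Y)) (w := w) (s :=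
              w + X) (t := τ) (Y := Y) (W := uu w 0) (le_trans (by norm_num) hw) (le_trans h1 (by norm_num)) (le_trans (by norm_num) h2)
              (le_trans h3 (by norm_num)) (le_trans (by norm_num) hs2.le) (by linarith only [h1, hxf]) (by linarith only [g7, hxe]) hy (by linarith only [h1, hs2])
              (by linarith only [hxf]) (by linarith only [h1, hs2, hy]) (by linarith only [hxf, hy]) (by linarith only [g5]) (by linarith only [g7]) (by linarith only [hxe])
              (by linarith only [hxf]) hU hU' (by linarith only [hS]) le_rfl (by linarith only [c1]) (by linarith only [c2])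
  · obtain ⟨hU, hU'⟩ := U_d (x := 18 / 100 + (w + X - w)) (t := τ + Y) (d := 40 / 1000)
      (by linarith only [hxf]) (by linarith only [g1]) (by norm_num) (abs_le.2 ⟨by linarith only [h2, g6], by linarith only [h3, g4, hxf]⟩)
    rcases le_total w (2 / 100) with hw | hw
    · have hW := W_v h0 hw
      exact k_cgav (S := -uu (w + X) Y) (U := uu (18 / 100 + (w + X - w)) (τ + Y)) (w := w) (s := w + X)
        (t := τ) (Y := Y) (W := uu w 0) h0 (le_trans hw (by norm_num)) (le_trans (by norm_num) h2) (le_trans h3 (by norm_num))
        (by linarith only [h0, hxf]) (by linarith only [g1, hw]) (by linarith only [g7, hxf]) (by linarith only [g4, hxf]) (by linarith only [hxf]) (by linarith only [g1])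
        (by linarith only [g4, hxf]) (by linarith only [g4]) (by linarith only [g5]) (by linarith only [g7]) (by linarith only [hxf]) (by linarith only [g1]) hU hU'
        le_rfl hW (by linarith only [c1]) (by linarith only [c2])
    rcases le_or_gt (w + X) (985 / 1000) with hs0 | hs0
    · exact k_cgaw (S := -uu (w + X) Y) (U := uu (18 / 100 + (w + X - w)) (τ + Y)) (w := w) (s := w + X)
        (t := τ) (Y := Y) (W := uu w 0) (le_trans (by norm_num) hw) (le_trans h1 (by norm_num)) (le_trans (by norm_num) h2) (le_trans h3 (by norm_num))
        (by linarith only [hxf, hw]) (le_trans hs0 (by norm_num)) (by linarith only [g7, hxf]) (by linarith only [g4, hxf]) (by linarith only [hxf]) (by linarith only [g1])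
        (by linarith only [g4, hxf]) (by linarith only [g4]) (by linarith only [g5]) (by linarith only [g7]) (by linarith only [hxf]) (by linarith only [g1]) hU hU'
        le_rfl le_rfl (by linarith only [c1]) (by linarith only [c2])
    · skip
      rcases le_or_gt (w + X) (995 / 1000) with hs1 | hs1
      · exact k_cgbw (S := -uu (w + X) Y) (U := uu (18 / 100 + (w + X - w)) (τ + Y)) (w := w) (s := w +
          X) (t := τ) (Y := Y) (W := uu w 0) (le_trans (by norm_num) hw) (le_trans h1 (by norm_num)) (le_trans (by norm_num) h2) (le_trans h3 (by norm_num))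
          (le_trans (by norm_num) hs0.le) (le_trans hs1 (by norm_num)) (by linarith only [g7, hxf]) (by linarith only [g4, hxf]) (by linarith only [h1, hs0]) (by linarith only [g1])
          (by linarith only [h1, g4, hs0]) (by linarith only [g4]) (by linarith only [g5]) (by linarith only [g7]) (by linarith only [hxf]) (by linarith only [g1]) hU hU'
          (S_b (d := 15 / 1000) (by norm_num) (le_trans (by norm_num) hs0.le) (le_trans hs1 (by norm_num)) (hY (le_trans (by norm_num) hxf))) le_rfl (by linarith only [c1])
          (by linarith only [c2])
      · skip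
        rcases le_or_gt (w + X) (1005 / 1000) with hs2 | hs2
        · exact k_cgcw (S := -uu (w + X) Y) (U := uu (18 / 100 + (w + X - w)) (τ + Y)) (w := w) (s := w
            + X) (t := τ) (Y := Y) (W := uu w 0) (le_trans (by norm_num) hw) (le_trans h1 (by norm_num)) (le_trans (by norm_num) h2)
            (le_trans h3 (by norm_num)) (le_trans (by norm_num) hs1.le) (le_trans hs2 (by norm_num)) (by linarith only [g7, hxf]) (by linarith only [g4, hxf]) (by linarith only [h1, hs1])
            (by linarith only [g1]) (by linarith only [h1, g4, hs1]) (by linarith only [g4]) (by linarith only [g5]) (by linarith only [g7]) (by linarith only [hxf])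
            (by linarith only [g1]) hU hU' (S_b (d := 5 / 1000) (by norm_num) (le_trans (by norm_num) hs1.le) (le_trans hs2 (by norm_num)) (hY (le_trans (by norm_num) hxf)))
            le_rfl (by linarith only [c1]) (by linarith only [c2])
        · skip
          have hS := S_p (s := w + X) (Y := Y) hs2.le (by linarith only [h1, g1]) (abs_le.2 ⟨by linarith only [g6], by linarith only [h1, g4, hs2]⟩)
            (abs_le.2 ⟨by linarith only [h1, g1, g6], by linarith only [h1, g1, g4]⟩)
          rcases le_total 0 Y with hy | hy
          · rw [abs_of_nonneg hy] at hS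
            exact k_cgpw (S := -uu (w + X) Y) (U := uu (18 / 100 + (w + X - w)) (τ + Y)) (w := w) (s :=
              w + X) (t := τ) (Y := Y) (W := uu w 0) (le_trans (by norm_num) hw) (le_trans h1 (by norm_num)) (le_trans (by norm_num) h2)
              (le_trans h3 (by norm_num)) (le_trans (by norm_num) hs2.le) (by linarith only [h1, g1]) hy (by linarith only [g4, hxf]) (by linarith only [h1, hs2])
              (by linarith only [g1]) (by linarith only [h1, g4, hs2]) (by linarith only [g4]) (by linarith only [g5]) (by linarith only [g7]) (by linarith only [hxf])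
              (by linarith only [g1]) hU hU' hS le_rfl (by linarith only [c1]) (by linarith only [c2])
          · rw [abs_of_nonpos hy] at hS
            exact k_cgnw (S := -uu (w + X) Y) (U := uu (18 / 100 + (w + X - w)) (τ + Y)) (w := w) (s :=
              w + X) (t := τ) (Y := Y) (W := uu w 0) (le_trans (by norm_num) hw) (le_trans h1 (by norm_num)) (le_trans (by norm_num) h2)
              (le_trans h3 (by norm_num)) (le_trans (by norm_num) hs2.le) (by linarith only [h1, g1]) (by linarith only [g7, hxf]) hy (by linarith only [h1, hs2])
              (by linarith only [g1]) (by linarith only [h1, g4, hs2]) (by linarith only [g4]) (by linarith only [g5]) (by linarith only [g7]) (by linarith only [hxf])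
              (by linarith only [g1]) hU hU' (by linarith only [hS]) le_rfl (by linarith only [c1]) (by linarith only [c2])

end TL

end Pool.Agent.Work.MP_b30479_gtS.G2

end
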