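import Pool.Agent.Work.MP_b30479_gt.TBS.NumI.LnSin
import Pool.Agent.Work.MP_b30479_gt.TBS.G2.MRBase
import Pool.Agent.Work.MP_b30479_gt.TBS.NumU.Tree
import Pool.Agent.Work.MP_b30479_gt.TBS.G2.WVal

/-!
# Tails: the change of the value of an untouched region, rows E3

`E3a`, `E3b`, `E3c`, `E3d` of the list of E rows.
-/

set_option deprecated.oldSectionVars true

namespace Pool.Agent.Work.MP_b30479_gtS.G2

open VOL NumUs

namespace TL

namespace E3

section
open NumIs (V)
open NumUs NumUs.E

/-- the difference of the two values without `UU w`; the variables are `w τ X Y` -/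
def fg (w a b : E) : E :=
  sub (sub (add (mul pi (add (mul (sub (q 9 50) w) (var 3)) (mul (var 1) (sub (var 2) (q 1 1)))))
    a) (E.uu (q 9 50) (var 1))) b

def lin (w a : E) (n : ℤ) (d : ℕ) (wn : ℤ) (wd : ℕ) (t : ℤ) (td : ℕ) : E :=
  add a (add (q n d) (add (mul (q wn wd) w) (mul (q t td) (var 1))))

def vio0 : List E := [sub (var 3) (mul (q 52 100) (var 2)), sub (mul (q (-607) 1000) (var 2)) (var 3)]

def vio : List E :=
  [sub (var 3) (mul (q 52 100) (var 2)), sub (mul (q (-607) 1000) (var 2)) (var 3),
   sub (var 3) (mul (q 25 100) (sub (q 86 100) (var 2))),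
   sub (mul (q (-455) 1000) (sub (q 86 100) (var 2))) (var 3)]

def vioE : List E :=
  [var 3, sub (mul (q (-322) 1000) (var 2)) (var 3),
   sub (mul (q (-129) 1000) (sub (q 7 10) (var 2))) (var 3)]

def wv : E := sub (var 0) (var 2)
def vw : List E := [sub (q 4 25) wv, sub wv (q 2 5)]
def tY : E := add (var 1) (var 3)
def fa0 : E := E.uu (add (q 9 50) (var 2)) tY
def fa5 : E := add (E.uu (q 5 10000) tY) (mul pi tY)
def fa1 : E := add (E.uu (q 5 1000) tY) (mul pi tY)
def fa2 : E := add (E.uu (sub (var 2) (q 41 50)) tY) (mul pi tY)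
def fwX : E := E.uu (add (var 0) (var 2)) (var 3)
def fb0 : E := E.uu (var 0) (var 3)
def fb1 : E := E.uu (q 995 1000) (var 3)
def fb2p : E := add (E.uu (sub (var 0) (q 1 1)) (var 3)) (mul pi (var 3))
def fb2n : E := sub (E.uu (sub (var 0) (q 1 1)) (var 3)) (mul pi (var 3))

/-- first alternative, `u` is the value of `UU w`, `b` the value at `w + X` -/
def A1 (u b : E) : E := lin (var 0) (add (fg (var 0) fa0 b) u) 9 1000 0 1 3927 1250
/-- second alternative -/
def A2 (a b : E) : E := lin (var 0) (fg (var 0) a b) 247 10000 (-293) 1000 163 100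
/-- the row with `4/25 ≤ w`, the variable number 0 is `w + X` -/
def B2 (a b : E) : E := lin wv (fg wv a b) (-1283) 10000 719 1000 429 250

def esa1 : List E := A1 (q 0 1) (q 0 1) :: vio0
def esa2 : List E := A1 (E.uu (var 0) (q 0 1)) fwX :: vio0
def esa3 : List E := A1 (E.uu (q 2 100) (q 0 1)) fwX :: A2 fa0 fwX :: vio
def esa4 : List E := A1 (E.uu (var 0) (q 0 1)) fwX :: A2 fa0 fwX :: vio
def esa5 : List E := A2 fa5 fwX :: vio
def esa6 : List E := A2 fa2 fwX :: vio
def esa8 : List E := A2 fa2 (E.uu (q 978 1000) (var 3)) :: vio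
def esb (a b : E) : List E := B2 a b :: (vio ++ vw)
def esc : List E := A2 fa0 fwX :: vioE
def esd (b : E) : List E := B2 fa0 b :: (vioE ++ vw)


set_option linter.defProp false in
def ra1 : chkT esa1 30 3192242323733064281278531741108051414766338359046705
    [V.of 10000 0 1200 0, V.of 10000 210 940 0, V.of 10000 0 400 0, V.of 10000 (-243) 208 0] = true := by
  decide +kernel

set_option linter.defProp false in
def ra2 : chkT esa2 30 2897096615360469141860862883705762885665
    [V.of 10000 1200 1600 0, V.of 10000 210 940 0, V.of 10000 0 400 0, V.of 10000 (-243) 208 0] = true := by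
  decide +kernel

set_option linter.defProp false in
def ra3 : chkT esa3 30 3084573782625939639126474844034560404580483057536648686731441992576656059628343083144745898896581796438405364971321334132365868725956241530960141046700871090421583930392859736517793797474941771242148937638435943404130214434
    [V.of 10000 0 200 0, V.of 10000 210 940 0, V.of 10000 400 8195 0, V.of 10000 (-910) 770 0] = true := by
  decide +kernel

set_option linter.defProp false in
def ra4 : chkT esa4 30 49071399064190875651899627393817856966091633507858315889835213054393004829926690933529178102241361200667993451944831273963069325930696314616317314933880496677729301049371095375395395557381886419338545012841110262107162491247505326635938165851775016612827089243417760766228129389204984493486408485676200087126514369961670030332534330027748756767635251101544803641890408065138901923090835698951609998516273377750755519295383741537403076991726856465056042330394396248288497200991888124236372292129531939223391419848138474091860481683052228932322425562843189477922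
    [V.of 10000 200 1600 0, V.of 10000 210 940 0, V.of 10000 400 8195 0, V.of 10000 (-910) 770 0] = true := by
  decide +kernel

set_option linter.defProp false in
def ra5 : chkT esa5 30 208470289624563756747659937636743646922111037886749028624
    [V.of 10000 0 1600 0, V.of 10000 210 940 0, V.of 10000 8195 8205 0, V.of 10000 (-185) 102 0] = true := by
  decide +kernel

set_option linter.defProp false in
def ra6 : chkT esa6 30 8441726810665871697135836880602489091725094983435619816069279288009392317083693200002789353520252562680087302146307718058048410587169535783852145688991649723060590629539721186096479915466655745940155985064321515755800453773007461293693663833974250929031553720857791562794703286911024531479734548110115109300535350699846788777595140601499419259090830413321658332422788501363735173553306820999252390153982371382608652306551112917316007292995066356547695386917344004051261424632302675774285372635902723209580480199285502378058272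
    [V.of 10000 0 1600 0, V.of 10000 210 940 0, V.of 10000 8205 8390 0, V.of 10000 (-180) 99 0] = true := by
  decide +kernel

set_option linter.defProp false in
def ra7 : chkT esa6 30 103819178311954727848995038149931089974048851029172388472102957389731188296953756571655873738147644808860200984377193264101480701460193346785552
    [V.of 10000 0 1390 0, V.of 10000 210 940 0, V.of 10000 8390 8600 0, V.of 10000 (-100) 55 0] = true := by
  decide +kernel

set_option linter.defProp false in
def ra8 : chkT esa8 30 2177
    [V.of 10000 1390 1600 0, V.of 10000 210 940 0, V.of 10000 8390 8600 0, V.of 10000 (-100) 55 0] = true := by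
  decide +kernel

set_option linter.defProp false in
def rb00 : chkT (esb fa0 fb0) 30 6471347951442380648587446472343642580218400326016156142139534898907888585832620354264847326694906061877526725388778179670196795121614319337186572506265847709489538945998267393008384566310788335845343003126117130560137529623045323708651345961559603755693313734062501881328225945476078437374337810078505972447378068774433602562686154497788466148769916365965624143772031429429180959354155423808676453868185008518653095188822452910962203935808506107779031072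
    [V.of 1000 160 995 0, V.of 1000 21 94 0, V.of 1000 0 815 0, V.of 1000 (-91) 77 0] = true := by
  decide +kernel

set_option linter.defProp false in
def rb01 : chkT (esb fa0 fb1) 30 3859698644864905354600078986008135827729635223553666086986263543500960379618
    [V.of 1000 995 1005 0, V.of 1000 21 94 0, V.of 1000 0 815 0, V.of 1000 (-91) 77 0] = true := by
  decide +kernel

set_option linter.defProp false in
def rb02 : chkT (esb fa0 fb2p) 30 4665158470389848413045777609367362519558103126517337950981475912311523641479563301108860944107307746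
    [V.of 1000 1005 1260 0, V.of 1000 21 94 0, V.of 1000 0 815 0, V.of 1000 0 77 0] = true := by
  decide +kernel

set_option linter.defProp false in
def rb03 : chkT (esb fa0 fb2n) 30 9044000406289338640048490861366499256034900612508339961766159951590641292178603396049028558307089382288259625803560076699238949608391549234930223056933212995699298987076386599639057122
    [V.of 1000 1005 1260 0, V.of 1000 21 94 0, V.of 1000 0 815 0, V.of 1000 (-91) 0 0] = true := by
  decide +kernel

set_option linter.defProp false in
def rb10 : chkT (esb fa1 fb0) 30 11306390610140154392521865714537124048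
    [V.of 1000 160 995 0, V.of 1000 21 94 0, V.of 1000 815 825 0, V.of 1000 (-21) 12 0] = true := by
  decide +kernel

set_option linter.defProp false in
def rb11 : chkT (esb fa1 fb1) 30 143163697
    [V.of 1000 995 1005 0, V.of 1000 21 94 0, V.of 1000 815 825 0, V.of 1000 (-21) 12 0] = true := by
  decide +kernel

set_option linter.defProp false in
def rb12 : chkT (esb fa1 fb2p) 30 36650352640
    [V.of 1000 1005 1260 0, V.of 1000 21 94 0, V.of 1000 815 825 0, V.of 1000 0 12 0] = true := by
  decide +kernel

set_option linter.defProp false in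
def rb13 : chkT (esb fa1 fb2n) 30 10283102356243409978589184
    [V.of 1000 1005 1260 0, V.of 1000 21 94 0, V.of 1000 815 825 0, V.of 1000 (-21) 0 0] = true := by
  decide +kernel

set_option linter.defProp false in
def rb20 : chkT (esb fa2 fb0) 30 1178749420211176319154101857108492461068496
    [V.of 1000 160 995 0, V.of 1000 21 94 0, V.of 1000 825 860 0, V.of 1000 (-16) 9 0] = true := by
  decide +kernel

set_option linter.defProp false in
def rb21 : chkT (esb fa2 fb1) 30 2394223219511826
    [V.of 1000 995 1005 0, V.of 1000 21 94 0, V.of 1000 825 860 0, V.of 1000 (-16) 9 0] = true := by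
  decide +kernel

set_option linter.defProp false in
def rb22 : chkT (esb fa2 fb2p) 30 2401917921722368
    [V.of 1000 1005 1260 0, V.of 1000 21 94 0, V.of 1000 825 860 0, V.of 1000 0 9 0] = true := by
  decide +kernel

set_option linter.defProp false in
def rb23 : chkT (esb fa2 fb2n) 30 209233933044751657740817038516182810517025490532266156032
    [V.of 1000 1005 1260 0, V.of 1000 21 94 0, V.of 1000 825 860 0, V.of 1000 (-16) 0 0] = true := by
  decide +kernel

set_option linter.defProp false in
def rc1 : chkT esc 30 10278277345679840945111586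
    [V.of 10000 0 1600 0, V.of 10000 870 1145 0, V.of 10000 800 7000 0, V.of 10000 (-450) 0 0] = true := by
  decide +kernel

set_option linter.defProp false in
def rd1 : chkT (esd fb0) 30 189776880403383125008103406172234770297135136
    [V.of 10000 2400 9800 0, V.of 10000 870 1145 0, V.of 10000 800 7000 0, V.of 10000 (-450) 0 0] = true := by
  decide +kernel

set_option linter.defProp false in
def rd2 : chkT (esd (E.uu (q 875 1000) (var 3))) 30 2178
    [V.of 10000 9800 11000 0, V.of 10000 870 1145 0, V.of 10000 800 7000 0, V.of 10000 (-450) 0 0] = true := by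
  decide +kernel

theorem lk0 (a b c d : ℝ) : NumIs.lkR [a, b, c, d] 0 = a := rfl
theorem lk1 (a b c d : ℝ) : NumIs.lkR [a, b, c, d] 1 = b := rfl
theorem lk2 (a b c d : ℝ) : NumIs.lkR [a, b, c, d] 2 = c := rfl
theorem lk3 (a b c d : ℝ) : NumIs.lkR [a, b, c, d] 3 = d := rfl

theorem fg_val (w a b : E) (xs : List ℝ) : (fg w a b).val xs =
    Real.pi * ((9 / 50 - w.val xs) * NumIs.lkR xs 3 + NumIs.lkR xs 1 * (NumIs.lkR xs 2 - 1)) +
      a.val xs - uu (9 / 50) (NumIs.lkR xs 1) - b.val xs := by
  simp only [fg, val]
  norm_num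

theorem A1_val (u b : E) (w τ X Y : ℝ) : (A1 u b).val [w, τ, X, Y] =
    Real.pi * ((9 / 50 - w) * Y + τ * (X - 1)) + uu (9 / 50 + X) (τ + Y) - uu (9 / 50) τ -
      b.val [w, τ, X, Y] + u.val [w, τ, X, Y] + 9 / 1000 + 3927 / 1250 * τ := by
  simp only [A1, lin, fa0, tY, fg_val, val, lk0, lk1, lk2, lk3]
  norm_num
  ring

theorem A2_val (a b : E) (w τ X Y : ℝ) : (A2 a b).val [w, τ, X, Y] =
    Real.pi * ((9 / 50 - w) * Y + τ * (X - 1)) + a.val [w, τ, X, Y] - uu (9 / 50) τ -
      b.val [w, τ, X, Y] + 247 / 10000 - 293 / 1000 * w + 163 / 100 * τ := by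
  simp only [A2, lin, fg_val, val, lk0, lk1, lk2, lk3]
  norm_num
  ring

theorem B2_val (a b : E) (s τ X Y : ℝ) : (B2 a b).val [s, τ, X, Y] =
    Real.pi * ((9 / 50 - (s - X)) * Y + τ * (X - 1)) + a.val [s, τ, X, Y] - uu (9 / 50) τ -
      b.val [s, τ, X, Y] - 1283 / 10000 + 719 / 1000 * (s - X) + 429 / 250 * τ := by
  simp only [B2, lin, wv, fg_val, val, lk0, lk1, lk2, lk3]
  norm_num
  ring

theorem vio_no {X Y : ℝ} (hG : RgC X Y) (s τ : ℝ) : ∀ e ∈ vio, ¬ 0 < e.val [s, τ, X, Y] := by
  obtain ⟨g1, g2, g3, g4, g5, g6, g7, g8⟩ := hG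
  intro e he hp
  simp only [vio, List.mem_cons, List.not_mem_nil, or_false] at he
  rcases he with rfl | rfl | rfl | rfl
  all_goals
    simp only [val, lk2, lk3] at hp
    norm_num at hp
    linarith only [g3, hp, g6, g5, g8]

theorem vio0_no {X Y : ℝ} (hG : RgC X Y) (s τ : ℝ) : ∀ e ∈ vio0, ¬ 0 < e.val [s, τ, X, Y] := by
  intro e he
  refine vio_no hG s τ e ?_
  simp only [vio0, vio, List.mem_cons, List.not_mem_nil, or_false] at he ⊢
  tauto

theorem vioE_no {X Y : ℝ} (hG : RgE X Y) (s τ : ℝ) : ∀ e ∈ vioE, ¬ 0 < e.val [s, τ, X, Y] := by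
  obtain ⟨g1, g2, g3, g4, g5, g6⟩ := hG
  intro e he hp
  simp only [vioE, List.mem_cons, List.not_mem_nil, or_false] at he
  rcases he with rfl | rfl | rfl
  all_goals
    simp only [val, lk2, lk3] at hp
    norm_num at hp
    linarith only [g3, hp, g4, g6]

theorem vw_no {s X : ℝ} (h0 : 4 / 25 ≤ s - X) (h1 : s - X ≤ 2 / 5) (τ Y : ℝ) :
    ∀ e ∈ vw, ¬ 0 < e.val [s, τ, X, Y] := by
  intro e he hp
  simp only [vw, wv, List.mem_cons, List.not_mem_nil, or_false] at he
  rcases he with rfl | rfl
  all_goals
    simp only [val, lk0, lk2] at hp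
    norm_num at hp
    linarith only [h0, hp, h1]

theorem head1 {e0 : E} {l : List E} {xs : List ℝ} (h : ∃ e ∈ e0 :: l, 0 < e.val xs)
    (hn : ∀ e ∈ l, ¬ 0 < e.val xs) : 0 < e0.val xs := by
  obtain ⟨e, he, hp⟩ := h
  rcases List.mem_cons.1 he with rfl | he
  · exact hp
  · exact absurd hp (hn e he)

theorem head2 {e0 e1 : E} {l : List E} {xs : List ℝ} (h : ∃ e ∈ e0 :: e1 :: l, 0 < e.val xs)
    (hn : ∀ e ∈ l, ¬ 0 < e.val xs) : 0 < e0.val xs ∨ 0 < e1.val xs := by
  obtain ⟨e, he, hp⟩ := h
  rcases List.mem_cons.1 he with rfl | he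
  · exact Or.inl hp
  · rcases List.mem_cons.1 he with rfl | he
    · exact Or.inr hp
    · exact absurd hp (hn e he)

theorem app_no {l l' : List E} {xs : List ℝ} (h : ∀ e ∈ l, ¬ 0 < e.val xs)
    (h' : ∀ e ∈ l', ¬ 0 < e.val xs) : ∀ e ∈ l ++ l', ¬ 0 < e.val xs := by
  intro e he
  rcases List.mem_append.1 he with he | he
  · exact h e he
  · exact h' e he

theorem kc_16 : UA.Kc (16 / 100) (25 / 1000) := by
  have h : chk [sub (q 1 1) (sub (mul (q 2 1) (cosh (mul pi (q 50 1000))))
      (mul (q 2 1) (cosPi (q 32 100))))] 1 [V.of 1 0 0] = true := by decide +kernel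
  have hp := pos_of_chk (chk1 h (by norm_num) (x := 0) (by norm_num) (by norm_num))
  unfold UA.Kc
  simp only [val] at hp
  norm_num at hp ⊢
  linarith only [hp]

theorem kc_125 : UA.Kc (125 / 1000) (45 / 1000) := by
  have h : chk [sub (q 1 1) (sub (mul (q 2 1) (cosh (mul pi (q 90 1000))))
      (mul (q 2 1) (cosPi (q 250 1000))))] 1 [V.of 1 0 0] = true := by decide +kernel
  have hp := pos_of_chk (chk1 h (by norm_num) (x := 0) (by norm_num) (by norm_num))
  unfold UA.Kc
  simp only [val] at hp
  norm_num at hp ⊢
  linarith only [hp]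

end

/-! ### analytic facts -/

theorem lnB_nonneg {x y : ℝ} (h0 : 0 < x) (h1 : x ≤ 1 / 2) (hy : 0 ≤ y) : 0 ≤ NumIs.lnB x y := by
  have hp := Real.pi_pos
  unfold NumIs.lnB
  rw [← Real.arctan_zero]
  apply Real.arctan_strictMono.monotone
  apply div_nonneg
  · apply mul_nonneg
    · apply Real.cos_nonneg_of_mem_Icc
      constructor <;> nlinarith only [h0, hp, h1]
    · exact Real.sinh_nonneg_iff.2 (by positivity)
  · apply mul_nonneg
    · exact Real.sin_nonneg_of_nonneg_of_le_pi (by positivity) (by nlinarith only [h1, hp])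
    · exact (Real.cosh_pos _).le

/-- `uu` is largest on the real axis for `0 ≤ x ≤ 1/2` -/
theorem uu_le_re {x : ℝ} (h0 : 0 ≤ x) (h1 : x ≤ 1 / 2) (y : ℝ) : uu x y ≤ uu x 0 := by
  rcases h0.eq_or_lt with rfl | h0
  · rw [UA.uu_zero, UA.uu_zero, abs_zero, mul_zero, neg_zero]
    have := mul_nonneg (by positivity : 0 ≤ Real.pi / 2) (abs_nonneg y)
    linarith only [this]
  have hd : ∀ y : ℝ, HasDerivAt (fun s => uu x s) (-NumIs.lnB x y) y := by
    intro y
    have h := uu_line (x := x) (t := 0) (a := 0) (b := 1) (τ := y) (by linarith only [h0]) (by linarith only [h1, h0])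
    have e : (fun τ : ℝ => uu (x + τ * 0) (0 + τ * 1)) = fun s => uu x s := by
      funext s
      congr 1 <;> ring
    rw [e] at h
    refine h.congr_deriv ?_
    have e1 : x + y * 0 = x := by ring
    have e2 : 0 + y * 1 = y := by ring
    rw [e1, e2]
    ring
  have hm : AntitoneOn (fun s => uu x s) (Set.Ici 0) := by
    apply antitoneOn_of_deriv_nonpos (convex_Ici 0)
    · exact fun s _ => (hd s).continuousAt.continuousWithinAt
    · exact fun s _ => (hd s).differentiableAt.differentiableWithinAt
    · intro s hs
      rw [interior_Ici] at hs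
      rw [(hd s).deriv]
      have := lnB_nonneg h0 h1 (le_of_lt hs)
      linarith only [this]
  have key : ∀ y : ℝ, 0 ≤ y → uu x y ≤ uu x 0 := fun y hy =>
    hm (Set.mem_Ici.2 le_rfl) (Set.mem_Ici.2 hy) hy
  rcases le_total 0 y with hy | hy
  · exact key y hy
  · have := key (-y) (by linarith only [hy])
    rwa [uu_neg] at this

/-- the difference of the two values -/
theorem V1_sub (c τ w X Y : ℝ) : V1 ⟨c, τ⟩ ⟨X, Y⟩ - V1 ⟨w, 0⟩ ⟨X, Y⟩ =
    Real.pi * ((c - w) * Y + τ * (X - 1)) + uu (c + X) (τ + Y) - uu c τ - uu (w + X) Y +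
      UU ⟨w, 0⟩ := by
  have e1 : (⟨c, τ⟩ : ℂ) + ⟨X, Y⟩ = ⟨c + X, τ + Y⟩ := by apply Complex.ext <;> simp
  have e2 : (⟨w, 0⟩ : ℂ) + ⟨X, Y⟩ = ⟨w + X, Y⟩ := by apply Complex.ext <;> simp
  unfold V1 uu
  rw [e1, e2]
  simp only [Complex.sub_im, Complex.mul_im]
  ring

/-! ### the values `a` and `b` -/

theorem fa0_val (s τ X Y : ℝ) : fa0.val [s, τ, X, Y] = uu (9 / 50 + X) (τ + Y) := by
  simp only [fa0, tY, E.val, lk1, lk2, lk3]
  norm_num

theorem fwX_val (s τ X Y : ℝ) : fwX.val [s, τ, X, Y] = uu (s + X) Y := by
  simp only [fwX, E.val, lk0, lk2, lk3]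

theorem fb0_val (s τ X Y : ℝ) : fb0.val [s, τ, X, Y] = uu s Y := by
  simp only [fb0, E.val, lk0, lk3]

theorem fa1_le {s τ X Y : ℝ} (h0 : 815 / 1000 ≤ X) (h1 : X ≤ 825 / 1000) (ht : 0 ≤ τ + Y)
    (ht' : τ + Y ≤ 13 / 100) : fa1.val [s, τ, X, Y] ≤ uu (9 / 50 + X) (τ + Y) := by
  have h := UA.anti1 UA.kc_7_13 (by norm_num) (a := 9 / 50 + X) (b := 5 / 1000 + 1) (y := τ + Y)
    (by linarith only [h0]) (by linarith only [h1]) (by norm_num) (by rw [abs_of_nonneg ht]; exact ht')
  rw [uu_add_one, abs_of_nonneg ht] at h
  simp only [fa1, tY, E.val, lk1, lk3]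
  norm_num at h ⊢
  exact h

theorem fa5_le {s τ X Y : ℝ} (h0 : 815 / 1000 ≤ X) (h1 : X ≤ 8205 / 10000) (ht : 0 ≤ τ + Y)
    (ht' : τ + Y ≤ 13 / 100) : fa5.val [s, τ, X, Y] ≤ uu (9 / 50 + X) (τ + Y) := by
  have h := UA.anti1 UA.kc_7_13 (by norm_num) (a := 9 / 50 + X) (b := 5 / 10000 + 1) (y := τ + Y)
    (by linarith only [h0]) (by linarith only [h1]) (by norm_num) (by rw [abs_of_nonneg ht]; exact ht')
  rw [uu_add_one, abs_of_nonneg ht] at h
  simp only [fa5, tY, E.val, lk1, lk3]
  norm_num at h ⊢
  exact h

theorem fa2_val {s τ X Y : ℝ} (ht : 0 ≤ τ + Y) :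
    fa2.val [s, τ, X, Y] = uu (9 / 50 + X) (τ + Y) := by
  have h := uu_add_one (X - 41 / 50) (τ + Y)
  rw [abs_of_nonneg ht] at h
  have e : X - 41 / 50 + 1 = 9 / 50 + X := by ring
  rw [e] at h
  rw [h]
  simp only [fa2, tY, E.val, lk1, lk2, lk3]
  norm_num

theorem fb1_ge {s τ X Y : ℝ} (h0 : 995 / 1000 ≤ s) (h1 : s ≤ 1005 / 1000) (hY : |Y| ≤ 13 / 100) :
    uu s Y ≤ fb1.val [s, τ, X, Y] := by
  have h := UA.anti1 UA.kc_7_13 (by norm_num) (a := 995 / 1000) (b := s) (y := Y)
    (by norm_num) (by linarith only [h0]) (by linarith only [h1]) hY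
  simp only [fb1, E.val, lk3]
  norm_num at h ⊢
  exact h

theorem fb2p_val {s τ X Y : ℝ} (hY : 0 ≤ Y) : fb2p.val [s, τ, X, Y] = uu s Y := by
  have h := uu_add_one (s - 1) Y
  rw [abs_of_nonneg hY, sub_add_cancel] at h
  rw [h]
  simp only [fb2p, E.val, lk0, lk3]
  norm_num

theorem fb2n_val {s τ X Y : ℝ} (hY : Y ≤ 0) : fb2n.val [s, τ, X, Y] = uu s Y := by
  have h := uu_add_one (s - 1) Y
  rw [abs_of_nonpos hY, sub_add_cancel] at h
  rw [h]
  simp only [fb2n, E.val, lk0, lk3]
  norm_num
  ring

/-! ### the conclusions -/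

/-- the first alternative -/
def Cl1 (w τ X Y : ℝ) : Prop :=
  -(9 / 1000) - 3927 / 1250 * τ ≤ V1 ⟨9 / 50, τ⟩ ⟨X, Y⟩ - V1 ⟨w, 0⟩ ⟨X, Y⟩

/-- the second alternative -/
def Cl2 (w τ X Y : ℝ) : Prop :=
  UU ⟨w, 0⟩ - 247 / 10000 + 293 / 1000 * w - 163 / 100 * τ ≤
    V1 ⟨9 / 50, τ⟩ ⟨X, Y⟩ - V1 ⟨w, 0⟩ ⟨X, Y⟩

/-- the row for `4/25 ≤ w` -/
def Cl3 (w τ X Y : ℝ) : Prop :=
  UU ⟨w, 0⟩ + 1283 / 10000 - 719 / 1000 * w - 429 / 250 * τ ≤
    V1 ⟨9 / 50, τ⟩ ⟨X, Y⟩ - V1 ⟨w, 0⟩ ⟨X, Y⟩

theorem fin1 {u b : E} {w τ X Y : ℝ} (h : 0 < (A1 u b).val [w, τ, X, Y])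
    (hub : u.val [w, τ, X, Y] - b.val [w, τ, X, Y] ≤ uu w 0 - uu (w + X) Y) : Cl1 w τ X Y := by
  rw [A1_val] at h
  unfold Cl1
  rw [V1_sub, UU_uu]
  linarith only [h, hub]

theorem fin2 {a b : E} {w τ X Y : ℝ} (h : 0 < (A2 a b).val [w, τ, X, Y])
    (ha : a.val [w, τ, X, Y] ≤ uu (9 / 50 + X) (τ + Y))
    (hb : uu (w + X) Y ≤ b.val [w, τ, X, Y]) : Cl2 w τ X Y := by
  rw [A2_val] at h
  unfold Cl2
  rw [V1_sub]
  linarith only [h, ha, hb]

theorem fin3 {a b : E} {s τ X Y : ℝ} (h : 0 < (B2 a b).val [s, τ, X, Y])
    (ha : a.val [s, τ, X, Y] ≤ uu (9 / 50 + X) (τ + Y))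
    (hb : uu s Y ≤ b.val [s, τ, X, Y]) : Cl3 (s - X) τ X Y := by
  rw [B2_val] at h
  unfold Cl3
  rw [V1_sub]
  have e : s - X + X = s := by ring
  rw [e]
  linarith only [h, ha, hb]

theorem mem4 {n : ℕ} {l h : ℤ} {x : ℝ} (h1 : (l : ℝ) ≤ n * x) (h2 : n * x ≤ h) (hn : 0 < n) :
    (l : ℝ) / n ≤ x ∧ x ≤ (h : ℝ) / n := by
  have hn' : (0 : ℝ) < n := by exact_mod_cast hn
  rw [div_le_iff₀ hn', le_div_iff₀ hn']
  constructor <;> linarith only [h1, h2]

/-- rows of `E3b` by the position of `X` -/
theorem bX {s τ X Y : ℝ} {b : E} (h2 : 21 / 1000 ≤ τ) (h3 : τ ≤ 47 / 500) (hG : RgC X Y)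
    (hb : uu s Y ≤ b.val [s, τ, X, Y])
    (k0 : X ≤ 815 / 1000 → 0 < (B2 fa0 b).val [s, τ, X, Y])
    (k1 : 815 / 1000 ≤ X → X ≤ 825 / 1000 → 0 < (B2 fa1 b).val [s, τ, X, Y])
    (k2 : 825 / 1000 ≤ X → 0 < (B2 fa2 b).val [s, τ, X, Y]) : Cl3 (s - X) τ X Y := by
  obtain ⟨g1, g2, g3, g4, g5, g6, g7, g8⟩ := hG
  rcases le_total X (815 / 1000) with c | c
  · exact fin3 (k0 c) (fa0_val _ _ _ _).le hb
  rcases le_total X (825 / 1000) with c' | c'
  · exact fin3 (k1 c c') (fa1_le c c' (by linarith only [h2, g7, g8, c]) (by linarith only [h3, g5, c])) hb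
  · exact fin3 (k2 c') (fa2_val (by linarith only [h2, g7, g8, c'])).le hb

end E3

open E3

/-- margin .0090 -/
theorem E3a {w τ X Y : ℝ} (h0 : 0 ≤ w) (h1 : w ≤ 4 / 25) (h2 : 21 / 1000 ≤ τ)
    (h3 : τ ≤ 47 / 500) (hG : RgC X Y) :
    -(9 / 1000) - 3927 / 1250 * τ ≤
      V1 ⟨9 / 50, τ⟩ ⟨X, Y⟩ - V1 ⟨w, 0⟩ ⟨X, Y⟩ ∨
    UU ⟨w, 0⟩ - 247 / 10000 + 293 / 1000 * w - 163 / 100 * τ ≤
      V1 ⟨9 / 50, τ⟩ ⟨X, Y⟩ - V1 ⟨w, 0⟩ ⟨X, Y⟩ := by
  change Cl1 w τ X Y ∨ Cl2 w τ X Y
  have hG' := hG
  obtain ⟨g1, g2, g3, g4, g5, g6, g7, g8⟩ := hG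
  have hN : 0 < 10000 := by norm_num
  rcases le_total X (4 / 100) with c | c
  · rcases le_total w (12 / 100) with d | d
    · left
      have k := head1 (chkT4 ra1 hN (x := w) (y := τ) (z := X) (w := Y) (by push_cast; linarith only [h0])
        (by push_cast; linarith only [d]) (by push_cast; linarith only [h2]) (by push_cast; linarith only [h3])
        (by push_cast; linarith only [g1]) (by push_cast; linarith only [c]) (by push_cast; linarith only [g6, c])
        (by push_cast; linarith only [g3, c])) (vio0_no hG' w τ)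
      refine fin1 k ?_
      have t1 : uu (w + X) Y ≤ uu w Y := UA.anti kc_16 (by norm_num) (by linarith only [h0]) (by linarith only [g1])
        (by linarith only [c, d]) (by rw [abs_le]; constructor <;> linarith only [g6, c, g3])
      have t2 := uu_le_re h0 (by linarith only [h1]) Y
      simp only [E.val]
      linarith only [t1, t2]
    · left
      have k := head1 (chkT4 ra2 hN (x := w) (y := τ) (z := X) (w := Y) (by push_cast; linarith only [d])
        (by push_cast; linarith only [h1]) (by push_cast; linarith only [h2]) (by push_cast; linarith only [h3])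
        (by push_cast; linarith only [g1]) (by push_cast; linarith only [c]) (by push_cast; linarith only [g6, c])
        (by push_cast; linarith only [g3, c])) (vio0_no hG' w τ)
      refine fin1 k ?_
      rw [fwX_val]
      simp only [E.val, lk0]
      norm_num
  rcases le_total X (8195 / 10000) with c1 | c1
  · rcases le_total w (2 / 100) with d | d
    · have k := head2 (chkT4 ra3 hN (x := w) (y := τ) (z := X) (w := Y) (by push_cast; linarith only [h0])
        (by push_cast; linarith only [d]) (by push_cast; linarith only [h2]) (by push_cast; linarith only [h3])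
        (by push_cast; linarith only [c]) (by push_cast; linarith only [c1]) (by push_cast; linarith only [g7])
        (by push_cast; linarith only [g4])) (vio_no hG' w τ)
      refine k.imp (fun k => fin1 k ?_)
        (fun k => fin2 k (fa0_val _ _ _ _).le (fwX_val _ _ _ _).ge)
      rw [fwX_val]
      have t1 : uu (2 / 100) 0 ≤ uu w 0 := UA.anti UA.kc_7_13 (by norm_num) (by linarith only [h0])
        (by linarith only [d]) (by norm_num) (by norm_num)
      simp only [E.val]
      norm_num at t1 ⊢
      linarith only [t1]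
    · have k := head2 (chkT4 ra4 hN (x := w) (y := τ) (z := X) (w := Y) (by push_cast; linarith only [d])
        (by push_cast; linarith only [h1]) (by push_cast; linarith only [h2]) (by push_cast; linarith only [h3])
        (by push_cast; linarith only [c]) (by push_cast; linarith only [c1]) (by push_cast; linarith only [g7])
        (by push_cast; linarith only [g4])) (vio_no hG' w τ)
      refine k.imp (fun k => fin1 k ?_)
        (fun k => fin2 k (fa0_val _ _ _ _).le (fwX_val _ _ _ _).ge)
      rw [fwX_val]
      simp only [E.val, lk0]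
      norm_num
  right
  rcases le_total X (8205 / 10000) with c2 | c2
  · have k := head1 (chkT4 ra5 hN (x := w) (y := τ) (z := X) (w := Y) (by push_cast; linarith only [h0])
      (by push_cast; linarith only [h1]) (by push_cast; linarith only [h2]) (by push_cast; linarith only [h3])
      (by push_cast; linarith only [c1]) (by push_cast; linarith only [c2]) (by push_cast; linarith only [g8, c1])
      (by push_cast; linarith only [g5, c1])) (vio_no hG' w τ)
    exact fin2 k (fa5_le (by linarith only [c1]) c2 (by linarith only [h2, g7, g8, c1]) (by linarith only [h3, g5, c1])) (fwX_val _ _ _ _).ge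
  rcases le_total X (839 / 1000) with c3 | c3
  · have k := head1 (chkT4 ra6 hN (x := w) (y := τ) (z := X) (w := Y) (by push_cast; linarith only [h0])
      (by push_cast; linarith only [h1]) (by push_cast; linarith only [h2]) (by push_cast; linarith only [h3])
      (by push_cast; linarith only [c2]) (by push_cast; linarith only [c3]) (by push_cast; linarith only [g8, c2])
      (by push_cast; linarith only [g5, c2])) (vio_no hG' w τ)
    exact fin2 k (fa2_val (by linarith only [h2, g7, g8, c2])).le (fwX_val _ _ _ _).ge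
  rcases le_total w (139 / 1000) with d | d
  · have k := head1 (chkT4 ra7 hN (x := w) (y := τ) (z := X) (w := Y) (by push_cast; linarith only [h0])
      (by push_cast; linarith only [d]) (by push_cast; linarith only [h2]) (by push_cast; linarith only [h3])
      (by push_cast; linarith only [c3]) (by push_cast; linarith only [g2]) (by push_cast; linarith only [g8, c3])
      (by push_cast; linarith only [g5, c3])) (vio_no hG' w τ)
    exact fin2 k (fa2_val (by linarith only [h2, g7, g8, c3])).le (fwX_val _ _ _ _).ge
  · have k := head1 (chkT4 ra8 hN (x := w) (y := τ) (z := X) (w := Y) (by push_cast; linarith only [d])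
      (by push_cast; linarith only [h1]) (by push_cast; linarith only [h2]) (by push_cast; linarith only [h3])
      (by push_cast; linarith only [c3]) (by push_cast; linarith only [g2]) (by push_cast; linarith only [g8, c3])
      (by push_cast; linarith only [g5, c3])) (vio_no hG' w τ)
    refine fin2 k (fa2_val (by linarith only [h2, g7, g8, c3])).le ?_
    have h := UA.anti1 UA.kc_7_13 (by norm_num) (a := 978 / 1000) (b := w + X) (y := Y)
      (by norm_num) (by linarith only [c3, d]) (by linarith only [h1, g2]) (by rw [abs_le]; constructor <;> linarith only [g7, g5, c3])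
    simp only [E.val, lk3]
    norm_num at h ⊢
    exact h

/-- margin .0141 -/
theorem E3b {w τ X Y : ℝ} (h0 : 4 / 25 ≤ w) (h1 : w ≤ 2 / 5) (h2 : 21 / 1000 ≤ τ)
    (h3 : τ ≤ 47 / 500) (hG : RgC X Y) :
    UU ⟨w, 0⟩ + 1283 / 10000 - 719 / 1000 * w - 429 / 250 * τ ≤
      V1 ⟨9 / 50, τ⟩ ⟨X, Y⟩ - V1 ⟨w, 0⟩ ⟨X, Y⟩ := by
  change Cl3 w τ X Y
  obtain ⟨s, hs⟩ : ∃ s, s = w + X := ⟨_, rfl⟩
  have hw : w = s - X := by linarith only [hs]
  have hn := app_no (vio_no hG s τ) (vw_no (s := s) (X := X) (by linarith only [h0, hs]) (by linarith only [h1, hs]) τ Y)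
  rw [hw]
  have hG' := hG
  obtain ⟨g1, g2, g3, g4, g5, g6, g7, g8⟩ := hG
  have hN : 0 < 1000 := by norm_num
  rcases le_total s (995 / 1000) with c | c
  · refine bX h2 h3 hG' (fb0_val _ _ _ _).ge (fun _ => ?_) (fun _ _ => ?_) (fun _ => ?_)
    · exact head1 (chkT4 rb00 hN (x := s) (y := τ) (z := X) (w := Y) (by push_cast; linarith only [h0, hs, g1])
        (by push_cast; linarith only [c]) (by push_cast; linarith only [h2]) (by push_cast; linarith only [h3])
        (by push_cast; linarith only [g1]) (by push_cast; linarith) (by push_cast; linarith only [g7])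
        (by push_cast; linarith only [g4])) hn
    · exact head1 (chkT4 rb10 hN (x := s) (y := τ) (z := X) (w := Y) (by push_cast; linarith)
        (by push_cast; linarith only [c]) (by push_cast; linarith only [h2]) (by push_cast; linarith only [h3])
        (by push_cast; linarith) (by push_cast; linarith) (by push_cast; linarith)
        (by push_cast; linarith)) hn
    · exact head1 (chkT4 rb20 hN (x := s) (y := τ) (z := X) (w := Y) (by push_cast; linarith)
        (by push_cast; linarith only [c]) (by push_cast; linarith only [h2]) (by push_cast; linarith only [h3])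
        (by push_cast; linarith) (by push_cast; linarith only [g2]) (by push_cast; linarith)
        (by push_cast; linarith)) hn
  rcases le_total s (1005 / 1000) with c1 | c1
  · refine bX h2 h3 hG' (fb1_ge c c1 (by rw [abs_le]; constructor <;> linarith only [g7, h1, hs, g5, c]))
      (fun _ => ?_) (fun _ _ => ?_) (fun _ => ?_)
    · exact head1 (chkT4 rb01 hN (x := s) (y := τ) (z := X) (w := Y) (by push_cast; linarith only [c])
        (by push_cast; linarith only [c1]) (by push_cast; linarith only [h2]) (by push_cast; linarith only [h3])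
        (by push_cast; linarith only [h1, hs, c]) (by push_cast; linarith) (by push_cast; linarith only [g7])
        (by push_cast; linarith only [h1, hs, g5, c])) hn
    · exact head1 (chkT4 rb11 hN (x := s) (y := τ) (z := X) (w := Y) (by push_cast; linarith only [c])
        (by push_cast; linarith only [c1]) (by push_cast; linarith only [h2]) (by push_cast; linarith only [h3])
        (by push_cast; linarith) (by push_cast; linarith) (by push_cast; linarith)
        (by push_cast; linarith)) hn
    · exact head1 (chkT4 rb21 hN (x := s) (y := τ) (z := X) (w := Y) (by push_cast; linarith only [c])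
        (by push_cast; linarith only [c1]) (by push_cast; linarith only [h2]) (by push_cast; linarith only [h3])
        (by push_cast; linarith) (by push_cast; linarith only [g2]) (by push_cast; linarith)
        (by push_cast; linarith)) hn
  rcases le_total 0 Y with d | d
  · refine bX h2 h3 hG' (fb2p_val d).ge (fun _ => ?_) (fun _ _ => ?_) (fun _ => ?_)
    · exact head1 (chkT4 rb02 hN (x := s) (y := τ) (z := X) (w := Y) (by push_cast; linarith only [c1])
        (by push_cast; linarith only [h1, hs, g2]) (by push_cast; linarith only [h2]) (by push_cast; linarith only [h3])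
        (by push_cast; linarith only [h1, hs, c1]) (by push_cast; linarith) (by push_cast; linarith only [d])
        (by push_cast; linarith only [h1, hs, g5, c1])) hn
    · exact head1 (chkT4 rb12 hN (x := s) (y := τ) (z := X) (w := Y) (by push_cast; linarith only [c1])
        (by push_cast; linarith only [h1, hs, g2]) (by push_cast; linarith only [h2]) (by push_cast; linarith only [h3])
        (by push_cast; linarith) (by push_cast; linarith) (by push_cast; linarith only [d])
        (by push_cast; linarith)) hn
    · exact head1 (chkT4 rb22 hN (x := s) (y := τ) (z := X) (w := Y) (by push_cast; linarith only [c1])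
        (by push_cast; linarith only [h1, hs, g2]) (by push_cast; linarith only [h2]) (by push_cast; linarith only [h3])
        (by push_cast; linarith) (by push_cast; linarith only [g2]) (by push_cast; linarith only [d])
        (by push_cast; linarith)) hn
  · refine bX h2 h3 hG' (fb2n_val d).ge (fun _ => ?_) (fun _ _ => ?_) (fun _ => ?_)
    · exact head1 (chkT4 rb03 hN (x := s) (y := τ) (z := X) (w := Y) (by push_cast; linarith only [c1])
        (by push_cast; linarith) (by push_cast; linarith only [h2]) (by push_cast; linarith only [h3])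
        (by push_cast; linarith only [h1, hs, c1]) (by push_cast; linarith) (by push_cast; linarith only [g7])
        (by push_cast; linarith only [d])) hn
    · exact head1 (chkT4 rb13 hN (x := s) (y := τ) (z := X) (w := Y) (by push_cast; linarith only [c1])
        (by push_cast; linarith) (by push_cast; linarith only [h2]) (by push_cast; linarith only [h3])
        (by push_cast; linarith) (by push_cast; linarith) (by push_cast; linarith)
        (by push_cast; linarith only [d])) hn
    · exact head1 (chkT4 rb23 hN (x := s) (y := τ) (z := X) (w := Y) (by push_cast; linarith only [c1])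
        (by push_cast; linarith only [h1, hs, g2]) (by push_cast; linarith only [h2]) (by push_cast; linarith only [h3])
        (by push_cast; linarith) (by push_cast; linarith only [g2]) (by push_cast; linarith)
        (by push_cast; linarith only [d])) hn

/-- margin .0133 -/
theorem E3c {w τ X Y : ℝ} (h0 : 0 ≤ w) (h1 : w ≤ 4 / 25) (h2 : 87 / 1000 ≤ τ)
    (h3 : τ ≤ 229 / 2000) (hG : RgE X Y) :
    UU ⟨w, 0⟩ - 247 / 10000 + 293 / 1000 * w - 163 / 100 * τ ≤
      V1 ⟨9 / 50, τ⟩ ⟨X, Y⟩ - V1 ⟨w, 0⟩ ⟨X, Y⟩ := by
  change Cl2 w τ X Y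
  have hG' := hG
  obtain ⟨g1, g2, g3, g4, g5, g6⟩ := hG
  have k := head1 (chkT4 rc1 (by norm_num) (x := w) (y := τ) (z := X) (w := Y)
    (by push_cast; linarith only [h0])
    (by push_cast; linarith only [h1]) (by push_cast; linarith only [h2]) (by push_cast; linarith only [h3])
    (by push_cast; linarith only [g1]) (by push_cast; linarith only [g2]) (by push_cast; linarith only [g5])
    (by push_cast; linarith only [g3])) (vioE_no hG' w τ)
  exact fin2 k (fa0_val _ _ _ _).le (fwX_val _ _ _ _).ge

/-- margin .032 -/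
theorem E3d {w τ X Y : ℝ} (h0 : 4 / 25 ≤ w) (h1 : w ≤ 2 / 5) (h2 : 87 / 1000 ≤ τ)
    (h3 : τ ≤ 229 / 2000) (hG : RgE X Y) :
    UU ⟨w, 0⟩ + 1283 / 10000 - 719 / 1000 * w - 429 / 250 * τ ≤
      V1 ⟨9 / 50, τ⟩ ⟨X, Y⟩ - V1 ⟨w, 0⟩ ⟨X, Y⟩ := by
  change Cl3 w τ X Y
  obtain ⟨s, hs⟩ : ∃ s, s = w + X := ⟨_, rfl⟩
  have hw : w = s - X := by linarith only [hs]
  have hn := app_no (vioE_no hG s τ) (vw_no (s := s) (X := X) (by linarith only [h0, hs]) (by linarith only [h1, hs]) τ Y)
  rw [hw]
  have hG' := hG
  obtain ⟨g1, g2, g3, g4, g5, g6⟩ := hG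
  rcases le_total s (98 / 100) with c | c
  · have k := head1 (chkT4 rd1 (by norm_num) (x := s) (y := τ) (z := X) (w := Y)
      (by push_cast; linarith only [h0, hs, g1])
      (by push_cast; linarith only [c]) (by push_cast; linarith only [h2]) (by push_cast; linarith only [h3])
      (by push_cast; linarith only [g1]) (by push_cast; linarith only [g2]) (by push_cast; linarith only [g5])
      (by push_cast; linarith only [g3])) hn
    exact fin3 k (fa0_val _ _ _ _).le (fb0_val _ _ _ _).ge
  · have k := head1 (chkT4 rd2 (by norm_num) (x := s) (y := τ) (z := X) (w := Y)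
      (by push_cast; linarith only [c])
      (by push_cast; linarith only [h1, hs, g2]) (by push_cast; linarith only [h2]) (by push_cast; linarith only [h3])
      (by push_cast; linarith only [h1, hs, c]) (by push_cast; linarith only [g2]) (by push_cast; linarith only [g5])
      (by push_cast; linarith only [g3])) hn
    refine fin3 k (fa0_val _ _ _ _).le ?_
    have h := UA.anti1 kc_125 (by norm_num) (a := 875 / 1000) (b := s) (y := Y)
      (by norm_num) (by linarith only [c]) (by linarith only [h1, hs, g2]) (by rw [abs_le]; constructor <;> linarith only [g5, g3])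
    simp only [E.val, lk3]
    norm_num at h ⊢
    exact h

end TL

end Pool.Agent.Work.MP_b30479_gtS.G2
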