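import Pool.Agent.Work.MP_b30479_gt.TBS.G2.TE4a
import Pool.Agent.Work.MP_b30479_gt.TBS.NumU.Tree

/-!
# Tails, row `E7b`: the blocks

Generated.
-/

namespace Pool.Agent.Work.MP_b30479_gtS.G2

open VOL NumUs

namespace TL

variable {w τ σ η : ℝ}

private theorem kbA0 : chkT (List.map (e7A 1397 337 207 3051 2) [1]) 40
    2176
    [NumIs.V.of 64000 (-10112) 256 0, NumIs.V.of 64000 (-32000) (-30000) 0,
      NumIs.V.of 64000 0 836 0] = true := by
  decide +kernel

private theorem kbB0 : chkT (List.map (e7B 1291 (-720) 337 207 3051 2) [(0, 1, 0)]) 40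
    2176
    [NumIs.V.of 64000 8960 25600 0, NumIs.V.of 64000 (-32000) (-30000) 0,
      NumIs.V.of 64000 0 836 0] = true := by
  decide +kernel

theorem bb0 (h0 : 7 / 50 ≤ w) (h1 : w ≤ 2 / 5) (h2 : -(79 / 500) ≤ τ) (h3 : τ ≤ 1 / 250)
    (h4 : -(1 / 2) ≤ σ) (h5 : σ ≤ -(15 / 32)) (h6 : 0 ≤ η) (h7 : η ≤ 209 / 16000) :
    0 < fA (1397 / 1000) τ σ η + fB (1291 / 10000) ((-720) / 1000) w σ η := by
  have a := blkA kbA0 (τ := τ) (σ := σ) (η := η) (by norm_num) h2 h3
    (by push_cast; linarith only [h4]) (by push_cast; linarith only [h5]) h6 (by push_cast; linarith only [h7]) (by linarith only [h7])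
  have b := blkB kbB0 (w := w) (σ := σ) (η := η) (by norm_num)
    (by push_cast; linarith only [h0]) (by push_cast; linarith only [h1])
    (by push_cast; linarith only [h4]) (by push_cast; linarith only [h5]) h6 (by push_cast; linarith only [h7]) (by linarith only [h7])
    (by linarith only [h0, h4])
  push_cast at a b
  linarith only [a, b]

private theorem kbA1 : chkT (List.map (e7A 1397 1922 542 2964 2) [1]) 40
    2176
    [NumIs.V.of 64000 (-10112) 256 0, NumIs.V.of 64000 (-30000) (-28000) 0,
      NumIs.V.of 64000 0 1672 0] = true := by
  decide +kernel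

private theorem kbB1 : chkT (List.map (e7B 1291 (-720) 1922 542 2964 2) [(0, 1, 0)]) 40
    559104
    [NumIs.V.of 64000 8960 25600 0, NumIs.V.of 64000 (-30000) (-28000) 0,
      NumIs.V.of 64000 0 1672 0] = true := by
  decide +kernel

theorem bb1 (h0 : 7 / 50 ≤ w) (h1 : w ≤ 2 / 5) (h2 : -(79 / 500) ≤ τ) (h3 : τ ≤ 1 / 250)
    (h4 : -(15 / 32) ≤ σ) (h5 : σ ≤ -(7 / 16)) (h6 : 0 ≤ η) (h7 : η ≤ 209 / 8000) :
    0 < fA (1397 / 1000) τ σ η + fB (1291 / 10000) ((-720) / 1000) w σ η := by
  have a := blkA kbA1 (τ := τ) (σ := σ) (η := η) (by norm_num) h2 h3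
    (by push_cast; linarith only [h4]) (by push_cast; linarith only [h5]) h6 (by push_cast; linarith only [h7]) (by linarith only [h7])
  have b := blkB kbB1 (w := w) (σ := σ) (η := η) (by norm_num)
    (by push_cast; linarith only [h0]) (by push_cast; linarith only [h1])
    (by push_cast; linarith only [h4]) (by push_cast; linarith only [h5]) h6 (by push_cast; linarith only [h7]) (by linarith only [h7])
    (by linarith only [h0, h4])
  push_cast at a b
  linarith only [a, b]

private theorem kbA2 : chkT (List.map (e7A 1397 3872 977 2728 2) [1]) 40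
    2176
    [NumIs.V.of 64000 (-10112) 256 0, NumIs.V.of 64000 (-28000) (-26000) 0,
      NumIs.V.of 64000 0 2508 0] = true := by
  decide +kernel

private theorem kbB2 : chkT (List.map (e7B 1291 (-720) 3872 977 2728 2) [(0, 1, 0)]) 40
    559104
    [NumIs.V.of 64000 8960 25600 0, NumIs.V.of 64000 (-28000) (-26000) 0,
      NumIs.V.of 64000 0 2508 0] = true := by
  decide +kernel

theorem bb2 (h0 : 7 / 50 ≤ w) (h1 : w ≤ 2 / 5) (h2 : -(79 / 500) ≤ τ) (h3 : τ ≤ 1 / 250)
    (h4 : -(7 / 16) ≤ σ) (h5 : σ ≤ -(13 / 32)) (h6 : 0 ≤ η) (h7 : η ≤ 627 / 16000) :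
    0 < fA (1397 / 1000) τ σ η + fB (1291 / 10000) ((-720) / 1000) w σ η := by
  have a := blkA kbA2 (τ := τ) (σ := σ) (η := η) (by norm_num) h2 h3
    (by push_cast; linarith only [h4]) (by push_cast; linarith only [h5]) h6 (by push_cast; linarith only [h7]) (by linarith only [h7])
  have b := blkB kbB2 (w := w) (σ := σ) (η := η) (by norm_num)
    (by push_cast; linarith only [h0]) (by push_cast; linarith only [h1])
    (by push_cast; linarith only [h4]) (by push_cast; linarith only [h5]) h6 (by push_cast; linarith only [h7]) (by linarith only [h7])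
    (by linarith only [h0, h4])
  push_cast at a b
  linarith only [a, b]

private theorem kbA3 : chkT (List.map (e7A 1397 6328 1560 2274 2) [1]) 40
    557184
    [NumIs.V.of 64000 (-10112) 256 0, NumIs.V.of 64000 (-26000) (-24000) 0,
      NumIs.V.of 64000 0 3344 0] = true := by
  decide +kernel

private theorem kbB3 : chkT (List.map (e7B 1291 (-720) 6328 1560 2274 2) [(0, 1, 0)]) 40
    2401919700107264
    [NumIs.V.of 64000 8960 25600 0, NumIs.V.of 64000 (-26000) (-24000) 0,
      NumIs.V.of 64000 0 3344 0] = true := by
  decide +kernel

theorem bb3 (h0 : 7 / 50 ≤ w) (h1 : w ≤ 2 / 5) (h2 : -(79 / 500) ≤ τ) (h3 : τ ≤ 1 / 250)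
    (h4 : -(13 / 32) ≤ σ) (h5 : σ ≤ -(3 / 8)) (h6 : 0 ≤ η) (h7 : η ≤ 209 / 4000) :
    0 < fA (1397 / 1000) τ σ η + fB (1291 / 10000) ((-720) / 1000) w σ η := by
  have a := blkA kbA3 (τ := τ) (σ := σ) (η := η) (by norm_num) h2 h3
    (by push_cast; linarith only [h4]) (by push_cast; linarith only [h5]) h6 (by push_cast; linarith only [h7]) (by linarith only [h7])
  have b := blkB kbB3 (w := w) (σ := σ) (η := η) (by norm_num)
    (by push_cast; linarith only [h0]) (by push_cast; linarith only [h1])
    (by push_cast; linarith only [h4]) (by push_cast; linarith only [h5]) h6 (by push_cast; linarith only [h7]) (by linarith only [h7])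
    (by linarith only [h0, h4])
  push_cast at a b
  linarith only [a, b]

private theorem kbA4 : chkT (List.map (e7A 1397 11426 2929 2094 2) [1]) 40
    142770304
    [NumIs.V.of 64000 (-10112) 256 0, NumIs.V.of 64000 (-24000) (-23000) 0,
      NumIs.V.of 64000 0 3762 0] = true := by
  decide +kernel

private theorem kbB4 : chkT (List.map (e7B 1291 (-720) 11426 2929 2094 4) [(0, 1, 0), (0, 2, 0)]) 40
    64755586318120193534254843274932159436080151295549357019825149089180808683027693568
    [NumIs.V.of 64000 8960 25600 0, NumIs.V.of 64000 (-24000) (-23000) 0,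
      NumIs.V.of 64000 0 3762 0] = true := by
  decide +kernel

theorem bb4 (h0 : 7 / 50 ≤ w) (h1 : w ≤ 2 / 5) (h2 : -(79 / 500) ≤ τ) (h3 : τ ≤ 1 / 250)
    (h4 : -(3 / 8) ≤ σ) (h5 : σ ≤ -(23 / 64)) (h6 : 0 ≤ η) (h7 : η ≤ 1881 / 32000) :
    0 < fA (1397 / 1000) τ σ η + fB (1291 / 10000) ((-720) / 1000) w σ η := by
  have a := blkA kbA4 (τ := τ) (σ := σ) (η := η) (by norm_num) h2 h3
    (by push_cast; linarith only [h4]) (by push_cast; linarith only [h5]) h6 (by push_cast; linarith only [h7]) (by linarith only [h7])
  have b := blkB kbB4 (w := w) (σ := σ) (η := η) (by norm_num)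
    (by push_cast; linarith only [h0]) (by push_cast; linarith only [h1])
    (by push_cast; linarith only [h4]) (by push_cast; linarith only [h5]) h6 (by push_cast; linarith only [h7]) (by linarith only [h7])
    (by linarith only [h0, h4])
  push_cast at a b
  linarith only [a, b]

private theorem kbA5 : chkT (List.map (e7A 1397 11390 2921 1670 2) [1]) 40
    2401883822129280
    [NumIs.V.of 64000 (-10112) 256 0, NumIs.V.of 64000 (-23000) (-22000) 0,
      NumIs.V.of 64000 0 4180 0] = true := by
  decide +kernel

theorem kbB5_q1 : Pool.Agent.Work.NumUs.runT (List.map (e7B 1291 (-720) 11390 2921 1670 4) [(0, 2, 0), (0, 1, 0), (0, 0, 0)]) 35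
    120683846450039103056914898557449167213528844313452794667011623315063885155637188465561748165393534830088063262682411197750166087007321151389531262564355424873914111145929785397529233335424467739588055264295918742509358525310340720035382993442031544618021165910491704646242215264285658467246335093450361771471746770194919568907799767448749703300030478236436368640813559924606518246696416011929108211993021111682038097341768249142715853539490052331411063284271108509623782990182693744781698600349471853348405086771899999231059889001360259699681482101383724309512214027870799308796522051554863063127484441899742606510702291702999811467210879374122962248125040789837889528937439959395375550010142405246419712595177303593595164312653545724165337220612335424597256164654554257937372514586775059771293080775343145164791640827872620895399471479858165652163019931111353102690810151902879878542011436711567121550644526961542368536658393514006362945127239939535844445754434243682409385479168086401856848994622799722990578753410461785592392764116218071799471887026091785056347066672555605335696664699954004813598566778792625132398415885521749926571119976518526951199975702825155129733433281777891117502738599968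
    (Pool.Agent.Work.NumIs.setL 2 (Pool.Agent.Work.NumIs.setL 2 (Pool.Agent.Work.NumIs.setL 0 (Pool.Agent.Work.NumIs.setL 0 (Pool.Agent.Work.NumIs.setL 0 ([NumIs.V.of 64000 8960 25600 0, NumIs.V.of 64000 (-23000) (-22000) 0, NumIs.V.of 64000 0 4180 0])))))) =
    640226535511205494703813390228181961686625226614184471294636837921683015100491201961508144435530774644222937445774202345804626234249765459124133338091738601273315163726569860855412969163005770708230607910578400617756829936969745097277600934512711518544611609846305050479144290063898453212554854349465430311281986586995078978166854414810544878918355873597472305330464833621496259137764956397586292628045823386992017864919786662035160504322405174893139010087154544232000591601593994322197127397145317883420097846936061679835662134309055137271814153434195481927961626212271375281082771994381553720287018291456668120595384506797827703518360616269463635094395822186269359508989184923403964116422649174354911934877138622133955763682748326110225879154732145152260607274733215096436843858043326641498652005671624412241374430762844911410499025726985386385393350776680009297919470877579459825697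 := by
  decide +kernel

theorem kbB5_q2 : Pool.Agent.Work.NumUs.runT (List.map (e7B 1291 (-720) 11390 2921 1670 4) [(0, 2, 0), (0, 1, 0), (0, 0, 0)]) 35
    640226535511205494703813390228181961686625226614184471294636837921683015100491201961508144435530774644222937445774202345804626234249765459124133338091738601273315163726569860855412969163005770708230607910578400617756829936969745097277600934512711518544611609846305050479144290063898453212554854349465430311281986586995078978166854414810544878918355873597472305330464833621496259137764956397586292628045823386992017864919786662035160504322405174893139010087154544232000591601593994322197127397145317883420097846936061679835662134309055137271814153434195481927961626212271375281082771994381553720287018291456668120595384506797827703518360616269463635094395822186269359508989184923403964116422649174354911934877138622133955763682748326110225879154732145152260607274733215096436843858043326641498652005671624412241374430762844911410499025726985386385393350776680009297919470877579459825696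
    (Pool.Agent.Work.NumIs.setR 2 (Pool.Agent.Work.NumIs.setL 2 (Pool.Agent.Work.NumIs.setL 0 (Pool.Agent.Work.NumIs.setL 0 (Pool.Agent.Work.NumIs.setL 0 ([NumIs.V.of 64000 8960 25600 0, NumIs.V.of 64000 (-23000) (-22000) 0, NumIs.V.of 64000 0 4180 0])))))) =
    16039022071371488606423622533194246191450131135274503118049311868078730630679685958270308799652314955534354790376346839311808168765678468857899633030906835739327949169891264865255641790218813582553148825028228338564660038075904885854892968235950141892808148107346390635471995970863259581216539708201535762588199461758949254362913083778201662075948549360915885380327641869899597197451447840531851579581726646914892139688108684483693783357048762093893475722023801896090494000972335124381155247837327242786802397068149641342307181589386569999009939427805123528192530353015860684143679661622231555 := by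
  decide +kernel

theorem kbB5_q3 : Pool.Agent.Work.NumUs.runT (List.map (e7B 1291 (-720) 11390 2921 1670 4) [(0, 2, 0), (0, 1, 0), (0, 0, 0)]) 35
    1002438879460718037901476408324640386965633195954656444878081991754920664417480372391894299978269684720897174398521677456988010547854904303618727064431677233707996823118204054078477611888675848909571801564264271160291252379744055365930810514746883868300509256709149414716999748178953723826033731762595985161762466359934328397682067736137603879746784335057242836270477616868724824840715490033240723723857915432180758730506792780230861459815547630868342232626487618505655875060770945273822202989832952674175149816759352583894198849336660624938121214237820220512033147063491292758979978851389472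
    (Pool.Agent.Work.NumIs.setL 2 (Pool.Agent.Work.NumIs.setR 2 (Pool.Agent.Work.NumIs.setL 0 (Pool.Agent.Work.NumIs.setL 0 (Pool.Agent.Work.NumIs.setL 0 ([NumIs.V.of 64000 8960 25600 0, NumIs.V.of 64000 (-23000) (-22000) 0, NumIs.V.of 64000 0 4180 0])))))) =
    25113203563225245199543601961023852430409987313589937325730650426698499414771642401453318414746871186905017140887457212765120543021153706246831455399317586179228240052187015533872913226122668091978200524440120280979302183615321517450942173437923853633494116306463795041759280611346759010499910832161 := by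
  decide +kernel

theorem kbB5_q4 : Pool.Agent.Work.NumUs.runT (List.map (e7B 1291 (-720) 11390 2921 1670 4) [(0, 2, 0), (0, 1, 0), (0, 0, 0)]) 35
    25113203563225245199543601961023852430409987313589937325730650426698499414771642401453318414746871186905017140887457212765120543021153706246831455399317586179228240052187015533872913226122668091978200524440120280979302183615321517450942173437923853633494116306463795041759280611346759010499910832160
    (Pool.Agent.Work.NumIs.setR 2 (Pool.Agent.Work.NumIs.setR 2 (Pool.Agent.Work.NumIs.setL 0 (Pool.Agent.Work.NumIs.setL 0 (Pool.Agent.Work.NumIs.setL 0 ([NumIs.V.of 64000 8960 25600 0, NumIs.V.of 64000 (-23000) (-22000) 0, NumIs.V.of 64000 0 4180 0])))))) =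
    629139 := by
  decide +kernel

theorem kbB5_q5 : Pool.Agent.Work.NumUs.runT (List.map (e7B 1291 (-720) 11390 2921 1670 4) [(0, 2, 0), (0, 1, 0), (0, 0, 0)]) 37
    629138
    (Pool.Agent.Work.NumIs.setR 0 (Pool.Agent.Work.NumIs.setL 0 (Pool.Agent.Work.NumIs.setL 0 ([NumIs.V.of 64000 8960 25600 0, NumIs.V.of 64000 (-23000) (-22000) 0, NumIs.V.of 64000 0 4180 0])))) =
    154 := by
  decide +kernel

theorem kbB5_q6 : Pool.Agent.Work.NumUs.runT (List.map (e7B 1291 (-720) 11390 2921 1670 4) [(0, 2, 0), (0, 1, 0), (0, 0, 0)]) 38
    153
    (Pool.Agent.Work.NumIs.setR 0 (Pool.Agent.Work.NumIs.setL 0 ([NumIs.V.of 64000 8960 25600 0, NumIs.V.of 64000 (-23000) (-22000) 0, NumIs.V.of 64000 0 4180 0]))) =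
    10 := by
  decide +kernel

theorem kbB5_q7 : Pool.Agent.Work.NumUs.runT (List.map (e7B 1291 (-720) 11390 2921 1670 4) [(0, 2, 0), (0, 1, 0), (0, 0, 0)]) 39
    9
    (Pool.Agent.Work.NumIs.setR 0 ([NumIs.V.of 64000 8960 25600 0, NumIs.V.of 64000 (-23000) (-22000) 0, NumIs.V.of 64000 0 4180 0])) =
    1 := by
  decide +kernel

private theorem kbB5 : chkT (List.map (e7B 1291 (-720) 11390 2921 1670 4) [(0, 2, 0), (0, 1, 0), (0, 0, 0)]) 40
    126546184975196202527007596669775817960093221454823077620756379929216428440957420532464875644275691177994421023730472004092078154849788783639429133174681553992589363008954470652999613373926046684506284636814357291345493125035815830851821757731471668929386162065759749691138077112963598612951293066949806544882758341303907981887065048952340168887532758747249501683909719411504204477047941116124576572498794105203104779958241983613072418841024321113461687094367861876587267872713808276128214391560047798096657212266931813593707854169490335674853209775940540101571079336488651256020621906731192091281965126149464503364566166224764730309042115050600359262289962771245054850695105042862965312727435082723669796554200636292957643014305004361262392641440800230182492480108813885570938321855342245074743413467086213784316559572727361328014396206463755906882490787285018191007118945841714171522068184261268206047088635503226250630695111637342736031549740746838737625551401641503526103788204155366913447291385596842334569106936128377289328835025927480855203033410271219607244181783241666420483465884418970551423930758639255690829801335576854451004238700497890916381465722565589865315364536873533956426551630200184832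
    [NumIs.V.of 64000 8960 25600 0, NumIs.V.of 64000 (-23000) (-22000) 0,
      NumIs.V.of 64000 0 4180 0] = true :=
      Pool.Agent.Work.NumUs.chkT_of (Pool.Agent.Work.NumUs.runT_split rfl rfl rfl
        (Pool.Agent.Work.NumUs.runT_split rfl rfl rfl
          (Pool.Agent.Work.NumUs.runT_split rfl rfl rfl
            (Pool.Agent.Work.NumUs.runT_split rfl rfl rfl
              (Pool.Agent.Work.NumUs.runT_split rfl rfl rfl
                kbB5_q1
                kbB5_q2)
              (Pool.Agent.Work.NumUs.runT_split rfl rfl rfl
                kbB5_q3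
                kbB5_q4))
            kbB5_q5)
          kbB5_q6)
        kbB5_q7)

theorem bb5 (h0 : 7 / 50 ≤ w) (h1 : w ≤ 2 / 5) (h2 : -(79 / 500) ≤ τ) (h3 : τ ≤ 1 / 250)
    (h4 : -(23 / 64) ≤ σ) (h5 : σ ≤ -(11 / 32)) (h6 : 0 ≤ η) (h7 : η ≤ 209 / 3200) :
    0 < fA (1397 / 1000) τ σ η + fB (1291 / 10000) ((-720) / 1000) w σ η := by
  have a := blkA kbA5 (τ := τ) (σ := σ) (η := η) (by norm_num) h2 h3
    (by push_cast; linarith only [h4]) (by push_cast; linarith only [h5]) h6 (by push_cast; linarith only [h7]) (by linarith only [h7])
  have b := blkB kbB5 (w := w) (σ := σ) (η := η) (by norm_num)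
    (by push_cast; linarith only [h0]) (by push_cast; linarith only [h1])
    (by push_cast; linarith only [h4]) (by push_cast; linarith only [h5]) h6 (by push_cast; linarith only [h7]) (by linarith only [h7])
    (by linarith only [h0, h4])
  push_cast at a b
  linarith only [a, b]

private theorem kbA6 : chkT (List.map (e7A 1397 9643 2411 1362 2) [1]) 40
    676073033362627222309677047936
    [NumIs.V.of 64000 (-10112) 256 0, NumIs.V.of 64000 (-22000) (-21000) 0,
      NumIs.V.of 64000 0 4598 0] = true := by
  decide +kernel

private theorem kbB6 : chkT (List.map (e7B 1291 (-720) 9643 2411 1362 16) [(0, 1, 0), (0, 2, 0), (0, 0, 0)]) 40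
    18223960489896071907153030517451964710292929003852461974891265814738876988975612158202024845902336
    [NumIs.V.of 64000 8960 25600 0, NumIs.V.of 64000 (-22000) (-21000) 0,
      NumIs.V.of 64000 0 4598 0] = true := by
  decide +kernel

theorem bb6 (h0 : 7 / 50 ≤ w) (h1 : w ≤ 2 / 5) (h2 : -(79 / 500) ≤ τ) (h3 : τ ≤ 1 / 250)
    (h4 : -(11 / 32) ≤ σ) (h5 : σ ≤ -(21 / 64)) (h6 : 0 ≤ η) (h7 : η ≤ 2299 / 32000) :
    0 < fA (1397 / 1000) τ σ η + fB (1291 / 10000) ((-720) / 1000) w σ η := by
  have a := blkA kbA6 (τ := τ) (σ := σ) (η := η) (by norm_num) h2 h3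
    (by push_cast; linarith only [h4]) (by push_cast; linarith only [h5]) h6 (by push_cast; linarith only [h7]) (by linarith only [h7])
  have b := blkB kbB6 (w := w) (σ := σ) (η := η) (by norm_num)
    (by push_cast; linarith only [h0]) (by push_cast; linarith only [h1])
    (by push_cast; linarith only [h4]) (by push_cast; linarith only [h5]) h6 (by push_cast; linarith only [h7]) (by linarith only [h7])
    (by linarith only [h0, h4])
  push_cast at a b
  linarith only [a, b]

private theorem kbA7 : chkT (List.map (e7A 1397 10144 2555 1070 4) [2, 0, 1, 4]) 40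
    29968452556049515604764312217840169631562641187186198344280626946337285449160391077091845549597201430171626699098855637852519731256447557957715969
    [NumIs.V.of 64000 (-10112) 256 0, NumIs.V.of 64000 (-21000) (-20000) 0,
      NumIs.V.of 64000 0 5016 0] = true := by
  decide +kernel

private theorem kbB7 : chkT (List.map (e7B 1291 (-720) 10144 2555 1070 32) [(0, 0, 0), (0, 2, 0), (0, 1, 0)]) 40
    287569216279770534270056280912855913003228101160482732168359182344192
    [NumIs.V.of 64000 8960 25600 0, NumIs.V.of 64000 (-21000) (-20000) 0,
      NumIs.V.of 64000 0 5016 0] = true := by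
  decide +kernel

theorem bb7 (h0 : 7 / 50 ≤ w) (h1 : w ≤ 2 / 5) (h2 : -(79 / 500) ≤ τ) (h3 : τ ≤ 1 / 250)
    (h4 : -(21 / 64) ≤ σ) (h5 : σ ≤ -(5 / 16)) (h6 : 0 ≤ η) (h7 : η ≤ 627 / 8000) :
    0 < fA (1397 / 1000) τ σ η + fB (1291 / 10000) ((-720) / 1000) w σ η := by
  have a := blkA kbA7 (τ := τ) (σ := σ) (η := η) (by norm_num) h2 h3
    (by push_cast; linarith only [h4]) (by push_cast; linarith only [h5]) h6 (by push_cast; linarith only [h7]) (by linarith only [h7])
  have b := blkB kbB7 (w := w) (σ := σ) (η := η) (by norm_num)
    (by push_cast; linarith only [h0]) (by push_cast; linarith only [h1])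
    (by push_cast; linarith only [h4]) (by push_cast; linarith only [h5]) h6 (by push_cast; linarith only [h7]) (by linarith only [h7])
    (by linarith only [h0, h4])
  push_cast at a b
  linarith only [a, b]

private theorem kbA8 : chkT (List.map (e7A 1397 7283 1631 840 2) [0]) 40
    2893107082697678386814671425286598395904
    [NumIs.V.of 64000 (-10112) 256 0, NumIs.V.of 64000 (-20000) (-18000) 0,
      NumIs.V.of 64000 0 5852 0] = true := by
  decide +kernel

private theorem kbB8 : chkT (List.map (e7B 1291 (-720) 7283 1631 840 50) [(0, 0, 0), (0, 2, 0), (0, 1, 0)]) 40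
    88673469885069475575443939346361989363434290541430369894759137360595553780659500505502465400832
    [NumIs.V.of 64000 8960 25600 0, NumIs.V.of 64000 (-20000) (-18000) 0,
      NumIs.V.of 64000 0 5852 0] = true := by
  decide +kernel

theorem bb8 (h0 : 7 / 50 ≤ w) (h1 : w ≤ 2 / 5) (h2 : -(79 / 500) ≤ τ) (h3 : τ ≤ 1 / 250)
    (h4 : -(5 / 16) ≤ σ) (h5 : σ ≤ -(9 / 32)) (h6 : 0 ≤ η) (h7 : η ≤ 1463 / 16000) :
    0 < fA (1397 / 1000) τ σ η + fB (1291 / 10000) ((-720) / 1000) w σ η := by
  have a := blkA kbA8 (τ := τ) (σ := σ) (η := η) (by norm_num) h2 h3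
    (by push_cast; linarith only [h4]) (by push_cast; linarith only [h5]) h6 (by push_cast; linarith only [h7]) (by linarith only [h7])
  have b := blkB kbB8 (w := w) (σ := σ) (η := η) (by norm_num)
    (by push_cast; linarith only [h0]) (by push_cast; linarith only [h1])
    (by push_cast; linarith only [h4]) (by push_cast; linarith only [h5]) h6 (by push_cast; linarith only [h7]) (by linarith only [h7])
    (by linarith only [h0, h4])
  push_cast at a b
  linarith only [a, b]

private theorem kbA9 : chkT (List.map (e7A 1397 6059 1186 698 2) [0]) 40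
    612639254744934400
    [NumIs.V.of 64000 (-10112) 256 0, NumIs.V.of 64000 (-18000) (-16000) 0,
      NumIs.V.of 64000 0 6688 0] = true := by
  decide +kernel

private theorem kbB9 : chkT (List.map (e7B 1291 (-720) 6059 1186 698 50) [(0, 2, 0), (0, 1, 0), (0, 0, 0)]) 40
    54805649527526632828237393871361783590757736448
    [NumIs.V.of 64000 8960 25600 0, NumIs.V.of 64000 (-18000) (-16000) 0,
      NumIs.V.of 64000 0 6688 0] = true := by
  decide +kernel

theorem bb9 (h0 : 7 / 50 ≤ w) (h1 : w ≤ 2 / 5) (h2 : -(79 / 500) ≤ τ) (h3 : τ ≤ 1 / 250)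
    (h4 : -(9 / 32) ≤ σ) (h5 : σ ≤ -(1 / 4)) (h6 : 0 ≤ η) (h7 : η ≤ 209 / 2000) :
    0 < fA (1397 / 1000) τ σ η + fB (1291 / 10000) ((-720) / 1000) w σ η := by
  have a := blkA kbA9 (τ := τ) (σ := σ) (η := η) (by norm_num) h2 h3
    (by push_cast; linarith only [h4]) (by push_cast; linarith only [h5]) h6 (by push_cast; linarith only [h7]) (by linarith only [h7])
  have b := blkB kbB9 (w := w) (σ := σ) (η := η) (by norm_num)
    (by push_cast; linarith only [h0]) (by push_cast; linarith only [h1])
    (by push_cast; linarith only [h4]) (by push_cast; linarith only [h5]) h6 (by push_cast; linarith only [h7]) (by linarith only [h7])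
    (by linarith only [h0, h4])
  push_cast at a b
  linarith only [a, b]

private theorem kbA10 : chkT (List.map (e7A 1397 5419 924 563 2) [0]) 40
    2395320986642432
    [NumIs.V.of 64000 (-10112) 256 0, NumIs.V.of 64000 (-16000) (-12000) 0,
      NumIs.V.of 64000 0 6688 0] = true := by
  decide +kernel

private theorem kbB10 : chkT (List.map (e7B 1291 (-720) 5419 924 563 50) [(0, 2, 0), (0, 1, 0), (0, 0, 0)]) 40
    18646285503602235058818835598893576275023981622524123819167662699084342781223140171776
    [NumIs.V.of 64000 8960 25600 0, NumIs.V.of 64000 (-16000) (-12000) 0,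
      NumIs.V.of 64000 0 6688 0] = true := by
  decide +kernel

theorem bb10 (h0 : 7 / 50 ≤ w) (h1 : w ≤ 2 / 5) (h2 : -(79 / 500) ≤ τ) (h3 : τ ≤ 1 / 250)
    (h4 : -(1 / 4) ≤ σ) (h5 : σ ≤ -(3 / 16)) (h6 : 0 ≤ η) (h7 : η ≤ 209 / 2000) :
    0 < fA (1397 / 1000) τ σ η + fB (1291 / 10000) ((-720) / 1000) w σ η := by
  have a := blkA kbA10 (τ := τ) (σ := σ) (η := η) (by norm_num) h2 h3
    (by push_cast; linarith only [h4]) (by push_cast; linarith only [h5]) h6 (by push_cast; linarith only [h7]) (by linarith only [h7])
  have b := blkB kbB10 (w := w) (σ := σ) (η := η) (by norm_num)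
    (by push_cast; linarith only [h0]) (by push_cast; linarith only [h1])
    (by push_cast; linarith only [h4]) (by push_cast; linarith only [h5]) h6 (by push_cast; linarith only [h7]) (by linarith only [h7])
    (by linarith only [h0, h4])
  push_cast at a b
  linarith only [a, b]

private theorem kbA11 : chkT (List.map (e7A 1397 4779 588 398 2) [0]) 40
    142772256
    [NumIs.V.of 64000 (-10112) 256 0, NumIs.V.of 64000 (-12000) (-8000) 0,
      NumIs.V.of 64000 0 6688 0] = true := by
  decide +kernel

private theorem kbB11 : chkT (List.map (e7B 1291 (-720) 4779 588 398 50) [(0, 2, 0), (0, 1, 0), (0, 0, 0)]) 40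
    65581917141125226963420431299906126546848559216077043009523596128815616
    [NumIs.V.of 64000 8960 25600 0, NumIs.V.of 64000 (-12000) (-8000) 0,
      NumIs.V.of 64000 0 6688 0] = true := by
  decide +kernel

theorem bb11 (h0 : 7 / 50 ≤ w) (h1 : w ≤ 2 / 5) (h2 : -(79 / 500) ≤ τ) (h3 : τ ≤ 1 / 250)
    (h4 : -(3 / 16) ≤ σ) (h5 : σ ≤ -(1 / 8)) (h6 : 0 ≤ η) (h7 : η ≤ 209 / 2000) :
    0 < fA (1397 / 1000) τ σ η + fB (1291 / 10000) ((-720) / 1000) w σ η := by
  have a := blkA kbA11 (τ := τ) (σ := σ) (η := η) (by norm_num) h2 h3
    (by push_cast; linarith only [h4]) (by push_cast; linarith only [h5]) h6 (by push_cast; linarith only [h7]) (by linarith only [h7])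
  have b := blkB kbB11 (w := w) (σ := σ) (η := η) (by norm_num)
    (by push_cast; linarith only [h0]) (by push_cast; linarith only [h1])
    (by push_cast; linarith only [h4]) (by push_cast; linarith only [h5]) h6 (by push_cast; linarith only [h7]) (by linarith only [h7])
    (by linarith only [h0, h4])
  push_cast at a b
  linarith only [a, b]

private theorem kbA12 : chkT (List.map (e7A 1397 4463 311 295 2) [0]) 40
    142772256
    [NumIs.V.of 64000 (-10112) 256 0, NumIs.V.of 64000 (-8000) (-4000) 0,
      NumIs.V.of 64000 0 6688 0] = true := by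
  decide +kernel

private theorem kbB12 : chkT (List.map (e7B 1291 (-720) 4463 311 295 50) [(0, 2, 0), (0, 0, 0)]) 40
    40290105273950241630464
    [NumIs.V.of 64000 8960 25600 0, NumIs.V.of 64000 (-8000) (-4000) 0,
      NumIs.V.of 64000 0 6688 0] = true := by
  decide +kernel

theorem bb12 (h0 : 7 / 50 ≤ w) (h1 : w ≤ 2 / 5) (h2 : -(79 / 500) ≤ τ) (h3 : τ ≤ 1 / 250)
    (h4 : -(1 / 8) ≤ σ) (h5 : σ ≤ -(1 / 16)) (h6 : 0 ≤ η) (h7 : η ≤ 209 / 2000) :
    0 < fA (1397 / 1000) τ σ η + fB (1291 / 10000) ((-720) / 1000) w σ η := by
  have a := blkA kbA12 (τ := τ) (σ := σ) (η := η) (by norm_num) h2 h3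
    (by push_cast; linarith only [h4]) (by push_cast; linarith only [h5]) h6 (by push_cast; linarith only [h7]) (by linarith only [h7])
  have b := blkB kbB12 (w := w) (σ := σ) (η := η) (by norm_num)
    (by push_cast; linarith only [h0]) (by push_cast; linarith only [h1])
    (by push_cast; linarith only [h4]) (by push_cast; linarith only [h5]) h6 (by push_cast; linarith only [h7]) (by linarith only [h7])
    (by linarith only [h0, h4])
  push_cast at a b
  linarith only [a, b]

private theorem kbA13 : chkT (List.map (e7A 1397 4309 (-1) 262 2) [0]) 40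
    557696
    [NumIs.V.of 64000 (-10112) 256 0, NumIs.V.of 64000 (-4000) 0 0,
      NumIs.V.of 64000 0 6688 0] = true := by
  decide +kernel

private theorem kbB13 : chkT (List.map (e7B 1291 (-720) 4309 (-1) 262 2) [(0, 0, 0)]) 40
    2395288362846208
    [NumIs.V.of 64000 8960 25600 0, NumIs.V.of 64000 (-4000) 0 0,
      NumIs.V.of 64000 0 6688 0] = true := by
  decide +kernel

theorem bb13 (h0 : 7 / 50 ≤ w) (h1 : w ≤ 2 / 5) (h2 : -(79 / 500) ≤ τ) (h3 : τ ≤ 1 / 250)
    (h4 : -(1 / 16) ≤ σ) (h5 : σ ≤ 0 / 1) (h6 : 0 ≤ η) (h7 : η ≤ 209 / 2000) :
    0 < fA (1397 / 1000) τ σ η + fB (1291 / 10000) ((-720) / 1000) w σ η := by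
  have a := blkA kbA13 (τ := τ) (σ := σ) (η := η) (by norm_num) h2 h3
    (by push_cast; linarith only [h4]) (by push_cast; linarith only [h5]) h6 (by push_cast; linarith only [h7]) (by linarith only [h7])
  have b := blkB kbB13 (w := w) (σ := σ) (η := η) (by norm_num)
    (by push_cast; linarith only [h0]) (by push_cast; linarith only [h1])
    (by push_cast; linarith only [h4]) (by push_cast; linarith only [h5]) h6 (by push_cast; linarith only [h7]) (by linarith only [h7])
    (by linarith only [h0, h4])
  push_cast at a b
  linarith only [a, b]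

private theorem kbA14 : chkT (List.map (e7A 1397 4371 (-215) 174 2) [0]) 40
    142772256
    [NumIs.V.of 64000 (-10112) 256 0, NumIs.V.of 64000 0 4000 0,
      NumIs.V.of 64000 0 6688 0] = true := by
  decide +kernel

private theorem kbB14 : chkT (List.map (e7B 1291 (-720) 4371 (-215) 174 2) [(0, 0, 0)]) 40
    613193820888639488
    [NumIs.V.of 64000 8960 25600 0, NumIs.V.of 64000 0 4000 0,
      NumIs.V.of 64000 0 6688 0] = true := by
  decide +kernel

theorem bb14 (h0 : 7 / 50 ≤ w) (h1 : w ≤ 2 / 5) (h2 : -(79 / 500) ≤ τ) (h3 : τ ≤ 1 / 250)
    (h4 : 0 / 1 ≤ σ) (h5 : σ ≤ 1 / 16) (h6 : 0 ≤ η) (h7 : η ≤ 209 / 2000) :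
    0 < fA (1397 / 1000) τ σ η + fB (1291 / 10000) ((-720) / 1000) w σ η := by
  have a := blkA kbA14 (τ := τ) (σ := σ) (η := η) (by norm_num) h2 h3
    (by push_cast; linarith only [h4]) (by push_cast; linarith only [h5]) h6 (by push_cast; linarith only [h7]) (by linarith only [h7])
  have b := blkB kbB14 (w := w) (σ := σ) (η := η) (by norm_num)
    (by push_cast; linarith only [h0]) (by push_cast; linarith only [h1])
    (by push_cast; linarith only [h4]) (by push_cast; linarith only [h5]) h6 (by push_cast; linarith only [h7]) (by linarith only [h7])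
    (by linarith only [h0, h4])
  push_cast at a b
  linarith only [a, b]

private theorem kbA15 : chkT (List.map (e7A 1397 4586 (-471) 85 2) [0]) 40
    36549691424
    [NumIs.V.of 64000 (-10112) 256 0, NumIs.V.of 64000 4000 8000 0,
      NumIs.V.of 64000 0 6688 0] = true := by
  decide +kernel

private theorem kbB15 : chkT (List.map (e7B 1291 (-720) 4586 (-471) 85 50) [(0, 0, 0), (0, 0, 2)]) 40
    194154058605667973463431633731584
    [NumIs.V.of 64000 8960 25600 0, NumIs.V.of 64000 4000 8000 0,
      NumIs.V.of 64000 0 6688 0] = true := by
  decide +kernel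

theorem bb15 (h0 : 7 / 50 ≤ w) (h1 : w ≤ 2 / 5) (h2 : -(79 / 500) ≤ τ) (h3 : τ ≤ 1 / 250)
    (h4 : 1 / 16 ≤ σ) (h5 : σ ≤ 1 / 8) (h6 : 0 ≤ η) (h7 : η ≤ 209 / 2000) :
    0 < fA (1397 / 1000) τ σ η + fB (1291 / 10000) ((-720) / 1000) w σ η := by
  have a := blkA kbA15 (τ := τ) (σ := σ) (η := η) (by norm_num) h2 h3
    (by push_cast; linarith only [h4]) (by push_cast; linarith only [h5]) h6 (by push_cast; linarith only [h7]) (by linarith only [h7])
  have b := blkB kbB15 (w := w) (σ := σ) (η := η) (by norm_num)
    (by push_cast; linarith only [h0]) (by push_cast; linarith only [h1])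
    (by push_cast; linarith only [h4]) (by push_cast; linarith only [h5]) h6 (by push_cast; linarith only [h7]) (by linarith only [h7])
    (by linarith only [h0, h4])
  push_cast at a b
  linarith only [a, b]

end TL

end Pool.Agent.Work.MP_b30479_gtS.G2
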