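import Pool.Agent.Work.MP_b30479_gt.TBS.G2.TE2

/-!
# Tails: the change of the value of an untouched region, rows E5

`E5a`, `E5b` of the list of E rows.
-/

set_option deprecated.oldSectionVars true

namespace Pool.Agent.Work.MP_b30479_gtS.G2

open VOL NumUs

namespace TL

namespace E5

section
open NumIs (V)
open NumUs NumUs.E
open E3 (head1 app_no lk0 lk1 lk2 lk3)

/-- the difference of the two values without `UU w`, `b` is the value at `1 - X + w`;
the variables are `_ τ X Y` -/
def fg (w b : E) : E :=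
  sub (sub (sub (neg (mul pi (add (mul (sub (q 3 20) w) (var 3)) (mul (var 1) (var 2)))))
    (E.uu (sub (var 2) (q 3 20)) (sub (var 1) (var 3)))) (E.uu (q 3 20) (var 1))) b

def lin (w a : E) (n : ℤ) (d : ℕ) (wn : ℤ) (wd : ℕ) (t : ℤ) (td : ℕ) : E :=
  add a (add (q n d) (add (mul (q wn wd) w) (mul (q t td) (var 1))))

def vioL : List E :=
  [sub (var 3) (mul (q 1 10) (sub (q 8 10) (var 2))),
   sub (mul (q (-246) 100) (sub (q 8 10) (var 2))) (var 3)]

def wv : E := sub (var 2) (var 0)
def vw : List E := [sub (q 4 25) wv, sub wv (q 2 5)]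
def fb0 : E := neg (E.uu (sub (var 2) (var 0)) (var 3))
def fb1 : E := neg (E.uu (var 0) (var 3))
def fb2 : E := neg (E.uu (q 2 1000) (var 3))
def fb3p : E := add (E.uu (neg (var 0)) (var 3)) (mul pi (var 3))
def fb3n : E := sub (E.uu (neg (var 0)) (var 3)) (mul pi (var 3))

/-- the row with `w ≤ 4/25` -/
def A5 (b : E) : E := lin (var 0) (fg (var 0) b) (-62) 625 227 1000 851 1000
/-- the row with `4/25 ≤ w`, the variable number 0 is `X - w` -/
def B5 (b : E) : E := lin wv (fg wv b) (-1289) 5000 553 500 113 200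

def esa : List E := A5 fb0 :: vioL
def esb (b : E) : List E := B5 b :: (vioL ++ vw)


set_option linter.defProp false in
def ra1 : chkT esa 30 473449835532129052532968921914520228606047787482193159392517656014200522587463765407248545172672730023239440452036904183500205102590263443964940513008205189212551699465135108875799098499871907374314411829879705520137992182563500876156852380410533750749486601170837671335538645465309010418163636091586629922619825378663289956758218481698
    [V.of 1000 0 160 0, V.of 1000 (-115) 22 0, V.of 1000 200 800 0, V.of 1000 (-123) 5 0] = true := by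
  decide +kernel

set_option linter.defProp false in
def rb1 : chkT (esb fb1) 30 137334006125583743198499015866996891858091834432741141778007002893190314581528562208421873437863010209815275927310777102871899205711978264275446921319979036851201501078804651451435706522183646122161870915984655223523608228052245577289293516329515944899140556513102045673250427121565474158872855587583215409008597593814386703875161158052589185930737301032195648634956018768801640446276365429875576093312708268054037432791516125411428713491117281798046646136877424975763851168786321836351381572175065914830111053627313198092033699200789411541006272489287369617132220890136944056515822935002257535019807908509268643973024351120636716266580411788156488537790044478411429258767820702052970244625845274223321120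
    [V.of 1000 2 640 0, V.of 1000 (-115) 22 0, V.of 1000 200 800 0, V.of 1000 (-123) 5 0] = true := by
  decide +kernel

set_option linter.defProp false in
def rb2 : chkT (esb fb2) 30 44206153140317432040598741798031907
    [V.of 1000 (-2) 2 0, V.of 1000 (-115) 22 0, V.of 1000 200 402 0, V.of 1000 (-123) 5 0] = true := by
  decide +kernel

set_option linter.defProp false in
def rb3p : chkT (esb fb3p) 30 2631264872025581165045909536
    [V.of 1000 (-200) (-2) 0, V.of 1000 (-115) 22 0, V.of 1000 200 398 0, V.of 1000 0 5 0] = true := by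
  decide +kernel

set_option linter.defProp false in
def rb3n : chkT (esb fb3n) 30 103820033070590472811905115817844560498989086093452318227025259870340243223822369010384009279450032013902857875477110155172799300060690040099616
    [V.of 1000 (-200) (-2) 0, V.of 1000 (-115) 22 0, V.of 1000 200 398 0, V.of 1000 (-123) 0 0] = true := by
  decide +kernel

theorem A5_val (b : E) (w τ X Y : ℝ) : (A5 b).val [w, τ, X, Y] =
    -(Real.pi * ((3 / 20 - w) * Y + τ * X)) - uu (X - 3 / 20) (τ - Y) - uu (3 / 20) τ -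
      b.val [w, τ, X, Y] - 62 / 625 + 227 / 1000 * w + 851 / 1000 * τ := by
  simp only [A5, lin, fg, val, lk0, lk1, lk2, lk3]
  norm_num
  ring

theorem B5_val (b : E) (s τ X Y : ℝ) : (B5 b).val [s, τ, X, Y] =
    -(Real.pi * ((3 / 20 - (X - s)) * Y + τ * X)) - uu (X - 3 / 20) (τ - Y) - uu (3 / 20) τ -
      b.val [s, τ, X, Y] - 1289 / 5000 + 553 / 500 * (X - s) + 113 / 200 * τ := by
  simp only [B5, lin, fg, wv, val, lk0, lk1, lk2, lk3]
  norm_num
  ring

theorem vioL_no {X Y : ℝ} (hG : RgL X Y) (s τ : ℝ) : ∀ e ∈ vioL, ¬ 0 < e.val [s, τ, X, Y] := by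
  obtain ⟨g1, g2, g3, g4, g5, g6⟩ := hG
  intro e he hp
  simp only [vioL, List.mem_cons, List.not_mem_nil, or_false] at he
  rcases he with rfl | rfl
  all_goals
    simp only [val, lk2, lk3] at hp
    norm_num at hp
    linarith only [g4, hp, g6]

theorem vw_no {s X : ℝ} (h0 : 4 / 25 ≤ X - s) (h1 : X - s ≤ 2 / 5) (τ Y : ℝ) :
    ∀ e ∈ vw, ¬ 0 < e.val [s, τ, X, Y] := by
  intro e he hp
  simp only [vw, wv, List.mem_cons, List.not_mem_nil, or_false] at he
  rcases he with rfl | rfl
  all_goals
    simp only [val, lk0, lk2] at hp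
    norm_num at hp
    linarith only [h0, hp, h1]

end

/-- the difference of the two values -/
theorem V1_sub' (τ w X Y : ℝ) : V1 ⟨3 / 20, τ⟩ ⟨1 - X, -Y⟩ - V1 ⟨w, 0⟩ ⟨1 - X, -Y⟩ =
    -(Real.pi * ((3 / 20 - w) * Y + τ * X)) - uu (X - 3 / 20) (τ - Y) - uu (3 / 20) τ -
      uu (1 - (X - w)) Y + UU ⟨w, 0⟩ := by
  rw [E3.V1_sub, uu_neg]
  have e1 : 3 / 20 + (1 - X) = 1 - (X - 3 / 20) := by ring
  have e2 : w + (1 - X) = 1 - (X - w) := by ring
  rw [e1, e2, uu_one_sub, ← sub_eq_add_neg]
  ring

theorem fin_a {w τ X Y : ℝ} (h : 0 < (A5 fb0).val [w, τ, X, Y]) :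
    UU ⟨w, 0⟩ + 62 / 625 - 227 / 1000 * w - 851 / 1000 * τ ≤
      V1 ⟨3 / 20, τ⟩ ⟨1 - X, -Y⟩ - V1 ⟨w, 0⟩ ⟨1 - X, -Y⟩ := by
  rw [A5_val] at h
  rw [V1_sub', uu_one_sub]
  simp only [fb0, E.val, E3.lk0, E3.lk2, E3.lk3] at h
  linarith only [h]

theorem fin_b {b : E} {s τ X Y : ℝ} (h : 0 < (B5 b).val [s, τ, X, Y])
    (hb : uu (1 - s) Y ≤ b.val [s, τ, X, Y]) :
    UU ⟨X - s, 0⟩ + 1289 / 5000 - 553 / 500 * (X - s) - 113 / 200 * τ ≤
      V1 ⟨3 / 20, τ⟩ ⟨1 - X, -Y⟩ - V1 ⟨X - s, 0⟩ ⟨1 - X, -Y⟩ := by
  rw [B5_val] at h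
  rw [V1_sub']
  have e : X - (X - s) = s := by ring
  rw [e]
  linarith only [h, hb]

theorem fb1_val (s τ X Y : ℝ) : fb1.val [s, τ, X, Y] = uu (1 - s) Y := by
  rw [uu_one_sub]
  simp only [fb1, E.val, E3.lk0, E3.lk3]

theorem fb2_ge {s τ X Y : ℝ} (h0 : |s| ≤ 2 / 1000) (hY : |Y| ≤ 13 / 100) :
    uu (1 - s) Y ≤ fb2.val [s, τ, X, Y] := by
  obtain ⟨h1, h2⟩ := abs_le.1 h0
  have h := UA.anti1 UA.kc_7_13 (by norm_num) (a := 1 - 2 / 1000) (b := 1 - s) (y := Y)
    (by norm_num) (by linarith only [h2]) (by linarith only [h1]) hY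
  rw [uu_one_sub (2 / 1000)] at h
  simp only [fb2, E.val, E3.lk3]
  norm_num at h ⊢
  exact h

theorem one_sub_eq (s Y : ℝ) : uu (1 - s) Y = uu (-s) Y + Real.pi * |Y| := by
  have e : 1 - s = -s + 1 := by ring
  rw [e, uu_add_one]

theorem fb3p_val {s τ X Y : ℝ} (hY : 0 ≤ Y) : fb3p.val [s, τ, X, Y] = uu (1 - s) Y := by
  rw [one_sub_eq, abs_of_nonneg hY]
  simp only [fb3p, E.val, E3.lk0, E3.lk3]

theorem fb3n_val {s τ X Y : ℝ} (hY : Y ≤ 0) : fb3n.val [s, τ, X, Y] = uu (1 - s) Y := by
  rw [one_sub_eq, abs_of_nonpos hY]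
  simp only [fb3n, E.val, E3.lk0, E3.lk3]
  ring

end E5

open E5

/-- margin .0083 -/
theorem E5a {w τ X Y : ℝ} (h0 : 0 ≤ w) (h1 : w ≤ 4 / 25) (h2 : -(229 / 2000) ≤ τ)
    (h3 : τ ≤ 11 / 500) (hG : RgL X Y) :
    UU ⟨w, 0⟩ + 62 / 625 - 227 / 1000 * w - 851 / 1000 * τ ≤
      V1 ⟨3 / 20, τ⟩ ⟨1 - X, -Y⟩ - V1 ⟨w, 0⟩ ⟨1 - X, -Y⟩ := by
  have hG' := hG
  obtain ⟨g1, g2, g3, g4, g5, g6⟩ := hG
  exact fin_a (E3.head1 (chkT4 ra1 (by norm_num) (x := w) (y := τ) (z := X) (w := Y)
    (by push_cast; linarith only [h0])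
    (by push_cast; linarith only [h1]) (by push_cast; linarith only [h2]) (by push_cast; linarith only [h3])
    (by push_cast; linarith only [g1]) (by push_cast; linarith only [g2]) (by push_cast; linarith only [g5])
    (by push_cast; linarith only [g3])) (vioL_no hG' w τ))

/-- margin .0216 -/
theorem E5b {w τ X Y : ℝ} (h0 : 4 / 25 ≤ w) (h1 : w ≤ 2 / 5) (h2 : -(229 / 2000) ≤ τ)
    (h3 : τ ≤ 11 / 500) (hG : RgL X Y) :
    UU ⟨w, 0⟩ + 1289 / 5000 - 553 / 500 * w - 113 / 200 * τ ≤
      V1 ⟨3 / 20, τ⟩ ⟨1 - X, -Y⟩ - V1 ⟨w, 0⟩ ⟨1 - X, -Y⟩ := by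
  obtain ⟨s, hs⟩ : ∃ s, s = X - w := ⟨_, rfl⟩
  have hw : w = X - s := by linarith only [hs]
  have hn := E3.app_no (vioL_no hG s τ) (vw_no (s := s) (X := X) (by linarith only [h0, hs]) (by linarith only [h1, hs]) τ Y)
  rw [hw]
  obtain ⟨g1, g2, g3, g4, g5, g6⟩ := hG
  rcases le_total (2 / 1000) s with c | c
  · exact fin_b (E3.head1 (chkT4 rb1 (by norm_num) (x := s) (y := τ) (z := X) (w := Y)
      (by push_cast; linarith only [c])
      (by push_cast; linarith only [h0, hs, g2]) (by push_cast; linarith only [h2]) (by push_cast; linarith only [h3])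
      (by push_cast; linarith only [g1]) (by push_cast; linarith only [g2]) (by push_cast; linarith only [g5])
      (by push_cast; linarith only [g3])) hn) (fb1_val _ _ _ _).ge
  rcases le_total (-(2 / 1000)) s with c1 | c1
  · exact fin_b (E3.head1 (chkT4 rb2 (by norm_num) (x := s) (y := τ) (z := X) (w := Y)
      (by push_cast; linarith only [c1])
      (by push_cast; linarith only [c]) (by push_cast; linarith only [h2]) (by push_cast; linarith only [h3])
      (by push_cast; linarith only [g1]) (by push_cast; linarith only [h1, hs, c]) (by push_cast; linarith only [g5])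
      (by push_cast; linarith only [g3])) hn) (fb2_ge (abs_le.2 ⟨c1, c⟩) (by rw [abs_le]; constructor <;> linarith only [g5, g3]))
  rcases le_total 0 Y with d | d
  · exact fin_b (E3.head1 (chkT4 rb3p (by norm_num) (x := s) (y := τ) (z := X) (w := Y)
      (by push_cast; linarith only [h1, hs, g1])
      (by push_cast; linarith only [c1]) (by push_cast; linarith only [h2]) (by push_cast; linarith only [h3])
      (by push_cast; linarith only [g1]) (by push_cast; linarith only [h1, hs, c1]) (by push_cast; linarith only [d])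
      (by push_cast; linarith only [g3])) hn) (fb3p_val d).ge
  · exact fin_b (E3.head1 (chkT4 rb3n (by norm_num) (x := s) (y := τ) (z := X) (w := Y)
      (by push_cast; linarith only [h1, hs, g1])
      (by push_cast; linarith only [c1]) (by push_cast; linarith only [h2]) (by push_cast; linarith only [h3])
      (by push_cast; linarith only [g1]) (by push_cast; linarith only [h1, hs, c1]) (by push_cast; linarith only [g5])
      (by push_cast; linarith only [d])) hn) (fb3n_val d).ge

end TL

end Pool.Agent.Work.MP_b30479_gtS.G2
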