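import Pool.Agent.Work.MP_b30479_gt.TBS.G2.TK1t
import Pool.Agent.Work.MP_b30479_gt.TBS.G2.RngKd
import Pool.Agent.Work.MP_b30479_gt.TBS.G2.WLocX
import Pool.Agent.Work.MP_b30479_gt.TBS.G2.TK2a
import Pool.Agent.Work.MP_b30479_gt.TBS.G2.MPRun
import Pool.Agent.Work.MP_b30479_gt.TBS.G2.TDef3
import Pool.Agent.Work.MP_b30479_gt.TBS.NumU.Node

section

/-!
# Tails, sides of a digit `1`: the rows `K1`
-/

set_option deprecated.oldSectionVars true

namespace Pool.Agent.Work.MP_b30479_gtS.G2

open VOL SR NumUs

namespace TL

/-! ### the digit `1` next to the class `one` -/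

open NumIs (V) in
theorem k1n_one_one_a1 : chk [nE1 42 18 245 31416 1800, s0E (-850), s1E 600] 30
    [V.of 10000 (-800) (560) 0, V.of 10000 (-800) (560) 0] = true := by decide +kernel

theorem k1o_one_one_a1_8000 : oldOK1 8000 (-110) (0) (1540) 1 0 1800 50 = true := by decide +kernel

open NumIs (V) in
theorem k1n_one_one_a2 : chk [nE1 42 18 245 16420 2713, s0E (-850), s1E 600] 30
    [V.of 10000 (-800) (560) 0, V.of 10000 (-800) (560) 0] = true := by decide +kernel

theorem k1o_one_one_a2_8000 : oldOK1 8000 (-326) (779) (2453) 2 0 1800 50 = true := by decide +kernel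

open NumIs (V) in
theorem k1n_one_one_b1 : chk [nE1 42 18 245 18490 2290, s0E (-850), s1E 600] 30
    [V.of 10000 (-800) (560) 0, V.of 10000 (-800) (560) 0] = true := by decide +kernel

theorem k1o_one_one_b1_8000 : oldOK1 8000 (2624) (-921) (2030) 2 1800 10000 200 = true := by decide +kernel

open NumIs (V) in
theorem k1n_one_one_b2 : chk [nE1 42 18 245 26180 1950, s0E (-850), s1E 600] 30
    [V.of 10000 (-800) (560) 0, V.of 10000 (-800) (560) 0] = true := by decide +kernel

theorem k1o_one_one_b2_8000 : oldOK1 8000 (2902) (-1021) (1690) 2 1800 10000 200 = true := by decide +kernel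

open NumIs (V) in
theorem k1n_one_two : chk [nE1 42 25 245 15710 2540, s0E (-490), s1E 950] 30
    [V.of 10000 (-800) (540) 0, V.of 10000 (-180) (790) 0] = true := by decide +kernel

theorem k1o_one_two_8000 : oldOK1 8000 (848) (-148) (2795) 2 0 10000 200 = true := by decide +kernel

theorem k1o_one_two_8600 : oldOK1 8600 (848) (-148) (2490) 2 0 10000 200 = true := by decide +kernel

open NumIs (V) in
theorem k1n_one_twoE : chk [nE1 42 22 245 22620 2120, s0E (-560), s1E 370] 30
    [V.of 10000 (-330) (800) 0, V.of 10000 (-660) (-160) 0] = true := by decide +kernel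

theorem k1o_one_twoE_8000 : oldOK1 8000 (1545) (0) (2375) 2 0 10000 200 = true := by decide +kernel

theorem k1o_one_twoE_8600 : oldOK1 8600 (1545) (0) (2070) 2 0 10000 200 = true := by decide +kernel

open NumIs (V) in
theorem k1n_one_threeA_a : chk [nE1 42 15 245 8510 1939, s0E (-220), s1E 1110] 30
    [V.of 10000 (-800) (490) 0, V.of 10000 (210) (920) 0] = true := by decide +kernel

theorem k1o_one_threeA_a_8000 : oldOK1 8000 (992) (-227) (2194) 2 0 1600 50 = true := by decide +kernel

theorem k1o_one_threeA_a_8600 : oldOK1 8600 (992) (-227) (1889) 2 0 1600 50 = true := by decide +kernel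

open NumIs (V) in
theorem k1n_one_threeA_b : chk [nE1 42 15 245 5650 1627, s0E (-220), s1E 1110] 30
    [V.of 10000 (-800) (490) 0, V.of 10000 (210) (920) 0] = true := by decide +kernel

theorem k1o_one_threeA_b_8000 : oldOK1 8000 (2578) (-1106) (1882) 2 1600 10000 50 = true := by decide +kernel

open NumIs (V) in
theorem k1n_one_threeK : chk [nE1 42 18 245 14120 2533, s0E (-220), s1E 1110] 30
    [V.of 10000 (-800) (490) 0, V.of 10000 (210) (920) 0] = true := by decide +kernel

theorem k1o_one_threeK_8000 : oldOK1 8000 (112) (97) (2788) 2 0 10000 50 = true := by decide +kernel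

theorem k1o_one_threeK_8600 : oldOK1 8600 (112) (97) (2483) 2 0 10000 50 = true := by decide +kernel

open NumIs (V) in
theorem k1n_one_threeE : chk [nE1 42 22 245 12150 2150, s0E (-110), s1E 1010] 30
    [V.of 10000 (-610) (650) 0, V.of 10000 (100) (580) 0] = true := by decide +kernel

theorem k1o_one_threeE_8000 : oldOK1 8000 (1345) (0) (2405) 2 0 10000 200 = true := by decide +kernel

theorem k1o_one_threeE_8600 : oldOK1 8600 (1345) (0) (2100) 2 0 10000 200 = true := by decide +kernel

open NumIs (V) in
theorem k1n_one_ring_a : chk [nE1 42 18 245 16780 2681, s0E (-100), s1E 1430] 30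
    [V.of 10000 (-800) (510) 0, V.of 10000 (380) (1360) 0] = true := by decide +kernel

theorem k1o_one_ring_a_8000 : oldOK1 8000 (-536) (543) (2936) 2 0 1400 50 = true := by decide +kernel

theorem k1o_one_ring_a_8600 : oldOK1 8600 (-536) (543) (2631) 2 0 1400 50 = true := by decide +kernel

open NumIs (V) in
theorem k1n_one_ring_b : chk [nE1 42 18 245 13970 2460, s0E (-100), s1E 1430] 30
    [V.of 10000 (-800) (510) 0, V.of 10000 (380) (1360) 0] = true := by decide +kernel

theorem k1o_one_ring_b_8000 : oldOK1 8000 (1291) (-720) (2715) 2 1400 10000 50 = true := by decide +kernel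

theorem k1o_one_ring_b_8600 : oldOK1 8600 (1291) (-720) (2410) 2 1400 10000 50 = true := by decide +kernel

open NumIs (V) in
theorem k1n_one_touched_one : chk [nE1 42 20 245 23600 2220, s0E (-850), s1E 600] 30
    [V.of 10000 (-800) (560) 0, V.of 10000 (-800) (560) 0] = true := by decide +kernel

theorem k1o_one_touched_one_8000 : oldOK1 8000 (0) (0) (1960) 1 0 10000 200 = true := by decide +kernel

open NumIs (V) in
theorem k1n_one_touched_two : chk [nE1 42 20 245 23600 2140, s0E (-490), s1E 950] 30
    [V.of 10000 (-800) (540) 0, V.of 10000 (-180) (790) 0] = true := by decide +kernel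

theorem k1o_one_touched_two_8000 : oldOK1 8000 (0) (0) (2395) 1 0 10000 200 = true := by decide +kernel

theorem k1o_one_touched_two_8600 : oldOK1 8600 (0) (0) (2090) 1 0 10000 200 = true := by decide +kernel

open NumIs (V) in
theorem k1n_one_touched_twoE : chk [nE1 42 20 245 23600 2030, s0E (-560), s1E 370] 30
    [V.of 10000 (-330) (800) 0, V.of 10000 (-660) (-160) 0] = true := by decide +kernel

theorem k1o_one_touched_twoE_8000 : oldOK1 8000 (0) (0) (2285) 1 0 10000 200 = true := by decide +kernel

theorem k1o_one_touched_twoE_8600 : oldOK1 8600 (0) (0) (1980) 1 0 10000 200 = true := by decide +kernel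

open NumIs (V) in
theorem k1n_one_touched_three : chk [nE1 42 20 245 23600 2270, s0E (-220), s1E 1110] 30
    [V.of 10000 (-800) (490) 0, V.of 10000 (210) (920) 0] = true := by decide +kernel

theorem k1o_one_touched_three_8000 : oldOK1 8000 (0) (0) (2525) 1 0 10000 200 = true := by decide +kernel

theorem k1o_one_touched_three_8600 : oldOK1 8600 (0) (0) (2220) 1 0 10000 200 = true := by decide +kernel

open NumIs (V) in
theorem k1n_one_touched_threeE : chk [nE1 42 20 245 23600 2230, s0E (-110), s1E 1010] 30
    [V.of 10000 (-610) (650) 0, V.of 10000 (100) (580) 0] = true := by decide +kernel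

theorem k1o_one_touched_threeE_8000 : oldOK1 8000 (0) (0) (2485) 1 0 10000 200 = true := by decide +kernel

theorem k1o_one_touched_threeE_8600 : oldOK1 8600 (0) (0) (2180) 1 0 10000 200 = true := by decide +kernel

open NumIs (V) in
theorem k1n_one_touched_ring : chk [nE1 42 20 245 23600 2350, s0E (-100), s1E 1430] 30
    [V.of 10000 (-800) (510) 0, V.of 10000 (380) (1360) 0] = true := by decide +kernel

theorem k1o_one_touched_ring_8000 : oldOK1 8000 (0) (0) (2605) 1 0 10000 200 = true := by decide +kernel

theorem k1o_one_touched_ring_8600 : oldOK1 8600 (0) (0) (2300) 1 0 10000 200 = true := by decide +kernel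

theorem side_one_one {Cc : Cl} {C : Ct} (hC : C.ok Cc) {x w t k G : ℝ}
    (hx : X0 .one .one ≤ x) (hw : 0 ≤ w) (hxw : x + w ≤ 1)
    (t0 : (cw Cc .one).t0 ≤ t) (t1 : t ≤ (cw Cc .one).t1)
    (s0 : (cw Cc .one).s0 ≤ t + k) (s1 : t + k ≤ (cw Cc .one).s1)
    (k0 : (cw .one Cc).t0 ≤ k) (k1 : k ≤ (cw .one Cc).t1)
    (hbig : ¬ (big .one ∧ big Cc)) (hB : -(2 / 25) ≤ t) (hCo : Cc = .one → -(2 / 25) ≤ k)
    (hE : EB .one C w (-k) G) :
    al .one .one Cc x ≤ V1 ⟨cT .one .one, t⟩ ⟨cN C, k⟩ - V1 ⟨x, 0⟩ ⟨w, 0⟩ + G +
      be .one .one * t := by
  have e1 : cT .one .one = 42 / 100 := rfl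
  have e2 : be .one .one = 245 / 100 := rfl
  have e3 : X0 .one .one = 80 / 100 := rfl
  rw [e1, e2]
  rw [e3] at hx
  have hw1 : w ≤ 1 := by linarith only [hx, hxw]
  cases C with
  | one =>
    have hC : Cc = .one := hC
    subst hC
    have hCo := hCo rfl
    simp only [cw] at t0 t1 s0 s1 k0 k1
    simp only [EB] at hE
    simp only [cN]
    rcases le_total w (9 / 50) with h | h
    · rcases hE.1 h with hE | hE
      · rw [show al .one .one .one x = 26 / 1000 from rfl]
        exact k1_gen k1n_one_one_a1 k1o_one_one_a1_8000 (by norm_num) (by norm_num) (by norm_num)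
            (by norm_num) (by norm_num) (by norm_num) (by norm_num) (by norm_num)
            (by norm_num; linarith only [hx]) hw (by norm_num; linarith only [hw]) (by norm_num; linarith only [h]) hxw
            (by norm_num; linarith only [hB]) (by norm_num; linarith only [t1]) (by norm_num; linarith only [hCo])
            (by norm_num; linarith only [k1]) (by norm_num; linarith only [s0]) (by norm_num; linarith only [s1])
            (by norm_num; linarith only [hE])
      · rw [show al .one .one .one x = 26 / 1000 from rfl]
        exact k1_gen k1n_one_one_a2 k1o_one_one_a2_8000 (by norm_num) (by norm_num) (by norm_num)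
            (by norm_num) (by norm_num) (by norm_num) (by norm_num) (by norm_num)
            (by norm_num; linarith only [hx]) hw (by norm_num; linarith only [hw]) (by norm_num; linarith only [h]) hxw
            (by norm_num; linarith only [hB]) (by norm_num; linarith only [t1]) (by norm_num; linarith only [hCo])
            (by norm_num; linarith only [k1]) (by norm_num; linarith only [s0]) (by norm_num; linarith only [s1])
            (by norm_num; linarith only [hE])
    · rcases hE.2 h with hE | hE
      · rw [show al .one .one .one x = 26 / 1000 from rfl]
        exact k1_gen k1n_one_one_b1 k1o_one_one_b1_8000 (by norm_num) (by norm_num) (by norm_num)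
            (by norm_num) (by norm_num) (by norm_num) (by norm_num) (by norm_num)
            (by norm_num; linarith only [hx]) hw (by norm_num; linarith only [h]) (by norm_num; linarith only [hx, hxw]) hxw
            (by norm_num; linarith only [hB]) (by norm_num; linarith only [t1]) (by norm_num; linarith only [hCo])
            (by norm_num; linarith only [k1]) (by norm_num; linarith only [s0]) (by norm_num; linarith only [s1])
            (by norm_num; linarith only [hE])
      · rw [show al .one .one .one x = 26 / 1000 from rfl]
        exact k1_gen k1n_one_one_b2 k1o_one_one_b2_8000 (by norm_num) (by norm_num) (by norm_num)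
            (by norm_num) (by norm_num) (by norm_num) (by norm_num) (by norm_num)
            (by norm_num; linarith only [hx]) hw (by norm_num; linarith only [h]) (by norm_num; linarith only [hx, hxw]) hxw
            (by norm_num; linarith only [hB]) (by norm_num; linarith only [t1]) (by norm_num; linarith only [hCo])
            (by norm_num; linarith only [k1]) (by norm_num; linarith only [s0]) (by norm_num; linarith only [s1])
            (by norm_num; linarith only [hE])
  | two =>
    have hC : Cc = .two := hC
    subst hC
    simp only [cw] at t0 t1 s0 s1 k0 k1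
    simp only [EB] at hE
    simp only [cN]
    rw [show al .one .one .two x = if 86 / 100 ≤ x then 5 / 1000 else -(255 / 10000) from rfl]
    split_ifs with hq
    · exact k1_gen k1n_one_two k1o_one_two_8600 (by norm_num) (by norm_num) (by norm_num)
          (by norm_num) (by norm_num) (by norm_num) (by norm_num) (by norm_num)
          (by norm_num; linarith only [hq]) hw (by norm_num; linarith only [hw]) (by norm_num; linarith only [hxw, hq]) hxw
          (by norm_num; linarith only [hB]) (by norm_num; linarith only [t1]) (by norm_num; linarith only [k0])
          (by norm_num; linarith only [k1]) (by norm_num; linarith only [s0]) (by norm_num; linarith only [s1])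
          (by norm_num; linarith only [hE])
    · exact k1_gen k1n_one_two k1o_one_two_8000 (by norm_num) (by norm_num) (by norm_num)
          (by norm_num) (by norm_num) (by norm_num) (by norm_num) (by norm_num)
          (by norm_num; linarith only [hx]) hw (by norm_num; linarith only [hw]) (by norm_num; linarith only [hx, hxw]) hxw
          (by norm_num; linarith only [hB]) (by norm_num; linarith only [t1]) (by norm_num; linarith only [k0])
          (by norm_num; linarith only [k1]) (by norm_num; linarith only [s0]) (by norm_num; linarith only [s1])
          (by norm_num; linarith only [hE])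
  | twoE =>
    have hC : Cc = .twoE := hC
    subst hC
    simp only [cw] at t0 t1 s0 s1 k0 k1
    simp only [EB] at hE
    simp only [cN]
    rw [show al .one .one .twoE x = if 86 / 100 ≤ x then 5 / 1000 else -(255 / 10000) from rfl]
    split_ifs with hq
    · exact k1_gen k1n_one_twoE k1o_one_twoE_8600 (by norm_num) (by norm_num) (by norm_num)
          (by norm_num) (by norm_num) (by norm_num) (by norm_num) (by norm_num)
          (by norm_num; linarith only [hq]) hw (by norm_num; linarith only [hw]) (by norm_num; linarith only [hxw, hq]) hxw
          (by norm_num; linarith only [t0]) (by norm_num; linarith only [t1]) (by norm_num; linarith only [k0])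
          (by norm_num; linarith only [k1]) (by norm_num; linarith only [s0]) (by norm_num; linarith only [s1])
          (by norm_num; linarith only [hE])
    · exact k1_gen k1n_one_twoE k1o_one_twoE_8000 (by norm_num) (by norm_num) (by norm_num)
          (by norm_num) (by norm_num) (by norm_num) (by norm_num) (by norm_num)
          (by norm_num; linarith only [hx]) hw (by norm_num; linarith only [hw]) (by norm_num; linarith only [hx, hxw]) hxw
          (by norm_num; linarith only [t0]) (by norm_num; linarith only [t1]) (by norm_num; linarith only [k0])
          (by norm_num; linarith only [k1]) (by norm_num; linarith only [s0]) (by norm_num; linarith only [s1])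
          (by norm_num; linarith only [hE])
  | threeA =>
    have hC : Cc = .three := hC
    subst hC
    simp only [cw] at t0 t1 s0 s1 k0 k1
    simp only [EB] at hE
    simp only [cN]
    rcases le_total w (4 / 25) with h | h
    · have hE := hE.1 h
      rw [show al .one .one .three x = if 86 / 100 ≤ x then 5 / 1000 else -(255 / 10000) from rfl]
      split_ifs with hq
      · exact k1_gen k1n_one_threeA_a k1o_one_threeA_a_8600 (by norm_num) (by norm_num) (by norm_num)
            (by norm_num) (by norm_num) (by norm_num) (by norm_num) (by norm_num)
            (by norm_num; linarith only [hq]) hw (by norm_num; linarith only [hw]) (by norm_num; linarith only [hxw, hq]) hxw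
            (by norm_num; linarith only [hB]) (by norm_num; linarith only [t1]) (by norm_num; linarith only [k0])
            (by norm_num; linarith only [k1]) (by norm_num; linarith only [s0]) (by norm_num; linarith only [s1])
            (by norm_num; linarith only [hE])
      · exact k1_gen k1n_one_threeA_a k1o_one_threeA_a_8000 (by norm_num) (by norm_num) (by norm_num)
            (by norm_num) (by norm_num) (by norm_num) (by norm_num) (by norm_num)
            (by norm_num; linarith only [hx]) hw (by norm_num; linarith only [hw]) (by norm_num; linarith only [h]) hxw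
            (by norm_num; linarith only [hB]) (by norm_num; linarith only [t1]) (by norm_num; linarith only [k0])
            (by norm_num; linarith only [k1]) (by norm_num; linarith only [s0]) (by norm_num; linarith only [s1])
            (by norm_num; linarith only [hE])
    · have hE := hE.2 h
      rw [show al .one .one .three x = if 86 / 100 ≤ x then 5 / 1000 else -(255 / 10000) from rfl]
      split_ifs with hq
      · exfalso
        linarith only [hxw, h, hq]
      · exact k1_gen k1n_one_threeA_b k1o_one_threeA_b_8000 (by norm_num) (by norm_num) (by norm_num)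
            (by norm_num) (by norm_num) (by norm_num) (by norm_num) (by norm_num)
            (by norm_num; linarith only [hx]) hw (by norm_num; linarith only [h]) (by norm_num; linarith only [hx, hxw]) hxw
            (by norm_num; linarith only [hB]) (by norm_num; linarith only [t1]) (by norm_num; linarith only [k0])
            (by norm_num; linarith only [k1]) (by norm_num; linarith only [s0]) (by norm_num; linarith only [s1])
            (by norm_num; linarith only [hE])
  | threeK =>
    have hC : Cc = .three := hC
    subst hC
    simp only [cw] at t0 t1 s0 s1 k0 k1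
    simp only [EB] at hE
    simp only [cN]
    rw [show al .one .one .three x = if 86 / 100 ≤ x then 5 / 1000 else -(255 / 10000) from rfl]
    split_ifs with hq
    · exact k1_gen k1n_one_threeK k1o_one_threeK_8600 (by norm_num) (by norm_num) (by norm_num)
          (by norm_num) (by norm_num) (by norm_num) (by norm_num) (by norm_num)
          (by norm_num; linarith only [hq]) hw (by norm_num; linarith only [hw]) (by norm_num; linarith only [hxw, hq]) hxw
          (by norm_num; linarith only [hB]) (by norm_num; linarith only [t1]) (by norm_num; linarith only [k0])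
          (by norm_num; linarith only [k1]) (by norm_num; linarith only [s0]) (by norm_num; linarith only [s1])
          (by norm_num; linarith only [hE])
    · exact k1_gen k1n_one_threeK k1o_one_threeK_8000 (by norm_num) (by norm_num) (by norm_num)
          (by norm_num) (by norm_num) (by norm_num) (by norm_num) (by norm_num)
          (by norm_num; linarith only [hx]) hw (by norm_num; linarith only [hw]) (by norm_num; linarith only [hx, hxw]) hxw
          (by norm_num; linarith only [hB]) (by norm_num; linarith only [t1]) (by norm_num; linarith only [k0])
          (by norm_num; linarith only [k1]) (by norm_num; linarith only [s0]) (by norm_num; linarith only [s1])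
          (by norm_num; linarith only [hE])
  | threeE =>
    have hC : Cc = .threeE := hC
    subst hC
    simp only [cw] at t0 t1 s0 s1 k0 k1
    simp only [EB] at hE
    simp only [cN]
    rw [show al .one .one .threeE x = if 86 / 100 ≤ x then 5 / 1000 else -(255 / 10000) from rfl]
    split_ifs with hq
    · exact k1_gen k1n_one_threeE k1o_one_threeE_8600 (by norm_num) (by norm_num) (by norm_num)
          (by norm_num) (by norm_num) (by norm_num) (by norm_num) (by norm_num)
          (by norm_num; linarith only [hq]) hw (by norm_num; linarith only [hw]) (by norm_num; linarith only [hxw, hq]) hxw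
          (by norm_num; linarith only [t0]) (by norm_num; linarith only [t1]) (by norm_num; linarith only [k0])
          (by norm_num; linarith only [k1]) (by norm_num; linarith only [s0]) (by norm_num; linarith only [s1])
          (by norm_num; linarith only [hE])
    · exact k1_gen k1n_one_threeE k1o_one_threeE_8000 (by norm_num) (by norm_num) (by norm_num)
          (by norm_num) (by norm_num) (by norm_num) (by norm_num) (by norm_num)
          (by norm_num; linarith only [hx]) hw (by norm_num; linarith only [hw]) (by norm_num; linarith only [hx, hxw]) hxw
          (by norm_num; linarith only [t0]) (by norm_num; linarith only [t1]) (by norm_num; linarith only [k0])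
          (by norm_num; linarith only [k1]) (by norm_num; linarith only [s0]) (by norm_num; linarith only [s1])
          (by norm_num; linarith only [hE])
  | ring =>
    have hC : Cc = .ring := hC
    subst hC
    simp only [cw] at t0 t1 s0 s1 k0 k1
    simp only [EB] at hE
    simp only [cN]
    rcases le_total w (7 / 50) with h | h
    · have hE := hE.1 h
      rw [show al .one .one .ring x = if 86 / 100 ≤ x then 5 / 1000 else -(255 / 10000) from rfl]
      split_ifs with hq
      · exact k1_gen k1n_one_ring_a k1o_one_ring_a_8600 (by norm_num) (by norm_num) (by norm_num)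
            (by norm_num) (by norm_num) (by norm_num) (by norm_num) (by norm_num)
            (by norm_num; linarith only [hq]) hw (by norm_num; linarith only [hw]) (by norm_num; linarith only [hxw, hq]) hxw
            (by norm_num; linarith only [hB]) (by norm_num; linarith only [t1]) (by norm_num; linarith only [k0])
            (by norm_num; linarith only [k1]) (by norm_num; linarith only [s0]) (by norm_num; linarith only [s1])
            (by norm_num; linarith only [hE])
      · exact k1_gen k1n_one_ring_a k1o_one_ring_a_8000 (by norm_num) (by norm_num) (by norm_num)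
            (by norm_num) (by norm_num) (by norm_num) (by norm_num) (by norm_num)
            (by norm_num; linarith only [hx]) hw (by norm_num; linarith only [hw]) (by norm_num; linarith only [h]) hxw
            (by norm_num; linarith only [hB]) (by norm_num; linarith only [t1]) (by norm_num; linarith only [k0])
            (by norm_num; linarith only [k1]) (by norm_num; linarith only [s0]) (by norm_num; linarith only [s1])
            (by norm_num; linarith only [hE])
    · have hE := hE.2 h
      rw [show al .one .one .ring x = if 86 / 100 ≤ x then 5 / 1000 else -(255 / 10000) from rfl]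
      split_ifs with hq
      · exact k1_gen k1n_one_ring_b k1o_one_ring_b_8600 (by norm_num) (by norm_num) (by norm_num)
            (by norm_num) (by norm_num) (by norm_num) (by norm_num) (by norm_num)
            (by norm_num; linarith only [hq]) hw (by norm_num; linarith only [h]) (by norm_num; linarith only [hxw, hq]) hxw
            (by norm_num; linarith only [hB]) (by norm_num; linarith only [t1]) (by norm_num; linarith only [k0])
            (by norm_num; linarith only [k1]) (by norm_num; linarith only [s0]) (by norm_num; linarith only [s1])
            (by norm_num; linarith only [hE])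
      · exact k1_gen k1n_one_ring_b k1o_one_ring_b_8000 (by norm_num) (by norm_num) (by norm_num)
            (by norm_num) (by norm_num) (by norm_num) (by norm_num) (by norm_num)
            (by norm_num; linarith only [hx]) hw (by norm_num; linarith only [h]) (by norm_num; linarith only [hx, hxw]) hxw
            (by norm_num; linarith only [hB]) (by norm_num; linarith only [t1]) (by norm_num; linarith only [k0])
            (by norm_num; linarith only [k1]) (by norm_num; linarith only [s0]) (by norm_num; linarith only [s1])
            (by norm_num; linarith only [hE])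
  | touched =>
    simp only [EB] at hE
    simp only [cN]
    cases Cc with
    | one =>
      have hCo := hCo rfl
      simp only [cw] at t0 t1 s0 s1 k0 k1
      rw [show al .one .one .one x = 26 / 1000 from rfl]
      exact k1_gen k1n_one_touched_one k1o_one_touched_one_8000 (by norm_num) (by norm_num) (by norm_num)
          (by norm_num) (by norm_num) (by norm_num) (by norm_num) (by norm_num)
          (by norm_num; linarith only [hx]) hw (by norm_num; linarith only [hw]) (by norm_num; linarith only [hx, hxw]) hxw
          (by norm_num; linarith only [hB]) (by norm_num; linarith only [t1]) (by norm_num; linarith only [hCo])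
          (by norm_num; linarith only [k1]) (by norm_num; linarith only [s0]) (by norm_num; linarith only [s1])
          (by norm_num; linarith only [hE])
    | two =>
      simp only [cw] at t0 t1 s0 s1 k0 k1
      rw [show al .one .one .two x = if 86 / 100 ≤ x then 5 / 1000 else -(255 / 10000) from rfl]
      split_ifs with hq
      · exact k1_gen k1n_one_touched_two k1o_one_touched_two_8600 (by norm_num) (by norm_num) (by norm_num)
            (by norm_num) (by norm_num) (by norm_num) (by norm_num) (by norm_num)
            (by norm_num; linarith only [hq]) hw (by norm_num; linarith only [hw]) (by norm_num; linarith only [hxw, hq]) hxw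
            (by norm_num; linarith only [hB]) (by norm_num; linarith only [t1]) (by norm_num; linarith only [k0])
            (by norm_num; linarith only [k1]) (by norm_num; linarith only [s0]) (by norm_num; linarith only [s1])
            (by norm_num; linarith only [hE])
      · exact k1_gen k1n_one_touched_two k1o_one_touched_two_8000 (by norm_num) (by norm_num) (by norm_num)
            (by norm_num) (by norm_num) (by norm_num) (by norm_num) (by norm_num)
            (by norm_num; linarith only [hx]) hw (by norm_num; linarith only [hw]) (by norm_num; linarith only [hx, hxw]) hxw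
            (by norm_num; linarith only [hB]) (by norm_num; linarith only [t1]) (by norm_num; linarith only [k0])
            (by norm_num; linarith only [k1]) (by norm_num; linarith only [s0]) (by norm_num; linarith only [s1])
            (by norm_num; linarith only [hE])
    | twoE =>
      simp only [cw] at t0 t1 s0 s1 k0 k1
      rw [show al .one .one .twoE x = if 86 / 100 ≤ x then 5 / 1000 else -(255 / 10000) from rfl]
      split_ifs with hq
      · exact k1_gen k1n_one_touched_twoE k1o_one_touched_twoE_8600 (by norm_num) (by norm_num) (by norm_num)
            (by norm_num) (by norm_num) (by norm_num) (by norm_num) (by norm_num)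
            (by norm_num; linarith only [hq]) hw (by norm_num; linarith only [hw]) (by norm_num; linarith only [hxw, hq]) hxw
            (by norm_num; linarith only [t0]) (by norm_num; linarith only [t1]) (by norm_num; linarith only [k0])
            (by norm_num; linarith only [k1]) (by norm_num; linarith only [s0]) (by norm_num; linarith only [s1])
            (by norm_num; linarith only [hE])
      · exact k1_gen k1n_one_touched_twoE k1o_one_touched_twoE_8000 (by norm_num) (by norm_num) (by norm_num)
            (by norm_num) (by norm_num) (by norm_num) (by norm_num) (by norm_num)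
            (by norm_num; linarith only [hx]) hw (by norm_num; linarith only [hw]) (by norm_num; linarith only [hx, hxw]) hxw
            (by norm_num; linarith only [t0]) (by norm_num; linarith only [t1]) (by norm_num; linarith only [k0])
            (by norm_num; linarith only [k1]) (by norm_num; linarith only [s0]) (by norm_num; linarith only [s1])
            (by norm_num; linarith only [hE])
    | three =>
      simp only [cw] at t0 t1 s0 s1 k0 k1
      rw [show al .one .one .three x = if 86 / 100 ≤ x then 5 / 1000 else -(255 / 10000) from rfl]
      split_ifs with hq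
      · exact k1_gen k1n_one_touched_three k1o_one_touched_three_8600 (by norm_num) (by norm_num) (by norm_num)
            (by norm_num) (by norm_num) (by norm_num) (by norm_num) (by norm_num)
            (by norm_num; linarith only [hq]) hw (by norm_num; linarith only [hw]) (by norm_num; linarith only [hxw, hq]) hxw
            (by norm_num; linarith only [hB]) (by norm_num; linarith only [t1]) (by norm_num; linarith only [k0])
            (by norm_num; linarith only [k1]) (by norm_num; linarith only [s0]) (by norm_num; linarith only [s1])
            (by norm_num; linarith only [hE])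
      · exact k1_gen k1n_one_touched_three k1o_one_touched_three_8000 (by norm_num) (by norm_num) (by norm_num)
            (by norm_num) (by norm_num) (by norm_num) (by norm_num) (by norm_num)
            (by norm_num; linarith only [hx]) hw (by norm_num; linarith only [hw]) (by norm_num; linarith only [hx, hxw]) hxw
            (by norm_num; linarith only [hB]) (by norm_num; linarith only [t1]) (by norm_num; linarith only [k0])
            (by norm_num; linarith only [k1]) (by norm_num; linarith only [s0]) (by norm_num; linarith only [s1])
            (by norm_num; linarith only [hE])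
    | threeE =>
      simp only [cw] at t0 t1 s0 s1 k0 k1
      rw [show al .one .one .threeE x = if 86 / 100 ≤ x then 5 / 1000 else -(255 / 10000) from rfl]
      split_ifs with hq
      · exact k1_gen k1n_one_touched_threeE k1o_one_touched_threeE_8600 (by norm_num) (by norm_num) (by norm_num)
            (by norm_num) (by norm_num) (by norm_num) (by norm_num) (by norm_num)
            (by norm_num; linarith only [hq]) hw (by norm_num; linarith only [hw]) (by norm_num; linarith only [hxw, hq]) hxw
            (by norm_num; linarith only [t0]) (by norm_num; linarith only [t1]) (by norm_num; linarith only [k0])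
            (by norm_num; linarith only [k1]) (by norm_num; linarith only [s0]) (by norm_num; linarith only [s1])
            (by norm_num; linarith only [hE])
      · exact k1_gen k1n_one_touched_threeE k1o_one_touched_threeE_8000 (by norm_num) (by norm_num) (by norm_num)
            (by norm_num) (by norm_num) (by norm_num) (by norm_num) (by norm_num)
            (by norm_num; linarith only [hx]) hw (by norm_num; linarith only [hw]) (by norm_num; linarith only [hx, hxw]) hxw
            (by norm_num; linarith only [t0]) (by norm_num; linarith only [t1]) (by norm_num; linarith only [k0])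
            (by norm_num; linarith only [k1]) (by norm_num; linarith only [s0]) (by norm_num; linarith only [s1])
            (by norm_num; linarith only [hE])
    | ring =>
      simp only [cw] at t0 t1 s0 s1 k0 k1
      rw [show al .one .one .ring x = if 86 / 100 ≤ x then 5 / 1000 else -(255 / 10000) from rfl]
      split_ifs with hq
      · exact k1_gen k1n_one_touched_ring k1o_one_touched_ring_8600 (by norm_num) (by norm_num) (by norm_num)
            (by norm_num) (by norm_num) (by norm_num) (by norm_num) (by norm_num)
            (by norm_num; linarith only [hq]) hw (by norm_num; linarith only [hw]) (by norm_num; linarith only [hxw, hq]) hxw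
            (by norm_num; linarith only [hB]) (by norm_num; linarith only [t1]) (by norm_num; linarith only [k0])
            (by norm_num; linarith only [k1]) (by norm_num; linarith only [s0]) (by norm_num; linarith only [s1])
            (by norm_num; linarith only [hE])
      · exact k1_gen k1n_one_touched_ring k1o_one_touched_ring_8000 (by norm_num) (by norm_num) (by norm_num)
            (by norm_num) (by norm_num) (by norm_num) (by norm_num) (by norm_num)
            (by norm_num; linarith only [hx]) hw (by norm_num; linarith only [hw]) (by norm_num; linarith only [hx, hxw]) hxw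
            (by norm_num; linarith only [hB]) (by norm_num; linarith only [t1]) (by norm_num; linarith only [k0])
            (by norm_num; linarith only [k1]) (by norm_num; linarith only [s0]) (by norm_num; linarith only [s1])
            (by norm_num; linarith only [hE])

end TL

end Pool.Agent.Work.MP_b30479_gtS.G2

end

section

/-!
# Tails, sides of a digit `2`: the rows `K2`
-/

set_option deprecated.oldSectionVars true

namespace Pool.Agent.Work.MP_b30479_gtS.G2

open VOL SR NumUs

namespace TL

open NumIs (V) in
/-- new position minus old position -/
theorem k2_gen {X c c' be ck a0 a1 e wl wh n0 o t0 t1 k0 k1 : ℤ}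
    (hn : chk [nE c c' be ck n0] 30 [V.of 10000 t0 t1 0, V.of 10000 k0 k1 0] = true)
    (ho : oldOK X a0 a1 o e wl wh 200 = true) (hX : 5000 ≤ X) (he : 1 ≤ e)
    {x w t k G C C' Be A : ℝ} (hC : C = (c : ℝ) / 100) (hC' : C' = (c' : ℝ) / 100)
    (hBe : Be = (be : ℝ) / 100) (hA : A = ((n0 : ℝ) - o) / 10000)
    (h0 : (X : ℝ) / 10000 ≤ x) (hw : 0 ≤ w) (hw0 : (wl : ℝ) / 10000 ≤ w)
    (hw1 : w ≤ (wh : ℝ) / 10000) (hxw : x + w ≤ 1)
    (ht0 : (t0 : ℝ) / 10000 ≤ t) (ht1 : t ≤ (t1 : ℝ) / 10000) (hk0 : (k0 : ℝ) / 10000 ≤ k)
    (hk1 : k ≤ (k1 : ℝ) / 10000)
    (hG : ((e : ℝ) - 2) * UU ⟨w, 0⟩ + ((a0 : ℝ) / 10000 + (a1 : ℝ) / 1000 * w) +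
      (ck : ℝ) / 10000 * k ≤ G) :
    A ≤ V2 ⟨C, t⟩ ⟨C', k⟩ - V2 ⟨x, 0⟩ ⟨w, 0⟩ + G + Be * t := by
  have h1 := new_sound hn ht0 ht1 hk0 hk1
  have h2 := old_sound ho hX (by norm_num) (by norm_num) he h0 hw hw0 hw1 hxw
  rw [UU_uu] at hG
  rw [hC, hC', hBe, hA, sub_div]
  linarith only [hG, h1, h2]

open NumIs (V) in
theorem k2n_one_a1_0 : chk [nE 28 18 215 31416 3850] 30 [V.of 10000 (-985) (180) 0, V.of 10000 (-985) (180) 0] = true := by decide +kernel

theorem k2o_one_a1_0 : oldOK 8000 (-300) (0) 2450 2 0 1800 200 = true := by decide +kernel

open NumIs (V) in
theorem k2n_one_a2_0 : chk [nE 28 18 215 12860 5370] 30 [V.of 10000 (-985) (180) 0, V.of 10000 (-985) (180) 0] = true := by decide +kernel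

theorem k2o_one_a2_0 : oldOK 8000 (-2039) (1306) 3970 3 0 1800 200 = true := by decide +kernel

open NumIs (V) in
theorem k2n_one_b_0 : chk [nE 28 18 215 21420 4800] 30 [V.of 10000 (-985) (180) 0, V.of 10000 (-985) (180) 0] = true := by decide +kernel

theorem k2o_one_b_0 : oldOK 8000 (2192) (-1019) 3400 3 1800 10000 200 = true := by decide +kernel

open NumIs (V) in
theorem k2n_two_0 : chk [nE 28 25 215 15710 5200] 30 [V.of 10000 (-985) (180) 0, V.of 10000 (-410) (410) 0] = true := by decide +kernel

theorem k2o_two_0 : oldOK 8000 (848) (-148) 3800 3 0 10000 200 = true := by decide +kernel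

open NumIs (V) in
theorem k2n_twoE_0 : chk [nE 28 22 215 22620 4700] 30 [V.of 10000 (-985) (180) 0, V.of 10000 (-850) (-450) 0] = true := by decide +kernel

theorem k2o_twoE_0 : oldOK 8000 (1545) (0) 3300 3 0 10000 200 = true := by decide +kernel

open NumIs (V) in
theorem k2n_threeA_a_0 : chk [nE 28 15 215 8510 4900] 30 [V.of 10000 (-985) (180) 0, V.of 10000 (-50) (570) 0] = true := by decide +kernel

theorem k2o_threeA_a_0 : oldOK 8000 (992) (-227) 3500 3 0 1600 200 = true := by decide +kernel

open NumIs (V) in
theorem k2n_threeA_b_0 : chk [nE 28 15 215 5650 4800] 30 [V.of 10000 (-985) (180) 0, V.of 10000 (-50) (570) 0] = true := by decide +kernel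

theorem k2o_threeA_b_0 : oldOK 8000 (2578) (-1106) 3400 3 1600 10000 200 = true := by decide +kernel

open NumIs (V) in
theorem k2n_threeK_0 : chk [nE 28 18 215 14120 5100] 30 [V.of 10000 (-985) (180) 0, V.of 10000 (-50) (570) 0] = true := by decide +kernel

theorem k2o_threeK_0 : oldOK 8000 (112) (97) 3700 3 0 10000 200 = true := by decide +kernel

open NumIs (V) in
theorem k2n_threeE_0 : chk [nE 28 22 215 12150 5100] 30 [V.of 10000 (-985) (180) 0, V.of 10000 (-130) (260) 0] = true := by decide +kernel

theorem k2o_threeE_0 : oldOK 8000 (1345) (0) 3700 3 0 10000 200 = true := by decide +kernel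

open NumIs (V) in
theorem k2n_ring_a_0 : chk [nE 28 18 215 16780 5200] 30 [V.of 10000 (-985) (180) 0, V.of 10000 (100) (960) 0] = true := by decide +kernel

theorem k2o_ring_a_0 : oldOK 8000 (-536) (543) 3800 3 0 1400 200 = true := by decide +kernel

open NumIs (V) in
theorem k2n_ring_b_0 : chk [nE 28 18 215 13970 5200] 30 [V.of 10000 (-985) (180) 0, V.of 10000 (100) (960) 0] = true := by decide +kernel

theorem k2o_ring_b_0 : oldOK 8000 (1291) (-720) 3800 3 1400 10000 200 = true := by decide +kernel

open NumIs (V) in
theorem k2n_touched_0 : chk [nE 28 20 215 23600 4500] 30 [V.of 10000 (-985) (180) 0, V.of 10000 (-985) (960) 0] = true := by decide +kernel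

theorem k2o_touched_0 : oldOK 8000 (0) (0) 3100 2 0 10000 200 = true := by decide +kernel

open NumIs (V) in
theorem k2n_one_a1_1 : chk [nE 25 18 170 31416 4000] 30 [V.of 10000 (-850) (960) 0, V.of 10000 (-985) (180) 0] = true := by decide +kernel

theorem k2o_one_a1_1 : oldOK 6000 (-300) (0) 3900 2 0 1800 200 = true := by decide +kernel

open NumIs (V) in
theorem k2n_one_a2_1 : chk [nE 25 18 170 12860 5450] 30 [V.of 10000 (-850) (960) 0, V.of 10000 (-985) (180) 0] = true := by decide +kernel

theorem k2o_one_a2_1 : oldOK 6000 (-2039) (1306) 5350 3 0 1800 200 = true := by decide +kernel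

open NumIs (V) in
theorem k2n_one_b_1 : chk [nE 25 18 170 21420 5200] 30 [V.of 10000 (-850) (960) 0, V.of 10000 (-985) (180) 0] = true := by decide +kernel

theorem k2o_one_b_1 : oldOK 6000 (2192) (-1019) 5100 3 1800 10000 200 = true := by decide +kernel

open NumIs (V) in
theorem k2n_two_1 : chk [nE 25 25 170 15710 5400] 30 [V.of 10000 (-850) (960) 0, V.of 10000 (-410) (410) 0] = true := by decide +kernel

theorem k2o_two_1 : oldOK 6000 (848) (-148) 5300 3 0 10000 200 = true := by decide +kernel

open NumIs (V) in
theorem k2n_twoE_1 : chk [nE 25 22 170 22620 5000] 30 [V.of 10000 (-850) (960) 0, V.of 10000 (-850) (-450) 0] = true := by decide +kernel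

theorem k2o_twoE_1 : oldOK 6000 (1545) (0) 4900 3 0 10000 200 = true := by decide +kernel

open NumIs (V) in
theorem k2n_threeA_a_1 : chk [nE 25 15 170 8510 5000] 30 [V.of 10000 (-850) (960) 0, V.of 10000 (-50) (570) 0] = true := by decide +kernel

theorem k2o_threeA_a_1 : oldOK 6000 (992) (-227) 4900 3 0 1600 200 = true := by decide +kernel

open NumIs (V) in
theorem k2n_threeA_b_1 : chk [nE 25 15 170 5650 5060] 30 [V.of 10000 (-850) (960) 0, V.of 10000 (-50) (570) 0] = true := by decide +kernel

theorem k2o_threeA_b_1 : oldOK 6000 (2578) (-1106) 4960 3 1600 10000 200 = true := by decide +kernel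

open NumIs (V) in
theorem k2n_threeK_1 : chk [nE 25 18 170 14120 5300] 30 [V.of 10000 (-850) (960) 0, V.of 10000 (-50) (570) 0] = true := by decide +kernel

theorem k2o_threeK_1 : oldOK 6000 (112) (97) 5200 3 0 10000 200 = true := by decide +kernel

open NumIs (V) in
theorem k2n_threeE_1 : chk [nE 25 22 170 12150 5300] 30 [V.of 10000 (-850) (960) 0, V.of 10000 (-130) (260) 0] = true := by decide +kernel

theorem k2o_threeE_1 : oldOK 6000 (1345) (0) 5200 3 0 10000 200 = true := by decide +kernel

open NumIs (V) in
theorem k2n_ring_a_1 : chk [nE 25 18 170 16780 5300] 30 [V.of 10000 (-850) (960) 0, V.of 10000 (100) (960) 0] = true := by decide +kernel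

theorem k2o_ring_a_1 : oldOK 6000 (-536) (543) 5200 3 0 1400 200 = true := by decide +kernel

open NumIs (V) in
theorem k2n_ring_b_1 : chk [nE 25 18 170 13970 5500] 30 [V.of 10000 (-850) (960) 0, V.of 10000 (100) (960) 0] = true := by decide +kernel

theorem k2o_ring_b_1 : oldOK 6000 (1291) (-720) 5400 3 1400 10000 200 = true := by decide +kernel

open NumIs (V) in
theorem k2n_touched_1 : chk [nE 25 20 170 23600 4800] 30 [V.of 10000 (-850) (960) 0, V.of 10000 (-985) (960) 0] = true := by decide +kernel

theorem k2o_touched_1 : oldOK 6000 (0) (0) 4700 2 0 10000 200 = true := by decide +kernel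

theorem k2_al_one (Cc : Cl) (x : ℝ) : al .two .one Cc x = 14 / 100 := rfl

theorem k2_al {B : Cl} (hB : B ≠ .one) (Cc : Cl) (x : ℝ) : al .two B Cc x = 1 / 100 := by
  cases B <;> first | exact absurd rfl hB | rfl

theorem k2_cT {B : Cl} (hB : B ≠ .one) : cT .two B = 1 / 4 := by
  cases B <;> first | exact absurd rfl hB | rfl

theorem k2_be {B : Cl} (hB : B ≠ .one) : be .two B = 17 / 10 := by
  cases B <;> first | exact absurd rfl hB | rfl

theorem k2_X0 {B : Cl} (hB : B ≠ .one) : X0 .two B = 60 / 100 := by
  cases B <;> first | exact absurd rfl hB | rfl

theorem k2_box {B : Cl} : -(985 / 10000) ≤ (hbox .two B false).t0 ∧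
    (hbox .two B false).t1 ≤ 96 / 1000 := by
  cases B <;> simp only [hbox] <;> constructor <;> norm_num

theorem k2_box' {B : Cl} (hB : B ≠ .one) : -(85 / 1000) ≤ (hbox .two B false).t0 := by
  cases B <;> first | exact absurd rfl hB | (simp only [hbox]; norm_num)

/-- K2.  margins: B = one .0699, B <> one .0217 (C = one, w = .23, x = .6), the other C >= .03. -/
theorem side_two {B Cc : Cl} {C : Ct} (hC : C.ok Cc) {x w t k G : ℝ}
    (hx : X0 .two B ≤ x) (hw : 0 ≤ w) (hxw : x + w ≤ 1)
    (t0 : (hbox .two B false).t0 ≤ t) (t1 : t ≤ (hbox .two B false).t1)
    (k0 : (hbox .two Cc false).t0 ≤ k) (k1 : k ≤ (hbox .two Cc false).t1)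
    (hE : EB .two C w (-k) G) :
    al .two B Cc x ≤ V2 ⟨cT .two B, t⟩ ⟨cN C, k⟩ - V2 ⟨x, 0⟩ ⟨w, 0⟩ + G + be .two B * t := by
  by_cases hB : B = .one
  · subst hB
    rw [k2_al_one]
    have e1 : cT .two .one = 28 / 100 := rfl
    have e2 : be .two .one = 215 / 100 := rfl
    have e3 : X0 .two .one = 80 / 100 := rfl
    rw [e1, e2]
    rw [e3] at hx
    simp only [hbox] at t0 t1
    have hw1 : w ≤ 1 := by linarith only [hxw, hx]
    cases C with
    | one =>
      have hC : Cc = .one := hC
      subst hC
      simp only [hbox] at k0 k1
      simp only [EB] at hE
      simp only [cN]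
      rcases le_total w (9 / 50) with h | h
      · rcases hE.1 h with hE | hE
        · exact k2_gen k2n_one_a1_0 k2o_one_a1_0 (by norm_num) (by norm_num) (by norm_num) (by norm_num)
            (by norm_num) (by norm_num) (by norm_num; linarith only [hx]) hw (by norm_num; linarith only [hw])
            (by norm_num; linarith only [h]) hxw (by norm_num; linarith only [t0]) (by norm_num; linarith only [t1])
            (by norm_num; linarith only [k0]) (by norm_num; linarith only [k1]) (by norm_num; linarith only [hE])
        · exact k2_gen k2n_one_a2_0 k2o_one_a2_0 (by norm_num) (by norm_num) (by norm_num) (by norm_num)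
            (by norm_num) (by norm_num) (by norm_num; linarith only [hx]) hw (by norm_num; linarith only [hw])
            (by norm_num; linarith only [h]) hxw (by norm_num; linarith only [t0]) (by norm_num; linarith only [t1])
            (by norm_num; linarith only [k0]) (by norm_num; linarith only [k1]) (by norm_num; linarith only [hE])
      · have hE := hE.2 h
        exact k2_gen k2n_one_b_0 k2o_one_b_0 (by norm_num) (by norm_num) (by norm_num) (by norm_num)
            (by norm_num) (by norm_num) (by norm_num; linarith only [hx]) hw (by norm_num; linarith only [h])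
            (by norm_num; linarith only [hxw, hx]) hxw (by norm_num; linarith only [t0]) (by norm_num; linarith only [t1])
            (by norm_num; linarith only [k0]) (by norm_num; linarith only [k1]) (by norm_num; linarith only [hE])
    | two =>
      have hC : Cc = .two := hC
      subst hC
      simp only [hbox] at k0 k1
      simp only [EB] at hE
      simp only [cN]
      exact k2_gen k2n_two_0 k2o_two_0 (by norm_num) (by norm_num) (by norm_num) (by norm_num)
            (by norm_num) (by norm_num) (by norm_num; linarith only [hx]) hw (by norm_num; linarith only [hw])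
            (by norm_num; linarith only [hxw, hx]) hxw (by norm_num; linarith only [t0]) (by norm_num; linarith only [t1])
            (by norm_num; linarith only [k0]) (by norm_num; linarith only [k1]) (by norm_num; linarith only [hE])
    | twoE =>
      have hC : Cc = .twoE := hC
      subst hC
      simp only [hbox] at k0 k1
      simp only [EB] at hE
      simp only [cN]
      exact k2_gen k2n_twoE_0 k2o_twoE_0 (by norm_num) (by norm_num) (by norm_num) (by norm_num)
            (by norm_num) (by norm_num) (by norm_num; linarith only [hx]) hw (by norm_num; linarith only [hw])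
            (by norm_num; linarith only [hxw, hx]) hxw (by norm_num; linarith only [t0]) (by norm_num; linarith only [t1])
            (by norm_num; linarith only [k0]) (by norm_num; linarith only [k1]) (by norm_num; linarith only [hE])
    | threeA =>
      have hC : Cc = .three := hC
      subst hC
      simp only [hbox] at k0 k1
      simp only [EB] at hE
      simp only [cN]
      rcases le_total w (4 / 25) with h | h
      · have hE := hE.1 h
        exact k2_gen k2n_threeA_a_0 k2o_threeA_a_0 (by norm_num) (by norm_num) (by norm_num) (by norm_num)
            (by norm_num) (by norm_num) (by norm_num; linarith only [hx]) hw (by norm_num; linarith only [hw])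
            (by norm_num; linarith only [h]) hxw (by norm_num; linarith only [t0]) (by norm_num; linarith only [t1])
            (by norm_num; linarith only [k0]) (by norm_num; linarith only [k1]) (by norm_num; linarith only [hE])
      · have hE := hE.2 h
        exact k2_gen k2n_threeA_b_0 k2o_threeA_b_0 (by norm_num) (by norm_num) (by norm_num) (by norm_num)
            (by norm_num) (by norm_num) (by norm_num; linarith only [hx]) hw (by norm_num; linarith only [h])
            (by norm_num; linarith only [hxw, hx]) hxw (by norm_num; linarith only [t0]) (by norm_num; linarith only [t1])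
            (by norm_num; linarith only [k0]) (by norm_num; linarith only [k1]) (by norm_num; linarith only [hE])
    | threeK =>
      have hC : Cc = .three := hC
      subst hC
      simp only [hbox] at k0 k1
      simp only [EB] at hE
      simp only [cN]
      exact k2_gen k2n_threeK_0 k2o_threeK_0 (by norm_num) (by norm_num) (by norm_num) (by norm_num)
            (by norm_num) (by norm_num) (by norm_num; linarith only [hx]) hw (by norm_num; linarith only [hw])
            (by norm_num; linarith only [hxw, hx]) hxw (by norm_num; linarith only [t0]) (by norm_num; linarith only [t1])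
            (by norm_num; linarith only [k0]) (by norm_num; linarith only [k1]) (by norm_num; linarith only [hE])
    | threeE =>
      have hC : Cc = .threeE := hC
      subst hC
      simp only [hbox] at k0 k1
      simp only [EB] at hE
      simp only [cN]
      exact k2_gen k2n_threeE_0 k2o_threeE_0 (by norm_num) (by norm_num) (by norm_num) (by norm_num)
            (by norm_num) (by norm_num) (by norm_num; linarith only [hx]) hw (by norm_num; linarith only [hw])
            (by norm_num; linarith only [hxw, hx]) hxw (by norm_num; linarith only [t0]) (by norm_num; linarith only [t1])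
            (by norm_num; linarith only [k0]) (by norm_num; linarith only [k1]) (by norm_num; linarith only [hE])
    | ring =>
      have hC : Cc = .ring := hC
      subst hC
      simp only [hbox] at k0 k1
      simp only [EB] at hE
      simp only [cN]
      rcases le_total w (7 / 50) with h | h
      · have hE := hE.1 h
        exact k2_gen k2n_ring_a_0 k2o_ring_a_0 (by norm_num) (by norm_num) (by norm_num) (by norm_num)
            (by norm_num) (by norm_num) (by norm_num; linarith only [hx]) hw (by norm_num; linarith only [hw])
            (by norm_num; linarith only [h]) hxw (by norm_num; linarith only [t0]) (by norm_num; linarith only [t1])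
            (by norm_num; linarith only [k0]) (by norm_num; linarith only [k1]) (by norm_num; linarith only [hE])
      · have hE := hE.2 h
        exact k2_gen k2n_ring_b_0 k2o_ring_b_0 (by norm_num) (by norm_num) (by norm_num) (by norm_num)
            (by norm_num) (by norm_num) (by norm_num; linarith only [hx]) hw (by norm_num; linarith only [h])
            (by norm_num; linarith only [hxw, hx]) hxw (by norm_num; linarith only [t0]) (by norm_num; linarith only [t1])
            (by norm_num; linarith only [k0]) (by norm_num; linarith only [k1]) (by norm_num; linarith only [hE])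
    | touched =>
      obtain ⟨b0, b1⟩ := k2_box (B := Cc)
      simp only [EB] at hE
      simp only [cN]
      exact k2_gen k2n_touched_0 k2o_touched_0 (by norm_num) (by norm_num) (by norm_num) (by norm_num)
            (by norm_num) (by norm_num) (by norm_num; linarith only [hx]) hw (by norm_num; linarith only [hw])
            (by norm_num; linarith only [hxw, hx]) hxw (by norm_num; linarith only [t0]) (by norm_num; linarith only [t1])
            (by norm_num; linarith only [k0, b0]) (by norm_num; linarith only [k1, b1]) (by norm_num; linarith only [hE])
  · rw [k2_al hB, k2_cT hB, k2_be hB]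
    rw [k2_X0 hB] at hx
    have t0 := (k2_box' hB).trans t0
    have t1 := t1.trans k2_box.2
    have hw1 : w ≤ 1 := by linarith only [hx, hxw]
    cases C with
    | one =>
      have hC : Cc = .one := hC
      subst hC
      simp only [hbox] at k0 k1
      simp only [EB] at hE
      simp only [cN]
      rcases le_total w (9 / 50) with h | h
      · rcases hE.1 h with hE | hE
        · exact k2_gen k2n_one_a1_1 k2o_one_a1_1 (by norm_num) (by norm_num) (by norm_num) (by norm_num)
            (by norm_num) (by norm_num) (by norm_num; linarith only [hx]) hw (by norm_num; linarith only [hw])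
            (by norm_num; linarith only [h]) hxw (by norm_num; linarith only [t0]) (by norm_num; linarith only [t1])
            (by norm_num; linarith only [k0]) (by norm_num; linarith only [k1]) (by norm_num; linarith only [hE])
        · exact k2_gen k2n_one_a2_1 k2o_one_a2_1 (by norm_num) (by norm_num) (by norm_num) (by norm_num)
            (by norm_num) (by norm_num) (by norm_num; linarith only [hx]) hw (by norm_num; linarith only [hw])
            (by norm_num; linarith only [h]) hxw (by norm_num; linarith only [t0]) (by norm_num; linarith only [t1])
            (by norm_num; linarith only [k0]) (by norm_num; linarith only [k1]) (by norm_num; linarith only [hE])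
      · have hE := hE.2 h
        exact k2_gen k2n_one_b_1 k2o_one_b_1 (by norm_num) (by norm_num) (by norm_num) (by norm_num)
            (by norm_num) (by norm_num) (by norm_num; linarith only [hx]) hw (by norm_num; linarith only [h])
            (by norm_num; linarith only [hx, hxw]) hxw (by norm_num; linarith only [t0]) (by norm_num; linarith only [t1])
            (by norm_num; linarith only [k0]) (by norm_num; linarith only [k1]) (by norm_num; linarith only [hE])
    | two =>
      have hC : Cc = .two := hC
      subst hC
      simp only [hbox] at k0 k1
      simp only [EB] at hE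
      simp only [cN]
      exact k2_gen k2n_two_1 k2o_two_1 (by norm_num) (by norm_num) (by norm_num) (by norm_num)
            (by norm_num) (by norm_num) (by norm_num; linarith only [hx]) hw (by norm_num; linarith only [hw])
            (by norm_num; linarith only [hx, hxw]) hxw (by norm_num; linarith only [t0]) (by norm_num; linarith only [t1])
            (by norm_num; linarith only [k0]) (by norm_num; linarith only [k1]) (by norm_num; linarith only [hE])
    | twoE =>
      have hC : Cc = .twoE := hC
      subst hC
      simp only [hbox] at k0 k1
      simp only [EB] at hE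
      simp only [cN]
      exact k2_gen k2n_twoE_1 k2o_twoE_1 (by norm_num) (by norm_num) (by norm_num) (by norm_num)
            (by norm_num) (by norm_num) (by norm_num; linarith only [hx]) hw (by norm_num; linarith only [hw])
            (by norm_num; linarith only [hx, hxw]) hxw (by norm_num; linarith only [t0]) (by norm_num; linarith only [t1])
            (by norm_num; linarith only [k0]) (by norm_num; linarith only [k1]) (by norm_num; linarith only [hE])
    | threeA =>
      have hC : Cc = .three := hC
      subst hC
      simp only [hbox] at k0 k1
      simp only [EB] at hE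
      simp only [cN]
      rcases le_total w (4 / 25) with h | h
      · have hE := hE.1 h
        exact k2_gen k2n_threeA_a_1 k2o_threeA_a_1 (by norm_num) (by norm_num) (by norm_num) (by norm_num)
            (by norm_num) (by norm_num) (by norm_num; linarith only [hx]) hw (by norm_num; linarith only [hw])
            (by norm_num; linarith only [h]) hxw (by norm_num; linarith only [t0]) (by norm_num; linarith only [t1])
            (by norm_num; linarith only [k0]) (by norm_num; linarith only [k1]) (by norm_num; linarith only [hE])
      · have hE := hE.2 h
        exact k2_gen k2n_threeA_b_1 k2o_threeA_b_1 (by norm_num) (by norm_num) (by norm_num) (by norm_num)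
            (by norm_num) (by norm_num) (by norm_num; linarith only [hx]) hw (by norm_num; linarith only [h])
            (by norm_num; linarith only [hx, hxw]) hxw (by norm_num; linarith only [t0]) (by norm_num; linarith only [t1])
            (by norm_num; linarith only [k0]) (by norm_num; linarith only [k1]) (by norm_num; linarith only [hE])
    | threeK =>
      have hC : Cc = .three := hC
      subst hC
      simp only [hbox] at k0 k1
      simp only [EB] at hE
      simp only [cN]
      exact k2_gen k2n_threeK_1 k2o_threeK_1 (by norm_num) (by norm_num) (by norm_num) (by norm_num)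
            (by norm_num) (by norm_num) (by norm_num; linarith only [hx]) hw (by norm_num; linarith only [hw])
            (by norm_num; linarith only [hx, hxw]) hxw (by norm_num; linarith only [t0]) (by norm_num; linarith only [t1])
            (by norm_num; linarith only [k0]) (by norm_num; linarith only [k1]) (by norm_num; linarith only [hE])
    | threeE =>
      have hC : Cc = .threeE := hC
      subst hC
      simp only [hbox] at k0 k1
      simp only [EB] at hE
      simp only [cN]
      exact k2_gen k2n_threeE_1 k2o_threeE_1 (by norm_num) (by norm_num) (by norm_num) (by norm_num)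
            (by norm_num) (by norm_num) (by norm_num; linarith only [hx]) hw (by norm_num; linarith only [hw])
            (by norm_num; linarith only [hx, hxw]) hxw (by norm_num; linarith only [t0]) (by norm_num; linarith only [t1])
            (by norm_num; linarith only [k0]) (by norm_num; linarith only [k1]) (by norm_num; linarith only [hE])
    | ring =>
      have hC : Cc = .ring := hC
      subst hC
      simp only [hbox] at k0 k1
      simp only [EB] at hE
      simp only [cN]
      rcases le_total w (7 / 50) with h | h
      · have hE := hE.1 h
        exact k2_gen k2n_ring_a_1 k2o_ring_a_1 (by norm_num) (by norm_num) (by norm_num) (by norm_num)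
            (by norm_num) (by norm_num) (by norm_num; linarith only [hx]) hw (by norm_num; linarith only [hw])
            (by norm_num; linarith only [h]) hxw (by norm_num; linarith only [t0]) (by norm_num; linarith only [t1])
            (by norm_num; linarith only [k0]) (by norm_num; linarith only [k1]) (by norm_num; linarith only [hE])
      · have hE := hE.2 h
        exact k2_gen k2n_ring_b_1 k2o_ring_b_1 (by norm_num) (by norm_num) (by norm_num) (by norm_num)
            (by norm_num) (by norm_num) (by norm_num; linarith only [hx]) hw (by norm_num; linarith only [h])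
            (by norm_num; linarith only [hx, hxw]) hxw (by norm_num; linarith only [t0]) (by norm_num; linarith only [t1])
            (by norm_num; linarith only [k0]) (by norm_num; linarith only [k1]) (by norm_num; linarith only [hE])
    | touched =>
      obtain ⟨b0, b1⟩ := k2_box (B := Cc)
      simp only [EB] at hE
      simp only [cN]
      exact k2_gen k2n_touched_1 k2o_touched_1 (by norm_num) (by norm_num) (by norm_num) (by norm_num)
            (by norm_num) (by norm_num) (by norm_num; linarith only [hx]) hw (by norm_num; linarith only [hw])
            (by norm_num; linarith only [hx, hxw]) hxw (by norm_num; linarith only [t0]) (by norm_num; linarith only [t1])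
            (by norm_num; linarith only [k0, b0]) (by norm_num; linarith only [k1, b1]) (by norm_num; linarith only [hE])

end TL

end Pool.Agent.Work.MP_b30479_gtS.G2

end

section

/-!
# Tails: the sides of a touched digit `1` or `2` next to an untouched digit `1`, `w ≤ 1/20`

The slack is at least `1/100`.
-/

set_option deprecated.oldSectionVars true

namespace Pool.Agent.Work.MP_b30479_gtS.G2

open VOL SR NumUs

namespace TL

open NumIs (V) in
theorem k6n_one_a : chk [nE1 42 18 245 31416 1850, s0E (-850), s1E 600] 30
    [V.of 10000 (-800) 560 0, V.of 10000 (-800) 560 0] = true := by decide +kernel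

theorem k6o_one_a : oldOK1 8000 (-110) 0 1250 1 0 500 50 = true := by decide +kernel

open NumIs (V) in
theorem k6n_one_b : chk [nE1 42 18 245 16420 2750, s0E (-850), s1E 600] 30
    [V.of 10000 (-800) 560 0, V.of 10000 (-800) 560 0] = true := by decide +kernel

theorem k6o_one_b : oldOK1 8000 (-326) 779 2150 2 0 500 50 = true := by decide +kernel

open NumIs (V) in
theorem k6n_two_a : chk [nE1 28 18 215 31416 1700, s0E (-490), s1E 950] 30
    [V.of 10000 (-180) 790 0, V.of 10000 (-800) 540 0] = true := by decide +kernel

theorem k6o_two_a : oldOK1 8000 (-110) 0 1300 1 0 500 50 = true := by decide +kernel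

open NumIs (V) in
theorem k6n_two_b : chk [nE1 28 18 215 16420 2100, s0E (-490), s1E 950] 30
    [V.of 10000 (-180) 790 0, V.of 10000 (-800) 540 0] = true := by decide +kernel

theorem k6o_two_b : oldOK1 8000 (-326) 779 2200 2 0 500 50 = true := by decide +kernel

open NumIs (V) in
theorem k6n_twoE_a : chk [nE1 28 18 235 31416 2300, s0E (-560), s1E 370] 30
    [V.of 10000 (-660) (-160) 0, V.of 10000 (-330) 800 0] = true := by decide +kernel

theorem k6o_twoE_a : oldOK1 7000 (-110) 0 1500 1 0 500 50 = true := by decide +kernel

open NumIs (V) in
theorem k6n_twoE_b : chk [nE1 28 18 235 16420 2300, s0E (-560), s1E 370] 30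
    [V.of 10000 (-660) (-160) 0, V.of 10000 (-330) 800 0] = true := by decide +kernel

theorem k6o_twoE_b : oldOK1 7000 (-326) 779 2400 2 0 500 50 = true := by decide +kernel

open NumIs (V) in
theorem k6n_three_a : chk [nE1 28 18 190 31416 1500, s0E (-220), s1E 1110] 30
    [V.of 10000 210 920 0, V.of 10000 (-800) 490 0] = true := by decide +kernel

theorem k6o_three_a : oldOK1 6500 (-110) 0 1550 1 0 500 50 = true := by decide +kernel

open NumIs (V) in
theorem k6n_three_b : chk [nE1 28 18 190 16420 1950, s0E (-220), s1E 1110] 30
    [V.of 10000 210 920 0, V.of 10000 (-800) 490 0] = true := by decide +kernel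

theorem k6o_three_b : oldOK1 6500 (-326) 779 2450 2 0 500 50 = true := by decide +kernel

open NumIs (V) in
theorem k6n_threeE_a : chk [nE1 28 18 205 31416 1850, s0E (-110), s1E 1010] 30
    [V.of 10000 100 580 0, V.of 10000 (-610) 650 0] = true := by decide +kernel

theorem k6o_threeE_a : oldOK1 6000 (-110) 0 1600 1 0 500 50 = true := by decide +kernel

open NumIs (V) in
theorem k6n_threeE_b : chk [nE1 28 18 205 16420 2100, s0E (-110), s1E 1010] 30
    [V.of 10000 100 580 0, V.of 10000 (-610) 650 0] = true := by decide +kernel

theorem k6o_threeE_b : oldOK1 6000 (-326) 779 2500 2 0 500 50 = true := by decide +kernel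

open NumIs (V) in
theorem k6n_ring_a : chk [nE1 25 18 210 31416 1600, s0E (-100), s1E 1430] 30
    [V.of 10000 380 1360 0, V.of 10000 (-800) 510 0] = true := by decide +kernel

theorem k6o_ring_a : oldOK1 6500 (-110) 0 1550 1 0 500 50 = true := by decide +kernel

open NumIs (V) in
theorem k6n_ring_b : chk [nE1 25 18 210 16420 1850, s0E (-100), s1E 1430] 30
    [V.of 10000 380 1360 0, V.of 10000 (-800) 510 0] = true := by decide +kernel

theorem k6o_ring_b : oldOK1 6500 (-326) 779 2450 2 0 500 50 = true := by decide +kernel

open NumIs (V) in
theorem k6n_ringR_a : chk [nE1 25 18 170 31416 1150, s0E (-100), s1E 1430] 30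
    [V.of 10000 380 1360 0, V.of 10000 (-800) 510 0] = true := by decide +kernel

theorem k6o_ringR_a : oldOK1 9500 (-110) 0 500 1 0 500 20 = true := by decide +kernel

theorem k6n_ringR_b_h1_q1 : chk [nE1 25 18 170 16420 1525, s0E (-100), s1E 1430] 29
    (NumIs.setL 1 [NumIs.V.of 10000 380 1360 0, NumIs.V.of 10000 (-800) 510 0]) = true := by
  decide +kernel

theorem k6n_ringR_b_h1_q2 : chk [nE1 25 18 170 16420 1525, s0E (-100), s1E 1430] 28
    (NumIs.setL 0 (NumIs.setR 1 [NumIs.V.of 10000 380 1360 0, NumIs.V.of 10000 (-800) 510 0])) = true := by
  decide +kernel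

theorem k6n_ringR_b_h1_q3 : chk [nE1 25 18 170 16420 1525, s0E (-100), s1E 1430] 27
    (NumIs.setL 1 (NumIs.setR 0 (NumIs.setR 1 [NumIs.V.of 10000 380 1360 0, NumIs.V.of 10000 (-800) 510 0]))) = true := by
  decide +kernel

theorem k6n_ringR_b_h1_q4 : chk [nE1 25 18 170 16420 1525, s0E (-100), s1E 1430] 25
    (NumIs.setL 1 (NumIs.setL 0 (NumIs.setR 1 (NumIs.setR 0 (NumIs.setR 1 [NumIs.V.of 10000 380 1360 0, NumIs.V.of 10000 (-800) 510 0]))))) = true := by
  decide +kernel

theorem k6n_ringR_b_h1_q5 : chk [nE1 25 18 170 16420 1525, s0E (-100), s1E 1430] 24
    (NumIs.setL 0 (NumIs.setR 1 (NumIs.setL 0 (NumIs.setR 1 (NumIs.setR 0 (NumIs.setR 1 [NumIs.V.of 10000 380 1360 0, NumIs.V.of 10000 (-800) 510 0])))))) = true := by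
  decide +kernel

theorem k6n_ringR_b_h1_q6 : chk [nE1 25 18 170 16420 1525, s0E (-100), s1E 1430] 23
    (NumIs.setL 1 (NumIs.setR 0 (NumIs.setR 1 (NumIs.setL 0 (NumIs.setR 1 (NumIs.setR 0 (NumIs.setR 1 [NumIs.V.of 10000 380 1360 0, NumIs.V.of 10000 (-800) 510 0]))))))) = true := by
  decide +kernel

theorem k6n_ringR_b_h1_q7 : chk [nE1 25 18 170 16420 1525, s0E (-100), s1E 1430] 23
    (NumIs.setR 1 (NumIs.setR 0 (NumIs.setR 1 (NumIs.setL 0 (NumIs.setR 1 (NumIs.setR 0 (NumIs.setR 1 [NumIs.V.of 10000 380 1360 0, NumIs.V.of 10000 (-800) 510 0]))))))) = true := by
  decide +kernel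

theorem k6n_ringR_b_h1_q8 : chk [nE1 25 18 170 16420 1525, s0E (-100), s1E 1430] 23
    (NumIs.setL 1 (NumIs.setL 0 (NumIs.setL 1 (NumIs.setR 0 (NumIs.setR 1 (NumIs.setR 0 (NumIs.setR 1 [NumIs.V.of 10000 380 1360 0, NumIs.V.of 10000 (-800) 510 0]))))))) = true := by
  decide +kernel

theorem k6n_ringR_b_h1_q9 : chk [nE1 25 18 170 16420 1525, s0E (-100), s1E 1430] 23
    (NumIs.setR 1 (NumIs.setL 0 (NumIs.setL 1 (NumIs.setR 0 (NumIs.setR 1 (NumIs.setR 0 (NumIs.setR 1 [NumIs.V.of 10000 380 1360 0, NumIs.V.of 10000 (-800) 510 0]))))))) = true := by
  decide +kernel

theorem k6n_ringR_b_h1_q10 : chk [nE1 25 18 170 16420 1525, s0E (-100), s1E 1430] 24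
    (NumIs.setR 0 (NumIs.setL 1 (NumIs.setR 0 (NumIs.setR 1 (NumIs.setR 0 (NumIs.setR 1 [NumIs.V.of 10000 380 1360 0, NumIs.V.of 10000 (-800) 510 0])))))) = true := by
  decide +kernel

theorem k6n_ringR_b_h1_q11 : chk [nE1 25 18 170 16420 1525, s0E (-100), s1E 1430] 25
    (NumIs.setR 1 (NumIs.setR 0 (NumIs.setR 1 (NumIs.setR 0 (NumIs.setR 1 [NumIs.V.of 10000 380 1360 0, NumIs.V.of 10000 (-800) 510 0]))))) = true := by
  decide +kernel

open NumIs (V) in
theorem k6n_ringR_b : chk [nE1 25 18 170 16420 1525, s0E (-100), s1E 1430] 30
    [V.of 10000 380 1360 0, V.of 10000 (-800) 510 0] = true :=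
  NumUs.chk_node (i := 1) (by decide +kernel)
    k6n_ringR_b_h1_q1
    (NumUs.chk_node (i := 0) (by decide +kernel)
      k6n_ringR_b_h1_q2
      (NumUs.chk_node (i := 1) (by decide +kernel)
        k6n_ringR_b_h1_q3
        (NumUs.chk_node (i := 0) (by decide +kernel)
          (NumUs.chk_node (i := 1) (by decide +kernel)
            k6n_ringR_b_h1_q4
            (NumUs.chk_node (i := 0) (by decide +kernel)
              k6n_ringR_b_h1_q5
              (NumUs.chk_node (i := 1) (by decide +kernel)
                k6n_ringR_b_h1_q6
                k6n_ringR_b_h1_q7)))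
          (NumUs.chk_node (i := 1) (by decide +kernel)
            (NumUs.chk_node (i := 0) (by decide +kernel)
              (NumUs.chk_node (i := 1) (by decide +kernel)
                k6n_ringR_b_h1_q8
                k6n_ringR_b_h1_q9)
              k6n_ringR_b_h1_q10)
            k6n_ringR_b_h1_q11))))

theorem k6o_ringR_b : oldOK1 9500 (-326) 779 1254 2 0 500 20 = true := by decide +kernel

open NumIs (V) in
theorem k7n_one_a : chk [nE 28 18 215 31416 3850] 30
    [V.of 10000 (-985) 180 0, V.of 10000 (-985) 180 0] = true := by decide +kernel

theorem k7o_one_a : oldOK 8000 (-300) 0 1450 2 0 500 200 = true := by decide +kernel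

open NumIs (V) in
theorem k7n_one_b : chk [nE 28 18 215 12860 5370] 30
    [V.of 10000 (-985) 180 0, V.of 10000 (-985) 180 0] = true := by decide +kernel

theorem k7o_one_b : oldOK 8000 (-2039) 1306 3650 3 0 500 200 = true := by decide +kernel

open NumIs (V) in
theorem k7n_oth_a : chk [nE 25 18 170 31416 4000] 30
    [V.of 10000 (-850) 960 0, V.of 10000 (-985) 180 0] = true := by decide +kernel

theorem k7o_oth_a : oldOK 6000 (-300) 0 2150 2 0 500 200 = true := by decide +kernel

open NumIs (V) in
theorem k7n_oth_b : chk [nE 25 18 170 12860 5450] 30
    [V.of 10000 (-850) 960 0, V.of 10000 (-985) 180 0] = true := by decide +kernel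

theorem k7o_oth_b : oldOK 6000 (-2039) 1306 4350 3 0 500 200 = true := by decide +kernel

theorem side_one5 {B : Cl} {x w t k G : ℝ} (hx : X0 .one B ≤ x) (hx5 : B = .ring → x < 95 / 100)
    (hw : 0 ≤ w) (hw5 : w ≤ 1 / 20) (hxw : x + w ≤ 1)
    (t0 : (cw .one B).t0 ≤ t) (t1 : t ≤ (cw .one B).t1)
    (s0 : (cw .one B).s0 ≤ t + k) (s1 : t + k ≤ (cw .one B).s1)
    (k0 : (cw B .one).t0 ≤ k) (k1 : k ≤ (cw B .one).t1)
    (hB : B = .one → -(2 / 25) ≤ t) (hCo : -(2 / 25) ≤ k) (hE : EB .one .one w (-k) G) :
    al .one B .one x + 1 / 100 ≤
      V1 ⟨cT .one B, t⟩ ⟨9 / 50, k⟩ - V1 ⟨x, 0⟩ ⟨w, 0⟩ + G + be .one B * t := by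
  have hE := hE.1 (by linarith only [hw5])
  cases B with
  | one =>
    simp only [cw, X0] at t0 t1 s0 s1 k0 k1 hx
    simp only [cT, be, al]
    have hB := hB rfl
    rcases hE with hE | hE
    · have := (k1_gen (A := ((1850 : ℝ) - 1250) / 10000) (C := 42 / 100) (C' := 9 / 50) (Be := 245 / 100) (x := x) (w := w) (t := t) (k := k) (G := G) k6n_one_a k6o_one_a
        (by norm_num) (by norm_num) (by norm_num)
        (by norm_num) (by norm_num) (by norm_num) (by norm_num) (by norm_num)
        (by norm_num; linarith only [hx]) hw (by norm_num; linarith only [hw]) (by norm_num; linarith only [hw5]) hxw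
        (by norm_num; linarith only [hB]) (by norm_num; linarith only [t1]) (by norm_num; linarith only [hCo])
        (by norm_num; linarith only [k1]) (by norm_num; linarith only [s0]) (by norm_num; linarith only [s1])
        (by norm_num; linarith only [hE]))
      norm_num at this ⊢
      linarith only [this]
    · have := (k1_gen (A := ((2750 : ℝ) - 2150) / 10000) (C := 42 / 100) (C' := 9 / 50) (Be := 245 / 100) (x := x) (w := w) (t := t) (k := k) (G := G) k6n_one_b k6o_one_b
        (by norm_num) (by norm_num) (by norm_num)
        (by norm_num) (by norm_num) (by norm_num) (by norm_num) (by norm_num)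
        (by norm_num; linarith only [hx]) hw (by norm_num; linarith only [hw]) (by norm_num; linarith only [hw5]) hxw
        (by norm_num; linarith only [hB]) (by norm_num; linarith only [t1]) (by norm_num; linarith only [hCo])
        (by norm_num; linarith only [k1]) (by norm_num; linarith only [s0]) (by norm_num; linarith only [s1])
        (by norm_num; linarith only [hE]))
      norm_num at this ⊢
      linarith only [this]
  | two =>
    simp only [cw, X0] at t0 t1 s0 s1 k0 k1 hx
    simp only [cT, be, al]
    rcases hE with hE | hE
    · have := (k1_gen (A := ((1700 : ℝ) - 1300) / 10000) (C := 28 / 100) (C' := 9 / 50) (Be := 215 / 100) (x := x) (w := w) (t := t) (k := k) (G := G) k6n_two_a k6o_two_a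
        (by norm_num) (by norm_num) (by norm_num)
        (by norm_num) (by norm_num) (by norm_num) (by norm_num) (by norm_num)
        (by norm_num; linarith only [hx]) hw (by norm_num; linarith only [hw]) (by norm_num; linarith only [hw5]) hxw
        (by norm_num; linarith only [t0]) (by norm_num; linarith only [t1]) (by norm_num; linarith only [hCo])
        (by norm_num; linarith only [k1]) (by norm_num; linarith only [s0]) (by norm_num; linarith only [s1])
        (by norm_num; linarith only [hE]))
      linarith only [this]
    · have := (k1_gen (A := ((2100 : ℝ) - 2200) / 10000) (C := 28 / 100) (C' := 9 / 50) (Be := 215 / 100) (x := x) (w := w) (t := t) (k := k) (G := G) k6n_two_b k6o_two_b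
        (by norm_num) (by norm_num) (by norm_num)
        (by norm_num) (by norm_num) (by norm_num) (by norm_num) (by norm_num)
        (by norm_num; linarith only [hx]) hw (by norm_num; linarith only [hw]) (by norm_num; linarith only [hw5]) hxw
        (by norm_num; linarith only [t0]) (by norm_num; linarith only [t1]) (by norm_num; linarith only [hCo])
        (by norm_num; linarith only [k1]) (by norm_num; linarith only [s0]) (by norm_num; linarith only [s1])
        (by norm_num; linarith only [hE]))
      linarith only [this]
  | twoE =>
    simp only [cw, X0] at t0 t1 s0 s1 k0 k1 hx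
    simp only [cT, be, al]
    rcases hE with hE | hE
    · have := (k1_gen (A := ((2300 : ℝ) - 1500) / 10000) (C := 28 / 100) (C' := 9 / 50) (Be := 235 / 100) (x := x) (w := w) (t := t) (k := k) (G := G) k6n_twoE_a k6o_twoE_a
        (by norm_num) (by norm_num) (by norm_num)
        (by norm_num) (by norm_num) (by norm_num) (by norm_num) (by norm_num)
        (by norm_num; linarith only [hx]) hw (by norm_num; linarith only [hw]) (by norm_num; linarith only [hw5]) hxw
        (by norm_num; linarith only [t0]) (by norm_num; linarith only [t1]) (by norm_num; linarith only [k0])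
        (by norm_num; linarith only [k1]) (by norm_num; linarith only [s0]) (by norm_num; linarith only [s1])
        (by norm_num; linarith only [hE]))
      split_ifs <;> linarith only [this]
    · have := (k1_gen (A := ((2300 : ℝ) - 2400) / 10000) (C := 28 / 100) (C' := 9 / 50) (Be := 235 / 100) (x := x) (w := w) (t := t) (k := k) (G := G) k6n_twoE_b k6o_twoE_b
        (by norm_num) (by norm_num) (by norm_num)
        (by norm_num) (by norm_num) (by norm_num) (by norm_num) (by norm_num)
        (by norm_num; linarith only [hx]) hw (by norm_num; linarith only [hw]) (by norm_num; linarith only [hw5]) hxw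
        (by norm_num; linarith only [t0]) (by norm_num; linarith only [t1]) (by norm_num; linarith only [k0])
        (by norm_num; linarith only [k1]) (by norm_num; linarith only [s0]) (by norm_num; linarith only [s1])
        (by norm_num; linarith only [hE]))
      split_ifs <;> linarith only [this]
  | three =>
    simp only [cw, X0] at t0 t1 s0 s1 k0 k1 hx
    simp only [cT, be, al]
    rcases hE with hE | hE
    · have := (k1_gen (A := ((1500 : ℝ) - 1550) / 10000) (C := 28 / 100) (C' := 9 / 50) (Be := 19 / 10) (x := x) (w := w) (t := t) (k := k) (G := G) k6n_three_a k6o_three_a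
        (by norm_num) (by norm_num) (by norm_num)
        (by norm_num) (by norm_num) (by norm_num) (by norm_num) (by norm_num)
        (by norm_num; linarith only [hx]) hw (by norm_num; linarith only [hw]) (by norm_num; linarith only [hw5]) hxw
        (by norm_num; linarith only [t0]) (by norm_num; linarith only [t1]) (by norm_num; linarith only [hCo])
        (by norm_num; linarith only [k1]) (by norm_num; linarith only [s0]) (by norm_num; linarith only [s1])
        (by norm_num; linarith only [hE]))
      linarith only [this]
    · have := (k1_gen (A := ((1950 : ℝ) - 2450) / 10000) (C := 28 / 100) (C' := 9 / 50) (Be := 19 / 10) (x := x) (w := w) (t := t) (k := k) (G := G) k6n_three_b k6o_three_b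
        (by norm_num) (by norm_num) (by norm_num)
        (by norm_num) (by norm_num) (by norm_num) (by norm_num) (by norm_num)
        (by norm_num; linarith only [hx]) hw (by norm_num; linarith only [hw]) (by norm_num; linarith only [hw5]) hxw
        (by norm_num; linarith only [t0]) (by norm_num; linarith only [t1]) (by norm_num; linarith only [hCo])
        (by norm_num; linarith only [k1]) (by norm_num; linarith only [s0]) (by norm_num; linarith only [s1])
        (by norm_num; linarith only [hE]))
      linarith only [this]
  | threeE =>
    simp only [cw, X0] at t0 t1 s0 s1 k0 k1 hx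
    simp only [cT, be, al]
    rcases hE with hE | hE
    · have := (k1_gen (A := ((1850 : ℝ) - 1600) / 10000) (C := 28 / 100) (C' := 9 / 50) (Be := 205 / 100) (x := x) (w := w) (t := t) (k := k) (G := G) k6n_threeE_a k6o_threeE_a
        (by norm_num) (by norm_num) (by norm_num)
        (by norm_num) (by norm_num) (by norm_num) (by norm_num) (by norm_num)
        (by norm_num; linarith only [hx]) hw (by norm_num; linarith only [hw]) (by norm_num; linarith only [hw5]) hxw
        (by norm_num; linarith only [t0]) (by norm_num; linarith only [t1]) (by norm_num; linarith only [k0])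
        (by norm_num; linarith only [k1]) (by norm_num; linarith only [s0]) (by norm_num; linarith only [s1])
        (by norm_num; linarith only [hE]))
      linarith only [this]
    · have := (k1_gen (A := ((2100 : ℝ) - 2500) / 10000) (C := 28 / 100) (C' := 9 / 50) (Be := 205 / 100) (x := x) (w := w) (t := t) (k := k) (G := G) k6n_threeE_b k6o_threeE_b
        (by norm_num) (by norm_num) (by norm_num)
        (by norm_num) (by norm_num) (by norm_num) (by norm_num) (by norm_num)
        (by norm_num; linarith only [hx]) hw (by norm_num; linarith only [hw]) (by norm_num; linarith only [hw5]) hxw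
        (by norm_num; linarith only [t0]) (by norm_num; linarith only [t1]) (by norm_num; linarith only [k0])
        (by norm_num; linarith only [k1]) (by norm_num; linarith only [s0]) (by norm_num; linarith only [s1])
        (by norm_num; linarith only [hE]))
      linarith only [this]
  | ring =>
    simp only [cw, X0] at t0 t1 s0 s1 k0 k1 hx
    simp only [cT, be, al]
    have hx5 := hx5 rfl
    rw [if_neg (not_le.2 hx5)]
    rcases hE with hE | hE
    · have := (k1_gen (A := ((1600 : ℝ) - 1550) / 10000) (C := 1 / 4) (C' := 9 / 50) (Be := 21 / 10) (x := x) (w := w) (t := t) (k := k) (G := G) k6n_ring_a k6o_ring_a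
        (by norm_num) (by norm_num) (by norm_num)
        (by norm_num) (by norm_num) (by norm_num) (by norm_num) (by norm_num)
        (by norm_num; linarith only [hx]) hw (by norm_num; linarith only [hw]) (by norm_num; linarith only [hw5]) hxw
        (by norm_num; linarith only [t0]) (by norm_num; linarith only [t1]) (by norm_num; linarith only [hCo])
        (by norm_num; linarith only [k1]) (by norm_num; linarith only [s0]) (by norm_num; linarith only [s1])
        (by norm_num; linarith only [hE]))
      linarith only [this]
    · have := (k1_gen (A := ((1850 : ℝ) - 2450) / 10000) (C := 1 / 4) (C' := 9 / 50) (Be := 21 / 10) (x := x) (w := w) (t := t) (k := k) (G := G) k6n_ring_b k6o_ring_b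
        (by norm_num) (by norm_num) (by norm_num)
        (by norm_num) (by norm_num) (by norm_num) (by norm_num) (by norm_num)
        (by norm_num; linarith only [hx]) hw (by norm_num; linarith only [hw]) (by norm_num; linarith only [hw5]) hxw
        (by norm_num; linarith only [t0]) (by norm_num; linarith only [t1]) (by norm_num; linarith only [hCo])
        (by norm_num; linarith only [k1]) (by norm_num; linarith only [s0]) (by norm_num; linarith only [s1])
        (by norm_num; linarith only [hE]))
      linarith only [this]

/-- next to a ring, `x ≥ 95/100` -/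
theorem side_one_ring5 {x w t k G : ℝ} (hx : 95 / 100 ≤ x) (hw : 0 ≤ w) (hw5 : w ≤ 1 / 20)
    (hxw : x + w ≤ 1)
    (t0 : (cw .one .ring).t0 ≤ t) (t1 : t ≤ (cw .one .ring).t1)
    (s0 : (cw .one .ring).s0 ≤ t + k) (s1 : t + k ≤ (cw .one .ring).s1)
    (k0 : (cw .ring .one).t0 ≤ k) (k1 : k ≤ (cw .ring .one).t1)
    (hCo : -(2 / 25) ≤ k) (hE : EB .one .one w (-k) G) :
    gD .one x t + 1 / 100 ≤ V1 ⟨1 / 4, t⟩ ⟨9 / 50, k⟩ - V1 ⟨x, 0⟩ ⟨w, 0⟩ + G := by
  have hE := hE.1 (by linarith only [hw5])
  simp only [cw] at t0 t1 s0 s1 k0 k1
  simp only [gD]
  rw [if_pos hx]
  rcases hE with hE | hE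
  · have := (k1_gen (A := ((1150 : ℝ) - 500) / 10000) (C := 1 / 4) (C' := 9 / 50) (Be := 17 / 10) (x := x) (w := w) (t := t) (k := k) (G := G) k6n_ringR_a k6o_ringR_a
      (by norm_num) (by norm_num) (by norm_num)
      (by norm_num) (by norm_num) (by norm_num) (by norm_num) (by norm_num)
      (by norm_num; linarith only [hx]) hw (by norm_num; linarith only [hw]) (by norm_num; linarith only [hw5]) hxw
      (by norm_num; linarith only [t0]) (by norm_num; linarith only [t1]) (by norm_num; linarith only [hCo])
      (by norm_num; linarith only [k1]) (by norm_num; linarith only [s0]) (by norm_num; linarith only [s1])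
      (by norm_num; linarith only [hE]))
    linarith only [this]
  · have := (k1_gen (A := ((1525 : ℝ) - 1254) / 10000) (C := 1 / 4) (C' := 9 / 50) (Be := 17 / 10) (x := x) (w := w) (t := t) (k := k) (G := G) k6n_ringR_b k6o_ringR_b
      (by norm_num) (by norm_num) (by norm_num)
      (by norm_num) (by norm_num) (by norm_num) (by norm_num) (by norm_num)
      (by norm_num; linarith only [hx]) hw (by norm_num; linarith only [hw]) (by norm_num; linarith only [hw5]) hxw
      (by norm_num; linarith only [t0]) (by norm_num; linarith only [t1]) (by norm_num; linarith only [hCo])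
      (by norm_num; linarith only [k1]) (by norm_num; linarith only [s0]) (by norm_num; linarith only [s1])
      (by norm_num; linarith only [hE]))
    linarith only [this]

theorem side_two5 {B : Cl} {x w t k G : ℝ} (hx : X0 .two B ≤ x) (hw : 0 ≤ w) (hw5 : w ≤ 1 / 20)
    (hxw : x + w ≤ 1) (t0 : (hbox .two B false).t0 ≤ t) (t1 : t ≤ (hbox .two B false).t1)
    (k0 : (hbox .two .one false).t0 ≤ k) (k1 : k ≤ (hbox .two .one false).t1)
    (hE : EB .two .one w (-k) G) :
    al .two B .one x + 1 / 100 ≤
      V2 ⟨cT .two B, t⟩ ⟨9 / 50, k⟩ - V2 ⟨x, 0⟩ ⟨w, 0⟩ + G + be .two B * t := by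
  have hE := hE.1 (by linarith only [hw5])
  simp only [hbox] at k0 k1
  by_cases hB : B = .one
  · subst hB
    simp only [hbox, X0] at t0 t1 hx
    simp only [cT, be, al]
    rcases hE with hE | hE
    · have := (k2_gen (A := ((3850 : ℝ) - 1450) / 10000) (C := 28 / 100) (C' := 9 / 50) (Be := 215 / 100) (x := x) (w := w) (t := t) (k := k) (G := G) k7n_one_a k7o_one_a
        (by norm_num) (by norm_num) (by norm_num) (by norm_num)
        (by norm_num) (by norm_num) (by norm_num; linarith only [hx]) hw (by norm_num; linarith only [hw])
        (by norm_num; linarith only [hw5]) hxw (by norm_num; linarith only [t0]) (by norm_num; linarith only [t1])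
        (by norm_num; linarith only [k0]) (by norm_num; linarith only [k1]) (by norm_num; linarith only [hE]))
      linarith only [this]
    · have := (k2_gen (A := ((5370 : ℝ) - 3650) / 10000) (C := 28 / 100) (C' := 9 / 50) (Be := 215 / 100) (x := x) (w := w) (t := t) (k := k) (G := G) k7n_one_b k7o_one_b
        (by norm_num) (by norm_num) (by norm_num) (by norm_num)
        (by norm_num) (by norm_num) (by norm_num; linarith only [hx]) hw (by norm_num; linarith only [hw])
        (by norm_num; linarith only [hw5]) hxw (by norm_num; linarith only [t0]) (by norm_num; linarith only [t1])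
        (by norm_num; linarith only [k0]) (by norm_num; linarith only [k1]) (by norm_num; linarith only [hE]))
      linarith only [this]
  · rw [k2_al hB, k2_cT hB, k2_be hB]
    rw [k2_X0 hB] at hx
    have hb := k2_box' hB
    have ht1 : (hbox .two B false).t1 ≤ 96 / 1000 := by
      rcases B <;> simp only [hbox] <;> norm_num
    rcases hE with hE | hE
    · have := (k2_gen (A := ((4000 : ℝ) - 2150) / 10000) (C := 1 / 4) (C' := 9 / 50) (Be := 17 / 10) (x := x) (w := w) (t := t) (k := k) (G := G) k7n_oth_a k7o_oth_a
        (by norm_num) (by norm_num) (by norm_num) (by norm_num)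
        (by norm_num) (by norm_num) (by norm_num; linarith only [hx]) hw (by norm_num; linarith only [hw])
        (by norm_num; linarith only [hw5]) hxw (by norm_num; linarith only [t0, hb]) (by norm_num; linarith only [t1, ht1])
        (by norm_num; linarith only [k0]) (by norm_num; linarith only [k1]) (by norm_num; linarith only [hE]))
      linarith only [this]
    · have := (k2_gen (A := ((5450 : ℝ) - 4350) / 10000) (C := 1 / 4) (C' := 9 / 50) (Be := 17 / 10) (x := x) (w := w) (t := t) (k := k) (G := G) k7n_oth_b k7o_oth_b
        (by norm_num) (by norm_num) (by norm_num) (by norm_num)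
        (by norm_num) (by norm_num) (by norm_num; linarith only [hx]) hw (by norm_num; linarith only [hw])
        (by norm_num; linarith only [hw5]) hxw (by norm_num; linarith only [t0, hb]) (by norm_num; linarith only [t1, ht1])
        (by norm_num; linarith only [k0]) (by norm_num; linarith only [k1]) (by norm_num; linarith only [hE]))
      linarith only [this]

/-- next to a ring -/
theorem side_two_ring5 {x w t k G : ℝ} (hx : 60 / 100 ≤ x) (hw : 0 ≤ w) (hw5 : w ≤ 1 / 20)
    (hxw : x + w ≤ 1) (t0 : (hbox .two .ring false).t0 ≤ t) (t1 : t ≤ (hbox .two .ring false).t1)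
    (k0 : (hbox .two .one false).t0 ≤ k) (k1 : k ≤ (hbox .two .one false).t1)
    (hE : EB .two .one w (-k) G) :
    gD .two x t + 1 / 100 ≤ V2 ⟨1 / 4, t⟩ ⟨9 / 50, k⟩ - V2 ⟨x, 0⟩ ⟨w, 0⟩ + G := by
  have hE := hE.1 (by linarith only [hw5])
  simp only [hbox] at t0 t1 k0 k1
  simp only [gD]
  rcases hE with hE | hE
  · have := (k2_gen (A := ((4000 : ℝ) - 2150) / 10000) (C := 1 / 4) (C' := 9 / 50) (Be := 17 / 10) (x := x) (w := w) (t := t) (k := k) (G := G) k7n_oth_a k7o_oth_a
      (by norm_num) (by norm_num) (by norm_num) (by norm_num)
      (by norm_num) (by norm_num) (by norm_num; linarith only [hx]) hw (by norm_num; linarith only [hw])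
      (by norm_num; linarith only [hw5]) hxw (by norm_num; linarith only [t0]) (by norm_num; linarith only [t1])
      (by norm_num; linarith only [k0]) (by norm_num; linarith only [k1]) (by norm_num; linarith only [hE]))
    split_ifs <;> linarith only [this]
  · have := (k2_gen (A := ((5450 : ℝ) - 4350) / 10000) (C := 1 / 4) (C' := 9 / 50) (Be := 17 / 10) (x := x) (w := w) (t := t) (k := k) (G := G) k7n_oth_b k7o_oth_b
      (by norm_num) (by norm_num) (by norm_num) (by norm_num)
      (by norm_num) (by norm_num) (by norm_num; linarith only [hx]) hw (by norm_num; linarith only [hw])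
      (by norm_num; linarith only [hw5]) hxw (by norm_num; linarith only [t0]) (by norm_num; linarith only [t1])
      (by norm_num; linarith only [k0]) (by norm_num; linarith only [k1]) (by norm_num; linarith only [hE]))
    split_ifs <;> linarith only [this]

end TL

end Pool.Agent.Work.MP_b30479_gtS.G2

end
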