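import Pool.Agent.Work.MP_b30479_gt.TBS.NumU.Tree
import Pool.Agent.Work.MP_b30479_gt.TBS.G2.TL2wAs2
import Pool.Agent.Work.MP_b30479_gt.TBS.G2.TK2a
import Pool.Agent.Work.MP_b30479_gt.TBS.NumU.Node
import Pool.Agent.Work.MP_b30479_gt.TBS.G2.WValD

section

/-!
# Pieces of the certificates of `TL2wA`, part 3
-/

set_option linter.unusedVariables false
set_option linter.unusedSimpArgs false
set_option linter.unusedTactic false
set_option linter.unreachableTactic false
set_option deprecated.oldSectionVars true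

namespace Pool.Agent.Work.MP_b30479_gtS.G2
open NumUs
open NumUs.E
open NumIs (V)
namespace TL
namespace L2

theorem w_one_A3_p3 : Pool.Agent.Work.NumUs.runT [(.sub (.add (.sub (.add (.add (.sub (.add (.mul .pi (.sub (.add (.mul (.sub (.q 21 100) (.var 0)) (.var 3)) (.mul (.var 1) (.var 2))) (.var 1))) (.add (.uu (.sub (.add (.q 21 100) (.var 2)) (.q 1 1)) (.add (.var 1) (.var 3))) (.mul .pi (.add (.var 1) (.var 3))))) (.uu (.q 21 100) (.var 1))) (.neg (.uu (.add (.var 0) (.var 2)) (.var 3)))) (.mul (.uu (.var 0) (.q 0 1)) (.q 3 1))) (.uu (.add (.var 0) (.q 4 5)) (.q 0 1))) (.uu (.q 4 5) (.q 0 1))) (.sub (.q (-497) 1000) (.mul (.q (-141) 125) (.var 1)))), (.sub (.add (.sub (.add (.add (.sub (.add (.mul .pi (.sub (.add (.mul (.sub (.q 21 100) (.var 0)) (.var 3)) (.mul (.var 1) (.var 2))) (.var 1))) (.sub (.uu (.sub (.add (.q 21 100) (.var 2)) (.q 1 1)) (.add (.var 1) (.var 3))) (.mul .pi (.add (.var 1) (.var 3))))) (.uu (.q 21 100) (.var 1))) (.neg (.uu (.add (.var 0) (.var 2)) (.var 3)))) (.mul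 (.uu (.var 0) (.q 0 1)) (.q 3 1))) (.uu (.add (.var 0) (.q 4 5)) (.q 0 1))) (.uu (.q 4 5) (.q 0 1))) (.sub (.q (-497) 1000) (.mul (.q (-141) 125) (.var 1)))), (.sub (.add (.sub (.add (.add (.sub (.add (.mul .pi (.sub (.add (.mul (.sub (.q 21 100) (.var 0)) (.var 3)) (.mul (.var 1) (.var 2))) (.var 1))) (.add (.uu (.sub (.add (.q 21 100) (.var 2)) (.q 1 1)) (.add (.var 1) (.var 3))) (.mul .pi (.add (.var 1) (.var 3))))) (.uu (.q 21 100) (.var 1))) (.neg (.uu (.add (.var 0) (.var 2)) (.var 3)))) (.mul (.uu (.var 0) (.q 0 1)) (.q 3 1))) (.uu (.add (.var 0) (.q 4 5)) (.q 0 1))) (.uu (.q 4 5) (.q 0 1))) (.sub (.q (-587) 2000) (.mul (.q 1571 500) (.var 1)))), (.sub (.add (.sub (.add (.add (.sub (.add (.mul .pi (.sub (.add (.mul (.sub (.q 21 100) (.var 0)) (.var 3)) (.mul (.var 1) (.var 2))) (.var 1))) (.sub (.uu (.sub (.add (.q 21 100) (.var 2)) (.q 1 1)) (.add (.var 1) (.var 3))) (.mul .pi (.add (.var 1) (.var 3))))) (.uu (.q 21 100) (.var 1))) (.neg (.uu (.add (.var 0) (.var 2)) (.var 3)))) (.mul (.uu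 (.var 0) (.q 0 1)) (.q 3 1))) (.uu (.add (.var 0) (.q 4 5)) (.q 0 1))) (.uu (.q 4 5) (.q 0 1))) (.sub (.q (-587) 2000) (.mul (.q 1571 500) (.var 1)))), (.sub (.mul (.q 1 5) (.var 3)) (.mul (.q 49 1000) (.sub (.q 43 50) (.var 2)))), (.sub (.mul (.q 1 5) (.neg (.var 3))) (.mul (.add (.var 1) (.q 11 500)) (.sub (.q 43 50) (.var 2)))), (.sub (.mul (.q 1 5) (.neg (.var 3))) (.mul (.q 91 1000) (.sub (.q 43 50) (.var 2)))), (.sub (.add (.var 0) (.var 2)) (.q 49 50))] 38
    3558134134947026938148501538217994259963879668957270176579627913927926860188196989533022859800258749218721673350004285056258978842007693659352830049864212528629247376573157160599321265914051619854278318675097716841847641510355463685733356741364491845633493100635229769094225104498929119770229803416811403151401786939119619851988658233392282901656609263351766596326126108051148997613243851367152645095962738944300610155785687343731342383346509836574013843532072582977900512184320183776856242161223063379137926347549684466173495982378501705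499871337863463069952230884058492527226679422427432531226244773443343702038040582662762893810524404798645039564628298362559760631978017067667786973963627143533356662818208320365338380715822461391624181833954007517158330447068662138504306152500957703590177131836996308590798971424965071059587876970696378699755457213377245621252046102874832791681883177265285124861520692001174039962532206934672160363091416075649518200403419092277541324758538762012127823970354199718175246570255322206151988630019841089814883376219083979821069973693646083810811086964541311788706187285166729328959594823263178038236563606326160660469701669375319012961299124255982581954710235834308146550186610168061142031555857805166745785438772956061887255532037104427211316357943314999031725740717004524205815754927536533702531588052086601325522300311251493285994328720060079386659420174134706625007046550697650647266355877869403520010075726791091609323890060834892977007154015512416483381804706986588083873491090643622731089748854750800532696553916843348988527283474211629266811799224126450086031291930630522074576944814659377808114311412256622592734608682623537515519708729575115055400622962603445823296068166514181438035897609222034475770773472942915524243667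
    (Pool.Agent.Work.NumIs.setR 2 (Pool.Agent.Work.NumIs.setL 0 ([V.of 10000 200 1800 0, V.of 10000 210 920 0, V.of 10000 7910 8600 0, V.of 10000 (-910) 490 0]))) =
    8177583822736269409381362790312763618448263475568502570762103001185936172064756238283242427951913912273052083237273164512051116507494793420171618584629114122129850137278989435361832118268030588657210248532228837073594345796639369097400706465198086299847289575685023907897968554982734075538442640225828694497745569299775312599822416008540365007371735554964444381075941391559493241663182151701188720086954838343194529584125491348183439741862702646413897858861006750398690372327576183497090334816200038871149305445237582618260761888556956797096321623753395327775624384484708782348915379153092344815862271664268139889461489391930839655033969601727215827213922071184701151136947116268554850886927889023505762756874572902324073111472392130863193357251994461763108216319927220273749950409934717767426287498023032239731066830198756720273064127293996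49141187014183326583187790935485804743526893296210110096143461497309081653928013267669155694148877955044243225807743299425874084269349451655945562506942101191783803515093693122375138412544828833347854748687082841969595027168308514394523357030096837805575025042244457198330523992835096677553477069037675271748870834208987989882340591368962949742839607091752291612889185376293117372555214794053645522058140024736905888915562509853493198548715294661522014110652777205784072226207026226845865368061275713100868918248146810838546987508109690338211188096050801425080948588293398382493060554551606431612287310326441092044112734185446426012701557691561061362974589998776727564270286179236957501081793159886185879393791264993924642285561063869197620 := by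
  decide +kernel

theorem w_one_A3_p4 : Pool.Agent.Work.NumUs.runT [(.sub (.add (.sub (.add (.add (.sub (.add (.mul .pi (.sub (.add (.mul (.sub (.q 21 100) (.var 0)) (.var 3)) (.mul (.var 1) (.var 2))) (.var 1))) (.add (.uu (.sub (.add (.q 21 100) (.var 2)) (.q 1 1)) (.add (.var 1) (.var 3))) (.mul .pi (.add (.var 1) (.var 3))))) (.uu (.q 21 100) (.var 1))) (.neg (.uu (.add (.var 0) (.var 2)) (.var 3)))) (.mul (.uu (.var 0) (.q 0 1)) (.q 3 1))) (.uu (.add (.var 0) (.q 4 5)) (.q 0 1))) (.uu (.q 4 5) (.q 0 1))) (.sub (.q (-497) 1000) (.mul (.q (-141) 125) (.var 1)))), (.sub (.add (.sub (.add (.add (.sub (.add (.mul .pi (.sub (.add (.mul (.sub (.q 21 100) (.var 0)) (.var 3)) (.mul (.var 1) (.var 2))) (.var 1))) (.sub (.uu (.sub (.add (.q 21 100) (.var 2)) (.q 1 1)) (.add (.var 1) (.var 3))) (.mul .pi (.add (.var 1) (.var 3))))) (.uu (.q 21 100) (.var 1))) (.neg (.uu (.add (.var 0) (.var 2)) (.var 3)))) (.mul (.uu (.var 0) (.q 0 1)) (.q 3 1))) (.uu (.add (.var 0) (.q 4 5)) (.q 0 1))) (.uu (.q 4 5) (.q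 0 1))) (.sub (.q (-497) 1000) (.mul (.q (-141) 125) (.var 1)))), (.sub (.add (.sub (.add (.add (.sub (.add (.mul .pi (.sub (.add (.mul (.sub (.q 21 100) (.var 0)) (.var 3)) (.mul (.var 1) (.var 2))) (.var 1))) (.add (.uu (.sub (.add (.q 21 100) (.var 2)) (.q 1 1)) (.add (.var 1) (.var 3))) (.mul .pi (.add (.var 1) (.var 3))))) (.uu (.q 21 100) (.var 1))) (.neg (.uu (.add (.var 0) (.var 2)) (.var 3)))) (.mul (.uu (.var 0) (.q 0 1)) (.q 3 1))) (.uu (.add (.var 0) (.q 4 5)) (.q 0 1))) (.uu (.q 4 5) (.q 0 1))) (.sub (.q (-587) 2000) (.mul (.q 1571 500) (.var 1)))), (.sub (.add (.sub (.add (.add (.sub (.add (.mul .pi (.sub (.add (.mul (.sub (.q 21 100) (.var 0)) (.var 3)) (.mul (.var 1) (.var 2))) (.var 1))) (.sub (.uu (.sub (.add (.q 21 100) (.var 2)) (.q 1 1)) (.add (.var 1) (.var 3))) (.mul .pi (.add (.var 1) (.var 3))))) (.uu (.q 21 100) (.var 1))) (.neg (.uu (.add (.var 0) (.var 2)) (.var 3)))) (.mul (.uu (.var 0) (.q 0 1)) (.q 3 1))) (.uu (.add (.var 0) (.q 4 5)) (.q 0 1))) (.uu (.q 4 5) (.q 0 1)))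 (.sub (.q (-587) 2000) (.mul (.q 1571 500) (.var 1)))), (.sub (.mul (.q 1 5) (.var 3)) (.mul (.q 49 1000) (.sub (.q 43 50) (.var 2)))), (.sub (.mul (.q 1 5) (.neg (.var 3))) (.mul (.add (.var 1) (.q 11 500)) (.sub (.q 43 50) (.var 2)))), (.sub (.mul (.q 1 5) (.neg (.var 3))) (.mul (.q 91 1000) (.sub (.q 43 50) (.var 2)))), (.sub (.add (.var 0) (.var 2)) (.q 49 50))] 38
    5110989889210168380863351743945477261530164672230314106726314375741210107540472648927026517469946195170657552023295727820031947817184245887607261615393196326331156335799368397101145073917519117910756405332643023170996466122899605685875441540748803937404555984803139942436230346864208797211526650141142934061090980812359570374889010005337728129607334721852777738172463369724683276039488844813242950054346773964496580990078432092614649838664189154008686161788129218999181482704735114685681459260125024294468315903273489136412976180348097998185201014845872079859765240302942988968072111970682715509913919790167587430913430869956774784396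2310010795098920087012944904382194605919476678467818043299306396911017230466080639525456946702450817894958482824965386019426351999545126710937190062091986046414296862643951498319167688742229501706650795587478071324188386457911449236933467862796470430831013131881008966343581817603370500829229322230884304872190265201612983956214117130266834340728496597656683881324486487719693355820148446150784051802084240921792942677623099689198019282149657709814381052362848439065140278574895657749552193542347092316814854704484304427138061749367646286960560184358927475443234518225805574086018319835784700924628352845128633751546056618057222656865843324909294705916345125881915798575361504514137939139177866585503829732068804307390509175677409186719256855646138199256003175089067559286768337398905816284659475401975767956895402568252757045886590401625793847355722566335185911874923545472766892886202309843817612072492886617462111954062120290142847566491824851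
    (Pool.Agent.Work.NumIs.setL 3 (Pool.Agent.Work.NumIs.setR 0 ([V.of 10000 200 1800 0, V.of 10000 210 920 0, V.of 10000 7910 8600 0, V.of 10000 (-910) 490 0]))) =
    1701957519961999257265443367355635014415233344121661271408210675591053822735452554163213172332933806633380501695779419582462970847162956461043891170510791071155104856910047427455054255046640879155681934968831735868547086263205985012243525401254112024071302802277237761968309067476555040161939870077579813298055012823379418738582494177118136401573020434445458405228194557387595094483367744769928145299029274524753066496479191207713548542977996382111750254892703117833150883035205207993629682917443013114584095174238734642854525310649559694240344858638629172532015568812631115271905258302580748639595699314584816796671214174069936638961194173381153921593864488302906539553333419650612037482432228204537562537358544253043672933466255719635939988899715889108794693331770327590362904027212668730651405442682246115476952628335367857321090639809454618270863993225595080371622685980728184282215287144529943992903113533277078560614344161162894426273775188036807247549650100344163206155682121115369281725949628425052814622933488046301030388237186801962146007812403470306022152201142274578839913042454575818318137311744276724704981070461802977981621427782906318388785105043592958429425844141915008827075147175880073334568223229320427907313107156811153389099813241847669166947890500274275148675606827116296461764545993200216848159875857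 := by
  decide +kernel

theorem w_one_A3_p5_q1 : Pool.Agent.Work.NumUs.runT [(.sub (.add (.sub (.add (.add (.sub (.add (.mul .pi (.sub (.add (.mul (.sub (.q 21 100) (.var 0)) (.var 3)) (.mul (.var 1) (.var 2))) (.var 1))) (.add (.uu (.sub (.add (.q 21 100) (.var 2)) (.q 1 1)) (.add (.var 1) (.var 3))) (.mul .pi (.add (.var 1) (.var 3))))) (.uu (.q 21 100) (.var 1))) (.neg (.uu (.add (.var 0) (.var 2)) (.var 3)))) (.mul (.uu (.var 0) (.q 0 1)) (.q 3 1))) (.uu (.add (.var 0) (.q 4 5)) (.q 0 1))) (.uu (.q 4 5) (.q 0 1))) (.sub (.q (-497) 1000) (.mul (.q (-141) 125) (.var 1)))), (.sub (.add (.sub (.add (.add (.sub (.add (.mul .pi (.sub (.add (.mul (.sub (.q 21 100) (.var 0)) (.var 3)) (.mul (.var 1) (.var 2))) (.var 1))) (.sub (.uu (.sub (.add (.q 21 100) (.var 2)) (.q 1 1)) (.add (.var 1) (.var 3))) (.mul .pi (.add (.var 1) (.var 3))))) (.uu (.q 21 100) (.var 1))) (.neg (.uu (.add (.var 0) (.var 2)) (.var 3)))) (.mul (.uu (.var 0) (.q 0 1)) (.q 3 1))) (.uu (.add (.var 0) (.q 4 5)) (.q 0 1))) (.uu (.q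 4 5) (.q 0 1))) (.sub (.q (-497) 1000) (.mul (.q (-141) 125) (.var 1)))), (.sub (.add (.sub (.add (.add (.sub (.add (.mul .pi (.sub (.add (.mul (.sub (.q 21 100) (.var 0)) (.var 3)) (.mul (.var 1) (.var 2))) (.var 1))) (.add (.uu (.sub (.add (.q 21 100) (.var 2)) (.q 1 1)) (.add (.var 1) (.var 3))) (.mul .pi (.add (.var 1) (.var 3))))) (.uu (.q 21 100) (.var 1))) (.neg (.uu (.add (.var 0) (.var 2)) (.var 3)))) (.mul (.uu (.var 0) (.q 0 1)) (.q 3 1))) (.uu (.add (.var 0) (.q 4 5)) (.q 0 1))) (.uu (.q 4 5) (.q 0 1))) (.sub (.q (-587) 2000) (.mul (.q 1571 500) (.var 1)))), (.sub (.add (.sub (.add (.add (.sub (.add (.mul .pi (.sub (.add (.mul (.sub (.q 21 100) (.var 0)) (.var 3)) (.mul (.var 1) (.var 2))) (.var 1))) (.sub (.uu (.sub (.add (.q 21 100) (.var 2)) (.q 1 1)) (.add (.var 1) (.var 3))) (.mul .pi (.add (.var 1) (.var 3))))) (.uu (.q 21 100) (.var 1))) (.neg (.uu (.add (.var 0) (.var 2)) (.var 3)))) (.mul (.uu (.var 0) (.q 0 1)) (.q 3 1))) (.uu (.add (.var 0) (.q 4 5)) (.q 0 1))) (.uu (.q 4 5)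 (.q 0 1))) (.sub (.q (-587) 2000) (.mul (.q 1571 500) (.var 1)))), (.sub (.mul (.q 1 5) (.var 3)) (.mul (.q 49 1000) (.sub (.q 43 50) (.var 2)))), (.sub (.mul (.q 1 5) (.neg (.var 3))) (.mul (.add (.var 1) (.q 11 500)) (.sub (.q 43 50) (.var 2)))), (.sub (.mul (.q 1 5) (.neg (.var 3))) (.mul (.q 91 1000) (.sub (.q 43 50) (.var 2)))), (.sub (.add (.var 0) (.var 2)) (.q 49 50))] 32
    10144457340013976438435574575398176994414528275261290499020878527111135856720522368927080466347538272341373572920438167944329803271072843438648528876964992708892255168617054387659157842675691122744571775012205456903857506890332609488031419523084831381269114031059967052747661277512043953907131374344705422509044485231515280834332073790539124021369340625080218346286979659721822109719322590648699672812397924213129678347582764671525648492443539989660681813315767752129738825769455480537591474756258804289007754172317592161026747886237857903482585302821571663212868981436676474046142448798303297994111176220088105181880081737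4583282408785472713777656650177507895404490205844248512423755972530378592284772547326001182379941519109383566357847451502067797726916950543628354524991685392094413562455857124488487608163175143500290385325019993770686067239693641258811657450891893266482841031683402487309571742588467212514703187979122648308449651376830052616405919048169261237631035217981464929304676158782817627492714799817412379163565062775444197771677136886859146970869431030818359528710836949494753826756366331085221572202740971473562894939280833469802517794894284310555038358534922846669853259746739099972252448473466827232863182265347668934533201998461082091788599905245929972784230034089495367783097133907436919225266466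
    (Pool.Agent.Work.NumIs.setL 2 (Pool.Agent.Work.NumIs.setL 2 ((Pool.Agent.Work.NumIs.setL 2 (Pool.Agent.Work.NumIs.setL 3 (Pool.Agent.Work.NumIs.setL 1 (Pool.Agent.Work.NumIs.setL 0 (Pool.Agent.Work.NumIs.setR 3 (Pool.Agent.Work.NumIs.setR 0 ([V.of 10000 200 1800 0, V.of 10000 210 920 0, V.of 10000 7910 8600 0, V.of 10000 (-910) 490 0])))))))))) =
    11594986831036901348144169584888497573225131454186960255688692437389377327633837174831293298477801581079248106712873635229918834447956129256566428766841065612885037985970733701608046110640945909177358822441833476368028689483252296784993597350200391992763935194847603861467107853949455203350964876778466282813020650430025683641538215057695642711063943337821766027670635079267201518742299213964278069403806189558081996358044235043940965170237298294486167179713482772950623991856195987927907993341500810552300083531177615755852259654177377700810632793922825070789804156306976110407918316929584892420511196652366876016954832657992124852881451564322655441792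978270340685326646544776929626553730291573805459066383600849521819311418383195837880111483962843929978748249812047833940393951244220821260386464189534535380874024083730750502167857364572808741247136791360138683520103017315370937529832470126031116739185704467519607925502082794197839311352864734586397791046050326769345107211155269858182683102278226655470925896465033432266874565447730381271660282455533544416319063640188690718300338736009087006392183346090009248333033467564041483447991405515129976438695525740582902117371458830068151165247028894786740425451438868 := by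
  decide +kernel

theorem w_one_A3_p5_q2 : Pool.Agent.Work.NumUs.runT [(.sub (.add (.sub (.add (.add (.sub (.add (.mul .pi (.sub (.add (.mul (.sub (.q 21 100) (.var 0)) (.var 3)) (.mul (.var 1) (.var 2))) (.var 1))) (.add (.uu (.sub (.add (.q 21 100) (.var 2)) (.q 1 1)) (.add (.var 1) (.var 3))) (.mul .pi (.add (.var 1) (.var 3))))) (.uu (.q 21 100) (.var 1))) (.neg (.uu (.add (.var 0) (.var 2)) (.var 3)))) (.mul (.uu (.var 0) (.q 0 1)) (.q 3 1))) (.uu (.add (.var 0) (.q 4 5)) (.q 0 1))) (.uu (.q 4 5) (.q 0 1))) (.sub (.q (-497) 1000) (.mul (.q (-141) 125) (.var 1)))), (.sub (.add (.sub (.add (.add (.sub (.add (.mul .pi (.sub (.add (.mul (.sub (.q 21 100) (.var 0)) (.var 3)) (.mul (.var 1) (.var 2))) (.var 1))) (.sub (.uu (.sub (.add (.q 21 100) (.var 2)) (.q 1 1)) (.add (.var 1) (.var 3))) (.mul .pi (.add (.var 1) (.var 3))))) (.uu (.q 21 100) (.var 1))) (.neg (.uu (.add (.var 0) (.var 2)) (.var 3)))) (.mul (.uu (.var 0) (.q 0 1)) (.q 3 1))) (.uu (.add (.var 0) (.q 4 5)) (.q 0 1))) (.uu (.q 4 5)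 (.q 0 1))) (.sub (.q (-497) 1000) (.mul (.q (-141) 125) (.var 1)))), (.sub (.add (.sub (.add (.add (.sub (.add (.mul .pi (.sub (.add (.mul (.sub (.q 21 100) (.var 0)) (.var 3)) (.mul (.var 1) (.var 2))) (.var 1))) (.add (.uu (.sub (.add (.q 21 100) (.var 2)) (.q 1 1)) (.add (.var 1) (.var 3))) (.mul .pi (.add (.var 1) (.var 3))))) (.uu (.q 21 100) (.var 1))) (.neg (.uu (.add (.var 0) (.var 2)) (.var 3)))) (.mul (.uu (.var 0) (.q 0 1)) (.q 3 1))) (.uu (.add (.var 0) (.q 4 5)) (.q 0 1))) (.uu (.q 4 5) (.q 0 1))) (.sub (.q (-587) 2000) (.mul (.q 1571 500) (.var 1)))), (.sub (.add (.sub (.add (.add (.sub (.add (.mul .pi (.sub (.add (.mul (.sub (.q 21 100) (.var 0)) (.var 3)) (.mul (.var 1) (.var 2))) (.var 1))) (.sub (.uu (.sub (.add (.q 21 100) (.var 2)) (.q 1 1)) (.add (.var 1) (.var 3))) (.mul .pi (.add (.var 1) (.var 3))))) (.uu (.q 21 100) (.var 1))) (.neg (.uu (.add (.var 0) (.var 2)) (.var 3)))) (.mul (.uu (.var 0) (.q 0 1)) (.q 3 1))) (.uu (.add (.var 0) (.q 4 5)) (.q 0 1))) (.uu (.q 4 5) (.q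 0 1))) (.sub (.q (-587) 2000) (.mul (.q 1571 500) (.var 1)))), (.sub (.mul (.q 1 5) (.var 3)) (.mul (.q 49 1000) (.sub (.q 43 50) (.var 2)))), (.sub (.mul (.q 1 5) (.neg (.var 3))) (.mul (.add (.var 1) (.q 11 500)) (.sub (.q 43 50) (.var 2)))), (.sub (.mul (.q 1 5) (.neg (.var 3))) (.mul (.q 91 1000) (.sub (.q 43 50) (.var 2)))), (.sub (.add (.var 0) (.var 2)) (.q 49 50))] 32
    115949868310369013481441695848884975732251314541869602556886924373893773276338371748312932984778015810792481067128736352299188344479561292565664287668410656128850379859707337016080461106409459091773588224418334763680286894832522967849935973502003919927639351948476038614671078539494552033509648767784662828130206504300256836415382150576956427110639433378217660276706350792672015187422992139642780694038061895580819963580442350439409651702372982944861671797134827729506239918561959879279079933415008105523000835311776157558522596541773777008106327939228250707898041563069761104079183169295848924205111966523668760169548326579921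24852881451564322655441792978270340685326646544776929626553730291573805459066383600849521819311418383195837880111483962843929978748249812047833940393951244220821260386464189534535380874024083730750502167857364572808741247136791360138683520103017315370937529832470126031116739185704467519607925502082794197839311352864734586397791046050326769345107211155269858182683102278226655470925896465033432266874565447730381271660282455533544416319063640188690718300338736009087006392183346090009248333033467564041483447991405515129976438695525740582902117371458830068151165247028894786740425451438867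
    (Pool.Agent.Work.NumIs.setR 2 (Pool.Agent.Work.NumIs.setL 2 ((Pool.Agent.Work.NumIs.setL 2 (Pool.Agent.Work.NumIs.setL 3 (Pool.Agent.Work.NumIs.setL 1 (Pool.Agent.Work.NumIs.setL 0 (Pool.Agent.Work.NumIs.setR 3 (Pool.Agent.Work.NumIs.setR 0 ([V.of 10000 200 1800 0, V.of 10000 210 920 0, V.of 10000 7910 8600 0, V.of 10000 (-910) 490 0])))))))))) =
    2930034773823027108618149492556109997876455314274324835366042666559786041939727589259534677770623707877123833930833844362764342725786896708981400296807608213090489287446171651444401266263815164459142575057106743909637212852172390250209404127898490742476651440316028259213181408328345143986362931123280848781627872261829233812154705670432714624790486318013985023416197277410859250958255476503513137719968616885568417868365594624317973928584223517139193072317518129802164138883224202065044260139224928006433685506369237758231753632383955238981292621022867338752887870427919096024841868834531911631168288084097690971425597443514598047056019888080081848309008248298161097859488257567986509113898418625261608810280934828810159654140566513347140623930990089336848720940963067270988667634788992345333972668772920869812223635312957480317805477426404689431841983356089971032761674711794806443854702829651828747592759494388595801355725587894870980744920685763427569481097562328129024486873174835931640776322682128137091592127683037563403432922994389252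 := by
  decide +kernel

theorem w_one_A3_p5_q3 : Pool.Agent.Work.NumUs.runT [(.sub (.add (.sub (.add (.add (.sub (.add (.mul .pi (.sub (.add (.mul (.sub (.q 21 100) (.var 0)) (.var 3)) (.mul (.var 1) (.var 2))) (.var 1))) (.add (.uu (.sub (.add (.q 21 100) (.var 2)) (.q 1 1)) (.add (.var 1) (.var 3))) (.mul .pi (.add (.var 1) (.var 3))))) (.uu (.q 21 100) (.var 1))) (.neg (.uu (.add (.var 0) (.var 2)) (.var 3)))) (.mul (.uu (.var 0) (.q 0 1)) (.q 3 1))) (.uu (.add (.var 0) (.q 4 5)) (.q 0 1))) (.uu (.q 4 5) (.q 0 1))) (.sub (.q (-497) 1000) (.mul (.q (-141) 125) (.var 1)))), (.sub (.add (.sub (.add (.add (.sub (.add (.mul .pi (.sub (.add (.mul (.sub (.q 21 100) (.var 0)) (.var 3)) (.mul (.var 1) (.var 2))) (.var 1))) (.sub (.uu (.sub (.add (.q 21 100) (.var 2)) (.q 1 1)) (.add (.var 1) (.var 3))) (.mul .pi (.add (.var 1) (.var 3))))) (.uu (.q 21 100) (.var 1))) (.neg (.uu (.add (.var 0) (.var 2)) (.var 3)))) (.mul (.uu (.var 0) (.q 0 1)) (.q 3 1))) (.uu (.add (.var 0) (.q 4 5)) (.q 0 1))) (.uu (.q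 4 5) (.q 0 1))) (.sub (.q (-497) 1000) (.mul (.q (-141) 125) (.var 1)))), (.sub (.add (.sub (.add (.add (.sub (.add (.mul .pi (.sub (.add (.mul (.sub (.q 21 100) (.var 0)) (.var 3)) (.mul (.var 1) (.var 2))) (.var 1))) (.add (.uu (.sub (.add (.q 21 100) (.var 2)) (.q 1 1)) (.add (.var 1) (.var 3))) (.mul .pi (.add (.var 1) (.var 3))))) (.uu (.q 21 100) (.var 1))) (.neg (.uu (.add (.var 0) (.var 2)) (.var 3)))) (.mul (.uu (.var 0) (.q 0 1)) (.q 3 1))) (.uu (.add (.var 0) (.q 4 5)) (.q 0 1))) (.uu (.q 4 5) (.q 0 1))) (.sub (.q (-587) 2000) (.mul (.q 1571 500) (.var 1)))), (.sub (.add (.sub (.add (.add (.sub (.add (.mul .pi (.sub (.add (.mul (.sub (.q 21 100) (.var 0)) (.var 3)) (.mul (.var 1) (.var 2))) (.var 1))) (.sub (.uu (.sub (.add (.q 21 100) (.var 2)) (.q 1 1)) (.add (.var 1) (.var 3))) (.mul .pi (.add (.var 1) (.var 3))))) (.uu (.q 21 100) (.var 1))) (.neg (.uu (.add (.var 0) (.var 2)) (.var 3)))) (.mul (.uu (.var 0) (.q 0 1)) (.q 3 1))) (.uu (.add (.var 0) (.q 4 5)) (.q 0 1))) (.uu (.q 4 5)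 (.q 0 1))) (.sub (.q (-587) 2000) (.mul (.q 1571 500) (.var 1)))), (.sub (.mul (.q 1 5) (.var 3)) (.mul (.q 49 1000) (.sub (.q 43 50) (.var 2)))), (.sub (.mul (.q 1 5) (.neg (.var 3))) (.mul (.add (.var 1) (.q 11 500)) (.sub (.q 43 50) (.var 2)))), (.sub (.mul (.q 1 5) (.neg (.var 3))) (.mul (.q 91 1000) (.sub (.q 43 50) (.var 2)))), (.sub (.add (.var 0) (.var 2)) (.q 49 50))] 30
    715340520952887477689977903456081542450306473211505086759287760390572764145441305971566083440093678680938436018269981533878013360787816579341162181837794973899045236192913000840918277896439249135532855238551451149813772668987399963430030304662717466424963730545905336721968117267662388668545637481269738472077117251423152786170582439070486968942989823733883062357470038430385559315980340943240512138664213106828227018643944000077630353658257694614060808671269074658731479219537158707286196323052960939070724000578427187068299226656239072016917143804410971375216765241191185552939909383430642488078195333031662834820702500858056163832036105488301232497316466869668236782101625382809206326635356109683009963447493854689980384311661746422641753889401877279504082260977311345456217684274656334310051921087138884231499910965077509843214227887305832380820796717795403084170330740184278916956714558020466002830263548434715771815362692357146235533427901797711808955346084552765875118865521200178623236406904816439719626984297616592627791240965427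
    (Pool.Agent.Work.NumIs.setL 1 (Pool.Agent.Work.NumIs.setL 0 (Pool.Agent.Work.NumIs.setL 3 (Pool.Agent.Work.NumIs.setR 2 ((Pool.Agent.Work.NumIs.setL 2 (Pool.Agent.Work.NumIs.setL 3 (Pool.Agent.Work.NumIs.setL 1 (Pool.Agent.Work.NumIs.setL 0 (Pool.Agent.Work.NumIs.setR 3 (Pool.Agent.Work.NumIs.setR 0 ([V.of 10000 200 1800 0, V.of 10000 210 920 0, V.of 10000 7910 8600 0, V.of 10000 (-910) 490 0])))))))))))) =
    399646870837914268389364429756524705516564373767314774618110803068325898606498425425585331402621281731080352218250037636674924322712535599610859017536779125101121922201873966005542199430064788623472197938424728401311249205878696383907557621716837902382644133126936068754826442093966739251411757339878593696511723925742613471356090700755590362532995948032941382723066343150358361274885057241375877368999742400829437655019213077581902412461307016754947577595986790504808645691640039575789460279360302162596912529538503804976451190540762225187571250317692568458884172919954713808692643988179321983062037791552089419936761460848641996839061391057041327682639632838702187992439797838385047724815702928725296211429795110351916666683935491180549346041832715656171123251911366220649487186695233844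 := by
  decide +kernel

theorem w_one_A3_p5_q4 : Pool.Agent.Work.NumUs.runT [(.sub (.add (.sub (.add (.add (.sub (.add (.mul .pi (.sub (.add (.mul (.sub (.q 21 100) (.var 0)) (.var 3)) (.mul (.var 1) (.var 2))) (.var 1))) (.add (.uu (.sub (.add (.q 21 100) (.var 2)) (.q 1 1)) (.add (.var 1) (.var 3))) (.mul .pi (.add (.var 1) (.var 3))))) (.uu (.q 21 100) (.var 1))) (.neg (.uu (.add (.var 0) (.var 2)) (.var 3)))) (.mul (.uu (.var 0) (.q 0 1)) (.q 3 1))) (.uu (.add (.var 0) (.q 4 5)) (.q 0 1))) (.uu (.q 4 5) (.q 0 1))) (.sub (.q (-497) 1000) (.mul (.q (-141) 125) (.var 1)))), (.sub (.add (.sub (.add (.add (.sub (.add (.mul .pi (.sub (.add (.mul (.sub (.q 21 100) (.var 0)) (.var 3)) (.mul (.var 1) (.var 2))) (.var 1))) (.sub (.uu (.sub (.add (.q 21 100) (.var 2)) (.q 1 1)) (.add (.var 1) (.var 3))) (.mul .pi (.add (.var 1) (.var 3))))) (.uu (.q 21 100) (.var 1))) (.neg (.uu (.add (.var 0) (.var 2)) (.var 3)))) (.mul (.uu (.var 0) (.q 0 1)) (.q 3 1))) (.uu (.add (.var 0) (.q 4 5)) (.q 0 1))) (.uu (.q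 4 5) (.q 0 1))) (.sub (.q (-497) 1000) (.mul (.q (-141) 125) (.var 1)))), (.sub (.add (.sub (.add (.add (.sub (.add (.mul .pi (.sub (.add (.mul (.sub (.q 21 100) (.var 0)) (.var 3)) (.mul (.var 1) (.var 2))) (.var 1))) (.add (.uu (.sub (.add (.q 21 100) (.var 2)) (.q 1 1)) (.add (.var 1) (.var 3))) (.mul .pi (.add (.var 1) (.var 3))))) (.uu (.q 21 100) (.var 1))) (.neg (.uu (.add (.var 0) (.var 2)) (.var 3)))) (.mul (.uu (.var 0) (.q 0 1)) (.q 3 1))) (.uu (.add (.var 0) (.q 4 5)) (.q 0 1))) (.uu (.q 4 5) (.q 0 1))) (.sub (.q (-587) 2000) (.mul (.q 1571 500) (.var 1)))), (.sub (.add (.sub (.add (.add (.sub (.add (.mul .pi (.sub (.add (.mul (.sub (.q 21 100) (.var 0)) (.var 3)) (.mul (.var 1) (.var 2))) (.var 1))) (.sub (.uu (.sub (.add (.q 21 100) (.var 2)) (.q 1 1)) (.add (.var 1) (.var 3))) (.mul .pi (.add (.var 1) (.var 3))))) (.uu (.q 21 100) (.var 1))) (.neg (.uu (.add (.var 0) (.var 2)) (.var 3)))) (.mul (.uu (.var 0) (.q 0 1)) (.q 3 1))) (.uu (.add (.var 0) (.q 4 5)) (.q 0 1))) (.uu (.q 4 5)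 (.q 0 1))) (.sub (.q (-587) 2000) (.mul (.q 1571 500) (.var 1)))), (.sub (.mul (.q 1 5) (.var 3)) (.mul (.q 49 1000) (.sub (.q 43 50) (.var 2)))), (.sub (.mul (.q 1 5) (.neg (.var 3))) (.mul (.add (.var 1) (.q 11 500)) (.sub (.q 43 50) (.var 2)))), (.sub (.mul (.q 1 5) (.neg (.var 3))) (.mul (.q 91 1000) (.sub (.q 43 50) (.var 2)))), (.sub (.add (.var 0) (.var 2)) (.q 49 50))] 30
    399646870837914268389364429756524705516564373767314774618110803068325898606498425425585331402621281731080352218250037636674924322712535599610859017536779125101121922201873966005542199430064788623472197938424728401311249205878696383907557621716837902382644133126936068754826442093966739251411757339878593696511723925742613471356090700755590362532995948032941382723066343150358361274885057241375877368999742400829437655019213077581902412461307016754947577595986790504808645691640039575789460279360302162596912529538503804976451190540762225187571250317692568458884172919954713808692643988179321983062037791552089419936761460848641996839061391057041327682639632838702187992439797838385047724815702928725296211429795110351916666683935491180549346041832715656171123251911366220649487186695233843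
    (Pool.Agent.Work.NumIs.setR 1 (Pool.Agent.Work.NumIs.setL 0 (Pool.Agent.Work.NumIs.setL 3 (Pool.Agent.Work.NumIs.setR 2 ((Pool.Agent.Work.NumIs.setL 2 (Pool.Agent.Work.NumIs.setL 3 (Pool.Agent.Work.NumIs.setL 1 (Pool.Agent.Work.NumIs.setL 0 (Pool.Agent.Work.NumIs.setR 3 (Pool.Agent.Work.NumIs.setR 0 ([V.of 10000 200 1800 0, V.of 10000 210 920 0, V.of 10000 7910 8600 0, V.of 10000 (-910) 490 0])))))))))))) =
    926482894634358164523332488681812474776253715044267181696684613666310675968146807784766016624911279425133196396558802831720517005432532487242710335958340135004708806558467131626716853676667120353946671194682149408254341991438529698737289250327386375890941299681099671675678622495009503859235589463693617144341677358900108513343475491360633685880326064212846143704182674907587514176926555767554420887413479885267166943564286489608715243036218716617850953041217770952849431209498424169683980430308934702475481685005259284139932487865702434200626155613747156136761190663274752885128271533629568042107137879840323471827549108078291648956491467225907956299036248712140538046807896352783738645175118429012416404744082579051314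 := by
  decide +kernel

theorem w_one_A3_p5_q5 : Pool.Agent.Work.NumUs.runT [(.sub (.add (.sub (.add (.add (.sub (.add (.mul .pi (.sub (.add (.mul (.sub (.q 21 100) (.var 0)) (.var 3)) (.mul (.var 1) (.var 2))) (.var 1))) (.add (.uu (.sub (.add (.q 21 100) (.var 2)) (.q 1 1)) (.add (.var 1) (.var 3))) (.mul .pi (.add (.var 1) (.var 3))))) (.uu (.q 21 100) (.var 1))) (.neg (.uu (.add (.var 0) (.var 2)) (.var 3)))) (.mul (.uu (.var 0) (.q 0 1)) (.q 3 1))) (.uu (.add (.var 0) (.q 4 5)) (.q 0 1))) (.uu (.q 4 5) (.q 0 1))) (.sub (.q (-497) 1000) (.mul (.q (-141) 125) (.var 1)))), (.sub (.add (.sub (.add (.add (.sub (.add (.mul .pi (.sub (.add (.mul (.sub (.q 21 100) (.var 0)) (.var 3)) (.mul (.var 1) (.var 2))) (.var 1))) (.sub (.uu (.sub (.add (.q 21 100) (.var 2)) (.q 1 1)) (.add (.var 1) (.var 3))) (.mul .pi (.add (.var 1) (.var 3))))) (.uu (.q 21 100) (.var 1))) (.neg (.uu (.add (.var 0) (.var 2)) (.var 3)))) (.mul (.uu (.var 0) (.q 0 1)) (.q 3 1))) (.uu (.add (.var 0) (.q 4 5)) (.q 0 1))) (.uu (.q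 4 5) (.q 0 1))) (.sub (.q (-497) 1000) (.mul (.q (-141) 125) (.var 1)))), (.sub (.add (.sub (.add (.add (.sub (.add (.mul .pi (.sub (.add (.mul (.sub (.q 21 100) (.var 0)) (.var 3)) (.mul (.var 1) (.var 2))) (.var 1))) (.add (.uu (.sub (.add (.q 21 100) (.var 2)) (.q 1 1)) (.add (.var 1) (.var 3))) (.mul .pi (.add (.var 1) (.var 3))))) (.uu (.q 21 100) (.var 1))) (.neg (.uu (.add (.var 0) (.var 2)) (.var 3)))) (.mul (.uu (.var 0) (.q 0 1)) (.q 3 1))) (.uu (.add (.var 0) (.q 4 5)) (.q 0 1))) (.uu (.q 4 5) (.q 0 1))) (.sub (.q (-587) 2000) (.mul (.q 1571 500) (.var 1)))), (.sub (.add (.sub (.add (.add (.sub (.add (.mul .pi (.sub (.add (.mul (.sub (.q 21 100) (.var 0)) (.var 3)) (.mul (.var 1) (.var 2))) (.var 1))) (.sub (.uu (.sub (.add (.q 21 100) (.var 2)) (.q 1 1)) (.add (.var 1) (.var 3))) (.mul .pi (.add (.var 1) (.var 3))))) (.uu (.q 21 100) (.var 1))) (.neg (.uu (.add (.var 0) (.var 2)) (.var 3)))) (.mul (.uu (.var 0) (.q 0 1)) (.q 3 1))) (.uu (.add (.var 0) (.q 4 5)) (.q 0 1))) (.uu (.q 4 5)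 (.q 0 1))) (.sub (.q (-587) 2000) (.mul (.q 1571 500) (.var 1)))), (.sub (.mul (.q 1 5) (.var 3)) (.mul (.q 49 1000) (.sub (.q 43 50) (.var 2)))), (.sub (.mul (.q 1 5) (.neg (.var 3))) (.mul (.add (.var 1) (.q 11 500)) (.sub (.q 43 50) (.var 2)))), (.sub (.mul (.q 1 5) (.neg (.var 3))) (.mul (.q 91 1000) (.sub (.q 43 50) (.var 2)))), (.sub (.add (.var 0) (.var 2)) (.q 49 50))] 31
    926482894634358164523332488681812474776253715044267181696684613666310675968146807784766016624911279425133196396558802831720517005432532487242710335958340135004708806558467131626716853676667120353946671194682149408254341991438529698737289250327386375890941299681099671675678622495009503859235589463693617144341677358900108513343475491360633685880326064212846143704182674907587514176926555767554420887413479885267166943564286489608715243036218716617850953041217770952849431209498424169683980430308934702475481685005259284139932487865702434200626155613747156136761190663274752885128271533629568042107137879840323471827549108078291648956491467225907956299036248712140538046807896352783738645175118429012416404744082579051313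
    (Pool.Agent.Work.NumIs.setR 0 (Pool.Agent.Work.NumIs.setL 3 (Pool.Agent.Work.NumIs.setR 2 ((Pool.Agent.Work.NumIs.setL 2 (Pool.Agent.Work.NumIs.setL 3 (Pool.Agent.Work.NumIs.setL 1 (Pool.Agent.Work.NumIs.setL 0 (Pool.Agent.Work.NumIs.setR 3 (Pool.Agent.Work.NumIs.setR 0 ([V.of 10000 200 1800 0, V.of 10000 210 920 0, V.of 10000 7910 8600 0, V.of 10000 (-910) 490 0]))))))))))) =
    1469599812406152505908937358193233249544617419440113217187308311062910141755476370354974771511423175279743192969099795200943377223244204753075373147044101967627340714352810858466674421959484271784769718863046292908783306934026897929906127054894873299573874416939406622813964366191181177014935771213570338502311026405596731693978827833220958909409628451297330117961519976901573099542947523708736267614290205689055319291040493010837099125162569569902944409993621719758688965457448652800873811044548429793424240668349163141850374577581076322250381599427081485114094576194976020813998785640735117899192633361 := by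
  decide +kernel

theorem w_one_A3_p5_q6 : Pool.Agent.Work.NumUs.runT [(.sub (.add (.sub (.add (.add (.sub (.add (.mul .pi (.sub (.add (.mul (.sub (.q 21 100) (.var 0)) (.var 3)) (.mul (.var 1) (.var 2))) (.var 1))) (.add (.uu (.sub (.add (.q 21 100) (.var 2)) (.q 1 1)) (.add (.var 1) (.var 3))) (.mul .pi (.add (.var 1) (.var 3))))) (.uu (.q 21 100) (.var 1))) (.neg (.uu (.add (.var 0) (.var 2)) (.var 3)))) (.mul (.uu (.var 0) (.q 0 1)) (.q 3 1))) (.uu (.add (.var 0) (.q 4 5)) (.q 0 1))) (.uu (.q 4 5) (.q 0 1))) (.sub (.q (-497) 1000) (.mul (.q (-141) 125) (.var 1)))), (.sub (.add (.sub (.add (.add (.sub (.add (.mul .pi (.sub (.add (.mul (.sub (.q 21 100) (.var 0)) (.var 3)) (.mul (.var 1) (.var 2))) (.var 1))) (.sub (.uu (.sub (.add (.q 21 100) (.var 2)) (.q 1 1)) (.add (.var 1) (.var 3))) (.mul .pi (.add (.var 1) (.var 3))))) (.uu (.q 21 100) (.var 1))) (.neg (.uu (.add (.var 0) (.var 2)) (.var 3)))) (.mul (.uu (.var 0) (.q 0 1)) (.q 3 1))) (.uu (.add (.var 0) (.q 4 5)) (.q 0 1))) (.uu (.q 4 5)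 (.q 0 1))) (.sub (.q (-497) 1000) (.mul (.q (-141) 125) (.var 1)))), (.sub (.add (.sub (.add (.add (.sub (.add (.mul .pi (.sub (.add (.mul (.sub (.q 21 100) (.var 0)) (.var 3)) (.mul (.var 1) (.var 2))) (.var 1))) (.add (.uu (.sub (.add (.q 21 100) (.var 2)) (.q 1 1)) (.add (.var 1) (.var 3))) (.mul .pi (.add (.var 1) (.var 3))))) (.uu (.q 21 100) (.var 1))) (.neg (.uu (.add (.var 0) (.var 2)) (.var 3)))) (.mul (.uu (.var 0) (.q 0 1)) (.q 3 1))) (.uu (.add (.var 0) (.q 4 5)) (.q 0 1))) (.uu (.q 4 5) (.q 0 1))) (.sub (.q (-587) 2000) (.mul (.q 1571 500) (.var 1)))), (.sub (.add (.sub (.add (.add (.sub (.add (.mul .pi (.sub (.add (.mul (.sub (.q 21 100) (.var 0)) (.var 3)) (.mul (.var 1) (.var 2))) (.var 1))) (.sub (.uu (.sub (.add (.q 21 100) (.var 2)) (.q 1 1)) (.add (.var 1) (.var 3))) (.mul .pi (.add (.var 1) (.var 3))))) (.uu (.q 21 100) (.var 1))) (.neg (.uu (.add (.var 0) (.var 2)) (.var 3)))) (.mul (.uu (.var 0) (.q 0 1)) (.q 3 1))) (.uu (.add (.var 0) (.q 4 5)) (.q 0 1))) (.uu (.q 4 5) (.q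 0 1))) (.sub (.q (-587) 2000) (.mul (.q 1571 500) (.var 1)))), (.sub (.mul (.q 1 5) (.var 3)) (.mul (.q 49 1000) (.sub (.q 43 50) (.var 2)))), (.sub (.mul (.q 1 5) (.neg (.var 3))) (.mul (.add (.var 1) (.q 11 500)) (.sub (.q 43 50) (.var 2)))), (.sub (.mul (.q 1 5) (.neg (.var 3))) (.mul (.q 91 1000) (.sub (.q 43 50) (.var 2)))), (.sub (.add (.var 0) (.var 2)) (.q 49 50))] 32
    1469599812406152505908937358193233249544617419440113217187308311062910141755476370354974771511423175279743192969099795200943377223244204753075373147044101967627340714352810858466674421959484271784769718863046292908783306934026897929906127054894873299573874416939406622813964366191181177014935771213570338502311026405596731693978827833220958909409628451297330117961519976901573099542947523708736267614290205689055319291040493010837099125162569569902944409993621719758688965457448652800873811044548429793424240668349163141850374577581076322250381599427081485114094576194976020813998785640735117899192633360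
    (Pool.Agent.Work.NumIs.setR 3 (Pool.Agent.Work.NumIs.setR 2 ((Pool.Agent.Work.NumIs.setL 2 (Pool.Agent.Work.NumIs.setL 3 (Pool.Agent.Work.NumIs.setL 1 (Pool.Agent.Work.NumIs.setL 0 (Pool.Agent.Work.NumIs.setR 3 (Pool.Agent.Work.NumIs.setR 0 ([V.of 10000 200 1800 0, V.of 10000 210 920 0, V.of 10000 7910 8600 0, V.of 10000 (-910) 490 0])))))))))) =
    1401519596487190729054391248887284516853921336593735902011211691916380063777424211840605517875121283797972863167857928467696549628490643265796063563388921706797924723007975443331407949408993026528138846266790669354232127126719377450853468947310326861928820053996473906339611402693921257986961146558351839544592882543179256147364452203007658872041347934052782171212692238713811015646884463986145274748125272454314536372223370562398051381266183442976898584359761924513520207841347363282083331150577955048965683620785868779993414475995136568308240508486825451959700180239654560865401063576445691966241 := by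
  decide +kernel

theorem w_one_A3_p5 : Pool.Agent.Work.NumUs.runT [(.sub (.add (.sub (.add (.add (.sub (.add (.mul .pi (.sub (.add (.mul (.sub (.q 21 100) (.var 0)) (.var 3)) (.mul (.var 1) (.var 2))) (.var 1))) (.add (.uu (.sub (.add (.q 21 100) (.var 2)) (.q 1 1)) (.add (.var 1) (.var 3))) (.mul .pi (.add (.var 1) (.var 3))))) (.uu (.q 21 100) (.var 1))) (.neg (.uu (.add (.var 0) (.var 2)) (.var 3)))) (.mul (.uu (.var 0) (.q 0 1)) (.q 3 1))) (.uu (.add (.var 0) (.q 4 5)) (.q 0 1))) (.uu (.q 4 5) (.q 0 1))) (.sub (.q (-497) 1000) (.mul (.q (-141) 125) (.var 1)))), (.sub (.add (.sub (.add (.add (.sub (.add (.mul .pi (.sub (.add (.mul (.sub (.q 21 100) (.var 0)) (.var 3)) (.mul (.var 1) (.var 2))) (.var 1))) (.sub (.uu (.sub (.add (.q 21 100) (.var 2)) (.q 1 1)) (.add (.var 1) (.var 3))) (.mul .pi (.add (.var 1) (.var 3))))) (.uu (.q 21 100) (.var 1))) (.neg (.uu (.add (.var 0) (.var 2)) (.var 3)))) (.mul (.uu (.var 0) (.q 0 1)) (.q 3 1))) (.uu (.add (.var 0) (.q 4 5)) (.q 0 1))) (.uu (.q 4 5) (.q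 0 1))) (.sub (.q (-497) 1000) (.mul (.q (-141) 125) (.var 1)))), (.sub (.add (.sub (.add (.add (.sub (.add (.mul .pi (.sub (.add (.mul (.sub (.q 21 100) (.var 0)) (.var 3)) (.mul (.var 1) (.var 2))) (.var 1))) (.add (.uu (.sub (.add (.q 21 100) (.var 2)) (.q 1 1)) (.add (.var 1) (.var 3))) (.mul .pi (.add (.var 1) (.var 3))))) (.uu (.q 21 100) (.var 1))) (.neg (.uu (.add (.var 0) (.var 2)) (.var 3)))) (.mul (.uu (.var 0) (.q 0 1)) (.q 3 1))) (.uu (.add (.var 0) (.q 4 5)) (.q 0 1))) (.uu (.q 4 5) (.q 0 1))) (.sub (.q (-587) 2000) (.mul (.q 1571 500) (.var 1)))), (.sub (.add (.sub (.add (.add (.sub (.add (.mul .pi (.sub (.add (.mul (.sub (.q 21 100) (.var 0)) (.var 3)) (.mul (.var 1) (.var 2))) (.var 1))) (.sub (.uu (.sub (.add (.q 21 100) (.var 2)) (.q 1 1)) (.add (.var 1) (.var 3))) (.mul .pi (.add (.var 1) (.var 3))))) (.uu (.q 21 100) (.var 1))) (.neg (.uu (.add (.var 0) (.var 2)) (.var 3)))) (.mul (.uu (.var 0) (.q 0 1)) (.q 3 1))) (.uu (.add (.var 0) (.q 4 5)) (.q 0 1))) (.uu (.q 4 5) (.q 0 1)))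 (.sub (.q (-587) 2000) (.mul (.q 1571 500) (.var 1)))), (.sub (.mul (.q 1 5) (.var 3)) (.mul (.q 49 1000) (.sub (.q 43 50) (.var 2)))), (.sub (.mul (.q 1 5) (.neg (.var 3))) (.mul (.add (.var 1) (.q 11 500)) (.sub (.q 43 50) (.var 2)))), (.sub (.mul (.q 1 5) (.neg (.var 3))) (.mul (.q 91 1000) (.sub (.q 43 50) (.var 2)))), (.sub (.add (.var 0) (.var 2)) (.q 49 50))] 34
    2596981079043577968239507091301933310570119238466890367749344902940450779320453726445332599384969797719391634667632170993748429637394647920294023392503038133476417323165965923240744407724976927422610374403124596967387521763925148028936043397909716833604893191951351565503401287043083252200225631832244588162315388219267911893589010890378015749470551200020535896649466792888786460088146583206067116239973868598561197656981187755910566014065546237353134544208836544545213139396980603017623417537602253897985985068113303593222847458876891623291541837522322345782494459247789177355812466892365644286492461112342554926561300924789332029664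9081014727080102445442021223549492696127619180481528967776919624901772115456302689265028892002192987608947584529356218090739339168858758397871460376169871988699423869052827689772836736074338643205118405295633213361572162255784307428324676219607304110951036751250366102647606403764016122655397966963110752468493469799915276331330876833545015803255021901997096648401312638134988753257569065872656070513714629549347043035941624542574343889500039349974259070656979649629780757816722483901688697232101104455893368269444555492936783502089819784940248747482434495165209592896626809207507771612974659929003247240499711606037015497881575742958073032762888726910814152472866280303851321668215330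
    (Pool.Agent.Work.NumIs.setL 2 (Pool.Agent.Work.NumIs.setL 3 (Pool.Agent.Work.NumIs.setL 1 (Pool.Agent.Work.NumIs.setL 0 (Pool.Agent.Work.NumIs.setR 3 (Pool.Agent.Work.NumIs.setR 0 ([V.of 10000 200 1800 0, V.of 10000 210 920 0, V.of 10000 7910 8600 0, V.of 10000 (-910) 490 0]))))))) =
    1401519596487190729054391248887284516853921336593735902011211691916380063777424211840605517875121283797972863167857928467696549628490643265796063563388921706797924723007975443331407949408993026528138846266790669354232127126719377450853468947310326861928820053996473906339611402693921257986961146558351839544592882543179256147364452203007658872041347934052782171212692238713811015646884463986145274748125272454314536372223370562398051381266183442976898584359761924513520207841347363282083331150577955048965683620785868779993414475995136568308240508486825451959700180239654560865401063576445691966241 :=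
      Pool.Agent.Work.NumUs.runT_split rfl rfl rfl
        (Pool.Agent.Work.NumUs.runT_split rfl rfl rfl
          w_one_A3_p5_q1
          w_one_A3_p5_q2)
        (Pool.Agent.Work.NumUs.runT_split rfl rfl rfl
          (Pool.Agent.Work.NumUs.runT_split rfl rfl rfl
            (Pool.Agent.Work.NumUs.runT_split rfl rfl rfl
              w_one_A3_p5_q3
              w_one_A3_p5_q4)
            w_one_A3_p5_q5)
          w_one_A3_p5_q6)

theorem w_one_A3_p6 : Pool.Agent.Work.NumUs.runT [(.sub (.add (.sub (.add (.add (.sub (.add (.mul .pi (.sub (.add (.mul (.sub (.q 21 100) (.var 0)) (.var 3)) (.mul (.var 1) (.var 2))) (.var 1))) (.add (.uu (.sub (.add (.q 21 100) (.var 2)) (.q 1 1)) (.add (.var 1) (.var 3))) (.mul .pi (.add (.var 1) (.var 3))))) (.uu (.q 21 100) (.var 1))) (.neg (.uu (.add (.var 0) (.var 2)) (.var 3)))) (.mul (.uu (.var 0) (.q 0 1)) (.q 3 1))) (.uu (.add (.var 0) (.q 4 5)) (.q 0 1))) (.uu (.q 4 5) (.q 0 1))) (.sub (.q (-497) 1000) (.mul (.q (-141) 125) (.var 1)))), (.sub (.add (.sub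 (.add (.add (.sub (.add (.mul .pi (.sub (.add (.mul (.sub (.q 21 100) (.var 0)) (.var 3)) (.mul (.var 1) (.var 2))) (.var 1))) (.sub (.uu (.sub (.add (.q 21 100) (.var 2)) (.q 1 1)) (.add (.var 1) (.var 3))) (.mul .pi (.add (.var 1) (.var 3))))) (.uu (.q 21 100) (.var 1))) (.neg (.uu (.add (.var 0) (.var 2)) (.var 3)))) (.mul (.uu (.var 0) (.q 0 1)) (.q 3 1))) (.uu (.add (.var 0) (.q 4 5)) (.q 0 1))) (.uu (.q 4 5) (.q 0 1))) (.sub (.q (-497) 1000) (.mul (.q (-141) 125) (.var 1)))), (.sub (.add (.sub (.add (.add (.sub (.add (.mul .pi (.sub (.add (.mul (.sub (.q 21 100) (.var 0)) (.var 3)) (.mul (.var 1) (.var 2))) (.var 1))) (.add (.uu (.sub (.add (.q 21 100) (.var 2)) (.q 1 1)) (.add (.var 1) (.var 3))) (.mul .pi (.add (.var 1) (.var 3))))) (.uu (.q 21 100) (.var 1))) (.neg (.uu (.add (.var 0) (.var 2)) (.var 3)))) (.mul (.uu (.var 0) (.q 0 1)) (.q 3 1))) (.uu (.add (.var 0) (.q 4 5)) (.q 0 1))) (.uu (.q 4 5) (.q 0 1))) (.sub (.q (-587) 2000) (.mul (.q 1571 500) (.var 1)))), (.sub (.add (.sub (.add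 (.add (.sub (.add (.mul .pi (.sub (.add (.mul (.sub (.q 21 100) (.var 0)) (.var 3)) (.mul (.var 1) (.var 2))) (.var 1))) (.sub (.uu (.sub (.add (.q 21 100) (.var 2)) (.q 1 1)) (.add (.var 1) (.var 3))) (.mul .pi (.add (.var 1) (.var 3))))) (.uu (.q 21 100) (.var 1))) (.neg (.uu (.add (.var 0) (.var 2)) (.var 3)))) (.mul (.uu (.var 0) (.q 0 1)) (.q 3 1))) (.uu (.add (.var 0) (.q 4 5)) (.q 0 1))) (.uu (.q 4 5) (.q 0 1))) (.sub (.q (-587) 2000) (.mul (.q 1571 500) (.var 1)))), (.sub (.mul (.q 1 5) (.var 3)) (.mul (.q 49 1000) (.sub (.q 43 50) (.var 2)))), (.sub (.mul (.q 1 5) (.neg (.var 3))) (.mul (.add (.var 1) (.q 11 500)) (.sub (.q 43 50) (.var 2)))), (.sub (.mul (.q 1 5) (.neg (.var 3))) (.mul (.q 91 1000) (.sub (.q 43 50) (.var 2)))), (.sub (.add (.var 0) (.var 2)) (.q 49 50))] 34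
    1401519596487190729054391248887284516853921336593735902011211691916380063777424211840605517875121283797972863167857928467696549628490643265796063563388921706797924723007975443331407949408993026528138846266790669354232127126719377450853468947310326861928820053996473906339611402693921257986961146558351839544592882543179256147364452203007658872041347934052782171212692238713811015646884463986145274748125272454314536372223370562398051381266183442976898584359761924513520207841347363282083331150577955048965683620785868779993414475995136568308240508486825451959700180239654560865401063576445691966240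
    (Pool.Agent.Work.NumIs.setR 2 (Pool.Agent.Work.NumIs.setL 3 (Pool.Agent.Work.NumIs.setL 1 (Pool.Agent.Work.NumIs.setL 0 (Pool.Agent.Work.NumIs.setR 3 (Pool.Agent.Work.NumIs.setR 0 ([V.of 10000 200 1800 0, V.of 10000 210 920 0, V.of 10000 7910 8600 0, V.of 10000 (-910) 490 0]))))))) =
    21109686980659120394831042161832009011745702697673388524484863913360031636906988911318701439294613711565527287187639443886164587379701689010993009726167035737404919641418429793757859534406378817532985175166663654499998023047647034548667383126259895532741188010081413342262423327362579710938203521157405310365293304431812505120856789159426413694715910127563141333854932961426534089376735626762103764597149120633909811 := by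
  decide +kernel

theorem w_one_A3_p7 : Pool.Agent.Work.NumUs.runT [(.sub (.add (.sub (.add (.add (.sub (.add (.mul .pi (.sub (.add (.mul (.sub (.q 21 100) (.var 0)) (.var 3)) (.mul (.var 1) (.var 2))) (.var 1))) (.add (.uu (.sub (.add (.q 21 100) (.var 2)) (.q 1 1)) (.add (.var 1) (.var 3))) (.mul .pi (.add (.var 1) (.var 3))))) (.uu (.q 21 100) (.var 1))) (.neg (.uu (.add (.var 0) (.var 2)) (.var 3)))) (.mul (.uu (.var 0) (.q 0 1)) (.q 3 1))) (.uu (.add (.var 0) (.q 4 5)) (.q 0 1))) (.uu (.q 4 5) (.q 0 1))) (.sub (.q (-497) 1000) (.mul (.q (-141) 125) (.var 1)))), (.sub (.add (.sub (.add (.add (.sub (.add (.mul .pi (.sub (.add (.mul (.sub (.q 21 100) (.var 0)) (.var 3)) (.mul (.var 1) (.var 2))) (.var 1))) (.sub (.uu (.sub (.add (.q 21 100) (.var 2)) (.q 1 1)) (.add (.var 1) (.var 3))) (.mul .pi (.add (.var 1) (.var 3))))) (.uu (.q 21 100) (.var 1))) (.neg (.uu (.add (.var 0) (.var 2)) (.var 3)))) (.mul (.uu (.var 0) (.q 0 1)) (.q 3 1))) (.uu (.add (.var 0) (.q 4 5)) (.q 0 1))) (.uu (.q 4 5) (.q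 0 1))) (.sub (.q (-497) 1000) (.mul (.q (-141) 125) (.var 1)))), (.sub (.add (.sub (.add (.add (.sub (.add (.mul .pi (.sub (.add (.mul (.sub (.q 21 100) (.var 0)) (.var 3)) (.mul (.var 1) (.var 2))) (.var 1))) (.add (.uu (.sub (.add (.q 21 100) (.var 2)) (.q 1 1)) (.add (.var 1) (.var 3))) (.mul .pi (.add (.var 1) (.var 3))))) (.uu (.q 21 100) (.var 1))) (.neg (.uu (.add (.var 0) (.var 2)) (.var 3)))) (.mul (.uu (.var 0) (.q 0 1)) (.q 3 1))) (.uu (.add (.var 0) (.q 4 5)) (.q 0 1))) (.uu (.q 4 5) (.q 0 1))) (.sub (.q (-587) 2000) (.mul (.q 1571 500) (.var 1)))), (.sub (.add (.sub (.add (.add (.sub (.add (.mul .pi (.sub (.add (.mul (.sub (.q 21 100) (.var 0)) (.var 3)) (.mul (.var 1) (.var 2))) (.var 1))) (.sub (.uu (.sub (.add (.q 21 100) (.var 2)) (.q 1 1)) (.add (.var 1) (.var 3))) (.mul .pi (.add (.var 1) (.var 3))))) (.uu (.q 21 100) (.var 1))) (.neg (.uu (.add (.var 0) (.var 2)) (.var 3)))) (.mul (.uu (.var 0) (.q 0 1)) (.q 3 1))) (.uu (.add (.var 0) (.q 4 5)) (.q 0 1))) (.uu (.q 4 5) (.q 0 1)))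 (.sub (.q (-587) 2000) (.mul (.q 1571 500) (.var 1)))), (.sub (.mul (.q 1 5) (.var 3)) (.mul (.q 49 1000) (.sub (.q 43 50) (.var 2)))), (.sub (.mul (.q 1 5) (.neg (.var 3))) (.mul (.add (.var 1) (.q 11 500)) (.sub (.q 43 50) (.var 2)))), (.sub (.mul (.q 1 5) (.neg (.var 3))) (.mul (.q 91 1000) (.sub (.q 43 50) (.var 2)))), (.sub (.add (.var 0) (.var 2)) (.q 49 50))] 35
    21109686980659120394831042161832009011745702697673388524484863913360031636906988911318701439294613711565527287187639443886164587379701689010993009726167035737404919641418429793757859534406378817532985175166663654499998023047647034548667383126259895532741188010081413342262423327362579710938203521157405310365293304431812505120856789159426413694715910127563141333854932961426534089376735626762103764597149120633909810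
    (Pool.Agent.Work.NumIs.setR 3 (Pool.Agent.Work.NumIs.setL 1 (Pool.Agent.Work.NumIs.setL 0 (Pool.Agent.Work.NumIs.setR 3 (Pool.Agent.Work.NumIs.setR 0 ([V.of 10000 200 1800 0, V.of 10000 210 920 0, V.of 10000 7910 8600 0, V.of 10000 (-910) 490 0])))))) =
    4687292105711531408036805626389666781627264024495313715520353506551749864096787259475074591662438752496361812835443548560779755658356846350852233868115489676099398783963507718332643822024858608073613103243518475005124473541961335098774950741753441259605225790459173871807512973788907231429013649205962479619212613808756918736454897080762374826860197113989756919373282464708404335546440139639768621604 := by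
  decide +kernel

theorem w_one_A3_p8 : Pool.Agent.Work.NumUs.runT [(.sub (.add (.sub (.add (.add (.sub (.add (.mul .pi (.sub (.add (.mul (.sub (.q 21 100) (.var 0)) (.var 3)) (.mul (.var 1) (.var 2))) (.var 1))) (.add (.uu (.sub (.add (.q 21 100) (.var 2)) (.q 1 1)) (.add (.var 1) (.var 3))) (.mul .pi (.add (.var 1) (.var 3))))) (.uu (.q 21 100) (.var 1))) (.neg (.uu (.add (.var 0) (.var 2)) (.var 3)))) (.mul (.uu (.var 0) (.q 0 1)) (.q 3 1))) (.uu (.add (.var 0) (.q 4 5)) (.q 0 1))) (.uu (.q 4 5) (.q 0 1))) (.sub (.q (-497) 1000) (.mul (.q (-141) 125) (.var 1)))), (.sub (.add (.sub (.add (.add (.sub (.add (.mul .pi (.sub (.add (.mul (.sub (.q 21 100) (.var 0)) (.var 3)) (.mul (.var 1) (.var 2))) (.var 1))) (.sub (.uu (.sub (.add (.q 21 100) (.var 2)) (.q 1 1)) (.add (.var 1) (.var 3))) (.mul .pi (.add (.var 1) (.var 3))))) (.uu (.q 21 100) (.var 1))) (.neg (.uu (.add (.var 0) (.var 2)) (.var 3)))) (.mul (.uu (.var 0) (.q 0 1)) (.q 3 1))) (.uu (.add (.var 0) (.q 4 5)) (.q 0 1))) (.uu (.q 4 5) (.q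 0 1))) (.sub (.q (-497) 1000) (.mul (.q (-141) 125) (.var 1)))), (.sub (.add (.sub (.add (.add (.sub (.add (.mul .pi (.sub (.add (.mul (.sub (.q 21 100) (.var 0)) (.var 3)) (.mul (.var 1) (.var 2))) (.var 1))) (.add (.uu (.sub (.add (.q 21 100) (.var 2)) (.q 1 1)) (.add (.var 1) (.var 3))) (.mul .pi (.add (.var 1) (.var 3))))) (.uu (.q 21 100) (.var 1))) (.neg (.uu (.add (.var 0) (.var 2)) (.var 3)))) (.mul (.uu (.var 0) (.q 0 1)) (.q 3 1))) (.uu (.add (.var 0) (.q 4 5)) (.q 0 1))) (.uu (.q 4 5) (.q 0 1))) (.sub (.q (-587) 2000) (.mul (.q 1571 500) (.var 1)))), (.sub (.add (.sub (.add (.add (.sub (.add (.mul .pi (.sub (.add (.mul (.sub (.q 21 100) (.var 0)) (.var 3)) (.mul (.var 1) (.var 2))) (.var 1))) (.sub (.uu (.sub (.add (.q 21 100) (.var 2)) (.q 1 1)) (.add (.var 1) (.var 3))) (.mul .pi (.add (.var 1) (.var 3))))) (.uu (.q 21 100) (.var 1))) (.neg (.uu (.add (.var 0) (.var 2)) (.var 3)))) (.mul (.uu (.var 0) (.q 0 1)) (.q 3 1))) (.uu (.add (.var 0) (.q 4 5)) (.q 0 1))) (.uu (.q 4 5) (.q 0 1)))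 (.sub (.q (-587) 2000) (.mul (.q 1571 500) (.var 1)))), (.sub (.mul (.q 1 5) (.var 3)) (.mul (.q 49 1000) (.sub (.q 43 50) (.var 2)))), (.sub (.mul (.q 1 5) (.neg (.var 3))) (.mul (.add (.var 1) (.q 11 500)) (.sub (.q 43 50) (.var 2)))), (.sub (.mul (.q 1 5) (.neg (.var 3))) (.mul (.q 91 1000) (.sub (.q 43 50) (.var 2)))), (.sub (.add (.var 0) (.var 2)) (.q 49 50))] 36
    4687292105711531408036805626389666781627264024495313715520353506551749864096787259475074591662438752496361812835443548560779755658356846350852233868115489676099398783963507718332643822024858608073613103243518475005124473541961335098774950741753441259605225790459173871807512973788907231429013649205962479619212613808756918736454897080762374826860197113989756919373282464708404335546440139639768621603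
    (Pool.Agent.Work.NumIs.setR 1 (Pool.Agent.Work.NumIs.setL 0 (Pool.Agent.Work.NumIs.setR 3 (Pool.Agent.Work.NumIs.setR 0 ([V.of 10000 200 1800 0, V.of 10000 210 920 0, V.of 10000 7910 8600 0, V.of 10000 (-910) 490 0]))))) =
    51314806481057867824303697347382140637462154889386010451567371096247276366917764775411535472426757555789371270738230313198905991563121514235497531681836509696007789747982034571602166779818172665443304167083497566292268250943641790300790286277643934015384331648981371717616559371746475982085653879699362519562779316218849421457132974258497047455516983858 := by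
  decide +kernel

end L2
end TL
end Pool.Agent.Work.MP_b30479_gtS.G2

end

section

/-!
# Pieces of the certificates of `TL2wA`, part 4
-/

set_option linter.unusedVariables false
set_option linter.unusedSimpArgs false
set_option linter.unusedTactic false
set_option linter.unreachableTactic false
set_option deprecated.oldSectionVars true

namespace Pool.Agent.Work.MP_b30479_gtS.G2
open NumUs
open NumUs.E
open NumIs (V)
namespace TL
namespace L2

theorem w_one_A3_p9_q1 : Pool.Agent.Work.NumUs.runT [(.sub (.add (.sub (.add (.add (.sub (.add (.mul .pi (.sub (.add (.mul (.sub (.q 21 100) (.var 0)) (.var 3)) (.mul (.var 1) (.var 2))) (.var 1))) (.add (.uu (.sub (.add (.q 21 100) (.var 2)) (.q 1 1)) (.add (.var 1) (.var 3))) (.mul .pi (.add (.var 1) (.var 3))))) (.uu (.q 21 100) (.var 1))) (.neg (.uu (.add (.var 0) (.var 2)) (.var 3)))) (.mul (.uu (.var 0) (.q 0 1)) (.q 3 1))) (.uu (.add (.var 0) (.q 4 5)) (.q 0 1))) (.uu (.q 4 5) (.q 0 1))) (.sub (.q (-497) 1000) (.mul (.q (-141) 125) (.var 1)))), (.sub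 (.add (.sub (.add (.add (.sub (.add (.mul .pi (.sub (.add (.mul (.sub (.q 21 100) (.var 0)) (.var 3)) (.mul (.var 1) (.var 2))) (.var 1))) (.sub (.uu (.sub (.add (.q 21 100) (.var 2)) (.q 1 1)) (.add (.var 1) (.var 3))) (.mul .pi (.add (.var 1) (.var 3))))) (.uu (.q 21 100) (.var 1))) (.neg (.uu (.add (.var 0) (.var 2)) (.var 3)))) (.mul (.uu (.var 0) (.q 0 1)) (.q 3 1))) (.uu (.add (.var 0) (.q 4 5)) (.q 0 1))) (.uu (.q 4 5) (.q 0 1))) (.sub (.q (-497) 1000) (.mul (.q (-141) 125) (.var 1)))), (.sub (.add (.sub (.add (.add (.sub (.add (.mul .pi (.sub (.add (.mul (.sub (.q 21 100) (.var 0)) (.var 3)) (.mul (.var 1) (.var 2))) (.var 1))) (.add (.uu (.sub (.add (.q 21 100) (.var 2)) (.q 1 1)) (.add (.var 1) (.var 3))) (.mul .pi (.add (.var 1) (.var 3))))) (.uu (.q 21 100) (.var 1))) (.neg (.uu (.add (.var 0) (.var 2)) (.var 3)))) (.mul (.uu (.var 0) (.q 0 1)) (.q 3 1))) (.uu (.add (.var 0) (.q 4 5)) (.q 0 1))) (.uu (.q 4 5) (.q 0 1))) (.sub (.q (-587) 2000) (.mul (.q 1571 500) (.var 1)))), (.sub (.add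 (.sub (.add (.add (.sub (.add (.mul .pi (.sub (.add (.mul (.sub (.q 21 100) (.var 0)) (.var 3)) (.mul (.var 1) (.var 2))) (.var 1))) (.sub (.uu (.sub (.add (.q 21 100) (.var 2)) (.q 1 1)) (.add (.var 1) (.var 3))) (.mul .pi (.add (.var 1) (.var 3))))) (.uu (.q 21 100) (.var 1))) (.neg (.uu (.add (.var 0) (.var 2)) (.var 3)))) (.mul (.uu (.var 0) (.q 0 1)) (.q 3 1))) (.uu (.add (.var 0) (.q 4 5)) (.q 0 1))) (.uu (.q 4 5) (.q 0 1))) (.sub (.q (-587) 2000) (.mul (.q 1571 500) (.var 1)))), (.sub (.mul (.q 1 5) (.var 3)) (.mul (.q 49 1000) (.sub (.q 43 50) (.var 2)))), (.sub (.mul (.q 1 5) (.neg (.var 3))) (.mul (.add (.var 1) (.q 11 500)) (.sub (.q 43 50) (.var 2)))), (.sub (.mul (.q 1 5) (.neg (.var 3))) (.mul (.q 91 1000) (.sub (.q 43 50) (.var 2)))), (.sub (.add (.var 0) (.var 2)) (.q 49 50))] 36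
    3207175405066116739018981084211383789841384680586625653222960693515454772932360298463220967026672347236835704421139394574931624472695094639718595730114781856000486859248877160725135423738635791590206510442718597893266765683977611893799392892352745875961520728061335732351034960734154748880353367481210157472673707263678088841070810891156065465969811491
    (Pool.Agent.Work.NumIs.setL 1 ((Pool.Agent.Work.NumIs.setR 0 (Pool.Agent.Work.NumIs.setR 3 (Pool.Agent.Work.NumIs.setR 0 ([V.of 10000 200 1800 0, V.of 10000 210 920 0, V.of 10000 7910 8600 0, V.of 10000 (-910) 490 0])))))) =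
    8461473347266070715119173801960985065199407925163862877414326557827105894949606179829271330907969463045386305585999327141924 := by
  decide +kernel

theorem w_one_A3_p9_q2 : Pool.Agent.Work.NumUs.runT [(.sub (.add (.sub (.add (.add (.sub (.add (.mul .pi (.sub (.add (.mul (.sub (.q 21 100) (.var 0)) (.var 3)) (.mul (.var 1) (.var 2))) (.var 1))) (.add (.uu (.sub (.add (.q 21 100) (.var 2)) (.q 1 1)) (.add (.var 1) (.var 3))) (.mul .pi (.add (.var 1) (.var 3))))) (.uu (.q 21 100) (.var 1))) (.neg (.uu (.add (.var 0) (.var 2)) (.var 3)))) (.mul (.uu (.var 0) (.q 0 1)) (.q 3 1))) (.uu (.add (.var 0) (.q 4 5)) (.q 0 1))) (.uu (.q 4 5) (.q 0 1))) (.sub (.q (-497) 1000) (.mul (.q (-141) 125) (.var 1)))), (.sub (.add (.sub (.add (.add (.sub (.add (.mul .pi (.sub (.add (.mul (.sub (.q 21 100) (.var 0)) (.var 3)) (.mul (.var 1) (.var 2))) (.var 1))) (.sub (.uu (.sub (.add (.q 21 100) (.var 2)) (.q 1 1)) (.add (.var 1) (.var 3))) (.mul .pi (.add (.var 1) (.var 3))))) (.uu (.q 21 100) (.var 1))) (.neg (.uu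 (.add (.var 0) (.var 2)) (.var 3)))) (.mul (.uu (.var 0) (.q 0 1)) (.q 3 1))) (.uu (.add (.var 0) (.q 4 5)) (.q 0 1))) (.uu (.q 4 5) (.q 0 1))) (.sub (.q (-497) 1000) (.mul (.q (-141) 125) (.var 1)))), (.sub (.add (.sub (.add (.add (.sub (.add (.mul .pi (.sub (.add (.mul (.sub (.q 21 100) (.var 0)) (.var 3)) (.mul (.var 1) (.var 2))) (.var 1))) (.add (.uu (.sub (.add (.q 21 100) (.var 2)) (.q 1 1)) (.add (.var 1) (.var 3))) (.mul .pi (.add (.var 1) (.var 3))))) (.uu (.q 21 100) (.var 1))) (.neg (.uu (.add (.var 0) (.var 2)) (.var 3)))) (.mul (.uu (.var 0) (.q 0 1)) (.q 3 1))) (.uu (.add (.var 0) (.q 4 5)) (.q 0 1))) (.uu (.q 4 5) (.q 0 1))) (.sub (.q (-587) 2000) (.mul (.q 1571 500) (.var 1)))), (.sub (.add (.sub (.add (.add (.sub (.add (.mul .pi (.sub (.add (.mul (.sub (.q 21 100) (.var 0)) (.var 3)) (.mul (.var 1) (.var 2))) (.var 1))) (.sub (.uu (.sub (.add (.q 21 100) (.var 2)) (.q 1 1)) (.add (.var 1) (.var 3))) (.mul .pi (.add (.var 1) (.var 3))))) (.uu (.q 21 100) (.var 1))) (.neg (.uu (.add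 (.var 0) (.var 2)) (.var 3)))) (.mul (.uu (.var 0) (.q 0 1)) (.q 3 1))) (.uu (.add (.var 0) (.q 4 5)) (.q 0 1))) (.uu (.q 4 5) (.q 0 1))) (.sub (.q (-587) 2000) (.mul (.q 1571 500) (.var 1)))), (.sub (.mul (.q 1 5) (.var 3)) (.mul (.q 49 1000) (.sub (.q 43 50) (.var 2)))), (.sub (.mul (.q 1 5) (.neg (.var 3))) (.mul (.add (.var 1) (.q 11 500)) (.sub (.q 43 50) (.var 2)))), (.sub (.mul (.q 1 5) (.neg (.var 3))) (.mul (.q 91 1000) (.sub (.q 43 50) (.var 2)))), (.sub (.add (.var 0) (.var 2)) (.q 49 50))] 36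
    8461473347266070715119173801960985065199407925163862877414326557827105894949606179829271330907969463045386305585999327141923
    (Pool.Agent.Work.NumIs.setR 1 ((Pool.Agent.Work.NumIs.setR 0 (Pool.Agent.Work.NumIs.setR 3 (Pool.Agent.Work.NumIs.setR 0 ([V.of 10000 200 1800 0, V.of 10000 210 920 0, V.of 10000 7910 8600 0, V.of 10000 (-910) 490 0])))))) =
    1 := by
  decide +kernel

theorem w_one_A3_p9 : Pool.Agent.Work.NumUs.runT [(.sub (.add (.sub (.add (.add (.sub (.add (.mul .pi (.sub (.add (.mul (.sub (.q 21 100) (.var 0)) (.var 3)) (.mul (.var 1) (.var 2))) (.var 1))) (.add (.uu (.sub (.add (.q 21 100) (.var 2)) (.q 1 1)) (.add (.var 1) (.var 3))) (.mul .pi (.add (.var 1) (.var 3))))) (.uu (.q 21 100) (.var 1))) (.neg (.uu (.add (.var 0) (.var 2)) (.var 3)))) (.mul (.uu (.var 0) (.q 0 1)) (.q 3 1))) (.uu (.add (.var 0) (.q 4 5)) (.q 0 1))) (.uu (.q 4 5) (.q 0 1))) (.sub (.q (-497) 1000) (.mul (.q (-141) 125) (.var 1)))), (.sub (.add (.sub (.add (.add (.sub (.add (.mul .pi (.sub (.add (.mul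 (.sub (.q 21 100) (.var 0)) (.var 3)) (.mul (.var 1) (.var 2))) (.var 1))) (.sub (.uu (.sub (.add (.q 21 100) (.var 2)) (.q 1 1)) (.add (.var 1) (.var 3))) (.mul .pi (.add (.var 1) (.var 3))))) (.uu (.q 21 100) (.var 1))) (.neg (.uu (.add (.var 0) (.var 2)) (.var 3)))) (.mul (.uu (.var 0) (.q 0 1)) (.q 3 1))) (.uu (.add (.var 0) (.q 4 5)) (.q 0 1))) (.uu (.q 4 5) (.q 0 1))) (.sub (.q (-497) 1000) (.mul (.q (-141) 125) (.var 1)))), (.sub (.add (.sub (.add (.add (.sub (.add (.mul .pi (.sub (.add (.mul (.sub (.q 21 100) (.var 0)) (.var 3)) (.mul (.var 1) (.var 2))) (.var 1))) (.add (.uu (.sub (.add (.q 21 100) (.var 2)) (.q 1 1)) (.add (.var 1) (.var 3))) (.mul .pi (.add (.var 1) (.var 3))))) (.uu (.q 21 100) (.var 1))) (.neg (.uu (.add (.var 0) (.var 2)) (.var 3)))) (.mul (.uu (.var 0) (.q 0 1)) (.q 3 1))) (.uu (.add (.var 0) (.q 4 5)) (.q 0 1))) (.uu (.q 4 5) (.q 0 1))) (.sub (.q (-587) 2000) (.mul (.q 1571 500) (.var 1)))), (.sub (.add (.sub (.add (.add (.sub (.add (.mul .pi (.sub (.add (.mul (.sub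 (.q 21 100) (.var 0)) (.var 3)) (.mul (.var 1) (.var 2))) (.var 1))) (.sub (.uu (.sub (.add (.q 21 100) (.var 2)) (.q 1 1)) (.add (.var 1) (.var 3))) (.mul .pi (.add (.var 1) (.var 3))))) (.uu (.q 21 100) (.var 1))) (.neg (.uu (.add (.var 0) (.var 2)) (.var 3)))) (.mul (.uu (.var 0) (.q 0 1)) (.q 3 1))) (.uu (.add (.var 0) (.q 4 5)) (.q 0 1))) (.uu (.q 4 5) (.q 0 1))) (.sub (.q (-587) 2000) (.mul (.q 1571 500) (.var 1)))), (.sub (.mul (.q 1 5) (.var 3)) (.mul (.q 49 1000) (.sub (.q 43 50) (.var 2)))), (.sub (.mul (.q 1 5) (.neg (.var 3))) (.mul (.add (.var 1) (.q 11 500)) (.sub (.q 43 50) (.var 2)))), (.sub (.mul (.q 1 5) (.neg (.var 3))) (.mul (.q 91 1000) (.sub (.q 43 50) (.var 2)))), (.sub (.add (.var 0) (.var 2)) (.q 49 50))] 37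
    51314806481057867824303697347382140637462154889386010451567371096247276366917764775411535472426757555789371270738230313198905991563121514235497531681836509696007789747982034571602166779818172665443304167083497566292268250943641790300790286277643934015384331648981371717616559371746475982085653879699362519562779316218849421457132974258497047455516983857
    (Pool.Agent.Work.NumIs.setR 0 (Pool.Agent.Work.NumIs.setR 3 (Pool.Agent.Work.NumIs.setR 0 ([V.of 10000 200 1800 0, V.of 10000 210 920 0, V.of 10000 7910 8600 0, V.of 10000 (-910) 490 0])))) =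
    1 :=
      Pool.Agent.Work.NumUs.runT_split rfl rfl rfl
        w_one_A3_p9_q1
        w_one_A3_p9_q2

theorem w_one_A4_p1 : Pool.Agent.Work.NumUs.runT [(.sub (.add (.sub (.add (.add (.sub (.add (.mul .pi (.sub (.add (.mul (.sub (.q 21 100) (.var 0)) (.var 3)) (.mul (.var 1) (.var 2))) (.var 1))) (.add (.uu (.sub (.add (.q 21 100) (.var 2)) (.q 1 1)) (.add (.var 1) (.var 3))) (.mul .pi (.add (.var 1) (.var 3))))) (.uu (.q 21 100) (.var 1))) (.uu (.q 1 50) (.var 3))) (.mul (.uu (.var 0) (.q 0 1)) (.q 3 1))) (.uu (.add (.var 0) (.q 4 5)) (.q 0 1))) (.uu (.q 4 5) (.q 0 1))) (.sub (.q (-497) 1000) (.mul (.q (-141) 125) (.var 1)))), (.sub (.add (.sub (.add (.add (.sub (.add (.mul .pi (.sub (.add (.mul (.sub (.q 21 100) (.var 0)) (.var 3)) (.mul (.var 1) (.var 2))) (.var 1))) (.sub (.uu (.sub (.add (.q 21 100) (.var 2)) (.q 1 1)) (.add (.var 1) (.var 3))) (.mul .pi (.add (.var 1) (.var 3))))) (.uu (.q 21 100) (.var 1))) (.uu (.q 1 50) (.var 3))) (.mul (.uu (.var 0) (.q 0 1)) (.q 3 1))) (.uu (.add (.var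 0) (.q 4 5)) (.q 0 1))) (.uu (.q 4 5) (.q 0 1))) (.sub (.q (-497) 1000) (.mul (.q (-141) 125) (.var 1)))), (.sub (.add (.sub (.add (.add (.sub (.add (.mul .pi (.sub (.add (.mul (.sub (.q 21 100) (.var 0)) (.var 3)) (.mul (.var 1) (.var 2))) (.var 1))) (.add (.uu (.sub (.add (.q 21 100) (.var 2)) (.q 1 1)) (.add (.var 1) (.var 3))) (.mul .pi (.add (.var 1) (.var 3))))) (.uu (.q 21 100) (.var 1))) (.uu (.q 1 50) (.var 3))) (.mul (.uu (.var 0) (.q 0 1)) (.q 3 1))) (.uu (.add (.var 0) (.q 4 5)) (.q 0 1))) (.uu (.q 4 5) (.q 0 1))) (.sub (.q (-587) 2000) (.mul (.q 1571 500) (.var 1)))), (.sub (.add (.sub (.add (.add (.sub (.add (.mul .pi (.sub (.add (.mul (.sub (.q 21 100) (.var 0)) (.var 3)) (.mul (.var 1) (.var 2))) (.var 1))) (.sub (.uu (.sub (.add (.q 21 100) (.var 2)) (.q 1 1)) (.add (.var 1) (.var 3))) (.mul .pi (.add (.var 1) (.var 3))))) (.uu (.q 21 100) (.var 1))) (.uu (.q 1 50) (.var 3))) (.mul (.uu (.var 0) (.q 0 1)) (.q 3 1))) (.uu (.add (.var 0) (.q 4 5)) (.q 0 1))) (.uu (.q 4 5) (.q 0 1)))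 (.sub (.q (-587) 2000) (.mul (.q 1571 500) (.var 1)))), (.sub (.mul (.q 1 5) (.var 3)) (.mul (.q 49 1000) (.sub (.q 43 50) (.var 2)))), (.sub (.mul (.q 1 5) (.neg (.var 3))) (.mul (.add (.var 1) (.q 11 500)) (.sub (.q 43 50) (.var 2)))), (.sub (.mul (.q 1 5) (.neg (.var 3))) (.mul (.q 91 1000) (.sub (.q 43 50) (.var 2))))] 40
    296862708936619447681169888456072005426538975355561160265720927411527756623696605295338219068088282887809727207152287801724680249086693284141666519678047080044794118984439827767124238818298696316906788273015689324286682212737570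
    ([V.of 10000 1200 1800 0, V.of 10000 210 920 0, V.of 10000 7910 8600 0, V.of 10000 (-910) 490 0]) =
    1 := by
  decide +kernel

theorem w_one_B3_p1 : Pool.Agent.Work.NumUs.runT [(.sub (.add (.sub (.add (.add (.sub (.add (.mul .pi (.sub (.add (.mul (.sub (.q 21 100) (.var 0)) (.var 3)) (.mul (.var 1) (.var 2))) (.var 1))) (.add (.uu (.sub (.add (.q 21 100) (.var 2)) (.q 1 1)) (.add (.var 1) (.var 3))) (.mul .pi (.add (.var 1) (.var 3))))) (.uu (.q 21 100) (.var 1))) (.uu (.q 3 100) (.var 3))) (.mul (.uu (.var 0) (.q 0 1)) (.q 3 1))) (.uu (.q 49 50) (.q 0 1))) (.uu (.q 4 5) (.q 0 1))) (.sub (.q (-497) 1000) (.mul (.q (-141) 125) (.var 1)))), (.sub (.add (.sub (.add (.add (.sub (.add (.mul .pi (.sub (.add (.mul (.sub (.q 21 100) (.var 0)) (.var 3)) (.mul (.var 1) (.var 2))) (.var 1))) (.sub (.uu (.sub (.add (.q 21 100) (.var 2)) (.q 1 1)) (.add (.var 1) (.var 3))) (.mul .pi (.add (.var 1) (.var 3))))) (.uu (.q 21 100) (.var 1))) (.uu (.q 3 100) (.var 3))) (.mul (.uu (.var 0) (.q 0 1)) (.q 3 1)))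 (.uu (.q 49 50) (.q 0 1))) (.uu (.q 4 5) (.q 0 1))) (.sub (.q (-497) 1000) (.mul (.q (-141) 125) (.var 1)))), (.sub (.add (.sub (.add (.add (.sub (.add (.mul .pi (.sub (.add (.mul (.sub (.q 21 100) (.var 0)) (.var 3)) (.mul (.var 1) (.var 2))) (.var 1))) (.add (.uu (.sub (.add (.q 21 100) (.var 2)) (.q 1 1)) (.add (.var 1) (.var 3))) (.mul .pi (.add (.var 1) (.var 3))))) (.uu (.q 21 100) (.var 1))) (.uu (.q 3 100) (.var 3))) (.mul (.uu (.var 0) (.q 0 1)) (.q 3 1))) (.uu (.q 49 50) (.q 0 1))) (.uu (.q 4 5) (.q 0 1))) (.sub (.q (-587) 2000) (.mul (.q 1571 500) (.var 1)))), (.sub (.add (.sub (.add (.add (.sub (.add (.mul .pi (.sub (.add (.mul (.sub (.q 21 100) (.var 0)) (.var 3)) (.mul (.var 1) (.var 2))) (.var 1))) (.sub (.uu (.sub (.add (.q 21 100) (.var 2)) (.q 1 1)) (.add (.var 1) (.var 3))) (.mul .pi (.add (.var 1) (.var 3))))) (.uu (.q 21 100) (.var 1))) (.uu (.q 3 100) (.var 3))) (.mul (.uu (.var 0) (.q 0 1)) (.q 3 1))) (.uu (.q 49 50) (.q 0 1))) (.uu (.q 4 5) (.q 0 1))) (.sub (.q (-587) 2000)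 (.mul (.q 1571 500) (.var 1)))), (.sub (.mul (.q 1 5) (.var 3)) (.mul (.q 49 1000) (.sub (.q 43 50) (.var 2)))), (.sub (.mul (.q 1 5) (.neg (.var 3))) (.mul (.add (.var 1) (.q 11 500)) (.sub (.q 43 50) (.var 2)))), (.sub (.mul (.q 1 5) (.neg (.var 3))) (.mul (.q 91 1000) (.sub (.q 43 50) (.var 2))))] 40
    6201063446958457139960596270424420018631788151277726782365769435477380006940785122464114624623821329563595765895865174519940266541064738
    ([V.of 10000 1800 2000 0, V.of 10000 210 920 0, V.of 10000 7910 8500 0, V.of 10000 (-910) 490 0]) =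
    1 := by
  decide +kernel

theorem w_one_C3_p1 : Pool.Agent.Work.NumUs.runT [(.sub (.add (.sub (.add (.add (.sub (.add (.mul .pi (.sub (.add (.mul (.sub (.q 21 100) (.var 0)) (.var 3)) (.mul (.var 1) (.var 2))) (.var 1))) (.add (.uu (.sub (.add (.q 21 100) (.var 2)) (.q 1 1)) (.add (.var 1) (.var 3))) (.mul .pi (.add (.var 1) (.var 3))))) (.uu (.q 21 100) (.var 1))) (.neg (.uu (.add (.var 0) (.var 2)) (.var 3)))) (.mul (.uu (.q 1 50) (.q 0 1)) (.q 3 1))) (.uu (.add (.var 0) (.q 4 5)) (.q 0 1))) (.uu (.q 4 5) (.q 0 1))) (.sub (.q (-497) 1000) (.mul (.q (-141) 125) (.var 1)))), (.sub (.add (.sub (.add (.add (.sub (.add (.mul .pi (.sub (.add (.mul (.sub (.q 21 100) (.var 0)) (.var 3)) (.mul (.var 1) (.var 2))) (.var 1))) (.sub (.uu (.sub (.add (.q 21 100) (.var 2)) (.q 1 1)) (.add (.var 1) (.var 3))) (.mul .pi (.add (.var 1) (.var 3))))) (.uu (.q 21 100) (.var 1))) (.neg (.uu (.add (.var 0) (.var 2)) (.var 3)))) (.mul (.uu (.q 1 50) (.q 0 1)) (.q 3 1))) (.uu (.add (.var 0) (.q 4 5)) (.q 0 1))) (.uu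 (.q 4 5) (.q 0 1))) (.sub (.q (-497) 1000) (.mul (.q (-141) 125) (.var 1)))), (.sub (.add (.sub (.add (.add (.sub (.add (.mul .pi (.sub (.add (.mul (.sub (.q 21 100) (.var 0)) (.var 3)) (.mul (.var 1) (.var 2))) (.var 1))) (.add (.uu (.sub (.add (.q 21 100) (.var 2)) (.q 1 1)) (.add (.var 1) (.var 3))) (.mul .pi (.add (.var 1) (.var 3))))) (.uu (.q 21 100) (.var 1))) (.neg (.uu (.add (.var 0) (.var 2)) (.var 3)))) (.mul (.uu (.q 1 50) (.q 0 1)) (.q 3 1))) (.uu (.add (.var 0) (.q 4 5)) (.q 0 1))) (.uu (.q 4 5) (.q 0 1))) (.sub (.q (-587) 2000) (.mul (.q 1571 500) (.var 1)))), (.sub (.add (.sub (.add (.add (.sub (.add (.mul .pi (.sub (.add (.mul (.sub (.q 21 100) (.var 0)) (.var 3)) (.mul (.var 1) (.var 2))) (.var 1))) (.sub (.uu (.sub (.add (.q 21 100) (.var 2)) (.q 1 1)) (.add (.var 1) (.var 3))) (.mul .pi (.add (.var 1) (.var 3))))) (.uu (.q 21 100) (.var 1))) (.neg (.uu (.add (.var 0) (.var 2)) (.var 3)))) (.mul (.uu (.q 1 50) (.q 0 1)) (.q 3 1))) (.uu (.add (.var 0) (.q 4 5)) (.q 0 1))) (.uu (.q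 4 5) (.q 0 1))) (.sub (.q (-587) 2000) (.mul (.q 1571 500) (.var 1)))), (.sub (.mul (.q 1 5) (.var 3)) (.mul (.q 49 1000) (.sub (.q 43 50) (.var 2)))), (.sub (.mul (.q 1 5) (.neg (.var 3))) (.mul (.add (.var 1) (.q 11 500)) (.sub (.q 43 50) (.var 2)))), (.sub (.mul (.q 1 5) (.neg (.var 3))) (.mul (.q 91 1000) (.sub (.q 43 50) (.var 2))))] 40
    5306606247167332779042831144650128869459891565542495885961209867020822523299767213686716816488780330917931655714
    ([V.of 10000 0 200 0, V.of 10000 210 920 0, V.of 10000 7910 8600 0, V.of 10000 (-910) 490 0]) =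
    1 := by
  decide +kernel

theorem w_two_A1_p1 : Pool.Agent.Work.NumUs.runT [(.sub (.add (.sub (.add (.add (.sub (.add (.mul .pi (.sub (.add (.mul (.sub (.q 21 100) (.var 0)) (.var 3)) (.mul (.var 1) (.var 2))) (.var 1))) (.uu (.add (.q 21 100) (.var 2)) (.add (.var 1) (.var 3)))) (.uu (.q 21 100) (.var 1))) (.neg (.uu (.add (.var 0) (.var 2)) (.var 3)))) (.mul (.uu (.var 0) (.q 0 1)) (.q 3 1))) (.uu (.add (.var 0) (.q 4 5)) (.q 0 1))) (.uu (.q 4 5) (.q 0 1))) (.sub (.q (-2911) 10000) (.mul (.q 1571 500) (.var 1)))), (.sub (.mul (.q 4 25) (.var 3)) (.mul (.q 77 1000) (.var 2))), (.sub (.mul (.q 29 100) (.var 3)) (.mul (.q 77 1000) (.sub (.q 4 5) (.var 2))))] 40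
    2369041786485726713565861418003987895361224665890486724997838214760709724151338218609045477098877920802230735671878256113505810561474450288929990252158197692506146
    ([V.of 10000 200 1800 0, V.of 10000 460 940 0, V.of 10000 0 7850 0, V.of 10000 0 770 0]) =
    1 := by
  decide +kernel

theorem w_twoE_A1_p1 : Pool.Agent.Work.NumUs.runT [(.sub (.add (.sub (.add (.add (.sub (.add (.mul .pi (.sub (.add (.mul (.sub (.q 21 100) (.var 0)) (.var 3)) (.mul (.var 1) (.var 2))) (.var 1))) (.uu (.add (.q 21 100) (.var 2)) (.add (.var 1) (.var 3)))) (.uu (.q 21 100) (.var 1))) (.neg (.uu (.add (.var 0) (.var 2)) (.var 3)))) (.mul (.uu (.var 0) (.q 0 1)) (.q 3 1))) (.uu (.add (.var 0) (.q 4 5)) (.q 0 1))) (.uu (.q 4 5) (.q 0 1))) (.sub (.q (-541) 2000) (.mul (.q 2721 1000) (.var 1)))), (.sub (.mul (.q 7 50) (.neg (.var 3))) (.mul (.q 9 200) (.var 2))), (.sub (.mul (.q 7 20) (.neg (.var 3))) (.mul (.q 9 200) (.sub (.q 7 10) (.var 2))))] 40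
    277355443874971216272278103157670460132506778590279630229043527880925117578033171430381847042
    ([V.of 10000 200 1800 0, V.of 10000 870 1145 0, V.of 10000 800 7000 0, V.of 10000 (-450) 0 0]) =
    1 := by
  decide +kernel

end L2
end TL
end Pool.Agent.Work.MP_b30479_gtS.G2

end

section

/-!
# Tails, interior three with its inner variable in the tail: the slot `2`, certificates

Variables `w`, `t`, `X`, `Y`.
-/

set_option linter.unusedVariables false
set_option linter.unusedSimpArgs false
set_option linter.unusedTactic false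
set_option linter.unreachableTactic false

set_option deprecated.oldSectionVars true

namespace Pool.Agent.Work.MP_b30479_gtS.G2

open NumUs
open NumUs.E
open NumIs (V)

namespace TL

namespace L2

/-- 1098 boxes -/
theorem w_one_A3 {w t X Y : ℝ}
    (a0 : 200 / 10000 ≤ w) (b0 : w ≤ 1800 / 10000)
    (a1 : 210 / 10000 ≤ t) (b1 : t ≤ 920 / 10000)
    (a2 : 7910 / 10000 ≤ X) (b2 : X ≤ 8600 / 10000)
    (a3 : -(910 / 10000) ≤ Y) (b3 : Y ≤ 490 / 10000)
    (r0 : 1 / 5 * Y ≤ 49 / 1000 * (43 / 50 - X))
    (r1 : 1 / 5 * (-Y) ≤ (t + 11 / 500) * (43 / 50 - X))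
    (r2 : 1 / 5 * (-Y) ≤ 91 / 1000 * (43 / 50 - X))
    (r3 : w + X ≤ 49 / 50)
    (g0 : Real.pi * ((21 / 100 - w) * Y + t * X - t) + (uu (21 / 100 + X - 1) (t + Y) + Real.pi *
        (t + Y)) - uu (21 / 100) t + (-uu (w + X) Y) + uu w 0 * 3 - uu (w + 4 / 5) 0 + uu (4 / 5)
        0 - ((-(497 / 1000)) - (-(141 / 125)) * t) ≤ 0)
    (g1 : Real.pi * ((21 / 100 - w) * Y + t * X - t) + (uu (21 / 100 + X - 1) (t + Y) - Real.pi *
        (t + Y)) - uu (21 / 100) t + (-uu (w + X) Y) + uu w 0 * 3 - uu (w + 4 / 5) 0 + uu (4 / 5)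
        0 - ((-(497 / 1000)) - (-(141 / 125)) * t) ≤ 0)
    (g2 : Real.pi * ((21 / 100 - w) * Y + t * X - t) + (uu (21 / 100 + X - 1) (t + Y) + Real.pi *
        (t + Y)) - uu (21 / 100) t + (-uu (w + X) Y) + uu w 0 * 3 - uu (w + 4 / 5) 0 + uu (4 / 5)
        0 - ((-(587 / 2000)) - 1571 / 500 * t) ≤ 0)
    (g3 : Real.pi * ((21 / 100 - w) * Y + t * X - t) + (uu (21 / 100 + X - 1) (t + Y) - Real.pi *
        (t + Y)) - uu (21 / 100) t + (-uu (w + X) Y) + uu w 0 * 3 - uu (w + 4 / 5) 0 + uu (4 / 5)
        0 - ((-(587 / 2000)) - 1571 / 500 * t) ≤ 0) : False := by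
  have h : chkT [(.sub (.add (.sub (.add (.add (.sub (.add (.mul .pi (.sub (.add (.mul (.sub (.q
      21 100) (.var 0)) (.var 3)) (.mul (.var 1) (.var 2))) (.var 1))) (.add (.uu (.sub (.add (.q
      21 100) (.var 2)) (.q 1 1)) (.add (.var 1) (.var 3))) (.mul .pi (.add (.var 1) (.var 3)))))
      (.uu (.q 21 100) (.var 1))) (.neg (.uu (.add (.var 0) (.var 2)) (.var 3)))) (.mul (.uu
      (.var 0) (.q 0 1)) (.q 3 1))) (.uu (.add (.var 0) (.q 4 5)) (.q 0 1))) (.uu (.q 4 5) (.q 0
      1))) (.sub (.q (-497) 1000) (.mul (.q (-141) 125) (.var 1)))), (.sub (.add (.sub (.add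
      (.add (.sub (.add (.mul .pi (.sub (.add (.mul (.sub (.q 21 100) (.var 0)) (.var 3)) (.mul
      (.var 1) (.var 2))) (.var 1))) (.sub (.uu (.sub (.add (.q 21 100) (.var 2)) (.q 1 1)) (.add
      (.var 1) (.var 3))) (.mul .pi (.add (.var 1) (.var 3))))) (.uu (.q 21 100) (.var 1))) (.neg
      (.uu (.add (.var 0) (.var 2)) (.var 3)))) (.mul (.uu (.var 0) (.q 0 1)) (.q 3 1))) (.uu
      (.add (.var 0) (.q 4 5)) (.q 0 1))) (.uu (.q 4 5) (.q 0 1))) (.sub (.q (-497) 1000) (.mul
      (.q (-141) 125) (.var 1)))), (.sub (.add (.sub (.add (.add (.sub (.add (.mul .pi (.sub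
      (.add (.mul (.sub (.q 21 100) (.var 0)) (.var 3)) (.mul (.var 1) (.var 2))) (.var 1)))
      (.add (.uu (.sub (.add (.q 21 100) (.var 2)) (.q 1 1)) (.add (.var 1) (.var 3))) (.mul .pi
      (.add (.var 1) (.var 3))))) (.uu (.q 21 100) (.var 1))) (.neg (.uu (.add (.var 0) (.var 2))
      (.var 3)))) (.mul (.uu (.var 0) (.q 0 1)) (.q 3 1))) (.uu (.add (.var 0) (.q 4 5)) (.q 0
      1))) (.uu (.q 4 5) (.q 0 1))) (.sub (.q (-587) 2000) (.mul (.q 1571 500) (.var 1)))), (.sub
      (.add (.sub (.add (.add (.sub (.add (.mul .pi (.sub (.add (.mul (.sub (.q 21 100) (.var 0))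
      (.var 3)) (.mul (.var 1) (.var 2))) (.var 1))) (.sub (.uu (.sub (.add (.q 21 100) (.var 2))
      (.q 1 1)) (.add (.var 1) (.var 3))) (.mul .pi (.add (.var 1) (.var 3))))) (.uu (.q 21 100)
      (.var 1))) (.neg (.uu (.add (.var 0) (.var 2)) (.var 3)))) (.mul (.uu (.var 0) (.q 0 1))
      (.q 3 1))) (.uu (.add (.var 0) (.q 4 5)) (.q 0 1))) (.uu (.q 4 5) (.q 0 1))) (.sub (.q
      (-587) 2000) (.mul (.q 1571 500) (.var 1)))), (.sub (.mul (.q 1 5) (.var 3)) (.mul (.q 49
      1000) (.sub (.q 43 50) (.var 2)))), (.sub (.mul (.q 1 5) (.neg (.var 3))) (.mul (.add (.var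
      1) (.q 11 500)) (.sub (.q 43 50) (.var 2)))), (.sub (.mul (.q 1 5) (.neg (.var 3))) (.mul
      (.q 91 1000) (.sub (.q 43 50) (.var 2)))), (.sub (.add (.var 0) (.var 2)) (.q 49 50))] 40
      88399479321103575212960008516883267897984047236078571770995834769262660993668869015918495311480155418188282508541971264058875003449092220126320080190536750356986192248834818361066453868515078172714839229721209137202582697409864102674728951309128235274514940564134022225814347170025303548446247985830923006320909570283145552985764808055735033121059346977062298656834848605390913712649221864407632817222197265816277953509971483723555445695461317199746478627790738891437848021304784592343871241674880536508835883981851717159236991716215639441764437152307469913040789985686973581319500044112063162224825691370768953606485103015548742629495699146543732400656181969821793455990912988002295133591980795215933290619806469111619526976372200574573120631356661788750743001458564201177479642588238704236303402463806399290785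939760312706277980409006287616813950264326872166004094865511552763040410482311500332590787398419371963917147575756263099531707956335730024802651238481199774994496265371602077778922190422030700051518127666759416447209940760199554225345459175267127372113047333723346546167684839454229609662228702159845327241219359793965396074998334226471270557759273467103086650869130080202924744765892758721053184538345079264098426079629550374178277005345692558110093324645623631446223231558118159771749710434570998711315097757846598182652428573069985368820316743546847784776670532720057337703165250027636084159583843298448774107089899143367554663077958369264809076454183237761468885659553950950340058260442652218150256581173249466036543908229229499165714579136135861416802361628660135534169176176462995290345992722877131281544281421920363671776244855392668091669604366786265197866719177376137614163608984840957707832036153686943100440581331572575818526767459986375531332853845372735391860002214930388386926202353094683234312149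9108674605381744473669927239550243771592693628794248099339176264567482511507907923208711304862081574111963597113193114363416570971513648299086452095338003754333902927914265150472501653065051734165745321234871355529359202195766837078023848272380660171155567689716038637815865340624308964563669996361706492518768475624345066821799087104173167961338760216158918104105994646127195840533685152670398299243335953679669586478288675179480823523685078445932274079259658787559303940223448570039123673169079315724180173623466145958148353927496584310924930674828480171197180304763404296748895341771233249599803191461752267864070004829345464942689644587913722956623132908554233584841474040531565731247833080077597127954433875126649922301865140029389861702610742255792575719902500359523791225921814264772201172511259473991698030404128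
      [V.of 10000 200 1800 0, V.of 10000 210 920 0, V.of 10000 7910 8600 0, V.of 10000 (-910) 490
          0] = true :=
      Pool.Agent.Work.NumUs.chkT_of (Pool.Agent.Work.NumUs.runT_split rfl rfl rfl
        (Pool.Agent.Work.NumUs.runT_split rfl rfl rfl
          (Pool.Agent.Work.NumUs.runT_split rfl rfl rfl
            w_one_A3_p1
            w_one_A3_p2)
          w_one_A3_p3)
        (Pool.Agent.Work.NumUs.runT_split rfl rfl rfl
          w_one_A3_p4
          (Pool.Agent.Work.NumUs.runT_split rfl rfl rfl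
            (Pool.Agent.Work.NumUs.runT_split rfl rfl rfl
              (Pool.Agent.Work.NumUs.runT_split rfl rfl rfl
                (Pool.Agent.Work.NumUs.runT_split rfl rfl rfl
                  w_one_A3_p5
                  w_one_A3_p6)
                w_one_A3_p7)
              w_one_A3_p8)
            w_one_A3_p9)))
  obtain ⟨e, he, hp⟩ := chkT4 h (by norm_num) (x := w) (y := t) (z := X) (w := Y)
    (le_trans (by norm_num) a0) (le_trans b0 (by norm_num))
    (le_trans (by norm_num) a1) (le_trans b1 (by norm_num))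
    (le_trans (by norm_num) a2) (le_trans b2 (by norm_num))
    (le_trans (by norm_num) a3) (le_trans b3 (by norm_num))
  simp only [List.mem_cons, List.not_mem_nil, or_false] at he
  rcases he with rfl | rfl | rfl | rfl | rfl | rfl | rfl | rfl
  · simp only [E.val, NumIs.lkR] at hp
    push_cast at hp
    try simp only [zero_div, div_one] at hp
    linarith only [g0, hp]
  · simp only [E.val, NumIs.lkR] at hp
    push_cast at hp
    try simp only [zero_div, div_one] at hp
    linarith only [g1, hp]
  · simp only [E.val, NumIs.lkR] at hp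
    push_cast at hp
    try simp only [zero_div, div_one] at hp
    linarith only [g2, hp]
  · simp only [E.val, NumIs.lkR] at hp
    push_cast at hp
    try simp only [zero_div, div_one] at hp
    linarith only [g3, hp]
  · simp only [E.val, NumIs.lkR] at hp
    push_cast at hp
    try simp only [zero_div, div_one] at hp
    linarith only [r0, hp]
  · simp only [E.val, NumIs.lkR] at hp
    push_cast at hp
    try simp only [zero_div, div_one] at hp
    linarith only [r1, hp]
  · simp only [E.val, NumIs.lkR] at hp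
    push_cast at hp
    try simp only [zero_div, div_one] at hp
    linarith only [r2, hp]
  · simp only [E.val, NumIs.lkR] at hp
    push_cast at hp
    try simp only [zero_div, div_one] at hp
    linarith only [r3, hp]

/-- 95 boxes -/
theorem w_one_A4 {w t X Y : ℝ}
    (a0 : 1200 / 10000 ≤ w) (b0 : w ≤ 1800 / 10000)
    (a1 : 210 / 10000 ≤ t) (b1 : t ≤ 920 / 10000)
    (a2 : 7910 / 10000 ≤ X) (b2 : X ≤ 8600 / 10000)
    (a3 : -(910 / 10000) ≤ Y) (b3 : Y ≤ 490 / 10000)
    (r0 : 1 / 5 * Y ≤ 49 / 1000 * (43 / 50 - X))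
    (r1 : 1 / 5 * (-Y) ≤ (t + 11 / 500) * (43 / 50 - X))
    (r2 : 1 / 5 * (-Y) ≤ 91 / 1000 * (43 / 50 - X))
    (g0 : Real.pi * ((21 / 100 - w) * Y + t * X - t) + (uu (21 / 100 + X - 1) (t + Y) + Real.pi *
        (t + Y)) - uu (21 / 100) t + uu (1 / 50) Y + uu w 0 * 3 - uu (w + 4 / 5) 0 + uu (4 / 5) 0
        - ((-(497 / 1000)) - (-(141 / 125)) * t) ≤ 0)
    (g1 : Real.pi * ((21 / 100 - w) * Y + t * X - t) + (uu (21 / 100 + X - 1) (t + Y) - Real.pi *
        (t + Y)) - uu (21 / 100) t + uu (1 / 50) Y + uu w 0 * 3 - uu (w + 4 / 5) 0 + uu (4 / 5) 0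
        - ((-(497 / 1000)) - (-(141 / 125)) * t) ≤ 0)
    (g2 : Real.pi * ((21 / 100 - w) * Y + t * X - t) + (uu (21 / 100 + X - 1) (t + Y) + Real.pi *
        (t + Y)) - uu (21 / 100) t + uu (1 / 50) Y + uu w 0 * 3 - uu (w + 4 / 5) 0 + uu (4 / 5) 0
        - ((-(587 / 2000)) - 1571 / 500 * t) ≤ 0)
    (g3 : Real.pi * ((21 / 100 - w) * Y + t * X - t) + (uu (21 / 100 + X - 1) (t + Y) - Real.pi *
        (t + Y)) - uu (21 / 100) t + uu (1 / 50) Y + uu w 0 * 3 - uu (w + 4 / 5) 0 + uu (4 / 5) 0
        - ((-(587 / 2000)) - 1571 / 500 * t) ≤ 0) : False := by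
  have h : chkT [(.sub (.add (.sub (.add (.add (.sub (.add (.mul .pi (.sub (.add (.mul (.sub (.q
      21 100) (.var 0)) (.var 3)) (.mul (.var 1) (.var 2))) (.var 1))) (.add (.uu (.sub (.add (.q
      21 100) (.var 2)) (.q 1 1)) (.add (.var 1) (.var 3))) (.mul .pi (.add (.var 1) (.var 3)))))
      (.uu (.q 21 100) (.var 1))) (.uu (.q 1 50) (.var 3))) (.mul (.uu (.var 0) (.q 0 1)) (.q 3
      1))) (.uu (.add (.var 0) (.q 4 5)) (.q 0 1))) (.uu (.q 4 5) (.q 0 1))) (.sub (.q (-497)
      1000) (.mul (.q (-141) 125) (.var 1)))), (.sub (.add (.sub (.add (.add (.sub (.add (.mul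
      .pi (.sub (.add (.mul (.sub (.q 21 100) (.var 0)) (.var 3)) (.mul (.var 1) (.var 2))) (.var
      1))) (.sub (.uu (.sub (.add (.q 21 100) (.var 2)) (.q 1 1)) (.add (.var 1) (.var 3))) (.mul
      .pi (.add (.var 1) (.var 3))))) (.uu (.q 21 100) (.var 1))) (.uu (.q 1 50) (.var 3))) (.mul
      (.uu (.var 0) (.q 0 1)) (.q 3 1))) (.uu (.add (.var 0) (.q 4 5)) (.q 0 1))) (.uu (.q 4 5)
      (.q 0 1))) (.sub (.q (-497) 1000) (.mul (.q (-141) 125) (.var 1)))), (.sub (.add (.sub
      (.add (.add (.sub (.add (.mul .pi (.sub (.add (.mul (.sub (.q 21 100) (.var 0)) (.var 3))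
      (.mul (.var 1) (.var 2))) (.var 1))) (.add (.uu (.sub (.add (.q 21 100) (.var 2)) (.q 1 1))
      (.add (.var 1) (.var 3))) (.mul .pi (.add (.var 1) (.var 3))))) (.uu (.q 21 100) (.var 1)))
      (.uu (.q 1 50) (.var 3))) (.mul (.uu (.var 0) (.q 0 1)) (.q 3 1))) (.uu (.add (.var 0) (.q
      4 5)) (.q 0 1))) (.uu (.q 4 5) (.q 0 1))) (.sub (.q (-587) 2000) (.mul (.q 1571 500) (.var
      1)))), (.sub (.add (.sub (.add (.add (.sub (.add (.mul .pi (.sub (.add (.mul (.sub (.q 21
      100) (.var 0)) (.var 3)) (.mul (.var 1) (.var 2))) (.var 1))) (.sub (.uu (.sub (.add (.q 21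
      100) (.var 2)) (.q 1 1)) (.add (.var 1) (.var 3))) (.mul .pi (.add (.var 1) (.var 3)))))
      (.uu (.q 21 100) (.var 1))) (.uu (.q 1 50) (.var 3))) (.mul (.uu (.var 0) (.q 0 1)) (.q 3
      1))) (.uu (.add (.var 0) (.q 4 5)) (.q 0 1))) (.uu (.q 4 5) (.q 0 1))) (.sub (.q (-587)
      2000) (.mul (.q 1571 500) (.var 1)))), (.sub (.mul (.q 1 5) (.var 3)) (.mul (.q 49 1000)
      (.sub (.q 43 50) (.var 2)))), (.sub (.mul (.q 1 5) (.neg (.var 3))) (.mul (.add (.var 1)
      (.q 11 500)) (.sub (.q 43 50) (.var 2)))), (.sub (.mul (.q 1 5) (.neg (.var 3))) (.mul (.q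
      91 1000) (.sub (.q 43 50) (.var 2))))] 40
      296862708936619447681169888456072005426538975355561160265720927411527756623696605295338219068088282887809727207152287801724680249086693284141666519678047080044794118984439827767124238818298696316906788273015689324286682212737570
      [V.of 10000 1200 1800 0, V.of 10000 210 920 0, V.of 10000 7910 8600 0, V.of 10000 (-910)
          490 0] = true :=
      Pool.Agent.Work.NumUs.chkT_of w_one_A4_p1
  obtain ⟨e, he, hp⟩ := chkT4 h (by norm_num) (x := w) (y := t) (z := X) (w := Y)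
    (le_trans (by norm_num) a0) (le_trans b0 (by norm_num))
    (le_trans (by norm_num) a1) (le_trans b1 (by norm_num))
    (le_trans (by norm_num) a2) (le_trans b2 (by norm_num))
    (le_trans (by norm_num) a3) (le_trans b3 (by norm_num))
  simp only [List.mem_cons, List.not_mem_nil, or_false] at he
  rcases he with rfl | rfl | rfl | rfl | rfl | rfl | rfl
  · simp only [E.val, NumIs.lkR] at hp
    push_cast at hp
    try simp only [zero_div, div_one] at hp
    linarith only [g0, hp]
  · simp only [E.val, NumIs.lkR] at hp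
    push_cast at hp
    try simp only [zero_div, div_one] at hp
    linarith only [g1, hp]
  · simp only [E.val, NumIs.lkR] at hp
    push_cast at hp
    try simp only [zero_div, div_one] at hp
    linarith only [g2, hp]
  · simp only [E.val, NumIs.lkR] at hp
    push_cast at hp
    try simp only [zero_div, div_one] at hp
    linarith only [g3, hp]
  · simp only [E.val, NumIs.lkR] at hp
    push_cast at hp
    try simp only [zero_div, div_one] at hp
    linarith only [r0, hp]
  · simp only [E.val, NumIs.lkR] at hp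
    push_cast at hp
    try simp only [zero_div, div_one] at hp
    linarith only [r1, hp]
  · simp only [E.val, NumIs.lkR] at hp
    push_cast at hp
    try simp only [zero_div, div_one] at hp
    linarith only [r2, hp]

/-- 57 boxes -/
theorem w_one_B3 {w t X Y : ℝ}
    (a0 : 1800 / 10000 ≤ w) (b0 : w ≤ 2000 / 10000)
    (a1 : 210 / 10000 ≤ t) (b1 : t ≤ 920 / 10000)
    (a2 : 7910 / 10000 ≤ X) (b2 : X ≤ 8500 / 10000)
    (a3 : -(910 / 10000) ≤ Y) (b3 : Y ≤ 490 / 10000)
    (r0 : 1 / 5 * Y ≤ 49 / 1000 * (43 / 50 - X))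
    (r1 : 1 / 5 * (-Y) ≤ (t + 11 / 500) * (43 / 50 - X))
    (r2 : 1 / 5 * (-Y) ≤ 91 / 1000 * (43 / 50 - X))
    (g0 : Real.pi * ((21 / 100 - w) * Y + t * X - t) + (uu (21 / 100 + X - 1) (t + Y) + Real.pi *
        (t + Y)) - uu (21 / 100) t + uu (3 / 100) Y + uu w 0 * 3 - uu (49 / 50) 0 + uu (4 / 5) 0
        - ((-(497 / 1000)) - (-(141 / 125)) * t) ≤ 0)
    (g1 : Real.pi * ((21 / 100 - w) * Y + t * X - t) + (uu (21 / 100 + X - 1) (t + Y) - Real.pi *
        (t + Y)) - uu (21 / 100) t + uu (3 / 100) Y + uu w 0 * 3 - uu (49 / 50) 0 + uu (4 / 5) 0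
        - ((-(497 / 1000)) - (-(141 / 125)) * t) ≤ 0)
    (g2 : Real.pi * ((21 / 100 - w) * Y + t * X - t) + (uu (21 / 100 + X - 1) (t + Y) + Real.pi *
        (t + Y)) - uu (21 / 100) t + uu (3 / 100) Y + uu w 0 * 3 - uu (49 / 50) 0 + uu (4 / 5) 0
        - ((-(587 / 2000)) - 1571 / 500 * t) ≤ 0)
    (g3 : Real.pi * ((21 / 100 - w) * Y + t * X - t) + (uu (21 / 100 + X - 1) (t + Y) - Real.pi *
        (t + Y)) - uu (21 / 100) t + uu (3 / 100) Y + uu w 0 * 3 - uu (49 / 50) 0 + uu (4 / 5) 0
        - ((-(587 / 2000)) - 1571 / 500 * t) ≤ 0) : False := by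
  have h : chkT [(.sub (.add (.sub (.add (.add (.sub (.add (.mul .pi (.sub (.add (.mul (.sub (.q
      21 100) (.var 0)) (.var 3)) (.mul (.var 1) (.var 2))) (.var 1))) (.add (.uu (.sub (.add (.q
      21 100) (.var 2)) (.q 1 1)) (.add (.var 1) (.var 3))) (.mul .pi (.add (.var 1) (.var 3)))))
      (.uu (.q 21 100) (.var 1))) (.uu (.q 3 100) (.var 3))) (.mul (.uu (.var 0) (.q 0 1)) (.q 3
      1))) (.uu (.q 49 50) (.q 0 1))) (.uu (.q 4 5) (.q 0 1))) (.sub (.q (-497) 1000) (.mul (.q
      (-141) 125) (.var 1)))), (.sub (.add (.sub (.add (.add (.sub (.add (.mul .pi (.sub (.add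
      (.mul (.sub (.q 21 100) (.var 0)) (.var 3)) (.mul (.var 1) (.var 2))) (.var 1))) (.sub (.uu
      (.sub (.add (.q 21 100) (.var 2)) (.q 1 1)) (.add (.var 1) (.var 3))) (.mul .pi (.add (.var
      1) (.var 3))))) (.uu (.q 21 100) (.var 1))) (.uu (.q 3 100) (.var 3))) (.mul (.uu (.var 0)
      (.q 0 1)) (.q 3 1))) (.uu (.q 49 50) (.q 0 1))) (.uu (.q 4 5) (.q 0 1))) (.sub (.q (-497)
      1000) (.mul (.q (-141) 125) (.var 1)))), (.sub (.add (.sub (.add (.add (.sub (.add (.mul
      .pi (.sub (.add (.mul (.sub (.q 21 100) (.var 0)) (.var 3)) (.mul (.var 1) (.var 2))) (.var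
      1))) (.add (.uu (.sub (.add (.q 21 100) (.var 2)) (.q 1 1)) (.add (.var 1) (.var 3))) (.mul
      .pi (.add (.var 1) (.var 3))))) (.uu (.q 21 100) (.var 1))) (.uu (.q 3 100) (.var 3)))
      (.mul (.uu (.var 0) (.q 0 1)) (.q 3 1))) (.uu (.q 49 50) (.q 0 1))) (.uu (.q 4 5) (.q 0
      1))) (.sub (.q (-587) 2000) (.mul (.q 1571 500) (.var 1)))), (.sub (.add (.sub (.add (.add
      (.sub (.add (.mul .pi (.sub (.add (.mul (.sub (.q 21 100) (.var 0)) (.var 3)) (.mul (.var
      1) (.var 2))) (.var 1))) (.sub (.uu (.sub (.add (.q 21 100) (.var 2)) (.q 1 1)) (.add (.var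
      1) (.var 3))) (.mul .pi (.add (.var 1) (.var 3))))) (.uu (.q 21 100) (.var 1))) (.uu (.q 3
      100) (.var 3))) (.mul (.uu (.var 0) (.q 0 1)) (.q 3 1))) (.uu (.q 49 50) (.q 0 1))) (.uu
      (.q 4 5) (.q 0 1))) (.sub (.q (-587) 2000) (.mul (.q 1571 500) (.var 1)))), (.sub (.mul (.q
      1 5) (.var 3)) (.mul (.q 49 1000) (.sub (.q 43 50) (.var 2)))), (.sub (.mul (.q 1 5) (.neg
      (.var 3))) (.mul (.add (.var 1) (.q 11 500)) (.sub (.q 43 50) (.var 2)))), (.sub (.mul (.q
      1 5) (.neg (.var 3))) (.mul (.q 91 1000) (.sub (.q 43 50) (.var 2))))] 40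
      6201063446958457139960596270424420018631788151277726782365769435477380006940785122464114624623821329563595765895865174519940266541064738
      [V.of 10000 1800 2000 0, V.of 10000 210 920 0, V.of 10000 7910 8500 0, V.of 10000 (-910)
          490 0] = true :=
      Pool.Agent.Work.NumUs.chkT_of w_one_B3_p1
  obtain ⟨e, he, hp⟩ := chkT4 h (by norm_num) (x := w) (y := t) (z := X) (w := Y)
    (le_trans (by norm_num) a0) (le_trans b0 (by norm_num))
    (le_trans (by norm_num) a1) (le_trans b1 (by norm_num))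
    (le_trans (by norm_num) a2) (le_trans b2 (by norm_num))
    (le_trans (by norm_num) a3) (le_trans b3 (by norm_num))
  simp only [List.mem_cons, List.not_mem_nil, or_false] at he
  rcases he with rfl | rfl | rfl | rfl | rfl | rfl | rfl
  · simp only [E.val, NumIs.lkR] at hp
    push_cast at hp
    try simp only [zero_div, div_one] at hp
    linarith only [g0, hp]
  · simp only [E.val, NumIs.lkR] at hp
    push_cast at hp
    try simp only [zero_div, div_one] at hp
    linarith only [g1, hp]
  · simp only [E.val, NumIs.lkR] at hp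
    push_cast at hp
    try simp only [zero_div, div_one] at hp
    linarith only [g2, hp]
  · simp only [E.val, NumIs.lkR] at hp
    push_cast at hp
    try simp only [zero_div, div_one] at hp
    linarith only [g3, hp]
  · simp only [E.val, NumIs.lkR] at hp
    push_cast at hp
    try simp only [zero_div, div_one] at hp
    linarith only [r0, hp]
  · simp only [E.val, NumIs.lkR] at hp
    push_cast at hp
    try simp only [zero_div, div_one] at hp
    linarith only [r1, hp]
  · simp only [E.val, NumIs.lkR] at hp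
    push_cast at hp
    try simp only [zero_div, div_one] at hp
    linarith only [r2, hp]

/-- 2 boxes -/
theorem w_one_B4 {w t X Y : ℝ}
    (a0 : 1800 / 10000 ≤ w) (b0 : w ≤ 2000 / 10000)
    (a1 : 210 / 10000 ≤ t) (b1 : t ≤ 920 / 10000)
    (a2 : 8500 / 10000 ≤ X) (b2 : X ≤ 8600 / 10000)
    (a3 : -(910 / 10000) ≤ Y) (b3 : Y ≤ 490 / 10000)
    (r0 : 1 / 5 * Y ≤ 49 / 1000 * (43 / 50 - X))
    (r1 : 1 / 5 * (-Y) ≤ (t + 11 / 500) * (43 / 50 - X))
    (r2 : 1 / 5 * (-Y) ≤ 91 / 1000 * (43 / 50 - X))
    (g0 : Real.pi * ((21 / 100 - w) * Y + t * X - t) + (uu (21 / 100 + X - 1) (t + Y) + Real.pi *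
        (t + Y)) - uu (21 / 100) t + (-(2 / 125)) + uu w 0 * 3 - uu (49 / 50) 0 + uu (4 / 5) 0 -
        ((-(497 / 1000)) - (-(141 / 125)) * t) ≤ 0)
    (g1 : Real.pi * ((21 / 100 - w) * Y + t * X - t) + (uu (21 / 100 + X - 1) (t + Y) - Real.pi *
        (t + Y)) - uu (21 / 100) t + (-(2 / 125)) + uu w 0 * 3 - uu (49 / 50) 0 + uu (4 / 5) 0 -
        ((-(497 / 1000)) - (-(141 / 125)) * t) ≤ 0)
    (g2 : Real.pi * ((21 / 100 - w) * Y + t * X - t) + (uu (21 / 100 + X - 1) (t + Y) + Real.pi *
        (t + Y)) - uu (21 / 100) t + (-(2 / 125)) + uu w 0 * 3 - uu (49 / 50) 0 + uu (4 / 5) 0 -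
        ((-(587 / 2000)) - 1571 / 500 * t) ≤ 0)
    (g3 : Real.pi * ((21 / 100 - w) * Y + t * X - t) + (uu (21 / 100 + X - 1) (t + Y) - Real.pi *
        (t + Y)) - uu (21 / 100) t + (-(2 / 125)) + uu w 0 * 3 - uu (49 / 50) 0 + uu (4 / 5) 0 -
        ((-(587 / 2000)) - 1571 / 500 * t) ≤ 0) : False := by
  have h : chkT [(.sub (.add (.sub (.add (.add (.sub (.add (.mul .pi (.sub (.add (.mul (.sub (.q
      21 100) (.var 0)) (.var 3)) (.mul (.var 1) (.var 2))) (.var 1))) (.add (.uu (.sub (.add (.q
      21 100) (.var 2)) (.q 1 1)) (.add (.var 1) (.var 3))) (.mul .pi (.add (.var 1) (.var 3)))))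
      (.uu (.q 21 100) (.var 1))) (.q (-2) 125)) (.mul (.uu (.var 0) (.q 0 1)) (.q 3 1))) (.uu
      (.q 49 50) (.q 0 1))) (.uu (.q 4 5) (.q 0 1))) (.sub (.q (-497) 1000) (.mul (.q (-141) 125)
      (.var 1)))), (.sub (.add (.sub (.add (.add (.sub (.add (.mul .pi (.sub (.add (.mul (.sub
      (.q 21 100) (.var 0)) (.var 3)) (.mul (.var 1) (.var 2))) (.var 1))) (.sub (.uu (.sub (.add
      (.q 21 100) (.var 2)) (.q 1 1)) (.add (.var 1) (.var 3))) (.mul .pi (.add (.var 1) (.var
      3))))) (.uu (.q 21 100) (.var 1))) (.q (-2) 125)) (.mul (.uu (.var 0) (.q 0 1)) (.q 3 1)))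
      (.uu (.q 49 50) (.q 0 1))) (.uu (.q 4 5) (.q 0 1))) (.sub (.q (-497) 1000) (.mul (.q (-141)
      125) (.var 1)))), (.sub (.add (.sub (.add (.add (.sub (.add (.mul .pi (.sub (.add (.mul
      (.sub (.q 21 100) (.var 0)) (.var 3)) (.mul (.var 1) (.var 2))) (.var 1))) (.add (.uu (.sub
      (.add (.q 21 100) (.var 2)) (.q 1 1)) (.add (.var 1) (.var 3))) (.mul .pi (.add (.var 1)
      (.var 3))))) (.uu (.q 21 100) (.var 1))) (.q (-2) 125)) (.mul (.uu (.var 0) (.q 0 1)) (.q 3
      1))) (.uu (.q 49 50) (.q 0 1))) (.uu (.q 4 5) (.q 0 1))) (.sub (.q (-587) 2000) (.mul (.q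
      1571 500) (.var 1)))), (.sub (.add (.sub (.add (.add (.sub (.add (.mul .pi (.sub (.add
      (.mul (.sub (.q 21 100) (.var 0)) (.var 3)) (.mul (.var 1) (.var 2))) (.var 1))) (.sub (.uu
      (.sub (.add (.q 21 100) (.var 2)) (.q 1 1)) (.add (.var 1) (.var 3))) (.mul .pi (.add (.var
      1) (.var 3))))) (.uu (.q 21 100) (.var 1))) (.q (-2) 125)) (.mul (.uu (.var 0) (.q 0 1))
      (.q 3 1))) (.uu (.q 49 50) (.q 0 1))) (.uu (.q 4 5) (.q 0 1))) (.sub (.q (-587) 2000) (.mul
      (.q 1571 500) (.var 1)))), (.sub (.mul (.q 1 5) (.var 3)) (.mul (.q 49 1000) (.sub (.q 43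
      50) (.var 2)))), (.sub (.mul (.q 1 5) (.neg (.var 3))) (.mul (.add (.var 1) (.q 11 500))
      (.sub (.q 43 50) (.var 2)))), (.sub (.mul (.q 1 5) (.neg (.var 3))) (.mul (.q 91 1000)
      (.sub (.q 43 50) (.var 2))))] 40
      2259
      [V.of 10000 1800 2000 0, V.of 10000 210 920 0, V.of 10000 8500 8600 0, V.of 10000 (-910)
          490 0] = true := by
    decide +kernel
  obtain ⟨e, he, hp⟩ := chkT4 h (by norm_num) (x := w) (y := t) (z := X) (w := Y)
    (le_trans (by norm_num) a0) (le_trans b0 (by norm_num))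
    (le_trans (by norm_num) a1) (le_trans b1 (by norm_num))
    (le_trans (by norm_num) a2) (le_trans b2 (by norm_num))
    (le_trans (by norm_num) a3) (le_trans b3 (by norm_num))
  simp only [List.mem_cons, List.not_mem_nil, or_false] at he
  rcases he with rfl | rfl | rfl | rfl | rfl | rfl | rfl
  · simp only [E.val, NumIs.lkR] at hp
    push_cast at hp
    try simp only [zero_div, div_one] at hp
    linarith only [g0, hp]
  · simp only [E.val, NumIs.lkR] at hp
    push_cast at hp
    try simp only [zero_div, div_one] at hp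
    linarith only [g1, hp]
  · simp only [E.val, NumIs.lkR] at hp
    push_cast at hp
    try simp only [zero_div, div_one] at hp
    linarith only [g2, hp]
  · simp only [E.val, NumIs.lkR] at hp
    push_cast at hp
    try simp only [zero_div, div_one] at hp
    linarith only [g3, hp]
  · simp only [E.val, NumIs.lkR] at hp
    push_cast at hp
    try simp only [zero_div, div_one] at hp
    linarith only [r0, hp]
  · simp only [E.val, NumIs.lkR] at hp
    push_cast at hp
    try simp only [zero_div, div_one] at hp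
    linarith only [r1, hp]
  · simp only [E.val, NumIs.lkR] at hp
    push_cast at hp
    try simp only [zero_div, div_one] at hp
    linarith only [r2, hp]

/-- 47 boxes -/
theorem w_one_C3 {w t X Y : ℝ}
    (a0 : 0 / 10000 ≤ w) (b0 : w ≤ 200 / 10000)
    (a1 : 210 / 10000 ≤ t) (b1 : t ≤ 920 / 10000)
    (a2 : 7910 / 10000 ≤ X) (b2 : X ≤ 8600 / 10000)
    (a3 : -(910 / 10000) ≤ Y) (b3 : Y ≤ 490 / 10000)
    (r0 : 1 / 5 * Y ≤ 49 / 1000 * (43 / 50 - X))
    (r1 : 1 / 5 * (-Y) ≤ (t + 11 / 500) * (43 / 50 - X))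
    (r2 : 1 / 5 * (-Y) ≤ 91 / 1000 * (43 / 50 - X))
    (g0 : Real.pi * ((21 / 100 - w) * Y + t * X - t) + (uu (21 / 100 + X - 1) (t + Y) + Real.pi *
        (t + Y)) - uu (21 / 100) t + (-uu (w + X) Y) + uu (1 / 50) 0 * 3 - uu (w + 4 / 5) 0 + uu
        (4 / 5) 0 - ((-(497 / 1000)) - (-(141 / 125)) * t) ≤ 0)
    (g1 : Real.pi * ((21 / 100 - w) * Y + t * X - t) + (uu (21 / 100 + X - 1) (t + Y) - Real.pi *
        (t + Y)) - uu (21 / 100) t + (-uu (w + X) Y) + uu (1 / 50) 0 * 3 - uu (w + 4 / 5) 0 + uu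
        (4 / 5) 0 - ((-(497 / 1000)) - (-(141 / 125)) * t) ≤ 0)
    (g2 : Real.pi * ((21 / 100 - w) * Y + t * X - t) + (uu (21 / 100 + X - 1) (t + Y) + Real.pi *
        (t + Y)) - uu (21 / 100) t + (-uu (w + X) Y) + uu (1 / 50) 0 * 3 - uu (w + 4 / 5) 0 + uu
        (4 / 5) 0 - ((-(587 / 2000)) - 1571 / 500 * t) ≤ 0)
    (g3 : Real.pi * ((21 / 100 - w) * Y + t * X - t) + (uu (21 / 100 + X - 1) (t + Y) - Real.pi *
        (t + Y)) - uu (21 / 100) t + (-uu (w + X) Y) + uu (1 / 50) 0 * 3 - uu (w + 4 / 5) 0 + uu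
        (4 / 5) 0 - ((-(587 / 2000)) - 1571 / 500 * t) ≤ 0) : False := by
  have h : chkT [(.sub (.add (.sub (.add (.add (.sub (.add (.mul .pi (.sub (.add (.mul (.sub (.q
      21 100) (.var 0)) (.var 3)) (.mul (.var 1) (.var 2))) (.var 1))) (.add (.uu (.sub (.add (.q
      21 100) (.var 2)) (.q 1 1)) (.add (.var 1) (.var 3))) (.mul .pi (.add (.var 1) (.var 3)))))
      (.uu (.q 21 100) (.var 1))) (.neg (.uu (.add (.var 0) (.var 2)) (.var 3)))) (.mul (.uu (.q
      1 50) (.q 0 1)) (.q 3 1))) (.uu (.add (.var 0) (.q 4 5)) (.q 0 1))) (.uu (.q 4 5) (.q 0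
      1))) (.sub (.q (-497) 1000) (.mul (.q (-141) 125) (.var 1)))), (.sub (.add (.sub (.add
      (.add (.sub (.add (.mul .pi (.sub (.add (.mul (.sub (.q 21 100) (.var 0)) (.var 3)) (.mul
      (.var 1) (.var 2))) (.var 1))) (.sub (.uu (.sub (.add (.q 21 100) (.var 2)) (.q 1 1)) (.add
      (.var 1) (.var 3))) (.mul .pi (.add (.var 1) (.var 3))))) (.uu (.q 21 100) (.var 1))) (.neg
      (.uu (.add (.var 0) (.var 2)) (.var 3)))) (.mul (.uu (.q 1 50) (.q 0 1)) (.q 3 1))) (.uu
      (.add (.var 0) (.q 4 5)) (.q 0 1))) (.uu (.q 4 5) (.q 0 1))) (.sub (.q (-497) 1000) (.mul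
      (.q (-141) 125) (.var 1)))), (.sub (.add (.sub (.add (.add (.sub (.add (.mul .pi (.sub
      (.add (.mul (.sub (.q 21 100) (.var 0)) (.var 3)) (.mul (.var 1) (.var 2))) (.var 1)))
      (.add (.uu (.sub (.add (.q 21 100) (.var 2)) (.q 1 1)) (.add (.var 1) (.var 3))) (.mul .pi
      (.add (.var 1) (.var 3))))) (.uu (.q 21 100) (.var 1))) (.neg (.uu (.add (.var 0) (.var 2))
      (.var 3)))) (.mul (.uu (.q 1 50) (.q 0 1)) (.q 3 1))) (.uu (.add (.var 0) (.q 4 5)) (.q 0
      1))) (.uu (.q 4 5) (.q 0 1))) (.sub (.q (-587) 2000) (.mul (.q 1571 500) (.var 1)))), (.sub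
      (.add (.sub (.add (.add (.sub (.add (.mul .pi (.sub (.add (.mul (.sub (.q 21 100) (.var 0))
      (.var 3)) (.mul (.var 1) (.var 2))) (.var 1))) (.sub (.uu (.sub (.add (.q 21 100) (.var 2))
      (.q 1 1)) (.add (.var 1) (.var 3))) (.mul .pi (.add (.var 1) (.var 3))))) (.uu (.q 21 100)
      (.var 1))) (.neg (.uu (.add (.var 0) (.var 2)) (.var 3)))) (.mul (.uu (.q 1 50) (.q 0 1))
      (.q 3 1))) (.uu (.add (.var 0) (.q 4 5)) (.q 0 1))) (.uu (.q 4 5) (.q 0 1))) (.sub (.q
      (-587) 2000) (.mul (.q 1571 500) (.var 1)))), (.sub (.mul (.q 1 5) (.var 3)) (.mul (.q 49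
      1000) (.sub (.q 43 50) (.var 2)))), (.sub (.mul (.q 1 5) (.neg (.var 3))) (.mul (.add (.var
      1) (.q 11 500)) (.sub (.q 43 50) (.var 2)))), (.sub (.mul (.q 1 5) (.neg (.var 3))) (.mul
      (.q 91 1000) (.sub (.q 43 50) (.var 2))))] 40
      5306606247167332779042831144650128869459891565542495885961209867020822523299767213686716816488780330917931655714
      [V.of 10000 0 200 0, V.of 10000 210 920 0, V.of 10000 7910 8600 0, V.of 10000 (-910) 490 0] = true :=
      Pool.Agent.Work.NumUs.chkT_of w_one_C3_p1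
  obtain ⟨e, he, hp⟩ := chkT4 h (by norm_num) (x := w) (y := t) (z := X) (w := Y)
    (le_trans (by norm_num) a0) (le_trans b0 (by norm_num))
    (le_trans (by norm_num) a1) (le_trans b1 (by norm_num))
    (le_trans (by norm_num) a2) (le_trans b2 (by norm_num))
    (le_trans (by norm_num) a3) (le_trans b3 (by norm_num))
  simp only [List.mem_cons, List.not_mem_nil, or_false] at he
  rcases he with rfl | rfl | rfl | rfl | rfl | rfl | rfl
  · simp only [E.val, NumIs.lkR] at hp
    push_cast at hp
    try simp only [zero_div, div_one] at hp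
    linarith only [g0, hp]
  · simp only [E.val, NumIs.lkR] at hp
    push_cast at hp
    try simp only [zero_div, div_one] at hp
    linarith only [g1, hp]
  · simp only [E.val, NumIs.lkR] at hp
    push_cast at hp
    try simp only [zero_div, div_one] at hp
    linarith only [g2, hp]
  · simp only [E.val, NumIs.lkR] at hp
    push_cast at hp
    try simp only [zero_div, div_one] at hp
    linarith only [g3, hp]
  · simp only [E.val, NumIs.lkR] at hp
    push_cast at hp
    try simp only [zero_div, div_one] at hp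
    linarith only [r0, hp]
  · simp only [E.val, NumIs.lkR] at hp
    push_cast at hp
    try simp only [zero_div, div_one] at hp
    linarith only [r1, hp]
  · simp only [E.val, NumIs.lkR] at hp
    push_cast at hp
    try simp only [zero_div, div_one] at hp
    linarith only [r2, hp]

/-- 68 boxes -/
theorem w_two_A1 {w t X Y : ℝ}
    (a0 : 200 / 10000 ≤ w) (b0 : w ≤ 1800 / 10000)
    (a1 : 460 / 10000 ≤ t) (b1 : t ≤ 940 / 10000)
    (a2 : 0 / 10000 ≤ X) (b2 : X ≤ 7850 / 10000)
    (a3 : 0 / 10000 ≤ Y) (b3 : Y ≤ 770 / 10000)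
    (r0 : 4 / 25 * Y ≤ 77 / 1000 * X)
    (r1 : 29 / 100 * Y ≤ 77 / 1000 * (4 / 5 - X))
    (g0 : Real.pi * ((21 / 100 - w) * Y + t * X - t) + uu (21 / 100 + X) (t + Y) - uu (21 / 100)
        t + (-uu (w + X) Y) + uu w 0 * 3 - uu (w + 4 / 5) 0 + uu (4 / 5) 0 - ((-(2911 / 10000)) -
        1571 / 500 * t) ≤ 0) : False := by
  have h : chkT [(.sub (.add (.sub (.add (.add (.sub (.add (.mul .pi (.sub (.add (.mul (.sub (.q
      21 100) (.var 0)) (.var 3)) (.mul (.var 1) (.var 2))) (.var 1))) (.uu (.add (.q 21 100)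
      (.var 2)) (.add (.var 1) (.var 3)))) (.uu (.q 21 100) (.var 1))) (.neg (.uu (.add (.var 0)
      (.var 2)) (.var 3)))) (.mul (.uu (.var 0) (.q 0 1)) (.q 3 1))) (.uu (.add (.var 0) (.q 4
      5)) (.q 0 1))) (.uu (.q 4 5) (.q 0 1))) (.sub (.q (-2911) 10000) (.mul (.q 1571 500) (.var
      1)))), (.sub (.mul (.q 4 25) (.var 3)) (.mul (.q 77 1000) (.var 2))), (.sub (.mul (.q 29
      100) (.var 3)) (.mul (.q 77 1000) (.sub (.q 4 5) (.var 2))))] 40
      2369041786485726713565861418003987895361224665890486724997838214760709724151338218609045477098877920802230735671878256113505810561474450288929990252158197692506146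
      [V.of 10000 200 1800 0, V.of 10000 460 940 0, V.of 10000 0 7850 0, V.of 10000 0 770 0] = true :=
      Pool.Agent.Work.NumUs.chkT_of w_two_A1_p1
  obtain ⟨e, he, hp⟩ := chkT4 h (by norm_num) (x := w) (y := t) (z := X) (w := Y)
    (le_trans (by norm_num) a0) (le_trans b0 (by norm_num))
    (le_trans (by norm_num) a1) (le_trans b1 (by norm_num))
    (le_trans (by norm_num) a2) (le_trans b2 (by norm_num))
    (le_trans (by norm_num) a3) (le_trans b3 (by norm_num))
  simp only [List.mem_cons, List.not_mem_nil, or_false] at he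
  rcases he with rfl | rfl | rfl
  · simp only [E.val, NumIs.lkR] at hp
    push_cast at hp
    try simp only [zero_div, div_one] at hp
    linarith only [g0, hp]
  · simp only [E.val, NumIs.lkR] at hp
    push_cast at hp
    try simp only [zero_div, div_one] at hp
    linarith only [r0, hp]
  · simp only [E.val, NumIs.lkR] at hp
    push_cast at hp
    try simp only [zero_div, div_one] at hp
    linarith only [r1, hp]

end L2

end TL

end Pool.Agent.Work.MP_b30479_gtS.G2

end

section

/-!
# Tails, interior three with its inner variable in the tail: the slot `2`, certificates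

Variables `w`, `t`, `X`, `Y`.
-/

set_option linter.unusedVariables false
set_option linter.unusedSimpArgs false
set_option linter.unusedTactic false
set_option linter.unreachableTactic false

set_option deprecated.oldSectionVars true

namespace Pool.Agent.Work.MP_b30479_gtS.G2

open NumUs
open NumUs.E
open NumIs (V)

namespace TL

namespace L2

/-- 9 boxes -/
theorem w_two_B1 {w t X Y : ℝ}
    (a0 : 1800 / 10000 ≤ w) (b0 : w ≤ 2000 / 10000)
    (a1 : 460 / 10000 ≤ t) (b1 : t ≤ 940 / 10000)
    (a2 : 0 / 10000 ≤ X) (b2 : X ≤ 7850 / 10000)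
    (a3 : 0 / 10000 ≤ Y) (b3 : Y ≤ 770 / 10000)
    (r0 : 4 / 25 * Y ≤ 77 / 1000 * X)
    (r1 : 29 / 100 * Y ≤ 77 / 1000 * (4 / 5 - X))
    (g0 : Real.pi * ((21 / 100 - w) * Y + t * X - t) + uu (21 / 100 + X) (t + Y) - uu (21 / 100)
        t + (-uu (w + X) Y) + uu w 0 * 3 - uu (49 / 50) 0 + uu (4 / 5) 0 - ((-(2911 / 10000)) -
        1571 / 500 * t) ≤ 0) : False := by
  have h : chkT [(.sub (.add (.sub (.add (.add (.sub (.add (.mul .pi (.sub (.add (.mul (.sub (.q
      21 100) (.var 0)) (.var 3)) (.mul (.var 1) (.var 2))) (.var 1))) (.uu (.add (.q 21 100)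
      (.var 2)) (.add (.var 1) (.var 3)))) (.uu (.q 21 100) (.var 1))) (.neg (.uu (.add (.var 0)
      (.var 2)) (.var 3)))) (.mul (.uu (.var 0) (.q 0 1)) (.q 3 1))) (.uu (.q 49 50) (.q 0 1)))
      (.uu (.q 4 5) (.q 0 1))) (.sub (.q (-2911) 10000) (.mul (.q 1571 500) (.var 1)))), (.sub
      (.mul (.q 4 25) (.var 3)) (.mul (.q 77 1000) (.var 2))), (.sub (.mul (.q 29 100) (.var 3))
      (.mul (.q 77 1000) (.sub (.q 4 5) (.var 2))))] 40
      157050232652664701474
      [V.of 10000 1800 2000 0, V.of 10000 460 940 0, V.of 10000 0 7850 0, V.of 10000 0 770 0] =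
          true := by
    decide +kernel
  obtain ⟨e, he, hp⟩ := chkT4 h (by norm_num) (x := w) (y := t) (z := X) (w := Y)
    (le_trans (by norm_num) a0) (le_trans b0 (by norm_num))
    (le_trans (by norm_num) a1) (le_trans b1 (by norm_num))
    (le_trans (by norm_num) a2) (le_trans b2 (by norm_num))
    (le_trans (by norm_num) a3) (le_trans b3 (by norm_num))
  simp only [List.mem_cons, List.not_mem_nil, or_false] at he
  rcases he with rfl | rfl | rfl
  · simp only [E.val, NumIs.lkR] at hp
    push_cast at hp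
    try simp only [zero_div, div_one] at hp
    linarith only [g0, hp]
  · simp only [E.val, NumIs.lkR] at hp
    push_cast at hp
    try simp only [zero_div, div_one] at hp
    linarith only [r0, hp]
  · simp only [E.val, NumIs.lkR] at hp
    push_cast at hp
    try simp only [zero_div, div_one] at hp
    linarith only [r1, hp]

/-- 7 boxes -/
theorem w_two_C1 {w t X Y : ℝ}
    (a0 : 0 / 10000 ≤ w) (b0 : w ≤ 200 / 10000)
    (a1 : 460 / 10000 ≤ t) (b1 : t ≤ 940 / 10000)
    (a2 : 1400 / 10000 ≤ X) (b2 : X ≤ 7850 / 10000)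
    (a3 : 0 / 10000 ≤ Y) (b3 : Y ≤ 770 / 10000)
    (r0 : 4 / 25 * Y ≤ 77 / 1000 * X)
    (r1 : 29 / 100 * Y ≤ 77 / 1000 * (4 / 5 - X))
    (g0 : Real.pi * ((21 / 100 - w) * Y + t * X - t) + uu (21 / 100 + X) (t + Y) - uu (21 / 100)
        t + (-uu (w + X) Y) + uu (1 / 50) 0 * 3 - uu (w + 4 / 5) 0 + uu (4 / 5) 0 - ((-(2911 /
        10000)) - 1571 / 500 * t) ≤ 0) : False := by
  have h : chkT [(.sub (.add (.sub (.add (.add (.sub (.add (.mul .pi (.sub (.add (.mul (.sub (.q
      21 100) (.var 0)) (.var 3)) (.mul (.var 1) (.var 2))) (.var 1))) (.uu (.add (.q 21 100)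
      (.var 2)) (.add (.var 1) (.var 3)))) (.uu (.q 21 100) (.var 1))) (.neg (.uu (.add (.var 0)
      (.var 2)) (.var 3)))) (.mul (.uu (.q 1 50) (.q 0 1)) (.q 3 1))) (.uu (.add (.var 0) (.q 4
      5)) (.q 0 1))) (.uu (.q 4 5) (.q 0 1))) (.sub (.q (-2911) 10000) (.mul (.q 1571 500) (.var
      1)))), (.sub (.mul (.q 4 25) (.var 3)) (.mul (.q 77 1000) (.var 2))), (.sub (.mul (.q 29
      100) (.var 3)) (.mul (.q 77 1000) (.sub (.q 4 5) (.var 2))))] 40
      2395296860637218
      [V.of 10000 0 200 0, V.of 10000 460 940 0, V.of 10000 1400 7850 0, V.of 10000 0 770 0] =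
          true := by
    decide +kernel
  obtain ⟨e, he, hp⟩ := chkT4 h (by norm_num) (x := w) (y := t) (z := X) (w := Y)
    (le_trans (by norm_num) a0) (le_trans b0 (by norm_num))
    (le_trans (by norm_num) a1) (le_trans b1 (by norm_num))
    (le_trans (by norm_num) a2) (le_trans b2 (by norm_num))
    (le_trans (by norm_num) a3) (le_trans b3 (by norm_num))
  simp only [List.mem_cons, List.not_mem_nil, or_false] at he
  rcases he with rfl | rfl | rfl
  · simp only [E.val, NumIs.lkR] at hp
    push_cast at hp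
    try simp only [zero_div, div_one] at hp
    linarith only [g0, hp]
  · simp only [E.val, NumIs.lkR] at hp
    push_cast at hp
    try simp only [zero_div, div_one] at hp
    linarith only [r0, hp]
  · simp only [E.val, NumIs.lkR] at hp
    push_cast at hp
    try simp only [zero_div, div_one] at hp
    linarith only [r1, hp]

/-- 1 boxes -/
theorem w_two_E {w t X Y : ℝ}
    (a0 : 0 / 10000 ≤ w) (b0 : w ≤ 200 / 10000)
    (a1 : 460 / 10000 ≤ t) (b1 : t ≤ 940 / 10000)
    (a2 : 0 / 10000 ≤ X) (b2 : X ≤ 1400 / 10000)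
    (a3 : 0 / 10000 ≤ Y) (b3 : Y ≤ 770 / 10000)
    (r0 : 4 / 25 * Y ≤ 77 / 1000 * X)
    (r1 : 29 / 100 * Y ≤ 77 / 1000 * (4 / 5 - X))
    (g0 : Real.pi * ((21 / 100 - w) * Y + t * X - t) + uu (21 / 100 + X) (t + Y) - uu (21 / 100)
        t + 0 + uu (1 / 50) 0 * 2 - uu (w + 4 / 5) 0 + uu (4 / 5) 0 - ((-(2911 / 10000)) - 1571 /
        500 * t) ≤ 0) : False := by
  have h : chkT [(.sub (.add (.sub (.add (.add (.sub (.add (.mul .pi (.sub (.add (.mul (.sub (.q
      21 100) (.var 0)) (.var 3)) (.mul (.var 1) (.var 2))) (.var 1))) (.uu (.add (.q 21 100)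
      (.var 2)) (.add (.var 1) (.var 3)))) (.uu (.q 21 100) (.var 1))) (.q 0 1)) (.mul (.uu (.q 1
      50) (.q 0 1)) (.q 2 1))) (.uu (.add (.var 0) (.q 4 5)) (.q 0 1))) (.uu (.q 4 5) (.q 0 1)))
      (.sub (.q (-2911) 10000) (.mul (.q 1571 500) (.var 1)))), (.sub (.mul (.q 4 25) (.var 3))
      (.mul (.q 77 1000) (.var 2))), (.sub (.mul (.q 29 100) (.var 3)) (.mul (.q 77 1000) (.sub
      (.q 4 5) (.var 2))))] 40
      8
      [V.of 10000 0 200 0, V.of 10000 460 940 0, V.of 10000 0 1400 0, V.of 10000 0 770 0] = true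
          := by
    decide +kernel
  obtain ⟨e, he, hp⟩ := chkT4 h (by norm_num) (x := w) (y := t) (z := X) (w := Y)
    (le_trans (by norm_num) a0) (le_trans b0 (by norm_num))
    (le_trans (by norm_num) a1) (le_trans b1 (by norm_num))
    (le_trans (by norm_num) a2) (le_trans b2 (by norm_num))
    (le_trans (by norm_num) a3) (le_trans b3 (by norm_num))
  simp only [List.mem_cons, List.not_mem_nil, or_false] at he
  rcases he with rfl | rfl | rfl
  · simp only [E.val, NumIs.lkR] at hp
    push_cast at hp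
    try simp only [zero_div, div_one] at hp
    linarith only [g0, hp]
  · simp only [E.val, NumIs.lkR] at hp
    push_cast at hp
    try simp only [zero_div, div_one] at hp
    linarith only [r0, hp]
  · simp only [E.val, NumIs.lkR] at hp
    push_cast at hp
    try simp only [zero_div, div_one] at hp
    linarith only [b2, b3, hp]

/-- 9 boxes -/
theorem w_two_A2 {w t X Y : ℝ}
    (a0 : 200 / 10000 ≤ w) (b0 : w ≤ 1800 / 10000)
    (a1 : 460 / 10000 ≤ t) (b1 : t ≤ 940 / 10000)
    (a2 : 7850 / 10000 ≤ X) (b2 : X ≤ 8000 / 10000)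
    (a3 : 0 / 10000 ≤ Y) (b3 : Y ≤ 770 / 10000)
    (r0 : 4 / 25 * Y ≤ 77 / 1000 * X)
    (r1 : 29 / 100 * Y ≤ 77 / 1000 * (4 / 5 - X))
    (g0 : Real.pi * ((21 / 100 - w) * Y + t * X - t) + (uu (1 / 100) (t + Y) + Real.pi * (t + Y))
        - uu (21 / 100) t + (-uu (w + X) Y) + uu w 0 * 3 - uu (w + 4 / 5) 0 + uu (4 / 5) 0 -
        ((-(2911 / 10000)) - 1571 / 500 * t) ≤ 0)
    (g1 : Real.pi * ((21 / 100 - w) * Y + t * X - t) + (uu (1 / 100) (t + Y) - Real.pi * (t + Y))
        - uu (21 / 100) t + (-uu (w + X) Y) + uu w 0 * 3 - uu (w + 4 / 5) 0 + uu (4 / 5) 0 -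
        ((-(2911 / 10000)) - 1571 / 500 * t) ≤ 0) : False := by
  have h : chkT [(.sub (.add (.sub (.add (.add (.sub (.add (.mul .pi (.sub (.add (.mul (.sub (.q
      21 100) (.var 0)) (.var 3)) (.mul (.var 1) (.var 2))) (.var 1))) (.add (.uu (.q 1 100)
      (.add (.var 1) (.var 3))) (.mul .pi (.add (.var 1) (.var 3))))) (.uu (.q 21 100) (.var 1)))
      (.neg (.uu (.add (.var 0) (.var 2)) (.var 3)))) (.mul (.uu (.var 0) (.q 0 1)) (.q 3 1)))
      (.uu (.add (.var 0) (.q 4 5)) (.q 0 1))) (.uu (.q 4 5) (.q 0 1))) (.sub (.q (-2911) 10000)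
      (.mul (.q 1571 500) (.var 1)))), (.sub (.add (.sub (.add (.add (.sub (.add (.mul .pi (.sub
      (.add (.mul (.sub (.q 21 100) (.var 0)) (.var 3)) (.mul (.var 1) (.var 2))) (.var 1)))
      (.sub (.uu (.q 1 100) (.add (.var 1) (.var 3))) (.mul .pi (.add (.var 1) (.var 3))))) (.uu
      (.q 21 100) (.var 1))) (.neg (.uu (.add (.var 0) (.var 2)) (.var 3)))) (.mul (.uu (.var 0)
      (.q 0 1)) (.q 3 1))) (.uu (.add (.var 0) (.q 4 5)) (.q 0 1))) (.uu (.q 4 5) (.q 0 1)))
      (.sub (.q (-2911) 10000) (.mul (.q 1571 500) (.var 1)))), (.sub (.mul (.q 4 25) (.var 3))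
      (.mul (.q 77 1000) (.var 2))), (.sub (.mul (.q 29 100) (.var 3)) (.mul (.q 77 1000) (.sub
      (.q 4 5) (.var 2))))] 40
      157051831366965540864
      [V.of 10000 200 1800 0, V.of 10000 460 940 0, V.of 10000 7850 8000 0, V.of 10000 0 770 0] =
          true := by
    decide +kernel
  obtain ⟨e, he, hp⟩ := chkT4 h (by norm_num) (x := w) (y := t) (z := X) (w := Y)
    (le_trans (by norm_num) a0) (le_trans b0 (by norm_num))
    (le_trans (by norm_num) a1) (le_trans b1 (by norm_num))
    (le_trans (by norm_num) a2) (le_trans b2 (by norm_num))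
    (le_trans (by norm_num) a3) (le_trans b3 (by norm_num))
  simp only [List.mem_cons, List.not_mem_nil, or_false] at he
  rcases he with rfl | rfl | rfl | rfl
  · simp only [E.val, NumIs.lkR] at hp
    push_cast at hp
    try simp only [zero_div, div_one] at hp
    linarith only [g0, hp]
  · simp only [E.val, NumIs.lkR] at hp
    push_cast at hp
    try simp only [zero_div, div_one] at hp
    linarith only [g1, hp]
  · simp only [E.val, NumIs.lkR] at hp
    push_cast at hp
    try simp only [zero_div, div_one] at hp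
    linarith only [a2, b3, hp]
  · simp only [E.val, NumIs.lkR] at hp
    push_cast at hp
    try simp only [zero_div, div_one] at hp
    linarith only [r1, hp]

/-- 1 boxes -/
theorem w_two_B2 {w t X Y : ℝ}
    (a0 : 1800 / 10000 ≤ w) (b0 : w ≤ 2000 / 10000)
    (a1 : 460 / 10000 ≤ t) (b1 : t ≤ 940 / 10000)
    (a2 : 7850 / 10000 ≤ X) (b2 : X ≤ 8000 / 10000)
    (a3 : 0 / 10000 ≤ Y) (b3 : Y ≤ 770 / 10000)
    (r0 : 4 / 25 * Y ≤ 77 / 1000 * X)
    (r1 : 29 / 100 * Y ≤ 77 / 1000 * (4 / 5 - X))
    (g0 : Real.pi * ((21 / 100 - w) * Y + t * X - t) + (uu (1 / 100) (t + Y) + Real.pi * (t + Y))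
        - uu (21 / 100) t + uu (1 / 25) Y + uu w 0 * 3 - uu (49 / 50) 0 + uu (4 / 5) 0 - ((-(2911
        / 10000)) - 1571 / 500 * t) ≤ 0)
    (g1 : Real.pi * ((21 / 100 - w) * Y + t * X - t) + (uu (1 / 100) (t + Y) - Real.pi * (t + Y))
        - uu (21 / 100) t + uu (1 / 25) Y + uu w 0 * 3 - uu (49 / 50) 0 + uu (4 / 5) 0 - ((-(2911
        / 10000)) - 1571 / 500 * t) ≤ 0) : False := by
  have h : chkT [(.sub (.add (.sub (.add (.add (.sub (.add (.mul .pi (.sub (.add (.mul (.sub (.q
      21 100) (.var 0)) (.var 3)) (.mul (.var 1) (.var 2))) (.var 1))) (.add (.uu (.q 1 100)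
      (.add (.var 1) (.var 3))) (.mul .pi (.add (.var 1) (.var 3))))) (.uu (.q 21 100) (.var 1)))
      (.uu (.q 1 25) (.var 3))) (.mul (.uu (.var 0) (.q 0 1)) (.q 3 1))) (.uu (.q 49 50) (.q 0
      1))) (.uu (.q 4 5) (.q 0 1))) (.sub (.q (-2911) 10000) (.mul (.q 1571 500) (.var 1)))),
      (.sub (.add (.sub (.add (.add (.sub (.add (.mul .pi (.sub (.add (.mul (.sub (.q 21 100)
      (.var 0)) (.var 3)) (.mul (.var 1) (.var 2))) (.var 1))) (.sub (.uu (.q 1 100) (.add (.var
      1) (.var 3))) (.mul .pi (.add (.var 1) (.var 3))))) (.uu (.q 21 100) (.var 1))) (.uu (.q 1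
      25) (.var 3))) (.mul (.uu (.var 0) (.q 0 1)) (.q 3 1))) (.uu (.q 49 50) (.q 0 1))) (.uu (.q
      4 5) (.q 0 1))) (.sub (.q (-2911) 10000) (.mul (.q 1571 500) (.var 1)))), (.sub (.mul (.q 4
      25) (.var 3)) (.mul (.q 77 1000) (.var 2))), (.sub (.mul (.q 29 100) (.var 3)) (.mul (.q 77
      1000) (.sub (.q 4 5) (.var 2))))] 40
      8
      [V.of 10000 1800 2000 0, V.of 10000 460 940 0, V.of 10000 7850 8000 0, V.of 10000 0 770 0]
          = true := by
    decide +kernel
  obtain ⟨e, he, hp⟩ := chkT4 h (by norm_num) (x := w) (y := t) (z := X) (w := Y)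
    (le_trans (by norm_num) a0) (le_trans b0 (by norm_num))
    (le_trans (by norm_num) a1) (le_trans b1 (by norm_num))
    (le_trans (by norm_num) a2) (le_trans b2 (by norm_num))
    (le_trans (by norm_num) a3) (le_trans b3 (by norm_num))
  simp only [List.mem_cons, List.not_mem_nil, or_false] at he
  rcases he with rfl | rfl | rfl | rfl
  · simp only [E.val, NumIs.lkR] at hp
    push_cast at hp
    try simp only [zero_div, div_one] at hp
    linarith only [g0, hp]
  · simp only [E.val, NumIs.lkR] at hp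
    push_cast at hp
    try simp only [zero_div, div_one] at hp
    linarith only [g1, hp]
  · simp only [E.val, NumIs.lkR] at hp
    push_cast at hp
    try simp only [zero_div, div_one] at hp
    linarith only [a2, b3, hp]
  · simp only [E.val, NumIs.lkR] at hp
    push_cast at hp
    try simp only [zero_div, div_one] at hp
    linarith only [r1, hp]

/-- 1 boxes -/
theorem w_two_C2 {w t X Y : ℝ}
    (a0 : 0 / 10000 ≤ w) (b0 : w ≤ 200 / 10000)
    (a1 : 460 / 10000 ≤ t) (b1 : t ≤ 940 / 10000)
    (a2 : 7850 / 10000 ≤ X) (b2 : X ≤ 8000 / 10000)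
    (a3 : 0 / 10000 ≤ Y) (b3 : Y ≤ 770 / 10000)
    (r0 : 4 / 25 * Y ≤ 77 / 1000 * X)
    (r1 : 29 / 100 * Y ≤ 77 / 1000 * (4 / 5 - X))
    (g0 : Real.pi * ((21 / 100 - w) * Y + t * X - t) + (uu (1 / 100) (t + Y) + Real.pi * (t + Y))
        - uu (21 / 100) t + (-uu (w + X) Y) + uu (1 / 50) 0 * 3 - uu (w + 4 / 5) 0 + uu (4 / 5) 0
        - ((-(2911 / 10000)) - 1571 / 500 * t) ≤ 0)
    (g1 : Real.pi * ((21 / 100 - w) * Y + t * X - t) + (uu (1 / 100) (t + Y) - Real.pi * (t + Y))
        - uu (21 / 100) t + (-uu (w + X) Y) + uu (1 / 50) 0 * 3 - uu (w + 4 / 5) 0 + uu (4 / 5) 0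
        - ((-(2911 / 10000)) - 1571 / 500 * t) ≤ 0) : False := by
  have h : chkT [(.sub (.add (.sub (.add (.add (.sub (.add (.mul .pi (.sub (.add (.mul (.sub (.q
      21 100) (.var 0)) (.var 3)) (.mul (.var 1) (.var 2))) (.var 1))) (.add (.uu (.q 1 100)
      (.add (.var 1) (.var 3))) (.mul .pi (.add (.var 1) (.var 3))))) (.uu (.q 21 100) (.var 1)))
      (.neg (.uu (.add (.var 0) (.var 2)) (.var 3)))) (.mul (.uu (.q 1 50) (.q 0 1)) (.q 3 1)))
      (.uu (.add (.var 0) (.q 4 5)) (.q 0 1))) (.uu (.q 4 5) (.q 0 1))) (.sub (.q (-2911) 10000)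
      (.mul (.q 1571 500) (.var 1)))), (.sub (.add (.sub (.add (.add (.sub (.add (.mul .pi (.sub
      (.add (.mul (.sub (.q 21 100) (.var 0)) (.var 3)) (.mul (.var 1) (.var 2))) (.var 1)))
      (.sub (.uu (.q 1 100) (.add (.var 1) (.var 3))) (.mul .pi (.add (.var 1) (.var 3))))) (.uu
      (.q 21 100) (.var 1))) (.neg (.uu (.add (.var 0) (.var 2)) (.var 3)))) (.mul (.uu (.q 1 50)
      (.q 0 1)) (.q 3 1))) (.uu (.add (.var 0) (.q 4 5)) (.q 0 1))) (.uu (.q 4 5) (.q 0 1)))
      (.sub (.q (-2911) 10000) (.mul (.q 1571 500) (.var 1)))), (.sub (.mul (.q 4 25) (.var 3))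
      (.mul (.q 77 1000) (.var 2))), (.sub (.mul (.q 29 100) (.var 3)) (.mul (.q 77 1000) (.sub
      (.q 4 5) (.var 2))))] 40
      8
      [V.of 10000 0 200 0, V.of 10000 460 940 0, V.of 10000 7850 8000 0, V.of 10000 0 770 0] =
          true := by
    decide +kernel
  obtain ⟨e, he, hp⟩ := chkT4 h (by norm_num) (x := w) (y := t) (z := X) (w := Y)
    (le_trans (by norm_num) a0) (le_trans b0 (by norm_num))
    (le_trans (by norm_num) a1) (le_trans b1 (by norm_num))
    (le_trans (by norm_num) a2) (le_trans b2 (by norm_num))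
    (le_trans (by norm_num) a3) (le_trans b3 (by norm_num))
  simp only [List.mem_cons, List.not_mem_nil, or_false] at he
  rcases he with rfl | rfl | rfl | rfl
  · simp only [E.val, NumIs.lkR] at hp
    push_cast at hp
    try simp only [zero_div, div_one] at hp
    linarith only [g0, hp]
  · simp only [E.val, NumIs.lkR] at hp
    push_cast at hp
    try simp only [zero_div, div_one] at hp
    linarith only [g1, hp]
  · simp only [E.val, NumIs.lkR] at hp
    push_cast at hp
    try simp only [zero_div, div_one] at hp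
    linarith only [a2, b3, hp]
  · simp only [E.val, NumIs.lkR] at hp
    push_cast at hp
    try simp only [zero_div, div_one] at hp
    linarith only [r1, hp]

/-- 39 boxes -/
theorem w_twoE_A1 {w t X Y : ℝ}
    (a0 : 200 / 10000 ≤ w) (b0 : w ≤ 1800 / 10000)
    (a1 : 870 / 10000 ≤ t) (b1 : t ≤ 1145 / 10000)
    (a2 : 800 / 10000 ≤ X) (b2 : X ≤ 7000 / 10000)
    (a3 : -(450 / 10000) ≤ Y) (b3 : Y ≤ 0 / 10000)
    (r0 : 7 / 50 * (-Y) ≤ 9 / 200 * X)
    (r1 : 7 / 20 * (-Y) ≤ 9 / 200 * (7 / 10 - X))
    (g0 : Real.pi * ((21 / 100 - w) * Y + t * X - t) + uu (21 / 100 + X) (t + Y) - uu (21 / 100)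
        t + (-uu (w + X) Y) + uu w 0 * 3 - uu (w + 4 / 5) 0 + uu (4 / 5) 0 - ((-(541 / 2000)) -
        2721 / 1000 * t) ≤ 0) : False := by
  have h : chkT [(.sub (.add (.sub (.add (.add (.sub (.add (.mul .pi (.sub (.add (.mul (.sub (.q
      21 100) (.var 0)) (.var 3)) (.mul (.var 1) (.var 2))) (.var 1))) (.uu (.add (.q 21 100)
      (.var 2)) (.add (.var 1) (.var 3)))) (.uu (.q 21 100) (.var 1))) (.neg (.uu (.add (.var 0)
      (.var 2)) (.var 3)))) (.mul (.uu (.var 0) (.q 0 1)) (.q 3 1))) (.uu (.add (.var 0) (.q 4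
      5)) (.q 0 1))) (.uu (.q 4 5) (.q 0 1))) (.sub (.q (-541) 2000) (.mul (.q 2721 1000) (.var
      1)))), (.sub (.mul (.q 7 50) (.neg (.var 3))) (.mul (.q 9 200) (.var 2))), (.sub (.mul (.q
      7 20) (.neg (.var 3))) (.mul (.q 9 200) (.sub (.q 7 10) (.var 2))))] 40
      277355443874971216272278103157670460132506778590279630229043527880925117578033171430381847042
      [V.of 10000 200 1800 0, V.of 10000 870 1145 0, V.of 10000 800 7000 0, V.of 10000 (-450) 0
          0] = true :=
      Pool.Agent.Work.NumUs.chkT_of w_twoE_A1_p1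
  obtain ⟨e, he, hp⟩ := chkT4 h (by norm_num) (x := w) (y := t) (z := X) (w := Y)
    (le_trans (by norm_num) a0) (le_trans b0 (by norm_num))
    (le_trans (by norm_num) a1) (le_trans b1 (by norm_num))
    (le_trans (by norm_num) a2) (le_trans b2 (by norm_num))
    (le_trans (by norm_num) a3) (le_trans b3 (by norm_num))
  simp only [List.mem_cons, List.not_mem_nil, or_false] at he
  rcases he with rfl | rfl | rfl
  · simp only [E.val, NumIs.lkR] at hp
    push_cast at hp
    try simp only [zero_div, div_one] at hp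
    linarith only [g0, hp]
  · simp only [E.val, NumIs.lkR] at hp
    push_cast at hp
    try simp only [zero_div, div_one] at hp
    linarith only [r0, hp]
  · simp only [E.val, NumIs.lkR] at hp
    push_cast at hp
    try simp only [zero_div, div_one] at hp
    linarith only [r1, hp]

/-- 4 boxes -/
theorem w_twoE_B1 {w t X Y : ℝ}
    (a0 : 1800 / 10000 ≤ w) (b0 : w ≤ 2000 / 10000)
    (a1 : 870 / 10000 ≤ t) (b1 : t ≤ 1145 / 10000)
    (a2 : 800 / 10000 ≤ X) (b2 : X ≤ 7000 / 10000)
    (a3 : -(450 / 10000) ≤ Y) (b3 : Y ≤ 0 / 10000)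
    (r0 : 7 / 50 * (-Y) ≤ 9 / 200 * X)
    (r1 : 7 / 20 * (-Y) ≤ 9 / 200 * (7 / 10 - X))
    (g0 : Real.pi * ((21 / 100 - w) * Y + t * X - t) + uu (21 / 100 + X) (t + Y) - uu (21 / 100)
        t + (-uu (w + X) Y) + uu w 0 * 3 - uu (49 / 50) 0 + uu (4 / 5) 0 - ((-(541 / 2000)) -
        2721 / 1000 * t) ≤ 0) : False := by
  have h : chkT [(.sub (.add (.sub (.add (.add (.sub (.add (.mul .pi (.sub (.add (.mul (.sub (.q
      21 100) (.var 0)) (.var 3)) (.mul (.var 1) (.var 2))) (.var 1))) (.uu (.add (.q 21 100)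
      (.var 2)) (.add (.var 1) (.var 3)))) (.uu (.q 21 100) (.var 1))) (.neg (.uu (.add (.var 0)
      (.var 2)) (.var 3)))) (.mul (.uu (.var 0) (.q 0 1)) (.q 3 1))) (.uu (.q 49 50) (.q 0 1)))
      (.uu (.q 4 5) (.q 0 1))) (.sub (.q (-541) 2000) (.mul (.q 2721 1000) (.var 1)))), (.sub
      (.mul (.q 7 50) (.neg (.var 3))) (.mul (.q 9 200) (.var 2))), (.sub (.mul (.q 7 20) (.neg
      (.var 3))) (.mul (.q 9 200) (.sub (.q 7 10) (.var 2))))] 40
      142772258
      [V.of 10000 1800 2000 0, V.of 10000 870 1145 0, V.of 10000 800 7000 0, V.of 10000 (-450) 0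
          0] = true := by
    decide +kernel
  obtain ⟨e, he, hp⟩ := chkT4 h (by norm_num) (x := w) (y := t) (z := X) (w := Y)
    (le_trans (by norm_num) a0) (le_trans b0 (by norm_num))
    (le_trans (by norm_num) a1) (le_trans b1 (by norm_num))
    (le_trans (by norm_num) a2) (le_trans b2 (by norm_num))
    (le_trans (by norm_num) a3) (le_trans b3 (by norm_num))
  simp only [List.mem_cons, List.not_mem_nil, or_false] at he
  rcases he with rfl | rfl | rfl
  · simp only [E.val, NumIs.lkR] at hp
    push_cast at hp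
    try simp only [zero_div, div_one] at hp
    linarith only [g0, hp]
  · simp only [E.val, NumIs.lkR] at hp
    push_cast at hp
    try simp only [zero_div, div_one] at hp
    linarith only [r0, hp]
  · simp only [E.val, NumIs.lkR] at hp
    push_cast at hp
    try simp only [zero_div, div_one] at hp
    linarith only [r1, hp]

/-- 2 boxes -/
theorem w_twoE_C1 {w t X Y : ℝ}
    (a0 : 0 / 10000 ≤ w) (b0 : w ≤ 200 / 10000)
    (a1 : 870 / 10000 ≤ t) (b1 : t ≤ 1145 / 10000)
    (a2 : 1400 / 10000 ≤ X) (b2 : X ≤ 7000 / 10000)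
    (a3 : -(450 / 10000) ≤ Y) (b3 : Y ≤ 0 / 10000)
    (r0 : 7 / 50 * (-Y) ≤ 9 / 200 * X)
    (r1 : 7 / 20 * (-Y) ≤ 9 / 200 * (7 / 10 - X))
    (g0 : Real.pi * ((21 / 100 - w) * Y + t * X - t) + uu (21 / 100 + X) (t + Y) - uu (21 / 100)
        t + (-uu (w + X) Y) + uu (1 / 50) 0 * 3 - uu (w + 4 / 5) 0 + uu (4 / 5) 0 - ((-(541 /
        2000)) - 2721 / 1000 * t) ≤ 0) : False := by
  have h : chkT [(.sub (.add (.sub (.add (.add (.sub (.add (.mul .pi (.sub (.add (.mul (.sub (.q
      21 100) (.var 0)) (.var 3)) (.mul (.var 1) (.var 2))) (.var 1))) (.uu (.add (.q 21 100)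
      (.var 2)) (.add (.var 1) (.var 3)))) (.uu (.q 21 100) (.var 1))) (.neg (.uu (.add (.var 0)
      (.var 2)) (.var 3)))) (.mul (.uu (.q 1 50) (.q 0 1)) (.q 3 1))) (.uu (.add (.var 0) (.q 4
      5)) (.q 0 1))) (.uu (.q 4 5) (.q 0 1))) (.sub (.q (-541) 2000) (.mul (.q 2721 1000) (.var
      1)))), (.sub (.mul (.q 7 50) (.neg (.var 3))) (.mul (.q 9 200) (.var 2))), (.sub (.mul (.q
      7 20) (.neg (.var 3))) (.mul (.q 9 200) (.sub (.q 7 10) (.var 2))))] 40
      2178
      [V.of 10000 0 200 0, V.of 10000 870 1145 0, V.of 10000 1400 7000 0, V.of 10000 (-450) 0 0]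
          = true := by
    decide +kernel
  obtain ⟨e, he, hp⟩ := chkT4 h (by norm_num) (x := w) (y := t) (z := X) (w := Y)
    (le_trans (by norm_num) a0) (le_trans b0 (by norm_num))
    (le_trans (by norm_num) a1) (le_trans b1 (by norm_num))
    (le_trans (by norm_num) a2) (le_trans b2 (by norm_num))
    (le_trans (by norm_num) a3) (le_trans b3 (by norm_num))
  simp only [List.mem_cons, List.not_mem_nil, or_false] at he
  rcases he with rfl | rfl | rfl
  · simp only [E.val, NumIs.lkR] at hp
    push_cast at hp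
    try simp only [zero_div, div_one] at hp
    linarith only [g0, hp]
  · simp only [E.val, NumIs.lkR] at hp
    push_cast at hp
    try simp only [zero_div, div_one] at hp
    linarith only [a2, a3, hp]
  · simp only [E.val, NumIs.lkR] at hp
    push_cast at hp
    try simp only [zero_div, div_one] at hp
    linarith only [r1, hp]

/-- 1 boxes -/
theorem w_twoE_E {w t X Y : ℝ}
    (a0 : 0 / 10000 ≤ w) (b0 : w ≤ 200 / 10000)
    (a1 : 870 / 10000 ≤ t) (b1 : t ≤ 1145 / 10000)
    (a2 : 800 / 10000 ≤ X) (b2 : X ≤ 1400 / 10000)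
    (a3 : -(450 / 10000) ≤ Y) (b3 : Y ≤ 0 / 10000)
    (r0 : 7 / 50 * (-Y) ≤ 9 / 200 * X)
    (r1 : 7 / 20 * (-Y) ≤ 9 / 200 * (7 / 10 - X))
    (g0 : Real.pi * ((21 / 100 - w) * Y + t * X - t) + uu (21 / 100 + X) (t + Y) - uu (21 / 100)
        t + 0 + uu (1 / 50) 0 * 2 - uu (w + 4 / 5) 0 + uu (4 / 5) 0 - ((-(541 / 2000)) - 2721 /
        1000 * t) ≤ 0) : False := by
  have h : chkT [(.sub (.add (.sub (.add (.add (.sub (.add (.mul .pi (.sub (.add (.mul (.sub (.q
      21 100) (.var 0)) (.var 3)) (.mul (.var 1) (.var 2))) (.var 1))) (.uu (.add (.q 21 100)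
      (.var 2)) (.add (.var 1) (.var 3)))) (.uu (.q 21 100) (.var 1))) (.q 0 1)) (.mul (.uu (.q 1
      50) (.q 0 1)) (.q 2 1))) (.uu (.add (.var 0) (.q 4 5)) (.q 0 1))) (.uu (.q 4 5) (.q 0 1)))
      (.sub (.q (-541) 2000) (.mul (.q 2721 1000) (.var 1)))), (.sub (.mul (.q 7 50) (.neg (.var
      3))) (.mul (.q 9 200) (.var 2))), (.sub (.mul (.q 7 20) (.neg (.var 3))) (.mul (.q 9 200)
      (.sub (.q 7 10) (.var 2))))] 40
      8
      [V.of 10000 0 200 0, V.of 10000 870 1145 0, V.of 10000 800 1400 0, V.of 10000 (-450) 0 0] =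
          true := by
    decide +kernel
  obtain ⟨e, he, hp⟩ := chkT4 h (by norm_num) (x := w) (y := t) (z := X) (w := Y)
    (le_trans (by norm_num) a0) (le_trans b0 (by norm_num))
    (le_trans (by norm_num) a1) (le_trans b1 (by norm_num))
    (le_trans (by norm_num) a2) (le_trans b2 (by norm_num))
    (le_trans (by norm_num) a3) (le_trans b3 (by norm_num))
  simp only [List.mem_cons, List.not_mem_nil, or_false] at he
  rcases he with rfl | rfl | rfl
  · simp only [E.val, NumIs.lkR] at hp
    push_cast at hp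
    try simp only [zero_div, div_one] at hp
    linarith only [g0, hp]
  · simp only [E.val, NumIs.lkR] at hp
    push_cast at hp
    try simp only [zero_div, div_one] at hp
    linarith only [r0, hp]
  · simp only [E.val, NumIs.lkR] at hp
    push_cast at hp
    try simp only [zero_div, div_one] at hp
    linarith only [b2, a3, hp]

end L2

end TL

end Pool.Agent.Work.MP_b30479_gtS.G2

end

section

/-!
# The inner variable of an interior digit three: flips

Five lemmas: the value at a point of the mirrored path is smaller than the value at the point of the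
main path plus the mode.
-/

set_option linter.unusedVariables false

namespace Pool.Agent.Work.MP_b30479_gtS.G2

open Finset VOL Filter Topology
open NumUs (uu UU_uu uu_neg uu_add_one uu_one_sub)

namespace FI3

/-! ### slopes of `uu` in the height -/

theorem hasDerivAt_ht {X : ℝ} (h0 : 0 < X) (h1 : X < 1) (s : ℝ) :
    HasDerivAt (fun s => uu X s) (-NumIs.lnB X s) s := by
  have h := NumUs.uu_line (x := X) (t := 0) (a := 0) (b := 1) (τ := s) (by simpa using h0)
    (by simpa using h1)
  simpa using h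

theorem cot_pos {X : ℝ} (h0 : 0 < X) (h1 : X ≤ 1 / 2) :
    0 < Real.sin (Real.pi * X) ∧ 0 ≤ Real.cos (Real.pi * X) := by
  have hp := Real.pi_pos
  refine ⟨Real.sin_pos_of_pos_of_lt_pi (by positivity) (by nlinarith only [hp, h1]),
    Real.cos_nonneg_of_neg_pi_div_two_le_of_le (by nlinarith only [hp, h0]) (by nlinarith only [h1, hp])⟩

theorem lnB_nonneg {X s : ℝ} (h0 : 0 < X) (h1 : X ≤ 1 / 2) (hs : 0 ≤ s) : 0 ≤ NumIs.lnB X s := by
  have hp := Real.pi_pos
  obtain ⟨h2, h3⟩ := cot_pos h0 h1
  unfold NumIs.lnB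
  rw [← Real.arctan_zero]
  apply Real.arctan_strictMono.monotone
  have h4 : 0 ≤ Real.sinh (Real.pi * s) := Real.sinh_nonneg_iff.2 (by positivity)
  have h5 := Real.cosh_pos (Real.pi * s)
  positivity

theorem sinh_le_cosh' (y : ℝ) : Real.sinh y ≤ Real.cosh y := (Real.sinh_lt_cosh y).le

theorem lnB_le {X s : ℝ} (h0 : 0 < X) (h1 : X ≤ 1 / 2) (hs : 0 ≤ s) :
    NumIs.lnB X s ≤ Real.pi * (1 / 2 - X) := by
  have hp := Real.pi_pos
  obtain ⟨h2, h3⟩ := cot_pos h0 h1
  have h5 := Real.cosh_pos (Real.pi * s)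
  have e : Real.pi * (1 / 2 - X) = Real.arctan (Real.tan (Real.pi * (1 / 2 - X))) := by
    rw [Real.arctan_tan] <;> nlinarith only [hp, h1, h0]
  have e2 : Real.tan (Real.pi * (1 / 2 - X)) = Real.cos (Real.pi * X) / Real.sin (Real.pi * X) := by
    rw [show Real.pi * (1 / 2 - X) = Real.pi / 2 - Real.pi * X by ring, Real.tan_eq_sin_div_cos,
      Real.sin_pi_div_two_sub, Real.cos_pi_div_two_sub]
  rw [e, e2]
  unfold NumIs.lnB
  apply Real.arctan_strictMono.monotone
  rw [div_le_div_iff₀ (by positivity) h2]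
  have h6 := mul_le_mul_of_nonneg_left (sinh_le_cosh' (Real.pi * s)) h3
  nlinarith only [h0, h1, h2, h6]

theorem sinh_le_mul_cosh {y : ℝ} (hy : 0 ≤ y) : Real.sinh y ≤ y * Real.cosh y := by
  have hd : ∀ t, HasDerivAt (fun y => y * Real.cosh y - Real.sinh y)
      ((1 * Real.cosh t + t * Real.sinh t) - Real.cosh t) t := fun t =>
    ((hasDerivAt_id t).mul (Real.hasDerivAt_cosh t)).sub (Real.hasDerivAt_sinh t)
  have hm : MonotoneOn (fun y => y * Real.cosh y - Real.sinh y) (Set.Ici 0) := by
    apply monotoneOn_of_deriv_nonneg (convex_Ici 0)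
    · exact fun t _ => (hd t).continuousAt.continuousWithinAt
    · exact fun t _ => (hd t).differentiableAt.differentiableWithinAt
    · intro t ht
      rw [interior_Ici] at ht
      rw [(hd t).deriv]
      have := Real.sinh_nonneg_iff.2 (le_of_lt (Set.mem_Ioi.1 ht))
      have ht' : 0 ≤ t := le_of_lt (Set.mem_Ioi.1 ht)
      nlinarith only [ht', this, mul_nonneg ht' this]
  have h := hm (Set.mem_Ici.2 le_rfl) (Set.mem_Ici.2 hy) hy
  simp only [zero_mul, Real.sinh_zero, sub_zero] at h
  linarith only [h]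

theorem lnB_le_div {X s : ℝ} (h0 : 0 < X) (h1 : X ≤ 1 / 2) (hs : 0 ≤ s) :
    NumIs.lnB X s ≤ s / X := by
  have hp := Real.pi_pos
  obtain ⟨h2, h3⟩ := cot_pos h0 h1
  have h5 := Real.cosh_pos (Real.pi * s)
  have h6 : Real.sinh (Real.pi * s) ≤ Real.pi * s * Real.cosh (Real.pi * s) :=
    sinh_le_mul_cosh (by positivity)
  have h4 : 0 ≤ Real.sinh (Real.pi * s) := Real.sinh_nonneg_iff.2 (by positivity)
  have h7 : Real.pi * X * Real.cos (Real.pi * X) ≤ Real.sin (Real.pi * X) := by
    rcases h1.lt_or_eq with h1 | h1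
    · have h8 := Real.le_tan (x := Real.pi * X) (by positivity) (by nlinarith only [hp, h1])
      have h9 : 0 < Real.cos (Real.pi * X) :=
        Real.cos_pos_of_mem_Ioo ⟨by nlinarith only [hp, h0], by nlinarith only [hp, h1]⟩
      rw [Real.tan_eq_sin_div_cos, le_div_iff₀ h9] at h8
      exact h8
    · rw [h1, show Real.pi * (1 / 2) = Real.pi / 2 by ring, Real.cos_pi_div_two, mul_zero,
        Real.sin_pi_div_two]
      norm_num
  have hz : Real.cos (Real.pi * X) * Real.sinh (Real.pi * s) /
      (Real.sin (Real.pi * X) * Real.cosh (Real.pi * s)) ≤ s / X := by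
    rw [div_le_div_iff₀ (by positivity) h0]
    calc Real.cos (Real.pi * X) * Real.sinh (Real.pi * s) * X ≤
        Real.cos (Real.pi * X) * (Real.pi * s * Real.cosh (Real.pi * s)) * X := by gcongr
      _ = s * Real.cosh (Real.pi * s) * (Real.pi * X * Real.cos (Real.pi * X)) := by ring
      _ ≤ s * Real.cosh (Real.pi * s) * Real.sin (Real.pi * X) := by gcongr
      _ = s * (Real.sin (Real.pi * X) * Real.cosh (Real.pi * s)) := by ring
  have h8 : 0 ≤ Real.cos (Real.pi * X) * Real.sinh (Real.pi * s) /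
      (Real.sin (Real.pi * X) * Real.cosh (Real.pi * s)) := by positivity
  unfold NumIs.lnB
  have h9 := Real.le_tan (Real.arctan_nonneg.2 h8) (Real.arctan_lt_pi_div_two _)
  rw [Real.tan_arctan] at h9
  exact h9.trans hz

/-- monotonicity of a combination with the height -/
theorem mono_of {X : ℝ} (h0 : 0 < X) (h1 : X < 1) {g g' : ℝ → ℝ} (hg : ∀ s, HasDerivAt g (g' s) s)
    (hn : ∀ s, 0 ≤ s → 0 ≤ -NumIs.lnB X s + g' s) {y y' : ℝ} (hy : 0 ≤ y) (h : y ≤ y') :
    uu X y + g y ≤ uu X y' + g y' := by
  have hd : ∀ s, HasDerivAt (fun s => uu X s + g s) (-NumIs.lnB X s + g' s) s := fun s =>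
    (hasDerivAt_ht h0 h1 s).add (hg s)
  have hm : MonotoneOn (fun s => uu X s + g s) (Set.Ici 0) := by
    apply monotoneOn_of_deriv_nonneg (convex_Ici 0)
    · exact fun t _ => (hd t).continuousAt.continuousWithinAt
    · exact fun t _ => (hd t).differentiableAt.differentiableWithinAt
    · intro t ht
      rw [(hd t).deriv]
      rw [interior_Ici] at ht
      exact hn t (le_of_lt ht)
  exact hm (Set.mem_Ici.2 hy) (Set.mem_Ici.2 (hy.trans h)) h

/-- left of `1/2` the value decreases with the height -/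
theorem dec {X y y' : ℝ} (h0 : 0 ≤ X) (h1 : X ≤ 1 / 2) (hy : 0 ≤ y) (h : y ≤ y') :
    uu X y' ≤ uu X y := by
  have hp := Real.pi_pos
  rcases h0.eq_or_lt with h2 | h2
  · rw [← h2, NumXs.uu_zero_left, NumXs.uu_zero_left, abs_of_nonneg hy, abs_of_nonneg (hy.trans h)]
    nlinarith only [h, hp]
  · have hd : ∀ s, HasDerivAt (fun s => uu X s) (-NumIs.lnB X s) s := fun s =>
      hasDerivAt_ht h2 (by linarith only [h1, h2]) s
    have hm : AntitoneOn (fun s => uu X s) (Set.Ici 0) := by
      apply antitoneOn_of_deriv_nonpos (convex_Ici 0)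
      · exact fun t _ => (hd t).continuousAt.continuousWithinAt
      · exact fun t _ => (hd t).differentiableAt.differentiableWithinAt
      · intro t ht
        rw [(hd t).deriv]
        rw [interior_Ici] at ht
        linarith only [h2, h1, ht, lnB_nonneg h2 h1 (le_of_lt ht)]
    exact hm (Set.mem_Ici.2 hy) (Set.mem_Ici.2 (hy.trans h)) h

/-- left of `1/2`, lower bound of the slope -/
theorem dec_ge {X y y' : ℝ} (h0 : 0 ≤ X) (h1 : X ≤ 1 / 2) (hy : 0 ≤ y) (h : y ≤ y') :
    -(Real.pi * (1 / 2 - X) * (y' - y)) ≤ uu X y' - uu X y := by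
  have hp := Real.pi_pos
  rcases h0.eq_or_lt with h2 | h2
  · rw [← h2, NumXs.uu_zero_left, NumXs.uu_zero_left, abs_of_nonneg hy, abs_of_nonneg (hy.trans h)]
    nlinarith only []
  · have := mono_of h2 (by linarith only [h1, h2]) (g := fun s => Real.pi * (1 / 2 - X) * s)
      (g' := fun _ => Real.pi * (1 / 2 - X)) (fun s => by
        simpa using (hasDerivAt_id s).const_mul (Real.pi * (1 / 2 - X)))
      (fun s hs => by linarith only [h2, h1, hs, lnB_le h2 h1 hs]) hy h
    nlinarith only [this]

/-- left of `1/2`, quadratic lower bound -/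
theorem dec_sq {X y y' : ℝ} (h0 : 0 < X) (h1 : X ≤ 1 / 2) (hy : 0 ≤ y) (h : y ≤ y') :
    -((y' ^ 2 - y ^ 2) / (2 * X)) ≤ uu X y' - uu X y := by
  have := mono_of h0 (by linarith only [h0, h1]) (g := fun s => s ^ 2 / (2 * X))
    (g' := fun s => s / X) (fun s => by
      have := ((hasDerivAt_id s).pow 2).div_const (2 * X)
      refine this.congr_deriv ?_
      simp
      field_simp)
    (fun s hs => by linarith only [h0, h1, hs, lnB_le_div h0 h1 hs]) hy h
  rw [sub_div]
  linarith only [this]

/-- left of `1/2`: the value is concave in the height -/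
theorem conc {X a L : ℝ} (h0 : 0 < X) (h1 : X ≤ 1 / 2) (ha : 0 ≤ a) (hL : 0 ≤ L) :
    uu X (a + L) - uu X a ≤ uu X L - uu X 0 := by
  have hp := Real.pi_pos
  obtain ⟨h2, h3⟩ := cot_pos h0 h1
  have hd : ∀ s, HasDerivAt (fun s => uu X (s + L) - uu X s)
      (-NumIs.lnB X (s + L) - -NumIs.lnB X s) s := fun s =>
    ((hasDerivAt_ht h0 (by linarith only [h0, h1]) (s + L)).comp_add_const s L).sub
      (hasDerivAt_ht h0 (by linarith only [h0, h1]) s)
  have hm : AntitoneOn (fun s => uu X (s + L) - uu X s) (Set.Ici 0) := by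
    apply antitoneOn_of_deriv_nonpos (convex_Ici 0)
    · exact fun t _ => (hd t).continuousAt.continuousWithinAt
    · exact fun t _ => (hd t).differentiableAt.differentiableWithinAt
    · intro t ht
      rw [(hd t).deriv]
      rw [interior_Ici] at ht
      have ht' : 0 ≤ t := le_of_lt ht
      have : NumIs.lnB X t ≤ NumIs.lnB X (t + L) := by
        unfold NumIs.lnB
        apply Real.arctan_strictMono.monotone
        have c1 := Real.cosh_pos (Real.pi * t)
        have c2 := Real.cosh_pos (Real.pi * (t + L))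
        rw [div_le_div_iff₀ (by positivity) (by positivity)]
        have h5 : 0 ≤ Real.sinh (Real.pi * (t + L) - Real.pi * t) :=
          Real.sinh_nonneg_iff.2 (by nlinarith only [h0, h1, hL, hp])
        rw [Real.sinh_sub] at h5
        have h6 : Real.sinh (Real.pi * t) * Real.cosh (Real.pi * (t + L)) ≤
            Real.sinh (Real.pi * (t + L)) * Real.cosh (Real.pi * t) := by linarith only [h5]
        calc Real.cos (Real.pi * X) * Real.sinh (Real.pi * t) *
            (Real.sin (Real.pi * X) * Real.cosh (Real.pi * (t + L))) =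
            Real.cos (Real.pi * X) * Real.sin (Real.pi * X) *
              (Real.sinh (Real.pi * t) * Real.cosh (Real.pi * (t + L))) := by ring
          _ ≤ Real.cos (Real.pi * X) * Real.sin (Real.pi * X) *
              (Real.sinh (Real.pi * (t + L)) * Real.cosh (Real.pi * t)) := by gcongr
          _ = _ := by ring
      linarith only [this]
  have := hm (Set.mem_Ici.2 le_rfl) (Set.mem_Ici.2 ha) ha
  simp only [zero_add] at this
  exact this

/-! ### increments over intervals of both signs -/

/-- the length of the positive part -/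
noncomputable def Pp (y y' : ℝ) : ℝ := max y' 0 - max y 0

/-- the length of the negative part -/
noncomputable def Nn (y y' : ℝ) : ℝ := min y' 0 - min y 0

theorem Pp_nonneg {y y' : ℝ} (h : y ≤ y') : 0 ≤ Pp y y' := by
  unfold Pp; linarith only [h, max_le_max h (le_refl (0 : ℝ))]

theorem Nn_nonneg {y y' : ℝ} (h : y ≤ y') : 0 ≤ Nn y y' := by
  unfold Nn; linarith only [h, min_le_min h (le_refl (0 : ℝ))]

theorem Pp_add_Nn (y y' : ℝ) : Pp y y' + Nn y y' = y' - y := by
  unfold Pp Nn
  linarith only [max_add_min y' 0, max_add_min y 0]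

theorem abs_eq_PN (y y' : ℝ) : |y'| - |y| = Pp y y' - Nn y y' := by
  have e : ∀ y : ℝ, |y| = max y 0 - min y 0 := by
    intro y
    rcases le_total 0 y with h | h
    · rw [abs_of_nonneg h, max_eq_left h, min_eq_right h]; ring
    · rw [abs_of_nonpos h, max_eq_right h, min_eq_left h]; ring
  rw [e, e]; unfold Pp Nn; ring

theorem uu_split (X y : ℝ) : uu X y = uu X (max y 0) + uu X (-min y 0) - uu X 0 := by
  rcases le_total 0 y with h | h
  · rw [max_eq_left h, min_eq_right h, neg_zero]; ring
  · rw [max_eq_right h, min_eq_left h, uu_neg]; ring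

theorem split_diff (X y y' : ℝ) : uu X y' - uu X y =
    (uu X (max y' 0) - uu X (max y 0)) - (uu X (-min y 0) - uu X (-min y' 0)) := by
  rw [uu_split X y', uu_split X y]; ring

variable {X y y' : ℝ}

theorem mx (y : ℝ) : 0 ≤ max y 0 := le_max_right _ _
theorem mn (y : ℝ) : 0 ≤ -min y 0 := by linarith only [min_le_right y (0 : ℝ)]
theorem mmx (h : y ≤ y') : max y 0 ≤ max y' 0 := max_le_max h le_rfl
theorem mmn (h : y ≤ y') : -min y' 0 ≤ -min y 0 := by linarith only [h, min_le_min h (le_refl (0 : ℝ))]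

/-- left of `1/2`, upper bound -/
theorem lup (h0 : 0 ≤ X) (h1 : X ≤ 1 / 2) (h : y ≤ y') :
    uu X y' - uu X y ≤ Real.pi * (1 / 2 - X) * Nn y y' := by
  rw [split_diff]
  have h2 := dec h0 h1 (mx y) (mmx h)
  have h3 := dec_ge h0 h1 (mn y') (mmn h)
  have e : -min y 0 - -min y' 0 = Nn y y' := by unfold Nn; ring
  rw [e] at h3
  linarith only [h2, h3]

/-- left of `1/2`, lower bound -/
theorem llo (h0 : 0 ≤ X) (h1 : X ≤ 1 / 2) (h : y ≤ y') :
    -(Real.pi * (1 / 2 - X) * Pp y y') ≤ uu X y' - uu X y := by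
  rw [split_diff]
  have h2 := dec h0 h1 (mn y') (mmn h)
  have h3 := dec_ge h0 h1 (mx y) (mmx h)
  have e : max y' 0 - max y 0 = Pp y y' := rfl
  rw [e] at h3
  linarith only [h2, h3]

/-- left of `1/2`, quadratic upper bound -/
theorem lsq (h0 : 0 < X) (h1 : X ≤ 1 / 2) (h : y ≤ y') :
    uu X y' - uu X y ≤ (min y 0 ^ 2 - min y' 0 ^ 2) / (2 * X) := by
  rw [split_diff]
  have h2 := dec h0.le h1 (mx y) (mmx h)
  have h3 := dec_sq h0 h1 (mn y') (mmn h)
  rw [neg_sq, neg_sq] at h3
  linarith only [h2, h3]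

/-- left of `1/2`, slope at most `c` if the negative part is at most `c X` -/
theorem lc {c : ℝ} (hc : 0 ≤ c) (h0 : 0 < X) (h1 : X ≤ 1 / 2) (h : y ≤ y') (hy : -(c * X) ≤ y) :
    uu X y' - uu X y ≤ c * (y' - y) := by
  have h2 := lsq h0 h1 h
  have h3 : (min y 0 ^ 2 - min y' 0 ^ 2) / (2 * X) ≤ c * Nn y y' := by
    rw [div_le_iff₀ (by positivity)]
    have a0 : -(c * X) ≤ min y 0 := le_min hy (by nlinarith only [hc, h0])
    have a1 : min y 0 ≤ min y' 0 := min_le_min h le_rfl
    have a2 : min y' 0 ≤ 0 := min_le_right _ _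
    unfold Nn
    nlinarith only [h0, h1, a0, a1]
  have h4 := Pp_add_Nn y y'
  have h5 := Pp_nonneg h
  nlinarith only [h2, h3, hc, h4, h5]

/-- the same for the other direction -/
theorem lc' {c : ℝ} (hc : 0 ≤ c) (h0 : 0 < X) (h1 : X ≤ 1 / 2) (h : y ≤ y') (hy : y' ≤ c * X) :
    -(c * (y' - y)) ≤ uu X y' - uu X y := by
  have := lc hc h0 h1 (neg_le_neg h) (by linarith only [hy])
  rw [uu_neg, uu_neg] at this
  linarith only [this]

/-- right of `1/2` -/
theorem rup (h0 : 1 / 2 ≤ X) (h1 : X ≤ 1) (h : y ≤ y') :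
    uu X y' - uu X y ≤ Real.pi * (X - 1 / 2) * Pp y y' := by
  have := llo (X := 1 - X) (by linarith only [h1]) (by linarith only [h0]) h
  rw [uu_one_sub, uu_one_sub] at this
  have e : Real.pi * (1 / 2 - (1 - X)) = Real.pi * (X - 1 / 2) := by ring
  rw [e] at this
  linarith only [this]

theorem rlo (h0 : 1 / 2 ≤ X) (h1 : X ≤ 1) (h : y ≤ y') :
    -(Real.pi * (X - 1 / 2) * Nn y y') ≤ uu X y' - uu X y := by
  have := lup (X := 1 - X) (by linarith only [h1]) (by linarith only [h0]) h
  rw [uu_one_sub, uu_one_sub] at this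
  have e : Real.pi * (1 / 2 - (1 - X)) = Real.pi * (X - 1 / 2) := by ring
  rw [e] at this
  linarith only [this]

theorem rsq (h0 : 1 / 2 ≤ X) (h1 : X < 1) (h : y ≤ y') :
    -((min y 0 ^ 2 - min y' 0 ^ 2) / (2 * (1 - X))) ≤ uu X y' - uu X y := by
  have := lsq (X := 1 - X) (by linarith only [h1]) (by linarith only [h0]) h
  rw [uu_one_sub, uu_one_sub] at this
  linarith only [this]

/-- the ramp: quadratic near zero, then linear -/
theorem ramp_C {x : ℝ} (h0 : 0 < x) (h1 : x ≤ 1 / 50) :
    uu x 0 - uu x (16 / 5 * x) ≤ 3793 / 1000 * x := by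
  have h2 := dec_sq h0 (by linarith only [h0, h1]) (le_refl (0 : ℝ)) (show (0 : ℝ) ≤ 157 / 100 * x by positivity)
  have h3 := dec_ge h0.le (by linarith only [h0, h1]) (show (0 : ℝ) ≤ 157 / 100 * x by positivity)
    (show 157 / 100 * x ≤ 16 / 5 * x by linarith only [h0])
  have e : ((157 / 100 * x) ^ 2 - 0 ^ 2) / (2 * x) = 24649 / 20000 * x := by
    field_simp
    ring
  rw [e] at h2
  have hp := Real.pi_pos
  have hp2 := Real.pi_lt_d4
  have e3 : Real.pi * (1 / 2 - x) * (16 / 5 * x - 157 / 100 * x) ≤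
      Real.pi * (1 / 2) * (163 / 100 * x) := by
    have : 16 / 5 * x - 157 / 100 * x = 163 / 100 * x := by ring
    rw [this]
    gcongr
    linarith only [h0]
  nlinarith only [h2, h3, e3, h0, h1, hp2]

/-! ### the difference of the values -/

theorem V3_diff (a t x d k s s' : ℝ) : V3 ⟨a, t⟩ ⟨x, s'⟩ ⟨d, k⟩ - V3 ⟨a, t⟩ ⟨x, s⟩ ⟨d, k⟩ =
    Real.pi * (1 / 2 - a - x + d) * (s' - s) + (uu (x + d) (s' + k) - uu (x + d) (s + k)) -
      (uu (x - a) (s' - t) - uu (x - a) (s - t)) - (uu x s' - uu x s) := by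
  unfold V3
  simp only [UU_uu, Complex.add_re, Complex.add_im, Complex.sub_im, Complex.sub_re,
    Complex.mul_im, pow_two, Complex.re_ofNat, Complex.im_ofNat, Complex.mul_re]
  ring

theorem tr_left {x : ℝ} (h0 : 0 ≤ x) (h1 : x ≤ 1 / 20) :
    G2.tr 0 (8 / 10) (5 / 100) (5 / 100) x = 20 * x := by
  have e : G2.tr 0 (8 / 10) (5 / 100) (5 / 100) x =
      max 0 (min 1 (min ((x - 0) / (5 / 100)) ((8 / 10 - x) / (5 / 100)))) := rfl
  rw [e, min_eq_left (by linarith only [h1] : (x - 0) / (5 / 100) ≤ (8 / 10 - x) / (5 / 100)),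
    min_eq_right (by linarith only [h1]), max_eq_right (by linarith only [h0])]
  ring

theorem tr_mid {x : ℝ} (h0 : 1 / 20 ≤ x) (h1 : x ≤ 3 / 4) :
    G2.tr 0 (8 / 10) (5 / 100) (5 / 100) x = 1 := by
  have e : G2.tr 0 (8 / 10) (5 / 100) (5 / 100) x =
      max 0 (min 1 (min ((x - 0) / (5 / 100)) ((8 / 10 - x) / (5 / 100)))) := rfl
  rw [e, min_eq_left (le_min (by linarith only [h0]) (by linarith only [h1])), max_eq_right (by linarith only [])]

theorem tr_right {x : ℝ} (h0 : 3 / 4 ≤ x) (h1 : x ≤ 8 / 10) :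
    G2.tr 0 (8 / 10) (5 / 100) (5 / 100) x = 20 * (8 / 10 - x) := by
  have e : G2.tr 0 (8 / 10) (5 / 100) (5 / 100) x =
      max 0 (min 1 (min ((x - 0) / (5 / 100)) ((8 / 10 - x) / (5 / 100)))) := rfl
  rw [e, min_eq_right (by linarith only [h0] : (8 / 10 - x) / (5 / 100) ≤ (x - 0) / (5 / 100)),
    min_eq_right (by linarith only [h0]), max_eq_right (by linarith only [h1])]
  ring

/-- bounds of the ramp function -/
theorem tr_bd {XM cl cr x : ℝ} (hc : 0 < cl) (hc' : 0 < cr) (h0 : 0 ≤ x) (h1 : x ≤ XM) :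
    0 ≤ G2.tr 0 XM cl cr x ∧ G2.tr 0 XM cl cr x ≤ 1 ∧ G2.tr 0 XM cl cr x * cl ≤ x ∧
      G2.tr 0 XM cl cr x * cr ≤ XM - x := by
  have a0 : 0 ≤ x / cl := div_nonneg h0 hc.le
  have a1 : 0 ≤ (XM - x) / cr := div_nonneg (by linarith only [h1]) hc'.le
  have e : G2.tr 0 XM cl cr x = max 0 (min 1 (min ((x - 0) / cl) ((XM - x) / cr))) := rfl
  rw [sub_zero] at e
  have e1 : G2.tr 0 XM cl cr x = min 1 (min (x / cl) ((XM - x) / cr)) := by
    rw [e]
    exact max_eq_right (le_min zero_le_one (le_min a0 a1))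
  have b1 : G2.tr 0 XM cl cr x ≤ x / cl := by
    rw [e1]
    exact (min_le_right _ _).trans (min_le_left _ _)
  have b2 : G2.tr 0 XM cl cr x ≤ (XM - x) / cr := by
    rw [e1]
    exact (min_le_right _ _).trans (min_le_right _ _)
  refine ⟨?_, ?_, (le_div_iff₀ hc).mp b1, (le_div_iff₀ hc').mp b2⟩
  · rw [e]
    exact le_max_left _ _
  · rw [e1]
    exact min_le_left _ _

theorem Pp_le {y y' : ℝ} (h : y ≤ y') : Pp y y' ≤ y' - y := by
  linarith only [h, Pp_add_Nn y y', Nn_nonneg h]

theorem Nn_le {y y' : ℝ} (h : y ≤ y') : Nn y y' ≤ y' - y := by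
  linarith only [h, Pp_add_Nn y y', Pp_nonneg h]

/-- the kink: the difference of the first two variables is on the left of the imaginary axis -/
theorem kink {r y y' c1 c2 : ℝ} (h0 : -1 ≤ r) (h1 : r ≤ 0) (c10 : 0 ≤ c1) (c11 : -(1 / 2) - r ≤ c1)
    (c20 : 0 ≤ c2) (c21 : r + 1 / 2 ≤ c2) (h : y ≤ y') :
    -(uu r y' - uu r y) ≤ Real.pi * (1 + c1) * Pp y y' + Real.pi * (c2 - 1) * Nn y y' := by
  have hp := Real.pi_pos
  have a1 := uu_add_one r y
  have a2 := uu_add_one r y'
  have a3 := abs_eq_PN y y'
  have hP := Pp_nonneg h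
  have hN := Nn_nonneg h
  have e : -(uu r y' - uu r y) = -(uu (r + 1) y' - uu (r + 1) y) +
      Real.pi * (Pp y y' - Nn y y') := by
    rw [← a3, a1, a2]; ring
  rw [e]
  rcases le_total (r + 1) (1 / 2) with h2 | h2
  · have h3 := llo (X := r + 1) (by linarith only [h0]) h2 h
    have h4 : Real.pi * (1 / 2 - (r + 1)) * Pp y y' ≤ Real.pi * c1 * Pp y y' := by
      gcongr; linarith only [c11]
    have h5 : 0 ≤ Real.pi * c2 * Nn y y' := by positivity
    linarith only [h3, h4, h5]
  · have h3 := rlo (X := r + 1) h2 (by linarith only [h1]) h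
    have h4 : Real.pi * (r + 1 - 1 / 2) * Nn y y' ≤ Real.pi * c2 * Nn y y' := by
      gcongr; linarith only [c21]
    have h5 : 0 ≤ Real.pi * c1 * Pp y y' := by positivity
    linarith only [h3, h4, h5]

/-- the part of the own hinge below the axis -/
theorem own_neg {x s : ℝ} (h0 : 0 ≤ x) (h1 : x ≤ 1 / 2) (hs : s ≤ 0) : uu x s ≤ uu x 0 := by
  have := dec h0 h1 le_rfl (show (0 : ℝ) ≤ -s by linarith only [hs])
  rwa [uu_neg] at this

theorem fl1 {a t x T d k : ℝ} (hx0 : 0 < x) (hx : x ≤ 1 / 50) (hT0 : -(123 / 1000) ≤ T)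
    (hT : T ≤ 0) (ha0 : 35 / 100 ≤ a) (ha : a ≤ 6 / 10) (ht : 0 ≤ t) (hd0 : 0 ≤ d)
    (hd : d ≤ 1 / 10) (hk0 : -(881 / 1000) * d ≤ k) (hk : k ≤ 44 / 100 * d) :
    V3 ⟨a, t⟩ ⟨x, 16 / 100 * G2.tr 0 (8 / 10) (5 / 100) (5 / 100) x⟩ ⟨d, k⟩ -
      V3 ⟨a, t⟩ ⟨x, T * G2.tr 0 (8 / 10) (5 / 100) (5 / 100) x⟩ ⟨d, k⟩ <
      2 * Real.pi * (16 / 100 * G2.tr 0 (8 / 10) (5 / 100) (5 / 100) x) := by
  have hp := Real.pi_gt_d4
  have hp2 := Real.pi_lt_d4
  rw [tr_left hx0.le (by linarith only [hx0, hx]), V3_diff]
  set s1 : ℝ := 16 / 100 * (20 * x) with hs1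
  set s0 : ℝ := T * (20 * x) with hs0
  have e1 : s1 = 16 / 5 * x := by rw [hs1]; ring
  have h10 : 0 ≤ s1 := by rw [e1]; positivity
  have h00 : s0 ≤ 0 := by rw [hs0]; nlinarith only [hx0, hT]
  have hA1 : uu (x + d) (s1 + k) - uu (x + d) (0 + k) ≤ 881 / 1000 * (s1 + k - (0 + k)) :=
    lc (by norm_num) (by linarith only [hx0, hd0]) (by linarith only [hx0, hx, hd]) (by linarith only [hx0, hs1]) (by linarith only [hx0, hk0])
  have hA2 := lup (X := x + d) (y := s0 + k) (y' := 0 + k) (by linarith only [hx0, hd0]) (by linarith only [hx0, hx, hd]) (by linarith only [h00])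
  have hA3 := Nn_le (y := s0 + k) (y' := 0 + k) (by linarith only [h00])
  have hA4 : Real.pi * (1 / 2 - (x + d)) * Nn (s0 + k) (0 + k) ≤
      Real.pi * (1 / 2 - (x + d)) * (0 + k - (s0 + k)) :=
    mul_le_mul_of_nonneg_left hA3 (mul_nonneg Real.pi_pos.le (by linarith only [hx0, hx, hd]))
  have hC1 := ramp_C hx0 hx
  rw [← e1] at hC1
  have hC2 := own_neg (x := x) hx0.le (by linarith only [hx0, hx]) h00
  have hPB := Pp_le (y := s0 - t) (y' := s1 - t) (by linarith only [hx0, hs1, h00])
  obtain ⟨c1, c2, hc10, hc11, hc20, hc21, hk1, hk2⟩ : ∃ c1 c2 : ℝ, 0 ≤ c1 ∧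
      -(1 / 2) - (x - a) ≤ c1 ∧ 0 ≤ c2 ∧ x - a + 1 / 2 ≤ c2 ∧ 3 / 4 ≤ a + x - d - c1 + 1 / 2 ∧
      c2 ≤ a := by
    rcases le_total (a - x) (1 / 2) with h | h
    · exact ⟨0, x - a + 1 / 2, by linarith only [], by linarith only [h], by linarith only [h], by linarith only [], by linarith only [hx0, ha0, hd],
        by linarith only [hx0, hx, ha0]⟩
    · exact ⟨a - x - 1 / 2, 0, by linarith only [h], by linarith only [], by linarith only [], by linarith only [h], by linarith only [hx0, hx, hd],
        by linarith only [hx0, hx, h]⟩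
  have hB1 := kink (r := x - a) (y := 0 - t) (y' := s1 - t) (by linarith only [hx0, hx, ha]) (by linarith only [hx0, hx, ha0]) hc10 hc11
    hc20 hc21 (by linarith only [hx0, hs1])
  have hB2 := kink (r := x - a) (y := s0 - t) (y' := 0 - t) (by linarith only [hx0, hx, ha]) (by linarith only [hx0, hx, ha0]) hc10 hc11
    hc20 hc21 (by linarith only [h00])
  have b1 : Pp (0 - t) (s1 - t) ≤ s1 := by
    have := Pp_le (y := 0 - t) (y' := s1 - t) (by linarith only [hx0, hs1])
    linarith only [this]
  have b2 : 0 ≤ Nn (0 - t) (s1 - t) := Nn_nonneg (by linarith only [hx0, hs1])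
  have b3 : Pp (s0 - t) (0 - t) = 0 := by
    unfold Pp
    rw [max_eq_right (by linarith only [ht]), max_eq_right (by linarith only [ht, h00]), sub_zero]
  have b4 : Nn (s0 - t) (0 - t) = -s0 := by
    have := Pp_add_Nn (s0 - t) (0 - t)
    rw [b3] at this
    linarith only [this]
  rw [b3, b4] at hB2
  have b5 : Real.pi * (1 + c1) * Pp (0 - t) (s1 - t) ≤ Real.pi * (1 + c1) * s1 := by
    gcongr
  have b6 : Real.pi * (c2 - 1) * Nn (0 - t) (s1 - t) ≤ 0 :=
    mul_nonpos_of_nonpos_of_nonneg (mul_nonpos_of_nonneg_of_nonpos (by linarith only [hx0, hx, hp]) (by linarith only [hx0, hx, ha, hk2])) b2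
  -- the part below the axis
  have hneg : Real.pi * (-a - 2 * x + c2) * (-s0) ≤ 0 :=
    mul_nonpos_of_nonpos_of_nonneg (mul_nonpos_of_nonneg_of_nonpos (by linarith only [hx0, hx, hp]) (by linarith only [hx0, hk2]))
      (by linarith only [h00])
  have hkey : 66122 / 10000 < Real.pi * (16 / 5) * (a + x - d - c1 + 1 / 2) := by nlinarith only [hk1, hx0, hp, hx]
  have hfin : 66122 / 10000 * x < Real.pi * (16 / 5) * (a + x - d - c1 + 1 / 2) * x :=
    mul_lt_mul_of_pos_right hkey hx0
  have hs1x : 881 / 1000 * s1 + 3793 / 1000 * x = 66122 / 10000 * x := by rw [e1]; ring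
  have hpi : Real.pi * (16 / 5) * (a + x - d - c1 + 1 / 2) * x =
      Real.pi * (a + x - d - c1 + 1 / 2) * s1 := by rw [e1]; ring
  rw [hpi] at hfin
  linarith only [hs1, hA1, hA2, hA4, hC1, hC2, hB1, hB2, b5, b6, hneg, hfin]

/-- the part of the opposite hinge, any position in `[0, 1]` -/
theorem anyA {X y y' : ℝ} (h0 : 0 ≤ X) (h1 : X ≤ 1) (h : y ≤ y') :
    uu X y' - uu X y ≤ Real.pi * |1 / 2 - X| * (y' - y) := by
  have hp := Real.pi_pos
  rcases le_total X (1 / 2) with h2 | h2
  · have h3 := lup h0 h2 h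
    rw [abs_of_nonneg (by linarith only [h2])]
    have h4 : Real.pi * (1 / 2 - X) * Nn y y' ≤ Real.pi * (1 / 2 - X) * (y' - y) :=
      mul_le_mul_of_nonneg_left (Nn_le h) (mul_nonneg hp.le (by linarith only [h2]))
    linarith only [h3, h4]
  · have h3 := rup h2 h1 h
    rw [abs_of_nonpos (by linarith only [h2])]
    have h4 : Real.pi * (X - 1 / 2) * Pp y y' ≤ Real.pi * (X - 1 / 2) * (y' - y) :=
      mul_le_mul_of_nonneg_left (Pp_le h) (mul_nonneg hp.le (by linarith only [h2]))
    linarith only [h3, h4]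

theorem fl2 {a t x T d k : ℝ} (hx0 : 0 < x) (hx : x ≤ 1 / 50) (hT0 : -(123 / 1000) ≤ T)
    (hT : T ≤ 0) (ha0 : 3 / 10 ≤ a) (ha : a ≤ 6 / 10) (ht : 16 / 5 * x ≤ t) (hd0 : 0 ≤ d)
    (hd : d ≤ 65 / 100) :
    V3 ⟨a, t⟩ ⟨x, 16 / 100 * G2.tr 0 (8 / 10) (5 / 100) (5 / 100) x⟩ ⟨d, k⟩ -
      V3 ⟨a, t⟩ ⟨x, T * G2.tr 0 (8 / 10) (5 / 100) (5 / 100) x⟩ ⟨d, k⟩ <
      2 * Real.pi * (16 / 100 * G2.tr 0 (8 / 10) (5 / 100) (5 / 100) x) := by
  have hp := Real.pi_pos
  rw [tr_left hx0.le (by linarith only [hx0, hx]), V3_diff]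
  set s1 : ℝ := 16 / 100 * (20 * x) with hs1
  set s0 : ℝ := T * (20 * x) with hs0
  have e1 : s1 = 16 / 5 * x := by rw [hs1]; ring
  have h10 : 0 ≤ s1 := by rw [e1]; positivity
  have h00 : s0 ≤ 0 := by rw [hs0]; nlinarith only [hx0, hT]
  have h01 : -(246 / 100) * x ≤ s0 := by rw [hs0]; nlinarith only [hx0, hT0]
  have hA := anyA (X := x + d) (y := s0 + k) (y' := s1 + k) (by linarith only [hx0, hd0]) (by linarith only [hx0, hx, hd])
    (by linarith only [hx0, hs1, h00])
  have hC1 := dec_ge (X := x) (y := 0) (y' := s1) hx0.le (by linarith only [hx0, hx]) le_rfl h10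
  have hC2 := own_neg (x := x) hx0.le (by linarith only [hx0, hx]) h00
  obtain ⟨c1, c2, hc10, hc11, hc20, hc21, hk1⟩ : ∃ c1 c2 : ℝ, 0 ≤ c1 ∧
      -(1 / 2) - (x - a) ≤ c1 ∧ 0 ≤ c2 ∧ x - a + 1 / 2 ≤ c2 ∧
      1 / 2 - a - x + d + |1 / 2 - (x + d)| + (c2 - 1) ≤ 22 / 100 := by
    rcases le_total (x + d) (1 / 2) with h | h
    · rw [abs_of_nonneg (by linarith only [h])]
      rcases le_total (a - x) (1 / 2) with h' | h'
      · exact ⟨0, x - a + 1 / 2, by linarith only [], by linarith only [h'], by linarith only [h'], by linarith only [], by linarith only [hx0, hx, ha0]⟩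
      · exact ⟨a - x - 1 / 2, 0, by linarith only [h'], by linarith only [], by linarith only [], by linarith only [h'], by linarith only [hx0, hx, h']⟩
    · rw [abs_of_nonpos (by linarith only [h])]
      rcases le_total (a - x) (1 / 2) with h' | h'
      · exact ⟨0, x - a + 1 / 2, by linarith only [], by linarith only [h'], by linarith only [h'], by linarith only [], by linarith only [hx, ha0, hd]⟩
      · exact ⟨a - x - 1 / 2, 0, by linarith only [h'], by linarith only [], by linarith only [], by linarith only [h'], by linarith only [hx0, hx, hd, h']⟩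
  have hB := kink (r := x - a) (y := s0 - t) (y' := s1 - t) (by linarith only [hx0, hx, ha]) (by linarith only [hx0, hx, ha0]) hc10 hc11
    hc20 hc21 (by linarith only [hx0, hs1, h00])
  have b1 : Pp (s0 - t) (s1 - t) = 0 := by
    unfold Pp
    rw [max_eq_right (by linarith only [ht, hs1]), max_eq_right (by linarith only [hx0, ht, h00]), sub_zero]
  have b2 : Nn (s0 - t) (s1 - t) = s1 - s0 := by
    have := Pp_add_Nn (s0 - t) (s1 - t)
    rw [b1] at this
    linarith only [this]
  rw [b1, b2] at hB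
  have hk2 : Real.pi * (1 / 2 - a - x + d + |1 / 2 - (x + d)| + (c2 - 1)) * (s1 - s0) ≤
      Real.pi * (22 / 100) * (s1 - s0) := by
    gcongr
    linarith only [hx0, hs1, h00]
  have hk3 : Real.pi * (22 / 100) * (s1 - s0) ≤ Real.pi * (22 / 100) * (566 / 100 * x) := by
    gcongr
    linarith only [hs1, h01]
  have hk4 : Real.pi * (1 / 2 - x) * (s1 - 0) ≤ Real.pi * (1 / 2) * (16 / 5 * x) := by
    rw [e1, sub_zero]
    gcongr
    linarith only [hx0]
  have hk5 : 0 < Real.pi * x := by positivity
  have e2 : 2 * Real.pi * s1 = 2 * Real.pi * (16 / 5 * x) := by rw [e1]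
  rw [e2]
  linarith only [hA, hC1, hC2, hB, hk2, hk3, hk4, hk5]

theorem fl3 {a t x T d k : ℝ} (hx0 : 0 < x) (hx : x ≤ 1 / 50) (hT : T ≤ 0)
    (ha0 : 46 / 100 ≤ a) (ha : a ≤ 6 / 10) (hd0 : 0 ≤ d) (hk0 : -(724 / 1000) * d ≤ k)
    (hc : (d ≤ 4 / 100 ∧ -(25 / 1000) ≤ T) ∨ (d ≤ 2 / 100 ∧ -(38 / 1000) ≤ T)) :
    V3 ⟨a, t⟩ ⟨x, 16 / 100 * G2.tr 0 (8 / 10) (5 / 100) (5 / 100) x⟩ ⟨d, k⟩ -
      V3 ⟨a, t⟩ ⟨x, T * G2.tr 0 (8 / 10) (5 / 100) (5 / 100) x⟩ ⟨d, k⟩ <
      2 * Real.pi * (16 / 100 * G2.tr 0 (8 / 10) (5 / 100) (5 / 100) x) := by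
  have hp := Real.pi_gt_d4
  rw [tr_left hx0.le (by linarith only [hx0, hx]), V3_diff]
  set s1 : ℝ := 16 / 100 * (20 * x) with hs1
  set s0 : ℝ := T * (20 * x) with hs0
  have e1 : s1 = 16 / 5 * x := by rw [hs1]; ring
  have h10 : 0 ≤ s1 := by rw [e1]; positivity
  have h00 : s0 ≤ 0 := by rw [hs0]; nlinarith only [hx0, hT]
  have hC1 := ramp_C hx0 hx
  rw [← e1] at hC1
  have hC2 := own_neg (x := x) hx0.le (by linarith only [hx0, hx]) h00
  have hd : d ≤ 4 / 100 := by rcases hc with h | h <;> linarith only [h, hx0, hx, h.1]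
  obtain ⟨c1, c2, hc10, hc11, hc20, hc21, hk1, hk2⟩ : ∃ c1 c2 : ℝ, 0 ≤ c1 ∧
      -(1 / 2) - (x - a) ≤ c1 ∧ 0 ≤ c2 ∧ x - a + 1 / 2 ≤ c2 ∧
      1 / 2 - a - x + d + (1 + c1) ≤ 104 / 100 + d ∧ c2 ≤ 1 := by
    rcases le_total (a - x) (1 / 2) with h | h
    · exact ⟨0, x - a + 1 / 2, by linarith only [], by linarith only [h], by linarith only [h], by linarith only [], by linarith only [hx0, ha0],
        by linarith only [hx0, hx, ha0]⟩
    · exact ⟨a - x - 1 / 2, 0, by linarith only [h], by linarith only [], by linarith only [], by linarith only [h], by linarith only [hx0, hx],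
        by linarith only [hx0, hx]⟩
  have hB := kink (r := x - a) (y := s0 - t) (y' := s1 - t) (by linarith only [hx0, hx, ha]) (by linarith only [hx0, hx, ha0]) hc10 hc11
    hc20 hc21 (by linarith only [hx0, hs1, h00])
  have b1 : Pp (s0 - t) (s1 - t) ≤ s1 - s0 := by
    have := Pp_le (y := s0 - t) (y' := s1 - t) (by linarith only [hx0, hs1, h00])
    linarith only [this]
  have b2 : 0 ≤ Nn (s0 - t) (s1 - t) := Nn_nonneg (by linarith only [hx0, hs1, h00])
  have b5 : Real.pi * (1 + c1) * Pp (s0 - t) (s1 - t) ≤ Real.pi * (1 + c1) * (s1 - s0) := by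
    gcongr
  have b6 : Real.pi * (c2 - 1) * Nn (s0 - t) (s1 - t) ≤ 0 :=
    mul_nonpos_of_nonpos_of_nonneg (mul_nonpos_of_nonneg_of_nonpos (by linarith only [hx0, hx, hp]) (by linarith only [hk2])) b2
  have hk3 : Real.pi * (1 / 2 - a - x + d + (1 + c1)) * (s1 - s0) ≤
      Real.pi * (104 / 100 + d) * (s1 - s0) := by
    gcongr
    linarith only [hx0, hs1, h00]
  have hk5 : 31415 / 10000 * x ≤ Real.pi * x := by
    gcongr
    linarith only [hp]
  have e2 : 2 * Real.pi * s1 = 64 / 10 * (Real.pi * x) := by rw [e1]; ring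
  rw [e2]
  rcases hc with ⟨hd1, hT1⟩ | ⟨hd1, hT1⟩
  · have h01 : -(50 / 100) * x ≤ s0 := by rw [hs0]; nlinarith only [hx0, hT1]
    have hA1 : uu (x + d) (s1 + k) - uu (x + d) (s0 + k) ≤ 724 / 1000 * (s1 + k - (s0 + k)) :=
      lc (by norm_num) (by linarith only [hx0, hd0]) (by linarith only [hx0, hx, hd]) (by linarith only [hx0, hs1, h00]) (by linarith only [hx0, hk0, h01])
    have hk4 : Real.pi * (104 / 100 + d) * (s1 - s0) ≤
        Real.pi * (104 / 100 + 4 / 100) * (370 / 100 * x) := by
      gcongr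
      · linarith only [hx0, hs1, h00]
      · linarith only [hs1, h01]
    linarith only [hx0, hs1, hC1, hC2, hB, b5, b6, hk3, hk5, h01, hA1, hk4]
  · have h01 : -(76 / 100) * x ≤ s0 := by rw [hs0]; nlinarith only [hx0, hT1]
    have hA1 : uu (x + d) (s1 + k) - uu (x + d) (s0 + k) ≤ 76 / 100 * (s1 + k - (s0 + k)) :=
      lc (by norm_num) (by linarith only [hx0, hd0]) (by linarith only [hx0, hx, hd]) (by linarith only [hx0, hs1, h00]) (by linarith only [hd0, hk0, h01])
    have hk4 : Real.pi * (104 / 100 + d) * (s1 - s0) ≤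
        Real.pi * (104 / 100 + 2 / 100) * (396 / 100 * x) := by
      gcongr
      · linarith only [hx0, hs1, h00]
      · linarith only [hs1, h01]
    linarith only [hx0, hs1, hC1, hC2, hB, b5, b6, hk3, hk5, h01, hA1, hk4]

/-- the part of the opposite hinge at the right end -/
theorem hugeA {X y y' : ℝ} (h0 : 1 / 2 ≤ X) (h1 : X ≤ 3 / 2) (h : y ≤ y') :
    uu X y' - uu X y ≤ Real.pi * (y' - y) := by
  have hp := Real.pi_pos
  have hP := Pp_le h
  have hP0 := Pp_nonneg h
  rcases le_total X 1 with h2 | h2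
  · have h3 := rup h0 h2 h
    have h4 : Real.pi * (X - 1 / 2) * Pp y y' ≤ Real.pi * 1 * (y' - y) := by
      gcongr
      linarith only [h1]
    linarith only [h3, h4]
  · have a1 := uu_add_one (X - 1) y
    have a2 := uu_add_one (X - 1) y'
    have a3 := abs_eq_PN y y'
    rw [sub_add_cancel] at a1 a2
    have h3 := lup (X := X - 1) (by linarith only [h2]) (by linarith only [h1]) h
    have h4 : Real.pi * (1 / 2 - (X - 1)) * Nn y y' ≤ Real.pi * (1 / 2) * Nn y y' := by
      have := Nn_nonneg h
      gcongr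
      linarith only [h2]
    have h5 := Nn_nonneg h
    have h6 := Pp_add_Nn y y'
    have e : uu X y' - uu X y = uu (X - 1) y' - uu (X - 1) y + Real.pi * (Pp y y' - Nn y y') := by
      rw [← a3, a1, a2]; ring
    rw [e, ← h6]
    have h7 : 0 ≤ Real.pi * Nn y y' := by positivity
    linarith only [h3, h4, h7]

/-- squares of the negative parts -/
theorem sq_neg {s0 s1 t : ℝ} (h0 : s0 ≤ 0) (h1 : 0 ≤ s1) :
    min (s0 - t) 0 ^ 2 - min (s1 - t) 0 ^ 2 ≤ 2 * (max t 0 * (s1 - s0)) + s0 ^ 2 := by
  rcases le_total t 0 with ht | ht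
  · rw [max_eq_right ht, min_eq_right (by linarith only [h1, ht] : (0 : ℝ) ≤ s1 - t)]
    rcases le_total (s0 - t) 0 with h | h
    · rw [min_eq_left h]; nlinarith only [h0, ht, h]
    · rw [min_eq_right h]; nlinarith only []
  · rw [max_eq_left ht, min_eq_left (by linarith only [h0, ht] : s0 - t ≤ 0)]
    rcases le_total (s1 - t) 0 with h | h
    · rw [min_eq_left h]; nlinarith only [h1]
    · rw [min_eq_right h]; nlinarith only [h1, ht, h]

/-- the part of the own hinge, right of `1/2` -/
theorem ownR {x s0 s1 : ℝ} (h0 : 1 / 2 ≤ x) (h1 : x < 1) (hs0 : s0 ≤ 0) (hs1 : 0 ≤ s1) :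
    -(uu x s1 - uu x s0) ≤ s0 ^ 2 / (2 * (1 - x)) := by
  have h := rsq h0 h1 (hs0.trans hs1)
  rw [min_eq_left hs0, min_eq_right hs1] at h
  rw [show s0 ^ 2 - 0 ^ 2 = s0 ^ 2 by ring] at h
  linarith only [h]

theorem polyI1 {a : ℝ} (h0 : 0 ≤ a) (h1 : a ≤ 12 / 100) :
    475 / 1000 * a * (16 / 100 + (6 / 100 + 15 / 100 * a)) + (6 / 100 + 15 / 100 * a) ^ 2 / 4 ≤
      (314 / 100 * (175 / 10000 + 1375 / 100000 * a + 15 / 100 * a ^ 2) -
      11112 / 10000 * (6 / 100 + 15 / 100 * a) ^ 2) * (2 / 10 + a) := by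
  nlinarith only [h1, h0, mul_nonneg h0 h0, mul_nonneg (mul_nonneg h0 h0) h0]

theorem polyI2 {a : ℝ} (h0 : 12 / 100 ≤ a) :
    57 / 1000 * (16 / 100 + (6 / 100 + 15 / 100 * a)) + (6 / 100 + 15 / 100 * a) ^ 2 / 4 ≤
      (314 / 100 * (175 / 10000 + 1375 / 100000 * a + 15 / 100 * a ^ 2) -
      11112 / 10000 * (6 / 100 + 15 / 100 * a) ^ 2) * (2 / 10 + a) := by
  have h : 0 ≤ a := by linarith only [h0]
  nlinarith only [h0, h, mul_nonneg h h, mul_nonneg (mul_nonneg h h) h]

theorem flR {a t x T d k : ℝ} (hx0 : 775 / 1000 ≤ x) (hx : x < 8 / 10) (hT0 : -(123 / 1000) ≤ T)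
    (hT : T ≤ 0) (hTa : 0 ≤ T + 6 / 100 + 15 / 100 * a) (ha0 : 0 ≤ a) (ha : a ≤ 65 / 100)
    (ht : t ≤ 57 / 1000 * G2.tr 0 (65 / 100) (12 / 100) (15 / 100) a) (hd0 : 0 ≤ d)
    (hd : d ≤ 65 / 100) :
    V3 ⟨a, t⟩ ⟨x, 16 / 100 * G2.tr 0 (8 / 10) (5 / 100) (5 / 100) x⟩ ⟨d, k⟩ -
      V3 ⟨a, t⟩ ⟨x, T * G2.tr 0 (8 / 10) (5 / 100) (5 / 100) x⟩ ⟨d, k⟩ <
      2 * Real.pi * (16 / 100 * G2.tr 0 (8 / 10) (5 / 100) (5 / 100) x) := by
  have hp := Real.pi_gt_d4
  have hp2 := Real.pi_lt_d4
  have hp0 := Real.pi_pos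
  obtain ⟨u0, u1, u2, -⟩ := tr_bd (XM := 65 / 100) (cl := 12 / 100) (cr := 15 / 100) (x := a)
    (by norm_num) (by norm_num) ha0 ha
  set u : ℝ := G2.tr 0 (65 / 100) (12 / 100) (15 / 100) a with hu
  rw [tr_right (by linarith only [hx0, hp, hp2]) hx.le, V3_diff]
  obtain ⟨τ, hτ⟩ : ∃ τ : ℝ, τ = 20 * (8 / 10 - x) := ⟨_, rfl⟩
  have hxt : x = 8 / 10 - τ / 20 := by rw [hτ]; ring
  rw [← hτ]
  have t0 : 0 < τ := by rw [hτ]; linarith only [hx]
  have t1 : τ ≤ 1 / 2 := by rw [hτ]; linarith only [hx0]
  set s1 : ℝ := 16 / 100 * τ with hs1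
  set s0 : ℝ := T * τ with hs0
  have h10 : 0 ≤ s1 := by rw [hs1]; positivity
  have h00 : s0 ≤ 0 := by rw [hs0]; nlinarith only [hτ, hx0, hx, hT, hT0]
  have hL : s1 - s0 = (16 / 100 - T) * τ := by rw [hs1, hs0]; ring
  have hA := hugeA (X := x + d) (y := s0 + k) (y' := s1 + k) (by linarith only [hx0, hd0, hp, hp2]) (by linarith only [hx, hd, hp, hp2])
    (by linarith only [hx, hτ, hs1, h00])
  rw [show s1 + k - (s0 + k) = s1 - s0 by ring] at hA
  have hC := ownR (x := x) (by linarith only [hx0, hp, hp2]) (by linarith only [hx, hp, hp2]) h00 h10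
  have hC2 : s0 ^ 2 / (2 * (1 - x)) ≤ 11112 / 10000 * (T ^ 2 * τ) := by
    rw [div_le_iff₀ (by linarith only [hx, hp, hp2])]
    have e : s0 ^ 2 = T ^ 2 * τ * τ := by rw [hs0]; ring
    have e2 : 11112 / 10000 * (T ^ 2 * τ) * (2 * (1 - x)) =
        T ^ 2 * τ * (11112 / 10000 * (2 * (1 - x))) := by ring
    rw [e, e2]
    apply mul_le_mul_of_nonneg_left _ (by positivity)
    rw [hxt]
    linarith only [hx0, hp, hp2, hτ]
  rcases le_total a (x - 1 / 2) with hc | hc
  · -- the difference is on the right of `1/2`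
    have hB := rsq (X := x - a) (y := s0 - t) (y' := s1 - t) (by linarith only [hc]) (by linarith only [hx, ha0, hp, hp2])
      (by linarith only [hx, hτ, hs1, h00])
    have hq := sq_neg (t := t) h00 h10
    set v : ℝ := 6 / 100 + 15 / 100 * a with hv
    set Q : ℝ := 314 / 100 * (175 / 10000 + 1375 / 100000 * a + 15 / 100 * a ^ 2) -
      11112 / 10000 * v ^ 2 with hQ
    have hT2 : T ^ 2 ≤ v ^ 2 := by
      apply sq_le_sq'
      · rw [hv]; linarith only [hTa]
      · rw [hv]; linarith only [hT, hTa]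
    have hm0 : 0 ≤ max t 0 := le_max_right _ _
    have hm1 : max t 0 ≤ 57 / 1000 := max_le (by linarith only [ht, u1]) (by norm_num)
    have hm2 : max t 0 ≤ 475 / 1000 * a := max_le (by linarith only [ht, u2]) (by linarith only [ha0])
    have hm3 : max t 0 * (16 / 100 - T) ≤ max t 0 * (16 / 100 + v) := by
      apply mul_le_mul_of_nonneg_left _ hm0
      rw [hv]; linarith only [hTa]
    have hpoly : max t 0 * (16 / 100 + v) + v ^ 2 / 4 ≤ Q * (2 / 10 + a) := by
      rcases le_total a (12 / 100) with h | h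
      · have h1 : max t 0 * (16 / 100 + v) ≤ 475 / 1000 * a * (16 / 100 + v) := by
          apply mul_le_mul_of_nonneg_right hm2
          rw [hv]; linarith only [hT, hTa, hp, hp2]
        have h2 := polyI1 ha0 h
        rw [← hv, ← hQ] at h2
        linarith only [h1, h2]
      · have h1 : max t 0 * (16 / 100 + v) ≤ 57 / 1000 * (16 / 100 + v) := by
          apply mul_le_mul_of_nonneg_right hm1
          rw [hv]; linarith only [hT, hTa, hp, hp2]
        have h2 := polyI2 h
        rw [← hv, ← hQ] at h2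
        linarith only [h1, h2]
    have hB2 : (min (s0 - t) 0 ^ 2 - min (s1 - t) 0 ^ 2) / (2 * (1 - (x - a))) ≤ Q * τ := by
      rw [div_le_iff₀ (by linarith only [hx, ha0, hp, hp2])]
      have hQ0 : 0 ≤ Q := by
        have h1 : 0 ≤ Q * (2 / 10 + a) := le_trans (by positivity) hpoly
        by_contra h2
        push Not at h2
        have : Q * (2 / 10 + a) < 0 := mul_neg_of_neg_of_pos h2 (by linarith only [ha0, hp, hp2])
        linarith only [h1, this]
      have e : 2 * (max t 0 * (s1 - s0)) + s0 ^ 2 =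
          (2 * (max t 0 * (16 / 100 - T)) + T ^ 2 * τ) * τ := by
        rw [hL, hs0]; ring
      have e2 : Q * τ * (2 * (1 - (x - a))) = (2 * Q * (2 / 10 + a) + Q * τ / 10) * τ := by
        rw [hxt]; ring
      rw [e2]
      refine hq.trans ?_
      rw [e]
      apply mul_le_mul_of_nonneg_right _ t0.le
      have h3 : T ^ 2 * τ ≤ v ^ 2 * (1 / 2) := by gcongr
      have h4 : 0 ≤ Q * τ := by positivity
      linarith only [hm3, hpoly, h3, h4]
    have hpp : Real.pi * (1 / 2 - a - x + d + 1) * (s1 - s0) ≤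
        Real.pi * (1375 / 1000 - a) * ((16 / 100 + v) * τ) := by
      rw [hL]
      have h1 : (16 / 100 - T) * τ ≤ (16 / 100 + v) * τ := by
        apply mul_le_mul_of_nonneg_right _ t0.le
        rw [hv]; linarith only [hTa]
      have h2 : 0 ≤ (16 / 100 - T) * τ := by
        apply mul_nonneg _ t0.le; linarith only [hT, hp, hp2]
      have h3 : Real.pi * (1 / 2 - a - x + d + 1) ≤ Real.pi * (1375 / 1000 - a) :=
        mul_le_mul_of_nonneg_left (by linarith only [hx0, hd]) hp0.le
      have h4 : 0 ≤ Real.pi * (1375 / 1000 - a) := mul_nonneg hp0.le (by linarith only [hx, hp, hp2, hc])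
      exact mul_le_mul h3 h1 h2 h4
    have hCC : 11112 / 10000 * (T ^ 2 * τ) ≤ 11112 / 10000 * (v ^ 2 * τ) := by gcongr
    have hfin : 314 / 100 * (175 / 10000 + 1375 / 100000 * a + 15 / 100 * a ^ 2) * τ <
        Real.pi * (175 / 10000 + 1375 / 100000 * a + 15 / 100 * a ^ 2) * τ := by
      apply mul_lt_mul_of_pos_right _ t0
      apply mul_lt_mul_of_pos_right _ (by positivity)
      linarith only [hp, hp2]
    have e3 : Real.pi * (1375 / 1000 - a) * ((16 / 100 + v) * τ) =
        32 / 100 * Real.pi * τ -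
          Real.pi * (175 / 10000 + 1375 / 100000 * a + 15 / 100 * a ^ 2) * τ := by
      rw [hv]; ring
    have e4 : Q * τ = 314 / 100 * (175 / 10000 + 1375 / 100000 * a + 15 / 100 * a ^ 2) * τ -
        11112 / 10000 * (v ^ 2 * τ) := by rw [hQ]; ring
    rw [e3] at hpp
    rw [e4] at hB2
    have e5 : 2 * Real.pi * s1 = 32 / 100 * Real.pi * τ := by rw [hs1]; ring
    rw [e5]
    linarith only [hA, hC, hC2, hB, hB2, hpp, hCC, hfin]
  · -- the difference is on the left of `1/2`
    have hB := llo (X := x - a) (y := s0 - t) (y' := s1 - t) (by linarith only [hx0, ha, hp, hp2]) (by linarith only [hc])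
      (by linarith only [hx, hτ, hs1, h00])
    have b1 : Real.pi * (1 / 2 - (x - a)) * Pp (s0 - t) (s1 - t) ≤
        Real.pi * (1 / 2 - (x - a)) * (s1 - s0) := by
      have := Pp_le (y := s0 - t) (y' := s1 - t) (by linarith only [hx, hτ, hs1, h00])
      apply mul_le_mul_of_nonneg_left (by linarith only [this])
      exact mul_nonneg hp0.le (by linarith only [hc])
    have hpp : Real.pi * (2 - 2 * x + d) * (s1 - s0) ≤
        Real.pi * (11 / 10) * (283 / 1000 * τ) := by
      rw [hL]
      have h1 : (16 / 100 - T) * τ ≤ 283 / 1000 * τ := by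
        apply mul_le_mul_of_nonneg_right _ t0.le
        linarith only [hT0]
      have h2 : 0 ≤ (16 / 100 - T) * τ := by
        apply mul_nonneg _ t0.le; linarith only [hT, hp, hp2]
      have h3 : Real.pi * (2 - 2 * x + d) ≤ Real.pi * (11 / 10) :=
        mul_le_mul_of_nonneg_left (by linarith only [hx0, hd]) hp0.le
      exact mul_le_mul h3 h1 h2 (by positivity)
    have hCC : 11112 / 10000 * (T ^ 2 * τ) ≤ 11112 / 10000 * (1513 / 100000 * τ) := by
      have : T ^ 2 ≤ 1513 / 100000 := by nlinarith only [hT0, hx0, hx, hT]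
      gcongr
    have e5 : 2 * Real.pi * s1 = 32 / 100 * (Real.pi * τ) := by rw [hs1]; ring
    have h6 : 31415 / 10000 * τ ≤ Real.pi * τ := by
      gcongr
      linarith only [hp]
    rw [e5]
    linarith only [hx, hτ, hA, hC, hC2, hB, b1, hpp, hCC, h6]

/-! ### the drop between the heights `0` and `16/100` -/

open NumUs.E in
/-- rows -/
def rH1 : NumUs.E := add (sub (uu (var 0) (q 0 1)) (uu (var 0) (q 16 100)))
  (mul pi (sub (mul (q 165 1000) (var 0)) (q 4 100)))

open NumUs.E in
def rH2 : NumUs.E := add (sub (uu (var 0) (q 0 1)) (uu (var 0) (q 16 100)))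
  (mul pi (sub (mul (q 33 100) (var 0)) (q 5 100)))

open NumUs.E in
def rP1 : NumUs.E := sub (sub (uu (q 5 100) (q 0 1)) (uu (q 5 100) (q 16 100))) (mul pi (q 4 100))

open NumUs.E in
def rP2 : NumUs.E := sub (sub (uu (q 3 100) (q 0 1)) (uu (q 3 100) (q 16 100))) (mul pi (q 5 100))

theorem chH1 : NumUs.chk [rH1] 14 [NumIs.V.of 1000 50 250] = true := by decide +kernel
theorem chH2 : NumUs.chk [rH2] 14 [NumIs.V.of 1000 30 160] = true := by decide +kernel
theorem chP1 : NumUs.chk [rP1] 3 [NumIs.V.of 1000 50 50] = true := by decide +kernel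
theorem chP2 : NumUs.chk [rP2] 3 [NumIs.V.of 1000 50 50] = true := by decide +kernel

theorem rowH1 {e : ℝ} (h0 : 5 / 100 ≤ e) (h1 : e ≤ 25 / 100) :
    Real.pi * (4 / 100) ≤ Real.pi * (165 / 1000) * e + (uu e 0 - uu e (16 / 100)) := by
  have := NumUs.pos_of_chk (NumUs.chk1 chH1 (by norm_num) (x := e) (by norm_num; linarith only [h0])
    (by norm_num; linarith only [h1]))
  unfold rH1 at this
  simp only [NumUs.E.val, NumIs.lkR] at this
  norm_num at this
  linarith only [this]

theorem rowH2 {e : ℝ} (h0 : 3 / 100 ≤ e) (h1 : e ≤ 16 / 100) :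
    Real.pi * (5 / 100) ≤ Real.pi * (33 / 100) * e + (uu e 0 - uu e (16 / 100)) := by
  have := NumUs.pos_of_chk (NumUs.chk1 chH2 (by norm_num) (x := e) (by norm_num; linarith only [h0])
    (by norm_num; linarith only [h1]))
  unfold rH2 at this
  simp only [NumUs.E.val, NumIs.lkR] at this
  norm_num at this
  linarith only [this]

theorem rowP1 : Real.pi * (4 / 100) ≤ uu (5 / 100) 0 - uu (5 / 100) (16 / 100) := by
  have := NumUs.pos_of_chk (NumUs.chk1 chP1 (by norm_num) (x := 5 / 100) (by norm_num)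
    (by norm_num))
  unfold rP1 at this
  simp only [NumUs.E.val] at this
  norm_num at this
  norm_num
  linarith only [this]

theorem rowP2 : Real.pi * (5 / 100) ≤ uu (3 / 100) 0 - uu (3 / 100) (16 / 100) := by
  have := NumUs.pos_of_chk (NumUs.chk1 chP2 (by norm_num) (x := 5 / 100) (by norm_num)
    (by norm_num))
  unfold rP2 at this
  simp only [NumUs.E.val] at this
  norm_num at this
  norm_num
  linarith only [this]

theorem H_anti {e e1 S : ℝ} (h0 : 0 < e) (h : e ≤ e1) (h1 : e1 < 1) :
    uu e1 0 - uu e1 S ≤ uu e 0 - uu e S := by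
  have hd : ∀ s : ℝ, 0 < s → s < 1 → HasDerivAt (fun s => uu s 0 - uu s S)
      (NumIs.lnA s 0 - NumIs.lnA s S) s := fun s a b =>
    (NumXs.hasDerivAt_uu a b).sub (NumXs.hasDerivAt_uu a b)
  have hm : AntitoneOn (fun s => uu s 0 - uu s S) (Set.Icc e e1) := by
    apply antitoneOn_of_deriv_nonpos (convex_Icc e e1)
    · exact fun t ht => (hd t (by linarith only [h0, ht, ht.1]) (by linarith only [h1, ht, ht.2])).continuousAt.continuousWithinAt
    · intro t ht
      rw [interior_Icc] at ht
      exact (hd t (by linarith only [h0, ht, ht.1]) (by linarith only [h1, ht, ht.2])).differentiableAt.differentiableWithinAt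
    · intro t ht
      rw [interior_Icc] at ht
      rw [(hd t (by linarith only [h0, ht, ht.1]) (by linarith only [h1, ht, ht.2])).deriv]
      have hs : 0 < Real.sin (Real.pi * t) := by
        apply Real.sin_pos_of_pos_of_lt_pi
        · have : 0 < t := by linarith only [h0, ht, ht.1]
          positivity
        · have : t < 1 := by linarith only [h1, ht, ht.2]
          nlinarith only [this, Real.pi_pos]
      unfold NumIs.lnA
      have : Real.log (4 * (Real.sin (Real.pi * t) ^ 2 + Real.sinh (Real.pi * 0) ^ 2)) ≤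
          Real.log (4 * (Real.sin (Real.pi * t) ^ 2 + Real.sinh (Real.pi * S) ^ 2)) := by
        apply Real.log_le_log
        · positivity
        · rw [mul_zero, Real.sinh_zero]
          nlinarith only [sq_nonneg (Real.sinh (Real.pi * S))]
      linarith only [this]
  exact hm ⟨le_rfl, h⟩ ⟨h, le_rfl⟩ h

theorem H_nn {e : ℝ} (h0 : 0 ≤ e) (h1 : e ≤ 1 / 2) : 0 ≤ uu e 0 - uu e (16 / 100) := by
  have := dec h0 h1 (le_refl (0 : ℝ)) (show (0 : ℝ) ≤ 16 / 100 by norm_num)
  linarith only [this]

theorem H_zero : uu 0 0 - uu 0 (16 / 100) = Real.pi * (8 / 100) := by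
  rw [NumXs.uu_zero_left, NumXs.uu_zero_left, abs_zero, abs_of_pos (by norm_num)]
  ring

theorem Hlo1 {e : ℝ} (h0 : 0 ≤ e) (h1 : e ≤ 1 / 2) :
    Real.pi * (4 / 100) ≤ Real.pi * (165 / 1000) * e + (uu e 0 - uu e (16 / 100)) := by
  have hp := Real.pi_pos
  rcases h0.eq_or_lt with h2 | h2
  · rw [← h2, H_zero]; linarith only [hp]
  rcases le_total e (5 / 100) with h | h
  · have h3 := H_anti (S := 16 / 100) h2 h (by norm_num)
    have h4 := rowP1
    have h5 : 0 ≤ Real.pi * (165 / 1000) * e := by positivity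
    linarith only [h3, h4, h5]
  rcases le_total e (25 / 100) with h3 | h3
  · exact rowH1 h h3
  · have h4 := H_nn h0 h1
    have h5 : Real.pi * (165 / 1000) * (25 / 100) ≤ Real.pi * (165 / 1000) * e := by gcongr
    linarith only [hp, h4, h5]

theorem Hlo2 {e : ℝ} (h0 : 0 ≤ e) (h1 : e ≤ 1 / 2) :
    Real.pi * (5 / 100) ≤ Real.pi * (33 / 100) * e + (uu e 0 - uu e (16 / 100)) := by
  have hp := Real.pi_pos
  rcases h0.eq_or_lt with h2 | h2
  · rw [← h2, H_zero]; linarith only [hp]
  rcases le_total e (3 / 100) with h | h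
  · have h3 := H_anti (S := 16 / 100) h2 h (by norm_num)
    have h4 := rowP2
    have h5 : 0 ≤ Real.pi * (33 / 100) * e := by positivity
    linarith only [h3, h4, h5]
  rcases le_total e (16 / 100) with h3 | h3
  · exact rowH2 h h3
  · have h4 := H_nn h0 h1
    have h5 : Real.pi * (33 / 100) * (16 / 100) ≤ Real.pi * (33 / 100) * e := by gcongr
    linarith only [hp, h4, h5]

theorem conc0 {X a L : ℝ} (h0 : 0 ≤ X) (h1 : X ≤ 1 / 2) (ha : 0 ≤ a) (hL : 0 ≤ L) :
    uu X (a + L) - uu X a ≤ uu X L - uu X 0 := by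
  rcases h0.eq_or_lt with h | h
  · rw [← h, NumXs.uu_zero_left, NumXs.uu_zero_left, NumXs.uu_zero_left, NumXs.uu_zero_left,
      abs_of_nonneg (by linarith only [ha, hL]), abs_of_nonneg ha, abs_of_nonneg hL, abs_zero]
    linarith only []
  · exact conc h h1 ha hL

/-- the sharp form of the kink -/
theorem sharp {e y L : ℝ} (h0 : 0 ≤ e) (h1 : e ≤ 1 / 2) (hL : 0 ≤ L) :
    (uu e y + Real.pi * |y|) - (uu e (y + L) + Real.pi * |y + L|) ≤
      Real.pi * L + uu e L - uu e 0 := by
  have hp := Real.pi_pos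
  have ab : ∀ z : ℝ, uu e z = uu e |z| := by
    intro z
    rcases abs_choice z with h | h <;> rw [h]
    rw [uu_neg]
  have mono : ∀ {z z' : ℝ}, 0 ≤ z → z ≤ z' → uu e z + Real.pi * z ≤ uu e z' + Real.pi * z' := by
    intro z z' hz hzz
    have h2 := dec_ge h0 h1 hz hzz
    have h3 : Real.pi * (1 / 2 - e) * (z' - z) ≤ Real.pi * 1 * (z' - z) := by
      gcongr
      linarith only [h0]
    linarith only [h2, h3]
  rw [ab y, ab (y + L)]
  have ht : |y| ≤ |y + L| + L := by
    have := abs_sub (y + L) L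
    rw [add_sub_cancel_right, abs_of_nonneg hL] at this
    exact this
  rcases le_total |y| L with h | h
  · have h2 := mono (abs_nonneg y) h
    have h3 := mono (le_refl (0 : ℝ)) (abs_nonneg (y + L))
    linarith only [h2, h3]
  · have h2 := mono (z := |y| - L) (z' := |y + L|) (by linarith only [h]) (by linarith only [ht])
    have h3 := conc0 (a := |y| - L) h0 h1 (by linarith only [h]) hL
    rw [sub_add_cancel] at h3
    linarith only [h2, h3]

/-- the kink, the other direction -/
theorem kink' {r y y' c : ℝ} (h0 : -1 ≤ r) (h1 : r ≤ 0) (c10 : 0 ≤ c) (c11 : -(1 / 2) - r ≤ c)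
    (h : y ≤ y') : uu r y' - uu r y ≤ Real.pi * (1 + c) * (y' - y) := by
  have hp := Real.pi_pos
  have h2 := kink (r := r) (y := -y') (y' := -y) (c2 := 1) h0 h1 c10 c11 (by norm_num)
    (by linarith only [h1]) (neg_le_neg h)
  rw [uu_neg, uu_neg, sub_self, mul_zero, zero_mul, add_zero] at h2
  have h3 := Pp_le (y := -y') (y' := -y) (neg_le_neg h)
  have h4 : Real.pi * (1 + c) * Pp (-y') (-y) ≤ Real.pi * (1 + c) * (-y - -y') := by gcongr
  linarith only [h2, h4]

/-- the kink, the sharp form -/
theorem kinkS {r y L : ℝ} (h0 : -(1 / 2) ≤ r) (h1 : r ≤ 0) (hL : 16 / 100 ≤ L) :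
    uu r (y + L) - uu r y ≤ Real.pi * L - (uu (-r) 0 - uu (-r) (16 / 100)) := by
  have e : ∀ z, uu r z = -(uu (-r) z + Real.pi * |z|) := by
    intro z
    have := NumXs.uu_neg_left r z
    linarith only [this]
  have h2 := sharp (e := -r) (y := y) (L := L) (by linarith only [h1]) (by linarith only [h0]) (by linarith only [hL])
  have h3 := dec (X := -r) (by linarith only [h1]) (by linarith only [h0]) (show (0 : ℝ) ≤ 16 / 100 by norm_num) hL
  rw [e (y + L), e y]
  linarith only [h2, h3]

/-- beyond `1`, the sharp form -/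
theorem beyondS {e y L : ℝ} (h0 : 0 ≤ e) (h1 : e ≤ 1 / 2) (hL : 16 / 100 ≤ L) :
    -(uu (e + 1) (y + L) - uu (e + 1) y) ≤ Real.pi * L - (uu e 0 - uu e (16 / 100)) := by
  have h2 := sharp (e := e) (y := y) (L := L) h0 h1 (by linarith only [hL])
  have h3 := dec h0 h1 (show (0 : ℝ) ≤ 16 / 100 by norm_num) hL
  rw [uu_add_one, uu_add_one]
  linarith only [h2, h3]

theorem beyond {e y L : ℝ} (h0 : 0 ≤ e) (h1 : e ≤ 1 / 2) (hL : 0 ≤ L) :
    -(uu (e + 1) (y + L) - uu (e + 1) y) ≤ Real.pi * L := by
  have h2 := sharp (e := e) (y := y) (L := L) h0 h1 hL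
  have h3 := dec h0 h1 le_rfl hL
  rw [uu_add_one, uu_add_one]
  linarith only [h2, h3]

/-- polynomial inequality at the right end -/
theorem polyR {w τ : ℝ} (hw : 0 ≤ w) (h0 : 0 ≤ τ) (h1 : τ ≤ 1) :
    38 / 100 * w * (165 / 1000) + 128 / 10000 * τ <
      314 / 100 * (2975 / 100000 + 165 / 1000 * w + 165 / 10000 * τ) * (15 / 100 - τ / 20 + w) := by
  have h2 := mul_nonneg hw h0
  have h3 := mul_nonneg hw hw
  have h4 := mul_nonneg h0 h0
  have h5 := mul_nonneg h0 (sub_nonneg.2 h1)
  nlinarith only [hw, h1, h2, h5]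

/-- data of the flip downwards -/
theorem fdn_core {a t x T d k τ : ℝ} (hx0 : 0 < x) (hx : x < 8 / 10) (hT0 : 0 ≤ T)
    (hT : T ≤ 5 / 1000) (ha0 : 0 ≤ a) (ha : a ≤ 65 / 100) (ht : t ≤ 38 / 100 * (65 / 100 - a))
    (hd0 : 0 ≤ d) (hd : d ≤ 6 / 10) (hk : k ≤ 44 / 100 * d) (t0 : 0 < τ) (t1 : τ ≤ 1)
    (t2 : τ ≤ 20 * x) (t3 : 1 / 20 ≤ x → x ≤ 3 / 4 → τ = 1)
    (t4 : 3 / 4 ≤ x → τ = 20 * (8 / 10 - x)) :
    V3 ⟨a, t⟩ ⟨x, -(16 / 100 * τ)⟩ ⟨d, k⟩ - V3 ⟨a, t⟩ ⟨x, T * τ⟩ ⟨d, k⟩ <
      2 * Real.pi * (16 / 100 * τ) := by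
  have hp := Real.pi_gt_d4
  have hp2 := Real.pi_lt_d4
  have hp0 := Real.pi_pos
  have hD := V3_diff a t x d k (-(16 / 100 * τ)) (T * τ)
  set s0 : ℝ := -(16 / 100 * τ) with hs0
  set s1 : ℝ := T * τ with hs1
  set P : ℝ := Real.pi * τ with hP
  have hPp : 0 < P := by positivity
  have h10 : 0 ≤ s1 := by rw [hs1]; positivity
  have h00 : s0 ≤ 0 := by rw [hs0]; linarith only [t0]
  obtain ⟨L, hL⟩ : ∃ L : ℝ, L = s1 - s0 := ⟨_, rfl⟩
  have hL0 : 0 ≤ L := by rw [hL]; linarith only [t0, hs0, h10]
  have hTt : T * τ ≤ 5 / 1000 * τ := by gcongr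
  have hL1 : L ≤ 165 / 1000 * τ := by rw [hL, hs1, hs0]; linarith only [hTt]
  have hL2 : 16 / 100 * τ ≤ L := by rw [hL, hs1, hs0]; linarith only [h10]
  have hPL : Real.pi * L ≤ 165 / 1000 * P := by
    rw [hP]
    have := mul_le_mul_of_nonneg_left hL1 hp0.le
    linarith only [this]
  have hPL0 : 0 ≤ Real.pi * L := by positivity
  -- coefficient times `π L`
  have co : ∀ {c : ℝ} (C : ℝ), c ≤ C → 0 ≤ C → Real.pi * c * L ≤ 165 / 1000 * C * P := by
    intro c C h1 h2
    calc Real.pi * c * L = c * (Real.pi * L) := by ring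
      _ ≤ C * (Real.pi * L) := mul_le_mul_of_nonneg_right h1 hPL0
      _ ≤ C * (165 / 1000 * P) := mul_le_mul_of_nonneg_left hPL h2
      _ = _ := by ring
  have eA : s1 + k = s0 + k + L := by rw [hL]; ring
  have eB : s1 - t = s0 - t + L := by rw [hL]; ring
  rw [eA, eB] at hD
  rw [show s1 - s0 = L by rw [hL]] at hD
  -- the own hinge
  have hC1 : x ≤ 1 / 2 → uu x s1 - uu x s0 ≤ 16 / 100 * (1 / 2 - x) * P := by
    intro h
    have h2 := lup (X := x) (y := s0) (y' := s1) hx0.le h (h00.trans h10)
    have h3 : Nn s0 s1 = 16 / 100 * τ := by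
      unfold Nn
      rw [min_eq_right h10, min_eq_left h00, hs0]; ring
    rw [h3] at h2
    have e : Real.pi * (1 / 2 - x) * (16 / 100 * τ) = 16 / 100 * (1 / 2 - x) * P := by
      rw [hP]; ring
    linarith only [h2]
  have hC2 : 1 / 2 ≤ x → uu x s1 - uu x s0 ≤ 15 / 10000 * P := by
    intro h
    have h2 := rup (X := x) (y := s0) (y' := s1) h (by linarith only [hx, hp, hp2]) (h00.trans h10)
    have h3 : Pp s0 s1 = T * τ := by
      unfold Pp
      rw [max_eq_left h10, max_eq_right h00, hs1]; ring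
    rw [h3] at h2
    have h4 : Real.pi * (x - 1 / 2) * (T * τ) ≤ Real.pi * (3 / 10) * (5 / 1000 * τ) := by
      apply mul_le_mul _ hTt (by positivity) (by positivity)
      gcongr; linarith only [hx]
    have e : Real.pi * (3 / 10) * (5 / 1000 * τ) = 15 / 10000 * P := by rw [hP]; ring
    linarith only [h2, h4]
  -- the difference with the first hinge
  have hB1 : ∀ c : ℝ, x ≤ a → 0 ≤ c → a - x - 1 / 2 ≤ c →
      uu (x - a) (s0 - t + L) - uu (x - a) (s0 - t) ≤ Real.pi * (1 + c) * L := by
    intro c h1 h2 h3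
    have := kink' (r := x - a) (y := s0 - t) (y' := s0 - t + L) (c := c) (by linarith only [hx0, ha, hp, hp2])
      (by linarith only [h1]) h2 (by linarith only [h3]) (by linarith only [t0, hs0, h10, hL])
    rwa [show s0 - t + L - (s0 - t) = L by ring] at this
  have hB2 : a ≤ x → x - a ≤ 1 / 2 →
      uu (x - a) (s0 - t + L) - uu (x - a) (s0 - t) ≤ Real.pi * (1 / 2 - (x - a)) * L := by
    intro h1 h2
    have h3 := lup (X := x - a) (y := s0 - t) (y' := s0 - t + L) (by linarith only [h1]) h2 (by linarith only [t0, hs0, h10, hL])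
    have h4 := Nn_le (y := s0 - t) (y' := s0 - t + L) (by linarith only [t0, hs0, h10, hL])
    have h5 : Real.pi * (1 / 2 - (x - a)) * Nn (s0 - t) (s0 - t + L) ≤
        Real.pi * (1 / 2 - (x - a)) * L :=
      mul_le_mul_of_nonneg_left (by linarith only [h4]) (mul_nonneg hp0.le (by linarith only [h2]))
    linarith only [h3, h5]
  have hB3 : 1 / 2 ≤ x - a →
      uu (x - a) (s0 - t + L) - uu (x - a) (s0 - t) ≤ Real.pi * (x - a - 1 / 2) * L := by
    intro h2
    have h3 := rup (X := x - a) (y := s0 - t) (y' := s0 - t + L) h2 (by linarith only [hx, ha0, hp, hp2]) (by linarith only [t0, hs0, h10, hL])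
    have h4 := Pp_le (y := s0 - t) (y' := s0 - t + L) (by linarith only [t0, hs0, h10, hL])
    have h5 : Real.pi * (x - a - 1 / 2) * Pp (s0 - t) (s0 - t + L) ≤
        Real.pi * (x - a - 1 / 2) * L :=
      mul_le_mul_of_nonneg_left (by linarith only [h4]) (mul_nonneg hp0.le (by linarith only [h2]))
    linarith only [h3, h5]
  have e5 : 2 * Real.pi * (16 / 100 * τ) = 32 / 100 * P := by rw [hP]; ring
  rw [e5]
  rcases le_total (x + d) (1 / 2) with hX | hX
  · -- the sum is on the left of `1/2`
    have hA : -(44 / 100 * (s0 + k + L - (s0 + k))) ≤ uu (x + d) (s0 + k + L) - uu (x + d) (s0 + k) :=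
      lc' (by norm_num) (by linarith only [hx0, hd0]) hX (by linarith only [t0, hs0, h10, hL]) (by rw [← eA, hs1]; linarith only [hx0, hk, t2, hTt])
    have hC := hC1 (by linarith only [hd0, hX])
    have h6 : 31415 / 10000 * τ ≤ P := by
      rw [hP]
      gcongr
      linarith only [hp]
    rcases le_total x a with hxa | hxa
    · rcases le_total (a - x) (1 / 2) with h | h
      · have hB := hB1 0 hxa le_rfl (by linarith only [h])
        have := co (c := a + x - d - 1 / 2 + (1 + 0)) (a + x + 1 / 2) (by linarith only [hd0]) (by linarith only [hx0, hp, hp2, hxa])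
        have h7 : a * P ≤ 65 / 100 * P := by gcongr
        have h8 : x * P ≤ 1 / 2 * P := by
          gcongr; linarith only [hd0, hX]
        linarith only [t0, hs0, hD, hL, hTt, hA, hC, h6, hB, this, h7, h8]
      · have hB := hB1 (a - x - 1 / 2) hxa (by linarith only [h]) le_rfl
        have := co (c := a + x - d - 1 / 2 + (1 + (a - x - 1 / 2))) (13 / 10) (by linarith only [ha, hd0])
          (by norm_num)
        have h8 : 0 ≤ x * P := by positivity
        linarith only [t0, hs0, hD, hL, hTt, hA, hC, h6, hB, this, h8]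
    · have hB := hB2 hxa (by linarith only [ha0, hd0, hX])
      have := co (c := a + x - d - 1 / 2 + (1 / 2 - (x - a))) 1 (by linarith only [hd0, hX, hxa]) (by norm_num)
      have h8 : 0 ≤ x * P := by positivity
      linarith only [t0, hs0, hD, hL, hTt, hA, hC, h6, hB, this, h8]
  rcases le_total (x + d) 1 with hX1 | hX1
  · -- the sum is between `1/2` and `1`
    have hA : -(Real.pi * (x + d - 1 / 2) * L) ≤ uu (x + d) (s0 + k + L) - uu (x + d) (s0 + k) := by
      have h1 := rlo (X := x + d) (y := s0 + k) (y' := s0 + k + L) hX hX1 (by linarith only [t0, hs0, h10, hL])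
      have h2 := Nn_le (y := s0 + k) (y' := s0 + k + L) (by linarith only [t0, hs0, h10, hL])
      have h5 : Real.pi * (x + d - 1 / 2) * Nn (s0 + k) (s0 + k + L) ≤
          Real.pi * (x + d - 1 / 2) * L :=
        mul_le_mul_of_nonneg_left (by linarith only [h2]) (mul_nonneg hp0.le (by linarith only [hX]))
      linarith only [h1, h5]
    rcases le_total x (1 / 2) with hxh | hxh
    · have hC := hC1 hxh
      have h8 : x * P ≤ 1 / 2 * P := by gcongr
      have h9 : 0 ≤ x * P := by positivity
      have h7 : a * P ≤ 65 / 100 * P := by gcongr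
      rcases le_total x a with hxa | hxa
      · rcases le_total (a - x) (1 / 2) with h | h
        · have hB := hB1 0 hxa le_rfl (by linarith only [h])
          have := co (c := a + x - d - 1 / 2 + (x + d - 1 / 2) + (1 + 0)) (a + 2 * x)
            (by linarith only []) (by linarith only [hx0, hxa])
          linarith only [hPp, hD, hA, hC, h8, h7, hB, this]
        · have hB := hB1 (a - x - 1 / 2) hxa (by linarith only [h]) le_rfl
          have := co (c := a + x - d - 1 / 2 + (x + d - 1 / 2) + (1 + (a - x - 1 / 2))) (95 / 100)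
            (by linarith only [ha, h]) (by norm_num)
          linarith only [hPp, hD, hA, hC, h9, hB, this]
      · have hB := hB2 hxa (by linarith only [ha0, hxh])
        have := co (c := a + x - d - 1 / 2 + (x + d - 1 / 2) + (1 / 2 - (x - a))) 1 (by linarith only [hxh, hxa])
          (by norm_num)
        linarith only [hPp, hD, hA, hC, h9, hB, this]
    · have hC := hC2 hxh
      rcases le_total x a with hxa | hxa
      · have hτ := t3 (by linarith only [hx0, hxh]) (by linarith only [ha, hp, hp2, hxa])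
        have hB := kinkS (r := x - a) (y := s0 - t) (L := L) (by linarith only [ha, hp, hp2, hxh]) (by linarith only [hxa])
          (by rw [hτ] at hL2; linarith only [hL2])
        have hH := Hlo2 (e := -(x - a)) (by linarith only [hxa]) (by linarith only [ha, hp, hp2, hxh])
        have hPe : P = Real.pi := by rw [hP, hτ, mul_one]
        have := co (c := a + x - d - 1 / 2 + (x + d - 1 / 2) + 1) (a + 2 * x)
          (by linarith only []) (by linarith only [hx0, hxa])
        have h7 : Real.pi * a ≤ Real.pi * (65 / 100) := by gcongr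
        rw [hPe] at this hC ⊢
        linarith only [hp, hp2, hD, hA, hC, hB, hH, this, h7]
      · rcases le_total (x - a) (1 / 2) with h | h
        · have hB := hB2 hxa h
          have := co (c := a + x - d - 1 / 2 + (x + d - 1 / 2) + (1 / 2 - (x - a))) (16 / 10)
            (by linarith only [hx, ha]) (by norm_num)
          linarith only [hPp, hD, hA, hC, hB, this]
        · have hB := hB3 h
          have := co (c := a + x - d - 1 / 2 + (x + d - 1 / 2) + (x - a - 1 / 2)) 1
            (by linarith only [hx, hp, hp2]) (by norm_num)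
          linarith only [hPp, hD, hA, hC, hB, this]
  -- the sum is beyond `1`
  obtain ⟨e, he⟩ : ∃ e : ℝ, e = x + d - 1 := ⟨_, rfl⟩
  have he0 : 0 ≤ e := by linarith only [hX1, he]
  have he1 : e ≤ 1 / 2 := by linarith only [hx, hd, hp, hp2, he]
  have exd : x + d = e + 1 := by linarith only [he]
  rw [exd] at hD
  rcases le_total x (3 / 4) with h34 | h34
  · have hτ := t3 (by linarith only [hx0, hd, hX1]) h34
    have hPe : P = Real.pi := by rw [hP, hτ, mul_one]
    have hL3 : 16 / 100 ≤ L := by rw [hτ] at hL2; linarith only [hL2]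
    have hA := beyondS (e := e) (y := s0 + k) (L := L) he0 he1 hL3
    have hH := Hlo1 he0 he1
    have hed : Real.pi * d = Real.pi * e + Real.pi - Real.pi * x := by
      rw [he]; ring
    rcases le_total x (1 / 2) with hxh | hxh
    · have hC := hC1 hxh
      rw [hPe] at hC ⊢
      have h7 : Real.pi * a ≤ Real.pi * (65 / 100) := by gcongr
      have h8 : Real.pi * x ≤ Real.pi * (1 / 2) := by gcongr
      have h9 : Real.pi * (4 / 10) ≤ Real.pi * x := by
        gcongr; linarith only [hd, hX1]
      rcases le_total x a with hxa | hxa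
      · have hB := hB1 0 hxa le_rfl (by linarith only [ha, hd, hp, hp2, hX1])
        have := co (c := a + x - d - 1 / 2 + 1 + (1 + 0)) (a + 2 * x - e + 1 / 2)
          (by linarith only [he]) (by linarith only [hx0, hd, hp, hp2, he, hxa])
        rw [hPe] at this
        linarith only [hp, hp2, hD, hA, hH, hC, h7, h8, hB, this]
      · have hB := hB2 hxa (by linarith only [ha0, hxh])
        have := co (c := a + x - d - 1 / 2 + 1 + (1 / 2 - (x - a))) (2 * a + x - e)
          (by linarith only [he]) (by linarith only [ha0, hd, hp, hp2, he])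
        rw [hPe] at this
        linarith only [hp, hp2, hD, hA, hH, hC, h7, h8, hB, this]
    · have hC := hC2 hxh
      rw [hPe] at hC ⊢
      have h7 : Real.pi * a ≤ Real.pi * (65 / 100) := by gcongr
      rcases le_total x a with hxa | hxa
      · have hB := kinkS (r := x - a) (y := s0 - t) (L := L) (by linarith only [ha, hd, hp, hp2, hX1]) (by linarith only [hxa]) hL3
        have hH2 := Hlo2 (e := -(x - a)) (by linarith only [hxa]) (by linarith only [ha, hd, hp, hp2, hX1])
        have := co (c := a + x - d - 1 / 2 + 1 + 1) (a + 2 * x - e + 1 / 2)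
          (by linarith only [he]) (by linarith only [hd, hp, hp2, hX1, he, hxa])
        rw [hPe] at this
        linarith only [hp, hp2, hD, hA, hH, hC, h7, hB, hH2, this]
      · have h8 : Real.pi * x ≤ Real.pi * (3 / 4) := by gcongr
        rcases le_total (x - a) (1 / 2) with h | h
        · have hB := hB2 hxa h
          have := co (c := a + x - d - 1 / 2 + 1 + (1 / 2 - (x - a))) (2 * a + x - e)
            (by linarith only [he]) (by linarith only [ha0, hd, hp, hp2, he])
          rw [hPe] at this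
          linarith only [hp, hp2, hD, hA, hH, hC, h7, h8, hB, this]
        · have hB := hB3 h
          have := co (c := a + x - d - 1 / 2 + 1 + (x - a - 1 / 2)) (3 * x - 1 - e)
            (by linarith only [he]) (by linarith only [hd, hp, hp2, hX1, he])
          rw [hPe] at this
          linarith only [hp, hp2, hD, hA, hH, hC, h8, hB, this]
  · -- the right ramp
    have hτ := t4 h34
    have hA := beyond (e := e) (y := s0 + k) (L := L) he0 he1 hL0
    have hC := hC2 (by linarith only [t1, hp, hp2, hτ])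
    rcases le_total (x - a) (1 / 2) with h | h
    · have hB := lsq (X := x - a) (y := s0 - t) (y' := s0 - t + L) (by linarith only [ha, t1, hp, hp2, hτ]) h (by linarith only [hx, hs0, h10, hL, hτ])
      rw [← eB] at hB
      have hq := sq_neg (t := t) h00 h10
      have hxa0 : 0 < x - a := by linarith only [ha, t1, hp, hp2, hτ]
      obtain ⟨w, hw⟩ : ∃ w : ℝ, w = 65 / 100 - a := ⟨_, rfl⟩
      have hw0 : 0 ≤ w := by linarith only [ha, hw]
      have hm0 : 0 ≤ max t 0 := le_max_right _ _
      have hm1 : max t 0 ≤ 38 / 100 * w := max_le (by linarith only [ht, hw]) (by linarith only [ha, hw])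
      have hm2 : max t 0 * (s1 - s0) ≤ 38 / 100 * w * (165 / 1000 * τ) := by
        rw [← hL]
        exact mul_le_mul hm1 hL1 hL0 (by positivity)
      have hs2 : s0 ^ 2 = 256 / 10000 * τ * τ := by rw [hs0]; ring
      have hpoly := polyR hw0 t0.le t1
      have hB4 : (min (s0 - t) 0 ^ 2 - min (s1 - t) 0 ^ 2) / (2 * (x - a)) <
          314 / 100 * (2975 / 100000 + 165 / 1000 * w + 165 / 10000 * τ) * τ := by
        rw [div_lt_iff₀ (by linarith only [ha, t1, hp, hp2, hτ])]
        have e1 : x - a = 15 / 100 - τ / 20 + w := by rw [hτ, hw]; ring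
        have e2 : 314 / 100 * (2975 / 100000 + 165 / 1000 * w + 165 / 10000 * τ) * τ *
            (2 * (x - a)) = 2 * (314 / 100 * (2975 / 100000 + 165 / 1000 * w + 165 / 10000 * τ) *
            (15 / 100 - τ / 20 + w)) * τ := by rw [e1]; ring
        rw [e2]
        have h5 : 2 * (38 / 100 * w * (165 / 1000) + 128 / 10000 * τ) * τ <
            2 * (314 / 100 * (2975 / 100000 + 165 / 1000 * w + 165 / 10000 * τ) *
            (15 / 100 - τ / 20 + w)) * τ := by
          apply mul_lt_mul_of_pos_right _ t0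
          linarith only [hpoly]
        rw [hs2] at hq
        have h6 : 2 * (38 / 100 * w * (165 / 1000) + 128 / 10000 * τ) * τ =
          2 * (38 / 100 * w * (165 / 1000 * τ)) + 256 / 10000 * τ * τ := by ring
        linarith only [hq, hm2, h5]
      have h7 : 314 / 100 * (2975 / 100000 + 165 / 1000 * w + 165 / 10000 * τ) * τ ≤
          Real.pi * (2975 / 100000 + 165 / 1000 * w + 165 / 10000 * τ) * τ := by
        gcongr
        linarith only [hp, hp2]
      have h8 := co (c := a + x - d - 1 / 2 + 1) (a + 2 * x - 1 / 2) (by linarith only [hX1]) (by linarith only [t1, hp, hp2, hτ, h])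
      have e6 : Real.pi * (2975 / 100000 + 165 / 1000 * w + 165 / 10000 * τ) * τ =
          (3185 / 10000 - 165 / 1000 * (a + 2 * x - 1 / 2)) * P := by
        rw [hP, hw, hτ]; ring
      rw [e6] at h7
      rw [← eB] at hD
      linarith only [hD, hA, hC, hB, hB4, h7, h8]
    · have hB := hB3 h
      have := co (c := a + x - d - 1 / 2 + 1 + (x - a - 1 / 2)) (14 / 10)
        (by linarith only [hx, hX1]) (by norm_num)
      linarith only [hPp, hD, hA, hC, hB, this]

theorem fdn {a t x T d k : ℝ} (hx0 : 0 < x) (hx : x < 8 / 10) (hT0 : 0 ≤ T)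
    (hT : T ≤ 5 / 1000) (ha0 : 0 ≤ a) (ha : a ≤ 65 / 100)
    (ht : t ≤ 57 / 1000 * G2.tr 0 (65 / 100) (12 / 100) (15 / 100) a) (hd0 : 0 ≤ d)
    (hd : d ≤ 6 / 10) (hk : k ≤ 57 / 1000 * G2.tr 0 (6 / 10) (13 / 100) (30 / 100) d) :
    V3 ⟨a, t⟩ ⟨x, -(16 / 100 * G2.tr 0 (8 / 10) (5 / 100) (5 / 100) x)⟩ ⟨d, k⟩ -
      V3 ⟨a, t⟩ ⟨x, T * G2.tr 0 (8 / 10) (5 / 100) (5 / 100) x⟩ ⟨d, k⟩ <
      2 * Real.pi * (16 / 100 * G2.tr 0 (8 / 10) (5 / 100) (5 / 100) x) := by
  obtain ⟨u0, u1, u2, u3⟩ := tr_bd (XM := 65 / 100) (cl := 12 / 100) (cr := 15 / 100) (x := a)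
    (by norm_num) (by norm_num) ha0 ha
  obtain ⟨w0, w1, w2, w3⟩ := tr_bd (XM := 6 / 10) (cl := 13 / 100) (cr := 30 / 100) (x := d)
    (by norm_num) (by norm_num) hd0 hd
  obtain ⟨v0, v1, v2, v3⟩ := tr_bd (XM := 8 / 10) (cl := 5 / 100) (cr := 5 / 100) (x := x)
    (by norm_num) (by norm_num) hx0.le hx.le
  have hpos : 0 < G2.tr 0 (8 / 10) (5 / 100) (5 / 100) x := by
    rcases le_total x (1 / 20) with h | h
    · rw [tr_left hx0.le h]; positivity
    rcases le_total x (3 / 4) with h' | h'
    · rw [tr_mid h h']; norm_num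
    · rw [tr_right h' hx.le]; linarith only [hx]
  refine fdn_core hx0 hx hT0 hT ha0 ha (by linarith only [ht, u3]) hd0 hd (by linarith only [hd0, hk, w2]) hpos v1 (by linarith only [v2])
    (fun h h' => tr_mid h h') (fun h => tr_right h hx.le)

end FI3

end Pool.Agent.Work.MP_b30479_gtS.G2

end
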