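import Pool.Agent.Work.MP_b30479_gt.TBS.G2.TE1A_3
import Pool.Agent.Work.MP_b30479_gt.TBS.G2.TE1B
import Pool.Agent.Work.MP_b30479_gt.TBS.G2.TE1C
import Pool.Agent.Work.MP_b30479_gt.TBS.G2.TE4b
import Pool.Agent.Work.MP_b30479_gt.TBS.G2.TE4c
import Pool.Agent.Work.MP_b30479_gt.TBS.G2.TRc
import Pool.Agent.Work.MP_b30479_gt.TBS.G2.TK2a
import Pool.Agent.Work.MP_b30479_gt.TBS.G2.WVal
import Pool.Agent.Work.MP_b30479_gt.TBS.G2.TL1b
import Pool.Agent.Work.MP_b30479_gt.TBS.G2.TE5
import Pool.Agent.Work.MP_b30479_gt.TBS.G2.TK4
import Pool.Agent.Work.MP_b30479_gt.TBS.G2.WLocX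
import Pool.Agent.Work.MP_b30479_gt.TBS.G2.TL2wAs2
import Pool.Agent.Work.MP_b30479_gt.TBS.G2.WM_in3F

section

/-!
# Tails: the change of the value of an untouched region of class one next to class one or two
-/

end

section

/-!
# Tails, row `E7`: the change of the value of an untouched ring region
-/

namespace Pool.Agent.Work.MP_b30479_gtS.G2

open VOL NumUs

namespace TL

variable {w τ ρ σ η : ℝ}

theorem e7_zt_re (ρ σ : ℝ) : (LT.zt ρ σ).re = σ := by
  simp [LT.zt]

theorem e7_zt_im (ρ σ : ℝ) : (LT.zt ρ σ).im = ρ * LT.th σ := by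
  simp [LT.zt]

theorem fR_diff (w τ ρ σ : ℝ) : fR ⟨9 / 50, τ⟩ (LT.zt ρ σ) - fR ⟨w, 0⟩ (LT.zt ρ σ) =
    uu (17 / 25 + σ) (τ + ρ * LT.th σ) + uu (17 / 25 - σ) (τ - ρ * LT.th σ) - 2 * uu (9 / 50) τ -
      uu (w + 1 / 2 + σ) (ρ * LT.th σ) - uu (w + 1 / 2 - σ) (ρ * LT.th σ) + 2 * uu w 0 := by
  rw [fR_uu, fR_uu]
  rw [e7_zt_re, e7_zt_im]
  simp only [zero_add, zero_sub]
  rw [uu_neg, show (9 : ℝ) / 50 + 1 / 2 + σ = 17 / 25 + σ by ring,
    show (9 : ℝ) / 50 + 1 / 2 - σ = 17 / 25 - σ by ring]
  ring

theorem E7a_main (h0 : 0 ≤ w) (h1 : w ≤ 7 / 50) (h2 : -(79 / 500) ≤ τ) (h3 : τ ≤ 1 / 250)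
    (h4 : -(1 / 2) ≤ σ) (h5 : σ ≤ 1 / 8) (h6 : 0 ≤ η) (h7 : η ≤ 1045 / 10000)
    (h8 : η ≤ 1045 / 10000 * (2 + 4 * σ)) :
    0 < fA (1678 / 1000) τ σ η + fB ((-536) / 10000) (543 / 1000) w σ η := by
  rcases le_total σ (-(15 / 32)) with g0 | g0
  · exact ba0 h0 h1 h2 h3 h4 g0 h6 (by linarith only [h8, g0])
  rcases le_total σ (-(7 / 16)) with g1 | g1
  · exact ba1 h0 h1 h2 h3 g0 g1 h6 (by linarith only [h8, g1])
  rcases le_total σ (-(13 / 32)) with g2 | g2
  · exact ba2 h0 h1 h2 h3 g1 g2 h6 (by linarith only [h8, g2])
  rcases le_total σ (-(3 / 8)) with g3 | g3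
  · exact ba3 h0 h1 h2 h3 g2 g3 h6 (by linarith only [h8, g3])
  rcases le_total σ (-(23 / 64)) with g4 | g4
  · exact ba4 h0 h1 h2 h3 g3 g4 h6 (by linarith only [h8, g4])
  rcases le_total σ (-(11 / 32)) with g5 | g5
  · exact ba5 h0 h1 h2 h3 g4 g5 h6 (by linarith only [h8, g5])
  rcases le_total σ (-(21 / 64)) with g6 | g6
  · exact ba6 h0 h1 h2 h3 g5 g6 h6 (by linarith only [h8, g6])
  rcases le_total σ (-(5 / 16)) with g7 | g7
  · exact ba7 h0 h1 h2 h3 g6 g7 h6 (by linarith only [h8, g7])
  rcases le_total σ (-(9 / 32)) with g8 | g8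
  · exact ba8 h0 h1 h2 h3 g7 g8 h6 (by linarith only [h8, g8])
  rcases le_total σ (-(1 / 4)) with g9 | g9
  · exact ba9 h0 h1 h2 h3 g8 g9 h6 (by linarith only [h7])
  rcases le_total σ (-(3 / 16)) with g10 | g10
  · exact ba10 h0 h1 h2 h3 g9 g10 h6 (by linarith only [h7])
  rcases le_total σ (-(1 / 8)) with g11 | g11
  · exact ba11 h0 h1 h2 h3 g10 g11 h6 (by linarith only [h7])
  rcases le_total σ (-(1 / 16)) with g12 | g12
  · exact ba12 h0 h1 h2 h3 g11 g12 h6 (by linarith only [h7])
  rcases le_total σ (0 / 1) with g13 | g13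
  · exact ba13 h0 h1 h2 h3 g12 g13 h6 (by linarith only [h7])
  rcases le_total σ (1 / 16) with g14 | g14
  · exact ba14 h0 h1 h2 h3 g13 g14 h6 (by linarith only [h7])
  exact ba15 h0 h1 h2 h3 g14 h5 h6 (by linarith only [h7])

theorem E7b_main (h0 : 7 / 50 ≤ w) (h1 : w ≤ 2 / 5) (h2 : -(79 / 500) ≤ τ) (h3 : τ ≤ 1 / 250)
    (h4 : -(1 / 2) ≤ σ) (h5 : σ ≤ 1 / 8) (h6 : 0 ≤ η) (h7 : η ≤ 1045 / 10000)
    (h8 : η ≤ 1045 / 10000 * (2 + 4 * σ)) :
    0 < fA (1397 / 1000) τ σ η + fB (1291 / 10000) ((-720) / 1000) w σ η := by
  rcases le_total σ (-(15 / 32)) with g0 | g0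
  · exact bb0 h0 h1 h2 h3 h4 g0 h6 (by linarith only [h8, g0])
  rcases le_total σ (-(7 / 16)) with g1 | g1
  · exact bb1 h0 h1 h2 h3 g0 g1 h6 (by linarith only [h8, g1])
  rcases le_total σ (-(13 / 32)) with g2 | g2
  · exact bb2 h0 h1 h2 h3 g1 g2 h6 (by linarith only [h8, g2])
  rcases le_total σ (-(3 / 8)) with g3 | g3
  · exact bb3 h0 h1 h2 h3 g2 g3 h6 (by linarith only [h8, g3])
  rcases le_total σ (-(23 / 64)) with g4 | g4
  · exact bb4 h0 h1 h2 h3 g3 g4 h6 (by linarith only [h8, g4])
  rcases le_total σ (-(11 / 32)) with g5 | g5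
  · exact bb5 h0 h1 h2 h3 g4 g5 h6 (by linarith only [h8, g5])
  rcases le_total σ (-(21 / 64)) with g6 | g6
  · exact bb6 h0 h1 h2 h3 g5 g6 h6 (by linarith only [h8, g6])
  rcases le_total σ (-(5 / 16)) with g7 | g7
  · exact bb7 h0 h1 h2 h3 g6 g7 h6 (by linarith only [h8, g7])
  rcases le_total σ (-(9 / 32)) with g8 | g8
  · exact bb8 h0 h1 h2 h3 g7 g8 h6 (by linarith only [h8, g8])
  rcases le_total σ (-(1 / 4)) with g9 | g9
  · exact bb9 h0 h1 h2 h3 g8 g9 h6 (by linarith only [h7])
  rcases le_total σ (-(3 / 16)) with g10 | g10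
  · exact bb10 h0 h1 h2 h3 g9 g10 h6 (by linarith only [h7])
  rcases le_total σ (-(1 / 8)) with g11 | g11
  · exact bb11 h0 h1 h2 h3 g10 g11 h6 (by linarith only [h7])
  rcases le_total σ (-(1 / 16)) with g12 | g12
  · exact bb12 h0 h1 h2 h3 g11 g12 h6 (by linarith only [h7])
  rcases le_total σ (0 / 1) with g13 | g13
  · exact bb13 h0 h1 h2 h3 g12 g13 h6 (by linarith only [h7])
  rcases le_total σ (1 / 16) with g14 | g14
  · exact bb14 h0 h1 h2 h3 g13 g14 h6 (by linarith only [h7])
  exact bb15 h0 h1 h2 h3 g14 h5 h6 (by linarith only [h7])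

theorem e7_th_nonneg {σ : ℝ} (h : |σ| ≤ 1 / 2) : 0 ≤ LT.th σ := by
  unfold LT.th
  exact le_min zero_le_one (by linarith only [h])

theorem e7_th_le_one (σ : ℝ) : LT.th σ ≤ 1 := min_le_left _ _

theorem e7_th_le_ramp (σ : ℝ) : LT.th σ ≤ 2 + 4 * σ := by
  unfold LT.th
  refine (min_le_right _ _).trans ?_
  linarith only [neg_abs_le σ]

/-- margin .0171 -/
theorem E7a {w τ ρ σ : ℝ} (h0 : 0 ≤ w) (h1 : w ≤ 7 / 50) (h2 : -(79 / 500) ≤ τ)
    (h3 : τ ≤ 1 / 250) (hρ : 0 ≤ ρ) (hρ1 : ρ ≤ 1045 / 10000) (hσ : |σ| ≤ 1 / 2) (hσ1 : σ ≤ 1 / 8) :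
    UU ⟨w, 0⟩ - 67 / 1250 + 543 / 1000 * w - 839 / 500 * τ ≤
      fR ⟨9 / 50, τ⟩ (LT.zt ρ σ) - fR ⟨w, 0⟩ (LT.zt ρ σ) := by
  have t0 := e7_th_nonneg hσ
  have t1 := e7_th_le_one σ
  have t2 := e7_th_le_ramp σ
  have m := E7a_main (η := ρ * LT.th σ) h0 h1 h2 h3 (abs_le.1 hσ).1 hσ1 (mul_nonneg hρ t0)
    (by nlinarith only [hρ, hρ1, t1]) (by nlinarith only [hρ1, t0, t2])
  rw [fR_diff]
  unfold fA fB at m
  rw [show UU ⟨w, 0⟩ = uu w 0 from rfl]
  linarith only [m]

/-- margin .0389 -/
theorem E7b {w τ ρ σ : ℝ} (h0 : 7 / 50 ≤ w) (h1 : w ≤ 2 / 5) (h2 : -(79 / 500) ≤ τ)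
    (h3 : τ ≤ 1 / 250) (hρ : 0 ≤ ρ) (hρ1 : ρ ≤ 1045 / 10000) (hσ : |σ| ≤ 1 / 2) (hσ1 : σ ≤ 1 / 8) :
    UU ⟨w, 0⟩ + 1291 / 10000 - 18 / 25 * w - 1397 / 1000 * τ ≤
      fR ⟨9 / 50, τ⟩ (LT.zt ρ σ) - fR ⟨w, 0⟩ (LT.zt ρ σ) := by
  have t0 := e7_th_nonneg hσ
  have t1 := e7_th_le_one σ
  have t2 := e7_th_le_ramp σ
  have m := E7b_main (η := ρ * LT.th σ) h0 h1 h2 h3 (abs_le.1 hσ).1 hσ1 (mul_nonneg hρ t0)
    (by nlinarith only [hρ, hρ1, t1]) (by nlinarith only [hρ1, t0, t2])
  rw [fR_diff]
  unfold fA fB at m
  rw [show UU ⟨w, 0⟩ = uu w 0 from rfl]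
  linarith only [m]

end TL

end Pool.Agent.Work.MP_b30479_gtS.G2

end

section

/-!
# Tails, sides of a digit `1`: tools
-/

namespace Pool.Agent.Work.MP_b30479_gtS.G2

open VOL NumUs

namespace TL

theorem V1_uu (x t y k : ℝ) : V1 ⟨x, t⟩ ⟨y, k⟩ =
    Real.pi * (x * k + y * t - t - k) + uu (x + y) (t + k) - uu x t - uu y k := by
  unfold V1
  simp only [UU_uu, Complex.add_re, Complex.add_im, Complex.sub_im, Complex.mul_im]
  ring

theorem V1_real (x y : ℝ) : V1 ⟨x, 0⟩ ⟨y, 0⟩ = uu (x + y) 0 - uu x 0 - uu y 0 := by
  rw [V1_uu]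
  rw [show (0 : ℝ) + 0 = 0 by ring]
  ring

/-- the real value of a digit `1` decreases in a hinge to the right of `1/2` -/
theorem V1_old {X x w : ℝ} (hX : 1 / 2 ≤ X) (hx : X ≤ x) (hw : 0 ≤ w) (hxw : x + w ≤ 1) :
    uu (x + w) 0 - uu x 0 ≤ uu (X + w) 0 - uu X 0 := by
  have h1 := uu_incr_real (w := 1 - x - w) (w0 := 1 - X - w) (X := w) (by linarith) (by linarith)
    hw (by linarith)
  rw [show 1 - X - w = 1 - (X + w) by ring, show 1 - x - w = 1 - (x + w) by ring,
    uu_one_sub, uu_one_sub, show 1 - (X + w) + w = 1 - X by ring,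
    show 1 - (x + w) + w = 1 - x by ring, uu_one_sub, uu_one_sub] at h1
  linarith

/-! ### rows -/

/-- old position, a hinge at `X / 10000` -/
def oE1 (X a0 a1 o e : ℤ) (xw w : E) : E :=
  .sub (.add (.q o 10000) (.add (.q a0 10000) (.mul (.q a1 1000) (.var 0))))
    (.sub (.sub (.uu xw (.q 0 1)) (.uu (.q X 10000) (.q 0 1)))
      (.mul (.q e 1) (.uu w (.q 0 1))))

open NumIs (V) in
def oldOK1 (X a0 a1 o e wl wh d : ℤ) : Bool :=
  (decide (d < wl) || chk [oE1 X a0 a1 o e (.add (.q X 10000) (.var 0)) (.q d 10000)] 30
    [V.of 10000 wl d 0]) &&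
  ((decide (10000 - X - d < wl) || chk [oE1 X a0 a1 o e (.add (.q X 10000) (.var 0)) (.var 0)] 30
    [V.of 10000 (max wl d) (min wh (10000 - X - d)) 0]) &&
  (decide (wh < 10000 - X - d) || chk [oE1 X a0 a1 o e (.add (.q (X - d) 10000) (.var 0)) (.var 0)]
    30 [V.of 10000 (10000 - X - d) (10000 - X) 0]))

theorem old1_sound {X a0 a1 o e wl wh d : ℤ} (h : oldOK1 X a0 a1 o e wl wh d = true)
    (hX : 5000 ≤ X) (hd : 0 < d) (hd' : d ≤ 800) (he : 1 ≤ e) {x w : ℝ}
    (h0 : (X : ℝ) / 10000 ≤ x) (hw : 0 ≤ w) (hw0 : (wl : ℝ) / 10000 ≤ w)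
    (hw1 : w ≤ (wh : ℝ) / 10000) (hxw : x + w ≤ 1) :
    V1 ⟨x, 0⟩ ⟨w, 0⟩ - (e - 1) * uu w 0 - ((a0 : ℝ) / 10000 + (a1 : ℝ) / 1000 * w) ≤
      (o : ℝ) / 10000 := by
  have hX' : (5000 : ℝ) ≤ X := by exact_mod_cast hX
  have hd1 : (0 : ℝ) < d := by exact_mod_cast hd
  have hd2 : (d : ℝ) ≤ 800 := by exact_mod_cast hd'
  have he' : (1 : ℝ) ≤ e := by exact_mod_cast he
  unfold oldOK1 at h
  simp only [Bool.and_eq_true, Bool.or_eq_true, decide_eq_true_eq] at h
  obtain ⟨c1, c2, c3⟩ := h
  rw [V1_real]
  have hv := V1_old (X := (X : ℝ) / 10000) (by linarith) h0 hw hxw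
  rcases le_total w ((d : ℝ) / 10000) with hs | hs
  · have c1 : NumUs.chk _ _ _ = true := c1.resolve_left (by
      intro hc
      have : (d : ℝ) < wl := by exact_mod_cast hc
      linarith)
    have hp := pos_of_chk (chk1 c1 (by norm_num) (x := w) (by push_cast; linarith)
      (by push_cast; linarith))
    have ha := uu_real_anti (a := w) (b := (d : ℝ) / 10000) hw hs (by linarith)
    simp only [oE1, E.val, NumIs.lkR] at hp
    push_cast at hp
    norm_num at hp
    have := mul_le_mul_of_nonneg_left ha (by linarith : (0 : ℝ) ≤ e)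
    linarith
  · rcases le_total w ((10000 - X - d : ℝ) / 10000) with hr | hr
    · have c2 : NumUs.chk _ _ _ = true := c2.resolve_left (by
        intro hc
        have : (10000 - X - d : ℝ) < wl := by exact_mod_cast hc
        linarith)
      have hp := pos_of_chk (chk1 c2 (by norm_num) (x := w)
        (by
          push_cast
          rw [div_le_iff₀ (by norm_num)]
          rw [div_le_iff₀ (by norm_num)] at hw0 hs
          exact max_le hw0 hs)
        (by
          push_cast
          rw [le_div_iff₀ (by norm_num)]
          rw [le_div_iff₀ (by norm_num)] at hw1 hr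
          exact le_min hw1 hr))
      simp only [oE1, E.val, NumIs.lkR] at hp
      push_cast at hp
      norm_num at hp
      linarith
    · have c3 : NumUs.chk _ _ _ = true := c3.resolve_left (by
        intro hc
        have : (wh : ℝ) < 10000 - X - d := by exact_mod_cast hc
        linarith)
      have hp := pos_of_chk (chk1 c3 (by norm_num) (x := w) (by push_cast; linarith)
        (by push_cast; linarith))
      have ha := uu_real_anti1 (a := (X : ℝ) / 10000 + w - (d : ℝ) / 10000)
        (b := (X : ℝ) / 10000 + w) (by linarith) (by linarith) (by linarith)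
      simp only [oE1, E.val, NumIs.lkR] at hp
      push_cast at hp
      norm_num at hp
      rw [show ((X : ℝ) - d) / 10000 + w = (X : ℝ) / 10000 + w - (d : ℝ) / 10000 by ring] at hp
      linarith

/-- new position -/
def nE1 (c c' be ck n0 : ℤ) : E :=
  .sub (.add (.sub (.add (.uu (.q (c + c') 100) (.add (.var 0) (.var 1)))
    (.mul .pi (.sub (.add (.mul (.q c 100) (.var 1)) (.mul (.q c' 100) (.var 0)))
      (.add (.var 0) (.var 1)))))
    (.add (.uu (.q c 100) (.var 0)) (.uu (.q c' 100) (.var 1))))
    (.add (.mul (.q be 100) (.var 0)) (.mul (.q ck 10000) (.var 1)))) (.q n0 10000)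

def s0E (s : ℤ) : E := .sub (.q s 10000) (.add (.var 0) (.var 1))
def s1E (s : ℤ) : E := .sub (.add (.var 0) (.var 1)) (.q s 10000)

open NumIs (V) in
theorem new1_sound {c c' be ck n0 t0 t1 k0 k1 s0 s1 : ℤ}
    (h : chk [nE1 c c' be ck n0, s0E s0, s1E s1] 30 [V.of 10000 t0 t1 0, V.of 10000 k0 k1 0] = true)
    {t k : ℝ} (h0 : (t0 : ℝ) / 10000 ≤ t) (h1 : t ≤ (t1 : ℝ) / 10000) (h2 : (k0 : ℝ) / 10000 ≤ k)
    (h3 : k ≤ (k1 : ℝ) / 10000) (h4 : (s0 : ℝ) / 10000 ≤ t + k) (h5 : t + k ≤ (s1 : ℝ) / 10000) :
    (n0 : ℝ) / 10000 < V1 ⟨(c : ℝ) / 100, t⟩ ⟨(c' : ℝ) / 100, k⟩ + (be : ℝ) / 100 * t +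
      (ck : ℝ) / 10000 * k := by
  obtain ⟨e, he, hp⟩ := chk2 h (by norm_num) (x := t) (y := k) (by push_cast; linarith)
    (by push_cast; linarith) (by push_cast; linarith) (by push_cast; linarith)
  simp only [List.mem_cons, List.not_mem_nil, or_false] at he
  rcases he with rfl | rfl | rfl
  · simp only [nE1, E.val, NumIs.lkR] at hp
    push_cast at hp
    rw [V1_uu]
    rw [show (c : ℝ) / 100 + (c' : ℝ) / 100 = ((c : ℝ) + c') / 100 by ring]
    linarith
  · exfalso
    simp only [s0E, E.val, NumIs.lkR] at hp
    push_cast at hp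
    linarith
  · exfalso
    simp only [s1E, E.val, NumIs.lkR] at hp
    push_cast at hp
    linarith

open NumIs (V) in
/-- new position minus old position -/
theorem k1_gen {X c c' be ck a0 a1 e wl wh d n0 o t0 t1 k0 k1 s0 s1 : ℤ}
    (hn : chk [nE1 c c' be ck n0, s0E s0, s1E s1] 30
      [V.of 10000 t0 t1 0, V.of 10000 k0 k1 0] = true)
    (ho : oldOK1 X a0 a1 o e wl wh d = true) (hX : 5000 ≤ X) (he : 1 ≤ e) (hd : 0 < d)
    (hd' : d ≤ 800)
    {x w t k G C C' Be A : ℝ} (hC : C = (c : ℝ) / 100) (hC' : C' = (c' : ℝ) / 100)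
    (hBe : Be = (be : ℝ) / 100) (hA : A = ((n0 : ℝ) - o) / 10000)
    (h0 : (X : ℝ) / 10000 ≤ x) (hw : 0 ≤ w) (hw0 : (wl : ℝ) / 10000 ≤ w)
    (hw1 : w ≤ (wh : ℝ) / 10000) (hxw : x + w ≤ 1)
    (ht0 : (t0 : ℝ) / 10000 ≤ t) (ht1 : t ≤ (t1 : ℝ) / 10000) (hk0 : (k0 : ℝ) / 10000 ≤ k)
    (hk1 : k ≤ (k1 : ℝ) / 10000) (hs0 : (s0 : ℝ) / 10000 ≤ t + k)
    (hs1 : t + k ≤ (s1 : ℝ) / 10000)
    (hG : ((e : ℝ) - 1) * UU ⟨w, 0⟩ + ((a0 : ℝ) / 10000 + (a1 : ℝ) / 1000 * w) +
      (ck : ℝ) / 10000 * k ≤ G) :
    A ≤ V1 ⟨C, t⟩ ⟨C', k⟩ - V1 ⟨x, 0⟩ ⟨w, 0⟩ + G + Be * t := by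
  have h1 := new1_sound hn ht0 ht1 hk0 hk1 hs0 hs1
  have h2 := old1_sound ho hX hd hd' he h0 hw hw0 hw1 hxw
  rw [UU_uu] at hG
  rw [hC, hC', hBe, hA, sub_div]
  linarith

end TL

end Pool.Agent.Work.MP_b30479_gtS.G2

end

section

/-!
# Tails: the gains of the untouched regions imply the lower bounds
-/

namespace Pool.Agent.Work.MP_b30479_gtS.G2

open VOL NumUs SR

namespace TL

theorem RgO.lin {K D : Cl} {τ X Y : ℝ} (h : RgO K D τ X Y) :
    0 ≤ X ∧ X ≤ pM K D ∧
      ((0 ≤ Y ∧ Y ≤ (cw K D).t1 ∧ pa D * Y ≤ (cw K D).t1 * X ∧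
          pb D * Y ≤ (cw K D).t1 * (pM K D - X)) ∨
        (Y ≤ 0 ∧ (cw K D).t0 ≤ Y ∧ (cw K D).t0 * X ≤ pa D * Y ∧
          (cw K D).t0 * (pM K D - X) ≤ pb D * Y)) := by
  obtain ⟨x0, x1, T, a0, a1, -, -, h⟩ := h
  have x2 : 0 ≤ pM K D - X := by linarith only [x1]
  refine ⟨x0, x1, ?_⟩
  rcases h with ⟨y0, y1, y2, y3⟩ | ⟨y0, y1, y2, y3⟩
  · exact Or.inl ⟨y0, y1.trans a1, y2.trans (mul_le_mul_of_nonneg_right a1 x0),
      y3.trans (mul_le_mul_of_nonneg_right a1 x2)⟩
  · exact Or.inr ⟨y0, a0.trans y1, (mul_le_mul_of_nonneg_right a0 x0).trans y2,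
      (mul_le_mul_of_nonneg_right a0 x2).trans y3⟩

theorem RgO.A {D : Cl} {τ X Y : ℝ} (h : RgO .one D τ X Y) : RgA X Y := by
  obtain ⟨x0, x1, h⟩ := h.lin
  cases D <;> simp only [cw, pM, pa, pb, if_true] at x1 h <;>
    rcases h with ⟨y0, y1, y2, y3⟩ | ⟨y0, y1, y2, y3⟩ <;>
    refine ⟨?_, ?_, ?_, ?_, ?_, ?_, ?_, ?_⟩ <;> linarith only [x0, x1, y2, y1, y3, y0]

theorem RgO.B {D : Cl} {τ X Y : ℝ} (h : RgO .two D τ X Y) : RgB X Y := by
  obtain ⟨x0, x1, h⟩ := h.lin
  cases D <;> simp only [cw, pM, pa, pb, show ¬ Cl.two = Cl.one by decide, if_false] at x1 h <;>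
    rcases h with ⟨y0, y1, y2, y3⟩ | ⟨y0, y1, y2, y3⟩ <;>
    refine ⟨?_, ?_, ?_, ?_, ?_, ?_, ?_, ?_⟩ <;> linarith only [x0, x1, y2, y1, y3, y0]

theorem RgO.C1 {τ X Y : ℝ} (h : RgO .three .one τ X Y) : RgC X Y := by
  obtain ⟨x0, x1, h⟩ := h.lin
  simp only [cw, pM, pa, pb, show ¬ Cl.three = Cl.one by decide, if_false] at x1 h
  rcases h with ⟨y0, y1, y2, y3⟩ | ⟨y0, y1, y2, y3⟩ <;>
    refine ⟨?_, ?_, ?_, ?_, ?_, ?_, ?_, ?_⟩ <;> linarith only [x0, x1, y2, y1, y3, y0]

theorem RgO.C2 {τ X Y : ℝ} (h : RgO .three .two τ X Y) : RgC X Y := by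
  obtain ⟨x0, x1, h⟩ := h.lin
  simp only [cw, pM, pa, pb] at x1 h
  rcases h with ⟨y0, y1, y2, y3⟩ | ⟨y0, y1, y2, y3⟩ <;>
    refine ⟨?_, ?_, ?_, ?_, ?_, ?_, ?_, ?_⟩ <;> linarith only [x0, x1, y2, y1, y3, y0]

theorem RgO.E {τ X Y : ℝ} (h : RgO .three .twoE τ X Y) (hX : 8 / 100 ≤ X) : RgE X Y := by
  obtain ⟨x0, x1, h⟩ := h.lin
  simp only [cw, pM, pa, pb] at x1 h
  rcases h with ⟨y0, y1, y2, y3⟩ | ⟨y0, y1, y2, y3⟩ <;>
    refine ⟨?_, ?_, ?_, ?_, ?_, ?_⟩ <;> linarith only [y0, y1, hX, x1, y2, y3]

/-- **The gains of the untouched regions imply the lower bounds.** -/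
theorem EB_of_Gn {K : Cl} {C : Ct} {w τ G : ℝ} (hK : K = .one ∨ K = .two ∨ K = .three)
    (hw : 0 ≤ w) (hw1 : w ≤ 2 / 5) (h : Gn K (cN C) w τ C G) : EB K C w τ G := by
  cases h with
  | one h0 h1 h2 hb hR hX =>
    rename_i D X Y
    rcases hK with rfl | rfl | rfl
    · obtain ⟨a, b⟩ := abs_le.1 (h2 rfl)
      exact ⟨fun h => E1a hw h a b hR.A, fun h => E1b h hw1 a b hR.A⟩
    · have a : -(9 / 500) ≤ τ := by
        refine le_trans ?_ h0
        cases D <;> simp only [cw] <;> norm_num
      have b : τ ≤ 197 / 2000 := by
        refine h1.trans ?_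
        cases D <;> simp only [cw] <;> norm_num
      exact ⟨fun h => E2a hw h a b hR.B, fun h => E2b h hw1 a b hR.B⟩
    · rcases D with _ | _ | _ | _ | _ | _
      · simp only [cw] at h0 h1
        refine ⟨fun h => ?_, fun h => E3b h hw1 h0 (by linarith only [h1]) hR.C1⟩
        rcases E3a (τ := τ) hw h h0 (by linarith only [h1]) hR.C1 with h' | h'
        · exact Or.inl ⟨by linarith only [h1], h'⟩
        · exact Or.inr h'
      · simp only [cw] at h0 h1
        refine ⟨fun h => ?_, fun h => E3b h hw1 (by linarith only [h0]) (by linarith only [h1]) hR.C2⟩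
        rcases E3a (τ := τ) hw h (by linarith only [h0]) (by linarith only [h1]) hR.C2 with h' | h'
        · exact Or.inl ⟨by linarith only [h1], h'⟩
        · exact Or.inr h'
      · simp only [cw] at h0 h1
        have hX' := hX rfl (Or.inl rfl)
        exact ⟨fun h => Or.inr (E3c hw h h0 (by linarith only [h1]) (hR.E hX')),
          fun h => E3d h hw1 h0 (by linarith only [h1]) (hR.E hX')⟩
      · exact absurd ⟨Or.inl rfl, Or.inl rfl⟩ hb
      · exact absurd ⟨Or.inl rfl, Or.inr (Or.inl rfl)⟩ hb
      · exact absurd ⟨Or.inl rfl, Or.inr (Or.inr rfl)⟩ hb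
  | two h0 h1 hR =>
    have a : -(197 / 2000) ≤ τ := by
      refine le_trans ?_ h0
      rcases hK with rfl | rfl | rfl <;> simp only [hbox] <;> norm_num
    have b : τ ≤ 57 / 1000 := by
      refine h1.trans ?_
      rcases hK with rfl | rfl | rfl <;> simp only [hbox] <;> norm_num
    rcases hR with hR | ⟨h27, hR⟩
    · exact E4 hw hw1 a b hR
    · exact P1.E4f h27 hw1 a b hR
  | twoE h0 h1 =>
    have a : -(1 / 1000) ≤ τ := by
      refine le_trans ?_ h0
      rcases hK with rfl | rfl | rfl <;> simp only [hbox] <;> norm_num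
    have b : τ ≤ 98 / 1000 := by
      refine h1.trans ?_
      rcases hK with rfl | rfl | rfl <;> simp only [hbox] <;> norm_num
    exact P1.R2 a b
  | threeA h0 h1 hR =>
    have a : -(229 / 2000) ≤ τ := by
      refine le_trans ?_ h0
      rcases hK with rfl | rfl | rfl <;> simp only [hbox] <;> norm_num
    have b : τ ≤ 11 / 500 := by
      refine h1.trans ?_
      rcases hK with rfl | rfl | rfl <;> simp only [hbox] <;> norm_num
    exact ⟨fun h => E5a hw h a b hR, fun h => E5b h hw1 a b hR⟩
  | threeS h0 h1 hX0 hX1 t0 t1 s0 s1 ho =>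
    rename_i D X T Xo Yo
    have a : -(1145 / 10000) ≤ τ := by
      refine le_trans ?_ h0
      rcases hK with rfl | rfl | rfl <;> simp only [hbox] <;> norm_num
    have b : τ ≤ 22 / 1000 := by
      refine h1.trans ?_
      rcases hK with rfl | rfl | rfl <;> simp only [hbox] <;> norm_num
    refine P1.threeS hw hw1 a b hX0 hX1 (le_trans ?_ t0) (t1.trans ?_) (le_trans ?_ s0)
      (s1.trans ?_) ho
    all_goals
      rcases hK with rfl | rfl | rfl <;> cases D <;> simp only [mw] <;> norm_num
  | threeK h0 h1 hR =>
    have a : -(229 / 2000) ≤ τ := by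
      refine le_trans ?_ h0
      rcases hK with rfl | rfl | rfl <;> simp only [hbox] <;> norm_num
    have b : τ ≤ 11 / 500 := by
      refine h1.trans ?_
      rcases hK with rfl | rfl | rfl <;> simp only [hbox] <;> norm_num
    exact E6 hw hw1 a b hR
  | threeE h0 h1 hm0 hm1 hl hl1 =>
    have a : -(78 / 1000) ≤ τ := by
      refine le_trans ?_ h0
      rcases hK with rfl | rfl | rfl <;> simp only [hbox] <;> norm_num
    have b : τ ≤ 28 / 1000 := by
      refine h1.trans ?_
      rcases hK with rfl | rfl | rfl <;> simp only [hbox] <;> norm_num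
    exact P1.R3 a b hm0 hm1 hw hl hl1
  | ring h0 h1 h2 hρ hρ1 hσ hσ1 =>
    have hr : K ≠ .ring := by
      rcases hK with rfl | rfl | rfl <;> decide
    have a : -(79 / 500) ≤ τ := by
      refine le_trans ?_ (h0 hr)
      rcases hK with rfl | rfl | rfl <;> simp only [hbox] <;> norm_num
    have b : τ ≤ 1 / 250 := by
      refine (h1 hr).trans ?_
      rcases hK with rfl | rfl | rfl <;> simp only [hbox] <;> norm_num
    exact ⟨fun h => E7a hw h a b hρ hρ1 hσ hσ1, fun h => E7b h hw1 a b hρ hρ1 hσ hσ1⟩
  | touched => exact le_rfl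

end TL

end Pool.Agent.Work.MP_b30479_gtS.G2

end

section

/-!
# Tails, interior three with its inner variable in the tail: the final rows

A line `a - e τ` (`τ = -t`) is a lower bound of the part of the old value and of the gain which
belong to one slot; all pairs of lines are checked.
-/

namespace Pool.Agent.Work.MP_b30479_gtS.G2

open VOL SR NumUs

namespace TL

namespace L2

/-- a line: class behind the hinge, target of the hinge (hundredths), window of the height `t` in
the frame of the three (ten thousandths), lower bound `a / 10000 + e / 1000 * t` -/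
structure Ln where
  cl : Cl
  c : ℤ
  t0 : ℤ
  t1 : ℤ
  a : ℤ
  e : ℤ

/-- windows of the inner variable, ten thousandths -/
structure Wz where
  t0 : ℤ
  t1 : ℤ
  s0 : ℤ
  s1 : ℤ

def mwZ (A K : Cl) : Wz :=
  match A, K with
  | .one, .one => ⟨-900, -180, -450, 700⟩
  | .one, .twoE => ⟨-620, -50, -200, 750⟩
  | .one, .ring => ⟨-720, 0, -340, 800⟩
  | .one, _ => ⟨-820, 50, -400, 840⟩
  | .twoE, .one => ⟨-1230, -800, -480, 150⟩
  | .twoE, .twoE => ⟨-950, -670, -180, 290⟩
  | .twoE, .ring => ⟨-1060, -670, -310, 290⟩
  | .twoE, _ => ⟨-1160, -640, -400, 320⟩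
  | _, .one => ⟨-1140, -150, -1050, 140⟩
  | _, .twoE => ⟨-820, -50, -750, 190⟩
  | _, .ring => ⟨-920, 0, -930, 240⟩
  | _, _ => ⟨-1040, 50, -1000, 280⟩

theorem mwZ_eq (A K : Cl) : (mw A K).t0 = ((mwZ A K).t0 : ℝ) / 10000 ∧
    (mw A K).t1 = ((mwZ A K).t1 : ℝ) / 10000 ∧ (mw A K).s0 = ((mwZ A K).s0 : ℝ) / 10000 ∧
    (mw A K).s1 = ((mwZ A K).s1 : ℝ) / 10000 := by
  cases A <;> cases K <;> refine ⟨?_, ?_, ?_, ?_⟩ <;> norm_num [mw, mwZ]

/-- the slot `2` -/
def TW : List Ln :=
  [⟨.one, 21, -920, -210, -4970, -1128⟩, ⟨.one, 21, -920, -210, -2935, 3142⟩,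
   ⟨.one, 21, -940, -460, -2911, 3142⟩, ⟨.one, 21, -1145, -870, -2705, 2721⟩,
   ⟨.two, 25, -570, 50, -3764, 1571⟩, ⟨.twoE, 22, -980, -760, -2878, 2262⟩,
   ⟨.three, 15, -220, 220, -3724, 851⟩, ⟨.three, 15, -220, 220, -3404, 565⟩,
   ⟨.threeE, 22, -280, -50, -3078, 1215⟩,
   ⟨.ring, 18, -40, 570, -4315, 1678⟩, ⟨.ring, 18, -40, 570, -4112, 1397⟩,
   ⟨.one, 20, -1145, -210, -2869, 2360⟩, ⟨.two, 20, -570, 50, -2869, 2360⟩,
   ⟨.twoE, 20, -980, -760, -2869, 2360⟩, ⟨.three, 20, -220, 220, -2869, 2360⟩,
   ⟨.threeE, 20, -280, -50, -2869, 2360⟩, ⟨.ring, 20, -40, 570, -2869, 2360⟩]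

/-- variables `tu, m, tw` -/
def fE (cu cw a eu ew : ℤ) : E :=
  .add (.sub (.sub (.sub (.sub (.sub (.uu (.q (45 + cw) 100) (.add (.var 1) (.var 2)))
    (.mul .pi (.add (.add (.mul (.q cu 100) (.var 1)) (.mul (.q 45 100) (.var 0)))
      (.mul (.q (45 - cw - 50) 100) (.sub (.var 1) (.var 2))))))
    (.uu (.q (45 - cu) 100) (.sub (.var 1) (.var 0)))) (.uu (.q 45 100) (.var 1)))
    (.uu (.q cu 100) (.var 0))) (.mul (.q 2 1) (.uu (.q cw 100) (.var 2))))
    (.add (.q a 10000) (.add (.mul (.q eu 1000) (.var 0)) (.mul (.q ew 1000) (.var 2))))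

def w0E (s : ℤ) : E := .sub (.q s 10000) (.sub (.var 1) (.var 0))
def w1E (s : ℤ) : E := .sub (.sub (.var 1) (.var 0)) (.q s 10000)

/-- check of a pair of lines -/
def okP (u w : Ln) : Bool :=
  chk [fE u.c w.c (u.a + w.a) u.e w.e, w0E (mwZ u.cl w.cl).s0, w1E (mwZ u.cl w.cl).s1] 30
    [NumIs.V.of 10000 u.t0 u.t1 0, NumIs.V.of 10000 (mwZ u.cl w.cl).t0 (mwZ u.cl w.cl).t1 0,
      NumIs.V.of 10000 w.t0 w.t1 0]

theorem okP_sound {u w : Ln} (h : okP u w = true) {tu m tw : ℝ}
    (tu0 : (u.t0 : ℝ) / 10000 ≤ tu) (tu1 : tu ≤ (u.t1 : ℝ) / 10000)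
    (tw0 : (w.t0 : ℝ) / 10000 ≤ tw) (tw1 : tw ≤ (w.t1 : ℝ) / 10000)
    (m0 : (mw u.cl w.cl).t0 ≤ m) (m1 : m ≤ (mw u.cl w.cl).t1)
    (s0 : (mw u.cl w.cl).s0 ≤ m - tu) (s1 : m - tu ≤ (mw u.cl w.cl).s1) :
    0 < V3 ⟨(u.c : ℝ) / 100, tu⟩ ⟨9 / 20, m⟩ ⟨(w.c : ℝ) / 100, tw⟩ +
      ((u.a : ℝ) / 10000 + (u.e : ℝ) / 1000 * tu) + ((w.a : ℝ) / 10000 + (w.e : ℝ) / 1000 * tw) := by
  obtain ⟨e1, e2, e3, e4⟩ := mwZ_eq u.cl w.cl
  rw [e1] at m0
  rw [e2] at m1
  rw [e3] at s0
  rw [e4] at s1
  obtain ⟨e, he, hp⟩ := chk3 h (by norm_num) (x := tu) (y := m) (z := tw) (by push_cast; linarith)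
    (by push_cast; linarith) (by push_cast; linarith) (by push_cast; linarith)
    (by push_cast; linarith) (by push_cast; linarith)
  simp only [List.mem_cons, List.not_mem_nil, or_false] at he
  rcases he with rfl | rfl | rfl
  · simp only [fE, E.val, NumIs.lkR] at hp
    push_cast at hp
    rw [K3.V3_uu]
    rw [show (9 : ℝ) / 20 + (w.c : ℝ) / 100 = (45 + (w.c : ℝ)) / 100 by ring,
      show (9 : ℝ) / 20 - (u.c : ℝ) / 100 = (45 - (u.c : ℝ)) / 100 by ring,
      show (9 : ℝ) / 20 = 45 / 100 by norm_num]
    linarith
  · exfalso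
    simp only [w0E, E.val, NumIs.lkR] at hp
    push_cast at hp
    linarith
  · exfalso
    simp only [w1E, E.val, NumIs.lkR] at hp
    push_cast at hp
    linarith

end L2

end TL

end Pool.Agent.Work.MP_b30479_gtS.G2

end

section

/-!
# Tails, interior three with its inner variable in the tail: the slot `2`, certificates

Variables `w`, `t`, `X`, `Y`.
-/

end

section

/-!
# Tails, interior three with its inner variable in the tail: the slot `2`
-/

set_option linter.unusedVariables false
set_option linter.unusedSimpArgs false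
set_option linter.unusedTactic false
set_option linter.unreachableTactic false

set_option deprecated.oldSectionVars true

namespace Pool.Agent.Work.MP_b30479_gtS.G2

open VOL SR NumUs

namespace TL

namespace L2

section
open NumUs.E
open NumIs (V)

/-- 1 boxes -/
theorem h_two_a {w : ℝ}
    (a0 : 0 / 10000 ≤ w) (b0 : w ≤ 200 / 10000)
    (g0 : uu (1 / 50) 0 * 3 - uu (w + 4 / 5) 0 + uu (4 / 5) 0 + (53 / 625 - 37 / 250 * w) -
        (-(941 / 2500)) ≤ 0) : False := by
  have h : chk [(.sub (.add (.add (.sub (.mul (.uu (.q 1 50) (.q 0 1)) (.q 3 1)) (.uu (.add (.var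
      0) (.q 4 5)) (.q 0 1))) (.uu (.q 4 5) (.q 0 1))) (.sub (.q 53 625) (.mul (.q 37 250) (.var
      0)))) (.q (-941) 2500))] 40
      [V.of 10000 0 200 0] = true := by
    decide +kernel
  obtain ⟨e, he, hp⟩ := chk1 h (by norm_num) (x := w)
    (le_trans (by norm_num) a0) (le_trans b0 (by norm_num))
  simp only [List.mem_singleton] at he
  subst he
  all_goals
    simp only [E.val, NumIs.lkR] at hp
    push_cast at hp
    try simp only [zero_div, div_one] at hp
    linarith

/-- 11 boxes -/
theorem h_two_b {w : ℝ}
    (a0 : 200 / 10000 ≤ w) (b0 : w ≤ 1900 / 10000)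
    (g0 : uu w 0 * 3 - uu (w + 4 / 5) 0 + uu (4 / 5) 0 + (53 / 625 - 37 / 250 * w) - (-(941 /
        2500)) ≤ 0) : False := by
  have h : chk [(.sub (.add (.add (.sub (.mul (.uu (.var 0) (.q 0 1)) (.q 3 1)) (.uu (.add (.var
      0) (.q 4 5)) (.q 0 1))) (.uu (.q 4 5) (.q 0 1))) (.sub (.q 53 625) (.mul (.q 37 250) (.var
      0)))) (.q (-941) 2500))] 40
      [V.of 10000 200 1900 0] = true := by
    decide +kernel
  obtain ⟨e, he, hp⟩ := chk1 h (by norm_num) (x := w)
    (le_trans (by norm_num) a0) (le_trans b0 (by norm_num))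
  simp only [List.mem_singleton] at he
  subst he
  all_goals
    simp only [E.val, NumIs.lkR] at hp
    push_cast at hp
    try simp only [zero_div, div_one] at hp
    linarith

/-- 1 boxes -/
theorem h_two_c {w : ℝ}
    (a0 : 1900 / 10000 ≤ w) (b0 : w ≤ 2000 / 10000)
    (g0 : uu w 0 * 3 - uu (99 / 100) 0 + uu (4 / 5) 0 + (53 / 625 - 37 / 250 * w) - (-(941 /
        2500)) ≤ 0) : False := by
  have h : chk [(.sub (.add (.add (.sub (.mul (.uu (.var 0) (.q 0 1)) (.q 3 1)) (.uu (.q 99 100)
      (.q 0 1))) (.uu (.q 4 5) (.q 0 1))) (.sub (.q 53 625) (.mul (.q 37 250) (.var 0)))) (.q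
      (-941) 2500))] 40
      [V.of 10000 1900 2000 0] = true := by
    decide +kernel
  obtain ⟨e, he, hp⟩ := chk1 h (by norm_num) (x := w)
    (le_trans (by norm_num) a0) (le_trans b0 (by norm_num))
  simp only [List.mem_singleton] at he
  subst he
  all_goals
    simp only [E.val, NumIs.lkR] at hp
    push_cast at hp
    try simp only [zero_div, div_one] at hp
    linarith

/-- 1 boxes -/
theorem h_twoE_a {w : ℝ}
    (a0 : 0 / 10000 ≤ w) (b0 : w ≤ 200 / 10000)
    (g0 : uu (1 / 50) 0 * 3 - uu (w + 4 / 5) 0 + uu (4 / 5) 0 + (309 / 2000 - 0 * w) - (-(1439 /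
        5000)) ≤ 0) : False := by
  have h : chk [(.sub (.add (.add (.sub (.mul (.uu (.q 1 50) (.q 0 1)) (.q 3 1)) (.uu (.add (.var
      0) (.q 4 5)) (.q 0 1))) (.uu (.q 4 5) (.q 0 1))) (.sub (.q 309 2000) (.mul (.q 0 1) (.var
      0)))) (.q (-1439) 5000))] 40
      [V.of 10000 0 200 0] = true := by
    decide +kernel
  obtain ⟨e, he, hp⟩ := chk1 h (by norm_num) (x := w)
    (le_trans (by norm_num) a0) (le_trans b0 (by norm_num))
  simp only [List.mem_singleton] at he
  subst he
  all_goals
    simp only [E.val, NumIs.lkR] at hp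
    push_cast at hp
    try simp only [zero_div, div_one] at hp
    linarith

/-- 11 boxes -/
theorem h_twoE_b {w : ℝ}
    (a0 : 200 / 10000 ≤ w) (b0 : w ≤ 1900 / 10000)
    (g0 : uu w 0 * 3 - uu (w + 4 / 5) 0 + uu (4 / 5) 0 + (309 / 2000 - 0 * w) - (-(1439 / 5000))
        ≤ 0) : False := by
  have h : chk [(.sub (.add (.add (.sub (.mul (.uu (.var 0) (.q 0 1)) (.q 3 1)) (.uu (.add (.var
      0) (.q 4 5)) (.q 0 1))) (.uu (.q 4 5) (.q 0 1))) (.sub (.q 309 2000) (.mul (.q 0 1) (.var
      0)))) (.q (-1439) 5000))] 40
      [V.of 10000 200 1900 0] = true := by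
    decide +kernel
  obtain ⟨e, he, hp⟩ := chk1 h (by norm_num) (x := w)
    (le_trans (by norm_num) a0) (le_trans b0 (by norm_num))
  simp only [List.mem_singleton] at he
  subst he
  all_goals
    simp only [E.val, NumIs.lkR] at hp
    push_cast at hp
    try simp only [zero_div, div_one] at hp
    linarith

/-- 1 boxes -/
theorem h_twoE_c {w : ℝ}
    (a0 : 1900 / 10000 ≤ w) (b0 : w ≤ 2000 / 10000)
    (g0 : uu w 0 * 3 - uu (99 / 100) 0 + uu (4 / 5) 0 + (309 / 2000 - 0 * w) - (-(1439 / 5000)) ≤
        0) : False := by
  have h : chk [(.sub (.add (.add (.sub (.mul (.uu (.var 0) (.q 0 1)) (.q 3 1)) (.uu (.q 99 100)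
      (.q 0 1))) (.uu (.q 4 5) (.q 0 1))) (.sub (.q 309 2000) (.mul (.q 0 1) (.var 0)))) (.q
      (-1439) 5000))] 40
      [V.of 10000 1900 2000 0] = true := by
    decide +kernel
  obtain ⟨e, he, hp⟩ := chk1 h (by norm_num) (x := w)
    (le_trans (by norm_num) a0) (le_trans b0 (by norm_num))
  simp only [List.mem_singleton] at he
  subst he
  all_goals
    simp only [E.val, NumIs.lkR] at hp
    push_cast at hp
    try simp only [zero_div, div_one] at hp
    linarith

/-- 1 boxes -/
theorem h_tAa_a {w : ℝ}
    (a0 : 0 / 10000 ≤ w) (b0 : w ≤ 200 / 10000)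
    (g0 : uu (1 / 50) 0 * 3 - uu (w + 4 / 5) 0 + uu (4 / 5) 0 + (62 / 625 - 227 / 1000 * w) -
        (-(931 / 2500)) ≤ 0) : False := by
  have h : chk [(.sub (.add (.add (.sub (.mul (.uu (.q 1 50) (.q 0 1)) (.q 3 1)) (.uu (.add (.var
      0) (.q 4 5)) (.q 0 1))) (.uu (.q 4 5) (.q 0 1))) (.sub (.q 62 625) (.mul (.q 227 1000)
      (.var 0)))) (.q (-931) 2500))] 40
      [V.of 10000 0 200 0] = true := by
    decide +kernel
  obtain ⟨e, he, hp⟩ := chk1 h (by norm_num) (x := w)
    (le_trans (by norm_num) a0) (le_trans b0 (by norm_num))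
  simp only [List.mem_singleton] at he
  subst he
  all_goals
    simp only [E.val, NumIs.lkR] at hp
    push_cast at hp
    try simp only [zero_div, div_one] at hp
    linarith

/-- 11 boxes -/
theorem h_tAa_b {w : ℝ}
    (a0 : 200 / 10000 ≤ w) (b0 : w ≤ 1600 / 10000)
    (g0 : uu w 0 * 3 - uu (w + 4 / 5) 0 + uu (4 / 5) 0 + (62 / 625 - 227 / 1000 * w) - (-(931 /
        2500)) ≤ 0) : False := by
  have h : chk [(.sub (.add (.add (.sub (.mul (.uu (.var 0) (.q 0 1)) (.q 3 1)) (.uu (.add (.var
      0) (.q 4 5)) (.q 0 1))) (.uu (.q 4 5) (.q 0 1))) (.sub (.q 62 625) (.mul (.q 227 1000)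
      (.var 0)))) (.q (-931) 2500))] 40
      [V.of 10000 200 1600 0] = true := by
    decide +kernel
  obtain ⟨e, he, hp⟩ := chk1 h (by norm_num) (x := w)
    (le_trans (by norm_num) a0) (le_trans b0 (by norm_num))
  simp only [List.mem_singleton] at he
  subst he
  all_goals
    simp only [E.val, NumIs.lkR] at hp
    push_cast at hp
    try simp only [zero_div, div_one] at hp
    linarith

/-- 4 boxes -/
theorem h_tAb_b {w : ℝ}
    (a0 : 1600 / 10000 ≤ w) (b0 : w ≤ 1900 / 10000)
    (g0 : uu w 0 * 3 - uu (w + 4 / 5) 0 + uu (4 / 5) 0 + (1289 / 5000 - 553 / 500 * w) - (-(851 /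
        2500)) ≤ 0) : False := by
  have h : chk [(.sub (.add (.add (.sub (.mul (.uu (.var 0) (.q 0 1)) (.q 3 1)) (.uu (.add (.var
      0) (.q 4 5)) (.q 0 1))) (.uu (.q 4 5) (.q 0 1))) (.sub (.q 1289 5000) (.mul (.q 553 500)
      (.var 0)))) (.q (-851) 2500))] 40
      [V.of 10000 1600 1900 0] = true := by
    decide +kernel
  obtain ⟨e, he, hp⟩ := chk1 h (by norm_num) (x := w)
    (le_trans (by norm_num) a0) (le_trans b0 (by norm_num))
  simp only [List.mem_singleton] at he
  subst he
  all_goals
    simp only [E.val, NumIs.lkR] at hp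
    push_cast at hp
    try simp only [zero_div, div_one] at hp
    linarith

/-- 1 boxes -/
theorem h_tAb_c {w : ℝ}
    (a0 : 1900 / 10000 ≤ w) (b0 : w ≤ 2000 / 10000)
    (g0 : uu w 0 * 3 - uu (99 / 100) 0 + uu (4 / 5) 0 + (1289 / 5000 - 553 / 500 * w) - (-(851 /
        2500)) ≤ 0) : False := by
  have h : chk [(.sub (.add (.add (.sub (.mul (.uu (.var 0) (.q 0 1)) (.q 3 1)) (.uu (.q 99 100)
      (.q 0 1))) (.uu (.q 4 5) (.q 0 1))) (.sub (.q 1289 5000) (.mul (.q 553 500) (.var 0)))) (.q
      (-851) 2500))] 40
      [V.of 10000 1900 2000 0] = true := by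
    decide +kernel
  obtain ⟨e, he, hp⟩ := chk1 h (by norm_num) (x := w)
    (le_trans (by norm_num) a0) (le_trans b0 (by norm_num))
  simp only [List.mem_singleton] at he
  subst he
  all_goals
    simp only [E.val, NumIs.lkR] at hp
    push_cast at hp
    try simp only [zero_div, div_one] at hp
    linarith

/-- 1 boxes -/
theorem h_tE_a {w : ℝ}
    (a0 : 0 / 10000 ≤ w) (b0 : w ≤ 200 / 10000)
    (g0 : uu (1 / 50) 0 * 3 - uu (w + 4 / 5) 0 + uu (4 / 5) 0 + (269 / 2000 - 0 * w) - (-(1539 /
        5000)) ≤ 0) : False := by
  have h : chk [(.sub (.add (.add (.sub (.mul (.uu (.q 1 50) (.q 0 1)) (.q 3 1)) (.uu (.add (.var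
      0) (.q 4 5)) (.q 0 1))) (.uu (.q 4 5) (.q 0 1))) (.sub (.q 269 2000) (.mul (.q 0 1) (.var
      0)))) (.q (-1539) 5000))] 40
      [V.of 10000 0 200 0] = true := by
    decide +kernel
  obtain ⟨e, he, hp⟩ := chk1 h (by norm_num) (x := w)
    (le_trans (by norm_num) a0) (le_trans b0 (by norm_num))
  simp only [List.mem_singleton] at he
  subst he
  all_goals
    simp only [E.val, NumIs.lkR] at hp
    push_cast at hp
    try simp only [zero_div, div_one] at hp
    linarith

/-- 11 boxes -/
theorem h_tE_b {w : ℝ}
    (a0 : 200 / 10000 ≤ w) (b0 : w ≤ 1900 / 10000)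
    (g0 : uu w 0 * 3 - uu (w + 4 / 5) 0 + uu (4 / 5) 0 + (269 / 2000 - 0 * w) - (-(1539 / 5000))
        ≤ 0) : False := by
  have h : chk [(.sub (.add (.add (.sub (.mul (.uu (.var 0) (.q 0 1)) (.q 3 1)) (.uu (.add (.var
      0) (.q 4 5)) (.q 0 1))) (.uu (.q 4 5) (.q 0 1))) (.sub (.q 269 2000) (.mul (.q 0 1) (.var
      0)))) (.q (-1539) 5000))] 40
      [V.of 10000 200 1900 0] = true := by
    decide +kernel
  obtain ⟨e, he, hp⟩ := chk1 h (by norm_num) (x := w)
    (le_trans (by norm_num) a0) (le_trans b0 (by norm_num))
  simp only [List.mem_singleton] at he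
  subst he
  all_goals
    simp only [E.val, NumIs.lkR] at hp
    push_cast at hp
    try simp only [zero_div, div_one] at hp
    linarith

/-- 1 boxes -/
theorem h_tE_c {w : ℝ}
    (a0 : 1900 / 10000 ≤ w) (b0 : w ≤ 2000 / 10000)
    (g0 : uu w 0 * 3 - uu (99 / 100) 0 + uu (4 / 5) 0 + (269 / 2000 - 0 * w) - (-(1539 / 5000)) ≤
        0) : False := by
  have h : chk [(.sub (.add (.add (.sub (.mul (.uu (.var 0) (.q 0 1)) (.q 3 1)) (.uu (.q 99 100)
      (.q 0 1))) (.uu (.q 4 5) (.q 0 1))) (.sub (.q 269 2000) (.mul (.q 0 1) (.var 0)))) (.q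
      (-1539) 5000))] 40
      [V.of 10000 1900 2000 0] = true := by
    decide +kernel
  obtain ⟨e, he, hp⟩ := chk1 h (by norm_num) (x := w)
    (le_trans (by norm_num) a0) (le_trans b0 (by norm_num))
  simp only [List.mem_singleton] at he
  subst he
  all_goals
    simp only [E.val, NumIs.lkR] at hp
    push_cast at hp
    try simp only [zero_div, div_one] at hp
    linarith

/-- 1 boxes -/
theorem h_ra_a {w : ℝ}
    (a0 : 0 / 10000 ≤ w) (b0 : w ≤ 200 / 10000)
    (g0 : uu (1 / 50) 0 * 3 - uu (w + 4 / 5) 0 + uu (4 / 5) 0 + ((-(67 / 1250)) - (-(543 / 1000))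
        * w) - (-(863 / 2000)) ≤ 0) : False := by
  have h : chk [(.sub (.add (.add (.sub (.mul (.uu (.q 1 50) (.q 0 1)) (.q 3 1)) (.uu (.add (.var
      0) (.q 4 5)) (.q 0 1))) (.uu (.q 4 5) (.q 0 1))) (.sub (.q (-67) 1250) (.mul (.q (-543)
      1000) (.var 0)))) (.q (-863) 2000))] 40
      [V.of 10000 0 200 0] = true := by
    decide +kernel
  obtain ⟨e, he, hp⟩ := chk1 h (by norm_num) (x := w)
    (le_trans (by norm_num) a0) (le_trans b0 (by norm_num))
  simp only [List.mem_singleton] at he
  subst he
  all_goals
    simp only [E.val, NumIs.lkR] at hp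
    push_cast at hp
    try simp only [zero_div, div_one] at hp
    linarith

/-- 8 boxes -/
theorem h_ra_b {w : ℝ}
    (a0 : 200 / 10000 ≤ w) (b0 : w ≤ 1400 / 10000)
    (g0 : uu w 0 * 3 - uu (w + 4 / 5) 0 + uu (4 / 5) 0 + ((-(67 / 1250)) - (-(543 / 1000)) * w) -
        (-(863 / 2000)) ≤ 0) : False := by
  have h : chk [(.sub (.add (.add (.sub (.mul (.uu (.var 0) (.q 0 1)) (.q 3 1)) (.uu (.add (.var
      0) (.q 4 5)) (.q 0 1))) (.uu (.q 4 5) (.q 0 1))) (.sub (.q (-67) 1250) (.mul (.q (-543)
      1000) (.var 0)))) (.q (-863) 2000))] 40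
      [V.of 10000 200 1400 0] = true := by
    decide +kernel
  obtain ⟨e, he, hp⟩ := chk1 h (by norm_num) (x := w)
    (le_trans (by norm_num) a0) (le_trans b0 (by norm_num))
  simp only [List.mem_singleton] at he
  subst he
  all_goals
    simp only [E.val, NumIs.lkR] at hp
    push_cast at hp
    try simp only [zero_div, div_one] at hp
    linarith

/-- 6 boxes -/
theorem h_rb_b {w : ℝ}
    (a0 : 1400 / 10000 ≤ w) (b0 : w ≤ 1900 / 10000)
    (g0 : uu w 0 * 3 - uu (w + 4 / 5) 0 + uu (4 / 5) 0 + (1291 / 10000 - 18 / 25 * w) - (-(257 /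
        625)) ≤ 0) : False := by
  have h : chk [(.sub (.add (.add (.sub (.mul (.uu (.var 0) (.q 0 1)) (.q 3 1)) (.uu (.add (.var
      0) (.q 4 5)) (.q 0 1))) (.uu (.q 4 5) (.q 0 1))) (.sub (.q 1291 10000) (.mul (.q 18 25)
      (.var 0)))) (.q (-257) 625))] 40
      [V.of 10000 1400 1900 0] = true := by
    decide +kernel
  obtain ⟨e, he, hp⟩ := chk1 h (by norm_num) (x := w)
    (le_trans (by norm_num) a0) (le_trans b0 (by norm_num))
  simp only [List.mem_singleton] at he
  subst he
  all_goals
    simp only [E.val, NumIs.lkR] at hp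
    push_cast at hp
    try simp only [zero_div, div_one] at hp
    linarith

/-- 1 boxes -/
theorem h_rb_c {w : ℝ}
    (a0 : 1900 / 10000 ≤ w) (b0 : w ≤ 2000 / 10000)
    (g0 : uu w 0 * 3 - uu (99 / 100) 0 + uu (4 / 5) 0 + (1291 / 10000 - 18 / 25 * w) - (-(257 /
        625)) ≤ 0) : False := by
  have h : chk [(.sub (.add (.add (.sub (.mul (.uu (.var 0) (.q 0 1)) (.q 3 1)) (.uu (.q 99 100)
      (.q 0 1))) (.uu (.q 4 5) (.q 0 1))) (.sub (.q 1291 10000) (.mul (.q 18 25) (.var 0)))) (.q
      (-257) 625))] 40
      [V.of 10000 1900 2000 0] = true := by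
    decide +kernel
  obtain ⟨e, he, hp⟩ := chk1 h (by norm_num) (x := w)
    (le_trans (by norm_num) a0) (le_trans b0 (by norm_num))
  simp only [List.mem_singleton] at he
  subst he
  all_goals
    simp only [E.val, NumIs.lkR] at hp
    push_cast at hp
    try simp only [zero_div, div_one] at hp
    linarith

/-- 1 boxes -/
theorem h_to_a {w : ℝ}
    (a0 : 0 / 10000 ≤ w) (b0 : w ≤ 200 / 10000)
    (g0 : uu (1 / 50) 0 * 2 - uu (w + 4 / 5) 0 + uu (4 / 5) 0 + (0 - 0 * w) - (-(2869 / 10000)) ≤
        0) : False := by
  have h : chk [(.sub (.add (.add (.sub (.mul (.uu (.q 1 50) (.q 0 1)) (.q 2 1)) (.uu (.add (.var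
      0) (.q 4 5)) (.q 0 1))) (.uu (.q 4 5) (.q 0 1))) (.sub (.q 0 1) (.mul (.q 0 1) (.var 0))))
      (.q (-2869) 10000))] 40
      [V.of 10000 0 200 0] = true := by
    decide +kernel
  obtain ⟨e, he, hp⟩ := chk1 h (by norm_num) (x := w)
    (le_trans (by norm_num) a0) (le_trans b0 (by norm_num))
  simp only [List.mem_singleton] at he
  subst he
  all_goals
    simp only [E.val, NumIs.lkR] at hp
    push_cast at hp
    try simp only [zero_div, div_one] at hp
    linarith

/-- 12 boxes -/
theorem h_to_b {w : ℝ}
    (a0 : 200 / 10000 ≤ w) (b0 : w ≤ 1900 / 10000)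
    (g0 : uu w 0 * 2 - uu (w + 4 / 5) 0 + uu (4 / 5) 0 + (0 - 0 * w) - (-(2869 / 10000)) ≤ 0) :
        False := by
  have h : chk [(.sub (.add (.add (.sub (.mul (.uu (.var 0) (.q 0 1)) (.q 2 1)) (.uu (.add (.var
      0) (.q 4 5)) (.q 0 1))) (.uu (.q 4 5) (.q 0 1))) (.sub (.q 0 1) (.mul (.q 0 1) (.var 0))))
      (.q (-2869) 10000))] 40
      [V.of 10000 200 1900 0] = true := by
    decide +kernel
  obtain ⟨e, he, hp⟩ := chk1 h (by norm_num) (x := w)
    (le_trans (by norm_num) a0) (le_trans b0 (by norm_num))
  simp only [List.mem_singleton] at he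
  subst he
  all_goals
    simp only [E.val, NumIs.lkR] at hp
    push_cast at hp
    try simp only [zero_div, div_one] at hp
    linarith

/-- 1 boxes -/
theorem h_to_c {w : ℝ}
    (a0 : 1900 / 10000 ≤ w) (b0 : w ≤ 2000 / 10000)
    (g0 : uu w 0 * 2 - uu (99 / 100) 0 + uu (4 / 5) 0 + (0 - 0 * w) - (-(2869 / 10000)) ≤ 0) :
        False := by
  have h : chk [(.sub (.add (.add (.sub (.mul (.uu (.var 0) (.q 0 1)) (.q 2 1)) (.uu (.q 99 100)
      (.q 0 1))) (.uu (.q 4 5) (.q 0 1))) (.sub (.q 0 1) (.mul (.q 0 1) (.var 0)))) (.q (-2869)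
      10000))] 40
      [V.of 10000 1900 2000 0] = true := by
    decide +kernel
  obtain ⟨e, he, hp⟩ := chk1 h (by norm_num) (x := w)
    (le_trans (by norm_num) a0) (le_trans b0 (by norm_num))
  simp only [List.mem_singleton] at he
  subst he
  all_goals
    simp only [E.val, NumIs.lkR] at hp
    push_cast at hp
    try simp only [zero_div, div_one] at hp
    linarith

end


/-! ### one variable -/

theorem near99 {w : ℝ} (h0 : 19 / 100 ≤ w) (h1 : w ≤ 2 / 10) : uu (w + 4 / 5) 0 ≤ uu (99 / 100) 0 :=
  E1.anti1 (by norm_num) (by linarith) (by linarith) (by norm_num)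

theorem near98 {w : ℝ} (h0 : 18 / 100 ≤ w) (h1 : w ≤ 2 / 10) : uu (w + 4 / 5) 0 ≤ uu (49 / 50) 0 :=
  E1.anti1 (by norm_num) (by linarith) (by linarith) (by norm_num)

theorem near2 {w : ℝ} (h0 : 0 ≤ w) (h1 : w ≤ 2 / 100) : uu (1 / 50) 0 ≤ uu w 0 := by
  have := E1.W_v h0 h1
  rwa [show (2 : ℝ) / 100 = 1 / 50 by norm_num] at this

theorem H_two {w : ℝ} (h0 : 0 / 10000 ≤ w) (h1 : w ≤ 2000 / 10000) :
    -(941 / 2500) ≤ 3 * uu w 0 - uu (w + 4 / 5) 0 + uu (4 / 5) 0 + 53 / 625 - 37 / 250 * w := by
  by_contra hc
  rw [not_le] at hc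
  rcases le_total w (2 / 100) with hw | hw
  · have h2 := near2 (by linarith) hw
    exact h_two_a (w := w) (by linarith) (by linarith) (by linarith)
  rcases le_total w (19 / 100) with hw2 | hw2
  · exact h_two_b (w := w) (by linarith) (by linarith) (by linarith)
  · have h2 := near99 hw2 (by linarith)
    exact h_two_c (w := w) (by linarith) (by linarith) (by linarith)

theorem H_twoE {w : ℝ} (h0 : 0 / 10000 ≤ w) (h1 : w ≤ 2000 / 10000) :
    -(1439 / 5000) ≤ 3 * uu w 0 - uu (w + 4 / 5) 0 + uu (4 / 5) 0 + 309 / 2000 := by
  by_contra hc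
  rw [not_le] at hc
  rcases le_total w (2 / 100) with hw | hw
  · have h2 := near2 (by linarith) hw
    exact h_twoE_a (w := w) (by linarith) (by linarith) (by linarith)
  rcases le_total w (19 / 100) with hw2 | hw2
  · exact h_twoE_b (w := w) (by linarith) (by linarith) (by linarith)
  · have h2 := near99 hw2 (by linarith)
    exact h_twoE_c (w := w) (by linarith) (by linarith) (by linarith)

theorem H_tAa {w : ℝ} (h0 : 0 / 10000 ≤ w) (h1 : w ≤ 1600 / 10000) :
    -(931 / 2500) ≤ 3 * uu w 0 - uu (w + 4 / 5) 0 + uu (4 / 5) 0 + 62 / 625 - 227 / 1000 * w := by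
  by_contra hc
  rw [not_le] at hc
  rcases le_total w (2 / 100) with hw | hw
  · have h2 := near2 (by linarith) hw
    exact h_tAa_a (w := w) (by linarith) (by linarith) (by linarith)
  exact h_tAa_b (w := w) (by linarith) (by linarith) (by linarith)

theorem H_tAb {w : ℝ} (h0 : 1600 / 10000 ≤ w) (h1 : w ≤ 2000 / 10000) :
    -(851 / 2500) ≤ 3 * uu w 0 - uu (w + 4 / 5) 0 + uu (4 / 5) 0 + 1289 / 5000 - 553 / 500 * w := by
  by_contra hc
  rw [not_le] at hc
  rcases le_total w (19 / 100) with hw2 | hw2
  · exact h_tAb_b (w := w) (by linarith) (by linarith) (by linarith)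
  · have h2 := near99 hw2 (by linarith)
    exact h_tAb_c (w := w) (by linarith) (by linarith) (by linarith)

theorem H_tE {w : ℝ} (h0 : 0 / 10000 ≤ w) (h1 : w ≤ 2000 / 10000) :
    -(1539 / 5000) ≤ 3 * uu w 0 - uu (w + 4 / 5) 0 + uu (4 / 5) 0 + 269 / 2000 := by
  by_contra hc
  rw [not_le] at hc
  rcases le_total w (2 / 100) with hw | hw
  · have h2 := near2 (by linarith) hw
    exact h_tE_a (w := w) (by linarith) (by linarith) (by linarith)
  rcases le_total w (19 / 100) with hw2 | hw2
  · exact h_tE_b (w := w) (by linarith) (by linarith) (by linarith)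
  · have h2 := near99 hw2 (by linarith)
    exact h_tE_c (w := w) (by linarith) (by linarith) (by linarith)

theorem H_ra {w : ℝ} (h0 : 0 / 10000 ≤ w) (h1 : w ≤ 1400 / 10000) :
    -(863 / 2000) ≤ 3 * uu w 0 - uu (w + 4 / 5) 0 + uu (4 / 5) 0 - 67 / 1250 + 543 / 1000 * w := by
  by_contra hc
  rw [not_le] at hc
  rcases le_total w (2 / 100) with hw | hw
  · have h2 := near2 (by linarith) hw
    exact h_ra_a (w := w) (by linarith) (by linarith) (by linarith)
  exact h_ra_b (w := w) (by linarith) (by linarith) (by linarith)

theorem H_rb {w : ℝ} (h0 : 1400 / 10000 ≤ w) (h1 : w ≤ 2000 / 10000) :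
    -(257 / 625) ≤ 3 * uu w 0 - uu (w + 4 / 5) 0 + uu (4 / 5) 0 + 1291 / 10000 - 18 / 25 * w := by
  by_contra hc
  rw [not_le] at hc
  rcases le_total w (19 / 100) with hw2 | hw2
  · exact h_rb_b (w := w) (by linarith) (by linarith) (by linarith)
  · have h2 := near99 hw2 (by linarith)
    exact h_rb_c (w := w) (by linarith) (by linarith) (by linarith)

theorem H_to {w : ℝ} (h0 : 0 / 10000 ≤ w) (h1 : w ≤ 2000 / 10000) :
    -(2869 / 10000) ≤ 2 * uu w 0 - uu (w + 4 / 5) 0 + uu (4 / 5) 0 := by
  by_contra hc
  rw [not_le] at hc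
  rcases le_total w (2 / 100) with hw | hw
  · have h2 := near2 (by linarith) hw
    exact h_to_a (w := w) (by linarith) (by linarith) (by linarith)
  rcases le_total w (19 / 100) with hw2 | hw2
  · exact h_to_b (w := w) (by linarith) (by linarith) (by linarith)
  · have h2 := near99 hw2 (by linarith)
    exact h_to_c (w := w) (by linarith) (by linarith) (by linarith)

/-! ### class one -/

theorem Pw_eq (w t X Y : ℝ) : V1 ⟨21 / 100, t⟩ ⟨X, Y⟩ - V1 ⟨w, 0⟩ ⟨X, Y⟩ =
    Real.pi * ((21 / 100 - w) * Y + t * X - t) + uu (21 / 100 + X) (t + Y) - uu (21 / 100) t +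
      (-uu (w + X) Y) + uu w 0 := by
  rw [V1_uu, V1_uu, zero_add]
  ring

/-- the part of the slot `2` -/
noncomputable def PW (G w : ℝ) : ℝ := G + 2 * uu w 0 - uu (w + 4 / 5) 0 + uu (4 / 5) 0

theorem uu_ge_add (x y : ℝ) : uu (x - 1) y + Real.pi * y ≤ uu x y ∧
    uu (x - 1) y - Real.pi * y ≤ uu x y := by
  have e := uu_add_one (x - 1) y
  rw [sub_add_cancel] at e
  have hp := Real.pi_pos
  have h2 := mul_le_mul_of_nonneg_left (le_abs_self y) hp.le
  have h3 := mul_le_mul_of_nonneg_left (neg_le_abs y) hp.le
  constructor <;> linarith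

theorem pw_two {w t X Y : ℝ} (h0 : 0 ≤ w) (h1 : w ≤ 2 / 10) (t0 : 46 / 1000 ≤ t)
    (t1 : t ≤ 94 / 1000) (x0 : 0 ≤ X) (x1 : X ≤ 8 / 10) (y0 : 0 ≤ Y) (y1 : Y ≤ 77 / 1000)
    (c1 : 16 / 100 * Y ≤ 77 / 1000 * X) (c2 : 29 / 100 * Y ≤ 77 / 1000 * (8 / 10 - X)) :
    -(2911 / 10000) - 3142 / 1000 * t ≤ PW (V1 ⟨21 / 100, t⟩ ⟨X, Y⟩ - V1 ⟨w, 0⟩ ⟨X, Y⟩) w := by
  unfold PW
  rw [Pw_eq]
  by_contra hc
  rw [not_le] at hc
  rcases le_total X (7850 / 10000) with hx | hx
  · rcases le_total w (2 / 100) with hw | hw
    · have hW := near2 h0 hw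
      rcases le_total X (14 / 100) with hx2 | hx2
      · have hS := E1.W_lo (w := w) (s := w + X) (Y := Y) h0 (by linarith) (by linarith)
        exact w_two_E (w := w) (t := t) (X := X) (Y := Y)
          (by first | (refine le_trans ?_ hw; norm_num; done) | (refine le_trans ?_ h0; norm_num; done) | linarith)
          (by first | (refine le_trans hw ?_; norm_num; done) | (refine le_trans h1 ?_; norm_num; done) | linarith)
          (by first | (refine le_trans ?_ t0; norm_num; done) | linarith)
          (by first | (refine le_trans t1 ?_; norm_num; done) | linarith)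
          (by first | (refine le_trans ?_ hx; norm_num; done) | (refine le_trans ?_ hx2; norm_num; done) | (refine le_trans ?_ x0; norm_num; done) | linarith)
          (by first | (refine le_trans hx ?_; norm_num; done) | (refine le_trans hx2 ?_; norm_num; done) | (refine le_trans x1 ?_; norm_num; done) | linarith)
          (by first | linarith only [y0, y1] | linarith)
          (by first | linarith only [y0, y1] | linarith)
          (by first | linarith only [c1] | linarith only [c2] | linarith)
          (by first | linarith only [c1] | linarith only [c2] | linarith)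
          (by first | linarith only [hc, hW, hS] | linarith)
      · exact w_two_C1 (w := w) (t := t) (X := X) (Y := Y)
          (by first | (refine le_trans ?_ hw; norm_num; done) | (refine le_trans ?_ h0; norm_num; done) | linarith)
          (by first | (refine le_trans hw ?_; norm_num; done) | (refine le_trans h1 ?_; norm_num; done) | linarith)
          (by first | (refine le_trans ?_ t0; norm_num; done) | linarith)
          (by first | (refine le_trans t1 ?_; norm_num; done) | linarith)
          (by first | (refine le_trans ?_ hx; norm_num; done) | (refine le_trans ?_ hx2; norm_num; done) | (refine le_trans ?_ x0; norm_num; done) | linarith)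
          (by first | (refine le_trans hx ?_; norm_num; done) | (refine le_trans hx2 ?_; norm_num; done) | (refine le_trans x1 ?_; norm_num; done) | linarith)
          (by first | linarith only [y0, y1] | linarith)
          (by first | linarith only [y0, y1] | linarith)
          (by first | linarith only [c1] | linarith only [c2] | linarith)
          (by first | linarith only [c1] | linarith only [c2] | linarith)
          (by first | linarith only [hc, hW] | linarith)
    · rcases le_total w (18 / 100) with hw2 | hw2
      · exact w_two_A1 (w := w) (t := t) (X := X) (Y := Y)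
          (by first | (refine le_trans ?_ hw; norm_num; done) | (refine le_trans ?_ hw2; norm_num; done) | (refine le_trans ?_ h0; norm_num; done) | linarith)
          (by first | (refine le_trans hw ?_; norm_num; done) | (refine le_trans hw2 ?_; norm_num; done) | (refine le_trans h1 ?_; norm_num; done) | linarith)
          (by first | (refine le_trans ?_ t0; norm_num; done) | linarith)
          (by first | (refine le_trans t1 ?_; norm_num; done) | linarith)
          (by first | (refine le_trans ?_ hx; norm_num; done) | (refine le_trans ?_ x0; norm_num; done) | linarith)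
          (by first | (refine le_trans hx ?_; norm_num; done) | (refine le_trans x1 ?_; norm_num; done) | linarith)
          (by first | linarith only [y0, y1] | linarith)
          (by first | linarith only [y0, y1] | linarith)
          (by first | linarith only [c1] | linarith only [c2] | linarith)
          (by first | linarith only [c1] | linarith only [c2] | linarith)
          (by first | linarith only [hc] | linarith)
      · have hB := near98 hw2 h1
        exact w_two_B1 (w := w) (t := t) (X := X) (Y := Y)
          (by first | (refine le_trans ?_ hw; norm_num; done) | (refine le_trans ?_ hw2; norm_num; done) | (refine le_trans ?_ h0; norm_num; done) | linarith)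
          (by first | (refine le_trans hw ?_; norm_num; done) | (refine le_trans hw2 ?_; norm_num; done) | (refine le_trans h1 ?_; norm_num; done) | linarith)
          (by first | (refine le_trans ?_ t0; norm_num; done) | linarith)
          (by first | (refine le_trans t1 ?_; norm_num; done) | linarith)
          (by first | (refine le_trans ?_ hx; norm_num; done) | (refine le_trans ?_ x0; norm_num; done) | linarith)
          (by first | (refine le_trans hx ?_; norm_num; done) | (refine le_trans x1 ?_; norm_num; done) | linarith)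
          (by first | linarith only [y0, y1] | linarith)
          (by first | linarith only [y0, y1] | linarith)
          (by first | linarith only [c1] | linarith only [c2] | linarith)
          (by first | linarith only [c1] | linarith only [c2] | linarith)
          (by first | linarith only [hc, hB] | linarith)
  · obtain ⟨hU1, hU2⟩ := E1.U_d (x := 21 / 100 + X) (t := t + Y) (d := 1 / 100) (by linarith)
      (by linarith) (by norm_num) (by rw [abs_le]; constructor <;> linarith)
    rcases le_total w (2 / 100) with hw | hw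
    · have hW := near2 h0 hw
      exact w_two_C2 (w := w) (t := t) (X := X) (Y := Y)
        (by first | (refine le_trans ?_ hw; norm_num; done) | (refine le_trans ?_ h0; norm_num; done) | linarith)
        (by first | (refine le_trans hw ?_; norm_num; done) | (refine le_trans h1 ?_; norm_num; done) | linarith)
        (by first | (refine le_trans ?_ t0; norm_num; done) | linarith)
        (by first | (refine le_trans t1 ?_; norm_num; done) | linarith)
        (by first | (refine le_trans ?_ hx; norm_num; done) | (refine le_trans ?_ x0; norm_num; done) | linarith)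
        (by first | (refine le_trans hx ?_; norm_num; done) | (refine le_trans x1 ?_; norm_num; done) | linarith)
        (by first | linarith only [y0, y1] | linarith)
        (by first | linarith only [y0, y1] | linarith)
        (by first | linarith only [c1] | linarith only [c2] | linarith)
        (by first | linarith only [c1] | linarith only [c2] | linarith)
        (by first | linarith only [hc, hU1, hU2, hW] | linarith)
        (by first | linarith only [hc, hU1, hU2, hW] | linarith)
    · rcases le_total w (18 / 100) with hw2 | hw2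
      · exact w_two_A2 (w := w) (t := t) (X := X) (Y := Y)
          (by first | (refine le_trans ?_ hw; norm_num; done) | (refine le_trans ?_ hw2; norm_num; done) | (refine le_trans ?_ h0; norm_num; done) | linarith)
          (by first | (refine le_trans hw ?_; norm_num; done) | (refine le_trans hw2 ?_; norm_num; done) | (refine le_trans h1 ?_; norm_num; done) | linarith)
          (by first | (refine le_trans ?_ t0; norm_num; done) | linarith)
          (by first | (refine le_trans t1 ?_; norm_num; done) | linarith)
          (by first | (refine le_trans ?_ hx; norm_num; done) | (refine le_trans ?_ x0; norm_num; done) | linarith)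
          (by first | (refine le_trans hx ?_; norm_num; done) | (refine le_trans x1 ?_; norm_num; done) | linarith)
          (by first | linarith only [y0, y1] | linarith)
          (by first | linarith only [y0, y1] | linarith)
          (by first | linarith only [c1] | linarith only [c2] | linarith)
          (by first | linarith only [c1] | linarith only [c2] | linarith)
          (by first | linarith only [hc, hU1, hU2] | linarith)
          (by first | linarith only [hc, hU1, hU2] | linarith)
      · have hB := near98 hw2 h1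
        have hS := E1.S_b (s := w + X) (Y := Y) (d := 1 / 25) (by norm_num) (by linarith)
          (by linarith) (by rw [abs_le]; constructor <;> linarith)
        exact w_two_B2 (w := w) (t := t) (X := X) (Y := Y)
          (by first | (refine le_trans ?_ hw; norm_num; done) | (refine le_trans ?_ hw2; norm_num; done) | (refine le_trans ?_ h0; norm_num; done) | linarith)
          (by first | (refine le_trans hw ?_; norm_num; done) | (refine le_trans hw2 ?_; norm_num; done) | (refine le_trans h1 ?_; norm_num; done) | linarith)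
          (by first | (refine le_trans ?_ t0; norm_num; done) | linarith)
          (by first | (refine le_trans t1 ?_; norm_num; done) | linarith)
          (by first | (refine le_trans ?_ hx; norm_num; done) | (refine le_trans ?_ x0; norm_num; done) | linarith)
          (by first | (refine le_trans hx ?_; norm_num; done) | (refine le_trans x1 ?_; norm_num; done) | linarith)
          (by first | linarith only [y0, y1] | linarith)
          (by first | linarith only [y0, y1] | linarith)
          (by first | linarith only [c1] | linarith only [c2] | linarith)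
          (by first | linarith only [c1] | linarith only [c2] | linarith)
          (by first | linarith only [hc, hU1, hU2, hB, hS] | linarith)
          (by first | linarith only [hc, hU1, hU2, hB, hS] | linarith)

theorem pw_twoE {w t X Y : ℝ} (h0 : 0 ≤ w) (h1 : w ≤ 2 / 10) (t0 : 87 / 1000 ≤ t)
    (t1 : t ≤ 1145 / 10000) (x0 : 8 / 100 ≤ X) (x1 : X ≤ 7 / 10) (y0 : Y ≤ 0)
    (y1 : -(45 / 1000) ≤ Y) (c1 : 14 / 100 * (-Y) ≤ 45 / 1000 * X)
    (c2 : 35 / 100 * (-Y) ≤ 45 / 1000 * (7 / 10 - X)) :
    -(2705 / 10000) - 2721 / 1000 * t ≤ PW (V1 ⟨21 / 100, t⟩ ⟨X, Y⟩ - V1 ⟨w, 0⟩ ⟨X, Y⟩) w := by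
  unfold PW
  rw [Pw_eq]
  by_contra hc
  rw [not_le] at hc
  rcases le_total w (2 / 100) with hw | hw
  · have hW := near2 h0 hw
    rcases le_total X (14 / 100) with hx2 | hx2
    · have hS := E1.W_lo (w := w) (s := w + X) (Y := Y) h0 (by linarith) (by linarith)
      exact w_twoE_E (w := w) (t := t) (X := X) (Y := Y)
        (by first | (refine le_trans ?_ hw; norm_num; done) | (refine le_trans ?_ h0; norm_num; done) | linarith)
        (by first | (refine le_trans hw ?_; norm_num; done) | (refine le_trans h1 ?_; norm_num; done) | linarith)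
        (by first | (refine le_trans ?_ t0; norm_num; done) | linarith)
        (by first | (refine le_trans t1 ?_; norm_num; done) | linarith)
        (by first | (refine le_trans ?_ hx2; norm_num; done) | (refine le_trans ?_ x0; norm_num; done) | linarith)
        (by first | (refine le_trans hx2 ?_; norm_num; done) | (refine le_trans x1 ?_; norm_num; done) | linarith)
        (by first | linarith only [y0, y1] | linarith)
        (by first | linarith only [y0, y1] | linarith)
        (by first | linarith only [c1] | linarith only [c2] | linarith)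
        (by first | linarith only [c1] | linarith only [c2] | linarith)
        (by first | linarith only [hc, hW, hS] | linarith)
    · exact w_twoE_C1 (w := w) (t := t) (X := X) (Y := Y)
        (by first | (refine le_trans ?_ hw; norm_num; done) | (refine le_trans ?_ h0; norm_num; done) | linarith)
        (by first | (refine le_trans hw ?_; norm_num; done) | (refine le_trans h1 ?_; norm_num; done) | linarith)
        (by first | (refine le_trans ?_ t0; norm_num; done) | linarith)
        (by first | (refine le_trans t1 ?_; norm_num; done) | linarith)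
        (by first | (refine le_trans ?_ hx2; norm_num; done) | (refine le_trans ?_ x0; norm_num; done) | linarith)
        (by first | (refine le_trans hx2 ?_; norm_num; done) | (refine le_trans x1 ?_; norm_num; done) | linarith)
        (by first | linarith only [y0, y1] | linarith)
        (by first | linarith only [y0, y1] | linarith)
        (by first | linarith only [c1] | linarith only [c2] | linarith)
        (by first | linarith only [c1] | linarith only [c2] | linarith)
        (by first | linarith only [hc, hW] | linarith)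
  · rcases le_total w (18 / 100) with hw2 | hw2
    · exact w_twoE_A1 (w := w) (t := t) (X := X) (Y := Y)
        (by first | (refine le_trans ?_ hw; norm_num; done) | (refine le_trans ?_ hw2; norm_num; done) | (refine le_trans ?_ h0; norm_num; done) | linarith)
        (by first | (refine le_trans hw ?_; norm_num; done) | (refine le_trans hw2 ?_; norm_num; done) | (refine le_trans h1 ?_; norm_num; done) | linarith)
        (by first | (refine le_trans ?_ t0; norm_num; done) | linarith)
        (by first | (refine le_trans t1 ?_; norm_num; done) | linarith)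
        (by first | (refine le_trans ?_ x0; norm_num; done) | linarith)
        (by first | (refine le_trans x1 ?_; norm_num; done) | linarith)
        (by first | linarith only [y0, y1] | linarith)
        (by first | linarith only [y0, y1] | linarith)
        (by first | linarith only [c1] | linarith only [c2] | linarith)
        (by first | linarith only [c1] | linarith only [c2] | linarith)
        (by first | linarith only [hc] | linarith)
    · have hB := near98 hw2 h1
      exact w_twoE_B1 (w := w) (t := t) (X := X) (Y := Y)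
        (by first | (refine le_trans ?_ hw; norm_num; done) | (refine le_trans ?_ hw2; norm_num; done) | (refine le_trans ?_ h0; norm_num; done) | linarith)
        (by first | (refine le_trans hw ?_; norm_num; done) | (refine le_trans hw2 ?_; norm_num; done) | (refine le_trans h1 ?_; norm_num; done) | linarith)
        (by first | (refine le_trans ?_ t0; norm_num; done) | linarith)
        (by first | (refine le_trans t1 ?_; norm_num; done) | linarith)
        (by first | (refine le_trans ?_ x0; norm_num; done) | linarith)
        (by first | (refine le_trans x1 ?_; norm_num; done) | linarith)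
        (by first | linarith only [y0, y1] | linarith)
        (by first | linarith only [y0, y1] | linarith)
        (by first | linarith only [c1] | linarith only [c2] | linarith)
        (by first | linarith only [c1] | linarith only [c2] | linarith)
        (by first | linarith only [hc, hB] | linarith)

theorem pw_one {w t X Y : ℝ} (h0 : 0 ≤ w) (h1 : w ≤ 2 / 10) (t0 : 21 / 1000 ≤ t)
    (t1 : t ≤ 92 / 1000) (x0 : 0 ≤ X) (x1 : X ≤ 86 / 100) (y0 : -(91 / 1000) ≤ Y)
    (y1 : Y ≤ 49 / 1000) (c0 : 15 / 100 * Y ≤ 49 / 1000 * X)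
    (c1 : 20 / 100 * Y ≤ 49 / 1000 * (86 / 100 - X))
    (c2 : 15 / 100 * (-Y) ≤ (t + 22 / 1000) * X)
    (c3 : 20 / 100 * (-Y) ≤ (t + 22 / 1000) * (86 / 100 - X))
    (c4 : 15 / 100 * (-Y) ≤ 91 / 1000 * X) (c5 : 20 / 100 * (-Y) ≤ 91 / 1000 * (86 / 100 - X)) :
    -(4970 / 10000) + 1128 / 1000 * t ≤ PW (V1 ⟨21 / 100, t⟩ ⟨X, Y⟩ - V1 ⟨w, 0⟩ ⟨X, Y⟩) w ∨
    -(2935 / 10000) - 3142 / 1000 * t ≤ PW (V1 ⟨21 / 100, t⟩ ⟨X, Y⟩ - V1 ⟨w, 0⟩ ⟨X, Y⟩) w := by
  unfold PW
  rw [Pw_eq]
  by_contra hc
  obtain ⟨hc, hd⟩ := not_or.1 hc
  rw [not_le] at hc hd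
  rcases le_total X (7890 / 10000) with hx | hx
  · rcases le_total w (2 / 100) with hw | hw
    · have hW := near2 h0 hw
      rcases le_total X (14 / 100) with hx2 | hx2
      · have hS := E1.W_lo (w := w) (s := w + X) (Y := Y) h0 (by linarith) (by linarith)
        exact w_one_E (w := w) (t := t) (X := X) (Y := Y)
          (by first | (refine le_trans ?_ hw; norm_num; done) | (refine le_trans ?_ h0; norm_num; done) | linarith)
          (by first | (refine le_trans hw ?_; norm_num; done) | (refine le_trans h1 ?_; norm_num; done) | linarith)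
          (by first | (refine le_trans ?_ t0; norm_num; done) | linarith)
          (by first | (refine le_trans t1 ?_; norm_num; done) | linarith)
          (by first | (refine le_trans ?_ hx; norm_num; done) | (refine le_trans ?_ hx2; norm_num; done) | (refine le_trans ?_ x0; norm_num; done) | linarith)
          (by first | (refine le_trans hx ?_; norm_num; done) | (refine le_trans hx2 ?_; norm_num; done) | (refine le_trans x1 ?_; norm_num; done) | linarith)
          (by first | linarith only [y0, y1] | linarith)
          (by first | linarith only [y0, y1] | linarith)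
          (by first | linarith only [c0] | linarith only [c1] | linarith only [c2] | linarith only [c3] | linarith only [c4] | linarith only [c5] | linarith)
          (by first | linarith only [c0] | linarith only [c1] | linarith only [c2] | linarith only [c3] | linarith only [c4] | linarith only [c5] | linarith)
          (by first | linarith only [c0] | linarith only [c1] | linarith only [c2] | linarith only [c3] | linarith only [c4] | linarith only [c5] | linarith)
          (by first | linarith only [c0] | linarith only [c1] | linarith only [c2] | linarith only [c3] | linarith only [c4] | linarith only [c5] | linarith)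
          (by first | linarith only [c0] | linarith only [c1] | linarith only [c2] | linarith only [c3] | linarith only [c4] | linarith only [c5] | linarith)
          (by first | linarith only [c0] | linarith only [c1] | linarith only [c2] | linarith only [c3] | linarith only [c4] | linarith only [c5] | linarith)
          (by first | linarith only [hc, hW, hS] | linarith)
          (by first | linarith only [hd, hW, hS] | linarith)
      · exact w_one_C1 (w := w) (t := t) (X := X) (Y := Y)
          (by first | (refine le_trans ?_ hw; norm_num; done) | (refine le_trans ?_ h0; norm_num; done) | linarith)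
          (by first | (refine le_trans hw ?_; norm_num; done) | (refine le_trans h1 ?_; norm_num; done) | linarith)
          (by first | (refine le_trans ?_ t0; norm_num; done) | linarith)
          (by first | (refine le_trans t1 ?_; norm_num; done) | linarith)
          (by first | (refine le_trans ?_ hx; norm_num; done) | (refine le_trans ?_ hx2; norm_num; done) | (refine le_trans ?_ x0; norm_num; done) | linarith)
          (by first | (refine le_trans hx ?_; norm_num; done) | (refine le_trans hx2 ?_; norm_num; done) | (refine le_trans x1 ?_; norm_num; done) | linarith)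
          (by first | linarith only [y0, y1] | linarith)
          (by first | linarith only [y0, y1] | linarith)
          (by first | linarith only [c0] | linarith only [c1] | linarith only [c2] | linarith only [c3] | linarith only [c4] | linarith only [c5] | linarith)
          (by first | linarith only [c0] | linarith only [c1] | linarith only [c2] | linarith only [c3] | linarith only [c4] | linarith only [c5] | linarith)
          (by first | linarith only [c0] | linarith only [c1] | linarith only [c2] | linarith only [c3] | linarith only [c4] | linarith only [c5] | linarith)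
          (by first | linarith only [c0] | linarith only [c1] | linarith only [c2] | linarith only [c3] | linarith only [c4] | linarith only [c5] | linarith)
          (by first | linarith only [c0] | linarith only [c1] | linarith only [c2] | linarith only [c3] | linarith only [c4] | linarith only [c5] | linarith)
          (by first | linarith only [c0] | linarith only [c1] | linarith only [c2] | linarith only [c3] | linarith only [c4] | linarith only [c5] | linarith)
          (by first | linarith only [hc, hW] | linarith)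
          (by first | linarith only [hd, hW] | linarith)
    · rcases le_total w (18 / 100) with hw2 | hw2
      · exact w_one_A1 (w := w) (t := t) (X := X) (Y := Y)
          (by first | (refine le_trans ?_ hw; norm_num; done) | (refine le_trans ?_ hw2; norm_num; done) | (refine le_trans ?_ h0; norm_num; done) | linarith)
          (by first | (refine le_trans hw ?_; norm_num; done) | (refine le_trans hw2 ?_; norm_num; done) | (refine le_trans h1 ?_; norm_num; done) | linarith)
          (by first | (refine le_trans ?_ t0; norm_num; done) | linarith)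
          (by first | (refine le_trans t1 ?_; norm_num; done) | linarith)
          (by first | (refine le_trans ?_ hx; norm_num; done) | (refine le_trans ?_ x0; norm_num; done) | linarith)
          (by first | (refine le_trans hx ?_; norm_num; done) | (refine le_trans x1 ?_; norm_num; done) | linarith)
          (by first | linarith only [y0, y1] | linarith)
          (by first | linarith only [y0, y1] | linarith)
          (by first | linarith only [c0] | linarith only [c1] | linarith only [c2] | linarith only [c3] | linarith only [c4] | linarith only [c5] | linarith)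
          (by first | linarith only [c0] | linarith only [c1] | linarith only [c2] | linarith only [c3] | linarith only [c4] | linarith only [c5] | linarith)
          (by first | linarith only [c0] | linarith only [c1] | linarith only [c2] | linarith only [c3] | linarith only [c4] | linarith only [c5] | linarith)
          (by first | linarith only [c0] | linarith only [c1] | linarith only [c2] | linarith only [c3] | linarith only [c4] | linarith only [c5] | linarith)
          (by first | linarith only [c0] | linarith only [c1] | linarith only [c2] | linarith only [c3] | linarith only [c4] | linarith only [c5] | linarith)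
          (by first | linarith only [c0] | linarith only [c1] | linarith only [c2] | linarith only [c3] | linarith only [c4] | linarith only [c5] | linarith)
          (by first | linarith only [hc] | linarith)
          (by first | linarith only [hd] | linarith)
      · have hB := near98 hw2 h1
        exact w_one_B1 (w := w) (t := t) (X := X) (Y := Y)
          (by first | (refine le_trans ?_ hw; norm_num; done) | (refine le_trans ?_ hw2; norm_num; done) | (refine le_trans ?_ h0; norm_num; done) | linarith)
          (by first | (refine le_trans hw ?_; norm_num; done) | (refine le_trans hw2 ?_; norm_num; done) | (refine le_trans h1 ?_; norm_num; done) | linarith)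
          (by first | (refine le_trans ?_ t0; norm_num; done) | linarith)
          (by first | (refine le_trans t1 ?_; norm_num; done) | linarith)
          (by first | (refine le_trans ?_ hx; norm_num; done) | (refine le_trans ?_ x0; norm_num; done) | linarith)
          (by first | (refine le_trans hx ?_; norm_num; done) | (refine le_trans x1 ?_; norm_num; done) | linarith)
          (by first | linarith only [y0, y1] | linarith)
          (by first | linarith only [y0, y1] | linarith)
          (by first | linarith only [c0] | linarith only [c1] | linarith only [c2] | linarith only [c3] | linarith only [c4] | linarith only [c5] | linarith)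
          (by first | linarith only [c0] | linarith only [c1] | linarith only [c2] | linarith only [c3] | linarith only [c4] | linarith only [c5] | linarith)
          (by first | linarith only [c0] | linarith only [c1] | linarith only [c2] | linarith only [c3] | linarith only [c4] | linarith only [c5] | linarith)
          (by first | linarith only [c0] | linarith only [c1] | linarith only [c2] | linarith only [c3] | linarith only [c4] | linarith only [c5] | linarith)
          (by first | linarith only [c0] | linarith only [c1] | linarith only [c2] | linarith only [c3] | linarith only [c4] | linarith only [c5] | linarith)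
          (by first | linarith only [c0] | linarith only [c1] | linarith only [c2] | linarith only [c3] | linarith only [c4] | linarith only [c5] | linarith)
          (by first | linarith only [hc, hB] | linarith)
          (by first | linarith only [hd, hB] | linarith)
  rcases le_total X (7910 / 10000) with hx' | hx'
  · obtain ⟨hU1, hU2⟩ := E1.U_d (x := 21 / 100 + X) (t := t + Y) (d := 1 / 1000) (by linarith)
      (by linarith) (by norm_num) (by rw [abs_le]; constructor <;> linarith)
    rcases le_total w (2 / 100) with hw | hw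
    · have hW := near2 h0 hw
      exact w_one_C2 (w := w) (t := t) (X := X) (Y := Y)
        (by first | (refine le_trans ?_ hw; norm_num; done) | (refine le_trans ?_ h0; norm_num; done) | linarith)
        (by first | (refine le_trans hw ?_; norm_num; done) | (refine le_trans h1 ?_; norm_num; done) | linarith)
        (by first | (refine le_trans ?_ t0; norm_num; done) | linarith)
        (by first | (refine le_trans t1 ?_; norm_num; done) | linarith)
        (by first | (refine le_trans ?_ hx; norm_num; done) | (refine le_trans ?_ hx'; norm_num; done) | (refine le_trans ?_ x0; norm_num; done) | linarith)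
        (by first | (refine le_trans hx ?_; norm_num; done) | (refine le_trans hx' ?_; norm_num; done) | (refine le_trans x1 ?_; norm_num; done) | linarith)
        (by first | linarith only [y0, y1] | linarith)
        (by first | linarith only [y0, y1] | linarith)
        (by first | linarith only [c0] | linarith only [c1] | linarith only [c2] | linarith only [c3] | linarith only [c4] | linarith only [c5] | linarith)
        (by first | linarith only [c0] | linarith only [c1] | linarith only [c2] | linarith only [c3] | linarith only [c4] | linarith only [c5] | linarith)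
        (by first | linarith only [c0] | linarith only [c1] | linarith only [c2] | linarith only [c3] | linarith only [c4] | linarith only [c5] | linarith)
        (by first | linarith only [hc, hU1, hU2, hW] | linarith)
        (by first | linarith only [hc, hU1, hU2, hW] | linarith)
        (by first | linarith only [hd, hU1, hU2, hW] | linarith)
        (by first | linarith only [hd, hU1, hU2, hW] | linarith)
    · rcases le_total w (18 / 100) with hw2 | hw2
      · exact w_one_A2 (w := w) (t := t) (X := X) (Y := Y)
          (by first | (refine le_trans ?_ hw; norm_num; done) | (refine le_trans ?_ hw2; norm_num; done) | (refine le_trans ?_ h0; norm_num; done) | linarith)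
          (by first | (refine le_trans hw ?_; norm_num; done) | (refine le_trans hw2 ?_; norm_num; done) | (refine le_trans h1 ?_; norm_num; done) | linarith)
          (by first | (refine le_trans ?_ t0; norm_num; done) | linarith)
          (by first | (refine le_trans t1 ?_; norm_num; done) | linarith)
          (by first | (refine le_trans ?_ hx; norm_num; done) | (refine le_trans ?_ hx'; norm_num; done) | (refine le_trans ?_ x0; norm_num; done) | linarith)
          (by first | (refine le_trans hx ?_; norm_num; done) | (refine le_trans hx' ?_; norm_num; done) | (refine le_trans x1 ?_; norm_num; done) | linarith)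
          (by first | linarith only [y0, y1] | linarith)
          (by first | linarith only [y0, y1] | linarith)
          (by first | linarith only [c0] | linarith only [c1] | linarith only [c2] | linarith only [c3] | linarith only [c4] | linarith only [c5] | linarith)
          (by first | linarith only [c0] | linarith only [c1] | linarith only [c2] | linarith only [c3] | linarith only [c4] | linarith only [c5] | linarith)
          (by first | linarith only [c0] | linarith only [c1] | linarith only [c2] | linarith only [c3] | linarith only [c4] | linarith only [c5] | linarith)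
          (by first | linarith only [hc, hU1, hU2] | linarith)
          (by first | linarith only [hc, hU1, hU2] | linarith)
          (by first | linarith only [hd, hU1, hU2] | linarith)
          (by first | linarith only [hd, hU1, hU2] | linarith)
      · have hB := near98 hw2 h1
        have hS := E1.S_b (s := w + X) (Y := Y) (d := 1 / 25) (by norm_num) (by linarith)
          (by linarith) (by rw [abs_le]; constructor <;> linarith)
        exact w_one_B2 (w := w) (t := t) (X := X) (Y := Y)
          (by first | (refine le_trans ?_ hw; norm_num; done) | (refine le_trans ?_ hw2; norm_num; done) | (refine le_trans ?_ h0; norm_num; done) | linarith)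
          (by first | (refine le_trans hw ?_; norm_num; done) | (refine le_trans hw2 ?_; norm_num; done) | (refine le_trans h1 ?_; norm_num; done) | linarith)
          (by first | (refine le_trans ?_ t0; norm_num; done) | linarith)
          (by first | (refine le_trans t1 ?_; norm_num; done) | linarith)
          (by first | (refine le_trans ?_ hx; norm_num; done) | (refine le_trans ?_ hx'; norm_num; done) | (refine le_trans ?_ x0; norm_num; done) | linarith)
          (by first | (refine le_trans hx ?_; norm_num; done) | (refine le_trans hx' ?_; norm_num; done) | (refine le_trans x1 ?_; norm_num; done) | linarith)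
          (by first | linarith only [y0, y1] | linarith)
          (by first | linarith only [y0, y1] | linarith)
          (by first | linarith only [c0] | linarith only [c1] | linarith only [c2] | linarith only [c3] | linarith only [c4] | linarith only [c5] | linarith)
          (by first | linarith only [c0] | linarith only [c1] | linarith only [c2] | linarith only [c3] | linarith only [c4] | linarith only [c5] | linarith)
          (by first | linarith only [c0] | linarith only [c1] | linarith only [c2] | linarith only [c3] | linarith only [c4] | linarith only [c5] | linarith)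
          (by first | linarith only [hc, hU1, hU2, hB, hS] | linarith)
          (by first | linarith only [hc, hU1, hU2, hB, hS] | linarith)
          (by first | linarith only [hd, hU1, hU2, hB, hS] | linarith)
          (by first | linarith only [hd, hU1, hU2, hB, hS] | linarith)
  · obtain ⟨hU1, hU2⟩ := uu_ge_add (21 / 100 + X) (t + Y)
    rcases le_total w (2 / 100) with hw | hw
    · have hW := near2 h0 hw
      exact w_one_C3 (w := w) (t := t) (X := X) (Y := Y)
        (by first | (refine le_trans ?_ hw; norm_num; done) | (refine le_trans ?_ h0; norm_num; done) | linarith)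
        (by first | (refine le_trans hw ?_; norm_num; done) | (refine le_trans h1 ?_; norm_num; done) | linarith)
        (by first | (refine le_trans ?_ t0; norm_num; done) | linarith)
        (by first | (refine le_trans t1 ?_; norm_num; done) | linarith)
        (by first | (refine le_trans ?_ hx; norm_num; done) | (refine le_trans ?_ hx'; norm_num; done) | (refine le_trans ?_ x0; norm_num; done) | linarith)
        (by first | (refine le_trans hx ?_; norm_num; done) | (refine le_trans hx' ?_; norm_num; done) | (refine le_trans x1 ?_; norm_num; done) | linarith)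
        (by first | linarith only [y0, y1] | linarith)
        (by first | linarith only [y0, y1] | linarith)
        (by first | linarith only [c0] | linarith only [c1] | linarith only [c2] | linarith only [c3] | linarith only [c4] | linarith only [c5] | linarith)
        (by first | linarith only [c0] | linarith only [c1] | linarith only [c2] | linarith only [c3] | linarith only [c4] | linarith only [c5] | linarith)
        (by first | linarith only [c0] | linarith only [c1] | linarith only [c2] | linarith only [c3] | linarith only [c4] | linarith only [c5] | linarith)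
        (by first | linarith only [hc, hU1, hU2, hW] | linarith)
        (by first | linarith only [hc, hU1, hU2, hW] | linarith)
        (by first | linarith only [hd, hU1, hU2, hW] | linarith)
        (by first | linarith only [hd, hU1, hU2, hW] | linarith)
    · rcases le_total w (18 / 100) with hw2 | hw2
      · rcases le_total (w + X) (98 / 100) with hs | hs
        · exact w_one_A3 (w := w) (t := t) (X := X) (Y := Y)
            (by first | (refine le_trans ?_ hw; norm_num; done) | (refine le_trans ?_ hw2; norm_num; done) | (refine le_trans ?_ h0; norm_num; done) | linarith)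
            (by first | (refine le_trans hw ?_; norm_num; done) | (refine le_trans hw2 ?_; norm_num; done) | (refine le_trans h1 ?_; norm_num; done) | linarith)
            (by first | (refine le_trans ?_ t0; norm_num; done) | linarith)
            (by first | (refine le_trans t1 ?_; norm_num; done) | linarith)
            (by first | (refine le_trans ?_ hx; norm_num; done) | (refine le_trans ?_ hx'; norm_num; done) | (refine le_trans ?_ hs; norm_num; done) | (refine le_trans ?_ x0; norm_num; done) | linarith)
            (by first | (refine le_trans hx ?_; norm_num; done) | (refine le_trans hx' ?_; norm_num; done) | (refine le_trans hs ?_; norm_num; done) | (refine le_trans x1 ?_; norm_num; done) | linarith)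
            (by first | linarith only [y0, y1] | linarith)
            (by first | linarith only [y0, y1] | linarith)
            (by first | linarith only [c0] | linarith only [c1] | linarith only [c2] | linarith only [c3] | linarith only [c4] | linarith only [c5] | linarith only [hs] | linarith)
            (by first | linarith only [c0] | linarith only [c1] | linarith only [c2] | linarith only [c3] | linarith only [c4] | linarith only [c5] | linarith only [hs] | linarith)
            (by first | linarith only [c0] | linarith only [c1] | linarith only [c2] | linarith only [c3] | linarith only [c4] | linarith only [c5] | linarith only [hs] | linarith)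
            (by first | linarith only [c0] | linarith only [c1] | linarith only [c2] | linarith only [c3] | linarith only [c4] | linarith only [c5] | linarith only [hs] | linarith)
            (by first | linarith only [hc, hU1, hU2] | linarith)
            (by first | linarith only [hc, hU1, hU2] | linarith)
            (by first | linarith only [hd, hU1, hU2] | linarith)
            (by first | linarith only [hd, hU1, hU2] | linarith)
        · have hS := E1.S_b (s := w + X) (Y := Y) (d := 1 / 50) (by norm_num) (by linarith)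
            (by linarith) (by rw [abs_le]; constructor <;> linarith)
          exact w_one_A4 (w := w) (t := t) (X := X) (Y := Y)
            (by first | (refine le_trans ?_ hw; norm_num; done) | (refine le_trans ?_ hw2; norm_num; done) | (refine le_trans ?_ h0; norm_num; done) | linarith)
            (by first | (refine le_trans hw ?_; norm_num; done) | (refine le_trans hw2 ?_; norm_num; done) | (refine le_trans h1 ?_; norm_num; done) | linarith)
            (by first | (refine le_trans ?_ t0; norm_num; done) | linarith)
            (by first | (refine le_trans t1 ?_; norm_num; done) | linarith)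
            (by first | (refine le_trans ?_ hx; norm_num; done) | (refine le_trans ?_ hx'; norm_num; done) | (refine le_trans ?_ hs; norm_num; done) | (refine le_trans ?_ x0; norm_num; done) | linarith)
            (by first | (refine le_trans hx ?_; norm_num; done) | (refine le_trans hx' ?_; norm_num; done) | (refine le_trans hs ?_; norm_num; done) | (refine le_trans x1 ?_; norm_num; done) | linarith)
            (by first | linarith only [y0, y1] | linarith)
            (by first | linarith only [y0, y1] | linarith)
            (by first | linarith only [c0] | linarith only [c1] | linarith only [c2] | linarith only [c3] | linarith only [c4] | linarith only [c5] | linarith only [hs] | linarith)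
            (by first | linarith only [c0] | linarith only [c1] | linarith only [c2] | linarith only [c3] | linarith only [c4] | linarith only [c5] | linarith only [hs] | linarith)
            (by first | linarith only [c0] | linarith only [c1] | linarith only [c2] | linarith only [c3] | linarith only [c4] | linarith only [c5] | linarith only [hs] | linarith)
            (by first | linarith only [hc, hU1, hU2, hS] | linarith)
            (by first | linarith only [hc, hU1, hU2, hS] | linarith)
            (by first | linarith only [hd, hU1, hU2, hS] | linarith)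
            (by first | linarith only [hd, hU1, hU2, hS] | linarith)
      · have hB := near98 hw2 h1
        rcases le_total X (85 / 100) with hs | hs
        · have hS := E1.S_b (s := w + X) (Y := Y) (d := 3 / 100) (by norm_num) (by linarith)
            (by linarith) (by rw [abs_le]; constructor <;> linarith)
          exact w_one_B3 (w := w) (t := t) (X := X) (Y := Y)
            (by first | (refine le_trans ?_ hw; norm_num; done) | (refine le_trans ?_ hw2; norm_num; done) | (refine le_trans ?_ h0; norm_num; done) | linarith)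
            (by first | (refine le_trans hw ?_; norm_num; done) | (refine le_trans hw2 ?_; norm_num; done) | (refine le_trans h1 ?_; norm_num; done) | linarith)
            (by first | (refine le_trans ?_ t0; norm_num; done) | linarith)
            (by first | (refine le_trans t1 ?_; norm_num; done) | linarith)
            (by first | (refine le_trans ?_ hx; norm_num; done) | (refine le_trans ?_ hx'; norm_num; done) | (refine le_trans ?_ hs; norm_num; done) | (refine le_trans ?_ x0; norm_num; done) | linarith)
            (by first | (refine le_trans hx ?_; norm_num; done) | (refine le_trans hx' ?_; norm_num; done) | (refine le_trans hs ?_; norm_num; done) | (refine le_trans x1 ?_; norm_num; done) | linarith)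
            (by first | linarith only [y0, y1] | linarith)
            (by first | linarith only [y0, y1] | linarith)
            (by first | linarith only [c0] | linarith only [c1] | linarith only [c2] | linarith only [c3] | linarith only [c4] | linarith only [c5] | linarith only [hs] | linarith)
            (by first | linarith only [c0] | linarith only [c1] | linarith only [c2] | linarith only [c3] | linarith only [c4] | linarith only [c5] | linarith only [hs] | linarith)
            (by first | linarith only [c0] | linarith only [c1] | linarith only [c2] | linarith only [c3] | linarith only [c4] | linarith only [c5] | linarith only [hs] | linarith)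
            (by first | linarith only [hc, hU1, hU2, hB, hS] | linarith)
            (by first | linarith only [hc, hU1, hU2, hB, hS] | linarith)
            (by first | linarith only [hd, hU1, hU2, hB, hS] | linarith)
            (by first | linarith only [hd, hU1, hU2, hB, hS] | linarith)
        · have hS : -(16 / 1000) ≤ -uu (w + X) Y := by
            have e := uu_add_one (w + X - 1) Y
            rw [sub_add_cancel] at e
            have h2 := E1.uu_le_real (x := w + X - 1) (y := Y) (by linarith)
            have h3 : uu (w + X - 1) 0 ≤ 0 := by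
              have := E1.W_lo (w := 0) (s := w + X - 1) (Y := 0) le_rfl (by linarith) (by linarith)
              have h4 : uu 0 0 = 0 := by
                have := uu_one_sub 0 0
                have h5 := uu_add_one 0 0
                simp only [zero_add, sub_zero, abs_zero, mul_zero, add_zero] at this h5
                linarith
              linarith
            have h6 : |Y| ≤ 46 / 10000 := by rw [abs_le]; constructor <;> linarith
            have h7 := mul_le_mul Real.pi_lt_d2.le h6 (abs_nonneg Y) (by norm_num)
            linarith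
          exact w_one_B4 (w := w) (t := t) (X := X) (Y := Y)
            (by first | (refine le_trans ?_ hw; norm_num; done) | (refine le_trans ?_ hw2; norm_num; done) | (refine le_trans ?_ h0; norm_num; done) | linarith)
            (by first | (refine le_trans hw ?_; norm_num; done) | (refine le_trans hw2 ?_; norm_num; done) | (refine le_trans h1 ?_; norm_num; done) | linarith)
            (by first | (refine le_trans ?_ t0; norm_num; done) | linarith)
            (by first | (refine le_trans t1 ?_; norm_num; done) | linarith)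
            (by first | (refine le_trans ?_ hx; norm_num; done) | (refine le_trans ?_ hx'; norm_num; done) | (refine le_trans ?_ hs; norm_num; done) | (refine le_trans ?_ x0; norm_num; done) | linarith)
            (by first | (refine le_trans hx ?_; norm_num; done) | (refine le_trans hx' ?_; norm_num; done) | (refine le_trans hs ?_; norm_num; done) | (refine le_trans x1 ?_; norm_num; done) | linarith)
            (by first | linarith only [y0, y1] | linarith)
            (by first | linarith only [y0, y1] | linarith)
            (by first | linarith only [c0] | linarith only [c1] | linarith only [c2] | linarith only [c3] | linarith only [c4] | linarith only [c5] | linarith only [hs] | linarith)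
            (by first | linarith only [c0] | linarith only [c1] | linarith only [c2] | linarith only [c3] | linarith only [c4] | linarith only [c5] | linarith only [hs] | linarith)
            (by first | linarith only [c0] | linarith only [c1] | linarith only [c2] | linarith only [c3] | linarith only [c4] | linarith only [c5] | linarith only [hs] | linarith)
            (by first | linarith only [hc, hU1, hU2, hB, hS] | linarith)
            (by first | linarith only [hc, hU1, hU2, hB, hS] | linarith)
            (by first | linarith only [hd, hU1, hU2, hB, hS] | linarith)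
            (by first | linarith only [hd, hU1, hU2, hB, hS] | linarith)

/-! ### the slot `2` -/

theorem PW_ge {G l w : ℝ} (hl : 8 / 10 ≤ l) (hw : 0 ≤ w) (hlw : l + w ≤ 1) :
    PW G w ≤ G + 2 * UU ⟨w, 0⟩ - UU ⟨l + w, 0⟩ + UU ⟨l, 0⟩ := by
  have h := V1_old (X := 4 / 5) (x := l) (w := w) (by norm_num) (by linarith) hw hlw
  unfold PW
  rw [UU_uu, UU_uu, UU_uu]
  simp only
  rw [add_comm (4 / 5) w] at h
  linarith

theorem Pw_one {w τ G : ℝ} (hw : 0 ≤ w) (hw1 : w ≤ 2 / 10) (hG : Gn .three (21 / 100) w τ .one G) :
    ∃ r ∈ TW, r.cl = .one ∧ r.c = 21 ∧ (r.t0 : ℝ) / 10000 ≤ -τ ∧ -τ ≤ (r.t1 : ℝ) / 10000 ∧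
      (r.a : ℝ) / 10000 + (r.e : ℝ) / 1000 * (-τ) ≤ PW G w := by
  cases hG with
  | @one D X Y h0 h1 h2 hb hR hX =>
    have hD : D = .one ∨ D = .two ∨ D = .twoE := by
      cases D
      · exact Or.inl rfl
      · exact Or.inr (Or.inl rfl)
      · exact Or.inr (Or.inr rfl)
      · exact absurd ⟨Or.inl rfl, Or.inl rfl⟩ hb
      · exact absurd ⟨Or.inl rfl, Or.inr (Or.inl rfl)⟩ hb
      · exact absurd ⟨Or.inl rfl, Or.inr (Or.inr rfl)⟩ hb
    obtain ⟨x0, x1, T, T0, T1, S0, S1, hY⟩ := hR
    rcases hD with rfl | rfl | rfl
    · simp only [cw, pM, pa, pb, show ¬ (Cl.three = Cl.one) by decide, if_false, hbox] at *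
      have q1 : (0 : ℝ) ≤ 86 / 100 - X := by linarith
      have key : -(4970 / 10000) + 1128 / 1000 * τ ≤
            PW (V1 ⟨21 / 100, τ⟩ ⟨X, Y⟩ - V1 ⟨w, 0⟩ ⟨X, Y⟩) w ∨
          -(2935 / 10000) - 3142 / 1000 * τ ≤
            PW (V1 ⟨21 / 100, τ⟩ ⟨X, Y⟩ - V1 ⟨w, 0⟩ ⟨X, Y⟩) w := by
        rcases hY with ⟨y0, y1, y2, y3⟩ | ⟨y0, y1, y2, y3⟩
        · have e1 := mul_le_mul_of_nonneg_right T1 x0
          have e2 := mul_le_mul_of_nonneg_right T1 q1
          have e3 : 0 ≤ (τ + 22 / 1000) * X := mul_nonneg (by linarith) x0
          have e4 : 0 ≤ (τ + 22 / 1000) * (86 / 100 - X) := mul_nonneg (by linarith) q1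
          apply pw_one <;> linarith
        · have e1 := mul_le_mul_of_nonneg_right T0 x0
          have e2 := mul_le_mul_of_nonneg_right T0 q1
          have e3 : -(22 / 1000) - τ ≤ T := by linarith
          have e4 := mul_le_mul_of_nonneg_right e3 x0
          have e5 := mul_le_mul_of_nonneg_right e3 q1
          apply pw_one <;> linarith
      rcases key with key | key
      · refine ⟨⟨.one, 21, -920, -210, -4970, -1128⟩, by simp [TW], rfl, rfl, ?_, ?_, ?_⟩ <;>
          push_cast <;> linarith
      · refine ⟨⟨.one, 21, -920, -210, -2935, 3142⟩, by simp [TW], rfl, rfl, ?_, ?_, ?_⟩ <;>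
          push_cast <;> linarith
    · simp only [cw, pM, pa, pb, hbox] at *
      have q1 : (0 : ℝ) ≤ 80 / 100 - X := by linarith
      have key : -(2911 / 10000) - 3142 / 1000 * τ ≤
          PW (V1 ⟨21 / 100, τ⟩ ⟨X, Y⟩ - V1 ⟨w, 0⟩ ⟨X, Y⟩) w := by
        rcases hY with ⟨y0, y1, y2, y3⟩ | ⟨y0, y1, y2, y3⟩
        · have e1 := mul_le_mul_of_nonneg_right T1 x0
          have e2 := mul_le_mul_of_nonneg_right T1 q1
          apply pw_two <;> linarith
        · exfalso
          linarith
      refine ⟨⟨.one, 21, -940, -460, -2911, 3142⟩, by simp [TW], rfl, rfl, ?_, ?_, ?_⟩ <;>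
        push_cast <;> linarith
    · have hX := hX rfl (Or.inl rfl)
      simp only [cw, pM, pa, pb, hbox] at *
      have q1 : (0 : ℝ) ≤ 70 / 100 - X := by linarith
      have key : -(2705 / 10000) - 2721 / 1000 * τ ≤
          PW (V1 ⟨21 / 100, τ⟩ ⟨X, Y⟩ - V1 ⟨w, 0⟩ ⟨X, Y⟩) w := by
        rcases hY with ⟨y0, y1, y2, y3⟩ | ⟨y0, y1, y2, y3⟩
        · exfalso
          linarith
        · have e1 := mul_le_mul_of_nonneg_right T0 x0
          have e2 := mul_le_mul_of_nonneg_right T0 q1
          apply pw_twoE <;> linarith
      refine ⟨⟨.one, 21, -1145, -870, -2705, 2721⟩, by simp [TW], rfl, rfl, ?_, ?_, ?_⟩ <;>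
        push_cast <;> linarith

theorem Pw_all {C : Ct} {c : Cl} (hC : C.ok c) (h3 : C ≠ .threeK) {w t G : ℝ} (hw : 0 ≤ w)
    (hw1 : w ≤ 2 / 10) (t0 : (hbox .three c false).t0 ≤ t) (t1 : t ≤ (hbox .three c false).t1)
    (hG : Gn .three (cW C) w (-t) C G) :
    ∃ r ∈ TW, r.cl = c ∧ (r.c : ℝ) / 100 = cW C ∧ (r.t0 : ℝ) / 10000 ≤ t ∧
      t ≤ (r.t1 : ℝ) / 10000 ∧ (r.a : ℝ) / 10000 + (r.e : ℝ) / 1000 * t ≤ PW G w := by
  have hE : C ≠ .one → EB .three C w (-t) G := by
    intro h
    have e : cW C = cN C := by
      cases C <;> first | rfl | exact absurd rfl h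
    rw [e] at hG
    exact EB_of_Gn (Or.inr (Or.inr rfl)) hw (by linarith) hG
  cases C with
  | one =>
    have hc : c = .one := hC
    subst hc
    obtain ⟨r, hr, h1, h2, h4, h5, h6⟩ := Pw_one hw hw1 hG
    rw [neg_neg] at h4 h5 h6
    refine ⟨r, hr, h1, ?_, h4, h5, h6⟩
    rw [h2]
    norm_num [cW]
  | two =>
    have hc : c = .two := hC
    subst hc
    have hE := hE (by decide)
    have hH := H_two (w := w) (by linarith) (by linarith)
    simp only [EB, UU_uu, hbox] at hE t0 t1
    refine ⟨⟨.two, 25, -570, 50, -3764, 1571⟩, by simp [TW], rfl, by norm_num [cW, cN], ?_, ?_, ?_⟩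
      <;> (try unfold PW) <;> push_cast <;> linarith
  | twoE =>
    have hc : c = .twoE := hC
    subst hc
    have hE := hE (by decide)
    have hH := H_twoE (w := w) (by linarith) (by linarith)
    simp only [EB, UU_uu, hbox] at hE t0 t1
    refine ⟨⟨.twoE, 22, -980, -760, -2878, 2262⟩, by simp [TW], rfl, by norm_num [cW, cN], ?_, ?_,
      ?_⟩ <;> (try unfold PW) <;> push_cast <;> linarith
  | threeA =>
    have hc : c = .three := hC
    subst hc
    have hE := hE (by decide)
    simp only [EB, UU_uu, hbox] at hE t0 t1
    rcases le_total w (4 / 25) with hw2 | hw2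
    · have hE := hE.1 hw2
      have hH := H_tAa (w := w) (by linarith) (by linarith)
      refine ⟨⟨.three, 15, -220, 220, -3724, 851⟩, by simp [TW], rfl, by norm_num [cW, cN], ?_,
        ?_, ?_⟩ <;> (try unfold PW) <;> push_cast <;> linarith
    · have hE := hE.2 hw2
      have hH := H_tAb (w := w) (by linarith) (by linarith)
      refine ⟨⟨.three, 15, -220, 220, -3404, 565⟩, by simp [TW], rfl, by norm_num [cW, cN], ?_,
        ?_, ?_⟩ <;> (try unfold PW) <;> push_cast <;> linarith
  | threeK => exact absurd rfl h3
  | threeE =>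
    have hc : c = .threeE := hC
    subst hc
    have hE := hE (by decide)
    have hH := H_tE (w := w) (by linarith) (by linarith)
    simp only [EB, UU_uu, hbox] at hE t0 t1
    refine ⟨⟨.threeE, 22, -280, -50, -3078, 1215⟩, by simp [TW], rfl, by norm_num [cW, cN], ?_, ?_,
      ?_⟩ <;> (try unfold PW) <;> push_cast <;> linarith
  | ring =>
    have hc : c = .ring := hC
    subst hc
    have hE := hE (by decide)
    simp only [EB, UU_uu, hbox] at hE t0 t1
    rcases le_total w (7 / 50) with hw2 | hw2
    · have hE := hE.1 hw2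
      have hH := H_ra (w := w) (by linarith) (by linarith)
      refine ⟨⟨.ring, 18, -40, 570, -4315, 1678⟩, by simp [TW], rfl, by norm_num [cW, cN], ?_,
        ?_, ?_⟩ <;> (try unfold PW) <;> push_cast <;> linarith
    · have hE := hE.2 hw2
      have hH := H_rb (w := w) (by linarith) (by linarith)
      refine ⟨⟨.ring, 18, -40, 570, -4112, 1397⟩, by simp [TW], rfl, by norm_num [cW, cN], ?_,
        ?_, ?_⟩ <;> (try unfold PW) <;> push_cast <;> linarith
  | touched =>
    have hE := hE (by decide)
    have hH := H_to (w := w) (by linarith) (by linarith)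
    simp only [EB] at hE
    cases c with
    | one =>
      simp only [hbox] at t0 t1
      refine ⟨⟨.one, 20, -1145, -210, -2869, 2360⟩, by simp [TW], rfl, by norm_num [cW, cN], ?_,
        ?_, ?_⟩ <;> (try unfold PW) <;> push_cast <;> linarith
    | two =>
      simp only [hbox] at t0 t1
      refine ⟨⟨.two, 20, -570, 50, -2869, 2360⟩, by simp [TW], rfl, by norm_num [cW, cN], ?_,
        ?_, ?_⟩ <;> (try unfold PW) <;> push_cast <;> linarith
    | twoE =>
      simp only [hbox] at t0 t1
      refine ⟨⟨.twoE, 20, -980, -760, -2869, 2360⟩, by simp [TW], rfl, by norm_num [cW, cN], ?_,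
        ?_, ?_⟩ <;> (try unfold PW) <;> push_cast <;> linarith
    | three =>
      simp only [hbox] at t0 t1
      refine ⟨⟨.three, 20, -220, 220, -2869, 2360⟩, by simp [TW], rfl, by norm_num [cW, cN], ?_,
        ?_, ?_⟩ <;> (try unfold PW) <;> push_cast <;> linarith
    | threeE =>
      simp only [hbox] at t0 t1
      refine ⟨⟨.threeE, 20, -280, -50, -2869, 2360⟩, by simp [TW], rfl, by norm_num [cW, cN], ?_,
        ?_, ?_⟩ <;> (try unfold PW) <;> push_cast <;> linarith
    | ring =>
      simp only [hbox] at t0 t1
      refine ⟨⟨.ring, 20, -40, 570, -2869, 2360⟩, by simp [TW], rfl, by norm_num [cW, cN], ?_,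
        ?_, ?_⟩ <;> (try unfold PW) <;> push_cast <;> linarith

end L2

end TL

end Pool.Agent.Work.MP_b30479_gtS.G2

end
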