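import Pool.Agent.Work.MP_b30479_gt.TBS.G2.TE1As1
import Pool.Agent.Work.MP_b30479_gt.TBS.G2.RngKd
import Pool.Agent.Work.MP_b30479_gt.TBS.G2.WVal
import Pool.Agent.Work.MP_b30479_gt.TBS.G2.WLocX
import Pool.Agent.Work.MP_b30479_gt.TBS.G2.TK1a
import Pool.Agent.Work.MP_b30479_gt.TBS.G2.TK1c
import Pool.Agent.Work.MP_b30479_gt.TBS.G2.TK3one
import Pool.Agent.Work.MP_b30479_gt.TBS.G2.TDef3
import Pool.Agent.Work.MP_b30479_gt.TBS.G2.TReg
import Pool.Agent.Work.MP_b30479_gt.TBS.G2.TK1t
import Pool.Agent.Work.MP_b30479_gt.TBS.G2.WMainS
import Pool.Agent.Work.MP_b30479_gt.TBS.G2.TL2uG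

section

/-!
# Tails: the side of a digit `1` next to `2`, `2e`, `3e`, ring
-/

set_option linter.unusedVariables false
set_option linter.unusedSimpArgs false
set_option linter.unusedTactic false
set_option linter.unreachableTactic false

namespace Pool.Agent.Work.MP_b30479_gtS.G2

open VOL SR NumUs

namespace TL

theorem K1b.R_t_one_0_0 {w : ℝ} (h0 : 0 / 1 ≤ w) (h1 : w ≤ 9 / 50) :
    -(3 / 20) < 0 * uu w 0 + (-11 / 1000) + (0 / 1) * w - (uu (4 / 5 + w) 0 - uu (4 / 5) 0 - uu w 0) - (-13 / 100) := by
  rcases le_total w (1 / 100) with g0 | g0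
  · have a1 := K1b.r_t_one_0_0_0 (w := w) (by first | (refine le_trans ?_ h0; norm_num; done) | (refine le_trans ?_ g0; norm_num; done) | (refine le_trans ?_ g1; norm_num; done) | linarith)
        (by first | (refine le_trans g0 ?_; norm_num; done) | (refine le_trans g1 ?_; norm_num; done) | (refine le_trans h1 ?_; norm_num; done) | linarith)
    have a2 := K1b.anti_l (a := w) (b := 1 / 100) (by first | (refine le_trans ?_ h0; norm_num; done) | (refine le_trans ?_ g0; norm_num; done) | (refine le_trans ?_ g1; norm_num; done) | linarith) g0 (by norm_num)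
    first | with_reducible exact a1 | linarith only [a1, a2] | linarith only [a1, a3] | linarith
  have a1 := K1b.r_t_one_0_0_1 (w := w) (by first | (refine le_trans ?_ h0; norm_num; done) | (refine le_trans ?_ g0; norm_num; done) | (refine le_trans ?_ g1; norm_num; done) | linarith)
        (by first | (refine le_trans g0 ?_; norm_num; done) | (refine le_trans g1 ?_; norm_num; done) | (refine le_trans h1 ?_; norm_num; done) | linarith)
  first | with_reducible exact a1 | linarith only [a1, a2] | linarith only [a1, a3] | linarith

theorem K1b.R_t_one_1_0 {w : ℝ} (h0 : 0 / 1 ≤ w) (h1 : w ≤ 9 / 50) :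
    -(19 / 100) < 1 * uu w 0 + (-163 / 5000) + (779 / 1000) * w - (uu (4 / 5 + w) 0 - uu (4 / 5) 0 - uu w 0) - (-13 / 100) := by
  rcases le_total w (1 / 100) with g0 | g0
  · have a1 := K1b.r_t_one_1_0_0 (w := w) (by first | (refine le_trans ?_ h0; norm_num; done) | (refine le_trans ?_ g0; norm_num; done) | (refine le_trans ?_ g1; norm_num; done) | linarith)
        (by first | (refine le_trans g0 ?_; norm_num; done) | (refine le_trans g1 ?_; norm_num; done) | (refine le_trans h1 ?_; norm_num; done) | linarith)
    have a2 := K1b.anti_l (a := w) (b := 1 / 100) (by first | (refine le_trans ?_ h0; norm_num; done) | (refine le_trans ?_ g0; norm_num; done) | (refine le_trans ?_ g1; norm_num; done) | linarith) g0 (by norm_num)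
    first | with_reducible exact a1 | linarith only [a1, a2] | linarith only [a1, a3] | linarith
  have a1 := K1b.r_t_one_1_0_1 (w := w) (by first | (refine le_trans ?_ h0; norm_num; done) | (refine le_trans ?_ g0; norm_num; done) | (refine le_trans ?_ g1; norm_num; done) | linarith)
        (by first | (refine le_trans g0 ?_; norm_num; done) | (refine le_trans g1 ?_; norm_num; done) | (refine le_trans h1 ?_; norm_num; done) | linarith)
  first | with_reducible exact a1 | linarith only [a1, a2] | linarith only [a1, a3] | linarith

theorem K1b.R_t_one_2_0 {w : ℝ} (h0 : 9 / 50 ≤ w) (h1 : w ≤ 1 / 5) :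
    -(1 / 5) < 1 * uu w 0 + (164 / 625) + (-921 / 1000) * w - (uu (4 / 5 + w) 0 - uu (4 / 5) 0 - uu w 0) - (-13 / 100) := by
  have a1 := K1b.r_t_one_2_0_0 (w := w) (by first | (refine le_trans ?_ h0; norm_num; done) | (refine le_trans ?_ g0; norm_num; done) | (refine le_trans ?_ g1; norm_num; done) | linarith)
        (by first | (refine le_trans g0 ?_; norm_num; done) | (refine le_trans g1 ?_; norm_num; done) | (refine le_trans h1 ?_; norm_num; done) | linarith)
  have a3 := K1b.anti_r (a := 49 / 50) (b := 4 / 5 + w) (by norm_num)
        (by first | linarith only [g1] | linarith only [h0] | linarith) (by linarith only [h1])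
  first | with_reducible exact a1 | linarith only [a1, a2] | linarith only [a1, a3] | linarith

theorem K1b.R_t_one_3_0 {w : ℝ} (h0 : 9 / 50 ≤ w) (h1 : w ≤ 1 / 5) :
    -(19 / 100) < 1 * uu w 0 + (1451 / 5000) + (-1021 / 1000) * w - (uu (4 / 5 + w) 0 - uu (4 / 5) 0 - uu w 0) - (-13 / 100) := by
  have a1 := K1b.r_t_one_3_0_0 (w := w) (by first | (refine le_trans ?_ h0; norm_num; done) | (refine le_trans ?_ g0; norm_num; done) | (refine le_trans ?_ g1; norm_num; done) | linarith)
        (by first | (refine le_trans g0 ?_; norm_num; done) | (refine le_trans g1 ?_; norm_num; done) | (refine le_trans h1 ?_; norm_num; done) | linarith)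
  have a3 := K1b.anti_r (a := 49 / 50) (b := 4 / 5 + w) (by norm_num)
        (by first | linarith only [g1] | linarith only [h0] | linarith) (by linarith only [h1])
  first | with_reducible exact a1 | linarith only [a1, a2] | linarith only [a1, a3] | linarith

theorem K1b.R_t_two_0_0 {w : ℝ} (h0 : 0 / 1 ≤ w) (h1 : w ≤ 1 / 5) :
    -(11 / 50) < 1 * uu w 0 + (53 / 625) + (-37 / 250) * w - (uu (4 / 5 + w) 0 - uu (4 / 5) 0 - uu w 0) - (-13 / 100) := by
  rcases le_total w (1 / 100) with g0 | g0
  · have a1 := K1b.r_t_two_0_0_0 (w := w) (by first | (refine le_trans ?_ h0; norm_num; done) | (refine le_trans ?_ g0; norm_num; done) | (refine le_trans ?_ g1; norm_num; done) | linarith)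
        (by first | (refine le_trans g0 ?_; norm_num; done) | (refine le_trans g1 ?_; norm_num; done) | (refine le_trans h1 ?_; norm_num; done) | linarith)
    have a2 := K1b.anti_l (a := w) (b := 1 / 100) (by first | (refine le_trans ?_ h0; norm_num; done) | (refine le_trans ?_ g0; norm_num; done) | (refine le_trans ?_ g1; norm_num; done) | linarith) g0 (by norm_num)
    first | with_reducible exact a1 | linarith only [a1, a2] | linarith only [a1, a3] | linarith
  rcases le_total w (9 / 50) with g1 | g1
  · have a1 := K1b.r_t_two_0_0_1 (w := w) (by first | (refine le_trans ?_ h0; norm_num; done) | (refine le_trans ?_ g0; norm_num; done) | (refine le_trans ?_ g1; norm_num; done) | linarith)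
        (by first | (refine le_trans g0 ?_; norm_num; done) | (refine le_trans g1 ?_; norm_num; done) | (refine le_trans h1 ?_; norm_num; done) | linarith)
    first | with_reducible exact a1 | linarith only [a1, a2] | linarith only [a1, a3] | linarith
  have a1 := K1b.r_t_two_0_0_2 (w := w) (by first | (refine le_trans ?_ h0; norm_num; done) | (refine le_trans ?_ g0; norm_num; done) | (refine le_trans ?_ g1; norm_num; done) | linarith)
        (by first | (refine le_trans g0 ?_; norm_num; done) | (refine le_trans g1 ?_; norm_num; done) | (refine le_trans h1 ?_; norm_num; done) | linarith)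
  have a3 := K1b.anti_r (a := 49 / 50) (b := 4 / 5 + w) (by norm_num)
        (by first | linarith only [g1] | linarith only [h0] | linarith) (by linarith only [h1])
  first | with_reducible exact a1 | linarith only [a1, a2] | linarith only [a1, a3] | linarith

theorem K1b.R_t_twoE_0_0 {w : ℝ} (h0 : 0 / 1 ≤ w) (h1 : w ≤ 1 / 5) :
    -(6 / 25) < 1 * uu w 0 + (309 / 2000) + (0 / 1) * w - (uu (4 / 5 + w) 0 - uu (4 / 5) 0 - uu w 0) - (-13 / 100) := by
  rcases le_total w (1 / 100) with g0 | g0
  · have a1 := K1b.r_t_twoE_0_0_0 (w := w) (by first | (refine le_trans ?_ h0; norm_num; done) | (refine le_trans ?_ g0; norm_num; done) | (refine le_trans ?_ g1; norm_num; done) | linarith)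
        (by first | (refine le_trans g0 ?_; norm_num; done) | (refine le_trans g1 ?_; norm_num; done) | (refine le_trans h1 ?_; norm_num; done) | linarith)
    have a2 := K1b.anti_l (a := w) (b := 1 / 100) (by first | (refine le_trans ?_ h0; norm_num; done) | (refine le_trans ?_ g0; norm_num; done) | (refine le_trans ?_ g1; norm_num; done) | linarith) g0 (by norm_num)
    first | with_reducible exact a1 | linarith only [a1, a2] | linarith only [a1, a3] | linarith
  rcases le_total w (9 / 50) with g1 | g1
  · have a1 := K1b.r_t_twoE_0_0_1 (w := w) (by first | (refine le_trans ?_ h0; norm_num; done) | (refine le_trans ?_ g0; norm_num; done) | (refine le_trans ?_ g1; norm_num; done) | linarith)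
        (by first | (refine le_trans g0 ?_; norm_num; done) | (refine le_trans g1 ?_; norm_num; done) | (refine le_trans h1 ?_; norm_num; done) | linarith)
    first | with_reducible exact a1 | linarith only [a1, a2] | linarith only [a1, a3] | linarith
  have a1 := K1b.r_t_twoE_0_0_2 (w := w) (by first | (refine le_trans ?_ h0; norm_num; done) | (refine le_trans ?_ g0; norm_num; done) | (refine le_trans ?_ g1; norm_num; done) | linarith)
        (by first | (refine le_trans g0 ?_; norm_num; done) | (refine le_trans g1 ?_; norm_num; done) | (refine le_trans h1 ?_; norm_num; done) | linarith)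
  have a3 := K1b.anti_r (a := 49 / 50) (b := 4 / 5 + w) (by norm_num)
        (by first | linarith only [g1] | linarith only [h0] | linarith) (by linarith only [h1])
  first | with_reducible exact a1 | linarith only [a1, a2] | linarith only [a1, a3] | linarith

theorem K1b.R_t_threeA_0_0 {w : ℝ} (h0 : 0 / 1 ≤ w) (h1 : w ≤ 4 / 25) :
    -(97 / 1000) < 1 * uu w 0 + (62 / 625) + (-227 / 1000) * w - (uu (4 / 5 + w) 0 - uu (4 / 5) 0 - uu w 0) - (-13 / 100) := by
  rcases le_total w (1 / 100) with g0 | g0
  · have a1 := K1b.r_t_threeA_0_0_0 (w := w) (by first | (refine le_trans ?_ h0; norm_num; done) | (refine le_trans ?_ g0; norm_num; done) | (refine le_trans ?_ g1; norm_num; done) | linarith)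
        (by first | (refine le_trans g0 ?_; norm_num; done) | (refine le_trans g1 ?_; norm_num; done) | (refine le_trans h1 ?_; norm_num; done) | linarith)
    have a2 := K1b.anti_l (a := w) (b := 1 / 100) (by first | (refine le_trans ?_ h0; norm_num; done) | (refine le_trans ?_ g0; norm_num; done) | (refine le_trans ?_ g1; norm_num; done) | linarith) g0 (by norm_num)
    first | with_reducible exact a1 | linarith only [a1, a2] | linarith only [a1, a3] | linarith
  have a1 := K1b.r_t_threeA_0_0_1 (w := w) (by first | (refine le_trans ?_ h0; norm_num; done) | (refine le_trans ?_ g0; norm_num; done) | (refine le_trans ?_ g1; norm_num; done) | linarith)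
        (by first | (refine le_trans g0 ?_; norm_num; done) | (refine le_trans g1 ?_; norm_num; done) | (refine le_trans h1 ?_; norm_num; done) | linarith)
  first | with_reducible exact a1 | linarith only [a1, a2] | linarith only [a1, a3] | linarith

theorem K1b.R_t_threeA_1_0 {w : ℝ} (h0 : 4 / 25 ≤ w) (h1 : w ≤ 1 / 5) :
    -(13 / 200) < 1 * uu w 0 + (1289 / 5000) + (-553 / 500) * w - (uu (4 / 5 + w) 0 - uu (4 / 5) 0 - uu w 0) - (-13 / 100) := by
  rcases le_total w (9 / 50) with g0 | g0
  · have a1 := K1b.r_t_threeA_1_0_0 (w := w) (by first | (refine le_trans ?_ h0; norm_num; done) | (refine le_trans ?_ g0; norm_num; done) | (refine le_trans ?_ g1; norm_num; done) | linarith)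
        (by first | (refine le_trans g0 ?_; norm_num; done) | (refine le_trans g1 ?_; norm_num; done) | (refine le_trans h1 ?_; norm_num; done) | linarith)
    first | with_reducible exact a1 | linarith only [a1, a2] | linarith only [a1, a3] | linarith
  have a1 := K1b.r_t_threeA_1_0_1 (w := w) (by first | (refine le_trans ?_ h0; norm_num; done) | (refine le_trans ?_ g0; norm_num; done) | (refine le_trans ?_ g1; norm_num; done) | linarith)
        (by first | (refine le_trans g0 ?_; norm_num; done) | (refine le_trans g1 ?_; norm_num; done) | (refine le_trans h1 ?_; norm_num; done) | linarith)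
  have a3 := K1b.anti_r (a := 49 / 50) (b := 4 / 5 + w) (by norm_num)
        (by first | linarith only [g1] | linarith only [h0] | linarith) (by linarith only [h1])
  first | with_reducible exact a1 | linarith only [a1, a2] | linarith only [a1, a3] | linarith

theorem K1b.R_t_threeK_0_0 {w : ℝ} (h0 : 0 / 1 ≤ w) (h1 : w ≤ 1 / 5) :
    -(4 / 25) < 1 * uu w 0 + (7 / 625) + (97 / 1000) * w - (uu (4 / 5 + w) 0 - uu (4 / 5) 0 - uu w 0) - (-13 / 100) := by
  rcases le_total w (1 / 100) with g0 | g0
  · have a1 := K1b.r_t_threeK_0_0_0 (w := w) (by first | (refine le_trans ?_ h0; norm_num; done) | (refine le_trans ?_ g0; norm_num; done) | (refine le_trans ?_ g1; norm_num; done) | linarith)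
        (by first | (refine le_trans g0 ?_; norm_num; done) | (refine le_trans g1 ?_; norm_num; done) | (refine le_trans h1 ?_; norm_num; done) | linarith)
    have a2 := K1b.anti_l (a := w) (b := 1 / 100) (by first | (refine le_trans ?_ h0; norm_num; done) | (refine le_trans ?_ g0; norm_num; done) | (refine le_trans ?_ g1; norm_num; done) | linarith) g0 (by norm_num)
    first | with_reducible exact a1 | linarith only [a1, a2] | linarith only [a1, a3] | linarith
  rcases le_total w (9 / 50) with g1 | g1
  · have a1 := K1b.r_t_threeK_0_0_1 (w := w) (by first | (refine le_trans ?_ h0; norm_num; done) | (refine le_trans ?_ g0; norm_num; done) | (refine le_trans ?_ g1; norm_num; done) | linarith)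
        (by first | (refine le_trans g0 ?_; norm_num; done) | (refine le_trans g1 ?_; norm_num; done) | (refine le_trans h1 ?_; norm_num; done) | linarith)
    first | with_reducible exact a1 | linarith only [a1, a2] | linarith only [a1, a3] | linarith
  have a1 := K1b.r_t_threeK_0_0_2 (w := w) (by first | (refine le_trans ?_ h0; norm_num; done) | (refine le_trans ?_ g0; norm_num; done) | (refine le_trans ?_ g1; norm_num; done) | linarith)
        (by first | (refine le_trans g0 ?_; norm_num; done) | (refine le_trans g1 ?_; norm_num; done) | (refine le_trans h1 ?_; norm_num; done) | linarith)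
  have a3 := K1b.anti_r (a := 49 / 50) (b := 4 / 5 + w) (by norm_num)
        (by first | linarith only [g1] | linarith only [h0] | linarith) (by linarith only [h1])
  first | with_reducible exact a1 | linarith only [a1, a2] | linarith only [a1, a3] | linarith

theorem K1b.R_t_threeE_0_0 {w : ℝ} (h0 : 0 / 1 ≤ w) (h1 : w ≤ 1 / 5) :
    -(9 / 50) < 1 * uu w 0 + (269 / 2000) + (0 / 1) * w - (uu (4 / 5 + w) 0 - uu (4 / 5) 0 - uu w 0) - (-13 / 100) := by
  rcases le_total w (1 / 100) with g0 | g0
  · have a1 := K1b.r_t_threeE_0_0_0 (w := w) (by first | (refine le_trans ?_ h0; norm_num; done) | (refine le_trans ?_ g0; norm_num; done) | (refine le_trans ?_ g1; norm_num; done) | linarith)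
        (by first | (refine le_trans g0 ?_; norm_num; done) | (refine le_trans g1 ?_; norm_num; done) | (refine le_trans h1 ?_; norm_num; done) | linarith)
    have a2 := K1b.anti_l (a := w) (b := 1 / 100) (by first | (refine le_trans ?_ h0; norm_num; done) | (refine le_trans ?_ g0; norm_num; done) | (refine le_trans ?_ g1; norm_num; done) | linarith) g0 (by norm_num)
    first | with_reducible exact a1 | linarith only [a1, a2] | linarith only [a1, a3] | linarith
  rcases le_total w (9 / 50) with g1 | g1
  · have a1 := K1b.r_t_threeE_0_0_1 (w := w) (by first | (refine le_trans ?_ h0; norm_num; done) | (refine le_trans ?_ g0; norm_num; done) | (refine le_trans ?_ g1; norm_num; done) | linarith)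
        (by first | (refine le_trans g0 ?_; norm_num; done) | (refine le_trans g1 ?_; norm_num; done) | (refine le_trans h1 ?_; norm_num; done) | linarith)
    first | with_reducible exact a1 | linarith only [a1, a2] | linarith only [a1, a3] | linarith
  have a1 := K1b.r_t_threeE_0_0_2 (w := w) (by first | (refine le_trans ?_ h0; norm_num; done) | (refine le_trans ?_ g0; norm_num; done) | (refine le_trans ?_ g1; norm_num; done) | linarith)
        (by first | (refine le_trans g0 ?_; norm_num; done) | (refine le_trans g1 ?_; norm_num; done) | (refine le_trans h1 ?_; norm_num; done) | linarith)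
  have a3 := K1b.anti_r (a := 49 / 50) (b := 4 / 5 + w) (by norm_num)
        (by first | linarith only [g1] | linarith only [h0] | linarith) (by linarith only [h1])
  first | with_reducible exact a1 | linarith only [a1, a2] | linarith only [a1, a3] | linarith

theorem K1b.R_t_ring_0_0 {w : ℝ} (h0 : 0 / 1 ≤ w) (h1 : w ≤ 7 / 50) :
    -(7 / 40) < 1 * uu w 0 + (-67 / 1250) + (543 / 1000) * w - (uu (4 / 5 + w) 0 - uu (4 / 5) 0 - uu w 0) - (-13 / 100) := by
  rcases le_total w (1 / 100) with g0 | g0
  · have a1 := K1b.r_t_ring_0_0_0 (w := w) (by first | (refine le_trans ?_ h0; norm_num; done) | (refine le_trans ?_ g0; norm_num; done) | (refine le_trans ?_ g1; norm_num; done) | linarith)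
        (by first | (refine le_trans g0 ?_; norm_num; done) | (refine le_trans g1 ?_; norm_num; done) | (refine le_trans h1 ?_; norm_num; done) | linarith)
    have a2 := K1b.anti_l (a := w) (b := 1 / 100) (by first | (refine le_trans ?_ h0; norm_num; done) | (refine le_trans ?_ g0; norm_num; done) | (refine le_trans ?_ g1; norm_num; done) | linarith) g0 (by norm_num)
    first | with_reducible exact a1 | linarith only [a1, a2] | linarith only [a1, a3] | linarith
  have a1 := K1b.r_t_ring_0_0_1 (w := w) (by first | (refine le_trans ?_ h0; norm_num; done) | (refine le_trans ?_ g0; norm_num; done) | (refine le_trans ?_ g1; norm_num; done) | linarith)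
        (by first | (refine le_trans g0 ?_; norm_num; done) | (refine le_trans g1 ?_; norm_num; done) | (refine le_trans h1 ?_; norm_num; done) | linarith)
  first | with_reducible exact a1 | linarith only [a1, a2] | linarith only [a1, a3] | linarith

theorem K1b.R_t_ring_1_0 {w : ℝ} (h0 : 7 / 50 ≤ w) (h1 : w ≤ 1 / 5) :
    -(18 / 125) < 1 * uu w 0 + (1291 / 10000) + (-18 / 25) * w - (uu (4 / 5 + w) 0 - uu (4 / 5) 0 - uu w 0) - (-13 / 100) := by
  rcases le_total w (9 / 50) with g0 | g0
  · have a1 := K1b.r_t_ring_1_0_0 (w := w) (by first | (refine le_trans ?_ h0; norm_num; done) | (refine le_trans ?_ g0; norm_num; done) | (refine le_trans ?_ g1; norm_num; done) | linarith)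
        (by first | (refine le_trans g0 ?_; norm_num; done) | (refine le_trans g1 ?_; norm_num; done) | (refine le_trans h1 ?_; norm_num; done) | linarith)
    first | with_reducible exact a1 | linarith only [a1, a2] | linarith only [a1, a3] | linarith
  have a1 := K1b.r_t_ring_1_0_1 (w := w) (by first | (refine le_trans ?_ h0; norm_num; done) | (refine le_trans ?_ g0; norm_num; done) | (refine le_trans ?_ g1; norm_num; done) | linarith)
        (by first | (refine le_trans g0 ?_; norm_num; done) | (refine le_trans g1 ?_; norm_num; done) | (refine le_trans h1 ?_; norm_num; done) | linarith)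
  have a3 := K1b.anti_r (a := 49 / 50) (b := 4 / 5 + w) (by norm_num)
        (by first | linarith only [g1] | linarith only [h0] | linarith) (by linarith only [h1])
  first | with_reducible exact a1 | linarith only [a1, a2] | linarith only [a1, a3] | linarith

theorem K1b.R_t_touched_0_0 {w : ℝ} (h0 : 0 / 1 ≤ w) (h1 : w ≤ 1 / 5) :
    -(11 / 50) < 0 * uu w 0 + (0 / 1) + (0 / 1) * w - (uu (4 / 5 + w) 0 - uu (4 / 5) 0 - uu w 0) - (-13 / 100) := by
  rcases le_total w (1 / 100) with g0 | g0
  · have a1 := K1b.r_t_touched_0_0_0 (w := w) (by first | (refine le_trans ?_ h0; norm_num; done) | (refine le_trans ?_ g0; norm_num; done) | (refine le_trans ?_ g1; norm_num; done) | linarith)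
        (by first | (refine le_trans g0 ?_; norm_num; done) | (refine le_trans g1 ?_; norm_num; done) | (refine le_trans h1 ?_; norm_num; done) | linarith)
    have a2 := K1b.anti_l (a := w) (b := 1 / 100) (by first | (refine le_trans ?_ h0; norm_num; done) | (refine le_trans ?_ g0; norm_num; done) | (refine le_trans ?_ g1; norm_num; done) | linarith) g0 (by norm_num)
    first | with_reducible exact a1 | linarith only [a1, a2] | linarith only [a1, a3] | linarith
  rcases le_total w (9 / 50) with g1 | g1
  · have a1 := K1b.r_t_touched_0_0_1 (w := w) (by first | (refine le_trans ?_ h0; norm_num; done) | (refine le_trans ?_ g0; norm_num; done) | (refine le_trans ?_ g1; norm_num; done) | linarith)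
        (by first | (refine le_trans g0 ?_; norm_num; done) | (refine le_trans g1 ?_; norm_num; done) | (refine le_trans h1 ?_; norm_num; done) | linarith)
    first | with_reducible exact a1 | linarith only [a1, a2] | linarith only [a1, a3] | linarith
  have a1 := K1b.r_t_touched_0_0_2 (w := w) (by first | (refine le_trans ?_ h0; norm_num; done) | (refine le_trans ?_ g0; norm_num; done) | (refine le_trans ?_ g1; norm_num; done) | linarith)
        (by first | (refine le_trans g0 ?_; norm_num; done) | (refine le_trans g1 ?_; norm_num; done) | (refine le_trans h1 ?_; norm_num; done) | linarith)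
  have a3 := K1b.anti_r (a := 49 / 50) (b := 4 / 5 + w) (by norm_num)
        (by first | linarith only [g1] | linarith only [h0] | linarith) (by linarith only [h1])
  first | with_reducible exact a1 | linarith only [a1, a2] | linarith only [a1, a3] | linarith

theorem K1b.R_e_one_0_0 {w : ℝ} (h0 : 0 / 1 ≤ w) (h1 : w ≤ 9 / 50) :
    -(21 / 100) < 0 * uu w 0 + (-11 / 1000) + (0 / 1) * w - (uu (7 / 10 + w) 0 - uu (7 / 10) 0 - uu w 0) - (-9 / 40) := by
  rcases le_total w (1 / 100) with g0 | g0
  · have a1 := K1b.r_e_one_0_0_0 (w := w) (by first | (refine le_trans ?_ h0; norm_num; done) | (refine le_trans ?_ g0; norm_num; done) | (refine le_trans ?_ g1; norm_num; done) | linarith)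
        (by first | (refine le_trans g0 ?_; norm_num; done) | (refine le_trans g1 ?_; norm_num; done) | (refine le_trans h1 ?_; norm_num; done) | linarith)
    have a2 := K1b.anti_l (a := w) (b := 1 / 100) (by first | (refine le_trans ?_ h0; norm_num; done) | (refine le_trans ?_ g0; norm_num; done) | (refine le_trans ?_ g1; norm_num; done) | linarith) g0 (by norm_num)
    first | with_reducible exact a1 | linarith only [a1, a2] | linarith only [a1, a3] | linarith
  have a1 := K1b.r_e_one_0_0_1 (w := w) (by first | (refine le_trans ?_ h0; norm_num; done) | (refine le_trans ?_ g0; norm_num; done) | (refine le_trans ?_ g1; norm_num; done) | linarith)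
        (by first | (refine le_trans g0 ?_; norm_num; done) | (refine le_trans g1 ?_; norm_num; done) | (refine le_trans h1 ?_; norm_num; done) | linarith)
  first | with_reducible exact a1 | linarith only [a1, a2] | linarith only [a1, a3] | linarith

theorem K1b.R_e_one_0_1 {w : ℝ} (h0 : 0 / 1 ≤ w) (h1 : w ≤ 1 / 20) :
    -(21 / 100) < 0 * uu w 0 + (-11 / 1000) + (0 / 1) * w - (uu (19 / 20 + w) 0 - uu (19 / 20) 0 - uu w 0) - (-1 / 10) := by
  rcases le_total w (1 / 100) with g0 | g0
  · have a1 := K1b.r_e_one_0_1_0 (w := w) (by first | (refine le_trans ?_ h0; norm_num; done) | (refine le_trans ?_ g0; norm_num; done) | (refine le_trans ?_ g1; norm_num; done) | linarith)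
        (by first | (refine le_trans g0 ?_; norm_num; done) | (refine le_trans g1 ?_; norm_num; done) | (refine le_trans h1 ?_; norm_num; done) | linarith)
    have a2 := K1b.anti_l (a := w) (b := 1 / 100) (by first | (refine le_trans ?_ h0; norm_num; done) | (refine le_trans ?_ g0; norm_num; done) | (refine le_trans ?_ g1; norm_num; done) | linarith) g0 (by norm_num)
    first | with_reducible exact a1 | linarith only [a1, a2] | linarith only [a1, a3] | linarith
  rcases le_total w (1 / 25) with g1 | g1
  · have a1 := K1b.r_e_one_0_1_1 (w := w) (by first | (refine le_trans ?_ h0; norm_num; done) | (refine le_trans ?_ g0; norm_num; done) | (refine le_trans ?_ g1; norm_num; done) | linarith)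
        (by first | (refine le_trans g0 ?_; norm_num; done) | (refine le_trans g1 ?_; norm_num; done) | (refine le_trans h1 ?_; norm_num; done) | linarith)
    first | with_reducible exact a1 | linarith only [a1, a2] | linarith only [a1, a3] | linarith
  have a1 := K1b.r_e_one_0_1_2 (w := w) (by first | (refine le_trans ?_ h0; norm_num; done) | (refine le_trans ?_ g0; norm_num; done) | (refine le_trans ?_ g1; norm_num; done) | linarith)
        (by first | (refine le_trans g0 ?_; norm_num; done) | (refine le_trans g1 ?_; norm_num; done) | (refine le_trans h1 ?_; norm_num; done) | linarith)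
  have a3 := K1b.anti_r (a := 99 / 100) (b := 19 / 20 + w) (by norm_num)
        (by first | linarith only [g1] | linarith only [h0] | linarith) (by linarith only [h1])
  first | with_reducible exact a1 | linarith only [a1, a2] | linarith only [a1, a3] | linarith

theorem K1b.R_e_one_1_0 {w : ℝ} (h0 : 0 / 1 ≤ w) (h1 : w ≤ 9 / 50) :
    -(21 / 100) < 1 * uu w 0 + (-163 / 5000) + (779 / 1000) * w - (uu (7 / 10 + w) 0 - uu (7 / 10) 0 - uu w 0) - (-9 / 40) := by
  rcases le_total w (1 / 100) with g0 | g0
  · have a1 := K1b.r_e_one_1_0_0 (w := w) (by first | (refine le_trans ?_ h0; norm_num; done) | (refine le_trans ?_ g0; norm_num; done) | (refine le_trans ?_ g1; norm_num; done) | linarith)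
        (by first | (refine le_trans g0 ?_; norm_num; done) | (refine le_trans g1 ?_; norm_num; done) | (refine le_trans h1 ?_; norm_num; done) | linarith)
    have a2 := K1b.anti_l (a := w) (b := 1 / 100) (by first | (refine le_trans ?_ h0; norm_num; done) | (refine le_trans ?_ g0; norm_num; done) | (refine le_trans ?_ g1; norm_num; done) | linarith) g0 (by norm_num)
    first | with_reducible exact a1 | linarith only [a1, a2] | linarith only [a1, a3] | linarith
  have a1 := K1b.r_e_one_1_0_1 (w := w) (by first | (refine le_trans ?_ h0; norm_num; done) | (refine le_trans ?_ g0; norm_num; done) | (refine le_trans ?_ g1; norm_num; done) | linarith)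
        (by first | (refine le_trans g0 ?_; norm_num; done) | (refine le_trans g1 ?_; norm_num; done) | (refine le_trans h1 ?_; norm_num; done) | linarith)
  first | with_reducible exact a1 | linarith only [a1, a2] | linarith only [a1, a3] | linarith

theorem K1b.R_e_one_1_1 {w : ℝ} (h0 : 0 / 1 ≤ w) (h1 : w ≤ 1 / 20) :
    -(21 / 100) < 1 * uu w 0 + (-163 / 5000) + (779 / 1000) * w - (uu (19 / 20 + w) 0 - uu (19 / 20) 0 - uu w 0) - (-1 / 10) := by
  rcases le_total w (1 / 100) with g0 | g0
  · have a1 := K1b.r_e_one_1_1_0 (w := w) (by first | (refine le_trans ?_ h0; norm_num; done) | (refine le_trans ?_ g0; norm_num; done) | (refine le_trans ?_ g1; norm_num; done) | linarith)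
        (by first | (refine le_trans g0 ?_; norm_num; done) | (refine le_trans g1 ?_; norm_num; done) | (refine le_trans h1 ?_; norm_num; done) | linarith)
    have a2 := K1b.anti_l (a := w) (b := 1 / 100) (by first | (refine le_trans ?_ h0; norm_num; done) | (refine le_trans ?_ g0; norm_num; done) | (refine le_trans ?_ g1; norm_num; done) | linarith) g0 (by norm_num)
    first | with_reducible exact a1 | linarith only [a1, a2] | linarith only [a1, a3] | linarith
  rcases le_total w (1 / 25) with g1 | g1
  · have a1 := K1b.r_e_one_1_1_1 (w := w) (by first | (refine le_trans ?_ h0; norm_num; done) | (refine le_trans ?_ g0; norm_num; done) | (refine le_trans ?_ g1; norm_num; done) | linarith)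
        (by first | (refine le_trans g0 ?_; norm_num; done) | (refine le_trans g1 ?_; norm_num; done) | (refine le_trans h1 ?_; norm_num; done) | linarith)
    first | with_reducible exact a1 | linarith only [a1, a2] | linarith only [a1, a3] | linarith
  have a1 := K1b.r_e_one_1_1_2 (w := w) (by first | (refine le_trans ?_ h0; norm_num; done) | (refine le_trans ?_ g0; norm_num; done) | (refine le_trans ?_ g1; norm_num; done) | linarith)
        (by first | (refine le_trans g0 ?_; norm_num; done) | (refine le_trans g1 ?_; norm_num; done) | (refine le_trans h1 ?_; norm_num; done) | linarith)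
  have a3 := K1b.anti_r (a := 99 / 100) (b := 19 / 20 + w) (by norm_num)
        (by first | linarith only [g1] | linarith only [h0] | linarith) (by linarith only [h1])
  first | with_reducible exact a1 | linarith only [a1, a2] | linarith only [a1, a3] | linarith

theorem K1b.R_e_one_2_0 {w : ℝ} (h0 : 9 / 50 ≤ w) (h1 : w ≤ 3 / 10) :
    -(11 / 50) < 1 * uu w 0 + (164 / 625) + (-921 / 1000) * w - (uu (7 / 10 + w) 0 - uu (7 / 10) 0 - uu w 0) - (-9 / 40) := by
  rcases le_total w (7 / 25) with g0 | g0
  · have a1 := K1b.r_e_one_2_0_0 (w := w) (by first | (refine le_trans ?_ h0; norm_num; done) | (refine le_trans ?_ g0; norm_num; done) | (refine le_trans ?_ g1; norm_num; done) | linarith)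
        (by first | (refine le_trans g0 ?_; norm_num; done) | (refine le_trans g1 ?_; norm_num; done) | (refine le_trans h1 ?_; norm_num; done) | linarith)
    first | with_reducible exact a1 | linarith only [a1, a2] | linarith only [a1, a3] | linarith
  have a1 := K1b.r_e_one_2_0_1 (w := w) (by first | (refine le_trans ?_ h0; norm_num; done) | (refine le_trans ?_ g0; norm_num; done) | (refine le_trans ?_ g1; norm_num; done) | linarith)
        (by first | (refine le_trans g0 ?_; norm_num; done) | (refine le_trans g1 ?_; norm_num; done) | (refine le_trans h1 ?_; norm_num; done) | linarith)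
  have a3 := K1b.anti_r (a := 49 / 50) (b := 7 / 10 + w) (by norm_num)
        (by first | linarith only [g1] | linarith only [h0] | linarith) (by linarith only [h1])
  first | with_reducible exact a1 | linarith only [a1, a2] | linarith only [a1, a3] | linarith

theorem K1b.R_e_one_3_0 {w : ℝ} (h0 : 9 / 50 ≤ w) (h1 : w ≤ 3 / 10) :
    -(23 / 100) < 1 * uu w 0 + (1451 / 5000) + (-1021 / 1000) * w - (uu (7 / 10 + w) 0 - uu (7 / 10) 0 - uu w 0) - (-9 / 40) := by
  rcases le_total w (7 / 25) with g0 | g0
  · have a1 := K1b.r_e_one_3_0_0 (w := w) (by first | (refine le_trans ?_ h0; norm_num; done) | (refine le_trans ?_ g0; norm_num; done) | (refine le_trans ?_ g1; norm_num; done) | linarith)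
        (by first | (refine le_trans g0 ?_; norm_num; done) | (refine le_trans g1 ?_; norm_num; done) | (refine le_trans h1 ?_; norm_num; done) | linarith)
    first | with_reducible exact a1 | linarith only [a1, a2] | linarith only [a1, a3] | linarith
  have a1 := K1b.r_e_one_3_0_1 (w := w) (by first | (refine le_trans ?_ h0; norm_num; done) | (refine le_trans ?_ g0; norm_num; done) | (refine le_trans ?_ g1; norm_num; done) | linarith)
        (by first | (refine le_trans g0 ?_; norm_num; done) | (refine le_trans g1 ?_; norm_num; done) | (refine le_trans h1 ?_; norm_num; done) | linarith)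
  have a3 := K1b.anti_r (a := 49 / 50) (b := 7 / 10 + w) (by norm_num)
        (by first | linarith only [g1] | linarith only [h0] | linarith) (by linarith only [h1])
  first | with_reducible exact a1 | linarith only [a1, a2] | linarith only [a1, a3] | linarith

theorem K1b.R_e_two_0_0 {w : ℝ} (h0 : 0 / 1 ≤ w) (h1 : w ≤ 3 / 10) :
    -(21 / 100) < 1 * uu w 0 + (53 / 625) + (-37 / 250) * w - (uu (7 / 10 + w) 0 - uu (7 / 10) 0 - uu w 0) - (-9 / 40) := by
  rcases le_total w (1 / 100) with g0 | g0
  · have a1 := K1b.r_e_two_0_0_0 (w := w) (by first | (refine le_trans ?_ h0; norm_num; done) | (refine le_trans ?_ g0; norm_num; done) | (refine le_trans ?_ g1; norm_num; done) | linarith)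
        (by first | (refine le_trans g0 ?_; norm_num; done) | (refine le_trans g1 ?_; norm_num; done) | (refine le_trans h1 ?_; norm_num; done) | linarith)
    have a2 := K1b.anti_l (a := w) (b := 1 / 100) (by first | (refine le_trans ?_ h0; norm_num; done) | (refine le_trans ?_ g0; norm_num; done) | (refine le_trans ?_ g1; norm_num; done) | linarith) g0 (by norm_num)
    first | with_reducible exact a1 | linarith only [a1, a2] | linarith only [a1, a3] | linarith
  rcases le_total w (7 / 25) with g1 | g1
  · have a1 := K1b.r_e_two_0_0_1 (w := w) (by first | (refine le_trans ?_ h0; norm_num; done) | (refine le_trans ?_ g0; norm_num; done) | (refine le_trans ?_ g1; norm_num; done) | linarith)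
        (by first | (refine le_trans g0 ?_; norm_num; done) | (refine le_trans g1 ?_; norm_num; done) | (refine le_trans h1 ?_; norm_num; done) | linarith)
    first | with_reducible exact a1 | linarith only [a1, a2] | linarith only [a1, a3] | linarith
  have a1 := K1b.r_e_two_0_0_2 (w := w) (by first | (refine le_trans ?_ h0; norm_num; done) | (refine le_trans ?_ g0; norm_num; done) | (refine le_trans ?_ g1; norm_num; done) | linarith)
        (by first | (refine le_trans g0 ?_; norm_num; done) | (refine le_trans g1 ?_; norm_num; done) | (refine le_trans h1 ?_; norm_num; done) | linarith)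
  have a3 := K1b.anti_r (a := 49 / 50) (b := 7 / 10 + w) (by norm_num)
        (by first | linarith only [g1] | linarith only [h0] | linarith) (by linarith only [h1])
  first | with_reducible exact a1 | linarith only [a1, a2] | linarith only [a1, a3] | linarith

theorem K1b.R_e_two_0_1 {w : ℝ} (h0 : 0 / 1 ≤ w) (h1 : w ≤ 1 / 20) :
    -(21 / 100) < 1 * uu w 0 + (53 / 625) + (-37 / 250) * w - (uu (19 / 20 + w) 0 - uu (19 / 20) 0 - uu w 0) - (-1 / 10) := by
  rcases le_total w (1 / 100) with g0 | g0
  · have a1 := K1b.r_e_two_0_1_0 (w := w) (by first | (refine le_trans ?_ h0; norm_num; done) | (refine le_trans ?_ g0; norm_num; done) | (refine le_trans ?_ g1; norm_num; done) | linarith)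
        (by first | (refine le_trans g0 ?_; norm_num; done) | (refine le_trans g1 ?_; norm_num; done) | (refine le_trans h1 ?_; norm_num; done) | linarith)
    have a2 := K1b.anti_l (a := w) (b := 1 / 100) (by first | (refine le_trans ?_ h0; norm_num; done) | (refine le_trans ?_ g0; norm_num; done) | (refine le_trans ?_ g1; norm_num; done) | linarith) g0 (by norm_num)
    first | with_reducible exact a1 | linarith only [a1, a2] | linarith only [a1, a3] | linarith
  rcases le_total w (1 / 25) with g1 | g1
  · have a1 := K1b.r_e_two_0_1_1 (w := w) (by first | (refine le_trans ?_ h0; norm_num; done) | (refine le_trans ?_ g0; norm_num; done) | (refine le_trans ?_ g1; norm_num; done) | linarith)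
        (by first | (refine le_trans g0 ?_; norm_num; done) | (refine le_trans g1 ?_; norm_num; done) | (refine le_trans h1 ?_; norm_num; done) | linarith)
    first | with_reducible exact a1 | linarith only [a1, a2] | linarith only [a1, a3] | linarith
  have a1 := K1b.r_e_two_0_1_2 (w := w) (by first | (refine le_trans ?_ h0; norm_num; done) | (refine le_trans ?_ g0; norm_num; done) | (refine le_trans ?_ g1; norm_num; done) | linarith)
        (by first | (refine le_trans g0 ?_; norm_num; done) | (refine le_trans g1 ?_; norm_num; done) | (refine le_trans h1 ?_; norm_num; done) | linarith)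
  have a3 := K1b.anti_r (a := 99 / 100) (b := 19 / 20 + w) (by norm_num)
        (by first | linarith only [g1] | linarith only [h0] | linarith) (by linarith only [h1])
  first | with_reducible exact a1 | linarith only [a1, a2] | linarith only [a1, a3] | linarith

theorem K1b.R_e_twoE_0_0 {w : ℝ} (h0 : 0 / 1 ≤ w) (h1 : w ≤ 3 / 10) :
    -(1 / 4) < 1 * uu w 0 + (309 / 2000) + (0 / 1) * w - (uu (7 / 10 + w) 0 - uu (7 / 10) 0 - uu w 0) - (-9 / 40) := by
  rcases le_total w (1 / 100) with g0 | g0
  · have a1 := K1b.r_e_twoE_0_0_0 (w := w) (by first | (refine le_trans ?_ h0; norm_num; done) | (refine le_trans ?_ g0; norm_num; done) | (refine le_trans ?_ g1; norm_num; done) | linarith)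
        (by first | (refine le_trans g0 ?_; norm_num; done) | (refine le_trans g1 ?_; norm_num; done) | (refine le_trans h1 ?_; norm_num; done) | linarith)
    have a2 := K1b.anti_l (a := w) (b := 1 / 100) (by first | (refine le_trans ?_ h0; norm_num; done) | (refine le_trans ?_ g0; norm_num; done) | (refine le_trans ?_ g1; norm_num; done) | linarith) g0 (by norm_num)
    first | with_reducible exact a1 | linarith only [a1, a2] | linarith only [a1, a3] | linarith
  rcases le_total w (7 / 25) with g1 | g1
  · have a1 := K1b.r_e_twoE_0_0_1 (w := w) (by first | (refine le_trans ?_ h0; norm_num; done) | (refine le_trans ?_ g0; norm_num; done) | (refine le_trans ?_ g1; norm_num; done) | linarith)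
        (by first | (refine le_trans g0 ?_; norm_num; done) | (refine le_trans g1 ?_; norm_num; done) | (refine le_trans h1 ?_; norm_num; done) | linarith)
    first | with_reducible exact a1 | linarith only [a1, a2] | linarith only [a1, a3] | linarith
  have a1 := K1b.r_e_twoE_0_0_2 (w := w) (by first | (refine le_trans ?_ h0; norm_num; done) | (refine le_trans ?_ g0; norm_num; done) | (refine le_trans ?_ g1; norm_num; done) | linarith)
        (by first | (refine le_trans g0 ?_; norm_num; done) | (refine le_trans g1 ?_; norm_num; done) | (refine le_trans h1 ?_; norm_num; done) | linarith)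
  have a3 := K1b.anti_r (a := 49 / 50) (b := 7 / 10 + w) (by norm_num)
        (by first | linarith only [g1] | linarith only [h0] | linarith) (by linarith only [h1])
  first | with_reducible exact a1 | linarith only [a1, a2] | linarith only [a1, a3] | linarith

theorem K1b.R_e_twoE_0_1 {w : ℝ} (h0 : 0 / 1 ≤ w) (h1 : w ≤ 1 / 20) :
    -(1 / 4) < 1 * uu w 0 + (309 / 2000) + (0 / 1) * w - (uu (19 / 20 + w) 0 - uu (19 / 20) 0 - uu w 0) - (-1 / 10) := by
  rcases le_total w (1 / 100) with g0 | g0
  · have a1 := K1b.r_e_twoE_0_1_0 (w := w) (by first | (refine le_trans ?_ h0; norm_num; done) | (refine le_trans ?_ g0; norm_num; done) | (refine le_trans ?_ g1; norm_num; done) | linarith)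
        (by first | (refine le_trans g0 ?_; norm_num; done) | (refine le_trans g1 ?_; norm_num; done) | (refine le_trans h1 ?_; norm_num; done) | linarith)
    have a2 := K1b.anti_l (a := w) (b := 1 / 100) (by first | (refine le_trans ?_ h0; norm_num; done) | (refine le_trans ?_ g0; norm_num; done) | (refine le_trans ?_ g1; norm_num; done) | linarith) g0 (by norm_num)
    first | with_reducible exact a1 | linarith only [a1, a2] | linarith only [a1, a3] | linarith
  rcases le_total w (1 / 25) with g1 | g1
  · have a1 := K1b.r_e_twoE_0_1_1 (w := w) (by first | (refine le_trans ?_ h0; norm_num; done) | (refine le_trans ?_ g0; norm_num; done) | (refine le_trans ?_ g1; norm_num; done) | linarith)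
        (by first | (refine le_trans g0 ?_; norm_num; done) | (refine le_trans g1 ?_; norm_num; done) | (refine le_trans h1 ?_; norm_num; done) | linarith)
    first | with_reducible exact a1 | linarith only [a1, a2] | linarith only [a1, a3] | linarith
  have a1 := K1b.r_e_twoE_0_1_2 (w := w) (by first | (refine le_trans ?_ h0; norm_num; done) | (refine le_trans ?_ g0; norm_num; done) | (refine le_trans ?_ g1; norm_num; done) | linarith)
        (by first | (refine le_trans g0 ?_; norm_num; done) | (refine le_trans g1 ?_; norm_num; done) | (refine le_trans h1 ?_; norm_num; done) | linarith)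
  have a3 := K1b.anti_r (a := 99 / 100) (b := 19 / 20 + w) (by norm_num)
        (by first | linarith only [g1] | linarith only [h0] | linarith) (by linarith only [h1])
  first | with_reducible exact a1 | linarith only [a1, a2] | linarith only [a1, a3] | linarith

theorem K1b.R_e_threeA_0_0 {w : ℝ} (h0 : 0 / 1 ≤ w) (h1 : w ≤ 4 / 25) :
    -(51 / 500) < 1 * uu w 0 + (62 / 625) + (-227 / 1000) * w - (uu (7 / 10 + w) 0 - uu (7 / 10) 0 - uu w 0) - (-9 / 40) := by
  rcases le_total w (1 / 100) with g0 | g0
  · have a1 := K1b.r_e_threeA_0_0_0 (w := w) (by first | (refine le_trans ?_ h0; norm_num; done) | (refine le_trans ?_ g0; norm_num; done) | (refine le_trans ?_ g1; norm_num; done) | linarith)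
        (by first | (refine le_trans g0 ?_; norm_num; done) | (refine le_trans g1 ?_; norm_num; done) | (refine le_trans h1 ?_; norm_num; done) | linarith)
    have a2 := K1b.anti_l (a := w) (b := 1 / 100) (by first | (refine le_trans ?_ h0; norm_num; done) | (refine le_trans ?_ g0; norm_num; done) | (refine le_trans ?_ g1; norm_num; done) | linarith) g0 (by norm_num)
    first | with_reducible exact a1 | linarith only [a1, a2] | linarith only [a1, a3] | linarith
  have a1 := K1b.r_e_threeA_0_0_1 (w := w) (by first | (refine le_trans ?_ h0; norm_num; done) | (refine le_trans ?_ g0; norm_num; done) | (refine le_trans ?_ g1; norm_num; done) | linarith)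
        (by first | (refine le_trans g0 ?_; norm_num; done) | (refine le_trans g1 ?_; norm_num; done) | (refine le_trans h1 ?_; norm_num; done) | linarith)
  first | with_reducible exact a1 | linarith only [a1, a2] | linarith only [a1, a3] | linarith

theorem K1b.R_e_threeA_0_1 {w : ℝ} (h0 : 0 / 1 ≤ w) (h1 : w ≤ 1 / 20) :
    -(51 / 500) < 1 * uu w 0 + (62 / 625) + (-227 / 1000) * w - (uu (19 / 20 + w) 0 - uu (19 / 20) 0 - uu w 0) - (-1 / 10) := by
  rcases le_total w (1 / 100) with g0 | g0
  · have a1 := K1b.r_e_threeA_0_1_0 (w := w) (by first | (refine le_trans ?_ h0; norm_num; done) | (refine le_trans ?_ g0; norm_num; done) | (refine le_trans ?_ g1; norm_num; done) | linarith)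
        (by first | (refine le_trans g0 ?_; norm_num; done) | (refine le_trans g1 ?_; norm_num; done) | (refine le_trans h1 ?_; norm_num; done) | linarith)
    have a2 := K1b.anti_l (a := w) (b := 1 / 100) (by first | (refine le_trans ?_ h0; norm_num; done) | (refine le_trans ?_ g0; norm_num; done) | (refine le_trans ?_ g1; norm_num; done) | linarith) g0 (by norm_num)
    first | with_reducible exact a1 | linarith only [a1, a2] | linarith only [a1, a3] | linarith
  rcases le_total w (1 / 25) with g1 | g1
  · have a1 := K1b.r_e_threeA_0_1_1 (w := w) (by first | (refine le_trans ?_ h0; norm_num; done) | (refine le_trans ?_ g0; norm_num; done) | (refine le_trans ?_ g1; norm_num; done) | linarith)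
        (by first | (refine le_trans g0 ?_; norm_num; done) | (refine le_trans g1 ?_; norm_num; done) | (refine le_trans h1 ?_; norm_num; done) | linarith)
    first | with_reducible exact a1 | linarith only [a1, a2] | linarith only [a1, a3] | linarith
  have a1 := K1b.r_e_threeA_0_1_2 (w := w) (by first | (refine le_trans ?_ h0; norm_num; done) | (refine le_trans ?_ g0; norm_num; done) | (refine le_trans ?_ g1; norm_num; done) | linarith)
        (by first | (refine le_trans g0 ?_; norm_num; done) | (refine le_trans g1 ?_; norm_num; done) | (refine le_trans h1 ?_; norm_num; done) | linarith)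
  have a3 := K1b.anti_r (a := 99 / 100) (b := 19 / 20 + w) (by norm_num)
        (by first | linarith only [g1] | linarith only [h0] | linarith) (by linarith only [h1])
  first | with_reducible exact a1 | linarith only [a1, a2] | linarith only [a1, a3] | linarith

theorem K1b.R_e_threeA_1_0 {w : ℝ} (h0 : 4 / 25 ≤ w) (h1 : w ≤ 3 / 10) :
    -(91 / 1000) < 1 * uu w 0 + (1289 / 5000) + (-553 / 500) * w - (uu (7 / 10 + w) 0 - uu (7 / 10) 0 - uu w 0) - (-9 / 40) := by
  rcases le_total w (7 / 25) with g0 | g0
  · have a1 := K1b.r_e_threeA_1_0_0 (w := w) (by first | (refine le_trans ?_ h0; norm_num; done) | (refine le_trans ?_ g0; norm_num; done) | (refine le_trans ?_ g1; norm_num; done) | linarith)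
        (by first | (refine le_trans g0 ?_; norm_num; done) | (refine le_trans g1 ?_; norm_num; done) | (refine le_trans h1 ?_; norm_num; done) | linarith)
    first | with_reducible exact a1 | linarith only [a1, a2] | linarith only [a1, a3] | linarith
  have a1 := K1b.r_e_threeA_1_0_1 (w := w) (by first | (refine le_trans ?_ h0; norm_num; done) | (refine le_trans ?_ g0; norm_num; done) | (refine le_trans ?_ g1; norm_num; done) | linarith)
        (by first | (refine le_trans g0 ?_; norm_num; done) | (refine le_trans g1 ?_; norm_num; done) | (refine le_trans h1 ?_; norm_num; done) | linarith)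
  have a3 := K1b.anti_r (a := 49 / 50) (b := 7 / 10 + w) (by norm_num)
        (by first | linarith only [g1] | linarith only [h0] | linarith) (by linarith only [h1])
  first | with_reducible exact a1 | linarith only [a1, a2] | linarith only [a1, a3] | linarith

theorem K1b.R_e_threeK_0_0 {w : ℝ} (h0 : 0 / 1 ≤ w) (h1 : w ≤ 3 / 10) :
    -(17 / 100) < 1 * uu w 0 + (7 / 625) + (97 / 1000) * w - (uu (7 / 10 + w) 0 - uu (7 / 10) 0 - uu w 0) - (-9 / 40) := by
  rcases le_total w (1 / 100) with g0 | g0
  · have a1 := K1b.r_e_threeK_0_0_0 (w := w) (by first | (refine le_trans ?_ h0; norm_num; done) | (refine le_trans ?_ g0; norm_num; done) | (refine le_trans ?_ g1; norm_num; done) | linarith)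
        (by first | (refine le_trans g0 ?_; norm_num; done) | (refine le_trans g1 ?_; norm_num; done) | (refine le_trans h1 ?_; norm_num; done) | linarith)
    have a2 := K1b.anti_l (a := w) (b := 1 / 100) (by first | (refine le_trans ?_ h0; norm_num; done) | (refine le_trans ?_ g0; norm_num; done) | (refine le_trans ?_ g1; norm_num; done) | linarith) g0 (by norm_num)
    first | with_reducible exact a1 | linarith only [a1, a2] | linarith only [a1, a3] | linarith
  rcases le_total w (7 / 25) with g1 | g1
  · have a1 := K1b.r_e_threeK_0_0_1 (w := w) (by first | (refine le_trans ?_ h0; norm_num; done) | (refine le_trans ?_ g0; norm_num; done) | (refine le_trans ?_ g1; norm_num; done) | linarith)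
        (by first | (refine le_trans g0 ?_; norm_num; done) | (refine le_trans g1 ?_; norm_num; done) | (refine le_trans h1 ?_; norm_num; done) | linarith)
    first | with_reducible exact a1 | linarith only [a1, a2] | linarith only [a1, a3] | linarith
  have a1 := K1b.r_e_threeK_0_0_2 (w := w) (by first | (refine le_trans ?_ h0; norm_num; done) | (refine le_trans ?_ g0; norm_num; done) | (refine le_trans ?_ g1; norm_num; done) | linarith)
        (by first | (refine le_trans g0 ?_; norm_num; done) | (refine le_trans g1 ?_; norm_num; done) | (refine le_trans h1 ?_; norm_num; done) | linarith)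
  have a3 := K1b.anti_r (a := 49 / 50) (b := 7 / 10 + w) (by norm_num)
        (by first | linarith only [g1] | linarith only [h0] | linarith) (by linarith only [h1])
  first | with_reducible exact a1 | linarith only [a1, a2] | linarith only [a1, a3] | linarith

theorem K1b.R_e_threeK_0_1 {w : ℝ} (h0 : 0 / 1 ≤ w) (h1 : w ≤ 1 / 20) :
    -(17 / 100) < 1 * uu w 0 + (7 / 625) + (97 / 1000) * w - (uu (19 / 20 + w) 0 - uu (19 / 20) 0 - uu w 0) - (-1 / 10) := by
  rcases le_total w (1 / 100) with g0 | g0
  · have a1 := K1b.r_e_threeK_0_1_0 (w := w) (by first | (refine le_trans ?_ h0; norm_num; done) | (refine le_trans ?_ g0; norm_num; done) | (refine le_trans ?_ g1; norm_num; done) | linarith)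
        (by first | (refine le_trans g0 ?_; norm_num; done) | (refine le_trans g1 ?_; norm_num; done) | (refine le_trans h1 ?_; norm_num; done) | linarith)
    have a2 := K1b.anti_l (a := w) (b := 1 / 100) (by first | (refine le_trans ?_ h0; norm_num; done) | (refine le_trans ?_ g0; norm_num; done) | (refine le_trans ?_ g1; norm_num; done) | linarith) g0 (by norm_num)
    first | with_reducible exact a1 | linarith only [a1, a2] | linarith only [a1, a3] | linarith
  rcases le_total w (1 / 25) with g1 | g1
  · have a1 := K1b.r_e_threeK_0_1_1 (w := w) (by first | (refine le_trans ?_ h0; norm_num; done) | (refine le_trans ?_ g0; norm_num; done) | (refine le_trans ?_ g1; norm_num; done) | linarith)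
        (by first | (refine le_trans g0 ?_; norm_num; done) | (refine le_trans g1 ?_; norm_num; done) | (refine le_trans h1 ?_; norm_num; done) | linarith)
    first | with_reducible exact a1 | linarith only [a1, a2] | linarith only [a1, a3] | linarith
  have a1 := K1b.r_e_threeK_0_1_2 (w := w) (by first | (refine le_trans ?_ h0; norm_num; done) | (refine le_trans ?_ g0; norm_num; done) | (refine le_trans ?_ g1; norm_num; done) | linarith)
        (by first | (refine le_trans g0 ?_; norm_num; done) | (refine le_trans g1 ?_; norm_num; done) | (refine le_trans h1 ?_; norm_num; done) | linarith)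
  have a3 := K1b.anti_r (a := 99 / 100) (b := 19 / 20 + w) (by norm_num)
        (by first | linarith only [g1] | linarith only [h0] | linarith) (by linarith only [h1])
  first | with_reducible exact a1 | linarith only [a1, a2] | linarith only [a1, a3] | linarith

theorem K1b.R_e_threeE_0_0 {w : ℝ} (h0 : 0 / 1 ≤ w) (h1 : w ≤ 3 / 10) :
    -(19 / 100) < 1 * uu w 0 + (269 / 2000) + (0 / 1) * w - (uu (7 / 10 + w) 0 - uu (7 / 10) 0 - uu w 0) - (-9 / 40) := by
  rcases le_total w (1 / 100) with g0 | g0
  · have a1 := K1b.r_e_threeE_0_0_0 (w := w) (by first | (refine le_trans ?_ h0; norm_num; done) | (refine le_trans ?_ g0; norm_num; done) | (refine le_trans ?_ g1; norm_num; done) | linarith)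
        (by first | (refine le_trans g0 ?_; norm_num; done) | (refine le_trans g1 ?_; norm_num; done) | (refine le_trans h1 ?_; norm_num; done) | linarith)
    have a2 := K1b.anti_l (a := w) (b := 1 / 100) (by first | (refine le_trans ?_ h0; norm_num; done) | (refine le_trans ?_ g0; norm_num; done) | (refine le_trans ?_ g1; norm_num; done) | linarith) g0 (by norm_num)
    first | with_reducible exact a1 | linarith only [a1, a2] | linarith only [a1, a3] | linarith
  rcases le_total w (7 / 25) with g1 | g1
  · have a1 := K1b.r_e_threeE_0_0_1 (w := w) (by first | (refine le_trans ?_ h0; norm_num; done) | (refine le_trans ?_ g0; norm_num; done) | (refine le_trans ?_ g1; norm_num; done) | linarith)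
        (by first | (refine le_trans g0 ?_; norm_num; done) | (refine le_trans g1 ?_; norm_num; done) | (refine le_trans h1 ?_; norm_num; done) | linarith)
    first | with_reducible exact a1 | linarith only [a1, a2] | linarith only [a1, a3] | linarith
  have a1 := K1b.r_e_threeE_0_0_2 (w := w) (by first | (refine le_trans ?_ h0; norm_num; done) | (refine le_trans ?_ g0; norm_num; done) | (refine le_trans ?_ g1; norm_num; done) | linarith)
        (by first | (refine le_trans g0 ?_; norm_num; done) | (refine le_trans g1 ?_; norm_num; done) | (refine le_trans h1 ?_; norm_num; done) | linarith)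
  have a3 := K1b.anti_r (a := 49 / 50) (b := 7 / 10 + w) (by norm_num)
        (by first | linarith only [g1] | linarith only [h0] | linarith) (by linarith only [h1])
  first | with_reducible exact a1 | linarith only [a1, a2] | linarith only [a1, a3] | linarith

theorem K1b.R_e_threeE_0_1 {w : ℝ} (h0 : 0 / 1 ≤ w) (h1 : w ≤ 1 / 20) :
    -(19 / 100) < 1 * uu w 0 + (269 / 2000) + (0 / 1) * w - (uu (19 / 20 + w) 0 - uu (19 / 20) 0 - uu w 0) - (-1 / 10) := by
  rcases le_total w (1 / 100) with g0 | g0
  · have a1 := K1b.r_e_threeE_0_1_0 (w := w) (by first | (refine le_trans ?_ h0; norm_num; done) | (refine le_trans ?_ g0; norm_num; done) | (refine le_trans ?_ g1; norm_num; done) | linarith)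
        (by first | (refine le_trans g0 ?_; norm_num; done) | (refine le_trans g1 ?_; norm_num; done) | (refine le_trans h1 ?_; norm_num; done) | linarith)
    have a2 := K1b.anti_l (a := w) (b := 1 / 100) (by first | (refine le_trans ?_ h0; norm_num; done) | (refine le_trans ?_ g0; norm_num; done) | (refine le_trans ?_ g1; norm_num; done) | linarith) g0 (by norm_num)
    first | with_reducible exact a1 | linarith only [a1, a2] | linarith only [a1, a3] | linarith
  rcases le_total w (1 / 25) with g1 | g1
  · have a1 := K1b.r_e_threeE_0_1_1 (w := w) (by first | (refine le_trans ?_ h0; norm_num; done) | (refine le_trans ?_ g0; norm_num; done) | (refine le_trans ?_ g1; norm_num; done) | linarith)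
        (by first | (refine le_trans g0 ?_; norm_num; done) | (refine le_trans g1 ?_; norm_num; done) | (refine le_trans h1 ?_; norm_num; done) | linarith)
    first | with_reducible exact a1 | linarith only [a1, a2] | linarith only [a1, a3] | linarith
  have a1 := K1b.r_e_threeE_0_1_2 (w := w) (by first | (refine le_trans ?_ h0; norm_num; done) | (refine le_trans ?_ g0; norm_num; done) | (refine le_trans ?_ g1; norm_num; done) | linarith)
        (by first | (refine le_trans g0 ?_; norm_num; done) | (refine le_trans g1 ?_; norm_num; done) | (refine le_trans h1 ?_; norm_num; done) | linarith)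
  have a3 := K1b.anti_r (a := 99 / 100) (b := 19 / 20 + w) (by norm_num)
        (by first | linarith only [g1] | linarith only [h0] | linarith) (by linarith only [h1])
  first | with_reducible exact a1 | linarith only [a1, a2] | linarith only [a1, a3] | linarith

theorem K1b.R_e_ring_0_0 {w : ℝ} (h0 : 0 / 1 ≤ w) (h1 : w ≤ 7 / 50) :
    -(1 / 5) < 1 * uu w 0 + (-67 / 1250) + (543 / 1000) * w - (uu (7 / 10 + w) 0 - uu (7 / 10) 0 - uu w 0) - (-9 / 40) := by
  rcases le_total w (1 / 100) with g0 | g0
  · have a1 := K1b.r_e_ring_0_0_0 (w := w) (by first | (refine le_trans ?_ h0; norm_num; done) | (refine le_trans ?_ g0; norm_num; done) | (refine le_trans ?_ g1; norm_num; done) | linarith)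
        (by first | (refine le_trans g0 ?_; norm_num; done) | (refine le_trans g1 ?_; norm_num; done) | (refine le_trans h1 ?_; norm_num; done) | linarith)
    have a2 := K1b.anti_l (a := w) (b := 1 / 100) (by first | (refine le_trans ?_ h0; norm_num; done) | (refine le_trans ?_ g0; norm_num; done) | (refine le_trans ?_ g1; norm_num; done) | linarith) g0 (by norm_num)
    first | with_reducible exact a1 | linarith only [a1, a2] | linarith only [a1, a3] | linarith
  have a1 := K1b.r_e_ring_0_0_1 (w := w) (by first | (refine le_trans ?_ h0; norm_num; done) | (refine le_trans ?_ g0; norm_num; done) | (refine le_trans ?_ g1; norm_num; done) | linarith)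
        (by first | (refine le_trans g0 ?_; norm_num; done) | (refine le_trans g1 ?_; norm_num; done) | (refine le_trans h1 ?_; norm_num; done) | linarith)
  first | with_reducible exact a1 | linarith only [a1, a2] | linarith only [a1, a3] | linarith

theorem K1b.R_e_ring_0_1 {w : ℝ} (h0 : 0 / 1 ≤ w) (h1 : w ≤ 1 / 20) :
    -(1 / 5) < 1 * uu w 0 + (-67 / 1250) + (543 / 1000) * w - (uu (19 / 20 + w) 0 - uu (19 / 20) 0 - uu w 0) - (-1 / 10) := by
  rcases le_total w (1 / 100) with g0 | g0
  · have a1 := K1b.r_e_ring_0_1_0 (w := w) (by first | (refine le_trans ?_ h0; norm_num; done) | (refine le_trans ?_ g0; norm_num; done) | (refine le_trans ?_ g1; norm_num; done) | linarith)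
        (by first | (refine le_trans g0 ?_; norm_num; done) | (refine le_trans g1 ?_; norm_num; done) | (refine le_trans h1 ?_; norm_num; done) | linarith)
    have a2 := K1b.anti_l (a := w) (b := 1 / 100) (by first | (refine le_trans ?_ h0; norm_num; done) | (refine le_trans ?_ g0; norm_num; done) | (refine le_trans ?_ g1; norm_num; done) | linarith) g0 (by norm_num)
    first | with_reducible exact a1 | linarith only [a1, a2] | linarith only [a1, a3] | linarith
  rcases le_total w (1 / 25) with g1 | g1
  · have a1 := K1b.r_e_ring_0_1_1 (w := w) (by first | (refine le_trans ?_ h0; norm_num; done) | (refine le_trans ?_ g0; norm_num; done) | (refine le_trans ?_ g1; norm_num; done) | linarith)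
        (by first | (refine le_trans g0 ?_; norm_num; done) | (refine le_trans g1 ?_; norm_num; done) | (refine le_trans h1 ?_; norm_num; done) | linarith)
    first | with_reducible exact a1 | linarith only [a1, a2] | linarith only [a1, a3] | linarith
  have a1 := K1b.r_e_ring_0_1_2 (w := w) (by first | (refine le_trans ?_ h0; norm_num; done) | (refine le_trans ?_ g0; norm_num; done) | (refine le_trans ?_ g1; norm_num; done) | linarith)
        (by first | (refine le_trans g0 ?_; norm_num; done) | (refine le_trans g1 ?_; norm_num; done) | (refine le_trans h1 ?_; norm_num; done) | linarith)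
  have a3 := K1b.anti_r (a := 99 / 100) (b := 19 / 20 + w) (by norm_num)
        (by first | linarith only [g1] | linarith only [h0] | linarith) (by linarith only [h1])
  first | with_reducible exact a1 | linarith only [a1, a2] | linarith only [a1, a3] | linarith

theorem K1b.R_e_ring_1_0 {w : ℝ} (h0 : 7 / 50 ≤ w) (h1 : w ≤ 3 / 10) :
    -(41 / 250) < 1 * uu w 0 + (1291 / 10000) + (-18 / 25) * w - (uu (7 / 10 + w) 0 - uu (7 / 10) 0 - uu w 0) - (-9 / 40) := by
  rcases le_total w (7 / 25) with g0 | g0
  · have a1 := K1b.r_e_ring_1_0_0 (w := w) (by first | (refine le_trans ?_ h0; norm_num; done) | (refine le_trans ?_ g0; norm_num; done) | (refine le_trans ?_ g1; norm_num; done) | linarith)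
        (by first | (refine le_trans g0 ?_; norm_num; done) | (refine le_trans g1 ?_; norm_num; done) | (refine le_trans h1 ?_; norm_num; done) | linarith)
    first | with_reducible exact a1 | linarith only [a1, a2] | linarith only [a1, a3] | linarith
  have a1 := K1b.r_e_ring_1_0_1 (w := w) (by first | (refine le_trans ?_ h0; norm_num; done) | (refine le_trans ?_ g0; norm_num; done) | (refine le_trans ?_ g1; norm_num; done) | linarith)
        (by first | (refine le_trans g0 ?_; norm_num; done) | (refine le_trans g1 ?_; norm_num; done) | (refine le_trans h1 ?_; norm_num; done) | linarith)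
  have a3 := K1b.anti_r (a := 49 / 50) (b := 7 / 10 + w) (by norm_num)
        (by first | linarith only [g1] | linarith only [h0] | linarith) (by linarith only [h1])
  first | with_reducible exact a1 | linarith only [a1, a2] | linarith only [a1, a3] | linarith

theorem K1b.R_e_touched_0_0 {w : ℝ} (h0 : 0 / 1 ≤ w) (h1 : w ≤ 3 / 10) :
    -(6 / 25) < 0 * uu w 0 + (0 / 1) + (0 / 1) * w - (uu (7 / 10 + w) 0 - uu (7 / 10) 0 - uu w 0) - (-9 / 40) := by
  rcases le_total w (1 / 100) with g0 | g0
  · have a1 := K1b.r_e_touched_0_0_0 (w := w) (by first | (refine le_trans ?_ h0; norm_num; done) | (refine le_trans ?_ g0; norm_num; done) | (refine le_trans ?_ g1; norm_num; done) | linarith)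
        (by first | (refine le_trans g0 ?_; norm_num; done) | (refine le_trans g1 ?_; norm_num; done) | (refine le_trans h1 ?_; norm_num; done) | linarith)
    have a2 := K1b.anti_l (a := w) (b := 1 / 100) (by first | (refine le_trans ?_ h0; norm_num; done) | (refine le_trans ?_ g0; norm_num; done) | (refine le_trans ?_ g1; norm_num; done) | linarith) g0 (by norm_num)
    first | with_reducible exact a1 | linarith only [a1, a2] | linarith only [a1, a3] | linarith
  rcases le_total w (7 / 25) with g1 | g1
  · have a1 := K1b.r_e_touched_0_0_1 (w := w) (by first | (refine le_trans ?_ h0; norm_num; done) | (refine le_trans ?_ g0; norm_num; done) | (refine le_trans ?_ g1; norm_num; done) | linarith)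
        (by first | (refine le_trans g0 ?_; norm_num; done) | (refine le_trans g1 ?_; norm_num; done) | (refine le_trans h1 ?_; norm_num; done) | linarith)
    first | with_reducible exact a1 | linarith only [a1, a2] | linarith only [a1, a3] | linarith
  have a1 := K1b.r_e_touched_0_0_2 (w := w) (by first | (refine le_trans ?_ h0; norm_num; done) | (refine le_trans ?_ g0; norm_num; done) | (refine le_trans ?_ g1; norm_num; done) | linarith)
        (by first | (refine le_trans g0 ?_; norm_num; done) | (refine le_trans g1 ?_; norm_num; done) | (refine le_trans h1 ?_; norm_num; done) | linarith)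
  have a3 := K1b.anti_r (a := 49 / 50) (b := 7 / 10 + w) (by norm_num)
        (by first | linarith only [g1] | linarith only [h0] | linarith) (by linarith only [h1])
  first | with_reducible exact a1 | linarith only [a1, a2] | linarith only [a1, a3] | linarith

theorem K1b.R_e_touched_0_1 {w : ℝ} (h0 : 0 / 1 ≤ w) (h1 : w ≤ 1 / 20) :
    -(6 / 25) < 0 * uu w 0 + (0 / 1) + (0 / 1) * w - (uu (19 / 20 + w) 0 - uu (19 / 20) 0 - uu w 0) - (-1 / 10) := by
  rcases le_total w (1 / 100) with g0 | g0
  · have a1 := K1b.r_e_touched_0_1_0 (w := w) (by first | (refine le_trans ?_ h0; norm_num; done) | (refine le_trans ?_ g0; norm_num; done) | (refine le_trans ?_ g1; norm_num; done) | linarith)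
        (by first | (refine le_trans g0 ?_; norm_num; done) | (refine le_trans g1 ?_; norm_num; done) | (refine le_trans h1 ?_; norm_num; done) | linarith)
    have a2 := K1b.anti_l (a := w) (b := 1 / 100) (by first | (refine le_trans ?_ h0; norm_num; done) | (refine le_trans ?_ g0; norm_num; done) | (refine le_trans ?_ g1; norm_num; done) | linarith) g0 (by norm_num)
    first | with_reducible exact a1 | linarith only [a1, a2] | linarith only [a1, a3] | linarith
  rcases le_total w (1 / 25) with g1 | g1
  · have a1 := K1b.r_e_touched_0_1_1 (w := w) (by first | (refine le_trans ?_ h0; norm_num; done) | (refine le_trans ?_ g0; norm_num; done) | (refine le_trans ?_ g1; norm_num; done) | linarith)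
        (by first | (refine le_trans g0 ?_; norm_num; done) | (refine le_trans g1 ?_; norm_num; done) | (refine le_trans h1 ?_; norm_num; done) | linarith)
    first | with_reducible exact a1 | linarith only [a1, a2] | linarith only [a1, a3] | linarith
  have a1 := K1b.r_e_touched_0_1_2 (w := w) (by first | (refine le_trans ?_ h0; norm_num; done) | (refine le_trans ?_ g0; norm_num; done) | (refine le_trans ?_ g1; norm_num; done) | linarith)
        (by first | (refine le_trans g0 ?_; norm_num; done) | (refine le_trans g1 ?_; norm_num; done) | (refine le_trans h1 ?_; norm_num; done) | linarith)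
  have a3 := K1b.anti_r (a := 99 / 100) (b := 19 / 20 + w) (by norm_num)
        (by first | linarith only [g1] | linarith only [h0] | linarith) (by linarith only [h1])
  first | with_reducible exact a1 | linarith only [a1, a2] | linarith only [a1, a3] | linarith

theorem K1b.R_h_one_0_0 {w : ℝ} (h0 : 0 / 1 ≤ w) (h1 : w ≤ 9 / 50) :
    -(153 / 1000) < 0 * uu w 0 + (-11 / 1000) + (0 / 1) * w - (uu (3 / 5 + w) 0 - uu (3 / 5) 0 - uu w 0) - (-3 / 20) := by
  rcases le_total w (1 / 100) with g0 | g0
  · have a1 := K1b.r_h_one_0_0_0 (w := w) (by first | (refine le_trans ?_ h0; norm_num; done) | (refine le_trans ?_ g0; norm_num; done) | (refine le_trans ?_ g1; norm_num; done) | linarith)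
        (by first | (refine le_trans g0 ?_; norm_num; done) | (refine le_trans g1 ?_; norm_num; done) | (refine le_trans h1 ?_; norm_num; done) | linarith)
    have a2 := K1b.anti_l (a := w) (b := 1 / 100) (by first | (refine le_trans ?_ h0; norm_num; done) | (refine le_trans ?_ g0; norm_num; done) | (refine le_trans ?_ g1; norm_num; done) | linarith) g0 (by norm_num)
    first | with_reducible exact a1 | linarith only [a1, a2] | linarith only [a1, a3] | linarith
  have a1 := K1b.r_h_one_0_0_1 (w := w) (by first | (refine le_trans ?_ h0; norm_num; done) | (refine le_trans ?_ g0; norm_num; done) | (refine le_trans ?_ g1; norm_num; done) | linarith)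
        (by first | (refine le_trans g0 ?_; norm_num; done) | (refine le_trans g1 ?_; norm_num; done) | (refine le_trans h1 ?_; norm_num; done) | linarith)
  first | with_reducible exact a1 | linarith only [a1, a2] | linarith only [a1, a3] | linarith

theorem K1b.R_h_one_1_0 {w : ℝ} (h0 : 0 / 1 ≤ w) (h1 : w ≤ 9 / 50) :
    -(24 / 125) < 1 * uu w 0 + (-163 / 5000) + (779 / 1000) * w - (uu (3 / 5 + w) 0 - uu (3 / 5) 0 - uu w 0) - (-3 / 20) := by
  rcases le_total w (1 / 100) with g0 | g0
  · have a1 := K1b.r_h_one_1_0_0 (w := w) (by first | (refine le_trans ?_ h0; norm_num; done) | (refine le_trans ?_ g0; norm_num; done) | (refine le_trans ?_ g1; norm_num; done) | linarith)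
        (by first | (refine le_trans g0 ?_; norm_num; done) | (refine le_trans g1 ?_; norm_num; done) | (refine le_trans h1 ?_; norm_num; done) | linarith)
    have a2 := K1b.anti_l (a := w) (b := 1 / 100) (by first | (refine le_trans ?_ h0; norm_num; done) | (refine le_trans ?_ g0; norm_num; done) | (refine le_trans ?_ g1; norm_num; done) | linarith) g0 (by norm_num)
    first | with_reducible exact a1 | linarith only [a1, a2] | linarith only [a1, a3] | linarith
  have a1 := K1b.r_h_one_1_0_1 (w := w) (by first | (refine le_trans ?_ h0; norm_num; done) | (refine le_trans ?_ g0; norm_num; done) | (refine le_trans ?_ g1; norm_num; done) | linarith)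
        (by first | (refine le_trans g0 ?_; norm_num; done) | (refine le_trans g1 ?_; norm_num; done) | (refine le_trans h1 ?_; norm_num; done) | linarith)
  first | with_reducible exact a1 | linarith only [a1, a2] | linarith only [a1, a3] | linarith

theorem K1b.R_h_one_2_0 {w : ℝ} (h0 : 9 / 50 ≤ w) (h1 : w ≤ 2 / 5) :
    -(43 / 200) < 1 * uu w 0 + (164 / 625) + (-921 / 1000) * w - (uu (3 / 5 + w) 0 - uu (3 / 5) 0 - uu w 0) - (-3 / 20) := by
  rcases le_total w (19 / 50) with g0 | g0
  · have a1 := K1b.r_h_one_2_0_0 (w := w) (by first | (refine le_trans ?_ h0; norm_num; done) | (refine le_trans ?_ g0; norm_num; done) | (refine le_trans ?_ g1; norm_num; done) | linarith)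
        (by first | (refine le_trans g0 ?_; norm_num; done) | (refine le_trans g1 ?_; norm_num; done) | (refine le_trans h1 ?_; norm_num; done) | linarith)
    first | with_reducible exact a1 | linarith only [a1, a2] | linarith only [a1, a3] | linarith
  have a1 := K1b.r_h_one_2_0_1 (w := w) (by first | (refine le_trans ?_ h0; norm_num; done) | (refine le_trans ?_ g0; norm_num; done) | (refine le_trans ?_ g1; norm_num; done) | linarith)
        (by first | (refine le_trans g0 ?_; norm_num; done) | (refine le_trans g1 ?_; norm_num; done) | (refine le_trans h1 ?_; norm_num; done) | linarith)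
  have a3 := K1b.anti_r (a := 49 / 50) (b := 3 / 5 + w) (by norm_num)
        (by first | linarith only [g1] | linarith only [h0] | linarith) (by linarith only [h1])
  first | with_reducible exact a1 | linarith only [a1, a2] | linarith only [a1, a3] | linarith

theorem K1b.R_h_one_3_0 {w : ℝ} (h0 : 9 / 50 ≤ w) (h1 : w ≤ 2 / 5) :
    -(43 / 200) < 1 * uu w 0 + (1451 / 5000) + (-1021 / 1000) * w - (uu (3 / 5 + w) 0 - uu (3 / 5) 0 - uu w 0) - (-3 / 20) := by
  rcases le_total w (19 / 50) with g0 | g0
  · have a1 := K1b.r_h_one_3_0_0 (w := w) (by first | (refine le_trans ?_ h0; norm_num; done) | (refine le_trans ?_ g0; norm_num; done) | (refine le_trans ?_ g1; norm_num; done) | linarith)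
        (by first | (refine le_trans g0 ?_; norm_num; done) | (refine le_trans g1 ?_; norm_num; done) | (refine le_trans h1 ?_; norm_num; done) | linarith)
    first | with_reducible exact a1 | linarith only [a1, a2] | linarith only [a1, a3] | linarith
  have a1 := K1b.r_h_one_3_0_1 (w := w) (by first | (refine le_trans ?_ h0; norm_num; done) | (refine le_trans ?_ g0; norm_num; done) | (refine le_trans ?_ g1; norm_num; done) | linarith)
        (by first | (refine le_trans g0 ?_; norm_num; done) | (refine le_trans g1 ?_; norm_num; done) | (refine le_trans h1 ?_; norm_num; done) | linarith)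
  have a3 := K1b.anti_r (a := 49 / 50) (b := 3 / 5 + w) (by norm_num)
        (by first | linarith only [g1] | linarith only [h0] | linarith) (by linarith only [h1])
  first | with_reducible exact a1 | linarith only [a1, a2] | linarith only [a1, a3] | linarith

theorem K1b.R_h_two_0_0 {w : ℝ} (h0 : 0 / 1 ≤ w) (h1 : w ≤ 2 / 5) :
    -(223 / 1000) < 1 * uu w 0 + (53 / 625) + (-37 / 250) * w - (uu (3 / 5 + w) 0 - uu (3 / 5) 0 - uu w 0) - (-3 / 20) := by
  rcases le_total w (1 / 100) with g0 | g0
  · have a1 := K1b.r_h_two_0_0_0 (w := w) (by first | (refine le_trans ?_ h0; norm_num; done) | (refine le_trans ?_ g0; norm_num; done) | (refine le_trans ?_ g1; norm_num; done) | linarith)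
        (by first | (refine le_trans g0 ?_; norm_num; done) | (refine le_trans g1 ?_; norm_num; done) | (refine le_trans h1 ?_; norm_num; done) | linarith)
    have a2 := K1b.anti_l (a := w) (b := 1 / 100) (by first | (refine le_trans ?_ h0; norm_num; done) | (refine le_trans ?_ g0; norm_num; done) | (refine le_trans ?_ g1; norm_num; done) | linarith) g0 (by norm_num)
    first | with_reducible exact a1 | linarith only [a1, a2] | linarith only [a1, a3] | linarith
  rcases le_total w (19 / 50) with g1 | g1
  · have a1 := K1b.r_h_two_0_0_1 (w := w) (by first | (refine le_trans ?_ h0; norm_num; done) | (refine le_trans ?_ g0; norm_num; done) | (refine le_trans ?_ g1; norm_num; done) | linarith)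
        (by first | (refine le_trans g0 ?_; norm_num; done) | (refine le_trans g1 ?_; norm_num; done) | (refine le_trans h1 ?_; norm_num; done) | linarith)
    first | with_reducible exact a1 | linarith only [a1, a2] | linarith only [a1, a3] | linarith
  have a1 := K1b.r_h_two_0_0_2 (w := w) (by first | (refine le_trans ?_ h0; norm_num; done) | (refine le_trans ?_ g0; norm_num; done) | (refine le_trans ?_ g1; norm_num; done) | linarith)
        (by first | (refine le_trans g0 ?_; norm_num; done) | (refine le_trans g1 ?_; norm_num; done) | (refine le_trans h1 ?_; norm_num; done) | linarith)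
  have a3 := K1b.anti_r (a := 49 / 50) (b := 3 / 5 + w) (by norm_num)
        (by first | linarith only [g1] | linarith only [h0] | linarith) (by linarith only [h1])
  first | with_reducible exact a1 | linarith only [a1, a2] | linarith only [a1, a3] | linarith

theorem K1b.R_h_twoE_0_0 {w : ℝ} (h0 : 0 / 1 ≤ w) (h1 : w ≤ 2 / 5) :
    -(23 / 100) < 1 * uu w 0 + (309 / 2000) + (0 / 1) * w - (uu (3 / 5 + w) 0 - uu (3 / 5) 0 - uu w 0) - (-3 / 20) := by
  rcases le_total w (1 / 100) with g0 | g0
  · have a1 := K1b.r_h_twoE_0_0_0 (w := w) (by first | (refine le_trans ?_ h0; norm_num; done) | (refine le_trans ?_ g0; norm_num; done) | (refine le_trans ?_ g1; norm_num; done) | linarith)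
        (by first | (refine le_trans g0 ?_; norm_num; done) | (refine le_trans g1 ?_; norm_num; done) | (refine le_trans h1 ?_; norm_num; done) | linarith)
    have a2 := K1b.anti_l (a := w) (b := 1 / 100) (by first | (refine le_trans ?_ h0; norm_num; done) | (refine le_trans ?_ g0; norm_num; done) | (refine le_trans ?_ g1; norm_num; done) | linarith) g0 (by norm_num)
    first | with_reducible exact a1 | linarith only [a1, a2] | linarith only [a1, a3] | linarith
  rcases le_total w (19 / 50) with g1 | g1
  · have a1 := K1b.r_h_twoE_0_0_1 (w := w) (by first | (refine le_trans ?_ h0; norm_num; done) | (refine le_trans ?_ g0; norm_num; done) | (refine le_trans ?_ g1; norm_num; done) | linarith)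
        (by first | (refine le_trans g0 ?_; norm_num; done) | (refine le_trans g1 ?_; norm_num; done) | (refine le_trans h1 ?_; norm_num; done) | linarith)
    first | with_reducible exact a1 | linarith only [a1, a2] | linarith only [a1, a3] | linarith
  have a1 := K1b.r_h_twoE_0_0_2 (w := w) (by first | (refine le_trans ?_ h0; norm_num; done) | (refine le_trans ?_ g0; norm_num; done) | (refine le_trans ?_ g1; norm_num; done) | linarith)
        (by first | (refine le_trans g0 ?_; norm_num; done) | (refine le_trans g1 ?_; norm_num; done) | (refine le_trans h1 ?_; norm_num; done) | linarith)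
  have a3 := K1b.anti_r (a := 49 / 50) (b := 3 / 5 + w) (by norm_num)
        (by first | linarith only [g1] | linarith only [h0] | linarith) (by linarith only [h1])
  first | with_reducible exact a1 | linarith only [a1, a2] | linarith only [a1, a3] | linarith

theorem K1b.R_h_touched_0_0 {w : ℝ} (h0 : 0 / 1 ≤ w) (h1 : w ≤ 2 / 5) :
    -(21 / 100) < 0 * uu w 0 + (0 / 1) + (0 / 1) * w - (uu (3 / 5 + w) 0 - uu (3 / 5) 0 - uu w 0) - (-3 / 20) := by
  rcases le_total w (1 / 100) with g0 | g0
  · have a1 := K1b.r_h_touched_0_0_0 (w := w) (by first | (refine le_trans ?_ h0; norm_num; done) | (refine le_trans ?_ g0; norm_num; done) | (refine le_trans ?_ g1; norm_num; done) | linarith)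
        (by first | (refine le_trans g0 ?_; norm_num; done) | (refine le_trans g1 ?_; norm_num; done) | (refine le_trans h1 ?_; norm_num; done) | linarith)
    have a2 := K1b.anti_l (a := w) (b := 1 / 100) (by first | (refine le_trans ?_ h0; norm_num; done) | (refine le_trans ?_ g0; norm_num; done) | (refine le_trans ?_ g1; norm_num; done) | linarith) g0 (by norm_num)
    first | with_reducible exact a1 | linarith only [a1, a2] | linarith only [a1, a3] | linarith
  rcases le_total w (19 / 50) with g1 | g1
  · have a1 := K1b.r_h_touched_0_0_1 (w := w) (by first | (refine le_trans ?_ h0; norm_num; done) | (refine le_trans ?_ g0; norm_num; done) | (refine le_trans ?_ g1; norm_num; done) | linarith)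
        (by first | (refine le_trans g0 ?_; norm_num; done) | (refine le_trans g1 ?_; norm_num; done) | (refine le_trans h1 ?_; norm_num; done) | linarith)
    first | with_reducible exact a1 | linarith only [a1, a2] | linarith only [a1, a3] | linarith
  have a1 := K1b.r_h_touched_0_0_2 (w := w) (by first | (refine le_trans ?_ h0; norm_num; done) | (refine le_trans ?_ g0; norm_num; done) | (refine le_trans ?_ g1; norm_num; done) | linarith)
        (by first | (refine le_trans g0 ?_; norm_num; done) | (refine le_trans g1 ?_; norm_num; done) | (refine le_trans h1 ?_; norm_num; done) | linarith)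
  have a3 := K1b.anti_r (a := 49 / 50) (b := 3 / 5 + w) (by norm_num)
        (by first | linarith only [g1] | linarith only [h0] | linarith) (by linarith only [h1])
  first | with_reducible exact a1 | linarith only [a1, a2] | linarith only [a1, a3] | linarith

theorem K1b.R_r_one_0_0 {w : ℝ} (h0 : 0 / 1 ≤ w) (h1 : w ≤ 9 / 50) :
    -(137 / 1000) < 0 * uu w 0 + (-11 / 1000) + (0 / 1) * w - (uu (13 / 20 + w) 0 - uu (13 / 20) 0 - uu w 0) - (-27 / 200) := by
  rcases le_total w (1 / 100) with g0 | g0
  · have a1 := K1b.r_r_one_0_0_0 (w := w) (by first | (refine le_trans ?_ h0; norm_num; done) | (refine le_trans ?_ g0; norm_num; done) | (refine le_trans ?_ g1; norm_num; done) | linarith)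
        (by first | (refine le_trans g0 ?_; norm_num; done) | (refine le_trans g1 ?_; norm_num; done) | (refine le_trans h1 ?_; norm_num; done) | linarith)
    have a2 := K1b.anti_l (a := w) (b := 1 / 100) (by first | (refine le_trans ?_ h0; norm_num; done) | (refine le_trans ?_ g0; norm_num; done) | (refine le_trans ?_ g1; norm_num; done) | linarith) g0 (by norm_num)
    first | with_reducible exact a1 | linarith only [a1, a2] | linarith only [a1, a3] | linarith
  have a1 := K1b.r_r_one_0_0_1 (w := w) (by first | (refine le_trans ?_ h0; norm_num; done) | (refine le_trans ?_ g0; norm_num; done) | (refine le_trans ?_ g1; norm_num; done) | linarith)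
        (by first | (refine le_trans g0 ?_; norm_num; done) | (refine le_trans g1 ?_; norm_num; done) | (refine le_trans h1 ?_; norm_num; done) | linarith)
  first | with_reducible exact a1 | linarith only [a1, a2] | linarith only [a1, a3] | linarith

theorem K1b.R_r_one_0_1 {w : ℝ} (h0 : 0 / 1 ≤ w) (h1 : w ≤ 1 / 20) :
    -(137 / 1000) < 0 * uu w 0 + (-11 / 1000) + (0 / 1) * w - (uu (19 / 20 + w) 0 - uu (19 / 20) 0 - uu w 0) - (1 / 50) := by
  rcases le_total w (1 / 100) with g0 | g0
  · have a1 := K1b.r_r_one_0_1_0 (w := w) (by first | (refine le_trans ?_ h0; norm_num; done) | (refine le_trans ?_ g0; norm_num; done) | (refine le_trans ?_ g1; norm_num; done) | linarith)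
        (by first | (refine le_trans g0 ?_; norm_num; done) | (refine le_trans g1 ?_; norm_num; done) | (refine le_trans h1 ?_; norm_num; done) | linarith)
    have a2 := K1b.anti_l (a := w) (b := 1 / 100) (by first | (refine le_trans ?_ h0; norm_num; done) | (refine le_trans ?_ g0; norm_num; done) | (refine le_trans ?_ g1; norm_num; done) | linarith) g0 (by norm_num)
    first | with_reducible exact a1 | linarith only [a1, a2] | linarith only [a1, a3] | linarith
  rcases le_total w (1 / 25) with g1 | g1
  · have a1 := K1b.r_r_one_0_1_1 (w := w) (by first | (refine le_trans ?_ h0; norm_num; done) | (refine le_trans ?_ g0; norm_num; done) | (refine le_trans ?_ g1; norm_num; done) | linarith)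
        (by first | (refine le_trans g0 ?_; norm_num; done) | (refine le_trans g1 ?_; norm_num; done) | (refine le_trans h1 ?_; norm_num; done) | linarith)
    first | with_reducible exact a1 | linarith only [a1, a2] | linarith only [a1, a3] | linarith
  have a1 := K1b.r_r_one_0_1_2 (w := w) (by first | (refine le_trans ?_ h0; norm_num; done) | (refine le_trans ?_ g0; norm_num; done) | (refine le_trans ?_ g1; norm_num; done) | linarith)
        (by first | (refine le_trans g0 ?_; norm_num; done) | (refine le_trans g1 ?_; norm_num; done) | (refine le_trans h1 ?_; norm_num; done) | linarith)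
  have a3 := K1b.anti_r (a := 99 / 100) (b := 19 / 20 + w) (by norm_num)
        (by first | linarith only [g1] | linarith only [h0] | linarith) (by linarith only [h1])
  first | with_reducible exact a1 | linarith only [a1, a2] | linarith only [a1, a3] | linarith

theorem K1b.R_r_one_1_0 {w : ℝ} (h0 : 0 / 1 ≤ w) (h1 : w ≤ 9 / 50) :
    -(9 / 50) < 1 * uu w 0 + (-163 / 5000) + (779 / 1000) * w - (uu (13 / 20 + w) 0 - uu (13 / 20) 0 - uu w 0) - (-27 / 200) := by
  rcases le_total w (1 / 100) with g0 | g0
  · have a1 := K1b.r_r_one_1_0_0 (w := w) (by first | (refine le_trans ?_ h0; norm_num; done) | (refine le_trans ?_ g0; norm_num; done) | (refine le_trans ?_ g1; norm_num; done) | linarith)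
        (by first | (refine le_trans g0 ?_; norm_num; done) | (refine le_trans g1 ?_; norm_num; done) | (refine le_trans h1 ?_; norm_num; done) | linarith)
    have a2 := K1b.anti_l (a := w) (b := 1 / 100) (by first | (refine le_trans ?_ h0; norm_num; done) | (refine le_trans ?_ g0; norm_num; done) | (refine le_trans ?_ g1; norm_num; done) | linarith) g0 (by norm_num)
    first | with_reducible exact a1 | linarith only [a1, a2] | linarith only [a1, a3] | linarith
  have a1 := K1b.r_r_one_1_0_1 (w := w) (by first | (refine le_trans ?_ h0; norm_num; done) | (refine le_trans ?_ g0; norm_num; done) | (refine le_trans ?_ g1; norm_num; done) | linarith)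
        (by first | (refine le_trans g0 ?_; norm_num; done) | (refine le_trans g1 ?_; norm_num; done) | (refine le_trans h1 ?_; norm_num; done) | linarith)
  first | with_reducible exact a1 | linarith only [a1, a2] | linarith only [a1, a3] | linarith

theorem K1b.R_r_one_1_1 {w : ℝ} (h0 : 0 / 1 ≤ w) (h1 : w ≤ 1 / 20) :
    -(9 / 50) < 1 * uu w 0 + (-163 / 5000) + (779 / 1000) * w - (uu (19 / 20 + w) 0 - uu (19 / 20) 0 - uu w 0) - (1 / 50) := by
  rcases le_total w (1 / 100) with g0 | g0
  · have a1 := K1b.r_r_one_1_1_0 (w := w) (by first | (refine le_trans ?_ h0; norm_num; done) | (refine le_trans ?_ g0; norm_num; done) | (refine le_trans ?_ g1; norm_num; done) | linarith)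
        (by first | (refine le_trans g0 ?_; norm_num; done) | (refine le_trans g1 ?_; norm_num; done) | (refine le_trans h1 ?_; norm_num; done) | linarith)
    have a2 := K1b.anti_l (a := w) (b := 1 / 100) (by first | (refine le_trans ?_ h0; norm_num; done) | (refine le_trans ?_ g0; norm_num; done) | (refine le_trans ?_ g1; norm_num; done) | linarith) g0 (by norm_num)
    first | with_reducible exact a1 | linarith only [a1, a2] | linarith only [a1, a3] | linarith
  rcases le_total w (1 / 25) with g1 | g1
  · have a1 := K1b.r_r_one_1_1_1 (w := w) (by first | (refine le_trans ?_ h0; norm_num; done) | (refine le_trans ?_ g0; norm_num; done) | (refine le_trans ?_ g1; norm_num; done) | linarith)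
        (by first | (refine le_trans g0 ?_; norm_num; done) | (refine le_trans g1 ?_; norm_num; done) | (refine le_trans h1 ?_; norm_num; done) | linarith)
    first | with_reducible exact a1 | linarith only [a1, a2] | linarith only [a1, a3] | linarith
  have a1 := K1b.r_r_one_1_1_2 (w := w) (by first | (refine le_trans ?_ h0; norm_num; done) | (refine le_trans ?_ g0; norm_num; done) | (refine le_trans ?_ g1; norm_num; done) | linarith)
        (by first | (refine le_trans g0 ?_; norm_num; done) | (refine le_trans g1 ?_; norm_num; done) | (refine le_trans h1 ?_; norm_num; done) | linarith)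
  have a3 := K1b.anti_r (a := 99 / 100) (b := 19 / 20 + w) (by norm_num)
        (by first | linarith only [g1] | linarith only [h0] | linarith) (by linarith only [h1])
  first | with_reducible exact a1 | linarith only [a1, a2] | linarith only [a1, a3] | linarith

theorem K1b.R_r_one_2_0 {w : ℝ} (h0 : 9 / 50 ≤ w) (h1 : w ≤ 7 / 20) :
    -(189 / 1000) < 1 * uu w 0 + (164 / 625) + (-921 / 1000) * w - (uu (13 / 20 + w) 0 - uu (13 / 20) 0 - uu w 0) - (-27 / 200) := by
  rcases le_total w (33 / 100) with g0 | g0
  · have a1 := K1b.r_r_one_2_0_0 (w := w) (by first | (refine le_trans ?_ h0; norm_num; done) | (refine le_trans ?_ g0; norm_num; done) | (refine le_trans ?_ g1; norm_num; done) | linarith)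
        (by first | (refine le_trans g0 ?_; norm_num; done) | (refine le_trans g1 ?_; norm_num; done) | (refine le_trans h1 ?_; norm_num; done) | linarith)
    first | with_reducible exact a1 | linarith only [a1, a2] | linarith only [a1, a3] | linarith
  have a1 := K1b.r_r_one_2_0_1 (w := w) (by first | (refine le_trans ?_ h0; norm_num; done) | (refine le_trans ?_ g0; norm_num; done) | (refine le_trans ?_ g1; norm_num; done) | linarith)
        (by first | (refine le_trans g0 ?_; norm_num; done) | (refine le_trans g1 ?_; norm_num; done) | (refine le_trans h1 ?_; norm_num; done) | linarith)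
  have a3 := K1b.anti_r (a := 49 / 50) (b := 13 / 20 + w) (by norm_num)
        (by first | linarith only [g1] | linarith only [h0] | linarith) (by linarith only [h1])
  first | with_reducible exact a1 | linarith only [a1, a2] | linarith only [a1, a3] | linarith

theorem K1b.R_r_one_3_0 {w : ℝ} (h0 : 9 / 50 ≤ w) (h1 : w ≤ 7 / 20) :
    -(24 / 125) < 1 * uu w 0 + (1451 / 5000) + (-1021 / 1000) * w - (uu (13 / 20 + w) 0 - uu (13 / 20) 0 - uu w 0) - (-27 / 200) := by
  rcases le_total w (33 / 100) with g0 | g0
  · have a1 := K1b.r_r_one_3_0_0 (w := w) (by first | (refine le_trans ?_ h0; norm_num; done) | (refine le_trans ?_ g0; norm_num; done) | (refine le_trans ?_ g1; norm_num; done) | linarith)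
        (by first | (refine le_trans g0 ?_; norm_num; done) | (refine le_trans g1 ?_; norm_num; done) | (refine le_trans h1 ?_; norm_num; done) | linarith)
    first | with_reducible exact a1 | linarith only [a1, a2] | linarith only [a1, a3] | linarith
  have a1 := K1b.r_r_one_3_0_1 (w := w) (by first | (refine le_trans ?_ h0; norm_num; done) | (refine le_trans ?_ g0; norm_num; done) | (refine le_trans ?_ g1; norm_num; done) | linarith)
        (by first | (refine le_trans g0 ?_; norm_num; done) | (refine le_trans g1 ?_; norm_num; done) | (refine le_trans h1 ?_; norm_num; done) | linarith)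
  have a3 := K1b.anti_r (a := 49 / 50) (b := 13 / 20 + w) (by norm_num)
        (by first | linarith only [g1] | linarith only [h0] | linarith) (by linarith only [h1])
  first | with_reducible exact a1 | linarith only [a1, a2] | linarith only [a1, a3] | linarith

theorem K1b.R_r_two_0_0 {w : ℝ} (h0 : 0 / 1 ≤ w) (h1 : w ≤ 7 / 20) :
    -(21 / 100) < 1 * uu w 0 + (53 / 625) + (-37 / 250) * w - (uu (13 / 20 + w) 0 - uu (13 / 20) 0 - uu w 0) - (-27 / 200) := by
  rcases le_total w (1 / 100) with g0 | g0
  · have a1 := K1b.r_r_two_0_0_0 (w := w) (by first | (refine le_trans ?_ h0; norm_num; done) | (refine le_trans ?_ g0; norm_num; done) | (refine le_trans ?_ g1; norm_num; done) | linarith)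
        (by first | (refine le_trans g0 ?_; norm_num; done) | (refine le_trans g1 ?_; norm_num; done) | (refine le_trans h1 ?_; norm_num; done) | linarith)
    have a2 := K1b.anti_l (a := w) (b := 1 / 100) (by first | (refine le_trans ?_ h0; norm_num; done) | (refine le_trans ?_ g0; norm_num; done) | (refine le_trans ?_ g1; norm_num; done) | linarith) g0 (by norm_num)
    first | with_reducible exact a1 | linarith only [a1, a2] | linarith only [a1, a3] | linarith
  rcases le_total w (33 / 100) with g1 | g1
  · have a1 := K1b.r_r_two_0_0_1 (w := w) (by first | (refine le_trans ?_ h0; norm_num; done) | (refine le_trans ?_ g0; norm_num; done) | (refine le_trans ?_ g1; norm_num; done) | linarith)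
        (by first | (refine le_trans g0 ?_; norm_num; done) | (refine le_trans g1 ?_; norm_num; done) | (refine le_trans h1 ?_; norm_num; done) | linarith)
    first | with_reducible exact a1 | linarith only [a1, a2] | linarith only [a1, a3] | linarith
  have a1 := K1b.r_r_two_0_0_2 (w := w) (by first | (refine le_trans ?_ h0; norm_num; done) | (refine le_trans ?_ g0; norm_num; done) | (refine le_trans ?_ g1; norm_num; done) | linarith)
        (by first | (refine le_trans g0 ?_; norm_num; done) | (refine le_trans g1 ?_; norm_num; done) | (refine le_trans h1 ?_; norm_num; done) | linarith)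
  have a3 := K1b.anti_r (a := 49 / 50) (b := 13 / 20 + w) (by norm_num)
        (by first | linarith only [g1] | linarith only [h0] | linarith) (by linarith only [h1])
  first | with_reducible exact a1 | linarith only [a1, a2] | linarith only [a1, a3] | linarith

theorem K1b.R_r_two_0_1 {w : ℝ} (h0 : 0 / 1 ≤ w) (h1 : w ≤ 1 / 20) :
    -(21 / 100) < 1 * uu w 0 + (53 / 625) + (-37 / 250) * w - (uu (19 / 20 + w) 0 - uu (19 / 20) 0 - uu w 0) - (1 / 50) := by
  rcases le_total w (1 / 100) with g0 | g0
  · have a1 := K1b.r_r_two_0_1_0 (w := w) (by first | (refine le_trans ?_ h0; norm_num; done) | (refine le_trans ?_ g0; norm_num; done) | (refine le_trans ?_ g1; norm_num; done) | linarith)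
        (by first | (refine le_trans g0 ?_; norm_num; done) | (refine le_trans g1 ?_; norm_num; done) | (refine le_trans h1 ?_; norm_num; done) | linarith)
    have a2 := K1b.anti_l (a := w) (b := 1 / 100) (by first | (refine le_trans ?_ h0; norm_num; done) | (refine le_trans ?_ g0; norm_num; done) | (refine le_trans ?_ g1; norm_num; done) | linarith) g0 (by norm_num)
    first | with_reducible exact a1 | linarith only [a1, a2] | linarith only [a1, a3] | linarith
  rcases le_total w (1 / 25) with g1 | g1
  · have a1 := K1b.r_r_two_0_1_1 (w := w) (by first | (refine le_trans ?_ h0; norm_num; done) | (refine le_trans ?_ g0; norm_num; done) | (refine le_trans ?_ g1; norm_num; done) | linarith)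
        (by first | (refine le_trans g0 ?_; norm_num; done) | (refine le_trans g1 ?_; norm_num; done) | (refine le_trans h1 ?_; norm_num; done) | linarith)
    first | with_reducible exact a1 | linarith only [a1, a2] | linarith only [a1, a3] | linarith
  have a1 := K1b.r_r_two_0_1_2 (w := w) (by first | (refine le_trans ?_ h0; norm_num; done) | (refine le_trans ?_ g0; norm_num; done) | (refine le_trans ?_ g1; norm_num; done) | linarith)
        (by first | (refine le_trans g0 ?_; norm_num; done) | (refine le_trans g1 ?_; norm_num; done) | (refine le_trans h1 ?_; norm_num; done) | linarith)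
  have a3 := K1b.anti_r (a := 99 / 100) (b := 19 / 20 + w) (by norm_num)
        (by first | linarith only [g1] | linarith only [h0] | linarith) (by linarith only [h1])
  first | with_reducible exact a1 | linarith only [a1, a2] | linarith only [a1, a3] | linarith

theorem K1b.R_r_twoE_0_0 {w : ℝ} (h0 : 0 / 1 ≤ w) (h1 : w ≤ 7 / 20) :
    -(23 / 100) < 1 * uu w 0 + (309 / 2000) + (0 / 1) * w - (uu (13 / 20 + w) 0 - uu (13 / 20) 0 - uu w 0) - (-27 / 200) := by
  rcases le_total w (1 / 100) with g0 | g0
  · have a1 := K1b.r_r_twoE_0_0_0 (w := w) (by first | (refine le_trans ?_ h0; norm_num; done) | (refine le_trans ?_ g0; norm_num; done) | (refine le_trans ?_ g1; norm_num; done) | linarith)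
        (by first | (refine le_trans g0 ?_; norm_num; done) | (refine le_trans g1 ?_; norm_num; done) | (refine le_trans h1 ?_; norm_num; done) | linarith)
    have a2 := K1b.anti_l (a := w) (b := 1 / 100) (by first | (refine le_trans ?_ h0; norm_num; done) | (refine le_trans ?_ g0; norm_num; done) | (refine le_trans ?_ g1; norm_num; done) | linarith) g0 (by norm_num)
    first | with_reducible exact a1 | linarith only [a1, a2] | linarith only [a1, a3] | linarith
  rcases le_total w (33 / 100) with g1 | g1
  · have a1 := K1b.r_r_twoE_0_0_1 (w := w) (by first | (refine le_trans ?_ h0; norm_num; done) | (refine le_trans ?_ g0; norm_num; done) | (refine le_trans ?_ g1; norm_num; done) | linarith)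
        (by first | (refine le_trans g0 ?_; norm_num; done) | (refine le_trans g1 ?_; norm_num; done) | (refine le_trans h1 ?_; norm_num; done) | linarith)
    first | with_reducible exact a1 | linarith only [a1, a2] | linarith only [a1, a3] | linarith
  have a1 := K1b.r_r_twoE_0_0_2 (w := w) (by first | (refine le_trans ?_ h0; norm_num; done) | (refine le_trans ?_ g0; norm_num; done) | (refine le_trans ?_ g1; norm_num; done) | linarith)
        (by first | (refine le_trans g0 ?_; norm_num; done) | (refine le_trans g1 ?_; norm_num; done) | (refine le_trans h1 ?_; norm_num; done) | linarith)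
  have a3 := K1b.anti_r (a := 49 / 50) (b := 13 / 20 + w) (by norm_num)
        (by first | linarith only [g1] | linarith only [h0] | linarith) (by linarith only [h1])
  first | with_reducible exact a1 | linarith only [a1, a2] | linarith only [a1, a3] | linarith

theorem K1b.R_r_twoE_0_1 {w : ℝ} (h0 : 0 / 1 ≤ w) (h1 : w ≤ 1 / 20) :
    -(23 / 100) < 1 * uu w 0 + (309 / 2000) + (0 / 1) * w - (uu (19 / 20 + w) 0 - uu (19 / 20) 0 - uu w 0) - (1 / 50) := by
  rcases le_total w (1 / 100) with g0 | g0
  · have a1 := K1b.r_r_twoE_0_1_0 (w := w) (by first | (refine le_trans ?_ h0; norm_num; done) | (refine le_trans ?_ g0; norm_num; done) | (refine le_trans ?_ g1; norm_num; done) | linarith)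
        (by first | (refine le_trans g0 ?_; norm_num; done) | (refine le_trans g1 ?_; norm_num; done) | (refine le_trans h1 ?_; norm_num; done) | linarith)
    have a2 := K1b.anti_l (a := w) (b := 1 / 100) (by first | (refine le_trans ?_ h0; norm_num; done) | (refine le_trans ?_ g0; norm_num; done) | (refine le_trans ?_ g1; norm_num; done) | linarith) g0 (by norm_num)
    first | with_reducible exact a1 | linarith only [a1, a2] | linarith only [a1, a3] | linarith
  rcases le_total w (1 / 25) with g1 | g1
  · have a1 := K1b.r_r_twoE_0_1_1 (w := w) (by first | (refine le_trans ?_ h0; norm_num; done) | (refine le_trans ?_ g0; norm_num; done) | (refine le_trans ?_ g1; norm_num; done) | linarith)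
        (by first | (refine le_trans g0 ?_; norm_num; done) | (refine le_trans g1 ?_; norm_num; done) | (refine le_trans h1 ?_; norm_num; done) | linarith)
    first | with_reducible exact a1 | linarith only [a1, a2] | linarith only [a1, a3] | linarith
  have a1 := K1b.r_r_twoE_0_1_2 (w := w) (by first | (refine le_trans ?_ h0; norm_num; done) | (refine le_trans ?_ g0; norm_num; done) | (refine le_trans ?_ g1; norm_num; done) | linarith)
        (by first | (refine le_trans g0 ?_; norm_num; done) | (refine le_trans g1 ?_; norm_num; done) | (refine le_trans h1 ?_; norm_num; done) | linarith)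
  have a3 := K1b.anti_r (a := 99 / 100) (b := 19 / 20 + w) (by norm_num)
        (by first | linarith only [g1] | linarith only [h0] | linarith) (by linarith only [h1])
  first | with_reducible exact a1 | linarith only [a1, a2] | linarith only [a1, a3] | linarith

theorem K1b.R_r_touched_0_0 {w : ℝ} (h0 : 0 / 1 ≤ w) (h1 : w ≤ 7 / 20) :
    -(1 / 5) < 0 * uu w 0 + (0 / 1) + (0 / 1) * w - (uu (13 / 20 + w) 0 - uu (13 / 20) 0 - uu w 0) - (-27 / 200) := by
  rcases le_total w (1 / 100) with g0 | g0
  · have a1 := K1b.r_r_touched_0_0_0 (w := w) (by first | (refine le_trans ?_ h0; norm_num; done) | (refine le_trans ?_ g0; norm_num; done) | (refine le_trans ?_ g1; norm_num; done) | linarith)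
        (by first | (refine le_trans g0 ?_; norm_num; done) | (refine le_trans g1 ?_; norm_num; done) | (refine le_trans h1 ?_; norm_num; done) | linarith)
    have a2 := K1b.anti_l (a := w) (b := 1 / 100) (by first | (refine le_trans ?_ h0; norm_num; done) | (refine le_trans ?_ g0; norm_num; done) | (refine le_trans ?_ g1; norm_num; done) | linarith) g0 (by norm_num)
    first | with_reducible exact a1 | linarith only [a1, a2] | linarith only [a1, a3] | linarith
  rcases le_total w (33 / 100) with g1 | g1
  · have a1 := K1b.r_r_touched_0_0_1 (w := w) (by first | (refine le_trans ?_ h0; norm_num; done) | (refine le_trans ?_ g0; norm_num; done) | (refine le_trans ?_ g1; norm_num; done) | linarith)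
        (by first | (refine le_trans g0 ?_; norm_num; done) | (refine le_trans g1 ?_; norm_num; done) | (refine le_trans h1 ?_; norm_num; done) | linarith)
    first | with_reducible exact a1 | linarith only [a1, a2] | linarith only [a1, a3] | linarith
  have a1 := K1b.r_r_touched_0_0_2 (w := w) (by first | (refine le_trans ?_ h0; norm_num; done) | (refine le_trans ?_ g0; norm_num; done) | (refine le_trans ?_ g1; norm_num; done) | linarith)
        (by first | (refine le_trans g0 ?_; norm_num; done) | (refine le_trans g1 ?_; norm_num; done) | (refine le_trans h1 ?_; norm_num; done) | linarith)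
  have a3 := K1b.anti_r (a := 49 / 50) (b := 13 / 20 + w) (by norm_num)
        (by first | linarith only [g1] | linarith only [h0] | linarith) (by linarith only [h1])
  first | with_reducible exact a1 | linarith only [a1, a2] | linarith only [a1, a3] | linarith

theorem K1b.R_r_touched_0_1 {w : ℝ} (h0 : 0 / 1 ≤ w) (h1 : w ≤ 1 / 20) :
    -(1 / 5) < 0 * uu w 0 + (0 / 1) + (0 / 1) * w - (uu (19 / 20 + w) 0 - uu (19 / 20) 0 - uu w 0) - (1 / 50) := by
  rcases le_total w (1 / 100) with g0 | g0
  · have a1 := K1b.r_r_touched_0_1_0 (w := w) (by first | (refine le_trans ?_ h0; norm_num; done) | (refine le_trans ?_ g0; norm_num; done) | (refine le_trans ?_ g1; norm_num; done) | linarith)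
        (by first | (refine le_trans g0 ?_; norm_num; done) | (refine le_trans g1 ?_; norm_num; done) | (refine le_trans h1 ?_; norm_num; done) | linarith)
    have a2 := K1b.anti_l (a := w) (b := 1 / 100) (by first | (refine le_trans ?_ h0; norm_num; done) | (refine le_trans ?_ g0; norm_num; done) | (refine le_trans ?_ g1; norm_num; done) | linarith) g0 (by norm_num)
    first | with_reducible exact a1 | linarith only [a1, a2] | linarith only [a1, a3] | linarith
  rcases le_total w (1 / 25) with g1 | g1
  · have a1 := K1b.r_r_touched_0_1_1 (w := w) (by first | (refine le_trans ?_ h0; norm_num; done) | (refine le_trans ?_ g0; norm_num; done) | (refine le_trans ?_ g1; norm_num; done) | linarith)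
        (by first | (refine le_trans g0 ?_; norm_num; done) | (refine le_trans g1 ?_; norm_num; done) | (refine le_trans h1 ?_; norm_num; done) | linarith)
    first | with_reducible exact a1 | linarith only [a1, a2] | linarith only [a1, a3] | linarith
  have a1 := K1b.r_r_touched_0_1_2 (w := w) (by first | (refine le_trans ?_ h0; norm_num; done) | (refine le_trans ?_ g0; norm_num; done) | (refine le_trans ?_ g1; norm_num; done) | linarith)
        (by first | (refine le_trans g0 ?_; norm_num; done) | (refine le_trans g1 ?_; norm_num; done) | (refine le_trans h1 ?_; norm_num; done) | linarith)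
  have a3 := K1b.anti_r (a := 99 / 100) (b := 19 / 20 + w) (by norm_num)
        (by first | linarith only [g1] | linarith only [h0] | linarith) (by linarith only [h1])
  first | with_reducible exact a1 | linarith only [a1, a2] | linarith only [a1, a3] | linarith

/-- the two parts together, numerals in any form -/
theorem K1b.core2 {c c' X x w t k G β γ a a0 a1 c1 s C A B : ℝ} {U : ℝ} (hX : 1 / 2 ≤ X)
    (hx : X ≤ x) (hw : 0 ≤ w) (hxw : x + w ≤ 1)
    (hF : c1 < Real.pi * (c * k + t * c' - t - k) + uu s (t + k) - uu c t - uu c' k + β * t +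
      γ * k)
    (hR : -c1 < U * uu w 0 + a0 + a1 * w - (uu (X + w) 0 - uu X 0 - uu w 0) - a)
    (hG : U * uu w 0 + a0 + a1 * w + γ * k ≤ G) (hs : c + c' = s) (hC : C = c) (hA : A = a)
    (hB : B = β) : A ≤ V1 ⟨C, t⟩ ⟨c', k⟩ - V1 ⟨x, 0⟩ ⟨w, 0⟩ + G + B * t := by
  subst hs hC hA hB
  refine K1b.core hX hx hw hxw ?_ hR hG
  unfold K1b.rF
  linarith

/-- **K1, `B = .two`** -/
theorem side_one_two {Cc : Cl} {C : Ct} (hC : C.ok Cc) {x w t k G : ℝ}
    (hx : X0 .one .two ≤ x) (hw : 0 ≤ w) (hxw : x + w ≤ 1)
    (t0 : (cw Cc .two).t0 ≤ t) (t1 : t ≤ (cw Cc .two).t1)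
    (s0 : (cw Cc .two).s0 ≤ t + k) (s1 : t + k ≤ (cw Cc .two).s1)
    (k0 : (cw .two Cc).t0 ≤ k) (k1 : k ≤ (cw .two Cc).t1)
    (hbig : ¬ (big .two ∧ big Cc)) (hCo : Cc = .one → -(2 / 25) ≤ k)
    (hE : EB .one C w (-k) G) :
    al .one .two Cc x ≤ V1 ⟨cT .one .two, t⟩ ⟨cN C, k⟩ - V1 ⟨x, 0⟩ ⟨w, 0⟩ + G +
      be .one .two * t := by
  have eU : UU ⟨w, 0⟩ = uu w 0 := rfl
  simp only [X0] at hx
  cases C
  · obtain rfl : Cc = .one := hC
    simp only [cw, EB, eU] at t0 t1 s0 s1 k0 k1 hE
    simp only [cT, cN, be, al]
    have k0 := hCo rfl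
    rw [show (28 : ℝ) / 100 = 7 / 25 by norm_num]
    rcases le_total w (9 / 50) with h | h
    · rcases hE.1 h with hE | hE
      · have hF := K1b.f_t_one_0 (t := t) (k := k) (by first | (refine le_trans ?_ t0; norm_num; done) | linarith only [t0, t1, s0, s1, k0, k1] | linarith) (by first | (refine le_trans t1 ?_; norm_num; done) | linarith only [t0, t1, s0, s1, k0, k1] | linarith) (by first | (refine le_trans ?_ k0; norm_num; done) | linarith only [t0, t1, s0, s1, k0, k1] | linarith) (by first | (refine le_trans k1 ?_; norm_num; done) | linarith only [t0, t1, s0, s1, k0, k1] | linarith) (by first | (refine le_trans s1 ?_; norm_num; done) | linarith only [t0, t1, s0, s1, k0, k1] | linarith) (by first | (refine le_trans ?_ s0; norm_num; done) | linarith only [t0, t1, s0, s1, k0, k1] | linarith)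
        exact K1b.core2 (c := 7 / 25) (c' := 9 / 50) (X := 4 / 5) (x := x) (w := w) (t := t) (k := k) (G := G) (s := 23 / 50)
          (β := 43 / 20) (γ := 3927 / 1250) (a := -13 / 100) (a0 := -11 / 1000) (a1 := 0 / 1) (c1 := 3 / 20) (U := 0)
          (by norm_num) (by first | (refine le_trans ?_ hx; norm_num; done) | (refine le_trans ?_ h95; norm_num; done) | linarith) hw hxw hF
          (K1b.R_t_one_0_0 (w := w) (by first | (refine le_trans ?_ hw; norm_num; done) | (refine le_trans ?_ h; norm_num; done) | linarith)
            (by first | (refine le_trans h ?_; norm_num; done) | linarith only [hxw, h95] | linarith only [hxw, hx] | linarith))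
          (le_trans (le_of_eq (by ring)) hE) (by norm_num) (by norm_num) (by norm_num) (by norm_num)
      · have hF := K1b.f_t_one_1 (t := t) (k := k) (by first | (refine le_trans ?_ t0; norm_num; done) | linarith only [t0, t1, s0, s1, k0, k1] | linarith) (by first | (refine le_trans t1 ?_; norm_num; done) | linarith only [t0, t1, s0, s1, k0, k1] | linarith) (by first | (refine le_trans ?_ k0; norm_num; done) | linarith only [t0, t1, s0, s1, k0, k1] | linarith) (by first | (refine le_trans k1 ?_; norm_num; done) | linarith only [t0, t1, s0, s1, k0, k1] | linarith) (by first | (refine le_trans s1 ?_; norm_num; done) | linarith only [t0, t1, s0, s1, k0, k1] | linarith) (by first | (refine le_trans ?_ s0; norm_num; done) | linarith only [t0, t1, s0, s1, k0, k1] | linarith)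
        exact K1b.core2 (c := 7 / 25) (c' := 9 / 50) (X := 4 / 5) (x := x) (w := w) (t := t) (k := k) (G := G) (s := 23 / 50)
          (β := 43 / 20) (γ := 821 / 500) (a := -13 / 100) (a0 := -163 / 5000) (a1 := 779 / 1000) (c1 := 19 / 100) (U := 1)
          (by norm_num) (by first | (refine le_trans ?_ hx; norm_num; done) | (refine le_trans ?_ h95; norm_num; done) | linarith) hw hxw hF
          (K1b.R_t_one_1_0 (w := w) (by first | (refine le_trans ?_ hw; norm_num; done) | (refine le_trans ?_ h; norm_num; done) | linarith)
            (by first | (refine le_trans h ?_; norm_num; done) | linarith only [hxw, h95] | linarith only [hxw, hx] | linarith))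
          (le_trans (le_of_eq (by ring)) hE) (by norm_num) (by norm_num) (by norm_num) (by norm_num)
    · rcases hE.2 h with hE | hE
      · have hF := K1b.f_t_one_2 (t := t) (k := k) (by first | (refine le_trans ?_ t0; norm_num; done) | linarith only [t0, t1, s0, s1, k0, k1] | linarith) (by first | (refine le_trans t1 ?_; norm_num; done) | linarith only [t0, t1, s0, s1, k0, k1] | linarith) (by first | (refine le_trans ?_ k0; norm_num; done) | linarith only [t0, t1, s0, s1, k0, k1] | linarith) (by first | (refine le_trans k1 ?_; norm_num; done) | linarith only [t0, t1, s0, s1, k0, k1] | linarith) (by first | (refine le_trans s1 ?_; norm_num; done) | linarith only [t0, t1, s0, s1, k0, k1] | linarith) (by first | (refine le_trans ?_ s0; norm_num; done) | linarith only [t0, t1, s0, s1, k0, k1] | linarith)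
        exact K1b.core2 (c := 7 / 25) (c' := 9 / 50) (X := 4 / 5) (x := x) (w := w) (t := t) (k := k) (G := G) (s := 23 / 50)
          (β := 43 / 20) (γ := 1849 / 1000) (a := -13 / 100) (a0 := 164 / 625) (a1 := -921 / 1000) (c1 := 1 / 5) (U := 1)
          (by norm_num) (by first | (refine le_trans ?_ hx; norm_num; done) | (refine le_trans ?_ h95; norm_num; done) | linarith) hw hxw hF
          (K1b.R_t_one_2_0 (w := w) (by first | (refine le_trans ?_ hw; norm_num; done) | (refine le_trans ?_ h; norm_num; done) | linarith)
            (by first | (refine le_trans h ?_; norm_num; done) | linarith only [hxw, h95] | linarith only [hxw, hx] | linarith))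
          (le_trans (le_of_eq (by ring)) hE) (by norm_num) (by norm_num) (by norm_num) (by norm_num)
      · have hF := K1b.f_t_one_3 (t := t) (k := k) (by first | (refine le_trans ?_ t0; norm_num; done) | linarith only [t0, t1, s0, s1, k0, k1] | linarith) (by first | (refine le_trans t1 ?_; norm_num; done) | linarith only [t0, t1, s0, s1, k0, k1] | linarith) (by first | (refine le_trans ?_ k0; norm_num; done) | linarith only [t0, t1, s0, s1, k0, k1] | linarith) (by first | (refine le_trans k1 ?_; norm_num; done) | linarith only [t0, t1, s0, s1, k0, k1] | linarith) (by first | (refine le_trans s1 ?_; norm_num; done) | linarith only [t0, t1, s0, s1, k0, k1] | linarith) (by first | (refine le_trans ?_ s0; norm_num; done) | linarith only [t0, t1, s0, s1, k0, k1] | linarith)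
        exact K1b.core2 (c := 7 / 25) (c' := 9 / 50) (X := 4 / 5) (x := x) (w := w) (t := t) (k := k) (G := G) (s := 23 / 50)
          (β := 43 / 20) (γ := 1309 / 500) (a := -13 / 100) (a0 := 1451 / 5000) (a1 := -1021 / 1000) (c1 := 19 / 100) (U := 1)
          (by norm_num) (by first | (refine le_trans ?_ hx; norm_num; done) | (refine le_trans ?_ h95; norm_num; done) | linarith) hw hxw hF
          (K1b.R_t_one_3_0 (w := w) (by first | (refine le_trans ?_ hw; norm_num; done) | (refine le_trans ?_ h; norm_num; done) | linarith)
            (by first | (refine le_trans h ?_; norm_num; done) | linarith only [hxw, h95] | linarith only [hxw, hx] | linarith))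
          (le_trans (le_of_eq (by ring)) hE) (by norm_num) (by norm_num) (by norm_num) (by norm_num)
  · obtain rfl : Cc = .two := hC
    simp only [cw, EB, eU] at t0 t1 s0 s1 k0 k1 hE
    simp only [cT, cN, be, al]
    rw [show (28 : ℝ) / 100 = 7 / 25 by norm_num]
    have hF := K1b.f_t_two_0 (t := t) (k := k) (by first | (refine le_trans ?_ t0; norm_num; done) | linarith only [t0, t1, s0, s1, k0, k1] | linarith) (by first | (refine le_trans t1 ?_; norm_num; done) | linarith only [t0, t1, s0, s1, k0, k1] | linarith) (by first | (refine le_trans ?_ k0; norm_num; done) | linarith only [t0, t1, s0, s1, k0, k1] | linarith) (by first | (refine le_trans k1 ?_; norm_num; done) | linarith only [t0, t1, s0, s1, k0, k1] | linarith) (by first | (refine le_trans s1 ?_; norm_num; done) | linarith only [t0, t1, s0, s1, k0, k1] | linarith) (by first | (refine le_trans ?_ s0; norm_num; done) | linarith only [t0, t1, s0, s1, k0, k1] | linarith)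
    exact K1b.core2 (c := 7 / 25) (c' := 1 / 4) (X := 4 / 5) (x := x) (w := w) (t := t) (k := k) (G := G) (s := 53 / 100)
      (β := 43 / 20) (γ := 1571 / 1000) (a := -13 / 100) (a0 := 53 / 625) (a1 := -37 / 250) (c1 := 11 / 50) (U := 1)
      (by norm_num) (by first | (refine le_trans ?_ hx; norm_num; done) | (refine le_trans ?_ h95; norm_num; done) | linarith) hw hxw hF
      (K1b.R_t_two_0_0 (w := w) (by first | (refine le_trans ?_ hw; norm_num; done) | (refine le_trans ?_ h; norm_num; done) | linarith)
        (by first | (refine le_trans h ?_; norm_num; done) | linarith only [hxw, h95] | linarith only [hxw, hx] | linarith))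
      (le_trans (le_of_eq (by ring)) hE) (by norm_num) (by norm_num) (by norm_num) (by norm_num)
  · obtain rfl : Cc = .twoE := hC
    simp only [cw, EB, eU] at t0 t1 s0 s1 k0 k1 hE
    simp only [cT, cN, be, al]
    rw [show (28 : ℝ) / 100 = 7 / 25 by norm_num]
    have hF := K1b.f_t_twoE_0 (t := t) (k := k) (by first | (refine le_trans ?_ t0; norm_num; done) | linarith only [t0, t1, s0, s1, k0, k1] | linarith) (by first | (refine le_trans t1 ?_; norm_num; done) | linarith only [t0, t1, s0, s1, k0, k1] | linarith) (by first | (refine le_trans ?_ k0; norm_num; done) | linarith only [t0, t1, s0, s1, k0, k1] | linarith) (by first | (refine le_trans k1 ?_; norm_num; done) | linarith only [t0, t1, s0, s1, k0, k1] | linarith) (by first | (refine le_trans s1 ?_; norm_num; done) | linarith only [t0, t1, s0, s1, k0, k1] | linarith) (by first | (refine le_trans ?_ s0; norm_num; done) | linarith only [t0, t1, s0, s1, k0, k1] | linarith)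
    exact K1b.core2 (c := 7 / 25) (c' := 11 / 50) (X := 4 / 5) (x := x) (w := w) (t := t) (k := k) (G := G) (s := 1 / 2)
      (β := 43 / 20) (γ := 1131 / 500) (a := -13 / 100) (a0 := 309 / 2000) (a1 := 0 / 1) (c1 := 6 / 25) (U := 1)
      (by norm_num) (by first | (refine le_trans ?_ hx; norm_num; done) | (refine le_trans ?_ h95; norm_num; done) | linarith) hw hxw hF
      (K1b.R_t_twoE_0_0 (w := w) (by first | (refine le_trans ?_ hw; norm_num; done) | (refine le_trans ?_ h; norm_num; done) | linarith)
        (by first | (refine le_trans h ?_; norm_num; done) | linarith only [hxw, h95] | linarith only [hxw, hx] | linarith))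
      (le_trans (le_of_eq (by ring)) hE) (by norm_num) (by norm_num) (by norm_num) (by norm_num)
  · obtain rfl : Cc = .three := hC
    simp only [cw, EB, eU] at t0 t1 s0 s1 k0 k1 hE
    simp only [cT, cN, be, al]
    rw [show (28 : ℝ) / 100 = 7 / 25 by norm_num]
    rcases le_total w (4 / 25) with h | h
    · replace hE := hE.1 h
      have hF := K1b.f_t_threeA_0 (t := t) (k := k) (by first | (refine le_trans ?_ t0; norm_num; done) | linarith only [t0, t1, s0, s1, k0, k1] | linarith) (by first | (refine le_trans t1 ?_; norm_num; done) | linarith only [t0, t1, s0, s1, k0, k1] | linarith) (by first | (refine le_trans ?_ k0; norm_num; done) | linarith only [t0, t1, s0, s1, k0, k1] | linarith) (by first | (refine le_trans k1 ?_; norm_num; done) | linarith only [t0, t1, s0, s1, k0, k1] | linarith) (by first | (refine le_trans s1 ?_; norm_num; done) | linarith only [t0, t1, s0, s1, k0, k1] | linarith) (by first | (refine le_trans ?_ s0; norm_num; done) | linarith only [t0, t1, s0, s1, k0, k1] | linarith)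
      exact K1b.core2 (c := 7 / 25) (c' := 3 / 20) (X := 4 / 5) (x := x) (w := w) (t := t) (k := k) (G := G) (s := 43 / 100)
        (β := 43 / 20) (γ := 851 / 1000) (a := -13 / 100) (a0 := 62 / 625) (a1 := -227 / 1000) (c1 := 97 / 1000) (U := 1)
        (by norm_num) (by first | (refine le_trans ?_ hx; norm_num; done) | (refine le_trans ?_ h95; norm_num; done) | linarith) hw hxw hF
        (K1b.R_t_threeA_0_0 (w := w) (by first | (refine le_trans ?_ hw; norm_num; done) | (refine le_trans ?_ h; norm_num; done) | linarith)
          (by first | (refine le_trans h ?_; norm_num; done) | linarith only [hxw, h95] | linarith only [hxw, hx] | linarith))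
        (le_trans (le_of_eq (by ring)) hE) (by norm_num) (by norm_num) (by norm_num) (by norm_num)
    · replace hE := hE.2 h
      have hF := K1b.f_t_threeA_1 (t := t) (k := k) (by first | (refine le_trans ?_ t0; norm_num; done) | linarith only [t0, t1, s0, s1, k0, k1] | linarith) (by first | (refine le_trans t1 ?_; norm_num; done) | linarith only [t0, t1, s0, s1, k0, k1] | linarith) (by first | (refine le_trans ?_ k0; norm_num; done) | linarith only [t0, t1, s0, s1, k0, k1] | linarith) (by first | (refine le_trans k1 ?_; norm_num; done) | linarith only [t0, t1, s0, s1, k0, k1] | linarith) (by first | (refine le_trans s1 ?_; norm_num; done) | linarith only [t0, t1, s0, s1, k0, k1] | linarith) (by first | (refine le_trans ?_ s0; norm_num; done) | linarith only [t0, t1, s0, s1, k0, k1] | linarith)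
      exact K1b.core2 (c := 7 / 25) (c' := 3 / 20) (X := 4 / 5) (x := x) (w := w) (t := t) (k := k) (G := G) (s := 43 / 100)
        (β := 43 / 20) (γ := 113 / 200) (a := -13 / 100) (a0 := 1289 / 5000) (a1 := -553 / 500) (c1 := 13 / 200) (U := 1)
        (by norm_num) (by first | (refine le_trans ?_ hx; norm_num; done) | (refine le_trans ?_ h95; norm_num; done) | linarith) hw hxw hF
        (K1b.R_t_threeA_1_0 (w := w) (by first | (refine le_trans ?_ hw; norm_num; done) | (refine le_trans ?_ h; norm_num; done) | linarith)
          (by first | (refine le_trans h ?_; norm_num; done) | linarith only [hxw, h95] | linarith only [hxw, hx] | linarith))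
        (le_trans (le_of_eq (by ring)) hE) (by norm_num) (by norm_num) (by norm_num) (by norm_num)
  · obtain rfl : Cc = .three := hC
    simp only [cw, EB, eU] at t0 t1 s0 s1 k0 k1 hE
    simp only [cT, cN, be, al]
    rw [show (28 : ℝ) / 100 = 7 / 25 by norm_num]
    have hF := K1b.f_t_threeK_0 (t := t) (k := k) (by first | (refine le_trans ?_ t0; norm_num; done) | linarith only [t0, t1, s0, s1, k0, k1] | linarith) (by first | (refine le_trans t1 ?_; norm_num; done) | linarith only [t0, t1, s0, s1, k0, k1] | linarith) (by first | (refine le_trans ?_ k0; norm_num; done) | linarith only [t0, t1, s0, s1, k0, k1] | linarith) (by first | (refine le_trans k1 ?_; norm_num; done) | linarith only [t0, t1, s0, s1, k0, k1] | linarith) (by first | (refine le_trans s1 ?_; norm_num; done) | linarith only [t0, t1, s0, s1, k0, k1] | linarith) (by first | (refine le_trans ?_ s0; norm_num; done) | linarith only [t0, t1, s0, s1, k0, k1] | linarith)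
    exact K1b.core2 (c := 7 / 25) (c' := 9 / 50) (X := 4 / 5) (x := x) (w := w) (t := t) (k := k) (G := G) (s := 23 / 50)
      (β := 43 / 20) (γ := 353 / 250) (a := -13 / 100) (a0 := 7 / 625) (a1 := 97 / 1000) (c1 := 4 / 25) (U := 1)
      (by norm_num) (by first | (refine le_trans ?_ hx; norm_num; done) | (refine le_trans ?_ h95; norm_num; done) | linarith) hw hxw hF
      (K1b.R_t_threeK_0_0 (w := w) (by first | (refine le_trans ?_ hw; norm_num; done) | (refine le_trans ?_ h; norm_num; done) | linarith)
        (by first | (refine le_trans h ?_; norm_num; done) | linarith only [hxw, h95] | linarith only [hxw, hx] | linarith))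
      (le_trans (le_of_eq (by ring)) hE) (by norm_num) (by norm_num) (by norm_num) (by norm_num)
  · obtain rfl : Cc = .threeE := hC
    simp only [cw, EB, eU] at t0 t1 s0 s1 k0 k1 hE
    simp only [cT, cN, be, al]
    rw [show (28 : ℝ) / 100 = 7 / 25 by norm_num]
    have hF := K1b.f_t_threeE_0 (t := t) (k := k) (by first | (refine le_trans ?_ t0; norm_num; done) | linarith only [t0, t1, s0, s1, k0, k1] | linarith) (by first | (refine le_trans t1 ?_; norm_num; done) | linarith only [t0, t1, s0, s1, k0, k1] | linarith) (by first | (refine le_trans ?_ k0; norm_num; done) | linarith only [t0, t1, s0, s1, k0, k1] | linarith) (by first | (refine le_trans k1 ?_; norm_num; done) | linarith only [t0, t1, s0, s1, k0, k1] | linarith) (by first | (refine le_trans s1 ?_; norm_num; done) | linarith only [t0, t1, s0, s1, k0, k1] | linarith) (by first | (refine le_trans ?_ s0; norm_num; done) | linarith only [t0, t1, s0, s1, k0, k1] | linarith)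
    exact K1b.core2 (c := 7 / 25) (c' := 11 / 50) (X := 4 / 5) (x := x) (w := w) (t := t) (k := k) (G := G) (s := 1 / 2)
      (β := 43 / 20) (γ := 243 / 200) (a := -13 / 100) (a0 := 269 / 2000) (a1 := 0 / 1) (c1 := 9 / 50) (U := 1)
      (by norm_num) (by first | (refine le_trans ?_ hx; norm_num; done) | (refine le_trans ?_ h95; norm_num; done) | linarith) hw hxw hF
      (K1b.R_t_threeE_0_0 (w := w) (by first | (refine le_trans ?_ hw; norm_num; done) | (refine le_trans ?_ h; norm_num; done) | linarith)
        (by first | (refine le_trans h ?_; norm_num; done) | linarith only [hxw, h95] | linarith only [hxw, hx] | linarith))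
      (le_trans (le_of_eq (by ring)) hE) (by norm_num) (by norm_num) (by norm_num) (by norm_num)
  · obtain rfl : Cc = .ring := hC
    simp only [cw, EB, eU] at t0 t1 s0 s1 k0 k1 hE
    simp only [cT, cN, be, al]
    rw [show (28 : ℝ) / 100 = 7 / 25 by norm_num]
    rcases le_total w (7 / 50) with h | h
    · replace hE := hE.1 h
      have hF := K1b.f_t_ring_0 (t := t) (k := k) (by first | (refine le_trans ?_ t0; norm_num; done) | linarith only [t0, t1, s0, s1, k0, k1] | linarith) (by first | (refine le_trans t1 ?_; norm_num; done) | linarith only [t0, t1, s0, s1, k0, k1] | linarith) (by first | (refine le_trans ?_ k0; norm_num; done) | linarith only [t0, t1, s0, s1, k0, k1] | linarith) (by first | (refine le_trans k1 ?_; norm_num; done) | linarith only [t0, t1, s0, s1, k0, k1] | linarith) (by first | (refine le_trans s1 ?_; norm_num; done) | linarith only [t0, t1, s0, s1, k0, k1] | linarith) (by first | (refine le_trans ?_ s0; norm_num; done) | linarith only [t0, t1, s0, s1, k0, k1] | linarith)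
      exact K1b.core2 (c := 7 / 25) (c' := 9 / 50) (X := 4 / 5) (x := x) (w := w) (t := t) (k := k) (G := G) (s := 23 / 50)
        (β := 43 / 20) (γ := 839 / 500) (a := -13 / 100) (a0 := -67 / 1250) (a1 := 543 / 1000) (c1 := 7 / 40) (U := 1)
        (by norm_num) (by first | (refine le_trans ?_ hx; norm_num; done) | (refine le_trans ?_ h95; norm_num; done) | linarith) hw hxw hF
        (K1b.R_t_ring_0_0 (w := w) (by first | (refine le_trans ?_ hw; norm_num; done) | (refine le_trans ?_ h; norm_num; done) | linarith)
          (by first | (refine le_trans h ?_; norm_num; done) | linarith only [hxw, h95] | linarith only [hxw, hx] | linarith))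
        (le_trans (le_of_eq (by ring)) hE) (by norm_num) (by norm_num) (by norm_num) (by norm_num)
    · replace hE := hE.2 h
      have hF := K1b.f_t_ring_1 (t := t) (k := k) (by first | (refine le_trans ?_ t0; norm_num; done) | linarith only [t0, t1, s0, s1, k0, k1] | linarith) (by first | (refine le_trans t1 ?_; norm_num; done) | linarith only [t0, t1, s0, s1, k0, k1] | linarith) (by first | (refine le_trans ?_ k0; norm_num; done) | linarith only [t0, t1, s0, s1, k0, k1] | linarith) (by first | (refine le_trans k1 ?_; norm_num; done) | linarith only [t0, t1, s0, s1, k0, k1] | linarith) (by first | (refine le_trans s1 ?_; norm_num; done) | linarith only [t0, t1, s0, s1, k0, k1] | linarith) (by first | (refine le_trans ?_ s0; norm_num; done) | linarith only [t0, t1, s0, s1, k0, k1] | linarith)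
      exact K1b.core2 (c := 7 / 25) (c' := 9 / 50) (X := 4 / 5) (x := x) (w := w) (t := t) (k := k) (G := G) (s := 23 / 50)
        (β := 43 / 20) (γ := 1397 / 1000) (a := -13 / 100) (a0 := 1291 / 10000) (a1 := -18 / 25) (c1 := 18 / 125) (U := 1)
        (by norm_num) (by first | (refine le_trans ?_ hx; norm_num; done) | (refine le_trans ?_ h95; norm_num; done) | linarith) hw hxw hF
        (K1b.R_t_ring_1_0 (w := w) (by first | (refine le_trans ?_ hw; norm_num; done) | (refine le_trans ?_ h; norm_num; done) | linarith)
          (by first | (refine le_trans h ?_; norm_num; done) | linarith only [hxw, h95] | linarith only [hxw, hx] | linarith))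
        (le_trans (le_of_eq (by ring)) hE) (by norm_num) (by norm_num) (by norm_num) (by norm_num)
  · have hh : -9 / 500 ≤ t ∧ t ≤ 197 / 2000 ∧ -93 / 1000 ≤ k ∧ k ≤ 29 / 200 := by
      clear hE hx
      cases Cc
      · simp only [cw, hbox] at t0 t1 k0 k1
        exact ⟨by linarith, by linarith, by linarith, by linarith⟩
      · simp only [cw, hbox] at t0 t1 k0 k1
        exact ⟨by linarith, by linarith, by linarith, by linarith⟩
      · simp only [cw, hbox] at t0 t1 k0 k1
        exact ⟨by linarith, by linarith, by linarith, by linarith⟩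
      · simp only [cw, hbox] at t0 t1 k0 k1
        exact ⟨by linarith, by linarith, by linarith, by linarith⟩
      · simp only [cw, hbox] at t0 t1 k0 k1
        exact ⟨by linarith, by linarith, by linarith, by linarith⟩
      · simp only [cw, hbox] at t0 t1 k0 k1
        exact ⟨by linarith, by linarith, by linarith, by linarith⟩
    obtain ⟨t0, t1, k0, k1⟩ := hh
    simp only [EB, eU] at hE
    simp only [cT, cN, be, al]
    rw [show (28 : ℝ) / 100 = 7 / 25 by norm_num]
    have hF := K1b.f_t_touched_0 (t := t) (k := k) (by first | (refine le_trans ?_ t0; norm_num; done) | linarith only [t0, t1, s0, s1, k0, k1] | linarith) (by first | (refine le_trans t1 ?_; norm_num; done) | linarith only [t0, t1, s0, s1, k0, k1] | linarith) (by first | (refine le_trans ?_ k0; norm_num; done) | linarith only [t0, t1, s0, s1, k0, k1] | linarith) (by first | (refine le_trans k1 ?_; norm_num; done) | linarith only [t0, t1, s0, s1, k0, k1] | linarith)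
    exact K1b.core2 (c := 7 / 25) (c' := 1 / 5) (X := 4 / 5) (x := x) (w := w) (t := t) (k := k) (G := G) (s := 12 / 25)
      (β := 43 / 20) (γ := 59 / 25) (a := -13 / 100) (a0 := 0 / 1) (a1 := 0 / 1) (c1 := 11 / 50) (U := 0)
      (by norm_num) (by first | (refine le_trans ?_ hx; norm_num; done) | (refine le_trans ?_ h95; norm_num; done) | linarith) hw hxw hF
      (K1b.R_t_touched_0_0 (w := w) (by first | (refine le_trans ?_ hw; norm_num; done) | (refine le_trans ?_ h; norm_num; done) | linarith)
        (by first | (refine le_trans h ?_; norm_num; done) | linarith only [hxw, h95] | linarith only [hxw, hx] | linarith))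
      (le_trans (le_of_eq (by ring)) hE) (by norm_num) (by norm_num) (by norm_num) (by norm_num)

/-- **K1, `B = .twoE`** -/
theorem side_one_twoE {Cc : Cl} {C : Ct} (hC : C.ok Cc) {x w t k G : ℝ}
    (hx : X0 .one .twoE ≤ x) (hw : 0 ≤ w) (hxw : x + w ≤ 1)
    (t0 : (cw Cc .twoE).t0 ≤ t) (t1 : t ≤ (cw Cc .twoE).t1)
    (s0 : (cw Cc .twoE).s0 ≤ t + k) (s1 : t + k ≤ (cw Cc .twoE).s1)
    (k0 : (cw .twoE Cc).t0 ≤ k) (k1 : k ≤ (cw .twoE Cc).t1)
    (hbig : ¬ (big .twoE ∧ big Cc)) (hCo : Cc = .one → -(2 / 25) ≤ k)
    (hE : EB .one C w (-k) G) :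
    al .one .twoE Cc x ≤ V1 ⟨cT .one .twoE, t⟩ ⟨cN C, k⟩ - V1 ⟨x, 0⟩ ⟨w, 0⟩ + G +
      be .one .twoE * t := by
  have eU : UU ⟨w, 0⟩ = uu w 0 := rfl
  simp only [X0] at hx
  cases C
  · obtain rfl : Cc = .one := hC
    simp only [cw, EB, eU] at t0 t1 s0 s1 k0 k1 hE
    simp only [cT, cN, be, al]
    have k0 := hCo rfl
    rw [show (28 : ℝ) / 100 = 7 / 25 by norm_num]
    rcases le_total w (9 / 50) with h | h
    · rcases hE.1 h with hE | hE
      · have hF := K1b.f_e_one_0 (t := t) (k := k) (by first | (refine le_trans ?_ t0; norm_num; done) | linarith only [t0, t1, s0, s1, k0, k1] | linarith) (by first | (refine le_trans t1 ?_; norm_num; done) | linarith only [t0, t1, s0, s1, k0, k1] | linarith) (by first | (refine le_trans ?_ k0; norm_num; done) | linarith only [t0, t1, s0, s1, k0, k1] | linarith) (by first | (refine le_trans k1 ?_; norm_num; done) | linarith only [t0, t1, s0, s1, k0, k1] | linarith) (by first | (refine le_trans s1 ?_; norm_num; done) | linarith only [t0, t1, s0, s1, k0, k1] | linarith) (by first | (refine le_trans ?_ s0; norm_num; done) | linarith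 only [t0, t1, s0, s1, k0, k1] | linarith)
        split_ifs with h95
        · exact K1b.core2 (c := 7 / 25) (c' := 9 / 50) (X := 19 / 20) (x := x) (w := w) (t := t) (k := k) (G := G) (s := 23 / 50)
            (β := 47 / 20) (γ := 3927 / 1250) (a := -1 / 10) (a0 := -11 / 1000) (a1 := 0 / 1) (c1 := 21 / 100) (U := 0)
            (by norm_num) (by first | (refine le_trans ?_ hx; norm_num; done) | (refine le_trans ?_ h95; norm_num; done) | linarith) hw hxw hF
            (K1b.R_e_one_0_1 (w := w) (by first | (refine le_trans ?_ hw; norm_num; done) | (refine le_trans ?_ h; norm_num; done) | linarith)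
              (by first | (refine le_trans h ?_; norm_num; done) | linarith only [hxw, h95] | linarith only [hxw, hx] | linarith))
            (le_trans (le_of_eq (by ring)) hE) (by norm_num) (by norm_num) (by norm_num) (by norm_num)
        · exact K1b.core2 (c := 7 / 25) (c' := 9 / 50) (X := 7 / 10) (x := x) (w := w) (t := t) (k := k) (G := G) (s := 23 / 50)
            (β := 47 / 20) (γ := 3927 / 1250) (a := -9 / 40) (a0 := -11 / 1000) (a1 := 0 / 1) (c1 := 21 / 100) (U := 0)
            (by norm_num) (by first | (refine le_trans ?_ hx; norm_num; done) | (refine le_trans ?_ h95; norm_num; done) | linarith) hw hxw hF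
            (K1b.R_e_one_0_0 (w := w) (by first | (refine le_trans ?_ hw; norm_num; done) | (refine le_trans ?_ h; norm_num; done) | linarith)
              (by first | (refine le_trans h ?_; norm_num; done) | linarith only [hxw, h95] | linarith only [hxw, hx] | linarith))
            (le_trans (le_of_eq (by ring)) hE) (by norm_num) (by norm_num) (by norm_num) (by norm_num)
      · have hF := K1b.f_e_one_1 (t := t) (k := k) (by first | (refine le_trans ?_ t0; norm_num; done) | linarith only [t0, t1, s0, s1, k0, k1] | linarith) (by first | (refine le_trans t1 ?_; norm_num; done) | linarith only [t0, t1, s0, s1, k0, k1] | linarith) (by first | (refine le_trans ?_ k0; norm_num; done) | linarith only [t0, t1, s0, s1, k0, k1] | linarith) (by first | (refine le_trans k1 ?_; norm_num; done) | linarith only [t0, t1, s0, s1, k0, k1] | linarith) (by first | (refine le_trans s1 ?_; norm_num; done) | linarith only [t0, t1, s0, s1, k0, k1] | linarith) (by first | (refine le_trans ?_ s0; norm_num; done) | linarith only [t0, t1, s0, s1, k0, k1] | linarith)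
        split_ifs with h95
        · exact K1b.core2 (c := 7 / 25) (c' := 9 / 50) (X := 19 / 20) (x := x) (w := w) (t := t) (k := k) (G := G) (s := 23 / 50)
            (β := 47 / 20) (γ := 821 / 500) (a := -1 / 10) (a0 := -163 / 5000) (a1 := 779 / 1000) (c1 := 21 / 100) (U := 1)
            (by norm_num) (by first | (refine le_trans ?_ hx; norm_num; done) | (refine le_trans ?_ h95; norm_num; done) | linarith) hw hxw hF
            (K1b.R_e_one_1_1 (w := w) (by first | (refine le_trans ?_ hw; norm_num; done) | (refine le_trans ?_ h; norm_num; done) | linarith)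
              (by first | (refine le_trans h ?_; norm_num; done) | linarith only [hxw, h95] | linarith only [hxw, hx] | linarith))
            (le_trans (le_of_eq (by ring)) hE) (by norm_num) (by norm_num) (by norm_num) (by norm_num)
        · exact K1b.core2 (c := 7 / 25) (c' := 9 / 50) (X := 7 / 10) (x := x) (w := w) (t := t) (k := k) (G := G) (s := 23 / 50)
            (β := 47 / 20) (γ := 821 / 500) (a := -9 / 40) (a0 := -163 / 5000) (a1 := 779 / 1000) (c1 := 21 / 100) (U := 1)
            (by norm_num) (by first | (refine le_trans ?_ hx; norm_num; done) | (refine le_trans ?_ h95; norm_num; done) | linarith) hw hxw hF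
            (K1b.R_e_one_1_0 (w := w) (by first | (refine le_trans ?_ hw; norm_num; done) | (refine le_trans ?_ h; norm_num; done) | linarith)
              (by first | (refine le_trans h ?_; norm_num; done) | linarith only [hxw, h95] | linarith only [hxw, hx] | linarith))
            (le_trans (le_of_eq (by ring)) hE) (by norm_num) (by norm_num) (by norm_num) (by norm_num)
    · rcases hE.2 h with hE | hE
      · have hF := K1b.f_e_one_2 (t := t) (k := k) (by first | (refine le_trans ?_ t0; norm_num; done) | linarith only [t0, t1, s0, s1, k0, k1] | linarith) (by first | (refine le_trans t1 ?_; norm_num; done) | linarith only [t0, t1, s0, s1, k0, k1] | linarith) (by first | (refine le_trans ?_ k0; norm_num; done) | linarith only [t0, t1, s0, s1, k0, k1] | linarith) (by first | (refine le_trans k1 ?_; norm_num; done) | linarith only [t0, t1, s0, s1, k0, k1] | linarith) (by first | (refine le_trans s1 ?_; norm_num; done) | linarith only [t0, t1, s0, s1, k0, k1] | linarith) (by first | (refine le_trans ?_ s0; norm_num; done) | linarith only [t0, t1, s0, s1, k0, k1] | linarith)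
        split_ifs with h95
        · exfalso
          linarith
        · exact K1b.core2 (c := 7 / 25) (c' := 9 / 50) (X := 7 / 10) (x := x) (w := w) (t := t) (k := k) (G := G) (s := 23 / 50)
            (β := 47 / 20) (γ := 1849 / 1000) (a := -9 / 40) (a0 := 164 / 625) (a1 := -921 / 1000) (c1 := 11 / 50) (U := 1)
            (by norm_num) (by first | (refine le_trans ?_ hx; norm_num; done) | (refine le_trans ?_ h95; norm_num; done) | linarith) hw hxw hF
            (K1b.R_e_one_2_0 (w := w) (by first | (refine le_trans ?_ hw; norm_num; done) | (refine le_trans ?_ h; norm_num; done) | linarith)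
              (by first | (refine le_trans h ?_; norm_num; done) | linarith only [hxw, h95] | linarith only [hxw, hx] | linarith))
            (le_trans (le_of_eq (by ring)) hE) (by norm_num) (by norm_num) (by norm_num) (by norm_num)
      · have hF := K1b.f_e_one_3 (t := t) (k := k) (by first | (refine le_trans ?_ t0; norm_num; done) | linarith only [t0, t1, s0, s1, k0, k1] | linarith) (by first | (refine le_trans t1 ?_; norm_num; done) | linarith only [t0, t1, s0, s1, k0, k1] | linarith) (by first | (refine le_trans ?_ k0; norm_num; done) | linarith only [t0, t1, s0, s1, k0, k1] | linarith) (by first | (refine le_trans k1 ?_; norm_num; done) | linarith only [t0, t1, s0, s1, k0, k1] | linarith) (by first | (refine le_trans s1 ?_; norm_num; done) | linarith only [t0, t1, s0, s1, k0, k1] | linarith) (by first | (refine le_trans ?_ s0; norm_num; done) | linarith only [t0, t1, s0, s1, k0, k1] | linarith)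
        split_ifs with h95
        · exfalso
          linarith
        · exact K1b.core2 (c := 7 / 25) (c' := 9 / 50) (X := 7 / 10) (x := x) (w := w) (t := t) (k := k) (G := G) (s := 23 / 50)
            (β := 47 / 20) (γ := 1309 / 500) (a := -9 / 40) (a0 := 1451 / 5000) (a1 := -1021 / 1000) (c1 := 23 / 100) (U := 1)
            (by norm_num) (by first | (refine le_trans ?_ hx; norm_num; done) | (refine le_trans ?_ h95; norm_num; done) | linarith) hw hxw hF
            (K1b.R_e_one_3_0 (w := w) (by first | (refine le_trans ?_ hw; norm_num; done) | (refine le_trans ?_ h; norm_num; done) | linarith)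
              (by first | (refine le_trans h ?_; norm_num; done) | linarith only [hxw, h95] | linarith only [hxw, hx] | linarith))
            (le_trans (le_of_eq (by ring)) hE) (by norm_num) (by norm_num) (by norm_num) (by norm_num)
  · obtain rfl : Cc = .two := hC
    simp only [cw, EB, eU] at t0 t1 s0 s1 k0 k1 hE
    simp only [cT, cN, be, al]
    rw [show (28 : ℝ) / 100 = 7 / 25 by norm_num]
    have hF := K1b.f_e_two_0 (t := t) (k := k) (by first | (refine le_trans ?_ t0; norm_num; done) | linarith only [t0, t1, s0, s1, k0, k1] | linarith) (by first | (refine le_trans t1 ?_; norm_num; done) | linarith only [t0, t1, s0, s1, k0, k1] | linarith) (by first | (refine le_trans ?_ k0; norm_num; done) | linarith only [t0, t1, s0, s1, k0, k1] | linarith) (by first | (refine le_trans k1 ?_; norm_num; done) | linarith only [t0, t1, s0, s1, k0, k1] | linarith) (by first | (refine le_trans s1 ?_; norm_num; done) | linarith only [t0, t1, s0, s1, k0, k1] | linarith) (by first | (refine le_trans ?_ s0; norm_num; done) | linarith only [t0, t1, s0, s1, k0, k1] | linarith)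
    split_ifs with h95
    · exact K1b.core2 (c := 7 / 25) (c' := 1 / 4) (X := 19 / 20) (x := x) (w := w) (t := t) (k := k) (G := G) (s := 53 / 100)
        (β := 47 / 20) (γ := 1571 / 1000) (a := -1 / 10) (a0 := 53 / 625) (a1 := -37 / 250) (c1 := 21 / 100) (U := 1)
        (by norm_num) (by first | (refine le_trans ?_ hx; norm_num; done) | (refine le_trans ?_ h95; norm_num; done) | linarith) hw hxw hF
        (K1b.R_e_two_0_1 (w := w) (by first | (refine le_trans ?_ hw; norm_num; done) | (refine le_trans ?_ h; norm_num; done) | linarith)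
          (by first | (refine le_trans h ?_; norm_num; done) | linarith only [hxw, h95] | linarith only [hxw, hx] | linarith))
        (le_trans (le_of_eq (by ring)) hE) (by norm_num) (by norm_num) (by norm_num) (by norm_num)
    · exact K1b.core2 (c := 7 / 25) (c' := 1 / 4) (X := 7 / 10) (x := x) (w := w) (t := t) (k := k) (G := G) (s := 53 / 100)
        (β := 47 / 20) (γ := 1571 / 1000) (a := -9 / 40) (a0 := 53 / 625) (a1 := -37 / 250) (c1 := 21 / 100) (U := 1)
        (by norm_num) (by first | (refine le_trans ?_ hx; norm_num; done) | (refine le_trans ?_ h95; norm_num; done) | linarith) hw hxw hF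
        (K1b.R_e_two_0_0 (w := w) (by first | (refine le_trans ?_ hw; norm_num; done) | (refine le_trans ?_ h; norm_num; done) | linarith)
          (by first | (refine le_trans h ?_; norm_num; done) | linarith only [hxw, h95] | linarith only [hxw, hx] | linarith))
        (le_trans (le_of_eq (by ring)) hE) (by norm_num) (by norm_num) (by norm_num) (by norm_num)
  · obtain rfl : Cc = .twoE := hC
    simp only [cw, EB, eU] at t0 t1 s0 s1 k0 k1 hE
    simp only [cT, cN, be, al]
    rw [show (28 : ℝ) / 100 = 7 / 25 by norm_num]
    have hF := K1b.f_e_twoE_0 (t := t) (k := k) (by first | (refine le_trans ?_ t0; norm_num; done) | linarith only [t0, t1, s0, s1, k0, k1] | linarith) (by first | (refine le_trans t1 ?_; norm_num; done) | linarith only [t0, t1, s0, s1, k0, k1] | linarith) (by first | (refine le_trans ?_ k0; norm_num; done) | linarith only [t0, t1, s0, s1, k0, k1] | linarith) (by first | (refine le_trans k1 ?_; norm_num; done) | linarith only [t0, t1, s0, s1, k0, k1] | linarith) (by first | (refine le_trans s1 ?_; norm_num; done) | linarith only [t0, t1, s0, s1,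 k0, k1] | linarith) (by first | (refine le_trans ?_ s0; norm_num; done) | linarith only [t0, t1, s0, s1, k0, k1] | linarith)
    split_ifs with h95
    · exact K1b.core2 (c := 7 / 25) (c' := 11 / 50) (X := 19 / 20) (x := x) (w := w) (t := t) (k := k) (G := G) (s := 1 / 2)
        (β := 47 / 20) (γ := 1131 / 500) (a := -1 / 10) (a0 := 309 / 2000) (a1 := 0 / 1) (c1 := 1 / 4) (U := 1)
        (by norm_num) (by first | (refine le_trans ?_ hx; norm_num; done) | (refine le_trans ?_ h95; norm_num; done) | linarith) hw hxw hF
        (K1b.R_e_twoE_0_1 (w := w) (by first | (refine le_trans ?_ hw; norm_num; done) | (refine le_trans ?_ h; norm_num; done) | linarith)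
          (by first | (refine le_trans h ?_; norm_num; done) | linarith only [hxw, h95] | linarith only [hxw, hx] | linarith))
        (le_trans (le_of_eq (by ring)) hE) (by norm_num) (by norm_num) (by norm_num) (by norm_num)
    · exact K1b.core2 (c := 7 / 25) (c' := 11 / 50) (X := 7 / 10) (x := x) (w := w) (t := t) (k := k) (G := G) (s := 1 / 2)
        (β := 47 / 20) (γ := 1131 / 500) (a := -9 / 40) (a0 := 309 / 2000) (a1 := 0 / 1) (c1 := 1 / 4) (U := 1)
        (by norm_num) (by first | (refine le_trans ?_ hx; norm_num; done) | (refine le_trans ?_ h95; norm_num; done) | linarith) hw hxw hF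
        (K1b.R_e_twoE_0_0 (w := w) (by first | (refine le_trans ?_ hw; norm_num; done) | (refine le_trans ?_ h; norm_num; done) | linarith)
          (by first | (refine le_trans h ?_; norm_num; done) | linarith only [hxw, h95] | linarith only [hxw, hx] | linarith))
        (le_trans (le_of_eq (by ring)) hE) (by norm_num) (by norm_num) (by norm_num) (by norm_num)
  · obtain rfl : Cc = .three := hC
    simp only [cw, EB, eU] at t0 t1 s0 s1 k0 k1 hE
    simp only [cT, cN, be, al]
    rw [show (28 : ℝ) / 100 = 7 / 25 by norm_num]
    rcases le_total w (4 / 25) with h | h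
    · replace hE := hE.1 h
      have hF := K1b.f_e_threeA_0 (t := t) (k := k) (by first | (refine le_trans ?_ t0; norm_num; done) | linarith only [t0, t1, s0, s1, k0, k1] | linarith) (by first | (refine le_trans t1 ?_; norm_num; done) | linarith only [t0, t1, s0, s1, k0, k1] | linarith) (by first | (refine le_trans ?_ k0; norm_num; done) | linarith only [t0, t1, s0, s1, k0, k1] | linarith) (by first | (refine le_trans k1 ?_; norm_num; done) | linarith only [t0, t1, s0, s1, k0, k1] | linarith) (by first | (refine le_trans s1 ?_; norm_num; done) | linarith only [t0, t1, s0, s1, k0, k1] | linarith) (by first | (refine le_trans ?_ s0; norm_num; done) | linarith only [t0, t1, s0, s1, k0, k1] | linarith)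
      split_ifs with h95
      · exact K1b.core2 (c := 7 / 25) (c' := 3 / 20) (X := 19 / 20) (x := x) (w := w) (t := t) (k := k) (G := G) (s := 43 / 100)
          (β := 47 / 20) (γ := 851 / 1000) (a := -1 / 10) (a0 := 62 / 625) (a1 := -227 / 1000) (c1 := 51 / 500) (U := 1)
          (by norm_num) (by first | (refine le_trans ?_ hx; norm_num; done) | (refine le_trans ?_ h95; norm_num; done) | linarith) hw hxw hF
          (K1b.R_e_threeA_0_1 (w := w) (by first | (refine le_trans ?_ hw; norm_num; done) | (refine le_trans ?_ h; norm_num; done) | linarith)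
            (by first | (refine le_trans h ?_; norm_num; done) | linarith only [hxw, h95] | linarith only [hxw, hx] | linarith))
          (le_trans (le_of_eq (by ring)) hE) (by norm_num) (by norm_num) (by norm_num) (by norm_num)
      · exact K1b.core2 (c := 7 / 25) (c' := 3 / 20) (X := 7 / 10) (x := x) (w := w) (t := t) (k := k) (G := G) (s := 43 / 100)
          (β := 47 / 20) (γ := 851 / 1000) (a := -9 / 40) (a0 := 62 / 625) (a1 := -227 / 1000) (c1 := 51 / 500) (U := 1)
          (by norm_num) (by first | (refine le_trans ?_ hx; norm_num; done) | (refine le_trans ?_ h95; norm_num; done) | linarith) hw hxw hF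
          (K1b.R_e_threeA_0_0 (w := w) (by first | (refine le_trans ?_ hw; norm_num; done) | (refine le_trans ?_ h; norm_num; done) | linarith)
            (by first | (refine le_trans h ?_; norm_num; done) | linarith only [hxw, h95] | linarith only [hxw, hx] | linarith))
          (le_trans (le_of_eq (by ring)) hE) (by norm_num) (by norm_num) (by norm_num) (by norm_num)
    · replace hE := hE.2 h
      have hF := K1b.f_e_threeA_1 (t := t) (k := k) (by first | (refine le_trans ?_ t0; norm_num; done) | linarith only [t0, t1, s0, s1, k0, k1] | linarith) (by first | (refine le_trans t1 ?_; norm_num; done) | linarith only [t0, t1, s0, s1, k0, k1] | linarith) (by first | (refine le_trans ?_ k0; norm_num; done) | linarith only [t0, t1, s0, s1, k0, k1] | linarith) (by first | (refine le_trans k1 ?_; norm_num; done) | linarith only [t0, t1, s0, s1, k0, k1] | linarith) (by first | (refine le_trans s1 ?_; norm_num; done) | linarith only [t0, t1, s0, s1, k0, k1] | linarith) (by first | (refine le_trans ?_ s0; norm_num; done) | linarith only [t0, t1, s0, s1, k0, k1] | linarith)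
      split_ifs with h95
      · exfalso
        linarith
      · exact K1b.core2 (c := 7 / 25) (c' := 3 / 20) (X := 7 / 10) (x := x) (w := w) (t := t) (k := k) (G := G) (s := 43 / 100)
          (β := 47 / 20) (γ := 113 / 200) (a := -9 / 40) (a0 := 1289 / 5000) (a1 := -553 / 500) (c1 := 91 / 1000) (U := 1)
          (by norm_num) (by first | (refine le_trans ?_ hx; norm_num; done) | (refine le_trans ?_ h95; norm_num; done) | linarith) hw hxw hF
          (K1b.R_e_threeA_1_0 (w := w) (by first | (refine le_trans ?_ hw; norm_num; done) | (refine le_trans ?_ h; norm_num; done) | linarith)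
            (by first | (refine le_trans h ?_; norm_num; done) | linarith only [hxw, h95] | linarith only [hxw, hx] | linarith))
          (le_trans (le_of_eq (by ring)) hE) (by norm_num) (by norm_num) (by norm_num) (by norm_num)
  · obtain rfl : Cc = .three := hC
    simp only [cw, EB, eU] at t0 t1 s0 s1 k0 k1 hE
    simp only [cT, cN, be, al]
    rw [show (28 : ℝ) / 100 = 7 / 25 by norm_num]
    have hF := K1b.f_e_threeK_0 (t := t) (k := k) (by first | (refine le_trans ?_ t0; norm_num; done) | linarith only [t0, t1, s0, s1, k0, k1] | linarith) (by first | (refine le_trans t1 ?_; norm_num; done) | linarith only [t0, t1, s0, s1, k0, k1] | linarith) (by first | (refine le_trans ?_ k0; norm_num; done) | linarith only [t0, t1, s0, s1, k0, k1] | linarith) (by first | (refine le_trans k1 ?_; norm_num; done) | linarith only [t0, t1, s0, s1, k0, k1] | linarith) (by first | (refine le_trans s1 ?_; norm_num; done) | linarith only [t0, t1, s0, s1, k0, k1] | linarith) (by first | (refine le_trans ?_ s0; norm_num; done) | linarith only [t0, t1, s0, s1, k0, k1] | linarith)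
    split_ifs with h95
    · exact K1b.core2 (c := 7 / 25) (c' := 9 / 50) (X := 19 / 20) (x := x) (w := w) (t := t) (k := k) (G := G) (s := 23 / 50)
        (β := 47 / 20) (γ := 353 / 250) (a := -1 / 10) (a0 := 7 / 625) (a1 := 97 / 1000) (c1 := 17 / 100) (U := 1)
        (by norm_num) (by first | (refine le_trans ?_ hx; norm_num; done) | (refine le_trans ?_ h95; norm_num; done) | linarith) hw hxw hF
        (K1b.R_e_threeK_0_1 (w := w) (by first | (refine le_trans ?_ hw; norm_num; done) | (refine le_trans ?_ h; norm_num; done) | linarith)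
          (by first | (refine le_trans h ?_; norm_num; done) | linarith only [hxw, h95] | linarith only [hxw, hx] | linarith))
        (le_trans (le_of_eq (by ring)) hE) (by norm_num) (by norm_num) (by norm_num) (by norm_num)
    · exact K1b.core2 (c := 7 / 25) (c' := 9 / 50) (X := 7 / 10) (x := x) (w := w) (t := t) (k := k) (G := G) (s := 23 / 50)
        (β := 47 / 20) (γ := 353 / 250) (a := -9 / 40) (a0 := 7 / 625) (a1 := 97 / 1000) (c1 := 17 / 100) (U := 1)
        (by norm_num) (by first | (refine le_trans ?_ hx; norm_num; done) | (refine le_trans ?_ h95; norm_num; done) | linarith) hw hxw hF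
        (K1b.R_e_threeK_0_0 (w := w) (by first | (refine le_trans ?_ hw; norm_num; done) | (refine le_trans ?_ h; norm_num; done) | linarith)
          (by first | (refine le_trans h ?_; norm_num; done) | linarith only [hxw, h95] | linarith only [hxw, hx] | linarith))
        (le_trans (le_of_eq (by ring)) hE) (by norm_num) (by norm_num) (by norm_num) (by norm_num)
  · obtain rfl : Cc = .threeE := hC
    simp only [cw, EB, eU] at t0 t1 s0 s1 k0 k1 hE
    simp only [cT, cN, be, al]
    rw [show (28 : ℝ) / 100 = 7 / 25 by norm_num]
    have hF := K1b.f_e_threeE_0 (t := t) (k := k) (by first | (refine le_trans ?_ t0; norm_num; done) | linarith only [t0, t1, s0, s1, k0, k1] | linarith) (by first | (refine le_trans t1 ?_; norm_num; done) | linarith only [t0, t1, s0, s1, k0, k1] | linarith) (by first | (refine le_trans ?_ k0; norm_num; done) | linarith only [t0, t1, s0, s1, k0, k1] | linarith) (by first | (refine le_trans k1 ?_; norm_num; done) | linarith only [t0, t1, s0, s1, k0, k1] | linarith) (by first | (refine le_trans s1 ?_; norm_num; done) | linarith only [t0, t1, s0,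 s1, k0, k1] | linarith) (by first | (refine le_trans ?_ s0; norm_num; done) | linarith only [t0, t1, s0, s1, k0, k1] | linarith)
    split_ifs with h95
    · exact K1b.core2 (c := 7 / 25) (c' := 11 / 50) (X := 19 / 20) (x := x) (w := w) (t := t) (k := k) (G := G) (s := 1 / 2)
        (β := 47 / 20) (γ := 243 / 200) (a := -1 / 10) (a0 := 269 / 2000) (a1 := 0 / 1) (c1 := 19 / 100) (U := 1)
        (by norm_num) (by first | (refine le_trans ?_ hx; norm_num; done) | (refine le_trans ?_ h95; norm_num; done) | linarith) hw hxw hF
        (K1b.R_e_threeE_0_1 (w := w) (by first | (refine le_trans ?_ hw; norm_num; done) | (refine le_trans ?_ h; norm_num; done) | linarith)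
          (by first | (refine le_trans h ?_; norm_num; done) | linarith only [hxw, h95] | linarith only [hxw, hx] | linarith))
        (le_trans (le_of_eq (by ring)) hE) (by norm_num) (by norm_num) (by norm_num) (by norm_num)
    · exact K1b.core2 (c := 7 / 25) (c' := 11 / 50) (X := 7 / 10) (x := x) (w := w) (t := t) (k := k) (G := G) (s := 1 / 2)
        (β := 47 / 20) (γ := 243 / 200) (a := -9 / 40) (a0 := 269 / 2000) (a1 := 0 / 1) (c1 := 19 / 100) (U := 1)
        (by norm_num) (by first | (refine le_trans ?_ hx; norm_num; done) | (refine le_trans ?_ h95; norm_num; done) | linarith) hw hxw hF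
        (K1b.R_e_threeE_0_0 (w := w) (by first | (refine le_trans ?_ hw; norm_num; done) | (refine le_trans ?_ h; norm_num; done) | linarith)
          (by first | (refine le_trans h ?_; norm_num; done) | linarith only [hxw, h95] | linarith only [hxw, hx] | linarith))
        (le_trans (le_of_eq (by ring)) hE) (by norm_num) (by norm_num) (by norm_num) (by norm_num)
  · obtain rfl : Cc = .ring := hC
    simp only [cw, EB, eU] at t0 t1 s0 s1 k0 k1 hE
    simp only [cT, cN, be, al]
    rw [show (28 : ℝ) / 100 = 7 / 25 by norm_num]
    rcases le_total w (7 / 50) with h | h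
    · replace hE := hE.1 h
      have hF := K1b.f_e_ring_0 (t := t) (k := k) (by first | (refine le_trans ?_ t0; norm_num; done) | linarith only [t0, t1, s0, s1, k0, k1] | linarith) (by first | (refine le_trans t1 ?_; norm_num; done) | linarith only [t0, t1, s0, s1, k0, k1] | linarith) (by first | (refine le_trans ?_ k0; norm_num; done) | linarith only [t0, t1, s0, s1, k0, k1] | linarith) (by first | (refine le_trans k1 ?_; norm_num; done) | linarith only [t0, t1, s0, s1, k0, k1] | linarith) (by first | (refine le_trans s1 ?_; norm_num; done) | linarith only [t0, t1, s0, s1, k0, k1] | linarith) (by first | (refine le_trans ?_ s0; norm_num; done) | linarith only [t0, t1, s0, s1, k0, k1] | linarith)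
      split_ifs with h95
      · exact K1b.core2 (c := 7 / 25) (c' := 9 / 50) (X := 19 / 20) (x := x) (w := w) (t := t) (k := k) (G := G) (s := 23 / 50)
          (β := 47 / 20) (γ := 839 / 500) (a := -1 / 10) (a0 := -67 / 1250) (a1 := 543 / 1000) (c1 := 1 / 5) (U := 1)
          (by norm_num) (by first | (refine le_trans ?_ hx; norm_num; done) | (refine le_trans ?_ h95; norm_num; done) | linarith) hw hxw hF
          (K1b.R_e_ring_0_1 (w := w) (by first | (refine le_trans ?_ hw; norm_num; done) | (refine le_trans ?_ h; norm_num; done) | linarith)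
            (by first | (refine le_trans h ?_; norm_num; done) | linarith only [hxw, h95] | linarith only [hxw, hx] | linarith))
          (le_trans (le_of_eq (by ring)) hE) (by norm_num) (by norm_num) (by norm_num) (by norm_num)
      · exact K1b.core2 (c := 7 / 25) (c' := 9 / 50) (X := 7 / 10) (x := x) (w := w) (t := t) (k := k) (G := G) (s := 23 / 50)
          (β := 47 / 20) (γ := 839 / 500) (a := -9 / 40) (a0 := -67 / 1250) (a1 := 543 / 1000) (c1 := 1 / 5) (U := 1)
          (by norm_num) (by first | (refine le_trans ?_ hx; norm_num; done) | (refine le_trans ?_ h95; norm_num; done) | linarith) hw hxw hF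
          (K1b.R_e_ring_0_0 (w := w) (by first | (refine le_trans ?_ hw; norm_num; done) | (refine le_trans ?_ h; norm_num; done) | linarith)
            (by first | (refine le_trans h ?_; norm_num; done) | linarith only [hxw, h95] | linarith only [hxw, hx] | linarith))
          (le_trans (le_of_eq (by ring)) hE) (by norm_num) (by norm_num) (by norm_num) (by norm_num)
    · replace hE := hE.2 h
      have hF := K1b.f_e_ring_1 (t := t) (k := k) (by first | (refine le_trans ?_ t0; norm_num; done) | linarith only [t0, t1, s0, s1, k0, k1] | linarith) (by first | (refine le_trans t1 ?_; norm_num; done) | linarith only [t0, t1, s0, s1, k0, k1] | linarith) (by first | (refine le_trans ?_ k0; norm_num; done) | linarith only [t0, t1, s0, s1, k0, k1] | linarith) (by first | (refine le_trans k1 ?_; norm_num; done) | linarith only [t0, t1, s0, s1, k0, k1] | linarith) (by first | (refine le_trans s1 ?_; norm_num; done) | linarith only [t0, t1, s0, s1, k0, k1] | linarith) (by first | (refine le_trans ?_ s0; norm_num; done) | linarith only [t0, t1, s0, s1, k0, k1] | linarith)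
      split_ifs with h95
      · exfalso
        linarith
      · exact K1b.core2 (c := 7 / 25) (c' := 9 / 50) (X := 7 / 10) (x := x) (w := w) (t := t) (k := k) (G := G) (s := 23 / 50)
          (β := 47 / 20) (γ := 1397 / 1000) (a := -9 / 40) (a0 := 1291 / 10000) (a1 := -18 / 25) (c1 := 41 / 250) (U := 1)
          (by norm_num) (by first | (refine le_trans ?_ hx; norm_num; done) | (refine le_trans ?_ h95; norm_num; done) | linarith) hw hxw hF
          (K1b.R_e_ring_1_0 (w := w) (by first | (refine le_trans ?_ hw; norm_num; done) | (refine le_trans ?_ h; norm_num; done) | linarith)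
            (by first | (refine le_trans h ?_; norm_num; done) | linarith only [hxw, h95] | linarith only [hxw, hx] | linarith))
          (le_trans (le_of_eq (by ring)) hE) (by norm_num) (by norm_num) (by norm_num) (by norm_num)
  · have hh : -33 / 500 ≤ t ∧ t ≤ 1 / 1000 ∧ -33 / 1000 ≤ k ∧ k ≤ 79 / 500 := by
      clear hE hx
      cases Cc
      · simp only [cw, hbox] at t0 t1 k0 k1
        exact ⟨by linarith, by linarith, by linarith, by linarith⟩
      · simp only [cw, hbox] at t0 t1 k0 k1
        exact ⟨by linarith, by linarith, by linarith, by linarith⟩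
      · simp only [cw, hbox] at t0 t1 k0 k1
        exact ⟨by linarith, by linarith, by linarith, by linarith⟩
      · simp only [cw, hbox] at t0 t1 k0 k1
        exact ⟨by linarith, by linarith, by linarith, by linarith⟩
      · simp only [cw, hbox] at t0 t1 k0 k1
        exact ⟨by linarith, by linarith, by linarith, by linarith⟩
      · simp only [cw, hbox] at t0 t1 k0 k1
        exact ⟨by linarith, by linarith, by linarith, by linarith⟩
    obtain ⟨t0, t1, k0, k1⟩ := hh
    simp only [EB, eU] at hE
    simp only [cT, cN, be, al]
    rw [show (28 : ℝ) / 100 = 7 / 25 by norm_num]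
    have hF := K1b.f_e_touched_0 (t := t) (k := k) (by first | (refine le_trans ?_ t0; norm_num; done) | linarith only [t0, t1, s0, s1, k0, k1] | linarith) (by first | (refine le_trans t1 ?_; norm_num; done) | linarith only [t0, t1, s0, s1, k0, k1] | linarith) (by first | (refine le_trans ?_ k0; norm_num; done) | linarith only [t0, t1, s0, s1, k0, k1] | linarith) (by first | (refine le_trans k1 ?_; norm_num; done) | linarith only [t0, t1, s0, s1, k0, k1] | linarith)
    split_ifs with h95
    · exact K1b.core2 (c := 7 / 25) (c' := 1 / 5) (X := 19 / 20) (x := x) (w := w) (t := t) (k := k) (G := G) (s := 12 / 25)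
        (β := 47 / 20) (γ := 59 / 25) (a := -1 / 10) (a0 := 0 / 1) (a1 := 0 / 1) (c1 := 6 / 25) (U := 0)
        (by norm_num) (by first | (refine le_trans ?_ hx; norm_num; done) | (refine le_trans ?_ h95; norm_num; done) | linarith) hw hxw hF
        (K1b.R_e_touched_0_1 (w := w) (by first | (refine le_trans ?_ hw; norm_num; done) | (refine le_trans ?_ h; norm_num; done) | linarith)
          (by first | (refine le_trans h ?_; norm_num; done) | linarith only [hxw, h95] | linarith only [hxw, hx] | linarith))
        (le_trans (le_of_eq (by ring)) hE) (by norm_num) (by norm_num) (by norm_num) (by norm_num)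
    · exact K1b.core2 (c := 7 / 25) (c' := 1 / 5) (X := 7 / 10) (x := x) (w := w) (t := t) (k := k) (G := G) (s := 12 / 25)
        (β := 47 / 20) (γ := 59 / 25) (a := -9 / 40) (a0 := 0 / 1) (a1 := 0 / 1) (c1 := 6 / 25) (U := 0)
        (by norm_num) (by first | (refine le_trans ?_ hx; norm_num; done) | (refine le_trans ?_ h95; norm_num; done) | linarith) hw hxw hF
        (K1b.R_e_touched_0_0 (w := w) (by first | (refine le_trans ?_ hw; norm_num; done) | (refine le_trans ?_ h; norm_num; done) | linarith)
          (by first | (refine le_trans h ?_; norm_num; done) | linarith only [hxw, h95] | linarith only [hxw, hx] | linarith))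
        (le_trans (le_of_eq (by ring)) hE) (by norm_num) (by norm_num) (by norm_num) (by norm_num)

/-- **K1, `B = .threeE`** -/
theorem side_one_threeE {Cc : Cl} {C : Ct} (hC : C.ok Cc) {x w t k G : ℝ}
    (hx : X0 .one .threeE ≤ x) (hw : 0 ≤ w) (hxw : x + w ≤ 1)
    (t0 : (cw Cc .threeE).t0 ≤ t) (t1 : t ≤ (cw Cc .threeE).t1)
    (s0 : (cw Cc .threeE).s0 ≤ t + k) (s1 : t + k ≤ (cw Cc .threeE).s1)
    (k0 : (cw .threeE Cc).t0 ≤ k) (k1 : k ≤ (cw .threeE Cc).t1)
    (hbig : ¬ (big .threeE ∧ big Cc)) (hCo : Cc = .one → -(2 / 25) ≤ k)
    (hE : EB .one C w (-k) G) :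
    al .one .threeE Cc x ≤ V1 ⟨cT .one .threeE, t⟩ ⟨cN C, k⟩ - V1 ⟨x, 0⟩ ⟨w, 0⟩ + G +
      be .one .threeE * t := by
  have eU : UU ⟨w, 0⟩ = uu w 0 := rfl
  simp only [X0] at hx
  cases C
  · obtain rfl : Cc = .one := hC
    simp only [cw, EB, eU] at t0 t1 s0 s1 k0 k1 hE
    simp only [cT, cN, be, al]
    have k0 := hCo rfl
    rw [show (28 : ℝ) / 100 = 7 / 25 by norm_num]
    rcases le_total w (9 / 50) with h | h
    · rcases hE.1 h with hE | hE
      · have hF := K1b.f_h_one_0 (t := t) (k := k) (by first | (refine le_trans ?_ t0; norm_num; done) | linarith only [t0, t1, s0, s1, k0, k1] | linarith) (by first | (refine le_trans t1 ?_; norm_num; done) | linarith only [t0, t1, s0, s1, k0, k1] | linarith) (by first | (refine le_trans ?_ k0; norm_num; done) | linarith only [t0, t1, s0, s1, k0, k1] | linarith) (by first | (refine le_trans k1 ?_; norm_num; done) | linarith only [t0, t1, s0, s1, k0, k1] | linarith) (by first | (refine le_trans s1 ?_; norm_num; done) | linarith only [t0, t1, s0, s1, k0, k1] | linarith) (by first | (refine le_trans ?_ s0; norm_num; done) | linarith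 only [t0, t1, s0, s1, k0, k1] | linarith)
        exact K1b.core2 (c := 7 / 25) (c' := 9 / 50) (X := 3 / 5) (x := x) (w := w) (t := t) (k := k) (G := G) (s := 23 / 50)
          (β := 41 / 20) (γ := 3927 / 1250) (a := -3 / 20) (a0 := -11 / 1000) (a1 := 0 / 1) (c1 := 153 / 1000) (U := 0)
          (by norm_num) (by first | (refine le_trans ?_ hx; norm_num; done) | (refine le_trans ?_ h95; norm_num; done) | linarith) hw hxw hF
          (K1b.R_h_one_0_0 (w := w) (by first | (refine le_trans ?_ hw; norm_num; done) | (refine le_trans ?_ h; norm_num; done) | linarith)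
            (by first | (refine le_trans h ?_; norm_num; done) | linarith only [hxw, h95] | linarith only [hxw, hx] | linarith))
          (le_trans (le_of_eq (by ring)) hE) (by norm_num) (by norm_num) (by norm_num) (by norm_num)
      · have hF := K1b.f_h_one_1 (t := t) (k := k) (by first | (refine le_trans ?_ t0; norm_num; done) | linarith only [t0, t1, s0, s1, k0, k1] | linarith) (by first | (refine le_trans t1 ?_; norm_num; done) | linarith only [t0, t1, s0, s1, k0, k1] | linarith) (by first | (refine le_trans ?_ k0; norm_num; done) | linarith only [t0, t1, s0, s1, k0, k1] | linarith) (by first | (refine le_trans k1 ?_; norm_num; done) | linarith only [t0, t1, s0, s1, k0, k1] | linarith) (by first | (refine le_trans s1 ?_; norm_num; done) | linarith only [t0, t1, s0, s1, k0, k1] | linarith) (by first | (refine le_trans ?_ s0; norm_num; done) | linarith only [t0, t1, s0, s1, k0, k1] | linarith)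
        exact K1b.core2 (c := 7 / 25) (c' := 9 / 50) (X := 3 / 5) (x := x) (w := w) (t := t) (k := k) (G := G) (s := 23 / 50)
          (β := 41 / 20) (γ := 821 / 500) (a := -3 / 20) (a0 := -163 / 5000) (a1 := 779 / 1000) (c1 := 24 / 125) (U := 1)
          (by norm_num) (by first | (refine le_trans ?_ hx; norm_num; done) | (refine le_trans ?_ h95; norm_num; done) | linarith) hw hxw hF
          (K1b.R_h_one_1_0 (w := w) (by first | (refine le_trans ?_ hw; norm_num; done) | (refine le_trans ?_ h; norm_num; done) | linarith)
            (by first | (refine le_trans h ?_; norm_num; done) | linarith only [hxw, h95] | linarith only [hxw, hx] | linarith))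
          (le_trans (le_of_eq (by ring)) hE) (by norm_num) (by norm_num) (by norm_num) (by norm_num)
    · rcases hE.2 h with hE | hE
      · have hF := K1b.f_h_one_2 (t := t) (k := k) (by first | (refine le_trans ?_ t0; norm_num; done) | linarith only [t0, t1, s0, s1, k0, k1] | linarith) (by first | (refine le_trans t1 ?_; norm_num; done) | linarith only [t0, t1, s0, s1, k0, k1] | linarith) (by first | (refine le_trans ?_ k0; norm_num; done) | linarith only [t0, t1, s0, s1, k0, k1] | linarith) (by first | (refine le_trans k1 ?_; norm_num; done) | linarith only [t0, t1, s0, s1, k0, k1] | linarith) (by first | (refine le_trans s1 ?_; norm_num; done) | linarith only [t0, t1, s0, s1, k0, k1] | linarith) (by first | (refine le_trans ?_ s0; norm_num; done) | linarith only [t0, t1, s0, s1, k0, k1] | linarith)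
        exact K1b.core2 (c := 7 / 25) (c' := 9 / 50) (X := 3 / 5) (x := x) (w := w) (t := t) (k := k) (G := G) (s := 23 / 50)
          (β := 41 / 20) (γ := 1849 / 1000) (a := -3 / 20) (a0 := 164 / 625) (a1 := -921 / 1000) (c1 := 43 / 200) (U := 1)
          (by norm_num) (by first | (refine le_trans ?_ hx; norm_num; done) | (refine le_trans ?_ h95; norm_num; done) | linarith) hw hxw hF
          (K1b.R_h_one_2_0 (w := w) (by first | (refine le_trans ?_ hw; norm_num; done) | (refine le_trans ?_ h; norm_num; done) | linarith)
            (by first | (refine le_trans h ?_; norm_num; done) | linarith only [hxw, h95] | linarith only [hxw, hx] | linarith))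
          (le_trans (le_of_eq (by ring)) hE) (by norm_num) (by norm_num) (by norm_num) (by norm_num)
      · have hF := K1b.f_h_one_3 (t := t) (k := k) (by first | (refine le_trans ?_ t0; norm_num; done) | linarith only [t0, t1, s0, s1, k0, k1] | linarith) (by first | (refine le_trans t1 ?_; norm_num; done) | linarith only [t0, t1, s0, s1, k0, k1] | linarith) (by first | (refine le_trans ?_ k0; norm_num; done) | linarith only [t0, t1, s0, s1, k0, k1] | linarith) (by first | (refine le_trans k1 ?_; norm_num; done) | linarith only [t0, t1, s0, s1, k0, k1] | linarith) (by first | (refine le_trans s1 ?_; norm_num; done) | linarith only [t0, t1, s0, s1, k0, k1] | linarith) (by first | (refine le_trans ?_ s0; norm_num; done) | linarith only [t0, t1, s0, s1, k0, k1] | linarith)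
        exact K1b.core2 (c := 7 / 25) (c' := 9 / 50) (X := 3 / 5) (x := x) (w := w) (t := t) (k := k) (G := G) (s := 23 / 50)
          (β := 41 / 20) (γ := 1309 / 500) (a := -3 / 20) (a0 := 1451 / 5000) (a1 := -1021 / 1000) (c1 := 43 / 200) (U := 1)
          (by norm_num) (by first | (refine le_trans ?_ hx; norm_num; done) | (refine le_trans ?_ h95; norm_num; done) | linarith) hw hxw hF
          (K1b.R_h_one_3_0 (w := w) (by first | (refine le_trans ?_ hw; norm_num; done) | (refine le_trans ?_ h; norm_num; done) | linarith)
            (by first | (refine le_trans h ?_; norm_num; done) | linarith only [hxw, h95] | linarith only [hxw, hx] | linarith))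
          (le_trans (le_of_eq (by ring)) hE) (by norm_num) (by norm_num) (by norm_num) (by norm_num)
  · obtain rfl : Cc = .two := hC
    simp only [cw, EB, eU] at t0 t1 s0 s1 k0 k1 hE
    simp only [cT, cN, be, al]
    rw [show (28 : ℝ) / 100 = 7 / 25 by norm_num]
    have hF := K1b.f_h_two_0 (t := t) (k := k) (by first | (refine le_trans ?_ t0; norm_num; done) | linarith only [t0, t1, s0, s1, k0, k1] | linarith) (by first | (refine le_trans t1 ?_; norm_num; done) | linarith only [t0, t1, s0, s1, k0, k1] | linarith) (by first | (refine le_trans ?_ k0; norm_num; done) | linarith only [t0, t1, s0, s1, k0, k1] | linarith) (by first | (refine le_trans k1 ?_; norm_num; done) | linarith only [t0, t1, s0, s1, k0, k1] | linarith) (by first | (refine le_trans s1 ?_; norm_num; done) | linarith only [t0, t1, s0, s1, k0, k1] | linarith) (by first | (refine le_trans ?_ s0; norm_num; done) | linarith only [t0, t1, s0, s1, k0, k1] | linarith)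
    exact K1b.core2 (c := 7 / 25) (c' := 1 / 4) (X := 3 / 5) (x := x) (w := w) (t := t) (k := k) (G := G) (s := 53 / 100)
      (β := 41 / 20) (γ := 1571 / 1000) (a := -3 / 20) (a0 := 53 / 625) (a1 := -37 / 250) (c1 := 223 / 1000) (U := 1)
      (by norm_num) (by first | (refine le_trans ?_ hx; norm_num; done) | (refine le_trans ?_ h95; norm_num; done) | linarith) hw hxw hF
      (K1b.R_h_two_0_0 (w := w) (by first | (refine le_trans ?_ hw; norm_num; done) | (refine le_trans ?_ h; norm_num; done) | linarith)
        (by first | (refine le_trans h ?_; norm_num; done) | linarith only [hxw, h95] | linarith only [hxw, hx] | linarith))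
      (le_trans (le_of_eq (by ring)) hE) (by norm_num) (by norm_num) (by norm_num) (by norm_num)
  · obtain rfl : Cc = .twoE := hC
    simp only [cw, EB, eU] at t0 t1 s0 s1 k0 k1 hE
    simp only [cT, cN, be, al]
    rw [show (28 : ℝ) / 100 = 7 / 25 by norm_num]
    have hF := K1b.f_h_twoE_0 (t := t) (k := k) (by first | (refine le_trans ?_ t0; norm_num; done) | linarith only [t0, t1, s0, s1, k0, k1] | linarith) (by first | (refine le_trans t1 ?_; norm_num; done) | linarith only [t0, t1, s0, s1, k0, k1] | linarith) (by first | (refine le_trans ?_ k0; norm_num; done) | linarith only [t0, t1, s0, s1, k0, k1] | linarith) (by first | (refine le_trans k1 ?_; norm_num; done) | linarith only [t0, t1, s0, s1, k0, k1] | linarith) (by first | (refine le_trans s1 ?_; norm_num; done) | linarith only [t0, t1, s0, s1, k0, k1] | linarith) (by first | (refine le_trans ?_ s0; norm_num; done) | linarith only [t0, t1, s0, s1, k0, k1] | linarith)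
    exact K1b.core2 (c := 7 / 25) (c' := 11 / 50) (X := 3 / 5) (x := x) (w := w) (t := t) (k := k) (G := G) (s := 1 / 2)
      (β := 41 / 20) (γ := 1131 / 500) (a := -3 / 20) (a0 := 309 / 2000) (a1 := 0 / 1) (c1 := 23 / 100) (U := 1)
      (by norm_num) (by first | (refine le_trans ?_ hx; norm_num; done) | (refine le_trans ?_ h95; norm_num; done) | linarith) hw hxw hF
      (K1b.R_h_twoE_0_0 (w := w) (by first | (refine le_trans ?_ hw; norm_num; done) | (refine le_trans ?_ h; norm_num; done) | linarith)
        (by first | (refine le_trans h ?_; norm_num; done) | linarith only [hxw, h95] | linarith only [hxw, hx] | linarith))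
      (le_trans (le_of_eq (by ring)) hE) (by norm_num) (by norm_num) (by norm_num) (by norm_num)
  · exact absurd ⟨by simp [big], by rw [show Cc = .three from hC]; simp [big]⟩ hbig
  · exact absurd ⟨by simp [big], by rw [show Cc = .three from hC]; simp [big]⟩ hbig
  · exact absurd ⟨by simp [big], by rw [show Cc = .threeE from hC]; simp [big]⟩ hbig
  · exact absurd ⟨by simp [big], by rw [show Cc = .ring from hC]; simp [big]⟩ hbig
  · have hh : 1 / 100 ≤ t ∧ t ≤ 39 / 500 ∧ -61 / 1000 ≤ k ∧ k ≤ 91 / 1000 := by
      clear hE hx
      cases Cc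
      · simp only [cw, hbox] at t0 t1 k0 k1
        exact ⟨by linarith, by linarith, by linarith, by linarith⟩
      · simp only [cw, hbox] at t0 t1 k0 k1
        exact ⟨by linarith, by linarith, by linarith, by linarith⟩
      · simp only [cw, hbox] at t0 t1 k0 k1
        exact ⟨by linarith, by linarith, by linarith, by linarith⟩
      · exact absurd ⟨by simp [big], by simp [big]⟩ hbig
      · exact absurd ⟨by simp [big], by simp [big]⟩ hbig
      · exact absurd ⟨by simp [big], by simp [big]⟩ hbig
    obtain ⟨t0, t1, k0, k1⟩ := hh
    simp only [EB, eU] at hE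
    simp only [cT, cN, be, al]
    rw [show (28 : ℝ) / 100 = 7 / 25 by norm_num]
    have hF := K1b.f_h_touched_0 (t := t) (k := k) (by first | (refine le_trans ?_ t0; norm_num; done) | linarith only [t0, t1, s0, s1, k0, k1] | linarith) (by first | (refine le_trans t1 ?_; norm_num; done) | linarith only [t0, t1, s0, s1, k0, k1] | linarith) (by first | (refine le_trans ?_ k0; norm_num; done) | linarith only [t0, t1, s0, s1, k0, k1] | linarith) (by first | (refine le_trans k1 ?_; norm_num; done) | linarith only [t0, t1, s0, s1, k0, k1] | linarith)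
    exact K1b.core2 (c := 7 / 25) (c' := 1 / 5) (X := 3 / 5) (x := x) (w := w) (t := t) (k := k) (G := G) (s := 12 / 25)
      (β := 41 / 20) (γ := 59 / 25) (a := -3 / 20) (a0 := 0 / 1) (a1 := 0 / 1) (c1 := 21 / 100) (U := 0)
      (by norm_num) (by first | (refine le_trans ?_ hx; norm_num; done) | (refine le_trans ?_ h95; norm_num; done) | linarith) hw hxw hF
      (K1b.R_h_touched_0_0 (w := w) (by first | (refine le_trans ?_ hw; norm_num; done) | (refine le_trans ?_ h; norm_num; done) | linarith)
        (by first | (refine le_trans h ?_; norm_num; done) | linarith only [hxw, h95] | linarith only [hxw, hx] | linarith))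
      (le_trans (le_of_eq (by ring)) hE) (by norm_num) (by norm_num) (by norm_num) (by norm_num)

/-- **K1, `B = .ring`** -/
theorem side_one_ring {Cc : Cl} {C : Ct} (hC : C.ok Cc) {x w t k G : ℝ}
    (hx : X0 .one .ring ≤ x) (hw : 0 ≤ w) (hxw : x + w ≤ 1)
    (t0 : (cw Cc .ring).t0 ≤ t) (t1 : t ≤ (cw Cc .ring).t1)
    (s0 : (cw Cc .ring).s0 ≤ t + k) (s1 : t + k ≤ (cw Cc .ring).s1)
    (k0 : (cw .ring Cc).t0 ≤ k) (k1 : k ≤ (cw .ring Cc).t1)
    (hbig : ¬ (big .ring ∧ big Cc)) (hCo : Cc = .one → -(2 / 25) ≤ k)
    (hE : EB .one C w (-k) G) :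
    al .one .ring Cc x ≤ V1 ⟨cT .one .ring, t⟩ ⟨cN C, k⟩ - V1 ⟨x, 0⟩ ⟨w, 0⟩ + G +
      be .one .ring * t := by
  have eU : UU ⟨w, 0⟩ = uu w 0 := rfl
  simp only [X0] at hx
  cases C
  · obtain rfl : Cc = .one := hC
    simp only [cw, EB, eU] at t0 t1 s0 s1 k0 k1 hE
    simp only [cT, cN, be, al]
    have k0 := hCo rfl
    rcases le_total w (9 / 50) with h | h
    · rcases hE.1 h with hE | hE
      · have hF := K1b.f_r_one_0 (t := t) (k := k) (by first | (refine le_trans ?_ t0; norm_num; done) | linarith only [t0, t1, s0, s1, k0, k1] | linarith) (by first | (refine le_trans t1 ?_; norm_num; done) | linarith only [t0, t1, s0, s1, k0, k1] | linarith) (by first | (refine le_trans ?_ k0; norm_num; done) | linarith only [t0, t1, s0, s1, k0, k1] | linarith) (by first | (refine le_trans k1 ?_; norm_num; done) | linarith only [t0, t1, s0, s1, k0, k1] | linarith) (by first | (refine le_trans s1 ?_; norm_num; done) | linarith only [t0, t1, s0, s1, k0, k1] | linarith) (by first | (refine le_trans ?_ s0; norm_num; done) | linarith only [t0, t1, s0, s1, k0, k1] | linarith)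
        split_ifs with h95
        · exact K1b.core2 (c := 1 / 4) (c' := 9 / 50) (X := 19 / 20) (x := x) (w := w) (t := t) (k := k) (G := G) (s := 43 / 100)
            (β := 21 / 10) (γ := 3927 / 1250) (a := 1 / 50) (a0 := -11 / 1000) (a1 := 0 / 1) (c1 := 137 / 1000) (U := 0)
            (by norm_num) (by first | (refine le_trans ?_ hx; norm_num; done) | (refine le_trans ?_ h95; norm_num; done) | linarith) hw hxw hF
            (K1b.R_r_one_0_1 (w := w) (by first | (refine le_trans ?_ hw; norm_num; done) | (refine le_trans ?_ h; norm_num; done) | linarith)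
              (by first | (refine le_trans h ?_; norm_num; done) | linarith only [hxw, h95] | linarith only [hxw, hx] | linarith))
            (le_trans (le_of_eq (by ring)) hE) (by norm_num) (by norm_num) (by norm_num) (by norm_num)
        · exact K1b.core2 (c := 1 / 4) (c' := 9 / 50) (X := 13 / 20) (x := x) (w := w) (t := t) (k := k) (G := G) (s := 43 / 100)
            (β := 21 / 10) (γ := 3927 / 1250) (a := -27 / 200) (a0 := -11 / 1000) (a1 := 0 / 1) (c1 := 137 / 1000) (U := 0)
            (by norm_num) (by first | (refine le_trans ?_ hx; norm_num; done) | (refine le_trans ?_ h95; norm_num; done) | linarith) hw hxw hF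
            (K1b.R_r_one_0_0 (w := w) (by first | (refine le_trans ?_ hw; norm_num; done) | (refine le_trans ?_ h; norm_num; done) | linarith)
              (by first | (refine le_trans h ?_; norm_num; done) | linarith only [hxw, h95] | linarith only [hxw, hx] | linarith))
            (le_trans (le_of_eq (by ring)) hE) (by norm_num) (by norm_num) (by norm_num) (by norm_num)
      · have hF := K1b.f_r_one_1 (t := t) (k := k) (by first | (refine le_trans ?_ t0; norm_num; done) | linarith only [t0, t1, s0, s1, k0, k1] | linarith) (by first | (refine le_trans t1 ?_; norm_num; done) | linarith only [t0, t1, s0, s1, k0, k1] | linarith) (by first | (refine le_trans ?_ k0; norm_num; done) | linarith only [t0, t1, s0, s1, k0, k1] | linarith) (by first | (refine le_trans k1 ?_; norm_num; done) | linarith only [t0, t1, s0, s1, k0, k1] | linarith) (by first | (refine le_trans s1 ?_; norm_num; done) | linarith only [t0, t1, s0, s1, k0, k1] | linarith) (by first | (refine le_trans ?_ s0; norm_num; done) | linarith only [t0, t1, s0, s1, k0, k1] | linarith)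
        split_ifs with h95
        · exact K1b.core2 (c := 1 / 4) (c' := 9 / 50) (X := 19 / 20) (x := x) (w := w) (t := t) (k := k) (G := G) (s := 43 / 100)
            (β := 21 / 10) (γ := 821 / 500) (a := 1 / 50) (a0 := -163 / 5000) (a1 := 779 / 1000) (c1 := 9 / 50) (U := 1)
            (by norm_num) (by first | (refine le_trans ?_ hx; norm_num; done) | (refine le_trans ?_ h95; norm_num; done) | linarith) hw hxw hF
            (K1b.R_r_one_1_1 (w := w) (by first | (refine le_trans ?_ hw; norm_num; done) | (refine le_trans ?_ h; norm_num; done) | linarith)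
              (by first | (refine le_trans h ?_; norm_num; done) | linarith only [hxw, h95] | linarith only [hxw, hx] | linarith))
            (le_trans (le_of_eq (by ring)) hE) (by norm_num) (by norm_num) (by norm_num) (by norm_num)
        · exact K1b.core2 (c := 1 / 4) (c' := 9 / 50) (X := 13 / 20) (x := x) (w := w) (t := t) (k := k) (G := G) (s := 43 / 100)
            (β := 21 / 10) (γ := 821 / 500) (a := -27 / 200) (a0 := -163 / 5000) (a1 := 779 / 1000) (c1 := 9 / 50) (U := 1)
            (by norm_num) (by first | (refine le_trans ?_ hx; norm_num; done) | (refine le_trans ?_ h95; norm_num; done) | linarith) hw hxw hF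
            (K1b.R_r_one_1_0 (w := w) (by first | (refine le_trans ?_ hw; norm_num; done) | (refine le_trans ?_ h; norm_num; done) | linarith)
              (by first | (refine le_trans h ?_; norm_num; done) | linarith only [hxw, h95] | linarith only [hxw, hx] | linarith))
            (le_trans (le_of_eq (by ring)) hE) (by norm_num) (by norm_num) (by norm_num) (by norm_num)
    · rcases hE.2 h with hE | hE
      · have hF := K1b.f_r_one_2 (t := t) (k := k) (by first | (refine le_trans ?_ t0; norm_num; done) | linarith only [t0, t1, s0, s1, k0, k1] | linarith) (by first | (refine le_trans t1 ?_; norm_num; done) | linarith only [t0, t1, s0, s1, k0, k1] | linarith) (by first | (refine le_trans ?_ k0; norm_num; done) | linarith only [t0, t1, s0, s1, k0, k1] | linarith) (by first | (refine le_trans k1 ?_; norm_num; done) | linarith only [t0, t1, s0, s1, k0, k1] | linarith) (by first | (refine le_trans s1 ?_; norm_num; done) | linarith only [t0, t1, s0, s1, k0, k1] | linarith) (by first | (refine le_trans ?_ s0; norm_num; done) | linarith only [t0, t1, s0, s1, k0, k1] | linarith)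
        split_ifs with h95
        · exfalso
          linarith
        · exact K1b.core2 (c := 1 / 4) (c' := 9 / 50) (X := 13 / 20) (x := x) (w := w) (t := t) (k := k) (G := G) (s := 43 / 100)
            (β := 21 / 10) (γ := 1849 / 1000) (a := -27 / 200) (a0 := 164 / 625) (a1 := -921 / 1000) (c1 := 189 / 1000) (U := 1)
            (by norm_num) (by first | (refine le_trans ?_ hx; norm_num; done) | (refine le_trans ?_ h95; norm_num; done) | linarith) hw hxw hF
            (K1b.R_r_one_2_0 (w := w) (by first | (refine le_trans ?_ hw; norm_num; done) | (refine le_trans ?_ h; norm_num; done) | linarith)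
              (by first | (refine le_trans h ?_; norm_num; done) | linarith only [hxw, h95] | linarith only [hxw, hx] | linarith))
            (le_trans (le_of_eq (by ring)) hE) (by norm_num) (by norm_num) (by norm_num) (by norm_num)
      · have hF := K1b.f_r_one_3 (t := t) (k := k) (by first | (refine le_trans ?_ t0; norm_num; done) | linarith only [t0, t1, s0, s1, k0, k1] | linarith) (by first | (refine le_trans t1 ?_; norm_num; done) | linarith only [t0, t1, s0, s1, k0, k1] | linarith) (by first | (refine le_trans ?_ k0; norm_num; done) | linarith only [t0, t1, s0, s1, k0, k1] | linarith) (by first | (refine le_trans k1 ?_; norm_num; done) | linarith only [t0, t1, s0, s1, k0, k1] | linarith) (by first | (refine le_trans s1 ?_; norm_num; done) | linarith only [t0, t1, s0, s1, k0, k1] | linarith) (by first | (refine le_trans ?_ s0; norm_num; done) | linarith only [t0, t1, s0, s1, k0, k1] | linarith)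
        split_ifs with h95
        · exfalso
          linarith
        · exact K1b.core2 (c := 1 / 4) (c' := 9 / 50) (X := 13 / 20) (x := x) (w := w) (t := t) (k := k) (G := G) (s := 43 / 100)
            (β := 21 / 10) (γ := 1309 / 500) (a := -27 / 200) (a0 := 1451 / 5000) (a1 := -1021 / 1000) (c1 := 24 / 125) (U := 1)
            (by norm_num) (by first | (refine le_trans ?_ hx; norm_num; done) | (refine le_trans ?_ h95; norm_num; done) | linarith) hw hxw hF
            (K1b.R_r_one_3_0 (w := w) (by first | (refine le_trans ?_ hw; norm_num; done) | (refine le_trans ?_ h; norm_num; done) | linarith)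
              (by first | (refine le_trans h ?_; norm_num; done) | linarith only [hxw, h95] | linarith only [hxw, hx] | linarith))
            (le_trans (le_of_eq (by ring)) hE) (by norm_num) (by norm_num) (by norm_num) (by norm_num)
  · obtain rfl : Cc = .two := hC
    simp only [cw, EB, eU] at t0 t1 s0 s1 k0 k1 hE
    simp only [cT, cN, be, al]
    have hF := K1b.f_r_two_0 (t := t) (k := k) (by first | (refine le_trans ?_ t0; norm_num; done) | linarith only [t0, t1, s0, s1, k0, k1] | linarith) (by first | (refine le_trans t1 ?_; norm_num; done) | linarith only [t0, t1, s0, s1, k0, k1] | linarith) (by first | (refine le_trans ?_ k0; norm_num; done) | linarith only [t0, t1, s0, s1, k0, k1] | linarith) (by first | (refine le_trans k1 ?_; norm_num; done) | linarith only [t0, t1, s0, s1, k0, k1] | linarith) (by first | (refine le_trans s1 ?_; norm_num; done) | linarith only [t0, t1, s0, s1, k0, k1] | linarith) (by first | (refine le_trans ?_ s0; norm_num; done) | linarith only [t0, t1, s0, s1, k0, k1] | linarith)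
    split_ifs with h95
    · exact K1b.core2 (c := 1 / 4) (c' := 1 / 4) (X := 19 / 20) (x := x) (w := w) (t := t) (k := k) (G := G) (s := 1 / 2)
        (β := 21 / 10) (γ := 1571 / 1000) (a := 1 / 50) (a0 := 53 / 625) (a1 := -37 / 250) (c1 := 21 / 100) (U := 1)
        (by norm_num) (by first | (refine le_trans ?_ hx; norm_num; done) | (refine le_trans ?_ h95; norm_num; done) | linarith) hw hxw hF
        (K1b.R_r_two_0_1 (w := w) (by first | (refine le_trans ?_ hw; norm_num; done) | (refine le_trans ?_ h; norm_num; done) | linarith)
          (by first | (refine le_trans h ?_; norm_num; done) | linarith only [hxw, h95] | linarith only [hxw, hx] | linarith))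
        (le_trans (le_of_eq (by ring)) hE) (by norm_num) (by norm_num) (by norm_num) (by norm_num)
    · exact K1b.core2 (c := 1 / 4) (c' := 1 / 4) (X := 13 / 20) (x := x) (w := w) (t := t) (k := k) (G := G) (s := 1 / 2)
        (β := 21 / 10) (γ := 1571 / 1000) (a := -27 / 200) (a0 := 53 / 625) (a1 := -37 / 250) (c1 := 21 / 100) (U := 1)
        (by norm_num) (by first | (refine le_trans ?_ hx; norm_num; done) | (refine le_trans ?_ h95; norm_num; done) | linarith) hw hxw hF
        (K1b.R_r_two_0_0 (w := w) (by first | (refine le_trans ?_ hw; norm_num; done) | (refine le_trans ?_ h; norm_num; done) | linarith)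
          (by first | (refine le_trans h ?_; norm_num; done) | linarith only [hxw, h95] | linarith only [hxw, hx] | linarith))
        (le_trans (le_of_eq (by ring)) hE) (by norm_num) (by norm_num) (by norm_num) (by norm_num)
  · obtain rfl : Cc = .twoE := hC
    simp only [cw, EB, eU] at t0 t1 s0 s1 k0 k1 hE
    simp only [cT, cN, be, al]
    have hF := K1b.f_r_twoE_0 (t := t) (k := k) (by first | (refine le_trans ?_ t0; norm_num; done) | linarith only [t0, t1, s0, s1, k0, k1] | linarith) (by first | (refine le_trans t1 ?_; norm_num; done) | linarith only [t0, t1, s0, s1, k0, k1] | linarith) (by first | (refine le_trans ?_ k0; norm_num; done) | linarith only [t0, t1, s0, s1, k0, k1] | linarith) (by first | (refine le_trans k1 ?_; norm_num; done) | linarith only [t0, t1, s0, s1, k0, k1] | linarith) (by first | (refine le_trans s1 ?_; norm_num; done) | linarith only [t0, t1, s0, s1, k0, k1] | linarith) (by first | (refine le_trans ?_ s0; norm_num; done) | linarith only [t0, t1, s0, s1, k0, k1] | linarith)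
    split_ifs with h95
    · exact K1b.core2 (c := 1 / 4) (c' := 11 / 50) (X := 19 / 20) (x := x) (w := w) (t := t) (k := k) (G := G) (s := 47 / 100)
        (β := 21 / 10) (γ := 1131 / 500) (a := 1 / 50) (a0 := 309 / 2000) (a1 := 0 / 1) (c1 := 23 / 100) (U := 1)
        (by norm_num) (by first | (refine le_trans ?_ hx; norm_num; done) | (refine le_trans ?_ h95; norm_num; done) | linarith) hw hxw hF
        (K1b.R_r_twoE_0_1 (w := w) (by first | (refine le_trans ?_ hw; norm_num; done) | (refine le_trans ?_ h; norm_num; done) | linarith)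
          (by first | (refine le_trans h ?_; norm_num; done) | linarith only [hxw, h95] | linarith only [hxw, hx] | linarith))
        (le_trans (le_of_eq (by ring)) hE) (by norm_num) (by norm_num) (by norm_num) (by norm_num)
    · exact K1b.core2 (c := 1 / 4) (c' := 11 / 50) (X := 13 / 20) (x := x) (w := w) (t := t) (k := k) (G := G) (s := 47 / 100)
        (β := 21 / 10) (γ := 1131 / 500) (a := -27 / 200) (a0 := 309 / 2000) (a1 := 0 / 1) (c1 := 23 / 100) (U := 1)
        (by norm_num) (by first | (refine le_trans ?_ hx; norm_num; done) | (refine le_trans ?_ h95; norm_num; done) | linarith) hw hxw hF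
        (K1b.R_r_twoE_0_0 (w := w) (by first | (refine le_trans ?_ hw; norm_num; done) | (refine le_trans ?_ h; norm_num; done) | linarith)
          (by first | (refine le_trans h ?_; norm_num; done) | linarith only [hxw, h95] | linarith only [hxw, hx] | linarith))
        (le_trans (le_of_eq (by ring)) hE) (by norm_num) (by norm_num) (by norm_num) (by norm_num)
  · exact absurd ⟨by simp [big], by rw [show Cc = .three from hC]; simp [big]⟩ hbig
  · exact absurd ⟨by simp [big], by rw [show Cc = .three from hC]; simp [big]⟩ hbig
  · exact absurd ⟨by simp [big], by rw [show Cc = .threeE from hC]; simp [big]⟩ hbig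
  · exact absurd ⟨by simp [big], by rw [show Cc = .ring from hC]; simp [big]⟩ hbig
  · have hh : 19 / 500 ≤ t ∧ t ≤ 79 / 500 ∧ -117 / 1000 ≤ k ∧ k ≤ 2 / 25 := by
      clear hE hx
      cases Cc
      · simp only [cw, hbox] at t0 t1 k0 k1
        exact ⟨by linarith, by linarith, by linarith, by linarith⟩
      · simp only [cw, hbox] at t0 t1 k0 k1
        exact ⟨by linarith, by linarith, by linarith, by linarith⟩
      · simp only [cw, hbox] at t0 t1 k0 k1
        exact ⟨by linarith, by linarith, by linarith, by linarith⟩
      · exact absurd ⟨by simp [big], by simp [big]⟩ hbig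
      · exact absurd ⟨by simp [big], by simp [big]⟩ hbig
      · exact absurd ⟨by simp [big], by simp [big]⟩ hbig
    obtain ⟨t0, t1, k0, k1⟩ := hh
    simp only [EB, eU] at hE
    simp only [cT, cN, be, al]
    have hF := K1b.f_r_touched_0 (t := t) (k := k) (by first | (refine le_trans ?_ t0; norm_num; done) | linarith only [t0, t1, s0, s1, k0, k1] | linarith) (by first | (refine le_trans t1 ?_; norm_num; done) | linarith only [t0, t1, s0, s1, k0, k1] | linarith) (by first | (refine le_trans ?_ k0; norm_num; done) | linarith only [t0, t1, s0, s1, k0, k1] | linarith) (by first | (refine le_trans k1 ?_; norm_num; done) | linarith only [t0, t1, s0, s1, k0, k1] | linarith)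
    split_ifs with h95
    · exact K1b.core2 (c := 1 / 4) (c' := 1 / 5) (X := 19 / 20) (x := x) (w := w) (t := t) (k := k) (G := G) (s := 9 / 20)
        (β := 21 / 10) (γ := 59 / 25) (a := 1 / 50) (a0 := 0 / 1) (a1 := 0 / 1) (c1 := 1 / 5) (U := 0)
        (by norm_num) (by first | (refine le_trans ?_ hx; norm_num; done) | (refine le_trans ?_ h95; norm_num; done) | linarith) hw hxw hF
        (K1b.R_r_touched_0_1 (w := w) (by first | (refine le_trans ?_ hw; norm_num; done) | (refine le_trans ?_ h; norm_num; done) | linarith)
          (by first | (refine le_trans h ?_; norm_num; done) | linarith only [hxw, h95] | linarith only [hxw, hx] | linarith))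
        (le_trans (le_of_eq (by ring)) hE) (by norm_num) (by norm_num) (by norm_num) (by norm_num)
    · exact K1b.core2 (c := 1 / 4) (c' := 1 / 5) (X := 13 / 20) (x := x) (w := w) (t := t) (k := k) (G := G) (s := 9 / 20)
        (β := 21 / 10) (γ := 59 / 25) (a := -27 / 200) (a0 := 0 / 1) (a1 := 0 / 1) (c1 := 1 / 5) (U := 0)
        (by norm_num) (by first | (refine le_trans ?_ hx; norm_num; done) | (refine le_trans ?_ h95; norm_num; done) | linarith) hw hxw hF
        (K1b.R_r_touched_0_0 (w := w) (by first | (refine le_trans ?_ hw; norm_num; done) | (refine le_trans ?_ h; norm_num; done) | linarith)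
          (by first | (refine le_trans h ?_; norm_num; done) | linarith only [hxw, h95] | linarith only [hxw, hx] | linarith))
        (le_trans (le_of_eq (by ring)) hE) (by norm_num) (by norm_num) (by norm_num) (by norm_num)

end TL

end Pool.Agent.Work.MP_b30479_gtS.G2

end

section

/-!
# Tails, sides of a digit `1`
-/

namespace Pool.Agent.Work.MP_b30479_gtS.G2

open VOL SR

namespace TL

/-- K1.  margins: B = one: C = one .0140, threeA .0117, others >= .024; (x >= .86) .035; B = two
.026; twoE .0239; three .0129 (C = one); threeE .0236; ring .0251; touched >= .10. -/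
theorem side_one {B Cc : Cl} {C : Ct} (hC : C.ok Cc) {x w t k G : ℝ}
    (hx : X0 .one B ≤ x) (hw : 0 ≤ w) (hxw : x + w ≤ 1)
    (t0 : (cw Cc B).t0 ≤ t) (t1 : t ≤ (cw Cc B).t1)
    (s0 : (cw Cc B).s0 ≤ t + k) (s1 : t + k ≤ (cw Cc B).s1)
    (k0 : (cw B Cc).t0 ≤ k) (k1 : k ≤ (cw B Cc).t1)
    (hbig : ¬ (big B ∧ big Cc)) (hB : B = .one → -(2 / 25) ≤ t) (hCo : Cc = .one → -(2 / 25) ≤ k)
    (hE : EB .one C w (-k) G) :
    al .one B Cc x ≤ V1 ⟨cT .one B, t⟩ ⟨cN C, k⟩ - V1 ⟨x, 0⟩ ⟨w, 0⟩ + G + be .one B * t := by
  cases B with
  | one => exact side_one_one hC hx hw hxw t0 t1 s0 s1 k0 k1 hbig (hB rfl) hCo hE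
  | two => exact side_one_two hC hx hw hxw t0 t1 s0 s1 k0 k1 hbig hCo hE
  | twoE => exact side_one_twoE hC hx hw hxw t0 t1 s0 s1 k0 k1 hbig hCo hE
  | three => exact side_one_three hC hx hw hxw t0 t1 s0 s1 k0 k1 hbig hCo hE
  | threeE => exact side_one_threeE hC hx hw hxw t0 t1 s0 s1 k0 k1 hbig hCo hE
  | ring => exact side_one_ring hC hx hw hxw t0 t1 s0 s1 k0 k1 hbig hCo hE

end TL

end Pool.Agent.Work.MP_b30479_gtS.G2

end

section

/-!
# Tails: digit sides next to a ring, new shares
-/

set_option linter.unusedVariables false
set_option linter.unusedSimpArgs false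

set_option deprecated.oldSectionVars true

namespace Pool.Agent.Work.MP_b30479_gtS.G2

open VOL SR NumUs

namespace TL

theorem K5.R_one_0 {w : ℝ} (h0 : 0 ≤ w) (h1 : w ≤ 1 / 20) :
    -(9 / 100) < 0 * uu w 0 + (-11 / 1000) + (0 / 1) * w - (uu (19 / 20 + w) 0 - uu (19 / 20) 0 - uu w 0) - (3 / 200) := by
  rcases le_total w (1 / 100) with g0 | g0
  · have a1 := K5.r5_one_0_0 (w := w) (by linarith only [h0]) (by linarith only [g0])
    have a2 := K1b.anti_l (a := w) (b := 1 / 100) (by linarith only [h0]) (by linarith only [g0]) (by norm_num)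
    linarith only [a1, a2]
  rcases le_total w (1 / 25) with g1 | g1
  · have a1 := K5.r5_one_0_1 (w := w) (by linarith only [g0]) (by linarith only [g1])
    linarith only [a1]
  have a1 := K5.r5_one_0_2 (w := w) (by linarith only [g1]) (by linarith only [h1])
  have a3 := K1b.anti_r (a := 99 / 100) (b := 19 / 20 + w) (by norm_num) (by linarith only [g1]) (by linarith only [h1])
  linarith only [a1, a3]

theorem K5.R_one_1 {w : ℝ} (h0 : 0 ≤ w) (h1 : w ≤ 1 / 20) :
    -(73 / 500) < 1 * uu w 0 + (-163 / 5000) + (779 / 1000) * w - (uu (19 / 20 + w) 0 - uu (19 / 20) 0 - uu w 0) - (3 / 200) := by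
  rcases le_total w (1 / 100) with g0 | g0
  · have a1 := K5.r5_one_1_0 (w := w) (by linarith only [h0]) (by linarith only [g0])
    have a2 := K1b.anti_l (a := w) (b := 1 / 100) (by linarith only [h0]) (by linarith only [g0]) (by norm_num)
    linarith only [a1, a2]
  rcases le_total w (19 / 400) with g1 | g1
  · have a1 := K5.r5_one_1_1 (w := w) (by linarith only [g0]) (by linarith only [g1])
    linarith only [a1]
  have a1 := K5.r5_one_1_2 (w := w) (by linarith only [g1]) (by linarith only [h1])
  have a3 := K1b.anti_r (a := 399 / 400) (b := 19 / 20 + w) (by norm_num) (by linarith only [g1]) (by linarith only [h1])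
  linarith only [a1, a3]

theorem K5.R_two_0 {w : ℝ} (h0 : 0 ≤ w) (h1 : w ≤ 1 / 20) :
    -(61 / 500) < 1 * uu w 0 + (53 / 625) + (-37 / 250) * w - (uu (19 / 20 + w) 0 - uu (19 / 20) 0 - uu w 0) - (3 / 200) := by
  rcases le_total w (1 / 100) with g0 | g0
  · have a1 := K5.r5_two_0_0 (w := w) (by linarith only [h0]) (by linarith only [g0])
    have a2 := K1b.anti_l (a := w) (b := 1 / 100) (by linarith only [h0]) (by linarith only [g0]) (by norm_num)
    linarith only [a1, a2]
  rcases le_total w (1 / 25) with g1 | g1
  · have a1 := K5.r5_two_0_1 (w := w) (by linarith only [g0]) (by linarith only [g1])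
    linarith only [a1]
  have a1 := K5.r5_two_0_2 (w := w) (by linarith only [g1]) (by linarith only [h1])
  have a3 := K1b.anti_r (a := 99 / 100) (b := 19 / 20 + w) (by norm_num) (by linarith only [g1]) (by linarith only [h1])
  linarith only [a1, a3]

theorem K5.R_twoE_0 {w : ℝ} (h0 : 0 ≤ w) (h1 : w ≤ 1 / 20) :
    -(93 / 1000) < 1 * uu w 0 + (309 / 2000) + (0 / 1) * w - (uu (19 / 20 + w) 0 - uu (19 / 20) 0 - uu w 0) - (3 / 200) := by
  rcases le_total w (1 / 100) with g0 | g0
  · have a1 := K5.r5_twoE_0_0 (w := w) (by linarith only [h0]) (by linarith only [g0])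
    have a2 := K1b.anti_l (a := w) (b := 1 / 100) (by linarith only [h0]) (by linarith only [g0]) (by norm_num)
    linarith only [a1, a2]
  rcases le_total w (1 / 25) with g1 | g1
  · have a1 := K5.r5_twoE_0_1 (w := w) (by linarith only [g0]) (by linarith only [g1])
    linarith only [a1]
  have a1 := K5.r5_twoE_0_2 (w := w) (by linarith only [g1]) (by linarith only [h1])
  have a3 := K1b.anti_r (a := 99 / 100) (b := 19 / 20 + w) (by norm_num) (by linarith only [g1]) (by linarith only [h1])
  linarith only [a1, a3]

theorem K5.R_touched_0 {w : ℝ} (h0 : 0 ≤ w) (h1 : w ≤ 1 / 20) :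
    -(111 / 1000) < 0 * uu w 0 + (0 / 1) + (0 / 1) * w - (uu (19 / 20 + w) 0 - uu (19 / 20) 0 - uu w 0) - (3 / 200) := by
  rcases le_total w (1 / 100) with g0 | g0
  · have a1 := K5.r5_touched_0_0 (w := w) (by linarith only [h0]) (by linarith only [g0])
    have a2 := K1b.anti_l (a := w) (b := 1 / 100) (by linarith only [h0]) (by linarith only [g0]) (by norm_num)
    linarith only [a1, a2]
  rcases le_total w (1 / 25) with g1 | g1
  · have a1 := K5.r5_touched_0_1 (w := w) (by linarith only [g0]) (by linarith only [g1])
    linarith only [a1]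
  have a1 := K5.r5_touched_0_2 (w := w) (by linarith only [g1]) (by linarith only [h1])
  have a3 := K1b.anti_r (a := 99 / 100) (b := 19 / 20 + w) (by norm_num) (by linarith only [g1]) (by linarith only [h1])
  linarith only [a1, a3]

/-- `x >= 95/100` -/
theorem side_one_ring_far {Cc : Cl} {C : Ct} (hC : C.ok Cc) {x w t k G : ℝ}
    (hx : 95 / 100 ≤ x) (hw : 0 ≤ w) (hxw : x + w ≤ 1)
    (t0 : (cw Cc .ring).t0 ≤ t) (t1 : t ≤ (cw Cc .ring).t1)
    (s0 : (cw Cc .ring).s0 ≤ t + k) (s1 : t + k ≤ (cw Cc .ring).s1)
    (k0 : (cw .ring Cc).t0 ≤ k) (k1 : k ≤ (cw .ring Cc).t1)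
    (hbig : ¬ big Cc) (hCo : Cc = .one → -(2 / 25) ≤ k) (hE : EB .one C w (-k) G) :
    15 / 1000 ≤ V1 ⟨1 / 4, t⟩ ⟨cN C, k⟩ - V1 ⟨x, 0⟩ ⟨w, 0⟩ + G + 17 / 10 * t := by
  have eU : UU ⟨w, 0⟩ = uu w 0 := rfl
  have hw1 : w ≤ 1 / 20 := by linarith only [hx, hxw]
  cases C
  · obtain rfl : Cc = .one := hC
    simp only [cw, EB, eU] at t0 t1 s0 s1 k0 k1 hE
    simp only [cN]
    have k0 := hCo rfl
    rcases hE.1 (by linarith only [hx, hxw]) with hE | hE
    · have hF := K5.f5_one_0 (t := t) (k := k) (by linarith only [t0]) (by linarith only [t1]) (by linarith only [k0]) (by linarith only [k1]) (by linarith only [s1]) (by linarith only [s0])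
      have hfin := K1b.core (c := 1 / 4) (c' := 9 / 50) (X := 19 / 20) (x := x) (w := w) (t := t) (k := k) (G := G)
        (β := 17 / 10) (γ := 3927 / 1250) (a := 3 / 200) (a0 := -11 / 1000) (a1 := 0 / 1) (c1 := 9 / 100) (U := 0)
        (by norm_num) (by linarith only [hx]) hw hxw
        (by unfold K1b.rF; rw [show (1 / 4 : ℝ) + 9 / 50 = 43 / 100 by norm_num]; linarith only [hF])
        (by have := K5.R_one_0 (w := w) (by linarith only [hw]) (by linarith only [hx, hxw]); linarith only [this])
        (by linarith only [hE])
      linarith only [hfin]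
    · have hF := K5.f5_one_1 (t := t) (k := k) (by linarith only [t0]) (by linarith only [t1]) (by linarith only [k0]) (by linarith only [k1]) (by linarith only [s1]) (by linarith only [s0])
      have hfin := K1b.core (c := 1 / 4) (c' := 9 / 50) (X := 19 / 20) (x := x) (w := w) (t := t) (k := k) (G := G)
        (β := 17 / 10) (γ := 821 / 500) (a := 3 / 200) (a0 := -163 / 5000) (a1 := 779 / 1000) (c1 := 73 / 500) (U := 1)
        (by norm_num) (by linarith only [hx]) hw hxw
        (by unfold K1b.rF; rw [show (1 / 4 : ℝ) + 9 / 50 = 43 / 100 by norm_num]; linarith only [hF])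
        (by have := K5.R_one_1 (w := w) (by linarith only [hw]) (by linarith only [hx, hxw]); linarith only [this])
        (by linarith only [hE])
      linarith only [hfin]
  · obtain rfl : Cc = .two := hC
    simp only [cw, EB, eU] at t0 t1 s0 s1 k0 k1 hE
    simp only [cN]
    have hF := K5.f5_two_0 (t := t) (k := k) (by linarith only [t0]) (by linarith only [t1]) (by linarith only [k0]) (by linarith only [k1]) (by linarith only [s1]) (by linarith only [s0])
    have hfin := K1b.core (c := 1 / 4) (c' := 1 / 4) (X := 19 / 20) (x := x) (w := w) (t := t) (k := k) (G := G)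
      (β := 17 / 10) (γ := 1571 / 1000) (a := 3 / 200) (a0 := 53 / 625) (a1 := -37 / 250) (c1 := 61 / 500) (U := 1)
      (by norm_num) (by linarith only [hx]) hw hxw
      (by unfold K1b.rF; rw [show (1 / 4 : ℝ) + 1 / 4 = 1 / 2 by norm_num]; linarith only [hF])
      (by have := K5.R_two_0 (w := w) (by linarith only [hw]) (by linarith only [hx, hxw]); linarith only [this])
      (by linarith only [hE])
    linarith only [hfin]
  · obtain rfl : Cc = .twoE := hC
    simp only [cw, EB, eU] at t0 t1 s0 s1 k0 k1 hE
    simp only [cN]
    have hF := K5.f5_twoE_0 (t := t) (k := k) (by linarith only [t0]) (by linarith only [t1]) (by linarith only [k0]) (by linarith only [k1]) (by linarith only [s1]) (by linarith only [s0])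
    have hfin := K1b.core (c := 1 / 4) (c' := 11 / 50) (X := 19 / 20) (x := x) (w := w) (t := t) (k := k) (G := G)
      (β := 17 / 10) (γ := 1131 / 500) (a := 3 / 200) (a0 := 309 / 2000) (a1 := 0 / 1) (c1 := 93 / 1000) (U := 1)
      (by norm_num) (by linarith only [hx]) hw hxw
      (by unfold K1b.rF; rw [show (1 / 4 : ℝ) + 11 / 50 = 47 / 100 by norm_num]; linarith only [hF])
      (by have := K5.R_twoE_0 (w := w) (by linarith only [hw]) (by linarith only [hx, hxw]); linarith only [this])
      (by linarith only [hE])
    linarith only [hfin]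
  · exact absurd (by rw [show Cc = .three from hC]; simp [big]) hbig
  · exact absurd (by rw [show Cc = .three from hC]; simp [big]) hbig
  · exact absurd (by rw [show Cc = .threeE from hC]; simp [big]) hbig
  · exact absurd (by rw [show Cc = .ring from hC]; simp [big]) hbig
  · have hh : 19 / 500 ≤ t ∧ t ≤ 79 / 500 ∧ -117 / 1000 ≤ k ∧ k ≤ 2 / 25 := by
      clear hE hx
      cases Cc
      · simp only [cw, hbox] at t0 t1 k0 k1
        exact ⟨by linarith only [t0], by linarith only [t1], by linarith only [k0], by linarith only [k1]⟩
      · simp only [cw, hbox] at t0 t1 k0 k1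
        exact ⟨by linarith only [t0], by linarith only [t1], by linarith only [k0], by linarith only [k1]⟩
      · simp only [cw, hbox] at t0 t1 k0 k1
        exact ⟨by linarith only [t0], by linarith only [t1], by linarith only [k0], by linarith only [k1]⟩
      · exact absurd (by simp [big]) hbig
      · exact absurd (by simp [big]) hbig
      · exact absurd (by simp [big]) hbig
    obtain ⟨t0, t1, k0, k1⟩ := hh
    simp only [EB, eU] at hE
    simp only [cN]
    have hF := K5.f5_touched_0 (t := t) (k := k) (by linarith only [t0]) (by linarith only [t1]) (by linarith only [k0]) (by linarith only [k1])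
    have hfin := K1b.core (c := 1 / 4) (c' := 1 / 5) (X := 19 / 20) (x := x) (w := w) (t := t) (k := k) (G := G)
      (β := 17 / 10) (γ := 59 / 25) (a := 3 / 200) (a0 := 0 / 1) (a1 := 0 / 1) (c1 := 111 / 1000) (U := 0)
      (by norm_num) (by linarith only [hx]) hw hxw
      (by unfold K1b.rF; rw [show (1 / 4 : ℝ) + 1 / 5 = 9 / 20 by norm_num]; linarith only [hF])
      (by have := K5.R_touched_0 (w := w) (by linarith only [hw]) (by linarith only [hx, hxw]); linarith only [this])
      (by linarith only [hE])
    linarith only [hfin]

/-- **K1 next to a ring** -/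
theorem side_one_ring' {Cc : Cl} {C : Ct} (hC : C.ok Cc) {x w t k G : ℝ}
    (hx : 65 / 100 ≤ x) (hw : 0 ≤ w) (hxw : x + w ≤ 1)
    (t0 : (cw Cc .ring).t0 ≤ t) (t1 : t ≤ (cw Cc .ring).t1)
    (s0 : (cw Cc .ring).s0 ≤ t + k) (s1 : t + k ≤ (cw Cc .ring).s1)
    (k0 : (cw .ring Cc).t0 ≤ k) (k1 : k ≤ (cw .ring Cc).t1)
    (hbig : ¬ big Cc) (hCo : Cc = .one → -(2 / 25) ≤ k) (hE : EB .one C w (-k) G) :
    gD .one x t ≤ V1 ⟨1 / 4, t⟩ ⟨cN C, k⟩ - V1 ⟨x, 0⟩ ⟨w, 0⟩ + G := by
  simp only [gD]
  split_ifs with h
  · have := side_one_ring_far hC h hw hxw t0 t1 s0 s1 k0 k1 hbig hCo hE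
    linarith only [this]
  · have h1 := side_one (B := .ring) hC (by simp only [X0]; exact hx) hw hxw t0 t1 s0 s1 k0 k1
      (fun hh => hbig hh.2) (fun hh => absurd hh (by decide)) hCo hE
    have e1 : al .one .ring Cc x = -(135 / 1000) := by
      simp only [al]
      rw [if_neg h]
    have e2 : be .one .ring = 21 / 10 := rfl
    have e3 : cT .one .ring = 1 / 4 := rfl
    rw [e1, e2, e3] at h1
    linarith only [h1]

/-! ### the other classes -/

namespace K5

section
open NumIs (V)

theorem c_20 : -(109 / 1000) < uu (1 / 20) 0 := by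
  have h : chk [.add (.uu (.q 1 20) (.q 0 1)) (.q 109 1000)] 2 [V.of 1 0 0 0] = true := by
    decide +kernel
  have hp := pos_of_chk (chk1 h (by norm_num) (x := 0) (by norm_num) (by norm_num))
  simp only [E.val] at hp
  push_cast at hp
  norm_num at hp
  linarith only [hp]

end

theorem uu_ge {w : ℝ} (h0 : 0 ≤ w) (h1 : w ≤ 1 / 20) : -(109 / 1000) ≤ uu w 0 := by
  have := c_20
  have := uu_real_anti (a := w) (b := 1 / 20) h0 h1 (by norm_num)
  linarith

theorem uu_nn {x : ℝ} (h0 : 95 / 100 ≤ x) (h1 : x ≤ 1) : 0 ≤ uu x 0 := by
  have h := uu_real_anti1 (a := x) (b := 1) (by linarith only [h0]) h1 le_rfl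
  rw [UA.uu_one, abs_zero, mul_zero] at h
  exact h

theorem lin_ge {n a0 a1 c : ℤ} {w : ℝ} (h0 : 0 ≤ w) (h1 : w ≤ 1 / 20) (hc : c ≤ n + a0)
    (hc1 : 2 * c ≤ 2 * (n + a0) + a1) : (c : ℝ) / 10000 ≤ (n : ℝ) / 10000 +
      ((a0 : ℝ) / 10000 + (a1 : ℝ) / 1000 * w) := by
  have hc' : (c : ℝ) ≤ n + a0 := by exact_mod_cast hc
  have hc1' : 2 * (c : ℝ) ≤ 2 * (n + a0) + a1 := by exact_mod_cast hc1
  have e1 : 0 ≤ (1 - 20 * w) * ((n : ℝ) + a0 - c) := mul_nonneg (by linarith only [h1]) (by linarith only [hc'])
  have e2 : 0 ≤ w * (2 * ((n : ℝ) + a0) + a1 - 2 * c) := mul_nonneg h0 (by linarith only [hc1'])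
  linarith only [e1, e2]

open NumIs (V) in
/-- two crossings -/
theorem two_far {c' ck a0 a1 e n0 k0 k1 : ℤ}
    (hn : chk [nE 25 c' 170 ck n0] 30 [V.of 10000 (-850) 960 0, V.of 10000 k0 k1 0] = true)
    (he : 1 ≤ e) (hc : 500 + 1090 * (e - 1) ≤ n0 + a0)
    (hc1 : 2 * (500 + 1090 * (e - 1)) ≤ 2 * (n0 + a0) + a1)
    {x w t k G C' : ℝ} (hC' : C' = (c' : ℝ) / 100)
    (h0 : 95 / 100 ≤ x) (hw : 0 ≤ w) (hxw : x + w ≤ 1)
    (ht0 : -(850 / 10000) ≤ t) (ht1 : t ≤ 960 / 10000) (hk0 : (k0 : ℝ) / 10000 ≤ k)
    (hk1 : k ≤ (k1 : ℝ) / 10000)
    (hG : ((e : ℝ) - 2) * UU ⟨w, 0⟩ + ((a0 : ℝ) / 10000 + (a1 : ℝ) / 1000 * w) +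
      (ck : ℝ) / 10000 * k ≤ G) :
    5 / 100 - 17 / 10 * t ≤ V2 ⟨1 / 4, t⟩ ⟨C', k⟩ - V2 ⟨x, 0⟩ ⟨w, 0⟩ + G := by
  have h1 := new_sound hn (t := t) (k := k) (by push_cast; linarith only [ht0]) (by push_cast; linarith only [ht1])
    hk0 hk1
  push_cast at h1
  rw [← hC', show (25 : ℝ) / 100 = 1 / 4 by norm_num] at h1
  rw [UU_uu] at hG
  simp only at hG
  have h2 := V2_old_right (x := x) (w := w) (by linarith only [h0]) hw hxw
  have h3 := uu_ge hw (by linarith only [h0, hxw])
  have h4 := lin_ge (w := w) hw (by linarith only [h0, hxw]) hc hc1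
  have he' : (1 : ℝ) ≤ e := by exact_mod_cast he
  have h5 := mul_le_mul_of_nonneg_left h3 (show 0 ≤ (e : ℝ) - 1 by linarith only [he'])
  push_cast at h4
  rw [V2_real]
  linarith only [hG, h1, h2, h5, h4]

open NumIs (V) in
/-- three crossings, slot `0` in the tail -/
theorem three_far0 {c' ck a0 a1 e n0 k0 k1 : ℤ} {c : ℕ}
    (hn : chkT [K3.nE3 25 42 c' 17000 ck n0] 34 c
      [V.of 10000 (-980) 570, V.of 10000 (-1230) 50, V.of 10000 k0 k1] = true)
    (he : 0 ≤ e) (hc : 1590 + 1090 * e ≤ n0 + a0)
    (hc1 : 2 * (1590 + 1090 * e) ≤ 2 * (n0 + a0) + a1)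
    {x l w t m k G C' : ℝ} (hC' : C' = (c' : ℝ) / 100)
    (hx : 95 / 100 ≤ x) (hxl : x ≤ l) (hw : 0 ≤ w) (hlw : l + w ≤ 1)
    (ht0 : -(98 / 1000) ≤ t) (ht1 : t ≤ 57 / 1000)
    (hm0 : -(123 / 1000) ≤ m) (hm1 : m ≤ 5 / 1000) (hk0 : (k0 : ℝ) / 10000 ≤ k)
    (hk1 : k ≤ (k1 : ℝ) / 10000)
    (hG : ((e : ℝ) - 2) * UU ⟨w, 0⟩ + ((a0 : ℝ) / 10000 + (a1 : ℝ) / 1000 * w) +
      (ck : ℝ) / 10000 * k ≤ G) :
    5 / 100 - 17 / 10 * t ≤ V3 ⟨1 / 4, t⟩ ⟨42 / 100, m⟩ ⟨C', k⟩ - V3 ⟨x, 0⟩ ⟨l, 0⟩ ⟨w, 0⟩ + G := by
  have h1 := K3.new3 hn (t := t) (m := m) (k := k) (by push_cast; linarith only [ht0])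
    (by push_cast; linarith only [ht1]) (by push_cast; linarith only [hm0]) (by push_cast; linarith only [hm1]) hk0 hk1
  push_cast at h1
  rw [← hC', show (25 : ℝ) / 100 = 1 / 4 by norm_num] at h1
  rw [UU_uu] at hG
  simp only at hG
  have g1 := uu_real_anti1 (a := l) (b := l + w) (by linarith only [hx, hxl]) (by linarith only [hw]) hlw
  have g2 := uu_ge (w := l - x) (by linarith only [hxl]) (by linarith only [hx, hw, hlw])
  have g3 := uu_nn (x := x) hx (by linarith only [hxl, hw, hlw])
  have h3 := uu_ge hw (by linarith only [hx, hxl, hlw])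
  have h4 := lin_ge (w := w) hw (by linarith only [hx, hxl, hlw]) hc hc1
  have he' : (0 : ℝ) ≤ e := by exact_mod_cast he
  have h5 := mul_le_mul_of_nonneg_left h3 he'
  push_cast at h4
  rw [K3.V3_real]
  linarith only [hG, h1, g1, g2, g3, h5, h4]

open NumIs (V) in
/-- three crossings, slot `2` in the tail -/
theorem three_far2 {c' ck a0 a1 e n0 k0 k1 : ℤ} {c : ℕ}
    (hn : chkT [K3.nE3 c' 42 25 ck 17000 n0] 34 c
      [V.of 10000 k0 k1, V.of 10000 (-1230) 50, V.of 10000 (-980) 570] = true)
    (he : 0 ≤ e) (hc : 2680 + 1090 * e ≤ n0 + a0)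
    (hc1 : 2 * (2680 + 1090 * e) ≤ 2 * (n0 + a0) + a1)
    {x l u t m k G C' : ℝ} (hC' : C' = (c' : ℝ) / 100)
    (hx : 95 / 100 ≤ x) (hu : 0 ≤ u) (hul : u ≤ l) (hlx : l + x ≤ 1)
    (ht0 : -(98 / 1000) ≤ t) (ht1 : t ≤ 57 / 1000)
    (hm0 : -(123 / 1000) ≤ m) (hm1 : m ≤ 5 / 1000) (hk0 : (k0 : ℝ) / 10000 ≤ k)
    (hk1 : k ≤ (k1 : ℝ) / 10000)
    (hG : ((e : ℝ) - 1) * UU ⟨u, 0⟩ + ((a0 : ℝ) / 10000 + (a1 : ℝ) / 1000 * u) +
      (ck : ℝ) / 10000 * k ≤ G) :
    5 / 100 - 17 / 10 * t ≤ V3 ⟨C', k⟩ ⟨42 / 100, m⟩ ⟨1 / 4, t⟩ - V3 ⟨u, 0⟩ ⟨l, 0⟩ ⟨x, 0⟩ + G := by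
  have h1 := K3.new3 hn (t := k) (m := m) (k := t) hk0 hk1 (by push_cast; linarith only [hm0])
    (by push_cast; linarith only [hm1]) (by push_cast; linarith only [ht0]) (by push_cast; linarith only [ht1])
  push_cast at h1
  rw [← hC', show (25 : ℝ) / 100 = 1 / 4 by norm_num] at h1
  rw [UU_uu] at hG
  simp only at hG
  have g1 := uu_real_anti1 (a := x) (b := l + x) (by linarith only [hx]) (by linarith only [hu, hul]) hlx
  have g2 := uu_ge (w := l - u) (by linarith only [hul]) (by linarith only [hx, hu, hlx])
  have g3 := uu_nn (x := x) hx (by linarith only [hu, hul, hlx])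
  have g4 := uu_ge (w := l) (by linarith only [hu, hul]) (by linarith only [hx, hlx])
  have h3 := uu_ge hu (by linarith only [hx, hul, hlx])
  have h4 := lin_ge (w := u) hu (by linarith only [hx, hul, hlx]) hc hc1
  have he' : (0 : ℝ) ≤ e := by exact_mod_cast he
  have h5 := mul_le_mul_of_nonneg_left h3 he'
  push_cast at h4
  rw [K3.V3_real]
  linarith only [hG, h1, g1, g2, g3, g4, h5, h4]

end K5

theorem side_two_ring' {Cc : Cl} {C : Ct} (hC : C.ok Cc) {x w t k G : ℝ}
    (hx : 60 / 100 ≤ x) (hw : 0 ≤ w) (hxw : x + w ≤ 1)
    (t0 : (hbox .two .ring false).t0 ≤ t) (t1 : t ≤ (hbox .two .ring false).t1)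
    (k0 : (hbox .two Cc false).t0 ≤ k) (k1 : k ≤ (hbox .two Cc false).t1)
    (hE : EB .two C w (-k) G) :
    gD .two x t ≤ V2 ⟨1 / 4, t⟩ ⟨cN C, k⟩ - V2 ⟨x, 0⟩ ⟨w, 0⟩ + G := by
  simp only [gD]
  split_ifs with h
  swap
  · have h1 := side_two (B := .ring) hC (by simp only [X0]; exact hx) hw hxw t0 t1 k0 k1 hE
    have e1 : al .two .ring Cc x = 1 / 100 := rfl
    have e2 : be .two .ring = 17 / 10 := rfl
    have e3 : cT .two .ring = 1 / 4 := rfl
    rw [e1, e2, e3] at h1
    linarith only [h1]
  simp only [hbox] at t0 t1
  have hw1 : w ≤ 1 / 20 := by linarith only [hxw, h]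
  cases C with
  | one =>
    have hC : Cc = .one := hC
    subst hC
    simp only [hbox] at k0 k1
    simp only [EB] at hE
    simp only [cN]
    rcases hE.1 (by linarith only [hxw, h]) with hE | hE
    · exact K5.two_far (e := 2) (a0 := -300) (a1 := 0)
        k2n_one_a1_1 (by norm_num) (by norm_num) (by norm_num) (by norm_num) h hw hxw
        (by linarith only [t0]) (by linarith only [t1]) (by norm_num; linarith only [k0]) (by norm_num; linarith only [k1])
        (by norm_num; linarith only [hE])
    · exact K5.two_far (e := 3) (a0 := -2039) (a1 := 1306)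
        k2n_one_a2_1 (by norm_num) (by norm_num) (by norm_num) (by norm_num) h hw hxw
        (by linarith only [t0]) (by linarith only [t1]) (by norm_num; linarith only [k0]) (by norm_num; linarith only [k1])
        (by norm_num; linarith only [hE])
  | two =>
    have hC : Cc = .two := hC
    subst hC
    simp only [hbox] at k0 k1
    simp only [EB] at hE
    simp only [cN]
    exact K5.two_far (e := 3) (a0 := 848) (a1 := -148)
      k2n_two_1 (by norm_num) (by norm_num) (by norm_num) (by norm_num) h hw hxw
      (by linarith only [t0]) (by linarith only [t1]) (by norm_num; linarith only [k0]) (by norm_num; linarith only [k1])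
      (by norm_num; linarith only [hE])
  | twoE =>
    have hC : Cc = .twoE := hC
    subst hC
    simp only [hbox] at k0 k1
    simp only [EB] at hE
    simp only [cN]
    exact K5.two_far (e := 3) (a0 := 1545) (a1 := 0)
      k2n_twoE_1 (by norm_num) (by norm_num) (by norm_num) (by norm_num) h hw hxw
      (by linarith only [t0]) (by linarith only [t1]) (by norm_num; linarith only [k0]) (by norm_num; linarith only [k1])
      (by norm_num; linarith only [hE])
  | threeA =>
    have hC : Cc = .three := hC
    subst hC
    simp only [hbox] at k0 k1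
    simp only [EB] at hE
    simp only [cN]
    have hE := hE.1 (by linarith only [hxw, h])
    exact K5.two_far (e := 3) (a0 := 992) (a1 := -227)
      k2n_threeA_a_1 (by norm_num) (by norm_num) (by norm_num) (by norm_num) h hw hxw
      (by linarith only [t0]) (by linarith only [t1]) (by norm_num; linarith only [k0]) (by norm_num; linarith only [k1])
      (by norm_num; linarith only [hE])
  | threeK =>
    have hC : Cc = .three := hC
    subst hC
    simp only [hbox] at k0 k1
    simp only [EB] at hE
    simp only [cN]
    exact K5.two_far (e := 3) (a0 := 112) (a1 := 97)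
      k2n_threeK_1 (by norm_num) (by norm_num) (by norm_num) (by norm_num) h hw hxw
      (by linarith only [t0]) (by linarith only [t1]) (by norm_num; linarith only [k0]) (by norm_num; linarith only [k1])
      (by norm_num; linarith only [hE])
  | threeE =>
    have hC : Cc = .threeE := hC
    subst hC
    simp only [hbox] at k0 k1
    simp only [EB] at hE
    simp only [cN]
    exact K5.two_far (e := 3) (a0 := 1345) (a1 := 0)
      k2n_threeE_1 (by norm_num) (by norm_num) (by norm_num) (by norm_num) h hw hxw
      (by linarith only [t0]) (by linarith only [t1]) (by norm_num; linarith only [k0]) (by norm_num; linarith only [k1])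
      (by norm_num; linarith only [hE])
  | ring =>
    have hC : Cc = .ring := hC
    subst hC
    simp only [hbox] at k0 k1
    simp only [EB] at hE
    simp only [cN]
    have hE := hE.1 (by linarith only [hxw, h])
    exact K5.two_far (e := 3) (a0 := -536) (a1 := 543)
      k2n_ring_a_1 (by norm_num) (by norm_num) (by norm_num) (by norm_num) h hw hxw
      (by linarith only [t0]) (by linarith only [t1]) (by norm_num; linarith only [k0]) (by norm_num; linarith only [k1])
      (by norm_num; linarith only [hE])
  | touched =>
    obtain ⟨b0, b1⟩ := k2_box (B := Cc)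
    simp only [EB] at hE
    simp only [cN]
    exact K5.two_far (e := 2) (a0 := 0) (a1 := 0)
      k2n_touched_1 (by norm_num) (by norm_num) (by norm_num) (by norm_num) h hw hxw
      (by linarith only [t0]) (by linarith only [t1]) (by norm_num; linarith only [k0, b0]) (by norm_num; linarith only [k1, b1])
      (by norm_num; linarith only [hE])

theorem side_twoE_ring' {x t : ℝ} (hx : 60 / 100 ≤ x) (hx1 : x ≤ 1)
    (t0 : (hbox .twoE .ring false).t0 ≤ t) (t1 : t ≤ (hbox .twoE .ring false).t1) :
    gD .twoE x t ≤ V2 ⟨1 / 4, t⟩ 0 - V2 ⟨x, 0⟩ 0 := by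
  have h1 := side_twoE (B := .ring) (Cc := .one) (by simp only [X0]; exact hx) hx1 t0 t1
  have e1 : al .twoE .ring .one x = 5 / 100 := rfl
  have e2 : be .twoE .ring = 17 / 10 := rfl
  have e3 : cT .twoE .ring = 1 / 4 := rfl
  rw [e1, e2, e3] at h1
  simp only [gD]
  linarith only [h1]

theorem side_three0_ring' {Cc : Cl} {C : Ct} (hC : C.ok Cc) (hC2 : C ≠ .threeK)
    {x l w t m k G : ℝ}
    (hx : 60 / 100 ≤ x) (hxl : x ≤ l) (hw : 0 ≤ w) (hlw : l + w ≤ 1)
    (t0 : (hbox .three .ring false).t0 ≤ t) (t1 : t ≤ (hbox .three .ring false).t1)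
    (k0 : (hbox .three Cc false).t0 ≤ k) (k1 : k ≤ (hbox .three Cc false).t1)
    (m0 : (mw .ring Cc).t0 ≤ m) (m1 : m ≤ (mw .ring Cc).t1)
    (s0 : (mw .ring Cc).s0 ≤ m - t) (s1 : m - t ≤ (mw .ring Cc).s1)
    (hE : EB .three C w (-k) G) :
    gD .three x t ≤ V3 ⟨1 / 4, t⟩ ⟨42 / 100, m⟩ ⟨cN C, k⟩ - V3 ⟨x, 0⟩ ⟨l, 0⟩ ⟨w, 0⟩ + G := by
  simp only [gD]
  split_ifs with h
  swap
  · have h1 := side_three0 (B := .ring) hC hC2 (by simp only [X0]; exact hx) hxl hw hlw t0 t1 k0 k1
      m0 m1 s0 s1 hE
    have e1 : al .three .ring Cc x = 2 / 100 := rfl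
    have e2 : be .three .ring = 17 / 10 := rfl
    have e3 : cT .three .ring = 1 / 4 := rfl
    rw [e1, e2, e3] at h1
    linarith only [h1]
  simp only [hbox] at t0 t1
  have hw1 : w ≤ 1 / 20 := by linarith only [hxl, hlw, h]
  have M0 := K3.lo_mw.1.trans m0
  have M1 := m1.trans K3.lo_mw.2
  clear m0 m1 s0 s1
  cases C with
  | one =>
    have hC : Cc = .one := hC
    subst hC
    simp only [hbox] at k0 k1
    simp only [EB] at hE
    simp only [cN]
    rcases hE.1 (by linarith only [hxl, hlw, h]) with ⟨hτ, hE⟩ | hE
    · exact K5.three_far0 (e := 2) (a0 := -90) (a1 := 0)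
        K3.n_one_a1_0 (by norm_num) (by norm_num) (by norm_num) (by norm_num) h hxl hw hlw
        (by linarith only [t0]) (by linarith only [t1]) M0 M1 (by norm_num; linarith only [hτ]) (by norm_num; linarith only [k1])
        (by norm_num; linarith only [hE])
    · exact K5.three_far0 (e := 3) (a0 := -247) (a1 := 293)
        K3.n_one_a2_0 (by norm_num) (by norm_num) (by norm_num) (by norm_num) h hxl hw hlw
        (by linarith only [t0]) (by linarith only [t1]) M0 M1 (by norm_num; linarith only [k0]) (by norm_num; linarith only [k1])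
        (by norm_num; linarith only [hE])
  | two =>
    have hC : Cc = .two := hC
    subst hC
    simp only [hbox] at k0 k1
    simp only [EB] at hE
    simp only [cN]
    exact K5.three_far0 (e := 3) (a0 := 848) (a1 := -148)
      K3.n_two_0 (by norm_num) (by norm_num) (by norm_num) (by norm_num) h hxl hw hlw
      (by linarith only [t0]) (by linarith only [t1]) M0 M1 (by norm_num; linarith only [k0]) (by norm_num; linarith only [k1])
      (by norm_num; linarith only [hE])
  | twoE =>
    have hC : Cc = .twoE := hC
    subst hC
    simp only [hbox] at k0 k1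
    simp only [EB] at hE
    simp only [cN]
    exact K5.three_far0 (e := 3) (a0 := 1545) (a1 := 0)
      K3.n_twoE_0 (by norm_num) (by norm_num) (by norm_num) (by norm_num) h hxl hw hlw
      (by linarith only [t0]) (by linarith only [t1]) M0 M1 (by norm_num; linarith only [k0]) (by norm_num; linarith only [k1])
      (by norm_num; linarith only [hE])
  | threeA =>
    have hC : Cc = .three := hC
    subst hC
    simp only [hbox] at k0 k1
    simp only [EB] at hE
    simp only [cN]
    have hE := hE.1 (by linarith only [hxl, hlw, h])
    exact K5.three_far0 (e := 3) (a0 := 992) (a1 := -227)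
      K3.n_threeA_a_0 (by norm_num) (by norm_num) (by norm_num) (by norm_num) h hxl hw hlw
      (by linarith only [t0]) (by linarith only [t1]) M0 M1 (by norm_num; linarith only [k0]) (by norm_num; linarith only [k1])
      (by norm_num; linarith only [hE])
  | threeK => exact absurd rfl hC2
  | threeE =>
    have hC : Cc = .threeE := hC
    subst hC
    simp only [hbox] at k0 k1
    simp only [EB] at hE
    simp only [cN]
    exact K5.three_far0 (e := 3) (a0 := 1345) (a1 := 0)
      K3.n_threeE_0 (by norm_num) (by norm_num) (by norm_num) (by norm_num) h hxl hw hlw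
      (by linarith only [t0]) (by linarith only [t1]) M0 M1 (by norm_num; linarith only [k0]) (by norm_num; linarith only [k1])
      (by norm_num; linarith only [hE])
  | ring =>
    have hC : Cc = .ring := hC
    subst hC
    simp only [hbox] at k0 k1
    simp only [EB] at hE
    simp only [cN]
    have hE := hE.1 (by linarith only [hxl, hlw, h])
    exact K5.three_far0 (e := 3) (a0 := -536) (a1 := 543)
      K3.n_ring_a_0 (by norm_num) (by norm_num) (by norm_num) (by norm_num) h hxl hw hlw
      (by linarith only [t0]) (by linarith only [t1]) M0 M1 (by norm_num; linarith only [k0]) (by norm_num; linarith only [k1])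
      (by norm_num; linarith only [hE])
  | touched =>
    obtain ⟨b0, b1⟩ := K3.all_box (B := Cc)
    simp only [EB] at hE
    simp only [cN]
    exact K5.three_far0 (e := 2) (a0 := 0) (a1 := 0)
      K3.n_touched_0 (by norm_num) (by norm_num) (by norm_num) (by norm_num) h hxl hw hlw
      (by linarith only [t0]) (by linarith only [t1]) M0 M1 (by norm_num; linarith only [k0, b0]) (by norm_num; linarith only [k1, b1])
      (by norm_num; linarith only [hE])

theorem side_three2_ring' {Cc : Cl} {C : Ct} (hC : C.ok Cc) (hC2 : C ≠ .threeA)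
    {x l u t m k G : ℝ}
    (hx : 60 / 100 ≤ x) (hu : 0 ≤ u) (hul : u ≤ l) (hlx : l + x ≤ 1)
    (t0 : (hbox .three .ring false).t0 ≤ t) (t1 : t ≤ (hbox .three .ring false).t1)
    (k0 : (hbox .three Cc false).t0 ≤ k) (k1 : k ≤ (hbox .three Cc false).t1)
    (m0 : (mw Cc .ring).t0 ≤ m) (m1 : m ≤ (mw Cc .ring).t1)
    (s0 : (mw Cc .ring).s0 ≤ m - k) (s1 : m - k ≤ (mw Cc .ring).s1)
    (hE : EB .three C u (-k) G) :
    gD .three x t ≤ V3 ⟨cN C, k⟩ ⟨42 / 100, m⟩ ⟨1 / 4, t⟩ - V3 ⟨u, 0⟩ ⟨l, 0⟩ ⟨x, 0⟩ + G := by
  simp only [gD]
  split_ifs with h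
  swap
  · have h1 := side_three2 (B := .ring) hC hC2 (by simp only [X0]; exact hx) hu hul hlx t0 t1 k0 k1
      m0 m1 s0 s1 hE
    have e1 : al .three .ring Cc x = 2 / 100 := rfl
    have e2 : be .three .ring = 17 / 10 := rfl
    have e3 : cT .three .ring = 1 / 4 := rfl
    rw [e1, e2, e3] at h1
    linarith only [h1]
  simp only [hbox] at t0 t1
  have hw1 : u ≤ 1 / 20 := by linarith only [hul, hlx, h]
  have M0 := K3.lo_mw.1.trans m0
  have M1 := m1.trans K3.lo_mw.2
  clear m0 m1 s0 s1
  cases C with
  | one =>
    have hC : Cc = .one := hC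
    subst hC
    simp only [hbox] at k0 k1
    simp only [EB] at hE
    simp only [cN]
    rcases hE.1 (by linarith only [hul, hlx, h]) with ⟨hτ, hE⟩ | hE
    · exact K5.three_far2 (e := 1) (a0 := -90) (a1 := 0)
        K3.n_one_a1_2 (by norm_num) (by norm_num) (by norm_num) (by norm_num) h hu hul hlx
        (by linarith only [t0]) (by linarith only [t1]) M0 M1 (by norm_num; linarith only [hτ]) (by norm_num; linarith only [k1])
        (by norm_num; linarith only [hE])
    · exact K5.three_far2 (e := 2) (a0 := -247) (a1 := 293)
        K3.n_one_a2_2 (by norm_num) (by norm_num) (by norm_num) (by norm_num) h hu hul hlx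
        (by linarith only [t0]) (by linarith only [t1]) M0 M1 (by norm_num; linarith only [k0]) (by norm_num; linarith only [k1])
        (by norm_num; linarith only [hE])
  | two =>
    have hC : Cc = .two := hC
    subst hC
    simp only [hbox] at k0 k1
    simp only [EB] at hE
    simp only [cN]
    exact K5.three_far2 (e := 2) (a0 := 848) (a1 := -148)
      K3.n_two_2 (by norm_num) (by norm_num) (by norm_num) (by norm_num) h hu hul hlx
      (by linarith only [t0]) (by linarith only [t1]) M0 M1 (by norm_num; linarith only [k0]) (by norm_num; linarith only [k1])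
      (by norm_num; linarith only [hE])
  | twoE =>
    have hC : Cc = .twoE := hC
    subst hC
    simp only [hbox] at k0 k1
    simp only [EB] at hE
    simp only [cN]
    exact K5.three_far2 (e := 2) (a0 := 1545) (a1 := 0)
      K3.n_twoE_2 (by norm_num) (by norm_num) (by norm_num) (by norm_num) h hu hul hlx
      (by linarith only [t0]) (by linarith only [t1]) M0 M1 (by norm_num; linarith only [k0]) (by norm_num; linarith only [k1])
      (by norm_num; linarith only [hE])
  | threeA => exact absurd rfl hC2
  | threeK =>
    have hC : Cc = .three := hC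
    subst hC
    simp only [hbox] at k0 k1
    simp only [EB] at hE
    simp only [cN]
    exact K5.three_far2 (e := 2) (a0 := 112) (a1 := 97)
      K3.n_threeK_2 (by norm_num) (by norm_num) (by norm_num) (by norm_num) h hu hul hlx
      (by linarith only [t0]) (by linarith only [t1]) M0 M1 (by norm_num; linarith only [k0]) (by norm_num; linarith only [k1])
      (by norm_num; linarith only [hE])
  | threeE =>
    have hC : Cc = .threeE := hC
    subst hC
    simp only [hbox] at k0 k1
    simp only [EB] at hE
    simp only [cN]
    exact K5.three_far2 (e := 2) (a0 := 1345) (a1 := 0)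
      K3.n_threeE_2 (by norm_num) (by norm_num) (by norm_num) (by norm_num) h hu hul hlx
      (by linarith only [t0]) (by linarith only [t1]) M0 M1 (by norm_num; linarith only [k0]) (by norm_num; linarith only [k1])
      (by norm_num; linarith only [hE])
  | ring =>
    have hC : Cc = .ring := hC
    subst hC
    simp only [hbox] at k0 k1
    simp only [EB] at hE
    simp only [cN]
    have hE := hE.1 (by linarith only [hul, hlx, h])
    exact K5.three_far2 (e := 2) (a0 := -536) (a1 := 543)
      K3.n_ring_a_2 (by norm_num) (by norm_num) (by norm_num) (by norm_num) h hu hul hlx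
      (by linarith only [t0]) (by linarith only [t1]) M0 M1 (by norm_num; linarith only [k0]) (by norm_num; linarith only [k1])
      (by norm_num; linarith only [hE])
  | touched =>
    obtain ⟨b0, b1⟩ := K3.all_box (B := Cc)
    simp only [EB] at hE
    simp only [cN]
    exact K5.three_far2 (e := 1) (a0 := 0) (a1 := 0)
      K3.n_touched_2 (by norm_num) (by norm_num) (by norm_num) (by norm_num) h hu hul hlx
      (by linarith only [t0]) (by linarith only [t1]) M0 M1 (by norm_num; linarith only [k0, b0]) (by norm_num; linarith only [k1, b1])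
      (by norm_num; linarith only [hE])

theorem side_threeE_ring' {x l t m : ℝ} (hx : 60 / 100 ≤ x) (hxl : x ≤ l) (hl1 : l ≤ 1)
    (t0 : (hbox .threeE .ring false).t0 ≤ t) (t1 : t ≤ (hbox .threeE .ring false).t1)
    (m0 : -(45 / 1000) ≤ m) (m1 : m ≤ 59 / 1000) :
    gD .threeE x t ≤ V3 ⟨1 / 4, t⟩ ⟨1 / 4 + 1 / 6, m⟩ 0 - V3 ⟨x, 0⟩ ⟨l, 0⟩ 0 := by
  have h1 := side_threeE (B := .ring) (Cc := .one) (by simp only [X0]; exact hx) hxl hl1 t0 t1 m0 m1
  have e1 : al .threeE .ring .one x = 15 / 100 := rfl
  have e2 : be .threeE .ring = 17 / 10 := rfl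
  have e3 : cT .threeE .ring = 1 / 4 := rfl
  rw [e1, e2, e3] at h1
  simp only [gD]
  linarith only [h1]

end TL

end Pool.Agent.Work.MP_b30479_gtS.G2

end

section

/-!
# Tails: the shares of a touched digit one
-/

namespace Pool.Agent.Work.MP_b30479_gtS.G2

open Finset VOL Filter Topology SR

namespace TL

variable {M : ℕ} {b : Fin (M + 1) → ℤ} {zs z : DD (tyW b) ⊕ ZZ (tyW b) → ℂ}
variable {R : Finset (DD (tyW b))} {h h' : Fin M} {i j j' k : Fin (M + 1)} {p q : Fin 3}

theorem Tl.share_one (H : Tl b zs R z) (G : Gains b zs R z) (hi : Tch b R i)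
    (hc : clsW b i = .one) (c : ZZ (tyW b) → ℝ) :
    sh b R zs z i 0 + sh b R zs z i 2 ≤ Vr b (zN b R zs z c) i - Vr b z i := by
  obtain ⟨h, h', p, j, j', A, A', ht, ht', hw⟩ := H.tch_one hi (Or.inl hc)
  have hr : clsW b i ≠ .ring := by rw [hc]; decide
  have hn : nbH b R h := isT_nb ht
  have hn' : nbH b R h' := (nbH_iff A').2 (Or.inl hi)
  have hhT : hT b R i := ⟨h, p, j, A, ht⟩
  obtain ⟨g, eg, hG⟩ := sh_nb H G A' hi ht' fun hh => hr hh.1
  have htg := tgt_cN A' hhT ht' hr (z (.inl (.inl h'))).re
  rw [htg, hc] at hG
  obtain ⟨-, x0, x1⟩ := H.tail ht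
  obtain ⟨-, w0, w1⟩ := H.re_mem hn'
  have A2 : Adj h i p.rev.rev j := by rw [Fin.rev_rev]; exact A
  obtain ⟨t0, t1, s0, s1⟩ := H.win A A' hc
  obtain ⟨k0, k1, -, -⟩ := H.win A' A2 hc
  have hX := X0_le (b := b) A
  rw [hc] at hX
  have hk : Th b zs h' j' = -Th b zs h' i := Th_opp H.hb A' (Or.inl hr)
  have hx6 : (6 : ℝ) / 10 ≤ wXM b h := wXM_ge A hr
  rw [hk] at hG
  have hE := EB_of_Gn (Or.inl rfl) w0 (by linarith) hG
  have hok : (kb b R j' p.rev.rev).ok (clsW b j') := kb_ok b R j' _
  have hbig : ¬ (big (clsW b j) ∧ big (clsW b j')) := H.not_big A A' hc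
  rw [sh_sum A, sh_T A ht, eg, A.Vr_one A' H.hb hc, A.Vr_one A' H.hb hc, Oh_new hn, Oh_new hn',
    H.Oh_nb hn, H.Oh_nb hn', tgt_T A ht, htg, hc, A'.oc_eq b]
  have hB : clsW b j = .one → -(2 / 25) ≤ Th b zs h i := fun hj => one_one_ge H A hc hj
  have hCo : clsW b j' = .one → -(2 / 25) ≤ Th b zs h' i := fun hj => one_one_ge H A' hc hj
  unfold shT
  rw [if_neg hr]
  rcases ee_or (z := z) A' hi with he | ⟨he, -, hj1, hkb, -, hw5⟩
  · rw [he, add_zero]
    by_cases hj : clsW b j = .ring
    · rw [if_pos hj, hc]
      rw [hj] at hbig t0 t1 s0 s1 k0 k1 hX ⊢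
      have hbig' : ¬ big (clsW b j') := fun hh => hbig ⟨Or.inr (Or.inr rfl), hh⟩
      by_cases hx : 95 / 100 ≤ (z (.inl (.inl h))).re
      · have h1 := side_one_ring' hok (x := (z (.inl (.inl h))).re) (by linarith) w0 hw t0 t1 s0 s1
          k0 k1 hbig' hCo hE
        have h2 : cT .one .ring = 1 / 4 := rfl
        rw [h2]
        linarith
      · have h1 := side_one (B := .ring) hok (x := (z (.inl (.inl h))).re) (by linarith) w0 hw t0 t1
          s0 s1 k0 k1 hbig (fun hh => absurd hh (by decide)) hCo hE
        have h2 : gD .one (z (.inl (.inl h))).re (Th b zs h i) =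
            al .one .ring (clsW b j') (z (.inl (.inl h))).re - be .one .ring * Th b zs h i := by
          simp only [gD, al, be]
          rw [if_neg hx, if_neg hx]
        rw [h2]
        linarith
    · rw [if_neg hj, hc]
      have h1 := side_one hok (x := (z (.inl (.inl h))).re) (by linarith) w0 hw t0 t1
          s0 s1 k0 k1 hbig hB hCo hE
      linarith
  · rw [he, hkb]
    rw [hkb] at hE
    have hCo1 := hCo hj1
    rw [hj1] at t0 t1 s0 s1 k0 k1 ⊢
    have hcN : cN .one = 9 / 50 := rfl
    rw [hcN]
    by_cases hj : clsW b j = .ring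
    · rw [if_pos hj, hc]
      rw [hj] at t0 t1 s0 s1 k0 k1 hX ⊢
      by_cases hx : 95 / 100 ≤ (z (.inl (.inl h))).re
      · have h1 := side_one_ring5 (x := (z (.inl (.inl h))).re) (by linarith) w0 hw5 hw t0 t1 s0 s1
          k0 k1 hCo1 hE
        have h2 : cT .one .ring = 1 / 4 := rfl
        rw [h2]
        linarith
      · have h1 := side_one5 (B := .ring) (x := (z (.inl (.inl h))).re) (by linarith)
          (fun _ => not_le.1 hx) w0 hw5 hw t0 t1
          s0 s1 k0 k1 (fun hh => absurd hh (by decide)) hCo1 hE
        have h2 : gD .one (z (.inl (.inl h))).re (Th b zs h i) =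
            al .one .ring .one (z (.inl (.inl h))).re - be .one .ring * Th b zs h i := by
          simp only [gD, al, be]
          rw [if_neg hx, if_neg hx]
        rw [h2]
        linarith
    · rw [if_neg hj, hc]
      have h1 := side_one5 (B := clsW b j) (x := (z (.inl (.inl h))).re) (by linarith)
          (fun hh => absurd hh hj) w0 hw5 hw t0 t1
          s0 s1 k0 k1 hB hCo1 hE
      linarith

end TL

end Pool.Agent.Work.MP_b30479_gtS.G2

end

section

/-!
# Tails: the shares of the touched digits two
-/

namespace Pool.Agent.Work.MP_b30479_gtS.G2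

open Finset VOL Filter Topology SR

namespace TL

variable {M : ℕ} {b : Fin (M + 1) → ℤ} {zs z : DD (tyW b) ⊕ ZZ (tyW b) → ℂ}
variable {R : Finset (DD (tyW b))} {h h' : Fin M} {i j j' k : Fin (M + 1)} {p q : Fin 3}

theorem Tl.share_two (H : Tl b zs R z) (G : Gains b zs R z) (hi : Tch b R i)
    (hc : clsW b i = .two) (c : ZZ (tyW b) → ℝ) :
    sh b R zs z i 0 + sh b R zs z i 2 ≤ Vr b (zN b R zs z c) i - Vr b z i := by
  obtain ⟨h, h', p, j, j', A, A', ht, ht', hw⟩ := H.tch_one hi (Or.inr hc)
  have hr : clsW b i ≠ .ring := by rw [hc]; decide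
  have hn : nbH b R h := isT_nb ht
  have hn' : nbH b R h' := (nbH_iff A').2 (Or.inl hi)
  have hhT : hT b R i := ⟨h, p, j, A, ht⟩
  obtain ⟨g, eg, hG⟩ := sh_nb H G A' hi ht' fun hh => hr hh.1
  have htg := tgt_cN A' hhT ht' hr (z (.inl (.inl h'))).re
  rw [htg, hc] at hG
  obtain ⟨-, x0, x1⟩ := H.tail ht
  obtain ⟨-, w0, w1⟩ := H.re_mem hn'
  obtain ⟨t0, t1⟩ := H.box A (Or.inl hr)
  obtain ⟨k0, k1⟩ := H.box A' (Or.inl hr)
  have hX := X0_le (b := b) A
  rw [hc] at hX t0 t1 k0 k1
  have hk : Th b zs h' j' = -Th b zs h' i := Th_opp H.hb A' (Or.inl hr)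
  have hx6 : (6 : ℝ) / 10 ≤ wXM b h := wXM_ge A hr
  rw [hk] at hG
  have hE := EB_of_Gn (Or.inr (Or.inl rfl)) w0 (by linarith) hG
  have hok : (kb b R j' p.rev.rev).ok (clsW b j') := kb_ok b R j' _
  rw [sh_sum A, sh_T A ht, eg, A.Vr_two A' H.hb hc, A.Vr_two A' H.hb hc, Oh_new hn, Oh_new hn',
    H.Oh_nb hn, H.Oh_nb hn', tgt_T A ht, htg, hc, A'.oc_eq b]
  unfold shT
  rw [if_neg hr]
  rcases ee_or (z := z) A' hi with he | ⟨he, -, hj1, hkb, -, hw5⟩
  · rw [he, add_zero]
    by_cases hj : clsW b j = .ring
    · rw [if_pos hj, hc]
      rw [hj] at t0 t1 hX ⊢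
      by_cases hx : 95 / 100 ≤ (z (.inl (.inl h))).re
      · have h1 := side_two_ring' hok (x := (z (.inl (.inl h))).re) (by linarith) w0 hw t0 t1
          k0 k1 hE
        have h2 : cT .two .ring = 1 / 4 := rfl
        rw [h2]
        linarith
      · have h1 := side_two (B := .ring) hok (x := (z (.inl (.inl h))).re) (by linarith) w0 hw t0 t1
          k0 k1 hE
        have h2 : gD .two (z (.inl (.inl h))).re (Th b zs h i) =
            al .two .ring (clsW b j') (z (.inl (.inl h))).re - be .two .ring * Th b zs h i := by
          simp only [gD, al, be]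
          rw [if_neg hx]
        rw [h2]
        linarith
    · rw [if_neg hj, hc]
      have h1 := side_two hok (x := (z (.inl (.inl h))).re) (by linarith) w0 hw t0 t1
          k0 k1 hE
      linarith
  · rw [he, hkb]
    rw [hkb] at hE
    rw [hj1] at k0 k1 ⊢
    have hcN : cN .one = 9 / 50 := rfl
    rw [hcN]
    by_cases hj : clsW b j = .ring
    · rw [if_pos hj, hc]
      rw [hj] at t0 t1 hX ⊢
      have h1 := side_two_ring5 (x := (z (.inl (.inl h))).re) (by linarith) w0 hw5 hw t0 t1
          k0 k1 hE
      have h2 : cT .two .ring = 1 / 4 := rfl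
      rw [h2]
      linarith
    · rw [if_neg hj, hc]
      have h1 := side_two5 (B := clsW b j) (x := (z (.inl (.inl h))).re) (by linarith) w0 hw5 hw
          t0 t1 k0 k1 hE
      linarith

theorem Tl.share_twoE (H : Tl b zs R z) (hi : Tch b R i)
    (hc : clsW b i = .twoE) (c : ZZ (tyW b) → ℝ) :
    sh b R zs z i 0 + sh b R zs z i 2 ≤ Vr b (zN b R zs z c) i - Vr b z i := by
  obtain ⟨h, p, j, A, ht⟩ := H.tch_twoE hi hc
  have hr : clsW b i ≠ .ring := by rw [hc]; decide
  have hn : nbH b R h := isT_nb ht
  obtain ⟨-, x0, x1⟩ := H.tail ht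
  obtain ⟨t0, t1⟩ := H.box A (Or.inl hr)
  have hX := X0_le (b := b) A
  rw [hc] at hX t0 t1
  rw [sh_sum A, sh_T A ht, sh_end A (clsW_end (Or.inl hc)), A.Vr_twoE H.hb hc, A.Vr_twoE H.hb hc,
    Oh_new hn, H.Oh_nb hn, tgt_T A ht, hc]
  have h1 := side_twoE (B := clsW b j) (Cc := oc b i p.rev) (x := (z (.inl (.inl h))).re)
    (by linarith) x1 t0 t1
  unfold shT
  rw [if_neg hr]
  by_cases hj : clsW b j = .ring
  · rw [if_pos hj, hc]
    rw [hj] at h1 ⊢
    have h2 : gD .twoE (z (.inl (.inl h))).re (Th b zs h i) =
        al .twoE .ring (oc b i p.rev) (z (.inl (.inl h))).re - be .twoE .ring * Th b zs h i := by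
      simp only [gD, al, be]
    rw [h2]
    linarith
  · rw [if_neg hj, hc]
    linarith

end TL

end Pool.Agent.Work.MP_b30479_gtS.G2

end

section

/-!
# Tails: the shares of a touched interior region with three crossings
-/

namespace Pool.Agent.Work.MP_b30479_gtS.G2

open Finset VOL Filter Topology SR

namespace TL

variable {M : ℕ} {b : Fin (M + 1) → ℤ} {zs z : DD (tyW b) ⊕ ZZ (tyW b) → ℂ}
variable {R : Finset (DD (tyW b))} {h h' : Fin M} {i j j' k : Fin (M + 1)} {p q : Fin 3}

namespace W4c

theorem XM0 (P A Q : Cl) (p : Fin 3) : X0 .three A ≤ (hpp p P .three A Q).XM ∧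
    (hpp p P .three A Q).XM ≤ 65 / 100 ∧ 60 / 100 ≤ X0 .three A := by
  unfold hpp
  split_ifs <;> cases A <;> simp only [hp, hp1, X0] <;> norm_num

theorem X0_le3 (A : Adj h i p j) (hc : clsW b i = .three) : X0 .three (clsW b j) ≤ wXM b h ∧
    wXM b h ≤ 65 / 100 ∧ 60 / 100 ≤ X0 .three (clsW b j) := by
  have h1 := A.XM_eq b
  rw [hc] at h1
  rw [h1]
  exact XM0 _ _ _ _

theorem kb_ne0 (R : Finset (DD (tyW b))) (j : Fin (M + 1)) : kb b R j 0 ≠ .threeK := by
  unfold kb kd
  split_ifs with h1 h2
  · decide
  · cases clsW b j <;> simp
  · exact absurd rfl h2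

theorem kb_ne2 (R : Finset (DD (tyW b))) (j : Fin (M + 1)) : kb b R j 2 ≠ .threeA := by
  unfold kb kd
  split_ifs with h1 h2
  · decide
  · exact absurd h2 (by decide)
  · cases clsW b j <;> simp

theorem al_pos_eq {i : Fin (M + 1)} (hc : clsW b i = .three) (hj : clsW b j ≠ .ring) (C : Cl)
    (x t : ℝ) : shT b i j C x t = al .three (clsW b j) C x - be .three (clsW b j) * t := by
  unfold shT
  rw [hc, if_neg (by decide), if_neg hj]

theorem gD_eq {i : Fin (M + 1)} (hc : clsW b i = .three) (hj : clsW b j = .ring) (C : Cl)
    (x t : ℝ) : shT b i j C x t = gD .three x t := by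
  unfold shT
  rw [hc, if_neg (by decide), if_pos hj]

theorem cT_three_ring : cT .three .ring = 1 / 4 := rfl

end W4c

open W4c in
/-- **The shares of a touched interior region with three crossings.** -/
theorem Tl.share_three (H : Tl b zs R z) (G : Gains b zs R z) (hi : Tch b R i)
    (hc : clsW b i = .three) (c : ZZ (tyW b) → ℝ) :
    (hT b R i → sh b R zs z i 0 + sh b R zs z i 2 ≤ Vr b (zN b R zs z c) i - Vr b z i) ∧
    (¬ hT b R i → sh b R zs z i 0 + sh b R zs z i 2 < Vr b (zN b R zs z c) i - Vr b z i) := by
  have hnr : clsW b i ≠ .ring := by rw [hc]; decide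
  have hno : clsW b i ≠ .one ∧ clsW b i ≠ .two := by rw [hc]; decide
  obtain ⟨m, hm⟩ : ∃ m : {i : Fin (M + 1) // (tyW b i).isMid = true}, m.1 = i :=
    ⟨⟨i, tyW_isMid (Or.inl hc)⟩, rfl⟩
  subst hm
  obtain ⟨h, h', j, j', A, A', hxl, hlw, hcase⟩ := H.tch_three m hi hc
  have hn : nbH b R h := (nbH_iff A).2 (Or.inl hi)
  have hn' : nbH b R h' := (nbH_iff A').2 (Or.inl hi)
  have hnm : nbM b R m.1 := Or.inl hi
  have hme : (⟨m.1, tyW_isMid (Or.inl hc)⟩ : {i : Fin (M + 1) // (tyW b i).isMid = true}) = m := rfl
  rw [A.Vr_three A' H.hb hc, A.Vr_three A' H.hb hc, hme, Oh_new hn, Oh_new hn', Om_new m hnm,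
    H.Oh_nb hn, H.Oh_nb hn', H.Om_re hnm]
  have ht := Th_mem H.hb H.L.L A hnr
  have hk := Th_mem H.hb H.L.L A' hnr
  rw [hc] at ht hk
  obtain ⟨m0, m1, s0, s1⟩ := H.L.X.mid m.2 A A' hc
  change (mw (clsW b j) (clsW b j')).t0 ≤ SR.Tm b zs m at m0
  change SR.Tm b zs m ≤ (mw (clsW b j) (clsW b j')).t1 at m1
  change (mw (clsW b j) (clsW b j')).s0 ≤ SR.Tm b zs m - Th b zs h m.1 at s0
  change SR.Tm b zs m - Th b zs h m.1 ≤ (mw (clsW b j) (clsW b j')).s1 at s1
  have hr : ¬ (clsW b m.1 = .ring ∧ clsW b j = .ring ∧ Tch b R j) := fun h0 => hnr h0.1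
  have hr' : ¬ (clsW b m.1 = .ring ∧ clsW b j' = .ring ∧ Tch b R j') := fun h0 => hnr h0.1
  have ho : Th b zs h j = -Th b zs h m.1 := Th_opp H.hb A (Or.inl hnr)
  have ho' : Th b zs h' j' = -Th b zs h' m.1 := Th_opp H.hb A' (Or.inl hnr)
  have x0 := (H.re_mem hn).2.1
  have x0' := (H.re_mem hn').2.1
  rcases hcase with ⟨hT1, hT2⟩ | ⟨hT1, hT2⟩ | ⟨hT1, hT2, hmR⟩
  · -- the slot 0 is in the tail
    have hh : hT b R m.1 := ⟨h, 0, j, A, hT1⟩
    refine ⟨fun _ => ?_, fun h0 => absurd hh h0⟩
    obtain ⟨g, e2, hG⟩ := sh_nb0 H G A' hi hT2 hr' hno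
    have e1 := sh_T (zs := zs) (z := z) A hT1
    have hoc : oc b m.1 (0 : Fin 3).rev = clsW b j' := A'.oc_eq b
    have hx := (X0_le3 A hc).1.trans (H.tail hT1).2.1
    have hx6 := (X0_le3 A hc).2.2.trans hx
    have et : tgt b R h (z (.inl (.inl h))).re = cT .three (clsW b j) := by
      rw [tgt_T A hT1, hc]
    have ek : tgt b R h' (z (.inl (.inl h'))).re = cN (kb b R j' (2 : Fin 3).rev) := by
      rw [tgt_nb A' hi hT2]
      unfold tgK
      rw [if_neg hnr, if_pos hh]
    have em : tmt b R m.1 (fun h => (z (.inl (.inl h))).re) = 42 / 100 := by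
      rw [tmt_three hc, if_pos hi, if_pos hh]
    rw [e1, e2, et, ek, em, hoc]
    rw [ek, hc, ho'] at hG
    have hE := EB_of_Gn (Or.inr (Or.inr rfl)) x0' (by linarith) hG
    have hC := kb_ok b R j' (2 : Fin 3).rev
    have hC2 := kb_ne0 (b := b) R j'
    by_cases hj : clsW b j = .ring
    · rw [gD_eq hc hj, hj, cT_three_ring]
      rw [hj] at ht m0 m1 s0 s1
      have h1 := side_three0_ring' hC hC2 hx6 hxl x0' hlw ht.1 ht.2 hk.1 hk.2 m0 m1 s0 s1 hE
      linarith
    · rw [al_pos_eq hc hj]
      have h1 := side_three0 hC hC2 hx hxl x0' hlw ht.1 ht.2 hk.1 hk.2 m0 m1 s0 s1 hE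
      linarith
  · -- the slot 2 is in the tail
    have hh : hT b R m.1 := ⟨h', 2, j', A', hT2⟩
    refine ⟨fun _ => ?_, fun h0 => absurd hh h0⟩
    obtain ⟨g, e2, hG⟩ := sh_nb0 H G A hi hT1 hr hno
    have e1 := sh_T (zs := zs) (z := z) A' hT2
    have hoc : oc b m.1 (2 : Fin 3).rev = clsW b j := A.oc_eq b
    have hx := (X0_le3 A' hc).1.trans (H.tail hT2).2.1
    have hx6 := (X0_le3 A' hc).2.2.trans hx
    have et : tgt b R h' (z (.inl (.inl h'))).re = cT .three (clsW b j') := by
      rw [tgt_T A' hT2, hc]
    have ek : tgt b R h (z (.inl (.inl h))).re = cN (kb b R j (0 : Fin 3).rev) := by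
      rw [tgt_nb A hi hT1]
      unfold tgK
      rw [if_neg hnr, if_pos hh]
    have em : tmt b R m.1 (fun h => (z (.inl (.inl h))).re) = 42 / 100 := by
      rw [tmt_three hc, if_pos hi, if_pos hh]
    rw [e1, e2, et, ek, em, hoc]
    rw [ek, hc, ho] at hG
    have hE := EB_of_Gn (Or.inr (Or.inr rfl)) x0 (by linarith) hG
    have hC := kb_ok b R j (0 : Fin 3).rev
    have hC2 := kb_ne2 (b := b) R j
    by_cases hj : clsW b j' = .ring
    · rw [gD_eq hc hj, hj, cT_three_ring]
      rw [hj] at hk m0 m1 s0 s1
      have h1 := side_three2_ring' hC hC2 hx6 x0 hxl hlw hk.1 hk.2 ht.1 ht.2 m0 m1 s0 s1 hE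
      linarith
    · rw [al_pos_eq hc hj]
      have h1 := side_three2 hC hC2 hx x0 hxl hlw hk.1 hk.2 ht.1 ht.2 m0 m1 s0 s1 hE
      linarith
  · -- only the inner variable is in the tail
    have hh : ¬ hT b R m.1 := by
      rintro ⟨h2, q2, k2, A2, h3⟩
      rcases A2.slot with rfl | rfl
      · rw [(adj_uniq A2 A).1] at h3
        exact hT1 h3
      · rw [(adj_uniq A2 A').1] at h3
        exact hT2 h3
    refine ⟨fun h0 => absurd h0 hh, fun _ => ?_⟩
    obtain ⟨g, e1, hG⟩ := sh_nb0 H G A hi hT1 hr hno
    obtain ⟨g', e2, hG'⟩ := sh_nb0 H G A' hi hT2 hr' hno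
    have ek : tgt b R h (z (.inl (.inl h))).re =
        cU (kb b R j (0 : Fin 3).rev) (z (.inl (.inl h))).re := by
      rw [tgt_nb A hi hT1]
      unfold tgK
      rw [if_neg hnr, if_neg hh, if_neg (by rintro ⟨-, h0⟩; exact absurd h0 (by decide))]
    have ek' : tgt b R h' (z (.inl (.inl h'))).re = cW (kb b R j' (2 : Fin 3).rev) := by
      rw [tgt_nb A' hi hT2]
      unfold tgK
      rw [if_neg hnr, if_neg hh, if_pos ⟨hc, rfl⟩]
    have em : tmt b R m.1 (fun h => (z (.inl (.inl h))).re) = 9 / 20 := by
      rw [tmt_three hc, if_pos hi, if_neg hh]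
    have hl : (8 : ℝ) / 10 ≤ (z (.inl (.inr m))).re := by
      have h1 := (H.mtail hmR).2.1
      rw [hc] at h1
      exact h1
    have hu1 := (H.real hn hT1).2.2.trans (X0_le3 A hc).2.1
    rw [e1, e2, ek, ek', em]
    rw [ek, hc, ho] at hG
    rw [ek', hc, ho'] at hG'
    have h1 := side_threeL (kb_ok b R j (0 : Fin 3).rev) (kb_ok b R j' (2 : Fin 3).rev)
      (kb_ne2 (b := b) R j)
      (kb_ne0 R j')
      hl x0 hu1 x0' hlw ht.1 ht.2 hk.1 hk.2 m0 m1 s0 s1 hG hG'
    linarith

end TL

end Pool.Agent.Work.MP_b30479_gtS.G2

end
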