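import Pool.Agent.Work.MP_b30479_gt.TBS.G2.TK3oneB1
import Pool.Agent.Work.MP_b30479_gt.TBS.G2.TK3oneB4
import Pool.Agent.Work.MP_b30479_gt.TBS.G2.WValD
import Pool.Agent.Work.MP_b30479_gt.TBS.G2.RngKd
import Pool.Agent.Work.MP_b30479_gt.TBS.G2.WLocX

section

/-!
# Tails: a region with three crossings next to a digit `1` in the tail, use of the rows
-/

namespace Pool.Agent.Work.MP_b30479_gtS.G2

open VOL NumUs

namespace TL

namespace K3o


/-! ### the values of a region with three crossings -/

theorem V3_uu (a α b β c γ : ℝ) : V3 ⟨a, α⟩ ⟨b, β⟩ ⟨c, γ⟩ =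
    -(Real.pi / 2 * (2 * (a * β + α * b) + 2 * (b - c) * (β - γ) - β + γ)) +
      uu (b + c) (β + γ) - uu (b - a) (β - α) - uu b β - uu a α - 2 * uu c γ := by
  have e1 : (⟨b, β⟩ : ℂ) + ⟨c, γ⟩ = ⟨b + c, β + γ⟩ := by apply Complex.ext <;> simp
  have e2 : (⟨b, β⟩ : ℂ) - ⟨a, α⟩ = ⟨b - a, β - α⟩ := by apply Complex.ext <;> simp
  unfold V3 uu
  rw [e1, e2]
  have e3 : (2 * (⟨a, α⟩ : ℂ) * (⟨b, β⟩ : ℂ) + ((⟨b, β⟩ : ℂ) - (⟨c, γ⟩ : ℂ)) ^ 2 - (⟨b, β⟩ : ℂ) +
      (⟨c, γ⟩ : ℂ)).im =
      2 * (a * β + α * b) + 2 * (b - c) * (β - γ) - β + γ := by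
    simp [pow_two, Complex.mul_im, Complex.mul_re]
    ring
  rw [e3]

theorem V3_re (a b c : ℝ) : V3 ⟨a, 0⟩ ⟨b, 0⟩ ⟨c, 0⟩ =
    ur (b + c) - ur (b - a) - ur b - ur a - 2 * ur c := by
  rw [V3_uu]
  unfold ur
  norm_num

/-- the old value, slot `0` in the tail -/
theorem old0 {x l w : ℝ} (hx : 65 / 100 ≤ x) (hxl : x ≤ l) (hw : 0 ≤ w) (hlw : l + w ≤ 1) :
    PS0 2 (l - 65 / 100) w (1 - l - w) ≤ -V3 ⟨x, 0⟩ ⟨l, 0⟩ ⟨w, 0⟩ := by
  rw [V3_re]
  have h := ur_conc (a := 65 / 100) (b := x) (s := 1 - l) (by norm_num) hx (by linarith)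
    (by linarith)
  have e1 : ur (65 / 100 + (1 - l)) = -ur (l - 65 / 100) := by
    rw [← ur_one_sub]; congr 1; ring
  have e2 : ur (x + (1 - l)) = -ur (l - x) := by
    rw [← ur_one_sub]; congr 1; ring
  have e3 : ur (65 / 100) = -ur (7 / 20) := by
    rw [← ur_one_sub]; congr 1; norm_num
  have e4 : ur l = -ur (1 - l) := by rw [ur_one_sub, neg_neg]
  have e5 : ur (l + w) = -ur (1 - l - w) := by
    rw [← ur_one_sub]; congr 1; ring
  have e6 : (7 : ℝ) / 20 - (l - 65 / 100) = 1 - l := by ring
  unfold PS0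
  rw [e6]
  rw [e1, e2, e3] at h
  rw [e4, e5]
  linarith

/-- the old value, slot `2` in the tail, `x ≤ 5/6` -/
theorem old2 {x l w : ℝ} (hx : 65 / 100 ≤ x) (hx1 : x ≤ 5 / 6) (hl : 0 ≤ l) (hlx : l + x ≤ 1) :
    PS2 1 (l - w) w (7 / 20 - l) ≤ -V3 ⟨w, 0⟩ ⟨l, 0⟩ ⟨x, 0⟩ := by
  rw [V3_re]
  have h := ur_conc (a := 65 / 100) (b := x) (s := l) (by norm_num) hx hl (by linarith)
  have h' := ur_mono (a := 65 / 100) (b := x) (by norm_num) hx hx1
  have e1 : ur (65 / 100 + l) = -ur (7 / 20 - l) := by
    rw [← ur_one_sub]; congr 1; ring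
  have e2 : ur (65 / 100) = -ur (7 / 20) := by
    rw [← ur_one_sub]; congr 1; norm_num
  have e3 : l - w + w = l := by ring
  have e4 : ur (l + x) = ur (x + l) := by rw [add_comm]
  unfold PS2
  rw [e3]
  rw [e1, e2] at h
  rw [e2] at h'
  rw [e4]
  linarith

/-- the old value, slot `2` in the tail, `5/6 ≤ x` -/
theorem old2' {x l w : ℝ} (hx : 5 / 6 ≤ x) (hw : 0 ≤ w) (hwl : w ≤ l) (hlx : l + x ≤ 1) :
    -(3232 / 10000) ≤ -V3 ⟨w, 0⟩ ⟨l, 0⟩ ⟨x, 0⟩ ∧ -(1616 / 10000) ≤ ur w := by
  rw [V3_re]
  have e1 : ur x = -ur (1 - x) := by rw [ur_one_sub, neg_neg]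
  have e2 : ur (l + x) = -ur (1 - x - l) := by
    rw [← ur_one_sub]; congr 1; ring
  have h1 := ur_anti (a := l) (b := 1 - x) (by linarith) (by linarith) (by linarith)
  have h2 := ur_anti (a := 1 - x - l) (b := 1 - x) (by linarith) (by linarith) (by linarith)
  have h3 := ur_anti (a := l - w) (b := 1 / 6) (by linarith) (by linarith) le_rfl
  have h4 := ur_anti (a := w) (b := 1 / 6) (by linarith) (by linarith) le_rfl
  have h5 := ur_sixth
  rw [e1, e2]
  constructor <;> linarith

section
open NumIs (V)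
open NumUs NumUs.E

theorem l30 (a b c : ℝ) : NumIs.lkR [a, b, c] 0 = a := rfl
theorem l31 (a b c : ℝ) : NumIs.lkR [a, b, c] 1 = b := rfl
theorem l32 (a b c : ℝ) : NumIs.lkR [a, b, c] 2 = c := rfl

theorem N0_val (cn : ℤ) (t m k : ℝ) : (N0 cn).val [t, m, k] =
    V3 ⟨28 / 100, t⟩ ⟨42 / 100, m⟩ ⟨(cn : ℝ) / 1000, k⟩ := by
  rw [V3_uu]
  simp only [N0, val, l30, l31, l32]
  have e1 : ((420 + cn : ℤ) : ℝ) / (1000 : ℕ) = 42 / 100 + (cn : ℝ) / 1000 := by push_cast; ring
  have e2 : ((2 * (420 - cn) : ℤ) : ℝ) / (1000 : ℕ) = 2 * (42 / 100 - (cn : ℝ) / 1000) := by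
    push_cast; ring
  rw [e1, e2]
  norm_num
  ring

theorem N2_val (cn : ℤ) (t m k : ℝ) : (N2 cn).val [t, m, k] =
    V3 ⟨(cn : ℝ) / 1000, k⟩ ⟨42 / 100, m⟩ ⟨28 / 100, t⟩ := by
  rw [V3_uu]
  simp only [N2, val, l30, l31, l32]
  have e1 : ((420 - cn : ℤ) : ℝ) / (1000 : ℕ) = 42 / 100 - (cn : ℝ) / 1000 := by push_cast; ring
  have e2 : ((2 * cn : ℤ) : ℝ) / (1000 : ℕ) = 2 * ((cn : ℝ) / 1000) := by push_cast; ring
  rw [e1, e2]
  norm_num
  ring

theorem useN {s2 : Bool} {cn kn : ℤ} {kd : ℕ} {c1 s0 s1 m0 m1 k0 k1 : ℤ} {c : ℕ}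
    (h : rowN s2 cn kn kd c1 s0 s1 m0 m1 k0 k1 c = true) {t m k : ℝ}
    (t0 : -(1145 / 10000) ≤ t) (t1 : t ≤ -(21 / 1000)) (a0 : (m0 : ℝ) / 10000 ≤ m)
    (a1 : m ≤ (m1 : ℝ) / 10000) (b0 : (k0 : ℝ) / 10000 ≤ k) (b1 : k ≤ (k1 : ℝ) / 10000)
    (d0 : (s0 : ℝ) / 10000 ≤ m - (if s2 = true then k else t))
    (d1 : m - (if s2 = true then k else t) ≤ (s1 : ℝ) / 10000) :
    (c1 : ℝ) / 10000 ≤ (cond s2 (N2 cn) (N0 cn)).val [t, m, k] + 19 / 10 * t +
      (kn : ℝ) / kd * k := by
  obtain ⟨a, ha, hp⟩ := chkT3 h (by norm_num) (x := t) (y := m) (z := k) (by push_cast; linarith)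
    (by push_cast; linarith) (by push_cast; exact a0) (by push_cast; exact a1)
    (by push_cast; exact b0) (by push_cast; exact b1)
  simp only [rN, List.mem_cons, List.not_mem_nil, or_false] at ha
  rcases ha with rfl | rfl | rfl
  · simp only [val, l30, l32] at hp
    push_cast at hp
    linarith
  · exfalso
    cases s2
    · simp only [cond_false, val, l30, l31] at hp
      push_cast at hp
      simp only [Bool.false_eq_true, if_false] at d0
      linarith
    · simp only [cond_true, val, l32, l31] at hp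
      push_cast at hp
      simp only [if_true] at d0
      linarith
  · exfalso
    cases s2
    · simp only [cond_false, val, l30, l31] at hp
      push_cast at hp
      simp only [Bool.false_eq_true, if_false] at d1
      linarith
    · simp only [cond_true, val, l32, l31] at hp
      push_cast at hp
      simp only [if_true] at d1
      linarith

theorem use0 {cn kn : ℤ} {kd : ℕ} {c1 s0 s1 m0 m1 k0 k1 : ℤ} {c : ℕ}
    (h : rowN false cn kn kd c1 s0 s1 m0 m1 k0 k1 c = true) {t m k : ℝ}
    (t0 : -(1145 / 10000) ≤ t) (t1 : t ≤ -(21 / 1000)) (a0 : (m0 : ℝ) / 10000 ≤ m)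
    (a1 : m ≤ (m1 : ℝ) / 10000) (b0 : (k0 : ℝ) / 10000 ≤ k) (b1 : k ≤ (k1 : ℝ) / 10000)
    (d0 : (s0 : ℝ) / 10000 ≤ m - t) (d1 : m - t ≤ (s1 : ℝ) / 10000) :
    (c1 : ℝ) / 10000 ≤ V3 ⟨28 / 100, t⟩ ⟨42 / 100, m⟩ ⟨(cn : ℝ) / 1000, k⟩ + 19 / 10 * t +
      (kn : ℝ) / kd * k := by
  have := useN h t0 t1 a0 a1 b0 b1 (by simpa using d0) (by simpa using d1)
  rwa [cond_false, N0_val] at this

theorem use2 {cn kn : ℤ} {kd : ℕ} {c1 s0 s1 m0 m1 k0 k1 : ℤ} {c : ℕ}
    (h : rowN true cn kn kd c1 s0 s1 m0 m1 k0 k1 c = true) {t m k : ℝ}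
    (t0 : -(1145 / 10000) ≤ t) (t1 : t ≤ -(21 / 1000)) (a0 : (m0 : ℝ) / 10000 ≤ m)
    (a1 : m ≤ (m1 : ℝ) / 10000) (b0 : (k0 : ℝ) / 10000 ≤ k) (b1 : k ≤ (k1 : ℝ) / 10000)
    (d0 : (s0 : ℝ) / 10000 ≤ m - k) (d1 : m - k ≤ (s1 : ℝ) / 10000) :
    (c1 : ℝ) / 10000 ≤ V3 ⟨(cn : ℝ) / 1000, k⟩ ⟨42 / 100, m⟩ ⟨28 / 100, t⟩ + 19 / 10 * t +
      (kn : ℝ) / kd * k := by
  have := useN h t0 t1 a0 a1 b0 b1 (by simpa using d0) (by simpa using d1)
  rwa [cond_true, N2_val] at this

end

theorem use0' {cn kn : ℤ} {kd : ℕ} {c1 s0 s1 m0 m1 k0 k1 : ℤ} {c : ℕ}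
    (h : rowN false cn kn kd c1 s0 s1 m0 m1 k0 k1 c = true) {cN kk cc : ℝ}
    (e1 : (cn : ℝ) / 1000 = cN) (e2 : (kn : ℝ) / kd = kk) (e3 : (c1 : ℝ) / 10000 = cc) {t m k : ℝ}
    (t0 : -(1145 / 10000) ≤ t) (t1 : t ≤ -(21 / 1000)) (a0 : (m0 : ℝ) / 10000 ≤ m)
    (a1 : m ≤ (m1 : ℝ) / 10000) (b0 : (k0 : ℝ) / 10000 ≤ k) (b1 : k ≤ (k1 : ℝ) / 10000)
    (d0 : (s0 : ℝ) / 10000 ≤ m - t) (d1 : m - t ≤ (s1 : ℝ) / 10000) :
    cc ≤ V3 ⟨28 / 100, t⟩ ⟨42 / 100, m⟩ ⟨cN, k⟩ + 19 / 10 * t + kk * k := by
  subst e1 e2 e3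
  exact use0 h t0 t1 a0 a1 b0 b1 d0 d1

theorem use2' {cn kn : ℤ} {kd : ℕ} {c1 s0 s1 m0 m1 k0 k1 : ℤ} {c : ℕ}
    (h : rowN true cn kn kd c1 s0 s1 m0 m1 k0 k1 c = true) {cN kk cc : ℝ}
    (e1 : (cn : ℝ) / 1000 = cN) (e2 : (kn : ℝ) / kd = kk) (e3 : (c1 : ℝ) / 10000 = cc) {t m k : ℝ}
    (t0 : -(1145 / 10000) ≤ t) (t1 : t ≤ -(21 / 1000)) (a0 : (m0 : ℝ) / 10000 ≤ m)
    (a1 : m ≤ (m1 : ℝ) / 10000) (b0 : (k0 : ℝ) / 10000 ≤ k) (b1 : k ≤ (k1 : ℝ) / 10000)
    (d0 : (s0 : ℝ) / 10000 ≤ m - k) (d1 : m - k ≤ (s1 : ℝ) / 10000) :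
    cc ≤ V3 ⟨cN, k⟩ ⟨42 / 100, m⟩ ⟨28 / 100, t⟩ + 19 / 10 * t + kk * k := by
  subst e1 e2 e3
  exact use2 h t0 t1 a0 a1 b0 b1 d0 d1

/-- the old value, slot `2`, all alternatives -/
theorem old2_all {x l u : ℝ} (hx : 65 / 100 ≤ x) (hu : 0 ≤ u) (hul : u ≤ l) (hlx : l + x ≤ 1) :
    -(4196 / 10000) ≤ -V3 ⟨u, 0⟩ ⟨l, 0⟩ ⟨x, 0⟩ ∧
    (u ≤ 4 / 25 → -(5410 / 10000) ≤ -V3 ⟨u, 0⟩ ⟨l, 0⟩ ⟨x, 0⟩ + ur u + 293 / 1000 * u) ∧
    -(6820 / 10000) ≤ -V3 ⟨u, 0⟩ ⟨l, 0⟩ ⟨x, 0⟩ + ur u - 719 / 1000 * u ∧
    -(5800 / 10000) ≤ -V3 ⟨u, 0⟩ ⟨l, 0⟩ ⟨x, 0⟩ + ur u ∧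
    (u ≤ 7 / 50 → -(5180 / 10000) ≤ -V3 ⟨u, 0⟩ ⟨l, 0⟩ ⟨x, 0⟩ + ur u + 543 / 1000 * u) := by
  rcases le_total x (5 / 6) with c | c
  · have hO := old2 (w := u) hx c (by linarith) hlx
    have hd0 : 0 ≤ l - u := by linarith
    have he0 : 0 ≤ 7 / 20 - l := by linarith
    have hs : l - u + u + (7 / 20 - l) = 7 / 20 := by ring
    have Pa := sound2 p2_a (by norm_num) hd0 hu he0 hs (by push_cast; linarith)
    have Pc := sound2 p2_c (by norm_num) hd0 hu he0 hs (by push_cast; linarith)
    have Pe := sound2 p2_e (by norm_num) hd0 hu he0 hs (by push_cast; linarith)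
    have Pb : u ≤ 4 / 25 → _ := fun h => sound2 p2_b (by norm_num) hd0 hu he0 hs
      (by push_cast; linarith)
    have Ph : u ≤ 7 / 50 → _ := fun h => sound2 p2_h (by norm_num) hd0 hu he0 hs
      (by push_cast; linarith)
    have eU : PS2 2 (l - u) u (7 / 20 - l) = PS2 1 (l - u) u (7 / 20 - l) + ur u := by
      unfold PS2; ring
    push_cast at Pa Pb Pc Pe Ph
    rw [eU] at Pb Pc Pe Ph
    refine ⟨by linarith, fun h => ?_, by linarith, by linarith, fun h => ?_⟩
    · linarith [Pb h]
    · linarith [Ph h]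
  · obtain ⟨h1, h2⟩ := old2' c hu hul hlx
    have h3 : u ≤ 1 / 6 := by linarith
    refine ⟨by linarith, fun h => ?_, by linarith, by linarith, fun h => ?_⟩
    · linarith
    · linarith

end K3o

end TL

end Pool.Agent.Work.MP_b30479_gtS.G2

end

section

/-!
# Tails: `side_three0_one`
-/

namespace Pool.Agent.Work.MP_b30479_gtS.G2

open VOL NumUs SR

namespace TL

open K3o

/-- `side_three0` for `B = one` -/
theorem side_three0_one {Cc : Cl} {C : Ct} (hC : C.ok Cc) (hC2 : C ≠ .threeK) {x l w t m k G : ℝ}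
    (hx : X0 .three .one ≤ x) (hxl : x ≤ l) (hw : 0 ≤ w) (hlw : l + w ≤ 1)
    (t0 : (hbox .three .one false).t0 ≤ t) (t1 : t ≤ (hbox .three .one false).t1)
    (k0 : (hbox .three Cc false).t0 ≤ k) (k1 : k ≤ (hbox .three Cc false).t1)
    (m0 : (mw .one Cc).t0 ≤ m) (m1 : m ≤ (mw .one Cc).t1)
    (s0 : (mw .one Cc).s0 ≤ m - t) (s1 : m - t ≤ (mw .one Cc).s1)
    (hE : EB .three C w (-k) G) :
    al .three .one Cc x ≤ V3 ⟨cT .three .one, t⟩ ⟨42 / 100, m⟩ ⟨cN C, k⟩ -
      V3 ⟨x, 0⟩ ⟨l, 0⟩ ⟨w, 0⟩ + G + be .three .one * t := by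
  simp only [X0] at hx
  simp only [al, be, cT]
  have hO := old0 hx hxl hw hlw
  have hd0 : 0 ≤ l - 65 / 100 := by linarith only [hx, hxl]
  have he0 : 0 ≤ 1 - l - w := by linarith only [hlw]
  have hs : l - 65 / 100 + w + (1 - l - w) = 7 / 20 := by ring
  have hU : UU ⟨w, 0⟩ = ur w := rfl
  have hw' : w ≤ 35 / 100 := by linarith only [hx, hxl, hlw]
  have Pa := sound0 p0_a (by norm_num) hd0 hw he0 hs (by push_cast; linarith only [hx, hxl, hlw])
  have Pc := sound0 p0_c (by norm_num) hd0 hw he0 hs (by push_cast; linarith only [hx, hxl, hlw])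
  have Pe := sound0 p0_e (by norm_num) hd0 hw he0 hs (by push_cast; linarith only [hx, hxl, hlw])
  have Pb : w ≤ 4 / 25 → _ := fun h => sound0 p0_b (by norm_num) hd0 hw he0 hs
    (by push_cast; linarith only [h])
  have eU : PS0 3 (l - 65 / 100) w (1 - l - w) = PS0 2 (l - 65 / 100) w (1 - l - w) + ur w := by
    unfold PS0; ring
  push_cast at Pa Pb Pc Pe
  rw [eU] at Pb Pc Pe
  generalize V3 ⟨x, 0⟩ ⟨l, 0⟩ ⟨w, 0⟩ = O at hO ⊢
  generalize PS0 2 (l - 65 / 100) w (1 - l - w) = Q at *
  simp only [hbox] at t0 t1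
  cases C with
  | one =>
    have hc : Cc = .one := hC
    subst hc
    simp only [hbox] at k0 k1
    simp only [mw] at m0 m1 s0 s1
    simp only [EB] at hE
    simp only [cN]
    rw [hU] at hE
    obtain ⟨E1, E2⟩ := hE
    rcases le_total w (4 / 25) with c | c
    · have Pb := Pb c
      rcases E1 c with ⟨E3, E4⟩ | E4
      · have K := use0' n0_one_1 (cN := 9 / 50) (kk := 3927 / 1250) (cc := 5035 / 10000) (t := t) (m := m) (k := k) (by norm_num) (by norm_num)
          (by norm_num) (by push_cast; linarith only [t0]) (by push_cast; linarith only [t1]) (by push_cast; linarith only [m0]) (by push_cast; linarith only [m1])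
          (by push_cast; linarith only [E3]) (by push_cast; linarith only [k1]) (by push_cast; linarith only [s0]) (by push_cast; linarith only [s1])
        linarith only [Pa, hO, E4, K]
      · have K := use0' n0_one_2 (cN := 9 / 50) (kk := 163 / 100) (cc := 6392 / 10000) (t := t) (m := m) (k := k) (by norm_num) (by norm_num)
          (by norm_num) (by push_cast; linarith only [t0]) (by push_cast; linarith only [t1]) (by push_cast; linarith only [m0]) (by push_cast; linarith only [m1])
          (by push_cast; linarith only [k0]) (by push_cast; linarith only [k1]) (by push_cast; linarith only [s0]) (by push_cast; linarith only [s1])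
        linarith only [hO, Pb, E4, K]
    · have E4 := E2 c
      have K := use0' n0_one_3 (cN := 9 / 50) (kk := 429 / 250) (cc := 6472 / 10000) (t := t) (m := m) (k := k) (by norm_num) (by norm_num)
        (by norm_num) (by push_cast; linarith only [t0]) (by push_cast; linarith only [t1]) (by push_cast; linarith only [m0]) (by push_cast; linarith only [m1])
        (by push_cast; linarith only [k0]) (by push_cast; linarith only [k1]) (by push_cast; linarith only [s0]) (by push_cast; linarith only [s1])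
      linarith only [Pc, hO, E4, K]
  | two =>
    have hc : Cc = .two := hC
    subst hc
    simp only [hbox] at k0 k1
    simp only [mw] at m0 m1 s0 s1
    simp only [EB] at hE
    simp only [cN]
    rw [hU] at hE
    have K := use0' n0_two (cN := 1 / 4) (kk := 1571 / 1000) (cc := 6225 / 10000) (t := t) (m := m) (k := k) (by norm_num) (by norm_num)
      (by norm_num) (by push_cast; linarith only [t0]) (by push_cast; linarith only [t1]) (by push_cast; linarith only [m0]) (by push_cast; linarith only [m1])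
      (by push_cast; linarith only [k0]) (by push_cast; linarith only [k1]) (by push_cast; linarith only [s0]) (by push_cast; linarith only [s1])
    linarith only [Pc, Pe, hO, hE, K]
  | twoE =>
    have hc : Cc = .twoE := hC
    subst hc
    simp only [hbox] at k0 k1
    simp only [mw] at m0 m1 s0 s1
    simp only [EB] at hE
    simp only [cN]
    rw [hU] at hE
    have K := use0' n0_twoE (cN := 11 / 50) (kk := 2262 / 1000) (cc := 5010 / 10000) (t := t) (m := m) (k := k) (by norm_num) (by norm_num)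
      (by norm_num) (by push_cast; linarith only [t0]) (by push_cast; linarith only [t1]) (by push_cast; linarith only [m0]) (by push_cast; linarith only [m1])
      (by push_cast; linarith only [k0]) (by push_cast; linarith only [k1]) (by push_cast; linarith only [s0]) (by push_cast; linarith only [s1])
    linarith only [Pe, hO, hE, K]
  | threeA =>
    have hc : Cc = .three := hC
    subst hc
    simp only [hbox] at k0 k1
    simp only [mw] at m0 m1 s0 s1
    simp only [EB] at hE
    simp only [cN]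
    rw [hU] at hE
    obtain ⟨E1, E2⟩ := hE
    rcases le_total w (4 / 25) with c | c
    · have E4 := E1 c
      have K := use0' n0_thrA_1 (cN := 3 / 20) (kk := 851 / 1000) (cc := 6763 / 10000) (t := t) (m := m) (k := k) (by norm_num) (by norm_num)
        (by norm_num) (by push_cast; linarith only [t0]) (by push_cast; linarith only [t1]) (by push_cast; linarith only [m0]) (by push_cast; linarith only [m1])
        (by push_cast; linarith only [k0]) (by push_cast; linarith only [k1]) (by push_cast; linarith only [s0]) (by push_cast; linarith only [s1])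
      linarith only [Pe, hO, c, E4, K]
    · have E4 := E2 c
      have K := use0' n0_thrA_2 (cN := 3 / 20) (kk := 113 / 200) (cc := 6532 / 10000) (t := t) (m := m) (k := k) (by norm_num) (by norm_num)
        (by norm_num) (by push_cast; linarith only [t0]) (by push_cast; linarith only [t1]) (by push_cast; linarith only [m0]) (by push_cast; linarith only [m1])
        (by push_cast; linarith only [k0]) (by push_cast; linarith only [k1]) (by push_cast; linarith only [s0]) (by push_cast; linarith only [s1])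
      linarith only [hx, hxl, hlw, Pc, hO, E4, K]
  | threeK => exact absurd rfl hC2
  | threeE =>
    have hc : Cc = .threeE := hC
    subst hc
    simp only [hbox] at k0 k1
    simp only [mw] at m0 m1 s0 s1
    simp only [EB] at hE
    simp only [cN]
    rw [hU] at hE
    have K := use0' n0_threeE (cN := 11 / 50) (kk := 1215 / 1000) (cc := 5210 / 10000) (t := t) (m := m) (k := k) (by norm_num) (by norm_num)
      (by norm_num) (by push_cast; linarith only [t0]) (by push_cast; linarith only [t1]) (by push_cast; linarith only [m0]) (by push_cast; linarith only [m1])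
      (by push_cast; linarith only [k0]) (by push_cast; linarith only [k1]) (by push_cast; linarith only [s0]) (by push_cast; linarith only [s1])
    linarith only [Pe, hO, hE, K]
  | ring =>
    have hc : Cc = .ring := hC
    subst hc
    simp only [hbox] at k0 k1
    simp only [mw] at m0 m1 s0 s1
    simp only [EB] at hE
    simp only [cN]
    rw [hU] at hE
    obtain ⟨E1, E2⟩ := hE
    rcases le_total w (7 / 50) with c | c
    · have E4 := E1 c
      have Pb := Pb (by linarith only [c])
      have K := use0' n0_ring_1 (cN := 9 / 50) (kk := 839 / 500) (cc := 6681 / 10000) (t := t) (m := m) (k := k) (by norm_num) (by norm_num)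
        (by norm_num) (by push_cast; linarith only [t0]) (by push_cast; linarith only [t1]) (by push_cast; linarith only [m0]) (by push_cast; linarith only [m1])
        (by push_cast; linarith only [k0]) (by push_cast; linarith only [k1]) (by push_cast; linarith only [s0]) (by push_cast; linarith only [s1])
      linarith only [hw, hO, E4, Pb, K]
    · have E4 := E2 c
      have K := use0' n0_ring_2 (cN := 9 / 50) (kk := 1397 / 1000) (cc := 6468 / 10000) (t := t) (m := m) (k := k) (by norm_num) (by norm_num)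
        (by norm_num) (by push_cast; linarith only [t0]) (by push_cast; linarith only [t1]) (by push_cast; linarith only [m0]) (by push_cast; linarith only [m1])
        (by push_cast; linarith only [k0]) (by push_cast; linarith only [k1]) (by push_cast; linarith only [s0]) (by push_cast; linarith only [s1])
      linarith only [hx, hxl, hlw, Pc, hO, E4, K]
  | touched =>
    have hk : -(1145 / 10000) ≤ k ∧ k ≤ 57 / 1000 := by
      clear m0 m1 s0 s1 hC
      cases Cc <;> simp only [hbox] at k0 k1 <;> constructor <;> linarith only [k0, k1]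
    have hm : -900 / 10000 ≤ m ∧ m ≤ 50 / 10000 := by
      clear k0 k1 s0 s1 hC
      cases Cc <;> simp only [mw] at m0 m1 <;> constructor <;> linarith only [m0, m1]
    have hms : -450 / 10000 ≤ m - t ∧ m - t ≤ 840 / 10000 := by
      clear m0 m1 k0 k1 hC
      cases Cc <;> simp only [mw] at s0 s1 <;> constructor <;> linarith only [s0, s1]
    simp only [EB] at hE
    simp only [cN]
    have K := use0' n0_t (cN := 1 / 5) (kk := 59 / 25) (cc := 4945 / 10000) (t := t) (m := m)
      (k := k) (by norm_num) (by norm_num)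
      (by norm_num) (by push_cast; linarith only [t0]) (by push_cast; linarith only [t1]) (by push_cast; linarith only [hm, hm.1]) (by push_cast; linarith only [hm, hm.2])
      (by push_cast; linarith only [hk, hk.1]) (by push_cast; linarith only [hk, hk.2]) (by push_cast; linarith only [hms, hms.1])
      (by push_cast; linarith only [hms, hms.2])
    linarith only [Pa, hO, hE, K]

end TL

end Pool.Agent.Work.MP_b30479_gtS.G2

end

section

/-!
# Tails: `side_three2_one`
-/

namespace Pool.Agent.Work.MP_b30479_gtS.G2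

open VOL NumUs SR

namespace TL

open K3o

/-- `side_three2` for `B = one` -/
theorem side_three2_one {Cc : Cl} {C : Ct} (hC : C.ok Cc) (hC2 : C ≠ .threeA) {x l u t m k G : ℝ}
    (hx : X0 .three .one ≤ x) (hu : 0 ≤ u) (hul : u ≤ l) (hlx : l + x ≤ 1)
    (t0 : (hbox .three .one false).t0 ≤ t) (t1 : t ≤ (hbox .three .one false).t1)
    (k0 : (hbox .three Cc false).t0 ≤ k) (k1 : k ≤ (hbox .three Cc false).t1)
    (m0 : (mw Cc .one).t0 ≤ m) (m1 : m ≤ (mw Cc .one).t1)
    (s0 : (mw Cc .one).s0 ≤ m - k) (s1 : m - k ≤ (mw Cc .one).s1)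
    (hE : EB .three C u (-k) G) :
    al .three .one Cc x ≤ V3 ⟨cN C, k⟩ ⟨42 / 100, m⟩ ⟨cT .three .one, t⟩ -
      V3 ⟨u, 0⟩ ⟨l, 0⟩ ⟨x, 0⟩ + G + be .three .one * t := by
  simp only [X0] at hx
  simp only [al, be, cT]
  have hU : UU ⟨u, 0⟩ = ur u := rfl
  have hu' : u ≤ 35 / 100 := by linarith only [hx, hul, hlx]
  obtain ⟨Pa, Pb, Pc, Pe, Ph⟩ := old2_all hx hu hul hlx
  generalize V3 ⟨u, 0⟩ ⟨l, 0⟩ ⟨x, 0⟩ = O at *
  simp only [hbox] at t0 t1
  cases C with
  | one =>
    have hc : Cc = .one := hC
    subst hc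
    simp only [hbox] at k0 k1
    simp only [mw] at m0 m1 s0 s1
    simp only [EB] at hE
    simp only [cN]
    rw [hU] at hE
    obtain ⟨E1, E2⟩ := hE
    rcases le_total u (4 / 25) with c | c
    · have Pb := Pb c
      rcases E1 c with ⟨E3, E4⟩ | E4
      · have K := use2' n2_one_1 (cN := 9 / 50) (kk := 3927 / 1250) (cc := 5441 / 10000) (t := t) (m := m) (k := k) (by norm_num) (by norm_num)
          (by norm_num) (by push_cast; linarith only [t0]) (by push_cast; linarith only [t1]) (by push_cast; linarith only [m0]) (by push_cast; linarith only [m1])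
          (by push_cast; linarith only [E3]) (by push_cast; linarith only [k1]) (by push_cast; linarith only [s0]) (by push_cast; linarith only [s1])
        linarith only [Pa, E4, K]
      · have K := use2' n2_one_2 (cN := 9 / 50) (kk := 163 / 100) (cc := 6812 / 10000) (t := t) (m := m) (k := k) (by norm_num) (by norm_num)
          (by norm_num) (by push_cast; linarith only [t0]) (by push_cast; linarith only [t1]) (by push_cast; linarith only [m0]) (by push_cast; linarith only [m1])
          (by push_cast; linarith only [k0]) (by push_cast; linarith only [k1]) (by push_cast; linarith only [s0]) (by push_cast; linarith only [s1])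
        linarith only [Pb, E4, K]
    · have E4 := E2 c
      have K := use2' n2_one_3 (cN := 9 / 50) (kk := 429 / 250) (cc := 6692 / 10000) (t := t) (m := m) (k := k) (by norm_num) (by norm_num)
        (by norm_num) (by push_cast; linarith only [t0]) (by push_cast; linarith only [t1]) (by push_cast; linarith only [m0]) (by push_cast; linarith only [m1])
        (by push_cast; linarith only [k0]) (by push_cast; linarith only [k1]) (by push_cast; linarith only [s0]) (by push_cast; linarith only [s1])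
      linarith only [Pc, E4, K]
  | two =>
    have hc : Cc = .two := hC
    subst hc
    simp only [hbox] at k0 k1
    simp only [mw] at m0 m1 s0 s1
    simp only [EB] at hE
    simp only [cN]
    rw [hU] at hE
    have K := use2' n2_two (cN := 1 / 4) (kk := 1571 / 1000) (cc := 6625 / 10000) (t := t) (m := m) (k := k) (by norm_num) (by norm_num)
      (by norm_num) (by push_cast; linarith only [t0]) (by push_cast; linarith only [t1]) (by push_cast; linarith only [m0]) (by push_cast; linarith only [m1])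
      (by push_cast; linarith only [k0]) (by push_cast; linarith only [k1]) (by push_cast; linarith only [s0]) (by push_cast; linarith only [s1])
    linarith only [Pc, Pe, hE, K]
  | twoE =>
    have hc : Cc = .twoE := hC
    subst hc
    simp only [hbox] at k0 k1
    simp only [mw] at m0 m1 s0 s1
    simp only [EB] at hE
    simp only [cN]
    rw [hU] at hE
    have K := use2' n2_twoE (cN := 11 / 50) (kk := 2262 / 1000) (cc := 5410 / 10000) (t := t) (m := m) (k := k) (by norm_num) (by norm_num)
      (by norm_num) (by push_cast; linarith only [t0]) (by push_cast; linarith only [t1]) (by push_cast; linarith only [m0]) (by push_cast; linarith only [m1])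
      (by push_cast; linarith only [k0]) (by push_cast; linarith only [k1]) (by push_cast; linarith only [k1, m0]) (by push_cast; linarith only [s1])
    linarith only [Pe, hE, K]
  | threeA => exact absurd rfl hC2
  | threeK =>
    have hc : Cc = .three := hC
    subst hc
    simp only [hbox] at k0 k1
    simp only [mw] at m0 m1 s0 s1
    simp only [EB] at hE
    simp only [cN]
    rw [hU] at hE
    have K := use2' n2_thrK (cN := 9 / 50) (kk := 353 / 250) (cc := 6843 / 10000) (t := t) (m := m) (k := k) (by norm_num) (by norm_num)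
      (by norm_num) (by push_cast; linarith only [t0]) (by push_cast; linarith only [t1]) (by push_cast; linarith only [m0]) (by push_cast; linarith only [m1])
      (by push_cast; linarith only [k0]) (by push_cast; linarith only [k1]) (by push_cast; linarith only [s0]) (by push_cast; linarith only [k0, m1])
    linarith only [hu, Pe, hE, K]
  | threeE =>
    have hc : Cc = .threeE := hC
    subst hc
    simp only [hbox] at k0 k1
    simp only [mw] at m0 m1 s0 s1
    simp only [EB] at hE
    simp only [cN]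
    rw [hU] at hE
    have K := use2' n2_threeE (cN := 11 / 50) (kk := 1215 / 1000) (cc := 5610 / 10000) (t := t) (m := m) (k := k) (by norm_num) (by norm_num)
      (by norm_num) (by push_cast; linarith only [t0]) (by push_cast; linarith only [t1]) (by push_cast; linarith only [m0]) (by push_cast; linarith only [m1])
      (by push_cast; linarith only [k0]) (by push_cast; linarith only [k1]) (by push_cast; linarith only [s0]) (by push_cast; linarith only [k0, m1])
    linarith only [Pe, hE, K]
  | ring =>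
    have hc : Cc = .ring := hC
    subst hc
    simp only [hbox] at k0 k1
    simp only [mw] at m0 m1 s0 s1
    simp only [EB] at hE
    simp only [cN]
    rw [hU] at hE
    obtain ⟨E1, E2⟩ := hE
    rcases le_total u (7 / 50) with c | c
    · have E4 := E1 c
      have Ph := Ph c
      have K := use2' n2_ring_1 (cN := 9 / 50) (kk := 839 / 500) (cc := 6871 / 10000) (t := t) (m := m) (k := k) (by norm_num) (by norm_num)
        (by norm_num) (by push_cast; linarith only [t0]) (by push_cast; linarith only [t1]) (by push_cast; linarith only [k0, s0]) (by push_cast; linarith only [m1])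
        (by push_cast; linarith only [k0]) (by push_cast; linarith only [k1]) (by push_cast; linarith only [s0]) (by push_cast; linarith only [k0, m1])
      linarith only [E4, Ph, K]
    · have E4 := E2 c
      have K := use2' n2_ring_2 (cN := 9 / 50) (kk := 1397 / 1000) (cc := 6688 / 10000) (t := t) (m := m) (k := k) (by norm_num) (by norm_num)
        (by norm_num) (by push_cast; linarith only [t0]) (by push_cast; linarith only [t1]) (by push_cast; linarith only [k0, s0]) (by push_cast; linarith only [m1])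
        (by push_cast; linarith only [k0]) (by push_cast; linarith only [k1]) (by push_cast; linarith only [s0]) (by push_cast; linarith only [k0, m1])
      linarith only [hx, hul, hlx, Pc, E4, K]
  | touched =>
    have hk : -(1145 / 10000) ≤ k ∧ k ≤ 57 / 1000 := by
      clear m0 m1 s0 s1 hC
      cases Cc <;> simp only [hbox] at k0 k1 <;> constructor <;> linarith only [k0, k1]
    have hm : -1230 / 10000 ≤ m ∧ m ≤ -150 / 10000 := by
      clear k0 k1 s0 s1 hC
      cases Cc <;> simp only [mw] at m0 m1 <;> constructor <;> linarith only [m0, m1]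
    have hms : -1050 / 10000 ≤ m - k ∧ m - k ≤ 700 / 10000 := by
      clear m0 m1 k0 k1 hC
      cases Cc <;> simp only [mw] at s0 s1 <;> constructor <;> linarith only [s0, s1]
    simp only [EB] at hE
    simp only [cN]
    have K := use2' n2_t (cN := 1 / 5) (kk := 59 / 25) (cc := 5351 / 10000) (t := t) (m := m)
      (k := k) (by norm_num) (by norm_num)
      (by norm_num) (by push_cast; linarith only [t0]) (by push_cast; linarith only [t1]) (by push_cast; linarith only [hm, hm.1]) (by push_cast; linarith only [hm, hm.2])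
      (by push_cast; linarith only [hk, hk.1]) (by push_cast; linarith only [hk, hk.2]) (by push_cast; linarith only [hms, hms.1])
      (by push_cast; linarith only [hms, hms.2])
    linarith only [Pa, hE, K]

end TL

end Pool.Agent.Work.MP_b30479_gtS.G2

end
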