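import Pool.Agent.Work.MP_b30479_gt.TBS.NumU.GenC

/-!
# Tails, slot `0` of an interior three: rows Q
-/

set_option linter.unusedVariables false
set_option linter.unusedSimpArgs false
set_option linter.unusedTactic false

set_option deprecated.oldSectionVars true

namespace Pool.Agent.Work.MP_b30479_gtS.G2

open VOL NumUs

namespace TL

namespace L2

theorem g2_200_1000_a {w : ℝ} (a0 : 200 / 10000 ≤ w) (b0 : w ≤ 1000 / 10000) :
    -(3828 / 100000) + w * ((-(1498 / 1000)) + (1753 / 1000) * w) < 2 * uu w 0 + uu (8 / 10 - w) 0 := by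
  have h : NumGs.chkF
      [.sub (.add (.mul (.q 2 1) (.uw (.var 0) (.q 0 1))) (.uw (.sub (.q 8 10) (.var 0)) (.q 0
      1))) (.add (.q (-3828) 100000) (.mul (.var 0) (.add (.q (-1498) 1000) (.mul (.q 1753 1000)
      (.var 0)))))]
      10000 0 0 0 0 60 200 1000 0 0 0 0 0 0
      0x408002000810000 = true := by decide +kernel
  obtain ⟨e, he, hp⟩ := NumGs.chkF4 h (by norm_num) (x := w) (y := 0) (z := 0) (w := 0)
    (by norm_num; linarith only [a0]) (by norm_num; linarith only [b0]) (by norm_num) (by norm_num) (by norm_num)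
    (by norm_num) (by norm_num) (by norm_num)
  simp only [List.mem_singleton] at he
  subst he
  simp only [NumGs.E.val, NumIs.lkR] at hp
  push_cast at hp
  simp only [zero_div] at hp
  linarith only [hp]

theorem g2_200_1000_b {w : ℝ} (a0 : 200 / 10000 ≤ w) (b0 : w ≤ 1000 / 10000) :
    -(3828 / 100000) + w * ((-(1498 / 1000)) + (1753 / 1000) * w) < 1 * uu w 0 := by
  have h : NumGs.chkF
      [.sub (.mul (.q 1 1) (.uw (.var 0) (.q 0 1))) (.add (.q (-3828) 100000) (.mul (.var 0)
      (.add (.q (-1498) 1000) (.mul (.q 1753 1000) (.var 0)))))]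
      10000 0 0 0 0 60 200 1000 0 0 0 0 0 0
      0x102000810204000000408002000800000 = true := by decide +kernel
  obtain ⟨e, he, hp⟩ := NumGs.chkF4 h (by norm_num) (x := w) (y := 0) (z := 0) (w := 0)
    (by norm_num; linarith only [a0]) (by norm_num; linarith only [b0]) (by norm_num) (by norm_num) (by norm_num)
    (by norm_num) (by norm_num) (by norm_num)
  simp only [List.mem_singleton] at he
  subst he
  simp only [NumGs.E.val, NumIs.lkR] at hp
  push_cast at hp
  simp only [zero_div] at hp
  linarith only [hp]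

theorem g2_1000_1200_a {w : ℝ} (a0 : 1000 / 10000 ≤ w) (b0 : w ≤ 1200 / 10000) :
    5118 / 100000 + w * ((-(2971 / 1000)) + (7667 / 1000) * w) < 2 * uu w 0 + uu (8 / 10 - w) 0 := by
  have h : NumGs.chkF
      [.sub (.add (.mul (.q 2 1) (.uw (.var 0) (.q 0 1))) (.uw (.sub (.q 8 10) (.var 0)) (.q 0
      1))) (.add (.q 5118 100000) (.mul (.var 0) (.add (.q (-2971) 1000) (.mul (.q 7667 1000)
      (.var 0)))))]
      10000 0 0 0 0 60 1000 1200 0 0 0 0 0 0
      0x1020008100040800000 = true := by decide +kernel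
  obtain ⟨e, he, hp⟩ := NumGs.chkF4 h (by norm_num) (x := w) (y := 0) (z := 0) (w := 0)
    (by norm_num; linarith only [a0]) (by norm_num; linarith only [b0]) (by norm_num) (by norm_num) (by norm_num)
    (by norm_num) (by norm_num) (by norm_num)
  simp only [List.mem_singleton] at he
  subst he
  simp only [NumGs.E.val, NumIs.lkR] at hp
  push_cast at hp
  simp only [zero_div] at hp
  linarith only [hp]

theorem g2_1000_1200_b {w : ℝ} (a0 : 1000 / 10000 ≤ w) (b0 : w ≤ 1200 / 10000) :
    5118 / 100000 + w * ((-(2971 / 1000)) + (7667 / 1000) * w) < 1 * uu w 0 := by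
  have h : NumGs.chkF
      [.sub (.mul (.q 1 1) (.uw (.var 0) (.q 0 1))) (.add (.q 5118 100000) (.mul (.var 0) (.add
      (.q (-2971) 1000) (.mul (.q 7667 1000) (.var 0)))))]
      10000 0 0 0 0 60 1000 1200 0 0 0 0 0 0
      0x4 = true := by decide +kernel
  obtain ⟨e, he, hp⟩ := NumGs.chkF4 h (by norm_num) (x := w) (y := 0) (z := 0) (w := 0)
    (by norm_num; linarith only [a0]) (by norm_num; linarith only [b0]) (by norm_num) (by norm_num) (by norm_num)
    (by norm_num) (by norm_num) (by norm_num)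
  simp only [List.mem_singleton] at he
  subst he
  simp only [NumGs.E.val, NumIs.lkR] at hp
  push_cast at hp
  simp only [zero_div] at hp
  linarith only [hp]

theorem g2_1000_2000_a {w : ℝ} (a0 : 1000 / 10000 ≤ w) (b0 : w ≤ 2000 / 10000) :
    1867 / 100000 + w * ((-(2435 / 1000)) + (5457 / 1000) * w) < 2 * uu w 0 + uu (8 / 10 - w) 0 := by
  have h : NumGs.chkF
      [.sub (.add (.mul (.q 2 1) (.uw (.var 0) (.q 0 1))) (.uw (.sub (.q 8 10) (.var 0)) (.q 0
      1))) (.add (.q 1867 100000) (.mul (.var 0) (.add (.q (-2435) 1000) (.mul (.q 5457 1000)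
      (.var 0)))))]
      10000 0 0 0 0 60 1000 2000 0 0 0 0 0 0
      0x102000800204000020400102040000004080020400002040000000 = true := by decide +kernel
  obtain ⟨e, he, hp⟩ := NumGs.chkF4 h (by norm_num) (x := w) (y := 0) (z := 0) (w := 0)
    (by norm_num; linarith only [a0]) (by norm_num; linarith only [b0]) (by norm_num) (by norm_num) (by norm_num)
    (by norm_num) (by norm_num) (by norm_num)
  simp only [List.mem_singleton] at he
  subst he
  simp only [NumGs.E.val, NumIs.lkR] at hp
  push_cast at hp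
  simp only [zero_div] at hp
  linarith only [hp]

theorem g2_1000_2000_b {w : ℝ} (a0 : 1000 / 10000 ≤ w) (b0 : w ≤ 1667 / 10000) :
    1867 / 100000 + w * ((-(2435 / 1000)) + (5457 / 1000) * w) < 1 * uu w 0 := by
  have h : NumGs.chkF
      [.sub (.mul (.q 1 1) (.uw (.var 0) (.q 0 1))) (.add (.q 1867 100000) (.mul (.var 0) (.add
      (.q (-2435) 1000) (.mul (.q 5457 1000) (.var 0)))))]
      10000 0 0 0 0 60 1000 1667 0 0 0 0 0 0
      0x4 = true := by decide +kernel
  obtain ⟨e, he, hp⟩ := NumGs.chkF4 h (by norm_num) (x := w) (y := 0) (z := 0) (w := 0)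
    (by norm_num; linarith only [a0]) (by norm_num; linarith only [b0]) (by norm_num) (by norm_num) (by norm_num)
    (by norm_num) (by norm_num) (by norm_num)
  simp only [List.mem_singleton] at he
  subst he
  simp only [NumGs.E.val, NumIs.lkR] at hp
  push_cast at hp
  simp only [zero_div] at hp
  linarith only [hp]

theorem g2_1200_1400_a {w : ℝ} (a0 : 1200 / 10000 ≤ w) (b0 : w ≤ 1400 / 10000) :
    3218 / 100000 + w * ((-(2653 / 1000)) + (6336 / 1000) * w) < 2 * uu w 0 + uu (8 / 10 - w) 0 := by
  have h : NumGs.chkF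
      [.sub (.add (.mul (.q 2 1) (.uw (.var 0) (.q 0 1))) (.uw (.sub (.q 8 10) (.var 0)) (.q 0
      1))) (.add (.q 3218 100000) (.mul (.var 0) (.add (.q (-2653) 1000) (.mul (.q 6336 1000)
      (.var 0)))))]
      10000 0 0 0 0 60 1200 1400 0 0 0 0 0 0
      0x102000810000 = true := by decide +kernel
  obtain ⟨e, he, hp⟩ := NumGs.chkF4 h (by norm_num) (x := w) (y := 0) (z := 0) (w := 0)
    (by norm_num; linarith only [a0]) (by norm_num; linarith only [b0]) (by norm_num) (by norm_num) (by norm_num)
    (by norm_num) (by norm_num) (by norm_num)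
  simp only [List.mem_singleton] at he
  subst he
  simp only [NumGs.E.val, NumIs.lkR] at hp
  push_cast at hp
  simp only [zero_div] at hp
  linarith only [hp]

theorem g2_1200_1400_b {w : ℝ} (a0 : 1200 / 10000 ≤ w) (b0 : w ≤ 1400 / 10000) :
    3218 / 100000 + w * ((-(2653 / 1000)) + (6336 / 1000) * w) < 1 * uu w 0 := by
  have h : NumGs.chkF
      [.sub (.mul (.q 1 1) (.uw (.var 0) (.q 0 1))) (.add (.q 3218 100000) (.mul (.var 0) (.add
      (.q (-2653) 1000) (.mul (.q 6336 1000) (.var 0)))))]
      10000 0 0 0 0 60 1200 1400 0 0 0 0 0 0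
      0x4 = true := by decide +kernel
  obtain ⟨e, he, hp⟩ := NumGs.chkF4 h (by norm_num) (x := w) (y := 0) (z := 0) (w := 0)
    (by norm_num; linarith only [a0]) (by norm_num; linarith only [b0]) (by norm_num) (by norm_num) (by norm_num)
    (by norm_num) (by norm_num) (by norm_num)
  simp only [List.mem_singleton] at he
  subst he
  simp only [NumGs.E.val, NumIs.lkR] at hp
  push_cast at hp
  simp only [zero_div] at hp
  linarith only [hp]

theorem g2_1400_1600_a {w : ℝ} (a0 : 1400 / 10000 ≤ w) (b0 : w ≤ 1600 / 10000) :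
    1336 / 100000 + w * ((-(2383 / 1000)) + (5368 / 1000) * w) < 2 * uu w 0 + uu (8 / 10 - w) 0 := by
  have h : NumGs.chkF
      [.sub (.add (.mul (.q 2 1) (.uw (.var 0) (.q 0 1))) (.uw (.sub (.q 8 10) (.var 0)) (.q 0
      1))) (.add (.q 1336 100000) (.mul (.var 0) (.add (.q (-2383) 1000) (.mul (.q 5368 1000)
      (.var 0)))))]
      10000 0 0 0 0 60 1400 1600 0 0 0 0 0 0
      0x102000810000 = true := by decide +kernel
  obtain ⟨e, he, hp⟩ := NumGs.chkF4 h (by norm_num) (x := w) (y := 0) (z := 0) (w := 0)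
    (by norm_num; linarith only [a0]) (by norm_num; linarith only [b0]) (by norm_num) (by norm_num) (by norm_num)
    (by norm_num) (by norm_num) (by norm_num)
  simp only [List.mem_singleton] at he
  subst he
  simp only [NumGs.E.val, NumIs.lkR] at hp
  push_cast at hp
  simp only [zero_div] at hp
  linarith only [hp]

theorem g2_1400_1600_b {w : ℝ} (a0 : 1400 / 10000 ≤ w) (b0 : w ≤ 1600 / 10000) :
    1336 / 100000 + w * ((-(2383 / 1000)) + (5368 / 1000) * w) < 1 * uu w 0 := by
  have h : NumGs.chkF
      [.sub (.mul (.q 1 1) (.uw (.var 0) (.q 0 1))) (.add (.q 1336 100000) (.mul (.var 0) (.add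
      (.q (-2383) 1000) (.mul (.q 5368 1000) (.var 0)))))]
      10000 0 0 0 0 60 1400 1600 0 0 0 0 0 0
      0x4 = true := by decide +kernel
  obtain ⟨e, he, hp⟩ := NumGs.chkF4 h (by norm_num) (x := w) (y := 0) (z := 0) (w := 0)
    (by norm_num; linarith only [a0]) (by norm_num; linarith only [b0]) (by norm_num) (by norm_num) (by norm_num)
    (by norm_num) (by norm_num) (by norm_num)
  simp only [List.mem_singleton] at he
  subst he
  simp only [NumGs.E.val, NumIs.lkR] at hp
  push_cast at hp
  simp only [zero_div] at hp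
  linarith only [hp]

theorem g2_1600_2000_a {w : ℝ} (a0 : 1600 / 10000 ≤ w) (b0 : w ≤ 2000 / 10000) :
    -(1417 / 100000) + w * ((-(2046 / 1000)) + (4336 / 1000) * w) < 2 * uu w 0 + uu (8 / 10 - w) 0 := by
  have h : NumGs.chkF
      [.sub (.add (.mul (.q 2 1) (.uw (.var 0) (.q 0 1))) (.uw (.sub (.q 8 10) (.var 0)) (.q 0
      1))) (.add (.q (-1417) 100000) (.mul (.var 0) (.add (.q (-2046) 1000) (.mul (.q 4336 1000)
      (.var 0)))))]
      10000 0 0 0 0 60 1600 2000 0 0 0 0 0 0
      0x10200081000008100040800000 = true := by decide +kernel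
  obtain ⟨e, he, hp⟩ := NumGs.chkF4 h (by norm_num) (x := w) (y := 0) (z := 0) (w := 0)
    (by norm_num; linarith only [a0]) (by norm_num; linarith only [b0]) (by norm_num) (by norm_num) (by norm_num)
    (by norm_num) (by norm_num) (by norm_num)
  simp only [List.mem_singleton] at he
  subst he
  simp only [NumGs.E.val, NumIs.lkR] at hp
  push_cast at hp
  simp only [zero_div] at hp
  linarith only [hp]

theorem g2_1600_2000_b {w : ℝ} (a0 : 1600 / 10000 ≤ w) (b0 : w ≤ 1667 / 10000) :
    -(1417 / 100000) + w * ((-(2046 / 1000)) + (4336 / 1000) * w) < 1 * uu w 0 := by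
  have h : NumGs.chkF
      [.sub (.mul (.q 1 1) (.uw (.var 0) (.q 0 1))) (.add (.q (-1417) 100000) (.mul (.var 0)
      (.add (.q (-2046) 1000) (.mul (.q 4336 1000) (.var 0)))))]
      10000 0 0 0 0 60 1600 1667 0 0 0 0 0 0
      0x4 = true := by decide +kernel
  obtain ⟨e, he, hp⟩ := NumGs.chkF4 h (by norm_num) (x := w) (y := 0) (z := 0) (w := 0)
    (by norm_num; linarith only [a0]) (by norm_num; linarith only [b0]) (by norm_num) (by norm_num) (by norm_num)
    (by norm_num) (by norm_num) (by norm_num)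
  simp only [List.mem_singleton] at he
  subst he
  simp only [NumGs.E.val, NumIs.lkR] at hp
  push_cast at hp
  simp only [zero_div] at hp
  linarith only [hp]

theorem g2_2000_3000_a {w : ℝ} (a0 : 2000 / 10000 ≤ w) (b0 : w ≤ 3000 / 10000) :
    -(7608 / 100000) + w * ((-(1453 / 1000)) + (2911 / 1000) * w) < 2 * uu w 0 + uu (8 / 10 - w) 0 := by
  have h : NumGs.chkF
      [.sub (.add (.mul (.q 2 1) (.uw (.var 0) (.q 0 1))) (.uw (.sub (.q 8 10) (.var 0)) (.q 0
      1))) (.add (.q (-7608) 100000) (.mul (.var 0) (.add (.q (-1453) 1000) (.mul (.q 2911 1000)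
      (.var 0)))))]
      10000 0 0 0 0 60 2000 3000 0 0 0 0 0 0
      0x4080020008100000810004080000408002040000000 = true := by decide +kernel
  obtain ⟨e, he, hp⟩ := NumGs.chkF4 h (by norm_num) (x := w) (y := 0) (z := 0) (w := 0)
    (by norm_num; linarith only [a0]) (by norm_num; linarith only [b0]) (by norm_num) (by norm_num) (by norm_num)
    (by norm_num) (by norm_num) (by norm_num)
  simp only [List.mem_singleton] at he
  subst he
  simp only [NumGs.E.val, NumIs.lkR] at hp
  push_cast at hp
  simp only [zero_div] at hp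
  linarith only [hp]

theorem g2_3000_4000_a {w : ℝ} (a0 : 3000 / 10000 ≤ w) (b0 : w ≤ 4000 / 10000) :
    -(16810 / 100000) + w * ((-(830 / 1000)) + (1856 / 1000) * w) < 2 * uu w 0 + uu (8 / 10 - w) 0 := by
  have h : NumGs.chkF
      [.sub (.add (.mul (.q 2 1) (.uw (.var 0) (.q 0 1))) (.uw (.sub (.q 8 10) (.var 0)) (.q 0
      1))) (.add (.q (-16810) 100000) (.mul (.var 0) (.add (.q (-830) 1000) (.mul (.q 1856 1000)
      (.var 0)))))]
      10000 0 0 0 0 60 3000 4000 0 0 0 0 0 0
      0x1020008100000810004080000408002040000000 = true := by decide +kernel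
  obtain ⟨e, he, hp⟩ := NumGs.chkF4 h (by norm_num) (x := w) (y := 0) (z := 0) (w := 0)
    (by norm_num; linarith only [a0]) (by norm_num; linarith only [b0]) (by norm_num) (by norm_num) (by norm_num)
    (by norm_num) (by norm_num) (by norm_num)
  simp only [List.mem_singleton] at he
  subst he
  simp only [NumGs.E.val, NumIs.lkR] at hp
  push_cast at hp
  simp only [zero_div] at hp
  linarith only [hp]

theorem g2_4000_4200_a {w : ℝ} (a0 : 4000 / 10000 ≤ w) (b0 : w ≤ 4200 / 10000) :
    -(22354 / 100000) + w * ((-(540 / 1000)) + (1478 / 1000) * w) < 2 * uu w 0 + uu (8 / 10 - w) 0 := by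
  have h : NumGs.chkF
      [.sub (.add (.mul (.q 2 1) (.uw (.var 0) (.q 0 1))) (.uw (.sub (.q 8 10) (.var 0)) (.q 0
      1))) (.add (.q (-22354) 100000) (.mul (.var 0) (.add (.q (-540) 1000) (.mul (.q 1478 1000)
      (.var 0)))))]
      10000 0 0 0 0 60 4000 4200 0 0 0 0 0 0
      0x10200 = true := by decide +kernel
  obtain ⟨e, he, hp⟩ := NumGs.chkF4 h (by norm_num) (x := w) (y := 0) (z := 0) (w := 0)
    (by norm_num; linarith only [a0]) (by norm_num; linarith only [b0]) (by norm_num) (by norm_num) (by norm_num)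
    (by norm_num) (by norm_num) (by norm_num)
  simp only [List.mem_singleton] at he
  subst he
  simp only [NumGs.E.val, NumIs.lkR] at hp
  push_cast at hp
  simp only [zero_div] at hp
  linarith only [hp]

theorem g2_4000_5000_a {w : ℝ} (a0 : 4000 / 10000 ≤ w) (b0 : w ≤ 5000 / 10000) :
    -(25506 / 100000) + w * ((-(391 / 1000)) + (1302 / 1000) * w) < 2 * uu w 0 + uu (8 / 10 - w) 0 := by
  have h : NumGs.chkF
      [.sub (.add (.mul (.q 2 1) (.uw (.var 0) (.q 0 1))) (.uw (.sub (.q 8 10) (.var 0)) (.q 0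
      1))) (.add (.q (-25506) 100000) (.mul (.var 0) (.add (.q (-391) 1000) (.mul (.q 1302 1000)
      (.var 0)))))]
      10000 0 0 0 0 60 4000 5000 0 0 0 0 0 0
      0x408002040000204080000408002040000000 = true := by decide +kernel
  obtain ⟨e, he, hp⟩ := NumGs.chkF4 h (by norm_num) (x := w) (y := 0) (z := 0) (w := 0)
    (by norm_num; linarith only [a0]) (by norm_num; linarith only [b0]) (by norm_num) (by norm_num) (by norm_num)
    (by norm_num) (by norm_num) (by norm_num)
  simp only [List.mem_singleton] at he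
  subst he
  simp only [NumGs.E.val, NumIs.lkR] at hp
  push_cast at hp
  simp only [zero_div] at hp
  linarith only [hp]

theorem g2_4200_4500_a {w : ℝ} (a0 : 4200 / 10000 ≤ w) (b0 : w ≤ 4500 / 10000) :
    -(24471 / 100000) + w * ((-(440 / 1000)) + (1360 / 1000) * w) < 2 * uu w 0 + uu (8 / 10 - w) 0 := by
  have h : NumGs.chkF
      [.sub (.add (.mul (.q 2 1) (.uw (.var 0) (.q 0 1))) (.uw (.sub (.q 8 10) (.var 0)) (.q 0
      1))) (.add (.q (-24471) 100000) (.mul (.var 0) (.add (.q (-440) 1000) (.mul (.q 1360 1000)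
      (.var 0)))))]
      10000 0 0 0 0 60 4200 4500 0 0 0 0 0 0
      0x102000810000 = true := by decide +kernel
  obtain ⟨e, he, hp⟩ := NumGs.chkF4 h (by norm_num) (x := w) (y := 0) (z := 0) (w := 0)
    (by norm_num; linarith only [a0]) (by norm_num; linarith only [b0]) (by norm_num) (by norm_num) (by norm_num)
    (by norm_num) (by norm_num) (by norm_num)
  simp only [List.mem_singleton] at he
  subst he
  simp only [NumGs.E.val, NumIs.lkR] at hp
  push_cast at hp
  simp only [zero_div] at hp
  linarith only [hp]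

theorem g2_4500_4700_a {w : ℝ} (a0 : 4500 / 10000 ≤ w) (b0 : w ≤ 4700 / 10000) :
    -(26495 / 100000) + w * ((-(350 / 1000)) + (1260 / 1000) * w) < 2 * uu w 0 + uu (8 / 10 - w) 0 := by
  have h : NumGs.chkF
      [.sub (.add (.mul (.q 2 1) (.uw (.var 0) (.q 0 1))) (.uw (.sub (.q 8 10) (.var 0)) (.q 0
      1))) (.add (.q (-26495) 100000) (.mul (.var 0) (.add (.q (-350) 1000) (.mul (.q 1260 1000)
      (.var 0)))))]
      10000 0 0 0 0 60 4500 4700 0 0 0 0 0 0
      0x10200 = true := by decide +kernel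
  obtain ⟨e, he, hp⟩ := NumGs.chkF4 h (by norm_num) (x := w) (y := 0) (z := 0) (w := 0)
    (by norm_num; linarith only [a0]) (by norm_num; linarith only [b0]) (by norm_num) (by norm_num) (by norm_num)
    (by norm_num) (by norm_num) (by norm_num)
  simp only [List.mem_singleton] at he
  subst he
  simp only [NumGs.E.val, NumIs.lkR] at hp
  push_cast at hp
  simp only [zero_div] at hp
  linarith only [hp]

theorem g2_4700_5000_a {w : ℝ} (a0 : 4700 / 10000 ≤ w) (b0 : w ≤ 5000 / 10000) :
    -(28253 / 100000) + w * ((-(275 / 1000)) + (1180 / 1000) * w) < 2 * uu w 0 + uu (8 / 10 - w) 0 := by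
  have h : NumGs.chkF
      [.sub (.add (.mul (.q 2 1) (.uw (.var 0) (.q 0 1))) (.uw (.sub (.q 8 10) (.var 0)) (.q 0
      1))) (.add (.q (-28253) 100000) (.mul (.var 0) (.add (.q (-275) 1000) (.mul (.q 1180 1000)
      (.var 0)))))]
      10000 0 0 0 0 60 4700 5000 0 0 0 0 0 0
      0x102000810000 = true := by decide +kernel
  obtain ⟨e, he, hp⟩ := NumGs.chkF4 h (by norm_num) (x := w) (y := 0) (z := 0) (w := 0)
    (by norm_num; linarith only [a0]) (by norm_num; linarith only [b0]) (by norm_num) (by norm_num) (by norm_num)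
    (by norm_num) (by norm_num) (by norm_num)
  simp only [List.mem_singleton] at he
  subst he
  simp only [NumGs.E.val, NumIs.lkR] at hp
  push_cast at hp
  simp only [zero_div] at hp
  linarith only [hp]

theorem g2_5000_5200_a {w : ℝ} (a0 : 5000 / 10000 ≤ w) (b0 : w ≤ 5200 / 10000) :
    -(29776 / 100000) + w * ((-(214 / 1000)) + (1119 / 1000) * w) < 2 * uu w 0 + uu (8 / 10 - w) 0 := by
  have h : NumGs.chkF
      [.sub (.add (.mul (.q 2 1) (.uw (.var 0) (.q 0 1))) (.uw (.sub (.q 8 10) (.var 0)) (.q 0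
      1))) (.add (.q (-29776) 100000) (.mul (.var 0) (.add (.q (-214) 1000) (.mul (.q 1119 1000)
      (.var 0)))))]
      10000 0 0 0 0 60 5000 5200 0 0 0 0 0 0
      0x10200 = true := by decide +kernel
  obtain ⟨e, he, hp⟩ := NumGs.chkF4 h (by norm_num) (x := w) (y := 0) (z := 0) (w := 0)
    (by norm_num; linarith only [a0]) (by norm_num; linarith only [b0]) (by norm_num) (by norm_num) (by norm_num)
    (by norm_num) (by norm_num) (by norm_num)
  simp only [List.mem_singleton] at he
  subst he
  simp only [NumGs.E.val, NumIs.lkR] at hp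
  push_cast at hp
  simp only [zero_div] at hp
  linarith only [hp]

theorem g2_5000_6500_a {w : ℝ} (a0 : 5000 / 10000 ≤ w) (b0 : w ≤ 6334 / 10000) :
    -(30650 / 100000) + w * ((-(182 / 1000)) + (1088 / 1000) * w) < 2 * uu w 0 + uu (8 / 10 - w) 0 := by
  have h : NumGs.chkF
      [.sub (.add (.mul (.q 2 1) (.uw (.var 0) (.q 0 1))) (.uw (.sub (.q 8 10) (.var 0)) (.q 0
      1))) (.add (.q (-30650) 100000) (.mul (.var 0) (.add (.q (-182) 1000) (.mul (.q 1088 1000)
      (.var 0)))))]
      10000 0 0 0 0 60 5000 6334 0 0 0 0 0 0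
      0x10200081000008100040800000 = true := by decide +kernel
  obtain ⟨e, he, hp⟩ := NumGs.chkF4 h (by norm_num) (x := w) (y := 0) (z := 0) (w := 0)
    (by norm_num; linarith only [a0]) (by norm_num; linarith only [b0]) (by norm_num) (by norm_num) (by norm_num)
    (by norm_num) (by norm_num) (by norm_num)
  simp only [List.mem_singleton] at he
  subst he
  simp only [NumGs.E.val, NumIs.lkR] at hp
  push_cast at hp
  simp only [zero_div] at hp
  linarith only [hp]

theorem g2_5000_6500_c {w : ℝ} (a0 : 6333 / 10000 ≤ w) (b0 : w ≤ 6500 / 10000) :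
    -(30650 / 100000) + w * ((-(182 / 1000)) + (1088 / 1000) * w) < 2 * uu w 0 + -(1616 / 10000) := by
  have h : NumGs.chkF
      [.sub (.add (.mul (.q 2 1) (.uw (.var 0) (.q 0 1))) (.q (-1616) 10000)) (.add (.q (-30650)
      100000) (.mul (.var 0) (.add (.q (-182) 1000) (.mul (.q 1088 1000) (.var 0)))))]
      10000 0 0 0 0 60 6333 6500 0 0 0 0 0 0
      0x4 = true := by decide +kernel
  obtain ⟨e, he, hp⟩ := NumGs.chkF4 h (by norm_num) (x := w) (y := 0) (z := 0) (w := 0)
    (by norm_num; linarith only [a0]) (by norm_num; linarith only [b0]) (by norm_num) (by norm_num) (by norm_num)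
    (by norm_num) (by norm_num) (by norm_num)
  simp only [List.mem_singleton] at he
  subst he
  simp only [NumGs.E.val, NumIs.lkR] at hp
  push_cast at hp
  simp only [zero_div] at hp
  linarith only [hp]

theorem g2_5200_5500_a {w : ℝ} (a0 : 5200 / 10000 ≤ w) (b0 : w ≤ 5500 / 10000) :
    -(30726 / 100000) + w * ((-(177 / 1000)) + (1083 / 1000) * w) < 2 * uu w 0 + uu (8 / 10 - w) 0 := by
  have h : NumGs.chkF
      [.sub (.add (.mul (.q 2 1) (.uw (.var 0) (.q 0 1))) (.uw (.sub (.q 8 10) (.var 0)) (.q 0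
      1))) (.add (.q (-30726) 100000) (.mul (.var 0) (.add (.q (-177) 1000) (.mul (.q 1083 1000)
      (.var 0)))))]
      10000 0 0 0 0 60 5200 5500 0 0 0 0 0 0
      0x102000810000 = true := by decide +kernel
  obtain ⟨e, he, hp⟩ := NumGs.chkF4 h (by norm_num) (x := w) (y := 0) (z := 0) (w := 0)
    (by norm_num; linarith only [a0]) (by norm_num; linarith only [b0]) (by norm_num) (by norm_num) (by norm_num)
    (by norm_num) (by norm_num) (by norm_num)
  simp only [List.mem_singleton] at he
  subst he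
  simp only [NumGs.E.val, NumIs.lkR] at hp
  push_cast at hp
  simp only [zero_div] at hp
  linarith only [hp]

theorem g2_5500_6500_a {w : ℝ} (a0 : 5500 / 10000 ≤ w) (b0 : w ≤ 6334 / 10000) :
    -(31368 / 100000) + w * ((-(156 / 1000)) + (1065 / 1000) * w) < 2 * uu w 0 + uu (8 / 10 - w) 0 := by
  have h : NumGs.chkF
      [.sub (.add (.mul (.q 2 1) (.uw (.var 0) (.q 0 1))) (.uw (.sub (.q 8 10) (.var 0)) (.q 0
      1))) (.add (.q (-31368) 100000) (.mul (.var 0) (.add (.q (-156) 1000) (.mul (.q 1065 1000)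
      (.var 0)))))]
      10000 0 0 0 0 60 5500 6334 0 0 0 0 0 0
      0x1020008100000810000 = true := by decide +kernel
  obtain ⟨e, he, hp⟩ := NumGs.chkF4 h (by norm_num) (x := w) (y := 0) (z := 0) (w := 0)
    (by norm_num; linarith only [a0]) (by norm_num; linarith only [b0]) (by norm_num) (by norm_num) (by norm_num)
    (by norm_num) (by norm_num) (by norm_num)
  simp only [List.mem_singleton] at he
  subst he
  simp only [NumGs.E.val, NumIs.lkR] at hp
  push_cast at hp
  simp only [zero_div] at hp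
  linarith only [hp]

theorem g2_5500_6500_c {w : ℝ} (a0 : 6333 / 10000 ≤ w) (b0 : w ≤ 6500 / 10000) :
    -(31368 / 100000) + w * ((-(156 / 1000)) + (1065 / 1000) * w) < 2 * uu w 0 + -(1616 / 10000) := by
  have h : NumGs.chkF
      [.sub (.add (.mul (.q 2 1) (.uw (.var 0) (.q 0 1))) (.q (-1616) 10000)) (.add (.q (-31368)
      100000) (.mul (.var 0) (.add (.q (-156) 1000) (.mul (.q 1065 1000) (.var 0)))))]
      10000 0 0 0 0 60 6333 6500 0 0 0 0 0 0
      0x4 = true := by decide +kernel
  obtain ⟨e, he, hp⟩ := NumGs.chkF4 h (by norm_num) (x := w) (y := 0) (z := 0) (w := 0)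
    (by norm_num; linarith only [a0]) (by norm_num; linarith only [b0]) (by norm_num) (by norm_num) (by norm_num)
    (by norm_num) (by norm_num) (by norm_num)
  simp only [List.mem_singleton] at he
  subst he
  simp only [NumGs.E.val, NumIs.lkR] at hp
  push_cast at hp
  simp only [zero_div] at hp
  linarith only [hp]

theorem g3_200_500_a {w : ℝ} (a0 : 200 / 10000 ≤ w) (b0 : w ≤ 500 / 10000) :
    -(3288 / 100000) + w * ((-(5122 / 1000)) + (29151 / 1000) * w) < 3 * uu w 0 + uu (8 / 10 - w) 0 := by
  have h : NumGs.chkF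
      [.sub (.add (.mul (.q 3 1) (.uw (.var 0) (.q 0 1))) (.uw (.sub (.q 8 10) (.var 0)) (.q 0
      1))) (.add (.q (-3288) 100000) (.mul (.var 0) (.add (.q (-5122) 1000) (.mul (.q 29151 1000)
      (.var 0)))))]
      10000 0 0 0 0 60 200 500 0 0 0 0 0 0
      0x4 = true := by decide +kernel
  obtain ⟨e, he, hp⟩ := NumGs.chkF4 h (by norm_num) (x := w) (y := 0) (z := 0) (w := 0)
    (by norm_num; linarith only [a0]) (by norm_num; linarith only [b0]) (by norm_num) (by norm_num) (by norm_num)
    (by norm_num) (by norm_num) (by norm_num)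
  simp only [List.mem_singleton] at he
  subst he
  simp only [NumGs.E.val, NumIs.lkR] at hp
  push_cast at hp
  simp only [zero_div] at hp
  linarith only [hp]

theorem g3_200_500_b {w : ℝ} (a0 : 200 / 10000 ≤ w) (b0 : w ≤ 500 / 10000) :
    -(3288 / 100000) + w * ((-(5122 / 1000)) + (29151 / 1000) * w) < 2 * uu w 0 := by
  have h : NumGs.chkF
      [.sub (.mul (.q 2 1) (.uw (.var 0) (.q 0 1))) (.add (.q (-3288) 100000) (.mul (.var 0)
      (.add (.q (-5122) 1000) (.mul (.q 29151 1000) (.var 0)))))]
      10000 0 0 0 0 60 200 500 0 0 0 0 0 0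
      0x1020008100000810004080000408002040000000 = true := by decide +kernel
  obtain ⟨e, he, hp⟩ := NumGs.chkF4 h (by norm_num) (x := w) (y := 0) (z := 0) (w := 0)
    (by norm_num; linarith only [a0]) (by norm_num; linarith only [b0]) (by norm_num) (by norm_num) (by norm_num)
    (by norm_num) (by norm_num) (by norm_num)
  simp only [List.mem_singleton] at he
  subst he
  simp only [NumGs.E.val, NumIs.lkR] at hp
  push_cast at hp
  simp only [zero_div] at hp
  linarith only [hp]

theorem g3_500_600_a {w : ℝ} (a0 : 500 / 10000 ≤ w) (b0 : w ≤ 600 / 10000) :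
    -(5508 / 100000) + w * ((-(4120 / 1000)) + (18019 / 1000) * w) < 3 * uu w 0 + uu (8 / 10 - w) 0 := by
  have h : NumGs.chkF
      [.sub (.add (.mul (.q 3 1) (.uw (.var 0) (.q 0 1))) (.uw (.sub (.q 8 10) (.var 0)) (.q 0
      1))) (.add (.q (-5508) 100000) (.mul (.var 0) (.add (.q (-4120) 1000) (.mul (.q 18019 1000)
      (.var 0)))))]
      10000 0 0 0 0 60 500 600 0 0 0 0 0 0
      0x4 = true := by decide +kernel
  obtain ⟨e, he, hp⟩ := NumGs.chkF4 h (by norm_num) (x := w) (y := 0) (z := 0) (w := 0)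
    (by norm_num; linarith only [a0]) (by norm_num; linarith only [b0]) (by norm_num) (by norm_num) (by norm_num)
    (by norm_num) (by norm_num) (by norm_num)
  simp only [List.mem_singleton] at he
  subst he
  simp only [NumGs.E.val, NumIs.lkR] at hp
  push_cast at hp
  simp only [zero_div] at hp
  linarith only [hp]

theorem g3_500_600_b {w : ℝ} (a0 : 500 / 10000 ≤ w) (b0 : w ≤ 600 / 10000) :
    -(5508 / 100000) + w * ((-(4120 / 1000)) + (18019 / 1000) * w) < 2 * uu w 0 := by
  have h : NumGs.chkF
      [.sub (.mul (.q 2 1) (.uw (.var 0) (.q 0 1))) (.add (.q (-5508) 100000) (.mul (.var 0)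
      (.add (.q (-4120) 1000) (.mul (.q 18019 1000) (.var 0)))))]
      10000 0 0 0 0 60 500 600 0 0 0 0 0 0
      0x102000810000 = true := by decide +kernel
  obtain ⟨e, he, hp⟩ := NumGs.chkF4 h (by norm_num) (x := w) (y := 0) (z := 0) (w := 0)
    (by norm_num; linarith only [a0]) (by norm_num; linarith only [b0]) (by norm_num) (by norm_num) (by norm_num)
    (by norm_num) (by norm_num) (by norm_num)
  simp only [List.mem_singleton] at he
  subst he
  simp only [NumGs.E.val, NumIs.lkR] at hp
  push_cast at hp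
  simp only [zero_div] at hp
  linarith only [hp]

theorem g3_500_1000_a {w : ℝ} (a0 : 500 / 10000 ≤ w) (b0 : w ≤ 1000 / 10000) :
    -(15534 / 100000) + w * ((-(964 / 1000)) + (-(6827 / 1000)) * w) < 3 * uu w 0 + uu (8 / 10 - w) 0 := by
  have h : NumGs.chkF
      [.sub (.add (.mul (.q 3 1) (.uw (.var 0) (.q 0 1))) (.uw (.sub (.q 8 10) (.var 0)) (.q 0
      1))) (.add (.q (-15534) 100000) (.mul (.var 0) (.add (.q (-964) 1000) (.mul (.q (-6827)
      1000) (.var 0)))))]
      10000 0 0 0 0 60 500 1000 0 0 0 0 0 0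
      0x102000810000 = true := by decide +kernel
  obtain ⟨e, he, hp⟩ := NumGs.chkF4 h (by norm_num) (x := w) (y := 0) (z := 0) (w := 0)
    (by norm_num; linarith only [a0]) (by norm_num; linarith only [b0]) (by norm_num) (by norm_num) (by norm_num)
    (by norm_num) (by norm_num) (by norm_num)
  simp only [List.mem_singleton] at he
  subst he
  simp only [NumGs.E.val, NumIs.lkR] at hp
  push_cast at hp
  simp only [zero_div] at hp
  linarith only [hp]

theorem g3_500_1000_b {w : ℝ} (a0 : 500 / 10000 ≤ w) (b0 : w ≤ 1000 / 10000) :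
    -(15534 / 100000) + w * ((-(964 / 1000)) + (-(6827 / 1000)) * w) < 2 * uu w 0 := by
  have h : NumGs.chkF
      [.sub (.mul (.q 2 1) (.uw (.var 0) (.q 0 1))) (.add (.q (-15534) 100000) (.mul (.var 0)
      (.add (.q (-964) 1000) (.mul (.q (-6827) 1000) (.var 0)))))]
      10000 0 0 0 0 60 500 1000 0 0 0 0 0 0
      0x10200081020000102000800000 = true := by decide +kernel
  obtain ⟨e, he, hp⟩ := NumGs.chkF4 h (by norm_num) (x := w) (y := 0) (z := 0) (w := 0)
    (by norm_num; linarith only [a0]) (by norm_num; linarith only [b0]) (by norm_num) (by norm_num) (by norm_num)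
    (by norm_num) (by norm_num) (by norm_num)
  simp only [List.mem_singleton] at he
  subst he
  simp only [NumGs.E.val, NumIs.lkR] at hp
  push_cast at hp
  simp only [zero_div] at hp
  linarith only [hp]

theorem g3_600_700_a {w : ℝ} (a0 : 600 / 10000 ≤ w) (b0 : w ≤ 700 / 10000) :
    -(6526 / 100000) + w * ((-(3780 / 1000)) + (15181 / 1000) * w) < 3 * uu w 0 + uu (8 / 10 - w) 0 := by
  have h : NumGs.chkF
      [.sub (.add (.mul (.q 3 1) (.uw (.var 0) (.q 0 1))) (.uw (.sub (.q 8 10) (.var 0)) (.q 0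
      1))) (.add (.q (-6526) 100000) (.mul (.var 0) (.add (.q (-3780) 1000) (.mul (.q 15181 1000)
      (.var 0)))))]
      10000 0 0 0 0 60 600 700 0 0 0 0 0 0
      0x4 = true := by decide +kernel
  obtain ⟨e, he, hp⟩ := NumGs.chkF4 h (by norm_num) (x := w) (y := 0) (z := 0) (w := 0)
    (by norm_num; linarith only [a0]) (by norm_num; linarith only [b0]) (by norm_num) (by norm_num) (by norm_num)
    (by norm_num) (by norm_num) (by norm_num)
  simp only [List.mem_singleton] at he
  subst he
  simp only [NumGs.E.val, NumIs.lkR] at hp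
  push_cast at hp
  simp only [zero_div] at hp
  linarith only [hp]

theorem g3_600_700_b {w : ℝ} (a0 : 600 / 10000 ≤ w) (b0 : w ≤ 700 / 10000) :
    -(6526 / 100000) + w * ((-(3780 / 1000)) + (15181 / 1000) * w) < 2 * uu w 0 := by
  have h : NumGs.chkF
      [.sub (.mul (.q 2 1) (.uw (.var 0) (.q 0 1))) (.add (.q (-6526) 100000) (.mul (.var 0)
      (.add (.q (-3780) 1000) (.mul (.q 15181 1000) (.var 0)))))]
      10000 0 0 0 0 60 600 700 0 0 0 0 0 0
      0x102000810000 = true := by decide +kernel
  obtain ⟨e, he, hp⟩ := NumGs.chkF4 h (by norm_num) (x := w) (y := 0) (z := 0) (w := 0)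
    (by norm_num; linarith only [a0]) (by norm_num; linarith only [b0]) (by norm_num) (by norm_num) (by norm_num)
    (by norm_num) (by norm_num) (by norm_num)
  simp only [List.mem_singleton] at he
  subst he
  simp only [NumGs.E.val, NumIs.lkR] at hp
  push_cast at hp
  simp only [zero_div] at hp
  linarith only [hp]

theorem g3_700_785_a {w : ℝ} (a0 : 700 / 10000 ≤ w) (b0 : w ≤ 785 / 10000) :
    -(7466 / 100000) + w * ((-(3509 / 1000)) + (13228 / 1000) * w) < 3 * uu w 0 + uu (8 / 10 - w) 0 := by
  have h : NumGs.chkF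
      [.sub (.add (.mul (.q 3 1) (.uw (.var 0) (.q 0 1))) (.uw (.sub (.q 8 10) (.var 0)) (.q 0
      1))) (.add (.q (-7466) 100000) (.mul (.var 0) (.add (.q (-3509) 1000) (.mul (.q 13228 1000)
      (.var 0)))))]
      10000 0 0 0 0 60 700 785 0 0 0 0 0 0
      0x10200 = true := by decide +kernel
  obtain ⟨e, he, hp⟩ := NumGs.chkF4 h (by norm_num) (x := w) (y := 0) (z := 0) (w := 0)
    (by norm_num; linarith only [a0]) (by norm_num; linarith only [b0]) (by norm_num) (by norm_num) (by norm_num)
    (by norm_num) (by norm_num) (by norm_num)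
  simp only [List.mem_singleton] at he
  subst he
  simp only [NumGs.E.val, NumIs.lkR] at hp
  push_cast at hp
  simp only [zero_div] at hp
  linarith only [hp]

theorem g3_700_785_b {w : ℝ} (a0 : 700 / 10000 ≤ w) (b0 : w ≤ 785 / 10000) :
    -(7466 / 100000) + w * ((-(3509 / 1000)) + (13228 / 1000) * w) < 2 * uu w 0 := by
  have h : NumGs.chkF
      [.sub (.mul (.q 2 1) (.uw (.var 0) (.q 0 1))) (.add (.q (-7466) 100000) (.mul (.var 0)
      (.add (.q (-3509) 1000) (.mul (.q 13228 1000) (.var 0)))))]
      10000 0 0 0 0 60 700 785 0 0 0 0 0 0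
      0x102000810000 = true := by decide +kernel
  obtain ⟨e, he, hp⟩ := NumGs.chkF4 h (by norm_num) (x := w) (y := 0) (z := 0) (w := 0)
    (by norm_num; linarith only [a0]) (by norm_num; linarith only [b0]) (by norm_num) (by norm_num) (by norm_num)
    (by norm_num) (by norm_num) (by norm_num)
  simp only [List.mem_singleton] at he
  subst he
  simp only [NumGs.E.val, NumIs.lkR] at hp
  push_cast at hp
  simp only [zero_div] at hp
  linarith only [hp]

theorem g3_785_1000_a {w : ℝ} (a0 : 785 / 10000 ≤ w) (b0 : w ≤ 1000 / 10000) :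
    2603 / 100000 + w * ((-(4944 / 1000)) + (15169 / 1000) * w) < 3 * uu w 0 + uu (8 / 10 - w) 0 := by
  have h : NumGs.chkF
      [.sub (.add (.mul (.q 3 1) (.uw (.var 0) (.q 0 1))) (.uw (.sub (.q 8 10) (.var 0)) (.q 0
      1))) (.add (.q 2603 100000) (.mul (.var 0) (.add (.q (-4944) 1000) (.mul (.q 15169 1000)
      (.var 0)))))]
      10000 0 0 0 0 60 785 1000 0 0 0 0 0 0
      0x102000810000 = true := by decide +kernel
  obtain ⟨e, he, hp⟩ := NumGs.chkF4 h (by norm_num) (x := w) (y := 0) (z := 0) (w := 0)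
    (by norm_num; linarith only [a0]) (by norm_num; linarith only [b0]) (by norm_num) (by norm_num) (by norm_num)
    (by norm_num) (by norm_num) (by norm_num)
  simp only [List.mem_singleton] at he
  subst he
  simp only [NumGs.E.val, NumIs.lkR] at hp
  push_cast at hp
  simp only [zero_div] at hp
  linarith only [hp]

theorem g3_785_1000_b {w : ℝ} (a0 : 785 / 10000 ≤ w) (b0 : w ≤ 1000 / 10000) :
    2603 / 100000 + w * ((-(4944 / 1000)) + (15169 / 1000) * w) < 2 * uu w 0 := by
  have h : NumGs.chkF
      [.sub (.mul (.q 2 1) (.uw (.var 0) (.q 0 1))) (.add (.q 2603 100000) (.mul (.var 0) (.add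
      (.q (-4944) 1000) (.mul (.q 15169 1000) (.var 0)))))]
      10000 0 0 0 0 60 785 1000 0 0 0 0 0 0
      0x102040800000 = true := by decide +kernel
  obtain ⟨e, he, hp⟩ := NumGs.chkF4 h (by norm_num) (x := w) (y := 0) (z := 0) (w := 0)
    (by norm_num; linarith only [a0]) (by norm_num; linarith only [b0]) (by norm_num) (by norm_num) (by norm_num)
    (by norm_num) (by norm_num) (by norm_num)
  simp only [List.mem_singleton] at he
  subst he
  simp only [NumGs.E.val, NumIs.lkR] at hp
  push_cast at hp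
  simp only [zero_div] at hp
  linarith only [hp]

theorem g3_1000_1200_a {w : ℝ} (a0 : 1000 / 10000 ≤ w) (b0 : w ≤ 1200 / 10000) :
    -(433 / 100000) + w * ((-(4323 / 1000)) + (12035 / 1000) * w) < 3 * uu w 0 + uu (8 / 10 - w) 0 := by
  have h : NumGs.chkF
      [.sub (.add (.mul (.q 3 1) (.uw (.var 0) (.q 0 1))) (.uw (.sub (.q 8 10) (.var 0)) (.q 0
      1))) (.add (.q (-433) 100000) (.mul (.var 0) (.add (.q (-4323) 1000) (.mul (.q 12035 1000)
      (.var 0)))))]
      10000 0 0 0 0 60 1000 1200 0 0 0 0 0 0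
      0x10200081000008100040800000 = true := by decide +kernel
  obtain ⟨e, he, hp⟩ := NumGs.chkF4 h (by norm_num) (x := w) (y := 0) (z := 0) (w := 0)
    (by norm_num; linarith only [a0]) (by norm_num; linarith only [b0]) (by norm_num) (by norm_num) (by norm_num)
    (by norm_num) (by norm_num) (by norm_num)
  simp only [List.mem_singleton] at he
  subst he
  simp only [NumGs.E.val, NumIs.lkR] at hp
  push_cast at hp
  simp only [zero_div] at hp
  linarith only [hp]

theorem g3_1000_1200_b {w : ℝ} (a0 : 1000 / 10000 ≤ w) (b0 : w ≤ 1200 / 10000) :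
    -(433 / 100000) + w * ((-(4323 / 1000)) + (12035 / 1000) * w) < 2 * uu w 0 := by
  have h : NumGs.chkF
      [.sub (.mul (.q 2 1) (.uw (.var 0) (.q 0 1))) (.add (.q (-433) 100000) (.mul (.var 0) (.add
      (.q (-4323) 1000) (.mul (.q 12035 1000) (.var 0)))))]
      10000 0 0 0 0 60 1000 1200 0 0 0 0 0 0
      0x4 = true := by decide +kernel
  obtain ⟨e, he, hp⟩ := NumGs.chkF4 h (by norm_num) (x := w) (y := 0) (z := 0) (w := 0)
    (by norm_num; linarith only [a0]) (by norm_num; linarith only [b0]) (by norm_num) (by norm_num) (by norm_num)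
    (by norm_num) (by norm_num) (by norm_num)
  simp only [List.mem_singleton] at he
  subst he
  simp only [NumGs.E.val, NumIs.lkR] at hp
  push_cast at hp
  simp only [zero_div] at hp
  linarith only [hp]

theorem g3_1000_2000_a {w : ℝ} (a0 : 1000 / 10000 ≤ w) (b0 : w ≤ 2000 / 10000) :
    -(5515 / 100000) + w * ((-(3486 / 1000)) + (8588 / 1000) * w) < 3 * uu w 0 + uu (8 / 10 - w) 0 := by
  have h : NumGs.chkF
      [.sub (.add (.mul (.q 3 1) (.uw (.var 0) (.q 0 1))) (.uw (.sub (.q 8 10) (.var 0)) (.q 0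
      1))) (.add (.q (-5515) 100000) (.mul (.var 0) (.add (.q (-3486) 1000) (.mul (.q 8588 1000)
      (.var 0)))))]
      10000 0 0 0 0 60 1000 2000 0 0 0 0 0 0
      0x408002000810000081000408002040000004080020400002040000000 = true := by decide +kernel
  obtain ⟨e, he, hp⟩ := NumGs.chkF4 h (by norm_num) (x := w) (y := 0) (z := 0) (w := 0)
    (by norm_num; linarith only [a0]) (by norm_num; linarith only [b0]) (by norm_num) (by norm_num) (by norm_num)
    (by norm_num) (by norm_num) (by norm_num)
  simp only [List.mem_singleton] at he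
  subst he
  simp only [NumGs.E.val, NumIs.lkR] at hp
  push_cast at hp
  simp only [zero_div] at hp
  linarith only [hp]

theorem g3_1000_2000_b {w : ℝ} (a0 : 1000 / 10000 ≤ w) (b0 : w ≤ 1667 / 10000) :
    -(5515 / 100000) + w * ((-(3486 / 1000)) + (8588 / 1000) * w) < 2 * uu w 0 := by
  have h : NumGs.chkF
      [.sub (.mul (.q 2 1) (.uw (.var 0) (.q 0 1))) (.add (.q (-5515) 100000) (.mul (.var 0)
      (.add (.q (-3486) 1000) (.mul (.q 8588 1000) (.var 0)))))]
      10000 0 0 0 0 60 1000 1667 0 0 0 0 0 0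
      0x4 = true := by decide +kernel
  obtain ⟨e, he, hp⟩ := NumGs.chkF4 h (by norm_num) (x := w) (y := 0) (z := 0) (w := 0)
    (by norm_num; linarith only [a0]) (by norm_num; linarith only [b0]) (by norm_num) (by norm_num) (by norm_num)
    (by norm_num) (by norm_num) (by norm_num)
  simp only [List.mem_singleton] at he
  subst he
  simp only [NumGs.E.val, NumIs.lkR] at hp
  push_cast at hp
  simp only [zero_div] at hp
  linarith only [hp]

theorem g3_1200_1600_a {w : ℝ} (a0 : 1200 / 10000 ≤ w) (b0 : w ≤ 1600 / 10000) :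
    -(4750 / 100000) + w * ((-(3621 / 1000)) + (9177 / 1000) * w) < 3 * uu w 0 + uu (8 / 10 - w) 0 := by
  have h : NumGs.chkF
      [.sub (.add (.mul (.q 3 1) (.uw (.var 0) (.q 0 1))) (.uw (.sub (.q 8 10) (.var 0)) (.q 0
      1))) (.add (.q (-4750) 100000) (.mul (.var 0) (.add (.q (-3621) 1000) (.mul (.q 9177 1000)
      (.var 0)))))]
      10000 0 0 0 0 60 1200 1600 0 0 0 0 0 0
      0x1020008100000810004080000408002040000000 = true := by decide +kernel
  obtain ⟨e, he, hp⟩ := NumGs.chkF4 h (by norm_num) (x := w) (y := 0) (z := 0) (w := 0)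
    (by norm_num; linarith only [a0]) (by norm_num; linarith only [b0]) (by norm_num) (by norm_num) (by norm_num)
    (by norm_num) (by norm_num) (by norm_num)
  simp only [List.mem_singleton] at he
  subst he
  simp only [NumGs.E.val, NumIs.lkR] at hp
  push_cast at hp
  simp only [zero_div] at hp
  linarith only [hp]

theorem g3_1200_1600_b {w : ℝ} (a0 : 1200 / 10000 ≤ w) (b0 : w ≤ 1600 / 10000) :
    -(4750 / 100000) + w * ((-(3621 / 1000)) + (9177 / 1000) * w) < 2 * uu w 0 := by
  have h : NumGs.chkF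
      [.sub (.mul (.q 2 1) (.uw (.var 0) (.q 0 1))) (.add (.q (-4750) 100000) (.mul (.var 0)
      (.add (.q (-3621) 1000) (.mul (.q 9177 1000) (.var 0)))))]
      10000 0 0 0 0 60 1200 1600 0 0 0 0 0 0
      0x4 = true := by decide +kernel
  obtain ⟨e, he, hp⟩ := NumGs.chkF4 h (by norm_num) (x := w) (y := 0) (z := 0) (w := 0)
    (by norm_num; linarith only [a0]) (by norm_num; linarith only [b0]) (by norm_num) (by norm_num) (by norm_num)
    (by norm_num) (by norm_num) (by norm_num)
  simp only [List.mem_singleton] at he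
  subst he
  simp only [NumGs.E.val, NumIs.lkR] at hp
  push_cast at hp
  simp only [zero_div] at hp
  linarith only [hp]

theorem g3_1600_2000_a {w : ℝ} (a0 : 1600 / 10000 ≤ w) (b0 : w ≤ 2000 / 10000) :
    -(10692 / 100000) + w * ((-(2872 / 1000)) + (6816 / 1000) * w) < 3 * uu w 0 + uu (8 / 10 - w) 0 := by
  have h : NumGs.chkF
      [.sub (.add (.mul (.q 3 1) (.uw (.var 0) (.q 0 1))) (.uw (.sub (.q 8 10) (.var 0)) (.q 0
      1))) (.add (.q (-10692) 100000) (.mul (.var 0) (.add (.q (-2872) 1000) (.mul (.q 6816 1000)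
      (.var 0)))))]
      10000 0 0 0 0 60 1600 2000 0 0 0 0 0 0
      0x10200081000008100040800000 = true := by decide +kernel
  obtain ⟨e, he, hp⟩ := NumGs.chkF4 h (by norm_num) (x := w) (y := 0) (z := 0) (w := 0)
    (by norm_num; linarith only [a0]) (by norm_num; linarith only [b0]) (by norm_num) (by norm_num) (by norm_num)
    (by norm_num) (by norm_num) (by norm_num)
  simp only [List.mem_singleton] at he
  subst he
  simp only [NumGs.E.val, NumIs.lkR] at hp
  push_cast at hp
  simp only [zero_div] at hp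
  linarith only [hp]

theorem g3_1600_2000_b {w : ℝ} (a0 : 1600 / 10000 ≤ w) (b0 : w ≤ 1667 / 10000) :
    -(10692 / 100000) + w * ((-(2872 / 1000)) + (6816 / 1000) * w) < 2 * uu w 0 := by
  have h : NumGs.chkF
      [.sub (.mul (.q 2 1) (.uw (.var 0) (.q 0 1))) (.add (.q (-10692) 100000) (.mul (.var 0)
      (.add (.q (-2872) 1000) (.mul (.q 6816 1000) (.var 0)))))]
      10000 0 0 0 0 60 1600 1667 0 0 0 0 0 0
      0x4 = true := by decide +kernel
  obtain ⟨e, he, hp⟩ := NumGs.chkF4 h (by norm_num) (x := w) (y := 0) (z := 0) (w := 0)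
    (by norm_num; linarith only [a0]) (by norm_num; linarith only [b0]) (by norm_num) (by norm_num) (by norm_num)
    (by norm_num) (by norm_num) (by norm_num)
  simp only [List.mem_singleton] at he
  subst he
  simp only [NumGs.E.val, NumIs.lkR] at hp
  push_cast at hp
  simp only [zero_div] at hp
  linarith only [hp]

theorem g3_2000_3000_a {w : ℝ} (a0 : 2000 / 10000 ≤ w) (b0 : w ≤ 3000 / 10000) :
    -(20828 / 100000) + w * ((-(1903 / 1000)) + (4492 / 1000) * w) < 3 * uu w 0 + uu (8 / 10 - w) 0 := by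
  have h : NumGs.chkF
      [.sub (.add (.mul (.q 3 1) (.uw (.var 0) (.q 0 1))) (.uw (.sub (.q 8 10) (.var 0)) (.q 0
      1))) (.add (.q (-20828) 100000) (.mul (.var 0) (.add (.q (-1903) 1000) (.mul (.q 4492 1000)
      (.var 0)))))]
      10000 0 0 0 0 60 2000 3000 0 0 0 0 0 0
      0x10200080020400002040010200001020008002040000000 = true := by decide +kernel
  obtain ⟨e, he, hp⟩ := NumGs.chkF4 h (by norm_num) (x := w) (y := 0) (z := 0) (w := 0)
    (by norm_num; linarith only [a0]) (by norm_num; linarith only [b0]) (by norm_num) (by norm_num) (by norm_num)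
    (by norm_num) (by norm_num) (by norm_num)
  simp only [List.mem_singleton] at he
  subst he
  simp only [NumGs.E.val, NumIs.lkR] at hp
  push_cast at hp
  simp only [zero_div] at hp
  linarith only [hp]

theorem g3_2700_4000_a {w : ℝ} (a0 : 2700 / 10000 ≤ w) (b0 : w ≤ 4000 / 10000) :
    -(34132 / 100000) + w * ((-(976 / 1000)) + (2881 / 1000) * w) < 3 * uu w 0 + uu (8 / 10 - w) 0 := by
  have h : NumGs.chkF
      [.sub (.add (.mul (.q 3 1) (.uw (.var 0) (.q 0 1))) (.uw (.sub (.q 8 10) (.var 0)) (.q 0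
      1))) (.add (.q (-34132) 100000) (.mul (.var 0) (.add (.q (-976) 1000) (.mul (.q 2881 1000)
      (.var 0)))))]
      10000 0 0 0 0 60 2700 4000 0 0 0 0 0 0
      0x40800200081000008100040810000001020008002040000000 = true := by decide +kernel
  obtain ⟨e, he, hp⟩ := NumGs.chkF4 h (by norm_num) (x := w) (y := 0) (z := 0) (w := 0)
    (by norm_num; linarith only [a0]) (by norm_num; linarith only [b0]) (by norm_num) (by norm_num) (by norm_num)
    (by norm_num) (by norm_num) (by norm_num)
  simp only [List.mem_singleton] at he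
  subst he
  simp only [NumGs.E.val, NumIs.lkR] at hp
  push_cast at hp
  simp only [zero_div] at hp
  linarith only [hp]

theorem g3_3000_4000_a {w : ℝ} (a0 : 3000 / 10000 ≤ w) (b0 : w ≤ 4000 / 10000) :
    -(36880 / 100000) + w * ((-(819 / 1000)) + (2660 / 1000) * w) < 3 * uu w 0 + uu (8 / 10 - w) 0 := by
  have h : NumGs.chkF
      [.sub (.add (.mul (.q 3 1) (.uw (.var 0) (.q 0 1))) (.uw (.sub (.q 8 10) (.var 0)) (.q 0
      1))) (.add (.q (-36880) 100000) (.mul (.var 0) (.add (.q (-819) 1000) (.mul (.q 2660 1000)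
      (.var 0)))))]
      10000 0 0 0 0 60 3000 4000 0 0 0 0 0 0
      0x1020008100000810004080000408002040000000 = true := by decide +kernel
  obtain ⟨e, he, hp⟩ := NumGs.chkF4 h (by norm_num) (x := w) (y := 0) (z := 0) (w := 0)
    (by norm_num; linarith only [a0]) (by norm_num; linarith only [b0]) (by norm_num) (by norm_num) (by norm_num)
    (by norm_num) (by norm_num) (by norm_num)
  simp only [List.mem_singleton] at he
  subst he
  simp only [NumGs.E.val, NumIs.lkR] at hp
  push_cast at hp
  simp only [zero_div] at hp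
  linarith only [hp]

theorem g3_4000_5000_a {w : ℝ} (a0 : 4000 / 10000 ≤ w) (b0 : w ≤ 5000 / 10000) :
    -(54403 / 100000) + w * ((62 / 1000) + (1552 / 1000) * w) < 3 * uu w 0 + uu (8 / 10 - w) 0 := by
  have h : NumGs.chkF
      [.sub (.add (.mul (.q 3 1) (.uw (.var 0) (.q 0 1))) (.uw (.sub (.q 8 10) (.var 0)) (.q 0
      1))) (.add (.q (-54403) 100000) (.mul (.var 0) (.add (.q 62 1000) (.mul (.q 1552 1000)
      (.var 0)))))]
      10000 0 0 0 0 60 4000 5000 0 0 0 0 0 0
      0x408002040000204080000408002040000000 = true := by decide +kernel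
  obtain ⟨e, he, hp⟩ := NumGs.chkF4 h (by norm_num) (x := w) (y := 0) (z := 0) (w := 0)
    (by norm_num; linarith only [a0]) (by norm_num; linarith only [b0]) (by norm_num) (by norm_num) (by norm_num)
    (by norm_num) (by norm_num) (by norm_num)
  simp only [List.mem_singleton] at he
  subst he
  simp only [NumGs.E.val, NumIs.lkR] at hp
  push_cast at hp
  simp only [zero_div] at hp
  linarith only [hp]

theorem g3_5000_6500_a {w : ℝ} (a0 : 5000 / 10000 ≤ w) (b0 : w ≤ 6334 / 10000) :
    -(75876 / 100000) + w * ((912 / 1000) + (708 / 1000) * w) < 3 * uu w 0 + uu (8 / 10 - w) 0 := by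
  have h : NumGs.chkF
      [.sub (.add (.mul (.q 3 1) (.uw (.var 0) (.q 0 1))) (.uw (.sub (.q 8 10) (.var 0)) (.q 0
      1))) (.add (.q (-75876) 100000) (.mul (.var 0) (.add (.q 912 1000) (.mul (.q 708 1000)
      (.var 0)))))]
      10000 0 0 0 0 60 5000 6334 0 0 0 0 0 0
      0x10200081000008100040800000 = true := by decide +kernel
  obtain ⟨e, he, hp⟩ := NumGs.chkF4 h (by norm_num) (x := w) (y := 0) (z := 0) (w := 0)
    (by norm_num; linarith only [a0]) (by norm_num; linarith only [b0]) (by norm_num) (by norm_num) (by norm_num)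
    (by norm_num) (by norm_num) (by norm_num)
  simp only [List.mem_singleton] at he
  subst he
  simp only [NumGs.E.val, NumIs.lkR] at hp
  push_cast at hp
  simp only [zero_div] at hp
  linarith only [hp]

theorem g3_5000_6500_c {w : ℝ} (a0 : 6333 / 10000 ≤ w) (b0 : w ≤ 6500 / 10000) :
    -(75876 / 100000) + w * ((912 / 1000) + (708 / 1000) * w) < 3 * uu w 0 + -(1616 / 10000) := by
  have h : NumGs.chkF
      [.sub (.add (.mul (.q 3 1) (.uw (.var 0) (.q 0 1))) (.q (-1616) 10000)) (.add (.q (-75876)
      100000) (.mul (.var 0) (.add (.q 912 1000) (.mul (.q 708 1000) (.var 0)))))]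
      10000 0 0 0 0 60 6333 6500 0 0 0 0 0 0
      0x4 = true := by decide +kernel
  obtain ⟨e, he, hp⟩ := NumGs.chkF4 h (by norm_num) (x := w) (y := 0) (z := 0) (w := 0)
    (by norm_num; linarith only [a0]) (by norm_num; linarith only [b0]) (by norm_num) (by norm_num) (by norm_num)
    (by norm_num) (by norm_num) (by norm_num)
  simp only [List.mem_singleton] at he
  subst he
  simp only [NumGs.E.val, NumIs.lkR] at hp
  push_cast at hp
  simp only [zero_div] at hp
  linarith only [hp]

theorem h18_570_40 {t : ℝ} (a1 : -(570 / 10000) ≤ t) (b1 : t ≤ 40 / 10000) :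
    16096 / 100000 + (2430 / 1000) * t ^ 2 < -uu (18 / 100) t := by
  have h : NumGs.chkF
      [.sub (.neg (.uw (.q 18 100) (.var 1))) (.add (.q 16096 100000) (.mul (.q 2430 1000) (.sq
      (.var 1))))]
      10000 0 570 0 0 60 0 0 0 610 0 0 0 0
      0x10201081008108100840804081 = true := by decide +kernel
  obtain ⟨e, he, hp⟩ := NumGs.chkF4 h (by norm_num) (x := 0) (y := t) (z := 0) (w := 0)
    (by norm_num) (by norm_num) (by norm_num; linarith only [a1]) (by norm_num; linarith only [b1]) (by norm_num)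
    (by norm_num) (by norm_num) (by norm_num)
  simp only [List.mem_singleton] at he
  subst he
  simp only [NumGs.E.val, NumIs.lkR] at hp
  push_cast at hp
  linarith only [hp]

theorem h18_220_220 {t : ℝ} (a1 : -(220 / 10000) ≤ t) (b1 : t ≤ 220 / 10000) :
    16096 / 100000 + (2468 / 1000) * t ^ 2 < -uu (18 / 100) t := by
  have h : NumGs.chkF
      [.sub (.neg (.uw (.q 18 100) (.var 1))) (.add (.q 16096 100000) (.mul (.q 2468 1000) (.sq
      (.var 1))))]
      10000 0 220 0 0 60 0 0 0 440 0 0 0 0
      0x10201081008108100840804081 = true := by decide +kernel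
  obtain ⟨e, he, hp⟩ := NumGs.chkF4 h (by norm_num) (x := 0) (y := t) (z := 0) (w := 0)
    (by norm_num) (by norm_num) (by norm_num; linarith only [a1]) (by norm_num; linarith only [b1]) (by norm_num)
    (by norm_num) (by norm_num) (by norm_num)
  simp only [List.mem_singleton] at he
  subst he
  simp only [NumGs.E.val, NumIs.lkR] at hp
  push_cast at hp
  linarith only [hp]

theorem h22_50_280 {t : ℝ} (a1 : 50 / 10000 ≤ t) (b1 : t ≤ 280 / 10000) :
    15457 / 100000 + (1892 / 1000) * t ^ 2 < -uu (22 / 100) t := by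
  have h : NumGs.chkF
      [.sub (.neg (.uw (.q 22 100) (.var 1))) (.add (.q 15457 100000) (.mul (.q 1892 1000) (.sq
      (.var 1))))]
      10000 0 0 0 0 60 0 0 50 280 0 0 0 0
      0x102010810081 = true := by decide +kernel
  obtain ⟨e, he, hp⟩ := NumGs.chkF4 h (by norm_num) (x := 0) (y := t) (z := 0) (w := 0)
    (by norm_num) (by norm_num) (by norm_num; linarith only [a1]) (by norm_num; linarith only [b1]) (by norm_num)
    (by norm_num) (by norm_num) (by norm_num)
  simp only [List.mem_singleton] at he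
  subst he
  simp only [NumGs.E.val, NumIs.lkR] at hp
  push_cast at hp
  linarith only [hp]

theorem h22_760_980 {t : ℝ} (a1 : 760 / 10000 ≤ t) (b1 : t ≤ 980 / 10000) :
    15494 / 100000 + (1791 / 1000) * t ^ 2 < -uu (22 / 100) t := by
  have h : NumGs.chkF
      [.sub (.neg (.uw (.q 22 100) (.var 1))) (.add (.q 15494 100000) (.mul (.q 1791 1000) (.sq
      (.var 1))))]
      10000 0 0 0 0 60 0 0 760 980 0 0 0 0
      0x10201 = true := by decide +kernel
  obtain ⟨e, he, hp⟩ := NumGs.chkF4 h (by norm_num) (x := 0) (y := t) (z := 0) (w := 0)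
    (by norm_num) (by norm_num) (by norm_num; linarith only [a1]) (by norm_num; linarith only [b1]) (by norm_num)
    (by norm_num) (by norm_num) (by norm_num)
  simp only [List.mem_singleton] at he
  subst he
  simp only [NumGs.E.val, NumIs.lkR] at hp
  push_cast at hp
  linarith only [hp]

theorem h23_210_920 {t : ℝ} (a1 : 210 / 10000 ≤ t) (b1 : t ≤ 920 / 10000) :
    15198 / 100000 + (1725 / 1000) * t ^ 2 < -uu (23 / 100) t := by
  have h : NumGs.chkF
      [.sub (.neg (.uw (.q 23 100) (.var 1))) (.add (.q 15198 100000) (.mul (.q 1725 1000) (.sq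
      (.var 1))))]
      10000 0 0 0 0 60 0 0 210 920 0 0 0 0
      0x10201081008108100840804081 = true := by decide +kernel
  obtain ⟨e, he, hp⟩ := NumGs.chkF4 h (by norm_num) (x := 0) (y := t) (z := 0) (w := 0)
    (by norm_num) (by norm_num) (by norm_num; linarith only [a1]) (by norm_num; linarith only [b1]) (by norm_num)
    (by norm_num) (by norm_num) (by norm_num)
  simp only [List.mem_singleton] at he
  subst he
  simp only [NumGs.E.val, NumIs.lkR] at hp
  push_cast at hp
  linarith only [hp]

theorem h23_460_940 {t : ℝ} (a1 : 460 / 10000 ≤ t) (b1 : t ≤ 940 / 10000) :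
    15207 / 100000 + (1713 / 1000) * t ^ 2 < -uu (23 / 100) t := by
  have h : NumGs.chkF
      [.sub (.neg (.uw (.q 23 100) (.var 1))) (.add (.q 15207 100000) (.mul (.q 1713 1000) (.sq
      (.var 1))))]
      10000 0 0 0 0 60 0 0 460 940 0 0 0 0
      0x1020108042040804081 = true := by decide +kernel
  obtain ⟨e, he, hp⟩ := NumGs.chkF4 h (by norm_num) (x := 0) (y := t) (z := 0) (w := 0)
    (by norm_num) (by norm_num) (by norm_num; linarith only [a1]) (by norm_num; linarith only [b1]) (by norm_num)
    (by norm_num) (by norm_num) (by norm_num)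
  simp only [List.mem_singleton] at he
  subst he
  simp only [NumGs.E.val, NumIs.lkR] at hp
  push_cast at hp
  linarith only [hp]

theorem h23_870_1145 {t : ℝ} (a1 : 870 / 10000 ≤ t) (b1 : t ≤ 1145 / 10000) :
    15253 / 100000 + (1657 / 1000) * t ^ 2 < -uu (23 / 100) t := by
  have h : NumGs.chkF
      [.sub (.neg (.uw (.q 23 100) (.var 1))) (.add (.q 15253 100000) (.mul (.q 1657 1000) (.sq
      (.var 1))))]
      10000 0 0 0 0 60 0 0 870 1145 0 0 0 0
      0x102010810081 = true := by decide +kernel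
  obtain ⟨e, he, hp⟩ := NumGs.chkF4 h (by norm_num) (x := 0) (y := t) (z := 0) (w := 0)
    (by norm_num) (by norm_num) (by norm_num; linarith only [a1]) (by norm_num; linarith only [b1]) (by norm_num)
    (by norm_num) (by norm_num) (by norm_num)
  simp only [List.mem_singleton] at he
  subst he
  simp only [NumGs.E.val, NumIs.lkR] at hp
  push_cast at hp
  linarith only [hp]

theorem h25_50_570 {t : ℝ} (a1 : -(50 / 10000) ≤ t) (b1 : t ≤ 570 / 10000) :
    14568 / 100000 + (1554 / 1000) * t ^ 2 < -uu (25 / 100) t := by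
  have h : NumGs.chkF
      [.sub (.neg (.uw (.q 25 100) (.var 1))) (.add (.q 14568 100000) (.mul (.q 1554 1000) (.sq
      (.var 1))))]
      10000 0 50 0 0 60 0 0 0 620 0 0 0 0
      0x10201081008108100840804081 = true := by decide +kernel
  obtain ⟨e, he, hp⟩ := NumGs.chkF4 h (by norm_num) (x := 0) (y := t) (z := 0) (w := 0)
    (by norm_num) (by norm_num) (by norm_num; linarith only [a1]) (by norm_num; linarith only [b1]) (by norm_num)
    (by norm_num) (by norm_num) (by norm_num)
  simp only [List.mem_singleton] at he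
  subst he
  simp only [NumGs.E.val, NumIs.lkR] at hp
  push_cast at hp
  linarith only [hp]

theorem h27_210_920 {t : ℝ} (a1 : 210 / 10000 ≤ t) (b1 : t ≤ 920 / 10000) :
    13816 / 100000 + (1350 / 1000) * t ^ 2 < -uu (27 / 100) t := by
  have h : NumGs.chkF
      [.sub (.neg (.uw (.q 27 100) (.var 1))) (.add (.q 13816 100000) (.mul (.q 1350 1000) (.sq
      (.var 1))))]
      10000 0 0 0 0 60 0 0 210 920 0 0 0 0
      0x10201081008108100840804081 = true := by decide +kernel
  obtain ⟨e, he, hp⟩ := NumGs.chkF4 h (by norm_num) (x := 0) (y := t) (z := 0) (w := 0)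
    (by norm_num) (by norm_num) (by norm_num; linarith only [a1]) (by norm_num; linarith only [b1]) (by norm_num)
    (by norm_num) (by norm_num) (by norm_num)
  simp only [List.mem_singleton] at he
  subst he
  simp only [NumGs.E.val, NumIs.lkR] at hp
  push_cast at hp
  linarith only [hp]

theorem h27_460_700 {t : ℝ} (a1 : 460 / 10000 ≤ t) (b1 : t ≤ 700 / 10000) :
    13818 / 100000 + (1357 / 1000) * t ^ 2 < -uu (27 / 100) t := by
  have h : NumGs.chkF
      [.sub (.neg (.uw (.q 27 100) (.var 1))) (.add (.q 13818 100000) (.mul (.q 1357 1000) (.sq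
      (.var 1))))]
      10000 0 0 0 0 60 0 0 460 700 0 0 0 0
      0x10201 = true := by decide +kernel
  obtain ⟨e, he, hp⟩ := NumGs.chkF4 h (by norm_num) (x := 0) (y := t) (z := 0) (w := 0)
    (by norm_num) (by norm_num) (by norm_num; linarith only [a1]) (by norm_num; linarith only [b1]) (by norm_num)
    (by norm_num) (by norm_num) (by norm_num)
  simp only [List.mem_singleton] at he
  subst he
  simp only [NumGs.E.val, NumIs.lkR] at hp
  push_cast at hp
  linarith only [hp]

theorem h27_700_940 {t : ℝ} (a1 : 700 / 10000 ≤ t) (b1 : t ≤ 940 / 10000) :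
    13831 / 100000 + (1332 / 1000) * t ^ 2 < -uu (27 / 100) t := by
  have h : NumGs.chkF
      [.sub (.neg (.uw (.q 27 100) (.var 1))) (.add (.q 13831 100000) (.mul (.q 1332 1000) (.sq
      (.var 1))))]
      10000 0 0 0 0 60 0 0 700 940 0 0 0 0
      0x10201 = true := by decide +kernel
  obtain ⟨e, he, hp⟩ := NumGs.chkF4 h (by norm_num) (x := 0) (y := t) (z := 0) (w := 0)
    (by norm_num) (by norm_num) (by norm_num; linarith only [a1]) (by norm_num; linarith only [b1]) (by norm_num)
    (by norm_num) (by norm_num) (by norm_num)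
  simp only [List.mem_singleton] at he
  subst he
  simp only [NumGs.E.val, NumIs.lkR] at hp
  push_cast at hp
  linarith only [hp]

theorem h27_870_1145 {t : ℝ} (a1 : 870 / 10000 ≤ t) (b1 : t ≤ 1145 / 10000) :
    13851 / 100000 + (1307 / 1000) * t ^ 2 < -uu (27 / 100) t := by
  have h : NumGs.chkF
      [.sub (.neg (.uw (.q 27 100) (.var 1))) (.add (.q 13851 100000) (.mul (.q 1307 1000) (.sq
      (.var 1))))]
      10000 0 0 0 0 60 0 0 870 1145 0 0 0 0
      0x102010810081 = true := by decide +kernel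
  obtain ⟨e, he, hp⟩ := NumGs.chkF4 h (by norm_num) (x := 0) (y := t) (z := 0) (w := 0)
    (by norm_num) (by norm_num) (by norm_num; linarith only [a1]) (by norm_num; linarith only [b1]) (by norm_num)
    (by norm_num) (by norm_num) (by norm_num)
  simp only [List.mem_singleton] at he
  subst he
  simp only [NumGs.E.val, NumIs.lkR] at hp
  push_cast at hp
  linarith only [hp]

end L2

end TL

end Pool.Agent.Work.MP_b30479_gtS.G2
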