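import Pool.Agent.Work.MP_b30479_gt.TBS.NumU.GenC

section

/-!
# Tails, an interior three whose inner variable is in the tail: tools for the slot `0`

`eO`, `eT`, `eR`: the gain of the untouched region of class one, two (or three), ring.
-/

set_option deprecated.oldSectionVars true

namespace Pool.Agent.Work.MP_b30479_gtS.G2

open VOL NumUs

namespace TL

namespace L2

/-! ### real values -/

theorem uu_1_0 : uu 1 0 = 0 := by
  have h := uu_one_sub 0 0
  rw [sub_zero] at h
  have h0 : uu 0 0 = 0 := by
    have h := uu_zero 0
    rw [abs_zero, mul_zero, neg_zero] at h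
    exact h
  rw [h, h0, neg_zero]

/-- the inner variable is at least `8/10` -/
theorem lu_or {u l : ℝ} (h8 : 8 / 10 ≤ l) (h1 : l ≤ 1) (hu : 0 ≤ u) (hu1 : u ≤ 19 / 30) :
    uu (8 / 10 - u) 0 ≤ uu (l - u) 0 ∨ (u ≤ 1 / 6 ∧ -uu u 0 ≤ uu (l - u) 0) := by
  rcases le_total (l - u) (5 / 6) with h | h
  · exact Or.inl (uu_real_mono (by linarith) (by linarith) h)
  · refine Or.inr ⟨by linarith, ?_⟩
    have h2 := uu_real_anti1 (a := l - u) (b := 1 - u) h (by linarith) (by linarith)
    rw [uu_one_sub] at h2
    exact h2

/-- lower bound of all real values -/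
theorem real_ge {x : ℝ} (h0 : 0 ≤ x) (h1 : x ≤ 1) : -(1616 / 10000) ≤ uu x 0 := by
  have hc : -(1616 / 10000) ≤ uu (1 / 6) 0 := by
    have h : NumGs.chkF [.add (.uw (.var 0) (.q 0 1)) (.q 1616 10000)] 10000 0 0 0 0 20 1666 1667
        0 0 0 0 0 0 4 = true := by decide +kernel
    obtain ⟨e, he, hp⟩ := NumGs.chkF4 h (by norm_num) (x := 1 / 6) (y := 0) (z := 0) (w := 0)
      (by norm_num) (by norm_num) (by norm_num) (by norm_num) (by norm_num) (by norm_num)
      (by norm_num) (by norm_num)
    simp only [List.mem_cons, List.not_mem_nil, or_false] at he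
    subst he
    simp only [NumGs.E.val, NumIs.lkR] at hp
    push_cast at hp
    rw [zero_div] at hp
    linarith
  rcases le_total x (1 / 6) with h | h
  · exact hc.trans (uu_real_anti h0 h le_rfl)
  · rcases le_total x (5 / 6) with h' | h'
    · exact hc.trans (uu_real_mono le_rfl h h')
    · have := uu_real_anti1 h' h1 le_rfl
      rw [uu_1_0] at this
      linarith

/-! ### expressions -/

section


/-- class one: `c / 100` the target, `a` the function of the height, `b` the function of the old
position -/
def eO (c a0 a2 b0 b1 b2 : ℤ) : NumGs.E :=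
  .add (.add (.sub (.add (.mul .pi (.add (.mul (.sub (.q c 100) (.var 0)) (.var 3))
    (.mul (.var 1) (.sub (.sub (.var 2) (.var 0)) (.q 1 1)))))
    (.uw (.add (.q c 100) (.sub (.var 2) (.var 0))) (.add (.var 1) (.var 3))))
    (.uw (.var 2) (.var 3))) (.add (.q a0 100000) (.mul (.q a2 1000) (.sq (.var 1)))))
    (.add (.q b0 100000) (.mul (.var 0) (.add (.q b1 1000) (.mul (.q b2 1000) (.var 0)))))

/-- class two, or three with the slot `2` -/
def eT (c a0 a2 b0 b1 b2 : ℤ) : NumGs.E :=
  .add (.add (.sub (.add (.mul .pi (.add (.mul (.var 1) (.sub (.sub (.var 2) (.var 0))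
    (.add (.q c 100) (.q 1 2)))) (.mul (.sub (.q c 100) (.var 0)) (.var 3))))
    (.uw (.add (.q c 100) (.sub (.var 2) (.var 0))) (.add (.var 1) (.var 3))))
    (.uw (.var 2) (.var 3)))
    (.mul (.q 2 1) (.add (.q a0 100000) (.mul (.q a2 1000) (.sq (.var 1))))))
    (.add (.q b0 100000) (.mul (.var 0) (.add (.q b1 1000) (.mul (.q b2 1000) (.var 0)))))

/-- ring -/
def eR (a0 a2 b0 b1 b2 : ℤ) : NumGs.E :=
  .add (.add (.sub (.sub (.add (.uw (.add (.q 68 100) (.var 2)) (.add (.var 1) (.var 3)))
    (.uw (.sub (.q 68 100) (.var 2)) (.sub (.var 1) (.var 3))))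
    (.uw (.add (.add (.var 0) (.q 1 2)) (.var 2)) (.var 3)))
    (.uw (.sub (.add (.var 0) (.q 1 2)) (.var 2)) (.var 3)))
    (.mul (.q 2 1) (.add (.q a0 100000) (.mul (.q a2 1000) (.sq (.var 1))))))
    (.add (.q b0 100000) (.mul (.var 0) (.add (.q b1 1000) (.mul (.q b2 1000) (.var 0)))))

/-- minus the line `a - e t` -/
def eL (a e : ℤ) (x : NumGs.E) : NumGs.E := .add (.sub x (.q a 10000)) (.mul (.q e 10000) (.var 1))

end

/-- the real function of `eO` -/
noncomputable def fO (c a0 a2 b0 b1 b2 : ℤ) (w t X Y : ℝ) : ℝ :=
  Real.pi * (((c : ℝ) / 100 - w) * Y + t * (X - 1)) + uu ((c : ℝ) / 100 + X) (t + Y) -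
    uu (w + X) Y + ((a0 : ℝ) / 100000 + (a2 : ℝ) / 1000 * t ^ 2) +
    ((b0 : ℝ) / 100000 + w * ((b1 : ℝ) / 1000 + (b2 : ℝ) / 1000 * w))

/-- the real function of `eT` -/
noncomputable def fT (c a0 a2 b0 b1 b2 : ℤ) (w t X Y : ℝ) : ℝ :=
  Real.pi * (t * (X - ((c : ℝ) / 100 + 1 / 2)) + ((c : ℝ) / 100 - w) * Y) +
    uu ((c : ℝ) / 100 + X) (t + Y) - uu (w + X) Y +
    2 * ((a0 : ℝ) / 100000 + (a2 : ℝ) / 1000 * t ^ 2) +
    ((b0 : ℝ) / 100000 + w * ((b1 : ℝ) / 1000 + (b2 : ℝ) / 1000 * w))

/-- the real function of `eR` -/
noncomputable def fRr (a0 a2 b0 b1 b2 : ℤ) (w t σ η : ℝ) : ℝ :=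
  uu (68 / 100 + σ) (t + η) + uu (68 / 100 - σ) (t - η) - uu (w + 1 / 2 + σ) η -
    uu (w + 1 / 2 - σ) η + 2 * ((a0 : ℝ) / 100000 + (a2 : ℝ) / 1000 * t ^ 2) +
    ((b0 : ℝ) / 100000 + w * ((b1 : ℝ) / 1000 + (b2 : ℝ) / 1000 * w))

theorem eO_val (c a0 a2 b0 b1 b2 a e : ℤ) (w t X Y : ℝ) :
    (eL a e (eO c a0 a2 b0 b1 b2)).val [w, t, w + X, Y] =
      fO c a0 a2 b0 b1 b2 w t X Y - ((a : ℝ) / 10000 - (e : ℝ) / 10000 * t) := by
  simp only [eL, eO, fO, NumGs.E.val, NumIs.lkR, add_sub_cancel_left]
  push_cast
  ring

theorem eT_val (c a0 a2 b0 b1 b2 a e : ℤ) (w t X Y : ℝ) :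
    (eL a e (eT c a0 a2 b0 b1 b2)).val [w, t, w + X, Y] =
      fT c a0 a2 b0 b1 b2 w t X Y - ((a : ℝ) / 10000 - (e : ℝ) / 10000 * t) := by
  simp only [eL, eT, fT, NumGs.E.val, NumIs.lkR, add_sub_cancel_left]
  push_cast
  ring

theorem eR_val (a0 a2 b0 b1 b2 a e : ℤ) (w t σ η : ℝ) :
    (eL a e (eR a0 a2 b0 b1 b2)).val [w, t, σ, η] =
      fRr a0 a2 b0 b1 b2 w t σ η - ((a : ℝ) / 10000 - (e : ℝ) / 10000 * t) := by
  simp only [eL, eR, fRr, NumGs.E.val, NumIs.lkR]
  push_cast
  ring

end L2

end TL

end Pool.Agent.Work.MP_b30479_gtS.G2

end

section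

/-!
# Tails, slot `0` of an interior three: rows WE
-/

set_option linter.unusedVariables false
set_option linter.unusedSimpArgs false
set_option linter.unusedTactic false

set_option deprecated.oldSectionVars true

namespace Pool.Agent.Work.MP_b30479_gtS.G2

open VOL NumUs

namespace TL

namespace L2

theorem ri_0_1600_2000 {w t σ η : ℝ} (a0 : 1600 / 10000 ≤ w) (b0 : w ≤ 2000 / 10000) (a1 : -(570 / 10000) ≤ t)
    (b1 : t ≤ 40 / 10000) (a2 : -(5000 / 10000) ≤ σ) (b2 : σ ≤ -(2500 / 10000)) (a3 : 0 ≤ η) (b3 : η ≤ 1045 / 10000)
    (r1 : η ≤ 1045 / 10000 * (2 + 4 * σ)) :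
    -(1886 / 10000) - (2810 / 10000) * t < fRr 16096 2430 (-10692) (-2872) 6816 w t σ η := by
  have h : NumGs.chkF [eL (-1886) 2810 (eR 16096 2430 (-10692) (-2872) 6816),
      .sub (.var 3) (.mul (.q 1045 10000) (.add (.q 2 1) (.mul (.q 4 1) (.var 2))))] 10000 0 570 5000 0 60 1600 2000 0 610 0 2500 0 1045
      0x1020408001830810200041020004100040800204000c20008100040010200081000408100000610204000c0820608182081000408100000410200080820402100000010200081020000082040808202001020200102040410204040c000040c204080020404001840810183041020008101040810003040c0000810200061000408082040410000041020008100000004184080c20408001840810003000820400000840a10200080020106002040810004040018408002020810004080020400081840804084080c1030810084081020000002040208204081000208041840208180000c1040810004040020400102030810204000c20208081800010200040c1020810204000c18408002040010202060c104080c2040800184020c20008100040800204001000308041820810200001020408080000808182040420400102000808185080c102 = true := by decide +kernel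
  obtain ⟨e, he, hp⟩ := NumGs.chkF4 h (by norm_num) (x := w) (y := t) (z := σ) (w := η)
    (by norm_num; linarith) (by norm_num; linarith) (by norm_num; linarith) (by norm_num; linarith)
    (by norm_num; linarith) (by norm_num; linarith) (by norm_num; linarith) (by norm_num; linarith)
  simp only [List.mem_cons, List.not_mem_nil, or_false] at he
  rcases he with rfl | rfl
  · rw [eR_val] at hp
    push_cast at hp
    linarith
  · exfalso
    simp only [NumGs.E.val, NumIs.lkR] at hp
    push_cast at hp
    linarith

theorem o0_10_12_21 {w t X Y : ℝ} (a0 : 1000 / 10000 ≤ w) (b0 : w ≤ 1200 / 10000) (a1 : 210 / 10000 ≤ t)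
    (b1 : t ≤ 920 / 10000) (hR : RO0 t X Y) :
    -(2490 / 10000) - (19570 / 10000) * t < fO 23 15198 1725 5118 (-2971) 7667 w t X Y := by
  have h : NumGs.chkF ([eL (-2490) 19570 (eO 23 15198 1725 5118 (-2971) 7667)] ++ eRO0) 10000 0 0 0 910 60 1000 1200 210 920 1000 9800 0 1400
      0xa0810210060c08408102040840183020c081040c7841e0c20f003c190020410f060c204080020400102040010104080020200102040208204020020400001030210204081010208000810810202000010302102001e0c20208102000800104080010f08100100640082064021002102100004104200401006401820810200004020408401900204803024018206102040410002201020208001030810200080011008101040008184200020404100020240804044000206048042004104040080302088030204783060820400102000810004080420404100000808083080808408100040010101083c004043c18f060c20400102040040084040c0040800204001020002101100600084080411006042040208184080c102081010208102040208102 = true := by decide +kernel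
  obtain ⟨e, he, hp⟩ := NumGs.chkF4 h (by norm_num) (x := w) (y := t) (z := w + X) (w := Y)
    (by norm_num; linarith) (by norm_num; linarith) (by norm_num; linarith) (by norm_num; linarith)
    (by norm_num; linarith [hR.h0, hR.h1]) (by norm_num; linarith [hR.h0, hR.h1])
    (by norm_num; linarith [hR.h12]) (by norm_num; linarith [hR.h13])
  rw [List.mem_append] at he
  rcases he with he | he
  · simp only [List.mem_singleton] at he
    subst he
    rw [eO_val] at hp
    push_cast at hp
    linarith
  · exact absurd hp (not_lt.2 (hR.neg he))

theorem tw_0_2 {w t X Y : ℝ} (a0 : 0 / 10000 ≤ w) (b0 : w ≤ 200 / 10000) (a1 : -(50 / 10000) ≤ t)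
    (b1 : t ≤ 570 / 10000) (hR : RTw t X Y) :
    -(1620 / 10000) - (18750 / 10000) * t < fT 25 14568 1554 (-12308) 0 0 w t X Y := by
  have h : NumGs.chkF ([eL (-1620) 18750 (eT 25 14568 1554 (-12308) 0 0)] ++ eRTw) 10000 0 50 0 985 60 0 200 0 620 0 6200 0 1945
      0x10202081020404102020608102 = true := by decide +kernel
  obtain ⟨e, he, hp⟩ := NumGs.chkF4 h (by norm_num) (x := w) (y := t) (z := w + X) (w := Y)
    (by norm_num; linarith) (by norm_num; linarith) (by norm_num; linarith) (by norm_num; linarith)
    (by norm_num; linarith [hR.h0, hR.h1]) (by norm_num; linarith [hR.h0, hR.h1])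
    (by norm_num; linarith [hR.h6]) (by norm_num; linarith [hR.h7])
  rw [List.mem_append] at he
  rcases he with he | he
  · simp only [List.mem_singleton] at he
    subst he
    rw [eT_val] at hp
    push_cast at hp
    linarith
  · exact absurd hp (not_lt.2 (hR.neg he))

end L2

end TL

end Pool.Agent.Work.MP_b30479_gtS.G2

end

section

/-!
# Tails, slot `0` of an interior three: rows WF
-/

set_option linter.unusedVariables false
set_option linter.unusedSimpArgs false
set_option linter.unusedTactic false

set_option deprecated.oldSectionVars true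

namespace Pool.Agent.Work.MP_b30479_gtS.G2

open VOL NumUs

namespace TL

namespace L2

theorem o0_16_20_21 {w t X Y : ℝ} (a0 : 1600 / 10000 ≤ w) (b0 : w ≤ 2000 / 10000) (a1 : 210 / 10000 ≤ t)
    (b1 : t ≤ 920 / 10000) (hR : RO0 t X Y) :
    -(2490 / 10000) - (19570 / 10000) * t < fO 23 15198 1725 (-1417) (-2046) 4336 w t X Y := by
  have h : NumGs.chkF ([eL (-2490) 19570 (eO 23 15198 1725 (-1417) (-2046) 4336)] ++ eRO0) 10000 0 0 0 910 60 1600 2000 210 920 1600 10600 0 1400
      0xa080c78314102000810204060c082063c204200408f0608783060820404102000810204080010108102020400184080020408001840810002000c10106102000810200081020400080040808204080020204100020810200041020400082040010202081020004001030200181020c1040808783081020404107830004182084001006102000800110080820408400010410002200c800023c1840800204000820408001040810002201080004401830200204044021006400820240190000c2040010204000810420002040808002004021000082100010210020010220001840804200081000402101020810084081008402001022010804040480420001000440180200c09006041011e0c18208102000610200041020008082000808204001020400102000808180021020004102040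80010408100040810002080020400102000800104081000008100040008181060420400102000810004081010004000820604004081020108080040400103021020008102040008003080820408100040410003040020408100040400202000820f001010f003c1840810004040010f083c0021e0c783061078008087801e0c20408080021e10780040c08308102000010104041020400100020800204001020008102040000100020800408100040400104081020220040000808202081020408001000440210000880320048032004803200419008108012004002200c803020020408002020008184081020308100810808000080820208102000800210001020008001030210204081000004001040810002200080308108010810002200c0020610204000020400100020810200044000308108000010200080010408100022000184200020400100020240181200c2040840184200c801020c2040010001081020000080042000182020080404400030810204020020200080900810800000818106102040004204021010304082040610102081020408001040608102 = true := by decide +kernel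
  obtain ⟨e, he, hp⟩ := NumGs.chkF4 h (by norm_num) (x := w) (y := t) (z := w + X) (w := Y)
    (by norm_num; linarith) (by norm_num; linarith) (by norm_num; linarith) (by norm_num; linarith)
    (by norm_num; linarith [hR.h0, hR.h1]) (by norm_num; linarith [hR.h0, hR.h1])
    (by norm_num; linarith [hR.h12]) (by norm_num; linarith [hR.h13])
  rw [List.mem_append] at he
  rcases he with he | he
  · simp only [List.mem_singleton] at he
    subst he
    rw [eO_val] at hp
    push_cast at hp
    linarith
  · exact absurd hp (not_lt.2 (hR.neg he))

theorem ri_0_1000_1200 {w t σ η : ℝ} (a0 : 1000 / 10000 ≤ w) (b0 : w ≤ 1200 / 10000) (a1 : -(570 / 10000) ≤ t)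
    (b1 : t ≤ 40 / 10000) (a2 : -(5000 / 10000) ≤ σ) (b2 : σ ≤ -(2500 / 10000)) (a3 : 0 ≤ η) (b3 : η ≤ 1045 / 10000)
    (r1 : η ≤ 1045 / 10000 * (2 + 4 * σ)) :
    -(1886 / 10000) - (2810 / 10000) * t < fRr 16096 2430 (-433) (-4323) 12035 w t σ η := by
  have h : NumGs.chkF [eL (-1886) 2810 (eR 16096 2430 (-433) (-4323) 12035),
      .sub (.var 3) (.mul (.q 1045 10000) (.add (.q 2 1) (.mul (.q 4 1) (.var 2))))] 10000 0 570 5000 0 60 1000 1200 0 610 0 2500 0 1045
      0x4080420408042040810083041008206082040800204081008208100820608184080020408081840810200080020108042010410200000c1030410204000c204080818202082040214104081000208100000804204080400408102000600202041020208101000810203080010200102040408200020c20408101840400004040820408002020404185080c102 = true := by decide +kernel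
  obtain ⟨e, he, hp⟩ := NumGs.chkF4 h (by norm_num) (x := w) (y := t) (z := σ) (w := η)
    (by norm_num; linarith) (by norm_num; linarith) (by norm_num; linarith) (by norm_num; linarith)
    (by norm_num; linarith) (by norm_num; linarith) (by norm_num; linarith) (by norm_num; linarith)
  simp only [List.mem_cons, List.not_mem_nil, or_false] at he
  rcases he with rfl | rfl
  · rw [eR_val] at hp
    push_cast at hp
    linarith
  · exfalso
    simp only [NumGs.E.val, NumIs.lkR] at hp
    push_cast at hp
    linarith

theorem ri_50_200_500 {w t σ η : ℝ} (a0 : 200 / 10000 ≤ w) (b0 : w ≤ 500 / 10000) (a1 : -(570 / 10000) ≤ t)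
    (b1 : t ≤ 40 / 10000) (a2 : 0 / 10000 ≤ σ) (b2 : σ ≤ 1250 / 10000) (a3 : 0 ≤ η) (b3 : η ≤ 1045 / 10000)
    (r1 : η ≤ 1045 / 10000 * (2 + 4 * σ)) :
    -(1886 / 10000) - (2810 / 10000) * t < fRr 16096 2430 (-3288) (-5122) 29151 w t σ η := by
  have h : NumGs.chkF [eL (-1886) 2810 (eR 16096 2430 (-3288) (-5122) 29151),
      .sub (.var 3) (.mul (.q 1045 10000) (.add (.q 2 1) (.mul (.q 4 1) (.var 2))))] 10000 0 570 0 0 60 200 500 0 610 0 1250 0 1045
      0x4 = true := by decide +kernel
  obtain ⟨e, he, hp⟩ := NumGs.chkF4 h (by norm_num) (x := w) (y := t) (z := σ) (w := η)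
    (by norm_num; linarith) (by norm_num; linarith) (by norm_num; linarith) (by norm_num; linarith)
    (by norm_num; linarith) (by norm_num; linarith) (by norm_num; linarith) (by norm_num; linarith)
  simp only [List.mem_cons, List.not_mem_nil, or_false] at he
  rcases he with rfl | rfl
  · rw [eR_val] at hp
    push_cast at hp
    linarith
  · exfalso
    simp only [NumGs.E.val, NumIs.lkR] at hp
    push_cast at hp
    linarith

end L2

end TL

end Pool.Agent.Work.MP_b30479_gtS.G2

end

section

/-!
# Tails, slot `0` of an interior three: rows WG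
-/

set_option linter.unusedVariables false
set_option linter.unusedSimpArgs false
set_option linter.unusedTactic false

set_option deprecated.oldSectionVars true

namespace Pool.Agent.Work.MP_b30479_gtS.G2

open VOL NumUs

namespace TL

namespace L2

theorem o0_20_30_21 {w t X Y : ℝ} (a0 : 2000 / 10000 ≤ w) (b0 : w ≤ 3000 / 10000) (a1 : 210 / 10000 ≤ t)
    (b1 : t ≤ 920 / 10000) (hR : RO0 t X Y) :
    -(2490 / 10000) - (19570 / 10000) * t < fO 23 15198 1725 (-7608) (-1453) 2911 w t X Y := by
  have h : NumGs.chkF ([eL (-2490) 19570 (eO 23 15198 1725 (-7608) (-1453) 2911)] ++ eRO0) 10000 0 0 0 910 60 2000 3000 210 920 2000 11600 0 1400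
      0x41e0c20408400011e0c780060820f0600204081008408041100808800060478306102001e0c20408001841e0020408000821e007831e0c18200082040010200080010408002040800103081020008100000410202081020008080040410204080810408082040010002060400206041840810780000c204060820408080040410204001010208102000800182000820408400041e00181083c00f0610083023c00f061020f00101001e002041e007801e0c7831e0c002040c204041021000002040804084080c20106080840800800081080008400030210780083c004020c2010608210000418408002020810200040020408002000008204001020108400030010204021080006102010410201040010408100040010204000020404000840810000084000008100100004180040420400107800010204044019000001040810004001020400008000210800200080320041800410200080880008108002000002020c104084000404088000604184080c204060c20406082040810002001020008100040810204000c100021020408102040004004040c0000404184081020106102000400104081000308102040808180000820400101020810204000800408102000010100041020008102000410201081020100081840804204080020400040022010800040c084081020000101000808100021020008102100640081200c09006102040800004040020204002040040210000800106102040000101081000f083c0021e0c00408007841e0010f060008f06102040000104200020220002040010102020c180040820402102010810200020c004080c1040800102081000408001040800404080818408080040610084000820308004840a100040008188080c2000210200100820300100880a142000a080030410682061020010102840008184080000208101030008102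 = true := by decide +kernel
  obtain ⟨e, he, hp⟩ := NumGs.chkF4 h (by norm_num) (x := w) (y := t) (z := w + X) (w := Y)
    (by norm_num; linarith) (by norm_num; linarith) (by norm_num; linarith) (by norm_num; linarith)
    (by norm_num; linarith [hR.h0, hR.h1]) (by norm_num; linarith [hR.h0, hR.h1])
    (by norm_num; linarith [hR.h12]) (by norm_num; linarith [hR.h13])
  rw [List.mem_append] at he
  rcases he with he | he
  · simp only [List.mem_singleton] at he
    subst he
    rw [eO_val] at hp
    push_cast at hp
    linarith
  · exact absurd hp (not_lt.2 (hR.neg he))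

theorem o1_40_42_70 {w t X Y : ℝ} (a0 : 4000 / 10000 ≤ w) (b0 : w ≤ 4200 / 10000) (a1 : 700 / 10000 ≤ t)
    (b1 : t ≤ 940 / 10000) (hR : RO1 t X Y) :
    -(2630 / 10000) - (18500 / 10000) * t < fO 27 13831 1332 (-22354) (-540) 1478 w t X Y ∨
    -(2432 / 10000) - (20920 / 10000) * t < fO 27 13831 1332 (-22354) (-540) 1478 w t X Y := by
  have h : NumGs.chkF ([eL (-2630) 18500 (eO 27 13831 1332 (-22354) (-540) 1478), eL (-2432) 20920 (eO 27 13831 1332 (-22354) (-540) 1478)] ++ eRO1) 10000 0 0 0 0 60 4000 4200 700 940 4000 12200 0 770
      0x1020404082040408204041420010144050614082061040406100840614200000808510141840208005060840a142820006281051414002000418a12100090404504061000a14100030410083141000a04102020210180022848a12104820004181041450502100820a0050a141408006282830a00082081450500100820a001000a10003080450a14282800010003140808a14140800a282810414003142850502001820a285040004283040428a0a0c28104001841408200140820a080c1000804203020818208102850a28283080c281041400402101820a002010414002040c48a14285050628100020c50a082410308282000400189080c2040400081120818904285050a000010a282830414003142850500041820a282830a00105002828a0a00105000c1000a2828304140010a145050614285000800502100820a00105000c50a1414502060008a1414001140828a0a0c10500285051408003040c28a0a0c280041400a0a282800414003040028a080c10400041820810484060820004042050a08280040c48a1428200060420112084820628505000c280140828a0a00105000c5020a2428004042850c140020a0010308041820608102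 = true := by decide +kernel
  obtain ⟨e, he, hp⟩ := NumGs.chkF4 h (by norm_num) (x := w) (y := t) (z := w + X) (w := Y)
    (by norm_num; linarith) (by norm_num; linarith) (by norm_num; linarith) (by norm_num; linarith)
    (by norm_num; linarith [hR.h0, hR.h1]) (by norm_num; linarith [hR.h0, hR.h1])
    (by norm_num; linarith [hR.h7]) (by norm_num; linarith [hR.h8])
  rw [List.mem_append] at he
  rcases he with he | he
  · simp only [List.mem_cons, List.not_mem_nil, or_false] at he
    rcases he with rfl | rfl
    · rw [eO_val] at hp
      push_cast at hp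
      left
      linarith
    · rw [eO_val] at hp
      push_cast at hp
      right
      linarith
  · exact absurd hp (not_lt.2 (hR.neg he))

theorem o2_10_20_87 {w t X Y : ℝ} (a0 : 1000 / 10000 ≤ w) (b0 : w ≤ 2000 / 10000) (a1 : 870 / 10000 ≤ t)
    (b1 : t ≤ 1145 / 10000) (hR : RO2 t X Y) :
    -(1899 / 10000) - (24730 / 10000) * t < fO 23 15253 1657 1867 (-2435) 5457 w t X Y := by
  have h : NumGs.chkF ([eL (-1899) 24730 (eO 23 15253 1657 1867 (-2435) 5457)] ++ eRO2) 10000 0 0 0 450 60 1000 2000 870 1145 1800 9000 0 450
      0x4080030404002040008204000820408301040008102 = true := by decide +kernel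
  obtain ⟨e, he, hp⟩ := NumGs.chkF4 h (by norm_num) (x := w) (y := t) (z := w + X) (w := Y)
    (by norm_num; linarith) (by norm_num; linarith) (by norm_num; linarith) (by norm_num; linarith)
    (by norm_num; linarith [hR.h0, hR.h1, hR.h7]) (by norm_num; linarith [hR.h0, hR.h1])
    (by norm_num; linarith [hR.h8]) (by norm_num; linarith [hR.h9])
  rw [List.mem_append] at he
  rcases he with he | he
  · simp only [List.mem_singleton] at he
    subst he
    rw [eO_val] at hp
    push_cast at hp
    linarith
  · exact absurd hp (not_lt.2 (hR.neg he))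

end L2

end TL

end Pool.Agent.Work.MP_b30479_gtS.G2

end

section

/-!
# Tails, slot `0` of an interior three: rows WH
-/

set_option linter.unusedVariables false
set_option linter.unusedSimpArgs false
set_option linter.unusedTactic false

set_option deprecated.oldSectionVars true

namespace Pool.Agent.Work.MP_b30479_gtS.G2

open VOL NumUs

namespace TL

namespace L2

theorem tf_27_40 {w t X Y : ℝ} (a0 : 2700 / 10000 ≤ w) (b0 : w ≤ 4000 / 10000) (a1 : -(50 / 10000) ≤ t)
    (b1 : t ≤ 570 / 10000) (hR : RTf t X Y) :
    -(1620 / 10000) - (18750 / 10000) * t < fT 25 14568 1554 (-34132) (-976) 2881 w t X Y := by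
  have h : NumGs.chkF ([eL (-1620) 18750 (eT 25 14568 1554 (-34132) (-976) 2881)] ++ eRTf) 10000 0 50 0 680 60 2700 4000 0 620 8700 12000 0 1360
      0x810102000610200040c2040010104080020600102030400089060c30610102000610209060448306083000400204041000410000040800400081020000084081010108000c40004000840800204000820400102040000208001020206103000810002000400408101000810004080820400004041000202040020400102000810202040020400102040408003020c080040418408101000810004000820408101000410480120020408002040010009000c082000c20400102000810200000820404102000800001001020404002040810204020800106102040010200020c20400101810810202000c08004102000810202000820900240040800484080810008242020004209000c2090810102000410006042090010209001010004242041200480022418900080090808480120018408102020008484120048004000830608204061010408081040808202081000206104000810003081040406000020820004081018006102040620204080818300001041000204001020008084040808200060020408001840810004080c180040c00308101880808204000c40408102000010103081018206000020204204001020408002000810109000c080061020408042040804004040c20400080000410480081048000084830610200081000408082040800080061020208100800810004000c08408002020810004020020400240030810004000418008102010810200081000100102000410204001008008100020610204000c100000820900102090000109060c08308102020610201080c18408042040810103020c20406082040010202080c084081000106102000810003040c00200103820e100030810200080c0040810181061020308100030400102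 = true := by decide +kernel
  obtain ⟨e, he, hp⟩ := NumGs.chkF4 h (by norm_num) (x := w) (y := t) (z := w + X) (w := Y)
    (by norm_num; linarith) (by norm_num; linarith) (by norm_num; linarith) (by norm_num; linarith)
    (by norm_num; linarith [hR.h0, hR.h1, hR.h2]) (by norm_num; linarith [hR.h0, hR.h1])
    (by norm_num; linarith [hR.h5]) (by norm_num; linarith [hR.h6])
  rw [List.mem_append] at he
  rcases he with he | he
  · simp only [List.mem_singleton] at he
    subst he
    rw [eT_val] at hp
    push_cast at hp
    linarith
  · exact absurd hp (not_lt.2 (hR.neg he))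

theorem o1_30_40_70 {w t X Y : ℝ} (a0 : 3000 / 10000 ≤ w) (b0 : w ≤ 4000 / 10000) (a1 : 700 / 10000 ≤ t)
    (b1 : t ≤ 940 / 10000) (hR : RO1 t X Y) :
    -(2630 / 10000) - (18500 / 10000) * t < fO 27 13831 1332 (-16810) (-830) 1856 w t X Y ∨
    -(2432 / 10000) - (20920 / 10000) * t < fO 27 13831 1332 (-16810) (-830) 1856 w t X Y := by
  have h : NumGs.chkF ([eL (-2630) 18500 (eO 27 13831 1332 (-16810) (-830) 1856), eL (-2432) 20920 (eO 27 13831 1332 (-16810) (-830) 1856)] ++ eRO1) 10000 0 0 0 0 60 3000 4000 700 940 3000 12000 0 770
      0x1020008082040800102081010404082040a2020a0804103081028402082000404203080c2800410002080010a1210484000818110282810610484060808014245090800080020828a0804104002828a040410506100850028505140818a04145050008083141400a04145040214002060048406241040610001040c284001000a12101810a0c205080410004002050a28283080c201041018500100820800104000c4891428504000400908002000224103120850514081840a1000200281041210002020018a1410085000c5020a28504000428308041030a1000a14140000a0c281040050a14140831208505061400a1414001040050506140010608209080c20004042851414184061408402100820a001030a282801408285000c28108042030a0010006082040a082001210504020820006082030800100122450a0a2810300142850008280061428008000891218280060c104020c50a14100010a282800400189041428a0410185000820014142800614504060800508000820610200121018202004890c182860400006040c182062848908001810a1000406100090a24104000c283040c48412100020610180122448506140090c18280000c104020c50406100091210184000c10402001820008102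 = true := by decide +kernel
  obtain ⟨e, he, hp⟩ := NumGs.chkF4 h (by norm_num) (x := w) (y := t) (z := w + X) (w := Y)
    (by norm_num; linarith) (by norm_num; linarith) (by norm_num; linarith) (by norm_num; linarith)
    (by norm_num; linarith [hR.h0, hR.h1]) (by norm_num; linarith [hR.h0, hR.h1])
    (by norm_num; linarith [hR.h7]) (by norm_num; linarith [hR.h8])
  rw [List.mem_append] at he
  rcases he with he | he
  · simp only [List.mem_cons, List.not_mem_nil, or_false] at he
    rcases he with rfl | rfl
    · rw [eO_val] at hp
      push_cast at hp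
      left
      linarith
    · rw [eO_val] at hp
      push_cast at hp
      right
      linarith
  · exact absurd hp (not_lt.2 (hR.neg he))

theorem o2_0_2_87 {w t X Y : ℝ} (a0 : 0 / 10000 ≤ w) (b0 : w ≤ 200 / 10000) (a1 : 870 / 10000 ≤ t)
    (b1 : t ≤ 1145 / 10000) (hR : RO2 t X Y) :
    -(1899 / 10000) - (24730 / 10000) * t < fO 23 15253 1657 (-6159) 0 0 w t X Y := by
  have h : NumGs.chkF ([eL (-1899) 24730 (eO 23 15253 1657 (-6159) 0 0)] ++ eRO2) 10000 0 0 0 450 60 0 200 870 1145 800 7200 0 450
      0x102020810102 = true := by decide +kernel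
  obtain ⟨e, he, hp⟩ := NumGs.chkF4 h (by norm_num) (x := w) (y := t) (z := w + X) (w := Y)
    (by norm_num; linarith) (by norm_num; linarith) (by norm_num; linarith) (by norm_num; linarith)
    (by norm_num; linarith [hR.h0, hR.h1, hR.h7]) (by norm_num; linarith [hR.h0, hR.h1])
    (by norm_num; linarith [hR.h8]) (by norm_num; linarith [hR.h9])
  rw [List.mem_append] at he
  rcases he with he | he
  · simp only [List.mem_singleton] at he
    subst he
    rw [eO_val] at hp
    push_cast at hp
    linarith
  · exact absurd hp (not_lt.2 (hR.neg he))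

end L2

end TL

end Pool.Agent.Work.MP_b30479_gtS.G2

end

section

/-!
# Tails, slot `0` of an interior three: rows WI
-/

set_option linter.unusedVariables false
set_option linter.unusedSimpArgs false
set_option linter.unusedTactic false

set_option deprecated.oldSectionVars true

namespace Pool.Agent.Work.MP_b30479_gtS.G2

open VOL NumUs

namespace TL

namespace L2

theorem ri_25_3000_4000 {w t σ η : ℝ} (a0 : 3000 / 10000 ≤ w) (b0 : w ≤ 4000 / 10000) (a1 : -(570 / 10000) ≤ t)
    (b1 : t ≤ 40 / 10000) (a2 : -(2500 / 10000) ≤ σ) (b2 : σ ≤ 0 / 10000) (a3 : 0 ≤ η) (b3 : η ≤ 1045 / 10000)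
    (r1 : η ≤ 1045 / 10000 * (2 + 4 * σ)) :
    -(1886 / 10000) - (2810 / 10000) * t < fRr 16096 2430 (-36880) (-819) 2660 w t σ η := by
  have h : NumGs.chkF [eL (-1886) 2810 (eR 16096 2430 (-36880) (-819) 2660),
      .sub (.var 3) (.mul (.q 1045 10000) (.add (.q 2 1) (.mul (.q 4 1) (.var 2))))] 10000 0 570 2500 0 60 3000 4000 0 610 0 2500 0 1045
      0x408100000810003081010408002040008004080018008100040010204001010008100810810104000010408002000810200000818408101000610200081000308100040800182000820400101040808200081008000102000610204000010408082000800204081000004102000800204080000200102020800204001000404001840808200081000400101000810084001020008002020004204001020008002020010200020c08408002040010100080418200102040010102080c20400101840400184080c20408002000810004040820408100000810200000410108102000808104061008300101040810003080020408000020600102 = true := by decide +kernel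
  obtain ⟨e, he, hp⟩ := NumGs.chkF4 h (by norm_num) (x := w) (y := t) (z := σ) (w := η)
    (by norm_num; linarith) (by norm_num; linarith) (by norm_num; linarith) (by norm_num; linarith)
    (by norm_num; linarith) (by norm_num; linarith) (by norm_num; linarith) (by norm_num; linarith)
  simp only [List.mem_cons, List.not_mem_nil, or_false] at he
  rcases he with rfl | rfl
  · rw [eR_val] at hp
    push_cast at hp
    linarith
  · exfalso
    simp only [NumGs.E.val, NumIs.lkR] at hp
    push_cast at hp
    linarith

theorem o0_14_16_21 {w t X Y : ℝ} (a0 : 1400 / 10000 ≤ w) (b0 : w ≤ 1600 / 10000) (a1 : 210 / 10000 ≤ t)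
    (b1 : t ≤ 920 / 10000) (hR : RO0 t X Y) :
    -(2490 / 10000) - (19570 / 10000) * t < fO 23 15198 1725 1336 (-2383) 5368 w t X Y := by
  have h : NumGs.chkF ([eL (-2490) 19570 (eO 23 15198 1725 1336 (-2383) 5368)] ++ eRO0) 10000 0 0 0 910 60 1400 1600 210 920 1400 10200 0 1400
      0xa08102040408204200c104080820408102000008082040c083081000408100040810004081000408082040208001001020408000820810100081020400002040008080040c08106102040810004080820400101040410200081010400080010810202080020408000020210002060408304087840840090020478304102001e0c2040010200040820400102040008204000020400001100840084084000104108010040190060808f0610200081000404002040800104000880408100020800110064008308101040808004081000208001100810200044021000088030210800004018206102010810000081000220102000440080200c2040840081200c184080020002102040400104080020208400040404002200c0900604101043c1830810104081000008102020010204000020408002040010101000c202020c20400080840800204001020408001000610101083c00f001010f060c2040210204001010108401900210200040c0040810204040c004081008404401800210200040080302102040004110060420402102010208184080c102081010208102040208102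 = true := by decide +kernel
  obtain ⟨e, he, hp⟩ := NumGs.chkF4 h (by norm_num) (x := w) (y := t) (z := w + X) (w := Y)
    (by norm_num; linarith) (by norm_num; linarith) (by norm_num; linarith) (by norm_num; linarith)
    (by norm_num; linarith [hR.h0, hR.h1]) (by norm_num; linarith [hR.h0, hR.h1])
    (by norm_num; linarith [hR.h12]) (by norm_num; linarith [hR.h13])
  rw [List.mem_append] at he
  rcases he with he | he
  · simp only [List.mem_singleton] at he
    subst he
    rw [eO_val] at hp
    push_cast at hp
    linarith
  · exact absurd hp (not_lt.2 (hR.neg he))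

theorem o1_2_10_46 {w t X Y : ℝ} (a0 : 200 / 10000 ≤ w) (b0 : w ≤ 1000 / 10000) (a1 : 460 / 10000 ≤ t)
    (b1 : t ≤ 940 / 10000) (hR : RO1 t X Y) :
    -(2108 / 10000) - (23750 / 10000) * t < fO 23 15207 1713 (-3828) (-1498) 1753 w t X Y := by
  have h : NumGs.chkF ([eL (-2108) 23750 (eO 23 15207 1713 (-3828) (-1498) 1753)] ++ eRO1) 10000 0 0 0 0 60 200 1000 460 940 200 9000 0 770
      0x102020810000081000404082040008204082020508001030408102 = true := by decide +kernel
  obtain ⟨e, he, hp⟩ := NumGs.chkF4 h (by norm_num) (x := w) (y := t) (z := w + X) (w := Y)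
    (by norm_num; linarith) (by norm_num; linarith) (by norm_num; linarith) (by norm_num; linarith)
    (by norm_num; linarith [hR.h0, hR.h1]) (by norm_num; linarith [hR.h0, hR.h1])
    (by norm_num; linarith [hR.h7]) (by norm_num; linarith [hR.h8])
  rw [List.mem_append] at he
  rcases he with he | he
  · simp only [List.mem_singleton] at he
    subst he
    rw [eO_val] at hp
    push_cast at hp
    linarith
  · exact absurd hp (not_lt.2 (hR.neg he))

theorem ri_50_500_1000 {w t σ η : ℝ} (a0 : 500 / 10000 ≤ w) (b0 : w ≤ 1000 / 10000) (a1 : -(570 / 10000) ≤ t)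
    (b1 : t ≤ 40 / 10000) (a2 : 0 / 10000 ≤ σ) (b2 : σ ≤ 1250 / 10000) (a3 : 0 ≤ η) (b3 : η ≤ 1045 / 10000)
    (r1 : η ≤ 1045 / 10000 * (2 + 4 * σ)) :
    -(1886 / 10000) - (2810 / 10000) * t < fRr 16096 2430 (-15534) (-964) (-6827) w t σ η := by
  have h : NumGs.chkF [eL (-1886) 2810 (eR 16096 2430 (-15534) (-964) (-6827)),
      .sub (.var 3) (.mul (.q 1045 10000) (.add (.q 2 1) (.mul (.q 4 1) (.var 2))))] 10000 0 570 0 0 60 500 1000 0 610 0 1250 0 1045
      0x4 = true := by decide +kernel
  obtain ⟨e, he, hp⟩ := NumGs.chkF4 h (by norm_num) (x := w) (y := t) (z := σ) (w := η)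
    (by norm_num; linarith) (by norm_num; linarith) (by norm_num; linarith) (by norm_num; linarith)
    (by norm_num; linarith) (by norm_num; linarith) (by norm_num; linarith) (by norm_num; linarith)
  simp only [List.mem_cons, List.not_mem_nil, or_false] at he
  rcases he with rfl | rfl
  · rw [eR_val] at hp
    push_cast at hp
    linarith
  · exfalso
    simp only [NumGs.E.val, NumIs.lkR] at hp
    push_cast at hp
    linarith

end L2

end TL

end Pool.Agent.Work.MP_b30479_gtS.G2

end

section

/-!
# Tails, slot `0` of an interior three: rows WR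
-/

set_option linter.unusedVariables false
set_option linter.unusedSimpArgs false
set_option linter.unusedTactic false

set_option deprecated.oldSectionVars true

namespace Pool.Agent.Work.MP_b30479_gtS.G2

open VOL NumUs

namespace TL

namespace L2

theorem o2_20_30_87 {w t X Y : ℝ} (a0 : 2000 / 10000 ≤ w) (b0 : w ≤ 3000 / 10000) (a1 : 870 / 10000 ≤ t)
    (b1 : t ≤ 1145 / 10000) (hR : RO2 t X Y) :
    -(1899 / 10000) - (24730 / 10000) * t < fO 23 15253 1657 (-7608) (-1453) 2911 w t X Y := by
  have h : NumGs.chkF ([eL (-1899) 24730 (eO 23 15253 1657 (-7608) (-1453) 2911)] ++ eRO2) 10000 0 0 0 450 60 2000 3000 870 1145 2800 10000 0 450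
      0x102000c101000810002081000208100040800200081000c041000c04102000008102 = true := by decide +kernel
  obtain ⟨e, he, hp⟩ := NumGs.chkF4 h (by norm_num) (x := w) (y := t) (z := w + X) (w := Y)
    (by norm_num; linarith) (by norm_num; linarith) (by norm_num; linarith) (by norm_num; linarith)
    (by norm_num; linarith [hR.h0, hR.h1, hR.h7]) (by norm_num; linarith [hR.h0, hR.h1])
    (by norm_num; linarith [hR.h8]) (by norm_num; linarith [hR.h9])
  rw [List.mem_append] at he
  rcases he with he | he
  · simp only [List.mem_singleton] at he
    subst he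
    rw [eO_val] at hp
    push_cast at hp
    linarith
  · exact absurd hp (not_lt.2 (hR.neg he))

theorem o2_50_65_87 {w t X Y : ℝ} (a0 : 5000 / 10000 ≤ w) (b0 : w ≤ 6500 / 10000) (a1 : 870 / 10000 ≤ t)
    (b1 : t ≤ 1145 / 10000) (hR : RO2 t X Y) :
    -(2084 / 10000) - (23630 / 10000) * t < fO 27 13851 1307 (-30650) (-182) 1088 w t X Y := by
  have h : NumGs.chkF ([eL (-2084) 23630 (eO 27 13851 1307 (-30650) (-182) 1088)] ++ eRO2) 10000 0 0 0 450 60 5000 6500 870 1145 5800 13500 0 450
      0x1020400082000810202000820404082040410200181000408002000008102 = true := by decide +kernel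
  obtain ⟨e, he, hp⟩ := NumGs.chkF4 h (by norm_num) (x := w) (y := t) (z := w + X) (w := Y)
    (by norm_num; linarith) (by norm_num; linarith) (by norm_num; linarith) (by norm_num; linarith)
    (by norm_num; linarith [hR.h0, hR.h1, hR.h7]) (by norm_num; linarith [hR.h0, hR.h1])
    (by norm_num; linarith [hR.h8]) (by norm_num; linarith [hR.h9])
  rw [List.mem_append] at he
  rcases he with he | he
  · simp only [List.mem_singleton] at he
    subst he
    rw [eO_val] at hp
    push_cast at hp
    linarith
  · exact absurd hp (not_lt.2 (hR.neg he))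

theorem tw_5_10 {w t X Y : ℝ} (a0 : 500 / 10000 ≤ w) (b0 : w ≤ 1000 / 10000) (a1 : -(50 / 10000) ≤ t)
    (b1 : t ≤ 570 / 10000) (hR : RTw t X Y) :
    -(1620 / 10000) - (18750 / 10000) * t < fT 25 14568 1554 (-15534) (-964) (-6827) w t X Y := by
  have h : NumGs.chkF ([eL (-1620) 18750 (eT 25 14568 1554 (-15534) (-964) (-6827))] ++ eRTw) 10000 0 50 0 985 60 500 1000 0 620 500 7000 0 1945
      0x102030808202081020406102030608102 = true := by decide +kernel
  obtain ⟨e, he, hp⟩ := NumGs.chkF4 h (by norm_num) (x := w) (y := t) (z := w + X) (w := Y)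
    (by norm_num; linarith) (by norm_num; linarith) (by norm_num; linarith) (by norm_num; linarith)
    (by norm_num; linarith [hR.h0, hR.h1]) (by norm_num; linarith [hR.h0, hR.h1])
    (by norm_num; linarith [hR.h6]) (by norm_num; linarith [hR.h7])
  rw [List.mem_append] at he
  rcases he with he | he
  · simp only [List.mem_singleton] at he
    subst he
    rw [eT_val] at hp
    push_cast at hp
    linarith
  · exact absurd hp (not_lt.2 (hR.neg he))

theorem tw_2_5 {w t X Y : ℝ} (a0 : 200 / 10000 ≤ w) (b0 : w ≤ 500 / 10000) (a1 : -(50 / 10000) ≤ t)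
    (b1 : t ≤ 570 / 10000) (hR : RTw t X Y) :
    -(1620 / 10000) - (18750 / 10000) * t < fT 25 14568 1554 (-3288) (-5122) 29151 w t X Y := by
  have h : NumGs.chkF ([eL (-1620) 18750 (eT 25 14568 1554 (-3288) (-5122) 29151)] ++ eRTw) 10000 0 50 0 985 60 200 500 0 620 200 6500 0 1945
      0x408002020810204061c20308241830408102 = true := by decide +kernel
  obtain ⟨e, he, hp⟩ := NumGs.chkF4 h (by norm_num) (x := w) (y := t) (z := w + X) (w := Y)
    (by norm_num; linarith) (by norm_num; linarith) (by norm_num; linarith) (by norm_num; linarith)
    (by norm_num; linarith [hR.h0, hR.h1]) (by norm_num; linarith [hR.h0, hR.h1])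
    (by norm_num; linarith [hR.h6]) (by norm_num; linarith [hR.h7])
  rw [List.mem_append] at he
  rcases he with he | he
  · simp only [List.mem_singleton] at he
    subst he
    rw [eT_val] at hp
    push_cast at hp
    linarith
  · exact absurd hp (not_lt.2 (hR.neg he))

theorem ri_50_1000_2000 {w t σ η : ℝ} (a0 : 1000 / 10000 ≤ w) (b0 : w ≤ 2000 / 10000) (a1 : -(570 / 10000) ≤ t)
    (b1 : t ≤ 40 / 10000) (a2 : 0 / 10000 ≤ σ) (b2 : σ ≤ 1250 / 10000) (a3 : 0 ≤ η) (b3 : η ≤ 1045 / 10000)
    (r1 : η ≤ 1045 / 10000 * (2 + 4 * σ)) :
    -(1886 / 10000) - (2810 / 10000) * t < fRr 16096 2430 (-5515) (-3486) 8588 w t σ η := by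
  have h : NumGs.chkF [eL (-1886) 2810 (eR 16096 2430 (-5515) (-3486) 8588),
      .sub (.var 3) (.mul (.q 1045 10000) (.add (.q 2 1) (.mul (.q 4 1) (.var 2))))] 10000 0 570 0 0 60 1000 2000 0 610 0 1250 0 1045
      0x40808200 = true := by decide +kernel
  obtain ⟨e, he, hp⟩ := NumGs.chkF4 h (by norm_num) (x := w) (y := t) (z := σ) (w := η)
    (by norm_num; linarith) (by norm_num; linarith) (by norm_num; linarith) (by norm_num; linarith)
    (by norm_num; linarith) (by norm_num; linarith) (by norm_num; linarith) (by norm_num; linarith)
  simp only [List.mem_cons, List.not_mem_nil, or_false] at he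
  rcases he with rfl | rfl
  · rw [eR_val] at hp
    push_cast at hp
    linarith
  · exfalso
    simp only [NumGs.E.val, NumIs.lkR] at hp
    push_cast at hp
    linarith

theorem ri_25_0_200 {w t σ η : ℝ} (a0 : 0 / 10000 ≤ w) (b0 : w ≤ 200 / 10000) (a1 : -(570 / 10000) ≤ t)
    (b1 : t ≤ 40 / 10000) (a2 : -(2500 / 10000) ≤ σ) (b2 : σ ≤ 0 / 10000) (a3 : 0 ≤ η) (b3 : η ≤ 1045 / 10000)
    (r1 : η ≤ 1045 / 10000 * (2 + 4 * σ)) :
    -(1886 / 10000) - (2810 / 10000) * t < fRr 16096 2430 (-12308) 0 0 w t σ η := by
  have h : NumGs.chkF [eL (-1886) 2810 (eR 16096 2430 (-12308) 0 0),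
      .sub (.var 3) (.mul (.q 1045 10000) (.add (.q 2 1) (.mul (.q 4 1) (.var 2))))] 10000 0 570 2500 0 60 0 200 0 610 0 2500 0 1045
      0x10202 = true := by decide +kernel
  obtain ⟨e, he, hp⟩ := NumGs.chkF4 h (by norm_num) (x := w) (y := t) (z := σ) (w := η)
    (by norm_num; linarith) (by norm_num; linarith) (by norm_num; linarith) (by norm_num; linarith)
    (by norm_num; linarith) (by norm_num; linarith) (by norm_num; linarith) (by norm_num; linarith)
  simp only [List.mem_cons, List.not_mem_nil, or_false] at he
  rcases he with rfl | rfl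
  · rw [eR_val] at hp
    push_cast at hp
    linarith
  · exfalso
    simp only [NumGs.E.val, NumIs.lkR] at hp
    push_cast at hp
    linarith

theorem ri_25_200_500 {w t σ η : ℝ} (a0 : 200 / 10000 ≤ w) (b0 : w ≤ 500 / 10000) (a1 : -(570 / 10000) ≤ t)
    (b1 : t ≤ 40 / 10000) (a2 : -(2500 / 10000) ≤ σ) (b2 : σ ≤ 0 / 10000) (a3 : 0 ≤ η) (b3 : η ≤ 1045 / 10000)
    (r1 : η ≤ 1045 / 10000 * (2 + 4 * σ)) :
    -(1886 / 10000) - (2810 / 10000) * t < fRr 16096 2430 (-3288) (-5122) 29151 w t σ η := by
  have h : NumGs.chkF [eL (-1886) 2810 (eR 16096 2430 (-3288) (-5122) 29151),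
      .sub (.var 3) (.mul (.q 1045 10000) (.add (.q 2 1) (.mul (.q 4 1) (.var 2))))] 10000 0 570 2500 0 60 200 500 0 610 0 2500 0 1045
      0x10202 = true := by decide +kernel
  obtain ⟨e, he, hp⟩ := NumGs.chkF4 h (by norm_num) (x := w) (y := t) (z := σ) (w := η)
    (by norm_num; linarith) (by norm_num; linarith) (by norm_num; linarith) (by norm_num; linarith)
    (by norm_num; linarith) (by norm_num; linarith) (by norm_num; linarith) (by norm_num; linarith)
  simp only [List.mem_cons, List.not_mem_nil, or_false] at he
  rcases he with rfl | rfl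
  · rw [eR_val] at hp
    push_cast at hp
    linarith
  · exfalso
    simp only [NumGs.E.val, NumIs.lkR] at hp
    push_cast at hp
    linarith

end L2

end TL

end Pool.Agent.Work.MP_b30479_gtS.G2

end
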