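import Pool.Agent.Work.MP_b30479_gt.TBS.NumU.GenC
import Pool.Agent.Work.MP_b30479_gt.TBS.G2.TL2uT

/-!
# Tails, slot `0` of an interior three: rows WQ
-/

set_option linter.unusedVariables false
set_option linter.unusedSimpArgs false
set_option linter.unusedTactic false

set_option deprecated.oldSectionVars true

namespace Pool.Agent.Work.MP_b30479_gtS.G2

open VOL NumUs

namespace TL

namespace L2

theorem o1_10_20_46 {w t X Y : ℝ} (a0 : 1000 / 10000 ≤ w) (b0 : w ≤ 2000 / 10000) (a1 : 460 / 10000 ≤ t)
    (b1 : t ≤ 940 / 10000) (hR : RO1 t X Y) :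
    -(2108 / 10000) - (23750 / 10000) * t < fO 23 15207 1713 1867 (-2435) 5457 w t X Y := by
  have h : NumGs.chkF ([eL (-2108) 23750 (eO 23 15207 1713 1867 (-2435) 5457)] ++ eRO1) 10000 0 0 0 0 60 1000 2000 460 940 1000 10000 0 770
      0x40810100141018014102000800204001000408100000410200081000000041820810004141020008100020604004080010208100040408204001020010102000a14200000818410101820008102 = true := by decide +kernel
  obtain ⟨e, he, hp⟩ := NumGs.chkF4 h (by norm_num) (x := w) (y := t) (z := w + X) (w := Y)
    (by norm_num; linarith) (by norm_num; linarith) (by norm_num; linarith) (by norm_num; linarith)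
    (by norm_num; linarith [hR.h0, hR.h1]) (by norm_num; linarith [hR.h0, hR.h1])
    (by norm_num; linarith [hR.h7]) (by norm_num; linarith [hR.h8])
  rw [List.mem_append] at he
  rcases he with he | he
  · simp only [List.mem_singleton] at he
    subst he
    rw [eO_val] at hp
    push_cast at hp
    linarith
  · exact absurd hp (not_lt.2 (hR.neg he))

theorem ri_0_0_200 {w t σ η : ℝ} (a0 : 0 / 10000 ≤ w) (b0 : w ≤ 200 / 10000) (a1 : -(570 / 10000) ≤ t)
    (b1 : t ≤ 40 / 10000) (a2 : -(5000 / 10000) ≤ σ) (b2 : σ ≤ -(2500 / 10000)) (a3 : 0 ≤ η) (b3 : η ≤ 1045 / 10000)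
    (r1 : η ≤ 1045 / 10000 * (2 + 4 * σ)) :
    -(1886 / 10000) - (2810 / 10000) * t < fRr 16096 2430 (-12308) 0 0 w t σ η := by
  have h : NumGs.chkF [eL (-1886) 2810 (eR 16096 2430 (-12308) 0 0),
      .sub (.var 3) (.mul (.q 1045 10000) (.add (.q 2 1) (.mul (.q 4 1) (.var 2))))] 10000 0 570 5000 0 60 0 200 0 610 0 2500 0 1045
      0x4080020408081850810200041420404142040800204081008408002010008002000c103040c102 = true := by decide +kernel
  obtain ⟨e, he, hp⟩ := NumGs.chkF4 h (by norm_num) (x := w) (y := t) (z := σ) (w := η)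
    (by norm_num; linarith) (by norm_num; linarith) (by norm_num; linarith) (by norm_num; linarith)
    (by norm_num; linarith) (by norm_num; linarith) (by norm_num; linarith) (by norm_num; linarith)
  simp only [List.mem_cons, List.not_mem_nil, or_false] at he
  rcases he with rfl | rfl
  · rw [eR_val] at hp
    push_cast at hp
    linarith
  · exfalso
    simp only [NumGs.E.val, NumIs.lkR] at hp
    push_cast at hp
    linarith

theorem tw_40_50 {w t X Y : ℝ} (a0 : 4000 / 10000 ≤ w) (b0 : w ≤ 5000 / 10000) (a1 : -(50 / 10000) ≤ t)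
    (b1 : t ≤ 570 / 10000) (hR : RTw t X Y) :
    -(1620 / 10000) - (18750 / 10000) * t < fT 25 14568 1554 (-54403) 62 1552 w t X Y := by
  have h : NumGs.chkF ([eL (-1620) 18750 (eT 25 14568 1554 (-54403) 62 1552)] ++ eRTw) 10000 0 50 0 985 60 4000 5000 0 620 4000 11000 0 1945
      0x102030c004040610182081000408081040800182081010406102040008203040820408000040610204020020304102000810000080c384061c204000c20300102000608102 = true := by decide +kernel
  obtain ⟨e, he, hp⟩ := NumGs.chkF4 h (by norm_num) (x := w) (y := t) (z := w + X) (w := Y)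
    (by norm_num; linarith) (by norm_num; linarith) (by norm_num; linarith) (by norm_num; linarith)
    (by norm_num; linarith [hR.h0, hR.h1]) (by norm_num; linarith [hR.h0, hR.h1])
    (by norm_num; linarith [hR.h6]) (by norm_num; linarith [hR.h7])
  rw [List.mem_append] at he
  rcases he with he | he
  · simp only [List.mem_singleton] at he
    subst he
    rw [eT_val] at hp
    push_cast at hp
    linarith
  · exact absurd hp (not_lt.2 (hR.neg he))

theorem ri_0_4000_5000 {w t σ η : ℝ} (a0 : 4000 / 10000 ≤ w) (b0 : w ≤ 5000 / 10000) (a1 : -(570 / 10000) ≤ t)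
    (b1 : t ≤ 40 / 10000) (a2 : -(5000 / 10000) ≤ σ) (b2 : σ ≤ -(2500 / 10000)) (a3 : 0 ≤ η) (b3 : η ≤ 1045 / 10000)
    (r1 : η ≤ 1045 / 10000 * (2 + 4 * σ)) :
    -(1886 / 10000) - (2810 / 10000) * t < fRr 16096 2430 (-54403) 62 1552 w t σ η := by
  have h : NumGs.chkF [eL (-1886) 2810 (eR 16096 2430 (-54403) 62 1552),
      .sub (.var 3) (.mul (.q 1045 10000) (.add (.q 2 1) (.mul (.q 4 1) (.var 2))))] 10000 0 570 5000 0 60 4000 5000 0 610 0 2500 0 1045
      0x4080c204060820404142030410200080c1820a102820610200081000206142040010200060c102 = true := by decide +kernel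
  obtain ⟨e, he, hp⟩ := NumGs.chkF4 h (by norm_num) (x := w) (y := t) (z := σ) (w := η)
    (by norm_num; linarith) (by norm_num; linarith) (by norm_num; linarith) (by norm_num; linarith)
    (by norm_num; linarith) (by norm_num; linarith) (by norm_num; linarith) (by norm_num; linarith)
  simp only [List.mem_cons, List.not_mem_nil, or_false] at he
  rcases he with rfl | rfl
  · rw [eR_val] at hp
    push_cast at hp
    linarith
  · exfalso
    simp only [NumGs.E.val, NumIs.lkR] at hp
    push_cast at hp
    linarith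

theorem ri_25_5000_6500 {w t σ η : ℝ} (a0 : 5000 / 10000 ≤ w) (b0 : w ≤ 6500 / 10000) (a1 : -(570 / 10000) ≤ t)
    (b1 : t ≤ 40 / 10000) (a2 : -(2500 / 10000) ≤ σ) (b2 : σ ≤ 0 / 10000) (a3 : 0 ≤ η) (b3 : η ≤ 1045 / 10000)
    (r1 : η ≤ 1045 / 10000 * (2 + 4 * σ)) :
    -(1886 / 10000) - (2810 / 10000) * t < fRr 16096 2430 (-75876) 912 708 w t σ η := by
  have h : NumGs.chkF [eL (-1886) 2810 (eR 16096 2430 (-75876) 912 708),
      .sub (.var 3) (.mul (.q 1045 10000) (.add (.q 2 1) (.mul (.q 4 1) (.var 2))))] 10000 0 570 2500 0 60 5000 6500 0 610 0 2500 0 1045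
      0x1020008082040010104081000208100020000204081000304102000808002 = true := by decide +kernel
  obtain ⟨e, he, hp⟩ := NumGs.chkF4 h (by norm_num) (x := w) (y := t) (z := σ) (w := η)
    (by norm_num; linarith) (by norm_num; linarith) (by norm_num; linarith) (by norm_num; linarith)
    (by norm_num; linarith) (by norm_num; linarith) (by norm_num; linarith) (by norm_num; linarith)
  simp only [List.mem_cons, List.not_mem_nil, or_false] at he
  rcases he with rfl | rfl
  · rw [eR_val] at hp
    push_cast at hp
    linarith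
  · exfalso
    simp only [NumGs.E.val, NumIs.lkR] at hp
    push_cast at hp
    linarith

theorem o0_0_2_21 {w t X Y : ℝ} (a0 : 0 / 10000 ≤ w) (b0 : w ≤ 200 / 10000) (a1 : 210 / 10000 ≤ t)
    (b1 : t ≤ 920 / 10000) (hR : RO0 t X Y) :
    -(2490 / 10000) - (19570 / 10000) * t < fO 23 15198 1725 (-6159) 0 0 w t X Y := by
  have h : NumGs.chkF ([eL (-2490) 19570 (eO 23 15198 1725 (-6159) 0 0)] ++ eRO0) 10000 0 0 0 910 60 0 200 210 920 0 8800 0 1400
      0x408102000208202081010f08400820810082023c1830810204020c2040240184040418404082020810204080c20d0610202080410408040820408102 = true := by decide +kernel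
  obtain ⟨e, he, hp⟩ := NumGs.chkF4 h (by norm_num) (x := w) (y := t) (z := w + X) (w := Y)
    (by norm_num; linarith) (by norm_num; linarith) (by norm_num; linarith) (by norm_num; linarith)
    (by norm_num; linarith [hR.h0, hR.h1]) (by norm_num; linarith [hR.h0, hR.h1])
    (by norm_num; linarith [hR.h12]) (by norm_num; linarith [hR.h13])
  rw [List.mem_append] at he
  rcases he with he | he
  · simp only [List.mem_singleton] at he
    subst he
    rw [eO_val] at hp
    push_cast at hp
    linarith
  · exact absurd hp (not_lt.2 (hR.neg he))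

theorem ri_0_600_700 {w t σ η : ℝ} (a0 : 600 / 10000 ≤ w) (b0 : w ≤ 700 / 10000) (a1 : -(570 / 10000) ≤ t)
    (b1 : t ≤ 40 / 10000) (a2 : -(5000 / 10000) ≤ σ) (b2 : σ ≤ -(2500 / 10000)) (a3 : 0 ≤ η) (b3 : η ≤ 1045 / 10000)
    (r1 : η ≤ 1045 / 10000 * (2 + 4 * σ)) :
    -(1886 / 10000) - (2810 / 10000) * t < fRr 16096 2430 (-6526) (-3780) 15181 w t σ η := by
  have h : NumGs.chkF [eL (-1886) 2810 (eR 16096 2430 (-6526) (-3780) 15181),
      .sub (.var 3) (.mul (.q 1045 10000) (.add (.q 2 1) (.mul (.q 4 1) (.var 2))))] 10000 0 570 5000 0 60 600 700 0 610 0 2500 0 1045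
      0x10202081020206082050410201081010404081850810084040c2040408102 = true := by decide +kernel
  obtain ⟨e, he, hp⟩ := NumGs.chkF4 h (by norm_num) (x := w) (y := t) (z := σ) (w := η)
    (by norm_num; linarith) (by norm_num; linarith) (by norm_num; linarith) (by norm_num; linarith)
    (by norm_num; linarith) (by norm_num; linarith) (by norm_num; linarith) (by norm_num; linarith)
  simp only [List.mem_cons, List.not_mem_nil, or_false] at he
  rcases he with rfl | rfl
  · rw [eR_val] at hp
    push_cast at hp
    linarith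
  · exfalso
    simp only [NumGs.E.val, NumIs.lkR] at hp
    push_cast at hp
    linarith

theorem tf_40_50 {w t X Y : ℝ} (a0 : 4000 / 10000 ≤ w) (b0 : w ≤ 5000 / 10000) (a1 : -(50 / 10000) ≤ t)
    (b1 : t ≤ 570 / 10000) (hR : RTf t X Y) :
    -(1620 / 10000) - (18750 / 10000) * t < fT 25 14568 1554 (-54403) 62 1552 w t X Y := by
  have h : NumGs.chkF ([eL (-1620) 18750 (eT 25 14568 1554 (-54403) 62 1552)] ++ eRTf) 10000 0 50 0 680 60 4000 5000 0 620 10000 13000 0 1360
      0x202030810089060c308080c20400241830400204080000408100800810480000c182081018408002040210183081000406080040808204000c102 = true := by decide +kernel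
  obtain ⟨e, he, hp⟩ := NumGs.chkF4 h (by norm_num) (x := w) (y := t) (z := w + X) (w := Y)
    (by norm_num; linarith) (by norm_num; linarith) (by norm_num; linarith) (by norm_num; linarith)
    (by norm_num; linarith [hR.h0, hR.h1, hR.h2]) (by norm_num; linarith [hR.h0, hR.h1])
    (by norm_num; linarith [hR.h5]) (by norm_num; linarith [hR.h6])
  rw [List.mem_append] at he
  rcases he with he | he
  · simp only [List.mem_singleton] at he
    subst he
    rw [eT_val] at hp
    push_cast at hp
    linarith
  · exact absurd hp (not_lt.2 (hR.neg he))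

theorem tf_50_65 {w t X Y : ℝ} (a0 : 5000 / 10000 ≤ w) (b0 : w ≤ 6500 / 10000) (a1 : -(50 / 10000) ≤ t)
    (b1 : t ≤ 570 / 10000) (hR : RTf t X Y) :
    -(1620 / 10000) - (18750 / 10000) * t < fT 25 14568 1554 (-75876) 912 708 w t X Y := by
  have h : NumGs.chkF ([eL (-1620) 18750 (eT 25 14568 1554 (-75876) 912 708)] ++ eRTf) 10000 0 50 0 680 60 5000 6500 0 620 11000 14500 0 1360
      0x4080c204060020406083040c00206000c300040020400102040600104081008300082040010104080c204080c00200102040000102 = true := by decide +kernel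
  obtain ⟨e, he, hp⟩ := NumGs.chkF4 h (by norm_num) (x := w) (y := t) (z := w + X) (w := Y)
    (by norm_num; linarith) (by norm_num; linarith) (by norm_num; linarith) (by norm_num; linarith)
    (by norm_num; linarith [hR.h0, hR.h1, hR.h2]) (by norm_num; linarith [hR.h0, hR.h1])
    (by norm_num; linarith [hR.h5]) (by norm_num; linarith [hR.h6])
  rw [List.mem_append] at he
  rcases he with he | he
  · simp only [List.mem_singleton] at he
    subst he
    rw [eT_val] at hp
    push_cast at hp
    linarith
  · exact absurd hp (not_lt.2 (hR.neg he))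

theorem tk_40_50 {w t X Y : ℝ} (a0 : 4000 / 10000 ≤ w) (b0 : w ≤ 5000 / 10000) (a1 : -(220 / 10000) ≤ t)
    (b1 : t ≤ 220 / 10000) (hR : RTk t X Y) :
    -(1572 / 10000) - (13080 / 10000) * t < fT 18 16096 2468 (-54403) 62 1552 w t X Y := by
  have h : NumGs.chkF ([eL (-1572) 13080 (eT 18 16096 2468 (-54403) 62 1552)] ++ eRTk) 10000 0 220 0 1230 60 4000 5000 0 440 4000 13000 0 1280
      0x40804203081020100102030008204080020308080020810004080810208100040800104080020404102020008102 = true := by decide +kernel
  obtain ⟨e, he, hp⟩ := NumGs.chkF4 h (by norm_num) (x := w) (y := t) (z := w + X) (w := Y)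
    (by norm_num; linarith) (by norm_num; linarith) (by norm_num; linarith) (by norm_num; linarith)
    (by norm_num; linarith [hR.h0, hR.h1]) (by norm_num; linarith [hR.h0, hR.h1])
    (by norm_num; linarith [hR.h6]) (by norm_num; linarith [hR.h7])
  rw [List.mem_append] at he
  rcases he with he | he
  · simp only [List.mem_singleton] at he
    subst he
    rw [eT_val] at hp
    push_cast at hp
    linarith
  · exact absurd hp (not_lt.2 (hR.neg he))

theorem ri_0_500_600 {w t σ η : ℝ} (a0 : 500 / 10000 ≤ w) (b0 : w ≤ 600 / 10000) (a1 : -(570 / 10000) ≤ t)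
    (b1 : t ≤ 40 / 10000) (a2 : -(5000 / 10000) ≤ σ) (b2 : σ ≤ -(2500 / 10000)) (a3 : 0 ≤ η) (b3 : η ≤ 1045 / 10000)
    (r1 : η ≤ 1045 / 10000 * (2 + 4 * σ)) :
    -(1886 / 10000) - (2810 / 10000) * t < fRr 16096 2430 (-5508) (-4120) 18019 w t σ η := by
  have h : NumGs.chkF [eL (-1886) 2810 (eR 16096 2430 (-5508) (-4120) 18019),
      .sub (.var 3) (.mul (.q 1045 10000) (.add (.q 2 1) (.mul (.q 4 1) (.var 2))))] 10000 0 570 5000 0 60 500 600 0 610 0 2500 0 1045
      0x4080820406082040010204040818508102010804184040c102 = true := by decide +kernel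
  obtain ⟨e, he, hp⟩ := NumGs.chkF4 h (by norm_num) (x := w) (y := t) (z := σ) (w := η)
    (by norm_num; linarith) (by norm_num; linarith) (by norm_num; linarith) (by norm_num; linarith)
    (by norm_num; linarith) (by norm_num; linarith) (by norm_num; linarith) (by norm_num; linarith)
  simp only [List.mem_cons, List.not_mem_nil, or_false] at he
  rcases he with rfl | rfl
  · rw [eR_val] at hp
    push_cast at hp
    linarith
  · exfalso
    simp only [NumGs.E.val, NumIs.lkR] at hp
    push_cast at hp
    linarith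

theorem o2_30_40_87 {w t X Y : ℝ} (a0 : 3000 / 10000 ≤ w) (b0 : w ≤ 4000 / 10000) (a1 : 870 / 10000 ≤ t)
    (b1 : t ≤ 1145 / 10000) (hR : RO2 t X Y) :
    -(2084 / 10000) - (23630 / 10000) * t < fO 27 13851 1307 (-16810) (-830) 1856 w t X Y := by
  have h : NumGs.chkF ([eL (-2084) 23630 (eO 27 13851 1307 (-16810) (-830) 1856)] ++ eRO2) 10000 0 0 0 450 60 3000 4000 870 1145 3800 11000 0 450
      0x4081000a06082040800002081010208101040810002080060400301041808200080400406301041810002080000c041020c04100020008102 = true := by decide +kernel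
  obtain ⟨e, he, hp⟩ := NumGs.chkF4 h (by norm_num) (x := w) (y := t) (z := w + X) (w := Y)
    (by norm_num; linarith) (by norm_num; linarith) (by norm_num; linarith) (by norm_num; linarith)
    (by norm_num; linarith [hR.h0, hR.h1, hR.h7]) (by norm_num; linarith [hR.h0, hR.h1])
    (by norm_num; linarith [hR.h8]) (by norm_num; linarith [hR.h9])
  rw [List.mem_append] at he
  rcases he with he | he
  · simp only [List.mem_singleton] at he
    subst he
    rw [eO_val] at hp
    push_cast at hp
    linarith
  · exact absurd hp (not_lt.2 (hR.neg he))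

theorem tw_50_65 {w t X Y : ℝ} (a0 : 5000 / 10000 ≤ w) (b0 : w ≤ 6500 / 10000) (a1 : -(50 / 10000) ≤ t)
    (b1 : t ≤ 570 / 10000) (hR : RTw t X Y) :
    -(1620 / 10000) - (18750 / 10000) * t < fT 25 14568 1554 (-75876) 912 708 w t X Y := by
  have h : NumGs.chkF ([eL (-1620) 18750 (eT 25 14568 1554 (-75876) 912 708)] ++ eRTw) 10000 0 50 0 985 60 5000 6500 0 620 5000 12500 0 1945
      0x408083040c00100081020300082040010184080c20400081020810184081000004102040000284001410408002030008102 = true := by decide +kernel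
  obtain ⟨e, he, hp⟩ := NumGs.chkF4 h (by norm_num) (x := w) (y := t) (z := w + X) (w := Y)
    (by norm_num; linarith) (by norm_num; linarith) (by norm_num; linarith) (by norm_num; linarith)
    (by norm_num; linarith [hR.h0, hR.h1]) (by norm_num; linarith [hR.h0, hR.h1])
    (by norm_num; linarith [hR.h6]) (by norm_num; linarith [hR.h7])
  rw [List.mem_append] at he
  rcases he with he | he
  · simp only [List.mem_singleton] at he
    subst he
    rw [eT_val] at hp
    push_cast at hp
    linarith
  · exact absurd hp (not_lt.2 (hR.neg he))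

theorem tk_2_5 {w t X Y : ℝ} (a0 : 200 / 10000 ≤ w) (b0 : w ≤ 500 / 10000) (a1 : -(220 / 10000) ≤ t)
    (b1 : t ≤ 220 / 10000) (hR : RTk t X Y) :
    -(1572 / 10000) - (13080 / 10000) * t < fT 18 16096 2468 (-3288) (-5122) 29151 w t X Y := by
  have h : NumGs.chkF ([eL (-1572) 13080 (eT 18 16096 2468 (-3288) (-5122) 29151)] ++ eRTk) 10000 0 220 0 1230 60 200 500 0 440 200 8500 0 1280
      0x102010c1020004002020808204021008408001000810104000c204040c2040608202080820408102030408102 = true := by decide +kernel
  obtain ⟨e, he, hp⟩ := NumGs.chkF4 h (by norm_num) (x := w) (y := t) (z := w + X) (w := Y)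
    (by norm_num; linarith) (by norm_num; linarith) (by norm_num; linarith) (by norm_num; linarith)
    (by norm_num; linarith [hR.h0, hR.h1]) (by norm_num; linarith [hR.h0, hR.h1])
    (by norm_num; linarith [hR.h6]) (by norm_num; linarith [hR.h7])
  rw [List.mem_append] at he
  rcases he with he | he
  · simp only [List.mem_singleton] at he
    subst he
    rw [eT_val] at hp
    push_cast at hp
    linarith
  · exact absurd hp (not_lt.2 (hR.neg he))

theorem ri_25_1000_2000 {w t σ η : ℝ} (a0 : 1000 / 10000 ≤ w) (b0 : w ≤ 2000 / 10000) (a1 : -(570 / 10000) ≤ t)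
    (b1 : t ≤ 40 / 10000) (a2 : -(2500 / 10000) ≤ σ) (b2 : σ ≤ 0 / 10000) (a3 : 0 ≤ η) (b3 : η ≤ 1045 / 10000)
    (r1 : η ≤ 1045 / 10000 * (2 + 4 * σ)) :
    -(1886 / 10000) - (2810 / 10000) * t < fRr 16096 2430 (-5515) (-3486) 8588 w t σ η := by
  have h : NumGs.chkF [eL (-1886) 2810 (eR 16096 2430 (-5515) (-3486) 8588),
      .sub (.var 3) (.mul (.q 1045 10000) (.add (.q 2 1) (.mul (.q 4 1) (.var 2))))] 10000 0 570 2500 0 60 1000 2000 0 610 0 2500 0 1045
      0x10202080020400100040800204000c2040200102 = true := by decide +kernel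
  obtain ⟨e, he, hp⟩ := NumGs.chkF4 h (by norm_num) (x := w) (y := t) (z := σ) (w := η)
    (by norm_num; linarith) (by norm_num; linarith) (by norm_num; linarith) (by norm_num; linarith)
    (by norm_num; linarith) (by norm_num; linarith) (by norm_num; linarith) (by norm_num; linarith)
  simp only [List.mem_cons, List.not_mem_nil, or_false] at he
  rcases he with rfl | rfl
  · rw [eR_val] at hp
    push_cast at hp
    linarith
  · exfalso
    simp only [NumGs.E.val, NumIs.lkR] at hp
    push_cast at hp
    linarith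

theorem tk_50_65 {w t X Y : ℝ} (a0 : 5000 / 10000 ≤ w) (b0 : w ≤ 6500 / 10000) (a1 : -(220 / 10000) ≤ t)
    (b1 : t ≤ 220 / 10000) (hR : RTk t X Y) :
    -(1572 / 10000) - (13080 / 10000) * t < fT 18 16096 2468 (-75876) 912 708 w t X Y := by
  have h : NumGs.chkF ([eL (-1572) 13080 (eT 18 16096 2468 (-75876) 912 708)] ++ eRTk) 10000 0 220 0 1230 60 5000 6500 0 440 5000 14500 0 1280
      0x102040008304040020400102040008002081000404082040410104080020504102000008102 = true := by decide +kernel
  obtain ⟨e, he, hp⟩ := NumGs.chkF4 h (by norm_num) (x := w) (y := t) (z := w + X) (w := Y)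
    (by norm_num; linarith) (by norm_num; linarith) (by norm_num; linarith) (by norm_num; linarith)
    (by norm_num; linarith [hR.h0, hR.h1]) (by norm_num; linarith [hR.h0, hR.h1])
    (by norm_num; linarith [hR.h6]) (by norm_num; linarith [hR.h7])
  rw [List.mem_append] at he
  rcases he with he | he
  · simp only [List.mem_singleton] at he
    subst he
    rw [eT_val] at hp
    push_cast at hp
    linarith
  · exact absurd hp (not_lt.2 (hR.neg he))

theorem o1_0_2_46 {w t X Y : ℝ} (a0 : 0 / 10000 ≤ w) (b0 : w ≤ 200 / 10000) (a1 : 460 / 10000 ≤ t)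
    (b1 : t ≤ 940 / 10000) (hR : RO1 t X Y) :
    -(2108 / 10000) - (23750 / 10000) * t < fO 23 15207 1713 (-6159) 0 0 w t X Y := by
  have h : NumGs.chkF ([eL (-2108) 23750 (eO 23 15207 1713 (-6159) 0 0)] ++ eRO1) 10000 0 0 0 0 60 0 200 460 940 0 8200 0 770
      0x408082020810204101018408001020408102 = true := by decide +kernel
  obtain ⟨e, he, hp⟩ := NumGs.chkF4 h (by norm_num) (x := w) (y := t) (z := w + X) (w := Y)
    (by norm_num; linarith) (by norm_num; linarith) (by norm_num; linarith) (by norm_num; linarith)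
    (by norm_num; linarith [hR.h0, hR.h1]) (by norm_num; linarith [hR.h0, hR.h1])
    (by norm_num; linarith [hR.h7]) (by norm_num; linarith [hR.h8])
  rw [List.mem_append] at he
  rcases he with he | he
  · simp only [List.mem_singleton] at he
    subst he
    rw [eO_val] at hp
    push_cast at hp
    linarith
  · exact absurd hp (not_lt.2 (hR.neg he))

theorem ri_25_500_1000 {w t σ η : ℝ} (a0 : 500 / 10000 ≤ w) (b0 : w ≤ 1000 / 10000) (a1 : -(570 / 10000) ≤ t)
    (b1 : t ≤ 40 / 10000) (a2 : -(2500 / 10000) ≤ σ) (b2 : σ ≤ 0 / 10000) (a3 : 0 ≤ η) (b3 : η ≤ 1045 / 10000)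
    (r1 : η ≤ 1045 / 10000 * (2 + 4 * σ)) :
    -(1886 / 10000) - (2810 / 10000) * t < fRr 16096 2430 (-15534) (-964) (-6827) w t σ η := by
  have h : NumGs.chkF [eL (-1886) 2810 (eR 16096 2430 (-15534) (-964) (-6827)),
      .sub (.var 3) (.mul (.q 1045 10000) (.add (.q 2 1) (.mul (.q 4 1) (.var 2))))] 10000 0 570 2500 0 60 500 1000 0 610 0 2500 0 1045
      0x40810002 = true := by decide +kernel
  obtain ⟨e, he, hp⟩ := NumGs.chkF4 h (by norm_num) (x := w) (y := t) (z := σ) (w := η)
    (by norm_num; linarith) (by norm_num; linarith) (by norm_num; linarith) (by norm_num; linarith)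
    (by norm_num; linarith) (by norm_num; linarith) (by norm_num; linarith) (by norm_num; linarith)
  simp only [List.mem_cons, List.not_mem_nil, or_false] at he
  rcases he with rfl | rfl
  · rw [eR_val] at hp
    push_cast at hp
    linarith
  · exfalso
    simp only [NumGs.E.val, NumIs.lkR] at hp
    push_cast at hp
    linarith

end L2

end TL

end Pool.Agent.Work.MP_b30479_gtS.G2
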