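import Pool.Agent.Work.MP_b30479_gt.TBS.G2.TK1t
import Pool.Agent.Work.MP_b30479_gt.TBS.G2.TL2uQ
import Pool.Agent.Work.MP_b30479_gt.TBS.G2.TE1T
import Pool.Agent.Work.MP_b30479_gt.TBS.G2.TL2uT
import Pool.Agent.Work.MP_b30479_gt.TBS.G2.TL2uWC
import Pool.Agent.Work.MP_b30479_gt.TBS.G2.TL2uWN
import Pool.Agent.Work.MP_b30479_gt.TBS.G2.TL2uWD
import Pool.Agent.Work.MP_b30479_gt.TBS.G2.TL2uWJ
import Pool.Agent.Work.MP_b30479_gt.TBS.G2.TL2uWL
import Pool.Agent.Work.MP_b30479_gt.TBS.G2.TL2uWP
import Pool.Agent.Work.MP_b30479_gt.TBS.G2.TL2uWQ
import Pool.Agent.Work.MP_b30479_gt.TBS.G2.TDef3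
import Pool.Agent.Work.MP_b30479_gt.TBS.NumU.GenD

section

/-!
# Tails, interior three with its inner variable in the tail: all pairs of lines
-/

set_option deprecated.oldSectionVars true

namespace Pool.Agent.Work.MP_b30479_gtS.G2

open VOL SR NumUs

namespace TL

namespace L2

/-- the slot `0` -/
def TU : List Ln :=
  [⟨.one, 23, -920, -210, -2490, 1957⟩, ⟨.one, 23, -940, -460, -2108, 2375⟩,
   ⟨.one, 23, -1145, -870, -1899, 2473⟩,
   ⟨.one, 27, -920, -210, -2283, 2225⟩, ⟨.one, 27, -700, -460, -2394, 2188⟩,
   ⟨.one, 27, -940, -700, -2630, 1850⟩, ⟨.one, 27, -940, -700, -2432, 2092⟩,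
   ⟨.one, 27, -1145, -870, -2084, 2363⟩,
   ⟨.two, 25, -570, 50, -1620, 1875⟩, ⟨.twoE, 22, -980, -760, -1206, 1950⟩,
   ⟨.three, 18, -220, 220, -1572, 1308⟩, ⟨.threeE, 22, -280, -50, -1190, 1378⟩,
   ⟨.ring, 18, -40, 570, -1886, 281⟩,
   ⟨.one, 20, -1145, -210, -1403, 2360⟩, ⟨.two, 20, -570, 50, -1403, 2360⟩,
   ⟨.twoE, 20, -980, -760, -1403, 2360⟩, ⟨.three, 20, -220, 220, -1403, 2360⟩,
   ⟨.threeE, 20, -280, -50, -1403, 2360⟩, ⟨.ring, 20, -40, 570, -1403, 2360⟩]

theorem okP_all : (TU.all fun u => TW.all fun w => okP u w) = true := by decide +kernel

/-- all pairs of lines -/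
theorem pair_pos {u w : Ln} (hu : u ∈ TU) (hw : w ∈ TW) {tu m tw : ℝ}
    (tu0 : (u.t0 : ℝ) / 10000 ≤ tu) (tu1 : tu ≤ (u.t1 : ℝ) / 10000)
    (tw0 : (w.t0 : ℝ) / 10000 ≤ tw) (tw1 : tw ≤ (w.t1 : ℝ) / 10000)
    (m0 : (mw u.cl w.cl).t0 ≤ m) (m1 : m ≤ (mw u.cl w.cl).t1)
    (s0 : (mw u.cl w.cl).s0 ≤ m - tu) (s1 : m - tu ≤ (mw u.cl w.cl).s1) :
    0 < V3 ⟨(u.c : ℝ) / 100, tu⟩ ⟨9 / 20, m⟩ ⟨(w.c : ℝ) / 100, tw⟩ +
      ((u.a : ℝ) / 10000 + (u.e : ℝ) / 1000 * tu) + ((w.a : ℝ) / 10000 + (w.e : ℝ) / 1000 * tw) := by
  have h := okP_all
  rw [List.all_eq_true] at h
  have h2 := h u hu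
  rw [List.all_eq_true] at h2
  exact okP_sound (h2 w hw) tu0 tu1 tw0 tw1 m0 m1 s0 s1

end L2

end TL

end Pool.Agent.Work.MP_b30479_gtS.G2

end

section

/-!
# Tails, slot `0` of an interior three: the real functions of the old position
-/

set_option linter.unusedVariables false

set_option deprecated.oldSectionVars true

namespace Pool.Agent.Work.MP_b30479_gtS.G2

open VOL NumUs

namespace TL

namespace L2

theorem c02 : -(615 / 10000) < uu (2 / 100) 0 := by
  have h : NumGs.chkF [.add (.uw (.var 0) (.q 0 1)) (.q 615 10000)] 10000 0 0 0 0 60 200 200 0 0 0 0 0 0 4 = true := by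
    decide +kernel
  obtain ⟨e, he, hp⟩ := NumGs.chkF4 h (by norm_num) (x := 2 / 100) (y := 0) (z := 0) (w := 0)
    (by norm_num) (by norm_num) (by norm_num) (by norm_num) (by norm_num) (by norm_num)
    (by norm_num) (by norm_num)
  simp only [List.mem_singleton] at he
  subst he
  simp only [NumGs.E.val, NumIs.lkR] at hp
  push_cast at hp
  simp only [zero_div] at hp
  linarith only [hp]

theorem c78 : 616 / 10000 < uu (78 / 100) 0 := by
  have h : NumGs.chkF [.sub (.uw (.var 0) (.q 0 1)) (.q 616 10000)] 10000 0 0 0 0 60 7800 7800 0 0 0 0 0 0 4 = true := by
    decide +kernel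
  obtain ⟨e, he, hp⟩ := NumGs.chkF4 h (by norm_num) (x := 78 / 100) (y := 0) (z := 0) (w := 0)
    (by norm_num) (by norm_num) (by norm_num) (by norm_num) (by norm_num) (by norm_num)
    (by norm_num) (by norm_num)
  simp only [List.mem_singleton] at he
  subst he
  simp only [NumGs.E.val, NumIs.lkR] at hp
  push_cast at hp
  simp only [zero_div] at hp
  linarith only [hp]

theorem G2_0_200 {u l : ℝ} (h8 : 8 / 10 ≤ l) (h1 : l ≤ 1) (a0 : 0 / 10000 ≤ u) (b0 : u ≤ 200 / 10000) :
    -(6159 / 100000) + u * ((0 / 1000) + (0 / 1000) * u) ≤ 2 * uu u 0 + uu (l - u) 0 := by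
  have hW := E1.W_v (w := u) (by linarith only [a0]) (by linarith only [b0])
  have c0 := c02
  have c1 := c78
  have hm := uu_real_mono (a := 78 / 100) (b := 8 / 10 - u) (by norm_num) (by linarith only [b0]) (by linarith only [a0])
  rcases lu_or (u := u) h8 h1 (by linarith only [a0]) (by linarith only [b0]) with h | ⟨_, h⟩ <;> linarith only [hW, c0, c1, hm, h]

theorem G2_200_1000 {u l : ℝ} (h8 : 8 / 10 ≤ l) (h1 : l ≤ 1) (a0 : 200 / 10000 ≤ u) (b0 : u ≤ 1000 / 10000) :
    -(3828 / 100000) + u * ((-(1498 / 1000)) + (1753 / 1000) * u) ≤ 2 * uu u 0 + uu (l - u) 0 := by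
  rcases lu_or (u := u) h8 h1 (by linarith only [a0]) (by linarith only [b0]) with h | ⟨h6, h⟩
  · have := g2_200_1000_a (w := u) (by linarith only [a0]) (by linarith only [b0])
    linarith only [h, this]
  · have := g2_200_1000_b (w := u) (by linarith only [a0]) (by linarith only [b0])
    linarith only [h, this]

theorem G2_1000_1200 {u l : ℝ} (h8 : 8 / 10 ≤ l) (h1 : l ≤ 1) (a0 : 1000 / 10000 ≤ u) (b0 : u ≤ 1200 / 10000) :
    5118 / 100000 + u * ((-(2971 / 1000)) + (7667 / 1000) * u) ≤ 2 * uu u 0 + uu (l - u) 0 := by
  rcases lu_or (u := u) h8 h1 (by linarith only [a0]) (by linarith only [b0]) with h | ⟨h6, h⟩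
  · have := g2_1000_1200_a (w := u) (by linarith only [a0]) (by linarith only [b0])
    linarith only [h, this]
  · have := g2_1000_1200_b (w := u) (by linarith only [a0]) (by linarith only [b0])
    linarith only [h, this]

theorem G2_1000_2000 {u l : ℝ} (h8 : 8 / 10 ≤ l) (h1 : l ≤ 1) (a0 : 1000 / 10000 ≤ u) (b0 : u ≤ 2000 / 10000) :
    1867 / 100000 + u * ((-(2435 / 1000)) + (5457 / 1000) * u) ≤ 2 * uu u 0 + uu (l - u) 0 := by
  rcases lu_or (u := u) h8 h1 (by linarith only [a0]) (by linarith only [b0]) with h | ⟨h6, h⟩
  · have := g2_1000_2000_a (w := u) (by linarith only [a0]) (by linarith only [b0])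
    linarith only [h, this]
  · have := g2_1000_2000_b (w := u) (by linarith only [a0]) (by linarith only [h6])
    linarith only [h, this]

theorem G2_1200_1400 {u l : ℝ} (h8 : 8 / 10 ≤ l) (h1 : l ≤ 1) (a0 : 1200 / 10000 ≤ u) (b0 : u ≤ 1400 / 10000) :
    3218 / 100000 + u * ((-(2653 / 1000)) + (6336 / 1000) * u) ≤ 2 * uu u 0 + uu (l - u) 0 := by
  rcases lu_or (u := u) h8 h1 (by linarith only [a0]) (by linarith only [b0]) with h | ⟨h6, h⟩
  · have := g2_1200_1400_a (w := u) (by linarith only [a0]) (by linarith only [b0])
    linarith only [h, this]
  · have := g2_1200_1400_b (w := u) (by linarith only [a0]) (by linarith only [b0])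
    linarith only [h, this]

theorem G2_1400_1600 {u l : ℝ} (h8 : 8 / 10 ≤ l) (h1 : l ≤ 1) (a0 : 1400 / 10000 ≤ u) (b0 : u ≤ 1600 / 10000) :
    1336 / 100000 + u * ((-(2383 / 1000)) + (5368 / 1000) * u) ≤ 2 * uu u 0 + uu (l - u) 0 := by
  rcases lu_or (u := u) h8 h1 (by linarith only [a0]) (by linarith only [b0]) with h | ⟨h6, h⟩
  · have := g2_1400_1600_a (w := u) (by linarith only [a0]) (by linarith only [b0])
    linarith only [h, this]
  · have := g2_1400_1600_b (w := u) (by linarith only [a0]) (by linarith only [b0])
    linarith only [h, this]

theorem G2_1600_2000 {u l : ℝ} (h8 : 8 / 10 ≤ l) (h1 : l ≤ 1) (a0 : 1600 / 10000 ≤ u) (b0 : u ≤ 2000 / 10000) :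
    -(1417 / 100000) + u * ((-(2046 / 1000)) + (4336 / 1000) * u) ≤ 2 * uu u 0 + uu (l - u) 0 := by
  rcases lu_or (u := u) h8 h1 (by linarith only [a0]) (by linarith only [b0]) with h | ⟨h6, h⟩
  · have := g2_1600_2000_a (w := u) (by linarith only [a0]) (by linarith only [b0])
    linarith only [h, this]
  · have := g2_1600_2000_b (w := u) (by linarith only [a0]) (by linarith only [h6])
    linarith only [h, this]

theorem G2_2000_3000 {u l : ℝ} (h8 : 8 / 10 ≤ l) (h1 : l ≤ 1) (a0 : 2000 / 10000 ≤ u) (b0 : u ≤ 3000 / 10000) :
    -(7608 / 100000) + u * ((-(1453 / 1000)) + (2911 / 1000) * u) ≤ 2 * uu u 0 + uu (l - u) 0 := by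
  rcases lu_or (u := u) h8 h1 (by linarith only [a0]) (by linarith only [b0]) with h | ⟨h6, h⟩
  · have := g2_2000_3000_a (w := u) (by linarith only [a0]) (by linarith only [b0])
    linarith only [h, this]
  · exfalso
    linarith only [a0, h6]

theorem G2_3000_4000 {u l : ℝ} (h8 : 8 / 10 ≤ l) (h1 : l ≤ 1) (a0 : 3000 / 10000 ≤ u) (b0 : u ≤ 4000 / 10000) :
    -(16810 / 100000) + u * ((-(830 / 1000)) + (1856 / 1000) * u) ≤ 2 * uu u 0 + uu (l - u) 0 := by
  rcases lu_or (u := u) h8 h1 (by linarith only [a0]) (by linarith only [b0]) with h | ⟨h6, h⟩
  · have := g2_3000_4000_a (w := u) (by linarith only [a0]) (by linarith only [b0])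
    linarith only [h, this]
  · exfalso
    linarith only [a0, h6]

theorem G2_4000_4200 {u l : ℝ} (h8 : 8 / 10 ≤ l) (h1 : l ≤ 1) (a0 : 4000 / 10000 ≤ u) (b0 : u ≤ 4200 / 10000) :
    -(22354 / 100000) + u * ((-(540 / 1000)) + (1478 / 1000) * u) ≤ 2 * uu u 0 + uu (l - u) 0 := by
  rcases lu_or (u := u) h8 h1 (by linarith only [a0]) (by linarith only [b0]) with h | ⟨h6, h⟩
  · have := g2_4000_4200_a (w := u) (by linarith only [a0]) (by linarith only [b0])
    linarith only [h, this]
  · exfalso
    linarith only [a0, h6]

theorem G2_4000_5000 {u l : ℝ} (h8 : 8 / 10 ≤ l) (h1 : l ≤ 1) (a0 : 4000 / 10000 ≤ u) (b0 : u ≤ 5000 / 10000) :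
    -(25506 / 100000) + u * ((-(391 / 1000)) + (1302 / 1000) * u) ≤ 2 * uu u 0 + uu (l - u) 0 := by
  rcases lu_or (u := u) h8 h1 (by linarith only [a0]) (by linarith only [b0]) with h | ⟨h6, h⟩
  · have := g2_4000_5000_a (w := u) (by linarith only [a0]) (by linarith only [b0])
    linarith only [h, this]
  · exfalso
    linarith only [a0, h6]

theorem G2_4200_4500 {u l : ℝ} (h8 : 8 / 10 ≤ l) (h1 : l ≤ 1) (a0 : 4200 / 10000 ≤ u) (b0 : u ≤ 4500 / 10000) :
    -(24471 / 100000) + u * ((-(440 / 1000)) + (1360 / 1000) * u) ≤ 2 * uu u 0 + uu (l - u) 0 := by
  rcases lu_or (u := u) h8 h1 (by linarith only [a0]) (by linarith only [b0]) with h | ⟨h6, h⟩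
  · have := g2_4200_4500_a (w := u) (by linarith only [a0]) (by linarith only [b0])
    linarith only [h, this]
  · exfalso
    linarith only [a0, h6]

theorem G2_4500_4700 {u l : ℝ} (h8 : 8 / 10 ≤ l) (h1 : l ≤ 1) (a0 : 4500 / 10000 ≤ u) (b0 : u ≤ 4700 / 10000) :
    -(26495 / 100000) + u * ((-(350 / 1000)) + (1260 / 1000) * u) ≤ 2 * uu u 0 + uu (l - u) 0 := by
  rcases lu_or (u := u) h8 h1 (by linarith only [a0]) (by linarith only [b0]) with h | ⟨h6, h⟩
  · have := g2_4500_4700_a (w := u) (by linarith only [a0]) (by linarith only [b0])
    linarith only [h, this]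
  · exfalso
    linarith only [a0, h6]

theorem G2_4700_5000 {u l : ℝ} (h8 : 8 / 10 ≤ l) (h1 : l ≤ 1) (a0 : 4700 / 10000 ≤ u) (b0 : u ≤ 5000 / 10000) :
    -(28253 / 100000) + u * ((-(275 / 1000)) + (1180 / 1000) * u) ≤ 2 * uu u 0 + uu (l - u) 0 := by
  rcases lu_or (u := u) h8 h1 (by linarith only [a0]) (by linarith only [b0]) with h | ⟨h6, h⟩
  · have := g2_4700_5000_a (w := u) (by linarith only [a0]) (by linarith only [b0])
    linarith only [h, this]
  · exfalso
    linarith only [a0, h6]

theorem G2_5000_5200 {u l : ℝ} (h8 : 8 / 10 ≤ l) (h1 : l ≤ 1) (a0 : 5000 / 10000 ≤ u) (b0 : u ≤ 5200 / 10000) :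
    -(29776 / 100000) + u * ((-(214 / 1000)) + (1119 / 1000) * u) ≤ 2 * uu u 0 + uu (l - u) 0 := by
  rcases lu_or (u := u) h8 h1 (by linarith only [a0]) (by linarith only [b0]) with h | ⟨h6, h⟩
  · have := g2_5000_5200_a (w := u) (by linarith only [a0]) (by linarith only [b0])
    linarith only [h, this]
  · exfalso
    linarith only [a0, h6]

theorem G2_5000_6500 {u l : ℝ} (h8 : 8 / 10 ≤ l) (h1 : l ≤ 1) (a0 : 5000 / 10000 ≤ u) (b0 : u ≤ 6500 / 10000) :
    -(30650 / 100000) + u * ((-(182 / 1000)) + (1088 / 1000) * u) ≤ 2 * uu u 0 + uu (l - u) 0 := by
  rcases le_total u (19 / 30) with h30 | h30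
  · rcases lu_or (u := u) h8 h1 (by linarith only [a0]) (by linarith only [h30]) with h | ⟨h6, h⟩
    · have := g2_5000_6500_a (w := u) (by linarith only [a0]) (by linarith only [h30])
      linarith only [h, this]
    · exfalso
      linarith only [a0, h6]
  · have := g2_5000_6500_c (w := u) (by linarith only [h30]) (by linarith only [b0])
    have := real_ge (x := l - u) (by linarith only [h8, b0]) (by linarith only [h1, h30])
    linarith

theorem G2_5200_5500 {u l : ℝ} (h8 : 8 / 10 ≤ l) (h1 : l ≤ 1) (a0 : 5200 / 10000 ≤ u) (b0 : u ≤ 5500 / 10000) :
    -(30726 / 100000) + u * ((-(177 / 1000)) + (1083 / 1000) * u) ≤ 2 * uu u 0 + uu (l - u) 0 := by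
  rcases lu_or (u := u) h8 h1 (by linarith only [a0]) (by linarith only [b0]) with h | ⟨h6, h⟩
  · have := g2_5200_5500_a (w := u) (by linarith only [a0]) (by linarith only [b0])
    linarith only [h, this]
  · exfalso
    linarith only [a0, h6]

theorem G2_5500_6500 {u l : ℝ} (h8 : 8 / 10 ≤ l) (h1 : l ≤ 1) (a0 : 5500 / 10000 ≤ u) (b0 : u ≤ 6500 / 10000) :
    -(31368 / 100000) + u * ((-(156 / 1000)) + (1065 / 1000) * u) ≤ 2 * uu u 0 + uu (l - u) 0 := by
  rcases le_total u (19 / 30) with h30 | h30
  · rcases lu_or (u := u) h8 h1 (by linarith only [a0]) (by linarith only [h30]) with h | ⟨h6, h⟩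
    · have := g2_5500_6500_a (w := u) (by linarith only [a0]) (by linarith only [h30])
      linarith only [h, this]
    · exfalso
      linarith only [a0, h6]
  · have := g2_5500_6500_c (w := u) (by linarith only [h30]) (by linarith only [b0])
    have := real_ge (x := l - u) (by linarith only [h8, b0]) (by linarith only [h1, h30])
    linarith

theorem G3_0_200 {u l : ℝ} (h8 : 8 / 10 ≤ l) (h1 : l ≤ 1) (a0 : 0 / 10000 ≤ u) (b0 : u ≤ 200 / 10000) :
    -(12308 / 100000) + u * ((0 / 1000) + (0 / 1000) * u) ≤ 3 * uu u 0 + uu (l - u) 0 := by
  have hW := E1.W_v (w := u) (by linarith only [a0]) (by linarith only [b0])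
  have c0 := c02
  have c1 := c78
  have hm := uu_real_mono (a := 78 / 100) (b := 8 / 10 - u) (by norm_num) (by linarith only [b0]) (by linarith only [a0])
  rcases lu_or (u := u) h8 h1 (by linarith only [a0]) (by linarith only [b0]) with h | ⟨_, h⟩ <;> linarith only [hW, c0, c1, hm, h]

theorem G3_200_500 {u l : ℝ} (h8 : 8 / 10 ≤ l) (h1 : l ≤ 1) (a0 : 200 / 10000 ≤ u) (b0 : u ≤ 500 / 10000) :
    -(3288 / 100000) + u * ((-(5122 / 1000)) + (29151 / 1000) * u) ≤ 3 * uu u 0 + uu (l - u) 0 := by
  rcases lu_or (u := u) h8 h1 (by linarith only [a0]) (by linarith only [b0]) with h | ⟨h6, h⟩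
  · have := g3_200_500_a (w := u) (by linarith only [a0]) (by linarith only [b0])
    linarith only [h, this]
  · have := g3_200_500_b (w := u) (by linarith only [a0]) (by linarith only [b0])
    linarith only [h, this]

theorem G3_500_600 {u l : ℝ} (h8 : 8 / 10 ≤ l) (h1 : l ≤ 1) (a0 : 500 / 10000 ≤ u) (b0 : u ≤ 600 / 10000) :
    -(5508 / 100000) + u * ((-(4120 / 1000)) + (18019 / 1000) * u) ≤ 3 * uu u 0 + uu (l - u) 0 := by
  rcases lu_or (u := u) h8 h1 (by linarith only [a0]) (by linarith only [b0]) with h | ⟨h6, h⟩
  · have := g3_500_600_a (w := u) (by linarith only [a0]) (by linarith only [b0])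
    linarith only [h, this]
  · have := g3_500_600_b (w := u) (by linarith only [a0]) (by linarith only [b0])
    linarith only [h, this]

theorem G3_500_1000 {u l : ℝ} (h8 : 8 / 10 ≤ l) (h1 : l ≤ 1) (a0 : 500 / 10000 ≤ u) (b0 : u ≤ 1000 / 10000) :
    -(15534 / 100000) + u * ((-(964 / 1000)) + (-(6827 / 1000)) * u) ≤ 3 * uu u 0 + uu (l - u) 0 := by
  rcases lu_or (u := u) h8 h1 (by linarith only [a0]) (by linarith only [b0]) with h | ⟨h6, h⟩
  · have := g3_500_1000_a (w := u) (by linarith only [a0]) (by linarith only [b0])
    linarith only [h, this]
  · have := g3_500_1000_b (w := u) (by linarith only [a0]) (by linarith only [b0])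
    linarith only [h, this]

theorem G3_600_700 {u l : ℝ} (h8 : 8 / 10 ≤ l) (h1 : l ≤ 1) (a0 : 600 / 10000 ≤ u) (b0 : u ≤ 700 / 10000) :
    -(6526 / 100000) + u * ((-(3780 / 1000)) + (15181 / 1000) * u) ≤ 3 * uu u 0 + uu (l - u) 0 := by
  rcases lu_or (u := u) h8 h1 (by linarith only [a0]) (by linarith only [b0]) with h | ⟨h6, h⟩
  · have := g3_600_700_a (w := u) (by linarith only [a0]) (by linarith only [b0])
    linarith only [h, this]
  · have := g3_600_700_b (w := u) (by linarith only [a0]) (by linarith only [b0])
    linarith only [h, this]

theorem G3_700_785 {u l : ℝ} (h8 : 8 / 10 ≤ l) (h1 : l ≤ 1) (a0 : 700 / 10000 ≤ u) (b0 : u ≤ 785 / 10000) :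
    -(7466 / 100000) + u * ((-(3509 / 1000)) + (13228 / 1000) * u) ≤ 3 * uu u 0 + uu (l - u) 0 := by
  rcases lu_or (u := u) h8 h1 (by linarith only [a0]) (by linarith only [b0]) with h | ⟨h6, h⟩
  · have := g3_700_785_a (w := u) (by linarith only [a0]) (by linarith only [b0])
    linarith only [h, this]
  · have := g3_700_785_b (w := u) (by linarith only [a0]) (by linarith only [b0])
    linarith only [h, this]

theorem G3_785_1000 {u l : ℝ} (h8 : 8 / 10 ≤ l) (h1 : l ≤ 1) (a0 : 785 / 10000 ≤ u) (b0 : u ≤ 1000 / 10000) :
    2603 / 100000 + u * ((-(4944 / 1000)) + (15169 / 1000) * u) ≤ 3 * uu u 0 + uu (l - u) 0 := by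
  rcases lu_or (u := u) h8 h1 (by linarith only [a0]) (by linarith only [b0]) with h | ⟨h6, h⟩
  · have := g3_785_1000_a (w := u) (by linarith only [a0]) (by linarith only [b0])
    linarith only [h, this]
  · have := g3_785_1000_b (w := u) (by linarith only [a0]) (by linarith only [b0])
    linarith only [h, this]

theorem G3_1000_1200 {u l : ℝ} (h8 : 8 / 10 ≤ l) (h1 : l ≤ 1) (a0 : 1000 / 10000 ≤ u) (b0 : u ≤ 1200 / 10000) :
    -(433 / 100000) + u * ((-(4323 / 1000)) + (12035 / 1000) * u) ≤ 3 * uu u 0 + uu (l - u) 0 := by
  rcases lu_or (u := u) h8 h1 (by linarith only [a0]) (by linarith only [b0]) with h | ⟨h6, h⟩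
  · have := g3_1000_1200_a (w := u) (by linarith only [a0]) (by linarith only [b0])
    linarith only [h, this]
  · have := g3_1000_1200_b (w := u) (by linarith only [a0]) (by linarith only [b0])
    linarith only [h, this]

theorem G3_1000_2000 {u l : ℝ} (h8 : 8 / 10 ≤ l) (h1 : l ≤ 1) (a0 : 1000 / 10000 ≤ u) (b0 : u ≤ 2000 / 10000) :
    -(5515 / 100000) + u * ((-(3486 / 1000)) + (8588 / 1000) * u) ≤ 3 * uu u 0 + uu (l - u) 0 := by
  rcases lu_or (u := u) h8 h1 (by linarith only [a0]) (by linarith only [b0]) with h | ⟨h6, h⟩
  · have := g3_1000_2000_a (w := u) (by linarith only [a0]) (by linarith only [b0])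
    linarith only [h, this]
  · have := g3_1000_2000_b (w := u) (by linarith only [a0]) (by linarith only [h6])
    linarith only [h, this]

theorem G3_1200_1600 {u l : ℝ} (h8 : 8 / 10 ≤ l) (h1 : l ≤ 1) (a0 : 1200 / 10000 ≤ u) (b0 : u ≤ 1600 / 10000) :
    -(4750 / 100000) + u * ((-(3621 / 1000)) + (9177 / 1000) * u) ≤ 3 * uu u 0 + uu (l - u) 0 := by
  rcases lu_or (u := u) h8 h1 (by linarith only [a0]) (by linarith only [b0]) with h | ⟨h6, h⟩
  · have := g3_1200_1600_a (w := u) (by linarith only [a0]) (by linarith only [b0])
    linarith only [h, this]
  · have := g3_1200_1600_b (w := u) (by linarith only [a0]) (by linarith only [b0])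
    linarith only [h, this]

theorem G3_1600_2000 {u l : ℝ} (h8 : 8 / 10 ≤ l) (h1 : l ≤ 1) (a0 : 1600 / 10000 ≤ u) (b0 : u ≤ 2000 / 10000) :
    -(10692 / 100000) + u * ((-(2872 / 1000)) + (6816 / 1000) * u) ≤ 3 * uu u 0 + uu (l - u) 0 := by
  rcases lu_or (u := u) h8 h1 (by linarith only [a0]) (by linarith only [b0]) with h | ⟨h6, h⟩
  · have := g3_1600_2000_a (w := u) (by linarith only [a0]) (by linarith only [b0])
    linarith only [h, this]
  · have := g3_1600_2000_b (w := u) (by linarith only [a0]) (by linarith only [h6])
    linarith only [h, this]

theorem G3_2000_3000 {u l : ℝ} (h8 : 8 / 10 ≤ l) (h1 : l ≤ 1) (a0 : 2000 / 10000 ≤ u) (b0 : u ≤ 3000 / 10000) :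
    -(20828 / 100000) + u * ((-(1903 / 1000)) + (4492 / 1000) * u) ≤ 3 * uu u 0 + uu (l - u) 0 := by
  rcases lu_or (u := u) h8 h1 (by linarith only [a0]) (by linarith only [b0]) with h | ⟨h6, h⟩
  · have := g3_2000_3000_a (w := u) (by linarith only [a0]) (by linarith only [b0])
    linarith only [h, this]
  · exfalso
    linarith only [a0, h6]

theorem G3_2700_4000 {u l : ℝ} (h8 : 8 / 10 ≤ l) (h1 : l ≤ 1) (a0 : 2700 / 10000 ≤ u) (b0 : u ≤ 4000 / 10000) :
    -(34132 / 100000) + u * ((-(976 / 1000)) + (2881 / 1000) * u) ≤ 3 * uu u 0 + uu (l - u) 0 := by
  rcases lu_or (u := u) h8 h1 (by linarith only [a0]) (by linarith only [b0]) with h | ⟨h6, h⟩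
  · have := g3_2700_4000_a (w := u) (by linarith only [a0]) (by linarith only [b0])
    linarith only [h, this]
  · exfalso
    linarith only [a0, h6]

theorem G3_3000_4000 {u l : ℝ} (h8 : 8 / 10 ≤ l) (h1 : l ≤ 1) (a0 : 3000 / 10000 ≤ u) (b0 : u ≤ 4000 / 10000) :
    -(36880 / 100000) + u * ((-(819 / 1000)) + (2660 / 1000) * u) ≤ 3 * uu u 0 + uu (l - u) 0 := by
  rcases lu_or (u := u) h8 h1 (by linarith only [a0]) (by linarith only [b0]) with h | ⟨h6, h⟩
  · have := g3_3000_4000_a (w := u) (by linarith only [a0]) (by linarith only [b0])
    linarith only [h, this]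
  · exfalso
    linarith only [a0, h6]

theorem G3_4000_5000 {u l : ℝ} (h8 : 8 / 10 ≤ l) (h1 : l ≤ 1) (a0 : 4000 / 10000 ≤ u) (b0 : u ≤ 5000 / 10000) :
    -(54403 / 100000) + u * ((62 / 1000) + (1552 / 1000) * u) ≤ 3 * uu u 0 + uu (l - u) 0 := by
  rcases lu_or (u := u) h8 h1 (by linarith only [a0]) (by linarith only [b0]) with h | ⟨h6, h⟩
  · have := g3_4000_5000_a (w := u) (by linarith only [a0]) (by linarith only [b0])
    linarith only [h, this]
  · exfalso
    linarith only [a0, h6]

theorem G3_5000_6500 {u l : ℝ} (h8 : 8 / 10 ≤ l) (h1 : l ≤ 1) (a0 : 5000 / 10000 ≤ u) (b0 : u ≤ 6500 / 10000) :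
    -(75876 / 100000) + u * ((912 / 1000) + (708 / 1000) * u) ≤ 3 * uu u 0 + uu (l - u) 0 := by
  rcases le_total u (19 / 30) with h30 | h30
  · rcases lu_or (u := u) h8 h1 (by linarith only [a0]) (by linarith only [h30]) with h | ⟨h6, h⟩
    · have := g3_5000_6500_a (w := u) (by linarith only [a0]) (by linarith only [h30])
      linarith only [h, this]
    · exfalso
      linarith only [a0, h6]
  · have := g3_5000_6500_c (w := u) (by linarith only [h30]) (by linarith only [b0])
    have := real_ge (x := l - u) (by linarith only [h8, b0]) (by linarith only [h1, h30])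
    linarith

end L2

end TL

end Pool.Agent.Work.MP_b30479_gtS.G2

end

section

/-!
# Tails, slot `0` of an interior three whose inner variable is in the tail: assembly of the rows
-/

set_option linter.unusedVariables false

namespace Pool.Agent.Work.MP_b30479_gtS.G2

open VOL NumUs

namespace TL

namespace L2

/-- class one -/
noncomputable def PO (c u l t X Y : ℝ) : ℝ :=
  Real.pi * ((c - u) * Y + t * (X - 1)) + uu (c + X) (t + Y) - uu c t - uu (u + X) Y +
    2 * uu u 0 + uu (l - u) 0

/-- class two, or three in the slot `2` -/
noncomputable def PT (c u l t X Y : ℝ) : ℝ :=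
  Real.pi * (t * (X - (c + 1 / 2)) + (c - u) * Y) + uu (c + X) (t + Y) - uu (u + X) Y -
    2 * uu c t + 3 * uu u 0 + uu (l - u) 0

/-- ring -/
noncomputable def PR (u l t σ η : ℝ) : ℝ :=
  uu (68 / 100 + σ) (t + η) + uu (68 / 100 - σ) (t - η) - uu (u + 1 / 2 + σ) η -
    uu (u + 1 / 2 - σ) η - 2 * uu (18 / 100) t + 3 * uu u 0 + uu (l - u) 0

theorem one0_23_210 {u l t X Y : ℝ} (h8 : 8 / 10 ≤ l) (h1 : l ≤ 1) (hu : 0 / 10000 ≤ u)
    (hu1 : u ≤ 3000 / 10000) (t0 : 210 / 10000 ≤ t) (t1 : t ≤ 920 / 10000) (hR : RO0 t X Y) :
    -(2490 / 10000) - (19570 / 10000) * t < PO (23 / 100) u l t X Y := by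
  have hT := h23_210_920 t0 t1
  unfold PO
  rcases le_total u (200 / 10000) with hh0 | hh0
  · have h := o0_0_2_21 (w := u) (by first | with_reducible assumption | linarith) (by first | with_reducible assumption | linarith) (by first | with_reducible assumption | linarith) (by first | with_reducible assumption | linarith) hR
    have g := G2_0_200 h8 h1 (u := u) (by first | with_reducible assumption | linarith) (by first | with_reducible assumption | linarith)
    unfold fO at h
    push_cast at h
    linarith only [h, g, hT]
  rcases le_total u (1000 / 10000) with hh1 | hh1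
  · have h := o0_2_10_21 (w := u) (by first | with_reducible assumption | linarith) (by first | with_reducible assumption | linarith) (by first | with_reducible assumption | linarith) (by first | with_reducible assumption | linarith) hR
    have g := G2_200_1000 h8 h1 (u := u) (by first | with_reducible assumption | linarith) (by first | with_reducible assumption | linarith)
    unfold fO at h
    push_cast at h
    linarith only [h, g, hT]
  rcases le_total u (1200 / 10000) with hh2 | hh2
  · have h := o0_10_12_21 (w := u) (by first | with_reducible assumption | linarith) (by first | with_reducible assumption | linarith) (by first | with_reducible assumption | linarith) (by first | with_reducible assumption | linarith) hR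
    have g := G2_1000_1200 h8 h1 (u := u) (by first | with_reducible assumption | linarith) (by first | with_reducible assumption | linarith)
    unfold fO at h
    push_cast at h
    linarith only [h, g, hT]
  rcases le_total u (1400 / 10000) with hh3 | hh3
  · have h := o0_12_14_21 (w := u) (by first | with_reducible assumption | linarith) (by first | with_reducible assumption | linarith) (by first | with_reducible assumption | linarith) (by first | with_reducible assumption | linarith) hR
    have g := G2_1200_1400 h8 h1 (u := u) (by first | with_reducible assumption | linarith) (by first | with_reducible assumption | linarith)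
    unfold fO at h
    push_cast at h
    linarith only [h, g, hT]
  rcases le_total u (1600 / 10000) with hh4 | hh4
  · have h := o0_14_16_21 (w := u) (by first | with_reducible assumption | linarith) (by first | with_reducible assumption | linarith) (by first | with_reducible assumption | linarith) (by first | with_reducible assumption | linarith) hR
    have g := G2_1400_1600 h8 h1 (u := u) (by first | with_reducible assumption | linarith) (by first | with_reducible assumption | linarith)
    unfold fO at h
    push_cast at h
    linarith only [h, g, hT]
  rcases le_total u (2000 / 10000) with hh5 | hh5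
  · have h := o0_16_20_21 (w := u) (by first | with_reducible assumption | linarith) (by first | with_reducible assumption | linarith) (by first | with_reducible assumption | linarith) (by first | with_reducible assumption | linarith) hR
    have g := G2_1600_2000 h8 h1 (u := u) (by first | with_reducible assumption | linarith) (by first | with_reducible assumption | linarith)
    unfold fO at h
    push_cast at h
    linarith only [h, g, hT]
  have h := o0_20_30_21 (w := u) (by first | with_reducible assumption | linarith) (by first | with_reducible assumption | linarith) (by first | with_reducible assumption | linarith) (by first | with_reducible assumption | linarith) hR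
  have g := G2_2000_3000 h8 h1 (u := u) (by first | with_reducible assumption | linarith) (by first | with_reducible assumption | linarith)
  unfold fO at h
  push_cast at h
  linarith only [h, g, hT]

theorem one1_23_460 {u l t X Y : ℝ} (h8 : 8 / 10 ≤ l) (h1 : l ≤ 1) (hu : 0 / 10000 ≤ u)
    (hu1 : u ≤ 3000 / 10000) (t0 : 460 / 10000 ≤ t) (t1 : t ≤ 940 / 10000) (hR : RO1 t X Y) :
    -(2108 / 10000) - (23750 / 10000) * t < PO (23 / 100) u l t X Y := by
  have hT := h23_460_940 t0 t1
  unfold PO
  rcases le_total u (200 / 10000) with hh0 | hh0
  · have h := o1_0_2_46 (w := u) (by first | with_reducible assumption | linarith) (by first | with_reducible assumption | linarith) (by first | with_reducible assumption | linarith) (by first | with_reducible assumption | linarith) hR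
    have g := G2_0_200 h8 h1 (u := u) (by first | with_reducible assumption | linarith) (by first | with_reducible assumption | linarith)
    unfold fO at h
    push_cast at h
    linarith only [h, g, hT]
  rcases le_total u (1000 / 10000) with hh1 | hh1
  · have h := o1_2_10_46 (w := u) (by first | with_reducible assumption | linarith) (by first | with_reducible assumption | linarith) (by first | with_reducible assumption | linarith) (by first | with_reducible assumption | linarith) hR
    have g := G2_200_1000 h8 h1 (u := u) (by first | with_reducible assumption | linarith) (by first | with_reducible assumption | linarith)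
    unfold fO at h
    push_cast at h
    linarith only [h, g, hT]
  rcases le_total u (2000 / 10000) with hh2 | hh2
  · have h := o1_10_20_46 (w := u) (by first | with_reducible assumption | linarith) (by first | with_reducible assumption | linarith) (by first | with_reducible assumption | linarith) (by first | with_reducible assumption | linarith) hR
    have g := G2_1000_2000 h8 h1 (u := u) (by first | with_reducible assumption | linarith) (by first | with_reducible assumption | linarith)
    unfold fO at h
    push_cast at h
    linarith only [h, g, hT]
  have h := o1_20_30_46 (w := u) (by first | with_reducible assumption | linarith) (by first | with_reducible assumption | linarith) (by first | with_reducible assumption | linarith) (by first | with_reducible assumption | linarith) hR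
  have g := G2_2000_3000 h8 h1 (u := u) (by first | with_reducible assumption | linarith) (by first | with_reducible assumption | linarith)
  unfold fO at h
  push_cast at h
  linarith only [h, g, hT]

theorem one2_23_870 {u l t X Y : ℝ} (h8 : 8 / 10 ≤ l) (h1 : l ≤ 1) (hu : 0 / 10000 ≤ u)
    (hu1 : u ≤ 3000 / 10000) (t0 : 870 / 10000 ≤ t) (t1 : t ≤ 1145 / 10000) (hR : RO2 t X Y) :
    -(1899 / 10000) - (24730 / 10000) * t < PO (23 / 100) u l t X Y := by
  have hT := h23_870_1145 t0 t1
  unfold PO
  rcases le_total u (200 / 10000) with hh0 | hh0
  · have h := o2_0_2_87 (w := u) (by first | with_reducible assumption | linarith) (by first | with_reducible assumption | linarith) (by first | with_reducible assumption | linarith) (by first | with_reducible assumption | linarith) hR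
    have g := G2_0_200 h8 h1 (u := u) (by first | with_reducible assumption | linarith) (by first | with_reducible assumption | linarith)
    unfold fO at h
    push_cast at h
    linarith only [h, g, hT]
  rcases le_total u (1000 / 10000) with hh1 | hh1
  · have h := o2_2_10_87 (w := u) (by first | with_reducible assumption | linarith) (by first | with_reducible assumption | linarith) (by first | with_reducible assumption | linarith) (by first | with_reducible assumption | linarith) hR
    have g := G2_200_1000 h8 h1 (u := u) (by first | with_reducible assumption | linarith) (by first | with_reducible assumption | linarith)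
    unfold fO at h
    push_cast at h
    linarith only [h, g, hT]
  rcases le_total u (2000 / 10000) with hh2 | hh2
  · have h := o2_10_20_87 (w := u) (by first | with_reducible assumption | linarith) (by first | with_reducible assumption | linarith) (by first | with_reducible assumption | linarith) (by first | with_reducible assumption | linarith) hR
    have g := G2_1000_2000 h8 h1 (u := u) (by first | with_reducible assumption | linarith) (by first | with_reducible assumption | linarith)
    unfold fO at h
    push_cast at h
    linarith only [h, g, hT]
  have h := o2_20_30_87 (w := u) (by first | with_reducible assumption | linarith) (by first | with_reducible assumption | linarith) (by first | with_reducible assumption | linarith) (by first | with_reducible assumption | linarith) hR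
  have g := G2_2000_3000 h8 h1 (u := u) (by first | with_reducible assumption | linarith) (by first | with_reducible assumption | linarith)
  unfold fO at h
  push_cast at h
  linarith only [h, g, hT]

theorem one0_27_210 {u l t X Y : ℝ} (h8 : 8 / 10 ≤ l) (h1 : l ≤ 1) (hu : 3000 / 10000 ≤ u)
    (hu1 : u ≤ 6500 / 10000) (t0 : 210 / 10000 ≤ t) (t1 : t ≤ 920 / 10000) (hR : RO0 t X Y) :
    -(2283 / 10000) - (22250 / 10000) * t < PO (27 / 100) u l t X Y := by
  have hT := h27_210_920 t0 t1
  unfold PO
  rcases le_total u (4000 / 10000) with hh0 | hh0
  · have h := o0_30_40_21 (w := u) (by first | with_reducible assumption | linarith) (by first | with_reducible assumption | linarith) (by first | with_reducible assumption | linarith) (by first | with_reducible assumption | linarith) hR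
    have g := G2_3000_4000 h8 h1 (u := u) (by first | with_reducible assumption | linarith) (by first | with_reducible assumption | linarith)
    unfold fO at h
    push_cast at h
    linarith only [h, g, hT]
  rcases le_total u (5000 / 10000) with hh1 | hh1
  · have h := o0_40_50_21 (w := u) (by first | with_reducible assumption | linarith) (by first | with_reducible assumption | linarith) (by first | with_reducible assumption | linarith) (by first | with_reducible assumption | linarith) hR
    have g := G2_4000_5000 h8 h1 (u := u) (by first | with_reducible assumption | linarith) (by first | with_reducible assumption | linarith)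
    unfold fO at h
    push_cast at h
    linarith only [h, g, hT]
  have h := o0_50_65_21 (w := u) (by first | with_reducible assumption | linarith) (by first | with_reducible assumption | linarith) (by first | with_reducible assumption | linarith) (by first | with_reducible assumption | linarith) hR
  have g := G2_5000_6500 h8 h1 (u := u) (by first | with_reducible assumption | linarith) (by first | with_reducible assumption | linarith)
  unfold fO at h
  push_cast at h
  linarith only [h, g, hT]

theorem one1_27_460 {u l t X Y : ℝ} (h8 : 8 / 10 ≤ l) (h1 : l ≤ 1) (hu : 3000 / 10000 ≤ u)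
    (hu1 : u ≤ 6500 / 10000) (t0 : 460 / 10000 ≤ t) (t1 : t ≤ 700 / 10000) (hR : RO1 t X Y) :
    -(2394 / 10000) - (21880 / 10000) * t < PO (27 / 100) u l t X Y := by
  have hT := h27_460_700 t0 t1
  unfold PO
  rcases le_total u (4000 / 10000) with hh0 | hh0
  · have h := o1_30_40_46 (w := u) (by first | with_reducible assumption | linarith) (by first | with_reducible assumption | linarith) (by first | with_reducible assumption | linarith) (by first | with_reducible assumption | linarith) hR
    have g := G2_3000_4000 h8 h1 (u := u) (by first | with_reducible assumption | linarith) (by first | with_reducible assumption | linarith)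
    unfold fO at h
    push_cast at h
    linarith only [h, g, hT]
  rcases le_total u (5000 / 10000) with hh1 | hh1
  · have h := o1_40_50_46 (w := u) (by first | with_reducible assumption | linarith) (by first | with_reducible assumption | linarith) (by first | with_reducible assumption | linarith) (by first | with_reducible assumption | linarith) hR
    have g := G2_4000_5000 h8 h1 (u := u) (by first | with_reducible assumption | linarith) (by first | with_reducible assumption | linarith)
    unfold fO at h
    push_cast at h
    linarith only [h, g, hT]
  have h := o1_50_65_46 (w := u) (by first | with_reducible assumption | linarith) (by first | with_reducible assumption | linarith) (by first | with_reducible assumption | linarith) (by first | with_reducible assumption | linarith) hR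
  have g := G2_5000_6500 h8 h1 (u := u) (by first | with_reducible assumption | linarith) (by first | with_reducible assumption | linarith)
  unfold fO at h
  push_cast at h
  linarith only [h, g, hT]

theorem one1_27_700 {u l t X Y : ℝ} (h8 : 8 / 10 ≤ l) (h1 : l ≤ 1) (hu : 3000 / 10000 ≤ u)
    (hu1 : u ≤ 6500 / 10000) (t0 : 700 / 10000 ≤ t) (t1 : t ≤ 940 / 10000) (hR : RO1 t X Y) :
    -(2630 / 10000) - (18500 / 10000) * t < PO (27 / 100) u l t X Y ∨ -(2432 / 10000) - (20920 / 10000) * t < PO (27 / 100) u l t X Y := by
  have hT := h27_700_940 t0 t1
  unfold PO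
  rcases le_total u (4000 / 10000) with hh0 | hh0
  · have h := o1_30_40_70 (w := u) (by first | with_reducible assumption | linarith) (by first | with_reducible assumption | linarith) (by first | with_reducible assumption | linarith) (by first | with_reducible assumption | linarith) hR
    have g := G2_3000_4000 h8 h1 (u := u) (by first | with_reducible assumption | linarith) (by first | with_reducible assumption | linarith)
    unfold fO at h
    push_cast at h
    rcases h with h | h
    · left; linarith only [h, g, hT]
    · right; linarith only [h, g, hT]
  rcases le_total u (4200 / 10000) with hh1 | hh1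
  · have h := o1_40_42_70 (w := u) (by first | with_reducible assumption | linarith) (by first | with_reducible assumption | linarith) (by first | with_reducible assumption | linarith) (by first | with_reducible assumption | linarith) hR
    have g := G2_4000_4200 h8 h1 (u := u) (by first | with_reducible assumption | linarith) (by first | with_reducible assumption | linarith)
    unfold fO at h
    push_cast at h
    rcases h with h | h
    · left; linarith only [h, g, hT]
    · right; linarith only [h, g, hT]
  rcases le_total u (4500 / 10000) with hh2 | hh2
  · have h := o1_42_45_70 (w := u) (by first | with_reducible assumption | linarith) (by first | with_reducible assumption | linarith) (by first | with_reducible assumption | linarith) (by first | with_reducible assumption | linarith) hR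
    have g := G2_4200_4500 h8 h1 (u := u) (by first | with_reducible assumption | linarith) (by first | with_reducible assumption | linarith)
    unfold fO at h
    push_cast at h
    rcases h with h | h
    · left; linarith only [h, g, hT]
    · right; linarith only [h, g, hT]
  rcases le_total u (4700 / 10000) with hh3 | hh3
  · have h := o1_45_47_70 (w := u) (by first | with_reducible assumption | linarith) (by first | with_reducible assumption | linarith) (by first | with_reducible assumption | linarith) (by first | with_reducible assumption | linarith) hR
    have g := G2_4500_4700 h8 h1 (u := u) (by first | with_reducible assumption | linarith) (by first | with_reducible assumption | linarith)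
    unfold fO at h
    push_cast at h
    rcases h with h | h
    · left; linarith only [h, g, hT]
    · right; linarith only [h, g, hT]
  rcases le_total u (5000 / 10000) with hh4 | hh4
  · have h := o1_47_50_70 (w := u) (by first | with_reducible assumption | linarith) (by first | with_reducible assumption | linarith) (by first | with_reducible assumption | linarith) (by first | with_reducible assumption | linarith) hR
    have g := G2_4700_5000 h8 h1 (u := u) (by first | with_reducible assumption | linarith) (by first | with_reducible assumption | linarith)
    unfold fO at h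
    push_cast at h
    rcases h with h | h
    · left; linarith only [h, g, hT]
    · right; linarith only [h, g, hT]
  rcases le_total u (5200 / 10000) with hh5 | hh5
  · have h := o1_50_52_70 (w := u) (by first | with_reducible assumption | linarith) (by first | with_reducible assumption | linarith) (by first | with_reducible assumption | linarith) (by first | with_reducible assumption | linarith) hR
    have g := G2_5000_5200 h8 h1 (u := u) (by first | with_reducible assumption | linarith) (by first | with_reducible assumption | linarith)
    unfold fO at h
    push_cast at h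
    rcases h with h | h
    · left; linarith only [h, g, hT]
    · right; linarith only [h, g, hT]
  rcases le_total u (5500 / 10000) with hh6 | hh6
  · have h := o1_52_55_70 (w := u) (by first | with_reducible assumption | linarith) (by first | with_reducible assumption | linarith) (by first | with_reducible assumption | linarith) (by first | with_reducible assumption | linarith) hR
    have g := G2_5200_5500 h8 h1 (u := u) (by first | with_reducible assumption | linarith) (by first | with_reducible assumption | linarith)
    unfold fO at h
    push_cast at h
    rcases h with h | h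
    · left; linarith only [h, g, hT]
    · right; linarith only [h, g, hT]
  have h := o1_55_65_70 (w := u) (by first | with_reducible assumption | linarith) (by first | with_reducible assumption | linarith) (by first | with_reducible assumption | linarith) (by first | with_reducible assumption | linarith) hR
  have g := G2_5500_6500 h8 h1 (u := u) (by first | with_reducible assumption | linarith) (by first | with_reducible assumption | linarith)
  unfold fO at h
  push_cast at h
  rcases h with h | h
  · left; linarith only [h, g, hT]
  · right; linarith only [h, g, hT]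

theorem one2_27_870 {u l t X Y : ℝ} (h8 : 8 / 10 ≤ l) (h1 : l ≤ 1) (hu : 3000 / 10000 ≤ u)
    (hu1 : u ≤ 6500 / 10000) (t0 : 870 / 10000 ≤ t) (t1 : t ≤ 1145 / 10000) (hR : RO2 t X Y) :
    -(2084 / 10000) - (23630 / 10000) * t < PO (27 / 100) u l t X Y := by
  have hT := h27_870_1145 t0 t1
  unfold PO
  rcases le_total u (4000 / 10000) with hh0 | hh0
  · have h := o2_30_40_87 (w := u) (by first | with_reducible assumption | linarith) (by first | with_reducible assumption | linarith) (by first | with_reducible assumption | linarith) (by first | with_reducible assumption | linarith) hR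
    have g := G2_3000_4000 h8 h1 (u := u) (by first | with_reducible assumption | linarith) (by first | with_reducible assumption | linarith)
    unfold fO at h
    push_cast at h
    linarith only [h, g, hT]
  rcases le_total u (5000 / 10000) with hh1 | hh1
  · have h := o2_40_50_87 (w := u) (by first | with_reducible assumption | linarith) (by first | with_reducible assumption | linarith) (by first | with_reducible assumption | linarith) (by first | with_reducible assumption | linarith) hR
    have g := G2_4000_5000 h8 h1 (u := u) (by first | with_reducible assumption | linarith) (by first | with_reducible assumption | linarith)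
    unfold fO at h
    push_cast at h
    linarith only [h, g, hT]
  have h := o2_50_65_87 (w := u) (by first | with_reducible assumption | linarith) (by first | with_reducible assumption | linarith) (by first | with_reducible assumption | linarith) (by first | with_reducible assumption | linarith) hR
  have g := G2_5000_6500 h8 h1 (u := u) (by first | with_reducible assumption | linarith) (by first | with_reducible assumption | linarith)
  unfold fO at h
  push_cast at h
  linarith only [h, g, hT]

theorem two_D {u l t X Y : ℝ} (h8 : 8 / 10 ≤ l) (h1 : l ≤ 1) (hu : 0 / 10000 ≤ u)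
    (hu1 : u ≤ 6500 / 10000) (t0 : -(50 / 10000) ≤ t) (t1 : t ≤ 570 / 10000) (hR : RTw t X Y) :
    -(1620 / 10000) - (18750 / 10000) * t < PT (25 / 100) u l t X Y := by
  have hT := h25_50_570 t0 t1
  unfold PT
  rcases le_total u (200 / 10000) with hh0 | hh0
  · have h := tw_0_2 (w := u) (by first | with_reducible assumption | linarith) (by first | with_reducible assumption | linarith) (by first | with_reducible assumption | linarith) (by first | with_reducible assumption | linarith) hR
    have g := G3_0_200 h8 h1 (u := u) (by first | with_reducible assumption | linarith) (by first | with_reducible assumption | linarith)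
    unfold fT at h
    push_cast at h
    linarith only [h, g, hT]
  rcases le_total u (500 / 10000) with hh1 | hh1
  · have h := tw_2_5 (w := u) (by first | with_reducible assumption | linarith) (by first | with_reducible assumption | linarith) (by first | with_reducible assumption | linarith) (by first | with_reducible assumption | linarith) hR
    have g := G3_200_500 h8 h1 (u := u) (by first | with_reducible assumption | linarith) (by first | with_reducible assumption | linarith)
    unfold fT at h
    push_cast at h
    linarith only [h, g, hT]
  rcases le_total u (1000 / 10000) with hh2 | hh2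
  · have h := tw_5_10 (w := u) (by first | with_reducible assumption | linarith) (by first | with_reducible assumption | linarith) (by first | with_reducible assumption | linarith) (by first | with_reducible assumption | linarith) hR
    have g := G3_500_1000 h8 h1 (u := u) (by first | with_reducible assumption | linarith) (by first | with_reducible assumption | linarith)
    unfold fT at h
    push_cast at h
    linarith only [h, g, hT]
  rcases le_total u (2000 / 10000) with hh3 | hh3
  · have h := tw_10_20 (w := u) (by first | with_reducible assumption | linarith) (by first | with_reducible assumption | linarith) (by first | with_reducible assumption | linarith) (by first | with_reducible assumption | linarith) hR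
    have g := G3_1000_2000 h8 h1 (u := u) (by first | with_reducible assumption | linarith) (by first | with_reducible assumption | linarith)
    unfold fT at h
    push_cast at h
    linarith only [h, g, hT]
  rcases le_total u (3000 / 10000) with hh4 | hh4
  · have h := tw_20_30 (w := u) (by first | with_reducible assumption | linarith) (by first | with_reducible assumption | linarith) (by first | with_reducible assumption | linarith) (by first | with_reducible assumption | linarith) hR
    have g := G3_2000_3000 h8 h1 (u := u) (by first | with_reducible assumption | linarith) (by first | with_reducible assumption | linarith)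
    unfold fT at h
    push_cast at h
    linarith only [h, g, hT]
  rcases le_total u (4000 / 10000) with hh5 | hh5
  · have h := tw_30_40 (w := u) (by first | with_reducible assumption | linarith) (by first | with_reducible assumption | linarith) (by first | with_reducible assumption | linarith) (by first | with_reducible assumption | linarith) hR
    have g := G3_3000_4000 h8 h1 (u := u) (by first | with_reducible assumption | linarith) (by first | with_reducible assumption | linarith)
    unfold fT at h
    push_cast at h
    linarith only [h, g, hT]
  rcases le_total u (5000 / 10000) with hh6 | hh6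
  · have h := tw_40_50 (w := u) (by first | with_reducible assumption | linarith) (by first | with_reducible assumption | linarith) (by first | with_reducible assumption | linarith) (by first | with_reducible assumption | linarith) hR
    have g := G3_4000_5000 h8 h1 (u := u) (by first | with_reducible assumption | linarith) (by first | with_reducible assumption | linarith)
    unfold fT at h
    push_cast at h
    linarith only [h, g, hT]
  have h := tw_50_65 (w := u) (by first | with_reducible assumption | linarith) (by first | with_reducible assumption | linarith) (by first | with_reducible assumption | linarith) (by first | with_reducible assumption | linarith) hR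
  have g := G3_5000_6500 h8 h1 (u := u) (by first | with_reducible assumption | linarith) (by first | with_reducible assumption | linarith)
  unfold fT at h
  push_cast at h
  linarith only [h, g, hT]

theorem two_F {u l t X Y : ℝ} (h8 : 8 / 10 ≤ l) (h1 : l ≤ 1) (hu : 2700 / 10000 ≤ u)
    (hu1 : u ≤ 6500 / 10000) (t0 : -(50 / 10000) ≤ t) (t1 : t ≤ 570 / 10000) (hR : RTf t X Y) :
    -(1620 / 10000) - (18750 / 10000) * t < PT (25 / 100) u l t X Y := by
  have hT := h25_50_570 t0 t1
  unfold PT
  rcases le_total u (4000 / 10000) with hh0 | hh0
  · have h := tf_27_40 (w := u) (by first | with_reducible assumption | linarith) (by first | with_reducible assumption | linarith) (by first | with_reducible assumption | linarith) (by first | with_reducible assumption | linarith) hR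
    have g := G3_2700_4000 h8 h1 (u := u) (by first | with_reducible assumption | linarith) (by first | with_reducible assumption | linarith)
    unfold fT at h
    push_cast at h
    linarith only [h, g, hT]
  rcases le_total u (5000 / 10000) with hh1 | hh1
  · have h := tf_40_50 (w := u) (by first | with_reducible assumption | linarith) (by first | with_reducible assumption | linarith) (by first | with_reducible assumption | linarith) (by first | with_reducible assumption | linarith) hR
    have g := G3_4000_5000 h8 h1 (u := u) (by first | with_reducible assumption | linarith) (by first | with_reducible assumption | linarith)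
    unfold fT at h
    push_cast at h
    linarith only [h, g, hT]
  have h := tf_50_65 (w := u) (by first | with_reducible assumption | linarith) (by first | with_reducible assumption | linarith) (by first | with_reducible assumption | linarith) (by first | with_reducible assumption | linarith) hR
  have g := G3_5000_6500 h8 h1 (u := u) (by first | with_reducible assumption | linarith) (by first | with_reducible assumption | linarith)
  unfold fT at h
  push_cast at h
  linarith only [h, g, hT]

theorem three_K {u l t X Y : ℝ} (h8 : 8 / 10 ≤ l) (h1 : l ≤ 1) (hu : 0 / 10000 ≤ u)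
    (hu1 : u ≤ 6500 / 10000) (t0 : -(220 / 10000) ≤ t) (t1 : t ≤ 220 / 10000) (hR : RTk t X Y) :
    -(1572 / 10000) - (13080 / 10000) * t < PT (18 / 100) u l t X Y := by
  have hT := h18_220_220 t0 t1
  unfold PT
  rcases le_total u (200 / 10000) with hh0 | hh0
  · have h := tk_0_2 (w := u) (by first | with_reducible assumption | linarith) (by first | with_reducible assumption | linarith) (by first | with_reducible assumption | linarith) (by first | with_reducible assumption | linarith) hR
    have g := G3_0_200 h8 h1 (u := u) (by first | with_reducible assumption | linarith) (by first | with_reducible assumption | linarith)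
    unfold fT at h
    push_cast at h
    linarith only [h, g, hT]
  rcases le_total u (500 / 10000) with hh1 | hh1
  · have h := tk_2_5 (w := u) (by first | with_reducible assumption | linarith) (by first | with_reducible assumption | linarith) (by first | with_reducible assumption | linarith) (by first | with_reducible assumption | linarith) hR
    have g := G3_200_500 h8 h1 (u := u) (by first | with_reducible assumption | linarith) (by first | with_reducible assumption | linarith)
    unfold fT at h
    push_cast at h
    linarith only [h, g, hT]
  rcases le_total u (1000 / 10000) with hh2 | hh2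
  · have h := tk_5_10 (w := u) (by first | with_reducible assumption | linarith) (by first | with_reducible assumption | linarith) (by first | with_reducible assumption | linarith) (by first | with_reducible assumption | linarith) hR
    have g := G3_500_1000 h8 h1 (u := u) (by first | with_reducible assumption | linarith) (by first | with_reducible assumption | linarith)
    unfold fT at h
    push_cast at h
    linarith only [h, g, hT]
  rcases le_total u (2000 / 10000) with hh3 | hh3
  · have h := tk_10_20 (w := u) (by first | with_reducible assumption | linarith) (by first | with_reducible assumption | linarith) (by first | with_reducible assumption | linarith) (by first | with_reducible assumption | linarith) hR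
    have g := G3_1000_2000 h8 h1 (u := u) (by first | with_reducible assumption | linarith) (by first | with_reducible assumption | linarith)
    unfold fT at h
    push_cast at h
    linarith only [h, g, hT]
  rcases le_total u (3000 / 10000) with hh4 | hh4
  · have h := tk_20_30 (w := u) (by first | with_reducible assumption | linarith) (by first | with_reducible assumption | linarith) (by first | with_reducible assumption | linarith) (by first | with_reducible assumption | linarith) hR
    have g := G3_2000_3000 h8 h1 (u := u) (by first | with_reducible assumption | linarith) (by first | with_reducible assumption | linarith)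
    unfold fT at h
    push_cast at h
    linarith only [h, g, hT]
  rcases le_total u (4000 / 10000) with hh5 | hh5
  · have h := tk_30_40 (w := u) (by first | with_reducible assumption | linarith) (by first | with_reducible assumption | linarith) (by first | with_reducible assumption | linarith) (by first | with_reducible assumption | linarith) hR
    have g := G3_3000_4000 h8 h1 (u := u) (by first | with_reducible assumption | linarith) (by first | with_reducible assumption | linarith)
    unfold fT at h
    push_cast at h
    linarith only [h, g, hT]
  rcases le_total u (5000 / 10000) with hh6 | hh6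
  · have h := tk_40_50 (w := u) (by first | with_reducible assumption | linarith) (by first | with_reducible assumption | linarith) (by first | with_reducible assumption | linarith) (by first | with_reducible assumption | linarith) hR
    have g := G3_4000_5000 h8 h1 (u := u) (by first | with_reducible assumption | linarith) (by first | with_reducible assumption | linarith)
    unfold fT at h
    push_cast at h
    linarith only [h, g, hT]
  have h := tk_50_65 (w := u) (by first | with_reducible assumption | linarith) (by first | with_reducible assumption | linarith) (by first | with_reducible assumption | linarith) (by first | with_reducible assumption | linarith) hR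
  have g := G3_5000_6500 h8 h1 (u := u) (by first | with_reducible assumption | linarith) (by first | with_reducible assumption | linarith)
  unfold fT at h
  push_cast at h
  linarith only [h, g, hT]

theorem ring_0 {u l t σ η : ℝ} (h8 : 8 / 10 ≤ l) (h1 : l ≤ 1) (hu : 0 ≤ u)
    (hu1 : u ≤ 65 / 100) (t0 : -(570 / 10000) ≤ t) (t1 : t ≤ 40 / 10000) (s0 : -(5000 / 10000) ≤ σ)
    (s1 : σ ≤ -(2500 / 10000)) (e0 : 0 ≤ η) (e1 : η ≤ 1045 / 10000)
    (e2 : η ≤ 1045 / 10000 * (2 + 4 * σ)) :
    -(1886 / 10000) - (2810 / 10000) * t < PR u l t σ η := by
  have hT := h18_570_40 t0 t1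
  unfold PR
  rcases le_total u (200 / 10000) with hh0 | hh0
  · have h := ri_0_0_200 (w := u) (t := t) (σ := σ) (by first | with_reducible assumption | linarith) (by first | with_reducible assumption | linarith) (by first | with_reducible assumption | linarith) (by first | with_reducible assumption | linarith)
      (by first | with_reducible assumption | linarith) (by first | with_reducible assumption | linarith) e0 e1 e2
    have g := G3_0_200 h8 h1 (u := u) (by first | with_reducible assumption | linarith) (by first | with_reducible assumption | linarith)
    unfold fRr at h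
    push_cast at h
    linarith only [h, g, hT]
  rcases le_total u (500 / 10000) with hh1 | hh1
  · have h := ri_0_200_500 (w := u) (t := t) (σ := σ) (by first | with_reducible assumption | linarith) (by first | with_reducible assumption | linarith) (by first | with_reducible assumption | linarith) (by first | with_reducible assumption | linarith)
      (by first | with_reducible assumption | linarith) (by first | with_reducible assumption | linarith) e0 e1 e2
    have g := G3_200_500 h8 h1 (u := u) (by first | with_reducible assumption | linarith) (by first | with_reducible assumption | linarith)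
    unfold fRr at h
    push_cast at h
    linarith only [h, g, hT]
  rcases le_total u (600 / 10000) with hh2 | hh2
  · have h := ri_0_500_600 (w := u) (t := t) (σ := σ) (by first | with_reducible assumption | linarith) (by first | with_reducible assumption | linarith) (by first | with_reducible assumption | linarith) (by first | with_reducible assumption | linarith)
      (by first | with_reducible assumption | linarith) (by first | with_reducible assumption | linarith) e0 e1 e2
    have g := G3_500_600 h8 h1 (u := u) (by first | with_reducible assumption | linarith) (by first | with_reducible assumption | linarith)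
    unfold fRr at h
    push_cast at h
    linarith only [h, g, hT]
  rcases le_total u (700 / 10000) with hh3 | hh3
  · have h := ri_0_600_700 (w := u) (t := t) (σ := σ) (by first | with_reducible assumption | linarith) (by first | with_reducible assumption | linarith) (by first | with_reducible assumption | linarith) (by first | with_reducible assumption | linarith)
      (by first | with_reducible assumption | linarith) (by first | with_reducible assumption | linarith) e0 e1 e2
    have g := G3_600_700 h8 h1 (u := u) (by first | with_reducible assumption | linarith) (by first | with_reducible assumption | linarith)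
    unfold fRr at h
    push_cast at h
    linarith only [h, g, hT]
  rcases le_total u (785 / 10000) with hh4 | hh4
  · have h := ri_0_700_785 (w := u) (t := t) (σ := σ) (by first | with_reducible assumption | linarith) (by first | with_reducible assumption | linarith) (by first | with_reducible assumption | linarith) (by first | with_reducible assumption | linarith)
      (by first | with_reducible assumption | linarith) (by first | with_reducible assumption | linarith) e0 e1 e2
    have g := G3_700_785 h8 h1 (u := u) (by first | with_reducible assumption | linarith) (by first | with_reducible assumption | linarith)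
    unfold fRr at h
    push_cast at h
    linarith only [h, g, hT]
  rcases le_total u (1000 / 10000) with hh5 | hh5
  · have h := ri_0_785_1000 (w := u) (t := t) (σ := σ) (by first | with_reducible assumption | linarith) (by first | with_reducible assumption | linarith) (by first | with_reducible assumption | linarith) (by first | with_reducible assumption | linarith)
      (by first | with_reducible assumption | linarith) (by first | with_reducible assumption | linarith) e0 e1 e2
    have g := G3_785_1000 h8 h1 (u := u) (by first | with_reducible assumption | linarith) (by first | with_reducible assumption | linarith)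
    unfold fRr at h
    push_cast at h
    linarith only [h, g, hT]
  rcases le_total u (1200 / 10000) with hh6 | hh6
  · have h := ri_0_1000_1200 (w := u) (t := t) (σ := σ) (by first | with_reducible assumption | linarith) (by first | with_reducible assumption | linarith) (by first | with_reducible assumption | linarith) (by first | with_reducible assumption | linarith)
      (by first | with_reducible assumption | linarith) (by first | with_reducible assumption | linarith) e0 e1 e2
    have g := G3_1000_1200 h8 h1 (u := u) (by first | with_reducible assumption | linarith) (by first | with_reducible assumption | linarith)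
    unfold fRr at h
    push_cast at h
    linarith only [h, g, hT]
  rcases le_total u (1600 / 10000) with hh7 | hh7
  · have h := ri_0_1200_1600 (w := u) (t := t) (σ := σ) (by first | with_reducible assumption | linarith) (by first | with_reducible assumption | linarith) (by first | with_reducible assumption | linarith) (by first | with_reducible assumption | linarith)
      (by first | with_reducible assumption | linarith) (by first | with_reducible assumption | linarith) e0 e1 e2
    have g := G3_1200_1600 h8 h1 (u := u) (by first | with_reducible assumption | linarith) (by first | with_reducible assumption | linarith)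
    unfold fRr at h
    push_cast at h
    linarith only [h, g, hT]
  rcases le_total u (2000 / 10000) with hh8 | hh8
  · have h := ri_0_1600_2000 (w := u) (t := t) (σ := σ) (by first | with_reducible assumption | linarith) (by first | with_reducible assumption | linarith) (by first | with_reducible assumption | linarith) (by first | with_reducible assumption | linarith)
      (by first | with_reducible assumption | linarith) (by first | with_reducible assumption | linarith) e0 e1 e2
    have g := G3_1600_2000 h8 h1 (u := u) (by first | with_reducible assumption | linarith) (by first | with_reducible assumption | linarith)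
    unfold fRr at h
    push_cast at h
    linarith only [h, g, hT]
  rcases le_total u (3000 / 10000) with hh9 | hh9
  · have h := ri_0_2000_3000 (w := u) (t := t) (σ := σ) (by first | with_reducible assumption | linarith) (by first | with_reducible assumption | linarith) (by first | with_reducible assumption | linarith) (by first | with_reducible assumption | linarith)
      (by first | with_reducible assumption | linarith) (by first | with_reducible assumption | linarith) e0 e1 e2
    have g := G3_2000_3000 h8 h1 (u := u) (by first | with_reducible assumption | linarith) (by first | with_reducible assumption | linarith)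
    unfold fRr at h
    push_cast at h
    linarith only [h, g, hT]
  rcases le_total u (4000 / 10000) with hh10 | hh10
  · have h := ri_0_3000_4000 (w := u) (t := t) (σ := σ) (by first | with_reducible assumption | linarith) (by first | with_reducible assumption | linarith) (by first | with_reducible assumption | linarith) (by first | with_reducible assumption | linarith)
      (by first | with_reducible assumption | linarith) (by first | with_reducible assumption | linarith) e0 e1 e2
    have g := G3_3000_4000 h8 h1 (u := u) (by first | with_reducible assumption | linarith) (by first | with_reducible assumption | linarith)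
    unfold fRr at h
    push_cast at h
    linarith only [h, g, hT]
  rcases le_total u (5000 / 10000) with hh11 | hh11
  · have h := ri_0_4000_5000 (w := u) (t := t) (σ := σ) (by first | with_reducible assumption | linarith) (by first | with_reducible assumption | linarith) (by first | with_reducible assumption | linarith) (by first | with_reducible assumption | linarith)
      (by first | with_reducible assumption | linarith) (by first | with_reducible assumption | linarith) e0 e1 e2
    have g := G3_4000_5000 h8 h1 (u := u) (by first | with_reducible assumption | linarith) (by first | with_reducible assumption | linarith)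
    unfold fRr at h
    push_cast at h
    linarith only [h, g, hT]
  have h := ri_0_5000_6500 (w := u) (t := t) (σ := σ) (by first | with_reducible assumption | linarith) (by first | with_reducible assumption | linarith) (by first | with_reducible assumption | linarith) (by first | with_reducible assumption | linarith)
    (by first | with_reducible assumption | linarith) (by first | with_reducible assumption | linarith) e0 e1 e2
  have g := G3_5000_6500 h8 h1 (u := u) (by first | with_reducible assumption | linarith) (by first | with_reducible assumption | linarith)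
  unfold fRr at h
  push_cast at h
  linarith only [h, g, hT]

theorem ring_25 {u l t σ η : ℝ} (h8 : 8 / 10 ≤ l) (h1 : l ≤ 1) (hu : 0 ≤ u)
    (hu1 : u ≤ 65 / 100) (t0 : -(570 / 10000) ≤ t) (t1 : t ≤ 40 / 10000) (s0 : -(2500 / 10000) ≤ σ)
    (s1 : σ ≤ 0 / 10000) (e0 : 0 ≤ η) (e1 : η ≤ 1045 / 10000)
    (e2 : η ≤ 1045 / 10000 * (2 + 4 * σ)) :
    -(1886 / 10000) - (2810 / 10000) * t < PR u l t σ η := by
  have hT := h18_570_40 t0 t1
  unfold PR
  rcases le_total u (200 / 10000) with hh0 | hh0
  · have h := ri_25_0_200 (w := u) (t := t) (σ := σ) (by first | with_reducible assumption | linarith) (by first | with_reducible assumption | linarith) (by first | with_reducible assumption | linarith) (by first | with_reducible assumption | linarith)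
      (by first | with_reducible assumption | linarith) (by first | with_reducible assumption | linarith) e0 e1 e2
    have g := G3_0_200 h8 h1 (u := u) (by first | with_reducible assumption | linarith) (by first | with_reducible assumption | linarith)
    unfold fRr at h
    push_cast at h
    linarith only [h, g, hT]
  rcases le_total u (500 / 10000) with hh1 | hh1
  · have h := ri_25_200_500 (w := u) (t := t) (σ := σ) (by first | with_reducible assumption | linarith) (by first | with_reducible assumption | linarith) (by first | with_reducible assumption | linarith) (by first | with_reducible assumption | linarith)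
      (by first | with_reducible assumption | linarith) (by first | with_reducible assumption | linarith) e0 e1 e2
    have g := G3_200_500 h8 h1 (u := u) (by first | with_reducible assumption | linarith) (by first | with_reducible assumption | linarith)
    unfold fRr at h
    push_cast at h
    linarith only [h, g, hT]
  rcases le_total u (1000 / 10000) with hh2 | hh2
  · have h := ri_25_500_1000 (w := u) (t := t) (σ := σ) (by first | with_reducible assumption | linarith) (by first | with_reducible assumption | linarith) (by first | with_reducible assumption | linarith) (by first | with_reducible assumption | linarith)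
      (by first | with_reducible assumption | linarith) (by first | with_reducible assumption | linarith) e0 e1 e2
    have g := G3_500_1000 h8 h1 (u := u) (by first | with_reducible assumption | linarith) (by first | with_reducible assumption | linarith)
    unfold fRr at h
    push_cast at h
    linarith only [h, g, hT]
  rcases le_total u (2000 / 10000) with hh3 | hh3
  · have h := ri_25_1000_2000 (w := u) (t := t) (σ := σ) (by first | with_reducible assumption | linarith) (by first | with_reducible assumption | linarith) (by first | with_reducible assumption | linarith) (by first | with_reducible assumption | linarith)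
      (by first | with_reducible assumption | linarith) (by first | with_reducible assumption | linarith) e0 e1 e2
    have g := G3_1000_2000 h8 h1 (u := u) (by first | with_reducible assumption | linarith) (by first | with_reducible assumption | linarith)
    unfold fRr at h
    push_cast at h
    linarith only [h, g, hT]
  rcases le_total u (3000 / 10000) with hh4 | hh4
  · have h := ri_25_2000_3000 (w := u) (t := t) (σ := σ) (by first | with_reducible assumption | linarith) (by first | with_reducible assumption | linarith) (by first | with_reducible assumption | linarith) (by first | with_reducible assumption | linarith)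
      (by first | with_reducible assumption | linarith) (by first | with_reducible assumption | linarith) e0 e1 e2
    have g := G3_2000_3000 h8 h1 (u := u) (by first | with_reducible assumption | linarith) (by first | with_reducible assumption | linarith)
    unfold fRr at h
    push_cast at h
    linarith only [h, g, hT]
  rcases le_total u (4000 / 10000) with hh5 | hh5
  · have h := ri_25_3000_4000 (w := u) (t := t) (σ := σ) (by first | with_reducible assumption | linarith) (by first | with_reducible assumption | linarith) (by first | with_reducible assumption | linarith) (by first | with_reducible assumption | linarith)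
      (by first | with_reducible assumption | linarith) (by first | with_reducible assumption | linarith) e0 e1 e2
    have g := G3_3000_4000 h8 h1 (u := u) (by first | with_reducible assumption | linarith) (by first | with_reducible assumption | linarith)
    unfold fRr at h
    push_cast at h
    linarith only [h, g, hT]
  rcases le_total u (5000 / 10000) with hh6 | hh6
  · have h := ri_25_4000_5000 (w := u) (t := t) (σ := σ) (by first | with_reducible assumption | linarith) (by first | with_reducible assumption | linarith) (by first | with_reducible assumption | linarith) (by first | with_reducible assumption | linarith)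
      (by first | with_reducible assumption | linarith) (by first | with_reducible assumption | linarith) e0 e1 e2
    have g := G3_4000_5000 h8 h1 (u := u) (by first | with_reducible assumption | linarith) (by first | with_reducible assumption | linarith)
    unfold fRr at h
    push_cast at h
    linarith only [h, g, hT]
  have h := ri_25_5000_6500 (w := u) (t := t) (σ := σ) (by first | with_reducible assumption | linarith) (by first | with_reducible assumption | linarith) (by first | with_reducible assumption | linarith) (by first | with_reducible assumption | linarith)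
    (by first | with_reducible assumption | linarith) (by first | with_reducible assumption | linarith) e0 e1 e2
  have g := G3_5000_6500 h8 h1 (u := u) (by first | with_reducible assumption | linarith) (by first | with_reducible assumption | linarith)
  unfold fRr at h
  push_cast at h
  linarith only [h, g, hT]

theorem ring_50 {u l t σ η : ℝ} (h8 : 8 / 10 ≤ l) (h1 : l ≤ 1) (hu : 0 ≤ u)
    (hu1 : u ≤ 65 / 100) (t0 : -(570 / 10000) ≤ t) (t1 : t ≤ 40 / 10000) (s0 : 0 / 10000 ≤ σ)
    (s1 : σ ≤ 1250 / 10000) (e0 : 0 ≤ η) (e1 : η ≤ 1045 / 10000)
    (e2 : η ≤ 1045 / 10000 * (2 + 4 * σ)) :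
    -(1886 / 10000) - (2810 / 10000) * t < PR u l t σ η := by
  have hT := h18_570_40 t0 t1
  unfold PR
  rcases le_total u (200 / 10000) with hh0 | hh0
  · have h := ri_50_0_200 (w := u) (t := t) (σ := σ) (by first | with_reducible assumption | linarith) (by first | with_reducible assumption | linarith) (by first | with_reducible assumption | linarith) (by first | with_reducible assumption | linarith)
      (by first | with_reducible assumption | linarith) (by first | with_reducible assumption | linarith) e0 e1 e2
    have g := G3_0_200 h8 h1 (u := u) (by first | with_reducible assumption | linarith) (by first | with_reducible assumption | linarith)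
    unfold fRr at h
    push_cast at h
    linarith only [h, g, hT]
  rcases le_total u (500 / 10000) with hh1 | hh1
  · have h := ri_50_200_500 (w := u) (t := t) (σ := σ) (by first | with_reducible assumption | linarith) (by first | with_reducible assumption | linarith) (by first | with_reducible assumption | linarith) (by first | with_reducible assumption | linarith)
      (by first | with_reducible assumption | linarith) (by first | with_reducible assumption | linarith) e0 e1 e2
    have g := G3_200_500 h8 h1 (u := u) (by first | with_reducible assumption | linarith) (by first | with_reducible assumption | linarith)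
    unfold fRr at h
    push_cast at h
    linarith only [h, g, hT]
  rcases le_total u (1000 / 10000) with hh2 | hh2
  · have h := ri_50_500_1000 (w := u) (t := t) (σ := σ) (by first | with_reducible assumption | linarith) (by first | with_reducible assumption | linarith) (by first | with_reducible assumption | linarith) (by first | with_reducible assumption | linarith)
      (by first | with_reducible assumption | linarith) (by first | with_reducible assumption | linarith) e0 e1 e2
    have g := G3_500_1000 h8 h1 (u := u) (by first | with_reducible assumption | linarith) (by first | with_reducible assumption | linarith)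
    unfold fRr at h
    push_cast at h
    linarith only [h, g, hT]
  rcases le_total u (2000 / 10000) with hh3 | hh3
  · have h := ri_50_1000_2000 (w := u) (t := t) (σ := σ) (by first | with_reducible assumption | linarith) (by first | with_reducible assumption | linarith) (by first | with_reducible assumption | linarith) (by first | with_reducible assumption | linarith)
      (by first | with_reducible assumption | linarith) (by first | with_reducible assumption | linarith) e0 e1 e2
    have g := G3_1000_2000 h8 h1 (u := u) (by first | with_reducible assumption | linarith) (by first | with_reducible assumption | linarith)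
    unfold fRr at h
    push_cast at h
    linarith only [h, g, hT]
  rcases le_total u (3000 / 10000) with hh4 | hh4
  · have h := ri_50_2000_3000 (w := u) (t := t) (σ := σ) (by first | with_reducible assumption | linarith) (by first | with_reducible assumption | linarith) (by first | with_reducible assumption | linarith) (by first | with_reducible assumption | linarith)
      (by first | with_reducible assumption | linarith) (by first | with_reducible assumption | linarith) e0 e1 e2
    have g := G3_2000_3000 h8 h1 (u := u) (by first | with_reducible assumption | linarith) (by first | with_reducible assumption | linarith)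
    unfold fRr at h
    push_cast at h
    linarith only [h, g, hT]
  rcases le_total u (4000 / 10000) with hh5 | hh5
  · have h := ri_50_3000_4000 (w := u) (t := t) (σ := σ) (by first | with_reducible assumption | linarith) (by first | with_reducible assumption | linarith) (by first | with_reducible assumption | linarith) (by first | with_reducible assumption | linarith)
      (by first | with_reducible assumption | linarith) (by first | with_reducible assumption | linarith) e0 e1 e2
    have g := G3_3000_4000 h8 h1 (u := u) (by first | with_reducible assumption | linarith) (by first | with_reducible assumption | linarith)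
    unfold fRr at h
    push_cast at h
    linarith only [h, g, hT]
  rcases le_total u (5000 / 10000) with hh6 | hh6
  · have h := ri_50_4000_5000 (w := u) (t := t) (σ := σ) (by first | with_reducible assumption | linarith) (by first | with_reducible assumption | linarith) (by first | with_reducible assumption | linarith) (by first | with_reducible assumption | linarith)
      (by first | with_reducible assumption | linarith) (by first | with_reducible assumption | linarith) e0 e1 e2
    have g := G3_4000_5000 h8 h1 (u := u) (by first | with_reducible assumption | linarith) (by first | with_reducible assumption | linarith)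
    unfold fRr at h
    push_cast at h
    linarith only [h, g, hT]
  have h := ri_50_5000_6500 (w := u) (t := t) (σ := σ) (by first | with_reducible assumption | linarith) (by first | with_reducible assumption | linarith) (by first | with_reducible assumption | linarith) (by first | with_reducible assumption | linarith)
    (by first | with_reducible assumption | linarith) (by first | with_reducible assumption | linarith) e0 e1 e2
  have g := G3_5000_6500 h8 h1 (u := u) (by first | with_reducible assumption | linarith) (by first | with_reducible assumption | linarith)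
  unfold fRr at h
  push_cast at h
  linarith only [h, g, hT]

end L2

end TL

end Pool.Agent.Work.MP_b30479_gtS.G2

end

section

/-!
# Tails, PART 2: the lines of the slot `0` of an interior three whose inner variable is in the tail

`G + UU ⟨u, 0⟩ + UU ⟨l - u, 0⟩` is bounded below by lines `a - e τ`, `G` the gain of the untouched
region behind the real hinge `u` in the slot `0`.
-/

set_option linter.unusedVariables false

set_option deprecated.oldSectionVars true

namespace Pool.Agent.Work.MP_b30479_gtS.G2

open VOL NumUs SR

namespace TL

namespace L2

/-! ### two real functions -/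

theorem m2 {u l : ℝ} (h8 : 8 / 10 ≤ l) (h1 : l ≤ 1) (hu : 0 ≤ u) (hu1 : u ≤ 65 / 100) :
    -(2580 / 10000) ≤ 2 * uu u 0 + uu (l - u) 0 := by
  have c0 := c02
  rcases le_total u (2 / 100) with h2 | h2
  · have hW := E1.W_v hu h2
    have c1 := c78
    have hm := uu_real_mono (a := 78 / 100) (b := 8 / 10 - u) (by norm_num) (by linarith only [h2])
      (by linarith only [hu])
    rcases lu_or (u := u) h8 h1 hu (by linarith only [hu1, h2]) with h | ⟨_, h⟩ <;> linarith only [c0, hW, c1, hm, h]
  rcases le_total u (19 / 30) with h3 | h3
  · rcases lu_or h8 h1 hu h3 with h | ⟨h6, h⟩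
    · have hc : NumGs.chkF [.sub (.add (.mul (.q 2 1) (.uw (.var 0) (.q 0 1)))
          (.uw (.sub (.q 8 10) (.var 0)) (.q 0 1))) (.q (-2580) 10000)] 10000 0 0 0 0 60 200 6334
          0 0 0 0 0 0 0x4081000008102000010200080000408002040000000 = true := by decide +kernel
      obtain ⟨e, he, hp⟩ := NumGs.chkF4 hc (by norm_num) (x := u) (y := 0) (z := 0) (w := 0)
        (by norm_num; linarith only [h2]) (by norm_num; linarith only [h3]) (by norm_num) (by norm_num) (by norm_num)
        (by norm_num) (by norm_num) (by norm_num)
      simp only [List.mem_singleton] at he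
      subst he
      simp only [NumGs.E.val, NumIs.lkR] at hp
      push_cast at hp
      simp only [zero_div] at hp
      linarith only [h, hp]
    · have := real_ge (x := u) (by linarith only [h2]) (by linarith only [hu1])
      linarith only [h, this]
  · have h5 := uu_real_mono (a := 1 / 2) (b := u) (by norm_num) (by linarith only [h3]) (by linarith only [hu1])
    have h6 := uu_one_sub (1 / 2) 0
    rw [show (1 : ℝ) - 1 / 2 = 1 / 2 by norm_num] at h6
    have := real_ge (x := l - u) (by linarith only [h8, hu1]) (by linarith only [h1, h3])
    linarith only [h5, h6, this]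

theorem m1 {u l : ℝ} (h8 : 8 / 10 ≤ l) (h1 : l ≤ 1) (hu : 0 ≤ u) (hu1 : u ≤ 65 / 100) :
    -(1403 / 10000) ≤ uu u 0 + uu (l - u) 0 := by
  have c0 := c02
  rcases le_total u (2 / 100) with h2 | h2
  · have hW := E1.W_v hu h2
    have c1 := c78
    have hm := uu_real_mono (a := 78 / 100) (b := 8 / 10 - u) (by norm_num) (by linarith only [h2])
      (by linarith only [hu])
    rcases lu_or (u := u) h8 h1 hu (by linarith only [hu1, h2]) with h | ⟨_, h⟩ <;> linarith only [c0, hW, c1, hm, h]
  rcases le_total u (19 / 30) with h3 | h3
  · rcases lu_or h8 h1 hu h3 with h | ⟨h6, h⟩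
    · have hc : NumGs.chkF [.sub (.add (.uw (.var 0) (.q 0 1))
          (.uw (.sub (.q 8 10) (.var 0)) (.q 0 1))) (.q (-1403) 10000)] 10000 0 0 0 0 60 200 6334
          0 0 0 0 0 0 0x40800204000020400102040000000 = true := by decide +kernel
      obtain ⟨e, he, hp⟩ := NumGs.chkF4 hc (by norm_num) (x := u) (y := 0) (z := 0) (w := 0)
        (by norm_num; linarith only [h2]) (by norm_num; linarith only [h3]) (by norm_num) (by norm_num) (by norm_num)
        (by norm_num) (by norm_num) (by norm_num)
      simp only [List.mem_singleton] at he
      subst he
      simp only [NumGs.E.val, NumIs.lkR] at hp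
      push_cast at hp
      simp only [zero_div] at hp
      linarith only [h, hp]
    · linarith only [h]
  · have h5 := uu_real_mono (a := 1 / 2) (b := u) (by norm_num) (by linarith only [h3]) (by linarith only [hu1])
    have h6 := uu_one_sub (1 / 2) 0
    rw [show (1 : ℝ) - 1 / 2 = 1 / 2 by norm_num] at h6
    have h7 : 5 / 100 ≤ uu (19 / 30) 0 := by
      have hc : NumGs.chkF [.sub (.uw (.var 0) (.q 0 1)) (.q 5 100)] 10000 0 0 0 0 60 6333 6334
          0 0 0 0 0 0 0x4 = true := by decide +kernel
      obtain ⟨e, he, hp⟩ := NumGs.chkF4 hc (by norm_num) (x := 19 / 30) (y := 0) (z := 0) (w := 0)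
        (by norm_num) (by norm_num) (by norm_num) (by norm_num) (by norm_num)
        (by norm_num) (by norm_num) (by norm_num)
      simp only [List.mem_singleton] at he
      subst he
      simp only [NumGs.E.val, NumIs.lkR] at hp
      push_cast at hp
      simp only [zero_div] at hp
      linarith only [hp]
    have h8' := uu_real_mono (a := 19 / 30) (b := u) (by norm_num) (by linarith only [h3]) (by linarith only [hu1])
    have := real_ge (x := l - u) (by linarith only [h8, hu1]) (by linarith only [h1, h3])
    linarith only [h7, h8', this]

/-! ### class one -/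

/-- the gain of class one -/
theorem V1_gain (c u τ X Y : ℝ) : V1 ⟨c, τ⟩ ⟨X, Y⟩ - V1 ⟨u, 0⟩ ⟨X, Y⟩ =
    Real.pi * ((c - u) * Y + τ * (X - 1)) + uu (c + X) (τ + Y) - uu c τ - uu (u + X) Y +
      uu u 0 := by
  unfold V1
  rw [UU_uu, UU_uu, UU_uu, UU_uu, UU_uu]
  simp only [Complex.sub_im, Complex.mul_im, Complex.add_re, Complex.add_im]
  rw [zero_add]
  ring

theorem V2_gain (c u τ X Y : ℝ) : V2 ⟨c, τ⟩ ⟨X, Y⟩ - V2 ⟨u, 0⟩ ⟨X, Y⟩ =
    Real.pi * (τ * (X - (c + 1 / 2)) + (c - u) * Y) + uu (c + X) (τ + Y) - uu (u + X) Y -
      2 * uu c τ + 2 * uu u 0 := by
  rw [V2_uu, V2_uu, zero_add]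
  ring

theorem UU_re (x : ℝ) : UU (⟨x, 0⟩ : ℂ) = uu x 0 := by rw [UU_uu]

/-- the region `RgO` next to a three -/
theorem RO0_of {τ X Y : ℝ} (h0 : 21 / 1000 ≤ τ) (h1 : τ ≤ 92 / 1000)
    (h : RgO .three .one τ X Y) : RO0 τ X Y := by
  obtain ⟨x0, x1, T, t0, t1, s0, s1, hh⟩ := h
  simp only [pM, cw, pa, pb, reduceCtorEq, if_false] at x1 t0 t1 s0 s1 hh
  have hx := mul_nonneg x0 (sub_nonneg.2 t1)
  have hx2 := mul_nonneg x0 (by linarith only [s1] : (0 : ℝ) ≤ 111 / 1000 - τ - T)
  have hx3 := mul_nonneg x0 (by linarith only [t0] : (0 : ℝ) ≤ T + 91 / 1000)
  have hx4 := mul_nonneg x0 (by linarith only [s0] : (0 : ℝ) ≤ T + 22 / 1000 + τ)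
  have hz : (0 : ℝ) ≤ 86 / 100 - X := by linarith only [x1]
  have hz1 := mul_nonneg hz (sub_nonneg.2 t1)
  have hz2 := mul_nonneg hz (by linarith only [s1] : (0 : ℝ) ≤ 111 / 1000 - τ - T)
  have hz3 := mul_nonneg hz (by linarith only [t0] : (0 : ℝ) ≤ T + 91 / 1000)
  have hz4 := mul_nonneg hz (by linarith only [s0] : (0 : ℝ) ≤ T + 22 / 1000 + τ)
  have hw1 := mul_nonneg x0 (by linarith only [h1] : (0 : ℝ) ≤ 111 / 1000 - τ)
  have hw2 := mul_nonneg x0 (by linarith only [h0] : (0 : ℝ) ≤ 22 / 1000 + τ)
  have hw3 := mul_nonneg hz (by linarith only [h1] : (0 : ℝ) ≤ 111 / 1000 - τ)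
  have hw4 := mul_nonneg hz (by linarith only [h0] : (0 : ℝ) ≤ 22 / 1000 + τ)
  rcases hh with ⟨y0, y1, a, b⟩ | ⟨y0, y1, a, b⟩
  · constructor <;> linarith only [x0, x1, s1, y1, hx, a, hx2, hz1, b, hz2, h0, y0, hw2, hw4, t1]
  · constructor <;> linarith only [x0, x1, h1, y0, hw1, hw3, s0, y1, hx3, a, hx4, hz3, b, hz4, t0]

theorem RO1_of {τ X Y : ℝ} (h0 : 46 / 1000 ≤ τ) (h1 : τ ≤ 94 / 1000)
    (h : RgO .three .two τ X Y) : RO1 τ X Y := by
  obtain ⟨x0, x1, T, t0, t1, s0, s1, hh⟩ := h
  simp only [pM, cw, pa, pb] at x1 t0 t1 s0 s1 hh
  have hx := mul_nonneg x0 (sub_nonneg.2 t1)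
  have hx2 := mul_nonneg x0 (by linarith only [s1] : (0 : ℝ) ≤ 148 / 1000 - τ - T)
  have hz : (0 : ℝ) ≤ 80 / 100 - X := by linarith only [x1]
  have hz1 := mul_nonneg hz (sub_nonneg.2 t1)
  have hz2 := mul_nonneg hz (by linarith only [s1] : (0 : ℝ) ≤ 148 / 1000 - τ - T)
  rcases hh with ⟨y0, y1, a, b⟩ | ⟨y0, y1, a, b⟩
  · constructor <;> linarith only [x0, x1, s1, y1, hx, a, hx2, hz1, b, hz2, y0, t1]
  · exfalso
    linarith only [t0, y0, y1]

theorem RO2_of {τ X Y : ℝ} (h0 : 87 / 1000 ≤ τ) (h1 : τ ≤ 1145 / 10000) (h8 : 8 / 100 ≤ X)
    (h : RgO .three .twoE τ X Y) : RO2 τ X Y := by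
  obtain ⟨x0, x1, T, t0, t1, s0, s1, hh⟩ := h
  simp only [pM, cw, pa, pb] at x1 t0 t1 s0 s1 hh
  have hx3 := mul_nonneg x0 (by linarith only [t0] : (0 : ℝ) ≤ T + 45 / 1000)
  have hx4 := mul_nonneg x0 (by linarith only [s0] : (0 : ℝ) ≤ T - (51 / 1000 - τ))
  have hz : (0 : ℝ) ≤ 70 / 100 - X := by linarith only [x1]
  have hz3 := mul_nonneg hz (by linarith only [t0] : (0 : ℝ) ≤ T + 45 / 1000)
  have hz4 := mul_nonneg hz (by linarith only [s0] : (0 : ℝ) ≤ T - (51 / 1000 - τ))
  rcases hh with ⟨y0, y1, a, b⟩ | ⟨y0, y1, a, b⟩
  · exfalso
    linarith only [t1, y0, y1]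
  · constructor <;> linarith only [h8, x1, s0, y1, hx3, a, hx4, hz3, b, hz4, t0, y0]

/-- **Class one, the old position is at most `3/10`.** -/
theorem Pu_one_lo {u l τ G : ℝ} (hl : 8 / 10 ≤ l) (hl1 : l ≤ 1) (hu : 0 ≤ u) (hu3 : u < 3 / 10)
    (hG : Gn .three (cU .one u) u τ .one G) :
    (21 / 1000 ≤ τ ∧ τ ≤ 92 / 1000 ∧
      -(2490 / 10000) - 1957 / 1000 * τ ≤ G + UU ⟨u, 0⟩ + UU ⟨l - u, 0⟩) ∨
    (46 / 1000 ≤ τ ∧ τ ≤ 94 / 1000 ∧
      -(2108 / 10000) - 2375 / 1000 * τ ≤ G + UU ⟨u, 0⟩ + UU ⟨l - u, 0⟩) ∨
    (87 / 1000 ≤ τ ∧ τ ≤ 1145 / 10000 ∧
      -(1899 / 10000) - 2473 / 1000 * τ ≤ G + UU ⟨u, 0⟩ + UU ⟨l - u, 0⟩) := by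
  have hc : cU .one u = 23 / 100 := by
    simp only [cU]
    rw [if_pos hu3]
  rw [hc] at hG
  rw [UU_re, UU_re]
  cases hG with
  | @one D X Y h0 h1 h2 hb hR hX =>
    rw [V1_gain]
    cases D with
    | one =>
      left
      simp only [cw] at h0 h1
      refine ⟨h0, h1, ?_⟩
      have := one0_23_210 (u := u) hl hl1 (by linarith only [hu]) (by linarith only [hu3]) (by linarith only [h0]) (by linarith only [h1])
        (RO0_of h0 h1 hR)
      unfold PO at this
      linarith only [this]
    | two =>
      right; left
      simp only [cw] at h0 h1
      refine ⟨h0, h1, ?_⟩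
      have := one1_23_460 (u := u) hl hl1 (by linarith only [hu]) (by linarith only [hu3]) (by linarith only [h0]) (by linarith only [h1])
        (RO1_of h0 h1 hR)
      unfold PO at this
      linarith only [this]
    | twoE =>
      right; right
      simp only [cw] at h0 h1
      refine ⟨h0, h1, ?_⟩
      have := one2_23_870 (u := u) hl hl1 (by linarith only [hu]) (by linarith only [hu3]) (by linarith only [h0]) (by linarith only [h1])
        (RO2_of h0 h1 (hX rfl (Or.inl rfl)) hR)
      unfold PO at this
      linarith only [this]
    | three => exact absurd ⟨Or.inl rfl, Or.inl rfl⟩ hb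
    | threeE => exact absurd ⟨Or.inl rfl, Or.inr (Or.inl rfl)⟩ hb
    | ring => exact absurd ⟨Or.inl rfl, Or.inr (Or.inr rfl)⟩ hb

/-- **Class one, the old position is at least `3/10`.** -/
theorem Pu_one_hi {u l τ G : ℝ} (hl : 8 / 10 ≤ l) (hl1 : l ≤ 1) (hu3 : 3 / 10 ≤ u)
    (hu1 : u ≤ 65 / 100) (hG : Gn .three (cU .one u) u τ .one G) :
    (21 / 1000 ≤ τ ∧ τ ≤ 92 / 1000 ∧
      -(2283 / 10000) - 2225 / 1000 * τ ≤ G + UU ⟨u, 0⟩ + UU ⟨l - u, 0⟩) ∨
    (46 / 1000 ≤ τ ∧ τ ≤ 94 / 1000 ∧
      (τ ≤ 70 / 1000 →
        -(2394 / 10000) - 2188 / 1000 * τ ≤ G + UU ⟨u, 0⟩ + UU ⟨l - u, 0⟩) ∧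
      (70 / 1000 ≤ τ →
        -(2630 / 10000) - 1850 / 1000 * τ ≤ G + UU ⟨u, 0⟩ + UU ⟨l - u, 0⟩ ∨
        -(2432 / 10000) - 2092 / 1000 * τ ≤ G + UU ⟨u, 0⟩ + UU ⟨l - u, 0⟩)) ∨
    (87 / 1000 ≤ τ ∧ τ ≤ 1145 / 10000 ∧
      -(2084 / 10000) - 2363 / 1000 * τ ≤ G + UU ⟨u, 0⟩ + UU ⟨l - u, 0⟩) := by
  have hc : cU .one u = 27 / 100 := by
    simp only [cU]
    rw [if_neg (not_lt.2 hu3)]
  rw [hc] at hG
  rw [UU_re, UU_re]
  cases hG with
  | @one D X Y h0 h1 h2 hb hR hX =>
    rw [V1_gain]
    cases D with
    | one =>
      left
      simp only [cw] at h0 h1
      refine ⟨h0, h1, ?_⟩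
      have := one0_27_210 (u := u) hl hl1 (by linarith only [hu3]) (by linarith only [hu1]) (by linarith only [h0]) (by linarith only [h1])
        (RO0_of h0 h1 hR)
      unfold PO at this
      linarith only [this]
    | two =>
      right; left
      simp only [cw] at h0 h1
      refine ⟨h0, h1, fun h7 => ?_, fun h7 => ?_⟩
      · have := one1_27_460 (u := u) hl hl1 (by linarith only [hu3]) (by linarith only [hu1]) (by linarith only [h0]) (by linarith only [h7])
          (RO1_of h0 h1 hR)
        unfold PO at this
        linarith only [this]
      · have := one1_27_700 (u := u) hl hl1 (by linarith only [hu3]) (by linarith only [hu1]) (by linarith only [h7]) (by linarith only [h1])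
          (RO1_of h0 h1 hR)
        unfold PO at this
        rcases this with this | this
        · left; linarith only [this]
        · right; linarith only [this]
    | twoE =>
      right; right
      simp only [cw] at h0 h1
      refine ⟨h0, h1, ?_⟩
      have := one2_27_870 (u := u) hl hl1 (by linarith only [hu3]) (by linarith only [hu1]) (by linarith only [h0]) (by linarith only [h1])
        (RO2_of h0 h1 (hX rfl (Or.inl rfl)) hR)
      unfold PO at this
      linarith only [this]
    | three => exact absurd ⟨Or.inl rfl, Or.inl rfl⟩ hb
    | threeE => exact absurd ⟨Or.inl rfl, Or.inr (Or.inl rfl)⟩ hb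
    | ring => exact absurd ⟨Or.inl rfl, Or.inr (Or.inr rfl)⟩ hb

/-! ### the other classes -/

theorem Pu_two {u l τ G : ℝ} (hl : 8 / 10 ≤ l) (hl1 : l ≤ 1) (hu : 0 ≤ u) (hu1 : u ≤ 65 / 100)
    (hG : Gn .three (cU .two u) u τ .two G) :
    -(1620 / 10000) - 1875 / 1000 * τ ≤ G + UU ⟨u, 0⟩ + UU ⟨l - u, 0⟩ := by
  have hc : cU .two u = 25 / 100 := by
    simp only [cU, cN]
    norm_num
  rw [hc] at hG
  rw [UU_re, UU_re]
  cases hG with
  | @two X Y h0 h1 hR =>
    rw [V2_gain]
    simp only [hbox] at h0 h1
    rcases hR with ⟨g0, g1, g2, g3, g4, g5, g6, g7⟩ | ⟨g, g0, g1, g2, g3⟩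
    · have := two_D (u := u) hl hl1 (by linarith only [hu]) (by linarith only [hu1]) (by linarith only [h0]) (by linarith only [h1])
        (RTw.mk (t := τ) (X := X) (Y := Y) (by linarith only [g0]) (by linarith only [g1]) (by linarith only [g2]) (by linarith only [g4])
          (by linarith only [g5]) (by linarith only [g7]) (by linarith only [g6]) (by linarith only [g3]))
      unfold PT at this
      linarith only [this]
    · have := two_F (u := u) hl hl1 (by linarith only [g]) (by linarith only [hu1]) (by linarith only [h0]) (by linarith only [h1])
        (RTf.mk (t := τ) (X := X) (Y := Y) (by linarith only [g0]) (by linarith only [g1]) (by linarith only [g0]) (by linarith only [g2])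
          (by linarith only [g3]) (by linarith only [g0, g3]) (by linarith only [g0, g2]))
      unfold PT at this
      linarith only [this]

theorem Pu_threeK {u l τ G : ℝ} (hl : 8 / 10 ≤ l) (hl1 : l ≤ 1) (hu : 0 ≤ u)
    (hu1 : u ≤ 65 / 100) (hG : Gn .three (cU .threeK u) u τ .threeK G) :
    -(1572 / 10000) - 1308 / 1000 * τ ≤ G + UU ⟨u, 0⟩ + UU ⟨l - u, 0⟩ := by
  have hc : cU .threeK u = 18 / 100 := by
    simp only [cU, cN]
    norm_num
  rw [hc] at hG
  rw [UU_re, UU_re]
  cases hG with
  | @threeK X Y h0 h1 hR =>
    rw [V2_gain]
    simp only [hbox] at h0 h1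
    obtain ⟨g0, g1, g2, g3, g4, g5, g6, g7⟩ := hR
    have := three_K (u := u) hl hl1 (by linarith only [hu]) (by linarith only [hu1]) (by linarith only [h0]) (by linarith only [h1])
      (RTk.mk (t := τ) (X := X) (Y := Y) (by linarith only [g0]) (by linarith only [g1]) (by linarith only [g3]) (by linarith only [g4])
        (by linarith only [g6]) (by linarith only [g7]) (by linarith only [g5]) (by linarith only [g2]))
    unfold PT at this
    linarith only [this]

theorem Pu_twoE {u l τ G : ℝ} (hl : 8 / 10 ≤ l) (hl1 : l ≤ 1) (hu : 0 ≤ u)
    (hu1 : u ≤ 65 / 100) (hG : Gn .three (cU .twoE u) u τ .twoE G) :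
    -(1206 / 10000) - 1950 / 1000 * τ ≤ G + UU ⟨u, 0⟩ + UU ⟨l - u, 0⟩ := by
  have hc : cU .twoE u = 22 / 100 := by
    simp only [cU, cN]
    norm_num
  rw [hc] at hG
  rw [UU_re, UU_re]
  cases hG with
  | twoE h0 h1 =>
    simp only [hbox] at h0 h1
    have hm := m2 (u := u) hl hl1 hu hu1
    have hc : NumGs.chkF [.add (.add (.sub (.neg (.mul .pi (.mul (.q 72 100) (.var 1))))
        (.uw (.q 22 100) (.var 1))) (.mul (.q 195 100) (.var 1))) (.q (-1374) 10000)]
        10000 0 0 0 0 60 0 0 760 980 0 0 0 0 0x4 = true := by decide +kernel
    obtain ⟨e, he, hp⟩ := NumGs.chkF4 hc (by norm_num) (x := 0) (y := τ) (z := 0) (w := 0)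
      (by norm_num) (by norm_num) (by norm_num; linarith only [h0]) (by norm_num; linarith only [h1]) (by norm_num)
      (by norm_num) (by norm_num) (by norm_num)
    simp only [List.mem_singleton] at he
    subst he
    simp only [NumGs.E.val, NumIs.lkR] at hp
    push_cast at hp
    have e1 : V2 ⟨22 / 100, τ⟩ 0 - V2 ⟨u, 0⟩ 0 =
        -(Real.pi * (72 / 100 * τ)) - uu (22 / 100) τ + uu u 0 := by
      have f1 := NumGs.E.V2e_val (x := .q 22 100) (t := .var 0) (xs := [τ])
      have f2 := NumGs.E.V2e_val (x := .var 0) (t := .q 0 1) (xs := [u])
      simp only [NumGs.E.V2e, NumGs.E.val, NumIs.lkR] at f1 f2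
      push_cast at f1 f2
      rw [zero_div] at f2
      rw [← f1, ← f2]
      ring
    rw [e1]
    linarith only [hm, hp]

theorem Pu_threeE {u l τ G : ℝ} (hl : 8 / 10 ≤ l) (hl1 : l ≤ 1) (hu : 0 ≤ u)
    (hu1 : u ≤ 65 / 100) (hG : Gn .three (cU .threeE u) u τ .threeE G) :
    -(1190 / 10000) - 1378 / 1000 * τ ≤ G + UU ⟨u, 0⟩ + UU ⟨l - u, 0⟩ := by
  have hc : cU .threeE u = 22 / 100 := by
    simp only [cU, cN]
    norm_num
  rw [hc] at hG
  rw [UU_re, UU_re]
  cases hG with
  | @threeE l' m h0 h1 hm0 hm1 hl' hl1' =>
    simp only [hbox] at h0 h1
    have hm := m2 (u := u) hl hl1 hu hu1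
    have hr := real_ge (x := l' - u) (by linarith only [hl']) (by linarith only [hu, hl1'])
    have hc : NumGs.chkF [.add (.add (.sub (.sub (.neg (.mul .pi (.add (.add (.mul (.q 22 100)
        (.var 2)) (.mul (.add (.q 22 100) (.q 1 6)) (.var 1))) (.mul (.sub (.add (.q 22 100)
        (.q 1 6)) (.q 1 2)) (.var 2))))) (.uw (.q 1 6) (.sub (.var 2) (.var 1))))
        (.uw (.q 22 100) (.var 1))) (.mul (.q 1378 1000) (.var 1))) (.q (-3006) 10000)]
        10000 0 0 450 0 60 0 0 50 280 0 1040 0 0 0x40808202 = true := by decide +kernel
    obtain ⟨e, he, hp⟩ := NumGs.chkF4 hc (by norm_num) (x := 0) (y := τ) (z := m) (w := 0)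
      (by norm_num) (by norm_num) (by norm_num; linarith only [h0]) (by norm_num; linarith only [h1])
      (by norm_num; linarith only [hm0]) (by norm_num; linarith only [hm1]) (by norm_num) (by norm_num)
    simp only [List.mem_singleton] at he
    subst he
    simp only [NumGs.E.val, NumIs.lkR] at hp
    push_cast at hp
    have e1 : V3 ⟨22 / 100, τ⟩ ⟨22 / 100 + 1 / 6, m⟩ 0 - V3 ⟨u, 0⟩ ⟨l', 0⟩ 0 =
        -(Real.pi * (22 / 100 * m + (22 / 100 + 1 / 6) * τ + (22 / 100 + 1 / 6 - 1 / 2) * m)) -
          uu (1 / 6) (m - τ) - uu (22 / 100) τ + uu (l' - u) 0 + uu u 0 := by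
      have f1 := NumGs.E.V3e_val (x := .q 22 100) (t := .var 0) (y := .add (.q 22 100) (.q 1 6))
        (s := .var 1) (xs := [τ, m])
      have f2 := NumGs.E.V3e_val (x := .var 0) (t := .q 0 1) (y := .var 1) (s := .q 0 1)
        (xs := [u, l'])
      simp only [NumGs.E.V3e, NumGs.E.val, NumIs.lkR] at f1 f2
      push_cast at f1 f2
      rw [zero_div] at f2
      rw [← f1, ← f2, show (22 : ℝ) / 100 + 1 / 6 - 22 / 100 = 1 / 6 by ring, sub_zero]
      ring
    rw [e1]
    linarith only [hm, hr, hp]

theorem Pu_touched {u l τ G : ℝ} (hl : 8 / 10 ≤ l) (hl1 : l ≤ 1) (hu : 0 ≤ u)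
    (hu1 : u ≤ 65 / 100) (hG : Gn .three (cU .touched u) u τ .touched G) :
    -(1403 / 10000) - 2360 / 1000 * τ ≤ G + UU ⟨u, 0⟩ + UU ⟨l - u, 0⟩ := by
  rw [UU_re, UU_re]
  cases hG with
  | touched =>
    have hm := m1 (u := u) hl hl1 hu hu1
    linarith only [hm]

theorem Pu_ring {u l τ G : ℝ} (hl : 8 / 10 ≤ l) (hl1 : l ≤ 1) (hu : 0 ≤ u)
    (hu1 : u ≤ 65 / 100) (hG : Gn .three (cU .ring u) u τ .ring G) :
    -(1886 / 10000) - 281 / 1000 * τ ≤ G + UU ⟨u, 0⟩ + UU ⟨l - u, 0⟩ := by
  have hc : cU .ring u = 18 / 100 := by
    simp only [cU, cN]
    norm_num
  rw [hc] at hG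
  rw [UU_re, UU_re]
  cases hG with
  | @ring ρ σ h0 h1 h2 hρ hρ1 hσ hσ1 =>
    have h0 := h0 (by decide)
    have h1 := h1 (by decide)
    simp only [hbox] at h0 h1
    rw [show (18 : ℝ) / 100 = 9 / 50 by norm_num, fR_diff]
    have t0 := e7_th_nonneg hσ
    have t1 := e7_th_le_one σ
    have t2 := e7_th_le_ramp σ
    have k0 : 0 ≤ ρ * LT.th σ := mul_nonneg hρ t0
    have k1 : ρ * LT.th σ ≤ 1045 / 10000 :=
      (mul_le_mul hρ1 t1 t0 (by norm_num)).trans (by norm_num)
    have k2 : ρ * LT.th σ ≤ 1045 / 10000 * (2 + 4 * σ) := mul_le_mul hρ1 t2 t0 (by norm_num)
    have h3 := (abs_le.1 hσ).1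
    have key : -(1886 / 10000) - (2810 / 10000) * τ < PR u l τ σ (ρ * LT.th σ) := by
      rcases le_total σ (-(1 / 4)) with g | g
      · exact ring_0 (u := u) (t := τ) hl hl1 hu hu1 (by linarith only [h0]) (by linarith only [h1]) (by linarith only [t0, t2]) (by linarith only [g]) k0 k1 k2
      · rcases le_total σ 0 with g' | g'
        · exact ring_25 (u := u) (t := τ) hl hl1 hu hu1 (by linarith only [h0]) (by linarith only [h1]) (by linarith only [g]) (by linarith only [g']) k0 k1
            k2
        · exact ring_50 (u := u) (t := τ) hl hl1 hu hu1 (by linarith only [h0]) (by linarith only [h1]) (by linarith only [g']) (by linarith only [hσ1]) k0 k1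
            k2
    unfold PR at key
    rw [show (68 : ℝ) / 100 = 17 / 25 by norm_num, show (18 : ℝ) / 100 = 9 / 50 by norm_num] at key
    linarith only [key]

end L2

end TL

end Pool.Agent.Work.MP_b30479_gtS.G2

end

section

/-!
# Tails: an interior three whose inner variable is in the tail
-/

namespace Pool.Agent.Work.MP_b30479_gtS.G2

open VOL SR NumUs

namespace TL

namespace L2

/-- the slot `0` -/
theorem Pu_all {C : Ct} {c : Cl} (hC : C.ok c) (h3 : C ≠ .threeA) {u l t G : ℝ}
    (hl : 8 / 10 ≤ l) (hl1 : l ≤ 1) (hu : 0 ≤ u) (hu1 : u ≤ 65 / 100)
    (t0 : (hbox .three c false).t0 ≤ t) (t1 : t ≤ (hbox .three c false).t1)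
    (hG : Gn .three (cU C u) u (-t) C G) :
    ∃ r ∈ TU, r.cl = c ∧ (r.c : ℝ) / 100 = cU C u ∧ (r.t0 : ℝ) / 10000 ≤ t ∧
      t ≤ (r.t1 : ℝ) / 10000 ∧ (r.a : ℝ) / 10000 + (r.e : ℝ) / 1000 * t ≤
        G + UU ⟨u, 0⟩ + UU ⟨l - u, 0⟩ := by
  cases C with
  | one =>
    have hc : c = .one := hC
    subst hc
    rcases lt_or_ge u (3 / 10) with hu3 | hu3
    · rcases Pu_one_lo hl hl1 hu hu3 hG with ⟨w0, w1, h⟩ | ⟨w0, w1, h⟩ | ⟨w0, w1, h⟩
      · exact ⟨⟨.one, 23, -920, -210, -2490, 1957⟩, by simp [TU], rfl, by
          simp only [cU]; rw [if_pos hu3]; norm_num, by push_cast; linarith only [w1], by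
          push_cast; linarith only [w0], by push_cast; linarith only [h]⟩
      · exact ⟨⟨.one, 23, -940, -460, -2108, 2375⟩, by simp [TU], rfl, by
          simp only [cU]; rw [if_pos hu3]; norm_num, by push_cast; linarith only [w1], by
          push_cast; linarith only [w0], by push_cast; linarith only [h]⟩
      · exact ⟨⟨.one, 23, -1145, -870, -1899, 2473⟩, by simp [TU], rfl, by
          simp only [cU]; rw [if_pos hu3]; norm_num, by push_cast; linarith only [w1], by
          push_cast; linarith only [w0], by push_cast; linarith only [h]⟩
    · have hn : ¬ u < 3 / 10 := not_lt.2 hu3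
      rcases Pu_one_hi hl hl1 hu3 hu1 hG with ⟨w0, w1, h⟩ | ⟨w0, w1, h, h'⟩ | ⟨w0, w1, h⟩
      · exact ⟨⟨.one, 27, -920, -210, -2283, 2225⟩, by simp [TU], rfl, by
          simp only [cU]; rw [if_neg hn]; norm_num, by push_cast; linarith only [w1], by
          push_cast; linarith only [w0], by push_cast; linarith only [h]⟩
      · rcases le_total (-t) (70 / 1000) with ht | ht
        · have h := h ht
          exact ⟨⟨.one, 27, -700, -460, -2394, 2188⟩, by simp [TU], rfl, by
            simp only [cU]; rw [if_neg hn]; norm_num, by push_cast; linarith only [ht], by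
            push_cast; linarith only [w0], by push_cast; linarith only [h]⟩
        · rcases h' ht with h | h
          · exact ⟨⟨.one, 27, -940, -700, -2630, 1850⟩, by simp [TU], rfl, by
              simp only [cU]; rw [if_neg hn]; norm_num, by push_cast; linarith only [w1], by
              push_cast; linarith only [ht], by push_cast; linarith only [h]⟩
          · exact ⟨⟨.one, 27, -940, -700, -2432, 2092⟩, by simp [TU], rfl, by
              simp only [cU]; rw [if_neg hn]; norm_num, by push_cast; linarith only [w1], by
              push_cast; linarith only [ht], by push_cast; linarith only [h]⟩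
      · exact ⟨⟨.one, 27, -1145, -870, -2084, 2363⟩, by simp [TU], rfl, by
          simp only [cU]; rw [if_neg hn]; norm_num, by push_cast; linarith only [w1], by
          push_cast; linarith only [w0], by push_cast; linarith only [h]⟩
  | two =>
    have hc : c = .two := hC
    subst hc
    have h := Pu_two hl hl1 hu hu1 hG
    simp only [hbox] at t0 t1
    refine ⟨⟨.two, 25, -570, 50, -1620, 1875⟩, by simp [TU], rfl, by norm_num [cU, cN], ?_, ?_, ?_⟩
      <;> push_cast <;> linarith only [t0, t1, h]
  | twoE =>
    have hc : c = .twoE := hC
    subst hc
    have h := Pu_twoE hl hl1 hu hu1 hG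
    simp only [hbox] at t0 t1
    refine ⟨⟨.twoE, 22, -980, -760, -1206, 1950⟩, by simp [TU], rfl, by norm_num [cU, cN], ?_, ?_,
      ?_⟩ <;> push_cast <;> linarith only [t0, t1, h]
  | threeA => exact absurd rfl h3
  | threeK =>
    have hc : c = .three := hC
    subst hc
    have h := Pu_threeK hl hl1 hu hu1 hG
    simp only [hbox] at t0 t1
    refine ⟨⟨.three, 18, -220, 220, -1572, 1308⟩, by simp [TU], rfl, by norm_num [cU, cN], ?_, ?_,
      ?_⟩ <;> push_cast <;> linarith only [t0, t1, h]
  | threeE =>
    have hc : c = .threeE := hC
    subst hc
    have h := Pu_threeE hl hl1 hu hu1 hG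
    simp only [hbox] at t0 t1
    refine ⟨⟨.threeE, 22, -280, -50, -1190, 1378⟩, by simp [TU], rfl, by norm_num [cU, cN], ?_, ?_,
      ?_⟩ <;> push_cast <;> linarith only [t0, t1, h]
  | ring =>
    have hc : c = .ring := hC
    subst hc
    have h := Pu_ring hl hl1 hu hu1 hG
    simp only [hbox] at t0 t1
    refine ⟨⟨.ring, 18, -40, 570, -1886, 281⟩, by simp [TU], rfl, by norm_num [cU, cN], ?_, ?_,
      ?_⟩ <;> push_cast <;> linarith only [t0, t1, h]
  | touched =>
    have h := Pu_touched hl hl1 hu hu1 hG
    cases c <;> simp only [hbox] at t0 t1
    · exact ⟨⟨.one, 20, -1145, -210, -1403, 2360⟩, by simp [TU], rfl, by norm_num [cU, cN],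
        by push_cast; linarith only [t0], by push_cast; linarith only [t1], by push_cast; linarith only [h]⟩
    · exact ⟨⟨.two, 20, -570, 50, -1403, 2360⟩, by simp [TU], rfl, by norm_num [cU, cN],
        by push_cast; linarith only [t0], by push_cast; linarith only [t1], by push_cast; linarith only [h]⟩
    · exact ⟨⟨.twoE, 20, -980, -760, -1403, 2360⟩, by simp [TU], rfl, by norm_num [cU, cN],
        by push_cast; linarith only [t0], by push_cast; linarith only [t1], by push_cast; linarith only [h]⟩
    · exact ⟨⟨.three, 20, -220, 220, -1403, 2360⟩, by simp [TU], rfl, by norm_num [cU, cN],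
        by push_cast; linarith only [t0], by push_cast; linarith only [t1], by push_cast; linarith only [h]⟩
    · exact ⟨⟨.threeE, 20, -280, -50, -1403, 2360⟩, by simp [TU], rfl, by norm_num [cU, cN],
        by push_cast; linarith only [t0], by push_cast; linarith only [t1], by push_cast; linarith only [h]⟩
    · exact ⟨⟨.ring, 20, -40, 570, -1403, 2360⟩, by simp [TU], rfl, by norm_num [cU, cN],
        by push_cast; linarith only [t0], by push_cast; linarith only [t1], by push_cast; linarith only [h]⟩

end L2

theorem side_threeL {Cu Cw : Ct} {cu cw' : Cl} (hCu : Cu.ok cu) (hCw : Cw.ok cw')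
    (hu3 : Cu ≠ .threeA) (hw3 : Cw ≠ .threeK) {u l w tu m tw G G' : ℝ}
    (hl : 8 / 10 ≤ l) (hu : 0 ≤ u) (hu1 : u ≤ 65 / 100) (hw : 0 ≤ w) (hlw : l + w ≤ 1)
    (tu0 : (hbox .three cu false).t0 ≤ tu) (tu1 : tu ≤ (hbox .three cu false).t1)
    (tw0 : (hbox .three cw' false).t0 ≤ tw) (tw1 : tw ≤ (hbox .three cw' false).t1)
    (m0 : (mw cu cw').t0 ≤ m) (m1 : m ≤ (mw cu cw').t1)
    (s0 : (mw cu cw').s0 ≤ m - tu) (s1 : m - tu ≤ (mw cu cw').s1)
    (hG : Gn .three (cU Cu u) u (-tu) Cu G) (hG' : Gn .three (cW Cw) w (-tw) Cw G') :
    0 < V3 ⟨cU Cu u, tu⟩ ⟨9 / 20, m⟩ ⟨cW Cw, tw⟩ - V3 ⟨u, 0⟩ ⟨l, 0⟩ ⟨w, 0⟩ + G + G' := by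
  obtain ⟨r, hr, e1, e2, r0, r1, r2⟩ := L2.Pu_all hCu hu3 hl (by linarith only [hw, hlw]) hu hu1 tu0 tu1 hG
  obtain ⟨q, hq, f1, f2, q0, q1, q2⟩ := L2.Pw_all hCw hw3 hw (by linarith only [hl, hlw]) tw0 tw1 hG'
  subst e1 f1
  have h := L2.pair_pos hr hq r0 r1 q0 q1 m0 m1 s0 s1
  rw [e2, f2] at h
  have hP := L2.PW_ge (G := G') hl hw hlw
  rw [K3.V3_real]
  simp only [UU_uu] at r2 hP
  linarith only [r2, q2, h, hP]

end TL

end Pool.Agent.Work.MP_b30479_gtS.G2

end
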