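import Pool.Agent.Work.MP_b30479_gt.TBS.G2.TL4s
import Pool.Agent.Work.MP_b30479_gt.TBS.G2.TDef3
import Pool.Agent.Work.MP_b30479_gt.TBS.G2.TL4rl
import Pool.Agent.Work.MP_b30479_gt.TBS.G2.TL4rt

/-!
# Tails, part 4: gains of the untouched regions of the other classes next to a touched ring
-/

namespace Pool.Agent.Work.MP_b30479_gtS.G2

open VOL SR
open NumUs (uu UU_uu uu_neg)

namespace TL

open K5

namespace R4

open NumGs

/-- a lower bound `-Lc C τ` for the gains of the untouched regions -/
noncomputable def Lc (C : Ct) (τ : ℝ) : ℝ :=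
  match C with
  | .two => 14 / 100 + 135 / 100 * τ
  | .twoE => 12 / 100 + 155 / 100 * τ
  | .threeA => 155 / 1000 + τ
  | .threeK => 13 / 100 + 9 / 10 * τ
  | .threeE => 145 / 1000 + 11 / 10 * τ
  | _ => 126 / 1000 + 17 / 100 * max τ 0

/-- what is needed about the gain -/
def Gs (k L G : ℝ) : Prop := ∀ s : ℝ, |s| ≤ 1 / 2 → -L - 584 / 1000 ≤ G - fR ⟨k, 0⟩ s ∧
  (235 / 1000 ≤ |s| → -L - 454 / 1000 ≤ G - fR ⟨k, 0⟩ s)

theorem Gs.const {k L G : ℝ} (k0 : 0 ≤ k) (k1 : k ≤ 65 / 100) (h : -L ≤ G) : Gs k L G := by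
  intro s hs
  rcases le_total k (1 / 2) with c | c
  · have h1 := old_nb0 k0 c hs
    exact ⟨by linarith, fun h2 => by linarith [old_nb1 k0 c hs h2]⟩
  · have h1 := fR_tail_nonpos (w := ⟨k, 0⟩) rfl c (by simp only; linarith) hs
    exact ⟨by linarith, fun _ => by linarith⟩

/-- a lower bound for `min (.584 - f k 0) (.454 - f k .235)` -/
noncomputable def pkR (k : ℝ) : ℝ := (pk (v 0)).val [k, 0, 0, 0]

theorem pk_val (k a b c : ℝ) : (pk (v 0)).val [k, a, b, c] = pkR k := by
  simp only [pkR, pk, E.val, c_val, v0]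

theorem old_le' {k σ s : ℝ} (k0 : 0 ≤ k) (k1 : k ≤ 1 / 2) (h0 : 0 ≤ σ) (h1 : σ ≤ |s|)
    (hs : |s| ≤ 1 / 2) : fR ⟨k, 0⟩ s ≤ pr2 k 0 σ - 2 * uu k 0 := by
  have a := pair_anti (x := k) 0 k0 k1 h0 h1 hs
  rw [fR_real, UU_uu]
  simp only
  linarith

theorem Gs.pk' {k L G : ℝ} (k0 : 0 ≤ k) (k1 : k ≤ 1 / 2) (h : -L ≤ G + pkR k) : Gs k L G := by
  have hp := one_of r_pkc (by norm_num) (x := k) (y := 0) (z := 0) (w := 0)
    (by norm_num; linarith) (by norm_num; linarith) (by norm_num) (by norm_num) (by norm_num)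
    (by norm_num) (by norm_num) (by norm_num)
  simp only [E.val, pk_val] at hp
  simp only [ph, E.val, fS_val, c_val, v0] at hp
  norm_num at hp
  intro s hs
  have m1 := le_max_right (73 / 125 - (pr2 k 0 0 - 2 * uu k 0) -
    (227 / 500 - (pr2 k 0 (47 / 200) - 2 * uu k 0))) 0
  have m2 := le_max_left (73 / 125 - (pr2 k 0 0 - 2 * uu k 0) -
    (227 / 500 - (pr2 k 0 (47 / 200) - 2 * uu k 0))) 0
  constructor
  · have h1 := old_le' k0 k1 le_rfl (abs_nonneg s) hs
    linarith
  · intro h2
    have h1 := old_le' (σ := 47 / 200) k0 k1 (by norm_num) (by linarith) hs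
    linarith

theorem Gs.hi {k L G : ℝ} (k0 : 1 / 2 ≤ k) (k1 : k ≤ 65 / 100) (h : -L - 454 / 1000 ≤ G) :
    Gs k L G := by
  intro s hs
  have h1 := fR_tail_nonpos (w := ⟨k, 0⟩) rfl k0 (by simp only; linarith) hs
  exact ⟨by linarith, fun _ => by linarith⟩

variable {k τ X Y : ℝ}

/-! ### class two -/

theorem escD_le (h : RgD X Y) : ∀ e ∈ escD, e.val [k, τ, X, Y] ≤ 0 := by
  obtain ⟨x0, x1, h1, h2, h3, h4, h5, h6⟩ := h
  intro e he
  simp only [escD, List.mem_cons, List.not_mem_nil, or_false] at he
  rcases he with rfl | rfl | rfl | rfl <;> simp only [E.val, c_val, v2, v3] <;> push_cast <;>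
    linarith

theorem escF_le (h : RgF X Y) : ∀ e ∈ escF, e.val [k, τ, X, Y] ≤ 0 := by
  obtain ⟨x0, x1, h1, h2⟩ := h
  intro e he
  simp only [escF, List.mem_cons, List.not_mem_nil, or_false] at he
  rcases he with rfl | rfl <;> simp only [E.val, c_val, v2, v3] <;> push_cast <;>
    linarith

theorem escK_le (h : RgK X Y) : ∀ e ∈ escK, e.val [k, τ, X, Y] ≤ 0 := by
  obtain ⟨x0, x1, h1, h2, h3, h4, h5, h6⟩ := h
  intro e he
  simp only [escK, List.mem_cons, List.not_mem_nil, or_false] at he
  rcases he with rfl | rfl | rfl | rfl <;> simp only [E.val, c_val, v2, v3] <;> push_cast <;>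
    linarith

theorem escL_le (h : RgL X Y) : ∀ e ∈ escL, e.val [k, τ, X, Y] ≤ 0 := by
  obtain ⟨x0, x1, h1, h2, h3, h4⟩ := h
  intro e he
  simp only [escL, List.mem_cons, List.not_mem_nil, or_false] at he
  rcases he with rfl | rfl <;> simp only [E.val, c_val, v2, v3] <;> push_cast <;>
    linarith

theorem escW_le (h : RgW X Y) : ∀ e ∈ escW, e.val [k, τ, X, Y] ≤ 0 := by
  obtain ⟨x0, x1, h1, h2, h3, h4, h5, h6⟩ := h
  intro e he
  simp only [escW, List.mem_cons, List.not_mem_nil, or_false] at he
  rcases he with rfl | rfl | rfl | rfl <;> simp only [E.val, c_val, v2, v3] <;> push_cast <;>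
    linarith

theorem g_two (k0 : 0 ≤ k) (k1 : k ≤ 65 / 100) (h0 : 10 / 1000 ≤ τ) (h1 : τ ≤ 96 / 1000)
    (hR : RgD X Y ∨ (27 / 100 ≤ k ∧ RgF X Y)) :
    -Lc .two τ ≤ V2 ⟨1 / 4, τ⟩ ⟨X, Y⟩ - V2 ⟨k, 0⟩ ⟨X, Y⟩ := by
  simp only [Lc]
  rcases hR with h | ⟨k2, h⟩
  · have he := escD_le (k := k) (τ := τ) h
    obtain ⟨x0, x1, a1, a2, a3, a4, a5, a6⟩ := h
    have hp := ps_of r_two (x := k) (y := τ) (z := X) (w := Y)
      (by norm_num; linarith) (by norm_num; linarith) (by norm_num; linarith)
      (by norm_num; linarith) (by norm_num; linarith) (by norm_num; linarith)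
      (by norm_num; linarith) (by norm_num; linarith)
    simp only [E.val, GT_val, pn_val _ he, L2, c_val, v0, v1, v2, v3] at hp
    norm_num at hp
    linarith
  · have he := escF_le (k := k) (τ := τ) h
    obtain ⟨x0, x1, a1, a2⟩ := h
    have hp := one_of r_twF (by norm_num) (x := k) (y := τ) (z := X) (w := Y)
      (by norm_num; linarith) (by norm_num; linarith) (by norm_num; linarith)
      (by norm_num; linarith) (by norm_num; linarith) (by norm_num; linarith)
      (by norm_num; linarith) (by norm_num; linarith)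
    simp only [E.val, GT_val, pn_val _ he, L2, c_val, v0, v1, v2, v3] at hp
    norm_num at hp
    linarith

theorem g_twoE (k0 : 0 ≤ k) (k1 : k ≤ 65 / 100) (h0 : 88 / 1000 ≤ τ) (h1 : τ ≤ 131 / 1000) :
    -Lc .twoE τ ≤ V2 ⟨11 / 50, τ⟩ 0 - V2 ⟨k, 0⟩ 0 := by
  simp only [Lc]
  have hp := one_of r_twE (by norm_num) (x := k) (y := τ) (z := 0) (w := 0)
    (by norm_num; linarith) (by norm_num; linarith) (by norm_num; linarith)
    (by norm_num; linarith) (by norm_num) (by norm_num) (by norm_num) (by norm_num)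
  simp only [E.val, GT_val, LB, c_val, v0, v1] at hp
  rw [show (0 : ℂ) = ⟨0, 0⟩ from rfl]
  norm_num at hp ⊢
  linarith

theorem g_threeK (k0 : 0 ≤ k) (k1 : k ≤ 65 / 100) (h0 : -(4 / 1000) ≤ τ) (h1 : τ ≤ 57 / 1000)
    (h : RgK X Y) : -Lc .threeK τ ≤ V2 ⟨9 / 50, τ⟩ ⟨X, Y⟩ - V2 ⟨k, 0⟩ ⟨X, Y⟩ := by
  simp only [Lc]
  have he := escK_le (k := k) (τ := τ) h
  obtain ⟨x0, x1, a1, a2, a3, a4, a5, a6⟩ := h
  have hp := ps_of r_thK (x := k) (y := τ) (z := X) (w := Y)
    (by norm_num; linarith) (by norm_num; linarith) (by norm_num; linarith)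
    (by norm_num; linarith) (by norm_num; linarith) (by norm_num; linarith)
    (by norm_num; linarith) (by norm_num; linarith)
  simp only [E.val, GT_val, pn_val _ he, LK, c_val, v0, v1, v2, v3] at hp
  norm_num at hp
  linarith

/-! ### class three, slot `0`, inner variable far from the hinge -/

theorem g_threeA (k0 : 0 ≤ k) (k1 : k ≤ 65 / 100) (h0 : -(4 / 1000) ≤ τ) (h1 : τ ≤ 57 / 1000)
    (h : RgL X Y) : Gs k (Lc .threeA τ)
      (V1 ⟨11 / 50, τ⟩ ⟨1 - X, -Y⟩ - V1 ⟨k, 0⟩ ⟨1 - X, -Y⟩) := by
  have he := escL_le (k := k) (τ := τ) h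
  obtain ⟨x0, x1, a1, a2, a3, a4⟩ := h
  have key : k ≤ 1 / 2 → -Lc .threeA τ ≤
      V1 ⟨11 / 50, τ⟩ ⟨1 - X, -Y⟩ - V1 ⟨k, 0⟩ ⟨1 - X, -Y⟩ + pkR k := by
    intro k2
    simp only [Lc]
    rcases le_total k (1 / 10) with c0 | c0
    · have hp := one_of r_tA0 (by norm_num) (x := k) (y := τ) (z := X) (w := Y)
        (by norm_num; linarith) (by norm_num; linarith) (by norm_num; linarith)
        (by norm_num; linarith) (by norm_num; linarith) (by norm_num; linarith)
        (by norm_num; linarith) (by norm_num; linarith)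
      simp only [E.val, G1_val, pn_val _ he, pk_val, LA, c_val, v0, v1, v2, v3] at hp
      norm_num at hp ⊢
      linarith
    rcases le_total k (13 / 100) with c1 | c1
    · have hp := one_of r_tA1 (by norm_num) (x := k) (y := τ) (z := X) (w := Y)
        (by norm_num; linarith) (by norm_num; linarith) (by norm_num; linarith)
        (by norm_num; linarith) (by norm_num; linarith) (by norm_num; linarith)
        (by norm_num; linarith) (by norm_num; linarith)
      simp only [E.val, G1_val, pn_val _ he, pk_val, LA, c_val, v0, v1, v2, v3] at hp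
      norm_num at hp ⊢
      linarith
    rcases le_total k (16 / 100) with c2 | c2
    · have hp := one_of r_tA2 (by norm_num) (x := k) (y := τ) (z := X) (w := Y)
        (by norm_num; linarith) (by norm_num; linarith) (by norm_num; linarith)
        (by norm_num; linarith) (by norm_num; linarith) (by norm_num; linarith)
        (by norm_num; linarith) (by norm_num; linarith)
      simp only [E.val, G1_val, pn_val _ he, pk_val, LA, c_val, v0, v1, v2, v3] at hp
      norm_num at hp ⊢
      linarith
    rcases le_total k (175 / 1000) with c3 | c3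
    · have hp := one_of r_tB0 (by norm_num) (x := k) (y := τ) (z := X) (w := Y)
        (by norm_num; linarith) (by norm_num; linarith) (by norm_num; linarith)
        (by norm_num; linarith) (by norm_num; linarith) (by norm_num; linarith)
        (by norm_num; linarith) (by norm_num; linarith)
      simp only [E.val, G1_val, pn_val _ he, pk_val, LA, c_val, v0, v1, v2, v3] at hp
      norm_num at hp ⊢
      linarith
    rcases le_total k (19 / 100) with c4 | c4
    · have hp := one_of r_tB1 (by norm_num) (x := k) (y := τ) (z := X) (w := Y)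
        (by norm_num; linarith) (by norm_num; linarith) (by norm_num; linarith)
        (by norm_num; linarith) (by norm_num; linarith) (by norm_num; linarith)
        (by norm_num; linarith) (by norm_num; linarith)
      simp only [E.val, G1_val, pn_val _ he, pk_val, LA, c_val, v0, v1, v2, v3] at hp
      norm_num at hp ⊢
      linarith
    rcases le_total k (22 / 100) with c5 | c5
    · have hp := one_of r_tA4 (by norm_num) (x := k) (y := τ) (z := X) (w := Y)
        (by norm_num; linarith) (by norm_num; linarith) (by norm_num; linarith)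
        (by norm_num; linarith) (by norm_num; linarith) (by norm_num; linarith)
        (by norm_num; linarith) (by norm_num; linarith)
      simp only [E.val, G1_val, pn_val _ he, pk_val, LA, c_val, v0, v1, v2, v3] at hp
      norm_num at hp ⊢
      linarith
    rcases le_total k (35 / 100) with c6 | c6
    · have hp := ps_of r_tA5 (x := k) (y := τ) (z := X) (w := Y)
        (by norm_num; linarith) (by norm_num; linarith) (by norm_num; linarith)
        (by norm_num; linarith) (by norm_num; linarith) (by norm_num; linarith)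
        (by norm_num; linarith) (by norm_num; linarith)
      simp only [E.val, G1_val, pn_val _ he, pk_val, LA, c_val, v0, v1, v2, v3] at hp
      norm_num at hp ⊢
      linarith
    have hp := one_of r_tA6 (by norm_num) (x := k) (y := τ) (z := X) (w := Y)
      (by norm_num; linarith) (by norm_num; linarith) (by norm_num; linarith)
      (by norm_num; linarith) (by norm_num; linarith) (by norm_num; linarith)
      (by norm_num; linarith) (by norm_num; linarith)
    simp only [E.val, G1_val, pn_val _ he, pk_val, LA, c_val, v0, v1, v2, v3] at hp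
    norm_num at hp ⊢
    linarith
  rcases le_total k (1 / 2) with c | c
  · exact Gs.pk' k0 c (key c)
  · refine Gs.hi c k1 ?_
    simp only [Lc]
    have hp := one_of r_thB (by norm_num) (x := k) (y := τ) (z := X) (w := Y)
      (by norm_num; linarith) (by norm_num; linarith) (by norm_num; linarith)
      (by norm_num; linarith) (by norm_num; linarith) (by norm_num; linarith)
      (by norm_num; linarith) (by norm_num; linarith)
    simp only [E.val, G1_val, pn_val _ he, LA, c_val, v0, v1, v2, v3] at hp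
    norm_num at hp
    linarith

/-! ### class three, slot `0`, inner variable near the hinge -/

theorem V3_split (u v w : ℂ) : V3 u v w = V1 u (1 - v) + V2 w v := by
  have e1 : UU (1 - v) = -UU v := UU_one_sub v
  have e2 : UU (u + (1 - v)) = -UU (v - u) := by
    rw [← UU_one_sub]
    congr 1
    ring
  unfold V3 V1 V2
  rw [e1, e2, add_comm w v]
  simp only [Complex.add_im, Complex.sub_im, Complex.mul_im, Complex.sub_re, Complex.one_re,
    Complex.one_im, pow_two, Complex.re_ofNat, Complex.im_ofNat, Complex.mul_re]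
  ring

theorem tX_val (X T : E) (xs : List ℝ) : (tX X T).val xs =
    T.val xs * min 1 (X.val xs / (5 / 100)) := by
  simp only [tX, E.val, c_val]
  push_cast
  congr 1
  rcases le_total 1 (X.val xs / (5 / 100)) with h | h
  · rw [min_eq_left h, max_eq_right (by linarith)]
    norm_num
  · rw [min_eq_right h, max_eq_left (by linarith)]
    ring

theorem GQ_val (X T x y : E) (xs : List ℝ) : (GQ X T x y).val xs =
    V2 ⟨x.val xs, y.val xs⟩ ⟨1 / 4, T.val xs⟩ -
      V2 ⟨x.val xs, y.val xs⟩ ⟨X.val xs, T.val xs * min 1 (X.val xs / (5 / 100))⟩ := by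
  simp only [GQ, E.val, tX_val, c_val, V2, UU_uu, Complex.add_re, Complex.add_im, Complex.sub_im,
    Complex.sub_re, Complex.mul_im, pow_two]
  push_cast
  rw [add_comm (x.val xs) (1 / 4), add_comm (y.val xs) (T.val xs), add_comm (x.val xs) (X.val xs),
    add_comm (y.val xs) (T.val xs * min 1 (X.val xs / (5 / 100)))]
  norm_num
  ring

theorem g3_val (k t X T : E) (xs : List ℝ) : (g3 k t X T).val xs =
    V1 ⟨11 / 50, t.val xs⟩ ⟨1 - 1 / 4, -T.val xs⟩ -
      V1 ⟨k.val xs, 0⟩ ⟨1 - X.val xs, -(T.val xs * min 1 (X.val xs / (5 / 100)))⟩ := by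
  simp only [g3, E.val, tX_val, c_val, V1, UU_uu, Complex.add_re, Complex.add_im, Complex.sub_im,
    Complex.sub_re, Complex.mul_im, pow_two, uu_neg, zero_add]
  rw [← sub_eq_add_neg]
  push_cast
  rw [show (11 : ℝ) / 50 + (1 - 1 / 4) = 97 / 100 by norm_num]
  norm_num
  ring

theorem g_threeS {T Xo Yo : ℝ} (k0 : 0 ≤ k) (k1 : k ≤ 65 / 100) (h0 : -(4 / 1000) ≤ τ)
    (h1 : τ ≤ 57 / 1000) (hX0 : 0 ≤ X) (hX1 : X ≤ 2 / 10) (t0 : -(109 / 1000) ≤ T)
    (t1 : T ≤ 5 / 1000) (ho : RgW Xo Yo) : Gs k (Lc .threeA τ)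
      (V3 ⟨11 / 50, τ⟩ ⟨1 / 4, T⟩ ⟨Xo, Yo⟩ -
        V3 ⟨k, 0⟩ ⟨X, T * min 1 (X / (5 / 100))⟩ ⟨Xo, Yo⟩) := by
  have he := escW_le (k := X) (τ := T) ho
  obtain ⟨x0, x1, a1, a2, a3, a4, a5, a6⟩ := ho
  have hM := ps_of r_thM (x := X) (y := T) (z := Xo) (w := Yo)
      (by norm_num; linarith) (by norm_num; linarith) (by norm_num; linarith)
      (by norm_num; linarith) (by norm_num; linarith) (by norm_num; linarith)
      (by norm_num; linarith) (by norm_num; linarith)
  simp only [E.val, GQ_val, pn_val _ he, mX, c_val, v0, v1, v2, v3] at hM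
  have e1 : (1 : ℂ) - ⟨1 / 4, T⟩ = ⟨1 - 1 / 4, -T⟩ := by
    apply Complex.ext <;> simp
  have e2 : (1 : ℂ) - ⟨X, T * min 1 (X / (5 / 100))⟩ = ⟨1 - X, -(T * min 1 (X / (5 / 100)))⟩ := by
    apply Complex.ext <;> simp
  rw [V3_split, V3_split, e1, e2]
  rcases le_total k (1 / 2) with c | c
  · refine Gs.pk' k0 c ?_
    simp only [Lc]
    have hp := one_of r_thP (by norm_num) (x := k) (y := τ) (z := X) (w := T)
      (by norm_num; linarith) (by norm_num; linarith) (by norm_num; linarith)
      (by norm_num; linarith) (by norm_num; linarith) (by norm_num; linarith)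
      (by norm_num; linarith) (by norm_num; linarith)
    simp only [E.val, g3_val, pk_val, mX, LA, c_val, v0, v1, v2, v3] at hp
    norm_num at hp hM ⊢
    linarith
  · refine Gs.hi c k1 ?_
    simp only [Lc]
    have hp := one_of r_thQ (by norm_num) (x := k) (y := τ) (z := X) (w := T)
      (by norm_num; linarith) (by norm_num; linarith) (by norm_num; linarith)
      (by norm_num; linarith) (by norm_num; linarith) (by norm_num; linarith)
      (by norm_num; linarith) (by norm_num; linarith)
    simp only [E.val, g3_val, mX, LA, c_val, v0, v1, v2, v3] at hp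
    norm_num at hp hM ⊢
    linarith

/-! ### three crossings at an end -/

theorem uu_min {x : ℝ} (h0 : 0 ≤ x) (h1 : x ≤ 1) : -(1617 / 10000) ≤ uu x 0 := by
  have hp := one_of r_uuM (by norm_num) (x := x) (y := 0) (z := 0) (w := 0)
    (by norm_num; linarith) (by norm_num; linarith) (by norm_num) (by norm_num) (by norm_num)
    (by norm_num) (by norm_num) (by norm_num)
  simp only [E.val, c_val, v0] at hp
  norm_num at hp
  linarith

theorem V3_end (x t y s : ℝ) : V3 ⟨x, t⟩ ⟨y, s⟩ 0 =
    -(Real.pi * (x * s + y * (t + s) - 1 / 2 * s) + (uu (y - x) (s - t) + uu x t)) := by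
  have h0 : uu 0 0 = 0 := by
    have h := TL.uu_zero 0
    rw [abs_zero, mul_zero, neg_zero] at h
    exact h
  unfold V3
  simp only [UU_uu, add_zero, sub_zero, Complex.add_im, Complex.sub_im, Complex.sub_re,
    Complex.mul_im, pow_two, Complex.mul_re]
  simp [h0]
  ring

theorem v3n_val (t m : E) (xs : List ℝ) : (v3n t m).val xs =
    V3 ⟨11 / 50, t.val xs⟩ ⟨11 / 50 + 1 / 6, m.val xs⟩ 0 := by
  rw [V3_end]
  simp only [v3n, E.val, c_val]
  push_cast
  norm_num

theorem g_threeE {l m : ℝ} (k0 : 0 ≤ k) (k1 : k ≤ 65 / 100) (h0 : 18 / 1000 ≤ τ)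
    (h1 : τ ≤ 58 / 1000) (m0 : -(45 / 1000) ≤ m) (m1 : m ≤ 59 / 1000) (hl : k ≤ l) (hl1 : l ≤ 1) :
    -Lc .threeE τ ≤ V3 ⟨11 / 50, τ⟩ ⟨11 / 50 + 1 / 6, m⟩ 0 - V3 ⟨k, 0⟩ ⟨l, 0⟩ 0 := by
  simp only [Lc]
  have hp := one_of r_thE (by norm_num) (x := m) (y := τ) (z := 0) (w := 0)
    (by norm_num; linarith) (by norm_num; linarith) (by norm_num; linarith)
    (by norm_num; linarith) (by norm_num) (by norm_num) (by norm_num) (by norm_num)
  simp only [E.val, v3n_val, L3, c_val, v0, v1] at hp
  have u1 := uu_min (x := l - k) (by linarith) (by linarith)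
  have u2 := uu_min (x := k) k0 (by linarith)
  rw [V3_end k 0 l 0]
  norm_num at hp ⊢
  linarith

/-! ### rings -/

theorem ths_val (s : E) (xs : List ℝ) : (ths s).val xs = LT.th (s.val xs) := by
  simp only [ths, E.val, c_val]
  unfold LT.th
  have e : max (s.val xs) 0 + max (-s.val xs) 0 = |s.val xs| := by
    rcases le_total 0 (s.val xs) with h0 | h0
    · rw [max_eq_left h0, max_eq_right (by linarith), abs_of_nonneg h0, add_zero]
    · rw [max_eq_right h0, max_eq_left (by linarith), abs_of_nonpos h0, zero_add]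
  rw [e]
  push_cast
  rcases le_total 1 (2 - 4 * |s.val xs|) with h1 | h1
  · rw [min_eq_left h1, max_eq_right (by linarith)]
    norm_num
  · rw [min_eq_right h1, max_eq_left (by linarith)]
    ring

theorem fZ_val (w t s r : E) (xs : List ℝ) : (fZ w t s r).val xs =
    fR ⟨w.val xs, t.val xs⟩ ⟨s.val xs, r.val xs⟩ := by
  rw [fR_uu]
  simp only [fZ, E.val, c_val]
  push_cast
  norm_num

theorem zt_eq (ρ σ : ℝ) : LT.zt ρ σ = ⟨σ, ρ * LT.th σ⟩ := by
  apply Complex.ext <;> simp [LT.zt]

theorem gR_val (ρ σ : ℝ) : (gR).val [k, τ, ρ, σ] =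
    fR ⟨9 / 50, τ⟩ (LT.zt ρ σ) - fR ⟨k, 0⟩ (LT.zt ρ σ) := by
  rw [zt_eq]
  simp only [gR, E.val, fZ_val, ths_val, c_val, v0, v1, v2, v3]
  norm_num

theorem g_ring {ρ σ : ℝ} (k0 : 0 ≤ k) (k1 : k ≤ 1 / 2) (h0 : -(59 / 1000) ≤ τ)
    (h1 : τ ≤ 59 / 1000) (hρ : 0 ≤ ρ) (hρ1 : ρ ≤ 1045 / 10000) (hσ : |σ| ≤ 1 / 2)
    (hσ1 : σ ≤ 1 / 8) : Gs k (Lc .ring τ)
      (fR ⟨9 / 50, τ⟩ (LT.zt ρ σ) - fR ⟨k, 0⟩ (LT.zt ρ σ)) := by
  refine Gs.pk' k0 k1 ?_
  have s0 := (abs_le.1 hσ).1
  have s1 := (abs_le.1 hσ).2
  simp only [Lc]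
  rcases le_total τ 0 with ht | ht
  · rw [max_eq_right ht]
    have hp := ps_of r_rgM (x := k) (y := τ) (z := ρ) (w := σ)
      (by norm_num; linarith) (by norm_num; linarith) (by norm_num; linarith)
      (by norm_num; linarith) (by norm_num; linarith) (by norm_num; linarith)
      (by norm_num; linarith) (by norm_num; linarith)
    simp only [E.val, gR_val, pk_val, c_val] at hp
    norm_num at hp ⊢
    linarith
  rw [max_eq_left ht]
  rcases le_total k (8 / 100) with c0 | c0
  · have hp := one_of r_rg0 (by norm_num) (x := k) (y := τ) (z := ρ) (w := σ)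
      (by norm_num; linarith) (by norm_num; linarith) (by norm_num; linarith)
      (by norm_num; linarith) (by norm_num; linarith) (by norm_num; linarith)
      (by norm_num; linarith) (by norm_num; linarith)
    simp only [E.val, gR_val, pk_val, LR, c_val, v1] at hp
    norm_num at hp ⊢
    linarith
  rcases le_total k (1 / 10) with c1 | c1
  · have hp := one_of r_rg1 (by norm_num) (x := k) (y := τ) (z := ρ) (w := σ)
      (by norm_num; linarith) (by norm_num; linarith) (by norm_num; linarith)
      (by norm_num; linarith) (by norm_num; linarith) (by norm_num; linarith)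
      (by norm_num; linarith) (by norm_num; linarith)
    simp only [E.val, gR_val, pk_val, LR, c_val, v1] at hp
    norm_num at hp ⊢
    linarith
  rcases le_total k (13 / 100) with c2 | c2
  · have hp := ps_of r_rg2 (x := k) (y := τ) (z := ρ) (w := σ)
      (by norm_num; linarith) (by norm_num; linarith) (by norm_num; linarith)
      (by norm_num; linarith) (by norm_num; linarith) (by norm_num; linarith)
      (by norm_num; linarith) (by norm_num; linarith)
    simp only [E.val, gR_val, pk_val, LR, c_val, v1] at hp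
    norm_num at hp ⊢
    linarith
  rcases le_total k (16 / 100) with c3 | c3
  · have hp := ps_of r_rg3 (x := k) (y := τ) (z := ρ) (w := σ)
      (by norm_num; linarith) (by norm_num; linarith) (by norm_num; linarith)
      (by norm_num; linarith) (by norm_num; linarith) (by norm_num; linarith)
      (by norm_num; linarith) (by norm_num; linarith)
    simp only [E.val, gR_val, pk_val, LR, c_val, v1] at hp
    norm_num at hp ⊢
    linarith
  rcases le_total k (19 / 100) with c4 | c4
  · have hp := ps_of r_rg4 (x := k) (y := τ) (z := ρ) (w := σ)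
      (by norm_num; linarith) (by norm_num; linarith) (by norm_num; linarith)
      (by norm_num; linarith) (by norm_num; linarith) (by norm_num; linarith)
      (by norm_num; linarith) (by norm_num; linarith)
    simp only [E.val, gR_val, pk_val, LR, c_val, v1] at hp
    norm_num at hp ⊢
    linarith
  rcases le_total k (22 / 100) with c5 | c5
  · have hp := one_of r_rg5 (by norm_num) (x := k) (y := τ) (z := ρ) (w := σ)
      (by norm_num; linarith) (by norm_num; linarith) (by norm_num; linarith)
      (by norm_num; linarith) (by norm_num; linarith) (by norm_num; linarith)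
      (by norm_num; linarith) (by norm_num; linarith)
    simp only [E.val, gR_val, pk_val, LR, c_val, v1] at hp
    norm_num at hp ⊢
    linarith
  rcases le_total k (25 / 100) with c6 | c6
  · have hp := one_of r_rg6 (by norm_num) (x := k) (y := τ) (z := ρ) (w := σ)
      (by norm_num; linarith) (by norm_num; linarith) (by norm_num; linarith)
      (by norm_num; linarith) (by norm_num; linarith) (by norm_num; linarith)
      (by norm_num; linarith) (by norm_num; linarith)
    simp only [E.val, gR_val, pk_val, LR, c_val, v1] at hp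
    norm_num at hp ⊢
    linarith
  rcases le_total k (28 / 100) with c7 | c7
  · have hp := one_of r_rg7 (by norm_num) (x := k) (y := τ) (z := ρ) (w := σ)
      (by norm_num; linarith) (by norm_num; linarith) (by norm_num; linarith)
      (by norm_num; linarith) (by norm_num; linarith) (by norm_num; linarith)
      (by norm_num; linarith) (by norm_num; linarith)
    simp only [E.val, gR_val, pk_val, LR, c_val, v1] at hp
    norm_num at hp ⊢
    linarith
  rcases le_total k (31 / 100) with c8 | c8
  · have hp := one_of r_rg8 (by norm_num) (x := k) (y := τ) (z := ρ) (w := σ)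
      (by norm_num; linarith) (by norm_num; linarith) (by norm_num; linarith)
      (by norm_num; linarith) (by norm_num; linarith) (by norm_num; linarith)
      (by norm_num; linarith) (by norm_num; linarith)
    simp only [E.val, gR_val, pk_val, LR, c_val, v1] at hp
    norm_num at hp ⊢
    linarith
  rcases le_total k (375 / 1000) with c9 | c9
  · have hp := one_of r_rg9 (by norm_num) (x := k) (y := τ) (z := ρ) (w := σ)
      (by norm_num; linarith) (by norm_num; linarith) (by norm_num; linarith)
      (by norm_num; linarith) (by norm_num; linarith) (by norm_num; linarith)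
      (by norm_num; linarith) (by norm_num; linarith)
    simp only [E.val, gR_val, pk_val, LR, c_val, v1] at hp
    norm_num at hp ⊢
    linarith
  have hp := one_of r_rg10 (by norm_num) (x := k) (y := τ) (z := ρ) (w := σ)
    (by norm_num; linarith) (by norm_num; linarith) (by norm_num; linarith)
    (by norm_num; linarith) (by norm_num; linarith) (by norm_num; linarith)
    (by norm_num; linarith) (by norm_num; linarith)
  simp only [E.val, gR_val, pk_val, LR, c_val, v1] at hp
  norm_num at hp ⊢
  linarith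

/-! ### the new value -/

theorem q_val (cz : ℤ) (t L : E) (xs : List ℝ) : (qq cz t L).val xs =
    fR ⟨(cz : ℝ) / 10000, t.val xs⟩ ⟨-(17 / 100), (v 0).val xs⟩ -
      (L.val xs + (2556 / 10000 + 10510 / 10000 * (v 0).val xs)) := by
  simp only [qq, E.val, fN_val, c_val]
  norm_num

end R4

end TL

end Pool.Agent.Work.MP_b30479_gtS.G2
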