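import Pool.Agent.Work.MP_b30479_gt.TBS.G2.TL4s
import Pool.Agent.Work.MP_b30479_gt.TBS.G2.TDef3
import Pool.Agent.Work.MP_b30479_gt.TBS.G2.TL4rl

/-!
# Tails, part 4: gains of the untouched regions next to a touched ring
-/

namespace Pool.Agent.Work.MP_b30479_gtS.G2

open VOL SR
open NumUs (uu UU_uu uu_neg)

namespace TL

open K5

namespace R4

open NumGs

/-! ### old values -/

/-- the value of a real hinge `k` with the real ring variable `σ ≥ 0` -/
noncomputable def fo (k σ : ℝ) : ℝ := pr2 k 0 σ - 2 * uu k 0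

theorem fS_val' (k : E) (s : ℤ) (xs : List ℝ) : (fS k s).val xs = fo (k.val xs) ((s : ℝ) / 10000) :=
  fS_val k s xs

theorem old_le {k σ s : ℝ} (k0 : 0 ≤ k) (k1 : k ≤ 1 / 2) (h0 : 0 ≤ σ) (h1 : σ ≤ |s|)
    (hs : |s| ≤ 1 / 2) : fR ⟨k, 0⟩ s ≤ fo k σ := by
  have a := pair_anti (x := k) 0 k0 k1 h0 h1 hs
  rw [fR_real, UU_uu]
  simp only
  unfold fo
  linarith

theorem old_ge {x σ s : ℝ} (x0 : 1 / 2 ≤ x) (x1 : x ≤ 1) (h1 : |s| ≤ σ) (hσ : σ ≤ 1 / 2) :
    fR ⟨x, 0⟩ s ≤ fo x σ := by
  have a := pair_mono (x := x) 0 x0 x1 (abs_nonneg s) h1 hσ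
  rw [fR_real, UU_uu]
  simp only
  unfold fo
  linarith

theorem min_pos {p q : ℝ} (h : 0 < p - max (p - q) 0) : 0 < p ∧ 0 < q := by
  constructor
  · linarith [le_max_right (p - q) 0]
  · linarith [le_max_left (p - q) 0]

theorem k3_pos {a b d : ℤ} {x y z w : ℝ} (h : 0 < (k3 a b d).val [x, y, z, w]) :
    fo x 0 < (a : ℝ) / 10000 ∧ fo x (37 / 200) < (b : ℝ) / 10000 ∧
      fo x (53 / 200) < (d : ℝ) / 10000 := by
  simp only [k3, E.val, fS_val', c_val, v0] at h
  obtain ⟨h1, h2⟩ := min_pos h
  obtain ⟨h3, h4⟩ := min_pos h2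
  norm_num at h1 h3 h4
  exact ⟨h1, h3, h4⟩

/-- bounds for the old value of a real hinge behind which there is a region of class one -/
def Old1 (k γ : ℝ) : Prop := ∀ s : ℝ, |s| ≤ 1 / 2 → γ + fR ⟨k, 0⟩ s ≤ 584 / 1000 ∧
  (37 / 200 ≤ |s| → γ + fR ⟨k, 0⟩ s ≤ 4815 / 10000) ∧
  (53 / 200 ≤ |s| → γ + fR ⟨k, 0⟩ s ≤ 384 / 1000)

theorem Old1.mk' {k γ A B D : ℝ} (k0 : 0 ≤ k) (k1 : k ≤ 1 / 2)
    (h : fo k 0 < A ∧ fo k (37 / 200) < B ∧ fo k (53 / 200) < D) (hA : γ + A ≤ 584 / 1000)
    (hB : γ + B ≤ 4815 / 10000) (hD : γ + D ≤ 384 / 1000) : Old1 k γ := by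
  intro s hs
  obtain ⟨h1, h2, h3⟩ := h
  refine ⟨?_, fun h => ?_, fun h => ?_⟩
  · linarith [old_le k0 k1 le_rfl (abs_nonneg s) hs]
  · linarith [old_le k0 k1 (by norm_num) h hs]
  · linarith [old_le k0 k1 (by norm_num) h hs]

theorem old1 {k : ℝ} (k0 : 0 ≤ k) (k1 : k ≤ 65 / 100) :
    (k ≤ 6 / 100 ∧ Old1 k (1 / 10)) ∨ (6 / 100 ≤ k ∧ k ≤ 3 / 10 ∧ Old1 k 0) ∨
      (3 / 10 ≤ k ∧ k ≤ 4 / 10 ∧ Old1 k (158 / 10000)) ∨ (4 / 10 ≤ k ∧ Old1 k (15 / 100)) := by
  rcases le_total k (6 / 100) with c1 | c1
  · left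
    have h := k3_pos (one_of r_ko1 (by norm_num) (x := k) (y := 0) (z := 0) (w := 0)
      (by norm_num; linarith) (by norm_num; linarith) (by norm_num) (by norm_num) (by norm_num)
      (by norm_num) (by norm_num) (by norm_num))
    exact ⟨c1, Old1.mk' k0 (by linarith) h (by norm_num) (by norm_num) (by norm_num)⟩
  rcases le_total k (3 / 10) with c2 | c2
  · right; left
    have h := k3_pos (one_of r_ko2 (by norm_num) (x := k) (y := 0) (z := 0) (w := 0)
      (by norm_num; linarith) (by norm_num; linarith) (by norm_num) (by norm_num) (by norm_num)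
      (by norm_num) (by norm_num) (by norm_num))
    exact ⟨c1, c2, Old1.mk' k0 (by linarith) h (by norm_num) (by norm_num) (by norm_num)⟩
  rcases le_total k (4 / 10) with c3 | c3
  · right; right; left
    have h := k3_pos (one_of r_ko3 (by norm_num) (x := k) (y := 0) (z := 0) (w := 0)
      (by norm_num; linarith) (by norm_num; linarith) (by norm_num) (by norm_num) (by norm_num)
      (by norm_num) (by norm_num) (by norm_num))
    exact ⟨c2, c3, Old1.mk' k0 (by linarith) h (by norm_num) (by norm_num) (by norm_num)⟩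
  right; right; right
  rcases le_total k (1 / 2) with c4 | c4
  · have h := k3_pos (one_of r_ko4 (by norm_num) (x := k) (y := 0) (z := 0) (w := 0)
      (by norm_num; linarith) (by norm_num; linarith) (by norm_num) (by norm_num) (by norm_num)
      (by norm_num) (by norm_num) (by norm_num))
    exact ⟨c3, Old1.mk' k0 c4 h (by norm_num) (by norm_num) (by norm_num)⟩
  · refine ⟨c3, fun s hs => ?_⟩
    have h := fR_tail_nonpos (w := ⟨k, 0⟩) rfl c4 (by simp only; linarith) hs
    exact ⟨by linarith, fun _ => by linarith, fun _ => by linarith⟩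

/-- old value of a hinge in the tail -/
theorem tail1 {x s : ℝ} (x0 : 65 / 100 ≤ x) (x1 : x ≤ 95 / 100) :
    (|s| ≤ 37 / 200 → fR ⟨x, 0⟩ s ≤ -(2 / 10)) ∧
      (|s| ≤ 53 / 200 → fR ⟨x, 0⟩ s ≤ -(975 / 10000)) := by
  constructor
  · intro hs
    have h := one_of r_tl1 (by norm_num) (x := x) (y := 0) (z := 0) (w := 0)
      (by norm_num; linarith) (by norm_num; linarith) (by norm_num) (by norm_num) (by norm_num)
      (by norm_num) (by norm_num) (by norm_num)
    simp only [E.val, fS_val', c_val, v0] at h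
    have h1 := old_ge (x := x) (by linarith) (by linarith) hs (by norm_num)
    norm_num at h
    linarith
  · intro hs
    have h := one_of r_tl2 (by norm_num) (x := x) (y := 0) (z := 0) (w := 0)
      (by norm_num; linarith) (by norm_num; linarith) (by norm_num) (by norm_num) (by norm_num)
      (by norm_num) (by norm_num) (by norm_num)
    simp only [E.val, fS_val', c_val, v0] at h
    have h1 := old_ge (x := x) (by linarith) (by linarith) hs (by norm_num)
    norm_num at h
    linarith

theorem tail2 {x s : ℝ} (x0 : 60 / 100 ≤ x) (x1 : x ≤ 95 / 100) (hs : |s| ≤ 37 / 200) :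
    fR ⟨x, 0⟩ s ≤ -(1025 / 10000) := by
  have h := one_of r_tl3 (by norm_num) (x := x) (y := 0) (z := 0) (w := 0)
    (by norm_num; linarith) (by norm_num; linarith) (by norm_num) (by norm_num) (by norm_num)
    (by norm_num) (by norm_num) (by norm_num)
  simp only [E.val, fS_val', c_val, v0] at h
  have h1 := old_ge (x := x) (by linarith) (by linarith) hs (by norm_num)
  norm_num at h
  linarith

/-! ### class one -/

variable {k τ X Y : ℝ}

theorem esc_of {l : List E} {xs : List ℝ} (h : ∀ e ∈ l, e.val xs ≤ 0) : ∀ e ∈ l, e.val xs ≤ 0 := h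

theorem up_le {a b P : ℤ} {T : E} (h1 : (a : ℝ) / 10000 * Y ≤ T.val [k, τ, X, Y] * X)
    (h2 : (b : ℝ) / 10000 * Y ≤ T.val [k, τ, X, Y] * ((P : ℝ) / 10000 - X)) :
    ∀ e ∈ up a b P T, e.val [k, τ, X, Y] ≤ 0 := by
  intro e he
  simp only [up, List.mem_cons, List.not_mem_nil, or_false] at he
  rcases he with rfl | rfl
  · simp only [E.val, c_val, v2, v3]
    push_cast
    linarith
  · simp only [E.val, c_val, v2, v3]
    push_cast
    linarith

theorem dn_le {a b P : ℤ} {T : E} (h1 : T.val [k, τ, X, Y] * X ≤ (a : ℝ) / 10000 * Y)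
    (h2 : T.val [k, τ, X, Y] * ((P : ℝ) / 10000 - X) ≤ (b : ℝ) / 10000 * Y) :
    ∀ e ∈ dn a b P T, e.val [k, τ, X, Y] ≤ 0 := by
  intro e he
  simp only [dn, List.mem_cons, List.not_mem_nil, or_false] at he
  rcases he with rfl | rfl
  · simp only [E.val, c_val, v2, v3]
    push_cast
    linarith
  · simp only [E.val, c_val, v2, v3]
    push_cast
    linarith

theorem app_le {l l' : List E} {xs : List ℝ} (h : ∀ e ∈ l, e.val xs ≤ 0)
    (h' : ∀ e ∈ l', e.val xs ≤ 0) : ∀ e ∈ l ++ l', e.val xs ≤ 0 := by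
  intro e he
  rcases List.mem_append.1 he with h1 | h1
  · exact h e h1
  · exact h' e h1

theorem esc1_le (hτ : 38 / 1000 ≤ τ) (h : RgO .ring .one τ X Y) :
    0 ≤ X ∧ X ≤ 86 / 100 ∧ -(117 / 1000) ≤ Y ∧ Y ≤ 51 / 1000 ∧
      ∀ e ∈ esc1, e.val [k, τ, X, Y] ≤ 0 := by
  obtain ⟨x0, x1, T, a0, a1, b0, b1, h⟩ := h
  simp only [cw, pM, pa, pb, show ¬ Cl.ring = Cl.one by decide, if_false] at x1 a0 a1 b0 b1 h
  have x2 : 0 ≤ 86 / 100 - X := by linarith
  have m1 := mul_le_mul_of_nonneg_right a1 x0
  have m2 := mul_le_mul_of_nonneg_right a1 x2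
  have m3 := mul_le_mul_of_nonneg_right a0 x0
  have m4 := mul_le_mul_of_nonneg_right a0 x2
  have m5 := mul_le_mul_of_nonneg_right (show -(10 / 1000) - τ ≤ T by linarith) x0
  have m6 := mul_le_mul_of_nonneg_right (show -(10 / 1000) - τ ≤ T by linarith) x2
  have m7 : (-(10 / 1000) - τ) * X ≤ 0 := mul_nonpos_of_nonpos_of_nonneg (by linarith) x0
  have m8 : (-(10 / 1000) - τ) * (86 / 100 - X) ≤ 0 :=
    mul_nonpos_of_nonpos_of_nonneg (by linarith) x2
  refine ⟨x0, x1, ?_, ?_, ?_⟩
  · rcases h with ⟨y0, y1, y2, y3⟩ | ⟨y0, y1, y2, y3⟩ <;> linarith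
  · rcases h with ⟨y0, y1, y2, y3⟩ | ⟨y0, y1, y2, y3⟩ <;> linarith
  · refine app_le (app_le (up_le ?_ ?_) (dn_le ?_ ?_)) (dn_le ?_ ?_) <;>
      simp only [E.val, c_val, v1] <;> push_cast <;>
      rcases h with ⟨y0, y1, y2, y3⟩ | ⟨y0, y1, y2, y3⟩ <;> linarith

theorem esc2_le (hτ : 63 / 1000 ≤ τ) (hτ' : τ ≤ 145 / 1000) (h : RgO .ring .two τ X Y) :
    0 ≤ X ∧ X ≤ 80 / 100 ∧ -(8 / 1000) ≤ Y ∧ Y ≤ 80 / 1000 ∧
      ∀ e ∈ esc2, e.val [k, τ, X, Y] ≤ 0 := by
  obtain ⟨x0, x1, T, a0, a1, b0, b1, h⟩ := h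
  simp only [cw, pM, pa, pb] at x1 a0 a1 b0 b1 h
  have x2 : 0 ≤ 80 / 100 - X := by linarith
  have m1 := mul_le_mul_of_nonneg_right a1 x0
  have m2 := mul_le_mul_of_nonneg_right a1 x2
  have m3 := mul_le_mul_of_nonneg_right a0 x0
  have m4 := mul_le_mul_of_nonneg_right a0 x2
  have m5 := mul_le_mul_of_nonneg_right (show T ≤ 187 / 1000 - τ by linarith) x0
  have m6 := mul_le_mul_of_nonneg_right (show T ≤ 187 / 1000 - τ by linarith) x2
  have m7 : 0 ≤ (187 / 1000 - τ) * X := mul_nonneg (by linarith) x0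
  have m8 : 0 ≤ (187 / 1000 - τ) * (80 / 100 - X) := mul_nonneg (by linarith) x2
  refine ⟨x0, x1, ?_, ?_, ?_⟩
  · rcases h with ⟨y0, y1, y2, y3⟩ | ⟨y0, y1, y2, y3⟩ <;> linarith
  · rcases h with ⟨y0, y1, y2, y3⟩ | ⟨y0, y1, y2, y3⟩ <;> linarith
  · refine app_le (app_le (up_le ?_ ?_) (up_le ?_ ?_)) (dn_le ?_ ?_) <;>
      simp only [E.val, c_val, v1] <;> push_cast <;>
      rcases h with ⟨y0, y1, y2, y3⟩ | ⟨y0, y1, y2, y3⟩ <;> linarith

theorem escE_le (h : RgO .ring .twoE τ X Y) :
    0 ≤ X ∧ X ≤ 70 / 100 ∧ -(61 / 1000) ≤ Y ∧ Y ≤ 0 ∧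
      ∀ e ∈ escE, e.val [k, τ, X, Y] ≤ 0 := by
  obtain ⟨x0, x1, T, a0, a1, b0, b1, h⟩ := h
  simp only [cw, pM, pa, pb] at x1 a0 a1 b0 b1 h
  have x2 : 0 ≤ 70 / 100 - X := by linarith
  have m3 := mul_le_mul_of_nonneg_right a0 x0
  have m4 := mul_le_mul_of_nonneg_right a0 x2
  have h' : Y ≤ 0 ∧ T ≤ Y ∧ T * X ≤ 14 / 100 * Y ∧ T * (70 / 100 - X) ≤ 35 / 100 * Y := by
    rcases h with ⟨y0, y1, y2, y3⟩ | h
    · exfalso
      linarith
    · exact h
  obtain ⟨y0, y1, y2, y3⟩ := h'
  refine ⟨x0, x1, by linarith, y0, ?_⟩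
  refine dn_le ?_ ?_ <;> simp only [E.val, c_val] <;> push_cast <;> linarith

theorem g_1 (k0 : 0 ≤ k) (k1 : k ≤ 65 / 100) (h0 : 38 / 1000 ≤ τ) (h1 : τ ≤ 136 / 1000)
    (hR : RgO .ring .one τ X Y) : ∃ γ, Old1 k γ ∧
      (τ ≤ 128 / 1000 → -(Real.pi * τ) - (8 / 1000 + 12 / 10 * (128 / 1000 - τ)) - γ ≤
        V1 ⟨1 / 4, τ⟩ ⟨X, Y⟩ - V1 ⟨k, 0⟩ ⟨X, Y⟩) ∧
      (128 / 1000 ≤ τ → -(Real.pi * τ) - 2 / 100 - γ ≤
        V1 ⟨1 / 4, τ⟩ ⟨X, Y⟩ - V1 ⟨k, 0⟩ ⟨X, Y⟩) := by
  obtain ⟨x0, x1, y0, y1, he⟩ := esc1_le (k := k) h0 hR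
  rcases old1 k0 k1 with ⟨c1, ho⟩ | ⟨c1, c2, ho⟩ | ⟨c1, c2, ho⟩ | ⟨c1, ho⟩
  · refine ⟨_, ho, fun ht => ?_, fun ht => ?_⟩
    · have hp := one_of r_o1z (by norm_num) (x := k) (y := τ) (z := X) (w := Y)
        (by norm_num; linarith) (by norm_num; linarith) (by norm_num; linarith)
        (by norm_num; linarith) (by norm_num; linarith) (by norm_num; linarith)
        (by norm_num; linarith) (by norm_num; linarith)
      simp only [E.val, G1_val, pn_val _ he, dl, c_val, v0, v1, v2, v3] at hp
      norm_num at hp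
      linarith
    · have hp := one_of r_p1z (by norm_num) (x := k) (y := τ) (z := X) (w := Y)
        (by norm_num; linarith) (by norm_num; linarith) (by norm_num; linarith)
        (by norm_num; linarith) (by norm_num; linarith) (by norm_num; linarith)
        (by norm_num; linarith) (by norm_num; linarith)
      simp only [E.val, G1_val, pn_val _ he, dl, c_val, v0, v1, v2, v3] at hp
      norm_num at hp
      linarith
  · refine ⟨_, ho, fun ht => ?_, fun ht => ?_⟩
    · have hp := ps_of r_o1a (x := k) (y := τ) (z := X) (w := Y)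
        (by norm_num; linarith) (by norm_num; linarith) (by norm_num; linarith)
        (by norm_num; linarith) (by norm_num; linarith) (by norm_num; linarith)
        (by norm_num; linarith) (by norm_num; linarith)
      simp only [E.val, G1_val, pn_val _ he, dl, c_val, v0, v1, v2, v3] at hp
      norm_num at hp
      linarith
    · have hp := one_of r_p1a (by norm_num) (x := k) (y := τ) (z := X) (w := Y)
        (by norm_num; linarith) (by norm_num; linarith) (by norm_num; linarith)
        (by norm_num; linarith) (by norm_num; linarith) (by norm_num; linarith)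
        (by norm_num; linarith) (by norm_num; linarith)
      simp only [E.val, G1_val, pn_val _ he, dl, c_val, v0, v1, v2, v3] at hp
      norm_num at hp
      linarith
  · refine ⟨_, ho, fun ht => ?_, fun ht => ?_⟩
    · have hp := one_of r_o1b (by norm_num) (x := k) (y := τ) (z := X) (w := Y)
        (by norm_num; linarith) (by norm_num; linarith) (by norm_num; linarith)
        (by norm_num; linarith) (by norm_num; linarith) (by norm_num; linarith)
        (by norm_num; linarith) (by norm_num; linarith)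
      simp only [E.val, G1_val, pn_val _ he, dl, c_val, v0, v1, v2, v3] at hp
      norm_num at hp
      linarith
    · have hp := one_of r_p1b (by norm_num) (x := k) (y := τ) (z := X) (w := Y)
        (by norm_num; linarith) (by norm_num; linarith) (by norm_num; linarith)
        (by norm_num; linarith) (by norm_num; linarith) (by norm_num; linarith)
        (by norm_num; linarith) (by norm_num; linarith)
      simp only [E.val, G1_val, pn_val _ he, dl, c_val, v0, v1, v2, v3] at hp
      norm_num at hp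
      linarith
  · refine ⟨_, ho, fun ht => ?_, fun ht => ?_⟩
    · have hp := one_of r_o1c (by norm_num) (x := k) (y := τ) (z := X) (w := Y)
        (by norm_num; linarith) (by norm_num; linarith) (by norm_num; linarith)
        (by norm_num; linarith) (by norm_num; linarith) (by norm_num; linarith)
        (by norm_num; linarith) (by norm_num; linarith)
      simp only [E.val, G1_val, pn_val _ he, dl, c_val, v0, v1, v2, v3] at hp
      norm_num at hp
      linarith
    · have hp := one_of r_p1c (by norm_num) (x := k) (y := τ) (z := X) (w := Y)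
        (by norm_num; linarith) (by norm_num; linarith) (by norm_num; linarith)
        (by norm_num; linarith) (by norm_num; linarith) (by norm_num; linarith)
        (by norm_num; linarith) (by norm_num; linarith)
      simp only [E.val, G1_val, pn_val _ he, dl, c_val, v0, v1, v2, v3] at hp
      norm_num at hp
      linarith

theorem g_2 (k0 : 0 ≤ k) (k1 : k ≤ 65 / 100) (h0 : 63 / 1000 ≤ τ) (h1 : τ ≤ 145 / 1000)
    (hR : RgO .ring .two τ X Y) : ∃ γ, Old1 k γ ∧
      (τ ≤ 128 / 1000 → -(Real.pi * τ) - (8 / 1000 + 12 / 10 * (128 / 1000 - τ)) - γ ≤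
        V1 ⟨1 / 4, τ⟩ ⟨X, Y⟩ - V1 ⟨k, 0⟩ ⟨X, Y⟩) ∧
      (128 / 1000 ≤ τ → -(Real.pi * τ) - 2 / 100 - γ ≤
        V1 ⟨1 / 4, τ⟩ ⟨X, Y⟩ - V1 ⟨k, 0⟩ ⟨X, Y⟩) := by
  obtain ⟨x0, x1, y0, y1, he⟩ := esc2_le (k := k) h0 h1 hR
  rcases old1 k0 k1 with ⟨c1, ho⟩ | ⟨c1, c2, ho⟩ | ⟨c1, c2, ho⟩ | ⟨c1, ho⟩
  · refine ⟨_, ho, fun ht => ?_, fun ht => ?_⟩
    · have hp := one_of r_o2z (by norm_num) (x := k) (y := τ) (z := X) (w := Y)
        (by norm_num; linarith) (by norm_num; linarith) (by norm_num; linarith)
        (by norm_num; linarith) (by norm_num; linarith) (by norm_num; linarith)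
        (by norm_num; linarith) (by norm_num; linarith)
      simp only [E.val, G1_val, pn_val _ he, dl, c_val, v0, v1, v2, v3] at hp
      norm_num at hp
      linarith
    · have hp := one_of r_p2z (by norm_num) (x := k) (y := τ) (z := X) (w := Y)
        (by norm_num; linarith) (by norm_num; linarith) (by norm_num; linarith)
        (by norm_num; linarith) (by norm_num; linarith) (by norm_num; linarith)
        (by norm_num; linarith) (by norm_num; linarith)
      simp only [E.val, G1_val, pn_val _ he, dl, c_val, v0, v1, v2, v3] at hp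
      norm_num at hp
      linarith
  · refine ⟨_, ho, fun ht => ?_, fun ht => ?_⟩
    · have hp := one_of r_o2a (by norm_num) (x := k) (y := τ) (z := X) (w := Y)
        (by norm_num; linarith) (by norm_num; linarith) (by norm_num; linarith)
        (by norm_num; linarith) (by norm_num; linarith) (by norm_num; linarith)
        (by norm_num; linarith) (by norm_num; linarith)
      simp only [E.val, G1_val, pn_val _ he, dl, c_val, v0, v1, v2, v3] at hp
      norm_num at hp
      linarith
    · have hp := one_of r_p2a (by norm_num) (x := k) (y := τ) (z := X) (w := Y)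
        (by norm_num; linarith) (by norm_num; linarith) (by norm_num; linarith)
        (by norm_num; linarith) (by norm_num; linarith) (by norm_num; linarith)
        (by norm_num; linarith) (by norm_num; linarith)
      simp only [E.val, G1_val, pn_val _ he, dl, c_val, v0, v1, v2, v3] at hp
      norm_num at hp
      linarith
  · refine ⟨_, ho, fun ht => ?_, fun ht => ?_⟩
    · have hp := one_of r_o2b (by norm_num) (x := k) (y := τ) (z := X) (w := Y)
        (by norm_num; linarith) (by norm_num; linarith) (by norm_num; linarith)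
        (by norm_num; linarith) (by norm_num; linarith) (by norm_num; linarith)
        (by norm_num; linarith) (by norm_num; linarith)
      simp only [E.val, G1_val, pn_val _ he, dl, c_val, v0, v1, v2, v3] at hp
      norm_num at hp
      linarith
    · have hp := one_of r_p2b (by norm_num) (x := k) (y := τ) (z := X) (w := Y)
        (by norm_num; linarith) (by norm_num; linarith) (by norm_num; linarith)
        (by norm_num; linarith) (by norm_num; linarith) (by norm_num; linarith)
        (by norm_num; linarith) (by norm_num; linarith)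
      simp only [E.val, G1_val, pn_val _ he, dl, c_val, v0, v1, v2, v3] at hp
      norm_num at hp
      linarith
  · refine ⟨_, ho, fun ht => ?_, fun ht => ?_⟩
    · have hp := one_of r_o2c (by norm_num) (x := k) (y := τ) (z := X) (w := Y)
        (by norm_num; linarith) (by norm_num; linarith) (by norm_num; linarith)
        (by norm_num; linarith) (by norm_num; linarith) (by norm_num; linarith)
        (by norm_num; linarith) (by norm_num; linarith)
      simp only [E.val, G1_val, pn_val _ he, dl, c_val, v0, v1, v2, v3] at hp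
      norm_num at hp
      linarith
    · have hp := one_of r_p2c (by norm_num) (x := k) (y := τ) (z := X) (w := Y)
        (by norm_num; linarith) (by norm_num; linarith) (by norm_num; linarith)
        (by norm_num; linarith) (by norm_num; linarith) (by norm_num; linarith)
        (by norm_num; linarith) (by norm_num; linarith)
      simp only [E.val, G1_val, pn_val _ he, dl, c_val, v0, v1, v2, v3] at hp
      norm_num at hp
      linarith

theorem g_E (k0 : 0 ≤ k) (k1 : k ≤ 65 / 100) (h0 : 100 / 1000 ≤ τ) (h1 : τ ≤ 158 / 1000)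
    (hR : RgO .ring .twoE τ X Y) : ∃ γ, Old1 k γ ∧
      (τ ≤ 128 / 1000 → -(Real.pi * τ) - (8 / 1000 + 12 / 10 * (128 / 1000 - τ)) - γ ≤
        V1 ⟨1 / 4, τ⟩ ⟨X, Y⟩ - V1 ⟨k, 0⟩ ⟨X, Y⟩) ∧
      (128 / 1000 ≤ τ → -(Real.pi * τ) - 2 / 100 - γ ≤
        V1 ⟨1 / 4, τ⟩ ⟨X, Y⟩ - V1 ⟨k, 0⟩ ⟨X, Y⟩) := by
  obtain ⟨x0, x1, y0, y1, he⟩ := escE_le (k := k) hR
  rcases old1 k0 k1 with ⟨c1, ho⟩ | ⟨c1, c2, ho⟩ | ⟨c1, c2, ho⟩ | ⟨c1, ho⟩
  · refine ⟨_, ho, fun ht => ?_, fun ht => ?_⟩
    · have hp := one_of r_oEz (by norm_num) (x := k) (y := τ) (z := X) (w := Y)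
        (by norm_num; linarith) (by norm_num; linarith) (by norm_num; linarith)
        (by norm_num; linarith) (by norm_num; linarith) (by norm_num; linarith)
        (by norm_num; linarith) (by norm_num; linarith)
      simp only [E.val, G1_val, pn_val _ he, dl, c_val, v0, v1, v2, v3] at hp
      norm_num at hp
      linarith
    · have hp := one_of r_pEz (by norm_num) (x := k) (y := τ) (z := X) (w := Y)
        (by norm_num; linarith) (by norm_num; linarith) (by norm_num; linarith)
        (by norm_num; linarith) (by norm_num; linarith) (by norm_num; linarith)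
        (by norm_num; linarith) (by norm_num; linarith)
      simp only [E.val, G1_val, pn_val _ he, dl, c_val, v0, v1, v2, v3] at hp
      norm_num at hp
      linarith
  · refine ⟨_, ho, fun ht => ?_, fun ht => ?_⟩
    · have hp := one_of r_oEa (by norm_num) (x := k) (y := τ) (z := X) (w := Y)
        (by norm_num; linarith) (by norm_num; linarith) (by norm_num; linarith)
        (by norm_num; linarith) (by norm_num; linarith) (by norm_num; linarith)
        (by norm_num; linarith) (by norm_num; linarith)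
      simp only [E.val, G1_val, pn_val _ he, dl, c_val, v0, v1, v2, v3] at hp
      norm_num at hp
      linarith
    · have hp := one_of r_pEa (by norm_num) (x := k) (y := τ) (z := X) (w := Y)
        (by norm_num; linarith) (by norm_num; linarith) (by norm_num; linarith)
        (by norm_num; linarith) (by norm_num; linarith) (by norm_num; linarith)
        (by norm_num; linarith) (by norm_num; linarith)
      simp only [E.val, G1_val, pn_val _ he, dl, c_val, v0, v1, v2, v3] at hp
      norm_num at hp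
      linarith
  · refine ⟨_, ho, fun ht => ?_, fun ht => ?_⟩
    · have hp := one_of r_oEb (by norm_num) (x := k) (y := τ) (z := X) (w := Y)
        (by norm_num; linarith) (by norm_num; linarith) (by norm_num; linarith)
        (by norm_num; linarith) (by norm_num; linarith) (by norm_num; linarith)
        (by norm_num; linarith) (by norm_num; linarith)
      simp only [E.val, G1_val, pn_val _ he, dl, c_val, v0, v1, v2, v3] at hp
      norm_num at hp
      linarith
    · have hp := one_of r_pEb (by norm_num) (x := k) (y := τ) (z := X) (w := Y)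
        (by norm_num; linarith) (by norm_num; linarith) (by norm_num; linarith)
        (by norm_num; linarith) (by norm_num; linarith) (by norm_num; linarith)
        (by norm_num; linarith) (by norm_num; linarith)
      simp only [E.val, G1_val, pn_val _ he, dl, c_val, v0, v1, v2, v3] at hp
      norm_num at hp
      linarith
  · refine ⟨_, ho, fun ht => ?_, fun ht => ?_⟩
    · have hp := one_of r_oEc (by norm_num) (x := k) (y := τ) (z := X) (w := Y)
        (by norm_num; linarith) (by norm_num; linarith) (by norm_num; linarith)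
        (by norm_num; linarith) (by norm_num; linarith) (by norm_num; linarith)
        (by norm_num; linarith) (by norm_num; linarith)
      simp only [E.val, G1_val, pn_val _ he, dl, c_val, v0, v1, v2, v3] at hp
      norm_num at hp
      linarith
    · have hp := one_of r_pEc (by norm_num) (x := k) (y := τ) (z := X) (w := Y)
        (by norm_num; linarith) (by norm_num; linarith) (by norm_num; linarith)
        (by norm_num; linarith) (by norm_num; linarith) (by norm_num; linarith)
        (by norm_num; linarith) (by norm_num; linarith)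
      simp only [E.val, G1_val, pn_val _ he, dl, c_val, v0, v1, v2, v3] at hp
      norm_num at hp
      linarith

end R4

end TL

end Pool.Agent.Work.MP_b30479_gtS.G2
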