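import Pool.Agent.Work.MP_b30479_gt.TBS.G2.TL4ra
import Pool.Agent.Work.MP_b30479_gt.TBS.G2.TL4rb
import Pool.Agent.Work.MP_b30479_gt.TBS.G2.TL4rc
import Pool.Agent.Work.MP_b30479_gt.TBS.G2.TL4rd
import Pool.Agent.Work.MP_b30479_gt.TBS.G2.TL4rf
import Pool.Agent.Work.MP_b30479_gt.TBS.G2.TL4rh
import Pool.Agent.Work.MP_b30479_gt.TBS.G2.TL4ri
import Pool.Agent.Work.MP_b30479_gt.TBS.G2.TL4rj
import Pool.Agent.Work.MP_b30479_gt.TBS.G2.TL4rk
import Pool.Agent.Work.MP_b30479_gt.TBS.G2.TL4rm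
import Pool.Agent.Work.MP_b30479_gt.TBS.G2.TL4rn
import Pool.Agent.Work.MP_b30479_gt.TBS.G2.TL4ro
import Pool.Agent.Work.MP_b30479_gt.TBS.G2.TL4rp
import Pool.Agent.Work.MP_b30479_gt.TBS.G2.TL4rq
import Pool.Agent.Work.MP_b30479_gt.TBS.G2.TL4rr
import Pool.Agent.Work.MP_b30479_gt.TBS.G2.TL4rs

/-!
# Tails, part 4: rows, joined
-/

namespace Pool.Agent.Work.MP_b30479_gtS.G2

open VOL SR

namespace TL

namespace R4

open NumGs

theorem r_o1a : Ps1 (.add (.add (G1 2500 (v 0) (v 1) (v 2) (v 3)) dl) (pn 30 esc1))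
    10000 0 0 0 1170 600 3000 380 1280 0 8600 0 1680 :=
  .cut2
    (.cut2
    (.cut0
    (.cut2
    (.cut2
    (.of r_o1a_1 (by norm_num))
    (.of r_o1a_2 (by norm_num)))
    (.of r_o1a_3 (by norm_num)))
    (.cut2
    (.cut3
    (.of r_o1a_4 (by norm_num))
    (.of r_o1a_5 (by norm_num)))
    (.of r_o1a_6 (by norm_num))))
    (.of r_o1a_7 (by norm_num)))
    (.cut2
    (.of r_o1a_8 (by norm_num))
    (.cut0
    (.cut2
    (.of r_o1a_9 (by norm_num))
    (.cut3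
    (.of r_o1a_10 (by norm_num))
    (.of r_o1a_11 (by norm_num))))
    (.cut2
    (.of r_o1a_12 (by norm_num))
    (.of r_o1a_13 (by norm_num)))))

theorem r_two : Ps1 (.add (.add (GT 2500 (v 0) (v 1) (v 2) (v 3)) L2) (pn 2 escD))
    10000 0 0 0 985 0 6500 100 960 0 6000 0 1945 :=
  .cut0
    (.of r_two_1 (by norm_num))
    (.of r_two_2 (by norm_num))

theorem r_thK : Ps1 (.add (.add (GT 1800 (v 0) (v 1) (v 2) (v 3)) LK) (pn 2 escK))
    10000 0 40 0 1230 0 6500 0 610 0 8000 0 1280 :=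
  .cut2
    (.of r_thK_1 (by norm_num))
    (.of r_thK_2 (by norm_num))

theorem r_thM : Ps1 (.add (.sub (.sub (GQ (v 0) (v 1) (v 2) (v 3)) (mX (v 0))) (c 0)) (pn 2 escW))
    10000 0 1090 0 1145 0 2000 0 1140 0 6500 0 1715 :=
  .cut2
    (.cut2
    (.cut0
    (.cut2
    (.cut0
    (.of r_thM_1 (by norm_num))
    (.of r_thM_2 (by norm_num)))
    (.of r_thM_3 (by norm_num)))
    (.of r_thM_4 (by norm_num)))
    (.of r_thM_5 (by norm_num)))
    (.cut0
    (.of r_thM_6 (by norm_num))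
    (.cut2
    (.of r_thM_7 (by norm_num))
    (.cut2
    (.of r_thM_8 (by norm_num))
    (.of r_thM_9 (by norm_num)))))

theorem r_rgM : Ps1 (.add (.add gR (c 1260)) (pk (v 0)))
    10000 0 590 0 5000 0 5000 0 590 0 1045 0 6250 :=
  .cut3
    (.cut0
    (.cut3
    (.of r_rgM_1 (by norm_num))
    (.of r_rgM_2 (by norm_num)))
    (.of r_rgM_3 (by norm_num)))
    (.of r_rgM_4 (by norm_num))

theorem r_tA5 : Ps1 (.add (.add (.sub (G1 2200 (v 0) (v 1) (.sub (c 1 1) (v 2)) (.neg (v 3))) (.mul .pi (v 1))) LA) (.add (pk (v 0)) (pn 5 escL)))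
    10000 0 40 0 1230 2200 3500 0 610 2000 8000 0 1280 :=
  .cut2
    (.of r_tA5_1 (by norm_num))
    (.of r_tA5_2 (by norm_num))

theorem r_rg2 : Ps1 (.add (.add gR LR) (pk (v 0)))
    10000 0 0 0 5000 1000 1300 0 590 0 1045 0 6250 :=
  .cut3
    (.cut3
    (.cut3
    (.of r_rg2_1 (by norm_num))
    (.cut3
    (.of r_rg2_2 (by norm_num))
    (.of r_rg2_3 (by norm_num))))
    (.of r_rg2_4 (by norm_num)))
    (.of r_rg2_5 (by norm_num))

theorem r_rg3 : Ps1 (.add (.add gR LR) (pk (v 0)))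
    10000 0 0 0 5000 1300 1600 0 590 0 1045 0 6250 :=
  .cut3
    (.cut3
    (.cut3
    (.of r_rg3_1 (by norm_num))
    (.cut3
    (.of r_rg3_2 (by norm_num))
    (.cut3
    (.of r_rg3_3 (by norm_num))
    (.cut2
    (.of r_rg3_4 (by norm_num))
    (.cut1
    (.of r_rg3_5 (by norm_num))
    (.cut2
    (.of r_rg3_6 (by norm_num))
    (.cut3
    (.cut1
    (.of r_rg3_7 (by norm_num))
    (.cut0
    (.of r_rg3_8 (by norm_num))
    (.of r_rg3_9 (by norm_num))))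
    (.of r_rg3_10 (by norm_num)))))))))
    (.of r_rg3_11 (by norm_num)))
    (.of r_rg3_12 (by norm_num))

theorem r_rg4 : Ps1 (.add (.add gR LR) (pk (v 0)))
    10000 0 0 0 5000 1600 1900 0 590 0 1045 0 6250 :=
  .cut3
    (.cut3
    (.of r_rg4_1 (by norm_num))
    (.cut3
    (.cut2
    (.of r_rg4_2 (by norm_num))
    (.cut3
    (.cut1
    (.of r_rg4_3 (by norm_num))
    (.cut2
    (.of r_rg4_4 (by norm_num))
    (.of r_rg4_5 (by norm_num))))
    (.of r_rg4_6 (by norm_num))))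
    (.of r_rg4_7 (by norm_num))))
    (.of r_rg4_8 (by norm_num))

end R4

end TL

end Pool.Agent.Work.MP_b30479_gtS.G2
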