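import Pool.Agent.Work.MP_b30479_gt.TBS.G2.TReg
import Pool.Agent.Work.MP_b30479_gt.TBS.G2.TW2c
import Pool.Agent.Work.MP_b30479_gt.TBS.G2.TK1b
import Pool.Agent.Work.MP_b30479_gt.TBS.G2.TL3B
import Pool.Agent.Work.MP_b30479_gt.TBS.G2.TW4e

/-!
# Tails: the removal of the tails
-/

namespace Pool.Agent.Work.MP_b30479_gtS.G2

open Finset VOL Filter Topology SR

namespace TL

variable {M : ℕ} {b : Fin (M + 1) → ℤ} {zs z : DD (tyW b) ⊕ ZZ (tyW b) → ℂ}
variable {R : Finset (DD (tyW b))} {h h' : Fin M} {i j j' k : Fin (M + 1)} {p q : Fin 3}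

theorem Tl.gains (H : Tl b zs R z) : Gains b zs R z := by
  intro h i j q A hi hj
  unfold kd
  rcases hc : clsW b j
  · exact H.gain_one A hi hj hc
  · exact H.gain_two A hi hj hc
  · exact H.gain_twoE A hi hj hc
  · exact H.gain_three A hi hj hc
  · exact H.gain_threeE A hi hj hc
  · exact H.gain_ring A hi hj hc

/-- **The shares of a region.** -/
theorem Tl.share (H : Tl b zs R z) (hM : 1 ≤ M) {c : ZZ (tyW b) → ℝ}
    (hc : ∀ v : ZZ (tyW b), Tch b R v.1 →
      sh b R zs z v.1 0 + sh b R zs z v.1 2 ≤ Vr b (zN b R zs z c) v.1 - Vr b z v.1)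
    (i : Fin (M + 1)) :
    sh b R zs z i 0 + sh b R zs z i 2 ≤ Vr b (zN b R zs z c) i - Vr b z i ∧
    (Tch b R i → ¬ hT b R i → sh b R zs z i 0 + sh b R zs z i 2 <
      Vr b (zN b R zs z c) i - Vr b z i) := by
  have G : Gains b zs R z := H.gains
  by_cases hi : Tch b R i
  · have hm : ¬ hT b R i → clsW b i = .three ∨ clsW b i = .threeE := by
      intro h0
      rcases tch_iff.1 hi with h1 | ⟨m, hm, -⟩
      · exact absurd h1 h0
      · rw [← hm]
        exact mid_cls m.2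
    have hm' : ∀ {C : Cl}, clsW b i = C → C ≠ .three → C ≠ .threeE → ¬ hT b R i → False := by
      intro C h1 h2 h3 h4
      rcases hm h4 with h5 | h5
      · exact h2 (h1 ▸ h5)
      · exact h3 (h1 ▸ h5)
    rcases hcl : clsW b i
    · exact ⟨H.share_one G hi hcl c, fun _ h0 => (hm' hcl (by decide) (by decide) h0).elim⟩
    · exact ⟨H.share_two G hi hcl c, fun _ h0 => (hm' hcl (by decide) (by decide) h0).elim⟩
    · exact ⟨H.share_twoE hi hcl c, fun _ h0 => (hm' hcl (by decide) (by decide) h0).elim⟩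
    · obtain ⟨h1, h2⟩ := H.share_three G hi hcl c
      refine ⟨?_, fun _ h0 => h2 h0⟩
      by_cases h0 : hT b R i
      · exact h1 h0
      · exact (h2 h0).le
    · obtain ⟨h1, h2⟩ := H.share_threeE G hM hi hcl c
      refine ⟨?_, fun _ h0 => h2 h0⟩
      by_cases h0 : hT b R i
      · exact h1 h0
      · exact (h2 h0).le
    · have hr : (tyW b i).isRing = true := by
        rw [tyW_of_ring H.hb hcl]
        rfl
      exact ⟨hc ⟨i, hr⟩ hi, fun _ h0 => (hm' hcl (by decide) (by decide) h0).elim⟩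
  · exact ⟨(share_un hM hi c).le, fun h0 => absurd h0 hi⟩

/-- the comparison of two points, region by region, with losses at the hinges -/
theorem V_lt_of_slotsE (hb : ClassW b) {z z' : DD (tyW b) ⊕ ZZ (tyW b) → ℂ}
    (f : Fin (M + 1) → Fin 3 → ℝ) (E : Fin M → ℝ) (h0 : f 0 0 = 0) (h2 : f (Fin.last M) 2 = 0)
    (hr : ∀ i, f i 0 + f i 2 ≤ Vr b z' i - Vr b z i)
    (hh : ∀ h : Fin M, E h ≤ f h.castSucc 2 + f h.succ 0)
    (hlt : (∃ i, f i 0 + f i 2 < Vr b z' i - Vr b z i) ∨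
      ∃ h : Fin M, E h < f h.castSucc 2 + f h.succ 0) :
    (wdat (tyW b) b).V z + ∑ h, E h < (wdat (tyW b) b).V z' := by
  rw [V_eq_Vr hb, V_eq_Vr hb]
  have e := sum_slots f h0 h2
  have e1 : ∑ i, (Vr b z' i - Vr b z i) = ∑ i, Vr b z' i - ∑ i, Vr b z i := sum_sub_distrib _ _
  have s1 : ∑ i, (f i 0 + f i 2) ≤ ∑ i, (Vr b z' i - Vr b z i) := sum_le_sum fun i _ => hr i
  have s2 : ∑ h : Fin M, E h ≤ ∑ h : Fin M, (f h.castSucc 2 + f h.succ 0) :=
    sum_le_sum fun h _ => hh h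
  rcases hlt with ⟨i, hi⟩ | ⟨h, hh'⟩
  · have := sum_lt_sum (fun i _ => hr i) ⟨i, mem_univ i, hi⟩
    linarith
  · have := sum_lt_sum (fun h _ => hh h) ⟨h, mem_univ h, hh'⟩
    linarith

/-- **A maximiser with a tail is beaten by a point of the main paths.** -/
theorem Tl.lt (H : Tl b zs R z) (hM : 1 ≤ M) (hR : R ≠ ∅) :
    ∃ z', Adm (wdat (tyW b) b) (wparM b zs) zs ∅ ∅ z' 0 ∧
      (wdat (tyW b) b).V z + ∑ h, ee b R z h < (wdat (tyW b) b).V z' := by
  classical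
  have G : Gains b zs R z := H.gains
  have hring : ∀ v : ZZ (tyW b), ∃ x : ℝ, Tch b R v.1 → -(1 / 4) ≤ x ∧ x ≤ 0 ∧
      ∀ c : ZZ (tyW b) → ℝ, c v = x →
      sh b R zs z v.1 0 + sh b R zs z v.1 2 ≤ Vr b (zN b R zs z c) v.1 - Vr b z v.1 := by
    intro v
    by_cases hv : Tch b R v.1
    · obtain ⟨x, h1, h2, h3⟩ := H.share_ring G v hv
      exact ⟨x, fun _ => ⟨h1, h2, h3⟩⟩
    · exact ⟨0, fun h0 => absurd h0 hv⟩
  choose c hc using hring
  have hs := H.share hM (c := c) fun v hv => (hc v hv).2.2 c rfl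
  refine ⟨zN b R zs z c, H.adm hM fun v hv => abs_le.2 ⟨(hc v hv).1, ?_⟩, ?_⟩
  · linarith [(hc v hv).2.1]
  have hlT : ∀ h : Fin M, isT b R h →
      ee b R z h < sh b R zs z h.castSucc 2 + sh b R zs z h.succ 0 := by
    intro h ht
    rw [ee_T ht]
    exact hinge_T H gRD_pos ht
  refine V_lt_of_slotsE H.hb (sh b R zs z) (ee b R z) sh_first sh_last (fun i => (hs i).1) ?_ ?_
  · intro h
    by_cases ht : isT b R h
    · exact (hlT h ht).le
    · exact (hinge_N H ht).ge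
  · obtain ⟨d, hd⟩ := Finset.nonempty_iff_ne_empty.2 hR
    rcases d with h | m
    · right
      exact ⟨h, hlT h hd⟩
    · have hi : Tch b R m.1 := tch_iff.2 (Or.inr ⟨m, rfl, hd⟩)
      by_cases h0 : hT b R m.1
      · right
        obtain ⟨h, p, j, A, ht⟩ := h0
        exact ⟨h, hlT h ht⟩
      · left
        exact ⟨m.1, (hs m.1).2 hi h0⟩

/-- the extra losses depend only on the real variables -/
theorem ee_congr {z' : DD (tyW b) ⊕ ZZ (tyW b) → ℂ} (hz : ∀ v ∈ nbT b R, z' v = z v)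
    (h : Fin M) : ee b R z' h = ee b R z h := by
  have key : Spc b R z' h ↔ Spc b R z h := by
    unfold Spc
    constructor
    · rintro ⟨h1, h2, h3, h4, h5, h6⟩
      refine ⟨h1, h2, h3, h4, h5, ?_⟩
      have hn := nbH_mem ((nbH_iff (Adj.l (h := h))).2 (Or.inr h1) : nbH b R h)
      rwa [hz _ hn] at h6
    · rintro ⟨h1, h2, h3, h4, h5, h6⟩
      refine ⟨h1, h2, h3, h4, h5, ?_⟩
      have hn := nbH_mem ((nbH_iff (Adj.l (h := h))).2 (Or.inr h1) : nbH b R h)
      rwa [hz _ hn]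
  unfold ee
  by_cases hs : Spc b R z h
  · rw [if_pos hs, if_pos (key.2 hs)]
  · rw [if_neg hs, if_neg fun h0 => hs (key.1 h0)]

/-- **The removal of the tails**, mirrored paths allowed. The paths of a maximiser may be replaced
by the main paths up to a loss of `ee` at every hinge. -/
theorem tailOkM (hM : 1 ≤ M) (hb : ClassW b) (L : LocA b zs)
    (hmode : ∀ R : Finset (DD (tyW b)), R ≠ ∅ →
      ∀ (z : DD (tyW b) ⊕ ZZ (tyW b) → ℂ) (p : DD (tyW b) → ℝ),
      MM b zs R (nbT b R) z p → ∃ z', Adm (wdat (tyW b) b) (wparM b zs) zs R (nbT b R) z' 0 ∧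
        (∀ v ∈ nbT b R, z' v = z v) ∧ Ph b z p ≤ (wdat (tyW b) b).V z' + ∑ h, ee b R z h) :
    TailOkM b zs (wparM b zs) (nbT b) := by
  intro R hR z p hz
  obtain ⟨z1, p1, hM1, hle⟩ := exists_MM (nbT_ok b R).ok.1 hz
  obtain ⟨z2, a2, e2, l2⟩ := hmode R hR z1 p1 hM1
  obtain ⟨z3, X3, e3, l3⟩ := exists_MX a2
  have H : Tl b zs R z3 := ⟨hb, L, X3⟩
  obtain ⟨z4, a4, l4⟩ := H.lt hM hR
  have hee : ∑ h, ee b R z3 h = ∑ h, ee b R z1 h :=
    Finset.sum_congr rfl fun h _ => (ee_congr e3 h).trans (ee_congr e2 h)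
  refine ⟨∅, z4, 0, ?_, ?_, ?_⟩
  · exact Finset.empty_ssubset.2 (Finset.nonempty_iff_ne_empty.2 hR)
  · rw [nbT_empty]
    exact a4
  · unfold Ph at hle l2
    simp only [Pi.zero_apply, Finset.sum_const_zero, mul_zero, sub_zero]
    rw [hee] at l4
    linarith

/-- the same, if every maximiser is on the main paths -/
theorem tailOkM_zero (hM : 1 ≤ M) (hb : ClassW b) (L : LocA b zs)
    (hmode : ∀ R : Finset (DD (tyW b)), R ≠ ∅ →
      ∀ (z : DD (tyW b) ⊕ ZZ (tyW b) → ℂ) (p : DD (tyW b) → ℝ),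
      MM b zs R (nbT b R) z p → p = 0) :
    TailOkM b zs (wparM b zs) (nbT b) := by
  refine tailOkM hM hb L fun R hR z p h => ?_
  have h0 := hmode R hR z p h
  subst h0
  refine ⟨z, h.adm, fun _ _ => rfl, ?_⟩
  have h1 : 0 ≤ ∑ h, ee b R z h := Finset.sum_nonneg fun h _ => ee_nonneg b R z h
  unfold Ph
  simp only [Pi.zero_apply, Finset.sum_const_zero, mul_zero, sub_zero]
  linarith

end TL

end Pool.Agent.Work.MP_b30479_gtS.G2
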