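import Pool.Agent.Work.MP_b30479_gt.TBS.G2.V2BLo_0
import Pool.Agent.Work.MP_b30479_gt.TBS.G2.TK4
import Pool.Agent.Work.MP_b30479_gt.TBS.G2.V2BLo_9
import Pool.Agent.Work.MP_b30479_gt.TBS.G2.V2R33_5

section

/-!
# Value moves of the hinge `1 | 3` for `x ≥ .60`, low inner variable

The inner digit `3` and its neighbour `1`; `t`: height of the inner variable.
-/

namespace Pool.Agent.Work.MP_b30479_gtS.G2

open VOL NumUs

namespace V2A.B

open NumUs.E

section
open NumIs (V)

theorem loA_1 : chkT (L1 (q 28 100) vT (q 42 100) ex65 (sub (eq (-18085) 150 (-1746) 9884 (-1863) (-6947) 620 60) (mul (q 32 10) (add vt (q 78 1000)))) eV) 60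
    84617453127193187751388637120874693951985842575819567447599418205892375765450866335556536628875221037534165259244555773004055008766594449897020137463074491747203078038739089658668277332000086462587319159960082304554956932968243774092779320062447048994202891876867521552605365150989368222474162624199421828063826655082623361776436713945719752835218233045596895592885097522577588309288188917638996397372237882146630165697792961902952947979247422379174138358803132010959377301645675906871019729170841979786269962506433167309576236153497119938121707446470401337918084795817886708882188160178814736749334026586131171118950829790963125109347836836277555366158477687599203812683263940873369391564995938182171248513747195871901895887888563328911571963133984014525595994602731113105281473927602308475668481650059952280986041856773123442457289029101955729069233367251753574740765751040329497753783151871389268086415793722246104830477137634476791640954435709703030876607108158001857016938828678381531159846871664587369044000950217273171657338350236162301967275319452330663954131295130915992604820309794647546814938058632592846005649522847545069037864860640986613446895066213929538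
    [V.of 10000 6000 6500, V.of 10000 (-940) (-210), V.of 10000 500 4600, V.of 10000 (-780) (-510), V.of 10000 1100 3900, V.of 10000 (-1145) 570] = true :=
      Pool.Agent.Work.NumUs.chkT_of (Pool.Agent.Work.NumUs.runT_split rfl rfl rfl
        (Pool.Agent.Work.NumUs.runT_split rfl rfl rfl
          (Pool.Agent.Work.NumUs.runT_split rfl rfl rfl
            (Pool.Agent.Work.NumUs.runT_split rfl rfl rfl
              (Pool.Agent.Work.NumUs.runT_split rfl rfl rfl
                loA_1_q1
                loA_1_q2)
              loA_1_q3)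
            loA_1_q4)
          (Pool.Agent.Work.NumUs.runT_split rfl rfl rfl
            (Pool.Agent.Work.NumUs.runT_split rfl rfl rfl
              (Pool.Agent.Work.NumUs.runT_split rfl rfl rfl
                loA_1_q5
                (Pool.Agent.Work.NumUs.runT_split rfl rfl rfl
                  loA_1_q6
                  (Pool.Agent.Work.NumUs.runT_split rfl rfl rfl
                    loA_1_q7
                    (Pool.Agent.Work.NumUs.runT_split rfl rfl rfl
                      (Pool.Agent.Work.NumUs.runT_split rfl rfl rfl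
                        loA_1_q8
                        (Pool.Agent.Work.NumUs.runT_split rfl rfl rfl
                          (Pool.Agent.Work.NumUs.runT_split rfl rfl rfl
                            loA_1_q9
                            loA_1_q10)
                          loA_1_q11))
                      loA_1_q12))))
              loA_1_q13)
            (Pool.Agent.Work.NumUs.runT_split rfl rfl rfl
              (Pool.Agent.Work.NumUs.runT_split rfl rfl rfl
                loA_1_q14
                (Pool.Agent.Work.NumUs.runT_split rfl rfl rfl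
                  loA_1_q15
                  (Pool.Agent.Work.NumUs.runT_split rfl rfl rfl
                    (Pool.Agent.Work.NumUs.runT_split rfl rfl rfl
                      (Pool.Agent.Work.NumUs.runT_split rfl rfl rfl
                        loA_1_q16
                        loA_1_q17)
                      loA_1_q18)
                    loA_1_q19)))
              loA_1_q20)))
        (Pool.Agent.Work.NumUs.runT_split rfl rfl rfl
          loA_1_q21
          loA_1_q22))

theorem loA_3 : chkT (P3 (q 28 100) vT (q 42 100) ex65 (sub (eq (-18085) 150 (-1746) 9884 (-1863) (-6947) 620 60) (mul (q 32 10) (add vt (q 78 1000)))) eV) 60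
    8217840512152028720090601212949814443573081619459763340107129384190504870126451227042429030848673033815856288560756211864518981088523065499696245362919385484291749368309028
    [V.of 10000 6000 6500, V.of 10000 (-940) (-210), V.of 10000 0 500, V.of 10000 (-780) (-510), V.of 10000 1100 3900, V.of 10000 (-1145) 570] = true :=
      Pool.Agent.Work.NumUs.chkT_of (Pool.Agent.Work.NumUs.runT_split rfl rfl rfl
        loA_3_q1
        loA_3_q2)

theorem loB_1 : chkT (L1 (q 28 100) vT (q 42 100) ex65 (sub (eq (-18085) 150 (-1746) 9884 (-1863) (-6947) 620 60) (q 864 10000)) eV) 60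
    756372521875915854665104388906982281596543701135753400004032527251889530686728929426531356186473766340627795949771022848755842351433947637537556463430535517164156118415432643637080746304297064034232317563923122390887242672601552086097403128256731441926793667481384320087435112051796211540855404321701923514694148669052606610050720996961431378998568922670313102991365835550485691797520448700066487114039886960401323490317187433882294431692981566475765880947313604972236477496037515805581717206993668221990779487144281632682595384930163058021789392324151073375778481410501174741311775478707453730882210951652057072977170860070017784438870141447727993699120550942269786860788505140225071046162075646491427798343986714319301852902263988139712702815173836695482246290560728616244699332478626354269169591552453568412494835446093584294160740847047403113161834948296540273755811629245885078073740801668710209362093085863074669602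
    [V.of 10000 6000 6500, V.of 10000 (-940) (-210), V.of 10000 500 4600, V.of 10000 (-510) 50, V.of 10000 1100 3900, V.of 10000 (-1145) 570] = true :=
      Pool.Agent.Work.NumUs.chkT_of (Pool.Agent.Work.NumUs.runT_split rfl rfl rfl
        (Pool.Agent.Work.NumUs.runT_split rfl rfl rfl
          (Pool.Agent.Work.NumUs.runT_split rfl rfl rfl
            (Pool.Agent.Work.NumUs.runT_split rfl rfl rfl
              (Pool.Agent.Work.NumUs.runT_split rfl rfl rfl
                loB_1_q1
                loB_1_q2)
              loB_1_q3)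
            (Pool.Agent.Work.NumUs.runT_split rfl rfl rfl
              (Pool.Agent.Work.NumUs.runT_split rfl rfl rfl
                (Pool.Agent.Work.NumUs.runT_split rfl rfl rfl
                  loB_1_q4
                  (Pool.Agent.Work.NumUs.runT_split rfl rfl rfl
                    loB_1_q5
                    (Pool.Agent.Work.NumUs.runT_split rfl rfl rfl
                      (Pool.Agent.Work.NumUs.runT_split rfl rfl rfl
                        loB_1_q6
                        (Pool.Agent.Work.NumUs.runT_split rfl rfl rfl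
                          loB_1_q7
                          loB_1_q8))
                      loB_1_q9)))
                loB_1_q10)
              loB_1_q11))
          (Pool.Agent.Work.NumUs.runT_split rfl rfl rfl
            loB_1_q12
            (Pool.Agent.Work.NumUs.runT_split rfl rfl rfl
              (Pool.Agent.Work.NumUs.runT_split rfl rfl rfl
                (Pool.Agent.Work.NumUs.runT_split rfl rfl rfl
                  loB_1_q13
                  (Pool.Agent.Work.NumUs.runT_split rfl rfl rfl
                    (Pool.Agent.Work.NumUs.runT_split rfl rfl rfl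
                      loB_1_q14
                      (Pool.Agent.Work.NumUs.runT_split rfl rfl rfl
                        loB_1_q15
                        loB_1_q16))
                    loB_1_q17))
                loB_1_q18)
              loB_1_q19)))
        loB_1_q20)

theorem loC_1 : chkT (L1 (q 26 100) vT (q 44 100) ex65 (sub (eq (-22173) 373 (-1873) (-862) 35621 2101 620 100) (mul (q 3 1) (add vt (q 90 1000)))) eV) 60
    5073115911276441614936810239153830152175337090203324414754527717968742524533922282927370251072411331357857672733279712051693837401873357047821503888295309443625849533826553204344161197875083770091894460319195906798833961309894600301656868079560067941185120850992539745214885101909445440378130880726985117656320389242463046579288528398508801543705821660062607891012039658606518177981098606213413254549631595891957637107087183258489090051703313615463839587228011736560202465548483187434654362009284457015311393503889820846953499864778191351226512166692406531026225934814048860110676567339593953370217940100824674674248510233244686457393730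
    [V.of 10000 6000 6500, V.of 10000 (-1145) (-870), V.of 10000 500 4600, V.of 10000 (-900) (-510), V.of 10000 1100 3900, V.of 10000 (-1145) 570] = true :=
      Pool.Agent.Work.NumUs.chkT_of (Pool.Agent.Work.NumUs.runT_split rfl rfl rfl
        (Pool.Agent.Work.NumUs.runT_split rfl rfl rfl
          loC_1_q1
          (Pool.Agent.Work.NumUs.runT_split rfl rfl rfl
            (Pool.Agent.Work.NumUs.runT_split rfl rfl rfl
              (Pool.Agent.Work.NumUs.runT_split rfl rfl rfl
                loC_1_q2
                (Pool.Agent.Work.NumUs.runT_split rfl rfl rfl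
                  loC_1_q3
                  loC_1_q4))
              loC_1_q5)
            (Pool.Agent.Work.NumUs.runT_split rfl rfl rfl
              (Pool.Agent.Work.NumUs.runT_split rfl rfl rfl
                loC_1_q6
                (Pool.Agent.Work.NumUs.runT_split rfl rfl rfl
                  loC_1_q7
                  (Pool.Agent.Work.NumUs.runT_split rfl rfl rfl
                    loC_1_q8
                    loC_1_q9)))
              loC_1_q10)))
        loC_1_q11)

theorem loD_1 : chkT (L1 (q 26 100) vT (q 44 100) ex65 (sub (eq (-22173) 373 (-1873) (-862) 35621 2101 620 100) (q 117 1000)) eV) 60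
    4088841080253787913142243395257688413693216521938489626899160535260934661937591874655090994527944298662600421796632534766051076966386722251143212556893044765887963190752764415401209716422597924353826245395287105457461436782460715194042548100994978158633886754
    [V.of 10000 6000 6500, V.of 10000 (-1145) (-870), V.of 10000 500 4600, V.of 10000 (-510) 50, V.of 10000 1100 3900, V.of 10000 (-1145) 570] = true :=
      Pool.Agent.Work.NumUs.chkT_of (Pool.Agent.Work.NumUs.runT_split rfl rfl rfl
        (Pool.Agent.Work.NumUs.runT_split rfl rfl rfl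
          loD_1_q1
          loD_1_q2)
        loD_1_q3)

end

variable {x T l t w S : ℝ}

/-- next to `1` or `2`, low height, the inner variable on the flat part -/
theorem loA (hx : 6 / 10 ≤ x) (hx' : x ≤ 65 / 100) (M : MA T t) (W : WOl w S) (ht : t ≤ -(51 / 1000))
    (hl : 5 / 100 ≤ l) (hl' : l ≤ 46 / 100) :
    0 < dvL (28 / 100) T (42 / 100) x (h65 x T) l t w S + (gA x T - 32 / 10 * (t + 78 / 1000)) + uu (l - x) (t - h65 x T) := by
  have T0 := M.T0
  have T1 := M.T1
  have t0 := M.t0
  have t1 := M.t1
  have w0 := W.w0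
  have w1 := W.w1
  have S0 := W.S0
  have S1 := W.S1
  have := left_row (c := q 28 100) (hc := vT) (l' := q 42 100) (hx := ex65) (g := sub (eq (-18085) 150 (-1746) 9884 (-1863) (-6947) 620 60) (mul (q 32 10) (add vt (q 78 1000)))) (es := eV)
    (x := x) (T := T) (l := l) (t := t) (w := w) (S := S) (eV_ok M.s0 M.s1 W)
    (use6 loA_1 (by norm_num) (by
      refine ⟨⟨?_, ?_⟩, ⟨?_, ?_⟩, ⟨?_, ?_⟩, ⟨?_, ?_⟩, ⟨?_, ?_⟩, ⟨?_, ?_⟩⟩ <;>
        push_cast <;> linarith only [hx, hx', T0, T1, hl, hl', t0, ht, w0, w1, S0, S1]))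
    (use6 loA_2 (by norm_num) (by
      refine ⟨⟨?_, ?_⟩, ⟨?_, ?_⟩, ⟨?_, ?_⟩, ⟨?_, ?_⟩, ⟨?_, ?_⟩, ⟨?_, ?_⟩⟩ <;>
        push_cast <;> linarith only [hx, hx', T0, T1, hl, hl', t0, ht, w0, w1, S0, S1]))
  have e1 : (q 28 100).val [x, T, l, t, w, S] = 28 / 100 := by norm_num [E.val]
  have e2 : (q 42 100).val [x, T, l, t, w, S] = 42 / 100 := by norm_num [E.val]
  have e4 : (ex65).val [x, T, l, t, w, S] = h65 x T := ex65_val
  have e5 : vT.val [x, T, l, t, w, S] = T := rfl
  have e6 : vt.val [x, T, l, t, w, S] = t := rfl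
  have e7 : (eq (-18085) 150 (-1746) 9884 (-1863) (-6947) 620 60).val [x, T, l, t, w, S] = gA x T := eq_val
  have e3 : (sub (eq (-18085) 150 (-1746) 9884 (-1863) (-6947) 620 60) (mul (q 32 10) (add vt (q 78 1000)))).val [x, T, l, t, w, S] = gA x T - 32 / 10 * (t + 78 / 1000) := by
    simp only [E.val, e6] at e7 ⊢
    rw [e7]
    norm_num
  rw [e1, e2, e3, e4, e5] at this
  exact this

/-- next to `1` or `2`, low height, the inner variable on the left ramp -/
theorem loA_r (hx : 6 / 10 ≤ x) (hx' : x ≤ 65 / 100) (M : MA T t) (W : WOl w S) (ht : t ≤ -(51 / 1000))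
    (hl : 0 ≤ l) (hl' : l ≤ 5 / 100) :
    0 < dvG (28 / 100) T (42 / 100) t x (h65 x T) l (20 * (t * l)) w S + (gA x T - 32 / 10 * (t + 78 / 1000)) +
      (uu l (20 * (t * l)) - uu (l + w) (20 * (t * l) + S) +
        uu (l - x) (20 * (t * l) - h65 x T)) := by
  have T0 := M.T0
  have T1 := M.T1
  have t0 := M.t0
  have t1 := M.t1
  have w0 := W.w0
  have w1 := W.w1
  have S0 := W.S0
  have S1 := W.S1
  have := ramp_row' (c := q 28 100) (hc := vT) (l' := q 42 100) (hx := ex65) (g := sub (eq (-18085) 150 (-1746) 9884 (-1863) (-6947) 620 60) (mul (q 32 10) (add vt (q 78 1000)))) (es := eV)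
    (x := x) (T := T) (l := l) (t := t) (w := w) (S := S) (eV_ok M.s0 M.s1 W) hl hl' (by linarith only [w0])
    (by rw [abs_le]; constructor <;> linarith only [t0, ht])
    (use6 loA_3 (by norm_num) (by
      refine ⟨⟨?_, ?_⟩, ⟨?_, ?_⟩, ⟨?_, ?_⟩, ⟨?_, ?_⟩, ⟨?_, ?_⟩, ⟨?_, ?_⟩⟩ <;>
        push_cast <;> linarith only [hx, hx', T0, T1, hl, hl', t0, ht, w0, w1, S0, S1]))
    (use6 loA_4 (by norm_num) (by
      refine ⟨⟨?_, ?_⟩, ⟨?_, ?_⟩, ⟨?_, ?_⟩, ⟨?_, ?_⟩, ⟨?_, ?_⟩, ⟨?_, ?_⟩⟩ <;>
        push_cast <;> linarith only [hx, hx', T0, T1, hl, hl', t0, ht, w0, w1, S0, S1]))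
  have e1 : (q 28 100).val [x, T, l, t, w, S] = 28 / 100 := by norm_num [E.val]
  have e2 : (q 42 100).val [x, T, l, t, w, S] = 42 / 100 := by norm_num [E.val]
  have e4 : (ex65).val [x, T, l, t, w, S] = h65 x T := ex65_val
  have e5 : vT.val [x, T, l, t, w, S] = T := rfl
  have e6 : vt.val [x, T, l, t, w, S] = t := rfl
  have e7 : (eq (-18085) 150 (-1746) 9884 (-1863) (-6947) 620 60).val [x, T, l, t, w, S] = gA x T := eq_val
  have e3 : (sub (eq (-18085) 150 (-1746) 9884 (-1863) (-6947) 620 60) (mul (q 32 10) (add vt (q 78 1000)))).val [x, T, l, t, w, S] = gA x T - 32 / 10 * (t + 78 / 1000) := by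
    simp only [E.val, e6] at e7 ⊢
    rw [e7]
    norm_num
  rw [e1, e2, e3, e4, e5] at this
  exact this

/-- next to `1` or `2`, the inner variable on the flat part -/
theorem loB (hx : 6 / 10 ≤ x) (hx' : x ≤ 65 / 100) (M : MA T t) (W : WOl w S) (ht : -(51 / 1000) ≤ t)
    (hl : 5 / 100 ≤ l) (hl' : l ≤ 46 / 100) :
    0 < dvL (28 / 100) T (42 / 100) x (h65 x T) l t w S + (gA x T - 864 / 10000) + uu (l - x) (t - h65 x T) := by
  have T0 := M.T0
  have T1 := M.T1
  have t0 := M.t0
  have t1 := M.t1
  have w0 := W.w0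
  have w1 := W.w1
  have S0 := W.S0
  have S1 := W.S1
  have := left_row (c := q 28 100) (hc := vT) (l' := q 42 100) (hx := ex65) (g := sub (eq (-18085) 150 (-1746) 9884 (-1863) (-6947) 620 60) (q 864 10000)) (es := eV)
    (x := x) (T := T) (l := l) (t := t) (w := w) (S := S) (eV_ok M.s0 M.s1 W)
    (use6 loB_1 (by norm_num) (by
      refine ⟨⟨?_, ?_⟩, ⟨?_, ?_⟩, ⟨?_, ?_⟩, ⟨?_, ?_⟩, ⟨?_, ?_⟩, ⟨?_, ?_⟩⟩ <;>
        push_cast <;> linarith only [hx, hx', T0, T1, hl, hl', ht, t1, w0, w1, S0, S1]))
    (use6 loB_2 (by norm_num) (by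
      refine ⟨⟨?_, ?_⟩, ⟨?_, ?_⟩, ⟨?_, ?_⟩, ⟨?_, ?_⟩, ⟨?_, ?_⟩, ⟨?_, ?_⟩⟩ <;>
        push_cast <;> linarith only [hx, hx', T0, T1, hl, hl', ht, t1, w0, w1, S0, S1]))
  have e1 : (q 28 100).val [x, T, l, t, w, S] = 28 / 100 := by norm_num [E.val]
  have e2 : (q 42 100).val [x, T, l, t, w, S] = 42 / 100 := by norm_num [E.val]
  have e4 : (ex65).val [x, T, l, t, w, S] = h65 x T := ex65_val
  have e5 : vT.val [x, T, l, t, w, S] = T := rfl
  have e6 : vt.val [x, T, l, t, w, S] = t := rfl
  have e7 : (eq (-18085) 150 (-1746) 9884 (-1863) (-6947) 620 60).val [x, T, l, t, w, S] = gA x T := eq_val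
  have e3 : (sub (eq (-18085) 150 (-1746) 9884 (-1863) (-6947) 620 60) (q 864 10000)).val [x, T, l, t, w, S] = gA x T - 864 / 10000 := by
    simp only [E.val, e6] at e7 ⊢
    rw [e7]
    norm_num
  rw [e1, e2, e3, e4, e5] at this
  exact this

/-- next to `1` or `2`, the inner variable on the left ramp -/
theorem loB_r (hx : 6 / 10 ≤ x) (hx' : x ≤ 65 / 100) (M : MA T t) (W : WOl w S) (ht : -(51 / 1000) ≤ t)
    (hl : 0 ≤ l) (hl' : l ≤ 5 / 100) :
    0 < dvG (28 / 100) T (42 / 100) t x (h65 x T) l (20 * (t * l)) w S + (gA x T - 864 / 10000) +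
      (uu l (20 * (t * l)) - uu (l + w) (20 * (t * l) + S) +
        uu (l - x) (20 * (t * l) - h65 x T)) := by
  have T0 := M.T0
  have T1 := M.T1
  have t0 := M.t0
  have t1 := M.t1
  have w0 := W.w0
  have w1 := W.w1
  have S0 := W.S0
  have S1 := W.S1
  have := ramp_row' (c := q 28 100) (hc := vT) (l' := q 42 100) (hx := ex65) (g := sub (eq (-18085) 150 (-1746) 9884 (-1863) (-6947) 620 60) (q 864 10000)) (es := eV)
    (x := x) (T := T) (l := l) (t := t) (w := w) (S := S) (eV_ok M.s0 M.s1 W) hl hl' (by linarith only [w0])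
    (by rw [abs_le]; constructor <;> linarith only [ht, t1])
    (use6 loB_3 (by norm_num) (by
      refine ⟨⟨?_, ?_⟩, ⟨?_, ?_⟩, ⟨?_, ?_⟩, ⟨?_, ?_⟩, ⟨?_, ?_⟩, ⟨?_, ?_⟩⟩ <;>
        push_cast <;> linarith only [hx, hx', T0, T1, hl, hl', ht, t1, w0, w1, S0, S1]))
    (use6 loB_4 (by norm_num) (by
      refine ⟨⟨?_, ?_⟩, ⟨?_, ?_⟩, ⟨?_, ?_⟩, ⟨?_, ?_⟩, ⟨?_, ?_⟩, ⟨?_, ?_⟩⟩ <;>
        push_cast <;> linarith only [hx, hx', T0, T1, hl, hl', ht, t1, w0, w1, S0, S1]))
  have e1 : (q 28 100).val [x, T, l, t, w, S] = 28 / 100 := by norm_num [E.val]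
  have e2 : (q 42 100).val [x, T, l, t, w, S] = 42 / 100 := by norm_num [E.val]
  have e4 : (ex65).val [x, T, l, t, w, S] = h65 x T := ex65_val
  have e5 : vT.val [x, T, l, t, w, S] = T := rfl
  have e6 : vt.val [x, T, l, t, w, S] = t := rfl
  have e7 : (eq (-18085) 150 (-1746) 9884 (-1863) (-6947) 620 60).val [x, T, l, t, w, S] = gA x T := eq_val
  have e3 : (sub (eq (-18085) 150 (-1746) 9884 (-1863) (-6947) 620 60) (q 864 10000)).val [x, T, l, t, w, S] = gA x T - 864 / 10000 := by
    simp only [E.val, e6] at e7 ⊢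
    rw [e7]
    norm_num
  rw [e1, e2, e3, e4, e5] at this
  exact this

/-- next to `2` at an end, low height, the inner variable on the flat part -/
theorem loC (hx : 6 / 10 ≤ x) (hx' : x ≤ 65 / 100) (M : MC T t) (W : WOl w S) (ht : t ≤ -(51 / 1000))
    (hl : 5 / 100 ≤ l) (hl' : l ≤ 46 / 100) :
    0 < dvL (26 / 100) T (44 / 100) x (h65 x T) l t w S + (gC x T - 3 * (t + 90 / 1000)) + uu (l - x) (t - h65 x T) := by
  have T0 := M.T0
  have T1 := M.T1
  have t0 := M.t0
  have t1 := M.t1
  have w0 := W.w0
  have w1 := W.w1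
  have S0 := W.S0
  have S1 := W.S1
  have := left_row (c := q 26 100) (hc := vT) (l' := q 44 100) (hx := ex65) (g := sub (eq (-22173) 373 (-1873) (-862) 35621 2101 620 100) (mul (q 3 1) (add vt (q 90 1000)))) (es := eV)
    (x := x) (T := T) (l := l) (t := t) (w := w) (S := S) (eV_ok M.s0 M.s1 W)
    (use6 loC_1 (by norm_num) (by
      refine ⟨⟨?_, ?_⟩, ⟨?_, ?_⟩, ⟨?_, ?_⟩, ⟨?_, ?_⟩, ⟨?_, ?_⟩, ⟨?_, ?_⟩⟩ <;>
        push_cast <;> linarith only [hx, hx', T0, T1, hl, hl', t0, ht, w0, w1, S0, S1]))
    (use6 loC_2 (by norm_num) (by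
      refine ⟨⟨?_, ?_⟩, ⟨?_, ?_⟩, ⟨?_, ?_⟩, ⟨?_, ?_⟩, ⟨?_, ?_⟩, ⟨?_, ?_⟩⟩ <;>
        push_cast <;> linarith only [hx, hx', T0, T1, hl, hl', t0, ht, w0, w1, S0, S1]))
  have e1 : (q 26 100).val [x, T, l, t, w, S] = 26 / 100 := by norm_num [E.val]
  have e2 : (q 44 100).val [x, T, l, t, w, S] = 44 / 100 := by norm_num [E.val]
  have e4 : (ex65).val [x, T, l, t, w, S] = h65 x T := ex65_val
  have e5 : vT.val [x, T, l, t, w, S] = T := rfl
  have e6 : vt.val [x, T, l, t, w, S] = t := rfl
  have e7 : (eq (-22173) 373 (-1873) (-862) 35621 2101 620 100).val [x, T, l, t, w, S] = gC x T := eq_val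
  have e3 : (sub (eq (-22173) 373 (-1873) (-862) 35621 2101 620 100) (mul (q 3 1) (add vt (q 90 1000)))).val [x, T, l, t, w, S] = gC x T - 3 * (t + 90 / 1000) := by
    simp only [E.val, e6] at e7 ⊢
    rw [e7]
    norm_num
  rw [e1, e2, e3, e4, e5] at this
  exact this

/-- next to `2` at an end, low height, the inner variable on the left ramp -/
theorem loC_r (hx : 6 / 10 ≤ x) (hx' : x ≤ 65 / 100) (M : MC T t) (W : WOl w S) (ht : t ≤ -(51 / 1000))
    (hl : 0 ≤ l) (hl' : l ≤ 5 / 100) :
    0 < dvG (26 / 100) T (44 / 100) t x (h65 x T) l (20 * (t * l)) w S + (gC x T - 3 * (t + 90 / 1000)) +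
      (uu l (20 * (t * l)) - uu (l + w) (20 * (t * l) + S) +
        uu (l - x) (20 * (t * l) - h65 x T)) := by
  have T0 := M.T0
  have T1 := M.T1
  have t0 := M.t0
  have t1 := M.t1
  have w0 := W.w0
  have w1 := W.w1
  have S0 := W.S0
  have S1 := W.S1
  have := ramp_row' (c := q 26 100) (hc := vT) (l' := q 44 100) (hx := ex65) (g := sub (eq (-22173) 373 (-1873) (-862) 35621 2101 620 100) (mul (q 3 1) (add vt (q 90 1000)))) (es := eV)
    (x := x) (T := T) (l := l) (t := t) (w := w) (S := S) (eV_ok M.s0 M.s1 W) hl hl' (by linarith only [w0])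
    (by rw [abs_le]; constructor <;> linarith only [t0, ht])
    (use6 loC_3 (by norm_num) (by
      refine ⟨⟨?_, ?_⟩, ⟨?_, ?_⟩, ⟨?_, ?_⟩, ⟨?_, ?_⟩, ⟨?_, ?_⟩, ⟨?_, ?_⟩⟩ <;>
        push_cast <;> linarith only [hx, hx', T0, T1, hl, hl', t0, ht, w0, w1, S0, S1]))
    (use6 loC_4 (by norm_num) (by
      refine ⟨⟨?_, ?_⟩, ⟨?_, ?_⟩, ⟨?_, ?_⟩, ⟨?_, ?_⟩, ⟨?_, ?_⟩, ⟨?_, ?_⟩⟩ <;>
        push_cast <;> linarith only [hx, hx', T0, T1, hl, hl', t0, ht, w0, w1, S0, S1]))
  have e1 : (q 26 100).val [x, T, l, t, w, S] = 26 / 100 := by norm_num [E.val]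
  have e2 : (q 44 100).val [x, T, l, t, w, S] = 44 / 100 := by norm_num [E.val]
  have e4 : (ex65).val [x, T, l, t, w, S] = h65 x T := ex65_val
  have e5 : vT.val [x, T, l, t, w, S] = T := rfl
  have e6 : vt.val [x, T, l, t, w, S] = t := rfl
  have e7 : (eq (-22173) 373 (-1873) (-862) 35621 2101 620 100).val [x, T, l, t, w, S] = gC x T := eq_val
  have e3 : (sub (eq (-22173) 373 (-1873) (-862) 35621 2101 620 100) (mul (q 3 1) (add vt (q 90 1000)))).val [x, T, l, t, w, S] = gC x T - 3 * (t + 90 / 1000) := by
    simp only [E.val, e6] at e7 ⊢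
    rw [e7]
    norm_num
  rw [e1, e2, e3, e4, e5] at this
  exact this

/-- next to `2` at an end, the inner variable on the flat part -/
theorem loD (hx : 6 / 10 ≤ x) (hx' : x ≤ 65 / 100) (M : MC T t) (W : WOl w S) (ht : -(51 / 1000) ≤ t)
    (hl : 5 / 100 ≤ l) (hl' : l ≤ 46 / 100) :
    0 < dvL (26 / 100) T (44 / 100) x (h65 x T) l t w S + (gC x T - 117 / 1000) + uu (l - x) (t - h65 x T) := by
  have T0 := M.T0
  have T1 := M.T1
  have t0 := M.t0
  have t1 := M.t1
  have w0 := W.w0
  have w1 := W.w1
  have S0 := W.S0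
  have S1 := W.S1
  have := left_row (c := q 26 100) (hc := vT) (l' := q 44 100) (hx := ex65) (g := sub (eq (-22173) 373 (-1873) (-862) 35621 2101 620 100) (q 117 1000)) (es := eV)
    (x := x) (T := T) (l := l) (t := t) (w := w) (S := S) (eV_ok M.s0 M.s1 W)
    (use6 loD_1 (by norm_num) (by
      refine ⟨⟨?_, ?_⟩, ⟨?_, ?_⟩, ⟨?_, ?_⟩, ⟨?_, ?_⟩, ⟨?_, ?_⟩, ⟨?_, ?_⟩⟩ <;>
        push_cast <;> linarith only [hx, hx', T0, T1, hl, hl', ht, t1, w0, w1, S0, S1]))
    (use6 loD_2 (by norm_num) (by
      refine ⟨⟨?_, ?_⟩, ⟨?_, ?_⟩, ⟨?_, ?_⟩, ⟨?_, ?_⟩, ⟨?_, ?_⟩, ⟨?_, ?_⟩⟩ <;>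
        push_cast <;> linarith only [hx, hx', T0, T1, hl, hl', ht, t1, w0, w1, S0, S1]))
  have e1 : (q 26 100).val [x, T, l, t, w, S] = 26 / 100 := by norm_num [E.val]
  have e2 : (q 44 100).val [x, T, l, t, w, S] = 44 / 100 := by norm_num [E.val]
  have e4 : (ex65).val [x, T, l, t, w, S] = h65 x T := ex65_val
  have e5 : vT.val [x, T, l, t, w, S] = T := rfl
  have e6 : vt.val [x, T, l, t, w, S] = t := rfl
  have e7 : (eq (-22173) 373 (-1873) (-862) 35621 2101 620 100).val [x, T, l, t, w, S] = gC x T := eq_val
  have e3 : (sub (eq (-22173) 373 (-1873) (-862) 35621 2101 620 100) (q 117 1000)).val [x, T, l, t, w, S] = gC x T - 117 / 1000 := by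
    simp only [E.val, e6] at e7 ⊢
    rw [e7]
    norm_num
  rw [e1, e2, e3, e4, e5] at this
  exact this

/-- next to `2` at an end, the inner variable on the left ramp -/
theorem loD_r (hx : 6 / 10 ≤ x) (hx' : x ≤ 65 / 100) (M : MC T t) (W : WOl w S) (ht : -(51 / 1000) ≤ t)
    (hl : 0 ≤ l) (hl' : l ≤ 5 / 100) :
    0 < dvG (26 / 100) T (44 / 100) t x (h65 x T) l (20 * (t * l)) w S + (gC x T - 117 / 1000) +
      (uu l (20 * (t * l)) - uu (l + w) (20 * (t * l) + S) +
        uu (l - x) (20 * (t * l) - h65 x T)) := by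
  have T0 := M.T0
  have T1 := M.T1
  have t0 := M.t0
  have t1 := M.t1
  have w0 := W.w0
  have w1 := W.w1
  have S0 := W.S0
  have S1 := W.S1
  have := ramp_row' (c := q 26 100) (hc := vT) (l' := q 44 100) (hx := ex65) (g := sub (eq (-22173) 373 (-1873) (-862) 35621 2101 620 100) (q 117 1000)) (es := eV)
    (x := x) (T := T) (l := l) (t := t) (w := w) (S := S) (eV_ok M.s0 M.s1 W) hl hl' (by linarith only [w0])
    (by rw [abs_le]; constructor <;> linarith only [ht, t1])
    (use6 loD_3 (by norm_num) (by
      refine ⟨⟨?_, ?_⟩, ⟨?_, ?_⟩, ⟨?_, ?_⟩, ⟨?_, ?_⟩, ⟨?_, ?_⟩, ⟨?_, ?_⟩⟩ <;>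
        push_cast <;> linarith only [hx, hx', T0, T1, hl, hl', ht, t1, w0, w1, S0, S1]))
    (use6 loD_4 (by norm_num) (by
      refine ⟨⟨?_, ?_⟩, ⟨?_, ?_⟩, ⟨?_, ?_⟩, ⟨?_, ?_⟩, ⟨?_, ?_⟩, ⟨?_, ?_⟩⟩ <;>
        push_cast <;> linarith only [hx, hx', T0, T1, hl, hl', ht, t1, w0, w1, S0, S1]))
  have e1 : (q 26 100).val [x, T, l, t, w, S] = 26 / 100 := by norm_num [E.val]
  have e2 : (q 44 100).val [x, T, l, t, w, S] = 44 / 100 := by norm_num [E.val]
  have e4 : (ex65).val [x, T, l, t, w, S] = h65 x T := ex65_val
  have e5 : vT.val [x, T, l, t, w, S] = T := rfl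
  have e6 : vt.val [x, T, l, t, w, S] = t := rfl
  have e7 : (eq (-22173) 373 (-1873) (-862) 35621 2101 620 100).val [x, T, l, t, w, S] = gC x T := eq_val
  have e3 : (sub (eq (-22173) 373 (-1873) (-862) 35621 2101 620 100) (q 117 1000)).val [x, T, l, t, w, S] = gC x T - 117 / 1000 := by
    simp only [E.val, e6] at e7 ⊢
    rw [e7]
    norm_num
  rw [e1, e2, e3, e4, e5] at this
  exact this

end V2A.B

end Pool.Agent.Work.MP_b30479_gtS.G2

end

section

/-!
# Part of `V2BL`
-/
namespace Pool.Agent.Work.MP_b30479_gtS.G2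

open Finset VOL Filter Topology

namespace V2A.B

variable {w : ℂ} {T S XM : ℝ}

theorem tk_twoE (h : RH w S (70 / 100) (14 / 100) (35 / 100)) (hk : 14 / 100 ≤ w.re)
    (hk' : w.re ≤ 35 / 100) : w.im = S :=
  MR.RH_flat h (by norm_num) (by norm_num) hk (by linarith only [hk'])

variable {u u' v v' : ℂ} {t : ℝ}

/-- next to `1` or `2` -/
theorem c_lo_A (hx : 6 / 10 ≤ u.re) (hx' : u.re ≤ 65 / 100) (hu : u.im = h65 u.re T)
    (hc : u'.im = T) (hc' : u'.re = 28 / 100) (hv : RH v t (8 / 10) (5 / 100) (5 / 100))
    (M : MA T t) (W : WOl w.re w.im) (hd : v'.re = 42 / 100) (hd' : v'.im = t)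
    (hl : v.re ≤ 46 / 100) {τ : ℝ} (h1 : τ ≤ 32 / 10 * (t + 78 / 1000)) (h2 : τ ≤ 864 / 10000) :
    0 < V3 u' v' w - V3 u v w + (gA u.re T - τ) := by
  rcases le_total v.re (5 / 100) with h | h
  · rw [V3_dvG (w := w) rfl hu hc' hc rfl (mid_left hv h) hd hd']
    rcases le_total t (-(51 / 1000)) with h3 | h3
    · have := loA_r hx hx' M W h3 hv.re0 h
      linarith only [h1, this]
    · have := loB_r hx hx' M W h3 hv.re0 h
      linarith only [h2, this]
  · rw [V3_dvL (w := w) rfl hu hc' hc rfl (mid_flat hv h (by linarith only [hl])) hd hd']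
    rcases le_total t (-(51 / 1000)) with h3 | h3
    · have := loA hx hx' M W h3 h hl
      linarith only [h1, this]
    · have := loB hx hx' M W h3 h hl
      linarith only [h2, this]

/-- next to `2` at an end -/
theorem c_lo_C (hx : 6 / 10 ≤ u.re) (hx' : u.re ≤ 65 / 100) (hu : u.im = h65 u.re T)
    (hc : u'.im = T) (hc' : u'.re = 26 / 100) (hv : RH v t (8 / 10) (5 / 100) (5 / 100))
    (M : MC T t) (W : WOl w.re w.im) (hd : v'.re = 44 / 100) (hd' : v'.im = t)
    (hl : v.re ≤ 46 / 100) : 0 < V3 u' v' w - V3 u v w + gC u.re T := by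
  have h4 := M.t0
  rcases le_total v.re (5 / 100) with h | h
  · rw [V3_dvG (w := w) rfl hu hc' hc rfl (mid_left hv h) hd hd']
    rcases le_total t (-(51 / 1000)) with h3 | h3
    · have := loC_r hx hx' M W h3 hv.re0 h
      linarith only [h4, this]
    · have := loD_r hx hx' M W h3 hv.re0 h
      linarith only [this]
  · rw [V3_dvL (w := w) rfl hu hc' hc rfl (mid_flat hv h (by linarith only [hl])) hd hd']
    rcases le_total t (-(51 / 1000)) with h3 | h3
    · have := loC hx hx' M W h3 h hl
      linarith only [h4, this]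
    · have := loD hx hx' M W h3 h hl
      linarith only [this]

end V2A.B

end Pool.Agent.Work.MP_b30479_gtS.G2

end
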