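import Pool.Agent.Work.MP_b30479_gt.TBS.G2.V2Base

/-!
# Value moves of the hinge `3 | 3`, `3e | 3`: the digit on the left
-/

set_option deprecated.oldSectionVars true

namespace Pool.Agent.Work.MP_b30479_gtS.G2

open VOL NumUs

namespace V2A

open NumUs.E

/-- the end region: lists of expressions -/
def N1 (hl : E) : List E :=
  [FGe (q 30 100) vT (q 46 100) vt vx eh30 vl hl (q 0 1) (q 0 1) (neg fg33)
    (aN vs (sub hl eh30)), sub hl eh30, add vs (q 3 100)]
def N2 (hl : E) : List E :=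
  [FGe (q 30 100) vT (q 46 100) vt vx eh30 vl hl (q 0 1) (q 0 1) (neg fg33)
    (aP vs (sub hl eh30)), sub eh30 hl, add vs (q 3 100)]
def N3 (hl : E) : List E :=
  [FGe (q 30 100) vT (q 46 100) vt vx eh30 vl hl (q 0 1) (q 0 1) (neg fg33)
    (uu (q 3 100) (sub hl eh30)), sub vs (q 3 100), sub (q (-3) 100) vs]
def N4 (hl : E) : List E :=
  [FGe (q 30 100) vT (q 46 100) vt vx eh30 vl hl (q 0 1) (q 0 1) (neg fg33)
    (uu vs (sub hl eh30)), sub (q 3 100) vs]
/-- heights of the inner variable at an end: left ramp, right ramp -/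
def vE1 : E := mul (q 10 1) (mul vt vl)
def vE3 : E := mul vt (sub (q 385 100) (mul (q 5 1) vl))

section
open NumIs (V)

theorem en_1 : chkT (N1 vE1) 60
    557699
    [V.of 1000 500 600, V.of 1000 5 28, V.of 1000 0 100, V.of 1000 (-45) 59] = true := by
  decide +kernel

theorem en_2 : chkT (N2 vE1) 60
    9348055205923
    [V.of 1000 500 600, V.of 1000 5 28, V.of 1000 0 100, V.of 1000 (-45) 59] = true := by
  decide +kernel

theorem en_3 : chkT (N1 vt) 60
    107163757988535374706265897539800472803709335780852486854624977185654656101040165089543322168719514285785704104146572418534036637730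
    [V.of 1000 500 600, V.of 1000 5 28, V.of 1000 100 570, V.of 1000 (-45) 59] = true := by
  decide +kernel

theorem en_4 : chkT (N2 vt) 60
    445285540872028799717861631754601541765329966949424303032079092965229962901233422065744000683210035661980303146508783407145547142660883316689993124053794
    [V.of 1000 500 600, V.of 1000 5 28, V.of 1000 100 570, V.of 1000 (-45) 59] = true := by
  decide +kernel

theorem en_5 : chkT (N3 vt) 60
    2179
    [V.of 1000 500 600, V.of 1000 5 28, V.of 1000 470 570, V.of 1000 (-45) 59] = true := by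
  decide +kernel

theorem en_6 : chkT (N4 vt) 60
    4313150001885869864796419988450511211085552393179359625451543805393847321392
    [V.of 1000 500 600, V.of 1000 5 28, V.of 1000 530 570, V.of 1000 (-45) 59] = true := by
  decide +kernel

theorem en_7 : chkT (N3 vE3) 60
    559107
    [V.of 1000 500 600, V.of 1000 5 28, V.of 1000 570 630, V.of 1000 (-45) 59] = true := by
  decide +kernel

theorem en_8 : chkT (N4 vE3) 60
    12004828220600733339001738664381871667159368456070612893929139092429402926129462398810424105772188309875321476452003298393251262020875994835487605661832476897516099678341701766504009709706650979724297677543655418500358194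
    [V.of 1000 500 600, V.of 1000 5 28, V.of 1000 570 770, V.of 1000 (-45) 59] = true := by
  decide +kernel

theorem o3_1 : chkT (O1 (q 30 100) vT eh30 fg33 []) 60
    807954829821099828816238267438687767188829105312598295585874615155576208366991472228514924061041893404064614462308283808028381450393253706765537052731812528295591923967667353052955792231875279937713426935398805538
    [V.of 1000 500 600, V.of 1000 (-22) 22, V.of 1000 0 470, V.of 1000 (-116) 5] = true := by
  decide +kernel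

theorem o3_2 : chkT (O2 (q 30 100) vT eh30 fg33 []) 60
    8
    [V.of 1000 500 600, V.of 1000 (-22) 22, V.of 1000 370 530, V.of 1000 (-116) 5] = true := by
  decide +kernel

theorem o3_3 : chkT (O3 (q 30 100) vT eh30 fg33 []) 60
    473672681726609518439120889268941917850935400396123465530142294807471627791473272464780298168551464074718145082621037578635400965614336710783915894280815011095872539429255740574227297829241658267220553727825089910212595960628252175769805247810056228360176855498555089397279265975920275102740216268520110485519781681830158598809629884978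
    [V.of 1000 500 600, V.of 1000 (-22) 22, V.of 1000 430 670, V.of 1000 (-116) 5] = true := by
  decide +kernel

theorem o3_4 : chkT (O4 (q 30 100) vT eh30 fg33 []) 60
    16531909911314273373821964087099453525424530034767341761825444933221313201243535152019
    [V.of 1000 500 600, V.of 1000 (-22) 22, V.of 1000 430 670, V.of 1000 (-116) 5] = true := by
  decide +kernel

theorem o3_5 : chkT (O5 (q 30 100) vT eh30 fg33 []) 60
    8
    [V.of 1000 500 600, V.of 1000 (-22) 22, V.of 1000 670 730, V.of 1000 (-116) 5] = true := by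
  decide +kernel

theorem o3_6 : chkT (O6 (q 30 100) vT eh30 fg33 []) 60
    2179
    [V.of 1000 500 600, V.of 1000 (-22) 22, V.of 1000 670 730, V.of 1000 (-116) 5] = true := by
  decide +kernel

theorem o3_7 : chkT (O7 (q 30 100) vT eh30 fg33 []) 60
    142837810
    [V.of 1000 500 600, V.of 1000 (-22) 22, V.of 1000 730 800, V.of 1000 (-116) 5] = true := by
  decide +kernel

theorem o3_8 : chkT (O8 (q 30 100) vT eh30 fg33 []) 60
    2401339980124819
    [V.of 1000 500 600, V.of 1000 (-22) 22, V.of 1000 730 800, V.of 1000 (-116) 5] = true := by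
  decide +kernel

end

set_option deprecated.oldSectionVars false
variable {x T l h t k κ : ℝ}

theorem end_row {hl : E} {b : ℝ} (hb : hl.val [x, T, l, t] = b)
    (hy : |b - h30 x T| ≤ 13 / 100)
    (k1 : l - x ≤ -(3 / 100) → ∃ e ∈ N1 hl, 0 < e.val [x, T, l, t])
    (k2 : l - x ≤ -(3 / 100) → ∃ e ∈ N2 hl, 0 < e.val [x, T, l, t])
    (k3 : -(3 / 100) ≤ l - x → l - x ≤ 3 / 100 → ∃ e ∈ N3 hl, 0 < e.val [x, T, l, t])
    (k4 : 3 / 100 ≤ l - x → ∃ e ∈ N4 hl, 0 < e.val [x, T, l, t]) :
    g33 x (-T) < dvG (30 / 100) T (46 / 100) t x (h30 x T) l b 0 0 + uu (l - x) (b - h30 x T) := by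
  have e1 : vs.val [x, T, l, t] = l - x := rfl
  have e2 : (q 3 100).val [x, T, l, t] = 3 / 100 := by norm_num [E.val]
  have e3 : (q (-3) 100).val [x, T, l, t] = -(3 / 100) := by norm_num [E.val]
  have e4 : (q 30 100).val [x, T, l, t] = 30 / 100 := by norm_num [E.val]
  have e5 : (q 46 100).val [x, T, l, t] = 46 / 100 := by norm_num [E.val]
  have e6 : (q 0 1).val [x, T, l, t] = 0 := by norm_num [E.val]
  have ex : vx.val [x, T, l, t] = x := rfl
  have eT : vT.val [x, T, l, t] = T := rfl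
  have el : vl.val [x, T, l, t] = l := rfl
  have et : vt.val [x, T, l, t] = t := rfl
  have n1 : (sub hl eh30).val [x, T, l, t] = b - h30 x T := by
    simp only [E.val, hb, eh30_val]
  have n2 : (neg fg33).val [x, T, l, t] = -g33 x (-T) := by
    simp only [E.val, fg33_val]
  have key : 0 < (dvG (30 / 100) T (46 / 100) t x (h30 x T) l b 0 0 + -g33 x (-T)) +
      uu (l - x) (b - h30 x T) := by
    refine split_uu hy ?_ ?_ ?_ ?_
    · intro h1 h2
      have := of_list (k1 h1) (all_cons (by rw [n1]; exact h2)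
        (all_cons (by simp only [E.val, e1] at e2 ⊢; rw [e2]; linarith only [h1]) all_nil))
      rw [FGe_val, aN_val, e1, e4, e5, e6, ex, eT, el, et, n1, n2, eh30_val, hb] at this
      exact this
    · intro h1 h2
      have := of_list (k2 h1) (all_cons (by simp only [E.val, hb, eh30_val]; linarith only [h2])
        (all_cons (by simp only [E.val, e1] at e2 ⊢; rw [e2]; linarith only [h1]) all_nil))
      rw [FGe_val, aP_val, e1, e4, e5, e6, ex, eT, el, et, n1, n2, eh30_val, hb] at this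
      exact this
    · intro h1 h2
      have := of_list (k3 h1 h2) (all_cons (by simp only [E.val, e1] at e2 ⊢; rw [e2]; linarith only [h2])
        (all_cons (by simp only [E.val, e1] at e3 ⊢; rw [e3]; linarith only [h1]) all_nil))
      rw [FGe_val, e4, e5, e6, ex, eT, el, et, n2, eh30_val, hb] at this
      have n3 : (uu (q 3 100) (sub hl eh30)).val [x, T, l, t] =
          NumUs.uu (3 / 100) (b - h30 x T) := by
        simp only [E.val, hb, eh30_val] at e2 ⊢
        rw [e2]
      rw [n3] at this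
      exact this
    · intro h1
      have := of_list (k4 h1) (all_cons (by simp only [E.val, e1] at e2 ⊢; rw [e2]; linarith only [h1])
        all_nil)
      rw [FGe_val, e4, e5, e6, ex, eT, el, et, n2, eh30_val, hb] at this
      have n3 : (uu vs (sub hl eh30)).val [x, T, l, t] =
          NumUs.uu (l - x) (b - h30 x T) := by
        simp only [E.val, hb, eh30_val, e1]
      rw [n3] at this
      exact this
  linarith only [key]

theorem end_1 (hx : 1 / 2 ≤ x) (hx' : x ≤ 6 / 10) (hT : 5 / 1000 ≤ T) (hT' : T ≤ 28 / 1000)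
    (hl : 0 ≤ l) (hl' : l ≤ 1 / 10) (ht : -(45 / 1000) ≤ t) (ht' : t ≤ 59 / 1000) :
    g33 x (-T) < dvG (30 / 100) T (46 / 100) t x (h30 x T) l (10 * (t * l)) 0 0 +
      uu (l - x) (10 * (t * l) - h30 x T) := by
  obtain ⟨m1, m2⟩ := h30_mem (T := T) hx hx' (a := 0) (b := 28 / 1000) (by linarith only [hT]) (by linarith only [hT'])
    (by norm_num) (by norm_num)
  have b1 : -(45 / 1000) ≤ 10 * (t * l) := by nlinarith only [hl', hl, ht]
  have b2 : 10 * (t * l) ≤ 59 / 1000 := by nlinarith only [hl', hl, ht']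
  refine end_row (hl := vE1) ?_ (by rw [abs_le]; constructor <;> linarith only [m2, b1, m1, b2])
    (fun h1 => use4 en_1 (by norm_num) (by
      refine ⟨⟨?_, ?_⟩, ⟨?_, ?_⟩, ⟨?_, ?_⟩, ⟨?_, ?_⟩⟩ <;>
        push_cast <;> linarith only [hx, hx', hT, hT', hl, hl', ht, ht']))
    (fun h1 => use4 en_2 (by norm_num) (by
      refine ⟨⟨?_, ?_⟩, ⟨?_, ?_⟩, ⟨?_, ?_⟩, ⟨?_, ?_⟩⟩ <;>
        push_cast <;> linarith only [hx, hx', hT, hT', hl, hl', ht, ht']))
    (fun h1 h2 => absurd h1 (by linarith only [hx, hl', h1])) (fun h1 => absurd h1 (by linarith only [hx, hl', h1]))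
  have e1 : vl.val [x, T, l, t] = l := rfl
  simp only [vE1, E.val, vt_val, e1]
  norm_num

theorem end_2 (hx : 1 / 2 ≤ x) (hx' : x ≤ 6 / 10) (hT : 5 / 1000 ≤ T) (hT' : T ≤ 28 / 1000)
    (hl : 1 / 10 ≤ l) (hl' : l ≤ 57 / 100) (ht : -(45 / 1000) ≤ t) (ht' : t ≤ 59 / 1000) :
    g33 x (-T) < dvG (30 / 100) T (46 / 100) t x (h30 x T) l t 0 0 + uu (l - x) (t - h30 x T) := by
  obtain ⟨m1, m2⟩ := h30_mem (T := T) hx hx' (a := 0) (b := 28 / 1000) (by linarith only [hT]) (by linarith only [hT'])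
    (by norm_num) (by norm_num)
  exact end_row (hl := vt) rfl (by rw [abs_le]; constructor <;> linarith only [ht, m2, ht', m1])
    (fun h1 => use4 en_3 (by norm_num) (by
      refine ⟨⟨?_, ?_⟩, ⟨?_, ?_⟩, ⟨?_, ?_⟩, ⟨?_, ?_⟩⟩ <;>
        push_cast <;> linarith only [hx, hx', hT, hT', hl, hl', ht, ht']))
    (fun h1 => use4 en_4 (by norm_num) (by
      refine ⟨⟨?_, ?_⟩, ⟨?_, ?_⟩, ⟨?_, ?_⟩, ⟨?_, ?_⟩⟩ <;>
        push_cast <;> linarith only [hx, hx', hT, hT', hl, hl', ht, ht']))
    (fun h1 h2 => use4 en_5 (by norm_num) (by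
      refine ⟨⟨?_, ?_⟩, ⟨?_, ?_⟩, ⟨?_, ?_⟩, ⟨?_, ?_⟩⟩ <;>
        push_cast <;> linarith only [hx, hx', hT, hT', h1, hl', ht, ht']))
    (fun h1 => use4 en_6 (by norm_num) (by
      refine ⟨⟨?_, ?_⟩, ⟨?_, ?_⟩, ⟨?_, ?_⟩, ⟨?_, ?_⟩⟩ <;>
        push_cast <;> linarith only [hx, hx', hT, hT', h1, hl', ht, ht']))

theorem end_3 (hx : 1 / 2 ≤ x) (hx' : x ≤ 6 / 10) (hT : 5 / 1000 ≤ T) (hT' : T ≤ 28 / 1000)
    (hl : 57 / 100 < l) (hl' : l ≤ 77 / 100) (ht : -(45 / 1000) ≤ t) (ht' : t ≤ 59 / 1000) :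
    g33 x (-T) < dvG (30 / 100) T (46 / 100) t x (h30 x T) l (t * (385 / 100 - 5 * l)) 0 0 +
      uu (l - x) (t * (385 / 100 - 5 * l) - h30 x T) := by
  obtain ⟨m1, m2⟩ := h30_mem (T := T) hx hx' (a := 0) (b := 28 / 1000) (by linarith only [hT]) (by linarith only [hT'])
    (by norm_num) (by norm_num)
  have b1 : -(45 / 1000) ≤ t * (385 / 100 - 5 * l) := by nlinarith only [ht, hl, ht', hl']
  have b2 : t * (385 / 100 - 5 * l) ≤ 59 / 1000 := by nlinarith only [hl, hl', ht']
  refine end_row (hl := vE3) ?_ (by rw [abs_le]; constructor <;> linarith only [m2, b1, m1, b2])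
    (fun h1 => absurd h1 (by linarith only [hx', hl, h1])) (fun h1 => absurd h1 (by linarith only [hx', hl, h1]))
    (fun h1 h2 => use4 en_7 (by norm_num) (by
      refine ⟨⟨?_, ?_⟩, ⟨?_, ?_⟩, ⟨?_, ?_⟩, ⟨?_, ?_⟩⟩ <;>
        push_cast <;> linarith only [hl, h2, hx', hT, hT', ht, ht']))
    (fun h1 => use4 en_8 (by norm_num) (by
      refine ⟨⟨?_, ?_⟩, ⟨?_, ?_⟩, ⟨?_, ?_⟩, ⟨?_, ?_⟩⟩ <;>
        push_cast <;> linarith only [hx, hx', hT, hT', hl, hl', ht, ht']))
  have e1 : vl.val [x, T, l, t] = l := rfl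
  simp only [vE3, E.val, vt_val, e1]
  norm_num

/-- the side `S2` of an inner digit `3`, `c = .30` -/
theorem other3 (hx : 1 / 2 ≤ x) (hx' : x ≤ 6 / 10) (hT : -(22 / 1000) ≤ T) (hT' : T ≤ 22 / 1000)
    (hl : 0 ≤ k) (hl' : k ≤ 8 / 10) (ht : -(116 / 1000) ≤ h) (ht' : h ≤ 5 / 1000) :
    g33 x (-T) < dvO (30 / 100) T x (h30 x T) k h +
      (uu (30 / 100 + k) (T + h) - uu (x + k) (h30 x T + h)) := by
  obtain ⟨m1, m2⟩ := h30_mem (T := T) hx hx' (a := 22 / 1000) (b := 22 / 1000) (by linarith only [hT])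
    (by linarith only [hT']) (by norm_num) (by norm_num)
  have e0 : (q 30 100).val [x, T, k, h] = 30 / 100 := by norm_num [E.val]
  have := other_row (c := q 30 100) (hc := vT) (hx := eh30) (g := fg33) (es := [])
    (xs := [x, T, k, h]) (cc := 30 / 100) (k := k) (hk := h) (x := x) rfl rfl rfl e0
    (by rw [eh30_val, abs_le]; constructor <;> linarith only [ht, m1, ht', m2])
    (fun _ => by rw [vT_val, abs_le]; constructor <;> linarith only [hT, ht, hT', ht'])
    (fun h1 => use4 o3_1 (by norm_num) (by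
      refine ⟨⟨?_, ?_⟩, ⟨?_, ?_⟩, ⟨?_, ?_⟩, ⟨?_, ?_⟩⟩ <;>
        push_cast <;> linarith only [hx, hx', hT, hT', hl, h1, ht, ht']))
    (fun h1 h2 => use4 o3_2 (by norm_num) (by
      refine ⟨⟨?_, ?_⟩, ⟨?_, ?_⟩, ⟨?_, ?_⟩, ⟨?_, ?_⟩⟩ <;>
        push_cast <;> linarith only [hx, hx', hT, hT', h1, h2, ht, ht']))
    (fun h1 h2 => use4 o3_3 (by norm_num) (by
      refine ⟨⟨?_, ?_⟩, ⟨?_, ?_⟩, ⟨?_, ?_⟩, ⟨?_, ?_⟩⟩ <;>
        push_cast <;> linarith only [hx, hx', hT, hT', h1, h2, ht, ht']))
    (fun h1 h2 => use4 o3_4 (by norm_num) (by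
      refine ⟨⟨?_, ?_⟩, ⟨?_, ?_⟩, ⟨?_, ?_⟩, ⟨?_, ?_⟩⟩ <;>
        push_cast <;> linarith only [hx, hx', hT, hT', h1, h2, ht, ht']))
    (fun h1 h2 => use4 o3_5 (by norm_num) (by
      refine ⟨⟨?_, ?_⟩, ⟨?_, ?_⟩, ⟨?_, ?_⟩, ⟨?_, ?_⟩⟩ <;>
        push_cast <;> linarith only [hx, hx', hT, hT', h1, h2, ht, ht']))
    (fun h1 h2 => use4 o3_6 (by norm_num) (by
      refine ⟨⟨?_, ?_⟩, ⟨?_, ?_⟩, ⟨?_, ?_⟩, ⟨?_, ?_⟩⟩ <;>
        push_cast <;> linarith only [hx, hx', hT, hT', h1, h2, ht, ht']))
    (fun h1 => use4 o3_7 (by norm_num) (by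
      refine ⟨⟨?_, ?_⟩, ⟨?_, ?_⟩, ⟨?_, ?_⟩, ⟨?_, ?_⟩⟩ <;>
        push_cast <;> linarith only [hx, hx', hT, hT', h1, hl', ht, ht']))
    (fun h1 => use4 o3_8 (by norm_num) (by
      refine ⟨⟨?_, ?_⟩, ⟨?_, ?_⟩, ⟨?_, ?_⟩, ⟨?_, ?_⟩⟩ <;>
        push_cast <;> linarith only [hx, hx', hT, hT', h1, hl', ht, ht']))
    all_nil
  rw [eh30_val, fg33_val, vT_val] at this
  exact this

end V2A

end Pool.Agent.Work.MP_b30479_gtS.G2
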