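import Pool.Agent.Work.MP_b30479_gt.TBS.G2.V2Base
import Pool.Agent.Work.MP_b30479_gt.TBS.NumU.Tree

/-!
# Part of `V2R2`
-/
set_option deprecated.oldSectionVars true

namespace Pool.Agent.Work.MP_b30479_gtS.G2

open VOL NumUs

namespace V2A

open NumUs.E

section
open NumIs (V)

theorem m2_1 : chkT (R1 (q 27 100) vT eh27 vt eg27 []) 60
    817183341678606800381661314006794524974017845225591346
    [V.of 1000 500 600, V.of 1000 (-57) 5, V.of 1000 320 500, V.of 1000 (-114) 5] = true := by
  decide +kernel

theorem m2_2 : chkT (R2 (q 27 100) vT eh27 vt eg27 []) 60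
    40299803882955395334803
    [V.of 1000 500 600, V.of 1000 (-57) 5, V.of 1000 320 500, V.of 1000 (-114) 5] = true := by
  decide +kernel

theorem m2_3 : chkT (R3 (q 27 100) vT eh27 vt eg27 []) 60
    2179
    [V.of 1000 500 600, V.of 1000 (-57) 5, V.of 1000 470 500, V.of 1000 (-114) 5] = true := by
  decide +kernel

theorem r2_1 : chkT (R1 (q 41 100) ehc41 eh27 vt eg41 [sub (q (-105) 1000) (sub vt vT)]) 60
    32670234386061605625037336510252340307252500695212168792183167550796462077217392755288747125130950380476605605580381092136455655341282051849151837243361428145602367717891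
    [V.of 1000 500 600, V.of 1000 (-57) 5, V.of 1000 500 570, V.of 1000 (-114) 5] = true := by
  decide +kernel

theorem r2_2 : chkT (R2 (q 41 100) ehc41 eh27 vt eg41 [sub (q (-105) 1000) (sub vt vT)]) 60
    3509756759659006033136688249957961206578535905763421224918094739
    [V.of 1000 500 600, V.of 1000 (-57) 5, V.of 1000 500 570, V.of 1000 (-114) 5] = true := by
  decide +kernel

theorem r2_3 : chkT (R3 (q 41 100) ehc41 eh27 vt eg41 [sub (q (-105) 1000) (sub vt vT)]) 60
    9356723126323
    [V.of 1000 500 600, V.of 1000 (-57) 5, V.of 1000 500 630, V.of 1000 (-114) 5] = true := by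
  decide +kernel

end

end V2A

end Pool.Agent.Work.MP_b30479_gtS.G2
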