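import Pool.Agent.Work.MP_b30479_gt.TBS.G2.V2Base
import Pool.Agent.Work.MP_b30479_gt.TBS.G2.V2O2E_1
import Pool.Agent.Work.MP_b30479_gt.TBS.G2.V2Wp2
import Pool.Agent.Work.MP_b30479_gt.TBS.G2.V2Wp7
import Pool.Agent.Work.MP_b30479_gt.TBS.G2.DZ1
import Pool.Agent.Work.MP_b30479_gt.TBS.G2.V2Wp16
import Pool.Agent.Work.MP_b30479_gt.TBS.NumU.Tree
import Pool.Agent.Work.MP_b30479_gt.TBS.G2.V2Wp9

section

/-!
# Value moves of an inner digit `3`: general lemmas, the digit on the left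
-/

namespace Pool.Agent.Work.MP_b30479_gtS.G2

open VOL NumUs

namespace V2A

open NumUs.E

variable {x T l h t k κ : ℝ}

theorem h30_mem' {a b : ℝ} (hx : 38 / 100 ≤ x) (hx' : x ≤ 1 / 2) (hT : -a ≤ T) (hT' : T ≤ b)
    (ha : 0 ≤ a) (hb : 0 ≤ b) : -a ≤ h30 x T ∧ h30 x T ≤ b := by
  unfold h30
  constructor <;> nlinarith

theorem h27_mem' {a b : ℝ} (hx : 38 / 100 ≤ x) (hx' : x ≤ 1 / 2) (hT : -a ≤ T) (hT' : T ≤ b)
    (ha : 0 ≤ a) (hb : 0 ≤ b) : -a ≤ h27 x T ∧ h27 x T ≤ b := by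
  unfold h27
  constructor <;> nlinarith

theorem other_row' {c hc hx g : E} {es : List E} {xs : List ℝ} {cc k hk : ℝ}
    (hv : vl.val xs = k) (hx0 : vx.val xs = x) (ht : vt.val xs = hk)
    (hcc : c.val xs = cc) (hy : 97 / 100 ≤ x + k → |hk + hx.val xs| ≤ 14 / 100)
    (hy' : 97 / 100 ≤ cc + k → |hk + hc.val xs| ≤ 14 / 100)
    (k1 : x + k ≤ 97 / 100 → ∃ e ∈ O1 c hc hx g es, 0 < e.val xs)
    (k2 : 97 / 100 ≤ x + k → x + k ≤ 103 / 100 → ∃ e ∈ O2 c hc hx g es, 0 < e.val xs)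
    (k3 : 103 / 100 ≤ x + k → cc + k ≤ 97 / 100 → ∃ e ∈ O3 c hc hx g es, 0 < e.val xs)
    (k4 : 103 / 100 ≤ x + k → cc + k ≤ 97 / 100 → ∃ e ∈ O4 c hc hx g es, 0 < e.val xs)
    (k5 : 97 / 100 ≤ cc + k → cc + k ≤ 103 / 100 → ∃ e ∈ O5 c hc hx g es, 0 < e.val xs)
    (k6 : 97 / 100 ≤ cc + k → cc + k ≤ 103 / 100 → ∃ e ∈ O6 c hc hx g es, 0 < e.val xs)
    (k7 : 103 / 100 ≤ cc + k → ∃ e ∈ O7 c hc hx g es, 0 < e.val xs)
    (k8 : 103 / 100 ≤ cc + k → ∃ e ∈ O8 c hc hx g es, 0 < e.val xs)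
    (hes : ∀ e ∈ es, e.val xs ≤ 0) :
    g.val xs < dvO cc (hc.val xs) x (hx.val xs) k hk +
      (NumUs.uu (cc + k) (hc.val xs + hk) - NumUs.uu (x + k) (hx.val xs + hk)) := by
  rcases le_total (97 / 100) (x + k) with h | h
  · exact other_row hv hx0 ht hcc (hy h) hy' k1 k2 k3 k4 k5 k6 k7 k8 hes
  · have e1 : vk.val xs = x + k := by
      simp only [vk, E.val, hv, hx0]
    have e3 : ((97 : ℤ) : ℝ) / ((100 : ℕ) : ℝ) = 97 / 100 := by norm_num
    have := of_list (k1 h) (all_cons (by simp only [E.val, e1, e3]; linarith only [h]) hes)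
    rw [FOe_val] at this
    simp only [E.val, hv, hx0, ht, hcc, e1] at this
    rw [add_comm (hc.val xs) hk, add_comm (hx.val xs) hk]
    linarith only [this]

theorem end_row' {hl : E} {b : ℝ} (hb : hl.val [x, T, l, t] = b)
    (hy : |b - h30 x T| ≤ 13 / 100)
    (k1 : l - x ≤ -(3 / 100) → ∃ e ∈ M1 hl, 0 < e.val [x, T, l, t])
    (k2 : l - x ≤ -(3 / 100) → ∃ e ∈ M2 hl, 0 < e.val [x, T, l, t])
    (k3 : -(3 / 100) ≤ l - x → l - x ≤ 3 / 100 → ∃ e ∈ M3 hl, 0 < e.val [x, T, l, t])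
    (k4 : 3 / 100 ≤ l - x → ∃ e ∈ M4 hl, 0 < e.val [x, T, l, t]) :
    2 / 100 < dvG (27 / 100) T (42 / 100) t x (h30 x T) l b 0 0 + uu (l - x) (b - h30 x T) := by
  have e1 : vs.val [x, T, l, t] = l - x := rfl
  have e2 : (q 3 100).val [x, T, l, t] = 3 / 100 := by norm_num [E.val]
  have e3 : (q (-3) 100).val [x, T, l, t] = -(3 / 100) := by norm_num [E.val]
  have e4 : (q 27 100).val [x, T, l, t] = 27 / 100 := by norm_num [E.val]
  have e5 : (q 42 100).val [x, T, l, t] = 42 / 100 := by norm_num [E.val]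
  have e6 : (q 0 1).val [x, T, l, t] = 0 := by norm_num [E.val]
  have ex : vx.val [x, T, l, t] = x := rfl
  have eT : vT.val [x, T, l, t] = T := rfl
  have el : vl.val [x, T, l, t] = l := rfl
  have et : vt.val [x, T, l, t] = t := rfl
  have n1 : (sub hl eh30).val [x, T, l, t] = b - h30 x T := by
    simp only [E.val, hb, eh30_val]
  have n2 : (q (-2) 100).val [x, T, l, t] = -(2 / 100) := by norm_num [E.val]
  have key : 0 < (dvG (27 / 100) T (42 / 100) t x (h30 x T) l b 0 0 + -(2 / 100)) +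
      uu (l - x) (b - h30 x T) := by
    refine split_uu hy ?_ ?_ ?_ ?_
    · intro h1 h2
      have := of_list (k1 h1) (all_cons (by rw [n1]; exact h2)
        (all_cons (by simp only [E.val, e1] at e2 ⊢; rw [e2]; linarith only [h1]) all_nil))
      rw [FGe_val, aN_val, e1, e4, e5, e6, ex, eT, el, et, n1, n2, eh30_val, hb] at this
      exact this
    · intro h1 h2
      have := of_list (k2 h1) (all_cons (by simp only [E.val, hb, eh30_val]; linarith only [h2])
        (all_cons (by simp only [E.val, e1] at e2 ⊢; rw [e2]; linarith only [h1]) all_nil))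
      rw [FGe_val, aP_val, e1, e4, e5, e6, ex, eT, el, et, n1, n2, eh30_val, hb] at this
      exact this
    · intro h1 h2
      have := of_list (k3 h1 h2) (all_cons (by simp only [E.val, e1] at e2 ⊢; rw [e2]; linarith only [h2])
        (all_cons (by simp only [E.val, e1] at e3 ⊢; rw [e3]; linarith only [h1]) all_nil))
      rw [FGe_val, e4, e5, e6, ex, eT, el, et, n2, eh30_val, hb] at this
      have n3 : (uu (q 3 100) (sub hl eh30)).val [x, T, l, t] =
          NumUs.uu (3 / 100) (b - h30 x T) := by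
        simp only [E.val, hb, eh30_val] at e2 ⊢
        rw [e2]
      rw [n3] at this
      exact this
    · intro h1
      have := of_list (k4 h1) (all_cons (by simp only [E.val, e1] at e2 ⊢; rw [e2]; linarith only [h1])
        all_nil)
      rw [FGe_val, e4, e5, e6, ex, eT, el, et, n2, eh30_val, hb] at this
      have n3 : (uu vs (sub hl eh30)).val [x, T, l, t] =
          NumUs.uu (l - x) (b - h30 x T) := by
        simp only [E.val, hb, eh30_val, e1]
      rw [n3] at this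
      exact this
  linarith only [key]

end V2A

end Pool.Agent.Work.MP_b30479_gtS.G2

end

section

/-!
# Value moves of the hinge on the side `S3` of an inner digit `3`: `wend_1`, `wend_2`, `wend_3`, `wo2e`
-/

namespace Pool.Agent.Work.MP_b30479_gtS.G2

open VOL NumUs

namespace V2A

open NumUs.E

section
open NumIs (V)

theorem wen_6 : chkT (M4 vt) 60
    91434519144759811902657347741452922557874468656351697220568370204824174773737670165522066494196905358672448939707097432535491989184283401941051973541748580284603637812110281708849710980156384360782036178739604585129470546743825260279535059936498242834092262030195393574179910191183532774582146054497026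
    [V.of 1000 380 500, V.of 1000 5 28, V.of 1000 410 570, V.of 1000 (-45) 59] = true :=
  chkT_of (r := 0) (runT_split rfl rfl rfl
    wen_6_p1
    wen_6_p2)

end

variable {x T l h t k κ : ℝ}

theorem wend_1 (hx : 38 / 100 ≤ x) (hx' : x ≤ 1 / 2) (hT : 5 / 1000 ≤ T) (hT' : T ≤ 28 / 1000)
    (hl : 0 ≤ l) (hl' : l ≤ 1 / 10) (ht : -(45 / 1000) ≤ t) (ht' : t ≤ 59 / 1000) :
    2 / 100 < dvG (27 / 100) T (42 / 100) t x (h30 x T) l (10 * (t * l)) 0 0 +
      uu (l - x) (10 * (t * l) - h30 x T) := by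
  obtain ⟨m1, m2⟩ := h30_mem' (T := T) hx hx' (a := 0) (b := 28 / 1000) (by linarith only [hT]) (by linarith only [hT'])
    (by norm_num) (by norm_num)
  have b1 : -(45 / 1000) ≤ 10 * (t * l) := by nlinarith only [hl', hl, ht]
  have b2 : 10 * (t * l) ≤ 59 / 1000 := by nlinarith only [hl', hl, ht']
  refine end_row' (hl := wE1) ?_ (by rw [abs_le]; constructor <;> linarith)
    (fun h1 => use4 wen_1 (by norm_num) (by
      refine ⟨⟨?_, ?_⟩, ⟨?_, ?_⟩, ⟨?_, ?_⟩, ⟨?_, ?_⟩⟩ <;>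
        push_cast <;> linarith))
    (fun h1 => use4 wen_2 (by norm_num) (by
      refine ⟨⟨?_, ?_⟩, ⟨?_, ?_⟩, ⟨?_, ?_⟩, ⟨?_, ?_⟩⟩ <;>
        push_cast <;> linarith))
    (fun h1 h2 => absurd h1 (by linarith only [hx, hl', h1])) (fun h1 => absurd h1 (by linarith only [hx, hl', h1]))
  have e1 : vl.val [x, T, l, t] = l := rfl
  simp only [wE1, E.val, vt_val, e1]
  norm_num

theorem wend_2 (hx : 38 / 100 ≤ x) (hx' : x ≤ 1 / 2) (hT : 5 / 1000 ≤ T) (hT' : T ≤ 28 / 1000)
    (hl : 1 / 10 ≤ l) (hl' : l ≤ 57 / 100) (ht : -(45 / 1000) ≤ t) (ht' : t ≤ 59 / 1000) :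
    2 / 100 < dvG (27 / 100) T (42 / 100) t x (h30 x T) l t 0 0 + uu (l - x) (t - h30 x T) := by
  obtain ⟨m1, m2⟩ := h30_mem' (T := T) hx hx' (a := 0) (b := 28 / 1000) (by linarith only [hT]) (by linarith only [hT'])
    (by norm_num) (by norm_num)
  exact end_row' (hl := vt) rfl (by rw [abs_le]; constructor <;> linarith)
    (fun h1 => use4 wen_3 (by norm_num) (by
      refine ⟨⟨?_, ?_⟩, ⟨?_, ?_⟩, ⟨?_, ?_⟩, ⟨?_, ?_⟩⟩ <;>
        push_cast <;> linarith))
    (fun h1 => use4 wen_4 (by norm_num) (by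
      refine ⟨⟨?_, ?_⟩, ⟨?_, ?_⟩, ⟨?_, ?_⟩, ⟨?_, ?_⟩⟩ <;>
        push_cast <;> linarith))
    (fun h1 h2 => use4 wen_5 (by norm_num) (by
      refine ⟨⟨?_, ?_⟩, ⟨?_, ?_⟩, ⟨?_, ?_⟩, ⟨?_, ?_⟩⟩ <;>
        push_cast <;> linarith))
    (fun h1 => use4 wen_6 (by norm_num) (by
      refine ⟨⟨?_, ?_⟩, ⟨?_, ?_⟩, ⟨?_, ?_⟩, ⟨?_, ?_⟩⟩ <;>
        push_cast <;> linarith))

theorem wend_3 (hx : 38 / 100 ≤ x) (hx' : x ≤ 1 / 2) (hT : 5 / 1000 ≤ T) (hT' : T ≤ 28 / 1000)
    (hl : 57 / 100 < l) (hl' : l ≤ 77 / 100) (ht : -(45 / 1000) ≤ t) (ht' : t ≤ 59 / 1000) :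
    2 / 100 < dvG (27 / 100) T (42 / 100) t x (h30 x T) l (t * (385 / 100 - 5 * l)) 0 0 +
      uu (l - x) (t * (385 / 100 - 5 * l) - h30 x T) := by
  obtain ⟨m1, m2⟩ := h30_mem' (T := T) hx hx' (a := 0) (b := 28 / 1000) (by linarith only [hT]) (by linarith only [hT'])
    (by norm_num) (by norm_num)
  have b1 : -(45 / 1000) ≤ t * (385 / 100 - 5 * l) := by nlinarith only [ht, hl, ht', hl']
  have b2 : t * (385 / 100 - 5 * l) ≤ 59 / 1000 := by nlinarith only [hl, hl', ht']
  refine end_row' (hl := wE3) ?_ (by rw [abs_le]; constructor <;> linarith)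
    (fun h1 => absurd h1 (by linarith only [hx', hl, h1])) (fun h1 => absurd h1 (by linarith only [hx', hl, h1]))
    (fun h1 h2 => absurd h2 (by linarith only [hx', hl, h2]))
    (fun h1 => use4 wen_8 (by norm_num) (by
      refine ⟨⟨?_, ?_⟩, ⟨?_, ?_⟩, ⟨?_, ?_⟩, ⟨?_, ?_⟩⟩ <;>
        push_cast <;> linarith))
  have e1 : vl.val [x, T, l, t] = l := rfl
  simp only [wE3, E.val, vt_val, e1]
  norm_num

/-- an end with two crossings -/
theorem wo2e (hx : 38 / 100 ≤ x) (hx' : x ≤ 1 / 2) (hT : -(98 / 1000) ≤ T)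
    (hT' : T ≤ -(76 / 1000)) : 0 < g2e x T := by
  have key : ∃ e ∈ [eg2e], 0 < e.val [x, T, 0, 0] :=
    use4 wo2e_1 (by norm_num) (by
      refine ⟨⟨?_, ?_⟩, ⟨?_, ?_⟩, ⟨?_, ?_⟩, ⟨?_, ?_⟩⟩ <;>
        push_cast <;> linarith)
  have := of_list key all_nil
  rw [eg2e_val] at this
  exact this

end V2A

end Pool.Agent.Work.MP_b30479_gtS.G2

end

section

/-!
# Value moves of the hinge on the side `S3` of an inner digit `3`: `wo3`
-/

namespace Pool.Agent.Work.MP_b30479_gtS.G2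

open VOL NumUs

namespace V2A

open NumUs.E

section
open NumIs (V)

theorem wo3_1 : chkT (O1 (q 27 100) vT eh30 (q 2 100) []) 60
    709945704449826842770206902344977048041862911190354179861403473945451504496384403112427134915995701150058171263186028990592010731606424607081720232824154553779614729457790195089918826546788451685677849151258540037593864750864566351343644180260148751691351639677600148901545949394800780090945921551749990923173384420188627750708693982641643814721460275253301727410750894114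
    [V.of 1000 380 500, V.of 1000 (-22) 22, V.of 1000 0 590, V.of 1000 (-116) 5] = true :=
  chkT_of (r := 0) (runT_split rfl rfl rfl
    wo3_1_p1
    (runT_split rfl rfl rfl
    wo3_1_p2
    (runT_split rfl rfl rfl
    wo3_1_p3
    wo3_1_p4)))

end

variable {x T l h t k κ : ℝ}

theorem wo3 (hx : 38 / 100 ≤ x) (hx' : x ≤ 1 / 2) (hT : -(22 / 1000) ≤ T) (hT' : T ≤ 22 / 1000)
    (hl : 0 ≤ k) (hl' : k ≤ 8 / 10) (ht : -(116 / 1000) ≤ h) (ht' : h ≤ 5 / 1000) :
    2 / 100 < dvO (27 / 100) T x (h30 x T) k h +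
      (NumUs.uu (27 / 100 + k) (T + h) - NumUs.uu (x + k) (h30 x T + h)) := by
  obtain ⟨m1, m2⟩ := h30_mem' (T := T) hx hx' (a := 22 / 1000) (b := 22 / 1000) (by linarith only [hT])
    (by linarith only [hT']) (by norm_num) (by norm_num)
  have e0 : (q 27 100).val [x, T, k, h] = 27 / 100 := by norm_num [E.val]
  have := other_row' (c := q 27 100) (hc := vT) (hx := eh30) (g := q 2 100) (es := [])
    (xs := [x, T, k, h]) (cc := 27 / 100) (k := k) (hk := h) (x := x) rfl rfl rfl e0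
    (fun h0 => by
      rw [eh30_val, abs_le]; constructor <;> linarith)
    (fun h0 => by
      rw [vT_val, abs_le]; constructor <;> linarith)
    (fun h1 => use4 wo3_1 (by norm_num) (by
      refine ⟨⟨?_, ?_⟩, ⟨?_, ?_⟩, ⟨?_, ?_⟩, ⟨?_, ?_⟩⟩ <;>
        push_cast <;> linarith))
    (fun h1 h2 => use4 wo3_2 (by norm_num) (by
      refine ⟨⟨?_, ?_⟩, ⟨?_, ?_⟩, ⟨?_, ?_⟩, ⟨?_, ?_⟩⟩ <;>
        push_cast <;> linarith))
    (fun h1 h2 => use4 wo3_3 (by norm_num) (by
      refine ⟨⟨?_, ?_⟩, ⟨?_, ?_⟩, ⟨?_, ?_⟩, ⟨?_, ?_⟩⟩ <;>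
        push_cast <;> linarith))
    (fun h1 h2 => use4 wo3_4 (by norm_num) (by
      refine ⟨⟨?_, ?_⟩, ⟨?_, ?_⟩, ⟨?_, ?_⟩, ⟨?_, ?_⟩⟩ <;>
        push_cast <;> linarith))
    (fun h1 h2 => use4 wo3_5 (by norm_num) (by
      refine ⟨⟨?_, ?_⟩, ⟨?_, ?_⟩, ⟨?_, ?_⟩, ⟨?_, ?_⟩⟩ <;>
        push_cast <;> linarith))
    (fun h1 h2 => use4 wo3_6 (by norm_num) (by
      refine ⟨⟨?_, ?_⟩, ⟨?_, ?_⟩, ⟨?_, ?_⟩, ⟨?_, ?_⟩⟩ <;>
        push_cast <;> linarith))
    (fun h1 => use4 wo3_7 (by norm_num) (by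
      refine ⟨⟨?_, ?_⟩, ⟨?_, ?_⟩, ⟨?_, ?_⟩, ⟨?_, ?_⟩⟩ <;>
        push_cast <;> linarith))
    (fun h1 => use4 wo3_8 (by norm_num) (by
      refine ⟨⟨?_, ?_⟩, ⟨?_, ?_⟩, ⟨?_, ?_⟩, ⟨?_, ?_⟩⟩ <;>
        push_cast <;> linarith))
    all_nil
  have e9 : (q 2 100).val [x, T, k, h] = 2 / 100 := by norm_num [E.val]
  rw [eh30_val, e9, vT_val] at this
  exact this

end V2A

end Pool.Agent.Work.MP_b30479_gtS.G2

end

section

/-!
# Value moves of the hinge on the side `S3` of an inner digit `3`: `wo2`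
-/

namespace Pool.Agent.Work.MP_b30479_gtS.G2

open VOL NumUs

namespace V2A

open NumUs.E

section
open NumIs (V)

theorem wo2_1 : chkT (O1 (q 27 100) vT eh27 (q (-2) 100) []) 60
    12652233697001690906193774990258361903924895483273762283616740701276105364483732111127488237377759725627658303547203543400551416784315400967698265812207651551287649365149568465881341941961106092546051539506244679792518075261066415961301287144614176747283415828410985071097403971404799802209819187937938729491565735599714213516747430732767909306177858058366320975322418269968059448878681668956510045419184329409599693479705559585223312519864973753828363760096234511604974031317950683882580977664695068535176310740330242731519357598649184898352375212301876010168354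
    [V.of 10000 3800 5000, V.of 10000 (-50) 570, V.of 10000 1250 5900, V.of 10000 (-985) 960] = true :=
  chkT_of (r := 0) (runT_split rfl rfl rfl
    wo2_1_p1
    (runT_split rfl rfl rfl
    wo2_1_p2
    (runT_split rfl rfl rfl
    wo2_1_p3
    wo2_1_p4)))

theorem wo2_3 : chkT (O3 (q 27 100) vT eh27 (q (-2) 100) []) 60
    46527003716334326836961926271590724160223719206785266534643927633824933107123832050532180307066538741957335669774494539754777886561845510080987534646131730364610084654229629029979463896171343957113459297642870241893014887078916534205337536620697513892790488456173530258034107759667740226416283395826231428439021166012590097437819513905464077653419653700499411581139422424997923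
    [V.of 10000 3800 5000, V.of 10000 (-50) 570, V.of 10000 5300 7000, V.of 10000 (-985) 960] = true :=
  chkT_of (r := 0) (runT_split rfl rfl rfl
    (runT_split rfl rfl rfl
    wo2_3_p1
    wo2_3_p2)
    wo2_3_p3)

theorem wo2_4 : chkT (O4 (q 27 100) vT eh27 (q (-2) 100) []) 60
    235568500892904399710104816441381308560491084157876061490109800586521130073799341307883720929391646236509496416815824428482666719097052272480301970689487526867664562690428870085335879296848587899625179151194696085576084238141877113928322955071051338503361930306490975196423686062174329874499752637158302989638859460065296039343525700819023663572635929351561202669962627025664550817370355918018421093136914063175252118087987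
    [V.of 10000 3800 5000, V.of 10000 (-50) 570, V.of 10000 5300 7000, V.of 10000 (-985) 960] = true :=
  chkT_of (r := 0) (runT_split rfl rfl rfl
    wo2_4_p1
    (runT_split rfl rfl rfl
    wo2_4_p2
    wo2_4_p3))

end

variable {x T l h t k κ : ℝ}

theorem wo2 (hx : 38 / 100 ≤ x) (hx' : x ≤ 1 / 2) (hT : -(5 / 1000) ≤ T) (hT' : T ≤ 57 / 1000)
    (hl : 125 / 1000 ≤ k) (hl' : k ≤ 8 / 10) (ht : -(985 / 10000) ≤ h) (ht' : h ≤ 960 / 10000)
    (hr : 56 / 100 ≤ k → -(82 / 1000) ≤ h ∧ h ≤ 15 / 1000)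
    (hr' : 47 / 100 ≤ k → h ≤ 5 / 100) :
    -(2 / 100) < dvO (27 / 100) T x (h27 x T) k h +
      (NumUs.uu (27 / 100 + k) (T + h) - NumUs.uu (x + k) (h27 x T + h)) := by
  obtain ⟨m1, m2⟩ := h27_mem' (T := T) hx hx' (a := 5 / 1000) (b := 57 / 1000) (by linarith only [hT])
    (by linarith only [hT']) (by norm_num) (by norm_num)
  have e0 : (q 27 100).val [x, T, k, h] = 27 / 100 := by norm_num [E.val]
  have := other_row' (c := q 27 100) (hc := vT) (hx := eh27) (g := q (-2) 100) (es := [])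
    (xs := [x, T, k, h]) (cc := 27 / 100) (k := k) (hk := h) (x := x) rfl rfl rfl e0
    (fun h0 => by
      have := hr' (by linarith only [hx', h0])
      rw [eh27_val, abs_le]; constructor <;> linarith)
    (fun h0 => by
      obtain ⟨b1, b2⟩ := hr (by linarith only [h0])
      rw [vT_val, abs_le]; constructor <;> linarith)
    (fun h1 => use4 wo2_1 (by norm_num) (by
      refine ⟨⟨?_, ?_⟩, ⟨?_, ?_⟩, ⟨?_, ?_⟩, ⟨?_, ?_⟩⟩ <;>
        push_cast <;> linarith))
    (fun h1 h2 => use4 wo2_2 (by norm_num) (by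
      refine ⟨⟨?_, ?_⟩, ⟨?_, ?_⟩, ⟨?_, ?_⟩, ⟨?_, ?_⟩⟩ <;>
        push_cast <;> linarith))
    (fun h1 h2 => use4 wo2_3 (by norm_num) (by
      refine ⟨⟨?_, ?_⟩, ⟨?_, ?_⟩, ⟨?_, ?_⟩, ⟨?_, ?_⟩⟩ <;>
        push_cast <;> linarith))
    (fun h1 h2 => use4 wo2_4 (by norm_num) (by
      refine ⟨⟨?_, ?_⟩, ⟨?_, ?_⟩, ⟨?_, ?_⟩, ⟨?_, ?_⟩⟩ <;>
        push_cast <;> linarith))
    (fun h1 h2 => use4 wo2_5 (by norm_num) (by
      refine ⟨⟨?_, ?_⟩, ⟨?_, ?_⟩, ⟨?_, ?_⟩, ⟨?_, ?_⟩⟩ <;>
        push_cast <;> linarith))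
    (fun h1 h2 => use4 wo2_6 (by norm_num) (by
      refine ⟨⟨?_, ?_⟩, ⟨?_, ?_⟩, ⟨?_, ?_⟩, ⟨?_, ?_⟩⟩ <;>
        push_cast <;> linarith))
    (fun h1 => use4 wo2_7 (by norm_num) (by
      refine ⟨⟨?_, ?_⟩, ⟨?_, ?_⟩, ⟨?_, ?_⟩, ⟨?_, ?_⟩⟩ <;>
        push_cast <;> linarith))
    (fun h1 => use4 wo2_8 (by norm_num) (by
      refine ⟨⟨?_, ?_⟩, ⟨?_, ?_⟩, ⟨?_, ?_⟩, ⟨?_, ?_⟩⟩ <;>
        push_cast <;> linarith))
    all_nil
  have e9 : (q (-2) 100).val [x, T, k, h] = -(2 / 100) := by norm_num [E.val]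
  rw [eh27_val, e9, vT_val] at this
  exact this

end V2A

end Pool.Agent.Work.MP_b30479_gtS.G2

end

section

/-!
# Value moves of the hinge on the side `S3` of an inner digit `3`: `wo2'`
-/

namespace Pool.Agent.Work.MP_b30479_gtS.G2

open VOL NumUs

namespace V2A

open NumUs.E

variable {x T l h t k κ : ℝ}

theorem wo2' (hx : 38 / 100 ≤ x) (hx' : x ≤ 1 / 2) (hT : -(5 / 1000) ≤ T) (hT' : T ≤ 57 / 1000)
    (hl : 0 ≤ k) (hl' : k ≤ 125 / 1000) (ht : -(850 / 1000) ≤ κ) (ht' : κ ≤ 770 / 1000) :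
    -(2 / 100) < dvO (27 / 100) T x (h27 x T) k (κ * k) +
      (NumUs.uu (27 / 100 + k) (T + κ * k) - NumUs.uu (x + k) (h27 x T + κ * k)) := by
  have key : ∃ e ∈ OW (q 27 100) vT eh27 (q (-2) 100), 0 < e.val [x, T, k, κ] :=
    use4 wo2_0 (by norm_num) (by
      refine ⟨⟨?_, ?_⟩, ⟨?_, ?_⟩, ⟨?_, ?_⟩, ⟨?_, ?_⟩⟩ <;>
        push_cast <;> linarith)
  have := of_list key all_nil
  rw [FOe_val] at this
  have e0 : (q 27 100).val [x, T, k, κ] = 27 / 100 := by norm_num [E.val]
  have e9 : (q (-2) 100).val [x, T, k, κ] = -(2 / 100) := by norm_num [E.val]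
  have e1 : wkk.val [x, T, k, κ] = κ * k := rfl
  have e2 : (sub (uu (add (q 27 100) vl) (add wkk vT)) (uu vk (add wkk eh27))).val [x, T, k, κ] =
      NumUs.uu (27 / 100 + k) (κ * k + T) - NumUs.uu (x + k) (κ * k + h27 x T) := by
    have e3 : vl.val [x, T, k, κ] = k := rfl
    have e4 : vk.val [x, T, k, κ] = x + k := rfl
    have e5 := eh27_val (x := x) (T := T) (r := [k, κ])
    have e6 := vT_val (x := x) (T := T) (r := [k, κ])
    simp only [E.val, e1, e3, e4] at e0 e5 e6 ⊢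
    rw [e0, e5, e6]
  rw [e0, e1, e2, eh27_val, e9, vT_val] at this
  have e7 : vl.val [x, T, k, κ] = k := rfl
  have e8 : vx.val [x, T, k, κ] = x := rfl
  rw [e7, e8] at this
  rw [add_comm T (κ * k), add_comm (h27 x T) (κ * k)]
  linarith only [this]

end V2A

end Pool.Agent.Work.MP_b30479_gtS.G2

end

section

/-!
# Value moves of the hinge on the side `S3` of an inner digit `3`, `x ≤ 1/2`: the digit on the left
-/

end
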