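import Pool.Agent.Work.MP_b30479_gt.TBS.G2.V3MidC
import Pool.Agent.Work.MP_b30479_gt.TBS.G2.WValD

section

/-!
# Value row of the inner variable of an inner digit `3`: the left ramp

The inner variable `v = r + 20 t r i` (`0 ≤ r ≤ 5/100`) is moved to `v' = c + t i`,
`c = 48/100` if the neighbour on the side `S3` is a `1` (`mid_left_11`, `mid_left_1N`),
`c = 38/100` otherwise
(`mid_left_N1`, `mid_left_NN`).
-/

namespace Pool.Agent.Work.MP_b30479_gtS.G2

open VOL NumUs

namespace VM

theorem V3_diff {u v v' w : ℂ} {c r t : ℝ} (h1 : v.re = r) (h2 : v.im = 20 * t * r)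
    (h3 : v'.re = c) (h4 : v'.im = t) :
    V3 u v' w - V3 u v w = FA c r t u.re u.im - Real.pi * |20 * t * r - u.im| +
      FB c r t w.re w.im + FC c r t := by
  have e := uu_add_one (r - u.re) (20 * t * r - u.im)
  rw [show r - u.re + 1 = 1 + r - u.re by ring] at e
  have e1 : (2 * u * v' + (v' - w) ^ 2 - v' + w).im =
      2 * (u.re * t + u.im * c) + 2 * (c - w.re) * (t - w.im) - t + w.im := by
    simp only [pow_two, Complex.add_im, Complex.sub_im, Complex.sub_re, Complex.mul_im,
      Complex.mul_re, Complex.re_ofNat, Complex.im_ofNat, h3, h4]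
    ring
  have e2 : (2 * u * v + (v - w) ^ 2 - v + w).im =
      2 * (u.re * (20 * t * r) + u.im * r) + 2 * (r - w.re) * (20 * t * r - w.im) -
        20 * t * r + w.im := by
    simp only [pow_two, Complex.add_im, Complex.sub_im, Complex.sub_re, Complex.mul_im,
      Complex.mul_re, Complex.re_ofNat, Complex.im_ofNat, h1, h2]
    ring
  unfold V3 FA FB FC
  rw [e, e1, e2, UU_uu (v' + w), UU_uu (v' - u), UU_uu v', UU_uu (v + w), UU_uu (v - u), UU_uu v]
  simp only [Complex.add_re, Complex.add_im, Complex.sub_re, Complex.sub_im, h1, h2, h3, h4]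
  ring

variable {u v v' w : ℂ} {r t : ℝ}

theorem mid_left_11 (h1 : v.re = r) (h2 : v.im = 20 * t * r) (h3 : v'.re = 48 / 100)
    (h4 : v'.im = t) (hr : 0 ≤ r) (hr' : r ≤ 5 / 100) (hx : 12 / 100 ≤ u.re)
    (hx' : u.re ≤ 405 / 1000) (hT : -(1145 / 10000) ≤ u.im) (hT' : u.im ≤ -(21 / 1000))
    (hw : 13 / 100 ≤ w.re) (hw' : w.re ≤ 36 / 100) (hS : -(1145 / 10000) ≤ w.im)
    (ht : -(95 / 1000) ≤ t) (ht' : t ≤ -(8 / 1000)) : V3 u v w < V3 u v' w := by
  have h := real_11 (x := u.re) (T := u.im) (w := w.re) (S := w.im) (t := t) (r := r)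
    (by linarith only [hx]) (by linarith only [hx']) hT (by linarith only [hT']) (by linarith only [hw]) (by linarith only [hw']) hS
    (by linarith only [ht]) (by linarith only [ht']) hr hr'
  have e := V3_diff (u := u) (w := w) h1 h2 (h3.trans (by norm_num : _ = (4800 / 10000 : ℝ))) h4
  linarith only [h, e]

theorem mid_left_1N (h1 : v.re = r) (h2 : v.im = 20 * t * r) (h3 : v'.re = 48 / 100)
    (h4 : v'.im = t) (hr : 0 ≤ r) (hr' : r ≤ 5 / 100) (hx : 12 / 100 ≤ u.re)
    (hx' : u.re ≤ 405 / 1000) (hT : -(1145 / 10000) ≤ u.im) (hT' : u.im ≤ -(21 / 1000))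
    (hw : 13 / 100 ≤ w.re) (hw' : w.re ≤ 31 / 100) (hS : -(98 / 1000) ≤ w.im)
    (ht : -(92 / 1000) ≤ t) (ht' : t ≤ 15 / 1000) : V3 u v w < V3 u v' w := by
  have h := real_1N (x := u.re) (T := u.im) (w := w.re) (S := w.im) (t := t) (r := r)
    (by linarith only [hx]) (by linarith only [hx']) hT (by linarith only [hT']) (by linarith only [hw]) (by linarith only [hw']) (by linarith only [hS])
    (by linarith only [ht]) (by linarith only [ht']) hr hr'
  have e := V3_diff (u := u) (w := w) h1 h2 (h3.trans (by norm_num : _ = (4800 / 10000 : ℝ))) h4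
  linarith only [h, e]

theorem mid_left_N1 (h1 : v.re = r) (h2 : v.im = 20 * t * r) (h3 : v'.re = 38 / 100)
    (h4 : v'.im = t) (hr : 0 ≤ r) (hr' : r ≤ 5 / 100) (hx : 12 / 100 ≤ u.re)
    (hx' : u.re ≤ 31 / 100) (hT : -(98 / 1000) ≤ u.im) (hT' : u.im ≤ 57 / 1000)
    (hw : 13 / 100 ≤ w.re) (hw' : w.re ≤ 36 / 100) (hS : -(1145 / 10000) ≤ w.im)
    (ht : -(135 / 1000) ≤ t) (ht' : t ≤ 15 / 1000) (hc : -(126 / 1000) ≤ t - u.im) :
    V3 u v w < V3 u v' w := by
  have h := real_N1 (x := u.re) (T := u.im) (w := w.re) (S := w.im) (t := t) (r := r)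
    (by linarith only [hx]) (by linarith only [hx']) (by linarith only [hT]) (by linarith only [hT']) (by linarith only [hw]) (by linarith only [hw']) hS
    (by linarith only [ht]) (by linarith only [ht']) (by linarith only [hc]) hr hr'
  have e := V3_diff (u := u) (w := w) h1 h2 (h3.trans (by norm_num : _ = (3800 / 10000 : ℝ))) h4
  linarith only [h, e]

theorem mid_left_NN (h1 : v.re = r) (h2 : v.im = 20 * t * r) (h3 : v'.re = 38 / 100)
    (h4 : v'.im = t) (hr : 0 ≤ r) (hr' : r ≤ 5 / 100) (hx : 12 / 100 ≤ u.re)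
    (hx' : u.re ≤ 31 / 100) (hT : -(98 / 1000) ≤ u.im) (hT' : u.im ≤ 57 / 1000)
    (hw : 13 / 100 ≤ w.re) (hw' : w.re ≤ 31 / 100) (hS : -(98 / 1000) ≤ w.im)
    (ht : -(123 / 1000) ≤ t) (ht' : t ≤ 15 / 1000) (hc : -(116 / 1000) ≤ t - u.im) :
    V3 u v w < V3 u v' w := by
  have h := real_NN (x := u.re) (T := u.im) (w := w.re) (S := w.im) (t := t) (r := r)
    (by linarith only [hx]) (by linarith only [hx']) (by linarith only [hT]) (by linarith only [hT']) (by linarith only [hw]) (by linarith only [hw'])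
    (by linarith only [hS]) (by linarith only [ht]) (by linarith only [ht']) (by linarith only [hc]) hr hr'
  have e := V3_diff (u := u) (w := w) h1 h2 (h3.trans (by norm_num : _ = (3800 / 10000 : ℝ))) h4
  linarith only [h, e]

end VM

end Pool.Agent.Work.MP_b30479_gtS.G2

end

section

/-!
# The inner variable of an inner digit `3` on its left ramp, all positions: parts and expressions

The difference of the values at `c + t i` and at `r + 20 t r i` is `DF c x h t r + GG c r t w S`
(`x + i h` the hinge on the side `S3`, `w + i S` the hinge on the side `S2`).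
-/

namespace Pool.Agent.Work.MP_b30479_gtS.G2

open VOL NumUs

namespace VL

/-- the part with the hinge on the side `S2`, minus its value for `0` -/
noncomputable def GG (c r t w S : ℝ) : ℝ :=
  Real.pi * (w * t * (1 - 20 * r) + S * (c - r)) + uu (c + w) (t + S) - uu c t -
    uu (r + w) (20 * t * r + S) + uu r (20 * t * r)

/-- the remaining part -/
noncomputable def DF (c x h t r : ℝ) : ℝ :=
  Real.pi * (t * (1 - 20 * r) * (1 / 2 - x) - h * (c - r) - t * (c - 20 * r ^ 2)) -
    uu (c - x) (t - h) + uu (r - x) (20 * t * r - h)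

theorem V3_diff' {u v v' w : ℂ} {c r t : ℝ} (h1 : v.re = r) (h2 : v.im = 20 * t * r)
    (h3 : v'.re = c) (h4 : v'.im = t) :
    V3 u v' w - V3 u v w = DF c u.re u.im t r + GG c r t w.re w.im := by
  rw [VM.V3_diff h1 h2 h3 h4]
  have e := uu_add_one (r - u.re) (20 * t * r - u.im)
  rw [show r - u.re + 1 = 1 + r - u.re by ring] at e
  unfold VM.FA VM.FB VM.FC DF GG
  rw [e]
  ring

variable {c r t w s σ x h : ℝ}

/-! ### derivative along the ramp of the hinge on the side `S2` -/

/-- the derivative along the ramp -/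
noncomputable def GP (c r t s σ : ℝ) : ℝ :=
  Real.pi * (t * (1 - 20 * r) + σ * (c - r)) +
    (LL ⟨c + s, t + σ * s⟩ + σ * YY ⟨c + s, t + σ * s⟩) -
    (LL ⟨r + s, 20 * t * r + σ * s⟩ + σ * YY ⟨r + s, 20 * t * r + σ * s⟩)

theorem deriv_ray {a b : ℝ} (h0 : 0 < a + s) (h1 : a + s < 1) :
    HasDerivAt (fun s => uu (a + s) (b + σ * s))
      (LL ⟨a + s, b + σ * s⟩ + σ * YY ⟨a + s, b + σ * s⟩) s := by
  have e : ∀ s : ℝ, ((a : ℂ) + (b : ℂ) * Complex.I) + ((1 : ℂ) + (σ : ℂ) * Complex.I) * (s : ℂ) =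
      ⟨a + s, b + σ * s⟩ := by
    intro s
    apply Complex.ext <;> simp
  have hg : HasDerivAt (fun s : ℝ => ((a : ℂ) + (b : ℂ) * Complex.I) +
      ((1 : ℂ) + (σ : ℂ) * Complex.I) * (s : ℂ)) (((1 : ℂ) + (σ : ℂ) * Complex.I) * 1) s :=
    ((Complex.ofRealCLM.hasDerivAt (x := s)).const_mul _).const_add _
  have h2 := hasDerivAt_UU hg (Or.inr (by rw [e]; exact ⟨h0, h1⟩))
  have h3 : (fun s => uu (a + s) (b + σ * s)) = fun s : ℝ =>
      UU (((a : ℂ) + (b : ℂ) * Complex.I) + ((1 : ℂ) + (σ : ℂ) * Complex.I) * (s : ℂ)) := by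
    funext s
    rw [e]
    rfl
  rw [h3]
  refine h2.congr_deriv ?_
  rw [e]
  simp

theorem GG_deriv (h1 : 0 < c + s) (h2 : c + s < 1) (h3 : 0 < r + s) (h4 : r + s < 1) :
    HasDerivAt (fun s => GG c r t s (σ * s)) (GP c r t s σ) s := by
  have b0 : HasDerivAt (fun s : ℝ => Real.pi * (s * t * (1 - 20 * r) + σ * s * (c - r)))
      (Real.pi * (t * (1 - 20 * r) + σ * (c - r))) s := by
    have a1 := ((hasDerivAt_id s).mul_const t).mul_const (1 - 20 * r)
    have a2 := ((hasDerivAt_id s).const_mul σ).mul_const (c - r)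
    refine ((a1.add a2).const_mul Real.pi).congr_deriv ?_
    ring
  have b1 := deriv_ray (a := c) (b := t) (σ := σ) h1 h2
  have b2 := deriv_ray (a := r) (b := 20 * t * r) (σ := σ) h3 h4
  have := (((b0.add b1).sub_const (uu c t)).sub b2).add_const (uu r (20 * t * r))
  exact this

theorem GG_zero : GG c r t 0 0 = 0 := by
  unfold GG
  simp

theorem GG_ramp (hw : 0 ≤ w) (hc : 0 < c) (hc' : c + w < 1) (hr : 0 ≤ r) (hr' : r + w < 1)
    (k : ∀ s ∈ Set.Ioo 0 w, 0 ≤ GP c r t s σ) : 0 ≤ GG c r t w (σ * w) := by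
  have hcont : Continuous fun s => GG c r t s (σ * s) := by
    unfold GG
    have c1 := VM.cont_uu (f := fun s : ℝ => c + s) (g := fun s => t + σ * s) (by fun_prop)
      (by fun_prop)
    have c2 := VM.cont_uu (f := fun s : ℝ => r + s) (g := fun s => 20 * t * r + σ * s)
      (by fun_prop) (by fun_prop)
    exact ((((by fun_prop : Continuous fun s : ℝ =>
      Real.pi * (s * t * (1 - 20 * r) + σ * s * (c - r))).add c1).sub continuous_const).sub
        c2).add continuous_const
  have hm : MonotoneOn (fun s => GG c r t s (σ * s)) (Set.Icc 0 w) := by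
    apply monotoneOn_of_deriv_nonneg (convex_Icc 0 w) hcont.continuousOn
    · rw [interior_Icc]
      intro s hs
      exact (GG_deriv (by linarith only [hc, hs, hs.1]) (by linarith only [hc', hs, hs.2]) (by linarith only [hr, hs, hs.1])
        (by linarith only [hr', hs, hs.2])).differentiableAt.differentiableWithinAt
    · rw [interior_Icc]
      intro s hs
      rw [(GG_deriv (by linarith only [hc, hs, hs.1]) (by linarith only [hc', hs, hs.2]) (by linarith only [hr, hs, hs.1])
        (by linarith only [hr', hs, hs.2])).deriv]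
      exact k s hs
  have h2 := hm (Set.left_mem_Icc.2 hw) (Set.right_mem_Icc.2 hw) hw
  simp only [mul_zero] at h2
  rw [GG_zero] at h2
  exact h2

/-! ### lower bounds of the derivative -/

/-- `GP` without the last term, shifted -/
noncomputable def GH (c r t s σ δ : ℝ) : ℝ :=
  Real.pi * (t * (1 - 20 * r) + σ * (c - r)) +
    (NumIs.lnA (c + s) (t + σ * s) - σ * NumIs.lnB (c + s) (t + σ * s)) -
    NumIs.lnA (r + s + δ) (20 * t * r + σ * s)

theorem YY_anti {p q y : ℝ} (hy : y ≤ 0) (hpq : p ≤ q) : YY ⟨q, y⟩ ≤ YY ⟨p, y⟩ := by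
  rcases eq_or_lt_of_le hy with h | h
  · rw [YY_zero (by exact h), YY_zero (by exact h)]
  · rw [YY_neg (by exact h), YY_neg (by exact h)]
    have := Tr_mono (s := -y) (by linarith only [h]) hpq
    simp only
    linarith only [this]

theorem GP_ge {δ : ℝ} (hc : 0 < c + s) (hc' : c + s < 1) (hr : 0 < r + s) (hδ : 0 ≤ δ)
    (hr' : r + s + δ ≤ 1 / 2) : GH c r t s σ δ - σ * YY ⟨r + s, 20 * t * r + σ * s⟩ ≤
      GP c r t s σ := by
  have a1 := VM.LL_mono (p := r + s) (q := r + s + δ) (y := 20 * t * r + σ * s) hr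
    (by linarith only [hδ]) hr'
  have a2 : LL ⟨r + s + δ, 20 * t * r + σ * s⟩ =
      NumIs.lnA (r + s + δ) (20 * t * r + σ * s) :=
    Num.LL_lnA (u := ⟨r + s + δ, 20 * t * r + σ * s⟩) ⟨by simp only; linarith only [hr, hδ],
      by simp only; linarith only [hc, hc', hr']⟩
  have a3 : LL ⟨c + s, t + σ * s⟩ = NumIs.lnA (c + s) (t + σ * s) :=
    Num.LL_lnA (u := ⟨c + s, t + σ * s⟩) ⟨hc, hc'⟩
  have a4 : YY ⟨c + s, t + σ * s⟩ = -NumIs.lnB (c + s) (t + σ * s) :=
    Num.YY_lnB (u := ⟨c + s, t + σ * s⟩) ⟨hc, hc'⟩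
  unfold GP GH
  rw [a3, a4, ← a2]
  linarith only [a1]

theorem GP_neg {δ : ℝ} (hc : 0 < c + s) (hc' : c + s < 1) (hr : 0 < r + s) (hδ : 0 ≤ δ)
    (hr' : r + s + δ ≤ 1 / 2) (hσ : σ ≤ 0) (hy : 20 * t * r + σ * s ≤ 0) :
    GH c r t s σ δ + σ * NumIs.lnB (r + s + δ) (20 * t * r + σ * s) ≤ GP c r t s σ := by
  refine le_trans ?_ (GP_ge (c := c) (t := t) (σ := σ) hc hc' hr hδ hr')
  have a1 := YY_anti (p := r + s) (q := r + s + δ) hy (by linarith only [hδ])
  have a4 : YY ⟨r + s + δ, 20 * t * r + σ * s⟩ =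
      -NumIs.lnB (r + s + δ) (20 * t * r + σ * s) :=
    Num.YY_lnB (u := ⟨r + s + δ, 20 * t * r + σ * s⟩) ⟨by simp only; linarith only [hr, hδ],
      by simp only; linarith only [hc, hc', hr']⟩
  rw [a4] at a1
  nlinarith only [hc, hc', hσ, a1]

theorem GP_abs {δ : ℝ} (hc : 0 < c + s) (hc' : c + s < 1) (hr : 0 < r + s) (hδ : 0 ≤ δ)
    (hr' : r + s + δ ≤ 1 / 2) :
    GH c r t s σ δ - |σ| * (Real.pi * (1 / 2)) ≤ GP c r t s σ := by
  refine le_trans ?_ (GP_ge (c := c) (t := t) (σ := σ) hc hc' hr hδ hr')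
  have a1 := VM.YY_left (p := r + s) (y := 20 * t * r + σ * s) hr.le (by linarith only [hδ, hr'])
  have hp := Real.pi_pos
  have a2 : |σ * YY ⟨r + s, 20 * t * r + σ * s⟩| ≤ |σ| * (Real.pi * (1 / 2)) := by
    rw [abs_mul]
    apply mul_le_mul_of_nonneg_left _ (abs_nonneg σ)
    refine a1.trans ?_
    nlinarith only [hc, hc', hr, hp]
  have := le_abs_self (σ * YY ⟨r + s, 20 * t * r + σ * s⟩)
  linarith only [a2, this]

/-! ### expressions -/

section
open NumUs.E

/-- `20 t r` -/
def vt (t r : E) : E := mul (q 20 1) (mul t r)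

/-- the polynomial part of `DF` -/
def pD (c x h t r : E) : E :=
  mul E.pi (sub (sub (mul (mul t (sub (q 1 1) (mul (q 20 1) r))) (sub (q 1 2) x))
    (mul h (sub c r))) (mul t (sub c (mul (q 20 1) (sq r)))))

/-- the height of `v - u` -/
def yD (h t r : E) : E := sub (vt t r) h

/-- `DF` with the point `r - x` shifted by `d` -/
def eA (c x h t r d : E) : E :=
  add (sub (pD c x h t r) (E.uu (sub c x) (sub t h))) (E.uu (add (sub r x) d) (yD h t r))

/-- `DF`, `v - u` below the level `0` is excluded -/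
def eM (c x h t r : E) : E :=
  add (sub (sub (pD c x h t r) (mul E.pi (yD h t r))) (E.uu (sub c x) (sub t h)))
    (E.uu (sub (add (q 1 1) r) x) (yD h t r))

/-- `DF`, `v - u` above the level `0` is excluded -/
def eP (c x h t r : E) : E :=
  add (sub (add (pD c x h t r) (mul E.pi (yD h t r))) (E.uu (sub c x) (sub t h)))
    (E.uu (sub (add (q 1 1) r) x) (yD h t r))

/-- `GG` -/
def eG (c w h t r rr : E) : E :=
  add (sub (sub (add (mul E.pi (add (mul (mul w t) (sub (q 1 1) (mul (q 20 1) r)))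
    (mul h (sub c r)))) (E.uu (add c w) (add t h))) (E.uu c t))
      (E.uu (add r w) (add (vt t r) h))) (E.uu rr (vt t r))

/-- `GH` -/
def eH (c w s t r d : E) : E :=
  sub (add (mul E.pi (add (mul t (sub (q 1 1) (mul (q 20 1) r))) (mul s (sub c r))))
    (sub (E.lnA (add c w) (add t (mul s w))) (mul s (E.lnB (add c w) (add t (mul s w))))))
      (E.lnA (add (add r w) d) (add (vt t r) (mul s w)))

def eN (c w s t r d : E) : E :=
  add (eH c w s t r d) (mul s (E.lnB (add (add r w) d) (add (vt t r) (mul s w))))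

def eQ (c w s t r d : E) : E := sub (eH c w s t r d) (mul s (mul E.pi (q 1 2)))

def eR (c w s t r d : E) : E := add (eH c w s t r d) (mul s (mul E.pi (q 1 2)))

variable (c' x' h' t' r' d' w' s' : E) (xs : List ℝ)

theorem vt_val : (vt t' r').val xs = 20 * t'.val xs * r'.val xs := by
  simp only [vt, E.val]
  push_cast
  ring

theorem eA_val : (eA c' x' h' t' r' d').val xs =
    DF (c'.val xs) (x'.val xs) (h'.val xs) (t'.val xs) (r'.val xs) -
      uu (r'.val xs - x'.val xs) (20 * t'.val xs * r'.val xs - h'.val xs) +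
      uu (r'.val xs - x'.val xs + d'.val xs) (20 * t'.val xs * r'.val xs - h'.val xs) := by
  simp only [eA, pD, yD, vt_val, E.val, DF]
  push_cast
  ring

theorem eM_val : (eM c' x' h' t' r').val xs =
    DF (c'.val xs) (x'.val xs) (h'.val xs) (t'.val xs) (r'.val xs) +
      Real.pi * (|20 * t'.val xs * r'.val xs - h'.val xs| -
        (20 * t'.val xs * r'.val xs - h'.val xs)) := by
  have e := uu_add_one (r'.val xs - x'.val xs) (20 * t'.val xs * r'.val xs - h'.val xs)
  rw [show r'.val xs - x'.val xs + 1 = 1 + r'.val xs - x'.val xs by ring] at e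
  simp only [eM, pD, yD, vt_val, E.val, DF]
  push_cast
  simp only [div_one]
  rw [e]
  ring

theorem eP_val : (eP c' x' h' t' r').val xs =
    DF (c'.val xs) (x'.val xs) (h'.val xs) (t'.val xs) (r'.val xs) +
      Real.pi * (|20 * t'.val xs * r'.val xs - h'.val xs| +
        (20 * t'.val xs * r'.val xs - h'.val xs)) := by
  have e := uu_add_one (r'.val xs - x'.val xs) (20 * t'.val xs * r'.val xs - h'.val xs)
  rw [show r'.val xs - x'.val xs + 1 = 1 + r'.val xs - x'.val xs by ring] at e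
  simp only [eP, pD, yD, vt_val, E.val, DF]
  push_cast
  simp only [div_one]
  rw [e]
  ring

theorem eG_val : (eG c' w' h' t' r' d').val xs =
    GG (c'.val xs) (r'.val xs) (t'.val xs) (w'.val xs) (h'.val xs) -
      uu (r'.val xs) (20 * t'.val xs * r'.val xs) +
      uu (d'.val xs) (20 * t'.val xs * r'.val xs) := by
  simp only [eG, vt_val, E.val, GG]
  push_cast
  ring

theorem eH_val : (eH c' w' s' t' r' d').val xs =
    GH (c'.val xs) (r'.val xs) (t'.val xs) (w'.val xs) (s'.val xs) (d'.val xs) := by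
  simp only [eH, vt_val, E.val, GH]
  push_cast
  ring

end

end VL

end Pool.Agent.Work.MP_b30479_gtS.G2

end

section

/-!
# Part of `V30C`
-/
namespace Pool.Agent.Work.MP_b30479_gtS.G2

open VOL NumUs

namespace VL

open NumIs (V)
open NumUs.E (q var)

/-- excludes the heights outside of the window -/
def eL : E := .sub (.sub (.mul (q 12 100) (var 1)) (var 2)) (q 107 1000)

def lS : List E := [eA (q 24 100) (var 0) (.mul (var 1) (var 0)) (var 2) (var 3) (q 4 1000),
  eA (q 24 100) (var 0) (.mul (var 1) (var 0)) (var 2) (var 3) (q 1 100),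
  eA (q 24 100) (var 0) (.mul (var 1) (var 0)) (var 2) (var 3) (q 125 10000),
  eA (q 24 100) (var 0) (.mul (var 1) (var 0)) (var 2) (var 3) (q 2 100),
  .sub (.sub (var 0) (var 3)) (q 8 1000), eL]

def lM : List E := [eM (q 24 100) (var 0) (.mul (var 1) (var 0)) (var 2) (var 3),
  .neg (yD (.mul (var 1) (var 0)) (var 2) (var 3)), .sub (q 8 1000) (.sub (var 0) (var 3)), eL]

def lP : List E := [eP (q 24 100) (var 0) (.mul (var 1) (var 0)) (var 2) (var 3),
  yD (.mul (var 1) (var 0)) (var 2) (var 3), .sub (q 8 1000) (.sub (var 0) (var 3)), eL]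

end VL

end Pool.Agent.Work.MP_b30479_gtS.G2

end
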