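import Pool.Agent.Work.MP_b30479_gt.TBS.G2.V3MidB

/-!
# Value row of the inner variable of an inner digit `3`: certificates of the corners
-/

namespace Pool.Agent.Work.MP_b30479_gtS.G2

set_option linter.unusedSimpArgs false

open VOL NumUs

namespace VM

variable {x T w S t r : ℝ}

/-! ### 11 -/

theorem lo_11 (ht : -(950 / 10000) ≤ t) (ht' : t ≤ -(80 / 10000)) (hr : 0 ≤ r)
    (hr' : r ≤ 5 / 100)
    {x' w' : ℝ} (hx : x' ∈ ({1200 / 10000, 4050 / 10000} : Set ℝ))
    (hw : w' ∈ ({1300 / 10000, 3600 / 10000} : Set ℝ)) :
    0 < FA (4800 / 10000) r t x' (-(1145 / 10000)) - Real.pi * (20 * t * r - (-(1145 / 10000))) +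
      FB (4800 / 10000) r t w' (-(1145 / 10000)) + FC (4800 / 10000) r t := by
  have hh : |t| ≤ 135 / 1000 := by rw [abs_le]; constructor <;> linarith only [ht, ht']
  have hT : (E.q (-1145) 10000).val [t, r] = (-(1145 / 10000)) := by
    simp only [E.val, NumIs.lkR]
    push_cast
    ring
  rcases hx with rfl | rfl <;> rcases hw with rfl | rfl
  · have := use (c := 4800) (x := 1200) (w := 1300) (S := (-1145)) (s := 1)
      (l1 := (-950)) (h1 := (-80)) (Te := E.q (-1145) 10000)
      (by decide +kernel) (t := t) (r := r) (by push_cast; linarith only [ht])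
      (by push_cast; linarith only [ht']) hr hr' (c' := 4800 / 10000) (by push_cast; ring)
      (x' := 1200 / 10000) (by push_cast; ring) hT (w' := 1300 / 10000) (by push_cast; ring)
      (S' := -(1145 / 10000)) (by push_cast; ring) hh
    push_cast at this
    linarith only [this]
  · have := use (c := 4800) (x := 1200) (w := 3600) (S := (-1145)) (s := 1)
      (l1 := (-950)) (h1 := (-80)) (Te := E.q (-1145) 10000)
      (by decide +kernel) (t := t) (r := r) (by push_cast; linarith only [ht])
      (by push_cast; linarith only [ht']) hr hr' (c' := 4800 / 10000) (by push_cast; ring)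
      (x' := 1200 / 10000) (by push_cast; ring) hT (w' := 3600 / 10000) (by push_cast; ring)
      (S' := -(1145 / 10000)) (by push_cast; ring) hh
    push_cast at this
    linarith only [this]
  · have := use (c := 4800) (x := 4050) (w := 1300) (S := (-1145)) (s := 1)
      (l1 := (-950)) (h1 := (-80)) (Te := E.q (-1145) 10000)
      (by decide +kernel) (t := t) (r := r) (by push_cast; linarith only [ht])
      (by push_cast; linarith only [ht']) hr hr' (c' := 4800 / 10000) (by push_cast; ring)
      (x' := 4050 / 10000) (by push_cast; ring) hT (w' := 1300 / 10000) (by push_cast; ring)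
      (S' := -(1145 / 10000)) (by push_cast; ring) hh
    push_cast at this
    linarith only [this]
  · have := use (c := 4800) (x := 4050) (w := 3600) (S := (-1145)) (s := 1)
      (l1 := (-950)) (h1 := (-80)) (Te := E.q (-1145) 10000)
      (by decide +kernel) (t := t) (r := r) (by push_cast; linarith only [ht])
      (by push_cast; linarith only [ht']) hr hr' (c' := 4800 / 10000) (by push_cast; ring)
      (x' := 4050 / 10000) (by push_cast; ring) hT (w' := 3600 / 10000) (by push_cast; ring)
      (S' := -(1145 / 10000)) (by push_cast; ring) hh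
    push_cast at this
    linarith only [this]

theorem hi_11 (ht : -(950 / 10000) ≤ t) (ht' : t ≤ -(80 / 10000)) (hr : 0 ≤ r)
    (hr' : r ≤ 5 / 100)
    {x' w' : ℝ} (hx : x' ∈ ({1200 / 10000, 4050 / 10000} : Set ℝ))
    (hw : w' ∈ ({1300 / 10000, 3600 / 10000} : Set ℝ)) :
    0 < FA (4800 / 10000) r t x' (-(210 / 10000)) + Real.pi * (20 * t * r - (-(210 / 10000))) +
      FB (4800 / 10000) r t w' (-(1145 / 10000)) + FC (4800 / 10000) r t := by
  have hh : |t| ≤ 135 / 1000 := by rw [abs_le]; constructor <;> linarith only [ht, ht']
  have hT : (E.q (-210) 10000).val [t, r] = (-(210 / 10000)) := by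
    simp only [E.val, NumIs.lkR]
    push_cast
    ring
  rcases hx with rfl | rfl <;> rcases hw with rfl | rfl
  · have := use (c := 4800) (x := 1200) (w := 1300) (S := (-1145)) (s := (-1))
      (l1 := (-950)) (h1 := (-80)) (Te := E.q (-210) 10000)
      (by decide +kernel) (t := t) (r := r) (by push_cast; linarith only [ht])
      (by push_cast; linarith only [ht']) hr hr' (c' := 4800 / 10000) (by push_cast; ring)
      (x' := 1200 / 10000) (by push_cast; ring) hT (w' := 1300 / 10000) (by push_cast; ring)
      (S' := -(1145 / 10000)) (by push_cast; ring) hh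
    push_cast at this
    linarith only [this]
  · have := use (c := 4800) (x := 1200) (w := 3600) (S := (-1145)) (s := (-1))
      (l1 := (-950)) (h1 := (-80)) (Te := E.q (-210) 10000)
      (by decide +kernel) (t := t) (r := r) (by push_cast; linarith only [ht])
      (by push_cast; linarith only [ht']) hr hr' (c' := 4800 / 10000) (by push_cast; ring)
      (x' := 1200 / 10000) (by push_cast; ring) hT (w' := 3600 / 10000) (by push_cast; ring)
      (S' := -(1145 / 10000)) (by push_cast; ring) hh
    push_cast at this
    linarith only [this]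
  · have := use (c := 4800) (x := 4050) (w := 1300) (S := (-1145)) (s := (-1))
      (l1 := (-950)) (h1 := (-80)) (Te := E.q (-210) 10000)
      (by decide +kernel) (t := t) (r := r) (by push_cast; linarith only [ht])
      (by push_cast; linarith only [ht']) hr hr' (c' := 4800 / 10000) (by push_cast; ring)
      (x' := 4050 / 10000) (by push_cast; ring) hT (w' := 1300 / 10000) (by push_cast; ring)
      (S' := -(1145 / 10000)) (by push_cast; ring) hh
    push_cast at this
    linarith only [this]
  · have := use (c := 4800) (x := 4050) (w := 3600) (S := (-1145)) (s := (-1))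
      (l1 := (-950)) (h1 := (-80)) (Te := E.q (-210) 10000)
      (by decide +kernel) (t := t) (r := r) (by push_cast; linarith only [ht])
      (by push_cast; linarith only [ht']) hr hr' (c' := 4800 / 10000) (by push_cast; ring)
      (x' := 4050 / 10000) (by push_cast; ring) hT (w' := 3600 / 10000) (by push_cast; ring)
      (S' := -(1145 / 10000)) (by push_cast; ring) hh
    push_cast at this
    linarith only [this]

/-! ### 1N -/

theorem lo_1N (ht : -(920 / 10000) ≤ t) (ht' : t ≤ 150 / 10000) (hr : 0 ≤ r)
    (hr' : r ≤ 5 / 100)
    {x' w' : ℝ} (hx : x' ∈ ({1200 / 10000, 4050 / 10000} : Set ℝ))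
    (hw : w' ∈ ({1300 / 10000, 3100 / 10000} : Set ℝ)) :
    0 < FA (4800 / 10000) r t x' (-(1145 / 10000)) - Real.pi * (20 * t * r - (-(1145 / 10000))) +
      FB (4800 / 10000) r t w' (-(980 / 10000)) + FC (4800 / 10000) r t := by
  have hh : |t| ≤ 135 / 1000 := by rw [abs_le]; constructor <;> linarith only [ht, ht']
  have hT : (E.q (-1145) 10000).val [t, r] = (-(1145 / 10000)) := by
    simp only [E.val, NumIs.lkR]
    push_cast
    ring
  rcases hx with rfl | rfl <;> rcases hw with rfl | rfl
  · have := use (c := 4800) (x := 1200) (w := 1300) (S := (-980)) (s := 1)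
      (l1 := (-920)) (h1 := 150) (Te := E.q (-1145) 10000)
      (by decide +kernel) (t := t) (r := r) (by push_cast; linarith only [ht])
      (by push_cast; linarith only [ht']) hr hr' (c' := 4800 / 10000) (by push_cast; ring)
      (x' := 1200 / 10000) (by push_cast; ring) hT (w' := 1300 / 10000) (by push_cast; ring)
      (S' := -(980 / 10000)) (by push_cast; ring) hh
    push_cast at this
    linarith only [this]
  · have := use (c := 4800) (x := 1200) (w := 3100) (S := (-980)) (s := 1)
      (l1 := (-920)) (h1 := 150) (Te := E.q (-1145) 10000)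
      (by decide +kernel) (t := t) (r := r) (by push_cast; linarith only [ht])
      (by push_cast; linarith only [ht']) hr hr' (c' := 4800 / 10000) (by push_cast; ring)
      (x' := 1200 / 10000) (by push_cast; ring) hT (w' := 3100 / 10000) (by push_cast; ring)
      (S' := -(980 / 10000)) (by push_cast; ring) hh
    push_cast at this
    linarith only [this]
  · have := use (c := 4800) (x := 4050) (w := 1300) (S := (-980)) (s := 1)
      (l1 := (-920)) (h1 := 150) (Te := E.q (-1145) 10000)
      (by decide +kernel) (t := t) (r := r) (by push_cast; linarith only [ht])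
      (by push_cast; linarith only [ht']) hr hr' (c' := 4800 / 10000) (by push_cast; ring)
      (x' := 4050 / 10000) (by push_cast; ring) hT (w' := 1300 / 10000) (by push_cast; ring)
      (S' := -(980 / 10000)) (by push_cast; ring) hh
    push_cast at this
    linarith only [this]
  · have := use (c := 4800) (x := 4050) (w := 3100) (S := (-980)) (s := 1)
      (l1 := (-920)) (h1 := 150) (Te := E.q (-1145) 10000)
      (by decide +kernel) (t := t) (r := r) (by push_cast; linarith only [ht])
      (by push_cast; linarith only [ht']) hr hr' (c' := 4800 / 10000) (by push_cast; ring)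
      (x' := 4050 / 10000) (by push_cast; ring) hT (w' := 3100 / 10000) (by push_cast; ring)
      (S' := -(980 / 10000)) (by push_cast; ring) hh
    push_cast at this
    linarith only [this]

theorem hi_1N (ht : -(920 / 10000) ≤ t) (ht' : t ≤ 150 / 10000) (hr : 0 ≤ r)
    (hr' : r ≤ 5 / 100)
    {x' w' : ℝ} (hx : x' ∈ ({1200 / 10000, 4050 / 10000} : Set ℝ))
    (hw : w' ∈ ({1300 / 10000, 3100 / 10000} : Set ℝ)) :
    0 < FA (4800 / 10000) r t x' (-(210 / 10000)) + Real.pi * (20 * t * r - (-(210 / 10000))) +
      FB (4800 / 10000) r t w' (-(980 / 10000)) + FC (4800 / 10000) r t := by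
  have hh : |t| ≤ 135 / 1000 := by rw [abs_le]; constructor <;> linarith only [ht, ht']
  have hT : (E.q (-210) 10000).val [t, r] = (-(210 / 10000)) := by
    simp only [E.val, NumIs.lkR]
    push_cast
    ring
  rcases hx with rfl | rfl <;> rcases hw with rfl | rfl
  · have := use (c := 4800) (x := 1200) (w := 1300) (S := (-980)) (s := (-1))
      (l1 := (-920)) (h1 := 150) (Te := E.q (-210) 10000)
      (by decide +kernel) (t := t) (r := r) (by push_cast; linarith only [ht])
      (by push_cast; linarith only [ht']) hr hr' (c' := 4800 / 10000) (by push_cast; ring)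
      (x' := 1200 / 10000) (by push_cast; ring) hT (w' := 1300 / 10000) (by push_cast; ring)
      (S' := -(980 / 10000)) (by push_cast; ring) hh
    push_cast at this
    linarith only [this]
  · have := use (c := 4800) (x := 1200) (w := 3100) (S := (-980)) (s := (-1))
      (l1 := (-920)) (h1 := 150) (Te := E.q (-210) 10000)
      (by decide +kernel) (t := t) (r := r) (by push_cast; linarith only [ht])
      (by push_cast; linarith only [ht']) hr hr' (c' := 4800 / 10000) (by push_cast; ring)
      (x' := 1200 / 10000) (by push_cast; ring) hT (w' := 3100 / 10000) (by push_cast; ring)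
      (S' := -(980 / 10000)) (by push_cast; ring) hh
    push_cast at this
    linarith only [this]
  · have := use (c := 4800) (x := 4050) (w := 1300) (S := (-980)) (s := (-1))
      (l1 := (-920)) (h1 := 150) (Te := E.q (-210) 10000)
      (by decide +kernel) (t := t) (r := r) (by push_cast; linarith only [ht])
      (by push_cast; linarith only [ht']) hr hr' (c' := 4800 / 10000) (by push_cast; ring)
      (x' := 4050 / 10000) (by push_cast; ring) hT (w' := 1300 / 10000) (by push_cast; ring)
      (S' := -(980 / 10000)) (by push_cast; ring) hh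
    push_cast at this
    linarith only [this]
  · have := use (c := 4800) (x := 4050) (w := 3100) (S := (-980)) (s := (-1))
      (l1 := (-920)) (h1 := 150) (Te := E.q (-210) 10000)
      (by decide +kernel) (t := t) (r := r) (by push_cast; linarith only [ht])
      (by push_cast; linarith only [ht']) hr hr' (c' := 4800 / 10000) (by push_cast; ring)
      (x' := 4050 / 10000) (by push_cast; ring) hT (w' := 3100 / 10000) (by push_cast; ring)
      (S' := -(980 / 10000)) (by push_cast; ring) hh
    push_cast at this
    linarith only [this]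

/-! ### N1 -/

theorem lo_N1 (ht : -(1350 / 10000) ≤ t) (ht' : t ≤ 150 / 10000) (hr : 0 ≤ r)
    (hr' : r ≤ 5 / 100)
    {x' w' : ℝ} (hx : x' ∈ ({1200 / 10000, 3100 / 10000} : Set ℝ))
    (hw : w' ∈ ({1300 / 10000, 3600 / 10000} : Set ℝ)) :
    0 < FA (3800 / 10000) r t x' (-(980 / 10000)) - Real.pi * (20 * t * r - (-(980 / 10000))) +
      FB (3800 / 10000) r t w' (-(1145 / 10000)) + FC (3800 / 10000) r t := by
  have hh : |t| ≤ 135 / 1000 := by rw [abs_le]; constructor <;> linarith only [ht, ht']
  have hT : (E.q (-980) 10000).val [t, r] = (-(980 / 10000)) := by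
    simp only [E.val, NumIs.lkR]
    push_cast
    ring
  rcases hx with rfl | rfl <;> rcases hw with rfl | rfl
  · have := use (c := 3800) (x := 1200) (w := 1300) (S := (-1145)) (s := 1)
      (l1 := (-1350)) (h1 := 150) (Te := E.q (-980) 10000)
      (by decide +kernel) (t := t) (r := r) (by push_cast; linarith only [ht])
      (by push_cast; linarith only [ht']) hr hr' (c' := 3800 / 10000) (by push_cast; ring)
      (x' := 1200 / 10000) (by push_cast; ring) hT (w' := 1300 / 10000) (by push_cast; ring)
      (S' := -(1145 / 10000)) (by push_cast; ring) hh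
    push_cast at this
    linarith only [this]
  · have := use (c := 3800) (x := 1200) (w := 3600) (S := (-1145)) (s := 1)
      (l1 := (-1350)) (h1 := 150) (Te := E.q (-980) 10000)
      (by decide +kernel) (t := t) (r := r) (by push_cast; linarith only [ht])
      (by push_cast; linarith only [ht']) hr hr' (c' := 3800 / 10000) (by push_cast; ring)
      (x' := 1200 / 10000) (by push_cast; ring) hT (w' := 3600 / 10000) (by push_cast; ring)
      (S' := -(1145 / 10000)) (by push_cast; ring) hh
    push_cast at this
    linarith only [this]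
  · have := use (c := 3800) (x := 3100) (w := 1300) (S := (-1145)) (s := 1)
      (l1 := (-1350)) (h1 := 150) (Te := E.q (-980) 10000)
      (by decide +kernel) (t := t) (r := r) (by push_cast; linarith only [ht])
      (by push_cast; linarith only [ht']) hr hr' (c' := 3800 / 10000) (by push_cast; ring)
      (x' := 3100 / 10000) (by push_cast; ring) hT (w' := 1300 / 10000) (by push_cast; ring)
      (S' := -(1145 / 10000)) (by push_cast; ring) hh
    push_cast at this
    linarith only [this]
  · have := use (c := 3800) (x := 3100) (w := 3600) (S := (-1145)) (s := 1)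
      (l1 := (-1350)) (h1 := 150) (Te := E.q (-980) 10000)
      (by decide +kernel) (t := t) (r := r) (by push_cast; linarith only [ht])
      (by push_cast; linarith only [ht']) hr hr' (c' := 3800 / 10000) (by push_cast; ring)
      (x' := 3100 / 10000) (by push_cast; ring) hT (w' := 3600 / 10000) (by push_cast; ring)
      (S' := -(1145 / 10000)) (by push_cast; ring) hh
    push_cast at this
    linarith only [this]

theorem hi_N1 (ht : -(690 / 10000) ≤ t) (ht' : t ≤ 150 / 10000) (hr : 0 ≤ r)
    (hr' : r ≤ 5 / 100)
    {x' w' : ℝ} (hx : x' ∈ ({1200 / 10000, 3100 / 10000} : Set ℝ))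
    (hw : w' ∈ ({1300 / 10000, 3600 / 10000} : Set ℝ)) :
    0 < FA (3800 / 10000) r t x' (570 / 10000) + Real.pi * (20 * t * r - (570 / 10000)) +
      FB (3800 / 10000) r t w' (-(1145 / 10000)) + FC (3800 / 10000) r t := by
  have hh : |t| ≤ 135 / 1000 := by rw [abs_le]; constructor <;> linarith only [ht, ht']
  have hT : (E.q 570 10000).val [t, r] = (570 / 10000) := by
    simp only [E.val, NumIs.lkR]
    push_cast
    ring
  rcases hx with rfl | rfl <;> rcases hw with rfl | rfl
  · have := use (c := 3800) (x := 1200) (w := 1300) (S := (-1145)) (s := (-1))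
      (l1 := (-690)) (h1 := 150) (Te := E.q 570 10000)
      (by decide +kernel) (t := t) (r := r) (by push_cast; linarith only [ht])
      (by push_cast; linarith only [ht']) hr hr' (c' := 3800 / 10000) (by push_cast; ring)
      (x' := 1200 / 10000) (by push_cast; ring) hT (w' := 1300 / 10000) (by push_cast; ring)
      (S' := -(1145 / 10000)) (by push_cast; ring) hh
    push_cast at this
    linarith only [this]
  · have := use (c := 3800) (x := 1200) (w := 3600) (S := (-1145)) (s := (-1))
      (l1 := (-690)) (h1 := 150) (Te := E.q 570 10000)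
      (by decide +kernel) (t := t) (r := r) (by push_cast; linarith only [ht])
      (by push_cast; linarith only [ht']) hr hr' (c' := 3800 / 10000) (by push_cast; ring)
      (x' := 1200 / 10000) (by push_cast; ring) hT (w' := 3600 / 10000) (by push_cast; ring)
      (S' := -(1145 / 10000)) (by push_cast; ring) hh
    push_cast at this
    linarith only [this]
  · have := use (c := 3800) (x := 3100) (w := 1300) (S := (-1145)) (s := (-1))
      (l1 := (-690)) (h1 := 150) (Te := E.q 570 10000)
      (by decide +kernel) (t := t) (r := r) (by push_cast; linarith only [ht])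
      (by push_cast; linarith only [ht']) hr hr' (c' := 3800 / 10000) (by push_cast; ring)
      (x' := 3100 / 10000) (by push_cast; ring) hT (w' := 1300 / 10000) (by push_cast; ring)
      (S' := -(1145 / 10000)) (by push_cast; ring) hh
    push_cast at this
    linarith only [this]
  · have := use (c := 3800) (x := 3100) (w := 3600) (S := (-1145)) (s := (-1))
      (l1 := (-690)) (h1 := 150) (Te := E.q 570 10000)
      (by decide +kernel) (t := t) (r := r) (by push_cast; linarith only [ht])
      (by push_cast; linarith only [ht']) hr hr' (c' := 3800 / 10000) (by push_cast; ring)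
      (x' := 3100 / 10000) (by push_cast; ring) hT (w' := 3600 / 10000) (by push_cast; ring)
      (S' := -(1145 / 10000)) (by push_cast; ring) hh
    push_cast at this
    linarith only [this]

theorem hi_N1_b (ht : -(1350 / 10000) ≤ t) (ht' : t ≤ -(690 / 10000)) (hr : 0 ≤ r)
    (hr' : r ≤ 5 / 100)
    {x' w' : ℝ} (hx : x' ∈ ({1200 / 10000, 3100 / 10000} : Set ℝ))
    (hw : w' ∈ ({1300 / 10000, 3600 / 10000} : Set ℝ)) :
    0 < FA (3800 / 10000) r t x' (t + 1260 / 10000) + Real.pi * (20 * t * r - (t + 1260 / 10000)) +
      FB (3800 / 10000) r t w' (-(1145 / 10000)) + FC (3800 / 10000) r t := by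
  have hh : |t| ≤ 135 / 1000 := by rw [abs_le]; constructor <;> linarith only [ht, ht']
  have hT : (E.add (E.var 0) (E.q 1260 10000)).val [t, r] = (t + 1260 / 10000) := by
    simp only [E.val, NumIs.lkR]
    push_cast
    ring
  rcases hx with rfl | rfl <;> rcases hw with rfl | rfl
  · have := use (c := 3800) (x := 1200) (w := 1300) (S := (-1145)) (s := (-1))
      (l1 := (-1350)) (h1 := (-690)) (Te := E.add (E.var 0) (E.q 1260 10000))
      (by decide +kernel) (t := t) (r := r) (by push_cast; linarith only [ht])
      (by push_cast; linarith only [ht']) hr hr' (c' := 3800 / 10000) (by push_cast; ring)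
      (x' := 1200 / 10000) (by push_cast; ring) hT (w' := 1300 / 10000) (by push_cast; ring)
      (S' := -(1145 / 10000)) (by push_cast; ring) hh
    push_cast at this
    linarith only [this]
  · have := use (c := 3800) (x := 1200) (w := 3600) (S := (-1145)) (s := (-1))
      (l1 := (-1350)) (h1 := (-690)) (Te := E.add (E.var 0) (E.q 1260 10000))
      (by decide +kernel) (t := t) (r := r) (by push_cast; linarith only [ht])
      (by push_cast; linarith only [ht']) hr hr' (c' := 3800 / 10000) (by push_cast; ring)
      (x' := 1200 / 10000) (by push_cast; ring) hT (w' := 3600 / 10000) (by push_cast; ring)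
      (S' := -(1145 / 10000)) (by push_cast; ring) hh
    push_cast at this
    linarith only [this]
  · have := use (c := 3800) (x := 3100) (w := 1300) (S := (-1145)) (s := (-1))
      (l1 := (-1350)) (h1 := (-690)) (Te := E.add (E.var 0) (E.q 1260 10000))
      (by decide +kernel) (t := t) (r := r) (by push_cast; linarith only [ht])
      (by push_cast; linarith only [ht']) hr hr' (c' := 3800 / 10000) (by push_cast; ring)
      (x' := 3100 / 10000) (by push_cast; ring) hT (w' := 1300 / 10000) (by push_cast; ring)
      (S' := -(1145 / 10000)) (by push_cast; ring) hh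
    push_cast at this
    linarith only [this]
  · have := use (c := 3800) (x := 3100) (w := 3600) (S := (-1145)) (s := (-1))
      (l1 := (-1350)) (h1 := (-690)) (Te := E.add (E.var 0) (E.q 1260 10000))
      (by decide +kernel) (t := t) (r := r) (by push_cast; linarith only [ht])
      (by push_cast; linarith only [ht']) hr hr' (c' := 3800 / 10000) (by push_cast; ring)
      (x' := 3100 / 10000) (by push_cast; ring) hT (w' := 3600 / 10000) (by push_cast; ring)
      (S' := -(1145 / 10000)) (by push_cast; ring) hh
    push_cast at this
    linarith only [this]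

/-! ### NN -/

theorem lo_NN (ht : -(1230 / 10000) ≤ t) (ht' : t ≤ 150 / 10000) (hr : 0 ≤ r)
    (hr' : r ≤ 5 / 100)
    {x' w' : ℝ} (hx : x' ∈ ({1200 / 10000, 3100 / 10000} : Set ℝ))
    (hw : w' ∈ ({1300 / 10000, 3100 / 10000} : Set ℝ)) :
    0 < FA (3800 / 10000) r t x' (-(980 / 10000)) - Real.pi * (20 * t * r - (-(980 / 10000))) +
      FB (3800 / 10000) r t w' (-(980 / 10000)) + FC (3800 / 10000) r t := by
  have hh : |t| ≤ 135 / 1000 := by rw [abs_le]; constructor <;> linarith only [ht, ht']
  have hT : (E.q (-980) 10000).val [t, r] = (-(980 / 10000)) := by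
    simp only [E.val, NumIs.lkR]
    push_cast
    ring
  rcases hx with rfl | rfl <;> rcases hw with rfl | rfl
  · have := use (c := 3800) (x := 1200) (w := 1300) (S := (-980)) (s := 1)
      (l1 := (-1230)) (h1 := 150) (Te := E.q (-980) 10000)
      (by decide +kernel) (t := t) (r := r) (by push_cast; linarith only [ht])
      (by push_cast; linarith only [ht']) hr hr' (c' := 3800 / 10000) (by push_cast; ring)
      (x' := 1200 / 10000) (by push_cast; ring) hT (w' := 1300 / 10000) (by push_cast; ring)
      (S' := -(980 / 10000)) (by push_cast; ring) hh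
    push_cast at this
    linarith only [this]
  · have := use (c := 3800) (x := 1200) (w := 3100) (S := (-980)) (s := 1)
      (l1 := (-1230)) (h1 := 150) (Te := E.q (-980) 10000)
      (by decide +kernel) (t := t) (r := r) (by push_cast; linarith only [ht])
      (by push_cast; linarith only [ht']) hr hr' (c' := 3800 / 10000) (by push_cast; ring)
      (x' := 1200 / 10000) (by push_cast; ring) hT (w' := 3100 / 10000) (by push_cast; ring)
      (S' := -(980 / 10000)) (by push_cast; ring) hh
    push_cast at this
    linarith only [this]
  · have := use (c := 3800) (x := 3100) (w := 1300) (S := (-980)) (s := 1)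
      (l1 := (-1230)) (h1 := 150) (Te := E.q (-980) 10000)
      (by decide +kernel) (t := t) (r := r) (by push_cast; linarith only [ht])
      (by push_cast; linarith only [ht']) hr hr' (c' := 3800 / 10000) (by push_cast; ring)
      (x' := 3100 / 10000) (by push_cast; ring) hT (w' := 1300 / 10000) (by push_cast; ring)
      (S' := -(980 / 10000)) (by push_cast; ring) hh
    push_cast at this
    linarith only [this]
  · have := use (c := 3800) (x := 3100) (w := 3100) (S := (-980)) (s := 1)
      (l1 := (-1230)) (h1 := 150) (Te := E.q (-980) 10000)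
      (by decide +kernel) (t := t) (r := r) (by push_cast; linarith only [ht])
      (by push_cast; linarith only [ht']) hr hr' (c' := 3800 / 10000) (by push_cast; ring)
      (x' := 3100 / 10000) (by push_cast; ring) hT (w' := 3100 / 10000) (by push_cast; ring)
      (S' := -(980 / 10000)) (by push_cast; ring) hh
    push_cast at this
    linarith only [this]

theorem hi_NN (ht : -(590 / 10000) ≤ t) (ht' : t ≤ 150 / 10000) (hr : 0 ≤ r)
    (hr' : r ≤ 5 / 100)
    {x' w' : ℝ} (hx : x' ∈ ({1200 / 10000, 3100 / 10000} : Set ℝ))
    (hw : w' ∈ ({1300 / 10000, 3100 / 10000} : Set ℝ)) :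
    0 < FA (3800 / 10000) r t x' (570 / 10000) + Real.pi * (20 * t * r - (570 / 10000)) +
      FB (3800 / 10000) r t w' (-(980 / 10000)) + FC (3800 / 10000) r t := by
  have hh : |t| ≤ 135 / 1000 := by rw [abs_le]; constructor <;> linarith only [ht, ht']
  have hT : (E.q 570 10000).val [t, r] = (570 / 10000) := by
    simp only [E.val, NumIs.lkR]
    push_cast
    ring
  rcases hx with rfl | rfl <;> rcases hw with rfl | rfl
  · have := use (c := 3800) (x := 1200) (w := 1300) (S := (-980)) (s := (-1))
      (l1 := (-590)) (h1 := 150) (Te := E.q 570 10000)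
      (by decide +kernel) (t := t) (r := r) (by push_cast; linarith only [ht])
      (by push_cast; linarith only [ht']) hr hr' (c' := 3800 / 10000) (by push_cast; ring)
      (x' := 1200 / 10000) (by push_cast; ring) hT (w' := 1300 / 10000) (by push_cast; ring)
      (S' := -(980 / 10000)) (by push_cast; ring) hh
    push_cast at this
    linarith only [this]
  · have := use (c := 3800) (x := 1200) (w := 3100) (S := (-980)) (s := (-1))
      (l1 := (-590)) (h1 := 150) (Te := E.q 570 10000)
      (by decide +kernel) (t := t) (r := r) (by push_cast; linarith only [ht])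
      (by push_cast; linarith only [ht']) hr hr' (c' := 3800 / 10000) (by push_cast; ring)
      (x' := 1200 / 10000) (by push_cast; ring) hT (w' := 3100 / 10000) (by push_cast; ring)
      (S' := -(980 / 10000)) (by push_cast; ring) hh
    push_cast at this
    linarith only [this]
  · have := use (c := 3800) (x := 3100) (w := 1300) (S := (-980)) (s := (-1))
      (l1 := (-590)) (h1 := 150) (Te := E.q 570 10000)
      (by decide +kernel) (t := t) (r := r) (by push_cast; linarith only [ht])
      (by push_cast; linarith only [ht']) hr hr' (c' := 3800 / 10000) (by push_cast; ring)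
      (x' := 3100 / 10000) (by push_cast; ring) hT (w' := 1300 / 10000) (by push_cast; ring)
      (S' := -(980 / 10000)) (by push_cast; ring) hh
    push_cast at this
    linarith only [this]
  · have := use (c := 3800) (x := 3100) (w := 3100) (S := (-980)) (s := (-1))
      (l1 := (-590)) (h1 := 150) (Te := E.q 570 10000)
      (by decide +kernel) (t := t) (r := r) (by push_cast; linarith only [ht])
      (by push_cast; linarith only [ht']) hr hr' (c' := 3800 / 10000) (by push_cast; ring)
      (x' := 3100 / 10000) (by push_cast; ring) hT (w' := 3100 / 10000) (by push_cast; ring)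
      (S' := -(980 / 10000)) (by push_cast; ring) hh
    push_cast at this
    linarith only [this]

theorem hi_NN_b (ht : -(1230 / 10000) ≤ t) (ht' : t ≤ -(590 / 10000)) (hr : 0 ≤ r)
    (hr' : r ≤ 5 / 100)
    {x' w' : ℝ} (hx : x' ∈ ({1200 / 10000, 3100 / 10000} : Set ℝ))
    (hw : w' ∈ ({1300 / 10000, 3100 / 10000} : Set ℝ)) :
    0 < FA (3800 / 10000) r t x' (t + 1160 / 10000) + Real.pi * (20 * t * r - (t + 1160 / 10000)) +
      FB (3800 / 10000) r t w' (-(980 / 10000)) + FC (3800 / 10000) r t := by
  have hh : |t| ≤ 135 / 1000 := by rw [abs_le]; constructor <;> linarith only [ht, ht']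
  have hT : (E.add (E.var 0) (E.q 1160 10000)).val [t, r] = (t + 1160 / 10000) := by
    simp only [E.val, NumIs.lkR]
    push_cast
    ring
  rcases hx with rfl | rfl <;> rcases hw with rfl | rfl
  · have := use (c := 3800) (x := 1200) (w := 1300) (S := (-980)) (s := (-1))
      (l1 := (-1230)) (h1 := (-590)) (Te := E.add (E.var 0) (E.q 1160 10000))
      (by decide +kernel) (t := t) (r := r) (by push_cast; linarith only [ht])
      (by push_cast; linarith only [ht']) hr hr' (c' := 3800 / 10000) (by push_cast; ring)
      (x' := 1200 / 10000) (by push_cast; ring) hT (w' := 1300 / 10000) (by push_cast; ring)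
      (S' := -(980 / 10000)) (by push_cast; ring) hh
    push_cast at this
    linarith only [this]
  · have := use (c := 3800) (x := 1200) (w := 3100) (S := (-980)) (s := (-1))
      (l1 := (-1230)) (h1 := (-590)) (Te := E.add (E.var 0) (E.q 1160 10000))
      (by decide +kernel) (t := t) (r := r) (by push_cast; linarith only [ht])
      (by push_cast; linarith only [ht']) hr hr' (c' := 3800 / 10000) (by push_cast; ring)
      (x' := 1200 / 10000) (by push_cast; ring) hT (w' := 3100 / 10000) (by push_cast; ring)
      (S' := -(980 / 10000)) (by push_cast; ring) hh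
    push_cast at this
    linarith only [this]
  · have := use (c := 3800) (x := 3100) (w := 1300) (S := (-980)) (s := (-1))
      (l1 := (-1230)) (h1 := (-590)) (Te := E.add (E.var 0) (E.q 1160 10000))
      (by decide +kernel) (t := t) (r := r) (by push_cast; linarith only [ht])
      (by push_cast; linarith only [ht']) hr hr' (c' := 3800 / 10000) (by push_cast; ring)
      (x' := 3100 / 10000) (by push_cast; ring) hT (w' := 1300 / 10000) (by push_cast; ring)
      (S' := -(980 / 10000)) (by push_cast; ring) hh
    push_cast at this
    linarith only [this]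
  · have := use (c := 3800) (x := 3100) (w := 3100) (S := (-980)) (s := (-1))
      (l1 := (-1230)) (h1 := (-590)) (Te := E.add (E.var 0) (E.q 1160 10000))
      (by decide +kernel) (t := t) (r := r) (by push_cast; linarith only [ht])
      (by push_cast; linarith only [ht']) hr hr' (c' := 3800 / 10000) (by push_cast; ring)
      (x' := 3100 / 10000) (by push_cast; ring) hT (w' := 3100 / 10000) (by push_cast; ring)
      (S' := -(980 / 10000)) (by push_cast; ring) hh
    push_cast at this
    linarith only [this]

/-! ### the four cases -/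

theorem real_11 (hx : 1200 / 10000 ≤ x) (hx' : x ≤ 4050 / 10000) (hT : -(1145 / 10000) ≤ T)
    (hT' : T ≤ -(210 / 10000)) (hw : 1300 / 10000 ≤ w) (hw' : w ≤ 3600 / 10000)
    (hS : -(1145 / 10000) ≤ S)
    (ht : -(950 / 10000) ≤ t) (ht' : t ≤ -(80 / 10000)) (hr : 0 ≤ r)
    (hr' : r ≤ 5 / 100) :
    0 < FA (4800 / 10000) r t x T - Real.pi * |20 * t * r - T| + FB (4800 / 10000) r t w S +
      FC (4800 / 10000) r t := by
  exact corner (T1 := (-(210 / 10000))) (by linarith only [hr']) hx hx' hw hw' (by norm_num)
    (by norm_num) (by linarith only [hr]) (by linarith only [hr']) (by norm_num) (by norm_num) (by linarith only [hr])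
    (by linarith only [hr']) hT hT' hS fun x' h1 w' h2 => ⟨lo_11 ht ht' hr hr' h1 h2,
      hi_11 ht ht' hr hr' h1 h2⟩

theorem real_1N (hx : 1200 / 10000 ≤ x) (hx' : x ≤ 4050 / 10000) (hT : -(1145 / 10000) ≤ T)
    (hT' : T ≤ -(210 / 10000)) (hw : 1300 / 10000 ≤ w) (hw' : w ≤ 3100 / 10000)
    (hS : -(980 / 10000) ≤ S)
    (ht : -(920 / 10000) ≤ t) (ht' : t ≤ 150 / 10000) (hr : 0 ≤ r)
    (hr' : r ≤ 5 / 100) :
    0 < FA (4800 / 10000) r t x T - Real.pi * |20 * t * r - T| + FB (4800 / 10000) r t w S +
      FC (4800 / 10000) r t := by
  exact corner (T1 := (-(210 / 10000))) (by linarith only [hr']) hx hx' hw hw' (by norm_num)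
    (by norm_num) (by linarith only [hr]) (by linarith only [hr']) (by norm_num) (by norm_num) (by linarith only [hr])
    (by linarith only [hr']) hT hT' hS fun x' h1 w' h2 => ⟨lo_1N ht ht' hr hr' h1 h2,
      hi_1N ht ht' hr hr' h1 h2⟩

theorem real_N1 (hx : 1200 / 10000 ≤ x) (hx' : x ≤ 3100 / 10000) (hT : -(980 / 10000) ≤ T)
    (hT' : T ≤ 570 / 10000) (hw : 1300 / 10000 ≤ w) (hw' : w ≤ 3600 / 10000)
    (hS : -(1145 / 10000) ≤ S)
    (ht : -(1350 / 10000) ≤ t) (ht' : t ≤ 150 / 10000) (hc : -(1260 / 10000) ≤ t - T) (hr : 0 ≤ r)
    (hr' : r ≤ 5 / 100) :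
    0 < FA (3800 / 10000) r t x T - Real.pi * |20 * t * r - T| + FB (3800 / 10000) r t w S +
      FC (3800 / 10000) r t := by
  rcases le_total (-(690 / 10000)) t with h | h
  · exact corner (T1 := (570 / 10000)) (by linarith only [hr']) hx hx' hw hw' (by norm_num)
      (by norm_num) (by linarith only [hr]) (by linarith only [hr']) (by norm_num) (by norm_num) (by linarith only [hr])
      (by linarith only [hr']) hT hT' hS fun x' h1 w' h2 => ⟨lo_N1 ht ht' hr hr' h1 h2,
        hi_N1 h ht' hr hr' h1 h2⟩
  · exact corner (T1 := t + 1260 / 10000) (by linarith only [hr']) hx hx' hw hw' (by norm_num)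
      (by norm_num) (by linarith only [hr]) (by linarith only [hr']) (by norm_num) (by norm_num) (by linarith only [hr])
      (by linarith only [hr']) hT (by linarith only [hc]) hS fun x' h1 w' h2 => ⟨lo_N1 ht ht' hr hr' h1 h2,
        hi_N1_b ht h hr hr' h1 h2⟩

theorem real_NN (hx : 1200 / 10000 ≤ x) (hx' : x ≤ 3100 / 10000) (hT : -(980 / 10000) ≤ T)
    (hT' : T ≤ 570 / 10000) (hw : 1300 / 10000 ≤ w) (hw' : w ≤ 3100 / 10000)
    (hS : -(980 / 10000) ≤ S)
    (ht : -(1230 / 10000) ≤ t) (ht' : t ≤ 150 / 10000) (hc : -(1160 / 10000) ≤ t - T) (hr : 0 ≤ r)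
    (hr' : r ≤ 5 / 100) :
    0 < FA (3800 / 10000) r t x T - Real.pi * |20 * t * r - T| + FB (3800 / 10000) r t w S +
      FC (3800 / 10000) r t := by
  rcases le_total (-(590 / 10000)) t with h | h
  · exact corner (T1 := (570 / 10000)) (by linarith only [hr']) hx hx' hw hw' (by norm_num)
      (by norm_num) (by linarith only [hr]) (by linarith only [hr']) (by norm_num) (by norm_num) (by linarith only [hr])
      (by linarith only [hr']) hT hT' hS fun x' h1 w' h2 => ⟨lo_NN ht ht' hr hr' h1 h2,
        hi_NN h ht' hr hr' h1 h2⟩
  · exact corner (T1 := t + 1160 / 10000) (by linarith only [hr']) hx hx' hw hw' (by norm_num)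
      (by norm_num) (by linarith only [hr]) (by linarith only [hr']) (by norm_num) (by norm_num) (by linarith only [hr])
      (by linarith only [hr']) hT (by linarith only [hc]) hS fun x' h1 w' h2 => ⟨lo_NN ht ht' hr hr' h1 h2,
        hi_NN_b ht h hr hr' h1 h2⟩

end VM

end Pool.Agent.Work.MP_b30479_gtS.G2
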