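import Pool.Agent.Work.MP_b30479_gt.TBS.G2.MRBase
import Pool.Agent.Work.MP_b30479_gt.TBS.NumU.Node

/-!
# Block value of a ring: certificate `C3a`

`f(w, ζ) = UU(w + 1/2 + ζ) + UU(w + 1/2 - ζ) - 2 UU w`, `w = x + i t`, `ζ = -1/4 + i ρ`:
`f - π t - π ρ / 2 > 0` for `.06 ≤ x ≤ .25`, `-.002 ≤ t ≤ min (.056, .56 x)`, `0 ≤ ρ ≤ .1045`.
-/

set_option deprecated.oldSectionVars true

namespace Pool.Agent.Work.MP_b30479_gtS.G2

open VOL

namespace VC3

section
open NumIs NumIs.E

theorem smallK : 2 * Real.cosh (Real.pi * (2 * (11 / 100))) - 2 * Real.cos (Real.pi * (2 * (5 / 100)))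
    < 1 := by
  have h : chk [sub (q 1 1) (sub (mul (q 2 1) (cosh (mul pi (q 22 100))))
      (mul (q 2 1) (cosPi (q 1 10))))] 1 [V.of 1 0 0] = true := by decide +kernel
  have hp := pos_of_chk (chk1 h (by norm_num) (x := 0) (by norm_num) (by norm_num))
  simp only [val] at hp
  norm_num at hp ⊢
  linarith only [hp]

end

/-- `UU` near `0` -/
theorem UU_small {x y : ℝ} (h0 : 0 ≤ x) (h1 : x ≤ 5 / 100) (hy : |y| ≤ 11 / 100) :
    UU ⟨x, y⟩ ≤ -(Real.pi / 2 * |y|) := by
  have hp := Real.pi_pos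
  have hpt : ∀ s : ℝ, (y : ℂ) * Complex.I + ((1 * s : ℝ) : ℂ) = ⟨s, y⟩ := by
    intro s
    apply Complex.ext <;> simp
  have hd : ∀ s ∈ Set.Ioo (0 : ℝ) (5 / 100), HasDerivAt
      (fun s : ℝ => UU ((y : ℂ) * Complex.I + ((1 * s : ℝ) : ℂ))) (1 * LL ⟨s, y⟩) s := by
    intro s hs
    have h2 := hasDerivAt_UU_level ((y : ℂ) * Complex.I) 1 s (by
      rw [hpt]
      intro hc
      rw [Complex.sin_eq_zero_iff] at hc
      obtain ⟨k, hk⟩ := hc
      have hk1 : (⟨s, y⟩ : ℂ) = k := by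
        have : (Real.pi : ℂ) ≠ 0 := by exact_mod_cast hp.ne'
        apply mul_left_cancel₀ this
        rw [hk]
        ring
      have hk2 := congrArg Complex.re hk1
      simp only [Complex.intCast_re] at hk2
      have a1 := hs.1
      have a2 := hs.2
      rw [hk2] at a1 a2
      have a3 : (0 : ℤ) < k := by exact_mod_cast a1
      have a4 : (k : ℝ) < 1 := by linarith only [a1, a2]
      have a5 : k < 1 := by exact_mod_cast a4
      omega)
    rw [hpt] at h2
    exact h2
  have hanti : AntitoneOn (fun s : ℝ => UU ((y : ℂ) * Complex.I + ((1 * s : ℝ) : ℂ)))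
      (Set.Icc 0 (5 / 100)) := by
    apply antitoneOn_of_deriv_nonpos (convex_Icc _ _)
    · apply Continuous.continuousOn
      exact continuous_UU.comp (by fun_prop)
    · rw [interior_Icc]
      exact fun s hs => (hd s hs).differentiableAt.differentiableWithinAt
    · rw [interior_Icc]
      intro s hs
      rw [(hd s hs).deriv, one_mul]
      have h3 : LL ⟨s, y⟩ ≤ Real.log 1 / 2 := by
        apply MR.LL_le_log le_rfl
        have h4 := MR.cosh_le_of (t := y) (r := 11 / 100) hy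
        have h5 : Real.cos (Real.pi * (2 * (5 / 100))) ≤ Real.cos (2 * Real.pi * s) := by
          apply Real.cos_le_cos_of_nonneg_of_le_pi
          · have := hs.1
            positivity
          · nlinarith only [hp]
          · have := hs.2
            nlinarith only [hp, this]
        have h6 := smallK
        simp only
        linarith only [h4, h5, h6]
      rw [Real.log_one] at h3
      linarith only [h3]
  have h2 := hanti (Set.left_mem_Icc.2 (by norm_num)) ⟨h0, h1⟩ h0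
  simp only [hpt] at h2
  refine h2.trans (le_of_eq ?_)
  unfold UU
  simp only [DT.Lr_zero_right]
  ring

end VC3

end Pool.Agent.Work.MP_b30479_gtS.G2

namespace Pool.Agent.Work.NumUs

open NumIs (V)
open E

namespace C3

def fA : E := sub (sub (add (E.uu (add (var 0) (q 1 4)) (add (var 1) (var 2)))
  (E.uu (add (var 0) (q 3 4)) (sub (var 1) (var 2)))) (mul (q 2 1) (E.uu (var 0) (var 1))))
  (mul pi (add (var 1) (mul (q 1 2) (var 2))))
def fB : E := sub (sub (E.uu (add (var 0) (q 1 4)) (add (var 1) (var 2)))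
  (mul (q 2 1) (E.uu (var 0) (var 1)))) (mul pi (mul (q 3 2) (var 1)))
def fC : E := sub (sub (E.uu (add (var 0) (q 1 4)) (add (var 1) (var 2)))
  (mul (q 2 1) (E.uu (var 0) (var 1)))) (mul pi (add (mul (q 1 2) (var 1)) (var 2)))
def fD : E := sub (var 1) (mul (q 56 100) (var 0))

theorem rowA {x t r : ℝ} (h1 : 6 / 100 ≤ x) (h1' : x ≤ 1 / 10) (h2 : -(2 / 1000) ≤ t)
    (h2' : t ≤ 56 / 1000) (h3 : 0 ≤ r) (h3' : r ≤ 1045 / 10000) (h4 : t ≤ 56 / 100 * x) :
    0 < uu (x + 1 / 4) (t + r) + uu (x + 3 / 4) (t - r) - 2 * uu x t - Real.pi * (t + 1 / 2 * r) := by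
  have h : chk [fA, fD] 20 [V.of 10000 600 1000, V.of 10000 (-20) 560, V.of 10000 0 1045] = true := by
    decide +kernel
  obtain ⟨e, he, hp⟩ := chk3 h (by norm_num) (x := x) (y := t) (z := r)
    (by norm_num; linarith only [h1]) (by norm_num; linarith only [h1']) (by norm_num; linarith only [h2]) (by norm_num; linarith only [h2'])
    (by norm_num; linarith only [h3]) (by norm_num; linarith only [h3'])
  simp only [List.mem_cons, List.not_mem_nil, or_false] at he
  rcases he with rfl | rfl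
  · simp only [fA, val, NumIs.lkR] at hp
    push_cast at hp
    linarith only [hp]
  · simp only [fD, val, NumIs.lkR] at hp
    push_cast at hp
    linarith only [h4, hp]

theorem rowB {x t r : ℝ} (h1 : 1 / 10 ≤ x) (h1' : x ≤ 24 / 100) (h2 : -(2 / 1000) ≤ t)
    (h2' : t ≤ 56 / 1000) (h3 : 0 ≤ r) (h3' : r ≤ 1045 / 10000) :
    0 < uu (x + 1 / 4) (t + r) + uu (x + 3 / 4) (t - r) - 2 * uu x t - Real.pi * (t + 1 / 2 * r) := by
  have h : chk [fA] 20 [V.of 10000 1000 2400, V.of 10000 (-20) 560, V.of 10000 0 1045] = true := by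
    decide +kernel
  obtain ⟨e, he, hp⟩ := chk3 h (by norm_num) (x := x) (y := t) (z := r)
    (by norm_num; linarith only [h1]) (by norm_num; linarith only [h1']) (by norm_num; linarith only [h2]) (by norm_num; linarith only [h2'])
    (by norm_num; linarith only [h3]) (by norm_num; linarith only [h3'])
  simp only [List.mem_cons, List.not_mem_nil, or_false] at he
  rcases he with rfl
  simp only [fA, val, NumIs.lkR] at hp
  push_cast at hp
  linarith only [hp]

theorem rowC {x t r : ℝ} (h1 : 24 / 100 ≤ x) (h1' : x ≤ 1 / 4) (h2 : -(2 / 1000) ≤ t)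
    (h2' : t ≤ 56 / 1000) (h3 : 0 ≤ r) (h3' : r ≤ 1045 / 10000) :
    0 < uu (x + 1 / 4) (t + r) + uu (x + 3 / 4) (t - r) - 2 * uu x t - Real.pi * (t + 1 / 2 * r) := by
  have h : chk [fB, fC] 20 [V.of 10000 2400 2500, V.of 10000 (-20) 560, V.of 10000 0 1045] = true := by
    decide +kernel
  obtain ⟨e, he, hp⟩ := chk3 h (by norm_num) (x := x) (y := t) (z := r)
    (by norm_num; linarith only [h1]) (by norm_num; linarith only [h1']) (by norm_num; linarith only [h2]) (by norm_num; linarith only [h2'])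
    (by norm_num; linarith only [h3]) (by norm_num; linarith only [h3'])
  have h5 : Real.pi / 2 * |t - r| ≤ uu (x + 3 / 4) (t - r) := by
    have h6 := MP_b30479_gtS.G2.VC3.UU_small (x := 1 / 4 - x) (y := t - r) (by linarith only [h1']) (by linarith only [h1])
      (by rw [abs_le]; constructor <;> linarith only [h2, h3', h2', h3])
    have h7 := uu_one_sub (1 / 4 - x) (t - r)
    rw [show 1 - (1 / 4 - x) = x + 3 / 4 by ring] at h7
    have h8 : uu (1 / 4 - x) (t - r) ≤ -(Real.pi / 2 * |t - r|) := h6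
    linarith only [h7, h8]
  have hp0 := Real.pi_pos
  have h6 : Real.pi / 2 * (t - r) ≤ Real.pi / 2 * |t - r| :=
    mul_le_mul_of_nonneg_left (le_abs_self _) (by positivity)
  have h7 : Real.pi / 2 * (-(t - r)) ≤ Real.pi / 2 * |t - r| :=
    mul_le_mul_of_nonneg_left (neg_le_abs _) (by positivity)
  simp only [List.mem_cons, List.not_mem_nil, or_false] at he
  rcases he with rfl | rfl
  · simp only [fB, val, NumIs.lkR] at hp
    push_cast at hp
    linarith only [h5, h7, hp]
  · simp only [fC, val, NumIs.lkR] at hp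
    push_cast at hp
    linarith only [h5, h6, hp]

/-- **The certificate `C3a`**, real form. -/
theorem c3a {x t r : ℝ} (h1 : 6 / 100 ≤ x) (h1' : x ≤ 1 / 4) (h2 : -(2 / 1000) ≤ t)
    (h2' : t ≤ 56 / 1000) (h3 : 0 ≤ r) (h3' : r ≤ 1045 / 10000) (h4 : t ≤ 56 / 100 * x) :
    0 < uu (x + 1 / 4) (t + r) + uu (x + 3 / 4) (t - r) - 2 * uu x t -
      Real.pi * (t + 1 / 2 * r) := by
  rcases le_total x (1 / 10) with h5 | h5
  · exact rowA h1 h5 h2 h2' h3 h3' h4
  · rcases le_total x (24 / 100) with h6 | h6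
    · exact rowB h5 h6 h2 h2' h3 h3'
    · exact rowC h6 h1' h2 h2' h3 h3'

end C3

end Pool.Agent.Work.NumUs

namespace Pool.Agent.Work.MP_b30479_gtS.G2

open VOL

/-- **The certificate `C3a`**: `w = x + i t`, `ζ = -1/4 + i ρ`. -/
theorem C3a {w ζ : ℂ} (h1 : 6 / 100 ≤ w.re) (h1' : w.re ≤ 1 / 4) (h2 : -(2 / 1000) ≤ w.im)
    (h2' : w.im ≤ 56 / 1000) (h4 : w.im ≤ 56 / 100 * w.re) (hz : ζ.re = -(1 / 4))
    (h3 : 0 ≤ ζ.im) (h3' : ζ.im ≤ 1045 / 10000) :
    Real.pi * w.im + Real.pi / 2 * ζ.im <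
      UU (w + 1 / 2 + ζ) + UU (w + 1 / 2 - ζ) - 2 * UU w := by
  have h := NumUs.C3.c3a h1 h1' h2 h2' h3 h3' h4
  have e1 : w + 1 / 2 + ζ = ⟨w.re + 1 / 4, w.im + ζ.im⟩ := by
    apply Complex.ext
    · simp [hz]; ring
    · simp
  have e2 : w + 1 / 2 - ζ = ⟨w.re + 3 / 4, w.im - ζ.im⟩ := by
    apply Complex.ext
    · simp [hz]; ring
    · simp
  rw [e1, e2]
  have e3 : UU w = NumUs.uu w.re w.im := rfl
  have e4 : UU ⟨w.re + 1 / 4, w.im + ζ.im⟩ = NumUs.uu (w.re + 1 / 4) (w.im + ζ.im) := rfl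
  have e5 : UU ⟨w.re + 3 / 4, w.im - ζ.im⟩ = NumUs.uu (w.re + 3 / 4) (w.im - ζ.im) := rfl
  rw [e3, e4, e5]
  linarith only [h]

end Pool.Agent.Work.MP_b30479_gtS.G2
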