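import Pool.Agent.Work.MP_b30479_gt.TBS.G2.WM11E
import Pool.Agent.Work.MP_b30479_gt.TBS.G2.H13A
import Pool.Agent.Work.MP_b30479_gt.TBS.G2.WM11G
import Pool.Agent.Work.MP_b30479_gt.TBS.G2.WM11R3s2
import Pool.Agent.Work.MP_b30479_gt.TBS.G2.WM11R4s2
import Pool.Agent.Work.MP_b30479_gt.TBS.G2.WM11R5s2
import Pool.Agent.Work.MP_b30479_gt.TBS.G2.WM11R6s4
import Pool.Agent.Work.MP_b30479_gt.TBS.G2.WM11R7s3
import Pool.Agent.Work.MP_b30479_gt.TBS.G2.WM11R8
import Pool.Agent.Work.MP_b30479_gt.TBS.G2.WM11R9s2
import Pool.Agent.Work.MP_b30479_gt.TBS.G2.WM11R10s1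
import Pool.Agent.Work.MP_b30479_gt.TBS.G2.WM11R11s3
import Pool.Agent.Work.MP_b30479_gt.TBS.G2.WM11R12
import Pool.Agent.Work.MP_b30479_gt.TBS.G2.WM11R13s3
import Pool.Agent.Work.MP_b30479_gt.TBS.G2.WM11R14s2
import Pool.Agent.Work.MP_b30479_gt.TBS.G2.WM11R15s2
import Pool.Agent.Work.MP_b30479_gt.TBS.G2.WM11R16s2
import Pool.Agent.Work.MP_b30479_gt.TBS.G2.WM11R17s2
import Pool.Agent.Work.MP_b30479_gt.TBS.G2.WM11R9s3
import Pool.Agent.Work.MP_b30479_gt.TBS.G2.WM11R2s2
import Pool.Agent.Work.MP_b30479_gt.TBS.G2.WM11R2s3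

section

/-!
# Pieces of the certificates of `WM11R15`, part 3
-/

set_option deprecated.oldSectionVars true

namespace Pool.Agent.Work.NumGs
namespace M11

theorem r_F3bA_KZy_1_q1 : Pool.Agent.Work.NumIs.runE (Pool.Agent.Work.NumGs.tst (A1p F3b KZy))
    0 0 0 0 37 50852412784 54975581389 0 3504693315 9620726743 18382460027 0 9345848838
    75103560788851963215371826271303168634019895854372969495399990343649319854394195527066517970783427103830697523393728996529907363207783719459754095049173896480740453473446162865565540281901953400656628920527603957220534561019657349311746336638268352297694394406646676076875718597643374426010366878550233912686003727107452816049501541722949736433837815395152819871168514572356015012018519762785792300648405801547269243951038252585960707775848231435979322893060522336662861136844516298943731517122184975869781232075896925535467261451016527520905211270545137114301075578741572780347728334411465169053339261420246193551633589328494171554051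
    5842132577634984336637636071448250844835385558507228791311364493769545471016190692538477826949405703075270088442659928965892199121716062672775085764095596236312885071320702263778998765935030589882191468012684360779852852170676102399833479390228757346361715041297045389659103683068089336408577739986273089909277285892787251387255334837693289066687048477353229826805918718150913795117325168959836630081576113462130591984158937268672957351741168663307078855015308892555275693164698574700527102827510502642149226880389379829696526348820894894629871894715065731936617945098142080 = true := by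
  decide +kernel

theorem r_F3bA_KZy_1_q2 : Pool.Agent.Work.NumIs.runE (Pool.Agent.Work.NumGs.tst (A1p F3b KZy))
    0 0 0 0 37 54975581389 59098749994 0 3504693315 9620726743 18382460027 0 9345848838
    5842132577634984336637636071448250844835385558507228791311364493769545471016190692538477826949405703075270088442659928965892199121716062672775085764095596236312885071320702263778998765935030589882191468012684360779852852170676102399833479390228757346361715041297045389659103683068089336408577739986273089909277285892787251387255334837693289066687048477353229826805918718150913795117325168959836630081576113462130591984158937268672957351741168663307078855015308892555275693164698574700527102827510502642149226880389379829696526348820894894629871894715065731936617945098142080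
    1002463155856771569641405554741099102153458404072419204960568221962524027638356367114496 = true := by
  decide +kernel

theorem r_F3bA_KZy_1_q3 : Pool.Agent.Work.NumIs.runE (Pool.Agent.Work.NumGs.tst (A1p F3b KZy))
    0 0 0 0 38 50852412784 59098749994 0 3504693315 18382460027 27144193311 0 9345848838
    1002463155856771569641405554741099102153458404072419204960568221962524027638356367114496
    20932407391731496908243378829852674 = true := by
  decide +kernel

theorem r_F3bA_KZy_1_q4 : Pool.Agent.Work.NumIs.runE (Pool.Agent.Work.NumGs.tst (A1p F3b KZy))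
    0 0 0 0 39 50852412784 59098749994 0 3504693315 27144193311 44667659880 0 9345848838
    20932407391731496908243378829852674
    0 = true := by
  decide +kernel

theorem r_F3bA_KZy_1 : chkF (A1p F3b KZy) 1000 0 0 0 0 40 740 860 0 51 140 650 0 136
  157503582715462472361043456208515982707172092630789981723217080549164858431282495937978602295464405717652754972580205552530688286565930042832462219940565135352377803482744567345846503933271245378093850653942305694092958495711496449423827453373617751557814394618687890027972067008484997964256492920085380150457278088310848888083844257227367485661695842231575526498460792672445561594484662757565749894889405523526458789490407773487152670233535670252426908963827660539377192558855751045362444438595824466515263450410431389180556238286522212723521405626446275389530729252109046839451799171967673002210548538765992145299195485127430208862921163010 = true :=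
    Pool.Agent.Work.NumIs.okB_of rfl rfl rfl rfl rfl rfl rfl rfl rfl rfl rfl rfl
    (Pool.Agent.Work.NumIs.runE_split2 rfl rfl rfl
      (Pool.Agent.Work.NumIs.runE_split2 rfl rfl rfl
        (Pool.Agent.Work.NumIs.runE_split0 rfl rfl rfl
          r_F3bA_KZy_1_q1
          r_F3bA_KZy_1_q2)
        r_F3bA_KZy_1_q3)
      r_F3bA_KZy_1_q4)

theorem r_F3bB_K3m_0 : chkF (B0 F3b K3m) 1000 0 0 0 0 40 740 860 0 51 0 260 21 92
  13623707635700128956579054100604567123395327996104320855335199846086757409430136188025574352889785943218521003029910587193720834 = true := by decide +kernel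

theorem r_F3bB_K3m_1 : chkF (B1 F3b K3m) 1000 0 0 0 0 40 740 860 0 51 140 650 21 92
  78994530908160329015641547985001498230252910095524439965410705165895724580915609262522057368907892094220000940077699347104955317568417672972419987349552790104611268637575479323144261317015319181843759362 = true := by decide +kernel

theorem r_F3bB_K3pm_0 : chkF (B0 F3b K3pm) 1000 0 0 0 0 40 740 860 0 51 0 260 21 92
  263520780571775860105126730202932663944389423717214259841836984328316665541097638018030238258860597597247565743841184716237574245545231673672856284200962 = true := by decide +kernel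

theorem r_F3bB_K3pm_1 : chkF (B1 F3b K3pm) 1000 0 0 0 0 40 740 860 0 51 140 650 21 92
  294286470640518105322637292749199571798585491944836732070919576967188200897068126577595274222839687822982834829571761665757904572251076937913550509225925119519106810725915531472118366140782084354 = true := by decide +kernel

end M11

end Pool.Agent.Work.NumGs

end

section

/-!
# Kind `1 | 1`: the families of rows
-/

namespace Pool.Agent.Work.NumGs

namespace M11

open MP_b30479_gtS.G2 (V1 tr dh1 DOk)
open MP_b30479_gtS.G2.SR (cw Cl)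

namespace Core

variable {XA XB : ℂ} {x T XM : ℝ} {P Q : Cl} (C : Core P Q T x XM XA XB)
include C

theorem cG1 (hX : XM = 80 / 100 ∨ XM = 86 / 100) (h1 : 400 / 1000 ≤ x) (h2 : x ≤ 600 / 1000)
    (h4 : T ≤ 80 / 1000) (hA : InK K12 XA ∨ InK KU XA ∨ InK K3 XA ∨ InK KZ XA)
    (hB : InK K12 XB ∨ InK K3 XB ∨ InK KZ XB) : False := by
  have T0 := C.T0
  have x1 := C.x1
  have hF : InF G1 x T := by
    unfold InF
    simp only [G1]
    push_cast
    exact ⟨⟨by linarith only [h1], by linarith only [h2]⟩, by linarith only [T0], by linarith only [h4]⟩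
  have e1 : τf G1 x = t1 XM x := by
    have q : ∀ X : ℝ, 80 / 100 ≤ X → tr 0 X (15 / 100) (1 / 5) x = 1 := by
      intro X hX'
      unfold tr
      have a1 : 1 ≤ (X - x) / (1 / 5) := by rw [le_div_iff₀ (by norm_num)]; linarith only [h2, hX']
      have a2 : 1 ≤ (x - 0) / (15 / 100) := by rw [le_div_iff₀ (by norm_num)]; linarith only [h1]
      rw [min_eq_left (le_min a2 a1)]
      norm_num
    unfold τf t1
    rw [q, q]
    · rcases hX with h | h
      · rw [h]
      · rw [h]
        norm_num
    · simp only [G1]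
      norm_num
  refine C.far e1 (by simp [G1]) (by simp only [G1]; norm_num)
    (by simp only [G1]; rcases hX with h | h <;> rw [h] <;> norm_num) ?_ ?_
  · rcases hA with h | h | h | h
    · exact farA rfl rfl r_G1A_K12 hF h
    · exact farA rfl rfl r_G1A_KU hF h
    · exact farA rfl rfl r_G1A_K3 hF h
    · exact farA rfl rfl r_G1A_KZ hF h
  · rcases hB with h | h | h
    · exact farB rfl rfl r_G1B_K12 hF h
    · exact farB rfl rfl r_G1B_K3 hF h
    · exact farB rfl rfl r_G1B_KZ hF h

theorem cG2 (hX : XM = 80 / 100) (h1 : 600 / 1000 ≤ x) (h2 : x ≤ 680 / 1000) (h4 : T ≤ 80 / 1000)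
    (hA : InK K12 XA ∨ InK KU XA ∨ InK K3 XA ∨ InK KZ XA)
    (hB : InK K12 XB ∨ InK K3 XB ∨ InK KZ XB) : False := by
  have T0 := C.T0
  have x1 := C.x1
  have hF : InF G2 x T := by
    unfold InF
    simp only [G2]
    push_cast
    exact ⟨⟨by linarith only [h1], by linarith only [h2]⟩, by linarith only [T0], by linarith only [h4]⟩
  have e1 : τf G2 x = t1 XM x := by
    unfold τf t1
    rw [hX]
    simp only [G2]
    norm_num
  refine C.far e1 (by simp [G2]) (by simp only [G2]; norm_num)
    (by rw [hX]; simp only [G2]; norm_num) ?_ ?_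
  · rcases hA with h | h | h | h
    · exact farA rfl rfl r_G2A_K12 hF h
    · exact farA rfl rfl r_G2A_KU hF h
    · exact farA rfl rfl r_G2A_K3 hF h
    · exact farA rfl rfl r_G2A_KZ hF h
  · rcases hB with h | h | h
    · exact farB rfl rfl r_G2B_K12 hF h
    · exact farB rfl rfl r_G2B_K3 hF h
    · exact farB rfl rfl r_G2B_KZ hF h

theorem cG3 (hX : XM = 86 / 100) (h1 : 600 / 1000 ≤ x) (h2 : x ≤ 740 / 1000) (h4 : T ≤ 80 / 1000)
    (hA : InK K12 XA ∨ InK K3 XA ∨ InK KZ XA) (hB : InK K12 XB ∨ InK K3 XB ∨ InK KZ XB)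
    : False := by
  have T0 := C.T0
  have x1 := C.x1
  have hF : InF G3 x T := by
    unfold InF
    simp only [G3]
    push_cast
    exact ⟨⟨by linarith only [h1], by linarith only [h2]⟩, by linarith only [T0], by linarith only [h4]⟩
  have e1 : τf G3 x = t1 XM x := by
    unfold τf t1
    rw [hX]
    simp only [G3]
    norm_num
  refine C.far e1 (by simp [G3]) (by simp only [G3]; norm_num)
    (by rw [hX]; simp only [G3]; norm_num) ?_ ?_
  · rcases hA with h | h | h
    · exact farA rfl rfl r_G3A_K12 hF h
    · exact farA rfl rfl r_G3A_K3 hF h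
    · exact farA rfl rfl r_G3A_KZ hF h
  · rcases hB with h | h | h
    · exact farB rfl rfl r_G3B_K12 hF h
    · exact farB rfl rfl r_G3B_K3 hF h
    · exact farB rfl rfl r_G3B_KZ hF h

theorem cF1 (hX : XM = 80 / 100) (h1 : 680 / 1000 ≤ x) (h4 : T ≤ 56 / 1000)
    (hA : InK K1 XA ∨ InK KU XA) (hB : InK K12 XB ∨ InK K3 XB) : False := by
  have T0 := C.T0
  have x1 := C.x1
  have hF : InF F1 x T := by
    unfold InF
    simp only [F1]
    push_cast
    rw [hX] at x1
    exact ⟨⟨by linarith only [h1], by linarith only [x1]⟩, by linarith only [T0], by linarith only [h4]⟩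
  have e1 : τf F1 x = t1 XM x := by
    unfold τf t1
    rw [hX]
    simp only [F1]
    norm_num
  have e2 : 0 < τf F1 x := by
    rw [e1]
    exact C.tp
  refine C.mix e1 (by simp [F1]) (by simp only [F1]; norm_num)
    (by rw [hX]; simp only [F1]; norm_num) (by decide) ?_ ?_
  · rcases hA with h | h
    · exact mixA rfl rfl rfl (Or.inr ⟨_, r_F1A_K1_0⟩)
        (Or.inl r_F1A_K1_1) hF h e2
    · exact mixA rfl rfl rfl (Or.inl (by decide))
        (Or.inr ⟨by decide, r_F1A_KU_1⟩) hF h e2
  · rcases hB with h | h
    · exact mixB rfl rfl rfl (Or.inr ⟨_, r_F1B_K12_0⟩)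
        (Or.inl r_F1B_K12_1) hF h e2
    · exact mixB rfl rfl rfl (Or.inr ⟨_, r_F1B_K3_0⟩)
        (Or.inl r_F1B_K3_1) hF h e2

theorem cF2 (hX : XM = 80 / 100) (h1 : 680 / 1000 ≤ x) (h4 : T ≤ 65 / 1000)
    (hA : InK K2P XA ∨ InK K3 XA) (hB : InK K1 XB) : False := by
  have T0 := C.T0
  have x1 := C.x1
  have hF : InF F2 x T := by
    unfold InF
    simp only [F2]
    push_cast
    rw [hX] at x1
    exact ⟨⟨by linarith only [h1], by linarith only [x1]⟩, by linarith only [T0], by linarith only [h4]⟩
  have e1 : τf F2 x = t1 XM x := by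
    unfold τf t1
    rw [hX]
    simp only [F2]
    norm_num
  have e2 : 0 < τf F2 x := by
    rw [e1]
    exact C.tp
  refine C.mix e1 (by simp [F2]) (by simp only [F2]; norm_num)
    (by rw [hX]; simp only [F2]; norm_num) (by decide) ?_ ?_
  · rcases hA with h | h
    · exact mixA rfl rfl rfl (Or.inr ⟨_, r_F2A_K2P_0⟩)
        (Or.inl r_F2A_K2P_1) hF h e2
    · exact mixA rfl rfl rfl (Or.inr ⟨_, r_F2A_K3_0⟩)
        (Or.inr ⟨by decide, r_F2A_K3_1⟩) hF h e2
  · have h := hB
    exact mixB rfl rfl rfl (Or.inr ⟨_, r_F2B_K1_0⟩)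
        (Or.inl r_F2B_K1_1) hF h e2

theorem cF2e (hX : XM = 80 / 100) (h1 : 680 / 1000 ≤ x) (h4 : T ≤ 80 / 1000) (hA : InK KE XA)
    (hB : InK K1 XB) : False := by
  have T0 := C.T0
  have x1 := C.x1
  have hF : InF F2e x T := by
    unfold InF
    simp only [F2e]
    push_cast
    rw [hX] at x1
    exact ⟨⟨by linarith only [h1], by linarith only [x1]⟩, by linarith only [T0], by linarith only [h4]⟩
  have e1 : τf F2e x = t1 XM x := by
    unfold τf t1
    rw [hX]
    simp only [F2e]
    norm_num
  have e2 : 0 < τf F2e x := by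
    rw [e1]
    exact C.tp
  refine C.mix e1 (by simp [F2e]) (by simp only [F2e]; norm_num)
    (by rw [hX]; simp only [F2e]; norm_num) (by decide) ?_ ?_
  · have h := hA
    exact mixA rfl rfl rfl (Or.inr ⟨_, r_F2eA_KE_0⟩)
        (Or.inl r_F2eA_KE_1) hF h e2
  · have h := hB
    exact mixB rfl rfl rfl (Or.inr ⟨_, r_F2eB_K1_0⟩)
        (Or.inl r_F2eB_K1_1) hF h e2

theorem cF3 (hX : XM = 80 / 100) (h1 : 680 / 1000 ≤ x) (h4 : T ≤ 51 / 1000) (hA : InK KZ XA)
    (hB : InK K1 XB) : False := by
  have T0 := C.T0
  have x1 := C.x1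
  have hF : InF F3 x T := by
    unfold InF
    simp only [F3]
    push_cast
    rw [hX] at x1
    exact ⟨⟨by linarith only [h1], by linarith only [x1]⟩, by linarith only [T0], by linarith only [h4]⟩
  have e1 : τf F3 x = t1 XM x := by
    unfold τf t1
    rw [hX]
    simp only [F3]
    norm_num
  have e2 : 0 < τf F3 x := by
    rw [e1]
    exact C.tp
  refine C.mix e1 (by simp [F3]) (by simp only [F3]; norm_num)
    (by rw [hX]; simp only [F3]; norm_num) (by decide) ?_ ?_
  · have h := hA
    exact mixA rfl rfl rfl (Or.inr ⟨_, r_F3A_KZ_0⟩)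
        (Or.inr ⟨by decide, r_F3A_KZ_1⟩) hF h e2
  · have h := hB
    exact mixB rfl rfl rfl (Or.inr ⟨_, r_F3B_K1_0⟩)
        (Or.inl r_F3B_K1_1) hF h e2

theorem cF4 (hX : XM = 80 / 100) (h1 : 680 / 1000 ≤ x) (h4 : T ≤ 56 / 1000)
    (hA : InK K1 XA ∨ InK KU XA) (hB : InK KZ XB) : False := by
  have T0 := C.T0
  have x1 := C.x1
  have hF : InF F4 x T := by
    unfold InF
    simp only [F4]
    push_cast
    rw [hX] at x1
    exact ⟨⟨by linarith only [h1], by linarith only [x1]⟩, by linarith only [T0], by linarith only [h4]⟩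
  have e1 : τf F4 x = t1 XM x := by
    unfold τf t1
    rw [hX]
    simp only [F4]
    norm_num
  have e2 : 0 < τf F4 x := by
    rw [e1]
    exact C.tp
  refine C.mix e1 (by simp [F4]) (by simp only [F4]; norm_num)
    (by rw [hX]; simp only [F4]; norm_num) (by decide) ?_ ?_
  · rcases hA with h | h
    · exact mixA rfl rfl rfl (Or.inr ⟨_, r_F4A_K1_0⟩)
        (Or.inl r_F4A_K1_1) hF h e2
    · exact mixA rfl rfl rfl (Or.inl (by decide))
        (Or.inr ⟨by decide, r_F4A_KU_1⟩) hF h e2
  · have h := hB
    exact mixB rfl rfl rfl (Or.inr ⟨_, r_F4B_KZ_0⟩)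
        (Or.inl r_F4B_KZ_1) hF h e2

theorem cRR (hX : XM = 86 / 100) (h1 : 740 / 1000 ≤ x) (h4 : T ≤ 80 / 1000)
    (hA : InK K2P XA ∨ InK K3 XA ∨ InK KZ XA) (hB : InK KR XB) : False := by
  have T0 := C.T0
  have x1 := C.x1
  have hF : InF RR x T := by
    unfold InF
    simp only [RR]
    push_cast
    rw [hX] at x1
    exact ⟨⟨by linarith only [h1], by linarith only [x1]⟩, by linarith only [T0], by linarith only [h4]⟩
  have e1 : τf RR x = t1 XM x := by
    unfold τf t1
    rw [hX]
    simp only [RR]
    norm_num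
  have e2 : 0 < τf RR x := by
    rw [e1]
    exact C.tp
  refine C.mix e1 (by simp [RR]) (by simp only [RR]; norm_num)
    (by rw [hX]; simp only [RR]; norm_num) (by decide) ?_ ?_
  · rcases hA with h | h | h
    · exact mixA rfl rfl rfl (Or.inr ⟨_, r_RRA_K2P_0⟩)
        (Or.inl r_RRA_K2P_1) hF h e2
    · exact mixA rfl rfl rfl (Or.inr ⟨_, r_RRA_K3_0⟩)
        (Or.inr ⟨by decide, r_RRA_K3_1⟩) hF h e2
    · exact mixA rfl rfl rfl (Or.inr ⟨_, r_RRA_KZ_0⟩)
        (Or.inr ⟨by decide, r_RRA_KZ_1⟩) hF h e2
  · have h := hB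
    exact mixB rfl rfl rfl (Or.inr ⟨_, r_RRB_KR_0⟩)
        (Or.inr ⟨by decide, r_RRB_KR_1⟩) hF h e2

theorem cEE (hX : XM = 86 / 100) (h1 : 740 / 1000 ≤ x) (h4 : T ≤ 61 / 1000)
    (hA : InK K2P XA ∨ InK K3 XA ∨ InK KZ XA) (hB : InK KE XB ∨ InK K3E XB) : False := by
  have T0 := C.T0
  have x1 := C.x1
  have hF : InF EE x T := by
    unfold InF
    simp only [EE]
    push_cast
    rw [hX] at x1
    exact ⟨⟨by linarith only [h1], by linarith only [x1]⟩, by linarith only [T0], by linarith only [h4]⟩
  have e1 : τf EE x = t1 XM x := by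
    unfold τf t1
    rw [hX]
    simp only [EE]
    norm_num
  have e2 : 0 < τf EE x := by
    rw [e1]
    exact C.tp
  refine C.mix e1 (by simp [EE]) (by simp only [EE]; norm_num)
    (by rw [hX]; simp only [EE]; norm_num) (by decide) ?_ ?_
  · rcases hA with h | h | h
    · exact mixA rfl rfl rfl (Or.inr ⟨_, r_EEA_K2P_0⟩)
        (Or.inl r_EEA_K2P_1) hF h e2
    · exact mixA rfl rfl rfl (Or.inr ⟨_, r_EEA_K3_0⟩)
        (Or.inr ⟨by decide, r_EEA_K3_1⟩) hF h e2
    · exact mixA rfl rfl rfl (Or.inr ⟨_, r_EEA_KZ_0⟩)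
        (Or.inr ⟨by decide, r_EEA_KZ_1⟩) hF h e2
  · rcases hB with h | h
    · exact mixB rfl rfl rfl (Or.inr ⟨_, r_EEB_KE_0⟩)
        (Or.inr ⟨by decide, r_EEB_KE_1⟩) hF h e2
    · exact mixB rfl rfl rfl (Or.inr ⟨_, r_EEB_K3E_0⟩)
        (Or.inl r_EEB_K3E_1) hF h e2

theorem cN1 (hX : XM = 86 / 100) (h1 : 740 / 1000 ≤ x) (h4 : T ≤ 65 / 1000) (hA : InK K2P XA)
    (hB : InK K2 XB) : False := by
  have T0 := C.T0
  have x1 := C.x1
  have hF : InF N1 x T := by
    unfold InF
    simp only [N1]
    push_cast
    rw [hX] at x1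
    exact ⟨⟨by linarith only [h1], by linarith only [x1]⟩, by linarith only [T0], by linarith only [h4]⟩
  have e1 : τf N1 x = t1 XM x := by
    unfold τf t1
    rw [hX]
    simp only [N1]
    norm_num
  have e2 : 0 < τf N1 x := by
    rw [e1]
    exact C.tp
  refine C.mix e1 (by simp [N1]) (by simp only [N1]; norm_num)
    (by rw [hX]; simp only [N1]; norm_num) (by decide) ?_ ?_
  · have h := hA
    exact mixA rfl rfl rfl (Or.inr ⟨_, r_N1A_K2P_0⟩)
        (Or.inl r_N1A_K2P_1) hF h e2
  · have h := hB
    exact mixB rfl rfl rfl (Or.inr ⟨_, r_N1B_K2_0⟩)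
        (Or.inl r_N1B_K2_1) hF h e2

theorem cN2 (hX : XM = 86 / 100) (h1 : 740 / 1000 ≤ x) (h4 : T ≤ 51 / 1000)
    (hA : InK K3 XA ∨ InK KZ XA) (hB : InK K2 XB) : False := by
  have T0 := C.T0
  have x1 := C.x1
  have hF : InF N2 x T := by
    unfold InF
    simp only [N2]
    push_cast
    rw [hX] at x1
    exact ⟨⟨by linarith only [h1], by linarith only [x1]⟩, by linarith only [T0], by linarith only [h4]⟩
  have e1 : τf N2 x = t1 XM x := by
    unfold τf t1
    rw [hX]
    simp only [N2]
    norm_num
  have e2 : 0 < τf N2 x := by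
    rw [e1]
    exact C.tp
  refine C.mix e1 (by simp [N2]) (by simp only [N2]; norm_num)
    (by rw [hX]; simp only [N2]; norm_num) (by decide) ?_ ?_
  · rcases hA with h | h
    · exact mixA rfl rfl rfl (Or.inr ⟨_, r_N2A_K3_0⟩)
        (Or.inr ⟨by decide, r_N2A_K3_1⟩) hF h e2
    · exact mixA rfl rfl rfl (Or.inr ⟨_, r_N2A_KZ_0⟩)
        (Or.inr ⟨by decide, r_N2A_KZ_1⟩) hF h e2
  · have h := hB
    exact mixB rfl rfl rfl (Or.inr ⟨_, r_N2B_K2_0⟩)
        (Or.inl r_N2B_K2_1) hF h e2

theorem cN3 (hX : XM = 86 / 100) (h1 : 740 / 1000 ≤ x) (h3 : 60 / 1000 ≤ T) (h4 : T ≤ 80 / 1000)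
    (dA : DOk (⟨x, -(16 / 100 * t1 XM x)⟩ + XA)) (dB : DOk (⟨x, 16 / 100 * t1 XM x⟩ + XB))
    (hA : InK KEm XA) (hB : InK K2h XB) : False := by
  have T0 := C.T0
  have x1 := C.x1
  have hF : InF N3 x T := by
    unfold InF
    simp only [N3]
    push_cast
    rw [hX] at x1
    exact ⟨⟨by linarith only [h1], by linarith only [x1]⟩, by linarith only [h3], by linarith only [h4]⟩
  have e1 : τf N3 x = t1 XM x := by
    unfold τf t1
    rw [hX]
    simp only [N3]
    norm_num
  refine C.fc e1 (by simp [N3]) (by simp only [N3]; norm_num)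
    (by rw [hX]; simp only [N3]; norm_num)
    (by rw [hX]; linarith only [h1]) dA dB ?_ ?_
  · have h := hA
    exact focA rfl rfl r_N3A_KEm hF h
  · have h := hB
    exact focB rfl rfl (by decide) (by decide) (by decide) (by decide) r_N3B_K2h hF h

theorem cM3 (hX : XM = 86 / 100) (h1 : 740 / 1000 ≤ x) (h4 : T ≤ 80 / 1000)
    (dA : DOk (⟨x, -(16 / 100 * t1 XM x)⟩ + XA)) (dB : DOk (⟨x, 16 / 100 * t1 XM x⟩ + XB))
    (hA : InK KY XA ∨ InK KEm XA) (hB : InK K3m XB ∨ InK K3pm XB) : False := by
  have T0 := C.T0
  have x1 := C.x1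
  have hF : InF M3 x T := by
    unfold InF
    simp only [M3]
    push_cast
    rw [hX] at x1
    exact ⟨⟨by linarith only [h1], by linarith only [x1]⟩, by linarith only [T0], by linarith only [h4]⟩
  have e1 : τf M3 x = t1 XM x := by
    unfold τf t1
    rw [hX]
    simp only [M3]
    norm_num
  refine C.fc e1 (by simp [M3]) (by simp only [M3]; norm_num)
    (by rw [hX]; simp only [M3]; norm_num)
    (by rw [hX]; linarith only [h1]) dA dB ?_ ?_
  · rcases hA with h | h
    · exact focA rfl rfl r_M3A_KY hF h
    · exact focA rfl rfl r_M3A_KEm hF h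
  · rcases hB with h | h
    · exact focB rfl rfl (by decide) (by decide) (by decide) (by decide) r_M3B_K3m hF h
    · exact focB rfl rfl (by decide) (by decide) (by decide) (by decide) r_M3B_K3pm hF h

theorem cMR (hX : XM = 86 / 100) (h1 : 740 / 1000 ≤ x) (h4 : T ≤ 80 / 1000)
    (dA : DOk (⟨x, -(16 / 100 * t1 XM x)⟩ + XA)) (dB : DOk (⟨x, 16 / 100 * t1 XM x⟩ + XB))
    (hA : InK KY XA ∨ InK KEm XA) (hB : InK KZm XB) : False := by
  have T0 := C.T0
  have x1 := C.x1
  have hF : InF MR x T := by
    unfold InF
    simp only [MR]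
    push_cast
    rw [hX] at x1
    exact ⟨⟨by linarith only [h1], by linarith only [x1]⟩, by linarith only [T0], by linarith only [h4]⟩
  have e1 : τf MR x = t1 XM x := by
    unfold τf t1
    rw [hX]
    simp only [MR]
    norm_num
  refine C.fc e1 (by simp [MR]) (by simp only [MR]; norm_num)
    (by rw [hX]; simp only [MR]; norm_num)
    (by rw [hX]; linarith only [h1]) dA dB ?_ ?_
  · rcases hA with h | h
    · exact focA rfl rfl r_MRA_KY hF h
    · exact focA rfl rfl r_MRA_KEm hF h
  · have h := hB
    exact focB rfl rfl (by decide) (by decide) (by decide) (by decide) r_MRB_KZm hF h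

theorem cF3a (hX : XM = 86 / 100) (h1 : 740 / 1000 ≤ x) (h4 : T ≤ 65 / 1000)
    (hA : InK K2y XA ∨ InK K3Ey XA) (hB : InK K3m XB ∨ InK K3pm XB) : False := by
  have T0 := C.T0
  have x1 := C.x1
  have hF : InF F3a x T := by
    unfold InF
    simp only [F3a]
    push_cast
    rw [hX] at x1
    exact ⟨⟨by linarith only [h1], by linarith only [x1]⟩, by linarith only [T0], by linarith only [h4]⟩
  have e1 : τf F3a x = t1 XM x := by
    unfold τf t1
    rw [hX]
    simp only [F3a]
    norm_num
  have e2 : 0 < τf F3a x := by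
    rw [e1]
    exact C.tp
  refine C.mix e1 (by simp [F3a]) (by simp only [F3a]; norm_num)
    (by rw [hX]; simp only [F3a]; norm_num) (by decide) ?_ ?_
  · rcases hA with h | h
    · exact mixA rfl rfl rfl (Or.inr ⟨_, r_F3aA_K2y_0⟩)
        (Or.inl r_F3aA_K2y_1) hF h e2
    · exact mixA rfl rfl rfl (Or.inr ⟨_, r_F3aA_K3Ey_0⟩)
        (Or.inr ⟨by decide, r_F3aA_K3Ey_1⟩) hF h e2
  · rcases hB with h | h
    · exact mixB rfl rfl rfl (Or.inr ⟨_, r_F3aB_K3m_0⟩)
        (Or.inl r_F3aB_K3m_1) hF h e2
    · exact mixB rfl rfl rfl (Or.inr ⟨_, r_F3aB_K3pm_0⟩)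
        (Or.inl r_F3aB_K3pm_1) hF h e2

theorem cF3b (hX : XM = 86 / 100) (h1 : 740 / 1000 ≤ x) (h4 : T ≤ 51 / 1000)
    (hA : InK K3y XA ∨ InK KZy XA) (hB : InK K3m XB ∨ InK K3pm XB) : False := by
  have T0 := C.T0
  have x1 := C.x1
  have hF : InF F3b x T := by
    unfold InF
    simp only [F3b]
    push_cast
    rw [hX] at x1
    exact ⟨⟨by linarith only [h1], by linarith only [x1]⟩, by linarith only [T0], by linarith only [h4]⟩
  have e1 : τf F3b x = t1 XM x := by
    unfold τf t1
    rw [hX]
    simp only [F3b]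
    norm_num
  have e2 : 0 < τf F3b x := by
    rw [e1]
    exact C.tp
  refine C.mix e1 (by simp [F3b]) (by simp only [F3b]; norm_num)
    (by rw [hX]; simp only [F3b]; norm_num) (by decide) ?_ ?_
  · rcases hA with h | h
    · exact mixA rfl rfl rfl (Or.inr ⟨_, r_F3bA_K3y_0⟩)
        (Or.inr ⟨by decide, r_F3bA_K3y_1⟩) hF h e2
    · exact mixA rfl rfl rfl (Or.inr ⟨_, r_F3bA_KZy_0⟩)
        (Or.inr ⟨by decide, r_F3bA_KZy_1⟩) hF h e2
  · rcases hB with h | h
    · exact mixB rfl rfl rfl (Or.inr ⟨_, r_F3bB_K3m_0⟩)
        (Or.inl r_F3bB_K3m_1) hF h e2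
    · exact mixB rfl rfl rfl (Or.inr ⟨_, r_F3bB_K3pm_0⟩)
        (Or.inl r_F3bB_K3pm_1) hF h e2

theorem cFRa (hX : XM = 86 / 100) (h1 : 740 / 1000 ≤ x) (h4 : T ≤ 54 / 1000)
    (hA : InK K2yp XA ∨ InK K2yn XA ∨ InK K3y XA ∨ InK KZy XA) (hB : InK KZm XB) : False := by
  have T0 := C.T0
  have x1 := C.x1
  have hF : InF FRa x T := by
    unfold InF
    simp only [FRa]
    push_cast
    rw [hX] at x1
    exact ⟨⟨by linarith only [h1], by linarith only [x1]⟩, by linarith only [T0], by linarith only [h4]⟩
  have e1 : τf FRa x = t1 XM x := by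
    unfold τf t1
    rw [hX]
    simp only [FRa]
    norm_num
  have e2 : 0 < τf FRa x := by
    rw [e1]
    exact C.tp
  refine C.mix e1 (by simp [FRa]) (by simp only [FRa]; norm_num)
    (by rw [hX]; simp only [FRa]; norm_num) (by decide) ?_ ?_
  · rcases hA with h | h | h | h
    · exact mixA rfl rfl rfl (Or.inr ⟨_, r_FRaA_K2yp_0⟩)
        (Or.inr ⟨by decide, r_FRaA_K2yp_1⟩) hF h e2
    · exact mixA rfl rfl rfl (Or.inl (by decide))
        (Or.inl r_FRaA_K2yn_1) hF h e2
    · exact mixA rfl rfl rfl (Or.inr ⟨_, r_FRaA_K3y_0⟩)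
        (Or.inr ⟨by decide, r_FRaA_K3y_1⟩) hF h e2
    · exact mixA rfl rfl rfl (Or.inr ⟨_, r_FRaA_KZy_0⟩)
        (Or.inr ⟨by decide, r_FRaA_KZy_1⟩) hF h e2
  · have h := hB
    exact mixB rfl rfl rfl (Or.inr ⟨_, r_FRaB_KZm_0⟩)
        (Or.inl r_FRaB_KZm_1) hF h e2

theorem cFRn (hX : XM = 86 / 100) (h1 : 740 / 1000 ≤ x) (h4 : T ≤ 54 / 1000) (hA : InK K2n XA)
    (hB : InK KZm XB) : False := by
  have T0 := C.T0
  have x1 := C.x1
  have hF : InF FRn x T := by
    unfold InF
    simp only [FRn]
    push_cast
    rw [hX] at x1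
    exact ⟨⟨by linarith only [h1], by linarith only [x1]⟩, by linarith only [T0], by linarith only [h4]⟩
  have e1 : τf FRn x = t1 XM x := by
    unfold τf t1
    rw [hX]
    simp only [FRn]
    norm_num
  have e2 : 0 < τf FRn x := by
    rw [e1]
    exact C.tp
  refine C.mix e1 (by simp [FRn]) (by simp only [FRn]; norm_num)
    (by rw [hX]; simp only [FRn]; norm_num) (by decide) ?_ ?_
  · have h := hA
    exact mixA rfl rfl rfl (Or.inr ⟨_, r_FRnA_K2n_0⟩)
        (Or.inl r_FRnA_K2n_1) hF h e2
  · have h := hB
    exact mixB rfl rfl rfl (Or.inr ⟨_, r_FRnB_KZm_0⟩)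
        (Or.inl r_FRnB_KZm_1) hF h e2

theorem cFRb (hX : XM = 86 / 100) (h1 : 740 / 1000 ≤ x) (h4 : T ≤ 65 / 1000) (hA : InK K3Ey XA)
    (hB : InK KZm XB) : False := by
  have T0 := C.T0
  have x1 := C.x1
  have hF : InF FRb x T := by
    unfold InF
    simp only [FRb]
    push_cast
    rw [hX] at x1
    exact ⟨⟨by linarith only [h1], by linarith only [x1]⟩, by linarith only [T0], by linarith only [h4]⟩
  have e1 : τf FRb x = t1 XM x := by
    unfold τf t1
    rw [hX]
    simp only [FRb]
    norm_num
  have e2 : 0 < τf FRb x := by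
    rw [e1]
    exact C.tp
  refine C.mix e1 (by simp [FRb]) (by simp only [FRb]; norm_num)
    (by rw [hX]; simp only [FRb]; norm_num) (by decide) ?_ ?_
  · have h := hA
    exact mixA rfl rfl rfl (Or.inr ⟨_, r_FRbA_K3Ey_0⟩)
        (Or.inr ⟨by decide, r_FRbA_K3Ey_1⟩) hF h e2
  · have h := hB
    exact mixB rfl rfl rfl (Or.inr ⟨_, r_FRbB_KZm_0⟩)
        (Or.inl r_FRbB_KZm_1) hF h e2

end Core

end M11

end Pool.Agent.Work.NumGs

end

section

/-!
# Kind `1 | 1`: no maximiser with `x ≥ 2/5`, the other hinge not in an upper mode on side B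
-/

namespace Pool.Agent.Work.NumGs

namespace M11

open MP_b30479_gtS.G2 (V1 tr dh1 DOk)
open MP_b30479_gtS.G2.SR (cw Cl)
open MP_b30479_gtS.VOL (strip)

variable {XA XB w : ℂ} {x T XM : ℝ} {P Q : Cl} {k : KS}

theorem InK.im_nonpos (h : InK k w) (hk : k.hi ≤ 0) : w.im ≤ 0 := by
  have h1 : (k.hi : ℝ) ≤ 0 := by exact_mod_cast hk
  have h2 : 0 ≤ τk k w.re := (MP_b30479_gtS.G2.tr_mem _ _ _ _).1
  exact h.2.2.trans (mul_nonpos_of_nonpos_of_nonneg (by linarith only [h1]) h2)

theorem InK.im_nonneg (h : InK k w) (hk : 0 ≤ k.lo) : 0 ≤ w.im := by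
  have h1 : (0 : ℝ) ≤ k.lo := by exact_mod_cast hk
  have h2 : 0 ≤ τk k w.re := (MP_b30479_gtS.G2.tr_mem _ _ _ _).1
  exact le_trans (mul_nonneg (by positivity) h2) h.2.1

theorem InK.re_nonneg (h : InK k w) : 0 ≤ w.re := le_trans (by positivity) h.1.1

namespace Core

variable (C : Core P Q T x XM XA XB)
include C

theorem dA_neg (h : XA.im ≤ 0) : DOk (⟨x, -(16 / 100 * t1 XM x)⟩ + XA) := by
  refine Or.inl (ne_of_lt ?_)
  have := C.tp
  simp only [Complex.add_im]
  linarith only [h, this]

theorem dA_near (h0 : 0 ≤ XA.re) (h1 : XA.re ≤ 13 / 100) (h2 : XM ≤ 86 / 100) :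
    DOk (⟨x, -(16 / 100 * t1 XM x)⟩ + XA) := by
  refine Or.inr ?_
  have h3 := C.x0
  have h4 := C.x1
  show 0 < _ ∧ _ < (1 : ℝ)
  simp only [Complex.add_re]
  constructor <;> linarith only [h0, h3, h1, h2, h4]

theorem dB_pos (h : 0 ≤ XB.im) : DOk (⟨x, 16 / 100 * t1 XM x⟩ + XB) := by
  refine Or.inl (ne_of_gt ?_)
  have := C.tp
  simp only [Complex.add_im]
  linarith only [h, this]

/-- **outer neighbour `1`** -/
theorem false80 (hX : XM = 80 / 100) (h1 : 680 / 1000 ≤ x) (hA : PN P T XA) (hB : PN Q (-T) XB)
    (hB1 : Q = .one → InK K1 XB) (hPQ : P = .one ∨ Q = .one) : False := by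
  have hT := C.TA
  by_cases hP : P = .one
  · subst hP
    simp only [cw] at hT
    simp only [PN] at hA
    have hb : (InK K12 XB ∨ InK K3 XB) ∨ InK KZ XB := by
      rcases hB.b3 hB1 with h | h | h
      · exact Or.inl (Or.inl h)
      · exact Or.inl (Or.inr h)
      · exact Or.inr h
    rcases hb with hb | hb
    · exact C.cF1 hX h1 (by linarith only [hT]) hA hb
    · exact C.cF4 hX h1 (by linarith only [hT]) hA hb
  · have hQ : Q = .one := hPQ.resolve_left hP
    have hb := hB1 hQ
    cases P <;> simp only [cw] at hT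
    · exact hP rfl
    · exact C.cF2 hX h1 (by linarith only [hT]) (Or.inl (K2_K2P hA.two)) hb
    · exact C.cF2e hX h1 (by linarith only [hT]) (KEm_KE hA) hb
    · exact C.cF2 hX h1 (by linarith only [hT]) (Or.inr hA.three) hb
    · exact C.cF2 hX h1 (by linarith only [hT]) (Or.inr (K3E_K3 hA)) hb
    · exact C.cF3 hX h1 (by linarith only [hT]) hA.ring hb

theorem false86 (hX : XM = 86 / 100) (h1 : 740 / 1000 ≤ x) (hA : PN P T XA) (hB : PN Q (-T) XB)
    (hP : P ≠ .one) (hQ : Q ≠ .one) : False := by
  have hT8 := C.hT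
  have hT := C.TA
  have hT' := C.TB
  have hRR : InK KR XB → False := fun h => C.cRR hX h1 (by linarith only [hT8]) (hA.a3 hP) h
  have hre : 0 ≤ XA.re := by
    rcases hA.a3 hP with h | h | h <;> exact h.re_nonneg
  cases Q
  case one => exact hQ rfl
  case twoE =>
    simp only [cw] at hT'
    exact C.cEE hX h1 (by linarith only [hT']) (hA.a3 hP) (Or.inl (KEm_KE hB))
  case threeE =>
    simp only [cw] at hT'
    exact C.cEE hX h1 (by linarith only [hT']) (hA.a3 hP) (Or.inr hB)
  case two =>
    rcases hB with hB | ⟨hB, hB'⟩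
    · exact hRR hB
    cases P
    case one => exact hP rfl
    case two =>
      simp only [cw] at hT
      exact C.cN1 hX h1 (by linarith only [hT]) (K2_K2P hA.two) hB
    case threeE =>
      simp only [cw] at hT
      exact C.cN1 hX h1 (by linarith only [hT]) (K3E_K2P hA) hB
    case three =>
      simp only [cw] at hT
      exact C.cN2 hX h1 (by linarith only [hT]) (Or.inl hA.three) hB
    case ring =>
      simp only [cw] at hT
      exact C.cN2 hX h1 (by linarith only [hT]) (Or.inr hA.ring) hB
    case twoE =>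
      have hA' : InK KEm XA := hA
      rcases le_total T (6 / 100) with h6 | h6
      · exact C.cN1 hX h1 (by linarith only [h6]) (KEm_K2P hA') hB
      · have hB2 := hB' (by linarith only [h6])
        exact C.cN3 hX h1 (by linarith only [h6]) (by linarith only [hT8]) (C.dA_neg (hA'.im_nonpos (by decide)))
          (C.dB_pos (hB2.im_nonneg (by decide))) hA' hB2
  case three =>
    have hb : InK KR XB ∨ (InK K3m XB ∨ InK K3pm XB) := hB
    rcases hb with hb | hb
    · exact hRR hb
    have hb0 : 0 ≤ XB.im := by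
      rcases hb with h | h <;> exact h.im_nonneg (by decide)
    rcases le_total XA.re (13 / 100) with h3 | h3
    · have dA := C.dA_near hre h3 hX.le
      cases P
      case one => exact hP rfl
      case two =>
        exact C.cM3 hX h1 (by linarith only [hT8]) dA (C.dB_pos hb0)
          (Or.inl (hA.two.near rfl (by decide) (by decide) (by decide) h3)) hb
      case threeE =>
        exact C.cM3 hX h1 (by linarith only [hT8]) dA (C.dB_pos hb0)
          (Or.inl (InK.near (k := K3E) hA rfl (by decide) (by decide) (by decide) h3)) hb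
      case three =>
        exact C.cM3 hX h1 (by linarith only [hT8]) dA (C.dB_pos hb0)
          (Or.inl (hA.three.near rfl (by decide) (by decide) (by decide) h3)) hb
      case ring =>
        exact C.cM3 hX h1 (by linarith only [hT8]) dA (C.dB_pos hb0)
          (Or.inl (hA.ring.near rfl (by decide) (by decide) (by decide) h3)) hb
      case twoE => exact C.cM3 hX h1 (by linarith only [hT8]) dA (C.dB_pos hb0) (Or.inr hA) hb
    · cases P
      case one => exact hP rfl
      case two =>
        simp only [cw] at hT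
        have h := hA.two
        refine C.cF3a hX h1 (by linarith only [hT]) (Or.inl (h.domY (k' := K2y) (by decide) ?_ ?_)) hb
        · simp only [K2y]; norm_num; exact h3
        · exact h.1.2
      case threeE =>
        simp only [cw] at hT
        have h : InK K3E XA := hA
        refine C.cF3a hX h1 (by linarith only [hT]) (Or.inr (h.domY (k' := K3Ey) (by decide) ?_ ?_)) hb
        · simp only [K3Ey]; norm_num; exact h3
        · exact h.1.2
      case three =>
        simp only [cw] at hT
        have h := hA.three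
        refine C.cF3b hX h1 (by linarith only [hT]) (Or.inl (h.domY (k' := K3y) (by decide) ?_ ?_)) hb
        · simp only [K3y]; norm_num; exact h3
        · exact h.1.2
      case ring =>
        simp only [cw] at hT
        have h := hA.ring
        refine C.cF3b hX h1 (by linarith only [hT]) (Or.inr (h.domY (k' := KZy) (by decide) ?_ ?_)) hb
        · simp only [KZy]; norm_num; exact h3
        · exact h.1.2
      case twoE =>
        have hA' : InK KEm XA := hA
        exact C.cM3 hX h1 (by linarith only [hT8]) (C.dA_neg (hA'.im_nonpos (by decide))) (C.dB_pos hb0)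
          (Or.inr hA') hb
  case ring =>
    have hb : InK KR XB ∨ InK KZm XB := hB
    rcases hb with hb | hb
    · exact hRR hb
    have hb0 : 0 ≤ XB.im := hb.im_nonneg (by decide)
    rcases le_total XA.re (13 / 100) with h3 | h3
    · have dA := C.dA_near hre h3 hX.le
      cases P
      case one => exact hP rfl
      case two =>
        exact C.cMR hX h1 (by linarith only [hT8]) dA (C.dB_pos hb0)
          (Or.inl (hA.two.near rfl (by decide) (by decide) (by decide) h3)) hb
      case threeE =>
        exact C.cMR hX h1 (by linarith only [hT8]) dA (C.dB_pos hb0)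
          (Or.inl (InK.near (k := K3E) hA rfl (by decide) (by decide) (by decide) h3)) hb
      case three =>
        exact C.cMR hX h1 (by linarith only [hT8]) dA (C.dB_pos hb0)
          (Or.inl (hA.three.near rfl (by decide) (by decide) (by decide) h3)) hb
      case ring =>
        exact C.cMR hX h1 (by linarith only [hT8]) dA (C.dB_pos hb0)
          (Or.inl (hA.ring.near rfl (by decide) (by decide) (by decide) h3)) hb
      case twoE => exact C.cMR hX h1 (by linarith only [hT8]) dA (C.dB_pos hb0) (Or.inr hA) hb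
    · cases P
      case one => exact hP rfl
      case two =>
        simp only [cw] at hT
        have h := hA.two
        have hy := h.1.2
        rcases le_total 0 XA.im with h5 | h5
        · have h6 : InK K2yp XA := by
            refine ⟨⟨?_, hy⟩, ?_, ?_⟩
            · simp only [K2yp]; norm_num; exact h3
            · simp only [K2yp]; norm_num; exact h5
            · exact h.2.2
          exact C.cFRa hX h1 (by linarith only [hT]) (Or.inl h6) hb
        · rcases le_total (3 / 10) XA.re with h7 | h7
          · have h6 : InK K2yn XA := by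
              refine ⟨⟨?_, hy⟩, h.2.1, ?_⟩
              · simp only [K2yn]; norm_num; exact h7
              · simp only [K2yn]; norm_num; exact h5
            exact C.cFRa hX h1 (by linarith only [hT]) (Or.inr (Or.inl h6)) hb
          · have h6 : InK K2n XA := by
              refine ⟨⟨?_, ?_⟩, h.2.1, ?_⟩
              · simp only [K2n]; norm_num; exact h3
              · simp only [K2n]; norm_num; exact h7
              · simp only [K2n]; norm_num; exact h5
            exact C.cFRn hX h1 (by linarith only [hT]) h6 hb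
      case threeE =>
        simp only [cw] at hT
        have h : InK K3E XA := hA
        refine C.cFRb hX h1 (by linarith only [hT]) (h.domY (k' := K3Ey) (by decide) ?_ ?_) hb
        · simp only [K3Ey]; norm_num; exact h3
        · exact h.1.2
      case three =>
        simp only [cw] at hT
        have h := hA.three
        refine C.cFRa hX h1 (by linarith only [hT])
          (Or.inr (Or.inr (Or.inl (h.domY (k' := K3y) (by decide) ?_ ?_)))) hb
        · simp only [K3y]; norm_num; exact h3
        · exact h.1.2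
      case ring =>
        simp only [cw] at hT
        have h := hA.ring
        refine C.cFRa hX h1 (by linarith only [hT])
          (Or.inr (Or.inr (Or.inr (h.domY (k' := KZy) (by decide) ?_ ?_)))) hb
        · simp only [KZy]; norm_num; exact h3
        · exact h.1.2
      case twoE =>
        have hA' : InK KEm XA := hA
        exact C.cMR hX h1 (by linarith only [hT8]) (C.dA_neg (hA'.im_nonpos (by decide))) (C.dB_pos hb0)
          (Or.inr hA') hb

/-- **no maximiser** -/
theorem false (hx : 40 / 100 ≤ x) (hA : PN P T XA) (hB : PN Q (-T) XB)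
    (hB1 : Q = .one → InK K1 XB) : False := by
  have hT := C.hT
  by_cases hPQ : P = .one ∨ Q = .one
  · have hX : XM = 80 / 100 := by rw [C.hXM, if_pos hPQ]
    rcases le_total x (600 / 1000) with h1 | h1
    · exact C.cG1 (Or.inl hX) (by linarith only [hx]) h1 (by linarith only [hT]) hA.a4 (hB.b3 hB1)
    rcases le_total x (680 / 1000) with h2 | h2
    · exact C.cG2 hX h1 h2 (by linarith only [hT]) hA.a4 (hB.b3 hB1)
    exact C.false80 hX h2 hA hB hB1 hPQ
  · have hX : XM = 86 / 100 := by rw [C.hXM, if_neg hPQ]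
    rcases le_total x (600 / 1000) with h1 | h1
    · exact C.cG1 (Or.inr hX) (by linarith only [hx]) h1 (by linarith only [hT]) hA.a4 (hB.b3 hB1)
    rcases le_total x (740 / 1000) with h2 | h2
    · refine C.cG3 hX h1 h2 (by linarith only [hT]) ?_ (hB.b3 hB1)
      rcases hA.b3 (fun h => absurd (Or.inl h) hPQ) with h | h | h
      · exact Or.inl h
      · exact Or.inr (Or.inl h)
      · exact Or.inr (Or.inr h)
    exact C.false86 hX h2 hA hB (fun h => hPQ (Or.inl h)) (fun h => hPQ (Or.inr h))

end Core

end M11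

end Pool.Agent.Work.NumGs

end
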