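import Pool.Agent.Work.MP_b30479_gt.TBS.G2.WM_2_3aE
import Pool.Agent.Work.MP_b30479_gt.TBS.G2.WM_2_3aR2_6
import Pool.Agent.Work.MP_b30479_gt.TBS.G2.WM_2_3aR3_3
import Pool.Agent.Work.MP_b30479_gt.TBS.G2.WM_2_3aR4_6
import Pool.Agent.Work.MP_b30479_gt.TBS.G2.RngKd
import Pool.Agent.Work.MP_b30479_gt.TBS.G2.WM_2_3aR4_0
import Pool.Agent.Work.MP_b30479_gt.TBS.G2.WLocF
import Pool.Agent.Work.MP_b30479_gt.TBS.G2.WMid

section

/-!
# The kind `2 | 3` (the `3` at its slot `0`): rows, response of the inner variable, near zero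
-/

set_option deprecated.oldSectionVars true

namespace Pool.Agent.Work.MP_b30479_gtS.G2

namespace K23

open NumGs

theorem r_psMa : chkD [.of (psE (.mul (.var 1) (t8 0)) (psM (.var 0) (.var 1))), .of (psX (.mul (.var 1) (t8 0)) (psM (.var 0) (.var 1)))]
    1000 0 89 0 1000 40 0 12 0 76 0 650 0 2000
    0x10202081020300002040610202021020406042040010100000420402102040204002081018408080020810184040820408101820810184080c00408042040000204080c08408082040404204021020108100810400104080c20402002040210204060420408041000410200081020108100800410201081020104102040610201081008108100840204102000800200080020408102081018404102000808004081010108082040210203081010000102010400084080c2040200104080c2040600104080c204061020300102030810180081008408000040800204021020102102010810184080c08200082040610201001020108100840810181000820400102040804002081008408100820810204021020102102010804082040010004001000408102040c20406101040800202001020404042020810084080c2040600004080410002102020810080041020308101000410200081010408101820010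201081000008100840800204021020302102010810184080c08200081040810180081008408000040804204021020308101810008204001020408040020810084081008208102030810084080408408042010208100040010004080020408104080c20400002040008204080808404102010810184080800008100020004204021020308101800008204080c004080010208101840808004081018008100840800002081018408041040804204000800408101810810203021020308100810810184021020108100810008102081018408080040804204000020402102010810201040010408101800810184080420402001040800204080410408100840804204020420402100810408002000800204001020408183 = true := by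
  decide +kernel

theorem r_psMb : chkD [.of (psE (.mul (.var 1) (t8 0)) (psM (.var 0) (.var 1))), .of (psX (.mul (.var 1) (t8 0)) (psM (.var 0) (.var 1)))]
    1000 0 89 0 1000 40 12 25 0 76 0 650 0 2000
    0x1020308101840004202081000404102030810180081018202102010404204080c0820810203020820408100820810084080c0040804204000420408041040810184020808408101810810201041020108100800208002040810208102000210104080c204040420406102020200204020808408101810410203081018004102010810184080c0840804204060020402102010010204020820408041010810084080c2040604204080c0010400102040810308102010210104080c2040404204061020202002040208084081010104102040404104080c20008101040810182021020108100800810084080400408100820810201040420402102030810181081020300041000408102041020400042020810184080c004080c20208101000210201040420408040820810104080c204060808208101840808084080c200081018408000820810184080c084080c20402080040804204080c080081020308041040810082021020108101840804104080c204020008200081020408183 = true := by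
  decide +kernel

theorem r_psMc : chkD [.of (psE (.mul (.var 1) (t8 0)) (psM (.var 0) (.var 1))), .of (psX (.mul (.var 1) (t8 0)) (psM (.var 0) (.var 1)))]
    1000 0 89 0 1000 40 25 50 0 76 0 650 0 2000
    0x40804202081010008102030210104080420200042040008204041020002101040810181081020302002040208204060808408082000808204021010408080040404004080420402001010810084080c204060008208101840808202020820406100040810182081020304102030004204061020300102040208204080c10002102010810201041020400080820810184080c200021020108100840804002081018400102030810101081020302001010404204021020108101800210201081000408000820810084080c2040204104080c204080c08200041000408102081008404102010808084080820402101010010200041020308100010808204061020300102030800202021020304042040208204061000404102040604204040020202102010400084080420406102030004104080c20406102030004104080c20400042040610203001020308101830810180021020308101800810184080c084080c2000004204021020402082040804101041020308100010810184080c2000410204080808208102010400082021020308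101840004204080410408100020210203081020302082040804100020800204081030810084041020108080840808204061020300040040800104080c20400042020810184080c004080c2000808084080c101081008208101840010104081018108101000808084080410002102010810184080c0010410203080820404102020004104080020406102030004204041020200102040608204080c1000210202081018008101840808084080c20406000010810084081008208102010404104080c2040004204061020308001040810203020820408041000208084080420406100010810201041020402080840808204080c101081020104000820008102041020108082040210101081010408042020200204061000208101840800084041020308002020010200041020308101800810184001010108101820810203021020200101000810002020420406100040808204040008208100840804104080c200081018400080820810184080c0040810182081018002102040604204061020308101820208204080c084080c20404041000810203041020108100820210204060820406102010404004080c20108102010410204020808208101840800084080c2040610203000820400102040404204020010104042040610084080c2040600084080420406100040800082081018408101810410204020800104001020408183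 = true := by
  decide +kernel

end K23

end Pool.Agent.Work.MP_b30479_gtS.G2

end

section

/-!
# The kind `2 | 3` (the `3` at its slot `0`): the inequalities
-/

namespace Pool.Agent.Work.MP_b30479_gtS.G2

open Finset VOL Filter Topology

namespace K23

open NumGs

variable {x T y w θ f s : ℝ} {W u l c' : ℂ}

/-! ### the response of the inner variable -/

theorem par_w (w2 : |W.im| ≤ 16 / 100 * τw W.re) : ∃ θ : ℝ, -1 ≤ θ ∧ θ ≤ 1 ∧
    W = ⟨W.re, θ * (16 / 100 * τw W.re)⟩ := by
  obtain ⟨θ, h1, h2, h3⟩ := KE.par_abs w2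
  exact ⟨θ, h1, h2, Complex.ext rfl h3⟩

/-- inner variable on the main path -/
theorem far_m (y0 : 0 ≤ y) (y1 : y ≤ 3 / 10) (T0 : -(89 / 1000) ≤ T) (T1 : T ≤ -(13 / 1000))
    (w0 : 0 ≤ W.re) (w1 : W.re ≤ 65 / 100) (w2 : |W.im| ≤ 16 / 100 * τw W.re) :
    sM y T < V2 ⟨3 / 10, T⟩ W - V2 ⟨y, T * τl y⟩ W := by
  obtain ⟨θ, t0, t1, e⟩ := par_w w2
  have key : 0 < (psE (.mul (.var 1) (t8 0)) (psM (.var 0) (.var 1))).val [y, T, W.re, θ] := by
    rcases le_total y (12 / 1000) with h | h
    · rcases dk2 r_psMa (by norm_num) (x := y) (y := T) (z := W.re) (w := θ)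
        (by constructor <;> push_cast <;> linarith only [y0, h]) (by constructor <;> push_cast <;> linarith only [T0, T1])
        (by constructor <;> push_cast <;> linarith only [w0, w1]) (by constructor <;> push_cast <;> linarith only [t0, t1])
        with h1 | h1
      · exact h1
      · exact h1
    rcases le_total y (25 / 1000) with h | h
    · rcases dk2 r_psMb (by norm_num) (x := y) (y := T) (z := W.re) (w := θ)
        (by constructor <;> push_cast <;> linarith) (by constructor <;> push_cast <;> linarith only [T0, T1])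
        (by constructor <;> push_cast <;> linarith only [w0, w1]) (by constructor <;> push_cast <;> linarith only [t0, t1])
        with h1 | h1
      · exact h1
      · exact h1
    rcases le_total y (50 / 1000) with h | h
    · rcases dk2 r_psMc (by norm_num) (x := y) (y := T) (z := W.re) (w := θ)
        (by constructor <;> push_cast <;> linarith) (by constructor <;> push_cast <;> linarith only [T0, T1])
        (by constructor <;> push_cast <;> linarith only [w0, w1]) (by constructor <;> push_cast <;> linarith only [t0, t1])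
        with h1 | h1
      · exact h1
      · exact h1
    rcases le_total y (100 / 1000) with h | h
    · rcases dk2 r_psMd (by norm_num) (x := y) (y := T) (z := W.re) (w := θ)
        (by constructor <;> push_cast <;> linarith) (by constructor <;> push_cast <;> linarith only [T0, T1])
        (by constructor <;> push_cast <;> linarith only [w0, w1]) (by constructor <;> push_cast <;> linarith only [t0, t1])
        with h1 | h1
      · exact h1
      · exact h1
    rcases le_total y (150 / 1000) with h | h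
    · rcases dk2 r_psMe (by norm_num) (x := y) (y := T) (z := W.re) (w := θ)
        (by constructor <;> push_cast <;> linarith) (by constructor <;> push_cast <;> linarith only [T0, T1])
        (by constructor <;> push_cast <;> linarith only [w0, w1]) (by constructor <;> push_cast <;> linarith only [t0, t1])
        with h1 | h1
      · exact h1
      · exact h1
    rcases dk2 r_psMf (by norm_num) (x := y) (y := T) (z := W.re) (w := θ)
      (by constructor <;> push_cast <;> linarith only [h, y1]) (by constructor <;> push_cast <;> linarith only [T0, T1])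
      (by constructor <;> push_cast <;> linarith only [w0, w1]) (by constructor <;> push_cast <;> linarith only [t0, t1])
      with h1 | h1
    · exact h1
    · exact h1
  rw [psE_val, sM_val0, E.val, e1_val, t80_val, ← e] at key
  linarith only [key]

/-- inner variable on the upper mirrored path -/
theorem far_u (y0 : 0 ≤ y) (y1 : y ≤ 8 / 10) (T0 : -(89 / 1000) ≤ T) (T1 : T ≤ -(13 / 1000))
    (w0 : 0 ≤ W.re) (w1 : W.re ≤ 65 / 100) (w2 : |W.im| ≤ 16 / 100 * τw W.re) :
    sU y T < V2 ⟨3 / 10, T⟩ W - V2 ⟨y, 16 / 100 * τl y⟩ W +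
      2 * Real.pi * (16 / 100 * τl y) := by
  obtain ⟨θ, t0, t1, e⟩ := par_w w2
  have key : 0 < (D.of (.add (psE (.mul (.q 4 25) (t8 0)) (psU (.var 0) (.var 1)))
      (.mul (.mul (.q 2 1) .pi) (.mul (.q 4 25) (t8 0))))).val [y, T, W.re, θ] := by
    rcases le_total y (50 / 1000) with h | h
    · exact dk1 r_psUa (by norm_num) (by constructor <;> push_cast <;> linarith only [y0, h])
        (by constructor <;> push_cast <;> linarith only [T0, T1]) (by constructor <;> push_cast <;> linarith only [w0, w1])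
        (by constructor <;> push_cast <;> linarith only [t0, t1])
    rcases le_total y (300 / 1000) with h | h
    · exact dk1 r_psUb (by norm_num) (by constructor <;> push_cast <;> linarith)
        (by constructor <;> push_cast <;> linarith only [T0, T1]) (by constructor <;> push_cast <;> linarith only [w0, w1])
        (by constructor <;> push_cast <;> linarith only [t0, t1])
    rcases le_total y (600 / 1000) with h | h
    · exact dk1 r_psUc (by norm_num) (by constructor <;> push_cast <;> linarith)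
        (by constructor <;> push_cast <;> linarith only [T0, T1]) (by constructor <;> push_cast <;> linarith only [w0, w1])
        (by constructor <;> push_cast <;> linarith only [t0, t1])
    rcases le_total y (750 / 1000) with h | h
    · exact dk1 r_psUd (by norm_num) (by constructor <;> push_cast <;> linarith)
        (by constructor <;> push_cast <;> linarith only [T0, T1]) (by constructor <;> push_cast <;> linarith only [w0, w1])
        (by constructor <;> push_cast <;> linarith only [t0, t1])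
    exact dk1 r_psUe (by norm_num) (by constructor <;> push_cast <;> linarith only [h, y1])
      (by constructor <;> push_cast <;> linarith only [T0, T1]) (by constructor <;> push_cast <;> linarith only [w0, w1])
      (by constructor <;> push_cast <;> linarith only [t0, t1])
  have e2 : (E.mul (.q 4 25) (t8 0)).val [y, T, W.re, θ] = 16 / 100 * τl y := by
    rw [E.val, t80_val]
    norm_num [E.val]
  have e3 : (E.mul (.mul (.q 2 1) .pi) (.mul (.q 4 25) (t8 0))).val [y, T, W.re, θ] =
      2 * Real.pi * (16 / 100 * τl y) := by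
    rw [E.val, e2]
    norm_num [E.val]
  rw [D.val, E.val, psE_val, sU_val0, e2, e3, ← e] at key
  linarith only [key]

/-! ### gains of the `3` -/

/-- the gain of the `3` is greater than `f`: the inner variable is kept or moved to `3/10` -/
def Gn (c' u l : ℂ) (T s f : ℝ) : Prop :=
  f < KE.VA c' l - KE.VA u l ∨ f < KE.VF c' ⟨3 / 10, T⟩ - KE.VF u l + s

/-- first half of the path, inner variable on the main path -/
theorem p0_m (x0 : 0 ≤ x) (x1 : x ≤ 2 / 5) (T0 : 0 ≤ T) (T1 : T ≤ 53 / 1000) (y0 : 0 ≤ y)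
    (y1 : y ≤ 8 / 10) (w0 : -(89 / 1000) ≤ w) (w1 : w ≤ -(13 / 1000)) :
    f0 x T < KE.VA ⟨1 / 5, -T⟩ ⟨y, w * τl y⟩ - KE.VA ⟨x, 3 / 10 * τh x⟩ ⟨y, w * τl y⟩ ∨
    (y ≤ 3 / 10 ∧ f0 x T < KE.VF ⟨1 / 5, -T⟩ ⟨3 / 10, w⟩ -
      KE.VF ⟨x, 3 / 10 * τh x⟩ ⟨y, w * τl y⟩ + sM y w) := by
  have e1 : (E.q 1 5).val [x, T, y, w] = 1 / 5 := by norm_num [E.val]
  have e2 : (E.neg (.var 1)).val [x, T, y, w] = -T := rfl
  rcases le_total y (3 / 10) with h | h
  · rcases dk2 r_p0m (by norm_num) (x := x) (y := T) (z := y) (w := w)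
      (by constructor <;> push_cast <;> linarith only [x0, x1]) (by constructor <;> push_cast <;> linarith only [T0, T1])
      (by constructor <;> push_cast <;> linarith only [y0, h]) (by constructor <;> push_cast <;> linarith only [w0, w1])
      with h1 | h1
    · left
      rw [D.val, kp_val, e1, e2, tm_val, hq_val, f0_val] at h1
      linarith only [h1]
    · right
      rw [D.val, rs_val, e1, e2, tm_val, hq_val, f0_val, sM_val] at h1
      exact ⟨h, by linarith only [h1]⟩
  · left
    have h1 := dk1 r_p0n (by norm_num) (x := x) (y := T) (z := y) (w := w)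
      (by constructor <;> push_cast <;> linarith only [x0, x1]) (by constructor <;> push_cast <;> linarith only [T0, T1])
      (by constructor <;> push_cast <;> linarith only [h, y1]) (by constructor <;> push_cast <;> linarith only [w0, w1])
    rw [D.val, kp_val, e1, e2, tm_val, hq_val, f0_val] at h1
    linarith only [h1]

/-- first half of the path, inner variable on the upper mirrored path -/
theorem p0_u (x0 : 0 ≤ x) (x1 : x ≤ 2 / 5) (T0 : 0 ≤ T) (T1 : T ≤ 53 / 1000) (y0 : 0 ≤ y)
    (y1 : y ≤ 8 / 10) (w0 : -(89 / 1000) ≤ w) (w1 : w ≤ -(13 / 1000)) :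
    Gn ⟨1 / 5, -T⟩ ⟨x, 3 / 10 * τh x⟩ ⟨y, 16 / 100 * τl y⟩ w (sU y w) (f0 x T) := by
  have e1 : (E.q 1 5).val [x, T, y, w] = 1 / 5 := by norm_num [E.val]
  have e2 : (E.neg (.var 1)).val [x, T, y, w] = -T := rfl
  rcases dk2 r_p0u (by norm_num) (x := x) (y := T) (z := y) (w := w)
    (by constructor <;> push_cast <;> linarith only [x0, x1]) (by constructor <;> push_cast <;> linarith only [T0, T1])
    (by constructor <;> push_cast <;> linarith only [y0, y1]) (by constructor <;> push_cast <;> linarith only [w0, w1])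
    with h1 | h1
  · left
    rw [D.val, kp_val, e1, e2, tu_val, hq_val, f0_val] at h1
    linarith only [h1]
  · right
    rw [D.val, rs_val, e1, e2, tu_val, hq_val, f0_val, sU_val] at h1
    linarith only [h1]

/-- the `2`, first half of the path -/
theorem k0_le (x0 : 0 ≤ x) (x1 : x ≤ 2 / 5) (T0 : 0 ≤ T) (T1 : T ≤ 53 / 1000) (y0 : 0 ≤ y)
    (y1 : y ≤ 8 / 10) (t0 : -1 ≤ θ) (t1 : θ ≤ 1) :
    0 < V2 ⟨1 / 5, T⟩ ⟨y, θ * (16 / 100 * τk y)⟩ -
      V2 ⟨x, -(3 / 10 * τh x)⟩ ⟨y, θ * (16 / 100 * τk y)⟩ + 2 * Real.pi * (3 / 10 * τh x) +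
      f0 x T := by
  have e1 : (E.q 1 5).val [x, T, y, θ] = 1 / 5 := by norm_num [E.val]
  have h1 := dk1 r_k0 (by norm_num) (x := x) (y := T) (z := y) (w := θ)
    (by constructor <;> push_cast <;> linarith only [x0, x1]) (by constructor <;> push_cast <;> linarith only [T0, T1])
    (by constructor <;> push_cast <;> linarith only [y0, y1]) (by constructor <;> push_cast <;> linarith only [t0, t1])
  rw [D.val, g2_val, e1, e1_val, hq_val, f0_val] at h1
  exact h1

/-- second half, with the first order condition, inner variable on the main path -/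
theorem p1_m (x0 : 2 / 5 ≤ x) (x1 : x < 3 / 5) (T0 : 0 ≤ T) (T1 : T ≤ 53 / 1000) (y0 : 0 ≤ y)
    (y1 : y ≤ 8 / 10) (w0 : -(89 / 1000) ≤ w) (w1 : w ≤ -(13 / 1000)) :
    f1 x T - 21 / 100 * dh3a ⟨x, 10 / 9 * (3 / 5 - x)⟩ ⟨y, w * τl y⟩ (-(10 / 9)) <
      KE.VA ⟨1 / 5, -T⟩ ⟨y, w * τl y⟩ - KE.VA ⟨x, 10 / 9 * (3 / 5 - x)⟩ ⟨y, w * τl y⟩ ∨
    (y ≤ 3 / 10 ∧
      f1 x T - 21 / 100 * dh3a ⟨x, 10 / 9 * (3 / 5 - x)⟩ ⟨y, w * τl y⟩ (-(10 / 9)) <
      KE.VF ⟨1 / 5, -T⟩ ⟨3 / 10, w⟩ - KE.VF ⟨x, 10 / 9 * (3 / 5 - x)⟩ ⟨y, w * τl y⟩ + sM y w) := by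
  have e1 : (E.q 1 5).val [x, T, y, w] = 1 / 5 := by norm_num [E.val]
  have e2 : (E.neg (.var 1)).val [x, T, y, w] = -T := rfl
  have hτ : 0 ≤ τl y := (tr_mem _ _ _ _).1
  have hs : tm.val [x, T, y, w] - 10 / 9 * (3 / 5 - x) < 0 := by
    rw [tm_val]
    have h2 : 0 ≤ -w * τl y := mul_nonneg (by linarith only [w1]) hτ
    nlinarith only [x1, h2]
  rcases le_total y (3 / 10) with h | h
  · rcases dk2 r_p1a (by norm_num) (x := x) (y := T) (z := y) (w := w)
      (by constructor <;> push_cast <;> linarith only [x0, x1]) (by constructor <;> push_cast <;> linarith only [T0, T1])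
      (by constructor <;> push_cast <;> linarith only [y0, h]) (by constructor <;> push_cast <;> linarith only [w0, w1])
      with h1 | h1
    · left
      rw [D.val, D3n_val hs, D.val, kp_val, e1, e2, tm_val, hr_val, f1_val] at h1
      linarith only [h1]
    · right
      rw [D.val, D3n_val hs, D.val, rs_val, e1, e2, tm_val, hr_val, f1_val, sM_val] at h1
      exact ⟨h, by linarith only [h1]⟩
  left
  rcases le_total y (38 / 100) with h' | h'
  · have h1 := dk1 r_p1b (by norm_num) (x := x) (y := T) (z := y) (w := w)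
      (by constructor <;> push_cast <;> linarith only [x0, x1]) (by constructor <;> push_cast <;> linarith only [T0, T1])
      (by constructor <;> push_cast <;> linarith only [h, h']) (by constructor <;> push_cast <;> linarith only [w0, w1])
    rw [D.val, D3n_val hs, D.val, kp_val, e1, e2, tm_val, hr_val, f1_val] at h1
    linarith only [h1]
  · have h1 := dk1 r_p1c (by norm_num) (x := x) (y := T) (z := y) (w := w)
      (by constructor <;> push_cast <;> linarith only [x0, x1]) (by constructor <;> push_cast <;> linarith only [T0, T1])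
      (by constructor <;> push_cast <;> linarith only [h', y1]) (by constructor <;> push_cast <;> linarith only [w0, w1])
    rw [D.val, D3_val, D.val, kp_val, e1, e2, tm_val, hr_val, f1_val] at h1
    linarith only [h1]

/-- second half, with the first order condition, inner variable on the upper mirrored path -/
theorem p1_u (x0 : 2 / 5 ≤ x) (x1 : x ≤ 3 / 5) (T0 : 0 ≤ T) (T1 : T ≤ 53 / 1000)
    (y0 : 73 / 100 ≤ y) (y1 : y ≤ 8 / 10) :
    f1 x T - 21 / 100 * dh3a ⟨x, 10 / 9 * (3 / 5 - x)⟩ ⟨y, 16 / 100 * τl y⟩ (-(10 / 9)) <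
      KE.VA ⟨1 / 5, -T⟩ ⟨y, 16 / 100 * τl y⟩ -
      KE.VA ⟨x, 10 / 9 * (3 / 5 - x)⟩ ⟨y, 16 / 100 * τl y⟩ := by
  have e1 : (E.q 1 5).val [x, T, y, -(89 / 1000)] = 1 / 5 := by norm_num [E.val]
  have e2 : (E.neg (.var 1)).val [x, T, y, -(89 / 1000)] = -T := rfl
  have h1 := dk1 r_p1u (by norm_num) (x := x) (y := T) (z := y) (w := -(89 / 1000))
    (by constructor <;> push_cast <;> linarith only [x0, x1]) (by constructor <;> push_cast <;> linarith only [T0, T1])
    (by constructor <;> push_cast <;> linarith only [y0, y1]) (by constructor <;> push_cast <;> linarith only [])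
  rw [D.val, D3_val, D.val, kp_val, e1, e2, tu_val, hr_val, f1_val] at h1
  linarith only [h1]

/-- the `2`, second half, with the first order condition -/
theorem k1_le (x0 : 2 / 5 ≤ x) (x1 : x ≤ 3 / 5) (T0 : 0 ≤ T) (T1 : T ≤ 53 / 1000) (y0 : 0 ≤ y)
    (y1 : y ≤ 36 / 100) (t0 : -1 ≤ θ) (t1 : θ ≤ 1) :
    0 < V2 ⟨1 / 5, T⟩ ⟨y, θ * (16 / 100 * τk y)⟩ -
      V2 ⟨x, -(10 / 9 * (3 / 5 - x))⟩ ⟨y, θ * (16 / 100 * τk y)⟩ +
      2 * Real.pi * (10 / 9 * (3 / 5 - x)) + f1 x T +
      21 / 100 * (dh2 ⟨x, -(10 / 9 * (3 / 5 - x))⟩ ⟨y, θ * (16 / 100 * τk y)⟩ (10 / 9) +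
        Real.pi * (20 / 9)) := by
  have e1 : (E.q 1 5).val [x, T, y, θ] = 1 / 5 := by norm_num [E.val]
  have h1 := dk1 r_k1 (by norm_num) (x := x) (y := T) (z := y) (w := θ)
    (by constructor <;> push_cast <;> linarith only [x0, x1]) (by constructor <;> push_cast <;> linarith only [T0, T1])
    (by constructor <;> push_cast <;> linarith only [y0, y1]) (by constructor <;> push_cast <;> linarith only [t0, t1])
  rw [D.val, D.val, D2_val, g2_val, e1, e1_val, hr_val, f1_val] at h1
  exact h1

/-- second half, inner variable on the main path, first part -/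
theorem p3_m (x0 : 2 / 5 ≤ x) (x1 : x ≤ 3 / 5) (T0 : 0 ≤ T) (T1 : T ≤ 53 / 1000) (y0 : 0 ≤ y)
    (y1 : y ≤ 38 / 100) (w0 : -(89 / 1000) ≤ w) (w1 : w ≤ -(13 / 1000)) :
    f3 x T < KE.VA ⟨1 / 5, -T⟩ ⟨y, w * τl y⟩ -
      KE.VA ⟨x, 10 / 9 * (3 / 5 - x)⟩ ⟨y, w * τl y⟩ ∨
    (y ≤ 3 / 10 ∧ f3 x T < KE.VF ⟨1 / 5, -T⟩ ⟨3 / 10, w⟩ -
      KE.VF ⟨x, 10 / 9 * (3 / 5 - x)⟩ ⟨y, w * τl y⟩ + sM y w) := by
  have e1 : (E.q 1 5).val [x, T, y, w] = 1 / 5 := by norm_num [E.val]
  have e2 : (E.neg (.var 1)).val [x, T, y, w] = -T := rfl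
  rcases le_total y (3 / 10) with h | h
  · rcases dk2 r_p3 (by norm_num) (x := x) (y := T) (z := y) (w := w)
      (by constructor <;> push_cast <;> linarith only [x0, x1]) (by constructor <;> push_cast <;> linarith only [T0, T1])
      (by constructor <;> push_cast <;> linarith only [y0, h]) (by constructor <;> push_cast <;> linarith only [w0, w1])
      with h1 | h1
    · left
      rw [D.val, kp_val, e1, e2, tm_val, hr_val, f3_val] at h1
      linarith only [h1]
    · right
      rw [D.val, rs_val, e1, e2, tm_val, hr_val, f3_val, sM_val] at h1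
      exact ⟨h, by linarith only [h1]⟩
  · left
    have h1 := dk1 r_p3b (by norm_num) (x := x) (y := T) (z := y) (w := w)
      (by constructor <;> push_cast <;> linarith only [x0, x1]) (by constructor <;> push_cast <;> linarith only [T0, T1])
      (by constructor <;> push_cast <;> linarith only [h, y1]) (by constructor <;> push_cast <;> linarith only [w0, w1])
    rw [D.val, kp_val, e1, e2, tm_val, hr_val, f3_val] at h1
    linarith only [h1]

/-- the `2`, second half, first part of the inner variable -/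
theorem k3_le (x0 : 2 / 5 ≤ x) (x1 : x ≤ 3 / 5) (T0 : 0 ≤ T) (T1 : T ≤ 53 / 1000)
    (y0 : 36 / 100 ≤ y) (y1 : y ≤ 8 / 10) (t0 : -1 ≤ θ) (t1 : θ ≤ 1) :
    0 < V2 ⟨1 / 5, T⟩ ⟨y, θ * (16 / 100 * τk y)⟩ -
      V2 ⟨x, -(10 / 9 * (3 / 5 - x))⟩ ⟨y, θ * (16 / 100 * τk y)⟩ +
      2 * Real.pi * (10 / 9 * (3 / 5 - x)) + f3 x T := by
  have e1 : (E.q 1 5).val [x, T, y, θ] = 1 / 5 := by norm_num [E.val]
  have h1 := dk1 r_k3 (by norm_num) (x := x) (y := T) (z := y) (w := θ)
    (by constructor <;> push_cast <;> linarith only [x0, x1]) (by constructor <;> push_cast <;> linarith only [T0, T1])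
    (by constructor <;> push_cast <;> linarith only [y0, y1]) (by constructor <;> push_cast <;> linarith only [t0, t1])
  rw [D.val, g2_val, e1, e1_val, hr_val, f3_val] at h1
  exact h1

/-- second half, inner variable on the main path, second part; target `7/20` -/
theorem p4_m (x0 : 2 / 5 ≤ x) (x1 : x ≤ 3 / 5) (T0 : 0 ≤ T) (T1 : T ≤ 53 / 1000)
    (y0 : 38 / 100 ≤ y) (y1 : y ≤ 8 / 10) (w0 : -(89 / 1000) ≤ w) (w1 : w ≤ -(13 / 1000)) :
    f4 x T < KE.VA ⟨7 / 20, -(25 / 27 * T)⟩ ⟨y, w * τl y⟩ -
      KE.VA ⟨x, 10 / 9 * (3 / 5 - x)⟩ ⟨y, w * τl y⟩ := by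
  have e1 : (E.q 7 20).val [x, T, y, w] = 7 / 20 := by norm_num [E.val]
  have e2 : (E.neg (.mul (.q 25 27) (.var 1))).val [x, T, y, w] = -(25 / 27 * T) := by
    rw [E.val, E.val, e1_val]; norm_num [E.val]
  have h1 := dk1 r_p4 (by norm_num) (x := x) (y := T) (z := y) (w := w)
    (by constructor <;> push_cast <;> linarith only [x0, x1]) (by constructor <;> push_cast <;> linarith only [T0, T1])
    (by constructor <;> push_cast <;> linarith only [y0, y1]) (by constructor <;> push_cast <;> linarith only [w0, w1])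
  rw [D.val, kp_val, e1, e2, tm_val, hr_val, f4_val] at h1
  linarith only [h1]

theorem p4_u (x0 : 2 / 5 ≤ x) (x1 : x ≤ 3 / 5) (T0 : 0 ≤ T) (T1 : T ≤ 53 / 1000)
    (y0 : 73 / 100 ≤ y) (y1 : y ≤ 8 / 10) :
    f4 x T < KE.VA ⟨7 / 20, -(25 / 27 * T)⟩ ⟨y, 16 / 100 * τl y⟩ -
      KE.VA ⟨x, 10 / 9 * (3 / 5 - x)⟩ ⟨y, 16 / 100 * τl y⟩ := by
  have e1 : (E.q 7 20).val [x, T, y, -(89 / 1000)] = 7 / 20 := by norm_num [E.val]
  have e2 : (E.neg (.mul (.q 25 27) (.var 1))).val [x, T, y, -(89 / 1000)] = -(25 / 27 * T) := by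
    rw [E.val, E.val, e1_val]; norm_num [E.val]
  have h1 := dk1 r_p4u (by norm_num) (x := x) (y := T) (z := y) (w := -(89 / 1000))
    (by constructor <;> push_cast <;> linarith only [x0, x1]) (by constructor <;> push_cast <;> linarith only [T0, T1])
    (by constructor <;> push_cast <;> linarith only [y0, y1]) (by constructor <;> push_cast <;> linarith only [])
  rw [D.val, kp_val, e1, e2, tu_val, hr_val, f4_val] at h1
  linarith only [h1]

/-- the `2`, second half, target `7/20` -/
theorem k4_le (x0 : 2 / 5 ≤ x) (x1 : x ≤ 3 / 5) (T0 : 0 ≤ T) (T1 : T ≤ 53 / 1000)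
    (y0 : 36 / 100 ≤ y) (y1 : y ≤ 8 / 10) (t0 : -1 ≤ θ) (t1 : θ ≤ 1) :
    0 < V2 ⟨7 / 20, 25 / 27 * T⟩ ⟨y, θ * (16 / 100 * τk y)⟩ -
      V2 ⟨x, -(10 / 9 * (3 / 5 - x))⟩ ⟨y, θ * (16 / 100 * τk y)⟩ +
      2 * Real.pi * (10 / 9 * (3 / 5 - x)) + f4 x T := by
  have e1 : (E.q 7 20).val [x, T, y, θ] = 7 / 20 := by norm_num [E.val]
  have e2 : (E.mul (.q 25 27) (.var 1)).val [x, T, y, θ] = 25 / 27 * T := by
    rw [E.val, e1_val]; norm_num [E.val]
  have h1 := dk1 r_k4 (by norm_num) (x := x) (y := T) (z := y) (w := θ)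
    (by constructor <;> push_cast <;> linarith only [x0, x1]) (by constructor <;> push_cast <;> linarith only [T0, T1])
    (by constructor <;> push_cast <;> linarith only [y0, y1]) (by constructor <;> push_cast <;> linarith only [t0, t1])
  rw [D.val, g2_val, e1, e2, hr_val, f4_val] at h1
  exact h1

/-- second half, inner variable on the upper mirrored path -/
theorem p5_u (x0 : 2 / 5 ≤ x) (x1 : x ≤ 3 / 5) (T0 : 0 ≤ T) (T1 : T ≤ 53 / 1000) (y0 : 0 ≤ y)
    (y1 : y ≤ 73 / 100) (w0 : -(89 / 1000) ≤ w) (w1 : w ≤ -(13 / 1000)) :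
    Gn ⟨1 / 5, -T⟩ ⟨x, 10 / 9 * (3 / 5 - x)⟩ ⟨y, 16 / 100 * τl y⟩ w (sU y w) (f5 x T) := by
  have e1 : (E.q 1 5).val [x, T, y, w] = 1 / 5 := by norm_num [E.val]
  have e2 : (E.neg (.var 1)).val [x, T, y, w] = -T := rfl
  rcases dk2 r_p5u (by norm_num) (x := x) (y := T) (z := y) (w := w)
    (by constructor <;> push_cast <;> linarith only [x0, x1]) (by constructor <;> push_cast <;> linarith only [T0, T1])
    (by constructor <;> push_cast <;> linarith only [y0, y1]) (by constructor <;> push_cast <;> linarith only [w0, w1])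
    with h1 | h1
  · left
    rw [D.val, kp_val, e1, e2, tu_val, hr_val, f5_val] at h1
    linarith only [h1]
  · right
    rw [D.val, rs_val, e1, e2, tu_val, hr_val, f5_val, sU_val] at h1
    linarith only [h1]

/-- the `2`, second half, all positions of the other hinge -/
theorem k5_le (x0 : 2 / 5 ≤ x) (x1 : x ≤ 3 / 5) (T0 : 0 ≤ T) (T1 : T ≤ 53 / 1000) (y0 : 0 ≤ y)
    (y1 : y ≤ 8 / 10) (t0 : -1 ≤ θ) (t1 : θ ≤ 1) :
    0 < V2 ⟨1 / 5, T⟩ ⟨y, θ * (16 / 100 * τk y)⟩ -
      V2 ⟨x, -(10 / 9 * (3 / 5 - x))⟩ ⟨y, θ * (16 / 100 * τk y)⟩ +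
      2 * Real.pi * (10 / 9 * (3 / 5 - x)) + f5 x T := by
  have e1 : (E.q 1 5).val [x, T, y, θ] = 1 / 5 := by norm_num [E.val]
  have h1 := dk1 r_k5 (by norm_num) (x := x) (y := T) (z := y) (w := θ)
    (by constructor <;> push_cast <;> linarith only [x0, x1]) (by constructor <;> push_cast <;> linarith only [T0, T1])
    (by constructor <;> push_cast <;> linarith only [y0, y1]) (by constructor <;> push_cast <;> linarith only [t0, t1])
  rw [D.val, g2_val, e1, e1_val, hr_val, f5_val] at h1
  exact h1

end K23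

end Pool.Agent.Work.MP_b30479_gtS.G2

end

section

/-!
# Mirrored paths: the kind `2 | 3`, slot `0` of the `3`
-/

namespace Pool.Agent.Work.MP_b30479_gtS.G2

open Finset VOL Filter Topology

namespace SR

variable {M : ℕ} {b : Fin (M + 1) → ℤ} {zs : DD (tyW b) ⊕ ZZ (tyW b) → ℂ}
variable {R : Finset (DD (tyW b))} {nb : Finset (DD (tyW b) ⊕ ZZ (tyW b))}
variable {z : DD (tyW b) ⊕ ZZ (tyW b) → ℂ} {p : DD (tyW b) → ℝ}
variable {h h' : Fin M} {i j j' : Fin (M + 1)} {s : Fin 3} {x c : ℝ}

/-- the hinge in the slot `0` of a `2` -/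
theorem NPos.k2 (hb : ClassW b) (hL : Loc b zs) (A' : Adj h' i 0 j') (hi : clsW b i = .two) {X : ℂ}
    (h0 : NPos b zs nb p h' i 0 X) : 0 ≤ X.re ∧ X.re ≤ 8 / 10 ∧
      |X.im| ≤ 16 / 100 * tr 0 (8 / 10) (1 / 10) (29 / 100) X.re := by
  have hT := Th_mem hb hL A' (by rw [hi]; decide)
  have hre := h0.re
  have ht := trh_ub (b := b) h' hre.1 hre.2
  rw [hi] at hT
  have hH : |Th b zs h' i| ≤ 16 / 100 := by
    rw [abs_le]
    rcases hj : clsW b j' <;> rw [hj] at hT <;> simp only [hbox] at hT <;>
      constructor <;> linarith only [hT, hT.1, hT.2]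
  cases A' with
  | r =>
    have hm : ∀ q, mhs b h' q = 16 / 100 := fun q => mhs_16 q (by rw [hi]; decide)
    have h3 := h0.abs_im hH fun _ => ⟨(hm _).le, (hm _).le⟩
    unfold wXM wcl wcr at ht
    unfold wXM at hre
    rw [hi] at ht hre
    have key : 1 / 10 * trh b h' X.re ≤ X.re ∧ 29 / 100 * trh b h' X.re ≤ 8 / 10 - X.re ∧
        X.re ≤ 8 / 10 := by
      rcases hj : clsW b h'.castSucc <;> rw [hj] at ht hre <;> simp only [hp, hp1] at ht hre <;>
        refine ⟨?_, ?_, ?_⟩ <;> linarith only [hre, ht, ht.1, ht.2.1, ht.2.2.1, ht.2.2.2, hre.1, hre.2]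
    refine ⟨hre.1, key.2.2, h3.trans ?_⟩
    refine KE.le_tr (by norm_num) (by norm_num) ?_ ?_ ?_ (by norm_num)
    · linarith only [ht, ht.2.1]
    · linarith only [key, key.1]
    · linarith only [key, key.2.1]

theorem par_two3a (A : Adj h i 2 j) (hi : clsW b i = .two) (hj : clsW b j = .three) :
    wXM b h = 60 / 100 ∧ wcl b h = 12 / 100 ∧ wcr b h = 27 / 100 := by
  unfold wXM wcl wcr
  cases A
  rw [hi, hj]
  exact ⟨rfl, rfl, rfl⟩

theorem mhs_two3a (A : Adj h i 2 j) (hi : clsW b i = .two) (hj : clsW b j = .three) :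
    mhs b h 2 = 3 / 10 := by
  cases A
  simp [mhs, hi, hj]

theorem mw2_in {k : Cl} {m t : ℝ} (h0 : (mw2 k).In m t) :
    -(89 / 1000) ≤ m ∧ m ≤ -(13 / 1000) ∧ -(53 / 1000) ≤ t := by
  obtain ⟨a1, a2, -, -, a3, -⟩ := h0
  cases k <;> simp only [mw2] at a1 a2 a3 <;> refine ⟨?_, ?_, ?_⟩ <;> linarith only [a1, a2, a3]

/-- **Kind `2 | 3`**, the `3` at its slot `0`. -/
theorem kind_two_three (hb : ClassW b) (L : LocA b zs) : Kd b zs .two .three 2 := by
  intro R nb z p h i j x hN hM hq D hi hj
  obtain ⟨m, rfl⟩ : ∃ m : {i : Fin (M + 1) // (tyW b i).isMid = true}, m.1 = j :=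
    ⟨⟨j, tyW_isMid (Or.inl hj)⟩, rfl⟩
  have Aj : Adj h m.1 0 i := D.adj.symm
  obtain ⟨hnn, I⟩ := hM.ipos hN m D.adj.symm D.nn
  obtain ⟨h1, j1, A1⟩ := D.adj.other' b (clsW_inner hb (Or.inr (Or.inl hi)))
  obtain ⟨k0, k1, k2⟩ := (hM.npos hb hN hq D.adj D.nn A1).k2 hb L.L A1 hi
  obtain ⟨h2, j2, A2⟩ := D.adj.symm.other' b (clsW_inner hb (Or.inr (Or.inr hj)))
  obtain ⟨w0, w1, w2⟩ := (hM.npos hb hN hq D.adj.symm D.nn A2).w3 hb L.L A2 hj
  obtain ⟨l0, l1, T1⟩ := mw2_in (L.D.two m.2 Aj A2 hj hi)
  have l0 : -(89 / 1000) ≤ Tm b zs m := l0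
  have l1 : Tm b zs m ≤ -(13 / 1000) := l1
  have T1 : Th b zs h i ≤ 53 / 1000 := by
    have h5 : -(53 / 1000) ≤ Th b zs h m.1 := T1
    rw [D.Tj] at h5
    linarith only [h5]
  have T0 := D.T0
  have hX := par_two3a D.adj hi hj
  have x0 := D.x0.le
  have x1 := D.x1
  rw [hX.1] at x1
  have h30 := mhs_two3a D.adj hi hj
  have y1' : (mp (clsW b m.1)).XM = 8 / 10 := by rw [hj]; rfl
  have eu : Ow b z m.1 0 = ⟨x, mhs b h 2 * trh b h x⟩ := D.opp
  have ev : Ow b z i 2 = ⟨x, -(mhs b h 2 * trh b h x)⟩ := D.own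
  rw [h30] at eu ev
  obtain ⟨θ, t0, t1, ek⟩ := KE.par_abs k2
  have ek : Ow b z i 0 = ⟨(Ow b z i 0).re, θ * (16 / 100 * K23.τk (Ow b z i 0).re)⟩ :=
    Complex.ext rfl ek
  have hk0 : 0 ≤ (Ow b z i 0).re := k0
  have hk1 : (Ow b z i 0).re ≤ 8 / 10 := k1
  -- star moves
  have sK : ∀ {c T' : ℝ}, 0 ≤ c → c ≤ 6 / 10 → Th b zs h i * trh b h c = T' →
      KE.VA ⟨c, -T'⟩ (Ow b z m.1 1) - KE.VA ⟨x, 3 / 10 * trh b h x⟩ (Ow b z m.1 1) +
        (V2 ⟨c, T'⟩ (Ow b z i 0) - V2 ⟨x, -(3 / 10 * trh b h x)⟩ (Ow b z i 0)) +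
        2 * Real.pi * (3 / 10 * trh b h x) ≤ 0 := by
    intro c T' c0 c1 e
    have g1 := keep_two (zs := zs) (nb := nb) (z := z) (p := p) (c := c) hb D.adj (Or.inl hi)
    have g2 := keep_three0 (zs := zs) (nb := nb) (z := z) (p := p) (c := c) hb Aj hj
    have h4 := D.star hb hN.ok.1 hM c0 (by rw [hX.1]; linarith only [c1]) g1 g2
    have e1 : tgo b zs h i c = ⟨c, T'⟩ := by unfold tgo; rw [e]
    have e2 : tgo b zs h m.1 c = ⟨c, -T'⟩ := by unfold tgo; rw [D.Tj, ← e, neg_mul]
    rw [KE.V3_VA, e1, e2, eu, ev, h30] at h4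
    have h5 : Ow b z i (2 : Fin 3).rev = Ow b z i 0 := rfl
    rw [h5] at h4
    linarith only [h4]
  have sR : ∀ {c T' : ℝ}, 0 ≤ c → c ≤ 6 / 10 → Th b zs h i * trh b h c = T' →
      KE.VF ⟨c, -T'⟩ ⟨3 / 10, Tm b zs m⟩ - KE.VF ⟨x, 3 / 10 * trh b h x⟩ (Ow b z m.1 1) +
        (V2 ⟨3 / 10, Tm b zs m⟩ (Ow b z m.1 2) - V2 (Ow b z m.1 1) (Ow b z m.1 2) +
          2 * Real.pi * p (.inr m)) +
        (V2 ⟨c, T'⟩ (Ow b z i 0) - V2 ⟨x, -(3 / 10 * trh b h x)⟩ (Ow b z i 0)) +
        2 * Real.pi * (3 / 10 * trh b h x) ≤ 0 := by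
    intro c T' c0 c1 e
    have g1 := keep_two (zs := zs) (nb := nb) (z := z) (p := p) (c := c) hb D.adj (Or.inl hi)
    have g2 := inner_three0 (zs := zs) (nb := nb) (z := z) (p := p) (c := c) hb m Aj hj
      hnn (c' := 3 / 10) (by norm_num) (by norm_num)
    have h4 := D.star hb hN.ok.1 hM c0 (by rw [hX.1]; linarith only [c1]) g1 g2
    have e1 : tgo b zs h i c = ⟨c, T'⟩ := by unfold tgo; rw [e]
    have e2 : tgo b zs h m.1 c = ⟨c, -T'⟩ := by unfold tgo; rw [D.Tj, ← e, neg_mul]
    rw [KE.V3_VF, KE.V3_VF, e1, e2, tgi_3 m hj (by norm_num) (by norm_num), eu, ev, h30] at h4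
    have h5 : Ow b z i (2 : Fin 3).rev = Ow b z i 0 := rfl
    rw [h5] at h4
    linarith only [h4]
  have eT : Th b zs h i * trh b h (1 / 5) = Th b zs h i := by
    rw [trh_M (by rw [hX.2.1]; norm_num) (by rw [hX.1, hX.2.2]; norm_num), mul_one]
  have eT' : Th b zs h i * trh b h (7 / 20) = 25 / 27 * Th b zs h i := by
    rw [trh_R (by rw [hX.1, hX.2.2]; norm_num) (by rw [hX.1]; norm_num), hX.1, hX.2.2]
    ring
  have sK5 := sK (c := 1 / 5) (by norm_num) (by norm_num) eT
  have sR5 := sR (c := 1 / 5) (by norm_num) (by norm_num) eT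
  have sK7 := sK (c := 7 / 20) (by norm_num) (by norm_num) eT'
  clear sK sR eT eT'
  have etl : ∀ y, trm b m y = K23.τl y := fun y => trm3 m hj y
  rcases le_total x (2 / 5) with hx | hx
  · -- first half of the path
    have eh : trh b h x = K23.τh x := by
      rw [trh_eq hX]
      unfold K23.τh
      norm_num
    have hk := K23.k0_le x0 hx T0 T1 hk0 hk1 t0 t1
    rw [← ek] at hk
    rw [eh] at sK5 sR5
    cases I with
    | main y y0 y1 e hp =>
      rw [y1'] at y1
      rw [etl] at e
      rw [e] at sK5 sR5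
      rw [hp] at sR5
      rcases K23.p0_m x0 hx T0 T1 y0 y1 l0 l1 with hp0 | ⟨hy, hp0⟩
      · linarith only [hk, sK5, hp0]
      · have hf := K23.far_m y0 hy l0 l1 w0 w1 w2
        have hf : K23.sM y (Tm b zs m) < V2 ⟨3 / 10, Tm b zs m⟩ (Ow b z m.1 2) -
          V2 ⟨y, Tm b zs m * K23.τl y⟩ (Ow b z m.1 2) := hf
        linarith only [hk, sR5, hp0, hf]
    | up y y0 y1 hT e hp =>
      rw [y1'] at y1
      rw [etl] at e hp
      rw [e] at sK5 sR5
      rw [hp] at sR5
      rcases K23.p0_u x0 hx T0 T1 y0 y1 l0 l1 with hp0 | hp0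
      · linarith only [hk, sK5, hp0]
      · have hf := K23.far_u y0 y1 l0 l1 w0 w1 w2
        have hf : K23.sU y (Tm b zs m) < V2 ⟨3 / 10, Tm b zs m⟩ (Ow b z m.1 2) -
          V2 ⟨y, 16 / 100 * K23.τl y⟩ (Ow b z m.1 2) + 2 * Real.pi * (16 / 100 * K23.τl y) := hf
        linarith only [hk, sR5, hp0, hf]
    | dn y y0 y1 hT e hp => linarith only [l1, hT]
  -- second half of the path
  obtain ⟨eh, kt⟩ := trh_right (b := b) (h := h) (x := x) (by rw [hX.1, hX.2.2]; linarith only [hx])
    (by rw [hX.1]; exact x1)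
  have eh : 3 / 10 * trh b h x = 10 / 9 * (3 / 5 - x) := by
    rw [eh, hX.1, hX.2.2]
    ring
  have x2 : x < 3 / 5 := by linarith only [x1]
  rw [eh] at sK5 sR5 sK7 eu ev
  -- first order condition
  have foc : (Ow b z i 0).re ≤ 36 / 100 → DOk (Ow b z m.1 1 - Ow b z m.1 0) →
      dh2 ⟨x, -(10 / 9 * (3 / 5 - x))⟩ (Ow b z i 0) (10 / 9) +
        dh3a ⟨x, 10 / 9 * (3 / 5 - x)⟩ (Ow b z m.1 1) (-(10 / 9)) + Real.pi * (20 / 9) = 0 := by
    intro hy hd
    have a1 := der_two hb D.adj (Or.inl hi) kt D.own' D.ok_own (by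
      refine Or.inr ?_
      have h5 : Ow b z i (2 : Fin 3).rev = Ow b z i 0 := rfl
      rw [h5, ev]
      show _ ∧ _
      simp only [Complex.add_re]
      constructor <;> linarith only [hk0, hx, x1, hy])
    have a2 := der_three0 hb hj kt (z := z) (a := mhs b h 2) D.opp D.ok_opp hd
    have a3 := D.foc hb hN.ok.1 hM a1 a2 kt
    have h5 : Ow b z i (2 : Fin 3).rev = Ow b z i 0 := rfl
    have e1 : -mhs b h 2 * -(1 / wcr b h) = 10 / 9 := by rw [h30, hX.2.2]; norm_num
    have e2 : mhs b h 2 * -(1 / wcr b h) = -(10 / 9) := by rw [h30, hX.2.2]; norm_num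
    rw [h5, ev, eu, e1, e2] at a3
    linarith only [a3]
  rcases le_total (Ow b z i 0).re (36 / 100) with hy | hy
  · cases I with
    | main y y0 y1 e hp =>
      rw [y1'] at y1
      rw [etl] at e
      have hd : DOk (Ow b z m.1 1 - Ow b z m.1 0) := by
        refine Or.inl (ne_of_lt ?_)
        rw [e, eu]
        show Tm b zs m * K23.τl y - 10 / 9 * (3 / 5 - x) < 0
        have hτ : 0 ≤ K23.τl y := (tr_mem _ _ _ _ _).1
        have h5 : 0 ≤ -Tm b zs m * K23.τl y := mul_nonneg (by linarith only [l1]) hτ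
        linarith only [x1, h5]
      have hf1 := foc hy hd
      have hk := K23.k1_le hx x2.le T0 T1 hk0 hy t0 t1
      rw [← ek] at hk
      rw [e] at sK5 sR5 hf1
      rw [hp] at sR5
      rcases K23.p1_m hx x2 T0 T1 y0 y1 l0 l1 with hp0 | ⟨hy', hp0⟩
      · linarith only [sK5, hf1, hk, hp0]
      · have hf := K23.far_m y0 hy' l0 l1 w0 w1 w2
        have hf : K23.sM y (Tm b zs m) < V2 ⟨3 / 10, Tm b zs m⟩ (Ow b z m.1 2) -
          V2 ⟨y, Tm b zs m * K23.τl y⟩ (Ow b z m.1 2) := hf
        linarith only [sR5, hf1, hk, hp0, hf]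
    | up y y0 y1 hT e hp =>
      rw [y1'] at y1
      rw [etl] at e hp
      rcases le_total y (73 / 100) with hy' | hy'
      · have hk := K23.k5_le hx x2.le T0 T1 hk0 hk1 t0 t1
        rw [← ek] at hk
        rw [e] at sK5 sR5
        rw [hp] at sR5
        rcases K23.p5_u hx x2.le T0 T1 y0 hy' l0 l1 with hp0 | hp0
        · linarith only [sK5, hk, hp0]
        · have hf := K23.far_u y0 y1 l0 l1 w0 w1 w2
          have hf : K23.sU y (Tm b zs m) < V2 ⟨3 / 10, Tm b zs m⟩ (Ow b z m.1 2) -
            V2 ⟨y, 16 / 100 * K23.τl y⟩ (Ow b z m.1 2) + 2 * Real.pi * (16 / 100 * K23.τl y) := hf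
          linarith only [sR5, hk, hp0, hf]
      · have hd : DOk (Ow b z m.1 1 - Ow b z m.1 0) := by
          refine Or.inr ?_
          rw [e, eu]
          show _ ∧ _
          simp only [Complex.sub_re]
          constructor <;> linarith only [x1, hy', hx, y1]
        have hf1 := foc hy hd
        have hk := K23.k1_le hx x2.le T0 T1 hk0 hy t0 t1
        rw [← ek] at hk
        rw [e] at sK5 hf1
        have hp0 := K23.p1_u hx x2.le T0 T1 hy' y1
        linarith only [sK5, hf1, hk, hp0]
    | dn y y0 y1 hT e hp => linarith only [l1, hT]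
  · cases I with
    | main y y0 y1 e hp =>
      rw [y1'] at y1
      rw [etl] at e
      rw [e] at sK5 sR5 sK7
      rw [hp] at sR5
      rcases le_total y (38 / 100) with hy' | hy'
      · have hk := K23.k3_le hx x2.le T0 T1 hy hk1 t0 t1
        rw [← ek] at hk
        rcases K23.p3_m hx x2.le T0 T1 y0 hy' l0 l1 with hp0 | ⟨hy', hp0⟩
        · linarith only [sK5, hk, hp0]
        · have hf := K23.far_m y0 hy' l0 l1 w0 w1 w2
          have hf : K23.sM y (Tm b zs m) < V2 ⟨3 / 10, Tm b zs m⟩ (Ow b z m.1 2) -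
            V2 ⟨y, Tm b zs m * K23.τl y⟩ (Ow b z m.1 2) := hf
          linarith only [sR5, hk, hp0, hf]
      · have hk := K23.k4_le hx x2.le T0 T1 hy hk1 t0 t1
        rw [← ek] at hk
        have hp0 := K23.p4_m hx x2.le T0 T1 hy' y1 l0 l1
        linarith only [sK7, hk, hp0]
    | up y y0 y1 hT e hp =>
      rw [y1'] at y1
      rw [etl] at e hp
      rw [e] at sK5 sR5 sK7
      rw [hp] at sR5
      rcases le_total y (73 / 100) with hy' | hy'
      · have hk := K23.k5_le hx x2.le T0 T1 hk0 hk1 t0 t1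
        rw [← ek] at hk
        rcases K23.p5_u hx x2.le T0 T1 y0 hy' l0 l1 with hp0 | hp0
        · linarith only [sK5, hk, hp0]
        · have hf := K23.far_u y0 y1 l0 l1 w0 w1 w2
          have hf : K23.sU y (Tm b zs m) < V2 ⟨3 / 10, Tm b zs m⟩ (Ow b z m.1 2) -
            V2 ⟨y, 16 / 100 * K23.τl y⟩ (Ow b z m.1 2) + 2 * Real.pi * (16 / 100 * K23.τl y) := hf
          linarith only [sR5, hk, hp0, hf]
      · have hk := K23.k4_le hx x2.le T0 T1 hy hk1 t0 t1
        rw [← ek] at hk
        have hp0 := K23.p4_u hx x2.le T0 T1 hy' y1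
        linarith only [sK7, hk, hp0]
    | dn y y0 y1 hT e hp => linarith only [l1, hT]

end SR

end Pool.Agent.Work.MP_b30479_gtS.G2

end
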