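import Pool.Agent.Work.MP_b30479_gt.TBS.G2.WMF3a
import Pool.Agent.Work.MP_b30479_gt.TBS.G2.WMF3r1
import Pool.Agent.Work.MP_b30479_gt.TBS.G2.WMF3r2
import Pool.Agent.Work.MP_b30479_gt.TBS.G2.WMF3r3
import Pool.Agent.Work.MP_b30479_gt.TBS.G2.WMF3r8_2
import Pool.Agent.Work.MP_b30479_gt.TBS.G2.WMF3r5
import Pool.Agent.Work.MP_b30479_gt.TBS.G2.WMGr3s5
import Pool.Agent.Work.MP_b30479_gt.TBS.G2.WMF3r7
import Pool.Agent.Work.MP_b30479_gt.TBS.G2.WMF3r9
import Pool.Agent.Work.MP_b30479_gt.TBS.G2.WMF3r10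
import Pool.Agent.Work.MP_b30479_gt.TBS.G2.WMF3r11
import Pool.Agent.Work.MP_b30479_gt.TBS.G2.WMF3r12

section

/-!
# Far table `3/10`: rows 13
-/

set_option deprecated.oldSectionVars true

namespace Pool.Agent.Work.NumGs.F3

theorem d500_c : C3 (fun j => [gD 1 j (lin (529) 1000 (2) 25)
    (lin (12) 5 (0) 1)]) 5000 6000 0 50 0 :=
  ⟨⟨9246090656726641469195201872274211399814667115671411231391167890746211650044129413715542947285558997598466, by decide +kernel⟩,
  ⟨2102317612231458774792078283976394478998270536068206545602736273550490990131240994908596650240, by decide +kernel⟩,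
  ⟨571718483054921898986710805487629972664257737216778921074699402631272169094124114135932257832308491612328070890810364514129997727299224558846775116573144259811376226198478094460169263223990232964687358023284562598121952609116888218346329918653629943541861481571844574815709086083, by decide +kernel⟩⟩
theorem d500 : RD 5000 6000 (((529 : ℤ) : ℝ) / ((1000 : ℕ) : ℝ)) (((2 : ℤ) : ℝ) / ((25 : ℕ) : ℝ))
    (((12 : ℤ) : ℝ) / ((5 : ℕ) : ℝ)) (((0 : ℤ) : ℝ) / ((1 : ℕ) : ℝ)) :=
  RD_of (by decide) d500_c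

theorem d600_c : C3 (fun j => [gD 1 j (lin (481) 1000 (4) 25)
    (lin (12) 5 (0) 1)]) 6000 6500 0 50 0 :=
  ⟨⟨404873254254410758690886328199423676329788685039061686075650, by decide +kernel⟩,
  ⟨6633843569070624323243550913791559002980285235584663447465427330, by decide +kernel⟩,
  ⟨4759406355666941542658, by decide +kernel⟩⟩
theorem d600 : RD 6000 6500 (((481 : ℤ) : ℝ) / ((1000 : ℕ) : ℝ)) (((4 : ℤ) : ℝ) / ((25 : ℕ) : ℝ))
    (((12 : ℤ) : ℝ) / ((5 : ℕ) : ℝ)) (((0 : ℤ) : ℝ) / ((1 : ℕ) : ℝ)) :=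
  RD_of (by decide) d600_c

theorem d650_c : C3 (fun j => [gD 1 j (lin (403) 1000 (7) 25)
    (lin (12) 5 (0) 1)]) 6500 7500 0 50 0 :=
  ⟨⟨2481978561655755461656807206893826019703300691243900344500854276821286447131156805147893604200834348274607825404162, by decide +kernel⟩,
  ⟨2481978561674228972600359848449117353080077984048889040481803099950085815369158193520139886574793282266334417174786, by decide +kernel⟩,
  ⟨342951371040658413836067788106963616002, by decide +kernel⟩⟩
theorem d650 : RD 6500 7500 (((403 : ℤ) : ℝ) / ((1000 : ℕ) : ℝ)) (((7 : ℤ) : ℝ) / ((25 : ℕ) : ℝ))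
    (((12 : ℤ) : ℝ) / ((5 : ℕ) : ℝ)) (((0 : ℤ) : ℝ) / ((1 : ℕ) : ℝ)) :=
  RD_of (by decide) d650_c

theorem d750_c : C3 (fun j => [gD 2 j (lin (17951) 2000 (-223) 20)
    (lin (12) 5 (0) 1)]) 7500 7600 0 50 0 :=
  ⟨⟨1780651404958638595872442415358699409630842266385955800920798918925664514, by decide +kernel⟩,
  ⟨108685627837196212200663889024089572044908690878102195405465057263875, by decide +kernel⟩,
  ⟨290491110579552642, by decide +kernel⟩⟩
theorem d750 : RD 7500 7600 (((17951 : ℤ) : ℝ) / ((2000 : ℕ) : ℝ)) (((-223 : ℤ) : ℝ) / ((20 : ℕ) : ℝ))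
    (((12 : ℤ) : ℝ) / ((5 : ℕ) : ℝ)) (((0 : ℤ) : ℝ) / ((1 : ℕ) : ℝ)) :=
  RD_of (by decide) d750_c

theorem d760_c : C3 (fun j => [gD 2 j (lin (19471) 2000 (-243) 20)
    (lin (12) 5 (0) 1)]) 7600 7800 0 50 0 :=
  ⟨⟨9246090656726641405794244732199717623416817005795650028053165119998747651197596203745631035160001343701250, by decide +kernel⟩,
  ⟨48008447426644576536210826774670318043174284002840718026880491399467683213994754579495939043494976278780617622061036043054162103263274500482, by decide +kernel⟩,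
  ⟨4759406355701301297538, by decide +kernel⟩⟩
theorem d760 : RD 7600 7800 (((19471 : ℤ) : ℝ) / ((2000 : ℕ) : ℝ)) (((-243 : ℤ) : ℝ) / ((20 : ℕ) : ℝ))
    (((12 : ℤ) : ℝ) / ((5 : ℕ) : ℝ)) (((0 : ℤ) : ℝ) / ((1 : ℕ) : ℝ)) :=
  RD_of (by decide) d760_c

theorem d780_c : C3 (fun j => [gD 2 j (lin (9989) 1000 (-499) 40)
    (lin (12) 5 (0) 1)]) 7800 8000 0 50 0 :=
  ⟨⟨2102317616101263730750871383977245408760852683729733759649527599668021298430286037755002667394, by decide +kernel⟩,
  ⟨78999315046313366393026412782654760972883132850728803122420460723758854838760407445495823948482266817429677138904812903228351397057342902037748724043836337440024039208899840583268727550556848155715993987, by decide +kernel⟩,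
  ⟨4759406355735388422530, by decide +kernel⟩⟩
theorem d780 : RD 7800 8000 (((9989 : ℤ) : ℝ) / ((1000 : ℕ) : ℝ)) (((-499 : ℤ) : ℝ) / ((40 : ℕ) : ℝ))
    (((12 : ℤ) : ℝ) / ((5 : ℕ) : ℝ)) (((0 : ℤ) : ℝ) / ((1 : ℕ) : ℝ)) :=
  RD_of (by decide) d780_c

end Pool.Agent.Work.NumGs.F3

end

section

/-!
# Far table `3/10`

`far_main`, `far_up`, `far_down`: lower bounds of `V2 <3/10, T> w - V2 <y, t> w` for every hinge `w`
in the slot `2` of a `3`, `t` on the ramp at `y` (main, up, down); piecewise linear tables.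
-/

namespace Pool.Agent.Work.NumGs.F3

open MP_b30479_gtS MP_b30479_gtS.G2 MP_b30479_gtS.VOL

/-- main, value at `T = 0`; value at `0`: `120 / 1000` -/
def fa : List (ℤ × ℤ × ℕ) :=
  [(0, -19, 4), (2, 41, 60), (5, 68, 75), (10, 29, 50), (15, 11, 50), (20, 41, 100),
    (30, 43, 100), (40, 19, 100), (50, -129, 100), (60, 109, 200), (80, 61, 100), (100, 81, 200),
    (125, 63, 125), (150, 79, 250), (175, 127, 250), (200, 37, 125), (225, 89, 250),
    (250, 153, 250), (275, 648, 1625), (288, 7, 26), (300, -13, 5), (312, 7, 130),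
    (325, 88, 1625), (350, 23, 250), (375, 9, 50), (400, 3, 125), (450, 12, 125), (500, 13, 250),
    (550, 9, 500), (600, -2, 125), (650, -11, 250), (700, -61, 500), (750, -9, 250),
    (775, -33, 250)]

/-- main, slope in `-T`; value at `0`: `2600 / 1000` -/
def fb : List (ℤ × ℤ × ℕ) :=
  [(0, -80, 1), (2, 100, 3), (5, -22, 3), (10, 6, 1), (20, 2, 1), (50, 56, 1), (60, -5, 2),
    (80, -3, 1), (100, -21, 10), (125, -8, 5), (150, -6, 5), (175, -2, 1), (200, -4, 5),
    (225, -4, 5), (250, -293, 250), (275, -341, 125), (288, -11, 10), (300, 169, 20),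
    (312, -1, 20), (325, -6, 125), (350, -116, 125), (375, 47, 125), (400, 1, 5), (550, 2, 5),
    (600, 3, 5), (650, 3, 5), (700, 8, 5), (750, 243, 5), (775, -4, 5)]

/-- mode up; value at `0`: `120 / 1000` -/
def fu : List (ℤ × ℤ × ℕ) :=
  [(0, 179, 10), (5, -11, 5), (10, -81, 10), (20, 11, 10), (30, 17, 20), (50, -941, 100),
    (100, 19, 50), (150, -1, 50), (200, 1, 22), (750, -6, 11), (760, -17, 1), (770, -93, 10),
    (780, -3, 5), (790, -2, 1)]

/-- mode up, slope in `-T`; value at `0`: `2600 / 1000` -/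
def fv : List (ℤ × ℤ × ℕ) :=
  [(0, -130, 1), (10, 130, 1), (750, 20, 1)]

/-- mode down; value at `0`: `120 / 1000` -/
def fd : List (ℤ × ℤ × ℕ) :=
  [(0, 27, 4), (2, 19, 12), (5, 2, 3), (10, 11, 20), (20, 29, 60), (50, -781, 75), (100, 4, 25),
    (150, 1, 10), (200, 3, 25), (250, 1, 50), (500, 3, 50), (600, 2, 25), (650, 3, 25),
    (750, -1143, 100), (760, -1, 1), (780, -13, 40)]

/-- intercept and slope of a piecewise linear function right of `lo` -/
def affQ (lo : ℤ) (y0 : ℤ) : List (ℤ × ℤ × ℕ) → ℚ × ℚ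
  | [] => ((y0 : ℚ) / 1000, 0)
  | (a, n, d) :: r =>
    let p := affQ lo y0 r
    if a ≤ lo then (p.1 - (n : ℚ) / d * (a / 1000), p.2 + (n : ℚ) / d) else p

/-- no node inside -/
def okQ (lo hi : ℤ) : List (ℤ × ℤ × ℕ) → Bool
  | [] => true
  | (a, _, _) :: r => (decide (a ≤ lo) || decide (hi ≤ a)) && okQ lo hi r

theorem plR_aff {lo hi y0 : ℤ} {y : ℝ} (h1 : (lo : ℝ) / 1000 ≤ y) (h2 : y ≤ (hi : ℝ) / 1000) :
    ∀ l : List (ℤ × ℤ × ℕ), okQ lo hi l = true →
      plR y y0 l = ((affQ lo y0 l).1 : ℝ) + ((affQ lo y0 l).2 : ℝ) * y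
  | [], _ => by
    simp only [plR, affQ]
    push_cast
    ring
  | (a, n, d) :: r, h => by
    simp only [okQ, Bool.and_eq_true, Bool.or_eq_true, decide_eq_true_eq] at h
    have ih := plR_aff (y0 := y0) h1 h2 r h.2
    simp only [plR, affQ]
    rw [ih]
    split_ifs with h3
    · have h4 : (a : ℝ) ≤ lo := by exact_mod_cast h3
      have h5 : (a : ℝ) / ((1000 : ℕ) : ℝ) ≤ y := by
        refine le_trans ?_ h1
        push_cast
        gcongr
      rw [max_eq_left (by linarith only [h1, h4])]
      push_cast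
      ring
    · have h4 : (hi : ℝ) ≤ a := by exact_mod_cast h.1.resolve_left h3
      have h5 : y ≤ (a : ℝ) / ((1000 : ℕ) : ℝ) := by
        refine le_trans h2 ?_
        push_cast
        gcongr
      rw [max_eq_right (by linarith only [h2, h4])]
      ring

theorem pl_of {lo hi y0 : ℤ} {y : ℝ} {l : List (ℤ × ℤ × ℕ)} (h1 : (lo : ℝ) / 1000 ≤ y)
    (h2 : y ≤ (hi : ℝ) / 1000) (hok : okQ lo hi l = true) {a c : ℤ} {b d : ℕ}
    (he : affQ lo y0 l = ((a : ℚ) / b, (c : ℚ) / d)) :
    plR y y0 l = (a : ℝ) / b + (c : ℝ) / d * y := by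
  rw [plR_aff h1 h2 l hok, he]
  push_cast
  ring

/-- the statement on an interval, main -/
def PM (lo hi : ℤ) : Prop := ∀ y T a s : ℝ, (lo : ℝ) / 1000 ≤ y → y ≤ (hi : ℝ) / 1000 →
  -(123 / 1000) ≤ T → T ≤ 5 / 1000 → Wd a s →
  plR y 120 fa - T * plR y 2600 fb ≤ dv T y (T * rr y) a s
def PU (lo hi : ℤ) : Prop := ∀ y T a s : ℝ, (lo : ℝ) / 1000 ≤ y → y ≤ (hi : ℝ) / 1000 →
  -(123 / 1000) ≤ T → T ≤ 0 → Wd a s →
  plR y 120 fu - T * plR y 2600 fv ≤ dv T y (16 / 100 * rr y) a s + 2 * Real.pi * (16 / 100 * rr y)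
def PD (lo hi : ℤ) : Prop := ∀ y T a s : ℝ, (lo : ℝ) / 1000 ≤ y → y ≤ (hi : ℝ) / 1000 →
  0 ≤ T → T ≤ 5 / 1000 → Wd a s →
  plR y 120 fd - T * (24 / 10) ≤ dv T y (-(16 / 100 * rr y)) a s + 2 * Real.pi * (16 / 100 * rr y)

theorem PM.append {lo mid hi : ℤ} (h1 : PM lo mid) (h2 : PM mid hi) : PM lo hi := by
  intro y T a s y1 y2 t1 t2 hw
  rcases le_total y ((mid : ℝ) / 1000) with h | h
  · exact h1 y T a s y1 h t1 t2 hw
  · exact h2 y T a s h y2 t1 t2 hw

theorem PU.append {lo mid hi : ℤ} (h1 : PU lo mid) (h2 : PU mid hi) : PU lo hi := by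
  intro y T a s y1 y2 t1 t2 hw
  rcases le_total y ((mid : ℝ) / 1000) with h | h
  · exact h1 y T a s y1 h t1 t2 hw
  · exact h2 y T a s h y2 t1 t2 hw

theorem PD.append {lo mid hi : ℤ} (h1 : PD lo mid) (h2 : PD mid hi) : PD lo hi := by
  intro y T a s y1 y2 t1 t2 hw
  rcases le_total y ((mid : ℝ) / 1000) with h | h
  · exact h1 y T a s y1 h t1 t2 hw
  · exact h2 y T a s h y2 t1 t2 hw

variable {lo hi : ℤ} {l h : ℕ} {a c p r : ℤ} {b d q s : ℕ}

theorem PM_of (e1 : (l : ℤ) = 10 * lo) (e2 : (h : ℤ) = 10 * hi)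
    (hr : RM l h ((a : ℝ) / b) ((c : ℝ) / d) ((p : ℝ) / q) ((r : ℝ) / s))
    (o1 : okQ lo hi fa = true) (f1 : affQ lo 120 fa = ((a : ℚ) / b, (c : ℚ) / d))
    (o2 : okQ lo hi fb = true) (f2 : affQ lo 2600 fb = ((p : ℚ) / q, (r : ℚ) / s)) : PM lo hi := by
  intro y T u v y1 y2 t1 t2 hw
  have e1' : (l : ℝ) = 10 * lo := by exact_mod_cast e1
  have e2' : (h : ℝ) = 10 * hi := by exact_mod_cast e2
  rw [pl_of y1 y2 o1 f1, pl_of y1 y2 o2 f2]
  exact hr y T u v (by rw [e1']; linarith only [y1]) (by rw [e2']; linarith only [y2]) t1 t2 hw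

theorem PU_of (e1 : (l : ℤ) = 10 * lo) (e2 : (h : ℤ) = 10 * hi)
    (hr : RU l h ((a : ℝ) / b) ((c : ℝ) / d) ((p : ℝ) / q) ((r : ℝ) / s))
    (o1 : okQ lo hi fu = true) (f1 : affQ lo 120 fu = ((a : ℚ) / b, (c : ℚ) / d))
    (o2 : okQ lo hi fv = true) (f2 : affQ lo 2600 fv = ((p : ℚ) / q, (r : ℚ) / s)) : PU lo hi := by
  intro y T u v y1 y2 t1 t2 hw
  have e1' : (l : ℝ) = 10 * lo := by exact_mod_cast e1
  have e2' : (h : ℝ) = 10 * hi := by exact_mod_cast e2
  rw [pl_of y1 y2 o1 f1, pl_of y1 y2 o2 f2]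
  exact hr y T u v (by rw [e1']; linarith only [y1]) (by rw [e2']; linarith only [y2]) t1 t2 hw

theorem PD_of (e1 : (l : ℤ) = 10 * lo) (e2 : (h : ℤ) = 10 * hi)
    (hr : RD l h ((a : ℝ) / b) ((c : ℝ) / d) (((12 : ℤ) : ℝ) / ((5 : ℕ) : ℝ))
      (((0 : ℤ) : ℝ) / ((1 : ℕ) : ℝ)))
    (o1 : okQ lo hi fd = true) (f1 : affQ lo 120 fd = ((a : ℚ) / b, (c : ℚ) / d)) : PD lo hi := by
  intro y T u v y1 y2 t1 t2 hw
  have e1' : (l : ℝ) = 10 * lo := by exact_mod_cast e1
  have e2' : (h : ℝ) = 10 * hi := by exact_mod_cast e2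
  rw [pl_of y1 y2 o1 f1]
  have h3 := hr y T u v (by rw [e1']; linarith only [y1]) (by rw [e2']; linarith only [y2]) t1 t2 hw
  push_cast at h3
  linarith only [h3]

theorem pm0 : PM 0 2 :=
  PM_of (by norm_num) (by norm_num) (zm.append m0) (by decide +kernel) (by decide +kernel)
    (by decide +kernel) (by decide +kernel)

theorem pm2 : PM 2 5 :=
  PM_of (by norm_num) (by norm_num) m2 (by decide +kernel) (by decide +kernel)
    (by decide +kernel) (by decide +kernel)

theorem pm5 : PM 5 10 :=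
  PM_of (by norm_num) (by norm_num) m5 (by decide +kernel) (by decide +kernel)
    (by decide +kernel) (by decide +kernel)

theorem pm10 : PM 10 15 :=
  PM_of (by norm_num) (by norm_num) m10 (by decide +kernel) (by decide +kernel)
    (by decide +kernel) (by decide +kernel)

theorem pm15 : PM 15 20 :=
  PM_of (by norm_num) (by norm_num) m15 (by decide +kernel) (by decide +kernel)
    (by decide +kernel) (by decide +kernel)

theorem pm20 : PM 20 30 :=
  PM_of (by norm_num) (by norm_num) m20 (by decide +kernel) (by decide +kernel)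
    (by decide +kernel) (by decide +kernel)

theorem pm30 : PM 30 40 :=
  PM_of (by norm_num) (by norm_num) m30 (by decide +kernel) (by decide +kernel)
    (by decide +kernel) (by decide +kernel)

theorem pm40 : PM 40 50 :=
  PM_of (by norm_num) (by norm_num) m40 (by decide +kernel) (by decide +kernel)
    (by decide +kernel) (by decide +kernel)

theorem pm50 : PM 50 60 :=
  PM_of (by norm_num) (by norm_num) m50 (by decide +kernel) (by decide +kernel)
    (by decide +kernel) (by decide +kernel)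

theorem pm60 : PM 60 80 :=
  PM_of (by norm_num) (by norm_num) m60 (by decide +kernel) (by decide +kernel)
    (by decide +kernel) (by decide +kernel)

theorem pm80 : PM 80 100 :=
  PM_of (by norm_num) (by norm_num) m80 (by decide +kernel) (by decide +kernel)
    (by decide +kernel) (by decide +kernel)

theorem pm100 : PM 100 125 :=
  PM_of (by norm_num) (by norm_num) m100 (by decide +kernel) (by decide +kernel)
    (by decide +kernel) (by decide +kernel)

theorem pm125 : PM 125 150 :=
  PM_of (by norm_num) (by norm_num) m125 (by decide +kernel) (by decide +kernel)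
    (by decide +kernel) (by decide +kernel)

theorem pm150 : PM 150 175 :=
  PM_of (by norm_num) (by norm_num) m150 (by decide +kernel) (by decide +kernel)
    (by decide +kernel) (by decide +kernel)

theorem pm175 : PM 175 200 :=
  PM_of (by norm_num) (by norm_num) m175 (by decide +kernel) (by decide +kernel)
    (by decide +kernel) (by decide +kernel)

theorem pm200 : PM 200 225 :=
  PM_of (by norm_num) (by norm_num) m200 (by decide +kernel) (by decide +kernel)
    (by decide +kernel) (by decide +kernel)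

theorem pm225 : PM 225 250 :=
  PM_of (by norm_num) (by norm_num) m225 (by decide +kernel) (by decide +kernel)
    (by decide +kernel) (by decide +kernel)

theorem pm250 : PM 250 275 :=
  PM_of (by norm_num) (by norm_num) m250 (by decide +kernel) (by decide +kernel)
    (by decide +kernel) (by decide +kernel)

theorem pm350 : PM 350 375 :=
  PM_of (by norm_num) (by norm_num) m350 (by decide +kernel) (by decide +kernel)
    (by decide +kernel) (by decide +kernel)

theorem pm375 : PM 375 400 :=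
  PM_of (by norm_num) (by norm_num) m375 (by decide +kernel) (by decide +kernel)
    (by decide +kernel) (by decide +kernel)

theorem pm400 : PM 400 450 :=
  PM_of (by norm_num) (by norm_num) m400 (by decide +kernel) (by decide +kernel)
    (by decide +kernel) (by decide +kernel)

theorem pm450 : PM 450 500 :=
  PM_of (by norm_num) (by norm_num) m450 (by decide +kernel) (by decide +kernel)
    (by decide +kernel) (by decide +kernel)

theorem pm500 : PM 500 550 :=
  PM_of (by norm_num) (by norm_num) m500 (by decide +kernel) (by decide +kernel)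
    (by decide +kernel) (by decide +kernel)

theorem pm550 : PM 550 600 :=
  PM_of (by norm_num) (by norm_num) m550 (by decide +kernel) (by decide +kernel)
    (by decide +kernel) (by decide +kernel)

theorem pm600 : PM 600 650 :=
  PM_of (by norm_num) (by norm_num) m600 (by decide +kernel) (by decide +kernel)
    (by decide +kernel) (by decide +kernel)

theorem pm650 : PM 650 700 :=
  PM_of (by norm_num) (by norm_num) m650 (by decide +kernel) (by decide +kernel)
    (by decide +kernel) (by decide +kernel)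

theorem pm700 : PM 700 750 :=
  PM_of (by norm_num) (by norm_num) m700 (by decide +kernel) (by decide +kernel)
    (by decide +kernel) (by decide +kernel)

theorem pm750 : PM 750 775 :=
  PM_of (by norm_num) (by norm_num) m750 (by decide +kernel) (by decide +kernel)
    (by decide +kernel) (by decide +kernel)

theorem pm775 : PM 775 800 :=
  PM_of (by norm_num) (by norm_num) m775 (by decide +kernel) (by decide +kernel)
    (by decide +kernel) (by decide +kernel)

theorem pu0 : PU 0 5 :=
  PU_of (by norm_num) (by norm_num) (zu.append u0) (by decide +kernel) (by decide +kernel)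
    (by decide +kernel) (by decide +kernel)

theorem pu5 : PU 5 10 :=
  PU_of (by norm_num) (by norm_num) u5 (by decide +kernel) (by decide +kernel)
    (by decide +kernel) (by decide +kernel)

theorem pu10 : PU 10 20 :=
  PU_of (by norm_num) (by norm_num) u10 (by decide +kernel) (by decide +kernel)
    (by decide +kernel) (by decide +kernel)

theorem pu20 : PU 20 30 :=
  PU_of (by norm_num) (by norm_num) u20 (by decide +kernel) (by decide +kernel)
    (by decide +kernel) (by decide +kernel)

theorem pu30 : PU 30 50 :=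
  PU_of (by norm_num) (by norm_num) u30 (by decide +kernel) (by decide +kernel)
    (by decide +kernel) (by decide +kernel)

theorem pu50 : PU 50 100 :=
  PU_of (by norm_num) (by norm_num) u50 (by decide +kernel) (by decide +kernel)
    (by decide +kernel) (by decide +kernel)

theorem pu100 : PU 100 150 :=
  PU_of (by norm_num) (by norm_num) u100 (by decide +kernel) (by decide +kernel)
    (by decide +kernel) (by decide +kernel)

theorem pu150 : PU 150 200 :=
  PU_of (by norm_num) (by norm_num) u150 (by decide +kernel) (by decide +kernel)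
    (by decide +kernel) (by decide +kernel)

theorem pu200 : PU 200 300 :=
  PU_of (by norm_num) (by norm_num) u200 (by decide +kernel) (by decide +kernel)
    (by decide +kernel) (by decide +kernel)

theorem pu300 : PU 300 500 :=
  PU_of (by norm_num) (by norm_num) u300 (by decide +kernel) (by decide +kernel)
    (by decide +kernel) (by decide +kernel)

theorem pu500 : PU 500 600 :=
  PU_of (by norm_num) (by norm_num) u500 (by decide +kernel) (by decide +kernel)
    (by decide +kernel) (by decide +kernel)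

theorem pu600 : PU 600 750 :=
  PU_of (by norm_num) (by norm_num) u600 (by decide +kernel) (by decide +kernel)
    (by decide +kernel) (by decide +kernel)

theorem pu750 : PU 750 760 :=
  PU_of (by norm_num) (by norm_num) u750 (by decide +kernel) (by decide +kernel)
    (by decide +kernel) (by decide +kernel)

theorem pu760 : PU 760 770 :=
  PU_of (by norm_num) (by norm_num) u760 (by decide +kernel) (by decide +kernel)
    (by decide +kernel) (by decide +kernel)

theorem pu770 : PU 770 780 :=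
  PU_of (by norm_num) (by norm_num) u770 (by decide +kernel) (by decide +kernel)
    (by decide +kernel) (by decide +kernel)

theorem pu780 : PU 780 790 :=
  PU_of (by norm_num) (by norm_num) u780 (by decide +kernel) (by decide +kernel)
    (by decide +kernel) (by decide +kernel)

theorem pu790 : PU 790 800 :=
  PU_of (by norm_num) (by norm_num) u790 (by decide +kernel) (by decide +kernel)
    (by decide +kernel) (by decide +kernel)

theorem pd0 : PD 0 2 :=
  PD_of (by norm_num) (by norm_num) (zd.append d0) (by decide +kernel) (by decide +kernel)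

theorem pd2 : PD 2 5 :=
  PD_of (by norm_num) (by norm_num) d2 (by decide +kernel) (by decide +kernel)

theorem pd5 : PD 5 10 :=
  PD_of (by norm_num) (by norm_num) d5 (by decide +kernel) (by decide +kernel)

theorem pd10 : PD 10 20 :=
  PD_of (by norm_num) (by norm_num) d10 (by decide +kernel) (by decide +kernel)

theorem pd20 : PD 20 50 :=
  PD_of (by norm_num) (by norm_num) d20 (by decide +kernel) (by decide +kernel)

theorem pd50 : PD 50 100 :=
  PD_of (by norm_num) (by norm_num) d50 (by decide +kernel) (by decide +kernel)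

theorem pd100 : PD 100 150 :=
  PD_of (by norm_num) (by norm_num) d100 (by decide +kernel) (by decide +kernel)

theorem pd150 : PD 150 200 :=
  PD_of (by norm_num) (by norm_num) d150 (by decide +kernel) (by decide +kernel)

theorem pd200 : PD 200 250 :=
  PD_of (by norm_num) (by norm_num) d200 (by decide +kernel) (by decide +kernel)

theorem pd250 : PD 250 500 :=
  PD_of (by norm_num) (by norm_num) d250 (by decide +kernel) (by decide +kernel)

theorem pd500 : PD 500 600 :=
  PD_of (by norm_num) (by norm_num) d500 (by decide +kernel) (by decide +kernel)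

theorem pd600 : PD 600 650 :=
  PD_of (by norm_num) (by norm_num) d600 (by decide +kernel) (by decide +kernel)

theorem pd650 : PD 650 750 :=
  PD_of (by norm_num) (by norm_num) d650 (by decide +kernel) (by decide +kernel)

theorem pd750 : PD 750 760 :=
  PD_of (by norm_num) (by norm_num) d750 (by decide +kernel) (by decide +kernel)

theorem pd760 : PD 760 780 :=
  PD_of (by norm_num) (by norm_num) d760 (by decide +kernel) (by decide +kernel)

theorem pd780 : PD 780 800 :=
  PD_of (by norm_num) (by norm_num) d780 (by decide +kernel) (by decide +kernel)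

/-! ### slope rows -/

/-- the statement at a point with the height `T` -/
def AtP (y : ℝ) : Prop := ∀ T a s : ℝ, -(123 / 1000) ≤ T → T ≤ 5 / 1000 → Wd a s →
  plR y 120 fa - T * plR y 2600 fb ≤ dv T y T a s

theorem stepL {α γ : ℚ} (e1 : (l : ℤ) = 10 * lo) (e2 : (h : ℤ) = 10 * hi)
    (hr : SL l h ((a : ℝ) / b) ((c : ℝ) / d))
    (o1 : okQ lo hi fa = true) (f1 : affQ lo 120 fa = (α, (a : ℚ) / b))
    (o2 : okQ lo hi fb = true) (f2 : affQ lo 2600 fb = (γ, -((c : ℚ) / d)))
    (hb : AtP ((hi : ℝ) / 1000)) {y : ℝ} (y1 : (lo : ℝ) / 1000 ≤ y) (y2 : y ≤ (hi : ℝ) / 1000) :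
    AtP y := by
  intro T u v t1 t2 hw
  have e1' : (l : ℝ) = 10 * lo := by exact_mod_cast e1
  have e2' : (h : ℝ) = 10 * hi := by exact_mod_cast e2
  have h1 := hb T u v t1 t2 hw
  have h2 := hr y ((hi : ℝ) / 1000) T u v (by rw [e1']; linarith only [y1]) y2 (by rw [e2']; linarith only [])
    t1 t2 hw
  rw [plR_aff (y1.trans y2) le_rfl fa o1, plR_aff (y1.trans y2) le_rfl fb o2, f1, f2] at h1
  rw [plR_aff y1 y2 fa o1, plR_aff y1 y2 fb o2, f1, f2]
  unfold dv at h1 ⊢
  push_cast at h1 ⊢
  linarith only [h2, h1]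

theorem stepR {α γ : ℚ} (e1 : (l : ℤ) = 10 * lo) (e2 : (h : ℤ) = 10 * hi)
    (hr : SR l h ((a : ℝ) / b) ((c : ℝ) / d))
    (o1 : okQ lo hi fa = true) (f1 : affQ lo 120 fa = (α, -((a : ℚ) / b)))
    (o2 : okQ lo hi fb = true) (f2 : affQ lo 2600 fb = (γ, (c : ℚ) / d))
    (hb : AtP ((lo : ℝ) / 1000)) {y : ℝ} (y1 : (lo : ℝ) / 1000 ≤ y) (y2 : y ≤ (hi : ℝ) / 1000) :
    AtP y := by
  intro T u v t1 t2 hw
  have e1' : (l : ℝ) = 10 * lo := by exact_mod_cast e1
  have e2' : (h : ℝ) = 10 * hi := by exact_mod_cast e2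
  have h1 := hb T u v t1 t2 hw
  have h2 := hr ((lo : ℝ) / 1000) y T u v (by rw [e1']; linarith only []) y1 (by rw [e2']; linarith only [y2])
    t1 t2 hw
  rw [plR_aff le_rfl (y1.trans y2) fa o1, plR_aff le_rfl (y1.trans y2) fb o2, f1, f2] at h1
  rw [plR_aff y1 y2 fa o1, plR_aff y1 y2 fb o2, f1, f2]
  unfold dv at h1 ⊢
  push_cast at h1 ⊢
  linarith only [h2, h1]

theorem atP_300 : AtP (((300 : ℤ) : ℝ) / 1000) := by
  intro T a s t1 t2 hw
  have h1 : plR (((300 : ℤ) : ℝ) / 1000) 120 fa = 0 := by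
    rw [plR_aff (lo := 288) (hi := 300) (by norm_num) le_rfl fa (by decide +kernel),
      show affQ 288 120 fa = (-(33 / 50), 11 / 5) by decide +kernel]
    push_cast
    norm_num
  have h2 : plR (((300 : ℤ) : ℝ) / 1000) 2600 fb = 0 := by
    rw [plR_aff (lo := 288) (hi := 300) (by norm_num) le_rfl fb (by decide +kernel),
      show affQ 288 2600 fb = (27 / 10, -(9 / 1)) by decide +kernel]
    push_cast
    norm_num
  rw [h1, h2]
  unfold dv
  push_cast
  norm_num

theorem PM_atP (h1 : 50 ≤ lo) (h2 : hi ≤ 750)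
    (h : ∀ y : ℝ, (lo : ℝ) / 1000 ≤ y → y ≤ (hi : ℝ) / 1000 → AtP y) : PM lo hi := by
  intro y T a s y1 y2 t1 t2 hw
  have e1 : (50 : ℝ) ≤ lo := by exact_mod_cast h1
  have e2 : (hi : ℝ) ≤ 750 := by exact_mod_cast h2
  have e : rr y = 1 := by
    rw [rr_val (by linarith only [y1, e1]) (by linarith only [y2, e2])]
    split_ifs with h3 h4
    · linarith only [y1, e1, h3]
    · rfl
    · exact absurd (by linarith only [y2, e2, h4]) h4
  rw [e, mul_one]
  exact h y y1 y2 T a s t1 t2 hw

theorem at288 {y : ℝ} (y1 : ((288 : ℤ) : ℝ) / 1000 ≤ y) (y2 : y ≤ ((300 : ℤ) : ℝ) / 1000) :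
    AtP y :=
  stepL (α := -(33 / 50)) (γ := 27 / 10) (by norm_num) (by norm_num) L288 (by decide +kernel)
    (by decide +kernel) (by decide +kernel) (by decide +kernel) atP_300 y1 y2

theorem pm288 : PM 288 300 := PM_atP (by norm_num) (by norm_num) fun _ y1 y2 => at288 y1 y2

theorem at275 {y : ℝ} (y1 : ((275 : ℤ) : ℝ) / 1000 ≤ y) (y2 : y ≤ ((288 : ℤ) : ℝ) / 1000) :
    AtP y :=
  stepL (α := -(1893 / 3250)) (γ := 2979 / 1250) (by norm_num) (by norm_num) L275 (by decide +kernel)
    (by decide +kernel) (by decide +kernel) (by decide +kernel) (at288 le_rfl (by norm_num)) y1 y2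

theorem pm275 : PM 275 288 := PM_atP (by norm_num) (by norm_num) fun _ y1 y2 => at275 y1 y2

theorem at300 {y : ℝ} (y1 : ((300 : ℤ) : ℝ) / 1000 ≤ y) (y2 : y ≤ ((312 : ℤ) : ℝ) / 1000) :
    AtP y :=
  stepR (α := 3 / 25) (γ := 33 / 200) (by norm_num) (by norm_num) R300 (by decide +kernel)
    (by decide +kernel) (by decide +kernel) (by decide +kernel) atP_300 y1 y2

theorem pm300 : PM 300 312 := PM_atP (by norm_num) (by norm_num) fun _ y1 y2 => at300 y1 y2

theorem at312 {y : ℝ} (y1 : ((312 : ℤ) : ℝ) / 1000 ≤ y) (y2 : y ≤ ((325 : ℤ) : ℝ) / 1000) :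
    AtP y :=
  stepR (α := 129 / 1250) (γ := 903 / 5000) (by norm_num) (by norm_num) R312 (by decide +kernel)
    (by decide +kernel) (by decide +kernel) (by decide +kernel) (at300 (by norm_num) le_rfl) y1 y2

theorem pm312 : PM 312 325 := PM_atP (by norm_num) (by norm_num) fun _ y1 y2 => at312 y1 y2

theorem at325 {y : ℝ} (y1 : ((325 : ℤ) : ℝ) / 1000 ≤ y) (y2 : y ≤ ((350 : ℤ) : ℝ) / 1000) :
    AtP y :=
  stepR (α := 107 / 1250) (γ := 981 / 5000) (by norm_num) (by norm_num) R325 (by decide +kernel)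
    (by decide +kernel) (by decide +kernel) (by decide +kernel) (at312 (by norm_num) le_rfl) y1 y2

theorem pm325 : PM 325 350 := PM_atP (by norm_num) (by norm_num) fun _ y1 y2 => at325 y1 y2

/-! ### result -/

theorem pM : PM 0 800 :=
  (((((((((((((((((((((((((((((((((pm0).append pm2).append pm5).append pm10).append pm15).append
    pm20).append pm30).append pm40).append pm50).append pm60).append pm80).append pm100).append
    pm125).append pm150).append pm175).append pm200).append pm225).append pm250).append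
    pm275).append pm288).append pm300).append pm312).append pm325).append pm350).append
    pm375).append pm400).append pm450).append pm500).append pm550).append pm600).append
    pm650).append pm700).append pm750).append pm775

theorem pU : PU 0 800 :=
  ((((((((((((((((pu0).append pu5).append pu10).append pu20).append pu30).append pu50).append
    pu100).append pu150).append pu200).append pu300).append pu500).append pu600).append
    pu750).append pu760).append pu770).append pu780).append pu790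

theorem pD : PD 0 800 :=
  (((((((((((((((pd0).append pd2).append pd5).append pd10).append pd20).append pd50).append
    pd100).append pd150).append pd200).append pd250).append pd500).append pd600).append
    pd650).append pd750).append pd760).append pd780

/-- main -/
theorem far_main {w : ℂ} {T y : ℝ} (w0 : 0 ≤ w.re) (w1 : w.re ≤ 65 / 100)
    (w2 : |w.im| ≤ 16 / 100 * MP_b30479_gtS.G2.tr 0 (65 / 100) (13 / 100) (29 / 100) w.re)
    (t1 : -(123 / 1000) ≤ T) (t2 : T ≤ 5 / 1000) (y0 : 0 ≤ y) (y1 : y ≤ 8 / 10) :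
    plR y 120 fa - T * plR y 2600 fb ≤ MP_b30479_gtS.G2.V2 ⟨3 / 10, T⟩ w -
      MP_b30479_gtS.G2.V2 ⟨y, T * MP_b30479_gtS.G2.tr 0 (8 / 10) (5 / 100) (5 / 100) y⟩ w :=
  pM y T w.re w.im (by push_cast; linarith only [y0]) (by push_cast; linarith only [y1]) t1 t2 ⟨w0, w1, w2⟩

/-- mode up -/
theorem far_up {w : ℂ} {T y : ℝ} (w0 : 0 ≤ w.re) (w1 : w.re ≤ 65 / 100)
    (w2 : |w.im| ≤ 16 / 100 * MP_b30479_gtS.G2.tr 0 (65 / 100) (13 / 100) (29 / 100) w.re)
    (t1 : -(123 / 1000) ≤ T) (t2 : T ≤ 0) (y0 : 0 ≤ y) (y1 : y ≤ 8 / 10) :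
    plR y 120 fu - T * plR y 2600 fv ≤ MP_b30479_gtS.G2.V2 ⟨3 / 10, T⟩ w -
      MP_b30479_gtS.G2.V2 ⟨y, 16 / 100 * MP_b30479_gtS.G2.tr 0 (8 / 10) (5 / 100) (5 / 100) y⟩ w +
      2 * Real.pi * (16 / 100 * MP_b30479_gtS.G2.tr 0 (8 / 10) (5 / 100) (5 / 100) y) :=
  pU y T w.re w.im (by push_cast; linarith only [y0]) (by push_cast; linarith only [y1]) t1 t2 ⟨w0, w1, w2⟩

/-- mode down -/
theorem far_down {w : ℂ} {T y : ℝ} (w0 : 0 ≤ w.re) (w1 : w.re ≤ 65 / 100)
    (w2 : |w.im| ≤ 16 / 100 * MP_b30479_gtS.G2.tr 0 (65 / 100) (13 / 100) (29 / 100) w.re)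
    (t1 : 0 ≤ T) (t2 : T ≤ 5 / 1000) (y0 : 0 ≤ y) (y1 : y ≤ 8 / 10) :
    plR y 120 fd - T * (24 / 10) ≤ MP_b30479_gtS.G2.V2 ⟨3 / 10, T⟩ w -
      MP_b30479_gtS.G2.V2 ⟨y, -(16 / 100 * MP_b30479_gtS.G2.tr 0 (8 / 10) (5 / 100) (5 / 100) y)⟩ w +
      2 * Real.pi * (16 / 100 * MP_b30479_gtS.G2.tr 0 (8 / 10) (5 / 100) (5 / 100) y) :=
  pD y T w.re w.im (by push_cast; linarith only [y0]) (by push_cast; linarith only [y1]) t1 t2 ⟨w0, w1, w2⟩

end Pool.Agent.Work.NumGs.F3

end
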