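import Pool.Agent.Work.MP_b30479_gt.TBS.G2.WMR1
import Pool.Agent.Work.MP_b30479_gt.TBS.NumU.Tree

/-!
# Mirrored paths: rows, kind `E3` (generated)
-/

set_option linter.unusedVariables false
set_option linter.unusedSimpArgs false
set_option linter.unusedTactic false
set_option linter.unreachableTactic false

set_option deprecated.oldSectionVars true

namespace Pool.Agent.Work.MP_b30479_gtS.G2

open VOL NumUs

namespace KR

namespace RE3

/-- the part of `Pm.ok` for the second piece, from its certificate -/
theorem okB_c {p : Pm} {c : ℕ} (h : chkT (p.main p.W1 :: p.exl) 60 c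
    (p.box (max p.smin 50) (min p.smax 9950)) = true) : p.okB c = true := by
  unfold Pm.okB
  rw [h, Bool.or_true]

def k0 : Cell :=
  ⟨0, 50, 760, 980, 15, 1, 1, 0, 16, 13, -296, 0, 1407, 4817, 0, 0, 0⟩
theorem k0B : (k0.S DL).Side := Pm.side
  (ca := 0x881)
  (cb := 0x88383828288828838838838833b8833883d33222222)
  (cc := 0)
  (cd := 0)
  (ce := 0) (by decide +kernel)
theorem k0l : k0.LB := Cell.lb_of0 (c := 0x880) (by decide +kernel) rfl (by decide) rfl (by
  intro x h0 h1
  simp only [Cell.a, k0]
  push_cast
  constructor <;> linarith only [h0, h1])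
theorem k0m : k0.MB := Cell.mb_of (c := 0x880) (by decide +kernel)
theorem r0 {x T y β : ℝ} (hx0 : ((0 : ℤ) : ℝ) / 10000 ≤ x) (hx1 : x ≤ ((50 : ℤ) : ℝ) / 10000)
    (ht0 : ((760 : ℤ) : ℝ) / 10000 ≤ T) (ht1 : T ≤ ((980 : ℤ) : ℝ) / 10000) (h0 : 0 ≤ y)
    (h1 : y ≤ 80 / 100) (hd : DL.In y β) :
    One (60 / 100) (13 / 100) (30 / 100) T x y β := by
  have ht : tr 0 (60 / 100) (13 / 100) (30 / 100) x = x / (13 / 100) :=
    tr_a (by norm_num) (by norm_num) (by norm_num) (by push_cast at hx0; linarith only [hx0]) (by push_cast at hx1; linarith only [hx1])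
  refine One.of k0 (by simp only [k0]; norm_num) (by simp only [k0]; norm_num)
    (by simp only [k0, Cell.e]; push_cast; rw [tr_b (by norm_num) (by norm_num) (by norm_num) (by norm_num)]; ring) (by simp only [k0, Cell.a]; push_cast; rw [ht]; ring) ?_
  exact Cell.one k0l k0m k0B hx0 hx1 ht0 ht1 h0 h1 hd

def k1 : Cell :=
  ⟨50, 200, 760, 980, 15, 1, 1, 0, 16, 13, -119, -32434, 1407, 4817, 0, 0, 0⟩
theorem k1B : (k1.S DL).Side := Pm.side
  (ca := 0)
  (cb := 0x8808382838822880288838838838838833b88803388383d33222222)
  (cc := 0)
  (cd := 0)
  (ce := 0) (by decide +kernel)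
theorem k1l : k1.LB := Cell.lb_of (c := 0x8880088088000) (by decide +kernel)
theorem k1m : k1.MB := Cell.mb_of (c := 0x880) (by decide +kernel)
theorem r1 {x T y β : ℝ} (hx0 : ((50 : ℤ) : ℝ) / 10000 ≤ x) (hx1 : x ≤ ((200 : ℤ) : ℝ) / 10000)
    (ht0 : ((760 : ℤ) : ℝ) / 10000 ≤ T) (ht1 : T ≤ ((980 : ℤ) : ℝ) / 10000) (h0 : 0 ≤ y)
    (h1 : y ≤ 80 / 100) (hd : DL.In y β) :
    One (60 / 100) (13 / 100) (30 / 100) T x y β := by
  have ht : tr 0 (60 / 100) (13 / 100) (30 / 100) x = x / (13 / 100) :=
    tr_a (by norm_num) (by norm_num) (by norm_num) (by push_cast at hx0; linarith only [hx0]) (by push_cast at hx1; linarith only [hx1])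
  refine One.of k1 (by simp only [k1]; norm_num) (by simp only [k1]; norm_num)
    (by simp only [k1, Cell.e]; push_cast; rw [tr_b (by norm_num) (by norm_num) (by norm_num) (by norm_num)]; ring) (by simp only [k1, Cell.a]; push_cast; rw [ht]; ring) ?_
  exact Cell.one k1l k1m k1B hx0 hx1 ht0 ht1 h0 h1 hd

def k2 : Cell :=
  ⟨200, 500, 760, 980, 15, 1, 1, 0, 16, 13, -343, -21718, 1407, 4817, 0, 0, 0⟩
theorem k2B : (k2.S DL).Side := Pm.side
  (ca := 0)
  (cb := 0xcc8328c0833880832880388083288328822882883883883882880332222)
  (cc := 0)
  (cd := 0)
  (ce := 0) (by decide +kernel)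
theorem k2l : k2.LB := Cell.lb_of (c := 0x88800880800) (by decide +kernel)
theorem k2m : k2.MB := Cell.mb_of (c := 0x880) (by decide +kernel)
theorem r2 {x T y β : ℝ} (hx0 : ((200 : ℤ) : ℝ) / 10000 ≤ x) (hx1 : x ≤ ((500 : ℤ) : ℝ) / 10000)
    (ht0 : ((760 : ℤ) : ℝ) / 10000 ≤ T) (ht1 : T ≤ ((980 : ℤ) : ℝ) / 10000) (h0 : 0 ≤ y)
    (h1 : y ≤ 80 / 100) (hd : DL.In y β) :
    One (60 / 100) (13 / 100) (30 / 100) T x y β := by
  have ht : tr 0 (60 / 100) (13 / 100) (30 / 100) x = x / (13 / 100) :=
    tr_a (by norm_num) (by norm_num) (by norm_num) (by push_cast at hx0; linarith only [hx0]) (by push_cast at hx1; linarith only [hx1])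
  refine One.of k2 (by simp only [k2]; norm_num) (by simp only [k2]; norm_num)
    (by simp only [k2, Cell.e]; push_cast; rw [tr_b (by norm_num) (by norm_num) (by norm_num) (by norm_num)]; ring) (by simp only [k2, Cell.a]; push_cast; rw [ht]; ring) ?_
  exact Cell.one k2l k2m k2B hx0 hx1 ht0 ht1 h0 h1 hd

def k3 : Cell :=
  ⟨500, 1000, 760, 980, 15, 1, 1, 0, 16, 13, -756, -13699, 1407, 4817, 0, 0, 0⟩
theorem k3B : (k3.S DL).Side := Pm.side
  (ca := 0)
  (cb := 0xccccc83c02332c8c083c02c8c0388023880338833acc83383a020cc8c0328802c8283c088c003823cc8c0c0320883c8c038832088033883328808803828808338803288383288328828838808833222)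
  (cc := 0)
  (cd := 0)
  (ce := 0) (by decide +kernel)
theorem k3l : k3.LB := Cell.lb_of (c := 0x88800880800) (by decide +kernel)
theorem k3m : k3.MB := Cell.mb_of (c := 0x880) (by decide +kernel)
theorem r3 {x T y β : ℝ} (hx0 : ((500 : ℤ) : ℝ) / 10000 ≤ x) (hx1 : x ≤ ((1000 : ℤ) : ℝ) / 10000)
    (ht0 : ((760 : ℤ) : ℝ) / 10000 ≤ T) (ht1 : T ≤ ((980 : ℤ) : ℝ) / 10000) (h0 : 0 ≤ y)
    (h1 : y ≤ 80 / 100) (hd : DL.In y β) :
    One (60 / 100) (13 / 100) (30 / 100) T x y β := by
  have ht : tr 0 (60 / 100) (13 / 100) (30 / 100) x = x / (13 / 100) :=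
    tr_a (by norm_num) (by norm_num) (by norm_num) (by push_cast at hx0; linarith only [hx0]) (by push_cast at hx1; linarith only [hx1])
  refine One.of k3 (by simp only [k3]; norm_num) (by simp only [k3]; norm_num)
    (by simp only [k3, Cell.e]; push_cast; rw [tr_b (by norm_num) (by norm_num) (by norm_num) (by norm_num)]; ring) (by simp only [k3, Cell.a]; push_cast; rw [ht]; ring) ?_
  exact Cell.one k3l k3m k3B hx0 hx1 ht0 ht1 h0 h1 hd

def k4 : Cell :=
  ⟨1000, 1300, 760, 980, 15, 1, 1, 0, 16, 13, -1209, -8824, 1407, 4817, 0, 0, 0⟩
theorem k4B : (k4.S DL).Side := Pm.side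
  (ca := 0)
  (cb := 0xccccc832c0323c0c883c02c83823c08c82033ccc8c033c028c0c08c08328c8c02820388312c0c8c0382cc8c03208c820188c00818338832cc82c08c820880132038c82c08283083328833880c8c028c820388018208880083388028833832883832883288880322)
  (cc := 0)
  (cd := 0)
  (ce := 0) (by decide +kernel)
theorem k4l : k4.LB := Cell.lb_of (c := 0x8808800) (by decide +kernel)
theorem k4m : k4.MB := Cell.mb_of (c := 0x880) (by decide +kernel)
theorem r4 {x T y β : ℝ} (hx0 : ((1000 : ℤ) : ℝ) / 10000 ≤ x) (hx1 : x ≤ ((1300 : ℤ) : ℝ) / 10000)
    (ht0 : ((760 : ℤ) : ℝ) / 10000 ≤ T) (ht1 : T ≤ ((980 : ℤ) : ℝ) / 10000) (h0 : 0 ≤ y)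
    (h1 : y ≤ 80 / 100) (hd : DL.In y β) :
    One (60 / 100) (13 / 100) (30 / 100) T x y β := by
  have ht : tr 0 (60 / 100) (13 / 100) (30 / 100) x = x / (13 / 100) :=
    tr_a (by norm_num) (by norm_num) (by norm_num) (by push_cast at hx0; linarith only [hx0]) (by push_cast at hx1; linarith only [hx1])
  refine One.of k4 (by simp only [k4]; norm_num) (by simp only [k4]; norm_num)
    (by simp only [k4, Cell.e]; push_cast; rw [tr_b (by norm_num) (by norm_num) (by norm_num) (by norm_num)]; ring) (by simp only [k4, Cell.a]; push_cast; rw [ht]; ring) ?_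
  exact Cell.one k4l k4m k4B hx0 hx1 ht0 ht1 h0 h1 hd

def k5 : Cell :=
  ⟨1300, 1500, 760, 980, 15, 1, 1, 16, 0, 100, -2737, 3005, 1407, 4817, 0, 0, 0⟩
theorem k5B : (k5.S DL).Side := Pm.side
  (ca := 0)
  (cb := 0xccccc8c032c0323ccc8c03c023c0c8c03c08c08328801c08c8208183c8c083c02032c8c038c08328c0831c088c8208c08281838330812881c8c02082332c8c08381c028c0c08238808328823388c82088083838338281082882383832883388328822888222)
  (cc := 0)
  (cd := 0)
  (ce := 0) (by decide +kernel)
theorem k5l : k5.LB := Cell.lb_of (c := 0x8) (by decide +kernel)
theorem k5m : k5.MB := Cell.mb_of (c := 0x880) (by decide +kernel)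
theorem r5 {x T y β : ℝ} (hx0 : ((1300 : ℤ) : ℝ) / 10000 ≤ x) (hx1 : x ≤ ((1500 : ℤ) : ℝ) / 10000)
    (ht0 : ((760 : ℤ) : ℝ) / 10000 ≤ T) (ht1 : T ≤ ((980 : ℤ) : ℝ) / 10000) (h0 : 0 ≤ y)
    (h1 : y ≤ 80 / 100) (hd : DL.In y β) :
    One (60 / 100) (13 / 100) (30 / 100) T x y β := by
  have ht : tr 0 (60 / 100) (13 / 100) (30 / 100) x = 1 :=
    tr_b (by norm_num) (by norm_num) (by push_cast at hx0; linarith only [hx0]) (by push_cast at hx1; linarith only [hx1])
  refine One.of k5 (by simp only [k5]; norm_num) (by simp only [k5]; norm_num)
    (by simp only [k5, Cell.e]; push_cast; rw [tr_b (by norm_num) (by norm_num) (by norm_num) (by norm_num)]; ring) (by simp only [k5, Cell.a]; push_cast; rw [ht]; ring) ?_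
  exact Cell.one k5l k5m k5B hx0 hx1 ht0 ht1 h0 h1 hd

def k6 : Cell :=
  ⟨1500, 2000, 760, 980, 15, 1, 1, 16, 0, 100, -2880, 3916, 1407, 4817, 0, 0, 0⟩
theorem k6Bb_q1 : Pool.Agent.Work.NumUs.runT ((k6.S DL).main (k6.S DL).W1 :: (k6.S DL).exl) 59
    129533222129656923186669162702265282415721498983438485546377105224163855747445658325444279845285941093088870984294726532964144628521778510461578510229103955582110861061966903825901541221709490661754685274553280247307543997158534895331447726680448173078982690954840638650870203275992816516146197191077547636930627799614187074457886336908570923888745187220835347649147876659922344914348024668614358166101622925541919153725158930803212551074675067560393063349574529515765115419473265888818931743971019907264368360504398627240933917169126578376277622494940194205936006896429607745260601124344448385073838206272536542958992343449596293514489406713302465641758033601058335226939916964281660415162189204811131774925958522330839567381705860773529060709200235641610475079127091409283822225688306956679579409737566160189085203335202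
    (Pool.Agent.Work.NumIs.setL 2 (((k6.S DL).box (max (k6.S DL).smin 50) (min (k6.S DL).smax 9950)))) =
    123532507066399501024884379102959902206155299170912251993538956855930190799184473348087577672277394383515234932226873906101364735147264967404917249898055987913237439214674857927228490087232103978876767420342712638194602963598761458713004805260132000998480502085533751154775813365929428592821309271886394154482486533750712465722929322155543254746194064350924823426387669238970131792400383633245809713460562634984892991757544451525890875887560908851998389577459840312733760280106798065966541046114940554870956764702223422280248562974096849800374624724331087308822638412885291810284234165520141968797529417297874968489639609765621465219964415276815858499296220398958525874080578769952450194513501362620479369092901727991904799825387821935204563817215190545664286688925830277713606095970446545295314225900236282528958515 := by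
  decide +kernel

theorem k6Bb_q2 : Pool.Agent.Work.NumUs.runT ((k6.S DL).main (k6.S DL).W1 :: (k6.S DL).exl) 58
    7720781691649968814055273693934993887884706198182015749596184803495636924949029584255473604517337148969702183264179619131335295946704060462807328118628499244577339950917178620451780630452006498679797963771419539887162685224922591169562800328758250062405031380345859447173488335370589287051331829492899634655155408359419529107683082634721453421637129021932801464149229327435633237025023977077863107091285164686555811984846528220368179742972556803249899348591240019545860017506674879122908815382183784679434797793888963892515535185881053112523414045270692956801414900805330738142764635345008873049845588581117185530602475610351341576247775954800991156206013774934907867130036173122028137157093835163779960568306357999494049989086738870950285238575949409104017918057864392357100380998152909080957139118764767658059907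
    (Pool.Agent.Work.NumIs.setL 2 (Pool.Agent.Work.NumIs.setR 2 (((k6.S DL).box (max (k6.S DL).smin 50) (min (k6.S DL).smax 9950))))) =
    1884956467687980667493963304183348117159352099165531188866256055540926983630134175843621485477865514885181197085981352326986156236988296011427570341462035948383139636454389311633735505481446899091747549748881723605264327447490866984756543049013244644141853364342250841595089925627585275159016559934789949866981300868998908473555440096367542339266877202620312857458307941268465145758062494403775172629708292159803665035362921928800825132561659375793432458152158207896938480836590546660866410005415963056502636180148672825321175582490491482549661632146165272656595434766926449741885897301027556896934958149686812873682245022058433002013617176465085731495608831771217740998543987578620150673118612100532216935621669433470227048116879607165596982074206398707035624525845798915307710204627175068593051542667179604019 := by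
  decide +kernel

theorem k6Bb_q3 : Pool.Agent.Work.NumUs.runT ((k6.S DL).main (k6.S DL).W1 :: (k6.S DL).exl) 57
    117809779230498791718372706511459257322459506197845699304141003471307936476883385990226342842366594680323824817873834520436634764811768500714223146341377246773946227278399331977108469092590431193234221859305107725329020465468179186547283940563327790258865835271390677599693120351724079697438534995924371866686331304312431779597215006022971396204179825163769553591144246329279071609878905900235948289356768259987729064710182620550051570785103710987089528634509887993558655052286909166304150625338497691031414761259292051582573473905655717659353852009135329541037214672932903108867868581314222306058434884355425804605140313878652062625851073529067858218475551985701108812408999223663759417069913256283263558476354339591889190507304975447849811379637899919189726532865362432206731887789198441787065721416698725251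
    (Pool.Agent.Work.NumIs.setL 2 (Pool.Agent.Work.NumIs.setR 2 (Pool.Agent.Work.NumIs.setR 2 (((k6.S DL).box (max (k6.S DL).smin 50) (min (k6.S DL).smax 9950)))))) =
    438875627631317048215764412699115489879472204289755595118332667169376971113992430233308459976191053838744106955356279464202503728910418229975637593647007818423011255556342497382717091935092326973506144655142380764070974534258913943720176594567774944971747082737798532842446566938326059644812848403768136600726586968870579375316258542325241104528977815671896761622817241882082341648187137768551514630603672042443339022659445630572928379420577403109854193905405282950247284219737757616878116970280176740256751929444417549604823715633361479861117348108944779414822215858596947449698554654844933398285638110173589753378705359543308848983984714482232400098724484390397030161354687898098526213578556687695024752901324404745881224078331051200068784429274126586279744404797861100013300358463817990523076509747 := by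
  decide +kernel

theorem k6Bb_q4 : Pool.Agent.Work.NumUs.runT ((k6.S DL).main (k6.S DL).W1 :: (k6.S DL).exl) 56
    27429726726957315513485275793694718117467012768109724694895791698086060694624526889581778748511940864921506684709767466512656483056901139373477349602937988651438203472271406086419818245943270435844134040946398797754435908391182121482511037160485934060734192671112408302652910433645378727800803025235508537545411685554411210957266158895327569033061113479493547601426077617630146353011696110534469664412729502652708688916215351910808023713786087694365887119087830184390455263733609851054882310642511046266046995590276096850301482227085092491319834256809048713426388491162309215606159665927808337392852381885849359586169084971456803061499044655139525006170280274399814385084667993631157888348659792980939047056332775296617576504895690700004299026829632911642484025299866318750831272403988624407692281859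
    (Pool.Agent.Work.NumIs.setL 2 (Pool.Agent.Work.NumIs.setR 2 (Pool.Agent.Work.NumIs.setR 2 (Pool.Agent.Work.NumIs.setR 2 (((k6.S DL).box (max (k6.S DL).smin 50) (min (k6.S DL).smax 9950))))))) =
    90553840687696782772609926594698140992600978262308062762772760703630890788943773349705911496014774017146883579170156495220192070490141546760220890403549202583181829552474546644358059434887395831464753652636883855174051960636658687226658138375515679323781389902533634614631436504740500928974544690714693601279868258543681563196169378727815578874168425392026527513662244009664269299319501816185160794990479431979659188684489523 := by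
  decide +kernel

theorem k6Bb_q5 : Pool.Agent.Work.NumUs.runT ((k6.S DL).main (k6.S DL).W1 :: (k6.S DL).exl) 56
    90553840687696782772609926594698140992600978262308062762772760703630890788943773349705911496014774017146883579170156495220192070490141546760220890403549202583181829552474546644358059434887395831464753652636883855174051960636658687226658138375515679323781389902533634614631436504740500928974544690714693601279868258543681563196169378727815578874168425392026527513662244009664269299319501816185160794990479431979659188684489522
    (Pool.Agent.Work.NumIs.setR 2 (Pool.Agent.Work.NumIs.setR 2 (Pool.Agent.Work.NumIs.setR 2 (Pool.Agent.Work.NumIs.setR 2 (((k6.S DL).box (max (k6.S DL).smin 50) (min (k6.S DL).smax 9950))))))) =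
    1 := by
  decide +kernel

theorem k6Bb : chkT ((k6.S DL).main (k6.S DL).W1 :: (k6.S DL).exl) 60 0xcc8c038338e33a0ccc83c088332c03c08c08383c088c003388332ccc8c0c023c02cc8c023c08c083c08c8c0208801328c0c08c083213c0c83c08c08328c08318c820838183833cc8c0c02308c82c08c083832c828310883328c820831ccc8c023c02088c8200818383cc823c0c828383c8c03028c0c0883210328c820828183cc83c028c8208183208881c08c08381382033cccc83c02c82c0c82838133c02308c8c0382cc8c03208c82030880338833288c083c088328183cc8c023088c8208108328c08281838383831820888c08283810838281083833ccc8c023c02c8c03c08c0838383c8c03028c08213c088c00818383cc8c0230888c0008183838383281881833ccc823c02c8c03c08c8c03028c8201302088c82082818803cc8c03c028c820818813208c82c088c008381382030388883c8c028c82038c08310828182088330832888083083388032882838328832888222 ((k6.S DL).box (max (k6.S DL).smin 50) (min (k6.S DL).smax 9950)) = true :=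
      Pool.Agent.Work.NumUs.chkT_of (Pool.Agent.Work.NumUs.runT_split rfl rfl rfl
        k6Bb_q1
        (Pool.Agent.Work.NumUs.runT_split rfl rfl rfl
          k6Bb_q2
          (Pool.Agent.Work.NumUs.runT_split rfl rfl rfl
            k6Bb_q3
            (Pool.Agent.Work.NumUs.runT_split rfl rfl rfl
              k6Bb_q4
              k6Bb_q5))))
theorem k6Bc : (k6.S DL).okC 0xcc8338e33a0 = true := by
  decide +kernel
theorem k6Bd : (k6.S DL).okD 0 = true := by
  decide +kernel
theorem k6B : (k6.S DL).Side := Pm.side_of
  (by decide +kernel : (k6.S DL).okA 0 = true) (okB_c k6Bb) k6Bc k6Bd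
  (by decide +kernel : (k6.S DL).okE 0 = true) (Pm.Y_le (by decide +kernel))
theorem k6l : k6.LB := Cell.lb_of (c := 0x8808800) (by decide +kernel)
theorem k6m : k6.MB := Cell.mb_of (c := 0x880) (by decide +kernel)
theorem r6 {x T y β : ℝ} (hx0 : ((1500 : ℤ) : ℝ) / 10000 ≤ x) (hx1 : x ≤ ((2000 : ℤ) : ℝ) / 10000)
    (ht0 : ((760 : ℤ) : ℝ) / 10000 ≤ T) (ht1 : T ≤ ((980 : ℤ) : ℝ) / 10000) (h0 : 0 ≤ y)
    (h1 : y ≤ 80 / 100) (hd : DL.In y β) :
    One (60 / 100) (13 / 100) (30 / 100) T x y β := by
  have ht : tr 0 (60 / 100) (13 / 100) (30 / 100) x = 1 :=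
    tr_b (by norm_num) (by norm_num) (by push_cast at hx0; linarith only [hx0]) (by push_cast at hx1; linarith only [hx1])
  refine One.of k6 (by simp only [k6]; norm_num) (by simp only [k6]; norm_num)
    (by simp only [k6, Cell.e]; push_cast; rw [tr_b (by norm_num) (by norm_num) (by norm_num) (by norm_num)]; ring) (by simp only [k6, Cell.a]; push_cast; rw [ht]; ring) ?_
  exact Cell.one k6l k6m k6B hx0 hx1 ht0 ht1 h0 h1 hd

def k7 : Cell :=
  ⟨2000, 2500, 760, 980, 15, 1, 1, 16, 0, 100, -3119, 5115, 1407, 4817, 0, 0, 0⟩
theorem k7Bb_q1 : Pool.Agent.Work.NumUs.runT ((k7.S DL).main (k7.S DL).W1 :: (k7.S DL).exl) 59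
    5509171594417323576258052779930775826572406996415218459284044290233477162598833919822165576556706873162006597353284640867225179266234006631900416228119386088198695798936597954679819015009180319053130959073246082871759762956050873631904697618095071446508611473905974885768662395088810058144781653954338366505156914828076346617187286690951842342675011067370935735620402745393779337920930784031463102305389565747823283708335235303030775775132961974658243433913768393912649762
    (Pool.Agent.Work.NumIs.setL 2 (((k7.S DL).box (max (k7.S DL).smin 50) (min (k7.S DL).smax 9950)))) =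
    5253955454270671440370610027247215105602652546324938258441967287286259806250413818189778877789217827951437566140446320407128505007013327247524658420676599586676307486473653750114268317231350249341135939667936404105911028820086358673004815691084929892071353410631155858772909541214761789459973958925569883828312792614055964104831015292121736853289614741679130302067187066453723276062899383574927427583112302539656909664473758032828117156155549978883975442804115671075 := by
  decide +kernel

theorem k7Bb_q2 : Pool.Agent.Work.NumUs.runT ((k7.S DL).main (k7.S DL).W1 :: (k7.S DL).exl) 58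
    328372215891916965023163126702950944100165784145308641152622955455391237890650863636861179861826114246964847883777895025445531562938332952970291151292287474167269217904603359382141769826959390583820996229246025256619439301255397417062800980692808118254459588164447241173306846325922611841248372432848117739269549538378497756551938455757608553330600921354945643879199191653357704753931211473432964223944518908728556854029609877051757322259721873680248465175257229442
    (Pool.Agent.Work.NumIs.setL 2 (Pool.Agent.Work.NumIs.setR 2 (((k7.S DL).box (max (k7.S DL).smin 50) (min (k7.S DL).smax 9950))))) =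
    80168998020487540288858185230212632836954537144850742468902088734226376438147183505093061489703641173575402315375462652696662979232991443596262488108468621622868461402491054536655705524160007466753172907530767884916855298158056010025097895676955106995717672891710752239576866778789700156554778425988309994938854867768187928845688099550197400715478740565172276337695115149745533387190237176131094781236454811701307825690822723889589190004814910566466910443178035 := by
  decide +kernel

theorem k7Bb_q3 : Pool.Agent.Work.NumUs.runT ((k7.S DL).main (k7.S DL).W1 :: (k7.S DL).exl) 57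
    5010562376280471268053636576888289552309658571553171404306380545889148527384198969068316343106477573348462644710966415793541436202061965224766405506779288851429278837655690908540981595260000466672073306720672992807303456134878500626568618479809694187232354555731922014973554173674356259784673651624269374683678429235511745552855506221887337544717421285323267271105944696859095836699389823508193423827278425731331739105676420243099324375300931910404181902698627
    (Pool.Agent.Work.NumIs.setL 2 (Pool.Agent.Work.NumIs.setR 2 (Pool.Agent.Work.NumIs.setR 2 (((k7.S DL).box (max (k7.S DL).smin 50) (min (k7.S DL).smax 9950)))))) =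
    1223281830146599430677157367404367566481850237195598487379487437961217902193407951432694419703729876305777012868888285105845077197769034478702735719428537317243476278724533913218013084780273551433611647148601804884595570345429321442033354121047288619929774061457988773186902874432215883736492590728581390303632429012576109754115113823702963267753276680987125798609849779506615194506686968629930035114081646907063412867596782285912920990063704079688520972339 := by
  decide +kernel

theorem k7Bb_q4 : Pool.Agent.Work.NumUs.runT ((k7.S DL).main (k7.S DL).W1 :: (k7.S DL).exl) 56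
    76455114384162464417322335462772972905115639824724905461217964872576118887087996964543401231483117269111063304305517819115317324860564654918920982464283582327717267420283369576125817798767096964600727946787612805287223146589332590127084632565455538745610878841124298324181429652013492733530786920536336893977026813286006859632194613981435204234579792561695362413115611219163449656667935539370627194630102931691463304224798892869557561878981504980532560771
    (Pool.Agent.Work.NumIs.setL 2 (Pool.Agent.Work.NumIs.setR 2 (Pool.Agent.Work.NumIs.setR 2 (Pool.Agent.Work.NumIs.setR 2 (((k7.S DL).box (max (k7.S DL).smin 50) (min (k7.S DL).smax 9950))))))) =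
    284817495883116366033711789037186551485641449036914503057367968829632248308837402479884778080445219833817568809932164174002846050488072093274149978400333159892697883472902214438191867615159962194415658514155495186475005546917515211280750604590235422349016662095205107048829755380799966802935253532738748542878876675985779090345630846848469988385512652105448254991753441166741585942610858154932510832809295250816134006622429538032254434671184066611 := by
  decide +kernel

theorem k7Bb_q5 : Pool.Agent.Work.NumUs.runT ((k7.S DL).main (k7.S DL).W1 :: (k7.S DL).exl) 55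
    17801093492694772877106986814824159467852590564807156441085498051852015519302337654992798630027826239613598050620760260875177878155504505829634373650020822493293617717056388402386991725947497637150978657134718449154687846682344700705046912786889713896813541380950319190551859711299997925183453345796171783929929792249111193146601927928029374274094540756590515936984590072921349121413178634683281927050580953176008375413901846127015902166949004163
    (Pool.Agent.Work.NumIs.setL 2 (Pool.Agent.Work.NumIs.setR 2 (Pool.Agent.Work.NumIs.setR 2 (Pool.Agent.Work.NumIs.setR 2 (Pool.Agent.Work.NumIs.setR 2 (((k7.S DL).box (max (k7.S DL).smin 50) (min (k7.S DL).smax 9950)))))))) =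
    4945942038911147954140287368007765172562583117485710743748036232351427693371227436855335325686128676382678346491469824384523964861931943330989883075414859363959193102027667780285768971757008018624097823650283529146770793188577384558989607068389154682060660902989630281350397464945460 := by
  decide +kernel

theorem k7Bb_q6 : Pool.Agent.Work.NumUs.runT ((k7.S DL).main (k7.S DL).W1 :: (k7.S DL).exl) 55
    4945942038911147954140287368007765172562583117485710743748036232351427693371227436855335325686128676382678346491469824384523964861931943330989883075414859363959193102027667780285768971757008018624097823650283529146770793188577384558989607068389154682060660902989630281350397464945459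
    (Pool.Agent.Work.NumIs.setR 2 (Pool.Agent.Work.NumIs.setR 2 (Pool.Agent.Work.NumIs.setR 2 (Pool.Agent.Work.NumIs.setR 2 (Pool.Agent.Work.NumIs.setR 2 (((k7.S DL).box (max (k7.S DL).smin 50) (min (k7.S DL).smax 9950)))))))) =
    1 := by
  decide +kernel

theorem k7Bb : chkT ((k7.S DL).main (k7.S DL).W1 :: (k7.S DL).exl) 60 0x883c82c082cc82c0208c883832038c820831883832088c8208183838183820818383833cc8802c088081838381838328c082838183833cc8c0832c088c0081833208c820880312c0c8c0832c088c82008183832cc881c0832c02030888c008281880383c8c82081832088c820083303883388882333888c82082081838281838383c8c0832c08c820818338c820818383832cc8c0832c08c88320813208c883201888c0c0828281008183832088c82c082082810833083838328838383288328822888222 ((k7.S DL).box (max (k7.S DL).smin 50) (min (k7.S DL).smax 9950)) = true :=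
      Pool.Agent.Work.NumUs.chkT_of (Pool.Agent.Work.NumUs.runT_split rfl rfl rfl
        k7Bb_q1
        (Pool.Agent.Work.NumUs.runT_split rfl rfl rfl
          k7Bb_q2
          (Pool.Agent.Work.NumUs.runT_split rfl rfl rfl
            k7Bb_q3
            (Pool.Agent.Work.NumUs.runT_split rfl rfl rfl
              k7Bb_q4
              (Pool.Agent.Work.NumUs.runT_split rfl rfl rfl
                k7Bb_q5
                k7Bb_q6)))))
theorem k7Bc : (k7.S DL).okC 0x8c0828383cc828383cc8283208128c082308c0828383831ccc8c03c08c08338122c008c8283cc8c083220c828310388c00831c088083c82c0c8283381c003c088c083081838383c8c03c00388c0083833888333 = true := by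
  decide +kernel
theorem k7Bd : (k7.S DL).okD 0xcc82c08338e33a0ccc8c023c0c82c08c0833883132c0c8283c8c0c02088c008333c08c8802c0083388e823332 = true := by
  decide +kernel
theorem k7B : (k7.S DL).Side := Pm.side_of
  (by decide +kernel : (k7.S DL).okA 0 = true) (okB_c k7Bb) k7Bc k7Bd
  (by decide +kernel : (k7.S DL).okE 0xffefe823233 = true) (Pm.Y_le (by decide +kernel))
theorem k7l : k7.LB := Cell.lb_of (c := 0x8808800) (by decide +kernel)
theorem k7m : k7.MB := Cell.mb_of (c := 0x880) (by decide +kernel)
theorem r7 {x T y β : ℝ} (hx0 : ((2000 : ℤ) : ℝ) / 10000 ≤ x) (hx1 : x ≤ ((2500 : ℤ) : ℝ) / 10000)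
    (ht0 : ((760 : ℤ) : ℝ) / 10000 ≤ T) (ht1 : T ≤ ((980 : ℤ) : ℝ) / 10000) (h0 : 0 ≤ y)
    (h1 : y ≤ 80 / 100) (hd : DL.In y β) :
    One (60 / 100) (13 / 100) (30 / 100) T x y β := by
  have ht : tr 0 (60 / 100) (13 / 100) (30 / 100) x = 1 :=
    tr_b (by norm_num) (by norm_num) (by push_cast at hx0; linarith only [hx0]) (by push_cast at hx1; linarith only [hx1])
  refine One.of k7 (by simp only [k7]; norm_num) (by simp only [k7]; norm_num)
    (by simp only [k7, Cell.e]; push_cast; rw [tr_b (by norm_num) (by norm_num) (by norm_num) (by norm_num)]; ring) (by simp only [k7, Cell.a]; push_cast; rw [ht]; ring) ?_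
  exact Cell.one k7l k7m k7B hx0 hx1 ht0 ht1 h0 h1 hd

def k8 : Cell :=
  ⟨2500, 3000, 760, 980, 15, 1, 1, 16, 0, 100, -3371, 6127, 1407, 4817, 0, 0, 0⟩
theorem k8B : (k8.S DL).Side := Pm.side
  (ca := 0)
  (cb := 0x8808388882333883832883288328802888222)
  (cc := 0x8808383838833)
  (cd := 0xccc82c0832c088c0088038332c08c82c088183832083cc8c03c08c08332c008883c8c02088c008330388c820828188083383cc823c08c8c08320880818383833812088c082810833083228c08283c8c0832088382238e82088228e08888232233)
  (ce := 0xffffffe8822333333) (by decide +kernel)
theorem k8l : k8.LB := Cell.lb_of (c := 0x88800) (by decide +kernel)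
theorem k8m : k8.MB := Cell.mb_of (c := 0x880) (by decide +kernel)
theorem r8 {x T y β : ℝ} (hx0 : ((2500 : ℤ) : ℝ) / 10000 ≤ x) (hx1 : x ≤ ((3000 : ℤ) : ℝ) / 10000)
    (ht0 : ((760 : ℤ) : ℝ) / 10000 ≤ T) (ht1 : T ≤ ((980 : ℤ) : ℝ) / 10000) (h0 : 0 ≤ y)
    (h1 : y ≤ 80 / 100) (hd : DL.In y β) :
    One (60 / 100) (13 / 100) (30 / 100) T x y β := by
  have ht : tr 0 (60 / 100) (13 / 100) (30 / 100) x = 1 :=
    tr_b (by norm_num) (by norm_num) (by push_cast at hx0; linarith only [hx0]) (by push_cast at hx1; linarith only [hx1])
  refine One.of k8 (by simp only [k8]; norm_num) (by simp only [k8]; norm_num)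
    (by simp only [k8, Cell.e]; push_cast; rw [tr_b (by norm_num) (by norm_num) (by norm_num) (by norm_num)]; ring) (by simp only [k8, Cell.a]; push_cast; rw [ht]; ring) ?_
  exact Cell.one k8l k8m k8B hx0 hx1 ht0 ht1 h0 h1 hd

def k9 : Cell :=
  ⟨3000, 3500, 760, 980, 15, 1, 1, 96, -160, 300, -3952, 8083, 1407, 4817, 0, 0, 0⟩
theorem k9B : (k9.S DL).Side := Pm.side
  (ca := 0)
  (cb := 0x88888233388328832883282888022)
  (cc := 0x8888333)
  (cd := 0xcc8c023c0c8283c0883288800833cc8c0283c0208c82880303288c82820830838382288083cc83208808328822388e008288228e082888880322233)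
  (ce := 0xfffe8288880222333) (by decide +kernel)
theorem k9l : k9.LB := Cell.lb_of (c := 0x880) (by decide +kernel)
theorem k9m : k9.MB := Cell.mb_of (c := 0x880) (by decide +kernel)
theorem r9 {x T y β : ℝ} (hx0 : ((3000 : ℤ) : ℝ) / 10000 ≤ x) (hx1 : x ≤ ((3500 : ℤ) : ℝ) / 10000)
    (ht0 : ((760 : ℤ) : ℝ) / 10000 ≤ T) (ht1 : T ≤ ((980 : ℤ) : ℝ) / 10000) (h0 : 0 ≤ y)
    (h1 : y ≤ 80 / 100) (hd : DL.In y β) :
    One (60 / 100) (13 / 100) (30 / 100) T x y β := by
  have ht : tr 0 (60 / 100) (13 / 100) (30 / 100) x = (60 / 100 - x) / (30 / 100) :=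
    tr_c (by norm_num) (by norm_num) (by norm_num) (by push_cast at hx0; linarith only [hx0]) (by push_cast at hx1; linarith only [hx1])
  refine One.of k9 (by simp only [k9]; norm_num) (by simp only [k9]; norm_num)
    (by simp only [k9, Cell.e]; push_cast; rw [tr_b (by norm_num) (by norm_num) (by norm_num) (by norm_num)]; ring) (by simp only [k9, Cell.a]; push_cast; rw [ht]; ring) ?_
  exact Cell.one k9l k9m k9B hx0 hx1 ht0 ht1 h0 h1 hd

def k10 : Cell :=
  ⟨3500, 4000, 760, 980, 15, 1, 1, 96, -160, 300, -3831, 7737, 1407, 4817, 0, 0, 0⟩
theorem k10B : (k10.S DL).Side := Pm.side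
  (ca := 0)
  (cb := 0x88883823388328832883282888022)
  (cc := 0x8888333)
  (cd := 0xcc8c0832c0832880833cc8833208c8283830828383c8c0832c08c8283083832088800383288083882228e820828888883232223)
  (ce := 0xff8e082888883222233) (by decide +kernel)
theorem k10l : k10.LB := Cell.lb_of (c := 0x880) (by decide +kernel)
theorem k10m : k10.MB := Cell.mb_of (c := 0x880) (by decide +kernel)
theorem r10 {x T y β : ℝ} (hx0 : ((3500 : ℤ) : ℝ) / 10000 ≤ x) (hx1 : x ≤ ((4000 : ℤ) : ℝ) / 10000)
    (ht0 : ((760 : ℤ) : ℝ) / 10000 ≤ T) (ht1 : T ≤ ((980 : ℤ) : ℝ) / 10000) (h0 : 0 ≤ y)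
    (h1 : y ≤ 80 / 100) (hd : DL.In y β) :
    One (60 / 100) (13 / 100) (30 / 100) T x y β := by
  have ht : tr 0 (60 / 100) (13 / 100) (30 / 100) x = (60 / 100 - x) / (30 / 100) :=
    tr_c (by norm_num) (by norm_num) (by norm_num) (by push_cast at hx0; linarith only [hx0]) (by push_cast at hx1; linarith only [hx1])
  refine One.of k10 (by simp only [k10]; norm_num) (by simp only [k10]; norm_num)
    (by simp only [k10, Cell.e]; push_cast; rw [tr_b (by norm_num) (by norm_num) (by norm_num) (by norm_num)]; ring) (by simp only [k10, Cell.a]; push_cast; rw [ht]; ring) ?_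
  exact Cell.one k10l k10m k10B hx0 hx1 ht0 ht1 h0 h1 hd

def k11 : Cell :=
  ⟨4000, 4500, 760, 980, 15, 1, 1, 96, -160, 300, -3722, 7464, 1407, 4817, 0, 0, 0⟩
theorem k11B : (k11.S DL).Side := Pm.side
  (ca := 0)
  (cb := 0x888388338832388328832883282888222)
  (cc := 0x888388033)
  (cd := 0xc8c038803cc8c03208c0c088083283c088c0038803288c8208208803838328838822288e0082828888088803880f3322223)
  (ce := 0xf88e008282888f8f0388083322223) (by decide +kernel)
theorem k11l : k11.LB := Cell.lb_of (c := 0x880) (by decide +kernel)
theorem k11m : k11.MB := Cell.mb_of (c := 0x880) (by decide +kernel)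
theorem r11 {x T y β : ℝ} (hx0 : ((4000 : ℤ) : ℝ) / 10000 ≤ x) (hx1 : x ≤ ((4500 : ℤ) : ℝ) / 10000)
    (ht0 : ((760 : ℤ) : ℝ) / 10000 ≤ T) (ht1 : T ≤ ((980 : ℤ) : ℝ) / 10000) (h0 : 0 ≤ y)
    (h1 : y ≤ 80 / 100) (hd : DL.In y β) :
    One (60 / 100) (13 / 100) (30 / 100) T x y β := by
  have ht : tr 0 (60 / 100) (13 / 100) (30 / 100) x = (60 / 100 - x) / (30 / 100) :=
    tr_c (by norm_num) (by norm_num) (by norm_num) (by push_cast at hx0; linarith only [hx0]) (by push_cast at hx1; linarith only [hx1])
  refine One.of k11 (by simp only [k11]; norm_num) (by simp only [k11]; norm_num)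
    (by simp only [k11, Cell.e]; push_cast; rw [tr_b (by norm_num) (by norm_num) (by norm_num) (by norm_num)]; ring) (by simp only [k11, Cell.a]; push_cast; rw [ht]; ring) ?_
  exact Cell.one k11l k11m k11B hx0 hx1 ht0 ht1 h0 h1 hd

def k12 : Cell :=
  ⟨4500, 5000, 760, 980, 15, 1, 1, 96, -160, 300, -3605, 7205, 1407, 4817, 0, 0, 0⟩
theorem k12B : (k12.S DL).Side := Pm.side
  (ca := 0)
  (cb := 0x88838833883238832883288328802888222)
  (cc := 0x888388033)
  (cd := 0xc8c038803cc8c03208c820838383c883c020880383288082838383288088880222288e0082828888838838f33222223)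
  (ce := 0xf88e008282888883f838833222223) (by decide +kernel)
theorem k12l : k12.LB := Cell.lb_of (c := 0x8) (by decide +kernel)
theorem k12m : k12.MB := Cell.mb_of (c := 0x880) (by decide +kernel)
theorem r12 {x T y β : ℝ} (hx0 : ((4500 : ℤ) : ℝ) / 10000 ≤ x) (hx1 : x ≤ ((5000 : ℤ) : ℝ) / 10000)
    (ht0 : ((760 : ℤ) : ℝ) / 10000 ≤ T) (ht1 : T ≤ ((980 : ℤ) : ℝ) / 10000) (h0 : 0 ≤ y)
    (h1 : y ≤ 80 / 100) (hd : DL.In y β) :
    One (60 / 100) (13 / 100) (30 / 100) T x y β := by
  have ht : tr 0 (60 / 100) (13 / 100) (30 / 100) x = (60 / 100 - x) / (30 / 100) :=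
    tr_c (by norm_num) (by norm_num) (by norm_num) (by push_cast at hx0; linarith only [hx0]) (by push_cast at hx1; linarith only [hx1])
  refine One.of k12 (by simp only [k12]; norm_num) (by simp only [k12]; norm_num)
    (by simp only [k12, Cell.e]; push_cast; rw [tr_b (by norm_num) (by norm_num) (by norm_num) (by norm_num)]; ring) (by simp only [k12, Cell.a]; push_cast; rw [ht]; ring) ?_
  exact Cell.one k12l k12m k12B hx0 hx1 ht0 ht1 h0 h1 hd

def k13 : Cell :=
  ⟨5000, 5500, 760, 980, 15, 1, 1, 96, -160, 300, -3466, 6926, 1407, 4817, 0, 0, 0⟩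
theorem k13B : (k13.S DL).Side := Pm.side
  (ca := 0)
  (cb := 0x8838808803833883832883288328832888222)
  (cc := 0x883883833)
  (cd := 0xcc83832880383ac880383208c8208803838383288383832883883883838838f33883883f3322222)
  (ce := 0xf8e8208282888888328322223) (by decide +kernel)
theorem k13l : k13.LB := Cell.lb_of (c := 0x8) (by decide +kernel)
theorem k13m : k13.MB := Cell.mb_of (c := 0x880) (by decide +kernel)
theorem r13 {x T y β : ℝ} (hx0 : ((5000 : ℤ) : ℝ) / 10000 ≤ x) (hx1 : x ≤ ((5500 : ℤ) : ℝ) / 10000)
    (ht0 : ((760 : ℤ) : ℝ) / 10000 ≤ T) (ht1 : T ≤ ((980 : ℤ) : ℝ) / 10000) (h0 : 0 ≤ y)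
    (h1 : y ≤ 80 / 100) (hd : DL.In y β) :
    One (60 / 100) (13 / 100) (30 / 100) T x y β := by
  have ht : tr 0 (60 / 100) (13 / 100) (30 / 100) x = (60 / 100 - x) / (30 / 100) :=
    tr_c (by norm_num) (by norm_num) (by norm_num) (by push_cast at hx0; linarith only [hx0]) (by push_cast at hx1; linarith only [hx1])
  refine One.of k13 (by simp only [k13]; norm_num) (by simp only [k13]; norm_num)
    (by simp only [k13, Cell.e]; push_cast; rw [tr_b (by norm_num) (by norm_num) (by norm_num) (by norm_num)]; ring) (by simp only [k13, Cell.a]; push_cast; rw [ht]; ring) ?_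
  exact Cell.one k13l k13m k13B hx0 hx1 ht0 ht1 h0 h1 hd

def k14 : Cell :=
  ⟨5500, 5750, 760, 980, 15, 1, 1, 96, -160, 300, -3336, 6691, 1407, 4817, 0, 0, 0⟩
theorem k14B : (k14.S DL).Side := Pm.side
  (ca := 0)
  (cb := 0x88833883833883832883288328832888222)
  (cc := 0x88833880833)
  (cd := 0xc8c08328803883832838838328838838828388383888338f3f3322222)
  (ce := 0xf882888882838322223) (by decide +kernel)
theorem k14l : k14.LB := Cell.lb_of (c := 0x8) (by decide +kernel)
theorem k14m : k14.MB := Cell.mb_of (c := 0x880) (by decide +kernel)
theorem r14 {x T y β : ℝ} (hx0 : ((5500 : ℤ) : ℝ) / 10000 ≤ x) (hx1 : x ≤ ((5750 : ℤ) : ℝ) / 10000)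
    (ht0 : ((760 : ℤ) : ℝ) / 10000 ≤ T) (ht1 : T ≤ ((980 : ℤ) : ℝ) / 10000) (h0 : 0 ≤ y)
    (h1 : y ≤ 80 / 100) (hd : DL.In y β) :
    One (60 / 100) (13 / 100) (30 / 100) T x y β := by
  have ht : tr 0 (60 / 100) (13 / 100) (30 / 100) x = (60 / 100 - x) / (30 / 100) :=
    tr_c (by norm_num) (by norm_num) (by norm_num) (by push_cast at hx0; linarith only [hx0]) (by push_cast at hx1; linarith only [hx1])
  refine One.of k14 (by simp only [k14]; norm_num) (by simp only [k14]; norm_num)
    (by simp only [k14, Cell.e]; push_cast; rw [tr_b (by norm_num) (by norm_num) (by norm_num) (by norm_num)]; ring) (by simp only [k14, Cell.a]; push_cast; rw [ht]; ring) ?_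
  exact Cell.one k14l k14m k14B hx0 hx1 ht0 ht1 h0 h1 hd

def k15 : Cell :=
  ⟨5750, 6000, 760, 980, 15, 1, 1, 96, -160, 300, -3237, 6519, 1407, 4817, 0, 0, 0⟩
theorem k15B : (k15.S DL).Side := Pm.side
  (ca := 0)
  (cb := 0x888338838338838328828328832883288288222)
  (cc := 0x88833880833)
  (cd := 0xc8c08328803880832838808328838838828388383888338f3f3322222)
  (ce := 0x8f08382828883883883ff83388383322222) (by decide +kernel)
theorem k15l : k15.LB := Cell.lb_of (c := 0x8) (by decide +kernel)
theorem k15m : k15.MB := Cell.mb_of (c := 0x880) (by decide +kernel)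
theorem r15 {x T y β : ℝ} (hx0 : ((5750 : ℤ) : ℝ) / 10000 ≤ x) (hx1 : x ≤ ((6000 : ℤ) : ℝ) / 10000)
    (ht0 : ((760 : ℤ) : ℝ) / 10000 ≤ T) (ht1 : T ≤ ((980 : ℤ) : ℝ) / 10000) (h0 : 0 ≤ y)
    (h1 : y ≤ 80 / 100) (hd : DL.In y β) :
    One (60 / 100) (13 / 100) (30 / 100) T x y β := by
  have ht : tr 0 (60 / 100) (13 / 100) (30 / 100) x = (60 / 100 - x) / (30 / 100) :=
    tr_c (by norm_num) (by norm_num) (by norm_num) (by push_cast at hx0; linarith only [hx0]) (by push_cast at hx1; linarith only [hx1])
  refine One.of k15 (by simp only [k15]; norm_num) (by simp only [k15]; norm_num)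
    (by simp only [k15, Cell.e]; push_cast; rw [tr_b (by norm_num) (by norm_num) (by norm_num) (by norm_num)]; ring) (by simp only [k15, Cell.a]; push_cast; rw [ht]; ring) ?_
  exact Cell.one k15l k15m k15B hx0 hx1 ht0 ht1 h0 h1 hd

theorem rows {x T y β : ℝ} (hx0 : 0 ≤ x) (hx1 : x ≤ 60 / 100) (ht0 : 760 / 10000 ≤ T) (ht1 : T ≤ 980 / 10000)
    (h0 : 0 ≤ y) (h1 : y ≤ 8 / 10) (hd : DL.In y β) : One (60 / 100) (13 / 100) (30 / 100) T x y β := by
  have t0 : ((760 : ℤ) : ℝ) / 10000 ≤ T := by push_cast; linarith only [ht0]
  have t1 : T ≤ ((980 : ℤ) : ℝ) / 10000 := by push_cast; linarith only [ht1]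
  have g0 : ((0 : ℤ) : ℝ) / 10000 ≤ x := by push_cast; linarith only [hx0]
  rcases le_total x (((50 : ℤ) : ℝ) / 10000) with c0 | g1
  · exact r0 g0 c0 t0 t1 h0 (by linarith only [h1]) hd
  rcases le_total x (((200 : ℤ) : ℝ) / 10000) with c1 | g2
  · exact r1 g1 c1 t0 t1 h0 (by linarith only [h1]) hd
  rcases le_total x (((500 : ℤ) : ℝ) / 10000) with c2 | g3
  · exact r2 g2 c2 t0 t1 h0 (by linarith only [h1]) hd
  rcases le_total x (((1000 : ℤ) : ℝ) / 10000) with c3 | g4
  · exact r3 g3 c3 t0 t1 h0 (by linarith only [h1]) hd
  rcases le_total x (((1300 : ℤ) : ℝ) / 10000) with c4 | g5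
  · exact r4 g4 c4 t0 t1 h0 (by linarith only [h1]) hd
  rcases le_total x (((1500 : ℤ) : ℝ) / 10000) with c5 | g6
  · exact r5 g5 c5 t0 t1 h0 (by linarith only [h1]) hd
  rcases le_total x (((2000 : ℤ) : ℝ) / 10000) with c6 | g7
  · exact r6 g6 c6 t0 t1 h0 (by linarith only [h1]) hd
  rcases le_total x (((2500 : ℤ) : ℝ) / 10000) with c7 | g8
  · exact r7 g7 c7 t0 t1 h0 (by linarith only [h1]) hd
  rcases le_total x (((3000 : ℤ) : ℝ) / 10000) with c8 | g9
  · exact r8 g8 c8 t0 t1 h0 (by linarith only [h1]) hd
  rcases le_total x (((3500 : ℤ) : ℝ) / 10000) with c9 | g10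
  · exact r9 g9 c9 t0 t1 h0 (by linarith only [h1]) hd
  rcases le_total x (((4000 : ℤ) : ℝ) / 10000) with c10 | g11
  · exact r10 g10 c10 t0 t1 h0 (by linarith only [h1]) hd
  rcases le_total x (((4500 : ℤ) : ℝ) / 10000) with c11 | g12
  · exact r11 g11 c11 t0 t1 h0 (by linarith only [h1]) hd
  rcases le_total x (((5000 : ℤ) : ℝ) / 10000) with c12 | g13
  · exact r12 g12 c12 t0 t1 h0 (by linarith only [h1]) hd
  rcases le_total x (((5500 : ℤ) : ℝ) / 10000) with c13 | g14
  · exact r13 g13 c13 t0 t1 h0 (by linarith only [h1]) hd
  rcases le_total x (((5750 : ℤ) : ℝ) / 10000) with c14 | g15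
  · exact r14 g14 c14 t0 t1 h0 (by linarith only [h1]) hd
  exact r15 g15 (by push_cast; linarith only [hx1]) t0 t1 h0 (by linarith only [h1]) hd

end RE3

end KR

end Pool.Agent.Work.MP_b30479_gtS.G2
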