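import Pool.Agent.Work.MP_b30479_gt.TBS.G2.WMR1
import Pool.Agent.Work.MP_b30479_gt.TBS.G2.WMRE3
import Pool.Agent.Work.MP_b30479_gt.TBS.G2.WLocF
import Pool.Agent.Work.MP_b30479_gt.TBS.G2.WM_2_3aE
import Pool.Agent.Work.MP_b30479_gt.TBS.G2.WMF3r13
import Pool.Agent.Work.MP_b30479_gt.TBS.G2.WMid

section

/-!
# Mirrored paths: the kind `2` at an end `| 3`, slot `2` of the `3`
-/

namespace Pool.Agent.Work.MP_b30479_gtS.G2

open Finset VOL Filter Topology

namespace SR

variable {M : ℕ} {b : Fin (M + 1) → ℤ} {zs : DD (tyW b) ⊕ ZZ (tyW b) → ℂ}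

/-- **Kind `2` at an end `| 3`**, the `3` at its slot `2`. -/
theorem kind_twoE_three' (hb : ClassW b) (L : LocA b zs) : Kd b zs .twoE .three 0 := by
  intro R nb z p h i j x hN hM hq D hi hj
  obtain ⟨m, rfl⟩ : ∃ m : {i : Fin (M + 1) // (tyW b i).isMid = true}, m.1 = j :=
    ⟨⟨j, tyW_isMid (Or.inl hj)⟩, rfl⟩
  obtain ⟨w0, w1, d2⟩ := (hM.ipos hN m D.adj.symm D.nn).2.dl hb L.L m hj
  have hT := Th_mem hb L.L D.adj D.ri
  rw [hi, hj] at hT
  simp only [hbox] at hT
  have A2 : Adj h m.1 2 i := D.adj.symm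
  have hX := par_three2 A2 hj (by rw [hi]; decide)
  have hx1 := D.x1
  rw [hX.1] at hx1
  have h16 := mhs_adj D.adj (fun h3 => by rw [hi] at h3; exact absurd h3.2 (by decide))
    (fun h3 => absurd h3.1 (by decide)) 0
  exact D.one hb hN hM hX h16 hi (fun c => side_three2 hb A2 hj c)
    (KR.RE3.rows D.x0.le hx1.le (by linarith [hT.1]) (by linarith [hT.2]) w0 w1 d2)

end SR

end Pool.Agent.Work.MP_b30479_gtS.G2

end

section

/-!
# Mirrored paths: the kind `2` at an end `| 3`, slot `0` of the `3`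

Variables of the rows: position `x` and height `T` of the saddle point of the hinge, position and
height of the inner variable of the `3`.
-/

set_option deprecated.oldSectionVars true

namespace Pool.Agent.Work.MP_b30479_gtS.G2

open Finset VOL Filter Topology

namespace K2E

open NumGs

/-- height of the mirrored path -/
def hh : E := .mul (.q 4 25) (E.tr 600 120 300 (.var 0))
/-- ramp function of the inner variable -/
def t8 : E := E.tr 800 50 50 (.var 2)
/-- gain of the `2` plus the penalty; target `c + i t` -/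
def g0 (c t : E) : E :=
  .add (.sub (E.V2e c t) (E.V2e (.var 0) (.neg hh))) (.mul (.mul (.q 2 1) .pi) hh)
/-- total gain, inner variable kept at height `s` -/
def kp (c t s : E) : E :=
  .add (g0 c t) (.sub (E.Va c (.neg t) (.var 2) s) (E.Va (.var 0) hh (.var 2) s))
/-- total gain, inner variable moved to `3/10` -/
def rs (c t s p : E) : E :=
  .add (.add (g0 c t) (.sub (K23.Vf c (.neg t) (.q 3 10) (.var 3)) (K23.Vf (.var 0) hh (.var 2) s))) p
/-- gain in the other slot, inner variable on its main path -/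
def pM : E := .sub (E.pl (.var 2) 120 F3.fa) (.mul (.var 3) (E.pl (.var 2) 2600 F3.fb))
/-- heights of the inner variable -/
def tm : E := .mul (.var 3) t8
def tu : E := .mul (.q 4 25) t8

theorem r_m1_q1 : Pool.Agent.Work.NumIs.runE (Pool.Agent.Work.NumGs.tstD [.of (kp (.q 3 20) (.var 1) tm), .of (rs (.q 3 20) (.var 1) tm pM)])
    0 0 0 8452495639 39 0 20615843021 5222680231 6734508722 0 20615843022 0 4054449129
    0x20400142800a001050a08285040028500142850a001030a1400204142830a14002040810408101000a140020a1400500142800a14185001428004082850614280040810200102850008204041410008102820a00105081428004000000a142820014285000828504081050a0028504142800000285061428200142800a1400204142830a1428004002850a0c1050a0c285061428300080020008002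
    0x102000a140050008285041428200142800a1428500081850a001020a141850a00102040820408080050a001050a002800a140050a0c2800a1400204142830a140020408100 = true := by
  decide +kernel

theorem r_m1_q2 : Pool.Agent.Work.NumIs.runE (Pool.Agent.Work.NumGs.tstD [.of (kp (.q 3 20) (.var 1) tm), .of (rs (.q 3 20) (.var 1) tm pM)])
    0 0 0 8452495639 39 20615843021 41231686043 5222680231 6734508722 0 20615843022 0 4054449129
    0x102000a140050008285041428200142800a1428500081850a001020a141850a00102040820408080050a001050a002800a140050a0c2800a1400204142830a140020408100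
    0x0 = true := by
  decide +kernel

theorem r_m1 : chkD [.of (kp (.q 3 20) (.var 1) tm), .of (rs (.q 3 20) (.var 1) tm pM)]
    1000 0 0 0 123 40 0 600 76 98 0 300 0 59
    0x102000a140050008285041428200142800a1428500081850a001020a141850a00102040820408080050a001050a002800a140050a0c2800a1400204142830a140020408100081428004102020a08004081410500082840a1400200000050a141000a142800414282040828500142820a1400000142830a141000a140050a001020a141850a140020014285060828506142830a1418004001000400100 = true :=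
    Pool.Agent.Work.NumIs.okB_of rfl rfl rfl rfl rfl rfl rfl rfl rfl rfl rfl rfl
    (Pool.Agent.Work.NumIs.runE_split0 rfl rfl rfl
      r_m1_q1
      r_m1_q2)

theorem r_m3 : chkD [.of (kp (.q 3 20) (.var 1) tm)]
    1000 0 0 0 123 40 0 600 76 98 300 800 0 59
    0x408101020800204000820408001040800104080800208100040400204080010404100040810100041020208002040800104000800208101040808204041010000102040800104000820408100020000100 = true := by
  decide +kernel

theorem r_u2 : chkD [.of (kp (.q 3 20) (.var 1) tu)]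
    1000 0 0 0 123 40 0 600 76 98 0 800 0 59
    0x10202081010400082040400204080800408082040400104080020408000020008204081000404000040808204080800004002040410202080020408002020008004080020400102000810000040810408100020800204080020200082040808104080000008101040010204000810408002020810200000020408082040400104080020408001040808204080800000080020008002 = true := by
  decide +kernel

set_option deprecated.oldSectionVars false
variable {x T y w : ℝ}

theorem hh_val : hh.val [x, T, y, w] = 16 / 100 * tr 0 (6 / 10) (12 / 100) (3 / 10) x := by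
  unfold hh
  rw [E.val, E.tr_val (by norm_num) (by norm_num) (by norm_num), K23.e0_val]
  norm_num [E.val]

theorem t8_val : t8.val [x, T, y, w] = K23.τl y := by
  unfold t8 K23.τl
  rw [E.tr_val (by norm_num) (by norm_num) (by norm_num), K23.e2_val]
  norm_num

theorem tm_val : tm.val [x, T, y, w] = w * K23.τl y := by
  unfold tm
  rw [E.val, t8_val, K23.e3_val]

theorem tu_val : tu.val [x, T, y, w] = 16 / 100 * K23.τl y := by
  unfold tu
  rw [E.val, t8_val]
  norm_num [E.val]

theorem c_val : (E.q 3 20).val [x, T, y, w] = 3 / 20 := by norm_num [E.val]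

theorem g0_val : (g0 (.q 3 20) (.var 1)).val [x, T, y, w] =
    V2 ⟨3 / 20, T⟩ 0 - V2 ⟨x, -(16 / 100 * tr 0 (6 / 10) (12 / 100) (3 / 10) x)⟩ 0 +
      2 * Real.pi * (16 / 100 * tr 0 (6 / 10) (12 / 100) (3 / 10) x) := by
  unfold g0
  have e : hh.neg.val [x, T, y, w] = -(16 / 100 * tr 0 (6 / 10) (12 / 100) (3 / 10) x) := by
    rw [E.val, hh_val]
  have e3 : (((E.q 2 1).mul E.pi).mul hh).val [x, T, y, w] =
      2 * Real.pi * (16 / 100 * tr 0 (6 / 10) (12 / 100) (3 / 10) x) := by
    show ((E.q 2 1).val [x, T, y, w] * Real.pi) * hh.val [x, T, y, w] = _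
    rw [hh_val]
    norm_num [E.val]
  rw [E.val, E.val, E.V2e_val, E.V2e_val, e3, K23.e0_val, K23.e1_val, c_val, e]

theorem kp_val {s : E} : (kp (.q 3 20) (.var 1) s).val [x, T, y, w] =
    V2 ⟨3 / 20, T⟩ 0 - V2 ⟨x, -(16 / 100 * tr 0 (6 / 10) (12 / 100) (3 / 10) x)⟩ 0 +
      2 * Real.pi * (16 / 100 * tr 0 (6 / 10) (12 / 100) (3 / 10) x) +
      (KE.VA ⟨3 / 20, -T⟩ ⟨y, s.val [x, T, y, w]⟩ -
        KE.VA ⟨x, 16 / 100 * tr 0 (6 / 10) (12 / 100) (3 / 10) x⟩ ⟨y, s.val [x, T, y, w]⟩) := by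
  unfold kp
  have e2 : (E.neg (.var 1)).val [x, T, y, w] = -T := rfl
  rw [E.val, E.val, g0_val, KE.eVA_val, KE.eVA_val, hh_val, K23.e0_val, K23.e2_val, c_val, e2]

theorem rs_val {s p : E} : (rs (.q 3 20) (.var 1) s p).val [x, T, y, w] =
    V2 ⟨3 / 20, T⟩ 0 - V2 ⟨x, -(16 / 100 * tr 0 (6 / 10) (12 / 100) (3 / 10) x)⟩ 0 +
      2 * Real.pi * (16 / 100 * tr 0 (6 / 10) (12 / 100) (3 / 10) x) +
      (KE.VF ⟨3 / 20, -T⟩ ⟨3 / 10, w⟩ -
        KE.VF ⟨x, 16 / 100 * tr 0 (6 / 10) (12 / 100) (3 / 10) x⟩ ⟨y, s.val [x, T, y, w]⟩) +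
      p.val [x, T, y, w] := by
  unfold rs
  have e2 : (E.neg (.var 1)).val [x, T, y, w] = -T := rfl
  have e3 : (E.q 3 10).val [x, T, y, w] = 3 / 10 := by norm_num [E.val]
  rw [E.val, E.val, E.val, g0_val, K23.Vf_val, K23.Vf_val, hh_val, K23.e0_val, K23.e2_val,
    K23.e3_val, c_val, e2, e3]

theorem pM_val : pM.val [x, T, y, w] = plR y 120 F3.fa - w * plR y 2600 F3.fb := by
  unfold pM
  rw [E.val, E.val, E.pl_val, E.pl_val, K23.e2_val, K23.e3_val]

/-- inner variable on the main path, left part -/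
theorem main_l (x0 : 0 ≤ x) (x1 : x ≤ 6 / 10) (T0 : 76 / 1000 ≤ T) (T1 : T ≤ 98 / 1000)
    (y0 : 0 ≤ y) (y1 : y ≤ 3 / 10) (w0 : -(123 / 1000) ≤ w) (w1 : w ≤ -(64 / 1000)) :
    0 < (kp (.q 3 20) (.var 1) tm).val [x, T, y, w] ∨
      0 < (rs (.q 3 20) (.var 1) tm pM).val [x, T, y, w] :=
  K23.dk2 r_m1 (by norm_num) (by constructor <;> push_cast <;> linarith only [x0, x1])
    (by constructor <;> push_cast <;> linarith only [T0, T1]) (by constructor <;> push_cast <;> linarith only [y0, y1])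
    (by constructor <;> push_cast <;> linarith only [w0, w1])

/-- inner variable on the main path, right part -/
theorem main_r (x0 : 0 ≤ x) (x1 : x ≤ 6 / 10) (T0 : 76 / 1000 ≤ T) (T1 : T ≤ 98 / 1000)
    (y0 : 3 / 10 ≤ y) (y1 : y ≤ 8 / 10) (w0 : -(123 / 1000) ≤ w) (w1 : w ≤ -(64 / 1000)) :
    0 < (kp (.q 3 20) (.var 1) tm).val [x, T, y, w] :=
  K23.dk1 r_m3 (by norm_num) (by constructor <;> push_cast <;> linarith only [x0, x1])
    (by constructor <;> push_cast <;> linarith only [T0, T1]) (by constructor <;> push_cast <;> linarith only [y0, y1])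
    (by constructor <;> push_cast <;> linarith only [w0, w1])

/-- inner variable on the upper mirrored path -/
theorem up_a (x0 : 0 ≤ x) (x1 : x ≤ 6 / 10) (T0 : 76 / 1000 ≤ T) (T1 : T ≤ 98 / 1000)
    (y0 : 0 ≤ y) (y1 : y ≤ 8 / 10) (w0 : -(123 / 1000) ≤ w) (w1 : w ≤ -(64 / 1000)) :
    0 < (kp (.q 3 20) (.var 1) tu).val [x, T, y, w] :=
  K23.dk1 r_u2 (by norm_num) (by constructor <;> push_cast <;> linarith only [x0, x1])
    (by constructor <;> push_cast <;> linarith only [T0, T1]) (by constructor <;> push_cast <;> linarith only [y0, y1])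
    (by constructor <;> push_cast <;> linarith only [w0, w1])

end K2E

namespace SR

set_option deprecated.oldSectionVars false
variable {M : ℕ} {b : Fin (M + 1) → ℤ} {zs : DD (tyW b) ⊕ ZZ (tyW b) → ℂ}
set_option deprecated.oldSectionVars false
variable {R : Finset (DD (tyW b))} {nb : Finset (DD (tyW b) ⊕ ZZ (tyW b))}
set_option deprecated.oldSectionVars false
variable {z : DD (tyW b) ⊕ ZZ (tyW b) → ℂ} {p : DD (tyW b) → ℝ}
set_option deprecated.oldSectionVars false
variable {h h' : Fin M} {i j j' : Fin (M + 1)} {s : Fin 3} {x c : ℝ}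

theorem par_twoE3a (A : Adj h i 2 j) (hi : clsW b i = .twoE) (hj : clsW b j = .three) :
    wXM b h = 60 / 100 ∧ wcl b h = 12 / 100 ∧ wcr b h = 30 / 100 := by
  unfold wXM wcl wcr
  cases A
  rw [hi, hj]
  exact ⟨rfl, rfl, rfl⟩

theorem mhs_twoE3a (A : Adj h i 2 j) (hi : clsW b i = .twoE) :
    mhs b h 2 = 16 / 100 := by
  cases A
  simp [mhs, hi]

/-- the inner variable of a `3` with an end with two crossings at its slot `0` -/
theorem TmE3_mem (hX : LocX b zs) (m : {i : Fin (M + 1) // (tyW b i).isMid = true})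
    (A : Adj h m.1 0 j) (A' : Adj h' m.1 2 j') (hc : clsW b m.1 = .three)
    (hj : clsW b j = .twoE) : -(123 / 1000) ≤ Tm b zs m ∧ Tm b zs m ≤ -(64 / 1000) := by
  have h1 := hX.mid m.2 A A' hc
  obtain ⟨h2, h3, -, -⟩ := h1
  have e : ofs (b m.1) (zs (.inl (.inr ⟨m.1, m.2⟩))).im = Tm b zs m := rfl
  rw [e] at h2 h3
  rcases hk : clsW b j' <;> rw [hj, hk] at h2 h3 <;>
    simp only [mw] at h2 h3 <;> constructor <;> linarith only [h2, h3]

/-- **Kind `2` at an end `| 3`**, the `3` at its slot `0`. -/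
theorem kind_twoE_three2 (hb : ClassW b) (L : LocA b zs) : Kd b zs .twoE .three 2 := by
  intro R nb z p h i j x hN hM hq D hi hj
  obtain ⟨m, rfl⟩ : ∃ m : {i : Fin (M + 1) // (tyW b i).isMid = true}, m.1 = j :=
    ⟨⟨j, tyW_isMid (Or.inl hj)⟩, rfl⟩
  have Aj : Adj h m.1 0 i := D.adj.symm
  obtain ⟨hnn, I⟩ := hM.ipos hN m D.adj.symm D.nn
  obtain ⟨h2, j2, A2⟩ := D.adj.symm.other' b (clsW_inner hb (Or.inr (Or.inr hj)))
  obtain ⟨w0, w1, w2⟩ := (hM.npos hb hN hq D.adj.symm D.nn A2).w3 hb L.L A2 hj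
  obtain ⟨l0, l1⟩ := TmE3_mem L.X m Aj A2 hj hi
  have hT := Th_mem hb L.L D.adj D.ri
  rw [hi, hj] at hT
  simp only [hbox] at hT
  have T0 : 76 / 1000 ≤ Th b zs h i := by linarith only [hT, hT.1]
  have T1 : Th b zs h i ≤ 98 / 1000 := by linarith only [hT, hT.2]
  have hX := par_twoE3a D.adj hi hj
  have x0 := D.x0.le
  have x1 := D.x1
  rw [hX.1] at x1
  have x1 : x ≤ 6 / 10 := by linarith only [x1]
  have h16 := mhs_twoE3a D.adj hi
  have y1' : (mp (clsW b m.1)).XM = 8 / 10 := by rw [hj]; rfl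
  have eh : trh b h x = tr 0 (6 / 10) (12 / 100) (3 / 10) x := by
    rw [trh_eq hX]
    norm_num
  have eu : Ow b z m.1 0 = ⟨x, mhs b h 2 * trh b h x⟩ := D.opp
  have ev : Ow b z i 2 = ⟨x, -(mhs b h 2 * trh b h x)⟩ := D.own
  rw [h16, eh] at eu ev
  have eT : trh b h (3 / 20) = 1 :=
    trh_M (by rw [hX.2.1]; norm_num) (by rw [hX.1, hX.2.2]; norm_num)
  have e1 : tgo b zs h i (3 / 20) = ⟨3 / 20, Th b zs h i⟩ := by unfold tgo; rw [eT, mul_one]
  have e2 : tgo b zs h m.1 (3 / 20) = ⟨3 / 20, -Th b zs h i⟩ := by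
    unfold tgo
    rw [D.Tj, eT, mul_one]
  have g1 := keep_twoE (zs := zs) (nb := nb) (z := z) (p := p) (c := 3 / 20) hb D.adj hi
  have sK := D.star hb hN.ok.1 hM (by norm_num) (by rw [hX.1]; norm_num) g1
    (keep_three0 (zs := zs) (nb := nb) (z := z) (p := p) (c := 3 / 20) hb Aj hj)
  have sR := D.star hb hN.ok.1 hM (by norm_num) (by rw [hX.1]; norm_num) g1
    (inner_three0 (zs := zs) (nb := nb) (z := z) (p := p) (c := 3 / 20) hb m Aj hj
      hnn (c' := 3 / 10) (by norm_num) (by norm_num))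
  rw [KE.V3_VA, e1, e2, eu, ev, h16, eh] at sK
  rw [KE.V3_VF, KE.V3_VF, e1, e2, tgi_3 m hj (by norm_num) (by norm_num), eu, ev, h16, eh] at sR
  have etl : ∀ y, trm b m y = K23.τl y := fun y => trm3 m hj y
  cases I with
  | main y y0 y1 e hp =>
    rw [y1'] at y1
    rw [etl] at e
    rw [e] at sK sR
    rw [hp] at sR
    rcases le_total y (3 / 10) with hy | hy
    · rcases K2E.main_l x0 x1 T0 T1 y0 hy l0 l1 with h1 | h1
      · rw [K2E.kp_val, K2E.tm_val] at h1
        linarith only [sK, h1]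
      · rw [K2E.rs_val, K2E.tm_val, K2E.pM_val] at h1
        have hf := NumGs.F3.far_main w0 w1 w2 l0 (by linarith only [l1]) y0 y1
        have hf : NumGs.plR y 120 NumGs.F3.fa - Tm b zs m * NumGs.plR y 2600 NumGs.F3.fb ≤
          V2 ⟨3 / 10, Tm b zs m⟩ (Ow b z m.1 2) -
            V2 ⟨y, Tm b zs m * K23.τl y⟩ (Ow b z m.1 2) := hf
        linarith only [sR, h1, hf]
    · have h1 := K2E.main_r x0 x1 T0 T1 hy y1 l0 l1
      rw [K2E.kp_val, K2E.tm_val] at h1
      linarith only [sK, h1]
  | up y y0 y1 hT e hp =>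
    rw [y1'] at y1
    rw [etl] at e hp
    rw [e] at sK
    have h1 := K2E.up_a x0 x1 T0 T1 y0 y1 l0 l1
    rw [K2E.kp_val, K2E.tu_val] at h1
    linarith only [sK, h1]
  | dn y y0 y1 hT e hp => linarith only [l1, hT]

end SR

end Pool.Agent.Work.MP_b30479_gtS.G2

end

section

/-!
# Kind `2 | 3` with the `2` at an end: both slots together
-/

open Pool.Agent.Work.NumUs Pool.Agent.Work.NumIs

namespace Pool.Agent.Work.MP_b30479_gtS.G2

namespace SR

variable {M : ℕ} {b : Fin (M + 1) → ℤ} {zs : DD (tyW b) ⊕ ZZ (tyW b) → ℂ}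

/-- **Kind `2 | 3`**, the `2` at an end of the block. -/
theorem kind_twoE_three (hb : ClassW b) (L : LocA b zs) (s : Fin 3) : Kd b zs .twoE .three s := by
  by_cases h2 : s = 2
  · rw [h2]
    exact kind_twoE_three2 hb L
  by_cases h0 : s = 0
  · rw [h0]
    exact kind_twoE_three' hb L
  intro hN hM hq D hi hj
  rcases D.adj.slot with h1 | h1
  · exact absurd h1 h0
  · exact absurd h1 h2

end SR

end Pool.Agent.Work.MP_b30479_gtS.G2

end
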