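import Pool.Agent.Work.MP_b30479_gt.TBS.G2.WM11R2s2
import Pool.Agent.Work.MP_b30479_gt.TBS.G2.WMainS
import Pool.Agent.Work.MP_b30479_gt.TBS.G2.WLocF
import Pool.Agent.Work.MP_b30479_gt.TBS.G2.WLocX
import Pool.Agent.Work.MP_b30479_gt.TBS.G2.WM11R15s3
import Pool.Agent.Work.MP_b30479_gt.TBS.G2.WMid
import Pool.Agent.Work.MP_b30479_gt.TBS.G2.TReg
import Pool.Agent.Work.MP_b30479_gt.TBS.G2.MJI
import Pool.Agent.Work.MP_b30479_gt.TBS.G2.MKJ
import Pool.Agent.Work.MP_b30479_gt.TBS.G2.MKP_1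
import Pool.Agent.Work.MP_b30479_gt.TBS.G2.V33D
import Pool.Agent.Work.MP_b30479_gt.TBS.G2.WM_2_3aR1
import Pool.Agent.Work.MP_b30479_gt.TBS.G2.WM_2e_3a
import Pool.Agent.Work.MP_b30479_gt.TBS.G2.WMGh
import Pool.Agent.Work.MP_b30479_gt.TBS.G2.TL3B

section

/-!
# Mirrored paths: kind `1 | 1`
-/

namespace Pool.Agent.Work.MP_b30479_gtS.G2

open Finset VOL Filter Topology SR
open NumGs.M11 (InK KS τk PN t1)

variable {M : ℕ} {b : Fin (M + 1) → ℤ} {zs : DD (tyW b) ⊕ ZZ (tyW b) → ℂ}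
variable {R : Finset (DD (tyW b))} {nb : Finset (DD (tyW b) ⊕ ZZ (tyW b))}
variable {z : DD (tyW b) ⊕ ZZ (tyW b) → ℂ} {p : DD (tyW b) → ℝ}
variable {h h' : Fin M} {i j j' : Fin (M + 1)} {s q : Fin 3} {x c : ℝ}

/-- kind `1 | 3`, the `3` at its slot `2`, for digits `1` whose other hinge is not real -/
def K13b (b : Fin (M + 1) → ℤ) (zs : DD (tyW b) ⊕ ZZ (tyW b) → ℂ) : Prop :=
  ∀ {R : Finset (DD (tyW b))} {nb : Finset (DD (tyW b) ⊕ ZZ (tyW b))}
    {z : DD (tyW b) ⊕ ZZ (tyW b) → ℂ} {p : DD (tyW b) → ℝ} {h : Fin M} {i j : Fin (M + 1)} {x : ℝ},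
    NbT b R nb → MM b zs R nb z p → (∀ h : Fin M, RH1 b (.inl h) → p (.inl h) = 0) →
    Md b zs nb z p h i 0 j x → clsW b i = .one → clsW b j = .three →
    (∀ (k : Fin M) (P : Fin (M + 1)), Adj k i 2 P → Sum.inl (Sum.inl k) ∉ nb) → False

namespace M11

/-! ### hinges without modes -/

theorem adj_cases {i1 j1 : Fin (M + 1)} {s1 : Fin 3} (A : Adj h i s j) (A1 : Adj h i1 s1 j1) :
    (i1 = i ∧ s1 = s ∧ j1 = j) ∨ (i1 = j ∧ s1 = s.rev ∧ j1 = i) := by
  cases A <;> cases A1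
  · exact Or.inl ⟨rfl, rfl, rfl⟩
  · exact Or.inr ⟨rfl, rfl, rfl⟩
  · exact Or.inr ⟨rfl, rfl, rfl⟩
  · exact Or.inl ⟨rfl, rfl, rfl⟩

theorem nr_of (A : Adj h i s j) (hi : clsW b i ≠ .ring) (hj : clsW b j ≠ .ring) :
    clsW b h.castSucc ≠ .ring ∧ clsW b h.succ ≠ .ring := by
  cases A
  · exact ⟨hi, hj⟩
  · exact ⟨hj, hi⟩

theorem ring_of (A : Adj h i s j) (hc : clsW b i = .ring ∨ clsW b j = .ring) : RH1 b (.inl h) := by
  cases A
  · exact hc
  · exact hc.symm

/-- no mode at the hinge -/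
theorem p_zero (hb : ClassW b) (hN : NbT b R nb) (hM : MM b zs R nb z p) (A : Adj h i s j)
    (hi : clsW b i ≠ .ring) (hj : clsW b j ≠ .ring) (k1 : ∀ x, ¬ Md b zs nb z p h i s j x)
    (k2 : ∀ x, ¬ Md b zs nb z p h j s.rev i x) : p (.inl h) = 0 := by
  have hr := nr_of A hi hj
  rcases hM.md hb hN.ok.1 h hr.1 hr.2 with h0 | ⟨i1, s1, j1, x, D⟩
  · exact h0
  · rcases adj_cases A D.adj with ⟨rfl, rfl, rfl⟩ | ⟨rfl, rfl, rfl⟩
    · exact (k1 x D).elim
    · exact (k2 x D).elim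

/-- position of a hinge without penalty -/
theorem flat {X : ℂ} (P : NPos b zs nb p h i s X) (hp : p (.inl h) = 0) :
    X.im = Th b zs h i * trh b h X.re ∨ (Sum.inl (Sum.inl h) ∈ nb ∧ X.im = 0) := by
  cases P with
  | main y y0 y1 hn e hp =>
    left
    rw [e]
  | real y y0 y1 hn e hp =>
    right
    rw [e]
    exact ⟨hn, rfl⟩
  | up y y0 y1 hn hr hT e hp' =>
    left
    rw [e]
    have h2 : trh b h y = 0 := by
      rw [hp] at hp'
      rcases mul_eq_zero.1 hp'.symm with h3 | h3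
      · exact absurd h3 (mhs_pos (b := b) h s.rev).ne'
      · exact h3
    simp only
    rw [h2, mul_zero, mul_zero]
  | dn y y0 y1 hn hr hT e hp' =>
    left
    rw [e]
    have h2 : trh b h y = 0 := by
      rw [hp] at hp'
      rcases mul_eq_zero.1 hp'.symm with h3 | h3
      · exact absurd h3 (mhs_pos (b := b) h s).ne'
      · exact h3
    simp only
    rw [h2, mul_zero, mul_zero, neg_zero]

/-! ### parameters -/

theorem par_one_one (A : Adj h i s j) (A1 : Adj h' i s.rev j') (hi : clsW b i = .one)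
    (hj : clsW b j = .one) (hj' : clsW b j' = .one) :
    wXM b h' = 80 / 100 ∧ wcl b h' = 15 / 100 ∧ wcr b h' = 20 / 100 := by
  have A2 : Adj h i s.rev.rev j := by rwa [Fin.rev_rev]
  have e := A1.XM_eq b
  have e2 := A1.cl_eq b
  have e3 := A1.cr_eq b
  rw [A2.oc_eq b, hi, hj, hj'] at e e2 e3
  unfold hpp at e e2 e3
  rw [e, e2, e3]
  simp only [hp]
  split_ifs <;> simp_all

theorem XM_one_one (A : Adj h i s j) (hi : clsW b i = .one) (hj : clsW b j = .one) :
    wXM b h = (if oc b i s.rev = .one ∨ oc b j s = .one then 80 / 100 else 86 / 100) ∧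
      wcl b h = 15 / 100 ∧ wcr b h = 20 / 100 := by
  have e := A.XM_eq b
  have e2 := A.cl_eq b
  have e3 := A.cr_eq b
  rw [hi, hj] at e e2 e3
  unfold hpp at e e2 e3
  rw [e, e2, e3]
  simp only [hp]
  split_ifs <;> simp_all

theorem par_one_two (A : Adj h i s j) (hi : clsW b i = .one) (hj : clsW b j = .two) :
    wXM b h = 80 / 100 ∧ wcl b h = 16 / 100 ∧ wcr b h = 29 / 100 := by
  unfold wXM wcl wcr
  cases A <;> rw [hi, hj] <;> exact ⟨rfl, rfl, rfl⟩

theorem par_one_twoE (A : Adj h i s j) (hi : clsW b i = .one) (hj : clsW b j = .twoE) :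
    wXM b h = 70 / 100 ∧ wcl b h = 14 / 100 ∧ wcr b h = 35 / 100 := by
  unfold wXM wcl wcr
  cases A <;> rw [hi, hj] <;> exact ⟨rfl, rfl, rfl⟩

theorem par_one_three2 (A : Adj h i 2 j) (hi : clsW b i = .one) (hj : clsW b j = .three) :
    wXM b h = 65 / 100 ∧ wcl b h = 13 / 100 ∧ wcr b h = 15 / 100 := by
  unfold wXM wcl wcr
  cases A
  rw [hi, hj]
  exact ⟨rfl, rfl, rfl⟩

theorem par_one_three0 (A : Adj h i 0 j) (hi : clsW b i = .one) (hj : clsW b j = .three) :
    wXM b h = 65 / 100 ∧ wcl b h = 15 / 100 ∧ wcr b h = 29 / 100 := by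
  unfold wXM wcl wcr
  cases A
  rw [hi, hj]
  exact ⟨rfl, rfl, rfl⟩

theorem par_one_threeE (A : Adj h i s j) (hi : clsW b i = .one) (hj : clsW b j = .threeE) :
    wXM b h = 60 / 100 ∧ wcl b h = 14 / 100 ∧ wcr b h = 25 / 100 := by
  unfold wXM wcl wcr
  cases A <;> rw [hi, hj] <;> exact ⟨rfl, rfl, rfl⟩

theorem par_one_ring (A : Adj h i s j) (hi : clsW b i = .one) (hj : clsW b j = .ring) :
    wXM b h = 65 / 100 ∧ wcl b h = 16 / 100 ∧ wcr b h = 29 / 100 := by
  unfold wXM wcl wcr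
  cases A <;> rw [hi, hj] <;> exact ⟨rfl, rfl, rfl⟩

theorem mhs_one (A : Adj h i s j) (hi : clsW b i = .one) (hj : clsW b j = .one) (q : Fin 3) :
    mhs b h q = 16 / 100 := by
  have h1 : clsW b h.succ ≠ .three := by
    cases A
    · rw [hj]; decide
    · rw [hi]; decide
  unfold mhs
  rw [if_neg (fun h3 => h1 h3.2), if_neg (fun h3 => h1 h3.2.1)]

/-- the ramp function is the one of the set -/
theorem tau_eq {k : KS} (hp : wXM b h = (k.XM : ℝ) / 1000 ∧ wcl b h = (k.cl : ℝ) / 1000 ∧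
    wcr b h = (k.cr : ℝ) / 1000) (y : ℝ) : τk k y = trh b h y := by
  unfold τk trh
  rw [hp.1, hp.2.1, hp.2.2]

/-- main path -/
theorem inK_main {k : KS} {X : ℂ} {θ : ℝ} (hp : wXM b h = (k.XM : ℝ) / 1000 ∧
    wcl b h = (k.cl : ℝ) / 1000 ∧ wcr b h = (k.cr : ℝ) / 1000)
    (hre : 0 ≤ X.re ∧ X.re ≤ wXM b h) (hy0 : k.y0 = 0) (hy1 : k.y1 = k.XM)
    (h0 : (k.lo : ℝ) / 1000 ≤ θ) (h1 : θ ≤ (k.hi : ℝ) / 1000) (e : X.im = θ * trh b h X.re) :
    InK k X := by
  have ht := (trh_mem (b := b) h X.re).1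
  refine ⟨⟨?_, ?_⟩, ?_, ?_⟩
  · rw [hy0]
    simpa using hre.1
  · rw [hy1, ← hp.1]
    exact hre.2
  · rw [tau_eq hp, e]
    exact mul_le_mul_of_nonneg_right h0 ht
  · rw [tau_eq hp, e]
    exact mul_le_mul_of_nonneg_right h1 ht

/-- real -/
theorem inK_real {X : ℂ} (h0 : 0 ≤ X.re) (h1 : X.re ≤ 65 / 100) (e : X.im = 0) :
    InK NumGs.M11.KR X := by
  refine ⟨⟨?_, ?_⟩, ?_, ?_⟩ <;> simp only [NumGs.M11.KR] <;> norm_num
  · exact h0
  · linarith only [h1]
  · rw [e]
  · rw [e]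

/-! ### the other hinge of a digit `1` -/

section other

variable (hb : ClassW b) (L : LocA b zs) (k12 : ∀ s, Kd b zs .one .two s)
  (k21 : ∀ s, Kd b zs .two .one s) (k1E : ∀ s, Kd b zs .one .twoE s)
  (kE1 : ∀ s, Kd b zs .twoE .one s) (k13a : Kd b zs .one .three 2) (k13b : K13b b zs)
  (k1e : ∀ s, Kd b zs .one .threeE s)

include hb L k12 k21 k1E kE1 k13a k13b k1e

/-- the position of the other hinge of a digit `1` with a hinge `1 | 1` which is not real -/
theorem pos (hN : NbT b R nb) (hM : MM b zs R nb z p)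
    (hq : ∀ h : Fin M, RH1 b (.inl h) → p (.inl h) = 0) (A : Adj h i s j)
    (hn : Sum.inl (Sum.inl h) ∉ nb) (A' : Adj h' i s.rev j') (hi : clsW b i = .one)
    (hj : clsW b j = .one) :
    (clsW b j' ≠ .one ∧ PN (clsW b j') (Th b zs h i) (Ow b z i s.rev)) ∨
      (clsW b j' = .one ∧ (InK NumGs.M11.K1 (Ow b z i s.rev) ∨
        ∃ y, Md b zs nb z p h' j' s i y)) := by
  have P := hM.npos hb hN hq A hn A'
  have hre := P.re
  have A2 : Adj h i s.rev.rev j := by rwa [Fin.rev_rev]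
  obtain ⟨hU0, hU1, hS0, -⟩ := L.X.win A' A2 hi
  have hU0' : (cw (clsW b j) (clsW b j')).t0 ≤ Th b zs h' i := hU0
  have hU1' : Th b zs h' i ≤ (cw (clsW b j) (clsW b j')).t1 := hU1
  have hS0' : (cw (clsW b j) (clsW b j')).s0 ≤ Th b zs h' i + Th b zs h i := hS0
  clear hU0 hU1 hS0
  have hTj : Th b zs h' j' = -Th b zs h' i :=
    ofs_neg_of_opp (sign_adj hb A' (by rw [hi]; decide)) _
  rw [hj] at hU0' hU1' hS0'
  rcases hC : clsW b j' <;> rw [hC] at hU0' hU1' hS0' <;> simp only [cw] at hU0' hU1' hS0'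
  case one =>
    right
    refine ⟨rfl, ?_⟩
    obtain ⟨e1, e2, e3⟩ := par_one_one A A' hi hj hC
    have hm : ∀ q, mhs b h' q = 16 / 100 := mhs_one A' hi hC
    have hpar : wXM b h' = (NumGs.M11.K1.XM : ℝ) / 1000 ∧ wcl b h' = (NumGs.M11.K1.cl : ℝ) / 1000 ∧
        wcr b h' = (NumGs.M11.K1.cr : ℝ) / 1000 := by
      rw [e1, e2, e3]
      simp only [NumGs.M11.K1]
      norm_num
    obtain ⟨hr1, hr2⟩ := nr_of A' (b := b) (by rw [hi]; decide) (by rw [hC]; decide)
    rcases hM.md hb hN.ok.1 h' hr1 hr2 with h0 | ⟨i1, s1, j1, y, D'⟩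
    · left
      rcases flat P h0 with e | ⟨hn', e⟩
      · refine inK_main hpar hre rfl rfl ?_ ?_ e
        · simp only [NumGs.M11.K1]; push_cast; linarith only [hU0']
        · simp only [NumGs.M11.K1]; push_cast; linarith only [hU1']
      · have h8 := hM.real_le hb hN A' (hN.not_tch A hn) hn' (Or.inl hC)
        exact NumGs.M11.KR_K1 (inK_real hre.1 (by linarith only [h8]) e)
    · rcases adj_cases A' D'.adj with ⟨rfl, rfl, rfl⟩ | ⟨rfl, rfl, rfl⟩
      · left
        have e := D'.own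
        refine inK_main (θ := -(16 / 100)) hpar hre rfl rfl ?_ ?_ ?_
        · simp only [NumGs.M11.K1]; norm_num
        · simp only [NumGs.M11.K1]; norm_num
        · rw [e, hm]
          simp only
          ring
      · right
        rw [Fin.rev_rev] at D'
        exact ⟨y, D'⟩
  all_goals
    left
    refine ⟨by decide, ?_⟩
  case two =>
    obtain ⟨e1, e2, e3⟩ := par_one_two A' hi hC
    have hp0 : p (.inl h') = 0 := p_zero hb hN hM A' (by rw [hi]; decide) (by rw [hC]; decide)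
      (fun x D => k12 _ hN hM hq D hi hC) (fun x D => k21 _ hN hM hq D hC hi)
    rcases flat P hp0 with e | ⟨hn', e⟩
    · right
      refine ⟨inK_main ?_ hre rfl rfl ?_ ?_ e, fun h6 => inK_main ?_ hre rfl rfl ?_ ?_ e⟩
      · rw [e1, e2, e3]; simp only [NumGs.M11.K2]; norm_num
      · simp only [NumGs.M11.K2]; push_cast; linarith only [hU0']
      · simp only [NumGs.M11.K2]; push_cast; linarith only [hU1']
      · rw [e1, e2, e3]; simp only [NumGs.M11.K2h]; norm_num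
      · simp only [NumGs.M11.K2h]; push_cast; linarith only [hS0', h6]
      · simp only [NumGs.M11.K2h]; push_cast; linarith only [hU1']
    · left
      have h8 := hM.real_le hb hN A' (hN.not_tch A hn) hn' (Or.inr (Or.inl hC))
      exact inK_real hre.1 (by linarith only [h8]) e
  case twoE =>
    obtain ⟨e1, e2, e3⟩ := par_one_twoE A' hi hC
    have hp0 : p (.inl h') = 0 := p_zero hb hN hM A' (by rw [hi]; decide) (by rw [hC]; decide)
      (fun x D => k1E _ hN hM hq D hi hC) (fun x D => kE1 _ hN hM hq D hC hi)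
    rcases flat P hp0 with e | ⟨hn', e⟩
    · refine inK_main ?_ hre rfl rfl ?_ ?_ e
      · rw [e1, e2, e3]; simp only [NumGs.M11.KEm]; norm_num
      · simp only [NumGs.M11.KEm]; push_cast; linarith only [hU0']
      · simp only [NumGs.M11.KEm]; push_cast; linarith only [hU1']
    · exact (MM.real_twoE hN A' (hN.not_tch A hn) hn' hC).elim
  case threeE =>
    obtain ⟨e1, e2, e3⟩ := par_one_threeE A' hi hC
    have hp0 : p (.inl h') = 0 := p_zero hb hN hM A' (by rw [hi]; decide) (by rw [hC]; decide)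
      (fun x D => k1e _ hN hM hq D hi hC) (fun x D => by have := D.T0; linarith only [hU0', hTj, this])
    rcases flat P hp0 with e | ⟨hn', e⟩
    · refine inK_main ?_ hre rfl rfl ?_ ?_ e
      · rw [e1, e2, e3]; simp only [NumGs.M11.K3E]; norm_num
      · simp only [NumGs.M11.K3E]; push_cast; linarith only [hU0']
      · simp only [NumGs.M11.K3E]; push_cast; linarith only [hU1']
    · refine inK_main (θ := 0) ?_ hre rfl rfl ?_ ?_ (by rw [e, zero_mul])
      · rw [e1, e2, e3]; simp only [NumGs.M11.K3E]; norm_num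
      · simp only [NumGs.M11.K3E]; norm_num
      · simp only [NumGs.M11.K3E]; norm_num
  case ring =>
    obtain ⟨e1, e2, e3⟩ := par_one_ring A' hi hC
    have hp0 : p (.inl h') = 0 := hq h' (ring_of A' (Or.inr hC))
    rcases flat P hp0 with e | ⟨hn', e⟩
    · right
      refine inK_main ?_ hre rfl rfl ?_ ?_ e
      · rw [e1, e2, e3]; simp only [NumGs.M11.KZm]; norm_num
      · simp only [NumGs.M11.KZm]; push_cast; linarith only [hU0']
      · simp only [NumGs.M11.KZm]; push_cast; linarith only [hU1']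
    · left
      exact inK_real hre.1 (by rw [e1] at hre; linarith only [hre, hre.2]) e
  case three =>
    have hp0 : p (.inl h') = 0 := p_zero hb hN hM A' (by rw [hi]; decide) (by rw [hC]; decide)
      (fun x D => by
        rcases A.slot with rfl | rfl
        · exact k13a hN hM hq D hi hC
        · exact k13b hN hM hq D hi hC fun k P A3 => by
            rw [← A.eq_of_slot A3]
            exact hn)
      (fun x D => by have := D.T0; linarith only [hU0', hTj, this])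
    rcases A.slot with rfl | rfl
    · -- the `3` is to the right
      obtain ⟨e1, e2, e3⟩ := par_one_three2 A' hi hC
      rcases flat P hp0 with e | ⟨hn', e⟩
      · right; left
        refine inK_main ?_ hre rfl rfl ?_ ?_ e
        · rw [e1, e2, e3]; simp only [NumGs.M11.K3m]; norm_num
        · simp only [NumGs.M11.K3m]; push_cast; linarith only [hU0']
        · simp only [NumGs.M11.K3m]; push_cast; linarith only [hU1']
      · left
        exact inK_real hre.1 (by rw [e1] at hre; linarith only [hre, hre.2]) e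
    · -- the `3` is to the left
      obtain ⟨e1, e2, e3⟩ := par_one_three0 A' hi hC
      rcases flat P hp0 with e | ⟨hn', e⟩
      · right; right
        refine inK_main ?_ hre rfl rfl ?_ ?_ e
        · rw [e1, e2, e3]; simp only [NumGs.M11.K3pm]; norm_num
        · simp only [NumGs.M11.K3pm]; push_cast; linarith only [hU0']
        · simp only [NumGs.M11.K3pm]; push_cast; linarith only [hU1']
      · left
        exact inK_real hre.1 (by rw [e1] at hre; linarith only [hre, hre.2]) e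

/-- the position is in the trapezoid of height `16/100` -/
theorem kl (hN : NbT b R nb) (hM : MM b zs R nb z p)
    (hq : ∀ h : Fin M, RH1 b (.inl h) → p (.inl h) = 0) (A : Adj h i s j)
    (hn : Sum.inl (Sum.inl h) ∉ nb) (A' : Adj h' i s.rev j') (hi : clsW b i = .one)
    (hj : clsW b j = .one) : InK NumGs.M11.KL (Ow b z i s.rev) := by
  rcases pos hb L k12 k21 k1E kE1 k13a k13b k1e hN hM hq A hn A' hi hj with
    ⟨hC, h1⟩ | ⟨hC, h1 | ⟨y, D'⟩⟩
  · generalize clsW b j' = Q at hC h1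
    cases Q
    · exact absurd rfl hC
    · rcases h1 with h1 | ⟨h1, -⟩
      · exact NumGs.M11.KR_KL h1
      · exact NumGs.M11.K2_KL h1
    · exact NumGs.M11.KEm_KL h1
    · rcases h1 with h1 | h1 | h1
      · exact NumGs.M11.KR_KL h1
      · exact NumGs.M11.K3_KL (NumGs.M11.K3m_K3 h1)
      · exact NumGs.M11.K3_KL (NumGs.M11.K3pm_K3 h1)
    · exact NumGs.M11.K3E_KL h1
    · rcases h1 with h1 | h1
      · exact NumGs.M11.KR_KL h1
      · exact NumGs.M11.KZ_KL (NumGs.M11.KZm_KZ h1)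
  · exact NumGs.M11.K12_KL' h1
  · obtain ⟨e1, e2, e3⟩ := par_one_one A A' hi hj hC
    have hm : ∀ q, mhs b h' q = 16 / 100 := mhs_one A' hi hC
    have e := D'.opp
    refine inK_main (b := b) (h := h') (θ := 16 / 100) ?_ ?_ rfl rfl ?_ ?_ ?_
    · rw [e1, e2, e3]
      simp only [NumGs.M11.KL]
      norm_num
    · rw [e]
      exact ⟨D'.x0.le, D'.x1.le⟩
    · simp only [NumGs.M11.KL]; norm_num
    · simp only [NumGs.M11.KL]; norm_num
    · rw [e, hm]

end other

theorem trh_t1 {XM : ℝ} (hp : wXM b h = XM ∧ wcl b h = 15 / 100 ∧ wcr b h = 20 / 100) (y : ℝ) :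
    trh b h y = t1 XM y := by
  unfold trh t1
  rw [hp.1, hp.2.1, hp.2.2]
  norm_num

theorem tgo_t1 {XM : ℝ} (hp : wXM b h = XM ∧ wcl b h = 15 / 100 ∧ wcr b h = 20 / 100) :
    tgo b zs h i c = ⟨c, Th b zs h i * t1 XM c⟩ := by
  unfold tgo
  rw [trh_t1 hp]

/-- the star inequality at a mode `1 | 1`, both sides without response -/
theorem star11 (hb : ClassW b) (hN : NbT b R nb) (hM : MM b zs R nb z p)
    (D : Md b zs nb z p h i s j x) (hi : clsW b i = .one) (hj : clsW b j = .one) {XM : ℝ}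
    (hp : wXM b h = XM ∧ wcl b h = 15 / 100 ∧ wcr b h = 20 / 100) (c : ℝ)
    (c0 : 0 ≤ c) (c1 : c ≤ XM) :
    (V1 ⟨c, Th b zs h i * t1 XM c⟩ (Ow b z i s.rev) -
        V1 ⟨x, -(16 / 100 * t1 XM x)⟩ (Ow b z i s.rev)) +
      (V1 ⟨c, -(Th b zs h i * t1 XM c)⟩ (Ow b z j s.rev.rev) -
        V1 ⟨x, 16 / 100 * t1 XM x⟩ (Ow b z j s.rev.rev)) +
      2 * Real.pi * (16 / 100 * t1 XM x) ≤ 0 := by
  have k1 := keep_one (zs := zs) (nb := nb) (z := z) (p := p) (c := c) hb D.adj hi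
  have k2 := keep_one (zs := zs) (nb := nb) (z := z) (p := p) (c := c) hb D.adj.symm hj
  have h3 := D.star hb hN.ok.1 hM c0 (by rw [hp.1]; exact c1) k1 k2
  have hm : mhs b h s = 16 / 100 := mhs_one D.adj hi hj s
  rw [D.own, D.opp, hm, trh_t1 hp, tgo_t1 hp, tgo_t1 hp, D.Tj, neg_mul] at h3
  exact h3

/-- the first order condition at a mode `1 | 1` on the right ramp -/
theorem foc11 (hb : ClassW b) (hN : NbT b R nb) (hM : MM b zs R nb z p)
    (D : Md b zs nb z p h i s j x) (hi : clsW b i = .one) (hj : clsW b j = .one) {XM : ℝ}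
    (hp : wXM b h = XM ∧ wcl b h = 15 / 100 ∧ wcr b h = 20 / 100) (hx : XM - 1 / 5 < x)
    (hA : DOk (⟨x, -(16 / 100 * t1 XM x)⟩ + Ow b z i s.rev))
    (hB : DOk (⟨x, 16 / 100 * t1 XM x⟩ + Ow b z j s.rev.rev)) :
    dh1 ⟨x, -(16 / 100 * t1 XM x)⟩ (Ow b z i s.rev) (4 / 5) +
      (dh1 ⟨x, 16 / 100 * t1 XM x⟩ (Ow b z j s.rev.rev) (-(4 / 5)) + 8 / 5 * Real.pi) = 0 := by
  have hm : mhs b h s = 16 / 100 := mhs_one D.adj hi hj s
  have hr := trh_right (b := b) (h := h) (x := x) (by rw [hp.1, hp.2.2]; linarith only [hx]) D.x1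
  have ho := D.own
  have hp' := D.opp
  rw [hm, trh_t1 hp] at ho hp'
  have ki := der_one hb D.adj hi hr.2 D.own' D.ok_own (by rw [ho]; exact hA)
  have kj := der_one hb D.adj.symm hj hr.2 D.opp D.ok_opp (by rw [hp']; exact hB)
  have h1 := D.foc hb hN.ok.1 hM ki kj hr.2
  rw [ho, hp', hm, hp.2.2] at h1
  norm_num at h1 ⊢
  linarith only [h1]

/-- the response of the other hinge of the region `j`, which is a mode -/
theorem resp11 (hb : ClassW b) (hN : NbT b R nb) (hM : MM b zs R nb z p)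
    (D : Md b zs nb z p h i s j x) (hi : clsW b i = .one) (hj : clsW b j = .one) {y : ℝ}
    (D' : Md b zs nb z p h' j' s.rev j y) (hj' : clsW b j' = .one)
    (hp : wXM b h = 80 / 100 ∧ wcl b h = 15 / 100 ∧ wcr b h = 20 / 100)
    (hp' : wXM b h' = 80 / 100 ∧ wcl b h' = 15 / 100 ∧ wcr b h' = 20 / 100) :
    (V1 ⟨3 / 10, Th b zs h i⟩ (Ow b z i s.rev) -
        V1 ⟨x, -(16 / 100 * t1 (80 / 100) x)⟩ (Ow b z i s.rev)) +
      (V1 ⟨3 / 10, -Th b zs h i⟩ ⟨3 / 10, -Th b zs h' j'⟩ -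
        V1 ⟨x, 16 / 100 * t1 (80 / 100) x⟩ ⟨y, 16 / 100 * t1 (80 / 100) y⟩ +
        (V1 ⟨3 / 10, Th b zs h' j'⟩ (Ow b z j' s.rev.rev) -
          V1 ⟨y, -(16 / 100 * t1 (80 / 100) y)⟩ (Ow b z j' s.rev.rev) +
          2 * Real.pi * (16 / 100 * t1 (80 / 100) y))) +
      2 * Real.pi * (16 / 100 * t1 (80 / 100) x) ≤ 0 := by
  have hm : mhs b h s = 16 / 100 := mhs_one D.adj hi hj s
  have hm' : mhs b h' s.rev = 16 / 100 := mhs_one D'.adj hj' hj s.rev
  have B := D.adj.symm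
  have F := FarG.one (zs := zs) (z := z) (p := p) (c := 3 / 10) hb D'.adj hj' D'.nn
    (by norm_num) (by rw [hp'.1]; norm_num)
  have k1 := keep_one (zs := zs) (nb := nb) (z := z) (p := p) (c := 3 / 10) hb D.adj hi
  have k2 := far_one (c := 3 / 10) hb B D'.adj.symm hj F
  have h3 := D.star hb hN.ok.1 hM (by norm_num) (by rw [hp.1]; norm_num) k1 k2
  have e1 : t1 (80 / 100) (3 / 10) = 1 := NumGs.M11.t1_plat (by norm_num) (by norm_num)
  have e2 : Th b zs h' j = -Th b zs h' j' := D'.Tj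
  have e3 : Ow b z j s.rev.rev = ⟨y, 16 / 100 * t1 (80 / 100) y⟩ := by
    rw [D'.opp, hm', trh_t1 hp']
  have e4 : Ow b z j' s.rev = ⟨y, -(16 / 100 * t1 (80 / 100) y)⟩ := by
    rw [D'.own, hm', trh_t1 hp']
  rw [ofr_tg, D.own, D.opp, hm, trh_t1 hp, tgo_t1 hp, tgo_t1 hp, tgo_t1 hp', tgo_t1 hp', D.Tj,
    D'.pen, hm', trh_t1 hp', e1, e2, e3, e4, mul_one, mul_one, mul_one, mul_one] at h3
  exact h3

/-! ### the kind `1 | 1` -/

section kind

variable (hb : ClassW b) (L : LocA b zs) (k12 : ∀ s, Kd b zs .one .two s)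
  (k21 : ∀ s, Kd b zs .two .one s) (k1E : ∀ s, Kd b zs .one .twoE s)
  (kE1 : ∀ s, Kd b zs .twoE .one s) (k13a : Kd b zs .one .three 2) (k13b : K13b b zs)
  (k1e : ∀ s, Kd b zs .one .threeE s)

include hb L k12 k21 k1E kE1 k13a k13b k1e

/-- a mode is not at the left -/
theorem ge40 (hN : NbT b R nb) (hM : MM b zs R nb z p)
    (hq : ∀ h : Fin M, RH1 b (.inl h) → p (.inl h) = 0) (D : Md b zs nb z p h i s j x)
    (hi : clsW b i = .one) (hj : clsW b j = .one) : 40 / 100 ≤ x ∧ Th b zs h i ≤ 8 / 100 := by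
  have B := D.adj.symm
  obtain ⟨h1, j1, A1⟩ := D.adj.other' b (clsW_inner hb (Or.inl hi))
  obtain ⟨h2, j2, A2⟩ := B.other' b (clsW_inner hb (Or.inl hj))
  have hT : Th b zs h i ≤ 8 / 100 := by
    have h3 : Th b zs h i ≤ (cw (clsW b j1) (clsW b j)).t1 := (L.X.win D.adj A1 hi).2.1
    rw [hj] at h3
    have h4 := cw_one_le (clsW b j1)
    linarith only [h3, h4]
  refine ⟨?_, hT⟩
  by_contra hx
  have hp := XM_one_one D.adj hi hj
  have hX : 80 / 100 ≤ wXM b h := by
    rw [hp.1]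
    split_ifs <;> norm_num
  exact NumGs.M11.small D.T0 hT D.x0 (by linarith only [hx]) hX
    (kl hb L k12 k21 k1E kE1 k13a k13b k1e hN hM hq D.adj D.nn A1 hi hj)
    (kl hb L k12 k21 k1E kE1 k13a k13b k1e hN hM hq B D.nn A2 hj hi)
    (star11 hb hN hM D hi hj ⟨rfl, hp.2⟩)

/-- the position of the other hinge -/
theorem pos' (hN : NbT b R nb) (hM : MM b zs R nb z p)
    (hq : ∀ h : Fin M, RH1 b (.inl h) → p (.inl h) = 0) (A : Adj h i s j)
    (hn : Sum.inl (Sum.inl h) ∉ nb) (A' : Adj h' i s.rev j') (hi : clsW b i = .one)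
    (hj : clsW b j = .one) :
    PN (clsW b j') (Th b zs h i) (Ow b z i s.rev) ∧
      ((clsW b j' = .one → InK NumGs.M11.K1 (Ow b z i s.rev)) ∨
        clsW b j' = .one ∧ ∃ y, 40 / 100 ≤ y ∧ Th b zs h' j' ≤ 8 / 100 ∧
          Md b zs nb z p h' j' s i y) := by
  rcases pos hb L k12 k21 k1E kE1 k13a k13b k1e hN hM hq A hn A' hi hj with
    ⟨hC, h1⟩ | ⟨hC, h1 | ⟨y, D'⟩⟩
  · exact ⟨h1, Or.inl fun h => absurd h hC⟩
  · refine ⟨?_, Or.inl fun _ => h1⟩
    rw [hC]
    exact Or.inl h1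
  · have h2 := ge40 hb L k12 k21 k1E kE1 k13a k13b k1e hN hM hq D' hC hi
    refine ⟨?_, Or.inr ⟨hC, y, h2.1, h2.2, D'⟩⟩
    rw [hC]
    obtain ⟨e1, e2, e3⟩ := par_one_one A A' hi hj hC
    have hm : mhs b h' s = 16 / 100 := mhs_one A' hi hC s
    have e := D'.opp
    have hpar : wXM b h' = (NumGs.M11.KU.XM : ℝ) / 1000 ∧ wcl b h' = (NumGs.M11.KU.cl : ℝ) / 1000 ∧
        wcr b h' = (NumGs.M11.KU.cr : ℝ) / 1000 := by
      rw [e1, e2, e3]
      simp only [NumGs.M11.KU]
      norm_num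
    have hx1 := D'.x1
    rw [e1] at hx1
    refine Or.inr ?_
    rw [e, hm]
    refine ⟨⟨?_, ?_⟩, ?_, ?_⟩
    · simp only [NumGs.M11.KU]; push_cast; linarith only [h2, h2.1]
    · simp only [NumGs.M11.KU]; push_cast; linarith only [hx1]
    · rw [tau_eq hpar]
      simp only [NumGs.M11.KU]
      norm_num
    · rw [tau_eq hpar]
      simp only [NumGs.M11.KU]
      norm_num

end kind

end M11

/-- **Modes `1 | 1`.** -/
theorem kind_one_one (hb : ClassW b) (L : LocA b zs) (k12 : ∀ s, Kd b zs .one .two s)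
    (k21 : ∀ s, Kd b zs .two .one s) (k1E : ∀ s, Kd b zs .one .twoE s)
    (kE1 : ∀ s, Kd b zs .twoE .one s) (k13a : Kd b zs .one .three 2) (k13b : K13b b zs)
    (k1e : ∀ s, Kd b zs .one .threeE s) (s : Fin 3) : Kd b zs .one .one s := by
  intro R nb z p h i j x hN hM hq D hi hj
  have B := D.adj.symm
  obtain ⟨h1, j1, A1⟩ := D.adj.other' b (clsW_inner hb (Or.inl hi))
  obtain ⟨h2, j2, A2⟩ := B.other' b (clsW_inner hb (Or.inl hj))
  have hx := M11.ge40 hb L k12 k21 k1E kE1 k13a k13b k1e hN hM hq D hi hj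
  have hA := M11.pos' hb L k12 k21 k1E kE1 k13a k13b k1e hN hM hq D.adj D.nn A1 hi hj
  have hB := M11.pos' hb L k12 k21 k1E kE1 k13a k13b k1e hN hM hq B D.nn A2 hj hi
  have hp := M11.XM_one_one D.adj hi hj
  have A2' : Adj h2 j s j2 := by rwa [Fin.rev_rev] at A2
  have eP : oc b i s.rev = clsW b j1 := A1.oc_eq b
  have eQ : oc b j s = clsW b j2 := A2'.oc_eq b
  rw [eP, eQ] at hp
  have hx1 := D.x1
  rcases hB.2 with hB1 | ⟨hQ, y, hy, hU, D'⟩
  · have hTA : Th b zs h i ≤ (cw (clsW b j1) (clsW b j)).t1 := (L.X.win D.adj A1 hi).2.1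
    have hTB : (cw (clsW b j2) (clsW b i)).t0 ≤ Th b zs h j := (L.X.win B A2 hj).1
    rw [hj] at hTA
    rw [hi, D.Tj] at hTB
    have hB0 := hB.1
    rw [D.Tj] at hB0
    have C : NumGs.M11.Core (clsW b j1) (clsW b j2) (Th b zs h i) x (wXM b h) (Ow b z i s.rev)
        (Ow b z j s.rev.rev) :=
      ⟨D.T0, hTA, hTB, D.x0, hx1, hp.1, by rw [← M11.trh_t1 ⟨rfl, hp.2⟩]; exact D.tp,
        M11.star11 hb hN hM D hi hj ⟨rfl, hp.2⟩, M11.foc11 hb hN hM D hi hj ⟨rfl, hp.2⟩⟩
    exact C.false hx.1 hA.1 hB0 hB1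
  · -- response
    rw [if_pos (Or.inr hQ)] at hp
    have hp2 := M11.par_one_one B A2 hj hi hQ
    have h3 := M11.resp11 hb hN hM D hi hj D' hQ hp hp2
    obtain ⟨h4, j4, A4⟩ := D'.adj.other' b (clsW_inner hb (Or.inl hQ))
    have hC := M11.pos' hb L k12 k21 k1E kE1 k13a k13b k1e hN hM hq D'.adj D'.nn A4 hQ hj
    have hy1 := D'.x1
    rw [hp.1] at hx1
    rw [hp2.1] at hy1
    have r1 := NumGs.M11.respA hx.1 hx1.le D.T0 hx.2 hA.1
    have r2 := NumGs.M11.respA hy hy1.le D'.T0 hU hC.1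
    have r3 := NumGs.M11.respB hx.1 hx1.le D.T0 hx.2 hy hy1.le D'.T0 hU
    linarith only [h3, r1, r2, r3]

end Pool.Agent.Work.MP_b30479_gtS.G2

end

section

/-!
# Mirrored paths: all kinds of hinges
-/

namespace Pool.Agent.Work.MP_b30479_gtS.G2

open Finset VOL Filter Topology

namespace SR

variable {M : ℕ} {b : Fin (M + 1) → ℤ} {zs : DD (tyW b) ⊕ ZZ (tyW b) → ℂ}

/-- **All kinds**; open: `1|3`, `3|2` (slot `0`), `3|3`. -/
theorem kindsL_all (hb : ClassW b) (L : LocA b zs) (k13 : Kd b zs .one .three 2)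
    (k13' : Kd b zs .one .three 0) (k32 : Kd b zs .three .two 0)
    (k33 : ∀ s, Kd b zs .three .three s) : KindsL b zs := by
  have k12 : ∀ s, Kd b zs .one .two s :=
    kind_one_two hb L (kind_two_two hb L) (kind_twoE_two hb L)
      (kind_two_three' hb L (kind_threeE_two hb L 0) k32) k32 (kind_three_two' hb L)
      (kind_two_threeE hb L) (kind_threeE_two hb L)
  exact
    { one_one := kind_one_one hb L k12 (kd_two_one hb L) (kd_one_twoE hb L) (kd_twoE_one hb L)
        k13 (fun hN hM hq D hi hj _ => k13' hN hM hq D hi hj) (kd_one_threeE hb L)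
      one_two := k12
      two_one := kd_two_one hb L
      one_twoE := kd_one_twoE hb L
      twoE_one := kd_twoE_one hb L
      one_three := k13
      one_threeE := kd_one_threeE hb L
      two_two := kind_two_two hb L
      twoE_two := kind_twoE_two hb L
      two_three := kind_two_three hb L
      two_three' := kind_two_three' hb L (kind_threeE_two hb L 0) k32
      three_two := k32
      three_two' := kind_three_two' hb L
      two_threeE := kind_two_threeE hb L
      threeE_two := kind_threeE_two hb L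
      twoE_twoE := kind_twoE_twoE hb L
      twoE_three := kind_twoE_three hb L
      twoE_threeE := kind_twoE_threeE hb L
      threeE_three := kind_threeE_three hb L
      threeE_threeE := kind_threeE_threeE hb L
      three_three := k33
      one_three' := fun hN hM hq D hi hj _ => k13' hN hM hq D hi hj
      loss := fun hN hM hq D hi hj _ _ _ => (k13' hN hM hq D hi hj).elim }

end SR

end Pool.Agent.Work.MP_b30479_gtS.G2

end
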