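import Pool.Agent.Work.MP_b30479_gt.TBS.G2.WM13La
import Pool.Agent.Work.MP_b30479_gt.TBS.G2.H13A
import Pool.Agent.Work.MP_b30479_gt.TBS.G2.MKJ
import Pool.Agent.Work.MP_b30479_gt.TBS.G2.MRBase
import Pool.Agent.Work.MP_b30479_gt.TBS.G2.RLevT
import Pool.Agent.Work.MP_b30479_gt.TBS.G2.RVa

section

/-!
# The kind `1 | 3`, slot `0` of the `3`, left end of the path: rows 1
-/

set_option deprecated.oldSectionVars true

namespace Pool.Agent.Work.NumGs.P13L

open P13

theorem r_gm1_0a : chkF [GE 25 (tM 0) eA 0]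
    10000 0 900 0 10000 40 0 100 0 950 0 1300 0 20000 302031175817533379513295566237496546083789062118288401196935500699610594537208635275904096731675222262291943973054745154352749233038934888914587799999760069260517212968627258225580109812386336175863370770243711761981456570579073411506854463091444706295633759596896203833732480493583114487254032257066296529054661313542591161814322189852040231373504427200434881638159747455213895333862435902168425865926545970020383407704174584869371004781850324994192901373564185003813129643527999511347478135524575013148268526475447096470165953089324220657910710530 = true := by decide +kernel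

theorem r_gm1_0b : chkF [GE 25 (tM 0) eA 0]
    10000 0 900 0 10000 40 100 500 0 950 0 100 0 20000 17962092660459392626544842044833278015684873458580357226214544765352968203678906791474688156508049504100227106766807685395764825589527940914634775338449791960093884352321021549760862593482752 = true := by decide +kernel

theorem r_gm1_0c : chkF [GE 25 (tM 0) eA 0]
    10000 0 900 0 10000 40 100 500 0 950 100 1300 0 20000 361234249636408151242912737206110029444277762005501683118106082720098170920759621608442617028964160757906806215261123308702038164027929221315175716624150611187318394471111910452134913413638344680329051779655512924188706655669768092256213212699321480669033577877177892551119616432980200725214014382476735153223522917788724859603776204997585217128448963795318369472099392893424673695622912317775991774428544168295009073307609184650779223209665999180515988088722840379541271728978821882891839961539228903949525246480402351287553981022615395976807930202594343070601895189546468990997435680517494324588543019934094447791697652273393728334539793884441739280743044090442242186202706248913948890793025486700780078181495902208782084415454239418260662550530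 = true := by decide +kernel

theorem r_gm1_1 : chkF [GE 25 (tM 0) eA 1]
    10000 0 900 0 10000 40 0 500 0 950 1300 3600 0 20000 10915526625740624373724065637005642224119933951862377740384614753598126735409556483383015806435095564033634769840796199299318146 = true := by decide +kernel

end Pool.Agent.Work.NumGs.P13L

end

section

/-!
# The kind `1 | 3`, slot `0` of the `3`, left end of the path: rows 5
-/

set_option deprecated.oldSectionVars true

namespace Pool.Agent.Work.NumGs.P13L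

open P13

theorem r_gm3_2b : chkF [GE 20 (tM 1) eB 2]
    10000 0 900 0 10000 40 1300 1600 0 950 3600 6500 0 20000 4191461094996703417788786548279691162279529133149874103881562750750856342193738628156090545080816694523726915313926634937471874895133582189870593615532911792794136534257629778516718143685733546267091682972416490479905787690996774762286253662707877481391972750969292697520363001472503675861311337850366950579559940254645555595971619491934926042135320224806085654711223739951822498070746047822780752568453107730727234972052426954493993631770364397616322865188932533981013748903078885304622326744339001645735049131369460059938947629442 = true := by decide +kernel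

theorem r_gm3_2c_q1 : Pool.Agent.Work.NumIs.runE (Pool.Agent.Work.NumGs.tst [GE 20 (tM 1) eB 2])
    0 6184752907 0 68719476736 39 10995116277 12369505814 0 6528350291 24739011624 34703335752 0 137438953474
    334629573403009695363323214258849072098170567044976409539089418511884593752217056815106160981280553347351013516722730981692869727381963667110566090418202662804126434819395563891876485515456204465916382601118693090497305837709102779156752098691851011216761126143810015602078728522068008121571303994475611031083160314478663906906495555384624008315676497846885875039543263430008370563789593569551803008855978242261885224733195886355324339627480165516541269758239534161322657304121872215155657799697649316797271423054748211427684449150280932787342915443093056589993652225986060035256940528933484950443132763554232652735637591343780769413744357119243676044249065955210145209271954592866822447528228417222997152572204773713086689052692850938016854204864386710401480717809119843859050614139141407176581428875333059134107233707671811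
    356580830688633773975223072342002648771459965027479647156483685358991792986449116564666665181779350387493328738702766035786251465660437568514707898683136220880850002677394738947222649985644213712714609897762266974008280323443265808776074574012736926414377054012441117199264045590455814579678797721129574807992794079422576496004156506373372428841689172949955345073982086374743867906712970764094992207554656468831740416102764885323383964810556951516488254642685102648943154955164029576761806647551060430832664008885870024281602948776972666384057899998282215531285217034626 = true := by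
  decide +kernel

theorem r_gm3_2c_q2 : Pool.Agent.Work.NumIs.runE (Pool.Agent.Work.NumGs.tst [GE 20 (tM 1) eB 2])
    0 6184752907 0 68719476736 39 10995116277 12369505814 0 6528350291 34703335752 44667659880 0 137438953474
    356580830688633773975223072342002648771459965027479647156483685358991792986449116564666665181779350387493328738702766035786251465660437568514707898683136220880850002677394738947222649985644213712714609897762266974008280323443265808776074574012736926414377054012441117199264045590455814579678797721129574807992794079422576496004156506373372428841689172949955345073982086374743867906712970764094992207554656468831740416102764885323383964810556951516488254642685102648943154955164029576761806647551060430832664008885870024281602948776972666384057899998282215531285217034626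
    0 = true := by
  decide +kernel

theorem r_gm3_2c : chkF [GE 20 (tM 1) eB 2]
    10000 0 900 0 10000 40 1600 1800 0 950 3600 6500 0 20000 42832585395585241006505371425132681228565832581756980421003445569521228000283783272333588605603910828460929730140509565656687325104891349390152459573529940838928183656882632178160190145978394171637296972943192715583655147226765155732064268632556929435745424146407681997066077250824705039561126911292878211978644520253268980084031431089231873064406591724401392005061537719041071432165067976902630785133565215009521308765849073453481515472317461186117282529054660372649300134927599643539924198361299112550050742151007771062743609491235959396779893176715911243519187484926215684512888387703486073656720993734941779550161611692003938484959277711263190533663880442266898586786810187886953273283613237404543635529242211035275096198744684920066157338222641498931389531879567340013958478609810100118602422896042631569165725914581991810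 = true :=
    Pool.Agent.Work.NumIs.okB_of rfl rfl rfl rfl rfl rfl rfl rfl rfl rfl rfl rfl
    (Pool.Agent.Work.NumIs.runE_split2 rfl rfl rfl
      r_gm3_2c_q1
      r_gm3_2c_q2)

theorem r_gu1_0 : chkF [GE 25 (tU 0) eU 0]
    10000 0 900 0 10000 40 0 500 0 900 0 1300 0 20000 484264334885481550624008423650044715588961559667551186557914469996482858242729510451021247988298886231135403480127274918436054703060578306301529454917573577454184491615952586056112432022579957749932904468119472755222873129428808710894873353013319674208714754 = true := by decide +kernel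

theorem r_gu2_0 : chkF [GE 25 (tU 1) eV 0]
    10000 0 900 0 10000 40 500 1000 0 900 0 1300 0 20000 66050 = true := by decide +kernel

theorem r_gu3_0 : chkF [GE 20 (tU 1) eW 0]
    10000 0 900 0 10000 40 1000 1800 0 900 0 1300 0 20000 66050 = true := by decide +kernel

theorem r_gu1_1 : chkF [GE 25 (tU 0) eU 1]
    10000 0 900 0 10000 40 0 500 0 900 1300 3600 0 20000 92061701468358503464025155723571721133436699010 = true := by decide +kernel

theorem r_gu2_1 : chkF [GE 25 (tU 1) eV 1]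
    10000 0 900 0 10000 40 500 1000 0 900 1300 3600 0 20000 66051 = true := by decide +kernel

theorem r_gu3_1 : chkF [GE 20 (tU 1) eW 1]
    10000 0 900 0 10000 40 1000 1800 0 900 1300 3600 0 20000 66051 = true := by decide +kernel

end Pool.Agent.Work.NumGs.P13L

end

section

/-!
# The kind `1 | 3`, slot `0` of the `3`: the left end of the mirrored path

For `x ≤ 3/100` the star move to one target per cell `[0, .003]`, `[.003, .01]`, `[.01, .02]`,
`[.02, .03]` gains; the inner variable is moved to `1/4` or `1/5` on its main path if it is left of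
`18/100` and kept otherwise.
-/

namespace Pool.Agent.Work.MP_b30479_gtS.G2

open VOL

namespace M13

namespace LE

open NumGs NumGs.P13 NumGs.P13L

/-! ### the far part -/

theorem V3_V2 (u v w : ℂ) : V3 u v w - V3 u v 0 = V2 v w - V2 v 0 := by
  unfold V3 V2
  simp only [Complex.sub_im, Complex.add_im, Complex.mul_im, pow_two, Complex.sub_re,
    Complex.mul_re, Complex.re_ofNat, Complex.im_ofNat, Complex.zero_re, Complex.zero_im]
  ring

theorem gG_val {L : ℤ} {t k : E} {y S a σ : ℝ} : (gG L t k).val [y, S, a, σ] =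
    G2.V2 ⟨(L : ℝ) / 100, S⟩ ⟨a, k.val [y, S, a, σ]⟩ -
      G2.V2 ⟨y, t.val [y, S, a, σ]⟩ ⟨a, k.val [y, S, a, σ]⟩ -
      (G2.V2 ⟨(L : ℝ) / 100, S⟩ 0 - G2.V2 ⟨y, t.val [y, S, a, σ]⟩ 0) := by
  unfold gG G2.V2
  simp only [add_zero, sub_zero]
  simp only [E.val, NumUs.UU_uu, Complex.add_im, Complex.sub_im, Complex.mul_im, Complex.add_re,
    Complex.sub_re, pow_two]
  simp only [NumIs.lkR_zero, NumIs.lkR_succ]
  push_cast
  ring

/-- one far row -/
def GP (L : ℤ) (t e : E) (j lo hi t0 t1 a0 a1 : ℕ) : Prop := ∀ y S a σ : ℝ,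
  (lo : ℝ) / 10000 ≤ y → y ≤ (hi : ℝ) / 10000 → ((t0 : ℝ) - 900) / 10000 ≤ S →
  S ≤ ((t1 : ℝ) - 900) / 10000 → (a0 : ℝ) / 10000 ≤ a → a ≤ (a1 : ℝ) / 10000 → -1 ≤ σ → σ ≤ 1 →
  0 < (GE L t e j).val [y, S, a, σ]

section
variable {L : ℤ} {t e : E} {j lo hi t0 t1 a0 a1 m c : ℕ}

theorem GP.of (h : chkF [GE L t e j] 10000 0 900 0 10000 40 lo hi t0 t1 a0 a1 0 20000 c = true) :
    GP L t e j lo hi t0 t1 a0 a1 := by
  intro y S a σ y0 y1 s0 s1 b0 b1 q0 q1
  obtain ⟨e', he, hp⟩ := chkF4 h (by norm_num) (x := y) (y := S) (z := a) (w := σ)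
    (by push_cast; linarith only [y0]) (by push_cast; linarith only [y1]) (by push_cast; linarith only [s0])
    (by push_cast; linarith only [s1]) (by push_cast; linarith only [b0]) (by push_cast; linarith only [b1])
    (by push_cast; linarith only [q0]) (by push_cast; linarith only [q1])
  obtain rfl := List.mem_singleton.1 he
  exact hp

theorem GP.cutY (h1 : GP L t e j lo m t0 t1 a0 a1) (h2 : GP L t e j m hi t0 t1 a0 a1) :
    GP L t e j lo hi t0 t1 a0 a1 := by
  intro y S a σ y0 y1 s0 s1 b0 b1 q0 q1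
  rcases le_total y ((m : ℝ) / 10000) with h | h
  · exact h1 y S a σ y0 h s0 s1 b0 b1 q0 q1
  · exact h2 y S a σ h y1 s0 s1 b0 b1 q0 q1

theorem GP.cutA (h1 : GP L t e j lo hi t0 t1 a0 m) (h2 : GP L t e j lo hi t0 t1 m a1) :
    GP L t e j lo hi t0 t1 a0 a1 := by
  intro y S a σ y0 y1 s0 s1 b0 b1 q0 q1
  rcases le_total a ((m : ℝ) / 10000) with h | h
  · exact h1 y S a σ y0 y1 s0 s1 b0 h q0 q1
  · exact h2 y S a σ y0 y1 s0 s1 h b1 q0 q1

end

theorem trw {a : ℝ} (h0 : 0 ≤ a) (h1 : a ≤ 65 / 100) :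
    G2.tr 0 (65 / 100) (13 / 100) (29 / 100) a =
      if a ≤ 13 / 100 then a / (13 / 100) else if a ≤ 36 / 100 then 1
        else (65 / 100 - a) / (29 / 100) := by
  unfold G2.tr
  rw [sub_zero]
  split_ifs with h2 h3
  · have e1 : a / (13 / 100) ≤ 1 := by rw [div_le_one (by norm_num)]; exact h2
    have e2 : 1 ≤ (65 / 100 - a) / (29 / 100) := by rw [le_div_iff₀ (by norm_num)]; linarith only [h2]
    have e3 : 0 ≤ a / (13 / 100) := by positivity
    rw [min_eq_left (a := a / (13 / 100)) (by linarith only [h2]), min_eq_right e1, max_eq_right e3]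
  · have e1 : 1 ≤ a / (13 / 100) := by rw [le_div_iff₀ (by norm_num)]; linarith only [h2]
    have e2 : 1 ≤ (65 / 100 - a) / (29 / 100) := by rw [le_div_iff₀ (by norm_num)]; linarith only [h3]
    rw [min_eq_left (le_min e1 e2), max_eq_right zero_le_one]
  · have e1 : 1 ≤ a / (13 / 100) := by rw [le_div_iff₀ (by norm_num)]; linarith only [h3]
    have e2 : (65 / 100 - a) / (29 / 100) ≤ 1 := by rw [div_le_one (by norm_num)]; linarith only [h3]
    have e3 : 0 ≤ (65 / 100 - a) / (29 / 100) := div_nonneg (by linarith only [h1]) (by norm_num)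
    rw [min_eq_right (a := a / (13 / 100)) (by linarith only [h3]), min_eq_right e2, max_eq_right e3]

theorem par {a k : ℝ} (h0 : 0 ≤ a) (h1 : |k| ≤ a) : ∃ θ : ℝ, -1 ≤ θ ∧ θ ≤ 1 ∧ k = θ * a := by
  rw [abs_le] at h1
  rcases eq_or_lt_of_le h0 with rfl | hc
  · exact ⟨0, by norm_num, by norm_num, by rw [mul_zero]; linarith only [h1, h1.1, h1.2]⟩
  · refine ⟨k / a, ?_, ?_, ?_⟩
    · rw [le_div_iff₀ hc]; linarith only [h1, h1.1]
    · rw [div_le_one hc]; exact h1.2
    · field_simp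

/-- the far hinge -/
theorem far_of {L : ℤ} {t e : E} {lo hi t0 t1 : ℕ} (h0 : GP L t e 0 lo hi t0 t1 0 1300)
    (h1 : GP L t e 1 lo hi t0 t1 1300 3600) (h2 : GP L t e 2 lo hi t0 t1 3600 6500)
    {y S q ε : ℝ} {w : ℂ} (y0 : (lo : ℝ) / 10000 ≤ y) (y1 : y ≤ (hi : ℝ) / 10000)
    (s0 : ((t0 : ℝ) - 900) / 10000 ≤ S) (s1 : S ≤ ((t1 : ℝ) - 900) / 10000)
    (ht : ∀ a σ : ℝ, t.val [y, S, a, σ] = q) (he : ∀ a σ : ℝ, e.val [y, S, a, σ] = ε)
    (w0 : 0 ≤ w.re) (w1 : w.re ≤ 65 / 100)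
    (w2 : |w.im| ≤ 16 / 100 * G2.tr 0 (65 / 100) (13 / 100) (29 / 100) w.re) :
    -ε < G2.V2 ⟨(L : ℝ) / 100, S⟩ w - G2.V2 ⟨y, q⟩ w -
      (G2.V2 ⟨(L : ℝ) / 100, S⟩ 0 - G2.V2 ⟨y, q⟩ 0) := by
  have key : ∀ (j : ℕ) (σ : ℝ), (wk j).val [y, S, w.re, σ] = w.im →
      0 < (GE L t e j).val [y, S, w.re, σ] → -ε < G2.V2 ⟨(L : ℝ) / 100, S⟩ w - G2.V2 ⟨y, q⟩ w -
      (G2.V2 ⟨(L : ℝ) / 100, S⟩ 0 - G2.V2 ⟨y, q⟩ 0) := by
    intro j σ hk hp
    have e1 : (GE L t e j).val [y, S, w.re, σ] = (gG L t (wk j)).val [y, S, w.re, σ] +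
      e.val [y, S, w.re, σ] := rfl
    rw [e1, gG_val, hk, ht, he] at hp
    linarith only [hp]
  rw [trw w0 w1] at w2
  split_ifs at w2 with h3 h4
  · obtain ⟨σ, a1, a2, a3⟩ := par (by positivity) w2
    refine key 0 σ ?_ (h0 y S w.re σ y0 y1 s0 s1 (by push_cast; linarith only [w0])
      (by push_cast; linarith only [h3]) a1 a2)
    rw [a3]
    show σ * (((16 : ℤ) : ℝ) / ((13 : ℕ) : ℝ) * w.re) = _
    push_cast
    ring
  · obtain ⟨σ, a1, a2, a3⟩ := par (by norm_num) w2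
    refine key 1 σ ?_ (h1 y S w.re σ y0 y1 s0 s1 (by push_cast; linarith only [h3])
      (by push_cast; linarith only [h4]) a1 a2)
    rw [a3]
    show σ * (((16 : ℤ) : ℝ) / ((100 : ℕ) : ℝ)) = _
    push_cast
    ring
  · obtain ⟨σ, a1, a2, a3⟩ := par (mul_nonneg (by norm_num) (div_nonneg (by linarith only [w1])
      (by norm_num))) w2
    refine key 2 σ ?_ (h2 y S w.re σ y0 y1 s0 s1 (by push_cast; linarith only [h4])
      (by push_cast; linarith only [w1]) a1 a2)
    rw [a3]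
    show σ * (((104 : ℤ) : ℝ) / ((290 : ℕ) : ℝ) - ((16 : ℤ) : ℝ) / ((29 : ℕ) : ℝ) * w.re) = _
    push_cast
    ring

/-! ### values -/

variable {x T y s : ℝ}

theorem UU_nim (a t : ℝ) : UU ⟨a, -t⟩ = UU ⟨a, t⟩ := NumUs.uu_neg a t

theorem f1z_val {h c tc k A : E} : (f1z h c tc k A).val [x, T, y, s] =
    G2.V1 ⟨c.val [x, T, y, s], tc.val [x, T, y, s]⟩ ⟨y, k.val [x, T, y, s]⟩ -
      G2.V1 ⟨x, -h.val [x, T, y, s]⟩ ⟨y, k.val [x, T, y, s]⟩ +
      UU ⟨x, h.val [x, T, y, s]⟩ + A.val [x, T, y, s] := by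
  unfold f1z G2.V1
  rw [UU_nim]
  simp only [E.val, NumUs.UU_uu, Complex.add_im, Complex.sub_im, Complex.mul_im, Complex.add_re]
  simp only [NumIs.lkR_zero, NumIs.lkR_succ]
  norm_num
  have e : k.val [x, T, y, s] - h.val [x, T, y, s] = -h.val [x, T, y, s] + k.val [x, T, y, s] := by
    ring
  rw [e]
  ring

theorem f1y_val {h c tc k A : E} : (f1y h c tc k A).val [x, T, y, s] =
    (f1z h c tc k A).val [x, T, y, s] - 2 * UU ⟨x, h.val [x, T, y, s]⟩ +
      2 * NumGs.P13L.bx.val [x, T, y, s] - Real.pi * h.val [x, T, y, s] := by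
  unfold f1y f1z
  simp only [E.val, NumUs.UU_uu, NumIs.lkR_zero]
  norm_num
  ring

theorem g3k_val {h c tc l A : E} : (g3k h c tc l A).val [x, T, y, s] =
    G2.V3 ⟨c.val [x, T, y, s], -tc.val [x, T, y, s]⟩ ⟨y, l.val [x, T, y, s]⟩ 0 -
      G2.V3 ⟨x, h.val [x, T, y, s]⟩ ⟨y, l.val [x, T, y, s]⟩ 0 -
      UU ⟨x, h.val [x, T, y, s]⟩ + 2 * Real.pi * h.val [x, T, y, s] - A.val [x, T, y, s] := by
  unfold g3k G2.V3
  rw [UU_nim]
  simp only [add_zero, sub_zero]
  simp only [E.val, NumUs.UU_uu, Complex.sub_im, Complex.mul_im, Complex.sub_re, Complex.add_im,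
    Complex.mul_re, pow_two, Complex.re_ofNat, Complex.im_ofNat, sub_neg_eq_add]
  simp only [NumIs.lkR_zero, NumIs.lkR_succ]
  norm_num
  ring

theorem g3v_val {L : ℤ} {h c tc l pn e A : E} : (g3v L h c tc l pn e A).val [x, T, y, s] =
    G2.V3 ⟨c.val [x, T, y, s], -tc.val [x, T, y, s]⟩ ⟨(L : ℝ) / 100, s⟩ 0 -
      G2.V3 ⟨x, h.val [x, T, y, s]⟩ ⟨y, l.val [x, T, y, s]⟩ 0 -
      UU ⟨x, h.val [x, T, y, s]⟩ + 2 * Real.pi * h.val [x, T, y, s] +
      2 * Real.pi * pn.val [x, T, y, s] - e.val [x, T, y, s] - A.val [x, T, y, s] := by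
  unfold g3v G2.V3
  rw [UU_nim]
  simp only [add_zero, sub_zero]
  simp only [E.val, NumUs.UU_uu, Complex.sub_im, Complex.mul_im, Complex.sub_re, Complex.add_im,
    Complex.mul_re, pow_two, Complex.re_ofNat, Complex.im_ofNat, sub_neg_eq_add]
  simp only [NumIs.lkR_zero, NumIs.lkR_succ]
  push_cast
  ring

theorem h_val : (hh 0).val [x, T, y, s] = 50 / 13 * x := by
  simp only [hh, E.val, NumIs.lkR_zero]
  norm_num

/-- target and price -/
noncomputable def cR (i : It) : ℝ := (i.c : ℝ) / 10000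
noncomputable def AR (i : It) (x T : ℝ) : ℝ :=
  (i.a0 : ℝ) / 10000 + (i.a1 : ℝ) / 100 * x + (i.a2 : ℝ) / 100 * T

variable {i : It}

theorem c_val : i.cE.val [x, T, y, s] = cR i := by
  unfold It.cE cR
  simp only [E.val]
  norm_num

theorem A_val : i.A.val [x, T, y, s] = AR i x T := by
  unfold It.A AR
  simp only [E.val, NumIs.lkR_zero, NumIs.lkR_succ]
  norm_num

theorem t_val (h0 : 0 ≤ i.c) (h1 : i.c < 1300) : i.tE.val [x, T, y, s] = T * τ (cR i) := by
  have h2 : (i.c : ℝ) ≤ 1300 := by exact_mod_cast h1.le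
  have h3 : (0 : ℝ) ≤ (i.c : ℝ) := by exact_mod_cast h0
  unfold It.tE
  rw [if_neg (not_le.2 h1), tau_left (by unfold cR; positivity) (by unfold cR; linarith only [h2])]
  simp only [E.val, NumIs.lkR_zero, NumIs.lkR_succ]
  unfold cR
  norm_num
  ring

theorem k_val : kW.val [x, T, y, s] = 16 / 100 * s * G2.tr 0 (86 / 100) (14 / 100) (20 / 100) y := by
  unfold kW
  simp only [E.val, E.tr_val (show 0 < 140 by norm_num) (show 0 < 200 by norm_num)
    (show ((140 : ℕ) : ℤ) + ((200 : ℕ) : ℤ) ≤ 860 by norm_num), NumIs.lkR_zero, NumIs.lkR_succ]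
  norm_num

/-- lower bound of `UU u` near `0` -/
theorem uu_low (h0 : 0 < x) (h1 : x < 1) :
    NumGs.P13L.bx.val [x, T, y, s] ≤ UU ⟨x, 50 / 13 * x⟩ + Real.pi * (50 / 13 * x) / 2 := by
  have ht : (0 : ℝ) < 50 / 13 * x := by positivity
  obtain ⟨ξ, -, -, he⟩ := NumXs.mvt (t := 50 / 13 * x) h0 h1
  rw [abs_of_pos ht] at he
  have e0 : UU ⟨x, 50 / 13 * x⟩ = NumUs.uu x (50 / 13 * x) := rfl
  rw [e0, he]
  have h2 := (NumXs.lnA_near (ξ := ξ) ht.ne').1
  rw [abs_of_pos ht] at h2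
  have hp := Real.pi_gt_d4
  have h3 : Real.pi * (50 / 13 * x) ≤ Real.sinh (Real.pi * (50 / 13 * x)) :=
    Real.self_le_sinh_iff.2 (by positivity)
  have h4 : Real.log (241 / 10 * x) ≤ Real.log (2 * Real.sinh (Real.pi * (50 / 13 * x))) := by
    refine Real.log_le_log (by positivity) ?_
    nlinarith only [h3, h0, h1, hp]
  -- tangents of `x log (24.1 x)`
  have tan : ∀ n : ℝ, -(n * x + Real.exp (-(n + 1)) / (241 / 10)) ≤
      x * Real.log (241 / 10 * x) := by
    intro n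
    have h5 := Real.one_sub_inv_le_log_of_pos
      (show 0 < 241 / 10 * x * Real.exp (n + 1) by positivity)
    rw [Real.log_mul (by positivity) (Real.exp_pos _).ne', Real.log_exp] at h5
    have h6 := mul_le_mul_of_nonneg_left h5 h0.le
    have h7 : x * (241 / 10 * x * Real.exp (n + 1))⁻¹ = Real.exp (-(n + 1)) / (241 / 10) := by
      rw [Real.exp_neg]
      field_simp
    rw [mul_sub, h7] at h6
    linarith only [h6]
  have x4 : Real.exp (-(4 + 1)) / (241 / 10) ≤ 28 / 100000 := by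
    have h5 := Real.exp_one_gt_d9
    have h6 : Real.exp (4 + 1) = Real.exp 1 ^ 5 := by
      rw [← Real.exp_nat_mul]
      norm_num
    rw [Real.exp_neg, h6]
    have h8 : (Real.exp 1 ^ 5)⁻¹ ≤ ((2.7182818283 : ℝ) ^ 5)⁻¹ := by gcongr
    refine (div_le_div_of_nonneg_right h8 (by norm_num)).trans ?_
    norm_num
  have x2 : Real.exp (-(2 + 1)) / (241 / 10) ≤ 207 / 100000 := by
    have h5 := Real.exp_one_gt_d9
    have h6 : Real.exp (2 + 1) = Real.exp 1 ^ 3 := by
      rw [← Real.exp_nat_mul]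
      norm_num
    rw [Real.exp_neg, h6]
    have h8 : (Real.exp 1 ^ 3)⁻¹ ≤ ((2.7182818283 : ℝ) ^ 3)⁻¹ := by gcongr
    refine (div_le_div_of_nonneg_right h8 (by norm_num)).trans ?_
    norm_num
  have t4 := tan 4
  have t2 := tan 2
  have h9 : x * Real.log (241 / 10 * x) ≤ x * NumIs.lnA ξ (50 / 13 * x) :=
    mul_le_mul_of_nonneg_left (h4.trans h2) h0.le
  refine le_trans ?_ h9
  have e : NumGs.P13L.bx.val [x, T, y, s] = -(2 * x + 207 / 100000) +
      max (-(4 * x + 28 / 100000) - -(2 * x + 207 / 100000)) 0 := by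
    unfold NumGs.P13L.bx E.mx
    simp only [E.val, NumIs.lkR_zero]
    norm_num
  rw [e]
  have h10 : max (-(4 * x + 28 / 100000) - -(2 * x + 207 / 100000)) 0 ≤
      x * Real.log (241 / 10 * x) + (2 * x + 207 / 100000) := max_le (by linarith only [x4, t4]) (by linarith only [x2, t2])
  linarith only [h10]

/-! ### the rows of a cell -/

/-- the rows of a cell `[x0, x1]` -/
structure Cell (i : It) (x0 x1 : ℕ) : Prop where
  c0 : 0 ≤ i.c
  c1 : i.c < 1300
  r1 : ∀ x T y s : ℝ, (x0 : ℝ) / 10000 ≤ x → x ≤ (x1 : ℝ) / 10000 → 0 < x → 21 / 1000 ≤ T →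
    T ≤ 1145 / 10000 → 0 ≤ y → y ≤ 86 / 100 → -1 ≤ s → s ≤ 1 → 0 < (R1 i).val [x, T, y, s]
  m1 : ∃ c, chkF [RV i 25 (mM 0) (.q 0 1) eA, xU, xD] 10000 0 0 0 900 40
    x0 x1 210 1145 0 500 0 950 c = true
  m2 : ∃ c, chkF [RV i 25 (mM 1) (.q 0 1) eA, xU, xD] 10000 0 0 0 900 40
    x0 x1 210 1145 500 1000 0 950 c = true
  m3 : ∃ c, chkF [RV i 20 (mM 1) (.q 0 1) eB, xU, xD] 10000 0 0 0 900 40
    x0 x1 210 1145 1000 1800 0 950 c = true
  u1 : ∃ c, chkF [RV i 25 (mU 0) (mU 0) e2U, xU, xD] 10000 0 0 0 900 40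
    x0 x1 210 1145 0 500 0 900 c = true
  u2 : ∃ c, chkF [RV i 25 (mU 1) (mU 1) eV, xU, xD] 10000 0 0 0 900 40
    x0 x1 210 1145 500 1000 0 900 c = true
  u3 : ∃ c, chkF [RV i 20 (mU 1) (mU 1) eW, xU, xD] 10000 0 0 0 900 40
    x0 x1 210 1145 1000 1800 0 900 c = true
  d1 : ∃ c, chkF [RV i 25 (mD 0) (mU 0) eA, xU, xD] 10000 0 0 0 900 40
    x0 x1 210 1145 0 500 900 950 c = true
  d2 : ∃ c, chkF [RV i 25 (mD 1) (mU 1) eA, xU, xD] 10000 0 0 0 900 40
    x0 x1 210 1145 500 1000 900 950 c = true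
  d3 : ∃ c, chkF [RV i 20 (mD 1) (mU 1) eC, xU, xD] 10000 0 0 0 900 40
    x0 x1 210 1145 1000 1800 900 950 c = true
  km : ∃ c, chkF [RK i lM, xU, xD] 10000 0 0 0 900 40 x0 x1 210 1145 1800 8000 0 950 c = true
  ku : ∃ c, chkF [RK i NumGs.P13.lU, xU, xD] 10000 0 0 0 900 40
    x0 x1 210 1145 1800 8000 0 900 c = true
  kd : ∃ c, chkF [RK i lD, xU, xD] 10000 0 0 0 900 40 x0 x1 210 1145 1800 8000 900 950 c = true

theorem R1_of {i : It} {x0 x1 c : ℕ}
    (h : chkF [R1 i] 10000 0 0 0 10000 40 x0 x1 210 1145 0 8600 0 20000 c = true) (x T y s : ℝ)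
    (hx0 : (x0 : ℝ) / 10000 ≤ x) (hx1 : x ≤ (x1 : ℝ) / 10000) (ua1 : 0 < x) (T0 : 21 / 1000 ≤ T)
    (T1 : T ≤ 1145 / 10000) (y0 : 0 ≤ y) (y1 : y ≤ 86 / 100) (s0 : -1 ≤ s) (s1 : s ≤ 1) :
    0 < (R1 i).val [x, T, y, s] := by
  obtain ⟨e', he, hp⟩ := chkF4 h (by norm_num) (x := x) (y := T) (z := y) (w := s)
    (by push_cast; linarith only [hx0]) (by push_cast; linarith only [hx1]) (by push_cast; linarith only [T0])
    (by push_cast; linarith only [T1]) (by push_cast; linarith only [y0]) (by push_cast; linarith only [y1])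
    (by push_cast; linarith only [s0]) (by push_cast; linarith only [s1])
  obtain rfl := List.mem_singleton.1 he
  exact hp

theorem R1y_of {i : It} {c c' : ℕ}
    (h : chkF [R1y i] 10000 0 0 0 10000 40 0 30 210 1145 0 100 0 20000 c = true)
    (h' : chkF [R1y i] 10000 0 0 0 10000 40 0 30 210 1145 100 8600 0 20000 c' = true)
    (x T y s : ℝ)
    (ua1 : ((0 : ℕ) : ℝ) / 10000 ≤ x) (hx1 : x ≤ ((30 : ℕ) : ℝ) / 10000) (hx : 0 < x)
    (T0 : 21 / 1000 ≤ T)
    (T1 : T ≤ 1145 / 10000) (y0 : 0 ≤ y) (y1 : y ≤ 86 / 100) (s0 : -1 ≤ s) (s1 : s ≤ 1) :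
    0 < (R1 i).val [x, T, y, s] := by
  push_cast at hx1
  have hp : 0 < (R1y i).val [x, T, y, s] := by
    rcases le_total y (1 / 100) with hy | hy
    · obtain ⟨e', he, hp⟩ := chkF4 h (by norm_num) (x := x) (y := T) (z := y) (w := s)
        (by push_cast; linarith only [hx]) (by push_cast; linarith only [hx1]) (by push_cast; linarith only [T0])
        (by push_cast; linarith only [T1]) (by push_cast; linarith only [y0]) (by push_cast; linarith only [hy])
        (by push_cast; linarith only [s0]) (by push_cast; linarith only [s1])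
      obtain rfl := List.mem_singleton.1 he
      exact hp
    · obtain ⟨e', he, hp⟩ := chkF4 h' (by norm_num) (x := x) (y := T) (z := y) (w := s)
        (by push_cast; linarith only [hx]) (by push_cast; linarith only [hx1]) (by push_cast; linarith only [T0])
        (by push_cast; linarith only [T1]) (by push_cast; linarith only [hy]) (by push_cast; linarith only [y1])
        (by push_cast; linarith only [s0]) (by push_cast; linarith only [s1])
      obtain rfl := List.mem_singleton.1 he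
      exact hp
  unfold R1y at hp
  rw [f1y_val, h_val] at hp
  have h2 := uu_low (T := T) (y := y) (s := s) hx (by linarith only [hx1, hx])
  unfold R1
  linarith only [hp, h2]

/-- outside the windows -/
theorem win {e : E} (h : ∃ e' ∈ [e, xU, xD], 0 < e'.val [x, T, y, s])
    (h0 : -(45 / 1000) ≤ s + T) (h1 : s + T ≤ 84 / 1000) : 0 < e.val [x, T, y, s] := by
  obtain ⟨e', he, hp⟩ := h
  rw [List.mem_cons, List.mem_cons, List.mem_singleton] at he
  rcases he with rfl | rfl | rfl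
  · exact hp
  · exfalso
    unfold xU at hp
    simp only [E.val, NumIs.lkR_zero, NumIs.lkR_succ] at hp
    norm_num at hp
    linarith only [h1, hp]
  · exfalso
    unfold xD at hp
    simp only [E.val, NumIs.lkR_zero, NumIs.lkR_succ] at hp
    norm_num at hp
    linarith only [h0, hp]

/-- a row of the `3` -/
theorem row3 {e : E} {x0 x1 a b t0 t1 : ℕ}
    (h : ∃ c, chkF [e, xU, xD] 10000 0 0 0 900 40 x0 x1 210 1145 a b t0 t1 c = true)
    (hx0 : (x0 : ℝ) / 10000 ≤ x) (hx1 : x ≤ (x1 : ℝ) / 10000) (T0 : 21 / 1000 ≤ T)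
    (T1 : T ≤ 1145 / 10000) (y0 : (a : ℝ) / 10000 ≤ y) (y1 : y ≤ (b : ℝ) / 10000)
    (s0 : ((t0 : ℝ) - 900) / 10000 ≤ s) (s1 : s ≤ ((t1 : ℝ) - 900) / 10000)
    (h0 : -(45 / 1000) ≤ s + T) (h1 : s + T ≤ 84 / 1000) : 0 < e.val [x, T, y, s] := by
  obtain ⟨c, hc⟩ := h
  exact win (chkF4 hc (by norm_num) (x := x) (y := T) (z := y) (w := s)
    (by push_cast; linarith only [hx0]) (by push_cast; linarith only [hx1]) (by push_cast; linarith only [T0])
    (by push_cast; linarith only [T1]) (by push_cast; linarith only [y0]) (by push_cast; linarith only [y1])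
    (by push_cast; linarith only [s0]) (by push_cast; linarith only [s1])) h0 h1

theorem li_of {L : ℤ} {S : ℝ} (h0 : 5 ≤ L) (h1 : L ≤ 75) : li S ((L : ℝ) / 100) =
    ⟨(L : ℝ) / 100, S⟩ := by
  have a0 : (5 : ℝ) ≤ (L : ℝ) := by exact_mod_cast h0
  have a1 : (L : ℝ) ≤ 75 := by exact_mod_cast h1
  unfold li τl tr
  rw [sub_zero, min_eq_left (le_min ((one_le_div (by norm_num)).2 (by linarith only [a0]))
    ((one_le_div (by norm_num)).2 (by linarith only [a1]))), max_eq_right zero_le_one, mul_one]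

theorem tl_a {y : ℝ} (h0 : 0 ≤ y) (h1 : y ≤ 5 / 100) : τl y = 20 * y := by
  unfold τl tr
  have e1 : y / (5 / 100) ≤ 1 := by rw [div_le_one (by norm_num)]; exact h1
  have e2 : 1 ≤ (8 / 10 - y) / (5 / 100) := by rw [le_div_iff₀ (by norm_num)]; linarith only [h1]
  have e3 : 0 ≤ y / (5 / 100) := by positivity
  rw [sub_zero, min_eq_left (e1.trans e2), min_eq_right e1, max_eq_right e3]
  ring

theorem tl_b {y : ℝ} (h0 : 5 / 100 ≤ y) (h1 : y ≤ 75 / 100) : τl y = 1 := by
  unfold τl tr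
  rw [sub_zero, min_eq_left (le_min ((one_le_div (by norm_num)).2 (by linarith only [h0]))
    ((one_le_div (by norm_num)).2 (by linarith only [h1]))), max_eq_right zero_le_one]

variable {Tl pl : ℝ} {k l w : ℂ}

/-- the comparison, inner variable moved -/
theorem cmp_v (h : H x T Tl pl k l w) {L : ℤ} (L0 : 5 ≤ L) (L1 : L ≤ 75) {c A ε : ℝ}
    (c0 : 0 ≤ c) (c1 : c ≤ 13 / 100)
    (h1 : 0 < G2.V1 (cm T c) k - G2.V1 (um x) k + UU (up x) + A)
    (h3 : 0 < G2.V3 (cp T c) ⟨(L : ℝ) / 100, Tl⟩ 0 - G2.V3 (up x) l 0 - UU (up x) +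
      2 * Real.pi * (1 / 2 * τ x) + 2 * Real.pi * pl - ε - A)
    (hG : -ε < G2.V2 ⟨(L : ℝ) / 100, Tl⟩ w - G2.V2 l w -
      (G2.V2 ⟨(L : ℝ) / 100, Tl⟩ 0 - G2.V2 l 0)) : False := by
  have a0 : (5 : ℝ) ≤ (L : ℝ) := by exact_mod_cast L0
  have a1 : (L : ℝ) ≤ 75 := by exact_mod_cast L1
  have h5 := h.resp c ((L : ℝ) / 100) c0 (by linarith only [c1]) (by positivity) (by linarith only [a1])
  rw [li_of L0 L1] at h5
  have e1 := V3_V2 (cp T c) ⟨(L : ℝ) / 100, Tl⟩ w
  have e2 := V3_V2 (up x) l w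
  linarith only [h1, h3, hG, h5, e1, e2]

/-- the comparison, inner variable kept -/
theorem cmp_k (h : H x T Tl pl k l w) {c A : ℝ} (c0 : 0 ≤ c) (c1 : c ≤ 13 / 100)
    (h1 : 0 < G2.V1 (cm T c) k - G2.V1 (um x) k + UU (up x) + A)
    (h3 : 0 < G2.V3 (cp T c) l 0 - G2.V3 (up x) l 0 - UU (up x) +
      2 * Real.pi * (1 / 2 * τ x) - A) : False := by
  have h5 := h.keep c c0 (by linarith only [c1])
  have e1 := V3_V2 (cp T c) l w
  have e2 := V3_V2 (up x) l w
  linarith only [h1, h3, h5, e1, e2]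

theorem tr01 (XM cl cr x : ℝ) : 0 ≤ G2.tr 0 XM cl cr x ∧ G2.tr 0 XM cl cr x ≤ 1 :=
  ⟨le_max_left _ _, max_le zero_le_one (min_le_left _ _)⟩

/-- all positions of the other hinge -/
theorem kW_of (h : H x T Tl pl k l w) : 21 / 1000 ≤ T ∧ T ≤ 1145 / 10000 ∧
    ∃ κ : ℝ, -1 ≤ κ ∧ κ ≤ 1 ∧ k.im = NumGs.P13.kW.val [x, T, k.re, κ] := by
  have key : ∀ {c : ℝ}, |k.im| ≤ 16 / 100 * c →
      c ≤ G2.tr 0 (86 / 100) (14 / 100) (20 / 100) k.re →
      ∃ κ : ℝ, -1 ≤ κ ∧ κ ≤ 1 ∧ k.im = NumGs.P13.kW.val [x, T, k.re, κ] := by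
    intro c h1 h2
    have h3 := (tr01 (86 / 100) (14 / 100) (20 / 100) k.re).1
    obtain ⟨κ, a, b, e⟩ := par (mul_nonneg (by norm_num) h3)
      (h1.trans (mul_le_mul_of_nonneg_left h2 (by norm_num : (0 : ℝ) ≤ 16 / 100)))
    refine ⟨κ, a, b, ?_⟩
    rw [k_val, e]
    ring
  have wide : ∀ {XM cl cr : ℝ}, 0 ≤ k.re → k.re ≤ XM → 14 / 100 ≤ cl →
      (∀ y, 0 ≤ y → y ≤ XM → (XM - y) / cr ≤ (86 / 100 - y) / (20 / 100)) →
      G2.tr 0 XM cl cr k.re ≤ G2.tr 0 (86 / 100) (14 / 100) (20 / 100) k.re := by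
    intro XM cl cr k0 k1 c2 c3
    unfold G2.tr
    refine max_le_max le_rfl (min_le_min le_rfl (min_le_min ?_ (c3 _ k0 k1)))
    rw [sub_zero]
    exact div_le_div_of_nonneg_left k0 (by norm_num) c2
  cases h.kp with
  | one a b c d e =>
    refine ⟨a, by linarith only [b], key e (wide c d (by norm_num) ?_)⟩
    intro y _ _
    rfl
  | two a b c d e =>
    refine ⟨by linarith only [a], by linarith only [b], key e (wide c d (by norm_num) ?_)⟩
    intro y y0 y1
    rw [div_le_div_iff₀ (by norm_num) (by norm_num)]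
    linarith only [y1]
  | em a b c d e =>
    obtain ⟨s, s0, s1, e⟩ := e
    refine ⟨by linarith only [a], b, key (c := G2.tr 0 (70 / 100) (14 / 100) (35 / 100) k.re) ?_
      (wide c d (by norm_num) ?_)⟩
    · have h1 := (tr01 (70 / 100) (14 / 100) (35 / 100) k.re).1
      rw [e, abs_mul, abs_of_nonneg h1]
      refine mul_le_mul_of_nonneg_right ?_ h1
      rw [abs_of_nonpos s1]
      linarith only [s0]
    · intro y y0 y1
      rw [div_le_div_iff₀ (by norm_num) (by norm_num)]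
      linarith only [y1]
  | eu a b c d e =>
    refine ⟨by linarith only [a], b, key (c := G2.tr 0 (70 / 100) (14 / 100) (35 / 100) k.re) ?_
      (wide c d (by norm_num) ?_)⟩
    · have h1 := (tr01 (70 / 100) (14 / 100) (35 / 100) k.re).1
      rw [e, abs_of_nonneg (by positivity)]
    · intro y y0 y1
      rw [div_le_div_iff₀ (by norm_num) (by norm_num)]
      linarith only [y1]

/-! ### the far rows -/

theorem far_m1 {y S : ℝ} {w : ℂ} (y0 : 0 ≤ y) (y1 : y ≤ 5 / 100) (s0 : -(90 / 1000) ≤ S) (s1 : S ≤ 5 / 1000)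
    (w0 : 0 ≤ w.re) (w1 : w.re ≤ 65 / 100)
    (w2 : |w.im| ≤ 16 / 100 * G2.tr 0 (65 / 100) (13 / 100) (29 / 100) w.re) :
    -(20 / 1000) < G2.V2 ⟨((25 : ℤ) : ℝ) / 100, S⟩ w - G2.V2 ⟨y, S * (20 * y)⟩ w -
      (G2.V2 ⟨((25 : ℤ) : ℝ) / 100, S⟩ 0 - G2.V2 ⟨y, S * (20 * y)⟩ 0) := by
  refine far_of (t := tM 0) (e := eA) (lo := 0) (hi := 500) (t0 := 0) (t1 := 950)
    ((GP.of r_gm1_0a).cutY ((GP.of r_gm1_0b).cutA (GP.of r_gm1_0c)))
    (GP.of r_gm1_1) (GP.of r_gm1_2) ?_ ?_ ?_ ?_ ?_ ?_ w0 w1 w2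
  · push_cast; linarith only [y0]
  · push_cast; linarith only [y1]
  · push_cast; linarith only [s0]
  · push_cast; linarith only [s1]
  · intro a σ
    show S * (((20 : ℤ) : ℝ) / ((1 : ℕ) : ℝ) * y) = _
    push_cast
    ring
  · intro a σ
    show ((20 : ℤ) : ℝ) / ((1000 : ℕ) : ℝ) = _
    push_cast
    ring

theorem far_m2 {y S : ℝ} {w : ℂ} (y0 : 5 / 100 ≤ y) (y1 : y ≤ 10 / 100) (s0 : -(90 / 1000) ≤ S) (s1 : S ≤ 5 / 1000)
    (w0 : 0 ≤ w.re) (w1 : w.re ≤ 65 / 100)
    (w2 : |w.im| ≤ 16 / 100 * G2.tr 0 (65 / 100) (13 / 100) (29 / 100) w.re) :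
    -(20 / 1000) < G2.V2 ⟨((25 : ℤ) : ℝ) / 100, S⟩ w - G2.V2 ⟨y, S⟩ w -
      (G2.V2 ⟨((25 : ℤ) : ℝ) / 100, S⟩ 0 - G2.V2 ⟨y, S⟩ 0) := by
  refine far_of (t := tM 1) (e := eA) (lo := 500) (hi := 1000) (t0 := 0) (t1 := 950)
    (GP.of r_gm2_0)
    (GP.of r_gm2_1) (GP.of r_gm2_2) ?_ ?_ ?_ ?_ ?_ ?_ w0 w1 w2
  · push_cast; linarith only [y0]
  · push_cast; linarith only [y1]
  · push_cast; linarith only [s0]
  · push_cast; linarith only [s1]
  · intro a σ
    show S * (((1 : ℤ) : ℝ) / ((1 : ℕ) : ℝ)) = _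
    push_cast
    ring
  · intro a σ
    show ((20 : ℤ) : ℝ) / ((1000 : ℕ) : ℝ) = _
    push_cast
    ring

theorem far_m3 {y S : ℝ} {w : ℂ} (y0 : 10 / 100 ≤ y) (y1 : y ≤ 18 / 100) (s0 : -(90 / 1000) ≤ S) (s1 : S ≤ 5 / 1000)
    (w0 : 0 ≤ w.re) (w1 : w.re ≤ 65 / 100)
    (w2 : |w.im| ≤ 16 / 100 * G2.tr 0 (65 / 100) (13 / 100) (29 / 100) w.re) :
    -(6 / 1000) < G2.V2 ⟨((20 : ℤ) : ℝ) / 100, S⟩ w - G2.V2 ⟨y, S⟩ w -
      (G2.V2 ⟨((20 : ℤ) : ℝ) / 100, S⟩ 0 - G2.V2 ⟨y, S⟩ 0) := by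
  refine far_of (t := tM 1) (e := eB) (lo := 1000) (hi := 1800) (t0 := 0) (t1 := 950)
    ((GP.of r_gm3_0a).cutY ((GP.of r_gm3_0b).cutY ((GP.of r_gm3_0c).cutY (GP.of r_gm3_0d))))
    (GP.of r_gm3_1) ((GP.of r_gm3_2a).cutY ((GP.of r_gm3_2b).cutY (GP.of r_gm3_2c))) ?_ ?_ ?_ ?_ ?_ ?_ w0 w1 w2
  · push_cast; linarith only [y0]
  · push_cast; linarith only [y1]
  · push_cast; linarith only [s0]
  · push_cast; linarith only [s1]
  · intro a σ
    show S * (((1 : ℤ) : ℝ) / ((1 : ℕ) : ℝ)) = _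
    push_cast
    ring
  · intro a σ
    show ((6 : ℤ) : ℝ) / ((1000 : ℕ) : ℝ) = _
    push_cast
    ring

theorem far_u1 {y S : ℝ} {w : ℂ} (y0 : 0 ≤ y) (y1 : y ≤ 5 / 100) (s0 : -(90 / 1000) ≤ S) (s1 : S ≤ 0)
    (w0 : 0 ≤ w.re) (w1 : w.re ≤ 65 / 100)
    (w2 : |w.im| ≤ 16 / 100 * G2.tr 0 (65 / 100) (13 / 100) (29 / 100) w.re) :
    -(30 / 1000 + 12 * y) < G2.V2 ⟨((25 : ℤ) : ℝ) / 100, S⟩ w - G2.V2 ⟨y, 16 / 100 * (20 * y)⟩ w -
      (G2.V2 ⟨((25 : ℤ) : ℝ) / 100, S⟩ 0 - G2.V2 ⟨y, 16 / 100 * (20 * y)⟩ 0) := by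
  refine far_of (t := tU 0) (e := eU) (lo := 0) (hi := 500) (t0 := 0) (t1 := 900)
    (GP.of r_gu1_0)
    (GP.of r_gu1_1) (GP.of r_gu1_2) ?_ ?_ ?_ ?_ ?_ ?_ w0 w1 w2
  · push_cast; linarith only [y0]
  · push_cast; linarith only [y1]
  · push_cast; linarith only [s0]
  · push_cast; linarith only [s1]
  · intro a σ
    show ((16 : ℤ) : ℝ) / ((100 : ℕ) : ℝ) * (((20 : ℤ) : ℝ) / ((1 : ℕ) : ℝ) * y) = _
    push_cast
    ring
  · intro a σ
    show ((30 : ℤ) : ℝ) / ((1000 : ℕ) : ℝ) + ((12 : ℤ) : ℝ) / ((1 : ℕ) : ℝ) * y = _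
    push_cast
    ring

theorem far_u2 {y S : ℝ} {w : ℂ} (y0 : 5 / 100 ≤ y) (y1 : y ≤ 10 / 100) (s0 : -(90 / 1000) ≤ S) (s1 : S ≤ 0)
    (w0 : 0 ≤ w.re) (w1 : w.re ≤ 65 / 100)
    (w2 : |w.im| ≤ 16 / 100 * G2.tr 0 (65 / 100) (13 / 100) (29 / 100) w.re) :
    -(630 / 1000) < G2.V2 ⟨((25 : ℤ) : ℝ) / 100, S⟩ w - G2.V2 ⟨y, 16 / 100⟩ w -
      (G2.V2 ⟨((25 : ℤ) : ℝ) / 100, S⟩ 0 - G2.V2 ⟨y, 16 / 100⟩ 0) := by
  refine far_of (t := tU 1) (e := eV) (lo := 500) (hi := 1000) (t0 := 0) (t1 := 900)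
    (GP.of r_gu2_0)
    (GP.of r_gu2_1) (GP.of r_gu2_2) ?_ ?_ ?_ ?_ ?_ ?_ w0 w1 w2
  · push_cast; linarith only [y0]
  · push_cast; linarith only [y1]
  · push_cast; linarith only [s0]
  · push_cast; linarith only [s1]
  · intro a σ
    show ((16 : ℤ) : ℝ) / ((100 : ℕ) : ℝ) * (((1 : ℤ) : ℝ) / ((1 : ℕ) : ℝ)) = _
    push_cast
    ring
  · intro a σ
    show ((630 : ℤ) : ℝ) / ((1000 : ℕ) : ℝ) = _
    push_cast
    ring

theorem far_u3 {y S : ℝ} {w : ℂ} (y0 : 10 / 100 ≤ y) (y1 : y ≤ 18 / 100) (s0 : -(90 / 1000) ≤ S) (s1 : S ≤ 0)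
    (w0 : 0 ≤ w.re) (w1 : w.re ≤ 65 / 100)
    (w2 : |w.im| ≤ 16 / 100 * G2.tr 0 (65 / 100) (13 / 100) (29 / 100) w.re) :
    -(610 / 1000) < G2.V2 ⟨((20 : ℤ) : ℝ) / 100, S⟩ w - G2.V2 ⟨y, 16 / 100⟩ w -
      (G2.V2 ⟨((20 : ℤ) : ℝ) / 100, S⟩ 0 - G2.V2 ⟨y, 16 / 100⟩ 0) := by
  refine far_of (t := tU 1) (e := eW) (lo := 1000) (hi := 1800) (t0 := 0) (t1 := 900)
    (GP.of r_gu3_0)
    (GP.of r_gu3_1) (GP.of r_gu3_2) ?_ ?_ ?_ ?_ ?_ ?_ w0 w1 w2
  · push_cast; linarith only [y0]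
  · push_cast; linarith only [y1]
  · push_cast; linarith only [s0]
  · push_cast; linarith only [s1]
  · intro a σ
    show ((16 : ℤ) : ℝ) / ((100 : ℕ) : ℝ) * (((1 : ℤ) : ℝ) / ((1 : ℕ) : ℝ)) = _
    push_cast
    ring
  · intro a σ
    show ((610 : ℤ) : ℝ) / ((1000 : ℕ) : ℝ) = _
    push_cast
    ring

theorem far_d1 {y S : ℝ} {w : ℂ} (y0 : 0 ≤ y) (y1 : y ≤ 5 / 100) (s0 : 0 ≤ S) (s1 : S ≤ 5 / 1000)
    (w0 : 0 ≤ w.re) (w1 : w.re ≤ 65 / 100)
    (w2 : |w.im| ≤ 16 / 100 * G2.tr 0 (65 / 100) (13 / 100) (29 / 100) w.re) :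
    -(20 / 1000) < G2.V2 ⟨((25 : ℤ) : ℝ) / 100, S⟩ w - G2.V2 ⟨y, -(16 / 100 * (20 * y))⟩ w -
      (G2.V2 ⟨((25 : ℤ) : ℝ) / 100, S⟩ 0 - G2.V2 ⟨y, -(16 / 100 * (20 * y))⟩ 0) := by
  refine far_of (t := tD 0) (e := eA) (lo := 0) (hi := 500) (t0 := 900) (t1 := 950)
    ((GP.of r_gd1_0a).cutA (GP.of r_gd1_0b))
    (GP.of r_gd1_1) (GP.of r_gd1_2) ?_ ?_ ?_ ?_ ?_ ?_ w0 w1 w2
  · push_cast; linarith only [y0]
  · push_cast; linarith only [y1]
  · push_cast; linarith only [s0]
  · push_cast; linarith only [s1]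
  · intro a σ
    show -(((16 : ℤ) : ℝ) / ((100 : ℕ) : ℝ) * (((20 : ℤ) : ℝ) / ((1 : ℕ) : ℝ) * y)) = _
    push_cast
    ring
  · intro a σ
    show ((20 : ℤ) : ℝ) / ((1000 : ℕ) : ℝ) = _
    push_cast
    ring

theorem far_d2 {y S : ℝ} {w : ℂ} (y0 : 5 / 100 ≤ y) (y1 : y ≤ 10 / 100) (s0 : 0 ≤ S) (s1 : S ≤ 5 / 1000)
    (w0 : 0 ≤ w.re) (w1 : w.re ≤ 65 / 100)
    (w2 : |w.im| ≤ 16 / 100 * G2.tr 0 (65 / 100) (13 / 100) (29 / 100) w.re) :
    -(20 / 1000) < G2.V2 ⟨((25 : ℤ) : ℝ) / 100, S⟩ w - G2.V2 ⟨y, -(16 / 100)⟩ w -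
      (G2.V2 ⟨((25 : ℤ) : ℝ) / 100, S⟩ 0 - G2.V2 ⟨y, -(16 / 100)⟩ 0) := by
  refine far_of (t := tD 1) (e := eA) (lo := 500) (hi := 1000) (t0 := 900) (t1 := 950)
    (GP.of r_gd2_0)
    (GP.of r_gd2_1) (GP.of r_gd2_2) ?_ ?_ ?_ ?_ ?_ ?_ w0 w1 w2
  · push_cast; linarith only [y0]
  · push_cast; linarith only [y1]
  · push_cast; linarith only [s0]
  · push_cast; linarith only [s1]
  · intro a σ
    show -(((16 : ℤ) : ℝ) / ((100 : ℕ) : ℝ) * (((1 : ℤ) : ℝ) / ((1 : ℕ) : ℝ))) = _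
    push_cast
    ring
  · intro a σ
    show ((20 : ℤ) : ℝ) / ((1000 : ℕ) : ℝ) = _
    push_cast
    ring

theorem far_d3 {y S : ℝ} {w : ℂ} (y0 : 10 / 100 ≤ y) (y1 : y ≤ 18 / 100) (s0 : 0 ≤ S) (s1 : S ≤ 5 / 1000)
    (w0 : 0 ≤ w.re) (w1 : w.re ≤ 65 / 100)
    (w2 : |w.im| ≤ 16 / 100 * G2.tr 0 (65 / 100) (13 / 100) (29 / 100) w.re) :
    -(30 / 1000) < G2.V2 ⟨((20 : ℤ) : ℝ) / 100, S⟩ w - G2.V2 ⟨y, -(16 / 100)⟩ w -
      (G2.V2 ⟨((20 : ℤ) : ℝ) / 100, S⟩ 0 - G2.V2 ⟨y, -(16 / 100)⟩ 0) := by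
  refine far_of (t := tD 1) (e := eC) (lo := 1000) (hi := 1800) (t0 := 900) (t1 := 950)
    (GP.of r_gd3_0)
    (GP.of r_gd3_1) (GP.of r_gd3_2) ?_ ?_ ?_ ?_ ?_ ?_ w0 w1 w2
  · push_cast; linarith only [y0]
  · push_cast; linarith only [y1]
  · push_cast; linarith only [s0]
  · push_cast; linarith only [s1]
  · intro a σ
    show -(((16 : ℤ) : ℝ) / ((100 : ℕ) : ℝ) * (((1 : ℤ) : ℝ) / ((1 : ℕ) : ℝ))) = _
    push_cast
    ring
  · intro a σ
    show ((30 : ℤ) : ℝ) / ((1000 : ℕ) : ℝ) = _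
    push_cast
    ring

/-! ### the cells -/

theorem half_tau (x0 : 0 ≤ x) (x1 : x ≤ 13 / 100) : 1 / 2 * τ x = 50 / 13 * x := by
  rw [tau_left x0 x1]
  ring

theorem c_mem (h0 : 0 ≤ i.c) (h1 : i.c < 1300) : 0 ≤ cR i ∧ cR i ≤ 13 / 100 := by
  have h2 : (i.c : ℝ) ≤ 1300 := by exact_mod_cast h1.le
  have h3 : (0 : ℝ) ≤ (i.c : ℝ) := by exact_mod_cast h0
  unfold cR
  constructor
  · positivity
  · linarith only [h2]

theorem RV_val (h0 : 0 ≤ i.c) (h1 : i.c < 1300) (x0 : 0 ≤ x) (x1 : x ≤ 13 / 100) {L : ℤ}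
    {le pn e : E} : (RV i L le pn e).val [x, T, y, s] =
    G2.V3 (cp T (cR i)) ⟨(L : ℝ) / 100, s⟩ 0 - G2.V3 (up x) ⟨y, le.val [x, T, y, s]⟩ 0 - UU (up x) +
      2 * Real.pi * (1 / 2 * τ x) + 2 * Real.pi * pn.val [x, T, y, s] - e.val [x, T, y, s] -
      AR i x T := by
  unfold RV up
  rw [g3v_val, c_val, t_val h0 h1, h_val, A_val, half_tau x0 x1]
  rfl

theorem RK_val (h0 : 0 ≤ i.c) (h1 : i.c < 1300) (x0 : 0 ≤ x) (x1 : x ≤ 13 / 100)
    {le : E} : (RK i le).val [x, T, y, s] =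
    G2.V3 (cp T (cR i)) ⟨y, le.val [x, T, y, s]⟩ 0 - G2.V3 (up x) ⟨y, le.val [x, T, y, s]⟩ 0 -
      UU (up x) + 2 * Real.pi * (1 / 2 * τ x) - AR i x T := by
  unfold RK up
  rw [g3k_val, c_val, t_val h0 h1, h_val, A_val, half_tau x0 x1]
  rfl

theorem R1_val (h0 : 0 ≤ i.c) (h1 : i.c < 1300) (x0 : 0 ≤ x) (x1 : x ≤ 13 / 100) :
    (R1 i).val [x, T, y, s] =
    G2.V1 (cm T (cR i)) ⟨y, NumGs.P13.kW.val [x, T, y, s]⟩ -
      G2.V1 (um x) ⟨y, NumGs.P13.kW.val [x, T, y, s]⟩ + UU (up x) + AR i x T := by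
  unfold R1 up um
  rw [f1z_val, c_val, t_val h0 h1, h_val, A_val, half_tau x0 x1]
  rfl

theorem l8_val : (E.tr 800 50 50 (.var 2)).val [x, T, y, s] = τl y := by
  unfold τl
  rw [E.tr_val (by norm_num) (by norm_num) (by norm_num)]
  simp only [E.val, NumIs.lkR_zero, NumIs.lkR_succ]
  norm_num

/-- moved inner variable -/
theorem Cell.mv {x0 x1 : ℕ} (C : Cell i x0 x1) (h : H x T Tl pl k l w)
    (hx1 : x ≤ 13 / 100)
    (h1 : 0 < G2.V1 (cm T (cR i)) k - G2.V1 (um x) k + UU (up x) + AR i x T)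
    {L : ℤ} (L0 : 5 ≤ L) (L1 : L ≤ 75) {le pn e : E} {q : ℝ} (hq : l.im = q)
    (hle : le.val [x, T, l.re, Tl] = q)
    (hpn : pn.val [x, T, l.re, Tl] = pl) {ε : ℝ} (he : e.val [x, T, l.re, Tl] = ε)
    (hp : 0 < (RV i L le pn e).val [x, T, l.re, Tl])
    (hG : -ε < G2.V2 ⟨(L : ℝ) / 100, Tl⟩ w - G2.V2 ⟨l.re, q⟩ w -
      (G2.V2 ⟨(L : ℝ) / 100, Tl⟩ 0 - G2.V2 ⟨l.re, q⟩ 0)) : False := by
  have hc := c_mem C.c0 C.c1
  rw [RV_val C.c0 C.c1 h.x0.le hx1, hle, hpn, he] at hp
  have el : (⟨l.re, q⟩ : ℂ) = l := Complex.ext rfl hq.symm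
  rw [el] at hp hG
  exact cmp_v h L0 L1 hc.1 hc.2 h1 hp hG

/-- kept inner variable -/
theorem Cell.kp {x0 x1 : ℕ} (C : Cell i x0 x1) (h : H x T Tl pl k l w)
    (hx1 : x ≤ 13 / 100)
    (h1 : 0 < G2.V1 (cm T (cR i)) k - G2.V1 (um x) k + UU (up x) + AR i x T)
    {le : E} (hle : le.val [x, T, l.re, Tl] = l.im)
    (hp : 0 < (RK i le).val [x, T, l.re, Tl]) : False := by
  have hc := c_mem C.c0 C.c1
  rw [RK_val C.c0 C.c1 h.x0.le hx1, hle] at hp
  exact cmp_k h hc.1 hc.2 h1 hp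

theorem Cell.out {x0 x1 : ℕ} (C : Cell i x0 x1) (h : H x T Tl pl k l w)
    (a0 : (x0 : ℝ) / 10000 ≤ x) (a1 : x ≤ (x1 : ℝ) / 10000) (hx1 : x ≤ 13 / 100) : False := by
  obtain ⟨T0, T1, κ, q0, q1, hk⟩ := kW_of h
  have hkr := h.k_re
  have h1 := C.r1 x T k.re κ a0 a1 h.x0 T0 T1 hkr.1 hkr.2 q0 q1
  rw [R1_val C.c0 C.c1 h.x0.le hx1, ← hk] at h1
  have s0 := h.s0
  have s1 := h.s1
  have t0 := h.t0
  have t1 := h.t1
  have l0 := h.l0
  have l1 := h.l1
  cases h.lp with
  | main p1 p2 =>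
    rcases le_total l.re (5 / 100) with r1 | r1
    · rw [tl_a l0 r1] at p1
      refine C.mv h hx1 h1 (by norm_num) (by norm_num) p1 ?_ ?_ ?_
        (row3 C.m1 a0 a1 T0 T1 (by push_cast; linarith only [l0]) (by push_cast; linarith only [r1])
          (by push_cast; linarith only [t0]) (by push_cast; linarith only [t1]) s0 s1)
        (far_m1 l0 r1 t0 t1 h.w0 h.w1 h.w2)
      · show Tl * (((20 : ℤ) : ℝ) / ((1 : ℕ) : ℝ) * l.re) = _
        push_cast
        ring
      · rw [p2]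
        show ((0 : ℤ) : ℝ) / ((1 : ℕ) : ℝ) = _
        push_cast
        norm_num
      · show ((20 : ℤ) : ℝ) / ((1000 : ℕ) : ℝ) = _
        push_cast
        ring
    rcases le_total l.re (10 / 100) with r2 | r2
    · rw [tl_b r1 (by linarith only [l1, r2]), mul_one] at p1
      refine C.mv h hx1 h1 (by norm_num) (by norm_num) p1 ?_ ?_ ?_
        (row3 C.m2 a0 a1 T0 T1 (by push_cast; linarith only [r1]) (by push_cast; linarith only [r2])
          (by push_cast; linarith only [t0]) (by push_cast; linarith only [t1]) s0 s1)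
        (far_m2 r1 r2 t0 t1 h.w0 h.w1 h.w2)
      · show Tl * (((1 : ℤ) : ℝ) / ((1 : ℕ) : ℝ)) = _
        push_cast
        ring
      · rw [p2]
        show ((0 : ℤ) : ℝ) / ((1 : ℕ) : ℝ) = _
        push_cast
        norm_num
      · show ((20 : ℤ) : ℝ) / ((1000 : ℕ) : ℝ) = _
        push_cast
        ring
    rcases le_total l.re (18 / 100) with r3 | r3
    · rw [tl_b r1 (by linarith only [l1, r3]), mul_one] at p1
      refine C.mv h hx1 h1 (by norm_num) (by norm_num) p1 ?_ ?_ ?_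
        (row3 C.m3 a0 a1 T0 T1 (by push_cast; linarith only [r2]) (by push_cast; linarith only [r3])
          (by push_cast; linarith only [t0]) (by push_cast; linarith only [t1]) s0 s1)
        (far_m3 r2 r3 t0 t1 h.w0 h.w1 h.w2)
      · show Tl * (((1 : ℤ) : ℝ) / ((1 : ℕ) : ℝ)) = _
        push_cast
        ring
      · rw [p2]
        show ((0 : ℤ) : ℝ) / ((1 : ℕ) : ℝ) = _
        push_cast
        norm_num
      · show ((6 : ℤ) : ℝ) / ((1000 : ℕ) : ℝ) = _
        push_cast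
        ring
    · refine C.kp h hx1 h1 ?_ (row3 C.km a0 a1 T0 T1 (by push_cast; linarith only [r3])
        (by push_cast; linarith only [l1]) (by push_cast; linarith only [t0]) (by push_cast; linarith only [t1]) s0 s1)
      rw [p1]
      show Tl * (E.tr 800 50 50 (.var 2)).val [x, T, l.re, Tl] = _
      rw [l8_val]
  | up p0 p1 p2 =>
    rcases le_total l.re (5 / 100) with r1 | r1
    · rw [tl_a l0 r1] at p1 p2
      refine C.mv h hx1 h1 (by norm_num) (by norm_num) p1 ?_ ?_ ?_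
        (row3 C.u1 a0 a1 T0 T1 (by push_cast; linarith only [l0]) (by push_cast; linarith only [r1])
          (by push_cast; linarith only [t0]) (by push_cast; linarith only [p0]) s0 s1)
        (far_u1 l0 r1 t0 p0 h.w0 h.w1 h.w2)
      · show ((16 : ℤ) : ℝ) / ((100 : ℕ) : ℝ) * (((20 : ℤ) : ℝ) / ((1 : ℕ) : ℝ) * l.re) = _
        push_cast
        ring
      · rw [p2]
        show ((16 : ℤ) : ℝ) / ((100 : ℕ) : ℝ) * (((20 : ℤ) : ℝ) / ((1 : ℕ) : ℝ) * l.re) = _
        push_cast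
        ring
      · show ((30 : ℤ) : ℝ) / ((1000 : ℕ) : ℝ) + ((12 : ℤ) : ℝ) / ((1 : ℕ) : ℝ) * l.re = _
        push_cast
        ring
    rcases le_total l.re (10 / 100) with r2 | r2
    · rw [tl_b r1 (by linarith only [l1, r2]), mul_one] at p1 p2
      refine C.mv h hx1 h1 (by norm_num) (by norm_num) p1 ?_ ?_ ?_
        (row3 C.u2 a0 a1 T0 T1 (by push_cast; linarith only [r1]) (by push_cast; linarith only [r2])
          (by push_cast; linarith only [t0]) (by push_cast; linarith only [p0]) s0 s1)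
        (far_u2 r1 r2 t0 p0 h.w0 h.w1 h.w2)
      · show ((16 : ℤ) : ℝ) / ((100 : ℕ) : ℝ) * (((1 : ℤ) : ℝ) / ((1 : ℕ) : ℝ)) = _
        push_cast
        ring
      · rw [p2]
        show ((16 : ℤ) : ℝ) / ((100 : ℕ) : ℝ) * (((1 : ℤ) : ℝ) / ((1 : ℕ) : ℝ)) = _
        push_cast
        ring
      · show ((630 : ℤ) : ℝ) / ((1000 : ℕ) : ℝ) = _
        push_cast
        ring
    rcases le_total l.re (18 / 100) with r3 | r3
    · rw [tl_b r1 (by linarith only [l1, r3]), mul_one] at p1 p2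
      refine C.mv h hx1 h1 (by norm_num) (by norm_num) p1 ?_ ?_ ?_
        (row3 C.u3 a0 a1 T0 T1 (by push_cast; linarith only [r2]) (by push_cast; linarith only [r3])
          (by push_cast; linarith only [t0]) (by push_cast; linarith only [p0]) s0 s1)
        (far_u3 r2 r3 t0 p0 h.w0 h.w1 h.w2)
      · show ((16 : ℤ) : ℝ) / ((100 : ℕ) : ℝ) * (((1 : ℤ) : ℝ) / ((1 : ℕ) : ℝ)) = _
        push_cast
        ring
      · rw [p2]
        show ((16 : ℤ) : ℝ) / ((100 : ℕ) : ℝ) * (((1 : ℤ) : ℝ) / ((1 : ℕ) : ℝ)) = _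
        push_cast
        ring
      · show ((610 : ℤ) : ℝ) / ((1000 : ℕ) : ℝ) = _
        push_cast
        ring
    · refine C.kp h hx1 h1 ?_ (row3 C.ku a0 a1 T0 T1 (by push_cast; linarith only [r3])
        (by push_cast; linarith only [l1]) (by push_cast; linarith only [t0]) (by push_cast; linarith only [p0]) s0 s1)
      rw [p1]
      show ((16 : ℤ) : ℝ) / ((100 : ℕ) : ℝ) *
        (E.tr 800 50 50 (.var 2)).val [x, T, l.re, Tl] = _
      rw [l8_val]
      push_cast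
      ring
  | dn p0 p1 p2 =>
    rcases le_total l.re (5 / 100) with r1 | r1
    · rw [tl_a l0 r1] at p1 p2
      refine C.mv h hx1 h1 (by norm_num) (by norm_num) p1 ?_ ?_ ?_
        (row3 C.d1 a0 a1 T0 T1 (by push_cast; linarith only [l0]) (by push_cast; linarith only [r1])
          (by push_cast; linarith only [p0]) (by push_cast; linarith only [t1]) s0 s1)
        (far_d1 l0 r1 p0 t1 h.w0 h.w1 h.w2)
      · show -(((16 : ℤ) : ℝ) / ((100 : ℕ) : ℝ) * (((20 : ℤ) : ℝ) / ((1 : ℕ) : ℝ) * l.re)) = _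
        push_cast
        ring
      · rw [p2]
        show ((16 : ℤ) : ℝ) / ((100 : ℕ) : ℝ) * (((20 : ℤ) : ℝ) / ((1 : ℕ) : ℝ) * l.re) = _
        push_cast
        ring
      · show ((20 : ℤ) : ℝ) / ((1000 : ℕ) : ℝ) = _
        push_cast
        ring
    rcases le_total l.re (10 / 100) with r2 | r2
    · rw [tl_b r1 (by linarith only [l1, r2]), mul_one] at p1 p2
      refine C.mv h hx1 h1 (by norm_num) (by norm_num) p1 ?_ ?_ ?_
        (row3 C.d2 a0 a1 T0 T1 (by push_cast; linarith only [r1]) (by push_cast; linarith only [r2])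
          (by push_cast; linarith only [p0]) (by push_cast; linarith only [t1]) s0 s1)
        (far_d2 r1 r2 p0 t1 h.w0 h.w1 h.w2)
      · show -(((16 : ℤ) : ℝ) / ((100 : ℕ) : ℝ) * (((1 : ℤ) : ℝ) / ((1 : ℕ) : ℝ))) = _
        push_cast
        ring
      · rw [p2]
        show ((16 : ℤ) : ℝ) / ((100 : ℕ) : ℝ) * (((1 : ℤ) : ℝ) / ((1 : ℕ) : ℝ)) = _
        push_cast
        ring
      · show ((20 : ℤ) : ℝ) / ((1000 : ℕ) : ℝ) = _
        push_cast
        ring
    rcases le_total l.re (18 / 100) with r3 | r3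
    · rw [tl_b r1 (by linarith only [l1, r3]), mul_one] at p1 p2
      refine C.mv h hx1 h1 (by norm_num) (by norm_num) p1 ?_ ?_ ?_
        (row3 C.d3 a0 a1 T0 T1 (by push_cast; linarith only [r2]) (by push_cast; linarith only [r3])
          (by push_cast; linarith only [p0]) (by push_cast; linarith only [t1]) s0 s1)
        (far_d3 r2 r3 p0 t1 h.w0 h.w1 h.w2)
      · show -(((16 : ℤ) : ℝ) / ((100 : ℕ) : ℝ) * (((1 : ℤ) : ℝ) / ((1 : ℕ) : ℝ))) = _
        push_cast
        ring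
      · rw [p2]
        show ((16 : ℤ) : ℝ) / ((100 : ℕ) : ℝ) * (((1 : ℤ) : ℝ) / ((1 : ℕ) : ℝ)) = _
        push_cast
        ring
      · show ((30 : ℤ) : ℝ) / ((1000 : ℕ) : ℝ) = _
        push_cast
        ring
    · refine C.kp h hx1 h1 ?_ (row3 C.kd a0 a1 T0 T1 (by push_cast; linarith only [r3])
        (by push_cast; linarith only [l1]) (by push_cast; linarith only [p0]) (by push_cast; linarith only [t1]) s0 s1)
      rw [p1]
      show -(((16 : ℤ) : ℝ) / ((100 : ℕ) : ℝ) *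
        (E.tr 800 50 50 (.var 2)).val [x, T, l.re, Tl]) = _
      rw [l8_val]
      push_cast
      ring

theorem cellA : Cell iA 0 30 where
  c0 := by unfold iA it; norm_num
  c1 := by unfold iA it; norm_num
  r1 := R1y_of r_sA1a r_sA1b
  m1 := ⟨_, r_sAm1⟩
  m2 := ⟨_, r_sAm2⟩
  m3 := ⟨_, r_sAm3⟩
  u1 := ⟨_, r_sAu1⟩
  u2 := ⟨_, r_sAu2⟩
  u3 := ⟨_, r_sAu3⟩
  d1 := ⟨_, r_sAd1⟩
  d2 := ⟨_, r_sAd2⟩
  d3 := ⟨_, r_sAd3⟩
  km := ⟨_, r_sAkm⟩
  ku := ⟨_, r_sAku⟩
  kd := ⟨_, r_sAkd⟩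

theorem cellB : Cell iB 30 100 where
  c0 := by unfold iB it; norm_num
  c1 := by unfold iB it; norm_num
  r1 := R1_of r_sB1
  m1 := ⟨_, r_sBm1⟩
  m2 := ⟨_, r_sBm2⟩
  m3 := ⟨_, r_sBm3⟩
  u1 := ⟨_, r_sBu1⟩
  u2 := ⟨_, r_sBu2⟩
  u3 := ⟨_, r_sBu3⟩
  d1 := ⟨_, r_sBd1⟩
  d2 := ⟨_, r_sBd2⟩
  d3 := ⟨_, r_sBd3⟩
  km := ⟨_, r_sBkm⟩
  ku := ⟨_, r_sBku⟩
  kd := ⟨_, r_sBkd⟩

theorem cellC : Cell iC 100 200 where
  c0 := by unfold iC it; norm_num
  c1 := by unfold iC it; norm_num
  r1 := R1_of r_sC1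
  m1 := ⟨_, r_sCm1⟩
  m2 := ⟨_, r_sCm2⟩
  m3 := ⟨_, r_sCm3⟩
  u1 := ⟨_, r_sCu1⟩
  u2 := ⟨_, r_sCu2⟩
  u3 := ⟨_, r_sCu3⟩
  d1 := ⟨_, r_sCd1⟩
  d2 := ⟨_, r_sCd2⟩
  d3 := ⟨_, r_sCd3⟩
  km := ⟨_, r_sCkm⟩
  ku := ⟨_, r_sCku⟩
  kd := ⟨_, r_sCkd⟩

theorem cellD : Cell iD 200 300 where
  c0 := by unfold iD it; norm_num
  c1 := by unfold iD it; norm_num
  r1 := R1_of r_sD1
  m1 := ⟨_, r_sDm1⟩
  m2 := ⟨_, r_sDm2⟩
  m3 := ⟨_, r_sDm3⟩
  u1 := ⟨_, r_sDu1⟩
  u2 := ⟨_, r_sDu2⟩
  u3 := ⟨_, r_sDu3⟩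
  d1 := ⟨_, r_sDd1⟩
  d2 := ⟨_, r_sDd2⟩
  d3 := ⟨_, r_sDd3⟩
  km := ⟨_, r_sDkm⟩
  ku := ⟨_, r_sDku⟩
  kd := ⟨_, r_sDkd⟩

end LE

/-- **Left end of the mirrored path of the hinge `1 | 3`, slot `0` of the `3`.** -/
theorem endL {x T Tl pl : ℝ} {k l w : ℂ} (h : H x T Tl pl k l w) (hx : x ≤ 3 / 100) : False := by
  have h0 := h.x0
  rcases le_total x (3 / 1000) with h1 | h1
  · exact LE.cellA.out h (by push_cast; linarith only [h0]) (by push_cast; linarith only [h1]) (by linarith only [h0, h1])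
  rcases le_total x (1 / 100) with h2 | h2
  · exact LE.cellB.out h (by push_cast; linarith only [h1]) (by push_cast; linarith only [h2]) (by linarith only [h0, h2])
  rcases le_total x (2 / 100) with h3 | h3
  · exact LE.cellC.out h (by push_cast; linarith only [h2]) (by push_cast; linarith only [h3]) (by linarith only [h0, h3])
  · exact LE.cellD.out h (by push_cast; linarith only [h3]) (by push_cast; linarith only [hx]) (by linarith only [hx, h0])

end M13

end Pool.Agent.Work.MP_b30479_gtS.G2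

end
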