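import Pool.Agent.Work.MP_b30479_gt.TBS.G2.WM13RE
import Pool.Agent.Work.MP_b30479_gt.TBS.G2.MKJ
import Pool.Agent.Work.MP_b30479_gt.TBS.G2.WM13R3
import Pool.Agent.Work.MP_b30479_gt.TBS.G2.WM13R4
import Pool.Agent.Work.MP_b30479_gt.TBS.G2.WM13R5
import Pool.Agent.Work.MP_b30479_gt.TBS.G2.WM13R7

section

/-!
# Kind `1 | 3`, slot `0`, right end: rows
-/

set_option deprecated.oldSectionVars true

namespace Pool.Agent.Work.NumGs

namespace R13

theorem r_C_1G0 : chkD [f1e iC_0 vy kG, f1l iC_0 vy kG, .of (f1z iC_1 vy kG)]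
  100000 0 0 0 100000 44 63000 65000 2100 9400 0 86000 0 200000
  226127105068002158988782987101275445620163362671527245640373226997374091411174995099125072979525028744583296083568136730574394596227074913020226905941345690328009369762931052788083077582351756572869739642944654194523223286678257856398837944510665123337895203499868995509517431575389043990525764920604060844419 = true := by decide +kernel

theorem r_C_1s : chkD [.of (f1z iC_1 ys hR)]
  100000 0 0 0 0 44 63000 65000 2100 9400 0 0 0 0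
  4 = true := by decide +kernel

theorem r_C_3_0_m0 : chkD (lK iC_0 lM)
  100000 0 0 0 9000 44 63000 65000 2100 9400 50000 60000 0 9500
  428027155067732222887794367483082703234 = true := by decide +kernel

theorem r_C_3_0_m1 : chkD (lK iC_0 lM)
  100000 0 0 0 9000 44 63000 65000 2100 9400 60000 70000 0 8000
  484257060603886257983862495165506471244135403768656313497960834086825650478789149202962039327930850729568353353639147838984625520659819390376384315253674614072676726396696502550648873578471891550047205695235269287287426952264448999156829270525137268393378178 = true := by decide +kernel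

theorem r_C_3_0_m2 : chkD (lK iC_0 lM)
  100000 0 0 0 9000 44 63000 65000 2100 9400 70000 75000 0 9500
  22162576572675 = true := by decide +kernel

theorem r_C_3_0_m3 : chkD (lK iC_0 lM)
  100000 0 0 0 9000 44 63000 65000 2100 9400 75000 80000 0 9500
  5 = true := by decide +kernel

theorem r_C_3_1_m0 : chkD (lY iC_1 lM)
  100000 0 0 0 9000 44 63000 65000 2100 9400 50000 60000 0 9500
  290499837684679042 = true := by decide +kernel

theorem r_C_3_1_m1 : chkD (lY iC_1 lM)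
  100000 0 0 0 9000 44 63000 65000 2100 9400 60000 70000 0 8000
  290499837953081347 = true := by decide +kernel

theorem r_C_3_1_m2 : chkD (lY iC_1 lM)
  100000 0 0 0 9000 44 63000 65000 2100 9400 70000 75000 0 9500
  1082196227 = true := by decide +kernel

theorem r_C_3_1_m3 : chkD (lY iC_1 lM)
  100000 0 0 0 9000 44 63000 65000 2100 9400 75000 80000 0 9500
  66050 = true := by decide +kernel

theorem r_U_1G0 : chkD [f1e iU_0 vy kG, f1l iU_0 vy kG, .of (f1z iU_1 vy kG), f1e iU_2 vy kG, f1l iU_2 vy kG]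
  100000 0 0 0 100000 44 63000 65000 2100 9400 0 15000 0 200000
  3116220834815231996550732377798974609015183962421005252895009778197119234 = true := by decide +kernel

theorem r_U_1G1 : chkD [f1e iU_0 vy kG, f1l iU_0 vy kG, .of (f1z iU_1 vy kG), f1e iU_2 vy kG, f1l iU_2 vy kG]
  100000 0 0 0 100000 44 63000 65000 2100 9400 15000 33000 0 200000
  369493730482312803889987879824726035736799432201725323882861582095065951659944261024418167334922512050200223416684299761334966389209448458907832081760642 = true := by decide +kernel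

theorem r_U_1G2 : chkD [f1e iU_0 vy kG, f1l iU_0 vy kG, .of (f1z iU_1 vy kG), f1e iU_2 vy kG, f1l iU_2 vy kG]
  100000 0 0 0 100000 44 63000 65000 2100 9400 33000 39000 0 200000
  5177537059432649518270320382141939582628758481398469619108397896399516866588416508815209031507670386158084629858983699321725481474591913906987486675080352094298206407374741886857692096164454099477836373864911381338290959088890805011982930054974256013506843283069754894464358630367462194415673261929788826064093187 = true := by decide +kernel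

theorem r_U_1G3 : chkD [f1e iU_0 vy kG, f1l iU_0 vy kG, .of (f1z iU_1 vy kG), f1e iU_2 vy kG, f1l iU_2 vy kG]
  100000 0 0 0 100000 44 63000 65000 2100 9400 39000 66000 0 200000
  128315284068252277326981116092027893463362696168889650151898239834725215127511572341113090 = true := by decide +kernel

theorem r_U_1G4 : chkD [f1e iU_0 vy kG, f1l iU_0 vy kG, .of (f1z iU_1 vy kG), f1e iU_2 vy kG, f1l iU_2 vy kG]
  100000 0 0 0 100000 44 63000 65000 2100 9400 66000 86000 0 200000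
  77978113732368672363708802 = true := by decide +kernel

theorem r_U_1s : chkD [.of (f1z iU_1 ys hR)]
  100000 0 0 0 0 44 63000 65000 2100 9400 0 0 0 0
  4 = true := by decide +kernel

theorem r_U_3_0_u0 : chkD (lR iU_0 lU fU)
  100000 0 0 0 9000 44 63000 65000 2100 9400 0 1000 0 9000
  1508338911282146872994393809275948162091222780903682 = true := by decide +kernel

theorem r_U_3_0_u1 : chkD (lR iU_0 lU fU)
  100000 0 0 0 9000 44 63000 65000 2100 9400 1000 3000 0 9000
  1350566400 = true := by decide +kernel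

theorem r_U_3_0_u2 : chkD (lR iU_0 lU fU)
  100000 0 0 0 9000 44 63000 65000 2100 9400 3000 10000 0 9000
  5 = true := by decide +kernel

theorem r_U_3_0_u3 : chkD (lR iU_0 lU fU)
  100000 0 0 0 9000 44 63000 65000 2100 9400 10000 50000 0 9000
  66050 = true := by decide +kernel

theorem r_U_3_0_u4 : chkD (lR iU_0 lU fU)
  100000 0 0 0 9000 44 63000 65000 2100 9400 50000 75000 0 9000
  5 = true := by decide +kernel

theorem r_U_3_0_u5 : chkD (lR iU_0 lU fU)
  100000 0 0 0 9000 44 63000 65000 2100 9400 75000 77000 0 9000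
  4 = true := by decide +kernel

theorem r_U_3_0_u6 : chkD (lR iU_0 lU fU)
  100000 0 0 0 9000 44 63000 65000 2100 9400 77000 79000 0 9000
  5 = true := by decide +kernel

theorem r_U_3_0_u7 : chkD (lR iU_0 lU fU)
  100000 0 0 0 9000 44 63000 65000 2100 9400 79000 80000 0 9000
  82563 = true := by decide +kernel

theorem r_U_3_0_d8 : chkD (lR iU_0 lD fD)
  100000 0 0 0 9000 44 63000 65000 2100 9400 0 1000 9000 9500
  66049 = true := by decide +kernel

theorem r_U_3_0_d9 : chkD (lR iU_0 lD fD)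
  100000 0 0 0 9000 44 63000 65000 2100 9400 1000 5000 9000 9500
  66050 = true := by decide +kernel

theorem r_U_3_0_d10 : chkD (lR iU_0 lD fD)
  100000 0 0 0 9000 44 63000 65000 2100 9400 5000 10000 9000 9500
  4 = true := by decide +kernel

theorem r_U_3_0_d11 : chkD (lR iU_0 lD fD)
  100000 0 0 0 9000 44 63000 65000 2100 9400 10000 75000 9000 9500
  66050 = true := by decide +kernel

theorem r_U_3_0_d12 : chkD (lR iU_0 lD fD)
  100000 0 0 0 9000 44 63000 65000 2100 9400 75000 77000 9000 9500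
  4 = true := by decide +kernel

theorem r_U_3_0_d13 : chkD (lR iU_0 lD fD)
  100000 0 0 0 9000 44 63000 65000 2100 9400 77000 79000 9000 9500
  4 = true := by decide +kernel

theorem r_U_3_0_d14 : chkD (lR iU_0 lD fD)
  100000 0 0 0 9000 44 63000 65000 2100 9400 79000 80000 9000 9500
  5 = true := by decide +kernel

theorem r_U_3_1_u0 : chkD (lZ iU_1 lU fU)
  100000 0 0 0 9000 44 63000 65000 2100 9400 0 1000 0 9000
  4759550457729591066882 = true := by decide +kernel

theorem r_U_3_1_u1 : chkD (lZ iU_1 lU fU)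
  100000 0 0 0 9000 44 63000 65000 2100 9400 1000 3000 0 9000
  4 = true := by decide +kernel

theorem r_U_3_1_u2 : chkD (lZ iU_1 lU fU)
  100000 0 0 0 9000 44 63000 65000 2100 9400 3000 10000 0 9000
  4 = true := by decide +kernel

theorem r_U_3_1_u3 : chkD (lZ iU_1 lU fU)
  100000 0 0 0 9000 44 63000 65000 2100 9400 10000 50000 0 9000
  4 = true := by decide +kernel

theorem r_U_3_1_u4 : chkD (lZ iU_1 lU fU)
  100000 0 0 0 9000 44 63000 65000 2100 9400 50000 75000 0 9000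
  4 = true := by decide +kernel

theorem r_U_3_1_u5 : chkD (lZ iU_1 lU fU)
  100000 0 0 0 9000 44 63000 65000 2100 9400 75000 77000 0 9000
  4 = true := by decide +kernel

theorem r_U_3_1_u6 : chkD (lZ iU_1 lU fU)
  100000 0 0 0 9000 44 63000 65000 2100 9400 77000 79000 0 9000
  4 = true := by decide +kernel

theorem r_U_3_1_u7 : chkD (lZ iU_1 lU fU)
  100000 0 0 0 9000 44 63000 65000 2100 9400 79000 80000 0 9000
  66051 = true := by decide +kernel

theorem r_U_3_1_d8 : chkD (lZ iU_1 lD fD)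
  100000 0 0 0 9000 44 63000 65000 2100 9400 0 1000 9000 9500
  66050 = true := by decide +kernel

theorem r_U_3_1_d9 : chkD (lZ iU_1 lD fD)
  100000 0 0 0 9000 44 63000 65000 2100 9400 1000 5000 9000 9500
  66050 = true := by decide +kernel

theorem r_U_3_1_d10 : chkD (lZ iU_1 lD fD)
  100000 0 0 0 9000 44 63000 65000 2100 9400 5000 10000 9000 9500
  4 = true := by decide +kernel

theorem r_U_3_1_d11 : chkD (lZ iU_1 lD fD)
  100000 0 0 0 9000 44 63000 65000 2100 9400 10000 75000 9000 9500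
  66050 = true := by decide +kernel

theorem r_U_3_1_d12 : chkD (lZ iU_1 lD fD)
  100000 0 0 0 9000 44 63000 65000 2100 9400 75000 77000 9000 9500
  4 = true := by decide +kernel

theorem r_U_3_1_d13 : chkD (lZ iU_1 lD fD)
  100000 0 0 0 9000 44 63000 65000 2100 9400 77000 79000 9000 9500
  4 = true := by decide +kernel

theorem r_U_3_1_d14 : chkD (lZ iU_1 lD fD)
  100000 0 0 0 9000 44 63000 65000 2100 9400 79000 80000 9000 9500
  4 = true := by decide +kernel

theorem r_U_3_2_u0 : chkD (lR iU_2 lU fU)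
  100000 0 0 0 9000 44 63000 65000 2100 9400 0 1000 0 9000
  404891643452566640511224187636875640541434109296173698285826 = true := by decide +kernel

theorem r_U_3_2_u1 : chkD (lR iU_2 lU fU)
  100000 0 0 0 9000 44 63000 65000 2100 9400 1000 3000 0 9000
  1082180096 = true := by decide +kernel

theorem r_U_3_2_u2 : chkD (lR iU_2 lU fU)
  100000 0 0 0 9000 44 63000 65000 2100 9400 3000 10000 0 9000
  5 = true := by decide +kernel

theorem r_U_3_2_u3 : chkD (lR iU_2 lU fU)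
  100000 0 0 0 9000 44 63000 65000 2100 9400 10000 50000 0 9000
  5 = true := by decide +kernel

theorem r_U_3_2_u4 : chkD (lR iU_2 lU fU)
  100000 0 0 0 9000 44 63000 65000 2100 9400 50000 75000 0 9000
  5 = true := by decide +kernel

theorem r_U_3_2_u5 : chkD (lR iU_2 lU fU)
  100000 0 0 0 9000 44 63000 65000 2100 9400 75000 77000 0 9000
  5 = true := by decide +kernel

theorem r_U_3_2_u6 : chkD (lR iU_2 lU fU)
  100000 0 0 0 9000 44 63000 65000 2100 9400 77000 79000 0 9000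
  5 = true := by decide +kernel

theorem r_U_3_2_u7 : chkD (lR iU_2 lU fU)
  100000 0 0 0 9000 44 63000 65000 2100 9400 79000 80000 0 9000
  5 = true := by decide +kernel

theorem r_U_3_2_d8 : chkD (lR iU_2 lD fD)
  100000 0 0 0 9000 44 63000 65000 2100 9400 0 1000 9000 9500
  66050 = true := by decide +kernel

theorem r_U_3_2_d9 : chkD (lR iU_2 lD fD)
  100000 0 0 0 9000 44 63000 65000 2100 9400 1000 5000 9000 9500
  66050 = true := by decide +kernel

theorem r_U_3_2_d10 : chkD (lR iU_2 lD fD)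
  100000 0 0 0 9000 44 63000 65000 2100 9400 5000 10000 9000 9500
  4 = true := by decide +kernel

theorem r_U_3_2_d11 : chkD (lR iU_2 lD fD)
  100000 0 0 0 9000 44 63000 65000 2100 9400 10000 75000 9000 9500
  82434 = true := by decide +kernel

theorem r_U_3_2_d12 : chkD (lR iU_2 lD fD)
  100000 0 0 0 9000 44 63000 65000 2100 9400 75000 77000 9000 9500
  4 = true := by decide +kernel

theorem r_U_3_2_d13 : chkD (lR iU_2 lD fD)
  100000 0 0 0 9000 44 63000 65000 2100 9400 77000 79000 9000 9500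
  4 = true := by decide +kernel

theorem r_U_3_2_d14 : chkD (lR iU_2 lD fD)
  100000 0 0 0 9000 44 63000 65000 2100 9400 79000 80000 9000 9500
  5 = true := by decide +kernel

theorem r_N_1G0 : chkD [.of (f1z iN_0 vy kG), .of (f1z iN_1 vy kG)]
  100000 0 0 0 100000 44 63000 65000 2100 9400 0 86000 0 200000
  2662174665424369390080811297973288356113005163114523216091908377128893405509805075460868687006452390142482652232133804849435575004499481382365249605018104130048015128848150062733968188748580743067822890944487715152015928149430091179818967453155281476828865265680563339651 = true := by decide +kernel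

theorem r_N_3_0_m0 : chkD (lY iN_0 lM)
  100000 0 0 0 9000 44 63000 65000 2100 9400 60000 70000 8000 9500
  29175076069331341038467809662387230667468301393441893614323793703271523188738 = true := by decide +kernel

theorem r_N_3_1_m0 : chkD (lY iN_1 lM)
  100000 0 0 0 9000 44 63000 65000 2100 9400 60000 70000 8000 9500
  1508316080894417349612459155150259399286092875202816 = true := by decide +kernel

theorem r_B1_1G0 : chkD [f1e iB1_0 vy kG, f1l iB1_0 vy kG, .of (f1z iB1_1 vy kG), f1e iB1_2 vy kG, f1l iB1_2 vy kG]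
  100000 0 0 0 100000 44 63000 65000 2100 6000 0 15000 0 200000
  3666761997739247493034515585814842023141094011122834317072126264709197768821841882083194077442 = true := by decide +kernel

theorem r_B1_1G1 : chkD [f1e iB1_0 vy kG, f1l iB1_0 vy kG, .of (f1z iB1_1 vy kG), f1e iB1_2 vy kG, f1l iB1_2 vy kG]
  100000 0 0 0 100000 44 63000 65000 2100 6000 15000 33000 0 200000
  252530958119845002434264428767800797954449589638186625433961506650811949469010220788015153741536256006658719123224850938440940462793035401290952153565149282000612464365000102645369797778476524312821871556183144466087613531380961198806074930574063036706417299205421649799211964119544729966353559363544223168805514139466286360098570202498123362444820866 = true := by decide +kernel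

end R13

end Pool.Agent.Work.NumGs

end

section

/-!
# Kind `1 | 3`, slot `0`, right end: from the rows to the inequalities

`P1 i x T k` is the side of the `1` of the item `i` of a menu, `P3 i x T l l' w p` the side of the
`3`; both together contradict the maximality (`finK`, `finR`).
-/

namespace Pool.Agent.Work.NumGs

namespace R13

open NumUs (uu uu_neg UU_uu)
open NumXs (yy sg)
open MP_b30479_gtS.G2 (V1 V2 V3 tr dU dh1 dh3a DOk)
open MP_b30479_gtS.G2.M13 (H)

variable {i : It} {x T Tl pl y s p : ℝ} {k l l' w : ℂ} {xs : List ℝ}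

/-- the height of the mirrored path -/
noncomputable def hh (x : ℝ) : ℝ := 10 / 3 * (65 / 100 - x)
noncomputable def It.cR (i : It) : ℝ := (i.c : ℝ) / 10000
noncomputable def It.tR (i : It) (T : ℝ) : ℝ := ((min i.c 1300 : ℤ) : ℝ) / 1300 * T
noncomputable def It.θ (i : It) : ℝ := (i.th : ℝ) / 10000
noncomputable def It.A (i : It) (x T : ℝ) : ℝ :=
  (i.a0 : ℝ) / 10000 + (i.a1 : ℝ) / 100 * x + (i.a2 : ℝ) / 100 * T

/-- side of the `1` -/
def P1 (i : It) (x T : ℝ) (k : ℂ) : Prop :=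
  0 < V1 ⟨i.cR, i.tR T⟩ k - V1 ⟨x, -hh x⟩ k + uu x (hh x) + i.A x T +
    i.θ * (dh1 ⟨x, -hh x⟩ k (10 / 3) - dU ⟨x, hh x⟩ (-(10 / 3)))

/-- side of the `3` -/
def P3 (i : It) (x T : ℝ) (l l' w : ℂ) (p : ℝ) : Prop :=
  0 < V3 ⟨i.cR, -i.tR T⟩ l' w - V3 ⟨x, hh x⟩ l w + 2 * Real.pi * p + 2 * Real.pi * hh x -
    uu x (hh x) - i.A x T +
    i.θ * (dh3a ⟨x, hh x⟩ l (-(10 / 3)) + dU ⟨x, hh x⟩ (-(10 / 3)) + 2 * Real.pi * (10 / 3))

/-! ### values of the expressions -/

theorem hR_val : hR.val (x :: xs) = hh x := by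
  simp only [hR, hh, E.val, NumIs.lkR]
  norm_num

theorem mR_val : mR.val xs = -(10 / 3) := by
  simp only [mR, E.val]
  norm_num

theorem tq_val : i.tq.val (x :: T :: xs) = i.tR T := by
  simp only [It.tq, It.tR, E.val, NumIs.lkR]
  norm_num

theorem pr_val : i.pr.val (x :: T :: xs) = i.A x T := by
  simp only [It.pr, It.A, E.val, NumIs.lkR]
  norm_num

theorem c_val : (E.c i.c).val xs = i.cR := by
  simp only [E.c, It.cR, E.val]
  norm_num

theorem th_val : (E.c i.th).val xs = i.θ := by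
  simp only [E.c, It.θ, E.val]
  norm_num

theorem dUx_val (a t m : E) : (dUx a t m).val xs = dU ⟨a.val xs, t.val xs⟩ (m.val xs) := by
  rw [← D.dU_val]
  rfl

theorem f1z_val (y k : E) : (f1z i y k).val (x :: T :: xs) =
    V1 ⟨i.cR, i.tR T⟩ ⟨y.val (x :: T :: xs), k.val (x :: T :: xs)⟩ -
      V1 ⟨x, -hh x⟩ ⟨y.val (x :: T :: xs), k.val (x :: T :: xs)⟩ + uu x (hh x) + i.A x T := by
  unfold MP_b30479_gtS.G2.V1
  have e : -hh x + k.val (x :: T :: xs) = k.val (x :: T :: xs) - hh x := by ring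
  simp only [f1z, E.val, UU_uu, Complex.add_re, Complex.add_im, Complex.sub_im, Complex.mul_im,
    hR_val, tq_val, pr_val, c_val, NumIs.lkR, uu_neg, e]
  push_cast
  ring

theorem f1t_val (y k : E) : (f1t y k).val (x :: xs) =
    dh1 ⟨x, -hh x⟩ ⟨y.val (x :: xs), k.val (x :: xs)⟩ (10 / 3) - dU ⟨x, hh x⟩ (-(10 / 3)) := by
  unfold MP_b30479_gtS.G2.dh1
  have e1 : (⟨x, -hh x⟩ : ℂ) + ⟨y.val (x :: xs), k.val (x :: xs)⟩ =
      ⟨x + y.val (x :: xs), k.val (x :: xs) - hh x⟩ := by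
    apply Complex.ext
    · simp
    · simp
      ring
  have e2 : dU ⟨x, -hh x⟩ (10 / 3) = dU ⟨x, hh x⟩ (-(10 / 3)) := by
    unfold MP_b30479_gtS.G2.dU
    rw [LL_lnA_all, LL_lnA_all, NumXs.YY_yy, NumXs.YY_yy]
    show NumIs.lnA x (-hh x) + 10 / 3 * yy x (-hh x) = NumIs.lnA x (hh x) + -(10 / 3) * yy x (hh x)
    rw [NumXs.yy_conj, NumIs.lnA_neg]
    ring
  rw [e1, e2]
  simp only [f1t, D.val, dUx_val, E.val, hR_val, mR_val, NumIs.lkR]
  norm_num
  ring

theorem yy_ge (a t : ℝ) : yy (a - 1) t - Real.pi ≤ yy a t := by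
  have h := yy_add_nat (a - 1) t 1
  rw [Nat.cast_one, sub_add_cancel, one_mul] at h
  have h2 := (abs_le.1 (NumXs.sg_abs t)).1
  have h3 := mul_le_mul_of_nonneg_left h2 Real.pi_pos.le
  linarith only [h, h3]

theorem yy_le (a t : ℝ) : yy a t ≤ yy (a + 1) t + Real.pi := by
  have h := yy_add_nat a t 1
  rw [Nat.cast_one, one_mul] at h
  have h2 := (abs_le.1 (NumXs.sg_abs t)).1
  have h3 := mul_le_mul_of_nonneg_left h2 Real.pi_pos.le
  linarith only [h, h3]

theorem f1m_le (y k : E) : (f1m y k).val (x :: xs) ≤ (f1t y k).val (x :: xs) := by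
  have h := yy_ge (x + y.val (x :: xs)) (k.val (x :: xs) - hh x)
  simp only [f1m, f1t, dUx, D.val, E.val, hR_val, mR_val, NumIs.lkR]
  norm_num
  linarith only [h]

theorem gkz_val (l : E) (w : ℂ) : (gkz i l).val [x, T, y, s] =
    V3 ⟨i.cR, -i.tR T⟩ ⟨y, l.val [x, T, y, s]⟩ w - V3 ⟨x, hh x⟩ ⟨y, l.val [x, T, y, s]⟩ w +
      2 * Real.pi * hh x - uu x (hh x) - i.A x T := by
  unfold MP_b30479_gtS.G2.V3
  simp only [gkz, E.val, UU_uu, Complex.add_re, Complex.add_im, Complex.sub_im, Complex.sub_re,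
    Complex.mul_im, Complex.mul_re, hR_val, tq_val, pr_val, c_val, NumIs.lkR, uu_neg, pow_two,
    sub_neg_eq_add]
  norm_num
  ring

theorem grz_val (l f : E) (w : ℂ) : (grz i l f).val [x, T, y, Tl] =
    V3 ⟨i.cR, -i.tR T⟩ ⟨3 / 10, Tl⟩ w - V3 ⟨x, hh x⟩ ⟨y, l.val [x, T, y, Tl]⟩ w -
      (V2 ⟨3 / 10, Tl⟩ w - V2 ⟨y, l.val [x, T, y, Tl]⟩ w) +
      2 * Real.pi * hh x - uu x (hh x) + f.val [x, T, y, Tl] - i.A x T := by
  unfold MP_b30479_gtS.G2.V3 MP_b30479_gtS.G2.V2
  simp only [grz, E.val, UU_uu, Complex.add_re, Complex.add_im, Complex.sub_im, Complex.sub_re,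
    Complex.mul_im, Complex.mul_re, hR_val, tq_val, pr_val, c_val, NumIs.lkR, uu_neg, pow_two,
    sub_neg_eq_add]
  norm_num
  ring

theorem g3t_val (l : E) : (g3t l).val [x, T, y, s] =
    dh3a ⟨x, hh x⟩ ⟨y, l.val [x, T, y, s]⟩ (-(10 / 3)) + dU ⟨x, hh x⟩ (-(10 / 3)) +
      2 * Real.pi * (10 / 3) := by
  unfold MP_b30479_gtS.G2.dh3a
  have e1 : (⟨y, l.val [x, T, y, s]⟩ : ℂ) - ⟨x, hh x⟩ =
      ⟨y - x, l.val [x, T, y, s] - hh x⟩ := rfl
  rw [e1]
  simp only [g3t, D.val, dUx_val, E.val, hR_val, mR_val, NumIs.lkR]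
  norm_num
  ring

theorem g3m_le (l : E) : (g3m l).val [x, T, y, s] ≤ (g3t l).val [x, T, y, s] := by
  have h := yy_le (y - x) (l.val [x, T, y, s] - hh x)
  simp only [g3m, g3t, dUx, D.val, E.val, hR_val, mR_val, NumIs.lkR]
  norm_num
  linarith only [h]

/-! ### the sides -/

/-- conditions on an item -/
def okI (i : It) : Bool := decide (0 ≤ i.c) && decide (i.c ≤ 5000) && decide (0 ≤ i.th)

theorem okI_spec (h : okI i = true) : 0 ≤ i.c ∧ i.c ≤ 5000 ∧ 0 ≤ i.th := by
  unfold okI at h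
  simp only [Bool.and_eq_true, decide_eq_true_eq] at h
  exact ⟨h.1.1, h.1.2, h.2⟩

theorem θ_nonneg (h : okI i = true) : 0 ≤ i.θ := by
  have : (0 : ℝ) ≤ i.th := by exact_mod_cast (okI_spec h).2.2
  unfold It.θ
  positivity

theorem P1_e {y k : E} (h : 0 < (f1e i y k).val (x :: T :: xs)) :
    P1 i x T ⟨y.val (x :: T :: xs), k.val (x :: T :: xs)⟩ := by
  unfold P1
  simp only [f1e, D.val, f1z_val, f1t_val, th_val] at h
  exact h

theorem P1_l {y k : E} (hi : okI i = true) (h : 0 < (f1l i y k).val (x :: T :: xs)) :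
    P1 i x T ⟨y.val (x :: T :: xs), k.val (x :: T :: xs)⟩ := by
  have h2 := mul_le_mul_of_nonneg_left (f1m_le (x := x) (xs := T :: xs) y k) (θ_nonneg hi)
  unfold P1
  simp only [f1l, D.val, f1z_val, th_val] at h
  rw [f1t_val] at h2
  linarith only [h2, h]

theorem P1_z {y k : E} (hi : i.th = 0) (h : 0 < (D.of (f1z i y k)).val (x :: T :: xs)) :
    P1 i x T ⟨y.val (x :: T :: xs), k.val (x :: T :: xs)⟩ := by
  have e : i.θ = 0 := by unfold It.θ; rw [hi]; norm_num
  unfold P1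
  rw [e, zero_mul, add_zero]
  simp only [D.val, f1z_val] at h
  exact h

section

variable {l f : E}

theorem ex_neg (s0 : -(45 / 1000) ≤ Tl + T) (s1 : Tl + T ≤ 84 / 1000) :
    ¬ 0 < exU.val [x, T, y, Tl] ∧ ¬ 0 < exD.val [x, T, y, Tl] := by
  simp only [exU, exD, D.val, E.val, NumIs.lkR]
  norm_num
  constructor <;> linarith only [s1, s0]

theorem P3_lR (hi : okI i = true) (h : ∃ e ∈ lR i l f, 0 < e.val [x, T, y, Tl])
    (s0 : -(45 / 1000) ≤ Tl + T) (s1 : Tl + T ≤ 84 / 1000)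
    (hf : f.val [x, T, y, Tl] ≤ V2 ⟨3 / 10, Tl⟩ w - V2 ⟨y, l.val [x, T, y, Tl]⟩ w +
      2 * Real.pi * p) :
    P3 i x T ⟨y, l.val [x, T, y, Tl]⟩ ⟨3 / 10, Tl⟩ w p := by
  obtain ⟨e, he, hp⟩ := h
  have h2 := mul_le_mul_of_nonneg_left (g3m_le (x := x) (T := T) (y := y) (s := Tl) l)
    (θ_nonneg hi)
  rw [g3t_val] at h2
  simp only [lR, List.mem_cons, List.not_mem_nil, or_false] at he
  unfold P3
  rcases he with rfl | rfl | rfl | rfl
  · simp only [grl, D.val, grz_val (w := w), th_val] at hp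
    linarith only [hf, h2, hp]
  · simp only [gre, D.val, grz_val (w := w), th_val, g3t_val] at hp
    linarith only [hf, hp]
  · exact absurd hp (ex_neg s0 s1).1
  · exact absurd hp (ex_neg s0 s1).2

theorem P3_lZ (hi : i.th = 0) (h : ∃ e ∈ lZ i l f, 0 < e.val [x, T, y, Tl])
    (s0 : -(45 / 1000) ≤ Tl + T) (s1 : Tl + T ≤ 84 / 1000)
    (hf : f.val [x, T, y, Tl] ≤ V2 ⟨3 / 10, Tl⟩ w - V2 ⟨y, l.val [x, T, y, Tl]⟩ w +
      2 * Real.pi * p) :
    P3 i x T ⟨y, l.val [x, T, y, Tl]⟩ ⟨3 / 10, Tl⟩ w p := by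
  obtain ⟨e, he, hp⟩ := h
  have e0 : i.θ = 0 := by unfold It.θ; rw [hi]; norm_num
  simp only [lZ, List.mem_cons, List.not_mem_nil, or_false] at he
  unfold P3
  rw [e0, zero_mul, add_zero]
  rcases he with rfl | rfl | rfl
  · simp only [D.val, grz_val (w := w)] at hp
    linarith only [hf, hp]
  · exact absurd hp (ex_neg s0 s1).1
  · exact absurd hp (ex_neg s0 s1).2

theorem P3_lK (hi : okI i = true) (h : ∃ e ∈ lK i l, 0 < e.val [x, T, y, Tl])
    (s0 : -(45 / 1000) ≤ Tl + T) (s1 : Tl + T ≤ 84 / 1000) (w : ℂ) :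
    P3 i x T ⟨y, l.val [x, T, y, Tl]⟩ ⟨y, l.val [x, T, y, Tl]⟩ w 0 := by
  obtain ⟨e, he, hp⟩ := h
  have h2 := mul_le_mul_of_nonneg_left (g3m_le (x := x) (T := T) (y := y) (s := Tl) l)
    (θ_nonneg hi)
  rw [g3t_val] at h2
  simp only [lK, List.mem_cons, List.not_mem_nil, or_false] at he
  unfold P3
  rcases he with rfl | rfl | rfl | rfl
  · simp only [gkl, D.val, gkz_val (w := w), th_val] at hp
    linarith only [h2, hp]
  · simp only [gke, D.val, gkz_val (w := w), th_val, g3t_val] at hp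
    linarith only [hp]
  · exact absurd hp (ex_neg s0 s1).1
  · exact absurd hp (ex_neg s0 s1).2

theorem P3_lY (hi : i.th = 0) (h : ∃ e ∈ lY i l, 0 < e.val [x, T, y, Tl])
    (s0 : -(45 / 1000) ≤ Tl + T) (s1 : Tl + T ≤ 84 / 1000) (w : ℂ) :
    P3 i x T ⟨y, l.val [x, T, y, Tl]⟩ ⟨y, l.val [x, T, y, Tl]⟩ w 0 := by
  obtain ⟨e, he, hp⟩ := h
  have e0 : i.θ = 0 := by unfold It.θ; rw [hi]; norm_num
  simp only [lY, List.mem_cons, List.not_mem_nil, or_false] at he
  unfold P3
  rw [e0, zero_mul, add_zero]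
  rcases he with rfl | rfl | rfl
  · simp only [D.val, gkz_val (w := w)] at hp
    linarith only [hp]
  · exact absurd hp (ex_neg s0 s1).1
  · exact absurd hp (ex_neg s0 s1).2

end

/-! ### both sides together -/

section

variable (hx0 : 63 / 100 ≤ x) (hx1 : x ≤ 65 / 100)

include hx0 hx1

theorem tau_eq : 1 / 2 * MP_b30479_gtS.G2.M13.τ x = hh x := by
  rw [MP_b30479_gtS.G2.M13.tau_right (by linarith only [hx0]) hx1]
  unfold hh
  ring

theorem um_eq : MP_b30479_gtS.G2.M13.um x = ⟨x, -hh x⟩ := by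
  unfold MP_b30479_gtS.G2.M13.um
  rw [tau_eq hx0 hx1]

theorem up_eq : MP_b30479_gtS.G2.M13.up x = ⟨x, hh x⟩ := by
  unfold MP_b30479_gtS.G2.M13.up
  rw [tau_eq hx0 hx1]

end

theorem cR_bds (hi : okI i = true) : 0 ≤ i.cR ∧ i.cR ≤ 5 / 10 := by
  obtain ⟨h0, h1, -⟩ := okI_spec hi
  have a0 : (0 : ℝ) ≤ i.c := by exact_mod_cast h0
  have a1 : (i.c : ℝ) ≤ 5000 := by exact_mod_cast h1
  unfold It.cR
  constructor
  · positivity
  · linarith only [a1]

theorem tR_eq (hi : okI i = true) (T : ℝ) : T * MP_b30479_gtS.G2.M13.τ i.cR = i.tR T := by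
  obtain ⟨h0, h1⟩ := cR_bds hi
  unfold It.tR
  rcases le_total i.c 1300 with h | h
  · have hR : (i.c : ℝ) ≤ 1300 := by exact_mod_cast h
    rw [min_eq_left h, MP_b30479_gtS.G2.M13.tau_left h0 (by unfold It.cR; linarith only [hR])]
    unfold It.cR
    ring
  · have hR : (1300 : ℝ) ≤ i.c := by exact_mod_cast h
    rw [min_eq_right h, MP_b30479_gtS.G2.M13.tau_flat (by unfold It.cR; linarith only [hR]) (by linarith only [h1])]
    norm_num

theorem li_eq (Tl : ℝ) : MP_b30479_gtS.G2.M13.li Tl (3 / 10) = ⟨3 / 10, Tl⟩ := by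
  unfold MP_b30479_gtS.G2.M13.li MP_b30479_gtS.G2.M13.τl MP_b30479_gtS.G2.tr
  norm_num

/-- no item at the singular point -/
def Gd (i : It) (x : ℝ) (k : ℂ) : Prop := i.th = 0 ∨ (⟨x, -hh x⟩ : ℂ) + k ≠ 1

theorem foc_θ (h : H x T Tl pl k l w) (hx0 : 63 / 100 ≤ x) (hk : Gd i x k)
    (hl : l ≠ ⟨x, hh x⟩) : i.θ * (dh1 ⟨x, -hh x⟩ k (10 / 3) + dh3a ⟨x, hh x⟩ l (-(10 / 3)) +
      2 * Real.pi * (10 / 3)) = 0 := by
  have hx1 := h.x1
  rcases hk with hk | hk
  · have e0 : i.θ = 0 := by unfold It.θ; rw [hk]; norm_num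
    rw [e0, zero_mul]
  · rw [← um_eq hx0 hx1.le] at hk
    rw [← up_eq hx0 hx1.le] at hl
    have h1 := (h.foc (μ := -(10 / 3)) (by norm_num)
      (MP_b30479_gtS.G2.M13.mu_right' (by linarith only [hx0, hx1]) hx1) hk hl).2.2
    rw [um_eq hx0 hx1.le, up_eq hx0 hx1.le, neg_neg] at h1
    have e : dh1 ⟨x, -hh x⟩ k (10 / 3) + dh3a ⟨x, hh x⟩ l (-(10 / 3)) +
      2 * Real.pi * (10 / 3) = 0 := by linarith only [h1]
    rw [e, mul_zero]

/-- the inner variable is moved -/
theorem finR (h : H x T Tl pl k l w) (hx0 : 63 / 100 ≤ x) (hl : l ≠ ⟨x, hh x⟩)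
    (hi : okI i = true) (h1 : P1 i x T k ∧ Gd i x k) (h3 : P3 i x T l ⟨3 / 10, Tl⟩ w pl) :
    False := by
  obtain ⟨c0, c1⟩ := cR_bds hi
  have h2 := h.resp i.cR (3 / 10) c0 (by linarith only [c1]) (by norm_num) (by norm_num)
  unfold MP_b30479_gtS.G2.M13.cm MP_b30479_gtS.G2.M13.cp at h2
  rw [tR_eq hi, um_eq hx0 h.x1.le, up_eq hx0 h.x1.le, li_eq, tau_eq hx0 h.x1.le] at h2
  have h4 := foc_θ h hx0 h1.2 hl
  have h5 := h1.1
  unfold P1 at h5
  unfold P3 at h3
  linarith only [h3, h2, h4, h5]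

/-- the inner variable is kept -/
theorem finK (h : H x T Tl pl k l w) (hx0 : 63 / 100 ≤ x) (hl : l ≠ ⟨x, hh x⟩)
    (hi : okI i = true) (h1 : P1 i x T k ∧ Gd i x k) (h3 : P3 i x T l l w 0) : False := by
  obtain ⟨c0, c1⟩ := cR_bds hi
  have h2 := h.keep i.cR c0 (by linarith only [c1])
  unfold MP_b30479_gtS.G2.M13.cm MP_b30479_gtS.G2.M13.cp at h2
  rw [tR_eq hi, um_eq hx0 h.x1.le, up_eq hx0 h.x1.le, tau_eq hx0 h.x1.le] at h2
  have h4 := foc_θ h hx0 h1.2 hl
  have h5 := h1.1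
  unfold P1 at h5
  unfold P3 at h3
  linarith only [h3, h2, h4, h5]

/-- the inner variable is kept, no first order condition -/
theorem finY (h : H x T Tl pl k l w) (hx0 : 63 / 100 ≤ x) (hi : okI i = true) (ht : i.th = 0)
    (h1 : P1 i x T k) (h3 : P3 i x T l l w 0) : False := by
  obtain ⟨c0, c1⟩ := cR_bds hi
  have e0 : i.θ = 0 := by unfold It.θ; rw [ht]; norm_num
  have h2 := h.keep i.cR c0 (by linarith only [c1])
  unfold MP_b30479_gtS.G2.M13.cm MP_b30479_gtS.G2.M13.cp at h2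
  rw [tR_eq hi, um_eq hx0 h.x1.le, up_eq hx0 h.x1.le, tau_eq hx0 h.x1.le] at h2
  unfold P1 at h1
  unfold P3 at h3
  rw [e0, zero_mul, add_zero] at h1 h3
  linarith only [h1, h3, h2]

/-! ### the sets of positions -/

/-- the other hinge of the `1`, class `1` -/
def KG (k : ℂ) : Prop := (0 ≤ k.re ∧ k.re ≤ 86 / 100) ∧
  |k.im| ≤ 16 / 100 * tr 0 (86 / 100) (15 / 100) (20 / 100) k.re

/-- the other hinge of the `1`, class `2` -/
def KW (k : ℂ) : Prop := (0 ≤ k.re ∧ k.re ≤ 80 / 100) ∧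
  |k.im| ≤ 16 / 100 * tr 0 (80 / 100) (16 / 100) (29 / 100) k.re

theorem abs_par {a t : ℝ} (h0 : 0 ≤ t) (h : |a| ≤ 16 / 100 * t) :
    ∃ s : ℝ, -1 ≤ s ∧ s ≤ 1 ∧ a = 16 / 100 * s * t := by
  rcases h0.eq_or_lt with h1 | h1
  · refine ⟨0, by norm_num, by norm_num, ?_⟩
    rw [← h1, mul_zero] at h ⊢
    exact abs_nonpos_iff.1 h
  · have h2 := abs_le.1 h
    refine ⟨a / (16 / 100 * t), ?_, ?_, ?_⟩
    · rw [le_div_iff₀ (by positivity)]; linarith only [h2]
    · rw [div_le_iff₀ (by positivity)]; linarith only [h2]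
    · field_simp

theorem KG.par (h : KG k) : ∃ s : ℝ, -1 ≤ s ∧ s ≤ 1 ∧ ∀ x T : ℝ,
    k = ⟨vy.val [x, T, k.re, s], kG.val [x, T, k.re, s]⟩ := by
  obtain ⟨s, s0, s1, e⟩ := abs_par (MP_b30479_gtS.G2.tr_nonneg _ _ _ _ _) h.2
  refine ⟨s, s0, s1, fun x T => Complex.ext rfl ?_⟩
  rw [e]
  simp only [kG, E.val, NumIs.lkR]
  rw [E.tr_val (by norm_num) (by norm_num) (by norm_num)]
  simp only [E.val, NumIs.lkR]
  norm_num

theorem KW.par (h : KW k) : ∃ s : ℝ, -1 ≤ s ∧ s ≤ 1 ∧ ∀ x T : ℝ,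
    k = ⟨vy.val [x, T, k.re, s], kW.val [x, T, k.re, s]⟩ := by
  obtain ⟨s, s0, s1, e⟩ := abs_par (MP_b30479_gtS.G2.tr_nonneg _ _ _ _ _) h.2
  refine ⟨s, s0, s1, fun x T => Complex.ext rfl ?_⟩
  rw [e]
  simp only [kW, E.val, NumIs.lkR]
  rw [E.tr_val (by norm_num) (by norm_num) (by norm_num)]
  simp only [E.val, NumIs.lkR]
  norm_num

theorem KW.toKG (h : KW k) : KG k := by
  refine ⟨⟨h.1.1, by linarith only [h, h.1.2]⟩, h.2.trans (mul_le_mul_of_nonneg_left ?_ (by norm_num))⟩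
  have h0 := h.1.1
  have h1 := h.1.2
  unfold MP_b30479_gtS.G2.tr
  refine max_le_max le_rfl (min_le_min le_rfl (min_le_min ?_ ?_))
  · rw [sub_zero]
    exact div_le_div_of_nonneg_left h0 (by norm_num) (by norm_num)
  · rw [div_le_div_iff₀ (by norm_num) (by norm_num)]
    nlinarith only [h1]

/-- a `2` at an end, main path -/
def KM (k : ℂ) : Prop := (0 ≤ k.re ∧ k.re ≤ 70 / 100) ∧
  ∃ s : ℝ, -(45 / 1000) ≤ s ∧ s ≤ 0 ∧ k.im = s * tr 0 (70 / 100) (14 / 100) (35 / 100) k.re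

/-- a `2` at an end, mirrored path -/
def KU (k : ℂ) : Prop := (0 ≤ k.re ∧ k.re ≤ 70 / 100) ∧
  k.im = 16 / 100 * tr 0 (70 / 100) (14 / 100) (35 / 100) k.re

theorem KM.par (h : KM k) : ∃ s : ℝ, -(45 / 1000) ≤ s ∧ s ≤ 0 ∧ ∀ x T : ℝ,
    k = ⟨vy.val [x, T, k.re, s], kM.val [x, T, k.re, s]⟩ := by
  obtain ⟨s, s0, s1, e⟩ := h.2
  refine ⟨s, s0, s1, fun x T => Complex.ext rfl ?_⟩
  rw [e]
  simp only [kM, E.val, NumIs.lkR]
  rw [E.tr_val (by norm_num) (by norm_num) (by norm_num)]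
  simp only [E.val, NumIs.lkR]
  norm_num

theorem KU.par (h : KU k) : ∃ s : ℝ, 0 ≤ s ∧ s ≤ 0 ∧ ∀ x T : ℝ,
    k = ⟨vy.val [x, T, k.re, s], kU.val [x, T, k.re, s]⟩ := by
  refine ⟨0, le_rfl, le_rfl, fun x T => Complex.ext rfl ?_⟩
  rw [h.2]
  simp only [kU, E.val, NumIs.lkR]
  rw [E.tr_val (by norm_num) (by norm_num) (by norm_num)]
  simp only [E.val, NumIs.lkR]
  norm_num

theorem sing (hs : (⟨x, -hh x⟩ : ℂ) + k = 1) (T : ℝ) :
    k = ⟨ys.val [x, T, 0, 0], hR.val [x, T, 0, 0]⟩ := by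
  have e : k = 1 - ⟨x, -hh x⟩ := by rw [← hs]; ring
  rw [hR_val, e]
  apply Complex.ext
  · simp only [ys, E.val, NumIs.lkR, Complex.sub_re, Complex.one_re]
    norm_num
  · simp

theorem P1_e' {y k' : E} (e : k = ⟨y.val (x :: T :: xs), k'.val (x :: T :: xs)⟩)
    (h : 0 < (f1e i y k').val (x :: T :: xs)) : P1 i x T k := by
  rw [e]
  exact P1_e h

theorem P1_l' {y k' : E} (hi : okI i = true)
    (e : k = ⟨y.val (x :: T :: xs), k'.val (x :: T :: xs)⟩)
    (h : 0 < (f1l i y k').val (x :: T :: xs)) : P1 i x T k := by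
  rw [e]
  exact P1_l hi h

theorem P1_z' {y k' : E} (hi : i.th = 0)
    (e : k = ⟨y.val (x :: T :: xs), k'.val (x :: T :: xs)⟩)
    (h : 0 < (D.of (f1z i y k')).val (x :: T :: xs)) : P1 i x T k := by
  rw [e]
  exact P1_z hi h

/-! ### the inner variable -/

theorem lM_eq (h : l.im = Tl * MP_b30479_gtS.G2.M13.τl l.re) (x T : ℝ) :
    l = ⟨l.re, lM.val [x, T, l.re, Tl]⟩ := by
  refine Complex.ext rfl ?_
  rw [h]
  simp only [lM, tr8, E.val, NumIs.lkR]
  rw [E.tr_val (by norm_num) (by norm_num) (by norm_num)]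
  simp only [E.val, NumIs.lkR, MP_b30479_gtS.G2.M13.τl]
  norm_num

theorem lU_eq (h : l.im = 16 / 100 * MP_b30479_gtS.G2.M13.τl l.re) (x T Tl : ℝ) :
    l = ⟨l.re, lU.val [x, T, l.re, Tl]⟩ := by
  refine Complex.ext rfl ?_
  rw [h]
  simp only [lU, tr8, E.val, NumIs.lkR]
  rw [E.tr_val (by norm_num) (by norm_num) (by norm_num)]
  simp only [E.val, NumIs.lkR, MP_b30479_gtS.G2.M13.τl]
  norm_num

theorem lD_eq (h : l.im = -(16 / 100 * MP_b30479_gtS.G2.M13.τl l.re)) (x T Tl : ℝ) :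
    l = ⟨l.re, lD.val [x, T, l.re, Tl]⟩ := by
  refine Complex.ext rfl ?_
  rw [h]
  simp only [lD, tr8, E.val, NumIs.lkR]
  rw [E.tr_val (by norm_num) (by norm_num) (by norm_num)]
  simp only [E.val, NumIs.lkR, MP_b30479_gtS.G2.M13.τl]
  norm_num

section

variable {l' f : E}

theorem P3_lR' (e : l = ⟨y, l'.val [x, T, y, Tl]⟩) (hi : okI i = true)
    (h : ∃ e ∈ lR i l' f, 0 < e.val [x, T, y, Tl])
    (s0 : -(45 / 1000) ≤ Tl + T) (s1 : Tl + T ≤ 84 / 1000)
    (hf : f.val [x, T, y, Tl] ≤ V2 ⟨3 / 10, Tl⟩ w - V2 l w + 2 * Real.pi * p) :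
    P3 i x T l ⟨3 / 10, Tl⟩ w p := by
  rw [e] at hf ⊢
  exact P3_lR hi h s0 s1 hf

theorem P3_lZ' (e : l = ⟨y, l'.val [x, T, y, Tl]⟩) (hi : i.th = 0)
    (h : ∃ e ∈ lZ i l' f, 0 < e.val [x, T, y, Tl])
    (s0 : -(45 / 1000) ≤ Tl + T) (s1 : Tl + T ≤ 84 / 1000)
    (hf : f.val [x, T, y, Tl] ≤ V2 ⟨3 / 10, Tl⟩ w - V2 l w + 2 * Real.pi * p) :
    P3 i x T l ⟨3 / 10, Tl⟩ w p := by
  rw [e] at hf ⊢
  exact P3_lZ hi h s0 s1 hf

theorem P3_lK' (e : l = ⟨y, l'.val [x, T, y, Tl]⟩) (hi : okI i = true)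
    (h : ∃ e ∈ lK i l', 0 < e.val [x, T, y, Tl])
    (s0 : -(45 / 1000) ≤ Tl + T) (s1 : Tl + T ≤ 84 / 1000) (w : ℂ) : P3 i x T l l w 0 := by
  rw [e]
  exact P3_lK hi h s0 s1 w

theorem P3_lY' (e : l = ⟨y, l'.val [x, T, y, Tl]⟩) (hi : i.th = 0)
    (h : ∃ e ∈ lY i l', 0 < e.val [x, T, y, Tl])
    (s0 : -(45 / 1000) ≤ Tl + T) (s1 : Tl + T ≤ 84 / 1000) (w : ℂ) : P3 i x T l l w 0 := by
  rw [e]
  exact P3_lY hi h s0 s1 w

end

theorem hh_nonneg (h : x ≤ 65 / 100) : 0 ≤ hh x := by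
  unfold hh
  linarith only [h]

theorem hh_le (h : 63 / 100 ≤ x) : hh x ≤ 7 / 100 := by
  unfold hh
  linarith only [h]

theorem hh_pos (h : H x T Tl pl k l w) : 0 < hh x := by
  have := h.x1
  unfold hh
  linarith only [this]

/-- the inner variable is not at the singular point: nonpositive height -/
theorem ne_neg (h : H x T Tl pl k l w) (hl : l.im ≤ 0) : l ≠ ⟨x, hh x⟩ := by
  rintro rfl
  exact absurd hl (not_le.2 (hh_pos h))

/-- the inner variable is not at the singular point: other real part -/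
theorem ne_re (h : l.re ≠ x) : l ≠ ⟨x, hh x⟩ := by
  rintro rfl
  exact h rfl

theorem τl_nonneg (y : ℝ) : 0 ≤ MP_b30479_gtS.G2.M13.τl y := MP_b30479_gtS.G2.tr_nonneg _ _ _ _ _

theorem τl_mid (h0 : 5 / 100 ≤ y) (h1 : y ≤ 75 / 100) : MP_b30479_gtS.G2.M13.τl y = 1 := by
  unfold MP_b30479_gtS.G2.M13.τl MP_b30479_gtS.G2.tr
  rw [sub_zero, min_eq_left (le_min ((one_le_div (by norm_num)).2 h0)
    ((one_le_div (by norm_num)).2 (by linarith only [h1])))]
  norm_num

/-- mode up -/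
theorem ne_up (h : H x T Tl pl k l w) (hx0 : 63 / 100 ≤ x)
    (hl : l.im = 16 / 100 * MP_b30479_gtS.G2.M13.τl l.re) : l ≠ ⟨x, hh x⟩ := by
  have h1 := h.x1
  have h2 := hh_le hx0
  intro e
  rw [e] at hl
  simp only at hl
  rw [τl_mid (by linarith only [hx0, h1]) (by linarith only [hx0, h1])] at hl
  linarith only [hx0, hl, h1, h2]

end R13

end Pool.Agent.Work.NumGs

end

section

/-!
# Kind `1 | 3`, slot `0`, right end: the side of the `1`
-/

namespace Pool.Agent.Work.NumGs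

namespace R13

open MP_b30479_gtS.G2.M13 (H)

variable {x T Tl pl : ℝ} {k l w : ℂ}

/-! ### cell `C` -/

/-- side of the `1` -/
def SC (x T : ℝ) (k : ℂ) : Prop :=
  (P1 iC_0 x T k ∧ Gd iC_0 x k) ∨
    (P1 iC_1 x T k ∧ Gd iC_1 x k)

theorem tC_G {s : ℝ} (hs : (⟨x, -hh x⟩ : ℂ) + k ≠ 1)
    (e : k = ⟨vy.val [x, T, k.re, s], kG.val [x, T, k.re, s]⟩)
    (h : ∃ e ∈ ([f1e iC_0 vy kG, f1l iC_0 vy kG, .of (f1z iC_1 vy kG)] : List D),
      0 < e.val [x, T, k.re, s]) : SC x T k := by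
  obtain ⟨d, hd, hp⟩ := h
  simp only [List.mem_cons, List.not_mem_nil, or_false] at hd
  unfold SC
  rcases hd with rfl | rfl | rfl
  · exact Or.inl ⟨P1_e' e hp, Or.inr hs⟩
  · exact Or.inl ⟨P1_l' (by decide) e hp, Or.inr hs⟩
  · exact Or.inr (⟨P1_z' rfl e hp, Or.inl rfl⟩)

theorem sC_G (x0 : 63 / 100 ≤ x) (x1 : x ≤ 13 / 20) (T0 : 21 / 1000 ≤ T) (T1 : T ≤ 47 / 500) (hk : KG k) :
    SC x T k := by
  by_cases hs : (⟨x, -hh x⟩ : ℂ) + k = 1
  · have e := sing hs T
    obtain ⟨d, hd, hp⟩ := chkD4 r_C_1s (x := x) (y := T) (z := 0) (w := 0) (by norm_num)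
      (le_trans (by norm_num) x0) (le_trans x1 (by norm_num)) (le_trans (by norm_num) T0)
      (le_trans T1 (by norm_num)) (by norm_num) (by norm_num) (by norm_num) (by norm_num)
    simp only [List.mem_cons, List.not_mem_nil, or_false] at hd
    unfold SC
    subst hd
    exact Or.inr (⟨P1_z' rfl e hp, Or.inl rfl⟩)
  · obtain ⟨s, s0, s1, e⟩ := hk.par
    have k0 := hk.1.1
    have k1 := hk.1.2
    exact tC_G hs (e x T) (chkD4 r_C_1G0 (by norm_num)
      (le_trans (by norm_num) x0) (le_trans x1 (by norm_num)) (le_trans (by norm_num) T0)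
      (le_trans T1 (by norm_num))
      (le_trans (by norm_num) k0) (le_trans k1 (by norm_num))
      (le_trans (by norm_num) s0) (le_trans s1 (by norm_num)))

/-! ### cell `U` -/

/-- side of the `1` -/
def SU (x T : ℝ) (k : ℂ) : Prop :=
  (P1 iU_0 x T k ∧ Gd iU_0 x k) ∨
    (P1 iU_1 x T k ∧ Gd iU_1 x k) ∨
    (P1 iU_2 x T k ∧ Gd iU_2 x k)

theorem tU_G {s : ℝ} (hs : (⟨x, -hh x⟩ : ℂ) + k ≠ 1)
    (e : k = ⟨vy.val [x, T, k.re, s], kG.val [x, T, k.re, s]⟩)
    (h : ∃ e ∈ ([f1e iU_0 vy kG, f1l iU_0 vy kG, .of (f1z iU_1 vy kG), f1e iU_2 vy kG, f1l iU_2 vy kG] : List D),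
      0 < e.val [x, T, k.re, s]) : SU x T k := by
  obtain ⟨d, hd, hp⟩ := h
  simp only [List.mem_cons, List.not_mem_nil, or_false] at hd
  unfold SU
  rcases hd with rfl | rfl | rfl | rfl | rfl
  · exact Or.inl ⟨P1_e' e hp, Or.inr hs⟩
  · exact Or.inl ⟨P1_l' (by decide) e hp, Or.inr hs⟩
  · exact Or.inr (Or.inl ⟨P1_z' rfl e hp, Or.inl rfl⟩)
  · exact Or.inr (Or.inr (⟨P1_e' e hp, Or.inr hs⟩))
  · exact Or.inr (Or.inr (⟨P1_l' (by decide) e hp, Or.inr hs⟩))

theorem sU_G (x0 : 63 / 100 ≤ x) (x1 : x ≤ 13 / 20) (T0 : 21 / 1000 ≤ T) (T1 : T ≤ 47 / 500) (hk : KG k) :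
    SU x T k := by
  by_cases hs : (⟨x, -hh x⟩ : ℂ) + k = 1
  · have e := sing hs T
    obtain ⟨d, hd, hp⟩ := chkD4 r_U_1s (x := x) (y := T) (z := 0) (w := 0) (by norm_num)
      (le_trans (by norm_num) x0) (le_trans x1 (by norm_num)) (le_trans (by norm_num) T0)
      (le_trans T1 (by norm_num)) (by norm_num) (by norm_num) (by norm_num) (by norm_num)
    simp only [List.mem_cons, List.not_mem_nil, or_false] at hd
    unfold SU
    subst hd
    exact Or.inr (Or.inl ⟨P1_z' rfl e hp, Or.inl rfl⟩)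
  · obtain ⟨s, s0, s1, e⟩ := hk.par
    have k0 := hk.1.1
    have k1 := hk.1.2
    rcases le_total k.re (3 / 20) with hb0 | hb0
    · exact tU_G hs (e x T) (chkD4 r_U_1G0 (by norm_num)
        (le_trans (by norm_num) x0) (le_trans x1 (by norm_num)) (le_trans (by norm_num) T0)
      (le_trans T1 (by norm_num))
        (le_trans (by norm_num) k0) (le_trans hb0 (by norm_num))
        (le_trans (by norm_num) s0) (le_trans s1 (by norm_num)))
    rcases le_total k.re (33 / 100) with hb1 | hb1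
    · exact tU_G hs (e x T) (chkD4 r_U_1G1 (by norm_num)
        (le_trans (by norm_num) x0) (le_trans x1 (by norm_num)) (le_trans (by norm_num) T0)
      (le_trans T1 (by norm_num))
        (le_trans (by norm_num) hb0) (le_trans hb1 (by norm_num))
        (le_trans (by norm_num) s0) (le_trans s1 (by norm_num)))
    rcases le_total k.re (39 / 100) with hb2 | hb2
    · exact tU_G hs (e x T) (chkD4 r_U_1G2 (by norm_num)
        (le_trans (by norm_num) x0) (le_trans x1 (by norm_num)) (le_trans (by norm_num) T0)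
      (le_trans T1 (by norm_num))
        (le_trans (by norm_num) hb1) (le_trans hb2 (by norm_num))
        (le_trans (by norm_num) s0) (le_trans s1 (by norm_num)))
    rcases le_total k.re (33 / 50) with hb3 | hb3
    · exact tU_G hs (e x T) (chkD4 r_U_1G3 (by norm_num)
        (le_trans (by norm_num) x0) (le_trans x1 (by norm_num)) (le_trans (by norm_num) T0)
      (le_trans T1 (by norm_num))
        (le_trans (by norm_num) hb2) (le_trans hb3 (by norm_num))
        (le_trans (by norm_num) s0) (le_trans s1 (by norm_num)))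
    exact tU_G hs (e x T) (chkD4 r_U_1G4 (by norm_num)
      (le_trans (by norm_num) x0) (le_trans x1 (by norm_num)) (le_trans (by norm_num) T0)
      (le_trans T1 (by norm_num))
      (le_trans (by norm_num) hb3) (le_trans k1 (by norm_num))
      (le_trans (by norm_num) s0) (le_trans s1 (by norm_num)))

/-! ### cell `N` -/

/-- side of the `1` -/
def SN (x T : ℝ) (k : ℂ) : Prop :=
  (P1 iN_0 x T k ∧ Gd iN_0 x k) ∨
    (P1 iN_1 x T k ∧ Gd iN_1 x k)

theorem tN_G {s : ℝ} (e : k = ⟨vy.val [x, T, k.re, s], kG.val [x, T, k.re, s]⟩)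
    (h : ∃ e ∈ ([.of (f1z iN_0 vy kG), .of (f1z iN_1 vy kG)] : List D),
      0 < e.val [x, T, k.re, s]) : SN x T k := by
  obtain ⟨d, hd, hp⟩ := h
  simp only [List.mem_cons, List.not_mem_nil, or_false] at hd
  unfold SN
  rcases hd with rfl | rfl
  · exact Or.inl ⟨P1_z' rfl e hp, Or.inl rfl⟩
  · exact Or.inr (⟨P1_z' rfl e hp, Or.inl rfl⟩)

theorem sN_G (x0 : 63 / 100 ≤ x) (x1 : x ≤ 13 / 20) (T0 : 21 / 1000 ≤ T) (T1 : T ≤ 47 / 500) (hk : KG k) :
    SN x T k := by
  obtain ⟨s, s0, s1, e⟩ := hk.par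
  have k0 := hk.1.1
  have k1 := hk.1.2
  exact tN_G (e x T) (chkD4 r_N_1G0 (by norm_num)
    (le_trans (by norm_num) x0) (le_trans x1 (by norm_num)) (le_trans (by norm_num) T0)
      (le_trans T1 (by norm_num))
    (le_trans (by norm_num) k0) (le_trans k1 (by norm_num))
    (le_trans (by norm_num) s0) (le_trans s1 (by norm_num)))

/-! ### cell `B1` -/

/-- side of the `1` -/
def SB1 (x T : ℝ) (k : ℂ) : Prop :=
  (P1 iB1_0 x T k ∧ Gd iB1_0 x k) ∨
    (P1 iB1_1 x T k ∧ Gd iB1_1 x k) ∨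
    (P1 iB1_2 x T k ∧ Gd iB1_2 x k)

theorem tB1_G {s : ℝ} (hs : (⟨x, -hh x⟩ : ℂ) + k ≠ 1)
    (e : k = ⟨vy.val [x, T, k.re, s], kG.val [x, T, k.re, s]⟩)
    (h : ∃ e ∈ ([f1e iB1_0 vy kG, f1l iB1_0 vy kG, .of (f1z iB1_1 vy kG), f1e iB1_2 vy kG, f1l iB1_2 vy kG] : List D),
      0 < e.val [x, T, k.re, s]) : SB1 x T k := by
  obtain ⟨d, hd, hp⟩ := h
  simp only [List.mem_cons, List.not_mem_nil, or_false] at hd
  unfold SB1
  rcases hd with rfl | rfl | rfl | rfl | rfl
  · exact Or.inl ⟨P1_e' e hp, Or.inr hs⟩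
  · exact Or.inl ⟨P1_l' (by decide) e hp, Or.inr hs⟩
  · exact Or.inr (Or.inl ⟨P1_z' rfl e hp, Or.inl rfl⟩)
  · exact Or.inr (Or.inr (⟨P1_e' e hp, Or.inr hs⟩))
  · exact Or.inr (Or.inr (⟨P1_l' (by decide) e hp, Or.inr hs⟩))

theorem sB1_G (x0 : 63 / 100 ≤ x) (x1 : x ≤ 13 / 20) (T0 : 21 / 1000 ≤ T) (T1 : T ≤ 3 / 50) (hk : KG k) :
    SB1 x T k := by
  by_cases hs : (⟨x, -hh x⟩ : ℂ) + k = 1
  · have e := sing hs T
    obtain ⟨d, hd, hp⟩ := chkD4 r_B1_1s (x := x) (y := T) (z := 0) (w := 0) (by norm_num)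
      (le_trans (by norm_num) x0) (le_trans x1 (by norm_num)) (le_trans (by norm_num) T0)
      (le_trans T1 (by norm_num)) (by norm_num) (by norm_num) (by norm_num) (by norm_num)
    simp only [List.mem_cons, List.not_mem_nil, or_false] at hd
    unfold SB1
    subst hd
    exact Or.inr (Or.inl ⟨P1_z' rfl e hp, Or.inl rfl⟩)
  · obtain ⟨s, s0, s1, e⟩ := hk.par
    have k0 := hk.1.1
    have k1 := hk.1.2
    rcases le_total k.re (3 / 20) with hb0 | hb0
    · exact tB1_G hs (e x T) (chkD4 r_B1_1G0 (by norm_num)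
        (le_trans (by norm_num) x0) (le_trans x1 (by norm_num)) (le_trans (by norm_num) T0)
      (le_trans T1 (by norm_num))
        (le_trans (by norm_num) k0) (le_trans hb0 (by norm_num))
        (le_trans (by norm_num) s0) (le_trans s1 (by norm_num)))
    rcases le_total k.re (33 / 100) with hb1 | hb1
    · exact tB1_G hs (e x T) (chkD4 r_B1_1G1 (by norm_num)
        (le_trans (by norm_num) x0) (le_trans x1 (by norm_num)) (le_trans (by norm_num) T0)
      (le_trans T1 (by norm_num))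
        (le_trans (by norm_num) hb0) (le_trans hb1 (by norm_num))
        (le_trans (by norm_num) s0) (le_trans s1 (by norm_num)))
    rcases le_total k.re (39 / 100) with hb2 | hb2
    · exact tB1_G hs (e x T) (chkD4 r_B1_1G2 (by norm_num)
        (le_trans (by norm_num) x0) (le_trans x1 (by norm_num)) (le_trans (by norm_num) T0)
      (le_trans T1 (by norm_num))
        (le_trans (by norm_num) hb1) (le_trans hb2 (by norm_num))
        (le_trans (by norm_num) s0) (le_trans s1 (by norm_num)))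
    rcases le_total k.re (33 / 50) with hb3 | hb3
    · exact tB1_G hs (e x T) (chkD4 r_B1_1G3 (by norm_num)
        (le_trans (by norm_num) x0) (le_trans x1 (by norm_num)) (le_trans (by norm_num) T0)
      (le_trans T1 (by norm_num))
        (le_trans (by norm_num) hb2) (le_trans hb3 (by norm_num))
        (le_trans (by norm_num) s0) (le_trans s1 (by norm_num)))
    exact tB1_G hs (e x T) (chkD4 r_B1_1G4 (by norm_num)
      (le_trans (by norm_num) x0) (le_trans x1 (by norm_num)) (le_trans (by norm_num) T0)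
      (le_trans T1 (by norm_num))
      (le_trans (by norm_num) hb3) (le_trans k1 (by norm_num))
      (le_trans (by norm_num) s0) (le_trans s1 (by norm_num)))

/-! ### cell `B2` -/

/-- side of the `1` -/
def SB2 (x T : ℝ) (k : ℂ) : Prop :=
  (P1 iB2_0 x T k ∧ Gd iB2_0 x k) ∨
    (P1 iB2_1 x T k ∧ Gd iB2_1 x k) ∨
    (P1 iB2_2 x T k ∧ Gd iB2_2 x k)

theorem tB2_G {s : ℝ} (hs : (⟨x, -hh x⟩ : ℂ) + k ≠ 1)
    (e : k = ⟨vy.val [x, T, k.re, s], kG.val [x, T, k.re, s]⟩)
    (h : ∃ e ∈ ([f1e iB2_0 vy kG, f1l iB2_0 vy kG, f1e iB2_1 vy kG, f1l iB2_1 vy kG, .of (f1z iB2_2 vy kG)] : List D),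
      0 < e.val [x, T, k.re, s]) : SB2 x T k := by
  obtain ⟨d, hd, hp⟩ := h
  simp only [List.mem_cons, List.not_mem_nil, or_false] at hd
  unfold SB2
  rcases hd with rfl | rfl | rfl | rfl | rfl
  · exact Or.inl ⟨P1_e' e hp, Or.inr hs⟩
  · exact Or.inl ⟨P1_l' (by decide) e hp, Or.inr hs⟩
  · exact Or.inr (Or.inl ⟨P1_e' e hp, Or.inr hs⟩)
  · exact Or.inr (Or.inl ⟨P1_l' (by decide) e hp, Or.inr hs⟩)
  · exact Or.inr (Or.inr (⟨P1_z' rfl e hp, Or.inl rfl⟩))

theorem sB2_G (x0 : 63 / 100 ≤ x) (x1 : x ≤ 13 / 20) (T0 : 3 / 50 ≤ T) (T1 : T ≤ 47 / 500) (hk : KG k) :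
    SB2 x T k := by
  by_cases hs : (⟨x, -hh x⟩ : ℂ) + k = 1
  · have e := sing hs T
    obtain ⟨d, hd, hp⟩ := chkD4 r_B2_1s (x := x) (y := T) (z := 0) (w := 0) (by norm_num)
      (le_trans (by norm_num) x0) (le_trans x1 (by norm_num)) (le_trans (by norm_num) T0)
      (le_trans T1 (by norm_num)) (by norm_num) (by norm_num) (by norm_num) (by norm_num)
    simp only [List.mem_cons, List.not_mem_nil, or_false] at hd
    unfold SB2
    subst hd
    exact Or.inr (Or.inr (⟨P1_z' rfl e hp, Or.inl rfl⟩))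
  · obtain ⟨s, s0, s1, e⟩ := hk.par
    have k0 := hk.1.1
    have k1 := hk.1.2
    rcases le_total k.re (3 / 20) with hb0 | hb0
    · exact tB2_G hs (e x T) (chkD4 r_B2_1G0 (by norm_num)
        (le_trans (by norm_num) x0) (le_trans x1 (by norm_num)) (le_trans (by norm_num) T0)
      (le_trans T1 (by norm_num))
        (le_trans (by norm_num) k0) (le_trans hb0 (by norm_num))
        (le_trans (by norm_num) s0) (le_trans s1 (by norm_num)))
    rcases le_total k.re (33 / 100) with hb1 | hb1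
    · exact tB2_G hs (e x T) (chkD4 r_B2_1G1 (by norm_num)
        (le_trans (by norm_num) x0) (le_trans x1 (by norm_num)) (le_trans (by norm_num) T0)
      (le_trans T1 (by norm_num))
        (le_trans (by norm_num) hb0) (le_trans hb1 (by norm_num))
        (le_trans (by norm_num) s0) (le_trans s1 (by norm_num)))
    rcases le_total k.re (39 / 100) with hb2 | hb2
    · exact tB2_G hs (e x T) (chkD4 r_B2_1G2 (by norm_num)
        (le_trans (by norm_num) x0) (le_trans x1 (by norm_num)) (le_trans (by norm_num) T0)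
      (le_trans T1 (by norm_num))
        (le_trans (by norm_num) hb1) (le_trans hb2 (by norm_num))
        (le_trans (by norm_num) s0) (le_trans s1 (by norm_num)))
    rcases le_total k.re (33 / 50) with hb3 | hb3
    · exact tB2_G hs (e x T) (chkD4 r_B2_1G3 (by norm_num)
        (le_trans (by norm_num) x0) (le_trans x1 (by norm_num)) (le_trans (by norm_num) T0)
      (le_trans T1 (by norm_num))
        (le_trans (by norm_num) hb2) (le_trans hb3 (by norm_num))
        (le_trans (by norm_num) s0) (le_trans s1 (by norm_num)))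
    exact tB2_G hs (e x T) (chkD4 r_B2_1G4 (by norm_num)
      (le_trans (by norm_num) x0) (le_trans x1 (by norm_num)) (le_trans (by norm_num) T0)
      (le_trans T1 (by norm_num))
      (le_trans (by norm_num) hb3) (le_trans k1 (by norm_num))
      (le_trans (by norm_num) s0) (le_trans s1 (by norm_num)))

/-! ### cell `A1` -/

/-- side of the `1` -/
def SA1 (x T : ℝ) (k : ℂ) : Prop :=
  (P1 iA1_0 x T k ∧ Gd iA1_0 x k) ∨
    (P1 iA1_1 x T k ∧ Gd iA1_1 x k) ∨
    (P1 iA1_2 x T k ∧ Gd iA1_2 x k)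

theorem tA1_G {s : ℝ} (hs : (⟨x, -hh x⟩ : ℂ) + k ≠ 1)
    (e : k = ⟨vy.val [x, T, k.re, s], kG.val [x, T, k.re, s]⟩)
    (h : ∃ e ∈ ([f1e iA1_0 vy kG, f1l iA1_0 vy kG, f1e iA1_1 vy kG, f1l iA1_1 vy kG, .of (f1z iA1_2 vy kG)] : List D),
      0 < e.val [x, T, k.re, s]) : SA1 x T k := by
  obtain ⟨d, hd, hp⟩ := h
  simp only [List.mem_cons, List.not_mem_nil, or_false] at hd
  unfold SA1
  rcases hd with rfl | rfl | rfl | rfl | rfl
  · exact Or.inl ⟨P1_e' e hp, Or.inr hs⟩
  · exact Or.inl ⟨P1_l' (by decide) e hp, Or.inr hs⟩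
  · exact Or.inr (Or.inl ⟨P1_e' e hp, Or.inr hs⟩)
  · exact Or.inr (Or.inl ⟨P1_l' (by decide) e hp, Or.inr hs⟩)
  · exact Or.inr (Or.inr (⟨P1_z' rfl e hp, Or.inl rfl⟩))

theorem sA1_G (x0 : 63 / 100 ≤ x) (x1 : x ≤ 13 / 20) (T0 : 21 / 1000 ≤ T) (T1 : T ≤ 9 / 200) (hk : KG k) :
    SA1 x T k := by
  by_cases hs : (⟨x, -hh x⟩ : ℂ) + k = 1
  · have e := sing hs T
    obtain ⟨d, hd, hp⟩ := chkD4 r_A1_1s (x := x) (y := T) (z := 0) (w := 0) (by norm_num)
      (le_trans (by norm_num) x0) (le_trans x1 (by norm_num)) (le_trans (by norm_num) T0)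
      (le_trans T1 (by norm_num)) (by norm_num) (by norm_num) (by norm_num) (by norm_num)
    simp only [List.mem_cons, List.not_mem_nil, or_false] at hd
    unfold SA1
    subst hd
    exact Or.inr (Or.inr (⟨P1_z' rfl e hp, Or.inl rfl⟩))
  · obtain ⟨s, s0, s1, e⟩ := hk.par
    have k0 := hk.1.1
    have k1 := hk.1.2
    rcases le_total k.re (3 / 20) with hb0 | hb0
    · exact tA1_G hs (e x T) (chkD4 r_A1_1G0 (by norm_num)
        (le_trans (by norm_num) x0) (le_trans x1 (by norm_num)) (le_trans (by norm_num) T0)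
      (le_trans T1 (by norm_num))
        (le_trans (by norm_num) k0) (le_trans hb0 (by norm_num))
        (le_trans (by norm_num) s0) (le_trans s1 (by norm_num)))
    rcases le_total k.re (33 / 100) with hb1 | hb1
    · exact tA1_G hs (e x T) (chkD4 r_A1_1G1 (by norm_num)
        (le_trans (by norm_num) x0) (le_trans x1 (by norm_num)) (le_trans (by norm_num) T0)
      (le_trans T1 (by norm_num))
        (le_trans (by norm_num) hb0) (le_trans hb1 (by norm_num))
        (le_trans (by norm_num) s0) (le_trans s1 (by norm_num)))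
    rcases le_total k.re (39 / 100) with hb2 | hb2
    · exact tA1_G hs (e x T) (chkD4 r_A1_1G2 (by norm_num)
        (le_trans (by norm_num) x0) (le_trans x1 (by norm_num)) (le_trans (by norm_num) T0)
      (le_trans T1 (by norm_num))
        (le_trans (by norm_num) hb1) (le_trans hb2 (by norm_num))
        (le_trans (by norm_num) s0) (le_trans s1 (by norm_num)))
    rcases le_total k.re (33 / 50) with hb3 | hb3
    · exact tA1_G hs (e x T) (chkD4 r_A1_1G3 (by norm_num)
        (le_trans (by norm_num) x0) (le_trans x1 (by norm_num)) (le_trans (by norm_num) T0)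
      (le_trans T1 (by norm_num))
        (le_trans (by norm_num) hb2) (le_trans hb3 (by norm_num))
        (le_trans (by norm_num) s0) (le_trans s1 (by norm_num)))
    exact tA1_G hs (e x T) (chkD4 r_A1_1G4 (by norm_num)
      (le_trans (by norm_num) x0) (le_trans x1 (by norm_num)) (le_trans (by norm_num) T0)
      (le_trans T1 (by norm_num))
      (le_trans (by norm_num) hb3) (le_trans k1 (by norm_num))
      (le_trans (by norm_num) s0) (le_trans s1 (by norm_num)))

/-! ### cell `A2` -/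

/-- side of the `1` -/
def SA2 (x T : ℝ) (k : ℂ) : Prop :=
  (P1 iA2_0 x T k ∧ Gd iA2_0 x k) ∨
    (P1 iA2_1 x T k ∧ Gd iA2_1 x k) ∨
    (P1 iA2_2 x T k ∧ Gd iA2_2 x k)

theorem tA2_G {s : ℝ} (hs : (⟨x, -hh x⟩ : ℂ) + k ≠ 1)
    (e : k = ⟨vy.val [x, T, k.re, s], kG.val [x, T, k.re, s]⟩)
    (h : ∃ e ∈ ([f1e iA2_0 vy kG, f1l iA2_0 vy kG, .of (f1z iA2_1 vy kG), f1e iA2_2 vy kG, f1l iA2_2 vy kG] : List D),
      0 < e.val [x, T, k.re, s]) : SA2 x T k := by
  obtain ⟨d, hd, hp⟩ := h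
  simp only [List.mem_cons, List.not_mem_nil, or_false] at hd
  unfold SA2
  rcases hd with rfl | rfl | rfl | rfl | rfl
  · exact Or.inl ⟨P1_e' e hp, Or.inr hs⟩
  · exact Or.inl ⟨P1_l' (by decide) e hp, Or.inr hs⟩
  · exact Or.inr (Or.inl ⟨P1_z' rfl e hp, Or.inl rfl⟩)
  · exact Or.inr (Or.inr (⟨P1_e' e hp, Or.inr hs⟩))
  · exact Or.inr (Or.inr (⟨P1_l' (by decide) e hp, Or.inr hs⟩))

theorem sA2_G (x0 : 63 / 100 ≤ x) (x1 : x ≤ 13 / 20) (T0 : 9 / 200 ≤ T) (T1 : T ≤ 3 / 50) (hk : KG k) :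
    SA2 x T k := by
  by_cases hs : (⟨x, -hh x⟩ : ℂ) + k = 1
  · have e := sing hs T
    obtain ⟨d, hd, hp⟩ := chkD4 r_A2_1s (x := x) (y := T) (z := 0) (w := 0) (by norm_num)
      (le_trans (by norm_num) x0) (le_trans x1 (by norm_num)) (le_trans (by norm_num) T0)
      (le_trans T1 (by norm_num)) (by norm_num) (by norm_num) (by norm_num) (by norm_num)
    simp only [List.mem_cons, List.not_mem_nil, or_false] at hd
    unfold SA2
    subst hd
    exact Or.inr (Or.inl ⟨P1_z' rfl e hp, Or.inl rfl⟩)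
  · obtain ⟨s, s0, s1, e⟩ := hk.par
    have k0 := hk.1.1
    have k1 := hk.1.2
    rcases le_total k.re (3 / 20) with hb0 | hb0
    · exact tA2_G hs (e x T) (chkD4 r_A2_1G0 (by norm_num)
        (le_trans (by norm_num) x0) (le_trans x1 (by norm_num)) (le_trans (by norm_num) T0)
      (le_trans T1 (by norm_num))
        (le_trans (by norm_num) k0) (le_trans hb0 (by norm_num))
        (le_trans (by norm_num) s0) (le_trans s1 (by norm_num)))
    rcases le_total k.re (33 / 100) with hb1 | hb1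
    · exact tA2_G hs (e x T) (chkD4 r_A2_1G1 (by norm_num)
        (le_trans (by norm_num) x0) (le_trans x1 (by norm_num)) (le_trans (by norm_num) T0)
      (le_trans T1 (by norm_num))
        (le_trans (by norm_num) hb0) (le_trans hb1 (by norm_num))
        (le_trans (by norm_num) s0) (le_trans s1 (by norm_num)))
    rcases le_total k.re (39 / 100) with hb2 | hb2
    · exact tA2_G hs (e x T) (chkD4 r_A2_1G2 (by norm_num)
        (le_trans (by norm_num) x0) (le_trans x1 (by norm_num)) (le_trans (by norm_num) T0)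
      (le_trans T1 (by norm_num))
        (le_trans (by norm_num) hb1) (le_trans hb2 (by norm_num))
        (le_trans (by norm_num) s0) (le_trans s1 (by norm_num)))
    rcases le_total k.re (33 / 50) with hb3 | hb3
    · exact tA2_G hs (e x T) (chkD4 r_A2_1G3 (by norm_num)
        (le_trans (by norm_num) x0) (le_trans x1 (by norm_num)) (le_trans (by norm_num) T0)
      (le_trans T1 (by norm_num))
        (le_trans (by norm_num) hb2) (le_trans hb3 (by norm_num))
        (le_trans (by norm_num) s0) (le_trans s1 (by norm_num)))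
    exact tA2_G hs (e x T) (chkD4 r_A2_1G4 (by norm_num)
      (le_trans (by norm_num) x0) (le_trans x1 (by norm_num)) (le_trans (by norm_num) T0)
      (le_trans T1 (by norm_num))
      (le_trans (by norm_num) hb3) (le_trans k1 (by norm_num))
      (le_trans (by norm_num) s0) (le_trans s1 (by norm_num)))

/-! ### cell `A3` -/

/-- side of the `1` -/
def SA3 (x T : ℝ) (k : ℂ) : Prop :=
  (P1 iA3_0 x T k ∧ Gd iA3_0 x k) ∨
    (P1 iA3_1 x T k ∧ Gd iA3_1 x k)

theorem tA3_G {s : ℝ} (hs : (⟨x, -hh x⟩ : ℂ) + k ≠ 1)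
    (e : k = ⟨vy.val [x, T, k.re, s], kG.val [x, T, k.re, s]⟩)
    (h : ∃ e ∈ ([f1e iA3_0 vy kG, f1l iA3_0 vy kG, .of (f1z iA3_1 vy kG)] : List D),
      0 < e.val [x, T, k.re, s]) : SA3 x T k := by
  obtain ⟨d, hd, hp⟩ := h
  simp only [List.mem_cons, List.not_mem_nil, or_false] at hd
  unfold SA3
  rcases hd with rfl | rfl | rfl
  · exact Or.inl ⟨P1_e' e hp, Or.inr hs⟩
  · exact Or.inl ⟨P1_l' (by decide) e hp, Or.inr hs⟩
  · exact Or.inr (⟨P1_z' rfl e hp, Or.inl rfl⟩)

theorem sA3_G (x0 : 63 / 100 ≤ x) (x1 : x ≤ 16 / 25) (T0 : 3 / 50 ≤ T) (T1 : T ≤ 2 / 25) (hk : KG k) :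
    SA3 x T k := by
  by_cases hs : (⟨x, -hh x⟩ : ℂ) + k = 1
  · have e := sing hs T
    obtain ⟨d, hd, hp⟩ := chkD4 r_A3_1s (x := x) (y := T) (z := 0) (w := 0) (by norm_num)
      (le_trans (by norm_num) x0) (le_trans x1 (by norm_num)) (le_trans (by norm_num) T0)
      (le_trans T1 (by norm_num)) (by norm_num) (by norm_num) (by norm_num) (by norm_num)
    simp only [List.mem_cons, List.not_mem_nil, or_false] at hd
    unfold SA3
    subst hd
    exact Or.inr (⟨P1_z' rfl e hp, Or.inl rfl⟩)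
  · obtain ⟨s, s0, s1, e⟩ := hk.par
    have k0 := hk.1.1
    have k1 := hk.1.2
    rcases le_total k.re (3 / 20) with hb0 | hb0
    · exact tA3_G hs (e x T) (chkD4 r_A3_1G0 (by norm_num)
        (le_trans (by norm_num) x0) (le_trans x1 (by norm_num)) (le_trans (by norm_num) T0)
      (le_trans T1 (by norm_num))
        (le_trans (by norm_num) k0) (le_trans hb0 (by norm_num))
        (le_trans (by norm_num) s0) (le_trans s1 (by norm_num)))
    rcases le_total k.re (33 / 100) with hb1 | hb1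
    · exact tA3_G hs (e x T) (chkD4 r_A3_1G1 (by norm_num)
        (le_trans (by norm_num) x0) (le_trans x1 (by norm_num)) (le_trans (by norm_num) T0)
      (le_trans T1 (by norm_num))
        (le_trans (by norm_num) hb0) (le_trans hb1 (by norm_num))
        (le_trans (by norm_num) s0) (le_trans s1 (by norm_num)))
    rcases le_total k.re (39 / 100) with hb2 | hb2
    · exact tA3_G hs (e x T) (chkD4 r_A3_1G2 (by norm_num)
        (le_trans (by norm_num) x0) (le_trans x1 (by norm_num)) (le_trans (by norm_num) T0)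
      (le_trans T1 (by norm_num))
        (le_trans (by norm_num) hb1) (le_trans hb2 (by norm_num))
        (le_trans (by norm_num) s0) (le_trans s1 (by norm_num)))
    rcases le_total k.re (33 / 50) with hb3 | hb3
    · exact tA3_G hs (e x T) (chkD4 r_A3_1G3 (by norm_num)
        (le_trans (by norm_num) x0) (le_trans x1 (by norm_num)) (le_trans (by norm_num) T0)
      (le_trans T1 (by norm_num))
        (le_trans (by norm_num) hb2) (le_trans hb3 (by norm_num))
        (le_trans (by norm_num) s0) (le_trans s1 (by norm_num)))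
    exact tA3_G hs (e x T) (chkD4 r_A3_1G4 (by norm_num)
      (le_trans (by norm_num) x0) (le_trans x1 (by norm_num)) (le_trans (by norm_num) T0)
      (le_trans T1 (by norm_num))
      (le_trans (by norm_num) hb3) (le_trans k1 (by norm_num))
      (le_trans (by norm_num) s0) (le_trans s1 (by norm_num)))

/-! ### cell `A4` -/

/-- side of the `1` -/
def SA4 (x T : ℝ) (k : ℂ) : Prop :=
  (P1 iA4_0 x T k ∧ Gd iA4_0 x k) ∨
    (P1 iA4_1 x T k ∧ Gd iA4_1 x k) ∨
    (P1 iA4_2 x T k ∧ Gd iA4_2 x k) ∨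
    (P1 iA4_3 x T k ∧ Gd iA4_3 x k)

theorem tA4_G {s : ℝ} (hs : (⟨x, -hh x⟩ : ℂ) + k ≠ 1)
    (e : k = ⟨vy.val [x, T, k.re, s], kG.val [x, T, k.re, s]⟩)
    (h : ∃ e ∈ ([f1e iA4_0 vy kG, f1l iA4_0 vy kG, .of (f1z iA4_1 vy kG), f1e iA4_2 vy kG, f1l iA4_2 vy kG, f1e iA4_3 vy kG, f1l iA4_3 vy kG] : List D),
      0 < e.val [x, T, k.re, s]) : SA4 x T k := by
  obtain ⟨d, hd, hp⟩ := h
  simp only [List.mem_cons, List.not_mem_nil, or_false] at hd
  unfold SA4
  rcases hd with rfl | rfl | rfl | rfl | rfl | rfl | rfl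
  · exact Or.inl ⟨P1_e' e hp, Or.inr hs⟩
  · exact Or.inl ⟨P1_l' (by decide) e hp, Or.inr hs⟩
  · exact Or.inr (Or.inl ⟨P1_z' rfl e hp, Or.inl rfl⟩)
  · exact Or.inr (Or.inr (Or.inl ⟨P1_e' e hp, Or.inr hs⟩))
  · exact Or.inr (Or.inr (Or.inl ⟨P1_l' (by decide) e hp, Or.inr hs⟩))
  · exact Or.inr (Or.inr (Or.inr (⟨P1_e' e hp, Or.inr hs⟩)))
  · exact Or.inr (Or.inr (Or.inr (⟨P1_l' (by decide) e hp, Or.inr hs⟩)))

theorem sA4_G (x0 : 16 / 25 ≤ x) (x1 : x ≤ 13 / 20) (T0 : 3 / 50 ≤ T) (T1 : T ≤ 2 / 25) (hk : KG k) :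
    SA4 x T k := by
  by_cases hs : (⟨x, -hh x⟩ : ℂ) + k = 1
  · have e := sing hs T
    obtain ⟨d, hd, hp⟩ := chkD4 r_A4_1s (x := x) (y := T) (z := 0) (w := 0) (by norm_num)
      (le_trans (by norm_num) x0) (le_trans x1 (by norm_num)) (le_trans (by norm_num) T0)
      (le_trans T1 (by norm_num)) (by norm_num) (by norm_num) (by norm_num) (by norm_num)
    simp only [List.mem_cons, List.not_mem_nil, or_false] at hd
    unfold SA4
    subst hd
    exact Or.inr (Or.inl ⟨P1_z' rfl e hp, Or.inl rfl⟩)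
  · obtain ⟨s, s0, s1, e⟩ := hk.par
    have k0 := hk.1.1
    have k1 := hk.1.2
    rcases le_total k.re (3 / 20) with hb0 | hb0
    · exact tA4_G hs (e x T) (chkD4 r_A4_1G0 (by norm_num)
        (le_trans (by norm_num) x0) (le_trans x1 (by norm_num)) (le_trans (by norm_num) T0)
      (le_trans T1 (by norm_num))
        (le_trans (by norm_num) k0) (le_trans hb0 (by norm_num))
        (le_trans (by norm_num) s0) (le_trans s1 (by norm_num)))
    rcases le_total k.re (33 / 100) with hb1 | hb1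
    · exact tA4_G hs (e x T) (chkD4 r_A4_1G1 (by norm_num)
        (le_trans (by norm_num) x0) (le_trans x1 (by norm_num)) (le_trans (by norm_num) T0)
      (le_trans T1 (by norm_num))
        (le_trans (by norm_num) hb0) (le_trans hb1 (by norm_num))
        (le_trans (by norm_num) s0) (le_trans s1 (by norm_num)))
    rcases le_total k.re (39 / 100) with hb2 | hb2
    · exact tA4_G hs (e x T) (chkD4 r_A4_1G2 (by norm_num)
        (le_trans (by norm_num) x0) (le_trans x1 (by norm_num)) (le_trans (by norm_num) T0)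
      (le_trans T1 (by norm_num))
        (le_trans (by norm_num) hb1) (le_trans hb2 (by norm_num))
        (le_trans (by norm_num) s0) (le_trans s1 (by norm_num)))
    rcases le_total k.re (33 / 50) with hb3 | hb3
    · exact tA4_G hs (e x T) (chkD4 r_A4_1G3 (by norm_num)
        (le_trans (by norm_num) x0) (le_trans x1 (by norm_num)) (le_trans (by norm_num) T0)
      (le_trans T1 (by norm_num))
        (le_trans (by norm_num) hb2) (le_trans hb3 (by norm_num))
        (le_trans (by norm_num) s0) (le_trans s1 (by norm_num)))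
    exact tA4_G hs (e x T) (chkD4 r_A4_1G4 (by norm_num)
      (le_trans (by norm_num) x0) (le_trans x1 (by norm_num)) (le_trans (by norm_num) T0)
      (le_trans T1 (by norm_num))
      (le_trans (by norm_num) hb3) (le_trans k1 (by norm_num))
      (le_trans (by norm_num) s0) (le_trans s1 (by norm_num)))

/-! ### cell `A5` -/

/-- side of the `1` -/
def SA5 (x T : ℝ) (k : ℂ) : Prop :=
  (P1 iA5_0 x T k ∧ Gd iA5_0 x k) ∨
    (P1 iA5_1 x T k ∧ Gd iA5_1 x k)

theorem tA5_G {s : ℝ} (hs : (⟨x, -hh x⟩ : ℂ) + k ≠ 1)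
    (e : k = ⟨vy.val [x, T, k.re, s], kG.val [x, T, k.re, s]⟩)
    (h : ∃ e ∈ ([f1e iA5_0 vy kG, f1l iA5_0 vy kG, .of (f1z iA5_1 vy kG)] : List D),
      0 < e.val [x, T, k.re, s]) : SA5 x T k := by
  obtain ⟨d, hd, hp⟩ := h
  simp only [List.mem_cons, List.not_mem_nil, or_false] at hd
  unfold SA5
  rcases hd with rfl | rfl | rfl
  · exact Or.inl ⟨P1_e' e hp, Or.inr hs⟩
  · exact Or.inl ⟨P1_l' (by decide) e hp, Or.inr hs⟩
  · exact Or.inr (⟨P1_z' rfl e hp, Or.inl rfl⟩)

theorem sA5_G (x0 : 63 / 100 ≤ x) (x1 : x ≤ 16 / 25) (T0 : 2 / 25 ≤ T) (T1 : T ≤ 47 / 500) (hk : KG k) :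
    SA5 x T k := by
  by_cases hs : (⟨x, -hh x⟩ : ℂ) + k = 1
  · have e := sing hs T
    obtain ⟨d, hd, hp⟩ := chkD4 r_A5_1s (x := x) (y := T) (z := 0) (w := 0) (by norm_num)
      (le_trans (by norm_num) x0) (le_trans x1 (by norm_num)) (le_trans (by norm_num) T0)
      (le_trans T1 (by norm_num)) (by norm_num) (by norm_num) (by norm_num) (by norm_num)
    simp only [List.mem_cons, List.not_mem_nil, or_false] at hd
    unfold SA5
    subst hd
    exact Or.inr (⟨P1_z' rfl e hp, Or.inl rfl⟩)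
  · obtain ⟨s, s0, s1, e⟩ := hk.par
    have k0 := hk.1.1
    have k1 := hk.1.2
    rcases le_total k.re (3 / 20) with hb0 | hb0
    · exact tA5_G hs (e x T) (chkD4 r_A5_1G0 (by norm_num)
        (le_trans (by norm_num) x0) (le_trans x1 (by norm_num)) (le_trans (by norm_num) T0)
      (le_trans T1 (by norm_num))
        (le_trans (by norm_num) k0) (le_trans hb0 (by norm_num))
        (le_trans (by norm_num) s0) (le_trans s1 (by norm_num)))
    rcases le_total k.re (33 / 100) with hb1 | hb1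
    · exact tA5_G hs (e x T) (chkD4 r_A5_1G1 (by norm_num)
        (le_trans (by norm_num) x0) (le_trans x1 (by norm_num)) (le_trans (by norm_num) T0)
      (le_trans T1 (by norm_num))
        (le_trans (by norm_num) hb0) (le_trans hb1 (by norm_num))
        (le_trans (by norm_num) s0) (le_trans s1 (by norm_num)))
    rcases le_total k.re (39 / 100) with hb2 | hb2
    · exact tA5_G hs (e x T) (chkD4 r_A5_1G2 (by norm_num)
        (le_trans (by norm_num) x0) (le_trans x1 (by norm_num)) (le_trans (by norm_num) T0)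
      (le_trans T1 (by norm_num))
        (le_trans (by norm_num) hb1) (le_trans hb2 (by norm_num))
        (le_trans (by norm_num) s0) (le_trans s1 (by norm_num)))
    rcases le_total k.re (33 / 50) with hb3 | hb3
    · exact tA5_G hs (e x T) (chkD4 r_A5_1G3 (by norm_num)
        (le_trans (by norm_num) x0) (le_trans x1 (by norm_num)) (le_trans (by norm_num) T0)
      (le_trans T1 (by norm_num))
        (le_trans (by norm_num) hb2) (le_trans hb3 (by norm_num))
        (le_trans (by norm_num) s0) (le_trans s1 (by norm_num)))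
    exact tA5_G hs (e x T) (chkD4 r_A5_1G4 (by norm_num)
      (le_trans (by norm_num) x0) (le_trans x1 (by norm_num)) (le_trans (by norm_num) T0)
      (le_trans T1 (by norm_num))
      (le_trans (by norm_num) hb3) (le_trans k1 (by norm_num))
      (le_trans (by norm_num) s0) (le_trans s1 (by norm_num)))

/-! ### cell `A6` -/

/-- side of the `1` -/
def SA6 (x T : ℝ) (k : ℂ) : Prop :=
  (P1 iA6_0 x T k ∧ Gd iA6_0 x k) ∨
    (P1 iA6_1 x T k ∧ Gd iA6_1 x k) ∨
    (P1 iA6_2 x T k ∧ Gd iA6_2 x k)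

theorem tA6_G {s : ℝ} (hs : (⟨x, -hh x⟩ : ℂ) + k ≠ 1)
    (e : k = ⟨vy.val [x, T, k.re, s], kG.val [x, T, k.re, s]⟩)
    (h : ∃ e ∈ ([f1e iA6_0 vy kG, f1l iA6_0 vy kG, .of (f1z iA6_1 vy kG), f1e iA6_2 vy kG, f1l iA6_2 vy kG] : List D),
      0 < e.val [x, T, k.re, s]) : SA6 x T k := by
  obtain ⟨d, hd, hp⟩ := h
  simp only [List.mem_cons, List.not_mem_nil, or_false] at hd
  unfold SA6
  rcases hd with rfl | rfl | rfl | rfl | rfl
  · exact Or.inl ⟨P1_e' e hp, Or.inr hs⟩
  · exact Or.inl ⟨P1_l' (by decide) e hp, Or.inr hs⟩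
  · exact Or.inr (Or.inl ⟨P1_z' rfl e hp, Or.inl rfl⟩)
  · exact Or.inr (Or.inr (⟨P1_e' e hp, Or.inr hs⟩))
  · exact Or.inr (Or.inr (⟨P1_l' (by decide) e hp, Or.inr hs⟩))

theorem sA6_G (x0 : 16 / 25 ≤ x) (x1 : x ≤ 13 / 20) (T0 : 2 / 25 ≤ T) (T1 : T ≤ 23 / 250) (hk : KG k) :
    SA6 x T k := by
  by_cases hs : (⟨x, -hh x⟩ : ℂ) + k = 1
  · have e := sing hs T
    obtain ⟨d, hd, hp⟩ := chkD4 r_A6_1s (x := x) (y := T) (z := 0) (w := 0) (by norm_num)
      (le_trans (by norm_num) x0) (le_trans x1 (by norm_num)) (le_trans (by norm_num) T0)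
      (le_trans T1 (by norm_num)) (by norm_num) (by norm_num) (by norm_num) (by norm_num)
    simp only [List.mem_cons, List.not_mem_nil, or_false] at hd
    unfold SA6
    subst hd
    exact Or.inr (Or.inl ⟨P1_z' rfl e hp, Or.inl rfl⟩)
  · obtain ⟨s, s0, s1, e⟩ := hk.par
    have k0 := hk.1.1
    have k1 := hk.1.2
    rcases le_total k.re (3 / 20) with hb0 | hb0
    · exact tA6_G hs (e x T) (chkD4 r_A6_1G0 (by norm_num)
        (le_trans (by norm_num) x0) (le_trans x1 (by norm_num)) (le_trans (by norm_num) T0)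
      (le_trans T1 (by norm_num))
        (le_trans (by norm_num) k0) (le_trans hb0 (by norm_num))
        (le_trans (by norm_num) s0) (le_trans s1 (by norm_num)))
    rcases le_total k.re (33 / 100) with hb1 | hb1
    · exact tA6_G hs (e x T) (chkD4 r_A6_1G1 (by norm_num)
        (le_trans (by norm_num) x0) (le_trans x1 (by norm_num)) (le_trans (by norm_num) T0)
      (le_trans T1 (by norm_num))
        (le_trans (by norm_num) hb0) (le_trans hb1 (by norm_num))
        (le_trans (by norm_num) s0) (le_trans s1 (by norm_num)))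
    rcases le_total k.re (39 / 100) with hb2 | hb2
    · exact tA6_G hs (e x T) (chkD4 r_A6_1G2 (by norm_num)
        (le_trans (by norm_num) x0) (le_trans x1 (by norm_num)) (le_trans (by norm_num) T0)
      (le_trans T1 (by norm_num))
        (le_trans (by norm_num) hb1) (le_trans hb2 (by norm_num))
        (le_trans (by norm_num) s0) (le_trans s1 (by norm_num)))
    rcases le_total k.re (33 / 50) with hb3 | hb3
    · exact tA6_G hs (e x T) (chkD4 r_A6_1G3 (by norm_num)
        (le_trans (by norm_num) x0) (le_trans x1 (by norm_num)) (le_trans (by norm_num) T0)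
      (le_trans T1 (by norm_num))
        (le_trans (by norm_num) hb2) (le_trans hb3 (by norm_num))
        (le_trans (by norm_num) s0) (le_trans s1 (by norm_num)))
    exact tA6_G hs (e x T) (chkD4 r_A6_1G4 (by norm_num)
      (le_trans (by norm_num) x0) (le_trans x1 (by norm_num)) (le_trans (by norm_num) T0)
      (le_trans T1 (by norm_num))
      (le_trans (by norm_num) hb3) (le_trans k1 (by norm_num))
      (le_trans (by norm_num) s0) (le_trans s1 (by norm_num)))

/-! ### cell `A7` -/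

/-- side of the `1` -/
def SA7 (x T : ℝ) (k : ℂ) : Prop :=
  (P1 iA7_0 x T k ∧ Gd iA7_0 x k) ∨
    (P1 iA7_1 x T k ∧ Gd iA7_1 x k) ∨
    (P1 iA7_2 x T k ∧ Gd iA7_2 x k) ∨
    (P1 iA7_3 x T k ∧ Gd iA7_3 x k)

theorem tA7_W {s : ℝ} (hs : (⟨x, -hh x⟩ : ℂ) + k ≠ 1)
    (e : k = ⟨vy.val [x, T, k.re, s], kW.val [x, T, k.re, s]⟩)
    (h : ∃ e ∈ ([f1e iA7_0 vy kW, f1l iA7_0 vy kW, .of (f1z iA7_1 vy kW), f1e iA7_2 vy kW, f1l iA7_2 vy kW, f1e iA7_3 vy kW, f1l iA7_3 vy kW] : List D),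
      0 < e.val [x, T, k.re, s]) : SA7 x T k := by
  obtain ⟨d, hd, hp⟩ := h
  simp only [List.mem_cons, List.not_mem_nil, or_false] at hd
  unfold SA7
  rcases hd with rfl | rfl | rfl | rfl | rfl | rfl | rfl
  · exact Or.inl ⟨P1_e' e hp, Or.inr hs⟩
  · exact Or.inl ⟨P1_l' (by decide) e hp, Or.inr hs⟩
  · exact Or.inr (Or.inl ⟨P1_z' rfl e hp, Or.inl rfl⟩)
  · exact Or.inr (Or.inr (Or.inl ⟨P1_e' e hp, Or.inr hs⟩))
  · exact Or.inr (Or.inr (Or.inl ⟨P1_l' (by decide) e hp, Or.inr hs⟩))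
  · exact Or.inr (Or.inr (Or.inr (⟨P1_e' e hp, Or.inr hs⟩)))
  · exact Or.inr (Or.inr (Or.inr (⟨P1_l' (by decide) e hp, Or.inr hs⟩)))

theorem sA7_W (x0 : 16 / 25 ≤ x) (x1 : x ≤ 13 / 20) (T0 : 23 / 250 ≤ T) (T1 : T ≤ 47 / 500) (hk : KW k) :
    SA7 x T k := by
  by_cases hs : (⟨x, -hh x⟩ : ℂ) + k = 1
  · have e := sing hs T
    obtain ⟨d, hd, hp⟩ := chkD4 r_A7_1s (x := x) (y := T) (z := 0) (w := 0) (by norm_num)
      (le_trans (by norm_num) x0) (le_trans x1 (by norm_num)) (le_trans (by norm_num) T0)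
      (le_trans T1 (by norm_num)) (by norm_num) (by norm_num) (by norm_num) (by norm_num)
    simp only [List.mem_cons, List.not_mem_nil, or_false] at hd
    unfold SA7
    subst hd
    exact Or.inr (Or.inl ⟨P1_z' rfl e hp, Or.inl rfl⟩)
  · obtain ⟨s, s0, s1, e⟩ := hk.par
    have k0 := hk.1.1
    have k1 := hk.1.2
    rcases le_total k.re (3 / 20) with hb0 | hb0
    · exact tA7_W hs (e x T) (chkD4 r_A7_1W0 (by norm_num)
        (le_trans (by norm_num) x0) (le_trans x1 (by norm_num)) (le_trans (by norm_num) T0)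
      (le_trans T1 (by norm_num))
        (le_trans (by norm_num) k0) (le_trans hb0 (by norm_num))
        (le_trans (by norm_num) s0) (le_trans s1 (by norm_num)))
    rcases le_total k.re (33 / 100) with hb1 | hb1
    · exact tA7_W hs (e x T) (chkD4 r_A7_1W1 (by norm_num)
        (le_trans (by norm_num) x0) (le_trans x1 (by norm_num)) (le_trans (by norm_num) T0)
      (le_trans T1 (by norm_num))
        (le_trans (by norm_num) hb0) (le_trans hb1 (by norm_num))
        (le_trans (by norm_num) s0) (le_trans s1 (by norm_num)))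
    rcases le_total k.re (39 / 100) with hb2 | hb2
    · exact tA7_W hs (e x T) (chkD4 r_A7_1W2 (by norm_num)
        (le_trans (by norm_num) x0) (le_trans x1 (by norm_num)) (le_trans (by norm_num) T0)
      (le_trans T1 (by norm_num))
        (le_trans (by norm_num) hb1) (le_trans hb2 (by norm_num))
        (le_trans (by norm_num) s0) (le_trans s1 (by norm_num)))
    rcases le_total k.re (33 / 50) with hb3 | hb3
    · exact tA7_W hs (e x T) (chkD4 r_A7_1W3 (by norm_num)
        (le_trans (by norm_num) x0) (le_trans x1 (by norm_num)) (le_trans (by norm_num) T0)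
      (le_trans T1 (by norm_num))
        (le_trans (by norm_num) hb2) (le_trans hb3 (by norm_num))
        (le_trans (by norm_num) s0) (le_trans s1 (by norm_num)))
    exact tA7_W hs (e x T) (chkD4 r_A7_1W4 (by norm_num)
      (le_trans (by norm_num) x0) (le_trans x1 (by norm_num)) (le_trans (by norm_num) T0)
      (le_trans T1 (by norm_num))
      (le_trans (by norm_num) hb3) (le_trans k1 (by norm_num))
      (le_trans (by norm_num) s0) (le_trans s1 (by norm_num)))

/-! ### cell `EA` -/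

/-- side of the `1` -/
def SEA (x T : ℝ) (k : ℂ) : Prop :=
  (P1 iEA_0 x T k ∧ Gd iEA_0 x k) ∨
    (P1 iEA_1 x T k ∧ Gd iEA_1 x k) ∨
    (P1 iEA_2 x T k ∧ Gd iEA_2 x k) ∨
    (P1 iEA_3 x T k ∧ Gd iEA_3 x k)

theorem tEA_M {s : ℝ} (hs : (⟨x, -hh x⟩ : ℂ) + k ≠ 1)
    (e : k = ⟨vy.val [x, T, k.re, s], kM.val [x, T, k.re, s]⟩)
    (h : ∃ e ∈ ([f1e iEA_0 vy kM, f1l iEA_0 vy kM, .of (f1z iEA_1 vy kM), f1e iEA_2 vy kM, f1l iEA_2 vy kM, f1e iEA_3 vy kM, f1l iEA_3 vy kM] : List D),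
      0 < e.val [x, T, k.re, s]) : SEA x T k := by
  obtain ⟨d, hd, hp⟩ := h
  simp only [List.mem_cons, List.not_mem_nil, or_false] at hd
  unfold SEA
  rcases hd with rfl | rfl | rfl | rfl | rfl | rfl | rfl
  · exact Or.inl ⟨P1_e' e hp, Or.inr hs⟩
  · exact Or.inl ⟨P1_l' (by decide) e hp, Or.inr hs⟩
  · exact Or.inr (Or.inl ⟨P1_z' rfl e hp, Or.inl rfl⟩)
  · exact Or.inr (Or.inr (Or.inl ⟨P1_e' e hp, Or.inr hs⟩))
  · exact Or.inr (Or.inr (Or.inl ⟨P1_l' (by decide) e hp, Or.inr hs⟩))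
  · exact Or.inr (Or.inr (Or.inr (⟨P1_e' e hp, Or.inr hs⟩)))
  · exact Or.inr (Or.inr (Or.inr (⟨P1_l' (by decide) e hp, Or.inr hs⟩)))

theorem sEA_M (x0 : 63 / 100 ≤ x) (x1 : x ≤ 13 / 20) (T0 : 87 / 1000 ≤ T) (T1 : T ≤ 229 / 2000) (hk : KM k) :
    SEA x T k := by
  by_cases hs : (⟨x, -hh x⟩ : ℂ) + k = 1
  · have e := sing hs T
    obtain ⟨d, hd, hp⟩ := chkD4 r_EA_1s (x := x) (y := T) (z := 0) (w := 0) (by norm_num)
      (le_trans (by norm_num) x0) (le_trans x1 (by norm_num)) (le_trans (by norm_num) T0)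
      (le_trans T1 (by norm_num)) (by norm_num) (by norm_num) (by norm_num) (by norm_num)
    simp only [List.mem_cons, List.not_mem_nil, or_false] at hd
    unfold SEA
    subst hd
    exact Or.inr (Or.inl ⟨P1_z' rfl e hp, Or.inl rfl⟩)
  · obtain ⟨s, s0, s1, e⟩ := hk.par
    have k0 := hk.1.1
    have k1 := hk.1.2
    exact tEA_M hs (e x T) (chkD4 r_EA_1M0 (by norm_num)
      (le_trans (by norm_num) x0) (le_trans x1 (by norm_num)) (le_trans (by norm_num) T0)
      (le_trans T1 (by norm_num))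
      (le_trans (by norm_num) k0) (le_trans k1 (by norm_num))
      (le_trans (by norm_num) s0) (le_trans s1 (by norm_num)))

theorem tEA_U {s : ℝ} (hs : (⟨x, -hh x⟩ : ℂ) + k ≠ 1)
    (e : k = ⟨vy.val [x, T, k.re, s], kU.val [x, T, k.re, s]⟩)
    (h : ∃ e ∈ ([f1e iEA_0 vy kU, f1l iEA_0 vy kU, .of (f1z iEA_1 vy kU), f1e iEA_2 vy kU, f1l iEA_2 vy kU, f1e iEA_3 vy kU, f1l iEA_3 vy kU] : List D),
      0 < e.val [x, T, k.re, s]) : SEA x T k := by
  obtain ⟨d, hd, hp⟩ := h
  simp only [List.mem_cons, List.not_mem_nil, or_false] at hd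
  unfold SEA
  rcases hd with rfl | rfl | rfl | rfl | rfl | rfl | rfl
  · exact Or.inl ⟨P1_e' e hp, Or.inr hs⟩
  · exact Or.inl ⟨P1_l' (by decide) e hp, Or.inr hs⟩
  · exact Or.inr (Or.inl ⟨P1_z' rfl e hp, Or.inl rfl⟩)
  · exact Or.inr (Or.inr (Or.inl ⟨P1_e' e hp, Or.inr hs⟩))
  · exact Or.inr (Or.inr (Or.inl ⟨P1_l' (by decide) e hp, Or.inr hs⟩))
  · exact Or.inr (Or.inr (Or.inr (⟨P1_e' e hp, Or.inr hs⟩)))
  · exact Or.inr (Or.inr (Or.inr (⟨P1_l' (by decide) e hp, Or.inr hs⟩)))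

theorem sEA_U (x0 : 63 / 100 ≤ x) (x1 : x ≤ 13 / 20) (T0 : 87 / 1000 ≤ T) (T1 : T ≤ 229 / 2000) (hk : KU k) :
    SEA x T k := by
  by_cases hs : (⟨x, -hh x⟩ : ℂ) + k = 1
  · have e := sing hs T
    obtain ⟨d, hd, hp⟩ := chkD4 r_EA_1s (x := x) (y := T) (z := 0) (w := 0) (by norm_num)
      (le_trans (by norm_num) x0) (le_trans x1 (by norm_num)) (le_trans (by norm_num) T0)
      (le_trans T1 (by norm_num)) (by norm_num) (by norm_num) (by norm_num) (by norm_num)
    simp only [List.mem_cons, List.not_mem_nil, or_false] at hd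
    unfold SEA
    subst hd
    exact Or.inr (Or.inl ⟨P1_z' rfl e hp, Or.inl rfl⟩)
  · obtain ⟨s, s0, s1, e⟩ := hk.par
    have k0 := hk.1.1
    have k1 := hk.1.2
    exact tEA_U hs (e x T) (chkD4 r_EA_1U0 (by norm_num)
      (le_trans (by norm_num) x0) (le_trans x1 (by norm_num)) (le_trans (by norm_num) T0)
      (le_trans T1 (by norm_num))
      (le_trans (by norm_num) k0) (le_trans k1 (by norm_num))
      (le_trans (by norm_num) s0) (le_trans s1 (by norm_num)))

/-! ### cell `EC` -/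

/-- side of the `1` -/
def SEC (x T : ℝ) (k : ℂ) : Prop :=
  (P1 iEC_0 x T k ∧ Gd iEC_0 x k) ∨
    (P1 iEC_1 x T k ∧ Gd iEC_1 x k)

theorem tEC_M {s : ℝ} (hs : (⟨x, -hh x⟩ : ℂ) + k ≠ 1)
    (e : k = ⟨vy.val [x, T, k.re, s], kM.val [x, T, k.re, s]⟩)
    (h : ∃ e ∈ ([f1e iEC_0 vy kM, f1l iEC_0 vy kM, .of (f1z iEC_1 vy kM)] : List D),
      0 < e.val [x, T, k.re, s]) : SEC x T k := by
  obtain ⟨d, hd, hp⟩ := h
  simp only [List.mem_cons, List.not_mem_nil, or_false] at hd
  unfold SEC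
  rcases hd with rfl | rfl | rfl
  · exact Or.inl ⟨P1_e' e hp, Or.inr hs⟩
  · exact Or.inl ⟨P1_l' (by decide) e hp, Or.inr hs⟩
  · exact Or.inr (⟨P1_z' rfl e hp, Or.inl rfl⟩)

theorem sEC_M (x0 : 63 / 100 ≤ x) (x1 : x ≤ 13 / 20) (T0 : 87 / 1000 ≤ T) (T1 : T ≤ 229 / 2000) (hk : KM k) :
    SEC x T k := by
  by_cases hs : (⟨x, -hh x⟩ : ℂ) + k = 1
  · have e := sing hs T
    obtain ⟨d, hd, hp⟩ := chkD4 r_EC_1s (x := x) (y := T) (z := 0) (w := 0) (by norm_num)
      (le_trans (by norm_num) x0) (le_trans x1 (by norm_num)) (le_trans (by norm_num) T0)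
      (le_trans T1 (by norm_num)) (by norm_num) (by norm_num) (by norm_num) (by norm_num)
    simp only [List.mem_cons, List.not_mem_nil, or_false] at hd
    unfold SEC
    subst hd
    exact Or.inr (⟨P1_z' rfl e hp, Or.inl rfl⟩)
  · obtain ⟨s, s0, s1, e⟩ := hk.par
    have k0 := hk.1.1
    have k1 := hk.1.2
    exact tEC_M hs (e x T) (chkD4 r_EC_1M0 (by norm_num)
      (le_trans (by norm_num) x0) (le_trans x1 (by norm_num)) (le_trans (by norm_num) T0)
      (le_trans T1 (by norm_num))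
      (le_trans (by norm_num) k0) (le_trans k1 (by norm_num))
      (le_trans (by norm_num) s0) (le_trans s1 (by norm_num)))

theorem tEC_U {s : ℝ} (hs : (⟨x, -hh x⟩ : ℂ) + k ≠ 1)
    (e : k = ⟨vy.val [x, T, k.re, s], kU.val [x, T, k.re, s]⟩)
    (h : ∃ e ∈ ([f1e iEC_0 vy kU, f1l iEC_0 vy kU, .of (f1z iEC_1 vy kU)] : List D),
      0 < e.val [x, T, k.re, s]) : SEC x T k := by
  obtain ⟨d, hd, hp⟩ := h
  simp only [List.mem_cons, List.not_mem_nil, or_false] at hd
  unfold SEC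
  rcases hd with rfl | rfl | rfl
  · exact Or.inl ⟨P1_e' e hp, Or.inr hs⟩
  · exact Or.inl ⟨P1_l' (by decide) e hp, Or.inr hs⟩
  · exact Or.inr (⟨P1_z' rfl e hp, Or.inl rfl⟩)

theorem sEC_U (x0 : 63 / 100 ≤ x) (x1 : x ≤ 13 / 20) (T0 : 87 / 1000 ≤ T) (T1 : T ≤ 229 / 2000) (hk : KU k) :
    SEC x T k := by
  by_cases hs : (⟨x, -hh x⟩ : ℂ) + k = 1
  · have e := sing hs T
    obtain ⟨d, hd, hp⟩ := chkD4 r_EC_1s (x := x) (y := T) (z := 0) (w := 0) (by norm_num)
      (le_trans (by norm_num) x0) (le_trans x1 (by norm_num)) (le_trans (by norm_num) T0)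
      (le_trans T1 (by norm_num)) (by norm_num) (by norm_num) (by norm_num) (by norm_num)
    simp only [List.mem_cons, List.not_mem_nil, or_false] at hd
    unfold SEC
    subst hd
    exact Or.inr (⟨P1_z' rfl e hp, Or.inl rfl⟩)
  · obtain ⟨s, s0, s1, e⟩ := hk.par
    have k0 := hk.1.1
    have k1 := hk.1.2
    exact tEC_U hs (e x T) (chkD4 r_EC_1U0 (by norm_num)
      (le_trans (by norm_num) x0) (le_trans x1 (by norm_num)) (le_trans (by norm_num) T0)
      (le_trans T1 (by norm_num))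
      (le_trans (by norm_num) k0) (le_trans k1 (by norm_num))
      (le_trans (by norm_num) s0) (le_trans s1 (by norm_num)))

/-! ### cell `EN` -/

/-- side of the `1` -/
def SEN (x T : ℝ) (k : ℂ) : Prop :=
  (P1 iEN_0 x T k ∧ Gd iEN_0 x k)

theorem tEN_M {s : ℝ} (e : k = ⟨vy.val [x, T, k.re, s], kM.val [x, T, k.re, s]⟩)
    (h : ∃ e ∈ ([.of (f1z iEN_0 vy kM)] : List D),
      0 < e.val [x, T, k.re, s]) : SEN x T k := by
  obtain ⟨d, hd, hp⟩ := h
  simp only [List.mem_cons, List.not_mem_nil, or_false] at hd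
  unfold SEN
  subst hd
  exact ⟨P1_z' rfl e hp, Or.inl rfl⟩

theorem sEN_M (x0 : 63 / 100 ≤ x) (x1 : x ≤ 13 / 20) (T0 : 87 / 1000 ≤ T) (T1 : T ≤ 47 / 500) (hk : KM k) :
    SEN x T k := by
  obtain ⟨s, s0, s1, e⟩ := hk.par
  have k0 := hk.1.1
  have k1 := hk.1.2
  exact tEN_M (e x T) (chkD4 r_EN_1M0 (by norm_num)
    (le_trans (by norm_num) x0) (le_trans x1 (by norm_num)) (le_trans (by norm_num) T0)
      (le_trans T1 (by norm_num))
    (le_trans (by norm_num) k0) (le_trans k1 (by norm_num))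
    (le_trans (by norm_num) s0) (le_trans s1 (by norm_num)))

theorem tEN_U {s : ℝ} (e : k = ⟨vy.val [x, T, k.re, s], kU.val [x, T, k.re, s]⟩)
    (h : ∃ e ∈ ([.of (f1z iEN_0 vy kU)] : List D),
      0 < e.val [x, T, k.re, s]) : SEN x T k := by
  obtain ⟨d, hd, hp⟩ := h
  simp only [List.mem_cons, List.not_mem_nil, or_false] at hd
  unfold SEN
  subst hd
  exact ⟨P1_z' rfl e hp, Or.inl rfl⟩

theorem sEN_U (x0 : 63 / 100 ≤ x) (x1 : x ≤ 13 / 20) (T0 : 87 / 1000 ≤ T) (T1 : T ≤ 47 / 500) (hk : KU k) :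
    SEN x T k := by
  obtain ⟨s, s0, s1, e⟩ := hk.par
  have k0 := hk.1.1
  have k1 := hk.1.2
  exact tEN_U (e x T) (chkD4 r_EN_1U0 (by norm_num)
    (le_trans (by norm_num) x0) (le_trans x1 (by norm_num)) (le_trans (by norm_num) T0)
      (le_trans T1 (by norm_num))
    (le_trans (by norm_num) k0) (le_trans k1 (by norm_num))
    (le_trans (by norm_num) s0) (le_trans s1 (by norm_num)))

/-! ### cell `EU` -/

/-- side of the `1` -/
def SEU (x T : ℝ) (k : ℂ) : Prop :=
  (P1 iEU_0 x T k ∧ Gd iEU_0 x k) ∨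
    (P1 iEU_1 x T k ∧ Gd iEU_1 x k)

theorem tEU_M {s : ℝ} (hs : (⟨x, -hh x⟩ : ℂ) + k ≠ 1)
    (e : k = ⟨vy.val [x, T, k.re, s], kM.val [x, T, k.re, s]⟩)
    (h : ∃ e ∈ ([f1e iEU_0 vy kM, f1l iEU_0 vy kM, .of (f1z iEU_1 vy kM)] : List D),
      0 < e.val [x, T, k.re, s]) : SEU x T k := by
  obtain ⟨d, hd, hp⟩ := h
  simp only [List.mem_cons, List.not_mem_nil, or_false] at hd
  unfold SEU
  rcases hd with rfl | rfl | rfl
  · exact Or.inl ⟨P1_e' e hp, Or.inr hs⟩
  · exact Or.inl ⟨P1_l' (by decide) e hp, Or.inr hs⟩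
  · exact Or.inr (⟨P1_z' rfl e hp, Or.inl rfl⟩)

theorem sEU_M (x0 : 63 / 100 ≤ x) (x1 : x ≤ 13 / 20) (T0 : 87 / 1000 ≤ T) (T1 : T ≤ 229 / 2000) (hk : KM k) :
    SEU x T k := by
  by_cases hs : (⟨x, -hh x⟩ : ℂ) + k = 1
  · have e := sing hs T
    obtain ⟨d, hd, hp⟩ := chkD4 r_EU_1s (x := x) (y := T) (z := 0) (w := 0) (by norm_num)
      (le_trans (by norm_num) x0) (le_trans x1 (by norm_num)) (le_trans (by norm_num) T0)
      (le_trans T1 (by norm_num)) (by norm_num) (by norm_num) (by norm_num) (by norm_num)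
    simp only [List.mem_cons, List.not_mem_nil, or_false] at hd
    unfold SEU
    subst hd
    exact Or.inr (⟨P1_z' rfl e hp, Or.inl rfl⟩)
  · obtain ⟨s, s0, s1, e⟩ := hk.par
    have k0 := hk.1.1
    have k1 := hk.1.2
    exact tEU_M hs (e x T) (chkD4 r_EU_1M0 (by norm_num)
      (le_trans (by norm_num) x0) (le_trans x1 (by norm_num)) (le_trans (by norm_num) T0)
      (le_trans T1 (by norm_num))
      (le_trans (by norm_num) k0) (le_trans k1 (by norm_num))
      (le_trans (by norm_num) s0) (le_trans s1 (by norm_num)))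

theorem tEU_U {s : ℝ} (hs : (⟨x, -hh x⟩ : ℂ) + k ≠ 1)
    (e : k = ⟨vy.val [x, T, k.re, s], kU.val [x, T, k.re, s]⟩)
    (h : ∃ e ∈ ([f1e iEU_0 vy kU, f1l iEU_0 vy kU, .of (f1z iEU_1 vy kU)] : List D),
      0 < e.val [x, T, k.re, s]) : SEU x T k := by
  obtain ⟨d, hd, hp⟩ := h
  simp only [List.mem_cons, List.not_mem_nil, or_false] at hd
  unfold SEU
  rcases hd with rfl | rfl | rfl
  · exact Or.inl ⟨P1_e' e hp, Or.inr hs⟩
  · exact Or.inl ⟨P1_l' (by decide) e hp, Or.inr hs⟩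
  · exact Or.inr (⟨P1_z' rfl e hp, Or.inl rfl⟩)

theorem sEU_U (x0 : 63 / 100 ≤ x) (x1 : x ≤ 13 / 20) (T0 : 87 / 1000 ≤ T) (T1 : T ≤ 229 / 2000) (hk : KU k) :
    SEU x T k := by
  by_cases hs : (⟨x, -hh x⟩ : ℂ) + k = 1
  · have e := sing hs T
    obtain ⟨d, hd, hp⟩ := chkD4 r_EU_1s (x := x) (y := T) (z := 0) (w := 0) (by norm_num)
      (le_trans (by norm_num) x0) (le_trans x1 (by norm_num)) (le_trans (by norm_num) T0)
      (le_trans T1 (by norm_num)) (by norm_num) (by norm_num) (by norm_num) (by norm_num)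
    simp only [List.mem_cons, List.not_mem_nil, or_false] at hd
    unfold SEU
    subst hd
    exact Or.inr (⟨P1_z' rfl e hp, Or.inl rfl⟩)
  · obtain ⟨s, s0, s1, e⟩ := hk.par
    have k0 := hk.1.1
    have k1 := hk.1.2
    exact tEU_U hs (e x T) (chkD4 r_EU_1U0 (by norm_num)
      (le_trans (by norm_num) x0) (le_trans x1 (by norm_num)) (le_trans (by norm_num) T0)
      (le_trans T1 (by norm_num))
      (le_trans (by norm_num) k0) (le_trans k1 (by norm_num))
      (le_trans (by norm_num) s0) (le_trans s1 (by norm_num)))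

end R13

end Pool.Agent.Work.NumGs

end
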