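import Pool.Agent.Work.MP_b30479_gt.TBS.NumU.GenD
import Pool.Agent.Work.MP_b30479_gt.TBS.NumU.GenX

section

/-!
# Kind `1 | 3`, slot `0`, right end: expressions

Variables: `x`, `T`, then the real part and the height parameter of the other hinge of the `1`
(side of the `1`) or of the inner variable of the `3` (side of the `3`).
-/

namespace Pool.Agent.Work.NumGs

namespace R13

/-! ### far tables (copies of the lists of `F3`) -/

def fa : List (ℤ × ℤ × ℕ) :=
  [(0, -19, 4), (2, 41, 60), (5, 68, 75), (10, 29, 50), (15, 11, 50), (20, 41, 100),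
    (30, 43, 100), (40, 19, 100), (50, -129, 100), (60, 109, 200), (80, 61, 100), (100, 81, 200),
    (125, 63, 125), (150, 79, 250), (175, 127, 250), (200, 37, 125), (225, 89, 250),
    (250, 153, 250), (275, 648, 1625), (288, 7, 26), (300, -13, 5), (312, 7, 130),
    (325, 88, 1625), (350, 23, 250), (375, 9, 50), (400, 3, 125), (450, 12, 125), (500, 13, 250),
    (550, 9, 500), (600, -2, 125), (650, -11, 250), (700, -61, 500), (750, -9, 250),
    (775, -33, 250)]
def fb : List (ℤ × ℤ × ℕ) :=
  [(0, -80, 1), (2, 100, 3), (5, -22, 3), (10, 6, 1), (20, 2, 1), (50, 56, 1), (60, -5, 2),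
    (80, -3, 1), (100, -21, 10), (125, -8, 5), (150, -6, 5), (175, -2, 1), (200, -4, 5),
    (225, -4, 5), (250, -293, 250), (275, -341, 125), (288, -11, 10), (300, 169, 20),
    (312, -1, 20), (325, -6, 125), (350, -116, 125), (375, 47, 125), (400, 1, 5), (550, 2, 5),
    (600, 3, 5), (650, 3, 5), (700, 8, 5), (750, 243, 5), (775, -4, 5)]
def fu : List (ℤ × ℤ × ℕ) :=
  [(0, 179, 10), (5, -11, 5), (10, -81, 10), (20, 11, 10), (30, 17, 20), (50, -941, 100),
    (100, 19, 50), (150, -1, 50), (200, 1, 22), (750, -6, 11), (760, -17, 1), (770, -93, 10),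
    (780, -3, 5), (790, -2, 1)]
def fv : List (ℤ × ℤ × ℕ) :=
  [(0, -130, 1), (10, 130, 1), (750, 20, 1)]
def fd : List (ℤ × ℤ × ℕ) :=
  [(0, 27, 4), (2, 19, 12), (5, 2, 3), (10, 11, 20), (20, 29, 60), (50, -781, 75), (100, 4, 25),
    (150, 1, 10), (200, 3, 25), (250, 1, 50), (500, 3, 50), (600, 2, 25), (650, 3, 25),
    (750, -1143, 100), (760, -1, 1), (780, -13, 40)]
def ga : List (ℤ × ℤ × ℕ) :=
  [(0, 947, 200), (20, -1007, 200), (22, -7, 5), (25, -21, 20), (27, 1, 4), (30, 1, 5),
    (32, 2, 5), (35, -3, 20), (37, 13, 60), (40, 2, 15), (42, 2, 15), (45, 1, 6), (47, 1, 15),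
    (50, -229, 150), (55, 7, 50), (60, 7, 50), (65, 4, 25), (70, 7, 50), (75, 4, 25),
    (80, -3, 50), (85, 3, 10), (90, 3, 25), (95, 3, 25), (100, 19, 100), (110, 11, 50),
    (120, 83, 300), (135, 1, 3)]
def gb : List (ℤ × ℤ × ℕ) :=
  [(0, 637, 10), (20, -1327, 10), (22, 53, 3), (25, 40, 3), (27, -2, 3), (30, -1, 3),
    (32, -1, 1), (35, -1, 2), (37, -5, 6), (40, -2, 3), (42, -2, 3), (45, -5, 6), (47, -1, 2),
    (50, 287, 5), (55, -4, 5), (60, -1, 1), (65, -1, 1), (70, -4, 5), (75, -1, 1), (80, -3, 5),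
    (85, -4, 5), (90, -3, 5), (95, -4, 5), (100, -9, 10), (110, -11, 10), (120, -6, 5),
    (135, -19, 15)]
def ha : List (ℤ × ℤ × ℕ) :=
  [(0, 337, 100), (20, -487, 100), (22, 11, 15), (25, 17, 30), (27, -1, 5), (30, -1, 5),
    (32, 1, 30), (35, -29, 60), (37, -7, 60), (40, -2, 15), (42, -1, 6), (45, -2, 15),
    (47, -1, 10), (50, -31, 25), (55, 7, 50), (60, 1, 5), (65, 7, 50), (70, 4, 25), (75, 4, 25),
    (80, -1, 50), (85, 7, 25), (90, 4, 25), (95, 1, 10), (100, 21, 100), (110, 21, 100),
    (120, 43, 150), (135, 49, 150)]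
def hb : List (ℤ × ℤ × ℕ) :=
  [(0, 819, 10), (20, -672, 5), (22, -67, 6), (25, -25, 3), (27, 16, 3), (30, 14, 3), (32, 4, 1),
    (35, 9, 2), (37, 19, 6), (40, 17, 6), (42, 7, 2), (45, 3, 1), (47, 5, 3), (50, 812, 15),
    (55, -7, 5), (60, -6, 5), (65, -6, 5), (70, -1, 1), (75, -1, 1), (80, -1, 1), (85, -4, 5),
    (90, -4, 5), (95, -4, 5), (100, -1, 1), (110, -1, 1), (120, -4, 3), (135, -17, 15)]
def ka : List (ℤ × ℤ × ℕ) :=
  [(0, 661, 200), (20, -1001, 200), (22, 2, 15), (25, 1, 15), (27, 1, 10), (30, 1, 10),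
    (32, 1, 3), (35, -11, 60), (37, 1, 20), (40, 1, 20), (42, 1, 12), (45, 1, 15), (47, 0, 1),
    (50, -21, 10), (55, 1, 5), (60, 11, 50), (65, 4, 25), (70, 4, 25), (75, 9, 50), (80, -1, 50),
    (85, 3, 10), (90, 7, 50), (95, 1, 10), (100, 21, 100), (110, 11, 50), (120, 27, 100),
    (135, 49, 150)]
def kb : List (ℤ × ℤ × ℕ) :=
  [(0, 83, 1), (20, -265, 2), (22, -1, 2), (25, 0, 1), (27, -2, 3), (30, 1, 6), (32, -1, 2),
    (35, -1, 2), (37, -1, 6), (40, 1, 6), (42, -5, 6), (45, -1, 6), (47, -1, 6), (50, 1021, 15),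
    (55, -9, 5), (60, -9, 5), (65, -7, 5), (70, -6, 5), (75, -6, 5), (80, -1, 1), (85, -4, 5),
    (90, -1, 1), (95, -3, 5), (100, -1, 1), (110, -6, 5), (120, -1, 1), (135, -16, 15)]

/-- height of the mirrored path: right ramp -/
def hR : E := .mul (.q 10 3) (.sub (.q 65 100) (.var 0))
/-- slope of the height -/
def mR : E := .q (-10) 3
def tr8 : E := E.tr 800 50 50 (.var 2)
def vy : E := .var 2
/-- real part of the other hinge of the `1` at the singular point -/
def ys : E := .sub (.q 1 1) (.var 0)
/-- positions of the other hinge of the `1` -/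
def kG : E := .mul (.mul (.q 16 100) (.var 3)) (E.tr 860 150 200 (.var 2))
def kW : E := .mul (.mul (.q 16 100) (.var 3)) (E.tr 800 160 290 (.var 2))
def kM : E := .mul (.var 3) (E.tr 700 140 350 (.var 2))
def kU : E := .mul (.q 16 100) (E.tr 700 140 350 (.var 2))
/-- positions of the inner variable -/
def lM : E := .mul (.var 3) tr8
def lU : E := .mul (.q 16 100) tr8
def lD : E := .neg (.mul (.q 16 100) tr8)
/-- far gains -/
def fM : E := .sub (E.pl (.var 2) 120 fa) (.mul (.var 3) (E.pl (.var 2) 2600 fb))
def fU : E := .sub (E.pl (.var 2) 120 fu) (.mul (.var 3) (E.pl (.var 2) 2600 fv))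
def fD : E := .sub (E.pl (.var 2) 120 fd) (.mul (.var 3) (.q 24 10))
def fg : E := .sub (E.pl (.var 2) 0 ga) (.mul (.var 3) (E.pl (.var 2) 0 gb))
def fh : E := .sub (E.pl (.var 2) 0 ha) (.mul (.var 3) (E.pl (.var 2) 0 hb))
def fk : E := .sub (E.pl (.var 2) 0 ka) (.mul (.var 3) (E.pl (.var 2) 0 kb))
/-- an item of a menu: target `c / 10000`, factor `th / 10000` of the first order condition, price
`a0 / 10000 + a1 / 100 * x + a2 / 100 * T` -/
structure It where
  c : ℤ
  th : ℤ
  a0 : ℤ
  a1 : ℤ
  a2 : ℤ
def It.tq (i : It) : E := .mul (.q (min i.c 1300) 1300) (.var 1)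
def It.pr (i : It) : E :=
  .add (.add (.q i.a0 10000) (.mul (.q i.a1 100) (.var 0))) (.mul (.q i.a2 100) (.var 1))
/-- side of the `1`, star -/
def f1z (i : It) (y k : E) : E :=
  .add (.add (.sub (.sub (.ux (.add (.c i.c) y) (.add i.tq k))
      (.ux (.add (.var 0) y) (.sub k hR)))
    (.sub (.ux (.c i.c) i.tq) (.mul (.q 2 1) (.ux (.var 0) hR))))
    (.mul .pi (.add (.mul (.sub (.c i.c) (.var 0)) k)
      (.mul (.add i.tq hR) (.sub y (.q 1 1)))))) i.pr
def dUx (x t m : E) : D := .add (.xw x t) (.of (.mul m (.yw x t)))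
/-- side of the `1`, slope -/
def f1t (y k : E) : D :=
  .add (.of (.mul .pi (.sub k (.mul mR (.sub y (.q 1 1))))))
    (.sub (dUx (.add (.var 0) y) (.sub k hR) (.neg mR)) (.mul (.of (.q 2 1)) (dUx (.var 0) hR mR)))
/-- side of the `1`, slope, lower bound -/
def f1m (y k : E) : D :=
  .add (.of (.mul .pi (.sub k (.mul mR (.sub y (.q 1 1))))))
    (.sub (.add (.xw (.add (.var 0) y) (.sub k hR))
        (.of (.mul (.neg mR) (.sub (.yw (.sub (.add (.var 0) y) (.q 1 1)) (.sub k hR)) .pi))))
      (.mul (.of (.q 2 1)) (dUx (.var 0) hR mR)))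
def f1e (i : It) (y k : E) : D := .add (.of (f1z i y k)) (.mul (.of (.c i.th)) (f1t y k))
def f1l (i : It) (y k : E) : D := .add (.of (f1z i y k)) (.mul (.of (.c i.th)) (f1m y k))
/-- side of the `3`, inner variable kept -/
def gkz (i : It) (l : E) : E :=
  .sub (.add (.sub (.sub (.ux (.sub (.var 2) (.var 0)) (.sub l hR)) (.ux (.sub (.var 2) (.c i.c)) (.add l i.tq)))
      (.ux (.c i.c) i.tq))
    (.mul .pi (.add (.add (.mul (.sub (.var 0) (.c i.c)) l) (.mul (.add hR i.tq) (.var 2)))
      (.mul (.q 2 1) hR)))) i.pr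
/-- side of the `3`, inner variable to `3/10` -/
def grz (i : It) (l f : E) : E :=
  .sub (.add (.add (.sub (.sub (.ux (.sub (.var 2) (.var 0)) (.sub l hR)) (.ux (.var 2) l))
    (.sub (.add (.ux (.sub (.q 3 10) (.c i.c)) (.add (.var 3) i.tq)) (.ux (.c i.c) i.tq)) (.ux (.q 3 10) (.var 3))))
    (.mul .pi (.add (.add (.sub (.mul (.var 0) l) l) (.mul hR (.var 2)))
      (.add (.add (.mul i.tq (.q 3 10)) (.mul (.sub (.q 1 1) (.c i.c)) (.var 3))) (.mul (.q 2 1) hR))))) f) i.pr
/-- side of the `3`, slope -/
def g3t (l : E) : D :=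
  .sub (dUx (.sub (.var 2) (.var 0)) (.sub l hR) mR)
    (.of (.mul .pi (.add (.add l (.mul mR (.var 2))) (.mul (.q 2 1) mR))))
/-- side of the `3`, slope, lower bound -/
def g3m (l : E) : D :=
  .sub (.add (.xw (.sub (.var 2) (.var 0)) (.sub l hR))
      (.of (.mul mR (.add (.yw (.add (.sub (.var 2) (.var 0)) (.q 1 1)) (.sub l hR)) .pi))))
    (.of (.mul .pi (.add (.add l (.mul mR (.var 2))) (.mul (.q 2 1) mR))))
def gke (i : It) (l : E) : D := .add (.of (gkz i l)) (.mul (.of (.c i.th)) (g3t l))
def gkl (i : It) (l : E) : D := .add (.of (gkz i l)) (.mul (.of (.c i.th)) (g3m l))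
def gre (i : It) (l f : E) : D := .add (.of (grz i l f)) (.mul (.of (.c i.th)) (g3t l))
def grl (i : It) (l f : E) : D := .add (.of (grz i l f)) (.mul (.of (.c i.th)) (g3m l))
/-- outside the windows -/
def exU : D := .of (.sub (.add (.var 1) (.var 3)) (.q 84 1000))
def exD : D := .of (.sub (.neg (.add (.var 1) (.var 3))) (.q 45 1000))
/-- rows of the side of the `3` -/
def lR (i : It) (l f : E) : List D := [grl i l f, gre i l f, exU, exD]
def lZ (i : It) (l f : E) : List D := [.of (grz i l f), exU, exD]
def lK (i : It) (l : E) : List D := [gkl i l, gke i l, exU, exD]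
def lY (i : It) (l : E) : List D := [.of (gkz i l), exU, exD]

/-! ### the items of the menus -/

def iC_0 : It := ⟨2000, 500, 148814, -2157, 171⟩
def iC_1 : It := ⟨3000, 0, 170365, -2648, 188⟩
def iU_0 : It := ⟨1000, 200, 72959, -1067, 85⟩
def iU_1 : It := ⟨1500, 0, 184733, -2871, 103⟩
def iU_2 : It := ⟨1000, 1500, 77862, -922, 85⟩
def iN_0 : It := ⟨5000, 0, 166594, -2560, 238⟩
def iN_1 : It := ⟨4000, 0, 166912, -2560, 235⟩
def iB1_0 : It := ⟨2000, 1000, 85910, -1135, -30⟩
def iB1_1 : It := ⟨2000, 0, 85818, -1320, -250⟩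
def iB1_2 : It := ⟨1000, 5000, 97799, -635, 34⟩
def iB2_0 : It := ⟨2000, 1000, 85687, -1138, 111⟩
def iB2_1 : It := ⟨1000, 5000, 99536, -663, 101⟩
def iB2_2 : It := ⟨1000, 0, 84281, -1323, 101⟩
def iA1_0 : It := ⟨2000, 800, 85333, -1162, -261⟩
def iA1_1 : It := ⟨1000, 3000, 103008, -1047, -232⟩
def iA1_2 : It := ⟨1000, 0, 80907, -1244, -300⟩
def iA2_0 : It := ⟨1500, 3000, 111822, -1199, 101⟩
def iA2_1 : It := ⟨1000, 0, 79296, -1244, 83⟩
def iA2_2 : It := ⟨1500, 300, 78627, -1172, 101⟩
def iA3_0 : It := ⟨1500, 3000, 111844, -1202, 119⟩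
def iA3_1 : It := ⟨1500, 0, 78753, -1233, 119⟩
def iA4_0 : It := ⟨1000, 3000, 107603, -1139, 96⟩
def iA4_1 : It := ⟨1000, 0, 80019, -1256, 96⟩
def iA4_2 : It := ⟨1500, 400, 79067, -1162, 119⟩
def iA4_3 : It := ⟨1250, 3000, 107752, -1139, 122⟩
def iA5_0 : It := ⟨1250, 3000, 111648, -1202, 139⟩
def iA5_1 : It := ⟨1250, 0, 78557, -1233, 139⟩
def iA6_0 : It := ⟨1000, 3000, 107559, -1139, 107⟩
def iA6_1 : It := ⟨1000, 0, 79975, -1256, 107⟩
def iA6_2 : It := ⟨1500, 600, 81165, -1160, 138⟩
def iA7_0 : It := ⟨1500, 5000, 102664, -707, 147⟩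
def iA7_1 : It := ⟨1000, 0, 79901, -1256, 112⟩
def iA7_2 : It := ⟨1500, 3000, 107675, -1139, 147⟩
def iA7_3 : It := ⟨1500, 300, 78392, -1173, 147⟩
def iEA_0 : It := ⟨2000, 200, 78328, -1195, 142⟩
def iEA_1 : It := ⟨1000, 0, 78907, -1245, 116⟩
def iEA_2 : It := ⟨1000, 10000, 110353, 17, 116⟩
def iEA_3 : It := ⟨2000, 1000, 86588, -1178, 142⟩
def iEC_0 : It := ⟨2000, 500, 148610, -2157, 198⟩
def iEC_1 : It := ⟨2000, 0, 167921, -2625, 260⟩
def iEN_0 : It := ⟨5000, 0, 166586, -2560, 253⟩
def iEU_0 : It := ⟨1000, 1500, 77909, -922, 116⟩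
def iEU_1 : It := ⟨1500, 0, 184634, -2871, 153⟩

end R13

end Pool.Agent.Work.NumGs

end

section

/-!
# Kind `1 | 3`, slot `0`, right end: rows
-/

set_option deprecated.oldSectionVars true

namespace Pool.Agent.Work.NumGs

namespace R13

theorem r_B1_1G2 : chkD [f1e iB1_0 vy kG, f1l iB1_0 vy kG, .of (f1z iB1_1 vy kG), f1e iB1_2 vy kG, f1l iB1_2 vy kG]
  100000 0 0 0 100000 44 63000 65000 2100 6000 33000 39000 0 200000
  496971103092887995867586327376202323461034946773557497251397342237510252832509467771081883408030816983363613277665265180247160844759339829952471647813979696298374919054688313686472412681622240028376181913686115917173559069262156820874747517502215073823525926296283336697859270817361363330257257997416616531142902252023647128096566091197306950667051664449615977077216100182183742113923481262888094805512413642062091033132242988157965772009461123234381214557413486022317058818795275398222701227216535897132522358903042211913631334443631464169936046740816772610511993702432022702515377579830254188879448530491638147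 = true := by decide +kernel

theorem r_B1_1G3 : chkD [f1e iB1_0 vy kG, f1l iB1_0 vy kG, .of (f1z iB1_1 vy kG), f1e iB1_2 vy kG, f1l iB1_2 vy kG]
  100000 0 0 0 100000 44 63000 65000 2100 6000 39000 66000 0 200000
  9281928751377106612665888073451989054837336316418657504512722232762905645054780728647866568324083892666626 = true := by decide +kernel

theorem r_B1_1G4 : chkD [f1e iB1_0 vy kG, f1l iB1_0 vy kG, .of (f1z iB1_1 vy kG), f1e iB1_2 vy kG, f1l iB1_2 vy kG]
  100000 0 0 0 100000 44 63000 65000 2100 6000 66000 86000 0 200000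
  3102444723684499945917140895961702583787578143456707418675828564761836315088779066704616258508039187670818520875266 = true := by decide +kernel

theorem r_B1_1s : chkD [.of (f1z iB1_1 ys hR)]
  100000 0 0 0 0 44 63000 65000 2100 6000 0 0 0 0
  4 = true := by decide +kernel

theorem r_B1_3_0_m0 : chkD (lR iB1_0 lM fM)
  100000 0 0 0 9000 44 63000 65000 2100 6000 0 2000 0 9500
  404891644946312657715653081846779625815060321996377109332226 = true := by decide +kernel

theorem r_B1_3_0_m1 : chkD (lR iB1_0 lM fM)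
  100000 0 0 0 9000 44 63000 65000 2100 6000 2000 5000 5000 9500
  290491110573277443 = true := by decide +kernel

theorem r_B1_3_0_m2 : chkD (lR iB1_0 lM fM)
  100000 0 0 0 9000 44 63000 65000 2100 6000 5000 15000 5000 9500
  17730707161474 = true := by decide +kernel

theorem r_B1_3_0_m3 : chkD (lR iB1_0 lM fM)
  100000 0 0 0 9000 44 63000 65000 2100 6000 15000 50000 0 9500
  342951411607953502398355389775609905410 = true := by decide +kernel

theorem r_B1_3_1_m0 : chkD (lZ iB1_1 lM fM)
  100000 0 0 0 9000 44 63000 65000 2100 6000 0 2000 0 9500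
  17730438758786 = true := by decide +kernel

theorem r_B1_3_1_m1 : chkD (lZ iB1_1 lM fM)
  100000 0 0 0 9000 44 63000 65000 2100 6000 2000 5000 5000 9500
  66051 = true := by decide +kernel

theorem r_B1_3_1_m2 : chkD (lZ iB1_1 lM fM)
  100000 0 0 0 9000 44 63000 65000 2100 6000 5000 15000 5000 9500
  4 = true := by decide +kernel

theorem r_B1_3_1_m3 : chkD (lZ iB1_1 lM fM)
  100000 0 0 0 9000 44 63000 65000 2100 6000 15000 50000 0 9500
  12887364598014120379553366024842920362311282229776416605185448052826882366554587325761004127550455362581719242856406224762813829395929212480816988418 = true := by decide +kernel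

theorem r_B1_3_2_m0 : chkD (lR iB1_2 lM fM)
  100000 0 0 0 9000 44 63000 65000 2100 6000 0 2000 0 9500
  151487949319843467542144470485174394372521299204659596626432024637238477835573383349035470360736463921904386306 = true := by decide +kernel

theorem r_B1_3_2_m1 : chkD (lR iB1_2 lM fM)
  100000 0 0 0 9000 44 63000 65000 2100 6000 2000 5000 5000 9500
  17730170323203 = true := by decide +kernel

theorem r_B1_3_2_m2 : chkD (lR iB1_2 lM fM)
  100000 0 0 0 9000 44 63000 65000 2100 6000 5000 15000 5000 9500
  4 = true := by decide +kernel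

theorem r_B1_3_2_m3 : chkD (lR iB1_2 lM fM)
  100000 0 0 0 9000 44 63000 65000 2100 6000 15000 50000 0 9500
  82434 = true := by decide +kernel

theorem r_B2_1G0 : chkD [f1e iB2_0 vy kG, f1l iB2_0 vy kG, f1e iB2_1 vy kG, f1l iB2_1 vy kG, .of (f1z iB2_2 vy kG)]
  100000 0 0 0 100000 44 63000 65000 6000 9400 0 15000 0 200000
  226643587412578035374403195191353382663062013914699728774966407486672428482111758894480780259610642627327721730 = true := by decide +kernel

theorem r_B2_1G1 : chkD [f1e iB2_0 vy kG, f1l iB2_0 vy kG, f1e iB2_1 vy kG, f1l iB2_1 vy kG, .of (f1z iB2_2 vy kG)]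
  100000 0 0 0 100000 44 63000 65000 6000 9400 15000 33000 0 200000
  181182076829600509933190187140528638320110405769726438333405182787998620696372435814965468404961757271271347187608472049218605602403422040110318919522281507200594590635191282053922996006709582815559573569506245461723974751729794423007821646692501658881565732752219835404616709064321958906257205635156832993666 = true := by decide +kernel

end R13

end Pool.Agent.Work.NumGs

end

section

/-!
# Kind `1 | 3`, slot `0`, right end: rows
-/

set_option deprecated.oldSectionVars true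

namespace Pool.Agent.Work.NumGs

namespace R13

theorem r_A3_1G2 : chkD [f1e iA3_0 vy kG, f1l iA3_0 vy kG, .of (f1z iA3_1 vy kG)]
  100000 0 0 0 100000 44 63000 64000 6000 8000 33000 39000 0 200000
  294295242970912467868801188044775450081738648960775178347237114396441945576182330814604283164447498735394145038418785957221712115490248914120272475915391982749575149909498701617041832271623013123 = true := by decide +kernel

theorem r_A3_1G3 : chkD [f1e iA3_0 vy kG, f1l iA3_0 vy kG, .of (f1z iA3_1 vy kG)]
  100000 0 0 0 100000 44 63000 64000 6000 8000 39000 66000 0 200000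
  109108548119799693453122110017243434893801239848184783722465781137666 = true := by decide +kernel

theorem r_A3_1G4 : chkD [f1e iA3_0 vy kG, f1l iA3_0 vy kG, .of (f1z iA3_1 vy kG)]
  100000 0 0 0 100000 44 63000 64000 6000 8000 66000 86000 0 200000
  1916390123058842238511915041154 = true := by decide +kernel

theorem r_A3_1s : chkD [.of (f1z iA3_1 ys hR)]
  100000 0 0 0 0 44 63000 64000 6000 8000 0 0 0 0
  4 = true := by decide +kernel

theorem r_A3_3_0_m0 : chkD (lR iA3_0 lM fg)
  100000 0 0 0 9000 44 63000 64000 6000 8000 2000 5000 0 1500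
  1277632097457134394312700756226 = true := by decide +kernel

theorem r_A3_3_0_m1 : chkD (lR iA3_0 lM fh)
  100000 0 0 0 9000 44 63000 64000 6000 8000 2000 5000 1500 3000
  66050 = true := by decide +kernel

theorem r_A3_3_0_m2 : chkD (lR iA3_0 lM fk)
  100000 0 0 0 9000 44 63000 64000 6000 8000 2000 5000 3000 5000
  66050 = true := by decide +kernel

theorem r_A3_3_0_m3 : chkD (lR iA3_0 lM fg)
  100000 0 0 0 9000 44 63000 64000 6000 8000 5000 15000 0 1500
  17730707161346 = true := by decide +kernel

theorem r_A3_3_0_m4 : chkD (lR iA3_0 lM fh)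
  100000 0 0 0 9000 44 63000 64000 6000 8000 5000 15000 1500 3000
  66050 = true := by decide +kernel

theorem r_A3_3_0_m5 : chkD (lR iA3_0 lM fk)
  100000 0 0 0 9000 44 63000 64000 6000 8000 5000 15000 3000 5000
  4 = true := by decide +kernel

theorem r_A3_3_1_m0 : chkD (lZ iA3_1 lM fg)
  100000 0 0 0 9000 44 63000 64000 6000 8000 2000 5000 0 1500
  66050 = true := by decide +kernel

theorem r_A3_3_1_m1 : chkD (lZ iA3_1 lM fh)
  100000 0 0 0 9000 44 63000 64000 6000 8000 2000 5000 1500 3000
  4 = true := by decide +kernel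

theorem r_A3_3_1_m2 : chkD (lZ iA3_1 lM fk)
  100000 0 0 0 9000 44 63000 64000 6000 8000 2000 5000 3000 5000
  4 = true := by decide +kernel

theorem r_A3_3_1_m3 : chkD (lZ iA3_1 lM fg)
  100000 0 0 0 9000 44 63000 64000 6000 8000 5000 15000 0 1500
  17730170323202 = true := by decide +kernel

theorem r_A3_3_1_m4 : chkD (lZ iA3_1 lM fh)
  100000 0 0 0 9000 44 63000 64000 6000 8000 5000 15000 1500 3000
  4 = true := by decide +kernel

theorem r_A3_3_1_m5 : chkD (lZ iA3_1 lM fk)
  100000 0 0 0 9000 44 63000 64000 6000 8000 5000 15000 3000 5000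
  4 = true := by decide +kernel

theorem r_A4_1G0 : chkD [f1e iA4_0 vy kG, f1l iA4_0 vy kG, .of (f1z iA4_1 vy kG), f1e iA4_2 vy kG, f1l iA4_2 vy kG, f1e iA4_3 vy kG, f1l iA4_3 vy kG]
  100000 0 0 0 100000 44 64000 65000 6000 8000 0 15000 0 200000
  1096319134126272435266788057138905993184128757468070975597483638418433332794810481817921738318271032594936177182872514571382102102546382245891471701201345687445839222302456281640214757634 = true := by decide +kernel

theorem r_A4_1G1 : chkD [f1e iA4_0 vy kG, f1l iA4_0 vy kG, .of (f1z iA4_1 vy kG), f1e iA4_2 vy kG, f1l iA4_2 vy kG, f1e iA4_3 vy kG, f1l iA4_3 vy kG]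
  100000 0 0 0 100000 44 64000 65000 6000 8000 15000 33000 0 200000
  1804025015263534015838251659527453498575524186911713714580928363443316990491114867981673811776972436759829281777549261954792998476262243898121939913399592445771567971435619444659441672017617049530833364166766515796555460247948715504562377437745299842 = true := by decide +kernel

theorem r_A4_1G2 : chkD [f1e iA4_0 vy kG, f1l iA4_0 vy kG, .of (f1z iA4_1 vy kG), f1e iA4_2 vy kG, f1l iA4_2 vy kG, f1e iA4_3 vy kG, f1l iA4_3 vy kG]
  100000 0 0 0 100000 44 64000 65000 6000 8000 33000 39000 0 200000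
  133412728026975632270156274326996202835805890496426716878655450751788471385136332957485438672689889701625578285906629069209721367461506342911464987829195833417442306279750162287516112409269930611437962717863139994644485279548167356784655689963535209073892962806716497217586061487765618740683934696097433046783078968835790313446161959018027984764873336249608795584152084682920468676624557792044836659318779624453155401872555555056556493499204795968191720403252628250311600854988284724716114048824437763896203238394776309825281380101576043582463653573839247964841231238568880603884849446546216453819540150997499041621836035 = true := by decide +kernel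

theorem r_A4_1G3 : chkD [f1e iA4_0 vy kG, f1l iA4_0 vy kG, .of (f1z iA4_1 vy kG), f1e iA4_2 vy kG, f1l iA4_2 vy kG, f1e iA4_3 vy kG, f1l iA4_3 vy kG]
  100000 0 0 0 100000 44 64000 65000 6000 8000 39000 66000 0 200000
  406461015789909571550281253209444195934467271618092635046146 = true := by decide +kernel

theorem r_A4_1G4 : chkD [f1e iA4_0 vy kG, f1l iA4_0 vy kG, .of (f1z iA4_1 vy kG), f1e iA4_2 vy kG, f1l iA4_2 vy kG, f1e iA4_3 vy kG, f1l iA4_3 vy kG]
  100000 0 0 0 100000 44 64000 65000 6000 8000 66000 86000 0 200000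
  1916447693438000691901332816258 = true := by decide +kernel

theorem r_A4_1s : chkD [.of (f1z iA4_1 ys hR)]
  100000 0 0 0 0 44 64000 65000 6000 8000 0 0 0 0
  4 = true := by decide +kernel

theorem r_A4_3_0_m0 : chkD (lR iA4_0 lM fg)
  100000 0 0 0 9000 44 64000 65000 6000 8000 2000 5000 0 1500
  342961593377496862052924801140465402114 = true := by decide +kernel

theorem r_A4_3_0_m1 : chkD (lR iA4_0 lM fh)
  100000 0 0 0 9000 44 64000 65000 6000 8000 2000 5000 1500 3000
  66050 = true := by decide +kernel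

theorem r_A4_3_0_m2 : chkD (lR iA4_0 lM fk)
  100000 0 0 0 9000 44 64000 65000 6000 8000 2000 5000 3000 5000
  66050 = true := by decide +kernel

theorem r_A4_3_0_m3 : chkD (lR iA4_0 lM fg)
  100000 0 0 0 9000 44 64000 65000 6000 8000 5000 15000 0 1500
  290499906670461186 = true := by decide +kernel

theorem r_A4_3_0_m4 : chkD (lR iA4_0 lM fh)
  100000 0 0 0 9000 44 64000 65000 6000 8000 5000 15000 1500 3000
  66050 = true := by decide +kernel

theorem r_A4_3_0_m5 : chkD (lR iA4_0 lM fk)
  100000 0 0 0 9000 44 64000 65000 6000 8000 5000 15000 3000 5000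
  4 = true := by decide +kernel

theorem r_A4_3_1_m0 : chkD (lZ iA4_1 lM fg)
  100000 0 0 0 9000 44 64000 65000 6000 8000 2000 5000 0 1500
  66050 = true := by decide +kernel

theorem r_A4_3_1_m1 : chkD (lZ iA4_1 lM fh)
  100000 0 0 0 9000 44 64000 65000 6000 8000 2000 5000 1500 3000
  4 = true := by decide +kernel

theorem r_A4_3_1_m2 : chkD (lZ iA4_1 lM fk)
  100000 0 0 0 9000 44 64000 65000 6000 8000 2000 5000 3000 5000
  4 = true := by decide +kernel

theorem r_A4_3_1_m3 : chkD (lZ iA4_1 lM fg)
  100000 0 0 0 9000 44 64000 65000 6000 8000 5000 15000 0 1500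
  290491110575374594 = true := by decide +kernel

theorem r_A4_3_1_m4 : chkD (lZ iA4_1 lM fh)
  100000 0 0 0 9000 44 64000 65000 6000 8000 5000 15000 1500 3000
  4 = true := by decide +kernel

theorem r_A4_3_1_m5 : chkD (lZ iA4_1 lM fk)
  100000 0 0 0 9000 44 64000 65000 6000 8000 5000 15000 3000 5000
  4 = true := by decide +kernel

theorem r_A4_3_2_m0 : chkD (lR iA4_2 lM fg)
  100000 0 0 0 9000 44 64000 65000 6000 8000 2000 5000 0 1500
  290499803324908034 = true := by decide +kernel

theorem r_A4_3_2_m1 : chkD (lR iA4_2 lM fh)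
  100000 0 0 0 9000 44 64000 65000 6000 8000 2000 5000 1500 3000
  66050 = true := by decide +kernel

theorem r_A4_3_2_m2 : chkD (lR iA4_2 lM fk)
  100000 0 0 0 9000 44 64000 65000 6000 8000 2000 5000 3000 5000
  4 = true := by decide +kernel

theorem r_A4_3_2_m3 : chkD (lR iA4_2 lM fg)
  100000 0 0 0 9000 44 64000 65000 6000 8000 5000 15000 0 1500
  290491110579536130 = true := by decide +kernel

theorem r_A4_3_2_m4 : chkD (lR iA4_2 lM fh)
  100000 0 0 0 9000 44 64000 65000 6000 8000 5000 15000 1500 3000
  66050 = true := by decide +kernel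

theorem r_A4_3_2_m5 : chkD (lR iA4_2 lM fk)
  100000 0 0 0 9000 44 64000 65000 6000 8000 5000 15000 3000 5000
  4 = true := by decide +kernel

theorem r_A4_3_3_m0 : chkD (lR iA4_3 lM fg)
  100000 0 0 0 9000 44 64000 65000 6000 8000 2000 5000 0 1500
  342961593377496862052924801140465402114 = true := by decide +kernel

theorem r_A4_3_3_m1 : chkD (lR iA4_3 lM fh)
  100000 0 0 0 9000 44 64000 65000 6000 8000 2000 5000 1500 3000
  66050 = true := by decide +kernel

theorem r_A4_3_3_m2 : chkD (lR iA4_3 lM fk)
  100000 0 0 0 9000 44 64000 65000 6000 8000 2000 5000 3000 5000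
  66050 = true := by decide +kernel

theorem r_A4_3_3_m3 : chkD (lR iA4_3 lM fg)
  100000 0 0 0 9000 44 64000 65000 6000 8000 5000 15000 0 1500
  290499906670461186 = true := by decide +kernel

theorem r_A4_3_3_m4 : chkD (lR iA4_3 lM fh)
  100000 0 0 0 9000 44 64000 65000 6000 8000 5000 15000 1500 3000
  66050 = true := by decide +kernel

theorem r_A4_3_3_m5 : chkD (lR iA4_3 lM fk)
  100000 0 0 0 9000 44 64000 65000 6000 8000 5000 15000 3000 5000
  4 = true := by decide +kernel

theorem r_A5_1G0 : chkD [f1e iA5_0 vy kG, f1l iA5_0 vy kG, .of (f1z iA5_1 vy kG)]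
  100000 0 0 0 100000 44 63000 64000 8000 9400 0 15000 0 200000
  34444371822206990537696309654649760748804994092887305193994302121789980805550493033284510014275842 = true := by decide +kernel

theorem r_A5_1G1 : chkD [f1e iA5_0 vy kG, f1l iA5_0 vy kG, .of (f1z iA5_1 vy kG)]
  100000 0 0 0 100000 44 63000 64000 8000 9400 15000 33000 0 200000
  484264391712283455034025565244093142761325860387839571437046907124892052812157427494076440087428528763560365909470552127120746506537936217096735599343354189375259441143646833074605671277737588783638098289281246193127982417885551701356920290978423990711796098 = true := by decide +kernel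

theorem r_A5_1G2 : chkD [f1e iA5_0 vy kG, f1l iA5_0 vy kG, .of (f1z iA5_1 vy kG)]
  100000 0 0 0 100000 44 63000 64000 8000 9400 33000 39000 0 200000
  7934184054776474830834101488098261886020463730598772496862650244107959805536999532194789543920742395257209394197425706688658588096465183138282047204609369015267909880232212132105464799184143254674429784297045526292696141090262992002259507589982224995923190137603 = true := by decide +kernel

theorem r_A5_1G3 : chkD [f1e iA5_0 vy kG, f1l iA5_0 vy kG, .of (f1z iA5_1 vy kG)]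
  100000 0 0 0 100000 44 63000 64000 8000 9400 39000 66000 0 200000
  109108548119799693453122110017243434893801239844643008860313547227394 = true := by decide +kernel

theorem r_A5_1G4 : chkD [f1e iA5_0 vy kG, f1l iA5_0 vy kG, .of (f1z iA5_1 vy kG)]
  100000 0 0 0 100000 44 63000 64000 8000 9400 66000 86000 0 200000
  7139037475906368143746 = true := by decide +kernel

theorem r_A5_1s : chkD [.of (f1z iA5_1 ys hR)]
  100000 0 0 0 0 44 63000 64000 8000 9400 0 0 0 0
  4 = true := by decide +kernel

theorem r_A5_3_0_m0 : chkD (lR iA5_0 lM fg)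
  100000 0 0 0 9000 44 63000 64000 8000 9400 2000 5000 0 1500
  6633845119860333585731477449720879163150233304501694700550390018 = true := by decide +kernel

theorem r_A5_3_0_m1 : chkD (lR iA5_0 lM fh)
  100000 0 0 0 9000 44 63000 64000 8000 9400 2000 5000 1500 3000
  66050 = true := by decide +kernel

theorem r_A5_3_0_m2 : chkD (lR iA5_0 lM fk)
  100000 0 0 0 9000 44 63000 64000 8000 9400 2000 5000 3000 5000
  66050 = true := by decide +kernel

theorem r_A5_3_0_m3 : chkD (lR iA5_0 lM fg)
  100000 0 0 0 9000 44 63000 64000 8000 9400 5000 15000 0 1500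
  290499906670461186 = true := by decide +kernel

theorem r_A5_3_0_m4 : chkD (lR iA5_0 lM fh)
  100000 0 0 0 9000 44 63000 64000 8000 9400 5000 15000 1500 3000
  66050 = true := by decide +kernel

theorem r_A5_3_0_m5 : chkD (lR iA5_0 lM fk)
  100000 0 0 0 9000 44 63000 64000 8000 9400 5000 15000 3000 5000
  4 = true := by decide +kernel

theorem r_A5_3_1_m0 : chkD (lZ iA5_1 lM fg)
  100000 0 0 0 9000 44 63000 64000 8000 9400 2000 5000 0 1500
  1082180098 = true := by decide +kernel

theorem r_A5_3_1_m1 : chkD (lZ iA5_1 lM fh)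
  100000 0 0 0 9000 44 63000 64000 8000 9400 2000 5000 1500 3000
  4 = true := by decide +kernel

theorem r_A5_3_1_m2 : chkD (lZ iA5_1 lM fk)
  100000 0 0 0 9000 44 63000 64000 8000 9400 2000 5000 3000 5000
  4 = true := by decide +kernel

theorem r_A5_3_1_m3 : chkD (lZ iA5_1 lM fg)
  100000 0 0 0 9000 44 63000 64000 8000 9400 5000 15000 0 1500
  290491110579536130 = true := by decide +kernel

theorem r_A5_3_1_m4 : chkD (lZ iA5_1 lM fh)
  100000 0 0 0 9000 44 63000 64000 8000 9400 5000 15000 1500 3000
  4 = true := by decide +kernel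

theorem r_A5_3_1_m5 : chkD (lZ iA5_1 lM fk)
  100000 0 0 0 9000 44 63000 64000 8000 9400 5000 15000 3000 5000
  4 = true := by decide +kernel

end R13

end Pool.Agent.Work.NumGs

end

section

/-!
# Kind `1 | 3`, slot `0`, right end: rows
-/

set_option deprecated.oldSectionVars true

namespace Pool.Agent.Work.NumGs

namespace R13

theorem r_A7_3_1_m3 : chkD (lZ iA7_1 lM fg)
  100000 0 0 0 9000 44 64000 65000 9200 9400 5000 15000 0 1500
  290491110575374594 = true := by decide +kernel

theorem r_A7_3_1_m4 : chkD (lZ iA7_1 lM fh)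
  100000 0 0 0 9000 44 64000 65000 9200 9400 5000 15000 1500 3000
  4 = true := by decide +kernel

theorem r_A7_3_1_m5 : chkD (lZ iA7_1 lM fk)
  100000 0 0 0 9000 44 64000 65000 9200 9400 5000 15000 3000 5000
  4 = true := by decide +kernel

theorem r_A7_3_2_m0 : chkD (lR iA7_2 lM fg)
  100000 0 0 0 9000 44 64000 65000 9200 9400 2000 5000 0 1500
  342961593377496862052924801140465402114 = true := by decide +kernel

theorem r_A7_3_2_m1 : chkD (lR iA7_2 lM fh)
  100000 0 0 0 9000 44 64000 65000 9200 9400 2000 5000 1500 3000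
  66050 = true := by decide +kernel

theorem r_A7_3_2_m2 : chkD (lR iA7_2 lM fk)
  100000 0 0 0 9000 44 64000 65000 9200 9400 2000 5000 3000 5000
  66050 = true := by decide +kernel

theorem r_A7_3_2_m3 : chkD (lR iA7_2 lM fg)
  100000 0 0 0 9000 44 64000 65000 9200 9400 5000 15000 0 1500
  290499906670461186 = true := by decide +kernel

theorem r_A7_3_2_m4 : chkD (lR iA7_2 lM fh)
  100000 0 0 0 9000 44 64000 65000 9200 9400 5000 15000 1500 3000
  66050 = true := by decide +kernel

theorem r_A7_3_2_m5 : chkD (lR iA7_2 lM fk)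
  100000 0 0 0 9000 44 64000 65000 9200 9400 5000 15000 3000 5000
  4 = true := by decide +kernel

theorem r_A7_3_3_m0 : chkD (lR iA7_3 lM fg)
  100000 0 0 0 9000 44 64000 65000 9200 9400 2000 5000 0 1500
  17730438726146 = true := by decide +kernel

theorem r_A7_3_3_m1 : chkD (lR iA7_3 lM fh)
  100000 0 0 0 9000 44 64000 65000 9200 9400 2000 5000 1500 3000
  66050 = true := by decide +kernel

theorem r_A7_3_3_m2 : chkD (lR iA7_3 lM fk)
  100000 0 0 0 9000 44 64000 65000 9200 9400 2000 5000 3000 5000
  4 = true := by decide +kernel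

theorem r_A7_3_3_m3 : chkD (lR iA7_3 lM fg)
  100000 0 0 0 9000 44 64000 65000 9200 9400 5000 15000 0 1500
  4759406355666941542658 = true := by decide +kernel

theorem r_A7_3_3_m4 : chkD (lR iA7_3 lM fh)
  100000 0 0 0 9000 44 64000 65000 9200 9400 5000 15000 1500 3000
  4 = true := by decide +kernel

theorem r_A7_3_3_m5 : chkD (lR iA7_3 lM fk)
  100000 0 0 0 9000 44 64000 65000 9200 9400 5000 15000 3000 5000
  4 = true := by decide +kernel

theorem r_EA_1M0 : chkD [f1e iEA_0 vy kM, f1l iEA_0 vy kM, .of (f1z iEA_1 vy kM), f1e iEA_2 vy kM, f1l iEA_2 vy kM, f1e iEA_3 vy kM, f1l iEA_3 vy kM]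
  100000 0 0 0 4500 44 63000 65000 8700 11450 0 70000 0 4500
  484279168502309882239625204220831908502940660252680410307287749702229897912953620295803138980076650232666798798403082642240020513216879504035976102558964753797058987002133035440973932341065937025380319351572078625846695098597702243234305973617581507032940802 = true := by decide +kernel

theorem r_EA_1U0 : chkD [f1e iEA_0 vy kU, f1l iEA_0 vy kU, .of (f1z iEA_1 vy kU), f1e iEA_2 vy kU, f1l iEA_2 vy kU, f1e iEA_3 vy kU, f1l iEA_3 vy kU]
  100000 0 0 0 0 44 63000 65000 8700 11450 0 70000 0 0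
  15214259409977350828908394583034491565458111281513263787031842500889467275777022191555806433889541455265861740302859837489383101076013618922129881767316258464744828076290 = true := by decide +kernel

theorem r_EA_1s : chkD [.of (f1z iEA_1 ys hR)]
  100000 0 0 0 0 44 63000 65000 8700 11450 0 0 0 0
  4 = true := by decide +kernel

theorem r_EA_3_0_m0 : chkD (lR iEA_0 lM fg)
  100000 0 0 0 9000 44 63000 65000 8700 11450 2000 5000 0 1500
  66050 = true := by decide +kernel

theorem r_EA_3_0_m1 : chkD (lR iEA_0 lM fh)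
  100000 0 0 0 9000 44 63000 65000 8700 11450 2000 5000 1500 3000
  4 = true := by decide +kernel

theorem r_EA_3_0_m2 : chkD (lR iEA_0 lM fk)
  100000 0 0 0 9000 44 63000 65000 8700 11450 2000 5000 3000 5000
  4 = true := by decide +kernel

theorem r_EA_3_0_m3 : chkD (lR iEA_0 lM fg)
  100000 0 0 0 9000 44 63000 65000 8700 11450 5000 15000 0 1500
  66050 = true := by decide +kernel

theorem r_EA_3_0_m4 : chkD (lR iEA_0 lM fh)
  100000 0 0 0 9000 44 63000 65000 8700 11450 5000 15000 1500 3000
  4 = true := by decide +kernel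

theorem r_EA_3_0_m5 : chkD (lR iEA_0 lM fk)
  100000 0 0 0 9000 44 63000 65000 8700 11450 5000 15000 3000 5000
  4 = true := by decide +kernel

theorem r_EA_3_0_m6 : chkD (lR iEA_0 lM fM)
  100000 0 0 0 9000 44 63000 65000 8700 11450 0 2000 0 8700
  66050 = true := by decide +kernel

theorem r_EA_3_0_m7 : chkD (lR iEA_0 lM fM)
  100000 0 0 0 9000 44 63000 65000 8700 11450 2000 5000 5000 8700
  4 = true := by decide +kernel

theorem r_EA_3_0_m8 : chkD (lR iEA_0 lM fM)
  100000 0 0 0 9000 44 63000 65000 8700 11450 5000 15000 5000 8700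
  4 = true := by decide +kernel

theorem r_EA_3_0_m9 : chkD (lR iEA_0 lM fM)
  100000 0 0 0 9000 44 63000 65000 8700 11450 15000 50000 0 8700
  77978113731247170771796226 = true := by decide +kernel

theorem r_EA_3_1_m0 : chkD (lZ iEA_1 lM fg)
  100000 0 0 0 9000 44 63000 65000 8700 11450 2000 5000 0 1500
  66050 = true := by decide +kernel

theorem r_EA_3_1_m1 : chkD (lZ iEA_1 lM fh)
  100000 0 0 0 9000 44 63000 65000 8700 11450 2000 5000 1500 3000
  4 = true := by decide +kernel

theorem r_EA_3_1_m2 : chkD (lZ iEA_1 lM fk)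
  100000 0 0 0 9000 44 63000 65000 8700 11450 2000 5000 3000 5000
  4 = true := by decide +kernel

theorem r_EA_3_1_m3 : chkD (lZ iEA_1 lM fg)
  100000 0 0 0 9000 44 63000 65000 8700 11450 5000 15000 0 1500
  66050 = true := by decide +kernel

theorem r_EA_3_1_m4 : chkD (lZ iEA_1 lM fh)
  100000 0 0 0 9000 44 63000 65000 8700 11450 5000 15000 1500 3000
  4 = true := by decide +kernel

theorem r_EA_3_1_m5 : chkD (lZ iEA_1 lM fk)
  100000 0 0 0 9000 44 63000 65000 8700 11450 5000 15000 3000 5000
  4 = true := by decide +kernel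

theorem r_EA_3_1_m6 : chkD (lZ iEA_1 lM fM)
  100000 0 0 0 9000 44 63000 65000 8700 11450 0 2000 0 8700
  66051 = true := by decide +kernel

theorem r_EA_3_1_m7 : chkD (lZ iEA_1 lM fM)
  100000 0 0 0 9000 44 63000 65000 8700 11450 2000 5000 5000 8700
  4 = true := by decide +kernel

theorem r_EA_3_1_m8 : chkD (lZ iEA_1 lM fM)
  100000 0 0 0 9000 44 63000 65000 8700 11450 5000 15000 5000 8700
  4 = true := by decide +kernel

theorem r_EA_3_1_m9 : chkD (lZ iEA_1 lM fM)
  100000 0 0 0 9000 44 63000 65000 8700 11450 15000 50000 0 8700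
  77978113731247170773876994 = true := by decide +kernel

theorem r_EA_3_2_m0 : chkD (lR iEA_2 lM fg)
  100000 0 0 0 9000 44 63000 65000 8700 11450 2000 5000 0 1500
  1082195970 = true := by decide +kernel

theorem r_EA_3_2_m1 : chkD (lR iEA_2 lM fh)
  100000 0 0 0 9000 44 63000 65000 8700 11450 2000 5000 1500 3000
  66050 = true := by decide +kernel

theorem r_EA_3_2_m2 : chkD (lR iEA_2 lM fk)
  100000 0 0 0 9000 44 63000 65000 8700 11450 2000 5000 3000 5000
  66050 = true := by decide +kernel

theorem r_EA_3_2_m3 : chkD (lR iEA_2 lM fg)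
  100000 0 0 0 9000 44 63000 65000 8700 11450 5000 15000 0 1500
  4 = true := by decide +kernel

theorem r_EA_3_2_m4 : chkD (lR iEA_2 lM fh)
  100000 0 0 0 9000 44 63000 65000 8700 11450 5000 15000 1500 3000
  4 = true := by decide +kernel

theorem r_EA_3_2_m5 : chkD (lR iEA_2 lM fk)
  100000 0 0 0 9000 44 63000 65000 8700 11450 5000 15000 3000 5000
  4 = true := by decide +kernel

theorem r_EA_3_2_m6 : chkD (lR iEA_2 lM fM)
  100000 0 0 0 9000 44 63000 65000 8700 11450 0 2000 0 8700
  151487949319843467533965496424635391626001033151734158379422156851222929764888894422576255090635391011632742658 = true := by decide +kernel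

theorem r_EA_3_2_m7 : chkD (lR iEA_2 lM fM)
  100000 0 0 0 9000 44 63000 65000 8700 11450 2000 5000 5000 8700
  66051 = true := by decide +kernel

theorem r_EA_3_2_m8 : chkD (lR iEA_2 lM fM)
  100000 0 0 0 9000 44 63000 65000 8700 11450 5000 15000 5000 8700
  4 = true := by decide +kernel

theorem r_EA_3_2_m9 : chkD (lR iEA_2 lM fM)
  100000 0 0 0 9000 44 63000 65000 8700 11450 15000 50000 0 8700
  1082163714 = true := by decide +kernel

theorem r_EA_3_3_m0 : chkD (lR iEA_3 lM fg)
  100000 0 0 0 9000 44 63000 65000 8700 11450 2000 5000 0 1500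
  1082130946 = true := by decide +kernel

theorem r_EA_3_3_m1 : chkD (lR iEA_3 lM fh)
  100000 0 0 0 9000 44 63000 65000 8700 11450 2000 5000 1500 3000
  66050 = true := by decide +kernel

theorem r_EA_3_3_m2 : chkD (lR iEA_3 lM fk)
  100000 0 0 0 9000 44 63000 65000 8700 11450 2000 5000 3000 5000
  4 = true := by decide +kernel

theorem r_EA_3_3_m3 : chkD (lR iEA_3 lM fg)
  100000 0 0 0 9000 44 63000 65000 8700 11450 5000 15000 0 1500
  1082196226 = true := by decide +kernel

theorem r_EA_3_3_m4 : chkD (lR iEA_3 lM fh)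
  100000 0 0 0 9000 44 63000 65000 8700 11450 5000 15000 1500 3000
  66050 = true := by decide +kernel

theorem r_EA_3_3_m5 : chkD (lR iEA_3 lM fk)
  100000 0 0 0 9000 44 63000 65000 8700 11450 5000 15000 3000 5000
  4 = true := by decide +kernel

theorem r_EA_3_3_m6 : chkD (lR iEA_3 lM fM)
  100000 0 0 0 9000 44 63000 65000 8700 11450 0 2000 0 8700
  66050 = true := by decide +kernel

theorem r_EA_3_3_m7 : chkD (lR iEA_3 lM fM)
  100000 0 0 0 9000 44 63000 65000 8700 11450 2000 5000 5000 8700
  4 = true := by decide +kernel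

theorem r_EA_3_3_m8 : chkD (lR iEA_3 lM fM)
  100000 0 0 0 9000 44 63000 65000 8700 11450 5000 15000 5000 8700
  4 = true := by decide +kernel

theorem r_EA_3_3_m9 : chkD (lR iEA_3 lM fM)
  100000 0 0 0 9000 44 63000 65000 8700 11450 15000 50000 0 8700
  17730170323202 = true := by decide +kernel

theorem r_EC_1M0 : chkD [f1e iEC_0 vy kM, f1l iEC_0 vy kM, .of (f1z iEC_1 vy kM)]
  100000 0 0 0 4500 44 63000 65000 8700 11450 0 70000 0 4500
  342972220721391405309502949658430832898 = true := by decide +kernel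

theorem r_EC_1U0 : chkD [f1e iEC_0 vy kU, f1l iEC_0 vy kU, .of (f1z iEC_1 vy kU)]
  100000 0 0 0 0 44 63000 65000 8700 11450 0 70000 0 0
  1277632098637653957436074131714 = true := by decide +kernel

theorem r_EC_1s : chkD [.of (f1z iEC_1 ys hR)]
  100000 0 0 0 0 44 63000 65000 8700 11450 0 0 0 0
  4 = true := by decide +kernel

theorem r_EC_3_0_m0 : chkD (lK iEC_0 lM)
  100000 0 0 0 9000 44 63000 65000 8700 11450 50000 60000 0 8700
  342951371038105163667184874686051811714 = true := by decide +kernel

theorem r_EC_3_0_m1 : chkD (lK iEC_0 lM)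
  100000 0 0 0 9000 44 63000 65000 8700 11450 60000 70000 0 8000
  56678370755549054512191527733865053070936077215480426547321442946001145522911243270144440940612127200742857081744749073419282446687248250119466466783167233655170 = true := by decide +kernel

theorem r_EC_3_0_m2 : chkD (lK iEC_0 lM)
  100000 0 0 0 9000 44 63000 65000 8700 11450 70000 75000 0 8700
  66051 = true := by decide +kernel

theorem r_EC_3_0_m3 : chkD (lK iEC_0 lM)
  100000 0 0 0 9000 44 63000 65000 8700 11450 75000 80000 0 8700
  5 = true := by decide +kernel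

theorem r_EC_3_1_m0 : chkD (lY iEC_1 lM)
  100000 0 0 0 9000 44 63000 65000 8700 11450 50000 60000 0 8700
  290499837684679042 = true := by decide +kernel

theorem r_EC_3_1_m1 : chkD (lY iEC_1 lM)
  100000 0 0 0 9000 44 63000 65000 8700 11450 60000 70000 0 8000
  17730702999555 = true := by decide +kernel

theorem r_EC_3_1_m2 : chkD (lY iEC_1 lM)
  100000 0 0 0 9000 44 63000 65000 8700 11450 70000 75000 0 8700
  66051 = true := by decide +kernel

theorem r_EC_3_1_m3 : chkD (lY iEC_1 lM)
  100000 0 0 0 9000 44 63000 65000 8700 11450 75000 80000 0 8700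
  66051 = true := by decide +kernel

theorem r_EN_1M0 : chkD [.of (f1z iEN_0 vy kM)]
  100000 0 0 0 4500 44 63000 65000 8700 9400 0 70000 0 4500
  1277593415372609530737306140930 = true := by decide +kernel

theorem r_EN_1U0 : chkD [.of (f1z iEN_0 vy kU)]
  100000 0 0 0 0 44 63000 65000 8700 9400 0 70000 0 0
  20932090517464834551600023817191682 = true := by decide +kernel

theorem r_EN_3_0_m0 : chkD (lY iEN_0 lM)
  100000 0 0 0 9000 44 63000 65000 8700 9400 60000 70000 8000 8700
  404885514961225474474374885859850633624241678803143695040768 = true := by decide +kernel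

theorem r_EU_1M0 : chkD [f1e iEU_0 vy kM, f1l iEU_0 vy kM, .of (f1z iEU_1 vy kM)]
  100000 0 0 0 4500 44 63000 65000 8700 11450 0 70000 0 4500
  44914989908324673236462551300683039081538726552794557610354836707795366591198255026785069802567695359820380516755230296287669215665783180929970555536477278844501302342200630297363192503381420371055930886839606874191061200366399540166600368791509067290362079498447085800098002542223372849352998595271175813065483751894439047915059823030752900935419607688139344964138874359031335575938311698961752019873665224904402259799288102027522 = true := by decide +kernel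

theorem r_EU_1U0 : chkD [f1e iEU_0 vy kU, f1l iEU_0 vy kU, .of (f1z iEU_1 vy kU)]
  100000 0 0 0 0 44 63000 65000 8700 11450 0 70000 0 0
  8406678543704143471677330834673661837869314 = true := by decide +kernel

theorem r_EU_1s : chkD [.of (f1z iEU_1 ys hR)]
  100000 0 0 0 0 44 63000 65000 8700 11450 0 0 0 0
  4 = true := by decide +kernel

theorem r_EU_3_0_u0 : chkD (lR iEU_0 lU fU)
  100000 0 0 0 9000 44 63000 65000 8700 11450 0 1000 0 8700
  666251044522471262602700033693217876704065305257332338859607156722608205542173616996315395067105772022307267311668773814530 = true := by decide +kernel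

theorem r_EU_3_0_u1 : chkD (lR iEU_0 lU fU)
  100000 0 0 0 9000 44 63000 65000 8700 11450 1000 3000 0 8700
  1082163712 = true := by decide +kernel

theorem r_EU_3_0_u2 : chkD (lR iEU_0 lU fU)
  100000 0 0 0 9000 44 63000 65000 8700 11450 3000 10000 0 8700
  5 = true := by decide +kernel

theorem r_EU_3_0_u3 : chkD (lR iEU_0 lU fU)
  100000 0 0 0 9000 44 63000 65000 8700 11450 10000 50000 0 8700
  5 = true := by decide +kernel

theorem r_EU_3_0_u4 : chkD (lR iEU_0 lU fU)
  100000 0 0 0 9000 44 63000 65000 8700 11450 50000 75000 0 8700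
  5 = true := by decide +kernel

theorem r_EU_3_0_u5 : chkD (lR iEU_0 lU fU)
  100000 0 0 0 9000 44 63000 65000 8700 11450 75000 77000 0 8700
  5 = true := by decide +kernel

theorem r_EU_3_0_u6 : chkD (lR iEU_0 lU fU)
  100000 0 0 0 9000 44 63000 65000 8700 11450 77000 79000 0 8700
  5 = true := by decide +kernel

theorem r_EU_3_0_u7 : chkD (lR iEU_0 lU fU)
  100000 0 0 0 9000 44 63000 65000 8700 11450 79000 80000 0 8700
  5 = true := by decide +kernel

theorem r_EU_3_1_u0 : chkD (lZ iEU_1 lU fU)
  100000 0 0 0 9000 44 63000 65000 8700 11450 0 1000 0 8700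
  1277632099836836437449089532162 = true := by decide +kernel

theorem r_EU_3_1_u1 : chkD (lZ iEU_1 lU fU)
  100000 0 0 0 9000 44 63000 65000 8700 11450 1000 3000 0 8700
  4 = true := by decide +kernel

theorem r_EU_3_1_u2 : chkD (lZ iEU_1 lU fU)
  100000 0 0 0 9000 44 63000 65000 8700 11450 3000 10000 0 8700
  4 = true := by decide +kernel

theorem r_EU_3_1_u3 : chkD (lZ iEU_1 lU fU)
  100000 0 0 0 9000 44 63000 65000 8700 11450 10000 50000 0 8700
  4 = true := by decide +kernel

theorem r_EU_3_1_u4 : chkD (lZ iEU_1 lU fU)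
  100000 0 0 0 9000 44 63000 65000 8700 11450 50000 75000 0 8700
  4 = true := by decide +kernel

theorem r_EU_3_1_u5 : chkD (lZ iEU_1 lU fU)
  100000 0 0 0 9000 44 63000 65000 8700 11450 75000 77000 0 8700
  4 = true := by decide +kernel

theorem r_EU_3_1_u6 : chkD (lZ iEU_1 lU fU)
  100000 0 0 0 9000 44 63000 65000 8700 11450 77000 79000 0 8700
  4 = true := by decide +kernel

theorem r_EU_3_1_u7 : chkD (lZ iEU_1 lU fU)
  100000 0 0 0 9000 44 63000 65000 8700 11450 79000 80000 0 8700
  17730707128707 = true := by decide +kernel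

end R13

end Pool.Agent.Work.NumGs

end
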