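import Pool.Agent.Work.MP_b30479_gt.TBS.G2.WM13X
import Pool.Agent.Work.MP_b30479_gt.TBS.G2.H13A
import Pool.Agent.Work.MP_b30479_gt.TBS.G2.WM13U
import Pool.Agent.Work.MP_b30479_gt.TBS.G2.WM13Y2
import Pool.Agent.Work.MP_b30479_gt.TBS.G2.WM13Y3
import Pool.Agent.Work.MP_b30479_gt.TBS.G2.WM13Y14_1
import Pool.Agent.Work.MP_b30479_gt.TBS.G2.WM13Y11
import Pool.Agent.Work.MP_b30479_gt.TBS.G2.WM13Y13_6
import Pool.Agent.Work.MP_b30479_gt.TBS.G2.WM13VC
import Pool.Agent.Work.MP_b30479_gt.TBS.G2.WM13VD
import Pool.Agent.Work.MP_b30479_gt.TBS.G2.WLocF
import Pool.Agent.Work.MP_b30479_gt.TBS.G2.RVa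
import Pool.Agent.Work.MP_b30479_gt.TBS.G2.WMainS
import Pool.Agent.Work.MP_b30479_gt.TBS.G2.WMid

section

/-!
# The kind `1 | 3`, slot `0` of the `3`, middle of the path: rows 1
-/

set_option deprecated.oldSectionVars true

namespace Pool.Agent.Work.NumGs.P13

theorem k_a1_W : chkD (g_a1.map (F1 0 kW)) 100000 0 0 0 100000 40 3000 6000 2100 11450 0 86000 0 200000 1547986832405885840314103981549372713935534127859652263181521317202423865055294992168658385793365888305455651508230209626800226678239011037256891177778512939173599875161665450707660547064139184426443543201993831608556842665492100233267084984789819290602668041152345317390678028750728021710267234161177493582960444796330552790160180085063422577933802827075337458617268693086701586949614664306857287935361152 = true := by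
  decide +kernel

theorem l_a1_0m0_q1 : Pool.Agent.Work.NumIs.runE (Pool.Agent.Work.NumGs.tstD [G3 0 lM farM i_a1_0, exU, exD])
    0 0 0 6184752907 34 2061584302 4123168606 1443109011 7868380088 0 858993459 0 6528350291
    225298424998733593985143303571054797281784982799609680584443984328186536053632215962357371026670102837806727833933929583362026163090610782658871389997089190923754706002111903199104579254677369644653127254926078248003554491226499009522406367149283898264222110881429274474324779525383504587433573747099079450208558227802699077165665379882185012041108364556569394944268924575053666087225829586039240045723301316594562216601554473816163648315070868427999053577337166348584326581508205368741725519961794613536561095445196992858577588541565361924924809383760547153308389265405936016070223043190561234915038185923370803505428671989907710947460038299552345944546576019124094550372170251432987222977208843808165254191545280354139643660751352505149140450935646464749530625844963709606417856401184367323019803879990427563689502568624501322371908173853875441097316796535147374857327219989913891421756446398564928025215214459093093224346322012691032724827696128173376909526481752448247503565631707176378648729937688879712039812359070752715880810987778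
    172247304894377312425421507263934869526690523257951152086471924505197560259333738908159612116656122408995010842599338670547877274228448503690873650826202626535262327750663159653215627619173040795228199077353848322153920196852184399197238534276653368363121331361244037021510244475685286231375455306639964958896064305463674579913221429686184253387575736396583482434403862615351972700656215772670905683048582910317313214870876643179331044801048444420583909547269433661652076206730390572163242455334287313142628647779790109724378563709098329645308666292870971449952795114780562836599509432699977150364975220849190890072259709213420720514749806758990454385836493793479485657345221061896538958291465369660795725592577873299359409729444008127660419 = true := by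
  decide +kernel

theorem l_a1_0m0_q2 : Pool.Agent.Work.NumIs.runE (Pool.Agent.Work.NumGs.tstD [G3 0 lM farM i_a1_0, exU, exD])
    0 0 0 6184752907 34 2061584302 4123168606 1443109011 7868380088 858993459 1717986918 0 6528350291
    172247304894377312425421507263934869526690523257951152086471924505197560259333738908159612116656122408995010842599338670547877274228448503690873650826202626535262327750663159653215627619173040795228199077353848322153920196852184399197238534276653368363121331361244037021510244475685286231375455306639964958896064305463674579913221429686184253387575736396583482434403862615351972700656215772670905683048582910317313214870876643179331044801048444420583909547269433661652076206730390572163242455334287313142628647779790109724378563709098329645308666292870971449952795114780562836599509432699977150364975220849190890072259709213420720514749806758990454385836493793479485657345221061896538958291465369660795725592577873299359409729444008127660419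
    1851417686628417623868037873662807291076508215111952688024531618062921972810471448721739680134594565755158438118660710029773164469899320204047792485140255214028119439102183923245127806614501447577462667238413354998975402826180104733237862502437918074928137737552237800878514162501844263527742265761328925468183464678900626287157943467944176595196690073747571368608329221657803435068057028488902807093139902966635042623684795555495757708816071840106108656605963345347019947521765606914553669688660571484078503295180286018063122521615761853370556382391130273896374237442088909313038360084116151005052190979 = true := by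
  decide +kernel

theorem l_a1_0m0_q3 : Pool.Agent.Work.NumIs.runE (Pool.Agent.Work.NumGs.tstD [G3 0 lM farM i_a1_0, exU, exD])
    0 0 0 6184752907 35 2061584302 4123168606 1443109011 7868380088 1717986918 3435973836 0 6528350291
    1851417686628417623868037873662807291076508215111952688024531618062921972810471448721739680134594565755158438118660710029773164469899320204047792485140255214028119439102183923245127806614501447577462667238413354998975402826180104733237862502437918074928137737552237800878514162501844263527742265761328925468183464678900626287157943467944176595196690073747571368608329221657803435068057028488902807093139902966635042623684795555495757708816071840106108656605963345347019947521765606914553669688660571484078503295180286018063122521615761853370556382391130273896374237442088909313038360084116151005052190979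
    19900151427405085260087409575636935134780134652120585472110457080949885633315067537518891733137620068054759497324167704278440891554540460298364337429402834352570412867481756876637543496814000621249001601116194511277518445525421409010026298220673311160841482024366670408875855673758307338551896159927502453441085670652348138543477266234867988387198936671253628714780699198530124619850497673081169855317474562120199433458346059874151639264581795993304734956587105435907 = true := by
  decide +kernel

theorem l_a1_0m0_q4 : Pool.Agent.Work.NumIs.runE (Pool.Agent.Work.NumGs.tstD [G3 0 lM farM i_a1_0, exU, exD])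
    0 0 0 6184752907 36 2061584302 4123168606 1443109011 7868380088 3435973836 6871947673 0 6528350291
    19900151427405085260087409575636935134780134652120585472110457080949885633315067537518891733137620068054759497324167704278440891554540460298364337429402834352570412867481756876637543496814000621249001601116194511277518445525421409010026298220673311160841482024366670408875855673758307338551896159927502453441085670652348138543477266234867988387198936671253628714780699198530124619850497673081169855317474562120199433458346059874151639264581795993304734956587105435907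
    13055346856555831964107172020006056781400070891673380902024738931676345046555675054582187164675115934333035281685653105164316308744926434620923019549606922996441376164979357308742397481389349770774347368783282448154553093037732069294861223464089818857443296408823378374992620130448751275624140122665542159086322591130431045888 = true := by
  decide +kernel

theorem l_a1_0m0_q5 : Pool.Agent.Work.NumIs.runE (Pool.Agent.Work.NumGs.tstD [G3 0 lM farM i_a1_0, exU, exD])
    0 0 0 6184752907 37 2061584302 4123168606 1443109011 7868380088 6871947673 13743895347 0 6528350291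
    13055346856555831964107172020006056781400070891673380902024738931676345046555675054582187164675115934333035281685653105164316308744926434620923019549606922996441376164979357308742397481389349770774347368783282448154553093037732069294861223464089818857443296408823378374992620130448751275624140122665542159086322591130431045888
    719221152356542047804071725440935080191066370 = true := by
  decide +kernel

theorem l_a1_0m0_q6 : Pool.Agent.Work.NumIs.runE (Pool.Agent.Work.NumGs.tstD [G3 0 lM farM i_a1_0, exU, exD])
    0 0 0 6184752907 38 2061584302 4123168606 1443109011 7868380088 13743895347 27487790695 0 6528350291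
    719221152356542047804071725440935080191066370
    17730170290690 = true := by
  decide +kernel

theorem l_a1_0m0_q7 : Pool.Agent.Work.NumIs.runE (Pool.Agent.Work.NumGs.tstD [G3 0 lM farM i_a1_0, exU, exD])
    0 0 0 6184752907 39 2061584302 4123168606 1443109011 7868380088 27487790695 54975581390 0 6528350291
    17730170290690
    0 = true := by
  decide +kernel

theorem l_a1_0m0 : chkD [G3 0 lM farM i_a1_0, exU, exD] 100000 0 0 0 9000 40 3000 6000 2100 11450 0 80000 0 9500 990872952022906498644718385880146295346356426371324006067397712930301648217984276040022093439064100320600768937491606103354171493141028450493252141370941040857729527608489503920611271047863662238810442571810571236057337683529453746662530996355423327092966536310604254826734100217786935358354607939783394416999851998949693928402855097009562582771636872563211359477906200247240901928488162753031940269132926791605644095222727401270181054154009481032268662613621694702060972611339489704342867741536771107439092536568888980075659566965317187700690599487780314642970040419692502377769101731767353343841753443463214247052347703969141617231423527693808411926431512116137837219287342959051547912471523059218474869264603032395961413365781276464520427355421997226718464890219040255043999462352395380038472832639890222263401851525888234377109605125957096757627443194337222747701732429647132276236839813282829667533714646490553513183279763478930311685735139436063209517360936932050934743375904329628871475207940413292734555024928957943669566733339099170145861890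 = true :=
    Pool.Agent.Work.NumIs.okB_of rfl rfl rfl rfl rfl rfl rfl rfl rfl rfl rfl rfl
    (Pool.Agent.Work.NumIs.runE_split2 rfl rfl rfl
      (Pool.Agent.Work.NumIs.runE_split2 rfl rfl rfl
        (Pool.Agent.Work.NumIs.runE_split2 rfl rfl rfl
          (Pool.Agent.Work.NumIs.runE_split2 rfl rfl rfl
            (Pool.Agent.Work.NumIs.runE_split2 rfl rfl rfl
              (Pool.Agent.Work.NumIs.runE_split2 rfl rfl rfl
                l_a1_0m0_q1
                l_a1_0m0_q2)
              l_a1_0m0_q3)
            l_a1_0m0_q4)
          l_a1_0m0_q5)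
        l_a1_0m0_q6)
      l_a1_0m0_q7)

theorem l_a1_0u1 : chkD [G3 0 lU farU i_a1_0, exU, exD] 100000 0 0 0 9000 40 3000 6000 2100 11450 0 80000 0 9000 928604366495208054222620959079662497760793997662713569660861052509491893114652945367456269453001176240909482704637667206239075030629765424711050586618707699140952320 = true := by
  decide +kernel

theorem l_a1_0d2 : chkD [G3 0 lD farD i_a1_0, exU, exD] 100000 0 0 0 9000 40 3000 6000 2100 11450 0 80000 9000 9500 5618915263170712290840260101095410506957058 = true := by
  decide +kernel

end Pool.Agent.Work.NumGs.P13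

end

section

/-!
# The kind `1 | 3`, slot `0` of the `3`: the middle of the path, first part
-/

namespace Pool.Agent.Work.MP_b30479_gtS.G2

open Finset VOL Filter Topology

namespace M13

open NumGs NumGs.P13

variable {x T Tl pl κ : ℝ} {k l w : ℂ}

theorem a1_W_m (h : H x T Tl pl k l w) (x0 : 3 / 100 ≤ x) (x1 : x ≤ 6 / 100) (K : KW x T k κ)
    (hr : 1 / 2 * τ x = hv 0 x)
    (hl : LT lM farM x T Tl pl l w) : False := by
  have l0 := h.l0
  have l1 := h.l1
  have t0 := h.t0
  have t1 := h.t1
  have T0 := K.T0
  have T1 := K.T1
  have k0 := K.k0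
  have k1 := K.k1
  have q0 := K.q0
  have q1 := K.q1
  refine h.grp (its := g_a1) (κ := κ) rfl hr K.hk hl (th_zero rfl) (chkD4 k_a1_W (by norm_num)
    (by push_cast; linarith only [x0]) (by push_cast; linarith only [x1]) (by push_cast; linarith only [T0]) (by push_cast; linarith only [T1])
    (by push_cast; linarith only [k0]) (by push_cast; linarith only [k1]) (by push_cast; linarith only [q0]) (by push_cast; linarith only [q1])) ?_
  intro i hi
  simp only [g_a1, List.mem_cons, List.not_mem_nil, or_false] at hi
  rcases hi with rfl | rfl
  · exact chkD4 l_a1_0m0 (by norm_num)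
      (by push_cast; linarith only [x0]) (by push_cast; linarith only [x1]) (by push_cast; linarith only [T0]) (by push_cast; linarith only [T1])
      (by push_cast; linarith only [l0]) (by push_cast; linarith only [l1]) (by push_cast; linarith only [t0]) (by push_cast; linarith only [t1])
  · exact chkD4 l_a1_1m0 (by norm_num)
      (by push_cast; linarith only [x0]) (by push_cast; linarith only [x1]) (by push_cast; linarith only [T0]) (by push_cast; linarith only [T1])
      (by push_cast; linarith only [l0]) (by push_cast; linarith only [l1]) (by push_cast; linarith only [t0]) (by push_cast; linarith only [t1])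

theorem a1_W_u (h : H x T Tl pl k l w) (x0 : 3 / 100 ≤ x) (x1 : x ≤ 6 / 100) (K : KW x T k κ)
    (hr : 1 / 2 * τ x = hv 0 x) (hT : Tl ≤ 0)
    (hl : LT P13.lU farU x T Tl pl l w) : False := by
  have l0 := h.l0
  have l1 := h.l1
  have t0 := h.t0
  have t1 := h.t1
  have T0 := K.T0
  have T1 := K.T1
  have k0 := K.k0
  have k1 := K.k1
  have q0 := K.q0
  have q1 := K.q1
  refine h.grp (its := g_a1) (κ := κ) rfl hr K.hk hl (th_zero rfl) (chkD4 k_a1_W (by norm_num)
    (by push_cast; linarith only [x0]) (by push_cast; linarith only [x1]) (by push_cast; linarith only [T0]) (by push_cast; linarith only [T1])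
    (by push_cast; linarith only [k0]) (by push_cast; linarith only [k1]) (by push_cast; linarith only [q0]) (by push_cast; linarith only [q1])) ?_
  intro i hi
  simp only [g_a1, List.mem_cons, List.not_mem_nil, or_false] at hi
  rcases hi with rfl | rfl
  · exact chkD4 l_a1_0u1 (by norm_num)
      (by push_cast; linarith only [x0]) (by push_cast; linarith only [x1]) (by push_cast; linarith only [T0]) (by push_cast; linarith only [T1])
      (by push_cast; linarith only [l0]) (by push_cast; linarith only [l1]) (by push_cast; linarith only [t0]) (by push_cast; linarith only [hT])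
  · exact chkD4 l_a1_1u1 (by norm_num)
      (by push_cast; linarith only [x0]) (by push_cast; linarith only [x1]) (by push_cast; linarith only [T0]) (by push_cast; linarith only [T1])
      (by push_cast; linarith only [l0]) (by push_cast; linarith only [l1]) (by push_cast; linarith only [t0]) (by push_cast; linarith only [hT])

theorem a1_W_d (h : H x T Tl pl k l w) (x0 : 3 / 100 ≤ x) (x1 : x ≤ 6 / 100) (K : KW x T k κ)
    (hr : 1 / 2 * τ x = hv 0 x) (hT : 0 ≤ Tl)
    (hl : LT lD farD x T Tl pl l w) : False := by
  have l0 := h.l0
  have l1 := h.l1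
  have t0 := h.t0
  have t1 := h.t1
  have T0 := K.T0
  have T1 := K.T1
  have k0 := K.k0
  have k1 := K.k1
  have q0 := K.q0
  have q1 := K.q1
  refine h.grp (its := g_a1) (κ := κ) rfl hr K.hk hl (th_zero rfl) (chkD4 k_a1_W (by norm_num)
    (by push_cast; linarith only [x0]) (by push_cast; linarith only [x1]) (by push_cast; linarith only [T0]) (by push_cast; linarith only [T1])
    (by push_cast; linarith only [k0]) (by push_cast; linarith only [k1]) (by push_cast; linarith only [q0]) (by push_cast; linarith only [q1])) ?_
  intro i hi
  simp only [g_a1, List.mem_cons, List.not_mem_nil, or_false] at hi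
  rcases hi with rfl | rfl
  · exact chkD4 l_a1_0d2 (by norm_num)
      (by push_cast; linarith only [x0]) (by push_cast; linarith only [x1]) (by push_cast; linarith only [T0]) (by push_cast; linarith only [T1])
      (by push_cast; linarith only [l0]) (by push_cast; linarith only [l1]) (by push_cast; linarith only [hT]) (by push_cast; linarith only [t1])
  · exact chkD4 l_a1_1d2 (by norm_num)
      (by push_cast; linarith only [x0]) (by push_cast; linarith only [x1]) (by push_cast; linarith only [T0]) (by push_cast; linarith only [T1])
      (by push_cast; linarith only [l0]) (by push_cast; linarith only [l1]) (by push_cast; linarith only [hT]) (by push_cast; linarith only [t1])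

theorem a2_W_m (h : H x T Tl pl k l w) (x0 : 6 / 100 ≤ x) (x1 : x ≤ 13 / 100) (K : KW x T k κ)
    (hr : 1 / 2 * τ x = hv 0 x)
    (hl : LT lM farM x T Tl pl l w) : False := by
  have l0 := h.l0
  have l1 := h.l1
  have t0 := h.t0
  have t1 := h.t1
  have T0 := K.T0
  have T1 := K.T1
  have k0 := K.k0
  have k1 := K.k1
  have q0 := K.q0
  have q1 := K.q1
  refine h.grp (its := g_a2) (κ := κ) rfl hr K.hk hl (th_zero rfl) (chkD4 k_a2_W (by norm_num)
    (by push_cast; linarith only [x0]) (by push_cast; linarith only [x1]) (by push_cast; linarith only [T0]) (by push_cast; linarith only [T1])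
    (by push_cast; linarith only [k0]) (by push_cast; linarith only [k1]) (by push_cast; linarith only [q0]) (by push_cast; linarith only [q1])) ?_
  intro i hi
  simp only [g_a2, List.mem_cons, List.not_mem_nil, or_false] at hi
  subst hi
  exact chkD4 l_a2_0m0 (by norm_num)
      (by push_cast; linarith only [x0]) (by push_cast; linarith only [x1]) (by push_cast; linarith only [T0]) (by push_cast; linarith only [T1])
      (by push_cast; linarith only [l0]) (by push_cast; linarith only [l1]) (by push_cast; linarith only [t0]) (by push_cast; linarith only [t1])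

theorem a2_W_u (h : H x T Tl pl k l w) (x0 : 6 / 100 ≤ x) (x1 : x ≤ 13 / 100) (K : KW x T k κ)
    (hr : 1 / 2 * τ x = hv 0 x) (hT : Tl ≤ 0)
    (hl : LT P13.lU farU x T Tl pl l w) : False := by
  have l0 := h.l0
  have l1 := h.l1
  have t0 := h.t0
  have t1 := h.t1
  have T0 := K.T0
  have T1 := K.T1
  have k0 := K.k0
  have k1 := K.k1
  have q0 := K.q0
  have q1 := K.q1
  refine h.grp (its := g_a2) (κ := κ) rfl hr K.hk hl (th_zero rfl) (chkD4 k_a2_W (by norm_num)
    (by push_cast; linarith only [x0]) (by push_cast; linarith only [x1]) (by push_cast; linarith only [T0]) (by push_cast; linarith only [T1])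
    (by push_cast; linarith only [k0]) (by push_cast; linarith only [k1]) (by push_cast; linarith only [q0]) (by push_cast; linarith only [q1])) ?_
  intro i hi
  simp only [g_a2, List.mem_cons, List.not_mem_nil, or_false] at hi
  subst hi
  exact chkD4 l_a2_0u1 (by norm_num)
      (by push_cast; linarith only [x0]) (by push_cast; linarith only [x1]) (by push_cast; linarith only [T0]) (by push_cast; linarith only [T1])
      (by push_cast; linarith only [l0]) (by push_cast; linarith only [l1]) (by push_cast; linarith only [t0]) (by push_cast; linarith only [hT])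

theorem a2_W_d (h : H x T Tl pl k l w) (x0 : 6 / 100 ≤ x) (x1 : x ≤ 13 / 100) (K : KW x T k κ)
    (hr : 1 / 2 * τ x = hv 0 x) (hT : 0 ≤ Tl)
    (hl : LT lD farD x T Tl pl l w) : False := by
  have l0 := h.l0
  have l1 := h.l1
  have t0 := h.t0
  have t1 := h.t1
  have T0 := K.T0
  have T1 := K.T1
  have k0 := K.k0
  have k1 := K.k1
  have q0 := K.q0
  have q1 := K.q1
  refine h.grp (its := g_a2) (κ := κ) rfl hr K.hk hl (th_zero rfl) (chkD4 k_a2_W (by norm_num)
    (by push_cast; linarith only [x0]) (by push_cast; linarith only [x1]) (by push_cast; linarith only [T0]) (by push_cast; linarith only [T1])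
    (by push_cast; linarith only [k0]) (by push_cast; linarith only [k1]) (by push_cast; linarith only [q0]) (by push_cast; linarith only [q1])) ?_
  intro i hi
  simp only [g_a2, List.mem_cons, List.not_mem_nil, or_false] at hi
  subst hi
  exact chkD4 l_a2_0d2 (by norm_num)
      (by push_cast; linarith only [x0]) (by push_cast; linarith only [x1]) (by push_cast; linarith only [T0]) (by push_cast; linarith only [T1])
      (by push_cast; linarith only [l0]) (by push_cast; linarith only [l1]) (by push_cast; linarith only [hT]) (by push_cast; linarith only [t1])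

theorem a3_W_m (h : H x T Tl pl k l w) (x0 : 13 / 100 ≤ x) (x1 : x ≤ 50 / 100) (K : KW x T k κ)
    (hr : 1 / 2 * τ x = hv 1 x) (hD : Dv 1 x k l ≤ 0)
    (hl : LT lM farM x T Tl pl l w) : False := by
  have l0 := h.l0
  have l1 := h.l1
  have t0 := h.t0
  have t1 := h.t1
  have T0 := K.T0
  have T1 := K.T1
  have k0 := K.k0
  have k1 := K.k1
  have q0 := K.q0
  have q1 := K.q1
  refine h.grp (its := g_a3) (κ := κ) rfl hr K.hk hl (th_nonneg hD rfl) (chkD4 k_a3_W (by norm_num)
    (by push_cast; linarith only [x0]) (by push_cast; linarith only [x1]) (by push_cast; linarith only [T0]) (by push_cast; linarith only [T1])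
    (by push_cast; linarith only [k0]) (by push_cast; linarith only [k1]) (by push_cast; linarith only [q0]) (by push_cast; linarith only [q1])) ?_
  intro i hi
  simp only [g_a3, List.mem_cons, List.not_mem_nil, or_false] at hi
  subst hi
  exact chkD4 l_a3_0m0 (by norm_num)
      (by push_cast; linarith only [x0]) (by push_cast; linarith only [x1]) (by push_cast; linarith only [T0]) (by push_cast; linarith only [T1])
      (by push_cast; linarith only [l0]) (by push_cast; linarith only [l1]) (by push_cast; linarith only [t0]) (by push_cast; linarith only [t1])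

theorem a3_W_u (h : H x T Tl pl k l w) (x0 : 13 / 100 ≤ x) (x1 : x ≤ 50 / 100) (K : KW x T k κ)
    (hr : 1 / 2 * τ x = hv 1 x) (hD : Dv 1 x k l ≤ 0) (hT : Tl ≤ 0)
    (hl : LT P13.lU farU x T Tl pl l w) : False := by
  have l0 := h.l0
  have l1 := h.l1
  have t0 := h.t0
  have t1 := h.t1
  have T0 := K.T0
  have T1 := K.T1
  have k0 := K.k0
  have k1 := K.k1
  have q0 := K.q0
  have q1 := K.q1
  refine h.grp (its := g_a3) (κ := κ) rfl hr K.hk hl (th_nonneg hD rfl) (chkD4 k_a3_W (by norm_num)
    (by push_cast; linarith only [x0]) (by push_cast; linarith only [x1]) (by push_cast; linarith only [T0]) (by push_cast; linarith only [T1])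
    (by push_cast; linarith only [k0]) (by push_cast; linarith only [k1]) (by push_cast; linarith only [q0]) (by push_cast; linarith only [q1])) ?_
  intro i hi
  simp only [g_a3, List.mem_cons, List.not_mem_nil, or_false] at hi
  subst hi
  exact chkD4 l_a3_0u1 (by norm_num)
      (by push_cast; linarith only [x0]) (by push_cast; linarith only [x1]) (by push_cast; linarith only [T0]) (by push_cast; linarith only [T1])
      (by push_cast; linarith only [l0]) (by push_cast; linarith only [l1]) (by push_cast; linarith only [t0]) (by push_cast; linarith only [hT])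

theorem a3_W_d (h : H x T Tl pl k l w) (x0 : 13 / 100 ≤ x) (x1 : x ≤ 50 / 100) (K : KW x T k κ)
    (hr : 1 / 2 * τ x = hv 1 x) (hD : Dv 1 x k l ≤ 0) (hT : 0 ≤ Tl)
    (hl : LT lD farD x T Tl pl l w) : False := by
  have l0 := h.l0
  have l1 := h.l1
  have t0 := h.t0
  have t1 := h.t1
  have T0 := K.T0
  have T1 := K.T1
  have k0 := K.k0
  have k1 := K.k1
  have q0 := K.q0
  have q1 := K.q1
  refine h.grp (its := g_a3) (κ := κ) rfl hr K.hk hl (th_nonneg hD rfl) (chkD4 k_a3_W (by norm_num)
    (by push_cast; linarith only [x0]) (by push_cast; linarith only [x1]) (by push_cast; linarith only [T0]) (by push_cast; linarith only [T1])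
    (by push_cast; linarith only [k0]) (by push_cast; linarith only [k1]) (by push_cast; linarith only [q0]) (by push_cast; linarith only [q1])) ?_
  intro i hi
  simp only [g_a3, List.mem_cons, List.not_mem_nil, or_false] at hi
  subst hi
  exact chkD4 l_a3_0d2 (by norm_num)
      (by push_cast; linarith only [x0]) (by push_cast; linarith only [x1]) (by push_cast; linarith only [T0]) (by push_cast; linarith only [T1])
      (by push_cast; linarith only [l0]) (by push_cast; linarith only [l1]) (by push_cast; linarith only [hT]) (by push_cast; linarith only [t1])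

theorem a4_W_m (h : H x T Tl pl k l w) (x0 : 50 / 100 ≤ x) (x1 : x ≤ 56 / 100) (K : KW x T k κ)
    (hr : 1 / 2 * τ x = hv 2 x) (hD : Dv 2 x k l ≤ 0)
    (hl : LT lM farM x T Tl pl l w) : False := by
  have l0 := h.l0
  have l1 := h.l1
  have t0 := h.t0
  have t1 := h.t1
  have T0 := K.T0
  have T1 := K.T1
  have k0 := K.k0
  have k1 := K.k1
  have q0 := K.q0
  have q1 := K.q1
  refine h.grp (its := g_a4) (κ := κ) rfl hr K.hk hl (th_nonneg hD rfl) (chkD4 k_a4_W (by norm_num)
    (by push_cast; linarith only [x0]) (by push_cast; linarith only [x1]) (by push_cast; linarith only [T0]) (by push_cast; linarith only [T1])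
    (by push_cast; linarith only [k0]) (by push_cast; linarith only [k1]) (by push_cast; linarith only [q0]) (by push_cast; linarith only [q1])) ?_
  intro i hi
  simp only [g_a4, List.mem_cons, List.not_mem_nil, or_false] at hi
  subst hi
  exact chkD4 l_a4_0m0 (by norm_num)
      (by push_cast; linarith only [x0]) (by push_cast; linarith only [x1]) (by push_cast; linarith only [T0]) (by push_cast; linarith only [T1])
      (by push_cast; linarith only [l0]) (by push_cast; linarith only [l1]) (by push_cast; linarith only [t0]) (by push_cast; linarith only [t1])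

theorem a4_W_u (h : H x T Tl pl k l w) (x0 : 50 / 100 ≤ x) (x1 : x ≤ 56 / 100) (K : KW x T k κ)
    (hr : 1 / 2 * τ x = hv 2 x) (hD : Dv 2 x k l ≤ 0) (hT : Tl ≤ 0)
    (hl : LT P13.lU farU x T Tl pl l w) : False := by
  have l0 := h.l0
  have l1 := h.l1
  have t0 := h.t0
  have t1 := h.t1
  have T0 := K.T0
  have T1 := K.T1
  have k0 := K.k0
  have k1 := K.k1
  have q0 := K.q0
  have q1 := K.q1
  refine h.grp (its := g_a4) (κ := κ) rfl hr K.hk hl (th_nonneg hD rfl) (chkD4 k_a4_W (by norm_num)
    (by push_cast; linarith only [x0]) (by push_cast; linarith only [x1]) (by push_cast; linarith only [T0]) (by push_cast; linarith only [T1])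
    (by push_cast; linarith only [k0]) (by push_cast; linarith only [k1]) (by push_cast; linarith only [q0]) (by push_cast; linarith only [q1])) ?_
  intro i hi
  simp only [g_a4, List.mem_cons, List.not_mem_nil, or_false] at hi
  subst hi
  exact chkD4 l_a4_0u1 (by norm_num)
      (by push_cast; linarith only [x0]) (by push_cast; linarith only [x1]) (by push_cast; linarith only [T0]) (by push_cast; linarith only [T1])
      (by push_cast; linarith only [l0]) (by push_cast; linarith only [l1]) (by push_cast; linarith only [t0]) (by push_cast; linarith only [hT])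

theorem a4_W_d (h : H x T Tl pl k l w) (x0 : 50 / 100 ≤ x) (x1 : x ≤ 56 / 100) (K : KW x T k κ)
    (hr : 1 / 2 * τ x = hv 2 x) (hD : Dv 2 x k l ≤ 0) (hT : 0 ≤ Tl)
    (hl : LT lD farD x T Tl pl l w) : False := by
  have l0 := h.l0
  have l1 := h.l1
  have t0 := h.t0
  have t1 := h.t1
  have T0 := K.T0
  have T1 := K.T1
  have k0 := K.k0
  have k1 := K.k1
  have q0 := K.q0
  have q1 := K.q1
  refine h.grp (its := g_a4) (κ := κ) rfl hr K.hk hl (th_nonneg hD rfl) (chkD4 k_a4_W (by norm_num)
    (by push_cast; linarith only [x0]) (by push_cast; linarith only [x1]) (by push_cast; linarith only [T0]) (by push_cast; linarith only [T1])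
    (by push_cast; linarith only [k0]) (by push_cast; linarith only [k1]) (by push_cast; linarith only [q0]) (by push_cast; linarith only [q1])) ?_
  intro i hi
  simp only [g_a4, List.mem_cons, List.not_mem_nil, or_false] at hi
  subst hi
  exact chkD4 l_a4_0d2 (by norm_num)
      (by push_cast; linarith only [x0]) (by push_cast; linarith only [x1]) (by push_cast; linarith only [T0]) (by push_cast; linarith only [T1])
      (by push_cast; linarith only [l0]) (by push_cast; linarith only [l1]) (by push_cast; linarith only [hT]) (by push_cast; linarith only [t1])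

end M13

end Pool.Agent.Work.MP_b30479_gtS.G2

end

section

/-!
# The kind `1 | 3`, slot `0` of the `3`: no point in the middle of the mirrored path
-/

namespace Pool.Agent.Work.MP_b30479_gtS.G2

open Finset VOL Filter Topology

namespace M13

open NumGs NumGs.P13

variable {x T Tl pl : ℝ} {k l w : ℂ}

theorem H.lim_le (h : H x T Tl pl k l w) : l.im ≤ 16 / 100 := by
  have h0 := tl_nonneg l.re
  have h1 := tl_one l.re
  cases h.lp with
  | main e _ =>
    have := tl_le h.t1 (y := l.re)
    rw [e]
    linarith only [this]
  | up _ e _ => rw [e]; linarith only [h1]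
  | dn _ e _ => rw [e]; linarith only [h0]

theorem H.lcases (h : H x T Tl pl k l w) (m : LT lM farM x T Tl pl l w → False)
    (u : Tl ≤ 0 → LT P13.lU farU x T Tl pl l w → False)
    (d : 0 ≤ Tl → LT lD farD x T Tl pl l w → False) : False := by
  cases h.lp with
  | main e f => exact m (h.ltM e f)
  | up t e f => exact u t (h.ltU t e f)
  | dn t e f => exact d t (h.ltD t e f)

theorem H.oks (h : H x T Tl pl k l w) (hh : 16 / 100 < 1 / 2 * τ x) :
    DOk (um x + k) ∧ DOk (l - up x) := by
  have h1 := (abs_le.1 h.kabs).2
  have h2 := h.lim_le
  refine ⟨Or.inl (ne_of_lt ?_), Or.inl (ne_of_lt ?_)⟩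
  · show -(1 / 2 * τ x) + k.im < 0
    linarith only [hh, h1]
  · show l.im - 1 / 2 * τ x < 0
    linarith only [hh, h2]

/-- **The middle of the mirrored path** -/
theorem mid (h : H x T Tl pl k l w) (x0 : 3 / 100 ≤ x) (x1 : x ≤ 63 / 100) : False := by
  rcases le_total x (56 / 100) with hx | hx
  · obtain ⟨T0, T1, k0, k1, κ, q0, q1, hk⟩ := h.kW
    have K : KW x T k κ := ⟨T0, T1, k0, k1, q0, q1, hk⟩
    rcases le_total x (13 / 100) with hx1 | hx1
    · have hr : 1 / 2 * τ x = hv 0 x := by
        rw [tau_left h.x0.le hx1]
        show _ = 50 / 13 * x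
        ring
      rcases le_total x (6 / 100) with hx2 | hx2
      · exact h.lcases (a1_W_m h x0 hx2 K hr) (a1_W_u h x0 hx2 K hr) (a1_W_d h x0 hx2 K hr)
      · exact h.lcases (a2_W_m h hx2 hx1 K hr) (a2_W_u h hx2 hx1 K hr) (a2_W_d h hx2 hx1 K hr)
    rcases lt_or_ge x (50 / 100) with hx2 | hx2
    · have ht := tau_flat hx1 hx2.le
      have hr : 1 / 2 * τ x = hv 1 x := by
        rw [ht]
        show _ = (1 : ℝ) / 2
        ring
      obtain ⟨o1, o3⟩ := h.oks (by rw [ht]; norm_num)
      have hD : Dv 1 x k l ≤ 0 := h.foc_right (mu_flat hx1 hx2) o1 o3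
      exact h.lcases (a3_W_m h hx1 hx2.le K hr hD) (a3_W_u h hx1 hx2.le K hr hD)
        (a3_W_d h hx1 hx2.le K hr hD)
    · have ht := tau_right hx2 (by linarith only [x1])
      have hr : 1 / 2 * τ x = hv 2 x := by
        rw [ht, hv2]
        ring
      obtain ⟨o1, o3⟩ := h.oks (by rw [hr, hv2]; linarith only [hx])
      have hD : Dv 2 x k l ≤ 0 := h.foc_right (mu_right hx2 h.x1) o1 o3
      exact h.lcases (a4_W_m h hx2 hx K hr hD) (a4_W_u h hx2 hx K hr hD)
        (a4_W_d h hx2 hx K hr hD)
  have hr : 1 / 2 * τ x = hv 2 x := by
    rw [tau_right (by linarith only [hx]) (by linarith only [x1]), hv2]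
    ring
  have hD : um x + k ≠ 1 → l ≠ up x → Dv 2 x k l = 0 := fun h1 h3 =>
    (h.foc (by norm_num) (mu_right' (by linarith only [hx]) h.x1) h1 h3).2.2
  obtain ⟨κ, K | K | K⟩ := h.kcases
  · rcases le_total x (59 / 100) with h1 | h1
    · exact h.lcases (b1_G_m h hx h1 K hr hD) (b1_G_u h hx h1 K hr hD) (b1_G_d h hx h1 K hr hD)
    rcases le_total x (61 / 100) with h2 | h2
    · exact h.lcases (b2_G_m h h1 h2 K hr hD) (b2_G_u h h1 h2 K hr hD) (b2_G_d h h1 h2 K hr hD)
    · exact h.lcases (b3_G_m h h2 x1 K hr hD) (b3_G_u h h2 x1 K hr hD) (b3_G_d h h2 x1 K hr hD)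
  · rcases le_total x (59 / 100) with h1 | h1
    · exact h.lcases (e1_M_m h hx h1 K hr hD) (e1_M_u h hx h1 K hr hD) (e1_M_d h hx h1 K hr hD)
    rcases le_total x (61 / 100) with h2 | h2
    · exact h.lcases (e2_M_m h h1 h2 K hr hD) (e2_M_u h h1 h2 K hr hD) (e2_M_d h h1 h2 K hr hD)
    · exact h.lcases (e3_M_m h h2 x1 K hr hD) (e3_M_u h h2 x1 K hr hD) (e3_M_d h h2 x1 K hr hD)
  · rcases le_total x (59 / 100) with h1 | h1
    · exact h.lcases (e1_U_m h hx h1 K hr hD) (e1_U_u h hx h1 K hr hD) (e1_U_d h hx h1 K hr hD)
    rcases le_total x (61 / 100) with h2 | h2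
    · exact h.lcases (e2_U_m h h1 h2 K hr hD) (e2_U_u h h1 h2 K hr hD) (e2_U_d h h1 h2 K hr hD)
    · exact h.lcases (e3_U_m h h2 x1 K hr hD) (e3_U_u h h2 x1 K hr hD) (e3_U_d h h2 x1 K hr hD)

end M13

end Pool.Agent.Work.MP_b30479_gtS.G2

end

section

/-!
# Mirrored paths: the kind `1 | 3`, slot `0` of the `3`
-/

namespace Pool.Agent.Work.MP_b30479_gtS.G2

open Finset VOL Filter Topology

namespace SR

variable {M : ℕ} {b : Fin (M + 1) → ℤ} {zs : DD (tyW b) ⊕ ZZ (tyW b) → ℂ}
variable {R : Finset (DD (tyW b))} {nb : Finset (DD (tyW b) ⊕ ZZ (tyW b))}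
variable {z : DD (tyW b) ⊕ ZZ (tyW b) → ℂ} {p : DD (tyW b) → ℝ}
variable {h h' : Fin M} {i j j' : Fin (M + 1)} {s : Fin 3} {x c : ℝ}

theorem par_one3a (A : Adj h i 2 j) (hi : clsW b i = .one) (hj : clsW b j = .three) :
    wXM b h = 65 / 100 ∧ wcl b h = 13 / 100 ∧ wcr b h = 15 / 100 := by
  unfold wXM wcl wcr
  cases A
  rw [hi, hj]
  exact ⟨rfl, rfl, rfl⟩

theorem mhs_one3a (A : Adj h i 2 j) (hi : clsW b i = .one) (hj : clsW b j = .three) :
    mhs b h 2 = 1 / 2 := by
  cases A
  simp [mhs, hi, hj]

/-- the other hinge of the `1` -/
theorem kp_of (hb : ClassW b) (L : LocA b zs) (A : Adj h i 2 j) (A' : Adj h' i 0 j')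
    (hi : clsW b i = .one) (hj : clsW b j = .three) {X : ℂ} (P : NPos b zs nb p h' i 0 X) :
    M13.KP (Th b zs h i) X := by
  obtain ⟨w0, w1, -, -⟩ := L.X.win A A' hi
  obtain ⟨v0, v1, -, -⟩ := L.X.win A' A hi
  have w0 : (cw (clsW b j') (clsW b j)).t0 ≤ Th b zs h i := w0
  have w1 : Th b zs h i ≤ (cw (clsW b j') (clsW b j)).t1 := w1
  have v0 : (cw (clsW b j) (clsW b j')).t0 ≤ Th b zs h' i := v0
  have v1 : Th b zs h' i ≤ (cw (clsW b j) (clsW b j')).t1 := v1
  have hk := okp_of hb A A' hi
  rw [hj] at w0 w1 v0 v1 hk
  have hre := P.re
  have hm : ∀ q, mhs b h' q = 16 / 100 := by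
    intro q
    refine mhs_16 q ?_
    cases A' with
    | r => rw [hi]; decide
  have hab : |Th b zs h' i| ≤ 16 / 100 → |X.im| ≤ 16 / 100 * trh b h' X.re := fun hT =>
    P.abs_im hT fun _ => ⟨(hm _).le, (hm _).le⟩
  obtain ⟨q1, q2, q3⟩ : wXM b h' = (hp (outL b h') (clsW b j') .one (outR b h')).XM ∧
      wcl b h' = (hp (outL b h') (clsW b j') .one (outR b h')).cl ∧
      wcr b h' = (hp (outL b h') (clsW b j') .one (outR b h')).cr := by
    cases A' with
    | r =>
      unfold wXM wcl wcr
      rw [hi]
      exact ⟨rfl, rfl, rfl⟩
  have wd : ∀ {XM XM' cl cl' cr cr' : ℝ}, 0 < cl' → 0 < cr' → 0 ≤ X.re → XM ≤ XM' → cl' ≤ cl →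
      cr' ≤ cr → X.re ≤ XM → tr 0 XM cl cr X.re ≤ tr 0 XM' cl' cr' X.re := by
    intro XM XM' cl cl' cr cr' c0 d0 k0 a1 a2 a3 a4
    unfold tr
    refine max_le_max le_rfl (min_le_min le_rfl (min_le_min ?_ ?_))
    · rw [sub_zero]
      exact div_le_div_of_nonneg_left k0 c0 a2
    · exact div_le_div₀ (by linarith only [a1, a4]) (by linarith only [a1]) d0 a3
  have te : ∀ y, trh b h' y = tr 0 (wXM b h') (wcl b h') (wcr b h') y := fun y => rfl
  rcases hP : clsW b j' <;> rw [hP] at w0 w1 v0 v1 hk q1 q2 q3
  · -- a `1`
    simp only [cw] at w0 w1 v0 v1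
    have e1 : wXM b h' ≤ 86 / 100 ∧ wcl b h' = 15 / 100 ∧ wcr b h' = 20 / 100 := by
      rw [q1, q2, q3]
      simp only [hp]
      split_ifs
      · exact ⟨by norm_num, rfl, rfl⟩
      · exact ⟨le_rfl, rfl, rfl⟩
    refine .one w0 w1 hre.1 (hre.2.trans e1.1) ?_
    refine (hab (by rw [abs_le]; constructor <;> linarith only [v0, v1])).trans ?_
    refine mul_le_mul_of_nonneg_left ?_ (by norm_num)
    rw [te, e1.2.1, e1.2.2]
    exact wd (by norm_num) (by norm_num) hre.1 e1.1 le_rfl le_rfl hre.2
  · -- a `2`
    simp only [cw] at w0 w1 v0 v1
    simp only [hp, hp1] at q1 q2 q3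
    refine .two w0 w1 hre.1 (hre.2.trans (by rw [q1])) ?_
    refine (hab (by rw [abs_le]; constructor <;> linarith only [v0, v1])).trans ?_
    rw [te, q1, q2, q3]
  · -- a `2` at an end
    simp only [cw] at w0 w1 v0 v1
    simp only [hp, hp1] at q1 q2 q3
    have h1 : X.re ≤ 70 / 100 := hre.2.trans (by rw [q1])
    have te' : ∀ y, trh b h' y = tr 0 (70 / 100) (14 / 100) (35 / 100) y := fun y => by
      rw [te, q1, q2, q3]
    cases P with
    | main y y0 y1 hn e hp =>
      refine .em w0 w1 hre.1 h1 ⟨Th b zs h' i, by linarith only [v0], by linarith only [v1], ?_⟩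
      rw [e, ← te']
    | real y y0 y1 hn e hp =>
      refine .em w0 w1 hre.1 h1 ⟨0, by norm_num, le_rfl, ?_⟩
      rw [e, zero_mul]
    | up y y0 y1 hn hr hT e hp =>
      refine .eu w0 w1 hre.1 h1 ?_
      rw [e, hm, ← te']
    | dn y y0 y1 hn hr hT e hp => linarith only [v1, hT]
  · exfalso
    unfold ML.okp at hk
    simp at hk
  · exfalso
    unfold ML.okp at hk
    simp at hk
  · exfalso
    unfold ML.okp at hk
    simp at hk

/-- the inner variable of the `3` -/
theorem lp_of (m : {i : Fin (M + 1) // (tyW b i).isMid = true}) (hj : clsW b m.1 = .three)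
    {X : ℂ} (I : IPos b zs p m X) :
    M13.LP (Tm b zs m) (p (.inr m)) X ∧ 0 ≤ X.re ∧ X.re ≤ 8 / 10 := by
  have y1' : (mp (clsW b m.1)).XM = 8 / 10 := by rw [hj]; rfl
  have etl : ∀ y, trm b m y = M13.τl y := fun y => trm3 m hj y
  cases I with
  | main y y0 y1 e hp =>
    rw [y1'] at y1
    refine ⟨.main ?_ hp, ?_, ?_⟩ <;> rw [e]
    · rw [etl]
    · exact y0
    · exact y1
  | up y y0 y1 hT e hp =>
    rw [y1'] at y1
    rw [etl] at e hp
    refine ⟨.up hT ?_ ?_, ?_, ?_⟩ <;> rw [e]
    · exact hp
    · exact y0
    · exact y1
  | dn y y0 y1 hT e hp =>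
    rw [y1'] at y1
    rw [etl] at e hp
    refine ⟨.dn hT ?_ ?_, ?_, ?_⟩ <;> rw [e]
    · exact hp
    · exact y0
    · exact y1

/-- windows of the inner variable -/
theorem mw_one3a {K : Cl} {m s : ℝ} (h0 : (mw .one K).t0 ≤ m) (h1 : m ≤ (mw .one K).t1)
    (h2 : (mw .one K).s0 ≤ s) (h3 : s ≤ (mw .one K).s1) :
    -(90 / 1000) ≤ m ∧ m ≤ 5 / 1000 ∧ -(45 / 1000) ≤ s ∧ s ≤ 84 / 1000 := by
  cases K <;> simp only [mw] at h0 h1 h2 h3 <;> refine ⟨?_, ?_, ?_, ?_⟩ <;> linarith only [h0, h1, h2, h3]

/-- **Kind `1 | 3`**, the `3` at its slot `0`, from the two ends of the mirrored path. -/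
theorem kind_one_three_of (hb : ClassW b) (L : LocA b zs)
    (eL : ∀ {x T Tl pl : ℝ} {k l w : ℂ}, M13.H x T Tl pl k l w → x ≤ 3 / 100 → False)
    (eR : ∀ {x T Tl pl : ℝ} {k l w : ℂ}, M13.H x T Tl pl k l w → 63 / 100 ≤ x → False) :
    Kd b zs .one .three 2 := by
  intro R nb z p h i j x hN hM hq D hi hj
  obtain ⟨m, rfl⟩ : ∃ m : {i : Fin (M + 1) // (tyW b i).isMid = true}, m.1 = j :=
    ⟨⟨j, tyW_isMid (Or.inl hj)⟩, rfl⟩
  have Aj : Adj h m.1 0 i := D.adj.symm
  obtain ⟨hnn, I⟩ := hM.ipos hN m D.adj.symm D.nn
  obtain ⟨lp, l0, l1⟩ := lp_of m hj I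
  obtain ⟨h1, j1, A1⟩ := D.adj.other' b (clsW_inner hb (Or.inl hi))
  have kp := kp_of hb L D.adj A1 hi hj (hM.npos hb hN hq D.adj D.nn A1)
  obtain ⟨h2, j2, A2⟩ := D.adj.symm.other' b (clsW_inner hb (Or.inr (Or.inr hj)))
  obtain ⟨w0, w1, w2⟩ := (hM.npos hb hN hq D.adj.symm D.nn A2).w3 hb L.L A2 hj
  obtain ⟨m0, m1, m2, m3⟩ := L.X.mid m.2 Aj A2 hj
  rw [hi] at m0 m1 m2 m3
  obtain ⟨t0, t1, s0, s1⟩ := mw_one3a m0 m1 m2 m3
  have t0 : -(90 / 1000) ≤ Tm b zs m := t0
  have t1 : Tm b zs m ≤ 5 / 1000 := t1
  have s0 : -(45 / 1000) ≤ Tm b zs m - Th b zs h m.1 := s0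
  have s1 : Tm b zs m - Th b zs h m.1 ≤ 84 / 1000 := s1
  rw [D.Tj] at s0 s1
  have hX := par_one3a D.adj hi hj
  have h12 := mhs_one3a D.adj hi hj
  have x0 := D.x0
  have x1 := D.x1
  rw [hX.1] at x1
  have et : ∀ y, trh b h y = M13.τ y := fun y => trh_eq hX y
  have ev : Ow b z i 2 = M13.um x := by rw [D.own, h12, et]; rfl
  have eu : Ow b z m.1 0 = M13.up x := by
    have := D.opp
    rw [h12, et] at this
    exact this
  have e1 : ∀ c, tgo b zs h i c = M13.cm (Th b zs h i) c := fun c => by
    unfold tgo M13.cm
    rw [et]
  have e2 : ∀ c, tgo b zs h m.1 c = M13.cp (Th b zs h i) c := fun c => by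
    unfold tgo M13.cp
    rw [et, D.Tj, neg_mul]
  have etl : ∀ y, tgi b zs m y = M13.li (Tm b zs m) y := fun y => by
    have h3 := trm3 m hj y
    unfold trm at h3
    unfold tgi M13.li M13.τl
    rw [h3]
    rfl
  have K : M13.H x (Th b zs h i) (Tm b zs m) (p (.inr m)) (Ow b z i 0) (Ow b z m.1 1)
      (Ow b z m.1 2) := by
    refine ⟨x0, x1, kp, lp, l0, l1, t0, t1, by linarith only [s0], by linarith only [s1], w0, w1, w2, ?_, ?_, ?_, ?_⟩
    · intro c c0 c1
      have g1 := keep_one (zs := zs) (nb := nb) (z := z) (p := p) (c := c) hb D.adj hi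
      have g2 := keep_three0 (zs := zs) (nb := nb) (z := z) (p := p) (c := c) hb Aj hj
      have h4 := D.star hb hN.ok.1 hM c0 (by rw [hX.1]; exact c1) g1 g2
      rw [e1, e2, ev, eu, h12, et] at h4
      exact h4
    · intro c y c0 c1 y0 y1
      have g1 := keep_one (zs := zs) (nb := nb) (z := z) (p := p) (c := c) hb D.adj hi
      have g2 := inner_three0 (zs := zs) (nb := nb) (z := z) (p := p) (c := c) hb m Aj hj
        hnn y0 y1
      have h4 := D.star hb hN.ok.1 hM c0 (by rw [hX.1]; exact c1) g1 g2
      rw [e1, e2, ev, eu, h12, et, etl] at h4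
      have h5 : Ow b z i (2 : Fin 3).rev = Ow b z i 0 := rfl
      rw [h5] at h4
      linarith only [h4]
    · intro y y0 y1
      have h4 := hM.inner3 hb hN.ok.1 m Aj A2 hj hnn y0 y1 (FarG.keep h2 j2)
      rw [etl, eu, ofr_z A2] at h4
      have h5 : Ow b z m.1 (2 : Fin 3).rev.rev = Ow b z m.1 2 := rfl
      rw [h5] at h4
      linarith only [h4]
    · intro y y0 y1
      have h4 := D.mstep hb hN.ok.1 hM y0 (by rw [hX.1]; exact y1)
      rw [OV_one hb hi, OV_one hb hi, OV_three hb hj, OV_three hb hj, h12, et, et,
        Function.update_self, Function.update_self,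
        Function.update_of_ne (show (0 : Fin 3) ≠ 2 by decide),
        Function.update_of_ne (show (0 : Fin 3) ≠ 2 by decide)] at h4
      have er : (Fin.rev 2 : Fin 3) = 0 := rfl
      rw [er, Function.update_self, Function.update_self,
        Function.update_of_ne (show (1 : Fin 3) ≠ 0 by decide),
        Function.update_of_ne (show (2 : Fin 3) ≠ 0 by decide),
        Function.update_of_ne (show (1 : Fin 3) ≠ 0 by decide),
        Function.update_of_ne (show (2 : Fin 3) ≠ 0 by decide), V1_comm,
        V1_comm (Ow b z i 0)] at h4
      exact h4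
  rcases le_total x (3 / 100) with hx | hx
  · exact eL K hx
  rcases le_total x (63 / 100) with hx' | hx'
  · exact M13.mid K hx hx'
  · exact eR K hx'

end SR

end Pool.Agent.Work.MP_b30479_gtS.G2

end
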