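import Pool.Agent.Work.MP_b30479_gt.TBS.NumU.GenX
import Pool.Agent.Work.MP_b30479_gt.TBS.NumU.GenD
import Pool.Agent.Work.MP_b30479_gt.TBS.G2.ZConv
import Pool.Agent.Work.MP_b30479_gt.TBS.G2.H13A

section

/-!
# Far table for a hinge in slot `0` of a `2` with the target `3/10`: expressions and rows
-/

namespace Pool.Agent.Work.NumGs.F3

open MP_b30479_gtS MP_b30479_gtS.G2 MP_b30479_gtS.VOL
open NumUs (uu)

/-- height of the ramp of the hinge, in three parts -/
def tri : ℕ → E
  | 0 => .mul (.q 20 1) (.var 0)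
  | 1 => .q 1 1
  | _ => .sub (.q 16 1) (.mul (.q 20 1) (.var 0))

/-- bound of the other hinge, in three parts -/
def kE : ℕ → E
  | 0 => .mul (.q 16 13) (.var 2)
  | 1 => .q 16 100
  | _ => .sub (.q 104 290) (.mul (.q 16 29) (.var 2))

def kk (j : ℕ) : E := .mul (.var 3) (kE j)
def tm (i : ℕ) : E := .mul (.var 1) (tri i)
def lin (a : ℤ) (b : ℕ) (c : ℤ) (d : ℕ) : E := .add (.q a b) (.mul (.q c d) (.var 0))

/-- main -/
def gM (i j : ℕ) (f g : E) : E :=
  .sub (E.dV2 (.q 3 10) (.var 1) (.var 0) (tm i) (.var 2) (kk j)) (.sub f (.mul (.var 1) g))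
def tU (i : ℕ) : E := .mul (.q 16 100) (tri i)
/-- mode up -/
def gU (i j : ℕ) (f g : E) : E :=
  .sub (.add (E.dV2 (.q 3 10) (.var 1) (.var 0) (tU i) (.var 2) (kk j))
    (.mul .pi (.mul (.q 32 100) (tri i)))) (.sub f (.mul (.var 1) g))
/-- mode down -/
def gD (i j : ℕ) (f g : E) : E :=
  .sub (.add (E.dV2 (.q 3 10) (.var 1) (.var 0) (.neg (tU i)) (.var 2) (kk j))
    (.mul .pi (.mul (.q 32 100) (tri i)))) (.sub f (.mul (.var 1) g))
def ab (a : E) : E := .add (.relu a) (.relu (.neg a))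
/-- lower bound of the difference near `y = 0`; `X` is an upper bound of `uw (y + a) (t + k)` -/
def dL (t k X : E) : E :=
  .sub (.add (.sub (.uw (.add (.q 3 10) (.var 2)) (.add (.var 1) k)) X)
    (.sub (.neg (.add (.mul .pi (ab t)) (.q 17 10000))) (.mul (.q 2 1) (.uw (.q 3 10) (.var 1)))))
    (.mul .pi (.add (.sub (.mul (.sub (.q 3 10) (.var 2)) (.sub (.var 1) k))
      (.mul (.sub (.var 0) (.var 2)) (.sub t k))) (.mul (.q 1 2) (.sub (.var 1) t))))
def X1 (t k : E) : E := .uw (.add (.var 0) (.var 2)) (.add t k)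
def X2 (t k : E) : E :=
  .sub (.mul (.q 162 100) (.add (.var 0) (.var 2))) (.mul (.mul (.q 1 2) .pi) (ab (.add t k)))
def zM (j : ℕ) (X : E → E → E) (f g : E) : E :=
  .sub (dL (tm 0) (kk j) (X (tm 0) (kk j))) (.sub f (.mul (.var 1) g))
def zU (j : ℕ) (X : E → E → E) (f g : E) : E :=
  .sub (.add (dL (tU 0) (kk j) (X (tU 0) (kk j))) (.mul .pi (.mul (.q 32 100) (tri 0))))
    (.sub f (.mul (.var 1) g))
def zD (j : ℕ) (X : E → E → E) (f g : E) : E :=
  .sub (.add (dL (.neg (tU 0)) (kk j) (X (.neg (tU 0)) (kk j)))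
    (.mul .pi (.mul (.q 32 100) (tri 0)))) (.sub f (.mul (.var 1) g))
/-- horizontal derivative -/
def H (j : ℕ) : D :=
  .sub (.sub (.xw (.add (.var 0) (.var 2)) (.add (.var 1) (kk j)))
    (.of (.mul .pi (.sub (.var 1) (kk j))))) (.mul (.of (.q 2 1)) (.xw (.var 0) (.var 1)))
def H2 (j : ℕ) : D :=
  .sub (.of (.sub (.add (.q 6932 10000) (.mul (.q 1 2) (.sq (.mul .pi (.add (.var 1) (kk j))))))
    (.mul .pi (.sub (.var 1) (kk j))))) (.mul (.of (.q 2 1)) (.xw (.var 0) (.var 1)))
def sl (a : ℤ) (b : ℕ) (c : ℤ) (d : ℕ) : D := .of (.add (.q a b) (.mul (.q c d) (.var 1)))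
def hL (j : ℕ) (s : D) : D := .add (H j) s
def hR (j : ℕ) (s : D) : D := .sub s (H j)
def hR2 (j : ℕ) (s : D) : D := .sub s (H2 j)

/-! ### values -/

/-- the variable of the hinge in slot `2` -/
def Wd (a s : ℝ) : Prop := 0 ≤ a ∧ a ≤ 65 / 100 ∧
  |s| ≤ 16 / 100 * MP_b30479_gtS.G2.tr 0 (65 / 100) (13 / 100) (29 / 100) a

theorem trR {a : ℝ} (h0 : 0 ≤ a) (h1 : a ≤ 65 / 100) :
    MP_b30479_gtS.G2.tr 0 (65 / 100) (13 / 100) (29 / 100) a =
      if a ≤ 13 / 100 then a / (13 / 100) else if a ≤ 36 / 100 then 1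
        else (65 / 100 - a) / (29 / 100) := by
  unfold MP_b30479_gtS.G2.tr
  rw [sub_zero]
  split_ifs with h2 h3
  · have e1 : a / (13 / 100) ≤ 1 := by rw [div_le_one (by norm_num)]; exact h2
    have e2 : 1 ≤ (65 / 100 - a) / (29 / 100) := by rw [le_div_iff₀ (by norm_num)]; linarith only [h2]
    have e3 : 0 ≤ a / (13 / 100) := by positivity
    rw [min_eq_left (a := a / (13 / 100)) (by linarith only [h2]), min_eq_right e1, max_eq_right e3]
  · have e1 : 1 ≤ a / (13 / 100) := by rw [le_div_iff₀ (by norm_num)]; linarith only [h2]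
    have e2 : 1 ≤ (65 / 100 - a) / (29 / 100) := by rw [le_div_iff₀ (by norm_num)]; linarith only [h3]
    rw [min_eq_left (le_min e1 e2), max_eq_right zero_le_one]
  · have e1 : 1 ≤ a / (13 / 100) := by rw [le_div_iff₀ (by norm_num)]; linarith only [h3]
    have e2 : (65 / 100 - a) / (29 / 100) ≤ 1 := by rw [div_le_one (by norm_num)]; linarith only [h3]
    have e3 : 0 ≤ (65 / 100 - a) / (29 / 100) := div_nonneg (by linarith only [h1]) (by norm_num)
    rw [min_eq_right (a := a / (13 / 100)) (by linarith only [h3]), min_eq_right e2, max_eq_right e3]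

/-- ramp of the moved hinge -/
noncomputable def rr (y : ℝ) : ℝ := MP_b30479_gtS.G2.tr 0 (8 / 10) (5 / 100) (5 / 100) y

theorem rr_val {y : ℝ} (h0 : 0 ≤ y) (h1 : y ≤ 8 / 10) :
    rr y = if y ≤ 5 / 100 then 20 * y else if y ≤ 75 / 100 then 1 else 16 - 20 * y := by
  unfold rr MP_b30479_gtS.G2.tr
  rw [sub_zero]
  split_ifs with h2 h3
  · have e1 : y / (5 / 100) ≤ 1 := by rw [div_le_one (by norm_num)]; exact h2
    have e2 : 1 ≤ (8 / 10 - y) / (5 / 100) := by rw [le_div_iff₀ (by norm_num)]; linarith only [h2]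
    have e3 : 0 ≤ y / (5 / 100) := by positivity
    rw [min_eq_left (a := y / (5 / 100)) (by linarith only [h2]), min_eq_right e1, max_eq_right e3]
    ring
  · have e1 : 1 ≤ y / (5 / 100) := by rw [le_div_iff₀ (by norm_num)]; linarith only [h2]
    have e2 : 1 ≤ (8 / 10 - y) / (5 / 100) := by rw [le_div_iff₀ (by norm_num)]; linarith only [h3]
    rw [min_eq_left (le_min e1 e2), max_eq_right zero_le_one]
  · have e1 : 1 ≤ y / (5 / 100) := by rw [le_div_iff₀ (by norm_num)]; linarith only [h1, h3]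
    have e2 : (8 / 10 - y) / (5 / 100) ≤ 1 := by rw [div_le_one (by norm_num)]; linarith only [h3]
    have e3 : 0 ≤ (8 / 10 - y) / (5 / 100) := div_nonneg (by linarith only [h1]) (by norm_num)
    rw [min_eq_right (a := y / (5 / 100)) (by linarith only [h1, h3]), min_eq_right e2, max_eq_right e3]
    ring

/-- the part of a position of the other hinge -/
theorem part {a s : ℝ} (h : Wd a s) : ∃ j : ℕ, ∃ σ : ℝ, -1 ≤ σ ∧ σ ≤ 1 ∧
    ((j = 0 ∧ a ≤ 13 / 100) ∨ (j = 1 ∧ 13 / 100 ≤ a ∧ a ≤ 36 / 100) ∨ (j = 2 ∧ 36 / 100 ≤ a)) ∧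
    ∀ y T : ℝ, (kk j).val [y, T, a, σ] = s := by
  obtain ⟨h0, h1, h2⟩ := h
  have key : ∀ c : ℝ, 0 ≤ c → |s| ≤ c → ∃ σ : ℝ, -1 ≤ σ ∧ σ ≤ 1 ∧ σ * c = s := by
    intro c hc hs
    rcases eq_or_lt_of_le hc with rfl | hc
    · refine ⟨0, by norm_num, by norm_num, ?_⟩
      rw [mul_zero]
      exact (abs_nonpos_iff.1 hs).symm
    · obtain ⟨s1, s2⟩ := abs_le.1 hs
      refine ⟨s / c, ?_, ?_, ?_⟩
      · rw [le_div_iff₀ hc]; linarith only [s1]
      · rw [div_le_one hc]; exact s2
      · field_simp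
  rw [trR h0 h1] at h2
  split_ifs at h2 with h3 h4
  · obtain ⟨σ, a1, a2, a3⟩ := key _ (by positivity) h2
    refine ⟨0, σ, a1, a2, Or.inl ⟨rfl, h3⟩, fun y T => ?_⟩
    rw [← a3]
    change σ * (((16 : ℤ) : ℝ) / ((13 : ℕ) : ℝ) * a) = _
    push_cast
    ring
  · obtain ⟨σ, a1, a2, a3⟩ := key _ (by norm_num) h2
    refine ⟨1, σ, a1, a2, Or.inr (Or.inl ⟨rfl, by linarith only [h3], h4⟩), fun y T => ?_⟩
    rw [← a3]
    change σ * (((16 : ℤ) : ℝ) / ((100 : ℕ) : ℝ)) = _
    push_cast
    ring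
  · obtain ⟨σ, a1, a2, a3⟩ := key _ (mul_nonneg (by norm_num) (div_nonneg (by linarith only [h1])
      (by norm_num))) h2
    refine ⟨2, σ, a1, a2, Or.inr (Or.inr ⟨rfl, by linarith only [h4]⟩), fun y T => ?_⟩
    rw [← a3]
    change σ * (((104 : ℤ) : ℝ) / ((290 : ℕ) : ℝ) - ((16 : ℤ) : ℝ) / ((29 : ℕ) : ℝ) * a) = _
    push_cast
    ring

/-- the intervals of `y` on which `tri i` is the ramp -/
def Kd (i lo hi : ℕ) : Prop := (i = 0 ∧ hi ≤ 500) ∨ (i = 1 ∧ 500 ≤ lo ∧ hi ≤ 7500) ∨
  (i = 2 ∧ 7500 ≤ lo ∧ hi ≤ 8000)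

instance (i lo hi : ℕ) : Decidable (Kd i lo hi) := by unfold Kd; infer_instance

theorem tri_val {i lo hi : ℕ} (h : Kd i lo hi) {y T a σ : ℝ} (h1 : (lo : ℝ) / 10000 ≤ y)
    (h2 : y ≤ (hi : ℝ) / 10000) : (tri i).val [y, T, a, σ] = rr y := by
  have hlo : (0 : ℝ) ≤ lo := Nat.cast_nonneg _
  have h0 : 0 ≤ y := le_trans (by positivity) h1
  have c1 : ∀ n : ℕ, n ≤ lo → (n : ℝ) / 10000 ≤ y := fun n hn =>
    le_trans (by gcongr) h1
  have c2 : ∀ n : ℕ, hi ≤ n → y ≤ (n : ℝ) / 10000 := fun n hn =>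
    le_trans h2 (by gcongr)
  rcases h with ⟨rfl, h⟩ | ⟨rfl, h, h'⟩ | ⟨rfl, h, h'⟩
  · have c := c2 _ h
    push_cast at c
    rw [rr_val h0 (by linarith only [c]), if_pos (by linarith only [c])]
    change ((20 : ℤ) : ℝ) / ((1 : ℕ) : ℝ) * y = _
    push_cast
    ring
  · have c := c2 _ h'
    have c' := c1 _ h
    push_cast at c c'
    rw [rr_val h0 (by linarith only [c])]
    change ((1 : ℤ) : ℝ) / ((1 : ℕ) : ℝ) = _
    split_ifs with h5 h6
    · have : y = 5 / 100 := by linarith only [c', h5]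
      rw [this]; norm_num
    · norm_num
    · exact absurd (by linarith only [c, h6]) h6
  · have c := c2 _ h'
    have c' := c1 _ h
    push_cast at c c'
    rw [rr_val h0 (by linarith only [c])]
    change ((16 : ℤ) : ℝ) / ((1 : ℕ) : ℝ) - ((20 : ℤ) : ℝ) / ((1 : ℕ) : ℝ) * y = _
    split_ifs with h5 h6
    · linarith only [c', h5]
    · have : y = 75 / 100 := by linarith only [c', h6]
      rw [this]; norm_num
    · push_cast
      ring

/-- difference of the values -/
noncomputable def dv (T y t a s : ℝ) : ℝ :=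
  MP_b30479_gtS.G2.V2 ⟨3 / 10, T⟩ ⟨a, s⟩ - MP_b30479_gtS.G2.V2 ⟨y, t⟩ ⟨a, s⟩

/-- a row, main -/
def RM (lo hi : ℕ) (A B G D : ℝ) : Prop := ∀ y T a s : ℝ, (lo : ℝ) / 10000 ≤ y →
  y ≤ (hi : ℝ) / 10000 → -(123 / 1000) ≤ T → T ≤ 5 / 1000 → Wd a s →
  A + B * y - T * (G + D * y) ≤ dv T y (T * rr y) a s
/-- a row, mode up -/
def RU (lo hi : ℕ) (A B G D : ℝ) : Prop := ∀ y T a s : ℝ, (lo : ℝ) / 10000 ≤ y →
  y ≤ (hi : ℝ) / 10000 → -(123 / 1000) ≤ T → T ≤ 0 → Wd a s →
  A + B * y - T * (G + D * y) ≤ dv T y (16 / 100 * rr y) a s + 2 * Real.pi * (16 / 100 * rr y)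
/-- a row, mode down -/
def RD (lo hi : ℕ) (A B G D : ℝ) : Prop := ∀ y T a s : ℝ, (lo : ℝ) / 10000 ≤ y →
  y ≤ (hi : ℝ) / 10000 → 0 ≤ T → T ≤ 5 / 1000 → Wd a s →
  A + B * y - T * (G + D * y) ≤ dv T y (-(16 / 100 * rr y)) a s + 2 * Real.pi * (16 / 100 * rr y)

theorem RM.append {lo mid hi : ℕ} {A B G D : ℝ} (h1 : RM lo mid A B G D) (h2 : RM mid hi A B G D) :
    RM lo hi A B G D := by
  intro y T a s y1 y2 t1 t2 hw
  rcases le_total y ((mid : ℝ) / 10000) with h | h
  · exact h1 y T a s y1 h t1 t2 hw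
  · exact h2 y T a s h y2 t1 t2 hw

theorem RU.append {lo mid hi : ℕ} {A B G D : ℝ} (h1 : RU lo mid A B G D) (h2 : RU mid hi A B G D) :
    RU lo hi A B G D := by
  intro y T a s y1 y2 t1 t2 hw
  rcases le_total y ((mid : ℝ) / 10000) with h | h
  · exact h1 y T a s y1 h t1 t2 hw
  · exact h2 y T a s h y2 t1 t2 hw

theorem RD.append {lo mid hi : ℕ} {A B G D : ℝ} (h1 : RD lo mid A B G D) (h2 : RD mid hi A B G D) :
    RD lo hi A B G D := by
  intro y T a s y1 y2 t1 t2 hw
  rcases le_total y ((mid : ℝ) / 10000) with h | h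
  · exact h1 y T a s y1 h t1 t2 hw
  · exact h2 y T a s h y2 t1 t2 hw

/-- box of the variables from the three checks -/
theorem three {α : Type} {P : ℝ → ℝ → ℝ → ℝ → ℕ → α → Prop} {es : ℕ → α} {y T a s : ℝ} (hw : Wd a s)
    (h0 : ∀ σ, -1 ≤ σ → σ ≤ 1 → a ≤ 13 / 100 → P y T a σ 0 (es 0))
    (h1 : ∀ σ, -1 ≤ σ → σ ≤ 1 → 13 / 100 ≤ a → a ≤ 36 / 100 → P y T a σ 1 (es 1))
    (h2 : ∀ σ, -1 ≤ σ → σ ≤ 1 → 36 / 100 ≤ a → P y T a σ 2 (es 2)) :
    ∃ j σ, -1 ≤ σ ∧ σ ≤ 1 ∧ P y T a σ j (es j) ∧ ∀ y T : ℝ, (kk j).val [y, T, a, σ] = s := by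
  obtain ⟨j, σ, s1, s2, hj, hk⟩ := part hw
  refine ⟨j, σ, s1, s2, ?_, hk⟩
  rcases hj with ⟨rfl, h⟩ | ⟨rfl, h, h'⟩ | ⟨rfl, h⟩
  · exact h0 σ s1 s2 h
  · exact h1 σ s1 s2 h h'
  · exact h2 σ s1 s2 h

theorem lin_val (a : ℤ) (b : ℕ) (c : ℤ) (d : ℕ) (y T u σ : ℝ) :
    (lin a b c d).val [y, T, u, σ] = (a : ℝ) / b + (c : ℝ) / d * y := rfl

end Pool.Agent.Work.NumGs.F3

end

section

/-!
# Far table `3/10`: from the checks to the rows
-/

namespace Pool.Agent.Work.NumGs.F3

open MP_b30479_gtS MP_b30479_gtS.G2 MP_b30479_gtS.VOL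
open NumUs (uu)

theorem dV2_dv {i j : ℕ} {T y a s σ : ℝ} {t : E} (ht : t.val [y, T, a, σ] = i)
    (hk : (kk j).val [y, T, a, σ] = s) :
    (E.dV2 (.q 3 10) (.var 1) (.var 0) t (.var 2) (kk j)).val [y, T, a, σ] = dv T y i a s := by
  rw [E.dV2_val, hk, ht]
  change _ = MP_b30479_gtS.G2.V2 ⟨3 / 10, T⟩ ⟨a, s⟩ - MP_b30479_gtS.G2.V2 ⟨y, i⟩ ⟨a, s⟩
  have e : (E.q 3 10).val [y, T, a, σ] = 3 / 10 := by
    change ((3 : ℤ) : ℝ) / ((10 : ℕ) : ℝ) = _
    norm_num
  rw [e]
  rfl

theorem dV2_dv' {j : ℕ} {T y a s σ u : ℝ} {t : E} (ht : t.val [y, T, a, σ] = u)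
    (hk : (kk j).val [y, T, a, σ] = s) :
    (E.dV2 (.q 3 10) (.var 1) (.var 0) t (.var 2) (kk j)).val [y, T, a, σ] = dv T y u a s := by
  rw [E.dV2_val, hk, ht]
  change _ = MP_b30479_gtS.G2.V2 ⟨3 / 10, T⟩ ⟨a, s⟩ - MP_b30479_gtS.G2.V2 ⟨y, u⟩ ⟨a, s⟩
  have e : (E.q 3 10).val [y, T, a, σ] = 3 / 10 := by
    change ((3 : ℤ) : ℝ) / ((10 : ℕ) : ℝ) = _
    norm_num
  rw [e]
  rfl

/-- the three boxes -/
structure C3 (es : ℕ → List E) (lo hi t0 t1 o1 : ℕ) : Prop where
  c0 : ∃ c, chkF (es 0) 10000 0 o1 0 10000 60 lo hi t0 t1 0 1300 0 20000 c = true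
  c1 : ∃ c, chkF (es 1) 10000 0 o1 0 10000 60 lo hi t0 t1 1300 3600 0 20000 c = true
  c2 : ∃ c, chkF (es 2) 10000 0 o1 0 10000 60 lo hi t0 t1 3600 6500 0 20000 c = true

theorem C3.out {es : ℕ → List E} {lo hi t0 t1 o1 : ℕ} (h : C3 es lo hi t0 t1 o1) {y T a s : ℝ}
    (y1 : (lo : ℝ) / 10000 ≤ y) (y2 : y ≤ (hi : ℝ) / 10000)
    (T1 : ((t0 : ℝ) - o1) / 10000 ≤ T) (T2 : T ≤ ((t1 : ℝ) - o1) / 10000) (hw : Wd a s) :
    ∃ j σ, (∃ e ∈ es j, 0 < e.val [y, T, a, σ]) ∧ (kk j).val [y, T, a, σ] = s := by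
  obtain ⟨j, σ, s1, s2, hj, hk⟩ := part hw
  obtain ⟨a0, a1, -⟩ := hw
  have k1 : (((0 : ℕ) : ℝ) - (10000 : ℕ)) / (10000 : ℕ) ≤ σ := by push_cast; linarith only [s1]
  have k2 : σ ≤ (((20000 : ℕ) : ℝ) - (10000 : ℕ)) / (10000 : ℕ) := by push_cast; linarith only [s2]
  have l1 : ((lo : ℝ) - (0 : ℕ)) / (10000 : ℕ) ≤ y := by push_cast; linarith only [y1]
  have l2 : y ≤ ((hi : ℝ) - (0 : ℕ)) / (10000 : ℕ) := by push_cast; linarith only [y2]
  have l3 : ((t0 : ℝ) - o1) / (10000 : ℕ) ≤ T := by push_cast; linarith only [T1]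
  have l4 : T ≤ ((t1 : ℝ) - o1) / (10000 : ℕ) := by push_cast; linarith only [T2]
  refine ⟨j, σ, ?_, hk y T⟩
  rcases hj with ⟨rfl, h5⟩ | ⟨rfl, h5, h6⟩ | ⟨rfl, h5⟩
  · obtain ⟨c, hc⟩ := h.c0
    exact chkF4 hc (by norm_num) l1 l2 l3 l4 (by push_cast; linarith only [a0]) (by push_cast; linarith only [h5]) k1 k2
  · obtain ⟨c, hc⟩ := h.c1
    exact chkF4 hc (by norm_num) l1 l2 l3 l4 (by push_cast; linarith only [h5]) (by push_cast; linarith only [h6]) k1 k2
  · obtain ⟨c, hc⟩ := h.c2
    exact chkF4 hc (by norm_num) l1 l2 l3 l4 (by push_cast; linarith only [h5]) (by push_cast; linarith only [a1]) k1 k2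

variable {i lo hi : ℕ} {a c p r : ℤ} {b d q s : ℕ}

theorem RM_of (hK : Kd i lo hi)
    (h : C3 (fun j => [gM i j (lin a b c d) (lin p q r s)]) lo hi 0 1280 1230) :
    RM lo hi ((a : ℝ) / b) ((c : ℝ) / d) ((p : ℝ) / q) ((r : ℝ) / s) := by
  intro y T u v y1 y2 t1 t2 hw
  obtain ⟨j, σ, ⟨e, he, hp⟩, hk⟩ := h.out y1 y2 (T := T) (by push_cast; linarith only [t1])
    (by push_cast; linarith only [t2]) hw
  obtain rfl := List.mem_singleton.1 he
  have e2 : (E.dV2 (.q 3 10) (.var 1) (.var 0) (tm i) (.var 2) (kk j)).val [y, T, u, σ] -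
      ((lin a b c d).val [y, T, u, σ] - T * (lin p q r s).val [y, T, u, σ]) =
      (gM i j (lin a b c d) (lin p q r s)).val [y, T, u, σ] := rfl
  rw [← e2, dV2_dv' (u := T * rr y) (by
    change T * (tri i).val [y, T, u, σ] = _
    rw [tri_val hK y1 y2]) hk, lin_val, lin_val] at hp
  linarith only [hp]

theorem RU_of (hK : Kd i lo hi)
    (h : C3 (fun j => [gU i j (lin a b c d) (lin p q r s)]) lo hi 0 1230 1230) :
    RU lo hi ((a : ℝ) / b) ((c : ℝ) / d) ((p : ℝ) / q) ((r : ℝ) / s) := by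
  intro y T u v y1 y2 t1 t2 hw
  obtain ⟨j, σ, ⟨e, he, hp⟩, hk⟩ := h.out y1 y2 (T := T) (by push_cast; linarith only [t1])
    (by push_cast; linarith only [t2]) hw
  obtain rfl := List.mem_singleton.1 he
  have e2 : (E.dV2 (.q 3 10) (.var 1) (.var 0) (tU i) (.var 2) (kk j)).val [y, T, u, σ] +
      Real.pi * (((32 : ℤ) : ℝ) / ((100 : ℕ) : ℝ) * (tri i).val [y, T, u, σ]) -
      ((lin a b c d).val [y, T, u, σ] - T * (lin p q r s).val [y, T, u, σ]) =
      (gU i j (lin a b c d) (lin p q r s)).val [y, T, u, σ] := rfl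
  rw [← e2, dV2_dv' (u := 16 / 100 * rr y) (by
    change ((16 : ℤ) : ℝ) / ((100 : ℕ) : ℝ) * (tri i).val [y, T, u, σ] = _
    rw [tri_val hK y1 y2]
    norm_num) hk, lin_val, lin_val, tri_val hK y1 y2] at hp
  push_cast at hp
  linarith only [hp]

theorem RD_of (hK : Kd i lo hi)
    (h : C3 (fun j => [gD i j (lin a b c d) (lin p q r s)]) lo hi 0 50 0) :
    RD lo hi ((a : ℝ) / b) ((c : ℝ) / d) ((p : ℝ) / q) ((r : ℝ) / s) := by
  intro y T u v y1 y2 t1 t2 hw
  obtain ⟨j, σ, ⟨e, he, hp⟩, hk⟩ := h.out y1 y2 (T := T) (by push_cast; linarith only [t1])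
    (by push_cast; linarith only [t2]) hw
  obtain rfl := List.mem_singleton.1 he
  have e2 : (E.dV2 (.q 3 10) (.var 1) (.var 0) (.neg (tU i)) (.var 2) (kk j)).val [y, T, u, σ] +
      Real.pi * (((32 : ℤ) : ℝ) / ((100 : ℕ) : ℝ) * (tri i).val [y, T, u, σ]) -
      ((lin a b c d).val [y, T, u, σ] - T * (lin p q r s).val [y, T, u, σ]) =
      (gD i j (lin a b c d) (lin p q r s)).val [y, T, u, σ] := rfl
  rw [← e2, dV2_dv' (u := -(16 / 100 * rr y)) (by
    change -(((16 : ℤ) : ℝ) / ((100 : ℕ) : ℝ) * (tri i).val [y, T, u, σ]) = _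
    rw [tri_val hK y1 y2]
    norm_num) hk, lin_val, lin_val, tri_val hK y1 y2] at hp
  push_cast at hp
  linarith only [hp]

/-! ### near `y = 0` -/

theorem ab_val (x : E) (xs : List ℝ) : (ab x).val xs = |x.val xs| := by
  change max (x.val xs) 0 + max (-x.val xs) 0 = _
  rcases le_total 0 (x.val xs) with h | h
  · rw [max_eq_left h, max_eq_right (by linarith only [h]), abs_of_nonneg h, add_zero]
  · rw [max_eq_right h, max_eq_left (by linarith only [h]), abs_of_nonpos h, zero_add]

theorem small : -uu (1 / 10000) 0 ≤ 17 / 20000 := by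
  have h : NumUs.chk [NumUs.E.add (NumUs.E.uu (NumUs.E.q 1 10000) (NumUs.E.q 0 1)) (NumUs.E.q 17 20000)] 1
      [NumIs.V.of 1 0 0] = true := by
    decide +kernel
  have hp := NumUs.pos_of_chk (NumUs.chk1 h (by norm_num) (x := 0) (by norm_num) (by norm_num))
  simp only [NumUs.E.val] at hp
  push_cast at hp
  rw [zero_div] at hp
  linarith only [hp]

/-- lower bound near `0` -/
theorem uu_low {y t : ℝ} (h0 : 0 ≤ y) (h1 : y ≤ 1 / 10000) :
    -(Real.pi / 2 * |t|) - 17 / 20000 ≤ uu y t := by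
  have a1 := Lr_diff_mono h0 le_rfl (abs_nonneg t)
  have a2 := TL.uu_real_anti h0 h1 (by norm_num)
  rw [DT.Lr_zero_right, DT.Lr_zero_right] at a1
  have e1 := uu_Lr y t
  have e2 := uu_Lr y 0
  rw [abs_zero] at e2
  have := small
  linarith only [a1, a2, e1, e2, this]

/-- upper bound near `0` -/
theorem uu_up {y t : ℝ} (h0 : 0 ≤ y) (ht : |t| ≤ 1 / 2) :
    uu y t ≤ 162 / 100 * y - Real.pi / 2 * |t| := by
  have a3 := TL.uu_slope (u := 0) (v := y) (t := t) h0 (show (0 : ℝ) < 1 / 2 by norm_num) ht exp162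
  rw [TL.uu_zero] at a3
  linarith only [a3]

theorem dL_le {j : ℕ} {T y a s σ u x : ℝ} {t X : E} (hy0 : 0 ≤ y) (hy1 : y ≤ 1 / 10000)
    (ht : t.val [y, T, a, σ] = u) (hk : (kk j).val [y, T, a, σ] = s)
    (hX : X.val [y, T, a, σ] = x) (hx : uu (y + a) (u + s) ≤ x) :
    (dL t (kk j) X).val [y, T, a, σ] ≤ dv T y u a s := by
  have e0 : (dL t (kk j) X).val [y, T, a, σ] =
      (uu (((3 : ℤ) : ℝ) / ((10 : ℕ) : ℝ) + a) (T + (kk j).val [y, T, a, σ]) -
        X.val [y, T, a, σ] + (-(Real.pi * (ab t).val [y, T, a, σ] +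
          ((17 : ℤ) : ℝ) / ((10000 : ℕ) : ℝ)) - ((2 : ℤ) : ℝ) / ((1 : ℕ) : ℝ) *
          uu (((3 : ℤ) : ℝ) / ((10 : ℕ) : ℝ)) T)) -
      Real.pi * ((((3 : ℤ) : ℝ) / ((10 : ℕ) : ℝ) - a) * (T - (kk j).val [y, T, a, σ]) -
        (y - a) * (t.val [y, T, a, σ] - (kk j).val [y, T, a, σ]) +
        ((1 : ℤ) : ℝ) / ((2 : ℕ) : ℝ) * (T - t.val [y, T, a, σ])) := rfl
  rw [e0, ab_val, ht, hk, hX]
  have h1 := uu_low (t := u) hy0 hy1
  unfold dv
  rw [TL.V2_uu, TL.V2_uu]
  push_cast
  nlinarith only [hx, h1, h1, hx]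

theorem kk_abs {j : ℕ} {y T a σ s : ℝ} (hw : Wd a s) (hk : (kk j).val [y, T, a, σ] = s) :
    |s| ≤ 16 / 100 := by
  obtain ⟨h0, h1, h2⟩ := hw
  refine h2.trans ?_
  have : MP_b30479_gtS.G2.tr 0 (65 / 100) (13 / 100) (29 / 100) a ≤ 1 := by
    unfold MP_b30479_gtS.G2.tr
    exact max_le zero_le_one (min_le_left _ _)
  linarith only [this]

theorem rr_small {y : ℝ} (h0 : 0 ≤ y) (h1 : y ≤ 1 / 10000) : 0 ≤ rr y ∧ rr y ≤ 2 / 1000 := by
  rw [rr_val h0 (by linarith only [h1]), if_pos (by linarith only [h1])]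
  constructor <;> linarith only [h0, h1]

/-- both alternatives -/
theorem dL_both {j : ℕ} {T y a s σ u : ℝ} {t : E} {X : E → E → E} (hy0 : 0 ≤ y)
    (hy1 : y ≤ 1 / 10000) (hw : Wd a s) (hu : |u| ≤ 1 / 1000)
    (ht : t.val [y, T, a, σ] = u) (hk : (kk j).val [y, T, a, σ] = s) (hX : X = X1 ∨ X = X2) :
    (dL t (kk j) (X t (kk j))).val [y, T, a, σ] ≤ dv T y u a s := by
  rcases hX with rfl | rfl
  · exact dL_le hy0 hy1 ht hk (x := uu (y + a) (u + s)) (by
      change uu (y + a) (t.val [y, T, a, σ] + (kk j).val [y, T, a, σ]) = _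
      rw [ht, hk]) le_rfl
  · have hs := kk_abs hw hk
    refine dL_le hy0 hy1 ht hk (x := 162 / 100 * (y + a) - Real.pi / 2 * |u + s|) ?_ ?_
    · change ((162 : ℤ) : ℝ) / ((100 : ℕ) : ℝ) * (y + a) - ((1 : ℤ) : ℝ) / ((2 : ℕ) : ℝ) * Real.pi *
        (ab (.add t (kk j))).val [y, T, a, σ] = _
      rw [ab_val]
      change _ - _ * _ * |t.val [y, T, a, σ] + (kk j).val [y, T, a, σ]| = _
      rw [ht, hk]
      push_cast
      ring
    · refine uu_up (by linarith only [hy0, hw, hw.1]) ?_
      refine (abs_add_le u s).trans ?_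
      linarith only [hu, hs]

theorem zM_of (h : C3 (fun j => [zM j X1 (lin a b c d) (lin p q r s),
      zM j X2 (lin a b c d) (lin p q r s)]) 0 1 0 1280 1230) :
    RM 0 1 ((a : ℝ) / b) ((c : ℝ) / d) ((p : ℝ) / q) ((r : ℝ) / s) := by
  intro y T u v y1 y2 t1 t2 hw
  obtain ⟨j, σ, ⟨e, he, hp⟩, hk⟩ := h.out y1 y2 (T := T) (by push_cast; linarith only [t1])
    (by push_cast; linarith only [t2]) hw
  have hK : Kd 0 0 1 := by decide
  have ht : (tri 0).val [y, T, u, σ] = rr y := tri_val hK y1 y2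
  push_cast at y1 y2
  rw [zero_div] at y1
  obtain ⟨r0, r1⟩ := rr_small y1 y2
  have key : ∀ X : E → E → E, (X = X1 ∨ X = X2) →
      0 < (zM j X (lin a b c d) (lin p q r s)).val [y, T, u, σ] →
      (a : ℝ) / b + (c : ℝ) / d * y - T * ((p : ℝ) / q + (r : ℝ) / s * y) ≤
        dv T y (T * rr y) u v := by
    intro X hX hp
    have e2 : (dL (tm 0) (kk j) (X (tm 0) (kk j))).val [y, T, u, σ] -
        ((lin a b c d).val [y, T, u, σ] - T * (lin p q r s).val [y, T, u, σ]) =
        (zM j X (lin a b c d) (lin p q r s)).val [y, T, u, σ] := rfl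
    rw [← e2, lin_val, lin_val] at hp
    have h3 := dL_both (t := tm 0) (u := T * rr y) y1 y2 hw (by
      rw [abs_mul, abs_of_nonneg r0]
      have : |T| ≤ 123 / 1000 := abs_le.2 ⟨t1, by linarith only [t2]⟩
      nlinarith only [r1, r0, this, abs_nonneg T]) (by
      change T * (tri 0).val [y, T, u, σ] = _
      rw [ht]) hk hX
    linarith only [hp, h3]
  simp only [List.mem_cons, List.not_mem_nil, or_false] at he
  rcases he with rfl | rfl
  · exact key X1 (Or.inl rfl) hp
  · exact key X2 (Or.inr rfl) hp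

theorem zU_of (h : C3 (fun j => [zU j X1 (lin a b c d) (lin p q r s),
      zU j X2 (lin a b c d) (lin p q r s)]) 0 1 0 1230 1230) :
    RU 0 1 ((a : ℝ) / b) ((c : ℝ) / d) ((p : ℝ) / q) ((r : ℝ) / s) := by
  intro y T u v y1 y2 t1 t2 hw
  obtain ⟨j, σ, ⟨e, he, hp⟩, hk⟩ := h.out y1 y2 (T := T) (by push_cast; linarith only [t1])
    (by push_cast; linarith only [t2]) hw
  have hK : Kd 0 0 1 := by decide
  have ht : (tri 0).val [y, T, u, σ] = rr y := tri_val hK y1 y2
  push_cast at y1 y2
  rw [zero_div] at y1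
  obtain ⟨r0, r1⟩ := rr_small y1 y2
  have key : ∀ X : E → E → E, (X = X1 ∨ X = X2) →
      0 < (zU j X (lin a b c d) (lin p q r s)).val [y, T, u, σ] →
      (a : ℝ) / b + (c : ℝ) / d * y - T * ((p : ℝ) / q + (r : ℝ) / s * y) ≤
        dv T y (16 / 100 * rr y) u v + 2 * Real.pi * (16 / 100 * rr y) := by
    intro X hX hp
    have e2 : (dL (tU 0) (kk j) (X (tU 0) (kk j))).val [y, T, u, σ] +
        Real.pi * (((32 : ℤ) : ℝ) / ((100 : ℕ) : ℝ) * (tri 0).val [y, T, u, σ]) -
        ((lin a b c d).val [y, T, u, σ] - T * (lin p q r s).val [y, T, u, σ]) =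
        (zU j X (lin a b c d) (lin p q r s)).val [y, T, u, σ] := rfl
    rw [← e2, lin_val, lin_val, ht] at hp
    have h3 := dL_both (t := tU 0) (u := 16 / 100 * rr y) y1 y2 hw (by
      rw [abs_of_nonneg (by positivity)]
      linarith only [r1]) (by
      change ((16 : ℤ) : ℝ) / ((100 : ℕ) : ℝ) * (tri 0).val [y, T, u, σ] = _
      rw [ht]
      norm_num) hk hX
    push_cast at hp
    linarith only [h3, hp]
  simp only [List.mem_cons, List.not_mem_nil, or_false] at he
  rcases he with rfl | rfl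
  · exact key X1 (Or.inl rfl) hp
  · exact key X2 (Or.inr rfl) hp

theorem zD_of (h : C3 (fun j => [zD j X1 (lin a b c d) (lin p q r s),
      zD j X2 (lin a b c d) (lin p q r s)]) 0 1 0 50 0) :
    RD 0 1 ((a : ℝ) / b) ((c : ℝ) / d) ((p : ℝ) / q) ((r : ℝ) / s) := by
  intro y T u v y1 y2 t1 t2 hw
  obtain ⟨j, σ, ⟨e, he, hp⟩, hk⟩ := h.out y1 y2 (T := T) (by push_cast; linarith only [t1])
    (by push_cast; linarith only [t2]) hw
  have hK : Kd 0 0 1 := by decide
  have ht : (tri 0).val [y, T, u, σ] = rr y := tri_val hK y1 y2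
  push_cast at y1 y2
  rw [zero_div] at y1
  obtain ⟨r0, r1⟩ := rr_small y1 y2
  have key : ∀ X : E → E → E, (X = X1 ∨ X = X2) →
      0 < (zD j X (lin a b c d) (lin p q r s)).val [y, T, u, σ] →
      (a : ℝ) / b + (c : ℝ) / d * y - T * ((p : ℝ) / q + (r : ℝ) / s * y) ≤
        dv T y (-(16 / 100 * rr y)) u v + 2 * Real.pi * (16 / 100 * rr y) := by
    intro X hX hp
    have e2 : (dL (.neg (tU 0)) (kk j) (X (.neg (tU 0)) (kk j))).val [y, T, u, σ] +
        Real.pi * (((32 : ℤ) : ℝ) / ((100 : ℕ) : ℝ) * (tri 0).val [y, T, u, σ]) -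
        ((lin a b c d).val [y, T, u, σ] - T * (lin p q r s).val [y, T, u, σ]) =
        (zD j X (lin a b c d) (lin p q r s)).val [y, T, u, σ] := rfl
    rw [← e2, lin_val, lin_val, ht] at hp
    have h3 := dL_both (t := .neg (tU 0)) (u := -(16 / 100 * rr y)) y1 y2 hw (by
      rw [abs_neg, abs_of_nonneg (by positivity)]
      linarith only [r1]) (by
      change -(((16 : ℤ) : ℝ) / ((100 : ℕ) : ℝ) * (tri 0).val [y, T, u, σ]) = _
      rw [ht]
      norm_num) hk hX
    push_cast at hp
    linarith only [h3, hp]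
  simp only [List.mem_cons, List.not_mem_nil, or_false] at he
  rcases he with rfl | rfl
  · exact key X1 (Or.inl rfl) hp
  · exact key X2 (Or.inr rfl) hp

/-! ### derivative rows -/

/-- the three boxes -/
structure D3 (es : ℕ → List D) (lo hi : ℕ) : Prop where
  c0 : ∃ c, chkD (es 0) 10000 0 1230 0 10000 60 lo hi 0 1280 0 1300 0 20000 c = true
  c1 : ∃ c, chkD (es 1) 10000 0 1230 0 10000 60 lo hi 0 1280 1300 3600 0 20000 c = true
  c2 : ∃ c, chkD (es 2) 10000 0 1230 0 10000 60 lo hi 0 1280 3600 6500 0 20000 c = true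

theorem D3.out {es : ℕ → List D} {lo hi : ℕ} (h : D3 es lo hi) {y T a s : ℝ}
    (y1 : (lo : ℝ) / 10000 ≤ y) (y2 : y ≤ (hi : ℝ) / 10000)
    (T1 : -(123 / 1000) ≤ T) (T2 : T ≤ 5 / 1000) (hw : Wd a s) :
    ∃ j σ, (∃ e ∈ es j, 0 < e.val [y, T, a, σ]) ∧ (kk j).val [y, T, a, σ] = s := by
  obtain ⟨j, σ, s1, s2, hj, hk⟩ := part hw
  obtain ⟨a0, a1, -⟩ := hw
  have k1 : (((0 : ℕ) : ℝ) - (10000 : ℕ)) / (10000 : ℕ) ≤ σ := by push_cast; linarith only [s1]
  have k2 : σ ≤ (((20000 : ℕ) : ℝ) - (10000 : ℕ)) / (10000 : ℕ) := by push_cast; linarith only [s2]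
  have l1 : ((lo : ℝ) - (0 : ℕ)) / (10000 : ℕ) ≤ y := by push_cast; linarith only [y1]
  have l2 : y ≤ ((hi : ℝ) - (0 : ℕ)) / (10000 : ℕ) := by push_cast; linarith only [y2]
  have l3 : (((0 : ℕ) : ℝ) - (1230 : ℕ)) / (10000 : ℕ) ≤ T := by push_cast; linarith only [T1]
  have l4 : T ≤ (((1280 : ℕ) : ℝ) - (1230 : ℕ)) / (10000 : ℕ) := by push_cast; linarith only [T2]
  refine ⟨j, σ, ?_, hk y T⟩
  rcases hj with ⟨rfl, h5⟩ | ⟨rfl, h5, h6⟩ | ⟨rfl, h5⟩
  · obtain ⟨c, hc⟩ := h.c0
    exact chkD4 hc (by norm_num) l1 l2 l3 l4 (by push_cast; linarith only [a0]) (by push_cast; linarith only [h5]) k1 k2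
  · obtain ⟨c, hc⟩ := h.c1
    exact chkD4 hc (by norm_num) l1 l2 l3 l4 (by push_cast; linarith only [h5]) (by push_cast; linarith only [h6]) k1 k2
  · obtain ⟨c, hc⟩ := h.c2
    exact chkD4 hc (by norm_num) l1 l2 l3 l4 (by push_cast; linarith only [h5]) (by push_cast; linarith only [a1]) k1 k2

/-- the horizontal derivative of the value -/
noncomputable def hh (x T a s : ℝ) : ℝ :=
  NumIs.lnA (x + a) (T + s) - Real.pi * (T - s) - 2 * NumIs.lnA x T

theorem hasDeriv_V2 {x T a s : ℝ} (h0 : 0 < x) (ha : 0 ≤ a) (h1 : x + a < 1) :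
    HasDerivAt (fun x => MP_b30479_gtS.G2.V2 ⟨x, T⟩ ⟨a, s⟩) (hh x T a s) x := by
  have e : (fun x => MP_b30479_gtS.G2.V2 ⟨x, T⟩ ⟨a, s⟩) = fun x =>
      uu (x + a) (T + s) - Real.pi * ((x - a) * (T - s) + 1 / 2 * (T + s)) -
        2 * (uu x T + uu a s) := by
    funext x
    exact TL.V2_uu x T a s
  rw [e]
  have d1 : HasDerivAt (fun x => uu (x + a) (T + s)) (NumIs.lnA (x + a) (T + s)) x :=
    (UC.hasDeriv (t := T + s) (by linarith only [h0, ha]) h1).comp_add_const x a
  have d2 : HasDerivAt (fun x => uu x T) (NumIs.lnA x T) x := UC.hasDeriv h0 (by linarith only [ha, h1])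
  have d3 : HasDerivAt (fun x : ℝ => Real.pi * ((x - a) * (T - s) + 1 / 2 * (T + s)))
      (Real.pi * (1 * (T - s))) x :=
    ((((hasDerivAt_id x).sub_const a).mul_const (T - s)).add_const _).const_mul Real.pi
  have d4 := (d1.sub d3).sub ((d2.add_const (uu a s)).const_mul 2)
  refine d4.congr_deriv ?_
  unfold hh
  ring

theorem cont_V2 (T a s : ℝ) : Continuous fun x => MP_b30479_gtS.G2.V2 ⟨x, T⟩ ⟨a, s⟩ := by
  have e : (fun x => MP_b30479_gtS.G2.V2 ⟨x, T⟩ ⟨a, s⟩) = fun x =>
      uu (x + a) (T + s) - Real.pi * ((x - a) * (T - s) + 1 / 2 * (T + s)) -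
        2 * (uu x T + uu a s) := by
    funext x
    exact TL.V2_uu x T a s
  rw [e]
  have c1 : Continuous fun x => uu (x + a) (T + s) :=
    (UC.continuous_uu (T + s)).comp (continuous_id.add continuous_const)
  have c2 := UC.continuous_uu T
  fun_prop

/-- slope row, left of `3/10` -/
def SL (lo hi : ℕ) (A B : ℝ) : Prop := ∀ x y T a s : ℝ, (lo : ℝ) / 10000 ≤ x → x ≤ y →
  y ≤ (hi : ℝ) / 10000 → -(123 / 1000) ≤ T → T ≤ 5 / 1000 → Wd a s →
  -((y - x) * (A + B * T)) ≤
    MP_b30479_gtS.G2.V2 ⟨y, T⟩ ⟨a, s⟩ - MP_b30479_gtS.G2.V2 ⟨x, T⟩ ⟨a, s⟩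
/-- slope row, right of `3/10` -/
def SR (lo hi : ℕ) (A B : ℝ) : Prop := ∀ x y T a s : ℝ, (lo : ℝ) / 10000 ≤ x → x ≤ y →
  y ≤ (hi : ℝ) / 10000 → -(123 / 1000) ≤ T → T ≤ 5 / 1000 → Wd a s →
    MP_b30479_gtS.G2.V2 ⟨y, T⟩ ⟨a, s⟩ - MP_b30479_gtS.G2.V2 ⟨x, T⟩ ⟨a, s⟩ ≤ (y - x) * (A + B * T)

theorem H_val {j : ℕ} {x T a s σ : ℝ} (hk : (kk j).val [x, T, a, σ] = s) :
    (H j).val [x, T, a, σ] = hh x T a s := by
  change NumIs.lnA (x + a) (T + (kk j).val [x, T, a, σ]) -
    Real.pi * (T - (kk j).val [x, T, a, σ]) - ((2 : ℤ) : ℝ) / ((1 : ℕ) : ℝ) * NumIs.lnA x T = _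
  rw [hk]
  unfold hh
  norm_num

theorem lnA_up (x t : ℝ) : NumIs.lnA x t ≤ 6932 / 10000 + 1 / 2 * (Real.pi * t) ^ 2 := by
  unfold NumIs.lnA
  have h1 := Real.sin_sq_le_one (Real.pi * x)
  have h2 := Real.cosh_sq (Real.pi * t)
  rcases eq_or_lt_of_le (show 0 ≤ 4 * (Real.sin (Real.pi * x) ^ 2 + Real.sinh (Real.pi * t) ^ 2)
    by positivity) with h0 | h0
  · rw [← h0, Real.log_zero]
    have hq : 0 ≤ (Real.pi * t) ^ 2 := sq_nonneg _
    linarith only [hq]
  have h3 : 4 * (Real.sin (Real.pi * x) ^ 2 + Real.sinh (Real.pi * t) ^ 2) ≤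
      (2 * Real.cosh (Real.pi * t)) ^ 2 := by nlinarith only [h1, h2]
  have h4 := Real.log_le_log h0 h3
  have h5 : Real.log ((2 * Real.cosh (Real.pi * t)) ^ 2) =
      2 * (Real.log 2 + Real.log (Real.cosh (Real.pi * t))) := by
    rw [Real.log_pow, Real.log_mul (by norm_num) (Real.cosh_pos _).ne']
    push_cast
    ring
  have h6 : Real.log (Real.cosh (Real.pi * t)) ≤ (Real.pi * t) ^ 2 / 2 := by
    rw [Real.log_le_iff_le_exp (Real.cosh_pos _)]
    exact Real.cosh_le_exp_half_sq _
  have h7 := Real.log_two_lt_d9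
  linarith only [h4, h5, h6, h7]

theorem H2_val {j : ℕ} {x T a s σ : ℝ} (hk : (kk j).val [x, T, a, σ] = s) :
    hh x T a s ≤ (H2 j).val [x, T, a, σ] := by
  change _ ≤ ((6932 : ℤ) : ℝ) / ((10000 : ℕ) : ℝ) + ((1 : ℤ) : ℝ) / ((2 : ℕ) : ℝ) *
    (Real.pi * (T + (kk j).val [x, T, a, σ])) ^ 2 -
    Real.pi * (T - (kk j).val [x, T, a, σ]) - ((2 : ℤ) : ℝ) / ((1 : ℕ) : ℝ) * NumIs.lnA x T
  rw [hk]
  unfold hh
  have := lnA_up (x + a) (T + s)
  push_cast
  linarith only [this]

theorem SL_of (h0 : 0 < lo) (h1 : hi ≤ 3500) (h : D3 (fun j => [hL j (sl a b c d)]) lo hi) :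
    SL lo hi ((a : ℝ) / b) ((c : ℝ) / d) := by
  intro x y T u v x1 xy y2 t1 t2 hw
  have hlo : (0 : ℝ) < (lo : ℝ) / 10000 := by
    have : (0 : ℝ) < lo := by exact_mod_cast h0
    positivity
  have hhi : (hi : ℝ) / 10000 ≤ 35 / 100 := by
    have : (hi : ℝ) ≤ 3500 := by exact_mod_cast h1
    linarith only [this]
  have hm : MonotoneOn (fun z => MP_b30479_gtS.G2.V2 ⟨z, T⟩ ⟨u, v⟩ +
      z * ((a : ℝ) / b + (c : ℝ) / d * T)) (Set.Icc ((lo : ℝ) / 10000) ((hi : ℝ) / 10000)) := by
    have hd : ∀ z ∈ interior (Set.Icc ((lo : ℝ) / 10000) ((hi : ℝ) / 10000)),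
        HasDerivAt (fun z => MP_b30479_gtS.G2.V2 ⟨z, T⟩ ⟨u, v⟩ +
          z * ((a : ℝ) / b + (c : ℝ) / d * T)) (hh z T u v + 1 * ((a : ℝ) / b + (c : ℝ) / d * T))
          z := by
      intro z hz
      rw [interior_Icc] at hz
      exact (hasDeriv_V2 (by linarith only [hlo, hz, hz.1]) hw.1 (by linarith only [hhi, hz, hw, hz.2, hw.2.1])).add
        ((hasDerivAt_id z).mul_const _)
    apply monotoneOn_of_deriv_nonneg (convex_Icc _ _)
    · exact ((cont_V2 T u v).add (by fun_prop)).continuousOn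
    · intro z hz
      exact (hd z hz).differentiableAt.differentiableWithinAt
    · intro z hz
      rw [(hd z hz).deriv]
      rw [interior_Icc] at hz
      obtain ⟨j, σ, ⟨e, he, hp⟩, hk⟩ := h.out hz.1.le hz.2.le t1 t2 hw
      obtain rfl := List.mem_singleton.1 he
      have e2 : (hL j (sl a b c d)).val [z, T, u, σ] = (H j).val [z, T, u, σ] +
        ((a : ℝ) / b + (c : ℝ) / d * T) := rfl
      rw [e2, H_val hk] at hp
      linarith only [hp]
  have := hm ⟨x1, by linarith only [xy, y2]⟩ ⟨by linarith only [x1, xy], y2⟩ xy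
  simp only at this
  linarith only [this]

theorem SR_of (h0 : 0 < lo) (h1 : hi ≤ 3500)
    (h : D3 (fun j => [hR j (sl a b c d), hR2 j (sl a b c d)]) lo hi) :
    SR lo hi ((a : ℝ) / b) ((c : ℝ) / d) := by
  intro x y T u v x1 xy y2 t1 t2 hw
  have hlo : (0 : ℝ) < (lo : ℝ) / 10000 := by
    have : (0 : ℝ) < lo := by exact_mod_cast h0
    positivity
  have hhi : (hi : ℝ) / 10000 ≤ 35 / 100 := by
    have : (hi : ℝ) ≤ 3500 := by exact_mod_cast h1
    linarith only [this]
  have hm : AntitoneOn (fun z => MP_b30479_gtS.G2.V2 ⟨z, T⟩ ⟨u, v⟩ -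
      z * ((a : ℝ) / b + (c : ℝ) / d * T)) (Set.Icc ((lo : ℝ) / 10000) ((hi : ℝ) / 10000)) := by
    have hd : ∀ z ∈ interior (Set.Icc ((lo : ℝ) / 10000) ((hi : ℝ) / 10000)),
        HasDerivAt (fun z => MP_b30479_gtS.G2.V2 ⟨z, T⟩ ⟨u, v⟩ -
          z * ((a : ℝ) / b + (c : ℝ) / d * T)) (hh z T u v - 1 * ((a : ℝ) / b + (c : ℝ) / d * T))
          z := by
      intro z hz
      rw [interior_Icc] at hz
      exact (hasDeriv_V2 (by linarith only [hlo, hz, hz.1]) hw.1 (by linarith only [hhi, hz, hw, hz.2, hw.2.1])).sub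
        ((hasDerivAt_id z).mul_const _)
    apply antitoneOn_of_deriv_nonpos (convex_Icc _ _)
    · exact ((cont_V2 T u v).sub (by fun_prop)).continuousOn
    · intro z hz
      exact (hd z hz).differentiableAt.differentiableWithinAt
    · intro z hz
      rw [(hd z hz).deriv]
      rw [interior_Icc] at hz
      obtain ⟨j, σ, ⟨e, he, hp⟩, hk⟩ := h.out hz.1.le hz.2.le t1 t2 hw
      simp only [List.mem_cons, List.not_mem_nil, or_false] at he
      rcases he with rfl | rfl
      · have e2 : (hR j (sl a b c d)).val [z, T, u, σ] =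
          ((a : ℝ) / b + (c : ℝ) / d * T) - (H j).val [z, T, u, σ] := rfl
        rw [e2, H_val hk] at hp
        linarith only [hp]
      · have e2 : (hR2 j (sl a b c d)).val [z, T, u, σ] =
          ((a : ℝ) / b + (c : ℝ) / d * T) - (H2 j).val [z, T, u, σ] := rfl
        rw [e2] at hp
        have := H2_val hk
        linarith only [hp, this]
  have := hm ⟨x1, by linarith only [xy, y2]⟩ ⟨by linarith only [x1, xy], y2⟩ xy
  simp only at this
  linarith only [this]

end Pool.Agent.Work.NumGs.F3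

end

section

/-!
# Part of `WMF3r4`
-/
set_option deprecated.oldSectionVars true

namespace Pool.Agent.Work.NumGs.F3

theorem m175_c : C3 (fun j => [gM 1 j (lin (-361) 2000 (67) 250)
    (lin (1) 1 (-12) 5)]) 1750 2000 0 1280 1230 :=
  ⟨⟨34444371822210875757814287869206823398973927238963528885612528978659876527220201977646360779833602, by decide +kernel⟩,
  ⟨108688905690290207454539253443719471256506846932487630256813880918402, by decide +kernel⟩,
  ⟨11349499696623456992319759058699903817301453515266049134078906754849234579087044989703850545965597893839483471964229472726745087910091486970268903269370877562613997657912761065233151206449463461401810070619038214432053366288212558292476074530400918939406438069388417488922107810444707878191821386719758226655090408385623797198943028280352652492485567684234157314389461138761461297670198527962481903674299437784532081667151840401132622541096422364680200935854321192618240473363574770734287183412757162415109139683099131678826589861199726171992537129459819237939919089486864334098633343645778936314865111101801644001621491798604923382050940475561707895118676226,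 by decide +kernel⟩⟩
end Pool.Agent.Work.NumGs.F3

end

section

/-!
# Part of `WMF3r4`
-/
set_option deprecated.oldSectionVars true

namespace Pool.Agent.Work.NumGs.F3

theorem m225_c_a0 : Pool.Agent.Work.NumGs.chkF [gM 1 0 (lin (-1599) 5000 (23) 25) (lin (67) 50 (-4) 1)] 10000 0 1230 0 10000 60 2250 2500 0 1280 0 1300 0 20000
    10915857143719362931065865864267649575499917262466213133970410555168363701184678177292352812697187024560841219046382670150910210 = true := by
  decide +kernel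

theorem m225_c_a1 : Pool.Agent.Work.NumGs.chkF [gM 1 1 (lin (-1599) 5000 (23) 25) (lin (67) 50 (-4) 1)] 10000 0 1230 0 10000 60 2250 2500 0 1280 1300 3600 0 20000
    40664736754468327604553799494040843521603242217254200893665188855546063483212104017731910176271351446177987927950246274 = true := by
  decide +kernel

theorem m225_c_a2_q1 : Pool.Agent.Work.NumIs.runE (Pool.Agent.Work.NumGs.tst [gM 1 2 (lin (-1599) 5000 (23) 25) (lin (67) 50 (-4) 1)])
    0 8452495639 0 68719476736 59 15461882265 17179869186 0 8796093024 24739011624 34703335752 0 137438953474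
    1737469984902423265347517645317424370607290234409174430742864432162234621120540740359929687499857067188945932428509656341935612211857446210108128852854875582798847956818939671402407515521113939965214486323874986418307615857630771490489136465964261887801982727838255476649052492030173108858335468991649626076126605410116946083078781138092465566740013466480955998466871642380741665430188905968638870806129831231201176963208044505320984519079270599358976036111402179204039983314517432420546628094892655012053872505112212409795263982865338029873936033398540469333288885385048193551204375223989828942008321225899628720019388990856515346927609438516167639089686887420791985006539157564117320092461403725889542698761325518258063186254122363961285705185034766538603876320861516128047546048507284856522588760535059029978387601424830139815001991291519890688826648052098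
    817805357741476168026732227018053453897308163049112768523580678500139320587819558709012497772711389889614349091080271477639298904732777552928792243455770918733643003310523993404018401453208692359831580667024142682337308712879801518727231374233057298358988619678446619001974202129107773918727779365063266242214950692590611390447714113298483721559076380772548321931975950991282438713671640329518975384188435593353908749259851628590023677867760185072434419304983959150066081752247002939131310995197277139817267470918071431843208595774098641623421361943631032823806695988981683301967157103038837293408189812727841368735330580999629584928202124955778551418229744574362733099647106 = true := by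
  decide +kernel

theorem m225_c_a2_q2 : Pool.Agent.Work.NumIs.runE (Pool.Agent.Work.NumGs.tst [gM 1 2 (lin (-1599) 5000 (23) 25) (lin (67) 50 (-4) 1)])
    0 8452495639 0 68719476736 58 15461882265 17179869186 0 8796093024 34703335752 39685497816 0 137438953474
    6389104357355282562708845523578542608572720023821193504090474050782338442092340302414160138849307733512612102274064620919057022693224824632256189401998210302606585963363468698468893761353192909061184223961126114705760224319373449365056495111195760143429598591237864210952923454133654483740060776289556767517304302285864151487872766510144404074680284224785533765093562117119394052450559690074366995188972153073077412103592590848359559983341876445878393900820187180859891263689429710461963367149978727654822402116547433061275067154485145637682979390184617443935989812413919400796618414867490916354751482911936260693244770164059606132251579101217019932954919879487208852340993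
    13226119439755275361935610634900590096292433082047497514107740519422537390333604495847265158144686327168410920279193458766507384294825675747196528703586520448991997161041679239372186799685734501232420412428777201697017106713000790407738413498324028619103489479721324606540124375521701946220268456885756857933698944780562735032165540986930122989671385123712731385571190571038436983012976635083101771545894348734208999789594203744011879407598694998811610123835383422742089124774256646378598596582890832002 = true := by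
  decide +kernel

theorem m225_c_a2_q3 : Pool.Agent.Work.NumIs.runE (Pool.Agent.Work.NumGs.tst [gM 1 2 (lin (-1599) 5000 (23) 25) (lin (67) 50 (-4) 1)])
    0 8452495639 0 68719476736 58 15461882265 17179869186 0 8796093024 39685497816 44667659880 0 137438953474
    13226119439755275361935610634900590096292433082047497514107740519422537390333604495847265158144686327168410920279193458766507384294825675747196528703586520448991997161041679239372186799685734501232420412428777201697017106713000790407738413498324028619103489479721324606540124375521701946220268456885756857933698944780562735032165540986930122989671385123712731385571190571038436983012976635083101771545894348734208999789594203744011879407598694998811610123835383422742089124774256646378598596582890832002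
    0 = true := by
  decide +kernel

end Pool.Agent.Work.NumGs.F3

end

section

/-!
# Part of `WMF3r8`
-/
set_option deprecated.oldSectionVars true

namespace Pool.Agent.Work.NumGs.F3

theorem m650_c : C3 (fun j => [gM 1 j (lin (-323) 5000 (11) 100)
    (lin (-67) 100 (3) 5)]) 6500 7000 0 1280 1230 :=
  ⟨⟨4821662542795640810445890035116100228533552439462489222980580967356041791028581024850125135449734921815709813782794768598430250068524421452919147831496424593317768042810210616137376973411121845289218, by decide +kernel⟩,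
  ⟨1328286826272671810566363920629848441201161031212078537551309786619407134639779429627851479220227496471398181465076487013768739933281133652254837510819760207095851490541472684222056906337395961797599603044391923861478851778183562378146331028636816193089046107484935321194315126958363823108225410391879149003290510747871478991891498602538865447326213330841580606013555764569070137981103615237735043618090481999536843600519222633171792268742657543832485664054504795223571648217087031576260491171733947298583537413701140783673880223360424028981831192067329358872834, by decide +kernel⟩,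
  ⟨2930114367261156369706126822198918356013911937625557355057348389770359326563470014805802712999498955923061517870365290472485835073683714, by decide +kernel⟩⟩
end Pool.Agent.Work.NumGs.F3

end

section

/-!
# Part of `WMF3r8`
-/
set_option deprecated.oldSectionVars true

namespace Pool.Agent.Work.NumGs.F3

theorem m700_c : C3 (fun j => [gM 1 j (lin (13) 625 (-3) 250)
    (lin (-179) 100 (11) 5)]) 7000 7500 0 1280 1230 :=
  ⟨⟨110102306816564619097737337704587584682785793014002405166929075442139608900610312573403993868889216945874096264129213946162855673766261205071264739668640213852947518670301942763454016304769161484361691947612621730095646731454316493919241449259266, by decide +kernel⟩,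
  ⟨1139871565820017548880615324059195342396366982558526835143394415042785408317132673569270039887922884112869897236290446135178886098918524055106060376426776909456058783667616742416283695762248311767793296939079059350012681817027233315523904317116638124925212166245666030468669527680448346487248806138751398568459252001111239695593864341861533323659449702138505102445620642230088839819575268219132707194597309702614442946517733836935367634631905992249976631661959607148054352894588163374282144557234791108781792765209253787285549965798574025846969743151353579621977098023488303354131151312138156049183629211202870377796592387570686673585958615651672193451558132898661816992412827653621974751637218624664994492192284262658, by decide +kernel⟩,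
  ⟨477997209310897331915136644910138036022680306672383755189256825374671081928966402, by decide +kernel⟩⟩
end Pool.Agent.Work.NumGs.F3

end
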