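import Pool.Agent.Work.MP_b30479_gt.TBS.G2.WMF4a
import Pool.Agent.Work.MP_b30479_gt.TBS.G2.WMF4r5
import Pool.Agent.Work.MP_b30479_gt.TBS.G2.WMF4r6
import Pool.Agent.Work.MP_b30479_gt.TBS.G2.WMF4r7
import Pool.Agent.Work.MP_b30479_gt.TBS.G2.WMF3r13
import Pool.Agent.Work.MP_b30479_gt.TBS.G2.MKJ
import Pool.Agent.Work.MP_b30479_gt.TBS.G2.WM13RE
import Pool.Agent.Work.MP_b30479_gt.TBS.G2.WM13RB

section

/-!
# Far table `3/10`, bands of the height: rows 1
-/

set_option deprecated.oldSectionVars true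

namespace Pool.Agent.Work.NumGs.F3

theorem np20_c : C3 (fun j => [gM 0 j (lin (1007) 10000 (-3) 10)
    (lin (1327) 500 (-69) 1)]) 200 220 330 480 1230 :=
  ⟨⟨151487949320928483771241799988844878380311808382509362505795207612190307200765235605143582768331618934061039874, by decide +kernel⟩,
  ⟨290495508626063619, by decide +kernel⟩,
  ⟨2481903403724587360936085714511975809147486455749058632038364058276730236729401125166160033191361735090687231164802, by decide +kernel⟩⟩
theorem np20 : RN 200 220 330 480 (((1007 : ℤ) : ℝ) / ((10000 : ℕ) : ℝ)) (((-3 : ℤ) : ℝ) / ((10 : ℕ) : ℝ))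
    (((1327 : ℤ) : ℝ) / ((500 : ℕ) : ℝ)) (((-69 : ℤ) : ℝ) / ((1 : ℕ) : ℝ)) :=
  RN_of (by decide) np20_c

theorem np22_c : C3 (fun j => [gM 0 j (lin (263) 2000 (-17) 10)
    (lin (1699) 750 (-154) 3)]) 220 250 330 480 1230 :=
  ⟨⟨40664736754468327884521892266266369841283541705343523148499684121184578835902507543614437886432764592146614389875704066, by decide +kernel⟩,
  ⟨290495508626063619, by decide +kernel⟩,
  ⟨12887169488635969112688429580103217314639991529580619040906108868148928223431587705220457287312309833956856853528961613305747004940003130772115456386, by decide +kernel⟩⟩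
theorem np22 : RN 220 250 330 480 (((263 : ℤ) : ℝ) / ((2000 : ℕ) : ℝ)) (((-17 : ℤ) : ℝ) / ((10 : ℕ) : ℝ))
    (((1699 : ℤ) : ℝ) / ((750 : ℕ) : ℝ)) (((-154 : ℤ) : ℝ) / ((3 : ℕ) : ℝ)) :=
  RN_of (by decide) np22_c

theorem np25_c : C3 (fun j => [gM 0 j (lin (631) 4000 (-11) 4)
    (lin (483) 250 (-38) 1)]) 250 270 330 480 1230 :=
  ⟨⟨34444371822457579530974226142653805795887776271799648954082660478022786973201572346178004381106434, by decide +kernel⟩,
  ⟨290495508626063619, by decide +kernel⟩,
  ⟨9245810671614796253551319531353301522816883830715706272691462577044898760308172925193312963427031222092162, by decide +kernel⟩⟩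
theorem np25 : RN 250 270 330 480 (((631 : ℤ) : ℝ) / ((4000 : ℕ) : ℝ)) (((-11 : ℤ) : ℝ) / ((4 : ℕ) : ℝ))
    (((483 : ℤ) : ℝ) / ((250 : ℕ) : ℝ)) (((-38 : ℤ) : ℝ) / ((1 : ℕ) : ℝ)) :=
  RN_of (by decide) np25_c

theorem np27_c : C3 (fun j => [gM 0 j (lin (151) 1000 (-5) 2)
    (lin (39) 20 (-116) 3)]) 270 300 330 480 1230 :=
  ⟨⟨2102317616116795625669813607339709826409166032214334042607584257691820495141047214177307885826, by decide +kernel⟩,
  ⟨290495508626063619, by decide +kernel⟩,
  ⟨786570403359128974205419738991297670259680155188819698907973715736979551476934154863903886075031833507587310612649476728670030645064267137581442, by decide +kernel⟩⟩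
theorem np27 : RN 270 300 330 480 (((151 : ℤ) : ℝ) / ((1000 : ℕ) : ℝ)) (((-5 : ℤ) : ℝ) / ((2 : ℕ) : ℝ))
    (((39 : ℤ) : ℝ) / ((20 : ℕ) : ℝ)) (((-116 : ℤ) : ℝ) / ((3 : ℕ) : ℝ)) :=
  RN_of (by decide) np27_c

theorem np30_c : C3 (fun j => [gM 0 j (lin (29) 200 (-23) 10)
    (lin (49) 25 (-39) 1)]) 300 320 330 480 1230 :=
  ⟨⟨7831743419605477249882420924826375493441395581567041734634281164759010902544419422466, by decide +kernel⟩,
  ⟨290495508626063619, by decide +kernel⟩,
  ⟨151483362043736821818184819201692492150708292762497735748497774151205697001927436149545376856826711453240164738, by decide +kernel⟩⟩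
theorem np30 : RN 300 320 330 480 (((29 : ℤ) : ℝ) / ((200 : ℕ) : ℝ)) (((-23 : ℤ) : ℝ) / ((10 : ℕ) : ℝ))
    (((49 : ℤ) : ℝ) / ((25 : ℕ) : ℝ)) (((-39 : ℤ) : ℝ) / ((1 : ℕ) : ℝ)) :=
  RN_of (by decide) np30_c

theorem np32_c : C3 (fun j => [gM 0 j (lin (661) 5000 (-19) 10)
    (lin (249) 125 (-40) 1)]) 320 350 330 480 1230 :=
  ⟨⟨9246090656728727362212109265270366088633339789896976853022652953484066494271157659069140117865473670938882, by decide +kernel⟩,
  ⟨290495508626063619, by decide +kernel⟩,
  ⟨129991764524063035237340598798437826388695844104105832296589925505964287842662038068387197245621161644089319354793806416460399616090437716153447158966652825683715185889126369773603317344468711979509840790637042592390067590978286665812769281259744685913394114352677250, by decide +kernel⟩⟩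
theorem np32 : RN 320 350 330 480 (((661 : ℤ) : ℝ) / ((5000 : ℕ) : ℝ)) (((-19 : ℤ) : ℝ) / ((10 : ℕ) : ℝ))
    (((249 : ℤ) : ℝ) / ((125 : ℕ) : ℝ)) (((-40 : ℤ) : ℝ) / ((1 : ℕ) : ℝ)) :=
  RN_of (by decide) np32_c

theorem np35_c : C3 (fun j => [gM 0 j (lin (2749) 20000 (-41) 20)
    (lin (4019) 2000 (-81) 2)]) 350 370 330 480 1230 :=
  ⟨⟨2102317616101738022328415642111932831683893662079066610436405683343836224964040534336422838530, by decide +kernel⟩,
  ⟨290495508626063619, by decide +kernel⟩,
  ⟨6720416737656722211050267644239922845669495549237595658172296951966264719530093603871687585409514170449031282435131946844196688027536928327102052264332022757971482125452661074960931163709773158187005835214108587487954654545016654861338444162, by decide +kernel⟩⟩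
theorem np35 : RN 350 370 330 480 (((2749 : ℤ) : ℝ) / ((20000 : ℕ) : ℝ)) (((-41 : ℤ) : ℝ) / ((20 : ℕ) : ℝ))
    (((4019 : ℤ) : ℝ) / ((2000 : ℕ) : ℝ)) (((-81 : ℤ) : ℝ) / ((2 : ℕ) : ℝ)) :=
  RN_of (by decide) np35_c

theorem np37_c : C3 (fun j => [gM 0 j (lin (3883) 30000 (-11) 6)
    (lin (6121) 3000 (-124) 3)]) 370 400 330 480 1230 :=
  ⟨⟨40664736716893940198732052608065989378560875783177543877893014681968555212024773535619878247517162964597540758570959106, by decide +kernel⟩,
  ⟨290495508626063619, by decide +kernel⟩,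
  ⟨674955831821091743901048404428291743722677860947420547940403357441442025525026245817045287810868552877775716642109492069256259054167173035221639672099514895943751057944478973776980848182929072077523914497281467614960519259449626954503234260172552677581142930142246508787994503987148634435368708505986, by decide +kernel⟩⟩
theorem np37 : RN 370 400 330 480 (((3883 : ℤ) : ℝ) / ((30000 : ℕ) : ℝ)) (((-11 : ℤ) : ℝ) / ((6 : ℕ) : ℝ))
    (((6121 : ℤ) : ℝ) / ((3000 : ℕ) : ℝ)) (((-124 : ℤ) : ℝ) / ((3 : ℕ) : ℝ)) :=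
  RN_of (by decide) np37_c

theorem np40_c : C3 (fun j => [gM 0 j (lin (1241) 10000 (-17) 10)
    (lin (2067) 1000 (-42) 1)]) 400 420 330 480 1230 :=
  ⟨⟨9246090648251524771406378160478650301811484446984091818624850630378332001521593144390517687391063262658818, by decide +kernel⟩,
  ⟨290495508626063619, by decide +kernel⟩,
  ⟨25034745162853813505260384980848729276014992473642736843561479805017082300508079914302242920500642572726961148307475329187016829466765308825195824867702281410579439451460889791740964317092847865870952649950046031211227242026133127554, by decide +kernel⟩⟩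
theorem np40 : RN 400 420 330 480 (((1241 : ℤ) : ℝ) / ((10000 : ℕ) : ℝ)) (((-17 : ℤ) : ℝ) / ((10 : ℕ) : ℝ))
    (((2067 : ℤ) : ℝ) / ((1000 : ℕ) : ℝ)) (((-42 : ℤ) : ℝ) / ((1 : ℕ) : ℝ)) :=
  RN_of (by decide) np40_c

theorem np42_c : C3 (fun j => [gM 0 j (lin (237) 2000 (-47) 30)
    (lin (419) 200 (-128) 3)]) 420 450 330 480 1230 :=
  ⟨⟨3459373218231868514807142530942408567468802287214418095674727682142368853610317146807141720449761842534354877461690646487682917024960682518851918563947610370, by decide +kernel⟩,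
  ⟨290491110579552515, by decide +kernel⟩,
  ⟨11058476348556767132074777058153131929152354073762538257455595920507705606752926416428329178597701753683337331824612100547576499600628921341489417230149420707209766478094817922346786655088706574974909772872157594221280010416632645158143294847640666468715602443004595354290972765152477758273176957863625090, by decide +kernel⟩⟩
theorem np42 : RN 420 450 330 480 (((237 : ℤ) : ℝ) / ((2000 : ℕ) : ℝ)) (((-47 : ℤ) : ℝ) / ((30 : ℕ) : ℝ))
    (((419 : ℤ) : ℝ) / ((200 : ℕ) : ℝ)) (((-128 : ℤ) : ℝ) / ((3 : ℕ) : ℝ)) :=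
  RN_of (by decide) np42_c

end Pool.Agent.Work.NumGs.F3

end

section

/-!
# Far table `3/10`, bands of the height: rows 8
-/

set_option deprecated.oldSectionVars true

namespace Pool.Agent.Work.NumGs.F3

theorem nr120_c : C3 (fun j => [gM 1 j (lin (-27) 10000 (-43) 50)
    (lin (473) 1000 (7) 5)]) 1200 1350 630 830 1230 :=
  ⟨⟨1277612758195018794469353898242, by decide +kernel⟩,
  ⟨17730438758659, by decide +kernel⟩,
  ⟨40665347450690936284875230797146552241256731557990585008544636251693999955953255274541624426990401378964007628746817922, by decide +kernel⟩⟩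
theorem nr120 : RN 1200 1350 630 830 (((-27 : ℤ) : ℝ) / ((10000 : ℕ) : ℝ)) (((-43 : ℤ) : ℝ) / ((50 : ℕ) : ℝ))
    (((473 : ℤ) : ℝ) / ((1000 : ℕ) : ℝ)) (((7 : ℤ) : ℝ) / ((5 : ℕ) : ℝ)) :=
  RN_of (by decide) nr120_c

theorem nr135_c : C3 (fun j => [gM 1 j (lin (-117) 2500 (-8) 15)
    (lin (617) 1000 (1) 3)]) 1350 1500 630 830 1230 :=
  ⟨⟨77979294323426440092123394, by decide +kernel⟩,
  ⟨17730438758659, by decide +kernel⟩,
  ⟨249274110984990088005639822412795470906518180764435390667646956672950657214591494041052289317752087591869164345505263967480023894609878897870273552387567740028288404207731074, by decide +kernel⟩⟩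
theorem nr135 : RN 1350 1500 630 830 (((-117 : ℤ) : ℝ) / ((2500 : ℕ) : ℝ)) (((-8 : ℤ) : ℝ) / ((15 : ℕ) : ℝ))
    (((617 : ℤ) : ℝ) / ((1000 : ℕ) : ℝ)) (((1 : ℤ) : ℝ) / ((3 : ℕ) : ℝ)) :=
  RN_of (by decide) nr135_c

end Pool.Agent.Work.NumGs.F3

end

section

/-!
# Far table `3/10`, main, precise version for `y` in `[2/100, 15/100]`

Three bands of the height `T`: `[-9/100, -75/1000]` (`ga`, `gb`), `[-75/1000, -6/100]` (`ha`, `hb`),
`[-6/100, -4/100]` (`ka`, `kb`).
-/

set_option deprecated.oldSectionVars true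

namespace Pool.Agent.Work.NumGs.F3

open MP_b30479_gtS MP_b30479_gtS.G2 MP_b30479_gtS.VOL

/-- value at `T = 0`, band 1 -/
def ga : List (ℤ × ℤ × ℕ) :=
  [(0, 947, 200), (20, -1007, 200), (22, -7, 5), (25, -21, 20), (27, 1, 4), (30, 1, 5),
    (32, 2, 5), (35, -3, 20), (37, 13, 60), (40, 2, 15), (42, 2, 15), (45, 1, 6), (47, 1, 15),
    (50, -229, 150), (55, 7, 50), (60, 7, 50), (65, 4, 25), (70, 7, 50), (75, 4, 25),
    (80, -3, 50), (85, 3, 10), (90, 3, 25), (95, 3, 25), (100, 19, 100), (110, 11, 50),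
    (120, 83, 300), (135, 1, 3)]

/-- slope in `-T`, band 1 -/
def gb : List (ℤ × ℤ × ℕ) :=
  [(0, 637, 10), (20, -1327, 10), (22, 53, 3), (25, 40, 3), (27, -2, 3), (30, -1, 3),
    (32, -1, 1), (35, -1, 2), (37, -5, 6), (40, -2, 3), (42, -2, 3), (45, -5, 6), (47, -1, 2),
    (50, 287, 5), (55, -4, 5), (60, -1, 1), (65, -1, 1), (70, -4, 5), (75, -1, 1), (80, -3, 5),
    (85, -4, 5), (90, -3, 5), (95, -4, 5), (100, -9, 10), (110, -11, 10), (120, -6, 5),
    (135, -19, 15)]

/-- value at `T = 0`, band 2 -/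
def ha : List (ℤ × ℤ × ℕ) :=
  [(0, 337, 100), (20, -487, 100), (22, 11, 15), (25, 17, 30), (27, -1, 5), (30, -1, 5),
    (32, 1, 30), (35, -29, 60), (37, -7, 60), (40, -2, 15), (42, -1, 6), (45, -2, 15),
    (47, -1, 10), (50, -31, 25), (55, 7, 50), (60, 1, 5), (65, 7, 50), (70, 4, 25), (75, 4, 25),
    (80, -1, 50), (85, 7, 25), (90, 4, 25), (95, 1, 10), (100, 21, 100), (110, 21, 100),
    (120, 43, 150), (135, 49, 150)]

/-- slope in `-T`, band 2 -/
def hb : List (ℤ × ℤ × ℕ) :=
  [(0, 819, 10), (20, -672, 5), (22, -67, 6), (25, -25, 3), (27, 16, 3), (30, 14, 3), (32, 4, 1),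
    (35, 9, 2), (37, 19, 6), (40, 17, 6), (42, 7, 2), (45, 3, 1), (47, 5, 3), (50, 812, 15),
    (55, -7, 5), (60, -6, 5), (65, -6, 5), (70, -1, 1), (75, -1, 1), (80, -1, 1), (85, -4, 5),
    (90, -4, 5), (95, -4, 5), (100, -1, 1), (110, -1, 1), (120, -4, 3), (135, -17, 15)]

/-- value at `T = 0`, band 3 -/
def ka : List (ℤ × ℤ × ℕ) :=
  [(0, 661, 200), (20, -1001, 200), (22, 2, 15), (25, 1, 15), (27, 1, 10), (30, 1, 10),
    (32, 1, 3), (35, -11, 60), (37, 1, 20), (40, 1, 20), (42, 1, 12), (45, 1, 15), (47, 0, 1),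
    (50, -21, 10), (55, 1, 5), (60, 11, 50), (65, 4, 25), (70, 4, 25), (75, 9, 50), (80, -1, 50),
    (85, 3, 10), (90, 7, 50), (95, 1, 10), (100, 21, 100), (110, 11, 50), (120, 27, 100),
    (135, 49, 150)]

/-- slope in `-T`, band 3 -/
def kb : List (ℤ × ℤ × ℕ) :=
  [(0, 83, 1), (20, -265, 2), (22, -1, 2), (25, 0, 1), (27, -2, 3), (30, 1, 6), (32, -1, 2),
    (35, -1, 2), (37, -1, 6), (40, 1, 6), (42, -5, 6), (45, -1, 6), (47, -1, 6), (50, 1021, 15),
    (55, -9, 5), (60, -9, 5), (65, -7, 5), (70, -6, 5), (75, -6, 5), (80, -1, 1), (85, -4, 5),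
    (90, -1, 1), (95, -3, 5), (100, -1, 1), (110, -6, 5), (120, -1, 1), (135, -16, 15)]

/-- the statement on an interval -/
def PN (t0 t1 : ℕ) (l1 l2 : List (ℤ × ℤ × ℕ)) (lo hi : ℤ) : Prop := ∀ y T a s : ℝ,
  (lo : ℝ) / 1000 ≤ y → y ≤ (hi : ℝ) / 1000 → ((t0 : ℝ) - (1230 : ℕ)) / 10000 ≤ T →
  T ≤ ((t1 : ℝ) - (1230 : ℕ)) / 10000 → Wd a s →
  plR y 0 l1 - T * plR y 0 l2 ≤ dv T y (T * rr y) a s

theorem PN.append {t0 t1 : ℕ} {l1 l2 : List (ℤ × ℤ × ℕ)} {lo mid hi : ℤ}
    (h1 : PN t0 t1 l1 l2 lo mid) (h2 : PN t0 t1 l1 l2 mid hi) : PN t0 t1 l1 l2 lo hi := by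
  intro y T a s y1 y2 a1 a2 hw
  rcases le_total y ((mid : ℝ) / 1000) with h | h
  · exact h1 y T a s y1 h a1 a2 hw
  · exact h2 y T a s h y2 a1 a2 hw

theorem PN_of {t0 t1 : ℕ} {l1 l2 : List (ℤ × ℤ × ℕ)} {lo hi : ℤ} {l h : ℕ} {a c p r : ℤ}
    {b d q s : ℕ} (e1 : (l : ℤ) = 10 * lo) (e2 : (h : ℤ) = 10 * hi)
    (hr : RN l h t0 t1 ((a : ℝ) / b) ((c : ℝ) / d) ((p : ℝ) / q) ((r : ℝ) / s))
    (o1 : okQ lo hi l1 = true) (f1 : affQ lo 0 l1 = ((a : ℚ) / b, (c : ℚ) / d))
    (o2 : okQ lo hi l2 = true) (f2 : affQ lo 0 l2 = ((p : ℚ) / q, (r : ℚ) / s)) :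
    PN t0 t1 l1 l2 lo hi := by
  intro y T u v y1 y2 a1 a2 hw
  have e1' : (l : ℝ) = 10 * lo := by exact_mod_cast e1
  have e2' : (h : ℝ) = 10 * hi := by exact_mod_cast e2
  rw [pl_of y1 y2 o1 f1, pl_of y1 y2 o2 f2]
  exact hr y T u v (by rw [e1']; linarith only [y1]) (by rw [e2']; linarith only [y2]) a1 a2 hw

theorem pnp20 : PN 330 480 ga gb 20 22 :=
  PN_of (by norm_num) (by norm_num) np20 (by decide +kernel) (by decide +kernel)
    (by decide +kernel) (by decide +kernel)

theorem pnp22 : PN 330 480 ga gb 22 25 :=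
  PN_of (by norm_num) (by norm_num) np22 (by decide +kernel) (by decide +kernel)
    (by decide +kernel) (by decide +kernel)

theorem pnp25 : PN 330 480 ga gb 25 27 :=
  PN_of (by norm_num) (by norm_num) np25 (by decide +kernel) (by decide +kernel)
    (by decide +kernel) (by decide +kernel)

theorem pnp27 : PN 330 480 ga gb 27 30 :=
  PN_of (by norm_num) (by norm_num) np27 (by decide +kernel) (by decide +kernel)
    (by decide +kernel) (by decide +kernel)

theorem pnp30 : PN 330 480 ga gb 30 32 :=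
  PN_of (by norm_num) (by norm_num) np30 (by decide +kernel) (by decide +kernel)
    (by decide +kernel) (by decide +kernel)

theorem pnp32 : PN 330 480 ga gb 32 35 :=
  PN_of (by norm_num) (by norm_num) np32 (by decide +kernel) (by decide +kernel)
    (by decide +kernel) (by decide +kernel)

theorem pnp35 : PN 330 480 ga gb 35 37 :=
  PN_of (by norm_num) (by norm_num) np35 (by decide +kernel) (by decide +kernel)
    (by decide +kernel) (by decide +kernel)

theorem pnp37 : PN 330 480 ga gb 37 40 :=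
  PN_of (by norm_num) (by norm_num) np37 (by decide +kernel) (by decide +kernel)
    (by decide +kernel) (by decide +kernel)

theorem pnp40 : PN 330 480 ga gb 40 42 :=
  PN_of (by norm_num) (by norm_num) np40 (by decide +kernel) (by decide +kernel)
    (by decide +kernel) (by decide +kernel)

theorem pnp42 : PN 330 480 ga gb 42 45 :=
  PN_of (by norm_num) (by norm_num) np42 (by decide +kernel) (by decide +kernel)
    (by decide +kernel) (by decide +kernel)

theorem pnp45 : PN 330 480 ga gb 45 47 :=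
  PN_of (by norm_num) (by norm_num) np45 (by decide +kernel) (by decide +kernel)
    (by decide +kernel) (by decide +kernel)

theorem pnp47 : PN 330 480 ga gb 47 50 :=
  PN_of (by norm_num) (by norm_num) np47 (by decide +kernel) (by decide +kernel)
    (by decide +kernel) (by decide +kernel)

theorem pnp50 : PN 330 480 ga gb 50 55 :=
  PN_of (by norm_num) (by norm_num) np50 (by decide +kernel) (by decide +kernel)
    (by decide +kernel) (by decide +kernel)

theorem pnp55 : PN 330 480 ga gb 55 60 :=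
  PN_of (by norm_num) (by norm_num) np55 (by decide +kernel) (by decide +kernel)
    (by decide +kernel) (by decide +kernel)

theorem pnp60 : PN 330 480 ga gb 60 65 :=
  PN_of (by norm_num) (by norm_num) np60 (by decide +kernel) (by decide +kernel)
    (by decide +kernel) (by decide +kernel)

theorem pnp65 : PN 330 480 ga gb 65 70 :=
  PN_of (by norm_num) (by norm_num) np65 (by decide +kernel) (by decide +kernel)
    (by decide +kernel) (by decide +kernel)

theorem pnp70 : PN 330 480 ga gb 70 75 :=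
  PN_of (by norm_num) (by norm_num) np70 (by decide +kernel) (by decide +kernel)
    (by decide +kernel) (by decide +kernel)

theorem pnp75 : PN 330 480 ga gb 75 80 :=
  PN_of (by norm_num) (by norm_num) np75 (by decide +kernel) (by decide +kernel)
    (by decide +kernel) (by decide +kernel)

theorem pnp80 : PN 330 480 ga gb 80 85 :=
  PN_of (by norm_num) (by norm_num) np80 (by decide +kernel) (by decide +kernel)
    (by decide +kernel) (by decide +kernel)

theorem pnp85 : PN 330 480 ga gb 85 90 :=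
  PN_of (by norm_num) (by norm_num) np85 (by decide +kernel) (by decide +kernel)
    (by decide +kernel) (by decide +kernel)

theorem pnp90 : PN 330 480 ga gb 90 95 :=
  PN_of (by norm_num) (by norm_num) np90 (by decide +kernel) (by decide +kernel)
    (by decide +kernel) (by decide +kernel)

theorem pnp95 : PN 330 480 ga gb 95 100 :=
  PN_of (by norm_num) (by norm_num) np95 (by decide +kernel) (by decide +kernel)
    (by decide +kernel) (by decide +kernel)

theorem pnp100 : PN 330 480 ga gb 100 110 :=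
  PN_of (by norm_num) (by norm_num) np100 (by decide +kernel) (by decide +kernel)
    (by decide +kernel) (by decide +kernel)

theorem pnp110 : PN 330 480 ga gb 110 120 :=
  PN_of (by norm_num) (by norm_num) np110 (by decide +kernel) (by decide +kernel)
    (by decide +kernel) (by decide +kernel)

theorem pnp120 : PN 330 480 ga gb 120 135 :=
  PN_of (by norm_num) (by norm_num) np120 (by decide +kernel) (by decide +kernel)
    (by decide +kernel) (by decide +kernel)

theorem pnp135 : PN 330 480 ga gb 135 150 :=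
  PN_of (by norm_num) (by norm_num) np135 (by decide +kernel) (by decide +kernel)
    (by decide +kernel) (by decide +kernel)

theorem pNp : PN 330 480 ga gb 20 150 :=
  (((((((((((((((((((((((((pnp20).append pnp22).append pnp25).append pnp27).append pnp30).append
    pnp32).append pnp35).append pnp37).append pnp40).append pnp42).append pnp45).append
    pnp47).append pnp50).append pnp55).append pnp60).append pnp65).append pnp70).append
    pnp75).append pnp80).append pnp85).append pnp90).append pnp95).append pnp100).append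
    pnp110).append pnp120).append pnp135

theorem pnq20 : PN 480 630 ha hb 20 22 :=
  PN_of (by norm_num) (by norm_num) nq20 (by decide +kernel) (by decide +kernel)
    (by decide +kernel) (by decide +kernel)

theorem pnq22 : PN 480 630 ha hb 22 25 :=
  PN_of (by norm_num) (by norm_num) nq22 (by decide +kernel) (by decide +kernel)
    (by decide +kernel) (by decide +kernel)

theorem pnq25 : PN 480 630 ha hb 25 27 :=
  PN_of (by norm_num) (by norm_num) nq25 (by decide +kernel) (by decide +kernel)
    (by decide +kernel) (by decide +kernel)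

theorem pnq27 : PN 480 630 ha hb 27 30 :=
  PN_of (by norm_num) (by norm_num) nq27 (by decide +kernel) (by decide +kernel)
    (by decide +kernel) (by decide +kernel)

theorem pnq30 : PN 480 630 ha hb 30 32 :=
  PN_of (by norm_num) (by norm_num) nq30 (by decide +kernel) (by decide +kernel)
    (by decide +kernel) (by decide +kernel)

theorem pnq32 : PN 480 630 ha hb 32 35 :=
  PN_of (by norm_num) (by norm_num) nq32 (by decide +kernel) (by decide +kernel)
    (by decide +kernel) (by decide +kernel)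

theorem pnq35 : PN 480 630 ha hb 35 37 :=
  PN_of (by norm_num) (by norm_num) nq35 (by decide +kernel) (by decide +kernel)
    (by decide +kernel) (by decide +kernel)

theorem pnq37 : PN 480 630 ha hb 37 40 :=
  PN_of (by norm_num) (by norm_num) nq37 (by decide +kernel) (by decide +kernel)
    (by decide +kernel) (by decide +kernel)

theorem pnq40 : PN 480 630 ha hb 40 42 :=
  PN_of (by norm_num) (by norm_num) nq40 (by decide +kernel) (by decide +kernel)
    (by decide +kernel) (by decide +kernel)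

theorem pnq42 : PN 480 630 ha hb 42 45 :=
  PN_of (by norm_num) (by norm_num) nq42 (by decide +kernel) (by decide +kernel)
    (by decide +kernel) (by decide +kernel)

theorem pnq45 : PN 480 630 ha hb 45 47 :=
  PN_of (by norm_num) (by norm_num) nq45 (by decide +kernel) (by decide +kernel)
    (by decide +kernel) (by decide +kernel)

theorem pnq47 : PN 480 630 ha hb 47 50 :=
  PN_of (by norm_num) (by norm_num) nq47 (by decide +kernel) (by decide +kernel)
    (by decide +kernel) (by decide +kernel)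

theorem pnq50 : PN 480 630 ha hb 50 55 :=
  PN_of (by norm_num) (by norm_num) nq50 (by decide +kernel) (by decide +kernel)
    (by decide +kernel) (by decide +kernel)

theorem pnq55 : PN 480 630 ha hb 55 60 :=
  PN_of (by norm_num) (by norm_num) nq55 (by decide +kernel) (by decide +kernel)
    (by decide +kernel) (by decide +kernel)

theorem pnq60 : PN 480 630 ha hb 60 65 :=
  PN_of (by norm_num) (by norm_num) nq60 (by decide +kernel) (by decide +kernel)
    (by decide +kernel) (by decide +kernel)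

theorem pnq65 : PN 480 630 ha hb 65 70 :=
  PN_of (by norm_num) (by norm_num) nq65 (by decide +kernel) (by decide +kernel)
    (by decide +kernel) (by decide +kernel)

theorem pnq70 : PN 480 630 ha hb 70 75 :=
  PN_of (by norm_num) (by norm_num) nq70 (by decide +kernel) (by decide +kernel)
    (by decide +kernel) (by decide +kernel)

theorem pnq75 : PN 480 630 ha hb 75 80 :=
  PN_of (by norm_num) (by norm_num) nq75 (by decide +kernel) (by decide +kernel)
    (by decide +kernel) (by decide +kernel)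

theorem pnq80 : PN 480 630 ha hb 80 85 :=
  PN_of (by norm_num) (by norm_num) nq80 (by decide +kernel) (by decide +kernel)
    (by decide +kernel) (by decide +kernel)

theorem pnq85 : PN 480 630 ha hb 85 90 :=
  PN_of (by norm_num) (by norm_num) nq85 (by decide +kernel) (by decide +kernel)
    (by decide +kernel) (by decide +kernel)

theorem pnq90 : PN 480 630 ha hb 90 95 :=
  PN_of (by norm_num) (by norm_num) nq90 (by decide +kernel) (by decide +kernel)
    (by decide +kernel) (by decide +kernel)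

theorem pnq95 : PN 480 630 ha hb 95 100 :=
  PN_of (by norm_num) (by norm_num) nq95 (by decide +kernel) (by decide +kernel)
    (by decide +kernel) (by decide +kernel)

theorem pnq100 : PN 480 630 ha hb 100 110 :=
  PN_of (by norm_num) (by norm_num) nq100 (by decide +kernel) (by decide +kernel)
    (by decide +kernel) (by decide +kernel)

theorem pnq110 : PN 480 630 ha hb 110 120 :=
  PN_of (by norm_num) (by norm_num) nq110 (by decide +kernel) (by decide +kernel)
    (by decide +kernel) (by decide +kernel)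

theorem pnq120 : PN 480 630 ha hb 120 135 :=
  PN_of (by norm_num) (by norm_num) nq120 (by decide +kernel) (by decide +kernel)
    (by decide +kernel) (by decide +kernel)

theorem pnq135 : PN 480 630 ha hb 135 150 :=
  PN_of (by norm_num) (by norm_num) nq135 (by decide +kernel) (by decide +kernel)
    (by decide +kernel) (by decide +kernel)

theorem pNq : PN 480 630 ha hb 20 150 :=
  (((((((((((((((((((((((((pnq20).append pnq22).append pnq25).append pnq27).append pnq30).append
    pnq32).append pnq35).append pnq37).append pnq40).append pnq42).append pnq45).append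
    pnq47).append pnq50).append pnq55).append pnq60).append pnq65).append pnq70).append
    pnq75).append pnq80).append pnq85).append pnq90).append pnq95).append pnq100).append
    pnq110).append pnq120).append pnq135

theorem pnr20 : PN 630 830 ka kb 20 22 :=
  PN_of (by norm_num) (by norm_num) nr20 (by decide +kernel) (by decide +kernel)
    (by decide +kernel) (by decide +kernel)

theorem pnr22 : PN 630 830 ka kb 22 25 :=
  PN_of (by norm_num) (by norm_num) nr22 (by decide +kernel) (by decide +kernel)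
    (by decide +kernel) (by decide +kernel)

theorem pnr25 : PN 630 830 ka kb 25 27 :=
  PN_of (by norm_num) (by norm_num) nr25 (by decide +kernel) (by decide +kernel)
    (by decide +kernel) (by decide +kernel)

theorem pnr27 : PN 630 830 ka kb 27 30 :=
  PN_of (by norm_num) (by norm_num) nr27 (by decide +kernel) (by decide +kernel)
    (by decide +kernel) (by decide +kernel)

theorem pnr30 : PN 630 830 ka kb 30 32 :=
  PN_of (by norm_num) (by norm_num) nr30 (by decide +kernel) (by decide +kernel)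
    (by decide +kernel) (by decide +kernel)

theorem pnr32 : PN 630 830 ka kb 32 35 :=
  PN_of (by norm_num) (by norm_num) nr32 (by decide +kernel) (by decide +kernel)
    (by decide +kernel) (by decide +kernel)

theorem pnr35 : PN 630 830 ka kb 35 37 :=
  PN_of (by norm_num) (by norm_num) nr35 (by decide +kernel) (by decide +kernel)
    (by decide +kernel) (by decide +kernel)

theorem pnr37 : PN 630 830 ka kb 37 40 :=
  PN_of (by norm_num) (by norm_num) nr37 (by decide +kernel) (by decide +kernel)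
    (by decide +kernel) (by decide +kernel)

theorem pnr40 : PN 630 830 ka kb 40 42 :=
  PN_of (by norm_num) (by norm_num) nr40 (by decide +kernel) (by decide +kernel)
    (by decide +kernel) (by decide +kernel)

theorem pnr42 : PN 630 830 ka kb 42 45 :=
  PN_of (by norm_num) (by norm_num) nr42 (by decide +kernel) (by decide +kernel)
    (by decide +kernel) (by decide +kernel)

theorem pnr45 : PN 630 830 ka kb 45 47 :=
  PN_of (by norm_num) (by norm_num) nr45 (by decide +kernel) (by decide +kernel)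
    (by decide +kernel) (by decide +kernel)

theorem pnr47 : PN 630 830 ka kb 47 50 :=
  PN_of (by norm_num) (by norm_num) nr47 (by decide +kernel) (by decide +kernel)
    (by decide +kernel) (by decide +kernel)

theorem pnr50 : PN 630 830 ka kb 50 55 :=
  PN_of (by norm_num) (by norm_num) nr50 (by decide +kernel) (by decide +kernel)
    (by decide +kernel) (by decide +kernel)

theorem pnr55 : PN 630 830 ka kb 55 60 :=
  PN_of (by norm_num) (by norm_num) nr55 (by decide +kernel) (by decide +kernel)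
    (by decide +kernel) (by decide +kernel)

theorem pnr60 : PN 630 830 ka kb 60 65 :=
  PN_of (by norm_num) (by norm_num) nr60 (by decide +kernel) (by decide +kernel)
    (by decide +kernel) (by decide +kernel)

theorem pnr65 : PN 630 830 ka kb 65 70 :=
  PN_of (by norm_num) (by norm_num) nr65 (by decide +kernel) (by decide +kernel)
    (by decide +kernel) (by decide +kernel)

theorem pnr70 : PN 630 830 ka kb 70 75 :=
  PN_of (by norm_num) (by norm_num) nr70 (by decide +kernel) (by decide +kernel)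
    (by decide +kernel) (by decide +kernel)

theorem pnr75 : PN 630 830 ka kb 75 80 :=
  PN_of (by norm_num) (by norm_num) nr75 (by decide +kernel) (by decide +kernel)
    (by decide +kernel) (by decide +kernel)

theorem pnr80 : PN 630 830 ka kb 80 85 :=
  PN_of (by norm_num) (by norm_num) nr80 (by decide +kernel) (by decide +kernel)
    (by decide +kernel) (by decide +kernel)

theorem pnr85 : PN 630 830 ka kb 85 90 :=
  PN_of (by norm_num) (by norm_num) nr85 (by decide +kernel) (by decide +kernel)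
    (by decide +kernel) (by decide +kernel)

theorem pnr90 : PN 630 830 ka kb 90 95 :=
  PN_of (by norm_num) (by norm_num) nr90 (by decide +kernel) (by decide +kernel)
    (by decide +kernel) (by decide +kernel)

theorem pnr95 : PN 630 830 ka kb 95 100 :=
  PN_of (by norm_num) (by norm_num) nr95 (by decide +kernel) (by decide +kernel)
    (by decide +kernel) (by decide +kernel)

theorem pnr100 : PN 630 830 ka kb 100 110 :=
  PN_of (by norm_num) (by norm_num) nr100 (by decide +kernel) (by decide +kernel)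
    (by decide +kernel) (by decide +kernel)

theorem pnr110 : PN 630 830 ka kb 110 120 :=
  PN_of (by norm_num) (by norm_num) nr110 (by decide +kernel) (by decide +kernel)
    (by decide +kernel) (by decide +kernel)

theorem pnr120 : PN 630 830 ka kb 120 135 :=
  PN_of (by norm_num) (by norm_num) nr120 (by decide +kernel) (by decide +kernel)
    (by decide +kernel) (by decide +kernel)

theorem pnr135 : PN 630 830 ka kb 135 150 :=
  PN_of (by norm_num) (by norm_num) nr135 (by decide +kernel) (by decide +kernel)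
    (by decide +kernel) (by decide +kernel)

theorem pNr : PN 630 830 ka kb 20 150 :=
  (((((((((((((((((((((((((pnr20).append pnr22).append pnr25).append pnr27).append pnr30).append
    pnr32).append pnr35).append pnr37).append pnr40).append pnr42).append pnr45).append
    pnr47).append pnr50).append pnr55).append pnr60).append pnr65).append pnr70).append
    pnr75).append pnr80).append pnr85).append pnr90).append pnr95).append pnr100).append
    pnr110).append pnr120).append pnr135

/-- main, `T` in `[-90/1000, -75/1000]` -/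
theorem far_main2 {w : ℂ} {T y : ℝ} (w0 : 0 ≤ w.re) (w1 : w.re ≤ 65 / 100)
    (w2 : |w.im| ≤ 16 / 100 * MP_b30479_gtS.G2.tr 0 (65 / 100) (13 / 100) (29 / 100) w.re)
    (t1 : -(90 / 1000) ≤ T) (t2 : T ≤ -(75 / 1000)) (y0 : 2 / 100 ≤ y) (y1 : y ≤ 15 / 100) :
    plR y 0 ga - T * plR y 0 gb ≤ MP_b30479_gtS.G2.V2 ⟨3 / 10, T⟩ w -
      MP_b30479_gtS.G2.V2 ⟨y, T * MP_b30479_gtS.G2.tr 0 (8 / 10) (5 / 100) (5 / 100) y⟩ w :=
  pNp y T w.re w.im (by push_cast; linarith only [y0]) (by push_cast; linarith only [y1]) (by push_cast; linarith only [t1])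
    (by push_cast; linarith only [t2]) ⟨w0, w1, w2⟩

/-- main, `T` in `[-75/1000, -60/1000]` -/
theorem far_main3 {w : ℂ} {T y : ℝ} (w0 : 0 ≤ w.re) (w1 : w.re ≤ 65 / 100)
    (w2 : |w.im| ≤ 16 / 100 * MP_b30479_gtS.G2.tr 0 (65 / 100) (13 / 100) (29 / 100) w.re)
    (t1 : -(75 / 1000) ≤ T) (t2 : T ≤ -(60 / 1000)) (y0 : 2 / 100 ≤ y) (y1 : y ≤ 15 / 100) :
    plR y 0 ha - T * plR y 0 hb ≤ MP_b30479_gtS.G2.V2 ⟨3 / 10, T⟩ w -
      MP_b30479_gtS.G2.V2 ⟨y, T * MP_b30479_gtS.G2.tr 0 (8 / 10) (5 / 100) (5 / 100) y⟩ w :=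
  pNq y T w.re w.im (by push_cast; linarith only [y0]) (by push_cast; linarith only [y1]) (by push_cast; linarith only [t1])
    (by push_cast; linarith only [t2]) ⟨w0, w1, w2⟩

/-- main, `T` in `[-60/1000, -40/1000]` -/
theorem far_main4 {w : ℂ} {T y : ℝ} (w0 : 0 ≤ w.re) (w1 : w.re ≤ 65 / 100)
    (w2 : |w.im| ≤ 16 / 100 * MP_b30479_gtS.G2.tr 0 (65 / 100) (13 / 100) (29 / 100) w.re)
    (t1 : -(60 / 1000) ≤ T) (t2 : T ≤ -(40 / 1000)) (y0 : 2 / 100 ≤ y) (y1 : y ≤ 15 / 100) :
    plR y 0 ka - T * plR y 0 kb ≤ MP_b30479_gtS.G2.V2 ⟨3 / 10, T⟩ w -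
      MP_b30479_gtS.G2.V2 ⟨y, T * MP_b30479_gtS.G2.tr 0 (8 / 10) (5 / 100) (5 / 100) y⟩ w :=
  pNr y T w.re w.im (by push_cast; linarith only [y0]) (by push_cast; linarith only [y1]) (by push_cast; linarith only [t1])
    (by push_cast; linarith only [t2]) ⟨w0, w1, w2⟩

end Pool.Agent.Work.NumGs.F3

end

section

/-!
# Kind `1 | 3`, slot `0`, right end: the far gains
-/

namespace Pool.Agent.Work.NumGs

namespace R13

open MP_b30479_gtS.G2 (V2)
open MP_b30479_gtS.G2.M13 (H)

variable {x T Tl pl : ℝ} {k l w : ℂ}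

theorem fM_val (x T y Tl : ℝ) : fM.val [x, T, y, Tl] =
    plR y 120 F3.fa - Tl * plR y 2600 F3.fb := by
  simp only [fM, E.val, E.pl_val, NumIs.lkR]
  rfl

theorem fU_val (x T y Tl : ℝ) : fU.val [x, T, y, Tl] =
    plR y 120 F3.fu - Tl * plR y 2600 F3.fv := by
  simp only [fU, E.val, E.pl_val, NumIs.lkR]
  rfl

theorem fD_val (x T y Tl : ℝ) : fD.val [x, T, y, Tl] = plR y 120 F3.fd - Tl * (24 / 10) := by
  simp only [fD, E.val, E.pl_val, NumIs.lkR]
  norm_num
  rfl

theorem fg_val (x T y Tl : ℝ) : fg.val [x, T, y, Tl] = plR y 0 F3.ga - Tl * plR y 0 F3.gb := by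
  simp only [fg, E.val, E.pl_val, NumIs.lkR]
  rfl

theorem fh_val (x T y Tl : ℝ) : fh.val [x, T, y, Tl] = plR y 0 F3.ha - Tl * plR y 0 F3.hb := by
  simp only [fh, E.val, E.pl_val, NumIs.lkR]
  rfl

theorem fk_val (x T y Tl : ℝ) : fk.val [x, T, y, Tl] = plR y 0 F3.ka - Tl * plR y 0 F3.kb := by
  simp only [fk, E.val, E.pl_val, NumIs.lkR]
  rfl

section

variable (h : H x T Tl pl k l w)

include h

theorem farM (hl : l.im = Tl * MP_b30479_gtS.G2.M13.τl l.re) (hp : pl = 0) :
    fM.val [x, T, l.re, Tl] ≤ V2 ⟨3 / 10, Tl⟩ w - V2 l w + 2 * Real.pi * pl := by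
  have h1 := F3.far_main (T := Tl) (y := l.re) h.w0 h.w1 h.w2 (by linarith only [h, h.t0])
    h.t1 h.l0 h.l1
  have e : (⟨l.re, Tl * MP_b30479_gtS.G2.tr 0 (8 / 10) (5 / 100) (5 / 100) l.re⟩ : ℂ) = l :=
    Complex.ext rfl hl.symm
  rw [e] at h1
  rw [hp, fM_val]
  linarith only [h1]

theorem farG (hl : l.im = Tl * MP_b30479_gtS.G2.M13.τl l.re) (hp : pl = 0)
    (t0 : -(90 / 1000) ≤ Tl) (t1 : Tl ≤ -(75 / 1000)) (y0 : 2 / 100 ≤ l.re)
    (y1 : l.re ≤ 15 / 100) :
    fg.val [x, T, l.re, Tl] ≤ V2 ⟨3 / 10, Tl⟩ w - V2 l w + 2 * Real.pi * pl := by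
  have h1 := F3.far_main2 (T := Tl) (y := l.re) h.w0 h.w1 h.w2 t0 t1 y0 y1
  have e : (⟨l.re, Tl * MP_b30479_gtS.G2.tr 0 (8 / 10) (5 / 100) (5 / 100) l.re⟩ : ℂ) = l :=
    Complex.ext rfl hl.symm
  rw [e] at h1
  rw [hp, fg_val]
  linarith only [h1]

theorem farH (hl : l.im = Tl * MP_b30479_gtS.G2.M13.τl l.re) (hp : pl = 0)
    (t0 : -(75 / 1000) ≤ Tl) (t1 : Tl ≤ -(60 / 1000)) (y0 : 2 / 100 ≤ l.re)
    (y1 : l.re ≤ 15 / 100) :
    fh.val [x, T, l.re, Tl] ≤ V2 ⟨3 / 10, Tl⟩ w - V2 l w + 2 * Real.pi * pl := by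
  have h1 := F3.far_main3 (T := Tl) (y := l.re) h.w0 h.w1 h.w2 t0 t1 y0 y1
  have e : (⟨l.re, Tl * MP_b30479_gtS.G2.tr 0 (8 / 10) (5 / 100) (5 / 100) l.re⟩ : ℂ) = l :=
    Complex.ext rfl hl.symm
  rw [e] at h1
  rw [hp, fh_val]
  linarith only [h1]

theorem farK (hl : l.im = Tl * MP_b30479_gtS.G2.M13.τl l.re) (hp : pl = 0)
    (t0 : -(60 / 1000) ≤ Tl) (t1 : Tl ≤ -(40 / 1000)) (y0 : 2 / 100 ≤ l.re)
    (y1 : l.re ≤ 15 / 100) :
    fk.val [x, T, l.re, Tl] ≤ V2 ⟨3 / 10, Tl⟩ w - V2 l w + 2 * Real.pi * pl := by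
  have h1 := F3.far_main4 (T := Tl) (y := l.re) h.w0 h.w1 h.w2 t0 t1 y0 y1
  have e : (⟨l.re, Tl * MP_b30479_gtS.G2.tr 0 (8 / 10) (5 / 100) (5 / 100) l.re⟩ : ℂ) = l :=
    Complex.ext rfl hl.symm
  rw [e] at h1
  rw [hp, fk_val]
  linarith only [h1]

theorem farU (t1 : Tl ≤ 0) (hl : l.im = 16 / 100 * MP_b30479_gtS.G2.M13.τl l.re)
    (hp : pl = 16 / 100 * MP_b30479_gtS.G2.M13.τl l.re) :
    fU.val [x, T, l.re, Tl] ≤ V2 ⟨3 / 10, Tl⟩ w - V2 l w + 2 * Real.pi * pl := by
  have h1 := F3.far_up (T := Tl) (y := l.re) h.w0 h.w1 h.w2 (by linarith only [h, h.t0])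
    t1 h.l0 h.l1
  have e : (⟨l.re, 16 / 100 * MP_b30479_gtS.G2.tr 0 (8 / 10) (5 / 100) (5 / 100) l.re⟩ : ℂ) = l :=
    Complex.ext rfl hl.symm
  rw [e] at h1
  rw [hp, fU_val]
  unfold MP_b30479_gtS.G2.M13.τl
  linarith only [h1]

theorem farD (t0 : 0 ≤ Tl) (hl : l.im = -(16 / 100 * MP_b30479_gtS.G2.M13.τl l.re))
    (hp : pl = 16 / 100 * MP_b30479_gtS.G2.M13.τl l.re) :
    fD.val [x, T, l.re, Tl] ≤ V2 ⟨3 / 10, Tl⟩ w - V2 l w + 2 * Real.pi * pl := by
  have h1 := F3.far_down (T := Tl) (y := l.re) h.w0 h.w1 h.w2 t0 h.t1 h.l0 h.l1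
  have e : (⟨l.re, -(16 / 100 * MP_b30479_gtS.G2.tr 0 (8 / 10) (5 / 100) (5 / 100) l.re)⟩ : ℂ) =
    l := Complex.ext rfl hl.symm
  rw [e] at h1
  rw [hp, fD_val]
  unfold MP_b30479_gtS.G2.M13.τl
  linarith only [h1]

end

end R13

end Pool.Agent.Work.NumGs

end

section

/-!
# Kind `1 | 3`, slot `0`, right end: the components of the side of the `3`
-/

namespace Pool.Agent.Work.NumGs

namespace R13

open MP_b30479_gtS.G2.M13 (H)

variable {x T Tl pl : ℝ} {k l w : ℂ}

theorem cC_m0 (h : H x T Tl pl k l w) (z0 : 63 / 100 ≤ x) (x0 : 63 / 100 ≤ x) (x1 : x ≤ 13 / 20) (T0 : 21 / 1000 ≤ T) (T1 : T ≤ 47 / 500)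
    (y0 : 1 / 2 ≤ l.re) (y1 : l.re ≤ 3 / 5) (t0 : -(9 / 100) ≤ Tl) (t1 : Tl ≤ 1 / 200)
    (hl : l.im = Tl * MP_b30479_gtS.G2.M13.τl l.re) (hp : pl = 0) (ne : l ≠ ⟨x, hh x⟩)
    (S : SC x T k) : False := by
  have a0 := h.s0
  have a1 := h.s1
  have e := lM_eq hl x T
  rcases S with S | S
  · exact finK h z0 ne (by decide) S (P3_lK' e (by decide) (chkD4 r_C_3_0_m0 (by norm_num)
      (le_trans (by norm_num) x0) (le_trans x1 (by norm_num)) (le_trans (by norm_num) T0)
      (le_trans T1 (by norm_num))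
      (le_trans (by norm_num) y0) (le_trans y1 (by norm_num))
      (le_trans (by norm_num) t0) (le_trans t1 (by norm_num))) a0 a1 w)
  · exact finK h z0 ne (by decide) S (P3_lY' e rfl (chkD4 r_C_3_1_m0 (by norm_num)
      (le_trans (by norm_num) x0) (le_trans x1 (by norm_num)) (le_trans (by norm_num) T0)
      (le_trans T1 (by norm_num))
      (le_trans (by norm_num) y0) (le_trans y1 (by norm_num))
      (le_trans (by norm_num) t0) (le_trans t1 (by norm_num))) a0 a1 w)

theorem cC_m1 (h : H x T Tl pl k l w) (z0 : 63 / 100 ≤ x) (x0 : 63 / 100 ≤ x) (x1 : x ≤ 13 / 20) (T0 : 21 / 1000 ≤ T) (T1 : T ≤ 47 / 500)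
    (y0 : 3 / 5 ≤ l.re) (y1 : l.re ≤ 7 / 10) (t0 : -(9 / 100) ≤ Tl) (t1 : Tl ≤ -(1 / 100))
    (hl : l.im = Tl * MP_b30479_gtS.G2.M13.τl l.re) (hp : pl = 0) (ne : l ≠ ⟨x, hh x⟩)
    (S : SC x T k) : False := by
  have a0 := h.s0
  have a1 := h.s1
  have e := lM_eq hl x T
  rcases S with S | S
  · exact finK h z0 ne (by decide) S (P3_lK' e (by decide) (chkD4 r_C_3_0_m1 (by norm_num)
      (le_trans (by norm_num) x0) (le_trans x1 (by norm_num)) (le_trans (by norm_num) T0)
      (le_trans T1 (by norm_num))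
      (le_trans (by norm_num) y0) (le_trans y1 (by norm_num))
      (le_trans (by norm_num) t0) (le_trans t1 (by norm_num))) a0 a1 w)
  · exact finK h z0 ne (by decide) S (P3_lY' e rfl (chkD4 r_C_3_1_m1 (by norm_num)
      (le_trans (by norm_num) x0) (le_trans x1 (by norm_num)) (le_trans (by norm_num) T0)
      (le_trans T1 (by norm_num))
      (le_trans (by norm_num) y0) (le_trans y1 (by norm_num))
      (le_trans (by norm_num) t0) (le_trans t1 (by norm_num))) a0 a1 w)

theorem cC_m2 (h : H x T Tl pl k l w) (z0 : 63 / 100 ≤ x) (x0 : 63 / 100 ≤ x) (x1 : x ≤ 13 / 20) (T0 : 21 / 1000 ≤ T) (T1 : T ≤ 47 / 500)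
    (y0 : 7 / 10 ≤ l.re) (y1 : l.re ≤ 3 / 4) (t0 : -(9 / 100) ≤ Tl) (t1 : Tl ≤ 1 / 200)
    (hl : l.im = Tl * MP_b30479_gtS.G2.M13.τl l.re) (hp : pl = 0) (ne : l ≠ ⟨x, hh x⟩)
    (S : SC x T k) : False := by
  have a0 := h.s0
  have a1 := h.s1
  have e := lM_eq hl x T
  rcases S with S | S
  · exact finK h z0 ne (by decide) S (P3_lK' e (by decide) (chkD4 r_C_3_0_m2 (by norm_num)
      (le_trans (by norm_num) x0) (le_trans x1 (by norm_num)) (le_trans (by norm_num) T0)
      (le_trans T1 (by norm_num))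
      (le_trans (by norm_num) y0) (le_trans y1 (by norm_num))
      (le_trans (by norm_num) t0) (le_trans t1 (by norm_num))) a0 a1 w)
  · exact finK h z0 ne (by decide) S (P3_lY' e rfl (chkD4 r_C_3_1_m2 (by norm_num)
      (le_trans (by norm_num) x0) (le_trans x1 (by norm_num)) (le_trans (by norm_num) T0)
      (le_trans T1 (by norm_num))
      (le_trans (by norm_num) y0) (le_trans y1 (by norm_num))
      (le_trans (by norm_num) t0) (le_trans t1 (by norm_num))) a0 a1 w)

theorem cC_m3 (h : H x T Tl pl k l w) (z0 : 63 / 100 ≤ x) (x0 : 63 / 100 ≤ x) (x1 : x ≤ 13 / 20) (T0 : 21 / 1000 ≤ T) (T1 : T ≤ 47 / 500)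
    (y0 : 3 / 4 ≤ l.re) (y1 : l.re ≤ 4 / 5) (t0 : -(9 / 100) ≤ Tl) (t1 : Tl ≤ 1 / 200)
    (hl : l.im = Tl * MP_b30479_gtS.G2.M13.τl l.re) (hp : pl = 0) (ne : l ≠ ⟨x, hh x⟩)
    (S : SC x T k) : False := by
  have a0 := h.s0
  have a1 := h.s1
  have e := lM_eq hl x T
  rcases S with S | S
  · exact finK h z0 ne (by decide) S (P3_lK' e (by decide) (chkD4 r_C_3_0_m3 (by norm_num)
      (le_trans (by norm_num) x0) (le_trans x1 (by norm_num)) (le_trans (by norm_num) T0)
      (le_trans T1 (by norm_num))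
      (le_trans (by norm_num) y0) (le_trans y1 (by norm_num))
      (le_trans (by norm_num) t0) (le_trans t1 (by norm_num))) a0 a1 w)
  · exact finK h z0 ne (by decide) S (P3_lY' e rfl (chkD4 r_C_3_1_m3 (by norm_num)
      (le_trans (by norm_num) x0) (le_trans x1 (by norm_num)) (le_trans (by norm_num) T0)
      (le_trans T1 (by norm_num))
      (le_trans (by norm_num) y0) (le_trans y1 (by norm_num))
      (le_trans (by norm_num) t0) (le_trans t1 (by norm_num))) a0 a1 w)

theorem cU_u0 (h : H x T Tl pl k l w) (z0 : 63 / 100 ≤ x) (x0 : 63 / 100 ≤ x) (x1 : x ≤ 13 / 20) (T0 : 21 / 1000 ≤ T) (T1 : T ≤ 47 / 500)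
    (y0 : 0 ≤ l.re) (y1 : l.re ≤ 1 / 100) (t0 : -(9 / 100) ≤ Tl) (t1 : Tl ≤ 0)
    (hl : l.im = 16 / 100 * MP_b30479_gtS.G2.M13.τl l.re)
    (hp : pl = 16 / 100 * MP_b30479_gtS.G2.M13.τl l.re)
    (S : SU x T k) : False := by
  have a0 := h.s0
  have a1 := h.s1
  have ne := ne_up h z0 hl
  have e := lU_eq hl x T Tl
  have far := farU h t1 hl hp
  rcases S with S | S | S
  · exact finR h z0 ne (by decide) S (P3_lR' e (by decide) (chkD4 r_U_3_0_u0 (by norm_num)
      (le_trans (by norm_num) x0) (le_trans x1 (by norm_num)) (le_trans (by norm_num) T0)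
      (le_trans T1 (by norm_num))
      (le_trans (by norm_num) y0) (le_trans y1 (by norm_num))
      (le_trans (by norm_num) t0) (le_trans t1 (by norm_num))) a0 a1 far)
  · exact finR h z0 ne (by decide) S (P3_lZ' e rfl (chkD4 r_U_3_1_u0 (by norm_num)
      (le_trans (by norm_num) x0) (le_trans x1 (by norm_num)) (le_trans (by norm_num) T0)
      (le_trans T1 (by norm_num))
      (le_trans (by norm_num) y0) (le_trans y1 (by norm_num))
      (le_trans (by norm_num) t0) (le_trans t1 (by norm_num))) a0 a1 far)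
  · exact finR h z0 ne (by decide) S (P3_lR' e (by decide) (chkD4 r_U_3_2_u0 (by norm_num)
      (le_trans (by norm_num) x0) (le_trans x1 (by norm_num)) (le_trans (by norm_num) T0)
      (le_trans T1 (by norm_num))
      (le_trans (by norm_num) y0) (le_trans y1 (by norm_num))
      (le_trans (by norm_num) t0) (le_trans t1 (by norm_num))) a0 a1 far)

theorem cU_u1 (h : H x T Tl pl k l w) (z0 : 63 / 100 ≤ x) (x0 : 63 / 100 ≤ x) (x1 : x ≤ 13 / 20) (T0 : 21 / 1000 ≤ T) (T1 : T ≤ 47 / 500)
    (y0 : 1 / 100 ≤ l.re) (y1 : l.re ≤ 3 / 100) (t0 : -(9 / 100) ≤ Tl) (t1 : Tl ≤ 0)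
    (hl : l.im = 16 / 100 * MP_b30479_gtS.G2.M13.τl l.re)
    (hp : pl = 16 / 100 * MP_b30479_gtS.G2.M13.τl l.re)
    (S : SU x T k) : False := by
  have a0 := h.s0
  have a1 := h.s1
  have ne := ne_up h z0 hl
  have e := lU_eq hl x T Tl
  have far := farU h t1 hl hp
  rcases S with S | S | S
  · exact finR h z0 ne (by decide) S (P3_lR' e (by decide) (chkD4 r_U_3_0_u1 (by norm_num)
      (le_trans (by norm_num) x0) (le_trans x1 (by norm_num)) (le_trans (by norm_num) T0)
      (le_trans T1 (by norm_num))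
      (le_trans (by norm_num) y0) (le_trans y1 (by norm_num))
      (le_trans (by norm_num) t0) (le_trans t1 (by norm_num))) a0 a1 far)
  · exact finR h z0 ne (by decide) S (P3_lZ' e rfl (chkD4 r_U_3_1_u1 (by norm_num)
      (le_trans (by norm_num) x0) (le_trans x1 (by norm_num)) (le_trans (by norm_num) T0)
      (le_trans T1 (by norm_num))
      (le_trans (by norm_num) y0) (le_trans y1 (by norm_num))
      (le_trans (by norm_num) t0) (le_trans t1 (by norm_num))) a0 a1 far)
  · exact finR h z0 ne (by decide) S (P3_lR' e (by decide) (chkD4 r_U_3_2_u1 (by norm_num)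
      (le_trans (by norm_num) x0) (le_trans x1 (by norm_num)) (le_trans (by norm_num) T0)
      (le_trans T1 (by norm_num))
      (le_trans (by norm_num) y0) (le_trans y1 (by norm_num))
      (le_trans (by norm_num) t0) (le_trans t1 (by norm_num))) a0 a1 far)

theorem cU_u2 (h : H x T Tl pl k l w) (z0 : 63 / 100 ≤ x) (x0 : 63 / 100 ≤ x) (x1 : x ≤ 13 / 20) (T0 : 21 / 1000 ≤ T) (T1 : T ≤ 47 / 500)
    (y0 : 3 / 100 ≤ l.re) (y1 : l.re ≤ 1 / 10) (t0 : -(9 / 100) ≤ Tl) (t1 : Tl ≤ 0)
    (hl : l.im = 16 / 100 * MP_b30479_gtS.G2.M13.τl l.re)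
    (hp : pl = 16 / 100 * MP_b30479_gtS.G2.M13.τl l.re)
    (S : SU x T k) : False := by
  have a0 := h.s0
  have a1 := h.s1
  have ne := ne_up h z0 hl
  have e := lU_eq hl x T Tl
  have far := farU h t1 hl hp
  rcases S with S | S | S
  · exact finR h z0 ne (by decide) S (P3_lR' e (by decide) (chkD4 r_U_3_0_u2 (by norm_num)
      (le_trans (by norm_num) x0) (le_trans x1 (by norm_num)) (le_trans (by norm_num) T0)
      (le_trans T1 (by norm_num))
      (le_trans (by norm_num) y0) (le_trans y1 (by norm_num))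
      (le_trans (by norm_num) t0) (le_trans t1 (by norm_num))) a0 a1 far)
  · exact finR h z0 ne (by decide) S (P3_lZ' e rfl (chkD4 r_U_3_1_u2 (by norm_num)
      (le_trans (by norm_num) x0) (le_trans x1 (by norm_num)) (le_trans (by norm_num) T0)
      (le_trans T1 (by norm_num))
      (le_trans (by norm_num) y0) (le_trans y1 (by norm_num))
      (le_trans (by norm_num) t0) (le_trans t1 (by norm_num))) a0 a1 far)
  · exact finR h z0 ne (by decide) S (P3_lR' e (by decide) (chkD4 r_U_3_2_u2 (by norm_num)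
      (le_trans (by norm_num) x0) (le_trans x1 (by norm_num)) (le_trans (by norm_num) T0)
      (le_trans T1 (by norm_num))
      (le_trans (by norm_num) y0) (le_trans y1 (by norm_num))
      (le_trans (by norm_num) t0) (le_trans t1 (by norm_num))) a0 a1 far)

theorem cU_u3 (h : H x T Tl pl k l w) (z0 : 63 / 100 ≤ x) (x0 : 63 / 100 ≤ x) (x1 : x ≤ 13 / 20) (T0 : 21 / 1000 ≤ T) (T1 : T ≤ 47 / 500)
    (y0 : 1 / 10 ≤ l.re) (y1 : l.re ≤ 1 / 2) (t0 : -(9 / 100) ≤ Tl) (t1 : Tl ≤ 0)
    (hl : l.im = 16 / 100 * MP_b30479_gtS.G2.M13.τl l.re)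
    (hp : pl = 16 / 100 * MP_b30479_gtS.G2.M13.τl l.re)
    (S : SU x T k) : False := by
  have a0 := h.s0
  have a1 := h.s1
  have ne := ne_up h z0 hl
  have e := lU_eq hl x T Tl
  have far := farU h t1 hl hp
  rcases S with S | S | S
  · exact finR h z0 ne (by decide) S (P3_lR' e (by decide) (chkD4 r_U_3_0_u3 (by norm_num)
      (le_trans (by norm_num) x0) (le_trans x1 (by norm_num)) (le_trans (by norm_num) T0)
      (le_trans T1 (by norm_num))
      (le_trans (by norm_num) y0) (le_trans y1 (by norm_num))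
      (le_trans (by norm_num) t0) (le_trans t1 (by norm_num))) a0 a1 far)
  · exact finR h z0 ne (by decide) S (P3_lZ' e rfl (chkD4 r_U_3_1_u3 (by norm_num)
      (le_trans (by norm_num) x0) (le_trans x1 (by norm_num)) (le_trans (by norm_num) T0)
      (le_trans T1 (by norm_num))
      (le_trans (by norm_num) y0) (le_trans y1 (by norm_num))
      (le_trans (by norm_num) t0) (le_trans t1 (by norm_num))) a0 a1 far)
  · exact finR h z0 ne (by decide) S (P3_lR' e (by decide) (chkD4 r_U_3_2_u3 (by norm_num)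
      (le_trans (by norm_num) x0) (le_trans x1 (by norm_num)) (le_trans (by norm_num) T0)
      (le_trans T1 (by norm_num))
      (le_trans (by norm_num) y0) (le_trans y1 (by norm_num))
      (le_trans (by norm_num) t0) (le_trans t1 (by norm_num))) a0 a1 far)

theorem cU_u4 (h : H x T Tl pl k l w) (z0 : 63 / 100 ≤ x) (x0 : 63 / 100 ≤ x) (x1 : x ≤ 13 / 20) (T0 : 21 / 1000 ≤ T) (T1 : T ≤ 47 / 500)
    (y0 : 1 / 2 ≤ l.re) (y1 : l.re ≤ 3 / 4) (t0 : -(9 / 100) ≤ Tl) (t1 : Tl ≤ 0)
    (hl : l.im = 16 / 100 * MP_b30479_gtS.G2.M13.τl l.re)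
    (hp : pl = 16 / 100 * MP_b30479_gtS.G2.M13.τl l.re)
    (S : SU x T k) : False := by
  have a0 := h.s0
  have a1 := h.s1
  have ne := ne_up h z0 hl
  have e := lU_eq hl x T Tl
  have far := farU h t1 hl hp
  rcases S with S | S | S
  · exact finR h z0 ne (by decide) S (P3_lR' e (by decide) (chkD4 r_U_3_0_u4 (by norm_num)
      (le_trans (by norm_num) x0) (le_trans x1 (by norm_num)) (le_trans (by norm_num) T0)
      (le_trans T1 (by norm_num))
      (le_trans (by norm_num) y0) (le_trans y1 (by norm_num))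
      (le_trans (by norm_num) t0) (le_trans t1 (by norm_num))) a0 a1 far)
  · exact finR h z0 ne (by decide) S (P3_lZ' e rfl (chkD4 r_U_3_1_u4 (by norm_num)
      (le_trans (by norm_num) x0) (le_trans x1 (by norm_num)) (le_trans (by norm_num) T0)
      (le_trans T1 (by norm_num))
      (le_trans (by norm_num) y0) (le_trans y1 (by norm_num))
      (le_trans (by norm_num) t0) (le_trans t1 (by norm_num))) a0 a1 far)
  · exact finR h z0 ne (by decide) S (P3_lR' e (by decide) (chkD4 r_U_3_2_u4 (by norm_num)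
      (le_trans (by norm_num) x0) (le_trans x1 (by norm_num)) (le_trans (by norm_num) T0)
      (le_trans T1 (by norm_num))
      (le_trans (by norm_num) y0) (le_trans y1 (by norm_num))
      (le_trans (by norm_num) t0) (le_trans t1 (by norm_num))) a0 a1 far)

theorem cU_u5 (h : H x T Tl pl k l w) (z0 : 63 / 100 ≤ x) (x0 : 63 / 100 ≤ x) (x1 : x ≤ 13 / 20) (T0 : 21 / 1000 ≤ T) (T1 : T ≤ 47 / 500)
    (y0 : 3 / 4 ≤ l.re) (y1 : l.re ≤ 77 / 100) (t0 : -(9 / 100) ≤ Tl) (t1 : Tl ≤ 0)
    (hl : l.im = 16 / 100 * MP_b30479_gtS.G2.M13.τl l.re)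
    (hp : pl = 16 / 100 * MP_b30479_gtS.G2.M13.τl l.re)
    (S : SU x T k) : False := by
  have a0 := h.s0
  have a1 := h.s1
  have ne := ne_up h z0 hl
  have e := lU_eq hl x T Tl
  have far := farU h t1 hl hp
  rcases S with S | S | S
  · exact finR h z0 ne (by decide) S (P3_lR' e (by decide) (chkD4 r_U_3_0_u5 (by norm_num)
      (le_trans (by norm_num) x0) (le_trans x1 (by norm_num)) (le_trans (by norm_num) T0)
      (le_trans T1 (by norm_num))
      (le_trans (by norm_num) y0) (le_trans y1 (by norm_num))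
      (le_trans (by norm_num) t0) (le_trans t1 (by norm_num))) a0 a1 far)
  · exact finR h z0 ne (by decide) S (P3_lZ' e rfl (chkD4 r_U_3_1_u5 (by norm_num)
      (le_trans (by norm_num) x0) (le_trans x1 (by norm_num)) (le_trans (by norm_num) T0)
      (le_trans T1 (by norm_num))
      (le_trans (by norm_num) y0) (le_trans y1 (by norm_num))
      (le_trans (by norm_num) t0) (le_trans t1 (by norm_num))) a0 a1 far)
  · exact finR h z0 ne (by decide) S (P3_lR' e (by decide) (chkD4 r_U_3_2_u5 (by norm_num)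
      (le_trans (by norm_num) x0) (le_trans x1 (by norm_num)) (le_trans (by norm_num) T0)
      (le_trans T1 (by norm_num))
      (le_trans (by norm_num) y0) (le_trans y1 (by norm_num))
      (le_trans (by norm_num) t0) (le_trans t1 (by norm_num))) a0 a1 far)

theorem cU_u6 (h : H x T Tl pl k l w) (z0 : 63 / 100 ≤ x) (x0 : 63 / 100 ≤ x) (x1 : x ≤ 13 / 20) (T0 : 21 / 1000 ≤ T) (T1 : T ≤ 47 / 500)
    (y0 : 77 / 100 ≤ l.re) (y1 : l.re ≤ 79 / 100) (t0 : -(9 / 100) ≤ Tl) (t1 : Tl ≤ 0)
    (hl : l.im = 16 / 100 * MP_b30479_gtS.G2.M13.τl l.re)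
    (hp : pl = 16 / 100 * MP_b30479_gtS.G2.M13.τl l.re)
    (S : SU x T k) : False := by
  have a0 := h.s0
  have a1 := h.s1
  have ne := ne_up h z0 hl
  have e := lU_eq hl x T Tl
  have far := farU h t1 hl hp
  rcases S with S | S | S
  · exact finR h z0 ne (by decide) S (P3_lR' e (by decide) (chkD4 r_U_3_0_u6 (by norm_num)
      (le_trans (by norm_num) x0) (le_trans x1 (by norm_num)) (le_trans (by norm_num) T0)
      (le_trans T1 (by norm_num))
      (le_trans (by norm_num) y0) (le_trans y1 (by norm_num))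
      (le_trans (by norm_num) t0) (le_trans t1 (by norm_num))) a0 a1 far)
  · exact finR h z0 ne (by decide) S (P3_lZ' e rfl (chkD4 r_U_3_1_u6 (by norm_num)
      (le_trans (by norm_num) x0) (le_trans x1 (by norm_num)) (le_trans (by norm_num) T0)
      (le_trans T1 (by norm_num))
      (le_trans (by norm_num) y0) (le_trans y1 (by norm_num))
      (le_trans (by norm_num) t0) (le_trans t1 (by norm_num))) a0 a1 far)
  · exact finR h z0 ne (by decide) S (P3_lR' e (by decide) (chkD4 r_U_3_2_u6 (by norm_num)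
      (le_trans (by norm_num) x0) (le_trans x1 (by norm_num)) (le_trans (by norm_num) T0)
      (le_trans T1 (by norm_num))
      (le_trans (by norm_num) y0) (le_trans y1 (by norm_num))
      (le_trans (by norm_num) t0) (le_trans t1 (by norm_num))) a0 a1 far)

theorem cU_u7 (h : H x T Tl pl k l w) (z0 : 63 / 100 ≤ x) (x0 : 63 / 100 ≤ x) (x1 : x ≤ 13 / 20) (T0 : 21 / 1000 ≤ T) (T1 : T ≤ 47 / 500)
    (y0 : 79 / 100 ≤ l.re) (y1 : l.re ≤ 4 / 5) (t0 : -(9 / 100) ≤ Tl) (t1 : Tl ≤ 0)
    (hl : l.im = 16 / 100 * MP_b30479_gtS.G2.M13.τl l.re)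
    (hp : pl = 16 / 100 * MP_b30479_gtS.G2.M13.τl l.re)
    (S : SU x T k) : False := by
  have a0 := h.s0
  have a1 := h.s1
  have ne := ne_up h z0 hl
  have e := lU_eq hl x T Tl
  have far := farU h t1 hl hp
  rcases S with S | S | S
  · exact finR h z0 ne (by decide) S (P3_lR' e (by decide) (chkD4 r_U_3_0_u7 (by norm_num)
      (le_trans (by norm_num) x0) (le_trans x1 (by norm_num)) (le_trans (by norm_num) T0)
      (le_trans T1 (by norm_num))
      (le_trans (by norm_num) y0) (le_trans y1 (by norm_num))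
      (le_trans (by norm_num) t0) (le_trans t1 (by norm_num))) a0 a1 far)
  · exact finR h z0 ne (by decide) S (P3_lZ' e rfl (chkD4 r_U_3_1_u7 (by norm_num)
      (le_trans (by norm_num) x0) (le_trans x1 (by norm_num)) (le_trans (by norm_num) T0)
      (le_trans T1 (by norm_num))
      (le_trans (by norm_num) y0) (le_trans y1 (by norm_num))
      (le_trans (by norm_num) t0) (le_trans t1 (by norm_num))) a0 a1 far)
  · exact finR h z0 ne (by decide) S (P3_lR' e (by decide) (chkD4 r_U_3_2_u7 (by norm_num)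
      (le_trans (by norm_num) x0) (le_trans x1 (by norm_num)) (le_trans (by norm_num) T0)
      (le_trans T1 (by norm_num))
      (le_trans (by norm_num) y0) (le_trans y1 (by norm_num))
      (le_trans (by norm_num) t0) (le_trans t1 (by norm_num))) a0 a1 far)

theorem cU_d8 (h : H x T Tl pl k l w) (z0 : 63 / 100 ≤ x) (x0 : 63 / 100 ≤ x) (x1 : x ≤ 13 / 20) (T0 : 21 / 1000 ≤ T) (T1 : T ≤ 47 / 500)
    (y0 : 0 ≤ l.re) (y1 : l.re ≤ 1 / 100) (t0 : 0 ≤ Tl) (t1 : Tl ≤ 1 / 200)
    (hl : l.im = -(16 / 100 * MP_b30479_gtS.G2.M13.τl l.re))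
    (hp : pl = 16 / 100 * MP_b30479_gtS.G2.M13.τl l.re)
    (S : SU x T k) : False := by
  have a0 := h.s0
  have a1 := h.s1
  have ne := ne_neg h (by rw [hl]; linarith only [τl_nonneg l.re])
  have e := lD_eq hl x T Tl
  have far := farD h t0 hl hp
  rcases S with S | S | S
  · exact finR h z0 ne (by decide) S (P3_lR' e (by decide) (chkD4 r_U_3_0_d8 (by norm_num)
      (le_trans (by norm_num) x0) (le_trans x1 (by norm_num)) (le_trans (by norm_num) T0)
      (le_trans T1 (by norm_num))
      (le_trans (by norm_num) y0) (le_trans y1 (by norm_num))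
      (le_trans (by norm_num) t0) (le_trans t1 (by norm_num))) a0 a1 far)
  · exact finR h z0 ne (by decide) S (P3_lZ' e rfl (chkD4 r_U_3_1_d8 (by norm_num)
      (le_trans (by norm_num) x0) (le_trans x1 (by norm_num)) (le_trans (by norm_num) T0)
      (le_trans T1 (by norm_num))
      (le_trans (by norm_num) y0) (le_trans y1 (by norm_num))
      (le_trans (by norm_num) t0) (le_trans t1 (by norm_num))) a0 a1 far)
  · exact finR h z0 ne (by decide) S (P3_lR' e (by decide) (chkD4 r_U_3_2_d8 (by norm_num)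
      (le_trans (by norm_num) x0) (le_trans x1 (by norm_num)) (le_trans (by norm_num) T0)
      (le_trans T1 (by norm_num))
      (le_trans (by norm_num) y0) (le_trans y1 (by norm_num))
      (le_trans (by norm_num) t0) (le_trans t1 (by norm_num))) a0 a1 far)

theorem cU_d9 (h : H x T Tl pl k l w) (z0 : 63 / 100 ≤ x) (x0 : 63 / 100 ≤ x) (x1 : x ≤ 13 / 20) (T0 : 21 / 1000 ≤ T) (T1 : T ≤ 47 / 500)
    (y0 : 1 / 100 ≤ l.re) (y1 : l.re ≤ 1 / 20) (t0 : 0 ≤ Tl) (t1 : Tl ≤ 1 / 200)
    (hl : l.im = -(16 / 100 * MP_b30479_gtS.G2.M13.τl l.re))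
    (hp : pl = 16 / 100 * MP_b30479_gtS.G2.M13.τl l.re)
    (S : SU x T k) : False := by
  have a0 := h.s0
  have a1 := h.s1
  have ne := ne_neg h (by rw [hl]; linarith only [τl_nonneg l.re])
  have e := lD_eq hl x T Tl
  have far := farD h t0 hl hp
  rcases S with S | S | S
  · exact finR h z0 ne (by decide) S (P3_lR' e (by decide) (chkD4 r_U_3_0_d9 (by norm_num)
      (le_trans (by norm_num) x0) (le_trans x1 (by norm_num)) (le_trans (by norm_num) T0)
      (le_trans T1 (by norm_num))
      (le_trans (by norm_num) y0) (le_trans y1 (by norm_num))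
      (le_trans (by norm_num) t0) (le_trans t1 (by norm_num))) a0 a1 far)
  · exact finR h z0 ne (by decide) S (P3_lZ' e rfl (chkD4 r_U_3_1_d9 (by norm_num)
      (le_trans (by norm_num) x0) (le_trans x1 (by norm_num)) (le_trans (by norm_num) T0)
      (le_trans T1 (by norm_num))
      (le_trans (by norm_num) y0) (le_trans y1 (by norm_num))
      (le_trans (by norm_num) t0) (le_trans t1 (by norm_num))) a0 a1 far)
  · exact finR h z0 ne (by decide) S (P3_lR' e (by decide) (chkD4 r_U_3_2_d9 (by norm_num)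
      (le_trans (by norm_num) x0) (le_trans x1 (by norm_num)) (le_trans (by norm_num) T0)
      (le_trans T1 (by norm_num))
      (le_trans (by norm_num) y0) (le_trans y1 (by norm_num))
      (le_trans (by norm_num) t0) (le_trans t1 (by norm_num))) a0 a1 far)

theorem cU_d10 (h : H x T Tl pl k l w) (z0 : 63 / 100 ≤ x) (x0 : 63 / 100 ≤ x) (x1 : x ≤ 13 / 20) (T0 : 21 / 1000 ≤ T) (T1 : T ≤ 47 / 500)
    (y0 : 1 / 20 ≤ l.re) (y1 : l.re ≤ 1 / 10) (t0 : 0 ≤ Tl) (t1 : Tl ≤ 1 / 200)
    (hl : l.im = -(16 / 100 * MP_b30479_gtS.G2.M13.τl l.re))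
    (hp : pl = 16 / 100 * MP_b30479_gtS.G2.M13.τl l.re)
    (S : SU x T k) : False := by
  have a0 := h.s0
  have a1 := h.s1
  have ne := ne_neg h (by rw [hl]; linarith only [τl_nonneg l.re])
  have e := lD_eq hl x T Tl
  have far := farD h t0 hl hp
  rcases S with S | S | S
  · exact finR h z0 ne (by decide) S (P3_lR' e (by decide) (chkD4 r_U_3_0_d10 (by norm_num)
      (le_trans (by norm_num) x0) (le_trans x1 (by norm_num)) (le_trans (by norm_num) T0)
      (le_trans T1 (by norm_num))
      (le_trans (by norm_num) y0) (le_trans y1 (by norm_num))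
      (le_trans (by norm_num) t0) (le_trans t1 (by norm_num))) a0 a1 far)
  · exact finR h z0 ne (by decide) S (P3_lZ' e rfl (chkD4 r_U_3_1_d10 (by norm_num)
      (le_trans (by norm_num) x0) (le_trans x1 (by norm_num)) (le_trans (by norm_num) T0)
      (le_trans T1 (by norm_num))
      (le_trans (by norm_num) y0) (le_trans y1 (by norm_num))
      (le_trans (by norm_num) t0) (le_trans t1 (by norm_num))) a0 a1 far)
  · exact finR h z0 ne (by decide) S (P3_lR' e (by decide) (chkD4 r_U_3_2_d10 (by norm_num)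
      (le_trans (by norm_num) x0) (le_trans x1 (by norm_num)) (le_trans (by norm_num) T0)
      (le_trans T1 (by norm_num))
      (le_trans (by norm_num) y0) (le_trans y1 (by norm_num))
      (le_trans (by norm_num) t0) (le_trans t1 (by norm_num))) a0 a1 far)

theorem cU_d11 (h : H x T Tl pl k l w) (z0 : 63 / 100 ≤ x) (x0 : 63 / 100 ≤ x) (x1 : x ≤ 13 / 20) (T0 : 21 / 1000 ≤ T) (T1 : T ≤ 47 / 500)
    (y0 : 1 / 10 ≤ l.re) (y1 : l.re ≤ 3 / 4) (t0 : 0 ≤ Tl) (t1 : Tl ≤ 1 / 200)
    (hl : l.im = -(16 / 100 * MP_b30479_gtS.G2.M13.τl l.re))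
    (hp : pl = 16 / 100 * MP_b30479_gtS.G2.M13.τl l.re)
    (S : SU x T k) : False := by
  have a0 := h.s0
  have a1 := h.s1
  have ne := ne_neg h (by rw [hl]; linarith only [τl_nonneg l.re])
  have e := lD_eq hl x T Tl
  have far := farD h t0 hl hp
  rcases S with S | S | S
  · exact finR h z0 ne (by decide) S (P3_lR' e (by decide) (chkD4 r_U_3_0_d11 (by norm_num)
      (le_trans (by norm_num) x0) (le_trans x1 (by norm_num)) (le_trans (by norm_num) T0)
      (le_trans T1 (by norm_num))
      (le_trans (by norm_num) y0) (le_trans y1 (by norm_num))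
      (le_trans (by norm_num) t0) (le_trans t1 (by norm_num))) a0 a1 far)
  · exact finR h z0 ne (by decide) S (P3_lZ' e rfl (chkD4 r_U_3_1_d11 (by norm_num)
      (le_trans (by norm_num) x0) (le_trans x1 (by norm_num)) (le_trans (by norm_num) T0)
      (le_trans T1 (by norm_num))
      (le_trans (by norm_num) y0) (le_trans y1 (by norm_num))
      (le_trans (by norm_num) t0) (le_trans t1 (by norm_num))) a0 a1 far)
  · exact finR h z0 ne (by decide) S (P3_lR' e (by decide) (chkD4 r_U_3_2_d11 (by norm_num)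
      (le_trans (by norm_num) x0) (le_trans x1 (by norm_num)) (le_trans (by norm_num) T0)
      (le_trans T1 (by norm_num))
      (le_trans (by norm_num) y0) (le_trans y1 (by norm_num))
      (le_trans (by norm_num) t0) (le_trans t1 (by norm_num))) a0 a1 far)

theorem cU_d12 (h : H x T Tl pl k l w) (z0 : 63 / 100 ≤ x) (x0 : 63 / 100 ≤ x) (x1 : x ≤ 13 / 20) (T0 : 21 / 1000 ≤ T) (T1 : T ≤ 47 / 500)
    (y0 : 3 / 4 ≤ l.re) (y1 : l.re ≤ 77 / 100) (t0 : 0 ≤ Tl) (t1 : Tl ≤ 1 / 200)
    (hl : l.im = -(16 / 100 * MP_b30479_gtS.G2.M13.τl l.re))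
    (hp : pl = 16 / 100 * MP_b30479_gtS.G2.M13.τl l.re)
    (S : SU x T k) : False := by
  have a0 := h.s0
  have a1 := h.s1
  have ne := ne_neg h (by rw [hl]; linarith only [τl_nonneg l.re])
  have e := lD_eq hl x T Tl
  have far := farD h t0 hl hp
  rcases S with S | S | S
  · exact finR h z0 ne (by decide) S (P3_lR' e (by decide) (chkD4 r_U_3_0_d12 (by norm_num)
      (le_trans (by norm_num) x0) (le_trans x1 (by norm_num)) (le_trans (by norm_num) T0)
      (le_trans T1 (by norm_num))
      (le_trans (by norm_num) y0) (le_trans y1 (by norm_num))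
      (le_trans (by norm_num) t0) (le_trans t1 (by norm_num))) a0 a1 far)
  · exact finR h z0 ne (by decide) S (P3_lZ' e rfl (chkD4 r_U_3_1_d12 (by norm_num)
      (le_trans (by norm_num) x0) (le_trans x1 (by norm_num)) (le_trans (by norm_num) T0)
      (le_trans T1 (by norm_num))
      (le_trans (by norm_num) y0) (le_trans y1 (by norm_num))
      (le_trans (by norm_num) t0) (le_trans t1 (by norm_num))) a0 a1 far)
  · exact finR h z0 ne (by decide) S (P3_lR' e (by decide) (chkD4 r_U_3_2_d12 (by norm_num)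
      (le_trans (by norm_num) x0) (le_trans x1 (by norm_num)) (le_trans (by norm_num) T0)
      (le_trans T1 (by norm_num))
      (le_trans (by norm_num) y0) (le_trans y1 (by norm_num))
      (le_trans (by norm_num) t0) (le_trans t1 (by norm_num))) a0 a1 far)

theorem cU_d13 (h : H x T Tl pl k l w) (z0 : 63 / 100 ≤ x) (x0 : 63 / 100 ≤ x) (x1 : x ≤ 13 / 20) (T0 : 21 / 1000 ≤ T) (T1 : T ≤ 47 / 500)
    (y0 : 77 / 100 ≤ l.re) (y1 : l.re ≤ 79 / 100) (t0 : 0 ≤ Tl) (t1 : Tl ≤ 1 / 200)
    (hl : l.im = -(16 / 100 * MP_b30479_gtS.G2.M13.τl l.re))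
    (hp : pl = 16 / 100 * MP_b30479_gtS.G2.M13.τl l.re)
    (S : SU x T k) : False := by
  have a0 := h.s0
  have a1 := h.s1
  have ne := ne_neg h (by rw [hl]; linarith only [τl_nonneg l.re])
  have e := lD_eq hl x T Tl
  have far := farD h t0 hl hp
  rcases S with S | S | S
  · exact finR h z0 ne (by decide) S (P3_lR' e (by decide) (chkD4 r_U_3_0_d13 (by norm_num)
      (le_trans (by norm_num) x0) (le_trans x1 (by norm_num)) (le_trans (by norm_num) T0)
      (le_trans T1 (by norm_num))
      (le_trans (by norm_num) y0) (le_trans y1 (by norm_num))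
      (le_trans (by norm_num) t0) (le_trans t1 (by norm_num))) a0 a1 far)
  · exact finR h z0 ne (by decide) S (P3_lZ' e rfl (chkD4 r_U_3_1_d13 (by norm_num)
      (le_trans (by norm_num) x0) (le_trans x1 (by norm_num)) (le_trans (by norm_num) T0)
      (le_trans T1 (by norm_num))
      (le_trans (by norm_num) y0) (le_trans y1 (by norm_num))
      (le_trans (by norm_num) t0) (le_trans t1 (by norm_num))) a0 a1 far)
  · exact finR h z0 ne (by decide) S (P3_lR' e (by decide) (chkD4 r_U_3_2_d13 (by norm_num)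
      (le_trans (by norm_num) x0) (le_trans x1 (by norm_num)) (le_trans (by norm_num) T0)
      (le_trans T1 (by norm_num))
      (le_trans (by norm_num) y0) (le_trans y1 (by norm_num))
      (le_trans (by norm_num) t0) (le_trans t1 (by norm_num))) a0 a1 far)

theorem cU_d14 (h : H x T Tl pl k l w) (z0 : 63 / 100 ≤ x) (x0 : 63 / 100 ≤ x) (x1 : x ≤ 13 / 20) (T0 : 21 / 1000 ≤ T) (T1 : T ≤ 47 / 500)
    (y0 : 79 / 100 ≤ l.re) (y1 : l.re ≤ 4 / 5) (t0 : 0 ≤ Tl) (t1 : Tl ≤ 1 / 200)
    (hl : l.im = -(16 / 100 * MP_b30479_gtS.G2.M13.τl l.re))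
    (hp : pl = 16 / 100 * MP_b30479_gtS.G2.M13.τl l.re)
    (S : SU x T k) : False := by
  have a0 := h.s0
  have a1 := h.s1
  have ne := ne_neg h (by rw [hl]; linarith only [τl_nonneg l.re])
  have e := lD_eq hl x T Tl
  have far := farD h t0 hl hp
  rcases S with S | S | S
  · exact finR h z0 ne (by decide) S (P3_lR' e (by decide) (chkD4 r_U_3_0_d14 (by norm_num)
      (le_trans (by norm_num) x0) (le_trans x1 (by norm_num)) (le_trans (by norm_num) T0)
      (le_trans T1 (by norm_num))
      (le_trans (by norm_num) y0) (le_trans y1 (by norm_num))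
      (le_trans (by norm_num) t0) (le_trans t1 (by norm_num))) a0 a1 far)
  · exact finR h z0 ne (by decide) S (P3_lZ' e rfl (chkD4 r_U_3_1_d14 (by norm_num)
      (le_trans (by norm_num) x0) (le_trans x1 (by norm_num)) (le_trans (by norm_num) T0)
      (le_trans T1 (by norm_num))
      (le_trans (by norm_num) y0) (le_trans y1 (by norm_num))
      (le_trans (by norm_num) t0) (le_trans t1 (by norm_num))) a0 a1 far)
  · exact finR h z0 ne (by decide) S (P3_lR' e (by decide) (chkD4 r_U_3_2_d14 (by norm_num)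
      (le_trans (by norm_num) x0) (le_trans x1 (by norm_num)) (le_trans (by norm_num) T0)
      (le_trans T1 (by norm_num))
      (le_trans (by norm_num) y0) (le_trans y1 (by norm_num))
      (le_trans (by norm_num) t0) (le_trans t1 (by norm_num))) a0 a1 far)

theorem cN_m0 (h : H x T Tl pl k l w) (z0 : 63 / 100 ≤ x) (x0 : 63 / 100 ≤ x) (x1 : x ≤ 13 / 20) (T0 : 21 / 1000 ≤ T) (T1 : T ≤ 47 / 500)
    (y0 : 3 / 5 ≤ l.re) (y1 : l.re ≤ 7 / 10) (t0 : -(1 / 100) ≤ Tl) (t1 : Tl ≤ 1 / 200)
    (hl : l.im = Tl * MP_b30479_gtS.G2.M13.τl l.re) (hp : pl = 0)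
    (S : SN x T k) : False := by
  have a0 := h.s0
  have a1 := h.s1
  have e := lM_eq hl x T
  rcases S with S | S
  · exact finY h z0 (by decide) rfl S.1 (P3_lY' e rfl (chkD4 r_N_3_0_m0 (by norm_num)
      (le_trans (by norm_num) x0) (le_trans x1 (by norm_num)) (le_trans (by norm_num) T0)
      (le_trans T1 (by norm_num))
      (le_trans (by norm_num) y0) (le_trans y1 (by norm_num))
      (le_trans (by norm_num) t0) (le_trans t1 (by norm_num))) a0 a1 w)
  · exact finY h z0 (by decide) rfl S.1 (P3_lY' e rfl (chkD4 r_N_3_1_m0 (by norm_num)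
      (le_trans (by norm_num) x0) (le_trans x1 (by norm_num)) (le_trans (by norm_num) T0)
      (le_trans T1 (by norm_num))
      (le_trans (by norm_num) y0) (le_trans y1 (by norm_num))
      (le_trans (by norm_num) t0) (le_trans t1 (by norm_num))) a0 a1 w)

theorem cB1_m0 (h : H x T Tl pl k l w) (z0 : 63 / 100 ≤ x) (x0 : 63 / 100 ≤ x) (x1 : x ≤ 13 / 20) (T0 : 21 / 1000 ≤ T) (T1 : T ≤ 3 / 50)
    (y0 : 0 ≤ l.re) (y1 : l.re ≤ 1 / 50) (t0 : -(9 / 100) ≤ Tl) (t1 : Tl ≤ 1 / 200)
    (hl : l.im = Tl * MP_b30479_gtS.G2.M13.τl l.re) (hp : pl = 0) (ne : l ≠ ⟨x, hh x⟩)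
    (S : SB1 x T k) : False := by
  have a0 := h.s0
  have a1 := h.s1
  have e := lM_eq hl x T
  have far := farM h hl hp
  rcases S with S | S | S
  · exact finR h z0 ne (by decide) S (P3_lR' e (by decide) (chkD4 r_B1_3_0_m0 (by norm_num)
      (le_trans (by norm_num) x0) (le_trans x1 (by norm_num)) (le_trans (by norm_num) T0)
      (le_trans T1 (by norm_num))
      (le_trans (by norm_num) y0) (le_trans y1 (by norm_num))
      (le_trans (by norm_num) t0) (le_trans t1 (by norm_num))) a0 a1 far)
  · exact finR h z0 ne (by decide) S (P3_lZ' e rfl (chkD4 r_B1_3_1_m0 (by norm_num)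
      (le_trans (by norm_num) x0) (le_trans x1 (by norm_num)) (le_trans (by norm_num) T0)
      (le_trans T1 (by norm_num))
      (le_trans (by norm_num) y0) (le_trans y1 (by norm_num))
      (le_trans (by norm_num) t0) (le_trans t1 (by norm_num))) a0 a1 far)
  · exact finR h z0 ne (by decide) S (P3_lR' e (by decide) (chkD4 r_B1_3_2_m0 (by norm_num)
      (le_trans (by norm_num) x0) (le_trans x1 (by norm_num)) (le_trans (by norm_num) T0)
      (le_trans T1 (by norm_num))
      (le_trans (by norm_num) y0) (le_trans y1 (by norm_num))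
      (le_trans (by norm_num) t0) (le_trans t1 (by norm_num))) a0 a1 far)

theorem cB1_m1 (h : H x T Tl pl k l w) (z0 : 63 / 100 ≤ x) (x0 : 63 / 100 ≤ x) (x1 : x ≤ 13 / 20) (T0 : 21 / 1000 ≤ T) (T1 : T ≤ 3 / 50)
    (y0 : 1 / 50 ≤ l.re) (y1 : l.re ≤ 1 / 20) (t0 : -(1 / 25) ≤ Tl) (t1 : Tl ≤ 1 / 200)
    (hl : l.im = Tl * MP_b30479_gtS.G2.M13.τl l.re) (hp : pl = 0) (ne : l ≠ ⟨x, hh x⟩)
    (S : SB1 x T k) : False := by
  have a0 := h.s0
  have a1 := h.s1
  have e := lM_eq hl x T
  have far := farM h hl hp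
  rcases S with S | S | S
  · exact finR h z0 ne (by decide) S (P3_lR' e (by decide) (chkD4 r_B1_3_0_m1 (by norm_num)
      (le_trans (by norm_num) x0) (le_trans x1 (by norm_num)) (le_trans (by norm_num) T0)
      (le_trans T1 (by norm_num))
      (le_trans (by norm_num) y0) (le_trans y1 (by norm_num))
      (le_trans (by norm_num) t0) (le_trans t1 (by norm_num))) a0 a1 far)
  · exact finR h z0 ne (by decide) S (P3_lZ' e rfl (chkD4 r_B1_3_1_m1 (by norm_num)
      (le_trans (by norm_num) x0) (le_trans x1 (by norm_num)) (le_trans (by norm_num) T0)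
      (le_trans T1 (by norm_num))
      (le_trans (by norm_num) y0) (le_trans y1 (by norm_num))
      (le_trans (by norm_num) t0) (le_trans t1 (by norm_num))) a0 a1 far)
  · exact finR h z0 ne (by decide) S (P3_lR' e (by decide) (chkD4 r_B1_3_2_m1 (by norm_num)
      (le_trans (by norm_num) x0) (le_trans x1 (by norm_num)) (le_trans (by norm_num) T0)
      (le_trans T1 (by norm_num))
      (le_trans (by norm_num) y0) (le_trans y1 (by norm_num))
      (le_trans (by norm_num) t0) (le_trans t1 (by norm_num))) a0 a1 far)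

theorem cB1_m2 (h : H x T Tl pl k l w) (z0 : 63 / 100 ≤ x) (x0 : 63 / 100 ≤ x) (x1 : x ≤ 13 / 20) (T0 : 21 / 1000 ≤ T) (T1 : T ≤ 3 / 50)
    (y0 : 1 / 20 ≤ l.re) (y1 : l.re ≤ 3 / 20) (t0 : -(1 / 25) ≤ Tl) (t1 : Tl ≤ 1 / 200)
    (hl : l.im = Tl * MP_b30479_gtS.G2.M13.τl l.re) (hp : pl = 0) (ne : l ≠ ⟨x, hh x⟩)
    (S : SB1 x T k) : False := by
  have a0 := h.s0
  have a1 := h.s1
  have e := lM_eq hl x T
  have far := farM h hl hp
  rcases S with S | S | S
  · exact finR h z0 ne (by decide) S (P3_lR' e (by decide) (chkD4 r_B1_3_0_m2 (by norm_num)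
      (le_trans (by norm_num) x0) (le_trans x1 (by norm_num)) (le_trans (by norm_num) T0)
      (le_trans T1 (by norm_num))
      (le_trans (by norm_num) y0) (le_trans y1 (by norm_num))
      (le_trans (by norm_num) t0) (le_trans t1 (by norm_num))) a0 a1 far)
  · exact finR h z0 ne (by decide) S (P3_lZ' e rfl (chkD4 r_B1_3_1_m2 (by norm_num)
      (le_trans (by norm_num) x0) (le_trans x1 (by norm_num)) (le_trans (by norm_num) T0)
      (le_trans T1 (by norm_num))
      (le_trans (by norm_num) y0) (le_trans y1 (by norm_num))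
      (le_trans (by norm_num) t0) (le_trans t1 (by norm_num))) a0 a1 far)
  · exact finR h z0 ne (by decide) S (P3_lR' e (by decide) (chkD4 r_B1_3_2_m2 (by norm_num)
      (le_trans (by norm_num) x0) (le_trans x1 (by norm_num)) (le_trans (by norm_num) T0)
      (le_trans T1 (by norm_num))
      (le_trans (by norm_num) y0) (le_trans y1 (by norm_num))
      (le_trans (by norm_num) t0) (le_trans t1 (by norm_num))) a0 a1 far)

theorem cB1_m3 (h : H x T Tl pl k l w) (z0 : 63 / 100 ≤ x) (x0 : 63 / 100 ≤ x) (x1 : x ≤ 13 / 20) (T0 : 21 / 1000 ≤ T) (T1 : T ≤ 3 / 50)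
    (y0 : 3 / 20 ≤ l.re) (y1 : l.re ≤ 1 / 2) (t0 : -(9 / 100) ≤ Tl) (t1 : Tl ≤ 1 / 200)
    (hl : l.im = Tl * MP_b30479_gtS.G2.M13.τl l.re) (hp : pl = 0) (ne : l ≠ ⟨x, hh x⟩)
    (S : SB1 x T k) : False := by
  have a0 := h.s0
  have a1 := h.s1
  have e := lM_eq hl x T
  have far := farM h hl hp
  rcases S with S | S | S
  · exact finR h z0 ne (by decide) S (P3_lR' e (by decide) (chkD4 r_B1_3_0_m3 (by norm_num)
      (le_trans (by norm_num) x0) (le_trans x1 (by norm_num)) (le_trans (by norm_num) T0)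
      (le_trans T1 (by norm_num))
      (le_trans (by norm_num) y0) (le_trans y1 (by norm_num))
      (le_trans (by norm_num) t0) (le_trans t1 (by norm_num))) a0 a1 far)
  · exact finR h z0 ne (by decide) S (P3_lZ' e rfl (chkD4 r_B1_3_1_m3 (by norm_num)
      (le_trans (by norm_num) x0) (le_trans x1 (by norm_num)) (le_trans (by norm_num) T0)
      (le_trans T1 (by norm_num))
      (le_trans (by norm_num) y0) (le_trans y1 (by norm_num))
      (le_trans (by norm_num) t0) (le_trans t1 (by norm_num))) a0 a1 far)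
  · exact finR h z0 ne (by decide) S (P3_lR' e (by decide) (chkD4 r_B1_3_2_m3 (by norm_num)
      (le_trans (by norm_num) x0) (le_trans x1 (by norm_num)) (le_trans (by norm_num) T0)
      (le_trans T1 (by norm_num))
      (le_trans (by norm_num) y0) (le_trans y1 (by norm_num))
      (le_trans (by norm_num) t0) (le_trans t1 (by norm_num))) a0 a1 far)

theorem cB2_m0 (h : H x T Tl pl k l w) (z0 : 63 / 100 ≤ x) (x0 : 63 / 100 ≤ x) (x1 : x ≤ 13 / 20) (T0 : 3 / 50 ≤ T) (T1 : T ≤ 47 / 500)
    (y0 : 0 ≤ l.re) (y1 : l.re ≤ 1 / 50) (t0 : -(9 / 100) ≤ Tl) (t1 : Tl ≤ 1 / 200)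
    (hl : l.im = Tl * MP_b30479_gtS.G2.M13.τl l.re) (hp : pl = 0) (ne : l ≠ ⟨x, hh x⟩)
    (S : SB2 x T k) : False := by
  have a0 := h.s0
  have a1 := h.s1
  have e := lM_eq hl x T
  have far := farM h hl hp
  rcases S with S | S | S
  · exact finR h z0 ne (by decide) S (P3_lR' e (by decide) (chkD4 r_B2_3_0_m0 (by norm_num)
      (le_trans (by norm_num) x0) (le_trans x1 (by norm_num)) (le_trans (by norm_num) T0)
      (le_trans T1 (by norm_num))
      (le_trans (by norm_num) y0) (le_trans y1 (by norm_num))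
      (le_trans (by norm_num) t0) (le_trans t1 (by norm_num))) a0 a1 far)
  · exact finR h z0 ne (by decide) S (P3_lR' e (by decide) (chkD4 r_B2_3_1_m0 (by norm_num)
      (le_trans (by norm_num) x0) (le_trans x1 (by norm_num)) (le_trans (by norm_num) T0)
      (le_trans T1 (by norm_num))
      (le_trans (by norm_num) y0) (le_trans y1 (by norm_num))
      (le_trans (by norm_num) t0) (le_trans t1 (by norm_num))) a0 a1 far)
  · exact finR h z0 ne (by decide) S (P3_lZ' e rfl (chkD4 r_B2_3_2_m0 (by norm_num)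
      (le_trans (by norm_num) x0) (le_trans x1 (by norm_num)) (le_trans (by norm_num) T0)
      (le_trans T1 (by norm_num))
      (le_trans (by norm_num) y0) (le_trans y1 (by norm_num))
      (le_trans (by norm_num) t0) (le_trans t1 (by norm_num))) a0 a1 far)

theorem cB2_m1 (h : H x T Tl pl k l w) (z0 : 63 / 100 ≤ x) (x0 : 63 / 100 ≤ x) (x1 : x ≤ 13 / 20) (T0 : 3 / 50 ≤ T) (T1 : T ≤ 47 / 500)
    (y0 : 1 / 50 ≤ l.re) (y1 : l.re ≤ 1 / 20) (t0 : -(1 / 25) ≤ Tl) (t1 : Tl ≤ 1 / 200)
    (hl : l.im = Tl * MP_b30479_gtS.G2.M13.τl l.re) (hp : pl = 0) (ne : l ≠ ⟨x, hh x⟩)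
    (S : SB2 x T k) : False := by
  have a0 := h.s0
  have a1 := h.s1
  have e := lM_eq hl x T
  have far := farM h hl hp
  rcases S with S | S | S
  · exact finR h z0 ne (by decide) S (P3_lR' e (by decide) (chkD4 r_B2_3_0_m1 (by norm_num)
      (le_trans (by norm_num) x0) (le_trans x1 (by norm_num)) (le_trans (by norm_num) T0)
      (le_trans T1 (by norm_num))
      (le_trans (by norm_num) y0) (le_trans y1 (by norm_num))
      (le_trans (by norm_num) t0) (le_trans t1 (by norm_num))) a0 a1 far)
  · exact finR h z0 ne (by decide) S (P3_lR' e (by decide) (chkD4 r_B2_3_1_m1 (by norm_num)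
      (le_trans (by norm_num) x0) (le_trans x1 (by norm_num)) (le_trans (by norm_num) T0)
      (le_trans T1 (by norm_num))
      (le_trans (by norm_num) y0) (le_trans y1 (by norm_num))
      (le_trans (by norm_num) t0) (le_trans t1 (by norm_num))) a0 a1 far)
  · exact finR h z0 ne (by decide) S (P3_lZ' e rfl (chkD4 r_B2_3_2_m1 (by norm_num)
      (le_trans (by norm_num) x0) (le_trans x1 (by norm_num)) (le_trans (by norm_num) T0)
      (le_trans T1 (by norm_num))
      (le_trans (by norm_num) y0) (le_trans y1 (by norm_num))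
      (le_trans (by norm_num) t0) (le_trans t1 (by norm_num))) a0 a1 far)

theorem cB2_m2 (h : H x T Tl pl k l w) (z0 : 63 / 100 ≤ x) (x0 : 63 / 100 ≤ x) (x1 : x ≤ 13 / 20) (T0 : 3 / 50 ≤ T) (T1 : T ≤ 47 / 500)
    (y0 : 1 / 20 ≤ l.re) (y1 : l.re ≤ 3 / 20) (t0 : -(1 / 25) ≤ Tl) (t1 : Tl ≤ 1 / 200)
    (hl : l.im = Tl * MP_b30479_gtS.G2.M13.τl l.re) (hp : pl = 0) (ne : l ≠ ⟨x, hh x⟩)
    (S : SB2 x T k) : False := by
  have a0 := h.s0
  have a1 := h.s1
  have e := lM_eq hl x T
  have far := farM h hl hp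
  rcases S with S | S | S
  · exact finR h z0 ne (by decide) S (P3_lR' e (by decide) (chkD4 r_B2_3_0_m2 (by norm_num)
      (le_trans (by norm_num) x0) (le_trans x1 (by norm_num)) (le_trans (by norm_num) T0)
      (le_trans T1 (by norm_num))
      (le_trans (by norm_num) y0) (le_trans y1 (by norm_num))
      (le_trans (by norm_num) t0) (le_trans t1 (by norm_num))) a0 a1 far)
  · exact finR h z0 ne (by decide) S (P3_lR' e (by decide) (chkD4 r_B2_3_1_m2 (by norm_num)
      (le_trans (by norm_num) x0) (le_trans x1 (by norm_num)) (le_trans (by norm_num) T0)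
      (le_trans T1 (by norm_num))
      (le_trans (by norm_num) y0) (le_trans y1 (by norm_num))
      (le_trans (by norm_num) t0) (le_trans t1 (by norm_num))) a0 a1 far)
  · exact finR h z0 ne (by decide) S (P3_lZ' e rfl (chkD4 r_B2_3_2_m2 (by norm_num)
      (le_trans (by norm_num) x0) (le_trans x1 (by norm_num)) (le_trans (by norm_num) T0)
      (le_trans T1 (by norm_num))
      (le_trans (by norm_num) y0) (le_trans y1 (by norm_num))
      (le_trans (by norm_num) t0) (le_trans t1 (by norm_num))) a0 a1 far)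

theorem cB2_m3 (h : H x T Tl pl k l w) (z0 : 63 / 100 ≤ x) (x0 : 63 / 100 ≤ x) (x1 : x ≤ 13 / 20) (T0 : 3 / 50 ≤ T) (T1 : T ≤ 47 / 500)
    (y0 : 3 / 20 ≤ l.re) (y1 : l.re ≤ 1 / 2) (t0 : -(9 / 100) ≤ Tl) (t1 : Tl ≤ 1 / 200)
    (hl : l.im = Tl * MP_b30479_gtS.G2.M13.τl l.re) (hp : pl = 0) (ne : l ≠ ⟨x, hh x⟩)
    (S : SB2 x T k) : False := by
  have a0 := h.s0
  have a1 := h.s1
  have e := lM_eq hl x T
  have far := farM h hl hp
  rcases S with S | S | S
  · exact finR h z0 ne (by decide) S (P3_lR' e (by decide) (chkD4 r_B2_3_0_m3 (by norm_num)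
      (le_trans (by norm_num) x0) (le_trans x1 (by norm_num)) (le_trans (by norm_num) T0)
      (le_trans T1 (by norm_num))
      (le_trans (by norm_num) y0) (le_trans y1 (by norm_num))
      (le_trans (by norm_num) t0) (le_trans t1 (by norm_num))) a0 a1 far)
  · exact finR h z0 ne (by decide) S (P3_lR' e (by decide) (chkD4 r_B2_3_1_m3 (by norm_num)
      (le_trans (by norm_num) x0) (le_trans x1 (by norm_num)) (le_trans (by norm_num) T0)
      (le_trans T1 (by norm_num))
      (le_trans (by norm_num) y0) (le_trans y1 (by norm_num))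
      (le_trans (by norm_num) t0) (le_trans t1 (by norm_num))) a0 a1 far)
  · exact finR h z0 ne (by decide) S (P3_lZ' e rfl (chkD4 r_B2_3_2_m3 (by norm_num)
      (le_trans (by norm_num) x0) (le_trans x1 (by norm_num)) (le_trans (by norm_num) T0)
      (le_trans T1 (by norm_num))
      (le_trans (by norm_num) y0) (le_trans y1 (by norm_num))
      (le_trans (by norm_num) t0) (le_trans t1 (by norm_num))) a0 a1 far)

theorem cA1_m0 (h : H x T Tl pl k l w) (z0 : 63 / 100 ≤ x) (x0 : 63 / 100 ≤ x) (x1 : x ≤ 13 / 20) (T0 : 21 / 1000 ≤ T) (T1 : T ≤ 9 / 200)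
    (y0 : 1 / 50 ≤ l.re) (y1 : l.re ≤ 1 / 20) (t0 : -(9 / 100) ≤ Tl) (t1 : Tl ≤ -(3 / 40))
    (hl : l.im = Tl * MP_b30479_gtS.G2.M13.τl l.re) (hp : pl = 0) (ne : l ≠ ⟨x, hh x⟩)
    (S : SA1 x T k) : False := by
  have a0 := h.s0
  have a1 := h.s1
  have e := lM_eq hl x T
  have far := farG h hl hp (by linarith only [t0]) (by linarith only [t1]) (by linarith only [y0]) (by linarith only [y1])
  rcases S with S | S | S
  · exact finR h z0 ne (by decide) S (P3_lR' e (by decide) (chkD4 r_A1_3_0_m0 (by norm_num)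
      (le_trans (by norm_num) x0) (le_trans x1 (by norm_num)) (le_trans (by norm_num) T0)
      (le_trans T1 (by norm_num))
      (le_trans (by norm_num) y0) (le_trans y1 (by norm_num))
      (le_trans (by norm_num) t0) (le_trans t1 (by norm_num))) a0 a1 far)
  · exact finR h z0 ne (by decide) S (P3_lR' e (by decide) (chkD4 r_A1_3_1_m0 (by norm_num)
      (le_trans (by norm_num) x0) (le_trans x1 (by norm_num)) (le_trans (by norm_num) T0)
      (le_trans T1 (by norm_num))
      (le_trans (by norm_num) y0) (le_trans y1 (by norm_num))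
      (le_trans (by norm_num) t0) (le_trans t1 (by norm_num))) a0 a1 far)
  · exact finR h z0 ne (by decide) S (P3_lZ' e rfl (chkD4 r_A1_3_2_m0 (by norm_num)
      (le_trans (by norm_num) x0) (le_trans x1 (by norm_num)) (le_trans (by norm_num) T0)
      (le_trans T1 (by norm_num))
      (le_trans (by norm_num) y0) (le_trans y1 (by norm_num))
      (le_trans (by norm_num) t0) (le_trans t1 (by norm_num))) a0 a1 far)

theorem cA1_m1 (h : H x T Tl pl k l w) (z0 : 63 / 100 ≤ x) (x0 : 63 / 100 ≤ x) (x1 : x ≤ 13 / 20) (T0 : 21 / 1000 ≤ T) (T1 : T ≤ 9 / 200)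
    (y0 : 1 / 50 ≤ l.re) (y1 : l.re ≤ 1 / 20) (t0 : -(3 / 40) ≤ Tl) (t1 : Tl ≤ -(3 / 50))
    (hl : l.im = Tl * MP_b30479_gtS.G2.M13.τl l.re) (hp : pl = 0) (ne : l ≠ ⟨x, hh x⟩)
    (S : SA1 x T k) : False := by
  have a0 := h.s0
  have a1 := h.s1
  have e := lM_eq hl x T
  have far := farH h hl hp (by linarith only [t0]) (by linarith only [t1]) (by linarith only [y0]) (by linarith only [y1])
  rcases S with S | S | S
  · exact finR h z0 ne (by decide) S (P3_lR' e (by decide) (chkD4 r_A1_3_0_m1 (by norm_num)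
      (le_trans (by norm_num) x0) (le_trans x1 (by norm_num)) (le_trans (by norm_num) T0)
      (le_trans T1 (by norm_num))
      (le_trans (by norm_num) y0) (le_trans y1 (by norm_num))
      (le_trans (by norm_num) t0) (le_trans t1 (by norm_num))) a0 a1 far)
  · exact finR h z0 ne (by decide) S (P3_lR' e (by decide) (chkD4 r_A1_3_1_m1 (by norm_num)
      (le_trans (by norm_num) x0) (le_trans x1 (by norm_num)) (le_trans (by norm_num) T0)
      (le_trans T1 (by norm_num))
      (le_trans (by norm_num) y0) (le_trans y1 (by norm_num))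
      (le_trans (by norm_num) t0) (le_trans t1 (by norm_num))) a0 a1 far)
  · exact finR h z0 ne (by decide) S (P3_lZ' e rfl (chkD4 r_A1_3_2_m1 (by norm_num)
      (le_trans (by norm_num) x0) (le_trans x1 (by norm_num)) (le_trans (by norm_num) T0)
      (le_trans T1 (by norm_num))
      (le_trans (by norm_num) y0) (le_trans y1 (by norm_num))
      (le_trans (by norm_num) t0) (le_trans t1 (by norm_num))) a0 a1 far)

theorem cA1_m2 (h : H x T Tl pl k l w) (z0 : 63 / 100 ≤ x) (x0 : 63 / 100 ≤ x) (x1 : x ≤ 13 / 20) (T0 : 21 / 1000 ≤ T) (T1 : T ≤ 9 / 200)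
    (y0 : 1 / 50 ≤ l.re) (y1 : l.re ≤ 1 / 20) (t0 : -(3 / 50) ≤ Tl) (t1 : Tl ≤ -(1 / 25))
    (hl : l.im = Tl * MP_b30479_gtS.G2.M13.τl l.re) (hp : pl = 0) (ne : l ≠ ⟨x, hh x⟩)
    (S : SA1 x T k) : False := by
  have a0 := h.s0
  have a1 := h.s1
  have e := lM_eq hl x T
  have far := farK h hl hp (by linarith only [t0]) (by linarith only [t1]) (by linarith only [y0]) (by linarith only [y1])
  rcases S with S | S | S
  · exact finR h z0 ne (by decide) S (P3_lR' e (by decide) (chkD4 r_A1_3_0_m2 (by norm_num)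
      (le_trans (by norm_num) x0) (le_trans x1 (by norm_num)) (le_trans (by norm_num) T0)
      (le_trans T1 (by norm_num))
      (le_trans (by norm_num) y0) (le_trans y1 (by norm_num))
      (le_trans (by norm_num) t0) (le_trans t1 (by norm_num))) a0 a1 far)
  · exact finR h z0 ne (by decide) S (P3_lR' e (by decide) (chkD4 r_A1_3_1_m2 (by norm_num)
      (le_trans (by norm_num) x0) (le_trans x1 (by norm_num)) (le_trans (by norm_num) T0)
      (le_trans T1 (by norm_num))
      (le_trans (by norm_num) y0) (le_trans y1 (by norm_num))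
      (le_trans (by norm_num) t0) (le_trans t1 (by norm_num))) a0 a1 far)
  · exact finR h z0 ne (by decide) S (P3_lZ' e rfl (chkD4 r_A1_3_2_m2 (by norm_num)
      (le_trans (by norm_num) x0) (le_trans x1 (by norm_num)) (le_trans (by norm_num) T0)
      (le_trans T1 (by norm_num))
      (le_trans (by norm_num) y0) (le_trans y1 (by norm_num))
      (le_trans (by norm_num) t0) (le_trans t1 (by norm_num))) a0 a1 far)

theorem cA1_m3 (h : H x T Tl pl k l w) (z0 : 63 / 100 ≤ x) (x0 : 63 / 100 ≤ x) (x1 : x ≤ 13 / 20) (T0 : 21 / 1000 ≤ T) (T1 : T ≤ 9 / 200)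
    (y0 : 1 / 20 ≤ l.re) (y1 : l.re ≤ 3 / 20) (t0 : -(9 / 100) ≤ Tl) (t1 : Tl ≤ -(3 / 40))
    (hl : l.im = Tl * MP_b30479_gtS.G2.M13.τl l.re) (hp : pl = 0) (ne : l ≠ ⟨x, hh x⟩)
    (S : SA1 x T k) : False := by
  have a0 := h.s0
  have a1 := h.s1
  have e := lM_eq hl x T
  have far := farG h hl hp (by linarith only [t0]) (by linarith only [t1]) (by linarith only [y0]) (by linarith only [y1])
  rcases S with S | S | S
  · exact finR h z0 ne (by decide) S (P3_lR' e (by decide) (chkD4 r_A1_3_0_m3 (by norm_num)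
      (le_trans (by norm_num) x0) (le_trans x1 (by norm_num)) (le_trans (by norm_num) T0)
      (le_trans T1 (by norm_num))
      (le_trans (by norm_num) y0) (le_trans y1 (by norm_num))
      (le_trans (by norm_num) t0) (le_trans t1 (by norm_num))) a0 a1 far)
  · exact finR h z0 ne (by decide) S (P3_lR' e (by decide) (chkD4 r_A1_3_1_m3 (by norm_num)
      (le_trans (by norm_num) x0) (le_trans x1 (by norm_num)) (le_trans (by norm_num) T0)
      (le_trans T1 (by norm_num))
      (le_trans (by norm_num) y0) (le_trans y1 (by norm_num))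
      (le_trans (by norm_num) t0) (le_trans t1 (by norm_num))) a0 a1 far)
  · exact finR h z0 ne (by decide) S (P3_lZ' e rfl (chkD4 r_A1_3_2_m3 (by norm_num)
      (le_trans (by norm_num) x0) (le_trans x1 (by norm_num)) (le_trans (by norm_num) T0)
      (le_trans T1 (by norm_num))
      (le_trans (by norm_num) y0) (le_trans y1 (by norm_num))
      (le_trans (by norm_num) t0) (le_trans t1 (by norm_num))) a0 a1 far)

theorem cA1_m4 (h : H x T Tl pl k l w) (z0 : 63 / 100 ≤ x) (x0 : 63 / 100 ≤ x) (x1 : x ≤ 13 / 20) (T0 : 21 / 1000 ≤ T) (T1 : T ≤ 9 / 200)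
    (y0 : 1 / 20 ≤ l.re) (y1 : l.re ≤ 3 / 20) (t0 : -(3 / 40) ≤ Tl) (t1 : Tl ≤ -(3 / 50))
    (hl : l.im = Tl * MP_b30479_gtS.G2.M13.τl l.re) (hp : pl = 0) (ne : l ≠ ⟨x, hh x⟩)
    (S : SA1 x T k) : False := by
  have a0 := h.s0
  have a1 := h.s1
  have e := lM_eq hl x T
  have far := farH h hl hp (by linarith only [t0]) (by linarith only [t1]) (by linarith only [y0]) (by linarith only [y1])
  rcases S with S | S | S
  · exact finR h z0 ne (by decide) S (P3_lR' e (by decide) (chkD4 r_A1_3_0_m4 (by norm_num)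
      (le_trans (by norm_num) x0) (le_trans x1 (by norm_num)) (le_trans (by norm_num) T0)
      (le_trans T1 (by norm_num))
      (le_trans (by norm_num) y0) (le_trans y1 (by norm_num))
      (le_trans (by norm_num) t0) (le_trans t1 (by norm_num))) a0 a1 far)
  · exact finR h z0 ne (by decide) S (P3_lR' e (by decide) (chkD4 r_A1_3_1_m4 (by norm_num)
      (le_trans (by norm_num) x0) (le_trans x1 (by norm_num)) (le_trans (by norm_num) T0)
      (le_trans T1 (by norm_num))
      (le_trans (by norm_num) y0) (le_trans y1 (by norm_num))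
      (le_trans (by norm_num) t0) (le_trans t1 (by norm_num))) a0 a1 far)
  · exact finR h z0 ne (by decide) S (P3_lZ' e rfl (chkD4 r_A1_3_2_m4 (by norm_num)
      (le_trans (by norm_num) x0) (le_trans x1 (by norm_num)) (le_trans (by norm_num) T0)
      (le_trans T1 (by norm_num))
      (le_trans (by norm_num) y0) (le_trans y1 (by norm_num))
      (le_trans (by norm_num) t0) (le_trans t1 (by norm_num))) a0 a1 far)

theorem cA1_m5 (h : H x T Tl pl k l w) (z0 : 63 / 100 ≤ x) (x0 : 63 / 100 ≤ x) (x1 : x ≤ 13 / 20) (T0 : 21 / 1000 ≤ T) (T1 : T ≤ 9 / 200)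
    (y0 : 1 / 20 ≤ l.re) (y1 : l.re ≤ 3 / 20) (t0 : -(3 / 50) ≤ Tl) (t1 : Tl ≤ -(1 / 25))
    (hl : l.im = Tl * MP_b30479_gtS.G2.M13.τl l.re) (hp : pl = 0) (ne : l ≠ ⟨x, hh x⟩)
    (S : SA1 x T k) : False := by
  have a0 := h.s0
  have a1 := h.s1
  have e := lM_eq hl x T
  have far := farK h hl hp (by linarith only [t0]) (by linarith only [t1]) (by linarith only [y0]) (by linarith only [y1])
  rcases S with S | S | S
  · exact finR h z0 ne (by decide) S (P3_lR' e (by decide) (chkD4 r_A1_3_0_m5 (by norm_num)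
      (le_trans (by norm_num) x0) (le_trans x1 (by norm_num)) (le_trans (by norm_num) T0)
      (le_trans T1 (by norm_num))
      (le_trans (by norm_num) y0) (le_trans y1 (by norm_num))
      (le_trans (by norm_num) t0) (le_trans t1 (by norm_num))) a0 a1 far)
  · exact finR h z0 ne (by decide) S (P3_lR' e (by decide) (chkD4 r_A1_3_1_m5 (by norm_num)
      (le_trans (by norm_num) x0) (le_trans x1 (by norm_num)) (le_trans (by norm_num) T0)
      (le_trans T1 (by norm_num))
      (le_trans (by norm_num) y0) (le_trans y1 (by norm_num))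
      (le_trans (by norm_num) t0) (le_trans t1 (by norm_num))) a0 a1 far)
  · exact finR h z0 ne (by decide) S (P3_lZ' e rfl (chkD4 r_A1_3_2_m5 (by norm_num)
      (le_trans (by norm_num) x0) (le_trans x1 (by norm_num)) (le_trans (by norm_num) T0)
      (le_trans T1 (by norm_num))
      (le_trans (by norm_num) y0) (le_trans y1 (by norm_num))
      (le_trans (by norm_num) t0) (le_trans t1 (by norm_num))) a0 a1 far)

theorem cA2_m0 (h : H x T Tl pl k l w) (z0 : 63 / 100 ≤ x) (x0 : 63 / 100 ≤ x) (x1 : x ≤ 13 / 20) (T0 : 9 / 200 ≤ T) (T1 : T ≤ 3 / 50)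
    (y0 : 1 / 50 ≤ l.re) (y1 : l.re ≤ 1 / 20) (t0 : -(9 / 100) ≤ Tl) (t1 : Tl ≤ -(3 / 40))
    (hl : l.im = Tl * MP_b30479_gtS.G2.M13.τl l.re) (hp : pl = 0) (ne : l ≠ ⟨x, hh x⟩)
    (S : SA2 x T k) : False := by
  have a0 := h.s0
  have a1 := h.s1
  have e := lM_eq hl x T
  have far := farG h hl hp (by linarith only [t0]) (by linarith only [t1]) (by linarith only [y0]) (by linarith only [y1])
  rcases S with S | S | S
  · exact finR h z0 ne (by decide) S (P3_lR' e (by decide) (chkD4 r_A2_3_0_m0 (by norm_num)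
      (le_trans (by norm_num) x0) (le_trans x1 (by norm_num)) (le_trans (by norm_num) T0)
      (le_trans T1 (by norm_num))
      (le_trans (by norm_num) y0) (le_trans y1 (by norm_num))
      (le_trans (by norm_num) t0) (le_trans t1 (by norm_num))) a0 a1 far)
  · exact finR h z0 ne (by decide) S (P3_lZ' e rfl (chkD4 r_A2_3_1_m0 (by norm_num)
      (le_trans (by norm_num) x0) (le_trans x1 (by norm_num)) (le_trans (by norm_num) T0)
      (le_trans T1 (by norm_num))
      (le_trans (by norm_num) y0) (le_trans y1 (by norm_num))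
      (le_trans (by norm_num) t0) (le_trans t1 (by norm_num))) a0 a1 far)
  · exact finR h z0 ne (by decide) S (P3_lR' e (by decide) (chkD4 r_A2_3_2_m0 (by norm_num)
      (le_trans (by norm_num) x0) (le_trans x1 (by norm_num)) (le_trans (by norm_num) T0)
      (le_trans T1 (by norm_num))
      (le_trans (by norm_num) y0) (le_trans y1 (by norm_num))
      (le_trans (by norm_num) t0) (le_trans t1 (by norm_num))) a0 a1 far)

theorem cA2_m1 (h : H x T Tl pl k l w) (z0 : 63 / 100 ≤ x) (x0 : 63 / 100 ≤ x) (x1 : x ≤ 13 / 20) (T0 : 9 / 200 ≤ T) (T1 : T ≤ 3 / 50)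
    (y0 : 1 / 50 ≤ l.re) (y1 : l.re ≤ 1 / 20) (t0 : -(3 / 40) ≤ Tl) (t1 : Tl ≤ -(3 / 50))
    (hl : l.im = Tl * MP_b30479_gtS.G2.M13.τl l.re) (hp : pl = 0) (ne : l ≠ ⟨x, hh x⟩)
    (S : SA2 x T k) : False := by
  have a0 := h.s0
  have a1 := h.s1
  have e := lM_eq hl x T
  have far := farH h hl hp (by linarith only [t0]) (by linarith only [t1]) (by linarith only [y0]) (by linarith only [y1])
  rcases S with S | S | S
  · exact finR h z0 ne (by decide) S (P3_lR' e (by decide) (chkD4 r_A2_3_0_m1 (by norm_num)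
      (le_trans (by norm_num) x0) (le_trans x1 (by norm_num)) (le_trans (by norm_num) T0)
      (le_trans T1 (by norm_num))
      (le_trans (by norm_num) y0) (le_trans y1 (by norm_num))
      (le_trans (by norm_num) t0) (le_trans t1 (by norm_num))) a0 a1 far)
  · exact finR h z0 ne (by decide) S (P3_lZ' e rfl (chkD4 r_A2_3_1_m1 (by norm_num)
      (le_trans (by norm_num) x0) (le_trans x1 (by norm_num)) (le_trans (by norm_num) T0)
      (le_trans T1 (by norm_num))
      (le_trans (by norm_num) y0) (le_trans y1 (by norm_num))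
      (le_trans (by norm_num) t0) (le_trans t1 (by norm_num))) a0 a1 far)
  · exact finR h z0 ne (by decide) S (P3_lR' e (by decide) (chkD4 r_A2_3_2_m1 (by norm_num)
      (le_trans (by norm_num) x0) (le_trans x1 (by norm_num)) (le_trans (by norm_num) T0)
      (le_trans T1 (by norm_num))
      (le_trans (by norm_num) y0) (le_trans y1 (by norm_num))
      (le_trans (by norm_num) t0) (le_trans t1 (by norm_num))) a0 a1 far)

theorem cA2_m2 (h : H x T Tl pl k l w) (z0 : 63 / 100 ≤ x) (x0 : 63 / 100 ≤ x) (x1 : x ≤ 13 / 20) (T0 : 9 / 200 ≤ T) (T1 : T ≤ 3 / 50)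
    (y0 : 1 / 50 ≤ l.re) (y1 : l.re ≤ 1 / 20) (t0 : -(3 / 50) ≤ Tl) (t1 : Tl ≤ -(1 / 25))
    (hl : l.im = Tl * MP_b30479_gtS.G2.M13.τl l.re) (hp : pl = 0) (ne : l ≠ ⟨x, hh x⟩)
    (S : SA2 x T k) : False := by
  have a0 := h.s0
  have a1 := h.s1
  have e := lM_eq hl x T
  have far := farK h hl hp (by linarith only [t0]) (by linarith only [t1]) (by linarith only [y0]) (by linarith only [y1])
  rcases S with S | S | S
  · exact finR h z0 ne (by decide) S (P3_lR' e (by decide) (chkD4 r_A2_3_0_m2 (by norm_num)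
      (le_trans (by norm_num) x0) (le_trans x1 (by norm_num)) (le_trans (by norm_num) T0)
      (le_trans T1 (by norm_num))
      (le_trans (by norm_num) y0) (le_trans y1 (by norm_num))
      (le_trans (by norm_num) t0) (le_trans t1 (by norm_num))) a0 a1 far)
  · exact finR h z0 ne (by decide) S (P3_lZ' e rfl (chkD4 r_A2_3_1_m2 (by norm_num)
      (le_trans (by norm_num) x0) (le_trans x1 (by norm_num)) (le_trans (by norm_num) T0)
      (le_trans T1 (by norm_num))
      (le_trans (by norm_num) y0) (le_trans y1 (by norm_num))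
      (le_trans (by norm_num) t0) (le_trans t1 (by norm_num))) a0 a1 far)
  · exact finR h z0 ne (by decide) S (P3_lR' e (by decide) (chkD4 r_A2_3_2_m2 (by norm_num)
      (le_trans (by norm_num) x0) (le_trans x1 (by norm_num)) (le_trans (by norm_num) T0)
      (le_trans T1 (by norm_num))
      (le_trans (by norm_num) y0) (le_trans y1 (by norm_num))
      (le_trans (by norm_num) t0) (le_trans t1 (by norm_num))) a0 a1 far)

theorem cA2_m3 (h : H x T Tl pl k l w) (z0 : 63 / 100 ≤ x) (x0 : 63 / 100 ≤ x) (x1 : x ≤ 13 / 20) (T0 : 9 / 200 ≤ T) (T1 : T ≤ 3 / 50)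
    (y0 : 1 / 20 ≤ l.re) (y1 : l.re ≤ 3 / 20) (t0 : -(9 / 100) ≤ Tl) (t1 : Tl ≤ -(3 / 40))
    (hl : l.im = Tl * MP_b30479_gtS.G2.M13.τl l.re) (hp : pl = 0) (ne : l ≠ ⟨x, hh x⟩)
    (S : SA2 x T k) : False := by
  have a0 := h.s0
  have a1 := h.s1
  have e := lM_eq hl x T
  have far := farG h hl hp (by linarith only [t0]) (by linarith only [t1]) (by linarith only [y0]) (by linarith only [y1])
  rcases S with S | S | S
  · exact finR h z0 ne (by decide) S (P3_lR' e (by decide) (chkD4 r_A2_3_0_m3 (by norm_num)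
      (le_trans (by norm_num) x0) (le_trans x1 (by norm_num)) (le_trans (by norm_num) T0)
      (le_trans T1 (by norm_num))
      (le_trans (by norm_num) y0) (le_trans y1 (by norm_num))
      (le_trans (by norm_num) t0) (le_trans t1 (by norm_num))) a0 a1 far)
  · exact finR h z0 ne (by decide) S (P3_lZ' e rfl (chkD4 r_A2_3_1_m3 (by norm_num)
      (le_trans (by norm_num) x0) (le_trans x1 (by norm_num)) (le_trans (by norm_num) T0)
      (le_trans T1 (by norm_num))
      (le_trans (by norm_num) y0) (le_trans y1 (by norm_num))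
      (le_trans (by norm_num) t0) (le_trans t1 (by norm_num))) a0 a1 far)
  · exact finR h z0 ne (by decide) S (P3_lR' e (by decide) (chkD4 r_A2_3_2_m3 (by norm_num)
      (le_trans (by norm_num) x0) (le_trans x1 (by norm_num)) (le_trans (by norm_num) T0)
      (le_trans T1 (by norm_num))
      (le_trans (by norm_num) y0) (le_trans y1 (by norm_num))
      (le_trans (by norm_num) t0) (le_trans t1 (by norm_num))) a0 a1 far)

theorem cA2_m4 (h : H x T Tl pl k l w) (z0 : 63 / 100 ≤ x) (x0 : 63 / 100 ≤ x) (x1 : x ≤ 13 / 20) (T0 : 9 / 200 ≤ T) (T1 : T ≤ 3 / 50)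
    (y0 : 1 / 20 ≤ l.re) (y1 : l.re ≤ 3 / 20) (t0 : -(3 / 40) ≤ Tl) (t1 : Tl ≤ -(3 / 50))
    (hl : l.im = Tl * MP_b30479_gtS.G2.M13.τl l.re) (hp : pl = 0) (ne : l ≠ ⟨x, hh x⟩)
    (S : SA2 x T k) : False := by
  have a0 := h.s0
  have a1 := h.s1
  have e := lM_eq hl x T
  have far := farH h hl hp (by linarith only [t0]) (by linarith only [t1]) (by linarith only [y0]) (by linarith only [y1])
  rcases S with S | S | S
  · exact finR h z0 ne (by decide) S (P3_lR' e (by decide) (chkD4 r_A2_3_0_m4 (by norm_num)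
      (le_trans (by norm_num) x0) (le_trans x1 (by norm_num)) (le_trans (by norm_num) T0)
      (le_trans T1 (by norm_num))
      (le_trans (by norm_num) y0) (le_trans y1 (by norm_num))
      (le_trans (by norm_num) t0) (le_trans t1 (by norm_num))) a0 a1 far)
  · exact finR h z0 ne (by decide) S (P3_lZ' e rfl (chkD4 r_A2_3_1_m4 (by norm_num)
      (le_trans (by norm_num) x0) (le_trans x1 (by norm_num)) (le_trans (by norm_num) T0)
      (le_trans T1 (by norm_num))
      (le_trans (by norm_num) y0) (le_trans y1 (by norm_num))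
      (le_trans (by norm_num) t0) (le_trans t1 (by norm_num))) a0 a1 far)
  · exact finR h z0 ne (by decide) S (P3_lR' e (by decide) (chkD4 r_A2_3_2_m4 (by norm_num)
      (le_trans (by norm_num) x0) (le_trans x1 (by norm_num)) (le_trans (by norm_num) T0)
      (le_trans T1 (by norm_num))
      (le_trans (by norm_num) y0) (le_trans y1 (by norm_num))
      (le_trans (by norm_num) t0) (le_trans t1 (by norm_num))) a0 a1 far)

theorem cA2_m5 (h : H x T Tl pl k l w) (z0 : 63 / 100 ≤ x) (x0 : 63 / 100 ≤ x) (x1 : x ≤ 13 / 20) (T0 : 9 / 200 ≤ T) (T1 : T ≤ 3 / 50)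
    (y0 : 1 / 20 ≤ l.re) (y1 : l.re ≤ 3 / 20) (t0 : -(3 / 50) ≤ Tl) (t1 : Tl ≤ -(1 / 25))
    (hl : l.im = Tl * MP_b30479_gtS.G2.M13.τl l.re) (hp : pl = 0) (ne : l ≠ ⟨x, hh x⟩)
    (S : SA2 x T k) : False := by
  have a0 := h.s0
  have a1 := h.s1
  have e := lM_eq hl x T
  have far := farK h hl hp (by linarith only [t0]) (by linarith only [t1]) (by linarith only [y0]) (by linarith only [y1])
  rcases S with S | S | S
  · exact finR h z0 ne (by decide) S (P3_lR' e (by decide) (chkD4 r_A2_3_0_m5 (by norm_num)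
      (le_trans (by norm_num) x0) (le_trans x1 (by norm_num)) (le_trans (by norm_num) T0)
      (le_trans T1 (by norm_num))
      (le_trans (by norm_num) y0) (le_trans y1 (by norm_num))
      (le_trans (by norm_num) t0) (le_trans t1 (by norm_num))) a0 a1 far)
  · exact finR h z0 ne (by decide) S (P3_lZ' e rfl (chkD4 r_A2_3_1_m5 (by norm_num)
      (le_trans (by norm_num) x0) (le_trans x1 (by norm_num)) (le_trans (by norm_num) T0)
      (le_trans T1 (by norm_num))
      (le_trans (by norm_num) y0) (le_trans y1 (by norm_num))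
      (le_trans (by norm_num) t0) (le_trans t1 (by norm_num))) a0 a1 far)
  · exact finR h z0 ne (by decide) S (P3_lR' e (by decide) (chkD4 r_A2_3_2_m5 (by norm_num)
      (le_trans (by norm_num) x0) (le_trans x1 (by norm_num)) (le_trans (by norm_num) T0)
      (le_trans T1 (by norm_num))
      (le_trans (by norm_num) y0) (le_trans y1 (by norm_num))
      (le_trans (by norm_num) t0) (le_trans t1 (by norm_num))) a0 a1 far)

theorem cA3_m0 (h : H x T Tl pl k l w) (z0 : 63 / 100 ≤ x) (x0 : 63 / 100 ≤ x) (x1 : x ≤ 16 / 25) (T0 : 3 / 50 ≤ T) (T1 : T ≤ 2 / 25)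
    (y0 : 1 / 50 ≤ l.re) (y1 : l.re ≤ 1 / 20) (t0 : -(9 / 100) ≤ Tl) (t1 : Tl ≤ -(3 / 40))
    (hl : l.im = Tl * MP_b30479_gtS.G2.M13.τl l.re) (hp : pl = 0) (ne : l ≠ ⟨x, hh x⟩)
    (S : SA3 x T k) : False := by
  have a0 := h.s0
  have a1 := h.s1
  have e := lM_eq hl x T
  have far := farG h hl hp (by linarith only [t0]) (by linarith only [t1]) (by linarith only [y0]) (by linarith only [y1])
  rcases S with S | S
  · exact finR h z0 ne (by decide) S (P3_lR' e (by decide) (chkD4 r_A3_3_0_m0 (by norm_num)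
      (le_trans (by norm_num) x0) (le_trans x1 (by norm_num)) (le_trans (by norm_num) T0)
      (le_trans T1 (by norm_num))
      (le_trans (by norm_num) y0) (le_trans y1 (by norm_num))
      (le_trans (by norm_num) t0) (le_trans t1 (by norm_num))) a0 a1 far)
  · exact finR h z0 ne (by decide) S (P3_lZ' e rfl (chkD4 r_A3_3_1_m0 (by norm_num)
      (le_trans (by norm_num) x0) (le_trans x1 (by norm_num)) (le_trans (by norm_num) T0)
      (le_trans T1 (by norm_num))
      (le_trans (by norm_num) y0) (le_trans y1 (by norm_num))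
      (le_trans (by norm_num) t0) (le_trans t1 (by norm_num))) a0 a1 far)

theorem cA3_m1 (h : H x T Tl pl k l w) (z0 : 63 / 100 ≤ x) (x0 : 63 / 100 ≤ x) (x1 : x ≤ 16 / 25) (T0 : 3 / 50 ≤ T) (T1 : T ≤ 2 / 25)
    (y0 : 1 / 50 ≤ l.re) (y1 : l.re ≤ 1 / 20) (t0 : -(3 / 40) ≤ Tl) (t1 : Tl ≤ -(3 / 50))
    (hl : l.im = Tl * MP_b30479_gtS.G2.M13.τl l.re) (hp : pl = 0) (ne : l ≠ ⟨x, hh x⟩)
    (S : SA3 x T k) : False := by
  have a0 := h.s0
  have a1 := h.s1
  have e := lM_eq hl x T
  have far := farH h hl hp (by linarith only [t0]) (by linarith only [t1]) (by linarith only [y0]) (by linarith only [y1])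
  rcases S with S | S
  · exact finR h z0 ne (by decide) S (P3_lR' e (by decide) (chkD4 r_A3_3_0_m1 (by norm_num)
      (le_trans (by norm_num) x0) (le_trans x1 (by norm_num)) (le_trans (by norm_num) T0)
      (le_trans T1 (by norm_num))
      (le_trans (by norm_num) y0) (le_trans y1 (by norm_num))
      (le_trans (by norm_num) t0) (le_trans t1 (by norm_num))) a0 a1 far)
  · exact finR h z0 ne (by decide) S (P3_lZ' e rfl (chkD4 r_A3_3_1_m1 (by norm_num)
      (le_trans (by norm_num) x0) (le_trans x1 (by norm_num)) (le_trans (by norm_num) T0)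
      (le_trans T1 (by norm_num))
      (le_trans (by norm_num) y0) (le_trans y1 (by norm_num))
      (le_trans (by norm_num) t0) (le_trans t1 (by norm_num))) a0 a1 far)

theorem cA3_m2 (h : H x T Tl pl k l w) (z0 : 63 / 100 ≤ x) (x0 : 63 / 100 ≤ x) (x1 : x ≤ 16 / 25) (T0 : 3 / 50 ≤ T) (T1 : T ≤ 2 / 25)
    (y0 : 1 / 50 ≤ l.re) (y1 : l.re ≤ 1 / 20) (t0 : -(3 / 50) ≤ Tl) (t1 : Tl ≤ -(1 / 25))
    (hl : l.im = Tl * MP_b30479_gtS.G2.M13.τl l.re) (hp : pl = 0) (ne : l ≠ ⟨x, hh x⟩)
    (S : SA3 x T k) : False := by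
  have a0 := h.s0
  have a1 := h.s1
  have e := lM_eq hl x T
  have far := farK h hl hp (by linarith only [t0]) (by linarith only [t1]) (by linarith only [y0]) (by linarith only [y1])
  rcases S with S | S
  · exact finR h z0 ne (by decide) S (P3_lR' e (by decide) (chkD4 r_A3_3_0_m2 (by norm_num)
      (le_trans (by norm_num) x0) (le_trans x1 (by norm_num)) (le_trans (by norm_num) T0)
      (le_trans T1 (by norm_num))
      (le_trans (by norm_num) y0) (le_trans y1 (by norm_num))
      (le_trans (by norm_num) t0) (le_trans t1 (by norm_num))) a0 a1 far)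
  · exact finR h z0 ne (by decide) S (P3_lZ' e rfl (chkD4 r_A3_3_1_m2 (by norm_num)
      (le_trans (by norm_num) x0) (le_trans x1 (by norm_num)) (le_trans (by norm_num) T0)
      (le_trans T1 (by norm_num))
      (le_trans (by norm_num) y0) (le_trans y1 (by norm_num))
      (le_trans (by norm_num) t0) (le_trans t1 (by norm_num))) a0 a1 far)

theorem cA3_m3 (h : H x T Tl pl k l w) (z0 : 63 / 100 ≤ x) (x0 : 63 / 100 ≤ x) (x1 : x ≤ 16 / 25) (T0 : 3 / 50 ≤ T) (T1 : T ≤ 2 / 25)
    (y0 : 1 / 20 ≤ l.re) (y1 : l.re ≤ 3 / 20) (t0 : -(9 / 100) ≤ Tl) (t1 : Tl ≤ -(3 / 40))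
    (hl : l.im = Tl * MP_b30479_gtS.G2.M13.τl l.re) (hp : pl = 0) (ne : l ≠ ⟨x, hh x⟩)
    (S : SA3 x T k) : False := by
  have a0 := h.s0
  have a1 := h.s1
  have e := lM_eq hl x T
  have far := farG h hl hp (by linarith only [t0]) (by linarith only [t1]) (by linarith only [y0]) (by linarith only [y1])
  rcases S with S | S
  · exact finR h z0 ne (by decide) S (P3_lR' e (by decide) (chkD4 r_A3_3_0_m3 (by norm_num)
      (le_trans (by norm_num) x0) (le_trans x1 (by norm_num)) (le_trans (by norm_num) T0)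
      (le_trans T1 (by norm_num))
      (le_trans (by norm_num) y0) (le_trans y1 (by norm_num))
      (le_trans (by norm_num) t0) (le_trans t1 (by norm_num))) a0 a1 far)
  · exact finR h z0 ne (by decide) S (P3_lZ' e rfl (chkD4 r_A3_3_1_m3 (by norm_num)
      (le_trans (by norm_num) x0) (le_trans x1 (by norm_num)) (le_trans (by norm_num) T0)
      (le_trans T1 (by norm_num))
      (le_trans (by norm_num) y0) (le_trans y1 (by norm_num))
      (le_trans (by norm_num) t0) (le_trans t1 (by norm_num))) a0 a1 far)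

theorem cA3_m4 (h : H x T Tl pl k l w) (z0 : 63 / 100 ≤ x) (x0 : 63 / 100 ≤ x) (x1 : x ≤ 16 / 25) (T0 : 3 / 50 ≤ T) (T1 : T ≤ 2 / 25)
    (y0 : 1 / 20 ≤ l.re) (y1 : l.re ≤ 3 / 20) (t0 : -(3 / 40) ≤ Tl) (t1 : Tl ≤ -(3 / 50))
    (hl : l.im = Tl * MP_b30479_gtS.G2.M13.τl l.re) (hp : pl = 0) (ne : l ≠ ⟨x, hh x⟩)
    (S : SA3 x T k) : False := by
  have a0 := h.s0
  have a1 := h.s1
  have e := lM_eq hl x T
  have far := farH h hl hp (by linarith only [t0]) (by linarith only [t1]) (by linarith only [y0]) (by linarith only [y1])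
  rcases S with S | S
  · exact finR h z0 ne (by decide) S (P3_lR' e (by decide) (chkD4 r_A3_3_0_m4 (by norm_num)
      (le_trans (by norm_num) x0) (le_trans x1 (by norm_num)) (le_trans (by norm_num) T0)
      (le_trans T1 (by norm_num))
      (le_trans (by norm_num) y0) (le_trans y1 (by norm_num))
      (le_trans (by norm_num) t0) (le_trans t1 (by norm_num))) a0 a1 far)
  · exact finR h z0 ne (by decide) S (P3_lZ' e rfl (chkD4 r_A3_3_1_m4 (by norm_num)
      (le_trans (by norm_num) x0) (le_trans x1 (by norm_num)) (le_trans (by norm_num) T0)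
      (le_trans T1 (by norm_num))
      (le_trans (by norm_num) y0) (le_trans y1 (by norm_num))
      (le_trans (by norm_num) t0) (le_trans t1 (by norm_num))) a0 a1 far)

theorem cA3_m5 (h : H x T Tl pl k l w) (z0 : 63 / 100 ≤ x) (x0 : 63 / 100 ≤ x) (x1 : x ≤ 16 / 25) (T0 : 3 / 50 ≤ T) (T1 : T ≤ 2 / 25)
    (y0 : 1 / 20 ≤ l.re) (y1 : l.re ≤ 3 / 20) (t0 : -(3 / 50) ≤ Tl) (t1 : Tl ≤ -(1 / 25))
    (hl : l.im = Tl * MP_b30479_gtS.G2.M13.τl l.re) (hp : pl = 0) (ne : l ≠ ⟨x, hh x⟩)
    (S : SA3 x T k) : False := by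
  have a0 := h.s0
  have a1 := h.s1
  have e := lM_eq hl x T
  have far := farK h hl hp (by linarith only [t0]) (by linarith only [t1]) (by linarith only [y0]) (by linarith only [y1])
  rcases S with S | S
  · exact finR h z0 ne (by decide) S (P3_lR' e (by decide) (chkD4 r_A3_3_0_m5 (by norm_num)
      (le_trans (by norm_num) x0) (le_trans x1 (by norm_num)) (le_trans (by norm_num) T0)
      (le_trans T1 (by norm_num))
      (le_trans (by norm_num) y0) (le_trans y1 (by norm_num))
      (le_trans (by norm_num) t0) (le_trans t1 (by norm_num))) a0 a1 far)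
  · exact finR h z0 ne (by decide) S (P3_lZ' e rfl (chkD4 r_A3_3_1_m5 (by norm_num)
      (le_trans (by norm_num) x0) (le_trans x1 (by norm_num)) (le_trans (by norm_num) T0)
      (le_trans T1 (by norm_num))
      (le_trans (by norm_num) y0) (le_trans y1 (by norm_num))
      (le_trans (by norm_num) t0) (le_trans t1 (by norm_num))) a0 a1 far)

theorem cA4_m0 (h : H x T Tl pl k l w) (z0 : 63 / 100 ≤ x) (x0 : 16 / 25 ≤ x) (x1 : x ≤ 13 / 20) (T0 : 3 / 50 ≤ T) (T1 : T ≤ 2 / 25)
    (y0 : 1 / 50 ≤ l.re) (y1 : l.re ≤ 1 / 20) (t0 : -(9 / 100) ≤ Tl) (t1 : Tl ≤ -(3 / 40))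
    (hl : l.im = Tl * MP_b30479_gtS.G2.M13.τl l.re) (hp : pl = 0) (ne : l ≠ ⟨x, hh x⟩)
    (S : SA4 x T k) : False := by
  have a0 := h.s0
  have a1 := h.s1
  have e := lM_eq hl x T
  have far := farG h hl hp (by linarith only [t0]) (by linarith only [t1]) (by linarith only [y0]) (by linarith only [y1])
  rcases S with S | S | S | S
  · exact finR h z0 ne (by decide) S (P3_lR' e (by decide) (chkD4 r_A4_3_0_m0 (by norm_num)
      (le_trans (by norm_num) x0) (le_trans x1 (by norm_num)) (le_trans (by norm_num) T0)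
      (le_trans T1 (by norm_num))
      (le_trans (by norm_num) y0) (le_trans y1 (by norm_num))
      (le_trans (by norm_num) t0) (le_trans t1 (by norm_num))) a0 a1 far)
  · exact finR h z0 ne (by decide) S (P3_lZ' e rfl (chkD4 r_A4_3_1_m0 (by norm_num)
      (le_trans (by norm_num) x0) (le_trans x1 (by norm_num)) (le_trans (by norm_num) T0)
      (le_trans T1 (by norm_num))
      (le_trans (by norm_num) y0) (le_trans y1 (by norm_num))
      (le_trans (by norm_num) t0) (le_trans t1 (by norm_num))) a0 a1 far)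
  · exact finR h z0 ne (by decide) S (P3_lR' e (by decide) (chkD4 r_A4_3_2_m0 (by norm_num)
      (le_trans (by norm_num) x0) (le_trans x1 (by norm_num)) (le_trans (by norm_num) T0)
      (le_trans T1 (by norm_num))
      (le_trans (by norm_num) y0) (le_trans y1 (by norm_num))
      (le_trans (by norm_num) t0) (le_trans t1 (by norm_num))) a0 a1 far)
  · exact finR h z0 ne (by decide) S (P3_lR' e (by decide) (chkD4 r_A4_3_3_m0 (by norm_num)
      (le_trans (by norm_num) x0) (le_trans x1 (by norm_num)) (le_trans (by norm_num) T0)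
      (le_trans T1 (by norm_num))
      (le_trans (by norm_num) y0) (le_trans y1 (by norm_num))
      (le_trans (by norm_num) t0) (le_trans t1 (by norm_num))) a0 a1 far)

theorem cA4_m1 (h : H x T Tl pl k l w) (z0 : 63 / 100 ≤ x) (x0 : 16 / 25 ≤ x) (x1 : x ≤ 13 / 20) (T0 : 3 / 50 ≤ T) (T1 : T ≤ 2 / 25)
    (y0 : 1 / 50 ≤ l.re) (y1 : l.re ≤ 1 / 20) (t0 : -(3 / 40) ≤ Tl) (t1 : Tl ≤ -(3 / 50))
    (hl : l.im = Tl * MP_b30479_gtS.G2.M13.τl l.re) (hp : pl = 0) (ne : l ≠ ⟨x, hh x⟩)
    (S : SA4 x T k) : False := by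
  have a0 := h.s0
  have a1 := h.s1
  have e := lM_eq hl x T
  have far := farH h hl hp (by linarith only [t0]) (by linarith only [t1]) (by linarith only [y0]) (by linarith only [y1])
  rcases S with S | S | S | S
  · exact finR h z0 ne (by decide) S (P3_lR' e (by decide) (chkD4 r_A4_3_0_m1 (by norm_num)
      (le_trans (by norm_num) x0) (le_trans x1 (by norm_num)) (le_trans (by norm_num) T0)
      (le_trans T1 (by norm_num))
      (le_trans (by norm_num) y0) (le_trans y1 (by norm_num))
      (le_trans (by norm_num) t0) (le_trans t1 (by norm_num))) a0 a1 far)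
  · exact finR h z0 ne (by decide) S (P3_lZ' e rfl (chkD4 r_A4_3_1_m1 (by norm_num)
      (le_trans (by norm_num) x0) (le_trans x1 (by norm_num)) (le_trans (by norm_num) T0)
      (le_trans T1 (by norm_num))
      (le_trans (by norm_num) y0) (le_trans y1 (by norm_num))
      (le_trans (by norm_num) t0) (le_trans t1 (by norm_num))) a0 a1 far)
  · exact finR h z0 ne (by decide) S (P3_lR' e (by decide) (chkD4 r_A4_3_2_m1 (by norm_num)
      (le_trans (by norm_num) x0) (le_trans x1 (by norm_num)) (le_trans (by norm_num) T0)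
      (le_trans T1 (by norm_num))
      (le_trans (by norm_num) y0) (le_trans y1 (by norm_num))
      (le_trans (by norm_num) t0) (le_trans t1 (by norm_num))) a0 a1 far)
  · exact finR h z0 ne (by decide) S (P3_lR' e (by decide) (chkD4 r_A4_3_3_m1 (by norm_num)
      (le_trans (by norm_num) x0) (le_trans x1 (by norm_num)) (le_trans (by norm_num) T0)
      (le_trans T1 (by norm_num))
      (le_trans (by norm_num) y0) (le_trans y1 (by norm_num))
      (le_trans (by norm_num) t0) (le_trans t1 (by norm_num))) a0 a1 far)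

theorem cA4_m2 (h : H x T Tl pl k l w) (z0 : 63 / 100 ≤ x) (x0 : 16 / 25 ≤ x) (x1 : x ≤ 13 / 20) (T0 : 3 / 50 ≤ T) (T1 : T ≤ 2 / 25)
    (y0 : 1 / 50 ≤ l.re) (y1 : l.re ≤ 1 / 20) (t0 : -(3 / 50) ≤ Tl) (t1 : Tl ≤ -(1 / 25))
    (hl : l.im = Tl * MP_b30479_gtS.G2.M13.τl l.re) (hp : pl = 0) (ne : l ≠ ⟨x, hh x⟩)
    (S : SA4 x T k) : False := by
  have a0 := h.s0
  have a1 := h.s1
  have e := lM_eq hl x T
  have far := farK h hl hp (by linarith only [t0]) (by linarith only [t1]) (by linarith only [y0]) (by linarith only [y1])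
  rcases S with S | S | S | S
  · exact finR h z0 ne (by decide) S (P3_lR' e (by decide) (chkD4 r_A4_3_0_m2 (by norm_num)
      (le_trans (by norm_num) x0) (le_trans x1 (by norm_num)) (le_trans (by norm_num) T0)
      (le_trans T1 (by norm_num))
      (le_trans (by norm_num) y0) (le_trans y1 (by norm_num))
      (le_trans (by norm_num) t0) (le_trans t1 (by norm_num))) a0 a1 far)
  · exact finR h z0 ne (by decide) S (P3_lZ' e rfl (chkD4 r_A4_3_1_m2 (by norm_num)
      (le_trans (by norm_num) x0) (le_trans x1 (by norm_num)) (le_trans (by norm_num) T0)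
      (le_trans T1 (by norm_num))
      (le_trans (by norm_num) y0) (le_trans y1 (by norm_num))
      (le_trans (by norm_num) t0) (le_trans t1 (by norm_num))) a0 a1 far)
  · exact finR h z0 ne (by decide) S (P3_lR' e (by decide) (chkD4 r_A4_3_2_m2 (by norm_num)
      (le_trans (by norm_num) x0) (le_trans x1 (by norm_num)) (le_trans (by norm_num) T0)
      (le_trans T1 (by norm_num))
      (le_trans (by norm_num) y0) (le_trans y1 (by norm_num))
      (le_trans (by norm_num) t0) (le_trans t1 (by norm_num))) a0 a1 far)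
  · exact finR h z0 ne (by decide) S (P3_lR' e (by decide) (chkD4 r_A4_3_3_m2 (by norm_num)
      (le_trans (by norm_num) x0) (le_trans x1 (by norm_num)) (le_trans (by norm_num) T0)
      (le_trans T1 (by norm_num))
      (le_trans (by norm_num) y0) (le_trans y1 (by norm_num))
      (le_trans (by norm_num) t0) (le_trans t1 (by norm_num))) a0 a1 far)

theorem cA4_m3 (h : H x T Tl pl k l w) (z0 : 63 / 100 ≤ x) (x0 : 16 / 25 ≤ x) (x1 : x ≤ 13 / 20) (T0 : 3 / 50 ≤ T) (T1 : T ≤ 2 / 25)
    (y0 : 1 / 20 ≤ l.re) (y1 : l.re ≤ 3 / 20) (t0 : -(9 / 100) ≤ Tl) (t1 : Tl ≤ -(3 / 40))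
    (hl : l.im = Tl * MP_b30479_gtS.G2.M13.τl l.re) (hp : pl = 0) (ne : l ≠ ⟨x, hh x⟩)
    (S : SA4 x T k) : False := by
  have a0 := h.s0
  have a1 := h.s1
  have e := lM_eq hl x T
  have far := farG h hl hp (by linarith only [t0]) (by linarith only [t1]) (by linarith only [y0]) (by linarith only [y1])
  rcases S with S | S | S | S
  · exact finR h z0 ne (by decide) S (P3_lR' e (by decide) (chkD4 r_A4_3_0_m3 (by norm_num)
      (le_trans (by norm_num) x0) (le_trans x1 (by norm_num)) (le_trans (by norm_num) T0)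
      (le_trans T1 (by norm_num))
      (le_trans (by norm_num) y0) (le_trans y1 (by norm_num))
      (le_trans (by norm_num) t0) (le_trans t1 (by norm_num))) a0 a1 far)
  · exact finR h z0 ne (by decide) S (P3_lZ' e rfl (chkD4 r_A4_3_1_m3 (by norm_num)
      (le_trans (by norm_num) x0) (le_trans x1 (by norm_num)) (le_trans (by norm_num) T0)
      (le_trans T1 (by norm_num))
      (le_trans (by norm_num) y0) (le_trans y1 (by norm_num))
      (le_trans (by norm_num) t0) (le_trans t1 (by norm_num))) a0 a1 far)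
  · exact finR h z0 ne (by decide) S (P3_lR' e (by decide) (chkD4 r_A4_3_2_m3 (by norm_num)
      (le_trans (by norm_num) x0) (le_trans x1 (by norm_num)) (le_trans (by norm_num) T0)
      (le_trans T1 (by norm_num))
      (le_trans (by norm_num) y0) (le_trans y1 (by norm_num))
      (le_trans (by norm_num) t0) (le_trans t1 (by norm_num))) a0 a1 far)
  · exact finR h z0 ne (by decide) S (P3_lR' e (by decide) (chkD4 r_A4_3_3_m3 (by norm_num)
      (le_trans (by norm_num) x0) (le_trans x1 (by norm_num)) (le_trans (by norm_num) T0)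
      (le_trans T1 (by norm_num))
      (le_trans (by norm_num) y0) (le_trans y1 (by norm_num))
      (le_trans (by norm_num) t0) (le_trans t1 (by norm_num))) a0 a1 far)

theorem cA4_m4 (h : H x T Tl pl k l w) (z0 : 63 / 100 ≤ x) (x0 : 16 / 25 ≤ x) (x1 : x ≤ 13 / 20) (T0 : 3 / 50 ≤ T) (T1 : T ≤ 2 / 25)
    (y0 : 1 / 20 ≤ l.re) (y1 : l.re ≤ 3 / 20) (t0 : -(3 / 40) ≤ Tl) (t1 : Tl ≤ -(3 / 50))
    (hl : l.im = Tl * MP_b30479_gtS.G2.M13.τl l.re) (hp : pl = 0) (ne : l ≠ ⟨x, hh x⟩)
    (S : SA4 x T k) : False := by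
  have a0 := h.s0
  have a1 := h.s1
  have e := lM_eq hl x T
  have far := farH h hl hp (by linarith only [t0]) (by linarith only [t1]) (by linarith only [y0]) (by linarith only [y1])
  rcases S with S | S | S | S
  · exact finR h z0 ne (by decide) S (P3_lR' e (by decide) (chkD4 r_A4_3_0_m4 (by norm_num)
      (le_trans (by norm_num) x0) (le_trans x1 (by norm_num)) (le_trans (by norm_num) T0)
      (le_trans T1 (by norm_num))
      (le_trans (by norm_num) y0) (le_trans y1 (by norm_num))
      (le_trans (by norm_num) t0) (le_trans t1 (by norm_num))) a0 a1 far)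
  · exact finR h z0 ne (by decide) S (P3_lZ' e rfl (chkD4 r_A4_3_1_m4 (by norm_num)
      (le_trans (by norm_num) x0) (le_trans x1 (by norm_num)) (le_trans (by norm_num) T0)
      (le_trans T1 (by norm_num))
      (le_trans (by norm_num) y0) (le_trans y1 (by norm_num))
      (le_trans (by norm_num) t0) (le_trans t1 (by norm_num))) a0 a1 far)
  · exact finR h z0 ne (by decide) S (P3_lR' e (by decide) (chkD4 r_A4_3_2_m4 (by norm_num)
      (le_trans (by norm_num) x0) (le_trans x1 (by norm_num)) (le_trans (by norm_num) T0)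
      (le_trans T1 (by norm_num))
      (le_trans (by norm_num) y0) (le_trans y1 (by norm_num))
      (le_trans (by norm_num) t0) (le_trans t1 (by norm_num))) a0 a1 far)
  · exact finR h z0 ne (by decide) S (P3_lR' e (by decide) (chkD4 r_A4_3_3_m4 (by norm_num)
      (le_trans (by norm_num) x0) (le_trans x1 (by norm_num)) (le_trans (by norm_num) T0)
      (le_trans T1 (by norm_num))
      (le_trans (by norm_num) y0) (le_trans y1 (by norm_num))
      (le_trans (by norm_num) t0) (le_trans t1 (by norm_num))) a0 a1 far)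

theorem cA4_m5 (h : H x T Tl pl k l w) (z0 : 63 / 100 ≤ x) (x0 : 16 / 25 ≤ x) (x1 : x ≤ 13 / 20) (T0 : 3 / 50 ≤ T) (T1 : T ≤ 2 / 25)
    (y0 : 1 / 20 ≤ l.re) (y1 : l.re ≤ 3 / 20) (t0 : -(3 / 50) ≤ Tl) (t1 : Tl ≤ -(1 / 25))
    (hl : l.im = Tl * MP_b30479_gtS.G2.M13.τl l.re) (hp : pl = 0) (ne : l ≠ ⟨x, hh x⟩)
    (S : SA4 x T k) : False := by
  have a0 := h.s0
  have a1 := h.s1
  have e := lM_eq hl x T
  have far := farK h hl hp (by linarith only [t0]) (by linarith only [t1]) (by linarith only [y0]) (by linarith only [y1])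
  rcases S with S | S | S | S
  · exact finR h z0 ne (by decide) S (P3_lR' e (by decide) (chkD4 r_A4_3_0_m5 (by norm_num)
      (le_trans (by norm_num) x0) (le_trans x1 (by norm_num)) (le_trans (by norm_num) T0)
      (le_trans T1 (by norm_num))
      (le_trans (by norm_num) y0) (le_trans y1 (by norm_num))
      (le_trans (by norm_num) t0) (le_trans t1 (by norm_num))) a0 a1 far)
  · exact finR h z0 ne (by decide) S (P3_lZ' e rfl (chkD4 r_A4_3_1_m5 (by norm_num)
      (le_trans (by norm_num) x0) (le_trans x1 (by norm_num)) (le_trans (by norm_num) T0)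
      (le_trans T1 (by norm_num))
      (le_trans (by norm_num) y0) (le_trans y1 (by norm_num))
      (le_trans (by norm_num) t0) (le_trans t1 (by norm_num))) a0 a1 far)
  · exact finR h z0 ne (by decide) S (P3_lR' e (by decide) (chkD4 r_A4_3_2_m5 (by norm_num)
      (le_trans (by norm_num) x0) (le_trans x1 (by norm_num)) (le_trans (by norm_num) T0)
      (le_trans T1 (by norm_num))
      (le_trans (by norm_num) y0) (le_trans y1 (by norm_num))
      (le_trans (by norm_num) t0) (le_trans t1 (by norm_num))) a0 a1 far)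
  · exact finR h z0 ne (by decide) S (P3_lR' e (by decide) (chkD4 r_A4_3_3_m5 (by norm_num)
      (le_trans (by norm_num) x0) (le_trans x1 (by norm_num)) (le_trans (by norm_num) T0)
      (le_trans T1 (by norm_num))
      (le_trans (by norm_num) y0) (le_trans y1 (by norm_num))
      (le_trans (by norm_num) t0) (le_trans t1 (by norm_num))) a0 a1 far)

theorem cA5_m0 (h : H x T Tl pl k l w) (z0 : 63 / 100 ≤ x) (x0 : 63 / 100 ≤ x) (x1 : x ≤ 16 / 25) (T0 : 2 / 25 ≤ T) (T1 : T ≤ 47 / 500)
    (y0 : 1 / 50 ≤ l.re) (y1 : l.re ≤ 1 / 20) (t0 : -(9 / 100) ≤ Tl) (t1 : Tl ≤ -(3 / 40))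
    (hl : l.im = Tl * MP_b30479_gtS.G2.M13.τl l.re) (hp : pl = 0) (ne : l ≠ ⟨x, hh x⟩)
    (S : SA5 x T k) : False := by
  have a0 := h.s0
  have a1 := h.s1
  have e := lM_eq hl x T
  have far := farG h hl hp (by linarith only [t0]) (by linarith only [t1]) (by linarith only [y0]) (by linarith only [y1])
  rcases S with S | S
  · exact finR h z0 ne (by decide) S (P3_lR' e (by decide) (chkD4 r_A5_3_0_m0 (by norm_num)
      (le_trans (by norm_num) x0) (le_trans x1 (by norm_num)) (le_trans (by norm_num) T0)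
      (le_trans T1 (by norm_num))
      (le_trans (by norm_num) y0) (le_trans y1 (by norm_num))
      (le_trans (by norm_num) t0) (le_trans t1 (by norm_num))) a0 a1 far)
  · exact finR h z0 ne (by decide) S (P3_lZ' e rfl (chkD4 r_A5_3_1_m0 (by norm_num)
      (le_trans (by norm_num) x0) (le_trans x1 (by norm_num)) (le_trans (by norm_num) T0)
      (le_trans T1 (by norm_num))
      (le_trans (by norm_num) y0) (le_trans y1 (by norm_num))
      (le_trans (by norm_num) t0) (le_trans t1 (by norm_num))) a0 a1 far)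

theorem cA5_m1 (h : H x T Tl pl k l w) (z0 : 63 / 100 ≤ x) (x0 : 63 / 100 ≤ x) (x1 : x ≤ 16 / 25) (T0 : 2 / 25 ≤ T) (T1 : T ≤ 47 / 500)
    (y0 : 1 / 50 ≤ l.re) (y1 : l.re ≤ 1 / 20) (t0 : -(3 / 40) ≤ Tl) (t1 : Tl ≤ -(3 / 50))
    (hl : l.im = Tl * MP_b30479_gtS.G2.M13.τl l.re) (hp : pl = 0) (ne : l ≠ ⟨x, hh x⟩)
    (S : SA5 x T k) : False := by
  have a0 := h.s0
  have a1 := h.s1
  have e := lM_eq hl x T
  have far := farH h hl hp (by linarith only [t0]) (by linarith only [t1]) (by linarith only [y0]) (by linarith only [y1])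
  rcases S with S | S
  · exact finR h z0 ne (by decide) S (P3_lR' e (by decide) (chkD4 r_A5_3_0_m1 (by norm_num)
      (le_trans (by norm_num) x0) (le_trans x1 (by norm_num)) (le_trans (by norm_num) T0)
      (le_trans T1 (by norm_num))
      (le_trans (by norm_num) y0) (le_trans y1 (by norm_num))
      (le_trans (by norm_num) t0) (le_trans t1 (by norm_num))) a0 a1 far)
  · exact finR h z0 ne (by decide) S (P3_lZ' e rfl (chkD4 r_A5_3_1_m1 (by norm_num)
      (le_trans (by norm_num) x0) (le_trans x1 (by norm_num)) (le_trans (by norm_num) T0)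
      (le_trans T1 (by norm_num))
      (le_trans (by norm_num) y0) (le_trans y1 (by norm_num))
      (le_trans (by norm_num) t0) (le_trans t1 (by norm_num))) a0 a1 far)

theorem cA5_m2 (h : H x T Tl pl k l w) (z0 : 63 / 100 ≤ x) (x0 : 63 / 100 ≤ x) (x1 : x ≤ 16 / 25) (T0 : 2 / 25 ≤ T) (T1 : T ≤ 47 / 500)
    (y0 : 1 / 50 ≤ l.re) (y1 : l.re ≤ 1 / 20) (t0 : -(3 / 50) ≤ Tl) (t1 : Tl ≤ -(1 / 25))
    (hl : l.im = Tl * MP_b30479_gtS.G2.M13.τl l.re) (hp : pl = 0) (ne : l ≠ ⟨x, hh x⟩)
    (S : SA5 x T k) : False := by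
  have a0 := h.s0
  have a1 := h.s1
  have e := lM_eq hl x T
  have far := farK h hl hp (by linarith only [t0]) (by linarith only [t1]) (by linarith only [y0]) (by linarith only [y1])
  rcases S with S | S
  · exact finR h z0 ne (by decide) S (P3_lR' e (by decide) (chkD4 r_A5_3_0_m2 (by norm_num)
      (le_trans (by norm_num) x0) (le_trans x1 (by norm_num)) (le_trans (by norm_num) T0)
      (le_trans T1 (by norm_num))
      (le_trans (by norm_num) y0) (le_trans y1 (by norm_num))
      (le_trans (by norm_num) t0) (le_trans t1 (by norm_num))) a0 a1 far)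
  · exact finR h z0 ne (by decide) S (P3_lZ' e rfl (chkD4 r_A5_3_1_m2 (by norm_num)
      (le_trans (by norm_num) x0) (le_trans x1 (by norm_num)) (le_trans (by norm_num) T0)
      (le_trans T1 (by norm_num))
      (le_trans (by norm_num) y0) (le_trans y1 (by norm_num))
      (le_trans (by norm_num) t0) (le_trans t1 (by norm_num))) a0 a1 far)

theorem cA5_m3 (h : H x T Tl pl k l w) (z0 : 63 / 100 ≤ x) (x0 : 63 / 100 ≤ x) (x1 : x ≤ 16 / 25) (T0 : 2 / 25 ≤ T) (T1 : T ≤ 47 / 500)
    (y0 : 1 / 20 ≤ l.re) (y1 : l.re ≤ 3 / 20) (t0 : -(9 / 100) ≤ Tl) (t1 : Tl ≤ -(3 / 40))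
    (hl : l.im = Tl * MP_b30479_gtS.G2.M13.τl l.re) (hp : pl = 0) (ne : l ≠ ⟨x, hh x⟩)
    (S : SA5 x T k) : False := by
  have a0 := h.s0
  have a1 := h.s1
  have e := lM_eq hl x T
  have far := farG h hl hp (by linarith only [t0]) (by linarith only [t1]) (by linarith only [y0]) (by linarith only [y1])
  rcases S with S | S
  · exact finR h z0 ne (by decide) S (P3_lR' e (by decide) (chkD4 r_A5_3_0_m3 (by norm_num)
      (le_trans (by norm_num) x0) (le_trans x1 (by norm_num)) (le_trans (by norm_num) T0)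
      (le_trans T1 (by norm_num))
      (le_trans (by norm_num) y0) (le_trans y1 (by norm_num))
      (le_trans (by norm_num) t0) (le_trans t1 (by norm_num))) a0 a1 far)
  · exact finR h z0 ne (by decide) S (P3_lZ' e rfl (chkD4 r_A5_3_1_m3 (by norm_num)
      (le_trans (by norm_num) x0) (le_trans x1 (by norm_num)) (le_trans (by norm_num) T0)
      (le_trans T1 (by norm_num))
      (le_trans (by norm_num) y0) (le_trans y1 (by norm_num))
      (le_trans (by norm_num) t0) (le_trans t1 (by norm_num))) a0 a1 far)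

theorem cA5_m4 (h : H x T Tl pl k l w) (z0 : 63 / 100 ≤ x) (x0 : 63 / 100 ≤ x) (x1 : x ≤ 16 / 25) (T0 : 2 / 25 ≤ T) (T1 : T ≤ 47 / 500)
    (y0 : 1 / 20 ≤ l.re) (y1 : l.re ≤ 3 / 20) (t0 : -(3 / 40) ≤ Tl) (t1 : Tl ≤ -(3 / 50))
    (hl : l.im = Tl * MP_b30479_gtS.G2.M13.τl l.re) (hp : pl = 0) (ne : l ≠ ⟨x, hh x⟩)
    (S : SA5 x T k) : False := by
  have a0 := h.s0
  have a1 := h.s1
  have e := lM_eq hl x T
  have far := farH h hl hp (by linarith only [t0]) (by linarith only [t1]) (by linarith only [y0]) (by linarith only [y1])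
  rcases S with S | S
  · exact finR h z0 ne (by decide) S (P3_lR' e (by decide) (chkD4 r_A5_3_0_m4 (by norm_num)
      (le_trans (by norm_num) x0) (le_trans x1 (by norm_num)) (le_trans (by norm_num) T0)
      (le_trans T1 (by norm_num))
      (le_trans (by norm_num) y0) (le_trans y1 (by norm_num))
      (le_trans (by norm_num) t0) (le_trans t1 (by norm_num))) a0 a1 far)
  · exact finR h z0 ne (by decide) S (P3_lZ' e rfl (chkD4 r_A5_3_1_m4 (by norm_num)
      (le_trans (by norm_num) x0) (le_trans x1 (by norm_num)) (le_trans (by norm_num) T0)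
      (le_trans T1 (by norm_num))
      (le_trans (by norm_num) y0) (le_trans y1 (by norm_num))
      (le_trans (by norm_num) t0) (le_trans t1 (by norm_num))) a0 a1 far)

theorem cA5_m5 (h : H x T Tl pl k l w) (z0 : 63 / 100 ≤ x) (x0 : 63 / 100 ≤ x) (x1 : x ≤ 16 / 25) (T0 : 2 / 25 ≤ T) (T1 : T ≤ 47 / 500)
    (y0 : 1 / 20 ≤ l.re) (y1 : l.re ≤ 3 / 20) (t0 : -(3 / 50) ≤ Tl) (t1 : Tl ≤ -(1 / 25))
    (hl : l.im = Tl * MP_b30479_gtS.G2.M13.τl l.re) (hp : pl = 0) (ne : l ≠ ⟨x, hh x⟩)
    (S : SA5 x T k) : False := by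
  have a0 := h.s0
  have a1 := h.s1
  have e := lM_eq hl x T
  have far := farK h hl hp (by linarith only [t0]) (by linarith only [t1]) (by linarith only [y0]) (by linarith only [y1])
  rcases S with S | S
  · exact finR h z0 ne (by decide) S (P3_lR' e (by decide) (chkD4 r_A5_3_0_m5 (by norm_num)
      (le_trans (by norm_num) x0) (le_trans x1 (by norm_num)) (le_trans (by norm_num) T0)
      (le_trans T1 (by norm_num))
      (le_trans (by norm_num) y0) (le_trans y1 (by norm_num))
      (le_trans (by norm_num) t0) (le_trans t1 (by norm_num))) a0 a1 far)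
  · exact finR h z0 ne (by decide) S (P3_lZ' e rfl (chkD4 r_A5_3_1_m5 (by norm_num)
      (le_trans (by norm_num) x0) (le_trans x1 (by norm_num)) (le_trans (by norm_num) T0)
      (le_trans T1 (by norm_num))
      (le_trans (by norm_num) y0) (le_trans y1 (by norm_num))
      (le_trans (by norm_num) t0) (le_trans t1 (by norm_num))) a0 a1 far)

theorem cA6_m0 (h : H x T Tl pl k l w) (z0 : 63 / 100 ≤ x) (x0 : 16 / 25 ≤ x) (x1 : x ≤ 13 / 20) (T0 : 2 / 25 ≤ T) (T1 : T ≤ 23 / 250)
    (y0 : 1 / 50 ≤ l.re) (y1 : l.re ≤ 1 / 20) (t0 : -(9 / 100) ≤ Tl) (t1 : Tl ≤ -(3 / 40))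
    (hl : l.im = Tl * MP_b30479_gtS.G2.M13.τl l.re) (hp : pl = 0) (ne : l ≠ ⟨x, hh x⟩)
    (S : SA6 x T k) : False := by
  have a0 := h.s0
  have a1 := h.s1
  have e := lM_eq hl x T
  have far := farG h hl hp (by linarith only [t0]) (by linarith only [t1]) (by linarith only [y0]) (by linarith only [y1])
  rcases S with S | S | S
  · exact finR h z0 ne (by decide) S (P3_lR' e (by decide) (chkD4 r_A6_3_0_m0 (by norm_num)
      (le_trans (by norm_num) x0) (le_trans x1 (by norm_num)) (le_trans (by norm_num) T0)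
      (le_trans T1 (by norm_num))
      (le_trans (by norm_num) y0) (le_trans y1 (by norm_num))
      (le_trans (by norm_num) t0) (le_trans t1 (by norm_num))) a0 a1 far)
  · exact finR h z0 ne (by decide) S (P3_lZ' e rfl (chkD4 r_A6_3_1_m0 (by norm_num)
      (le_trans (by norm_num) x0) (le_trans x1 (by norm_num)) (le_trans (by norm_num) T0)
      (le_trans T1 (by norm_num))
      (le_trans (by norm_num) y0) (le_trans y1 (by norm_num))
      (le_trans (by norm_num) t0) (le_trans t1 (by norm_num))) a0 a1 far)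
  · exact finR h z0 ne (by decide) S (P3_lR' e (by decide) (chkD4 r_A6_3_2_m0 (by norm_num)
      (le_trans (by norm_num) x0) (le_trans x1 (by norm_num)) (le_trans (by norm_num) T0)
      (le_trans T1 (by norm_num))
      (le_trans (by norm_num) y0) (le_trans y1 (by norm_num))
      (le_trans (by norm_num) t0) (le_trans t1 (by norm_num))) a0 a1 far)

theorem cA6_m1 (h : H x T Tl pl k l w) (z0 : 63 / 100 ≤ x) (x0 : 16 / 25 ≤ x) (x1 : x ≤ 13 / 20) (T0 : 2 / 25 ≤ T) (T1 : T ≤ 23 / 250)
    (y0 : 1 / 50 ≤ l.re) (y1 : l.re ≤ 1 / 20) (t0 : -(3 / 40) ≤ Tl) (t1 : Tl ≤ -(3 / 50))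
    (hl : l.im = Tl * MP_b30479_gtS.G2.M13.τl l.re) (hp : pl = 0) (ne : l ≠ ⟨x, hh x⟩)
    (S : SA6 x T k) : False := by
  have a0 := h.s0
  have a1 := h.s1
  have e := lM_eq hl x T
  have far := farH h hl hp (by linarith only [t0]) (by linarith only [t1]) (by linarith only [y0]) (by linarith only [y1])
  rcases S with S | S | S
  · exact finR h z0 ne (by decide) S (P3_lR' e (by decide) (chkD4 r_A6_3_0_m1 (by norm_num)
      (le_trans (by norm_num) x0) (le_trans x1 (by norm_num)) (le_trans (by norm_num) T0)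
      (le_trans T1 (by norm_num))
      (le_trans (by norm_num) y0) (le_trans y1 (by norm_num))
      (le_trans (by norm_num) t0) (le_trans t1 (by norm_num))) a0 a1 far)
  · exact finR h z0 ne (by decide) S (P3_lZ' e rfl (chkD4 r_A6_3_1_m1 (by norm_num)
      (le_trans (by norm_num) x0) (le_trans x1 (by norm_num)) (le_trans (by norm_num) T0)
      (le_trans T1 (by norm_num))
      (le_trans (by norm_num) y0) (le_trans y1 (by norm_num))
      (le_trans (by norm_num) t0) (le_trans t1 (by norm_num))) a0 a1 far)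
  · exact finR h z0 ne (by decide) S (P3_lR' e (by decide) (chkD4 r_A6_3_2_m1 (by norm_num)
      (le_trans (by norm_num) x0) (le_trans x1 (by norm_num)) (le_trans (by norm_num) T0)
      (le_trans T1 (by norm_num))
      (le_trans (by norm_num) y0) (le_trans y1 (by norm_num))
      (le_trans (by norm_num) t0) (le_trans t1 (by norm_num))) a0 a1 far)

theorem cA6_m2 (h : H x T Tl pl k l w) (z0 : 63 / 100 ≤ x) (x0 : 16 / 25 ≤ x) (x1 : x ≤ 13 / 20) (T0 : 2 / 25 ≤ T) (T1 : T ≤ 23 / 250)
    (y0 : 1 / 50 ≤ l.re) (y1 : l.re ≤ 1 / 20) (t0 : -(3 / 50) ≤ Tl) (t1 : Tl ≤ -(1 / 25))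
    (hl : l.im = Tl * MP_b30479_gtS.G2.M13.τl l.re) (hp : pl = 0) (ne : l ≠ ⟨x, hh x⟩)
    (S : SA6 x T k) : False := by
  have a0 := h.s0
  have a1 := h.s1
  have e := lM_eq hl x T
  have far := farK h hl hp (by linarith only [t0]) (by linarith only [t1]) (by linarith only [y0]) (by linarith only [y1])
  rcases S with S | S | S
  · exact finR h z0 ne (by decide) S (P3_lR' e (by decide) (chkD4 r_A6_3_0_m2 (by norm_num)
      (le_trans (by norm_num) x0) (le_trans x1 (by norm_num)) (le_trans (by norm_num) T0)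
      (le_trans T1 (by norm_num))
      (le_trans (by norm_num) y0) (le_trans y1 (by norm_num))
      (le_trans (by norm_num) t0) (le_trans t1 (by norm_num))) a0 a1 far)
  · exact finR h z0 ne (by decide) S (P3_lZ' e rfl (chkD4 r_A6_3_1_m2 (by norm_num)
      (le_trans (by norm_num) x0) (le_trans x1 (by norm_num)) (le_trans (by norm_num) T0)
      (le_trans T1 (by norm_num))
      (le_trans (by norm_num) y0) (le_trans y1 (by norm_num))
      (le_trans (by norm_num) t0) (le_trans t1 (by norm_num))) a0 a1 far)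
  · exact finR h z0 ne (by decide) S (P3_lR' e (by decide) (chkD4 r_A6_3_2_m2 (by norm_num)
      (le_trans (by norm_num) x0) (le_trans x1 (by norm_num)) (le_trans (by norm_num) T0)
      (le_trans T1 (by norm_num))
      (le_trans (by norm_num) y0) (le_trans y1 (by norm_num))
      (le_trans (by norm_num) t0) (le_trans t1 (by norm_num))) a0 a1 far)

theorem cA6_m3 (h : H x T Tl pl k l w) (z0 : 63 / 100 ≤ x) (x0 : 16 / 25 ≤ x) (x1 : x ≤ 13 / 20) (T0 : 2 / 25 ≤ T) (T1 : T ≤ 23 / 250)
    (y0 : 1 / 20 ≤ l.re) (y1 : l.re ≤ 3 / 20) (t0 : -(9 / 100) ≤ Tl) (t1 : Tl ≤ -(3 / 40))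
    (hl : l.im = Tl * MP_b30479_gtS.G2.M13.τl l.re) (hp : pl = 0) (ne : l ≠ ⟨x, hh x⟩)
    (S : SA6 x T k) : False := by
  have a0 := h.s0
  have a1 := h.s1
  have e := lM_eq hl x T
  have far := farG h hl hp (by linarith only [t0]) (by linarith only [t1]) (by linarith only [y0]) (by linarith only [y1])
  rcases S with S | S | S
  · exact finR h z0 ne (by decide) S (P3_lR' e (by decide) (chkD4 r_A6_3_0_m3 (by norm_num)
      (le_trans (by norm_num) x0) (le_trans x1 (by norm_num)) (le_trans (by norm_num) T0)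
      (le_trans T1 (by norm_num))
      (le_trans (by norm_num) y0) (le_trans y1 (by norm_num))
      (le_trans (by norm_num) t0) (le_trans t1 (by norm_num))) a0 a1 far)
  · exact finR h z0 ne (by decide) S (P3_lZ' e rfl (chkD4 r_A6_3_1_m3 (by norm_num)
      (le_trans (by norm_num) x0) (le_trans x1 (by norm_num)) (le_trans (by norm_num) T0)
      (le_trans T1 (by norm_num))
      (le_trans (by norm_num) y0) (le_trans y1 (by norm_num))
      (le_trans (by norm_num) t0) (le_trans t1 (by norm_num))) a0 a1 far)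
  · exact finR h z0 ne (by decide) S (P3_lR' e (by decide) (chkD4 r_A6_3_2_m3 (by norm_num)
      (le_trans (by norm_num) x0) (le_trans x1 (by norm_num)) (le_trans (by norm_num) T0)
      (le_trans T1 (by norm_num))
      (le_trans (by norm_num) y0) (le_trans y1 (by norm_num))
      (le_trans (by norm_num) t0) (le_trans t1 (by norm_num))) a0 a1 far)

theorem cA6_m4 (h : H x T Tl pl k l w) (z0 : 63 / 100 ≤ x) (x0 : 16 / 25 ≤ x) (x1 : x ≤ 13 / 20) (T0 : 2 / 25 ≤ T) (T1 : T ≤ 23 / 250)
    (y0 : 1 / 20 ≤ l.re) (y1 : l.re ≤ 3 / 20) (t0 : -(3 / 40) ≤ Tl) (t1 : Tl ≤ -(3 / 50))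
    (hl : l.im = Tl * MP_b30479_gtS.G2.M13.τl l.re) (hp : pl = 0) (ne : l ≠ ⟨x, hh x⟩)
    (S : SA6 x T k) : False := by
  have a0 := h.s0
  have a1 := h.s1
  have e := lM_eq hl x T
  have far := farH h hl hp (by linarith only [t0]) (by linarith only [t1]) (by linarith only [y0]) (by linarith only [y1])
  rcases S with S | S | S
  · exact finR h z0 ne (by decide) S (P3_lR' e (by decide) (chkD4 r_A6_3_0_m4 (by norm_num)
      (le_trans (by norm_num) x0) (le_trans x1 (by norm_num)) (le_trans (by norm_num) T0)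
      (le_trans T1 (by norm_num))
      (le_trans (by norm_num) y0) (le_trans y1 (by norm_num))
      (le_trans (by norm_num) t0) (le_trans t1 (by norm_num))) a0 a1 far)
  · exact finR h z0 ne (by decide) S (P3_lZ' e rfl (chkD4 r_A6_3_1_m4 (by norm_num)
      (le_trans (by norm_num) x0) (le_trans x1 (by norm_num)) (le_trans (by norm_num) T0)
      (le_trans T1 (by norm_num))
      (le_trans (by norm_num) y0) (le_trans y1 (by norm_num))
      (le_trans (by norm_num) t0) (le_trans t1 (by norm_num))) a0 a1 far)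
  · exact finR h z0 ne (by decide) S (P3_lR' e (by decide) (chkD4 r_A6_3_2_m4 (by norm_num)
      (le_trans (by norm_num) x0) (le_trans x1 (by norm_num)) (le_trans (by norm_num) T0)
      (le_trans T1 (by norm_num))
      (le_trans (by norm_num) y0) (le_trans y1 (by norm_num))
      (le_trans (by norm_num) t0) (le_trans t1 (by norm_num))) a0 a1 far)

theorem cA6_m5 (h : H x T Tl pl k l w) (z0 : 63 / 100 ≤ x) (x0 : 16 / 25 ≤ x) (x1 : x ≤ 13 / 20) (T0 : 2 / 25 ≤ T) (T1 : T ≤ 23 / 250)
    (y0 : 1 / 20 ≤ l.re) (y1 : l.re ≤ 3 / 20) (t0 : -(3 / 50) ≤ Tl) (t1 : Tl ≤ -(1 / 25))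
    (hl : l.im = Tl * MP_b30479_gtS.G2.M13.τl l.re) (hp : pl = 0) (ne : l ≠ ⟨x, hh x⟩)
    (S : SA6 x T k) : False := by
  have a0 := h.s0
  have a1 := h.s1
  have e := lM_eq hl x T
  have far := farK h hl hp (by linarith only [t0]) (by linarith only [t1]) (by linarith only [y0]) (by linarith only [y1])
  rcases S with S | S | S
  · exact finR h z0 ne (by decide) S (P3_lR' e (by decide) (chkD4 r_A6_3_0_m5 (by norm_num)
      (le_trans (by norm_num) x0) (le_trans x1 (by norm_num)) (le_trans (by norm_num) T0)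
      (le_trans T1 (by norm_num))
      (le_trans (by norm_num) y0) (le_trans y1 (by norm_num))
      (le_trans (by norm_num) t0) (le_trans t1 (by norm_num))) a0 a1 far)
  · exact finR h z0 ne (by decide) S (P3_lZ' e rfl (chkD4 r_A6_3_1_m5 (by norm_num)
      (le_trans (by norm_num) x0) (le_trans x1 (by norm_num)) (le_trans (by norm_num) T0)
      (le_trans T1 (by norm_num))
      (le_trans (by norm_num) y0) (le_trans y1 (by norm_num))
      (le_trans (by norm_num) t0) (le_trans t1 (by norm_num))) a0 a1 far)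
  · exact finR h z0 ne (by decide) S (P3_lR' e (by decide) (chkD4 r_A6_3_2_m5 (by norm_num)
      (le_trans (by norm_num) x0) (le_trans x1 (by norm_num)) (le_trans (by norm_num) T0)
      (le_trans T1 (by norm_num))
      (le_trans (by norm_num) y0) (le_trans y1 (by norm_num))
      (le_trans (by norm_num) t0) (le_trans t1 (by norm_num))) a0 a1 far)

theorem cA7_m0 (h : H x T Tl pl k l w) (z0 : 63 / 100 ≤ x) (x0 : 16 / 25 ≤ x) (x1 : x ≤ 13 / 20) (T0 : 23 / 250 ≤ T) (T1 : T ≤ 47 / 500)
    (y0 : 1 / 50 ≤ l.re) (y1 : l.re ≤ 1 / 20) (t0 : -(9 / 100) ≤ Tl) (t1 : Tl ≤ -(3 / 40))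
    (hl : l.im = Tl * MP_b30479_gtS.G2.M13.τl l.re) (hp : pl = 0) (ne : l ≠ ⟨x, hh x⟩)
    (S : SA7 x T k) : False := by
  have a0 := h.s0
  have a1 := h.s1
  have e := lM_eq hl x T
  have far := farG h hl hp (by linarith only [t0]) (by linarith only [t1]) (by linarith only [y0]) (by linarith only [y1])
  rcases S with S | S | S | S
  · exact finR h z0 ne (by decide) S (P3_lR' e (by decide) (chkD4 r_A7_3_0_m0 (by norm_num)
      (le_trans (by norm_num) x0) (le_trans x1 (by norm_num)) (le_trans (by norm_num) T0)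
      (le_trans T1 (by norm_num))
      (le_trans (by norm_num) y0) (le_trans y1 (by norm_num))
      (le_trans (by norm_num) t0) (le_trans t1 (by norm_num))) a0 a1 far)
  · exact finR h z0 ne (by decide) S (P3_lZ' e rfl (chkD4 r_A7_3_1_m0 (by norm_num)
      (le_trans (by norm_num) x0) (le_trans x1 (by norm_num)) (le_trans (by norm_num) T0)
      (le_trans T1 (by norm_num))
      (le_trans (by norm_num) y0) (le_trans y1 (by norm_num))
      (le_trans (by norm_num) t0) (le_trans t1 (by norm_num))) a0 a1 far)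
  · exact finR h z0 ne (by decide) S (P3_lR' e (by decide) (chkD4 r_A7_3_2_m0 (by norm_num)
      (le_trans (by norm_num) x0) (le_trans x1 (by norm_num)) (le_trans (by norm_num) T0)
      (le_trans T1 (by norm_num))
      (le_trans (by norm_num) y0) (le_trans y1 (by norm_num))
      (le_trans (by norm_num) t0) (le_trans t1 (by norm_num))) a0 a1 far)
  · exact finR h z0 ne (by decide) S (P3_lR' e (by decide) (chkD4 r_A7_3_3_m0 (by norm_num)
      (le_trans (by norm_num) x0) (le_trans x1 (by norm_num)) (le_trans (by norm_num) T0)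
      (le_trans T1 (by norm_num))
      (le_trans (by norm_num) y0) (le_trans y1 (by norm_num))
      (le_trans (by norm_num) t0) (le_trans t1 (by norm_num))) a0 a1 far)

theorem cA7_m1 (h : H x T Tl pl k l w) (z0 : 63 / 100 ≤ x) (x0 : 16 / 25 ≤ x) (x1 : x ≤ 13 / 20) (T0 : 23 / 250 ≤ T) (T1 : T ≤ 47 / 500)
    (y0 : 1 / 50 ≤ l.re) (y1 : l.re ≤ 1 / 20) (t0 : -(3 / 40) ≤ Tl) (t1 : Tl ≤ -(3 / 50))
    (hl : l.im = Tl * MP_b30479_gtS.G2.M13.τl l.re) (hp : pl = 0) (ne : l ≠ ⟨x, hh x⟩)
    (S : SA7 x T k) : False := by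
  have a0 := h.s0
  have a1 := h.s1
  have e := lM_eq hl x T
  have far := farH h hl hp (by linarith only [t0]) (by linarith only [t1]) (by linarith only [y0]) (by linarith only [y1])
  rcases S with S | S | S | S
  · exact finR h z0 ne (by decide) S (P3_lR' e (by decide) (chkD4 r_A7_3_0_m1 (by norm_num)
      (le_trans (by norm_num) x0) (le_trans x1 (by norm_num)) (le_trans (by norm_num) T0)
      (le_trans T1 (by norm_num))
      (le_trans (by norm_num) y0) (le_trans y1 (by norm_num))
      (le_trans (by norm_num) t0) (le_trans t1 (by norm_num))) a0 a1 far)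
  · exact finR h z0 ne (by decide) S (P3_lZ' e rfl (chkD4 r_A7_3_1_m1 (by norm_num)
      (le_trans (by norm_num) x0) (le_trans x1 (by norm_num)) (le_trans (by norm_num) T0)
      (le_trans T1 (by norm_num))
      (le_trans (by norm_num) y0) (le_trans y1 (by norm_num))
      (le_trans (by norm_num) t0) (le_trans t1 (by norm_num))) a0 a1 far)
  · exact finR h z0 ne (by decide) S (P3_lR' e (by decide) (chkD4 r_A7_3_2_m1 (by norm_num)
      (le_trans (by norm_num) x0) (le_trans x1 (by norm_num)) (le_trans (by norm_num) T0)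
      (le_trans T1 (by norm_num))
      (le_trans (by norm_num) y0) (le_trans y1 (by norm_num))
      (le_trans (by norm_num) t0) (le_trans t1 (by norm_num))) a0 a1 far)
  · exact finR h z0 ne (by decide) S (P3_lR' e (by decide) (chkD4 r_A7_3_3_m1 (by norm_num)
      (le_trans (by norm_num) x0) (le_trans x1 (by norm_num)) (le_trans (by norm_num) T0)
      (le_trans T1 (by norm_num))
      (le_trans (by norm_num) y0) (le_trans y1 (by norm_num))
      (le_trans (by norm_num) t0) (le_trans t1 (by norm_num))) a0 a1 far)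

theorem cA7_m2 (h : H x T Tl pl k l w) (z0 : 63 / 100 ≤ x) (x0 : 16 / 25 ≤ x) (x1 : x ≤ 13 / 20) (T0 : 23 / 250 ≤ T) (T1 : T ≤ 47 / 500)
    (y0 : 1 / 50 ≤ l.re) (y1 : l.re ≤ 1 / 20) (t0 : -(3 / 50) ≤ Tl) (t1 : Tl ≤ -(1 / 25))
    (hl : l.im = Tl * MP_b30479_gtS.G2.M13.τl l.re) (hp : pl = 0) (ne : l ≠ ⟨x, hh x⟩)
    (S : SA7 x T k) : False := by
  have a0 := h.s0
  have a1 := h.s1
  have e := lM_eq hl x T
  have far := farK h hl hp (by linarith only [t0]) (by linarith only [t1]) (by linarith only [y0]) (by linarith only [y1])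
  rcases S with S | S | S | S
  · exact finR h z0 ne (by decide) S (P3_lR' e (by decide) (chkD4 r_A7_3_0_m2 (by norm_num)
      (le_trans (by norm_num) x0) (le_trans x1 (by norm_num)) (le_trans (by norm_num) T0)
      (le_trans T1 (by norm_num))
      (le_trans (by norm_num) y0) (le_trans y1 (by norm_num))
      (le_trans (by norm_num) t0) (le_trans t1 (by norm_num))) a0 a1 far)
  · exact finR h z0 ne (by decide) S (P3_lZ' e rfl (chkD4 r_A7_3_1_m2 (by norm_num)
      (le_trans (by norm_num) x0) (le_trans x1 (by norm_num)) (le_trans (by norm_num) T0)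
      (le_trans T1 (by norm_num))
      (le_trans (by norm_num) y0) (le_trans y1 (by norm_num))
      (le_trans (by norm_num) t0) (le_trans t1 (by norm_num))) a0 a1 far)
  · exact finR h z0 ne (by decide) S (P3_lR' e (by decide) (chkD4 r_A7_3_2_m2 (by norm_num)
      (le_trans (by norm_num) x0) (le_trans x1 (by norm_num)) (le_trans (by norm_num) T0)
      (le_trans T1 (by norm_num))
      (le_trans (by norm_num) y0) (le_trans y1 (by norm_num))
      (le_trans (by norm_num) t0) (le_trans t1 (by norm_num))) a0 a1 far)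
  · exact finR h z0 ne (by decide) S (P3_lR' e (by decide) (chkD4 r_A7_3_3_m2 (by norm_num)
      (le_trans (by norm_num) x0) (le_trans x1 (by norm_num)) (le_trans (by norm_num) T0)
      (le_trans T1 (by norm_num))
      (le_trans (by norm_num) y0) (le_trans y1 (by norm_num))
      (le_trans (by norm_num) t0) (le_trans t1 (by norm_num))) a0 a1 far)

theorem cA7_m3 (h : H x T Tl pl k l w) (z0 : 63 / 100 ≤ x) (x0 : 16 / 25 ≤ x) (x1 : x ≤ 13 / 20) (T0 : 23 / 250 ≤ T) (T1 : T ≤ 47 / 500)
    (y0 : 1 / 20 ≤ l.re) (y1 : l.re ≤ 3 / 20) (t0 : -(9 / 100) ≤ Tl) (t1 : Tl ≤ -(3 / 40))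
    (hl : l.im = Tl * MP_b30479_gtS.G2.M13.τl l.re) (hp : pl = 0) (ne : l ≠ ⟨x, hh x⟩)
    (S : SA7 x T k) : False := by
  have a0 := h.s0
  have a1 := h.s1
  have e := lM_eq hl x T
  have far := farG h hl hp (by linarith only [t0]) (by linarith only [t1]) (by linarith only [y0]) (by linarith only [y1])
  rcases S with S | S | S | S
  · exact finR h z0 ne (by decide) S (P3_lR' e (by decide) (chkD4 r_A7_3_0_m3 (by norm_num)
      (le_trans (by norm_num) x0) (le_trans x1 (by norm_num)) (le_trans (by norm_num) T0)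
      (le_trans T1 (by norm_num))
      (le_trans (by norm_num) y0) (le_trans y1 (by norm_num))
      (le_trans (by norm_num) t0) (le_trans t1 (by norm_num))) a0 a1 far)
  · exact finR h z0 ne (by decide) S (P3_lZ' e rfl (chkD4 r_A7_3_1_m3 (by norm_num)
      (le_trans (by norm_num) x0) (le_trans x1 (by norm_num)) (le_trans (by norm_num) T0)
      (le_trans T1 (by norm_num))
      (le_trans (by norm_num) y0) (le_trans y1 (by norm_num))
      (le_trans (by norm_num) t0) (le_trans t1 (by norm_num))) a0 a1 far)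
  · exact finR h z0 ne (by decide) S (P3_lR' e (by decide) (chkD4 r_A7_3_2_m3 (by norm_num)
      (le_trans (by norm_num) x0) (le_trans x1 (by norm_num)) (le_trans (by norm_num) T0)
      (le_trans T1 (by norm_num))
      (le_trans (by norm_num) y0) (le_trans y1 (by norm_num))
      (le_trans (by norm_num) t0) (le_trans t1 (by norm_num))) a0 a1 far)
  · exact finR h z0 ne (by decide) S (P3_lR' e (by decide) (chkD4 r_A7_3_3_m3 (by norm_num)
      (le_trans (by norm_num) x0) (le_trans x1 (by norm_num)) (le_trans (by norm_num) T0)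
      (le_trans T1 (by norm_num))
      (le_trans (by norm_num) y0) (le_trans y1 (by norm_num))
      (le_trans (by norm_num) t0) (le_trans t1 (by norm_num))) a0 a1 far)

theorem cA7_m4 (h : H x T Tl pl k l w) (z0 : 63 / 100 ≤ x) (x0 : 16 / 25 ≤ x) (x1 : x ≤ 13 / 20) (T0 : 23 / 250 ≤ T) (T1 : T ≤ 47 / 500)
    (y0 : 1 / 20 ≤ l.re) (y1 : l.re ≤ 3 / 20) (t0 : -(3 / 40) ≤ Tl) (t1 : Tl ≤ -(3 / 50))
    (hl : l.im = Tl * MP_b30479_gtS.G2.M13.τl l.re) (hp : pl = 0) (ne : l ≠ ⟨x, hh x⟩)
    (S : SA7 x T k) : False := by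
  have a0 := h.s0
  have a1 := h.s1
  have e := lM_eq hl x T
  have far := farH h hl hp (by linarith only [t0]) (by linarith only [t1]) (by linarith only [y0]) (by linarith only [y1])
  rcases S with S | S | S | S
  · exact finR h z0 ne (by decide) S (P3_lR' e (by decide) (chkD4 r_A7_3_0_m4 (by norm_num)
      (le_trans (by norm_num) x0) (le_trans x1 (by norm_num)) (le_trans (by norm_num) T0)
      (le_trans T1 (by norm_num))
      (le_trans (by norm_num) y0) (le_trans y1 (by norm_num))
      (le_trans (by norm_num) t0) (le_trans t1 (by norm_num))) a0 a1 far)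
  · exact finR h z0 ne (by decide) S (P3_lZ' e rfl (chkD4 r_A7_3_1_m4 (by norm_num)
      (le_trans (by norm_num) x0) (le_trans x1 (by norm_num)) (le_trans (by norm_num) T0)
      (le_trans T1 (by norm_num))
      (le_trans (by norm_num) y0) (le_trans y1 (by norm_num))
      (le_trans (by norm_num) t0) (le_trans t1 (by norm_num))) a0 a1 far)
  · exact finR h z0 ne (by decide) S (P3_lR' e (by decide) (chkD4 r_A7_3_2_m4 (by norm_num)
      (le_trans (by norm_num) x0) (le_trans x1 (by norm_num)) (le_trans (by norm_num) T0)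
      (le_trans T1 (by norm_num))
      (le_trans (by norm_num) y0) (le_trans y1 (by norm_num))
      (le_trans (by norm_num) t0) (le_trans t1 (by norm_num))) a0 a1 far)
  · exact finR h z0 ne (by decide) S (P3_lR' e (by decide) (chkD4 r_A7_3_3_m4 (by norm_num)
      (le_trans (by norm_num) x0) (le_trans x1 (by norm_num)) (le_trans (by norm_num) T0)
      (le_trans T1 (by norm_num))
      (le_trans (by norm_num) y0) (le_trans y1 (by norm_num))
      (le_trans (by norm_num) t0) (le_trans t1 (by norm_num))) a0 a1 far)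

theorem cA7_m5 (h : H x T Tl pl k l w) (z0 : 63 / 100 ≤ x) (x0 : 16 / 25 ≤ x) (x1 : x ≤ 13 / 20) (T0 : 23 / 250 ≤ T) (T1 : T ≤ 47 / 500)
    (y0 : 1 / 20 ≤ l.re) (y1 : l.re ≤ 3 / 20) (t0 : -(3 / 50) ≤ Tl) (t1 : Tl ≤ -(1 / 25))
    (hl : l.im = Tl * MP_b30479_gtS.G2.M13.τl l.re) (hp : pl = 0) (ne : l ≠ ⟨x, hh x⟩)
    (S : SA7 x T k) : False := by
  have a0 := h.s0
  have a1 := h.s1
  have e := lM_eq hl x T
  have far := farK h hl hp (by linarith only [t0]) (by linarith only [t1]) (by linarith only [y0]) (by linarith only [y1])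
  rcases S with S | S | S | S
  · exact finR h z0 ne (by decide) S (P3_lR' e (by decide) (chkD4 r_A7_3_0_m5 (by norm_num)
      (le_trans (by norm_num) x0) (le_trans x1 (by norm_num)) (le_trans (by norm_num) T0)
      (le_trans T1 (by norm_num))
      (le_trans (by norm_num) y0) (le_trans y1 (by norm_num))
      (le_trans (by norm_num) t0) (le_trans t1 (by norm_num))) a0 a1 far)
  · exact finR h z0 ne (by decide) S (P3_lZ' e rfl (chkD4 r_A7_3_1_m5 (by norm_num)
      (le_trans (by norm_num) x0) (le_trans x1 (by norm_num)) (le_trans (by norm_num) T0)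
      (le_trans T1 (by norm_num))
      (le_trans (by norm_num) y0) (le_trans y1 (by norm_num))
      (le_trans (by norm_num) t0) (le_trans t1 (by norm_num))) a0 a1 far)
  · exact finR h z0 ne (by decide) S (P3_lR' e (by decide) (chkD4 r_A7_3_2_m5 (by norm_num)
      (le_trans (by norm_num) x0) (le_trans x1 (by norm_num)) (le_trans (by norm_num) T0)
      (le_trans T1 (by norm_num))
      (le_trans (by norm_num) y0) (le_trans y1 (by norm_num))
      (le_trans (by norm_num) t0) (le_trans t1 (by norm_num))) a0 a1 far)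
  · exact finR h z0 ne (by decide) S (P3_lR' e (by decide) (chkD4 r_A7_3_3_m5 (by norm_num)
      (le_trans (by norm_num) x0) (le_trans x1 (by norm_num)) (le_trans (by norm_num) T0)
      (le_trans T1 (by norm_num))
      (le_trans (by norm_num) y0) (le_trans y1 (by norm_num))
      (le_trans (by norm_num) t0) (le_trans t1 (by norm_num))) a0 a1 far)

theorem cEA_m0 (h : H x T Tl pl k l w) (z0 : 63 / 100 ≤ x) (x0 : 63 / 100 ≤ x) (x1 : x ≤ 13 / 20) (T0 : 87 / 1000 ≤ T) (T1 : T ≤ 229 / 2000)
    (y0 : 1 / 50 ≤ l.re) (y1 : l.re ≤ 1 / 20) (t0 : -(9 / 100) ≤ Tl) (t1 : Tl ≤ -(3 / 40))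
    (hl : l.im = Tl * MP_b30479_gtS.G2.M13.τl l.re) (hp : pl = 0) (ne : l ≠ ⟨x, hh x⟩)
    (S : SEA x T k) : False := by
  have a0 := h.s0
  have a1 := h.s1
  have e := lM_eq hl x T
  have far := farG h hl hp (by linarith only [t0]) (by linarith only [t1]) (by linarith only [y0]) (by linarith only [y1])
  rcases S with S | S | S | S
  · exact finR h z0 ne (by decide) S (P3_lR' e (by decide) (chkD4 r_EA_3_0_m0 (by norm_num)
      (le_trans (by norm_num) x0) (le_trans x1 (by norm_num)) (le_trans (by norm_num) T0)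
      (le_trans T1 (by norm_num))
      (le_trans (by norm_num) y0) (le_trans y1 (by norm_num))
      (le_trans (by norm_num) t0) (le_trans t1 (by norm_num))) a0 a1 far)
  · exact finR h z0 ne (by decide) S (P3_lZ' e rfl (chkD4 r_EA_3_1_m0 (by norm_num)
      (le_trans (by norm_num) x0) (le_trans x1 (by norm_num)) (le_trans (by norm_num) T0)
      (le_trans T1 (by norm_num))
      (le_trans (by norm_num) y0) (le_trans y1 (by norm_num))
      (le_trans (by norm_num) t0) (le_trans t1 (by norm_num))) a0 a1 far)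
  · exact finR h z0 ne (by decide) S (P3_lR' e (by decide) (chkD4 r_EA_3_2_m0 (by norm_num)
      (le_trans (by norm_num) x0) (le_trans x1 (by norm_num)) (le_trans (by norm_num) T0)
      (le_trans T1 (by norm_num))
      (le_trans (by norm_num) y0) (le_trans y1 (by norm_num))
      (le_trans (by norm_num) t0) (le_trans t1 (by norm_num))) a0 a1 far)
  · exact finR h z0 ne (by decide) S (P3_lR' e (by decide) (chkD4 r_EA_3_3_m0 (by norm_num)
      (le_trans (by norm_num) x0) (le_trans x1 (by norm_num)) (le_trans (by norm_num) T0)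
      (le_trans T1 (by norm_num))
      (le_trans (by norm_num) y0) (le_trans y1 (by norm_num))
      (le_trans (by norm_num) t0) (le_trans t1 (by norm_num))) a0 a1 far)

theorem cEA_m1 (h : H x T Tl pl k l w) (z0 : 63 / 100 ≤ x) (x0 : 63 / 100 ≤ x) (x1 : x ≤ 13 / 20) (T0 : 87 / 1000 ≤ T) (T1 : T ≤ 229 / 2000)
    (y0 : 1 / 50 ≤ l.re) (y1 : l.re ≤ 1 / 20) (t0 : -(3 / 40) ≤ Tl) (t1 : Tl ≤ -(3 / 50))
    (hl : l.im = Tl * MP_b30479_gtS.G2.M13.τl l.re) (hp : pl = 0) (ne : l ≠ ⟨x, hh x⟩)
    (S : SEA x T k) : False := by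
  have a0 := h.s0
  have a1 := h.s1
  have e := lM_eq hl x T
  have far := farH h hl hp (by linarith only [t0]) (by linarith only [t1]) (by linarith only [y0]) (by linarith only [y1])
  rcases S with S | S | S | S
  · exact finR h z0 ne (by decide) S (P3_lR' e (by decide) (chkD4 r_EA_3_0_m1 (by norm_num)
      (le_trans (by norm_num) x0) (le_trans x1 (by norm_num)) (le_trans (by norm_num) T0)
      (le_trans T1 (by norm_num))
      (le_trans (by norm_num) y0) (le_trans y1 (by norm_num))
      (le_trans (by norm_num) t0) (le_trans t1 (by norm_num))) a0 a1 far)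
  · exact finR h z0 ne (by decide) S (P3_lZ' e rfl (chkD4 r_EA_3_1_m1 (by norm_num)
      (le_trans (by norm_num) x0) (le_trans x1 (by norm_num)) (le_trans (by norm_num) T0)
      (le_trans T1 (by norm_num))
      (le_trans (by norm_num) y0) (le_trans y1 (by norm_num))
      (le_trans (by norm_num) t0) (le_trans t1 (by norm_num))) a0 a1 far)
  · exact finR h z0 ne (by decide) S (P3_lR' e (by decide) (chkD4 r_EA_3_2_m1 (by norm_num)
      (le_trans (by norm_num) x0) (le_trans x1 (by norm_num)) (le_trans (by norm_num) T0)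
      (le_trans T1 (by norm_num))
      (le_trans (by norm_num) y0) (le_trans y1 (by norm_num))
      (le_trans (by norm_num) t0) (le_trans t1 (by norm_num))) a0 a1 far)
  · exact finR h z0 ne (by decide) S (P3_lR' e (by decide) (chkD4 r_EA_3_3_m1 (by norm_num)
      (le_trans (by norm_num) x0) (le_trans x1 (by norm_num)) (le_trans (by norm_num) T0)
      (le_trans T1 (by norm_num))
      (le_trans (by norm_num) y0) (le_trans y1 (by norm_num))
      (le_trans (by norm_num) t0) (le_trans t1 (by norm_num))) a0 a1 far)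

theorem cEA_m2 (h : H x T Tl pl k l w) (z0 : 63 / 100 ≤ x) (x0 : 63 / 100 ≤ x) (x1 : x ≤ 13 / 20) (T0 : 87 / 1000 ≤ T) (T1 : T ≤ 229 / 2000)
    (y0 : 1 / 50 ≤ l.re) (y1 : l.re ≤ 1 / 20) (t0 : -(3 / 50) ≤ Tl) (t1 : Tl ≤ -(1 / 25))
    (hl : l.im = Tl * MP_b30479_gtS.G2.M13.τl l.re) (hp : pl = 0) (ne : l ≠ ⟨x, hh x⟩)
    (S : SEA x T k) : False := by
  have a0 := h.s0
  have a1 := h.s1
  have e := lM_eq hl x T
  have far := farK h hl hp (by linarith only [t0]) (by linarith only [t1]) (by linarith only [y0]) (by linarith only [y1])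
  rcases S with S | S | S | S
  · exact finR h z0 ne (by decide) S (P3_lR' e (by decide) (chkD4 r_EA_3_0_m2 (by norm_num)
      (le_trans (by norm_num) x0) (le_trans x1 (by norm_num)) (le_trans (by norm_num) T0)
      (le_trans T1 (by norm_num))
      (le_trans (by norm_num) y0) (le_trans y1 (by norm_num))
      (le_trans (by norm_num) t0) (le_trans t1 (by norm_num))) a0 a1 far)
  · exact finR h z0 ne (by decide) S (P3_lZ' e rfl (chkD4 r_EA_3_1_m2 (by norm_num)
      (le_trans (by norm_num) x0) (le_trans x1 (by norm_num)) (le_trans (by norm_num) T0)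
      (le_trans T1 (by norm_num))
      (le_trans (by norm_num) y0) (le_trans y1 (by norm_num))
      (le_trans (by norm_num) t0) (le_trans t1 (by norm_num))) a0 a1 far)
  · exact finR h z0 ne (by decide) S (P3_lR' e (by decide) (chkD4 r_EA_3_2_m2 (by norm_num)
      (le_trans (by norm_num) x0) (le_trans x1 (by norm_num)) (le_trans (by norm_num) T0)
      (le_trans T1 (by norm_num))
      (le_trans (by norm_num) y0) (le_trans y1 (by norm_num))
      (le_trans (by norm_num) t0) (le_trans t1 (by norm_num))) a0 a1 far)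
  · exact finR h z0 ne (by decide) S (P3_lR' e (by decide) (chkD4 r_EA_3_3_m2 (by norm_num)
      (le_trans (by norm_num) x0) (le_trans x1 (by norm_num)) (le_trans (by norm_num) T0)
      (le_trans T1 (by norm_num))
      (le_trans (by norm_num) y0) (le_trans y1 (by norm_num))
      (le_trans (by norm_num) t0) (le_trans t1 (by norm_num))) a0 a1 far)

theorem cEA_m3 (h : H x T Tl pl k l w) (z0 : 63 / 100 ≤ x) (x0 : 63 / 100 ≤ x) (x1 : x ≤ 13 / 20) (T0 : 87 / 1000 ≤ T) (T1 : T ≤ 229 / 2000)
    (y0 : 1 / 20 ≤ l.re) (y1 : l.re ≤ 3 / 20) (t0 : -(9 / 100) ≤ Tl) (t1 : Tl ≤ -(3 / 40))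
    (hl : l.im = Tl * MP_b30479_gtS.G2.M13.τl l.re) (hp : pl = 0) (ne : l ≠ ⟨x, hh x⟩)
    (S : SEA x T k) : False := by
  have a0 := h.s0
  have a1 := h.s1
  have e := lM_eq hl x T
  have far := farG h hl hp (by linarith only [t0]) (by linarith only [t1]) (by linarith only [y0]) (by linarith only [y1])
  rcases S with S | S | S | S
  · exact finR h z0 ne (by decide) S (P3_lR' e (by decide) (chkD4 r_EA_3_0_m3 (by norm_num)
      (le_trans (by norm_num) x0) (le_trans x1 (by norm_num)) (le_trans (by norm_num) T0)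
      (le_trans T1 (by norm_num))
      (le_trans (by norm_num) y0) (le_trans y1 (by norm_num))
      (le_trans (by norm_num) t0) (le_trans t1 (by norm_num))) a0 a1 far)
  · exact finR h z0 ne (by decide) S (P3_lZ' e rfl (chkD4 r_EA_3_1_m3 (by norm_num)
      (le_trans (by norm_num) x0) (le_trans x1 (by norm_num)) (le_trans (by norm_num) T0)
      (le_trans T1 (by norm_num))
      (le_trans (by norm_num) y0) (le_trans y1 (by norm_num))
      (le_trans (by norm_num) t0) (le_trans t1 (by norm_num))) a0 a1 far)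
  · exact finR h z0 ne (by decide) S (P3_lR' e (by decide) (chkD4 r_EA_3_2_m3 (by norm_num)
      (le_trans (by norm_num) x0) (le_trans x1 (by norm_num)) (le_trans (by norm_num) T0)
      (le_trans T1 (by norm_num))
      (le_trans (by norm_num) y0) (le_trans y1 (by norm_num))
      (le_trans (by norm_num) t0) (le_trans t1 (by norm_num))) a0 a1 far)
  · exact finR h z0 ne (by decide) S (P3_lR' e (by decide) (chkD4 r_EA_3_3_m3 (by norm_num)
      (le_trans (by norm_num) x0) (le_trans x1 (by norm_num)) (le_trans (by norm_num) T0)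
      (le_trans T1 (by norm_num))
      (le_trans (by norm_num) y0) (le_trans y1 (by norm_num))
      (le_trans (by norm_num) t0) (le_trans t1 (by norm_num))) a0 a1 far)

theorem cEA_m4 (h : H x T Tl pl k l w) (z0 : 63 / 100 ≤ x) (x0 : 63 / 100 ≤ x) (x1 : x ≤ 13 / 20) (T0 : 87 / 1000 ≤ T) (T1 : T ≤ 229 / 2000)
    (y0 : 1 / 20 ≤ l.re) (y1 : l.re ≤ 3 / 20) (t0 : -(3 / 40) ≤ Tl) (t1 : Tl ≤ -(3 / 50))
    (hl : l.im = Tl * MP_b30479_gtS.G2.M13.τl l.re) (hp : pl = 0) (ne : l ≠ ⟨x, hh x⟩)
    (S : SEA x T k) : False := by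
  have a0 := h.s0
  have a1 := h.s1
  have e := lM_eq hl x T
  have far := farH h hl hp (by linarith only [t0]) (by linarith only [t1]) (by linarith only [y0]) (by linarith only [y1])
  rcases S with S | S | S | S
  · exact finR h z0 ne (by decide) S (P3_lR' e (by decide) (chkD4 r_EA_3_0_m4 (by norm_num)
      (le_trans (by norm_num) x0) (le_trans x1 (by norm_num)) (le_trans (by norm_num) T0)
      (le_trans T1 (by norm_num))
      (le_trans (by norm_num) y0) (le_trans y1 (by norm_num))
      (le_trans (by norm_num) t0) (le_trans t1 (by norm_num))) a0 a1 far)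
  · exact finR h z0 ne (by decide) S (P3_lZ' e rfl (chkD4 r_EA_3_1_m4 (by norm_num)
      (le_trans (by norm_num) x0) (le_trans x1 (by norm_num)) (le_trans (by norm_num) T0)
      (le_trans T1 (by norm_num))
      (le_trans (by norm_num) y0) (le_trans y1 (by norm_num))
      (le_trans (by norm_num) t0) (le_trans t1 (by norm_num))) a0 a1 far)
  · exact finR h z0 ne (by decide) S (P3_lR' e (by decide) (chkD4 r_EA_3_2_m4 (by norm_num)
      (le_trans (by norm_num) x0) (le_trans x1 (by norm_num)) (le_trans (by norm_num) T0)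
      (le_trans T1 (by norm_num))
      (le_trans (by norm_num) y0) (le_trans y1 (by norm_num))
      (le_trans (by norm_num) t0) (le_trans t1 (by norm_num))) a0 a1 far)
  · exact finR h z0 ne (by decide) S (P3_lR' e (by decide) (chkD4 r_EA_3_3_m4 (by norm_num)
      (le_trans (by norm_num) x0) (le_trans x1 (by norm_num)) (le_trans (by norm_num) T0)
      (le_trans T1 (by norm_num))
      (le_trans (by norm_num) y0) (le_trans y1 (by norm_num))
      (le_trans (by norm_num) t0) (le_trans t1 (by norm_num))) a0 a1 far)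

theorem cEA_m5 (h : H x T Tl pl k l w) (z0 : 63 / 100 ≤ x) (x0 : 63 / 100 ≤ x) (x1 : x ≤ 13 / 20) (T0 : 87 / 1000 ≤ T) (T1 : T ≤ 229 / 2000)
    (y0 : 1 / 20 ≤ l.re) (y1 : l.re ≤ 3 / 20) (t0 : -(3 / 50) ≤ Tl) (t1 : Tl ≤ -(1 / 25))
    (hl : l.im = Tl * MP_b30479_gtS.G2.M13.τl l.re) (hp : pl = 0) (ne : l ≠ ⟨x, hh x⟩)
    (S : SEA x T k) : False := by
  have a0 := h.s0
  have a1 := h.s1
  have e := lM_eq hl x T
  have far := farK h hl hp (by linarith only [t0]) (by linarith only [t1]) (by linarith only [y0]) (by linarith only [y1])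
  rcases S with S | S | S | S
  · exact finR h z0 ne (by decide) S (P3_lR' e (by decide) (chkD4 r_EA_3_0_m5 (by norm_num)
      (le_trans (by norm_num) x0) (le_trans x1 (by norm_num)) (le_trans (by norm_num) T0)
      (le_trans T1 (by norm_num))
      (le_trans (by norm_num) y0) (le_trans y1 (by norm_num))
      (le_trans (by norm_num) t0) (le_trans t1 (by norm_num))) a0 a1 far)
  · exact finR h z0 ne (by decide) S (P3_lZ' e rfl (chkD4 r_EA_3_1_m5 (by norm_num)
      (le_trans (by norm_num) x0) (le_trans x1 (by norm_num)) (le_trans (by norm_num) T0)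
      (le_trans T1 (by norm_num))
      (le_trans (by norm_num) y0) (le_trans y1 (by norm_num))
      (le_trans (by norm_num) t0) (le_trans t1 (by norm_num))) a0 a1 far)
  · exact finR h z0 ne (by decide) S (P3_lR' e (by decide) (chkD4 r_EA_3_2_m5 (by norm_num)
      (le_trans (by norm_num) x0) (le_trans x1 (by norm_num)) (le_trans (by norm_num) T0)
      (le_trans T1 (by norm_num))
      (le_trans (by norm_num) y0) (le_trans y1 (by norm_num))
      (le_trans (by norm_num) t0) (le_trans t1 (by norm_num))) a0 a1 far)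
  · exact finR h z0 ne (by decide) S (P3_lR' e (by decide) (chkD4 r_EA_3_3_m5 (by norm_num)
      (le_trans (by norm_num) x0) (le_trans x1 (by norm_num)) (le_trans (by norm_num) T0)
      (le_trans T1 (by norm_num))
      (le_trans (by norm_num) y0) (le_trans y1 (by norm_num))
      (le_trans (by norm_num) t0) (le_trans t1 (by norm_num))) a0 a1 far)

theorem cEA_m6 (h : H x T Tl pl k l w) (z0 : 63 / 100 ≤ x) (x0 : 63 / 100 ≤ x) (x1 : x ≤ 13 / 20) (T0 : 87 / 1000 ≤ T) (T1 : T ≤ 229 / 2000)
    (y0 : 0 ≤ l.re) (y1 : l.re ≤ 1 / 50) (t0 : -(9 / 100) ≤ Tl) (t1 : Tl ≤ 1 / 200)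
    (hl : l.im = Tl * MP_b30479_gtS.G2.M13.τl l.re) (hp : pl = 0) (ne : l ≠ ⟨x, hh x⟩)
    (S : SEA x T k) : False := by
  have a0 := h.s0
  have a1 := h.s1
  have e := lM_eq hl x T
  have far := farM h hl hp
  rcases S with S | S | S | S
  · exact finR h z0 ne (by decide) S (P3_lR' e (by decide) (chkD4 r_EA_3_0_m6 (by norm_num)
      (le_trans (by norm_num) x0) (le_trans x1 (by norm_num)) (le_trans (by norm_num) T0)
      (le_trans T1 (by norm_num))
      (le_trans (by norm_num) y0) (le_trans y1 (by norm_num))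
      (le_trans (by norm_num) t0) (by push_cast; linarith only [T0, a1])) a0 a1 far)
  · exact finR h z0 ne (by decide) S (P3_lZ' e rfl (chkD4 r_EA_3_1_m6 (by norm_num)
      (le_trans (by norm_num) x0) (le_trans x1 (by norm_num)) (le_trans (by norm_num) T0)
      (le_trans T1 (by norm_num))
      (le_trans (by norm_num) y0) (le_trans y1 (by norm_num))
      (le_trans (by norm_num) t0) (by push_cast; linarith only [T0, a1])) a0 a1 far)
  · exact finR h z0 ne (by decide) S (P3_lR' e (by decide) (chkD4 r_EA_3_2_m6 (by norm_num)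
      (le_trans (by norm_num) x0) (le_trans x1 (by norm_num)) (le_trans (by norm_num) T0)
      (le_trans T1 (by norm_num))
      (le_trans (by norm_num) y0) (le_trans y1 (by norm_num))
      (le_trans (by norm_num) t0) (by push_cast; linarith only [T0, a1])) a0 a1 far)
  · exact finR h z0 ne (by decide) S (P3_lR' e (by decide) (chkD4 r_EA_3_3_m6 (by norm_num)
      (le_trans (by norm_num) x0) (le_trans x1 (by norm_num)) (le_trans (by norm_num) T0)
      (le_trans T1 (by norm_num))
      (le_trans (by norm_num) y0) (le_trans y1 (by norm_num))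
      (le_trans (by norm_num) t0) (by push_cast; linarith only [T0, a1])) a0 a1 far)

theorem cEA_m7 (h : H x T Tl pl k l w) (z0 : 63 / 100 ≤ x) (x0 : 63 / 100 ≤ x) (x1 : x ≤ 13 / 20) (T0 : 87 / 1000 ≤ T) (T1 : T ≤ 229 / 2000)
    (y0 : 1 / 50 ≤ l.re) (y1 : l.re ≤ 1 / 20) (t0 : -(1 / 25) ≤ Tl) (t1 : Tl ≤ 1 / 200)
    (hl : l.im = Tl * MP_b30479_gtS.G2.M13.τl l.re) (hp : pl = 0) (ne : l ≠ ⟨x, hh x⟩)
    (S : SEA x T k) : False := by
  have a0 := h.s0
  have a1 := h.s1
  have e := lM_eq hl x T
  have far := farM h hl hp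
  rcases S with S | S | S | S
  · exact finR h z0 ne (by decide) S (P3_lR' e (by decide) (chkD4 r_EA_3_0_m7 (by norm_num)
      (le_trans (by norm_num) x0) (le_trans x1 (by norm_num)) (le_trans (by norm_num) T0)
      (le_trans T1 (by norm_num))
      (le_trans (by norm_num) y0) (le_trans y1 (by norm_num))
      (le_trans (by norm_num) t0) (by push_cast; linarith only [T0, a1])) a0 a1 far)
  · exact finR h z0 ne (by decide) S (P3_lZ' e rfl (chkD4 r_EA_3_1_m7 (by norm_num)
      (le_trans (by norm_num) x0) (le_trans x1 (by norm_num)) (le_trans (by norm_num) T0)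
      (le_trans T1 (by norm_num))
      (le_trans (by norm_num) y0) (le_trans y1 (by norm_num))
      (le_trans (by norm_num) t0) (by push_cast; linarith only [T0, a1])) a0 a1 far)
  · exact finR h z0 ne (by decide) S (P3_lR' e (by decide) (chkD4 r_EA_3_2_m7 (by norm_num)
      (le_trans (by norm_num) x0) (le_trans x1 (by norm_num)) (le_trans (by norm_num) T0)
      (le_trans T1 (by norm_num))
      (le_trans (by norm_num) y0) (le_trans y1 (by norm_num))
      (le_trans (by norm_num) t0) (by push_cast; linarith only [T0, a1])) a0 a1 far)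
  · exact finR h z0 ne (by decide) S (P3_lR' e (by decide) (chkD4 r_EA_3_3_m7 (by norm_num)
      (le_trans (by norm_num) x0) (le_trans x1 (by norm_num)) (le_trans (by norm_num) T0)
      (le_trans T1 (by norm_num))
      (le_trans (by norm_num) y0) (le_trans y1 (by norm_num))
      (le_trans (by norm_num) t0) (by push_cast; linarith only [T0, a1])) a0 a1 far)

theorem cEA_m8 (h : H x T Tl pl k l w) (z0 : 63 / 100 ≤ x) (x0 : 63 / 100 ≤ x) (x1 : x ≤ 13 / 20) (T0 : 87 / 1000 ≤ T) (T1 : T ≤ 229 / 2000)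
    (y0 : 1 / 20 ≤ l.re) (y1 : l.re ≤ 3 / 20) (t0 : -(1 / 25) ≤ Tl) (t1 : Tl ≤ 1 / 200)
    (hl : l.im = Tl * MP_b30479_gtS.G2.M13.τl l.re) (hp : pl = 0) (ne : l ≠ ⟨x, hh x⟩)
    (S : SEA x T k) : False := by
  have a0 := h.s0
  have a1 := h.s1
  have e := lM_eq hl x T
  have far := farM h hl hp
  rcases S with S | S | S | S
  · exact finR h z0 ne (by decide) S (P3_lR' e (by decide) (chkD4 r_EA_3_0_m8 (by norm_num)
      (le_trans (by norm_num) x0) (le_trans x1 (by norm_num)) (le_trans (by norm_num) T0)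
      (le_trans T1 (by norm_num))
      (le_trans (by norm_num) y0) (le_trans y1 (by norm_num))
      (le_trans (by norm_num) t0) (by push_cast; linarith only [T0, a1])) a0 a1 far)
  · exact finR h z0 ne (by decide) S (P3_lZ' e rfl (chkD4 r_EA_3_1_m8 (by norm_num)
      (le_trans (by norm_num) x0) (le_trans x1 (by norm_num)) (le_trans (by norm_num) T0)
      (le_trans T1 (by norm_num))
      (le_trans (by norm_num) y0) (le_trans y1 (by norm_num))
      (le_trans (by norm_num) t0) (by push_cast; linarith only [T0, a1])) a0 a1 far)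
  · exact finR h z0 ne (by decide) S (P3_lR' e (by decide) (chkD4 r_EA_3_2_m8 (by norm_num)
      (le_trans (by norm_num) x0) (le_trans x1 (by norm_num)) (le_trans (by norm_num) T0)
      (le_trans T1 (by norm_num))
      (le_trans (by norm_num) y0) (le_trans y1 (by norm_num))
      (le_trans (by norm_num) t0) (by push_cast; linarith only [T0, a1])) a0 a1 far)
  · exact finR h z0 ne (by decide) S (P3_lR' e (by decide) (chkD4 r_EA_3_3_m8 (by norm_num)
      (le_trans (by norm_num) x0) (le_trans x1 (by norm_num)) (le_trans (by norm_num) T0)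
      (le_trans T1 (by norm_num))
      (le_trans (by norm_num) y0) (le_trans y1 (by norm_num))
      (le_trans (by norm_num) t0) (by push_cast; linarith only [T0, a1])) a0 a1 far)

theorem cEA_m9 (h : H x T Tl pl k l w) (z0 : 63 / 100 ≤ x) (x0 : 63 / 100 ≤ x) (x1 : x ≤ 13 / 20) (T0 : 87 / 1000 ≤ T) (T1 : T ≤ 229 / 2000)
    (y0 : 3 / 20 ≤ l.re) (y1 : l.re ≤ 1 / 2) (t0 : -(9 / 100) ≤ Tl) (t1 : Tl ≤ 1 / 200)
    (hl : l.im = Tl * MP_b30479_gtS.G2.M13.τl l.re) (hp : pl = 0) (ne : l ≠ ⟨x, hh x⟩)
    (S : SEA x T k) : False := by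
  have a0 := h.s0
  have a1 := h.s1
  have e := lM_eq hl x T
  have far := farM h hl hp
  rcases S with S | S | S | S
  · exact finR h z0 ne (by decide) S (P3_lR' e (by decide) (chkD4 r_EA_3_0_m9 (by norm_num)
      (le_trans (by norm_num) x0) (le_trans x1 (by norm_num)) (le_trans (by norm_num) T0)
      (le_trans T1 (by norm_num))
      (le_trans (by norm_num) y0) (le_trans y1 (by norm_num))
      (le_trans (by norm_num) t0) (by push_cast; linarith only [T0, a1])) a0 a1 far)
  · exact finR h z0 ne (by decide) S (P3_lZ' e rfl (chkD4 r_EA_3_1_m9 (by norm_num)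
      (le_trans (by norm_num) x0) (le_trans x1 (by norm_num)) (le_trans (by norm_num) T0)
      (le_trans T1 (by norm_num))
      (le_trans (by norm_num) y0) (le_trans y1 (by norm_num))
      (le_trans (by norm_num) t0) (by push_cast; linarith only [T0, a1])) a0 a1 far)
  · exact finR h z0 ne (by decide) S (P3_lR' e (by decide) (chkD4 r_EA_3_2_m9 (by norm_num)
      (le_trans (by norm_num) x0) (le_trans x1 (by norm_num)) (le_trans (by norm_num) T0)
      (le_trans T1 (by norm_num))
      (le_trans (by norm_num) y0) (le_trans y1 (by norm_num))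
      (le_trans (by norm_num) t0) (by push_cast; linarith only [T0, a1])) a0 a1 far)
  · exact finR h z0 ne (by decide) S (P3_lR' e (by decide) (chkD4 r_EA_3_3_m9 (by norm_num)
      (le_trans (by norm_num) x0) (le_trans x1 (by norm_num)) (le_trans (by norm_num) T0)
      (le_trans T1 (by norm_num))
      (le_trans (by norm_num) y0) (le_trans y1 (by norm_num))
      (le_trans (by norm_num) t0) (by push_cast; linarith only [T0, a1])) a0 a1 far)

theorem cEC_m0 (h : H x T Tl pl k l w) (z0 : 63 / 100 ≤ x) (x0 : 63 / 100 ≤ x) (x1 : x ≤ 13 / 20) (T0 : 87 / 1000 ≤ T) (T1 : T ≤ 229 / 2000)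
    (y0 : 1 / 2 ≤ l.re) (y1 : l.re ≤ 3 / 5) (t0 : -(9 / 100) ≤ Tl) (t1 : Tl ≤ 1 / 200)
    (hl : l.im = Tl * MP_b30479_gtS.G2.M13.τl l.re) (hp : pl = 0) (ne : l ≠ ⟨x, hh x⟩)
    (S : SEC x T k) : False := by
  have a0 := h.s0
  have a1 := h.s1
  have e := lM_eq hl x T
  rcases S with S | S
  · exact finK h z0 ne (by decide) S (P3_lK' e (by decide) (chkD4 r_EC_3_0_m0 (by norm_num)
      (le_trans (by norm_num) x0) (le_trans x1 (by norm_num)) (le_trans (by norm_num) T0)
      (le_trans T1 (by norm_num))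
      (le_trans (by norm_num) y0) (le_trans y1 (by norm_num))
      (le_trans (by norm_num) t0) (by push_cast; linarith only [T0, a1])) a0 a1 w)
  · exact finK h z0 ne (by decide) S (P3_lY' e rfl (chkD4 r_EC_3_1_m0 (by norm_num)
      (le_trans (by norm_num) x0) (le_trans x1 (by norm_num)) (le_trans (by norm_num) T0)
      (le_trans T1 (by norm_num))
      (le_trans (by norm_num) y0) (le_trans y1 (by norm_num))
      (le_trans (by norm_num) t0) (by push_cast; linarith only [T0, a1])) a0 a1 w)

theorem cEC_m1 (h : H x T Tl pl k l w) (z0 : 63 / 100 ≤ x) (x0 : 63 / 100 ≤ x) (x1 : x ≤ 13 / 20) (T0 : 87 / 1000 ≤ T) (T1 : T ≤ 229 / 2000)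
    (y0 : 3 / 5 ≤ l.re) (y1 : l.re ≤ 7 / 10) (t0 : -(9 / 100) ≤ Tl) (t1 : Tl ≤ -(1 / 100))
    (hl : l.im = Tl * MP_b30479_gtS.G2.M13.τl l.re) (hp : pl = 0) (ne : l ≠ ⟨x, hh x⟩)
    (S : SEC x T k) : False := by
  have a0 := h.s0
  have a1 := h.s1
  have e := lM_eq hl x T
  rcases S with S | S
  · exact finK h z0 ne (by decide) S (P3_lK' e (by decide) (chkD4 r_EC_3_0_m1 (by norm_num)
      (le_trans (by norm_num) x0) (le_trans x1 (by norm_num)) (le_trans (by norm_num) T0)
      (le_trans T1 (by norm_num))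
      (le_trans (by norm_num) y0) (le_trans y1 (by norm_num))
      (le_trans (by norm_num) t0) (le_trans t1 (by norm_num))) a0 a1 w)
  · exact finK h z0 ne (by decide) S (P3_lY' e rfl (chkD4 r_EC_3_1_m1 (by norm_num)
      (le_trans (by norm_num) x0) (le_trans x1 (by norm_num)) (le_trans (by norm_num) T0)
      (le_trans T1 (by norm_num))
      (le_trans (by norm_num) y0) (le_trans y1 (by norm_num))
      (le_trans (by norm_num) t0) (le_trans t1 (by norm_num))) a0 a1 w)

theorem cEC_m2 (h : H x T Tl pl k l w) (z0 : 63 / 100 ≤ x) (x0 : 63 / 100 ≤ x) (x1 : x ≤ 13 / 20) (T0 : 87 / 1000 ≤ T) (T1 : T ≤ 229 / 2000)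
    (y0 : 7 / 10 ≤ l.re) (y1 : l.re ≤ 3 / 4) (t0 : -(9 / 100) ≤ Tl) (t1 : Tl ≤ 1 / 200)
    (hl : l.im = Tl * MP_b30479_gtS.G2.M13.τl l.re) (hp : pl = 0) (ne : l ≠ ⟨x, hh x⟩)
    (S : SEC x T k) : False := by
  have a0 := h.s0
  have a1 := h.s1
  have e := lM_eq hl x T
  rcases S with S | S
  · exact finK h z0 ne (by decide) S (P3_lK' e (by decide) (chkD4 r_EC_3_0_m2 (by norm_num)
      (le_trans (by norm_num) x0) (le_trans x1 (by norm_num)) (le_trans (by norm_num) T0)
      (le_trans T1 (by norm_num))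
      (le_trans (by norm_num) y0) (le_trans y1 (by norm_num))
      (le_trans (by norm_num) t0) (by push_cast; linarith only [T0, a1])) a0 a1 w)
  · exact finK h z0 ne (by decide) S (P3_lY' e rfl (chkD4 r_EC_3_1_m2 (by norm_num)
      (le_trans (by norm_num) x0) (le_trans x1 (by norm_num)) (le_trans (by norm_num) T0)
      (le_trans T1 (by norm_num))
      (le_trans (by norm_num) y0) (le_trans y1 (by norm_num))
      (le_trans (by norm_num) t0) (by push_cast; linarith only [T0, a1])) a0 a1 w)

theorem cEC_m3 (h : H x T Tl pl k l w) (z0 : 63 / 100 ≤ x) (x0 : 63 / 100 ≤ x) (x1 : x ≤ 13 / 20) (T0 : 87 / 1000 ≤ T) (T1 : T ≤ 229 / 2000)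
    (y0 : 3 / 4 ≤ l.re) (y1 : l.re ≤ 4 / 5) (t0 : -(9 / 100) ≤ Tl) (t1 : Tl ≤ 1 / 200)
    (hl : l.im = Tl * MP_b30479_gtS.G2.M13.τl l.re) (hp : pl = 0) (ne : l ≠ ⟨x, hh x⟩)
    (S : SEC x T k) : False := by
  have a0 := h.s0
  have a1 := h.s1
  have e := lM_eq hl x T
  rcases S with S | S
  · exact finK h z0 ne (by decide) S (P3_lK' e (by decide) (chkD4 r_EC_3_0_m3 (by norm_num)
      (le_trans (by norm_num) x0) (le_trans x1 (by norm_num)) (le_trans (by norm_num) T0)
      (le_trans T1 (by norm_num))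
      (le_trans (by norm_num) y0) (le_trans y1 (by norm_num))
      (le_trans (by norm_num) t0) (by push_cast; linarith only [T0, a1])) a0 a1 w)
  · exact finK h z0 ne (by decide) S (P3_lY' e rfl (chkD4 r_EC_3_1_m3 (by norm_num)
      (le_trans (by norm_num) x0) (le_trans x1 (by norm_num)) (le_trans (by norm_num) T0)
      (le_trans T1 (by norm_num))
      (le_trans (by norm_num) y0) (le_trans y1 (by norm_num))
      (le_trans (by norm_num) t0) (by push_cast; linarith only [T0, a1])) a0 a1 w)

theorem cEN_m0 (h : H x T Tl pl k l w) (z0 : 63 / 100 ≤ x) (x0 : 63 / 100 ≤ x) (x1 : x ≤ 13 / 20) (T0 : 87 / 1000 ≤ T) (T1 : T ≤ 47 / 500)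
    (y0 : 3 / 5 ≤ l.re) (y1 : l.re ≤ 7 / 10) (t0 : -(1 / 100) ≤ Tl) (t1 : Tl ≤ -(3 / 1000))
    (hl : l.im = Tl * MP_b30479_gtS.G2.M13.τl l.re) (hp : pl = 0)
    (S : SEN x T k) : False := by
  have a0 := h.s0
  have a1 := h.s1
  have e := lM_eq hl x T
  exact finY h z0 (by decide) rfl S.1 (P3_lY' e rfl (chkD4 r_EN_3_0_m0 (by norm_num)
      (le_trans (by norm_num) x0) (le_trans x1 (by norm_num)) (le_trans (by norm_num) T0)
      (le_trans T1 (by norm_num))
      (le_trans (by norm_num) y0) (le_trans y1 (by norm_num))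
      (le_trans (by norm_num) t0) (le_trans t1 (by norm_num))) a0 a1 w)

theorem cEU_u0 (h : H x T Tl pl k l w) (z0 : 63 / 100 ≤ x) (x0 : 63 / 100 ≤ x) (x1 : x ≤ 13 / 20) (T0 : 87 / 1000 ≤ T) (T1 : T ≤ 229 / 2000)
    (y0 : 0 ≤ l.re) (y1 : l.re ≤ 1 / 100) (t0 : -(9 / 100) ≤ Tl) (t1 : Tl ≤ 0)
    (hl : l.im = 16 / 100 * MP_b30479_gtS.G2.M13.τl l.re)
    (hp : pl = 16 / 100 * MP_b30479_gtS.G2.M13.τl l.re)
    (S : SEU x T k) : False := by
  have a0 := h.s0
  have a1 := h.s1
  have ne := ne_up h z0 hl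
  have e := lU_eq hl x T Tl
  have far := farU h t1 hl hp
  rcases S with S | S
  · exact finR h z0 ne (by decide) S (P3_lR' e (by decide) (chkD4 r_EU_3_0_u0 (by norm_num)
      (le_trans (by norm_num) x0) (le_trans x1 (by norm_num)) (le_trans (by norm_num) T0)
      (le_trans T1 (by norm_num))
      (le_trans (by norm_num) y0) (le_trans y1 (by norm_num))
      (le_trans (by norm_num) t0) (by push_cast; linarith only [T0, a1])) a0 a1 far)
  · exact finR h z0 ne (by decide) S (P3_lZ' e rfl (chkD4 r_EU_3_1_u0 (by norm_num)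
      (le_trans (by norm_num) x0) (le_trans x1 (by norm_num)) (le_trans (by norm_num) T0)
      (le_trans T1 (by norm_num))
      (le_trans (by norm_num) y0) (le_trans y1 (by norm_num))
      (le_trans (by norm_num) t0) (by push_cast; linarith only [T0, a1])) a0 a1 far)

theorem cEU_u1 (h : H x T Tl pl k l w) (z0 : 63 / 100 ≤ x) (x0 : 63 / 100 ≤ x) (x1 : x ≤ 13 / 20) (T0 : 87 / 1000 ≤ T) (T1 : T ≤ 229 / 2000)
    (y0 : 1 / 100 ≤ l.re) (y1 : l.re ≤ 3 / 100) (t0 : -(9 / 100) ≤ Tl) (t1 : Tl ≤ 0)
    (hl : l.im = 16 / 100 * MP_b30479_gtS.G2.M13.τl l.re)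
    (hp : pl = 16 / 100 * MP_b30479_gtS.G2.M13.τl l.re)
    (S : SEU x T k) : False := by
  have a0 := h.s0
  have a1 := h.s1
  have ne := ne_up h z0 hl
  have e := lU_eq hl x T Tl
  have far := farU h t1 hl hp
  rcases S with S | S
  · exact finR h z0 ne (by decide) S (P3_lR' e (by decide) (chkD4 r_EU_3_0_u1 (by norm_num)
      (le_trans (by norm_num) x0) (le_trans x1 (by norm_num)) (le_trans (by norm_num) T0)
      (le_trans T1 (by norm_num))
      (le_trans (by norm_num) y0) (le_trans y1 (by norm_num))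
      (le_trans (by norm_num) t0) (by push_cast; linarith only [T0, a1])) a0 a1 far)
  · exact finR h z0 ne (by decide) S (P3_lZ' e rfl (chkD4 r_EU_3_1_u1 (by norm_num)
      (le_trans (by norm_num) x0) (le_trans x1 (by norm_num)) (le_trans (by norm_num) T0)
      (le_trans T1 (by norm_num))
      (le_trans (by norm_num) y0) (le_trans y1 (by norm_num))
      (le_trans (by norm_num) t0) (by push_cast; linarith only [T0, a1])) a0 a1 far)

theorem cEU_u2 (h : H x T Tl pl k l w) (z0 : 63 / 100 ≤ x) (x0 : 63 / 100 ≤ x) (x1 : x ≤ 13 / 20) (T0 : 87 / 1000 ≤ T) (T1 : T ≤ 229 / 2000)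
    (y0 : 3 / 100 ≤ l.re) (y1 : l.re ≤ 1 / 10) (t0 : -(9 / 100) ≤ Tl) (t1 : Tl ≤ 0)
    (hl : l.im = 16 / 100 * MP_b30479_gtS.G2.M13.τl l.re)
    (hp : pl = 16 / 100 * MP_b30479_gtS.G2.M13.τl l.re)
    (S : SEU x T k) : False := by
  have a0 := h.s0
  have a1 := h.s1
  have ne := ne_up h z0 hl
  have e := lU_eq hl x T Tl
  have far := farU h t1 hl hp
  rcases S with S | S
  · exact finR h z0 ne (by decide) S (P3_lR' e (by decide) (chkD4 r_EU_3_0_u2 (by norm_num)
      (le_trans (by norm_num) x0) (le_trans x1 (by norm_num)) (le_trans (by norm_num) T0)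
      (le_trans T1 (by norm_num))
      (le_trans (by norm_num) y0) (le_trans y1 (by norm_num))
      (le_trans (by norm_num) t0) (by push_cast; linarith only [T0, a1])) a0 a1 far)
  · exact finR h z0 ne (by decide) S (P3_lZ' e rfl (chkD4 r_EU_3_1_u2 (by norm_num)
      (le_trans (by norm_num) x0) (le_trans x1 (by norm_num)) (le_trans (by norm_num) T0)
      (le_trans T1 (by norm_num))
      (le_trans (by norm_num) y0) (le_trans y1 (by norm_num))
      (le_trans (by norm_num) t0) (by push_cast; linarith only [T0, a1])) a0 a1 far)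

theorem cEU_u3 (h : H x T Tl pl k l w) (z0 : 63 / 100 ≤ x) (x0 : 63 / 100 ≤ x) (x1 : x ≤ 13 / 20) (T0 : 87 / 1000 ≤ T) (T1 : T ≤ 229 / 2000)
    (y0 : 1 / 10 ≤ l.re) (y1 : l.re ≤ 1 / 2) (t0 : -(9 / 100) ≤ Tl) (t1 : Tl ≤ 0)
    (hl : l.im = 16 / 100 * MP_b30479_gtS.G2.M13.τl l.re)
    (hp : pl = 16 / 100 * MP_b30479_gtS.G2.M13.τl l.re)
    (S : SEU x T k) : False := by
  have a0 := h.s0
  have a1 := h.s1
  have ne := ne_up h z0 hl
  have e := lU_eq hl x T Tl
  have far := farU h t1 hl hp
  rcases S with S | S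
  · exact finR h z0 ne (by decide) S (P3_lR' e (by decide) (chkD4 r_EU_3_0_u3 (by norm_num)
      (le_trans (by norm_num) x0) (le_trans x1 (by norm_num)) (le_trans (by norm_num) T0)
      (le_trans T1 (by norm_num))
      (le_trans (by norm_num) y0) (le_trans y1 (by norm_num))
      (le_trans (by norm_num) t0) (by push_cast; linarith only [T0, a1])) a0 a1 far)
  · exact finR h z0 ne (by decide) S (P3_lZ' e rfl (chkD4 r_EU_3_1_u3 (by norm_num)
      (le_trans (by norm_num) x0) (le_trans x1 (by norm_num)) (le_trans (by norm_num) T0)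
      (le_trans T1 (by norm_num))
      (le_trans (by norm_num) y0) (le_trans y1 (by norm_num))
      (le_trans (by norm_num) t0) (by push_cast; linarith only [T0, a1])) a0 a1 far)

theorem cEU_u4 (h : H x T Tl pl k l w) (z0 : 63 / 100 ≤ x) (x0 : 63 / 100 ≤ x) (x1 : x ≤ 13 / 20) (T0 : 87 / 1000 ≤ T) (T1 : T ≤ 229 / 2000)
    (y0 : 1 / 2 ≤ l.re) (y1 : l.re ≤ 3 / 4) (t0 : -(9 / 100) ≤ Tl) (t1 : Tl ≤ 0)
    (hl : l.im = 16 / 100 * MP_b30479_gtS.G2.M13.τl l.re)
    (hp : pl = 16 / 100 * MP_b30479_gtS.G2.M13.τl l.re)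
    (S : SEU x T k) : False := by
  have a0 := h.s0
  have a1 := h.s1
  have ne := ne_up h z0 hl
  have e := lU_eq hl x T Tl
  have far := farU h t1 hl hp
  rcases S with S | S
  · exact finR h z0 ne (by decide) S (P3_lR' e (by decide) (chkD4 r_EU_3_0_u4 (by norm_num)
      (le_trans (by norm_num) x0) (le_trans x1 (by norm_num)) (le_trans (by norm_num) T0)
      (le_trans T1 (by norm_num))
      (le_trans (by norm_num) y0) (le_trans y1 (by norm_num))
      (le_trans (by norm_num) t0) (by push_cast; linarith only [T0, a1])) a0 a1 far)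
  · exact finR h z0 ne (by decide) S (P3_lZ' e rfl (chkD4 r_EU_3_1_u4 (by norm_num)
      (le_trans (by norm_num) x0) (le_trans x1 (by norm_num)) (le_trans (by norm_num) T0)
      (le_trans T1 (by norm_num))
      (le_trans (by norm_num) y0) (le_trans y1 (by norm_num))
      (le_trans (by norm_num) t0) (by push_cast; linarith only [T0, a1])) a0 a1 far)

theorem cEU_u5 (h : H x T Tl pl k l w) (z0 : 63 / 100 ≤ x) (x0 : 63 / 100 ≤ x) (x1 : x ≤ 13 / 20) (T0 : 87 / 1000 ≤ T) (T1 : T ≤ 229 / 2000)
    (y0 : 3 / 4 ≤ l.re) (y1 : l.re ≤ 77 / 100) (t0 : -(9 / 100) ≤ Tl) (t1 : Tl ≤ 0)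
    (hl : l.im = 16 / 100 * MP_b30479_gtS.G2.M13.τl l.re)
    (hp : pl = 16 / 100 * MP_b30479_gtS.G2.M13.τl l.re)
    (S : SEU x T k) : False := by
  have a0 := h.s0
  have a1 := h.s1
  have ne := ne_up h z0 hl
  have e := lU_eq hl x T Tl
  have far := farU h t1 hl hp
  rcases S with S | S
  · exact finR h z0 ne (by decide) S (P3_lR' e (by decide) (chkD4 r_EU_3_0_u5 (by norm_num)
      (le_trans (by norm_num) x0) (le_trans x1 (by norm_num)) (le_trans (by norm_num) T0)
      (le_trans T1 (by norm_num))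
      (le_trans (by norm_num) y0) (le_trans y1 (by norm_num))
      (le_trans (by norm_num) t0) (by push_cast; linarith only [T0, a1])) a0 a1 far)
  · exact finR h z0 ne (by decide) S (P3_lZ' e rfl (chkD4 r_EU_3_1_u5 (by norm_num)
      (le_trans (by norm_num) x0) (le_trans x1 (by norm_num)) (le_trans (by norm_num) T0)
      (le_trans T1 (by norm_num))
      (le_trans (by norm_num) y0) (le_trans y1 (by norm_num))
      (le_trans (by norm_num) t0) (by push_cast; linarith only [T0, a1])) a0 a1 far)

theorem cEU_u6 (h : H x T Tl pl k l w) (z0 : 63 / 100 ≤ x) (x0 : 63 / 100 ≤ x) (x1 : x ≤ 13 / 20) (T0 : 87 / 1000 ≤ T) (T1 : T ≤ 229 / 2000)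
    (y0 : 77 / 100 ≤ l.re) (y1 : l.re ≤ 79 / 100) (t0 : -(9 / 100) ≤ Tl) (t1 : Tl ≤ 0)
    (hl : l.im = 16 / 100 * MP_b30479_gtS.G2.M13.τl l.re)
    (hp : pl = 16 / 100 * MP_b30479_gtS.G2.M13.τl l.re)
    (S : SEU x T k) : False := by
  have a0 := h.s0
  have a1 := h.s1
  have ne := ne_up h z0 hl
  have e := lU_eq hl x T Tl
  have far := farU h t1 hl hp
  rcases S with S | S
  · exact finR h z0 ne (by decide) S (P3_lR' e (by decide) (chkD4 r_EU_3_0_u6 (by norm_num)
      (le_trans (by norm_num) x0) (le_trans x1 (by norm_num)) (le_trans (by norm_num) T0)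
      (le_trans T1 (by norm_num))
      (le_trans (by norm_num) y0) (le_trans y1 (by norm_num))
      (le_trans (by norm_num) t0) (by push_cast; linarith only [T0, a1])) a0 a1 far)
  · exact finR h z0 ne (by decide) S (P3_lZ' e rfl (chkD4 r_EU_3_1_u6 (by norm_num)
      (le_trans (by norm_num) x0) (le_trans x1 (by norm_num)) (le_trans (by norm_num) T0)
      (le_trans T1 (by norm_num))
      (le_trans (by norm_num) y0) (le_trans y1 (by norm_num))
      (le_trans (by norm_num) t0) (by push_cast; linarith only [T0, a1])) a0 a1 far)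

theorem cEU_u7 (h : H x T Tl pl k l w) (z0 : 63 / 100 ≤ x) (x0 : 63 / 100 ≤ x) (x1 : x ≤ 13 / 20) (T0 : 87 / 1000 ≤ T) (T1 : T ≤ 229 / 2000)
    (y0 : 79 / 100 ≤ l.re) (y1 : l.re ≤ 4 / 5) (t0 : -(9 / 100) ≤ Tl) (t1 : Tl ≤ 0)
    (hl : l.im = 16 / 100 * MP_b30479_gtS.G2.M13.τl l.re)
    (hp : pl = 16 / 100 * MP_b30479_gtS.G2.M13.τl l.re)
    (S : SEU x T k) : False := by
  have a0 := h.s0
  have a1 := h.s1
  have ne := ne_up h z0 hl
  have e := lU_eq hl x T Tl
  have far := farU h t1 hl hp
  rcases S with S | S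
  · exact finR h z0 ne (by decide) S (P3_lR' e (by decide) (chkD4 r_EU_3_0_u7 (by norm_num)
      (le_trans (by norm_num) x0) (le_trans x1 (by norm_num)) (le_trans (by norm_num) T0)
      (le_trans T1 (by norm_num))
      (le_trans (by norm_num) y0) (le_trans y1 (by norm_num))
      (le_trans (by norm_num) t0) (by push_cast; linarith only [T0, a1])) a0 a1 far)
  · exact finR h z0 ne (by decide) S (P3_lZ' e rfl (chkD4 r_EU_3_1_u7 (by norm_num)
      (le_trans (by norm_num) x0) (le_trans x1 (by norm_num)) (le_trans (by norm_num) T0)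
      (le_trans T1 (by norm_num))
      (le_trans (by norm_num) y0) (le_trans y1 (by norm_num))
      (le_trans (by norm_num) t0) (by push_cast; linarith only [T0, a1])) a0 a1 far)

end R13

end Pool.Agent.Work.NumGs

end

section

/-!
# Kind `1 | 3`, slot `0`: the right end

`M13.endR`: a mirrored position at `x ≥ 63/100` is impossible.
-/

namespace Pool.Agent.Work.NumGs

namespace R13

open MP_b30479_gtS.G2.M13 (H KP LP)

variable {x T Tl pl : ℝ} {k l w : ℂ}

theorem gA1 (h : H x T Tl pl k l w) (z0 : 63 / 100 ≤ x) (x0 : 63 / 100 ≤ x) (x1 : x ≤ 65 / 100)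
    (T0 : 21 / 1000 ≤ T) (T1 : T ≤ 45 / 1000) (S : SA1 x T k) (y0 : 2 / 100 ≤ l.re)
    (y1 : l.re ≤ 15 / 100) (t1 : Tl ≤ -(40 / 1000))
    (hl : l.im = Tl * MP_b30479_gtS.G2.M13.τl l.re) (hp : pl = 0) : False := by
  have t0 := h.t0
  have ne : l ≠ ⟨x, hh x⟩ := ne_re (by linarith only [z0, y1] : l.re < x).ne
  rcases le_total l.re (5 / 100) with u1 | u1
  · rcases le_total Tl (-(75 / 1000)) with u2 | u2
    · exact cA1_m0 h z0 (by linarith only [z0]) (by linarith only [x1]) (by linarith only [T0]) (by linarith only [T1]) (by linarith only [y0]) (by linarith only [u1]) (by linarith only [t0]) (by linarith only [u2]) hl hp ne S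
    · rcases le_total Tl (-(60 / 1000)) with u3 | u3
      · exact cA1_m1 h z0 (by linarith only [z0]) (by linarith only [x1]) (by linarith only [T0]) (by linarith only [T1]) (by linarith only [y0]) (by linarith only [u1]) (by linarith only [u2]) (by linarith only [u3]) hl hp ne S
      · exact cA1_m2 h z0 (by linarith only [z0]) (by linarith only [x1]) (by linarith only [T0]) (by linarith only [T1]) (by linarith only [y0]) (by linarith only [u1]) (by linarith only [u3]) (by linarith only [t1]) hl hp ne S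
  · rcases le_total Tl (-(75 / 1000)) with u2 | u2
    · exact cA1_m3 h z0 (by linarith only [z0]) (by linarith only [x1]) (by linarith only [T0]) (by linarith only [T1]) (by linarith only [u1]) (by linarith only [y1]) (by linarith only [t0]) (by linarith only [u2]) hl hp ne S
    · rcases le_total Tl (-(60 / 1000)) with u3 | u3
      · exact cA1_m4 h z0 (by linarith only [z0]) (by linarith only [x1]) (by linarith only [T0]) (by linarith only [T1]) (by linarith only [u1]) (by linarith only [y1]) (by linarith only [u2]) (by linarith only [u3]) hl hp ne S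
      · exact cA1_m5 h z0 (by linarith only [z0]) (by linarith only [x1]) (by linarith only [T0]) (by linarith only [T1]) (by linarith only [u1]) (by linarith only [y1]) (by linarith only [u3]) (by linarith only [t1]) hl hp ne S

theorem gA2 (h : H x T Tl pl k l w) (z0 : 63 / 100 ≤ x) (x0 : 63 / 100 ≤ x) (x1 : x ≤ 65 / 100)
    (T0 : 45 / 1000 ≤ T) (T1 : T ≤ 60 / 1000) (S : SA2 x T k) (y0 : 2 / 100 ≤ l.re)
    (y1 : l.re ≤ 15 / 100) (t1 : Tl ≤ -(40 / 1000))
    (hl : l.im = Tl * MP_b30479_gtS.G2.M13.τl l.re) (hp : pl = 0) : False := by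
  have t0 := h.t0
  have ne : l ≠ ⟨x, hh x⟩ := ne_re (by linarith only [z0, y1] : l.re < x).ne
  rcases le_total l.re (5 / 100) with u1 | u1
  · rcases le_total Tl (-(75 / 1000)) with u2 | u2
    · exact cA2_m0 h z0 (by linarith only [z0]) (by linarith only [x1]) (by linarith only [T0]) (by linarith only [T1]) (by linarith only [y0]) (by linarith only [u1]) (by linarith only [t0]) (by linarith only [u2]) hl hp ne S
    · rcases le_total Tl (-(60 / 1000)) with u3 | u3
      · exact cA2_m1 h z0 (by linarith only [z0]) (by linarith only [x1]) (by linarith only [T0]) (by linarith only [T1]) (by linarith only [y0]) (by linarith only [u1]) (by linarith only [u2]) (by linarith only [u3]) hl hp ne S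
      · exact cA2_m2 h z0 (by linarith only [z0]) (by linarith only [x1]) (by linarith only [T0]) (by linarith only [T1]) (by linarith only [y0]) (by linarith only [u1]) (by linarith only [u3]) (by linarith only [t1]) hl hp ne S
  · rcases le_total Tl (-(75 / 1000)) with u2 | u2
    · exact cA2_m3 h z0 (by linarith only [z0]) (by linarith only [x1]) (by linarith only [T0]) (by linarith only [T1]) (by linarith only [u1]) (by linarith only [y1]) (by linarith only [t0]) (by linarith only [u2]) hl hp ne S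
    · rcases le_total Tl (-(60 / 1000)) with u3 | u3
      · exact cA2_m4 h z0 (by linarith only [z0]) (by linarith only [x1]) (by linarith only [T0]) (by linarith only [T1]) (by linarith only [u1]) (by linarith only [y1]) (by linarith only [u2]) (by linarith only [u3]) hl hp ne S
      · exact cA2_m5 h z0 (by linarith only [z0]) (by linarith only [x1]) (by linarith only [T0]) (by linarith only [T1]) (by linarith only [u1]) (by linarith only [y1]) (by linarith only [u3]) (by linarith only [t1]) hl hp ne S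

theorem gA3 (h : H x T Tl pl k l w) (z0 : 63 / 100 ≤ x) (x0 : 63 / 100 ≤ x) (x1 : x ≤ 64 / 100)
    (T0 : 60 / 1000 ≤ T) (T1 : T ≤ 80 / 1000) (S : SA3 x T k) (y0 : 2 / 100 ≤ l.re)
    (y1 : l.re ≤ 15 / 100) (t1 : Tl ≤ -(40 / 1000))
    (hl : l.im = Tl * MP_b30479_gtS.G2.M13.τl l.re) (hp : pl = 0) : False := by
  have t0 := h.t0
  have ne : l ≠ ⟨x, hh x⟩ := ne_re (by linarith only [z0, y1] : l.re < x).ne
  rcases le_total l.re (5 / 100) with u1 | u1
  · rcases le_total Tl (-(75 / 1000)) with u2 | u2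
    · exact cA3_m0 h z0 (by linarith only [z0]) (by linarith only [x1]) (by linarith only [T0]) (by linarith only [T1]) (by linarith only [y0]) (by linarith only [u1]) (by linarith only [t0]) (by linarith only [u2]) hl hp ne S
    · rcases le_total Tl (-(60 / 1000)) with u3 | u3
      · exact cA3_m1 h z0 (by linarith only [z0]) (by linarith only [x1]) (by linarith only [T0]) (by linarith only [T1]) (by linarith only [y0]) (by linarith only [u1]) (by linarith only [u2]) (by linarith only [u3]) hl hp ne S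
      · exact cA3_m2 h z0 (by linarith only [z0]) (by linarith only [x1]) (by linarith only [T0]) (by linarith only [T1]) (by linarith only [y0]) (by linarith only [u1]) (by linarith only [u3]) (by linarith only [t1]) hl hp ne S
  · rcases le_total Tl (-(75 / 1000)) with u2 | u2
    · exact cA3_m3 h z0 (by linarith only [z0]) (by linarith only [x1]) (by linarith only [T0]) (by linarith only [T1]) (by linarith only [u1]) (by linarith only [y1]) (by linarith only [t0]) (by linarith only [u2]) hl hp ne S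
    · rcases le_total Tl (-(60 / 1000)) with u3 | u3
      · exact cA3_m4 h z0 (by linarith only [z0]) (by linarith only [x1]) (by linarith only [T0]) (by linarith only [T1]) (by linarith only [u1]) (by linarith only [y1]) (by linarith only [u2]) (by linarith only [u3]) hl hp ne S
      · exact cA3_m5 h z0 (by linarith only [z0]) (by linarith only [x1]) (by linarith only [T0]) (by linarith only [T1]) (by linarith only [u1]) (by linarith only [y1]) (by linarith only [u3]) (by linarith only [t1]) hl hp ne S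

theorem gA4 (h : H x T Tl pl k l w) (z0 : 63 / 100 ≤ x) (x0 : 64 / 100 ≤ x) (x1 : x ≤ 65 / 100)
    (T0 : 60 / 1000 ≤ T) (T1 : T ≤ 80 / 1000) (S : SA4 x T k) (y0 : 2 / 100 ≤ l.re)
    (y1 : l.re ≤ 15 / 100) (t1 : Tl ≤ -(40 / 1000))
    (hl : l.im = Tl * MP_b30479_gtS.G2.M13.τl l.re) (hp : pl = 0) : False := by
  have t0 := h.t0
  have ne : l ≠ ⟨x, hh x⟩ := ne_re (by linarith only [x0, y1] : l.re < x).ne
  rcases le_total l.re (5 / 100) with u1 | u1
  · rcases le_total Tl (-(75 / 1000)) with u2 | u2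
    · exact cA4_m0 h z0 (by linarith only [x0]) (by linarith only [x1]) (by linarith only [T0]) (by linarith only [T1]) (by linarith only [y0]) (by linarith only [u1]) (by linarith only [t0]) (by linarith only [u2]) hl hp ne S
    · rcases le_total Tl (-(60 / 1000)) with u3 | u3
      · exact cA4_m1 h z0 (by linarith only [x0]) (by linarith only [x1]) (by linarith only [T0]) (by linarith only [T1]) (by linarith only [y0]) (by linarith only [u1]) (by linarith only [u2]) (by linarith only [u3]) hl hp ne S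
      · exact cA4_m2 h z0 (by linarith only [x0]) (by linarith only [x1]) (by linarith only [T0]) (by linarith only [T1]) (by linarith only [y0]) (by linarith only [u1]) (by linarith only [u3]) (by linarith only [t1]) hl hp ne S
  · rcases le_total Tl (-(75 / 1000)) with u2 | u2
    · exact cA4_m3 h z0 (by linarith only [x0]) (by linarith only [x1]) (by linarith only [T0]) (by linarith only [T1]) (by linarith only [u1]) (by linarith only [y1]) (by linarith only [t0]) (by linarith only [u2]) hl hp ne S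
    · rcases le_total Tl (-(60 / 1000)) with u3 | u3
      · exact cA4_m4 h z0 (by linarith only [x0]) (by linarith only [x1]) (by linarith only [T0]) (by linarith only [T1]) (by linarith only [u1]) (by linarith only [y1]) (by linarith only [u2]) (by linarith only [u3]) hl hp ne S
      · exact cA4_m5 h z0 (by linarith only [x0]) (by linarith only [x1]) (by linarith only [T0]) (by linarith only [T1]) (by linarith only [u1]) (by linarith only [y1]) (by linarith only [u3]) (by linarith only [t1]) hl hp ne S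

theorem gA5 (h : H x T Tl pl k l w) (z0 : 63 / 100 ≤ x) (x0 : 63 / 100 ≤ x) (x1 : x ≤ 64 / 100)
    (T0 : 80 / 1000 ≤ T) (T1 : T ≤ 94 / 1000) (S : SA5 x T k) (y0 : 2 / 100 ≤ l.re)
    (y1 : l.re ≤ 15 / 100) (t1 : Tl ≤ -(40 / 1000))
    (hl : l.im = Tl * MP_b30479_gtS.G2.M13.τl l.re) (hp : pl = 0) : False := by
  have t0 := h.t0
  have ne : l ≠ ⟨x, hh x⟩ := ne_re (by linarith only [z0, y1] : l.re < x).ne
  rcases le_total l.re (5 / 100) with u1 | u1
  · rcases le_total Tl (-(75 / 1000)) with u2 | u2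
    · exact cA5_m0 h z0 (by linarith only [z0]) (by linarith only [x1]) (by linarith only [T0]) (by linarith only [T1]) (by linarith only [y0]) (by linarith only [u1]) (by linarith only [t0]) (by linarith only [u2]) hl hp ne S
    · rcases le_total Tl (-(60 / 1000)) with u3 | u3
      · exact cA5_m1 h z0 (by linarith only [z0]) (by linarith only [x1]) (by linarith only [T0]) (by linarith only [T1]) (by linarith only [y0]) (by linarith only [u1]) (by linarith only [u2]) (by linarith only [u3]) hl hp ne S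
      · exact cA5_m2 h z0 (by linarith only [z0]) (by linarith only [x1]) (by linarith only [T0]) (by linarith only [T1]) (by linarith only [y0]) (by linarith only [u1]) (by linarith only [u3]) (by linarith only [t1]) hl hp ne S
  · rcases le_total Tl (-(75 / 1000)) with u2 | u2
    · exact cA5_m3 h z0 (by linarith only [z0]) (by linarith only [x1]) (by linarith only [T0]) (by linarith only [T1]) (by linarith only [u1]) (by linarith only [y1]) (by linarith only [t0]) (by linarith only [u2]) hl hp ne S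
    · rcases le_total Tl (-(60 / 1000)) with u3 | u3
      · exact cA5_m4 h z0 (by linarith only [z0]) (by linarith only [x1]) (by linarith only [T0]) (by linarith only [T1]) (by linarith only [u1]) (by linarith only [y1]) (by linarith only [u2]) (by linarith only [u3]) hl hp ne S
      · exact cA5_m5 h z0 (by linarith only [z0]) (by linarith only [x1]) (by linarith only [T0]) (by linarith only [T1]) (by linarith only [u1]) (by linarith only [y1]) (by linarith only [u3]) (by linarith only [t1]) hl hp ne S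

theorem gA6 (h : H x T Tl pl k l w) (z0 : 63 / 100 ≤ x) (x0 : 64 / 100 ≤ x) (x1 : x ≤ 65 / 100)
    (T0 : 80 / 1000 ≤ T) (T1 : T ≤ 92 / 1000) (S : SA6 x T k) (y0 : 2 / 100 ≤ l.re)
    (y1 : l.re ≤ 15 / 100) (t1 : Tl ≤ -(40 / 1000))
    (hl : l.im = Tl * MP_b30479_gtS.G2.M13.τl l.re) (hp : pl = 0) : False := by
  have t0 := h.t0
  have ne : l ≠ ⟨x, hh x⟩ := ne_re (by linarith only [x0, y1] : l.re < x).ne
  rcases le_total l.re (5 / 100) with u1 | u1
  · rcases le_total Tl (-(75 / 1000)) with u2 | u2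
    · exact cA6_m0 h z0 (by linarith only [x0]) (by linarith only [x1]) (by linarith only [T0]) (by linarith only [T1]) (by linarith only [y0]) (by linarith only [u1]) (by linarith only [t0]) (by linarith only [u2]) hl hp ne S
    · rcases le_total Tl (-(60 / 1000)) with u3 | u3
      · exact cA6_m1 h z0 (by linarith only [x0]) (by linarith only [x1]) (by linarith only [T0]) (by linarith only [T1]) (by linarith only [y0]) (by linarith only [u1]) (by linarith only [u2]) (by linarith only [u3]) hl hp ne S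
      · exact cA6_m2 h z0 (by linarith only [x0]) (by linarith only [x1]) (by linarith only [T0]) (by linarith only [T1]) (by linarith only [y0]) (by linarith only [u1]) (by linarith only [u3]) (by linarith only [t1]) hl hp ne S
  · rcases le_total Tl (-(75 / 1000)) with u2 | u2
    · exact cA6_m3 h z0 (by linarith only [x0]) (by linarith only [x1]) (by linarith only [T0]) (by linarith only [T1]) (by linarith only [u1]) (by linarith only [y1]) (by linarith only [t0]) (by linarith only [u2]) hl hp ne S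
    · rcases le_total Tl (-(60 / 1000)) with u3 | u3
      · exact cA6_m4 h z0 (by linarith only [x0]) (by linarith only [x1]) (by linarith only [T0]) (by linarith only [T1]) (by linarith only [u1]) (by linarith only [y1]) (by linarith only [u2]) (by linarith only [u3]) hl hp ne S
      · exact cA6_m5 h z0 (by linarith only [x0]) (by linarith only [x1]) (by linarith only [T0]) (by linarith only [T1]) (by linarith only [u1]) (by linarith only [y1]) (by linarith only [u3]) (by linarith only [t1]) hl hp ne S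

theorem gA7 (h : H x T Tl pl k l w) (z0 : 63 / 100 ≤ x) (x0 : 64 / 100 ≤ x) (x1 : x ≤ 65 / 100)
    (T0 : 92 / 1000 ≤ T) (T1 : T ≤ 94 / 1000) (S : SA7 x T k) (y0 : 2 / 100 ≤ l.re)
    (y1 : l.re ≤ 15 / 100) (t1 : Tl ≤ -(40 / 1000))
    (hl : l.im = Tl * MP_b30479_gtS.G2.M13.τl l.re) (hp : pl = 0) : False := by
  have t0 := h.t0
  have ne : l ≠ ⟨x, hh x⟩ := ne_re (by linarith only [x0, y1] : l.re < x).ne
  rcases le_total l.re (5 / 100) with u1 | u1
  · rcases le_total Tl (-(75 / 1000)) with u2 | u2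
    · exact cA7_m0 h z0 (by linarith only [x0]) (by linarith only [x1]) (by linarith only [T0]) (by linarith only [T1]) (by linarith only [y0]) (by linarith only [u1]) (by linarith only [t0]) (by linarith only [u2]) hl hp ne S
    · rcases le_total Tl (-(60 / 1000)) with u3 | u3
      · exact cA7_m1 h z0 (by linarith only [x0]) (by linarith only [x1]) (by linarith only [T0]) (by linarith only [T1]) (by linarith only [y0]) (by linarith only [u1]) (by linarith only [u2]) (by linarith only [u3]) hl hp ne S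
      · exact cA7_m2 h z0 (by linarith only [x0]) (by linarith only [x1]) (by linarith only [T0]) (by linarith only [T1]) (by linarith only [y0]) (by linarith only [u1]) (by linarith only [u3]) (by linarith only [t1]) hl hp ne S
  · rcases le_total Tl (-(75 / 1000)) with u2 | u2
    · exact cA7_m3 h z0 (by linarith only [x0]) (by linarith only [x1]) (by linarith only [T0]) (by linarith only [T1]) (by linarith only [u1]) (by linarith only [y1]) (by linarith only [t0]) (by linarith only [u2]) hl hp ne S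
    · rcases le_total Tl (-(60 / 1000)) with u3 | u3
      · exact cA7_m4 h z0 (by linarith only [x0]) (by linarith only [x1]) (by linarith only [T0]) (by linarith only [T1]) (by linarith only [u1]) (by linarith only [y1]) (by linarith only [u2]) (by linarith only [u3]) hl hp ne S
      · exact cA7_m5 h z0 (by linarith only [x0]) (by linarith only [x1]) (by linarith only [T0]) (by linarith only [T1]) (by linarith only [u1]) (by linarith only [y1]) (by linarith only [u3]) (by linarith only [t1]) hl hp ne S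

theorem gA (h : H x T Tl pl k l w) (z0 : 63 / 100 ≤ x) (T0 : 21 / 1000 ≤ T) (T1 : T ≤ 94 / 1000)
    (hk : KG k) (hw : T ≤ 92 / 1000 ∨ KW k) (y0 : 2 / 100 ≤ l.re)
    (y1 : l.re ≤ 15 / 100) (t1 : Tl ≤ -(40 / 1000))
    (hl : l.im = Tl * MP_b30479_gtS.G2.M13.τl l.re) (hp : pl = 0) : False := by
  have z1 := h.x1
  rcases le_total T (45 / 1000) with v1 | v1
  · exact gA1 h z0 z0 z1.le T0 v1 (sA1_G (by linarith only [z0]) (by linarith only [z1]) (by linarith only [T0]) (by linarith only [v1]) hk)
      y0 y1 t1 hl hp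
  rcases le_total T (60 / 1000) with v2 | v2
  · exact gA2 h z0 z0 z1.le v1 v2 (sA2_G (by linarith only [z0]) (by linarith only [z1]) (by linarith only [v1]) (by linarith only [v2]) hk)
      y0 y1 t1 hl hp
  rcases le_total x (64 / 100) with v3 | v3
  · rcases le_total T (80 / 1000) with v4 | v4
    · exact gA3 h z0 z0 v3 v2 v4 (sA3_G (by linarith only [z0]) (by linarith only [v3]) (by linarith only [v2]) (by linarith only [v4]) hk)
        y0 y1 t1 hl hp
    · exact gA5 h z0 z0 v3 v4 T1 (sA5_G (by linarith only [z0]) (by linarith only [v3]) (by linarith only [v4]) (by linarith only [T1]) hk)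
        y0 y1 t1 hl hp
  · rcases le_total T (80 / 1000) with v4 | v4
    · exact gA4 h z0 v3 z1.le v2 v4
        (sA4_G (by linarith only [v3]) (by linarith only [z1]) (by linarith only [v2]) (by linarith only [v4]) hk) y0 y1 t1 hl hp
    · rcases le_total T (92 / 1000) with v5 | v5
      · exact gA6 h z0 v3 z1.le v4 v5
          (sA6_G (by linarith only [v3]) (by linarith only [z1]) (by linarith only [v4]) (by linarith only [v5]) hk) y0 y1 t1 hl hp
      · rcases hw with hw | hw
        · exact gA6 h z0 v3 z1.le v4 hw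
            (sA6_G (by linarith only [v3]) (by linarith only [z1]) (by linarith only [z1, v3, v5]) (by linarith only [hw]) hk) y0 y1 t1 hl hp
        · exact gA7 h z0 v3 z1.le v5 T1
            (sA7_W (by linarith only [v3]) (by linarith only [z1]) (by linarith only [v5]) (by linarith only [T1]) hw) y0 y1 t1 hl hp

theorem gB1 (h : H x T Tl pl k l w) (z0 : 63 / 100 ≤ x) (T0 : 21 / 1000 ≤ T) (T1 : T ≤ 60 / 1000)
    (S : SB1 x T k) (y1 : l.re ≤ 5 / 10)
    (t2 : l.re ≤ 2 / 100 ∨ 15 / 100 ≤ l.re ∨ -(40 / 1000) ≤ Tl)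
    (hl : l.im = Tl * MP_b30479_gtS.G2.M13.τl l.re) (hp : pl = 0) : False := by
  have z1 := h.x1
  have y0 := h.l0
  have t0 := h.t0
  have t1 := h.t1
  have ne : l ≠ ⟨x, hh x⟩ := ne_re (by linarith only [z0, y1, z1] : l.re < x).ne
  rcases le_total l.re (2 / 100) with u1 | u1
  · exact cB1_m0 h z0 (by linarith only [z0]) (by linarith only [z1]) (by linarith only [T0]) (by linarith only [T1]) (by linarith only [y0]) (by linarith only [u1]) (by linarith only [t0]) (by linarith only [t1]) hl hp ne S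
  rcases le_total (15 / 100) l.re with u2 | u2
  · exact cB1_m3 h z0 (by linarith only [z0]) (by linarith only [z1]) (by linarith only [T0]) (by linarith only [T1]) (by linarith only [u2]) (by linarith only [y1]) (by linarith only [t0]) (by linarith only [t1]) hl hp ne S
  have t3 : -(40 / 1000) ≤ Tl ∨ l.re = 2 / 100 ∨ l.re = 15 / 100 := by
    rcases t2 with t2 | t2 | t2
    · exact Or.inr (Or.inl (le_antisymm t2 u1))
    · exact Or.inr (Or.inr (le_antisymm u2 t2))
    · exact Or.inl t2
  rcases t3 with t3 | t3 | t3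
  · rcases le_total l.re (5 / 100) with u3 | u3
    · exact cB1_m1 h z0 (by linarith only [z0]) (by linarith only [z1]) (by linarith only [T0]) (by linarith only [T1]) (by linarith only [u1]) (by linarith only [u3]) (by linarith only [t3]) (by linarith only [t1]) hl hp ne S
    · exact cB1_m2 h z0 (by linarith only [z0]) (by linarith only [z1]) (by linarith only [T0]) (by linarith only [T1]) (by linarith only [u3]) (by linarith only [u2]) (by linarith only [t3]) (by linarith only [t1]) hl hp ne S
  · exact cB1_m0 h z0 (by linarith only [z0]) (by linarith only [z1]) (by linarith only [T0]) (by linarith only [T1]) (by linarith only [y0]) (by linarith only [t3]) (by linarith only [t0]) (by linarith only [t1]) hl hp ne S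
  · exact cB1_m3 h z0 (by linarith only [z0]) (by linarith only [z1]) (by linarith only [T0]) (by linarith only [T1]) (by linarith only [t3]) (by linarith only [z0, z1, u2]) (by linarith only [t0]) (by linarith only [t1]) hl hp ne S

theorem gB2 (h : H x T Tl pl k l w) (z0 : 63 / 100 ≤ x) (T0 : 60 / 1000 ≤ T) (T1 : T ≤ 94 / 1000)
    (S : SB2 x T k) (y1 : l.re ≤ 5 / 10)
    (t2 : l.re ≤ 2 / 100 ∨ 15 / 100 ≤ l.re ∨ -(40 / 1000) ≤ Tl)
    (hl : l.im = Tl * MP_b30479_gtS.G2.M13.τl l.re) (hp : pl = 0) : False := by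
  have z1 := h.x1
  have y0 := h.l0
  have t0 := h.t0
  have t1 := h.t1
  have ne : l ≠ ⟨x, hh x⟩ := ne_re (by linarith only [z0, y1, z1] : l.re < x).ne
  rcases le_total l.re (2 / 100) with u1 | u1
  · exact cB2_m0 h z0 (by linarith only [z0]) (by linarith only [z1]) (by linarith only [T0]) (by linarith only [T1]) (by linarith only [y0]) (by linarith only [u1]) (by linarith only [t0]) (by linarith only [t1]) hl hp ne S
  rcases le_total (15 / 100) l.re with u2 | u2
  · exact cB2_m3 h z0 (by linarith only [z0]) (by linarith only [z1]) (by linarith only [T0]) (by linarith only [T1]) (by linarith only [u2]) (by linarith only [y1]) (by linarith only [t0]) (by linarith only [t1]) hl hp ne S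
  have t3 : -(40 / 1000) ≤ Tl ∨ l.re = 2 / 100 ∨ l.re = 15 / 100 := by
    rcases t2 with t2 | t2 | t2
    · exact Or.inr (Or.inl (le_antisymm t2 u1))
    · exact Or.inr (Or.inr (le_antisymm u2 t2))
    · exact Or.inl t2
  rcases t3 with t3 | t3 | t3
  · rcases le_total l.re (5 / 100) with u3 | u3
    · exact cB2_m1 h z0 (by linarith only [z0]) (by linarith only [z1]) (by linarith only [T0]) (by linarith only [T1]) (by linarith only [u1]) (by linarith only [u3]) (by linarith only [t3]) (by linarith only [t1]) hl hp ne S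
    · exact cB2_m2 h z0 (by linarith only [z0]) (by linarith only [z1]) (by linarith only [T0]) (by linarith only [T1]) (by linarith only [u3]) (by linarith only [u2]) (by linarith only [t3]) (by linarith only [t1]) hl hp ne S
  · exact cB2_m0 h z0 (by linarith only [z0]) (by linarith only [z1]) (by linarith only [T0]) (by linarith only [T1]) (by linarith only [y0]) (by linarith only [t3]) (by linarith only [t0]) (by linarith only [t1]) hl hp ne S
  · exact cB2_m3 h z0 (by linarith only [z0]) (by linarith only [z1]) (by linarith only [T0]) (by linarith only [T1]) (by linarith only [t3]) (by linarith only [z0, z1, u2]) (by linarith only [t0]) (by linarith only [t1]) hl hp ne S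

theorem gC (h : H x T Tl pl k l w) (z0 : 63 / 100 ≤ x) (T0 : 21 / 1000 ≤ T) (T1 : T ≤ 94 / 1000)
    (S : SC x T k) (y0 : 5 / 10 ≤ l.re)
    (t2 : l.re ≤ 6 / 10 ∨ 7 / 10 ≤ l.re ∨ Tl ≤ -(10 / 1000))
    (hl : l.im = Tl * MP_b30479_gtS.G2.M13.τl l.re) (hp : pl = 0) : False := by
  have z1 := h.x1
  have y1 := h.l1
  have t0 := h.t0
  have t1 := h.t1
  have a1 := h.s1
  rcases le_total l.re (6 / 10) with u1 | u1
  · have ne : l ≠ ⟨x, hh x⟩ := ne_re (by linarith only [z0, z1, u1] : l.re < x).ne
    exact cC_m0 h z0 (by linarith only [z0]) (by linarith only [z1]) (by linarith only [T0]) (by linarith only [T1]) (by linarith only [y0]) (by linarith only [u1]) (by linarith only [t0]) (by linarith only [t1]) hl hp ne S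
  rcases le_total (7 / 10) l.re with u2 | u2
  · have ne : l ≠ ⟨x, hh x⟩ := ne_re (by linarith only [z0, z1, u2] : x < l.re).ne'
    rcases le_total l.re (75 / 100) with u3 | u3
    · exact cC_m2 h z0 (by linarith only [z0]) (by linarith only [z1]) (by linarith only [T0]) (by linarith only [T1]) (by linarith only [u2]) (by linarith only [u3]) (by linarith only [t0]) (by linarith only [t1]) hl hp ne S
    · exact cC_m3 h z0 (by linarith only [z0]) (by linarith only [z1]) (by linarith only [T0]) (by linarith only [T1]) (by linarith only [u3]) (by linarith only [y1]) (by linarith only [t0]) (by linarith only [t1]) hl hp ne S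
  have t3 : Tl ≤ -(10 / 1000) ∨ l.re = 6 / 10 ∨ l.re = 7 / 10 := by
    rcases t2 with t2 | t2 | t2
    · exact Or.inr (Or.inl (le_antisymm t2 u1))
    · exact Or.inr (Or.inr (le_antisymm u2 t2))
    · exact Or.inl t2
  rcases t3 with t3 | t3 | t3
  · have ne : l ≠ ⟨x, hh x⟩ := ne_neg h (by
      rw [hl]; exact mul_nonpos_of_nonpos_of_nonneg (by linarith only [t1, t3]) (τl_nonneg _))
    exact cC_m1 h z0 (by linarith only [z0]) (by linarith only [z1]) (by linarith only [T0]) (by linarith only [T1]) (by linarith only [u1]) (by linarith only [u2]) (by linarith only [t0]) (by linarith only [t3]) hl hp ne S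
  · have ne : l ≠ ⟨x, hh x⟩ := ne_re (by linarith only [z0, z1, t3] : l.re < x).ne
    exact cC_m0 h z0 (by linarith only [z0]) (by linarith only [z1]) (by linarith only [T0]) (by linarith only [T1]) (by linarith only [z0, z1, u1]) (by linarith only [t3]) (by linarith only [t0]) (by linarith only [t1]) hl hp ne S
  · have ne : l ≠ ⟨x, hh x⟩ := ne_re (by linarith only [z0, z1, t3] : x < l.re).ne'
    exact cC_m2 h z0 (by linarith only [z0]) (by linarith only [z1]) (by linarith only [T0]) (by linarith only [T1]) (by linarith only [t3]) (by linarith only [y1, u2]) (by linarith only [t0]) (by linarith only [t1]) hl hp ne S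

theorem gEC (h : H x T Tl pl k l w) (z0 : 63 / 100 ≤ x) (T0 : 87 / 1000 ≤ T) (T1 : T ≤ 1145 / 10000)
    (S : SEC x T k) (y0 : 5 / 10 ≤ l.re)
    (t2 : l.re ≤ 6 / 10 ∨ 7 / 10 ≤ l.re ∨ Tl ≤ -(10 / 1000))
    (hl : l.im = Tl * MP_b30479_gtS.G2.M13.τl l.re) (hp : pl = 0) : False := by
  have z1 := h.x1
  have y1 := h.l1
  have t0 := h.t0
  have t1 := h.t1
  have a1 := h.s1
  rcases le_total l.re (6 / 10) with u1 | u1
  · have ne : l ≠ ⟨x, hh x⟩ := ne_re (by linarith only [z0, z1, u1] : l.re < x).ne
    exact cEC_m0 h z0 (by linarith only [z0]) (by linarith only [z1]) (by linarith only [T0]) (by linarith only [T1]) (by linarith only [y0]) (by linarith only [u1]) (by linarith only [t0]) (by linarith only [t1]) hl hp ne S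
  rcases le_total (7 / 10) l.re with u2 | u2
  · have ne : l ≠ ⟨x, hh x⟩ := ne_re (by linarith only [z0, z1, u2] : x < l.re).ne'
    rcases le_total l.re (75 / 100) with u3 | u3
    · exact cEC_m2 h z0 (by linarith only [z0]) (by linarith only [z1]) (by linarith only [T0]) (by linarith only [T1]) (by linarith only [u2]) (by linarith only [u3]) (by linarith only [t0]) (by linarith only [t1]) hl hp ne S
    · exact cEC_m3 h z0 (by linarith only [z0]) (by linarith only [z1]) (by linarith only [T0]) (by linarith only [T1]) (by linarith only [u3]) (by linarith only [y1]) (by linarith only [t0]) (by linarith only [t1]) hl hp ne S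
  have t3 : Tl ≤ -(10 / 1000) ∨ l.re = 6 / 10 ∨ l.re = 7 / 10 := by
    rcases t2 with t2 | t2 | t2
    · exact Or.inr (Or.inl (le_antisymm t2 u1))
    · exact Or.inr (Or.inr (le_antisymm u2 t2))
    · exact Or.inl t2
  rcases t3 with t3 | t3 | t3
  · have ne : l ≠ ⟨x, hh x⟩ := ne_neg h (by
      rw [hl]; exact mul_nonpos_of_nonpos_of_nonneg (by linarith only [T0, t1, a1]) (τl_nonneg _))
    exact cEC_m1 h z0 (by linarith only [z0]) (by linarith only [z1]) (by linarith only [T0]) (by linarith only [T1]) (by linarith only [u1]) (by linarith only [u2]) (by linarith only [t0]) (by linarith only [t3]) hl hp ne S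
  · have ne : l ≠ ⟨x, hh x⟩ := ne_re (by linarith only [z0, z1, t3] : l.re < x).ne
    exact cEC_m0 h z0 (by linarith only [z0]) (by linarith only [z1]) (by linarith only [T0]) (by linarith only [T1]) (by linarith only [z0, z1, u1]) (by linarith only [t3]) (by linarith only [t0]) (by linarith only [t1]) hl hp ne S
  · have ne : l ≠ ⟨x, hh x⟩ := ne_re (by linarith only [z0, z1, t3] : x < l.re).ne'
    exact cEC_m2 h z0 (by linarith only [z0]) (by linarith only [z1]) (by linarith only [T0]) (by linarith only [T1]) (by linarith only [t3]) (by linarith only [y1, u2]) (by linarith only [t0]) (by linarith only [t1]) hl hp ne S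

theorem gU_u (h : H x T Tl pl k l w) (z0 : 63 / 100 ≤ x) (T0 : 21 / 1000 ≤ T) (T1 : T ≤ 94 / 1000)
    (S : SU x T k) (t1 : Tl ≤ 0) (hl : l.im = 16 / 100 * MP_b30479_gtS.G2.M13.τl l.re)
    (hp : pl = 16 / 100 * MP_b30479_gtS.G2.M13.τl l.re) : False := by
  have z1 := h.x1
  have y0 := h.l0
  have y1 := h.l1
  have t0 := h.t0
  rcases le_total l.re (1 / 100) with u0 | u0
  · exact cU_u0 h z0 (by linarith only [z0]) (by linarith only [z1]) (by linarith only [T0]) (by linarith only [T1]) (by linarith only [y0]) (by linarith only [u0]) (by linarith only [t0]) (by linarith only [t1]) hl hp S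
  rcases le_total l.re (3 / 100) with u1 | u1
  · exact cU_u1 h z0 (by linarith only [z0]) (by linarith only [z1]) (by linarith only [T0]) (by linarith only [T1]) (by linarith only [u0]) (by linarith only [u1]) (by linarith only [t0]) (by linarith only [t1]) hl hp S
  rcases le_total l.re (10 / 100) with u2 | u2
  · exact cU_u2 h z0 (by linarith only [z0]) (by linarith only [z1]) (by linarith only [T0]) (by linarith only [T1]) (by linarith only [u1]) (by linarith only [u2]) (by linarith only [t0]) (by linarith only [t1]) hl hp S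
  rcases le_total l.re (50 / 100) with u3 | u3
  · exact cU_u3 h z0 (by linarith only [z0]) (by linarith only [z1]) (by linarith only [T0]) (by linarith only [T1]) (by linarith only [u2]) (by linarith only [u3]) (by linarith only [t0]) (by linarith only [t1]) hl hp S
  rcases le_total l.re (75 / 100) with u4 | u4
  · exact cU_u4 h z0 (by linarith only [z0]) (by linarith only [z1]) (by linarith only [T0]) (by linarith only [T1]) (by linarith only [u3]) (by linarith only [u4]) (by linarith only [t0]) (by linarith only [t1]) hl hp S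
  rcases le_total l.re (77 / 100) with u5 | u5
  · exact cU_u5 h z0 (by linarith only [z0]) (by linarith only [z1]) (by linarith only [T0]) (by linarith only [T1]) (by linarith only [u4]) (by linarith only [u5]) (by linarith only [t0]) (by linarith only [t1]) hl hp S
  rcases le_total l.re (79 / 100) with u6 | u6
  · exact cU_u6 h z0 (by linarith only [z0]) (by linarith only [z1]) (by linarith only [T0]) (by linarith only [T1]) (by linarith only [u5]) (by linarith only [u6]) (by linarith only [t0]) (by linarith only [t1]) hl hp S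
  exact cU_u7 h z0 (by linarith only [z0]) (by linarith only [z1]) (by linarith only [T0]) (by linarith only [T1]) (by linarith only [u6]) (by linarith only [y1]) (by linarith only [t0]) (by linarith only [t1]) hl hp S

theorem gU_d (h : H x T Tl pl k l w) (z0 : 63 / 100 ≤ x) (T0 : 21 / 1000 ≤ T)
    (T1 : T ≤ 94 / 1000) (S : SU x T k) (t0 : 0 ≤ Tl)
    (hl : l.im = -(16 / 100 * MP_b30479_gtS.G2.M13.τl l.re))
    (hp : pl = 16 / 100 * MP_b30479_gtS.G2.M13.τl l.re) : False := by
  have z1 := h.x1
  have y0 := h.l0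
  have y1 := h.l1
  have t1 := h.t1
  rcases le_total l.re (1 / 100) with u0 | u0
  · exact cU_d8 h z0 (by linarith only [z0]) (by linarith only [z1]) (by linarith only [T0]) (by linarith only [T1]) (by linarith only [y0]) (by linarith only [u0]) (by linarith only [t0]) (by linarith only [t1]) hl hp S
  rcases le_total l.re (5 / 100) with u1 | u1
  · exact cU_d9 h z0 (by linarith only [z0]) (by linarith only [z1]) (by linarith only [T0]) (by linarith only [T1]) (by linarith only [u0]) (by linarith only [u1]) (by linarith only [t0]) (by linarith only [t1]) hl hp S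
  rcases le_total l.re (10 / 100) with u2 | u2
  · exact cU_d10 h z0 (by linarith only [z0]) (by linarith only [z1]) (by linarith only [T0]) (by linarith only [T1]) (by linarith only [u1]) (by linarith only [u2]) (by linarith only [t0]) (by linarith only [t1]) hl hp S
  rcases le_total l.re (75 / 100) with u3 | u3
  · exact cU_d11 h z0 (by linarith only [z0]) (by linarith only [z1]) (by linarith only [T0]) (by linarith only [T1]) (by linarith only [u2]) (by linarith only [u3]) (by linarith only [t0]) (by linarith only [t1]) hl hp S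
  rcases le_total l.re (77 / 100) with u4 | u4
  · exact cU_d12 h z0 (by linarith only [z0]) (by linarith only [z1]) (by linarith only [T0]) (by linarith only [T1]) (by linarith only [u3]) (by linarith only [u4]) (by linarith only [t0]) (by linarith only [t1]) hl hp S
  rcases le_total l.re (79 / 100) with u5 | u5
  · exact cU_d13 h z0 (by linarith only [z0]) (by linarith only [z1]) (by linarith only [T0]) (by linarith only [T1]) (by linarith only [u4]) (by linarith only [u5]) (by linarith only [t0]) (by linarith only [t1]) hl hp S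
  exact cU_d14 h z0 (by linarith only [z0]) (by linarith only [z1]) (by linarith only [T0]) (by linarith only [T1]) (by linarith only [u5]) (by linarith only [y1]) (by linarith only [t0]) (by linarith only [t1]) hl hp S

theorem gEU_u (h : H x T Tl pl k l w) (z0 : 63 / 100 ≤ x) (T0 : 87 / 1000 ≤ T) (T1 : T ≤ 1145 / 10000)
    (S : SEU x T k) (t1 : Tl ≤ 0) (hl : l.im = 16 / 100 * MP_b30479_gtS.G2.M13.τl l.re)
    (hp : pl = 16 / 100 * MP_b30479_gtS.G2.M13.τl l.re) : False := by
  have z1 := h.x1
  have y0 := h.l0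
  have y1 := h.l1
  have t0 := h.t0
  rcases le_total l.re (1 / 100) with u0 | u0
  · exact cEU_u0 h z0 (by linarith only [z0]) (by linarith only [z1]) (by linarith only [T0]) (by linarith only [T1]) (by linarith only [y0]) (by linarith only [u0]) (by linarith only [t0]) (by linarith only [t1]) hl hp S
  rcases le_total l.re (3 / 100) with u1 | u1
  · exact cEU_u1 h z0 (by linarith only [z0]) (by linarith only [z1]) (by linarith only [T0]) (by linarith only [T1]) (by linarith only [u0]) (by linarith only [u1]) (by linarith only [t0]) (by linarith only [t1]) hl hp S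
  rcases le_total l.re (10 / 100) with u2 | u2
  · exact cEU_u2 h z0 (by linarith only [z0]) (by linarith only [z1]) (by linarith only [T0]) (by linarith only [T1]) (by linarith only [u1]) (by linarith only [u2]) (by linarith only [t0]) (by linarith only [t1]) hl hp S
  rcases le_total l.re (50 / 100) with u3 | u3
  · exact cEU_u3 h z0 (by linarith only [z0]) (by linarith only [z1]) (by linarith only [T0]) (by linarith only [T1]) (by linarith only [u2]) (by linarith only [u3]) (by linarith only [t0]) (by linarith only [t1]) hl hp S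
  rcases le_total l.re (75 / 100) with u4 | u4
  · exact cEU_u4 h z0 (by linarith only [z0]) (by linarith only [z1]) (by linarith only [T0]) (by linarith only [T1]) (by linarith only [u3]) (by linarith only [u4]) (by linarith only [t0]) (by linarith only [t1]) hl hp S
  rcases le_total l.re (77 / 100) with u5 | u5
  · exact cEU_u5 h z0 (by linarith only [z0]) (by linarith only [z1]) (by linarith only [T0]) (by linarith only [T1]) (by linarith only [u4]) (by linarith only [u5]) (by linarith only [t0]) (by linarith only [t1]) hl hp S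
  rcases le_total l.re (79 / 100) with u6 | u6
  · exact cEU_u6 h z0 (by linarith only [z0]) (by linarith only [z1]) (by linarith only [T0]) (by linarith only [T1]) (by linarith only [u5]) (by linarith only [u6]) (by linarith only [t0]) (by linarith only [t1]) hl hp S
  exact cEU_u7 h z0 (by linarith only [z0]) (by linarith only [z1]) (by linarith only [T0]) (by linarith only [T1]) (by linarith only [u6]) (by linarith only [y1]) (by linarith only [t0]) (by linarith only [t1]) hl hp S

theorem gEA (h : H x T Tl pl k l w) (z0 : 63 / 100 ≤ x) (T0 : 87 / 1000 ≤ T)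
    (T1 : T ≤ 1145 / 10000) (S : SEA x T k) (y1 : l.re ≤ 5 / 10)
    (hl : l.im = Tl * MP_b30479_gtS.G2.M13.τl l.re) (hp : pl = 0) : False := by
  have z1 := h.x1
  have y0 := h.l0
  have t0 := h.t0
  have t1 := h.t1
  have ne : l ≠ ⟨x, hh x⟩ := ne_re (by linarith only [z0, y1, z1] : l.re < x).ne
  rcases le_total l.re (2 / 100) with u4 | u4
  · exact cEA_m6 h z0 (by linarith only [z0]) (by linarith only [z1]) (by linarith only [T0]) (by linarith only [T1]) (by linarith only [y0]) (by linarith only [u4]) (by linarith only [t0]) (by linarith only [t1]) hl hp ne S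
  rcases le_total (15 / 100) l.re with u5 | u5
  · exact cEA_m9 h z0 (by linarith only [z0]) (by linarith only [z1]) (by linarith only [T0]) (by linarith only [T1]) (by linarith only [u5]) (by linarith only [y1]) (by linarith only [t0]) (by linarith only [t1]) hl hp ne S
  rcases le_total (-(40 / 1000)) Tl with u6 | u6
  · rcases le_total l.re (5 / 100) with u7 | u7
    · exact cEA_m7 h z0 (by linarith only [z0]) (by linarith only [z1]) (by linarith only [T0]) (by linarith only [T1]) (by linarith only [u4]) (by linarith only [u7]) (by linarith only [u6]) (by linarith only [t1]) hl hp ne S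
    · exact cEA_m8 h z0 (by linarith only [z0]) (by linarith only [z1]) (by linarith only [T0]) (by linarith only [T1]) (by linarith only [u7]) (by linarith only [u5]) (by linarith only [u6]) (by linarith only [t1]) hl hp ne S
  rcases le_total l.re (5 / 100) with u1 | u1
  · rcases le_total Tl (-(75 / 1000)) with u2 | u2
    · exact cEA_m0 h z0 (by linarith only [z0]) (by linarith only [z1]) (by linarith only [T0]) (by linarith only [T1]) (by linarith only [u4]) (by linarith only [u1]) (by linarith only [t0]) (by linarith only [u2]) hl hp ne S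
    · rcases le_total Tl (-(60 / 1000)) with u3 | u3
      · exact cEA_m1 h z0 (by linarith only [z0]) (by linarith only [z1]) (by linarith only [T0]) (by linarith only [T1]) (by linarith only [u4]) (by linarith only [u1]) (by linarith only [u2]) (by linarith only [u3]) hl hp ne S
      · exact cEA_m2 h z0 (by linarith only [z0]) (by linarith only [z1]) (by linarith only [T0]) (by linarith only [T1]) (by linarith only [u4]) (by linarith only [u1]) (by linarith only [u3]) (by linarith only [u6]) hl hp ne S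
  · rcases le_total Tl (-(75 / 1000)) with u2 | u2
    · exact cEA_m3 h z0 (by linarith only [z0]) (by linarith only [z1]) (by linarith only [T0]) (by linarith only [T1]) (by linarith only [u1]) (by linarith only [u5]) (by linarith only [t0]) (by linarith only [u2]) hl hp ne S
    · rcases le_total Tl (-(60 / 1000)) with u3 | u3
      · exact cEA_m4 h z0 (by linarith only [z0]) (by linarith only [z1]) (by linarith only [T0]) (by linarith only [T1]) (by linarith only [u1]) (by linarith only [u5]) (by linarith only [u2]) (by linarith only [u3]) hl hp ne S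
      · exact cEA_m5 h z0 (by linarith only [z0]) (by linarith only [z1]) (by linarith only [T0]) (by linarith only [T1]) (by linarith only [u1]) (by linarith only [u5]) (by linarith only [u3]) (by linarith only [u6]) hl hp ne S

/-- the other neighbour of the `1` is a `1` or an interior `2` -/
theorem endG (h : H x T Tl pl k l w) (z0 : 63 / 100 ≤ x) (T0 : 21 / 1000 ≤ T)
    (T1 : T ≤ 94 / 1000) (hk : KG k) (hw : T ≤ 92 / 1000 ∨ KW k) : False := by
  have z1 := h.x1
  cases h.lp with
  | main hl hp =>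
    rcases le_total l.re (5 / 10) with u1 | u1
    · by_cases hA : (2 / 100 ≤ l.re ∧ l.re ≤ 15 / 100) ∧ Tl ≤ -(40 / 1000)
      · exact gA h z0 T0 T1 hk hw hA.1.1 hA.1.2 hA.2 hl hp
      · have t2 : l.re ≤ 2 / 100 ∨ 15 / 100 ≤ l.re ∨ -(40 / 1000) ≤ Tl := by
          by_contra hc
          simp only [not_or, not_le] at hc
          exact hA ⟨⟨hc.1.le, hc.2.1.le⟩, hc.2.2.le⟩
        rcases le_total T (60 / 1000) with v1 | v1
        · exact gB1 h z0 T0 v1 (sB1_G z0 (by linarith only [z1]) T0 (by linarith only [v1]) hk) u1 t2 hl hp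
        · exact gB2 h z0 v1 T1 (sB2_G z0 (by linarith only [z1]) (by linarith only [v1]) (by linarith only [T1]) hk) u1 t2 hl hp
    · by_cases hN : (6 / 10 ≤ l.re ∧ l.re ≤ 7 / 10) ∧ -(10 / 1000) ≤ Tl
      · have t1 := h.t1
        exact cN_m0 h z0 z0 (by linarith only [z1]) T0 (by linarith only [T1]) (by linarith only [hN, hN.1.1])
          (by linarith only [hN, hN.1.2]) (by linarith only [hN, hN.2]) (by linarith only [t1]) hl hp
          (sN_G z0 (by linarith only [z1]) T0 (by linarith only [T1]) hk)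
      · have t2 : l.re ≤ 6 / 10 ∨ 7 / 10 ≤ l.re ∨ Tl ≤ -(10 / 1000) := by
          by_contra hc
          simp only [not_or, not_le] at hc
          exact hN ⟨⟨hc.1.le, hc.2.1.le⟩, hc.2.2.le⟩
        exact gC h z0 T0 T1 (sC_G z0 (by linarith only [z1]) T0 (by linarith only [T1]) hk) u1 t2 hl hp
  | up t1 hl hp => exact gU_u h z0 T0 T1 (sU_G z0 (by linarith only [z1]) T0 (by linarith only [T1]) hk) t1 hl hp
  | dn t0 hl hp => exact gU_d h z0 T0 T1 (sU_G z0 (by linarith only [z1]) T0 (by linarith only [T1]) hk) t0 hl hp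

/-- the other neighbour of the `1` is a `2` at an end -/
theorem endE (h : H x T Tl pl k l w) (z0 : 63 / 100 ≤ x) (T0 : 87 / 1000 ≤ T)
    (T1 : T ≤ 1145 / 10000) (hk : KM k ∨ KU k) : False := by
  have z1 := h.x1
  have a1 := h.s1
  have S1 : SEA x T k := hk.elim (fun hk => sEA_M z0 (by linarith only [z1]) T0 (by linarith only [T1]) hk)
    (fun hk => sEA_U z0 (by linarith only [z1]) T0 (by linarith only [T1]) hk)
  have S2 : SEC x T k := hk.elim (fun hk => sEC_M z0 (by linarith only [z1]) T0 (by linarith only [T1]) hk)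
    (fun hk => sEC_U z0 (by linarith only [z1]) T0 (by linarith only [T1]) hk)
  have S3 : SEU x T k := hk.elim (fun hk => sEU_M z0 (by linarith only [z1]) T0 (by linarith only [T1]) hk)
    (fun hk => sEU_U z0 (by linarith only [z1]) T0 (by linarith only [T1]) hk)
  cases h.lp with
  | main hl hp =>
    rcases le_total l.re (5 / 10) with u1 | u1
    · exact gEA h z0 T0 T1 S1 u1 hl hp
    · by_cases hN : (6 / 10 ≤ l.re ∧ l.re ≤ 7 / 10) ∧ -(10 / 1000) ≤ Tl
      · have S4 : SEN x T k := hk.elim
          (fun hk => sEN_M z0 (by linarith only [z1]) (by linarith only [T0]) (by linarith only [a1, hN, hN.2]) hk)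
          (fun hk => sEN_U z0 (by linarith only [z1]) (by linarith only [T0]) (by linarith only [a1, hN, hN.2]) hk)
        exact cEN_m0 h z0 z0 (by linarith only [z1]) (by linarith only [T0]) (by linarith only [a1, hN, hN.2])
          (by linarith only [hN, hN.1.1]) (by linarith only [hN, hN.1.2]) (by linarith only [hN, hN.2]) (by linarith only [T0, a1]) hl hp S4
      · have t2 : l.re ≤ 6 / 10 ∨ 7 / 10 ≤ l.re ∨ Tl ≤ -(10 / 1000) := by
          by_contra hc
          simp only [not_or, not_le] at hc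
          exact hN ⟨⟨hc.1.le, hc.2.1.le⟩, hc.2.2.le⟩
        exact gEC h z0 T0 T1 S2 u1 t2 hl hp
  | up t1 hl hp => exact gEU_u h z0 T0 T1 S3 t1 hl hp
  | dn t0 hl hp => linarith only [z0, T0, z1, a1, t0]

end R13

end Pool.Agent.Work.NumGs

namespace Pool.Agent.Work.MP_b30479_gtS.G2

namespace M13

open NumGs.R13 in
/-- **The right end of the mirrored path.** -/
theorem endR {x T Tl pl : ℝ} {k l w : ℂ} (h : H x T Tl pl k l w) (z0 : 63 / 100 ≤ x) : False := by
  cases h.kp with
  | one a b c d e =>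
    exact endG h z0 a (by linarith only [b]) ⟨⟨c, d⟩, e⟩ (Or.inl b)
  | two a b c d e =>
    have hw : KW k := ⟨⟨c, d⟩, e⟩
    exact endG h z0 (by linarith only [a]) b hw.toKG (Or.inr hw)
  | em a b c d e => exact endE h z0 a b (Or.inl ⟨⟨c, d⟩, e⟩)
  | eu a b c d e => exact endE h z0 a b (Or.inr ⟨⟨c, d⟩, e⟩)

end M13

end Pool.Agent.Work.MP_b30479_gtS.G2

end
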