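import Pool.Agent.Work.MP_b30479_gt.TBS.G2.WMGb

section

/-!
# Part of `WMHbr3`
-/
set_option deprecated.oldSectionVars true

namespace Pool.Agent.Work.MP_b30479_gtS.G2

namespace KE

open NumGs

theorem hm25 : chkF (lM 2500 1 1 (pl2 (-65) 124))
    1000 0 0 0 116 50 540 600 0 22 0 800 0 121 478011683322051993161210119916884267287399435285052538063304963575679514497286402 = true := by
  decide +kernel

theorem hd25 : chkF (lD 2500 1 1 (pl2 (-65) 124))
    1000 0 0 0 0 50 540 600 0 22 0 800 0 0 5618915252786113583324803244282758415024386 = true := by
  decide +kernel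

theorem ho25_540 : chkF (lO 2500 1 1 (pl2 (-65) 124))
    1000 0 0 0 82 50 540 600 0 22 0 800 0 82 3722911174711148124218482208488469479233861651076443309373963976799334677076499128641269243823855165303479402004738 = true := by
  decide +kernel

theorem ht25_540 : chkF (lT 2500 1 1 (pl2 (-65) 124))
    1000 0 0 0 116 50 540 600 0 22 0 800 0 116 30890123272822025318182915729774213719299311488768966914 = true := by
  decide +kernel

end KE

end Pool.Agent.Work.MP_b30479_gtS.G2

end

section

/-!
# Part of `WMHbr3`
-/
set_option deprecated.oldSectionVars true

namespace Pool.Agent.Work.MP_b30479_gtS.G2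

namespace KE

open NumGs

theorem hm30 : chkF (lM 3000 1 1 (pl2 (-87) 123))
    1000 0 0 0 116 50 540 600 0 22 0 800 0 121 128315284185882622519910979241690520322123407633046005568491719935655491454098895397748994 = true := by
  decide +kernel

theorem hd30 : chkF (lD 3000 1 1 (pl2 (-87) 123))
    1000 0 0 0 0 50 540 600 0 22 0 800 0 0 92060307501637382113950077867952638009913934082 = true := by
  decide +kernel

theorem ho30_540 : chkF (lO 3000 1 1 (pl2 (-87) 123))
    1000 0 0 0 82 50 540 600 0 22 0 800 0 82 2631947214755101906096386265389237414157635548190810671293451024064675894626148458893989150978 = true := by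
  decide +kernel

theorem ht30_540 : chkF (lT 3000 1 1 (pl2 (-87) 123))
    1000 0 0 0 116 50 540 600 0 22 0 800 0 116 30890126195825299979988752137143879142640852863872434434 = true := by
  decide +kernel

end KE

end Pool.Agent.Work.MP_b30479_gtS.G2

end
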