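import Pool.Agent.Work.MP_b30479_gt.TBS.G2.WM13Y1
import Pool.Agent.Work.MP_b30479_gt.TBS.G2.WMF4r8
import Pool.Agent.Work.MP_b30479_gt.TBS.G2.WM13Lr5

/-!
# Mirrored paths: the kind `1 | 3`, slot `0` of the `3`
-/

namespace Pool.Agent.Work.MP_b30479_gtS.G2

namespace SR

variable {M : ℕ} {b : Fin (M + 1) → ℤ} {zs : DD (tyW b) ⊕ ZZ (tyW b) → ℂ}

/-- **Kind `1 | 3`**, the `3` at its slot `0`. -/
theorem kind_one_three (hb : ClassW b) (L : LocA b zs) : Kd b zs .one .three 2 :=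
  kind_one_three_of hb L M13.endL M13.endR

end SR

end Pool.Agent.Work.MP_b30479_gtS.G2
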