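import Pool.Agent.Work.MP_b30479_gt.TBS.G2.WM_1_3bE
import Pool.Agent.Work.MP_b30479_gt.TBS.G2.H13A

section

/-!
# Mirrored paths, kind `1 | 3`, the `3` at its slot `2`: rows
-/

set_option deprecated.oldSectionVars true

namespace Pool.Agent.Work.MP_b30479_gtS.G2.K3b

open NumGs

theorem r_A1a_q1 : Pool.Agent.Work.NumIs.runE (Pool.Agent.Work.NumGs.tstD [.of (rA (.q 2 25) (.q 8 15) s1 dl)])
    0 0 0 0 55 0 2405181686 1443109011 6143521222 0 3693671874 0 14362370639
    0x8101840808004080c20406001040808203081020304101800410203080820406102030400104080c204041020106082040610203081018004002040610203081018006102030810180001020308101810810184080c0820810084080400408101820810101081010402001830810184080c104081018200102030810180060010408101800810203060420402102010610203081018100082040210203080410408101810810084080820404041820810202040418408042040610083081018402102030800204061000106080030810184080c004080c20406001840804204020c2040210201060c204001020306001000810184080410408101810810184080c082001020406082040604204080c204000418408042040210201000c104080c2040008083081020004102030810202020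8204080c100061020308002040610203080010408080030200184080c2040604204041020208100840804100061020308101840810182000c08308101840800104080c20406000840804204080c0840810001040c204061020406081800810184080420406100020610204040c001060020406102000810084080400306102010810204020c0030210204020c204080c20406041800810184080c104080c084080c2040604204080c104080c08200082040610204020c204080c2020008001041020308101800810184080c00108100840800204061000106102030810084080c00302102030810203040c2040610001000c20406102030800204061000106102030810184000c204061020302102010008104080c2040610201060c20406102040604184080c2040604204060010202102030810184000c2040610004080c2000408204080018408082040600101000800204102030810184020820406102010410203000c2040610203061020308101800400204021020300102030810181081018006102010810184020c20406002040610084080c20406041040808002041020308101840800102081018408001040810102081020304102040600204080c204080800200081000400002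
    0x4080c20404002040610203000820404101840810182080c00208101840410203081018200082040610202081008304102030810184080c00200102030810184080c0030810184080c0000810184080c084080c204060410408042040200204080c10408080840808201000c184080c2040608204080c1000810184080c0030008204080c0040810183021020108100830810184080c080041020108101840208204080c08408042040410202020c1040810102020c20402102030804184080c2010810184001020308000830400184080c20406002040610203000c204021020106102010810083061020008101830008004080c2040208204080c084080c20406041000810203041020302102040610200020c204021020108100800608204061020004041840810002081018408101010410204060800308101840010203081018400082040400181000c204061020302102020810104080420402080030810184080c204080c1000604184080c20400082040610203000420402102040604204080008206102030810203040c004080c20402102030800103081020206000830010203081000408042040200183081008408102010600181081020106102040610203020c004080c204060820406042040610203021020406082040604100041020308102010610204061010004000820810184080c004080c2040600084080420400102030800083081018408042040600181081018408101820610203080008006102030810184001020308000830810184080c20006102030810181081008004082040610203081008306102030810203020c2040610203021020300081010810184080c2000610203080020406100020410204000c204041020300080800400102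 = true := by
  decide +kernel

theorem r_A1a_q2 : Pool.Agent.Work.NumIs.runE (Pool.Agent.Work.NumGs.tstD [.of (rA (.q 2 25) (.q 8 15) s1 dl)])
    0 0 0 0 52 2405181686 3607772529 1443109011 6143521222 0 923417968 0 14362370639
    0x2040610202001020308101800410202080c204080c1040600104080c2020810184080c1000410203081010408041820810184080c20406001000810184080c2040600184080c2040600004080c20406042040610203020820402102010010204060820404042040410080060c204061020304102040608004080c204060018004102040600204080c18108100840804184080c20406040020810084080c20104102040604204021020208101010608204080810106102010810184020c2040610084080c20008101840004182000c20406102030010203081018006102010810083081008408041830810004080c180040020406102010410204060420406102030208004081018208101810810203081000106102010810084080400304102030810002020c2040800104080c204080808208102030400184080c2000810184080c2000410202000c080061020308101810810104080820402102010400184080c20406102040608003020c204061020004102030810180021020108102030210204000410308101840810182060020406102010810184000818408101030004180081018408002040210201000c18408042040810083000c0840810083081020308101810600204061020304102030210203081018108102030410203020800208101840810083081020308080020004104080c204060020406102030004204021020008101840004184080c2040210203000c084080c204080c103081018400040030810184080c20008101840004184080c20406100030810184080c0840804002041020308101840804183081018408101810610203081018108101800408084080c20406100030810184001020308001020810200061020208101800404002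
    0x4080c20404002040610203000820404101840810182080c00208101840410203081018200082040610202081008304102030810184080c00200102030810184080c0030810184080c0000810184080c084080c204060410408042040200204080c10408080840808201000c184080c2040608204080c1000810184080c0030008204080c0040810183021020108100830810184080c080041020108101840208204080c08408042040410202020c1040810102020c20402102030804184080c2010810184001020308000830400184080c20406002040610203000c204021020106102010810083061020008101830008004080c2040208204080c084080c20406041000810203041020302102040610200020c204021020108100800608204061020004041840810002081018408101010410204060800308101840010203081018400082040400181000c204061020302102020810104080420402080030810184080c204080c1000604184080c20400082040610203000420402102040604204080008206102030810203040c004080c20402102030800103081020206000830010203081000408042040200183081008408102010600181081020106102040610203020c004080c20406082040604204061020302102040608204060410004102030810201061020406101000400082 = true := by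
  decide +kernel

theorem r_A1a_q3 : Pool.Agent.Work.NumIs.runE (Pool.Agent.Work.NumGs.tstD [.of (rA (.q 2 25) (.q 8 15) s1 dl)])
    0 0 0 0 52 3607772529 4810363373 1443109011 6143521222 0 923417968 0 14362370639
    0x4080c20404002040610203000820404101840810182080c00208101840410203081018200082040610202081008304102030810184080c00200102030810184080c0030810184080c0000810184080c084080c204060410408042040200204080c10408080840808201000c184080c2040608204080c1000810184080c0030008204080c0040810183021020108100830810184080c080041020108101840208204080c08408042040410202020c1040810102020c20402102030804184080c2010810184001020308000830400184080c20406002040610203000c204021020106102010810083061020008101830008004080c2040208204080c084080c20406041000810203041020302102040610200020c204021020108100800608204061020004041840810002081018408101010410204060800308101840010203081018400082040400181000c204061020302102020810104080420402080030810184080c204080c1000604184080c20400082040610203000420402102040604204080008206102030810203040c004080c20402102030800103081020206000830010203081000408042040200183081008408102010600181081020106102040610203020c004080c20406082040604204061020302102040608204060410004102030810201061020406101000400082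
    0x2040610202001020308101800410202080c204080c1040600104080c2020810184080c1000410203081010408041820810184080c20406001000810184080c2040600184080c2040600004080c20406042040610203020820402102010010204060820404042040410080060c204061020304102040608004080c204060018004102040600204080c18108100840804184080c20406040020810084080c20104102040604204021020208101010608204080810106102010810184020c2040610084080c20008101840004182000c20406102030010203081018006102010810083081008408041830810004080c180040020406102010410204060420406102030208004081018208101810810203081000106102010810084080400304102030810002020c2040800104080c204080808208102030400184080c2000810184080c2000410202000c080061020308101810810104080820402102010400184080c20406102040608003020c204061020004102030810180021020108102030210204000410308101840810182060020406102010810184000818408101030004180 = true := by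
  decide +kernel

theorem r_A1a_q4 : Pool.Agent.Work.NumIs.runE (Pool.Agent.Work.NumGs.tstD [.of (rA (.q 2 25) (.q 8 15) s1 dl)])
    0 0 0 0 53 2405181686 4810363373 1443109011 6143521222 923417968 1846835937 0 14362370639
    0x2040610202001020308101800410202080c204080c1040600104080c2020810184080c1000410203081010408041820810184080c20406001000810184080c2040600184080c2040600004080c20406042040610203020820402102010010204060820404042040410080060c204061020304102040608004080c204060018004102040600204080c18108100840804184080c20406040020810084080c20104102040604204021020208101010608204080810106102010810184020c2040610084080c20008101840004182000c20406102030010203081018006102010810083081008408041830810004080c180040020406102010410204060420406102030208004081018208101810810203081000106102010810084080400304102030810002020c2040800104080c204080808208102030400184080c2000810184080c2000410202000c080061020308101810810104080820402102010400184080c20406102040608003020c204061020004102030810180021020108102030210204000410308101840810182060020406102010810184000818408101030004180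
    0x1020308101000810184080c00208101040610204060820300082040610104080c204060800208101840808204020c104080c20406102030008004080c2040610203000c2040610203000020406102030210203081018104102010810080081020304102020210202080400306102030810182081020304002040610203000c00208102030010204060c0840804204020c20406102030200104080420406100820810203021020108101040808083041020404080830810084080c201061020308042040610004080c200020c100061020308101800810184080c003081008408041840804204020c1840800204060c002001020308100820810203021020308101810400204080c104080c084081018408000830810084080420402001820810184080010106102040008204061020404041040810182000c2040610004080c204061000208101000604003 = true := by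
  decide +kernel

theorem r_A1a_q5 : Pool.Agent.Work.NumIs.runE (Pool.Agent.Work.NumGs.tstD [.of (rA (.q 2 25) (.q 8 15) s1 dl)])
    0 0 0 0 54 2405181686 4810363373 1443109011 6143521222 1846835937 3693671874 0 14362370639
    0x1020308101000810184080c00208101040610204060820300082040610104080c204060800208101840808204020c104080c20406102030008004080c2040610203000c2040610203000020406102030210203081018104102010810080081020304102020210202080400306102030810182081020304002040610203000c00208102030010204060c0840804204020c20406102030200104080420406100820810203021020108101040808083041020404080830810084080c201061020308042040610004080c200020c100061020308101800810184080c003081008408041840804204020c1840800204060c002001020308100820810203021020308101810400204080c104080c084081018408000830810084080420402001820810184080010106102040008204061020404041040810182000c2040610004080c204061000208101000604003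
    0x8101840808004080c20406001040808203081020304101800410203080820406102030400104080c204041020106082040610203081018004002040610203081018006102030810180001020308101810810184080c0820810084080400408101820810101081010402001830810184080c104081018200102030810180060010408101800810203060420402102010610203081018100082040210203080410408101810810084080820404041820810202040418408042040610083081018402102030800204061000106080030810184080c004080c20406001840804204020c2040210201060c20400102030600100 = true := by
  decide +kernel

theorem r_A1a_q6 : Pool.Agent.Work.NumIs.runE (Pool.Agent.Work.NumGs.tstD [.of (rA (.q 2 25) (.q 8 15) s1 dl)])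
    0 0 0 0 56 0 4810363373 1443109011 6143521222 3693671874 7387343749 0 14362370639
    0x8101840808004080c20406001040808203081020304101800410203080820406102030400104080c204041020106082040610203081018004002040610203081018006102030810180001020308101810810184080c0820810084080400408101820810101081010402001830810184080c104081018200102030810180060010408101800810203060420402102010610203081018100082040210203080410408101810810084080820404041820810202040418408042040610083081018402102030800204061000106080030810184080c004080c20406001840804204020c2040210201060c20400102030600100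
    0x1020308101000810184080c00208101040610204060820300082040610104080c204060800208101840808204020c104080c20406102030008004080c2040610203000c2040610203000020406102030210203081018104102010810080081020304102020210202080400306102030810182081020304002040610203000c002 = true := by
  decide +kernel

theorem r_A1a_q7 : Pool.Agent.Work.NumIs.runE (Pool.Agent.Work.NumGs.tstD [.of (rA (.q 2 25) (.q 8 15) s1 dl)])
    0 0 0 0 57 0 4810363373 1443109011 6143521222 7387343749 14774687498 0 14362370639
    0x1020308101000810184080c00208101040610204060820300082040610104080c204060800208101840808204020c104080c20406102030008004080c2040610203000c2040610203000020406102030210203081018104102010810080081020304102020210202080400306102030810182081020304002040610203000c002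
    0x2040610202001020308101800410202080c204080c1040600104080c2020810184080c1000410203081010408041820810184080c2040600100 = true := by
  decide +kernel

theorem r_A1a_q8 : Pool.Agent.Work.NumIs.runE (Pool.Agent.Work.NumGs.tstD [.of (rA (.q 2 25) (.q 8 15) s1 dl)])
    0 0 0 0 58 0 4810363373 1443109011 6143521222 14774687498 29549374997 0 14362370639
    0x2040610202001020308101800410202080c204080c1040600104080c2020810184080c1000410203081010408041820810184080c2040600100
    0x1020308101000810184080c00208101040610204060820300082040610104080c2040608002 = true := by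
  decide +kernel

theorem r_A1a_q9 : Pool.Agent.Work.NumIs.runE (Pool.Agent.Work.NumGs.tstD [.of (rA (.q 2 25) (.q 8 15) s1 dl)])
    0 0 0 0 59 0 4810363373 1443109011 6143521222 29549374997 59098749994 0 14362370639
    0x1020308101000810184080c00208101040610204060820300082040610104080c2040608002
    0x0 = true := by
  decide +kernel

theorem r_A1a : chkD [.of (rA (.q 2 25) (.q 8 15) s1 dl)]
    10000 0 0 0 0 60 0 700 210 894 0 8600 0 2090
    0x4080c20404002040610203000820404101840810182080c00208101840410203081018200082040610202081008304102030810184080c00200102030810184080c0030810184080c0000810184080c084080c204060410408042040200204080c10408080840808201000c184080c2040608204080c1000810184080c0030008204080c0040810183021020108100830810184080c080041020108101840208204080c08408042040410202020c1040810102020c20402102030804184080c2010810184001020308000830400184080c20406002040610203000c204021020106102010810083061020008101830008004080c2040208204080c084080c20406041000810203041020302102040610200020c2040210201081008006082040610200040418408100020810184081010104102040608003081018400102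03081018400082040400181000c204061020302102020810104080420402080030810184080c204080c1000604184080c20400082040610203000420402102040604204080008206102030810203040c004080c20402102030800103081020206000830010203081000408042040200183081008408102010600181081020106102040610203020c004080c204060820406042040610203021020406082040604100041020308102010610204061010004000820810184080c004080c2040600084080420400102030800083081018408042040600181081018408101820610203080008006102030810184001020308000830810184080c20006102030810181081008004082040610203081008306102030810203020c2040610203021020300081010810184080c2000610203080020406100020410204000c2040410203000808004001020810184080c201041020308100820810180061020308101830810184080c002001020108101800810184080c084080c0030810084080c2010610203001020308042040610203020820404001020810184080c2040008104080c2040008204080810408101820810203001020406102040400100040800200001000408102 = true :=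
  Pool.Agent.Work.NumIs.okB_of rfl rfl rfl rfl rfl rfl rfl rfl rfl rfl rfl rfl
    (Pool.Agent.Work.NumIs.runE_split2 rfl rfl rfl
      (Pool.Agent.Work.NumIs.runE_split2 rfl rfl rfl
        (Pool.Agent.Work.NumIs.runE_split2 rfl rfl rfl
          (Pool.Agent.Work.NumIs.runE_split2 rfl rfl rfl
            (Pool.Agent.Work.NumIs.runE_split0 rfl rfl rfl
              r_A1a_q1
              (Pool.Agent.Work.NumIs.runE_split2 rfl rfl rfl
                (Pool.Agent.Work.NumIs.runE_split2 rfl rfl rfl
                  (Pool.Agent.Work.NumIs.runE_split0 rfl rfl rfl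
                    r_A1a_q2
                    r_A1a_q3)
                  r_A1a_q4)
                r_A1a_q5))
            r_A1a_q6)
          r_A1a_q7)
        r_A1a_q8)
      r_A1a_q9)

end Pool.Agent.Work.MP_b30479_gtS.G2.K3b

end

section

/-!
# Mirrored paths, kind `1 | 3`, the `3` at its slot `2`: side of the `1`

`sideA1`, `sideA2r`, `sideA2`, `sideAE`: gain of the digit `1` on the cells of `C1`, `C2`, `CE`.
-/

namespace Pool.Agent.Work.MP_b30479_gtS.G2.K3b

open NumGs

variable {x T y S : ℝ}

/-- parameter of the height `S` of the other hinge -/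
noncomputable def p1 (T S : ℝ) : ℝ := 49 / 1000 - max (T - 62 / 1000) 0 - S
noncomputable def p2 (T S : ℝ) : ℝ := 77 / 1000 - max (T - 71 / 1000) 0 - S
noncomputable def pe (T S : ℝ) : ℝ := -(25 / 1000) - max (T - 102 / 1000) 0 - S

theorem p1_nn (h1 : S ≤ 49 / 1000) (h2 : T + S ≤ 111 / 1000) : 0 ≤ p1 T S := by
  have := max_le (show T - 62 / 1000 ≤ 49 / 1000 - S by linarith only [h2]) (show 0 ≤ 49 / 1000 - S by linarith only [h1])
  unfold p1
  linarith only [this]

theorem p1_le (h : -(160 / 1000) ≤ S) : p1 T S ≤ 2090 / 10000 := by
  have := le_max_right (T - 62 / 1000) 0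
  unfold p1
  linarith only [h, this]

theorem p2_nn (h1 : S ≤ 77 / 1000) (h2 : T + S ≤ 148 / 1000) : 0 ≤ p2 T S := by
  have := max_le (show T - 71 / 1000 ≤ 77 / 1000 - S by linarith only [h2]) (show 0 ≤ 77 / 1000 - S by linarith only [h1])
  unfold p2
  linarith only [this]

theorem p2_le (h : 10 / 1000 ≤ S) : p2 T S ≤ 670 / 10000 := by
  have := le_max_right (T - 71 / 1000) 0
  unfold p2
  linarith only [h, this]

theorem pe_nn (h1 : S ≤ -(25 / 1000)) (h2 : T + S ≤ 77 / 1000) : 0 ≤ pe T S := by
  have := max_le (show T - 102 / 1000 ≤ -(25 / 1000) - S by linarith only [h2])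
    (show 0 ≤ -(25 / 1000) - S by linarith only [h1])
  unfold pe
  linarith only [this]

theorem pe_le (h : -(45 / 1000) ≤ S) : pe T S ≤ 200 / 10000 := by
  have := le_max_right (T - 102 / 1000) 0
  unfold pe
  linarith only [h, this]

theorem qvA (a : ℤ) (n : ℕ) (xs : List ℝ) : (E.q a n).val xs = (a : ℝ) / n := rfl

theorem fin1 {c r d : E} {C R P : ℝ} (hc : c.val [x, T, y, p1 T S] = C)
    (hr : r.val [x, T, y, p1 T S] = R) (hd : d.val [x, T, y, p1 T S] = P)
    (h : 0 < (rA c r s1 d).val [x, T, y, p1 T S]) : GA x T C R P ⟨y, S * τ1 y⟩ := by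
  have e : S1.val [x, T, y, p1 T S] = S := by
    rw [S1_val, p1]
    ring
  rw [rA_val hc hr hd, s1_val, e] at h
  unfold GA
  linarith only [h]

theorem fin2 {c r d : E} {C R P : ℝ} (hc : c.val [x, T, y, p2 T S] = C)
    (hr : r.val [x, T, y, p2 T S] = R) (hd : d.val [x, T, y, p2 T S] = P)
    (h : 0 < (rA c r s2 d).val [x, T, y, p2 T S]) : GA x T C R P ⟨y, S * τ2 y⟩ := by
  have e : S2.val [x, T, y, p2 T S] = S := by
    rw [S2_val, p2]
    ring
  rw [rA_val hc hr hd, s2_val, e] at h
  unfold GA
  linarith only [h]

/-- the other hinge moved to `1 / 4`, the region behind it is a `2` at an end -/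
def GE (x T c r y S : ℝ) : Prop :=
  -(Real.pi * (r * T + hx x) - 70 / 1000) < V1 ⟨c, r * T⟩ ⟨1 / 4, S⟩ -
    V1 ⟨x, -hx x⟩ ⟨y, S * τe y⟩ + (V2 ⟨1 / 4, -S⟩ 0 - V2 ⟨y, -(S * τe y)⟩ 0)

theorem finE {c r : E} {C R : ℝ} (hc : c.val [x, T, y, pe T S] = C)
    (hr : r.val [x, T, y, pe T S] = R)
    (h : 0 < (rA c r sE dE).val [x, T, y, pe T S] ∨ 0 < (rB c r sE dE).val [x, T, y, pe T S]) :
    GA x T C R (-(70 / 1000)) ⟨y, S * τe y⟩ ∨ GE x T C R y S := by
  have e : SE.val [x, T, y, pe T S] = S := by
    rw [SE_val, pe]
    ring
  rcases h with h | h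
  · left
    rw [rA_val hc hr dE_val, sE_val, e] at h
    unfold GA
    linarith only [h]
  · right
    rw [rB_val hc hr dE_val, sE_val, e] at h
    unfold GE
    linarith only [h]

theorem a_A1a (x0 : 0 / 10000 ≤ x) (x1 : x ≤ 700 / 10000) (T0 : 210 / 10000 ≤ T)
    (T1 : T ≤ 894 / 10000) (y0 : 0 ≤ y) (y1 : y ≤ 8600 / 10000)
    (S1 : S ≤ 49 / 1000) (S2 : T + S ≤ 111 / 1000) (S0 : -(160 / 1000) ≤ S) :
    GA x T (8 / 100) (8 / 15) (pL x T) ⟨y, S * τ1 y⟩ := by
  have q0 := p1_nn S1 S2
  have q1 := p1_le (T := T) S0
  obtain ⟨e, he, h⟩ := chkD4 r_A1a (by norm_num) (x := x) (y := T) (z := y) (w := p1 T S)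
    (by push_cast; linarith only [x0]) (by push_cast; linarith only [x1]) (by push_cast; linarith only [T0])
    (by push_cast; linarith only [T1]) (by push_cast; linarith only [y0]) (by push_cast; linarith only [y1])
    (by push_cast; linarith only [q0]) (by push_cast; linarith only [q1])
  rw [List.mem_singleton] at he
  subst he
  exact fin1 (by rw [qvA]; norm_num) (by rw [qvA]; norm_num) dl_val h

theorem a_A1b (x0 : 700 / 10000 ≤ x) (x1 : x ≤ 850 / 10000) (T0 : 210 / 10000 ≤ T)
    (T1 : T ≤ 894 / 10000) (y0 : 0 ≤ y) (y1 : y ≤ 8600 / 10000)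
    (S1 : S ≤ 49 / 1000) (S2 : T + S ≤ 111 / 1000) (S0 : -(160 / 1000) ≤ S) :
    GA x T (9 / 100) (3 / 5) (pL x T) ⟨y, S * τ1 y⟩ := by
  have q0 := p1_nn S1 S2
  have q1 := p1_le (T := T) S0
  obtain ⟨e, he, h⟩ := chkD4 r_A1b (by norm_num) (x := x) (y := T) (z := y) (w := p1 T S)
    (by push_cast; linarith only [x0]) (by push_cast; linarith only [x1]) (by push_cast; linarith only [T0])
    (by push_cast; linarith only [T1]) (by push_cast; linarith only [y0]) (by push_cast; linarith only [y1])
    (by push_cast; linarith only [q0]) (by push_cast; linarith only [q1])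
  rw [List.mem_singleton] at he
  subst he
  exact fin1 (by rw [qvA]; norm_num) (by rw [qvA]; norm_num) dl_val h

theorem a_A1c (x0 : 850 / 10000 ≤ x) (x1 : x ≤ 1300 / 10000) (T0 : 210 / 10000 ≤ T)
    (T1 : T ≤ 894 / 10000) (y0 : 0 ≤ y) (y1 : y ≤ 8600 / 10000)
    (S1 : S ≤ 49 / 1000) (S2 : T + S ≤ 111 / 1000) (S0 : -(160 / 1000) ≤ S) :
    GA x T (10 / 100) (2 / 3) (pL x T) ⟨y, S * τ1 y⟩ := by
  have q0 := p1_nn S1 S2
  have q1 := p1_le (T := T) S0
  obtain ⟨e, he, h⟩ := chkD4 r_A1c (by norm_num) (x := x) (y := T) (z := y) (w := p1 T S)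
    (by push_cast; linarith only [x0]) (by push_cast; linarith only [x1]) (by push_cast; linarith only [T0])
    (by push_cast; linarith only [T1]) (by push_cast; linarith only [y0]) (by push_cast; linarith only [y1])
    (by push_cast; linarith only [q0]) (by push_cast; linarith only [q1])
  rw [List.mem_singleton] at he
  subst he
  exact fin1 (by rw [qvA]; norm_num) (by rw [qvA]; norm_num) dl_val h

theorem a_A1d (x0 : 1300 / 10000 ≤ x) (x1 : x ≤ 1500 / 10000) (T0 : 210 / 10000 ≤ T)
    (T1 : T ≤ 894 / 10000) (y0 : 0 ≤ y) (y1 : y ≤ 8600 / 10000)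
    (S1 : S ≤ 49 / 1000) (S2 : T + S ≤ 111 / 1000) (S0 : -(160 / 1000) ≤ S) :
    GA x T (125 / 1000) (5 / 6) (pL x T) ⟨y, S * τ1 y⟩ := by
  have q0 := p1_nn S1 S2
  have q1 := p1_le (T := T) S0
  obtain ⟨e, he, h⟩ := chkD4 r_A1d (by norm_num) (x := x) (y := T) (z := y) (w := p1 T S)
    (by push_cast; linarith only [x0]) (by push_cast; linarith only [x1]) (by push_cast; linarith only [T0])
    (by push_cast; linarith only [T1]) (by push_cast; linarith only [y0]) (by push_cast; linarith only [y1])
    (by push_cast; linarith only [q0]) (by push_cast; linarith only [q1])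
  rw [List.mem_singleton] at he
  subst he
  exact fin1 (by rw [qvA]; norm_num) (by rw [qvA]; norm_num) dl_val h

theorem a_A1e (x0 : 1500 / 10000 ≤ x) (x1 : x ≤ 2000 / 10000) (T0 : 210 / 10000 ≤ T)
    (T1 : T ≤ 894 / 10000) (y0 : 0 ≤ y) (y1 : y ≤ 8600 / 10000)
    (S1 : S ≤ 49 / 1000) (S2 : T + S ≤ 111 / 1000) (S0 : -(160 / 1000) ≤ S) :
    GA x T (15 / 100) (1) (pL x T) ⟨y, S * τ1 y⟩ := by
  have q0 := p1_nn S1 S2
  have q1 := p1_le (T := T) S0
  obtain ⟨e, he, h⟩ := chkD4 r_A1e (by norm_num) (x := x) (y := T) (z := y) (w := p1 T S)
    (by push_cast; linarith only [x0]) (by push_cast; linarith only [x1]) (by push_cast; linarith only [T0])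
    (by push_cast; linarith only [T1]) (by push_cast; linarith only [y0]) (by push_cast; linarith only [y1])
    (by push_cast; linarith only [q0]) (by push_cast; linarith only [q1])
  rw [List.mem_singleton] at he
  subst he
  exact fin1 (by rw [qvA]; norm_num) (by rw [qvA]; norm_num) dl_val h

theorem a_A1f (x0 : 2000 / 10000 ≤ x) (x1 : x ≤ 5000 / 10000) (T0 : 210 / 10000 ≤ T)
    (T1 : T ≤ 894 / 10000) (y0 : 0 ≤ y) (y1 : y ≤ 8600 / 10000)
    (S1 : S ≤ 49 / 1000) (S2 : T + S ≤ 111 / 1000) (S0 : -(160 / 1000) ≤ S) :
    GA x T (20 / 100) (1) (pL x T) ⟨y, S * τ1 y⟩ := by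
  have q0 := p1_nn S1 S2
  have q1 := p1_le (T := T) S0
  obtain ⟨e, he, h⟩ := chkD4 r_A1f (by norm_num) (x := x) (y := T) (z := y) (w := p1 T S)
    (by push_cast; linarith only [x0]) (by push_cast; linarith only [x1]) (by push_cast; linarith only [T0])
    (by push_cast; linarith only [T1]) (by push_cast; linarith only [y0]) (by push_cast; linarith only [y1])
    (by push_cast; linarith only [q0]) (by push_cast; linarith only [q1])
  rw [List.mem_singleton] at he
  subst he
  exact fin1 (by rw [qvA]; norm_num) (by rw [qvA]; norm_num) dl_val h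

theorem a_A1g (x0 : 5000 / 10000 ≤ x) (x1 : x ≤ 5800 / 10000) (T0 : 210 / 10000 ≤ T)
    (T1 : T ≤ 894 / 10000) (y0 : 0 ≤ y) (y1 : y ≤ 8600 / 10000)
    (S1 : S ≤ 49 / 1000) (S2 : T + S ≤ 111 / 1000) (S0 : -(160 / 1000) ≤ S) :
    GA x T (25 / 100) (1) (pL x T) ⟨y, S * τ1 y⟩ := by
  have q0 := p1_nn S1 S2
  have q1 := p1_le (T := T) S0
  obtain ⟨e, he, h⟩ := chkD4 r_A1g (by norm_num) (x := x) (y := T) (z := y) (w := p1 T S)
    (by push_cast; linarith only [x0]) (by push_cast; linarith only [x1]) (by push_cast; linarith only [T0])
    (by push_cast; linarith only [T1]) (by push_cast; linarith only [y0]) (by push_cast; linarith only [y1])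
    (by push_cast; linarith only [q0]) (by push_cast; linarith only [q1])
  rw [List.mem_singleton] at he
  subst he
  exact fin1 (by rw [qvA]; norm_num) (by rw [qvA]; norm_num) dl_val h

theorem a_A1h (x0 : 5800 / 10000 ≤ x) (x1 : x ≤ 6500 / 10000) (T0 : 210 / 10000 ≤ T)
    (T1 : T ≤ 894 / 10000) (y0 : 0 ≤ y) (y1 : y ≤ 8600 / 10000)
    (S1 : S ≤ 49 / 1000) (S2 : T + S ≤ 111 / 1000) (S0 : -(160 / 1000) ≤ S) :
    GA x T (32 / 100) (1) (pH x T) ⟨y, S * τ1 y⟩ := by
  have q0 := p1_nn S1 S2
  have q1 := p1_le (T := T) S0
  obtain ⟨e, he, h⟩ := chkD4 r_A1h (by norm_num) (x := x) (y := T) (z := y) (w := p1 T S)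
    (by push_cast; linarith only [x0]) (by push_cast; linarith only [x1]) (by push_cast; linarith only [T0])
    (by push_cast; linarith only [T1]) (by push_cast; linarith only [y0]) (by push_cast; linarith only [y1])
    (by push_cast; linarith only [q0]) (by push_cast; linarith only [q1])
  rw [List.mem_singleton] at he
  subst he
  exact fin1 (by rw [qvA]; norm_num) (by rw [qvA]; norm_num) dh_val h

theorem a_A1m (x0 : 1300 / 10000 ≤ x) (x1 : x ≤ 1500 / 10000) (T0 : 210 / 10000 ≤ T)
    (T1 : T ≤ 801 / 10000) (y0 : 0 ≤ y) (y1 : y ≤ 8600 / 10000)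
    (S1 : S ≤ 49 / 1000) (S2 : T + S ≤ 111 / 1000) (S0 : -(160 / 1000) ≤ S) :
    GA x T (15 / 100) (1) (pM x T) ⟨y, S * τ1 y⟩ := by
  have q0 := p1_nn S1 S2
  have q1 := p1_le (T := T) S0
  obtain ⟨e, he, h⟩ := chkD4 r_A1m (by norm_num) (x := x) (y := T) (z := y) (w := p1 T S)
    (by push_cast; linarith only [x0]) (by push_cast; linarith only [x1]) (by push_cast; linarith only [T0])
    (by push_cast; linarith only [T1]) (by push_cast; linarith only [y0]) (by push_cast; linarith only [y1])
    (by push_cast; linarith only [q0]) (by push_cast; linarith only [q1])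
  rw [List.mem_singleton] at he
  subst he
  exact fin1 (by rw [qvA]; norm_num) (by rw [qvA]; norm_num) dm_val h

theorem a_A1k (x0 : 5800 / 10000 ≤ x) (x1 : x ≤ 6200 / 10000) (T0 : 210 / 10000 ≤ T)
    (T1 : T ≤ 801 / 10000) (y0 : 0 ≤ y) (y1 : y ≤ 8600 / 10000)
    (S1 : S ≤ 49 / 1000) (S2 : T + S ≤ 111 / 1000) (S0 : -(160 / 1000) ≤ S) :
    GA x T (25 / 100) (1) (pL x T) ⟨y, S * τ1 y⟩ := by
  have q0 := p1_nn S1 S2
  have q1 := p1_le (T := T) S0
  obtain ⟨e, he, h⟩ := chkD4 r_A1k (by norm_num) (x := x) (y := T) (z := y) (w := p1 T S)
    (by push_cast; linarith only [x0]) (by push_cast; linarith only [x1]) (by push_cast; linarith only [T0])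
    (by push_cast; linarith only [T1]) (by push_cast; linarith only [y0]) (by push_cast; linarith only [y1])
    (by push_cast; linarith only [q0]) (by push_cast; linarith only [q1])
  rw [List.mem_singleton] at he
  subst he
  exact fin1 (by rw [qvA]; norm_num) (by rw [qvA]; norm_num) dl_val h

theorem a_A1j (x0 : 6200 / 10000 ≤ x) (x1 : x ≤ 6500 / 10000) (T0 : 210 / 10000 ≤ T)
    (T1 : T ≤ 801 / 10000) (y0 : 0 ≤ y) (y1 : y ≤ 8600 / 10000)
    (S1 : S ≤ 49 / 1000) (S2 : T + S ≤ 111 / 1000) (S0 : -(160 / 1000) ≤ S) :
    GA x T (30 / 100) (1) (pJ x T) ⟨y, S * τ1 y⟩ := by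
  have q0 := p1_nn S1 S2
  have q1 := p1_le (T := T) S0
  obtain ⟨e, he, h⟩ := chkD4 r_A1j (by norm_num) (x := x) (y := T) (z := y) (w := p1 T S)
    (by push_cast; linarith only [x0]) (by push_cast; linarith only [x1]) (by push_cast; linarith only [T0])
    (by push_cast; linarith only [T1]) (by push_cast; linarith only [y0]) (by push_cast; linarith only [y1])
    (by push_cast; linarith only [q0]) (by push_cast; linarith only [q1])
  rw [List.mem_singleton] at he
  subst he
  exact fin1 (by rw [qvA]; norm_num) (by rw [qvA]; norm_num) dj_val h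

theorem a_A2a (x0 : 0 / 10000 ≤ x) (x1 : x ≤ 700 / 10000) (T0 : 460 / 10000 ≤ T)
    (T1 : T ≤ 894 / 10000) (y0 : 0 ≤ y) (y1 : y ≤ 8000 / 10000)
    (S1 : S ≤ 77 / 1000) (S2 : T + S ≤ 148 / 1000) (S0 : 10 / 1000 ≤ S) :
    GA x T (8 / 100) (8 / 15) (pL x T) ⟨y, S * τ2 y⟩ := by
  have q0 := p2_nn S1 S2
  have q1 := p2_le (T := T) S0
  obtain ⟨e, he, h⟩ := chkD4 r_A2a (by norm_num) (x := x) (y := T) (z := y) (w := p2 T S)
    (by push_cast; linarith only [x0]) (by push_cast; linarith only [x1]) (by push_cast; linarith only [T0])
    (by push_cast; linarith only [T1]) (by push_cast; linarith only [y0]) (by push_cast; linarith only [y1])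
    (by push_cast; linarith only [q0]) (by push_cast; linarith only [q1])
  rw [List.mem_singleton] at he
  subst he
  exact fin2 (by rw [qvA]; norm_num) (by rw [qvA]; norm_num) dl_val h

theorem a_A2b (x0 : 700 / 10000 ≤ x) (x1 : x ≤ 850 / 10000) (T0 : 460 / 10000 ≤ T)
    (T1 : T ≤ 894 / 10000) (y0 : 0 ≤ y) (y1 : y ≤ 8000 / 10000)
    (S1 : S ≤ 77 / 1000) (S2 : T + S ≤ 148 / 1000) (S0 : 10 / 1000 ≤ S) :
    GA x T (9 / 100) (3 / 5) (pL x T) ⟨y, S * τ2 y⟩ := by
  have q0 := p2_nn S1 S2
  have q1 := p2_le (T := T) S0
  obtain ⟨e, he, h⟩ := chkD4 r_A2b (by norm_num) (x := x) (y := T) (z := y) (w := p2 T S)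
    (by push_cast; linarith only [x0]) (by push_cast; linarith only [x1]) (by push_cast; linarith only [T0])
    (by push_cast; linarith only [T1]) (by push_cast; linarith only [y0]) (by push_cast; linarith only [y1])
    (by push_cast; linarith only [q0]) (by push_cast; linarith only [q1])
  rw [List.mem_singleton] at he
  subst he
  exact fin2 (by rw [qvA]; norm_num) (by rw [qvA]; norm_num) dl_val h

theorem a_A2c (x0 : 850 / 10000 ≤ x) (x1 : x ≤ 1300 / 10000) (T0 : 460 / 10000 ≤ T)
    (T1 : T ≤ 894 / 10000) (y0 : 0 ≤ y) (y1 : y ≤ 8000 / 10000)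
    (S1 : S ≤ 77 / 1000) (S2 : T + S ≤ 148 / 1000) (S0 : 10 / 1000 ≤ S) :
    GA x T (10 / 100) (2 / 3) (pL x T) ⟨y, S * τ2 y⟩ := by
  have q0 := p2_nn S1 S2
  have q1 := p2_le (T := T) S0
  obtain ⟨e, he, h⟩ := chkD4 r_A2c (by norm_num) (x := x) (y := T) (z := y) (w := p2 T S)
    (by push_cast; linarith only [x0]) (by push_cast; linarith only [x1]) (by push_cast; linarith only [T0])
    (by push_cast; linarith only [T1]) (by push_cast; linarith only [y0]) (by push_cast; linarith only [y1])
    (by push_cast; linarith only [q0]) (by push_cast; linarith only [q1])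
  rw [List.mem_singleton] at he
  subst he
  exact fin2 (by rw [qvA]; norm_num) (by rw [qvA]; norm_num) dl_val h

theorem a_A2d (x0 : 1300 / 10000 ≤ x) (x1 : x ≤ 1500 / 10000) (T0 : 460 / 10000 ≤ T)
    (T1 : T ≤ 894 / 10000) (y0 : 0 ≤ y) (y1 : y ≤ 8000 / 10000)
    (S1 : S ≤ 77 / 1000) (S2 : T + S ≤ 148 / 1000) (S0 : 10 / 1000 ≤ S) :
    GA x T (125 / 1000) (5 / 6) (pL x T) ⟨y, S * τ2 y⟩ := by
  have q0 := p2_nn S1 S2
  have q1 := p2_le (T := T) S0
  obtain ⟨e, he, h⟩ := chkD4 r_A2d (by norm_num) (x := x) (y := T) (z := y) (w := p2 T S)
    (by push_cast; linarith only [x0]) (by push_cast; linarith only [x1]) (by push_cast; linarith only [T0])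
    (by push_cast; linarith only [T1]) (by push_cast; linarith only [y0]) (by push_cast; linarith only [y1])
    (by push_cast; linarith only [q0]) (by push_cast; linarith only [q1])
  rw [List.mem_singleton] at he
  subst he
  exact fin2 (by rw [qvA]; norm_num) (by rw [qvA]; norm_num) dl_val h

theorem a_A2e (x0 : 1500 / 10000 ≤ x) (x1 : x ≤ 2000 / 10000) (T0 : 460 / 10000 ≤ T)
    (T1 : T ≤ 894 / 10000) (y0 : 0 ≤ y) (y1 : y ≤ 8000 / 10000)
    (S1 : S ≤ 77 / 1000) (S2 : T + S ≤ 148 / 1000) (S0 : 10 / 1000 ≤ S) :
    GA x T (15 / 100) (1) (pL x T) ⟨y, S * τ2 y⟩ := by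
  have q0 := p2_nn S1 S2
  have q1 := p2_le (T := T) S0
  obtain ⟨e, he, h⟩ := chkD4 r_A2e (by norm_num) (x := x) (y := T) (z := y) (w := p2 T S)
    (by push_cast; linarith only [x0]) (by push_cast; linarith only [x1]) (by push_cast; linarith only [T0])
    (by push_cast; linarith only [T1]) (by push_cast; linarith only [y0]) (by push_cast; linarith only [y1])
    (by push_cast; linarith only [q0]) (by push_cast; linarith only [q1])
  rw [List.mem_singleton] at he
  subst he
  exact fin2 (by rw [qvA]; norm_num) (by rw [qvA]; norm_num) dl_val h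

theorem a_A2f (x0 : 2000 / 10000 ≤ x) (x1 : x ≤ 5000 / 10000) (T0 : 460 / 10000 ≤ T)
    (T1 : T ≤ 894 / 10000) (y0 : 0 ≤ y) (y1 : y ≤ 8000 / 10000)
    (S1 : S ≤ 77 / 1000) (S2 : T + S ≤ 148 / 1000) (S0 : 10 / 1000 ≤ S) :
    GA x T (20 / 100) (1) (pL x T) ⟨y, S * τ2 y⟩ := by
  have q0 := p2_nn S1 S2
  have q1 := p2_le (T := T) S0
  obtain ⟨e, he, h⟩ := chkD4 r_A2f (by norm_num) (x := x) (y := T) (z := y) (w := p2 T S)
    (by push_cast; linarith only [x0]) (by push_cast; linarith only [x1]) (by push_cast; linarith only [T0])
    (by push_cast; linarith only [T1]) (by push_cast; linarith only [y0]) (by push_cast; linarith only [y1])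
    (by push_cast; linarith only [q0]) (by push_cast; linarith only [q1])
  rw [List.mem_singleton] at he
  subst he
  exact fin2 (by rw [qvA]; norm_num) (by rw [qvA]; norm_num) dl_val h

theorem a_A2g (x0 : 5000 / 10000 ≤ x) (x1 : x ≤ 5800 / 10000) (T0 : 460 / 10000 ≤ T)
    (T1 : T ≤ 894 / 10000) (y0 : 0 ≤ y) (y1 : y ≤ 8000 / 10000)
    (S1 : S ≤ 77 / 1000) (S2 : T + S ≤ 148 / 1000) (S0 : 10 / 1000 ≤ S) :
    GA x T (25 / 100) (1) (pL x T) ⟨y, S * τ2 y⟩ := by
  have q0 := p2_nn S1 S2
  have q1 := p2_le (T := T) S0
  obtain ⟨e, he, h⟩ := chkD4 r_A2g (by norm_num) (x := x) (y := T) (z := y) (w := p2 T S)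
    (by push_cast; linarith only [x0]) (by push_cast; linarith only [x1]) (by push_cast; linarith only [T0])
    (by push_cast; linarith only [T1]) (by push_cast; linarith only [y0]) (by push_cast; linarith only [y1])
    (by push_cast; linarith only [q0]) (by push_cast; linarith only [q1])
  rw [List.mem_singleton] at he
  subst he
  exact fin2 (by rw [qvA]; norm_num) (by rw [qvA]; norm_num) dl_val h

theorem a_A2h (x0 : 5800 / 10000 ≤ x) (x1 : x ≤ 6500 / 10000) (T0 : 460 / 10000 ≤ T)
    (T1 : T ≤ 894 / 10000) (y0 : 0 ≤ y) (y1 : y ≤ 8000 / 10000)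
    (S1 : S ≤ 77 / 1000) (S2 : T + S ≤ 148 / 1000) (S0 : 10 / 1000 ≤ S) :
    GA x T (32 / 100) (1) (pH x T) ⟨y, S * τ2 y⟩ := by
  have q0 := p2_nn S1 S2
  have q1 := p2_le (T := T) S0
  obtain ⟨e, he, h⟩ := chkD4 r_A2h (by norm_num) (x := x) (y := T) (z := y) (w := p2 T S)
    (by push_cast; linarith only [x0]) (by push_cast; linarith only [x1]) (by push_cast; linarith only [T0])
    (by push_cast; linarith only [T1]) (by push_cast; linarith only [y0]) (by push_cast; linarith only [y1])
    (by push_cast; linarith only [q0]) (by push_cast; linarith only [q1])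
  rw [List.mem_singleton] at he
  subst he
  exact fin2 (by rw [qvA]; norm_num) (by rw [qvA]; norm_num) dh_val h

theorem a_AEa (x0 : 0 / 10000 ≤ x) (x1 : x ≤ 700 / 10000) (T0 : 870 / 10000 ≤ T)
    (T1 : T ≤ 1145 / 10000) (y0 : 0 ≤ y) (y1 : y ≤ 7000 / 10000)
    (S1 : S ≤ -(25 / 1000)) (S2 : T + S ≤ 77 / 1000) (S0 : -(45 / 1000) ≤ S) :
    GA x T (8 / 100) (8 / 15) (-(70 / 1000)) ⟨y, S * τe y⟩ ∨ GE x T (8 / 100) (8 / 15) y S := by
  have q0 := pe_nn S1 S2
  have q1 := pe_le (T := T) S0
  obtain ⟨e, he, h⟩ := chkD4 r_AEa (by norm_num) (x := x) (y := T) (z := y) (w := pe T S)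
    (by push_cast; linarith only [x0]) (by push_cast; linarith only [x1]) (by push_cast; linarith only [T0])
    (by push_cast; linarith only [T1]) (by push_cast; linarith only [y0]) (by push_cast; linarith only [y1])
    (by push_cast; linarith only [q0]) (by push_cast; linarith only [q1])
  simp only [List.mem_cons, List.not_mem_nil, or_false] at he
  rcases he with rfl | rfl
  · exact finE (by rw [qvA]; norm_num) (by rw [qvA]; norm_num) (Or.inl h)
  · exact finE (by rw [qvA]; norm_num) (by rw [qvA]; norm_num) (Or.inr h)

theorem a_AEb (x0 : 700 / 10000 ≤ x) (x1 : x ≤ 850 / 10000) (T0 : 870 / 10000 ≤ T)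
    (T1 : T ≤ 1145 / 10000) (y0 : 0 ≤ y) (y1 : y ≤ 7000 / 10000)
    (S1 : S ≤ -(25 / 1000)) (S2 : T + S ≤ 77 / 1000) (S0 : -(45 / 1000) ≤ S) :
    GA x T (9 / 100) (3 / 5) (-(70 / 1000)) ⟨y, S * τe y⟩ ∨ GE x T (9 / 100) (3 / 5) y S := by
  have q0 := pe_nn S1 S2
  have q1 := pe_le (T := T) S0
  obtain ⟨e, he, h⟩ := chkD4 r_AEb (by norm_num) (x := x) (y := T) (z := y) (w := pe T S)
    (by push_cast; linarith only [x0]) (by push_cast; linarith only [x1]) (by push_cast; linarith only [T0])
    (by push_cast; linarith only [T1]) (by push_cast; linarith only [y0]) (by push_cast; linarith only [y1])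
    (by push_cast; linarith only [q0]) (by push_cast; linarith only [q1])
  simp only [List.mem_cons, List.not_mem_nil, or_false] at he
  rcases he with rfl | rfl
  · exact finE (by rw [qvA]; norm_num) (by rw [qvA]; norm_num) (Or.inl h)
  · exact finE (by rw [qvA]; norm_num) (by rw [qvA]; norm_num) (Or.inr h)

theorem a_AEc (x0 : 850 / 10000 ≤ x) (x1 : x ≤ 1300 / 10000) (T0 : 870 / 10000 ≤ T)
    (T1 : T ≤ 1145 / 10000) (y0 : 0 ≤ y) (y1 : y ≤ 7000 / 10000)
    (S1 : S ≤ -(25 / 1000)) (S2 : T + S ≤ 77 / 1000) (S0 : -(45 / 1000) ≤ S) :
    GA x T (10 / 100) (2 / 3) (-(70 / 1000)) ⟨y, S * τe y⟩ ∨ GE x T (10 / 100) (2 / 3) y S := by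
  have q0 := pe_nn S1 S2
  have q1 := pe_le (T := T) S0
  obtain ⟨e, he, h⟩ := chkD4 r_AEc (by norm_num) (x := x) (y := T) (z := y) (w := pe T S)
    (by push_cast; linarith only [x0]) (by push_cast; linarith only [x1]) (by push_cast; linarith only [T0])
    (by push_cast; linarith only [T1]) (by push_cast; linarith only [y0]) (by push_cast; linarith only [y1])
    (by push_cast; linarith only [q0]) (by push_cast; linarith only [q1])
  simp only [List.mem_cons, List.not_mem_nil, or_false] at he
  rcases he with rfl | rfl
  · exact finE (by rw [qvA]; norm_num) (by rw [qvA]; norm_num) (Or.inl h)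
  · exact finE (by rw [qvA]; norm_num) (by rw [qvA]; norm_num) (Or.inr h)

theorem a_AEd (x0 : 1300 / 10000 ≤ x) (x1 : x ≤ 1500 / 10000) (T0 : 870 / 10000 ≤ T)
    (T1 : T ≤ 1145 / 10000) (y0 : 0 ≤ y) (y1 : y ≤ 7000 / 10000)
    (S1 : S ≤ -(25 / 1000)) (S2 : T + S ≤ 77 / 1000) (S0 : -(45 / 1000) ≤ S) :
    GA x T (125 / 1000) (5 / 6) (-(70 / 1000)) ⟨y, S * τe y⟩ ∨ GE x T (125 / 1000) (5 / 6) y S := by
  have q0 := pe_nn S1 S2
  have q1 := pe_le (T := T) S0
  obtain ⟨e, he, h⟩ := chkD4 r_AEd (by norm_num) (x := x) (y := T) (z := y) (w := pe T S)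
    (by push_cast; linarith only [x0]) (by push_cast; linarith only [x1]) (by push_cast; linarith only [T0])
    (by push_cast; linarith only [T1]) (by push_cast; linarith only [y0]) (by push_cast; linarith only [y1])
    (by push_cast; linarith only [q0]) (by push_cast; linarith only [q1])
  simp only [List.mem_cons, List.not_mem_nil, or_false] at he
  rcases he with rfl | rfl
  · exact finE (by rw [qvA]; norm_num) (by rw [qvA]; norm_num) (Or.inl h)
  · exact finE (by rw [qvA]; norm_num) (by rw [qvA]; norm_num) (Or.inr h)

theorem a_AEe (x0 : 1500 / 10000 ≤ x) (x1 : x ≤ 2000 / 10000) (T0 : 870 / 10000 ≤ T)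
    (T1 : T ≤ 1145 / 10000) (y0 : 0 ≤ y) (y1 : y ≤ 7000 / 10000)
    (S1 : S ≤ -(25 / 1000)) (S2 : T + S ≤ 77 / 1000) (S0 : -(45 / 1000) ≤ S) :
    GA x T (15 / 100) (1) (-(70 / 1000)) ⟨y, S * τe y⟩ ∨ GE x T (15 / 100) (1) y S := by
  have q0 := pe_nn S1 S2
  have q1 := pe_le (T := T) S0
  obtain ⟨e, he, h⟩ := chkD4 r_AEe (by norm_num) (x := x) (y := T) (z := y) (w := pe T S)
    (by push_cast; linarith only [x0]) (by push_cast; linarith only [x1]) (by push_cast; linarith only [T0])
    (by push_cast; linarith only [T1]) (by push_cast; linarith only [y0]) (by push_cast; linarith only [y1])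
    (by push_cast; linarith only [q0]) (by push_cast; linarith only [q1])
  simp only [List.mem_cons, List.not_mem_nil, or_false] at he
  rcases he with rfl | rfl
  · exact finE (by rw [qvA]; norm_num) (by rw [qvA]; norm_num) (Or.inl h)
  · exact finE (by rw [qvA]; norm_num) (by rw [qvA]; norm_num) (Or.inr h)

theorem a_AEf (x0 : 2000 / 10000 ≤ x) (x1 : x ≤ 5000 / 10000) (T0 : 870 / 10000 ≤ T)
    (T1 : T ≤ 1145 / 10000) (y0 : 0 ≤ y) (y1 : y ≤ 7000 / 10000)
    (S1 : S ≤ -(25 / 1000)) (S2 : T + S ≤ 77 / 1000) (S0 : -(45 / 1000) ≤ S) :
    GA x T (20 / 100) (1) (-(70 / 1000)) ⟨y, S * τe y⟩ ∨ GE x T (20 / 100) (1) y S := by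
  have q0 := pe_nn S1 S2
  have q1 := pe_le (T := T) S0
  obtain ⟨e, he, h⟩ := chkD4 r_AEf (by norm_num) (x := x) (y := T) (z := y) (w := pe T S)
    (by push_cast; linarith only [x0]) (by push_cast; linarith only [x1]) (by push_cast; linarith only [T0])
    (by push_cast; linarith only [T1]) (by push_cast; linarith only [y0]) (by push_cast; linarith only [y1])
    (by push_cast; linarith only [q0]) (by push_cast; linarith only [q1])
  simp only [List.mem_cons, List.not_mem_nil, or_false] at he
  rcases he with rfl | rfl
  · exact finE (by rw [qvA]; norm_num) (by rw [qvA]; norm_num) (Or.inl h)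
  · exact finE (by rw [qvA]; norm_num) (by rw [qvA]; norm_num) (Or.inr h)

theorem a_AEg (x0 : 5000 / 10000 ≤ x) (x1 : x ≤ 5800 / 10000) (T0 : 870 / 10000 ≤ T)
    (T1 : T ≤ 1145 / 10000) (y0 : 0 ≤ y) (y1 : y ≤ 7000 / 10000)
    (S1 : S ≤ -(25 / 1000)) (S2 : T + S ≤ 77 / 1000) (S0 : -(45 / 1000) ≤ S) :
    GA x T (25 / 100) (1) (-(70 / 1000)) ⟨y, S * τe y⟩ ∨ GE x T (25 / 100) (1) y S := by
  have q0 := pe_nn S1 S2
  have q1 := pe_le (T := T) S0
  obtain ⟨e, he, h⟩ := chkD4 r_AEg (by norm_num) (x := x) (y := T) (z := y) (w := pe T S)
    (by push_cast; linarith only [x0]) (by push_cast; linarith only [x1]) (by push_cast; linarith only [T0])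
    (by push_cast; linarith only [T1]) (by push_cast; linarith only [y0]) (by push_cast; linarith only [y1])
    (by push_cast; linarith only [q0]) (by push_cast; linarith only [q1])
  simp only [List.mem_cons, List.not_mem_nil, or_false] at he
  rcases he with rfl | rfl
  · exact finE (by rw [qvA]; norm_num) (by rw [qvA]; norm_num) (Or.inl h)
  · exact finE (by rw [qvA]; norm_num) (by rw [qvA]; norm_num) (Or.inr h)

theorem a_AEh (x0 : 5800 / 10000 ≤ x) (x1 : x ≤ 6500 / 10000) (T0 : 870 / 10000 ≤ T)
    (T1 : T ≤ 1145 / 10000) (y0 : 0 ≤ y) (y1 : y ≤ 7000 / 10000)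
    (S1 : S ≤ -(25 / 1000)) (S2 : T + S ≤ 77 / 1000) (S0 : -(45 / 1000) ≤ S) :
    GA x T (32 / 100) (1) (-(70 / 1000)) ⟨y, S * τe y⟩ ∨ GE x T (32 / 100) (1) y S := by
  have q0 := pe_nn S1 S2
  have q1 := pe_le (T := T) S0
  obtain ⟨e, he, h⟩ := chkD4 r_AEh (by norm_num) (x := x) (y := T) (z := y) (w := pe T S)
    (by push_cast; linarith only [x0]) (by push_cast; linarith only [x1]) (by push_cast; linarith only [T0])
    (by push_cast; linarith only [T1]) (by push_cast; linarith only [y0]) (by push_cast; linarith only [y1])
    (by push_cast; linarith only [q0]) (by push_cast; linarith only [q1])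
  simp only [List.mem_cons, List.not_mem_nil, or_false] at he
  rcases he with rfl | rfl
  · exact finE (by rw [qvA]; norm_num) (by rw [qvA]; norm_num) (Or.inl h)
  · exact finE (by rw [qvA]; norm_num) (by rw [qvA]; norm_num) (Or.inr h)

variable {c r δ : ℝ}

/-- the region behind the `1` is a `1` -/
theorem sideA1 (h : C1 x T c r δ) (T0 : 21 / 1000 ≤ T) (T1 : T ≤ 801 / 10000) (y0 : 0 ≤ y)
    (y1 : y ≤ 86 / 100) (S0 : -(160 / 1000) ≤ S) (S1 : S ≤ 49 / 1000) (S2 : T + S ≤ 111 / 1000) :
    GA x T c r δ ⟨y, S * τ1 y⟩ := by
  rcases h with ⟨h, rfl⟩ | h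
  · rcases h with ⟨x0, x1, rfl, rfl⟩ | ⟨x0, x1, rfl, rfl⟩ | ⟨x0, x1, rfl, rfl⟩ | ⟨x0, x1, rfl, rfl⟩ | ⟨x0, x1, rfl, rfl⟩ | ⟨x0, x1, rfl, rfl⟩
    · exact a_A1a (by linarith only [x0]) (by linarith only [x1]) (by linarith only [T0]) (by linarith only [T1]) y0 (by linarith only [y1]) S1 S2 S0
    · exact a_A1b (by linarith only [x0]) (by linarith only [x1]) (by linarith only [T0]) (by linarith only [T1]) y0 (by linarith only [y1]) S1 S2 S0
    · exact a_A1c (by linarith only [x0]) (by linarith only [x1]) (by linarith only [T0]) (by linarith only [T1]) y0 (by linarith only [y1]) S1 S2 S0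
    · exact a_A1e (by linarith only [x0]) (by linarith only [x1]) (by linarith only [T0]) (by linarith only [T1]) y0 (by linarith only [y1]) S1 S2 S0
    · exact a_A1f (by linarith only [x0]) (by linarith only [x1]) (by linarith only [T0]) (by linarith only [T1]) y0 (by linarith only [y1]) S1 S2 S0
    · exact a_A1g (by linarith only [x0]) (by linarith only [x1]) (by linarith only [T0]) (by linarith only [T1]) y0 (by linarith only [y1]) S1 S2 S0
  · rcases h with ⟨x0, x1, rfl, rfl, rfl⟩ | ⟨x0, x1, rfl, rfl, rfl⟩ | ⟨x0, x1, rfl, rfl, rfl⟩
    · exact a_A1m (by linarith only [x0]) (by linarith only [x1]) (by linarith only [T0]) (by linarith only [T1]) y0 (by linarith only [y1]) S1 S2 S0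
    · exact a_A1k (by linarith only [x0]) (by linarith only [x1]) (by linarith only [T0]) (by linarith only [T1]) y0 (by linarith only [y1]) S1 S2 S0
    · exact a_A1j (by linarith only [x0]) (by linarith only [x1]) (by linarith only [T0]) (by linarith only [T1]) y0 (by linarith only [y1]) S1 S2 S0

/-- the targets of a `2` at the heights of a `1` -/
theorem sideA2r (h : C2 x T c r δ) (T0 : 21 / 1000 ≤ T) (T1 : T ≤ 894 / 10000) (y0 : 0 ≤ y)
    (y1 : y ≤ 86 / 100) (S0 : -(160 / 1000) ≤ S) (S1 : S ≤ 49 / 1000) (S2 : T + S ≤ 111 / 1000) :
    GA x T c r δ ⟨y, S * τ1 y⟩ := by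
  rcases h with ⟨h, rfl⟩ | h
  · rcases h with ⟨x0, x1, rfl, rfl⟩ | ⟨x0, x1, rfl, rfl⟩ | ⟨x0, x1, rfl, rfl⟩ | ⟨x0, x1, rfl, rfl⟩ | ⟨x0, x1, rfl, rfl⟩ | ⟨x0, x1, rfl, rfl⟩
    · exact a_A1a (by linarith only [x0]) (by linarith only [x1]) (by linarith only [T0]) (by linarith only [T1]) y0 (by linarith only [y1]) S1 S2 S0
    · exact a_A1b (by linarith only [x0]) (by linarith only [x1]) (by linarith only [T0]) (by linarith only [T1]) y0 (by linarith only [y1]) S1 S2 S0
    · exact a_A1c (by linarith only [x0]) (by linarith only [x1]) (by linarith only [T0]) (by linarith only [T1]) y0 (by linarith only [y1]) S1 S2 S0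
    · exact a_A1e (by linarith only [x0]) (by linarith only [x1]) (by linarith only [T0]) (by linarith only [T1]) y0 (by linarith only [y1]) S1 S2 S0
    · exact a_A1f (by linarith only [x0]) (by linarith only [x1]) (by linarith only [T0]) (by linarith only [T1]) y0 (by linarith only [y1]) S1 S2 S0
    · exact a_A1g (by linarith only [x0]) (by linarith only [x1]) (by linarith only [T0]) (by linarith only [T1]) y0 (by linarith only [y1]) S1 S2 S0
  · rcases h with ⟨x0, x1, rfl, rfl, rfl⟩ | ⟨x0, x1, rfl, rfl, rfl⟩
    · exact a_A1d (by linarith only [x0]) (by linarith only [x1]) (by linarith only [T0]) (by linarith only [T1]) y0 (by linarith only [y1]) S1 S2 S0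
    · exact a_A1h (by linarith only [x0]) (by linarith only [x1]) (by linarith only [T0]) (by linarith only [T1]) y0 (by linarith only [y1]) S1 S2 S0

/-- the region behind the `1` is a `2` -/
theorem sideA2 (h : C2 x T c r δ) (T0 : 46 / 1000 ≤ T) (T1 : T ≤ 894 / 10000) (y0 : 0 ≤ y)
    (y1 : y ≤ 80 / 100) (S0 : 10 / 1000 ≤ S) (S1 : S ≤ 77 / 1000) (S2 : T + S ≤ 148 / 1000) :
    GA x T c r δ ⟨y, S * τ2 y⟩ := by
  rcases h with ⟨h, rfl⟩ | h
  · rcases h with ⟨x0, x1, rfl, rfl⟩ | ⟨x0, x1, rfl, rfl⟩ | ⟨x0, x1, rfl, rfl⟩ | ⟨x0, x1, rfl, rfl⟩ | ⟨x0, x1, rfl, rfl⟩ | ⟨x0, x1, rfl, rfl⟩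
    · exact a_A2a (by linarith only [x0]) (by linarith only [x1]) (by linarith only [T0]) (by linarith only [T1]) y0 (by linarith only [y1]) S1 S2 S0
    · exact a_A2b (by linarith only [x0]) (by linarith only [x1]) (by linarith only [T0]) (by linarith only [T1]) y0 (by linarith only [y1]) S1 S2 S0
    · exact a_A2c (by linarith only [x0]) (by linarith only [x1]) (by linarith only [T0]) (by linarith only [T1]) y0 (by linarith only [y1]) S1 S2 S0
    · exact a_A2e (by linarith only [x0]) (by linarith only [x1]) (by linarith only [T0]) (by linarith only [T1]) y0 (by linarith only [y1]) S1 S2 S0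
    · exact a_A2f (by linarith only [x0]) (by linarith only [x1]) (by linarith only [T0]) (by linarith only [T1]) y0 (by linarith only [y1]) S1 S2 S0
    · exact a_A2g (by linarith only [x0]) (by linarith only [x1]) (by linarith only [T0]) (by linarith only [T1]) y0 (by linarith only [y1]) S1 S2 S0
  · rcases h with ⟨x0, x1, rfl, rfl, rfl⟩ | ⟨x0, x1, rfl, rfl, rfl⟩
    · exact a_A2d (by linarith only [x0]) (by linarith only [x1]) (by linarith only [T0]) (by linarith only [T1]) y0 (by linarith only [y1]) S1 S2 S0
    · exact a_A2h (by linarith only [x0]) (by linarith only [x1]) (by linarith only [T0]) (by linarith only [T1]) y0 (by linarith only [y1]) S1 S2 S0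

/-- the region behind the `1` is a `2` at an end -/
theorem sideAE' (h : CE x c r) (T0 : 87 / 1000 ≤ T) (T1 : T ≤ 1145 / 10000) (y0 : 0 ≤ y)
    (y1 : y ≤ 70 / 100) (S0 : -(45 / 1000) ≤ S) (S1 : S ≤ -(25 / 1000)) (S2 : T + S ≤ 77 / 1000) :
    GA x T c r (-(70 / 1000)) ⟨y, S * τe y⟩ ∨ GE x T c r y S := by
  rcases h with h | h
  · rcases h with ⟨x0, x1, rfl, rfl⟩ | ⟨x0, x1, rfl, rfl⟩ | ⟨x0, x1, rfl, rfl⟩ | ⟨x0, x1, rfl, rfl⟩ | ⟨x0, x1, rfl, rfl⟩ | ⟨x0, x1, rfl, rfl⟩
    · exact a_AEa (by linarith only [x0]) (by linarith only [x1]) (by linarith only [T0]) (by linarith only [T1]) y0 (by linarith only [y1]) S1 S2 S0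
    · exact a_AEb (by linarith only [x0]) (by linarith only [x1]) (by linarith only [T0]) (by linarith only [T1]) y0 (by linarith only [y1]) S1 S2 S0
    · exact a_AEc (by linarith only [x0]) (by linarith only [x1]) (by linarith only [T0]) (by linarith only [T1]) y0 (by linarith only [y1]) S1 S2 S0
    · exact a_AEe (by linarith only [x0]) (by linarith only [x1]) (by linarith only [T0]) (by linarith only [T1]) y0 (by linarith only [y1]) S1 S2 S0
    · exact a_AEf (by linarith only [x0]) (by linarith only [x1]) (by linarith only [T0]) (by linarith only [T1]) y0 (by linarith only [y1]) S1 S2 S0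
    · exact a_AEg (by linarith only [x0]) (by linarith only [x1]) (by linarith only [T0]) (by linarith only [T1]) y0 (by linarith only [y1]) S1 S2 S0
  · rcases h with ⟨x0, x1, rfl, rfl⟩ | ⟨x0, x1, rfl, rfl⟩
    · exact a_AEd (by linarith only [x0]) (by linarith only [x1]) (by linarith only [T0]) (by linarith only [T1]) y0 (by linarith only [y1]) S1 S2 S0
    · exact a_AEh (by linarith only [x0]) (by linarith only [x1]) (by linarith only [T0]) (by linarith only [T1]) y0 (by linarith only [y1]) S1 S2 S0

/-- the same, the value written out -/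
theorem sideAE (h : CE x c r) (T0 : 87 / 1000 ≤ T) (T1 : T ≤ 1145 / 10000) (y0 : 0 ≤ y)
    (y1 : y ≤ 70 / 100) (S0 : -(45 / 1000) ≤ S) (S1 : S ≤ -(25 / 1000)) (S2 : T + S ≤ 77 / 1000) :
    GA x T c r (-(70 / 1000)) ⟨y, S * τe y⟩ ∨
      -(Real.pi * (r * T + hx x) - 70 / 1000) < V1 ⟨c, r * T⟩ ⟨1 / 4, S⟩ -
        V1 ⟨x, -hx x⟩ ⟨y, S * τe y⟩ + (V2 ⟨1 / 4, -S⟩ 0 - V2 ⟨y, -(S * τe y)⟩ 0) :=
  sideAE' h T0 T1 y0 y1 S0 S1 S2

end Pool.Agent.Work.MP_b30479_gtS.G2.K3b

end
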