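import Pool.Agent.Work.MP_b30479_gt.TBS.G2.WM_1_3bE
import Pool.Agent.Work.MP_b30479_gt.TBS.G2.H13A
import Pool.Agent.Work.MP_b30479_gt.TBS.G2.WMR3
import Pool.Agent.Work.MP_b30479_gt.TBS.G2.WM_2_3aE
import Pool.Agent.Work.MP_b30479_gt.TBS.G2.WM_1_3bF19
import Pool.Agent.Work.MP_b30479_gt.TBS.G2.WM_1_3bF9
import Pool.Agent.Work.MP_b30479_gt.TBS.G2.WM_1_3bF11
import Pool.Agent.Work.MP_b30479_gt.TBS.G2.WM_1_3bA1
import Pool.Agent.Work.MP_b30479_gt.TBS.G2.WM_1_3bG1
import Pool.Agent.Work.MP_b30479_gt.TBS.G2.MKP_1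
import Pool.Agent.Work.MP_b30479_gt.TBS.G2.WLocF
import Pool.Agent.Work.MP_b30479_gt.TBS.G2.MJI
import Pool.Agent.Work.MP_b30479_gt.TBS.G2.V33D
import Pool.Agent.Work.MP_b30479_gt.TBS.G2.TL3B
import Pool.Agent.Work.MP_b30479_gt.TBS.G2.WMSr1s4
import Pool.Agent.Work.MP_b30479_gt.TBS.G2.WLocX
import Pool.Agent.Work.MP_b30479_gt.TBS.G2.RngKd

section

/-!
# Mirrored paths, kind `1 | 3`, the `3` at its slot `2`: rows
-/

set_option deprecated.oldSectionVars true

namespace Pool.Agent.Work.MP_b30479_gtS.G2.K3b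

open NumGs

theorem r_GU_q1 : Pool.Agent.Work.NumIs.runE (Pool.Agent.Work.NumGs.tstD [dG (gU hi1)])
    0 8452495639 0 0 55 51539607552 54975581390 0 3710851744 0 2791728742 0 68719476738
    0x81020308101820804004080c204080c183041020202102040608084080c2020810203061008308101810410204060820406102030400084080c20208101810810104080c2010610203020c204080c004081018006041040810183081018108101840208204061020302102030810183081018106102020810003020c1040804204041020308041840804204060808304102040204204061020106102030810184080c002020c204080c08408101830810004080c20406001810410204080c00208101840810181040c2040610203001020308101830810184080c1800404184080c2040610203000820406102030610202081018308101800410203081008408041820004204061020100102030810001061020308101830810184080c002081018408041040810181060008308101840804104081018100102030810184080c00106102040004204080008208101840410203081008202001040810184060420406102020800204060c082081018408101810400204041020306102040604003081020304102030810002021020308101840004180081018408082040600204020c0840800184081010108100830010203081018400101810810184080c20202001040804204060c204061020300082040610184080c004080c20208101000404002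
    0x10204061020304100800810184081018306082040404204080c10108101840410204060c20106102030208204080c104080c20406080010810184041020302102020810184020c204060418408101800810203000c0820810203061020302102030804104080c204060420406102030610203020c204041020006041820810084080820406100830810084080c10106082040804084080c204020c2040610203081018004041840810181081020306102000810184080c00302082040810180041020308102030208184080c204060020406102030610203081018300080830810184080c2040600104080c204060c204041020306102030008204061020108100830400084080c20402002040610200020c204061020306102030810180041020308100820810203020c001061020308100820810203020020406102030810180020c204080008408100010410203080820406102010404002 = true := by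
  decide +kernel

theorem r_GU_q2 : Pool.Agent.Work.NumIs.runE (Pool.Agent.Work.NumGs.tstD [dG (gU hi1)])
    0 8452495639 0 0 55 51539607552 54975581390 3710851744 7421703489 0 2791728742 0 68719476738
    0x10204061020304100800810184081018306082040404204080c10108101840410204060c20106102030208204080c104080c20406080010810184041020302102020810184020c204060418408101800810203000c0820810203061020302102030804104080c204060420406102030610203020c204041020006041820810084080820406100830810084080c10106082040804084080c204020c2040610203081018004041840810181081020306102000810184080c00302082040810180041020308102030208184080c204060020406102030610203081018300080830810184080c2040600104080c204060c204041020306102030008204061020108100830400084080c20402002040610200020c204061020306102030810180041020308100820810203020c001061020308100820810203020020406102030810180020c204080008408100010410203080820406102010404002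
    0x81020308101820804004080c204080c183041020202102040608084080c2020810203061008308101810410204060820406102030400084080c20208101810810104080c2010610203020c204080c004081018006041040810183081018108101840208204061020302102030810183081018106102020810003020c1040804204041020308041840804204060808304102040204204061020106102030810184080c002020c204080c08408101830810004080c20406001810410204080c00208101840810181040c2040610203001020308101830810184080c1800404184080c2040610203000820406102030610202081018308101800410203081008408041820004204061020100102030810001061020308101830810184080c0020810184080410408101810600083 = true := by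
  decide +kernel

theorem r_GU_q3 : Pool.Agent.Work.NumIs.runE (Pool.Agent.Work.NumGs.tstD [dG (gU hi1)])
    0 8452495639 0 0 56 51539607552 54975581390 0 7421703489 2791728742 5583457485 0 68719476738
    0x81020308101820804004080c204080c183041020202102040608084080c2020810203061008308101810410204060820406102030400084080c20208101810810104080c2010610203020c204080c004081018006041040810183081018108101840208204061020302102030810183081018106102020810003020c1040804204041020308041840804204060808304102040204204061020106102030810184080c002020c204080c08408101830810004080c20406001810410204080c00208101840810181040c2040610203001020308101830810184080c1800404184080c2040610203000820406102030610202081018308101800410203081008408041820004204061020100102030810001061020308101830810184080c0020810184080410408101810600083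
    0x10204061020304100800810184081018306082040404204080c10108101840410204060c20106102030208204080c104080c20406080010810184041020302102020810184020c204060418408101800810203000c0820810203061020302102030804104080c204060420406102030610203020c204041020006041820810084080820406100830810084080c10106082040804084080c204020c2040610203081018004041840810181081020306102000810184080c00302082040810180041020308102030208184080c20406002040610203061020308101830008083 = true := by
  decide +kernel

theorem r_GU_q4 : Pool.Agent.Work.NumIs.runE (Pool.Agent.Work.NumGs.tstD [dG (gU hi1)])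
    0 8452495639 0 0 57 51539607552 54975581390 0 7421703489 5583457485 11166914970 0 68719476738
    0x10204061020304100800810184081018306082040404204080c10108101840410204060c20106102030208204080c104080c20406080010810184041020302102020810184020c204060418408101800810203000c0820810203061020302102030804104080c204060420406102030610203020c204041020006041820810084080820406100830810084080c10106082040804084080c204020c2040610203081018004041840810181081020306102000810184080c00302082040810180041020308102030208184080c20406002040610203061020308101830008083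
    0x204080c204060820100102030810203060c1040808084081018202102030808204080c184020c204060410408101820810184080c10002102030808204060420404102030804184080c0830810203001020406001810410204060c204060420406100820810184080c084080c204060c20406041840808204000c08304102010810104080c20106102010810182020c104081008108101840804184080c20406102030008083 = true := by
  decide +kernel

theorem r_GU_q5 : Pool.Agent.Work.NumIs.runE (Pool.Agent.Work.NumGs.tstD [dG (gU hi1)])
    0 8452495639 0 0 58 51539607552 54975581390 0 7421703489 11166914970 22333829940 0 68719476738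
    0x204080c204060820100102030810203060c1040808084081018202102030808204080c184020c204060410408101820810184080c10002102030808204060420404102030804184080c0830810203001020406001810410204060c204060420406100820810184080c084080c204060c20406041840808204000c08304102010810104080c20106102010810182020c104081008108101840804184080c20406102030008083
    0x40810184080c10402002040610204060c182081010108102030404204061010408101830804184080c08208102030410203081018200042040610104080c08408082040610083081018106102040600204080c0030208204080c184080c084080c201041020308101810810184080c184080c08308101040800181060820402102020810184020c20402102030404182 = true := by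
  decide +kernel

theorem r_GU_q6 : Pool.Agent.Work.NumIs.runE (Pool.Agent.Work.NumGs.tstD [dG (gU hi1)])
    0 8452495639 0 0 59 51539607552 54975581390 0 7421703489 22333829940 44667659880 0 68719476738
    0x40810184080c10402002040610204060c182081010108102030404204061010408101830804184080c08208102030410203081018200042040610104080c08408082040610083081018106102040600204080c0030208204080c184080c084080c201041020308101810810184080c184080c08308101040800181060820402102020810184020c20402102030404182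
    0x0 = true := by
  decide +kernel

theorem r_GU : chkD [dG (gU hi1)]
    10000 0 1230 0 0 60 7500 8000 0 1080 0 6500 0 10000
    0x40810184080c10402002040610204060c182081010108102030404204061010408101830804184080c08208102030410203081018200042040610104080c08408082040610083081018106102040600204080c0030208204080c184080c084080c201041020308101810810184080c184080c08308101040800181060820402102020810184020c204021020304041820810201021020308100830810184080c204060010106102040604204080c18408002040610203000c08208102040600104080c204080c082061020308101800810184080c184080c204060c002020c20406102030810180041020308101830810104080c184080c00208101840804204020c10002102030810080081018408000830810184080c184080c2040600104080c2040208204080c0830004184080c2040208204080c0800810184080c2040600083081020002102040004104080c202081018408041010008204080c2030210203081010400102030604104080c204080c08200102020810183081020302001840810182081018408001010810184080c200020c004080c204041020300102010604204000c204080808408041800810184080c200080c084080c204061010100082040210203061020308101800410203080c20406002040610104080800202001010408102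 = true :=
  Pool.Agent.Work.NumIs.okB_of rfl rfl rfl rfl rfl rfl rfl rfl rfl rfl rfl rfl
    (Pool.Agent.Work.NumIs.runE_split2 rfl rfl rfl
      (Pool.Agent.Work.NumIs.runE_split2 rfl rfl rfl
        (Pool.Agent.Work.NumIs.runE_split2 rfl rfl rfl
          (Pool.Agent.Work.NumIs.runE_split2 rfl rfl rfl
            (Pool.Agent.Work.NumIs.runE_split1 rfl rfl rfl
              r_GU_q1
              r_GU_q2)
            r_GU_q3)
          r_GU_q4)
        r_GU_q5)
      r_GU_q6)

theorem r_GD_q1 : Pool.Agent.Work.NumIs.runE (Pool.Agent.Work.NumGs.tstD [dG (gD lo1)])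
    0 8452495639 0 0 59 51539607552 54975581390 0 7421703489 0 22333829940 0 68719476738
    0x204080c20208101820010084080c0840810184020020104102020810100021020308042040610082081010108102030004104080c203081018208101010810084080c101041020406082040404204061020104042040610200080c10408100020210204020820406102030200084080c2040600204080c001081000408001040810182081020304000820810184080c084080c2040604004081018108102010410204040400208102040600104080c204021020100080800404102
    0x102040610104080c10008042040604204080c2010010082081010408080010810184021020308041040808084081018002082040610184080c104080808408042040608082 = true := by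
  decide +kernel

theorem r_GD_q2 : Pool.Agent.Work.NumIs.runE (Pool.Agent.Work.NumGs.tstD [dG (gD lo1)])
    0 8452495639 0 0 59 51539607552 54975581390 0 7421703489 22333829940 44667659880 0 68719476738
    0x102040610104080c10008042040604204080c2010010082081010408080010810184021020308041040808084081018002082040610184080c104080808408042040608082
    0x0 = true := by
  decide +kernel

theorem r_GD : chkD [dG (gD lo1)]
    10000 0 1230 0 0 60 7500 8000 0 1080 0 6500 0 10000
    0x102040610104080c10008042040604204080c2010010082081010408080010810184021020308041040808084081018002082040610184080c10408080840804204060808208102030410202021020308100820210203081000406082040800101081020104102030810181000420406102030010204060008408002040008204080c10408101820004104080c204060420406102030200204080c084081008208102020200104081020300082040610201081008004040020208102 = true :=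
  Pool.Agent.Work.NumIs.okB_of rfl rfl rfl rfl rfl rfl rfl rfl rfl rfl rfl rfl
    (Pool.Agent.Work.NumIs.runE_split2 rfl rfl rfl
      r_GD_q1
      r_GD_q2)

end Pool.Agent.Work.MP_b30479_gtS.G2.K3b

end

section

/-!
# Mirrored paths, kind `1 | 3`, the `3` at its slot `2`: rows
-/

set_option deprecated.oldSectionVars true

namespace Pool.Agent.Work.MP_b30479_gtS.G2.K3b

open NumGs

theorem r_1Ud_q1 : Pool.Agent.Work.NumIs.runE (Pool.Agent.Work.NumGs.tstD [.of (f1 (PX (.q 3 10) su (gU hi1) (.sub vT (gU hi1)))), .of (f1 (PW (.q 3 10) su (gU hi1) (.sub vT (gU hi1))))])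
    0 6184752907 0 0 58 6871947673 20615843022 0 5153960757 0 22333829940 0 34359738369
    0x102040600204060c20208102030408204080c104080c002081010408002020610202081020304002040410200081000200082040410202041020400082040010200040800308101040800104080820400101020010202080820400102000808100060c1020810184080c18408101830410203081020400081830410204000c2040610204060c10408101830010204060c002041020008100020810004041020400081040810004040800308102020010202080010408002040808002000c2040610104041020408080020010200080820008102040400002060820400101040808184080c004081000208100040400204000c10408082000810200080800208100040810000040c103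
    0x8102030010203061010408101820410204060820406001040808204001010308101040810182001020208100040800100041020208101020810200041020008100020400184080820400082040410200080810008101040410200081000404080030608104080c204060c204080c18208101840810200040c1820810200061020308102030608204080c18008102030600102 = true := by
  decide +kernel

theorem r_1Ud_q2 : Pool.Agent.Work.NumIs.runE (Pool.Agent.Work.NumGs.tstD [.of (f1 (PX (.q 3 10) su (gU hi1) (.sub vT (gU hi1)))), .of (f1 (PW (.q 3 10) su (gU hi1) (.sub vT (gU hi1))))])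
    0 6184752907 0 0 58 6871947673 20615843022 0 5153960757 22333829940 44667659880 0 34359738369
    0x8102030010203061010408101820410204060820406001040808204001010308101040810182001020208100040800100041020208101020810200041020008100020400184080820400082040410200080810008101040410200081000404080030608104080c204060c204080c18208101840810200040c1820810200061020308102030608204080c18008102030600102
    0x102040600204060c20208102030408204080c104080c002081010408002020610202081020304002040410200081000200082040410202041020400082040010200040800308101040800104080820400101020010202080820400102000808100060c102 = true := by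
  decide +kernel

theorem r_1Ud_q3 : Pool.Agent.Work.NumIs.runE (Pool.Agent.Work.NumGs.tstD [.of (f1 (PX (.q 3 10) su (gU hi1) (.sub vT (gU hi1)))), .of (f1 (PW (.q 3 10) su (gU hi1) (.sub vT (gU hi1))))])
    0 6184752907 0 0 59 6871947673 20615843022 0 5153960757 0 44667659880 34359738369 68719476738
    0x102040600204060c20208102030408204080c104080c002081010408002020610202081020304002040410200081000200082040410202041020400082040010200040800308101040800104080820400101020010202080820400102000808100060c102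
    0x0 = true := by
  decide +kernel

theorem r_1Ud : chkD [.of (f1 (PX (.q 3 10) su (gU hi1) (.sub vT (gU hi1)))), .of (f1 (PW (.q 3 10) su (gU hi1) (.sub vT (gU hi1))))]
    10000 0 900 0 0 60 1000 3000 0 750 0 6500 0 10000
    0x4081018008101830808204080c102081020304102030008204041020008081840808204080c10008101040800204000800208101040808104081000208100040800102000c20404102000410202081000404080040808202081000408002020400183040820406102030610204060c104080c2040810002060c1040810003081018408101830410204060c00408101830008104080020400082040010104081000204102040010102000c20408080040808200041020008102020008003081018404101040810202000800408002020800204081010000081820810004041020206102030010204000820400101000810003041020208002040800202000820400102040000103040c103 = true :=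
  Pool.Agent.Work.NumIs.okB_of rfl rfl rfl rfl rfl rfl rfl rfl rfl rfl rfl rfl
    (Pool.Agent.Work.NumIs.runE_split3 rfl rfl rfl
      (Pool.Agent.Work.NumIs.runE_split2 rfl rfl rfl
        r_1Ud_q1
        r_1Ud_q2)
      r_1Ud_q3)

theorem r_1Md_q1 : Pool.Agent.Work.NumIs.runE (Pool.Agent.Work.NumGs.tstD [.of (f1 (PX (.q 3 10) su (.add vT (dM lo1)) (.neg (dM lo1)))), .of (f1 (PW (.q 3 10) su (.add vT (dM lo1)) (.neg (dM lo1))))])
    0 6184752907 0 0 58 6871947673 20615843022 0 5153960757 0 22333829940 0 34359738369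
    0x10204080c1040200204061020202082010810203001020308101010208204080c00402102030808204080c18408081800408204061020300101040800204080c202000810208101840810184041020302082010010204080c18008101840810182080420408101830608001041020408102040804201040c00300080840810184080418008102030210204081010108081830810204080c000081020406080820604004081020306001010410203081018402102030810181081020306041800810184080c104080c2040608204080c184080c100000810408082040400202081018408101800808102
    0x20408101820804004080c20404041040210204060020406102020204104081018008042040610104081018308101030008104080c20406002020810004081018404001020410203081020308082040604104020020408101830010203081020304100840810203060c10002082040810204081008402081800600101081020308100830010204060420408102020210103061020408101800010204080c101040c0800810204060c00202082040610203080420406102030210204060c083001020308101820810184080c104081018308101820000102 = true := by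
  decide +kernel

theorem r_1Md_q2 : Pool.Agent.Work.NumIs.runE (Pool.Agent.Work.NumGs.tstD [.of (f1 (PX (.q 3 10) su (.add vT (dM lo1)) (.neg (dM lo1)))), .of (f1 (PW (.q 3 10) su (.add vT (dM lo1)) (.neg (dM lo1))))])
    0 6184752907 0 0 57 6871947673 20615843022 0 5153960757 22333829940 33500744910 0 34359738369
    0x408102030410080081018408080820804204080c004080c204040408208102030010084080c2020810203061020206001020810184080c004041020008102030808002040820406102040610104080c082080400408102030600204061020406082010810204060c1820004104081020408102010804103000c002021020406102010600204080c08408102040404202060c20408102030000204081018202081810010204080c1800404104080c2040610084080c2040604204080c1810600204061020304102030810182081020306102030400002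
    0x81020406082010010203081010104100840810180081018408080810410204060020108101840410204060c204040c002041020308101800808204001020406101000408104080c204080c202081018104100800810204060c004080c204080c1040210204080c183040008208102040810204021008206001800404204080c204020c004081018108102040808084040c1840810204060000408102030404103020020408101830008082 = true := by
  decide +kernel

theorem r_1Md_q3 : Pool.Agent.Work.NumIs.runE (Pool.Agent.Work.NumGs.tstD [.of (f1 (PX (.q 3 10) su (.add vT (dM lo1)) (.neg (dM lo1)))), .of (f1 (PW (.q 3 10) su (.add vT (dM lo1)) (.neg (dM lo1))))])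
    0 6184752907 0 0 57 6871947673 20615843022 0 5153960757 33500744910 44667659880 0 34359738369
    0x81020406082010010203081010104100840810180081018408080810410204060020108101840410204060c204040c002041020308101800808204001020406101000408104080c204080c202081018104100800810204060c004080c204080c1040210204080c183040008208102040810204021008206001800404204080c204020c004081018108102040808084040c1840810204060000408102030404103020020408101830008082
    0x10204080c1040200204061020202082010810203001020308101010208204080c00402102030808204080c18408081800408204061020300101040800204080c2020008102 = true := by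
  decide +kernel

theorem r_1Md_q4 : Pool.Agent.Work.NumIs.runE (Pool.Agent.Work.NumGs.tstD [.of (f1 (PX (.q 3 10) su (.add vT (dM lo1)) (.neg (dM lo1)))), .of (f1 (PW (.q 3 10) su (.add vT (dM lo1)) (.neg (dM lo1))))])
    0 6184752907 0 0 59 6871947673 20615843022 0 5153960757 0 44667659880 34359738369 68719476738
    0x10204080c1040200204061020202082010810203001020308101010208204080c00402102030808204080c18408081800408204061020300101040800204080c2020008102
    0x0 = true := by
  decide +kernel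

theorem r_1Md : chkD [.of (f1 (PX (.q 3 10) su (.add vT (dM lo1)) (.neg (dM lo1)))), .of (f1 (PW (.q 3 10) su (.add vT (dM lo1)) (.neg (dM lo1))))]
    10000 0 900 0 0 60 1000 3000 0 750 0 6500 0 10000
    0x408102030410080081018408080820804204080c004080c204040408208102030010084080c2020810203061020206001020810184080c004041020008102030808002040820406102040610104080c082080400408102030600204061020406082010810204060c1820004104081020408102010804103000c002021020406102010600204080c08408102040404202060c20408102030000204081018202081810010204080c1800404104080c2040610084080c2040604204080c1810600204061020304102030810182081020306102030400002041020208101000808204061020406002020408103 = true :=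
  Pool.Agent.Work.NumIs.okB_of rfl rfl rfl rfl rfl rfl rfl rfl rfl rfl rfl rfl
    (Pool.Agent.Work.NumIs.runE_split3 rfl rfl rfl
      (Pool.Agent.Work.NumIs.runE_split2 rfl rfl rfl
        r_1Md_q1
        (Pool.Agent.Work.NumIs.runE_split2 rfl rfl rfl
          r_1Md_q2
          r_1Md_q3))
      r_1Md_q4)

end Pool.Agent.Work.MP_b30479_gtS.G2.K3b

end

section

/-!
# Mirrored paths, kind `1 | 3`, the `3` at its slot `2`: losses in the slot `0`

The inner variable of the `3` is moved from `y + i a` to `m + i T`: lower bounds of the difference of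
the values without the hinge in the slot `2`, for every position `q + i γ` of the hinge in the
slot `0`.
-/

namespace Pool.Agent.Work.MP_b30479_gtS.G2.K3b

open VOL NumGs
open NumUs (uu UU_uu)

variable {y T q θ γ : ℝ}

/-! ### values -/

theorem v0_val : vy.val [y, T, q, θ] = y := rfl
theorem v1_val : vT.val [y, T, q, θ] = T := rfl
theorem v2_val : (E.var 2).val [y, T, q, θ] = q := rfl
theorem v3_val : (E.var 3).val [y, T, q, θ] = θ := rfl
theorem lkL2 : NumIs.lkR [y, T, q, θ] 2 = q := rfl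
theorem lkL3 : NumIs.lkR [y, T, q, θ] 3 = θ := rfl

theorem su_val : su.val [y, T, q, θ] = 16 / 100 * K23.τl y := by
  unfold su f8 K23.τl
  rw [E.val, KR.tr_num (a := 8 / 10) (b := 5 / 100) (c := 5 / 100) (by norm_num) (by norm_num)
    (by norm_num) (by norm_num) (by norm_num) (by norm_num), v0_val]
  simp only [E.val]
  push_cast
  norm_num

theorem hi1_val : hi1.val [y, T, q, θ] = 1 / 2 * tr 0 (65 / 100) (13 / 100) (15 / 100) q := by
  unfold hi1
  rw [E.val, KR.tr_num (a := 65 / 100) (b := 13 / 100) (c := 15 / 100) (by norm_num) (by norm_num)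
    (by norm_num) (by norm_num) (by norm_num) (by norm_num), v2_val]
  simp only [E.val]
  push_cast
  norm_num

theorem hi2_val : hi2.val [y, T, q, θ] = 3 / 10 * tr 0 (60 / 100) (12 / 100) (27 / 100) q := by
  unfold hi2
  rw [E.val, KR.tr_num (a := 60 / 100) (b := 12 / 100) (c := 27 / 100) (by norm_num) (by norm_num)
    (by norm_num) (by norm_num) (by norm_num) (by norm_num), v2_val]
  simp only [E.val]
  push_cast
  norm_num

theorem lo2_val : lo2.val [y, T, q, θ] = 4 / 25 * tr 0 (60 / 100) (12 / 100) (27 / 100) q := by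
  unfold lo2
  rw [E.val, KR.tr_num (a := 60 / 100) (b := 12 / 100) (c := 27 / 100) (by norm_num) (by norm_num)
    (by norm_num) (by norm_num) (by norm_num) (by norm_num), v2_val]
  simp only [E.val]
  push_cast
  norm_num

theorem lo1_val : lo1.val [y, T, q, θ] =
    min (min (4 / 3 * q) (16 / 100)) (min (16 / 100 - 45 / 170 * (q - 33 / 100))
      (115 / 150 * (65 / 100 - q))) := by
  unfold lo1
  simp only [E.mn_val, E.val]
  push_cast
  rfl

/-- the difference of the values -/
theorem VF_sub (q γ m T y a : ℝ) : KE.VF ⟨q, γ⟩ ⟨m, T⟩ - KE.VF ⟨q, γ⟩ ⟨y, a⟩ =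
    uu (y - q) (a - γ) - uu (m - q) (T - γ) - Real.pi * (q * (T - a) + γ * (m - y)) +
      (uu m T - uu y a + Real.pi * (T - a)) := by
  unfold KE.VF
  simp only [UU_uu, Complex.sub_re, Complex.sub_im, Complex.mul_im]
  ring

/-! ### moves to `3/4`, upper mirrored path -/

theorem fU_pos {g t : E} (hg : g.val [y, T, q, θ] = γ) (ht : t.val [y, T, q, θ] = T - γ)
    (h : 0 < (fU (PX (.q 3 4) su g t)).val [y, T, q, θ]) :
    -(Real.pi * (-T) + NumGs.plR y 1145 LU) ≤
      KE.VF ⟨q, γ⟩ ⟨3 / 4, T⟩ - KE.VF ⟨q, γ⟩ ⟨y, 16 / 100 * K23.τl y⟩ := by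
  rw [VF_sub]
  simp only [fU, PX, PI, E.val, su_val, hg, ht, E.pl_val, v0_val, v1_val, lkL2] at h
  push_cast at h
  linarith only [h]

theorem rowU {g t : E} {l0 h0 c : ℕ}
    (h : chkD [.of (fU (PX (.q 3 4) su g t)), .of (fU (PW (.q 3 4) su g t))]
      10000 0 1230 0 0 60 l0 h0 0 1080 0 6500 0 10000 c = true)
    (y0 : (l0 : ℝ) / 10000 ≤ y) (y1 : y ≤ (h0 : ℝ) / 10000) (T0 : -(123 / 1000) ≤ T)
    (T1 : T ≤ -(15 / 1000)) (q0 : 0 ≤ q) (q1 : q ≤ 65 / 100) (θ0 : 0 ≤ θ) (θ1 : θ ≤ 1)
    (hg : g.val [y, T, q, θ] = γ) (ht : t.val [y, T, q, θ] = T - γ) :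
    -(Real.pi * (-T) + NumGs.plR y 1145 LU) ≤
      KE.VF ⟨q, γ⟩ ⟨3 / 4, T⟩ - KE.VF ⟨q, γ⟩ ⟨y, 16 / 100 * K23.τl y⟩ := by
  have h1 := K23.dk2 h (by norm_num) (x := y) (y := T) (z := q) (w := θ)
    ⟨by push_cast; linarith only [y0], by push_cast; linarith only [y1]⟩
    ⟨by norm_num; linarith only [T0], by norm_num; linarith only [T1]⟩
    ⟨by norm_num; linarith only [q0], by norm_num; linarith only [q1]⟩
    ⟨by norm_num; linarith only [θ0], by norm_num; linarith only [θ1]⟩
  exact fU_pos hg ht (h1.elim id id)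

theorem U3_lo (hU : KR.U3 q γ) : -γ ≤ min (min (4 / 3 * q) (16 / 100))
    (min (16 / 100 - 45 / 170 * (q - 33 / 100)) (115 / 150 * (65 / 100 - q))) :=
  le_min (le_min hU.d1 hU.d2) (le_min hU.d3 hU.d4)

theorem casesU {l0 h0 cU cD : ℕ}
    (rU : chkD [.of (fU (PX (.q 3 4) su (gU hi1) (.sub vT (gU hi1)))),
        .of (fU (PW (.q 3 4) su (gU hi1) (.sub vT (gU hi1))))]
      10000 0 1230 0 0 60 l0 h0 0 1080 0 6500 0 10000 cU = true)
    (rD : chkD [.of (fU (PX (.q 3 4) su (gD lo1) (.sub vT (gD lo1)))),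
        .of (fU (PW (.q 3 4) su (gD lo1) (.sub vT (gD lo1))))]
      10000 0 1230 0 0 60 l0 h0 0 1080 0 6500 0 10000 cD = true)
    (hU : KR.U3 q γ) (T0 : -(123 / 1000) ≤ T) (T1 : T ≤ -(15 / 1000))
    (y0 : (l0 : ℝ) / 10000 ≤ y) (y1 : y ≤ (h0 : ℝ) / 10000) :
    -(Real.pi * (-T) + NumGs.plR y 1145 LU) ≤
      KE.VF ⟨q, γ⟩ ⟨3 / 4, T⟩ - KE.VF ⟨q, γ⟩ ⟨y, 16 / 100 * K23.τl y⟩ := by
  rcases le_total 0 γ with c | c
  · obtain ⟨θ, t0, t1, eg⟩ := KR.theta c hU.up
    have e1 : (gU hi1).val [y, T, q, θ] = γ := by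
      unfold gU
      rw [E.val, hi1_val, v3_val, eg]
    exact rowU rU y0 y1 T0 T1 hU.q0 hU.q1 t0 t1 e1 (by rw [E.val, e1, v1_val])
  · obtain ⟨θ, t0, t1, eg⟩ := KR.theta (neg_nonneg.2 c) (U3_lo hU)
    have e1 : (gD lo1).val [y, T, q, θ] = γ := by
      unfold gD
      rw [E.val, E.val, lo1_val, v3_val, ← eg, neg_neg]
    exact rowU rD y0 y1 T0 T1 hU.q0 hU.q1 t0 t1 e1 (by rw [E.val, e1, v1_val])

/-- **The inner variable moved from its upper mirrored path to `3/4`.** -/
theorem lossU (hU : KR.U3 q γ) (T0 : -(123 / 1000) ≤ T) (T1 : T ≤ -(15 / 1000))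
    (y0 : 45 / 100 ≤ y) (y1 : y ≤ 8 / 10) : -(Real.pi * (-T) + NumGs.plR y 1145 LU) ≤
      KE.VF ⟨q, γ⟩ ⟨3 / 4, T⟩ - KE.VF ⟨q, γ⟩ ⟨y, 16 / 100 * K23.τl y⟩ := by
  rcases le_total y (75 / 100) with h | h
  · exact casesU r_FUa r_FDa hU T0 T1 (by norm_num; linarith only [y0]) (by norm_num; linarith only [h])
  · exact casesU r_FUb r_FDb hU T0 T1 (by norm_num; linarith only [h]) (by norm_num; linarith only [y1])

/-! ### moves to `3/10` and `7/20`, upper mirrored path -/

theorem f1_pos {g t : E} (hg : g.val [y, T, q, θ] = γ) (ht : t.val [y, T, q, θ] = T - γ)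
    (h : 0 < (f1 (PX (.q 3 10) su g t)).val [y, T, q, θ]) :
    -(NumGs.plR y 304 A1 + NumGs.plR y 1845 B1 * (-T - 15 / 1000)) ≤
      KE.VF ⟨q, γ⟩ ⟨3 / 10, T⟩ - KE.VF ⟨q, γ⟩ ⟨y, 16 / 100 * K23.τl y⟩ +
        2 * Real.pi * (16 / 100 * K23.τl y) := by
  rw [VF_sub]
  simp only [f1, PX, PI, E.val, su_val, hg, ht, E.pl_val, v0_val, v1_val, lkL2] at h
  push_cast at h
  norm_num at h ⊢
  linarith only [h]

theorem f2_pos {g t : E} (hg : g.val [y, T, q, θ] = γ) (ht : t.val [y, T, q, θ] = T - γ)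
    (h : 0 < (f2 (PX (.q 7 20) su g t)).val [y, T, q, θ]) :
    -(NumGs.plR y 227 A2 + NumGs.plR y 2180 B2 * (-T - 80 / 1000)) ≤
      KE.VF ⟨q, γ⟩ ⟨7 / 20, T⟩ - KE.VF ⟨q, γ⟩ ⟨y, 16 / 100 * K23.τl y⟩ +
        2 * Real.pi * (16 / 100 * K23.τl y) := by
  rw [VF_sub]
  simp only [f2, PX, PI, E.val, su_val, hg, ht, E.pl_val, v0_val, v1_val, lkL2] at h
  push_cast at h
  norm_num at h ⊢
  linarith only [h]

theorem row1 {g t : E} {l0 h0 c : ℕ}
    (h : chkD [.of (f1 (PX (.q 3 10) su g t)), .of (f1 (PW (.q 3 10) su g t))]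
      10000 0 900 0 0 60 l0 h0 0 750 0 6500 0 10000 c = true)
    (y0 : (l0 : ℝ) / 10000 ≤ y) (y1 : y ≤ (h0 : ℝ) / 10000) (T0 : -(90 / 1000) ≤ T)
    (T1 : T ≤ -(15 / 1000)) (q0 : 0 ≤ q) (q1 : q ≤ 65 / 100) (θ0 : 0 ≤ θ) (θ1 : θ ≤ 1)
    (hg : g.val [y, T, q, θ] = γ) (ht : t.val [y, T, q, θ] = T - γ) :
    -(NumGs.plR y 304 A1 + NumGs.plR y 1845 B1 * (-T - 15 / 1000)) ≤
      KE.VF ⟨q, γ⟩ ⟨3 / 10, T⟩ - KE.VF ⟨q, γ⟩ ⟨y, 16 / 100 * K23.τl y⟩ +
        2 * Real.pi * (16 / 100 * K23.τl y) := by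
  have h1 := K23.dk2 h (by norm_num) (x := y) (y := T) (z := q) (w := θ)
    ⟨by push_cast; linarith only [y0], by push_cast; linarith only [y1]⟩
    ⟨by norm_num; linarith only [T0], by norm_num; linarith only [T1]⟩
    ⟨by norm_num; linarith only [q0], by norm_num; linarith only [q1]⟩
    ⟨by norm_num; linarith only [θ0], by norm_num; linarith only [θ1]⟩
  exact f1_pos hg ht (h1.elim id id)

theorem row2 {g t : E} {l0 h0 c : ℕ}
    (h : chkD [.of (f2 (PX (.q 7 20) su g t)), .of (f2 (PW (.q 7 20) su g t))]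
      10000 0 1230 0 0 60 l0 h0 0 430 0 6500 0 10000 c = true)
    (y0 : (l0 : ℝ) / 10000 ≤ y) (y1 : y ≤ (h0 : ℝ) / 10000) (T0 : -(123 / 1000) ≤ T)
    (T1 : T ≤ -(80 / 1000)) (q0 : 0 ≤ q) (q1 : q ≤ 65 / 100) (θ0 : 0 ≤ θ) (θ1 : θ ≤ 1)
    (hg : g.val [y, T, q, θ] = γ) (ht : t.val [y, T, q, θ] = T - γ) :
    -(NumGs.plR y 227 A2 + NumGs.plR y 2180 B2 * (-T - 80 / 1000)) ≤
      KE.VF ⟨q, γ⟩ ⟨7 / 20, T⟩ - KE.VF ⟨q, γ⟩ ⟨y, 16 / 100 * K23.τl y⟩ +
        2 * Real.pi * (16 / 100 * K23.τl y) := by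
  have h1 := K23.dk2 h (by norm_num) (x := y) (y := T) (z := q) (w := θ)
    ⟨by push_cast; linarith only [y0], by push_cast; linarith only [y1]⟩
    ⟨by norm_num; linarith only [T0], by norm_num; linarith only [T1]⟩
    ⟨by norm_num; linarith only [q0], by norm_num; linarith only [q1]⟩
    ⟨by norm_num; linarith only [θ0], by norm_num; linarith only [θ1]⟩
  exact f2_pos hg ht (h1.elim id id)

/-- the height of the hinge between the height `T` and the real axis -/
theorem dM_val {lo : E} {L : ℝ} (hL : ∀ θ : ℝ, lo.val [y, T, q, θ] = L)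
    (h1 : -γ ≤ L) (h2 : T ≤ γ) (h3 : γ ≤ 0) : ∃ θ : ℝ, 0 ≤ θ ∧ θ ≤ 1 ∧
      (dM lo).val [y, T, q, θ] = γ - T := by
  have e1 : T + max (-L - T) 0 = max (-L) T := by
    rcases le_total (-L) T with h | h
    · rw [max_eq_right h, max_eq_right (by linarith only [h]), add_zero]
    · rw [max_eq_left h, max_eq_left (by linarith only [h])]
      ring
  have e2 : max (-L) T ≤ γ := max_le (by linarith only [h1]) h2
  obtain ⟨θ, t0, t1, eg⟩ := KR.theta (g := γ - max (-L) T) (H := -max (-L) T) (by linarith only [e2])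
    (by linarith only [h3])
  refine ⟨θ, t0, t1, ?_⟩
  simp only [dM, G0, E.val, v1_val, lkL3, hL]
  rw [e1]
  have e3 : max (-L - T) 0 = max (-L) T - T := by linarith only [e1]
  rw [e3]
  linarith only [eg]

/-- the height of the hinge below the height `T` -/
theorem dB_val {lo : E} {L : ℝ} (hL : ∀ θ : ℝ, lo.val [y, T, q, θ] = L)
    (h1 : -γ ≤ L) (h2 : γ ≤ T) : ∃ θ : ℝ, 0 ≤ θ ∧ θ ≤ 1 ∧
      (dB lo).val [y, T, q, θ] = γ - T := by
  obtain ⟨θ, t0, t1, eg⟩ := KR.theta (g := T - γ) (H := L + T) (by linarith only [h2]) (by linarith only [h1])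
  refine ⟨θ, t0, t1, ?_⟩
  simp only [dB, G0, E.val, v1_val, lkL3, hL]
  rw [max_eq_right (by linarith only [h1, h2]), max_eq_left (by linarith only [h1, h2])]
  linarith only [eg]

theorem cases1 {l0 h0 cU cM cB : ℕ}
    (rU : chkD [.of (f1 (PX (.q 3 10) su (gU hi1) (.sub vT (gU hi1)))),
        .of (f1 (PW (.q 3 10) su (gU hi1) (.sub vT (gU hi1))))]
      10000 0 900 0 0 60 l0 h0 0 750 0 6500 0 10000 cU = true)
    (rM : chkD [.of (f1 (PX (.q 3 10) su (.add vT (dM lo1)) (.neg (dM lo1)))),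
        .of (f1 (PW (.q 3 10) su (.add vT (dM lo1)) (.neg (dM lo1))))]
      10000 0 900 0 0 60 l0 h0 0 750 0 6500 0 10000 cM = true)
    (rB : chkD [.of (f1 (PX (.q 3 10) su (.add vT (dB lo1)) (.neg (dB lo1)))),
        .of (f1 (PW (.q 3 10) su (.add vT (dB lo1)) (.neg (dB lo1))))]
      10000 0 900 0 0 60 l0 h0 0 750 0 6500 0 10000 cB = true)
    (hU : KR.U3 q γ) (T0 : -(90 / 1000) ≤ T) (T1 : T ≤ -(15 / 1000))
    (y0 : (l0 : ℝ) / 10000 ≤ y) (y1 : y ≤ (h0 : ℝ) / 10000) :
    -(NumGs.plR y 304 A1 + NumGs.plR y 1845 B1 * (-T - 15 / 1000)) ≤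
      KE.VF ⟨q, γ⟩ ⟨3 / 10, T⟩ - KE.VF ⟨q, γ⟩ ⟨y, 16 / 100 * K23.τl y⟩ +
        2 * Real.pi * (16 / 100 * K23.τl y) := by
  have L1 := U3_lo hU
  rcases le_total 0 γ with c | c
  · obtain ⟨θ, t0, t1, eg⟩ := KR.theta c hU.up
    have e1 : (gU hi1).val [y, T, q, θ] = γ := by
      unfold gU
      rw [E.val, hi1_val, v3_val, eg]
    exact row1 rU y0 y1 T0 T1 hU.q0 hU.q1 t0 t1 e1 (by rw [E.val, e1, v1_val])
  rcases le_total T γ with c' | c'
  · obtain ⟨θ, t0, t1, e1⟩ := dM_val (y := y) (q := q) (fun θ => lo1_val) L1 c' c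
    exact row1 rM y0 y1 T0 T1 hU.q0 hU.q1 t0 t1 (by rw [E.val, e1, v1_val]; ring)
      (by rw [E.val, e1]; ring)
  · obtain ⟨θ, t0, t1, e1⟩ := dB_val (y := y) (q := q) (fun θ => lo1_val) L1 c'
    exact row1 rB y0 y1 T0 T1 hU.q0 hU.q1 t0 t1 (by rw [E.val, e1, v1_val]; ring)
      (by rw [E.val, e1]; ring)

theorem cases2 {l0 h0 cU cM cB : ℕ}
    (rU : chkD [.of (f2 (PX (.q 7 20) su (gU hi2) (.sub vT (gU hi2)))),
        .of (f2 (PW (.q 7 20) su (gU hi2) (.sub vT (gU hi2))))]
      10000 0 1230 0 0 60 l0 h0 0 430 0 6500 0 10000 cU = true)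
    (rM : chkD [.of (f2 (PX (.q 7 20) su (.add vT (dM lo2)) (.neg (dM lo2)))),
        .of (f2 (PW (.q 7 20) su (.add vT (dM lo2)) (.neg (dM lo2))))]
      10000 0 1230 0 0 60 l0 h0 0 430 0 6500 0 10000 cM = true)
    (rB : chkD [.of (f2 (PX (.q 7 20) su (.add vT (dB lo2)) (.neg (dB lo2)))),
        .of (f2 (PW (.q 7 20) su (.add vT (dB lo2)) (.neg (dB lo2))))]
      10000 0 1230 0 0 60 l0 h0 0 430 0 6500 0 10000 cB = true)
    (hU : -(4 / 25 * tr 0 (60 / 100) (12 / 100) (27 / 100) q) ≤ γ ∧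
      γ ≤ 3 / 10 * tr 0 (60 / 100) (12 / 100) (27 / 100) q) (q0 : 0 ≤ q) (q1 : q ≤ 65 / 100)
    (T0 : -(123 / 1000) ≤ T) (T1 : T ≤ -(80 / 1000))
    (y0 : (l0 : ℝ) / 10000 ≤ y) (y1 : y ≤ (h0 : ℝ) / 10000) :
    -(NumGs.plR y 227 A2 + NumGs.plR y 2180 B2 * (-T - 80 / 1000)) ≤
      KE.VF ⟨q, γ⟩ ⟨7 / 20, T⟩ - KE.VF ⟨q, γ⟩ ⟨y, 16 / 100 * K23.τl y⟩ +
        2 * Real.pi * (16 / 100 * K23.τl y) := by
  rcases le_total 0 γ with c | c
  · obtain ⟨θ, t0, t1, eg⟩ := KR.theta c hU.2
    have e1 : (gU hi2).val [y, T, q, θ] = γ := by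
      unfold gU
      rw [E.val, hi2_val, v3_val, eg]
    exact row2 rU y0 y1 T0 T1 q0 q1 t0 t1 e1 (by rw [E.val, e1, v1_val])
  rcases le_total T γ with c' | c'
  · obtain ⟨θ, t0, t1, e1⟩ := dM_val (y := y) (q := q) (fun θ => lo2_val)
      (by linarith only [hU, hU.1]) c' c
    exact row2 rM y0 y1 T0 T1 q0 q1 t0 t1 (by rw [E.val, e1, v1_val]; ring)
      (by rw [E.val, e1]; ring)
  · obtain ⟨θ, t0, t1, e1⟩ := dB_val (y := y) (q := q) (fun θ => lo2_val) (by linarith only [hU, hU.1]) c'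
    exact row2 rB y0 y1 T0 T1 q0 q1 t0 t1 (by rw [E.val, e1, v1_val]; ring)
      (by rw [E.val, e1]; ring)

/-- **The inner variable moved from its upper mirrored path to `3/10`.** -/
theorem loss1 (hU : KR.U3 q γ) (T0 : -(90 / 1000) ≤ T) (T1 : T ≤ -(15 / 1000))
    (y0 : 3 / 100 ≤ y) (y1 : y ≤ 8 / 10) :
    -(NumGs.plR y 304 A1 + NumGs.plR y 1845 B1 * (-T - 15 / 1000)) ≤
      KE.VF ⟨q, γ⟩ ⟨3 / 10, T⟩ - KE.VF ⟨q, γ⟩ ⟨y, 16 / 100 * K23.τl y⟩ +
        2 * Real.pi * (16 / 100 * K23.τl y) := by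
  rcases le_total y (4 / 100) with h | h
  · exact cases1 r_1Ua r_1Ma r_1Ba hU T0 T1 (by norm_num; linarith only [y0]) (by norm_num; linarith only [h])
  rcases le_total y (5 / 100) with h' | h'
  · exact cases1 r_1Ub r_1Mb r_1Bb hU T0 T1 (by norm_num; linarith only [h]) (by norm_num; linarith only [h'])
  rcases le_total y (10 / 100) with h1 | h1
  · exact cases1 r_1Uc r_1Mc r_1Bc hU T0 T1 (by norm_num; linarith only [h']) (by norm_num; linarith only [h1])
  rcases le_total y (30 / 100) with h2 | h2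
  · exact cases1 r_1Ud r_1Md r_1Bd hU T0 T1 (by norm_num; linarith only [h1]) (by norm_num; linarith only [h2])
  rcases le_total y (50 / 100) with h3 | h3
  · exact cases1 r_1Ue r_1Me r_1Be hU T0 T1 (by norm_num; linarith only [h2]) (by norm_num; linarith only [h3])
  rcases le_total y (75 / 100) with h4 | h4
  · exact cases1 r_1Uf r_1Mf r_1Bf hU T0 T1 (by norm_num; linarith only [h3]) (by norm_num; linarith only [h4])
  · exact cases1 r_1Ug r_1Mg r_1Bg hU T0 T1 (by norm_num; linarith only [h4]) (by norm_num; linarith only [y1])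

/-- **The inner variable moved from its upper mirrored path to `7/20`**, no digit `1` in the
slot `0`. -/
theorem loss2 (hU : -(4 / 25 * tr 0 (60 / 100) (12 / 100) (27 / 100) q) ≤ γ ∧
      γ ≤ 3 / 10 * tr 0 (60 / 100) (12 / 100) (27 / 100) q) (q0 : 0 ≤ q) (q1 : q ≤ 65 / 100)
    (T0 : -(123 / 1000) ≤ T) (T1 : T ≤ -(80 / 1000)) (y0 : 3 / 100 ≤ y) (y1 : y ≤ 8 / 10) :
    -(NumGs.plR y 227 A2 + NumGs.plR y 2180 B2 * (-T - 80 / 1000)) ≤
      KE.VF ⟨q, γ⟩ ⟨7 / 20, T⟩ - KE.VF ⟨q, γ⟩ ⟨y, 16 / 100 * K23.τl y⟩ +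
        2 * Real.pi * (16 / 100 * K23.τl y) := by
  rcases le_total y (4 / 100) with h | h
  · exact cases2 r_2Ua r_2Ma r_2Ba hU q0 q1 T0 T1 (by norm_num; linarith only [y0]) (by norm_num; linarith only [h])
  rcases le_total y (5 / 100) with h' | h'
  · exact cases2 r_2Ub r_2Mb r_2Bb hU q0 q1 T0 T1 (by norm_num; linarith only [h]) (by norm_num; linarith only [h'])
  rcases le_total y (10 / 100) with h1 | h1
  · exact cases2 r_2Uc r_2Mc r_2Bc hU q0 q1 T0 T1 (by norm_num; linarith only [h']) (by norm_num; linarith only [h1])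
  rcases le_total y (30 / 100) with h2 | h2
  · exact cases2 r_2Ud r_2Md r_2Bd hU q0 q1 T0 T1 (by norm_num; linarith only [h1]) (by norm_num; linarith only [h2])
  rcases le_total y (50 / 100) with h3 | h3
  · exact cases2 r_2Ue r_2Me r_2Be hU q0 q1 T0 T1 (by norm_num; linarith only [h2]) (by norm_num; linarith only [h3])
  rcases le_total y (75 / 100) with h4 | h4
  · exact cases2 r_2Uf r_2Mf r_2Bf hU q0 q1 T0 T1 (by norm_num; linarith only [h3]) (by norm_num; linarith only [h4])
  · exact cases2 r_2Ug r_2Mg r_2Bg hU q0 q1 T0 T1 (by norm_num; linarith only [h4]) (by norm_num; linarith only [y1])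

/-! ### move to `3/4`, main path -/

theorem sl_val : sl.val [y, T, q, θ] = 20 * T * (4 / 5 - y) := by
  simp only [sl, E.val, v0_val, v1_val]
  push_cast
  ring

theorem mu_val : mu.val [y, T, q, θ] = -20 * T := by
  simp only [mu, E.val, v1_val]
  push_cast
  ring

theorem dG_val {g : E} (hg : g.val [y, T, q, θ] = γ) : (dG g).val [y, T, q, θ] =
    1 / 4 + Real.pi * (γ + q * (-20 * T)) +
      (dU ⟨y - q, 20 * T * (4 / 5 - y) - γ⟩ (-20 * T) - dU ⟨y, 20 * T * (4 / 5 - y)⟩ (-20 * T)) := by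
  have e1 : ∀ x t m : E, (dUx x t m).val [y, T, q, θ] =
      dU ⟨x.val [y, T, q, θ], t.val [y, T, q, θ]⟩ (m.val [y, T, q, θ]) := fun x t m => D.dU_val
  unfold dG
  simp only [D.val, e1, E.val, hg, sl_val, mu_val, v0_val, lkL2]
  push_cast
  ring

theorem dG_pos (hU : KR.U3 q γ) (T0 : -(123 / 1000) ≤ T) (T1 : T ≤ -(15 / 1000))
    (y0 : 75 / 100 ≤ y) (y1 : y ≤ 8 / 10) : 0 <
    1 / 4 + Real.pi * (γ + q * (-20 * T)) +
      (dU ⟨y - q, 20 * T * (4 / 5 - y) - γ⟩ (-20 * T) - dU ⟨y, 20 * T * (4 / 5 - y)⟩ (-20 * T)) := by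
  rcases le_total 0 γ with c | c
  · obtain ⟨θ, t0, t1, eg⟩ := KR.theta c hU.up
    have e1 : (gU hi1).val [y, T, q, θ] = γ := by
      unfold gU
      rw [E.val, hi1_val, v3_val, eg]
    rw [← dG_val e1]
    exact K23.dk1 r_GU (by norm_num) ⟨by norm_num; linarith only [y0], by norm_num; linarith only [y1]⟩
      ⟨by norm_num; linarith only [T0], by norm_num; linarith only [T1]⟩
      ⟨by norm_num; linarith only [hU, hU.q0], by norm_num; linarith only [hU, hU.q1]⟩
      ⟨by norm_num; linarith only [t0], by norm_num; linarith only [t1]⟩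
  · obtain ⟨θ, t0, t1, eg⟩ := KR.theta (neg_nonneg.2 c) (U3_lo hU)
    have e1 : (gD lo1).val [y, T, q, θ] = γ := by
      unfold gD
      rw [E.val, E.val, lo1_val, v3_val, ← eg, neg_neg]
    rw [← dG_val e1]
    exact K23.dk1 r_GD (by norm_num) ⟨by norm_num; linarith only [y0], by norm_num; linarith only [y1]⟩
      ⟨by norm_num; linarith only [T0], by norm_num; linarith only [T1]⟩
      ⟨by norm_num; linarith only [hU, hU.q0], by norm_num; linarith only [hU, hU.q1]⟩
      ⟨by norm_num; linarith only [t0], by norm_num; linarith only [t1]⟩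

/-- the right ramp -/
noncomputable def gl (T y : ℝ) : ℂ := ⟨y, 20 * T * (4 / 5 - y)⟩

theorem hasDerivAt_gl (T x : ℝ) : HasDerivAt (gl T) (1 + ((-20 * T : ℝ)) * Complex.I) x := by
  have e : gl T = fun y : ℝ => (y : ℂ) + ((20 * T * (4 / 5 - y) : ℝ) : ℂ) * Complex.I := by
    funext y
    unfold gl
    apply Complex.ext <;> simp
  rw [e]
  have h1 : HasDerivAt (fun y : ℝ => 20 * T * (4 / 5 - y)) (-20 * T) x := by
    have := ((hasDerivAt_id x).const_sub (4 / 5)).const_mul (20 * T)
    refine this.congr_deriv ?_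
    ring
  exact ((hasDerivAt_id x).ofReal_comp).add ((h1.ofReal_comp).mul_const Complex.I)

/-- the difference along the right ramp -/
noncomputable def FM (q γ T y : ℝ) : ℝ :=
  KE.VF ⟨q, γ⟩ ⟨3 / 4, T⟩ - KE.VF ⟨q, γ⟩ (gl T y) +
    (Real.pi * (-T) * (1 - 20 * (4 / 5 - y)) + 1 / 4 * (y - 3 / 4))

theorem hasDerivAt_FM (hU : KR.U3 q γ) (y0 : 75 / 100 ≤ y) (y1 : y ≤ 8 / 10) :
    HasDerivAt (FM q γ T) (1 / 4 + Real.pi * (γ + q * (-20 * T)) +
      (dU ⟨y - q, 20 * T * (4 / 5 - y) - γ⟩ (-20 * T) -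
        dU ⟨y, 20 * T * (4 / 5 - y)⟩ (-20 * T))) y := by
  have q0 := hU.q0
  have q1 := hU.q1
  have s1 : (gl T y).im ≠ 0 ∨ gl T y ∈ strip := by
    right
    constructor
    · show 0 < y
      linarith only [y0]
    · show y < 1
      linarith only [y1]
  have s2 : (gl T y - ⟨q, γ⟩).im ≠ 0 ∨ gl T y - ⟨q, γ⟩ ∈ strip := by
    right
    constructor
    · show 0 < y - q
      linarith only [y0, q1]
    · show y - q < 1
      linarith only [y1, q0]
  have a1 := hasDerivAt_dU (hasDerivAt_gl T y) s1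
  have a2 := hasDerivAt_dU ((hasDerivAt_gl T y).sub_const ⟨q, γ⟩) s2
  have e : FM q γ T = fun y => KE.VF ⟨q, γ⟩ ⟨3 / 4, T⟩ +
      (Real.pi * (q * (20 * T * (4 / 5 - y)) + γ * y - 20 * T * (4 / 5 - y)) + UU ⟨q, γ⟩ +
        (Real.pi * (-T) * (1 - 20 * (4 / 5 - y)) + 1 / 4 * (y - 3 / 4))) +
      (UU (gl T y - ⟨q, γ⟩) - UU (gl T y)) := by
    funext y
    unfold FM
    conv_lhs => rw [show KE.VF ⟨q, γ⟩ (gl T y) = -(Real.pi * (q * (20 * T * (4 / 5 - y)) +
      γ * y - 20 * T * (4 / 5 - y))) - UU (gl T y - ⟨q, γ⟩) + UU (gl T y) - UU ⟨q, γ⟩ from by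
        unfold KE.VF
        simp only [Complex.sub_im, Complex.mul_im]
        rfl]
    ring
  rw [e]
  have a3 : HasDerivAt (fun y : ℝ =>
      Real.pi * (q * (20 * T * (4 / 5 - y)) + γ * y - 20 * T * (4 / 5 - y)) + UU ⟨q, γ⟩ +
        (Real.pi * (-T) * (1 - 20 * (4 / 5 - y)) + 1 / 4 * (y - 3 / 4)))
      (1 / 4 + Real.pi * (γ + q * (-20 * T))) y := by
    have b1 : HasDerivAt (fun y : ℝ => 4 / 5 - y) (-1) y := (hasDerivAt_id y).const_sub (4 / 5)
    have b2 := b1.const_mul (20 * T)
    have b3 := (((b2.const_mul q).add ((hasDerivAt_id y).const_mul γ)).sub b2).const_mul Real.pi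
    have b4 := ((b1.const_mul 20).const_sub 1).const_mul (Real.pi * (-T))
    have b5 := ((hasDerivAt_id y).sub_const (3 / 4)).const_mul (1 / 4)
    refine ((b3.add_const (UU ⟨q, γ⟩)).add (b4.add b5)).congr_deriv ?_
    ring
  exact ((a3.const_add _).add (a2.sub a1))

/-- **The inner variable moved on the right ramp of its main path to `3/4`.** -/
theorem lossM (hU : KR.U3 q γ) (T0 : -(123 / 1000) ≤ T) (T1 : T ≤ -(15 / 1000))
    (y0 : 75 / 100 ≤ y) (y1 : y ≤ 8 / 10) :
    -(Real.pi * (-T) * (1 - K23.τl y) + 1 / 4 * (y - 3 / 4)) ≤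
      KE.VF ⟨q, γ⟩ ⟨3 / 4, T⟩ - KE.VF ⟨q, γ⟩ ⟨y, T * K23.τl y⟩ := by
  have e1 : K23.τl y = 20 * (4 / 5 - y) := by
    unfold K23.τl tr
    rw [min_eq_right (show (8 / 10 - y) / (5 / 100) ≤ (y - 0) / (5 / 100) from
      div_le_div_of_nonneg_right (by linarith only [y0]) (by norm_num)), min_eq_right (by rw [div_le_one (by norm_num)]; linarith only [y0]),
      max_eq_right (div_nonneg (by linarith only [y1]) (by norm_num))]
    ring
  have hm : MonotoneOn (FM q γ T) (Set.Icc (3 / 4) (8 / 10)) := by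
    refine monotoneOn_of_deriv_nonneg (convex_Icc _ _) ?_ ?_ ?_
    · intro z hz
      exact (hasDerivAt_FM hU (by linarith only [hz, hz.1]) hz.2).continuousAt.continuousWithinAt
    · intro z hz
      rw [interior_Icc] at hz
      exact (hasDerivAt_FM hU (by linarith only [hz, hz.1]) hz.2.le).differentiableAt.differentiableWithinAt
    · intro z hz
      rw [interior_Icc] at hz
      rw [(hasDerivAt_FM hU (by linarith only [hz, hz.1]) hz.2.le).deriv]
      exact (dG_pos hU T0 T1 (by linarith only [hz, hz.1]) hz.2.le).le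
  have h1 := hm (show (3 / 4 : ℝ) ∈ Set.Icc (3 / 4) (8 / 10) from ⟨le_rfl, by norm_num⟩)
    (show y ∈ Set.Icc (3 / 4) (8 / 10) from ⟨by linarith only [y0], y1⟩) (by linarith only [y0])
  have h2 : FM q γ T (3 / 4) = 0 := by
    unfold FM gl
    rw [show (20 * T * (4 / 5 - 3 / 4) : ℝ) = T by ring]
    ring
  have e2 : gl T y = ⟨y, T * K23.τl y⟩ := by
    unfold gl
    rw [e1]
    congr 1
    ring
  rw [h2] at h1
  unfold FM at h1
  rw [e2, ← e1] at h1
  linarith only [h1]

end Pool.Agent.Work.MP_b30479_gtS.G2.K3b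

end

section

/-!
# Mirrored paths, kind `1 | 3`, the `3` at its slot `2`
-/

namespace Pool.Agent.Work.MP_b30479_gtS.G2

open Finset VOL Filter Topology SR NumGs

variable {M : ℕ} {b : Fin (M + 1) → ℤ} {zs : DD (tyW b) ⊕ ZZ (tyW b) → ℂ}
variable {R : Finset (DD (tyW b))} {nb : Finset (DD (tyW b) ⊕ ZZ (tyW b))}
variable {z : DD (tyW b) ⊕ ZZ (tyW b) → ℂ} {p : DD (tyW b) → ℝ}
variable {h h' h0 : Fin M} {i j j' j0 : Fin (M + 1)} {s : Fin 3} {x c r δ T y : ℝ}

namespace K3b

/-! ### the ramp function and the prices -/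

theorem τx_of (hc : c = 8 / 100 ∧ r = 8 / 15 ∨ c = 9 / 100 ∧ r = 3 / 5 ∨ c = 10 / 100 ∧ r = 2 / 3 ∨
    c = 125 / 1000 ∧ r = 5 / 6 ∨ (15 / 100 ≤ c ∧ c ≤ 36 / 100 ∧ r = 1)) : τx c = r := by
  unfold τx
  have key : ∀ c : ℝ, 0 ≤ c → c ≤ 15 / 100 →
      tr 0 (65 / 100) (15 / 100) (29 / 100) c = c / (15 / 100) := by
    intro c c0 c1
    unfold tr
    have a1 : c / (15 / 100) ≤ 1 := by rw [div_le_one (by norm_num)]; exact c1
    have a2 : (1 : ℝ) ≤ (65 / 100 - c) / (29 / 100) := by
      rw [le_div_iff₀ (by norm_num)]; linarith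
    rw [sub_zero, min_eq_left (a1.trans a2), min_eq_right a1,
      max_eq_right (div_nonneg c0 (by norm_num))]
  rcases hc with ⟨rfl, rfl⟩ | ⟨rfl, rfl⟩ | ⟨rfl, rfl⟩ | ⟨rfl, rfl⟩ | ⟨h0, h1, rfl⟩
  · rw [key _ (by norm_num) (by norm_num)]; norm_num
  · rw [key _ (by norm_num) (by norm_num)]; norm_num
  · rw [key _ (by norm_num) (by norm_num)]; norm_num
  · rw [key _ (by norm_num) (by norm_num)]; norm_num
  · unfold tr
    have a1 : (1 : ℝ) ≤ (c - 0) / (15 / 100) := by rw [le_div_iff₀ (by norm_num)]; linarith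
    have a2 : (1 : ℝ) ≤ (65 / 100 - c) / (29 / 100) := by
      rw [le_div_iff₀ (by norm_num)]; linarith
    rw [min_eq_left (le_min a1 a2)]
    norm_num

theorem mxm {a a' : ℝ} (h : a ≤ a') : max (x - a') 0 ≤ max (x - a) 0 :=
  max_le_max (by linarith) le_rfl

theorem pL_eq : pL x T = (3 / 100 - max (x - 1 / 100) 0 + 2 / 5 * max (x - 3 / 100) 0 +
    2 / 5 * max (x - 4 / 100) 0 + 1 / 5 * max (x - 5 / 100) 0 + 1 / 5 * max (x - 1 / 10) 0 -
    4 / 25 * max (x - 1 / 8) 0 - 1 / 25 * max (x - 1 / 5) 0 + 1 / 5 * max (x - 2 / 5) 0 -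
    1 / 5 * max (x - 1 / 2) 0) + (10 * max (x - 49 / 1000) 0 - 10 * max (x - 11 / 100) 0 +
      8 * max (x - 2 / 5) 0 - 8 * max (x - 1 / 2) 0) * (945 / 10000 - T) := by
  unfold pL
  have e0 : NumIs.lkR [x, T, 0, 0] 0 = x := rfl
  have eT : K3b.T.val [x, T, 0, 0] = T := rfl
  simp only [dl, LA, LG, E.pl, E.val, e0, eT]
  have f1 : ((10 : ℤ) : ℝ) / ((1000 : ℕ) : ℝ) = 1 / 100 := by norm_num
  have f2 : ((30 : ℤ) : ℝ) / ((1000 : ℕ) : ℝ) = 3 / 100 := by norm_num
  have f3 : ((40 : ℤ) : ℝ) / ((1000 : ℕ) : ℝ) = 4 / 100 := by norm_num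
  have f4 : ((50 : ℤ) : ℝ) / ((1000 : ℕ) : ℝ) = 5 / 100 := by norm_num
  have f5 : ((100 : ℤ) : ℝ) / ((1000 : ℕ) : ℝ) = 1 / 10 := by norm_num
  have f6 : ((125 : ℤ) : ℝ) / ((1000 : ℕ) : ℝ) = 1 / 8 := by norm_num
  have f7 : ((200 : ℤ) : ℝ) / ((1000 : ℕ) : ℝ) = 1 / 5 := by norm_num
  have f8 : ((400 : ℤ) : ℝ) / ((1000 : ℕ) : ℝ) = 2 / 5 := by norm_num
  have f9 : ((500 : ℤ) : ℝ) / ((1000 : ℕ) : ℝ) = 1 / 2 := by norm_num
  have f10 : ((49 : ℤ) : ℝ) / ((1000 : ℕ) : ℝ) = 49 / 1000 := by norm_num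
  have f11 : ((110 : ℤ) : ℝ) / ((1000 : ℕ) : ℝ) = 11 / 100 := by norm_num
  rw [f1, f2, f3, f4, f5, f6, f7, f8, f9, f10, f11]
  push_cast
  ring

/-- the price is nonnegative -/
theorem pL_nonneg (hT : T ≤ 945 / 10000) : 0 ≤ pL x T := by
  rw [pL_eq]
  have m1 := mxm (x := x) (show (1 : ℝ) / 10 ≤ 1 / 8 by norm_num)
  have m2 := mxm (x := x) (show (1 : ℝ) / 8 ≤ 1 / 5 by norm_num)
  have m3 := mxm (x := x) (show (2 : ℝ) / 5 ≤ 1 / 2 by norm_num)
  have m4 := mxm (x := x) (show (49 : ℝ) / 1000 ≤ 11 / 100 by norm_num)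
  have n1 := le_max_right (x - 1 / 5) 0
  have n3 := le_max_left (x - 3 / 100) 0
  have n3' := le_max_right (x - 3 / 100) 0
  have n4 := le_max_left (x - 4 / 100) 0
  have n4' := le_max_right (x - 4 / 100) 0
  have n5 := le_max_left (x - 5 / 100) 0
  have n5' := le_max_right (x - 5 / 100) 0
  have k2 : 0 ≤ (10 * max (x - 49 / 1000) 0 - 10 * max (x - 11 / 100) 0 +
      8 * max (x - 2 / 5) 0 - 8 * max (x - 1 / 2) 0) * (945 / 10000 - T) :=
    mul_nonneg (by linarith) (by linarith)
  rcases le_total x (1 / 100) with h | h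
  · rw [max_eq_right (show x - 1 / 100 ≤ 0 by linarith)]
    linarith
  · rw [max_eq_left (show 0 ≤ x - 1 / 100 by linarith)]
    linarith

theorem pM_nonneg (x0 : 13 / 100 ≤ x) (x1 : x ≤ 15 / 100) (hT : T ≤ 801 / 10000) :
    0 ≤ pM x T := by
  have e : pM x T = pL x T - 14 / 1000 := by
    unfold pM pL
    simp only [dm, E.val]
    norm_num
  rw [e, pL_eq, max_eq_left (show 0 ≤ x - 1 / 100 by linarith),
    max_eq_left (show 0 ≤ x - 3 / 100 by linarith), max_eq_left (show 0 ≤ x - 4 / 100 by linarith),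
    max_eq_left (show 0 ≤ x - 5 / 100 by linarith), max_eq_left (show 0 ≤ x - 1 / 10 by linarith),
    max_eq_left (show 0 ≤ x - 1 / 8 by linarith), max_eq_right (show x - 1 / 5 ≤ 0 by linarith),
    max_eq_right (show x - 2 / 5 ≤ 0 by linarith), max_eq_right (show x - 1 / 2 ≤ 0 by linarith),
    max_eq_left (show 0 ≤ x - 49 / 1000 by linarith),
    max_eq_left (show 0 ≤ x - 11 / 100 by linarith)]
  linarith

theorem pJ_ge : 1 / 100 ≤ pJ x T := by
  have e : pJ x T = 101 / 10000 + 1 / 2 * max (65 / 1000 - T) 0 := by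
    unfold pJ
    have eT : K3b.T.val [x, T, 0, 0] = T := rfl
    simp only [dj, E.val, eT]
    norm_num
  have := le_max_right (65 / 1000 - T) 0
  rw [e]
  linarith

/-! ### cells -/

theorem exCL (h0 : 0 ≤ x) (h1 : x ≤ 13 / 100 ∨ (15 / 100 ≤ x ∧ x ≤ 58 / 100)) :
    ∃ c r, CL x c r ∧ K13.XC x c ∧ τx c = r ∧ 0 ≤ c ∧ c ≤ 65 / 100 ∧ x < 62 / 100 := by
  rcases h1 with h1 | ⟨h1, h2⟩
  · rcases le_total x (7 / 100) with a1 | a1
    · exact ⟨8 / 100, 8 / 15, Or.inl ⟨h0, a1, rfl, rfl⟩, Or.inl ⟨h0, a1, rfl⟩,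
        τx_of (Or.inl ⟨rfl, rfl⟩), by norm_num, by norm_num, by linarith⟩
    rcases le_total x (85 / 1000) with a2 | a2
    · exact ⟨9 / 100, 3 / 5, Or.inr (Or.inl ⟨a1, a2, rfl, rfl⟩), Or.inr (Or.inl ⟨a1, a2, rfl⟩),
        τx_of (Or.inr (Or.inl ⟨rfl, rfl⟩)), by norm_num, by norm_num, by linarith⟩
    · exact ⟨10 / 100, 2 / 3, Or.inr (Or.inr (Or.inl ⟨a2, h1, rfl, rfl⟩)),
        Or.inr (Or.inr (Or.inl ⟨a2, h1, rfl⟩)), τx_of (Or.inr (Or.inr (Or.inl ⟨rfl, rfl⟩))),
        by norm_num, by norm_num, by linarith⟩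
  · have k : ∀ c : ℝ, 15 / 100 ≤ c → c ≤ 36 / 100 → τx c = 1 := fun c a b =>
      τx_of (Or.inr (Or.inr (Or.inr (Or.inr ⟨a, b, rfl⟩))))
    rcases le_total x (20 / 100) with a1 | a1
    · exact ⟨15 / 100, 1, Or.inr (Or.inr (Or.inr (Or.inl ⟨h1, a1, rfl, rfl⟩))),
        Or.inr (Or.inr (Or.inr (Or.inl ⟨by linarith, a1, rfl⟩))), k _ (by norm_num) (by norm_num),
        by norm_num, by norm_num, by linarith⟩
    rcases le_total x (50 / 100) with a2 | a2
    · exact ⟨20 / 100, 1, Or.inr (Or.inr (Or.inr (Or.inr (Or.inl ⟨a1, a2, rfl, rfl⟩)))),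
        Or.inr (Or.inr (Or.inr (Or.inr (Or.inl ⟨a1, a2, rfl⟩)))), k _ (by norm_num) (by norm_num),
        by norm_num, by norm_num, by linarith⟩
    · exact ⟨25 / 100, 1, Or.inr (Or.inr (Or.inr (Or.inr (Or.inr ⟨a2, h2, rfl, rfl⟩)))),
        Or.inr (Or.inr (Or.inr (Or.inr (Or.inr (Or.inl ⟨a2, by linarith, rfl⟩))))),
        k _ (by norm_num) (by norm_num), by norm_num, by norm_num, by linarith⟩

/-- cells, other region a `1` -/
theorem ex1 (h0 : 0 ≤ x) (h1 : x ≤ 65 / 100) (hT : T ≤ 801 / 10000) :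
    ∃ c r δ, C1 x T c r δ ∧ K13.XC x c ∧ τx c = r ∧ 0 ≤ c ∧ c ≤ 65 / 100 ∧ 0 ≤ δ ∧
      (62 / 100 ≤ x → 1 / 100 ≤ δ) := by
  have k : ∀ c : ℝ, 15 / 100 ≤ c → c ≤ 36 / 100 → τx c = 1 := fun c a b =>
    τx_of (Or.inr (Or.inr (Or.inr (Or.inr ⟨a, b, rfl⟩))))
  have hp : 0 ≤ pL x T := pL_nonneg (by linarith)
  have main : x ≤ 13 / 100 ∨ (15 / 100 ≤ x ∧ x ≤ 58 / 100) →
      ∃ c r δ, C1 x T c r δ ∧ K13.XC x c ∧ τx c = r ∧ 0 ≤ c ∧ c ≤ 65 / 100 ∧ 0 ≤ δ ∧
      (62 / 100 ≤ x → 1 / 100 ≤ δ) := by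
    intro h
    obtain ⟨c, r, k1, k2, k3, k4, k5, k6⟩ := exCL h0 h
    exact ⟨c, r, pL x T, Or.inl ⟨k1, rfl⟩, k2, k3, k4, k5, hp, fun h' => by linarith⟩
  rcases le_total x (13 / 100) with a1 | a1
  · exact main (Or.inl a1)
  rcases le_total x (15 / 100) with a2 | a2
  · exact ⟨15 / 100, 1, pM x T, Or.inr (Or.inl ⟨a1, a2, rfl, rfl, rfl⟩),
      Or.inr (Or.inr (Or.inr (Or.inl ⟨a1, by linarith, rfl⟩))), k _ (by norm_num) (by norm_num),
      by norm_num, by norm_num, pM_nonneg a1 a2 hT, fun h' => by linarith⟩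
  rcases le_total x (58 / 100) with a3 | a3
  · exact main (Or.inr ⟨a2, a3⟩)
  rcases lt_or_ge x (62 / 100) with a4 | a4
  · exact ⟨25 / 100, 1, pL x T, Or.inr (Or.inr (Or.inl ⟨a3, a4.le, rfl, rfl, rfl⟩)),
      Or.inr (Or.inr (Or.inr (Or.inr (Or.inr (Or.inl ⟨by linarith, a4.le, rfl⟩))))),
      k _ (by norm_num) (by norm_num), by norm_num, by norm_num, hp, fun h' => by linarith⟩
  · exact ⟨30 / 100, 1, pJ x T, Or.inr (Or.inr (Or.inr ⟨a4, h1, rfl, rfl, rfl⟩)),
      Or.inr (Or.inr (Or.inr (Or.inr (Or.inr (Or.inr ⟨a4, h1, rfl⟩))))),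
      k _ (by norm_num) (by norm_num), by norm_num, by norm_num,
      (by norm_num : (0 : ℝ) ≤ 1 / 100).trans pJ_ge, fun _ => pJ_ge⟩

/-- cells, other region a `2` -/
theorem ex2 (h0 : 0 ≤ x) (h1 : x ≤ 65 / 100) :
    ∃ c r δ, C2 x T c r δ ∧ τx c = r ∧ 0 ≤ c ∧ c ≤ 65 / 100 := by
  rcases le_total x (13 / 100) with a1 | a1
  · obtain ⟨c, r, k1, -, k3, k4, k5, -⟩ := exCL h0 (Or.inl a1)
    exact ⟨c, r, pL x T, Or.inl ⟨k1, rfl⟩, k3, k4, k5⟩
  rcases le_total x (15 / 100) with a2 | a2
  · exact ⟨125 / 1000, 5 / 6, pL x T, Or.inr (Or.inl ⟨a1, a2, rfl, rfl, rfl⟩),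
      τx_of (Or.inr (Or.inr (Or.inr (Or.inl ⟨rfl, rfl⟩)))), by norm_num, by norm_num⟩
  rcases le_total x (58 / 100) with a3 | a3
  · obtain ⟨c, r, k1, -, k3, k4, k5, -⟩ := exCL h0 (Or.inr ⟨a2, a3⟩)
    exact ⟨c, r, pL x T, Or.inl ⟨k1, rfl⟩, k3, k4, k5⟩
  · exact ⟨32 / 100, 1, pH x T, Or.inr (Or.inr ⟨a3, h1, rfl, rfl, rfl⟩),
      τx_of (Or.inr (Or.inr (Or.inr (Or.inr ⟨by norm_num, by norm_num, rfl⟩)))), by norm_num,
      by norm_num⟩

/-- cells, other region a `2` at an end -/
theorem exE (h0 : 0 ≤ x) (h1 : x ≤ 65 / 100) :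
    ∃ c r, CE x c r ∧ τx c = r ∧ 0 ≤ c ∧ c ≤ 65 / 100 := by
  rcases le_total x (13 / 100) with a1 | a1
  · obtain ⟨c, r, k1, -, k3, k4, k5, -⟩ := exCL h0 (Or.inl a1)
    exact ⟨c, r, Or.inl k1, k3, k4, k5⟩
  rcases le_total x (15 / 100) with a2 | a2
  · exact ⟨125 / 1000, 5 / 6, Or.inr (Or.inl ⟨a1, a2, rfl, rfl⟩),
      τx_of (Or.inr (Or.inr (Or.inr (Or.inl ⟨rfl, rfl⟩)))), by norm_num, by norm_num⟩
  rcases le_total x (58 / 100) with a3 | a3
  · obtain ⟨c, r, k1, -, k3, k4, k5, -⟩ := exCL h0 (Or.inr ⟨a2, a3⟩)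
    exact ⟨c, r, Or.inl k1, k3, k4, k5⟩
  · exact ⟨32 / 100, 1, Or.inr (Or.inr ⟨a3, h1, rfl, rfl⟩),
      τx_of (Or.inr (Or.inr (Or.inr (Or.inr ⟨by norm_num, by norm_num, rfl⟩)))), by norm_num,
      by norm_num⟩

/-! ### hinges -/

/-- ratio of two ramp functions -/
theorem ratio {XM : ℝ} (hM : XM ≤ 86 / 100) :
    ∃ ρ : ℝ, 0 ≤ ρ ∧ ρ ≤ 1 ∧ tr 0 XM (15 / 100) (20 / 100) y = ρ * τ1 y := by
  have h1 : tr 0 XM (15 / 100) (20 / 100) y ≤ τ1 y := by
    unfold τ1 tr
    refine max_le_max le_rfl (min_le_min le_rfl (min_le_min le_rfl ?_))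
    exact div_le_div_of_nonneg_right (by linarith) (by norm_num)
  have g0 := (tr_mem XM (15 / 100) (20 / 100) y).1
  have g2 : 0 ≤ τ1 y := (tr_mem (86 / 100) (15 / 100) (20 / 100) y).1
  rcases eq_or_lt_of_le g2 with h3 | h3
  · refine ⟨0, le_rfl, zero_le_one, ?_⟩
    rw [zero_mul]
    linarith
  · exact ⟨tr 0 XM (15 / 100) (20 / 100) y / τ1 y, div_nonneg g0 g2, (div_le_one h3).2 h1,
      (div_mul_cancel₀ _ h3.ne').symm⟩

/-- the coordinate in the frame of the region behind -/
theorem Ow_rev (hb : ClassW b) (A : Adj h i s j) (hi : clsW b i ≠ .ring) :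
    Ow b z j s.rev = ⟨(Ow b z i s).re, -(Ow b z i s).im⟩ := by
  have hs := sign_adj hb A hi
  rw [Ow_adj z A, Ow_adj z A.symm]
  apply Complex.ext
  · rw [ofr_re, ofr_re]
  · rw [ofr_im, ofr_im, ofs_neg_of_opp hs]

/-- the hinge of a `2` at an end behind an untouched region is not real -/
theorem nn_twoE (hN : NbT b R nb) (A' : Adj h' i s j') (ht : ¬ Tch b R i)
    (hj : clsW b j' = .twoE) : Sum.inl (Sum.inl h') ∉ nb := by
  intro hn
  obtain ⟨⟨d, hd, q, hq⟩, hR⟩ := hN.beyond A' ht hn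
  rcases d with h3 | m
  · obtain ⟨k, A3⟩ := adj_of_cf hq
    have e1 := A'.symm.slot_end A3 (clsW_end (Or.inl hj))
    subst e1
    exact hR (A'.symm.eq_of_slot A3 ▸ hd)
  · have h2 := m.2
    rw [cf_inner_ne hq, tyW_of_two (Or.inr hj)] at h2
    exact absurd h2 (by decide)

/-- the hinge in the slot `0` of a `3`, no `1` behind it -/
theorem d3_of (hb : ClassW b) (hL : Loc b zs) (A' : Adj h' i 0 j') (hi : clsW b i = .three)
    (hj : clsW b j' ≠ .one) {X : ℂ} (P : NPos b zs nb p h' i 0 X) :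
    -(4 / 25 * tr 0 (60 / 100) (12 / 100) (27 / 100) X.re) ≤ X.im ∧
      X.im ≤ 3 / 10 * tr 0 (60 / 100) (12 / 100) (27 / 100) X.re := by
  have hT := Th_mem hb hL A' (by rw [hi]; decide)
  have hre := P.re
  have ht := trh_ub (b := b) h' hre.1 hre.2
  rw [hi] at hT
  have hm : ∀ q : Fin 3, mhs b h' q = if clsW b h'.castSucc = .one then 1 / 2 else
      if clsW b h'.castSucc = .two ∧ q = 2 then 3 / 10 else 16 / 100 := by
    intro q
    cases A'
    simp [mhs, hi]
  have key : ∀ {Hu Hd : ℝ}, 0 ≤ Hu → 0 ≤ Hd → Th b zs h' i ≤ Hu → -Hd ≤ Th b zs h' i →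
      (Th b zs h' i ≤ 0 → mhs b h' 2 ≤ Hu) → (0 ≤ Th b zs h' i → mhs b h' 0 ≤ Hd) →
      X.im ≤ Hu * trh b h' X.re ∧ -X.im ≤ Hd * trh b h' X.re := by
    intro Hu Hd u0 d0 u1 d1 h2 h3
    exact P.two' u0 d0 u1 d1 (fun _ => h2) (fun _ => h3)
  have fin : ∀ {XM cl cr Hu Hd : ℝ}, wXM b h' = XM → wcl b h' = cl → wcr b h' = cr →
      X.im ≤ Hu * trh b h' X.re ∧ -X.im ≤ Hd * trh b h' X.re → XM ≤ 60 / 100 → 12 / 100 ≤ cl →
      27 / 100 ≤ cr → Hu ≤ 3 / 10 → Hd ≤ 4 / 25 →
      -(4 / 25 * tr 0 (60 / 100) (12 / 100) (27 / 100) X.re) ≤ X.im ∧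
      X.im ≤ 3 / 10 * tr 0 (60 / 100) (12 / 100) (27 / 100) X.re := by
    intro XM cl cr Hu Hd e1 e2 e3 hX h4 h5 h6 h7 h8
    rw [e1, e2, e3] at ht
    obtain ⟨t0, t1, t2, t3⟩ := ht
    have k1 := mul_le_mul_of_nonneg_right h5 t0
    have k2 := mul_le_mul_of_nonneg_right h6 t0
    have k3 := mul_le_mul_of_nonneg_right h7 t0
    have k4 := mul_le_mul_of_nonneg_right h8 t0
    have h9 : trh b h' X.re ≤ tr 0 (60 / 100) (12 / 100) (27 / 100) X.re :=
      le_tr (by norm_num) (by norm_num) t1 (by linarith) (by linarith)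
    constructor
    · linarith [hX.2]
    · linarith [hX.1]
  cases A' with
  | r =>
    rcases hj' : clsW b h'.castSucc <;> rw [hj'] at hT hm <;> simp only [hbox] at hT
    case one => exact absurd hj' hj
    case two =>
      refine fin (XM := 60 / 100) (cl := 12 / 100) (cr := 27 / 100) (Hu := 3 / 10) (Hd := 16 / 100)
        ?_ ?_ ?_ (key (by norm_num) (by norm_num) (by linarith [hT.2]) (by linarith [hT.1])
          (fun _ => by rw [hm]; simp) (fun h4 => by rw [hm]; simp)) (by norm_num) (by norm_num)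
          (by norm_num) (by norm_num) (by norm_num)
      · unfold wXM; rw [hi, hj']; rfl
      · unfold wcl; rw [hi, hj']; rfl
      · unfold wcr; rw [hi, hj']; rfl
    case three =>
      refine fin (XM := 60 / 100) (cl := 13 / 100) (cr := 30 / 100) (Hu := 16 / 100) (Hd := 16 / 100)
        ?_ ?_ ?_ (key (by norm_num) (by norm_num) (by linarith [hT.2]) (by linarith [hT.1])
          (fun _ => by rw [hm]; simp) (fun h4 => by rw [hm]; simp)) (by norm_num) (by norm_num)
          (by norm_num) (by norm_num) (by norm_num)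
      · unfold wXM; rw [hi, hj']; rfl
      · unfold wcl; rw [hi, hj']; rfl
      · unfold wcr; rw [hi, hj']; rfl
    all_goals
      refine fin (XM := 60 / 100) (cl := 12 / 100) (cr := 30 / 100) (Hu := 16 / 100) (Hd := 16 / 100)
        ?_ ?_ ?_ (key (by norm_num) (by norm_num) (by linarith [hT.2]) (by linarith [hT.1])
          (fun _ => by rw [hm]; simp) (fun h4 => by rw [hm]; simp)) (by norm_num) (by norm_num)
          (by norm_num) (by norm_num) (by norm_num)
      · unfold wXM; rw [hi, hj']; rfl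
      · unfold wcl; rw [hi, hj']; rfl
      · unfold wcr; rw [hi, hj']; rfl

/-! ### side of the `3` -/

section sides

variable {m : {i : Fin (M + 1) // (tyW b i).isMid = true}}

/-- the gain on the side of the `3` -/
def GB (b : Fin (M + 1) → ℤ) (zs : DD (tyW b) ⊕ ZZ (tyW b) → ℂ)
    (nb : Finset (DD (tyW b) ⊕ ZZ (tyW b))) (z : DD (tyW b) ⊕ ZZ (tyW b) → ℂ)
    (p : DD (tyW b) → ℝ) (h : Fin M) (k : Fin (M + 1)) (x c T r δ : ℝ) : Prop :=
  ∃ g, SideG b zs nb z p h k (tg b zs h c) g ∧ Real.pi * (r * T - hx x) + δ < g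

/-- the gain on the side of the `1` -/
def GC (b : Fin (M + 1) → ℤ) (zs : DD (tyW b) ⊕ ZZ (tyW b) → ℂ)
    (nb : Finset (DD (tyW b) ⊕ ZZ (tyW b))) (z : DD (tyW b) ⊕ ZZ (tyW b) → ℂ)
    (p : DD (tyW b) → ℝ) (h : Fin M) (k : Fin (M + 1)) (x c T r δ : ℝ) : Prop :=
  ∃ g, SideG b zs nb z p h k (tg b zs h c) g ∧ -(Real.pi * (r * T + hx x) + δ) < g

theorem gb_keep (hb : ClassW b) (Aj : Adj h m.1 2 i) (hj : clsW b m.1 = .three)
    (eg : tgo b zs h m.1 c = ⟨c, -(r * T)⟩) (e2 : Ow b z m.1 2 = ⟨x, hx x⟩) {l : ℂ}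
    (el : Ow b z m.1 1 = l)
    (hg : Real.pi * (r * T - hx x) + δ < V2 ⟨c, -(r * T)⟩ l - V2 ⟨x, hx x⟩ l) :
    GB b zs nb z p h m.1 x c T r δ := by
  refine ⟨_, keep_three2 (zs := zs) (nb := nb) (z := z) (p := p) (c := c) hb Aj hj, ?_⟩
  rw [KE.V3_VF, KE.V3_VF, eg, e2, el, V2_comm l, V2_comm l]
  linarith

theorem gb_move (hb : ClassW b) (Aj : Adj h m.1 2 i) (hj : clsW b m.1 = .three)
    (hn : Sum.inl (Sum.inr m) ∉ nb)
    (eg : tgo b zs h m.1 c = ⟨c, -(r * T)⟩) (e2 : Ow b z m.1 2 = ⟨x, hx x⟩) {l : ℂ}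
    (el : Ow b z m.1 1 = l) {pm : ℝ} (ep : p (.inr m) = pm) {c' : ℝ} (c0 : 5 / 100 ≤ c')
    (c1 : c' ≤ 75 / 100) {f : ℝ}
    (hf : f ≤ KE.VF (Ow b z m.1 0) ⟨c', SR.Tm b zs m⟩ - KE.VF (Ow b z m.1 0) l + 2 * Real.pi * pm)
    (hg : Real.pi * (r * T - hx x) + δ <
      V2 ⟨c, -(r * T)⟩ ⟨c', SR.Tm b zs m⟩ - V2 ⟨x, hx x⟩ l + f) :
    GB b zs nb z p h m.1 x c T r δ := by
  refine ⟨_, inner_three2 (zs := zs) (nb := nb) (z := z) (p := p) (c := c) hb m Aj hj hn
    (c' := c') (by linarith) (by linarith), ?_⟩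
  rw [KE.V3_VF, KE.V3_VF, eg, e2, el, ep, tgi_3 m hj c0 c1, V2_comm ⟨c', SR.Tm b zs m⟩, V2_comm l]
  linarith

theorem gb_main (hb : ClassW b) (Aj : Adj h m.1 2 i) (hj : clsW b m.1 = .three)
    (hn : Sum.inl (Sum.inr m) ∉ nb)
    (eg : tgo b zs h m.1 c = ⟨c, -(r * T)⟩) (e2 : Ow b z m.1 2 = ⟨x, hx x⟩)
    (el : Ow b z m.1 1 = ⟨y, SR.Tm b zs m * K23.τl y⟩) (ep : p (.inr m) = 0)
    (hU : KR.U3 (Ow b z m.1 0).re (Ow b z m.1 0).im) (w0 : -(123 / 1000) ≤ SR.Tm b zs m)
    (w1 : SR.Tm b zs m ≤ -(15 / 1000)) (y1 : y ≤ 8 / 10) (hg : GM x T c r δ y (SR.Tm b zs m)) :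
    GB b zs nb z p h m.1 x c T r δ := by
  rcases hg with hg | ⟨y0, hg⟩
  · exact gb_keep hb Aj hj eg e2 el hg
  · have hl := lossM hU w0 w1 (by linarith) y1
    refine gb_move hb Aj hj hn eg e2 el ep (c' := 3 / 4) (by norm_num) (by norm_num)
      (f := -(Real.pi * (-SR.Tm b zs m) * (1 - K23.τl y) + 1 / 4 * (y - 3 / 4))) ?_ (by linarith)
    simp only [Complex.eta] at hl
    linarith

theorem gb_up (hb : ClassW b) (Aj : Adj h m.1 2 i) (hj : clsW b m.1 = .three)
    (hn : Sum.inl (Sum.inr m) ∉ nb)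
    (eg : tgo b zs h m.1 c = ⟨c, -(r * T)⟩) (e2 : Ow b z m.1 2 = ⟨x, hx x⟩)
    (el : Ow b z m.1 1 = ⟨y, 16 / 100 * K23.τl y⟩) (ep : p (.inr m) = 16 / 100 * K23.τl y)
    (hU : KR.U3 (Ow b z m.1 0).re (Ow b z m.1 0).im) {q : Prop}
    (hq : q → -(4 / 25 * tr 0 (60 / 100) (12 / 100) (27 / 100) (Ow b z m.1 0).re) ≤
        (Ow b z m.1 0).im ∧
      (Ow b z m.1 0).im ≤ 3 / 10 * tr 0 (60 / 100) (12 / 100) (27 / 100) (Ow b z m.1 0).re)
    (w0 : -(123 / 1000) ≤ SR.Tm b zs m)
    (w1 : SR.Tm b zs m ≤ -(15 / 1000)) (y1 : y ≤ 8 / 10) (hg : GU x T c r δ y (SR.Tm b zs m) q) :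
    GB b zs nb z p h m.1 x c T r δ := by
  rcases hg with hg | ⟨y0, hg⟩ | ⟨y0, w2, hg⟩ | ⟨k, y0, w2, hg⟩
  · exact gb_keep hb Aj hj eg e2 el hg
  · have hl := lossU hU w0 w1 y0 y1
    refine gb_move hb Aj hj hn eg e2 el ep (c' := 3 / 4) (by norm_num) (by norm_num)
      (f := -(Real.pi * (-SR.Tm b zs m) + NumGs.plR y 1145 LU) +
        2 * Real.pi * (16 / 100 * K23.τl y)) ?_ (by linarith)
    simp only [Complex.eta] at hl
    linarith
  · have hl := loss1 hU w2 w1 y0 y1
    refine gb_move hb Aj hj hn eg e2 el ep (c' := 3 / 10) (by norm_num) (by norm_num)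
      (f := -(NumGs.plR y 304 A1 + NumGs.plR y 1845 B1 * (-SR.Tm b zs m - 15 / 1000))) ?_ (by linarith)
    simp only [Complex.eta] at hl
    linarith
  · have hl := loss2 (hq k) hU.q0 hU.q1 w0 w2 y0 y1
    refine gb_move hb Aj hj hn eg e2 el ep (c' := 7 / 20) (by norm_num) (by norm_num)
      (f := -(NumGs.plR y 227 A2 + NumGs.plR y 2180 B2 * (-SR.Tm b zs m - 80 / 1000))) ?_ (by linarith)
    simp only [Complex.eta] at hl
    linarith

/-! ### side of the `1` -/

theorem gc_keep (hb : ClassW b) (A : Adj h i 0 j) (hi : clsW b i = .one)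
    (eg : tgo b zs h i c = ⟨c, r * T⟩) (e0 : Ow b z i 0 = ⟨x, -hx x⟩) {X : ℂ}
    (eX : Ow b z i 2 = X) (hg : GA x T c r δ X) : GC b zs nb z p h i x c T r δ := by
  refine ⟨_, keep_one (zs := zs) (nb := nb) (z := z) (p := p) (c := c) hb A hi, ?_⟩
  have e2 : Ow b z i (0 : Fin 3).rev = X := eX
  rw [eg, e0, e2]
  exact hg

theorem XM11 (A : Adj h i s j) (hi : clsW b i = .one) (hj : clsW b j = .one) :
    wXM b h = 80 / 100 ∨ wXM b h = 86 / 100 := by
  unfold wXM
  cases A <;> rw [hi, hj] <;> simp only [hp] <;> split_ifs <;> norm_num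

/-- the other hinge of the `1`, a `1` behind it -/
theorem gc_one (hb : ClassW b) (L : LocA b zs) (hN : NbT b R nb) (hM : MM b zs R nb z p)
    (hq : ∀ h : Fin M, RH1 b (.inl h) → p (.inl h) = 0) (A : Adj h i 0 j)
    (hn : Sum.inl (Sum.inl h) ∉ nb) (A2 : Adj h' i (0 : Fin 3).rev j') (hi : clsW b i = .one)
    (hP : clsW b j' = .one) (eg : tgo b zs h i c = ⟨c, r * T⟩) (e0 : Ow b z i 0 = ⟨x, -hx x⟩)
    (hC : C1 x T c r δ) (hX : K13.XC x c) (hr : τx c = r) (d0 : 0 ≤ δ)
    (d1 : 62 / 100 ≤ x → 1 / 100 ≤ δ) (T0 : 21 / 1000 ≤ T) (T1 : T ≤ 801 / 10000)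
    (K0 : -(91 / 1000) ≤ Th b zs h' i) (K1 : Th b zs h' i ≤ 49 / 1000)
    (TK : T + Th b zs h' i ≤ 111 / 1000) : GC b zs nb z p h i x c T r δ := by
  have P : NPos b zs nb p h' i 2 (Ow b z i 2) := hM.npos hb hN hq A hn A2
  obtain ⟨hw, hcl, hcr⟩ := K12.par_one_one A2 hi hP
  have etr : ∀ y, trh b h' y = tr 0 (wXM b h') (15 / 100) (20 / 100) y := fun y => by
    unfold trh
    rw [hcl, hcr]
  have hm : ∀ q, mhs b h' q = 16 / 100 := mhs_adj A2 (by rw [hi]; simp) (by rw [hP]; simp)
  have main : ∀ S y : ℝ, -(160 / 1000) ≤ S → S ≤ 49 / 1000 → T + S ≤ 111 / 1000 → 0 ≤ y →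
      y ≤ wXM b h' → Ow b z i 2 = ⟨y, S * trh b h' y⟩ → GC b zs nb z p h i x c T r δ := by
    intro S y s0 s1 s2 y0 y1 e
    obtain ⟨ρ, r0, r1, er⟩ := ratio (y := y) hw
    have e' : Ow b z i 2 = ⟨y, (S * ρ) * τ1 y⟩ := by rw [e, etr, er, mul_assoc]
    have k : (0 ≤ S ∧ 0 ≤ S * ρ ∧ S * ρ ≤ S) ∨ (S ≤ 0 ∧ S ≤ S * ρ ∧ S * ρ ≤ 0) := by
      rcases le_total 0 S with h1 | h1
      · have h2 := mul_nonneg h1 r0
        have h3 := mul_le_mul_of_nonneg_left r1 h1
        left
        refine ⟨h1, h2, by linarith⟩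
      · have h2 := mul_nonneg (neg_nonneg.2 h1) r0
        have h3 := mul_le_mul_of_nonneg_left r1 (neg_nonneg.2 h1)
        right
        refine ⟨h1, by linarith, by linarith⟩
    have y2 : y ≤ 86 / 100 := y1.trans hw
    rcases k with ⟨k0, k1, k2⟩ | ⟨k0, k1, k2⟩
    · exact gc_keep hb A hi eg e0 e' (sideA1 hC T0 T1 y0 y2 (by linarith) (by linarith)
        (by linarith))
    · exact gc_keep hb A hi eg e0 e' (sideA1 hC T0 T1 y0 y2 (by linarith) (by linarith)
        (by linarith))
  cases P with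
  | main y y0 y1 hn' e hp => exact main _ y (by linarith) K1 TK y0 y1 e
  | real y y0 y1 hn' e hp =>
    exact main 0 y (by norm_num) (by norm_num) (by linarith) y0 y1 (by rw [e, zero_mul])
  | dn y y0 y1 hn' hr' hT e hp =>
    refine main (-(16 / 100)) y (by norm_num) (by norm_num) (by linarith) y0 y1 ?_
    rw [e, hm, neg_mul]
  | up y y0 y1 hn' hr' hT e hp =>
    rw [hm] at e hp
    have B2 : Adj h' j' 0 i := A2.symm
    obtain ⟨h3, j3, A3⟩ := B2.other' b (clsW_inner hb (Or.inl hP))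
    have A3' : Adj h3 j' 2 j3 := A3
    have P3 : NPos b zs nb p h3 j' 2 (Ow b z j' 2) := hM.npos hb hN hq B2 hn' A3
    have hDq : K13.Dq (Ow b z j' 2) := by
      rcases MKA.one_pos hb L.L A3' hP P3 with h1 | ⟨-, -, h1, h2, h3⟩
      · exact Or.inl h1
      · exact Or.inr ⟨h1, h2, h3⟩
    have hXM := XM11 A2 hi hP
    have hk := K13.upA hX T0 (T1.trans (by norm_num)) K0 hT hXM y0 y1 d0 d1 hDq
    have ec : tr 0 (65 / 100) (15 / 100) (29 / 100) c = r := hr
    have ex : 4 / 25 * tr 0 (65 / 100) (15 / 100) (29 / 100) x = hx x := by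
      unfold hx τx
      norm_num
    have ey : 4 / 25 * tr 0 (wXM b h') (15 / 100) (20 / 100) y = 16 / 100 * trh b h' y := by
      rw [etr]
      norm_num
    rw [ec, ex, ey, mul_comm T r, ← etr (3 / 20)] at hk
    rcases hk with hk | hk
    · exact gc_keep hb A hi eg e0 e hk
    · have hXM3 : (3 : ℝ) / 20 ≤ wXM b h' := by rcases hXM with h1 | h1 <;> rw [h1] <;> norm_num
      have F := FarG.one (zs := zs) (z := z) (p := p) (c := 3 / 20) hb B2 hP hn' (by norm_num) hXM3
      refine ⟨_, far_one (c := c) hb A A2 hi F, ?_⟩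
      have e1 : Th b zs h' j' = -Th b zs h' i :=
        ofs_neg_of_opp (sign_adj hb A2 (by rw [hi]; decide)) _
      have e2 : Ow b z j' 0 = ⟨y, -(16 / 100 * trh b h' y)⟩ := by
        have h1 : Ow b z j' 0 = ⟨(Ow b z i 2).re, -(Ow b z i 2).im⟩ :=
          Ow_rev hb A2 (by rw [hi]; decide)
        rw [h1, e]
      have e3 : tgo b zs h' i (3 / 20) = ⟨3 / 20, Th b zs h' i * trh b h' (3 / 20)⟩ := rfl
      have e4 : tgo b zs h' j' (3 / 20) = ⟨3 / 20, -(Th b zs h' i * trh b h' (3 / 20))⟩ := by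
        unfold tgo
        rw [e1, neg_mul]
      have er : (Fin.rev 0 : Fin 3) = 2 := rfl
      rw [er, ofr_tg, eg, e0, e, e2, e3, e4, hp]
      linarith

/-- a position without penalty -/
theorem flat0 {X : ℂ} (P : NPos b zs nb p h' i s X) (h0 : p (.inl h') = 0) :
    ∃ y, 0 ≤ y ∧ y ≤ wXM b h' ∧ (X = ⟨y, Th b zs h' i * trh b h' y⟩ ∨
      (Sum.inl (Sum.inl h') ∈ nb ∧ X = ⟨y, 0⟩)) := by
  cases P with
  | main y y0 y1 hn e hp => exact ⟨y, y0, y1, Or.inl e⟩
  | real y y0 y1 hn e hp => exact ⟨y, y0, y1, Or.inr ⟨hn, e⟩⟩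
  | up y y0 y1 hn hr hT e hp =>
    refine ⟨y, y0, y1, Or.inl ?_⟩
    have h1 : trh b h' y = 0 := by
      have h2 : mhs b h' s.rev * trh b h' y = 0 := by rw [← hp, h0]
      rcases mul_eq_zero.1 h2 with h3 | h3
      · exact absurd h3 (mhs_pos (b := b) h' s.rev).ne'
      · exact h3
    rw [e, h1]
    simp
  | dn y y0 y1 hn hr hT e hp =>
    refine ⟨y, y0, y1, Or.inl ?_⟩
    have h1 : trh b h' y = 0 := by
      have h2 : mhs b h' s * trh b h' y = 0 := by rw [← hp, h0]
      rcases mul_eq_zero.1 h2 with h3 | h3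
      · exact absurd h3 (mhs_pos (b := b) h' s).ne'
      · exact h3
    rw [e, h1]
    simp

/-- the other hinge of the `1`, a `2` behind it -/
theorem gc_two (hb : ClassW b) (hN : NbT b R nb) (hM : MM b zs R nb z p)
    (hq : ∀ h : Fin M, RH1 b (.inl h) → p (.inl h) = 0) (A : Adj h i 0 j)
    (hn : Sum.inl (Sum.inl h) ∉ nb) (A2 : Adj h' i (0 : Fin 3).rev j') (hi : clsW b i = .one)
    (hP : clsW b j' = .two) (hp0 : p (.inl h') = 0) (eg : tgo b zs h i c = ⟨c, r * T⟩)
    (e0 : Ow b z i 0 = ⟨x, -hx x⟩) (hC : C2 x T c r δ) (T0 : 46 / 1000 ≤ T)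
    (T1 : T ≤ 894 / 10000) (K0 : 10 / 1000 ≤ Th b zs h' i) (K1 : Th b zs h' i ≤ 77 / 1000)
    (TK : T + Th b zs h' i ≤ 148 / 1000) : GC b zs nb z p h i x c T r δ := by
  have P : NPos b zs nb p h' i 2 (Ow b z i 2) := hM.npos hb hN hq A hn A2
  have hw := K12.par_one_two A2 (Or.inl ⟨hi, hP⟩)
  obtain ⟨y, y0, y1, h1⟩ := flat0 P hp0
  rw [hw.1] at y1
  rcases h1 with e | ⟨-, e⟩
  · have e' : Ow b z i 2 = ⟨y, Th b zs h' i * τ2 y⟩ := by
      rw [e, trh_eq hw]
      rfl
    exact gc_keep hb A hi eg e0 e' (sideA2 hC T0 T1 y0 y1 K0 K1 TK)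
  · have e' : Ow b z i 2 = ⟨y, 0 * τ1 y⟩ := by rw [e, zero_mul]
    exact gc_keep hb A hi eg e0 e' (sideA2r hC (by linarith) T1 y0 (by linarith) (by norm_num)
      (by norm_num) (by linarith))

/-- the other hinge of the `1`, a `2` at an end behind it -/
theorem gc_twoE (hb : ClassW b) (hN : NbT b R nb) (hM : MM b zs R nb z p)
    (hq : ∀ h : Fin M, RH1 b (.inl h) → p (.inl h) = 0) (A : Adj h i 0 j)
    (hn : Sum.inl (Sum.inl h) ∉ nb) (A2 : Adj h' i (0 : Fin 3).rev j') (hi : clsW b i = .one)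
    (hP : clsW b j' = .twoE) (hp0 : p (.inl h') = 0) (eg : tgo b zs h i c = ⟨c, r * T⟩)
    (e0 : Ow b z i 0 = ⟨x, -hx x⟩) (hC : CE x c r) (T0 : 87 / 1000 ≤ T)
    (T1 : T ≤ 1145 / 10000) (K0 : -(45 / 1000) ≤ Th b zs h' i)
    (K1 : Th b zs h' i ≤ -(25 / 1000)) (TK : T + Th b zs h' i ≤ 77 / 1000) :
    GC b zs nb z p h i x c T r (-(70 / 1000)) := by
  have P : NPos b zs nb p h' i 2 (Ow b z i 2) := hM.npos hb hN hq A hn A2
  have hw := K12.par_one_twoE A2 hi hP
  have hn' : Sum.inl (Sum.inl h') ∉ nb := nn_twoE hN A2 (hN.not_tch A hn) hP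
  obtain ⟨y, y0, y1, h1⟩ := flat0 P hp0
  rw [hw.1] at y1
  rcases h1 with e | ⟨h2, -⟩
  swap
  · exact absurd h2 hn'
  have e' : Ow b z i 2 = ⟨y, Th b zs h' i * τe y⟩ := by
    rw [e, trh_eq hw]
    rfl
  rcases sideAE hC T0 T1 y0 y1 K0 K1 TK with hg | hg
  · exact gc_keep hb A hi eg e0 e' hg
  · have B2 : Adj h' j' 0 i := A2.symm
    have F := FarG.twoE (zs := zs) (z := z) (p := p) (c := 1 / 4) hb B2 hP hn' (by norm_num)
      (by rw [hw.1]; norm_num)
    refine ⟨_, far_one (c := c) hb A A2 hi F, ?_⟩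
    have e1 : Th b zs h' j' = -Th b zs h' i :=
      ofs_neg_of_opp (sign_adj hb A2 (by rw [hi]; decide)) _
    have e2 : Ow b z j' 0 = ⟨y, -(Th b zs h' i * τe y)⟩ := by
      have h1 : Ow b z j' 0 = ⟨(Ow b z i 2).re, -(Ow b z i 2).im⟩ :=
        Ow_rev hb A2 (by rw [hi]; decide)
      rw [h1, e']
    have eT : trh b h' (1 / 4) = 1 :=
      trh_M (by rw [hw.2.1]; norm_num) (by rw [hw.1, hw.2.2]; norm_num)
    have e3 : tgo b zs h' i (1 / 4) = ⟨1 / 4, Th b zs h' i⟩ := by
      unfold tgo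
      rw [eT, mul_one]
    have e4 : tgo b zs h' j' (1 / 4) = ⟨1 / 4, -Th b zs h' i⟩ := by
      unfold tgo
      rw [e1, eT, mul_one]
    have er : (Fin.rev 0 : Fin 3) = 2 := rfl
    rw [er, ofr_tg, eg, e0, e', e2, e3, e4, hp0]
    linarith

/-- the two sides together -/
theorem both (hb : ClassW b) (hN : NbT b R nb) (hM : MM b zs R nb z p)
    (D : Md b zs nb z p h i 0 j x) (h16 : mhs b h 0 = 16 / 100) (et : trh b h x = τx x)
    (c0 : 0 ≤ c) (c1 : c ≤ wXM b h) (k1 : GC b zs nb z p h i x c T r δ)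
    (k2 : GB b zs nb z p h j x c T r δ) : False := by
  obtain ⟨g1, s1, l1⟩ := k1
  obtain ⟨g2, s2, l2⟩ := k2
  have h1 := D.star hb hN.ok.1 hM c0 c1 s1 s2
  rw [h16, et] at h1
  have h2 : hx x = 16 / 100 * τx x := rfl
  rw [h2] at l1 l2
  linarith

end sides

end K3b

namespace SR

/-- **Kind `1 | 3`**, the `3` at its slot `2`, from the kinds `1 | 2`. -/
theorem kind_one_three0_of (hb : ClassW b) (L : LocA b zs) (L6 : LocM6 b zs) (L7 : LocM7 b zs)
    (k12 : ∀ s, Kd b zs .one .two s) : Kd b zs .one .three 0 := by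
  intro R nb z p h i j x hN hM hq D hi hj
  obtain ⟨m, rfl⟩ : ∃ m : {i : Fin (M + 1) // (tyW b i).isMid = true}, m.1 = j :=
    ⟨⟨j, tyW_isMid (Or.inl hj)⟩, rfl⟩
  have Aj : Adj h m.1 2 i := D.adj.symm
  obtain ⟨hnn, I⟩ := hM.ipos hN m D.adj.symm D.nn
  obtain ⟨h2, j2, A2⟩ := D.adj.other' b (clsW_inner hb (Or.inl hi))
  have A2' : Adj h2 i 2 j2 := A2
  obtain ⟨h0, j0, A0⟩ := Aj.other' b (clsW_inner hb (Or.inr (Or.inr hj)))
  have A0' : Adj h0 m.1 0 j0 := A0
  have P0 : NPos b zs nb p h0 m.1 0 (Ow b z m.1 0) := hM.npos hb hN hq Aj D.nn A0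
  have hU := P0.u3 hb L.L A0' hj
  -- windows of the other hinge of the `1`
  obtain ⟨w0, w1, -, w3⟩ := L.X.win D.adj A2 hi
  obtain ⟨v0, v1, -, -⟩ := L.X.win A2 D.adj hi
  have w0 : (cw (clsW b j2) (clsW b m.1)).t0 ≤ Th b zs h i := w0
  have w1 : Th b zs h i ≤ (cw (clsW b j2) (clsW b m.1)).t1 := w1
  have w3 : Th b zs h i + Th b zs h2 i ≤ (cw (clsW b j2) (clsW b m.1)).s1 := w3
  have v0 : (cw (clsW b m.1) (clsW b j2)).t0 ≤ Th b zs h2 i := v0
  have v1 : Th b zs h2 i ≤ (cw (clsW b m.1) (clsW b j2)).t1 := v1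
  have hk := okp_of hb D.adj A2 hi
  rw [hj] at w0 w1 w3 v0 v1 hk
  -- windows of the inner variable
  obtain ⟨m0, m1, -, -⟩ := L.X.mid m.2 A0' Aj hj
  rw [hi] at m0 m1
  have m0 : (mw (clsW b j0) .one).t0 ≤ SR.Tm b zs m := m0
  have m1 : SR.Tm b zs m ≤ (mw (clsW b j0) .one).t1 := m1
  have n0 : -(123 / 1000) ≤ SR.Tm b zs m ∧ SR.Tm b zs m ≤ -(15 / 1000) := by
    rcases hQ : clsW b j0 <;> rw [hQ] at m0 m1 <;> simp only [mw] at m0 m1 <;>
      constructor <;> linarith
  have n90 : clsW b j0 ≠ .one ∨ -(90 / 1000) ≤ SR.Tm b zs m := by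
    by_cases hQ : clsW b j0 = .one
    · right
      rw [hQ] at m0
      simpa only [mw] using m0
    · exact Or.inl hQ
  have hD3 : clsW b j0 ≠ .one →
      -(4 / 25 * tr 0 (60 / 100) (12 / 100) (27 / 100) (Ow b z m.1 0).re) ≤ (Ow b z m.1 0).im ∧
      (Ow b z m.1 0).im ≤ 3 / 10 * tr 0 (60 / 100) (12 / 100) (27 / 100) (Ow b z m.1 0).re :=
    fun hQ => K3b.d3_of hb L.L A0' hj hQ P0
  -- the hinge
  have hX : wXM b h = 65 / 100 ∧ wcl b h = 15 / 100 ∧ wcr b h = 29 / 100 :=
    K12.par_one_three0 D.adj hi hj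
  have h16 : mhs b h 0 = 16 / 100 := mhs_adj D.adj (by rw [hi]; simp) (by simp) 0
  have x0 := D.x0.le
  have x1 := D.x1.le
  rw [hX.1] at x1
  have et : ∀ y, trh b h y = K3b.τx y := fun y => trh_eq hX y
  have e0 : Ow b z i 0 = ⟨x, -K3b.hx x⟩ := by
    rw [D.own, h16, et]
    rfl
  have e2 : Ow b z m.1 2 = ⟨x, K3b.hx x⟩ := by
    have h1 : Ow b z m.1 2 = ⟨x, mhs b h 0 * trh b h x⟩ := D.opp
    rw [h1, h16, et]
    rfl
  have eg : ∀ {c r : ℝ}, K3b.τx c = r → tgo b zs h i c = ⟨c, r * Th b zs h i⟩ := by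
    intro c r hr
    unfold tgo
    rw [et, hr, mul_comm]
  have eg' : ∀ {c r : ℝ}, K3b.τx c = r → tgo b zs h m.1 c = ⟨c, -(r * Th b zs h i)⟩ := by
    intro c r hr
    unfold tgo
    rw [et, hr, D.Tj, neg_mul, mul_comm]
  have y1' : (mp (clsW b m.1)).XM = 8 / 10 := by rw [hj]; rfl
  have etl : ∀ y, trm b m y = K23.τl y := fun y => trm3 m hj y
  -- the side of the `3`
  have sB : ∀ {c r δ : ℝ} {q : Prop}, K3b.τx c = r → (q → clsW b j0 ≠ .one) →
      (∀ y, 0 ≤ y → y ≤ 8 / 10 → K3b.GM x (Th b zs h i) c r δ y (SR.Tm b zs m)) →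
      (∀ y, 0 ≤ y → y ≤ 8 / 10 → K3b.GU x (Th b zs h i) c r δ y (SR.Tm b zs m) q) →
      K3b.GB b zs nb z p h m.1 x c (Th b zs h i) r δ := by
    intro c r δ q hr hq' g1 g2
    cases I with
    | main y y0 y1 e hp =>
      rw [y1'] at y1
      rw [etl] at e
      exact K3b.gb_main hb Aj hj hnn (eg' hr) e2 e hp hU n0.1 n0.2 y1 (g1 y y0 y1)
    | up y y0 y1 hT e hp =>
      rw [y1'] at y1
      rw [etl] at e hp
      exact K3b.gb_up hb Aj hj hnn (eg' hr) e2 e hp hU (fun k => hD3 (hq' k)) n0.1 n0.2 y1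
        (g2 y y0 y1)
    | dn y y0 y1 hT e hp => linarith [n0.2]
  rcases hP : clsW b j2 <;> rw [hP] at w0 w1 w3 v0 v1 hk
  · -- a `1`
    simp only [cw] at w0 w1 w3 v0 v1
    have T1 : Th b zs h i ≤ 801 / 10000 := L6.one A0' Aj A2' hj hi hP
    have hl : Th b zs h i + SR.Tm b zs m ≤ 512 / 10000 := L6.line m.2 A0' Aj A2' hj hi (Or.inl hP)
    obtain ⟨c, r, δ, hC, hXC, hr, c0, c1, d0, d1⟩ := K3b.ex1 (T := Th b zs h i) x0 x1 T1
    have k1 := K3b.gc_one hb L hN hM hq D.adj D.nn A2 hi hP (eg hr) e0 hC hXC hr d0 d1 w0 T1 v0 v1 w3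
    have k2 : K3b.GB b zs nb z p h m.1 x c (Th b zs h i) r δ := sB hr id
      (fun y y0 y1 => K3b.sideB1m hC w0 T1 n0.1 n0.2 hl y0 y1)
      (fun y y0 y1 => K3b.sideB1u hC w0 T1 n0.1 n0.2 hl y0 y1 n90)
    exact K3b.both hb hN hM D h16 (et x) c0 (by rw [hX.1]; exact c1) k1 k2
  · -- a `2`
    simp only [cw] at w0 w1 w3 v0 v1
    have T1 : Th b zs h i ≤ 894 / 10000 := L6.two A0' Aj A2' hj hi hP
    have hl : Th b zs h i + SR.Tm b zs m ≤ 512 / 10000 := L6.line m.2 A0' Aj A2' hj hi (Or.inr hP)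
    have n80 : clsW b j0 ≠ .one ∨ -(80 / 1000) ≤ SR.Tm b zs m := by
      by_cases hQ : clsW b j0 = .one
      · exact Or.inr (L7.low A0' Aj A2' hj hi hQ hP m.2)
      · exact Or.inl hQ
    have hp0 : p (.inl h2) = 0 := K12.p_zero hb hN hM A2' (by rw [hi]; decide) (by rw [hP]; decide)
      (fun x D' => k12 _ hN hM hq D' hi hP) (fun x D' => kd_two_one hb L _ hN hM hq D' hP hi)
    obtain ⟨c, r, δ, hC, hr, c0, c1⟩ := K3b.ex2 (T := Th b zs h i) x0 x1
    have k1 := K3b.gc_two hb hN hM hq D.adj D.nn A2 hi hP hp0 (eg hr) e0 hC w0 T1 v0 v1 w3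
    have k2 : K3b.GB b zs nb z p h m.1 x c (Th b zs h i) r δ := sB hr id
      (fun y y0 y1 => K3b.sideB2m hC w0 T1 n0.1 n0.2 hl y0 y1)
      (fun y y0 y1 => K3b.sideB2u hC w0 T1 n0.1 n0.2 hl y0 y1 n80)
    exact K3b.both hb hN hM D h16 (et x) c0 (by rw [hX.1]; exact c1) k1 k2
  · -- a `2` at an end
    simp only [cw] at w0 w1 w3 v0 v1
    have hp0 : p (.inl h2) = 0 := K12.p_zero hb hN hM A2' (by rw [hi]; decide) (by rw [hP]; decide)
      (fun x D' => kd_one_twoE hb L _ hN hM hq D' hi hP)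
      (fun x D' => kd_twoE_one hb L _ hN hM hq D' hP hi)
    obtain ⟨c, r, hC, hr, c0, c1⟩ := K3b.exE x0 x1
    have k1 := K3b.gc_twoE hb hN hM hq D.adj D.nn A2 hi hP hp0 (eg hr) e0 hC w0 w1 v0 v1 w3
    have k2 : K3b.GB b zs nb z p h m.1 x c (Th b zs h i) r (-(70 / 1000)) := sB hr id
      (fun y y0 y1 => K3b.sideEm hC w0 w1 n0.1 n0.2 y0 y1)
      (fun y y0 y1 => K3b.sideEu hC w0 w1 n0.1 n0.2 y0 y1 n90)
    exact K3b.both hb hN hM D h16 (et x) c0 (by rw [hX.1]; exact c1) k1 k2
  all_goals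
    exfalso
    unfold ML.okp at hk
    simp at hk

/-- **Kind `1 | 3`**, the `3` at its slot `2`. -/
theorem kd_one_three0 (hb : ClassW b) (L : LocA b zs) (L6 : LocM6 b zs) (L7 : LocM7 b zs) :
    Kd b zs .one .three 0 :=
  kind_one_three0_of hb L L6 L7
    (kind_one_two hb L (kind_two_two hb L) (kind_twoE_two hb L)
      (kind_two_three' hb L (kind_threeE_two hb L 0) (kind_three_two hb L))
      (kind_three_two hb L) (kind_three_two' hb L) (kind_two_threeE hb L)
      (kind_threeE_two hb L))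

end SR

end Pool.Agent.Work.MP_b30479_gtS.G2

end
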