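import Pool.Agent.Work.MP_b30479_gt.TBS.G2.WM_3b3aD
import Pool.Agent.Work.MP_b30479_gt.TBS.G2.WM_2_3aE
import Pool.Agent.Work.MP_b30479_gt.TBS.G2.WMF3r13
import Pool.Agent.Work.MP_b30479_gt.TBS.G2.WMGf5s1
import Pool.Agent.Work.MP_b30479_gt.TBS.G2.WM_3b3aR2
import Pool.Agent.Work.MP_b30479_gt.TBS.G2.WM_3b3aR5
import Pool.Agent.Work.MP_b30479_gt.TBS.G2.WM_3b3aR7
import Pool.Agent.Work.MP_b30479_gt.TBS.G2.WM_3b3aR8
import Pool.Agent.Work.MP_b30479_gt.TBS.G2.WMHbr3

section

/-!
# The kind `3 | 3` (slot `2` of the lower one, slot `0` of the upper one): values of the expressions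

Variables of the rows: position `x` and height `T` of the saddle point of the hinge, position and
height of the inner variable of the upper `3`.
-/

namespace Pool.Agent.Work.MP_b30479_gtS.G2

open Finset VOL Filter Topology

namespace KJ3

open NumGs

/-! ### values -/

noncomputable def τ (x : ℝ) : ℝ := tr 0 (6 / 10) (13 / 100) (3 / 10) x

variable {x T y w : ℝ}

theorem hh_val : hh.val [x, T, y, w] = 16 / 100 * τ x := by
  unfold hh τ
  rw [E.val, E.tr_val (by norm_num) (by norm_num) (by norm_num), K23.e0_val]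
  norm_num [E.val]

theorem tm_val : tm.val [x, T, y, w] = w * K23.τl y := by
  unfold tm K23.τl
  rw [E.val, E.tr_val (by norm_num) (by norm_num) (by norm_num), K23.e2_val, K23.e3_val]
  norm_num

theorem tu_val : tu.val [x, T, y, w] = 16 / 100 * K23.τl y := by
  unfold tu K23.τl
  rw [E.val, E.tr_val (by norm_num) (by norm_num) (by norm_num), K23.e2_val]
  norm_num [E.val]

theorem g0_val {a : E} : (g0 a).val [x, T, y, w] =
    a.val [x, T, y, w] + 2 * Real.pi * (16 / 100 * τ x) := by
  unfold g0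
  have e3 : (((E.q 2 1).mul E.pi).mul hh).val [x, T, y, w] = 2 * Real.pi * (16 / 100 * τ x) := by
    show ((E.q 2 1).val [x, T, y, w] * Real.pi) * hh.val [x, T, y, w] = _
    rw [hh_val]
    norm_num [E.val]
  rw [E.val, e3]

theorem kp_val {a c t s : E} : (kp a c t s).val [x, T, y, w] =
    a.val [x, T, y, w] + 2 * Real.pi * (16 / 100 * τ x) +
      (KE.VA ⟨c.val [x, T, y, w], -t.val [x, T, y, w]⟩ ⟨y, s.val [x, T, y, w]⟩ -
        KE.VA ⟨x, 16 / 100 * τ x⟩ ⟨y, s.val [x, T, y, w]⟩) := by
  unfold kp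
  have e2 : (E.neg t).val [x, T, y, w] = -t.val [x, T, y, w] := rfl
  rw [E.val, E.val, g0_val, KE.eVA_val, KE.eVA_val, hh_val, K23.e0_val, K23.e2_val, e2]

theorem Vf_val {x t y s : E} {xs : List ℝ} :
    (Vf x t y s).val xs = KE.VF ⟨x.val xs, t.val xs⟩ ⟨y.val xs, s.val xs⟩ := K23.Vf_val

theorem rs_val {a c t m s p : E} : (rs a c t m s p).val [x, T, y, w] =
    a.val [x, T, y, w] + 2 * Real.pi * (16 / 100 * τ x) +
      (KE.VF ⟨c.val [x, T, y, w], -t.val [x, T, y, w]⟩ ⟨m.val [x, T, y, w], w⟩ -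
        KE.VF ⟨x, 16 / 100 * τ x⟩ ⟨y, s.val [x, T, y, w]⟩) + p.val [x, T, y, w] := by
  unfold rs
  have e2 : (E.neg t).val [x, T, y, w] = -t.val [x, T, y, w] := rfl
  rw [E.val, E.val, E.val, g0_val, Vf_val, Vf_val, hh_val, K23.e0_val, K23.e2_val,
    K23.e3_val, e2]

theorem pM_val : pM.val [x, T, y, w] = plR y 120 F3.fa - w * plR y 2600 F3.fb := by
  have e1 : F3.fa = fa := rfl
  have e2 : F3.fb = fb := rfl
  rw [e1, e2]
  unfold pM
  rw [E.val, E.val, E.pl_val, E.pl_val, K23.e2_val, K23.e3_val]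

theorem pU_val : pU.val [x, T, y, w] = plR y 120 F3.fu - w * plR y 2600 F3.fv := by
  have e1 : F3.fu = fu := rfl
  have e2 : F3.fv = fv := rfl
  rw [e1, e2]
  unfold pU
  rw [E.val, E.val, E.pl_val, E.pl_val, K23.e2_val, K23.e3_val]

theorem pD_val : pD.val [x, T, y, w] = plR y 120 F3.fd - w * (24 / 10) := by
  have e1 : F3.fd = fd := rfl
  rw [e1]
  unfold pD
  rw [E.val, E.val, E.pl_val, K23.e2_val, K23.e3_val]
  norm_num [E.val]
  ring

theorem p45_val : p45.val [x, T, y, w] = -KE.ψ45 y := by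
  have e : p45 = .neg (KE.e45 (.var 2)) := rfl
  rw [e, E.val, KE.e45_val, K23.e2_val]

theorem p60_val : p60.val [x, T, y, w] = plR y 8 l60a - w * plR y 58 l60b := by
  unfold p60
  rw [E.val, E.val, E.pl_val, E.pl_val, K23.e2_val, K23.e3_val]

theorem f60_val : f60.val [x, T, y, w] =
    V2 ⟨6 / 10, T⟩ ⟨y, w * (16 / 100 * tr 0 (65 / 100) (13 / 100) (29 / 100) y)⟩ -
      V2 ⟨x, T * tr 0 (8 / 10) (5 / 100) (5 / 100) x⟩
        ⟨y, w * (16 / 100 * tr 0 (65 / 100) (13 / 100) (29 / 100) y)⟩ -
      (plR x 8 l60a - T * plR x 58 l60b) := by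
  have e : f60 = .sub (KE.gL 6000 (.mul (.var 1) (KE.tL (.var 0))))
    (.sub (E.pl (.var 0) 8 l60a) (.mul (.var 1) (E.pl (.var 0) 58 l60b))) := rfl
  rw [e, E.val, E.val, E.val, KE.gL_val, E.pl_val, E.pl_val, K23.e0_val, K23.e1_val, E.val, KE.tL_val,
    K23.e0_val, K23.e1_val]
  norm_num

theorem a20_val : a20.val [x, T, y, w] = plR x (90) l20 := by
  unfold a20
  rw [E.pl_val, K23.e0_val]

theorem a25_val : a25.val [x, T, y, w] = plR x (-65) l25 := by
  unfold a25
  rw [E.pl_val, K23.e0_val]

theorem a30_val : a30.val [x, T, y, w] = plR x (-87) l30 := by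
  unfold a30
  rw [E.pl_val, K23.e0_val]

theorem a35_val : a35.val [x, T, y, w] = plR x (-92) l35 := by
  unfold a35
  rw [E.pl_val, K23.e0_val]

theorem a40_val : a40.val [x, T, y, w] = plR x (-112) l40 := by
  unfold a40
  rw [E.pl_val, K23.e0_val]

theorem c20 : (E.c 2000).val [x, T, y, w] = 2 / 10 := by norm_num [E.val, E.c]
theorem c25 : (E.c 2500).val [x, T, y, w] = 25 / 100 := by norm_num [E.val, E.c]
theorem c30 : (E.c 3000).val [x, T, y, w] = 3 / 10 := by norm_num [E.val, E.c]
theorem c35 : (E.c 3500).val [x, T, y, w] = 35 / 100 := by norm_num [E.val, E.c]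
theorem c40 : (E.c 4000).val [x, T, y, w] = 4 / 10 := by norm_num [E.val, E.c]
theorem c45 : (E.c 4500).val [x, T, y, w] = 45 / 100 := by norm_num [E.val, E.c]
theorem c60 : (E.c 6000).val [x, T, y, w] = 6 / 10 := by norm_num [E.val, E.c]

theorem t1 : (E.var 1).val [x, T, y, w] = T := rfl
theorem t35 : (E.mul (.q 5 6) (.var 1)).val [x, T, y, w] = T * (5 / 6) := by
  rw [E.val, K23.e1_val]
  norm_num [E.val]
  ring
theorem t40 : (E.mul (.q 2 3) (.var 1)).val [x, T, y, w] = T * (2 / 3) := by
  rw [E.val, K23.e1_val]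
  norm_num [E.val]
  ring
theorem nu_val : (E.neg tu).val [x, T, y, w] = -(16 / 100 * K23.τl y) := by
  rw [E.val, tu_val]

end KJ3

end Pool.Agent.Work.MP_b30479_gtS.G2

end

section

/-!
# Mirrored paths: the kind `3 | 3`, slot `2` of the lower one and slot `0` of the upper one
-/

namespace Pool.Agent.Work.MP_b30479_gtS.G2

open Finset VOL Filter Topology

namespace KJ3

/-- the inner variable on its main path to `6/10` -/
theorem far60 {y T : ℝ} {w : ℂ} (y0 : 7 / 10 ≤ y) (y1 : y ≤ 8 / 10) (T0 : -(114 / 1000) ≤ T)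
    (T1 : T ≤ -(50 / 1000)) (hw : KE.W3 w) :
    NumGs.plR y 8 l60a - T * NumGs.plR y 58 l60b <
      V2 ⟨6 / 10, T⟩ w - V2 ⟨y, T * tr 0 (8 / 10) (5 / 100) (5 / 100) y⟩ w := by
  obtain ⟨θ, t0, t1, e⟩ := hw.par
  have w0 := hw.w0
  have w1 := hw.w1
  have key : 0 < f60.val [y, T, w.re, θ] := by
    rcases le_total y (75 / 100) with h1 | h1
    · rcases le_total w.re (13 / 100) with h2 | h2
      · exact KE.chk1 r_g60a0 (by norm_num) (by constructor <;> push_cast <;> linarith only [y0, h1])
          (by constructor <;> push_cast <;> linarith only [T0, T1]) (by constructor <;> push_cast <;> linarith only [w0, h2])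
          (by constructor <;> push_cast <;> linarith only [t0, t1])
      rcases le_total w.re (36 / 100) with h3 | h3
      · exact KE.chk1 r_g60a1 (by norm_num) (by constructor <;> push_cast <;> linarith only [y0, h1])
          (by constructor <;> push_cast <;> linarith only [T0, T1]) (by constructor <;> push_cast <;> linarith only [h2, h3])
          (by constructor <;> push_cast <;> linarith only [t0, t1])
      · exact KE.chk1 r_g60a2 (by norm_num) (by constructor <;> push_cast <;> linarith only [y0, h1])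
          (by constructor <;> push_cast <;> linarith only [T0, T1]) (by constructor <;> push_cast <;> linarith only [h3, w1])
          (by constructor <;> push_cast <;> linarith only [t0, t1])
    · rcases le_total w.re (13 / 100) with h2 | h2
      · exact KE.chk1 r_g60b0 (by norm_num) (by constructor <;> push_cast <;> linarith only [h1, y1])
          (by constructor <;> push_cast <;> linarith only [T0, T1]) (by constructor <;> push_cast <;> linarith only [w0, h2])
          (by constructor <;> push_cast <;> linarith only [t0, t1])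
      rcases le_total w.re (36 / 100) with h3 | h3
      · exact KE.chk1 r_g60b1 (by norm_num) (by constructor <;> push_cast <;> linarith only [h1, y1])
          (by constructor <;> push_cast <;> linarith only [T0, T1]) (by constructor <;> push_cast <;> linarith only [h2, h3])
          (by constructor <;> push_cast <;> linarith only [t0, t1])
      · exact KE.chk1 r_g60b2 (by norm_num) (by constructor <;> push_cast <;> linarith only [h1, y1])
          (by constructor <;> push_cast <;> linarith only [T0, T1]) (by constructor <;> push_cast <;> linarith only [h3, w1])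
          (by constructor <;> push_cast <;> linarith only [t0, t1])
  rw [f60_val, ← e] at key
  linarith only [key]

theorem q20_eq {x : ℝ} : KE.q20 x = NumGs.plR x 90 l20 := by
  simp [KE.q20, l20, NumGs.plR]

theorem s25 {x : ℝ} (hx : 54 / 100 ≤ x) :
    NumGs.plR x (-65) l25 = -65 / 1000 + 124 / 60 * (x - 54 / 100) := by
  simp only [NumGs.plR, l25]
  rw [max_eq_left (by push_cast; linarith only [hx])]
  push_cast
  ring

theorem s30 {x : ℝ} (hx : 54 / 100 ≤ x) :
    NumGs.plR x (-87) l30 = -87 / 1000 + 123 / 60 * (x - 54 / 100) := by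
  simp only [NumGs.plR, l30]
  rw [max_eq_left (by push_cast; linarith only [hx])]
  push_cast
  ring

theorem s35 {x : ℝ} (hx : 54 / 100 ≤ x) :
    NumGs.plR x (-92) l35 = -92 / 1000 + 122 / 60 * (x - 54 / 100) := by
  simp only [NumGs.plR, l35]
  rw [max_eq_left (by push_cast; linarith only [hx])]
  push_cast
  ring

theorem s40 {x : ℝ} (hx : 54 / 100 ≤ x) :
    NumGs.plR x (-112) l40 = -112 / 1000 + 112 / 60 * (x - 54 / 100) := by
  simp only [NumGs.plR, l40]
  rw [max_eq_left (by push_cast; linarith only [hx])]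
  push_cast
  ring

end KJ3

namespace SR

variable {M : ℕ} {b : Fin (M + 1) → ℤ} {zs : DD (tyW b) ⊕ ZZ (tyW b) → ℂ}
variable {R : Finset (DD (tyW b))} {nb : Finset (DD (tyW b) ⊕ ZZ (tyW b))}
variable {z : DD (tyW b) ⊕ ZZ (tyW b) → ℂ} {p : DD (tyW b) → ℝ}
variable {h h' : Fin M} {i j j' : Fin (M + 1)} {s : Fin 3} {x c : ℝ}

/-- the inner variable of a `3` with a `3` at its slot `0` -/
theorem Tm33_mem (hX : LocX b zs) (m : {i : Fin (M + 1) // (tyW b i).isMid = true})
    (A : Adj h m.1 0 j) (A' : Adj h' m.1 2 j') (hc : clsW b m.1 = .three)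
    (hj : clsW b j = .three) : -(114 / 1000) ≤ Tm b zs m ∧ Tm b zs m ≤ 5 / 1000 := by
  have h1 := hX.mid m.2 A A' hc
  obtain ⟨h2, h3, -, -⟩ := h1
  have e : ofs (b m.1) (zs (.inl (.inr ⟨m.1, m.2⟩))).im = Tm b zs m := rfl
  rw [e] at h2 h3
  rcases hk : clsW b j' <;> rw [hj, hk] at h2 h3 <;>
    simp only [mw] at h2 h3 <;> constructor <;> linarith only [h2, h3]

theorem mhs_three3a (A : Adj h i 2 j) (hi : clsW b i = .three) : mhs b h 2 = 16 / 100 := by
  cases A
  simp [mhs, hi]

/-- **Kind `3 | 3`**, slot `2` of the lower one and slot `0` of the upper one. -/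
theorem kind_three_three2 (hb : ClassW b) (L : LocA b zs) : Kd b zs .three .three 2 := by
  intro R nb z p h i j x hN hM hq D hi hj
  obtain ⟨m, rfl⟩ : ∃ m : {i : Fin (M + 1) // (tyW b i).isMid = true}, m.1 = j :=
    ⟨⟨j, tyW_isMid (Or.inl hj)⟩, rfl⟩
  have Aj : Adj h m.1 0 i := D.adj.symm
  obtain ⟨hnn, I⟩ := hM.ipos hN m D.adj.symm D.nn
  obtain ⟨h2, j2, A2⟩ := D.adj.symm.other' b (clsW_inner hb (Or.inr (Or.inr hj)))
  obtain ⟨w0, w1, w2⟩ := (hM.npos hb hN hq D.adj.symm D.nn A2).w3 hb L.L A2 hj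
  have hW : KE.W3 (Ow b z m.1 2) := ⟨w0, w1, w2⟩
  obtain ⟨l0, l1⟩ := Tm33_mem L.X m Aj A2 hj hi
  have hT := Th_mem hb L.L D.adj D.ri
  rw [hi, hj] at hT
  simp only [hbox] at hT
  have T0 := D.T0
  have T1 : Th b zs h i ≤ 22 / 1000 := by linarith only [hT, hT.2]
  have hX := par_three2 D.adj hi (by rw [hj]; decide)
  have x0 := D.x0.le
  have x1 := D.x1
  rw [hX.1] at x1
  have x1 : x ≤ 6 / 10 := by linarith only [x1]
  have h16 := mhs_three3a D.adj hi
  have y1' : (mp (clsW b m.1)).XM = 8 / 10 := by rw [hj]; rfl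
  have eh : trh b h x = KJ3.τ x := by
    rw [trh_eq hX]
    unfold KJ3.τ
    norm_num
  have eu : Ow b z m.1 0 = ⟨x, mhs b h 2 * trh b h x⟩ := D.opp
  rw [h16, eh] at eu
  -- star moves
  have sK : ∀ {c T' g : ℝ}, 0 ≤ c → c ≤ 6 / 10 → Th b zs h i * trh b h c = T' →
      SideG b zs nb z p h i (tg b zs h c) g →
      g + 2 * Real.pi * (16 / 100 * KJ3.τ x) + (KE.VA ⟨c, -T'⟩ (Ow b z m.1 1) -
        KE.VA ⟨x, 16 / 100 * KJ3.τ x⟩ (Ow b z m.1 1)) ≤ 0 := by
    intro c T' g c0 c1 e k
    have k2 := keep_three0 (zs := zs) (nb := nb) (z := z) (p := p) (c := c) hb Aj hj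
    have h4 := D.star hb hN.ok.1 hM c0 (by rw [hX.1]; linarith only [c1]) k k2
    have e2 : tgo b zs h m.1 c = ⟨c, -T'⟩ := by unfold tgo; rw [D.Tj, ← e, neg_mul]
    rw [KE.V3_VA, e2, eu, h16, eh] at h4
    linarith only [h4]
  have sR : ∀ {c T' g c' : ℝ}, 0 ≤ c → c ≤ 6 / 10 → 5 / 100 ≤ c' → c' ≤ 75 / 100 →
      Th b zs h i * trh b h c = T' → SideG b zs nb z p h i (tg b zs h c) g →
      g + 2 * Real.pi * (16 / 100 * KJ3.τ x) + (KE.VF ⟨c, -T'⟩ ⟨c', Tm b zs m⟩ -
        KE.VF ⟨x, 16 / 100 * KJ3.τ x⟩ (Ow b z m.1 1)) +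
      (V2 ⟨c', Tm b zs m⟩ (Ow b z m.1 2) - V2 (Ow b z m.1 1) (Ow b z m.1 2) +
        2 * Real.pi * p (.inr m)) ≤ 0 := by
    intro c T' g c' c0 c1 d0 d1 e k
    have k2 := inner_three0 (zs := zs) (nb := nb) (z := z) (p := p) (c := c) hb m Aj hj
      hnn (c' := c') (by linarith only [d0]) (by linarith only [d1])
    have h4 := D.star hb hN.ok.1 hM c0 (by rw [hX.1]; linarith only [c1]) k k2
    have e2 : tgo b zs h m.1 c = ⟨c, -T'⟩ := by unfold tgo; rw [D.Tj, ← e, neg_mul]
    rw [KE.V3_VF, KE.V3_VF, e2, tgi_3 m hj d0 d1, eu, h16, eh] at h4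
    linarith only [h4]
  have eT : ∀ {c : ℝ}, 13 / 100 ≤ c → c ≤ 3 / 10 → Th b zs h i * trh b h c = Th b zs h i := by
    intro c c0 c1
    rw [trh_M (by rw [hX.2.1]; linarith only [c0]) (by rw [hX.1, hX.2.2]; linarith only [c1]), mul_one]
  have etl : ∀ y, trm b m y = K23.τl y := fun y => trm3 m hj y
  have k20 := sideA20 hb L hN hM hq D hi hj
  rw [KJ3.q20_eq] at k20
  have K20 := sK (c := 2 / 10) (by norm_num) (by norm_num) (eT (by norm_num) (by norm_num)) k20
  have R20_30 := sR (c := 2 / 10) (c' := 3 / 10) (by norm_num) (by norm_num) (by norm_num)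
    (by norm_num) (eT (by norm_num) (by norm_num)) k20
  rcases le_total x (54 / 100) with hx | hx
  · cases I with
    | main y y0 y1 e hp =>
      rw [y1'] at y1
      rw [etl] at e
      rw [e] at K20 R20_30
      rw [hp] at R20_30
      have hf := NumGs.F3.far_main w0 w1 w2 (by linarith only [l0]) l1 y0 y1
      have hf : NumGs.plR y 120 NumGs.F3.fa - Tm b zs m * NumGs.plR y 2600 NumGs.F3.fb ≤
        V2 ⟨3 / 10, Tm b zs m⟩ (Ow b z m.1 2) -
          V2 ⟨y, Tm b zs m * K23.τl y⟩ (Ow b z m.1 2) := hf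
      rcases le_total x (25 / 100) with hy | hy
      · obtain ⟨f, hf1, hf2⟩ := NumGs.chkF4 KJ3.r_m0 (by norm_num) (x := x) (y := Th b zs h i) (z := y)
          (w := Tm b zs m) (by push_cast; linarith only [x0, x1, hx, hy])
          (by push_cast; linarith only [x0, x1, hx, hy])
          (by push_cast; linarith only [T0]) (by push_cast; linarith only [T1])
          (by push_cast; linarith only [y0, hy]) (by push_cast; linarith only [y1, hy])
          (by push_cast; linarith only [l0, hy]) (by push_cast; linarith only [l1, hy])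
        simp only [List.mem_cons, List.not_mem_nil, or_false] at hf1
        rcases hf1 with rfl | rfl
        · rw [KJ3.kp_val, KJ3.c20, KJ3.t1, KJ3.a20_val, KJ3.tm_val] at hf2
          linarith only [hf2, K20]
        · rw [KJ3.rs_val, KJ3.c20, KJ3.t1, KJ3.a20_val, KJ3.tm_val, KJ3.c30, KJ3.pM_val] at hf2
          linarith only [hf2, R20_30, hf]
      · obtain ⟨f, hf1, hf2⟩ := NumGs.chkF4 KJ3.r_m1 (by norm_num) (x := x) (y := Th b zs h i) (z := y)
          (w := Tm b zs m) (by push_cast; linarith only [x0, x1, hx, hy])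
          (by push_cast; linarith only [x0, x1, hx, hy])
          (by push_cast; linarith only [T0]) (by push_cast; linarith only [T1])
          (by push_cast; linarith only [y0, hy]) (by push_cast; linarith only [y1, hy])
          (by push_cast; linarith only [l0, hy]) (by push_cast; linarith only [l1, hy])
        simp only [List.mem_cons, List.not_mem_nil, or_false] at hf1
        rcases hf1 with rfl | rfl
        · rw [KJ3.kp_val, KJ3.c20, KJ3.t1, KJ3.a20_val, KJ3.tm_val] at hf2
          linarith only [hf2, K20]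
        · rw [KJ3.rs_val, KJ3.c20, KJ3.t1, KJ3.a20_val, KJ3.tm_val, KJ3.c30, KJ3.pM_val] at hf2
          linarith only [hf2, R20_30, hf]
    | up y y0 y1 hT' e hp =>
      rw [y1'] at y1
      rw [etl] at e hp
      rw [e] at K20 R20_30
      rw [hp] at R20_30
      have hf := NumGs.F3.far_up w0 w1 w2 (by linarith only [l0]) hT' y0 y1
      have hf : NumGs.plR y 120 NumGs.F3.fu - Tm b zs m * NumGs.plR y 2600 NumGs.F3.fv ≤
        V2 ⟨3 / 10, Tm b zs m⟩ (Ow b z m.1 2) -
          V2 ⟨y, 16 / 100 * K23.τl y⟩ (Ow b z m.1 2) + 2 * Real.pi * (16 / 100 * K23.τl y) := hf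
      rcases le_total y (3 / 10) with hy | hy
      · obtain ⟨f, hf1, hf2⟩ := NumGs.chkF4 KJ3.r_u0a (by norm_num) (x := x) (y := Th b zs h i) (z := y)
          (w := Tm b zs m) (by push_cast; linarith only [x0, x1, hx, hy, hT'])
          (by push_cast; linarith only [x0, x1, hx, hy, hT'])
          (by push_cast; linarith only [T0]) (by push_cast; linarith only [T1])
          (by push_cast; linarith only [y0, hy, hT']) (by push_cast; linarith only [y1, hy, hT'])
          (by push_cast; linarith only [l0, hy, hT']) (by push_cast; linarith only [l1, hy, hT'])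
        simp only [List.mem_cons, List.not_mem_nil, or_false] at hf1
        rcases hf1 with rfl | rfl
        · rw [KJ3.kp_val, KJ3.c20, KJ3.t1, KJ3.a20_val, KJ3.tu_val] at hf2
          linarith only [hf2, K20]
        · rw [KJ3.rs_val, KJ3.c20, KJ3.t1, KJ3.a20_val, KJ3.tu_val, KJ3.c30, KJ3.pU_val] at hf2
          linarith only [hf2, R20_30, hf]
      · obtain ⟨f, hf1, hf2⟩ := NumGs.chkF4 KJ3.r_u0b (by norm_num) (x := x) (y := Th b zs h i) (z := y)
          (w := Tm b zs m) (by push_cast; linarith only [x0, x1, hx, hy, hT'])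
          (by push_cast; linarith only [x0, x1, hx, hy, hT'])
          (by push_cast; linarith only [T0]) (by push_cast; linarith only [T1])
          (by push_cast; linarith only [y0, hy, hT']) (by push_cast; linarith only [y1, hy, hT'])
          (by push_cast; linarith only [l0, hy, hT']) (by push_cast; linarith only [l1, hy, hT'])
        simp only [List.mem_cons, List.not_mem_nil, or_false] at hf1
        rcases hf1 with rfl | rfl
        · rw [KJ3.kp_val, KJ3.c20, KJ3.t1, KJ3.a20_val, KJ3.tu_val] at hf2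
          linarith only [hf2, K20]
        · rw [KJ3.rs_val, KJ3.c20, KJ3.t1, KJ3.a20_val, KJ3.tu_val, KJ3.c30, KJ3.pU_val] at hf2
          linarith only [hf2, R20_30, hf]
    | dn y y0 y1 hT' e hp =>
      rw [y1'] at y1
      rw [etl] at e hp
      rw [e] at K20 R20_30
      rw [hp] at R20_30
      have hf := NumGs.F3.far_down w0 w1 w2 hT' l1 y0 y1
      have hf : NumGs.plR y 120 NumGs.F3.fd - Tm b zs m * (24 / 10) ≤
        V2 ⟨3 / 10, Tm b zs m⟩ (Ow b z m.1 2) -
          V2 ⟨y, -(16 / 100 * K23.τl y)⟩ (Ow b z m.1 2) +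
            2 * Real.pi * (16 / 100 * K23.τl y) := hf
      rcases le_total y (3 / 10) with hy | hy
      · obtain ⟨f, hf1, hf2⟩ := NumGs.chkF4 KJ3.r_d0a (by norm_num) (x := x) (y := Th b zs h i) (z := y)
          (w := Tm b zs m) (by push_cast; linarith only [x0, x1, hx, hy, hT'])
          (by push_cast; linarith only [x0, x1, hx, hy, hT'])
          (by push_cast; linarith only [T0]) (by push_cast; linarith only [T1])
          (by push_cast; linarith only [y0, hy, hT']) (by push_cast; linarith only [y1, hy, hT'])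
          (by push_cast; linarith only [l0, hy, hT']) (by push_cast; linarith only [l1, hy, hT'])
        simp only [List.mem_cons, List.not_mem_nil, or_false] at hf1
        rcases hf1 with rfl | rfl
        · rw [KJ3.kp_val, KJ3.c20, KJ3.t1, KJ3.a20_val, KJ3.nu_val] at hf2
          linarith only [hf2, K20]
        · rw [KJ3.rs_val, KJ3.c20, KJ3.t1, KJ3.a20_val, KJ3.nu_val, KJ3.c30, KJ3.pD_val] at hf2
          linarith only [hf2, R20_30, hf]
      · obtain ⟨f, hf1, hf2⟩ := NumGs.chkF4 KJ3.r_d0b (by norm_num) (x := x) (y := Th b zs h i) (z := y)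
          (w := Tm b zs m) (by push_cast; linarith only [x0, x1, hx, hy, hT'])
          (by push_cast; linarith only [x0, x1, hx, hy, hT'])
          (by push_cast; linarith only [T0]) (by push_cast; linarith only [T1])
          (by push_cast; linarith only [y0, hy, hT']) (by push_cast; linarith only [y1, hy, hT'])
          (by push_cast; linarith only [l0, hy, hT']) (by push_cast; linarith only [l1, hy, hT'])
        simp only [List.mem_cons, List.not_mem_nil, or_false] at hf1
        rcases hf1 with rfl | rfl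
        · rw [KJ3.kp_val, KJ3.c20, KJ3.t1, KJ3.a20_val, KJ3.nu_val] at hf2
          linarith only [hf2, K20]
        · rw [KJ3.rs_val, KJ3.c20, KJ3.t1, KJ3.a20_val, KJ3.nu_val, KJ3.c30, KJ3.pD_val] at hf2
          linarith only [hf2, R20_30, hf]
  · have e35 : Th b zs h i * trh b h (35 / 100) = Th b zs h i * (5 / 6) := by
      rw [trh_R (by rw [hX.1, hX.2.2]; norm_num) (by rw [hX.1]; norm_num), hX.1, hX.2.2]
      norm_num
    have e40 : Th b zs h i * trh b h (4 / 10) = Th b zs h i * (2 / 3) := by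
      rw [trh_R (by rw [hX.1, hX.2.2]; norm_num) (by rw [hX.1]; norm_num), hX.1, hX.2.2]
      norm_num
    have k25 := sideA25 hb L hN hM hq D hi hj hx
    rw [← KJ3.s25 hx] at k25
    have k30 := sideA30 hb L hN hM hq D hi hj hx
    rw [← KJ3.s30 hx] at k30
    have k35 := sideA35 hb L hN hM hq D hi hj hx
    rw [← KJ3.s35 hx] at k35
    have k40 := sideA40 hb L hN hM hq D hi hj hx
    rw [← KJ3.s40 hx] at k40
    have K25 := sK (c := 25 / 100) (by norm_num) (by norm_num) (eT (by norm_num) (by norm_num)) k25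
    have K30 := sK (c := 3 / 10) (by norm_num) (by norm_num) (eT (by norm_num) (by norm_num)) k30
    have K35 := sK (c := 35 / 100) (by norm_num) (by norm_num) e35 k35
    have K40 := sK (c := 4 / 10) (by norm_num) (by norm_num) e40 k40
    have R20_45 := sR (c := 2 / 10) (c' := 45 / 100) (by norm_num) (by norm_num) (by norm_num)
      (by norm_num) (eT (by norm_num) (by norm_num)) k20
    have R25_30 := sR (c := 25 / 100) (c' := 3 / 10) (by norm_num) (by norm_num) (by norm_num)
      (by norm_num) (eT (by norm_num) (by norm_num)) k25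
    have R25_45 := sR (c := 25 / 100) (c' := 45 / 100) (by norm_num) (by norm_num) (by norm_num)
      (by norm_num) (eT (by norm_num) (by norm_num)) k25
    have R25_60 := sR (c := 25 / 100) (c' := 6 / 10) (by norm_num) (by norm_num) (by norm_num)
      (by norm_num) (eT (by norm_num) (by norm_num)) k25
    have R30_60 := sR (c := 3 / 10) (c' := 6 / 10) (by norm_num) (by norm_num) (by norm_num)
      (by norm_num) (eT (by norm_num) (by norm_num)) k30
    have R35_60 := sR (c := 35 / 100) (c' := 6 / 10) (by norm_num) (by norm_num) (by norm_num)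
      (by norm_num) e35 k35
    have R40_45 := sR (c := 4 / 10) (c' := 45 / 100) (by norm_num) (by norm_num) (by norm_num)
      (by norm_num) e40 k40
    cases I with
    | main y y0 y1 e hp =>
      rw [y1'] at y1
      rw [etl] at e
      rw [e] at K20 K25 K30 K35 K40 R20_30 R20_45 R25_30 R25_45 R25_60 R30_60 R35_60 R40_45
      rw [hp] at R20_30 R20_45 R25_30 R25_45 R25_60 R30_60 R35_60 R40_45
      have hf := NumGs.F3.far_main w0 w1 w2 (by linarith) l1 y0 y1
      have hf : NumGs.plR y 120 NumGs.F3.fa - Tm b zs m * NumGs.plR y 2600 NumGs.F3.fb ≤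
        V2 ⟨3 / 10, Tm b zs m⟩ (Ow b z m.1 2) -
          V2 ⟨y, Tm b zs m * K23.τl y⟩ (Ow b z m.1 2) := hf
      rcases le_total y (6 / 10) with hy | hy
      · obtain ⟨f, hf1, hf2⟩ := NumGs.chkF4 KJ3.r_e0 (by norm_num) (x := x) (y := Th b zs h i) (z := y)
          (w := Tm b zs m) (by push_cast; linarith only [x0, x1, hx, hy])
          (by push_cast; linarith only [x0, x1, hx, hy])
          (by push_cast; linarith only [T0]) (by push_cast; linarith only [T1])
          (by push_cast; linarith only [y0, hy]) (by push_cast; linarith only [y1, hy])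
          (by push_cast; linarith only [l0, hy]) (by push_cast; linarith only [l1, hy])
        simp only [List.mem_cons, List.not_mem_nil, or_false] at hf1
        rcases hf1 with rfl | rfl | rfl | rfl | rfl | rfl | rfl
        · rw [KJ3.kp_val, KJ3.c20, KJ3.t1, KJ3.a20_val, KJ3.tm_val] at hf2
          linarith only [hf2, K20]
        · rw [KJ3.kp_val, KJ3.c25, KJ3.t1, KJ3.a25_val, KJ3.tm_val] at hf2
          linarith only [hf2, K25]
        · rw [KJ3.kp_val, KJ3.c30, KJ3.t1, KJ3.a30_val, KJ3.tm_val] at hf2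
          linarith only [hf2, K30]
        · rw [KJ3.kp_val, KJ3.c35, KJ3.t35, KJ3.a35_val, KJ3.tm_val] at hf2
          linarith only [hf2, K35]
        · rw [KJ3.kp_val, KJ3.c40, KJ3.t40, KJ3.a40_val, KJ3.tm_val] at hf2
          linarith only [hf2, K40]
        · rw [KJ3.rs_val, KJ3.c20, KJ3.t1, KJ3.a20_val, KJ3.tm_val, KJ3.c30, KJ3.pM_val] at hf2
          linarith only [hf2, R20_30, hf]
        · rw [KJ3.rs_val, KJ3.c25, KJ3.t1, KJ3.a25_val, KJ3.tm_val, KJ3.c30, KJ3.pM_val] at hf2
          linarith only [hf2, R25_30, hf]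
      have hf4 := KE.far45m hy y1 (by linarith) l1 hW
      have hf4 : -KE.ψ45 y < V2 ⟨45 / 100, Tm b zs m⟩ (Ow b z m.1 2) -
          V2 ⟨y, Tm b zs m * K23.τl y⟩ (Ow b z m.1 2) := hf4
      rcases le_total y (7 / 10) with hy7 | hy7
      · obtain ⟨f, hf1, hf2⟩ := NumGs.chkF4 KJ3.r_e1 (by norm_num) (x := x) (y := Th b zs h i) (z := y)
          (w := Tm b zs m) (by push_cast; linarith only [x0, x1, hx, hy, hy7])
          (by push_cast; linarith only [x0, x1, hx, hy, hy7])
          (by push_cast; linarith only [T0]) (by push_cast; linarith only [T1])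
          (by push_cast; linarith only [y0, hy, hy7]) (by push_cast; linarith only [y1, hy, hy7])
          (by push_cast; linarith only [l0, hy, hy7]) (by push_cast; linarith only [l1, hy, hy7])
        simp only [List.mem_cons, List.not_mem_nil, or_false] at hf1
        rcases hf1 with rfl | rfl | rfl | rfl | rfl | rfl | rfl | rfl
        · rw [KJ3.kp_val, KJ3.c20, KJ3.t1, KJ3.a20_val, KJ3.tm_val] at hf2
          linarith only [hf2, K20]
        · rw [KJ3.kp_val, KJ3.c25, KJ3.t1, KJ3.a25_val, KJ3.tm_val] at hf2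
          linarith only [hf2, K25]
        · rw [KJ3.kp_val, KJ3.c30, KJ3.t1, KJ3.a30_val, KJ3.tm_val] at hf2
          linarith only [hf2, K30]
        · rw [KJ3.kp_val, KJ3.c35, KJ3.t35, KJ3.a35_val, KJ3.tm_val] at hf2
          linarith only [hf2, K35]
        · rw [KJ3.kp_val, KJ3.c40, KJ3.t40, KJ3.a40_val, KJ3.tm_val] at hf2
          linarith only [hf2, K40]
        · rw [KJ3.rs_val, KJ3.c20, KJ3.t1, KJ3.a20_val, KJ3.tm_val, KJ3.c45, KJ3.p45_val] at hf2
          linarith only [hf2, R20_45, hf4]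
        · rw [KJ3.rs_val, KJ3.c25, KJ3.t1, KJ3.a25_val, KJ3.tm_val, KJ3.c45, KJ3.p45_val] at hf2
          linarith only [hf2, R25_45, hf4]
        · rw [KJ3.rs_val, KJ3.c40, KJ3.t40, KJ3.a40_val, KJ3.tm_val, KJ3.c45, KJ3.p45_val] at hf2
          linarith only [hf2, R40_45, hf4]
      rcases le_total (Tm b zs m) (-(50 / 1000)) with ht | ht
      · have hf6 := KJ3.far60 hy7 y1 l0 ht hW
        have hf6 : NumGs.plR y 8 KJ3.l60a - Tm b zs m * NumGs.plR y 58 KJ3.l60b <
          V2 ⟨6 / 10, Tm b zs m⟩ (Ow b z m.1 2) -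
            V2 ⟨y, Tm b zs m * K23.τl y⟩ (Ow b z m.1 2) := hf6
        obtain ⟨f, hf1, hf2⟩ := NumGs.chkF4 KJ3.r_e2 (by norm_num) (x := x) (y := Th b zs h i) (z := y)
          (w := Tm b zs m) (by push_cast; linarith only [x0, x1, hx, hy7, ht])
          (by push_cast; linarith only [x0, x1, hx, hy7, ht])
          (by push_cast; linarith only [T0]) (by push_cast; linarith only [T1])
          (by push_cast; linarith only [y0, hy7, ht]) (by push_cast; linarith only [y1, hy7, ht])
          (by push_cast; linarith only [l0, hy7, ht]) (by push_cast; linarith only [l1, hy7, ht])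
        simp only [List.mem_cons, List.not_mem_nil, or_false] at hf1
        rcases hf1 with rfl | rfl | rfl | rfl | rfl
        · rw [KJ3.kp_val, KJ3.c35, KJ3.t35, KJ3.a35_val, KJ3.tm_val] at hf2
          linarith only [hf2, K35]
        · rw [KJ3.kp_val, KJ3.c30, KJ3.t1, KJ3.a30_val, KJ3.tm_val] at hf2
          linarith only [hf2, K30]
        · rw [KJ3.rs_val, KJ3.c35, KJ3.t35, KJ3.a35_val, KJ3.tm_val, KJ3.c60, KJ3.p60_val] at hf2
          linarith only [hf2, R35_60, hf6]
        · rw [KJ3.rs_val, KJ3.c30, KJ3.t1, KJ3.a30_val, KJ3.tm_val, KJ3.c60, KJ3.p60_val] at hf2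
          linarith only [hf2, R30_60, hf6]
        · rw [KJ3.rs_val, KJ3.c25, KJ3.t1, KJ3.a25_val, KJ3.tm_val, KJ3.c60, KJ3.p60_val] at hf2
          linarith only [hf2, R25_60, hf6]
      · obtain ⟨f, hf1, hf2⟩ := NumGs.chkF4 KJ3.r_e3 (by norm_num) (x := x) (y := Th b zs h i) (z := y)
          (w := Tm b zs m) (by push_cast; linarith only [x0, x1, hx, hy7, ht])
          (by push_cast; linarith only [x0, x1, hx, hy7, ht])
          (by push_cast; linarith only [T0]) (by push_cast; linarith only [T1])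
          (by push_cast; linarith only [y0, hy7, ht]) (by push_cast; linarith only [y1, hy7, ht])
          (by push_cast; linarith only [l0, hy7, ht]) (by push_cast; linarith only [l1, hy7, ht])
        simp only [List.mem_cons, List.not_mem_nil, or_false] at hf1
        rcases hf1 with rfl | rfl | rfl | rfl | rfl
        · rw [KJ3.kp_val, KJ3.c40, KJ3.t40, KJ3.a40_val, KJ3.tm_val] at hf2
          linarith only [hf2, K40]
        · rw [KJ3.kp_val, KJ3.c30, KJ3.t1, KJ3.a30_val, KJ3.tm_val] at hf2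
          linarith only [hf2, K30]
        · rw [KJ3.kp_val, KJ3.c25, KJ3.t1, KJ3.a25_val, KJ3.tm_val] at hf2
          linarith only [hf2, K25]
        · rw [KJ3.rs_val, KJ3.c20, KJ3.t1, KJ3.a20_val, KJ3.tm_val, KJ3.c45, KJ3.p45_val] at hf2
          linarith only [hf2, R20_45, hf4]
        · rw [KJ3.rs_val, KJ3.c40, KJ3.t40, KJ3.a40_val, KJ3.tm_val, KJ3.c45, KJ3.p45_val] at hf2
          linarith only [hf2, R40_45, hf4]
    | up y y0 y1 hT' e hp =>
      rw [y1'] at y1
      rw [etl] at e hp
      rw [e] at K20 K25 K30 K35 K40 R20_30 R25_30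
      rw [hp] at R20_30 R25_30
      have hf := NumGs.F3.far_up w0 w1 w2 (by linarith) hT' y0 y1
      have hf : NumGs.plR y 120 NumGs.F3.fu - Tm b zs m * NumGs.plR y 2600 NumGs.F3.fv ≤
        V2 ⟨3 / 10, Tm b zs m⟩ (Ow b z m.1 2) -
          V2 ⟨y, 16 / 100 * K23.τl y⟩ (Ow b z m.1 2) + 2 * Real.pi * (16 / 100 * K23.τl y) := hf
      obtain ⟨f, hf1, hf2⟩ := NumGs.chkF4 KJ3.r_eu (by norm_num) (x := x) (y := Th b zs h i) (z := y)
        (w := Tm b zs m) (by push_cast; linarith only [x0, x1, hx, hT'])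
        (by push_cast; linarith only [x0, x1, hx, hT'])
        (by push_cast; linarith only [T0]) (by push_cast; linarith only [T1])
        (by push_cast; linarith only [y0, hT']) (by push_cast; linarith only [y1, hT'])
        (by push_cast; linarith only [l0, hT']) (by push_cast; linarith only [l1, hT'])
      simp only [List.mem_cons, List.not_mem_nil, or_false] at hf1
      rcases hf1 with rfl | rfl | rfl | rfl | rfl | rfl | rfl
      · rw [KJ3.kp_val, KJ3.c20, KJ3.t1, KJ3.a20_val, KJ3.tu_val] at hf2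
        linarith only [hf2, K20]
      · rw [KJ3.kp_val, KJ3.c25, KJ3.t1, KJ3.a25_val, KJ3.tu_val] at hf2
        linarith only [hf2, K25]
      · rw [KJ3.kp_val, KJ3.c30, KJ3.t1, KJ3.a30_val, KJ3.tu_val] at hf2
        linarith only [hf2, K30]
      · rw [KJ3.kp_val, KJ3.c35, KJ3.t35, KJ3.a35_val, KJ3.tu_val] at hf2
        linarith only [hf2, K35]
      · rw [KJ3.kp_val, KJ3.c40, KJ3.t40, KJ3.a40_val, KJ3.tu_val] at hf2
        linarith only [hf2, K40]
      · rw [KJ3.rs_val, KJ3.c20, KJ3.t1, KJ3.a20_val, KJ3.tu_val, KJ3.c30, KJ3.pU_val] at hf2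
        linarith only [hf2, R20_30, hf]
      · rw [KJ3.rs_val, KJ3.c25, KJ3.t1, KJ3.a25_val, KJ3.tu_val, KJ3.c30, KJ3.pU_val] at hf2
        linarith only [hf2, R25_30, hf]
    | dn y y0 y1 hT' e hp =>
      rw [y1'] at y1
      rw [etl] at e hp
      rw [e] at K20 K25 K30 K35 K40 R20_30 R25_30
      rw [hp] at R20_30 R25_30
      have hf := NumGs.F3.far_down w0 w1 w2 hT' l1 y0 y1
      have hf : NumGs.plR y 120 NumGs.F3.fd - Tm b zs m * (24 / 10) ≤
        V2 ⟨3 / 10, Tm b zs m⟩ (Ow b z m.1 2) -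
          V2 ⟨y, -(16 / 100 * K23.τl y)⟩ (Ow b z m.1 2) +
            2 * Real.pi * (16 / 100 * K23.τl y) := hf
      obtain ⟨f, hf1, hf2⟩ := NumGs.chkF4 KJ3.r_ed (by norm_num) (x := x) (y := Th b zs h i) (z := y)
        (w := Tm b zs m) (by push_cast; linarith only [x0, x1, hx, hT'])
        (by push_cast; linarith only [x0, x1, hx, hT'])
        (by push_cast; linarith only [T0]) (by push_cast; linarith only [T1])
        (by push_cast; linarith only [y0, hT']) (by push_cast; linarith only [y1, hT'])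
        (by push_cast; linarith only [l0, hT']) (by push_cast; linarith only [l1, hT'])
      simp only [List.mem_cons, List.not_mem_nil, or_false] at hf1
      rcases hf1 with rfl | rfl | rfl | rfl | rfl | rfl | rfl
      · rw [KJ3.kp_val, KJ3.c20, KJ3.t1, KJ3.a20_val, KJ3.nu_val] at hf2
        linarith only [hf2, K20]
      · rw [KJ3.kp_val, KJ3.c25, KJ3.t1, KJ3.a25_val, KJ3.nu_val] at hf2
        linarith only [hf2, K25]
      · rw [KJ3.kp_val, KJ3.c30, KJ3.t1, KJ3.a30_val, KJ3.nu_val] at hf2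
        linarith only [hf2, K30]
      · rw [KJ3.kp_val, KJ3.c35, KJ3.t35, KJ3.a35_val, KJ3.nu_val] at hf2
        linarith only [hf2, K35]
      · rw [KJ3.kp_val, KJ3.c40, KJ3.t40, KJ3.a40_val, KJ3.nu_val] at hf2
        linarith only [hf2, K40]
      · rw [KJ3.rs_val, KJ3.c20, KJ3.t1, KJ3.a20_val, KJ3.nu_val, KJ3.c30, KJ3.pD_val] at hf2
        linarith only [hf2, R20_30, hf]
      · rw [KJ3.rs_val, KJ3.c25, KJ3.t1, KJ3.a25_val, KJ3.nu_val, KJ3.c30, KJ3.pD_val] at hf2
        linarith only [hf2, R25_30, hf]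

end SR

end Pool.Agent.Work.MP_b30479_gtS.G2

end
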