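import Pool.Agent.Work.MP_b30479_gt.TBS.G2.WM_in3D
import Pool.Agent.Work.MP_b30479_gt.TBS.NumU.GenC
import Pool.Agent.Work.MP_b30479_gt.TBS.G2.H13A
import Pool.Agent.Work.MP_b30479_gt.TBS.G2.WM_in3Rg_5

section

/-!
# Mirrored paths, inner variable of an interior `3`: rows
-/

set_option deprecated.oldSectionVars true

namespace Pool.Agent.Work.MP_b30479_gtS.G2

namespace IT

open NumGs

set_option linter.style.longLine false

theorem r_Q1a : chkF (eK ch (ta 650 130 150) [flR] (-170) 471) 10000 0 745 0 802 40 0 8000 0 678 0 2000 0 561 1176777060721292663488346351666885614259610180472231159474336727311459395492245315601134880442396894444917345932541511330504297620699253680635904 = true := by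
  decide +kernel

theorem r_Q1b : chkF (eR ch (ta 650 130 150) (phQ1 (.var 2)) [flR] (-170) 471) 10000 0 745 0 802 40 0 8000 0 678 2000 6500 0 561 451881217322755029875088653496015734367645878233120257083970819742233985736244687291146196103501406555271175401086378258390537629417960791157432964548656519468148530606423943261604822615446774520643456443198083646137027619947251604597405460288551357485968172568293854465360747255254837827325686032467507576832 = true := by
  decide +kernel

theorem r_Q1c : chkF (eK cl (ta 650 130 150) [] (-170) 471) 10000 0 745 0 802 40 0 200 0 678 0 2000 0 561 342951371038182534928865821698300051714 = true := by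
  decide +kernel

theorem r_Q1d : chkF (eR cl (ta 650 130 150) (phQ1 (.var 2)) [] (-170) 471) 10000 0 745 0 802 40 0 200 0 678 2000 6500 0 561 3508362271752428819692264718594 = true := by
  decide +kernel

theorem r_Q2a : chkF (eK ch (ta 650 130 150) [flR] 172 631) 10000 0 582 0 915 40 0 8000 0 582 0 2000 0 416 3713178525195635861692175242095420312415906718403051351890415057801860450632151643697568081656468393012660447215616 = true := by
  decide +kernel

theorem r_Q2b : chkF (eR ch (ta 650 130 150) (phQ2 (.var 2)) [flR] 172 631) 10000 0 582 0 915 40 0 8000 0 582 2000 6500 0 416 1683388555282394366537389263387144554343489846931368124463703256405666355127792702283308817488701923035160565055806105601949654812874900397667379033905271129077680023695732524693458654149240495669856296355411816363713902838506658751181597167436740121676731466663745109666862741830591134629856156876800 = true := by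
  decide +kernel

theorem r_Q2c : chkF (eK cl (ta 650 130 150) [] 172 631) 10000 0 582 0 915 40 0 200 0 582 0 2000 0 416 20932090517467223407759124827504642 = true := by
  decide +kernel

theorem r_Q2d : chkF (eR cl (ta 650 130 150) (phQ2 (.var 2)) [] 172 631) 10000 0 582 0 915 40 0 200 0 582 2000 6500 0 416 1112629070511592208376721074249860240860464642379578735689986 = true := by
  decide +kernel

theorem r_QEa : chkF (eK ch (ta 650 130 150) [flR] (-400) 840) 10000 0 820 0 1145 40 0 8000 0 820 0 2000 0 275 295422626367905218177344211657885519848989725940678051291274236138077581468164066710281336442377531119206228650613477094096705817981903798535710868795350044566884499778700422063138276012107759616 = true := by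
  decide +kernel

theorem r_QEb : chkF (eR ch (ta 650 130 150) (phQE (.var 2)) [flR] (-400) 840) 10000 0 820 0 1145 40 0 8000 0 820 2000 6500 0 275 27580640705734559928899490252855171233027806794457449192707969183741659306513683658071161505142490077653835895704213691301506091887474546851215814370007853455844547057082515959691644446971084242658709155873610954146686777859651450743211174821663792397981097430861421998007273390138656655922474337534246912 = true := by
  decide +kernel

theorem r_QEc : chkF (eK cl (ta 650 130 150) [] (-400) 840) 10000 0 820 0 1145 40 0 200 0 820 0 2000 0 275 5629804298831052683706287246685131843305730 = true := by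
  decide +kernel

theorem r_QEd : chkF (eR cl (ta 650 130 150) (phQE (.var 2)) [] (-400) 840) 10000 0 820 0 1145 40 0 200 0 820 2000 6500 0 275 13078891899947378114818 = true := by
  decide +kernel

theorem r_T2a : chkF (eK ch (ta 600 120 270) [flR] (-535) 135) 10000 0 885 0 530 40 0 8000 0 755 0 2000 0 552 6110175835579015995023648916706067304433221373655225609894081158572030319820099109224702309454961364082575242638953462960055944644249531330179459121229816173991814148918505111552 = true := by
  decide +kernel

theorem r_T2b : chkF (eR ch (ta 600 120 270) (ph2 (.var 2)) [flR] (-535) 135) 10000 0 885 0 530 40 0 8000 0 755 2000 6000 0 552 621707680411170248495037550847188880346202636277309082228496807095896462464351047960646685471657297048274838616240289543698726945823319738098570069743356015751475791801647104 = true := by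
  decide +kernel

theorem r_T2c : chkF (eK cl (ta 600 120 270) [] (-535) 135) 10000 0 885 0 530 40 0 200 0 755 0 2000 0 552 5618915263089582652123422183479098038321154 = true := by
  decide +kernel

theorem r_T2d : chkF (eR cl (ta 600 120 270) (ph2 (.var 2)) [] (-535) 135) 10000 0 885 0 530 40 0 200 0 755 2000 6000 0 552 2705424642 = true := by
  decide +kernel

end IT

end Pool.Agent.Work.MP_b30479_gtS.G2

end

section

/-!
# Part of `WM_in3Rg`
-/
set_option deprecated.oldSectionVars true

namespace Pool.Agent.Work.MP_b30479_gtS.G2

namespace IT

open NumGs

set_option linter.style.longLine false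

theorem r_Ec : chkF (eR cl (ta 600 120 300) phE [] (-480) 320) 10000 0 1230 0 980 40 0 200 0 590 0 6000 0 220 47096403858237878355235731627081986 = true := by
  decide +kernel

theorem r_T3c : chkF (eK cl (ta 600 130 300) [] (-1050) 280) 10000 0 1140 0 220 40 0 200 0 1140 0 2000 0 440 24711876524244184615990695518543587134967349210372899074 = true := by
  decide +kernel

theorem r_T3d : chkF (eR cl (ta 600 130 300) (ph3 (.var 2)) [] (-1050) 280) 10000 0 1140 0 220 40 0 200 0 1140 2000 6000 0 440 2707521794 = true := by
  decide +kernel

theorem r_E3c : chkF (eK cl (ta 600 120 300) [] (-1050) 280) 10000 0 1140 0 280 40 0 200 0 1140 0 2000 0 230 5619084075127127674420627154470041194332418 = true := by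
  decide +kernel

theorem r_E3d : chkF (eR cl (ta 600 120 300) (ph3e (.var 2)) [] (-1050) 280) 10000 0 1140 0 280 40 0 200 0 1140 2000 6000 0 230 44324620435714 = true := by
  decide +kernel

theorem r_Za_q5 : Pool.Agent.Work.NumIs.runE (Pool.Agent.Work.NumGs.tst (eK ch (ta 600 120 300) [flR, flL (ta 600 120 300)] (-1050) 280))
    0 7834020348 0 68719477 39 28174985462 54975581390 0 7834020349 0 41231686043 0 3985729652
    1376435401917726411994424277303420814550852840219898263264374160621777053168159901438326421796528811976779731559733101151092795653628991218155522
    0 = true := by
  decide +kernel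

theorem r_Zc : chkF (eK cl (ta 600 120 300) [] (-1050) 280) 10000 0 1140 0 0 40 0 200 0 1140 0 3500 0 570 789654433846968239664017463909517293651109047891003259841020756023206868890922874030584495818343117773147499962761086300175362671599463570604290 = true := by
  decide +kernel

theorem r_Xc : chkF (eK cx (ta 600 120 300) [] (-1050) 280) 10000 0 1060 0 7 40 0 200 0 910 0 4600 0 7 11570358797953933852467165425678506418429369765450410260705607938 = true := by
  decide +kernel

theorem r_Xd : chkF (eK cx (ta 600 120 300) [] (-1050) 280) 10000 0 1060 0 7 40 0 200 0 680 4600 6000 0 7 832826415512105479220363696227291424611404632086807776768796122356654547727734363854965904748404632439570552281349402657409 = true := by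
  decide +kernel

theorem r_Xe : chkF (eK [(200, m20)] (ta 600 120 300) [] (-1050) 280) 10000 0 250 0 7 40 0 200 0 100 4600 6000 0 7 17730702999808 = true := by
  decide +kernel

theorem r_Xf : chkF (eK [(200, n20)] (ta 600 120 300) [] (-1050) 280) 10000 0 380 0 7 40 0 200 0 130 4600 6000 0 7 1082195968 = true := by
  decide +kernel

theorem r_Ra_q2 : Pool.Agent.Work.NumIs.runE (Pool.Agent.Work.NumGs.tst (eK ch (cc 0) [flR] (-2000) 2000))
    0 8452495639 0 0 39 28174985462 54975581390 0 8452495640 0 41231686043 0 2
    1376507040579079504926760891736451623102793553069873218631560563819850483541831897603443368565690351818374525716674627561044783252671218927566850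
    0 = true := by
  decide +kernel

theorem r_Rb : chkF (eK ch0 (cc 0) [] (-2000) 2000) 10000 0 1230 0 0 40 0 200 0 1230 0 6000 0 0 40665352335657142728438922507367388700530836147694264898816104897391832283410719285701890885943545533459088706700869890 = true := by
  decide +kernel

theorem r_Rc : chkF (eK cl (cc 0) [] (-2000) 2000) 10000 0 1230 0 0 40 0 200 0 1230 0 3500 0 0 513092554503603526826629796764414148866 = true := by
  decide +kernel

end IT

end Pool.Agent.Work.MP_b30479_gtS.G2

end

section

/-!
# Part of `WM_in3Rg`
-/
set_option deprecated.oldSectionVars true

namespace Pool.Agent.Work.MP_b30479_gtS.G2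

namespace IT

open NumGs

set_option linter.style.longLine false

theorem r_Za_q1 : Pool.Agent.Work.NumIs.runE (Pool.Agent.Work.NumGs.tst (eK ch (ta 600 120 300) [flR, flL (ta 600 120 300)] (-1050) 280))
    0 7834020348 0 68719477 38 1374389534 28174985462 0 7834020349 0 20615843021 0 3985729652
    147510262682628842863752350418039562511622331348929214847963342050052788987045358965105250266154526621908418365570421464179633957038039210755220491952043508263030625119238518933537999125229767043499751218102531444331463134053865274839956005277358149723638102322757947646975972913038441731351380381524149698977032924736748028723648378942420143707019402653444659920512065253950954503553441564429085958642788026180659949408442562175907552286577146625190487428932007182703191457449047605423022011872421989088882969422121676176138408709437474721059653988496840213743299760539247133004473798263997349270622883082504728391190473157625510642269723144918391405886722581379605902392109328126564782112854314604913407401784933610988996185849840372973147220031772816357170688927572019536212068939515323626303858776707684187699768673306380485838447307944988075617899734698601224906713539353422568160513364127226747565207325009173057281312987891270698816418951181649520576731899655305475522868572323841008746580353162380756401151168772572643773083034436009827203403977746706478310350448987639490078048512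
    8126364031281287698122803555138806199245483954008601446273933634040245059448017844362709752341279945251958609443394342738641218172162512115784951027333293791952941557782047347608162742664472044699051607239555195808960202891514080211231679791335313265126904213158295551796264425260747010164296194015095308090198196947756169491341241731709227466117678187158293051152089084204002888439737593815128846080593978979610774965683801268967744124101753705875773409865122297808627479533642574629075528474695831514779472979866974640482047960558594839653919419319985997379420496645275595560542223077813936453210728123292186924760662392279002944305261724814221914500042900322134179583354910543604029014977948757726290704251308213456177288364825617949831215174817772323473018566551703647327736326504540012314643601022779648 = true := by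
  decide +kernel

end IT

end Pool.Agent.Work.MP_b30479_gtS.G2

end

section

/-!
# Part of `WM_in3Rg`
-/
set_option deprecated.oldSectionVars true

namespace Pool.Agent.Work.MP_b30479_gtS.G2

namespace IT

open NumGs

set_option linter.style.longLine false

theorem r_Za_q2 : Pool.Agent.Work.NumIs.runE (Pool.Agent.Work.NumGs.tst (eK ch (ta 600 120 300) [flR, flL (ta 600 120 300)] (-1050) 280))
    0 7834020348 0 68719477 36 1374389534 14774687498 0 7834020349 20615843021 30923764532 0 3985729652
    495993898393633282356128146675952526809416745239782803117305519655776675991700307883466171407548824783444739345910299239419019663828278327379452577351885607419002780626345663306162276773954592571963599074679882556699231133515263684767558581014118241279718274728899874987564967362106140757098156372991656987927136044174570891805495711163893277961284069040423159860356999768310723171370702747505422734411253599829759214214099198545394538824569928337144373160713030872108610811379551674137910673504384247728239317618833901396609372592687673318720667683104614097865020547196996799349500920276729519849287605181407893356974022966247738299881697071180536773684259052864634984335626864233644349058712692732317547866901136075206133323048438595570752879322373799040101230868634255818343281647005615986001196351488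
    120173909159929647559192401500980463167200832612743352633437912081431016475155871290346611318647314302711922402420956648706269268431750921142117122878143875913428846280264501052705509640055032353741735295889460128356922444921298613227289487250525537471982806441942047196663763404880335736607630099272188498788370499570190161779144630126727666406120221559033512038077912402837173098911334431031808061293111004865930865437392210129745834742052022429030276634601824806951433092807583067374206236919772078217665956903303099860323750394200064 = true := by
  decide +kernel

theorem r_Za_q3 : Pool.Agent.Work.NumIs.runE (Pool.Agent.Work.NumGs.tst (eK ch (ta 600 120 300) [flR, flL (ta 600 120 300)] (-1050) 280))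
    0 7834020348 0 68719477 36 1374389534 14774687498 0 7834020349 30923764532 41231686043 0 3985729652
    120173909159929647559192401500980463167200832612743352633437912081431016475155871290346611318647314302711922402420956648706269268431750921142117122878143875913428846280264501052705509640055032353741735295889460128356922444921298613227289487250525537471982806441942047196663763404880335736607630099272188498788370499570190161779144630126727666406120221559033512038077912402837173098911334431031808061293111004865930865437392210129745834742052022429030276634601824806951433092807583067374206236919772078217665956903303099860323750394200064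
    55834853229324482072932350662244864385233314327956889518265069431493040444590909415736824885170550499100035004786083805954107712307672367850539309595851996845159954063946711298 = true := by
  decide +kernel

end IT

end Pool.Agent.Work.MP_b30479_gtS.G2

end

section

/-!
# Mirrored paths, inner variable of an interior `3`: rows
-/

namespace Pool.Agent.Work.MP_b30479_gtS.G2

namespace IT

open NumGs

set_option linter.style.longLine false

theorem r_Za : chkF (eK ch (ta 600 120 300) [flR, flL (ta 600 120 300)] (-1050) 280) 10000 0 1140 0 10 40 200 8000 0 1140 0 6000 0 580 2416808143792190961479718509249160192190420276820856256069031396148064894763751161284284420360675764173347526501505785269119122752111234429013532540142280839381493761953603894207086577667764503240699923957391875183926691988338528662977839190464235925072086668456066214248054340207221829326461016170891668668039707438886879702608255040592611634495805893074037308137669677120732438586219586591606144346403439020943932611107922938690069336663279970307120946035622005681409088838845195967250792642517761869232258571012041542469851688295423585829841370947532230061970223276675025027145298710757332570449885316423757469961264712214536366362947144006342924794048062773323463104792319232025637390137005090486901266870844352282443713508963784670792044053000565823195884567389339968081298537505019062293362422197578697731273009943451737879977120693370684630923669253301882468871594628766475356741850957860483032108356812950291370497031993610579129408208096160145745129175443952524910966678688953811087303972506212446312876460749169830195578192436199585008900570771402038940636781756213485405438746820864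 = true :=
    Pool.Agent.Work.NumIs.okB_of rfl rfl rfl rfl rfl rfl rfl rfl rfl rfl rfl rfl
    (Pool.Agent.Work.NumIs.runE_split0 rfl rfl rfl
      (Pool.Agent.Work.NumIs.runE_split2 rfl rfl rfl
        r_Za_q1
        (Pool.Agent.Work.NumIs.runE_split0 rfl rfl rfl
          (Pool.Agent.Work.NumIs.runE_split2 rfl rfl rfl
            r_Za_q2
            r_Za_q3)
          r_Za_q4))
      r_Za_q5)

theorem r_Zb : chkF (eK ch0 (ta 600 120 300) [flL (ta 600 120 300)] (-1050) 280) 10000 0 1140 0 10 40 0 200 0 1140 0 6000 0 580 262559041177592889502420420210384495716868279850520784008395802017640334251066788593220298187258919282935736943304400781575949761622430982311596559349308826137943978095629255047442513054212473899235523448988546638038132049833612956747789292579444894351965859871384409441647287170216514946265821518163029766872166175248403668721680992493215243083385004053615378002368367323845287983056731252569172896055319216283709931232085939335876343663405561223138459411519834562603373677433331325608594862353051699421086745419839475054048246092282459562958087794655527586624615466691422762332690806796408646201439899750273410411662264558083259927342143004977546754746880597790706311501286973614741722648197452058731373069841211814151645452687147310529078495184962520986386466286027683309554541187957649855808396941557798306414495154275905609243666265352446926864549477516851961164062964368572674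 = true :=
    Pool.Agent.Work.NumIs.okB_of rfl rfl rfl rfl rfl rfl rfl rfl rfl rfl rfl rfl
    (Pool.Agent.Work.NumIs.runE_split2 rfl rfl rfl
      r_Zb_q1
      (Pool.Agent.Work.NumIs.runE_split2 rfl rfl rfl
        r_Zb_q2
        (Pool.Agent.Work.NumIs.runE_split1 rfl rfl rfl
          r_Zb_q3
          r_Zb_q4)))

theorem r_Ra : chkF (eK ch (cc 0) [flR] (-2000) 2000) 10000 0 1230 0 0 40 200 8000 0 1230 0 6000 0 0 53084992410432790546403283278695645626548224242386206540057544977432695013391206712734026734385462055065241791463589830676426256624347229329892728822189157032363338924935767988209151425946928270261899511386080865040375916202575564885582651871558170156997799040883047570830481963123136648430837760736347508603336871746134518936995779867732339698642051998620218231642394010403391821973659397292217794618727866781912010156550329696833246506602163639243008938505634126896713595150469481194545691293653985195406453001958157537811727160803883429382435234432705870922304544301901218225882495383143352472734128963840 = true :=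
    Pool.Agent.Work.NumIs.okB_of rfl rfl rfl rfl rfl rfl rfl rfl rfl rfl rfl rfl
    (Pool.Agent.Work.NumIs.runE_split0 rfl rfl rfl
      r_Ra_q1
      r_Ra_q2)

end IT

end Pool.Agent.Work.MP_b30479_gtS.G2

end

section

/-!
# Part of `WM_in3Rg`
-/
set_option deprecated.oldSectionVars true

namespace Pool.Agent.Work.MP_b30479_gtS.G2

namespace IT

open NumGs

set_option linter.style.longLine false

theorem r_Ea : chkF (eR ch (ta 600 120 300) phE [flR] (-480) 320) 10000 0 1230 0 980 40 0 8000 0 590 0 6000 0 220 7240365024430020449541983876445949455394505444981712492485596946928541478820638537096755997034272611698864565229331080639065772143890257345190228987961581099774824760467466455199559356743486981945954218012605842160914200373236737076666088285098856455065599788567451667446599123280540613810168052142124083712466989459879124315861549194789876880739944890624 = true := by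
  decide +kernel

theorem r_T3a : chkF (eK ch (ta 600 130 300) [flR] (-1050) 280) 10000 0 1140 0 220 40 0 8000 0 1140 0 2000 0 440 1528022714191877597159684999876449319549209448307350230296492799682213318272997779891534256041348125386341733588022803058447823589836239713748903305802676546681668459235779871753684179336325171616405880145651497330701547157323776 = true := by
  decide +kernel

end IT

end Pool.Agent.Work.MP_b30479_gtS.G2

end

section

/-!
# Part of `WM_in3Rg`
-/
set_option deprecated.oldSectionVars true

namespace Pool.Agent.Work.MP_b30479_gtS.G2

namespace IT

open NumGs

set_option linter.style.longLine false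

theorem r_T3b : chkF (eR ch (ta 600 130 300) (ph3 (.var 2)) [flR] (-1050) 280) 10000 0 1140 0 220 40 0 8000 0 1140 2000 6000 0 440 166888384691323953801807128279748628887822025766192973966042765759976348261699739850726239586123529806954526888053285649000862047285981139871700607546372438564545882518343272194146304 = true := by
  decide +kernel

theorem r_E3a : chkF (eK ch (ta 600 120 300) [flR] (-1050) 280) 10000 0 1140 0 280 40 0 8000 0 1140 0 2000 0 230 78996922795011077814241927000130599841888155693274742329359623594505858787472322193645879637897162277391691335115670796871259482199927346535311371209187847509248549070144415198652059663041038859477450752 = true := by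
  decide +kernel

theorem r_E3b : chkF (eR ch (ta 600 120 300) (ph3e (.var 2)) [flR] (-1050) 280) 10000 0 1140 0 280 40 0 8000 0 1140 2000 6000 0 230 62585906325490356694622024789639701319777471805018755750623595525747134199725294100087447454074461420716206915425452670241095802390184267165892687518373573831050706641212345176945894347362314902495777131080743663496522646979279355904 = true := by
  decide +kernel

end IT

end Pool.Agent.Work.MP_b30479_gtS.G2

end

section

/-!
# Mirrored paths, inner variable of an interior `3`: the rows of the left side as statements
-/

namespace Pool.Agent.Work.MP_b30479_gtS.G2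

namespace IT

open NumGs

/-- one of the expressions is positive on the box -/
def Rw (es : List E) (x0 x1 l0 l1 a0 a1 u0 u1 : ℝ) : Prop :=
  ∀ {x T a θ : ℝ}, x0 ≤ x → x ≤ x1 → l0 ≤ T → T ≤ l1 → a0 ≤ a → a ≤ a1 → u0 ≤ θ → θ ≤ u1 →
    ∃ e ∈ es, 0 < e.val [x, T, a, θ]

theorem R_Q1a : Rw (eK ch (ta 650 130 150) [flR] (-170) 471)
    0 (8000 / 10000) (-(745 / 10000)) (-(67 / 10000)) 0 (2000 / 10000) (-(802 / 10000)) (-(241 / 10000)) := by
  intro x T a θ h1 h2 h3 h4 h5 h6 h7 h8
  exact chkF4 r_Q1a (by norm_num) (by push_cast; linarith only [h1]) (by push_cast; linarith only [h2])
    (by push_cast; linarith only [h3]) (by push_cast; linarith only [h4]) (by push_cast; linarith only [h5])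
    (by push_cast; linarith only [h6]) (by push_cast; linarith only [h7]) (by push_cast; linarith only [h8])

theorem R_Q1b : Rw (eR ch (ta 650 130 150) (phQ1 (.var 2)) [flR] (-170) 471)
    0 (8000 / 10000) (-(745 / 10000)) (-(67 / 10000)) (2000 / 10000) (6500 / 10000) (-(802 / 10000)) (-(241 / 10000)) := by
  intro x T a θ h1 h2 h3 h4 h5 h6 h7 h8
  exact chkF4 r_Q1b (by norm_num) (by push_cast; linarith only [h1]) (by push_cast; linarith only [h2])
    (by push_cast; linarith only [h3]) (by push_cast; linarith only [h4]) (by push_cast; linarith only [h5])
    (by push_cast; linarith only [h6]) (by push_cast; linarith only [h7]) (by push_cast; linarith only [h8])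

theorem R_Q1c : Rw (eK cl (ta 650 130 150) [] (-170) 471)
    0 (200 / 10000) (-(745 / 10000)) (-(67 / 10000)) 0 (2000 / 10000) (-(802 / 10000)) (-(241 / 10000)) := by
  intro x T a θ h1 h2 h3 h4 h5 h6 h7 h8
  exact chkF4 r_Q1c (by norm_num) (by push_cast; linarith only [h1]) (by push_cast; linarith only [h2])
    (by push_cast; linarith only [h3]) (by push_cast; linarith only [h4]) (by push_cast; linarith only [h5])
    (by push_cast; linarith only [h6]) (by push_cast; linarith only [h7]) (by push_cast; linarith only [h8])

theorem R_Q1d : Rw (eR cl (ta 650 130 150) (phQ1 (.var 2)) [] (-170) 471)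
    0 (200 / 10000) (-(745 / 10000)) (-(67 / 10000)) (2000 / 10000) (6500 / 10000) (-(802 / 10000)) (-(241 / 10000)) := by
  intro x T a θ h1 h2 h3 h4 h5 h6 h7 h8
  exact chkF4 r_Q1d (by norm_num) (by push_cast; linarith only [h1]) (by push_cast; linarith only [h2])
    (by push_cast; linarith only [h3]) (by push_cast; linarith only [h4]) (by push_cast; linarith only [h5])
    (by push_cast; linarith only [h6]) (by push_cast; linarith only [h7]) (by push_cast; linarith only [h8])

theorem R_Q2a : Rw (eK ch (ta 650 130 150) [flR] 172 631)
    0 (8000 / 10000) (-(582 / 10000)) 0 0 (2000 / 10000) (-(915 / 10000)) (-(499 / 10000)) := by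
  intro x T a θ h1 h2 h3 h4 h5 h6 h7 h8
  exact chkF4 r_Q2a (by norm_num) (by push_cast; linarith only [h1]) (by push_cast; linarith only [h2])
    (by push_cast; linarith only [h3]) (by push_cast; linarith only [h4]) (by push_cast; linarith only [h5])
    (by push_cast; linarith only [h6]) (by push_cast; linarith only [h7]) (by push_cast; linarith only [h8])

theorem R_Q2b : Rw (eR ch (ta 650 130 150) (phQ2 (.var 2)) [flR] 172 631)
    0 (8000 / 10000) (-(582 / 10000)) 0 (2000 / 10000) (6500 / 10000) (-(915 / 10000)) (-(499 / 10000)) := by
  intro x T a θ h1 h2 h3 h4 h5 h6 h7 h8
  exact chkF4 r_Q2b (by norm_num) (by push_cast; linarith only [h1]) (by push_cast; linarith only [h2])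
    (by push_cast; linarith only [h3]) (by push_cast; linarith only [h4]) (by push_cast; linarith only [h5])
    (by push_cast; linarith only [h6]) (by push_cast; linarith only [h7]) (by push_cast; linarith only [h8])

theorem R_Q2c : Rw (eK cl (ta 650 130 150) [] 172 631)
    0 (200 / 10000) (-(582 / 10000)) 0 0 (2000 / 10000) (-(915 / 10000)) (-(499 / 10000)) := by
  intro x T a θ h1 h2 h3 h4 h5 h6 h7 h8
  exact chkF4 r_Q2c (by norm_num) (by push_cast; linarith only [h1]) (by push_cast; linarith only [h2])
    (by push_cast; linarith only [h3]) (by push_cast; linarith only [h4]) (by push_cast; linarith only [h5])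
    (by push_cast; linarith only [h6]) (by push_cast; linarith only [h7]) (by push_cast; linarith only [h8])

theorem R_Q2d : Rw (eR cl (ta 650 130 150) (phQ2 (.var 2)) [] 172 631)
    0 (200 / 10000) (-(582 / 10000)) 0 (2000 / 10000) (6500 / 10000) (-(915 / 10000)) (-(499 / 10000)) := by
  intro x T a θ h1 h2 h3 h4 h5 h6 h7 h8
  exact chkF4 r_Q2d (by norm_num) (by push_cast; linarith only [h1]) (by push_cast; linarith only [h2])
    (by push_cast; linarith only [h3]) (by push_cast; linarith only [h4]) (by push_cast; linarith only [h5])
    (by push_cast; linarith only [h6]) (by push_cast; linarith only [h7]) (by push_cast; linarith only [h8])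

theorem R_QEa : Rw (eK ch (ta 650 130 150) [flR] (-400) 840)
    0 (8000 / 10000) (-(820 / 10000)) 0 0 (2000 / 10000) (-(1145 / 10000)) (-(870 / 10000)) := by
  intro x T a θ h1 h2 h3 h4 h5 h6 h7 h8
  exact chkF4 r_QEa (by norm_num) (by push_cast; linarith only [h1]) (by push_cast; linarith only [h2])
    (by push_cast; linarith only [h3]) (by push_cast; linarith only [h4]) (by push_cast; linarith only [h5])
    (by push_cast; linarith only [h6]) (by push_cast; linarith only [h7]) (by push_cast; linarith only [h8])

theorem R_QEb : Rw (eR ch (ta 650 130 150) (phQE (.var 2)) [flR] (-400) 840)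
    0 (8000 / 10000) (-(820 / 10000)) 0 (2000 / 10000) (6500 / 10000) (-(1145 / 10000)) (-(870 / 10000)) := by
  intro x T a θ h1 h2 h3 h4 h5 h6 h7 h8
  exact chkF4 r_QEb (by norm_num) (by push_cast; linarith only [h1]) (by push_cast; linarith only [h2])
    (by push_cast; linarith only [h3]) (by push_cast; linarith only [h4]) (by push_cast; linarith only [h5])
    (by push_cast; linarith only [h6]) (by push_cast; linarith only [h7]) (by push_cast; linarith only [h8])

theorem R_QEc : Rw (eK cl (ta 650 130 150) [] (-400) 840)
    0 (200 / 10000) (-(820 / 10000)) 0 0 (2000 / 10000) (-(1145 / 10000)) (-(870 / 10000)) := by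
  intro x T a θ h1 h2 h3 h4 h5 h6 h7 h8
  exact chkF4 r_QEc (by norm_num) (by push_cast; linarith only [h1]) (by push_cast; linarith only [h2])
    (by push_cast; linarith only [h3]) (by push_cast; linarith only [h4]) (by push_cast; linarith only [h5])
    (by push_cast; linarith only [h6]) (by push_cast; linarith only [h7]) (by push_cast; linarith only [h8])

theorem R_QEd : Rw (eR cl (ta 650 130 150) (phQE (.var 2)) [] (-400) 840)
    0 (200 / 10000) (-(820 / 10000)) 0 (2000 / 10000) (6500 / 10000) (-(1145 / 10000)) (-(870 / 10000)) := by
  intro x T a θ h1 h2 h3 h4 h5 h6 h7 h8
  exact chkF4 r_QEd (by norm_num) (by push_cast; linarith only [h1]) (by push_cast; linarith only [h2])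
    (by push_cast; linarith only [h3]) (by push_cast; linarith only [h4]) (by push_cast; linarith only [h5])
    (by push_cast; linarith only [h6]) (by push_cast; linarith only [h7]) (by push_cast; linarith only [h8])

theorem R_T2a : Rw (eK ch (ta 600 120 270) [flR] (-535) 135)
    0 (8000 / 10000) (-(885 / 10000)) (-(130 / 10000)) 0 (2000 / 10000) (-(530 / 10000)) (22 / 10000) := by
  intro x T a θ h1 h2 h3 h4 h5 h6 h7 h8
  exact chkF4 r_T2a (by norm_num) (by push_cast; linarith only [h1]) (by push_cast; linarith only [h2])
    (by push_cast; linarith only [h3]) (by push_cast; linarith only [h4]) (by push_cast; linarith only [h5])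
    (by push_cast; linarith only [h6]) (by push_cast; linarith only [h7]) (by push_cast; linarith only [h8])

theorem R_T2b : Rw (eR ch (ta 600 120 270) (ph2 (.var 2)) [flR] (-535) 135)
    0 (8000 / 10000) (-(885 / 10000)) (-(130 / 10000)) (2000 / 10000) (6000 / 10000) (-(530 / 10000)) (22 / 10000) := by
  intro x T a θ h1 h2 h3 h4 h5 h6 h7 h8
  exact chkF4 r_T2b (by norm_num) (by push_cast; linarith only [h1]) (by push_cast; linarith only [h2])
    (by push_cast; linarith only [h3]) (by push_cast; linarith only [h4]) (by push_cast; linarith only [h5])
    (by push_cast; linarith only [h6]) (by push_cast; linarith only [h7]) (by push_cast; linarith only [h8])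

theorem R_T2c : Rw (eK cl (ta 600 120 270) [] (-535) 135)
    0 (200 / 10000) (-(885 / 10000)) (-(130 / 10000)) 0 (2000 / 10000) (-(530 / 10000)) (22 / 10000) := by
  intro x T a θ h1 h2 h3 h4 h5 h6 h7 h8
  exact chkF4 r_T2c (by norm_num) (by push_cast; linarith only [h1]) (by push_cast; linarith only [h2])
    (by push_cast; linarith only [h3]) (by push_cast; linarith only [h4]) (by push_cast; linarith only [h5])
    (by push_cast; linarith only [h6]) (by push_cast; linarith only [h7]) (by push_cast; linarith only [h8])

theorem R_T2d : Rw (eR cl (ta 600 120 270) (ph2 (.var 2)) [] (-535) 135)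
    0 (200 / 10000) (-(885 / 10000)) (-(130 / 10000)) (2000 / 10000) (6000 / 10000) (-(530 / 10000)) (22 / 10000) := by
  intro x T a θ h1 h2 h3 h4 h5 h6 h7 h8
  exact chkF4 r_T2d (by norm_num) (by push_cast; linarith only [h1]) (by push_cast; linarith only [h2])
    (by push_cast; linarith only [h3]) (by push_cast; linarith only [h4]) (by push_cast; linarith only [h5])
    (by push_cast; linarith only [h6]) (by push_cast; linarith only [h7]) (by push_cast; linarith only [h8])

theorem R_Ea : Rw (eR ch (ta 600 120 300) phE [flR] (-480) 320)
    0 (8000 / 10000) (-(1230 / 10000)) (-(640 / 10000)) 0 (6000 / 10000) (-(980 / 10000)) (-(760 / 10000)) := by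
  intro x T a θ h1 h2 h3 h4 h5 h6 h7 h8
  exact chkF4 r_Ea (by norm_num) (by push_cast; linarith only [h1]) (by push_cast; linarith only [h2])
    (by push_cast; linarith only [h3]) (by push_cast; linarith only [h4]) (by push_cast; linarith only [h5])
    (by push_cast; linarith only [h6]) (by push_cast; linarith only [h7]) (by push_cast; linarith only [h8])

theorem R_Ec : Rw (eR cl (ta 600 120 300) phE [] (-480) 320)
    0 (200 / 10000) (-(1230 / 10000)) (-(640 / 10000)) 0 (6000 / 10000) (-(980 / 10000)) (-(760 / 10000)) := by
  intro x T a θ h1 h2 h3 h4 h5 h6 h7 h8
  exact chkF4 r_Ec (by norm_num) (by push_cast; linarith only [h1]) (by push_cast; linarith only [h2])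
    (by push_cast; linarith only [h3]) (by push_cast; linarith only [h4]) (by push_cast; linarith only [h5])
    (by push_cast; linarith only [h6]) (by push_cast; linarith only [h7]) (by push_cast; linarith only [h8])

theorem R_T3a : Rw (eK ch (ta 600 130 300) [flR] (-1050) 280)
    0 (8000 / 10000) (-(1140 / 10000)) 0 0 (2000 / 10000) (-(220 / 10000)) (220 / 10000) := by
  intro x T a θ h1 h2 h3 h4 h5 h6 h7 h8
  exact chkF4 r_T3a (by norm_num) (by push_cast; linarith only [h1]) (by push_cast; linarith only [h2])
    (by push_cast; linarith only [h3]) (by push_cast; linarith only [h4]) (by push_cast; linarith only [h5])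
    (by push_cast; linarith only [h6]) (by push_cast; linarith only [h7]) (by push_cast; linarith only [h8])

theorem R_T3b : Rw (eR ch (ta 600 130 300) (ph3 (.var 2)) [flR] (-1050) 280)
    0 (8000 / 10000) (-(1140 / 10000)) 0 (2000 / 10000) (6000 / 10000) (-(220 / 10000)) (220 / 10000) := by
  intro x T a θ h1 h2 h3 h4 h5 h6 h7 h8
  exact chkF4 r_T3b (by norm_num) (by push_cast; linarith only [h1]) (by push_cast; linarith only [h2])
    (by push_cast; linarith only [h3]) (by push_cast; linarith only [h4]) (by push_cast; linarith only [h5])
    (by push_cast; linarith only [h6]) (by push_cast; linarith only [h7]) (by push_cast; linarith only [h8])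

theorem R_T3c : Rw (eK cl (ta 600 130 300) [] (-1050) 280)
    0 (200 / 10000) (-(1140 / 10000)) 0 0 (2000 / 10000) (-(220 / 10000)) (220 / 10000) := by
  intro x T a θ h1 h2 h3 h4 h5 h6 h7 h8
  exact chkF4 r_T3c (by norm_num) (by push_cast; linarith only [h1]) (by push_cast; linarith only [h2])
    (by push_cast; linarith only [h3]) (by push_cast; linarith only [h4]) (by push_cast; linarith only [h5])
    (by push_cast; linarith only [h6]) (by push_cast; linarith only [h7]) (by push_cast; linarith only [h8])

theorem R_T3d : Rw (eR cl (ta 600 130 300) (ph3 (.var 2)) [] (-1050) 280)
    0 (200 / 10000) (-(1140 / 10000)) 0 (2000 / 10000) (6000 / 10000) (-(220 / 10000)) (220 / 10000) := by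
  intro x T a θ h1 h2 h3 h4 h5 h6 h7 h8
  exact chkF4 r_T3d (by norm_num) (by push_cast; linarith only [h1]) (by push_cast; linarith only [h2])
    (by push_cast; linarith only [h3]) (by push_cast; linarith only [h4]) (by push_cast; linarith only [h5])
    (by push_cast; linarith only [h6]) (by push_cast; linarith only [h7]) (by push_cast; linarith only [h8])

theorem R_E3a : Rw (eK ch (ta 600 120 300) [flR] (-1050) 280)
    0 (8000 / 10000) (-(1140 / 10000)) 0 0 (2000 / 10000) (-(280 / 10000)) (-(50 / 10000)) := by
  intro x T a θ h1 h2 h3 h4 h5 h6 h7 h8
  exact chkF4 r_E3a (by norm_num) (by push_cast; linarith only [h1]) (by push_cast; linarith only [h2])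
    (by push_cast; linarith only [h3]) (by push_cast; linarith only [h4]) (by push_cast; linarith only [h5])
    (by push_cast; linarith only [h6]) (by push_cast; linarith only [h7]) (by push_cast; linarith only [h8])

theorem R_E3b : Rw (eR ch (ta 600 120 300) (ph3e (.var 2)) [flR] (-1050) 280)
    0 (8000 / 10000) (-(1140 / 10000)) 0 (2000 / 10000) (6000 / 10000) (-(280 / 10000)) (-(50 / 10000)) := by
  intro x T a θ h1 h2 h3 h4 h5 h6 h7 h8
  exact chkF4 r_E3b (by norm_num) (by push_cast; linarith only [h1]) (by push_cast; linarith only [h2])
    (by push_cast; linarith only [h3]) (by push_cast; linarith only [h4]) (by push_cast; linarith only [h5])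
    (by push_cast; linarith only [h6]) (by push_cast; linarith only [h7]) (by push_cast; linarith only [h8])

theorem R_E3c : Rw (eK cl (ta 600 120 300) [] (-1050) 280)
    0 (200 / 10000) (-(1140 / 10000)) 0 0 (2000 / 10000) (-(280 / 10000)) (-(50 / 10000)) := by
  intro x T a θ h1 h2 h3 h4 h5 h6 h7 h8
  exact chkF4 r_E3c (by norm_num) (by push_cast; linarith only [h1]) (by push_cast; linarith only [h2])
    (by push_cast; linarith only [h3]) (by push_cast; linarith only [h4]) (by push_cast; linarith only [h5])
    (by push_cast; linarith only [h6]) (by push_cast; linarith only [h7]) (by push_cast; linarith only [h8])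

theorem R_E3d : Rw (eR cl (ta 600 120 300) (ph3e (.var 2)) [] (-1050) 280)
    0 (200 / 10000) (-(1140 / 10000)) 0 (2000 / 10000) (6000 / 10000) (-(280 / 10000)) (-(50 / 10000)) := by
  intro x T a θ h1 h2 h3 h4 h5 h6 h7 h8
  exact chkF4 r_E3d (by norm_num) (by push_cast; linarith only [h1]) (by push_cast; linarith only [h2])
    (by push_cast; linarith only [h3]) (by push_cast; linarith only [h4]) (by push_cast; linarith only [h5])
    (by push_cast; linarith only [h6]) (by push_cast; linarith only [h7]) (by push_cast; linarith only [h8])

theorem R_Za : Rw (eK ch (ta 600 120 300) [flR, flL (ta 600 120 300)] (-1050) 280)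
    (200 / 10000) (8000 / 10000) (-(1140 / 10000)) 0 0 (6000 / 10000) (-(10 / 10000)) (570 / 10000) := by
  intro x T a θ h1 h2 h3 h4 h5 h6 h7 h8
  exact chkF4 r_Za (by norm_num) (by push_cast; linarith only [h1]) (by push_cast; linarith only [h2])
    (by push_cast; linarith only [h3]) (by push_cast; linarith only [h4]) (by push_cast; linarith only [h5])
    (by push_cast; linarith only [h6]) (by push_cast; linarith only [h7]) (by push_cast; linarith only [h8])

theorem R_Zb : Rw (eK ch0 (ta 600 120 300) [flL (ta 600 120 300)] (-1050) 280)
    0 (200 / 10000) (-(1140 / 10000)) 0 0 (6000 / 10000) (-(10 / 10000)) (570 / 10000) := by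
  intro x T a θ h1 h2 h3 h4 h5 h6 h7 h8
  exact chkF4 r_Zb (by norm_num) (by push_cast; linarith only [h1]) (by push_cast; linarith only [h2])
    (by push_cast; linarith only [h3]) (by push_cast; linarith only [h4]) (by push_cast; linarith only [h5])
    (by push_cast; linarith only [h6]) (by push_cast; linarith only [h7]) (by push_cast; linarith only [h8])

theorem R_Zc : Rw (eK cl (ta 600 120 300) [] (-1050) 280)
    0 (200 / 10000) (-(1140 / 10000)) 0 0 (3500 / 10000) 0 (570 / 10000) := by
  intro x T a θ h1 h2 h3 h4 h5 h6 h7 h8
  exact chkF4 r_Zc (by norm_num) (by push_cast; linarith only [h1]) (by push_cast; linarith only [h2])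
    (by push_cast; linarith only [h3]) (by push_cast; linarith only [h4]) (by push_cast; linarith only [h5])
    (by push_cast; linarith only [h6]) (by push_cast; linarith only [h7]) (by push_cast; linarith only [h8])

theorem R_Xc : Rw (eK cx (ta 600 120 300) [] (-1050) 280)
    0 (200 / 10000) (-(1060 / 10000)) (-(150 / 10000)) 0 (4600 / 10000) (-(7 / 10000)) 0 := by
  intro x T a θ h1 h2 h3 h4 h5 h6 h7 h8
  exact chkF4 r_Xc (by norm_num) (by push_cast; linarith only [h1]) (by push_cast; linarith only [h2])
    (by push_cast; linarith only [h3]) (by push_cast; linarith only [h4]) (by push_cast; linarith only [h5])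
    (by push_cast; linarith only [h6]) (by push_cast; linarith only [h7]) (by push_cast; linarith only [h8])

theorem R_Xd : Rw (eK cx (ta 600 120 300) [] (-1050) 280)
    0 (200 / 10000) (-(1060 / 10000)) (-(380 / 10000)) (4600 / 10000) (6000 / 10000) (-(7 / 10000)) 0 := by
  intro x T a θ h1 h2 h3 h4 h5 h6 h7 h8
  exact chkF4 r_Xd (by norm_num) (by push_cast; linarith only [h1]) (by push_cast; linarith only [h2])
    (by push_cast; linarith only [h3]) (by push_cast; linarith only [h4]) (by push_cast; linarith only [h5])
    (by push_cast; linarith only [h6]) (by push_cast; linarith only [h7]) (by push_cast; linarith only [h8])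

theorem R_Xe : Rw (eK [(200, m20)] (ta 600 120 300) [] (-1050) 280)
    0 (200 / 10000) (-(250 / 10000)) (-(150 / 10000)) (4600 / 10000) (6000 / 10000) (-(7 / 10000)) 0 := by
  intro x T a θ h1 h2 h3 h4 h5 h6 h7 h8
  exact chkF4 r_Xe (by norm_num) (by push_cast; linarith only [h1]) (by push_cast; linarith only [h2])
    (by push_cast; linarith only [h3]) (by push_cast; linarith only [h4]) (by push_cast; linarith only [h5])
    (by push_cast; linarith only [h6]) (by push_cast; linarith only [h7]) (by push_cast; linarith only [h8])

theorem R_Xf : Rw (eK [(200, n20)] (ta 600 120 300) [] (-1050) 280)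
    0 (200 / 10000) (-(380 / 10000)) (-(250 / 10000)) (4600 / 10000) (6000 / 10000) (-(7 / 10000)) 0 := by
  intro x T a θ h1 h2 h3 h4 h5 h6 h7 h8
  exact chkF4 r_Xf (by norm_num) (by push_cast; linarith only [h1]) (by push_cast; linarith only [h2])
    (by push_cast; linarith only [h3]) (by push_cast; linarith only [h4]) (by push_cast; linarith only [h5])
    (by push_cast; linarith only [h6]) (by push_cast; linarith only [h7]) (by push_cast; linarith only [h8])

theorem R_Ra : Rw (eK ch (cc 0) [flR] (-2000) 2000)
    (200 / 10000) (8000 / 10000) (-(1230 / 10000)) 0 0 (6000 / 10000) 0 0 := by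
  intro x T a θ h1 h2 h3 h4 h5 h6 h7 h8
  exact chkF4 r_Ra (by norm_num) (by push_cast; linarith only [h1]) (by push_cast; linarith only [h2])
    (by push_cast; linarith only [h3]) (by push_cast; linarith only [h4]) (by push_cast; linarith only [h5])
    (by push_cast; linarith only [h6]) (by push_cast; linarith only [h7]) (by push_cast; linarith only [h8])

theorem R_Rb : Rw (eK ch0 (cc 0) [] (-2000) 2000)
    0 (200 / 10000) (-(1230 / 10000)) 0 0 (6000 / 10000) 0 0 := by
  intro x T a θ h1 h2 h3 h4 h5 h6 h7 h8
  exact chkF4 r_Rb (by norm_num) (by push_cast; linarith only [h1]) (by push_cast; linarith only [h2])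
    (by push_cast; linarith only [h3]) (by push_cast; linarith only [h4]) (by push_cast; linarith only [h5])
    (by push_cast; linarith only [h6]) (by push_cast; linarith only [h7]) (by push_cast; linarith only [h8])

theorem R_Rc : Rw (eK cl (cc 0) [] (-2000) 2000)
    0 (200 / 10000) (-(1230 / 10000)) 0 0 (3500 / 10000) 0 0 := by
  intro x T a θ h1 h2 h3 h4 h5 h6 h7 h8
  exact chkF4 r_Rc (by norm_num) (by push_cast; linarith only [h1]) (by push_cast; linarith only [h2])
    (by push_cast; linarith only [h3]) (by push_cast; linarith only [h4]) (by push_cast; linarith only [h5])
    (by push_cast; linarith only [h6]) (by push_cast; linarith only [h7]) (by push_cast; linarith only [h8])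

end IT

end Pool.Agent.Work.MP_b30479_gtS.G2

end
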