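import Pool.Agent.Work.MP_b30479_gt.TBS.G2.WM_in3D
import Pool.Agent.Work.MP_b30479_gt.TBS.G2.WLocF
import Pool.Agent.Work.MP_b30479_gt.TBS.G2.WMainS
import Pool.Agent.Work.MP_b30479_gt.TBS.G2.WM_in3Rg_4

section

/-!
# Mirrored paths, inner variable of an interior `3`: the moves

The inner variable `l` of the `3` is on its upper mirrored path at `x`.  `In3.W`: what is gained on
the right side (and in the value `V2 (l, w)` with the penalty) if `l` is moved to `c` on the main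
path; `In3.keep`, `In3.resp`: the resulting inequalities with the hinge in the slot `0` kept or
moved to `1/5`; `In3.flip`: the vertical move.
-/

namespace Pool.Agent.Work.MP_b30479_gtS.G2

open Finset VOL Filter Topology

namespace IT

open NumGs

/-- ramp function of the inner variable -/
noncomputable def tau3 (x : ℝ) : ℝ := tr 0 (8 / 10) (5 / 100) (5 / 100) x

theorem tau3_mem (x : ℝ) : 0 ≤ tau3 x ∧ tau3 x ≤ 1 := SR.tr_mem _ _ _ _ _

theorem tau3_flat {x : ℝ} (h0 : 5 / 100 ≤ x) (h1 : x ≤ 75 / 100) : tau3 x = 1 := by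
  unfold tau3 tr
  rw [sub_zero, min_eq_left (le_min ((one_le_div (by norm_num)).2 h0)
    ((one_le_div (by norm_num)).2 (by linarith only [h1])))]
  norm_num

theorem tl_val (x : ℝ) (xs : List ℝ) : tl.val (x :: xs) = tau3 x := by
  unfold tl vx tau3
  rw [E.tr_val (by norm_num) (by norm_num) (by norm_num)]
  have e0 : (E.var 0).val (x :: xs) = x := rfl
  rw [e0]
  norm_num

theorem cc_val (n : ℤ) (xs : List ℝ) : (cc n).val xs = (n : ℝ) / 1000 := by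
  unfold cc E.val
  push_cast
  rfl

theorem th_val (x : ℝ) (xs : List ℝ) : th.val (x :: xs) = 16 / 100 * tau3 x := by
  unfold th
  simp only [E.val, cc_val, tl_val]
  push_cast
  rw [show (160 : ℝ) / 1000 = 16 / 100 by norm_num]

theorem pen_val (x : ℝ) (xs : List ℝ) : pen.val (x :: xs) = 2 * Real.pi * (16 / 100 * tau3 x) := by
  unfold pen
  simp only [E.val, cc_val, tl_val]
  push_cast
  ring

/-- a wider trapezoid -/
theorem tr_hull {X cl cr X' cl' cr' : ℝ} (hl : 0 < cl') (hr : 0 < cr') (h1 : cl' ≤ cl)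
    (h2 : X ≤ X') (h3 : cr' ≤ cr + (X' - X)) (hcr : 0 < cr) (y : ℝ) :
    tr 0 X cl cr y ≤ tr 0 X' cl' cr' y := by
  have hcl : 0 < cl := hl.trans_le h1
  unfold tr
  rw [sub_zero]
  refine max_le (le_max_left _ _) ?_
  by_cases hy : y < 0
  · refine le_trans ?_ (le_max_left _ _)
    exact (min_le_right _ _).trans ((min_le_left _ _).trans (div_nonpos_of_nonpos_of_nonneg hy.le hcl.le))
  by_cases hy2 : X < y
  · refine le_trans ?_ (le_max_left _ _)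
    exact (min_le_right _ _).trans ((min_le_right _ _).trans
      (div_nonpos_of_nonpos_of_nonneg (by linarith only [hy2]) hcr.le))
  push Not at hy hy2
  refine le_trans ?_ (le_max_right _ _)
  refine le_min (min_le_left _ _) (le_min ?_ ?_)
  · refine (min_le_right _ _).trans ((min_le_left _ _).trans ?_)
    exact div_le_div_of_nonneg_left hy hl h1
  · -- right ramp
    rw [le_div_iff₀ hr]
    rcases le_total ((X - y) / cr) 1 with hc | hc
    · have h4 : min 1 (min (y / cl) ((X - y) / cr)) ≤ (X - y) / cr :=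
        (min_le_right _ _).trans (min_le_right _ _)
      have h5 : 0 ≤ (X - y) / cr := div_nonneg (by linarith only [hy2]) hcr.le
      have h6 : (X - y) / cr * cr = X - y := div_mul_cancel₀ _ hcr.ne'
      have h7 := mul_le_mul_of_nonneg_right h4 hr.le
      have h8 := mul_le_mul_of_nonneg_left h3 h5
      have h9 : (X - y) / cr * (X' - X) ≤ 1 * (X' - X) :=
        mul_le_mul_of_nonneg_right hc (by linarith only [h2])
      linarith only [h6, h7, h8, h9]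
    · have h4 : min 1 (min (y / cl) ((X - y) / cr)) ≤ 1 := min_le_left _ _
      have h6 : cr ≤ X - y := by rwa [one_le_div hcr] at hc
      have h7 := mul_le_mul_of_nonneg_right h4 hr.le
      linarith only [h3, h6, h7]

/-- a height on a smaller trapezoid -/
theorem par_hull {T τ1 τ2 t0 t1 : ℝ} (h0 : 0 ≤ τ1) (h1 : τ1 ≤ τ2) (ht0 : t0 ≤ 0) (ht1 : 0 ≤ t1)
    (hT0 : t0 ≤ T) (hT1 : T ≤ t1) : ∃ θ, t0 ≤ θ ∧ θ ≤ t1 ∧ T * τ1 = θ * τ2 := by
  rcases eq_or_lt_of_le (h0.trans h1) with h2 | h2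
  · refine ⟨0, ht0, ht1, ?_⟩
    have h3 : τ1 = 0 := le_antisymm (h1.trans h2.symm.le) h0
    rw [h3, mul_zero, zero_mul]
  · have h3 : τ1 / τ2 ≤ 1 := (div_le_one h2).2 h1
    have h4 : 0 ≤ τ1 / τ2 := div_nonneg h0 h2.le
    refine ⟨T * (τ1 / τ2), ?_, ?_, ?_⟩
    · rcases le_total 0 T with h5 | h5
      · exact ht0.trans (mul_nonneg h5 h4)
      · have := mul_le_mul_of_nonpos_left h3 h5
        linarith only [hT0, this]
    · rcases le_total 0 T with h5 | h5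
      · have := mul_le_mul_of_nonneg_left h3 h5
        linarith only [hT1, this]
      · exact (mul_nonpos_of_nonpos_of_nonneg h5 h4).trans ht1
    · rw [mul_assoc, div_mul_cancel₀ _ h2.ne']

end IT

namespace SR

open IT NumGs

variable {M : ℕ} {b : Fin (M + 1) → ℤ} {zs : DD (tyW b) ⊕ ZZ (tyW b) → ℂ}
variable {R : Finset (DD (tyW b))} {nb : Finset (DD (tyW b) ⊕ ZZ (tyW b))}
variable {z : DD (tyW b) ⊕ ZZ (tyW b) → ℂ} {p : DD (tyW b) → ℝ}
variable {m : {i : Fin (M + 1) // (tyW b i).isMid = true}} {h0 h2 : Fin M} {j0 j2 : Fin (M + 1)}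
variable {x : ℝ}

/-- **The inner variable of an interior `3` on its upper mirrored path**, the hinges of the region
without penalty. -/
structure In3 (b : Fin (M + 1) → ℤ) (zs : DD (tyW b) ⊕ ZZ (tyW b) → ℂ) (R : Finset (DD (tyW b)))
    (nb : Finset (DD (tyW b) ⊕ ZZ (tyW b))) (z : DD (tyW b) ⊕ ZZ (tyW b) → ℂ)
    (p : DD (tyW b) → ℝ) (m : {i : Fin (M + 1) // (tyW b i).isMid = true}) (h0 h2 : Fin M)
    (j0 j2 : Fin (M + 1)) (x : ℝ) : Prop where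
  hb : ClassW b
  L : LocA b zs
  N : NbT b R nb
  Mx : MM b zs R nb z p
  c : clsW b m.1 = .three
  nn : Sum.inl (Sum.inr m) ∉ nb
  hq : ∀ h : Fin M, RH1 b (.inl h) → p (.inl h) = 0
  hA : ∀ (h : Fin M) (s : Fin 3) (j : Fin (M + 1)), Adj h m.1 s j → p (.inl h) = 0
  hB : ∀ (h : Fin M) (i j : Fin (M + 1)), Adj h i 0 j →
    p (.inl h) = 0 ∨ (clsW b i = .one ∧ clsW b j = .three)
  A0 : Adj h0 m.1 0 j0
  A2 : Adj h2 m.1 2 j2
  x0 : 0 < x
  x1 : x < 8 / 10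
  T0 : Tm b zs m ≤ 0
  own : Ow b z m.1 1 = ⟨x, 16 / 100 * tau3 x⟩
  pm : p (.inr m) = 16 / 100 * tau3 x

theorem tgi_i3 (m : {i : Fin (M + 1) // (tyW b i).isMid = true}) (hc : clsW b m.1 = .three)
    (y : ℝ) : tgi b zs m y = ⟨y, Tm b zs m * tau3 y⟩ := by
  unfold tgi Tm tau3
  rw [hc]
  rfl

theorem not_tch_of (hN : NbT b R nb) (A : Adj h0 m.1 0 j0) (hc : clsW b m.1 = .three)
    (hn : Sum.inl (Sum.inr m) ∉ nb) : ¬ Tch b R m.1 := by
  intro ht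
  exact hn (hN.mem ht (q := 1) (by simp [cf]))

/-- **Gain of the right side**, the inner variable moved to `c`. -/
def In3.W (_ : In3 b zs R nb z p m h0 h2 j0 j2 x) (c β : ℝ) : Prop :=
  ∃ X2 f2, FarG b zs nb z p h2 j2 X2 f2 ∧
    β ≤ V2 ⟨c, Tm b zs m⟩ (ofr (b m.1) X2) - V2 (Ow b z m.1 1) (Ow b z m.1 2) + f2 -
      UU (Ow b z m.1 1) + 2 * Real.pi * p (.inr m)

variable (S : In3 b zs R nb z p m h0 h2 j0 j2 x)
include S

theorem In3.keep {c β : ℝ} (hW : S.W c β) (c0 : 5 / 100 ≤ c) (c1 : c ≤ 75 / 100) :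
    vA (Ow b z m.1 0) ⟨c, Tm b zs m⟩ - vA (Ow b z m.1 0) (Ow b z m.1 1) +
      UU (Ow b z m.1 1) + β ≤ 0 := by
  obtain ⟨X2, f2, F, hβ⟩ := hW
  have h1 := S.Mx.inner3 S.hb S.N.ok.1 m S.A0 S.A2 S.c S.nn (c' := c) (by linarith only [c0])
    (by linarith only [c1]) F
  rw [tgi_i3 m S.c, tau3_flat c0 c1, mul_one, V3_vA, V3_vA (Ow b z m.1 0) (Ow b z m.1 1)] at h1
  linarith only [hβ, h1]

theorem In3.flip : V3 (Ow b z m.1 0) ⟨x, Tm b zs m * tau3 x⟩ (Ow b z m.1 2) -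
    V3 (Ow b z m.1 0) ⟨x, 16 / 100 * tau3 x⟩ (Ow b z m.1 2) +
      2 * Real.pi * (16 / 100 * tau3 x) ≤ 0 := by
  have h1 := S.Mx.inner3 S.hb S.N.ok.1 m S.A0 S.A2 S.c S.nn (c' := x) S.x0.le
    (by linarith only [S, S.x1]) (FarG.keep h2 j2)
  rw [tgi_i3 m S.c, ofr_z S.A2, S.own, S.pm] at h1
  linarith only [h1]

/-- ramp of the hinge in the slot `0` -/
theorem In3.par0 : 65 / 100 ≥ wXM b h0 ∧ 6 / 10 ≤ wXM b h0 ∧
    (wcl b h0 = 12 / 100 ∨ wcl b h0 = 13 / 100) ∧ 15 / 100 ≤ wcr b h0 ∧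
    wcr b h0 + (65 / 100 - wXM b h0) ≥ 15 / 100 ∧
    (clsW b j0 = .one → wXM b h0 = 65 / 100 ∧ wcl b h0 = 13 / 100 ∧ wcr b h0 = 15 / 100) ∧
    (clsW b j0 = .two → wXM b h0 = 6 / 10 ∧ wcl b h0 = 12 / 100 ∧ wcr b h0 = 27 / 100) ∧
    (clsW b j0 = .three → wXM b h0 = 6 / 10 ∧ wcl b h0 = 13 / 100 ∧ wcr b h0 = 3 / 10) ∧
    (clsW b j0 = .twoE ∨ clsW b j0 = .threeE ∨ clsW b j0 = .ring →
      wXM b h0 = 6 / 10 ∧ wcl b h0 = 12 / 100 ∧ wcr b h0 = 3 / 10) := by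
  have A := S.A0
  have hc := S.c
  unfold wXM wcl wcr
  generalize hi : m.1 = i at A hc
  cases A
  rw [hc]
  rcases h1 : clsW b h0.castSucc <;> simp only [hp, hp1] <;> norm_num <;> decide

/-- ramp of the hinge in the slot `2` -/
theorem In3.par2 : (clsW b j2 = .one → wXM b h2 = 65 / 100 ∧ wcl b h2 = 15 / 100 ∧
    wcr b h2 = 29 / 100) ∧
    (clsW b j2 ≠ .one → wXM b h2 = 6 / 10 ∧ wcl b h2 = 13 / 100 ∧ wcr b h2 = 3 / 10) := by
  have A := S.A2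
  have hc := S.c
  unfold wXM wcl wcr
  generalize hi : m.1 = i at A hc
  cases A
  rw [hc]
  rcases h1 : clsW b h2.succ <;> simp only [hp] <;> norm_num <;> decide

theorem In3.trh15 : trh b h0 (1 / 5) = 1 := by
  obtain ⟨a1, a2, a3, a4, a5, a6, a7, a8, a9⟩ := S.par0
  have hl : 0 < wcl b h0 := wcl_pos h0
  have hr : 0 < wcr b h0 := wcr_pos h0
  have h1 : wcl b h0 ≤ 1 / 5 := by rcases a3 with h | h <;> rw [h] <;> norm_num
  have h2 : wcr b h0 ≤ wXM b h0 - 1 / 5 := by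
    rcases hc : clsW b j0 with _ | _ | _ | _ | _ | _
    · obtain ⟨e1, -, e3⟩ := a6 hc; rw [e1, e3]; norm_num
    · obtain ⟨e1, -, e3⟩ := a7 hc; rw [e1, e3]; norm_num
    · obtain ⟨e1, -, e3⟩ := a9 (Or.inl hc); rw [e1, e3]; norm_num
    · obtain ⟨e1, -, e3⟩ := a8 hc; rw [e1, e3]; norm_num
    · obtain ⟨e1, -, e3⟩ := a9 (Or.inr (Or.inl hc)); rw [e1, e3]; norm_num
    · obtain ⟨e1, -, e3⟩ := a9 (Or.inr (Or.inr hc)); rw [e1, e3]; norm_num
  unfold trh tr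
  rw [sub_zero, min_eq_left (le_min ((one_le_div hl).2 h1) ((one_le_div hr).2 h2))]
  norm_num

theorem In3.resp {c β g : ℝ} (hW : S.W c β) (c0 : 5 / 100 ≤ c) (c1 : c ≤ 75 / 100)
    (hn0 : Sum.inl (Sum.inl h0) ∉ nb) (G : SideG b zs nb z p h0 j0 (tg b zs h0 (1 / 5)) g) :
    vA ⟨1 / 5, Th b zs h0 m.1⟩ ⟨c, Tm b zs m⟩ - vA (Ow b z m.1 0) (Ow b z m.1 1) +
      UU (Ow b z m.1 1) + β + g ≤ 0 := by
  obtain ⟨X2, f2, F, hβ⟩ := hW
  have a2 := S.par0.2.1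
  have h1 := S.Mx.inner3b S.hb S.N.ok.1 m S.A0 S.A2 S.c S.nn (c' := c) (by linarith only [c0])
    (by linarith only [c1]) hn0 (c0 := 1 / 5) (by norm_num) (by linarith only [a2]) G F
  have e : tgo b zs h0 m.1 (1 / 5) = ⟨1 / 5, Th b zs h0 m.1⟩ := by
    unfold tgo
    rw [S.trh15, mul_one]
  rw [tgi_i3 m S.c, tau3_flat c0 c1, mul_one, e, V3_vA, V3_vA (Ow b z m.1 0) (Ow b z m.1 1),
    S.hA h0 0 j0 S.A0] at h1
  linarith only [hβ, h1]

end SR

end Pool.Agent.Work.MP_b30479_gtS.G2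

end

section

/-!
# Mirrored paths, inner variable of an interior `3`: the left side
-/

set_option deprecated.oldSectionVars true

namespace Pool.Agent.Work.MP_b30479_gtS.G2

open Finset VOL Filter Topology

namespace IT

open NumGs

theorem ke_val {t : E} {q : ℤ × E} {x T a θ : ℝ} (hq : bl 2 q.2 = true) :
    (ke t q).val [x, T, a, θ] =
      vA ⟨a, t.val [x, T, a, θ]⟩ ⟨(q.1 : ℝ) / 1000, T⟩ -
      vA ⟨a, t.val [x, T, a, θ]⟩ ⟨x, 16 / 100 * tau3 x⟩ + UU ⟨x, 16 / 100 * tau3 x⟩ +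
      bv q.2 x T := by
  have e1 : (ke t q).val [x, T, a, θ] = (kp (.var 2) t (cc q.1) vT vx th).val [x, T, a, θ] +
      q.2.val [x, T, a, θ] := rfl
  rw [e1, kp_val, bv_eq hq, cc_val, th_val]
  rfl

theorem re_val {t ph : E} {q : ℤ × E} {x T a θ : ℝ} (hq : bl 2 q.2 = true) :
    (re t ph q).val [x, T, a, θ] =
      vA ⟨1 / 5, θ⟩ ⟨(q.1 : ℝ) / 1000, T⟩ -
      vA ⟨a, t.val [x, T, a, θ]⟩ ⟨x, 16 / 100 * tau3 x⟩ + UU ⟨x, 16 / 100 * tau3 x⟩ +
      bv q.2 x T + ph.val [x, T, a, θ] := by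
  have e1 : (re t ph q).val [x, T, a, θ] = (va (cc 200) (.var 3) (cc q.1) vT).val [x, T, a, θ] -
      (vb (.var 2) t vx th).val [x, T, a, θ] + q.2.val [x, T, a, θ] + ph.val [x, T, a, θ] := rfl
  rw [e1, va_val, vb_val, bv_eq hq, cc_val, cc_val, th_val]
  have e2 : (((200 : ℤ) : ℝ) / 1000) = 1 / 5 := by norm_num
  rw [e2]
  have a0 : (vx).val [x, T, a, θ] = x := rfl
  have a1 : (vT).val [x, T, a, θ] = T := rfl
  have a2 : (E.var 2).val [x, T, a, θ] = a := rfl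
  have a3 : (E.var 3).val [x, T, a, θ] = θ := rfl
  rw [a0, a1, a2, a3]
  ring

theorem win_neg {s0 s1 : ℤ} {x T a θ : ℝ} (h0 : (s0 : ℝ) / 10000 ≤ T - θ)
    (h1 : T - θ ≤ (s1 : ℝ) / 10000) : ∀ e ∈ win s0 s1, e.val [x, T, a, θ] ≤ 0 := by
  intro e he
  unfold win at he
  simp only [List.mem_cons, List.not_mem_nil, or_false] at he
  have a1 : (vT).val [x, T, a, θ] = T := rfl
  have a3 : (E.var 3).val [x, T, a, θ] = θ := rfl
  rcases he with rfl | rfl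
  · show (vT).val [x, T, a, θ] - (E.var 3).val [x, T, a, θ] - (s1 : ℝ) / ((10000 : ℕ) : ℝ) ≤ 0
    rw [a1, a3]
    push_cast
    linarith only [h1]
  · show (s0 : ℝ) / ((10000 : ℕ) : ℝ) - ((vT).val [x, T, a, θ] - (E.var 3).val [x, T, a, θ]) ≤ 0
    rw [a1, a3]
    push_cast
    linarith only [h0]

theorem ta_val {X : ℤ} {cl cr : ℕ} (hl : 0 < cl) (hr : 0 < cr) (hs : (cl : ℤ) + cr ≤ X)
    {x T a θ : ℝ} : (ta X cl cr).val [x, T, a, θ] =
      θ * tr 0 ((X : ℝ) / 1000) ((cl : ℝ) / 1000) ((cr : ℝ) / 1000) a := by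
  have e1 : (ta X cl cr).val [x, T, a, θ] = θ * (E.tr X cl cr (.var 2)).val [x, T, a, θ] := rfl
  rw [e1, E.tr_val hl hr hs]
  rfl

/-- conditions on the menu of targets -/
def Mn (cs : List (ℤ × E)) : Prop := ∀ q ∈ cs, 50 ≤ q.1 ∧ q.1 ≤ 750 ∧ bl 2 q.2 = true

/-- the check of a menu -/
def mnB (cs : List (ℤ × E)) : Bool :=
  cs.all fun q => decide (50 ≤ q.1) && (decide (q.1 ≤ 750) && bl 2 q.2)

theorem Mn.of {cs : List (ℤ × E)} (h : mnB cs = true) : Mn cs := by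
  intro q hq
  unfold mnB at h
  rw [List.all_eq_true] at h
  have h1 := h q hq
  simp only [Bool.and_eq_true, decide_eq_true_eq] at h1
  exact ⟨h1.1, h1.2.1, h1.2.2⟩

theorem mn_ch : Mn ch := Mn.of (by decide +kernel)
theorem mn_ch0 : Mn ch0 := Mn.of (by decide +kernel)
theorem mn_cl : Mn cl := Mn.of (by decide +kernel)
theorem mn_cx : Mn cx := Mn.of (by decide +kernel)
theorem mn_m : Mn [(200, m20)] := Mn.of (by decide +kernel)
theorem mn_n : Mn [(200, n20)] := Mn.of (by decide +kernel)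

end IT

namespace SR

open IT NumGs

set_option deprecated.oldSectionVars false
variable {M : ℕ} {b : Fin (M + 1) → ℤ} {zs : DD (tyW b) ⊕ ZZ (tyW b) → ℂ}
set_option deprecated.oldSectionVars false
variable {R : Finset (DD (tyW b))} {nb : Finset (DD (tyW b) ⊕ ZZ (tyW b))}
set_option deprecated.oldSectionVars false
variable {z : DD (tyW b) ⊕ ZZ (tyW b) → ℂ} {p : DD (tyW b) → ℝ}
set_option deprecated.oldSectionVars false
variable {m : {i : Fin (M + 1) // (tyW b i).isMid = true}} {h0 h2 : Fin M} {j0 j2 : Fin (M + 1)}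
set_option deprecated.oldSectionVars false
variable {x : ℝ}

set_option deprecated.oldSectionVars false
variable (S : In3 b zs R nb z p m h0 h2 j0 j2 x)
set_option deprecated.oldSectionVars false
include S

/-- the gains of the right side for a menu -/
def In3.WW (cs : List (ℤ × E)) : Prop :=
  ∀ q ∈ cs, S.W ((q.1 : ℝ) / 1000) (bv q.2 x (Tm b zs m))

theorem In3.keepq {q : ℤ × E} {cs : List (ℤ × E)} (hc : Mn cs) (hW : S.WW cs) (hq : q ∈ cs)
    {t : E} {a θ : ℝ} (hu : Ow b z m.1 0 = ⟨a, t.val [x, Tm b zs m, a, θ]⟩) :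
    (ke t q).val [x, Tm b zs m, a, θ] ≤ 0 := by
  obtain ⟨c1, c2, c3⟩ := hc q hq
  have c1' : (50 : ℝ) ≤ q.1 := by exact_mod_cast c1
  have c2' : (q.1 : ℝ) ≤ 750 := by exact_mod_cast c2
  have h1 := S.keep (hW q hq) (by linarith only [c1']) (by linarith only [c2'])
  rw [hu, S.own] at h1
  rw [ke_val c3]
  linarith only [h1]

theorem In3.respq {q : ℤ × E} {cs : List (ℤ × E)} (hc : Mn cs) (hW : S.WW cs) (hq : q ∈ cs)
    {t ph : E} {a θ : ℝ} (hu : Ow b z m.1 0 = ⟨a, t.val [x, Tm b zs m, a, θ]⟩)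
    (hn0 : Sum.inl (Sum.inl h0) ∉ nb) (hθ : Th b zs h0 m.1 = θ)
    (G : SideG b zs nb z p h0 j0 (tg b zs h0 (1 / 5)) (ph.val [x, Tm b zs m, a, θ])) :
    (re t ph q).val [x, Tm b zs m, a, θ] ≤ 0 := by
  obtain ⟨c1, c2, c3⟩ := hc q hq
  have c1' : (50 : ℝ) ≤ q.1 := by exact_mod_cast c1
  have c2' : (q.1 : ℝ) ≤ 750 := by exact_mod_cast c2
  have h1 := S.resp (hW q hq) (by linarith only [c1']) (by linarith only [c2']) hn0 G
  rw [hu, S.own, hθ] at h1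
  rw [re_val c3]
  linarith only [h1]

/-- contradiction, the hinge in the slot `0` is kept -/
theorem In3.kill {cs : List (ℤ × E)} (hc : Mn cs) (hW : S.WW cs) {t : E} {ex : List E}
    {s0 s1 : ℤ} {a θ : ℝ} (hu : Ow b z m.1 0 = ⟨a, t.val [x, Tm b zs m, a, θ]⟩)
    (hex : ∀ e ∈ ex, e.val [x, Tm b zs m, a, θ] ≤ 0) (hs0 : (s0 : ℝ) / 10000 ≤ Tm b zs m - θ)
    (hs1 : Tm b zs m - θ ≤ (s1 : ℝ) / 10000)
    (h : ∃ e ∈ eK cs t ex s0 s1, 0 < e.val [x, Tm b zs m, a, θ]) : False := by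
  obtain ⟨e, he, hv⟩ := h
  unfold eK at he
  simp only [List.mem_append, List.mem_map] at he
  rcases he with (⟨q, hq, rfl⟩ | he) | he
  · exact absurd hv (not_lt.2 (S.keepq hc hW hq hu))
  · exact absurd hv (not_lt.2 (hex e he))
  · exact absurd hv (not_lt.2 (win_neg hs0 hs1 e he))

/-- contradiction, the hinge in the slot `0` is kept or moved to `1/5` -/
theorem In3.killR {cs : List (ℤ × E)} (hc : Mn cs) (hW : S.WW cs) {t ph : E} {ex : List E}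
    {s0 s1 : ℤ} {a θ : ℝ} (hu : Ow b z m.1 0 = ⟨a, t.val [x, Tm b zs m, a, θ]⟩)
    (hn0 : Sum.inl (Sum.inl h0) ∉ nb) (hθ : Th b zs h0 m.1 = θ)
    (G : SideG b zs nb z p h0 j0 (tg b zs h0 (1 / 5)) (ph.val [x, Tm b zs m, a, θ]))
    (hex : ∀ e ∈ ex, e.val [x, Tm b zs m, a, θ] ≤ 0) (hs0 : (s0 : ℝ) / 10000 ≤ Tm b zs m - θ)
    (hs1 : Tm b zs m - θ ≤ (s1 : ℝ) / 10000)
    (h : ∃ e ∈ IT.eR cs t ph ex s0 s1, 0 < e.val [x, Tm b zs m, a, θ]) : False := by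
  obtain ⟨e, he, hv⟩ := h
  unfold IT.eR at he
  simp only [List.mem_append, List.mem_map] at he
  rcases he with ((⟨q, hq, rfl⟩ | ⟨q, hq, rfl⟩) | he) | he
  · exact absurd hv (not_lt.2 (S.keepq hc hW hq hu))
  · exact absurd hv (not_lt.2 (S.respq hc hW hq hu hn0 hθ G))
  · exact absurd hv (not_lt.2 (hex e he))
  · exact absurd hv (not_lt.2 (win_neg hs0 hs1 e he))

/-- **A family of rows** -/
theorem In3.fam {X : ℤ} {cl' cr : ℕ} (hl : 0 < cl') (hr : 0 < cr) (hs : (cl' : ℤ) + cr ≤ X)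
    {ph : E} {s0 s1 : ℤ} {l0 l1 u0 u1 : ℝ}
    (ra : Rw (eK ch (ta X cl' cr) [flR] s0 s1) 0 (8000 / 10000) l0 l1 0 (2000 / 10000) u0 u1)
    (rb : Rw (IT.eR ch (ta X cl' cr) ph [flR] s0 s1) 0 (8000 / 10000) l0 l1 (2000 / 10000)
      ((X : ℝ) / 1000) u0 u1)
    (rc : Rw (eK cl (ta X cl' cr) [] s0 s1) 0 (200 / 10000) l0 l1 0 (2000 / 10000) u0 u1)
    (rd : Rw (IT.eR cl (ta X cl' cr) ph [] s0 s1) 0 (200 / 10000) l0 l1 (2000 / 10000)
      ((X : ℝ) / 1000) u0 u1)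
    (wh : 2 / 100 ≤ x ∨ 1 / 10 ≤ (Ow b z m.1 2).re → S.WW ch)
    (wl : x ≤ 2 / 100 → (Ow b z m.1 2).re ≤ 1 / 10 → S.WW cl)
    {a : ℝ} (a0 : 0 ≤ a) (a1 : a ≤ (X : ℝ) / 1000)
    (hu : Ow b z m.1 0 = ⟨a, Th b zs h0 m.1 *
      tr 0 ((X : ℝ) / 1000) ((cl' : ℝ) / 1000) ((cr : ℝ) / 1000) a⟩)
    (hn0 : Sum.inl (Sum.inl h0) ∉ nb) (T0 : l0 ≤ Tm b zs m) (T1 : Tm b zs m ≤ l1)
    (U0 : u0 ≤ Th b zs h0 m.1) (U1 : Th b zs h0 m.1 ≤ u1)
    (hs0 : (s0 : ℝ) / 10000 ≤ Tm b zs m - Th b zs h0 m.1)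
    (hs1 : Tm b zs m - Th b zs h0 m.1 ≤ (s1 : ℝ) / 10000)
    (G : 1 / 5 ≤ a → SideG b zs nb z p h0 j0 (tg b zs h0 (1 / 5))
      (ph.val [x, Tm b zs m, a, Th b zs h0 m.1]))
    (hf : flR.val [x, Tm b zs m, a, Th b zs h0 m.1] ≤ 0) : False := by
  have x0 := S.x0.le
  have x1 := S.x1.le
  have hu' : Ow b z m.1 0 = ⟨a, (ta X cl' cr).val [x, Tm b zs m, a, Th b zs h0 m.1]⟩ := by
    rw [ta_val hl hr hs]
    exact hu
  have hex : ∀ e ∈ [flR], e.val [x, Tm b zs m, a, Th b zs h0 m.1] ≤ 0 := by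
    intro e he
    rw [List.mem_singleton] at he
    rw [he]
    exact hf
  have hex0 : ∀ e ∈ ([] : List E), e.val [x, Tm b zs m, a, Th b zs h0 m.1] ≤ 0 := by
    intro e he
    exact absurd he (List.not_mem_nil)
  by_cases hd : 2 / 100 ≤ x ∨ 1 / 10 ≤ (Ow b z m.1 2).re
  · rcases le_total a (1 / 5) with h5 | h5
    · exact S.kill mn_ch (wh hd) hu' hex hs0 hs1
        (ra x0 (by linarith only [x1]) T0 T1 a0 (by linarith only [h5]) U0 U1)
    · exact S.killR mn_ch (wh hd) hu' hn0 rfl (G h5) hex hs0 hs1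
        (rb x0 (by linarith only [x1]) T0 T1 (by linarith only [h5]) a1 U0 U1)
  · push Not at hd
    have w := wl hd.1.le hd.2.le
    rcases le_total a (1 / 5) with h5 | h5
    · exact S.kill mn_cl w hu' hex0 hs0 hs1
        (rc x0 (by linarith only [hd]) T0 T1 a0 (by linarith only [h5]) U0 U1)
    · exact S.killR mn_cl w hu' hn0 rfl (G h5) hex0 hs0 hs1
        (rd x0 (by linarith only [hd]) T0 T1 (by linarith only [h5]) a1 U0 U1)

end SR

end Pool.Agent.Work.MP_b30479_gtS.G2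

end
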