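import Pool.Agent.Work.MP_b30479_gt.TBS.G2.WM_in3F
import Pool.Agent.Work.MP_b30479_gt.TBS.G2.WMainS
import Pool.Agent.Work.MP_b30479_gt.TBS.G2.WM_in3A
import Pool.Agent.Work.MP_b30479_gt.TBS.G2.WM_in3Sfs1_6
import Pool.Agent.Work.MP_b30479_gt.TBS.G2.WLocF
import Pool.Agent.Work.MP_b30479_gt.TBS.G2.WLocX
import Pool.Agent.Work.MP_b30479_gt.TBS.G2.WMid
import Pool.Agent.Work.MP_b30479_gt.TBS.G2.WM_in3Re_7
import Pool.Agent.Work.MP_b30479_gt.TBS.G2.WM_in3Rbs2
import Pool.Agent.Work.MP_b30479_gt.TBS.G2.WM_in3Rcs2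
import Pool.Agent.Work.MP_b30479_gt.TBS.G2.WM_in3Rds1_9
import Pool.Agent.Work.MP_b30479_gt.TBS.G2.WM_in3Re_5
import Pool.Agent.Work.MP_b30479_gt.TBS.G2.WM_in3Rg_5

section

/-!
# Mirrored paths, inner variable of an interior `3`: positions of the hinges, flips
-/

namespace Pool.Agent.Work.MP_b30479_gtS.G2

open Finset VOL Filter Topology

namespace IT

theorem lk0 (x y z w : ℝ) : NumIs.lkR [x, y, z, w] 0 = x := rfl
theorem lk1 (x y z w : ℝ) : NumIs.lkR [x, y, z, w] 1 = y := rfl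
theorem lk2 (x y z w : ℝ) : NumIs.lkR [x, y, z, w] 2 = z := rfl
theorem lk3 (x y z w : ℝ) : NumIs.lkR [x, y, z, w] 3 = w := rfl

end IT

namespace SR

open IT NumGs

variable {M : ℕ} {b : Fin (M + 1) → ℤ} {zs : DD (tyW b) ⊕ ZZ (tyW b) → ℂ}
variable {R : Finset (DD (tyW b))} {nb : Finset (DD (tyW b) ⊕ ZZ (tyW b))}
variable {z : DD (tyW b) ⊕ ZZ (tyW b) → ℂ} {p : DD (tyW b) → ℝ}
variable {m : {i : Fin (M + 1) // (tyW b i).isMid = true}} {h0 h2 : Fin M} {j0 j2 : Fin (M + 1)}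
variable {x : ℝ}

/-- position of a hinge without penalty -/
theorem NPos.zero' {h' : Fin M} {i : Fin (M + 1)} {s : Fin 3} {X : ℂ}
    (h0 : NPos b zs nb p h' i s X) (hp : p (.inl h') = 0) : 0 ≤ X.re ∧ X.re ≤ wXM b h' ∧
      ((Sum.inl (Sum.inl h') ∉ nb ∧ X.im = Th b zs h' i * trh b h' X.re) ∨
        (Sum.inl (Sum.inl h') ∈ nb ∧ X.im = 0)) := by
  cases h0 with
  | main y y0 y1 hn e hp => rw [e]; exact ⟨y0, y1, Or.inl ⟨hn, rfl⟩⟩
  | real y y0 y1 hn e hp => rw [e]; exact ⟨y0, y1, Or.inr ⟨hn, rfl⟩⟩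
  | up y y0 y1 hn hr hT e hp' =>
    rw [e]
    have h1 : mhs b h' s.rev * trh b h' y = 0 := by rw [← hp', hp]
    refine ⟨y0, y1, Or.inl ⟨hn, ?_⟩⟩
    show mhs b h' s.rev * trh b h' y = Th b zs h' i * trh b h' y
    rcases mul_eq_zero.1 h1 with h2 | h2
    · exact absurd h2 (mhs_pos _ _).ne'
    · rw [h2, mul_zero, mul_zero]
  | dn y y0 y1 hn hr hT e hp' =>
    rw [e]
    have h1 : mhs b h' s * trh b h' y = 0 := by rw [← hp', hp]
    refine ⟨y0, y1, Or.inl ⟨hn, ?_⟩⟩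
    show -(mhs b h' s * trh b h' y) = Th b zs h' i * trh b h' y
    rcases mul_eq_zero.1 h1 with h2 | h2
    · exact absurd h2 (mhs_pos _ _).ne'
    · rw [h2, mul_zero, mul_zero, neg_zero]

/-- position of a hinge of an untouched region, without penalty -/
theorem MM.pos3 (hb : ClassW b) (hN : NbT b R nb) (hM : MM b zs R nb z p)
    (hq : ∀ h : Fin M, RH1 b (.inl h) → p (.inl h) = 0) {h : Fin M} {i : Fin (M + 1)} {s : Fin 3}
    {j : Fin (M + 1)} (A : Adj h i s j) (ht : ¬ Tch b R i) (hp : p (.inl h) = 0) :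
    0 ≤ (Ow b z i s).re ∧ (Ow b z i s).re ≤ wXM b h ∧
      ((Sum.inl (Sum.inl h) ∉ nb ∧ (Ow b z i s).im = Th b zs h i * trh b h (Ow b z i s).re) ∨
        (Sum.inl (Sum.inl h) ∈ nb ∧ (Ow b z i s).im = 0)) :=
  (hM.npos0 hb hN.ok.1 hq A fun hR => ht ⟨_, hR, s, A.cf_ne⟩).zero' hp

/-- window of a hinge of an interior `3` -/
theorem win3 (hL : Loc b zs) {h : Fin M} {i : Fin (M + 1)} {s : Fin 3} {j : Fin (M + 1)}
    (hb : ClassW b) (A : Adj h i s j) (hi : clsW b i = .three) :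
    (hbox .three (clsW b j) false).t0 ≤ Th b zs h i ∧
      Th b zs h i ≤ (hbox .three (clsW b j) false).t1 := by
  have h1 := Th_mem hb hL A (by rw [hi]; decide)
  rwa [hi] at h1

/-- the window of the right hinge -/
theorem box3 (j : Cl) : -(1145 / 10000) ≤ (hbox .three j false).t0 ∧
    (hbox .three j false).t1 ≤ 57 / 1000 := by
  rcases j <;> simp only [hbox] <;> norm_num

variable (S : In3 b zs R nb z p m h0 h2 j0 j2 x)
include S

theorem In3.notT : ¬ Tch b R m.1 := not_tch_of S.N S.A0 S.c S.nn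

theorem In3.pos0 : 0 ≤ (Ow b z m.1 0).re ∧ (Ow b z m.1 0).re ≤ wXM b h0 ∧
      ((Sum.inl (Sum.inl h0) ∉ nb ∧
        (Ow b z m.1 0).im = Th b zs h0 m.1 * trh b h0 (Ow b z m.1 0).re) ∨
        (Sum.inl (Sum.inl h0) ∈ nb ∧ (Ow b z m.1 0).im = 0)) :=
  S.Mx.pos3 S.hb S.N S.hq S.A0 S.notT (S.hA h0 0 j0 S.A0)

theorem In3.pos2 : 0 ≤ (Ow b z m.1 2).re ∧ (Ow b z m.1 2).re ≤ wXM b h2 ∧
      ((Sum.inl (Sum.inl h2) ∉ nb ∧
        (Ow b z m.1 2).im = Th b zs h2 m.1 * trh b h2 (Ow b z m.1 2).re) ∨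
        (Sum.inl (Sum.inl h2) ∈ nb ∧ (Ow b z m.1 2).im = 0)) :=
  S.Mx.pos3 S.hb S.N S.hq S.A2 S.notT (S.hA h2 2 j2 S.A2)

/-- the left hinge is below the trapezoid of height `57/1000` -/
theorem In3.dom0 : 0 ≤ (Ow b z m.1 0).re ∧ (Ow b z m.1 0).re ≤ 65 / 100 ∧
    (Ow b z m.1 0).im ≤ 57 / 1000 * tr 0 (65 / 100) (12 / 100) (15 / 100) (Ow b z m.1 0).re := by
  obtain ⟨q1, q2, q3⟩ := S.pos0
  obtain ⟨a1, a2, a3, a4, a5, -⟩ := S.par0
  have hW := win3 S.L.L S.hb S.A0 S.c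
  have hB := box3 (clsW b j0)
  have hU := SR.tr_mem 0 (65 / 100) (12 / 100) (15 / 100) (Ow b z m.1 0).re
  refine ⟨q1, q2.trans a1, ?_⟩
  have ht := trh_mem (b := b) h0 (Ow b z m.1 0).re
  have hl : (12 : ℝ) / 100 ≤ wcl b h0 := by rcases a3 with h | h <;> rw [h] <;> norm_num
  have hh : trh b h0 (Ow b z m.1 0).re ≤
      tr 0 (65 / 100) (12 / 100) (15 / 100) (Ow b z m.1 0).re :=
    tr_hull (by norm_num) (by norm_num) hl a1 (by linarith only [a1, a4]) (by linarith only [a4]) _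
  rcases q3 with ⟨-, e⟩ | ⟨-, e⟩
  · rw [e]
    calc Th b zs h0 m.1 * trh b h0 (Ow b z m.1 0).re
        ≤ 57 / 1000 * trh b h0 (Ow b z m.1 0).re :=
          mul_le_mul_of_nonneg_right (by linarith only [hW, hB, hW.2, hB.2]) ht.1
      _ ≤ _ := mul_le_mul_of_nonneg_left hh (by norm_num)
  · rw [e]
    exact mul_nonneg (by norm_num) hU.1

/-- the right hinge -/
theorem In3.dom2 : 0 ≤ (Ow b z m.1 2).re ∧ (Ow b z m.1 2).re ≤ 65 / 100 ∧
    ((Ow b z m.1 2).re ≤ 1 / 10 → -(881 / 1000) * (Ow b z m.1 2).re ≤ (Ow b z m.1 2).im ∧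
      (Ow b z m.1 2).im ≤ 44 / 100 * (Ow b z m.1 2).re) := by
  obtain ⟨q1, q2, q3⟩ := S.pos2
  obtain ⟨a1, a2⟩ := S.par2
  have hX : wXM b h2 ≤ 65 / 100 ∧ 13 / 100 ≤ wcl b h2 := by
    by_cases hc : clsW b j2 = .one
    · obtain ⟨e1, e2, -⟩ := a1 hc; rw [e1, e2]; norm_num
    · obtain ⟨e1, e2, -⟩ := a2 hc; rw [e1, e2]; norm_num
  have hW := win3 S.L.L S.hb S.A2 S.c
  have hB := box3 (clsW b j2)
  refine ⟨q1, q2.trans hX.1, fun _ => ?_⟩
  set d := (Ow b z m.1 2).re with hd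
  have ht := trh_mem (b := b) h2 d
  have hcl := wcl_pos (b := b) h2
  have h5 : trh b h2 d * wcl b h2 ≤ d := by
    have : trh b h2 d ≤ d / wcl b h2 := by
      unfold trh tr
      refine max_le (div_nonneg q1 hcl.le) ?_
      refine (min_le_right _ _).trans ((min_le_left _ _).trans ?_)
      rw [sub_zero]
    calc trh b h2 d * wcl b h2 ≤ d / wcl b h2 * wcl b h2 :=
          mul_le_mul_of_nonneg_right this hcl.le
      _ = d := div_mul_cancel₀ _ hcl.ne'
  have h6 : trh b h2 d * (13 / 100) ≤ d :=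
    (mul_le_mul_of_nonneg_left hX.2 ht.1).trans h5
  rcases q3 with ⟨-, e⟩ | ⟨-, e⟩
  · rw [e]
    have k1 := mul_le_mul_of_nonneg_right (show Th b zs h2 m.1 ≤ 57 / 1000 by linarith only [hW, hB, hW.2, hB.2])
      ht.1
    have k2 := mul_le_mul_of_nonneg_right
      (show -(1145 / 10000) ≤ Th b zs h2 m.1 by linarith only [hW, hB, hW.1, hB.1]) ht.1
    constructor <;> linarith only [q1, h6, k2, k1]
  · rw [e]
    constructor <;> linarith only [q1]

/-! ### flips -/

theorem In3.noflip {u w : ℂ} (hu : Ow b z m.1 0 = u) (hw : Ow b z m.1 2 = w) :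
    ¬ (V3 u ⟨x, 16 / 100 * tau3 x⟩ w - V3 u ⟨x, Tm b zs m * tau3 x⟩ w <
      2 * Real.pi * (16 / 100 * tau3 x)) := by
  intro h
  have h1 := S.flip
  rw [hu, hw] at h1
  linarith only [h, h1]

theorem In3.noflip' (h : V3 ⟨(Ow b z m.1 0).re, (Ow b z m.1 0).im⟩ ⟨x, 16 / 100 * tau3 x⟩
      ⟨(Ow b z m.1 2).re, (Ow b z m.1 2).im⟩ -
    V3 ⟨(Ow b z m.1 0).re, (Ow b z m.1 0).im⟩ ⟨x, Tm b zs m * tau3 x⟩
      ⟨(Ow b z m.1 2).re, (Ow b z m.1 2).im⟩ < 2 * Real.pi * (16 / 100 * tau3 x)) : False :=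
  S.noflip (u := ⟨(Ow b z m.1 0).re, (Ow b z m.1 0).im⟩)
    (w := ⟨(Ow b z m.1 2).re, (Ow b z m.1 2).im⟩) (Complex.ext rfl rfl) (Complex.ext rfl rfl) h

theorem In3.flR_le (hT : -(123 / 1000) ≤ Tm b zs m) (θ : ℝ) :
    flR.val [x, Tm b zs m, (Ow b z m.1 0).re, θ] ≤ 0 := by
  by_contra hc
  push Not at hc
  obtain ⟨a0, a1, a2⟩ := S.dom0
  obtain ⟨d0, d1, -⟩ := S.dom2
  have e1 : flR.val [x, Tm b zs m, (Ow b z m.1 0).re, θ] =
      (x - 775 / 1000) - max ((x - 775 / 1000) -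
        ((Tm b zs m + 60 / 1000) + 150 / 1000 * (Ow b z m.1 0).re)) 0 := by
    simp only [flR, IT.mn, IT.cc, IT.vT, IT.vx, E.val, lk0, lk1, lk2]
    norm_num
  rw [e1] at hc
  have h1 : 0 < x - 775 / 1000 := by
    have := le_max_right ((x - 775 / 1000) -
        ((Tm b zs m + 60 / 1000) + 150 / 1000 * (Ow b z m.1 0).re)) 0
    linarith only [hc, this]
  have h2 : 0 < (Tm b zs m + 60 / 1000) + 150 / 1000 * (Ow b z m.1 0).re := by
    have := le_max_left ((x - 775 / 1000) -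
        ((Tm b zs m + 60 / 1000) + 150 / 1000 * (Ow b z m.1 0).re)) 0
    linarith only [hc, this]
  have h3 : 0 ≤ Tm b zs m + 6 / 100 + 15 / 100 * (Ow b z m.1 0).re := by linarith only [h2]
  have h4 : 775 / 1000 ≤ x := by linarith only [h1]
  exact S.noflip' (FI3.flR h4 S.x1 hT S.T0 h3 a0 a1 a2 d0 d1)

end SR

end Pool.Agent.Work.MP_b30479_gtS.G2

end

section

/-!
# The far sides of the neighbours of an interior `3`

A hinge `h` of an interior `3` is moved along its main path, the other variables of the neighbour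
`j` of the `3` are kept: gain of the side of `j`.
-/

namespace Pool.Agent.Work.MP_b30479_gtS.G2

open Finset VOL Filter Topology

namespace I3S

theorem tr_ub {XM cl cr y : ℝ} (hcl : 0 < cl) (hcr : 0 < cr) (h0 : 0 ≤ y) (h1 : y ≤ XM) :
    0 ≤ tr 0 XM cl cr y ∧ tr 0 XM cl cr y ≤ 1 ∧ cl * tr 0 XM cl cr y ≤ y ∧
      cr * tr 0 XM cl cr y ≤ XM - y := by
  have h2 : 0 ≤ (y - 0) / cl := div_nonneg (by linarith only [h0]) hcl.le
  have h3 : 0 ≤ (XM - y) / cr := div_nonneg (by linarith only [h1]) hcr.le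
  refine ⟨(SR.tr_mem _ _ _ _ _).1, (SR.tr_mem _ _ _ _ _).2, ?_, ?_⟩
  · have h4 : tr 0 XM cl cr y ≤ (y - 0) / cl := by
      unfold tr
      exact max_le h2 ((min_le_right _ _).trans (min_le_left _ _))
    rw [le_div_iff₀ hcl] at h4
    linarith only [h4]
  · have h4 : tr 0 XM cl cr y ≤ (XM - y) / cr := by
      unfold tr
      exact max_le h3 ((min_le_right _ _).trans (min_le_right _ _))
    rw [le_div_iff₀ hcr] at h4
    linarith only [h4]

theorem le_tr {H XM cl cr y k : ℝ} (hl : 0 < cl) (hr : 0 < cr) (h1 : k ≤ H)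
    (h2 : cl * k ≤ H * y) (h3 : cr * k ≤ H * (XM - y)) (h4 : 0 < H) : k ≤ H * tr 0 XM cl cr y := by
  unfold tr
  refine le_trans ?_ (mul_le_mul_of_nonneg_left (le_max_right _ _) h4.le)
  have e1 : k ≤ H * ((y - 0) / cl) := by
    rw [sub_zero, mul_div_assoc', le_div_iff₀ hl]
    linarith only [h2]
  have e2 : k ≤ H * ((XM - y) / cr) := by
    rw [mul_div_assoc', le_div_iff₀ hr]
    linarith only [h3]
  rw [mul_min_of_nonneg _ _ h4.le, mul_min_of_nonneg _ _ h4.le]
  exact le_min (by linarith only [h1]) (le_min e1 e2)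

/-- a height written with another ramp function -/
theorem repar {H κ t t' k : ℝ} (ht : 0 ≤ t) (ht' : 0 ≤ t') (hH : 0 ≤ H) (h1 : t ≤ H * t')
    (h2 : k = κ * t ∨ k = 0) :
    ∃ κ', k = κ' * t' ∧ ((0 ≤ κ' ∧ κ' ≤ H * κ) ∨ (H * κ ≤ κ' ∧ κ' ≤ 0)) := by
  have h0 : ∃ κ', (0 : ℝ) = κ' * t' ∧ ((0 ≤ κ' ∧ κ' ≤ H * κ) ∨ (H * κ ≤ κ' ∧ κ' ≤ 0)) := by
    refine ⟨0, by ring, ?_⟩
    rcases le_total 0 κ with h3 | h3
    · exact Or.inl ⟨le_rfl, mul_nonneg hH h3⟩
    · exact Or.inr ⟨mul_nonpos_of_nonneg_of_nonpos hH h3, le_rfl⟩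
  rcases h2 with rfl | rfl
  · rcases ht'.eq_or_lt with h4 | h4
    · have h5 : t = 0 := le_antisymm (by rw [← h4] at h1; linarith only [h1]) ht
      rw [h5, mul_zero]
      exact h0
    · refine ⟨κ * t / t', by field_simp, ?_⟩
      rcases le_total 0 κ with h3 | h3
      · left
        refine ⟨div_nonneg (mul_nonneg h3 ht) ht', (div_le_iff₀ h4).2 ?_⟩
        nlinarith only [h1, h3, mul_le_mul_of_nonneg_left h1 h3]
      · right
        refine ⟨(le_div_iff₀ h4).2 ?_, div_nonpos_of_nonpos_of_nonneg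
          (mul_nonpos_of_nonpos_of_nonneg h3 ht) ht'⟩
        nlinarith only [h1, h3, mul_le_mul_of_nonpos_left h1 h3]
  · exact h0

end I3S

namespace SR

open NumGs

variable {M : ℕ} {b : Fin (M + 1) → ℤ} {zs : DD (tyW b) ⊕ ZZ (tyW b) → ℂ}
variable {R : Finset (DD (tyW b))} {nb : Finset (DD (tyW b) ⊕ ZZ (tyW b))}
variable {z : DD (tyW b) ⊕ ZZ (tyW b) → ℂ} {p : DD (tyW b) → ℝ}
variable {h h' h2 : Fin M} {i j j' r : Fin (M + 1)} {s : Fin 3} {x c a d : ℝ}

/-- the position of a hinge which is on no mirrored path -/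
theorem MM.pos0 (hM : MM b zs R nb z p) (A' : Adj h' i s j') (hp0 : p (.inl h') = 0)
    (hnR : (Sum.inl h' : DD (tyW b)) ∉ R) : 0 ≤ (Ow b z i s).re ∧ (Ow b z i s).re ≤ wXM b h' ∧
      ((Ow b z i s).im = Th b zs h' i * trh b h' (Ow b z i s).re ∨ (Ow b z i s).im = 0) := by
  rw [Ow_adj z A']
  by_cases hn : Sum.inl (Sum.inl h') ∈ nb
  · obtain ⟨e1, e2, e3, e4⟩ := hM.adm.reD _ hnR hn
    rw [ofr_re, ofr_im, e1, ofs_zero]
    exact ⟨e2, e3, Or.inr rfl⟩
  · obtain ⟨x, h0, h1, h2⟩ := hM.adm.onD (.inl h') hn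
    have hu : 0 < (wparM b zs).hu (.inl h') := (mh_pos (b := b) (zs := zs) (.inl h')).1
    have hd : 0 < (wparM b zs).hd (.inl h') := (mh_pos (b := b) (zs := zs) (.inl h')).2
    have e : ∀ H : ℝ, H * trh b h' x = 0 → H ≠ 0 → trh b h' x = 0 := by
      intro H h3 h4
      rcases mul_eq_zero.1 h3 with h5 | h5
      · exact absurd h5 h4
      · exact h5
    rcases h2 with ⟨e1, e2⟩ | ⟨e1, e2⟩ | ⟨e1, e2⟩
    · rw [ofr_re, ofr_im, e1, ptm_re, ptm_im, ofs_mulR]
      exact ⟨h0, h1, Or.inl rfl⟩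
    · have h3 : trh b h' x = 0 := e _ (by rw [hp0] at e2; exact e2.symm) hu.ne'
      rw [ofr_re, ofr_im, e1, ptm_re, ptm_im, ofs_mulR]
      refine ⟨h0, h1, Or.inr ?_⟩
      show _ * trh b h' x = _
      rw [h3, mul_zero]
    · have h3 : trh b h' x = 0 := e _ (by rw [hp0] at e2; exact e2.symm) hd.ne'
      rw [ofr_re, ofr_im, e1, ptm_re, ptm_im, ofs_mulR]
      refine ⟨h0, h1, Or.inr ?_⟩
      show _ * trh b h' x = _
      rw [h3, mul_zero]

/-- the hinge of the `3` seen from the neighbour -/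
theorem Ow_sym (hb : ClassW b) (A : Adj h i s j) (hi : clsW b i ≠ .ring)
    (e : Ow b z i s = ⟨a, Th b zs h i * trh b h a⟩) :
    Th b zs h j = -Th b zs h i ∧ Ow b z j s.rev = ⟨a, Th b zs h j * trh b h a⟩ := by
  have hs := sign_adj hb A hi
  have hT : Th b zs h j = -Th b zs h i := ofs_neg_of_opp hs _
  refine ⟨hT, ?_⟩
  rw [Ow_adj z A] at e
  have e1 := congrArg Complex.re e
  have e2 := congrArg Complex.im e
  rw [ofr_re] at e1
  rw [ofr_im] at e2
  rw [Ow_adj z A.symm]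
  apply Complex.ext
  · rw [ofr_re]
    exact e1
  · rw [ofr_im, ofs_neg_of_opp hs, e2, hT]
    show -(Th b zs h i * trh b h a) = -Th b zs h i * trh b h a
    ring

/-- the other hinge of a neighbour, height `κ` times the ramp function `X`, `cl`, `cr` -/
theorem MM.par0 (hN : NbT b R nb) (hM : MM b zs R nb z p) (A : Adj h j s i)
    (hn : Sum.inl (Sum.inl h) ∉ nb) (A2 : Adj h2 j s.rev r) (hp0 : p (.inl h2) = 0)
    {H X cl cr : ℝ} (hl : 0 < cl) (hr : 0 < cr) (hH : 1 ≤ H) (h1 : cl ≤ H * wcl b h2)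
    (h2' : cr ≤ H * wcr b h2) (h3 : wXM b h2 ≤ X) :
    ∃ y κ, 0 ≤ y ∧ y ≤ wXM b h2 ∧ Ow b z j s.rev = ⟨y, κ * tr 0 X cl cr y⟩ ∧
      ((0 ≤ κ ∧ κ ≤ H * Th b zs h2 j) ∨ (H * Th b zs h2 j ≤ κ ∧ κ ≤ 0)) := by
  obtain ⟨y0, y1, y2⟩ := hM.pos0 A2 hp0 fun hR => hN.not_tch A hn ⟨_, hR, s.rev, A2.cf_ne⟩
  set y := (Ow b z j s.rev).re with hy
  have ht : 0 ≤ trh b h2 y ∧ trh b h2 y ≤ 1 ∧ wcl b h2 * trh b h2 y ≤ y ∧
      wcr b h2 * trh b h2 y ≤ wXM b h2 - y := I3S.tr_ub (wcl_pos h2) (wcr_pos h2) y0 y1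
  obtain ⟨t0, t1, t2, t3⟩ := ht
  have hH0 : 0 < H := by linarith only [hH]
  have h4 : trh b h2 y ≤ H * tr 0 X cl cr y := by
    refine I3S.le_tr hl hr (by linarith only [hH, t1]) ?_ ?_ hH0
    · have := mul_le_mul_of_nonneg_right h1 t0
      have := mul_le_mul_of_nonneg_left t2 hH0.le
      linarith
    · have := mul_le_mul_of_nonneg_right h2' t0
      have := mul_le_mul_of_nonneg_left t3 hH0.le
      have := mul_le_mul_of_nonneg_left h3 hH0.le
      linarith
  obtain ⟨κ, k1, k2⟩ := I3S.repar t0 (tr_mem 0 X cl cr y).1 hH0.le h4 y2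
  exact ⟨y, κ, y0, y1, Complex.ext hy.symm k1, k2⟩

/-- the inner variable of a neighbour -/
theorem MM.parm (hN : NbT b R nb) (hM : MM b zs R nb z p)
    (m : {i : Fin (M + 1) // (tyW b i).isMid = true}) (A : Adj h m.1 s j)
    (hn : Sum.inl (Sum.inl h) ∉ nb) (hT0 : -(16 / 100) ≤ Tm b zs m) (hT1 : Tm b zs m ≤ 16 / 100) :
    ∃ y κ, 0 ≤ y ∧ y ≤ (mp (clsW b m.1)).XM ∧ Ow b z m.1 1 = ⟨y, κ * trm b m y⟩ ∧
      -(16 / 100) ≤ κ ∧ κ ≤ 16 / 100 := by
  rcases (hM.ipos hN m A hn).2 with ⟨y, y0, y1, e, hp⟩ | ⟨y, y0, y1, hT, e, hp⟩ |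
    ⟨y, y0, y1, hT, e, hp⟩
  · exact ⟨y, _, y0, y1, e, hT0, hT1⟩
  · exact ⟨y, _, y0, y1, e, by norm_num, le_rfl⟩
  · exact ⟨y, -(16 / 100), y0, y1, by rw [e, neg_mul], le_rfl, by norm_num⟩

/-! ### parameters of the hinge -/

theorem in3_par1 (A : Adj h i 0 j) (hi : clsW b i = .three) (hj : clsW b j = .one) :
    wXM b h = 65 / 100 ∧ wcl b h = 13 / 100 ∧ wcr b h = 15 / 100 := by
  rw [A.XM_eq b, A.cl_eq b, A.cr_eq b, hi, hj]
  unfold hpp
  rw [if_neg (by decide)]
  unfold hp hp1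
  norm_num

theorem in3_parK (A : Adj h i 2 j) (hi : clsW b i = .three) (hj : clsW b j = .one) :
    wXM b h = 65 / 100 ∧ wcl b h = 15 / 100 ∧ wcr b h = 29 / 100 := by
  rw [A.XM_eq b, A.cl_eq b, A.cr_eq b, hi, hj]
  unfold hpp hp
  norm_num

theorem in3_par2 (A : Adj h i 0 j) (hi : clsW b i = .three) (hj : clsW b j = .two) :
    wXM b h = 60 / 100 ∧ wcl b h = 12 / 100 ∧ wcr b h = 27 / 100 := by
  rw [A.XM_eq b, A.cl_eq b, A.cr_eq b, hi, hj]
  unfold hpp
  rw [if_neg (by decide)]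
  unfold hp
  norm_num

theorem in3_par3 (A : Adj h i 0 j) (hi : clsW b i = .three) (hj : clsW b j = .three) :
    wXM b h = 60 / 100 ∧ wcl b h = 13 / 100 ∧ wcr b h = 30 / 100 := by
  rw [A.XM_eq b, A.cl_eq b, A.cr_eq b, hi, hj]
  unfold hpp
  rw [if_neg (by decide)]
  unfold hp
  norm_num

theorem in3_par3E (A : Adj h i 0 j) (hi : clsW b i = .three) (hj : clsW b j = .threeE) :
    wXM b h = 60 / 100 ∧ wcl b h = 12 / 100 ∧ wcr b h = 30 / 100 := by
  rw [A.XM_eq b, A.cl_eq b, A.cr_eq b, hi, hj]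
  unfold hpp
  rw [if_neg (by decide)]
  unfold hp
  norm_num

/-- the target `1/5` -/
theorem in3_tg {X cl cr : ℝ} (hX : wXM b h = X) (hl : wcl b h = cl) (hr : wcr b h = cr)
    (h1 : 0 < cl) (h2 : cl ≤ 1 / 5) (h3 : 0 < cr) (h4 : cr ≤ X - 1 / 5) :
    tgo b zs h j (1 / 5) = ⟨1 / 5, Th b zs h j⟩ := by
  have ht : trh b h (1 / 5) = 1 := by
    unfold trh tr
    rw [hX, hl, hr, sub_zero, min_eq_left (le_min ((one_le_div h1).2 h2) ((one_le_div h3).2 h4))]
    norm_num
  unfold tgo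
  rw [ht, mul_one]

/-- behind a `1` next to a `3` -/
theorem in3_behind (hb : ClassW b) (A : Adj h i s j) (A2 : Adj h2 j s.rev.rev r)
    (hi : clsW b i = .three) (hj : clsW b j = .one) :
    clsW b r = .one ∨ clsW b r = .two ∨ clsW b r = .twoE := by
  have h1 := okp_of hb A.symm A2 hj
  rw [hi] at h1
  unfold ML.okp at h1
  simpa using h1

/-! ### digit `1` -/

section common

variable (hb : ClassW b) (L : LocA b zs) (hN : NbT b R nb) (hM : MM b zs R nb z p)
  (hi : clsW b i = .three) (hn : Sum.inl (Sum.inl h) ∉ nb)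
  (hB : ∀ {h' : Fin M} {s' : Fin 3} {j' : Fin (M + 1)}, Adj h' j s' j' → p (.inl h') = 0)
include hb L hN hM hi hn hB

/-- `1` behind the `1` -/
theorem in3_one1 (A : Adj h i 0 j) (hj : clsW b j = .one) (A2 : Adj h2 j 0 r)
    (hr : clsW b r = .one) (e : Ow b z i 0 = ⟨a, Th b zs h i * trh b h a⟩) (a0 : 1 / 5 ≤ a)
    (a1 : a ≤ wXM b h) (T0 : -(802 / 10000) ≤ Th b zs h i) (T1 : Th b zs h i ≤ -(241 / 10000)) :
    SideG b zs nb z p h j (tg b zs h (1 / 5)) (plR a (-30) [(200, -2, 5), (250, -1, 10),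
      (300, 4, 25), (350, 1, 10), (400, 2, 25), (450, 1, 25), (500, -49, 50), (550, -3, 50),
      (600, -11, 50)]) := by
  have As : Adj h j 2 i := A.symm
  have A2' : Adj h2 j (2 : Fin 3).rev r := A2
  obtain ⟨hX, hl, hr'⟩ := in3_par1 A hi hj
  obtain ⟨hT, e'⟩ := Ow_sym hb A (by rw [hi]; decide) e
  have e2 : Ow b z j 2 = ⟨a, Th b zs h j * trh b h a⟩ := e'
  obtain ⟨-, -, w3, w4⟩ := L.X.win As A2' hj
  obtain ⟨w1, w2, -, -⟩ := L.X.win (h' := h) (j' := i) A2 A.symm hj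
  rw [hi, hr] at w1 w2 w3 w4
  simp only [cw] at w1 w2 w3 w4
  have par := A2.XM_eq b
  have pal := A2.cl_eq b
  have par' := A2.cr_eq b
  rw [hj, hr] at par pal par'
  obtain ⟨y, κ, y0, y1, eY, hκ⟩ := hM.par0 hN As hn A2' (hB A2) (H := 1) (X := 86 / 100)
    (cl := 15 / 100) (cr := 20 / 100) (by norm_num) (by norm_num) le_rfl
    (by rw [pal]; unfold hpp hp; split_ifs <;> norm_num)
    (by rw [par']; unfold hpp hp; split_ifs <;> norm_num)
    (by rw [par]; unfold hpp hp; split_ifs <;> norm_num)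
  have yX : wXM b h2 ≤ 86 / 100 := by rw [par]; unfold hpp hp; split_ifs <;> norm_num
  have hw : ofs (b j) (zs (.inl (.inl h))).im = Th b zs h j := rfl
  have hw2 : ofs (b j) (zs (.inl (.inl h2))).im = Th b zs h2 j := rfl
  rw [hw, hw2] at w3 w4
  rw [hw2] at w1 w2
  have k := keep_one (zs := zs) (nb := nb) (z := z) (p := p) (c := 1 / 5) hb As hj
  rw [in3_tg hX hl hr' (by norm_num) (by norm_num) (by norm_num) (by norm_num), eY, e2] at k
  refine k.mono ?_
  rw [hX] at a1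
  have ht : trh b h a = tr 0 (65 / 100) (13 / 100) (15 / 100) a := by
    unfold trh
    rw [hX, hl, hr']
  rw [ht]
  refine I3S.nQ1 a0 a1 (by linarith only [T1, hT]) (by linarith only [T0, hT]) y0 (y1.trans yX) ?_ ?_ ?_ ?_ <;>
    rcases hκ with ⟨k0, k1⟩ | ⟨k0, k1⟩ <;> linarith only [k0, w1, w2, k1, T1, hT, w3, w4, T0]

/-- `2` behind the `1` -/
theorem in3_one2 (A : Adj h i 0 j) (hj : clsW b j = .one) (A2 : Adj h2 j 0 r)
    (hr : clsW b r = .two) (e : Ow b z i 0 = ⟨a, Th b zs h i * trh b h a⟩) (a0 : 1 / 5 ≤ a)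
    (a1 : a ≤ wXM b h) (T0 : -(915 / 10000) ≤ Th b zs h i) (T1 : Th b zs h i ≤ -(499 / 10000)) :
    SideG b zs nb z p h j (tg b zs h (1 / 5)) (plR a (-25) [(200, -1, 2), (250, -3, 25),
      (300, 4, 25), (350, 1, 10), (400, 3, 50), (450, 1, 25), (500, -26, 25), (550, 1, 50),
      (600, -1, 10)]) := by
  have As : Adj h j 2 i := A.symm
  have A2' : Adj h2 j (2 : Fin 3).rev r := A2
  obtain ⟨hX, hl, hr'⟩ := in3_par1 A hi hj
  obtain ⟨hT, e'⟩ := Ow_sym hb A (by rw [hi]; decide) e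
  have e2 : Ow b z j 2 = ⟨a, Th b zs h j * trh b h a⟩ := e'
  obtain ⟨-, -, w3, w4⟩ := L.X.win As A2' hj
  obtain ⟨w1, w2, -, -⟩ := L.X.win (h' := h) (j' := i) A2 A.symm hj
  rw [hi, hr] at w1 w2 w3 w4
  simp only [cw] at w1 w2 w3 w4
  have par := A2.XM_eq b
  have pal := A2.cl_eq b
  have par' := A2.cr_eq b
  rw [hj, hr] at par pal par'
  obtain ⟨y, κ, y0, y1, eY, hκ⟩ := hM.par0 hN As hn A2' (hB A2) (H := 1) (X := 80 / 100)
    (cl := 16 / 100) (cr := 29 / 100) (by norm_num) (by norm_num) le_rfl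
    (by rw [pal]; unfold hpp hp hp1; split_ifs <;> norm_num)
    (by rw [par']; unfold hpp hp hp1; split_ifs <;> norm_num)
    (by rw [par]; unfold hpp hp hp1; split_ifs <;> norm_num)
  have yX : wXM b h2 ≤ 80 / 100 := by rw [par]; unfold hpp hp hp1; split_ifs <;> norm_num
  have hw : ofs (b j) (zs (.inl (.inl h))).im = Th b zs h j := rfl
  have hw2 : ofs (b j) (zs (.inl (.inl h2))).im = Th b zs h2 j := rfl
  rw [hw, hw2] at w3 w4
  rw [hw2] at w1 w2
  have k := keep_one (zs := zs) (nb := nb) (z := z) (p := p) (c := 1 / 5) hb As hj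
  rw [in3_tg hX hl hr' (by norm_num) (by norm_num) (by norm_num) (by norm_num), eY, e2] at k
  refine k.mono ?_
  rw [hX] at a1
  have ht : trh b h a = tr 0 (65 / 100) (13 / 100) (15 / 100) a := by
    unfold trh
    rw [hX, hl, hr']
  rw [ht]
  refine I3S.nQ2 a0 a1 (by linarith only [T1, hT]) (by linarith only [T0, hT]) y0 (y1.trans yX) ?_ ?_ ?_ <;>
    rcases hκ with ⟨k0, k1⟩ | ⟨k0, k1⟩ <;> linarith only [k0, w1, k1, w2, w4]

/-- `2` at an end behind the `1` -/
theorem in3_oneE (A : Adj h i 0 j) (hj : clsW b j = .one) (A2 : Adj h2 j 0 r)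
    (hr : clsW b r = .twoE) (e : Ow b z i 0 = ⟨a, Th b zs h i * trh b h a⟩) (a0 : 1 / 5 ≤ a)
    (a1 : a ≤ wXM b h) (T0 : -(1145 / 10000) ≤ Th b zs h i) (T1 : Th b zs h i ≤ -(87 / 1000)) :
    SideG b zs nb z p h j (tg b zs h (1 / 5)) (plR a (-15) [(200, -3, 10), (250, 3, 50),
      (300, 1, 10), (350, 1, 10), (400, 3, 50), (450, 1, 25), (500, -99, 50), (550, -17, 50),
      (600, -9, 50)]) := by
  have As : Adj h j 2 i := A.symm
  have A2' : Adj h2 j (2 : Fin 3).rev r := A2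
  obtain ⟨hX, hl, hr'⟩ := in3_par1 A hi hj
  obtain ⟨hT, e'⟩ := Ow_sym hb A (by rw [hi]; decide) e
  have e2 : Ow b z j 2 = ⟨a, Th b zs h j * trh b h a⟩ := e'
  obtain ⟨-, -, w3, w4⟩ := L.X.win As A2' hj
  obtain ⟨w1, w2, -, -⟩ := L.X.win (h' := h) (j' := i) A2 A.symm hj
  rw [hi, hr] at w1 w2 w3 w4
  simp only [cw] at w1 w2 w3 w4
  have par := A2.XM_eq b
  have pal := A2.cl_eq b
  have par' := A2.cr_eq b
  rw [hj, hr] at par pal par'
  obtain ⟨y, κ, y0, y1, eY, hκ⟩ := hM.par0 hN As hn A2' (hB A2) (H := 1) (X := 70 / 100)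
    (cl := 14 / 100) (cr := 35 / 100) (by norm_num) (by norm_num) le_rfl
    (by rw [pal]; unfold hpp hp hp1; split_ifs <;> norm_num)
    (by rw [par']; unfold hpp hp hp1; split_ifs <;> norm_num)
    (by rw [par]; unfold hpp hp hp1; split_ifs <;> norm_num)
  have yX : wXM b h2 ≤ 70 / 100 := by rw [par]; unfold hpp hp hp1; split_ifs <;> norm_num
  have hw : ofs (b j) (zs (.inl (.inl h))).im = Th b zs h j := rfl
  have hw2 : ofs (b j) (zs (.inl (.inl h2))).im = Th b zs h2 j := rfl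
  rw [hw, hw2] at w3 w4
  rw [hw2] at w1 w2
  have k := keep_one (zs := zs) (nb := nb) (z := z) (p := p) (c := 1 / 5) hb As hj
  rw [in3_tg hX hl hr' (by norm_num) (by norm_num) (by norm_num) (by norm_num), eY, e2] at k
  refine k.mono ?_
  rw [hX] at a1
  have ht : trh b h a = tr 0 (65 / 100) (13 / 100) (15 / 100) a := by
    unfold trh
    rw [hX, hl, hr']
  rw [ht]
  refine I3S.nQE a0 a1 (by linarith only [T1, hT]) (by linarith only [T0, hT]) y0 (y1.trans yX) ?_ ?_ ?_ <;>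
    rcases hκ with ⟨k0, k1⟩ | ⟨k0, k1⟩ <;> linarith only [T1, hT, w4, k0, k1, w1, w3]

/-! ### digits `2` and `3` -/

/-- digit `2` -/
theorem in3_two (A : Adj h i 0 j) (hj : clsW b j = .two)
    (e : Ow b z i 0 = ⟨a, Th b zs h i * trh b h a⟩) (a0 : 1 / 5 ≤ a)
    (a1 : a ≤ wXM b h) (T0 : -(53 / 1000) ≤ Th b zs h i) (T1 : Th b zs h i ≤ 22 / 10000) :
    SideG b zs nb z p h j (tg b zs h (1 / 5)) (plR a (-30) [(200, -23, 50), (250, 13, 50),
      (300, 1, 5), (400, -3, 50)]) := by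
  have As : Adj h j 2 i := A.symm
  obtain ⟨h2, r, A2'⟩ := As.other' b (clsW_inner hb (Or.inr (Or.inl hj)))
  have A2 : Adj h2 j 0 r := A2'
  obtain ⟨hX, hl, hr'⟩ := in3_par2 A hi hj
  obtain ⟨hT, e'⟩ := Ow_sym hb A (by rw [hi]; decide) e
  have e2 : Ow b z j 2 = ⟨a, Th b zs h j * trh b h a⟩ := e'
  obtain ⟨w1, w2⟩ := Th_mem hb L.L A2 (by rw [hj]; decide)
  have par := A2.XM_eq b
  have pal := A2.cl_eq b
  have par' := A2.cr_eq b
  rw [hj] at par pal par' w1 w2
  have key : 10 / 100 ≤ 1 * wcl b h2 ∧ 28 / 100 ≤ 1 * wcr b h2 ∧ wXM b h2 ≤ 80 / 100 ∧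
      -(985 / 10000) ≤ Th b zs h2 j ∧ Th b zs h2 j ≤ 96 / 1000 := by
    unfold hpp at par pal par'
    rw [if_neg (by decide)] at par pal par'
    rw [par, pal, par']
    rcases hc : clsW b r with _ | _ | _ | _ | _ | _ <;> rw [hc] at w1 w2 <;>
      simp only [hbox] at w1 w2 <;> unfold hp hp1 <;>
      (refine ⟨?_, ?_, ?_, ?_, ?_⟩ <;> norm_num <;> linarith only [w1, w2])
  obtain ⟨q1, q2, q3, q4, q5⟩ := key
  obtain ⟨y, κ, y0, y1, eY, hκ⟩ := hM.par0 hN As hn A2' (hB A2) (H := 1) (X := 80 / 100)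
    (cl := 10 / 100) (cr := 28 / 100) (by norm_num) (by norm_num) le_rfl q1 q2 q3
  have k := keep_two (zs := zs) (nb := nb) (z := z) (p := p) (c := 1 / 5) hb As (Or.inl hj)
  rw [in3_tg hX hl hr' (by norm_num) (by norm_num) (by norm_num) (by norm_num), eY, e2] at k
  refine k.mono ?_
  rw [hX] at a1
  have ht : trh b h a = tr 0 (60 / 100) (12 / 100) (27 / 100) a := by
    unfold trh
    rw [hX, hl, hr']
  rw [ht]
  refine I3S.n2 a0 (a1.trans_eq (by norm_num)) (by linarith only [T1, hT]) (by linarith only [T0, hT]) y0 (y1.trans q3)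
    ?_ ?_ <;> rcases hκ with ⟨k0, k1⟩ | ⟨k0, k1⟩ <;> linarith only [k0, q4, q5, k1]

omit hB in
/-- digit `3`, the hinge in its slot `2` -/
theorem in3_threeL (A : Adj h i 0 j) (hj : clsW b j = .three)
    (e : Ow b z i 0 = ⟨a, Th b zs h i * trh b h a⟩) (a0 : 1 / 5 ≤ a)
    (a1 : a ≤ wXM b h) (T0 : -(22 / 1000) ≤ Th b zs h i) (T1 : Th b zs h i ≤ 22 / 1000) :
    SideG b zs nb z p h j (tg b zs h (1 / 5)) (plR a (-30) [(200, -19, 25), (250, 13, 50),
      (300, 7, 25), (400, 7, 50)]) := by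
  have hm : (tyW b j).isMid = true := tyW_isMid (Or.inl hj)
  set m : {i : Fin (M + 1) // (tyW b i).isMid = true} := ⟨j, hm⟩ with hmd
  have As : Adj h m.1 2 i := A.symm
  have he : isEnd j = false := clsW_inner hb (Or.inr (Or.inr hj))
  obtain ⟨h2, r, A2'⟩ := As.other' b he
  have A2 : Adj h2 j 0 r := A2'
  have hs : h2.succ = m.1 := by cases A2; rfl
  obtain ⟨hX, hl, hr'⟩ := in3_par3 A hi hj
  obtain ⟨hT, e'⟩ := Ow_sym hb A (by rw [hi]; decide) e
  have e2 : Ow b z j 2 = ⟨a, Th b zs h j * trh b h a⟩ := e'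
  have w := L.L.mid m he h2 hs
  obtain ⟨-, -, w1, w2⟩ := w
  rw [ofr_im] at w1 w2
  simp only [mbox] at w1 w2
  have hw : ofs (b m.1) (zs (.inl (.inr m))).im = Tm b zs m := rfl
  rw [hw] at w1 w2
  obtain ⟨y, κ, y0, y1, eY, k0, k1⟩ := hM.parm hN m As hn (by linarith only [w1]) (by linarith only [w2])
  have k := keep_three2 (zs := zs) (nb := nb) (z := z) (p := p) (c := 1 / 5) hb
    (show Adj h j 2 i from As) hj
  have eY' : Ow b z j 1 = ⟨y, κ * trm b m y⟩ := eY
  have hmp : mp (clsW b m.1) = ⟨8 / 10, 5 / 100, 5 / 100⟩ := by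
    show mp (clsW b j) = _
    rw [hj]
    rfl
  have htm : trm b m y = tr 0 (80 / 100) (5 / 100) (5 / 100) y := by
    unfold trm
    rw [hmp]
    norm_num
  rw [hmp] at y1
  rw [in3_tg hX hl hr' (by norm_num) (by norm_num) (by norm_num) (by norm_num), eY', e2,
    I3S.dV2x_three, htm] at k
  refine k.mono ?_
  rw [hX] at a1
  have ht : trh b h a = tr 0 (60 / 100) (13 / 100) (30 / 100) a := by
    unfold trh
    rw [hX, hl, hr']
  rw [ht]
  exact I3S.n3 a0 (a1.trans_eq (by norm_num)) (by linarith only [T1, hT]) (by linarith only [T0, hT]) y0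
    (y1.trans_eq (by norm_num)) k0 k1

omit hB in
/-- digit `3` at an end -/
theorem in3_threeE (A : Adj h i 0 j) (hj : clsW b j = .threeE)
    (e : Ow b z i 0 = ⟨a, Th b zs h i * trh b h a⟩) (a0 : 1 / 5 ≤ a)
    (a1 : a ≤ wXM b h) (T0 : -(28 / 1000) ≤ Th b zs h i) (T1 : Th b zs h i ≤ -(5 / 1000)) :
    SideG b zs nb z p h j (tg b zs h (1 / 5)) (plR a (-40) [(200, -4, 5), (300, 1, 10),
      (350, 4, 25), (400, 13, 50), (450, 9, 50), (500, -1, 25), (550, -12, 25)]) := by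
  have hm : (tyW b j).isMid = true := tyW_isMid (Or.inr hj)
  set m : {i : Fin (M + 1) // (tyW b i).isMid = true} := ⟨j, hm⟩ with hmd
  have As : Adj h m.1 2 i := A.symm
  have he : isEnd j = true := clsW_end (Or.inr hj)
  obtain ⟨hX, hl, hr'⟩ := in3_par3E A hi hj
  obtain ⟨hT, e'⟩ := Ow_sym hb A (by rw [hi]; decide) e
  have e2 : Ow b z j 2 = ⟨a, Th b zs h j * trh b h a⟩ := e'
  have w := L.L.midE m he
  obtain ⟨-, -, w1, w2⟩ := w
  rw [ofr_im] at w1 w2
  simp only [mboxE] at w1 w2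
  have hw : ofs (b m.1) (zs (.inl (.inr m))).im = Tm b zs m := rfl
  rw [hw] at w1 w2
  obtain ⟨y, κ, y0, y1, eY, k0, k1⟩ := hM.parm hN m As hn (by linarith only [w1]) (by linarith only [w2])
  have k := keep_threeE (zs := zs) (nb := nb) (z := z) (p := p) (c := 1 / 5)
    (show Adj h j 2 i from As) hj
  have eY' : Ow b z j 1 = ⟨y, κ * trm b m y⟩ := eY
  have hmp : mp (clsW b m.1) = ⟨77 / 100, 1 / 10, 2 / 10⟩ := by
    show mp (clsW b j) = _
    rw [hj]
    rfl
  have htm : trm b m y = tr 0 (77 / 100) (10 / 100) (20 / 100) y := by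
    unfold trm
    rw [hmp]
    norm_num
  rw [hmp] at y1
  rw [in3_tg hX hl hr' (by norm_num) (by norm_num) (by norm_num) (by norm_num), eY', e2, htm] at k
  refine k.mono ?_
  rw [hX] at a1
  have ht : trh b h a = tr 0 (60 / 100) (12 / 100) (30 / 100) a := by
    unfold trh
    rw [hX, hl, hr']
  rw [ht]
  exact I3S.n3e a0 (a1.trans_eq (by norm_num)) (by linarith only [T1, hT]) (by linarith only [T0, hT]) y0 y1 k0 k1

/-! ### the right hinge of the `3` -/

/-- a `1` on the right of the `3`, target `1/2` -/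
theorem in3_K (A : Adj h i 2 j) (hj : clsW b j = .one)
    (e : Ow b z i 2 = ⟨d, Th b zs h i * trh b h d⟩) (d0 : 6 / 10 ≤ d) (d1 : d ≤ 65 / 100) :
    FarG b zs nb z p h j (tg b zs h (1 / 2)) (plR d (-126) [(600, -32, 25)]) := by
  have As : Adj h j 0 i := A.symm
  obtain ⟨h2, r, A2'⟩ := As.other_one hb hj
  have A2 : Adj h2 j 2 r := A2'
  obtain ⟨hX, hl, hr'⟩ := in3_parK A hi hj
  obtain ⟨hT, e'⟩ := Ow_sym hb A (by rw [hi]; decide) e
  have e2 : Ow b z j 0 = ⟨d, Th b zs h j * trh b h d⟩ := e'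
  have hr3 := in3_behind hb A A2' hi hj
  obtain ⟨w1, w2, -, -⟩ := L.X.win (h' := h) (j' := i) A2 A.symm hj
  obtain ⟨w3, w4, -, -⟩ := L.X.win As A2' hj
  have hw : ofs (b j) (zs (.inl (.inl h))).im = Th b zs h j := rfl
  have hw2 : ofs (b j) (zs (.inl (.inl h2))).im = Th b zs h2 j := rfl
  rw [hw] at w3 w4
  rw [hw2] at w1 w2
  have par := A2.XM_eq b
  have pal := A2.cl_eq b
  have par' := A2.cr_eq b
  rw [hi] at w1 w2 w3 w4
  rw [hj] at par pal par'
  unfold hpp at par pal par'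
  rw [if_pos rfl] at par pal par'
  have key : ∃ H : ℝ, 1 ≤ H ∧ 15 / 100 ≤ H * wcl b h2 ∧ 20 / 100 ≤ H * wcr b h2 ∧
      wXM b h2 ≤ 86 / 100 ∧ -(91 / 1000) ≤ H * Th b zs h2 j ∧ H * Th b zs h2 j ≤ 77 / 1000 ∧
      21 / 1000 ≤ Th b zs h j ∧ Th b zs h j ≤ 1145 / 10000 := by
    rw [par, pal, par']
    rcases hr3 with hc | hc | hc <;> rw [hc] at w1 w2 w3 w4 <;> rw [hc] <;>
      simp only [cw] at w1 w2 w3 w4
    · refine ⟨1, le_rfl, ?_, ?_, ?_, by linarith only [w1], by linarith only [w2], by linarith only [w3], by linarith only [w4]⟩ <;>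
        unfold hp <;> split_ifs <;> norm_num
    · refine ⟨1, le_rfl, ?_, ?_, ?_, by linarith only [w1], by linarith only [w2], by linarith only [w3], by linarith only [w4]⟩ <;>
        unfold hp hp1 <;> norm_num
    · refine ⟨15 / 14, by norm_num, ?_, ?_, ?_, by linarith only [w1], by linarith only [w2], by linarith only [w3],
        by linarith only [w4]⟩ <;> unfold hp hp1 <;> norm_num
  obtain ⟨H, q0, q1, q2, q3, q4, q5, q6, q7⟩ := key
  obtain ⟨y, κ, y0, y1, eY, hκ⟩ := hM.par0 hN As hn A2' (hB A2) (H := H) (X := 86 / 100)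
    (cl := 15 / 100) (cr := 20 / 100) (by norm_num) (by norm_num) q0 q1 q2 q3
  have hw0 : (0 : ℝ) ≤ 1 / 2 := by norm_num
  have k := FarG.one (zs := zs) (nb := nb) (z := z) (p := p) (c := 1 / 2) hb As hj hn hw0
    (by rw [hX]; norm_num)
  rw [hB As, mul_zero, add_zero, eY, e2] at k
  refine k.mono ?_
  have ht : ∀ t, trh b h t = tr 0 (65 / 100) (15 / 100) (29 / 100) t := by
    intro t
    unfold trh
    rw [hX, hl, hr']
  unfold tgo
  rw [ht, ht]
  refine I3S.nK d0 d1 q6 q7 y0 (y1.trans q3) ?_ ?_ <;>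
    rcases hκ with ⟨k0, k1⟩ | ⟨k0, k1⟩ <;> linarith only [k0, q4, q5, k1]

end common

end SR

end Pool.Agent.Work.MP_b30479_gtS.G2

end

section

/-!
# Mirrored paths, inner variable of an interior `3`: the right side

`In3.W c β`: gain of the right side if the inner variable is moved to `c`; the hinge `w` in the
slot `2` is kept, or moved to `1/2` (a `1` behind it, `w` beyond `6/10`).
-/

namespace Pool.Agent.Work.MP_b30479_gtS.G2

open Finset VOL Filter Topology

namespace IT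

open NumGs

theorem w0 (x y z w : ℝ) : NumIs.lkR [x, y, z, w] 0 = x := rfl
theorem w1 (x y z w : ℝ) : NumIs.lkR [x, y, z, w] 1 = y := rfl
theorem w2 (x y z w : ℝ) : NumIs.lkR [x, y, z, w] 2 = z := rfl
theorem w3 (x y z w : ℝ) : NumIs.lkR [x, y, z, w] 3 = w := rfl

variable {x T d θ : ℝ}

theorem kk_val : kk.val [x, T, d, θ] = θ * tr 0 (65 / 100) (13 / 100) (29 / 100) d := by
  unfold kk
  simp only [E.val, w2, w3, E.tr_val (XM := 650) (cl := 130) (cr := 290) (by norm_num)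
    (by norm_num) (by norm_num)]
  norm_num

theorem wr_val (c : ℤ) {be : E} (h : bl 2 be = true) : (wr c be).val [x, T, d, θ] =
    V2 ⟨(c : ℝ) / 1000, T⟩ ⟨d, θ * tr 0 (65 / 100) (13 / 100) (29 / 100) d⟩ -
      V2 ⟨x, 16 / 100 * tau3 x⟩ ⟨d, θ * tr 0 (65 / 100) (13 / 100) (29 / 100) d⟩ -
      UU ⟨x, 16 / 100 * tau3 x⟩ + 2 * Real.pi * (16 / 100 * tau3 x) - bv be x T := by
  unfold wr
  rw [E.val, E.val, dW_val, bv_eq h, pen_val, cc_val, th_val, kk_val]
  rfl

theorem wk_val (c : ℤ) {be : E} (h : bl 2 be = true) : (wk c be).val [x, T, d, θ] =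
    V2 ⟨(c : ℝ) / 1000, T⟩ ⟨1 / 2, θ * tr 0 (65 / 100) (15 / 100) (29 / 100) (1 / 2)⟩ -
      V2 ⟨x, 16 / 100 * tau3 x⟩ ⟨d, θ * tr 0 (65 / 100) (15 / 100) (29 / 100) d⟩ -
      UU ⟨x, 16 / 100 * tau3 x⟩ + 2 * Real.pi * (16 / 100 * tau3 x) +
      plR d (-126) [(600, -32, 25)] - bv be x T := by
  unfold wk
  rw [E.val, E.val, E.val, dK_val, bv_eq h, pen_val, cc_val, th_val]
  have e1 : (cc 500).val [x, T, d, θ] = 1 / 2 := by rw [cc_val]; norm_num
  have e2 : ((E.var 3).mul (E.tr 650 150 290 (cc 500))).val [x, T, d, θ] =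
      θ * tr 0 (65 / 100) (15 / 100) (29 / 100) (1 / 2) := by
    simp only [E.val, w3, e1, E.tr_val (XM := 650) (cl := 150) (cr := 290) (by norm_num)
      (by norm_num) (by norm_num)]
    norm_num
  have e3 : ((E.var 3).mul (E.tr 650 150 290 (.var 2))).val [x, T, d, θ] =
      θ * tr 0 (65 / 100) (15 / 100) (29 / 100) d := by
    simp only [E.val, w2, w3, E.tr_val (XM := 650) (cl := 150) (cr := 290) (by norm_num)
      (by norm_num) (by norm_num)]
    norm_num
  have e4 : (phK (.var 2)).val [x, T, d, θ] = plR d (-126) [(600, -32, 25)] := by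
    unfold phK
    rw [E.pl_val]
    rfl
  rw [e1, e2, e3, e4]
  rfl

/-- the second test of the rows of the right side -/
theorem wx_pos (h : 0 < wx.val [x, T, d, θ]) : x < 2 / 100 ∧ d < 1 / 10 := by
  unfold wx mn vx at h
  simp only [E.val, cc_val, w0, w2] at h
  push_cast at h
  have h1 := le_max_right ((20 : ℝ) / 1000 - x - (100 / 1000 - d)) 0
  have h2 := le_max_left ((20 : ℝ) / 1000 - x - (100 / 1000 - d)) 0
  constructor <;> linarith only [h, h1, h2]

theorem wr_get {c : ℤ} {be : E} (h : 2 / 100 ≤ x ∨ 1 / 10 ≤ d)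
    (hx : ∃ f ∈ [wr c be, wx], 0 < f.val [x, T, d, θ]) : 0 < (wr c be).val [x, T, d, θ] := by
  obtain ⟨f, hf, hp⟩ := hx
  simp only [List.mem_cons, List.not_mem_nil, or_false] at hf
  rcases hf with rfl | rfl
  · exact hp
  · obtain ⟨h1, h2⟩ := wx_pos hp
    rcases h with h | h <;> linarith only [h1, h, h2]

theorem one_get {e : E} (hx : ∃ f ∈ [e], 0 < f.val [x, T, d, θ]) : 0 < e.val [x, T, d, θ] := by
  obtain ⟨f, hf, hp⟩ := hx
  rw [List.mem_singleton] at hf
  rwa [hf] at hp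

end IT

namespace SR

open IT NumGs

variable {M : ℕ} {b : Fin (M + 1) → ℤ} {zs : DD (tyW b) ⊕ ZZ (tyW b) → ℂ}
variable {R : Finset (DD (tyW b))} {nb : Finset (DD (tyW b) ⊕ ZZ (tyW b))}
variable {z : DD (tyW b) ⊕ ZZ (tyW b) → ℂ} {p : DD (tyW b) → ℝ}
variable {m : {i : Fin (M + 1) // (tyW b i).isMid = true}} {h0 h2 : Fin M} {j0 j2 : Fin (M + 1)}
variable {x d θ : ℝ}

/-- a hinge which is not real and without penalty is on its main path -/
theorem MM.pos1 {h' : Fin M} {i j' : Fin (M + 1)} {s : Fin 3} (hM : MM b zs R nb z p)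
    (A' : Adj h' i s j') (hp0 : p (.inl h') = 0) (hn : Sum.inl (Sum.inl h') ∉ nb) :
    (Ow b z i s).im = Th b zs h' i * trh b h' (Ow b z i s).re := by
  rw [Ow_adj z A']
  obtain ⟨x, h0, h1, h2⟩ := hM.adm.onD (.inl h') hn
  have hu : 0 < (wparM b zs).hu (.inl h') := (mh_pos (b := b) (zs := zs) (.inl h')).1
  have hd : 0 < (wparM b zs).hd (.inl h') := (mh_pos (b := b) (zs := zs) (.inl h')).2
  have e : ∀ H : ℝ, H * trh b h' x = 0 → H ≠ 0 → trh b h' x = 0 := by
    intro H h3 h4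
    rcases mul_eq_zero.1 h3 with h5 | h5
    · exact absurd h5 h4
    · exact h5
  rcases h2 with ⟨e1, e2⟩ | ⟨e1, e2⟩ | ⟨e1, e2⟩
  · rw [ofr_re, ofr_im, e1, ptm_re, ptm_im, ofs_mulR]
    rfl
  · have h3 : trh b h' x = 0 := e _ (by rw [hp0] at e2; exact e2.symm) hu.ne'
    rw [ofr_re, ofr_im, e1, ptm_re, ptm_im, ofs_mulR]
    show _ * trh b h' x = _ * trh b h' x
    rw [h3, mul_zero, mul_zero]
  · have h3 : trh b h' x = 0 := e _ (by rw [hp0] at e2; exact e2.symm) hd.ne'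
    rw [ofr_re, ofr_im, e1, ptm_re, ptm_im, ofs_mulR]
    show _ * trh b h' x = _ * trh b h' x
    rw [h3, mul_zero, mul_zero]

variable (S : In3 b zs R nb z p m h0 h2 j0 j2 x)
include S

theorem In3.T_mem : -(123 / 1000) ≤ Tm b zs m := by
  have h1 := S.L.X.mid m.2 S.A0 S.A2 S.c
  obtain ⟨h2, -, -, -⟩ := h1
  have e : ofs (b m.1) (zs (.inl (.inr ⟨m.1, m.2⟩))).im = Tm b zs m := rfl
  rw [e] at h2
  rcases hj : clsW b j0 <;> rcases hk : clsW b j2 <;> rw [hj, hk] at h2 <;>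
    simp only [mw] at h2 <;> linarith only [h2]

/-- the hinge `w` is kept -/
theorem In3.W_row {c : ℤ} {be : E} (hbe : bl 2 be = true)
    (e : Ow b z m.1 2 = ⟨d, θ * tr 0 (65 / 100) (13 / 100) (29 / 100) d⟩)
    (h : 0 < (IT.wr c be).val [x, Tm b zs m, d, θ]) :
    S.W ((c : ℝ) / 1000) (bv be x (Tm b zs m)) := by
  refine ⟨z (.inl (.inl h2)), 0, FarG.keep h2 j2, ?_⟩
  rw [wr_val c hbe] at h
  rw [ofr_z S.A2, S.own, S.pm, e]
  linarith only [h]

/-- the hinge `w` is moved to `1/2` -/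
theorem In3.W_rowK {c : ℤ} {be : E} (hbe : bl 2 be = true) (hn : Sum.inl (Sum.inl h2) ∉ nb)
    (hj : clsW b j2 = .one) (e : Ow b z m.1 2 = ⟨d, Th b zs h2 m.1 * trh b h2 d⟩)
    (d0 : 6 / 10 ≤ d) (d1 : d ≤ 65 / 100)
    (h : 0 < (IT.wk c be).val [x, Tm b zs m, d, Th b zs h2 m.1]) :
    S.W ((c : ℝ) / 1000) (bv be x (Tm b zs m)) := by
  have hB : ∀ {h' : Fin M} {s' : Fin 3} {j' : Fin (M + 1)}, Adj h' j2 s' j' → p (.inl h') = 0 := by
    intro h' s' j' A
    rcases A.slot with hs | hs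
    · subst hs
      have e1 : h' = h2 := A.eq_of_slot (k' := m.1) S.A2.symm
      rw [e1]
      exact S.hA h2 2 j2 S.A2
    · subst hs
      have A' : Adj h' j' 0 j2 := A.symm
      rcases S.hB h' j' j2 A' with h3 | ⟨-, h3⟩
      · exact h3
      · rw [hj] at h3
        exact absurd h3 (by decide)
  have F := in3_K S.hb S.L S.N S.Mx S.c hn hB S.A2 hj e d0 d1
  refine ⟨_, _, F, ?_⟩
  rw [wk_val c hbe] at h
  obtain ⟨hX, hl, hr⟩ := S.par2.1 hj
  have ht : ∀ t, trh b h2 t = tr 0 (65 / 100) (15 / 100) (29 / 100) t := by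
    intro t
    unfold trh
    rw [hX, hl, hr]
  rw [ofr_tg, S.own, S.pm, e]
  unfold tgo
  rw [ht, ht]
  linarith only [h]

/-- positions of the hinge `w` -/
theorem In3.wpos : 0 ≤ (Ow b z m.1 2).re ∧
    (((Ow b z m.1 2).re ≤ 6 / 10 ∧ ∃ θ, -(1145 / 10000) ≤ θ ∧ θ ≤ 57 / 1000 ∧
      Ow b z m.1 2 = ⟨(Ow b z m.1 2).re,
        θ * tr 0 (65 / 100) (13 / 100) (29 / 100) (Ow b z m.1 2).re⟩) ∨
    (clsW b j2 = .one ∧ Sum.inl (Sum.inl h2) ∉ nb ∧ 6 / 10 ≤ (Ow b z m.1 2).re ∧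
      (Ow b z m.1 2).re ≤ 65 / 100 ∧ Ow b z m.1 2 = ⟨(Ow b z m.1 2).re,
        Th b zs h2 m.1 * trh b h2 (Ow b z m.1 2).re⟩ ∧
      -(1145 / 10000) ≤ Th b zs h2 m.1 ∧ Th b zs h2 m.1 ≤ -(21 / 1000))) := by
  have hnt := not_tch_of S.N S.A0 S.c S.nn
  obtain ⟨w0, w1, w2⟩ := S.Mx.pos0 S.A2 (S.hA h2 2 j2 S.A2) fun hR => hnt ⟨_, hR, 2, S.A2.cf_ne⟩
  set d := (Ow b z m.1 2).re with hd
  refine ⟨w0, ?_⟩
  obtain ⟨T0, T1⟩ := Th_mem S.hb S.L.L S.A2 (by rw [S.c]; decide)
  rw [S.c] at T0 T1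
  obtain ⟨p1, p2⟩ := S.par2
  have hT : -(1145 / 10000) ≤ Th b zs h2 m.1 ∧ Th b zs h2 m.1 ≤ 57 / 1000 := by
    rcases hc : clsW b j2 <;> rw [hc] at T0 T1 <;> simp only [hbox] at T0 T1 <;>
      constructor <;> linarith only [T0, T1]
  have hX : 0 < wcl b h2 ∧ 0 < wcr b h2 ∧ 13 / 100 ≤ wcl b h2 ∧ wXM b h2 ≤ 65 / 100 ∧
      29 / 100 ≤ wcr b h2 + (65 / 100 - wXM b h2) := by
    by_cases hj : clsW b j2 = .one
    · obtain ⟨e1, e2, e3⟩ := p1 hj
      rw [e1, e2, e3]; norm_num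
    · obtain ⟨e1, e2, e3⟩ := p2 hj
      rw [e1, e2, e3]; norm_num
  obtain ⟨q1, q2, q3, q4, q5⟩ := hX
  have hpar : ∃ θ, -(1145 / 10000) ≤ θ ∧ θ ≤ 57 / 1000 ∧
      Ow b z m.1 2 = ⟨d, θ * tr 0 (65 / 100) (13 / 100) (29 / 100) d⟩ := by
    rcases w2 with w2 | w2
    · obtain ⟨θ, t0, t1, e⟩ := par_hull (T := Th b zs h2 m.1) (τ1 := trh b h2 d)
        (τ2 := tr 0 (65 / 100) (13 / 100) (29 / 100) d) (t0 := -(1145 / 10000)) (t1 := 57 / 1000)
        (tr_mem _ _ _ _ _).1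
        (tr_hull (by norm_num) (by norm_num) q3 q4 q5 q2 d) (by norm_num) (by norm_num) hT.1 hT.2
      exact ⟨θ, t0, t1, Complex.ext rfl (w2.trans e)⟩
    · exact ⟨0, by norm_num, by norm_num, Complex.ext rfl (by rw [w2, zero_mul])⟩
  rcases le_total d (6 / 10) with h6 | h6
  · exact Or.inl ⟨h6, hpar⟩
  by_cases hj : clsW b j2 = .one
  · obtain ⟨e1, e2, e3⟩ := p1 hj
    by_cases hn : Sum.inl (Sum.inl h2) ∈ nb
    · have h7 := S.Mx.real_le S.hb S.N S.A2 hnt hn (Or.inl hj)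
      left
      exact ⟨by linarith only [q1, h6, e2, h7], hpar⟩
    · rw [e1] at w1
      rw [hj] at T0 T1
      simp only [hbox] at T0 T1
      exact Or.inr ⟨hj, hn, h6, w1,
        Complex.ext rfl (S.Mx.pos1 S.A2 (S.hA h2 2 j2 S.A2) hn), T0, T1⟩
  · obtain ⟨e1, e2, e3⟩ := p2 hj
    rw [e1] at w1
    exact Or.inl ⟨w1, hpar⟩

theorem In3.w_hi (h : 2 / 100 ≤ x ∨ 1 / 10 ≤ (Ow b z m.1 2).re) :
    ∀ q ∈ ch, S.W ((q.1 : ℝ) / 1000) (bv q.2 x (Tm b zs m)) := by
  intro q hq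
  have T0 := S.T_mem
  have T1 := S.T0
  have x0 := S.x0
  have x1 := S.x1
  obtain ⟨w0, w⟩ := S.wpos
  rcases w with ⟨d1, θ, t0, t1, e⟩ | ⟨hj, hn, d0, d1, e, t0, t1⟩
  · simp only [ch, List.mem_cons, List.not_mem_nil, or_false] at hq
    rcases hq with rfl | rfl | rfl
    · refine S.W_row (c := 300) (be := h30) rfl e ?_
      refine wr_get h ?_
      rcases le_total x (2 / 10) with hx | hx
      · exact chkF4 r_h30a (by norm_num) (by push_cast; linarith only [x0]) (by push_cast; linarith only [hx])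
          (by push_cast; linarith only [T0]) (by push_cast; linarith only [T1]) (by push_cast; linarith only [w0])
          (by push_cast; linarith only [d1]) (by push_cast; linarith only [t0]) (by push_cast; linarith only [t1])
      · exact chkF4 r_h30b (by norm_num) (by push_cast; linarith only [hx]) (by push_cast; linarith only [x1])
          (by push_cast; linarith only [T0]) (by push_cast; linarith only [T1]) (by push_cast; linarith only [w0])
          (by push_cast; linarith only [d1]) (by push_cast; linarith only [t0]) (by push_cast; linarith only [t1])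
    · refine S.W_row (c := 250) (be := h25) rfl e ?_
      refine wr_get h ?_
      rcases le_total x (2 / 10) with hx | hx
      · exact chkF4 r_h25a (by norm_num) (by push_cast; linarith only [x0]) (by push_cast; linarith only [hx])
          (by push_cast; linarith only [T0]) (by push_cast; linarith only [T1]) (by push_cast; linarith only [w0])
          (by push_cast; linarith only [d1]) (by push_cast; linarith only [t0]) (by push_cast; linarith only [t1])
      · exact chkF4 r_h25b (by norm_num) (by push_cast; linarith only [hx]) (by push_cast; linarith only [x1])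
          (by push_cast; linarith only [T0]) (by push_cast; linarith only [T1]) (by push_cast; linarith only [w0])
          (by push_cast; linarith only [d1]) (by push_cast; linarith only [t0]) (by push_cast; linarith only [t1])
    · refine S.W_row (c := 350) (be := h35) rfl e ?_
      refine wr_get h ?_
      rcases le_total x (2 / 10) with hx | hx
      · exact chkF4 r_h35a (by norm_num) (by push_cast; linarith only [x0]) (by push_cast; linarith only [hx])
          (by push_cast; linarith only [T0]) (by push_cast; linarith only [T1]) (by push_cast; linarith only [w0])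
          (by push_cast; linarith only [d1]) (by push_cast; linarith only [t0]) (by push_cast; linarith only [t1])
      · exact chkF4 r_h35b (by norm_num) (by push_cast; linarith only [hx]) (by push_cast; linarith only [x1])
          (by push_cast; linarith only [T0]) (by push_cast; linarith only [T1]) (by push_cast; linarith only [w0])
          (by push_cast; linarith only [d1]) (by push_cast; linarith only [t0]) (by push_cast; linarith only [t1])
  · simp only [ch, List.mem_cons, List.not_mem_nil, or_false] at hq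
    rcases hq with rfl | rfl | rfl
    · refine S.W_rowK (c := 300) (be := h30) rfl hn hj e d0 d1 (one_get ?_)
      exact chkF4 r_k30 (by norm_num) (by push_cast; linarith only [x0]) (by push_cast; linarith only [x1])
          (by push_cast; linarith only [T0]) (by push_cast; linarith only [T1]) (by push_cast; linarith only [d0])
          (by push_cast; linarith only [d1]) (by push_cast; linarith only [t0]) (by push_cast; linarith only [t1])
    · refine S.W_rowK (c := 250) (be := h25) rfl hn hj e d0 d1 (one_get ?_)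
      exact chkF4 r_k25 (by norm_num) (by push_cast; linarith only [x0]) (by push_cast; linarith only [x1])
          (by push_cast; linarith only [T0]) (by push_cast; linarith only [T1]) (by push_cast; linarith only [d0])
          (by push_cast; linarith only [d1]) (by push_cast; linarith only [t0]) (by push_cast; linarith only [t1])
    · refine S.W_rowK (c := 350) (be := h35) rfl hn hj e d0 d1 (one_get ?_)
      exact chkF4 r_k35 (by norm_num) (by push_cast; linarith only [x0]) (by push_cast; linarith only [x1])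
          (by push_cast; linarith only [T0]) (by push_cast; linarith only [T1]) (by push_cast; linarith only [d0])
          (by push_cast; linarith only [d1]) (by push_cast; linarith only [t0]) (by push_cast; linarith only [t1])

theorem In3.w_hi0 (h : x ≤ 2 / 100) (h' : 1 / 10 ≤ (Ow b z m.1 2).re) :
    ∀ q ∈ ch0, S.W ((q.1 : ℝ) / 1000) (bv q.2 x (Tm b zs m)) := by
  intro q hq
  simp only [ch0, List.mem_cons] at hq
  rcases hq with rfl | hq
  · have T0 := S.T_mem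
    have T1 := S.T0
    have x0 := S.x0
    obtain ⟨w0, w⟩ := S.wpos
    rcases w with ⟨d1, θ, t0, t1, e⟩ | ⟨hj, hn, d0, d1, e, t0, t1⟩
    · refine S.W_row (c := 200) (be := h20) rfl e (one_get ?_)
      exact chkF4 r_h20 (by norm_num) (by push_cast; linarith only [x0]) (by push_cast; linarith only [h])
          (by push_cast; linarith only [T0]) (by push_cast; linarith only [T1]) (by push_cast; linarith only [h'])
          (by push_cast; linarith only [d1]) (by push_cast; linarith only [t0]) (by push_cast; linarith only [t1])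
    · refine S.W_rowK (c := 200) (be := h20) rfl hn hj e d0 d1 (one_get ?_)
      exact chkF4 r_k20 (by norm_num) (by push_cast; linarith only [x0]) (by push_cast; linarith only [h])
          (by push_cast; linarith only [T0]) (by push_cast; linarith only [T1]) (by push_cast; linarith only [d0])
          (by push_cast; linarith only [d1]) (by push_cast; linarith only [t0]) (by push_cast; linarith only [t1])
  · exact S.w_hi (Or.inr h') q hq

/-- `w` at most at `1/10`: it is kept -/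
theorem In3.wlow (h' : (Ow b z m.1 2).re ≤ 1 / 10) : ∃ θ, -(1145 / 10000) ≤ θ ∧ θ ≤ 57 / 1000 ∧
    Ow b z m.1 2 = ⟨(Ow b z m.1 2).re,
      θ * tr 0 (65 / 100) (13 / 100) (29 / 100) (Ow b z m.1 2).re⟩ := by
  obtain ⟨w0, w⟩ := S.wpos
  rcases w with ⟨d1, w⟩ | ⟨hj, hn, d0, d1, -⟩
  · exact w
  · linarith only [h', d0]

theorem In3.w_lo (h : x ≤ 2 / 100) (h' : (Ow b z m.1 2).re ≤ 1 / 10) :
    ∀ q ∈ cl, S.W ((q.1 : ℝ) / 1000) (bv q.2 x (Tm b zs m)) := by
  intro q hq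
  have T0 := S.T_mem
  have T1 := S.T0
  have x0 := S.x0
  have w0 := S.wpos.1
  obtain ⟨θ, t0, t1, e⟩ := S.wlow h'
  simp only [cl, List.mem_cons, List.not_mem_nil, or_false] at hq
  rcases hq with rfl | rfl | rfl | rfl | rfl
  · refine S.W_row (c := 300) (be := l30) rfl e (one_get ?_)
    exact chkF4 r_l30 (by norm_num) (by push_cast; linarith only [x0]) (by push_cast; linarith only [h])
          (by push_cast; linarith only [T0]) (by push_cast; linarith only [T1]) (by push_cast; linarith only [w0])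
          (by push_cast; linarith only [h']) (by push_cast; linarith only [t0]) (by push_cast; linarith only [t1])
  · refine S.W_row (c := 350) (be := l35) rfl e (one_get ?_)
    exact chkF4 r_l35 (by norm_num) (by push_cast; linarith only [x0]) (by push_cast; linarith only [h])
          (by push_cast; linarith only [T0]) (by push_cast; linarith only [T1]) (by push_cast; linarith only [w0])
          (by push_cast; linarith only [h']) (by push_cast; linarith only [t0]) (by push_cast; linarith only [t1])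
  · refine S.W_row (c := 400) (be := l40) rfl e (one_get ?_)
    exact chkF4 r_l40 (by norm_num) (by push_cast; linarith only [x0]) (by push_cast; linarith only [h])
          (by push_cast; linarith only [T0]) (by push_cast; linarith only [T1]) (by push_cast; linarith only [w0])
          (by push_cast; linarith only [h']) (by push_cast; linarith only [t0]) (by push_cast; linarith only [t1])
  · refine S.W_row (c := 250) (be := l25) rfl e (one_get ?_)
    exact chkF4 r_l25 (by norm_num) (by push_cast; linarith only [x0]) (by push_cast; linarith only [h])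
          (by push_cast; linarith only [T0]) (by push_cast; linarith only [T1]) (by push_cast; linarith only [w0])
          (by push_cast; linarith only [h']) (by push_cast; linarith only [t0]) (by push_cast; linarith only [t1])
  · refine S.W_row (c := 200) (be := l20) rfl e (one_get ?_)
    exact chkF4 r_l20 (by norm_num) (by push_cast; linarith only [x0]) (by push_cast; linarith only [h])
          (by push_cast; linarith only [T0]) (by push_cast; linarith only [T1]) (by push_cast; linarith only [w0])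
          (by push_cast; linarith only [h']) (by push_cast; linarith only [t0]) (by push_cast; linarith only [t1])

theorem In3.w_lx (h : x ≤ 2 / 100) (h' : (Ow b z m.1 2).re ≤ 1 / 10) :
    ∀ q ∈ cx, S.W ((q.1 : ℝ) / 1000) (bv q.2 x (Tm b zs m)) := by
  intro q hq
  have T0 := S.T_mem
  have T1 := S.T0
  have x0 := S.x0
  have w0 := S.wpos.1
  obtain ⟨θ, t0, t1, e⟩ := S.wlow h'
  simp only [cx, List.mem_cons, List.not_mem_nil, or_false] at hq
  rcases hq with rfl | rfl | rfl | rfl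
  · refine S.W_row (c := 450) (be := l45) rfl e (one_get ?_)
    exact chkF4 r_l45 (by norm_num) (by push_cast; linarith only [x0]) (by push_cast; linarith only [h])
          (by push_cast; linarith only [T0]) (by push_cast; linarith only [T1]) (by push_cast; linarith only [w0])
          (by push_cast; linarith only [h']) (by push_cast; linarith only [t0]) (by push_cast; linarith only [t1])
  · refine S.W_row (c := 200) (be := l20) rfl e (one_get ?_)
    exact chkF4 r_l20 (by norm_num) (by push_cast; linarith only [x0]) (by push_cast; linarith only [h])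
          (by push_cast; linarith only [T0]) (by push_cast; linarith only [T1]) (by push_cast; linarith only [w0])
          (by push_cast; linarith only [h']) (by push_cast; linarith only [t0]) (by push_cast; linarith only [t1])
  · refine S.W_row (c := 300) (be := l30) rfl e (one_get ?_)
    exact chkF4 r_l30 (by norm_num) (by push_cast; linarith only [x0]) (by push_cast; linarith only [h])
          (by push_cast; linarith only [T0]) (by push_cast; linarith only [T1]) (by push_cast; linarith only [w0])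
          (by push_cast; linarith only [h']) (by push_cast; linarith only [t0]) (by push_cast; linarith only [t1])
  · refine S.W_row (c := 400) (be := l40) rfl e (one_get ?_)
    exact chkF4 r_l40 (by norm_num) (by push_cast; linarith only [x0]) (by push_cast; linarith only [h])
          (by push_cast; linarith only [T0]) (by push_cast; linarith only [T1]) (by push_cast; linarith only [w0])
          (by push_cast; linarith only [h']) (by push_cast; linarith only [t0]) (by push_cast; linarith only [t1])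

theorem In3.w_m20 (h : x ≤ 2 / 100) (h1 : 4 / 100 ≤ (Ow b z m.1 2).re)
    (h' : (Ow b z m.1 2).re ≤ 1 / 10) (hT : -(25 / 1000) ≤ Tm b zs m) :
    S.W (200 / 1000) (bv m20 x (Tm b zs m)) := by
  have T1 := S.T0
  have x0 := S.x0
  obtain ⟨θ, t0, t1, e⟩ := S.wlow h'
  have key : S.W (((200 : ℤ) : ℝ) / 1000) (bv m20 x (Tm b zs m)) := by
    refine S.W_row (c := 200) (be := m20) rfl e (one_get ?_)
    exact chkF4 r_m20 (by norm_num) (by push_cast; linarith only [x0]) (by push_cast; linarith only [h])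
          (by push_cast; linarith only [hT]) (by push_cast; linarith only [T1]) (by push_cast; linarith only [h1])
          (by push_cast; linarith only [h']) (by push_cast; linarith only [t0]) (by push_cast; linarith only [t1])
  have e2 : ((200 : ℤ) : ℝ) / 1000 = 200 / 1000 := by norm_num
  rwa [e2] at key

theorem In3.w_n20 (h : x ≤ 2 / 100) (h1 : 2 / 100 ≤ (Ow b z m.1 2).re)
    (h' : (Ow b z m.1 2).re ≤ 1 / 10) (hT : -(38 / 1000) ≤ Tm b zs m) :
    S.W (200 / 1000) (bv n20 x (Tm b zs m)) := by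
  have T1 := S.T0
  have x0 := S.x0
  obtain ⟨θ, t0, t1, e⟩ := S.wlow h'
  have key : S.W (((200 : ℤ) : ℝ) / 1000) (bv n20 x (Tm b zs m)) := by
    refine S.W_row (c := 200) (be := n20) rfl e (one_get ?_)
    exact chkF4 r_n20 (by norm_num) (by push_cast; linarith only [x0]) (by push_cast; linarith only [h])
          (by push_cast; linarith only [hT]) (by push_cast; linarith only [T1]) (by push_cast; linarith only [h1])
          (by push_cast; linarith only [h']) (by push_cast; linarith only [t0]) (by push_cast; linarith only [t1])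
  have e2 : ((200 : ℤ) : ℝ) / 1000 = 200 / 1000 := by norm_num
  rwa [e2] at key

end SR

end Pool.Agent.Work.MP_b30479_gtS.G2

end

section

/-!
# Mirrored paths, inner variable of an interior `3`: the classes of the left neighbour
-/

namespace Pool.Agent.Work.MP_b30479_gtS.G2

open Finset VOL Filter Topology

namespace SR

open IT NumGs

variable {M : ℕ} {b : Fin (M + 1) → ℤ} {zs : DD (tyW b) ⊕ ZZ (tyW b) → ℂ}
variable {R : Finset (DD (tyW b))} {nb : Finset (DD (tyW b) ⊕ ZZ (tyW b))}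
variable {z : DD (tyW b) ⊕ ZZ (tyW b) → ℂ} {p : DD (tyW b) → ℝ}
variable {m : {i : Fin (M + 1) // (tyW b i).isMid = true}} {h0 h2 : Fin M} {j0 j2 : Fin (M + 1)}
variable {x : ℝ}

/-- the value of a piecewise linear function of the hinge -/
theorem ph_val (y0 : ℤ) (l : List (ℤ × ℤ × ℕ)) (x T a θ : ℝ) :
    (E.pl (.var 2) y0 l).val [x, T, a, θ] = plR a y0 l := by
  rw [E.pl_val]
  rfl

theorem mw3_one (K : Cl) : -(745 / 10000) ≤ (mw3 false K).t0 ∧ (mw3 false K).t1 ≤ -(67 / 10000) ∧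
    -(170 / 10000) ≤ (mw3 false K).s0 ∧ (mw3 false K).s1 ≤ 471 / 10000 ∧
    -(802 / 10000) ≤ (mw3 false K).y0 ∧ (mw3 false K).y1 ≤ -(241 / 10000) := by
  rcases K <;> simp only [mw3] <;> norm_num

theorem mw3_two (K : Cl) : -(582 / 10000) ≤ (mw3 true K).t0 ∧
    172 / 10000 ≤ (mw3 true K).s0 ∧ (mw3 true K).s1 ≤ 631 / 10000 ∧
    -(915 / 10000) ≤ (mw3 true K).y0 ∧ (mw3 true K).y1 ≤ -(499 / 10000) := by
  rcases K <;> simp only [mw3] <;> norm_num

theorem mw2_bd (K : Cl) : -(885 / 10000) ≤ (mw2 K).t0 ∧ (mw2 K).t1 ≤ -(130 / 10000) ∧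
    -(535 / 10000) ≤ (mw2 K).s0 ∧ (mw2 K).s1 ≤ 135 / 10000 ∧
    -(530 / 10000) ≤ (mw2 K).y0 ∧ (mw2 K).y1 ≤ 22 / 10000 := by
  rcases K <;> simp only [mw2] <;> norm_num

theorem mw_one (K : Cl) (hK : K ≠ .one) : -(820 / 10000) ≤ (mw .one K).t0 ∧
    -(400 / 10000) ≤ (mw .one K).s0 ∧ (mw .one K).s1 ≤ 840 / 10000 := by
  rcases K <;> first | exact absurd rfl hK | (simp only [mw]; norm_num)

theorem mw_twoE (K : Cl) : -(1230 / 10000) ≤ (mw .twoE K).t0 ∧
    (mw .twoE K).t1 ≤ -(640 / 10000) ∧ -(480 / 10000) ≤ (mw .twoE K).s0 ∧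
    (mw .twoE K).s1 ≤ 320 / 10000 := by
  rcases K <;> simp only [mw] <;> norm_num

theorem mw_three {A : Cl} (hA : A = .three ∨ A = .threeE ∨ A = .ring) (K : Cl) :
    -(1140 / 10000) ≤ (mw A K).t0 ∧ -(1050 / 10000) ≤ (mw A K).s0 ∧
      (mw A K).s1 ≤ 280 / 10000 := by
  rcases hA with rfl | rfl | rfl <;> rcases K <;> simp only [mw] <;> norm_num

variable (S : In3 b zs R nb z p m h0 h2 j0 j2 x)
include S

theorem In3.cm : clsW b m.1 = .three := S.c

/-- no penalty at the hinges of the left region -/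
theorem In3.hBj (h1 : clsW b j0 ≠ .one ∨ ∀ {h r}, Adj h j0 0 r → clsW b r ≠ .three)
    {h' : Fin M} {s' : Fin 3} {j' : Fin (M + 1)} (A : Adj h' j0 s' j') : p (.inl h') = 0 := by
  rcases A.slot with rfl | rfl
  · rcases S.hB h' j0 j' A with h3 | h3
    · exact h3
    · rcases h1 with h1 | h1
      · exact absurd h3.1 h1
      · exact absurd h3.2 (h1 A)
  · have A' : Adj h0 j0 2 m.1 := S.A0.symm
    rw [A.eq_of_slot A']
    exact S.hA h0 0 j0 S.A0

/-- windows of the inner variable -/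
theorem In3.mid : (mw (clsW b j0) (clsW b j2)).t0 ≤ Tm b zs m ∧
    Tm b zs m ≤ (mw (clsW b j0) (clsW b j2)).t1 ∧
    (mw (clsW b j0) (clsW b j2)).s0 ≤ Tm b zs m - Th b zs h0 m.1 ∧
    Tm b zs m - Th b zs h0 m.1 ≤ (mw (clsW b j0) (clsW b j2)).s1 :=
  S.L.X.mid m.2 S.A0 S.A2 S.c

/-- the hinge in the slot `0` is real -/
theorem In3.no_real (hr : (Ow b z m.1 0).im = 0) (ha : (Ow b z m.1 0).re ≤ 6 / 10) : False := by
  obtain ⟨a0, -, -⟩ := S.dom0
  have hT := S.T_mem
  have hT0 := S.T0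
  have x0 := S.x0
  have x1 := S.x1
  set a := (Ow b z m.1 0).re with haa
  have hu : Ow b z m.1 0 = ⟨a, (IT.cc 0).val [x, Tm b zs m, a, 0]⟩ := by
    rw [cc_val]
    refine Complex.ext rfl ?_
    rw [hr]
    norm_num
  have hex : ∀ e ∈ [flR], e.val [x, Tm b zs m, a, 0] ≤ 0 := by
    intro e he
    rw [List.mem_singleton] at he
    rw [he]
    exact S.flR_le hT 0
  have hex0 : ∀ e ∈ ([] : List E), e.val [x, Tm b zs m, a, 0] ≤ 0 := by
    intro e he
    exact absurd he List.not_mem_nil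
  have hs0 : (((-2000 : ℤ) : ℝ)) / 10000 ≤ Tm b zs m - 0 := by push_cast; linarith only [hT, x0, x1]
  have hs1 : Tm b zs m - 0 ≤ (((2000 : ℤ) : ℝ)) / 10000 := by push_cast; linarith only [hT0, x0, x1]
  by_cases hx : 2 / 100 ≤ x
  · exact S.kill mn_ch (S.w_hi (Or.inl hx)) hu hex hs0 hs1
      (R_Ra (by linarith only [hx]) (by linarith only [x1]) (by linarith only [hT]) hT0 a0 (by linarith only [ha]) le_rfl le_rfl)
  push Not at hx
  by_cases hd : 1 / 10 ≤ (Ow b z m.1 2).re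
  · exact S.kill mn_ch0 (S.w_hi0 hx.le hd) hu hex0 hs0 hs1
      (R_Rb x0.le (by linarith only [hx]) (by linarith only [hT]) hT0 a0 (by linarith only [ha]) le_rfl le_rfl)
  push Not at hd
  by_cases h35 : a ≤ 35 / 100
  · exact S.kill mn_cl (S.w_lo hx.le hd.le) hu hex0 hs0 hs1
      (R_Rc x0.le (by linarith only [hx]) (by linarith only [hT]) hT0 a0 (by linarith only [h35]) le_rfl le_rfl)
  push Not at h35
  obtain ⟨d0, -, dk⟩ := S.dom2
  obtain ⟨k0, k1⟩ := dk hd.le
  have hx' : x ≤ 1 / 50 := by linarith only [hx]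
  have ht : 0 ≤ (Ow b z m.1 0).im := hr.ge
  exact S.noflip' (FI3.fl1 x0 hx' hT hT0 h35.le ha ht d0 hd.le k0 k1)

/-- the hinge in the slot `0` is on its main path -/
theorem In3.u_main : Sum.inl (Sum.inl h0) ∉ nb ∧ 0 ≤ (Ow b z m.1 0).re ∧
    (Ow b z m.1 0).re ≤ wXM b h0 ∧
    Ow b z m.1 0 = ⟨(Ow b z m.1 0).re, Th b zs h0 m.1 * trh b h0 (Ow b z m.1 0).re⟩ := by
  obtain ⟨q1, q2, ⟨hn, e⟩ | ⟨hn, e⟩⟩ := S.pos0
  · exact ⟨hn, q1, q2, Complex.ext rfl e⟩
  · exfalso
    refine S.no_real e ?_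
    obtain ⟨-, -, -, -, -, a6, a7, a8, a9⟩ := S.par0
    rcases hc : clsW b j0 with _ | _ | _ | _ | _ | _
    · have h1 := S.Mx.real_le S.hb S.N S.A0 S.notT hn (Or.inl hc)
      linarith only [h1]
    · rw [(a7 hc).1] at q2; exact q2
    · rw [(a9 (Or.inl hc)).1] at q2; exact q2
    · rw [(a8 hc).1] at q2; exact q2
    · rw [(a9 (Or.inr (Or.inl hc))).1] at q2; exact q2
    · rw [(a9 (Or.inr (Or.inr hc))).1] at q2; exact q2

/-- **A class of the left neighbour** -/
theorem In3.cls {X : ℤ} {cl' cr : ℕ} (hl : 0 < cl') (hr : 0 < cr) (hs : (cl' : ℤ) + cr ≤ X)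
    {ph : E} {s0 s1 : ℤ} {l0 l1 u0 u1 A1 : ℝ}
    (ra : Rw (eK ch (ta X cl' cr) [flR] s0 s1) 0 (8000 / 10000) l0 l1 0 (2000 / 10000) u0 u1)
    (rb : Rw (IT.eR ch (ta X cl' cr) ph [flR] s0 s1) 0 (8000 / 10000) l0 l1 (2000 / 10000)
      A1 u0 u1)
    (rc : Rw (eK cl (ta X cl' cr) [] s0 s1) 0 (200 / 10000) l0 l1 0 (2000 / 10000) u0 u1)
    (rd : Rw (IT.eR cl (ta X cl' cr) ph [] s0 s1) 0 (200 / 10000) l0 l1 (2000 / 10000)
      A1 u0 u1) (hA1 : (X : ℝ) / 1000 = A1)
    (hX : wXM b h0 = (X : ℝ) / 1000) (hcl : wcl b h0 = (cl' : ℝ) / 1000)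
    (hcr : wcr b h0 = (cr : ℝ) / 1000)
    (T0 : l0 ≤ Tm b zs m) (T1 : Tm b zs m ≤ l1)
    (U0 : u0 ≤ Th b zs h0 m.1) (U1 : Th b zs h0 m.1 ≤ u1)
    (hs0 : (s0 : ℝ) / 10000 ≤ Tm b zs m - Th b zs h0 m.1)
    (hs1 : Tm b zs m - Th b zs h0 m.1 ≤ (s1 : ℝ) / 10000)
    (G : ∀ a, Ow b z m.1 0 = ⟨a, Th b zs h0 m.1 * trh b h0 a⟩ → Sum.inl (Sum.inl h0) ∉ nb →
      1 / 5 ≤ a → a ≤ wXM b h0 → SideG b zs nb z p h0 j0 (tg b zs h0 (1 / 5))
        (ph.val [x, Tm b zs m, a, Th b zs h0 m.1])) : False := by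
  subst hA1
  obtain ⟨hn, a0, a1, e⟩ := S.u_main
  have ht : ∀ t, trh b h0 t = tr 0 ((X : ℝ) / 1000) ((cl' : ℝ) / 1000) ((cr : ℝ) / 1000) t := by
    intro t
    unfold trh
    rw [hX, hcl, hcr]
  refine S.fam hl hr hs ra rb rc rd (fun h => S.w_hi h) (fun h h' => S.w_lo h h') a0
    (a1.trans_eq hX) ?_ hn T0 T1 U0 U1 hs0 hs1 (fun h => G _ e hn h a1) (S.flR_le S.T_mem _)
  rw [← ht]
  exact e

/-! ### the classes -/

/-- the left neighbour is a `1` -/
theorem In3.one (hc : clsW b j0 = .one) : False := by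
  have As : Adj h0 j0 2 m.1 := S.A0.symm
  obtain ⟨h3, r, A3'⟩ := As.other_one S.hb hc
  have A3 : Adj h3 j0 0 r := A3'
  have beh : ∀ {h4 : Fin M} {r4 : Fin (M + 1)}, Adj h4 j0 0 r4 →
      clsW b r4 = .one ∨ clsW b r4 = .two ∨ clsW b r4 = .twoE :=
    fun A4 => in3_behind S.hb S.A0 A4 S.c hc
  have hBB : ∀ {h' : Fin M} {s' : Fin 3} {j' : Fin (M + 1)}, Adj h' j0 s' j' →
      p (.inl h') = 0 := fun A4 => S.hBj (Or.inr fun {h4 r4} A5 => by
    rcases beh A5 with h | h | h <;> rw [h] <;> decide) A4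
  obtain ⟨-, -, -, -, -, a6, -, -, -⟩ := S.par0
  obtain ⟨hX, hcl, hcr⟩ := a6 hc
  have hX' : wXM b h0 = ((650 : ℤ) : ℝ) / 1000 := by rw [hX]; norm_num
  have hcl' : wcl b h0 = ((130 : ℕ) : ℝ) / 1000 := by rw [hcl]; norm_num
  have hcr' : wcr b h0 = ((150 : ℕ) : ℝ) / 1000 := by rw [hcr]; norm_num
  have hT0 := S.T0
  rcases beh A3 with hr | hr | hr
  · have w : (mw3 false (clsW b j2)).In (Tm b zs m) (Th b zs h0 m.1) :=
      S.L.O.one m.2 S.A0 S.A2 A3 S.c hc hr
    obtain ⟨w1, w2, w3, w4, w5, w6⟩ := w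
    obtain ⟨v1, v2, v3, v4, v5, v6⟩ := mw3_one (clsW b j2)
    refine S.cls (X := 650) (cl' := 130) (cr := 150) (by norm_num) (by norm_num) (by norm_num)
      R_Q1a R_Q1b R_Q1c R_Q1d (by norm_num) hX' hcl' hcr' (v1.trans w1) (w2.trans v2)
      (v5.trans w5) (w6.trans v6) ?_ ?_ ?_
    · push_cast; linarith only [w3, v3]
    · push_cast; linarith only [w4, v4]
    · intro a e hn a0 a1
      rw [phQ1, ph_val]
      exact in3_one1 S.hb S.L S.N S.Mx S.c hn hBB S.A0 hc A3 hr e a0 a1 (v5.trans w5)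
        (w6.trans v6)
  · have w : (mw3 true (clsW b j2)).In (Tm b zs m) (Th b zs h0 m.1) :=
      S.L.O.two m.2 S.A0 S.A2 A3 S.c hc hr
    obtain ⟨w1, w2, w3, w4, w5, w6⟩ := w
    obtain ⟨v1, v3, v4, v5, v6⟩ := mw3_two (clsW b j2)
    refine S.cls (X := 650) (cl' := 130) (cr := 150) (by norm_num) (by norm_num) (by norm_num)
      R_Q2a R_Q2b R_Q2c R_Q2d (by norm_num) hX' hcl' hcr' (v1.trans w1) hT0
      (v5.trans w5) (w6.trans v6) ?_ ?_ ?_
    · push_cast; linarith only [w3, v3]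
    · push_cast; linarith only [w4, v4]
    · intro a e hn a0 a1
      rw [phQ2, ph_val]
      exact in3_one2 S.hb S.L S.N S.Mx S.c hn hBB S.A0 hc A3 hr e a0 a1 (v5.trans w5)
        (w6.trans v6)
  · have hT : Th b zs h0 j0 = -Th b zs h0 m.1 :=
      ofs_neg_of_opp (sign_adj S.hb S.A0 (by rw [S.c]; decide)) _
    obtain ⟨w5, w6, -, -⟩ := S.L.X.win As A3' hc
    rw [hr, S.c] at w5 w6
    simp only [cw] at w5 w6
    have w5' : 87 / 1000 ≤ Th b zs h0 j0 := w5
    have w6' : Th b zs h0 j0 ≤ 1145 / 10000 := w6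
    have w : -(820 / 10000) ≤ Tm b zs m ∧ -(400 / 10000) ≤ Tm b zs m - Th b zs h0 m.1 ∧
        Tm b zs m - Th b zs h0 m.1 ≤ 840 / 10000 := by
      by_cases hK : clsW b j2 = .one
      · have w : (⟨-(725 / 10000), -(440 / 10000), 370 / 10000, 560 / 10000, -(1120 / 10000),
            -(965 / 10000)⟩ : MWin).In (Tm b zs m) (Th b zs h0 m.1) :=
          S.L.U.tail m.2 S.A0 S.A2 A3 S.c hc hr hK
        obtain ⟨w1, w2, w3, w4, -, -⟩ := w
        simp only at w1 w2 w3 w4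
        refine ⟨?_, ?_, ?_⟩ <;> linarith only [w1, hT, w5', w6', w2]
      · obtain ⟨w1, w2, w3, w4⟩ := S.mid
        rw [hc] at w1 w2 w3 w4
        obtain ⟨v1, v2, v3⟩ := mw_one _ hK
        exact ⟨v1.trans w1, v2.trans w3, w4.trans v3⟩
    obtain ⟨w1, w3, w4⟩ := w
    refine S.cls (X := 650) (cl' := 130) (cr := 150) (by norm_num) (by norm_num) (by norm_num)
      R_QEa R_QEb R_QEc R_QEd (by norm_num) hX' hcl' hcr' w1 hT0 (by linarith only [hT, w6']) (by linarith only [hT, w5'])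
      ?_ ?_ ?_
    · push_cast; linarith only [hT, w5', w1]
    · push_cast; linarith only [w4]
    · intro a e hn a0 a1
      rw [phQE, ph_val]
      exact in3_oneE S.hb S.L S.N S.Mx S.c hn hBB S.A0 hc A3 hr e a0 a1 (by linarith only [hT, w6'])
        (by linarith only [hT, w5'])

/-- the left neighbour is a `2` -/
theorem In3.two (hc : clsW b j0 = .two) : False := by
  have hBB : ∀ {h' : Fin M} {s' : Fin 3} {j' : Fin (M + 1)}, Adj h' j0 s' j' →
      p (.inl h') = 0 := fun A4 => S.hBj (Or.inl (by rw [hc]; decide)) A4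
  obtain ⟨-, -, -, -, -, -, a6, -, -⟩ := S.par0
  obtain ⟨hX, hcl, hcr⟩ := a6 hc
  have hX' : wXM b h0 = ((600 : ℤ) : ℝ) / 1000 := by rw [hX]; norm_num
  have hcl' : wcl b h0 = ((120 : ℕ) : ℝ) / 1000 := by rw [hcl]; norm_num
  have hcr' : wcr b h0 = ((270 : ℕ) : ℝ) / 1000 := by rw [hcr]; norm_num
  have w : (mw2 (clsW b j2)).In (Tm b zs m) (Th b zs h0 m.1) :=
    S.L.D.two m.2 S.A0 S.A2 S.c hc
  obtain ⟨w1, w2, w3, w4, w5, w6⟩ := w
  obtain ⟨v1, v2, v3, v4, v5, v6⟩ := mw2_bd (clsW b j2)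
  refine S.cls (X := 600) (cl' := 120) (cr := 270) (by norm_num) (by norm_num) (by norm_num)
    R_T2a R_T2b R_T2c R_T2d (by norm_num) hX' hcl' hcr' (v1.trans w1) (w2.trans v2)
    (v5.trans w5) (w6.trans v6) ?_ ?_ ?_
  · push_cast; linarith only [w3, v3]
  · push_cast; linarith only [w4, v4]
  · intro a e hn a0 a1
    rw [ph2, ph_val]
    exact in3_two S.hb S.L S.N S.Mx S.c hn hBB S.A0 hc e a0 a1 (by linarith only [w5, v5]) (w6.trans v6)

/-- the left neighbour is a `3` -/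
theorem In3.three (hc : clsW b j0 = .three) : False := by
  obtain ⟨-, -, -, -, -, -, -, a6, -⟩ := S.par0
  obtain ⟨hX, hcl, hcr⟩ := a6 hc
  have hX' : wXM b h0 = ((600 : ℤ) : ℝ) / 1000 := by rw [hX]; norm_num
  have hcl' : wcl b h0 = ((130 : ℕ) : ℝ) / 1000 := by rw [hcl]; norm_num
  have hcr' : wcr b h0 = ((300 : ℕ) : ℝ) / 1000 := by rw [hcr]; norm_num
  obtain ⟨w1, w2, w3, w4⟩ := S.mid
  rw [hc] at w1 w2 w3 w4
  obtain ⟨v1, v3, v4⟩ := mw_three (Or.inl rfl : Cl.three = .three ∨ _) (clsW b j2)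
  obtain ⟨w5, w6⟩ := win3 S.L.L S.hb S.A0 S.c
  rw [hc] at w5 w6
  simp only [hbox] at w5 w6
  refine S.cls (X := 600) (cl' := 130) (cr := 300) (by norm_num) (by norm_num) (by norm_num)
    R_T3a R_T3b R_T3c R_T3d (by norm_num) hX' hcl' hcr' (v1.trans w1) S.T0
    (by linarith only [w5]) (by linarith only [w6]) ?_ ?_ ?_
  · push_cast; linarith only [w3, v3]
  · push_cast; linarith only [w4, v4]
  · intro a e hn a0 a1
    rw [ph3, ph_val]
    exact in3_threeL S.hb S.L S.N S.Mx S.c hn S.A0 hc e a0 a1 (by linarith only [w5]) (by linarith only [w6])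

/-- the left neighbour is a `3` at an end -/
theorem In3.threeE (hc : clsW b j0 = .threeE) : False := by
  obtain ⟨-, -, -, -, -, -, -, -, a6⟩ := S.par0
  obtain ⟨hX, hcl, hcr⟩ := a6 (Or.inr (Or.inl hc))
  have hX' : wXM b h0 = ((600 : ℤ) : ℝ) / 1000 := by rw [hX]; norm_num
  have hcl' : wcl b h0 = ((120 : ℕ) : ℝ) / 1000 := by rw [hcl]; norm_num
  have hcr' : wcr b h0 = ((300 : ℕ) : ℝ) / 1000 := by rw [hcr]; norm_num
  obtain ⟨w1, w2, w3, w4⟩ := S.mid
  rw [hc] at w1 w2 w3 w4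
  obtain ⟨v1, v3, v4⟩ := mw_three (Or.inr (Or.inl rfl) : Cl.threeE = .three ∨ _) (clsW b j2)
  obtain ⟨w5, w6⟩ := win3 S.L.L S.hb S.A0 S.c
  rw [hc] at w5 w6
  simp only [hbox] at w5 w6
  refine S.cls (X := 600) (cl' := 120) (cr := 300) (by norm_num) (by norm_num) (by norm_num)
    R_E3a R_E3b R_E3c R_E3d (by norm_num) hX' hcl' hcr' (v1.trans w1) S.T0
    (by linarith only [w5]) (by linarith only [w6]) ?_ ?_ ?_
  · push_cast; linarith only [w3, v3]
  · push_cast; linarith only [w4, v4]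
  · intro a e hn a0 a1
    rw [ph3e, ph_val]
    exact in3_threeE S.hb S.L S.N S.Mx S.c hn S.A0 hc e a0 a1 (by linarith only [w5]) (by linarith only [w6])

end SR

end Pool.Agent.Work.MP_b30479_gtS.G2

end

section

/-!
# Mirrored paths, inner variable of an interior `3`: the end `2` and rings as left neighbours
-/

namespace Pool.Agent.Work.MP_b30479_gtS.G2

open Finset VOL Filter Topology

namespace SR

open IT NumGs

variable {M : ℕ} {b : Fin (M + 1) → ℤ} {zs : DD (tyW b) ⊕ ZZ (tyW b) → ℂ}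
variable {R : Finset (DD (tyW b))} {nb : Finset (DD (tyW b) ⊕ ZZ (tyW b))}
variable {z : DD (tyW b) ⊕ ZZ (tyW b) → ℂ} {p : DD (tyW b) → ℝ}
variable {m : {i : Fin (M + 1) // (tyW b i).isMid = true}} {h0 h2 : Fin M} {j0 j2 : Fin (M + 1)}
variable {x : ℝ}

variable (S : In3 b zs R nb z p m h0 h2 j0 j2 x)
include S

/-- the hinge in the slot `0`, ramp `600/120/300` -/
theorem In3.hu3 (hc : clsW b j0 = .twoE ∨ clsW b j0 = .threeE ∨ clsW b j0 = .ring) :
    (Ow b z m.1 0).re ≤ 6 / 10 ∧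
    Ow b z m.1 0 = ⟨(Ow b z m.1 0).re,
      (ta 600 120 300).val [x, Tm b zs m, (Ow b z m.1 0).re, Th b zs h0 m.1]⟩ := by
  obtain ⟨hn, a0, a1, e⟩ := S.u_main
  obtain ⟨-, -, -, -, -, -, -, -, a6⟩ := S.par0
  obtain ⟨hX, hcl, hcr⟩ := a6 hc
  rw [hX] at a1
  refine ⟨a1, ?_⟩
  rw [ta_val (by norm_num) (by norm_num) (by norm_num)]
  refine e.trans (Complex.ext rfl ?_)
  show Th b zs h0 m.1 * trh b h0 (Ow b z m.1 0).re = Th b zs h0 m.1 * _
  unfold trh
  rw [hX, hcl, hcr]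
  norm_num

/-- the left neighbour is a `2` at an end -/
theorem In3.twoE (hc : clsW b j0 = .twoE) : False := by
  have As : Adj h0 j0 2 m.1 := S.A0.symm
  obtain ⟨hn, a0, a1, e⟩ := S.u_main
  obtain ⟨a1', hu⟩ := S.hu3 (Or.inl hc)
  obtain ⟨-, -, -, -, -, -, -, -, a6⟩ := S.par0
  obtain ⟨hX, hcl, hcr⟩ := a6 (Or.inl hc)
  obtain ⟨hT, e'⟩ := Ow_sym S.hb S.A0 (by rw [S.c]; decide) e
  have e2 : Ow b z j0 2 = ⟨(Ow b z m.1 0).re, Th b zs h0 j0 * trh b h0 (Ow b z m.1 0).re⟩ := e'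
  obtain ⟨w1, w2, w3, w4⟩ := S.mid
  rw [hc] at w1 w2 w3 w4
  obtain ⟨v1, v2, v3, v4⟩ := mw_twoE (clsW b j2)
  obtain ⟨w5, w6⟩ := win3 S.L.L S.hb S.A0 S.c
  rw [hc] at w5 w6
  simp only [hbox] at w5 w6
  have k := keep_twoE (zs := zs) (nb := nb) (z := z) (p := p) (c := 1 / 5) S.hb As hc
  rw [in3_tg hX hcl hcr (by norm_num) (by norm_num) (by norm_num) (by norm_num), e2, hT] at k
  set a := (Ow b z m.1 0).re with ha
  have G : SideG b zs nb z p h0 j0 (tg b zs h0 (1 / 5))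
      (phE.val [x, Tm b zs m, a, Th b zs h0 m.1]) := by
    refine k.mono (le_of_eq ?_)
    have e1 : phE.val [x, Tm b zs m, a, Th b zs h0 m.1] =
        (V2o (IT.cc 200) (.neg (.var 3))).val [x, Tm b zs m, a, Th b zs h0 m.1] -
        (V2o (.var 2) (.neg (ta 600 120 300))).val [x, Tm b zs m, a, Th b zs h0 m.1] := rfl
    rw [e1, V2o_val, V2o_val, cc_val]
    have e3 : (E.neg (ta 600 120 300)).val [x, Tm b zs m, a, Th b zs h0 m.1] =
        -Th b zs h0 m.1 * trh b h0 a := by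
      show -(ta 600 120 300).val [x, Tm b zs m, a, Th b zs h0 m.1] = _
      have := congrArg Complex.im (hu.symm.trans e)
      show _ = _
      rw [neg_mul]
      exact congrArg Neg.neg this
    rw [e3]
    have e4 : (((200 : ℤ) : ℝ) / 1000) = 1 / 5 := by norm_num
    rw [e4]
    rfl
  have hex : ∀ e ∈ [flR], e.val [x, Tm b zs m, a, Th b zs h0 m.1] ≤ 0 := by
    intro e he
    rw [List.mem_singleton] at he
    rw [he]
    exact S.flR_le S.T_mem _
  have hex0 : ∀ e ∈ ([] : List E), e.val [x, Tm b zs m, a, Th b zs h0 m.1] ≤ 0 := by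
    intro e he
    exact absurd he List.not_mem_nil
  have hs0 : (((-480 : ℤ) : ℝ)) / 10000 ≤ Tm b zs m - Th b zs h0 m.1 := by push_cast; linarith only [w1, v1, w6]
  have hs1 : Tm b zs m - Th b zs h0 m.1 ≤ (((320 : ℤ) : ℝ)) / 10000 := by push_cast; linarith only [w4, v4]
  have x0 := S.x0
  have x1 := S.x1
  by_cases hd : 2 / 100 ≤ x ∨ 1 / 10 ≤ (Ow b z m.1 2).re
  · exact S.killR mn_ch (S.w_hi hd) hu hn rfl G hex hs0 hs1
      (R_Ea x0.le (by linarith only [x1]) (by linarith only [w1, v1]) (by linarith only [w2, v2]) a0 (by linarith only [hX, a1]) (by linarith only [w5])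
        (by linarith only [w6]))
  · push Not at hd
    exact S.killR mn_cl (S.w_lo hd.1.le hd.2.le) hu hn rfl G hex0 hs0 hs1
      (R_Ec x0.le (by linarith only [hd]) (by linarith only [w1, v1]) (by linarith only [w2, v2]) a0 (by linarith only [hX, a1]) (by linarith only [w5])
        (by linarith only [w6]))

/-- the flip at the left end -/
theorem In3.flL_le {t : E} {θ : ℝ} (hu : Ow b z m.1 0 = ⟨(Ow b z m.1 0).re,
      t.val [x, Tm b zs m, (Ow b z m.1 0).re, θ]⟩) (ha : (Ow b z m.1 0).re ≤ 6 / 10) :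
    (flL t).val [x, Tm b zs m, (Ow b z m.1 0).re, θ] ≤ 0 := by
  by_contra hc
  push Not at hc
  obtain ⟨d0, d1, -⟩ := S.dom2
  set a := (Ow b z m.1 0).re with haa
  set τ := t.val [x, Tm b zs m, a, θ] with hτ
  have e1 : (flL t).val [x, Tm b zs m, a, θ] =
      ((20 / 1000 - x) - max ((20 / 1000 - x) - (a - 300 / 1000)) 0) -
        max (((20 / 1000 - x) - max ((20 / 1000 - x) - (a - 300 / 1000)) 0) -
          (τ - 16 / 5 * x)) 0 := by
    have e0 : (flL t).val [x, Tm b zs m, a, θ] =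
      (((((20 : ℤ) : ℝ) / ((1000 : ℕ) : ℝ) - x) -
        max ((((20 : ℤ) : ℝ) / ((1000 : ℕ) : ℝ) - x) - (a - ((300 : ℤ) : ℝ) / ((1000 : ℕ) : ℝ))) 0)
        - max (((((20 : ℤ) : ℝ) / ((1000 : ℕ) : ℝ) - x) -
        max ((((20 : ℤ) : ℝ) / ((1000 : ℕ) : ℝ) - x) - (a - ((300 : ℤ) : ℝ) / ((1000 : ℕ) : ℝ))) 0)
          - (τ - ((16 : ℤ) : ℝ) / ((5 : ℕ) : ℝ) * x)) 0) := rfl
    rw [e0]
    norm_num
  rw [e1] at hc
  have h1 := le_max_left (((20 / 1000 - x) - max ((20 / 1000 - x) - (a - 300 / 1000)) 0) -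
          (τ - 16 / 5 * x)) 0
  have h2 := le_max_right (((20 / 1000 - x) - max ((20 / 1000 - x) - (a - 300 / 1000)) 0) -
          (τ - 16 / 5 * x)) 0
  have h3 := le_max_left ((20 / 1000 - x) - (a - 300 / 1000)) 0
  have h4 := le_max_right ((20 / 1000 - x) - (a - 300 / 1000)) 0
  have hx : x ≤ 1 / 50 := by linarith only [hc, h2, h4]
  have h30 : 3 / 10 ≤ a := by linarith only [hc, h2, h3]
  have ht : 16 / 5 * x ≤ τ := by linarith only [hc, h1]
  have him : (Ow b z m.1 0).im = τ := by rw [hu]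
  rw [← him] at ht
  have hT := S.T_mem
  exact S.noflip' (FI3.fl2 S.x0 hx hT S.T0 h30 ha ht d0 d1)

/-- the left neighbour is a ring -/
theorem In3.ring (hc : clsW b j0 = .ring) : False := by
  obtain ⟨hn, a0, a1, e⟩ := S.u_main
  obtain ⟨a1', hu⟩ := S.hu3 (Or.inr (Or.inr hc))
  obtain ⟨w1, w2, w3, w4⟩ := S.mid
  rw [hc] at w1 w2 w3 w4
  obtain ⟨v1, v3, v4⟩ := mw_three (Or.inr (Or.inr rfl) : Cl.ring = .three ∨ _) (clsW b j2)
  obtain ⟨w5, w6⟩ := win3 S.L.L S.hb S.A0 S.c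
  rw [hc] at w5 w6
  simp only [hbox] at w5 w6
  have hfR : flR.val [x, Tm b zs m, (Ow b z m.1 0).re, Th b zs h0 m.1] ≤ 0 :=
    S.flR_le S.T_mem _
  have hfL := S.flL_le hu a1'
  set a := (Ow b z m.1 0).re with ha
  set θ := Th b zs h0 m.1 with hθ
  have x0 := S.x0
  have x1 := S.x1
  have T0 := S.T0
  have hT := S.T_mem
  have hex2 : ∀ e ∈ [flR, flL (ta 600 120 300)], e.val [x, Tm b zs m, a, θ] ≤ 0 := by
    intro e he
    simp only [List.mem_cons, List.not_mem_nil, or_false] at he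
    rcases he with rfl | rfl
    · exact hfR
    · exact hfL
  have hex1 : ∀ e ∈ [flL (ta 600 120 300)], e.val [x, Tm b zs m, a, θ] ≤ 0 := by
    intro e he
    rw [List.mem_singleton] at he
    rw [he]
    exact hfL
  have hex0 : ∀ e ∈ ([] : List E), e.val [x, Tm b zs m, a, θ] ≤ 0 := by
    intro e he
    exact absurd he List.not_mem_nil
  have hs0 : (((-1050 : ℤ) : ℝ)) / 10000 ≤ Tm b zs m - θ := by push_cast; linarith only [v3, w3]
  have hs1 : Tm b zs m - θ ≤ (((280 : ℤ) : ℝ)) / 10000 := by push_cast; linarith only [v4, w4]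
  have hE : 0 ≤ θ ∨ Exc3 b zs h0 m.1 j0 0 := S.L.E.three S.A0 S.c hc
  have hθ0 : -(7 / 10000) ≤ θ := by
    rcases hE with h | h
    · linarith only [x0, x1, h]
    · exact h.lo
  by_cases hx : 2 / 100 ≤ x
  · exact S.kill mn_ch (S.w_hi (Or.inl hx)) hu hex2 hs0 hs1
      (R_Za (by linarith only [hx]) (by linarith only [x1]) (by linarith only [v3, w3, x0, x1, hθ0]) T0 a0 (by linarith only [a1']) (by linarith only [x0, x1, hθ0])
        (by linarith only [w6]))
  push Not at hx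
  by_cases hd : 1 / 10 ≤ (Ow b z m.1 2).re
  · exact S.kill mn_ch0 (S.w_hi0 hx.le hd) hu hex1 hs0 hs1
      (R_Zb x0.le (by linarith only [hx]) (by linarith only [v3, w3, x0, hθ0, hx]) T0 a0 (by linarith only [a1']) (by linarith only [x0, hθ0, hx])
        (by linarith only [w6]))
  push Not at hd
  obtain ⟨d0, d1, dk⟩ := S.dom2
  obtain ⟨k0, k1⟩ := dk hd.le
  have hx' : x ≤ 1 / 50 := by linarith only [hx]
  rcases hE with h | h
  · by_cases h35 : a ≤ 35 / 100
    · exact S.kill mn_cl (S.w_lo hx.le hd.le) hu hex0 hs0 hs1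
        (R_Zc x0.le (by linarith only [hx]) (by linarith only [v3, w3, x0, hx, h]) T0 a0 (by linarith only [h35]) h (by linarith only [w6]))
    push Not at h35
    have ht : 0 ≤ (Ow b z m.1 0).im := by
      rw [e]
      exact mul_nonneg h (trh_mem _ _).1
    exact S.noflip' (FI3.fl1 x0 hx' hT T0 h35.le a1' ht d0 hd.le k0 k1)
  · -- the exception
    rcases le_total 0 θ with h0 | h0
    · by_cases h35 : a ≤ 35 / 100
      · exact S.kill mn_cl (S.w_lo hx.le hd.le) hu hex0 hs0 hs1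
          (R_Zc x0.le (by linarith only [hx]) (by linarith only [v3, w3, x0, hx, h0]) T0 a0 (by linarith only [h35]) h0 (by linarith only [w6]))
      push Not at h35
      have ht : 0 ≤ (Ow b z m.1 0).im := by
        rw [e]
        exact mul_nonneg h0 (trh_mem _ _).1
      exact S.noflip' (FI3.fl1 x0 hx' hT T0 h35.le a1' ht d0 hd.le k0 k1)
    have hK : clsW b j2 = .one := h.one S.A2
    have A2s : Adj h2 j2 0 m.1 := S.A2.symm
    obtain ⟨h4, r4, A4⟩ := A2s.other_one S.hb hK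
    have hr4 : clsW b r4 = .two := h.two S.A2 A4
    rw [hK] at w1 w2 w3 w4
    simp only [mw] at w1 w2 w3 w4
    have hTK : Th b zs h2 j2 = -Th b zs h2 m.1 :=
      ofs_neg_of_opp (sign_adj S.hb S.A2 (by rw [S.c]; decide)) _
    obtain ⟨-, w7, -, -⟩ := S.L.X.win A2s A4 hK
    rw [hr4, S.c] at w7
    simp only [cw] at w7
    have w7' : Th b zs h2 j2 ≤ 94 / 1000 := w7
    have hk : -(724 / 1000) * (Ow b z m.1 2).re ≤ (Ow b z m.1 2).im := by
      obtain ⟨q1, q2, q3⟩ := S.pos2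
      obtain ⟨a6, -⟩ := S.par2
      obtain ⟨-, hcl, -⟩ := a6 hK
      have ht := trh_mem (b := b) h2 (Ow b z m.1 2).re
      have h5 : trh b h2 (Ow b z m.1 2).re * wcl b h2 ≤ (Ow b z m.1 2).re := by
        have hp := wcl_pos (b := b) h2
        have : trh b h2 (Ow b z m.1 2).re ≤ (Ow b z m.1 2).re / wcl b h2 := by
          unfold trh tr
          refine max_le (div_nonneg q1 hp.le) ?_
          refine (min_le_right _ _).trans ((min_le_left _ _).trans ?_)
          rw [sub_zero]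
        calc trh b h2 (Ow b z m.1 2).re * wcl b h2
            ≤ (Ow b z m.1 2).re / wcl b h2 * wcl b h2 := mul_le_mul_of_nonneg_right this hp.le
          _ = (Ow b z m.1 2).re := div_mul_cancel₀ _ hp.ne'
      rw [hcl] at h5
      rcases q3 with ⟨-, e⟩ | ⟨-, e⟩
      · rw [e]
        have k2 := mul_le_mul_of_nonneg_right
          (show -(94 / 1000) ≤ Th b zs h2 m.1 by linarith only [hTK, w7']) ht.1
        linarith only [d0, h5, k2]
      · rw [e]
        linarith only [d0]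
    by_cases h46 : a ≤ 46 / 100
    · exact S.kill mn_cx (S.w_lx hx.le hd.le) hu hex0 hs0 hs1
        (R_Xc x0.le (by linarith only [hx]) (by linarith only [w3, x0, hθ0, hx]) (by linarith only [w2]) a0 (by linarith only [h46]) (by linarith only [hθ0])
          (by linarith only [h0]))
    push Not at h46
    by_cases hT38 : Tm b zs m ≤ -(38 / 1000)
    · exact S.kill mn_cx (S.w_lx hx.le hd.le) hu hex0 hs0 hs1
        (R_Xd x0.le (by linarith only [hx]) (by linarith only [w3, x0, hθ0, hx]) (by linarith only [hT38]) (by linarith only [h46]) (by linarith only [a1'])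
          (by linarith only [hθ0]) (by linarith only [h0]))
    push Not at hT38
    by_cases hT25 : -(25 / 1000) ≤ Tm b zs m
    · by_cases hd4 : 4 / 100 ≤ (Ow b z m.1 2).re
      · have hW : S.WW [(200, m20)] := by
          intro q hq
          rw [List.mem_singleton] at hq
          rw [hq]
          have := S.w_m20 hx.le hd4 hd.le hT25
          have e5 : (((200 : ℤ) : ℝ) / 1000) = 200 / 1000 := by norm_num
          show S.W (((200 : ℤ) : ℝ) / 1000) (bv m20 x (Tm b zs m))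
          rw [e5]
          exact this
        exact S.kill mn_m hW hu hex0 hs0 hs1
          (R_Xe x0.le (by linarith only [hx]) (by linarith only [hT25]) (by linarith only [w2]) (by linarith only [h46]) (by linarith only [a1'])
            (by linarith only [hθ0]) (by linarith only [h0]))
      · push Not at hd4
        exact S.noflip' (FI3.fl3 x0 hx' T0 h46.le a1' d0 hk (Or.inl ⟨hd4.le, hT25⟩))
    · push Not at hT25
      by_cases hd2 : 2 / 100 ≤ (Ow b z m.1 2).re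
      · have hW : S.WW [(200, n20)] := by
          intro q hq
          rw [List.mem_singleton] at hq
          rw [hq]
          have := S.w_n20 hx.le hd2 hd.le hT38.le
          have e5 : (((200 : ℤ) : ℝ) / 1000) = 200 / 1000 := by norm_num
          show S.W (((200 : ℤ) : ℝ) / 1000) (bv n20 x (Tm b zs m))
          rw [e5]
          exact this
        exact S.kill mn_n hW hu hex0 hs0 hs1
          (R_Xf x0.le (by linarith only [hx]) (by linarith only [hT38]) (by linarith only [hT25]) (by linarith only [h46]) (by linarith only [a1'])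
            (by linarith only [hθ0]) (by linarith only [h0]))
      · push Not at hd2
        exact S.noflip' (FI3.fl3 x0 hx' T0 h46.le a1' d0 hk (Or.inr ⟨hd2.le, hT38.le⟩))

/-- **No upper mirrored path.** -/
theorem In3.false : False := by
  rcases hc : clsW b j0 with _ | _ | _ | _ | _ | _
  · exact S.one hc
  · exact S.two hc
  · exact S.twoE hc
  · exact S.three hc
  · exact S.threeE hc
  · exact S.ring hc

end SR

end Pool.Agent.Work.MP_b30479_gtS.G2

end

section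

/-!
# Mirrored paths, inner variable of an interior `3`: there is no mode

`inner_three`: the field `three` of `InnersL`.
-/

namespace Pool.Agent.Work.MP_b30479_gtS.G2

open Finset VOL Filter Topology

namespace SR

open IT NumGs

variable {M : ℕ} {b : Fin (M + 1) → ℤ} {zs : DD (tyW b) ⊕ ZZ (tyW b) → ℂ}
variable {R : Finset (DD (tyW b))} {nb : Finset (DD (tyW b) ⊕ ZZ (tyW b))}
variable {z : DD (tyW b) ⊕ ZZ (tyW b) → ℂ} {p : DD (tyW b) → ℝ}
variable {h0 h2 : Fin M} {i j0 j2 : Fin (M + 1)}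

/-- the two hinges of an interior region -/
theorem in3_adj (he : isEnd i = false) : ∃ (h0 h2 : Fin M) (j0 j2 : Fin (M + 1)),
    Adj h0 i 0 j0 ∧ Adj h2 i 2 j2 := by
  unfold isEnd at he
  simp only [decide_eq_false_iff_not, not_or] at he
  obtain ⟨k, hk⟩ := Fin.eq_succ_of_ne_zero he.1
  obtain ⟨k2, hk2⟩ := Fin.eq_castSucc_of_ne_last he.2
  refine ⟨k, k2, k.castSucc, k2.succ, ?_, ?_⟩
  · rw [hk]; exact .r
  · rw [← hk2]; exact .l

/-- ramp of the left hinge -/
theorem in3_pl (A : Adj h0 i 0 j0) (hc : clsW b i = .three) : wXM b h0 ≤ 65 / 100 ∧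
    12 / 100 ≤ wcl b h0 ∧ 15 / 100 ≤ wcr b h0 := by
  unfold wXM wcl wcr
  cases A
  rw [hc]
  rcases h1 : clsW b h0.castSucc <;> simp only [hp, hp1] <;> norm_num

/-- ramp of the right hinge, no `1` on the right -/
theorem in3_pr (A : Adj h2 i 2 j2) (hc : clsW b i = .three) (hj : clsW b j2 ≠ .one) :
    wXM b h2 = 6 / 10 ∧ wcl b h2 = 13 / 100 ∧ wcr b h2 = 3 / 10 := by
  unfold wXM wcl wcr
  cases A
  rw [hc]
  rcases h1 : clsW b h2.succ
  · exact absurd h1 hj
  all_goals simp only [hp]; norm_num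

theorem mwdn {A K : Cl} (h1 : 0 ≤ (mw A K).t1) : K ≠ .one ∧ (mw A K).t1 ≤ 5 / 1000 := by
  constructor
  · rintro rfl
    rcases A <;> simp only [mw] at h1 <;> norm_num at h1
  · rcases A <;> rcases K <;> simp only [mw] <;> norm_num

/-- no lower mirrored path -/
theorem in3_dn (hb : ClassW b) (L : LocA b zs)
    (m : {i : Fin (M + 1) // (tyW b i).isMid = true}) (hN : NbT b R nb) (hM : MM b zs R nb z p)
    (hq : ∀ h : Fin M, RH1 b (.inl h) → p (.inl h) = 0)
    (hA : ∀ (h : Fin M) (s : Fin 3) (j : Fin (M + 1)), Adj h m.1 s j → p (.inl h) = 0)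
    (hc : clsW b m.1 = .three) (hn : Sum.inl (Sum.inr m) ∉ nb) (A0 : Adj h0 m.1 0 j0)
    (A2 : Adj h2 m.1 2 j2) {y : ℝ} (y0 : 0 < y) (y1 : y < 8 / 10) (hT : 0 ≤ Tm b zs m)
    (e : Ow b z m.1 1 = ⟨y, -(16 / 100 * tau3 y)⟩) (hp : p (.inr m) = 16 / 100 * tau3 y) :
    False := by
  have nt := not_tch_of hN A0 hc hn
  obtain ⟨q1, q2, q3⟩ := hM.pos3 hb hN hq A0 nt (hA h0 0 j0 A0)
  obtain ⟨r1, r2, r3⟩ := hM.pos3 hb hN hq A2 nt (hA h2 2 j2 A2)
  have w : (mw (clsW b j0) (clsW b j2)).t0 ≤ Tm b zs m ∧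
    Tm b zs m ≤ (mw (clsW b j0) (clsW b j2)).t1 ∧
    (mw (clsW b j0) (clsW b j2)).s0 ≤ Tm b zs m - Th b zs h0 m.1 ∧
    Tm b zs m - Th b zs h0 m.1 ≤ (mw (clsW b j0) (clsW b j2)).s1 := L.X.mid m.2 A0 A2 hc
  obtain ⟨hK, ht1⟩ := mwdn (hT.trans w.2.1)
  have hT5 : Tm b zs m ≤ 5 / 1000 := w.2.1.trans ht1
  obtain ⟨a1, a2, a3⟩ := in3_pl A0 hc
  obtain ⟨c1, c2, c3⟩ := in3_pr A2 hc hK
  have hW := win3 L.L hb A0 hc
  have hB := box3 (clsW b j0)
  have hW2 := win3 L.L hb A2 hc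
  have hB2 := box3 (clsW b j2)
  rw [c1] at r2
  set a := (Ow b z m.1 0).re with ha
  set d := (Ow b z m.1 2).re with hd
  have hu : (Ow b z m.1 0).im ≤ 57 / 1000 * tr 0 (65 / 100) (12 / 100) (15 / 100) a := by
    have hU := SR.tr_mem 0 (65 / 100) (12 / 100) (15 / 100) a
    have ht := trh_mem (b := b) h0 a
    have hh : trh b h0 a ≤ tr 0 (65 / 100) (12 / 100) (15 / 100) a :=
      tr_hull (by norm_num) (by norm_num) a2 a1 (by linarith only [a1, a3]) (by linarith only [y0, y1, a3]) _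
    rcases q3 with ⟨-, e⟩ | ⟨-, e⟩
    · rw [e]
      calc Th b zs h0 m.1 * trh b h0 a ≤ 57 / 1000 * trh b h0 a :=
            mul_le_mul_of_nonneg_right (by linarith only [hW, hB, hW.2, hB.2]) ht.1
        _ ≤ _ := mul_le_mul_of_nonneg_left hh (by norm_num)
    · rw [e]
      exact mul_nonneg (by norm_num) hU.1
  have hk : (Ow b z m.1 2).im ≤ 57 / 1000 * tr 0 (6 / 10) (13 / 100) (30 / 100) d := by
    have hU := SR.tr_mem 0 (6 / 10) (13 / 100) (30 / 100) d
    have ht : trh b h2 d = tr 0 (6 / 10) (13 / 100) (30 / 100) d := by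
      unfold trh
      rw [c1, c2, c3]
      norm_num
    rcases r3 with ⟨-, e⟩ | ⟨-, e⟩
    · rw [e, ht]
      exact mul_le_mul_of_nonneg_right (by linarith only [hW2, hB2, hW2.2, hB2.2]) hU.1
    · rw [e]
      exact mul_nonneg (by norm_num) hU.1
  have h1 := hM.inner3 hb hN.ok.1 m A0 A2 hc hn (c' := y) y0.le y1.le (FarG.keep h2 j2)
  rw [tgi_i3 m hc, ofr_z A2, e, hp] at h1
  have h2 : V3 ⟨a, (Ow b z m.1 0).im⟩ ⟨y, -(16 / 100 * tau3 y)⟩ ⟨d, (Ow b z m.1 2).im⟩ -
      V3 ⟨a, (Ow b z m.1 0).im⟩ ⟨y, Tm b zs m * tau3 y⟩ ⟨d, (Ow b z m.1 2).im⟩ <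
      2 * Real.pi * (16 / 100 * tau3 y) :=
    FI3.fdn y0 y1 hT hT5 q1 (q2.trans a1) hu r1 r2 hk
  have e0 : (⟨a, (Ow b z m.1 0).im⟩ : ℂ) = Ow b z m.1 0 := Complex.ext rfl rfl
  have e2 : (⟨d, (Ow b z m.1 2).im⟩ : ℂ) = Ow b z m.1 2 := Complex.ext rfl rfl
  rw [e0, e2] at h2
  linarith only [h1, h2]

/-- **The inner variable of an interior `3` has no mode.** -/
theorem inner_three (hb : ClassW b) (L : LocA b zs)
    (m : {i : Fin (M + 1) // (tyW b i).isMid = true}) (hN : NbT b R nb) (hM : MM b zs R nb z p)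
    (hq : ∀ h : Fin M, RH1 b (.inl h) → p (.inl h) = 0)
    (hA : ∀ (h : Fin M) (s : Fin 3) (j : Fin (M + 1)), Adj h m.1 s j → p (.inl h) = 0)
    (hB : ∀ (h : Fin M) (i j : Fin (M + 1)), Adj h i 0 j →
      p (.inl h) = 0 ∨ (clsW b i = .one ∧ clsW b j = .three))
    (hc : clsW b m.1 = .three) (hn : Sum.inl (Sum.inr m) ∉ nb) : p (.inr m) = 0 := by
  have hmp : mp (clsW b m.1) = ⟨8 / 10, 5 / 100, 5 / 100⟩ := by
    rw [hc]
    rfl
  have htm : ∀ y, trm b m y = tau3 y := by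
    intro y
    unfold trm tau3
    rw [hmp]
  have h00 : ∀ y : ℝ, y ≤ 0 ∨ 8 / 10 ≤ y → tau3 y = 0 := by
    intro y hy
    have h1 := (tau3_mem y).1
    refine le_antisymm ?_ h1
    unfold tau3 tr
    refine max_le le_rfl ?_
    rcases hy with hy | hy
    · exact (min_le_right _ _).trans ((min_le_left _ _).trans
        (div_nonpos_of_nonpos_of_nonneg (by linarith only [hy]) (by norm_num)))
    · exact (min_le_right _ _).trans ((min_le_right _ _).trans
        (div_nonpos_of_nonpos_of_nonneg (by linarith only [hy]) (by norm_num)))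
  obtain ⟨h0, h2, j0, j2, A0, A2⟩ := in3_adj (clsW_inner hb (Or.inr (Or.inr hc)))
  cases hM.ipos0 hN.ok.1 m hn with
  | main y y0 y1 e hp => exact hp
  | up y y0 y1 hT e hp =>
    rw [htm] at e hp
    by_cases hy : y ≤ 0 ∨ 8 / 10 ≤ y
    · rw [hp, h00 y hy, mul_zero]
    · push Not at hy
      exact (In3.false ⟨hb, L, hN, hM, hc, hn, hq, hA, hB, A0, A2, hy.1, hy.2, hT, e,
        hp⟩).elim
  | dn y y0 y1 hT e hp =>
    rw [htm] at e hp
    by_cases hy : y ≤ 0 ∨ 8 / 10 ≤ y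
    · rw [hp, h00 y hy, mul_zero]
    · push Not at hy
      exact (in3_dn hb L m hN hM hq hA hc hn A0 A2 hy.1 hy.2 hT e hp).elim

end SR

end Pool.Agent.Work.MP_b30479_gtS.G2

end
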