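import Pool.Agent.Work.MP_b30479_gt.TBS.G2.WMGb
import Pool.Agent.Work.MP_b30479_gt.TBS.G2.WMGx

section

/-!
# Mirrored paths: hinge in the slot `0` of an interior `3` on the lower side

Values of the rows; moves at the same real part.
-/

namespace Pool.Agent.Work.MP_b30479_gtS.G2

open Finset VOL Filter Topology

namespace KS

open NumGs KE

/-- ramp function -/
noncomputable def Pt.tq (P : Pt) (x : ℝ) : ℝ :=
  tr 0 ((P.X : ℝ) / 1000) ((P.cl : ℝ) / 1000) ((P.cr : ℝ) / 1000) x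

/-! ### values -/

variable {P : Pt} {q : Qr} {x y z w n : ℝ}

theorem dS0_val {x' t' x t y k : E} {xs : List ℝ} : (dS0 x' t' x t y k).val xs =
    VA ⟨x'.val xs, t'.val xs⟩ ⟨y.val xs, k.val xs⟩ -
      VA ⟨x.val xs, t.val xs⟩ ⟨y.val xs, k.val xs⟩ := by
  unfold VA
  simp only [dS0, E.val, NumUs.UU_uu, Complex.sub_im, Complex.sub_re, Complex.mul_im]
  ring

theorem tr_val' (h : P.ok) (e : E) (xs : List ℝ) :
    (E.tr P.X P.cl P.cr e).val xs = P.tq (e.val xs) := by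
  rw [E.tr_val h.1 h.2.1 (by exact_mod_cast h.2.2)]
  unfold Pt.tq
  rw [Int.cast_natCast]

theorem hh_val (h : P.ok) : (hh P).val [x, y, z, w] = 16 / 100 * P.tq x := by
  unfold hh
  rw [E.val, tr_val' h]
  simp only [E.c, E.val, v0]
  norm_num

theorem tt_val (h : P.ok) {cc : ℤ} : (tt P cc).val [x, y, z, w] = w * P.tq ((cc : ℝ) / 10000) := by
  unfold tt
  rw [E.val, tr_val' h]
  simp only [E.c, E.val, v3]
  norm_num

theorem pn_val (h : P.ok) : (pn P).val [x, y, z, w] = 2 * Real.pi * (16 / 100 * P.tq x) := by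
  show Real.pi * ((E.q 2 1).val [x, y, z, w] * (hh P).val [x, y, z, w]) = _
  rw [hh_val h]
  simp only [E.val]
  push_cast
  ring

/-- value of `ph` -/
noncomputable def Qr.f (q : Qr) (x T : ℝ) : ℝ := plR x q.y0 q.l + (q.k : ℝ) / 10000 * T

theorem ph_val : (ph q).val [x, y, z, w] = q.f x w := by
  unfold ph Qr.f
  simp only [E.val, E.pl_val, E.c, v0, v3]
  norm_num

/-- gain in the slot `0`, lower side -/
noncomputable def gA (P : Pt) (c T x : ℝ) (l : ℂ) : ℝ :=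
  VA ⟨c, T * P.tq c⟩ l - VA ⟨x, -(16 / 100 * P.tq x)⟩ l
/-- gain, upper side, plus the penalty -/
noncomputable def gB (P : Pt) (c T x : ℝ) (k : ℂ) : ℝ :=
  V2 ⟨c, -(T * P.tq c)⟩ k - V2 ⟨x, 16 / 100 * P.tq x⟩ k + 2 * Real.pi * (16 / 100 * P.tq x)

theorem aE_val (h : P.ok) : (aE P q).val [x, y, z, w] =
    gA P ((q.cc : ℝ) / 10000) w x ⟨y, ll.val [x, y, z, w]⟩ + q.f x w := by
  have e1 : (E.neg (hh P)).val [x, y, z, w] = -(16 / 100 * P.tq x) := by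
    show -((hh P).val [x, y, z, w]) = _
    rw [hh_val h]
  unfold aE gA
  rw [E.val, dS0_val, ph_val, tt_val h, e1]
  simp only [E.c, E.val, v0, v1]
  norm_num

theorem bE_val (h : P.ok) {Y : E} : (bE P Y q).val [x, y, z, w] =
    gB P ((q.cc : ℝ) / 10000) w x ⟨y, Y.val [x, y, z, w]⟩ - q.f x w := by
  have e1 : (E.neg (tt P q.cc)).val [x, y, z, w] = -(w * P.tq ((q.cc : ℝ) / 10000)) := by
    show -((tt P q.cc).val [x, y, z, w]) = _
    rw [tt_val h]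
  unfold bE gB
  rw [E.val, E.val, E.dV2_val, ph_val, e1, hh_val h, pn_val h]
  simp only [E.c, E.val, v0, v1]
  norm_num

/-- the hinge can be moved -/
def Win (P : Pt) (T x : ℝ) (l k : ℂ) : Prop :=
  ∃ c, 0 ≤ c ∧ c ≤ (P.X : ℝ) / 1000 ∧ 0 < gA P c T x l + gB P c T x k

theorem Win.of (h0 : 0 ≤ q.cc) (h1 : q.cc ≤ 10 * P.X) {l k : ℂ} {T : ℝ}
    (a : 0 < gA P ((q.cc : ℝ) / 10000) T x l + q.f x T)
    (b : 0 < gB P ((q.cc : ℝ) / 10000) T x k - q.f x T) : Win P T x l k := by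
  have h0' : (0 : ℝ) ≤ q.cc := by exact_mod_cast h0
  have h1' : (q.cc : ℝ) ≤ 10 * P.X := by exact_mod_cast h1
  exact ⟨(q.cc : ℝ) / 10000, by positivity, by linarith only [h1'], by linarith only [a, b]⟩

/-! ### moves at the same real part -/

theorem hasDerivAt_uu_t {a t : ℝ} (h : t ≠ 0) :
    HasDerivAt (fun t => NumUs.uu a t) (NumXs.yy a t) t := by
  have h1 : HasDerivAt (fun t : ℝ => (⟨a, t⟩ : ℂ)) Complex.I t := by
    have h2 : HasDerivAt (fun s : ℝ => (a : ℂ) + (s : ℂ) * Complex.I) (1 * Complex.I) t :=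
      ((Complex.ofRealCLM.hasDerivAt (x := t)).mul_const Complex.I).const_add _
    rw [one_mul] at h2
    refine h2.congr_of_eventuallyEq (Eventually.of_forall fun r => ?_)
    apply Complex.ext <;> simp
  have h3 := hasDerivAt_UU_im h1 (by exact h)
  rw [Complex.I_re, Complex.I_im, zero_mul, one_mul, zero_add] at h3
  exact h3

theorem cont_uu_t (a : ℝ) : Continuous fun t => NumUs.uu a t := by
  have h1 : Continuous fun t : ℝ => (a : ℂ) + (t : ℂ) * Complex.I := by fun_prop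
  refine (continuous_UU.comp h1).congr fun t => ?_
  show UU ((a : ℂ) + (t : ℂ) * Complex.I) = UU ⟨a, t⟩
  congr 1
  apply Complex.ext <;> simp

/-- a lower bound of the derivative off finitely many points -/
theorem slope_ge {f f' : ℝ → ℝ} {C : ℝ} (hf : Continuous f) (s : Finset ℝ) : ∀ {a b : ℝ}, a ≤ b →
    (∀ t, a < t → t < b → t ∉ s → HasDerivAt f (f' t) t ∧ C ≤ f' t) →
    C * (b - a) ≤ f b - f a := by
  induction s using Finset.induction_on with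
  | empty =>
    intro a b hab h
    have h1 := Convex.mul_sub_le_image_sub_of_le_deriv (convex_Icc a b) hf.continuousOn
      (C := C) (fun t ht => by
        rw [interior_Icc] at ht
        exact ((h t ht.1 ht.2 (by simp)).1.differentiableAt).differentiableWithinAt)
      (fun t ht => by
        rw [interior_Icc] at ht
        rw [(h t ht.1 ht.2 (by simp)).1.deriv]
        exact (h t ht.1 ht.2 (by simp)).2)
    exact h1 a (Set.left_mem_Icc.2 hab) b (Set.right_mem_Icc.2 hab) hab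
  | insert e s _ ih =>
    intro a b hab h
    by_cases he : a < e ∧ e < b
    · have h1 := ih he.1.le fun t t0 t1 ht => h t t0 (t1.trans he.2) (by
        rw [Finset.mem_insert, not_or]
        exact ⟨t1.ne, ht⟩)
      have h2 := ih he.2.le fun t t0 t1 ht => h t (he.1.trans t0) t1 (by
        rw [Finset.mem_insert, not_or]
        exact ⟨t0.ne', ht⟩)
      have e1 : C * (b - a) = C * (e - a) + C * (b - e) := by ring
      linarith only [h1, h2]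
    · refine ih hab fun t t0 t1 ht => h t t0 t1 ?_
      rw [Finset.mem_insert, not_or]
      refine ⟨?_, ht⟩
      rintro rfl
      exact he ⟨t0, t1⟩

/-- derivative of `VA` in the height -/
noncomputable def dA (x : ℝ) (l : ℂ) (t : ℝ) : ℝ :=
  NumXs.yy (l.re - x) (l.im - t) - NumXs.yy x t - Real.pi * l.re

theorem VA_uu (x t : ℝ) (l : ℂ) : VA ⟨x, t⟩ l =
    -(Real.pi * (x * l.im + t * l.re)) - NumUs.uu (l.re - x) (l.im - t) - NumUs.uu x t := by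
  unfold VA
  simp only [NumUs.UU_uu, Complex.sub_im, Complex.sub_re, Complex.mul_im]

theorem VA_slope {x C a b : ℝ} {l : ℂ} (hab : a ≤ b)
    (h : ∀ t, a ≤ t → t ≤ b → C ≤ dA x l t) : C * (b - a) ≤ VA ⟨x, b⟩ l - VA ⟨x, a⟩ l := by
  have hc : Continuous fun t : ℝ => VA ⟨x, t⟩ l := by
    simp only [VA_uu]
    have h1 := cont_uu_t x
    have h2 : Continuous fun t : ℝ => NumUs.uu (l.re - x) (l.im - t) :=
      (cont_uu_t (l.re - x)).comp (by fun_prop : Continuous fun t : ℝ => l.im - t)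
    fun_prop
  refine slope_ge (f' := dA x l) hc {0, l.im} hab fun t t0 t1 ht => ?_
  rw [Finset.mem_insert, Finset.mem_singleton, not_or] at ht
  refine ⟨?_, h t t0.le t1.le⟩
  have h1 := hasDerivAt_uu_t (a := x) ht.1
  have h2 : HasDerivAt (fun t : ℝ => l.im - t) (-1) t := (hasDerivAt_id t).const_sub _
  have h3 := (hasDerivAt_uu_t (a := l.re - x) (t := l.im - t) (sub_ne_zero.2 (Ne.symm ht.2))).comp t h2
  have h4 : HasDerivAt (fun t : ℝ => -(Real.pi * (x * l.im + t * l.re))) (-(Real.pi * l.re)) t := by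
    have := ((((hasDerivAt_id t).mul_const l.re).const_add (x * l.im)).const_mul Real.pi).neg
    rw [one_mul] at this
    exact this
  have h5 := (h4.sub h3).sub h1
  simp only [VA_uu]
  refine h5.congr_deriv ?_
  unfold dA
  ring

/-- minus the derivative of `V2` in the height -/
noncomputable def dB (x : ℝ) (k : ℂ) (t : ℝ) : ℝ :=
  2 * NumXs.yy x t - NumXs.yy (x + k.re) (t + k.im) + Real.pi * (x - k.re + 1 / 2)

theorem V2_uu' (x t : ℝ) (k : ℂ) : V2 ⟨x, t⟩ k = NumUs.uu (x + k.re) (t + k.im) -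
    2 * NumUs.uu x t - 2 * NumUs.uu k.re k.im -
      Real.pi * ((x - k.re) * (t - k.im) + (t + k.im) / 2) :=
  KR.V2_uu x t k.re k.im

theorem V2_slope {x C a b : ℝ} {k : ℂ} (hab : a ≤ b)
    (h : ∀ t, a ≤ t → t ≤ b → C ≤ dB x k t) : C * (b - a) ≤ V2 ⟨x, a⟩ k - V2 ⟨x, b⟩ k := by
  have hc : Continuous fun t : ℝ => -V2 ⟨x, t⟩ k := by
    simp only [V2_uu']
    have h1 := cont_uu_t x
    have h2 : Continuous fun t : ℝ => NumUs.uu (x + k.re) (t + k.im) :=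
      (cont_uu_t (x + k.re)).comp (by fun_prop : Continuous fun t : ℝ => t + k.im)
    fun_prop
  have key := slope_ge (f' := dB x k) (C := C) hc {0, -k.im} hab fun t t0 t1 ht => by
    rw [Finset.mem_insert, Finset.mem_singleton, not_or] at ht
    refine ⟨?_, h t t0.le t1.le⟩
    have h1 := (hasDerivAt_uu_t (a := x) ht.1).const_mul 2
    have h2 : HasDerivAt (fun t : ℝ => t + k.im) 1 t := (hasDerivAt_id t).add_const _
    have hn : t + k.im ≠ 0 := fun h3 => ht.2 (by linarith only [h3])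
    have h3 := (hasDerivAt_uu_t (a := x + k.re) hn).comp t h2
    have h4 : HasDerivAt (fun t : ℝ => Real.pi * ((x - k.re) * (t - k.im) + (t + k.im) / 2))
        (Real.pi * ((x - k.re) + 1 / 2)) t := by
      have := ((((hasDerivAt_id t).sub_const k.im).const_mul (x - k.re)).add
        (((hasDerivAt_id t).add_const k.im).div_const 2)).const_mul Real.pi
      simpa using this
    have h5 := ((((h3.sub h1).sub_const (2 * NumUs.uu k.re k.im)).sub h4)).neg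
    simp only [V2_uu']
    refine h5.congr_deriv ?_
    unfold dB
    ring
  linarith only [key]

theorem fE_val {n : ℤ} : (fE n).val [x, y, z, w] =
    dA x ⟨y, ll.val [x, y, z, w]⟩ w + (n : ℝ) / 10000 := by
  unfold fE dA
  simp only [E.val, E.c, v0, v1, v3]
  norm_num

theorem fE'_le {n : ℤ} : (fE' n).val [x, y, z, w] ≤
    dA x ⟨y, ll.val [x, y, z, w]⟩ w + (n : ℝ) / 10000 := by
  unfold fE' dA
  simp only [E.val, E.c, v0, v1, v3]
  have h1 := NumXs.yy_add_one (y - x) (ll.val [x, y, z, w] - w)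
  have h2 := NumXs.yy_one_sub (x - y) (ll.val [x, y, z, w] - w)
  rw [show 1 - (x - y) = y - x + 1 by ring] at h2
  have h3 := NumXs.sg_abs (ll.val [x, y, z, w] - w)
  have h4 := (abs_le.1 h3).2
  have hp := Real.pi_pos
  have h5 : Real.pi * NumXs.sg (ll.val [x, y, z, w] - w) ≤ Real.pi * 1 :=
    mul_le_mul_of_nonneg_left h4 hp.le
  push_cast
  linarith only [h1, h2, h5]

theorem gE_val {Y : E} {n : ℤ} : (gE Y n).val [x, y, z, w] =
    dB x ⟨y, Y.val [x, y, z, w]⟩ w + (n : ℝ) / 10000 := by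
  unfold gE dB
  simp only [E.val, E.c, v0, v1, v3]
  norm_num

/-- the move at the same real part -/
theorem Win.flip {n m : ℤ} {T : ℝ} {l k : ℂ} (hT : 0 ≤ T) (x0 : 0 ≤ x)
    (x1 : x ≤ (P.X : ℝ) / 1000) (hp : 0 < P.tq x)
    (hA : ∀ t, -(16 / 100 * P.tq x) ≤ t → t ≤ T * P.tq x → 0 < dA x l t + (n : ℝ) / 10000)
    (hB : ∀ t, -(T * P.tq x) ≤ t → t ≤ 16 / 100 * P.tq x → 0 < dB x k t + (m : ℝ) / 10000)
    (hs : ((n : ℝ) + m) / 10000 * (16 / 100 + T) < 2 * Real.pi * (16 / 100)) : Win P T x l k := by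
  have hTp : 0 ≤ T * P.tq x := mul_nonneg hT hp.le
  have a := VA_slope (x := x) (l := l) (C := -((n : ℝ) / 10000)) (a := -(16 / 100 * P.tq x))
    (b := T * P.tq x) (by linarith only [hp, hTp]) fun t t0 t1 => by linarith only [hA, t0, t1, hA t t0 t1]
  have b := V2_slope (x := x) (k := k) (C := -((m : ℝ) / 10000)) (a := -(T * P.tq x))
    (b := 16 / 100 * P.tq x) (by linarith only [hp, hTp]) fun t t0 t1 => by linarith only [hB, t0, t1, hB t t0 t1]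
  refine ⟨x, x0, x1, ?_⟩
  unfold gA gB
  have h1 := mul_lt_mul_of_pos_right hs hp
  have e1 : -((n : ℝ) / 10000) * (T * P.tq x - -(16 / 100 * P.tq x)) +
      -((m : ℝ) / 10000) * (16 / 100 * P.tq x - -(T * P.tq x)) =
      -(((n : ℝ) + m) / 10000 * (16 / 100 + T) * P.tq x) := by ring
  have e2 : 2 * Real.pi * (16 / 100) * P.tq x = 2 * Real.pi * (16 / 100 * P.tq x) := by ring
  linarith only [a, b, h1]

end KS

end Pool.Agent.Work.MP_b30479_gtS.G2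

end

section

/-!
# Mirrored paths: hinge in the slot `0` of an interior `3` on the lower side, rows
-/

namespace Pool.Agent.Work.MP_b30479_gtS.G2

open VOL

namespace KS

open NumGs KE

variable {P : Pt} {q : Qr} {m : List Qr} {x y u T a s : ℝ}

/-- height of the inner variable of a `3` -/
noncomputable def lv (y u : ℝ) : ℝ := u * (16 / 100 * tr 0 (8 / 10) (5 / 100) (5 / 100) y)
/-- height of the other hinge of a `2` -/
noncomputable def kv (a s : ℝ) : ℝ := s * (16 / 100 * tr 0 (8 / 10) (1 / 10) (29 / 100) a) -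
  (1 - s) * (3 / 10 * tr 0 (8 / 10) (12 / 100) (47 / 100) a)

def AA (P : Pt) (T x : ℝ) (l : ℂ) (q : Qr) : Prop := 0 < gA P ((q.cc : ℝ) / 10000) T x l + q.f x T
def BB (P : Pt) (T x : ℝ) (k : ℂ) (q : Qr) : Prop :=
  0 ≤ q.cc ∧ q.cc ≤ 10 * P.X ∧ 0 < gB P ((q.cc : ℝ) / 10000) T x k - q.f x T

theorem AA.ab {l k : ℂ} (h1 : AA P T x l q) (h2 : BB P T x k q) : Win P T x l k :=
  Win.of h2.1 h2.2.1 h1 h2.2.2

theorem rowA {l0 h0 l1 h1 l2 h2 l3 h3 c : ℕ} (hP : P.ok)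
    (h : chkF (m.map (aE P)) 1000 0 0 1000 0 40 l0 h0 l1 h1 l2 h2 l3 h3 c = true)
    (hx : ((l0 : ℝ) - (0 : ℕ)) / (1000 : ℕ) ≤ x ∧ x ≤ ((h0 : ℝ) - (0 : ℕ)) / (1000 : ℕ))
    (hy : ((l1 : ℝ) - (0 : ℕ)) / (1000 : ℕ) ≤ y ∧ y ≤ ((h1 : ℝ) - (0 : ℕ)) / (1000 : ℕ))
    (hu : ((l2 : ℝ) - (1000 : ℕ)) / (1000 : ℕ) ≤ u ∧ u ≤ ((h2 : ℝ) - (1000 : ℕ)) / (1000 : ℕ))
    (hT : ((l3 : ℝ) - (0 : ℕ)) / (1000 : ℕ) ≤ T ∧ T ≤ ((h3 : ℝ) - (0 : ℕ)) / (1000 : ℕ)) :
    ∃ q ∈ m, AA P T x ⟨y, lv y u⟩ q := by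
  obtain ⟨e, he, hv⟩ := chkF4 h (by norm_num) hx.1 hx.2 hy.1 hy.2 hu.1 hu.2 hT.1 hT.2
  obtain ⟨q, hq, rfl⟩ := List.mem_map.1 he
  refine ⟨q, hq, ?_⟩
  rw [aE_val hP, ll_val] at hv
  exact hv

theorem rowX {l0 h0 l1 h1 l2 h2 l3 h3 c : ℕ} {X : E} (hP : P.ok)
    (h : chkF (m.map (aE P) ++ [X]) 1000 0 0 1000 0 40 l0 h0 l1 h1 l2 h2 l3 h3 c = true)
    (hx : ((l0 : ℝ) - (0 : ℕ)) / (1000 : ℕ) ≤ x ∧ x ≤ ((h0 : ℝ) - (0 : ℕ)) / (1000 : ℕ))
    (hy : ((l1 : ℝ) - (0 : ℕ)) / (1000 : ℕ) ≤ y ∧ y ≤ ((h1 : ℝ) - (0 : ℕ)) / (1000 : ℕ))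
    (hu : ((l2 : ℝ) - (1000 : ℕ)) / (1000 : ℕ) ≤ u ∧ u ≤ ((h2 : ℝ) - (1000 : ℕ)) / (1000 : ℕ))
    (hT : ((l3 : ℝ) - (0 : ℕ)) / (1000 : ℕ) ≤ T ∧ T ≤ ((h3 : ℝ) - (0 : ℕ)) / (1000 : ℕ)) :
    (∃ q ∈ m, AA P T x ⟨y, lv y u⟩ q) ∨ 0 < X.val [x, y, u, T] := by
  obtain ⟨e, he, hv⟩ := chkF4 h (by norm_num) hx.1 hx.2 hy.1 hy.2 hu.1 hu.2 hT.1 hT.2
  rcases List.mem_append.1 he with he | he
  · obtain ⟨q, hq, rfl⟩ := List.mem_map.1 he
    refine Or.inl ⟨q, hq, ?_⟩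
    rw [aE_val hP, ll_val] at hv
    exact hv
  · rw [List.mem_singleton] at he
    rw [he] at hv
    exact Or.inr hv

theorem exN_val {K : ℤ} : (exN K).val [x, y, u, T] = -((K : ℝ) / 10000) - lv y u := by
  unfold exN
  rw [E.val, ll_val]
  unfold lv
  simp only [E.c, E.val]
  push_cast
  ring

/-- rows of a `2` -/
theorem rowK {l0 h0 l1 h1 l2 h2 l3 h3 c : ℕ} (hP : P.ok) (c0 : 0 ≤ q.cc) (c1 : q.cc ≤ 10 * P.X)
    (h : chkF [bE P KE.kk q] 1000 0 0 0 0 40 l0 h0 l1 h1 l2 h2 l3 h3 c = true)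
    (hx : ((l0 : ℝ) - (0 : ℕ)) / (1000 : ℕ) ≤ x ∧ x ≤ ((h0 : ℝ) - (0 : ℕ)) / (1000 : ℕ))
    (ha : ((l1 : ℝ) - (0 : ℕ)) / (1000 : ℕ) ≤ a ∧ a ≤ ((h1 : ℝ) - (0 : ℕ)) / (1000 : ℕ))
    (hs : ((l2 : ℝ) - (0 : ℕ)) / (1000 : ℕ) ≤ s ∧ s ≤ ((h2 : ℝ) - (0 : ℕ)) / (1000 : ℕ))
    (hT : ((l3 : ℝ) - (0 : ℕ)) / (1000 : ℕ) ≤ T ∧ T ≤ ((h3 : ℝ) - (0 : ℕ)) / (1000 : ℕ)) :
    BB P T x ⟨a, kv a s⟩ q := by
  have hv := chk1 h (by norm_num) hx ha hs hT
  rw [bE_val hP, kk_val] at hv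
  exact ⟨c0, c1, hv⟩

/-- rows of a `3` -/
theorem rowL {l0 h0 l1 h1 l2 h2 l3 h3 c : ℕ} (hP : P.ok) (c0 : 0 ≤ q.cc) (c1 : q.cc ≤ 10 * P.X)
    (h : chkF [bE P ll q] 1000 0 0 1000 0 40 l0 h0 l1 h1 l2 h2 l3 h3 c = true)
    (hx : ((l0 : ℝ) - (0 : ℕ)) / (1000 : ℕ) ≤ x ∧ x ≤ ((h0 : ℝ) - (0 : ℕ)) / (1000 : ℕ))
    (ha : ((l1 : ℝ) - (0 : ℕ)) / (1000 : ℕ) ≤ a ∧ a ≤ ((h1 : ℝ) - (0 : ℕ)) / (1000 : ℕ))
    (hs : ((l2 : ℝ) - (1000 : ℕ)) / (1000 : ℕ) ≤ s ∧ s ≤ ((h2 : ℝ) - (1000 : ℕ)) / (1000 : ℕ))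
    (hT : ((l3 : ℝ) - (0 : ℕ)) / (1000 : ℕ) ≤ T ∧ T ≤ ((h3 : ℝ) - (0 : ℕ)) / (1000 : ℕ)) :
    BB P T x ⟨a, lv a s⟩ q := by
  have hv := chk1 h (by norm_num) hx ha hs hT
  rw [bE_val hP, ll_val] at hv
  exact ⟨c0, c1, hv⟩

theorem mem_f {n : ℤ} {X e : E} (he : e ∈ [fE n, fE' n, X]) {z : ℝ}
    (hv : 0 < e.val [x, y, u, z]) :
    0 < dA x ⟨y, lv y u⟩ z + (n : ℝ) / 10000 ∨ 0 < X.val [x, y, u, z] := by
  simp only [List.mem_cons, List.not_mem_nil, or_false] at he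
  rcases he with rfl | rfl | rfl
  · rw [fE_val, ll_val] at hv
    exact Or.inl hv
  · have h1 := hv.trans_le fE'_le
    rw [ll_val] at h1
    exact Or.inl h1
  · exact Or.inr hv

theorem mem_f2 {n : ℤ} {e : E} (he : e ∈ [fE n, fE' n]) {z : ℝ}
    (hv : 0 < e.val [x, y, u, z]) : 0 < dA x ⟨y, lv y u⟩ z + (n : ℝ) / 10000 := by
  simp only [List.mem_cons, List.not_mem_nil, or_false] at he
  rcases he with rfl | rfl
  · rw [fE_val, ll_val] at hv
    exact hv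
  · have h1 := hv.trans_le fE'_le
    rw [ll_val] at h1
    exact h1

/-- near the right end of the path -/
theorem tq_le {X r : ℝ} (hX : (P.X : ℝ) / 1000 = X) (hr : (P.cr : ℝ) / 1000 = r) (r0 : 0 < r)
    (h1 : x ≤ X) : P.tq x ≤ (X - x) / r := by
  unfold Pt.tq
  rw [hX, hr]
  have h0 : 0 ≤ (X - x) / r := div_nonneg (by linarith) r0.le
  unfold tr
  exact max_le h0 ((min_le_right _ _).trans (min_le_right _ _))

end KS

end Pool.Agent.Work.MP_b30479_gtS.G2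

end

section

/-!
# Mirrored paths: hinge in the slot `0` of an interior `3` on the lower side, the star move
-/

namespace Pool.Agent.Work.MP_b30479_gtS.G2

open Finset VOL Filter Topology

namespace SR

variable {M : ℕ} {b : Fin (M + 1) → ℤ} {zs : DD (tyW b) ⊕ ZZ (tyW b) → ℂ}
variable {R : Finset (DD (tyW b))} {nb : Finset (DD (tyW b) ⊕ ZZ (tyW b))}
variable {z : DD (tyW b) ⊕ ZZ (tyW b) → ℂ} {p : DD (tyW b) → ℝ}
variable {h h' : Fin M} {i j j' : Fin (M + 1)} {s : Fin 3} {x c : ℝ}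

theorem trh_tq {P : KS.Pt} (hX : wXM b h = (P.X : ℝ) / 1000 ∧ wcl b h = (P.cl : ℝ) / 1000 ∧
    wcr b h = (P.cr : ℝ) / 1000) (y : ℝ) : trh b h y = P.tq y := trh_eq hX y

/-- **A hinge in the slot `0` of an interior `3` on the lower side.** -/
theorem Md.win0 (hb : ClassW b) (hN : NbT b R nb) (hM : MM b zs R nb z p)
    (D : Md b zs nb z p h i 0 j x) {P : KS.Pt}
    (hX : wXM b h = (P.X : ℝ) / 1000 ∧ wcl b h = (P.cl : ℝ) / 1000 ∧ wcr b h = (P.cr : ℝ) / 1000)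
    (h16 : mhs b h 0 = 16 / 100) (hi : clsW b i = .three) {k : ℂ}
    (k2 : ∀ c : ℝ, SideG b zs nb z p h j (tg b zs h c) (V2 (tgo b zs h j c) k - V2 (Ow b z j 2) k))
    (w : KS.Win P (Th b zs h i) x (Ow b z i 1) k) : False := by
  obtain ⟨c, c0, c1, g⟩ := w
  have h2 := D.star hb hN.ok.1 hM c0 (by rw [hX.1]; exact c1)
    (keep_three0 (zs := zs) (nb := nb) (z := z) (p := p) (c := c) hb D.adj hi) (k2 c)
  have eu : Ow b z j 2 = ⟨x, mhs b h 0 * trh b h x⟩ := D.opp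
  have ev : Ow b z i 0 = ⟨x, -(mhs b h 0 * trh b h x)⟩ := D.own
  have e1 : tgo b zs h j c = ⟨c, -(Th b zs h i * P.tq c)⟩ := by
    unfold tgo
    rw [D.Tj, trh_tq hX, neg_mul]
  have e2 : tgo b zs h i c = ⟨c, Th b zs h i * P.tq c⟩ := by
    unfold tgo
    rw [trh_tq hX]
  rw [KE.V3_VA, e1, e2, eu, ev, h16, trh_tq hX] at h2
  unfold KS.gA KS.gB at g
  linarith

theorem par_32a (A : Adj h i 0 j) (hi : clsW b i = .three) (hj : clsW b j = .two) :
    wXM b h = (KS.P2.X : ℝ) / 1000 ∧ wcl b h = (KS.P2.cl : ℝ) / 1000 ∧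
      wcr b h = (KS.P2.cr : ℝ) / 1000 := by
  unfold wXM wcl wcr
  cases A
  rw [hi, hj]
  simp only [hp, KS.P2]
  norm_num

theorem par_33a (A : Adj h i 0 j) (hi : clsW b i = .three) (hj : clsW b j = .three) :
    wXM b h = (KS.P3.X : ℝ) / 1000 ∧ wcl b h = (KS.P3.cl : ℝ) / 1000 ∧
      wcr b h = (KS.P3.cr : ℝ) / 1000 := by
  unfold wXM wcl wcr
  cases A
  rw [hi, hj]
  simp only [hp, KS.P3]
  norm_num

theorem mhs_32a (A : Adj h i 0 j) (hj : clsW b j ≠ .one) : mhs b h 0 = 16 / 100 := by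
  cases A
  unfold mhs
  rw [if_neg (fun h3 => hj h3.1), if_neg (fun h3 => absurd h3.2.2 (by decide))]

end SR

end Pool.Agent.Work.MP_b30479_gtS.G2

end
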