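import Pool.Agent.Work.MP_b30479_gt.TBS.TwoBridgeTwist
import Pool.Agent.Work.MP_b30479_gt.TBS.G2.CN.LocR2w
import Pool.Agent.Work.MP_b30479_gt.TBS.G2.WMMX
import Pool.Agent.Work.MP_b30479_gt.TBS.NumI.LnSin

/-!
# The complexified volume conjecture for all hyperbolic two-bridge links
-/

namespace Pool.Agent.Work.MP_b30479_gtS.G2

open Finset VOL Filter Topology
open Pool.Agent.Work.MP_b30479_gtS.LT

/-- **The saddle point data of all words.** -/
theorem hsad_all (K : ℕ) (b : Fin (K + 2) → ℤ) (hb : ClassW (M := K + 1) b) : HSad b :=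
  SR.hsad_all_rest' (fun hM hb L _ L6 => SR.restQ_all hM hb L L6) K b hb

/-- **The theorem.** -/
theorem pub_all {M : ℕ} (a : Fin (M + 2) → ℕ) (ha : ∀ i, 1 ≤ a i) (h0 : 2 ≤ a 0) (hl : 2 ≤ a (Fin.last (M + 1))) :
    ∃ (p : Fin (M + 2) → ℂ) (q : Fin (M + 2) → ℕ → ℂ), Markoff a p q ∧ SWPos a p q ∧
      (∃ P Q, SWLog a p q P Q) ∧ 0 < swVolume a p q ∧
      ∃ V : ℂ, V.re = swVolume a p q ∧
      (∀ P Q, SWLog a p q P Q → ∃ k : ℤ, V - swCV a p q P Q = Real.pi ^ 2 * Complex.I * k) ∧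
      (∃ δ, IsOrientation (ltWord (List.ofFn (altf (M := M + 1) a))) δ) ∧
      ∀ δ, IsOrientation (ltWord (List.ofFn (altf (M := M + 1) a))) δ →
        (∀ᶠ s : ℕ in atTop, twoBridgeKashaev (ltWord (List.ofFn (altf (M := M + 1) a))) δ (2 * s + 1) ≠ 0) ∧
        Tendsto (fun s : ℕ => twoBridgeKashaev (ltWord (List.ofFn (altf (M := M + 1) a))) δ (2 * s + 3) /
          twoBridgeKashaev (ltWord (List.ofFn (altf (M := M + 1) a))) δ (2 * s + 1)) atTop
          (𝓝 (Complex.exp (V / Real.pi))) ∧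
        Tendsto (fun s : ℕ => Real.pi *
          Real.log ‖twoBridgeKashaev (ltWord (List.ofFn (altf (M := M + 1) a))) δ (2 * s + 3) /
            twoBridgeKashaev (ltWord (List.ofFn (altf (M := M + 1) a))) δ (2 * s + 1)‖) atTop
          (𝓝 (swVolume a p q)) :=
  pub_hsad hsad_all a ha h0 hl

end Pool.Agent.Work.MP_b30479_gtS.G2
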