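import Pool.Agent.Work.MP_b30479_gt.TBS.G2.ZRA60c_6
import Pool.Agent.Work.MP_b30479_gt.TBS.G2.ZRA60c_1
import Pool.Agent.Work.MP_b30479_gt.TBS.G2.ZRA65c_3
import Pool.Agent.Work.MP_b30479_gt.TBS.G2.MRBase
import Pool.Agent.Work.MP_b30479_gt.TBS.G2.ZRAe
import Pool.Agent.Work.MP_b30479_gt.TBS.NumU.GenL

section

/-!
# Rows at rings, side of the ring, `x = .60`: certificates
-/

namespace Pool.Agent.Work.MP_b30479_gtS.G2

open NumUs

namespace ZD

namespace ZA

namespace C60

open NumIs (V)
open NumUs.E (q sub uu neg)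

set_option linter.defProp false in
def c_ra : chkT [dD 45 (fR' w1) (fRy l1) br, dD 45 (fR' w1) (fRy hpi) br, vio] 40 25358535684797078689759488155056358957672451241486983041418849346866808891806811266402591770219800691363533967068343805817109928404051741492442755397531597835101754556263038612100366888083816921565488166592926906689093729668678145041010103037814268788105720933977553914755690493274141566335051306271750167882345674364552309840351313546318939733099437512635746926156588266282908684790222724750922902984323437615947884595326016153005558904658863962212165348518713175541409846034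
    [V.of 100000 59996 60000 0, V.of 100000 0 12000 0, V.of 100000 200 1000 0, V.of 100000 0 10450 0] = true :=
      Pool.Agent.Work.NumUs.chkT_of (Pool.Agent.Work.NumUs.runT_split rfl rfl rfl
        (Pool.Agent.Work.NumUs.runT_split rfl rfl rfl
          c_ra_q1
          c_ra_q2)
        c_ra_q3)

set_option linter.defProp false in
def c_rb : chkT [dD 45 (fR' w1) (fRy l1) br, vio] 40 11425892017297923329181005797120412643154533310748834834014184987074345149289766212376276745369248618452824948171097484605885224508731289096649492698540283386344997487307882714766957797358117979658469967431931554118256351033002573389205196965207389327280808888002152294451431889501898026691020910020040551850150061219391786361609900230691979317139746103605022597423776235122984362097770998958846820343308287132381227999193361325326953959710773862749108397480259333341720653433038186575831118501756446152068634502974321102993627157141990968688639091234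
    [V.of 100000 59996 60000 0, V.of 100000 0 12000 0, V.of 100000 1000 40004 0, V.of 100000 0 10450 0] = true :=
      Pool.Agent.Work.NumUs.chkT_of (Pool.Agent.Work.NumUs.runT_split rfl rfl rfl
        (Pool.Agent.Work.NumUs.runT_split rfl rfl rfl
          (Pool.Agent.Work.NumUs.runT_split rfl rfl rfl
            (Pool.Agent.Work.NumUs.runT_split rfl rfl rfl
              (Pool.Agent.Work.NumUs.runT_split rfl rfl rfl
                c_rb_q1
                c_rb_q2)
              c_rb_q3)
            c_rb_q4)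
          c_rb_q5)
        c_rb_q6)

set_option linter.defProp false in
def c_rd : chkT [dD 45 (fR' w2) (fRy l2) br, vYg] 40 3536230556148728708923305623516383862435492473247738735942734423023325926466422521558529102760913676637609420324122775386688451850422927211813314597447786504917327277534651383680376888030766300054309411460485101313765342833731006975803204810748813991394065306923112069541014752400476595251415562586765108714899247370024793016354991950896910213193666170533301916941219458126630367917107751543613481773574547223166959344378989911818820862468612758985942452780551578613678762423442762712264819195752278535866055773454863192184476067915668062560768387068391897980569330308009242929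
    [V.of 100000 59996 60000 0, V.of 100000 0 12000 0, V.of 100000 0 200 0, V.of 100000 0 10450 0] = true :=
      Pool.Agent.Work.NumUs.chkT_of (Pool.Agent.Work.NumUs.runT_split rfl rfl rfl
        (Pool.Agent.Work.NumUs.runT_split rfl rfl rfl
          c_rd_q1
          c_rd_q2)
        c_rd_q3)

set_option linter.defProp false in
def c_ma : chkT [dF 45 (fm a1 b1) z0 (f0M a10 b10), vYe] 40 12055015351034412099546239897880545948243350653698473638728005663422450148816447789868523308679365825577194797216798953377347748301765745308765769356212252608899726257504188219992897575577302712405921757397118655707371876785179320959578302940477960341943266937059180002987575881998784912000728157705076777191068660340743782058621469414256878641001382893572517873511760978023783628158533656076603537185767662108543840204995774445053225518814516489314067444283848961268334494833390939119870537332275903204995179799041999071007573404126987822711906888045603130509203061009852454734038193343347378082092892960987968001582710748833267532835324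681515264682418433722655905054909553446962421883495977349427225886723395128505126774287636084070378102359106729538916538867689244839726856084384980229939389808043460982231400641650433925701782031145767576038799702641915596408954396444614179401252995193462096154871690579806813954731430112954652469217227543138173973254352134502258136315099192391503348035767144057798357146515831169959437219585082013956280917308027509712652465323614280646172826480040678386753035084312420131986594450913382018907087210281154001240300003550328376900790010590119099162279160180929523783113512454024486966527687210785769594251911207991430658150189794917481946506876669457188228229976715833007060459672170966843112170101620151939991118331808279309785579704878064856738848884873573977987627053642587658104716203241310217128290055126342858517683447008108343264863989920799661667651523163599487251748804613911154184355917152625468704591981558052925953279290299048470891899397693468216577395893972763678149005625816037894731816568615261558090170572526034782484468191256835843767146099052660762471692272085090654679270997830337384383237884946617930418279469088396548750942700027287633671369532297059100527709531327133657769067145148713520699974533785550184665419944547716371079796353973563839332988541466174003751259035631134202604113618858079604594644262873149588427655454697360134747430098349153990456718061447976015860631215160293362625175014484775954876658943974362916292748272103128128395204193223915765047817675407914281286208987682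
    [V.of 100000 59996 60000 0, V.of 100000 500 13000 0, V.of 100000 20 19970 0, V.of 100000 0 10450 0] = true :=
      Pool.Agent.Work.NumUs.chkT_of (Pool.Agent.Work.NumUs.runT_split rfl rfl rfl
        (Pool.Agent.Work.NumUs.runT_split rfl rfl rfl
          (Pool.Agent.Work.NumUs.runT_split rfl rfl rfl
            (Pool.Agent.Work.NumUs.runT_split rfl rfl rfl
              (Pool.Agent.Work.NumUs.runT_split rfl rfl rfl
                (Pool.Agent.Work.NumUs.runT_split rfl rfl rfl
                  (Pool.Agent.Work.NumUs.runT_split rfl rfl rfl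
                    (Pool.Agent.Work.NumUs.runT_split rfl rfl rfl
                      (Pool.Agent.Work.NumUs.runT_split rfl rfl rfl
                        (Pool.Agent.Work.NumUs.runT_split rfl rfl rfl
                          (Pool.Agent.Work.NumUs.runT_split rfl rfl rfl
                            (Pool.Agent.Work.NumUs.runT_split rfl rfl rfl
                              (Pool.Agent.Work.NumUs.runT_split rfl rfl rfl
                                (Pool.Agent.Work.NumUs.runT_split rfl rfl rfl
                                  (Pool.Agent.Work.NumUs.runT_split rfl rfl rfl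
                                    c_ma_q1
                                    c_ma_q2)
                                  c_ma_q3)
                                c_ma_q4)
                              c_ma_q5)
                            c_ma_q6)
                          (Pool.Agent.Work.NumUs.runT_split rfl rfl rfl
                            c_ma_q7
                            (Pool.Agent.Work.NumUs.runT_split rfl rfl rfl
                              (Pool.Agent.Work.NumUs.runT_split rfl rfl rfl
                                c_ma_q8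
                                c_ma_q9)
                              c_ma_q10)))
                        (Pool.Agent.Work.NumUs.runT_split rfl rfl rfl
                          (Pool.Agent.Work.NumUs.runT_split rfl rfl rfl
                            (Pool.Agent.Work.NumUs.runT_split rfl rfl rfl
                              c_ma_q11
                              c_ma_q12)
                            c_ma_q13)
                          c_ma_q14))
                      (Pool.Agent.Work.NumUs.runT_split rfl rfl rfl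
                        c_ma_q15
                        c_ma_q16))
                    (Pool.Agent.Work.NumUs.runT_split rfl rfl rfl
                      c_ma_q17
                      c_ma_q18))
                  c_ma_q19)
                c_ma_q20)
              c_ma_q21)
            c_ma_q22)
          c_ma_q23)
        (Pool.Agent.Work.NumUs.runT_split rfl rfl rfl
          c_ma_q24
          (Pool.Agent.Work.NumUs.runT_split rfl rfl rfl
            c_ma_q25
            (Pool.Agent.Work.NumUs.runT_split rfl rfl rfl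
              c_ma_q26
              (Pool.Agent.Work.NumUs.runT_split rfl rfl rfl
                c_ma_q27
                (Pool.Agent.Work.NumUs.runT_split rfl rfl rfl
                  c_ma_q28
                  (Pool.Agent.Work.NumUs.runT_split rfl rfl rfl
                    c_ma_q29
                    c_ma_q30)))))))

end C60

end ZA

end ZD

end Pool.Agent.Work.MP_b30479_gtS.G2

end

section

/-!
# Rows at rings: two terms of the series of `uu`
-/

namespace Pool.Agent.Work.MP_b30479_gtS.G2

open VOL NumUs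

namespace ZD

namespace ZA

/-- `exp (-2 π t)` -/
noncomputable def qq (t : ℝ) : ℝ := Real.exp (-(2 * Real.pi * t))

/-- two terms of the series -/
noncomputable def sq2 (q a : ℝ) : ℝ :=
  q * Real.sin (2 * Real.pi * a) + 1 / 4 * q ^ 2 * Real.sin (4 * Real.pi * a)

theorem sin_ne {a t : ℝ} (ht : 0 < t) : Complex.sin (Real.pi * (⟨a, t⟩ : ℂ)) ≠ 0 := by
  intro hc
  rw [Complex.sin_eq_zero_iff] at hc
  obtain ⟨k, hk⟩ := hc
  have hk1 : (⟨a, t⟩ : ℂ) = k := by
    have : (Real.pi : ℂ) ≠ 0 := by exact_mod_cast Real.pi_pos.ne'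
    apply mul_left_cancel₀ this
    rw [hk]
    ring
  have hk2 := congrArg Complex.im hk1
  simp only [Complex.intCast_im] at hk2
  exact ht.ne' hk2

theorem uu_a {a t : ℝ} (ht : 0 < t) : HasDerivAt (fun a => uu a t) (LL ⟨a, t⟩) a := by
  have hpt : ∀ s : ℝ, (t : ℂ) * Complex.I + ((1 * s : ℝ) : ℂ) = ⟨s, t⟩ := by
    intro s
    apply Complex.ext <;> simp
  have h2 := hasDerivAt_UU_level ((t : ℂ) * Complex.I) 1 a (by rw [hpt]; exact sin_ne ht)
  simp only [hpt] at h2
  rw [one_mul] at h2
  exact h2

theorem LL_ser {a t : ℝ} (ht : 0 < t) : |LL ⟨a, t⟩ - Real.pi * t +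
    qq t * Real.cos (2 * Real.pi * a) + 1 / 2 * qq t ^ 2 * Real.cos (4 * Real.pi * a)| ≤
      qq t ^ 3 / (3 * (1 - qq t)) := by
  have hp := Real.pi_pos
  have hq0 : 0 < qq t := Real.exp_pos _
  have hq1 : qq t < 1 := by
    unfold qq
    rw [Real.exp_lt_one_iff]
    nlinarith only [hp, ht, mul_pos hp ht]
  set z : ℂ := -((qq t : ℂ) * Complex.exp (((2 * Real.pi * a : ℝ) : ℂ) * Complex.I)) with hz
  have hn : ‖z‖ = qq t := by
    rw [hz, norm_neg, norm_mul, Complex.norm_exp_ofReal_mul_I, mul_one, Complex.norm_real,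
      Real.norm_of_nonneg hq0.le]
  have h := Complex.norm_log_sub_logTaylor_le 2 (z := z) (by rw [hn]; exact hq1)
  have h1 := (Complex.abs_re_le_norm _).trans h
  rw [hn] at h1
  have hT : Complex.logTaylor (2 + 1) z = z - z ^ 2 / 2 := by
    unfold Complex.logTaylor
    rw [Finset.sum_range_succ, Finset.sum_range_succ, Finset.sum_range_succ, Finset.sum_range_zero]
    norm_num
    ring
  have hre : z.re = -(qq t * Real.cos (2 * Real.pi * a)) := by
    rw [hz, Complex.neg_re, Complex.re_ofReal_mul, Complex.exp_ofReal_mul_I_re]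
  have hre2 : (z ^ 2).re = qq t ^ 2 * Real.cos (4 * Real.pi * a) := by
    have e : z ^ 2 = ((qq t ^ 2 : ℝ) : ℂ) *
        Complex.exp (((4 * Real.pi * a : ℝ) : ℂ) * Complex.I) := by
      rw [hz, neg_sq, mul_pow, ← Complex.exp_nat_mul]
      push_cast
      ring_nf
    rw [e, Complex.re_ofReal_mul, Complex.exp_ofReal_mul_I_re]
  have hl : (Complex.log (1 + z)).re = LL ⟨a, t⟩ - Real.pi * t := by
    rw [Complex.log_re, LL_eq']
    simp only
    have e1 : ‖1 + z‖ ^ 2 = 1 - 2 * qq t * Real.cos (2 * Real.pi * a) + qq t ^ 2 := by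
      rw [← Complex.normSq_eq_norm_sq, Complex.normSq_add, Complex.normSq_one,
        Complex.normSq_eq_norm_sq z, hn]
      simp only [one_mul, Complex.conj_re]
      rw [hre]
      ring
    have hpos : 0 < ‖1 + z‖ := by
      rw [norm_pos_iff]
      intro h0
      have : ‖z‖ = 1 := by
        have e : z = -1 := by linear_combination h0
        rw [e, norm_neg, norm_one]
      rw [hn] at this
      linarith only [hq1, this]
    have e2 : 2 * Real.cosh (2 * Real.pi * t) - 2 * Real.cos (2 * Real.pi * a) =
        Real.exp (2 * Real.pi * t) * ‖1 + z‖ ^ 2 := by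
      have e3 : Real.exp (2 * Real.pi * t) * qq t = 1 := by
        unfold qq
        rw [← Real.exp_add]
        simp
      have e4 : Real.exp (-(2 * Real.pi * t)) = qq t := rfl
      rw [e1, Real.cosh_eq, e4]
      linear_combination (2 * Real.cos (2 * Real.pi * a) - qq t) * e3
    rw [e2, Real.log_mul (Real.exp_pos _).ne' (by positivity), Real.log_exp, Real.log_pow]
    push_cast
    ring
  rw [Complex.sub_re, hl, hT, Complex.sub_re, hre] at h1
  have e5 : (z ^ 2 / 2).re = (z ^ 2).re / 2 := by
    rw [Complex.div_re]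
    simp
    ring
  rw [e5, hre2] at h1
  have e6 : LL ⟨a, t⟩ - Real.pi * t - (-(qq t * Real.cos (2 * Real.pi * a)) -
      qq t ^ 2 * Real.cos (4 * Real.pi * a) / 2) = LL ⟨a, t⟩ - Real.pi * t +
    qq t * Real.cos (2 * Real.pi * a) + 1 / 2 * qq t ^ 2 * Real.cos (4 * Real.pi * a) := by ring
  rw [e6] at h1
  refine h1.trans (le_of_eq ?_)
  have : 1 - qq t ≠ 0 := by linarith only [hq1]
  field_simp
  norm_num

/-- the difference -/
noncomputable def hd (t a : ℝ) : ℝ :=
  uu a t - Real.pi * t * (a - 1 / 2) + 1 / (2 * Real.pi) * sq2 (qq t) a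

theorem hd_deriv {a t : ℝ} (ht : 0 < t) : HasDerivAt (hd t) (LL ⟨a, t⟩ - Real.pi * t +
    qq t * Real.cos (2 * Real.pi * a) + 1 / 2 * qq t ^ 2 * Real.cos (4 * Real.pi * a)) a := by
  have h1 := uu_a (a := a) ht
  have h2 : HasDerivAt (fun a => Real.pi * t * (a - 1 / 2)) (Real.pi * t * 1) a :=
    ((hasDerivAt_id a).sub_const _).const_mul _
  have h3 : HasDerivAt (fun a => Real.sin (2 * Real.pi * a))
      (Real.cos (2 * Real.pi * a) * (2 * Real.pi * 1)) a :=
    ((hasDerivAt_id a).const_mul (2 * Real.pi)).sin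
  have h4 : HasDerivAt (fun a => Real.sin (4 * Real.pi * a))
      (Real.cos (4 * Real.pi * a) * (4 * Real.pi * 1)) a :=
    ((hasDerivAt_id a).const_mul (4 * Real.pi)).sin
  have h5 := (h1.sub h2).add (((h3.const_mul (qq t)).add
    (h4.const_mul (1 / 4 * qq t ^ 2))).const_mul (1 / (2 * Real.pi)))
  refine h5.congr_deriv ?_
  have := Real.pi_pos
  field_simp
  ring

theorem hd_close {a b t : ℝ} (ht : 0 < t) (hb : hd t b = 0) (hab : |a - b| ≤ 1 / 4) :
    |hd t a| ≤ qq t ^ 3 / (12 * (1 - qq t)) := by
  have hp := Real.pi_pos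
  have hq0 : 0 < qq t := Real.exp_pos _
  have hq1 : qq t < 1 := by
    unfold qq
    rw [Real.exp_lt_one_iff]
    nlinarith only [hp, ht, mul_pos hp ht]
  have h := Convex.norm_image_sub_le_of_norm_hasDerivWithin_le (s := Set.univ) (f := hd t)
    (f' := fun a => LL ⟨a, t⟩ - Real.pi * t +
    qq t * Real.cos (2 * Real.pi * a) + 1 / 2 * qq t ^ 2 * Real.cos (4 * Real.pi * a))
    (C := qq t ^ 3 / (3 * (1 - qq t))) (x := b) (y := a)
    (fun x _ => (hd_deriv ht).hasDerivWithinAt)
    (fun x _ => by rw [Real.norm_eq_abs]; exact LL_ser ht) convex_univ trivial trivial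
  rw [hb, sub_zero, Real.norm_eq_abs, Real.norm_eq_abs] at h
  have hk : 0 ≤ qq t ^ 3 / (3 * (1 - qq t)) := by
    apply div_nonneg
    · positivity
    · linarith only [hq1]
  have e : qq t ^ 3 / (12 * (1 - qq t)) = qq t ^ 3 / (3 * (1 - qq t)) * (1 / 4) := by
    have : 1 - qq t ≠ 0 := by linarith only [hq1]
    field_simp
    norm_num
  rw [e]
  exact h.trans (mul_le_mul_of_nonneg_left hab hk)

theorem hd_add_one {a t : ℝ} (ht : 0 < t) : hd t (a + 1) = hd t a := by
  unfold hd sq2
  rw [uu_add_one, abs_of_pos ht]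
  have e1 : Real.sin (2 * Real.pi * (a + 1)) = Real.sin (2 * Real.pi * a) := by
    rw [mul_add, mul_one, Real.sin_add_two_pi]
  have e2 : Real.sin (4 * Real.pi * (a + 1)) = Real.sin (4 * Real.pi * a) := by
    rw [show 4 * Real.pi * (a + 1) = 4 * Real.pi * a + 2 * Real.pi + 2 * Real.pi by ring,
      Real.sin_add_two_pi, Real.sin_add_two_pi]
  rw [e1, e2]
  ring

theorem hd_zero {t : ℝ} (ht : 0 < t) : hd t 0 = 0 := by
  unfold hd sq2
  rw [UA.uu_zero, abs_of_pos ht]
  simp
  ring

theorem hd_half {t : ℝ} : hd t (1 / 2) = 0 := by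
  have h := uu_one_sub (1 / 2) t
  have h1 : uu (1 / 2) t = 0 := by
    norm_num at h
    linarith only [h]
  unfold hd sq2
  rw [h1, show 2 * Real.pi * (1 / 2) = Real.pi by ring, show 4 * Real.pi * (1 / 2) = 2 * Real.pi by ring,
    Real.sin_pi, Real.sin_two_pi]
  ring

theorem hd01 {a t : ℝ} (ht : 0 < t) (h0 : 0 ≤ a) (h1 : a ≤ 1) :
    |hd t a| ≤ qq t ^ 3 / (12 * (1 - qq t)) := by
  rcases le_total a (1 / 4) with h | h
  · exact hd_close ht (hd_zero ht) (by rw [abs_le]; constructor <;> linarith only [h0, h])
  · rcases le_total a (3 / 4) with h' | h'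
    · exact hd_close ht hd_half (by rw [abs_le]; constructor <;> linarith only [h, h'])
    · refine hd_close ht (b := 1) ?_ (by rw [abs_le]; constructor <;> linarith only [h', h1])
      rw [← zero_add (1 : ℝ), hd_add_one ht, hd_zero ht]

/-- two terms of the series -/
theorem uu_ser {a t : ℝ} (ht : 0 < t) (h0 : 0 ≤ a) (h1 : a ≤ 2) :
    |uu a t - (Real.pi * t * (a - 1 / 2) - 1 / (2 * Real.pi) * sq2 (qq t) a)| ≤
      qq t ^ 3 / (12 * (1 - qq t)) := by
  have h : |hd t a| ≤ qq t ^ 3 / (12 * (1 - qq t)) := by
    rcases le_total a 1 with h | h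
    · exact hd01 ht h0 h
    · rw [← sub_add_cancel a 1, hd_add_one ht]
      exact hd01 ht (by linarith only [h]) (by linarith only [h1])
  have e : uu a t - (Real.pi * t * (a - 1 / 2) - 1 / (2 * Real.pi) * sq2 (qq t) a) = hd t a := by
    unfold hd
    ring
  rw [e]
  exact h

end ZA

end ZD

end Pool.Agent.Work.MP_b30479_gtS.G2

end

section

/-!
# Rows at rings, side of the ring: the word part without numbers
-/

namespace Pool.Agent.Work.MP_b30479_gtS.G2

open VOL NumUs

namespace ZD

namespace ZA

theorem fR_uu (x Y σ η : ℝ) : fR ⟨x, Y⟩ ⟨σ, η⟩ =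
    uu (x + 1 / 2 + σ) (Y + η) + uu (x + 1 / 2 - σ) (Y - η) - 2 * uu x Y := by
  unfold fR uu
  have e1 : (⟨x, Y⟩ : ℂ) + 1 / 2 + ⟨σ, η⟩ = ⟨x + 1 / 2 + σ, Y + η⟩ := by
    apply Complex.ext <;> simp
  have e2 : (⟨x, Y⟩ : ℂ) + 1 / 2 - ⟨σ, η⟩ = ⟨x + 1 / 2 - σ, Y - η⟩ := by
    apply Complex.ext <;> simp
  rw [e1, e2]

/-- right -/
noncomputable def FR (x Y s e : ℝ) : ℝ :=
  uu (2 * x - 1 + s) (Y + e) - uu s (Y - e) - 2 * uu x Y + Real.pi * e
/-- between -/
noncomputable def FM (x Y s e : ℝ) : ℝ :=
  uu (2 * x - 1 - s) (Y + e) + uu s (Y - e) + Real.pi * Y - 2 * uu x Y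
/-- at height `0` -/
noncomputable def OR (x s e : ℝ) : ℝ := uu (2 * x - 1 + s) e - uu s e - 2 * uu x 0 + Real.pi * e
noncomputable def OM (x s e : ℝ) : ℝ :=
  uu (2 * x - 1 - s) e + uu s e + 2 * (Real.pi * e) - 2 * uu x 0

theorem uu_two_x (x s t : ℝ) : uu (2 * x + s) t = uu (2 * x - 1 + s) t + Real.pi * |t| := by
  rw [← uu_add_one]
  congr 1
  ring

theorem fA_R {x Y s e : ℝ} (h : 0 ≤ Y + e) : fA x Y (x - 1 / 2 + s) e = FR x Y s e := by
  unfold fA FR
  rw [fR_uu, show x + 1 / 2 + (x - 1 / 2 + s) = 2 * x + s by ring,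
    show x + 1 / 2 - (x - 1 / 2 + s) = 1 - s by ring, uu_one_sub, uu_two_x, abs_of_nonneg h]
  ring

theorem fA_L {x Y s e : ℝ} (h : e ≤ Y) : fA x Y (-(x - 1 / 2) - s) e = FR x Y s (-e) := by
  unfold fA FR
  rw [fR_uu, show x + 1 / 2 + (-(x - 1 / 2) - s) = 1 - s by ring,
    show x + 1 / 2 - (-(x - 1 / 2) - s) = 2 * x + s by ring, uu_one_sub, uu_two_x,
    abs_of_nonneg (sub_nonneg.2 h), sub_neg_eq_add, ← sub_eq_add_neg]
  ring

theorem fA_M {x Y s e : ℝ} (h0 : 0 ≤ Y + e) (h : e ≤ Y) :
    fA x Y (x - 1 / 2 - s) e = FM x Y s e := by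
  unfold fA FM
  rw [fR_uu, show x + 1 / 2 + (x - 1 / 2 - s) = 2 * x - 1 - s + 1 by ring,
    show x + 1 / 2 - (x - 1 / 2 - s) = s + 1 by ring, uu_add_one, uu_add_one,
    abs_of_nonneg h0, abs_of_nonneg (sub_nonneg.2 h)]
  ring

theorem o_R {x s e : ℝ} (h : 0 ≤ e) : fR ⟨x, 0⟩ ⟨x - 1 / 2 + s, e⟩ = OR x s e := by
  rw [fR_uu, show x + 1 / 2 + (x - 1 / 2 + s) = 2 * x + s by ring,
    show x + 1 / 2 - (x - 1 / 2 + s) = 1 - s by ring, uu_one_sub, uu_two_x, zero_add,
    zero_sub, uu_neg, abs_of_nonneg h]
  unfold OR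
  ring

theorem o_L {x s e : ℝ} (h : 0 ≤ e) : fR ⟨x, 0⟩ ⟨-(x - 1 / 2) - s, e⟩ = OR x s e := by
  rw [fR_uu, show x + 1 / 2 + (-(x - 1 / 2) - s) = 1 - s by ring,
    show x + 1 / 2 - (-(x - 1 / 2) - s) = 2 * x + s by ring, uu_one_sub, uu_two_x, zero_add,
    zero_sub, uu_neg, abs_neg, abs_of_nonneg h]
  unfold OR
  ring

theorem o_M {x s e : ℝ} (h : 0 ≤ e) : fR ⟨x, 0⟩ ⟨x - 1 / 2 - s, e⟩ = OM x s e := by
  rw [fR_uu, show x + 1 / 2 + (x - 1 / 2 - s) = 2 * x - 1 - s + 1 by ring,
    show x + 1 / 2 - (x - 1 / 2 - s) = s + 1 by ring, uu_add_one, uu_add_one, zero_add,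
    zero_sub, uu_neg, abs_neg, abs_of_nonneg h]
  unfold OM
  ring

/-! ### slopes for `a ∈ [1/2, 1]` -/

theorem slope_ge1 {a t t' : ℝ} (h0 : 0 ≤ a) (h1 : a ≤ 1) (ht : 0 ≤ t) (htt : t ≤ t') :
    uu a t ≤ uu a t' + Real.pi / 2 * (t' - t) := by
  have hp := Real.pi_pos
  rcases le_total a (1 / 2) with h | h
  · exact slope_ge h0 h ht htt
  · have h2 := slope_le (a := 1 - a) (by linarith only [h1]) (by linarith only [h]) ht htt
    rw [uu_one_sub, uu_one_sub] at h2
    nlinarith only [h2, htt, hp]

theorem slope_hi {a t t' : ℝ} (h0 : 1 / 2 ≤ a) (h1 : a ≤ 1) (ht : 0 ≤ t) (htt : t ≤ t') :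
    uu a t ≤ uu a t' := by
  have h2 := slope_le (a := 1 - a) (by linarith only [h1]) (by linarith only [h0]) ht htt
  rw [uu_one_sub, uu_one_sub] at h2
  linarith only [h2]

/-! ### low heights: `Y ≤ η` -/

theorem low_M {x Y s e : ℝ} (hx : 1 / 2 ≤ x) (hx1 : x ≤ 3 / 4) (h0 : 0 ≤ Y) (h1 : Y ≤ e)
    (s0 : 0 ≤ s) (s1 : s ≤ 2 * x - 1) :
    fA x Y (x - 1 / 2 - s) e ≤ OM x s e - Real.pi / 2 * Y := by
  have hp := Real.pi_pos
  unfold fA OM
  rw [fR_uu, show x + 1 / 2 + (x - 1 / 2 - s) = 2 * x - 1 - s + 1 by ring,
    show x + 1 / 2 - (x - 1 / 2 - s) = s + 1 by ring, uu_add_one, uu_add_one,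
    abs_of_nonneg (by linarith only [h0, h1] : 0 ≤ Y + e), abs_of_nonpos (by linarith only [h1] : Y - e ≤ 0)]
  have a1 := slope_le (a := 2 * x - 1 - s) (t := e) (t' := Y + e) (by linarith only [s1]) (by linarith only [hx1, s0])
    (by linarith only [h0, h1]) (by linarith only [h0])
  have a2 := slope_ge (a := s) (t := e - Y) (t' := e) s0 (by linarith only [hx1, s1]) (by linarith only [h1]) (by linarith only [h0])
  have a3 := slope_hi (a := x) (t := 0) (t' := Y) hx (by linarith only [hx1]) le_rfl h0
  have a4 : uu s (Y - e) = uu s (e - Y) := by rw [← uu_neg, neg_sub]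
  rw [a4]
  linarith only [a1, a2, a3]

theorem low_L {x Y s e : ℝ} (hx : 1 / 2 ≤ x) (h0 : 0 ≤ Y) (h1 : Y ≤ e)
    (s0 : 0 ≤ s) (s1 : s ≤ 1 / 2) (s2 : 2 * x - 1 + s ≤ 1) (hx1 : x ≤ 1) :
    fA x Y (-(x - 1 / 2) - s) e ≤ OR x s e - Real.pi * Y := by
  have hp := Real.pi_pos
  unfold fA OR
  rw [fR_uu, show x + 1 / 2 + (-(x - 1 / 2) - s) = 1 - s by ring,
    show x + 1 / 2 - (-(x - 1 / 2) - s) = 2 * x + s by ring, uu_one_sub, uu_two_x,
    abs_of_nonpos (by linarith only [h1] : Y - e ≤ 0)]
  have a1 := slope_ge (a := s) (t := e) (t' := Y + e) s0 s1 (by linarith only [h0, h1]) (by linarith only [h0])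
  have a2 := slope_ge1 (a := 2 * x - 1 + s) (t := e - Y) (t' := e) (by linarith only [hx, s0]) s2
    (by linarith only [h1]) (by linarith only [h0])
  have a3 := slope_hi (a := x) (t := 0) (t' := Y) hx hx1 le_rfl h0
  have a4 : uu (2 * x - 1 + s) (Y - e) = uu (2 * x - 1 + s) (e - Y) := by rw [← uu_neg, neg_sub]
  rw [a4]
  linarith only [a1, a2, a3]

/-- the arithmetic of the low heights -/
theorem low_fin {f f0 B c K m Y : ℝ} (h0 : 0 ≤ Y) (hY : Y ≤ 1 / 8) (hf : f ≤ f0 - m * Y)
    (hm : 3 / 2 ≤ m) (hB : 0 ≤ B) (hK : f0 ≤ K) (hc : 0 ≤ K - c)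
    (h : 49 / 5 * (K - c) + 1 / 1000 ≤ m) :
    f - f0 + (Y / 1000 + PY Y * (f - B - c)) ≤ 0 := by
  have hP : 0 ≤ PY Y := by
    unfold PY
    positivity
  have h1 : PY Y * (f - B - c) ≤ PY Y * (K - m * Y - c) :=
    mul_le_mul_of_nonneg_left (by linarith only [hf, hB, hK]) hP
  have h2 : PY Y * (K - m * Y - c) ≤ 49 / 5 * (K - c) * Y := by
    unfold PY
    have e1 : (49 / 5 * Y + 90 * Y ^ 3) * (K - m * Y - c) = 49 / 5 * (K - c) * Y +
      Y ^ 2 * (90 * Y * (K - c) - 49 / 5 * m - 90 * m * Y ^ 2) := by ring
    rw [e1]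
    have e2 : 90 * Y * (K - c) - 49 / 5 * m - 90 * m * Y ^ 2 ≤ 0 := by
      have e3 : Y * (K - c) ≤ 1 / 8 * (K - c) := mul_le_mul_of_nonneg_right hY hc
      have e4 : 0 ≤ m * Y ^ 2 := by positivity
      nlinarith only [hm, h, e3, e4]
    have e5 : Y ^ 2 * (90 * Y * (K - c) - 49 / 5 * m - 90 * m * Y ^ 2) ≤ 0 :=
      mul_nonpos_of_nonneg_of_nonpos (by positivity) e2
    linarith only [e5]
  have h3 : (49 / 5 * (K - c) + 1 / 1000) * Y ≤ m * Y := mul_le_mul_of_nonneg_right h h0
  linarith only [hf, h1, h2, h3]

/-! ### between: reduction to `η = 0` -/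

theorem red_M {x Y s e : ℝ} (hx1 : x ≤ 3 / 4) (h0 : 0 ≤ e) (h1 : e ≤ Y)
    (s0 : 0 ≤ s) (s1 : s ≤ 2 * x - 1) (hP : PY Y ≤ 1) :
    (1 + PY Y) * FM x Y s e - OM x s e ≤ (1 + PY Y) * FM x Y s 0 - OM x s 0 := by
  have hp := Real.pi_pos
  have hY := h0.trans h1
  have hP0 : 0 ≤ PY Y := by
    unfold PY
    positivity
  unfold FM OM
  rw [add_zero, sub_zero]
  have a1 := slope_le (a := 2 * x - 1 - s) (t := Y) (t' := Y + e) (by linarith only [s1]) (by linarith only [hx1, s0])
    hY (by linarith only [h0])
  have a2 := slope_ge (a := s) (t := Y - e) (t' := Y) s0 (by linarith only [hx1, s1]) (by linarith only [h1]) (by linarith only [h0])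
  have a3 := slope_ge (a := 2 * x - 1 - s) (t := 0) (t' := e) (by linarith only [s1]) (by linarith only [hx1, s0])
    le_rfl h0
  have a4 := slope_ge (a := s) (t := 0) (t' := e) s0 (by linarith only [hx1, s1]) le_rfl h0
  have a5 : (1 + PY Y) * (uu (2 * x - 1 - s) (Y + e) + uu s (Y - e) + Real.pi * Y - 2 * uu x Y) ≤
      (1 + PY Y) * (uu (2 * x - 1 - s) Y + uu s Y + Real.pi * Y - 2 * uu x Y +
        Real.pi / 2 * e) :=
    mul_le_mul_of_nonneg_left (by linarith only [a1, a2]) (by linarith only [hP0])
  have a6 : (1 + PY Y) * (Real.pi / 2 * e) ≤ 2 * (Real.pi / 2 * e) :=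
    mul_le_mul_of_nonneg_right (by linarith only [hP]) (by positivity)
  linarith only [a3, a4, a5, a6]

/-! ### the derivative argument -/

theorem H_mono {f f' : ℝ → ℝ} {a b K : ℝ} (hab : a ≤ b) (hc : Continuous f)
    (hd : ∀ y ∈ Set.Ioo a b, HasDerivAt f (f' y) y)
    (h : ∀ y ∈ Set.Ioo a b, (1 + PY y) * f' y + (1 / 1000 + (49 / 5 + 270 * y ^ 2) *
      (f y - K)) ≤ 0) :
    f b + (b / 1000 + PY b * (f b - K)) ≤ f a + (a / 1000 + PY a * (f a - K)) := by
  have hPc : Continuous PY := by
    unfold PY
    fun_prop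
  have hPd : ∀ y, HasDerivAt PY (49 / 5 + 270 * y ^ 2) y := by
    intro y
    have h1 : HasDerivAt (fun Y : ℝ => 49 / 5 * Y + 90 * Y ^ 3)
        (49 / 5 * 1 + 90 * (3 * y ^ 2 * 1)) y :=
      ((hasDerivAt_id y).const_mul _).add (((hasDerivAt_id y).pow 3).const_mul _)
    exact h1.congr_deriv (by ring)
  refine mono_of (f := fun y => f y + (y / 1000 + PY y * (f y - K)))
    (f' := fun y => f' y + (1 / 1000 + ((49 / 5 + 270 * y ^ 2) * (f y - K) + PY y * f' y))) hab
    (Continuous.continuousOn (by fun_prop)) ?_ ?_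
  · intro y hy
    exact (hd y hy).add (((hasDerivAt_id y).div_const _).add
      ((hPd y).mul ((hd y hy).sub_const K)))
  · intro y hy
    have := h y hy
    linarith only [this]

theorem FR_cont (x s e : ℝ) : Continuous fun Y => FR x Y s e := by
  unfold FR
  have h1 := cont_uu' (f := fun _ : ℝ => 2 * x - 1 + s) (g := fun Y => Y + e) (by fun_prop)
    (by fun_prop)
  have h2 := cont_uu' (f := fun _ : ℝ => s) (g := fun Y => Y - e) (by fun_prop) (by fun_prop)
  have h3 := cont_uu' (f := fun _ : ℝ => x) (g := fun Y : ℝ => Y) (by fun_prop) (by fun_prop)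
  exact ((h1.sub h2).sub (h3.const_mul 2)).add continuous_const

/-- the derivative, `right` -/
noncomputable def FRy (x Y s e : ℝ) : ℝ :=
  NumIs.lnB s (Y - e) - NumIs.lnB (2 * x - 1 + s) (Y + e) + 2 * NumIs.lnB x Y

theorem uu_t' {a c τ : ℝ} (h0 : 0 < a) (h1 : a < 1) :
    HasDerivAt (fun τ => uu a (τ - c)) (-NumIs.lnB a (τ - c)) τ := by
  have h := uu_t (a := a) (c := -c) (τ := τ) h0 h1
  simp only [← sub_eq_add_neg] at h
  exact h

theorem uu_t0 {a τ : ℝ} (h0 : 0 < a) (h1 : a < 1) :
    HasDerivAt (fun τ => uu a τ) (-NumIs.lnB a τ) τ := by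
  have h := uu_t (a := a) (c := 0) (τ := τ) h0 h1
  simp only [add_zero] at h
  exact h

theorem FR_deriv {x Y s e : ℝ} (hx : 1 / 2 < x) (hx1 : x < 1) (s0 : 0 < s) (s1 : s < 1)
    (s2 : 2 * x - 1 + s < 1) : HasDerivAt (fun Y => FR x Y s e) (FRy x Y s e) Y := by
  have h1 := uu_t (a := 2 * x - 1 + s) (c := e) (τ := Y) (by linarith only [hx, s0]) s2
  have h2 := uu_t' (a := s) (c := e) (τ := Y) s0 s1
  have h3 := uu_t0 (a := x) (τ := Y) (by linarith only [hx, hx1]) hx1
  have h4 := ((h1.sub h2).sub (h3.const_mul 2)).add_const (Real.pi * e)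
  refine h4.congr_deriv ?_
  unfold FRy
  ring

theorem FM_cont (x s : ℝ) : Continuous fun Y => FM x Y s 0 := by
  unfold FM
  have h1 := cont_uu' (f := fun _ : ℝ => 2 * x - 1 - s) (g := fun Y => Y + 0) (by fun_prop)
    (by fun_prop)
  have h2 := cont_uu' (f := fun _ : ℝ => s) (g := fun Y => Y - 0) (by fun_prop) (by fun_prop)
  have h3 := cont_uu' (f := fun _ : ℝ => x) (g := fun Y : ℝ => Y) (by fun_prop) (by fun_prop)
  exact ((h1.add h2).add (by fun_prop)).sub (h3.const_mul 2)

/-- the derivative, `between` -/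
noncomputable def FMy (x Y s : ℝ) : ℝ :=
  Real.pi - NumIs.lnB (2 * x - 1 - s) Y - NumIs.lnB s Y + 2 * NumIs.lnB x Y

theorem FM_deriv {x Y s : ℝ} (hx1 : x < 1) (s0 : 0 < s) (s1 : s < 2 * x - 1) :
    HasDerivAt (fun Y => FM x Y s 0) (FMy x Y s) Y := by
  have h1 := uu_t (a := 2 * x - 1 - s) (c := 0) (τ := Y) (by linarith only [s1]) (by linarith only [hx1, s0])
  have h2 := uu_t' (a := s) (c := 0) (τ := Y) s0 (by linarith only [hx1, s1])
  have h3 := uu_t0 (a := x) (τ := Y) (by linarith only [hx1, s0, s1]) hx1
  have h4 := ((h1.add h2).add ((hasDerivAt_id Y).const_mul Real.pi)).sub (h3.const_mul 2)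
  refine h4.congr_deriv ?_
  unfold FMy
  rw [add_zero, sub_zero]
  ring

/-! ### the series -/

theorem vs1_no {x Y s e : ℝ} (h : e ≤ 418 / 1000 * (1 / 2 - s)) : ¬ 0 < vs1.val [x, Y, s, e] := by
  intro hp
  simp only [vs1, vs, ve, E.val, lk2, lk3] at hp
  norm_num at hp
  linarith only [h, hp]

theorem vs2_no {x Y s e : ℝ} (h : e ≤ 418 / 1000 * (1 / 2 + s)) : ¬ 0 < vs2.val [x, Y, s, e] := by
  intro hp
  simp only [vs2, vs, ve, E.val, lk2, lk3] at hp
  norm_num at hp
  linarith only [h, hp]

noncomputable def srR (q a : ℝ) : ℝ :=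
  q * Real.sin (2 * Real.pi * a) - 1 / 4 * q ^ 2 * Real.sin (4 * Real.pi * a)
noncomputable def erR (q : ℝ) : ℝ := q ^ 3 / (12 * (1 - q))

theorem sr_val (Q a : E) (xs : List ℝ) : (sr Q a).val xs = srR (Q.val xs) (a.val xs) := by
  simp only [sr, two, E.val, srR]
  push_cast
  rw [show Real.pi * (2 / 1 * a.val xs) = 2 * Real.pi * a.val xs by ring,
    show Real.pi * (4 / 1 * a.val xs) = 4 * Real.pi * a.val xs by ring]

theorem er_val (Q : E) (xs : List ℝ) : (er Q).val xs = erR (Q.val xs) := by
  simp only [er, E.val, erR]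
  push_cast
  rw [div_eq_mul_inv (Q.val xs ^ 3), mul_inv]
  ring

theorem qe_val (t : E) (xs : List ℝ) : (qe t).val xs = qq (t.val xs) := by
  simp only [qe, two, E.val, qq]
  push_cast
  rw [show 2 / 1 * Real.pi * t.val xs = 2 * Real.pi * t.val xs by ring]

noncomputable def SER (x Y σ η : ℝ) : ℝ :=
  1 / (2 * Real.pi) * (srR (qq (Y + η)) (x + σ) + srR (qq (Y - η)) (x - σ) +
    2 * (qq Y * Real.sin (2 * Real.pi * x) + 1 / 4 * qq Y ^ 2 * Real.sin (4 * Real.pi * x))) +
    (erR (qq (Y + η)) + (erR (qq (Y - η)) + 2 * erR (qq Y)))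

theorem lk4 (a b c d e : ℝ) (l : List ℝ) : NumIs.lkR (a :: b :: c :: d :: e :: l) 4 = e := rfl
theorem lk5 (a b c d e f : ℝ) (l : List ℝ) : NumIs.lkR (a :: b :: c :: d :: e :: f :: l) 5 = f := rfl
theorem lk6 (a b c d e f g : ℝ) (l : List ℝ) :
    NumIs.lkR (a :: b :: c :: d :: e :: f :: g :: l) 6 = g := rfl

theorem ser_val (x Y σ η : ℝ) : ser.val [x, Y, σ, η] = SER x Y σ η := by
  unfold ser SER
  simp only [E.val, sr_val, er_val, qe_val, two, vx, vY, vs, ve, List.cons_append, List.nil_append,
    lk0, lk1, lk2, lk3, lk4, lk5, lk6]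
  push_cast
  rw [show Real.pi * (2 / 1 * x) = 2 * Real.pi * x by ring,
    show Real.pi * (4 / 1 * x) = 4 * Real.pi * x by ring]
  ring

theorem sq2_half (q a : ℝ) : sq2 q (a + 1 / 2) = -srR q a := by
  unfold sq2 srR
  rw [show 2 * Real.pi * (a + 1 / 2) = 2 * Real.pi * a + Real.pi by ring, Real.sin_add_pi,
    show 4 * Real.pi * (a + 1 / 2) = 4 * Real.pi * a + 2 * Real.pi by ring, Real.sin_add_two_pi]
  ring

theorem ser_le {x Y σ η : ℝ} (hx : 1 / 2 ≤ x) (hx1 : x ≤ 1) (h1 : 0 < Y - η) (h2 : 0 < Y + η)
    (s0 : -(1 / 2) ≤ σ) (s1 : σ ≤ 1 / 2) : fA x Y σ η ≤ 2 * Real.pi * η * σ + SER x Y σ η := by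
  have k1 := (abs_le.1 (uu_ser (a := x + 1 / 2 + σ) h2 (by linarith only [hx, s0]) (by linarith only [hx1, s1]))).2
  have k2 := (abs_le.1 (uu_ser (a := x + 1 / 2 - σ) h1 (by linarith only [hx, s1]) (by linarith only [hx1, s0]))).2
  have k3 := (abs_le.1 (uu_ser (a := x) (t := Y) (by linarith only [h1, h2]) (by linarith only [hx]) (by linarith only [hx1]))).1
  rw [show x + 1 / 2 + σ = x + σ + 1 / 2 by ring, sq2_half] at k1
  rw [show x + 1 / 2 - σ = x - σ + 1 / 2 by ring, sq2_half] at k2
  unfold fA SER erR
  rw [fR_uu, show x + 1 / 2 + σ = x + σ + 1 / 2 by ring,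
    show x + 1 / 2 - σ = x - σ + 1 / 2 by ring]
  unfold sq2 at k3
  have e : 1 / (2 * Real.pi) * (srR (qq (Y + η)) (x + σ) + srR (qq (Y - η)) (x - σ) +
    2 * (qq Y * Real.sin (2 * Real.pi * x) + 1 / 4 * qq Y ^ 2 * Real.sin (4 * Real.pi * x))) =
    1 / (2 * Real.pi) * srR (qq (Y + η)) (x + σ) + 1 / (2 * Real.pi) * srR (qq (Y - η)) (x - σ) +
    2 * (1 / (2 * Real.pi) * (qq Y * Real.sin (2 * Real.pi * x) +
      1 / 4 * qq Y ^ 2 * Real.sin (4 * Real.pi * x))) := by ring
  rw [e]
  nlinarith only [k1, k2, k3]

end ZA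

end ZD

end Pool.Agent.Work.MP_b30479_gtS.G2

end

section

/-!
# Rows at rings, side of the ring, `x = .60`
-/

namespace Pool.Agent.Work.MP_b30479_gtS.G2

open VOL NumUs

namespace ZD

namespace ZA

namespace C60

theorem kc : UA.Kc (2 / 100) (15 / 100) := UA.kc_2_15

theorem an {s e u : ℝ} (h0 : 0 ≤ s) (hse : s ≤ e) (he : e ≤ 2 / 100) (hu : |u| ≤ 15 / 100) :
    uu e u ≤ uu s u := UA.anti kc (by norm_num) (by linarith only [h0]) hse he hu

theorem cmpD {P fy fy' q f f' B c : ℝ} (hP : 0 ≤ P) (hq : 0 ≤ q) (h1 : fy ≤ fy') (h2 : f ≤ f')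
    (h : 0 < -(P * fy' + (1 / 1000 + q * (f' - B - c)))) :
    P * fy + (1 / 1000 + q * (f - (B + c))) ≤ 0 := by
  have a1 := mul_le_mul_of_nonneg_left h1 hP
  have a2 := mul_le_mul_of_nonneg_left (sub_le_sub_right h2 (B + c)) hq
  have e : q * (f' - B - c) = q * (f' - (B + c)) := by ring
  rw [e] at h
  linarith only [h, a1, a2]

theorem cmpF {P f f' f0 f0' B c y : ℝ} (hP : 0 ≤ P) (h1 : f ≤ f') (h2 : f0' ≤ f0)
    (h : 0 < -(f' - f0' + (y + P * (f' - B - c)))) :
    f - f0 + (y + P * (f - B - c)) ≤ 0 := by
  have a1 : P * (f - B - c) ≤ P * (f' - B - c) :=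
    mul_le_mul_of_nonneg_left (by linarith only [h1]) hP
  linarith only [h1, h2, h, a1]

theorem PY_nonneg {Y : ℝ} (h : 0 ≤ Y) : 0 ≤ PY Y := by
  unfold PY
  positivity

/-! ### right -/

theorem R_der {x Y s e : ℝ} (x0 : 59996 / 100000 ≤ x) (x1 : x ≤ 60000 / 100000) (Y0 : 0 ≤ Y)
    (Y1 : Y ≤ 12 / 100) (s0 : 0 < s) (s1 : s ≤ 1 - x) (e0 : 0 ≤ e) (e1 : e ≤ 1045 / 10000)
    (e2 : e ≤ 418 / 1000 * (1 - x - s)) :
    (1 + PY Y) * FRy x Y s e + (1 / 1000 + (49 / 5 + 270 * Y ^ 2) *
      (FR x Y s e - (2 * Real.pi * e * (x - 1 / 2 + s) + ((45 : ℤ) : ℝ) / 1000))) ≤ 0 := by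
  have hP : 0 ≤ 1 + PY Y := by linarith only [x0, s0, s1, Y0, PY_nonneg Y0]
  have hq : 0 ≤ 49 / 5 + 270 * Y ^ 2 := by positivity
  rcases le_total s (2 / 1000) with c | c
  · rcases le_total e Y with c1 | c1
    · have h := ex1 (exd (l := [_]) (chkT4 c_rc (by norm_num) (x := x) (y := Y) (z := s) (w := e)
        (by push_cast; linarith only [x0]) (by push_cast; linarith only [x1]) (by push_cast; linarith only [Y0])
        (by push_cast; linarith only [Y1]) (by push_cast; linarith only [s0]) (by push_cast; linarith only [c])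
        (by push_cast; linarith only [e0]) (by push_cast; linarith only [e1])) (vYe_no c1))
      rw [dD_val, fR_val, fRy_val, w2_val, hpi_val, br_val] at h
      refine cmpD hP hq ?_ ?_ h
      · have := lnB_le s (Y - e)
        unfold FRy
        linarith only [this]
      · have := an s0.le c (by norm_num) (u := Y - e) (by rw [abs_le]; constructor <;> linarith only [Y0, s0, e1, c, Y1, e0])
        unfold FR
        linarith only [this]
    · have h := ex1 (exd (l := [_]) (chkT4 c_rd (by norm_num) (x := x) (y := Y) (z := s) (w := e)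
        (by push_cast; linarith only [x0]) (by push_cast; linarith only [x1]) (by push_cast; linarith only [Y0])
        (by push_cast; linarith only [Y1]) (by push_cast; linarith only [s0]) (by push_cast; linarith only [c])
        (by push_cast; linarith only [e0]) (by push_cast; linarith only [e1])) (vYg_no c1))
      rw [dD_val, fR_val, fRy_val, w2_val, l2_val, br_val] at h
      refine cmpD hP hq ?_ ?_ h
      · have := lnB_mono s0 c (by norm_num) (t := Y - e) (by linarith only [c1])
        unfold FRy
        linarith only [this]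
      · have := an s0.le c (by norm_num) (u := Y - e) (by rw [abs_le]; constructor <;> linarith only [Y0, s0, e1, c, Y1, e0])
        unfold FR
        linarith only [this]
  · rcases le_total s (1 / 100) with c1 | c1
    · rcases ex2 (exd (l := [_, _]) (chkT4 c_ra (by norm_num) (x := x) (y := Y) (z := s) (w := e)
        (by push_cast; linarith only [x0]) (by push_cast; linarith only [x1]) (by push_cast; linarith only [Y0])
        (by push_cast; linarith only [Y1]) (by push_cast; linarith only [c]) (by push_cast; linarith only [c1])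
        (by push_cast; linarith only [e0]) (by push_cast; linarith only [e1])) (vio_no e2)) with h | h
      · rw [dD_val, fR_val, fRy_val, w1_val, l1_val, br_val] at h
        refine cmpD hP hq ?_ ?_ h
        · unfold FRy
          exact le_rfl
        · unfold FR
          linarith only []
      · have h := ex1 h
        rw [dD_val, fR_val, fRy_val, w1_val, hpi_val, br_val] at h
        refine cmpD hP hq ?_ ?_ h
        · have := lnB_le s (Y - e)
          unfold FRy
          linarith only [this]
        · unfold FR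
          linarith only []
    · have h := ex1 (exd (l := [_]) (chkT4 c_rb (by norm_num) (x := x) (y := Y) (z := s) (w := e)
        (by push_cast; linarith only [x0]) (by push_cast; linarith only [x1]) (by push_cast; linarith only [Y0])
        (by push_cast; linarith only [Y1]) (by push_cast; linarith only [c1]) (by push_cast; linarith only [x0, s1])
        (by push_cast; linarith only [e0]) (by push_cast; linarith only [e1])) (vio_no e2))
      rw [dD_val, fR_val, fRy_val, w1_val, l1_val, br_val] at h
      refine cmpD hP hq ?_ ?_ h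
      · unfold FRy
        exact le_rfl
      · unfold FR
        linarith only []

theorem R_dir {x Y s e : ℝ} (x0 : 59996 / 100000 ≤ x) (x1 : x ≤ 60000 / 100000) (Y0 : 12 / 100 ≤ Y)
    (Y1 : Y ≤ 13000 / 100000) (s0 : 0 ≤ s) (s1 : s ≤ 1 - x) (e0 : 0 ≤ e) (e1 : e ≤ 1045 / 10000)
    (e2 : e ≤ 418 / 1000 * (1 - x - s)) :
    FR x Y s e - OR x s e + (Y / 1000 + PY Y * (FR x Y s e -
      2 * Real.pi * e * (x - 1 / 2 + s) - ((45 : ℤ) : ℝ) / 1000)) ≤ 0 := by
  have hP : 0 ≤ PY Y := PY_nonneg (by linarith only [Y0])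
  rcases le_total s (2 / 1000) with c | c
  · have h := ex1 (chkT4 c_rB (by norm_num) (x := x) (y := Y) (z := s) (w := e)
      (by push_cast; linarith only [x0]) (by push_cast; linarith only [x1]) (by push_cast; linarith only [Y0])
      (by push_cast; linarith only [Y1]) (by push_cast; linarith only [s0]) (by push_cast; linarith only [c])
      (by push_cast; linarith only [e0]) (by push_cast; linarith only [e1]))
    rw [dF_val, fR_val, f0R_val, w3_val, w5_val, g1_val, br_val] at h
    refine cmpF hP ?_ ?_ h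
    · have := thin s0 c (by norm_num) (u := Y - e) (by rw [abs_le]; constructor <;> linarith only [Y0, e1, Y1, e0])
      unfold FR
      linarith only [s0, this]
    · have := UA.le_zero kc (by norm_num) (b := s) (y := e) s0 (by linarith only [c])
        (by rw [abs_le]; constructor <;> linarith only [e0, e1])
      rw [abs_of_nonneg e0] at this
      unfold OR
      linarith only [this]
  · have h := ex1 (exd (l := [_]) (chkT4 c_rA (by norm_num) (x := x) (y := Y) (z := s) (w := e)
      (by push_cast; linarith only [x0]) (by push_cast; linarith only [x1]) (by push_cast; linarith only [Y0])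
      (by push_cast; linarith only [Y1]) (by push_cast; linarith only [c]) (by push_cast; linarith only [x0, s1])
      (by push_cast; linarith only [e0]) (by push_cast; linarith only [e1])) (vio_no e2))
    rw [dF_val, fR_val, f0R_val, w1_val, w4_val, g1_val, br_val] at h
    refine cmpF hP ?_ ?_ h
    · unfold FR
      linarith only []
    · unfold OR
      linarith only []

/-! ### left (`e ≤ 0`) -/

theorem L_der {x Y s e : ℝ} (x0 : 59996 / 100000 ≤ x) (x1 : x ≤ 60000 / 100000) (Y0 : 0 ≤ Y)
    (Y1 : Y ≤ 12 / 100) (s0 : 0 < s) (s1 : s ≤ 1 - x) (e0 : e ≤ 0) (e1 : -(1045 / 10000) ≤ e)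
    (e2 : -e ≤ 418 / 1000 * (1 - x - s)) (e3 : 0 ≤ e + Y) :
    (1 + PY Y) * FRy x Y s e + (1 / 1000 + (49 / 5 + 270 * Y ^ 2) *
      (FR x Y s e - (0 + ((45 : ℤ) : ℝ) / 1000))) ≤ 0 := by
  have hP : 0 ≤ 1 + PY Y := by linarith only [x0, s0, s1, Y0, PY_nonneg Y0]
  have hq : 0 ≤ 49 / 5 + 270 * Y ^ 2 := by positivity
  rcases le_total s (2 / 1000) with c | c
  · have h := ex1 (exd (l := [_]) (chkT4 c_lc (by norm_num) (x := x) (y := Y) (z := s) (w := e)
      (by push_cast; linarith only [x0]) (by push_cast; linarith only [x1]) (by push_cast; linarith only [Y0])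
      (by push_cast; linarith only [Y1]) (by push_cast; linarith only [s0]) (by push_cast; linarith only [c])
      (by push_cast; linarith only [e1]) (by push_cast; linarith only [e0])) (vYn_no e3))
    rw [dD_val, fR_val, fRy_val, w3_val, hpi_val, z0_val] at h
    refine cmpD hP hq ?_ ?_ h
    · have := lnB_le s (Y - e)
      unfold FRy
      linarith only [this]
    · have := thin s0.le c (by norm_num) (u := Y - e) (by rw [abs_le]; constructor <;> linarith only [Y0, s0, e0, c, Y1, e1])
      unfold FR
      linarith only [s0, this]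
  · rcases le_total s (1 / 100) with c1 | c1
    · rcases ex2 (exd (l := [_, _]) (exd (l := [_, _, _]) (chkT4 c_la (by norm_num) (x := x)
        (y := Y) (z := s) (w := e)
        (by push_cast; linarith only [x0]) (by push_cast; linarith only [x1]) (by push_cast; linarith only [Y0])
        (by push_cast; linarith only [Y1]) (by push_cast; linarith only [c]) (by push_cast; linarith only [c1])
        (by push_cast; linarith only [e1]) (by push_cast; linarith only [e0])) (vioN_no e2)) (vYn_no e3)) with h | h
      · rw [dD_val, fR_val, fRy_val, w1_val, l1_val, z0_val] at h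
        refine cmpD hP hq ?_ ?_ h
        · unfold FRy
          exact le_rfl
        · unfold FR
          linarith only []
      · have h := ex1 h
        rw [dD_val, fR_val, fRy_val, w1_val, hpi_val, z0_val] at h
        refine cmpD hP hq ?_ ?_ h
        · have := lnB_le s (Y - e)
          unfold FRy
          linarith only [this]
        · unfold FR
          linarith only []
    · have h := ex1 (exd (l := [_]) (exd (l := [_, _]) (chkT4 c_lb (by norm_num) (x := x)
        (y := Y) (z := s) (w := e)
        (by push_cast; linarith only [x0]) (by push_cast; linarith only [x1]) (by push_cast; linarith only [Y0])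
        (by push_cast; linarith only [Y1]) (by push_cast; linarith only [c1]) (by push_cast; linarith only [x0, s1])
        (by push_cast; linarith only [e1]) (by push_cast; linarith only [e0])) (vioN_no e2)) (vYn_no e3))
      rw [dD_val, fR_val, fRy_val, w1_val, l1_val, z0_val] at h
      refine cmpD hP hq ?_ ?_ h
      · unfold FRy
        exact le_rfl
      · unfold FR
        linarith only []

theorem OR_neg (x s e : ℝ) : OR x s (-e) =
    uu (2 * x - 1 + s) e - uu s e - 2 * uu x 0 - Real.pi * e := by
  unfold OR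
  rw [uu_neg, uu_neg]
  ring

theorem L_dir {x Y s e : ℝ} (x0 : 59996 / 100000 ≤ x) (x1 : x ≤ 60000 / 100000) (Y0 : 12 / 100 ≤ Y)
    (Y1 : Y ≤ 13000 / 100000) (s0 : 0 ≤ s) (s1 : s ≤ 1 - x) (e0 : e ≤ 0) (e1 : -(1045 / 10000) ≤ e)
    (e2 : -e ≤ 418 / 1000 * (1 - x - s)) :
    FR x Y s e - OR x s (-e) + (Y / 1000 + PY Y * (FR x Y s e -
      0 - ((45 : ℤ) : ℝ) / 1000)) ≤ 0 := by
  have hP : 0 ≤ PY Y := PY_nonneg (by linarith only [Y0])
  rw [OR_neg]
  rcases le_total s (2 / 1000) with c | c
  · have h := ex1 (chkT4 c_lB (by norm_num) (x := x) (y := Y) (z := s) (w := e)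
      (by push_cast; linarith only [x0]) (by push_cast; linarith only [x1]) (by push_cast; linarith only [Y0])
      (by push_cast; linarith only [Y1]) (by push_cast; linarith only [s0]) (by push_cast; linarith only [c])
      (by push_cast; linarith only [e1]) (by push_cast; linarith only [e0]))
    rw [dF_val, fR_val, f0R_val, w3_val, w6_val, g2_val, z0_val] at h
    refine cmpF hP ?_ ?_ h
    · have := thin s0 c (by norm_num) (u := Y - e) (by rw [abs_le]; constructor <;> linarith only [Y0, e0, Y1, e1])
      unfold FR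
      linarith only [s0, this]
    · have := UA.le_zero kc (by norm_num) (b := s) (y := e) s0 (by linarith only [c])
        (by rw [abs_le]; constructor <;> linarith only [e1, e0])
      rw [abs_of_nonpos e0] at this
      linarith only [this]
  · have h := ex1 (exd (l := [_]) (chkT4 c_lA (by norm_num) (x := x) (y := Y) (z := s) (w := e)
      (by push_cast; linarith only [x0]) (by push_cast; linarith only [x1]) (by push_cast; linarith only [Y0])
      (by push_cast; linarith only [Y1]) (by push_cast; linarith only [c]) (by push_cast; linarith only [x0, s1])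
      (by push_cast; linarith only [e1]) (by push_cast; linarith only [e0])) (vioN_no e2))
    rw [dF_val, fR_val, f0R_val, w1_val, w4_val, g2_val, z0_val] at h
    refine cmpF hP ?_ ?_ h
    · unfold FR
      linarith only []
    · linarith only []

/-! ### between -/

theorem M_dir {x Y s e : ℝ} (x0 : 59996 / 100000 ≤ x) (x1 : x ≤ 60000 / 100000) (Y0 : 5 / 1000 ≤ Y)
    (Y1 : Y ≤ 13000 / 100000) (s0 : 0 ≤ s) (s1 : s ≤ 2 * x - 1) (e0 : 0 ≤ e) (e1 : e ≤ 1045 / 10000)
    (e2 : e ≤ Y) :
    FM x Y s e - OM x s e + (Y / 1000 + PY Y * (FM x Y s e -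
      0 - ((45 : ℤ) : ℝ) / 1000)) ≤ 0 := by
  have hP : 0 ≤ PY Y := PY_nonneg (by linarith only [Y0])
  rcases le_total s (2 / 10000) with c | c
  · have hf0 : uu (2 * x - 1 - s) e + uu (2 / 10000) e + 2 * (Real.pi * e) - 2 * uu x 0 ≤
        OM x s e := by
      have := an s0 c (by norm_num) (u := e) (by rw [abs_le]; constructor <;> linarith only [e0, e1])
      unfold OM
      linarith only [this]
    rcases le_total Y (2 / 100) with c1 | c1
    · have h := ex1 (exd (l := [_]) (chkT4 c_mb0 (by norm_num) (x := x) (y := Y) (z := s) (w := e)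
        (by push_cast; linarith only [x0]) (by push_cast; linarith only [x1]) (by push_cast; linarith only [Y0])
        (by push_cast; linarith only [c1]) (by push_cast; linarith only [s0]) (by push_cast; linarith only [c])
        (by push_cast; linarith only [e0]) (by push_cast; linarith only [e2, c1])) (vYe_no e2))
      rw [dF_val, fm_val, f0M_val, a1_val, b2_val, a10_val, e20_val, z0_val] at h
      refine cmpF hP ?_ hf0 h
      have := UA.le_zero kc (by norm_num) (b := s) (y := Y - e) s0 (by linarith only [c])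
        (by rw [abs_le]; constructor <;> linarith only [Y0, e1, Y1, e0])
      rw [abs_of_nonneg (by linarith only [e2] : 0 ≤ Y - e)] at this
      unfold FM
      linarith only [this]
    · have h := ex1 (exd (l := [_]) (chkT4 c_mb (by norm_num) (x := x) (y := Y) (z := s) (w := e)
        (by push_cast; linarith only [x0]) (by push_cast; linarith only [x1]) (by push_cast; linarith only [c1])
        (by push_cast; linarith only [Y1]) (by push_cast; linarith only [s0]) (by push_cast; linarith only [c])
        (by push_cast; linarith only [e0]) (by push_cast; linarith only [e1])) (vYe_no e2))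
      rw [dF_val, fm_val, f0M_val, a1_val, b3_val, a10_val, e20_val, z0_val] at h
      refine cmpF hP ?_ hf0 h
      have := thin (s := 0) (e := s) le_rfl s0 (by linarith only [x1, s1]) (u := Y - e)
        (by rw [abs_le]; constructor <;> linarith only [e1, c1, Y1, e0])
      rw [UA.uu_zero, abs_of_nonneg (by linarith only [e2] : 0 ≤ Y - e)] at this
      unfold FM
      linarith only [c, this]
  rcases le_total (19970 / 100000) s with c2 | c2
  · have b0 : 0 ≤ 2 * x - 1 - s := by linarith only [s1]
    have b1 : 2 * x - 1 - s ≤ 3 / 10000 := by linarith only [x1, c2]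
    have hf0 : uu (3 / 10000) e + uu s e + 2 * (Real.pi * e) - 2 * uu x 0 ≤ OM x s e := by
      have := an b0 b1 (by norm_num) (u := e) (by rw [abs_le]; constructor <;> linarith only [e0, e1])
      unfold OM
      linarith only [this]
    rcases le_total Y (2 / 100) with c1 | c1
    · have h := ex1 (exd (l := [_]) (chkT4 c_mc0 (by norm_num) (x := x) (y := Y) (z := s) (w := e)
        (by push_cast; linarith only [x0]) (by push_cast; linarith only [x1]) (by push_cast; linarith only [Y0])
        (by push_cast; linarith only [c1]) (by push_cast; linarith only [c2]) (by push_cast; linarith only [x1, s1])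
        (by push_cast; linarith only [e0]) (by push_cast; linarith only [e2, c1])) (vYe_no e2))
      rw [dF_val, fm_val, f0M_val, a2_val, b1_val, e30_val, b10_val, z0_val] at h
      refine cmpF hP ?_ hf0 h
      have := UA.le_zero kc (by norm_num) (b := 2 * x - 1 - s) (y := Y + e) b0 (by linarith only [x1, c2])
        (by rw [abs_le]; constructor <;> linarith only [Y0, e0, e1, c1])
      rw [abs_of_nonneg (by linarith only [Y0, e0] : 0 ≤ Y + e)] at this
      unfold FM
      linarith only [this]
    · have h := ex1 (exd (l := [_]) (chkT4 c_mc (by norm_num) (x := x) (y := Y) (z := s) (w := e)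
        (by push_cast; linarith only [x0]) (by push_cast; linarith only [x1]) (by push_cast; linarith only [c1])
        (by push_cast; linarith only [Y1]) (by push_cast; linarith only [c2]) (by push_cast; linarith only [x1, s1])
        (by push_cast; linarith only [e0]) (by push_cast; linarith only [e1])) (vYe_no e2))
      rw [dF_val, fm_val, f0M_val, a3_val, b1_val, e30_val, b10_val, z0_val] at h
      refine cmpF hP ?_ hf0 h
      have := thin (s := 0) (e := 2 * x - 1 - s) le_rfl b0 (by linarith only [x1, c2]) (u := Y + e)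
        (by rw [abs_le]; constructor <;> linarith only [e0, c1, Y1, e1])
      rw [UA.uu_zero, abs_of_nonneg (by linarith only [e0, c1] : 0 ≤ Y + e)] at this
      unfold FM
      linarith only [x1, c2, this]
  have h := ex1 (exd (l := [_]) (chkT4 c_ma (by norm_num) (x := x) (y := Y) (z := s) (w := e)
    (by push_cast; linarith only [x0]) (by push_cast; linarith only [x1]) (by push_cast; linarith only [Y0])
    (by push_cast; linarith only [Y1]) (by push_cast; linarith only [c]) (by push_cast; linarith only [c2])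
    (by push_cast; linarith only [e0]) (by push_cast; linarith only [e1])) (vYe_no e2))
  rw [dF_val, fm_val, f0M_val, a1_val, b1_val, a10_val, b10_val, z0_val] at h
  refine cmpF hP ?_ ?_ h
  · unfold FM
    linarith only []
  · unfold OM
    linarith only []

theorem M_der0 {x Y s : ℝ} (x0 : 59996 / 100000 ≤ x) (x1 : x ≤ 60000 / 100000) (Y0 : 0 ≤ Y)
    (Y1 : Y ≤ 5 / 1000) (s0 : 0 < s) (s1 : s ≤ 2 * x - 1 - s) :
    (1 + PY Y) * FMy x Y s + (1 / 1000 + (49 / 5 + 270 * Y ^ 2) *
      (FM x Y s 0 - (0 + ((45 : ℤ) : ℝ) / 1000))) ≤ 0 := by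
  have hP : 0 ≤ 1 + PY Y := by linarith only [Y0, PY_nonneg Y0]
  have hq : 0 ≤ 49 / 5 + 270 * Y ^ 2 := by positivity
  have hl := lnB_nonneg s0 (by linarith only [x1, s0, s1]) Y0
  rcases le_total s (2 / 10000) with c | c
  · have hz := UA.le_zero kc (by norm_num) (b := s) (y := Y) s0.le (by linarith only [s0, c])
      (by rw [abs_le]; constructor <;> linarith only [Y0, s0, c, Y1])
    rw [abs_of_nonneg Y0] at hz
    rcases ex2 (chkT4 c_nb (by norm_num) (x := x) (y := Y) (z := s) (w := 0)
        (by push_cast; linarith only [x0]) (by push_cast; linarith only [x1]) (by push_cast; linarith only [Y0])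
        (by push_cast; linarith only [Y1]) (by push_cast; linarith only [s0]) (by push_cast; linarith only [c])
        (by push_cast; linarith only []) (by push_cast; linarith only [])) with h | h
    · rw [dD_val, fM0_val, fMy_val, bb2_val, lb2_val, z0_val] at h
      refine cmpD hP hq ?_ ?_ h
      · have := lnB_anti s0 c (by norm_num) Y0
        unfold FMy
        linarith only [this]
      · unfold FM
        rw [add_zero, sub_zero]
        linarith only [hz]
    · have h := ex1 h
      rw [dD_val, fM0_val, fMy_val, bb2_val, z0_val] at h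
      refine cmpD hP hq ?_ ?_ h
      · unfold FMy
        linarith only [hl]
      · unfold FM
        rw [add_zero, sub_zero]
        linarith only [hz]
  · rcases ex2 (chkT4 c_na (by norm_num) (x := x) (y := Y) (z := s) (w := 0)
        (by push_cast; linarith only [x0]) (by push_cast; linarith only [x1]) (by push_cast; linarith only [Y0])
        (by push_cast; linarith only [Y1]) (by push_cast; linarith only [c]) (by push_cast; linarith only [x1, s1])
        (by push_cast; linarith only []) (by push_cast; linarith only [])) with h | h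
    · rw [dD_val, fM0_val, fMy_val, bb1_val, lb1_val, z0_val] at h
      refine cmpD hP hq ?_ ?_ h
      · unfold FMy
        linarith only []
      · unfold FM
        rw [add_zero, sub_zero]
    · have h := ex1 h
      rw [dD_val, fM0_val, fMy_val, bb1_val, z0_val] at h
      refine cmpD hP hq ?_ ?_ h
      · unfold FMy
        linarith only [hl]
      · unfold FM
        rw [add_zero, sub_zero]

theorem M_der {x Y s : ℝ} (x0 : 59996 / 100000 ≤ x) (x1 : x ≤ 60000 / 100000) (Y0 : 0 ≤ Y)
    (Y1 : Y ≤ 5 / 1000) (s0 : 0 < s) (s1 : s < 2 * x - 1) :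
    (1 + PY Y) * FMy x Y s + (1 / 1000 + (49 / 5 + 270 * Y ^ 2) *
      (FM x Y s 0 - (0 + ((45 : ℤ) : ℝ) / 1000))) ≤ 0 := by
  rcases le_total s (2 * x - 1 - s) with h | h
  · exact M_der0 x0 x1 Y0 Y1 s0 h
  · have := M_der0 (s := 2 * x - 1 - s) x0 x1 Y0 Y1 (by linarith only [s1]) (by linarith only [h])
    have e : 2 * x - 1 - (2 * x - 1 - s) = s := by ring
    unfold FMy FM at this ⊢
    rw [e, add_zero, sub_zero] at this
    rw [add_zero, sub_zero]
    have e1 : uu s Y + uu (2 * x - 1 - s) Y = uu (2 * x - 1 - s) Y + uu s Y := add_comm _ _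
    have e2 : Real.pi - NumIs.lnB s Y - NumIs.lnB (2 * x - 1 - s) Y =
        Real.pi - NumIs.lnB (2 * x - 1 - s) Y - NumIs.lnB s Y := by ring
    rw [e1, e2] at this
    exact this

/-! ### the values at `0` -/

theorem K_M {x s e : ℝ} (x0 : 59996 / 100000 ≤ x) (x1 : x ≤ 60000 / 100000)
    (s0 : 0 ≤ s) (s1 : s ≤ 2 * x - 1) (e0 : 0 ≤ e) (e1 : e ≤ 1045 / 10000) :
    OM x s e ≤ 20 / 100 := by
  rcases le_total s (2 / 10000) with c | c
  · have h := ex1 (chkT4 c_kb (by norm_num) (x := x) (y := 0) (z := s) (w := e)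
      (by push_cast; linarith only [x0]) (by push_cast; linarith only [x1]) (by push_cast; linarith only [])
      (by push_cast; linarith only []) (by push_cast; linarith only [s0]) (by push_cast; linarith only [c])
      (by push_cast; linarith only [e0]) (by push_cast; linarith only [e1]))
    rw [E.val, f0M_val, a10_val, w6_val] at h
    have := UA.le_zero kc (by norm_num) (b := s) (y := e) s0 (by linarith only [c])
      (by rw [abs_le]; constructor <;> linarith only [e0, e1])
    rw [abs_of_nonneg e0] at this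
    simp only [E.val] at h
    push_cast at h
    unfold OM
    linarith only [this, h]
  rcases le_total (19970 / 100000) s with c2 | c2
  · have b0 : 0 ≤ 2 * x - 1 - s := by linarith only [s1]
    have b1 : 2 * x - 1 - s ≤ 3 / 10000 := by linarith only [x1, c2]
    have h := ex1 (chkT4 c_kc (by norm_num) (x := x) (y := 0) (z := s) (w := e)
      (by push_cast; linarith only [x0]) (by push_cast; linarith only [x1]) (by push_cast; linarith only [])
      (by push_cast; linarith only []) (by push_cast; linarith only [c2]) (by push_cast; linarith only [x1, s1])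
      (by push_cast; linarith only [e0]) (by push_cast; linarith only [e1]))
    rw [E.val, f0M_val, b10_val, w6_val] at h
    have := UA.le_zero kc (by norm_num) (b := 2 * x - 1 - s) (y := e) b0 (by linarith only [x1, c2])
      (by rw [abs_le]; constructor <;> linarith only [e0, e1])
    rw [abs_of_nonneg e0] at this
    simp only [E.val] at h
    push_cast at h
    unfold OM
    linarith only [this, h]
  have h := ex1 (chkT4 c_ka (by norm_num) (x := x) (y := 0) (z := s) (w := e)
    (by push_cast; linarith only [x0]) (by push_cast; linarith only [x1]) (by push_cast; linarith only [])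
    (by push_cast; linarith only []) (by push_cast; linarith only [c]) (by push_cast; linarith only [c2])
    (by push_cast; linarith only [e0]) (by push_cast; linarith only [e1]))
  rw [E.val, f0M_val, b10_val, a10_val] at h
  simp only [E.val] at h
  push_cast at h
  unfold OM
  linarith only [h]

theorem K_L {x s e : ℝ} (x0 : 59996 / 100000 ≤ x) (x1 : x ≤ 60000 / 100000)
    (s0 : 0 ≤ s) (s1 : s ≤ 1 - x) (e0 : 0 ≤ e) (e1 : e ≤ 1045 / 10000)
    (e2 : e ≤ 418 / 1000 * (1 - x - s)) :
    OR x s e ≤ 30 / 100 := by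
  rcases le_total s (2 / 1000) with c | c
  · have h := ex1 (chkT4 c_ke (by norm_num) (x := x) (y := 0) (z := s) (w := e)
      (by push_cast; linarith only [x0]) (by push_cast; linarith only [x1]) (by push_cast; linarith only [])
      (by push_cast; linarith only []) (by push_cast; linarith only [s0]) (by push_cast; linarith only [c])
      (by push_cast; linarith only [e0]) (by push_cast; linarith only [e1]))
    rw [E.val, f0R_val, g1_val] at h
    have := an s0 c (by norm_num) (u := e) (by rw [abs_le]; constructor <;> linarith only [e0, e1])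
    simp only [E.val, ep, ve, lk3] at h
    norm_num at h
    unfold OR
    linarith only [this, h]
  · have h := ex1 (exd (l := [_]) (chkT4 c_kd (by norm_num) (x := x) (y := 0) (z := s) (w := e)
      (by push_cast; linarith only [x0]) (by push_cast; linarith only [x1]) (by push_cast; linarith only [])
      (by push_cast; linarith only []) (by push_cast; linarith only [c]) (by push_cast; linarith only [x0, s1])
      (by push_cast; linarith only [e0]) (by push_cast; linarith only [e1])) (vio_no e2))
    rw [E.val, f0R_val, g1_val, w4_val] at h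
    simp only [E.val] at h
    push_cast at h
    unfold OR
    linarith only [h]

/-! ### the row near `0` -/

theorem PY0 : PY 0 = 0 := by
  unfold PY
  norm_num

theorem row_R {x Y s e : ℝ} (x0 : 59996 / 100000 ≤ x) (x1 : x ≤ 60000 / 100000) (Y0 : 0 < Y)
    (Y1 : Y ≤ 13000 / 100000) (s0 : 0 < s) (s1 : s ≤ 1 - x) (e0 : 0 ≤ e) (e1 : e ≤ 1045 / 10000)
    (e2 : e ≤ 418 / 1000 * (1 - x - s)) :
    FR x Y s e - OR x s e + (Y / 1000 + PY Y * (FR x Y s e -
      2 * Real.pi * e * (x - 1 / 2 + s) - ((45 : ℤ) : ℝ) / 1000)) ≤ 0 := by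
  rcases le_total Y (12 / 100) with c | c
  · have h := H_mono (f := fun Y => FR x Y s e) (f' := fun Y => FRy x Y s e) (a := 0) (b := Y)
      (K := 2 * Real.pi * e * (x - 1 / 2 + s) + ((45 : ℤ) : ℝ) / 1000) Y0.le (FR_cont x s e)
      (fun y _ => FR_deriv (by linarith only [x0, Y0, c]) (by linarith only [x1, Y0, c]) s0 (by linarith only [x0, Y0, s1, c]) (by linarith only [x1, Y0, s1, c]))
      (fun y hy => R_der x0 x1 hy.1.le (by linarith only [c, hy, hy.2]) s0 s1 e0 e1 e2)
    have e9 : FR x 0 s e = OR x s e := by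
      unfold FR OR
      rw [zero_add, zero_sub, uu_neg]
    rw [e9, PY0, zero_mul, zero_div, add_zero, add_zero, ← sub_sub] at h
    linarith only [h]
  · exact R_dir x0 x1 c Y1 s0.le s1 e0 e1 e2

theorem row_L {x Y s e : ℝ} (x0 : 59996 / 100000 ≤ x) (x1 : x ≤ 60000 / 100000) (Y0 : 0 < Y)
    (Y1 : Y ≤ 13000 / 100000) (s0 : 0 < s) (s1 : s ≤ 1 - x) (e0 : 0 ≤ e) (e1 : e ≤ 1045 / 10000)
    (e2 : e ≤ 418 / 1000 * (1 - x - s)) :
    fA x Y (-(x - 1 / 2) - s) e - OR x s e + (Y / 1000 + PY Y * (fA x Y (-(x - 1 / 2) - s) e -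
      0 - ((45 : ℤ) : ℝ) / 1000)) ≤ 0 := by
  have hlow : ∀ y, 0 ≤ y → y ≤ e → fA x y (-(x - 1 / 2) - s) e - OR x s e + (y / 1000 + PY y *
      (fA x y (-(x - 1 / 2) - s) e - 0 - ((45 : ℤ) : ℝ) / 1000)) ≤ 0 := by
    intro y y0 y1
    refine low_fin (K := 30 / 100) (m := Real.pi) y0 (by linarith only [Y0, Y1, e1, y1]) (low_L (by linarith only [x0, Y0, Y1]) y0 y1 s0.le
      (by linarith only [x0, Y0, Y1, s1]) (by linarith only [x1, Y0, Y1, s1]) (by linarith only [x1, Y0, Y1])) (by linarith only [Y0, Y1, Real.pi_gt_three]) le_rfl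
      (K_L x0 x1 s0.le s1 e0 e1 e2) (by push_cast; norm_num) (by
        push_cast
        linarith only [Y0, Y1, Real.pi_gt_three])
  rcases le_total Y e with c | c
  · exact hlow Y Y0.le c
  rcases le_total Y (12 / 100) with c1 | c1
  · have h := H_mono (f := fun Y => FR x Y s (-e)) (f' := fun Y => FRy x Y s (-e)) (a := e) (b := Y)
      (K := 0 + ((45 : ℤ) : ℝ) / 1000) c (FR_cont x s (-e))
      (fun y _ => FR_deriv (by linarith only [x0, Y0, c1]) (by linarith only [x1, Y0, c1]) s0 (by linarith only [x0, Y0, s1, c1]) (by linarith only [x1, Y0, s1, c1]))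
      (fun y hy => L_der x0 x1 (by linarith only [e0, hy, hy.1]) (by linarith only [c1, hy, hy.2]) s0 s1 (by linarith only [e0])
        (by linarith only [e1]) (by linarith only [e2]) (by linarith only [hy, hy.1]))
    have h1 := hlow e e0 le_rfl
    rw [fA_L le_rfl] at h1
    rw [fA_L c]
    simp only [← sub_sub] at h
    linarith only [h1, h]
  · have h := L_dir (e := -e) x0 x1 c1 Y1 s0.le s1 (by linarith only [e0]) (by linarith only [e1]) (by linarith only [e2])
    rw [neg_neg] at h
    rw [fA_L c]
    exact h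

theorem row_M {x Y s e : ℝ} (x0 : 59996 / 100000 ≤ x) (x1 : x ≤ 60000 / 100000) (Y0 : 0 < Y)
    (Y1 : Y ≤ 13000 / 100000) (s0 : 0 < s) (s1 : s < 2 * x - 1) (e0 : 0 ≤ e)
    (e1 : e ≤ 1045 / 10000) :
    fA x Y (x - 1 / 2 - s) e - OM x s e + (Y / 1000 + PY Y * (fA x Y (x - 1 / 2 - s) e -
      0 - ((45 : ℤ) : ℝ) / 1000)) ≤ 0 := by
  rcases le_total Y e with c | c
  · refine low_fin (K := 20 / 100) (m := Real.pi / 2) Y0.le (by linarith only [Y1, e1, c])
      (low_M (by linarith only [s0, s1]) (by linarith only [x1, s0, s1]) Y0.le c s0.le s1.le) (by linarith only [Real.pi_gt_three])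
      le_rfl (K_M x0 x1 s0.le s1.le e0 e1) (by push_cast; norm_num) (by
        push_cast
        linarith only [x1, s0, s1, Real.pi_gt_d2])
  rw [fA_M (by linarith only [Y0, e0]) c]
  rcases le_total (5 / 1000) Y with c1 | c1
  · exact M_dir x0 x1 c1 Y1 s0.le s1.le e0 e1 c
  have hP : PY Y ≤ 1 := by
    unfold PY
    have : Y ^ 3 ≤ (5 / 1000) ^ 3 := by
      apply pow_le_pow_left₀ Y0.le c1
    nlinarith only [Y0, c1, this]
  have h := H_mono (f := fun Y => FM x Y s 0) (f' := fun Y => FMy x Y s) (a := 0) (b := Y)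
    (K := 0 + ((45 : ℤ) : ℝ) / 1000) Y0.le (FM_cont x s)
    (fun y _ => FM_deriv (by linarith only [x1, Y0, c1]) s0 s1)
    (fun y hy => M_der x0 x1 hy.1.le (by linarith only [c1, hy, hy.2]) s0 s1)
  have h1 := red_M (x := x) (Y := Y) (s := s) (e := e) (by linarith only [x1, Y0, c1]) e0 c s0.le s1.le hP
  have e : FM x 0 s 0 = OM x s 0 := by
    unfold FM OM
    rw [zero_add, sub_zero]
    ring
  rw [e, PY0, zero_mul, zero_div, add_zero, add_zero] at h
  simp only [← sub_sub] at h
  nlinarith only [h1, h]

/-- the row for `σ ≠ ± (x - 1/2)` -/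
theorem row_gen {x Y σ η : ℝ} (x0 : 59996 / 100000 ≤ x) (x1 : x ≤ 60000 / 100000) (Y0 : 0 < Y)
    (Y1 : Y ≤ 13000 / 100000) (h1 : |σ| ≤ 1 / 2) (e0 : 0 ≤ η) (e1 : η ≤ 1045 / 10000 * LT.th σ)
    (n1 : σ ≠ x - 1 / 2) (n2 : σ ≠ -(x - 1 / 2)) :
    fA x Y σ η - fR ⟨x, 0⟩ ⟨σ, η⟩ + (Y / 1000 + PY Y * (fA x Y σ η - bR σ η -
      ((45 : ℤ) : ℝ) / 1000)) ≤ 0 := by
  have hp := Real.pi_pos
  have t1 : LT.th σ ≤ 1 := min_le_left _ _
  have t2 : LT.th σ ≤ 2 - 4 * |σ| := min_le_right _ _
  have e3 : η ≤ 1045 / 10000 := by linarith only [e1, t1]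
  obtain ⟨a1, a2⟩ := abs_le.1 h1
  rcases lt_or_gt_of_ne n1 with c | c
  · rcases lt_or_gt_of_ne n2 with c2 | c2
    · obtain ⟨s, hs⟩ : ∃ s, s = -σ - (x - 1 / 2) := ⟨_, rfl⟩
      have hσ : σ = -(x - 1 / 2) - s := by linarith only [hs]
      have hm : bR σ η = 0 := by
        unfold bR
        rw [max_eq_right (by linarith only [c, c2]), mul_zero]
      rw [hm]
      have t3 : |σ| = -σ := abs_of_nonpos (by linarith only [c, c2])
      rw [t3] at t2
      have h := row_L (s := s) (e := η) x0 x1 Y0 Y1 (by linarith only [c2, hs]) (by linarith only [e0, e1, t2, hs]) e0 e3 (by linarith only [e1, t2, hs])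
      rw [← o_L e0, ← hσ] at h
      exact h
    · obtain ⟨s, hs⟩ : ∃ s, s = x - 1 / 2 - σ := ⟨_, rfl⟩
      have hσ : σ = x - 1 / 2 - s := by linarith only [hs]
      have hm : 0 ≤ bR σ η := by
        unfold bR
        have := le_max_right σ 0
        positivity
      have h := row_M (s := s) (e := η) x0 x1 Y0 Y1 (by linarith only [c, hs]) (by linarith only [c2, hs]) e0 e3
      rw [← o_M e0, ← hσ] at h
      have h2 := mul_nonneg (PY_nonneg Y0.le) hm
      have e5 : PY Y * (fA x Y σ η - bR σ η - ((45 : ℤ) : ℝ) / 1000) =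
        PY Y * (fA x Y σ η - 0 - ((45 : ℤ) : ℝ) / 1000) - PY Y * bR σ η := by ring
      rw [e5]
      linarith only [h, h2]
  · obtain ⟨s, hs⟩ : ∃ s, s = σ - (x - 1 / 2) := ⟨_, rfl⟩
    have hσ : σ = x - 1 / 2 + s := by linarith only [hs]
    have hm : bR σ η = 2 * Real.pi * η * σ := by
      unfold bR
      rw [max_eq_left (by linarith only [x0, Y0, Y1, c])]
    rw [hm]
    have t3 : |σ| = σ := abs_of_nonneg (by linarith only [x0, Y0, Y1, c])
    rw [t3] at t2
    have h := row_R (s := s) (e := η) x0 x1 Y0 Y1 (by linarith only [c, hs]) (by linarith only [e0, e1, t2, hs]) e0 e3 (by linarith only [e1, t2, hs])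
    rw [← o_R e0, ← fA_R (by linarith only [Y0, e0]), ← hσ] at h
    exact h

theorem cont_fR (x Y η : ℝ) : Continuous fun σ : ℝ => fR ⟨x, Y⟩ ⟨σ, η⟩ := by
  simp only [fR_uu]
  have h1 := cont_uu' (f := fun σ : ℝ => x + 1 / 2 + σ) (g := fun _ : ℝ => Y + η) (by fun_prop)
    (by fun_prop)
  have h2 := cont_uu' (f := fun σ : ℝ => x + 1 / 2 - σ) (g := fun _ : ℝ => Y - η) (by fun_prop)
    (by fun_prop)
  exact (h1.add h2).sub continuous_const

/-- **the row near `0`** -/
theorem row {x Y σ η : ℝ} (x0 : 59996 / 100000 ≤ x) (x1 : x ≤ 60000 / 100000) (Y0 : 0 < Y)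
    (Y1 : Y ≤ 13000 / 100000) (h1 : |σ| ≤ 1 / 2) (e0 : 0 ≤ η) (e1 : η ≤ 1045 / 10000 * LT.th σ) :
    fA x Y σ η - fR ⟨x, 0⟩ ⟨σ, η⟩ + (Y / 1000 + PY Y * (fA x Y σ η - bR σ η -
      ((45 : ℤ) : ℝ) / 1000)) ≤ 0 := by
  by_cases n : σ ≠ x - 1 / 2 ∧ σ ≠ -(x - 1 / 2)
  · exact row_gen x0 x1 Y0 Y1 h1 e0 e1 n.1 n.2
  have hσ : |σ| = x - 1 / 2 := by
    rw [not_and_or, not_not, not_not] at n
    rcases n with n | n
    · rw [n, abs_of_nonneg (by linarith only [x0, Y0, Y1])]
    · rw [n, abs_neg, abs_of_nonneg (by linarith only [x0, Y0, Y1])]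
  have hη : η ≤ 1045 / 10000 := by
    have t1 : LT.th σ ≤ 1 := min_le_left _ _
    linarith only [e1, t1]
  have hc : Continuous fun σ : ℝ => fA x Y σ η - fR ⟨x, 0⟩ ⟨σ, η⟩ + (Y / 1000 + PY Y *
      (fA x Y σ η - bR σ η - ((45 : ℤ) : ℝ) / 1000)) := by
    have c1 := cont_fR x Y η
    have c2 := cont_fR x 0 η
    unfold fA bR
    fun_prop
  have hl := (hc.tendsto σ).mono_left (nhdsWithin_le_nhds (s := Set.Ioi σ))
  refine le_of_tendsto hl ?_
  have hm : Set.Ioo σ (σ + 5 / 100) ∈ nhdsWithin σ (Set.Ioi σ) :=
    Ioo_mem_nhdsGT (by linarith only [Y0, Y1])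
  refine Filter.mem_of_superset hm ?_
  intro τ hτ
  obtain ⟨b1, b2⟩ := hτ
  obtain ⟨b3, b4⟩ := abs_le.1 hσ.le
  have t3 : |τ| ≤ 1 / 4 := by
    rw [abs_le]
    constructor <;> linarith only [x1, b1, b2, b3, b4]
  have t4 : LT.th τ = 1 := min_eq_left (by linarith only [t3])
  refine row_gen x0 x1 Y0 Y1 (by linarith only [b1, b2, t3]) e0 (by rw [t4]; linarith only [hη]) ?_ ?_
  · intro h
    rw [not_and_or, not_not, not_not] at n
    rcases n with n | n <;> linarith only [b1, h, n, x0, b2]
  · intro h
    linarith only [b1, b3, h]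

/-! ### the row for larger heights -/

theorem dir_R {x Y s e : ℝ} (x0 : 59996 / 100000 ≤ x) (x1 : x ≤ 60000 / 100000)
    (Y0 : 13000 / 100000 ≤ Y)
    (Y1 : Y ≤ 43 / 100) (s0 : 0 ≤ s) (s1 : s ≤ 1 - x) (e0 : 0 ≤ e) (e1 : e ≤ 1045 / 10000)
    (e2 : e ≤ 418 / 1000 * (1 - x - s)) :
    FR x Y s e ≤ 2 * Real.pi * e * (x - 1 / 2 + s) + 45 / 1000 := by
  rcases le_total s (2 / 1000) with c | c
  · have h := ex1 (chkT4 c_db (by norm_num) (x := x) (y := Y) (z := s) (w := e)
      (by push_cast; linarith only [x0]) (by push_cast; linarith only [x1]) (by push_cast; linarith only [Y0])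
      (by push_cast; linarith only [Y1]) (by push_cast; linarith only [s0]) (by push_cast; linarith only [c])
      (by push_cast; linarith only [e0]) (by push_cast; linarith only [e1]))
    have := thin s0 c (by norm_num) (u := Y - e) (by rw [abs_le]; constructor <;> linarith only [Y0, e1, Y1, e0])
    simp only [E.val, fR_val, w3_val, br_val] at h
    push_cast at h
    unfold FR
    linarith only [s0, this, h]
  · have h := ex1 (exd (l := [_]) (chkT4 c_da (by norm_num) (x := x) (y := Y) (z := s) (w := e)
      (by push_cast; linarith only [x0]) (by push_cast; linarith only [x1]) (by push_cast; linarith only [Y0])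
      (by push_cast; linarith only [Y1]) (by push_cast; linarith only [c]) (by push_cast; linarith only [x0, s1])
      (by push_cast; linarith only [e0]) (by push_cast; linarith only [e1])) (vio_no e2))
    simp only [E.val, fR_val, w1_val, br_val] at h
    push_cast at h
    unfold FR
    linarith only [h]

theorem dir_L {x Y s e : ℝ} (x0 : 59996 / 100000 ≤ x) (x1 : x ≤ 60000 / 100000)
    (Y0 : 13000 / 100000 ≤ Y)
    (Y1 : Y ≤ 43 / 100) (s0 : 0 ≤ s) (s1 : s ≤ 1 - x) (e0 : e ≤ 0) (e1 : -(1045 / 10000) ≤ e)
    (e2 : -e ≤ 418 / 1000 * (1 - x - s)) :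
    FR x Y s e ≤ 45 / 1000 := by
  rcases le_total s (2 / 1000) with c | c
  · have h := ex1 (chkT4 c_dd (by norm_num) (x := x) (y := Y) (z := s) (w := e)
      (by push_cast; linarith only [x0]) (by push_cast; linarith only [x1]) (by push_cast; linarith only [Y0])
      (by push_cast; linarith only [Y1]) (by push_cast; linarith only [s0]) (by push_cast; linarith only [c])
      (by push_cast; linarith only [e1]) (by push_cast; linarith only [e0]))
    have := thin s0 c (by norm_num) (u := Y - e) (by rw [abs_le]; constructor <;> linarith only [Y0, e0, Y1, e1])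
    simp only [E.val, fR_val, w3_val] at h
    push_cast at h
    unfold FR
    linarith only [s0, this, h]
  · have h := ex1 (exd (l := [_]) (chkT4 c_dc (by norm_num) (x := x) (y := Y) (z := s) (w := e)
      (by push_cast; linarith only [x0]) (by push_cast; linarith only [x1]) (by push_cast; linarith only [Y0])
      (by push_cast; linarith only [Y1]) (by push_cast; linarith only [c]) (by push_cast; linarith only [x0, s1])
      (by push_cast; linarith only [e1]) (by push_cast; linarith only [e0])) (vioN_no e2))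
    simp only [E.val, fR_val, w1_val] at h
    push_cast at h
    unfold FR
    linarith only [h]

theorem dir_M {x Y s e : ℝ} (x0 : 59996 / 100000 ≤ x) (x1 : x ≤ 60000 / 100000)
    (Y0 : 13000 / 100000 ≤ Y)
    (Y1 : Y ≤ 43 / 100) (s0 : 0 ≤ s) (s1 : s ≤ 2 * x - 1) (e0 : 0 ≤ e) (e1 : e ≤ 1045 / 10000) :
    FM x Y s e ≤ 2 * Real.pi * e * max (x - 1 / 2 - s) 0 + 45 / 1000 := by
  have hp := Real.pi_pos
  have k1 : 0 ≤ 2 * Real.pi * e * max (x - 1 / 2 - s) 0 := by
    have := le_max_right (x - 1 / 2 - s) 0
    positivity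
  have k2 : 2 * Real.pi * e * (x - 1 / 2 - s) ≤ 2 * Real.pi * e * max (x - 1 / 2 - s) 0 :=
    mul_le_mul_of_nonneg_left (le_max_left _ _) (by positivity)
  rcases le_total s (2 / 10000) with c | c
  · have := thin (s := 0) (e := s) le_rfl s0 (by linarith only [x1, s1]) (u := Y - e)
      (by rw [abs_le]; constructor <;> linarith only [Y0, e1, Y1, e0])
    rw [UA.uu_zero, abs_of_nonneg (by linarith only [Y0, e1] : 0 ≤ Y - e)] at this
    rcases ex2 (chkT4 c_df (by norm_num) (x := x) (y := Y) (z := s) (w := e)
      (by push_cast; linarith only [x0]) (by push_cast; linarith only [x1]) (by push_cast; linarith only [Y0])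
      (by push_cast; linarith only [Y1]) (by push_cast; linarith only [s0]) (by push_cast; linarith only [c])
      (by push_cast; linarith only [e0]) (by push_cast; linarith only [e1])) with h | h
    · simp only [E.val, fm_val, a1_val, b3_val, brM_val] at h
      push_cast at h
      unfold FM
      linarith only [k2, c, this, h]
    · have h := ex1 h
      simp only [E.val, fm_val, a1_val, b3_val] at h
      push_cast at h
      unfold FM
      linarith only [k1, c, this, h]
  rcases le_total (19970 / 100000) s with c2 | c2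
  · have b0 : 0 ≤ 2 * x - 1 - s := by linarith only [s1]
    have b1 : 2 * x - 1 - s ≤ 3 / 10000 := by linarith only [x1, c2]
    have := thin (s := 0) (e := 2 * x - 1 - s) le_rfl b0 (by linarith only [x1, c2]) (u := Y + e)
      (by rw [abs_le]; constructor <;> linarith only [Y0, e0, Y1, e1])
    rw [UA.uu_zero, abs_of_nonneg (by linarith only [Y0, e0] : 0 ≤ Y + e)] at this
    have h := ex1 (chkT4 c_dg (by norm_num) (x := x) (y := Y) (z := s) (w := e)
      (by push_cast; linarith only [x0]) (by push_cast; linarith only [x1]) (by push_cast; linarith only [Y0])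
      (by push_cast; linarith only [Y1]) (by push_cast; linarith only [c2]) (by push_cast; linarith only [x1, s1])
      (by push_cast; linarith only [e0]) (by push_cast; linarith only [e1]))
    simp only [E.val, fm_val, a3_val, b1_val] at h
    push_cast at h
    unfold FM
    linarith only [x1, k1, c2, this, h]
  rcases ex2 (chkT4 c_de (by norm_num) (x := x) (y := Y) (z := s) (w := e)
    (by push_cast; linarith only [x0]) (by push_cast; linarith only [x1]) (by push_cast; linarith only [Y0])
    (by push_cast; linarith only [Y1]) (by push_cast; linarith only [c]) (by push_cast; linarith only [c2])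
    (by push_cast; linarith only [e0]) (by push_cast; linarith only [e1])) with h | h
  · simp only [E.val, fm_val, a1_val, b1_val, brM_val] at h
    push_cast at h
    unfold FM
    linarith only [k2, h]
  · have h := ex1 h
    simp only [E.val, fm_val, a1_val, b1_val] at h
    push_cast at h
    unfold FM
    linarith only [k1, h]

/-- heights up to `43/100` -/
theorem rowd_lo {x Y σ η : ℝ} (x0 : 59996 / 100000 ≤ x) (x1 : x ≤ 60000 / 100000)
    (Y0 : 13000 / 100000 ≤ Y)
    (Y1 : Y ≤ 43 / 100) (h1 : |σ| ≤ 1 / 2) (e0 : 0 ≤ η) (e1 : η ≤ 1045 / 10000 * LT.th σ) :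
    fA x Y σ η ≤ bR σ η + 45 / 1000 := by
  have hp := Real.pi_pos
  have t1 : LT.th σ ≤ 1 := min_le_left _ _
  have t2 : LT.th σ ≤ 2 - 4 * |σ| := min_le_right _ _
  have e3 : η ≤ 1045 / 10000 := by linarith only [e1, t1]
  obtain ⟨a1, a2⟩ := abs_le.1 h1
  rcases le_total σ (x - 1 / 2) with c | c
  · rcases le_total σ (-(x - 1 / 2)) with c2 | c2
    · obtain ⟨s, hs⟩ : ∃ s, s = -σ - (x - 1 / 2) := ⟨_, rfl⟩
      have hσ : σ = -(x - 1 / 2) - s := by linarith only [hs]
      have hm : bR σ η = 0 := by
        unfold bR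
        rw [max_eq_right (by linarith only [c, c2]), mul_zero]
      rw [hm]
      have t3 : |σ| = -σ := abs_of_nonpos (by linarith only [c, c2])
      rw [t3] at t2
      have h := dir_L (s := s) (e := -η) x0 x1 Y0 Y1 (by linarith only [c2, hs]) (by linarith only [e0, e1, t2, hs]) (by linarith only [e0])
        (by linarith only [e1, t1]) (by linarith only [e1, t2, hs])
      rw [← fA_L (by linarith only [Y0, e1, t1]), ← hσ] at h
      linarith only [h]
    · obtain ⟨s, hs⟩ : ∃ s, s = x - 1 / 2 - σ := ⟨_, rfl⟩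
      have hσ : σ = x - 1 / 2 - s := by linarith only [hs]
      have h := dir_M (s := s) (e := η) x0 x1 Y0 Y1 (by linarith only [c, hs]) (by linarith only [c2, hs]) e0 e3
      rw [← fA_M (by linarith only [Y0, e0]) (by linarith only [Y0, e1, t1]), ← hσ] at h
      exact h
  · obtain ⟨s, hs⟩ : ∃ s, s = σ - (x - 1 / 2) := ⟨_, rfl⟩
    have hσ : σ = x - 1 / 2 + s := by linarith only [hs]
    have hm : bR σ η = 2 * Real.pi * η * σ := by
      unfold bR
      rw [max_eq_left (by linarith only [x0, c])]
    rw [hm]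
    have t3 : |σ| = σ := abs_of_nonneg (by linarith only [x0, c])
    rw [t3] at t2
    have h := dir_R (s := s) (e := η) x0 x1 Y0 Y1 (by linarith only [c, hs]) (by linarith only [e0, e1, t2, hs]) e0 e3 (by linarith only [e1, t2, hs])
    rw [← fA_R (by linarith only [Y0, e0]), ← hσ] at h
    exact h

/-- heights from `43/100` on -/
theorem rowd_hi {x Y σ η : ℝ} (x0 : 59996 / 100000 ≤ x) (x1 : x ≤ 60000 / 100000)
    (Y0 : 43 / 100 ≤ Y)
    (Y1 : Y ≤ 1) (h1 : |σ| ≤ 1 / 2) (e0 : 0 ≤ η) (e1 : η ≤ 1045 / 10000 * LT.th σ) :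
    fA x Y σ η ≤ bR σ η + 45 / 1000 := by
  have hp := Real.pi_pos
  have t1 : LT.th σ ≤ 1 := min_le_left _ _
  have t2 : LT.th σ ≤ 2 - 4 * |σ| := min_le_right _ _
  have e3 : η ≤ 1045 / 10000 := by linarith only [e1, t1]
  obtain ⟨a1, a2⟩ := abs_le.1 h1
  have h := ex1 (exd (l := [_]) (exd (l := [_, _]) (chkT4 c_dh (by norm_num) (x := x)
    (y := Y) (z := σ) (w := η)
    (by push_cast; linarith only [x0]) (by push_cast; linarith only [x1]) (by push_cast; linarith only [Y0])
    (by push_cast; linarith only [Y1]) (by push_cast; linarith only [a1]) (by push_cast; linarith only [a2])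
    (by push_cast; linarith only [e0]) (by push_cast; linarith only [e1, t1]))
    (vs2_no (by linarith only [e1, t2, neg_le_abs σ]))) (vs1_no (by linarith only [e1, t2, le_abs_self σ])))
  rw [E.val, ser_val] at h
  simp only [E.val] at h
  push_cast at h
  have k := ser_le (x := x) (Y := Y) (σ := σ) (η := η) (by linarith only [x0]) (by linarith only [x1]) (by linarith only [Y0, e1, t1])
    (by linarith only [Y0, e0]) a1 a2
  have k2 : 2 * Real.pi * η * σ ≤ bR σ η := by
    unfold bR
    exact mul_le_mul_of_nonneg_left (le_max_left _ _) (by positivity)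
  linarith only [h, k, k2]

/-- **the row for larger heights** -/
theorem rowd {x Y σ η : ℝ} (x0 : 59996 / 100000 ≤ x) (x1 : x ≤ 60000 / 100000)
    (Y0 : 13000 / 100000 ≤ Y)
    (Y1 : Y ≤ 1) (h1 : |σ| ≤ 1 / 2) (e0 : 0 ≤ η) (e1 : η ≤ 1045 / 10000 * LT.th σ) :
    fA x Y σ η ≤ bR σ η + 45 / 1000 := by
  rcases le_total Y (43 / 100) with c | c
  · exact rowd_lo x0 x1 Y0 c h1 e0 e1
  · exact rowd_hi x0 x1 c Y1 h1 e0 e1

end C60

end ZA

end ZD

end Pool.Agent.Work.MP_b30479_gtS.G2

end
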